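import Pool.Agent.Lib.MP_6947cd_al.L.BoxDataB
import Pool.Agent.Lib.MP_6947cd_al.L.TeD5
import Pool.Agent.Lib.MP_6947cd_al.L.TeD6

/-!
Problem MP_6947cd_al (Chollet).  CASE B, rows `j`: boxes (generated).
-/

set_option autoImplicit false
set_option linter.defProp false
set_option maxRecDepth 20000

namespace Pool.Agent.Lib.MP_6947cd_al
namespace CB

open Ent Ent.Pk Fr Fr.WT CA

/-! box `yB15_29` -/

def P15_29 : BQ := ⟨(nat_lit 8), (nat_lit 4), (nat_lit 4), (nat_lit 3), (nat_lit 5), (nat_lit 860), (nat_lit 865), (nat_lit 120), [(nat_lit 200), (nat_lit 300), (nat_lit 450), (nat_lit 800)], (nat_lit 129264000), (nat_lit 16000000), (nat_lit 16000000000)⟩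
def q15_29 : PC := ⟨(nat_lit 1000), [(nat_lit 120000), (nat_lit 200000), (nat_lit 300000), (nat_lit 450000), (nat_lit 800000)], (nat_lit 340282367000166625996085689103316680705000000), (nat_lit 15870736000000), (nat_lit 15870736000000), (nat_lit 10000000)⟩
def r15_29 : List PC := [⟨(nat_lit 1330), [(nat_lit 120664), (nat_lit 200975), (nat_lit 301115), (nat_lit 451587), (nat_lit 800788)], (nat_lit 342344818426571036145869933545284369246014535), (nat_lit 16336048678400), (nat_lit 16338883616000), (nat_lit 10055334)⟩, ⟨(nat_lit 1246), [(nat_lit 120484), (nat_lit 200768), (nat_lit 300670), (nat_lit 450512), (nat_lit 799018)], (nat_lit 341801727768842335478099059618075251433228797), (nat_lit 16219813742080), (nat_lit 16221927059200), (nat_lit 10040334)⟩, ⟨(nat_lit 2182), [(nat_lit 123650), (nat_lit 203490), (nat_lit 304764), (nat_lit 461823), (nat_lit 809109)], (nat_lit 347721960389924307083937051421256716269872992), (nat_lit 17403876175360), (nat_lit 17414030406400), (nat_lit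 10304167)⟩]
def s15_29 : List PB := [⟨(nat_lit 26600), (nat_lit 1930624000000), [(nat_lit 200975), (nat_lit 301115), (nat_lit 451587), (nat_lit 800788)], (nat_lit 342344818426571036145869933545284369246014535), (nat_lit 1142235955521024), (nat_lit 1142238790458624), (nat_lit 52800)⟩, ⟨(nat_lit 24920), (nat_lit 1927744000000), [(nat_lit 200768), (nat_lit 300670), (nat_lit 450512), (nat_lit 799018)], (nat_lit 341801727768842335478099059618075251433228797), (nat_lit 1142119720584704), (nat_lit 1142121833901824), (nat_lit 39360)⟩, ⟨(nat_lit 43640), (nat_lit 1978400000000), [(nat_lit 203490), (nat_lit 304764), (nat_lit 461823), (nat_lit 809109)], (nat_lit 347721960389924307083937051421256716269872992), (nat_lit 1143303783017984), (nat_lit 1143313937249024), (nat_lit 189120)⟩]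
def n15_29 : List KN := [⟨(nat_lit 800), (nat_lit 450), (nat_lit 12073119), (nat_lit 6481740)⟩, ⟨(nat_lit 450), (nat_lit 300), (nat_lit 17897616), (nat_lit 12073119)⟩, ⟨(nat_lit 300), (nat_lit 200), (nat_lit 23968959), (nat_lit 17897616)⟩, ⟨(nat_lit 200), (nat_lit 120), (nat_lit 35755509), (nat_lit 23968959)⟩]
def w15_29 : List ℕ := [(nat_lit 52800), (nat_lit 39360), (nat_lit 189120)]
def par15_29 : parC yB15_29 P15_29 s15_29 r15_29 q15_29 n15_29 w15_29 = true := by decide +kernel

def p15_29_0 : PF := (PF.cons (PF.cons (PF.cons (PF.cons (PF.leaf (nat_lit 904297) (nat_lit 2961673) (nat_lit 64147139) (nat_lit 2961673) [(nat_lit 0), (nat_lit 0), (nat_lit 0), (nat_lit 0)]) (PF.cons (PF.leaf (nat_lit 1108390) (nat_lit 342951) (nat_lit 63722630) (nat_lit 3043231) [(nat_lit 342951), (nat_lit 0), (nat_lit 0), (nat_lit 0)]) (PF.cons (PF.leaf (nat_lit 1353933) (nat_lit 379267) (nat_lit 63218943) (nat_lit 3131334) [(nat_lit 379267), (nat_lit 0), (nat_lit 0), (nat_lit 0)]) (PF.cons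 (PF.leaf (nat_lit 1634737) (nat_lit 413018) (nat_lit 62647982) (nat_lit 3221773) [(nat_lit 413018), (nat_lit 0), (nat_lit 0), (nat_lit 0)]) (PF.cons (PF.leaf (nat_lit 1946972) (nat_lit 444607) (nat_lit 62018631) (nat_lit 3311750) [(nat_lit 444607), (nat_lit 0), (nat_lit 0), (nat_lit 0)]) (PF.cons (PF.leaf (nat_lit 2287347) (nat_lit 474237) (nat_lit 61338276) (nat_lit 3399350) [(nat_lit 474237), (nat_lit 0), (nat_lit 0), (nat_lit 0)]) (PF.cons (PF.leaf (nat_lit 2652942) (nat_lit 502020) (nat_lit 60613442) (nat_lit 3483247) [(nat_lit 502020), (nat_lit 0), (nat_lit 0), (nat_lit 0)]) (PF.cons (PF.leaf (nat_lit 3040952) (nat_lit 528026) (nat_lit 59850091) (nat_lit 3562533) [(nat_lit 528026), (nat_lit 0), (nat_lit 0),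
 (nat_lit 0)]) (PF.cons (PF.leaf (nat_lit 3448775) (nat_lit 552307) (nat_lit 59053756) (nat_lit 3636599) [(nat_lit 552307), (nat_lit 0), (nat_lit 0), (nat_lit 0)]) (PF.cons (PF.leaf (nat_lit 3873909) (nat_lit 574904) (nat_lit 58229606) (nat_lit 3705062) [(nat_lit 574904), (nat_lit 0), (nat_lit 0), (nat_lit 0)]) (PF.cons (PF.leaf (nat_lit 4314009) (nat_lit 595863) (nat_lit 57382473) (nat_lit 3767706) [(nat_lit 595863), (nat_lit 0), (nat_lit 0), (nat_lit 0)]) (PF.cons PF.nil (PF.cons PF.nil (PF.cons PF.nil PF.nil)))))))))))))) (PF.cons (PF.cons (PF.leaf (nat_lit 1532445) (nat_lit 1392743) (nat_lit 62488337) (nat_lit 3227732) [(nat_lit 0), (nat_lit 1392743), (nat_lit 0), (nat_lit 0)]) (PF.cons (PF.leaf (nat_lit 1805968) (nat_lit 428220) (nat_lit 61920662) (nat_lit 3308075) [(nat_lit 428220), (nat_lit 1451854), (nat_lit 0), (nat_lit 0)]) (PF.cons (PF.leaf (nat_lit 2112805) (nat_lit 458786) (nat_lit 61291996) (nat_lit 3388975) [(nat_lit 458786), (nat_lit 1510268), (nat_lit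 0), (nat_lit 0)]) (PF.cons (PF.leaf (nat_lit 2448299) (nat_lit 487337) (nat_lit 60611677) (nat_lit 3468265) [(nat_lit 487337), (nat_lit 1566858), (nat_lit 0), (nat_lit 0)]) (PF.cons (PF.leaf (nat_lit 2809063) (nat_lit
 514031) (nat_lit 59887257) (nat_lit 3544488) [(nat_lit 514031), (nat_lit 1620940), (nat_lit 0), (nat_lit 0)]) (PF.cons (PF.leaf (nat_lit 3192116) (nat_lit 538963) (nat_lit 59125252) (nat_lit 3616655) [(nat_lit 538963), (nat_lit 1672088), (nat_lit 0), (nat_lit 0)]) (PF.cons (PF.leaf (nat_lit 3594723) (nat_lit 562196) (nat_lit 58331484) (nat_lit 3684107) [(nat_lit 562196), (nat_lit 1720044), (nat_lit 0), (nat_lit 0)]) (PF.cons (PF.leaf (nat_lit 4014336) (nat_lit 583783) (nat_lit 57511250) (nat_lit 3746420) [(nat_lit 583783), (nat_lit 1764659), (nat_lit 0), (nat_lit 0)]) (PF.cons (PF.leaf (nat_lit 4448581) (nat_lit 603772) (nat_lit 56669412) (nat_lit 3803353) [(nat_lit 603772), (nat_lit 1805867), (nat_lit 0), (nat_lit 0)]) (PF.cons (PF.leaf (nat_lit 4895228)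 (nat_lit 622212) (nat_lit 55810441) (nat_lit 3854795) [(nat_lit 622212), (nat_lit 1843661), (nat_lit 0), (nat_lit 0)]) (PF.cons PF.nil (PF.cons PF.nil PF.nil)))))))))))) (PF.cons (PF.cons (PF.leaf (nat_lit 2283015) (nat_lit 1554122) (nat_lit 60539675) (nat_lit 3460891) [(nat_lit 0), (nat_lit 1554122), (nat_lit 0), (nat_lit 0)]) (PF.cons (PF.leaf (nat_lit 2610970) (nat_lit 498992) (nat_lit 59866135) (nat_lit 3532045) [(nat_lit
 498992), (nat_lit 1605819), (nat_lit 0), (nat_lit 0)]) (PF.cons (PF.leaf (nat_lit 2965353) (nat_lit 524780) (nat_lit 59147269) (nat_lit 3600858) [(nat_lit 524780), (nat_lit 1655562), (nat_lit 0), (nat_lit 0)]) (PF.cons (PF.leaf (nat_lit 3342285) (nat_lit 548777) (nat_lit 58390686) (nat_lit 3666211) [(nat_lit 548777), (nat_lit 1702791), (nat_lit 0), (nat_lit 0)]) (PF.cons (PF.leaf (nat_lit 3738825) (nat_lit 571077) (nat_lit 57602801) (nat_lit 3727363) [(nat_lit 571077), (nat_lit 1747168), (nat_lit 0), (nat_lit 0)]) (PF.cons (PF.leaf (nat_lit 4152278)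 (nat_lit 591750) (nat_lit 56789226) (nat_lit 3783843) [(nat_lit 591750), (nat_lit 1788495), (nat_lit 0), (nat_lit 0)]) (PF.cons (PF.leaf (nat_lit 4580208) (nat_lit 610854) (nat_lit 55954973) (nat_lit 3835371) [(nat_lit 610854), (nat_lit 1826670), (nat_lit 0), (nat_lit 0)]) (PF.cons (PF.leaf (nat_lit 5020373) (nat_lit 628445) (nat_lit 55104562) (nat_lit 3881809) [(nat_lit 628445), (nat_lit 1861662), (nat_lit 0), (nat_lit 0)]) (PF.cons (PF.leaf (nat_lit 5470702) (nat_lit 644577) (nat_lit 54242083) (nat_lit 3923128) [(nat_lit 644577), (nat_lit 1893489), (nat_lit 0), (nat_lit 0)]) (PF.cons PF.nil PF.nil)))))))))) (PF.cons (PF.cons (PF.leaf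
 (nat_lit 3123475) (nat_lit 1687798) (nat_lit 58392668) (nat_lit 3652748) [(nat_lit 0), (nat_lit 1687798), (nat_lit 0), (nat_lit 0)]) (PF.cons (PF.leaf (nat_lit 3492521) (nat_lit 557470) (nat_lit 57646137) (nat_lit 3711525) [(nat_lit 557470), (nat_lit 1731226), (nat_lit 0), (nat_lit 0)]) (PF.cons (PF.leaf (nat_lit 3881912) (nat_lit 578962) (nat_lit 56867745) (nat_lit 3766651) [(nat_lit 578962), (nat_lit 1772163), (nat_lit 0), (nat_lit 0)]) (PF.cons (PF.leaf (nat_lit 4288426) (nat_lit 598823) (nat_lit 56063722) (nat_lit 3817580) [(nat_lit 598823), (nat_lit 1810346), (nat_lit 0), (nat_lit 0)]) (PF.cons (PF.leaf (nat_lit 4709478) (nat_lit 617129) (nat_lit 55239409) (nat_lit 3863984) [(nat_lit 617129), (nat_lit 1845633), (nat_lit 0), (nat_lit 0)]) (PF.cons (PF.leaf (nat_lit 5142744) (nat_lit 633946) (nat_lit 54399494) (nat_lit 3905691) [(nat_lit 633946), (nat_lit 1877964), (nat_lit 0), (nat_lit 0)]) (PF.cons (PF.leaf (nat_lit 5586121) (nat_lit 649337) (nat_lit 53548135) (nat_lit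 3942645) [(nat_lit 649337), (nat_lit 1907336), (nat_lit 0), (nat_lit 0)]) (PF.cons PF.nil (PF.cons PF.nil PF.nil))))))))) (PF.cons (PF.cons (PF.leaf (nat_lit 4025257) (nat_lit 1795184) (nat_lit 56125842)
 (nat_lit 3802234) [(nat_lit 0), (nat_lit 1795184), (nat_lit 0), (nat_lit 0)]) (PF.cons (PF.leaf (nat_lit 4423596) (nat_lit 605008) (nat_lit 55334568) (nat_lit 3847862) [(nat_lit 605008), (nat_lit 1830343), (nat_lit 0), (nat_lit 0)]) (PF.cons (PF.leaf (nat_lit 4837061) (nat_lit 622609) (nat_lit 54522714) (nat_lit 3889398) [(nat_lit 622609), (nat_lit 1862869), (nat_lit 0), (nat_lit 0)]) (PF.cons (PF.leaf (nat_lit 5262915) (nat_lit 638733) (nat_lit 53695313) (nat_lit 3926628) [(nat_lit 638733), (nat_lit 1892667), (nat_lit 0), (nat_lit 0)]) (PF.cons (PF.leaf (nat_lit 5698990) (nat_lit 653450) (nat_lit 52856705) (nat_lit 3959461) [(nat_lit 653450), (nat_lit 1919710), (nat_lit 0), (nat_lit 0)]) (PF.cons (PF.leaf (nat_lit 6143312) (nat_lit 666829) (nat_lit 52010682) (nat_lit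 3987900) [(nat_lit 666829), (nat_lit 1944020), (nat_lit 0), (nat_lit 0)]) (PF.cons PF.nil PF.nil))))))) (PF.cons (PF.cons (PF.leaf (nat_lit 4963973) (nat_lit 1878490) (nat_lit 53804552) (nat_lit 3911808) [(nat_lit 0), (nat_lit 1878490), (nat_lit 0), (nat_lit 0)]) (PF.cons (PF.leaf (nat_lit 5381572) (nat_lit 642810) (nat_lit 52991855) (nat_lit 3944794) [(nat_lit 642810), (nat_lit 1905870), (nat_lit 0), (nat_lit 0)])
 (PF.cons (PF.leaf (nat_lit 5809883) (nat_lit 656929) (nat_lit 52167722) (nat_lit 3973736) [(nat_lit 656929), (nat_lit 1930699), (nat_lit 0), (nat_lit 0)]) (PF.cons (PF.leaf (nat_lit 6246632) (nat_lit 669726) (nat_lit 51336140) (nat_lit 3998606) [(nat_lit 669726), (nat_lit 1952977), (nat_lit 0), (nat_lit 0)]) (PF.cons PF.nil PF.nil))))) (PF.cons (PF.cons (PF.leaf (nat_lit 5919611) (nat_lit 1940382) (nat_lit 51480901) (nat_lit 3985615) [(nat_lit 0), (nat_lit 1940382), (nat_lit 0), (nat_lit 0)]) (PF.cons (PF.leaf (nat_lit 6348200) (nat_lit 672060) (nat_lit 50665230)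 (nat_lit 4007123) [(nat_lit 672060), (nat_lit 1960733), (nat_lit 0), (nat_lit 0)]) (PF.cons (PF.leaf (nat_lit 6783875) (nat_lit 683109) (nat_lit 49845284) (nat_lit 4024893) [(nat_lit 683109), (nat_lit 1978736), (nat_lit 0), (nat_lit 0)]) (PF.cons PF.nil PF.nil)))) (PF.cons (PF.cons (PF.leaf (nat_lit 6876396) (nat_lit 1983688) (nat_lit 49194530) (nat_lit 4028459) [(nat_lit 0), (nat_lit 1983688), (nat_lit 0), (nat_lit 0)]) (PF.cons (PF.leaf (nat_lit 7309377) (nat_lit 693908) (nat_lit 48389861) (nat_lit 4039939) [(nat_lit 693908), (nat_lit 1997872), (nat_lit 0), (nat_lit 0)]) PF.nil)) (PF.cons PF.nil (PF.cons PF.nil (PF.cons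
 PF.nil PF.nil))))))))))) (PF.cons (PF.cons (PF.cons (PF.leaf (nat_lit 2177181) (nat_lit 3455683) (nat_lit 59985231) (nat_lit 3455683) [(nat_lit 0), (nat_lit 0), (nat_lit 3667898), (nat_lit 0)]) (PF.cons (PF.leaf (nat_lit 2469483) (nat_lit 475106) (nat_lit 59381658) (nat_lit 3519531) [(nat_lit 475106), (nat_lit 0), (nat_lit 3732515), (nat_lit 0)]) (PF.cons (PF.leaf (nat_lit 2792856) (nat_lit 503288) (nat_lit 58722290) (nat_lit 3583088) [(nat_lit 503288), (nat_lit 0), (nat_lit 3796856), (nat_lit 0)]) (PF.cons (PF.leaf (nat_lit 3142176) (nat_lit 529110) (nat_lit 58017620) (nat_lit 3644670) [(nat_lit 529110), (nat_lit 0), (nat_lit 3859189), (nat_lit 0)]) (PF.cons (PF.leaf (nat_lit 3513815) (nat_lit 552872) (nat_lit 57275776) (nat_lit 3703173) [(nat_lit 552872), (nat_lit 0), (nat_lit 3918371), (nat_lit 0)]) (PF.cons (PF.leaf (nat_lit 3904690) (nat_lit 574766) (nat_lit 56503469) (nat_lit 3757866) [(nat_lit 574766), (nat_lit 0), (nat_lit 3973644), (nat_lit 0)]) (PF.cons (PF.leaf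 (nat_lit 4312093) (nat_lit 594924) (nat_lit 55706462) (nat_lit 3808284) [(nat_lit 594924), (nat_lit 0), (nat_lit 4024519), (nat_lit 0)]) (PF.cons (PF.leaf (nat_lit 4733578) (nat_lit 613450) (nat_lit 54889813)
 (nat_lit 3854146) [(nat_lit 613450), (nat_lit 0), (nat_lit 4070702), (nat_lit 0)]) (PF.cons (PF.leaf (nat_lit 5166932) (nat_lit 630429) (nat_lit 54058020) (nat_lit 3895313) [(nat_lit 630429), (nat_lit 0), (nat_lit 4112043), (nat_lit 0)]) (PF.cons (PF.leaf (nat_lit 5610130) (nat_lit 645939) (nat_lit 53215108) (nat_lit 3931746) [(nat_lit 645939), (nat_lit 0), (nat_lit 4148502), (nat_lit 0)]) (PF.cons PF.nil (PF.cons PF.nil PF.nil)))))))))))) (PF.cons (PF.cons (PF.leaf (nat_lit 2955807) (nat_lit 1663505) (nat_lit 57959554) (nat_lit 3635459) [(nat_lit 0), (nat_lit 1663505), (nat_lit 3850293), (nat_lit 0)]) (PF.cons (PF.leaf (nat_lit 3295651) (nat_lit 537355) (nat_lit 57268791) (nat_lit 3690416) [(nat_lit 537355), (nat_lit 1706425), (nat_lit 3905823), (nat_lit 0)]) (PF.cons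 (PF.leaf (nat_lit 3659256) (nat_lit 560464) (nat_lit 56538877) (nat_lit 3742905) [(nat_lit 560464), (nat_lit 1747283), (nat_lit 3958816), (nat_lit 0)]) (PF.cons (PF.leaf (nat_lit 4042688) (nat_lit 581653) (nat_lit 55777683) (nat_lit 3792086) [(nat_lit 581653), (nat_lit 1785676), (nat_lit 4008405), (nat_lit 0)]) (PF.cons (PF.leaf (nat_lit 4442956) (nat_lit 601090) (nat_lit 54991611) (nat_lit 3837425) [(nat_lit
 601090), (nat_lit 1821377), (nat_lit 4054037), (nat_lit 0)]) (PF.cons (PF.leaf (nat_lit 4857451) (nat_lit 618899) (nat_lit 54186070) (nat_lit 3878598) [(nat_lit 618899), (nat_lit 1854271), (nat_lit 4095374), (nat_lit 0)]) (PF.cons (PF.leaf (nat_lit 5283868) (nat_lit 635180) (nat_lit 53365743) (nat_lit 3915434) [(nat_lit 635180), (nat_lit 1884316), (nat_lit 4132238), (nat_lit 0)]) (PF.cons (PF.leaf (nat_lit 5720126) (nat_lit 650016) (nat_lit 52534738) (nat_lit 3947872) [(nat_lit 650016), (nat_lit 1911523), (nat_lit 4164563), (nat_lit 0)]) (PF.cons PF.nil (PF.cons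 PF.nil PF.nil)))))))))) (PF.cons (PF.cons (PF.leaf (nat_lit 3806653) (nat_lit 1771007) (nat_lit 55792235) (nat_lit 3779046) [(nat_lit 0), (nat_lit 1771007), (nat_lit 3995515), (nat_lit 0)]) (PF.cons (PF.leaf (nat_lit 4180979) (nat_lit 587563) (nat_lit 55046147) (nat_lit 3822918) [(nat_lit 587563), (nat_lit 1806274), (nat_lit 4039634), (nat_lit 0)]) (PF.cons (PF.leaf (nat_lit 4573128) (nat_lit 606399) (nat_lit 54274035) (nat_lit 3863405) [(nat_lit 606399), (nat_lit 1839156), (nat_lit 4080261), (nat_lit 0)]) (PF.cons (PF.leaf (nat_lit 4979928) (nat_lit 623588) (nat_lit 53481961) (nat_lit 3900123) [(nat_lit 623588), (nat_lit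
 1869481), (nat_lit 4116998), (nat_lit 0)]) (PF.cons (PF.leaf (nat_lit 5398900) (nat_lit 639250) (nat_lit 52674973) (nat_lit 3932861) [(nat_lit 639250), (nat_lit 1897174), (nat_lit 4149627), (nat_lit 0)]) (PF.cons (PF.leaf (nat_lit 5827869) (nat_lit 653481) (nat_lit 51857378) (nat_lit 3961528) [(nat_lit 653481), (nat_lit 1922221), (nat_lit 4178054), (nat_lit 0)]) (PF.cons (PF.leaf (nat_lit 6264908) (nat_lit 666367) (nat_lit 51032904) (nat_lit 3986121) [(nat_lit 666367), (nat_lit 1944653), (nat_lit 4202275), (nat_lit 0)]) (PF.cons PF.nil (PF.cons PF.nil PF.nil))))))))) (PF.cons (PF.cons (PF.leaf (nat_lit 4703843) (nat_lit 1855337) (nat_lit 53552992) (nat_lit 3886417) [(nat_lit 0), (nat_lit 1855337), (nat_lit 4103390), (nat_lit 0)]) (PF.cons (PF.leaf (nat_lit 5101805) (nat_lit 627510) (nat_lit 52777067) (nat_lit 3918894) [(nat_lit 627510), (nat_lit 1883196), (nat_lit 4135751), (nat_lit 0)]) (PF.cons (PF.leaf (nat_lit 5512694) (nat_lit 642642) (nat_lit 51985472) (nat_lit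 3947750) [(nat_lit 642642), (nat_lit 1908644), (nat_lit 4164371), (nat_lit 0)]) (PF.cons (PF.leaf (nat_lit 5933926) (nat_lit 656342) (nat_lit 51182889) (nat_lit 3972856) [(nat_lit 656342), (nat_lit 1931639), (nat_lit
 4189120), (nat_lit 0)]) (PF.cons (PF.leaf (nat_lit 6363464) (nat_lit 668708) (nat_lit 50373256) (nat_lit 3994184) [(nat_lit 668708), (nat_lit 1952190), (nat_lit 4209968), (nat_lit 0)]) (PF.cons PF.nil (PF.cons PF.nil PF.nil))))))) (PF.cons (PF.cons (PF.leaf (nat_lit 5626216) (nat_lit 1918811) (nat_lit 51296706) (nat_lit 3960243) [(nat_lit 0), (nat_lit 1918811), (nat_lit 4176618), (nat_lit 0)]) (PF.cons (PF.leaf (nat_lit 6038913) (nat_lit 658598) (nat_lit 50510924) (nat_lit 3981987) [(nat_lit 658598), (nat_lit 1939851), (nat_lit 4197898), (nat_lit 0)]) (PF.cons (PF.leaf (nat_lit 6460536) (nat_lit 670512) (nat_lit 49717503) (nat_lit 4000242) [(nat_lit 670512), (nat_lit 1958617), (nat_lit 4215573), (nat_lit 0)]) (PF.cons (PF.leaf (nat_lit 6888991) (nat_lit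 681184) (nat_lit 48920029) (nat_lit 4015022) [(nat_lit 681184), (nat_lit 1975137), (nat_lit 4229660), (nat_lit 0)]) (PF.cons PF.nil PF.nil))))) (PF.cons (PF.cons (PF.leaf (nat_lit 6556924) (nat_lit 1963997) (nat_lit 49065220) (nat_lit 4004403) [(nat_lit 0), (nat_lit 1963997), (nat_lit 4219203), (nat_lit 0)]) (PF.cons (PF.leaf (nat_lit 6977215) (nat_lit 682067) (nat_lit 48284760) (nat_lit 4016547) [(nat_lit 682067), (nat_lit
 1978972), (nat_lit 4230573), (nat_lit 0)]) (PF.cons (PF.leaf (nat_lit 7403226) (nat_lit 691206) (nat_lit 47502740) (nat_lit 4025521) [(nat_lit 691206), (nat_lit 1991893), (nat_lit 4238669), (nat_lit 0)]) (PF.cons PF.nil PF.nil)))) (PF.cons (PF.cons (PF.leaf (nat_lit 7482989) (nat_lit 1993492) (nat_lit 46889115) (nat_lit 4023171) [(nat_lit 0), (nat_lit 1993492), (nat_lit 4235572), (nat_lit 0)]) (PF.cons PF.nil PF.nil)) (PF.cons PF.nil (PF.cons PF.nil PF.nil))))))))) (PF.cons (PF.cons (PF.cons (PF.leaf (nat_lit 3614518) (nat_lit 3757304) (nat_lit 55403324)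 (nat_lit 3757304) [(nat_lit 0), (nat_lit 0), (nat_lit 3974092), (nat_lit 0)]) (PF.cons (PF.leaf (nat_lit 3961295) (nat_lit 567208) (nat_lit 54711361) (nat_lit 3798836) [(nat_lit 567208), (nat_lit 0), (nat_lit 4015703), (nat_lit 0)]) (PF.cons (PF.leaf (nat_lit 4329505) (nat_lit 587887) (nat_lit 53985687) (nat_lit 3837868) [(nat_lit 587887), (nat_lit 0), (nat_lit 4054740), (nat_lit 0)]) (PF.cons (PF.leaf (nat_lit 4715192) (nat_lit 606576) (nat_lit 53234154) (nat_lit 3873784) [(nat_lit 606576), (nat_lit 0), (nat_lit 4090571), (nat_lit 0)]) (PF.cons (PF.leaf (nat_lit 5115389) (nat_lit 623502) (nat_lit 52462966) (nat_lit 3906212)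
 [(nat_lit 623502), (nat_lit 0), (nat_lit 4122812), (nat_lit 0)]) (PF.cons (PF.leaf (nat_lit 5527585) (nat_lit 638827) (nat_lit 51677230) (nat_lit 3934946) [(nat_lit 638827), (nat_lit 0), (nat_lit 4151248), (nat_lit 0)]) (PF.cons (PF.leaf (nat_lit 5949637) (nat_lit 652681) (nat_lit 50881256) (nat_lit 3959894) [(nat_lit 652681), (nat_lit 0), (nat_lit 4175786), (nat_lit 0)]) (PF.cons (PF.leaf (nat_lit 6379600) (nat_lit 665169) (nat_lit 50078735) (nat_lit 3981052) [(nat_lit 665169), (nat_lit 0), (nat_lit 4196417), (nat_lit 0)]) (PF.cons PF.nil (PF.cons PF.nil PF.nil)))))))))) (PF.cons (PF.cons (PF.leaf (nat_lit 4465611) (nat_lit 1831002) (nat_lit 53259331) (nat_lit 3861529) [(nat_lit 0), (nat_lit 1831002), (nat_lit 4078474), (nat_lit 0)]) (PF.cons (PF.leaf (nat_lit 4841411) (nat_lit 610218) (nat_lit 52526206) (nat_lit 3893176) [(nat_lit 610218), (nat_lit 1859382), (nat_lit 4109914), (nat_lit 0)]) (PF.cons (PF.leaf (nat_lit 5232885) (nat_lit 626719) (nat_lit 51771848) (nat_lit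 3921715) [(nat_lit 626719), (nat_lit 1885507), (nat_lit 4138151), (nat_lit 0)]) (PF.cons (PF.leaf (nat_lit 5636963) (nat_lit 641588) (nat_lit 51002039) (nat_lit 3946890) [(nat_lit 641588), (nat_lit 1909279),
 (nat_lit 4162919), (nat_lit 0)]) (PF.cons (PF.leaf (nat_lit 6051272) (nat_lit 654975) (nat_lit 50221477) (nat_lit 3968577) [(nat_lit 654975), (nat_lit 1930671), (nat_lit 4184092), (nat_lit 0)]) (PF.cons (PF.leaf (nat_lit 6473804) (nat_lit 667000) (nat_lit 49434082) (nat_lit 3986745) [(nat_lit 667000), (nat_lit 1949704), (nat_lit 4201639), (nat_lit 0)]) (PF.cons (PF.leaf (nat_lit 6902759) (nat_lit 677765) (nat_lit 48643172) (nat_lit 4001428) [(nat_lit 677765), (nat_lit 1966431), (nat_lit 4215594), (nat_lit 0)]) (PF.cons PF.nil (PF.cons PF.nil PF.nil))))))))) (PF.cons (PF.cons (PF.leaf (nat_lit 5351241) (nat_lit 1896206) (nat_lit 51079571) (nat_lit 3934829) [(nat_lit 0), (nat_lit 1896206), (nat_lit 4150998), (nat_lit 0)]) (PF.cons (PF.leaf (nat_lit 5746117) (nat_lit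 643681) (nat_lit 50327955) (nat_lit 3956631) [(nat_lit 643681), (nat_lit 1917977), (nat_lit 4172294), (nat_lit 0)]) (PF.cons (PF.leaf (nat_lit 6152111) (nat_lit 656685) (nat_lit 49564498) (nat_lit 3975240) [(nat_lit 656685), (nat_lit 1937553), (nat_lit 4190297), (nat_lit 0)]) (PF.cons (PF.leaf (nat_lit 6566780) (nat_lit 668317) (nat_lit 48793511) (nat_lit 3990595) [(nat_lit 668317), (nat_lit 1954932), (nat_lit 4204944),
 (nat_lit 0)]) (PF.cons (PF.leaf (nat_lit 6988228) (nat_lit 678689) (nat_lit 48018546) (nat_lit 4002709) [(nat_lit 678689), (nat_lit 1970148), (nat_lit 4216251), (nat_lit 0)]) (PF.cons PF.nil (PF.cons PF.nil PF.nil))))))) (PF.cons (PF.cons (PF.leaf (nat_lit 6253064) (nat_lit 1943381) (nat_lit 48909659) (nat_lit 3979990) [(nat_lit 0), (nat_lit 1943381), (nat_lit 4194509), (nat_lit 0)]) (PF.cons (PF.leaf (nat_lit 6659127) (nat_lit 669113) (nat_lit 48156558) (nat_lit 3992702) [(nat_lit 669113), (nat_lit 1959189), (nat_lit 4206435), (nat_lit 0)]) (PF.cons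 (PF.leaf (nat_lit 7072683) (nat_lit 679156) (nat_lit 47398640) (nat_lit 4002407) [(nat_lit 679156), (nat_lit 1972975), (nat_lit 4215262), (nat_lit 0)]) (PF.cons (PF.leaf (nat_lit 7491780) (nat_lit 688037) (nat_lit 46639119) (nat_lit 4009151) [(nat_lit 688037), (nat_lit 1984786), (nat_lit 4221035), (nat_lit 0)]) (PF.cons PF.nil PF.nil))))) (PF.cons (PF.cons (PF.leaf (nat_lit 7156881) (nat_lit 1974961) (nat_lit 46782940) (nat_lit 4000604) [(nat_lit 0), (nat_lit 1974961), (nat_lit 4212711), (nat_lit 0)]) (PF.cons (PF.leaf (nat_lit 7567944) (nat_lit 687769) (nat_lit 46040809) (nat_lit 4005300) [(nat_lit 687769), (nat_lit 1985543),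
 (nat_lit 4216379), (nat_lit 0)]) (PF.cons PF.nil (PF.cons PF.nil PF.nil)))) (PF.cons (PF.cons (PF.leaf (nat_lit 8051981) (nat_lit 1993307) (nat_lit 44722819) (nat_lit 4000440) [(nat_lit 0), (nat_lit 1993307), (nat_lit 4209507), (nat_lit 0)]) (PF.cons PF.nil PF.nil)) (PF.cons PF.nil (PF.cons PF.nil PF.nil)))))))) (PF.cons (PF.cons (PF.cons (PF.leaf (nat_lit 5097472) (nat_lit 3909442) (nat_lit 50822957) (nat_lit 3909442) [(nat_lit 0), (nat_lit 0), (nat_lit 4125471), (nat_lit 0)]) (PF.cons (PF.leaf (nat_lit 5471920) (nat_lit 626766) (nat_lit 50111320) (nat_lit 3931078) [(nat_lit 626766), (nat_lit 0), (nat_lit 4146549), (nat_lit 0)]) (PF.cons (PF.leaf (nat_lit 5860251) (nat_lit 641224) (nat_lit 49382335) (nat_lit 3949887) [(nat_lit 641224), (nat_lit 0), (nat_lit 4164713), (nat_lit 0)]) (PF.cons (PF.leaf (nat_lit 6259480) (nat_lit 654083) (nat_lit 48641440) (nat_lit 3965710) [(nat_lit 654083), (nat_lit 0), (nat_lit 4179803), (nat_lit 0)]) (PF.cons (PF.leaf (nat_lit 6667378)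 (nat_lit 665519) (nat_lit 47892971) (nat_lit 3978487) [(nat_lit 665519), (nat_lit 0), (nat_lit 4191758), (nat_lit 0)]) (PF.cons (PF.leaf (nat_lit 7082041) (nat_lit 675667) (nat_lit 47140470) (nat_lit 3988230)
 [(nat_lit 675667), (nat_lit 0), (nat_lit 4200592), (nat_lit 0)]) (PF.cons PF.nil (PF.cons PF.nil (PF.cons PF.nil PF.nil))))))))) (PF.cons (PF.cons (PF.leaf (nat_lit 5966811) (nat_lit 1921647) (nat_lit 48723430) (nat_lit 3955229) [(nat_lit 0), (nat_lit 1921647), (nat_lit 4169501), (nat_lit 0)]) (PF.cons (PF.leaf (nat_lit 6356696) (nat_lit 654704) (nat_lit 48001777) (nat_lit 3968393) [(nat_lit 654704), (nat_lit 1938351), (nat_lit 4181861), (nat_lit 0)]) (PF.cons (PF.leaf (nat_lit 6756219) (nat_lit 665882) (nat_lit 47271233) (nat_lit 3978751) [(nat_lit 665882), (nat_lit 1953068), (nat_lit 4191331), (nat_lit 0)]) (PF.cons (PF.leaf (nat_lit 7163062) (nat_lit 675750) (nat_lit 46535745) (nat_lit 3986291) [(nat_lit 675750), (nat_lit 1965821), (nat_lit 4197900), (nat_lit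 0)]) (PF.cons (PF.leaf (nat_lit 7575468) (nat_lit 684435) (nat_lit 45798511) (nat_lit 3991055) [(nat_lit 684435), (nat_lit 1976663), (nat_lit 4201613), (nat_lit 0)]) (PF.cons PF.nil (PF.cons PF.nil PF.nil))))))) (PF.cons (PF.cons (PF.leaf (nat_lit 6845553) (nat_lit 1955455) (nat_lit 46652472) (nat_lit 3977487) [(nat_lit 0), (nat_lit 1955455), (nat_lit 4189313), (nat_lit 0)]) (PF.cons (PF.leaf (nat_lit 7243857) (nat_lit
 675382) (nat_lit 45935235) (nat_lit 3982968) [(nat_lit 675382), (nat_lit 1966956), (nat_lit 4193771), (nat_lit 0)]) (PF.cons (PF.leaf (nat_lit 7648505) (nat_lit 683842) (nat_lit 45215246) (nat_lit 3985863) [(nat_lit 683842), (nat_lit 1976661), (nat_lit 4195564), (nat_lit 0)]) (PF.cons PF.nil (PF.cons PF.nil PF.nil))))) (PF.cons (PF.cons (PF.leaf (nat_lit 7721669) (nat_lit 1975984) (nat_lit 44636532) (nat_lit 3979483) [(nat_lit 0), (nat_lit 1975984), (nat_lit 4188281), (nat_lit 0)]) (PF.cons (PF.leaf (nat_lit 8123007) (nat_lit 690038) (nat_lit 43933937)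 (nat_lit 3978282) [(nat_lit 690038), (nat_lit 1982983), (nat_lit 4185867), (nat_lit 0)]) (PF.cons PF.nil (PF.cons PF.nil PF.nil)))) (PF.cons (PF.cons (PF.leaf (nat_lit 8586269) (nat_lit 1985355) (nat_lit 42693417) (nat_lit 3964519) [(nat_lit 0), (nat_lit 1985355), (nat_lit 4169817), (nat_lit 0)]) (PF.cons PF.nil PF.nil)) (PF.cons PF.nil PF.nil)))))) (PF.cons (PF.cons (PF.cons (PF.leaf (nat_lit 6550986) (nat_lit 3953793) (nat_lit 46493577) (nat_lit 3953793) [(nat_lit 0), (nat_lit 0), (nat_lit 4165360), (nat_lit 0)]) (PF.cons (PF.leaf (nat_lit 6934573) (nat_lit 661555) (nat_lit 45805110) (nat_lit 3959997) [(nat_lit 661555), (nat_lit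
 0), (nat_lit 4170537), (nat_lit 0)]) (PF.cons (PF.leaf (nat_lit 7326587) (nat_lit 671167) (nat_lit 45110003) (nat_lit 3963740) [(nat_lit 671167), (nat_lit 0), (nat_lit 4173183), (nat_lit 0)]) (PF.cons (PF.leaf (nat_lit 7724829) (nat_lit 679536) (nat_lit 44411862) (nat_lit 3965046) [(nat_lit 679536), (nat_lit 0), (nat_lit 4173323), (nat_lit 0)]) (PF.cons (PF.leaf (nat_lit 8127663) (nat_lit 686796) (nat_lit 43713560) (nat_lit 3963975) [(nat_lit 686796), (nat_lit 0), (nat_lit 4171022), (nat_lit 0)]) PF.nil))))) (PF.cons (PF.cons (PF.leaf (nat_lit 7405300) (nat_lit 1957659) (nat_lit 44527834) (nat_lit 3957836) [(nat_lit 0), (nat_lit 1957659), (nat_lit 4166370), (nat_lit 0)]) (PF.cons (PF.leaf (nat_lit 7795163) (nat_lit 678246) (nat_lit 43847809) (nat_lit 3957559) [(nat_lit 678246), (nat_lit 1965622), (nat_lit 4164893), (nat_lit 0)]) (PF.cons (PF.leaf (nat_lit 8190443) (nat_lit 685365) (nat_lit 43166519) (nat_lit 3955056) [(nat_lit 685365), (nat_lit 1971992), (nat_lit 4161128),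 (nat_lit 0)]) (PF.cons PF.nil PF.nil)))) (PF.cons (PF.cons (PF.leaf (nat_lit 8253691) (nat_lit 1969236) (nat_lit 42624109) (nat_lit 3945197) [(nat_lit 0), (nat_lit 1969236), (nat_lit 4150258), (nat_lit 0)])
 (PF.cons (PF.leaf (nat_lit 8645102) (nat_lit 689580) (nat_lit 41960949) (nat_lit 3939354) [(nat_lit 689580), (nat_lit 1973321), (nat_lit 4143071), (nat_lit 0)]) PF.nil)) (PF.cons PF.nil (PF.cons PF.nil PF.nil))))) (PF.cons (PF.cons (PF.cons (PF.leaf (nat_lit 7934264) (nat_lit 3925091) (nat_lit 42534166) (nat_lit 3925091) [(nat_lit 0), (nat_lit 0), (nat_lit 4129911), (nat_lit 0)]) (PF.cons (PF.leaf (nat_lit 8315310) (nat_lit 678389) (nat_lit 41891430) (nat_lit 3920253) [(nat_lit 678389), (nat_lit 0), (nat_lit 4123747), (nat_lit 0)]) (PF.cons (PF.leaf (nat_lit 8701038) (nat_lit 684373) (nat_lit 41248482) (nat_lit 3913497) [(nat_lit 684373), (nat_lit 0), (nat_lit 4115617), (nat_lit 0)]) (PF.cons PF.nil PF.nil)))) (PF.cons (PF.cons (PF.leaf (nat_lit 8755412) (nat_lit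 1956459) (nat_lit 40741005) (nat_lit 3901027) [(nat_lit 0), (nat_lit 1956459), (nat_lit 4102064), (nat_lit 0)]) (PF.cons PF.nil PF.nil)) (PF.cons PF.nil PF.nil))) (PF.cons (PF.cons (PF.cons (PF.leaf (nat_lit 9229259) (nat_lit 3849556) (nat_lit 38980898) (nat_lit 3849556) [(nat_lit 0), (nat_lit 0), (nat_lit 4046392), (nat_lit 0)]) (PF.cons PF.nil PF.nil)) (PF.cons PF.nil PF.nil)) (PF.cons PF.nil (PF.cons PF.nil
 PF.nil))))))))) (PF.cons (PF.cons (PF.cons (PF.cons (PF.leaf (nat_lit 3192877) (nat_lit 3625074) (nat_lit 54220235) (nat_lit 3625074) [(nat_lit 0), (nat_lit 0), (nat_lit 0), (nat_lit 9263503)]) (PF.cons (PF.leaf (nat_lit 3488062) (nat_lit 509385) (nat_lit 53648652) (nat_lit 3667658) [(nat_lit 509385), (nat_lit 0), (nat_lit 0), (nat_lit 9283116)]) (PF.cons (PF.leaf (nat_lit 3811204) (nat_lit 534905) (nat_lit 53030182) (nat_lit 3709102) [(nat_lit 534905), (nat_lit 0), (nat_lit 0), (nat_lit 9299716)]) (PF.cons (PF.leaf (nat_lit 4156954) (nat_lit 557629) (nat_lit 52375308)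 (nat_lit 3748312) [(nat_lit 557629), (nat_lit 0), (nat_lit 0), (nat_lit 9312302)]) (PF.cons (PF.leaf (nat_lit 4521551) (nat_lit 578019) (nat_lit 51691907) (nat_lit 3784617) [(nat_lit 578019), (nat_lit 0), (nat_lit 0), (nat_lit 9320210)]) (PF.cons (PF.leaf (nat_lit 4901938) (nat_lit 596386) (nat_lit 50986256) (nat_lit 3817608) [(nat_lit 596386), (nat_lit 0), (nat_lit 0), (nat_lit 9323018)]) (PF.cons (PF.leaf (nat_lit 5295547) (nat_lit 612955) (nat_lit 50263536) (nat_lit 3847058) [(nat_lit 612955), (nat_lit 0), (nat_lit 0), (nat_lit 9320487)]) (PF.cons (PF.leaf (nat_lit 5700146) (nat_lit 627899) (nat_lit 49528135)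
 (nat_lit 3872860) [(nat_lit 627899), (nat_lit 0), (nat_lit 0), (nat_lit 9312522)]) (PF.cons (PF.leaf (nat_lit 6113761) (nat_lit 641358) (nat_lit 48783814) (nat_lit 3894996) [(nat_lit 641358), (nat_lit 0), (nat_lit 0), (nat_lit 9299137)]) (PF.cons (PF.leaf (nat_lit 6534635) (nat_lit 653448) (nat_lit 48033833) (nat_lit 3913510) [(nat_lit 653448), (nat_lit 0), (nat_lit 0), (nat_lit 9280431)]) (PF.cons (PF.leaf (nat_lit 6961216) (nat_lit 664272) (nat_lit 47281029) (nat_lit 3928491) [(nat_lit 664272), (nat_lit 0), (nat_lit 0), (nat_lit 9256567)]) (PF.cons PF.nil (PF.cons PF.nil (PF.cons PF.nil PF.nil)))))))))))))) (PF.cons (PF.cons (PF.leaf (nat_lit 3955065) (nat_lit 1736165) (nat_lit 52330426) (nat_lit 3737839) [(nat_lit 0), (nat_lit 1736165), (nat_lit 0), (nat_lit 9304381)]) (PF.cons (PF.leaf (nat_lit 4289918) (nat_lit 562056) (nat_lit 51693851) (nat_lit 3772312) [(nat_lit 562056), (nat_lit 1768837), (nat_lit 0), (nat_lit 9311755)]) (PF.cons (PF.leaf (nat_lit 4645344) (nat_lit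 582030) (nat_lit 51026376) (nat_lit 3804367) [(nat_lit 582030), (nat_lit 1799271), (nat_lit 0), (nat_lit 9314736)]) (PF.cons (PF.leaf (nat_lit 5017447) (nat_lit 599925) (nat_lit 50335349) (nat_lit 3833509)
 [(nat_lit 599925), (nat_lit 1827272), (nat_lit 0), (nat_lit 9312904)]) (PF.cons (PF.leaf (nat_lit 5403343) (nat_lit 616003) (nat_lit 49626551) (nat_lit 3859450) [(nat_lit 616003), (nat_lit 1852770), (nat_lit 0), (nat_lit 9306025)]) (PF.cons (PF.leaf (nat_lit 5800603) (nat_lit 630456) (nat_lit 48904705) (nat_lit 3882047) [(nat_lit 630456), (nat_lit 1875766), (nat_lit 0), (nat_lit 9294009)]) (PF.cons (PF.leaf (nat_lit 6207176) (nat_lit 643435) (nat_lit 48173768) (nat_lit 3901251) [(nat_lit 643435), (nat_lit 1896305), (nat_lit 0), (nat_lit 9276871)]) (PF.cons (PF.leaf (nat_lit 6621203) (nat_lit 655065) (nat_lit 47437104) (nat_lit 3917083) [(nat_lit 655065), (nat_lit 1914459), (nat_lit 0), (nat_lit 9254710)]) (PF.cons (PF.leaf (nat_lit 7041118) (nat_lit 665449) (nat_lit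 46697599) (nat_lit 3929613) [(nat_lit 665449), (nat_lit 1930318), (nat_lit 0), (nat_lit 9227684)]) (PF.cons PF.nil (PF.cons PF.nil (PF.cons PF.nil PF.nil)))))))))))) (PF.cons (PF.cons (PF.leaf (nat_lit 4771421) (nat_lit 1813094) (nat_lit 50355987) (nat_lit 3821617) [(nat_lit 0), (nat_lit 1813094), (nat_lit 0), (nat_lit 9305018)]) (PF.cons (PF.leaf (nat_lit 5133762) (nat_lit 602662) (nat_lit 49682638) (nat_lit 3847088)
 [(nat_lit 602662), (nat_lit 1838749), (nat_lit 0), (nat_lit 9298924)]) (PF.cons (PF.leaf (nat_lit 5511103) (nat_lit 618367) (nat_lit 48989984) (nat_lit 3869706) [(nat_lit 618367), (nat_lit 1862165), (nat_lit 0), (nat_lit 9288056)]) (PF.cons (PF.leaf (nat_lit 5900458) (nat_lit 632421) (nat_lit 48283360) (nat_lit 3889278) [(nat_lit 632421), (nat_lit 1883291), (nat_lit 0), (nat_lit 9272326)]) (PF.cons (PF.leaf (nat_lit 6299554) (nat_lit 644994) (nat_lit 47567078) (nat_lit 3905723) [(nat_lit 644994), (nat_lit 1902140), (nat_lit 0), (nat_lit 9251753)]) (PF.cons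 (PF.leaf (nat_lit 6706460) (nat_lit 656222) (nat_lit 46844708) (nat_lit 3919037) [(nat_lit 656222), (nat_lit 1918760), (nat_lit 0), (nat_lit 9226433)]) (PF.cons (PF.leaf (nat_lit 7119494) (nat_lit 666218) (nat_lit 46119259) (nat_lit 3929270) [(nat_lit 666218), (nat_lit 1933224), (nat_lit 0), (nat_lit 9196521)]) (PF.cons (PF.leaf (nat_lit 7537184) (nat_lit 675080) (nat_lit 45393285) (nat_lit 3936510) [(nat_lit 675080), (nat_lit 1945618), (nat_lit 0), (nat_lit 9162214)]) (PF.cons PF.nil (PF.cons PF.nil PF.nil)))))))))) (PF.cons (PF.cons (PF.leaf (nat_lit 5619994) (nat_lit 1870427) (nat_lit 48352905) (nat_lit 3877945) [(nat_lit 0),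
 (nat_lit 1870427), (nat_lit 0), (nat_lit 9266678)]) (PF.cons (PF.leaf (nat_lit 6000412) (nat_lit 633776) (nat_lit 47663478) (nat_lit 3894661) [(nat_lit 633776), (nat_lit 1889770), (nat_lit 0), (nat_lit 9247584)]) (PF.cons (PF.leaf (nat_lit 6391483) (nat_lit 646025) (nat_lit 46963306) (nat_lit 3908511) [(nat_lit 646025), (nat_lit 1907015), (nat_lit 0), (nat_lit 9223897)]) (PF.cons (PF.leaf (nat_lit 6790873) (nat_lit 656919) (nat_lit 46256324) (nat_lit 3919462) [(nat_lit 656919), (nat_lit 1922184), (nat_lit 0), (nat_lit 9195714)]) (PF.cons (PF.leaf (nat_lit 7196763) (nat_lit 666582) (nat_lit 45545755) (nat_lit 3927544) [(nat_lit 666582), (nat_lit 1935330), (nat_lit 0), (nat_lit 9163189)]) (PF.cons (PF.leaf (nat_lit 7607611) (nat_lit 675120) (nat_lit 44834287) (nat_lit 3932825) [(nat_lit 675120), (nat_lit 1946527), (nat_lit 0), (nat_lit 9126513)]) (PF.cons (PF.leaf (nat_lit 8022064) (nat_lit 682622) (nat_lit 44124182) (nat_lit 3935406) [(nat_lit 682622), (nat_lit 1955860),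 (nat_lit 0), (nat_lit 9085910)]) (PF.cons PF.nil (PF.cons PF.nil PF.nil))))))))) (PF.cons (PF.cons (PF.leaf (nat_lit 6483873) (nat_lit 1910984) (nat_lit 46361785) (nat_lit 3909699) [(nat_lit 0), (nat_lit 1910984),
 (nat_lit 0), (nat_lit 9193390)]) (PF.cons (PF.leaf (nat_lit 6875006) (nat_lit 657147) (nat_lit 45671468) (nat_lit 3918436) [(nat_lit 657147), (nat_lit 1924778), (nat_lit 0), (nat_lit 9162647)]) (PF.cons (PF.leaf (nat_lit 7273389) (nat_lit 666538) (nat_lit 44976722) (nat_lit 3924505) [(nat_lit 666538), (nat_lit 1936681), (nat_lit 0), (nat_lit 9127782)]) (PF.cons (PF.leaf (nat_lit 7677143) (nat_lit 674801) (nat_lit 44280457) (nat_lit 3927960) [(nat_lit 674801), (nat_lit 1946750), (nat_lit 0), (nat_lit 9088986)]) (PF.cons (PF.leaf (nat_lit 8084838) (nat_lit 682034) (nat_lit 43585075) (nat_lit 3928883) [(nat_lit 682034), (nat_lit 1955059), (nat_lit 0), (nat_lit 9046478)]) (PF.cons PF.nil (PF.cons PF.nil PF.nil))))))) (PF.cons (PF.cons (PF.leaf (nat_lit 7350099)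 (nat_lit 1937315) (nat_lit 44411641) (nat_lit 3920219) [(nat_lit 0), (nat_lit 1937315), (nat_lit 0), (nat_lit 9090371)]) (PF.cons (PF.leaf (nat_lit 7746226) (nat_lit 674120) (nat_lit 43731396) (nat_lit 3921972) [(nat_lit 674120), (nat_lit 1946323), (nat_lit 0), (nat_lit 9049708)]) (PF.cons (PF.leaf (nat_lit 8146924) (nat_lit 681130) (nat_lit 43051328) (nat_lit 3921354) [(nat_lit 681130), (nat_lit 1953669), (nat_lit 0), (nat_lit
 9005520)]) (PF.cons (PF.leaf (nat_lit 8550683) (nat_lit 687197) (nat_lit 42373582) (nat_lit 3918458) [(nat_lit 687197), (nat_lit 1959428), (nat_lit 0), (nat_lit 8958038)]) (PF.cons PF.nil PF.nil))))) (PF.cons (PF.cons (PF.leaf (nat_lit 8208921) (nat_lit 1951720) (nat_lit 42522523) (nat_lit 3912868) [(nat_lit 0), (nat_lit 1951720), (nat_lit 0), (nat_lit 8963096)]) (PF.cons (PF.leaf (nat_lit 8605641) (nat_lit 685791) (nat_lit 41860036) (nat_lit 3908682) [(nat_lit 685791), (nat_lit 1956662), (nat_lit 0), (nat_lit 8914324)]) (PF.cons PF.nil (PF.cons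 PF.nil PF.nil)))) (PF.cons (PF.cons (PF.leaf (nat_lit 9053197) (nat_lit 1956240) (nat_lit 40707560) (nat_lit 3890797) [(nat_lit 0), (nat_lit 1956240), (nat_lit 0), (nat_lit 8816772)]) (PF.cons PF.nil PF.nil)) (PF.cons PF.nil PF.nil))))))))) (PF.cons (PF.cons (PF.cons (PF.leaf (nat_lit 4557690) (nat_lit 3795124) (nat_lit 50033548) (nat_lit 3795124) [(nat_lit 0), (nat_lit 0), (nat_lit 4009128), (nat_lit 9271011)]) (PF.cons (PF.leaf (nat_lit 4895128) (nat_lit 581701) (nat_lit 49408882) (nat_lit 3820035) [(nat_lit 581701), (nat_lit 0), (nat_lit 4033412), (nat_lit 9264780)]) (PF.cons (PF.leaf (nat_lit 5251274) (nat_lit 599587) (nat_lit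
 48757478) (nat_lit 3842613) [(nat_lit 599587), (nat_lit 0), (nat_lit 4055310), (nat_lit 9254235)]) (PF.cons (PF.leaf (nat_lit 5622276) (nat_lit 615405) (nat_lit 48086427) (nat_lit 3862507) [(nat_lit 615405), (nat_lit 0), (nat_lit 4074466), (nat_lit 9239195)]) (PF.cons (PF.leaf (nat_lit 6005326) (nat_lit 629449) (nat_lit 47401190) (nat_lit 3879534) [(nat_lit 629449), (nat_lit 0), (nat_lit 4090689), (nat_lit 9219600)]) (PF.cons (PF.leaf (nat_lit 6398135) (nat_lit 641934) (nat_lit 46706143) (nat_lit 3893614) [(nat_lit 641934), (nat_lit 0), (nat_lit 4103899), (nat_lit 9195484)]) (PF.cons (PF.leaf (nat_lit 6798736) (nat_lit 653024) (nat_lit 46004884) (nat_lit 3904746) [(nat_lit 653024), (nat_lit 0), (nat_lit 4114089), (nat_lit 9166947)]) (PF.cons (PF.leaf (nat_lit 7205456) (nat_lit 662852) (nat_lit 45300417) (nat_lit 3912975) [(nat_lit 662852), (nat_lit 0), (nat_lit 4121308), (nat_lit 9134145)]) (PF.cons (PF.leaf (nat_lit 7616838) (nat_lit 671529) (nat_lit 44595284) (nat_lit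 3918386) [(nat_lit 671529), (nat_lit 0), (nat_lit 4125639), (nat_lit 9097268)]) (PF.cons PF.nil PF.nil)))))))))) (PF.cons (PF.cons (PF.leaf (nat_lit 5367034) (nat_lit 1845593) (nat_lit 48115265) (nat_lit 3851616)
 [(nat_lit 0), (nat_lit 1845593), (nat_lit 4063782), (nat_lit 9232555)]) (PF.cons (PF.leaf (nat_lit 5727943) (nat_lit 616519) (nat_lit 47463314) (nat_lit 3868597) [(nat_lit 616519), (nat_lit 1866047), (nat_lit 4079968), (nat_lit 9214365)]) (PF.cons (PF.leaf (nat_lit 6102215) (nat_lit 630336) (nat_lit 46795392) (nat_lit 3882990) [(nat_lit 630336), (nat_lit 1884431), (nat_lit 4093501), (nat_lit 9191823)]) (PF.cons (PF.leaf (nat_lit 6486995) (nat_lit 642551) (nat_lit 46116502) (nat_lit 3894680) [(nat_lit 642551), (nat_lit 1900736), (nat_lit 4104265), (nat_lit 9164973)]) (PF.cons (PF.leaf (nat_lit 6880106) (nat_lit 653353) (nat_lit 45430610) (nat_lit 3903636) [(nat_lit 653353), (nat_lit 1915000), (nat_lit 4112228), (nat_lit 9133920)]) (PF.cons (PF.leaf (nat_lit 7279748)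 (nat_lit 662889) (nat_lit 44740949) (nat_lit 3909886) [(nat_lit 662889), (nat_lit 1927286), (nat_lit 4117419), (nat_lit 9098820)]) (PF.cons (PF.leaf (nat_lit 7684377) (nat_lit 671278) (nat_lit 44050196) (nat_lit 3913497) [(nat_lit 671278), (nat_lit 1937674), (nat_lit 4119907), (nat_lit 9059863)]) (PF.cons (PF.leaf (nat_lit 8092655) (nat_lit 678622) (nat_lit 43360592) (nat_lit 3914564) [(nat_lit 678622), (nat_lit
 1946254), (nat_lit 4119787), (nat_lit 9017260)]) (PF.cons PF.nil PF.nil))))))))) (PF.cons (PF.cons (PF.leaf (nat_lit 6200554) (nat_lit 1888940) (nat_lit 46190200) (nat_lit 3884820) [(nat_lit 0), (nat_lit 1888940), (nat_lit 4094621), (nat_lit 9161290)]) (PF.cons (PF.leaf (nat_lit 6576312) (nat_lit 642633) (nat_lit 45529169) (nat_lit 3894263) [(nat_lit 642633), (nat_lit 1903814), (nat_lit 4103092), (nat_lit 9132024)]) (PF.cons (PF.leaf (nat_lit 6961397) (nat_lit 653226) (nat_lit 44859873) (nat_lit 3901183) [(nat_lit 653226), (nat_lit 1916793), (nat_lit 4108974),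 (nat_lit 9098742)]) (PF.cons (PF.leaf (nat_lit 7353589) (nat_lit 662531) (nat_lit 44185915) (nat_lit 3905585) [(nat_lit 662531), (nat_lit 1927919), (nat_lit 4112274), (nat_lit 9061603)]) (PF.cons (PF.leaf (nat_lit 7751207) (nat_lit 670683) (nat_lit 43510203) (nat_lit 3907518) [(nat_lit 670683), (nat_lit 1937257), (nat_lit 4113045), (nat_lit 9020798)]) (PF.cons (PF.leaf (nat_lit 8152823) (nat_lit 677789) (nat_lit 42835122) (nat_lit 3907064) [(nat_lit 677789), (nat_lit 1944885), (nat_lit 4111368), (nat_lit 8976537)]) (PF.cons PF.nil PF.nil))))))) (PF.cons (PF.cons (PF.leaf (nat_lit 7043477) (nat_lit 1917852) (nat_lit 44291954)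
 (nat_lit 3897449) [(nat_lit 0), (nat_lit 1917852), (nat_lit 4104389), (nat_lit 9061463)]) (PF.cons (PF.leaf (nat_lit 7427507) (nat_lit 661764) (nat_lit 43634784) (nat_lit 3900129) [(nat_lit 661764), (nat_lit 1927883), (nat_lit 4105931), (nat_lit 9022551)]) (PF.cons (PF.leaf (nat_lit 7817757) (nat_lit 669734) (nat_lit 42974893) (nat_lit 3900502) [(nat_lit 669734), (nat_lit 1936233), (nat_lit 4105108), (nat_lit 8980136)]) (PF.cons (PF.leaf (nat_lit 8212469) (nat_lit 676651) (nat_lit 42314900) (nat_lit 3898636) [(nat_lit 676651), (nat_lit 1942967), (nat_lit 4101989), (nat_lit 8934429)]) (PF.cons (PF.leaf (nat_lit 8610322) (nat_lit 682614) (nat_lit 41656931) (nat_lit 3894619) [(nat_lit 682614), (nat_lit 1948160), (nat_lit 4096666), (nat_lit 8885655)]) PF.nil))))) (PF.cons (PF.cons (PF.leaf (nat_lit 7884728) (nat_lit 1934632) (nat_lit 42443724) (nat_lit 3892495) [(nat_lit 0), (nat_lit 1934632), (nat_lit 4096143), (nat_lit 8937920)]) (PF.cons (PF.leaf (nat_lit 8272008) (nat_lit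 675198) (nat_lit 41799499) (nat_lit 3889323) [(nat_lit 675198), (nat_lit 1940527), (nat_lit 4091693), (nat_lit 8890985)]) (PF.cons (PF.leaf (nat_lit 8663099) (nat_lit 681013) (nat_lit 41156512) (nat_lit 3884128)
 [(nat_lit 681013), (nat_lit 1944963), (nat_lit 4085170), (nat_lit 8841119)]) (PF.cons PF.nil PF.nil)))) (PF.cons (PF.cons (PF.leaf (nat_lit 8716110) (nat_lit 1941319) (nat_lit 40660962) (nat_lit 3872884) [(nat_lit 0), (nat_lit 1941319), (nat_lit 4072894), (nat_lit 8795474)]) (PF.cons (PF.leaf (nat_lit 9102829) (nat_lit 683961) (nat_lit 40035875) (nat_lit 3864787) [(nat_lit 683961), (nat_lit 1943731), (nat_lit 4063405), (nat_lit 8742126)]) PF.nil)) (PF.cons PF.nil (PF.cons PF.nil PF.nil)))))))) (PF.cons (PF.cons (PF.cons (PF.leaf (nat_lit 5937256) (nat_lit 3859337) (nat_lit 45983999) (nat_lit 3859337) [(nat_lit 0), (nat_lit 0), (nat_lit 4068951), (nat_lit 9127573)]) (PF.cons (PF.leaf (nat_lit 6295005) (nat_lit 626051) (nat_lit 45357471) (nat_lit 3869393) [(nat_lit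 626051), (nat_lit 0), (nat_lit 4078015), (nat_lit 9099864)]) (PF.cons (PF.leaf (nat_lit 6664757) (nat_lit 638225) (nat_lit 44717663) (nat_lit 3877108) [(nat_lit 638225), (nat_lit 0), (nat_lit 4084682), (nat_lit 9068224)]) (PF.cons (PF.leaf (nat_lit 7043743) (nat_lit 648855) (nat_lit 44069234) (nat_lit 3882428) [(nat_lit 648855), (nat_lit 0), (nat_lit 4088895), (nat_lit 9032791)]) (PF.cons (PF.leaf (nat_lit 7429909)
 (nat_lit 658141) (nat_lit 43415825) (nat_lit 3885359) [(nat_lit 658141), (nat_lit 0), (nat_lit 4090665), (nat_lit 8993732)]) (PF.cons (PF.leaf (nat_lit 7821566) (nat_lit 666235) (nat_lit 42760355) (nat_lit 3885952) [(nat_lit 666235), (nat_lit 0), (nat_lit 4090042), (nat_lit 8951239)]) (PF.cons (PF.leaf (nat_lit 8217286) (nat_lit 673263) (nat_lit 42105210) (nat_lit 3884285) [(nat_lit 673263), (nat_lit 0), (nat_lit 4087107), (nat_lit 8905519)]) (PF.cons PF.nil (PF.cons PF.nil PF.nil))))))))) (PF.cons (PF.cons (PF.leaf (nat_lit 6753220) (nat_lit 1897083) (nat_lit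 44145603) (nat_lit 3873933) [(nat_lit 0), (nat_lit 1897083), (nat_lit 4080641), (nat_lit 9030908)]) (PF.cons (PF.leaf (nat_lit 7123228) (nat_lit 647919) (nat_lit 43515148) (nat_lit 3877506) [(nat_lit 647919), (nat_lit 1908245), (nat_lit 4083078), (nat_lit 8993836)]) (PF.cons (PF.leaf (nat_lit 7501463) (nat_lit 657089) (nat_lit 42878340) (nat_lit 3878857) [(nat_lit 657089), (nat_lit 1917696), (nat_lit 4083238), (nat_lit 8953264)]) (PF.cons (PF.leaf (nat_lit 7885813) (nat_lit 665039) (nat_lit 42238473) (nat_lit 3878019) [(nat_lit 665039), (nat_lit 1925492), (nat_lit 4081157), (nat_lit 8909394)]) (PF.cons (PF.leaf (nat_lit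
 8274709) (nat_lit 671908) (nat_lit 41598171) (nat_lit 3875058) [(nat_lit 671908), (nat_lit 1931705), (nat_lit 4076902), (nat_lit 8862439)]) (PF.cons (PF.leaf (nat_lit 8666835) (nat_lit 677807) (nat_lit 40959558) (nat_lit 3870058) [(nat_lit 677807), (nat_lit 1936414), (nat_lit 4070563), (nat_lit 8812616)]) (PF.cons PF.nil PF.nil))))))) (PF.cons (PF.cons (PF.leaf (nat_lit 7574101) (nat_lit 1916457) (nat_lit 42343949) (nat_lit 3871326) [(nat_lit 0), (nat_lit 1916457), (nat_lit 4074743), (nat_lit 8911134)]) (PF.cons (PF.leaf (nat_lit 7950449) (nat_lit 663483) (nat_lit 41720622) (nat_lit 3869166) [(nat_lit 663483), (nat_lit 1923389), (nat_lit 4071318), (nat_lit 8866124)]) (PF.cons (PF.leaf (nat_lit 8332178) (nat_lit 670245) (nat_lit 41095820) (nat_lit 3865011) [(nat_lit 670245), (nat_lit 1928823), (nat_lit 4065850), (nat_lit 8818140)]) (PF.cons (PF.leaf (nat_lit 8717631) (nat_lit 676023) (nat_lit 40471903) (nat_lit 3858935) [(nat_lit 676023), (nat_lit 1932831), (nat_lit 4058416),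 (nat_lit 8767406)]) (PF.cons PF.nil PF.nil))))) (PF.cons (PF.cons (PF.leaf (nat_lit 8390364) (nat_lit 1925476) (nat_lit 40597604) (nat_lit 3854176) [(nat_lit 0), (nat_lit 1925476), (nat_lit 4053981), (nat_lit
 8772640)]) (PF.cons (PF.leaf (nat_lit 8768622) (nat_lit 673966) (nat_lit 39988964) (nat_lit 3847115) [(nat_lit 673966), (nat_lit 1928828), (nat_lit 4045548), (nat_lit 8721183)]) (PF.cons (PF.leaf (nat_lit 9150069) (nat_lit 678772) (nat_lit 39382272) (nat_lit 3838324) [(nat_lit 678772), (nat_lit 1930895), (nat_lit 4035345), (nat_lit 8667293)]) (PF.cons PF.nil PF.nil)))) (PF.cons (PF.cons (PF.leaf (nat_lit 9195073) (nat_lit 1925944) (nat_lit 38918460) (nat_lit 3825027) [(nat_lit 0), (nat_lit 1925944), (nat_lit 4020968), (nat_lit 8619610)]) (PF.cons PF.nil PF.nil)) (PF.cons PF.nil PF.nil)))))) (PF.cons (PF.cons (PF.cons (PF.leaf (nat_lit 7278985) (nat_lit 3849292) (nat_lit 42219571) (nat_lit 3849292) [(nat_lit 0), (nat_lit 0), (nat_lit 4052485), (nat_lit 8882492)])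 (PF.cons (PF.leaf (nat_lit 7642500) (nat_lit 650313) (nat_lit 41620558) (nat_lit 3848145) [(nat_lit 650313), (nat_lit 0), (nat_lit 4050083), (nat_lit 8839544)]) (PF.cons (PF.leaf (nat_lit 8013341) (nat_lit 658261) (nat_lit 41016659) (nat_lit 3845041) [(nat_lit 658261), (nat_lit 0), (nat_lit 4045678), (nat_lit 8793553)]) (PF.cons (PF.leaf (nat_lit 8389483) (nat_lit 665055) (nat_lit 40410886) (nat_lit 3840033) [(nat_lit
 665055), (nat_lit 0), (nat_lit 4039326), (nat_lit 8744746)]) (PF.cons (PF.leaf (nat_lit 8769455) (nat_lit 670836) (nat_lit 39805609) (nat_lit 3833195) [(nat_lit 670836), (nat_lit 0), (nat_lit 4031105), (nat_lit 8693346)]) (PF.cons PF.nil (PF.cons PF.nil PF.nil))))))) (PF.cons (PF.cons (PF.leaf (nat_lit 8077393) (nat_lit 1908560) (nat_lit 40514946) (nat_lit 3834608) [(nat_lit 0), (nat_lit 1908560), (nat_lit 4034205), (nat_lit 8748082)]) (PF.cons (PF.leaf (nat_lit 8445742) (nat_lit 662877) (nat_lit 39925216) (nat_lit 3828603) [(nat_lit 662877), (nat_lit 1912941),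 (nat_lit 4026845), (nat_lit 8698636)]) (PF.cons (PF.leaf (nat_lit 8818782) (nat_lit 668613) (nat_lit 39334910) (nat_lit 3820868) [(nat_lit 668613), (nat_lit 1915987), (nat_lit 4017717), (nat_lit 8646668)]) (PF.cons (PF.leaf (nat_lit 9194946) (nat_lit 673428) (nat_lit 38746158) (nat_lit 3811483) [(nat_lit 673428), (nat_lit 1917770), (nat_lit 4006903), (nat_lit 8592403)]) (PF.cons PF.nil PF.nil))))) (PF.cons (PF.cons (PF.leaf (nat_lit 8869075) (nat_lit 1911285) (nat_lit 38868218) (nat_lit 3807915) [(nat_lit 0), (nat_lit 1911285), (nat_lit 4003680), (nat_lit 8599066)]) (PF.cons (PF.leaf (nat_lit 9238296) (nat_lit 670900)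
 (nat_lit 38294102) (nat_lit 3797803) [(nat_lit 670900), (nat_lit 1912564), (nat_lit 3992134), (nat_lit 8544475)]) (PF.cons PF.nil (PF.cons PF.nil PF.nil)))) (PF.cons (PF.cons (PF.leaf (nat_lit 9648097) (nat_lit 1906760) (nat_lit 37288541) (nat_lit 3771414) [(nat_lit 0), (nat_lit 1906760), (nat_lit 3963174), (nat_lit 8439053)]) (PF.cons PF.nil PF.nil)) (PF.cons PF.nil PF.nil))))) (PF.cons (PF.cons (PF.cons (PF.leaf (nat_lit 8555122) (nat_lit 3789904) (nat_lit 38800227) (nat_lit 3789904) [(nat_lit 0), (nat_lit 0), (nat_lit 3985487), (nat_lit 8576732)]) (PF.cons (PF.leaf (nat_lit 8915321) (nat_lit 660417) (nat_lit 38243224) (nat_lit 3780862) [(nat_lit 660417), (nat_lit 0), (nat_lit 3975032), (nat_lit 8524178)]) (PF.cons (PF.leaf (nat_lit 9279660) (nat_lit 665279) (nat_lit 37686279) (nat_lit 3770318) [(nat_lit 665279), (nat_lit 0), (nat_lit 3963043), (nat_lit 8469482)]) (PF.cons PF.nil (PF.cons PF.nil PF.nil))))) (PF.cons (PF.cons (PF.leaf (nat_lit 9322880) (nat_lit 1893215)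 (nat_lit 37249415) (nat_lit 3755807) [(nat_lit 0), (nat_lit 1893215), (nat_lit 3947421), (nat_lit 8420690)]) (PF.cons (PF.leaf (nat_lit 9683182) (nat_lit 666388) (nat_lit 36708368) (nat_lit 3743323) [(nat_lit
 666388), (nat_lit 1892806), (nat_lit 3933466), (nat_lit 8364059)]) (PF.cons PF.nil (PF.cons PF.nil PF.nil)))) (PF.cons (PF.cons (PF.leaf (nat_lit 10077324) (nat_lit 1884696) (nat_lit 35764226) (nat_lit 3713712) [(nat_lit 0), (nat_lit 1884696), (nat_lit 3901243), (nat_lit 8256505)]) (PF.cons PF.nil PF.nil)) PF.nil))) (PF.cons (PF.cons (PF.cons (PF.leaf (nat_lit 9753730) (nat_lit 3699509) (nat_lit 35734504) (nat_lit 3699509) [(nat_lit 0), (nat_lit 0), (nat_lit 3886923), (nat_lit 8240184)]) (PF.cons (PF.leaf (nat_lit 10105279) (nat_lit 660746) (nat_lit 35224848) (nat_lit 3685202) [(nat_lit 660746), (nat_lit 0), (nat_lit 3871128), (nat_lit 8182371)]) PF.nil)) (PF.cons PF.nil PF.nil)) (PF.cons PF.nil (PF.cons PF.nil PF.nil)))))))) (PF.cons (PF.cons (PF.cons (PF.cons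 (PF.leaf (nat_lit 5381860) (nat_lit 3756475) (nat_lit 45377925) (nat_lit 3756475) [(nat_lit 0), (nat_lit 0), (nat_lit 0), (nat_lit 8987206)]) (PF.cons (PF.leaf (nat_lit 5707689) (nat_lit 583876) (nat_lit 44823732) (nat_lit 3770619) [(nat_lit 583876), (nat_lit 0), (nat_lit 0), (nat_lit 8965292)]) (PF.cons (PF.leaf (nat_lit 6050189) (nat_lit 599611) (nat_lit 44247760) (nat_lit 3782627) [(nat_lit 599611), (nat_lit 0), (nat_lit
 0), (nat_lit 8939601)]) (PF.cons (PF.leaf (nat_lit 6405645) (nat_lit 613275) (nat_lit 43656254) (nat_lit 3792316) [(nat_lit 613275), (nat_lit 0), (nat_lit 0), (nat_lit 8910207)]) (PF.cons (PF.leaf (nat_lit 6771437) (nat_lit 625201) (nat_lit 43053948) (nat_lit 3799613) [(nat_lit 625201), (nat_lit 0), (nat_lit 0), (nat_lit 8877222)]) (PF.cons (PF.leaf (nat_lit 7145422) (nat_lit 635631) (nat_lit 42444565) (nat_lit 3804517) [(nat_lit 635631), (nat_lit 0), (nat_lit 0), (nat_lit 8840787)]) (PF.cons (PF.leaf (nat_lit 7525840) (nat_lit 644749) (nat_lit 41831116)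 (nat_lit 3807070) [(nat_lit 644749), (nat_lit 0), (nat_lit 0), (nat_lit 8801065)]) (PF.cons (PF.leaf (nat_lit 7911206) (nat_lit 652702) (nat_lit 41216072) (nat_lit 3807346) [(nat_lit 652702), (nat_lit 0), (nat_lit 0), (nat_lit 8758239)]) (PF.cons (PF.leaf (nat_lit 8300234) (nat_lit 659609) (nat_lit 40601488) (nat_lit 3805438) [(nat_lit 659609), (nat_lit 0), (nat_lit 0), (nat_lit 8712504)]) (PF.cons PF.nil PF.nil)))))))))) (PF.cons (PF.cons (PF.leaf (nat_lit 6149560) (nat_lit 1828691) (nat_lit 43686648) (nat_lit 3782725) [(nat_lit 0), (nat_lit 1828691), (nat_lit 0), (nat_lit 8905373)]) (PF.cons (PF.leaf (nat_lit 6495063) (nat_lit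
 612753) (nat_lit 43113208) (nat_lit 3790408) [(nat_lit 612753), (nat_lit 1843713), (nat_lit 0), (nat_lit 8874364)]) (PF.cons (PF.leaf (nat_lit 6852299) (nat_lit 624593) (nat_lit 42527181) (nat_lit 3795904) [(nat_lit 624593), (nat_lit 1856846), (nat_lit 0), (nat_lit 8839847)]) (PF.cons (PF.leaf (nat_lit 7218555) (nat_lit 634887) (nat_lit 41932860) (nat_lit 3799185) [(nat_lit 634887), (nat_lit 1868134), (nat_lit 0), (nat_lit 8801985)]) (PF.cons (PF.leaf (nat_lit 7591859) (nat_lit 643843) (nat_lit 41333598) (nat_lit 3800273) [(nat_lit 643843), (nat_lit 1877652), (nat_lit 0), (nat_lit 8760957)]) (PF.cons (PF.leaf (nat_lit 7970582) (nat_lit 651622) (nat_lit 40732083) (nat_lit 3799226) [(nat_lit 651622), (nat_lit 1885486), (nat_lit 0), (nat_lit 8716951)]) (PF.cons (PF.leaf (nat_lit 8353346) (nat_lit 658353) (nat_lit 40130508) (nat_lit 3796125) [(nat_lit 658353), (nat_lit 1891727), (nat_lit 0), (nat_lit 8670164)]) (PF.cons (PF.leaf (nat_lit 8738972) (nat_lit 664142) (nat_lit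 39530684) (nat_lit 3791065) [(nat_lit 664142), (nat_lit 1896471), (nat_lit 0), (nat_lit 8620796)]) (PF.cons PF.nil PF.nil))))))))) (PF.cons (PF.cons (PF.leaf (nat_lit 6935049) (nat_lit 1857471) (nat_lit 42001564)
 (nat_lit 3791058) [(nat_lit 0), (nat_lit 1857471), (nat_lit 0), (nat_lit 8800623)]) (PF.cons (PF.leaf (nat_lit 7292640) (nat_lit 633700) (nat_lit 41423645) (nat_lit 3792831) [(nat_lit 633700), (nat_lit 1867724), (nat_lit 0), (nat_lit 8761593)]) (PF.cons (PF.leaf (nat_lit 7658328) (nat_lit 642566) (nat_lit 40839514) (nat_lit 3792561) [(nat_lit 642566), (nat_lit 1876321), (nat_lit 0), (nat_lit 8719480)]) (PF.cons (PF.leaf (nat_lit 8030057) (nat_lit 650227) (nat_lit 40252200) (nat_lit 3790289) [(nat_lit 650227), (nat_lit 1883331), (nat_lit 0), (nat_lit 8674487)]) (PF.cons (PF.leaf (nat_lit 8406314) (nat_lit 656826) (nat_lit 39664114) (nat_lit 3786085) [(nat_lit 656826), (nat_lit 1888834), (nat_lit 0), (nat_lit 8626818)]) (PF.cons (PF.leaf (nat_lit 8785825) (nat_lit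 662478) (nat_lit 39077209) (nat_lit 3780033) [(nat_lit 662478), (nat_lit 1892912), (nat_lit 0), (nat_lit 8576676)]) (PF.cons PF.nil PF.nil))))))) (PF.cons (PF.cons (PF.leaf (nat_lit 7726066) (nat_lit 1874467) (nat_lit 40348168) (nat_lit 3783968) [(nat_lit 0), (nat_lit 1874467), (nat_lit 0), (nat_lit 8676636)]) (PF.cons (PF.leaf (nat_lit 8090119) (nat_lit 648500) (nat_lit 39775901) (nat_lit 3780569) [(nat_lit 648500),
 (nat_lit 1880705), (nat_lit 0), (nat_lit 8630862)]) (PF.cons (PF.leaf (nat_lit 8459523) (nat_lit 655018) (nat_lit 39201897) (nat_lit 3775350) [(nat_lit 655018), (nat_lit 1885516), (nat_lit 0), (nat_lit 8582490)]) (PF.cons (PF.leaf (nat_lit 8832691) (nat_lit 660572) (nat_lit 38628326) (nat_lit 3768386) [(nat_lit 660572), (nat_lit 1888974), (nat_lit 0), (nat_lit 8531729)]) (PF.cons (PF.leaf (nat_lit 9208433) (nat_lit 665267) (nat_lit 38056929) (nat_lit 3759765) [(nat_lit 665267), (nat_lit 1891157), (nat_lit 0), (nat_lit 8478787)]) PF.nil))))) (PF.cons (PF.cons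 (PF.leaf (nat_lit 8513641) (nat_lit 1881791) (nat_lit 38743337) (nat_lit 3763944) [(nat_lit 0), (nat_lit 1881791), (nat_lit 0), (nat_lit 8537183)]) (PF.cons (PF.leaf (nat_lit 8879928) (nat_lit 658414) (nat_lit 38183627) (nat_lit 3756148) [(nat_lit 658414), (nat_lit 1884671), (nat_lit 0), (nat_lit 8485968)]) (PF.cons (PF.leaf (nat_lit 9249483) (nat_lit 663042) (nat_lit 37625323) (nat_lit 3746782) [(nat_lit 663042), (nat_lit 1886336), (nat_lit 0), (nat_lit 8432637)]) (PF.cons PF.nil PF.nil)))) (PF.cons (PF.cons (PF.leaf (nat_lit 9291231) (nat_lit 1881203) (nat_lit 37197858) (nat_lit 3733297) [(nat_lit 0), (nat_lit 1881203),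
 (nat_lit 0), (nat_lit 8385818)]) (PF.cons (PF.leaf (nat_lit 9656589) (nat_lit 664396) (nat_lit 36655304) (nat_lit 3721849) [(nat_lit 664396), (nat_lit 1881297), (nat_lit 0), (nat_lit 8330387)]) PF.nil)) (PF.cons PF.nil (PF.cons PF.nil PF.nil)))))))) (PF.cons (PF.cons (PF.cons (PF.leaf (nat_lit 6668423) (nat_lit 3766805) (nat_lit 41836073) (nat_lit 3766805) [(nat_lit 0), (nat_lit 0), (nat_lit 3968417), (nat_lit 8768758)]) (PF.cons (PF.leaf (nat_lit 7009949) (nat_lit 617761) (nat_lit 41287626) (nat_lit 3769593) [(nat_lit 617761), (nat_lit 0), (nat_lit 3969998), (nat_lit 8731915)]) (PF.cons (PF.leaf (nat_lit 7362129) (nat_lit 628255) (nat_lit 40728526) (nat_lit 3770409) [(nat_lit 628255), (nat_lit 0), (nat_lit 3969567), (nat_lit 8691899)]) (PF.cons (PF.leaf (nat_lit 7722347) (nat_lit 637269) (nat_lit 40162756) (nat_lit 3769259) [(nat_lit 637269), (nat_lit 0), (nat_lit 3967133), (nat_lit 8648927)]) (PF.cons (PF.leaf (nat_lit 8088736) (nat_lit 645018) (nat_lit 39593391) (nat_lit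 3766187) [(nat_lit 645018), (nat_lit 0), (nat_lit 3962743), (nat_lit 8603208)]) (PF.cons (PF.leaf (nat_lit 8459763) (nat_lit 651663) (nat_lit 39022865) (nat_lit 3761264) [(nat_lit 651663), (nat_lit 0), (nat_lit
 3956468), (nat_lit 8554949)]) (PF.cons (PF.leaf (nat_lit 8834147) (nat_lit 657333) (nat_lit 38453144) (nat_lit 3754572) [(nat_lit 657333), (nat_lit 0), (nat_lit 3948393), (nat_lit 8504350)]) (PF.cons PF.nil (PF.cons PF.nil PF.nil))))))))) (PF.cons (PF.cons (PF.leaf (nat_lit 7436612) (nat_lit 1855044) (nat_lit 40233038) (nat_lit 3762301) [(nat_lit 0), (nat_lit 1855044), (nat_lit 3960452), (nat_lit 8648987)]) (PF.cons (PF.leaf (nat_lit 7788300) (nat_lit 635366) (nat_lit 39683376) (nat_lit 3759999) [(nat_lit 635366), (nat_lit 1862510), (nat_lit 3956860), (nat_lit 8605350)]) (PF.cons (PF.leaf (nat_lit 8147236) (nat_lit 643097) (nat_lit 39128802) (nat_lit 3755891) [(nat_lit 643097), (nat_lit 1868481), (nat_lit 3951425), (nat_lit 8559008)]) (PF.cons (PF.leaf (nat_lit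 8511460) (nat_lit 649689) (nat_lit 38572092) (nat_lit 3750034) [(nat_lit 649689), (nat_lit 1873032), (nat_lit 3944209), (nat_lit 8510187)]) (PF.cons (PF.leaf (nat_lit 8879542) (nat_lit 655286) (nat_lit 38015431) (nat_lit 3742506) [(nat_lit 655286), (nat_lit 1876244), (nat_lit 3935290), (nat_lit 8459097)]) (PF.cons (PF.leaf (nat_lit 9250331) (nat_lit 660002) (nat_lit 37460567) (nat_lit 3733391) [(nat_lit 660002), (nat_lit
 1878198), (nat_lit 3924757), (nat_lit 8405942)]) (PF.cons PF.nil PF.nil))))))) (PF.cons (PF.cons (PF.leaf (nat_lit 8207236) (nat_lit 1865068) (nat_lit 38666979) (nat_lit 3744882) [(nat_lit 0), (nat_lit 1865068), (nat_lit 3939370), (nat_lit 8513721)]) (PF.cons (PF.leaf (nat_lit 8563979) (nat_lit 647418) (nat_lit 38124833) (nat_lit 3738178) [(nat_lit 647418), (nat_lit 1869016), (nat_lit 3931303), (nat_lit 8464522)]) (PF.cons (PF.leaf (nat_lit 8925439) (nat_lit 652989) (nat_lit 37581747) (nat_lit 3729889) [(nat_lit 652989), (nat_lit 1871689), (nat_lit 3921620),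 (nat_lit 8413097)]) (PF.cons (PF.leaf (nat_lit 9290103) (nat_lit 657660) (nat_lit 37039686) (nat_lit 3720093) [(nat_lit 657660), (nat_lit 1873162), (nat_lit 3910402), (nat_lit 8359662)]) (PF.cons PF.nil PF.nil))))) (PF.cons (PF.cons (PF.leaf (nat_lit 8972453) (nat_lit 1866805) (nat_lit 37151581) (nat_lit 3716736) [(nat_lit 0), (nat_lit 1866805), (nat_lit 3907395), (nat_lit 8366341)]) (PF.cons (PF.leaf (nat_lit 9330468) (nat_lit 655094) (nat_lit 36622786) (nat_lit 3706329) [(nat_lit 655094), (nat_lit 1867832), (nat_lit 3895566), (nat_lit 8312769)]) (PF.cons (PF.leaf (nat_lit 9691300) (nat_lit 658943) (nat_lit 36095800) (nat_lit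
 3694568) [(nat_lit 658943), (nat_lit 1867782), (nat_lit 3882360), (nat_lit 8257424)]) (PF.cons PF.nil PF.nil)))) (PF.cons (PF.cons (PF.leaf (nat_lit 9726631) (nat_lit 1861803) (nat_lit 35695286) (nat_lit 3679865) [(nat_lit 0), (nat_lit 1861803), (nat_lit 3866573), (nat_lit 8209937)]) (PF.cons PF.nil PF.nil)) (PF.cons PF.nil PF.nil)))))) (PF.cons (PF.cons (PF.cons (PF.leaf (nat_lit 7915168) (nat_lit 3724805) (nat_lit 38569344) (nat_lit 3724805) [(nat_lit 0), (nat_lit 0), (nat_lit 3919114), (nat_lit 8488217)]) (PF.cons (PF.leaf (nat_lit 8260527) (nat_lit 634983) (nat_lit 38047755) (nat_lit 3719234) [(nat_lit 634983), (nat_lit 0), (nat_lit 3912195), (nat_lit 8441224)]) (PF.cons (PF.leaf (nat_lit 8612434) (nat_lit 641735) (nat_lit 37522263) (nat_lit 3712063) [(nat_lit 641735), (nat_lit 0), (nat_lit 3903647), (nat_lit 8391859)]) (PF.cons (PF.leaf (nat_lit 8968997) (nat_lit 647411) (nat_lit 36995414) (nat_lit 3703363) [(nat_lit 647411), (nat_lit 0), (nat_lit 3893542), (nat_lit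 8340357)]) (PF.cons (PF.leaf (nat_lit 9328887) (nat_lit 652153) (nat_lit 36469192) (nat_lit 3693212) [(nat_lit 652153), (nat_lit 0), (nat_lit 3881961), (nat_lit 8286934)]) (PF.cons PF.nil (PF.cons PF.nil
 PF.nil))))))) (PF.cons (PF.cons (PF.leaf (nat_lit 8665405) (nat_lit 1851313) (nat_lit 37088659) (nat_lit 3699237) [(nat_lit 0), (nat_lit 1851313), (nat_lit 3889741), (nat_lit 8345060)]) (PF.cons (PF.leaf (nat_lit 9014709) (nat_lit 644715) (nat_lit 36575772) (nat_lit 3689915) [(nat_lit 644715), (nat_lit 1853373), (nat_lit 3879018), (nat_lit 8293499)]) (PF.cons (PF.leaf (nat_lit 9368202) (nat_lit 649478) (nat_lit 36062522) (nat_lit 3679209) [(nat_lit 649478), (nat_lit 1854290), (nat_lit 3866885), (nat_lit 8240031)]) (PF.cons (PF.leaf (nat_lit 9724432) (nat_lit 653396) (nat_lit 35550696) (nat_lit 3667199) [(nat_lit 653396), (nat_lit 1854139), (nat_lit 3853426), (nat_lit 8184868)]) (PF.cons PF.nil PF.nil))))) (PF.cons (PF.cons (PF.leaf (nat_lit 9408826) (nat_lit 1848515)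 (nat_lit 35659179) (nat_lit 3664777) [(nat_lit 0), (nat_lit 1848515), (nat_lit 3851365), (nat_lit 8192546)]) (PF.cons (PF.leaf (nat_lit 9758658) (nat_lit 650515) (nat_lit 35159959) (nat_lit 3652333) [(nat_lit 650515), (nat_lit 1848027), (nat_lit 3837478), (nat_lit 8137495)]) (PF.cons PF.nil (PF.cons PF.nil PF.nil)))) (PF.cons (PF.cons (PF.leaf (nat_lit 10140523) (nat_lit 1839966) (nat_lit 34287530) (nat_lit 3623162)
 [(nat_lit 0), (nat_lit 1839966), (nat_lit 3805759), (nat_lit 8033350)]) (PF.cons PF.nil PF.nil)) (PF.cons PF.nil PF.nil))))) (PF.cons (PF.cons (PF.cons (PF.leaf (nat_lit 9102092) (nat_lit 3648748) (nat_lit 35607753) (nat_lit 3648748) [(nat_lit 0), (nat_lit 0), (nat_lit 3835205), (nat_lit 8173346)]) (PF.cons (PF.leaf (nat_lit 9443923) (nat_lit 640721) (nat_lit 35122962) (nat_lit 3637369) [(nat_lit 640721), (nat_lit 0), (nat_lit 3822405), (nat_lit 8120271)]) (PF.cons (PF.leaf (nat_lit 9789513) (nat_lit 644791) (nat_lit 34638217) (nat_lit 3624778) [(nat_lit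 644791), (nat_lit 0), (nat_lit 3808371), (nat_lit 8065559)]) (PF.cons PF.nil PF.nil)))) (PF.cons (PF.cons (PF.leaf (nat_lit 9824400) (nat_lit 1827708) (nat_lit 34260044) (nat_lit 3609438) [(nat_lit 0), (nat_lit 1827708), (nat_lit 3791941), (nat_lit 8017899)]) (PF.cons (PF.leaf (nat_lit 10166191) (nat_lit 644949) (nat_lit 33788898) (nat_lit 3595425) [(nat_lit 644949), (nat_lit 1825984), (nat_lit 3776477), (nat_lit 7962060)]) PF.nil)) (PF.cons PF.nil PF.nil))) (PF.cons (PF.cons (PF.cons (PF.leaf (nat_lit 10220742) (nat_lit 3551805) (nat_lit 32948038) (nat_lit 3551805) [(nat_lit 0), (nat_lit 0), (nat_lit 3730243), (nat_lit 7843997)])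
 (PF.cons PF.nil PF.nil)) (PF.cons PF.nil PF.nil)) (PF.cons PF.nil PF.nil)))))) (PF.cons (PF.cons (PF.cons (PF.cons (PF.leaf (nat_lit 7314789) (nat_lit 3653237) (nat_lit 38279652) (nat_lit 3653237) [(nat_lit 0), (nat_lit 0), (nat_lit 0), (nat_lit 8391974)]) (PF.cons (PF.leaf (nat_lit 7641087) (nat_lit 605235) (nat_lit 37799535) (nat_lit 3651443) [(nat_lit 605235), (nat_lit 0), (nat_lit 0), (nat_lit 8350866)]) (PF.cons (PF.leaf (nat_lit 7977032) (nat_lit 614456) (nat_lit 37310555) (nat_lit 3647959) [(nat_lit 614456), (nat_lit 0), (nat_lit 0), (nat_lit 8307128)]) (PF.cons (PF.leaf (nat_lit 8320133) (nat_lit 622267) (nat_lit 36816133) (nat_lit 3642828) [(nat_lit 622267), (nat_lit 0), (nat_lit 0), (nat_lit 8261015)]) (PF.cons (PF.leaf (nat_lit 8668681) (nat_lit 628886) (nat_lit 36318884) (nat_lit 3636115) [(nat_lit 628886), (nat_lit 0), (nat_lit 0), (nat_lit 8212754)]) (PF.cons (PF.leaf (nat_lit 9021266) (nat_lit 634479) (nat_lit 35820863) (nat_lit 3627899) [(nat_lit 634479),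 (nat_lit 0), (nat_lit 0), (nat_lit 8162550)]) (PF.cons (PF.leaf (nat_lit 9376720) (nat_lit 639175) (nat_lit 35323714) (nat_lit 3618264) [(nat_lit 639175), (nat_lit 0), (nat_lit 0), (nat_lit 8110593)]) (PF.cons
 PF.nil (PF.cons PF.nil PF.nil))))))))) (PF.cons (PF.cons (PF.leaf (nat_lit 8040598) (nat_lit 1804106) (nat_lit 36880477) (nat_lit 3637070) [(nat_lit 0), (nat_lit 1804106), (nat_lit 0), (nat_lit 8262386)]) (PF.cons (PF.leaf (nat_lit 8375621) (nat_lit 619770) (nat_lit 36400230) (nat_lit 3631183) [(nat_lit 619770), (nat_lit 1809062), (nat_lit 0), (nat_lit 8216189)]) (PF.cons (PF.leaf (nat_lit 8717176) (nat_lit 626438) (nat_lit 35915942) (nat_lit 3623793) [(nat_lit 626438), (nat_lit 1812695), (nat_lit 0), (nat_lit 8167834)]) (PF.cons (PF.leaf (nat_lit 9063423) (nat_lit 632041) (nat_lit 35429972) (nat_lit 3614972) [(nat_lit 632041), (nat_lit 1815090), (nat_lit 0), (nat_lit 8117550)]) (PF.cons (PF.leaf (nat_lit 9413064) (nat_lit 636723) (nat_lit 34944165) (nat_lit 3604800)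 [(nat_lit 636723), (nat_lit 1816331), (nat_lit 0), (nat_lit 8065541)]) (PF.cons PF.nil (PF.cons PF.nil PF.nil))))))) (PF.cons (PF.cons (PF.leaf (nat_lit 8767461) (nat_lit 1808000) (nat_lit 35515312) (nat_lit 3610965) [(nat_lit 0), (nat_lit 1808000), (nat_lit 0), (nat_lit 8122178)]) (PF.cons (PF.leaf (nat_lit 9106698) (nat_lit 629350) (nat_lit 35042016) (nat_lit 3601608) [(nat_lit 629350), (nat_lit 1809972), (nat_lit
 0), (nat_lit 8071963)]) (PF.cons (PF.leaf (nat_lit 9450197) (nat_lit 634061) (nat_lit 34567976) (nat_lit 3590957) [(nat_lit 634061), (nat_lit 1810839), (nat_lit 0), (nat_lit 8020025)]) (PF.cons (PF.leaf (nat_lit 9796521) (nat_lit 637941) (nat_lit 34094852) (nat_lit 3579093) [(nat_lit 637941), (nat_lit 1810676), (nat_lit 0), (nat_lit 7966563)]) (PF.cons PF.nil PF.nil))))) (PF.cons (PF.cons (PF.leaf (nat_lit 9488733) (nat_lit 1805106) (nat_lit 34194687) (nat_lit 3576740) [(nat_lit 0), (nat_lit 1805106), (nat_lit 0), (nat_lit 7974021)]) (PF.cons (PF.leaf (nat_lit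 9828897) (nat_lit 635095) (nat_lit 33733006) (nat_lit 3564507) [(nat_lit 635095), (nat_lit 1804640), (nat_lit 0), (nat_lit 7920760)]) (PF.cons PF.nil (PF.cons PF.nil PF.nil)))) (PF.cons (PF.cons (PF.leaf (nat_lit 10199685) (nat_lit 1796767) (nat_lit 32924934) (nat_lit 3536006) [(nat_lit 0), (nat_lit 1796767), (nat_lit 0), (nat_lit 7820267)]) (PF.cons PF.nil PF.nil)) (PF.cons PF.nil PF.nil)))))) (PF.cons (PF.cons (PF.cons (PF.leaf (nat_lit 8480496) (nat_lit 3592846) (nat_lit 35438324) (nat_lit 3592846) [(nat_lit 0), (nat_lit 0), (nat_lit 3778322), (nat_lit 8099773)]) (PF.cons (PF.leaf (nat_lit 8809503) (nat_lit 617655)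
 (nat_lit 34982489) (nat_lit 3584650) [(nat_lit 617655), (nat_lit 0), (nat_lit 3768762), (nat_lit 8051751)]) (PF.cons (PF.leaf (nat_lit 9144482) (nat_lit 623521) (nat_lit 34523343) (nat_lit 3575117) [(nat_lit 623521), (nat_lit 0), (nat_lit 3757844), (nat_lit 8001821)]) (PF.cons (PF.leaf (nat_lit 9483648) (nat_lit 628380) (nat_lit 34063059) (nat_lit 3564323) [(nat_lit 628380), (nat_lit 0), (nat_lit 3745648), (nat_lit 7950213)]) (PF.cons (PF.leaf (nat_lit 9825783) (nat_lit 632374) (nat_lit 33603319) (nat_lit 3552349) [(nat_lit 632374), (nat_lit 0), (nat_lit 3732257), (nat_lit 7897130)]) PF.nil))))) (PF.cons (PF.cons (PF.leaf (nat_lit 9188932) (nat_lit 1790960) (nat_lit 34146741) (nat_lit 3561157) [(nat_lit 0), (nat_lit 1790960), (nat_lit 3742816), (nat_lit 7955712)]) (PF.cons (PF.leaf (nat_lit 9521311) (nat_lit 625396) (nat_lit 33698536) (nat_lit 3549988) [(nat_lit 625396), (nat_lit 1791501), (nat_lit 3730256), (nat_lit 7904378)]) (PF.cons (PF.leaf (nat_lit 9857514) (nat_lit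 629453) (nat_lit 33249981) (nat_lit 3537681) [(nat_lit 629453), (nat_lit 1791045), (nat_lit 3716542), (nat_lit 7851551)]) (PF.cons PF.nil PF.nil)))) (PF.cons (PF.cons (PF.leaf (nat_lit 9890796) (nat_lit 1784724)
 (nat_lit 32899345) (nat_lit 3522713) [(nat_lit 0), (nat_lit 1784724), (nat_lit 3700518), (nat_lit 7805596)]) (PF.cons (PF.leaf (nat_lit 10223529) (nat_lit 629674) (nat_lit 32462794) (nat_lit 3509104) [(nat_lit 629674), (nat_lit 1783123), (nat_lit 3685500), (nat_lit 7751830)]) PF.nil)) (PF.cons PF.nil (PF.cons PF.nil PF.nil))))) (PF.cons (PF.cons (PF.cons (PF.leaf (nat_lit 9592120) (nat_lit 3508473) (nat_lit 32860472) (nat_lit 3508473) [(nat_lit 0), (nat_lit 0), (nat_lit 3686192), (nat_lit 7789160)]) (PF.cons (PF.leaf (nat_lit 9917655) (nat_lit 620525) (nat_lit 32436179) (nat_lit 3495891) [(nat_lit 620525), (nat_lit 0), (nat_lit 3672220), (nat_lit 7737258)]) (PF.cons (PF.leaf (nat_lit 10246685) (nat_lit 624020) (nat_lit 32011822) (nat_lit 3482304) [(nat_lit 624020),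 (nat_lit 0), (nat_lit 3657231), (nat_lit 7684060)]) (PF.cons PF.nil PF.nil)))) (PF.cons (PF.cons (PF.leaf (nat_lit 10275225) (nat_lit 1762703) (nat_lit 31682366) (nat_lit 3466834) [(nat_lit 0), (nat_lit 1762703), (nat_lit 3640716), (nat_lit 7638492)]) (PF.cons PF.nil PF.nil)) (PF.cons PF.nil PF.nil))) (PF.cons (PF.cons (PF.cons (PF.leaf (nat_lit 10643286) (nat_lit 3409829) (nat_lit 30538433) (nat_lit 3409829) [(nat_lit
 0), (nat_lit 0), (nat_lit 3579848), (nat_lit 7473668)]) (PF.cons PF.nil PF.nil)) (PF.cons PF.nil PF.nil)) (PF.cons PF.nil PF.nil))))) (PF.cons (PF.cons (PF.cons (PF.cons (PF.leaf (nat_lit 8990072) (nat_lit 3460359) (nat_lit 32736481) (nat_lit 3460359) [(nat_lit 0), (nat_lit 0), (nat_lit 0), (nat_lit 7727992)]) (PF.cons (PF.leaf (nat_lit 9304339) (nat_lit 599550) (nat_lit 32336119) (nat_lit 3450661) [(nat_lit 599550), (nat_lit 0), (nat_lit 0), (nat_lit 7680620)]) (PF.cons (PF.leaf (nat_lit 9624127) (nat_lit 604742) (nat_lit 31932832) (nat_lit 3439822) [(nat_lit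 604742), (nat_lit 0), (nat_lit 0), (nat_lit 7631668)]) (PF.cons (PF.leaf (nat_lit 9947762) (nat_lit 608988) (nat_lit 31528491) (nat_lit 3427922) [(nat_lit 608988), (nat_lit 0), (nat_lit 0), (nat_lit 7581358)]) (PF.cons PF.nil PF.nil))))) (PF.cons (PF.cons (PF.leaf (nat_lit 9661920) (nat_lit 1730353) (nat_lit 31603818) (nat_lit 3425479) [(nat_lit 0), (nat_lit 1730353), (nat_lit 0), (nat_lit 7587290)]) (PF.cons (PF.leaf (nat_lit 9979167) (nat_lit 605859) (nat_lit 31209924) (nat_lit 3413367) [(nat_lit 605859), (nat_lit 1729892), (nat_lit 0), (nat_lit 7537442)]) (PF.cons (PF.leaf (nat_lit 10299987) (nat_lit 609392) (nat_lit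
 30815622) (nat_lit 3400300) [(nat_lit 609392), (nat_lit 1728550), (nat_lit 0), (nat_lit 7486388)]) (PF.cons PF.nil PF.nil)))) (PF.cons (PF.cons (PF.leaf (nat_lit 10327587) (nat_lit 1722005) (nat_lit 30508874) (nat_lit 3385342) [(nat_lit 0), (nat_lit 1722005), (nat_lit 0), (nat_lit 7442646)]) (PF.cons PF.nil PF.nil)) PF.nil))) (PF.cons (PF.cons (PF.cons (PF.leaf (nat_lit 10037281) (nat_lit 3372687) (nat_lit 30479576) (nat_lit 3372687) [(nat_lit 0), (nat_lit 0), (nat_lit 3542174), (nat_lit 7428593)]) (PF.cons (PF.leaf (nat_lit 10348263) (nat_lit 600522) (nat_lit 30105999) (nat_lit 3359592) [(nat_lit 600522), (nat_lit 0), (nat_lit 3527744), (nat_lit 7378738)]) (PF.cons PF.nil PF.nil))) (PF.cons (PF.cons (PF.leaf (nat_lit 10686157) (nat_lit 1699683) (nat_lit 29443330) (nat_lit 3330446) [(nat_lit 0), (nat_lit 1699683), (nat_lit 3496267), (nat_lit 7284771)]) PF.nil) PF.nil)) (PF.cons PF.nil PF.nil))) (PF.cons (PF.cons (PF.cons (PF.cons (PF.leaf (nat_lit 10446349) (nat_lit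 3243169) (nat_lit 28401556) (nat_lit 3243169) [(nat_lit 0), (nat_lit 0), (nat_lit 0), (nat_lit 7092817)]) (PF.cons (PF.leaf (nat_lit 10744232) (nat_lit 581093) (nat_lit 28070652) (nat_lit 3229987) [(nat_lit 581093),
 (nat_lit 0), (nat_lit 0), (nat_lit 7045415)]) PF.nil)) (PF.cons PF.nil PF.nil)) (PF.cons PF.nil PF.nil)) (PF.cons PF.nil (PF.cons PF.nil (PF.cons PF.nil PF.nil)))))))))

def p15_29_0_0 : pfC (piC [(nat_lit 35755509), (nat_lit 23968959), (nat_lit 17897616), (nat_lit 12073119)] (nat_lit 20024807)) p15_29_0 (nat_lit 4) (nat_lit 0) (nat_lit 1) = true := by decide +kernel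
def p15_29_0_1 : pfC (piC [(nat_lit 35755509), (nat_lit 23968959), (nat_lit 17897616), (nat_lit 12073119)] (nat_lit 20024807)) p15_29_0 (nat_lit 4) (nat_lit 1) (nat_lit 2) = true := by decide +kernel
def p15_29_0_2 : pfC (piC [(nat_lit 35755509), (nat_lit 23968959), (nat_lit 17897616), (nat_lit 12073119)] (nat_lit 20024807)) p15_29_0 (nat_lit 4) (nat_lit 2) (nat_lit 3) = true := by decide +kernel
def p15_29_0_3 : pfC (piC [(nat_lit 35755509), (nat_lit 23968959), (nat_lit 17897616), (nat_lit 12073119)] (nat_lit 20024807)) p15_29_0 (nat_lit 4) (nat_lit 3) (nat_lit 4) = true := by decide +kernel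
def p15_29_0_4 : pfC (piC [(nat_lit 35755509), (nat_lit 23968959), (nat_lit 17897616), (nat_lit 12073119)] (nat_lit 20024807)) p15_29_0 (nat_lit 4) (nat_lit 4) (nat_lit 5) = true := by decide +kernel
def p15_29_0_5 : pfC (piC [(nat_lit 35755509), (nat_lit 23968959), (nat_lit 17897616), (nat_lit 12073119)] (nat_lit 20024807)) p15_29_0 (nat_lit 4) (nat_lit 5) (nat_lit 6) = true := by decide +kernel
def p15_29_0_6 : pfC (piC [(nat_lit 35755509), (nat_lit 23968959), (nat_lit 17897616), (nat_lit 12073119)] (nat_lit 20024807)) p15_29_0 (nat_lit 4) (nat_lit 6) (nat_lit 7) = true := by decide +kernel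
def p15_29_0_7 : pfC (piC [(nat_lit 35755509), (nat_lit 23968959), (nat_lit 17897616), (nat_lit 12073119)] (nat_lit 20024807)) p15_29_0 (nat_lit 4) (nat_lit 7) (nat_lit 8) = true := by decide +kernel
def p15_29_0_8 : pfC (piC [(nat_lit 35755509), (nat_lit 23968959), (nat_lit 17897616), (nat_lit 12073119)] (nat_lit 20024807)) p15_29_0 (nat_lit 4) (nat_lit 8) (nat_lit 9) = true := by decide +kernel
def p15_29_0_9 : pfC (piC [(nat_lit 35755509), (nat_lit 23968959), (nat_lit 17897616), (nat_lit 12073119)] (nat_lit 20024807)) p15_29_0 (nat_lit 4) (nat_lit 9) (nat_lit 10) = true := by decide +kernel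
def p15_29_0_10 : pfC (piC [(nat_lit 35755509), (nat_lit 23968959), (nat_lit 17897616), (nat_lit 12073119)] (nat_lit 20024807)) p15_29_0 (nat_lit 4) (nat_lit 10) (nat_lit 11) = true := by decide +kernel
def p15_29_0_11 : pfC (piC [(nat_lit 35755509), (nat_lit 23968959), (nat_lit 17897616), (nat_lit 12073119)] (nat_lit 20024807)) p15_29_0 (nat_lit 4) (nat_lit 11) (nat_lit 12) = true := by decide +kernel
def p15_29_0_12 : pfC (piC [(nat_lit 35755509), (nat_lit 23968959), (nat_lit 17897616), (nat_lit 12073119)] (nat_lit 20024807)) p15_29_0 (nat_lit 4) (nat_lit 12) (nat_lit 13) = true := by decide +kernel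
def p15_29_0_13 : pfC (piC [(nat_lit 35755509), (nat_lit 23968959), (nat_lit 17897616), (nat_lit 12073119)] (nat_lit 20024807)) p15_29_0 (nat_lit 4) (nat_lit 13) (nat_lit 14) = true := by decide +kernel
def p15_29_0_14 : pfC (piC [(nat_lit 35755509), (nat_lit 23968959), (nat_lit 17897616), (nat_lit 12073119)] (nat_lit 20024807)) p15_29_0 (nat_lit 4) (nat_lit 14) (nat_lit 15) = true := by decide +kernel
def p15_29_0_15 : pfC (piC [(nat_lit 35755509), (nat_lit 23968959), (nat_lit 17897616), (nat_lit 12073119)] (nat_lit 20024807)) p15_29_0 (nat_lit 4) (nat_lit 15) (nat_lit 16) = true := by decide +kernel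
def p15_29_0_16 : pfC (piC [(nat_lit 35755509), (nat_lit 23968959), (nat_lit 17897616), (nat_lit 12073119)] (nat_lit 20024807)) p15_29_0 (nat_lit 4) (nat_lit 16) (nat_lit 17) = true := by decide +kernel
def p15_29_0_17 : pfC (piC [(nat_lit 35755509), (nat_lit 23968959), (nat_lit 17897616), (nat_lit 12073119)] (nat_lit 20024807)) p15_29_0 (nat_lit 4) (nat_lit 17) (nat_lit 18) = true := by decide +kernel
def p15_29_0_18 : pfC (piC [(nat_lit 35755509), (nat_lit 23968959), (nat_lit 17897616), (nat_lit 12073119)] (nat_lit 20024807)) p15_29_0 (nat_lit 4) (nat_lit 18) (nat_lit 19) = true := by decide +kernel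
def p15_29_0_19 : pfC (piC [(nat_lit 35755509), (nat_lit 23968959), (nat_lit 17897616), (nat_lit 12073119)] (nat_lit 20024807)) p15_29_0 (nat_lit 4) (nat_lit 19) (nat_lit 20) = true := by decide +kernel
def p15_29_0_20 : pfC (piC [(nat_lit 35755509), (nat_lit 23968959), (nat_lit 17897616), (nat_lit 12073119)] (nat_lit 20024807)) p15_29_0 (nat_lit 4) (nat_lit 20) (nat_lit 21) = true := by decide +kernel
def p15_29_0_21 : pfC (piC [(nat_lit 35755509), (nat_lit 23968959), (nat_lit 17897616), (nat_lit 12073119)] (nat_lit 20024807)) p15_29_0 (nat_lit 4) (nat_lit 21) (nat_lit 22) = true := by decide +kernel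
def p15_29_0_22 : pfC (piC [(nat_lit 35755509), (nat_lit 23968959), (nat_lit 17897616), (nat_lit 12073119)] (nat_lit 20024807)) p15_29_0 (nat_lit 4) (nat_lit 22) (nat_lit 23) = true := by decide +kernel
def p15_29_0_23 : pfC (piC [(nat_lit 35755509), (nat_lit 23968959), (nat_lit 17897616), (nat_lit 12073119)] (nat_lit 20024807)) p15_29_0 (nat_lit 4) (nat_lit 23) (nat_lit 24) = true := by decide +kernel
def p15_29_0_24 : pfC (piC [(nat_lit 35755509), (nat_lit 23968959), (nat_lit 17897616), (nat_lit 12073119)] (nat_lit 20024807)) p15_29_0 (nat_lit 4) (nat_lit 24) (nat_lit 25) = true := by decide +kernel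
def p15_29_0_25 : pfC (piC [(nat_lit 35755509), (nat_lit 23968959), (nat_lit 17897616), (nat_lit 12073119)] (nat_lit 20024807)) p15_29_0 (nat_lit 4) (nat_lit 25) (nat_lit 26) = true := by decide +kernel
def p15_29_0_26 : pfC (piC [(nat_lit 35755509), (nat_lit 23968959), (nat_lit 17897616), (nat_lit 12073119)] (nat_lit 20024807)) p15_29_0 (nat_lit 4) (nat_lit 26) (nat_lit 27) = true := by decide +kernel
def p15_29_0_27 : pfC (piC [(nat_lit 35755509), (nat_lit 23968959), (nat_lit 17897616), (nat_lit 12073119)] (nat_lit 20024807)) p15_29_0 (nat_lit 4) (nat_lit 27) (nat_lit 28) = true := by decide +kernel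
def p15_29_0_28 : pfC (piC [(nat_lit 35755509), (nat_lit 23968959), (nat_lit 17897616), (nat_lit 12073119)] (nat_lit 20024807)) p15_29_0 (nat_lit 4) (nat_lit 28) (nat_lit 29) = true := by decide +kernel
def p15_29_0_29 : pfC (piC [(nat_lit 35755509), (nat_lit 23968959), (nat_lit 17897616), (nat_lit 12073119)] (nat_lit 20024807)) p15_29_0 (nat_lit 4) (nat_lit 29) (nat_lit 30) = true := by decide +kernel
def p15_29_0_30 : pfC (piC [(nat_lit 35755509), (nat_lit 23968959), (nat_lit 17897616), (nat_lit 12073119)] (nat_lit 20024807)) p15_29_0 (nat_lit 4) (nat_lit 30) (nat_lit 31) = true := by decide +kernel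
def p15_29_0_31 : pfC (piC [(nat_lit 35755509), (nat_lit 23968959), (nat_lit 17897616), (nat_lit 12073119)] (nat_lit 20024807)) p15_29_0 (nat_lit 4) (nat_lit 31) (nat_lit 32) = true := by decide +kernel
def p15_29_0_32 : pfC (piC [(nat_lit 35755509), (nat_lit 23968959), (nat_lit 17897616), (nat_lit 12073119)] (nat_lit 20024807)) p15_29_0 (nat_lit 4) (nat_lit 32) (nat_lit 33) = true := by decide +kernel
def p15_29_0_33 : pfC (piC [(nat_lit 35755509), (nat_lit 23968959), (nat_lit 17897616), (nat_lit 12073119)] (nat_lit 20024807)) p15_29_0 (nat_lit 4) (nat_lit 33) (nat_lit 34) = true := by decide +kernel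
def p15_29_0_34 : pfC (piC [(nat_lit 35755509), (nat_lit 23968959), (nat_lit 17897616), (nat_lit 12073119)] (nat_lit 20024807)) p15_29_0 (nat_lit 4) (nat_lit 34) (nat_lit 35) = true := by decide +kernel
def p15_29_0_35 : pfC (piC [(nat_lit 35755509), (nat_lit 23968959), (nat_lit 17897616), (nat_lit 12073119)] (nat_lit 20024807)) p15_29_0 (nat_lit 4) (nat_lit 35) (nat_lit 36) = true := by decide +kernel
def p15_29_0_36 : pfC (piC [(nat_lit 35755509), (nat_lit 23968959), (nat_lit 17897616), (nat_lit 12073119)] (nat_lit 20024807)) p15_29_0 (nat_lit 4) (nat_lit 36) (nat_lit 37) = true := by decide +kernel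
def p15_29_0_37 : pfC (piC [(nat_lit 35755509), (nat_lit 23968959), (nat_lit 17897616), (nat_lit 12073119)] (nat_lit 20024807)) p15_29_0 (nat_lit 4) (nat_lit 37) (nat_lit 38) = true := by decide +kernel
def p15_29_0_38 : pfC (piC [(nat_lit 35755509), (nat_lit 23968959), (nat_lit 17897616), (nat_lit 12073119)] (nat_lit 20024807)) p15_29_0 (nat_lit 4) (nat_lit 38) (nat_lit 39) = true := by decide +kernel
def p15_29_0_39 : pfC (piC [(nat_lit 35755509), (nat_lit 23968959), (nat_lit 17897616), (nat_lit 12073119)] (nat_lit 20024807)) p15_29_0 (nat_lit 4) (nat_lit 39) (nat_lit 40) = true := by decide +kernel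
def p15_29_0_40 : pfC (piC [(nat_lit 35755509), (nat_lit 23968959), (nat_lit 17897616), (nat_lit 12073119)] (nat_lit 20024807)) p15_29_0 (nat_lit 4) (nat_lit 40) (nat_lit 41) = true := by decide +kernel
def p15_29_0_41 : pfC (piC [(nat_lit 35755509), (nat_lit 23968959), (nat_lit 17897616), (nat_lit 12073119)] (nat_lit 20024807)) p15_29_0 (nat_lit 4) (nat_lit 41) (nat_lit 42) = true := by decide +kernel
def p15_29_0_42 : pfC (piC [(nat_lit 35755509), (nat_lit 23968959), (nat_lit 17897616), (nat_lit 12073119)] (nat_lit 20024807)) p15_29_0 (nat_lit 4) (nat_lit 42) (nat_lit 43) = true := by decide +kernel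
def p15_29_0_43 : pfC (piC [(nat_lit 35755509), (nat_lit 23968959), (nat_lit 17897616), (nat_lit 12073119)] (nat_lit 20024807)) p15_29_0 (nat_lit 4) (nat_lit 43) (nat_lit 44) = true := by decide +kernel
def p15_29_0_44 : pfC (piC [(nat_lit 35755509), (nat_lit 23968959), (nat_lit 17897616), (nat_lit 12073119)] (nat_lit 20024807)) p15_29_0 (nat_lit 4) (nat_lit 44) (nat_lit 45) = true := by decide +kernel
def p15_29_0_45 : pfC (piC [(nat_lit 35755509), (nat_lit 23968959), (nat_lit 17897616), (nat_lit 12073119)] (nat_lit 20024807)) p15_29_0 (nat_lit 4) (nat_lit 45) (nat_lit 46) = true := by decide +kernel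
def p15_29_0_46 : pfC (piC [(nat_lit 35755509), (nat_lit 23968959), (nat_lit 17897616), (nat_lit 12073119)] (nat_lit 20024807)) p15_29_0 (nat_lit 4) (nat_lit 46) (nat_lit 47) = true := by decide +kernel
def p15_29_0_47 : pfC (piC [(nat_lit 35755509), (nat_lit 23968959), (nat_lit 17897616), (nat_lit 12073119)] (nat_lit 20024807)) p15_29_0 (nat_lit 4) (nat_lit 47) (nat_lit 48) = true := by decide +kernel
def p15_29_0_48 : pfC (piC [(nat_lit 35755509), (nat_lit 23968959), (nat_lit 17897616), (nat_lit 12073119)] (nat_lit 20024807)) p15_29_0 (nat_lit 4) (nat_lit 48) (nat_lit 49) = true := by decide +kernel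
def p15_29_0_49 : pfC (piC [(nat_lit 35755509), (nat_lit 23968959), (nat_lit 17897616), (nat_lit 12073119)] (nat_lit 20024807)) p15_29_0 (nat_lit 4) (nat_lit 49) (nat_lit 50) = true := by decide +kernel
def p15_29_0_50 : pfC (piC [(nat_lit 35755509), (nat_lit 23968959), (nat_lit 17897616), (nat_lit 12073119)] (nat_lit 20024807)) p15_29_0 (nat_lit 4) (nat_lit 50) (nat_lit 51) = true := by decide +kernel
def p15_29_0_51 : pfC (piC [(nat_lit 35755509), (nat_lit 23968959), (nat_lit 17897616), (nat_lit 12073119)] (nat_lit 20024807)) p15_29_0 (nat_lit 4) (nat_lit 51) (nat_lit 52) = true := by decide +kernel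
def p15_29_0_52 : pfC (piC [(nat_lit 35755509), (nat_lit 23968959), (nat_lit 17897616), (nat_lit 12073119)] (nat_lit 20024807)) p15_29_0 (nat_lit 4) (nat_lit 52) (nat_lit 53) = true := by decide +kernel
def p15_29_0_53 : pfC (piC [(nat_lit 35755509), (nat_lit 23968959), (nat_lit 17897616), (nat_lit 12073119)] (nat_lit 20024807)) p15_29_0 (nat_lit 4) (nat_lit 53) (nat_lit 54) = true := by decide +kernel
def p15_29_0_54 : pfC (piC [(nat_lit 35755509), (nat_lit 23968959), (nat_lit 17897616), (nat_lit 12073119)] (nat_lit 20024807)) p15_29_0 (nat_lit 4) (nat_lit 54) (nat_lit 55) = true := by decide +kernel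
def p15_29_0_55 : pfC (piC [(nat_lit 35755509), (nat_lit 23968959), (nat_lit 17897616), (nat_lit 12073119)] (nat_lit 20024807)) p15_29_0 (nat_lit 4) (nat_lit 55) (nat_lit 56) = true := by decide +kernel
def p15_29_0_56 : pfC (piC [(nat_lit 35755509), (nat_lit 23968959), (nat_lit 17897616), (nat_lit 12073119)] (nat_lit 20024807)) p15_29_0 (nat_lit 4) (nat_lit 56) (nat_lit 57) = true := by decide +kernel
def p15_29_0_57 : pfC (piC [(nat_lit 35755509), (nat_lit 23968959), (nat_lit 17897616), (nat_lit 12073119)] (nat_lit 20024807)) p15_29_0 (nat_lit 4) (nat_lit 57) (nat_lit 58) = true := by decide +kernel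
def p15_29_0_58 : pfC (piC [(nat_lit 35755509), (nat_lit 23968959), (nat_lit 17897616), (nat_lit 12073119)] (nat_lit 20024807)) p15_29_0 (nat_lit 4) (nat_lit 58) (nat_lit 59) = true := by decide +kernel
def p15_29_0_59 : pfC (piC [(nat_lit 35755509), (nat_lit 23968959), (nat_lit 17897616), (nat_lit 12073119)] (nat_lit 20024807)) p15_29_0 (nat_lit 4) (nat_lit 59) (nat_lit 60) = true := by decide +kernel
def p15_29_0_60 : pfC (piC [(nat_lit 35755509), (nat_lit 23968959), (nat_lit 17897616), (nat_lit 12073119)] (nat_lit 20024807)) p15_29_0 (nat_lit 4) (nat_lit 60) (nat_lit 61) = true := by decide +kernel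
def p15_29_0_61 : pfC (piC [(nat_lit 35755509), (nat_lit 23968959), (nat_lit 17897616), (nat_lit 12073119)] (nat_lit 20024807)) p15_29_0 (nat_lit 4) (nat_lit 61) (nat_lit 62) = true := by decide +kernel
def p15_29_0_62 : pfC (piC [(nat_lit 35755509), (nat_lit 23968959), (nat_lit 17897616), (nat_lit 12073119)] (nat_lit 20024807)) p15_29_0 (nat_lit 4) (nat_lit 62) (nat_lit 63) = true := by decide +kernel
def p15_29_0_63 : pfC (piC [(nat_lit 35755509), (nat_lit 23968959), (nat_lit 17897616), (nat_lit 12073119)] (nat_lit 20024807)) p15_29_0 (nat_lit 4) (nat_lit 63) (nat_lit 64) = true := by decide +kernel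
def p15_29_0_64 : pfC (piC [(nat_lit 35755509), (nat_lit 23968959), (nat_lit 17897616), (nat_lit 12073119)] (nat_lit 20024807)) p15_29_0 (nat_lit 4) (nat_lit 64) (nat_lit 65) = true := by decide +kernel
def p15_29_0_65 : pfC (piC [(nat_lit 35755509), (nat_lit 23968959), (nat_lit 17897616), (nat_lit 12073119)] (nat_lit 20024807)) p15_29_0 (nat_lit 4) (nat_lit 65) (nat_lit 66) = true := by decide +kernel
def p15_29_0_66 : pfC (piC [(nat_lit 35755509), (nat_lit 23968959), (nat_lit 17897616), (nat_lit 12073119)] (nat_lit 20024807)) p15_29_0 (nat_lit 4) (nat_lit 66) (nat_lit 67) = true := by decide +kernel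
def p15_29_0_67 : pfC (piC [(nat_lit 35755509), (nat_lit 23968959), (nat_lit 17897616), (nat_lit 12073119)] (nat_lit 20024807)) p15_29_0 (nat_lit 4) (nat_lit 67) (nat_lit 68) = true := by decide +kernel
def p15_29_0_68 : pfC (piC [(nat_lit 35755509), (nat_lit 23968959), (nat_lit 17897616), (nat_lit 12073119)] (nat_lit 20024807)) p15_29_0 (nat_lit 4) (nat_lit 68) (nat_lit 69) = true := by decide +kernel
def p15_29_0_69 : pfC (piC [(nat_lit 35755509), (nat_lit 23968959), (nat_lit 17897616), (nat_lit 12073119)] (nat_lit 20024807)) p15_29_0 (nat_lit 4) (nat_lit 69) (nat_lit 70) = true := by decide +kernel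
def p15_29_0_70 : pfC (piC [(nat_lit 35755509), (nat_lit 23968959), (nat_lit 17897616), (nat_lit 12073119)] (nat_lit 20024807)) p15_29_0 (nat_lit 4) (nat_lit 70) (nat_lit 71) = true := by decide +kernel
def p15_29_0_71 : pfC (piC [(nat_lit 35755509), (nat_lit 23968959), (nat_lit 17897616), (nat_lit 12073119)] (nat_lit 20024807)) p15_29_0 (nat_lit 4) (nat_lit 71) (nat_lit 72) = true := by decide +kernel
def p15_29_0_72 : pfC (piC [(nat_lit 35755509), (nat_lit 23968959), (nat_lit 17897616), (nat_lit 12073119)] (nat_lit 20024807)) p15_29_0 (nat_lit 4) (nat_lit 72) (nat_lit 73) = true := by decide +kernel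
def p15_29_0_73 : pfC (piC [(nat_lit 35755509), (nat_lit 23968959), (nat_lit 17897616), (nat_lit 12073119)] (nat_lit 20024807)) p15_29_0 (nat_lit 4) (nat_lit 73) (nat_lit 74) = true := by decide +kernel
def p15_29_0_74 : pfC (piC [(nat_lit 35755509), (nat_lit 23968959), (nat_lit 17897616), (nat_lit 12073119)] (nat_lit 20024807)) p15_29_0 (nat_lit 4) (nat_lit 74) (nat_lit 75) = true := by decide +kernel
def p15_29_0_75 : pfC (piC [(nat_lit 35755509), (nat_lit 23968959), (nat_lit 17897616), (nat_lit 12073119)] (nat_lit 20024807)) p15_29_0 (nat_lit 4) (nat_lit 75) (nat_lit 76) = true := by decide +kernel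
def p15_29_0_76 : pfC (piC [(nat_lit 35755509), (nat_lit 23968959), (nat_lit 17897616), (nat_lit 12073119)] (nat_lit 20024807)) p15_29_0 (nat_lit 4) (nat_lit 76) (nat_lit 77) = true := by decide +kernel
def p15_29_0_77 : pfC (piC [(nat_lit 35755509), (nat_lit 23968959), (nat_lit 17897616), (nat_lit 12073119)] (nat_lit 20024807)) p15_29_0 (nat_lit 4) (nat_lit 77) (nat_lit 78) = true := by decide +kernel
def p15_29_0_78 : pfC (piC [(nat_lit 35755509), (nat_lit 23968959), (nat_lit 17897616), (nat_lit 12073119)] (nat_lit 20024807)) p15_29_0 (nat_lit 4) (nat_lit 78) (nat_lit 79) = true := by decide +kernel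
def p15_29_0_79 : pfC (piC [(nat_lit 35755509), (nat_lit 23968959), (nat_lit 17897616), (nat_lit 12073119)] (nat_lit 20024807)) p15_29_0 (nat_lit 4) (nat_lit 79) (nat_lit 80) = true := by decide +kernel
def p15_29_0_80 : pfC (piC [(nat_lit 35755509), (nat_lit 23968959), (nat_lit 17897616), (nat_lit 12073119)] (nat_lit 20024807)) p15_29_0 (nat_lit 4) (nat_lit 80) (nat_lit 81) = true := by decide +kernel
def p15_29_0_81 : pfC (piC [(nat_lit 35755509), (nat_lit 23968959), (nat_lit 17897616), (nat_lit 12073119)] (nat_lit 20024807)) p15_29_0 (nat_lit 4) (nat_lit 81) (nat_lit 82) = true := by decide +kernel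
def p15_29_0_82 : pfC (piC [(nat_lit 35755509), (nat_lit 23968959), (nat_lit 17897616), (nat_lit 12073119)] (nat_lit 20024807)) p15_29_0 (nat_lit 4) (nat_lit 82) (nat_lit 83) = true := by decide +kernel
def p15_29_0_83 : pfC (piC [(nat_lit 35755509), (nat_lit 23968959), (nat_lit 17897616), (nat_lit 12073119)] (nat_lit 20024807)) p15_29_0 (nat_lit 4) (nat_lit 83) (nat_lit 84) = true := by decide +kernel
def p15_29_0_84 : pfC (piC [(nat_lit 35755509), (nat_lit 23968959), (nat_lit 17897616), (nat_lit 12073119)] (nat_lit 20024807)) p15_29_0 (nat_lit 4) (nat_lit 84) (nat_lit 85) = true := by decide +kernel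
def p15_29_0_85 : pfC (piC [(nat_lit 35755509), (nat_lit 23968959), (nat_lit 17897616), (nat_lit 12073119)] (nat_lit 20024807)) p15_29_0 (nat_lit 4) (nat_lit 85) (nat_lit 86) = true := by decide +kernel
def p15_29_0_86 : pfC (piC [(nat_lit 35755509), (nat_lit 23968959), (nat_lit 17897616), (nat_lit 12073119)] (nat_lit 20024807)) p15_29_0 (nat_lit 4) (nat_lit 86) (nat_lit 87) = true := by decide +kernel
def p15_29_0_87 : pfC (piC [(nat_lit 35755509), (nat_lit 23968959), (nat_lit 17897616), (nat_lit 12073119)] (nat_lit 20024807)) p15_29_0 (nat_lit 4) (nat_lit 87) (nat_lit 88) = true := by decide +kernel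
def p15_29_0_88 : pfC (piC [(nat_lit 35755509), (nat_lit 23968959), (nat_lit 17897616), (nat_lit 12073119)] (nat_lit 20024807)) p15_29_0 (nat_lit 4) (nat_lit 88) (nat_lit 89) = true := by decide +kernel
def p15_29_0_89 : pfC (piC [(nat_lit 35755509), (nat_lit 23968959), (nat_lit 17897616), (nat_lit 12073119)] (nat_lit 20024807)) p15_29_0 (nat_lit 4) (nat_lit 89) (nat_lit 90) = true := by decide +kernel
def p15_29_0_90 : pfC (piC [(nat_lit 35755509), (nat_lit 23968959), (nat_lit 17897616), (nat_lit 12073119)] (nat_lit 20024807)) p15_29_0 (nat_lit 4) (nat_lit 90) (nat_lit 91) = true := by decide +kernel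
def p15_29_0_91 : pfC (piC [(nat_lit 35755509), (nat_lit 23968959), (nat_lit 17897616), (nat_lit 12073119)] (nat_lit 20024807)) p15_29_0 (nat_lit 4) (nat_lit 91) (nat_lit 92) = true := by decide +kernel
def p15_29_0_92 : pfC (piC [(nat_lit 35755509), (nat_lit 23968959), (nat_lit 17897616), (nat_lit 12073119)] (nat_lit 20024807)) p15_29_0 (nat_lit 4) (nat_lit 92) (nat_lit 93) = true := by decide +kernel
def p15_29_0_93 : pfC (piC [(nat_lit 35755509), (nat_lit 23968959), (nat_lit 17897616), (nat_lit 12073119)] (nat_lit 20024807)) p15_29_0 (nat_lit 4) (nat_lit 93) (nat_lit 94) = true := by decide +kernel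
def p15_29_0_94 : pfC (piC [(nat_lit 35755509), (nat_lit 23968959), (nat_lit 17897616), (nat_lit 12073119)] (nat_lit 20024807)) p15_29_0 (nat_lit 4) (nat_lit 94) (nat_lit 95) = true := by decide +kernel
def p15_29_0_95 : pfC (piC [(nat_lit 35755509), (nat_lit 23968959), (nat_lit 17897616), (nat_lit 12073119)] (nat_lit 20024807)) p15_29_0 (nat_lit 4) (nat_lit 95) (nat_lit 96) = true := by decide +kernel
def p15_29_0_96 : pfC (piC [(nat_lit 35755509), (nat_lit 23968959), (nat_lit 17897616), (nat_lit 12073119)] (nat_lit 20024807)) p15_29_0 (nat_lit 4) (nat_lit 96) (nat_lit 97) = true := by decide +kernel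
def p15_29_0_97 : pfC (piC [(nat_lit 35755509), (nat_lit 23968959), (nat_lit 17897616), (nat_lit 12073119)] (nat_lit 20024807)) p15_29_0 (nat_lit 4) (nat_lit 97) (nat_lit 98) = true := by decide +kernel
def p15_29_0_98 : pfC (piC [(nat_lit 35755509), (nat_lit 23968959), (nat_lit 17897616), (nat_lit 12073119)] (nat_lit 20024807)) p15_29_0 (nat_lit 4) (nat_lit 98) (nat_lit 99) = true := by decide +kernel
def p15_29_0_99 : pfC (piC [(nat_lit 35755509), (nat_lit 23968959), (nat_lit 17897616), (nat_lit 12073119)] (nat_lit 20024807)) p15_29_0 (nat_lit 4) (nat_lit 99) (nat_lit 100) = true := by decide +kernel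
def p15_29_0_100 : pfC (piC [(nat_lit 35755509), (nat_lit 23968959), (nat_lit 17897616), (nat_lit 12073119)] (nat_lit 20024807)) p15_29_0 (nat_lit 4) (nat_lit 100) (nat_lit 101) = true := by decide +kernel
def p15_29_0_101 : pfC (piC [(nat_lit 35755509), (nat_lit 23968959), (nat_lit 17897616), (nat_lit 12073119)] (nat_lit 20024807)) p15_29_0 (nat_lit 4) (nat_lit 101) (nat_lit 102) = true := by decide +kernel
def p15_29_0_102 : pfC (piC [(nat_lit 35755509), (nat_lit 23968959), (nat_lit 17897616), (nat_lit 12073119)] (nat_lit 20024807)) p15_29_0 (nat_lit 4) (nat_lit 102) (nat_lit 103) = true := by decide +kernel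
def p15_29_0_103 : pfC (piC [(nat_lit 35755509), (nat_lit 23968959), (nat_lit 17897616), (nat_lit 12073119)] (nat_lit 20024807)) p15_29_0 (nat_lit 4) (nat_lit 103) (nat_lit 104) = true := by decide +kernel
def p15_29_0_104 : pfC (piC [(nat_lit 35755509), (nat_lit 23968959), (nat_lit 17897616), (nat_lit 12073119)] (nat_lit 20024807)) p15_29_0 (nat_lit 4) (nat_lit 104) (nat_lit 105) = true := by decide +kernel
def p15_29_0_105 : pfC (piC [(nat_lit 35755509), (nat_lit 23968959), (nat_lit 17897616), (nat_lit 12073119)] (nat_lit 20024807)) p15_29_0 (nat_lit 4) (nat_lit 105) (nat_lit 106) = true := by decide +kernel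
def p15_29_0_106 : pfC (piC [(nat_lit 35755509), (nat_lit 23968959), (nat_lit 17897616), (nat_lit 12073119)] (nat_lit 20024807)) p15_29_0 (nat_lit 4) (nat_lit 106) (nat_lit 107) = true := by decide +kernel
def p15_29_0_107 : pfC (piC [(nat_lit 35755509), (nat_lit 23968959), (nat_lit 17897616), (nat_lit 12073119)] (nat_lit 20024807)) p15_29_0 (nat_lit 4) (nat_lit 107) (nat_lit 108) = true := by decide +kernel
def p15_29_0_108 : pfC (piC [(nat_lit 35755509), (nat_lit 23968959), (nat_lit 17897616), (nat_lit 12073119)] (nat_lit 20024807)) p15_29_0 (nat_lit 4) (nat_lit 108) (nat_lit 109) = true := by decide +kernel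
def p15_29_0_109 : pfC (piC [(nat_lit 35755509), (nat_lit 23968959), (nat_lit 17897616), (nat_lit 12073119)] (nat_lit 20024807)) p15_29_0 (nat_lit 4) (nat_lit 109) (nat_lit 110) = true := by decide +kernel
def p15_29_0_110 : pfC (piC [(nat_lit 35755509), (nat_lit 23968959), (nat_lit 17897616), (nat_lit 12073119)] (nat_lit 20024807)) p15_29_0 (nat_lit 4) (nat_lit 110) (nat_lit 111) = true := by decide +kernel
def p15_29_0_111 : pfC (piC [(nat_lit 35755509), (nat_lit 23968959), (nat_lit 17897616), (nat_lit 12073119)] (nat_lit 20024807)) p15_29_0 (nat_lit 4) (nat_lit 111) (nat_lit 112) = true := by decide +kernel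
def p15_29_0_112 : pfC (piC [(nat_lit 35755509), (nat_lit 23968959), (nat_lit 17897616), (nat_lit 12073119)] (nat_lit 20024807)) p15_29_0 (nat_lit 4) (nat_lit 112) (nat_lit 113) = true := by decide +kernel
def p15_29_0_113 : pfC (piC [(nat_lit 35755509), (nat_lit 23968959), (nat_lit 17897616), (nat_lit 12073119)] (nat_lit 20024807)) p15_29_0 (nat_lit 4) (nat_lit 113) (nat_lit 114) = true := by decide +kernel
def p15_29_0_114 : pfC (piC [(nat_lit 35755509), (nat_lit 23968959), (nat_lit 17897616), (nat_lit 12073119)] (nat_lit 20024807)) p15_29_0 (nat_lit 4) (nat_lit 114) (nat_lit 115) = true := by decide +kernel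
def p15_29_0_115 : pfC (piC [(nat_lit 35755509), (nat_lit 23968959), (nat_lit 17897616), (nat_lit 12073119)] (nat_lit 20024807)) p15_29_0 (nat_lit 4) (nat_lit 115) (nat_lit 116) = true := by decide +kernel
def p15_29_0_116 : pfC (piC [(nat_lit 35755509), (nat_lit 23968959), (nat_lit 17897616), (nat_lit 12073119)] (nat_lit 20024807)) p15_29_0 (nat_lit 4) (nat_lit 116) (nat_lit 117) = true := by decide +kernel
def p15_29_0_117 : pfC (piC [(nat_lit 35755509), (nat_lit 23968959), (nat_lit 17897616), (nat_lit 12073119)] (nat_lit 20024807)) p15_29_0 (nat_lit 4) (nat_lit 117) (nat_lit 118) = true := by decide +kernel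
def p15_29_0_118 : pfC (piC [(nat_lit 35755509), (nat_lit 23968959), (nat_lit 17897616), (nat_lit 12073119)] (nat_lit 20024807)) p15_29_0 (nat_lit 4) (nat_lit 118) (nat_lit 119) = true := by decide +kernel
def p15_29_0_119 : pfC (piC [(nat_lit 35755509), (nat_lit 23968959), (nat_lit 17897616), (nat_lit 12073119)] (nat_lit 20024807)) p15_29_0 (nat_lit 4) (nat_lit 119) (nat_lit 120) = true := by decide +kernel
def p15_29_0_120 : pfC (piC [(nat_lit 35755509), (nat_lit 23968959), (nat_lit 17897616), (nat_lit 12073119)] (nat_lit 20024807)) p15_29_0 (nat_lit 4) (nat_lit 120) (nat_lit 121) = true := by decide +kernel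
def p15_29_0_121 : pfC (piC [(nat_lit 35755509), (nat_lit 23968959), (nat_lit 17897616), (nat_lit 12073119)] (nat_lit 20024807)) p15_29_0 (nat_lit 4) (nat_lit 121) (nat_lit 122) = true := by decide +kernel
def p15_29_0_122 : pfC (piC [(nat_lit 35755509), (nat_lit 23968959), (nat_lit 17897616), (nat_lit 12073119)] (nat_lit 20024807)) p15_29_0 (nat_lit 4) (nat_lit 122) (nat_lit 123) = true := by decide +kernel
def p15_29_0_123 : pfC (piC [(nat_lit 35755509), (nat_lit 23968959), (nat_lit 17897616), (nat_lit 12073119)] (nat_lit 20024807)) p15_29_0 (nat_lit 4) (nat_lit 123) (nat_lit 124) = true := by decide +kernel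
def p15_29_0_124 : pfC (piC [(nat_lit 35755509), (nat_lit 23968959), (nat_lit 17897616), (nat_lit 12073119)] (nat_lit 20024807)) p15_29_0 (nat_lit 4) (nat_lit 124) (nat_lit 125) = true := by decide +kernel
def p15_29_0_125 : pfC (piC [(nat_lit 35755509), (nat_lit 23968959), (nat_lit 17897616), (nat_lit 12073119)] (nat_lit 20024807)) p15_29_0 (nat_lit 4) (nat_lit 125) (nat_lit 126) = true := by decide +kernel
def p15_29_0_126 : pfC (piC [(nat_lit 35755509), (nat_lit 23968959), (nat_lit 17897616), (nat_lit 12073119)] (nat_lit 20024807)) p15_29_0 (nat_lit 4) (nat_lit 126) (nat_lit 127) = true := by decide +kernel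
def p15_29_0_127 : pfC (piC [(nat_lit 35755509), (nat_lit 23968959), (nat_lit 17897616), (nat_lit 12073119)] (nat_lit 20024807)) p15_29_0 (nat_lit 4) (nat_lit 127) (nat_lit 128) = true := by decide +kernel
def p15_29_0_128 : pfC (piC [(nat_lit 35755509), (nat_lit 23968959), (nat_lit 17897616), (nat_lit 12073119)] (nat_lit 20024807)) p15_29_0 (nat_lit 4) (nat_lit 128) (nat_lit 129) = true := by decide +kernel
def p15_29_0_129 : pfC (piC [(nat_lit 35755509), (nat_lit 23968959), (nat_lit 17897616), (nat_lit 12073119)] (nat_lit 20024807)) p15_29_0 (nat_lit 4) (nat_lit 129) (nat_lit 130) = true := by decide +kernel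
def p15_29_0_130 : pfC (piC [(nat_lit 35755509), (nat_lit 23968959), (nat_lit 17897616), (nat_lit 12073119)] (nat_lit 20024807)) p15_29_0 (nat_lit 4) (nat_lit 130) (nat_lit 131) = true := by decide +kernel
def p15_29_0_131 : pfC (piC [(nat_lit 35755509), (nat_lit 23968959), (nat_lit 17897616), (nat_lit 12073119)] (nat_lit 20024807)) p15_29_0 (nat_lit 4) (nat_lit 131) (nat_lit 132) = true := by decide +kernel
def p15_29_0_132 : pfC (piC [(nat_lit 35755509), (nat_lit 23968959), (nat_lit 17897616), (nat_lit 12073119)] (nat_lit 20024807)) p15_29_0 (nat_lit 4) (nat_lit 132) (nat_lit 133) = true := by decide +kernel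
def p15_29_0_133 : pfC (piC [(nat_lit 35755509), (nat_lit 23968959), (nat_lit 17897616), (nat_lit 12073119)] (nat_lit 20024807)) p15_29_0 (nat_lit 4) (nat_lit 133) (nat_lit 134) = true := by decide +kernel
def p15_29_0_134 : pfC (piC [(nat_lit 35755509), (nat_lit 23968959), (nat_lit 17897616), (nat_lit 12073119)] (nat_lit 20024807)) p15_29_0 (nat_lit 4) (nat_lit 134) (nat_lit 135) = true := by decide +kernel
def p15_29_0_135 : pfC (piC [(nat_lit 35755509), (nat_lit 23968959), (nat_lit 17897616), (nat_lit 12073119)] (nat_lit 20024807)) p15_29_0 (nat_lit 4) (nat_lit 135) (nat_lit 136) = true := by decide +kernel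
def p15_29_0_136 : pfC (piC [(nat_lit 35755509), (nat_lit 23968959), (nat_lit 17897616), (nat_lit 12073119)] (nat_lit 20024807)) p15_29_0 (nat_lit 4) (nat_lit 136) (nat_lit 137) = true := by decide +kernel
def p15_29_0_137 : pfC (piC [(nat_lit 35755509), (nat_lit 23968959), (nat_lit 17897616), (nat_lit 12073119)] (nat_lit 20024807)) p15_29_0 (nat_lit 4) (nat_lit 137) (nat_lit 138) = true := by decide +kernel
def p15_29_0_138 : pfC (piC [(nat_lit 35755509), (nat_lit 23968959), (nat_lit 17897616), (nat_lit 12073119)] (nat_lit 20024807)) p15_29_0 (nat_lit 4) (nat_lit 138) (nat_lit 139) = true := by decide +kernel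
def p15_29_0_139 : pfC (piC [(nat_lit 35755509), (nat_lit 23968959), (nat_lit 17897616), (nat_lit 12073119)] (nat_lit 20024807)) p15_29_0 (nat_lit 4) (nat_lit 139) (nat_lit 140) = true := by decide +kernel
def p15_29_0_140 : pfC (piC [(nat_lit 35755509), (nat_lit 23968959), (nat_lit 17897616), (nat_lit 12073119)] (nat_lit 20024807)) p15_29_0 (nat_lit 4) (nat_lit 140) (nat_lit 141) = true := by decide +kernel
def p15_29_0_141 : pfC (piC [(nat_lit 35755509), (nat_lit 23968959), (nat_lit 17897616), (nat_lit 12073119)] (nat_lit 20024807)) p15_29_0 (nat_lit 4) (nat_lit 141) (nat_lit 142) = true := by decide +kernel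
def p15_29_0_142 : pfC (piC [(nat_lit 35755509), (nat_lit 23968959), (nat_lit 17897616), (nat_lit 12073119)] (nat_lit 20024807)) p15_29_0 (nat_lit 4) (nat_lit 142) (nat_lit 143) = true := by decide +kernel
def p15_29_0_143 : pfC (piC [(nat_lit 35755509), (nat_lit 23968959), (nat_lit 17897616), (nat_lit 12073119)] (nat_lit 20024807)) p15_29_0 (nat_lit 4) (nat_lit 143) (nat_lit 144) = true := by decide +kernel
def p15_29_0_144 : pfC (piC [(nat_lit 35755509), (nat_lit 23968959), (nat_lit 17897616), (nat_lit 12073119)] (nat_lit 20024807)) p15_29_0 (nat_lit 4) (nat_lit 144) (nat_lit 145) = true := by decide +kernel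
def p15_29_0_145 : pfC (piC [(nat_lit 35755509), (nat_lit 23968959), (nat_lit 17897616), (nat_lit 12073119)] (nat_lit 20024807)) p15_29_0 (nat_lit 4) (nat_lit 145) (nat_lit 146) = true := by decide +kernel
def p15_29_0_146 : pfC (piC [(nat_lit 35755509), (nat_lit 23968959), (nat_lit 17897616), (nat_lit 12073119)] (nat_lit 20024807)) p15_29_0 (nat_lit 4) (nat_lit 146) (nat_lit 147) = true := by decide +kernel
def p15_29_0_147 : pfC (piC [(nat_lit 35755509), (nat_lit 23968959), (nat_lit 17897616), (nat_lit 12073119)] (nat_lit 20024807)) p15_29_0 (nat_lit 4) (nat_lit 147) (nat_lit 148) = true := by decide +kernel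
def p15_29_0_148 : pfC (piC [(nat_lit 35755509), (nat_lit 23968959), (nat_lit 17897616), (nat_lit 12073119)] (nat_lit 20024807)) p15_29_0 (nat_lit 4) (nat_lit 148) (nat_lit 149) = true := by decide +kernel
def p15_29_0_149 : pfC (piC [(nat_lit 35755509), (nat_lit 23968959), (nat_lit 17897616), (nat_lit 12073119)] (nat_lit 20024807)) p15_29_0 (nat_lit 4) (nat_lit 149) (nat_lit 150) = true := by decide +kernel
def p15_29_0_150 : pfC (piC [(nat_lit 35755509), (nat_lit 23968959), (nat_lit 17897616), (nat_lit 12073119)] (nat_lit 20024807)) p15_29_0 (nat_lit 4) (nat_lit 150) (nat_lit 151) = true := by decide +kernel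
def p15_29_0_151 : pfC (piC [(nat_lit 35755509), (nat_lit 23968959), (nat_lit 17897616), (nat_lit 12073119)] (nat_lit 20024807)) p15_29_0 (nat_lit 4) (nat_lit 151) (nat_lit 152) = true := by decide +kernel
def p15_29_0_152 : pfC (piC [(nat_lit 35755509), (nat_lit 23968959), (nat_lit 17897616), (nat_lit 12073119)] (nat_lit 20024807)) p15_29_0 (nat_lit 4) (nat_lit 152) (nat_lit 153) = true := by decide +kernel
def p15_29_0_153 : pfC (piC [(nat_lit 35755509), (nat_lit 23968959), (nat_lit 17897616), (nat_lit 12073119)] (nat_lit 20024807)) p15_29_0 (nat_lit 4) (nat_lit 153) (nat_lit 154) = true := by decide +kernel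
def p15_29_0_154 : pfC (piC [(nat_lit 35755509), (nat_lit 23968959), (nat_lit 17897616), (nat_lit 12073119)] (nat_lit 20024807)) p15_29_0 (nat_lit 4) (nat_lit 154) (nat_lit 155) = true := by decide +kernel
def p15_29_0_155 : pfC (piC [(nat_lit 35755509), (nat_lit 23968959), (nat_lit 17897616), (nat_lit 12073119)] (nat_lit 20024807)) p15_29_0 (nat_lit 4) (nat_lit 155) (nat_lit 156) = true := by decide +kernel
def p15_29_0_156 : pfC (piC [(nat_lit 35755509), (nat_lit 23968959), (nat_lit 17897616), (nat_lit 12073119)] (nat_lit 20024807)) p15_29_0 (nat_lit 4) (nat_lit 156) (nat_lit 157) = true := by decide +kernel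
def p15_29_0_157 : pfC (piC [(nat_lit 35755509), (nat_lit 23968959), (nat_lit 17897616), (nat_lit 12073119)] (nat_lit 20024807)) p15_29_0 (nat_lit 4) (nat_lit 157) (nat_lit 158) = true := by decide +kernel
def p15_29_0_158 : pfC (piC [(nat_lit 35755509), (nat_lit 23968959), (nat_lit 17897616), (nat_lit 12073119)] (nat_lit 20024807)) p15_29_0 (nat_lit 4) (nat_lit 158) (nat_lit 159) = true := by decide +kernel
def p15_29_0_159 : pfC (piC [(nat_lit 35755509), (nat_lit 23968959), (nat_lit 17897616), (nat_lit 12073119)] (nat_lit 20024807)) p15_29_0 (nat_lit 4) (nat_lit 159) (nat_lit 160) = true := by decide +kernel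
def p15_29_0_160 : pfC (piC [(nat_lit 35755509), (nat_lit 23968959), (nat_lit 17897616), (nat_lit 12073119)] (nat_lit 20024807)) p15_29_0 (nat_lit 4) (nat_lit 160) (nat_lit 161) = true := by decide +kernel
def p15_29_0_161 : pfC (piC [(nat_lit 35755509), (nat_lit 23968959), (nat_lit 17897616), (nat_lit 12073119)] (nat_lit 20024807)) p15_29_0 (nat_lit 4) (nat_lit 161) (nat_lit 162) = true := by decide +kernel
def p15_29_0_162 : pfC (piC [(nat_lit 35755509), (nat_lit 23968959), (nat_lit 17897616), (nat_lit 12073119)] (nat_lit 20024807)) p15_29_0 (nat_lit 4) (nat_lit 162) (nat_lit 163) = true := by decide +kernel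
def p15_29_0_163 : pfC (piC [(nat_lit 35755509), (nat_lit 23968959), (nat_lit 17897616), (nat_lit 12073119)] (nat_lit 20024807)) p15_29_0 (nat_lit 4) (nat_lit 163) (nat_lit 164) = true := by decide +kernel
def p15_29_0_164 : pfC (piC [(nat_lit 35755509), (nat_lit 23968959), (nat_lit 17897616), (nat_lit 12073119)] (nat_lit 20024807)) p15_29_0 (nat_lit 4) (nat_lit 164) (nat_lit 165) = true := by decide +kernel
def p15_29_0_165 : pfC (piC [(nat_lit 35755509), (nat_lit 23968959), (nat_lit 17897616), (nat_lit 12073119)] (nat_lit 20024807)) p15_29_0 (nat_lit 4) (nat_lit 165) (nat_lit 166) = true := by decide +kernel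
def p15_29_0_166 : pfC (piC [(nat_lit 35755509), (nat_lit 23968959), (nat_lit 17897616), (nat_lit 12073119)] (nat_lit 20024807)) p15_29_0 (nat_lit 4) (nat_lit 166) (nat_lit 167) = true := by decide +kernel
def p15_29_0_167 : pfC (piC [(nat_lit 35755509), (nat_lit 23968959), (nat_lit 17897616), (nat_lit 12073119)] (nat_lit 20024807)) p15_29_0 (nat_lit 4) (nat_lit 167) (nat_lit 168) = true := by decide +kernel
def p15_29_0_168 : pfC (piC [(nat_lit 35755509), (nat_lit 23968959), (nat_lit 17897616), (nat_lit 12073119)] (nat_lit 20024807)) p15_29_0 (nat_lit 4) (nat_lit 168) (nat_lit 169) = true := by decide +kernel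
def p15_29_0_169 : pfC (piC [(nat_lit 35755509), (nat_lit 23968959), (nat_lit 17897616), (nat_lit 12073119)] (nat_lit 20024807)) p15_29_0 (nat_lit 4) (nat_lit 169) (nat_lit 170) = true := by decide +kernel
def p15_29_0_170 : pfC (piC [(nat_lit 35755509), (nat_lit 23968959), (nat_lit 17897616), (nat_lit 12073119)] (nat_lit 20024807)) p15_29_0 (nat_lit 4) (nat_lit 170) (nat_lit 171) = true := by decide +kernel
def p15_29_0_171 : pfC (piC [(nat_lit 35755509), (nat_lit 23968959), (nat_lit 17897616), (nat_lit 12073119)] (nat_lit 20024807)) p15_29_0 (nat_lit 4) (nat_lit 171) (nat_lit 172) = true := by decide +kernel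
def p15_29_0_172 : pfC (piC [(nat_lit 35755509), (nat_lit 23968959), (nat_lit 17897616), (nat_lit 12073119)] (nat_lit 20024807)) p15_29_0 (nat_lit 4) (nat_lit 172) (nat_lit 173) = true := by decide +kernel
def p15_29_0_173 : pfC (piC [(nat_lit 35755509), (nat_lit 23968959), (nat_lit 17897616), (nat_lit 12073119)] (nat_lit 20024807)) p15_29_0 (nat_lit 4) (nat_lit 173) (nat_lit 174) = true := by decide +kernel
def p15_29_0_174 : pfC (piC [(nat_lit 35755509), (nat_lit 23968959), (nat_lit 17897616), (nat_lit 12073119)] (nat_lit 20024807)) p15_29_0 (nat_lit 4) (nat_lit 174) (nat_lit 175) = true := by decide +kernel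
def p15_29_0_175 : pfC (piC [(nat_lit 35755509), (nat_lit 23968959), (nat_lit 17897616), (nat_lit 12073119)] (nat_lit 20024807)) p15_29_0 (nat_lit 4) (nat_lit 175) (nat_lit 176) = true := by decide +kernel
def p15_29_0_176 : pfC (piC [(nat_lit 35755509), (nat_lit 23968959), (nat_lit 17897616), (nat_lit 12073119)] (nat_lit 20024807)) p15_29_0 (nat_lit 4) (nat_lit 176) (nat_lit 177) = true := by decide +kernel
def p15_29_0_177 : pfC (piC [(nat_lit 35755509), (nat_lit 23968959), (nat_lit 17897616), (nat_lit 12073119)] (nat_lit 20024807)) p15_29_0 (nat_lit 4) (nat_lit 177) (nat_lit 178) = true := by decide +kernel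
def p15_29_0_178 : pfC (piC [(nat_lit 35755509), (nat_lit 23968959), (nat_lit 17897616), (nat_lit 12073119)] (nat_lit 20024807)) p15_29_0 (nat_lit 4) (nat_lit 178) (nat_lit 179) = true := by decide +kernel
def p15_29_0_179 : pfC (piC [(nat_lit 35755509), (nat_lit 23968959), (nat_lit 17897616), (nat_lit 12073119)] (nat_lit 20024807)) p15_29_0 (nat_lit 4) (nat_lit 179) (nat_lit 180) = true := by decide +kernel
def p15_29_0_180 : pfC (piC [(nat_lit 35755509), (nat_lit 23968959), (nat_lit 17897616), (nat_lit 12073119)] (nat_lit 20024807)) p15_29_0 (nat_lit 4) (nat_lit 180) (nat_lit 181) = true := by decide +kernel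
def p15_29_0_181 : pfC (piC [(nat_lit 35755509), (nat_lit 23968959), (nat_lit 17897616), (nat_lit 12073119)] (nat_lit 20024807)) p15_29_0 (nat_lit 4) (nat_lit 181) (nat_lit 182) = true := by decide +kernel
def p15_29_0_182 : pfC (piC [(nat_lit 35755509), (nat_lit 23968959), (nat_lit 17897616), (nat_lit 12073119)] (nat_lit 20024807)) p15_29_0 (nat_lit 4) (nat_lit 182) (nat_lit 183) = true := by decide +kernel
def p15_29_0_183 : pfC (piC [(nat_lit 35755509), (nat_lit 23968959), (nat_lit 17897616), (nat_lit 12073119)] (nat_lit 20024807)) p15_29_0 (nat_lit 4) (nat_lit 183) (nat_lit 184) = true := by decide +kernel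
def p15_29_0_184 : pfC (piC [(nat_lit 35755509), (nat_lit 23968959), (nat_lit 17897616), (nat_lit 12073119)] (nat_lit 20024807)) p15_29_0 (nat_lit 4) (nat_lit 184) (nat_lit 185) = true := by decide +kernel
def p15_29_0_185 : pfC (piC [(nat_lit 35755509), (nat_lit 23968959), (nat_lit 17897616), (nat_lit 12073119)] (nat_lit 20024807)) p15_29_0 (nat_lit 4) (nat_lit 185) (nat_lit 186) = true := by decide +kernel
def p15_29_0_186 : pfC (piC [(nat_lit 35755509), (nat_lit 23968959), (nat_lit 17897616), (nat_lit 12073119)] (nat_lit 20024807)) p15_29_0 (nat_lit 4) (nat_lit 186) (nat_lit 187) = true := by decide +kernel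
def p15_29_0_187 : pfC (piC [(nat_lit 35755509), (nat_lit 23968959), (nat_lit 17897616), (nat_lit 12073119)] (nat_lit 20024807)) p15_29_0 (nat_lit 4) (nat_lit 187) (nat_lit 188) = true := by decide +kernel
def p15_29_0_188 : pfC (piC [(nat_lit 35755509), (nat_lit 23968959), (nat_lit 17897616), (nat_lit 12073119)] (nat_lit 20024807)) p15_29_0 (nat_lit 4) (nat_lit 188) (nat_lit 189) = true := by decide +kernel
def p15_29_0_189 : pfC (piC [(nat_lit 35755509), (nat_lit 23968959), (nat_lit 17897616), (nat_lit 12073119)] (nat_lit 20024807)) p15_29_0 (nat_lit 4) (nat_lit 189) (nat_lit 190) = true := by decide +kernel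
def p15_29_0_190 : pfC (piC [(nat_lit 35755509), (nat_lit 23968959), (nat_lit 17897616), (nat_lit 12073119)] (nat_lit 20024807)) p15_29_0 (nat_lit 4) (nat_lit 190) (nat_lit 191) = true := by decide +kernel
def p15_29_0_191 : pfC (piC [(nat_lit 35755509), (nat_lit 23968959), (nat_lit 17897616), (nat_lit 12073119)] (nat_lit 20024807)) p15_29_0 (nat_lit 4) (nat_lit 191) (nat_lit 192) = true := by decide +kernel
def p15_29_0_192 : pfC (piC [(nat_lit 35755509), (nat_lit 23968959), (nat_lit 17897616), (nat_lit 12073119)] (nat_lit 20024807)) p15_29_0 (nat_lit 4) (nat_lit 192) (nat_lit 193) = true := by decide +kernel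
def p15_29_0_193 : pfC (piC [(nat_lit 35755509), (nat_lit 23968959), (nat_lit 17897616), (nat_lit 12073119)] (nat_lit 20024807)) p15_29_0 (nat_lit 4) (nat_lit 193) (nat_lit 194) = true := by decide +kernel
def p15_29_0_194 : pfC (piC [(nat_lit 35755509), (nat_lit 23968959), (nat_lit 17897616), (nat_lit 12073119)] (nat_lit 20024807)) p15_29_0 (nat_lit 4) (nat_lit 194) (nat_lit 195) = true := by decide +kernel
def p15_29_0_195 : pfC (piC [(nat_lit 35755509), (nat_lit 23968959), (nat_lit 17897616), (nat_lit 12073119)] (nat_lit 20024807)) p15_29_0 (nat_lit 4) (nat_lit 195) (nat_lit 196) = true := by decide +kernel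
def p15_29_0_196 : pfC (piC [(nat_lit 35755509), (nat_lit 23968959), (nat_lit 17897616), (nat_lit 12073119)] (nat_lit 20024807)) p15_29_0 (nat_lit 4) (nat_lit 196) (nat_lit 197) = true := by decide +kernel
def p15_29_0_197 : pfC (piC [(nat_lit 35755509), (nat_lit 23968959), (nat_lit 17897616), (nat_lit 12073119)] (nat_lit 20024807)) p15_29_0 (nat_lit 4) (nat_lit 197) (nat_lit 198) = true := by decide +kernel
def p15_29_0_198 : pfC (piC [(nat_lit 35755509), (nat_lit 23968959), (nat_lit 17897616), (nat_lit 12073119)] (nat_lit 20024807)) p15_29_0 (nat_lit 4) (nat_lit 198) (nat_lit 199) = true := by decide +kernel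
def p15_29_0_199 : pfC (piC [(nat_lit 35755509), (nat_lit 23968959), (nat_lit 17897616), (nat_lit 12073119)] (nat_lit 20024807)) p15_29_0 (nat_lit 4) (nat_lit 199) (nat_lit 200) = true := by decide +kernel
def p15_29_0_200 : pfC (piC [(nat_lit 35755509), (nat_lit 23968959), (nat_lit 17897616), (nat_lit 12073119)] (nat_lit 20024807)) p15_29_0 (nat_lit 4) (nat_lit 200) (nat_lit 201) = true := by decide +kernel
def p15_29_0_201 : pfC (piC [(nat_lit 35755509), (nat_lit 23968959), (nat_lit 17897616), (nat_lit 12073119)] (nat_lit 20024807)) p15_29_0 (nat_lit 4) (nat_lit 201) (nat_lit 202) = true := by decide +kernel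
def p15_29_0_202 : pfC (piC [(nat_lit 35755509), (nat_lit 23968959), (nat_lit 17897616), (nat_lit 12073119)] (nat_lit 20024807)) p15_29_0 (nat_lit 4) (nat_lit 202) (nat_lit 203) = true := by decide +kernel
def p15_29_0_203 : pfC (piC [(nat_lit 35755509), (nat_lit 23968959), (nat_lit 17897616), (nat_lit 12073119)] (nat_lit 20024807)) p15_29_0 (nat_lit 4) (nat_lit 203) (nat_lit 204) = true := by decide +kernel
def p15_29_0_204 : pfC (piC [(nat_lit 35755509), (nat_lit 23968959), (nat_lit 17897616), (nat_lit 12073119)] (nat_lit 20024807)) p15_29_0 (nat_lit 4) (nat_lit 204) (nat_lit 205) = true := by decide +kernel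
def p15_29_0_205 : pfC (piC [(nat_lit 35755509), (nat_lit 23968959), (nat_lit 17897616), (nat_lit 12073119)] (nat_lit 20024807)) p15_29_0 (nat_lit 4) (nat_lit 205) (nat_lit 206) = true := by decide +kernel
def p15_29_0_206 : pfC (piC [(nat_lit 35755509), (nat_lit 23968959), (nat_lit 17897616), (nat_lit 12073119)] (nat_lit 20024807)) p15_29_0 (nat_lit 4) (nat_lit 206) (nat_lit 207) = true := by decide +kernel
def p15_29_0_207 : pfC (piC [(nat_lit 35755509), (nat_lit 23968959), (nat_lit 17897616), (nat_lit 12073119)] (nat_lit 20024807)) p15_29_0 (nat_lit 4) (nat_lit 207) (nat_lit 208) = true := by decide +kernel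
def p15_29_0_208 : pfC (piC [(nat_lit 35755509), (nat_lit 23968959), (nat_lit 17897616), (nat_lit 12073119)] (nat_lit 20024807)) p15_29_0 (nat_lit 4) (nat_lit 208) (nat_lit 209) = true := by decide +kernel
def p15_29_0_209 : pfC (piC [(nat_lit 35755509), (nat_lit 23968959), (nat_lit 17897616), (nat_lit 12073119)] (nat_lit 20024807)) p15_29_0 (nat_lit 4) (nat_lit 209) (nat_lit 210) = true := by decide +kernel
def p15_29_0_210 : pfC (piC [(nat_lit 35755509), (nat_lit 23968959), (nat_lit 17897616), (nat_lit 12073119)] (nat_lit 20024807)) p15_29_0 (nat_lit 4) (nat_lit 210) (nat_lit 211) = true := by decide +kernel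
def p15_29_0_211 : pfC (piC [(nat_lit 35755509), (nat_lit 23968959), (nat_lit 17897616), (nat_lit 12073119)] (nat_lit 20024807)) p15_29_0 (nat_lit 4) (nat_lit 211) (nat_lit 212) = true := by decide +kernel
def p15_29_0_212 : pfC (piC [(nat_lit 35755509), (nat_lit 23968959), (nat_lit 17897616), (nat_lit 12073119)] (nat_lit 20024807)) p15_29_0 (nat_lit 4) (nat_lit 212) (nat_lit 213) = true := by decide +kernel
def p15_29_0_213 : pfC (piC [(nat_lit 35755509), (nat_lit 23968959), (nat_lit 17897616), (nat_lit 12073119)] (nat_lit 20024807)) p15_29_0 (nat_lit 4) (nat_lit 213) (nat_lit 214) = true := by decide +kernel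
def p15_29_0_214 : pfC (piC [(nat_lit 35755509), (nat_lit 23968959), (nat_lit 17897616), (nat_lit 12073119)] (nat_lit 20024807)) p15_29_0 (nat_lit 4) (nat_lit 214) (nat_lit 215) = true := by decide +kernel
def p15_29_0_215 : pfC (piC [(nat_lit 35755509), (nat_lit 23968959), (nat_lit 17897616), (nat_lit 12073119)] (nat_lit 20024807)) p15_29_0 (nat_lit 4) (nat_lit 215) (nat_lit 216) = true := by decide +kernel
def p15_29_0_216 : pfC (piC [(nat_lit 35755509), (nat_lit 23968959), (nat_lit 17897616), (nat_lit 12073119)] (nat_lit 20024807)) p15_29_0 (nat_lit 4) (nat_lit 216) (nat_lit 217) = true := by decide +kernel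
def p15_29_0_217 : pfC (piC [(nat_lit 35755509), (nat_lit 23968959), (nat_lit 17897616), (nat_lit 12073119)] (nat_lit 20024807)) p15_29_0 (nat_lit 4) (nat_lit 217) (nat_lit 218) = true := by decide +kernel
def p15_29_0_218 : pfC (piC [(nat_lit 35755509), (nat_lit 23968959), (nat_lit 17897616), (nat_lit 12073119)] (nat_lit 20024807)) p15_29_0 (nat_lit 4) (nat_lit 218) (nat_lit 219) = true := by decide +kernel
def p15_29_0_219 : pfC (piC [(nat_lit 35755509), (nat_lit 23968959), (nat_lit 17897616), (nat_lit 12073119)] (nat_lit 20024807)) p15_29_0 (nat_lit 4) (nat_lit 219) (nat_lit 220) = true := by decide +kernel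
def p15_29_0_220 : pfC (piC [(nat_lit 35755509), (nat_lit 23968959), (nat_lit 17897616), (nat_lit 12073119)] (nat_lit 20024807)) p15_29_0 (nat_lit 4) (nat_lit 220) (nat_lit 221) = true := by decide +kernel
def p15_29_0_221 : pfC (piC [(nat_lit 35755509), (nat_lit 23968959), (nat_lit 17897616), (nat_lit 12073119)] (nat_lit 20024807)) p15_29_0 (nat_lit 4) (nat_lit 221) (nat_lit 222) = true := by decide +kernel
def p15_29_0_222 : pfC (piC [(nat_lit 35755509), (nat_lit 23968959), (nat_lit 17897616), (nat_lit 12073119)] (nat_lit 20024807)) p15_29_0 (nat_lit 4) (nat_lit 222) (nat_lit 223) = true := by decide +kernel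
def p15_29_0_223 : pfC (piC [(nat_lit 35755509), (nat_lit 23968959), (nat_lit 17897616), (nat_lit 12073119)] (nat_lit 20024807)) p15_29_0 (nat_lit 4) (nat_lit 223) (nat_lit 224) = true := by decide +kernel
def p15_29_0_224 : pfC (piC [(nat_lit 35755509), (nat_lit 23968959), (nat_lit 17897616), (nat_lit 12073119)] (nat_lit 20024807)) p15_29_0 (nat_lit 4) (nat_lit 224) (nat_lit 225) = true := by decide +kernel
def p15_29_0_225 : pfC (piC [(nat_lit 35755509), (nat_lit 23968959), (nat_lit 17897616), (nat_lit 12073119)] (nat_lit 20024807)) p15_29_0 (nat_lit 4) (nat_lit 225) (nat_lit 226) = true := by decide +kernel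
def p15_29_0_226 : pfC (piC [(nat_lit 35755509), (nat_lit 23968959), (nat_lit 17897616), (nat_lit 12073119)] (nat_lit 20024807)) p15_29_0 (nat_lit 4) (nat_lit 226) (nat_lit 227) = true := by decide +kernel
def p15_29_0_227 : pfC (piC [(nat_lit 35755509), (nat_lit 23968959), (nat_lit 17897616), (nat_lit 12073119)] (nat_lit 20024807)) p15_29_0 (nat_lit 4) (nat_lit 227) (nat_lit 228) = true := by decide +kernel
def p15_29_0_228 : pfC (piC [(nat_lit 35755509), (nat_lit 23968959), (nat_lit 17897616), (nat_lit 12073119)] (nat_lit 20024807)) p15_29_0 (nat_lit 4) (nat_lit 228) (nat_lit 229) = true := by decide +kernel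
def p15_29_0_229 : pfC (piC [(nat_lit 35755509), (nat_lit 23968959), (nat_lit 17897616), (nat_lit 12073119)] (nat_lit 20024807)) p15_29_0 (nat_lit 4) (nat_lit 229) (nat_lit 230) = true := by decide +kernel
def p15_29_0_230 : pfC (piC [(nat_lit 35755509), (nat_lit 23968959), (nat_lit 17897616), (nat_lit 12073119)] (nat_lit 20024807)) p15_29_0 (nat_lit 4) (nat_lit 230) (nat_lit 231) = true := by decide +kernel
def p15_29_0_231 : pfC (piC [(nat_lit 35755509), (nat_lit 23968959), (nat_lit 17897616), (nat_lit 12073119)] (nat_lit 20024807)) p15_29_0 (nat_lit 4) (nat_lit 231) (nat_lit 232) = true := by decide +kernel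
def p15_29_0_232 : pfC (piC [(nat_lit 35755509), (nat_lit 23968959), (nat_lit 17897616), (nat_lit 12073119)] (nat_lit 20024807)) p15_29_0 (nat_lit 4) (nat_lit 232) (nat_lit 233) = true := by decide +kernel
def p15_29_0_233 : pfC (piC [(nat_lit 35755509), (nat_lit 23968959), (nat_lit 17897616), (nat_lit 12073119)] (nat_lit 20024807)) p15_29_0 (nat_lit 4) (nat_lit 233) (nat_lit 234) = true := by decide +kernel
def p15_29_0_234 : pfC (piC [(nat_lit 35755509), (nat_lit 23968959), (nat_lit 17897616), (nat_lit 12073119)] (nat_lit 20024807)) p15_29_0 (nat_lit 4) (nat_lit 234) (nat_lit 235) = true := by decide +kernel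
def p15_29_0_235 : pfC (piC [(nat_lit 35755509), (nat_lit 23968959), (nat_lit 17897616), (nat_lit 12073119)] (nat_lit 20024807)) p15_29_0 (nat_lit 4) (nat_lit 235) (nat_lit 236) = true := by decide +kernel
def p15_29_0_236 : pfC (piC [(nat_lit 35755509), (nat_lit 23968959), (nat_lit 17897616), (nat_lit 12073119)] (nat_lit 20024807)) p15_29_0 (nat_lit 4) (nat_lit 236) (nat_lit 237) = true := by decide +kernel
def p15_29_0_237 : pfC (piC [(nat_lit 35755509), (nat_lit 23968959), (nat_lit 17897616), (nat_lit 12073119)] (nat_lit 20024807)) p15_29_0 (nat_lit 4) (nat_lit 237) (nat_lit 238) = true := by decide +kernel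
def p15_29_0_238 : pfC (piC [(nat_lit 35755509), (nat_lit 23968959), (nat_lit 17897616), (nat_lit 12073119)] (nat_lit 20024807)) p15_29_0 (nat_lit 4) (nat_lit 238) (nat_lit 239) = true := by decide +kernel
def p15_29_0_239 : pfC (piC [(nat_lit 35755509), (nat_lit 23968959), (nat_lit 17897616), (nat_lit 12073119)] (nat_lit 20024807)) p15_29_0 (nat_lit 4) (nat_lit 239) (nat_lit 240) = true := by decide +kernel
def p15_29_0_240 : pfC (piC [(nat_lit 35755509), (nat_lit 23968959), (nat_lit 17897616), (nat_lit 12073119)] (nat_lit 20024807)) p15_29_0 (nat_lit 4) (nat_lit 240) (nat_lit 241) = true := by decide +kernel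
def p15_29_0_241 : pfC (piC [(nat_lit 35755509), (nat_lit 23968959), (nat_lit 17897616), (nat_lit 12073119)] (nat_lit 20024807)) p15_29_0 (nat_lit 4) (nat_lit 241) (nat_lit 242) = true := by decide +kernel
def p15_29_0_242 : pfC (piC [(nat_lit 35755509), (nat_lit 23968959), (nat_lit 17897616), (nat_lit 12073119)] (nat_lit 20024807)) p15_29_0 (nat_lit 4) (nat_lit 242) (nat_lit 243) = true := by decide +kernel
def p15_29_0_243 : pfC (piC [(nat_lit 35755509), (nat_lit 23968959), (nat_lit 17897616), (nat_lit 12073119)] (nat_lit 20024807)) p15_29_0 (nat_lit 4) (nat_lit 243) (nat_lit 244) = true := by decide +kernel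
def p15_29_0_244 : pfC (piC [(nat_lit 35755509), (nat_lit 23968959), (nat_lit 17897616), (nat_lit 12073119)] (nat_lit 20024807)) p15_29_0 (nat_lit 4) (nat_lit 244) (nat_lit 245) = true := by decide +kernel
def p15_29_0_245 : pfC (piC [(nat_lit 35755509), (nat_lit 23968959), (nat_lit 17897616), (nat_lit 12073119)] (nat_lit 20024807)) p15_29_0 (nat_lit 4) (nat_lit 245) (nat_lit 246) = true := by decide +kernel
def p15_29_0_246 : pfC (piC [(nat_lit 35755509), (nat_lit 23968959), (nat_lit 17897616), (nat_lit 12073119)] (nat_lit 20024807)) p15_29_0 (nat_lit 4) (nat_lit 246) (nat_lit 247) = true := by decide +kernel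
def p15_29_0_247 : pfC (piC [(nat_lit 35755509), (nat_lit 23968959), (nat_lit 17897616), (nat_lit 12073119)] (nat_lit 20024807)) p15_29_0 (nat_lit 4) (nat_lit 247) (nat_lit 248) = true := by decide +kernel
def p15_29_0_248 : pfC (piC [(nat_lit 35755509), (nat_lit 23968959), (nat_lit 17897616), (nat_lit 12073119)] (nat_lit 20024807)) p15_29_0 (nat_lit 4) (nat_lit 248) (nat_lit 249) = true := by decide +kernel
def p15_29_0_249 : pfC (piC [(nat_lit 35755509), (nat_lit 23968959), (nat_lit 17897616), (nat_lit 12073119)] (nat_lit 20024807)) p15_29_0 (nat_lit 4) (nat_lit 249) (nat_lit 250) = true := by decide +kernel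
def p15_29_0_250 : pfC (piC [(nat_lit 35755509), (nat_lit 23968959), (nat_lit 17897616), (nat_lit 12073119)] (nat_lit 20024807)) p15_29_0 (nat_lit 4) (nat_lit 250) (nat_lit 251) = true := by decide +kernel
def p15_29_0_251 : pfC (piC [(nat_lit 35755509), (nat_lit 23968959), (nat_lit 17897616), (nat_lit 12073119)] (nat_lit 20024807)) p15_29_0 (nat_lit 4) (nat_lit 251) (nat_lit 252) = true := by decide +kernel
def p15_29_0_252 : pfC (piC [(nat_lit 35755509), (nat_lit 23968959), (nat_lit 17897616), (nat_lit 12073119)] (nat_lit 20024807)) p15_29_0 (nat_lit 4) (nat_lit 252) (nat_lit 253) = true := by decide +kernel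
def p15_29_0_253 : pfC (piC [(nat_lit 35755509), (nat_lit 23968959), (nat_lit 17897616), (nat_lit 12073119)] (nat_lit 20024807)) p15_29_0 (nat_lit 4) (nat_lit 253) (nat_lit 254) = true := by decide +kernel
def p15_29_0_254 : pfC (piC [(nat_lit 35755509), (nat_lit 23968959), (nat_lit 17897616), (nat_lit 12073119)] (nat_lit 20024807)) p15_29_0 (nat_lit 4) (nat_lit 254) (nat_lit 255) = true := by decide +kernel
def p15_29_0_255 : pfC (piC [(nat_lit 35755509), (nat_lit 23968959), (nat_lit 17897616), (nat_lit 12073119)] (nat_lit 20024807)) p15_29_0 (nat_lit 4) (nat_lit 255) (nat_lit 256) = true := by decide +kernel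
def p15_29_0_256 : pfC (piC [(nat_lit 35755509), (nat_lit 23968959), (nat_lit 17897616), (nat_lit 12073119)] (nat_lit 20024807)) p15_29_0 (nat_lit 4) (nat_lit 256) (nat_lit 257) = true := by decide +kernel
def p15_29_0_257 : pfC (piC [(nat_lit 35755509), (nat_lit 23968959), (nat_lit 17897616), (nat_lit 12073119)] (nat_lit 20024807)) p15_29_0 (nat_lit 4) (nat_lit 257) (nat_lit 258) = true := by decide +kernel
def p15_29_0_258 : pfC (piC [(nat_lit 35755509), (nat_lit 23968959), (nat_lit 17897616), (nat_lit 12073119)] (nat_lit 20024807)) p15_29_0 (nat_lit 4) (nat_lit 258) (nat_lit 259) = true := by decide +kernel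
def p15_29_0_259 : pfC (piC [(nat_lit 35755509), (nat_lit 23968959), (nat_lit 17897616), (nat_lit 12073119)] (nat_lit 20024807)) p15_29_0 (nat_lit 4) (nat_lit 259) (nat_lit 260) = true := by decide +kernel
def p15_29_0_260 : pfC (piC [(nat_lit 35755509), (nat_lit 23968959), (nat_lit 17897616), (nat_lit 12073119)] (nat_lit 20024807)) p15_29_0 (nat_lit 4) (nat_lit 260) (nat_lit 261) = true := by decide +kernel
def p15_29_0_261 : pfC (piC [(nat_lit 35755509), (nat_lit 23968959), (nat_lit 17897616), (nat_lit 12073119)] (nat_lit 20024807)) p15_29_0 (nat_lit 4) (nat_lit 261) (nat_lit 262) = true := by decide +kernel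
def p15_29_0_262 : pfC (piC [(nat_lit 35755509), (nat_lit 23968959), (nat_lit 17897616), (nat_lit 12073119)] (nat_lit 20024807)) p15_29_0 (nat_lit 4) (nat_lit 262) (nat_lit 263) = true := by decide +kernel
def p15_29_0_263 : pfC (piC [(nat_lit 35755509), (nat_lit 23968959), (nat_lit 17897616), (nat_lit 12073119)] (nat_lit 20024807)) p15_29_0 (nat_lit 4) (nat_lit 263) (nat_lit 264) = true := by decide +kernel
def p15_29_0_264 : pfC (piC [(nat_lit 35755509), (nat_lit 23968959), (nat_lit 17897616), (nat_lit 12073119)] (nat_lit 20024807)) p15_29_0 (nat_lit 4) (nat_lit 264) (nat_lit 265) = true := by decide +kernel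
def p15_29_0_265 : pfC (piC [(nat_lit 35755509), (nat_lit 23968959), (nat_lit 17897616), (nat_lit 12073119)] (nat_lit 20024807)) p15_29_0 (nat_lit 4) (nat_lit 265) (nat_lit 266) = true := by decide +kernel
def p15_29_0_266 : pfC (piC [(nat_lit 35755509), (nat_lit 23968959), (nat_lit 17897616), (nat_lit 12073119)] (nat_lit 20024807)) p15_29_0 (nat_lit 4) (nat_lit 266) (nat_lit 267) = true := by decide +kernel
def p15_29_0_267 : pfC (piC [(nat_lit 35755509), (nat_lit 23968959), (nat_lit 17897616), (nat_lit 12073119)] (nat_lit 20024807)) p15_29_0 (nat_lit 4) (nat_lit 267) (nat_lit 268) = true := by decide +kernel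
def p15_29_0_268 : pfC (piC [(nat_lit 35755509), (nat_lit 23968959), (nat_lit 17897616), (nat_lit 12073119)] (nat_lit 20024807)) p15_29_0 (nat_lit 4) (nat_lit 268) (nat_lit 269) = true := by decide +kernel
def p15_29_0_269 : pfC (piC [(nat_lit 35755509), (nat_lit 23968959), (nat_lit 17897616), (nat_lit 12073119)] (nat_lit 20024807)) p15_29_0 (nat_lit 4) (nat_lit 269) (nat_lit 270) = true := by decide +kernel
def p15_29_0_270 : pfC (piC [(nat_lit 35755509), (nat_lit 23968959), (nat_lit 17897616), (nat_lit 12073119)] (nat_lit 20024807)) p15_29_0 (nat_lit 4) (nat_lit 270) (nat_lit 271) = true := by decide +kernel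
def p15_29_0_271 : pfC (piC [(nat_lit 35755509), (nat_lit 23968959), (nat_lit 17897616), (nat_lit 12073119)] (nat_lit 20024807)) p15_29_0 (nat_lit 4) (nat_lit 271) (nat_lit 272) = true := by decide +kernel
def p15_29_0_272 : pfC (piC [(nat_lit 35755509), (nat_lit 23968959), (nat_lit 17897616), (nat_lit 12073119)] (nat_lit 20024807)) p15_29_0 (nat_lit 4) (nat_lit 272) (nat_lit 273) = true := by decide +kernel
def p15_29_0_273 : pfC (piC [(nat_lit 35755509), (nat_lit 23968959), (nat_lit 17897616), (nat_lit 12073119)] (nat_lit 20024807)) p15_29_0 (nat_lit 4) (nat_lit 273) (nat_lit 274) = true := by decide +kernel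
def p15_29_0_274 : pfC (piC [(nat_lit 35755509), (nat_lit 23968959), (nat_lit 17897616), (nat_lit 12073119)] (nat_lit 20024807)) p15_29_0 (nat_lit 4) (nat_lit 274) (nat_lit 275) = true := by decide +kernel
def p15_29_0_275 : pfC (piC [(nat_lit 35755509), (nat_lit 23968959), (nat_lit 17897616), (nat_lit 12073119)] (nat_lit 20024807)) p15_29_0 (nat_lit 4) (nat_lit 275) (nat_lit 276) = true := by decide +kernel
def p15_29_0_276 : pfC (piC [(nat_lit 35755509), (nat_lit 23968959), (nat_lit 17897616), (nat_lit 12073119)] (nat_lit 20024807)) p15_29_0 (nat_lit 4) (nat_lit 276) (nat_lit 277) = true := by decide +kernel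
def p15_29_0_277 : pfC (piC [(nat_lit 35755509), (nat_lit 23968959), (nat_lit 17897616), (nat_lit 12073119)] (nat_lit 20024807)) p15_29_0 (nat_lit 4) (nat_lit 277) (nat_lit 278) = true := by decide +kernel
def p15_29_0_278 : pfC (piC [(nat_lit 35755509), (nat_lit 23968959), (nat_lit 17897616), (nat_lit 12073119)] (nat_lit 20024807)) p15_29_0 (nat_lit 4) (nat_lit 278) (nat_lit 279) = true := by decide +kernel
def p15_29_0_279 : pfC (piC [(nat_lit 35755509), (nat_lit 23968959), (nat_lit 17897616), (nat_lit 12073119)] (nat_lit 20024807)) p15_29_0 (nat_lit 4) (nat_lit 279) (nat_lit 280) = true := by decide +kernel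
def p15_29_0_280 : pfC (piC [(nat_lit 35755509), (nat_lit 23968959), (nat_lit 17897616), (nat_lit 12073119)] (nat_lit 20024807)) p15_29_0 (nat_lit 4) (nat_lit 280) (nat_lit 281) = true := by decide +kernel
def p15_29_0_281 : pfC (piC [(nat_lit 35755509), (nat_lit 23968959), (nat_lit 17897616), (nat_lit 12073119)] (nat_lit 20024807)) p15_29_0 (nat_lit 4) (nat_lit 281) (nat_lit 282) = true := by decide +kernel
def p15_29_0_282 : pfC (piC [(nat_lit 35755509), (nat_lit 23968959), (nat_lit 17897616), (nat_lit 12073119)] (nat_lit 20024807)) p15_29_0 (nat_lit 4) (nat_lit 282) (nat_lit 283) = true := by decide +kernel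
def p15_29_0_283 : pfC (piC [(nat_lit 35755509), (nat_lit 23968959), (nat_lit 17897616), (nat_lit 12073119)] (nat_lit 20024807)) p15_29_0 (nat_lit 4) (nat_lit 283) (nat_lit 284) = true := by decide +kernel
def p15_29_0_284 : pfC (piC [(nat_lit 35755509), (nat_lit 23968959), (nat_lit 17897616), (nat_lit 12073119)] (nat_lit 20024807)) p15_29_0 (nat_lit 4) (nat_lit 284) (nat_lit 285) = true := by decide +kernel
def p15_29_0_285 : pfC (piC [(nat_lit 35755509), (nat_lit 23968959), (nat_lit 17897616), (nat_lit 12073119)] (nat_lit 20024807)) p15_29_0 (nat_lit 4) (nat_lit 285) (nat_lit 286) = true := by decide +kernel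
def p15_29_0_286 : pfC (piC [(nat_lit 35755509), (nat_lit 23968959), (nat_lit 17897616), (nat_lit 12073119)] (nat_lit 20024807)) p15_29_0 (nat_lit 4) (nat_lit 286) (nat_lit 287) = true := by decide +kernel
def p15_29_0_287 : pfC (piC [(nat_lit 35755509), (nat_lit 23968959), (nat_lit 17897616), (nat_lit 12073119)] (nat_lit 20024807)) p15_29_0 (nat_lit 4) (nat_lit 287) (nat_lit 288) = true := by decide +kernel
def p15_29_0_288 : pfC (piC [(nat_lit 35755509), (nat_lit 23968959), (nat_lit 17897616), (nat_lit 12073119)] (nat_lit 20024807)) p15_29_0 (nat_lit 4) (nat_lit 288) (nat_lit 289) = true := by decide +kernel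
def p15_29_0_289 : pfC (piC [(nat_lit 35755509), (nat_lit 23968959), (nat_lit 17897616), (nat_lit 12073119)] (nat_lit 20024807)) p15_29_0 (nat_lit 4) (nat_lit 289) (nat_lit 290) = true := by decide +kernel
def p15_29_0_290 : pfC (piC [(nat_lit 35755509), (nat_lit 23968959), (nat_lit 17897616), (nat_lit 12073119)] (nat_lit 20024807)) p15_29_0 (nat_lit 4) (nat_lit 290) (nat_lit 291) = true := by decide +kernel
def p15_29_0_291 : pfC (piC [(nat_lit 35755509), (nat_lit 23968959), (nat_lit 17897616), (nat_lit 12073119)] (nat_lit 20024807)) p15_29_0 (nat_lit 4) (nat_lit 291) (nat_lit 292) = true := by decide +kernel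
def p15_29_0_292 : pfC (piC [(nat_lit 35755509), (nat_lit 23968959), (nat_lit 17897616), (nat_lit 12073119)] (nat_lit 20024807)) p15_29_0 (nat_lit 4) (nat_lit 292) (nat_lit 293) = true := by decide +kernel
def p15_29_0_293 : pfC (piC [(nat_lit 35755509), (nat_lit 23968959), (nat_lit 17897616), (nat_lit 12073119)] (nat_lit 20024807)) p15_29_0 (nat_lit 4) (nat_lit 293) (nat_lit 294) = true := by decide +kernel
def p15_29_0_294 : pfC (piC [(nat_lit 35755509), (nat_lit 23968959), (nat_lit 17897616), (nat_lit 12073119)] (nat_lit 20024807)) p15_29_0 (nat_lit 4) (nat_lit 294) (nat_lit 295) = true := by decide +kernel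
def p15_29_0_295 : pfC (piC [(nat_lit 35755509), (nat_lit 23968959), (nat_lit 17897616), (nat_lit 12073119)] (nat_lit 20024807)) p15_29_0 (nat_lit 4) (nat_lit 295) (nat_lit 296) = true := by decide +kernel
def p15_29_0_296 : pfC (piC [(nat_lit 35755509), (nat_lit 23968959), (nat_lit 17897616), (nat_lit 12073119)] (nat_lit 20024807)) p15_29_0 (nat_lit 4) (nat_lit 296) (nat_lit 297) = true := by decide +kernel
def p15_29_0_297 : pfC (piC [(nat_lit 35755509), (nat_lit 23968959), (nat_lit 17897616), (nat_lit 12073119)] (nat_lit 20024807)) p15_29_0 (nat_lit 4) (nat_lit 297) (nat_lit 298) = true := by decide +kernel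
def p15_29_0_298 : pfC (piC [(nat_lit 35755509), (nat_lit 23968959), (nat_lit 17897616), (nat_lit 12073119)] (nat_lit 20024807)) p15_29_0 (nat_lit 4) (nat_lit 298) (nat_lit 299) = true := by decide +kernel
def p15_29_0_299 : pfC (piC [(nat_lit 35755509), (nat_lit 23968959), (nat_lit 17897616), (nat_lit 12073119)] (nat_lit 20024807)) p15_29_0 (nat_lit 4) (nat_lit 299) (nat_lit 300) = true := by decide +kernel
def p15_29_0_300 : pfC (piC [(nat_lit 35755509), (nat_lit 23968959), (nat_lit 17897616), (nat_lit 12073119)] (nat_lit 20024807)) p15_29_0 (nat_lit 4) (nat_lit 300) (nat_lit 301) = true := by decide +kernel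
def p15_29_0_301 : pfC (piC [(nat_lit 35755509), (nat_lit 23968959), (nat_lit 17897616), (nat_lit 12073119)] (nat_lit 20024807)) p15_29_0 (nat_lit 4) (nat_lit 301) (nat_lit 302) = true := by decide +kernel
def p15_29_0_302 : pfC (piC [(nat_lit 35755509), (nat_lit 23968959), (nat_lit 17897616), (nat_lit 12073119)] (nat_lit 20024807)) p15_29_0 (nat_lit 4) (nat_lit 302) (nat_lit 303) = true := by decide +kernel
def p15_29_0_303 : pfC (piC [(nat_lit 35755509), (nat_lit 23968959), (nat_lit 17897616), (nat_lit 12073119)] (nat_lit 20024807)) p15_29_0 (nat_lit 4) (nat_lit 303) (nat_lit 304) = true := by decide +kernel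
def p15_29_0_304 : pfC (piC [(nat_lit 35755509), (nat_lit 23968959), (nat_lit 17897616), (nat_lit 12073119)] (nat_lit 20024807)) p15_29_0 (nat_lit 4) (nat_lit 304) (nat_lit 305) = true := by decide +kernel
def p15_29_0_305 : pfC (piC [(nat_lit 35755509), (nat_lit 23968959), (nat_lit 17897616), (nat_lit 12073119)] (nat_lit 20024807)) p15_29_0 (nat_lit 4) (nat_lit 305) (nat_lit 306) = true := by decide +kernel
def p15_29_0_306 : pfC (piC [(nat_lit 35755509), (nat_lit 23968959), (nat_lit 17897616), (nat_lit 12073119)] (nat_lit 20024807)) p15_29_0 (nat_lit 4) (nat_lit 306) (nat_lit 307) = true := by decide +kernel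
def p15_29_0_307 : pfC (piC [(nat_lit 35755509), (nat_lit 23968959), (nat_lit 17897616), (nat_lit 12073119)] (nat_lit 20024807)) p15_29_0 (nat_lit 4) (nat_lit 307) (nat_lit 308) = true := by decide +kernel
def p15_29_0_308 : pfC (piC [(nat_lit 35755509), (nat_lit 23968959), (nat_lit 17897616), (nat_lit 12073119)] (nat_lit 20024807)) p15_29_0 (nat_lit 4) (nat_lit 308) (nat_lit 309) = true := by decide +kernel
def p15_29_0_309 : pfC (piC [(nat_lit 35755509), (nat_lit 23968959), (nat_lit 17897616), (nat_lit 12073119)] (nat_lit 20024807)) p15_29_0 (nat_lit 4) (nat_lit 309) (nat_lit 310) = true := by decide +kernel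
def p15_29_0_310 : pfC (piC [(nat_lit 35755509), (nat_lit 23968959), (nat_lit 17897616), (nat_lit 12073119)] (nat_lit 20024807)) p15_29_0 (nat_lit 4) (nat_lit 310) (nat_lit 311) = true := by decide +kernel
def p15_29_0_311 : pfC (piC [(nat_lit 35755509), (nat_lit 23968959), (nat_lit 17897616), (nat_lit 12073119)] (nat_lit 20024807)) p15_29_0 (nat_lit 4) (nat_lit 311) (nat_lit 312) = true := by decide +kernel
def p15_29_0_312 : pfC (piC [(nat_lit 35755509), (nat_lit 23968959), (nat_lit 17897616), (nat_lit 12073119)] (nat_lit 20024807)) p15_29_0 (nat_lit 4) (nat_lit 312) (nat_lit 313) = true := by decide +kernel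
def p15_29_0_313 : pfC (piC [(nat_lit 35755509), (nat_lit 23968959), (nat_lit 17897616), (nat_lit 12073119)] (nat_lit 20024807)) p15_29_0 (nat_lit 4) (nat_lit 313) (nat_lit 314) = true := by decide +kernel
def p15_29_0_314 : pfC (piC [(nat_lit 35755509), (nat_lit 23968959), (nat_lit 17897616), (nat_lit 12073119)] (nat_lit 20024807)) p15_29_0 (nat_lit 4) (nat_lit 314) (nat_lit 315) = true := by decide +kernel
def p15_29_0_315 : pfC (piC [(nat_lit 35755509), (nat_lit 23968959), (nat_lit 17897616), (nat_lit 12073119)] (nat_lit 20024807)) p15_29_0 (nat_lit 4) (nat_lit 315) (nat_lit 316) = true := by decide +kernel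
def p15_29_0_316 : pfC (piC [(nat_lit 35755509), (nat_lit 23968959), (nat_lit 17897616), (nat_lit 12073119)] (nat_lit 20024807)) p15_29_0 (nat_lit 4) (nat_lit 316) (nat_lit 317) = true := by decide +kernel
def p15_29_0_317 : pfC (piC [(nat_lit 35755509), (nat_lit 23968959), (nat_lit 17897616), (nat_lit 12073119)] (nat_lit 20024807)) p15_29_0 (nat_lit 4) (nat_lit 317) (nat_lit 318) = true := by decide +kernel
def p15_29_0_318 : pfC (piC [(nat_lit 35755509), (nat_lit 23968959), (nat_lit 17897616), (nat_lit 12073119)] (nat_lit 20024807)) p15_29_0 (nat_lit 4) (nat_lit 318) (nat_lit 319) = true := by decide +kernel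
def p15_29_0_319 : pfC (piC [(nat_lit 35755509), (nat_lit 23968959), (nat_lit 17897616), (nat_lit 12073119)] (nat_lit 20024807)) p15_29_0 (nat_lit 4) (nat_lit 319) (nat_lit 320) = true := by decide +kernel
def p15_29_0_320 : pfC (piC [(nat_lit 35755509), (nat_lit 23968959), (nat_lit 17897616), (nat_lit 12073119)] (nat_lit 20024807)) p15_29_0 (nat_lit 4) (nat_lit 320) (nat_lit 321) = true := by decide +kernel
def p15_29_0_321 : pfC (piC [(nat_lit 35755509), (nat_lit 23968959), (nat_lit 17897616), (nat_lit 12073119)] (nat_lit 20024807)) p15_29_0 (nat_lit 4) (nat_lit 321) (nat_lit 322) = true := by decide +kernel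
def p15_29_0_322 : pfC (piC [(nat_lit 35755509), (nat_lit 23968959), (nat_lit 17897616), (nat_lit 12073119)] (nat_lit 20024807)) p15_29_0 (nat_lit 4) (nat_lit 322) (nat_lit 323) = true := by decide +kernel
def p15_29_0_323 : pfC (piC [(nat_lit 35755509), (nat_lit 23968959), (nat_lit 17897616), (nat_lit 12073119)] (nat_lit 20024807)) p15_29_0 (nat_lit 4) (nat_lit 323) (nat_lit 324) = true := by decide +kernel
def p15_29_0_324 : pfC (piC [(nat_lit 35755509), (nat_lit 23968959), (nat_lit 17897616), (nat_lit 12073119)] (nat_lit 20024807)) p15_29_0 (nat_lit 4) (nat_lit 324) (nat_lit 325) = true := by decide +kernel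
def p15_29_0_325 : pfC (piC [(nat_lit 35755509), (nat_lit 23968959), (nat_lit 17897616), (nat_lit 12073119)] (nat_lit 20024807)) p15_29_0 (nat_lit 4) (nat_lit 325) (nat_lit 326) = true := by decide +kernel
def p15_29_0_326 : pfC (piC [(nat_lit 35755509), (nat_lit 23968959), (nat_lit 17897616), (nat_lit 12073119)] (nat_lit 20024807)) p15_29_0 (nat_lit 4) (nat_lit 326) (nat_lit 327) = true := by decide +kernel
def p15_29_0_327 : pfC (piC [(nat_lit 35755509), (nat_lit 23968959), (nat_lit 17897616), (nat_lit 12073119)] (nat_lit 20024807)) p15_29_0 (nat_lit 4) (nat_lit 327) (nat_lit 328) = true := by decide +kernel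
def p15_29_0_328 : pfC (piC [(nat_lit 35755509), (nat_lit 23968959), (nat_lit 17897616), (nat_lit 12073119)] (nat_lit 20024807)) p15_29_0 (nat_lit 4) (nat_lit 328) (nat_lit 329) = true := by decide +kernel
def p15_29_0_329 : pfC (piC [(nat_lit 35755509), (nat_lit 23968959), (nat_lit 17897616), (nat_lit 12073119)] (nat_lit 20024807)) p15_29_0 (nat_lit 4) (nat_lit 329) (nat_lit 330) = true := by decide +kernel
def p15_29_0_330 : pfC (piC [(nat_lit 35755509), (nat_lit 23968959), (nat_lit 17897616), (nat_lit 12073119)] (nat_lit 20024807)) p15_29_0 (nat_lit 4) (nat_lit 330) (nat_lit 331) = true := by decide +kernel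
def p15_29_0_331 : pfC (piC [(nat_lit 35755509), (nat_lit 23968959), (nat_lit 17897616), (nat_lit 12073119)] (nat_lit 20024807)) p15_29_0 (nat_lit 4) (nat_lit 331) (nat_lit 332) = true := by decide +kernel
def p15_29_0_332 : pfC (piC [(nat_lit 35755509), (nat_lit 23968959), (nat_lit 17897616), (nat_lit 12073119)] (nat_lit 20024807)) p15_29_0 (nat_lit 4) (nat_lit 332) (nat_lit 333) = true := by decide +kernel
def p15_29_0_333 : pfC (piC [(nat_lit 35755509), (nat_lit 23968959), (nat_lit 17897616), (nat_lit 12073119)] (nat_lit 20024807)) p15_29_0 (nat_lit 4) (nat_lit 333) (nat_lit 334) = true := by decide +kernel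
def p15_29_0_334 : pfC (piC [(nat_lit 35755509), (nat_lit 23968959), (nat_lit 17897616), (nat_lit 12073119)] (nat_lit 20024807)) p15_29_0 (nat_lit 4) (nat_lit 334) (nat_lit 335) = true := by decide +kernel
def p15_29_0_335 : pfC (piC [(nat_lit 35755509), (nat_lit 23968959), (nat_lit 17897616), (nat_lit 12073119)] (nat_lit 20024807)) p15_29_0 (nat_lit 4) (nat_lit 335) (nat_lit 336) = true := by decide +kernel
def p15_29_0_336 : pfC (piC [(nat_lit 35755509), (nat_lit 23968959), (nat_lit 17897616), (nat_lit 12073119)] (nat_lit 20024807)) p15_29_0 (nat_lit 4) (nat_lit 336) (nat_lit 337) = true := by decide +kernel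
def p15_29_0_337 : pfC (piC [(nat_lit 35755509), (nat_lit 23968959), (nat_lit 17897616), (nat_lit 12073119)] (nat_lit 20024807)) p15_29_0 (nat_lit 4) (nat_lit 337) (nat_lit 338) = true := by decide +kernel
def p15_29_0_338 : pfC (piC [(nat_lit 35755509), (nat_lit 23968959), (nat_lit 17897616), (nat_lit 12073119)] (nat_lit 20024807)) p15_29_0 (nat_lit 4) (nat_lit 338) (nat_lit 339) = true := by decide +kernel
def p15_29_0_339 : pfC (piC [(nat_lit 35755509), (nat_lit 23968959), (nat_lit 17897616), (nat_lit 12073119)] (nat_lit 20024807)) p15_29_0 (nat_lit 4) (nat_lit 339) (nat_lit 340) = true := by decide +kernel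
def p15_29_0_340 : pfC (piC [(nat_lit 35755509), (nat_lit 23968959), (nat_lit 17897616), (nat_lit 12073119)] (nat_lit 20024807)) p15_29_0 (nat_lit 4) (nat_lit 340) (nat_lit 341) = true := by decide +kernel
def p15_29_0_341 : pfC (piC [(nat_lit 35755509), (nat_lit 23968959), (nat_lit 17897616), (nat_lit 12073119)] (nat_lit 20024807)) p15_29_0 (nat_lit 4) (nat_lit 341) (nat_lit 342) = true := by decide +kernel
def p15_29_0_342 : pfC (piC [(nat_lit 35755509), (nat_lit 23968959), (nat_lit 17897616), (nat_lit 12073119)] (nat_lit 20024807)) p15_29_0 (nat_lit 4) (nat_lit 342) (nat_lit 343) = true := by decide +kernel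
def p15_29_0_343 : pfC (piC [(nat_lit 35755509), (nat_lit 23968959), (nat_lit 17897616), (nat_lit 12073119)] (nat_lit 20024807)) p15_29_0 (nat_lit 4) (nat_lit 343) (nat_lit 344) = true := by decide +kernel
def p15_29_0_344 : pfC (piC [(nat_lit 35755509), (nat_lit 23968959), (nat_lit 17897616), (nat_lit 12073119)] (nat_lit 20024807)) p15_29_0 (nat_lit 4) (nat_lit 344) (nat_lit 345) = true := by decide +kernel
def p15_29_0_345 : pfC (piC [(nat_lit 35755509), (nat_lit 23968959), (nat_lit 17897616), (nat_lit 12073119)] (nat_lit 20024807)) p15_29_0 (nat_lit 4) (nat_lit 345) (nat_lit 346) = true := by decide +kernel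
def p15_29_0_346 : pfC (piC [(nat_lit 35755509), (nat_lit 23968959), (nat_lit 17897616), (nat_lit 12073119)] (nat_lit 20024807)) p15_29_0 (nat_lit 4) (nat_lit 346) (nat_lit 347) = true := by decide +kernel
def p15_29_0_347 : pfC (piC [(nat_lit 35755509), (nat_lit 23968959), (nat_lit 17897616), (nat_lit 12073119)] (nat_lit 20024807)) p15_29_0 (nat_lit 4) (nat_lit 347) (nat_lit 348) = true := by decide +kernel
def p15_29_0_348 : pfC (piC [(nat_lit 35755509), (nat_lit 23968959), (nat_lit 17897616), (nat_lit 12073119)] (nat_lit 20024807)) p15_29_0 (nat_lit 4) (nat_lit 348) (nat_lit 349) = true := by decide +kernel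
def p15_29_0_349 : pfC (piC [(nat_lit 35755509), (nat_lit 23968959), (nat_lit 17897616), (nat_lit 12073119)] (nat_lit 20024807)) p15_29_0 (nat_lit 4) (nat_lit 349) (nat_lit 350) = true := by decide +kernel
def p15_29_0_350 : pfC (piC [(nat_lit 35755509), (nat_lit 23968959), (nat_lit 17897616), (nat_lit 12073119)] (nat_lit 20024807)) p15_29_0 (nat_lit 4) (nat_lit 350) (nat_lit 351) = true := by decide +kernel
def p15_29_0_351 : pfC (piC [(nat_lit 35755509), (nat_lit 23968959), (nat_lit 17897616), (nat_lit 12073119)] (nat_lit 20024807)) p15_29_0 (nat_lit 4) (nat_lit 351) (nat_lit 352) = true := by decide +kernel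
def p15_29_0_352 : pfC (piC [(nat_lit 35755509), (nat_lit 23968959), (nat_lit 17897616), (nat_lit 12073119)] (nat_lit 20024807)) p15_29_0 (nat_lit 4) (nat_lit 352) (nat_lit 353) = true := by decide +kernel
def p15_29_0_353 : pfC (piC [(nat_lit 35755509), (nat_lit 23968959), (nat_lit 17897616), (nat_lit 12073119)] (nat_lit 20024807)) p15_29_0 (nat_lit 4) (nat_lit 353) (nat_lit 354) = true := by decide +kernel
def p15_29_0_354 : pfC (piC [(nat_lit 35755509), (nat_lit 23968959), (nat_lit 17897616), (nat_lit 12073119)] (nat_lit 20024807)) p15_29_0 (nat_lit 4) (nat_lit 354) (nat_lit 355) = true := by decide +kernel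
def p15_29_0_355 : pfC (piC [(nat_lit 35755509), (nat_lit 23968959), (nat_lit 17897616), (nat_lit 12073119)] (nat_lit 20024807)) p15_29_0 (nat_lit 4) (nat_lit 355) (nat_lit 356) = true := by decide +kernel
def p15_29_0_356 : pfC (piC [(nat_lit 35755509), (nat_lit 23968959), (nat_lit 17897616), (nat_lit 12073119)] (nat_lit 20024807)) p15_29_0 (nat_lit 4) (nat_lit 356) (nat_lit 357) = true := by decide +kernel
def p15_29_0_357 : pfC (piC [(nat_lit 35755509), (nat_lit 23968959), (nat_lit 17897616), (nat_lit 12073119)] (nat_lit 20024807)) p15_29_0 (nat_lit 4) (nat_lit 357) (nat_lit 358) = true := by decide +kernel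
def p15_29_0_358 : pfC (piC [(nat_lit 35755509), (nat_lit 23968959), (nat_lit 17897616), (nat_lit 12073119)] (nat_lit 20024807)) p15_29_0 (nat_lit 4) (nat_lit 358) (nat_lit 359) = true := by decide +kernel
def p15_29_0_359 : pfC (piC [(nat_lit 35755509), (nat_lit 23968959), (nat_lit 17897616), (nat_lit 12073119)] (nat_lit 20024807)) p15_29_0 (nat_lit 4) (nat_lit 359) (nat_lit 360) = true := by decide +kernel
def p15_29_0_360 : pfC (piC [(nat_lit 35755509), (nat_lit 23968959), (nat_lit 17897616), (nat_lit 12073119)] (nat_lit 20024807)) p15_29_0 (nat_lit 4) (nat_lit 360) (nat_lit 361) = true := by decide +kernel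
def p15_29_0_361 : pfC (piC [(nat_lit 35755509), (nat_lit 23968959), (nat_lit 17897616), (nat_lit 12073119)] (nat_lit 20024807)) p15_29_0 (nat_lit 4) (nat_lit 361) (nat_lit 362) = true := by decide +kernel
def p15_29_0_362 : pfC (piC [(nat_lit 35755509), (nat_lit 23968959), (nat_lit 17897616), (nat_lit 12073119)] (nat_lit 20024807)) p15_29_0 (nat_lit 4) (nat_lit 362) (nat_lit 363) = true := by decide +kernel
def p15_29_0_363 : pfC (piC [(nat_lit 35755509), (nat_lit 23968959), (nat_lit 17897616), (nat_lit 12073119)] (nat_lit 20024807)) p15_29_0 (nat_lit 4) (nat_lit 363) (nat_lit 364) = true := by decide +kernel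
def p15_29_0_364 : pfC (piC [(nat_lit 35755509), (nat_lit 23968959), (nat_lit 17897616), (nat_lit 12073119)] (nat_lit 20024807)) p15_29_0 (nat_lit 4) (nat_lit 364) (nat_lit 365) = true := by decide +kernel
def p15_29_0_365 : pfC (piC [(nat_lit 35755509), (nat_lit 23968959), (nat_lit 17897616), (nat_lit 12073119)] (nat_lit 20024807)) p15_29_0 (nat_lit 4) (nat_lit 365) (nat_lit 366) = true := by decide +kernel
def p15_29_0_366 : pfC (piC [(nat_lit 35755509), (nat_lit 23968959), (nat_lit 17897616), (nat_lit 12073119)] (nat_lit 20024807)) p15_29_0 (nat_lit 4) (nat_lit 366) (nat_lit 367) = true := by decide +kernel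
def p15_29_0_367 : pfC (piC [(nat_lit 35755509), (nat_lit 23968959), (nat_lit 17897616), (nat_lit 12073119)] (nat_lit 20024807)) p15_29_0 (nat_lit 4) (nat_lit 367) (nat_lit 368) = true := by decide +kernel
def p15_29_0_368 : pfC (piC [(nat_lit 35755509), (nat_lit 23968959), (nat_lit 17897616), (nat_lit 12073119)] (nat_lit 20024807)) p15_29_0 (nat_lit 4) (nat_lit 368) (nat_lit 369) = true := by decide +kernel
def p15_29_0_369 : pfC (piC [(nat_lit 35755509), (nat_lit 23968959), (nat_lit 17897616), (nat_lit 12073119)] (nat_lit 20024807)) p15_29_0 (nat_lit 4) (nat_lit 369) (nat_lit 370) = true := by decide +kernel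
def p15_29_0_370 : pfC (piC [(nat_lit 35755509), (nat_lit 23968959), (nat_lit 17897616), (nat_lit 12073119)] (nat_lit 20024807)) p15_29_0 (nat_lit 4) (nat_lit 370) (nat_lit 371) = true := by decide +kernel
def p15_29_0_371 : pfC (piC [(nat_lit 35755509), (nat_lit 23968959), (nat_lit 17897616), (nat_lit 12073119)] (nat_lit 20024807)) p15_29_0 (nat_lit 4) (nat_lit 371) (nat_lit 372) = true := by decide +kernel
def p15_29_0_372 : pfC (piC [(nat_lit 35755509), (nat_lit 23968959), (nat_lit 17897616), (nat_lit 12073119)] (nat_lit 20024807)) p15_29_0 (nat_lit 4) (nat_lit 372) (nat_lit 373) = true := by decide +kernel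
def p15_29_0_373 : pfC (piC [(nat_lit 35755509), (nat_lit 23968959), (nat_lit 17897616), (nat_lit 12073119)] (nat_lit 20024807)) p15_29_0 (nat_lit 4) (nat_lit 373) (nat_lit 374) = true := by decide +kernel
def p15_29_0_374 : pfC (piC [(nat_lit 35755509), (nat_lit 23968959), (nat_lit 17897616), (nat_lit 12073119)] (nat_lit 20024807)) p15_29_0 (nat_lit 4) (nat_lit 374) (nat_lit 375) = true := by decide +kernel
def p15_29_0_375 : pfC (piC [(nat_lit 35755509), (nat_lit 23968959), (nat_lit 17897616), (nat_lit 12073119)] (nat_lit 20024807)) p15_29_0 (nat_lit 4) (nat_lit 375) (nat_lit 376) = true := by decide +kernel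
def p15_29_0_376 : pfC (piC [(nat_lit 35755509), (nat_lit 23968959), (nat_lit 17897616), (nat_lit 12073119)] (nat_lit 20024807)) p15_29_0 (nat_lit 4) (nat_lit 376) (nat_lit 377) = true := by decide +kernel
def p15_29_0_377 : pfC (piC [(nat_lit 35755509), (nat_lit 23968959), (nat_lit 17897616), (nat_lit 12073119)] (nat_lit 20024807)) p15_29_0 (nat_lit 4) (nat_lit 377) (nat_lit 378) = true := by decide +kernel
def p15_29_0_378 : pfC (piC [(nat_lit 35755509), (nat_lit 23968959), (nat_lit 17897616), (nat_lit 12073119)] (nat_lit 20024807)) p15_29_0 (nat_lit 4) (nat_lit 378) (nat_lit 379) = true := by decide +kernel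
def p15_29_0_379 : pfC (piC [(nat_lit 35755509), (nat_lit 23968959), (nat_lit 17897616), (nat_lit 12073119)] (nat_lit 20024807)) p15_29_0 (nat_lit 4) (nat_lit 379) (nat_lit 380) = true := by decide +kernel
def p15_29_0_380 : pfC (piC [(nat_lit 35755509), (nat_lit 23968959), (nat_lit 17897616), (nat_lit 12073119)] (nat_lit 20024807)) p15_29_0 (nat_lit 4) (nat_lit 380) (nat_lit 381) = true := by decide +kernel
def p15_29_0_381 : pfC (piC [(nat_lit 35755509), (nat_lit 23968959), (nat_lit 17897616), (nat_lit 12073119)] (nat_lit 20024807)) p15_29_0 (nat_lit 4) (nat_lit 381) (nat_lit 382) = true := by decide +kernel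
def p15_29_0_382 : pfC (piC [(nat_lit 35755509), (nat_lit 23968959), (nat_lit 17897616), (nat_lit 12073119)] (nat_lit 20024807)) p15_29_0 (nat_lit 4) (nat_lit 382) (nat_lit 383) = true := by decide +kernel
def p15_29_0_383 : pfC (piC [(nat_lit 35755509), (nat_lit 23968959), (nat_lit 17897616), (nat_lit 12073119)] (nat_lit 20024807)) p15_29_0 (nat_lit 4) (nat_lit 383) (nat_lit 384) = true := by decide +kernel
def p15_29_0_384 : pfC (piC [(nat_lit 35755509), (nat_lit 23968959), (nat_lit 17897616), (nat_lit 12073119)] (nat_lit 20024807)) p15_29_0 (nat_lit 4) (nat_lit 384) (nat_lit 385) = true := by decide +kernel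
def p15_29_0_385 : pfC (piC [(nat_lit 35755509), (nat_lit 23968959), (nat_lit 17897616), (nat_lit 12073119)] (nat_lit 20024807)) p15_29_0 (nat_lit 4) (nat_lit 385) (nat_lit 386) = true := by decide +kernel
def p15_29_0_386 : pfC (piC [(nat_lit 35755509), (nat_lit 23968959), (nat_lit 17897616), (nat_lit 12073119)] (nat_lit 20024807)) p15_29_0 (nat_lit 4) (nat_lit 386) (nat_lit 387) = true := by decide +kernel
def p15_29_0_387 : pfC (piC [(nat_lit 35755509), (nat_lit 23968959), (nat_lit 17897616), (nat_lit 12073119)] (nat_lit 20024807)) p15_29_0 (nat_lit 4) (nat_lit 387) (nat_lit 388) = true := by decide +kernel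
def p15_29_0_388 : pfC (piC [(nat_lit 35755509), (nat_lit 23968959), (nat_lit 17897616), (nat_lit 12073119)] (nat_lit 20024807)) p15_29_0 (nat_lit 4) (nat_lit 388) (nat_lit 389) = true := by decide +kernel
theorem p15_29_0_T : PfS (PiF n15_29.reverse (nat_lit 20024807)) p15_29_0 (nat_lit 4) [] 0 :=
  pftab_of (los := [(nat_lit 35755509), (nat_lit 23968959), (nat_lit 17897616), (nat_lit 12073119)]) (by decide +kernel) (hi := (nat_lit 389)) (PfP.trans (PfP.trans (PfP.trans (PfP.trans (PfP.trans (PfP.trans (PfP.trans (PfP.trans (PfP.trans (PfP.trans (PfP.trans (PfP.trans (PfP.trans (PfP.trans (PfP.trans (PfP.trans (PfP.trans (PfP.trans (PfP.trans (PfP.trans (PfP.trans (PfP.trans (PfP.trans (PfP.trans (PfP.trans (PfP.trans (PfP.trans (PfP.trans (PfP.trans (PfP.trans (PfP.trans (PfP.trans (PfP.trans (PfP.trans (PfP.trans (PfP.trans (PfP.trans (PfP.trans (PfP.trans (PfP.trans (PfP.trans (PfP.trans (PfP.trans (PfP.trans (PfP.trans (PfP.trans (PfP.trans (PfP.trans (PfP.trans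 (PfP.trans (PfP.trans (PfP.trans (PfP.trans (PfP.trans (PfP.trans (PfP.trans (PfP.trans (PfP.trans (PfP.trans (PfP.trans (PfP.trans (PfP.trans (PfP.trans (PfP.trans (PfP.trans (PfP.trans (PfP.trans (PfP.trans (PfP.trans (PfP.trans (PfP.trans (PfP.trans (PfP.trans (PfP.trans (PfP.trans (PfP.trans (PfP.trans (PfP.trans (PfP.trans (PfP.trans (PfP.trans (PfP.trans (PfP.trans (PfP.trans (PfP.trans (PfP.trans (PfP.trans (PfP.trans (PfP.trans (PfP.trans (PfP.trans (PfP.trans (PfP.trans (PfP.trans (PfP.trans (PfP.trans (PfP.trans (PfP.trans (PfP.trans (PfP.trans (PfP.trans (PfP.trans (PfP.trans (PfP.trans (PfP.trans (PfP.trans (PfP.trans (PfP.trans (PfP.trans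
 (PfP.trans (PfP.trans (PfP.trans (PfP.trans (PfP.trans (PfP.trans (PfP.trans (PfP.trans (PfP.trans (PfP.trans (PfP.trans (PfP.trans (PfP.trans (PfP.trans (PfP.trans (PfP.trans (PfP.trans (PfP.trans (PfP.trans (PfP.trans (PfP.trans (PfP.trans (PfP.trans (PfP.trans (PfP.trans (PfP.trans (PfP.trans (PfP.trans (PfP.trans (PfP.trans (PfP.trans (PfP.trans (PfP.trans (PfP.trans (PfP.trans (PfP.trans (PfP.trans (PfP.trans (PfP.trans (PfP.trans (PfP.trans (PfP.trans (PfP.trans (PfP.trans (PfP.trans (PfP.trans (PfP.trans (PfP.trans (PfP.trans (PfP.trans (PfP.trans (PfP.trans (PfP.trans (PfP.trans (PfP.trans (PfP.trans (PfP.trans (PfP.trans (PfP.trans (PfP.trans (PfP.trans (PfP.trans (PfP.trans (PfP.trans (PfP.trans (PfP.trans (PfP.trans (PfP.trans (PfP.trans (PfP.trans (PfP.trans (PfP.trans (PfP.trans (PfP.trans (PfP.trans (PfP.trans (PfP.trans (PfP.trans (PfP.trans (PfP.trans (PfP.trans (PfP.trans (PfP.trans (PfP.trans (PfP.trans (PfP.trans (PfP.trans (PfP.trans (PfP.trans (PfP.trans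 (PfP.trans (PfP.trans (PfP.trans (PfP.trans (PfP.trans (PfP.trans (PfP.trans (PfP.trans (PfP.trans (PfP.trans (PfP.trans (PfP.trans (PfP.trans (PfP.trans (PfP.trans (PfP.trans (PfP.trans (PfP.trans (PfP.trans
 (PfP.trans (PfP.trans (PfP.trans (PfP.trans (PfP.trans (PfP.trans (PfP.trans (PfP.trans (PfP.trans (PfP.trans (PfP.trans (PfP.trans (PfP.trans (PfP.trans (PfP.trans (PfP.trans (PfP.trans (PfP.trans (PfP.trans (PfP.trans (PfP.trans (PfP.trans (PfP.trans (PfP.trans (PfP.trans (PfP.trans (PfP.trans (PfP.trans (PfP.trans (PfP.trans (PfP.trans (PfP.trans (PfP.trans (PfP.trans (PfP.trans (PfP.trans (PfP.trans (PfP.trans (PfP.trans (PfP.trans (PfP.trans (PfP.trans (PfP.trans (PfP.trans (PfP.trans (PfP.trans (PfP.trans (PfP.trans (PfP.trans (PfP.trans (PfP.trans (PfP.trans (PfP.trans (PfP.trans (PfP.trans (PfP.trans (PfP.trans (PfP.trans (PfP.trans (PfP.trans (PfP.trans (PfP.trans (PfP.trans (PfP.trans (PfP.trans (PfP.trans (PfP.trans (PfP.trans (PfP.trans (PfP.trans (PfP.trans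 (PfP.trans (PfP.trans (PfP.trans (PfP.trans (PfP.trans (PfP.trans (PfP.trans (PfP.trans (PfP.trans (PfP.trans (PfP.trans (PfP.trans (PfP.trans (PfP.trans (PfP.trans (PfP.trans (PfP.trans (PfP.trans (PfP.trans (PfP.trans (PfP.trans (PfP.trans (PfP.trans (PfP.trans (PfP.trans (PfP.trans (PfP.trans (PfP.trans (PfP.trans (PfP.trans (PfP.trans (PfP.trans (PfP.trans (PfP.trans (PfP.trans (PfP.trans (PfP.trans (PfP.trans
 (PfP.trans (PfP.trans (PfP.trans (PfP.trans (PfP.trans (PfP.trans (PfP.trans (PfP.trans (PfP.trans (PfP.trans (PfP.trans (PfP.trans (PfP.trans (PfP.trans (PfP.trans (PfP.trans (PfP.trans (PfP.trans (PfP.trans (PfP.trans (PfP.trans (PfP.trans (PfP.trans (PfP.trans (PfP.trans (PfP.trans (PfP.trans (PfP.trans (PfP.trans (PfP.trans (PfP.trans (PfP.trans (PfP.trans (PfP.trans (PfP.trans (PfP.trans (PfP.trans (PfP.trans (PfP.trans (PfP.trans (PfP.trans (PfP.trans (PfP.trans (PfP.trans (PfP.trans (PfP.trans (PfP.trans (PfP.trans (PfP.trans (PfP.trans (PfP.trans (PfP.trans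 (PfP.trans (PfP.trans (PfP.trans (PfP.trans (PfP.trans (PfP.trans (PfP.trans (PfP.trans (PfP.trans (pfC_sound p15_29_0_0) (pfC_sound p15_29_0_1)) (pfC_sound p15_29_0_2)) (pfC_sound p15_29_0_3)) (pfC_sound p15_29_0_4)) (pfC_sound p15_29_0_5)) (pfC_sound p15_29_0_6)) (pfC_sound p15_29_0_7)) (pfC_sound p15_29_0_8)) (pfC_sound p15_29_0_9)) (pfC_sound p15_29_0_10)) (pfC_sound p15_29_0_11)) (pfC_sound p15_29_0_12)) (pfC_sound p15_29_0_13)) (pfC_sound p15_29_0_14)) (pfC_sound p15_29_0_15)) (pfC_sound p15_29_0_16)) (pfC_sound p15_29_0_17)) (pfC_sound p15_29_0_18)) (pfC_sound p15_29_0_19)) (pfC_sound p15_29_0_20)) (pfC_sound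
 p15_29_0_21)) (pfC_sound p15_29_0_22)) (pfC_sound p15_29_0_23)) (pfC_sound p15_29_0_24)) (pfC_sound p15_29_0_25)) (pfC_sound p15_29_0_26)) (pfC_sound p15_29_0_27)) (pfC_sound p15_29_0_28)) (pfC_sound p15_29_0_29)) (pfC_sound p15_29_0_30)) (pfC_sound p15_29_0_31)) (pfC_sound p15_29_0_32)) (pfC_sound p15_29_0_33)) (pfC_sound p15_29_0_34)) (pfC_sound p15_29_0_35)) (pfC_sound p15_29_0_36)) (pfC_sound p15_29_0_37)) (pfC_sound p15_29_0_38)) (pfC_sound p15_29_0_39)) (pfC_sound p15_29_0_40)) (pfC_sound p15_29_0_41)) (pfC_sound p15_29_0_42)) (pfC_sound p15_29_0_43)) (pfC_sound p15_29_0_44)) (pfC_sound p15_29_0_45)) (pfC_sound p15_29_0_46)) (pfC_sound p15_29_0_47)) (pfC_sound p15_29_0_48)) (pfC_sound p15_29_0_49)) (pfC_sound p15_29_0_50)) (pfC_sound p15_29_0_51)) (pfC_sound p15_29_0_52)) (pfC_sound p15_29_0_53)) (pfC_sound p15_29_0_54)) (pfC_sound p15_29_0_55)) (pfC_sound p15_29_0_56)) (pfC_sound p15_29_0_57)) (pfC_sound p15_29_0_58)) (pfC_sound p15_29_0_59)) (pfC_sound p15_29_0_60))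 (pfC_sound p15_29_0_61)) (pfC_sound p15_29_0_62)) (pfC_sound p15_29_0_63)) (pfC_sound p15_29_0_64)) (pfC_sound p15_29_0_65)) (pfC_sound p15_29_0_66)) (pfC_sound p15_29_0_67)) (pfC_sound p15_29_0_68)) (pfC_sound
 p15_29_0_69)) (pfC_sound p15_29_0_70)) (pfC_sound p15_29_0_71)) (pfC_sound p15_29_0_72)) (pfC_sound p15_29_0_73)) (pfC_sound p15_29_0_74)) (pfC_sound p15_29_0_75)) (pfC_sound p15_29_0_76)) (pfC_sound p15_29_0_77)) (pfC_sound p15_29_0_78)) (pfC_sound p15_29_0_79)) (pfC_sound p15_29_0_80)) (pfC_sound p15_29_0_81)) (pfC_sound p15_29_0_82)) (pfC_sound p15_29_0_83)) (pfC_sound p15_29_0_84)) (pfC_sound p15_29_0_85)) (pfC_sound p15_29_0_86)) (pfC_sound p15_29_0_87)) (pfC_sound p15_29_0_88)) (pfC_sound p15_29_0_89)) (pfC_sound p15_29_0_90)) (pfC_sound p15_29_0_91)) (pfC_sound p15_29_0_92)) (pfC_sound p15_29_0_93)) (pfC_sound p15_29_0_94)) (pfC_sound p15_29_0_95)) (pfC_sound p15_29_0_96)) (pfC_sound p15_29_0_97)) (pfC_sound p15_29_0_98)) (pfC_sound p15_29_0_99)) (pfC_sound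 p15_29_0_100)) (pfC_sound p15_29_0_101)) (pfC_sound p15_29_0_102)) (pfC_sound p15_29_0_103)) (pfC_sound p15_29_0_104)) (pfC_sound p15_29_0_105)) (pfC_sound p15_29_0_106)) (pfC_sound p15_29_0_107)) (pfC_sound p15_29_0_108)) (pfC_sound p15_29_0_109)) (pfC_sound p15_29_0_110)) (pfC_sound p15_29_0_111)) (pfC_sound p15_29_0_112)) (pfC_sound p15_29_0_113)) (pfC_sound p15_29_0_114)) (pfC_sound p15_29_0_115)) (pfC_sound
 p15_29_0_116)) (pfC_sound p15_29_0_117)) (pfC_sound p15_29_0_118)) (pfC_sound p15_29_0_119)) (pfC_sound p15_29_0_120)) (pfC_sound p15_29_0_121)) (pfC_sound p15_29_0_122)) (pfC_sound p15_29_0_123)) (pfC_sound p15_29_0_124)) (pfC_sound p15_29_0_125)) (pfC_sound p15_29_0_126)) (pfC_sound p15_29_0_127)) (pfC_sound p15_29_0_128)) (pfC_sound p15_29_0_129)) (pfC_sound p15_29_0_130)) (pfC_sound p15_29_0_131)) (pfC_sound p15_29_0_132)) (pfC_sound p15_29_0_133)) (pfC_sound p15_29_0_134)) (pfC_sound p15_29_0_135)) (pfC_sound p15_29_0_136)) (pfC_sound p15_29_0_137)) (pfC_sound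 p15_29_0_138)) (pfC_sound p15_29_0_139)) (pfC_sound p15_29_0_140)) (pfC_sound p15_29_0_141)) (pfC_sound p15_29_0_142)) (pfC_sound p15_29_0_143)) (pfC_sound p15_29_0_144)) (pfC_sound p15_29_0_145)) (pfC_sound p15_29_0_146)) (pfC_sound p15_29_0_147)) (pfC_sound p15_29_0_148)) (pfC_sound p15_29_0_149)) (pfC_sound p15_29_0_150)) (pfC_sound p15_29_0_151)) (pfC_sound p15_29_0_152)) (pfC_sound p15_29_0_153)) (pfC_sound p15_29_0_154)) (pfC_sound p15_29_0_155)) (pfC_sound p15_29_0_156)) (pfC_sound p15_29_0_157)) (pfC_sound p15_29_0_158)) (pfC_sound p15_29_0_159)) (pfC_sound p15_29_0_160)) (pfC_sound p15_29_0_161)) (pfC_sound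
 p15_29_0_162)) (pfC_sound p15_29_0_163)) (pfC_sound p15_29_0_164)) (pfC_sound p15_29_0_165)) (pfC_sound p15_29_0_166)) (pfC_sound p15_29_0_167)) (pfC_sound p15_29_0_168)) (pfC_sound p15_29_0_169)) (pfC_sound p15_29_0_170)) (pfC_sound p15_29_0_171)) (pfC_sound p15_29_0_172)) (pfC_sound p15_29_0_173)) (pfC_sound p15_29_0_174)) (pfC_sound p15_29_0_175)) (pfC_sound p15_29_0_176)) (pfC_sound p15_29_0_177)) (pfC_sound p15_29_0_178)) (pfC_sound p15_29_0_179)) (pfC_sound p15_29_0_180)) (pfC_sound p15_29_0_181)) (pfC_sound p15_29_0_182)) (pfC_sound p15_29_0_183)) (pfC_sound p15_29_0_184)) (pfC_sound p15_29_0_185)) (pfC_sound p15_29_0_186)) (pfC_sound p15_29_0_187)) (pfC_sound p15_29_0_188)) (pfC_sound p15_29_0_189)) (pfC_sound p15_29_0_190)) (pfC_sound p15_29_0_191)) (pfC_sound p15_29_0_192)) (pfC_sound p15_29_0_193)) (pfC_sound p15_29_0_194)) (pfC_sound p15_29_0_195)) (pfC_sound p15_29_0_196)) (pfC_sound p15_29_0_197)) (pfC_sound p15_29_0_198)) (pfC_sound p15_29_0_199)) (pfC_sound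 p15_29_0_200)) (pfC_sound p15_29_0_201)) (pfC_sound p15_29_0_202)) (pfC_sound p15_29_0_203)) (pfC_sound p15_29_0_204)) (pfC_sound p15_29_0_205)) (pfC_sound p15_29_0_206)) (pfC_sound p15_29_0_207)) (pfC_sound
 p15_29_0_208)) (pfC_sound p15_29_0_209)) (pfC_sound p15_29_0_210)) (pfC_sound p15_29_0_211)) (pfC_sound p15_29_0_212)) (pfC_sound p15_29_0_213)) (pfC_sound p15_29_0_214)) (pfC_sound p15_29_0_215)) (pfC_sound p15_29_0_216)) (pfC_sound p15_29_0_217)) (pfC_sound p15_29_0_218)) (pfC_sound p15_29_0_219)) (pfC_sound p15_29_0_220)) (pfC_sound p15_29_0_221)) (pfC_sound p15_29_0_222)) (pfC_sound p15_29_0_223)) (pfC_sound p15_29_0_224)) (pfC_sound p15_29_0_225)) (pfC_sound p15_29_0_226)) (pfC_sound p15_29_0_227)) (pfC_sound p15_29_0_228)) (pfC_sound p15_29_0_229)) (pfC_sound p15_29_0_230)) (pfC_sound p15_29_0_231)) (pfC_sound p15_29_0_232)) (pfC_sound p15_29_0_233)) (pfC_sound p15_29_0_234)) (pfC_sound p15_29_0_235)) (pfC_sound p15_29_0_236)) (pfC_sound p15_29_0_237)) (pfC_sound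 p15_29_0_238)) (pfC_sound p15_29_0_239)) (pfC_sound p15_29_0_240)) (pfC_sound p15_29_0_241)) (pfC_sound p15_29_0_242)) (pfC_sound p15_29_0_243)) (pfC_sound p15_29_0_244)) (pfC_sound p15_29_0_245)) (pfC_sound p15_29_0_246)) (pfC_sound p15_29_0_247)) (pfC_sound p15_29_0_248)) (pfC_sound p15_29_0_249)) (pfC_sound p15_29_0_250)) (pfC_sound p15_29_0_251)) (pfC_sound p15_29_0_252)) (pfC_sound p15_29_0_253)) (pfC_sound
 p15_29_0_254)) (pfC_sound p15_29_0_255)) (pfC_sound p15_29_0_256)) (pfC_sound p15_29_0_257)) (pfC_sound p15_29_0_258)) (pfC_sound p15_29_0_259)) (pfC_sound p15_29_0_260)) (pfC_sound p15_29_0_261)) (pfC_sound p15_29_0_262)) (pfC_sound p15_29_0_263)) (pfC_sound p15_29_0_264)) (pfC_sound p15_29_0_265)) (pfC_sound p15_29_0_266)) (pfC_sound p15_29_0_267)) (pfC_sound p15_29_0_268)) (pfC_sound p15_29_0_269)) (pfC_sound p15_29_0_270)) (pfC_sound p15_29_0_271)) (pfC_sound p15_29_0_272)) (pfC_sound p15_29_0_273)) (pfC_sound p15_29_0_274)) (pfC_sound p15_29_0_275)) (pfC_sound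 p15_29_0_276)) (pfC_sound p15_29_0_277)) (pfC_sound p15_29_0_278)) (pfC_sound p15_29_0_279)) (pfC_sound p15_29_0_280)) (pfC_sound p15_29_0_281)) (pfC_sound p15_29_0_282)) (pfC_sound p15_29_0_283)) (pfC_sound p15_29_0_284)) (pfC_sound p15_29_0_285)) (pfC_sound p15_29_0_286)) (pfC_sound p15_29_0_287)) (pfC_sound p15_29_0_288)) (pfC_sound p15_29_0_289)) (pfC_sound p15_29_0_290)) (pfC_sound p15_29_0_291)) (pfC_sound p15_29_0_292)) (pfC_sound p15_29_0_293)) (pfC_sound p15_29_0_294)) (pfC_sound p15_29_0_295)) (pfC_sound p15_29_0_296)) (pfC_sound p15_29_0_297)) (pfC_sound p15_29_0_298)) (pfC_sound p15_29_0_299)) (pfC_sound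
 p15_29_0_300)) (pfC_sound p15_29_0_301)) (pfC_sound p15_29_0_302)) (pfC_sound p15_29_0_303)) (pfC_sound p15_29_0_304)) (pfC_sound p15_29_0_305)) (pfC_sound p15_29_0_306)) (pfC_sound p15_29_0_307)) (pfC_sound p15_29_0_308)) (pfC_sound p15_29_0_309)) (pfC_sound p15_29_0_310)) (pfC_sound p15_29_0_311)) (pfC_sound p15_29_0_312)) (pfC_sound p15_29_0_313)) (pfC_sound p15_29_0_314)) (pfC_sound p15_29_0_315)) (pfC_sound p15_29_0_316)) (pfC_sound p15_29_0_317)) (pfC_sound p15_29_0_318)) (pfC_sound p15_29_0_319)) (pfC_sound p15_29_0_320)) (pfC_sound p15_29_0_321)) (pfC_sound p15_29_0_322)) (pfC_sound p15_29_0_323)) (pfC_sound p15_29_0_324)) (pfC_sound p15_29_0_325)) (pfC_sound p15_29_0_326)) (pfC_sound p15_29_0_327)) (pfC_sound p15_29_0_328)) (pfC_sound p15_29_0_329)) (pfC_sound p15_29_0_330)) (pfC_sound p15_29_0_331)) (pfC_sound p15_29_0_332)) (pfC_sound p15_29_0_333)) (pfC_sound p15_29_0_334)) (pfC_sound p15_29_0_335)) (pfC_sound p15_29_0_336)) (pfC_sound p15_29_0_337)) (pfC_sound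 p15_29_0_338)) (pfC_sound p15_29_0_339)) (pfC_sound p15_29_0_340)) (pfC_sound p15_29_0_341)) (pfC_sound p15_29_0_342)) (pfC_sound p15_29_0_343)) (pfC_sound p15_29_0_344)) (pfC_sound p15_29_0_345)) (pfC_sound
 p15_29_0_346)) (pfC_sound p15_29_0_347)) (pfC_sound p15_29_0_348)) (pfC_sound p15_29_0_349)) (pfC_sound p15_29_0_350)) (pfC_sound p15_29_0_351)) (pfC_sound p15_29_0_352)) (pfC_sound p15_29_0_353)) (pfC_sound p15_29_0_354)) (pfC_sound p15_29_0_355)) (pfC_sound p15_29_0_356)) (pfC_sound p15_29_0_357)) (pfC_sound p15_29_0_358)) (pfC_sound p15_29_0_359)) (pfC_sound p15_29_0_360)) (pfC_sound p15_29_0_361)) (pfC_sound p15_29_0_362)) (pfC_sound p15_29_0_363)) (pfC_sound p15_29_0_364)) (pfC_sound p15_29_0_365)) (pfC_sound p15_29_0_366)) (pfC_sound p15_29_0_367)) (pfC_sound p15_29_0_368)) (pfC_sound p15_29_0_369)) (pfC_sound p15_29_0_370)) (pfC_sound p15_29_0_371)) (pfC_sound p15_29_0_372)) (pfC_sound p15_29_0_373)) (pfC_sound p15_29_0_374)) (pfC_sound p15_29_0_375)) (pfC_sound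 p15_29_0_376)) (pfC_sound p15_29_0_377)) (pfC_sound p15_29_0_378)) (pfC_sound p15_29_0_379)) (pfC_sound p15_29_0_380)) (pfC_sound p15_29_0_381)) (pfC_sound p15_29_0_382)) (pfC_sound p15_29_0_383)) (pfC_sound p15_29_0_384)) (pfC_sound p15_29_0_385)) (pfC_sound p15_29_0_386)) (pfC_sound p15_29_0_387)) (pfC_sound p15_29_0_388)) (by decide +kernel)

def z15_29_0 : zOK yB15_29 (nat_lit 0) (nat_lit 0) (nat_lit 400) (nat_lit 20024807) (nat_lit 10729447) = true := by decide +kernel
def g15_29_0 : gOK yB15_29.x P15_29 (nat_lit 1402) (q15_29 :: r15_29) (nat_lit 0) (nat_lit 0) (nat_lit 1) (nat_lit 400) (nat_lit 0) (nat_lit 11000000) (nat_lit 12712500) (nat_lit 12712500) [(nat_lit 800), (nat_lit 1600)] = true := by decide +kernel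
def v15_29_0 : ivC P15_29 s15_29 w15_29 n15_29 (nat_lit 4) (nat_lit 5340) (nat_lit 0) (nat_lit 0) f168_1_0 f176_1_0 (nat_lit 1) (nat_lit 400) f168_1_400 f176_1_400 (nat_lit 20024807) (nat_lit 10729447) p15_29_0 = true := by decide +kernel
def p15_29_1 : PF := (PF.cons (PF.cons (PF.cons (PF.cons (PF.leaf (nat_lit 2089757) (nat_lit 9883400) (nat_lit 57225412) (nat_lit 9883400) [(nat_lit 0), (nat_lit 0), (nat_lit 0), (nat_lit 0)]) (PF.cons (PF.leaf (nat_lit 2313214) (nat_lit 403917) (nat_lit 56788928) (nat_lit 9915966) [(nat_lit 403917), (nat_lit 0), (nat_lit 0), (nat_lit 0)]) (PF.cons (PF.leaf (nat_lit 2576331) (nat_lit 439524) (nat_lit 56280065) (nat_lit 9949697) [(nat_lit 439524), (nat_lit 0), (nat_lit 0), (nat_lit 0)]) (PF.cons (PF.leaf (nat_lit 2871584) (nat_lit 471071) (nat_lit 55713370) (nat_lit 9982226) [(nat_lit 471071), (nat_lit 0), (nat_lit 0), (nat_lit 0)]) (PF.cons (PF.leaf (nat_lit 3194027) (nat_lit 499395) (nat_lit 55099395) (nat_lit 10011833) [(nat_lit 499395),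 (nat_lit 0), (nat_lit 0), (nat_lit 0)]) (PF.cons (PF.leaf (nat_lit 3539814) (nat_lit 525020) (nat_lit 54446458) (nat_lit 10037252) [(nat_lit 525020), (nat_lit 0), (nat_lit 0), (nat_lit 0)]) (PF.cons (PF.leaf (nat_lit 3905648) (nat_lit 548300) (nat_lit 53761442) (nat_lit 10057569) [(nat_lit 548300), (nat_lit 0), (nat_lit 0), (nat_lit 0)]) (PF.cons (PF.leaf (nat_lit 4288757) (nat_lit 569490) (nat_lit 53050230) (nat_lit 10072151) [(nat_lit 569490), (nat_lit 0),
 (nat_lit 0), (nat_lit 0)]) (PF.cons (PF.leaf (nat_lit 4686593) (nat_lit 588785) (nat_lit 52317937) (nat_lit 10080588) [(nat_lit 588785), (nat_lit 0), (nat_lit 0), (nat_lit 0)]) (PF.cons (PF.leaf (nat_lit 5096951) (nat_lit 606342) (nat_lit 51569073) (nat_lit 10082654) [(nat_lit 606342), (nat_lit 0), (nat_lit 0), (nat_lit 0)]) (PF.cons PF.nil (PF.cons PF.nil PF.nil)))))))))))) (PF.cons (PF.cons (PF.leaf (nat_lit 2742088) (nat_lit 1557951) (nat_lit 55570284) (nat_lit 9980576) [(nat_lit 0), (nat_lit 1557951), (nat_lit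 0), (nat_lit 0)]) (PF.cons (PF.leaf (nat_lit 3026105) (nat_lit 480367) (nat_lit 55017709) (nat_lit 10006328) [(nat_lit 480367), (nat_lit 1604407), (nat_lit 0), (nat_lit 0)]) (PF.cons (PF.leaf (nat_lit 3339696) (nat_lit 507881) (nat_lit 54414722) (nat_lit 10029384) [(nat_lit 507881), (nat_lit 1648944), (nat_lit 0), (nat_lit 0)]) (PF.cons (PF.leaf (nat_lit 3677685) (nat_lit 532670) (nat_lit 53771424) (nat_lit 10048469) [(nat_lit 532670), (nat_lit 1690908), (nat_lit 0), (nat_lit 0)]) (PF.cons (PF.leaf (nat_lit 4036326) (nat_lit 555127) (nat_lit 53095611) (nat_lit 10062693) [(nat_lit 555127), (nat_lit 1729996), (nat_lit 0), (nat_lit 0)]) (PF.cons (PF.leaf (nat_lit 4412564)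
 (nat_lit 575526) (nat_lit 52393644) (nat_lit 10071453) [(nat_lit 575526), (nat_lit 1766082), (nat_lit 0), (nat_lit 0)]) (PF.cons (PF.leaf (nat_lit 4803733) (nat_lit 594067) (nat_lit 51670896) (nat_lit 10074368) [(nat_lit 594067), (nat_lit 1799141), (nat_lit 0), (nat_lit 0)]) (PF.cons (PF.leaf (nat_lit 5207508) (nat_lit 610910) (nat_lit 50931994) (nat_lit 10071235) [(nat_lit 610910), (nat_lit 1829208), (nat_lit 0), (nat_lit 0)]) (PF.cons (PF.leaf (nat_lit 5621809) (nat_lit 626186) (nat_lit 50180980) (nat_lit 10061988) [(nat_lit 626186), (nat_lit 1856354), (nat_lit 0), (nat_lit 0)]) (PF.cons PF.nil PF.nil)))))))))) (PF.cons (PF.cons (PF.leaf (nat_lit 3489320) (nat_lit 1676110) (nat_lit 53715407) (nat_lit 10041183) [(nat_lit 0), (nat_lit 1676110), (nat_lit 0), (nat_lit 0)]) (PF.cons (PF.leaf (nat_lit 3817266) (nat_lit 539096) (nat_lit 53086983) (nat_lit 10054255) [(nat_lit 539096), (nat_lit 1714238), (nat_lit 0), (nat_lit 0)]) (PF.cons (PF.leaf (nat_lit 4167433) (nat_lit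 560932) (nat_lit 52424153) (nat_lit 10062744) [(nat_lit 560932), (nat_lit 1750024), (nat_lit 0), (nat_lit 0)]) (PF.cons (PF.leaf (nat_lit 4535900) (nat_lit 580686) (nat_lit 51734282) (nat_lit 10066055) [(nat_lit
 580686), (nat_lit 1783207), (nat_lit 0), (nat_lit 0)]) (PF.cons (PF.leaf (nat_lit 4919758) (nat_lit 598587) (nat_lit 51023283) (nat_lit 10063822) [(nat_lit 598587), (nat_lit 1813678), (nat_lit 0), (nat_lit 0)]) (PF.cons (PF.leaf (nat_lit 5316492) (nat_lit 614807) (nat_lit 50296084) (nat_lit 10055855) [(nat_lit 614807), (nat_lit 1841416), (nat_lit 0), (nat_lit 0)]) (PF.cons (PF.leaf (nat_lit 5723932) (nat_lit 629486) (nat_lit 49556886) (nat_lit 10042100) [(nat_lit 629486), (nat_lit 1866454), (nat_lit 0), (nat_lit 0)]) (PF.cons PF.nil (PF.cons PF.nil PF.nil))))))))) (PF.cons (PF.cons (PF.leaf (nat_lit 4300595) (nat_lit 1768373) (nat_lit 51745843) (nat_lit 10057847) [(nat_lit 0), (nat_lit 1768373), (nat_lit 0), (nat_lit 0)]) (PF.cons (PF.leaf (nat_lit 4659800) (nat_lit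 584956) (nat_lit 51071432) (nat_lit 10056103) [(nat_lit 584956), (nat_lit 1798773), (nat_lit 0), (nat_lit 0)]) (PF.cons (PF.leaf (nat_lit 5035474) (nat_lit 602342) (nat_lit 50374680) (nat_lit 10049108) [(nat_lit 602342), (nat_lit 1826779), (nat_lit 0), (nat_lit 0)]) (PF.cons (PF.leaf (nat_lit 5424569) (nat_lit 618038) (nat_lit 49661091) (nat_lit 10036681) [(nat_lit 618038), (nat_lit 1852308), (nat_lit 0), (nat_lit 0)])
 (PF.cons (PF.leaf (nat_lit 5824723) (nat_lit 632198) (nat_lit 48935190) (nat_lit 10018775) [(nat_lit 632198), (nat_lit 1875350), (nat_lit 0), (nat_lit 0)]) (PF.cons (PF.leaf (nat_lit 6233912) (nat_lit 644949) (nat_lit 48200783) (nat_lit 9995444) [(nat_lit 644949), (nat_lit 1895945), (nat_lit 0), (nat_lit 0)]) (PF.cons PF.nil PF.nil))))))) (PF.cons (PF.cons (PF.leaf (nat_lit 5152084) (nat_lit 1838549) (nat_lit 49724265) (nat_lit 10030350) [(nat_lit 0), (nat_lit 1838549), (nat_lit 0), (nat_lit 0)]) (PF.cons (PF.leaf (nat_lit 5532478) (nat_lit 620593) (nat_lit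 49026492) (nat_lit 10013848) [(nat_lit 620593), (nat_lit 1861969), (nat_lit 0), (nat_lit 0)]) (PF.cons (PF.leaf (nat_lit 5924779) (nat_lit 634323) (nat_lit 48315544) (nat_lit 9992151) [(nat_lit 634323), (nat_lit 1883117), (nat_lit 0), (nat_lit 0)]) (PF.cons (PF.leaf (nat_lit 6326530) (nat_lit 646644) (nat_lit 47595570) (nat_lit 9965318) [(nat_lit 646644), (nat_lit 1901997), (nat_lit 0), (nat_lit 0)]) (PF.cons PF.nil PF.nil))))) (PF.cons (PF.cons (PF.leaf (nat_lit 6025035) (nat_lit 1889824) (nat_lit 47697349) (nat_lit 9962341) [(nat_lit 0), (nat_lit 1889824), (nat_lit 0), (nat_lit 0)]) (PF.cons (PF.leaf (nat_lit 6418611)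
 (nat_lit 647816) (nat_lit 46993256) (nat_lit 9932348) [(nat_lit 647816), (nat_lit 1907078), (nat_lit 0), (nat_lit 0)]) (PF.cons (PF.leaf (nat_lit 6820438) (nat_lit 658489) (nat_lit 46282905) (nat_lit 9897611) [(nat_lit 658489), (nat_lit 1922263), (nat_lit 0), (nat_lit 0)]) (PF.cons PF.nil PF.nil)))) (PF.cons (PF.cons (PF.leaf (nat_lit 6904840) (nat_lit 1925033) (nat_lit 45699303) (nat_lit 9859308) [(nat_lit 0), (nat_lit 1925033), (nat_lit 0), (nat_lit 0)]) (PF.cons PF.nil PF.nil)) (PF.cons PF.nil (PF.cons PF.nil PF.nil))))))))) (PF.cons (PF.cons (PF.cons (PF.leaf (nat_lit 3344236) (nat_lit 3848199) (nat_lit 53247058) (nat_lit 10013554) [(nat_lit 0), (nat_lit 0), (nat_lit 3848199), (nat_lit 0)]) (PF.cons (PF.leaf (nat_lit 3638659) (nat_lit 512099) (nat_lit 52685378) (nat_lit 10023535) [(nat_lit 512099), (nat_lit 0), (nat_lit 3887800), (nat_lit 0)]) (PF.cons (PF.leaf (nat_lit 3960578) (nat_lit 537206) (nat_lit 52078260) (nat_lit 10029966) [(nat_lit 537206), (nat_lit 0),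 (nat_lit 3926172), (nat_lit 0)]) (PF.cons (PF.leaf (nat_lit 4304636) (nat_lit 559478) (nat_lit 51436050) (nat_lit 10032051) [(nat_lit 559478), (nat_lit 0), (nat_lit 3962276), (nat_lit 0)]) (PF.cons (PF.leaf (nat_lit
 4667067) (nat_lit 579394) (nat_lit 50766495) (nat_lit 10029269) [(nat_lit 579394), (nat_lit 0), (nat_lit 3995471), (nat_lit 0)]) (PF.cons (PF.leaf (nat_lit 5044843) (nat_lit 597278) (nat_lit 50075737) (nat_lit 10021306) [(nat_lit 597278), (nat_lit 0), (nat_lit 4025375), (nat_lit 0)]) (PF.cons (PF.leaf (nat_lit 5435427) (nat_lit 613366) (nat_lit 49368832) (nat_lit 10008003) [(nat_lit 613366), (nat_lit 0), (nat_lit 4051775), (nat_lit 0)]) (PF.cons (PF.leaf (nat_lit 5836624) (nat_lit 627839) (nat_lit 48650037) (nat_lit 9989325) [(nat_lit 627839), (nat_lit 0), (nat_lit 4074577), (nat_lit 0)]) (PF.cons PF.nil (PF.cons PF.nil PF.nil)))))))))) (PF.cons (PF.cons (PF.leaf (nat_lit 4101369) (nat_lit 1739607) (nat_lit 51393267) (nat_lit 10023936) [(nat_lit 0), (nat_lit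 1739607), (nat_lit 3952001), (nat_lit 0)]) (PF.cons (PF.leaf (nat_lit 4434417) (nat_lit 563437) (nat_lit 50769537) (nat_lit 10021345) [(nat_lit 563437), (nat_lit 1770955), (nat_lit 3983536), (nat_lit 0)]) (PF.cons (PF.leaf (nat_lit 4787607) (nat_lit 582969) (nat_lit 50116070) (nat_lit 10014114) [(nat_lit 582969), (nat_lit 1800058), (nat_lit 4012629), (nat_lit 0)]) (PF.cons (PF.leaf (nat_lit 5157059) (nat_lit 600414) (nat_lit
 49440063) (nat_lit 10001945) [(nat_lit 600414), (nat_lit 1826746), (nat_lit 4038814), (nat_lit 0)]) (PF.cons (PF.leaf (nat_lit 5539914) (nat_lit 616042) (nat_lit 48747157) (nat_lit 9984695) [(nat_lit 616042), (nat_lit 1850966), (nat_lit 4061824), (nat_lit 0)]) (PF.cons (PF.leaf (nat_lit 5933780) (nat_lit 630052) (nat_lit 48041944) (nat_lit 9962338) [(nat_lit 630052), (nat_lit 1872734), (nat_lit 4081530), (nat_lit 0)]) (PF.cons (PF.leaf (nat_lit 6336640) (nat_lit 642603) (nat_lit 47328256) (nat_lit 9934940) [(nat_lit 642603), (nat_lit 1892103), (nat_lit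 4097893), (nat_lit 0)]) (PF.cons PF.nil (PF.cons PF.nil PF.nil))))))))) (PF.cons (PF.cons (PF.leaf (nat_lit 4910488) (nat_lit 1812690) (nat_lit 49461268) (nat_lit 9994833) [(nat_lit 0), (nat_lit 1812690), (nat_lit 4027330), (nat_lit 0)]) (PF.cons (PF.leaf (nat_lit 5270154) (nat_lit 602771) (nat_lit 48802935) (nat_lit 9978857) [(nat_lit 602771), (nat_lit 1837134), (nat_lit 4049980), (nat_lit 0)]) (PF.cons (PF.leaf (nat_lit 5644456) (nat_lit 618055) (nat_lit 48126146) (nat_lit 9958028) [(nat_lit 618055), (nat_lit 1859368), (nat_lit 4069788), (nat_lit 0)]) (PF.cons (PF.leaf (nat_lit 6030441) (nat_lit 631695) (nat_lit 47436096) (nat_lit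
 9932335) [(nat_lit 631695), (nat_lit 1879357), (nat_lit 4086579), (nat_lit 0)]) (PF.cons (PF.leaf (nat_lit 6425872) (nat_lit 643866) (nat_lit 46736965) (nat_lit 9901852) [(nat_lit 643866), (nat_lit 1897121), (nat_lit 4100286), (nat_lit 0)]) (PF.cons PF.nil (PF.cons PF.nil PF.nil))))))) (PF.cons (PF.cons (PF.leaf (nat_lit 5750217) (nat_lit 1866697) (nat_lit 47504863) (nat_lit 9928078) [(nat_lit 0), (nat_lit 1866697), (nat_lit 4075778), (nat_lit 0)]) (PF.cons (PF.leaf (nat_lit 6127303) (nat_lit 632749) (nat_lit 46831858) (nat_lit 9899408) [(nat_lit 632749), (nat_lit 1884990), (nat_lit 4089825), (nat_lit 0)]) (PF.cons (PF.leaf (nat_lit 6514765) (nat_lit 644623) (nat_lit 46148667) (nat_lit 9866163) [(nat_lit 644623), (nat_lit 1901232), (nat_lit 4101038), (nat_lit 0)]) (PF.cons (PF.leaf (nat_lit 6910288) (nat_lit 655156) (nat_lit 45459099) (nat_lit 9828490) [(nat_lit 655156), (nat_lit 1915452), (nat_lit 4109395), (nat_lit 0)]) (PF.cons PF.nil PF.nil))))) (PF.cons (PF.cons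 (PF.leaf (nat_lit 6604219) (nat_lit 1904487) (nat_lit 45562687) (nat_lit 9827944) [(nat_lit 0), (nat_lit 1904487), (nat_lit 4100232), (nat_lit 0)]) (PF.cons (PF.leaf (nat_lit 6991568) (nat_lit 655152) (nat_lit
 44889526) (nat_lit 9788040) [(nat_lit 655152), (nat_lit 1917406), (nat_lit 4106467), (nat_lit 0)]) (PF.cons (PF.leaf (nat_lit 7385980) (nat_lit 664222) (nat_lit 44212245) (nat_lit 9744090) [(nat_lit 664222), (nat_lit 1928488), (nat_lit 4110078), (nat_lit 0)]) (PF.cons PF.nil PF.nil)))) (PF.cons (PF.cons (PF.leaf (nat_lit 7460029) (nat_lit 1928591) (nat_lit 43662128) (nat_lit 9699713) [(nat_lit 0), (nat_lit 1928591), (nat_lit 4104013), (nat_lit 0)]) (PF.cons PF.nil PF.nil)) (PF.cons PF.nil (PF.cons PF.nil PF.nil)))))))) (PF.cons (PF.cons (PF.cons (PF.leaf (nat_lit 4694629) (nat_lit 4000525) (nat_lit 49149824) (nat_lit 9957937) [(nat_lit 0), (nat_lit 0), (nat_lit 4000525), (nat_lit 0)]) (PF.cons (PF.leaf (nat_lit 5029813) (nat_lit 581830) (nat_lit 48538999) (nat_lit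 9942514) [(nat_lit 581830), (nat_lit 0), (nat_lit 4022734), (nat_lit 0)]) (PF.cons (PF.leaf (nat_lit 5383335) (nat_lit 599326) (nat_lit 47902405) (nat_lit 9922566) [(nat_lit 599326), (nat_lit 0), (nat_lit 4042594), (nat_lit 0)]) (PF.cons (PF.leaf (nat_lit 5751367) (nat_lit 614753) (nat_lit 47246967) (nat_lit 9898018) [(nat_lit 614753), (nat_lit 0), (nat_lit 4059782), (nat_lit 0)]) (PF.cons (PF.leaf (nat_lit 6131140)
 (nat_lit 628413) (nat_lit 46578004) (nat_lit 9868891) [(nat_lit 628413), (nat_lit 0), (nat_lit 4074131), (nat_lit 0)]) (PF.cons (PF.leaf (nat_lit 6520387) (nat_lit 640526) (nat_lit 45899762) (nat_lit 9835273) [(nat_lit 640526), (nat_lit 0), (nat_lit 4085573), (nat_lit 0)]) (PF.cons PF.nil (PF.cons PF.nil (PF.cons PF.nil PF.nil))))))))) (PF.cons (PF.cons (PF.leaf (nat_lit 5496117) (nat_lit 1841940) (nat_lit 47276014) (nat_lit 9892217) [(nat_lit 0), (nat_lit 1841940), (nat_lit 4049320), (nat_lit 0)]) (PF.cons (PF.leaf (nat_lit 5854086) (nat_lit 615569) (nat_lit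 46639476) (nat_lit 9864929) [(nat_lit 615569), (nat_lit 1861404), (nat_lit 4063716), (nat_lit 0)]) (PF.cons (PF.leaf (nat_lit 6225124) (nat_lit 629028) (nat_lit 45987626) (nat_lit 9833221) [(nat_lit 629028), (nat_lit 1878831), (nat_lit 4075538), (nat_lit 0)]) (PF.cons (PF.leaf (nat_lit 6606400) (nat_lit 640895) (nat_lit 45325327) (nat_lit 9797205) [(nat_lit 640895), (nat_lit 1894222), (nat_lit 4084686), (nat_lit 0)]) (PF.cons (PF.leaf (nat_lit 6995782) (nat_lit 651362) (nat_lit 44656424) (nat_lit 9757034) [(nat_lit 651362), (nat_lit 1907621), (nat_lit 4091140), (nat_lit 0)]) (PF.cons PF.nil (PF.cons PF.nil PF.nil)))))))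
 (PF.cons (PF.cons (PF.leaf (nat_lit 6320634) (nat_lit 1882622) (nat_lit 45397967) (nat_lit 9794895) [(nat_lit 0), (nat_lit 1882622), (nat_lit 4075352), (nat_lit 0)]) (PF.cons (PF.leaf (nat_lit 6692960) (nat_lit 640746) (nat_lit 44753240) (nat_lit 9756808) [(nat_lit 640746), (nat_lit 1896655), (nat_lit 4082353), (nat_lit 0)]) (PF.cons (PF.leaf (nat_lit 7074393) (nat_lit 651025) (nat_lit 44100643) (nat_lit 9714721) [(nat_lit 651025), (nat_lit 1908837), (nat_lit 4086860), (nat_lit 0)]) (PF.cons (PF.leaf (nat_lit 7462747) (nat_lit 660033) (nat_lit 43443666) (nat_lit 9668836) [(nat_lit 660033), (nat_lit 1919215), (nat_lit 4088888), (nat_lit 0)]) (PF.cons PF.nil PF.nil))))) (PF.cons (PF.cons (PF.leaf (nat_lit 7153883) (nat_lit 1909358) (nat_lit 43547667) (nat_lit 9670406) [(nat_lit 0), (nat_lit 1909358), (nat_lit 4081331), (nat_lit 0)]) (PF.cons (PF.leaf (nat_lit 7534168) (nat_lit 659092) (nat_lit 42907132) (nat_lit 9623041) [(nat_lit 659092), (nat_lit 1918702), (nat_lit 4081719),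 (nat_lit 0)]) (PF.cons PF.nil (PF.cons PF.nil PF.nil)))) (PF.cons (PF.cons (PF.leaf (nat_lit 7985186) (nat_lit 1924421) (nat_lit 41747044) (nat_lit 9523639) [(nat_lit 0), (nat_lit 1924421), (nat_lit 4070222),
 (nat_lit 0)]) (PF.cons PF.nil PF.nil)) (PF.cons PF.nil PF.nil)))))) (PF.cons (PF.cons (PF.cons (PF.leaf (nat_lit 6056851) (nat_lit 4049834) (nat_lit 45199504) (nat_lit 9759805) [(nat_lit 0), (nat_lit 0), (nat_lit 4049834), (nat_lit 0)]) (PF.cons (PF.leaf (nat_lit 6411520) (nat_lit 624270) (nat_lit 44588309) (nat_lit 9723688) [(nat_lit 624270), (nat_lit 0), (nat_lit 4057514), (nat_lit 0)]) (PF.cons (PF.leaf (nat_lit 6777952) (nat_lit 636140) (nat_lit 43964342) (nat_lit 9683581) [(nat_lit 636140), (nat_lit 0), (nat_lit 4062869), (nat_lit 0)]) (PF.cons (PF.leaf (nat_lit 7153398) (nat_lit 646478) (nat_lit 43332127) (nat_lit 9639680) [(nat_lit 646478), (nat_lit 0), (nat_lit 4065856), (nat_lit 0)]) (PF.cons (PF.leaf (nat_lit 7535856) (nat_lit 655487) (nat_lit 42695191)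 (nat_lit 9592196) [(nat_lit 655487), (nat_lit 0), (nat_lit 4066492), (nat_lit 0)]) PF.nil))))) (PF.cons (PF.cons (PF.leaf (nat_lit 6863893) (nat_lit 1888805) (nat_lit 43407235) (nat_lit 9639142) [(nat_lit 0), (nat_lit 1888805), (nat_lit 4057876), (nat_lit 0)]) (PF.cons (PF.leaf (nat_lit 7230451) (nat_lit 645368) (nat_lit 42792622) (nat_lit 9593910) [(nat_lit 645368), (nat_lit 1899299), (nat_lit 4059203), (nat_lit 0)])
 (PF.cons (PF.leaf (nat_lit 7605068) (nat_lit 654278) (nat_lit 42171927) (nat_lit 9545193) [(nat_lit 654278), (nat_lit 1908123), (nat_lit 4058337), (nat_lit 0)]) (PF.cons PF.nil PF.nil)))) (PF.cons (PF.cons (PF.leaf (nat_lit 7675448) (nat_lit 1906488) (nat_lit 41651690) (nat_lit 9496609) [(nat_lit 0), (nat_lit 1906488), (nat_lit 4049178), (nat_lit 0)]) (PF.cons (PF.leaf (nat_lit 8048139) (nat_lit 660301) (nat_lit 41044250) (nat_lit 9443765) [(nat_lit 660301), (nat_lit 1912885), (nat_lit 4044908), (nat_lit 0)]) PF.nil)) (PF.cons PF.nil (PF.cons PF.nil PF.nil)))))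 (PF.cons (PF.cons (PF.cons (PF.leaf (nat_lit 7381015) (nat_lit 4027247) (nat_lit 41532379) (nat_lit 9467444) [(nat_lit 0), (nat_lit 0), (nat_lit 4027247), (nat_lit 0)]) (PF.cons (PF.leaf (nat_lit 7741131) (nat_lit 647259) (nat_lit 40948527) (nat_lit 9416920) [(nat_lit 647259), (nat_lit 0), (nat_lit 4024026), (nat_lit 0)]) (PF.cons (PF.leaf (nat_lit 8108436) (nat_lit 654994) (nat_lit 40359968) (nat_lit 9363363) [(nat_lit 654994), (nat_lit 0), (nat_lit 4018873), (nat_lit 0)]) (PF.cons PF.nil PF.nil)))) (PF.cons (PF.cons (PF.leaf (nat_lit 8170527) (nat_lit 1897527) (nat_lit 39871520) (nat_lit 9311943) [(nat_lit 0), (nat_lit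
 1897527), (nat_lit 4006955), (nat_lit 0)]) (PF.cons PF.nil PF.nil)) (PF.cons PF.nil PF.nil))) (PF.cons (PF.cons (PF.cons (PF.leaf (nat_lit 8640840) (nat_lit 3957188) (nat_lit 38202274) (nat_lit 9120596) [(nat_lit 0), (nat_lit 0), (nat_lit 3957188), (nat_lit 0)]) (PF.cons PF.nil PF.nil)) (PF.cons PF.nil PF.nil)) (PF.cons PF.nil (PF.cons PF.nil PF.nil)))))))) (PF.cons (PF.cons (PF.cons (PF.cons (PF.leaf (nat_lit 4227137) (nat_lit 9059084) (nat_lit 48258884) (nat_lit 9790843) [(nat_lit 0), (nat_lit 0), (nat_lit 0), (nat_lit 9059084)]) (PF.cons (PF.leaf (nat_lit 4517489) (nat_lit 526370) (nat_lit 47748695) (nat_lit 9779989) [(nat_lit 526370), (nat_lit 0), (nat_lit 0), (nat_lit 9053757)]) (PF.cons (PF.leaf (nat_lit 4832882) (nat_lit 549230) (nat_lit 47200227) (nat_lit 9765209) [(nat_lit 549230), (nat_lit 0), (nat_lit 0), (nat_lit 9044915)]) (PF.cons (PF.leaf (nat_lit 5167925) (nat_lit 569064) (nat_lit 46623054) (nat_lit 9746299) [(nat_lit 569064), (nat_lit 0), (nat_lit 0),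 (nat_lit 9032264)]) (PF.cons (PF.leaf (nat_lit 5518914) (nat_lit 586449) (nat_lit 46024214) (nat_lit 9723160) [(nat_lit 586449), (nat_lit 0), (nat_lit 0), (nat_lit 9015640)]) (PF.cons (PF.leaf (nat_lit 5882936)
 (nat_lit 601776) (nat_lit 45409167) (nat_lit 9695780) [(nat_lit 601776), (nat_lit 0), (nat_lit 0), (nat_lit 8994984)]) (PF.cons (PF.leaf (nat_lit 6257599) (nat_lit 615329) (nat_lit 44782305) (nat_lit 9664214) [(nat_lit 615329), (nat_lit 0), (nat_lit 0), (nat_lit 8970315)]) (PF.cons (PF.leaf (nat_lit 6640910) (nat_lit 627326) (nat_lit 44147245) (nat_lit 9628572) [(nat_lit 627326), (nat_lit 0), (nat_lit 0), (nat_lit 8941710)]) (PF.cons (PF.leaf (nat_lit 7031126) (nat_lit 637937) (nat_lit 43507012) (nat_lit 9589006) [(nat_lit 637937), (nat_lit 0), (nat_lit 0), (nat_lit 8909297)]) (PF.cons PF.nil PF.nil)))))))))) (PF.cons (PF.cons (PF.leaf (nat_lit 4957146) (nat_lit 1755345) (nat_lit 46591334) (nat_lit 9738065) [(nat_lit 0), (nat_lit 1755345), (nat_lit 0), (nat_lit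 9024067)]) (PF.cons (PF.leaf (nat_lit 5280707) (nat_lit 570595) (nat_lit 46033172) (nat_lit 9716590) [(nat_lit 570595), (nat_lit 1779762), (nat_lit 0), (nat_lit 9008691)]) (PF.cons (PF.leaf (nat_lit 5622128) (nat_lit 587780) (nat_lit 45450882) (nat_lit 9690970) [(nat_lit 587780), (nat_lit 1801939), (nat_lit 0), (nat_lit 8989460)]) (PF.cons (PF.leaf (nat_lit 5977658) (nat_lit 602841) (nat_lit 44850886) (nat_lit 9661232)
 [(nat_lit 602841), (nat_lit 1821827), (nat_lit 0), (nat_lit 8966341)]) (PF.cons (PF.leaf (nat_lit 6344581) (nat_lit 616101) (nat_lit 44238115) (nat_lit 9627457) [(nat_lit 616101), (nat_lit 1839463), (nat_lit 0), (nat_lit 8939371)]) (PF.cons (PF.leaf (nat_lit 6720685) (nat_lit 627795) (nat_lit 43616507) (nat_lit 9589768) [(nat_lit 627795), (nat_lit 1854922), (nat_lit 0), (nat_lit 8908638)]) (PF.cons (PF.leaf (nat_lit 7104113) (nat_lit 638105) (nat_lit 42989275) (nat_lit 9548326) [(nat_lit 638105), (nat_lit 1868302), (nat_lit 0), (nat_lit 8874272)]) (PF.cons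 PF.nil (PF.cons PF.nil PF.nil))))))))) (PF.cons (PF.cons (PF.leaf (nat_lit 5728038) (nat_lit 1808557) (nat_lit 44875246) (nat_lit 9655927) [(nat_lit 0), (nat_lit 1808557), (nat_lit 0), (nat_lit 8960524)]) (PF.cons (PF.leaf (nat_lit 6073722) (nat_lit 603251) (nat_lit 44292616) (nat_lit 9624183) [(nat_lit 603251), (nat_lit 1826746), (nat_lit 0), (nat_lit 8935267)]) (PF.cons (PF.leaf (nat_lit 6432151) (nat_lit 616329) (nat_lit 43695570) (nat_lit 9588502) [(nat_lit 616329), (nat_lit 1842899), (nat_lit 0), (nat_lit 8906281)]) (PF.cons (PF.leaf (nat_lit 6800534) (nat_lit 627804) (nat_lit 43088594) (nat_lit 9549036) [(nat_lit 627804),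
 (nat_lit 1857048), (nat_lit 0), (nat_lit 8873672)]) (PF.cons (PF.leaf (nat_lit 7176815) (nat_lit 637879) (nat_lit 42475235) (nat_lit 9505958) [(nat_lit 637879), (nat_lit 1869258), (nat_lit 0), (nat_lit 8837582)]) (PF.cons (PF.leaf (nat_lit 7559289) (nat_lit 646715) (nat_lit 41858368) (nat_lit 9459460) [(nat_lit 646715), (nat_lit 1879616), (nat_lit 0), (nat_lit 8798175)]) (PF.cons PF.nil PF.nil))))))) (PF.cons (PF.cons (PF.leaf (nat_lit 6521408) (nat_lit 1845558) (nat_lit 43153719) (nat_lit 9547356) [(nat_lit 0), (nat_lit 1845558), (nat_lit 0), (nat_lit 8871060)]) (PF.cons (PF.leaf (nat_lit 6881121) (nat_lit 627330) (nat_lit 42562839) (nat_lit 9506402) [(nat_lit 627330), (nat_lit 1858464), (nat_lit 0), (nat_lit 8836848)]) (PF.cons (PF.leaf (nat_lit 7249750) (nat_lit 637246) (nat_lit 41964396) (nat_lit 9461940) [(nat_lit 637246), (nat_lit 1869570), (nat_lit 0), (nat_lit 8799270)]) (PF.cons (PF.leaf (nat_lit 7625160) (nat_lit 645901) (nat_lit 41361601) (nat_lit 9414178)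 [(nat_lit 645901), (nat_lit 1878941), (nat_lit 0), (nat_lit 8758504)]) (PF.cons PF.nil PF.nil))))) (PF.cons (PF.cons (PF.leaf (nat_lit 7323760) (nat_lit 1869272) (nat_lit 41456080) (nat_lit 9416285) [(nat_lit 0),
 (nat_lit 1869272), (nat_lit 0), (nat_lit 8759355)]) (PF.cons (PF.leaf (nat_lit 7691411) (nat_lit 644723) (nat_lit 40868286) (nat_lit 9367494) [(nat_lit 644723), (nat_lit 1877714), (nat_lit 0), (nat_lit 8717451)]) (PF.cons (PF.leaf (nat_lit 8065065) (nat_lit 652124) (nat_lit 40277814) (nat_lit 9315716) [(nat_lit 652124), (nat_lit 1884595), (nat_lit 0), (nat_lit 8672653)]) (PF.cons PF.nil PF.nil)))) (PF.cons (PF.cons (PF.leaf (nat_lit 8125083) (nat_lit 1882059) (nat_lit 39802199) (nat_lit 9266916) [(nat_lit 0), (nat_lit 1882059), (nat_lit 0), (nat_lit 8629397)]) (PF.cons (PF.leaf (nat_lit 8496058) (nat_lit 656776) (nat_lit 39225361) (nat_lit 9211739) [(nat_lit 656776), (nat_lit 1886754), (nat_lit 0), (nat_lit 8581163)]) PF.nil)) (PF.cons PF.nil (PF.cons PF.nil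 PF.nil)))))))) (PF.cons (PF.cons (PF.cons (PF.leaf (nat_lit 5501061) (nat_lit 3947226) (nat_lit 44620019) (nat_lit 9617442) [(nat_lit 0), (nat_lit 0), (nat_lit 3947226), (nat_lit 8924123)]) (PF.cons (PF.leaf (nat_lit 5824538) (nat_lit 582618) (nat_lit 44078777) (nat_lit 9587781) [(nat_lit 582618), (nat_lit 0), (nat_lit 3959050), (nat_lit 8900585)]) (PF.cons (PF.leaf (nat_lit 6164402) (nat_lit 598050) (nat_lit 43516455)
 (nat_lit 9554160) [(nat_lit 598050), (nat_lit 0), (nat_lit 3968736), (nat_lit 8873358)]) (PF.cons (PF.leaf (nat_lit 6516978) (nat_lit 611419) (nat_lit 42939145) (nat_lit 9516743) [(nat_lit 611419), (nat_lit 0), (nat_lit 3976121), (nat_lit 8842545)]) (PF.cons (PF.leaf (nat_lit 6879654) (nat_lit 623060) (nat_lit 42351448) (nat_lit 9475702) [(nat_lit 623060), (nat_lit 0), (nat_lit 3981145), (nat_lit 8808273)]) (PF.cons (PF.leaf (nat_lit 7250341) (nat_lit 633219) (nat_lit 41756983) (nat_lit 9431224) [(nat_lit 633219), (nat_lit 0), (nat_lit 3983813), (nat_lit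 8770694)]) (PF.cons (PF.leaf (nat_lit 7627297) (nat_lit 642081) (nat_lit 41158663) (nat_lit 9383509) [(nat_lit 642081), (nat_lit 0), (nat_lit 3984173), (nat_lit 8729978)]) (PF.cons PF.nil (PF.cons PF.nil PF.nil))))))))) (PF.cons (PF.cons (PF.leaf (nat_lit 6261416) (nat_lit 1821656) (nat_lit 42969508) (nat_lit 9512718) [(nat_lit 0), (nat_lit 1821656), (nat_lit 3966970), (nat_lit 8837959)]) (PF.cons (PF.leaf (nat_lit 6604094) (nat_lit 610709) (nat_lit 42409926) (nat_lit 9474012) [(nat_lit 610709), (nat_lit 1836002), (nat_lit 3972448), (nat_lit 8805712)]) (PF.cons (PF.leaf (nat_lit 6958280) (nat_lit 622282) (nat_lit 41838191)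
 (nat_lit 9431731) [(nat_lit 622282), (nat_lit 1848489), (nat_lit 3975758), (nat_lit 8770076)]) (PF.cons (PF.leaf (nat_lit 7321314) (nat_lit 632322) (nat_lit 41258476) (nat_lit 9386092) [(nat_lit 632322), (nat_lit 1859169), (nat_lit 3976879), (nat_lit 8731226)]) (PF.cons (PF.leaf (nat_lit 7691231) (nat_lit 641038) (nat_lit 40674035) (nat_lit 9337314) [(nat_lit 641038), (nat_lit 1868118), (nat_lit 3975842), (nat_lit 8689347)]) (PF.cons (PF.leaf (nat_lit 8066433) (nat_lit 648592) (nat_lit 40087471) (nat_lit 9285613) [(nat_lit 648592), (nat_lit 1875424), (nat_lit 3972709), (nat_lit 8644629)]) (PF.cons PF.nil PF.nil))))))) (PF.cons (PF.cons (PF.leaf (nat_lit 7038864) (nat_lit 1848677) (nat_lit 41326083) (nat_lit 9385975) [(nat_lit 0), (nat_lit 1848677), (nat_lit 3969254), (nat_lit 8730145)]) (PF.cons (PF.leaf (nat_lit 7393304) (nat_lit 630995) (nat_lit 40762412) (nat_lit 9339442) [(nat_lit 630995), (nat_lit 1858371), (nat_lit 3968946), (nat_lit 8690272)]) (PF.cons (PF.leaf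 (nat_lit 7755689) (nat_lit 639636) (nat_lit 40192756) (nat_lit 9289826) [(nat_lit 639636), (nat_lit 1866446), (nat_lit 3966621), (nat_lit 8647442)]) (PF.cons (PF.leaf (nat_lit 8123979) (nat_lit 647086) (nat_lit
 39620056) (nat_lit 9237367) [(nat_lit 647086), (nat_lit 1872971), (nat_lit 3962326), (nat_lit 8601859)]) (PF.cons PF.nil PF.nil))))) (PF.cons (PF.cons (PF.leaf (nat_lit 7821480) (nat_lit 1864278) (nat_lit 39714141) (nat_lit 9241037) [(nat_lit 0), (nat_lit 1864278), (nat_lit 3956539), (nat_lit 8604259)]) (PF.cons (PF.leaf (nat_lit 8182184) (nat_lit 645257) (nat_lit 39156119) (nat_lit 9188029) [(nat_lit 645257), (nat_lit 1870071), (nat_lit 3951180), (nat_lit 8558010)]) (PF.cons (PF.leaf (nat_lit 8548155) (nat_lit 651591) (nat_lit 38596433) (nat_lit 9132463) [(nat_lit 651591), (nat_lit 1874474), (nat_lit 3944031), (nat_lit 8509278)]) (PF.cons PF.nil PF.nil)))) (PF.cons (PF.cons (PF.leaf (nat_lit 8600564) (nat_lit 1870534) (nat_lit 38149759) (nat_lit 9081720) [(nat_lit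 0), (nat_lit 1870534), (nat_lit 3931275), (nat_lit 8463920)]) (PF.cons PF.nil PF.nil)) (PF.cons PF.nil PF.nil)))))) (PF.cons (PF.cons (PF.cons (PF.leaf (nat_lit 6772477) (nat_lit 3945105) (nat_lit 41166711) (nat_lit 9353157) [(nat_lit 0), (nat_lit 0), (nat_lit 3945105), (nat_lit 8698733)]) (PF.cons (PF.leaf (nat_lit 7111136) (nat_lit 615191) (nat_lit 40631674) (nat_lit 9309140) [(nat_lit 615191), (nat_lit 0), (nat_lit
 3945852), (nat_lit 8661101)]) (PF.cons (PF.leaf (nat_lit 7460272) (nat_lit 625459) (nat_lit 40086319) (nat_lit 9261889) [(nat_lit 625459), (nat_lit 0), (nat_lit 3944641), (nat_lit 8620401)]) (PF.cons (PF.leaf (nat_lit 7817296) (nat_lit 634260) (nat_lit 39534520) (nat_lit 9211669) [(nat_lit 634260), (nat_lit 0), (nat_lit 3941490), (nat_lit 8576858)]) (PF.cons (PF.leaf (nat_lit 8180366) (nat_lit 641810) (nat_lit 38979260) (nat_lit 9158727) [(nat_lit 641810), (nat_lit 0), (nat_lit 3936449), (nat_lit 8530684)]) (PF.cons PF.nil (PF.cons PF.nil PF.nil)))))))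 (PF.cons (PF.cons (PF.leaf (nat_lit 7532825) (nat_lit 1845099) (nat_lit 39603585) (nat_lit 9212946) [(nat_lit 0), (nat_lit 1845099), (nat_lit 3935018), (nat_lit 8577144)]) (PF.cons (PF.leaf (nat_lit 7881407) (nat_lit 632255) (nat_lit 39067504) (nat_lit 9162309) [(nat_lit 632255), (nat_lit 1852126), (nat_lit 3930784), (nat_lit 8533048)]) (PF.cons (PF.leaf (nat_lit 8237111) (nat_lit 639799) (nat_lit 38526667) (nat_lit 9108967) [(nat_lit 639799), (nat_lit 1857690), (nat_lit 3924767), (nat_lit 8486353)]) (PF.cons (PF.leaf (nat_lit 8598001) (nat_lit 646218) (nat_lit 37983767) (nat_lit 9053176) [(nat_lit 646218), (nat_lit 1861867),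
 (nat_lit 3917030), (nat_lit 8437285)]) (PF.cons PF.nil PF.nil))))) (PF.cons (PF.cons (PF.leaf (nat_lit 8295412) (nat_lit 1854054) (nat_lit 38076746) (nat_lit 9058174) [(nat_lit 0), (nat_lit 1854054), (nat_lit 3912389), (nat_lit 8441004)]) (PF.cons (PF.leaf (nat_lit 8648916) (nat_lit 643876) (nat_lit 37548030) (nat_lit 9002215) [(nat_lit 643876), (nat_lit 1857661), (nat_lit 3903861), (nat_lit 8391644)]) (PF.cons PF.nil (PF.cons PF.nil PF.nil)))) (PF.cons (PF.cons (PF.leaf (nat_lit 9052614) (nat_lit 1854996) (nat_lit 36599264) (nat_lit 8892259) [(nat_lit 0), (nat_lit 1854996), (nat_lit 3879372), (nat_lit 8293554)]) (PF.cons PF.nil PF.nil)) (PF.cons PF.nil PF.nil))))) (PF.cons (PF.cons (PF.cons (PF.leaf (nat_lit 8004411) (nat_lit 3892473) (nat_lit 37983003) (nat_lit 9032350) [(nat_lit 0), (nat_lit 0), (nat_lit 3892473), (nat_lit 8416038)]) (PF.cons (PF.leaf (nat_lit 8346736) (nat_lit 631572) (nat_lit 37474246) (nat_lit 8978807) [(nat_lit 631572), (nat_lit 0), (nat_lit 3885100),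 (nat_lit 8368884)]) (PF.cons (PF.leaf (nat_lit 8695508) (nat_lit 638170) (nat_lit 36961687) (nat_lit 8922890) [(nat_lit 638170), (nat_lit 0), (nat_lit 3876149), (nat_lit 8319447)]) (PF.cons PF.nil PF.nil))))
 (PF.cons (PF.cons (PF.leaf (nat_lit 8747010) (nat_lit 1839736) (nat_lit 36539143) (nat_lit 8870972) [(nat_lit 0), (nat_lit 1839736), (nat_lit 3862055), (nat_lit 8272794)]) (PF.cons (PF.leaf (nat_lit 9093199) (nat_lit 640961) (nat_lit 36038839) (nat_lit 8813076) [(nat_lit 640961), (nat_lit 1841540), (nat_lit 3851027), (nat_lit 8221312)]) PF.nil)) (PF.cons PF.nil PF.nil))) (PF.cons (PF.cons (PF.cons (PF.leaf (nat_lit 9177742) (nat_lit 3807201) (nat_lit 35095928) (nat_lit 8681965) [(nat_lit 0), (nat_lit 0), (nat_lit 3807201), (nat_lit 8102112)]) (PF.cons PF.nil PF.nil)) (PF.cons PF.nil PF.nil)) (PF.cons PF.nil PF.nil)))))) (PF.cons (PF.cons (PF.cons (PF.cons (PF.leaf (nat_lit 6215329) (nat_lit 8579428) (nat_lit 40720252) (nat_lit 9229704) [(nat_lit 0), (nat_lit 0),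 (nat_lit 0), (nat_lit 8579428)]) (PF.cons (PF.leaf (nat_lit 6526641) (nat_lit 576667) (nat_lit 40243175) (nat_lit 9192583) [(nat_lit 576667), (nat_lit 0), (nat_lit 0), (nat_lit 8548193)]) (PF.cons (PF.leaf (nat_lit 6852836) (nat_lit 590470) (nat_lit 39748474) (nat_lit 9151979) [(nat_lit 590470), (nat_lit 0), (nat_lit 0), (nat_lit 8513708)]) (PF.cons (PF.leaf (nat_lit 7190380) (nat_lit 602250) (nat_lit 39241466) (nat_lit
 9108182) [(nat_lit 602250), (nat_lit 0), (nat_lit 0), (nat_lit 8476205)]) (PF.cons (PF.leaf (nat_lit 7536819) (nat_lit 612364) (nat_lit 38726123) (nat_lit 9061446) [(nat_lit 612364), (nat_lit 0), (nat_lit 0), (nat_lit 8435893)]) (PF.cons (PF.leaf (nat_lit 7890210) (nat_lit 621066) (nat_lit 38205531) (nat_lit 9012003) [(nat_lit 621066), (nat_lit 0), (nat_lit 0), (nat_lit 8392972)]) (PF.cons (PF.leaf (nat_lit 8248975) (nat_lit 628553) (nat_lit 37682150) (nat_lit 8960074) [(nat_lit 628553), (nat_lit 0), (nat_lit 0), (nat_lit 8347634)]) (PF.cons PF.nil (PF.cons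 PF.nil PF.nil))))))))) (PF.cons (PF.cons (PF.leaf (nat_lit 6937151) (nat_lit 1785279) (nat_lit 39271932) (nat_lit 9105568) [(nat_lit 0), (nat_lit 1785279), (nat_lit 0), (nat_lit 8473016)]) (PF.cons (PF.leaf (nat_lit 7265108) (nat_lit 600547) (nat_lit 38780964) (nat_lit 9061367) [(nat_lit 600547), (nat_lit 1796033), (nat_lit 0), (nat_lit 8434949)]) (PF.cons (PF.leaf (nat_lit 7603406) (nat_lit 610689) (nat_lit 38279995) (nat_lit 9014203) [(nat_lit 610689), (nat_lit 1805090), (nat_lit 0), (nat_lit 8394072)]) (PF.cons (PF.leaf (nat_lit 7949522) (nat_lit 619363) (nat_lit 37772612) (nat_lit 8964347) [(nat_lit 619363), (nat_lit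
 1812532), (nat_lit 0), (nat_lit 8350615)]) (PF.cons (PF.leaf (nat_lit 8301654) (nat_lit 626788) (nat_lit 37261582) (nat_lit 8912043) [(nat_lit 626788), (nat_lit 1818453), (nat_lit 0), (nat_lit 8304789)]) (PF.cons PF.nil (PF.cons PF.nil PF.nil))))))) (PF.cons (PF.cons (PF.leaf (nat_lit 7672251) (nat_lit 1803008) (nat_lit 37834997) (nat_lit 8965719) [(nat_lit 0), (nat_lit 1803008), (nat_lit 0), (nat_lit 8351039)]) (PF.cons (PF.leaf (nat_lit 8010184) (nat_lit 617292) (nat_lit 37341885) (nat_lit 8915671) [(nat_lit 617292), (nat_lit 1809729), (nat_lit 0), (nat_lit 8307252)]) (PF.cons (PF.leaf (nat_lit 8355215) (nat_lit 624721) (nat_lit 36843941) (nat_lit 8863174) [(nat_lit 624721), (nat_lit 1815016), (nat_lit 0), (nat_lit 8261110)]) (PF.cons (PF.leaf (nat_lit 8705438) (nat_lit 631034) (nat_lit 36343664) (nat_lit 8808474) [(nat_lit 631034), (nat_lit 1818954), (nat_lit 0), (nat_lit 8212832)]) (PF.cons PF.nil PF.nil))))) (PF.cons (PF.cons (PF.leaf (nat_lit 8410431) (nat_lit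 1811215) (nat_lit 36428598) (nat_lit 8813431) [(nat_lit 0), (nat_lit 1811215), (nat_lit 0), (nat_lit 8216568)]) (PF.cons (PF.leaf (nat_lit 8753521) (nat_lit 628665) (nat_lit 35941194) (nat_lit 8758731) [(nat_lit
 628665), (nat_lit 1814630), (nat_lit 0), (nat_lit 8168164)]) (PF.cons PF.nil (PF.cons PF.nil PF.nil)))) (PF.cons (PF.cons (PF.leaf (nat_lit 9144388) (nat_lit 1811775) (nat_lit 35065006) (nat_lit 8651739) [(nat_lit 0), (nat_lit 1811775), (nat_lit 0), (nat_lit 8072481)]) (PF.cons PF.nil PF.nil)) (PF.cons PF.nil PF.nil)))))) (PF.cons (PF.cons (PF.cons (PF.leaf (nat_lit 7406777) (nat_lit 3821362) (nat_lit 37706529) (nat_lit 8935961) [(nat_lit 0), (nat_lit 0), (nat_lit 3821362), (nat_lit 8322479)]) (PF.cons (PF.leaf (nat_lit 7730448) (nat_lit 602271) (nat_lit 37237863) (nat_lit 8888622) [(nat_lit 602271), (nat_lit 0), (nat_lit 3817774), (nat_lit 8281141)]) (PF.cons (PF.leaf (nat_lit 8063625) (nat_lit 611319) (nat_lit 36760571) (nat_lit 8838592) [(nat_lit 611319),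 (nat_lit 0), (nat_lit 3812511), (nat_lit 8237249)]) (PF.cons (PF.leaf (nat_lit 8403858) (nat_lit 618970) (nat_lit 36277982) (nat_lit 8786169) [(nat_lit 618970), (nat_lit 0), (nat_lit 3805623), (nat_lit 8191062)]) (PF.cons (PF.leaf (nat_lit 8749438) (nat_lit 625443) (nat_lit 35792638) (nat_lit 8731609) [(nat_lit 625443), (nat_lit 0), (nat_lit 3797180), (nat_lit 8142805)]) PF.nil))))) (PF.cons (PF.cons (PF.leaf (nat_lit 8125698)
 (nat_lit 1793484) (nat_lit 36341204) (nat_lit 8788645) [(nat_lit 0), (nat_lit 1793484), (nat_lit 3800323), (nat_lit 8192577)]) (PF.cons (PF.leaf (nat_lit 8457929) (nat_lit 616415) (nat_lit 35872431) (nat_lit 8736342) [(nat_lit 616415), (nat_lit 1798147), (nat_lit 3792735), (nat_lit 8146370)]) (PF.cons (PF.leaf (nat_lit 8796597) (nat_lit 622945) (nat_lit 35399711) (nat_lit 8681873) [(nat_lit 622945), (nat_lit 1801513), (nat_lit 3783664), (nat_lit 8098079)]) (PF.cons PF.nil PF.nil)))) (PF.cons (PF.cons (PF.leaf (nat_lit 8845586) (nat_lit 1796700)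 (nat_lit 35009003) (nat_lit 8631437) [(nat_lit 0), (nat_lit 1796700), (nat_lit 3769652), (nat_lit 8052658)]) (PF.cons (PF.leaf (nat_lit 9181951) (nat_lit 625694) (nat_lit 34546969) (nat_lit 8575299) [(nat_lit 625694), (nat_lit 1798455), (nat_lit 3758682), (nat_lit 8002628)]) PF.nil)) (PF.cons PF.nil (PF.cons PF.nil PF.nil))))) (PF.cons (PF.cons (PF.cons (PF.leaf (nat_lit 8559887) (nat_lit 3751723) (nat_lit 34935010) (nat_lit 8608846) [(nat_lit 0), (nat_lit 0), (nat_lit 3751723), (nat_lit 8030754)]) (PF.cons (PF.leaf (nat_lit 8886176) (nat_lit 614125) (nat_lit 34489948) (nat_lit 8555076) [(nat_lit 614125), (nat_lit 0), (nat_lit 3741930),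
 (nat_lit 7982900)]) (PF.cons (PF.leaf (nat_lit 9218373) (nat_lit 619877) (nat_lit 34041638) (nat_lit 8499388) [(nat_lit 619877), (nat_lit 0), (nat_lit 3730816), (nat_lit 7933199)]) (PF.cons PF.nil PF.nil)))) (PF.cons (PF.cons (PF.leaf (nat_lit 9261701) (nat_lit 1779399) (nat_lit 33674223) (nat_lit 8448805) [(nat_lit 0), (nat_lit 1779399), (nat_lit 3715749), (nat_lit 7887442)]) (PF.cons PF.nil PF.nil)) (PF.cons PF.nil PF.nil))) (PF.cons (PF.cons (PF.cons (PF.leaf (nat_lit 9660015) (nat_lit 3659218) (nat_lit 32419169) (nat_lit 8267080) [(nat_lit 0), (nat_lit 0), (nat_lit 3659218), (nat_lit 7722453)]) (PF.cons PF.nil PF.nil)) (PF.cons PF.nil PF.nil)) (PF.cons PF.nil PF.nil))))) (PF.cons (PF.cons (PF.cons (PF.cons (PF.leaf (nat_lit 7976534) (nat_lit 7951931) (nat_lit 34725170) (nat_lit 8527849) [(nat_lit 0), (nat_lit 0), (nat_lit 0), (nat_lit 7951931)]) (PF.cons (PF.leaf (nat_lit 8286355) (nat_lit 587339) (nat_lit 34313310) (nat_lit 8479802) [(nat_lit 587339), (nat_lit 0),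 (nat_lit 0), (nat_lit 7909453)]) (PF.cons (PF.leaf (nat_lit 8604930) (nat_lit 595436) (nat_lit 33894054) (nat_lit 8429470) [(nat_lit 595436), (nat_lit 0), (nat_lit 0), (nat_lit 7864805)]) (PF.cons (PF.leaf (nat_lit
 8929920) (nat_lit 602203) (nat_lit 33470277) (nat_lit 8377157) [(nat_lit 602203), (nat_lit 0), (nat_lit 0), (nat_lit 7818255)]) (PF.cons PF.nil PF.nil))))) (PF.cons (PF.cons (PF.leaf (nat_lit 8658686) (nat_lit 1738518) (nat_lit 33528087) (nat_lit 8380417) [(nat_lit 0), (nat_lit 1738518), (nat_lit 0), (nat_lit 7820596)]) (PF.cons (PF.leaf (nat_lit 8976088) (nat_lit 599318) (nat_lit 33116385) (nat_lit 8328536) [(nat_lit 599318), (nat_lit 1741544), (nat_lit 0), (nat_lit 7774342)]) (PF.cons (PF.leaf (nat_lit 9299400) (nat_lit 605076) (nat_lit 32701267) (nat_lit 8274870) [(nat_lit 605076), (nat_lit 1743409), (nat_lit 0), (nat_lit 7726370)]) (PF.cons PF.nil PF.nil)))) (PF.cons (PF.cons (PF.leaf (nat_lit 9341100) (nat_lit 1737934) (nat_lit 32360149) (nat_lit 8226133)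 [(nat_lit 0), (nat_lit 1737934), (nat_lit 0), (nat_lit 7682220)]) (PF.cons PF.nil PF.nil)) (PF.cons PF.nil (PF.cons PF.nil PF.nil))))) (PF.cons (PF.cons (PF.cons (PF.leaf (nat_lit 9061722) (nat_lit 3611539) (nat_lit 32301466) (nat_lit 8206479) [(nat_lit 0), (nat_lit 0), (nat_lit 3611539), (nat_lit 7663109)]) (PF.cons (PF.leaf (nat_lit 9373547) (nat_lit 596037) (nat_lit 31910140) (nat_lit 8154004) [(nat_lit 596037), (nat_lit
 0), (nat_lit 3600402), (nat_lit 7616075)]) (PF.cons PF.nil (PF.cons PF.nil PF.nil)))) (PF.cons (PF.cons (PF.leaf (nat_lit 9727769) (nat_lit 1719108) (nat_lit 31194563) (nat_lit 8051601) [(nat_lit 0), (nat_lit 1719108), (nat_lit 3572813), (nat_lit 7523575)]) (PF.cons PF.nil PF.nil)) (PF.cons PF.nil PF.nil))) (PF.cons (PF.cons (PF.cons (PF.leaf (nat_lit 10099069) (nat_lit 3516575) (nat_lit 30096257) (nat_lit 7879444) [(nat_lit 0), (nat_lit 0), (nat_lit 3516575), (nat_lit 7366653)]) (PF.cons PF.nil PF.nil)) (PF.cons PF.nil PF.nil)) PF.nil))) (PF.cons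 (PF.cons (PF.cons (PF.cons (PF.leaf (nat_lit 9520392) (nat_lit 7317210) (nat_lit 30010833) (nat_lit 7829139) [(nat_lit 0), (nat_lit 0), (nat_lit 0), (nat_lit 7317210)]) (PF.cons (PF.leaf (nat_lit 9819116) (nat_lit 577963) (nat_lit 29664847) (nat_lit 7778750) [(nat_lit 577963), (nat_lit 0), (nat_lit 0), (nat_lit 7271812)]) (PF.cons PF.nil PF.nil))) (PF.cons (PF.cons (PF.leaf (nat_lit 10154799) (nat_lit 1660306) (nat_lit 29033431) (nat_lit 7681325) [(nat_lit 0), (nat_lit 1660306), (nat_lit 0), (nat_lit 7183437)]) PF.nil) PF.nil)) (PF.cons PF.nil PF.nil)) (PF.cons PF.nil (PF.cons PF.nil (PF.cons PF.nil (PF.cons PF.nil PF.nil)))))))))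

def p15_29_1_0 : pfC (piC [(nat_lit 35755509), (nat_lit 23968959), (nat_lit 17897616), (nat_lit 12073119)] (nat_lit 10729447)) p15_29_1 (nat_lit 4) (nat_lit 0) (nat_lit 1) = true := by decide +kernel
def p15_29_1_1 : pfC (piC [(nat_lit 35755509), (nat_lit 23968959), (nat_lit 17897616), (nat_lit 12073119)] (nat_lit 10729447)) p15_29_1 (nat_lit 4) (nat_lit 1) (nat_lit 2) = true := by decide +kernel
def p15_29_1_2 : pfC (piC [(nat_lit 35755509), (nat_lit 23968959), (nat_lit 17897616), (nat_lit 12073119)] (nat_lit 10729447)) p15_29_1 (nat_lit 4) (nat_lit 2) (nat_lit 3) = true := by decide +kernel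
def p15_29_1_3 : pfC (piC [(nat_lit 35755509), (nat_lit 23968959), (nat_lit 17897616), (nat_lit 12073119)] (nat_lit 10729447)) p15_29_1 (nat_lit 4) (nat_lit 3) (nat_lit 4) = true := by decide +kernel
def p15_29_1_4 : pfC (piC [(nat_lit 35755509), (nat_lit 23968959), (nat_lit 17897616), (nat_lit 12073119)] (nat_lit 10729447)) p15_29_1 (nat_lit 4) (nat_lit 4) (nat_lit 5) = true := by decide +kernel
def p15_29_1_5 : pfC (piC [(nat_lit 35755509), (nat_lit 23968959), (nat_lit 17897616), (nat_lit 12073119)] (nat_lit 10729447)) p15_29_1 (nat_lit 4) (nat_lit 5) (nat_lit 6) = true := by decide +kernel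
def p15_29_1_6 : pfC (piC [(nat_lit 35755509), (nat_lit 23968959), (nat_lit 17897616), (nat_lit 12073119)] (nat_lit 10729447)) p15_29_1 (nat_lit 4) (nat_lit 6) (nat_lit 7) = true := by decide +kernel
def p15_29_1_7 : pfC (piC [(nat_lit 35755509), (nat_lit 23968959), (nat_lit 17897616), (nat_lit 12073119)] (nat_lit 10729447)) p15_29_1 (nat_lit 4) (nat_lit 7) (nat_lit 8) = true := by decide +kernel
def p15_29_1_8 : pfC (piC [(nat_lit 35755509), (nat_lit 23968959), (nat_lit 17897616), (nat_lit 12073119)] (nat_lit 10729447)) p15_29_1 (nat_lit 4) (nat_lit 8) (nat_lit 9) = true := by decide +kernel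
def p15_29_1_9 : pfC (piC [(nat_lit 35755509), (nat_lit 23968959), (nat_lit 17897616), (nat_lit 12073119)] (nat_lit 10729447)) p15_29_1 (nat_lit 4) (nat_lit 9) (nat_lit 10) = true := by decide +kernel
def p15_29_1_10 : pfC (piC [(nat_lit 35755509), (nat_lit 23968959), (nat_lit 17897616), (nat_lit 12073119)] (nat_lit 10729447)) p15_29_1 (nat_lit 4) (nat_lit 10) (nat_lit 11) = true := by decide +kernel
def p15_29_1_11 : pfC (piC [(nat_lit 35755509), (nat_lit 23968959), (nat_lit 17897616), (nat_lit 12073119)] (nat_lit 10729447)) p15_29_1 (nat_lit 4) (nat_lit 11) (nat_lit 12) = true := by decide +kernel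
def p15_29_1_12 : pfC (piC [(nat_lit 35755509), (nat_lit 23968959), (nat_lit 17897616), (nat_lit 12073119)] (nat_lit 10729447)) p15_29_1 (nat_lit 4) (nat_lit 12) (nat_lit 13) = true := by decide +kernel
def p15_29_1_13 : pfC (piC [(nat_lit 35755509), (nat_lit 23968959), (nat_lit 17897616), (nat_lit 12073119)] (nat_lit 10729447)) p15_29_1 (nat_lit 4) (nat_lit 13) (nat_lit 14) = true := by decide +kernel
def p15_29_1_14 : pfC (piC [(nat_lit 35755509), (nat_lit 23968959), (nat_lit 17897616), (nat_lit 12073119)] (nat_lit 10729447)) p15_29_1 (nat_lit 4) (nat_lit 14) (nat_lit 15) = true := by decide +kernel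
def p15_29_1_15 : pfC (piC [(nat_lit 35755509), (nat_lit 23968959), (nat_lit 17897616), (nat_lit 12073119)] (nat_lit 10729447)) p15_29_1 (nat_lit 4) (nat_lit 15) (nat_lit 16) = true := by decide +kernel
def p15_29_1_16 : pfC (piC [(nat_lit 35755509), (nat_lit 23968959), (nat_lit 17897616), (nat_lit 12073119)] (nat_lit 10729447)) p15_29_1 (nat_lit 4) (nat_lit 16) (nat_lit 17) = true := by decide +kernel
def p15_29_1_17 : pfC (piC [(nat_lit 35755509), (nat_lit 23968959), (nat_lit 17897616), (nat_lit 12073119)] (nat_lit 10729447)) p15_29_1 (nat_lit 4) (nat_lit 17) (nat_lit 18) = true := by decide +kernel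
def p15_29_1_18 : pfC (piC [(nat_lit 35755509), (nat_lit 23968959), (nat_lit 17897616), (nat_lit 12073119)] (nat_lit 10729447)) p15_29_1 (nat_lit 4) (nat_lit 18) (nat_lit 19) = true := by decide +kernel
def p15_29_1_19 : pfC (piC [(nat_lit 35755509), (nat_lit 23968959), (nat_lit 17897616), (nat_lit 12073119)] (nat_lit 10729447)) p15_29_1 (nat_lit 4) (nat_lit 19) (nat_lit 20) = true := by decide +kernel
def p15_29_1_20 : pfC (piC [(nat_lit 35755509), (nat_lit 23968959), (nat_lit 17897616), (nat_lit 12073119)] (nat_lit 10729447)) p15_29_1 (nat_lit 4) (nat_lit 20) (nat_lit 21) = true := by decide +kernel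
def p15_29_1_21 : pfC (piC [(nat_lit 35755509), (nat_lit 23968959), (nat_lit 17897616), (nat_lit 12073119)] (nat_lit 10729447)) p15_29_1 (nat_lit 4) (nat_lit 21) (nat_lit 22) = true := by decide +kernel
def p15_29_1_22 : pfC (piC [(nat_lit 35755509), (nat_lit 23968959), (nat_lit 17897616), (nat_lit 12073119)] (nat_lit 10729447)) p15_29_1 (nat_lit 4) (nat_lit 22) (nat_lit 23) = true := by decide +kernel
def p15_29_1_23 : pfC (piC [(nat_lit 35755509), (nat_lit 23968959), (nat_lit 17897616), (nat_lit 12073119)] (nat_lit 10729447)) p15_29_1 (nat_lit 4) (nat_lit 23) (nat_lit 24) = true := by decide +kernel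
def p15_29_1_24 : pfC (piC [(nat_lit 35755509), (nat_lit 23968959), (nat_lit 17897616), (nat_lit 12073119)] (nat_lit 10729447)) p15_29_1 (nat_lit 4) (nat_lit 24) (nat_lit 25) = true := by decide +kernel
def p15_29_1_25 : pfC (piC [(nat_lit 35755509), (nat_lit 23968959), (nat_lit 17897616), (nat_lit 12073119)] (nat_lit 10729447)) p15_29_1 (nat_lit 4) (nat_lit 25) (nat_lit 26) = true := by decide +kernel
def p15_29_1_26 : pfC (piC [(nat_lit 35755509), (nat_lit 23968959), (nat_lit 17897616), (nat_lit 12073119)] (nat_lit 10729447)) p15_29_1 (nat_lit 4) (nat_lit 26) (nat_lit 27) = true := by decide +kernel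
def p15_29_1_27 : pfC (piC [(nat_lit 35755509), (nat_lit 23968959), (nat_lit 17897616), (nat_lit 12073119)] (nat_lit 10729447)) p15_29_1 (nat_lit 4) (nat_lit 27) (nat_lit 28) = true := by decide +kernel
def p15_29_1_28 : pfC (piC [(nat_lit 35755509), (nat_lit 23968959), (nat_lit 17897616), (nat_lit 12073119)] (nat_lit 10729447)) p15_29_1 (nat_lit 4) (nat_lit 28) (nat_lit 29) = true := by decide +kernel
def p15_29_1_29 : pfC (piC [(nat_lit 35755509), (nat_lit 23968959), (nat_lit 17897616), (nat_lit 12073119)] (nat_lit 10729447)) p15_29_1 (nat_lit 4) (nat_lit 29) (nat_lit 30) = true := by decide +kernel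
def p15_29_1_30 : pfC (piC [(nat_lit 35755509), (nat_lit 23968959), (nat_lit 17897616), (nat_lit 12073119)] (nat_lit 10729447)) p15_29_1 (nat_lit 4) (nat_lit 30) (nat_lit 31) = true := by decide +kernel
def p15_29_1_31 : pfC (piC [(nat_lit 35755509), (nat_lit 23968959), (nat_lit 17897616), (nat_lit 12073119)] (nat_lit 10729447)) p15_29_1 (nat_lit 4) (nat_lit 31) (nat_lit 32) = true := by decide +kernel
def p15_29_1_32 : pfC (piC [(nat_lit 35755509), (nat_lit 23968959), (nat_lit 17897616), (nat_lit 12073119)] (nat_lit 10729447)) p15_29_1 (nat_lit 4) (nat_lit 32) (nat_lit 33) = true := by decide +kernel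
def p15_29_1_33 : pfC (piC [(nat_lit 35755509), (nat_lit 23968959), (nat_lit 17897616), (nat_lit 12073119)] (nat_lit 10729447)) p15_29_1 (nat_lit 4) (nat_lit 33) (nat_lit 34) = true := by decide +kernel
def p15_29_1_34 : pfC (piC [(nat_lit 35755509), (nat_lit 23968959), (nat_lit 17897616), (nat_lit 12073119)] (nat_lit 10729447)) p15_29_1 (nat_lit 4) (nat_lit 34) (nat_lit 35) = true := by decide +kernel
def p15_29_1_35 : pfC (piC [(nat_lit 35755509), (nat_lit 23968959), (nat_lit 17897616), (nat_lit 12073119)] (nat_lit 10729447)) p15_29_1 (nat_lit 4) (nat_lit 35) (nat_lit 36) = true := by decide +kernel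
def p15_29_1_36 : pfC (piC [(nat_lit 35755509), (nat_lit 23968959), (nat_lit 17897616), (nat_lit 12073119)] (nat_lit 10729447)) p15_29_1 (nat_lit 4) (nat_lit 36) (nat_lit 37) = true := by decide +kernel
def p15_29_1_37 : pfC (piC [(nat_lit 35755509), (nat_lit 23968959), (nat_lit 17897616), (nat_lit 12073119)] (nat_lit 10729447)) p15_29_1 (nat_lit 4) (nat_lit 37) (nat_lit 38) = true := by decide +kernel
def p15_29_1_38 : pfC (piC [(nat_lit 35755509), (nat_lit 23968959), (nat_lit 17897616), (nat_lit 12073119)] (nat_lit 10729447)) p15_29_1 (nat_lit 4) (nat_lit 38) (nat_lit 39) = true := by decide +kernel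
def p15_29_1_39 : pfC (piC [(nat_lit 35755509), (nat_lit 23968959), (nat_lit 17897616), (nat_lit 12073119)] (nat_lit 10729447)) p15_29_1 (nat_lit 4) (nat_lit 39) (nat_lit 40) = true := by decide +kernel
def p15_29_1_40 : pfC (piC [(nat_lit 35755509), (nat_lit 23968959), (nat_lit 17897616), (nat_lit 12073119)] (nat_lit 10729447)) p15_29_1 (nat_lit 4) (nat_lit 40) (nat_lit 41) = true := by decide +kernel
def p15_29_1_41 : pfC (piC [(nat_lit 35755509), (nat_lit 23968959), (nat_lit 17897616), (nat_lit 12073119)] (nat_lit 10729447)) p15_29_1 (nat_lit 4) (nat_lit 41) (nat_lit 42) = true := by decide +kernel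
def p15_29_1_42 : pfC (piC [(nat_lit 35755509), (nat_lit 23968959), (nat_lit 17897616), (nat_lit 12073119)] (nat_lit 10729447)) p15_29_1 (nat_lit 4) (nat_lit 42) (nat_lit 43) = true := by decide +kernel
def p15_29_1_43 : pfC (piC [(nat_lit 35755509), (nat_lit 23968959), (nat_lit 17897616), (nat_lit 12073119)] (nat_lit 10729447)) p15_29_1 (nat_lit 4) (nat_lit 43) (nat_lit 44) = true := by decide +kernel
def p15_29_1_44 : pfC (piC [(nat_lit 35755509), (nat_lit 23968959), (nat_lit 17897616), (nat_lit 12073119)] (nat_lit 10729447)) p15_29_1 (nat_lit 4) (nat_lit 44) (nat_lit 45) = true := by decide +kernel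
def p15_29_1_45 : pfC (piC [(nat_lit 35755509), (nat_lit 23968959), (nat_lit 17897616), (nat_lit 12073119)] (nat_lit 10729447)) p15_29_1 (nat_lit 4) (nat_lit 45) (nat_lit 46) = true := by decide +kernel
def p15_29_1_46 : pfC (piC [(nat_lit 35755509), (nat_lit 23968959), (nat_lit 17897616), (nat_lit 12073119)] (nat_lit 10729447)) p15_29_1 (nat_lit 4) (nat_lit 46) (nat_lit 47) = true := by decide +kernel
def p15_29_1_47 : pfC (piC [(nat_lit 35755509), (nat_lit 23968959), (nat_lit 17897616), (nat_lit 12073119)] (nat_lit 10729447)) p15_29_1 (nat_lit 4) (nat_lit 47) (nat_lit 48) = true := by decide +kernel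
def p15_29_1_48 : pfC (piC [(nat_lit 35755509), (nat_lit 23968959), (nat_lit 17897616), (nat_lit 12073119)] (nat_lit 10729447)) p15_29_1 (nat_lit 4) (nat_lit 48) (nat_lit 49) = true := by decide +kernel
def p15_29_1_49 : pfC (piC [(nat_lit 35755509), (nat_lit 23968959), (nat_lit 17897616), (nat_lit 12073119)] (nat_lit 10729447)) p15_29_1 (nat_lit 4) (nat_lit 49) (nat_lit 50) = true := by decide +kernel
def p15_29_1_50 : pfC (piC [(nat_lit 35755509), (nat_lit 23968959), (nat_lit 17897616), (nat_lit 12073119)] (nat_lit 10729447)) p15_29_1 (nat_lit 4) (nat_lit 50) (nat_lit 51) = true := by decide +kernel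
def p15_29_1_51 : pfC (piC [(nat_lit 35755509), (nat_lit 23968959), (nat_lit 17897616), (nat_lit 12073119)] (nat_lit 10729447)) p15_29_1 (nat_lit 4) (nat_lit 51) (nat_lit 52) = true := by decide +kernel
def p15_29_1_52 : pfC (piC [(nat_lit 35755509), (nat_lit 23968959), (nat_lit 17897616), (nat_lit 12073119)] (nat_lit 10729447)) p15_29_1 (nat_lit 4) (nat_lit 52) (nat_lit 53) = true := by decide +kernel
def p15_29_1_53 : pfC (piC [(nat_lit 35755509), (nat_lit 23968959), (nat_lit 17897616), (nat_lit 12073119)] (nat_lit 10729447)) p15_29_1 (nat_lit 4) (nat_lit 53) (nat_lit 54) = true := by decide +kernel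
def p15_29_1_54 : pfC (piC [(nat_lit 35755509), (nat_lit 23968959), (nat_lit 17897616), (nat_lit 12073119)] (nat_lit 10729447)) p15_29_1 (nat_lit 4) (nat_lit 54) (nat_lit 55) = true := by decide +kernel
def p15_29_1_55 : pfC (piC [(nat_lit 35755509), (nat_lit 23968959), (nat_lit 17897616), (nat_lit 12073119)] (nat_lit 10729447)) p15_29_1 (nat_lit 4) (nat_lit 55) (nat_lit 56) = true := by decide +kernel
def p15_29_1_56 : pfC (piC [(nat_lit 35755509), (nat_lit 23968959), (nat_lit 17897616), (nat_lit 12073119)] (nat_lit 10729447)) p15_29_1 (nat_lit 4) (nat_lit 56) (nat_lit 57) = true := by decide +kernel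
def p15_29_1_57 : pfC (piC [(nat_lit 35755509), (nat_lit 23968959), (nat_lit 17897616), (nat_lit 12073119)] (nat_lit 10729447)) p15_29_1 (nat_lit 4) (nat_lit 57) (nat_lit 58) = true := by decide +kernel
def p15_29_1_58 : pfC (piC [(nat_lit 35755509), (nat_lit 23968959), (nat_lit 17897616), (nat_lit 12073119)] (nat_lit 10729447)) p15_29_1 (nat_lit 4) (nat_lit 58) (nat_lit 59) = true := by decide +kernel
def p15_29_1_59 : pfC (piC [(nat_lit 35755509), (nat_lit 23968959), (nat_lit 17897616), (nat_lit 12073119)] (nat_lit 10729447)) p15_29_1 (nat_lit 4) (nat_lit 59) (nat_lit 60) = true := by decide +kernel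
def p15_29_1_60 : pfC (piC [(nat_lit 35755509), (nat_lit 23968959), (nat_lit 17897616), (nat_lit 12073119)] (nat_lit 10729447)) p15_29_1 (nat_lit 4) (nat_lit 60) (nat_lit 61) = true := by decide +kernel
def p15_29_1_61 : pfC (piC [(nat_lit 35755509), (nat_lit 23968959), (nat_lit 17897616), (nat_lit 12073119)] (nat_lit 10729447)) p15_29_1 (nat_lit 4) (nat_lit 61) (nat_lit 62) = true := by decide +kernel
def p15_29_1_62 : pfC (piC [(nat_lit 35755509), (nat_lit 23968959), (nat_lit 17897616), (nat_lit 12073119)] (nat_lit 10729447)) p15_29_1 (nat_lit 4) (nat_lit 62) (nat_lit 63) = true := by decide +kernel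
def p15_29_1_63 : pfC (piC [(nat_lit 35755509), (nat_lit 23968959), (nat_lit 17897616), (nat_lit 12073119)] (nat_lit 10729447)) p15_29_1 (nat_lit 4) (nat_lit 63) (nat_lit 64) = true := by decide +kernel
def p15_29_1_64 : pfC (piC [(nat_lit 35755509), (nat_lit 23968959), (nat_lit 17897616), (nat_lit 12073119)] (nat_lit 10729447)) p15_29_1 (nat_lit 4) (nat_lit 64) (nat_lit 65) = true := by decide +kernel
def p15_29_1_65 : pfC (piC [(nat_lit 35755509), (nat_lit 23968959), (nat_lit 17897616), (nat_lit 12073119)] (nat_lit 10729447)) p15_29_1 (nat_lit 4) (nat_lit 65) (nat_lit 66) = true := by decide +kernel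
def p15_29_1_66 : pfC (piC [(nat_lit 35755509), (nat_lit 23968959), (nat_lit 17897616), (nat_lit 12073119)] (nat_lit 10729447)) p15_29_1 (nat_lit 4) (nat_lit 66) (nat_lit 67) = true := by decide +kernel
def p15_29_1_67 : pfC (piC [(nat_lit 35755509), (nat_lit 23968959), (nat_lit 17897616), (nat_lit 12073119)] (nat_lit 10729447)) p15_29_1 (nat_lit 4) (nat_lit 67) (nat_lit 68) = true := by decide +kernel
def p15_29_1_68 : pfC (piC [(nat_lit 35755509), (nat_lit 23968959), (nat_lit 17897616), (nat_lit 12073119)] (nat_lit 10729447)) p15_29_1 (nat_lit 4) (nat_lit 68) (nat_lit 69) = true := by decide +kernel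
def p15_29_1_69 : pfC (piC [(nat_lit 35755509), (nat_lit 23968959), (nat_lit 17897616), (nat_lit 12073119)] (nat_lit 10729447)) p15_29_1 (nat_lit 4) (nat_lit 69) (nat_lit 70) = true := by decide +kernel
def p15_29_1_70 : pfC (piC [(nat_lit 35755509), (nat_lit 23968959), (nat_lit 17897616), (nat_lit 12073119)] (nat_lit 10729447)) p15_29_1 (nat_lit 4) (nat_lit 70) (nat_lit 71) = true := by decide +kernel
def p15_29_1_71 : pfC (piC [(nat_lit 35755509), (nat_lit 23968959), (nat_lit 17897616), (nat_lit 12073119)] (nat_lit 10729447)) p15_29_1 (nat_lit 4) (nat_lit 71) (nat_lit 72) = true := by decide +kernel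
def p15_29_1_72 : pfC (piC [(nat_lit 35755509), (nat_lit 23968959), (nat_lit 17897616), (nat_lit 12073119)] (nat_lit 10729447)) p15_29_1 (nat_lit 4) (nat_lit 72) (nat_lit 73) = true := by decide +kernel
def p15_29_1_73 : pfC (piC [(nat_lit 35755509), (nat_lit 23968959), (nat_lit 17897616), (nat_lit 12073119)] (nat_lit 10729447)) p15_29_1 (nat_lit 4) (nat_lit 73) (nat_lit 74) = true := by decide +kernel
def p15_29_1_74 : pfC (piC [(nat_lit 35755509), (nat_lit 23968959), (nat_lit 17897616), (nat_lit 12073119)] (nat_lit 10729447)) p15_29_1 (nat_lit 4) (nat_lit 74) (nat_lit 75) = true := by decide +kernel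
def p15_29_1_75 : pfC (piC [(nat_lit 35755509), (nat_lit 23968959), (nat_lit 17897616), (nat_lit 12073119)] (nat_lit 10729447)) p15_29_1 (nat_lit 4) (nat_lit 75) (nat_lit 76) = true := by decide +kernel
def p15_29_1_76 : pfC (piC [(nat_lit 35755509), (nat_lit 23968959), (nat_lit 17897616), (nat_lit 12073119)] (nat_lit 10729447)) p15_29_1 (nat_lit 4) (nat_lit 76) (nat_lit 77) = true := by decide +kernel
def p15_29_1_77 : pfC (piC [(nat_lit 35755509), (nat_lit 23968959), (nat_lit 17897616), (nat_lit 12073119)] (nat_lit 10729447)) p15_29_1 (nat_lit 4) (nat_lit 77) (nat_lit 78) = true := by decide +kernel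
def p15_29_1_78 : pfC (piC [(nat_lit 35755509), (nat_lit 23968959), (nat_lit 17897616), (nat_lit 12073119)] (nat_lit 10729447)) p15_29_1 (nat_lit 4) (nat_lit 78) (nat_lit 79) = true := by decide +kernel
def p15_29_1_79 : pfC (piC [(nat_lit 35755509), (nat_lit 23968959), (nat_lit 17897616), (nat_lit 12073119)] (nat_lit 10729447)) p15_29_1 (nat_lit 4) (nat_lit 79) (nat_lit 80) = true := by decide +kernel
def p15_29_1_80 : pfC (piC [(nat_lit 35755509), (nat_lit 23968959), (nat_lit 17897616), (nat_lit 12073119)] (nat_lit 10729447)) p15_29_1 (nat_lit 4) (nat_lit 80) (nat_lit 81) = true := by decide +kernel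
def p15_29_1_81 : pfC (piC [(nat_lit 35755509), (nat_lit 23968959), (nat_lit 17897616), (nat_lit 12073119)] (nat_lit 10729447)) p15_29_1 (nat_lit 4) (nat_lit 81) (nat_lit 82) = true := by decide +kernel
def p15_29_1_82 : pfC (piC [(nat_lit 35755509), (nat_lit 23968959), (nat_lit 17897616), (nat_lit 12073119)] (nat_lit 10729447)) p15_29_1 (nat_lit 4) (nat_lit 82) (nat_lit 83) = true := by decide +kernel
def p15_29_1_83 : pfC (piC [(nat_lit 35755509), (nat_lit 23968959), (nat_lit 17897616), (nat_lit 12073119)] (nat_lit 10729447)) p15_29_1 (nat_lit 4) (nat_lit 83) (nat_lit 84) = true := by decide +kernel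
def p15_29_1_84 : pfC (piC [(nat_lit 35755509), (nat_lit 23968959), (nat_lit 17897616), (nat_lit 12073119)] (nat_lit 10729447)) p15_29_1 (nat_lit 4) (nat_lit 84) (nat_lit 85) = true := by decide +kernel
def p15_29_1_85 : pfC (piC [(nat_lit 35755509), (nat_lit 23968959), (nat_lit 17897616), (nat_lit 12073119)] (nat_lit 10729447)) p15_29_1 (nat_lit 4) (nat_lit 85) (nat_lit 86) = true := by decide +kernel
def p15_29_1_86 : pfC (piC [(nat_lit 35755509), (nat_lit 23968959), (nat_lit 17897616), (nat_lit 12073119)] (nat_lit 10729447)) p15_29_1 (nat_lit 4) (nat_lit 86) (nat_lit 87) = true := by decide +kernel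
def p15_29_1_87 : pfC (piC [(nat_lit 35755509), (nat_lit 23968959), (nat_lit 17897616), (nat_lit 12073119)] (nat_lit 10729447)) p15_29_1 (nat_lit 4) (nat_lit 87) (nat_lit 88) = true := by decide +kernel
def p15_29_1_88 : pfC (piC [(nat_lit 35755509), (nat_lit 23968959), (nat_lit 17897616), (nat_lit 12073119)] (nat_lit 10729447)) p15_29_1 (nat_lit 4) (nat_lit 88) (nat_lit 89) = true := by decide +kernel
def p15_29_1_89 : pfC (piC [(nat_lit 35755509), (nat_lit 23968959), (nat_lit 17897616), (nat_lit 12073119)] (nat_lit 10729447)) p15_29_1 (nat_lit 4) (nat_lit 89) (nat_lit 90) = true := by decide +kernel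
def p15_29_1_90 : pfC (piC [(nat_lit 35755509), (nat_lit 23968959), (nat_lit 17897616), (nat_lit 12073119)] (nat_lit 10729447)) p15_29_1 (nat_lit 4) (nat_lit 90) (nat_lit 91) = true := by decide +kernel
def p15_29_1_91 : pfC (piC [(nat_lit 35755509), (nat_lit 23968959), (nat_lit 17897616), (nat_lit 12073119)] (nat_lit 10729447)) p15_29_1 (nat_lit 4) (nat_lit 91) (nat_lit 92) = true := by decide +kernel
def p15_29_1_92 : pfC (piC [(nat_lit 35755509), (nat_lit 23968959), (nat_lit 17897616), (nat_lit 12073119)] (nat_lit 10729447)) p15_29_1 (nat_lit 4) (nat_lit 92) (nat_lit 93) = true := by decide +kernel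
def p15_29_1_93 : pfC (piC [(nat_lit 35755509), (nat_lit 23968959), (nat_lit 17897616), (nat_lit 12073119)] (nat_lit 10729447)) p15_29_1 (nat_lit 4) (nat_lit 93) (nat_lit 94) = true := by decide +kernel
def p15_29_1_94 : pfC (piC [(nat_lit 35755509), (nat_lit 23968959), (nat_lit 17897616), (nat_lit 12073119)] (nat_lit 10729447)) p15_29_1 (nat_lit 4) (nat_lit 94) (nat_lit 95) = true := by decide +kernel
def p15_29_1_95 : pfC (piC [(nat_lit 35755509), (nat_lit 23968959), (nat_lit 17897616), (nat_lit 12073119)] (nat_lit 10729447)) p15_29_1 (nat_lit 4) (nat_lit 95) (nat_lit 96) = true := by decide +kernel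
def p15_29_1_96 : pfC (piC [(nat_lit 35755509), (nat_lit 23968959), (nat_lit 17897616), (nat_lit 12073119)] (nat_lit 10729447)) p15_29_1 (nat_lit 4) (nat_lit 96) (nat_lit 97) = true := by decide +kernel
def p15_29_1_97 : pfC (piC [(nat_lit 35755509), (nat_lit 23968959), (nat_lit 17897616), (nat_lit 12073119)] (nat_lit 10729447)) p15_29_1 (nat_lit 4) (nat_lit 97) (nat_lit 98) = true := by decide +kernel
def p15_29_1_98 : pfC (piC [(nat_lit 35755509), (nat_lit 23968959), (nat_lit 17897616), (nat_lit 12073119)] (nat_lit 10729447)) p15_29_1 (nat_lit 4) (nat_lit 98) (nat_lit 99) = true := by decide +kernel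
def p15_29_1_99 : pfC (piC [(nat_lit 35755509), (nat_lit 23968959), (nat_lit 17897616), (nat_lit 12073119)] (nat_lit 10729447)) p15_29_1 (nat_lit 4) (nat_lit 99) (nat_lit 100) = true := by decide +kernel
def p15_29_1_100 : pfC (piC [(nat_lit 35755509), (nat_lit 23968959), (nat_lit 17897616), (nat_lit 12073119)] (nat_lit 10729447)) p15_29_1 (nat_lit 4) (nat_lit 100) (nat_lit 101) = true := by decide +kernel
def p15_29_1_101 : pfC (piC [(nat_lit 35755509), (nat_lit 23968959), (nat_lit 17897616), (nat_lit 12073119)] (nat_lit 10729447)) p15_29_1 (nat_lit 4) (nat_lit 101) (nat_lit 102) = true := by decide +kernel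
def p15_29_1_102 : pfC (piC [(nat_lit 35755509), (nat_lit 23968959), (nat_lit 17897616), (nat_lit 12073119)] (nat_lit 10729447)) p15_29_1 (nat_lit 4) (nat_lit 102) (nat_lit 103) = true := by decide +kernel
def p15_29_1_103 : pfC (piC [(nat_lit 35755509), (nat_lit 23968959), (nat_lit 17897616), (nat_lit 12073119)] (nat_lit 10729447)) p15_29_1 (nat_lit 4) (nat_lit 103) (nat_lit 104) = true := by decide +kernel
def p15_29_1_104 : pfC (piC [(nat_lit 35755509), (nat_lit 23968959), (nat_lit 17897616), (nat_lit 12073119)] (nat_lit 10729447)) p15_29_1 (nat_lit 4) (nat_lit 104) (nat_lit 105) = true := by decide +kernel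
def p15_29_1_105 : pfC (piC [(nat_lit 35755509), (nat_lit 23968959), (nat_lit 17897616), (nat_lit 12073119)] (nat_lit 10729447)) p15_29_1 (nat_lit 4) (nat_lit 105) (nat_lit 106) = true := by decide +kernel
def p15_29_1_106 : pfC (piC [(nat_lit 35755509), (nat_lit 23968959), (nat_lit 17897616), (nat_lit 12073119)] (nat_lit 10729447)) p15_29_1 (nat_lit 4) (nat_lit 106) (nat_lit 107) = true := by decide +kernel
def p15_29_1_107 : pfC (piC [(nat_lit 35755509), (nat_lit 23968959), (nat_lit 17897616), (nat_lit 12073119)] (nat_lit 10729447)) p15_29_1 (nat_lit 4) (nat_lit 107) (nat_lit 108) = true := by decide +kernel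
def p15_29_1_108 : pfC (piC [(nat_lit 35755509), (nat_lit 23968959), (nat_lit 17897616), (nat_lit 12073119)] (nat_lit 10729447)) p15_29_1 (nat_lit 4) (nat_lit 108) (nat_lit 109) = true := by decide +kernel
def p15_29_1_109 : pfC (piC [(nat_lit 35755509), (nat_lit 23968959), (nat_lit 17897616), (nat_lit 12073119)] (nat_lit 10729447)) p15_29_1 (nat_lit 4) (nat_lit 109) (nat_lit 110) = true := by decide +kernel
def p15_29_1_110 : pfC (piC [(nat_lit 35755509), (nat_lit 23968959), (nat_lit 17897616), (nat_lit 12073119)] (nat_lit 10729447)) p15_29_1 (nat_lit 4) (nat_lit 110) (nat_lit 111) = true := by decide +kernel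
def p15_29_1_111 : pfC (piC [(nat_lit 35755509), (nat_lit 23968959), (nat_lit 17897616), (nat_lit 12073119)] (nat_lit 10729447)) p15_29_1 (nat_lit 4) (nat_lit 111) (nat_lit 112) = true := by decide +kernel
def p15_29_1_112 : pfC (piC [(nat_lit 35755509), (nat_lit 23968959), (nat_lit 17897616), (nat_lit 12073119)] (nat_lit 10729447)) p15_29_1 (nat_lit 4) (nat_lit 112) (nat_lit 113) = true := by decide +kernel
def p15_29_1_113 : pfC (piC [(nat_lit 35755509), (nat_lit 23968959), (nat_lit 17897616), (nat_lit 12073119)] (nat_lit 10729447)) p15_29_1 (nat_lit 4) (nat_lit 113) (nat_lit 114) = true := by decide +kernel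
def p15_29_1_114 : pfC (piC [(nat_lit 35755509), (nat_lit 23968959), (nat_lit 17897616), (nat_lit 12073119)] (nat_lit 10729447)) p15_29_1 (nat_lit 4) (nat_lit 114) (nat_lit 115) = true := by decide +kernel
def p15_29_1_115 : pfC (piC [(nat_lit 35755509), (nat_lit 23968959), (nat_lit 17897616), (nat_lit 12073119)] (nat_lit 10729447)) p15_29_1 (nat_lit 4) (nat_lit 115) (nat_lit 116) = true := by decide +kernel
def p15_29_1_116 : pfC (piC [(nat_lit 35755509), (nat_lit 23968959), (nat_lit 17897616), (nat_lit 12073119)] (nat_lit 10729447)) p15_29_1 (nat_lit 4) (nat_lit 116) (nat_lit 117) = true := by decide +kernel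
def p15_29_1_117 : pfC (piC [(nat_lit 35755509), (nat_lit 23968959), (nat_lit 17897616), (nat_lit 12073119)] (nat_lit 10729447)) p15_29_1 (nat_lit 4) (nat_lit 117) (nat_lit 118) = true := by decide +kernel
def p15_29_1_118 : pfC (piC [(nat_lit 35755509), (nat_lit 23968959), (nat_lit 17897616), (nat_lit 12073119)] (nat_lit 10729447)) p15_29_1 (nat_lit 4) (nat_lit 118) (nat_lit 119) = true := by decide +kernel
def p15_29_1_119 : pfC (piC [(nat_lit 35755509), (nat_lit 23968959), (nat_lit 17897616), (nat_lit 12073119)] (nat_lit 10729447)) p15_29_1 (nat_lit 4) (nat_lit 119) (nat_lit 120) = true := by decide +kernel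
def p15_29_1_120 : pfC (piC [(nat_lit 35755509), (nat_lit 23968959), (nat_lit 17897616), (nat_lit 12073119)] (nat_lit 10729447)) p15_29_1 (nat_lit 4) (nat_lit 120) (nat_lit 121) = true := by decide +kernel
def p15_29_1_121 : pfC (piC [(nat_lit 35755509), (nat_lit 23968959), (nat_lit 17897616), (nat_lit 12073119)] (nat_lit 10729447)) p15_29_1 (nat_lit 4) (nat_lit 121) (nat_lit 122) = true := by decide +kernel
def p15_29_1_122 : pfC (piC [(nat_lit 35755509), (nat_lit 23968959), (nat_lit 17897616), (nat_lit 12073119)] (nat_lit 10729447)) p15_29_1 (nat_lit 4) (nat_lit 122) (nat_lit 123) = true := by decide +kernel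
def p15_29_1_123 : pfC (piC [(nat_lit 35755509), (nat_lit 23968959), (nat_lit 17897616), (nat_lit 12073119)] (nat_lit 10729447)) p15_29_1 (nat_lit 4) (nat_lit 123) (nat_lit 124) = true := by decide +kernel
def p15_29_1_124 : pfC (piC [(nat_lit 35755509), (nat_lit 23968959), (nat_lit 17897616), (nat_lit 12073119)] (nat_lit 10729447)) p15_29_1 (nat_lit 4) (nat_lit 124) (nat_lit 125) = true := by decide +kernel
def p15_29_1_125 : pfC (piC [(nat_lit 35755509), (nat_lit 23968959), (nat_lit 17897616), (nat_lit 12073119)] (nat_lit 10729447)) p15_29_1 (nat_lit 4) (nat_lit 125) (nat_lit 126) = true := by decide +kernel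
def p15_29_1_126 : pfC (piC [(nat_lit 35755509), (nat_lit 23968959), (nat_lit 17897616), (nat_lit 12073119)] (nat_lit 10729447)) p15_29_1 (nat_lit 4) (nat_lit 126) (nat_lit 127) = true := by decide +kernel
def p15_29_1_127 : pfC (piC [(nat_lit 35755509), (nat_lit 23968959), (nat_lit 17897616), (nat_lit 12073119)] (nat_lit 10729447)) p15_29_1 (nat_lit 4) (nat_lit 127) (nat_lit 128) = true := by decide +kernel
def p15_29_1_128 : pfC (piC [(nat_lit 35755509), (nat_lit 23968959), (nat_lit 17897616), (nat_lit 12073119)] (nat_lit 10729447)) p15_29_1 (nat_lit 4) (nat_lit 128) (nat_lit 129) = true := by decide +kernel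
def p15_29_1_129 : pfC (piC [(nat_lit 35755509), (nat_lit 23968959), (nat_lit 17897616), (nat_lit 12073119)] (nat_lit 10729447)) p15_29_1 (nat_lit 4) (nat_lit 129) (nat_lit 130) = true := by decide +kernel
def p15_29_1_130 : pfC (piC [(nat_lit 35755509), (nat_lit 23968959), (nat_lit 17897616), (nat_lit 12073119)] (nat_lit 10729447)) p15_29_1 (nat_lit 4) (nat_lit 130) (nat_lit 131) = true := by decide +kernel
def p15_29_1_131 : pfC (piC [(nat_lit 35755509), (nat_lit 23968959), (nat_lit 17897616), (nat_lit 12073119)] (nat_lit 10729447)) p15_29_1 (nat_lit 4) (nat_lit 131) (nat_lit 132) = true := by decide +kernel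
def p15_29_1_132 : pfC (piC [(nat_lit 35755509), (nat_lit 23968959), (nat_lit 17897616), (nat_lit 12073119)] (nat_lit 10729447)) p15_29_1 (nat_lit 4) (nat_lit 132) (nat_lit 133) = true := by decide +kernel
def p15_29_1_133 : pfC (piC [(nat_lit 35755509), (nat_lit 23968959), (nat_lit 17897616), (nat_lit 12073119)] (nat_lit 10729447)) p15_29_1 (nat_lit 4) (nat_lit 133) (nat_lit 134) = true := by decide +kernel
def p15_29_1_134 : pfC (piC [(nat_lit 35755509), (nat_lit 23968959), (nat_lit 17897616), (nat_lit 12073119)] (nat_lit 10729447)) p15_29_1 (nat_lit 4) (nat_lit 134) (nat_lit 135) = true := by decide +kernel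
def p15_29_1_135 : pfC (piC [(nat_lit 35755509), (nat_lit 23968959), (nat_lit 17897616), (nat_lit 12073119)] (nat_lit 10729447)) p15_29_1 (nat_lit 4) (nat_lit 135) (nat_lit 136) = true := by decide +kernel
def p15_29_1_136 : pfC (piC [(nat_lit 35755509), (nat_lit 23968959), (nat_lit 17897616), (nat_lit 12073119)] (nat_lit 10729447)) p15_29_1 (nat_lit 4) (nat_lit 136) (nat_lit 137) = true := by decide +kernel
def p15_29_1_137 : pfC (piC [(nat_lit 35755509), (nat_lit 23968959), (nat_lit 17897616), (nat_lit 12073119)] (nat_lit 10729447)) p15_29_1 (nat_lit 4) (nat_lit 137) (nat_lit 138) = true := by decide +kernel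
def p15_29_1_138 : pfC (piC [(nat_lit 35755509), (nat_lit 23968959), (nat_lit 17897616), (nat_lit 12073119)] (nat_lit 10729447)) p15_29_1 (nat_lit 4) (nat_lit 138) (nat_lit 139) = true := by decide +kernel
def p15_29_1_139 : pfC (piC [(nat_lit 35755509), (nat_lit 23968959), (nat_lit 17897616), (nat_lit 12073119)] (nat_lit 10729447)) p15_29_1 (nat_lit 4) (nat_lit 139) (nat_lit 140) = true := by decide +kernel
def p15_29_1_140 : pfC (piC [(nat_lit 35755509), (nat_lit 23968959), (nat_lit 17897616), (nat_lit 12073119)] (nat_lit 10729447)) p15_29_1 (nat_lit 4) (nat_lit 140) (nat_lit 141) = true := by decide +kernel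
def p15_29_1_141 : pfC (piC [(nat_lit 35755509), (nat_lit 23968959), (nat_lit 17897616), (nat_lit 12073119)] (nat_lit 10729447)) p15_29_1 (nat_lit 4) (nat_lit 141) (nat_lit 142) = true := by decide +kernel
def p15_29_1_142 : pfC (piC [(nat_lit 35755509), (nat_lit 23968959), (nat_lit 17897616), (nat_lit 12073119)] (nat_lit 10729447)) p15_29_1 (nat_lit 4) (nat_lit 142) (nat_lit 143) = true := by decide +kernel
def p15_29_1_143 : pfC (piC [(nat_lit 35755509), (nat_lit 23968959), (nat_lit 17897616), (nat_lit 12073119)] (nat_lit 10729447)) p15_29_1 (nat_lit 4) (nat_lit 143) (nat_lit 144) = true := by decide +kernel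
def p15_29_1_144 : pfC (piC [(nat_lit 35755509), (nat_lit 23968959), (nat_lit 17897616), (nat_lit 12073119)] (nat_lit 10729447)) p15_29_1 (nat_lit 4) (nat_lit 144) (nat_lit 145) = true := by decide +kernel
def p15_29_1_145 : pfC (piC [(nat_lit 35755509), (nat_lit 23968959), (nat_lit 17897616), (nat_lit 12073119)] (nat_lit 10729447)) p15_29_1 (nat_lit 4) (nat_lit 145) (nat_lit 146) = true := by decide +kernel
def p15_29_1_146 : pfC (piC [(nat_lit 35755509), (nat_lit 23968959), (nat_lit 17897616), (nat_lit 12073119)] (nat_lit 10729447)) p15_29_1 (nat_lit 4) (nat_lit 146) (nat_lit 147) = true := by decide +kernel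
def p15_29_1_147 : pfC (piC [(nat_lit 35755509), (nat_lit 23968959), (nat_lit 17897616), (nat_lit 12073119)] (nat_lit 10729447)) p15_29_1 (nat_lit 4) (nat_lit 147) (nat_lit 148) = true := by decide +kernel
def p15_29_1_148 : pfC (piC [(nat_lit 35755509), (nat_lit 23968959), (nat_lit 17897616), (nat_lit 12073119)] (nat_lit 10729447)) p15_29_1 (nat_lit 4) (nat_lit 148) (nat_lit 149) = true := by decide +kernel
def p15_29_1_149 : pfC (piC [(nat_lit 35755509), (nat_lit 23968959), (nat_lit 17897616), (nat_lit 12073119)] (nat_lit 10729447)) p15_29_1 (nat_lit 4) (nat_lit 149) (nat_lit 150) = true := by decide +kernel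
def p15_29_1_150 : pfC (piC [(nat_lit 35755509), (nat_lit 23968959), (nat_lit 17897616), (nat_lit 12073119)] (nat_lit 10729447)) p15_29_1 (nat_lit 4) (nat_lit 150) (nat_lit 151) = true := by decide +kernel
def p15_29_1_151 : pfC (piC [(nat_lit 35755509), (nat_lit 23968959), (nat_lit 17897616), (nat_lit 12073119)] (nat_lit 10729447)) p15_29_1 (nat_lit 4) (nat_lit 151) (nat_lit 152) = true := by decide +kernel
def p15_29_1_152 : pfC (piC [(nat_lit 35755509), (nat_lit 23968959), (nat_lit 17897616), (nat_lit 12073119)] (nat_lit 10729447)) p15_29_1 (nat_lit 4) (nat_lit 152) (nat_lit 153) = true := by decide +kernel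
def p15_29_1_153 : pfC (piC [(nat_lit 35755509), (nat_lit 23968959), (nat_lit 17897616), (nat_lit 12073119)] (nat_lit 10729447)) p15_29_1 (nat_lit 4) (nat_lit 153) (nat_lit 154) = true := by decide +kernel
def p15_29_1_154 : pfC (piC [(nat_lit 35755509), (nat_lit 23968959), (nat_lit 17897616), (nat_lit 12073119)] (nat_lit 10729447)) p15_29_1 (nat_lit 4) (nat_lit 154) (nat_lit 155) = true := by decide +kernel
def p15_29_1_155 : pfC (piC [(nat_lit 35755509), (nat_lit 23968959), (nat_lit 17897616), (nat_lit 12073119)] (nat_lit 10729447)) p15_29_1 (nat_lit 4) (nat_lit 155) (nat_lit 156) = true := by decide +kernel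
def p15_29_1_156 : pfC (piC [(nat_lit 35755509), (nat_lit 23968959), (nat_lit 17897616), (nat_lit 12073119)] (nat_lit 10729447)) p15_29_1 (nat_lit 4) (nat_lit 156) (nat_lit 157) = true := by decide +kernel
def p15_29_1_157 : pfC (piC [(nat_lit 35755509), (nat_lit 23968959), (nat_lit 17897616), (nat_lit 12073119)] (nat_lit 10729447)) p15_29_1 (nat_lit 4) (nat_lit 157) (nat_lit 158) = true := by decide +kernel
def p15_29_1_158 : pfC (piC [(nat_lit 35755509), (nat_lit 23968959), (nat_lit 17897616), (nat_lit 12073119)] (nat_lit 10729447)) p15_29_1 (nat_lit 4) (nat_lit 158) (nat_lit 159) = true := by decide +kernel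
def p15_29_1_159 : pfC (piC [(nat_lit 35755509), (nat_lit 23968959), (nat_lit 17897616), (nat_lit 12073119)] (nat_lit 10729447)) p15_29_1 (nat_lit 4) (nat_lit 159) (nat_lit 160) = true := by decide +kernel
def p15_29_1_160 : pfC (piC [(nat_lit 35755509), (nat_lit 23968959), (nat_lit 17897616), (nat_lit 12073119)] (nat_lit 10729447)) p15_29_1 (nat_lit 4) (nat_lit 160) (nat_lit 161) = true := by decide +kernel
def p15_29_1_161 : pfC (piC [(nat_lit 35755509), (nat_lit 23968959), (nat_lit 17897616), (nat_lit 12073119)] (nat_lit 10729447)) p15_29_1 (nat_lit 4) (nat_lit 161) (nat_lit 162) = true := by decide +kernel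
def p15_29_1_162 : pfC (piC [(nat_lit 35755509), (nat_lit 23968959), (nat_lit 17897616), (nat_lit 12073119)] (nat_lit 10729447)) p15_29_1 (nat_lit 4) (nat_lit 162) (nat_lit 163) = true := by decide +kernel
def p15_29_1_163 : pfC (piC [(nat_lit 35755509), (nat_lit 23968959), (nat_lit 17897616), (nat_lit 12073119)] (nat_lit 10729447)) p15_29_1 (nat_lit 4) (nat_lit 163) (nat_lit 164) = true := by decide +kernel
def p15_29_1_164 : pfC (piC [(nat_lit 35755509), (nat_lit 23968959), (nat_lit 17897616), (nat_lit 12073119)] (nat_lit 10729447)) p15_29_1 (nat_lit 4) (nat_lit 164) (nat_lit 165) = true := by decide +kernel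
def p15_29_1_165 : pfC (piC [(nat_lit 35755509), (nat_lit 23968959), (nat_lit 17897616), (nat_lit 12073119)] (nat_lit 10729447)) p15_29_1 (nat_lit 4) (nat_lit 165) (nat_lit 166) = true := by decide +kernel
def p15_29_1_166 : pfC (piC [(nat_lit 35755509), (nat_lit 23968959), (nat_lit 17897616), (nat_lit 12073119)] (nat_lit 10729447)) p15_29_1 (nat_lit 4) (nat_lit 166) (nat_lit 167) = true := by decide +kernel
def p15_29_1_167 : pfC (piC [(nat_lit 35755509), (nat_lit 23968959), (nat_lit 17897616), (nat_lit 12073119)] (nat_lit 10729447)) p15_29_1 (nat_lit 4) (nat_lit 167) (nat_lit 168) = true := by decide +kernel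
def p15_29_1_168 : pfC (piC [(nat_lit 35755509), (nat_lit 23968959), (nat_lit 17897616), (nat_lit 12073119)] (nat_lit 10729447)) p15_29_1 (nat_lit 4) (nat_lit 168) (nat_lit 169) = true := by decide +kernel
def p15_29_1_169 : pfC (piC [(nat_lit 35755509), (nat_lit 23968959), (nat_lit 17897616), (nat_lit 12073119)] (nat_lit 10729447)) p15_29_1 (nat_lit 4) (nat_lit 169) (nat_lit 170) = true := by decide +kernel
def p15_29_1_170 : pfC (piC [(nat_lit 35755509), (nat_lit 23968959), (nat_lit 17897616), (nat_lit 12073119)] (nat_lit 10729447)) p15_29_1 (nat_lit 4) (nat_lit 170) (nat_lit 171) = true := by decide +kernel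
def p15_29_1_171 : pfC (piC [(nat_lit 35755509), (nat_lit 23968959), (nat_lit 17897616), (nat_lit 12073119)] (nat_lit 10729447)) p15_29_1 (nat_lit 4) (nat_lit 171) (nat_lit 172) = true := by decide +kernel
def p15_29_1_172 : pfC (piC [(nat_lit 35755509), (nat_lit 23968959), (nat_lit 17897616), (nat_lit 12073119)] (nat_lit 10729447)) p15_29_1 (nat_lit 4) (nat_lit 172) (nat_lit 173) = true := by decide +kernel
def p15_29_1_173 : pfC (piC [(nat_lit 35755509), (nat_lit 23968959), (nat_lit 17897616), (nat_lit 12073119)] (nat_lit 10729447)) p15_29_1 (nat_lit 4) (nat_lit 173) (nat_lit 174) = true := by decide +kernel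
def p15_29_1_174 : pfC (piC [(nat_lit 35755509), (nat_lit 23968959), (nat_lit 17897616), (nat_lit 12073119)] (nat_lit 10729447)) p15_29_1 (nat_lit 4) (nat_lit 174) (nat_lit 175) = true := by decide +kernel
def p15_29_1_175 : pfC (piC [(nat_lit 35755509), (nat_lit 23968959), (nat_lit 17897616), (nat_lit 12073119)] (nat_lit 10729447)) p15_29_1 (nat_lit 4) (nat_lit 175) (nat_lit 176) = true := by decide +kernel
def p15_29_1_176 : pfC (piC [(nat_lit 35755509), (nat_lit 23968959), (nat_lit 17897616), (nat_lit 12073119)] (nat_lit 10729447)) p15_29_1 (nat_lit 4) (nat_lit 176) (nat_lit 177) = true := by decide +kernel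
def p15_29_1_177 : pfC (piC [(nat_lit 35755509), (nat_lit 23968959), (nat_lit 17897616), (nat_lit 12073119)] (nat_lit 10729447)) p15_29_1 (nat_lit 4) (nat_lit 177) (nat_lit 178) = true := by decide +kernel
def p15_29_1_178 : pfC (piC [(nat_lit 35755509), (nat_lit 23968959), (nat_lit 17897616), (nat_lit 12073119)] (nat_lit 10729447)) p15_29_1 (nat_lit 4) (nat_lit 178) (nat_lit 179) = true := by decide +kernel
def p15_29_1_179 : pfC (piC [(nat_lit 35755509), (nat_lit 23968959), (nat_lit 17897616), (nat_lit 12073119)] (nat_lit 10729447)) p15_29_1 (nat_lit 4) (nat_lit 179) (nat_lit 180) = true := by decide +kernel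
def p15_29_1_180 : pfC (piC [(nat_lit 35755509), (nat_lit 23968959), (nat_lit 17897616), (nat_lit 12073119)] (nat_lit 10729447)) p15_29_1 (nat_lit 4) (nat_lit 180) (nat_lit 181) = true := by decide +kernel
def p15_29_1_181 : pfC (piC [(nat_lit 35755509), (nat_lit 23968959), (nat_lit 17897616), (nat_lit 12073119)] (nat_lit 10729447)) p15_29_1 (nat_lit 4) (nat_lit 181) (nat_lit 182) = true := by decide +kernel
def p15_29_1_182 : pfC (piC [(nat_lit 35755509), (nat_lit 23968959), (nat_lit 17897616), (nat_lit 12073119)] (nat_lit 10729447)) p15_29_1 (nat_lit 4) (nat_lit 182) (nat_lit 183) = true := by decide +kernel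
def p15_29_1_183 : pfC (piC [(nat_lit 35755509), (nat_lit 23968959), (nat_lit 17897616), (nat_lit 12073119)] (nat_lit 10729447)) p15_29_1 (nat_lit 4) (nat_lit 183) (nat_lit 184) = true := by decide +kernel
def p15_29_1_184 : pfC (piC [(nat_lit 35755509), (nat_lit 23968959), (nat_lit 17897616), (nat_lit 12073119)] (nat_lit 10729447)) p15_29_1 (nat_lit 4) (nat_lit 184) (nat_lit 185) = true := by decide +kernel
def p15_29_1_185 : pfC (piC [(nat_lit 35755509), (nat_lit 23968959), (nat_lit 17897616), (nat_lit 12073119)] (nat_lit 10729447)) p15_29_1 (nat_lit 4) (nat_lit 185) (nat_lit 186) = true := by decide +kernel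
def p15_29_1_186 : pfC (piC [(nat_lit 35755509), (nat_lit 23968959), (nat_lit 17897616), (nat_lit 12073119)] (nat_lit 10729447)) p15_29_1 (nat_lit 4) (nat_lit 186) (nat_lit 187) = true := by decide +kernel
def p15_29_1_187 : pfC (piC [(nat_lit 35755509), (nat_lit 23968959), (nat_lit 17897616), (nat_lit 12073119)] (nat_lit 10729447)) p15_29_1 (nat_lit 4) (nat_lit 187) (nat_lit 188) = true := by decide +kernel
def p15_29_1_188 : pfC (piC [(nat_lit 35755509), (nat_lit 23968959), (nat_lit 17897616), (nat_lit 12073119)] (nat_lit 10729447)) p15_29_1 (nat_lit 4) (nat_lit 188) (nat_lit 189) = true := by decide +kernel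
def p15_29_1_189 : pfC (piC [(nat_lit 35755509), (nat_lit 23968959), (nat_lit 17897616), (nat_lit 12073119)] (nat_lit 10729447)) p15_29_1 (nat_lit 4) (nat_lit 189) (nat_lit 190) = true := by decide +kernel
def p15_29_1_190 : pfC (piC [(nat_lit 35755509), (nat_lit 23968959), (nat_lit 17897616), (nat_lit 12073119)] (nat_lit 10729447)) p15_29_1 (nat_lit 4) (nat_lit 190) (nat_lit 191) = true := by decide +kernel
def p15_29_1_191 : pfC (piC [(nat_lit 35755509), (nat_lit 23968959), (nat_lit 17897616), (nat_lit 12073119)] (nat_lit 10729447)) p15_29_1 (nat_lit 4) (nat_lit 191) (nat_lit 192) = true := by decide +kernel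
def p15_29_1_192 : pfC (piC [(nat_lit 35755509), (nat_lit 23968959), (nat_lit 17897616), (nat_lit 12073119)] (nat_lit 10729447)) p15_29_1 (nat_lit 4) (nat_lit 192) (nat_lit 193) = true := by decide +kernel
def p15_29_1_193 : pfC (piC [(nat_lit 35755509), (nat_lit 23968959), (nat_lit 17897616), (nat_lit 12073119)] (nat_lit 10729447)) p15_29_1 (nat_lit 4) (nat_lit 193) (nat_lit 194) = true := by decide +kernel
def p15_29_1_194 : pfC (piC [(nat_lit 35755509), (nat_lit 23968959), (nat_lit 17897616), (nat_lit 12073119)] (nat_lit 10729447)) p15_29_1 (nat_lit 4) (nat_lit 194) (nat_lit 195) = true := by decide +kernel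
def p15_29_1_195 : pfC (piC [(nat_lit 35755509), (nat_lit 23968959), (nat_lit 17897616), (nat_lit 12073119)] (nat_lit 10729447)) p15_29_1 (nat_lit 4) (nat_lit 195) (nat_lit 196) = true := by decide +kernel
def p15_29_1_196 : pfC (piC [(nat_lit 35755509), (nat_lit 23968959), (nat_lit 17897616), (nat_lit 12073119)] (nat_lit 10729447)) p15_29_1 (nat_lit 4) (nat_lit 196) (nat_lit 197) = true := by decide +kernel
def p15_29_1_197 : pfC (piC [(nat_lit 35755509), (nat_lit 23968959), (nat_lit 17897616), (nat_lit 12073119)] (nat_lit 10729447)) p15_29_1 (nat_lit 4) (nat_lit 197) (nat_lit 198) = true := by decide +kernel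
def p15_29_1_198 : pfC (piC [(nat_lit 35755509), (nat_lit 23968959), (nat_lit 17897616), (nat_lit 12073119)] (nat_lit 10729447)) p15_29_1 (nat_lit 4) (nat_lit 198) (nat_lit 199) = true := by decide +kernel
def p15_29_1_199 : pfC (piC [(nat_lit 35755509), (nat_lit 23968959), (nat_lit 17897616), (nat_lit 12073119)] (nat_lit 10729447)) p15_29_1 (nat_lit 4) (nat_lit 199) (nat_lit 200) = true := by decide +kernel
def p15_29_1_200 : pfC (piC [(nat_lit 35755509), (nat_lit 23968959), (nat_lit 17897616), (nat_lit 12073119)] (nat_lit 10729447)) p15_29_1 (nat_lit 4) (nat_lit 200) (nat_lit 201) = true := by decide +kernel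
def p15_29_1_201 : pfC (piC [(nat_lit 35755509), (nat_lit 23968959), (nat_lit 17897616), (nat_lit 12073119)] (nat_lit 10729447)) p15_29_1 (nat_lit 4) (nat_lit 201) (nat_lit 202) = true := by decide +kernel
def p15_29_1_202 : pfC (piC [(nat_lit 35755509), (nat_lit 23968959), (nat_lit 17897616), (nat_lit 12073119)] (nat_lit 10729447)) p15_29_1 (nat_lit 4) (nat_lit 202) (nat_lit 203) = true := by decide +kernel
def p15_29_1_203 : pfC (piC [(nat_lit 35755509), (nat_lit 23968959), (nat_lit 17897616), (nat_lit 12073119)] (nat_lit 10729447)) p15_29_1 (nat_lit 4) (nat_lit 203) (nat_lit 204) = true := by decide +kernel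
def p15_29_1_204 : pfC (piC [(nat_lit 35755509), (nat_lit 23968959), (nat_lit 17897616), (nat_lit 12073119)] (nat_lit 10729447)) p15_29_1 (nat_lit 4) (nat_lit 204) (nat_lit 205) = true := by decide +kernel
def p15_29_1_205 : pfC (piC [(nat_lit 35755509), (nat_lit 23968959), (nat_lit 17897616), (nat_lit 12073119)] (nat_lit 10729447)) p15_29_1 (nat_lit 4) (nat_lit 205) (nat_lit 206) = true := by decide +kernel
def p15_29_1_206 : pfC (piC [(nat_lit 35755509), (nat_lit 23968959), (nat_lit 17897616), (nat_lit 12073119)] (nat_lit 10729447)) p15_29_1 (nat_lit 4) (nat_lit 206) (nat_lit 207) = true := by decide +kernel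
def p15_29_1_207 : pfC (piC [(nat_lit 35755509), (nat_lit 23968959), (nat_lit 17897616), (nat_lit 12073119)] (nat_lit 10729447)) p15_29_1 (nat_lit 4) (nat_lit 207) (nat_lit 208) = true := by decide +kernel
def p15_29_1_208 : pfC (piC [(nat_lit 35755509), (nat_lit 23968959), (nat_lit 17897616), (nat_lit 12073119)] (nat_lit 10729447)) p15_29_1 (nat_lit 4) (nat_lit 208) (nat_lit 209) = true := by decide +kernel
def p15_29_1_209 : pfC (piC [(nat_lit 35755509), (nat_lit 23968959), (nat_lit 17897616), (nat_lit 12073119)] (nat_lit 10729447)) p15_29_1 (nat_lit 4) (nat_lit 209) (nat_lit 210) = true := by decide +kernel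
def p15_29_1_210 : pfC (piC [(nat_lit 35755509), (nat_lit 23968959), (nat_lit 17897616), (nat_lit 12073119)] (nat_lit 10729447)) p15_29_1 (nat_lit 4) (nat_lit 210) (nat_lit 211) = true := by decide +kernel
def p15_29_1_211 : pfC (piC [(nat_lit 35755509), (nat_lit 23968959), (nat_lit 17897616), (nat_lit 12073119)] (nat_lit 10729447)) p15_29_1 (nat_lit 4) (nat_lit 211) (nat_lit 212) = true := by decide +kernel
def p15_29_1_212 : pfC (piC [(nat_lit 35755509), (nat_lit 23968959), (nat_lit 17897616), (nat_lit 12073119)] (nat_lit 10729447)) p15_29_1 (nat_lit 4) (nat_lit 212) (nat_lit 213) = true := by decide +kernel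
def p15_29_1_213 : pfC (piC [(nat_lit 35755509), (nat_lit 23968959), (nat_lit 17897616), (nat_lit 12073119)] (nat_lit 10729447)) p15_29_1 (nat_lit 4) (nat_lit 213) (nat_lit 214) = true := by decide +kernel
def p15_29_1_214 : pfC (piC [(nat_lit 35755509), (nat_lit 23968959), (nat_lit 17897616), (nat_lit 12073119)] (nat_lit 10729447)) p15_29_1 (nat_lit 4) (nat_lit 214) (nat_lit 215) = true := by decide +kernel
def p15_29_1_215 : pfC (piC [(nat_lit 35755509), (nat_lit 23968959), (nat_lit 17897616), (nat_lit 12073119)] (nat_lit 10729447)) p15_29_1 (nat_lit 4) (nat_lit 215) (nat_lit 216) = true := by decide +kernel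
def p15_29_1_216 : pfC (piC [(nat_lit 35755509), (nat_lit 23968959), (nat_lit 17897616), (nat_lit 12073119)] (nat_lit 10729447)) p15_29_1 (nat_lit 4) (nat_lit 216) (nat_lit 217) = true := by decide +kernel
def p15_29_1_217 : pfC (piC [(nat_lit 35755509), (nat_lit 23968959), (nat_lit 17897616), (nat_lit 12073119)] (nat_lit 10729447)) p15_29_1 (nat_lit 4) (nat_lit 217) (nat_lit 218) = true := by decide +kernel
def p15_29_1_218 : pfC (piC [(nat_lit 35755509), (nat_lit 23968959), (nat_lit 17897616), (nat_lit 12073119)] (nat_lit 10729447)) p15_29_1 (nat_lit 4) (nat_lit 218) (nat_lit 219) = true := by decide +kernel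
def p15_29_1_219 : pfC (piC [(nat_lit 35755509), (nat_lit 23968959), (nat_lit 17897616), (nat_lit 12073119)] (nat_lit 10729447)) p15_29_1 (nat_lit 4) (nat_lit 219) (nat_lit 220) = true := by decide +kernel
theorem p15_29_1_T : PfS (PiF n15_29.reverse (nat_lit 10729447)) p15_29_1 (nat_lit 4) [] 0 :=
  pftab_of (los := [(nat_lit 35755509), (nat_lit 23968959), (nat_lit 17897616), (nat_lit 12073119)]) (by decide +kernel) (hi := (nat_lit 220)) (PfP.trans (PfP.trans (PfP.trans (PfP.trans (PfP.trans (PfP.trans (PfP.trans (PfP.trans (PfP.trans (PfP.trans (PfP.trans (PfP.trans (PfP.trans (PfP.trans (PfP.trans (PfP.trans (PfP.trans (PfP.trans (PfP.trans (PfP.trans (PfP.trans (PfP.trans (PfP.trans (PfP.trans (PfP.trans (PfP.trans (PfP.trans (PfP.trans (PfP.trans (PfP.trans (PfP.trans (PfP.trans (PfP.trans (PfP.trans (PfP.trans (PfP.trans (PfP.trans (PfP.trans (PfP.trans (PfP.trans (PfP.trans (PfP.trans (PfP.trans (PfP.trans (PfP.trans (PfP.trans (PfP.trans (PfP.trans (PfP.trans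 (PfP.trans (PfP.trans (PfP.trans (PfP.trans (PfP.trans (PfP.trans (PfP.trans (PfP.trans (PfP.trans (PfP.trans (PfP.trans (PfP.trans (PfP.trans (PfP.trans (PfP.trans (PfP.trans (PfP.trans (PfP.trans (PfP.trans (PfP.trans (PfP.trans (PfP.trans (PfP.trans (PfP.trans (PfP.trans (PfP.trans (PfP.trans (PfP.trans (PfP.trans (PfP.trans (PfP.trans (PfP.trans (PfP.trans (PfP.trans (PfP.trans (PfP.trans (PfP.trans (PfP.trans (PfP.trans (PfP.trans (PfP.trans (PfP.trans (PfP.trans (PfP.trans (PfP.trans (PfP.trans (PfP.trans (PfP.trans (PfP.trans (PfP.trans (PfP.trans (PfP.trans (PfP.trans (PfP.trans (PfP.trans (PfP.trans (PfP.trans (PfP.trans (PfP.trans (PfP.trans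
 (PfP.trans (PfP.trans (PfP.trans (PfP.trans (PfP.trans (PfP.trans (PfP.trans (PfP.trans (PfP.trans (PfP.trans (PfP.trans (PfP.trans (PfP.trans (PfP.trans (PfP.trans (PfP.trans (PfP.trans (PfP.trans (PfP.trans (PfP.trans (PfP.trans (PfP.trans (PfP.trans (PfP.trans (PfP.trans (PfP.trans (PfP.trans (PfP.trans (PfP.trans (PfP.trans (PfP.trans (PfP.trans (PfP.trans (PfP.trans (PfP.trans (PfP.trans (PfP.trans (PfP.trans (PfP.trans (PfP.trans (PfP.trans (PfP.trans (PfP.trans (PfP.trans (PfP.trans (PfP.trans (PfP.trans (PfP.trans (PfP.trans (PfP.trans (PfP.trans (PfP.trans (PfP.trans (PfP.trans (PfP.trans (PfP.trans (PfP.trans (PfP.trans (PfP.trans (PfP.trans (PfP.trans (PfP.trans (PfP.trans (PfP.trans (PfP.trans (PfP.trans (PfP.trans (PfP.trans (PfP.trans (PfP.trans (PfP.trans (PfP.trans (PfP.trans (PfP.trans (PfP.trans (PfP.trans (PfP.trans (PfP.trans (PfP.trans (PfP.trans (PfP.trans (PfP.trans (PfP.trans (PfP.trans (PfP.trans (PfP.trans (PfP.trans (PfP.trans (PfP.trans (PfP.trans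 (PfP.trans (PfP.trans (PfP.trans (PfP.trans (PfP.trans (PfP.trans (PfP.trans (PfP.trans (PfP.trans (PfP.trans (PfP.trans (PfP.trans (PfP.trans (PfP.trans (PfP.trans (PfP.trans (PfP.trans (PfP.trans (PfP.trans
 (PfP.trans (pfC_sound p15_29_1_0) (pfC_sound p15_29_1_1)) (pfC_sound p15_29_1_2)) (pfC_sound p15_29_1_3)) (pfC_sound p15_29_1_4)) (pfC_sound p15_29_1_5)) (pfC_sound p15_29_1_6)) (pfC_sound p15_29_1_7)) (pfC_sound p15_29_1_8)) (pfC_sound p15_29_1_9)) (pfC_sound p15_29_1_10)) (pfC_sound p15_29_1_11)) (pfC_sound p15_29_1_12)) (pfC_sound p15_29_1_13)) (pfC_sound p15_29_1_14)) (pfC_sound p15_29_1_15)) (pfC_sound p15_29_1_16)) (pfC_sound p15_29_1_17)) (pfC_sound p15_29_1_18)) (pfC_sound p15_29_1_19)) (pfC_sound p15_29_1_20)) (pfC_sound p15_29_1_21)) (pfC_sound p15_29_1_22)) (pfC_sound p15_29_1_23)) (pfC_sound p15_29_1_24)) (pfC_sound p15_29_1_25)) (pfC_sound p15_29_1_26)) (pfC_sound p15_29_1_27)) (pfC_sound p15_29_1_28)) (pfC_sound p15_29_1_29)) (pfC_sound p15_29_1_30))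 (pfC_sound p15_29_1_31)) (pfC_sound p15_29_1_32)) (pfC_sound p15_29_1_33)) (pfC_sound p15_29_1_34)) (pfC_sound p15_29_1_35)) (pfC_sound p15_29_1_36)) (pfC_sound p15_29_1_37)) (pfC_sound p15_29_1_38)) (pfC_sound p15_29_1_39)) (pfC_sound p15_29_1_40)) (pfC_sound p15_29_1_41)) (pfC_sound p15_29_1_42)) (pfC_sound p15_29_1_43)) (pfC_sound p15_29_1_44)) (pfC_sound p15_29_1_45)) (pfC_sound p15_29_1_46)) (pfC_sound p15_29_1_47))
 (pfC_sound p15_29_1_48)) (pfC_sound p15_29_1_49)) (pfC_sound p15_29_1_50)) (pfC_sound p15_29_1_51)) (pfC_sound p15_29_1_52)) (pfC_sound p15_29_1_53)) (pfC_sound p15_29_1_54)) (pfC_sound p15_29_1_55)) (pfC_sound p15_29_1_56)) (pfC_sound p15_29_1_57)) (pfC_sound p15_29_1_58)) (pfC_sound p15_29_1_59)) (pfC_sound p15_29_1_60)) (pfC_sound p15_29_1_61)) (pfC_sound p15_29_1_62)) (pfC_sound p15_29_1_63)) (pfC_sound p15_29_1_64)) (pfC_sound p15_29_1_65)) (pfC_sound p15_29_1_66)) (pfC_sound p15_29_1_67)) (pfC_sound p15_29_1_68)) (pfC_sound p15_29_1_69)) (pfC_sound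 p15_29_1_70)) (pfC_sound p15_29_1_71)) (pfC_sound p15_29_1_72)) (pfC_sound p15_29_1_73)) (pfC_sound p15_29_1_74)) (pfC_sound p15_29_1_75)) (pfC_sound p15_29_1_76)) (pfC_sound p15_29_1_77)) (pfC_sound p15_29_1_78)) (pfC_sound p15_29_1_79)) (pfC_sound p15_29_1_80)) (pfC_sound p15_29_1_81)) (pfC_sound p15_29_1_82)) (pfC_sound p15_29_1_83)) (pfC_sound p15_29_1_84)) (pfC_sound p15_29_1_85)) (pfC_sound p15_29_1_86)) (pfC_sound p15_29_1_87)) (pfC_sound p15_29_1_88)) (pfC_sound p15_29_1_89)) (pfC_sound p15_29_1_90)) (pfC_sound p15_29_1_91)) (pfC_sound p15_29_1_92)) (pfC_sound p15_29_1_93)) (pfC_sound p15_29_1_94)) (pfC_sound p15_29_1_95))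
 (pfC_sound p15_29_1_96)) (pfC_sound p15_29_1_97)) (pfC_sound p15_29_1_98)) (pfC_sound p15_29_1_99)) (pfC_sound p15_29_1_100)) (pfC_sound p15_29_1_101)) (pfC_sound p15_29_1_102)) (pfC_sound p15_29_1_103)) (pfC_sound p15_29_1_104)) (pfC_sound p15_29_1_105)) (pfC_sound p15_29_1_106)) (pfC_sound p15_29_1_107)) (pfC_sound p15_29_1_108)) (pfC_sound p15_29_1_109)) (pfC_sound p15_29_1_110)) (pfC_sound p15_29_1_111)) (pfC_sound p15_29_1_112)) (pfC_sound p15_29_1_113)) (pfC_sound p15_29_1_114)) (pfC_sound p15_29_1_115)) (pfC_sound p15_29_1_116)) (pfC_sound p15_29_1_117)) (pfC_sound p15_29_1_118)) (pfC_sound p15_29_1_119)) (pfC_sound p15_29_1_120)) (pfC_sound p15_29_1_121)) (pfC_sound p15_29_1_122)) (pfC_sound p15_29_1_123)) (pfC_sound p15_29_1_124)) (pfC_sound p15_29_1_125)) (pfC_sound p15_29_1_126)) (pfC_sound p15_29_1_127)) (pfC_sound p15_29_1_128)) (pfC_sound p15_29_1_129)) (pfC_sound p15_29_1_130)) (pfC_sound p15_29_1_131)) (pfC_sound p15_29_1_132)) (pfC_sound p15_29_1_133))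 (pfC_sound p15_29_1_134)) (pfC_sound p15_29_1_135)) (pfC_sound p15_29_1_136)) (pfC_sound p15_29_1_137)) (pfC_sound p15_29_1_138)) (pfC_sound p15_29_1_139)) (pfC_sound p15_29_1_140)) (pfC_sound p15_29_1_141))
 (pfC_sound p15_29_1_142)) (pfC_sound p15_29_1_143)) (pfC_sound p15_29_1_144)) (pfC_sound p15_29_1_145)) (pfC_sound p15_29_1_146)) (pfC_sound p15_29_1_147)) (pfC_sound p15_29_1_148)) (pfC_sound p15_29_1_149)) (pfC_sound p15_29_1_150)) (pfC_sound p15_29_1_151)) (pfC_sound p15_29_1_152)) (pfC_sound p15_29_1_153)) (pfC_sound p15_29_1_154)) (pfC_sound p15_29_1_155)) (pfC_sound p15_29_1_156)) (pfC_sound p15_29_1_157)) (pfC_sound p15_29_1_158)) (pfC_sound p15_29_1_159)) (pfC_sound p15_29_1_160)) (pfC_sound p15_29_1_161)) (pfC_sound p15_29_1_162)) (pfC_sound p15_29_1_163)) (pfC_sound p15_29_1_164)) (pfC_sound p15_29_1_165)) (pfC_sound p15_29_1_166)) (pfC_sound p15_29_1_167)) (pfC_sound p15_29_1_168)) (pfC_sound p15_29_1_169)) (pfC_sound p15_29_1_170)) (pfC_sound p15_29_1_171))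 (pfC_sound p15_29_1_172)) (pfC_sound p15_29_1_173)) (pfC_sound p15_29_1_174)) (pfC_sound p15_29_1_175)) (pfC_sound p15_29_1_176)) (pfC_sound p15_29_1_177)) (pfC_sound p15_29_1_178)) (pfC_sound p15_29_1_179)) (pfC_sound p15_29_1_180)) (pfC_sound p15_29_1_181)) (pfC_sound p15_29_1_182)) (pfC_sound p15_29_1_183)) (pfC_sound p15_29_1_184)) (pfC_sound p15_29_1_185)) (pfC_sound p15_29_1_186)) (pfC_sound p15_29_1_187))
 (pfC_sound p15_29_1_188)) (pfC_sound p15_29_1_189)) (pfC_sound p15_29_1_190)) (pfC_sound p15_29_1_191)) (pfC_sound p15_29_1_192)) (pfC_sound p15_29_1_193)) (pfC_sound p15_29_1_194)) (pfC_sound p15_29_1_195)) (pfC_sound p15_29_1_196)) (pfC_sound p15_29_1_197)) (pfC_sound p15_29_1_198)) (pfC_sound p15_29_1_199)) (pfC_sound p15_29_1_200)) (pfC_sound p15_29_1_201)) (pfC_sound p15_29_1_202)) (pfC_sound p15_29_1_203)) (pfC_sound p15_29_1_204)) (pfC_sound p15_29_1_205)) (pfC_sound p15_29_1_206)) (pfC_sound p15_29_1_207)) (pfC_sound p15_29_1_208)) (pfC_sound p15_29_1_209))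 (pfC_sound p15_29_1_210)) (pfC_sound p15_29_1_211)) (pfC_sound p15_29_1_212)) (pfC_sound p15_29_1_213)) (pfC_sound p15_29_1_214)) (pfC_sound p15_29_1_215)) (pfC_sound p15_29_1_216)) (pfC_sound p15_29_1_217)) (pfC_sound p15_29_1_218)) (pfC_sound p15_29_1_219)) (by decide +kernel)

def z15_29_1 : zOK yB15_29 (nat_lit 1) (nat_lit 400) (nat_lit 600) (nat_lit 10729447) (nat_lit 6831970) = true := by decide +kernel
def g15_29_1 : gOK yB15_29.x P15_29 (nat_lit 1402) (q15_29 :: r15_29) (nat_lit 1) (nat_lit 400) (nat_lit 2) (nat_lit 600) (nat_lit 11000000) (nat_lit 17850000) (nat_lit 12712500) (nat_lit 12712500) [(nat_lit 800), (nat_lit 1130)] = true := by decide +kernel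
def v15_29_1 : ivC P15_29 s15_29 w15_29 n15_29 (nat_lit 4) (nat_lit 4940) (nat_lit 1) (nat_lit 400) f168_1_400 f176_1_400 (nat_lit 2) (nat_lit 600) f168_1_600 f176_1_600 (nat_lit 10729447) (nat_lit 6831970) p15_29_1 = true := by decide +kernel
def p15_29_2 : PF := (PF.cons (PF.cons (PF.cons (PF.cons (PF.leaf (nat_lit 2716947) (nat_lit 15665316) (nat_lit 51443496) (nat_lit 15665316) [(nat_lit 0), (nat_lit 0), (nat_lit 0), (nat_lit 0)]) (PF.cons (PF.leaf (nat_lit 2934986) (nat_lit 405562) (nat_lit 51062121) (nat_lit 15641128) [(nat_lit 405562), (nat_lit 0), (nat_lit 0), (nat_lit 0)]) (PF.cons (PF.leaf (nat_lit 3190696) (nat_lit 439882) (nat_lit 50618736) (nat_lit 15610312) [(nat_lit 439882), (nat_lit 0), (nat_lit 0), (nat_lit 0)]) (PF.cons (PF.leaf (nat_lit 3476445) (nat_lit 469872) (nat_lit 50126371) (nat_lit 15572822) [(nat_lit 469872), (nat_lit 0), (nat_lit 0), (nat_lit 0)]) (PF.cons (PF.leaf (nat_lit 3787251) (nat_lit 496447) (nat_lit 49594440) (nat_lit 15528582) [(nat_lit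 496447), (nat_lit 0), (nat_lit 0), (nat_lit 0)]) (PF.cons (PF.leaf (nat_lit 4119254) (nat_lit 520192) (nat_lit 49030293) (nat_lit 15477554) [(nat_lit 520192), (nat_lit 0), (nat_lit 0), (nat_lit 0)]) (PF.cons (PF.leaf (nat_lit 4469269) (nat_lit 541517) (nat_lit 48439942) (nat_lit 15419767) [(nat_lit 541517), (nat_lit 0), (nat_lit 0), (nat_lit 0)]) (PF.cons (PF.leaf (nat_lit 4834604) (nat_lit 560720) (nat_lit 47828450) (nat_lit 15355317) [(nat_lit 560720), (nat_lit 0),
 (nat_lit 0), (nat_lit 0)]) (PF.cons (PF.leaf (nat_lit 5212904) (nat_lit 578035) (nat_lit 47200161) (nat_lit 15284369) [(nat_lit 578035), (nat_lit 0), (nat_lit 0), (nat_lit 0)]) (PF.cons (PF.leaf (nat_lit 5602102) (nat_lit 593646) (nat_lit 46558845) (nat_lit 15207146) [(nat_lit 593646), (nat_lit 0), (nat_lit 0), (nat_lit 0)]) (PF.cons (PF.leaf (nat_lit 6000354) (nat_lit 607709) (nat_lit 45907800) (nat_lit 15123920) [(nat_lit 607709), (nat_lit 0), (nat_lit 0), (nat_lit 0)]) (PF.cons PF.nil (PF.cons PF.nil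 (PF.cons PF.nil PF.nil)))))))))))))) (PF.cons (PF.cons (PF.leaf (nat_lit 3343572) (nat_lit 1546826) (nat_lit 50004762) (nat_lit 15557224) [(nat_lit 0), (nat_lit 1546826), (nat_lit 0), (nat_lit 0)]) (PF.cons (PF.leaf (nat_lit 3617566) (nat_lit 477336) (nat_lit 49526244) (nat_lit 15516771) [(nat_lit 477336), (nat_lit 1588459), (nat_lit 0), (nat_lit 0)]) (PF.cons (PF.leaf (nat_lit 3919060) (nat_lit 503151) (nat_lit 49005341) (nat_lit 15469312) [(nat_lit 503151), (nat_lit 1627855), (nat_lit 0), (nat_lit 0)]) (PF.cons (PF.leaf (nat_lit 4242914) (nat_lit 526130) (nat_lit 48450921) (nat_lit 15414988) [(nat_lit 526130), (nat_lit 1664512), (nat_lit 0), (nat_lit 0)]) (PF.cons (PF.leaf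
 (nat_lit 4585491) (nat_lit 546715) (nat_lit 47869762) (nat_lit 15353939) [(nat_lit 546715), (nat_lit 1698248), (nat_lit 0), (nat_lit 0)]) (PF.cons (PF.leaf (nat_lit 4943837) (nat_lit 565220) (nat_lit 47267331) (nat_lit 15286341) [(nat_lit 565220), (nat_lit 1729037), (nat_lit 0), (nat_lit 0)]) (PF.cons (PF.leaf (nat_lit 5315475) (nat_lit 581880) (nat_lit 46648187) (nat_lit 15212410) [(nat_lit 581880), (nat_lit 1756931), (nat_lit 0), (nat_lit 0)]) (PF.cons (PF.leaf (nat_lit 5698215) (nat_lit 596882) (nat_lit 46016203) (nat_lit 15132405) [(nat_lit 596882), (nat_lit 1782027), (nat_lit 0), (nat_lit 0)]) (PF.cons (PF.leaf (nat_lit 6090184) (nat_lit 610378) (nat_lit 45374721) (nat_lit 15046623) [(nat_lit 610378), (nat_lit 1804441), (nat_lit 0), (nat_lit 0)]) (PF.cons PF.nil (PF.cons PF.nil (PF.cons PF.nil PF.nil)))))))))))) (PF.cons (PF.cons (PF.leaf (nat_lit 4054649) (nat_lit 1649610) (nat_lit 48405037) (nat_lit 15404554) [(nat_lit 0), (nat_lit 1649610), (nat_lit 0), (nat_lit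 0)]) (PF.cons (PF.leaf (nat_lit 4368297) (nat_lit 530934) (nat_lit 47864641) (nat_lit 15347624) [(nat_lit 530934), (nat_lit 1682806), (nat_lit 0), (nat_lit 0)]) (PF.cons (PF.leaf (nat_lit 4702315) (nat_lit 550984)
 (nat_lit 47295730) (nat_lit 15283889) [(nat_lit 550984), (nat_lit 1713611), (nat_lit 0), (nat_lit 0)]) (PF.cons (PF.leaf (nat_lit 5052919) (nat_lit 568939) (nat_lit 46704626) (nat_lit 15213640) [(nat_lit 568939), (nat_lit 1741863), (nat_lit 0), (nat_lit 0)]) (PF.cons (PF.leaf (nat_lit 5417338) (nat_lit 585058) (nat_lit 46096350) (nat_lit 15137167) [(nat_lit 585058), (nat_lit 1767529), (nat_lit 0), (nat_lit 0)]) (PF.cons (PF.leaf (nat_lit 5793243) (nat_lit 599539) (nat_lit 45475037) (nat_lit 15054778) [(nat_lit 599539), (nat_lit 1790648), (nat_lit 0), (nat_lit 0)]) (PF.cons (PF.leaf (nat_lit 6178635) (nat_lit 612541) (nat_lit 44844169) (nat_lit 14966801) [(nat_lit 612541), (nat_lit 1811296), (nat_lit 0), (nat_lit 0)]) (PF.cons (PF.leaf (nat_lit 6571779) (nat_lit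 624195) (nat_lit 44206719) (nat_lit 14873582) [(nat_lit 624195), (nat_lit 1829572), (nat_lit 0), (nat_lit 0)]) (PF.cons PF.nil (PF.cons PF.nil PF.nil)))))))))) (PF.cons (PF.cons (PF.leaf (nat_lit 4821326) (nat_lit 1727541) (nat_lit 46716674) (nat_lit 15209514) [(nat_lit 0), (nat_lit 1727541), (nat_lit 0), (nat_lit 0)]) (PF.cons (PF.leaf (nat_lit 5162779) (nat_lit 571862) (nat_lit 46139609) (nat_lit 15137191) [(nat_lit
 571862), (nat_lit 1753382), (nat_lit 0), (nat_lit 0)]) (PF.cons (PF.leaf (nat_lit 5519227) (nat_lit 587564) (nat_lit 45544185) (nat_lit 15058667) [(nat_lit 587564), (nat_lit 1776943), (nat_lit 0), (nat_lit 0)]) (PF.cons (PF.leaf (nat_lit 5887772) (nat_lit 601620) (nat_lit 44935033) (nat_lit 14974321) [(nat_lit 601620), (nat_lit 1798198), (nat_lit 0), (nat_lit 0)]) (PF.cons (PF.leaf (nat_lit 6266225) (nat_lit 614204) (nat_lit 44315919) (nat_lit 14884526) [(nat_lit 614204), (nat_lit 1817183), (nat_lit 0), (nat_lit 0)]) (PF.cons (PF.leaf (nat_lit 6652763)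 (nat_lit 625454) (nat_lit 43689983) (nat_lit 14789658) [(nat_lit 625454), (nat_lit 1833965), (nat_lit 0), (nat_lit 0)]) (PF.cons PF.nil (PF.cons PF.nil (PF.cons PF.nil PF.nil))))))))) (PF.cons (PF.cons (PF.leaf (nat_lit 5622327) (nat_lit 1785264) (nat_lit 44990887) (nat_lit 14976868) [(nat_lit 0), (nat_lit 1785264), (nat_lit 0), (nat_lit 0)]) (PF.cons (PF.leaf (nat_lit 5982519) (nat_lit 603114) (nat_lit 44395652) (nat_lit 14891040) [(nat_lit 603114), (nat_lit 1804751), (nat_lit 0), (nat_lit 0)]) (PF.cons (PF.leaf (nat_lit 6353535) (nat_lit 615362) (nat_lit 43789595) (nat_lit 14799836) [(nat_lit 615362), (nat_lit 1822163), (nat_lit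
 0), (nat_lit 0)]) (PF.cons (PF.leaf (nat_lit 6733095) (nat_lit 626276) (nat_lit 43176154) (nat_lit 14703676) [(nat_lit 626276), (nat_lit 1837538), (nat_lit 0), (nat_lit 0)]) (PF.cons (PF.leaf (nat_lit 7119473) (nat_lit 635981) (nat_lit 42558164) (nat_lit 14602964) [(nat_lit 635981), (nat_lit 1850939), (nat_lit 0), (nat_lit 0)]) (PF.cons PF.nil (PF.cons PF.nil PF.nil))))))) (PF.cons (PF.cons (PF.leaf (nat_lit 6441442) (nat_lit 1826296) (nat_lit 43264610) (nat_lit 14712721) [(nat_lit 0), (nat_lit 1826296), (nat_lit 0), (nat_lit 0)]) (PF.cons (PF.leaf (nat_lit 6813316) (nat_lit 626652) (nat_lit 42664810) (nat_lit 14615653) [(nat_lit 626652), (nat_lit 1840339), (nat_lit 0), (nat_lit 0)]) (PF.cons (PF.leaf (nat_lit 7192741) (nat_lit 636087) (nat_lit 42059783) (nat_lit 14514125) [(nat_lit 636087), (nat_lit 1852545), (nat_lit 0), (nat_lit 0)]) (PF.cons PF.nil (PF.cons PF.nil PF.nil))))) (PF.cons (PF.cons (PF.leaf (nat_lit 7266279) (nat_lit 1853490) (nat_lit 41564287) (nat_lit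 14423580) [(nat_lit 0), (nat_lit 1853490), (nat_lit 0), (nat_lit 0)]) (PF.cons (PF.leaf (nat_lit 7644342) (nat_lit 643920) (nat_lit 40969815) (nat_lit 14317621) [(nat_lit 643920), (nat_lit 1862909), (nat_lit 0),
 (nat_lit 0)]) (PF.cons PF.nil (PF.cons PF.nil PF.nil)))) (PF.cons (PF.cons (PF.leaf (nat_lit 8087451) (nat_lit 1869235) (nat_lit 39908414) (nat_lit 14115749) [(nat_lit 0), (nat_lit 1869235), (nat_lit 0), (nat_lit 0)]) (PF.cons PF.nil PF.nil)) (PF.cons PF.nil PF.nil))))))))) (PF.cons (PF.cons (PF.cons (PF.leaf (nat_lit 3901763) (nat_lit 3757894) (nat_lit 48012592) (nat_lit 15338326) [(nat_lit 0), (nat_lit 0), (nat_lit 3757894), (nat_lit 0)]) (PF.cons (PF.leaf (nat_lit 4183908) (nat_lit 503883) (nat_lit 47529794) (nat_lit 15285971) [(nat_lit 503883), (nat_lit 0), (nat_lit 3789163), (nat_lit 0)]) (PF.cons (PF.leaf (nat_lit 4491647) (nat_lit 527344) (nat_lit 47008781) (nat_lit 15226347) [(nat_lit 527344), (nat_lit 0), (nat_lit 3818994), (nat_lit 0)]) (PF.cons (PF.leaf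 (nat_lit 4819742) (nat_lit 547934) (nat_lit 46458487) (nat_lit 15159937) [(nat_lit 547934), (nat_lit 0), (nat_lit 3846584), (nat_lit 0)]) (PF.cons (PF.leaf (nat_lit 5164610) (nat_lit 566166) (nat_lit 45885546) (nat_lit 15087128) [(nat_lit 566166), (nat_lit 0), (nat_lit 3871470), (nat_lit 0)]) (PF.cons (PF.leaf (nat_lit 5523357) (nat_lit 582392) (nat_lit 45295174) (nat_lit 15008279) [(nat_lit 582392), (nat_lit 0),
 (nat_lit 3893397), (nat_lit 0)]) (PF.cons (PF.leaf (nat_lit 5893604) (nat_lit 596867) (nat_lit 44691616) (nat_lit 14923743) [(nat_lit 596867), (nat_lit 0), (nat_lit 3912245), (nat_lit 0)]) (PF.cons (PF.leaf (nat_lit 6273348) (nat_lit 609790) (nat_lit 44078413) (nat_lit 14833877) [(nat_lit 609790), (nat_lit 0), (nat_lit 3927988), (nat_lit 0)]) (PF.cons (PF.leaf (nat_lit 6660799) (nat_lit 621318) (nat_lit 43458563) (nat_lit 14739042) [(nat_lit 621318), (nat_lit 0), (nat_lit 3940661), (nat_lit 0)]) (PF.cons PF.nil PF.nil)))))))))) (PF.cons (PF.cons (PF.leaf (nat_lit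 4618866) (nat_lit 1698357) (nat_lit 46423946) (nat_lit 15150187) [(nat_lit 0), (nat_lit 1698357), (nat_lit 3836321), (nat_lit 0)]) (PF.cons (PF.leaf (nat_lit 4936114) (nat_lit 550612) (nat_lit 45890189) (nat_lit 15082305) [(nat_lit 550612), (nat_lit 1725552), (nat_lit 3860152), (nat_lit 0)]) (PF.cons (PF.leaf (nat_lit 5271919) (nat_lit 568545) (nat_lit 45331614) (nat_lit 15007879) [(nat_lit 568545), (nat_lit 1750532), (nat_lit 3881695), (nat_lit 0)]) (PF.cons (PF.leaf (nat_lit 5622582) (nat_lit 584418) (nat_lit 44754337) (nat_lit 14927395) [(nat_lit 584418), (nat_lit 1773201), (nat_lit 3900622), (nat_lit 0)]) (PF.cons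
 (PF.leaf (nat_lit 5985412) (nat_lit 598523) (nat_lit 44163108) (nat_lit 14841284) [(nat_lit 598523), (nat_lit 1793563), (nat_lit 3916763), (nat_lit 0)]) (PF.cons (PF.leaf (nat_lit 6358201) (nat_lit 611074) (nat_lit 43561761) (nat_lit 14749951) [(nat_lit 611074), (nat_lit 1811672), (nat_lit 3930055), (nat_lit 0)]) (PF.cons (PF.leaf (nat_lit 6739061) (nat_lit 622240) (nat_lit 42953466) (nat_lit 14653790) [(nat_lit 622240), (nat_lit 1827610), (nat_lit 3940505), (nat_lit 0)]) (PF.cons PF.nil (PF.cons PF.nil PF.nil))))))))) (PF.cons (PF.cons (PF.leaf (nat_lit 5381751) (nat_lit 1759758) (nat_lit 44774344) (nat_lit 14924999) [(nat_lit 0), (nat_lit 1759758), (nat_lit 3889953), (nat_lit 0)]) (PF.cons (PF.leaf (nat_lit 5722966) (nat_lit 585751) (nat_lit 44212537) (nat_lit 14843443) [(nat_lit 585751), (nat_lit 1780514), (nat_lit 3906052), (nat_lit 0)]) (PF.cons (PF.leaf (nat_lit 6077627) (nat_lit 599599) (nat_lit 43635338) (nat_lit 14756220) [(nat_lit 599599), (nat_lit 1799202),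 (nat_lit 3919651), (nat_lit 0)]) (PF.cons (PF.leaf (nat_lit 6442945) (nat_lit 611865) (nat_lit 43047100) (nat_lit 14663813) [(nat_lit 611865), (nat_lit 1815827), (nat_lit 3930648), (nat_lit 0)]) (PF.cons (PF.leaf
 (nat_lit 6816859) (nat_lit 622736) (nat_lit 42451299) (nat_lit 14566666) [(nat_lit 622736), (nat_lit 1830440), (nat_lit 3939021), (nat_lit 0)]) (PF.cons (PF.leaf (nat_lit 7197635) (nat_lit 632360) (nat_lit 41850785) (nat_lit 14465194) [(nat_lit 632360), (nat_lit 1843114), (nat_lit 3944801), (nat_lit 0)]) (PF.cons PF.nil PF.nil))))))) (PF.cons (PF.cons (PF.leaf (nat_lit 6171365) (nat_lit 1803968) (nat_lit 43107434) (nat_lit 14668476) [(nat_lit 0), (nat_lit 1803968), (nat_lit 3920996), (nat_lit 0)]) (PF.cons (PF.leaf (nat_lit 6528254) (nat_lit 612143) (nat_lit 42533825) (nat_lit 14575440) [(nat_lit 612143), (nat_lit 1819186), (nat_lit 3929844), (nat_lit 0)]) (PF.cons (PF.leaf (nat_lit 6894713) (nat_lit 622796) (nat_lit 41951624) (nat_lit 14477678) [(nat_lit 622796),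 (nat_lit 1832546), (nat_lit 3936276), (nat_lit 0)]) (PF.cons (PF.leaf (nat_lit 7268569) (nat_lit 632188) (nat_lit 41363992) (nat_lit 14375654) [(nat_lit 632188), (nat_lit 1844099), (nat_lit 3940301), (nat_lit 0)]) (PF.cons PF.nil PF.nil))))) (PF.cons (PF.cons (PF.leaf (nat_lit 6973485) (nat_lit 1833969) (nat_lit 41453815) (nat_lit 14386785) [(nat_lit 0), (nat_lit 1833969), (nat_lit 3932332), (nat_lit 0)]) (PF.cons
 (PF.leaf (nat_lit 7339724) (nat_lit 631630) (nat_lit 40880046) (nat_lit 14284557) [(nat_lit 631630), (nat_lit 1844463), (nat_lit 3934723), (nat_lit 0)]) (PF.cons (PF.leaf (nat_lit 7712530) (nat_lit 639712) (nat_lit 40302622) (nat_lit 14178532) [(nat_lit 639712), (nat_lit 1853329), (nat_lit 3934916), (nat_lit 0)]) (PF.cons PF.nil PF.nil)))) (PF.cons (PF.cons (PF.leaf (nat_lit 7777409) (nat_lit 1852210) (nat_lit 39834835) (nat_lit 14085986) [(nat_lit 0), (nat_lit 1852210), (nat_lit 3926937), (nat_lit 0)]) (PF.cons (PF.leaf (nat_lit 8148128) (nat_lit 645546) (nat_lit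 39269180) (nat_lit 13976767) [(nat_lit 645546), (nat_lit 1858711), (nat_lit 3923762), (nat_lit 0)]) PF.nil)) (PF.cons PF.nil (PF.cons PF.nil PF.nil)))))))) (PF.cons (PF.cons (PF.cons (PF.leaf (nat_lit 5165784) (nat_lit 3862745) (nat_lit 44516283) (nat_lit 14867039) [(nat_lit 0), (nat_lit 0), (nat_lit 3862745), (nat_lit 0)]) (PF.cons (PF.leaf (nat_lit 5484346) (nat_lit 565312) (nat_lit 43994826) (nat_lit 14790642) [(nat_lit 565312), (nat_lit 0), (nat_lit 3879016), (nat_lit 0)]) (PF.cons (PF.leaf (nat_lit 5819913) (nat_lit 581404) (nat_lit 43451668) (nat_lit 14708053) [(nat_lit 581404), (nat_lit 0), (nat_lit 3893140),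
 (nat_lit 0)]) (PF.cons (PF.leaf (nat_lit 6168864) (nat_lit 595485) (nat_lit 42892662) (nat_lit 14619902) [(nat_lit 595485), (nat_lit 0), (nat_lit 3904896), (nat_lit 0)]) (PF.cons (PF.leaf (nat_lit 6528587) (nat_lit 607864) (nat_lit 42322273) (nat_lit 14526716) [(nat_lit 607864), (nat_lit 0), (nat_lit 3914183), (nat_lit 0)]) (PF.cons (PF.leaf (nat_lit 6896979) (nat_lit 618769) (nat_lit 41744043) (nat_lit 14428963) [(nat_lit 618769), (nat_lit 0), (nat_lit 3920979), (nat_lit 0)]) (PF.cons (PF.leaf (nat_lit 7272285) (nat_lit 628375) (nat_lit 41160856) (nat_lit 14327074) [(nat_lit 628375), (nat_lit 0), (nat_lit 3925315), (nat_lit 0)]) (PF.cons PF.nil (PF.cons PF.nil PF.nil))))))))) (PF.cons (PF.cons (PF.leaf (nat_lit 5920934) (nat_lit 1779927) (nat_lit 42919124) (nat_lit 14619247) [(nat_lit 0), (nat_lit 1779927), (nat_lit 3895256), (nat_lit 0)]) (PF.cons (PF.leaf (nat_lit 6260282) (nat_lit 595552) (nat_lit 42376321) (nat_lit 14530861) [(nat_lit 595552), (nat_lit 1796472),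 (nat_lit 3904801), (nat_lit 0)]) (PF.cons (PF.leaf (nat_lit 6611764) (nat_lit 607801) (nat_lit 41820534) (nat_lit 14437341) [(nat_lit 607801), (nat_lit 1811131), (nat_lit 3912101), (nat_lit 0)]) (PF.cons (PF.leaf
 (nat_lit 6972689) (nat_lit 618532) (nat_lit 41255834) (nat_lit 14339239) [(nat_lit 618532), (nat_lit 1823933), (nat_lit 3917103), (nat_lit 0)]) (PF.cons (PF.leaf (nat_lit 7341102) (nat_lit 627943) (nat_lit 40685423) (nat_lit 14237037) [(nat_lit 627943), (nat_lit 1834943), (nat_lit 3919818), (nat_lit 0)]) (PF.cons (PF.leaf (nat_lit 7715377) (nat_lit 636185) (nat_lit 40111888) (nat_lit 14131172) [(nat_lit 636185), (nat_lit 1844238), (nat_lit 3920294), (nat_lit 0)]) (PF.cons PF.nil PF.nil))))))) (PF.cons (PF.cons (PF.leaf (nat_lit 6696746) (nat_lit 1813085) (nat_lit 41319295) (nat_lit 14345796) [(nat_lit 0), (nat_lit 1813085), (nat_lit 3908774), (nat_lit 0)]) (PF.cons (PF.leaf (nat_lit 7049263) (nat_lit 617842) (nat_lit 40769462) (nat_lit 14247755) [(nat_lit 617842),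 (nat_lit 1824767), (nat_lit 3912108), (nat_lit 0)]) (PF.cons (PF.leaf (nat_lit 7410286) (nat_lit 627129) (nat_lit 40212780) (nat_lit 14145577) [(nat_lit 627129), (nat_lit 1834781), (nat_lit 3913316), (nat_lit 0)]) (PF.cons (PF.leaf (nat_lit 7777759) (nat_lit 635224) (nat_lit 39652157) (nat_lit 14039750) [(nat_lit 635224), (nat_lit 1843184), (nat_lit 3912431), (nat_lit 0)]) (PF.cons PF.nil PF.nil))))) (PF.cons (PF.cons
 (PF.leaf (nat_lit 7480665) (nat_lit 1834065) (nat_lit 39742286) (nat_lit 14052632) [(nat_lit 0), (nat_lit 1834065), (nat_lit 3905849), (nat_lit 0)]) (PF.cons (PF.leaf (nat_lit 7840643) (nat_lit 633922) (nat_lit 39195429) (nat_lit 13947157) [(nat_lit 633922), (nat_lit 1841629), (nat_lit 3903707), (nat_lit 0)]) (PF.cons (PF.leaf (nat_lit 8206370) (nat_lit 640852) (nat_lit 38646098) (nat_lit 13838461) [(nat_lit 640852), (nat_lit 1847744), (nat_lit 3899658), (nat_lit 0)]) (PF.cons PF.nil PF.nil)))) (PF.cons (PF.cons (PF.leaf (nat_lit 8263399) (nat_lit 1845005)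 (nat_lit 38205405) (nat_lit 13745261) [(nat_lit 0), (nat_lit 1845005), (nat_lit 3889062), (nat_lit 0)]) (PF.cons PF.nil PF.nil)) (PF.cons PF.nil PF.nil)))))) (PF.cons (PF.cons (PF.cons (PF.leaf (nat_lit 6438727) (nat_lit 3884402) (nat_lit 41155886) (nat_lit 14299718) [(nat_lit 0), (nat_lit 0), (nat_lit 3884402), (nat_lit 0)]) (PF.cons (PF.leaf (nat_lit 6774986) (nat_lit 602031) (nat_lit 40634355) (nat_lit 14206525) [(nat_lit 602031), (nat_lit 0), (nat_lit 3888633), (nat_lit 0)]) (PF.cons (PF.leaf (nat_lit 7122265) (nat_lit 612895) (nat_lit 40101797) (nat_lit 14108701) [(nat_lit 612895), (nat_lit 0), (nat_lit 3890841), (nat_lit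
 0)]) (PF.cons (PF.leaf (nat_lit 7477963) (nat_lit 622305) (nat_lit 39562008) (nat_lit 14006843) [(nat_lit 622305), (nat_lit 0), (nat_lit 3891015), (nat_lit 0)]) (PF.cons (PF.leaf (nat_lit 7840224) (nat_lit 630464) (nat_lit 39017935) (nat_lit 13901453) [(nat_lit 630464), (nat_lit 0), (nat_lit 3889188), (nat_lit 0)]) (PF.cons PF.nil (PF.cons PF.nil PF.nil))))))) (PF.cons (PF.cons (PF.leaf (nat_lit 7199115) (nat_lit 1814581) (nat_lit 39627497) (nat_lit 14015058) [(nat_lit 0), (nat_lit 1814581), (nat_lit 3883891), (nat_lit 0)]) (PF.cons (PF.leaf (nat_lit 7546497) (nat_lit 620843) (nat_lit 39102481) (nat_lit 13913810) [(nat_lit 620843), (nat_lit 1823328), (nat_lit 3882782), (nat_lit 0)]) (PF.cons (PF.leaf (nat_lit 7901495) (nat_lit 628955) (nat_lit 38571984) (nat_lit 13808948) [(nat_lit 628955), (nat_lit 1830570), (nat_lit 3879799), (nat_lit 0)]) (PF.cons (PF.leaf (nat_lit 8262147) (nat_lit 635940) (nat_lit 38038676) (nat_lit 13700969) [(nat_lit 635940), (nat_lit 1836372),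 (nat_lit 3874990), (nat_lit 0)]) (PF.cons PF.nil PF.nil))))) (PF.cons (PF.cons (PF.leaf (nat_lit 7964194) (nat_lit 1828167) (nat_lit 38128296) (nat_lit 13715289) [(nat_lit 0), (nat_lit 1828167), (nat_lit 3869630),
 (nat_lit 0)]) (PF.cons (PF.leaf (nat_lit 8317516) (nat_lit 634049) (nat_lit 37608442) (nat_lit 13608095) [(nat_lit 634049), (nat_lit 1833309), (nat_lit 3863868), (nat_lit 0)]) (PF.cons PF.nil (PF.cons PF.nil PF.nil)))) (PF.cons (PF.cons (PF.leaf (nat_lit 8725829) (nat_lit 1833152) (nat_lit 36672386) (nat_lit 13405342) [(nat_lit 0), (nat_lit 1833152), (nat_lit 3843875), (nat_lit 0)]) (PF.cons PF.nil PF.nil)) (PF.cons PF.nil PF.nil))))) (PF.cons (PF.cons (PF.cons (PF.leaf (nat_lit 7679385) (nat_lit 3849261) (nat_lit 38030637) (nat_lit 13681130) [(nat_lit 0), (nat_lit 0), (nat_lit 3849261), (nat_lit 0)]) (PF.cons (PF.leaf (nat_lit 8021096) (nat_lit 621657) (nat_lit 37530701) (nat_lit 13578120) [(nat_lit 621657), (nat_lit 0), (nat_lit 3844583), (nat_lit 0)]) (PF.cons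 (PF.leaf (nat_lit 8369690) (nat_lit 628757) (nat_lit 37026355) (nat_lit 13471955) [(nat_lit 628757), (nat_lit 0), (nat_lit 3838246), (nat_lit 0)]) (PF.cons PF.nil PF.nil)))) (PF.cons (PF.cons (PF.leaf (nat_lit 8425382) (nat_lit 1817546) (nat_lit 36608551) (nat_lit 13378607) [(nat_lit 0), (nat_lit 1817546), (nat_lit 3826026), (nat_lit 0)]) (PF.cons (PF.leaf (nat_lit 8771823) (nat_lit 632434) (nat_lit 36115250) (nat_lit
 13270897) [(nat_lit 632434), (nat_lit 1820685), (nat_lit 3817386), (nat_lit 0)]) PF.nil)) (PF.cons PF.nil PF.nil))) (PF.cons (PF.cons (PF.cons (PF.leaf (nat_lit 8865593) (nat_lit 3776904) (nat_lit 35178798) (nat_lit 13045490) [(nat_lit 0), (nat_lit 0), (nat_lit 3776904), (nat_lit 0)]) (PF.cons PF.nil PF.nil)) (PF.cons PF.nil PF.nil)) (PF.cons PF.nil (PF.cons PF.nil PF.nil)))))))) (PF.cons (PF.cons (PF.cons (PF.cons (PF.leaf (nat_lit 4699485) (nat_lit 8654760) (nat_lit 43795225) (nat_lit 14658826) [(nat_lit 0), (nat_lit 0), (nat_lit 0), (nat_lit 8654760)])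 (PF.cons (PF.leaf (nat_lit 4976931) (nat_lit 512183) (nat_lit 43358141) (nat_lit 14595256) [(nat_lit 512183), (nat_lit 0), (nat_lit 0), (nat_lit 8643230)]) (PF.cons (PF.leaf (nat_lit 5277892) (nat_lit 533655) (nat_lit 42888520) (nat_lit 14524627) [(nat_lit 533655), (nat_lit 0), (nat_lit 0), (nat_lit 8628354)]) (PF.cons (PF.leaf (nat_lit 5597151) (nat_lit 552146) (nat_lit 42394540) (nat_lit 14447788) [(nat_lit 552146), (nat_lit 0), (nat_lit 0), (nat_lit 8610043)]) (PF.cons (PF.leaf (nat_lit 5931183) (nat_lit 568241) (nat_lit 41882184) (nat_lit 14365385) [(nat_lit 568241), (nat_lit 0), (nat_lit 0), (nat_lit 8588275)]) (PF.cons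
 (PF.leaf (nat_lit 6277232) (nat_lit 582340) (nat_lit 41356070) (nat_lit 14277953) [(nat_lit 582340), (nat_lit 0), (nat_lit 0), (nat_lit 8563088)]) (PF.cons (PF.leaf (nat_lit 6633073) (nat_lit 594733) (nat_lit 40819890) (nat_lit 14185959) [(nat_lit 594733), (nat_lit 0), (nat_lit 0), (nat_lit 8534559)]) (PF.cons (PF.leaf (nat_lit 6996831) (nat_lit 605644) (nat_lit 40276668) (nat_lit 14089832) [(nat_lit 605644), (nat_lit 0), (nat_lit 0), (nat_lit 8502804)]) (PF.cons (PF.leaf (nat_lit 7366949) (nat_lit 615245) (nat_lit 39728921) (nat_lit 13989967) [(nat_lit 615245), (nat_lit 0), (nat_lit 0), (nat_lit 8467961)]) (PF.cons PF.nil PF.nil)))))))))) (PF.cons (PF.cons (PF.leaf (nat_lit 5391251) (nat_lit 1698551) (nat_lit 42369048) (nat_lit 14438949) [(nat_lit 0), (nat_lit 1698551), (nat_lit 0), (nat_lit 8602263)]) (PF.cons (PF.leaf (nat_lit 5699404) (nat_lit 552925) (nat_lit 41891453) (nat_lit 14362153) [(nat_lit 552925), (nat_lit 1720168), (nat_lit 0), (nat_lit 8582112)]) (PF.cons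 (PF.leaf (nat_lit 6024250) (nat_lit 568880) (nat_lit 41393310) (nat_lit 14279550) [(nat_lit 568880), (nat_lit 1739625), (nat_lit 0), (nat_lit 8558565)]) (PF.cons (PF.leaf (nat_lit 6362198) (nat_lit 582776)
 (nat_lit 40880059) (nat_lit 14191813) [(nat_lit 582776), (nat_lit 1756920), (nat_lit 0), (nat_lit 8531689)]) (PF.cons (PF.leaf (nat_lit 6710699) (nat_lit 594939) (nat_lit 40355861) (nat_lit 14099492) [(nat_lit 594939), (nat_lit 1772117), (nat_lit 0), (nat_lit 8501584)]) (PF.cons (PF.leaf (nat_lit 7067684) (nat_lit 605608) (nat_lit 39824017) (nat_lit 14003065) [(nat_lit 605608), (nat_lit 1785311), (nat_lit 0), (nat_lit 8468374)]) (PF.cons (PF.leaf (nat_lit 7431465) (nat_lit 614970) (nat_lit 39287214) (nat_lit 13902960) [(nat_lit 614970), (nat_lit 1796611), (nat_lit 0), (nat_lit 8432204)]) (PF.cons PF.nil (PF.cons PF.nil PF.nil))))))))) (PF.cons (PF.cons (PF.leaf (nat_lit 6120149) (nat_lit 1744289) (nat_lit 40902396) (nat_lit 14191120) [(nat_lit 0), (nat_lit 1744289),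 (nat_lit 0), (nat_lit 8526716)]) (PF.cons (PF.leaf (nat_lit 6448704) (nat_lit 582622) (nat_lit 40403938) (nat_lit 14103577) [(nat_lit 582622), (nat_lit 1760119), (nat_lit 0), (nat_lit 8498434)]) (PF.cons (PF.leaf (nat_lit 6789166) (nat_lit 594660) (nat_lit 39893074) (nat_lit 14011323) [(nat_lit 594660), (nat_lit 1774050), (nat_lit 0), (nat_lit 8466993)]) (PF.cons (PF.leaf (nat_lit 7138898) (nat_lit 605168) (nat_lit
 39373582) (nat_lit 13914917) [(nat_lit 605168), (nat_lit 1786134), (nat_lit 0), (nat_lit 8432537)]) (PF.cons (PF.leaf (nat_lit 7495992) (nat_lit 614351) (nat_lit 38848436) (nat_lit 13814839) [(nat_lit 614351), (nat_lit 1796453), (nat_lit 0), (nat_lit 8395223)]) (PF.cons (PF.leaf (nat_lit 7858867) (nat_lit 622368) (nat_lit 38320038) (nat_lit 13711514) [(nat_lit 622368), (nat_lit 1805099), (nat_lit 0), (nat_lit 8355217)]) (PF.cons PF.nil PF.nil))))))) (PF.cons (PF.cons (PF.leaf (nat_lit 6869538) (nat_lit 1775341) (nat_lit 39430679) (nat_lit 13921334) [(nat_lit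 0), (nat_lit 1775341), (nat_lit 0), (nat_lit 8430776)]) (PF.cons (PF.leaf (nat_lit 7211092) (nat_lit 604299) (nat_lit 38924759) (nat_lit 13825322) [(nat_lit 604299), (nat_lit 1786376), (nat_lit 0), (nat_lit 8395300)]) (PF.cons (PF.leaf (nat_lit 7561036) (nat_lit 613374) (nat_lit 38412138) (nat_lit 13725573) [(nat_lit 613374), (nat_lit 1795771), (nat_lit 0), (nat_lit 8357037)]) (PF.cons (PF.leaf (nat_lit 7917350) (nat_lit 621261) (nat_lit 37895510) (nat_lit 13622562) [(nat_lit 621261), (nat_lit 1803597), (nat_lit 0), (nat_lit 8316164)]) (PF.cons (PF.leaf (nat_lit 8278566) (nat_lit 628101) (nat_lit 37377033) (nat_lit 13516707)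
 [(nat_lit 628101), (nat_lit 1809934), (nat_lit 0), (nat_lit 8272860)]) PF.nil))))) (PF.cons (PF.cons (PF.leaf (nat_lit 7627401) (nat_lit 1794591) (nat_lit 37977717) (nat_lit 13635084) [(nat_lit 0), (nat_lit 1794591), (nat_lit 0), (nat_lit 8317643)]) (PF.cons (PF.leaf (nat_lit 7976464) (nat_lit 619834) (nat_lit 37473639) (nat_lit 13532670) [(nat_lit 619834), (nat_lit 1801645), (nat_lit 0), (nat_lit 8276084)]) (PF.cons (PF.leaf (nat_lit 8331253) (nat_lit 626584) (nat_lit 36966917) (nat_lit 13427379) [(nat_lit 626584), (nat_lit 1807297), (nat_lit 0), (nat_lit 8232158)]) (PF.cons PF.nil PF.nil)))) (PF.cons (PF.cons (PF.leaf (nat_lit 8384902) (nat_lit 1804275) (nat_lit 36559561) (nat_lit 13337289) [(nat_lit 0), (nat_lit 1804275), (nat_lit 0), (nat_lit 8190586)]) (PF.cons (PF.leaf (nat_lit 8737322) (nat_lit 630526) (nat_lit 36063781) (nat_lit 13230305) [(nat_lit 630526), (nat_lit 1808025), (nat_lit 0), (nat_lit 8144073)]) PF.nil)) (PF.cons PF.nil (PF.cons PF.nil PF.nil))))))))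 (PF.cons (PF.cons (PF.cons (PF.leaf (nat_lit 5896725) (nat_lit 3790319) (nat_lit 40689942) (nat_lit 14136545) [(nat_lit 0), (nat_lit 0), (nat_lit 3790319), (nat_lit 8492006)]) (PF.cons (PF.leaf (nat_lit 6204580)
 (nat_lit 562731) (nat_lit 40226614) (nat_lit 14054811) [(nat_lit 562731), (nat_lit 0), (nat_lit 3798838), (nat_lit 8465817)]) (PF.cons (PF.leaf (nat_lit 6527847) (nat_lit 577096) (nat_lit 39745173) (nat_lit 13967641) [(nat_lit 577096), (nat_lit 0), (nat_lit 3805408), (nat_lit 8436395)]) (PF.cons (PF.leaf (nat_lit 6862995) (nat_lit 589474) (nat_lit 39250779) (nat_lit 13875782) [(nat_lit 589474), (nat_lit 0), (nat_lit 3809923), (nat_lit 8403904)]) (PF.cons (PF.leaf (nat_lit 7207601) (nat_lit 600200) (nat_lit 38747315) (nat_lit 13779830) [(nat_lit 600200), (nat_lit 0), (nat_lit 3812358), (nat_lit 8368507)]) (PF.cons (PF.leaf (nat_lit 7559686) (nat_lit 609518) (nat_lit 38237822) (nat_lit 13680286) [(nat_lit 609518), (nat_lit 0), (nat_lit 3812739), (nat_lit 8330369)])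 (PF.cons (PF.leaf (nat_lit 7917652) (nat_lit 617615) (nat_lit 37724745) (nat_lit 13577589) [(nat_lit 617615), (nat_lit 0), (nat_lit 3811124), (nat_lit 8289660)]) (PF.cons PF.nil (PF.cons PF.nil PF.nil))))))))) (PF.cons (PF.cons (PF.leaf (nat_lit 6615971) (nat_lit 1752500) (nat_lit 39278119) (nat_lit 13876663) [(nat_lit 0), (nat_lit 1752500), (nat_lit 3801470), (nat_lit 8400059)]) (PF.cons (PF.leaf (nat_lit 6941734)
 (nat_lit 588384) (nat_lit 38798710) (nat_lit 13785551) [(nat_lit 588384), (nat_lit 1765024), (nat_lit 3804447), (nat_lit 8366693)]) (PF.cons (PF.leaf (nat_lit 7278352) (nat_lit 599088) (nat_lit 38308684) (nat_lit 13690173) [(nat_lit 599088), (nat_lit 1775824), (nat_lit 3805506), (nat_lit 8330447)]) (PF.cons (PF.leaf (nat_lit 7623275) (nat_lit 608333) (nat_lit 37811562) (nat_lit 13591118) [(nat_lit 608333), (nat_lit 1784965), (nat_lit 3804653), (nat_lit 8291512)]) (PF.cons (PF.leaf (nat_lit 7974694) (nat_lit 616329) (nat_lit 37310082) (nat_lit 13488878) [(nat_lit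 616329), (nat_lit 1792531), (nat_lit 3801930), (nat_lit 8250073)]) (PF.cons (PF.leaf (nat_lit 8331117) (nat_lit 623234) (nat_lit 36806429) (nat_lit 13383879) [(nat_lit 623234), (nat_lit 1798615), (nat_lit 3797403), (nat_lit 8206313)]) (PF.cons PF.nil PF.nil))))))) (PF.cons (PF.cons (PF.leaf (nat_lit 7351236) (nat_lit 1775109) (nat_lit 37870752) (nat_lit 13599031) [(nat_lit 0), (nat_lit 1775109), (nat_lit 3797759), (nat_lit 8291049)]) (PF.cons (PF.leaf (nat_lit 7688087) (nat_lit 606763) (nat_lit 37387093) (nat_lit 13500810) [(nat_lit 606763), (nat_lit 1783423), (nat_lit 3795773), (nat_lit 8251525)]) (PF.cons (PF.leaf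
 (nat_lit 8032485) (nat_lit 614724) (nat_lit 36897977) (nat_lit 13399301) [(nat_lit 614724), (nat_lit 1790260), (nat_lit 3792032), (nat_lit 8209532)]) (PF.cons (PF.leaf (nat_lit 8382502) (nat_lit 621564) (nat_lit 36405880) (nat_lit 13294985) [(nat_lit 621564), (nat_lit 1795696), (nat_lit 3786592), (nat_lit 8165267)]) (PF.cons PF.nil PF.nil))))) (PF.cons (PF.cons (PF.leaf (nat_lit 8091814) (nat_lit 1787582) (nat_lit 36487828) (nat_lit 13308768) [(nat_lit 0), (nat_lit 1787582), (nat_lit 3781451), (nat_lit 8168017)]) (PF.cons (PF.leaf (nat_lit 8434751) (nat_lit 619609) (nat_lit 36007982) (nat_lit 13205391) [(nat_lit 619609), (nat_lit 1792412), (nat_lit 3775178), (nat_lit 8123411)]) (PF.cons (PF.leaf (nat_lit 8782774) (nat_lit 625435) (nat_lit 35526293) (nat_lit 13099556) [(nat_lit 625435), (nat_lit 1795990), (nat_lit 3767364), (nat_lit 8076755)]) (PF.cons PF.nil PF.nil)))) (PF.cons (PF.cons (PF.leaf (nat_lit 8829938) (nat_lit 1791854) (nat_lit 35142513) (nat_lit 13010283)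 [(nat_lit 0), (nat_lit 1791854), (nat_lit 3754689), (nat_lit 8033909)]) (PF.cons PF.nil PF.nil)) (PF.cons PF.nil PF.nil)))))) (PF.cons (PF.cons (PF.cons (PF.leaf (nat_lit 7092571) (nat_lit 3775088) (nat_lit 37738510)
 (nat_lit 13557877) [(nat_lit 0), (nat_lit 0), (nat_lit 3775088), (nat_lit 8262247)]) (PF.cons (PF.leaf (nat_lit 7414734) (nat_lit 591680) (nat_lit 37279148) (nat_lit 13464543) [(nat_lit 591680), (nat_lit 0), (nat_lit 3774228), (nat_lit 8224984)]) (PF.cons (PF.leaf (nat_lit 7746848) (nat_lit 601226) (nat_lit 36810633) (nat_lit 13367350) [(nat_lit 601226), (nat_lit 0), (nat_lit 3771637), (nat_lit 8185100)]) (PF.cons (PF.leaf (nat_lit 8086448) (nat_lit 609381) (nat_lit 36336245) (nat_lit 13266905) [(nat_lit 609381), (nat_lit 0), (nat_lit 3767347), (nat_lit 8142820)]) (PF.cons (PF.leaf (nat_lit 8431811) (nat_lit 616356) (nat_lit 35858505) (nat_lit 13163700) [(nat_lit 616356), (nat_lit 0), (nat_lit 3761415), (nat_lit 8098348)]) (PF.cons PF.nil (PF.cons PF.nil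 PF.nil))))))) (PF.cons (PF.cons (PF.leaf (nat_lit 7812816) (nat_lit 1769511) (nat_lit 36396711) (nat_lit 13276103) [(nat_lit 0), (nat_lit 1769511), (nat_lit 3761486), (nat_lit 8143514)]) (PF.cons (PF.leaf (nat_lit 8144490) (nat_lit 607255) (nat_lit 35935488) (nat_lit 13176832) [(nat_lit 607255), (nat_lit 1775559), (nat_lit 3756342), (nat_lit 8100991)]) (PF.cons (PF.leaf (nat_lit 8482990) (nat_lit 614255) (nat_lit 35469792)
 (nat_lit 13074669) [(nat_lit 614255), (nat_lit 1780272), (nat_lit 3749643), (nat_lit 8056281)]) (PF.cons (PF.leaf (nat_lit 8826496) (nat_lit 620196) (nat_lit 35001902) (nat_lit 12970089) [(nat_lit 620196), (nat_lit 1783730), (nat_lit 3741453), (nat_lit 8009593)]) (PF.cons PF.nil PF.nil))))) (PF.cons (PF.cons (PF.leaf (nat_lit 8535902) (nat_lit 1776418) (nat_lit 35083025) (nat_lit 12984892) [(nat_lit 0), (nat_lit 1776418), (nat_lit 3737314), (nat_lit 8013428)]) (PF.cons (PF.leaf (nat_lit 8872505) (nat_lit 617825) (nat_lit 34626972) (nat_lit 12881512)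 [(nat_lit 617825), (nat_lit 1779405), (nat_lit 3728509), (nat_lit 7966672)]) (PF.cons PF.nil (PF.cons PF.nil PF.nil)))) (PF.cons (PF.cons (PF.leaf (nat_lit 9254940) (nat_lit 1776267) (nat_lit 33808325) (nat_lit 12688169) [(nat_lit 0), (nat_lit 1776267), (nat_lit 3704443), (nat_lit 7874628)]) (PF.cons PF.nil PF.nil)) (PF.cons PF.nil PF.nil))))) (PF.cons (PF.cons (PF.cons (PF.leaf (nat_lit 8255214) (nat_lit 3718913) (nat_lit 35005633) (nat_lit 12955459) [(nat_lit 0), (nat_lit 0), (nat_lit 3718913), (nat_lit 7990979)]) (PF.cons (PF.leaf (nat_lit 8581369) (nat_lit 606149) (nat_lit 34566577) (nat_lit 12856059) [(nat_lit 606149), (nat_lit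
 0), (nat_lit 3711237), (nat_lit 7946312)]) (PF.cons (PF.leaf (nat_lit 8913781) (nat_lit 612316) (nat_lit 34123827) (nat_lit 12754112) [(nat_lit 612316), (nat_lit 0), (nat_lit 3702178), (nat_lit 7899705)]) (PF.cons PF.nil PF.nil)))) (PF.cons (PF.cons (PF.leaf (nat_lit 8960833) (nat_lit 1761994) (nat_lit 33759359) (nat_lit 12665692) [(nat_lit 0), (nat_lit 1761994), (nat_lit 3688546), (nat_lit 7856126)]) (PF.cons (PF.leaf (nat_lit 9290998) (nat_lit 614786) (nat_lit 33326370) (nat_lit 12563056) [(nat_lit 614786), (nat_lit 1763450), (nat_lit 3677734), (nat_lit 7807944)]) PF.nil)) (PF.cons PF.nil PF.nil))) (PF.cons (PF.cons (PF.cons (PF.leaf (nat_lit 9367781) (nat_lit 3636409) (nat_lit 32512496) (nat_lit 12352813) [(nat_lit 0), (nat_lit 0), (nat_lit 3636409), (nat_lit 7697865)]) (PF.cons PF.nil PF.nil)) (PF.cons PF.nil PF.nil)) (PF.cons PF.nil PF.nil)))))) (PF.cons (PF.cons (PF.cons (PF.cons (PF.leaf (nat_lit 6553126) (nat_lit 8156401) (nat_lit 37376377) (nat_lit 13419632)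 [(nat_lit 0), (nat_lit 0), (nat_lit 0), (nat_lit 8156401)]) (PF.cons (PF.leaf (nat_lit 6850081) (nat_lit 555428) (nat_lit 36965594) (nat_lit 13337241) [(nat_lit 555428), (nat_lit 0), (nat_lit 0), (nat_lit 8125273)])
 (PF.cons (PF.leaf (nat_lit 7161170) (nat_lit 568401) (nat_lit 36539428) (nat_lit 13250050) [(nat_lit 568401), (nat_lit 0), (nat_lit 0), (nat_lit 8091265)]) (PF.cons (PF.leaf (nat_lit 7482992) (nat_lit 579434) (nat_lit 36102408) (nat_lit 13158848) [(nat_lit 579434), (nat_lit 0), (nat_lit 0), (nat_lit 8054625)]) (PF.cons (PF.leaf (nat_lit 7813240) (nat_lit 588877) (nat_lit 35657911) (nat_lit 13064247) [(nat_lit 588877), (nat_lit 0), (nat_lit 0), (nat_lit 8015571)]) (PF.cons (PF.leaf (nat_lit 8150097) (nat_lit 596982) (nat_lit 35208560) (nat_lit 12966747) [(nat_lit 596982), (nat_lit 0), (nat_lit 0), (nat_lit 7974296)]) (PF.cons (PF.leaf (nat_lit 8492080) (nat_lit 603938) (nat_lit 34756440) (nat_lit 12866773) [(nat_lit 603938), (nat_lit 0), (nat_lit 0), (nat_lit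 7930984)]) (PF.cons PF.nil (PF.cons PF.nil PF.nil))))))))) (PF.cons (PF.cons (PF.leaf (nat_lit 7238747) (nat_lit 1714298) (nat_lit 36129742) (nat_lit 13160879) [(nat_lit 0), (nat_lit 1714298), (nat_lit 0), (nat_lit 8051946)]) (PF.cons (PF.leaf (nat_lit 7551475) (nat_lit 577576) (nat_lit 35706259) (nat_lit 13070973) [(nat_lit 577576), (nat_lit 1723925), (nat_lit 0), (nat_lit 8015039)]) (PF.cons (PF.leaf (nat_lit 7874060)
 (nat_lit 587075) (nat_lit 35273851) (nat_lit 12977453) [(nat_lit 587075), (nat_lit 1731972), (nat_lit 0), (nat_lit 7975692)]) (PF.cons (PF.leaf (nat_lit 8204093) (nat_lit 595180) (nat_lit 34835573) (nat_lit 12880906) [(nat_lit 595180), (nat_lit 1738527), (nat_lit 0), (nat_lit 7934132)]) (PF.cons (PF.leaf (nat_lit 8539884) (nat_lit 602103) (nat_lit 34393778) (nat_lit 12781813) [(nat_lit 602103), (nat_lit 1743685), (nat_lit 0), (nat_lit 7890560)]) (PF.cons PF.nil (PF.cons PF.nil PF.nil))))))) (PF.cons (PF.cons (PF.leaf (nat_lit 7937250) (nat_lit 1729541)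 (nat_lit 34890440) (nat_lit 12889600) [(nat_lit 0), (nat_lit 1729541), (nat_lit 0), (nat_lit 7934844)]) (PF.cons (PF.leaf (nat_lit 8259565) (nat_lit 593043) (nat_lit 34464153) (nat_lit 12794303) [(nat_lit 593043), (nat_lit 1735479), (nat_lit 0), (nat_lit 7893176)]) (PF.cons (PF.leaf (nat_lit 8588712) (nat_lit 599995) (nat_lit 34033323) (nat_lit 12696320) [(nat_lit 599995), (nat_lit 1740100), (nat_lit 0), (nat_lit 7849488)]) (PF.cons (PF.leaf (nat_lit 8922859) (nat_lit 605893) (nat_lit 33600078) (nat_lit 12596107) [(nat_lit 605893), (nat_lit 1743485), (nat_lit 0), (nat_lit 7803987)]) (PF.cons PF.nil PF.nil))))) (PF.cons (PF.cons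
 (PF.leaf (nat_lit 8639322) (nat_lit 1736209) (nat_lit 33674524) (nat_lit 12610190) [(nat_lit 0), (nat_lit 1736209), (nat_lit 0), (nat_lit 7807734)]) (PF.cons (PF.leaf (nat_lit 8966783) (nat_lit 603533) (nat_lit 33252065) (nat_lit 12511217) [(nat_lit 603533), (nat_lit 1739155), (nat_lit 0), (nat_lit 7762264)]) (PF.cons PF.nil (PF.cons PF.nil PF.nil)))) (PF.cons (PF.cons (PF.leaf (nat_lit 9338314) (nat_lit 1736049) (nat_lit 32492347) (nat_lit 12326236) [(nat_lit 0), (nat_lit 1736049), (nat_lit 0), (nat_lit 7673014)]) (PF.cons PF.nil PF.nil)) (PF.cons PF.nil PF.nil)))))) (PF.cons (PF.cons (PF.cons (PF.leaf (nat_lit 7680424) (nat_lit 3654712) (nat_lit 34782915) (nat_lit 12853379) [(nat_lit 0), (nat_lit 0), (nat_lit 3654712), (nat_lit 7908902)]) (PF.cons (PF.leaf (nat_lit 7989348) (nat_lit 578736) (nat_lit 34377531) (nat_lit 12762790) [(nat_lit 578736), (nat_lit 0), (nat_lit 3650595), (nat_lit 7869579)]) (PF.cons (PF.leaf (nat_lit 8307393) (nat_lit 587253) (nat_lit 33964352)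 (nat_lit 12668920) [(nat_lit 587253), (nat_lit 0), (nat_lit 3644978), (nat_lit 7828027)]) (PF.cons (PF.leaf (nat_lit 8632209) (nat_lit 594442) (nat_lit 33546224) (nat_lit 12572356) [(nat_lit 594442), (nat_lit 0),
 (nat_lit 3637915), (nat_lit 7784493)]) (PF.cons (PF.leaf (nat_lit 8962186) (nat_lit 600517) (nat_lit 33125319) (nat_lit 12473571) [(nat_lit 600517), (nat_lit 0), (nat_lit 3629476), (nat_lit 7739187)]) PF.nil))))) (PF.cons (PF.cons (PF.leaf (nat_lit 8364663) (nat_lit 1719536) (nat_lit 33601883) (nat_lit 12582054) [(nat_lit 0), (nat_lit 1719536), (nat_lit 3633052), (nat_lit 7786143)]) (PF.cons (PF.leaf (nat_lit 8681931) (nat_lit 591900) (nat_lit 33195376) (nat_lit 12486949) [(nat_lit 591900), (nat_lit 1723689), (nat_lit 3625427), (nat_lit 7742735)]) (PF.cons (PF.leaf (nat_lit 9005441) (nat_lit 598050) (nat_lit 32785061) (nat_lit 12389463) [(nat_lit 598050), (nat_lit 1726648), (nat_lit 3616485), (nat_lit 7697526)]) (PF.cons PF.nil PF.nil)))) (PF.cons (PF.cons (PF.leaf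 (nat_lit 9050624) (nat_lit 1721928) (nat_lit 32446400) (nat_lit 12304853) [(nat_lit 0), (nat_lit 1721928), (nat_lit 3603086), (nat_lit 7655307)]) (PF.cons (PF.leaf (nat_lit 9372128) (nat_lit 600548) (nat_lit 32044600) (nat_lit 12206826) [(nat_lit 600548), (nat_lit 1723440), (nat_lit 3592514), (nat_lit 7608720)]) PF.nil)) (PF.cons PF.nil (PF.cons PF.nil PF.nil))))) (PF.cons (PF.cons (PF.cons (PF.leaf (nat_lit 8775335)
 (nat_lit 3586541) (nat_lit 32384798) (nat_lit 12279646) [(nat_lit 0), (nat_lit 0), (nat_lit 3586541), (nat_lit 7635642)]) (PF.cons (PF.leaf (nat_lit 9087337) (nat_lit 589566) (nat_lit 31997586) (nat_lit 12185325) [(nat_lit 589566), (nat_lit 0), (nat_lit 3577089), (nat_lit 7591077)]) (PF.cons (PF.leaf (nat_lit 9405112) (nat_lit 595019) (nat_lit 31607158) (nat_lit 12088888) [(nat_lit 595019), (nat_lit 0), (nat_lit 3566460), (nat_lit 7544902)]) (PF.cons PF.nil PF.nil)))) (PF.cons (PF.cons (PF.leaf (nat_lit 9445341) (nat_lit 1705370) (nat_lit 31287574) (nat_lit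 12006144) [(nat_lit 0), (nat_lit 1705370), (nat_lit 3552246), (nat_lit 7502615)]) (PF.cons PF.nil PF.nil)) (PF.cons PF.nil PF.nil))) (PF.cons (PF.cons (PF.cons (PF.leaf (nat_lit 9824479) (nat_lit 3499418) (nat_lit 30194057) (nat_lit 11714966) [(nat_lit 0), (nat_lit 0), (nat_lit 3499418), (nat_lit 7350767)]) (PF.cons PF.nil PF.nil)) (PF.cons PF.nil PF.nil)) (PF.cons PF.nil PF.nil))))) (PF.cons (PF.cons (PF.cons (PF.cons (PF.leaf (nat_lit 8214711) (nat_lit 7566355) (nat_lit 32214493) (nat_lit 12195254) [(nat_lit 0), (nat_lit 0), (nat_lit 0), (nat_lit 7566355)]) (PF.cons (PF.leaf (nat_lit 8511324) (nat_lit 564455) (nat_lit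
 31855469) (nat_lit 12108853) [(nat_lit 564455), (nat_lit 0), (nat_lit 0), (nat_lit 7526678)]) (PF.cons (PF.leaf (nat_lit 8816399) (nat_lit 572148) (nat_lit 31489676) (nat_lit 12019612) [(nat_lit 572148), (nat_lit 0), (nat_lit 0), (nat_lit 7485075)]) (PF.cons (PF.leaf (nat_lit 9127680) (nat_lit 578577) (nat_lit 31119598) (nat_lit 11928090) [(nat_lit 578577), (nat_lit 0), (nat_lit 0), (nat_lit 7441797)]) (PF.cons PF.nil PF.nil))))) (PF.cons (PF.cons (PF.leaf (nat_lit 8866628) (nat_lit 1667727) (nat_lit 31170804) (nat_lit 11937972) [(nat_lit 0), (nat_lit 1667727), (nat_lit 0), (nat_lit 7444103)]) (PF.cons (PF.leaf (nat_lit 9170718) (nat_lit 575782) (nat_lit 30810952) (nat_lit 11848029) [(nat_lit 575782), (nat_lit 1670531), (nat_lit 0), (nat_lit 7401172)]) (PF.cons (PF.leaf (nat_lit 9480578) (nat_lit 581268) (nat_lit 30447763) (nat_lit 11756077) [(nat_lit 581268), (nat_lit 1672258), (nat_lit 0), (nat_lit 7356725)]) (PF.cons PF.nil PF.nil)))) (PF.cons (PF.cons (PF.leaf (nat_lit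 9519592) (nat_lit 1667048) (nat_lit 30149676) (nat_lit 11677069) [(nat_lit 0), (nat_lit 1667048), (nat_lit 0), (nat_lit 7315990)]) (PF.cons PF.nil PF.nil)) PF.nil))) (PF.cons (PF.cons (PF.cons (PF.leaf (nat_lit
 9250393) (nat_lit 3456389) (nat_lit 30100441) (nat_lit 11655536) [(nat_lit 0), (nat_lit 0), (nat_lit 3456389), (nat_lit 7298815)]) (PF.cons (PF.leaf (nat_lit 9549505) (nat_lit 572673) (nat_lit 29757279) (nat_lit 11566866) [(nat_lit 572673), (nat_lit 0), (nat_lit 3445943), (nat_lit 7255350)]) (PF.cons PF.nil PF.nil))) (PF.cons (PF.cons (PF.leaf (nat_lit 9888769) (nat_lit 1649410) (nat_lit 29129458) (nat_lit 11399459) [(nat_lit 0), (nat_lit 1649410), (nat_lit 3420183), (nat_lit 7170100)]) PF.nil) PF.nil)) (PF.cons PF.nil PF.nil))) (PF.cons (PF.cons (PF.cons (PF.cons (PF.leaf (nat_lit 9688411) (nat_lit 6982595) (nat_lit 28096955) (nat_lit 11081475) [(nat_lit 0), (nat_lit 0), (nat_lit 0), (nat_lit 6982595)]) (PF.cons (PF.leaf (nat_lit 9975745) (nat_lit 555926) (nat_lit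 27791279) (nat_lit 10998535) [(nat_lit 555926), (nat_lit 0), (nat_lit 0), (nat_lit 6940768)]) PF.nil)) (PF.cons PF.nil PF.nil)) (PF.cons PF.nil PF.nil)) (PF.cons PF.nil (PF.cons PF.nil (PF.cons PF.nil PF.nil))))))))

def p15_29_2_0 : pfC (piC [(nat_lit 35755509), (nat_lit 23968959), (nat_lit 17897616), (nat_lit 12073119)] (nat_lit 6831970)) p15_29_2 (nat_lit 4) (nat_lit 0) (nat_lit 1) = true := by decide +kernel
def p15_29_2_1 : pfC (piC [(nat_lit 35755509), (nat_lit 23968959), (nat_lit 17897616), (nat_lit 12073119)] (nat_lit 6831970)) p15_29_2 (nat_lit 4) (nat_lit 1) (nat_lit 2) = true := by decide +kernel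
def p15_29_2_2 : pfC (piC [(nat_lit 35755509), (nat_lit 23968959), (nat_lit 17897616), (nat_lit 12073119)] (nat_lit 6831970)) p15_29_2 (nat_lit 4) (nat_lit 2) (nat_lit 3) = true := by decide +kernel
def p15_29_2_3 : pfC (piC [(nat_lit 35755509), (nat_lit 23968959), (nat_lit 17897616), (nat_lit 12073119)] (nat_lit 6831970)) p15_29_2 (nat_lit 4) (nat_lit 3) (nat_lit 4) = true := by decide +kernel
def p15_29_2_4 : pfC (piC [(nat_lit 35755509), (nat_lit 23968959), (nat_lit 17897616), (nat_lit 12073119)] (nat_lit 6831970)) p15_29_2 (nat_lit 4) (nat_lit 4) (nat_lit 5) = true := by decide +kernel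
def p15_29_2_5 : pfC (piC [(nat_lit 35755509), (nat_lit 23968959), (nat_lit 17897616), (nat_lit 12073119)] (nat_lit 6831970)) p15_29_2 (nat_lit 4) (nat_lit 5) (nat_lit 6) = true := by decide +kernel
def p15_29_2_6 : pfC (piC [(nat_lit 35755509), (nat_lit 23968959), (nat_lit 17897616), (nat_lit 12073119)] (nat_lit 6831970)) p15_29_2 (nat_lit 4) (nat_lit 6) (nat_lit 7) = true := by decide +kernel
def p15_29_2_7 : pfC (piC [(nat_lit 35755509), (nat_lit 23968959), (nat_lit 17897616), (nat_lit 12073119)] (nat_lit 6831970)) p15_29_2 (nat_lit 4) (nat_lit 7) (nat_lit 8) = true := by decide +kernel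
def p15_29_2_8 : pfC (piC [(nat_lit 35755509), (nat_lit 23968959), (nat_lit 17897616), (nat_lit 12073119)] (nat_lit 6831970)) p15_29_2 (nat_lit 4) (nat_lit 8) (nat_lit 9) = true := by decide +kernel
def p15_29_2_9 : pfC (piC [(nat_lit 35755509), (nat_lit 23968959), (nat_lit 17897616), (nat_lit 12073119)] (nat_lit 6831970)) p15_29_2 (nat_lit 4) (nat_lit 9) (nat_lit 10) = true := by decide +kernel
def p15_29_2_10 : pfC (piC [(nat_lit 35755509), (nat_lit 23968959), (nat_lit 17897616), (nat_lit 12073119)] (nat_lit 6831970)) p15_29_2 (nat_lit 4) (nat_lit 10) (nat_lit 11) = true := by decide +kernel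
def p15_29_2_11 : pfC (piC [(nat_lit 35755509), (nat_lit 23968959), (nat_lit 17897616), (nat_lit 12073119)] (nat_lit 6831970)) p15_29_2 (nat_lit 4) (nat_lit 11) (nat_lit 12) = true := by decide +kernel
def p15_29_2_12 : pfC (piC [(nat_lit 35755509), (nat_lit 23968959), (nat_lit 17897616), (nat_lit 12073119)] (nat_lit 6831970)) p15_29_2 (nat_lit 4) (nat_lit 12) (nat_lit 13) = true := by decide +kernel
def p15_29_2_13 : pfC (piC [(nat_lit 35755509), (nat_lit 23968959), (nat_lit 17897616), (nat_lit 12073119)] (nat_lit 6831970)) p15_29_2 (nat_lit 4) (nat_lit 13) (nat_lit 14) = true := by decide +kernel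
def p15_29_2_14 : pfC (piC [(nat_lit 35755509), (nat_lit 23968959), (nat_lit 17897616), (nat_lit 12073119)] (nat_lit 6831970)) p15_29_2 (nat_lit 4) (nat_lit 14) (nat_lit 15) = true := by decide +kernel
def p15_29_2_15 : pfC (piC [(nat_lit 35755509), (nat_lit 23968959), (nat_lit 17897616), (nat_lit 12073119)] (nat_lit 6831970)) p15_29_2 (nat_lit 4) (nat_lit 15) (nat_lit 16) = true := by decide +kernel
def p15_29_2_16 : pfC (piC [(nat_lit 35755509), (nat_lit 23968959), (nat_lit 17897616), (nat_lit 12073119)] (nat_lit 6831970)) p15_29_2 (nat_lit 4) (nat_lit 16) (nat_lit 17) = true := by decide +kernel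
def p15_29_2_17 : pfC (piC [(nat_lit 35755509), (nat_lit 23968959), (nat_lit 17897616), (nat_lit 12073119)] (nat_lit 6831970)) p15_29_2 (nat_lit 4) (nat_lit 17) (nat_lit 18) = true := by decide +kernel
def p15_29_2_18 : pfC (piC [(nat_lit 35755509), (nat_lit 23968959), (nat_lit 17897616), (nat_lit 12073119)] (nat_lit 6831970)) p15_29_2 (nat_lit 4) (nat_lit 18) (nat_lit 19) = true := by decide +kernel
def p15_29_2_19 : pfC (piC [(nat_lit 35755509), (nat_lit 23968959), (nat_lit 17897616), (nat_lit 12073119)] (nat_lit 6831970)) p15_29_2 (nat_lit 4) (nat_lit 19) (nat_lit 20) = true := by decide +kernel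
def p15_29_2_20 : pfC (piC [(nat_lit 35755509), (nat_lit 23968959), (nat_lit 17897616), (nat_lit 12073119)] (nat_lit 6831970)) p15_29_2 (nat_lit 4) (nat_lit 20) (nat_lit 21) = true := by decide +kernel
def p15_29_2_21 : pfC (piC [(nat_lit 35755509), (nat_lit 23968959), (nat_lit 17897616), (nat_lit 12073119)] (nat_lit 6831970)) p15_29_2 (nat_lit 4) (nat_lit 21) (nat_lit 22) = true := by decide +kernel
def p15_29_2_22 : pfC (piC [(nat_lit 35755509), (nat_lit 23968959), (nat_lit 17897616), (nat_lit 12073119)] (nat_lit 6831970)) p15_29_2 (nat_lit 4) (nat_lit 22) (nat_lit 23) = true := by decide +kernel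
def p15_29_2_23 : pfC (piC [(nat_lit 35755509), (nat_lit 23968959), (nat_lit 17897616), (nat_lit 12073119)] (nat_lit 6831970)) p15_29_2 (nat_lit 4) (nat_lit 23) (nat_lit 24) = true := by decide +kernel
def p15_29_2_24 : pfC (piC [(nat_lit 35755509), (nat_lit 23968959), (nat_lit 17897616), (nat_lit 12073119)] (nat_lit 6831970)) p15_29_2 (nat_lit 4) (nat_lit 24) (nat_lit 25) = true := by decide +kernel
def p15_29_2_25 : pfC (piC [(nat_lit 35755509), (nat_lit 23968959), (nat_lit 17897616), (nat_lit 12073119)] (nat_lit 6831970)) p15_29_2 (nat_lit 4) (nat_lit 25) (nat_lit 26) = true := by decide +kernel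
def p15_29_2_26 : pfC (piC [(nat_lit 35755509), (nat_lit 23968959), (nat_lit 17897616), (nat_lit 12073119)] (nat_lit 6831970)) p15_29_2 (nat_lit 4) (nat_lit 26) (nat_lit 27) = true := by decide +kernel
def p15_29_2_27 : pfC (piC [(nat_lit 35755509), (nat_lit 23968959), (nat_lit 17897616), (nat_lit 12073119)] (nat_lit 6831970)) p15_29_2 (nat_lit 4) (nat_lit 27) (nat_lit 28) = true := by decide +kernel
def p15_29_2_28 : pfC (piC [(nat_lit 35755509), (nat_lit 23968959), (nat_lit 17897616), (nat_lit 12073119)] (nat_lit 6831970)) p15_29_2 (nat_lit 4) (nat_lit 28) (nat_lit 29) = true := by decide +kernel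
def p15_29_2_29 : pfC (piC [(nat_lit 35755509), (nat_lit 23968959), (nat_lit 17897616), (nat_lit 12073119)] (nat_lit 6831970)) p15_29_2 (nat_lit 4) (nat_lit 29) (nat_lit 30) = true := by decide +kernel
def p15_29_2_30 : pfC (piC [(nat_lit 35755509), (nat_lit 23968959), (nat_lit 17897616), (nat_lit 12073119)] (nat_lit 6831970)) p15_29_2 (nat_lit 4) (nat_lit 30) (nat_lit 31) = true := by decide +kernel
def p15_29_2_31 : pfC (piC [(nat_lit 35755509), (nat_lit 23968959), (nat_lit 17897616), (nat_lit 12073119)] (nat_lit 6831970)) p15_29_2 (nat_lit 4) (nat_lit 31) (nat_lit 32) = true := by decide +kernel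
def p15_29_2_32 : pfC (piC [(nat_lit 35755509), (nat_lit 23968959), (nat_lit 17897616), (nat_lit 12073119)] (nat_lit 6831970)) p15_29_2 (nat_lit 4) (nat_lit 32) (nat_lit 33) = true := by decide +kernel
def p15_29_2_33 : pfC (piC [(nat_lit 35755509), (nat_lit 23968959), (nat_lit 17897616), (nat_lit 12073119)] (nat_lit 6831970)) p15_29_2 (nat_lit 4) (nat_lit 33) (nat_lit 34) = true := by decide +kernel
def p15_29_2_34 : pfC (piC [(nat_lit 35755509), (nat_lit 23968959), (nat_lit 17897616), (nat_lit 12073119)] (nat_lit 6831970)) p15_29_2 (nat_lit 4) (nat_lit 34) (nat_lit 35) = true := by decide +kernel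
def p15_29_2_35 : pfC (piC [(nat_lit 35755509), (nat_lit 23968959), (nat_lit 17897616), (nat_lit 12073119)] (nat_lit 6831970)) p15_29_2 (nat_lit 4) (nat_lit 35) (nat_lit 36) = true := by decide +kernel
def p15_29_2_36 : pfC (piC [(nat_lit 35755509), (nat_lit 23968959), (nat_lit 17897616), (nat_lit 12073119)] (nat_lit 6831970)) p15_29_2 (nat_lit 4) (nat_lit 36) (nat_lit 37) = true := by decide +kernel
def p15_29_2_37 : pfC (piC [(nat_lit 35755509), (nat_lit 23968959), (nat_lit 17897616), (nat_lit 12073119)] (nat_lit 6831970)) p15_29_2 (nat_lit 4) (nat_lit 37) (nat_lit 38) = true := by decide +kernel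
def p15_29_2_38 : pfC (piC [(nat_lit 35755509), (nat_lit 23968959), (nat_lit 17897616), (nat_lit 12073119)] (nat_lit 6831970)) p15_29_2 (nat_lit 4) (nat_lit 38) (nat_lit 39) = true := by decide +kernel
def p15_29_2_39 : pfC (piC [(nat_lit 35755509), (nat_lit 23968959), (nat_lit 17897616), (nat_lit 12073119)] (nat_lit 6831970)) p15_29_2 (nat_lit 4) (nat_lit 39) (nat_lit 40) = true := by decide +kernel
def p15_29_2_40 : pfC (piC [(nat_lit 35755509), (nat_lit 23968959), (nat_lit 17897616), (nat_lit 12073119)] (nat_lit 6831970)) p15_29_2 (nat_lit 4) (nat_lit 40) (nat_lit 41) = true := by decide +kernel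
def p15_29_2_41 : pfC (piC [(nat_lit 35755509), (nat_lit 23968959), (nat_lit 17897616), (nat_lit 12073119)] (nat_lit 6831970)) p15_29_2 (nat_lit 4) (nat_lit 41) (nat_lit 42) = true := by decide +kernel
def p15_29_2_42 : pfC (piC [(nat_lit 35755509), (nat_lit 23968959), (nat_lit 17897616), (nat_lit 12073119)] (nat_lit 6831970)) p15_29_2 (nat_lit 4) (nat_lit 42) (nat_lit 43) = true := by decide +kernel
def p15_29_2_43 : pfC (piC [(nat_lit 35755509), (nat_lit 23968959), (nat_lit 17897616), (nat_lit 12073119)] (nat_lit 6831970)) p15_29_2 (nat_lit 4) (nat_lit 43) (nat_lit 44) = true := by decide +kernel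
def p15_29_2_44 : pfC (piC [(nat_lit 35755509), (nat_lit 23968959), (nat_lit 17897616), (nat_lit 12073119)] (nat_lit 6831970)) p15_29_2 (nat_lit 4) (nat_lit 44) (nat_lit 45) = true := by decide +kernel
def p15_29_2_45 : pfC (piC [(nat_lit 35755509), (nat_lit 23968959), (nat_lit 17897616), (nat_lit 12073119)] (nat_lit 6831970)) p15_29_2 (nat_lit 4) (nat_lit 45) (nat_lit 46) = true := by decide +kernel
def p15_29_2_46 : pfC (piC [(nat_lit 35755509), (nat_lit 23968959), (nat_lit 17897616), (nat_lit 12073119)] (nat_lit 6831970)) p15_29_2 (nat_lit 4) (nat_lit 46) (nat_lit 47) = true := by decide +kernel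
def p15_29_2_47 : pfC (piC [(nat_lit 35755509), (nat_lit 23968959), (nat_lit 17897616), (nat_lit 12073119)] (nat_lit 6831970)) p15_29_2 (nat_lit 4) (nat_lit 47) (nat_lit 48) = true := by decide +kernel
def p15_29_2_48 : pfC (piC [(nat_lit 35755509), (nat_lit 23968959), (nat_lit 17897616), (nat_lit 12073119)] (nat_lit 6831970)) p15_29_2 (nat_lit 4) (nat_lit 48) (nat_lit 49) = true := by decide +kernel
def p15_29_2_49 : pfC (piC [(nat_lit 35755509), (nat_lit 23968959), (nat_lit 17897616), (nat_lit 12073119)] (nat_lit 6831970)) p15_29_2 (nat_lit 4) (nat_lit 49) (nat_lit 50) = true := by decide +kernel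
def p15_29_2_50 : pfC (piC [(nat_lit 35755509), (nat_lit 23968959), (nat_lit 17897616), (nat_lit 12073119)] (nat_lit 6831970)) p15_29_2 (nat_lit 4) (nat_lit 50) (nat_lit 51) = true := by decide +kernel
def p15_29_2_51 : pfC (piC [(nat_lit 35755509), (nat_lit 23968959), (nat_lit 17897616), (nat_lit 12073119)] (nat_lit 6831970)) p15_29_2 (nat_lit 4) (nat_lit 51) (nat_lit 52) = true := by decide +kernel
def p15_29_2_52 : pfC (piC [(nat_lit 35755509), (nat_lit 23968959), (nat_lit 17897616), (nat_lit 12073119)] (nat_lit 6831970)) p15_29_2 (nat_lit 4) (nat_lit 52) (nat_lit 53) = true := by decide +kernel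
def p15_29_2_53 : pfC (piC [(nat_lit 35755509), (nat_lit 23968959), (nat_lit 17897616), (nat_lit 12073119)] (nat_lit 6831970)) p15_29_2 (nat_lit 4) (nat_lit 53) (nat_lit 54) = true := by decide +kernel
def p15_29_2_54 : pfC (piC [(nat_lit 35755509), (nat_lit 23968959), (nat_lit 17897616), (nat_lit 12073119)] (nat_lit 6831970)) p15_29_2 (nat_lit 4) (nat_lit 54) (nat_lit 55) = true := by decide +kernel
def p15_29_2_55 : pfC (piC [(nat_lit 35755509), (nat_lit 23968959), (nat_lit 17897616), (nat_lit 12073119)] (nat_lit 6831970)) p15_29_2 (nat_lit 4) (nat_lit 55) (nat_lit 56) = true := by decide +kernel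
def p15_29_2_56 : pfC (piC [(nat_lit 35755509), (nat_lit 23968959), (nat_lit 17897616), (nat_lit 12073119)] (nat_lit 6831970)) p15_29_2 (nat_lit 4) (nat_lit 56) (nat_lit 57) = true := by decide +kernel
def p15_29_2_57 : pfC (piC [(nat_lit 35755509), (nat_lit 23968959), (nat_lit 17897616), (nat_lit 12073119)] (nat_lit 6831970)) p15_29_2 (nat_lit 4) (nat_lit 57) (nat_lit 58) = true := by decide +kernel
def p15_29_2_58 : pfC (piC [(nat_lit 35755509), (nat_lit 23968959), (nat_lit 17897616), (nat_lit 12073119)] (nat_lit 6831970)) p15_29_2 (nat_lit 4) (nat_lit 58) (nat_lit 59) = true := by decide +kernel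
def p15_29_2_59 : pfC (piC [(nat_lit 35755509), (nat_lit 23968959), (nat_lit 17897616), (nat_lit 12073119)] (nat_lit 6831970)) p15_29_2 (nat_lit 4) (nat_lit 59) (nat_lit 60) = true := by decide +kernel
def p15_29_2_60 : pfC (piC [(nat_lit 35755509), (nat_lit 23968959), (nat_lit 17897616), (nat_lit 12073119)] (nat_lit 6831970)) p15_29_2 (nat_lit 4) (nat_lit 60) (nat_lit 61) = true := by decide +kernel
def p15_29_2_61 : pfC (piC [(nat_lit 35755509), (nat_lit 23968959), (nat_lit 17897616), (nat_lit 12073119)] (nat_lit 6831970)) p15_29_2 (nat_lit 4) (nat_lit 61) (nat_lit 62) = true := by decide +kernel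
def p15_29_2_62 : pfC (piC [(nat_lit 35755509), (nat_lit 23968959), (nat_lit 17897616), (nat_lit 12073119)] (nat_lit 6831970)) p15_29_2 (nat_lit 4) (nat_lit 62) (nat_lit 63) = true := by decide +kernel
def p15_29_2_63 : pfC (piC [(nat_lit 35755509), (nat_lit 23968959), (nat_lit 17897616), (nat_lit 12073119)] (nat_lit 6831970)) p15_29_2 (nat_lit 4) (nat_lit 63) (nat_lit 64) = true := by decide +kernel
def p15_29_2_64 : pfC (piC [(nat_lit 35755509), (nat_lit 23968959), (nat_lit 17897616), (nat_lit 12073119)] (nat_lit 6831970)) p15_29_2 (nat_lit 4) (nat_lit 64) (nat_lit 65) = true := by decide +kernel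
def p15_29_2_65 : pfC (piC [(nat_lit 35755509), (nat_lit 23968959), (nat_lit 17897616), (nat_lit 12073119)] (nat_lit 6831970)) p15_29_2 (nat_lit 4) (nat_lit 65) (nat_lit 66) = true := by decide +kernel
def p15_29_2_66 : pfC (piC [(nat_lit 35755509), (nat_lit 23968959), (nat_lit 17897616), (nat_lit 12073119)] (nat_lit 6831970)) p15_29_2 (nat_lit 4) (nat_lit 66) (nat_lit 67) = true := by decide +kernel
def p15_29_2_67 : pfC (piC [(nat_lit 35755509), (nat_lit 23968959), (nat_lit 17897616), (nat_lit 12073119)] (nat_lit 6831970)) p15_29_2 (nat_lit 4) (nat_lit 67) (nat_lit 68) = true := by decide +kernel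
def p15_29_2_68 : pfC (piC [(nat_lit 35755509), (nat_lit 23968959), (nat_lit 17897616), (nat_lit 12073119)] (nat_lit 6831970)) p15_29_2 (nat_lit 4) (nat_lit 68) (nat_lit 69) = true := by decide +kernel
def p15_29_2_69 : pfC (piC [(nat_lit 35755509), (nat_lit 23968959), (nat_lit 17897616), (nat_lit 12073119)] (nat_lit 6831970)) p15_29_2 (nat_lit 4) (nat_lit 69) (nat_lit 70) = true := by decide +kernel
def p15_29_2_70 : pfC (piC [(nat_lit 35755509), (nat_lit 23968959), (nat_lit 17897616), (nat_lit 12073119)] (nat_lit 6831970)) p15_29_2 (nat_lit 4) (nat_lit 70) (nat_lit 71) = true := by decide +kernel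
def p15_29_2_71 : pfC (piC [(nat_lit 35755509), (nat_lit 23968959), (nat_lit 17897616), (nat_lit 12073119)] (nat_lit 6831970)) p15_29_2 (nat_lit 4) (nat_lit 71) (nat_lit 72) = true := by decide +kernel
def p15_29_2_72 : pfC (piC [(nat_lit 35755509), (nat_lit 23968959), (nat_lit 17897616), (nat_lit 12073119)] (nat_lit 6831970)) p15_29_2 (nat_lit 4) (nat_lit 72) (nat_lit 73) = true := by decide +kernel
def p15_29_2_73 : pfC (piC [(nat_lit 35755509), (nat_lit 23968959), (nat_lit 17897616), (nat_lit 12073119)] (nat_lit 6831970)) p15_29_2 (nat_lit 4) (nat_lit 73) (nat_lit 74) = true := by decide +kernel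
def p15_29_2_74 : pfC (piC [(nat_lit 35755509), (nat_lit 23968959), (nat_lit 17897616), (nat_lit 12073119)] (nat_lit 6831970)) p15_29_2 (nat_lit 4) (nat_lit 74) (nat_lit 75) = true := by decide +kernel
def p15_29_2_75 : pfC (piC [(nat_lit 35755509), (nat_lit 23968959), (nat_lit 17897616), (nat_lit 12073119)] (nat_lit 6831970)) p15_29_2 (nat_lit 4) (nat_lit 75) (nat_lit 76) = true := by decide +kernel
def p15_29_2_76 : pfC (piC [(nat_lit 35755509), (nat_lit 23968959), (nat_lit 17897616), (nat_lit 12073119)] (nat_lit 6831970)) p15_29_2 (nat_lit 4) (nat_lit 76) (nat_lit 77) = true := by decide +kernel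
def p15_29_2_77 : pfC (piC [(nat_lit 35755509), (nat_lit 23968959), (nat_lit 17897616), (nat_lit 12073119)] (nat_lit 6831970)) p15_29_2 (nat_lit 4) (nat_lit 77) (nat_lit 78) = true := by decide +kernel
def p15_29_2_78 : pfC (piC [(nat_lit 35755509), (nat_lit 23968959), (nat_lit 17897616), (nat_lit 12073119)] (nat_lit 6831970)) p15_29_2 (nat_lit 4) (nat_lit 78) (nat_lit 79) = true := by decide +kernel
def p15_29_2_79 : pfC (piC [(nat_lit 35755509), (nat_lit 23968959), (nat_lit 17897616), (nat_lit 12073119)] (nat_lit 6831970)) p15_29_2 (nat_lit 4) (nat_lit 79) (nat_lit 80) = true := by decide +kernel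
def p15_29_2_80 : pfC (piC [(nat_lit 35755509), (nat_lit 23968959), (nat_lit 17897616), (nat_lit 12073119)] (nat_lit 6831970)) p15_29_2 (nat_lit 4) (nat_lit 80) (nat_lit 81) = true := by decide +kernel
def p15_29_2_81 : pfC (piC [(nat_lit 35755509), (nat_lit 23968959), (nat_lit 17897616), (nat_lit 12073119)] (nat_lit 6831970)) p15_29_2 (nat_lit 4) (nat_lit 81) (nat_lit 82) = true := by decide +kernel
def p15_29_2_82 : pfC (piC [(nat_lit 35755509), (nat_lit 23968959), (nat_lit 17897616), (nat_lit 12073119)] (nat_lit 6831970)) p15_29_2 (nat_lit 4) (nat_lit 82) (nat_lit 83) = true := by decide +kernel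
def p15_29_2_83 : pfC (piC [(nat_lit 35755509), (nat_lit 23968959), (nat_lit 17897616), (nat_lit 12073119)] (nat_lit 6831970)) p15_29_2 (nat_lit 4) (nat_lit 83) (nat_lit 84) = true := by decide +kernel
def p15_29_2_84 : pfC (piC [(nat_lit 35755509), (nat_lit 23968959), (nat_lit 17897616), (nat_lit 12073119)] (nat_lit 6831970)) p15_29_2 (nat_lit 4) (nat_lit 84) (nat_lit 85) = true := by decide +kernel
def p15_29_2_85 : pfC (piC [(nat_lit 35755509), (nat_lit 23968959), (nat_lit 17897616), (nat_lit 12073119)] (nat_lit 6831970)) p15_29_2 (nat_lit 4) (nat_lit 85) (nat_lit 86) = true := by decide +kernel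
def p15_29_2_86 : pfC (piC [(nat_lit 35755509), (nat_lit 23968959), (nat_lit 17897616), (nat_lit 12073119)] (nat_lit 6831970)) p15_29_2 (nat_lit 4) (nat_lit 86) (nat_lit 87) = true := by decide +kernel
def p15_29_2_87 : pfC (piC [(nat_lit 35755509), (nat_lit 23968959), (nat_lit 17897616), (nat_lit 12073119)] (nat_lit 6831970)) p15_29_2 (nat_lit 4) (nat_lit 87) (nat_lit 88) = true := by decide +kernel
def p15_29_2_88 : pfC (piC [(nat_lit 35755509), (nat_lit 23968959), (nat_lit 17897616), (nat_lit 12073119)] (nat_lit 6831970)) p15_29_2 (nat_lit 4) (nat_lit 88) (nat_lit 89) = true := by decide +kernel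
def p15_29_2_89 : pfC (piC [(nat_lit 35755509), (nat_lit 23968959), (nat_lit 17897616), (nat_lit 12073119)] (nat_lit 6831970)) p15_29_2 (nat_lit 4) (nat_lit 89) (nat_lit 90) = true := by decide +kernel
def p15_29_2_90 : pfC (piC [(nat_lit 35755509), (nat_lit 23968959), (nat_lit 17897616), (nat_lit 12073119)] (nat_lit 6831970)) p15_29_2 (nat_lit 4) (nat_lit 90) (nat_lit 91) = true := by decide +kernel
def p15_29_2_91 : pfC (piC [(nat_lit 35755509), (nat_lit 23968959), (nat_lit 17897616), (nat_lit 12073119)] (nat_lit 6831970)) p15_29_2 (nat_lit 4) (nat_lit 91) (nat_lit 92) = true := by decide +kernel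
def p15_29_2_92 : pfC (piC [(nat_lit 35755509), (nat_lit 23968959), (nat_lit 17897616), (nat_lit 12073119)] (nat_lit 6831970)) p15_29_2 (nat_lit 4) (nat_lit 92) (nat_lit 93) = true := by decide +kernel
def p15_29_2_93 : pfC (piC [(nat_lit 35755509), (nat_lit 23968959), (nat_lit 17897616), (nat_lit 12073119)] (nat_lit 6831970)) p15_29_2 (nat_lit 4) (nat_lit 93) (nat_lit 94) = true := by decide +kernel
def p15_29_2_94 : pfC (piC [(nat_lit 35755509), (nat_lit 23968959), (nat_lit 17897616), (nat_lit 12073119)] (nat_lit 6831970)) p15_29_2 (nat_lit 4) (nat_lit 94) (nat_lit 95) = true := by decide +kernel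
def p15_29_2_95 : pfC (piC [(nat_lit 35755509), (nat_lit 23968959), (nat_lit 17897616), (nat_lit 12073119)] (nat_lit 6831970)) p15_29_2 (nat_lit 4) (nat_lit 95) (nat_lit 96) = true := by decide +kernel
def p15_29_2_96 : pfC (piC [(nat_lit 35755509), (nat_lit 23968959), (nat_lit 17897616), (nat_lit 12073119)] (nat_lit 6831970)) p15_29_2 (nat_lit 4) (nat_lit 96) (nat_lit 97) = true := by decide +kernel
def p15_29_2_97 : pfC (piC [(nat_lit 35755509), (nat_lit 23968959), (nat_lit 17897616), (nat_lit 12073119)] (nat_lit 6831970)) p15_29_2 (nat_lit 4) (nat_lit 97) (nat_lit 98) = true := by decide +kernel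
def p15_29_2_98 : pfC (piC [(nat_lit 35755509), (nat_lit 23968959), (nat_lit 17897616), (nat_lit 12073119)] (nat_lit 6831970)) p15_29_2 (nat_lit 4) (nat_lit 98) (nat_lit 99) = true := by decide +kernel
def p15_29_2_99 : pfC (piC [(nat_lit 35755509), (nat_lit 23968959), (nat_lit 17897616), (nat_lit 12073119)] (nat_lit 6831970)) p15_29_2 (nat_lit 4) (nat_lit 99) (nat_lit 100) = true := by decide +kernel
def p15_29_2_100 : pfC (piC [(nat_lit 35755509), (nat_lit 23968959), (nat_lit 17897616), (nat_lit 12073119)] (nat_lit 6831970)) p15_29_2 (nat_lit 4) (nat_lit 100) (nat_lit 101) = true := by decide +kernel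
def p15_29_2_101 : pfC (piC [(nat_lit 35755509), (nat_lit 23968959), (nat_lit 17897616), (nat_lit 12073119)] (nat_lit 6831970)) p15_29_2 (nat_lit 4) (nat_lit 101) (nat_lit 102) = true := by decide +kernel
def p15_29_2_102 : pfC (piC [(nat_lit 35755509), (nat_lit 23968959), (nat_lit 17897616), (nat_lit 12073119)] (nat_lit 6831970)) p15_29_2 (nat_lit 4) (nat_lit 102) (nat_lit 103) = true := by decide +kernel
def p15_29_2_103 : pfC (piC [(nat_lit 35755509), (nat_lit 23968959), (nat_lit 17897616), (nat_lit 12073119)] (nat_lit 6831970)) p15_29_2 (nat_lit 4) (nat_lit 103) (nat_lit 104) = true := by decide +kernel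
def p15_29_2_104 : pfC (piC [(nat_lit 35755509), (nat_lit 23968959), (nat_lit 17897616), (nat_lit 12073119)] (nat_lit 6831970)) p15_29_2 (nat_lit 4) (nat_lit 104) (nat_lit 105) = true := by decide +kernel
def p15_29_2_105 : pfC (piC [(nat_lit 35755509), (nat_lit 23968959), (nat_lit 17897616), (nat_lit 12073119)] (nat_lit 6831970)) p15_29_2 (nat_lit 4) (nat_lit 105) (nat_lit 106) = true := by decide +kernel
def p15_29_2_106 : pfC (piC [(nat_lit 35755509), (nat_lit 23968959), (nat_lit 17897616), (nat_lit 12073119)] (nat_lit 6831970)) p15_29_2 (nat_lit 4) (nat_lit 106) (nat_lit 107) = true := by decide +kernel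
def p15_29_2_107 : pfC (piC [(nat_lit 35755509), (nat_lit 23968959), (nat_lit 17897616), (nat_lit 12073119)] (nat_lit 6831970)) p15_29_2 (nat_lit 4) (nat_lit 107) (nat_lit 108) = true := by decide +kernel
def p15_29_2_108 : pfC (piC [(nat_lit 35755509), (nat_lit 23968959), (nat_lit 17897616), (nat_lit 12073119)] (nat_lit 6831970)) p15_29_2 (nat_lit 4) (nat_lit 108) (nat_lit 109) = true := by decide +kernel
def p15_29_2_109 : pfC (piC [(nat_lit 35755509), (nat_lit 23968959), (nat_lit 17897616), (nat_lit 12073119)] (nat_lit 6831970)) p15_29_2 (nat_lit 4) (nat_lit 109) (nat_lit 110) = true := by decide +kernel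
def p15_29_2_110 : pfC (piC [(nat_lit 35755509), (nat_lit 23968959), (nat_lit 17897616), (nat_lit 12073119)] (nat_lit 6831970)) p15_29_2 (nat_lit 4) (nat_lit 110) (nat_lit 111) = true := by decide +kernel
def p15_29_2_111 : pfC (piC [(nat_lit 35755509), (nat_lit 23968959), (nat_lit 17897616), (nat_lit 12073119)] (nat_lit 6831970)) p15_29_2 (nat_lit 4) (nat_lit 111) (nat_lit 112) = true := by decide +kernel
def p15_29_2_112 : pfC (piC [(nat_lit 35755509), (nat_lit 23968959), (nat_lit 17897616), (nat_lit 12073119)] (nat_lit 6831970)) p15_29_2 (nat_lit 4) (nat_lit 112) (nat_lit 113) = true := by decide +kernel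
def p15_29_2_113 : pfC (piC [(nat_lit 35755509), (nat_lit 23968959), (nat_lit 17897616), (nat_lit 12073119)] (nat_lit 6831970)) p15_29_2 (nat_lit 4) (nat_lit 113) (nat_lit 114) = true := by decide +kernel
def p15_29_2_114 : pfC (piC [(nat_lit 35755509), (nat_lit 23968959), (nat_lit 17897616), (nat_lit 12073119)] (nat_lit 6831970)) p15_29_2 (nat_lit 4) (nat_lit 114) (nat_lit 115) = true := by decide +kernel
def p15_29_2_115 : pfC (piC [(nat_lit 35755509), (nat_lit 23968959), (nat_lit 17897616), (nat_lit 12073119)] (nat_lit 6831970)) p15_29_2 (nat_lit 4) (nat_lit 115) (nat_lit 116) = true := by decide +kernel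
def p15_29_2_116 : pfC (piC [(nat_lit 35755509), (nat_lit 23968959), (nat_lit 17897616), (nat_lit 12073119)] (nat_lit 6831970)) p15_29_2 (nat_lit 4) (nat_lit 116) (nat_lit 117) = true := by decide +kernel
def p15_29_2_117 : pfC (piC [(nat_lit 35755509), (nat_lit 23968959), (nat_lit 17897616), (nat_lit 12073119)] (nat_lit 6831970)) p15_29_2 (nat_lit 4) (nat_lit 117) (nat_lit 118) = true := by decide +kernel
def p15_29_2_118 : pfC (piC [(nat_lit 35755509), (nat_lit 23968959), (nat_lit 17897616), (nat_lit 12073119)] (nat_lit 6831970)) p15_29_2 (nat_lit 4) (nat_lit 118) (nat_lit 119) = true := by decide +kernel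
def p15_29_2_119 : pfC (piC [(nat_lit 35755509), (nat_lit 23968959), (nat_lit 17897616), (nat_lit 12073119)] (nat_lit 6831970)) p15_29_2 (nat_lit 4) (nat_lit 119) (nat_lit 120) = true := by decide +kernel
def p15_29_2_120 : pfC (piC [(nat_lit 35755509), (nat_lit 23968959), (nat_lit 17897616), (nat_lit 12073119)] (nat_lit 6831970)) p15_29_2 (nat_lit 4) (nat_lit 120) (nat_lit 121) = true := by decide +kernel
def p15_29_2_121 : pfC (piC [(nat_lit 35755509), (nat_lit 23968959), (nat_lit 17897616), (nat_lit 12073119)] (nat_lit 6831970)) p15_29_2 (nat_lit 4) (nat_lit 121) (nat_lit 122) = true := by decide +kernel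
def p15_29_2_122 : pfC (piC [(nat_lit 35755509), (nat_lit 23968959), (nat_lit 17897616), (nat_lit 12073119)] (nat_lit 6831970)) p15_29_2 (nat_lit 4) (nat_lit 122) (nat_lit 123) = true := by decide +kernel
def p15_29_2_123 : pfC (piC [(nat_lit 35755509), (nat_lit 23968959), (nat_lit 17897616), (nat_lit 12073119)] (nat_lit 6831970)) p15_29_2 (nat_lit 4) (nat_lit 123) (nat_lit 124) = true := by decide +kernel
def p15_29_2_124 : pfC (piC [(nat_lit 35755509), (nat_lit 23968959), (nat_lit 17897616), (nat_lit 12073119)] (nat_lit 6831970)) p15_29_2 (nat_lit 4) (nat_lit 124) (nat_lit 125) = true := by decide +kernel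
def p15_29_2_125 : pfC (piC [(nat_lit 35755509), (nat_lit 23968959), (nat_lit 17897616), (nat_lit 12073119)] (nat_lit 6831970)) p15_29_2 (nat_lit 4) (nat_lit 125) (nat_lit 126) = true := by decide +kernel
def p15_29_2_126 : pfC (piC [(nat_lit 35755509), (nat_lit 23968959), (nat_lit 17897616), (nat_lit 12073119)] (nat_lit 6831970)) p15_29_2 (nat_lit 4) (nat_lit 126) (nat_lit 127) = true := by decide +kernel
def p15_29_2_127 : pfC (piC [(nat_lit 35755509), (nat_lit 23968959), (nat_lit 17897616), (nat_lit 12073119)] (nat_lit 6831970)) p15_29_2 (nat_lit 4) (nat_lit 127) (nat_lit 128) = true := by decide +kernel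
def p15_29_2_128 : pfC (piC [(nat_lit 35755509), (nat_lit 23968959), (nat_lit 17897616), (nat_lit 12073119)] (nat_lit 6831970)) p15_29_2 (nat_lit 4) (nat_lit 128) (nat_lit 129) = true := by decide +kernel
def p15_29_2_129 : pfC (piC [(nat_lit 35755509), (nat_lit 23968959), (nat_lit 17897616), (nat_lit 12073119)] (nat_lit 6831970)) p15_29_2 (nat_lit 4) (nat_lit 129) (nat_lit 130) = true := by decide +kernel
def p15_29_2_130 : pfC (piC [(nat_lit 35755509), (nat_lit 23968959), (nat_lit 17897616), (nat_lit 12073119)] (nat_lit 6831970)) p15_29_2 (nat_lit 4) (nat_lit 130) (nat_lit 131) = true := by decide +kernel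
def p15_29_2_131 : pfC (piC [(nat_lit 35755509), (nat_lit 23968959), (nat_lit 17897616), (nat_lit 12073119)] (nat_lit 6831970)) p15_29_2 (nat_lit 4) (nat_lit 131) (nat_lit 132) = true := by decide +kernel
def p15_29_2_132 : pfC (piC [(nat_lit 35755509), (nat_lit 23968959), (nat_lit 17897616), (nat_lit 12073119)] (nat_lit 6831970)) p15_29_2 (nat_lit 4) (nat_lit 132) (nat_lit 133) = true := by decide +kernel
def p15_29_2_133 : pfC (piC [(nat_lit 35755509), (nat_lit 23968959), (nat_lit 17897616), (nat_lit 12073119)] (nat_lit 6831970)) p15_29_2 (nat_lit 4) (nat_lit 133) (nat_lit 134) = true := by decide +kernel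
def p15_29_2_134 : pfC (piC [(nat_lit 35755509), (nat_lit 23968959), (nat_lit 17897616), (nat_lit 12073119)] (nat_lit 6831970)) p15_29_2 (nat_lit 4) (nat_lit 134) (nat_lit 135) = true := by decide +kernel
def p15_29_2_135 : pfC (piC [(nat_lit 35755509), (nat_lit 23968959), (nat_lit 17897616), (nat_lit 12073119)] (nat_lit 6831970)) p15_29_2 (nat_lit 4) (nat_lit 135) (nat_lit 136) = true := by decide +kernel
def p15_29_2_136 : pfC (piC [(nat_lit 35755509), (nat_lit 23968959), (nat_lit 17897616), (nat_lit 12073119)] (nat_lit 6831970)) p15_29_2 (nat_lit 4) (nat_lit 136) (nat_lit 137) = true := by decide +kernel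
def p15_29_2_137 : pfC (piC [(nat_lit 35755509), (nat_lit 23968959), (nat_lit 17897616), (nat_lit 12073119)] (nat_lit 6831970)) p15_29_2 (nat_lit 4) (nat_lit 137) (nat_lit 138) = true := by decide +kernel
def p15_29_2_138 : pfC (piC [(nat_lit 35755509), (nat_lit 23968959), (nat_lit 17897616), (nat_lit 12073119)] (nat_lit 6831970)) p15_29_2 (nat_lit 4) (nat_lit 138) (nat_lit 139) = true := by decide +kernel
def p15_29_2_139 : pfC (piC [(nat_lit 35755509), (nat_lit 23968959), (nat_lit 17897616), (nat_lit 12073119)] (nat_lit 6831970)) p15_29_2 (nat_lit 4) (nat_lit 139) (nat_lit 140) = true := by decide +kernel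
def p15_29_2_140 : pfC (piC [(nat_lit 35755509), (nat_lit 23968959), (nat_lit 17897616), (nat_lit 12073119)] (nat_lit 6831970)) p15_29_2 (nat_lit 4) (nat_lit 140) (nat_lit 141) = true := by decide +kernel
def p15_29_2_141 : pfC (piC [(nat_lit 35755509), (nat_lit 23968959), (nat_lit 17897616), (nat_lit 12073119)] (nat_lit 6831970)) p15_29_2 (nat_lit 4) (nat_lit 141) (nat_lit 142) = true := by decide +kernel
def p15_29_2_142 : pfC (piC [(nat_lit 35755509), (nat_lit 23968959), (nat_lit 17897616), (nat_lit 12073119)] (nat_lit 6831970)) p15_29_2 (nat_lit 4) (nat_lit 142) (nat_lit 143) = true := by decide +kernel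
def p15_29_2_143 : pfC (piC [(nat_lit 35755509), (nat_lit 23968959), (nat_lit 17897616), (nat_lit 12073119)] (nat_lit 6831970)) p15_29_2 (nat_lit 4) (nat_lit 143) (nat_lit 144) = true := by decide +kernel
def p15_29_2_144 : pfC (piC [(nat_lit 35755509), (nat_lit 23968959), (nat_lit 17897616), (nat_lit 12073119)] (nat_lit 6831970)) p15_29_2 (nat_lit 4) (nat_lit 144) (nat_lit 145) = true := by decide +kernel
def p15_29_2_145 : pfC (piC [(nat_lit 35755509), (nat_lit 23968959), (nat_lit 17897616), (nat_lit 12073119)] (nat_lit 6831970)) p15_29_2 (nat_lit 4) (nat_lit 145) (nat_lit 146) = true := by decide +kernel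
def p15_29_2_146 : pfC (piC [(nat_lit 35755509), (nat_lit 23968959), (nat_lit 17897616), (nat_lit 12073119)] (nat_lit 6831970)) p15_29_2 (nat_lit 4) (nat_lit 146) (nat_lit 147) = true := by decide +kernel
def p15_29_2_147 : pfC (piC [(nat_lit 35755509), (nat_lit 23968959), (nat_lit 17897616), (nat_lit 12073119)] (nat_lit 6831970)) p15_29_2 (nat_lit 4) (nat_lit 147) (nat_lit 148) = true := by decide +kernel
def p15_29_2_148 : pfC (piC [(nat_lit 35755509), (nat_lit 23968959), (nat_lit 17897616), (nat_lit 12073119)] (nat_lit 6831970)) p15_29_2 (nat_lit 4) (nat_lit 148) (nat_lit 149) = true := by decide +kernel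
def p15_29_2_149 : pfC (piC [(nat_lit 35755509), (nat_lit 23968959), (nat_lit 17897616), (nat_lit 12073119)] (nat_lit 6831970)) p15_29_2 (nat_lit 4) (nat_lit 149) (nat_lit 150) = true := by decide +kernel
def p15_29_2_150 : pfC (piC [(nat_lit 35755509), (nat_lit 23968959), (nat_lit 17897616), (nat_lit 12073119)] (nat_lit 6831970)) p15_29_2 (nat_lit 4) (nat_lit 150) (nat_lit 151) = true := by decide +kernel
def p15_29_2_151 : pfC (piC [(nat_lit 35755509), (nat_lit 23968959), (nat_lit 17897616), (nat_lit 12073119)] (nat_lit 6831970)) p15_29_2 (nat_lit 4) (nat_lit 151) (nat_lit 152) = true := by decide +kernel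
def p15_29_2_152 : pfC (piC [(nat_lit 35755509), (nat_lit 23968959), (nat_lit 17897616), (nat_lit 12073119)] (nat_lit 6831970)) p15_29_2 (nat_lit 4) (nat_lit 152) (nat_lit 153) = true := by decide +kernel
def p15_29_2_153 : pfC (piC [(nat_lit 35755509), (nat_lit 23968959), (nat_lit 17897616), (nat_lit 12073119)] (nat_lit 6831970)) p15_29_2 (nat_lit 4) (nat_lit 153) (nat_lit 154) = true := by decide +kernel
def p15_29_2_154 : pfC (piC [(nat_lit 35755509), (nat_lit 23968959), (nat_lit 17897616), (nat_lit 12073119)] (nat_lit 6831970)) p15_29_2 (nat_lit 4) (nat_lit 154) (nat_lit 155) = true := by decide +kernel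
def p15_29_2_155 : pfC (piC [(nat_lit 35755509), (nat_lit 23968959), (nat_lit 17897616), (nat_lit 12073119)] (nat_lit 6831970)) p15_29_2 (nat_lit 4) (nat_lit 155) (nat_lit 156) = true := by decide +kernel
def p15_29_2_156 : pfC (piC [(nat_lit 35755509), (nat_lit 23968959), (nat_lit 17897616), (nat_lit 12073119)] (nat_lit 6831970)) p15_29_2 (nat_lit 4) (nat_lit 156) (nat_lit 157) = true := by decide +kernel
def p15_29_2_157 : pfC (piC [(nat_lit 35755509), (nat_lit 23968959), (nat_lit 17897616), (nat_lit 12073119)] (nat_lit 6831970)) p15_29_2 (nat_lit 4) (nat_lit 157) (nat_lit 158) = true := by decide +kernel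
def p15_29_2_158 : pfC (piC [(nat_lit 35755509), (nat_lit 23968959), (nat_lit 17897616), (nat_lit 12073119)] (nat_lit 6831970)) p15_29_2 (nat_lit 4) (nat_lit 158) (nat_lit 159) = true := by decide +kernel
def p15_29_2_159 : pfC (piC [(nat_lit 35755509), (nat_lit 23968959), (nat_lit 17897616), (nat_lit 12073119)] (nat_lit 6831970)) p15_29_2 (nat_lit 4) (nat_lit 159) (nat_lit 160) = true := by decide +kernel
def p15_29_2_160 : pfC (piC [(nat_lit 35755509), (nat_lit 23968959), (nat_lit 17897616), (nat_lit 12073119)] (nat_lit 6831970)) p15_29_2 (nat_lit 4) (nat_lit 160) (nat_lit 161) = true := by decide +kernel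
def p15_29_2_161 : pfC (piC [(nat_lit 35755509), (nat_lit 23968959), (nat_lit 17897616), (nat_lit 12073119)] (nat_lit 6831970)) p15_29_2 (nat_lit 4) (nat_lit 161) (nat_lit 162) = true := by decide +kernel
def p15_29_2_162 : pfC (piC [(nat_lit 35755509), (nat_lit 23968959), (nat_lit 17897616), (nat_lit 12073119)] (nat_lit 6831970)) p15_29_2 (nat_lit 4) (nat_lit 162) (nat_lit 163) = true := by decide +kernel
def p15_29_2_163 : pfC (piC [(nat_lit 35755509), (nat_lit 23968959), (nat_lit 17897616), (nat_lit 12073119)] (nat_lit 6831970)) p15_29_2 (nat_lit 4) (nat_lit 163) (nat_lit 164) = true := by decide +kernel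
def p15_29_2_164 : pfC (piC [(nat_lit 35755509), (nat_lit 23968959), (nat_lit 17897616), (nat_lit 12073119)] (nat_lit 6831970)) p15_29_2 (nat_lit 4) (nat_lit 164) (nat_lit 165) = true := by decide +kernel
def p15_29_2_165 : pfC (piC [(nat_lit 35755509), (nat_lit 23968959), (nat_lit 17897616), (nat_lit 12073119)] (nat_lit 6831970)) p15_29_2 (nat_lit 4) (nat_lit 165) (nat_lit 166) = true := by decide +kernel
def p15_29_2_166 : pfC (piC [(nat_lit 35755509), (nat_lit 23968959), (nat_lit 17897616), (nat_lit 12073119)] (nat_lit 6831970)) p15_29_2 (nat_lit 4) (nat_lit 166) (nat_lit 167) = true := by decide +kernel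
def p15_29_2_167 : pfC (piC [(nat_lit 35755509), (nat_lit 23968959), (nat_lit 17897616), (nat_lit 12073119)] (nat_lit 6831970)) p15_29_2 (nat_lit 4) (nat_lit 167) (nat_lit 168) = true := by decide +kernel
def p15_29_2_168 : pfC (piC [(nat_lit 35755509), (nat_lit 23968959), (nat_lit 17897616), (nat_lit 12073119)] (nat_lit 6831970)) p15_29_2 (nat_lit 4) (nat_lit 168) (nat_lit 169) = true := by decide +kernel
def p15_29_2_169 : pfC (piC [(nat_lit 35755509), (nat_lit 23968959), (nat_lit 17897616), (nat_lit 12073119)] (nat_lit 6831970)) p15_29_2 (nat_lit 4) (nat_lit 169) (nat_lit 170) = true := by decide +kernel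
def p15_29_2_170 : pfC (piC [(nat_lit 35755509), (nat_lit 23968959), (nat_lit 17897616), (nat_lit 12073119)] (nat_lit 6831970)) p15_29_2 (nat_lit 4) (nat_lit 170) (nat_lit 171) = true := by decide +kernel
def p15_29_2_171 : pfC (piC [(nat_lit 35755509), (nat_lit 23968959), (nat_lit 17897616), (nat_lit 12073119)] (nat_lit 6831970)) p15_29_2 (nat_lit 4) (nat_lit 171) (nat_lit 172) = true := by decide +kernel
def p15_29_2_172 : pfC (piC [(nat_lit 35755509), (nat_lit 23968959), (nat_lit 17897616), (nat_lit 12073119)] (nat_lit 6831970)) p15_29_2 (nat_lit 4) (nat_lit 172) (nat_lit 173) = true := by decide +kernel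
def p15_29_2_173 : pfC (piC [(nat_lit 35755509), (nat_lit 23968959), (nat_lit 17897616), (nat_lit 12073119)] (nat_lit 6831970)) p15_29_2 (nat_lit 4) (nat_lit 173) (nat_lit 174) = true := by decide +kernel
def p15_29_2_174 : pfC (piC [(nat_lit 35755509), (nat_lit 23968959), (nat_lit 17897616), (nat_lit 12073119)] (nat_lit 6831970)) p15_29_2 (nat_lit 4) (nat_lit 174) (nat_lit 175) = true := by decide +kernel
def p15_29_2_175 : pfC (piC [(nat_lit 35755509), (nat_lit 23968959), (nat_lit 17897616), (nat_lit 12073119)] (nat_lit 6831970)) p15_29_2 (nat_lit 4) (nat_lit 175) (nat_lit 176) = true := by decide +kernel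
def p15_29_2_176 : pfC (piC [(nat_lit 35755509), (nat_lit 23968959), (nat_lit 17897616), (nat_lit 12073119)] (nat_lit 6831970)) p15_29_2 (nat_lit 4) (nat_lit 176) (nat_lit 177) = true := by decide +kernel
def p15_29_2_177 : pfC (piC [(nat_lit 35755509), (nat_lit 23968959), (nat_lit 17897616), (nat_lit 12073119)] (nat_lit 6831970)) p15_29_2 (nat_lit 4) (nat_lit 177) (nat_lit 178) = true := by decide +kernel
def p15_29_2_178 : pfC (piC [(nat_lit 35755509), (nat_lit 23968959), (nat_lit 17897616), (nat_lit 12073119)] (nat_lit 6831970)) p15_29_2 (nat_lit 4) (nat_lit 178) (nat_lit 179) = true := by decide +kernel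
def p15_29_2_179 : pfC (piC [(nat_lit 35755509), (nat_lit 23968959), (nat_lit 17897616), (nat_lit 12073119)] (nat_lit 6831970)) p15_29_2 (nat_lit 4) (nat_lit 179) (nat_lit 180) = true := by decide +kernel
def p15_29_2_180 : pfC (piC [(nat_lit 35755509), (nat_lit 23968959), (nat_lit 17897616), (nat_lit 12073119)] (nat_lit 6831970)) p15_29_2 (nat_lit 4) (nat_lit 180) (nat_lit 181) = true := by decide +kernel
def p15_29_2_181 : pfC (piC [(nat_lit 35755509), (nat_lit 23968959), (nat_lit 17897616), (nat_lit 12073119)] (nat_lit 6831970)) p15_29_2 (nat_lit 4) (nat_lit 181) (nat_lit 182) = true := by decide +kernel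
def p15_29_2_182 : pfC (piC [(nat_lit 35755509), (nat_lit 23968959), (nat_lit 17897616), (nat_lit 12073119)] (nat_lit 6831970)) p15_29_2 (nat_lit 4) (nat_lit 182) (nat_lit 183) = true := by decide +kernel
def p15_29_2_183 : pfC (piC [(nat_lit 35755509), (nat_lit 23968959), (nat_lit 17897616), (nat_lit 12073119)] (nat_lit 6831970)) p15_29_2 (nat_lit 4) (nat_lit 183) (nat_lit 184) = true := by decide +kernel
def p15_29_2_184 : pfC (piC [(nat_lit 35755509), (nat_lit 23968959), (nat_lit 17897616), (nat_lit 12073119)] (nat_lit 6831970)) p15_29_2 (nat_lit 4) (nat_lit 184) (nat_lit 185) = true := by decide +kernel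
def p15_29_2_185 : pfC (piC [(nat_lit 35755509), (nat_lit 23968959), (nat_lit 17897616), (nat_lit 12073119)] (nat_lit 6831970)) p15_29_2 (nat_lit 4) (nat_lit 185) (nat_lit 186) = true := by decide +kernel
def p15_29_2_186 : pfC (piC [(nat_lit 35755509), (nat_lit 23968959), (nat_lit 17897616), (nat_lit 12073119)] (nat_lit 6831970)) p15_29_2 (nat_lit 4) (nat_lit 186) (nat_lit 187) = true := by decide +kernel
def p15_29_2_187 : pfC (piC [(nat_lit 35755509), (nat_lit 23968959), (nat_lit 17897616), (nat_lit 12073119)] (nat_lit 6831970)) p15_29_2 (nat_lit 4) (nat_lit 187) (nat_lit 188) = true := by decide +kernel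
def p15_29_2_188 : pfC (piC [(nat_lit 35755509), (nat_lit 23968959), (nat_lit 17897616), (nat_lit 12073119)] (nat_lit 6831970)) p15_29_2 (nat_lit 4) (nat_lit 188) (nat_lit 189) = true := by decide +kernel
def p15_29_2_189 : pfC (piC [(nat_lit 35755509), (nat_lit 23968959), (nat_lit 17897616), (nat_lit 12073119)] (nat_lit 6831970)) p15_29_2 (nat_lit 4) (nat_lit 189) (nat_lit 190) = true := by decide +kernel
def p15_29_2_190 : pfC (piC [(nat_lit 35755509), (nat_lit 23968959), (nat_lit 17897616), (nat_lit 12073119)] (nat_lit 6831970)) p15_29_2 (nat_lit 4) (nat_lit 190) (nat_lit 191) = true := by decide +kernel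
def p15_29_2_191 : pfC (piC [(nat_lit 35755509), (nat_lit 23968959), (nat_lit 17897616), (nat_lit 12073119)] (nat_lit 6831970)) p15_29_2 (nat_lit 4) (nat_lit 191) (nat_lit 192) = true := by decide +kernel
def p15_29_2_192 : pfC (piC [(nat_lit 35755509), (nat_lit 23968959), (nat_lit 17897616), (nat_lit 12073119)] (nat_lit 6831970)) p15_29_2 (nat_lit 4) (nat_lit 192) (nat_lit 193) = true := by decide +kernel
def p15_29_2_193 : pfC (piC [(nat_lit 35755509), (nat_lit 23968959), (nat_lit 17897616), (nat_lit 12073119)] (nat_lit 6831970)) p15_29_2 (nat_lit 4) (nat_lit 193) (nat_lit 194) = true := by decide +kernel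
def p15_29_2_194 : pfC (piC [(nat_lit 35755509), (nat_lit 23968959), (nat_lit 17897616), (nat_lit 12073119)] (nat_lit 6831970)) p15_29_2 (nat_lit 4) (nat_lit 194) (nat_lit 195) = true := by decide +kernel
def p15_29_2_195 : pfC (piC [(nat_lit 35755509), (nat_lit 23968959), (nat_lit 17897616), (nat_lit 12073119)] (nat_lit 6831970)) p15_29_2 (nat_lit 4) (nat_lit 195) (nat_lit 196) = true := by decide +kernel
def p15_29_2_196 : pfC (piC [(nat_lit 35755509), (nat_lit 23968959), (nat_lit 17897616), (nat_lit 12073119)] (nat_lit 6831970)) p15_29_2 (nat_lit 4) (nat_lit 196) (nat_lit 197) = true := by decide +kernel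
def p15_29_2_197 : pfC (piC [(nat_lit 35755509), (nat_lit 23968959), (nat_lit 17897616), (nat_lit 12073119)] (nat_lit 6831970)) p15_29_2 (nat_lit 4) (nat_lit 197) (nat_lit 198) = true := by decide +kernel
def p15_29_2_198 : pfC (piC [(nat_lit 35755509), (nat_lit 23968959), (nat_lit 17897616), (nat_lit 12073119)] (nat_lit 6831970)) p15_29_2 (nat_lit 4) (nat_lit 198) (nat_lit 199) = true := by decide +kernel
def p15_29_2_199 : pfC (piC [(nat_lit 35755509), (nat_lit 23968959), (nat_lit 17897616), (nat_lit 12073119)] (nat_lit 6831970)) p15_29_2 (nat_lit 4) (nat_lit 199) (nat_lit 200) = true := by decide +kernel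
def p15_29_2_200 : pfC (piC [(nat_lit 35755509), (nat_lit 23968959), (nat_lit 17897616), (nat_lit 12073119)] (nat_lit 6831970)) p15_29_2 (nat_lit 4) (nat_lit 200) (nat_lit 201) = true := by decide +kernel
def p15_29_2_201 : pfC (piC [(nat_lit 35755509), (nat_lit 23968959), (nat_lit 17897616), (nat_lit 12073119)] (nat_lit 6831970)) p15_29_2 (nat_lit 4) (nat_lit 201) (nat_lit 202) = true := by decide +kernel
def p15_29_2_202 : pfC (piC [(nat_lit 35755509), (nat_lit 23968959), (nat_lit 17897616), (nat_lit 12073119)] (nat_lit 6831970)) p15_29_2 (nat_lit 4) (nat_lit 202) (nat_lit 203) = true := by decide +kernel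
def p15_29_2_203 : pfC (piC [(nat_lit 35755509), (nat_lit 23968959), (nat_lit 17897616), (nat_lit 12073119)] (nat_lit 6831970)) p15_29_2 (nat_lit 4) (nat_lit 203) (nat_lit 204) = true := by decide +kernel
def p15_29_2_204 : pfC (piC [(nat_lit 35755509), (nat_lit 23968959), (nat_lit 17897616), (nat_lit 12073119)] (nat_lit 6831970)) p15_29_2 (nat_lit 4) (nat_lit 204) (nat_lit 205) = true := by decide +kernel
def p15_29_2_205 : pfC (piC [(nat_lit 35755509), (nat_lit 23968959), (nat_lit 17897616), (nat_lit 12073119)] (nat_lit 6831970)) p15_29_2 (nat_lit 4) (nat_lit 205) (nat_lit 206) = true := by decide +kernel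
def p15_29_2_206 : pfC (piC [(nat_lit 35755509), (nat_lit 23968959), (nat_lit 17897616), (nat_lit 12073119)] (nat_lit 6831970)) p15_29_2 (nat_lit 4) (nat_lit 206) (nat_lit 207) = true := by decide +kernel
def p15_29_2_207 : pfC (piC [(nat_lit 35755509), (nat_lit 23968959), (nat_lit 17897616), (nat_lit 12073119)] (nat_lit 6831970)) p15_29_2 (nat_lit 4) (nat_lit 207) (nat_lit 208) = true := by decide +kernel
def p15_29_2_208 : pfC (piC [(nat_lit 35755509), (nat_lit 23968959), (nat_lit 17897616), (nat_lit 12073119)] (nat_lit 6831970)) p15_29_2 (nat_lit 4) (nat_lit 208) (nat_lit 209) = true := by decide +kernel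
def p15_29_2_209 : pfC (piC [(nat_lit 35755509), (nat_lit 23968959), (nat_lit 17897616), (nat_lit 12073119)] (nat_lit 6831970)) p15_29_2 (nat_lit 4) (nat_lit 209) (nat_lit 210) = true := by decide +kernel
def p15_29_2_210 : pfC (piC [(nat_lit 35755509), (nat_lit 23968959), (nat_lit 17897616), (nat_lit 12073119)] (nat_lit 6831970)) p15_29_2 (nat_lit 4) (nat_lit 210) (nat_lit 211) = true := by decide +kernel
def p15_29_2_211 : pfC (piC [(nat_lit 35755509), (nat_lit 23968959), (nat_lit 17897616), (nat_lit 12073119)] (nat_lit 6831970)) p15_29_2 (nat_lit 4) (nat_lit 211) (nat_lit 212) = true := by decide +kernel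
def p15_29_2_212 : pfC (piC [(nat_lit 35755509), (nat_lit 23968959), (nat_lit 17897616), (nat_lit 12073119)] (nat_lit 6831970)) p15_29_2 (nat_lit 4) (nat_lit 212) (nat_lit 213) = true := by decide +kernel
def p15_29_2_213 : pfC (piC [(nat_lit 35755509), (nat_lit 23968959), (nat_lit 17897616), (nat_lit 12073119)] (nat_lit 6831970)) p15_29_2 (nat_lit 4) (nat_lit 213) (nat_lit 214) = true := by decide +kernel
def p15_29_2_214 : pfC (piC [(nat_lit 35755509), (nat_lit 23968959), (nat_lit 17897616), (nat_lit 12073119)] (nat_lit 6831970)) p15_29_2 (nat_lit 4) (nat_lit 214) (nat_lit 215) = true := by decide +kernel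
def p15_29_2_215 : pfC (piC [(nat_lit 35755509), (nat_lit 23968959), (nat_lit 17897616), (nat_lit 12073119)] (nat_lit 6831970)) p15_29_2 (nat_lit 4) (nat_lit 215) (nat_lit 216) = true := by decide +kernel
def p15_29_2_216 : pfC (piC [(nat_lit 35755509), (nat_lit 23968959), (nat_lit 17897616), (nat_lit 12073119)] (nat_lit 6831970)) p15_29_2 (nat_lit 4) (nat_lit 216) (nat_lit 217) = true := by decide +kernel
def p15_29_2_217 : pfC (piC [(nat_lit 35755509), (nat_lit 23968959), (nat_lit 17897616), (nat_lit 12073119)] (nat_lit 6831970)) p15_29_2 (nat_lit 4) (nat_lit 217) (nat_lit 218) = true := by decide +kernel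
def p15_29_2_218 : pfC (piC [(nat_lit 35755509), (nat_lit 23968959), (nat_lit 17897616), (nat_lit 12073119)] (nat_lit 6831970)) p15_29_2 (nat_lit 4) (nat_lit 218) (nat_lit 219) = true := by decide +kernel
def p15_29_2_219 : pfC (piC [(nat_lit 35755509), (nat_lit 23968959), (nat_lit 17897616), (nat_lit 12073119)] (nat_lit 6831970)) p15_29_2 (nat_lit 4) (nat_lit 219) (nat_lit 220) = true := by decide +kernel
def p15_29_2_220 : pfC (piC [(nat_lit 35755509), (nat_lit 23968959), (nat_lit 17897616), (nat_lit 12073119)] (nat_lit 6831970)) p15_29_2 (nat_lit 4) (nat_lit 220) (nat_lit 221) = true := by decide +kernel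
def p15_29_2_221 : pfC (piC [(nat_lit 35755509), (nat_lit 23968959), (nat_lit 17897616), (nat_lit 12073119)] (nat_lit 6831970)) p15_29_2 (nat_lit 4) (nat_lit 221) (nat_lit 222) = true := by decide +kernel
def p15_29_2_222 : pfC (piC [(nat_lit 35755509), (nat_lit 23968959), (nat_lit 17897616), (nat_lit 12073119)] (nat_lit 6831970)) p15_29_2 (nat_lit 4) (nat_lit 222) (nat_lit 223) = true := by decide +kernel
def p15_29_2_223 : pfC (piC [(nat_lit 35755509), (nat_lit 23968959), (nat_lit 17897616), (nat_lit 12073119)] (nat_lit 6831970)) p15_29_2 (nat_lit 4) (nat_lit 223) (nat_lit 224) = true := by decide +kernel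
def p15_29_2_224 : pfC (piC [(nat_lit 35755509), (nat_lit 23968959), (nat_lit 17897616), (nat_lit 12073119)] (nat_lit 6831970)) p15_29_2 (nat_lit 4) (nat_lit 224) (nat_lit 225) = true := by decide +kernel
def p15_29_2_225 : pfC (piC [(nat_lit 35755509), (nat_lit 23968959), (nat_lit 17897616), (nat_lit 12073119)] (nat_lit 6831970)) p15_29_2 (nat_lit 4) (nat_lit 225) (nat_lit 226) = true := by decide +kernel
def p15_29_2_226 : pfC (piC [(nat_lit 35755509), (nat_lit 23968959), (nat_lit 17897616), (nat_lit 12073119)] (nat_lit 6831970)) p15_29_2 (nat_lit 4) (nat_lit 226) (nat_lit 227) = true := by decide +kernel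
def p15_29_2_227 : pfC (piC [(nat_lit 35755509), (nat_lit 23968959), (nat_lit 17897616), (nat_lit 12073119)] (nat_lit 6831970)) p15_29_2 (nat_lit 4) (nat_lit 227) (nat_lit 228) = true := by decide +kernel
def p15_29_2_228 : pfC (piC [(nat_lit 35755509), (nat_lit 23968959), (nat_lit 17897616), (nat_lit 12073119)] (nat_lit 6831970)) p15_29_2 (nat_lit 4) (nat_lit 228) (nat_lit 229) = true := by decide +kernel
def p15_29_2_229 : pfC (piC [(nat_lit 35755509), (nat_lit 23968959), (nat_lit 17897616), (nat_lit 12073119)] (nat_lit 6831970)) p15_29_2 (nat_lit 4) (nat_lit 229) (nat_lit 230) = true := by decide +kernel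
def p15_29_2_230 : pfC (piC [(nat_lit 35755509), (nat_lit 23968959), (nat_lit 17897616), (nat_lit 12073119)] (nat_lit 6831970)) p15_29_2 (nat_lit 4) (nat_lit 230) (nat_lit 231) = true := by decide +kernel
def p15_29_2_231 : pfC (piC [(nat_lit 35755509), (nat_lit 23968959), (nat_lit 17897616), (nat_lit 12073119)] (nat_lit 6831970)) p15_29_2 (nat_lit 4) (nat_lit 231) (nat_lit 232) = true := by decide +kernel
def p15_29_2_232 : pfC (piC [(nat_lit 35755509), (nat_lit 23968959), (nat_lit 17897616), (nat_lit 12073119)] (nat_lit 6831970)) p15_29_2 (nat_lit 4) (nat_lit 232) (nat_lit 233) = true := by decide +kernel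
theorem p15_29_2_T : PfS (PiF n15_29.reverse (nat_lit 6831970)) p15_29_2 (nat_lit 4) [] 0 :=
  pftab_of (los := [(nat_lit 35755509), (nat_lit 23968959), (nat_lit 17897616), (nat_lit 12073119)]) (by decide +kernel) (hi := (nat_lit 233)) (PfP.trans (PfP.trans (PfP.trans (PfP.trans (PfP.trans (PfP.trans (PfP.trans (PfP.trans (PfP.trans (PfP.trans (PfP.trans (PfP.trans (PfP.trans (PfP.trans (PfP.trans (PfP.trans (PfP.trans (PfP.trans (PfP.trans (PfP.trans (PfP.trans (PfP.trans (PfP.trans (PfP.trans (PfP.trans (PfP.trans (PfP.trans (PfP.trans (PfP.trans (PfP.trans (PfP.trans (PfP.trans (PfP.trans (PfP.trans (PfP.trans (PfP.trans (PfP.trans (PfP.trans (PfP.trans (PfP.trans (PfP.trans (PfP.trans (PfP.trans (PfP.trans (PfP.trans (PfP.trans (PfP.trans (PfP.trans (PfP.trans (PfP.trans (PfP.trans (PfP.trans (PfP.trans (PfP.trans (PfP.trans (PfP.trans (PfP.trans (PfP.trans (PfP.trans (PfP.trans (PfP.trans (PfP.trans (PfP.trans (PfP.trans (PfP.trans (PfP.trans (PfP.trans (PfP.trans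 (PfP.trans (PfP.trans (PfP.trans (PfP.trans (PfP.trans (PfP.trans (PfP.trans (PfP.trans (PfP.trans (PfP.trans (PfP.trans (PfP.trans (PfP.trans (PfP.trans (PfP.trans (PfP.trans (PfP.trans (PfP.trans (PfP.trans (PfP.trans (PfP.trans (PfP.trans (PfP.trans (PfP.trans (PfP.trans (PfP.trans (PfP.trans (PfP.trans (PfP.trans (PfP.trans (PfP.trans (PfP.trans (PfP.trans (PfP.trans (PfP.trans (PfP.trans (PfP.trans (PfP.trans (PfP.trans (PfP.trans (PfP.trans
 (PfP.trans (PfP.trans (PfP.trans (PfP.trans (PfP.trans (PfP.trans (PfP.trans (PfP.trans (PfP.trans (PfP.trans (PfP.trans (PfP.trans (PfP.trans (PfP.trans (PfP.trans (PfP.trans (PfP.trans (PfP.trans (PfP.trans (PfP.trans (PfP.trans (PfP.trans (PfP.trans (PfP.trans (PfP.trans (PfP.trans (PfP.trans (PfP.trans (PfP.trans (PfP.trans (PfP.trans (PfP.trans (PfP.trans (PfP.trans (PfP.trans (PfP.trans (PfP.trans (PfP.trans (PfP.trans (PfP.trans (PfP.trans (PfP.trans (PfP.trans (PfP.trans (PfP.trans (PfP.trans (PfP.trans (PfP.trans (PfP.trans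 (PfP.trans (PfP.trans (PfP.trans (PfP.trans (PfP.trans (PfP.trans (PfP.trans (PfP.trans (PfP.trans (PfP.trans (PfP.trans (PfP.trans (PfP.trans (PfP.trans (PfP.trans (PfP.trans (PfP.trans (PfP.trans (PfP.trans (PfP.trans (PfP.trans (PfP.trans (PfP.trans (PfP.trans (PfP.trans (PfP.trans (PfP.trans (PfP.trans (PfP.trans (PfP.trans (PfP.trans (PfP.trans (PfP.trans (PfP.trans (PfP.trans (PfP.trans (PfP.trans (PfP.trans (PfP.trans (PfP.trans (PfP.trans (PfP.trans (PfP.trans (PfP.trans (PfP.trans (PfP.trans (PfP.trans (PfP.trans (PfP.trans (PfP.trans (PfP.trans (PfP.trans (PfP.trans (PfP.trans (PfP.trans (PfP.trans (PfP.trans (PfP.trans (PfP.trans (PfP.trans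
 (PfP.trans (PfP.trans (PfP.trans (PfP.trans (PfP.trans (PfP.trans (PfP.trans (PfP.trans (PfP.trans (PfP.trans (PfP.trans (PfP.trans (PfP.trans (PfP.trans (pfC_sound p15_29_2_0) (pfC_sound p15_29_2_1)) (pfC_sound p15_29_2_2)) (pfC_sound p15_29_2_3)) (pfC_sound p15_29_2_4)) (pfC_sound p15_29_2_5)) (pfC_sound p15_29_2_6)) (pfC_sound p15_29_2_7)) (pfC_sound p15_29_2_8)) (pfC_sound p15_29_2_9)) (pfC_sound p15_29_2_10)) (pfC_sound p15_29_2_11)) (pfC_sound p15_29_2_12)) (pfC_sound p15_29_2_13)) (pfC_sound p15_29_2_14)) (pfC_sound p15_29_2_15)) (pfC_sound p15_29_2_16)) (pfC_sound p15_29_2_17)) (pfC_sound p15_29_2_18)) (pfC_sound p15_29_2_19)) (pfC_sound p15_29_2_20)) (pfC_sound p15_29_2_21)) (pfC_sound p15_29_2_22)) (pfC_sound p15_29_2_23)) (pfC_sound p15_29_2_24)) (pfC_sound p15_29_2_25)) (pfC_sound p15_29_2_26)) (pfC_sound p15_29_2_27)) (pfC_sound p15_29_2_28)) (pfC_sound p15_29_2_29)) (pfC_sound p15_29_2_30)) (pfC_sound p15_29_2_31)) (pfC_sound p15_29_2_32)) (pfC_sound p15_29_2_33))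 (pfC_sound p15_29_2_34)) (pfC_sound p15_29_2_35)) (pfC_sound p15_29_2_36)) (pfC_sound p15_29_2_37)) (pfC_sound p15_29_2_38)) (pfC_sound p15_29_2_39)) (pfC_sound p15_29_2_40)) (pfC_sound p15_29_2_41))
 (pfC_sound p15_29_2_42)) (pfC_sound p15_29_2_43)) (pfC_sound p15_29_2_44)) (pfC_sound p15_29_2_45)) (pfC_sound p15_29_2_46)) (pfC_sound p15_29_2_47)) (pfC_sound p15_29_2_48)) (pfC_sound p15_29_2_49)) (pfC_sound p15_29_2_50)) (pfC_sound p15_29_2_51)) (pfC_sound p15_29_2_52)) (pfC_sound p15_29_2_53)) (pfC_sound p15_29_2_54)) (pfC_sound p15_29_2_55)) (pfC_sound p15_29_2_56)) (pfC_sound p15_29_2_57)) (pfC_sound p15_29_2_58)) (pfC_sound p15_29_2_59)) (pfC_sound p15_29_2_60)) (pfC_sound p15_29_2_61)) (pfC_sound p15_29_2_62)) (pfC_sound p15_29_2_63)) (pfC_sound p15_29_2_64)) (pfC_sound p15_29_2_65)) (pfC_sound p15_29_2_66)) (pfC_sound p15_29_2_67)) (pfC_sound p15_29_2_68)) (pfC_sound p15_29_2_69)) (pfC_sound p15_29_2_70)) (pfC_sound p15_29_2_71)) (pfC_sound p15_29_2_72)) (pfC_sound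 p15_29_2_73)) (pfC_sound p15_29_2_74)) (pfC_sound p15_29_2_75)) (pfC_sound p15_29_2_76)) (pfC_sound p15_29_2_77)) (pfC_sound p15_29_2_78)) (pfC_sound p15_29_2_79)) (pfC_sound p15_29_2_80)) (pfC_sound p15_29_2_81)) (pfC_sound p15_29_2_82)) (pfC_sound p15_29_2_83)) (pfC_sound p15_29_2_84)) (pfC_sound p15_29_2_85)) (pfC_sound p15_29_2_86)) (pfC_sound p15_29_2_87)) (pfC_sound p15_29_2_88)) (pfC_sound p15_29_2_89))
 (pfC_sound p15_29_2_90)) (pfC_sound p15_29_2_91)) (pfC_sound p15_29_2_92)) (pfC_sound p15_29_2_93)) (pfC_sound p15_29_2_94)) (pfC_sound p15_29_2_95)) (pfC_sound p15_29_2_96)) (pfC_sound p15_29_2_97)) (pfC_sound p15_29_2_98)) (pfC_sound p15_29_2_99)) (pfC_sound p15_29_2_100)) (pfC_sound p15_29_2_101)) (pfC_sound p15_29_2_102)) (pfC_sound p15_29_2_103)) (pfC_sound p15_29_2_104)) (pfC_sound p15_29_2_105)) (pfC_sound p15_29_2_106)) (pfC_sound p15_29_2_107)) (pfC_sound p15_29_2_108)) (pfC_sound p15_29_2_109)) (pfC_sound p15_29_2_110)) (pfC_sound p15_29_2_111)) (pfC_sound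 p15_29_2_112)) (pfC_sound p15_29_2_113)) (pfC_sound p15_29_2_114)) (pfC_sound p15_29_2_115)) (pfC_sound p15_29_2_116)) (pfC_sound p15_29_2_117)) (pfC_sound p15_29_2_118)) (pfC_sound p15_29_2_119)) (pfC_sound p15_29_2_120)) (pfC_sound p15_29_2_121)) (pfC_sound p15_29_2_122)) (pfC_sound p15_29_2_123)) (pfC_sound p15_29_2_124)) (pfC_sound p15_29_2_125)) (pfC_sound p15_29_2_126)) (pfC_sound p15_29_2_127)) (pfC_sound p15_29_2_128)) (pfC_sound p15_29_2_129)) (pfC_sound p15_29_2_130)) (pfC_sound p15_29_2_131)) (pfC_sound p15_29_2_132)) (pfC_sound p15_29_2_133)) (pfC_sound p15_29_2_134)) (pfC_sound p15_29_2_135)) (pfC_sound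
 p15_29_2_136)) (pfC_sound p15_29_2_137)) (pfC_sound p15_29_2_138)) (pfC_sound p15_29_2_139)) (pfC_sound p15_29_2_140)) (pfC_sound p15_29_2_141)) (pfC_sound p15_29_2_142)) (pfC_sound p15_29_2_143)) (pfC_sound p15_29_2_144)) (pfC_sound p15_29_2_145)) (pfC_sound p15_29_2_146)) (pfC_sound p15_29_2_147)) (pfC_sound p15_29_2_148)) (pfC_sound p15_29_2_149)) (pfC_sound p15_29_2_150)) (pfC_sound p15_29_2_151)) (pfC_sound p15_29_2_152)) (pfC_sound p15_29_2_153)) (pfC_sound p15_29_2_154)) (pfC_sound p15_29_2_155)) (pfC_sound p15_29_2_156)) (pfC_sound p15_29_2_157)) (pfC_sound p15_29_2_158)) (pfC_sound p15_29_2_159)) (pfC_sound p15_29_2_160)) (pfC_sound p15_29_2_161)) (pfC_sound p15_29_2_162)) (pfC_sound p15_29_2_163)) (pfC_sound p15_29_2_164)) (pfC_sound p15_29_2_165)) (pfC_sound p15_29_2_166)) (pfC_sound p15_29_2_167)) (pfC_sound p15_29_2_168)) (pfC_sound p15_29_2_169)) (pfC_sound p15_29_2_170)) (pfC_sound p15_29_2_171)) (pfC_sound p15_29_2_172)) (pfC_sound p15_29_2_173)) (pfC_sound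 p15_29_2_174)) (pfC_sound p15_29_2_175)) (pfC_sound p15_29_2_176)) (pfC_sound p15_29_2_177)) (pfC_sound p15_29_2_178)) (pfC_sound p15_29_2_179)) (pfC_sound p15_29_2_180)) (pfC_sound p15_29_2_181)) (pfC_sound
 p15_29_2_182)) (pfC_sound p15_29_2_183)) (pfC_sound p15_29_2_184)) (pfC_sound p15_29_2_185)) (pfC_sound p15_29_2_186)) (pfC_sound p15_29_2_187)) (pfC_sound p15_29_2_188)) (pfC_sound p15_29_2_189)) (pfC_sound p15_29_2_190)) (pfC_sound p15_29_2_191)) (pfC_sound p15_29_2_192)) (pfC_sound p15_29_2_193)) (pfC_sound p15_29_2_194)) (pfC_sound p15_29_2_195)) (pfC_sound p15_29_2_196)) (pfC_sound p15_29_2_197)) (pfC_sound p15_29_2_198)) (pfC_sound p15_29_2_199)) (pfC_sound p15_29_2_200)) (pfC_sound p15_29_2_201)) (pfC_sound p15_29_2_202)) (pfC_sound p15_29_2_203)) (pfC_sound p15_29_2_204)) (pfC_sound p15_29_2_205)) (pfC_sound p15_29_2_206)) (pfC_sound p15_29_2_207)) (pfC_sound p15_29_2_208)) (pfC_sound p15_29_2_209)) (pfC_sound p15_29_2_210)) (pfC_sound p15_29_2_211)) (pfC_sound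 p15_29_2_212)) (pfC_sound p15_29_2_213)) (pfC_sound p15_29_2_214)) (pfC_sound p15_29_2_215)) (pfC_sound p15_29_2_216)) (pfC_sound p15_29_2_217)) (pfC_sound p15_29_2_218)) (pfC_sound p15_29_2_219)) (pfC_sound p15_29_2_220)) (pfC_sound p15_29_2_221)) (pfC_sound p15_29_2_222)) (pfC_sound p15_29_2_223)) (pfC_sound p15_29_2_224)) (pfC_sound p15_29_2_225)) (pfC_sound p15_29_2_226)) (pfC_sound p15_29_2_227)) (pfC_sound
 p15_29_2_228)) (pfC_sound p15_29_2_229)) (pfC_sound p15_29_2_230)) (pfC_sound p15_29_2_231)) (pfC_sound p15_29_2_232)) (by decide +kernel)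

def z15_29_2 : zOK yB15_29 (nat_lit 2) (nat_lit 600) (nat_lit 750) (nat_lit 6831970) (nat_lit 5058382) = true := by decide +kernel
def g15_29_2 : gOK yB15_29.x P15_29 (nat_lit 1402) (q15_29 :: r15_29) (nat_lit 2) (nat_lit 600) (nat_lit 3) (nat_lit 750) (nat_lit 12712500) (nat_lit 12712500) (nat_lit 12712500) (nat_lit 12712500) [(nat_lit 800), (nat_lit 1600)] = true := by decide +kernel
def v15_29_2 : ivC P15_29 s15_29 w15_29 n15_29 (nat_lit 4) (nat_lit 4740) (nat_lit 2) (nat_lit 600) f168_1_600 f176_1_600 (nat_lit 3) (nat_lit 750) f168_1_750 f176_1_750 (nat_lit 6831970) (nat_lit 5058382) p15_29_2 = true := by decide +kernel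
def p15_29_3 : PF := (PF.cons (PF.cons (PF.cons (PF.cons (PF.leaf (nat_lit 2933053) (nat_lit 18347512) (nat_lit 48761300) (nat_lit 18347512) [(nat_lit 0), (nat_lit 0), (nat_lit 0), (nat_lit 0)]) (PF.cons (PF.leaf (nat_lit 3146276) (nat_lit 399482) (nat_lit 48411874) (nat_lit 18297456) [(nat_lit 399482), (nat_lit 0), (nat_lit 0), (nat_lit 0)]) (PF.cons (PF.leaf (nat_lit 3396179) (nat_lit 432988) (nat_lit 48005731) (nat_lit 18237103) [(nat_lit 432988), (nat_lit 0), (nat_lit 0), (nat_lit 0)]) (PF.cons (PF.leaf (nat_lit 3675208) (nat_lit 462180) (nat_lit 47554823) (nat_lit 18167446) [(nat_lit 462180), (nat_lit 0), (nat_lit 0), (nat_lit 0)]) (PF.cons (PF.leaf (nat_lit 3978453) (nat_lit 487971) (nat_lit 47067769) (nat_lit 18089157) [(nat_lit 487971), (nat_lit 0), (nat_lit 0), (nat_lit 0)]) (PF.cons (PF.leaf (nat_lit 4302134) (nat_lit 510952) (nat_lit 46551283) (nat_lit 18002766) [(nat_lit 510952), (nat_lit 0), (nat_lit 0), (nat_lit 0)]) (PF.cons (PF.leaf (nat_lit 4643134) (nat_lit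 531537) (nat_lit 46010843) (nat_lit 17908743) [(nat_lit 531537), (nat_lit 0), (nat_lit 0), (nat_lit 0)]) (PF.cons (PF.leaf (nat_lit 4998860) (nat_lit 550031) (nat_lit 45451051) (nat_lit 17807538) [(nat_lit 550031), (nat_lit 0),
 (nat_lit 0), (nat_lit 0)]) (PF.cons (PF.leaf (nat_lit 5367020) (nat_lit 566671) (nat_lit 44875843) (nat_lit 17699595) [(nat_lit 566671), (nat_lit 0), (nat_lit 0), (nat_lit 0)]) (PF.cons (PF.leaf (nat_lit 5745625) (nat_lit 581647) (nat_lit 44288627) (nat_lit 17585360) [(nat_lit 581647), (nat_lit 0), (nat_lit 0), (nat_lit 0)]) (PF.cons (PF.leaf (nat_lit 6132933) (nat_lit 595114) (nat_lit 43692379) (nat_lit 17465284) [(nat_lit 595114), (nat_lit 0), (nat_lit 0), (nat_lit 0)]) (PF.cons PF.nil (PF.cons PF.nil (PF.cons PF.nil PF.nil)))))))))))))) (PF.cons (PF.cons (PF.leaf (nat_lit 3543572) (nat_lit 1519547) (nat_lit 47444054) (nat_lit 18145211) [(nat_lit 0), (nat_lit 1519547), (nat_lit 0), (nat_lit 0)]) (PF.cons (PF.leaf (nat_lit 3810927) (nat_lit 469139)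 (nat_lit 47005920) (nat_lit 18074237) [(nat_lit 469139), (nat_lit 1559515), (nat_lit 0), (nat_lit 0)]) (PF.cons (PF.leaf (nat_lit 4104943) (nat_lit 494195) (nat_lit 46529027) (nat_lit 17994173) [(nat_lit 494195), (nat_lit 1597220), (nat_lit 0), (nat_lit 0)]) (PF.cons (PF.leaf (nat_lit 4420563) (nat_lit 516439) (nat_lit 46021476) (nat_lit 17905814) [(nat_lit 516439), (nat_lit 1632202), (nat_lit 0), (nat_lit 0)]) (PF.cons (PF.leaf
 (nat_lit 4754248) (nat_lit 536317) (nat_lit 45489448) (nat_lit 17809785) [(nat_lit 536317), (nat_lit 1664309), (nat_lit 0), (nat_lit 0)]) (PF.cons (PF.leaf (nat_lit 5103118) (nat_lit 554146) (nat_lit 44937911) (nat_lit 17706630) [(nat_lit 554146), (nat_lit 1693537), (nat_lit 0), (nat_lit 0)]) (PF.cons (PF.leaf (nat_lit 5464765) (nat_lit 570167) (nat_lit 44370997) (nat_lit 17596855) [(nat_lit 570167), (nat_lit 1719956), (nat_lit 0), (nat_lit 0)]) (PF.cons (PF.leaf (nat_lit 5837100) (nat_lit 584567) (nat_lit 43792215) (nat_lit 17480947) [(nat_lit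 584567), (nat_lit 1743674), (nat_lit 0), (nat_lit 0)]) (PF.cons (PF.leaf (nat_lit 6218292) (nat_lit 597503) (nat_lit 43204581) (nat_lit 17359381) [(nat_lit 597503), (nat_lit 1764818), (nat_lit 0), (nat_lit 0)]) (PF.cons PF.nil (PF.cons PF.nil (PF.cons PF.nil PF.nil)))))))))))) (PF.cons (PF.cons (PF.leaf (nat_lit 4235167) (nat_lit 1617507) (nat_lit 45980042) (nat_lit 17893755) [(nat_lit 0), (nat_lit 1617507), (nat_lit 0), (nat_lit 0)]) (PF.cons (PF.leaf (nat_lit 4540736) (nat_lit 520833) (nat_lit 45485325) (nat_lit 17804312) [(nat_lit 520833), (nat_lit 1649171), (nat_lit 0), (nat_lit 0)]) (PF.cons (PF.leaf (nat_lit 4866003) (nat_lit 540206)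
 (nat_lit 44964470) (nat_lit 17706968) [(nat_lit 540206), (nat_lit 1678480), (nat_lit 0), (nat_lit 0)]) (PF.cons (PF.leaf (nat_lit 5207302) (nat_lit 557517) (nat_lit 44423230) (nat_lit 17602432) [(nat_lit 557517), (nat_lit 1705299), (nat_lit 0), (nat_lit 0)]) (PF.cons (PF.leaf (nat_lit 5561910) (nat_lit 573028) (nat_lit 43866164) (nat_lit 17491308) [(nat_lit 573028), (nat_lit 1729612), (nat_lit 0), (nat_lit 0)]) (PF.cons (PF.leaf (nat_lit 5927620) (nat_lit 586942) (nat_lit 43297017) (nat_lit 17374146) [(nat_lit 586942), (nat_lit 1751468), (nat_lit 0), (nat_lit 0)]) (PF.cons (PF.leaf (nat_lit 6302482) (nat_lit 599417) (nat_lit 42718938) (nat_lit 17251460) [(nat_lit 599417), (nat_lit 1770955), (nat_lit 0), (nat_lit 0)]) (PF.cons (PF.leaf (nat_lit 6684836) (nat_lit 610586) (nat_lit 42134613) (nat_lit 17123744) [(nat_lit 610586), (nat_lit 1788175), (nat_lit 0), (nat_lit 0)]) (PF.cons PF.nil (PF.cons PF.nil PF.nil)))))))))) (PF.cons (PF.cons (PF.leaf (nat_lit 4980015) (nat_lit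 1691305) (nat_lit 44434804) (nat_lit 17600092) [(nat_lit 0), (nat_lit 1691305), (nat_lit 0), (nat_lit 0)]) (PF.cons (PF.leaf (nat_lit 5312363) (nat_lit 560126) (nat_lit 43906317) (nat_lit 17494849) [(nat_lit
 560126), (nat_lit 1715839), (nat_lit 0), (nat_lit 0)]) (PF.cons (PF.leaf (nat_lit 5659226) (nat_lit 575252) (nat_lit 43360889) (nat_lit 17382923) [(nat_lit 575252), (nat_lit 1738164), (nat_lit 0), (nat_lit 0)]) (PF.cons (PF.leaf (nat_lit 6017781) (nat_lit 588771) (nat_lit 42802722) (nat_lit 17264965) [(nat_lit 588771), (nat_lit 1758270), (nat_lit 0), (nat_lit 0)]) (PF.cons (PF.leaf (nat_lit 6385951) (nat_lit 600858) (nat_lit 42235228) (nat_lit 17141553) [(nat_lit 600858), (nat_lit 1776198), (nat_lit 0), (nat_lit 0)]) (PF.cons (PF.leaf (nat_lit 6761936) (nat_lit 611654) (nat_lit 41661246) (nat_lit 17013217) [(nat_lit 611654), (nat_lit 1792024), (nat_lit 0), (nat_lit 0)]) (PF.cons (PF.leaf (nat_lit 7144203) (nat_lit 621276) (nat_lit 41083174) (nat_lit 16880457) [(nat_lit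 621276), (nat_lit 1805839), (nat_lit 0), (nat_lit 0)]) (PF.cons PF.nil (PF.cons PF.nil PF.nil))))))))) (PF.cons (PF.cons (PF.leaf (nat_lit 5757837) (nat_lit 1745702) (nat_lit 42854415) (nat_lit 17271588) [(nat_lit 0), (nat_lit 1745702), (nat_lit 0), (nat_lit 0)]) (PF.cons (PF.leaf (nat_lit 6108293) (nat_lit 590043) (nat_lit 42308820) (nat_lit 17153357) [(nat_lit 590043), (nat_lit 1764147), (nat_lit 0), (nat_lit 0)])
 (PF.cons (PF.leaf (nat_lit 6469265) (nat_lit 601824) (nat_lit 41753089) (nat_lit 17029650) [(nat_lit 601824), (nat_lit 1780606), (nat_lit 0), (nat_lit 0)]) (PF.cons (PF.leaf (nat_lit 6838539) (nat_lit 612311) (nat_lit 41190338) (nat_lit 16901062) [(nat_lit 612311), (nat_lit 1795119), (nat_lit 0), (nat_lit 0)]) (PF.cons (PF.leaf (nat_lit 7214466) (nat_lit 621631) (nat_lit 40623133) (nat_lit 16768130) [(nat_lit 621631), (nat_lit 1807755), (nat_lit 0), (nat_lit 0)]) (PF.cons PF.nil (PF.cons PF.nil PF.nil))))))) (PF.cons (PF.cons (PF.leaf (nat_lit 6553313) (nat_lit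 1784231) (nat_lit 41271968) (nat_lit 16915687) [(nat_lit 0), (nat_lit 1784231), (nat_lit 0), (nat_lit 0)]) (PF.cons (PF.leaf (nat_lit 6915168) (nat_lit 612549) (nat_lit 40721490) (nat_lit 16787253) [(nat_lit 612549), (nat_lit 1797503), (nat_lit 0), (nat_lit 0)]) (PF.cons (PF.leaf (nat_lit 7284419) (nat_lit 621624) (nat_lit 40165927) (nat_lit 16654489) [(nat_lit 621624), (nat_lit 1809029), (nat_lit 0), (nat_lit 0)]) (PF.cons (PF.leaf (nat_lit 7659297) (nat_lit 629639) (nat_lit 39607603) (nat_lit 16517930) [(nat_lit 629639), (nat_lit 1818872), (nat_lit 0), (nat_lit 0)]) (PF.cons PF.nil PF.nil))))) (PF.cons (PF.cons (PF.leaf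
 (nat_lit 7354774) (nat_lit 1809696) (nat_lit 39711133) (nat_lit 16539497) [(nat_lit 0), (nat_lit 1809696), (nat_lit 0), (nat_lit 0)]) (PF.cons (PF.leaf (nat_lit 7722827) (nat_lit 629067) (nat_lit 39164673) (nat_lit 16403475) [(nat_lit 629067), (nat_lit 1818599), (nat_lit 0), (nat_lit 0)]) (PF.cons PF.nil (PF.cons PF.nil PF.nil)))) (PF.cons (PF.cons (PF.leaf (nat_lit 8153395) (nat_lit 1824401) (nat_lit 38188520) (nat_lit 16149482) [(nat_lit 0), (nat_lit 1824401), (nat_lit 0), (nat_lit 0)]) (PF.cons PF.nil PF.nil)) (PF.cons PF.nil PF.nil))))))))) (PF.cons (PF.cons (PF.cons (PF.leaf (nat_lit 4082642) (nat_lit 3676516) (nat_lit 45623346) (nat_lit 17808950) [(nat_lit 0), (nat_lit 0), (nat_lit 3676516), (nat_lit 0)]) (PF.cons (PF.leaf (nat_lit 4357657) (nat_lit 494204) (nat_lit 45181264) (nat_lit 17727714) [(nat_lit 494204), (nat_lit 0), (nat_lit 3705628), (nat_lit 0)]) (PF.cons (PF.leaf (nat_lit 4657512) (nat_lit 516964) (nat_lit 44704153) (nat_lit 17637428) [(nat_lit 516964),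 (nat_lit 0), (nat_lit 3733302), (nat_lit 0)]) (PF.cons (PF.leaf (nat_lit 4977080) (nat_lit 536894) (nat_lit 44200160) (nat_lit 17539168) [(nat_lit 536894), (nat_lit 0), (nat_lit 3758801), (nat_lit 0)]) (PF.cons
 (PF.leaf (nat_lit 5312855) (nat_lit 554507) (nat_lit 43675325) (nat_lit 17433748) [(nat_lit 554507), (nat_lit 0), (nat_lit 3781708), (nat_lit 0)]) (PF.cons (PF.leaf (nat_lit 5662059) (nat_lit 570155) (nat_lit 43134387) (nat_lit 17321849) [(nat_lit 570155), (nat_lit 0), (nat_lit 3801799), (nat_lit 0)]) (PF.cons (PF.leaf (nat_lit 6022384) (nat_lit 584094) (nat_lit 42581198) (nat_lit 17204069) [(nat_lit 584094), (nat_lit 0), (nat_lit 3818978), (nat_lit 0)]) (PF.cons (PF.leaf (nat_lit 6391877) (nat_lit 596523) (nat_lit 42018965) (nat_lit 17080953) [(nat_lit 596523), (nat_lit 0), (nat_lit 3833232), (nat_lit 0)]) (PF.cons (PF.leaf (nat_lit 6768871) (nat_lit 607599) (nat_lit 41450398) (nat_lit 16953015) [(nat_lit 607599), (nat_lit 0), (nat_lit 3844604), (nat_lit 0)])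 (PF.cons PF.nil PF.nil)))))))))) (PF.cons (PF.cons (PF.leaf (nat_lit 4779739) (nat_lit 1662538) (nat_lit 44169045) (nat_lit 17528514) [(nat_lit 0), (nat_lit 1662538), (nat_lit 3748714), (nat_lit 0)]) (PF.cons (PF.leaf (nat_lit 5088678) (nat_lit 539278) (nat_lit 43680095) (nat_lit 17430246) [(nat_lit 539278), (nat_lit 1688491), (nat_lit 3770701), (nat_lit 0)]) (PF.cons (PF.leaf (nat_lit 5415625) (nat_lit 556616) (nat_lit
 43168289) (nat_lit 17324511) [(nat_lit 556616), (nat_lit 1712282), (nat_lit 3790496), (nat_lit 0)]) (PF.cons (PF.leaf (nat_lit 5756970) (nat_lit 571939) (nat_lit 42639192) (nat_lit 17212164) [(nat_lit 571939), (nat_lit 1733834), (nat_lit 3807803), (nat_lit 0)]) (PF.cons (PF.leaf (nat_lit 6110108) (nat_lit 585535) (nat_lit 42097120) (nat_lit 17093910) [(nat_lit 585535), (nat_lit 1753160), (nat_lit 3822478), (nat_lit 0)]) (PF.cons (PF.leaf (nat_lit 6472888) (nat_lit 597620) (nat_lit 41545551) (nat_lit 16970361) [(nat_lit 597620), (nat_lit 1770323), (nat_lit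 3834472), (nat_lit 0)]) (PF.cons (PF.leaf (nat_lit 6843545) (nat_lit 608362) (nat_lit 40987357) (nat_lit 16842071) [(nat_lit 608362), (nat_lit 1785410), (nat_lit 3843800), (nat_lit 0)]) (PF.cons (PF.leaf (nat_lit 7220498) (nat_lit 617895) (nat_lit 40424949) (nat_lit 16709548) [(nat_lit 617895), (nat_lit 1798521), (nat_lit 3850521), (nat_lit 0)]) (PF.cons PF.nil PF.nil))))))))) (PF.cons (PF.cons (PF.leaf (nat_lit 5520986) (nat_lit 1720723) (nat_lit 42658024) (nat_lit 17211868) [(nat_lit 0), (nat_lit 1720723), (nat_lit 3797472), (nat_lit 0)]) (PF.cons (PF.leaf (nat_lit 5853128) (nat_lit 573062) (nat_lit 42142929) (nat_lit 17099719)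
 [(nat_lit 573062), (nat_lit 1740469), (nat_lit 3812161), (nat_lit 0)]) (PF.cons (PF.leaf (nat_lit 6198351) (nat_lit 586426) (nat_lit 41613522) (nat_lit 16981503) [(nat_lit 586426), (nat_lit 1758221), (nat_lit 3824489), (nat_lit 0)]) (PF.cons (PF.leaf (nat_lit 6553929) (nat_lit 598251) (nat_lit 41073756) (nat_lit 16857942) [(nat_lit 598251), (nat_lit 1773994), (nat_lit 3834369), (nat_lit 0)]) (PF.cons (PF.leaf (nat_lit 6917879) (nat_lit 608723) (nat_lit 40526788) (nat_lit 16729653) [(nat_lit 608723), (nat_lit 1787843), (nat_lit 3841788), (nat_lit 0)]) (PF.cons (PF.leaf (nat_lit 7288529) (nat_lit 617989) (nat_lit 39975202) (nat_lit 16597187) [(nat_lit 617989), (nat_lit 1799845), (nat_lit 3846783), (nat_lit 0)]) (PF.cons PF.nil PF.nil))))))) (PF.cons (PF.cons (PF.leaf (nat_lit 6288216) (nat_lit 1762476) (nat_lit 41129586) (nat_lit 16866707) [(nat_lit 0), (nat_lit 1762476), (nat_lit 3825090), (nat_lit 0)]) (PF.cons (PF.leaf (nat_lit 6635634) (nat_lit 598397) (nat_lit 40603012)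 (nat_lit 16743617) [(nat_lit 598397), (nat_lit 1776930), (nat_lit 3832993), (nat_lit 0)]) (PF.cons (PF.leaf (nat_lit 6992396) (nat_lit 608673) (nat_lit 40068280) (nat_lit 16615724) [(nat_lit 608673), (nat_lit
 1789609), (nat_lit 3838631), (nat_lit 0)]) (PF.cons (PF.leaf (nat_lit 7356397) (nat_lit 617729) (nat_lit 39528262) (nat_lit 16483644) [(nat_lit 617729), (nat_lit 1800566), (nat_lit 3842017), (nat_lit 0)]) (PF.cons (PF.leaf (nat_lit 7726090) (nat_lit 625696) (nat_lit 38985291) (nat_lit 16347918) [(nat_lit 625696), (nat_lit 1809871), (nat_lit 3843203), (nat_lit 0)]) PF.nil))))) (PF.cons (PF.cons (PF.leaf (nat_lit 7067944) (nat_lit 1790747) (nat_lit 39611245) (nat_lit 16500195) [(nat_lit 0), (nat_lit 1790747), (nat_lit 3834380), (nat_lit 0)]) (PF.cons (PF.leaf (nat_lit 7424597) (nat_lit 617104) (nat_lit 39083697) (nat_lit 16368868) [(nat_lit 617104), (nat_lit 1800717), (nat_lit 3836270), (nat_lit 0)]) (PF.cons (PF.leaf (nat_lit 7787724) (nat_lit 624909) (nat_lit 38552465)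 (nat_lit 16233863) [(nat_lit 624909), (nat_lit 1809139), (nat_lit 3836106), (nat_lit 0)]) (PF.cons PF.nil PF.nil)))) (PF.cons (PF.cons (PF.leaf (nat_lit 7850041) (nat_lit 1807918) (nat_lit 38122230) (nat_lit 16118819) [(nat_lit 0), (nat_lit 1807918), (nat_lit 3828170), (nat_lit 0)]) (PF.cons (PF.leaf (nat_lit 8211298) (nat_lit 630492) (nat_lit 37601197) (nat_lit 15981670) [(nat_lit 630492), (nat_lit 1814112),
 (nat_lit 3824888), (nat_lit 0)]) PF.nil)) (PF.cons PF.nil (PF.cons PF.nil PF.nil)))))))) (PF.cons (PF.cons (PF.cons (PF.leaf (nat_lit 5308132) (nat_lit 3770769) (nat_lit 42423478) (nat_lit 17143795) [(nat_lit 0), (nat_lit 0), (nat_lit 3770769), (nat_lit 0)]) (PF.cons (PF.leaf (nat_lit 5618363) (nat_lit 553062) (nat_lit 41945236) (nat_lit 17039013) [(nat_lit 553062), (nat_lit 0), (nat_lit 3785750), (nat_lit 0)]) (PF.cons (PF.leaf (nat_lit 5945153) (nat_lit 568642) (nat_lit 41446908) (nat_lit 16927242) [(nat_lit 568642), (nat_lit 0), (nat_lit 3798688), (nat_lit 0)])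 (PF.cons (PF.leaf (nat_lit 6284936) (nat_lit 582258) (nat_lit 40933826) (nat_lit 16809442) [(nat_lit 582258), (nat_lit 0), (nat_lit 3809384), (nat_lit 0)]) (PF.cons (PF.leaf (nat_lit 6635209) (nat_lit 594218) (nat_lit 40410052) (nat_lit 16686380) [(nat_lit 594218), (nat_lit 0), (nat_lit 3817753), (nat_lit 0)]) (PF.cons (PF.leaf (nat_lit 6993932) (nat_lit 604747) (nat_lit 39878806) (nat_lit 16558706) [(nat_lit 604747), (nat_lit 0), (nat_lit 3823781), (nat_lit 0)]) (PF.cons (PF.leaf (nat_lit 7359422) (nat_lit 614017) (nat_lit 39342708) (nat_lit 16426988) [(nat_lit 614017), (nat_lit 0), (nat_lit 3827505), (nat_lit 0)])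
 (PF.cons PF.nil (PF.cons PF.nil PF.nil))))))))) (PF.cons (PF.cons (PF.leaf (nat_lit 6042241) (nat_lit 1739020) (nat_lit 40958564) (nat_lit 16811103) [(nat_lit 0), (nat_lit 1739020), (nat_lit 3800062), (nat_lit 0)]) (PF.cons (PF.leaf (nat_lit 6372713) (nat_lit 582202) (nat_lit 40460130) (nat_lit 16694238) [(nat_lit 582202), (nat_lit 1754810), (nat_lit 3808715), (nat_lit 0)]) (PF.cons (PF.leaf (nat_lit 6715017) (nat_lit 594051) (nat_lit 39949523) (nat_lit 16571895) [(nat_lit 594051), (nat_lit 1768788), (nat_lit 3815251), (nat_lit 0)]) (PF.cons (PF.leaf (nat_lit 7066545) (nat_lit 604425) (nat_lit 39430451) (nat_lit 16444835) [(nat_lit 604425), (nat_lit 1780988), (nat_lit 3819629), (nat_lit 0)]) (PF.cons (PF.leaf (nat_lit 7425408) (nat_lit 613520) (nat_lit 38905829) (nat_lit 16313697) [(nat_lit 613520), (nat_lit 1791475), (nat_lit 3821863), (nat_lit 0)]) (PF.cons (PF.leaf (nat_lit 7790042) (nat_lit 621486) (nat_lit 38378011) (nat_lit 16179035) [(nat_lit 621486), (nat_lit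 1800330), (nat_lit 3822001), (nat_lit 0)]) (PF.cons PF.nil PF.nil))))))) (PF.cons (PF.cons (PF.leaf (nat_lit 6796713) (nat_lit 1770449) (nat_lit 39489210) (nat_lit 16455476) [(nat_lit 0), (nat_lit 1770449), (nat_lit
 3811613), (nat_lit 0)]) (PF.cons (PF.leaf (nat_lit 7140111) (nat_lit 603673) (nat_lit 38983542) (nat_lit 16329481) [(nat_lit 603673), (nat_lit 1781601), (nat_lit 3814456), (nat_lit 0)]) (PF.cons (PF.leaf (nat_lit 7491861) (nat_lit 612662) (nat_lit 38471275) (nat_lit 16199282) [(nat_lit 612662), (nat_lit 1791158), (nat_lit 3815306), (nat_lit 0)]) (PF.cons (PF.leaf (nat_lit 7849961) (nat_lit 620497) (nat_lit 37955057) (nat_lit 16065503) [(nat_lit 620497), (nat_lit 1799182), (nat_lit 3814197), (nat_lit 0)]) (PF.cons PF.nil PF.nil))))) (PF.cons (PF.cons (PF.leaf (nat_lit 7559601) (nat_lit 1790331) (nat_lit 38038445) (nat_lit 16083633) [(nat_lit 0), (nat_lit 1790331), (nat_lit 3807869), (nat_lit 0)]) (PF.cons (PF.leaf (nat_lit 7910472) (nat_lit 619186) (nat_lit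 37534620) (nat_lit 15951072) [(nat_lit 619186), (nat_lit 1797572), (nat_lit 3805608), (nat_lit 0)]) (PF.cons (PF.leaf (nat_lit 8267046) (nat_lit 625908) (nat_lit 37028176) (nat_lit 15815393) [(nat_lit 625908), (nat_lit 1803434), (nat_lit 3801561), (nat_lit 0)]) (PF.cons PF.nil PF.nil)))) (PF.cons (PF.cons (PF.leaf (nat_lit 8322060) (nat_lit 1800727) (nat_lit 36621978) (nat_lit 15701402) [(nat_lit 0), (nat_lit 1800727), (nat_lit
 3791260), (nat_lit 0)]) (PF.cons PF.nil PF.nil)) (PF.cons PF.nil PF.nil)))))) (PF.cons (PF.cons (PF.cons (PF.leaf (nat_lit 6543701) (nat_lit 3788019) (nat_lit 39340558) (nat_lit 16404194) [(nat_lit 0), (nat_lit 0), (nat_lit 3788019), (nat_lit 0)]) (PF.cons (PF.leaf (nat_lit 6871360) (nat_lit 588259) (nat_lit 38860785) (nat_lit 16284429) [(nat_lit 588259), (nat_lit 0), (nat_lit 3791779), (nat_lit 0)]) (PF.cons (PF.leaf (nat_lit 7209823) (nat_lit 598796) (nat_lit 38370591) (nat_lit 16159729) [(nat_lit 598796), (nat_lit 0), (nat_lit 3793632), (nat_lit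 0)]) (PF.cons (PF.leaf (nat_lit 7556541) (nat_lit 607922) (nat_lit 37873442) (nat_lit 16030878) [(nat_lit 607922), (nat_lit 0), (nat_lit 3793574), (nat_lit 0)]) (PF.cons (PF.leaf (nat_lit 7909722) (nat_lit 615837) (nat_lit 37372026) (nat_lit 15898518) [(nat_lit 615837), (nat_lit 0), (nat_lit 3791639), (nat_lit 0)]) (PF.cons PF.nil (PF.cons PF.nil PF.nil))))))) (PF.cons (PF.cons (PF.leaf (nat_lit 7283930) (nat_lit 1771426) (nat_lit 37934144) (nat_lit 16043127) [(nat_lit 0), (nat_lit 1771426), (nat_lit 3786704), (nat_lit 0)]) (PF.cons (PF.leaf (nat_lit 7622609) (nat_lit 606455) (nat_lit 37450325) (nat_lit 15915799) [(nat_lit 606455),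
 (nat_lit 1779833), (nat_lit 3785466), (nat_lit 0)]) (PF.cons (PF.leaf (nat_lit 7968789) (nat_lit 614336) (nat_lit 36961140) (nat_lit 15784797) [(nat_lit 614336), (nat_lit 1786802), (nat_lit 3782466), (nat_lit 0)]) (PF.cons (PF.leaf (nat_lit 8320575) (nat_lit 621125) (nat_lit 36469031) (nat_lit 15650739) [(nat_lit 621125), (nat_lit 1792399), (nat_lit 3777755), (nat_lit 0)]) (PF.cons PF.nil PF.nil))))) (PF.cons (PF.cons (PF.leaf (nat_lit 8029372) (nat_lit 1784423) (nat_lit 36552089) (nat_lit 15670132) [(nat_lit 0), (nat_lit 1784423), (nat_lit 3772581), (nat_lit 0)]) (PF.cons (PF.leaf (nat_lit 8374084) (nat_lit 619269) (nat_lit 36072108) (nat_lit 15537644) [(nat_lit 619269), (nat_lit 1789403), (nat_lit 3766994), (nat_lit 0)]) (PF.cons PF.nil (PF.cons PF.nil PF.nil)))) (PF.cons (PF.cons (PF.leaf (nat_lit 8772244) (nat_lit 1789279) (nat_lit 35207297) (nat_lit 15290396) [(nat_lit 0), (nat_lit 1789279), (nat_lit 3747760), (nat_lit 0)]) (PF.cons PF.nil PF.nil)) (PF.cons PF.nil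 PF.nil))))) (PF.cons (PF.cons (PF.cons (PF.leaf (nat_lit 7750685) (nat_lit 3752980) (nat_lit 36463208) (nat_lit 15633680) [(nat_lit 0), (nat_lit 0), (nat_lit 3752980), (nat_lit 0)]) (PF.cons (PF.leaf (nat_lit
 8084130) (nat_lit 607211) (nat_lit 36001515) (nat_lit 15506270) [(nat_lit 607211), (nat_lit 0), (nat_lit 3748453), (nat_lit 0)]) (PF.cons (PF.leaf (nat_lit 8424381) (nat_lit 614134) (nat_lit 35535432) (nat_lit 15375646) [(nat_lit 614134), (nat_lit 0), (nat_lit 3742366), (nat_lit 0)]) (PF.cons PF.nil (PF.cons PF.nil PF.nil))))) (PF.cons (PF.cons (PF.leaf (nat_lit 8478421) (nat_lit 1774173) (nat_lit 35149381) (nat_lit 15262790) [(nat_lit 0), (nat_lit 1774173), (nat_lit 3730616), (nat_lit 0)]) (PF.cons (PF.leaf (nat_lit 8816749) (nat_lit 617738) (nat_lit 34692904) (nat_lit 15131387) [(nat_lit 617738), (nat_lit 1777278), (nat_lit 3722375), (nat_lit 0)]) (PF.cons PF.nil (PF.cons PF.nil PF.nil)))) (PF.cons (PF.cons (PF.leaf (nat_lit 9201979) (nat_lit 1774498) (nat_lit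 33874324) (nat_lit 14888097) [(nat_lit 0), (nat_lit 1774498), (nat_lit 3699348), (nat_lit 0)]) (PF.cons PF.nil PF.nil)) PF.nil))) (PF.cons (PF.cons (PF.cons (PF.leaf (nat_lit 8907956) (nat_lit 3683644) (nat_lit 33826711) (nat_lit 14863878) [(nat_lit 0), (nat_lit 0), (nat_lit 3683644), (nat_lit 0)]) (PF.cons (PF.leaf (nat_lit 9239767) (nat_lit 614908) (nat_lit 33393086) (nat_lit 14734333) [(nat_lit 614908), (nat_lit 0),
 (nat_lit 3673296), (nat_lit 0)]) PF.nil)) (PF.cons PF.nil PF.nil)) (PF.cons PF.nil (PF.cons PF.nil PF.nil)))))))) (PF.cons (PF.cons (PF.cons (PF.cons (PF.leaf (nat_lit 4848886) (nat_lit 8420140) (nat_lit 41772816) (nat_lit 16915856) [(nat_lit 0), (nat_lit 0), (nat_lit 0), (nat_lit 8420140)]) (PF.cons (PF.leaf (nat_lit 5119468) (nat_lit 501341) (nat_lit 41371354) (nat_lit 16828017) [(nat_lit 501341), (nat_lit 0), (nat_lit 0), (nat_lit 8408100)]) (PF.cons (PF.leaf (nat_lit 5412944) (nat_lit 522220) (nat_lit 40939873) (nat_lit 16731625) [(nat_lit 522220),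 (nat_lit 0), (nat_lit 0), (nat_lit 8392872)]) (PF.cons (PF.leaf (nat_lit 5724222) (nat_lit 540179) (nat_lit 40485852) (nat_lit 16628017) [(nat_lit 540179), (nat_lit 0), (nat_lit 0), (nat_lit 8374405)]) (PF.cons (PF.leaf (nat_lit 6049874) (nat_lit 555793) (nat_lit 40014750) (nat_lit 16518184) [(nat_lit 555793), (nat_lit 0), (nat_lit 0), (nat_lit 8352702)]) (PF.cons (PF.leaf (nat_lit 6387232) (nat_lit 569460) (nat_lit 39530780) (nat_lit 16402918) [(nat_lit 569460), (nat_lit 0), (nat_lit 0), (nat_lit 8327813)]) (PF.cons (PF.leaf (nat_lit 6734106) (nat_lit 581466) (nat_lit 39037306) (nat_lit 16282884) [(nat_lit 581466), (nat_lit 0),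
 (nat_lit 0), (nat_lit 8299822)]) (PF.cons (PF.leaf (nat_lit 7088752) (nat_lit 592031) (nat_lit 38537084) (nat_lit 16158663) [(nat_lit 592031), (nat_lit 0), (nat_lit 0), (nat_lit 8268846)]) (PF.cons (PF.leaf (nat_lit 7449601) (nat_lit 601326) (nat_lit 38032407) (nat_lit 16030770) [(nat_lit 601326), (nat_lit 0), (nat_lit 0), (nat_lit 8235019)]) (PF.cons PF.nil PF.nil)))))))))) (PF.cons (PF.cons (PF.leaf (nat_lit 5522399) (nat_lit 1660326) (nat_lit 40462840) (nat_lit 16618742) [(nat_lit 0), (nat_lit 1660326), (nat_lit 0), (nat_lit 8366902)]) (PF.cons (PF.leaf (nat_lit 5822848) (nat_lit 540819) (nat_lit 40023690) (nat_lit 16516361) [(nat_lit 540819), (nat_lit 1681127), (nat_lit 0), (nat_lit 8346814)]) (PF.cons (PF.leaf (nat_lit 6139561) (nat_lit 556311) (nat_lit 39565452) (nat_lit 16407368) [(nat_lit 556311), (nat_lit 1699830), (nat_lit 0), (nat_lit 8323538)]) (PF.cons (PF.leaf (nat_lit 6469058) (nat_lit 569793) (nat_lit 39093094) (nat_lit 16292739) [(nat_lit 569793), (nat_lit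 1716441), (nat_lit 0), (nat_lit 8297155)]) (PF.cons (PF.leaf (nat_lit 6808835) (nat_lit 581587) (nat_lit 38610415) (nat_lit 16173246) [(nat_lit 581587), (nat_lit 1731029), (nat_lit 0), (nat_lit 8267770)])
 (PF.cons (PF.leaf (nat_lit 7156940) (nat_lit 591930) (nat_lit 38120426) (nat_lit 16049533) [(nat_lit 591930), (nat_lit 1743692), (nat_lit 0), (nat_lit 8235508)]) (PF.cons (PF.leaf (nat_lit 7511684) (nat_lit 601004) (nat_lit 37625578) (nat_lit 15922160) [(nat_lit 601004), (nat_lit 1754539), (nat_lit 0), (nat_lit 8200508)]) (PF.cons (PF.leaf (nat_lit 7871680) (nat_lit 608955) (nat_lit 37127898) (nat_lit 15791617) [(nat_lit 608955), (nat_lit 1763681), (nat_lit 0), (nat_lit 8162923)]) (PF.cons PF.nil PF.nil))))))))) (PF.cons (PF.cons (PF.leaf (nat_lit 6232122) (nat_lit 1704129) (nat_lit 39114050) (nat_lit 16294076) [(nat_lit 0), (nat_lit 1704129), (nat_lit 0), (nat_lit 8292428)]) (PF.cons (PF.leaf (nat_lit 6552478) (nat_lit 569561) (nat_lit 38655080) (nat_lit 16180653)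 [(nat_lit 569561), (nat_lit 1719350), (nat_lit 0), (nat_lit 8264815)]) (PF.cons (PF.leaf (nat_lit 6884481) (nat_lit 581246) (nat_lit 38184440) (nat_lit 16062137) [(nat_lit 581246), (nat_lit 1732741), (nat_lit 0), (nat_lit 8234257)]) (PF.cons (PF.leaf (nat_lit 7225569) (nat_lit 591443) (nat_lit 37705582) (nat_lit 15939281) [(nat_lit 591443), (nat_lit 1744358), (nat_lit 0), (nat_lit 8200900)]) (PF.cons (PF.leaf (nat_lit
 7573877) (nat_lit 600355) (nat_lit 37221222) (nat_lit 15812710) [(nat_lit 600355), (nat_lit 1754281), (nat_lit 0), (nat_lit 8164895)]) (PF.cons (PF.leaf (nat_lit 7927880) (nat_lit 608138) (nat_lit 36733556) (nat_lit 15682959) [(nat_lit 608138), (nat_lit 1762602), (nat_lit 0), (nat_lit 8126401)]) (PF.cons PF.nil PF.nil))))))) (PF.cons (PF.cons (PF.leaf (nat_lit 6962092) (nat_lit 1733855) (nat_lit 37758590) (nat_lit 15949387) [(nat_lit 0), (nat_lit 1733855), (nat_lit 0), (nat_lit 8199268)]) (PF.cons (PF.leaf (nat_lit 7295247) (nat_lit 590548) (nat_lit 37291991)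 (nat_lit 15827799) [(nat_lit 590548), (nat_lit 1744482), (nat_lit 0), (nat_lit 8165026)]) (PF.cons (PF.leaf (nat_lit 7636650) (nat_lit 599364) (nat_lit 36818925) (nat_lit 15702354) [(nat_lit 599364), (nat_lit 1753535), (nat_lit 0), (nat_lit 8128195)]) (PF.cons (PF.leaf (nat_lit 7984332) (nat_lit 607031) (nat_lit 36341857) (nat_lit 15573656) [(nat_lit 607031), (nat_lit 1761086), (nat_lit 0), (nat_lit 8088945)]) (PF.cons (PF.leaf (nat_lit 8336869) (nat_lit 613684) (nat_lit 35862762) (nat_lit 15442218) [(nat_lit 613684), (nat_lit 1767215), (nat_lit 0), (nat_lit 8047444)]) PF.nil))))) (PF.cons (PF.cons (PF.leaf (nat_lit 7700818)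
 (nat_lit 1752328) (nat_lit 36418123) (nat_lit 15590976) [(nat_lit 0), (nat_lit 1752328), (nat_lit 0), (nat_lit 8090399)]) (PF.cons (PF.leaf (nat_lit 8041489) (nat_lit 605620) (nat_lit 35952380) (nat_lit 15463634) [(nat_lit 605620), (nat_lit 1759154), (nat_lit 0), (nat_lit 8050559)]) (PF.cons (PF.leaf (nat_lit 8387845) (nat_lit 612194) (nat_lit 35483878) (nat_lit 15333462) [(nat_lit 612194), (nat_lit 1764639), (nat_lit 0), (nat_lit 8008524)]) (PF.cons PF.nil PF.nil)))) (PF.cons (PF.cons (PF.leaf (nat_lit 8439851) (nat_lit 1761706) (nat_lit 35107319) (nat_lit 15224148) [(nat_lit 0), (nat_lit 1761706), (nat_lit 0), (nat_lit 7968813)]) (PF.cons (PF.leaf (nat_lit 8784065) (nat_lit 616042) (nat_lit 34648348) (nat_lit 15093077) [(nat_lit 616042), (nat_lit 1765385), (nat_lit 0), (nat_lit 7924415)]) PF.nil)) (PF.cons PF.nil (PF.cons PF.nil PF.nil)))))))) (PF.cons (PF.cons (PF.cons (PF.leaf (nat_lit 6012688) (nat_lit 3697913) (nat_lit 38920038) (nat_lit 16231740) [(nat_lit 0),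 (nat_lit 0), (nat_lit 3697913), (nat_lit 8259120)]) (PF.cons (PF.leaf (nat_lit 6312962) (nat_lit 550144) (nat_lit 38493274) (nat_lit 16125910) [(nat_lit 550144), (nat_lit 0), (nat_lit 3705891), (nat_lit 8233592)])
 (PF.cons (PF.leaf (nat_lit 6628284) (nat_lit 564112) (nat_lit 38049608) (nat_lit 16013934) [(nat_lit 564112), (nat_lit 0), (nat_lit 3712013), (nat_lit 8205030)]) (PF.cons (PF.leaf (nat_lit 6955243) (nat_lit 576144) (nat_lit 37593759) (nat_lit 15896834) [(nat_lit 576144), (nat_lit 0), (nat_lit 3716183), (nat_lit 8173602)]) (PF.cons (PF.leaf (nat_lit 7291441) (nat_lit 586569) (nat_lit 37129282) (nat_lit 15775403) [(nat_lit 586569), (nat_lit 0), (nat_lit 3718382), (nat_lit 8139466)]) (PF.cons (PF.leaf (nat_lit 7634993) (nat_lit 595627) (nat_lit 36658957) (nat_lit 15650293) [(nat_lit 595627), (nat_lit 0), (nat_lit 3718639), (nat_lit 8102783)]) (PF.cons (PF.leaf (nat_lit 7984350) (nat_lit 603501) (nat_lit 36185021) (nat_lit 15522056) [(nat_lit 603501), (nat_lit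 0), (nat_lit 3717012), (nat_lit 8063716)]) (PF.cons PF.nil (PF.cons PF.nil PF.nil))))))))) (PF.cons (PF.cons (PF.leaf (nat_lit 6713533) (nat_lit 1711643) (nat_lit 37619332) (nat_lit 15899898) [(nat_lit 0), (nat_lit 1711643), (nat_lit 3707991), (nat_lit 8169947)]) (PF.cons (PF.leaf (nat_lit 7031367) (nat_lit 575034) (nat_lit 37177059) (nat_lit 15784486) [(nat_lit 575034), (nat_lit 1723740), (nat_lit 3710726), (nat_lit 8137766)])
 (PF.cons (PF.leaf (nat_lit 7359840) (nat_lit 585447) (nat_lit 36724729) (nat_lit 15664471) [(nat_lit 585447), (nat_lit 1734176), (nat_lit 3711644), (nat_lit 8102894)]) (PF.cons (PF.leaf (nat_lit 7696478) (nat_lit 594444) (nat_lit 36265568) (nat_lit 15540618) [(nat_lit 594444), (nat_lit 1743019), (nat_lit 3710754), (nat_lit 8065519)]) (PF.cons (PF.leaf (nat_lit 8039522) (nat_lit 602228) (nat_lit 35802083) (nat_lit 15413547) [(nat_lit 602228), (nat_lit 1750352), (nat_lit 3708097), (nat_lit 8025817)]) (PF.cons (PF.leaf (nat_lit 8387534) (nat_lit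 608957) (nat_lit 35336279) (nat_lit 15283783) [(nat_lit 608957), (nat_lit 1756264), (nat_lit 3703738), (nat_lit 7983959)]) (PF.cons PF.nil PF.nil))))))) (PF.cons (PF.cons (PF.leaf (nat_lit 7430421) (nat_lit 1733423) (nat_lit 36320582) (nat_lit 15552199) [(nat_lit 0), (nat_lit 1733423), (nat_lit 3704080), (nat_lit 8065103)]) (PF.cons (PF.leaf (nat_lit 7759235) (nat_lit 592893) (nat_lit 35873600) (nat_lit 15429983) [(nat_lit 592893), (nat_lit 1741485), (nat_lit 3702136), (nat_lit 8027228)]) (PF.cons (PF.leaf (nat_lit 8095504) (nat_lit 600652) (nat_lit 35421282) (nat_lit 15304376) [(nat_lit 600652), (nat_lit 1748131), (nat_lit 3698534), (nat_lit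
 7987051)]) (PF.cons (PF.leaf (nat_lit 8437344) (nat_lit 607326) (nat_lit 34965902) (nat_lit 15175970) [(nat_lit 607326), (nat_lit 1753435), (nat_lit 3693327), (nat_lit 7944761)]) (PF.cons PF.nil PF.nil))))) (PF.cons (PF.cons (PF.leaf (nat_lit 8153078) (nat_lit 1745533) (nat_lit 35042059) (nat_lit 15194416) [(nat_lit 0), (nat_lit 1745533), (nat_lit 3688340), (nat_lit 7947397)]) (PF.cons (PF.leaf (nat_lit 8488062) (nat_lit 605421) (nat_lit 34597755) (nat_lit 15067646) [(nat_lit 605421), (nat_lit 1750267), (nat_lit 3682361), (nat_lit 7904825)]) (PF.cons (PF.leaf (nat_lit 8828122) (nat_lit 611120) (nat_lit 34151436) (nat_lit 14938458) [(nat_lit 611120), (nat_lit 1753802), (nat_lit 3674927), (nat_lit 7860343)]) (PF.cons PF.nil PF.nil)))) (PF.cons (PF.cons (PF.leaf (nat_lit 8874047) (nat_lit 1749835) (nat_lit 33795883) (nat_lit 14831269) [(nat_lit 0), (nat_lit 1749835), (nat_lit 3662792), (nat_lit 7819527)]) (PF.cons PF.nil PF.nil)) (PF.cons PF.nil PF.nil)))))) (PF.cons (PF.cons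 (PF.cons (PF.leaf (nat_lit 7177072) (nat_lit 3682207) (nat_lit 36199650) (nat_lit 15507070) [(nat_lit 0), (nat_lit 0), (nat_lit 3682207), (nat_lit 8037677)]) (PF.cons (PF.leaf (nat_lit 7491606) (nat_lit 578197)
 (nat_lit 35775009) (nat_lit 15390878) [(nat_lit 578197), (nat_lit 0), (nat_lit 3681370), (nat_lit 8001985)]) (PF.cons (PF.leaf (nat_lit 7815936) (nat_lit 587508) (nat_lit 35341640) (nat_lit 15270527) [(nat_lit 587508), (nat_lit 0), (nat_lit 3678894), (nat_lit 7963840)]) (PF.cons (PF.leaf (nat_lit 8147647) (nat_lit 595467) (nat_lit 34902555) (nat_lit 15146779) [(nat_lit 595467), (nat_lit 0), (nat_lit 3674809), (nat_lit 7923455)]) (PF.cons (PF.leaf (nat_lit 8485069) (nat_lit 602282) (nat_lit 34460071) (nat_lit 15020247) [(nat_lit 602282), (nat_lit 0), (nat_lit 3669170), (nat_lit 7881024)]) (PF.cons PF.nil (PF.cons PF.nil PF.nil))))))) (PF.cons (PF.cons (PF.leaf (nat_lit 7880022) (nat_lit 1728010) (nat_lit 34958835) (nat_lit 15159604) [(nat_lit 0), (nat_lit 1728010),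 (nat_lit 3669120), (nat_lit 7924122)]) (PF.cons (PF.leaf (nat_lit 8204047) (nat_lit 593395) (nat_lit 34531683) (nat_lit 15037772) [(nat_lit 593395), (nat_lit 1733933), (nat_lit 3664239), (nat_lit 7883547)]) (PF.cons (PF.leaf (nat_lit 8534847) (nat_lit 600241) (nat_lit 34100099) (nat_lit 14912954) [(nat_lit 600241), (nat_lit 1738577), (nat_lit 3657887), (nat_lit 7840925)]) (PF.cons (PF.leaf (nat_lit 8870608) (nat_lit
 606060) (nat_lit 33666184) (nat_lit 14785729) [(nat_lit 606060), (nat_lit 1742015), (nat_lit 3650123), (nat_lit 7796454)]) (PF.cons PF.nil PF.nil))))) (PF.cons (PF.cons (PF.leaf (nat_lit 8586386) (nat_lit 1734883) (nat_lit 33741710) (nat_lit 14805055) [(nat_lit 0), (nat_lit 1734883), (nat_lit 3646088), (nat_lit 7800103)]) (PF.cons (PF.leaf (nat_lit 8915472) (nat_lit 603766) (nat_lit 33318520) (nat_lit 14679669) [(nat_lit 603766), (nat_lit 1737878), (nat_lit 3637752), (nat_lit 7755595)]) (PF.cons PF.nil (PF.cons PF.nil PF.nil)))) (PF.cons (PF.cons (PF.leaf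 (nat_lit 9289515) (nat_lit 1735023) (nat_lit 32558360) (nat_lit 14447608) [(nat_lit 0), (nat_lit 1735023), (nat_lit 3614867), (nat_lit 7668038)]) (PF.cons PF.nil PF.nil)) (PF.cons PF.nil PF.nil))))) (PF.cons (PF.cons (PF.cons (PF.leaf (nat_lit 8311731) (nat_lit 3628385) (nat_lit 33670912) (nat_lit 14773948) [(nat_lit 0), (nat_lit 0), (nat_lit 3628385), (nat_lit 7778794)]) (PF.cons (PF.leaf (nat_lit 8630637) (nat_lit 592400) (nat_lit 33263414) (nat_lit 14653290) [(nat_lit 592400), (nat_lit 0), (nat_lit 3621142), (nat_lit 7736280)]) (PF.cons (PF.leaf (nat_lit 8955755) (nat_lit 598452) (nat_lit 32852208) (nat_lit 14529998) [(nat_lit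
 598452), (nat_lit 0), (nat_lit 3612586), (nat_lit 7691943)]) (PF.cons PF.nil PF.nil)))) (PF.cons (PF.cons (PF.leaf (nat_lit 9001779) (nat_lit 1721197) (nat_lit 32513738) (nat_lit 14424625) [(nat_lit 0), (nat_lit 1721197), (nat_lit 3599585), (nat_lit 7650494)]) (PF.cons (PF.leaf (nat_lit 9324857) (nat_lit 600934) (nat_lit 32111077) (nat_lit 14301242) [(nat_lit 600934), (nat_lit 1722744), (nat_lit 3589373), (nat_lit 7604694)]) PF.nil)) (PF.cons PF.nil PF.nil))) (PF.cons (PF.cons (PF.cons (PF.leaf (nat_lit 9400311) (nat_lit 3549974) (nat_lit 31354456) (nat_lit 14054340) [(nat_lit 0), (nat_lit 0), (nat_lit 3549974), (nat_lit 7500116)]) (PF.cons PF.nil PF.nil)) (PF.cons PF.nil PF.nil)) (PF.cons PF.nil PF.nil)))))) (PF.cons (PF.cons (PF.cons (PF.cons (PF.leaf (nat_lit 6649168) (nat_lit 7937745) (nat_lit 35871057) (nat_lit 15362263) [(nat_lit 0), (nat_lit 0), (nat_lit 0), (nat_lit 7937745)]) (PF.cons (PF.leaf (nat_lit 6939279) (nat_lit 543032) (nat_lit 35490911) (nat_lit 15259009)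 [(nat_lit 543032), (nat_lit 0), (nat_lit 0), (nat_lit 7907929)]) (PF.cons (PF.leaf (nat_lit 7243239) (nat_lit 555691) (nat_lit 35096314) (nat_lit 15150320) [(nat_lit 555691), (nat_lit 0), (nat_lit 0), (nat_lit
 7875397)]) (PF.cons (PF.leaf (nat_lit 7557749) (nat_lit 566461) (nat_lit 34691432) (nat_lit 15037217) [(nat_lit 566461), (nat_lit 0), (nat_lit 0), (nat_lit 7840388)]) (PF.cons (PF.leaf (nat_lit 7880543) (nat_lit 575683) (nat_lit 34279375) (nat_lit 14920481) [(nat_lit 575683), (nat_lit 0), (nat_lit 0), (nat_lit 7803110)]) (PF.cons (PF.leaf (nat_lit 8209857) (nat_lit 583604) (nat_lit 33862553) (nat_lit 14800739) [(nat_lit 583604), (nat_lit 0), (nat_lit 0), (nat_lit 7763749)]) (PF.cons (PF.leaf (nat_lit 8544248) (nat_lit 590410) (nat_lit 33442888) (nat_lit 14678511) [(nat_lit 590410), (nat_lit 0), (nat_lit 0), (nat_lit 7722476)]) (PF.cons PF.nil (PF.cons PF.nil PF.nil))))))))) (PF.cons (PF.cons (PF.leaf (nat_lit 7318711) (nat_lit 1674814) (nat_lit 34717053) (nat_lit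 15041302) [(nat_lit 0), (nat_lit 1674814), (nat_lit 0), (nat_lit 7837821)]) (PF.cons (PF.leaf (nat_lit 7624359) (nat_lit 564642) (nat_lit 34324489) (nat_lit 14930276) [(nat_lit 564642), (nat_lit 1684217), (nat_lit 0), (nat_lit 7802593)]) (PF.cons (PF.leaf (nat_lit 7939729) (nat_lit 573926) (nat_lit 33923409) (nat_lit 14815315) [(nat_lit 573926), (nat_lit 1692097), (nat_lit 0), (nat_lit 7765068)]) (PF.cons (PF.leaf
 (nat_lit 8262436) (nat_lit 581853) (nat_lit 33516628) (nat_lit 14697157) [(nat_lit 581853), (nat_lit 1698538), (nat_lit 0), (nat_lit 7725463)]) (PF.cons (PF.leaf (nat_lit 8590844) (nat_lit 588633) (nat_lit 33106316) (nat_lit 14576391) [(nat_lit 588633), (nat_lit 1703635), (nat_lit 0), (nat_lit 7683968)]) (PF.cons PF.nil (PF.cons PF.nil PF.nil))))))) (PF.cons (PF.cons (PF.leaf (nat_lit 8001313) (nat_lit 1689771) (nat_lit 33567834) (nat_lit 14709177) [(nat_lit 0), (nat_lit 1689771), (nat_lit 0), (nat_lit 7726129)]) (PF.cons (PF.leaf (nat_lit 8316519) (nat_lit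 579780) (nat_lit 33171954) (nat_lit 14592933) [(nat_lit 579780), (nat_lit 1695626), (nat_lit 0), (nat_lit 7686445)]) (PF.cons (PF.leaf (nat_lit 8638505) (nat_lit 586593) (nat_lit 32771596) (nat_lit 14473880) [(nat_lit 586593), (nat_lit 1700212), (nat_lit 0), (nat_lit 7644861)]) (PF.cons (PF.leaf (nat_lit 8965474) (nat_lit 592383) (nat_lit 32368724) (nat_lit 14352575) [(nat_lit 592383), (nat_lit 1703610), (nat_lit 0), (nat_lit 7601570)]) (PF.cons PF.nil PF.nil))))) (PF.cons (PF.cons (PF.leaf (nat_lit 8687978) (nat_lit 1696503) (nat_lit 32438215) (nat_lit 14370847) [(nat_lit 0), (nat_lit 1696503), (nat_lit 0), (nat_lit 7605120)])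
 (PF.cons (PF.leaf (nat_lit 9008451) (nat_lit 590107) (nat_lit 32045148) (nat_lit 14251358) [(nat_lit 590107), (nat_lit 1699483), (nat_lit 0), (nat_lit 7561874)]) (PF.cons PF.nil (PF.cons PF.nil PF.nil)))) (PF.cons (PF.cons (PF.leaf (nat_lit 9372277) (nat_lit 1696691) (nat_lit 31337835) (nat_lit 14030191) [(nat_lit 0), (nat_lit 1696691), (nat_lit 0), (nat_lit 7477009)]) (PF.cons PF.nil PF.nil)) (PF.cons PF.nil PF.nil)))))) (PF.cons (PF.cons (PF.cons (PF.leaf (nat_lit 7749824) (nat_lit 3567061) (nat_lit 33468999) (nat_lit 14669848) [(nat_lit 0), (nat_lit 0), (nat_lit 3567061), (nat_lit 7701451)]) (PF.cons (PF.leaf (nat_lit 8051976) (nat_lit 565837) (nat_lit 33092439) (nat_lit 14559271) [(nat_lit 565837), (nat_lit 0), (nat_lit 3563242), (nat_lit 7664010)]) (PF.cons (PF.leaf (nat_lit 8363129) (nat_lit 574179) (nat_lit 32708403) (nat_lit 14445123) [(nat_lit 574179), (nat_lit 0), (nat_lit 3557992), (nat_lit 7624467)]) (PF.cons (PF.leaf (nat_lit 8680970) (nat_lit 581230) (nat_lit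 32319516) (nat_lit 14328130) [(nat_lit 581230), (nat_lit 0), (nat_lit 3551365), (nat_lit 7583053)]) (PF.cons (PF.leaf (nat_lit 9003959) (nat_lit 587198) (nat_lit 31927788) (nat_lit 14208863) [(nat_lit 587198),
 (nat_lit 0), (nat_lit 3543428), (nat_lit 7539968)]) PF.nil))))) (PF.cons (PF.cons (PF.leaf (nat_lit 8419113) (nat_lit 1680329) (nat_lit 32371540) (nat_lit 14341117) [(nat_lit 0), (nat_lit 1680329), (nat_lit 3546618), (nat_lit 7584603)]) (PF.cons (PF.leaf (nat_lit 8729624) (nat_lit 578774) (nat_lit 31993242) (nat_lit 14226201) [(nat_lit 578774), (nat_lit 1684485), (nat_lit 3539461), (nat_lit 7543323)]) (PF.cons (PF.leaf (nat_lit 9046347) (nat_lit 584820) (nat_lit 31611152) (nat_lit 14108793) [(nat_lit 584820), (nat_lit 1687490), (nat_lit 3531049), (nat_lit 7500342)]) (PF.cons PF.nil PF.nil)))) (PF.cons (PF.cons (PF.leaf (nat_lit 9090681) (nat_lit 1683000) (nat_lit 31295816) (nat_lit 14008317) [(nat_lit 0), (nat_lit 1683000), (nat_lit 3518288), (nat_lit 7460194)])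 (PF.cons (PF.leaf (nat_lit 9405571) (nat_lit 587341) (nat_lit 30921190) (nat_lit 13890884) [(nat_lit 587341), (nat_lit 1684615), (nat_lit 3508325), (nat_lit 7415919)]) PF.nil)) (PF.cons PF.nil (PF.cons PF.nil PF.nil))))) (PF.cons (PF.cons (PF.cons (PF.leaf (nat_lit 8821191) (nat_lit 3502359) (nat_lit 31239196) (nat_lit 13981879) [(nat_lit 0), (nat_lit 0), (nat_lit 3502359), (nat_lit 7441508)]) (PF.cons (PF.leaf (nat_lit
 9126789) (nat_lit 576640) (nat_lit 30878110) (nat_lit 13868791) [(nat_lit 576640), (nat_lit 0), (nat_lit 3493476), (nat_lit 7399158)]) (PF.cons (PF.leaf (nat_lit 9438133) (nat_lit 582017) (nat_lit 30513787) (nat_lit 13753487) [(nat_lit 582017), (nat_lit 0), (nat_lit 3483469), (nat_lit 7355282)]) (PF.cons PF.nil PF.nil)))) (PF.cons (PF.cons (PF.leaf (nat_lit 9477764) (nat_lit 1667348) (nat_lit 30215594) (nat_lit 13655818) [(nat_lit 0), (nat_lit 1667348), (nat_lit 3469944), (nat_lit 7315081)]) (PF.cons PF.nil PF.nil)) (PF.cons PF.nil PF.nil))) (PF.cons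 (PF.cons (PF.cons (PF.leaf (nat_lit 9850136) (nat_lit 3419728) (nat_lit 29194132) (nat_lit 13313943) [(nat_lit 0), (nat_lit 0), (nat_lit 3419728), (nat_lit 7170775)]) (PF.cons PF.nil PF.nil)) (PF.cons PF.nil PF.nil)) (PF.cons PF.nil PF.nil))))) (PF.cons (PF.cons (PF.cons (PF.cons (PF.leaf (nat_lit 8272841) (nat_lit 7376092) (nat_lit 31084142) (nat_lit 13896393) [(nat_lit 0), (nat_lit 0), (nat_lit 0), (nat_lit 7376092)]) (PF.cons (PF.leaf (nat_lit 8563414) (nat_lit 552273) (nat_lit 30749109) (nat_lit 13792295) [(nat_lit 552273), (nat_lit 0), (nat_lit 0), (nat_lit 7338378)]) (PF.cons (PF.leaf (nat_lit 8862356) (nat_lit 559833) (nat_lit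
 30407557) (nat_lit 13685083) [(nat_lit 559833), (nat_lit 0), (nat_lit 0), (nat_lit 7298834)]) (PF.cons (PF.leaf (nat_lit 9167447) (nat_lit 566162) (nat_lit 30061790) (nat_lit 13575438) [(nat_lit 566162), (nat_lit 0), (nat_lit 0), (nat_lit 7257698)]) (PF.cons PF.nil PF.nil))))) (PF.cons (PF.cons (PF.leaf (nat_lit 8911722) (nat_lit 1631048) (nat_lit 30109844) (nat_lit 13588326) [(nat_lit 0), (nat_lit 1631048), (nat_lit 0), (nat_lit 7259864)]) (PF.cons (PF.leaf (nat_lit 9209804) (nat_lit 563469) (nat_lit 29773448) (nat_lit 13480788) [(nat_lit 563469), (nat_lit 1633928), (nat_lit 0), (nat_lit 7219059)]) (PF.cons (PF.leaf (nat_lit 9513653) (nat_lit 568883) (nat_lit 29433720) (nat_lit 13371123) [(nat_lit 568883), (nat_lit 1635766), (nat_lit 0), (nat_lit 7176811)]) (PF.cons PF.nil PF.nil)))) (PF.cons (PF.cons (PF.leaf (nat_lit 9552164) (nat_lit 1630815) (nat_lit 29154913) (nat_lit 13278067) [(nat_lit 0), (nat_lit 1630815), (nat_lit 0), (nat_lit 7138066)]) (PF.cons PF.nil PF.nil))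 PF.nil))) (PF.cons (PF.cons (PF.cons (PF.leaf (nat_lit 9288462) (nat_lit 3378552) (nat_lit 29109466) (nat_lit 13255632) [(nat_lit 0), (nat_lit 0), (nat_lit 3378552), (nat_lit 7121720)]) (PF.cons (PF.leaf
 (nat_lit 9581875) (nat_lit 560602) (nat_lit 28788050) (nat_lit 13150224) [(nat_lit 560602), (nat_lit 0), (nat_lit 3368728), (nat_lit 7080402)]) (PF.cons PF.nil PF.nil))) (PF.cons (PF.cons (PF.leaf (nat_lit 9915121) (nat_lit 1614141) (nat_lit 28199672) (nat_lit 12952702) [(nat_lit 0), (nat_lit 1614141), (nat_lit 3344324), (nat_lit 6999323)]) PF.nil) PF.nil)) (PF.cons PF.nil PF.nil))) (PF.cons (PF.cons (PF.cons (PF.cons (PF.leaf (nat_lit 9720721) (nat_lit 6821137) (nat_lit 27233330) (nat_lit 12590931) [(nat_lit 0), (nat_lit 0), (nat_lit 0), (nat_lit 6821137)]) (PF.cons (PF.leaf (nat_lit 10002950) (nat_lit 544691) (nat_lit 26945869) (nat_lit 12492944) [(nat_lit 544691), (nat_lit 0), (nat_lit 0), (nat_lit 6781326)]) PF.nil)) (PF.cons PF.nil PF.nil)) (PF.cons PF.nil PF.nil))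 (PF.cons PF.nil (PF.cons PF.nil (PF.cons PF.nil PF.nil))))))))

def p15_29_3_0 : pfC (piC [(nat_lit 35755509), (nat_lit 23968959), (nat_lit 17897616), (nat_lit 12073119)] (nat_lit 5058382)) p15_29_3 (nat_lit 4) (nat_lit 0) (nat_lit 1) = true := by decide +kernel
def p15_29_3_1 : pfC (piC [(nat_lit 35755509), (nat_lit 23968959), (nat_lit 17897616), (nat_lit 12073119)] (nat_lit 5058382)) p15_29_3 (nat_lit 4) (nat_lit 1) (nat_lit 2) = true := by decide +kernel
def p15_29_3_2 : pfC (piC [(nat_lit 35755509), (nat_lit 23968959), (nat_lit 17897616), (nat_lit 12073119)] (nat_lit 5058382)) p15_29_3 (nat_lit 4) (nat_lit 2) (nat_lit 3) = true := by decide +kernel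
def p15_29_3_3 : pfC (piC [(nat_lit 35755509), (nat_lit 23968959), (nat_lit 17897616), (nat_lit 12073119)] (nat_lit 5058382)) p15_29_3 (nat_lit 4) (nat_lit 3) (nat_lit 4) = true := by decide +kernel
def p15_29_3_4 : pfC (piC [(nat_lit 35755509), (nat_lit 23968959), (nat_lit 17897616), (nat_lit 12073119)] (nat_lit 5058382)) p15_29_3 (nat_lit 4) (nat_lit 4) (nat_lit 5) = true := by decide +kernel
def p15_29_3_5 : pfC (piC [(nat_lit 35755509), (nat_lit 23968959), (nat_lit 17897616), (nat_lit 12073119)] (nat_lit 5058382)) p15_29_3 (nat_lit 4) (nat_lit 5) (nat_lit 6) = true := by decide +kernel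
def p15_29_3_6 : pfC (piC [(nat_lit 35755509), (nat_lit 23968959), (nat_lit 17897616), (nat_lit 12073119)] (nat_lit 5058382)) p15_29_3 (nat_lit 4) (nat_lit 6) (nat_lit 7) = true := by decide +kernel
def p15_29_3_7 : pfC (piC [(nat_lit 35755509), (nat_lit 23968959), (nat_lit 17897616), (nat_lit 12073119)] (nat_lit 5058382)) p15_29_3 (nat_lit 4) (nat_lit 7) (nat_lit 8) = true := by decide +kernel
def p15_29_3_8 : pfC (piC [(nat_lit 35755509), (nat_lit 23968959), (nat_lit 17897616), (nat_lit 12073119)] (nat_lit 5058382)) p15_29_3 (nat_lit 4) (nat_lit 8) (nat_lit 9) = true := by decide +kernel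
def p15_29_3_9 : pfC (piC [(nat_lit 35755509), (nat_lit 23968959), (nat_lit 17897616), (nat_lit 12073119)] (nat_lit 5058382)) p15_29_3 (nat_lit 4) (nat_lit 9) (nat_lit 10) = true := by decide +kernel
def p15_29_3_10 : pfC (piC [(nat_lit 35755509), (nat_lit 23968959), (nat_lit 17897616), (nat_lit 12073119)] (nat_lit 5058382)) p15_29_3 (nat_lit 4) (nat_lit 10) (nat_lit 11) = true := by decide +kernel
def p15_29_3_11 : pfC (piC [(nat_lit 35755509), (nat_lit 23968959), (nat_lit 17897616), (nat_lit 12073119)] (nat_lit 5058382)) p15_29_3 (nat_lit 4) (nat_lit 11) (nat_lit 12) = true := by decide +kernel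
def p15_29_3_12 : pfC (piC [(nat_lit 35755509), (nat_lit 23968959), (nat_lit 17897616), (nat_lit 12073119)] (nat_lit 5058382)) p15_29_3 (nat_lit 4) (nat_lit 12) (nat_lit 13) = true := by decide +kernel
def p15_29_3_13 : pfC (piC [(nat_lit 35755509), (nat_lit 23968959), (nat_lit 17897616), (nat_lit 12073119)] (nat_lit 5058382)) p15_29_3 (nat_lit 4) (nat_lit 13) (nat_lit 14) = true := by decide +kernel
def p15_29_3_14 : pfC (piC [(nat_lit 35755509), (nat_lit 23968959), (nat_lit 17897616), (nat_lit 12073119)] (nat_lit 5058382)) p15_29_3 (nat_lit 4) (nat_lit 14) (nat_lit 15) = true := by decide +kernel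
def p15_29_3_15 : pfC (piC [(nat_lit 35755509), (nat_lit 23968959), (nat_lit 17897616), (nat_lit 12073119)] (nat_lit 5058382)) p15_29_3 (nat_lit 4) (nat_lit 15) (nat_lit 16) = true := by decide +kernel
def p15_29_3_16 : pfC (piC [(nat_lit 35755509), (nat_lit 23968959), (nat_lit 17897616), (nat_lit 12073119)] (nat_lit 5058382)) p15_29_3 (nat_lit 4) (nat_lit 16) (nat_lit 17) = true := by decide +kernel
def p15_29_3_17 : pfC (piC [(nat_lit 35755509), (nat_lit 23968959), (nat_lit 17897616), (nat_lit 12073119)] (nat_lit 5058382)) p15_29_3 (nat_lit 4) (nat_lit 17) (nat_lit 18) = true := by decide +kernel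
def p15_29_3_18 : pfC (piC [(nat_lit 35755509), (nat_lit 23968959), (nat_lit 17897616), (nat_lit 12073119)] (nat_lit 5058382)) p15_29_3 (nat_lit 4) (nat_lit 18) (nat_lit 19) = true := by decide +kernel
def p15_29_3_19 : pfC (piC [(nat_lit 35755509), (nat_lit 23968959), (nat_lit 17897616), (nat_lit 12073119)] (nat_lit 5058382)) p15_29_3 (nat_lit 4) (nat_lit 19) (nat_lit 20) = true := by decide +kernel
def p15_29_3_20 : pfC (piC [(nat_lit 35755509), (nat_lit 23968959), (nat_lit 17897616), (nat_lit 12073119)] (nat_lit 5058382)) p15_29_3 (nat_lit 4) (nat_lit 20) (nat_lit 21) = true := by decide +kernel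
def p15_29_3_21 : pfC (piC [(nat_lit 35755509), (nat_lit 23968959), (nat_lit 17897616), (nat_lit 12073119)] (nat_lit 5058382)) p15_29_3 (nat_lit 4) (nat_lit 21) (nat_lit 22) = true := by decide +kernel
def p15_29_3_22 : pfC (piC [(nat_lit 35755509), (nat_lit 23968959), (nat_lit 17897616), (nat_lit 12073119)] (nat_lit 5058382)) p15_29_3 (nat_lit 4) (nat_lit 22) (nat_lit 23) = true := by decide +kernel
def p15_29_3_23 : pfC (piC [(nat_lit 35755509), (nat_lit 23968959), (nat_lit 17897616), (nat_lit 12073119)] (nat_lit 5058382)) p15_29_3 (nat_lit 4) (nat_lit 23) (nat_lit 24) = true := by decide +kernel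
def p15_29_3_24 : pfC (piC [(nat_lit 35755509), (nat_lit 23968959), (nat_lit 17897616), (nat_lit 12073119)] (nat_lit 5058382)) p15_29_3 (nat_lit 4) (nat_lit 24) (nat_lit 25) = true := by decide +kernel
def p15_29_3_25 : pfC (piC [(nat_lit 35755509), (nat_lit 23968959), (nat_lit 17897616), (nat_lit 12073119)] (nat_lit 5058382)) p15_29_3 (nat_lit 4) (nat_lit 25) (nat_lit 26) = true := by decide +kernel
def p15_29_3_26 : pfC (piC [(nat_lit 35755509), (nat_lit 23968959), (nat_lit 17897616), (nat_lit 12073119)] (nat_lit 5058382)) p15_29_3 (nat_lit 4) (nat_lit 26) (nat_lit 27) = true := by decide +kernel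
def p15_29_3_27 : pfC (piC [(nat_lit 35755509), (nat_lit 23968959), (nat_lit 17897616), (nat_lit 12073119)] (nat_lit 5058382)) p15_29_3 (nat_lit 4) (nat_lit 27) (nat_lit 28) = true := by decide +kernel
def p15_29_3_28 : pfC (piC [(nat_lit 35755509), (nat_lit 23968959), (nat_lit 17897616), (nat_lit 12073119)] (nat_lit 5058382)) p15_29_3 (nat_lit 4) (nat_lit 28) (nat_lit 29) = true := by decide +kernel
def p15_29_3_29 : pfC (piC [(nat_lit 35755509), (nat_lit 23968959), (nat_lit 17897616), (nat_lit 12073119)] (nat_lit 5058382)) p15_29_3 (nat_lit 4) (nat_lit 29) (nat_lit 30) = true := by decide +kernel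
def p15_29_3_30 : pfC (piC [(nat_lit 35755509), (nat_lit 23968959), (nat_lit 17897616), (nat_lit 12073119)] (nat_lit 5058382)) p15_29_3 (nat_lit 4) (nat_lit 30) (nat_lit 31) = true := by decide +kernel
def p15_29_3_31 : pfC (piC [(nat_lit 35755509), (nat_lit 23968959), (nat_lit 17897616), (nat_lit 12073119)] (nat_lit 5058382)) p15_29_3 (nat_lit 4) (nat_lit 31) (nat_lit 32) = true := by decide +kernel
def p15_29_3_32 : pfC (piC [(nat_lit 35755509), (nat_lit 23968959), (nat_lit 17897616), (nat_lit 12073119)] (nat_lit 5058382)) p15_29_3 (nat_lit 4) (nat_lit 32) (nat_lit 33) = true := by decide +kernel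
def p15_29_3_33 : pfC (piC [(nat_lit 35755509), (nat_lit 23968959), (nat_lit 17897616), (nat_lit 12073119)] (nat_lit 5058382)) p15_29_3 (nat_lit 4) (nat_lit 33) (nat_lit 34) = true := by decide +kernel
def p15_29_3_34 : pfC (piC [(nat_lit 35755509), (nat_lit 23968959), (nat_lit 17897616), (nat_lit 12073119)] (nat_lit 5058382)) p15_29_3 (nat_lit 4) (nat_lit 34) (nat_lit 35) = true := by decide +kernel
def p15_29_3_35 : pfC (piC [(nat_lit 35755509), (nat_lit 23968959), (nat_lit 17897616), (nat_lit 12073119)] (nat_lit 5058382)) p15_29_3 (nat_lit 4) (nat_lit 35) (nat_lit 36) = true := by decide +kernel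
def p15_29_3_36 : pfC (piC [(nat_lit 35755509), (nat_lit 23968959), (nat_lit 17897616), (nat_lit 12073119)] (nat_lit 5058382)) p15_29_3 (nat_lit 4) (nat_lit 36) (nat_lit 37) = true := by decide +kernel
def p15_29_3_37 : pfC (piC [(nat_lit 35755509), (nat_lit 23968959), (nat_lit 17897616), (nat_lit 12073119)] (nat_lit 5058382)) p15_29_3 (nat_lit 4) (nat_lit 37) (nat_lit 38) = true := by decide +kernel
def p15_29_3_38 : pfC (piC [(nat_lit 35755509), (nat_lit 23968959), (nat_lit 17897616), (nat_lit 12073119)] (nat_lit 5058382)) p15_29_3 (nat_lit 4) (nat_lit 38) (nat_lit 39) = true := by decide +kernel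
def p15_29_3_39 : pfC (piC [(nat_lit 35755509), (nat_lit 23968959), (nat_lit 17897616), (nat_lit 12073119)] (nat_lit 5058382)) p15_29_3 (nat_lit 4) (nat_lit 39) (nat_lit 40) = true := by decide +kernel
def p15_29_3_40 : pfC (piC [(nat_lit 35755509), (nat_lit 23968959), (nat_lit 17897616), (nat_lit 12073119)] (nat_lit 5058382)) p15_29_3 (nat_lit 4) (nat_lit 40) (nat_lit 41) = true := by decide +kernel
def p15_29_3_41 : pfC (piC [(nat_lit 35755509), (nat_lit 23968959), (nat_lit 17897616), (nat_lit 12073119)] (nat_lit 5058382)) p15_29_3 (nat_lit 4) (nat_lit 41) (nat_lit 42) = true := by decide +kernel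
def p15_29_3_42 : pfC (piC [(nat_lit 35755509), (nat_lit 23968959), (nat_lit 17897616), (nat_lit 12073119)] (nat_lit 5058382)) p15_29_3 (nat_lit 4) (nat_lit 42) (nat_lit 43) = true := by decide +kernel
def p15_29_3_43 : pfC (piC [(nat_lit 35755509), (nat_lit 23968959), (nat_lit 17897616), (nat_lit 12073119)] (nat_lit 5058382)) p15_29_3 (nat_lit 4) (nat_lit 43) (nat_lit 44) = true := by decide +kernel
def p15_29_3_44 : pfC (piC [(nat_lit 35755509), (nat_lit 23968959), (nat_lit 17897616), (nat_lit 12073119)] (nat_lit 5058382)) p15_29_3 (nat_lit 4) (nat_lit 44) (nat_lit 45) = true := by decide +kernel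
def p15_29_3_45 : pfC (piC [(nat_lit 35755509), (nat_lit 23968959), (nat_lit 17897616), (nat_lit 12073119)] (nat_lit 5058382)) p15_29_3 (nat_lit 4) (nat_lit 45) (nat_lit 46) = true := by decide +kernel
def p15_29_3_46 : pfC (piC [(nat_lit 35755509), (nat_lit 23968959), (nat_lit 17897616), (nat_lit 12073119)] (nat_lit 5058382)) p15_29_3 (nat_lit 4) (nat_lit 46) (nat_lit 47) = true := by decide +kernel
def p15_29_3_47 : pfC (piC [(nat_lit 35755509), (nat_lit 23968959), (nat_lit 17897616), (nat_lit 12073119)] (nat_lit 5058382)) p15_29_3 (nat_lit 4) (nat_lit 47) (nat_lit 48) = true := by decide +kernel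
def p15_29_3_48 : pfC (piC [(nat_lit 35755509), (nat_lit 23968959), (nat_lit 17897616), (nat_lit 12073119)] (nat_lit 5058382)) p15_29_3 (nat_lit 4) (nat_lit 48) (nat_lit 49) = true := by decide +kernel
def p15_29_3_49 : pfC (piC [(nat_lit 35755509), (nat_lit 23968959), (nat_lit 17897616), (nat_lit 12073119)] (nat_lit 5058382)) p15_29_3 (nat_lit 4) (nat_lit 49) (nat_lit 50) = true := by decide +kernel
def p15_29_3_50 : pfC (piC [(nat_lit 35755509), (nat_lit 23968959), (nat_lit 17897616), (nat_lit 12073119)] (nat_lit 5058382)) p15_29_3 (nat_lit 4) (nat_lit 50) (nat_lit 51) = true := by decide +kernel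
def p15_29_3_51 : pfC (piC [(nat_lit 35755509), (nat_lit 23968959), (nat_lit 17897616), (nat_lit 12073119)] (nat_lit 5058382)) p15_29_3 (nat_lit 4) (nat_lit 51) (nat_lit 52) = true := by decide +kernel
def p15_29_3_52 : pfC (piC [(nat_lit 35755509), (nat_lit 23968959), (nat_lit 17897616), (nat_lit 12073119)] (nat_lit 5058382)) p15_29_3 (nat_lit 4) (nat_lit 52) (nat_lit 53) = true := by decide +kernel
def p15_29_3_53 : pfC (piC [(nat_lit 35755509), (nat_lit 23968959), (nat_lit 17897616), (nat_lit 12073119)] (nat_lit 5058382)) p15_29_3 (nat_lit 4) (nat_lit 53) (nat_lit 54) = true := by decide +kernel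
def p15_29_3_54 : pfC (piC [(nat_lit 35755509), (nat_lit 23968959), (nat_lit 17897616), (nat_lit 12073119)] (nat_lit 5058382)) p15_29_3 (nat_lit 4) (nat_lit 54) (nat_lit 55) = true := by decide +kernel
def p15_29_3_55 : pfC (piC [(nat_lit 35755509), (nat_lit 23968959), (nat_lit 17897616), (nat_lit 12073119)] (nat_lit 5058382)) p15_29_3 (nat_lit 4) (nat_lit 55) (nat_lit 56) = true := by decide +kernel
def p15_29_3_56 : pfC (piC [(nat_lit 35755509), (nat_lit 23968959), (nat_lit 17897616), (nat_lit 12073119)] (nat_lit 5058382)) p15_29_3 (nat_lit 4) (nat_lit 56) (nat_lit 57) = true := by decide +kernel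
def p15_29_3_57 : pfC (piC [(nat_lit 35755509), (nat_lit 23968959), (nat_lit 17897616), (nat_lit 12073119)] (nat_lit 5058382)) p15_29_3 (nat_lit 4) (nat_lit 57) (nat_lit 58) = true := by decide +kernel
def p15_29_3_58 : pfC (piC [(nat_lit 35755509), (nat_lit 23968959), (nat_lit 17897616), (nat_lit 12073119)] (nat_lit 5058382)) p15_29_3 (nat_lit 4) (nat_lit 58) (nat_lit 59) = true := by decide +kernel
def p15_29_3_59 : pfC (piC [(nat_lit 35755509), (nat_lit 23968959), (nat_lit 17897616), (nat_lit 12073119)] (nat_lit 5058382)) p15_29_3 (nat_lit 4) (nat_lit 59) (nat_lit 60) = true := by decide +kernel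
def p15_29_3_60 : pfC (piC [(nat_lit 35755509), (nat_lit 23968959), (nat_lit 17897616), (nat_lit 12073119)] (nat_lit 5058382)) p15_29_3 (nat_lit 4) (nat_lit 60) (nat_lit 61) = true := by decide +kernel
def p15_29_3_61 : pfC (piC [(nat_lit 35755509), (nat_lit 23968959), (nat_lit 17897616), (nat_lit 12073119)] (nat_lit 5058382)) p15_29_3 (nat_lit 4) (nat_lit 61) (nat_lit 62) = true := by decide +kernel
def p15_29_3_62 : pfC (piC [(nat_lit 35755509), (nat_lit 23968959), (nat_lit 17897616), (nat_lit 12073119)] (nat_lit 5058382)) p15_29_3 (nat_lit 4) (nat_lit 62) (nat_lit 63) = true := by decide +kernel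
def p15_29_3_63 : pfC (piC [(nat_lit 35755509), (nat_lit 23968959), (nat_lit 17897616), (nat_lit 12073119)] (nat_lit 5058382)) p15_29_3 (nat_lit 4) (nat_lit 63) (nat_lit 64) = true := by decide +kernel
def p15_29_3_64 : pfC (piC [(nat_lit 35755509), (nat_lit 23968959), (nat_lit 17897616), (nat_lit 12073119)] (nat_lit 5058382)) p15_29_3 (nat_lit 4) (nat_lit 64) (nat_lit 65) = true := by decide +kernel
def p15_29_3_65 : pfC (piC [(nat_lit 35755509), (nat_lit 23968959), (nat_lit 17897616), (nat_lit 12073119)] (nat_lit 5058382)) p15_29_3 (nat_lit 4) (nat_lit 65) (nat_lit 66) = true := by decide +kernel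
def p15_29_3_66 : pfC (piC [(nat_lit 35755509), (nat_lit 23968959), (nat_lit 17897616), (nat_lit 12073119)] (nat_lit 5058382)) p15_29_3 (nat_lit 4) (nat_lit 66) (nat_lit 67) = true := by decide +kernel
def p15_29_3_67 : pfC (piC [(nat_lit 35755509), (nat_lit 23968959), (nat_lit 17897616), (nat_lit 12073119)] (nat_lit 5058382)) p15_29_3 (nat_lit 4) (nat_lit 67) (nat_lit 68) = true := by decide +kernel
def p15_29_3_68 : pfC (piC [(nat_lit 35755509), (nat_lit 23968959), (nat_lit 17897616), (nat_lit 12073119)] (nat_lit 5058382)) p15_29_3 (nat_lit 4) (nat_lit 68) (nat_lit 69) = true := by decide +kernel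
def p15_29_3_69 : pfC (piC [(nat_lit 35755509), (nat_lit 23968959), (nat_lit 17897616), (nat_lit 12073119)] (nat_lit 5058382)) p15_29_3 (nat_lit 4) (nat_lit 69) (nat_lit 70) = true := by decide +kernel
def p15_29_3_70 : pfC (piC [(nat_lit 35755509), (nat_lit 23968959), (nat_lit 17897616), (nat_lit 12073119)] (nat_lit 5058382)) p15_29_3 (nat_lit 4) (nat_lit 70) (nat_lit 71) = true := by decide +kernel
def p15_29_3_71 : pfC (piC [(nat_lit 35755509), (nat_lit 23968959), (nat_lit 17897616), (nat_lit 12073119)] (nat_lit 5058382)) p15_29_3 (nat_lit 4) (nat_lit 71) (nat_lit 72) = true := by decide +kernel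
def p15_29_3_72 : pfC (piC [(nat_lit 35755509), (nat_lit 23968959), (nat_lit 17897616), (nat_lit 12073119)] (nat_lit 5058382)) p15_29_3 (nat_lit 4) (nat_lit 72) (nat_lit 73) = true := by decide +kernel
def p15_29_3_73 : pfC (piC [(nat_lit 35755509), (nat_lit 23968959), (nat_lit 17897616), (nat_lit 12073119)] (nat_lit 5058382)) p15_29_3 (nat_lit 4) (nat_lit 73) (nat_lit 74) = true := by decide +kernel
def p15_29_3_74 : pfC (piC [(nat_lit 35755509), (nat_lit 23968959), (nat_lit 17897616), (nat_lit 12073119)] (nat_lit 5058382)) p15_29_3 (nat_lit 4) (nat_lit 74) (nat_lit 75) = true := by decide +kernel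
def p15_29_3_75 : pfC (piC [(nat_lit 35755509), (nat_lit 23968959), (nat_lit 17897616), (nat_lit 12073119)] (nat_lit 5058382)) p15_29_3 (nat_lit 4) (nat_lit 75) (nat_lit 76) = true := by decide +kernel
def p15_29_3_76 : pfC (piC [(nat_lit 35755509), (nat_lit 23968959), (nat_lit 17897616), (nat_lit 12073119)] (nat_lit 5058382)) p15_29_3 (nat_lit 4) (nat_lit 76) (nat_lit 77) = true := by decide +kernel
def p15_29_3_77 : pfC (piC [(nat_lit 35755509), (nat_lit 23968959), (nat_lit 17897616), (nat_lit 12073119)] (nat_lit 5058382)) p15_29_3 (nat_lit 4) (nat_lit 77) (nat_lit 78) = true := by decide +kernel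
def p15_29_3_78 : pfC (piC [(nat_lit 35755509), (nat_lit 23968959), (nat_lit 17897616), (nat_lit 12073119)] (nat_lit 5058382)) p15_29_3 (nat_lit 4) (nat_lit 78) (nat_lit 79) = true := by decide +kernel
def p15_29_3_79 : pfC (piC [(nat_lit 35755509), (nat_lit 23968959), (nat_lit 17897616), (nat_lit 12073119)] (nat_lit 5058382)) p15_29_3 (nat_lit 4) (nat_lit 79) (nat_lit 80) = true := by decide +kernel
def p15_29_3_80 : pfC (piC [(nat_lit 35755509), (nat_lit 23968959), (nat_lit 17897616), (nat_lit 12073119)] (nat_lit 5058382)) p15_29_3 (nat_lit 4) (nat_lit 80) (nat_lit 81) = true := by decide +kernel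
def p15_29_3_81 : pfC (piC [(nat_lit 35755509), (nat_lit 23968959), (nat_lit 17897616), (nat_lit 12073119)] (nat_lit 5058382)) p15_29_3 (nat_lit 4) (nat_lit 81) (nat_lit 82) = true := by decide +kernel
def p15_29_3_82 : pfC (piC [(nat_lit 35755509), (nat_lit 23968959), (nat_lit 17897616), (nat_lit 12073119)] (nat_lit 5058382)) p15_29_3 (nat_lit 4) (nat_lit 82) (nat_lit 83) = true := by decide +kernel
def p15_29_3_83 : pfC (piC [(nat_lit 35755509), (nat_lit 23968959), (nat_lit 17897616), (nat_lit 12073119)] (nat_lit 5058382)) p15_29_3 (nat_lit 4) (nat_lit 83) (nat_lit 84) = true := by decide +kernel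
def p15_29_3_84 : pfC (piC [(nat_lit 35755509), (nat_lit 23968959), (nat_lit 17897616), (nat_lit 12073119)] (nat_lit 5058382)) p15_29_3 (nat_lit 4) (nat_lit 84) (nat_lit 85) = true := by decide +kernel
def p15_29_3_85 : pfC (piC [(nat_lit 35755509), (nat_lit 23968959), (nat_lit 17897616), (nat_lit 12073119)] (nat_lit 5058382)) p15_29_3 (nat_lit 4) (nat_lit 85) (nat_lit 86) = true := by decide +kernel
def p15_29_3_86 : pfC (piC [(nat_lit 35755509), (nat_lit 23968959), (nat_lit 17897616), (nat_lit 12073119)] (nat_lit 5058382)) p15_29_3 (nat_lit 4) (nat_lit 86) (nat_lit 87) = true := by decide +kernel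
def p15_29_3_87 : pfC (piC [(nat_lit 35755509), (nat_lit 23968959), (nat_lit 17897616), (nat_lit 12073119)] (nat_lit 5058382)) p15_29_3 (nat_lit 4) (nat_lit 87) (nat_lit 88) = true := by decide +kernel
def p15_29_3_88 : pfC (piC [(nat_lit 35755509), (nat_lit 23968959), (nat_lit 17897616), (nat_lit 12073119)] (nat_lit 5058382)) p15_29_3 (nat_lit 4) (nat_lit 88) (nat_lit 89) = true := by decide +kernel
def p15_29_3_89 : pfC (piC [(nat_lit 35755509), (nat_lit 23968959), (nat_lit 17897616), (nat_lit 12073119)] (nat_lit 5058382)) p15_29_3 (nat_lit 4) (nat_lit 89) (nat_lit 90) = true := by decide +kernel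
def p15_29_3_90 : pfC (piC [(nat_lit 35755509), (nat_lit 23968959), (nat_lit 17897616), (nat_lit 12073119)] (nat_lit 5058382)) p15_29_3 (nat_lit 4) (nat_lit 90) (nat_lit 91) = true := by decide +kernel
def p15_29_3_91 : pfC (piC [(nat_lit 35755509), (nat_lit 23968959), (nat_lit 17897616), (nat_lit 12073119)] (nat_lit 5058382)) p15_29_3 (nat_lit 4) (nat_lit 91) (nat_lit 92) = true := by decide +kernel
def p15_29_3_92 : pfC (piC [(nat_lit 35755509), (nat_lit 23968959), (nat_lit 17897616), (nat_lit 12073119)] (nat_lit 5058382)) p15_29_3 (nat_lit 4) (nat_lit 92) (nat_lit 93) = true := by decide +kernel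
def p15_29_3_93 : pfC (piC [(nat_lit 35755509), (nat_lit 23968959), (nat_lit 17897616), (nat_lit 12073119)] (nat_lit 5058382)) p15_29_3 (nat_lit 4) (nat_lit 93) (nat_lit 94) = true := by decide +kernel
def p15_29_3_94 : pfC (piC [(nat_lit 35755509), (nat_lit 23968959), (nat_lit 17897616), (nat_lit 12073119)] (nat_lit 5058382)) p15_29_3 (nat_lit 4) (nat_lit 94) (nat_lit 95) = true := by decide +kernel
def p15_29_3_95 : pfC (piC [(nat_lit 35755509), (nat_lit 23968959), (nat_lit 17897616), (nat_lit 12073119)] (nat_lit 5058382)) p15_29_3 (nat_lit 4) (nat_lit 95) (nat_lit 96) = true := by decide +kernel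
def p15_29_3_96 : pfC (piC [(nat_lit 35755509), (nat_lit 23968959), (nat_lit 17897616), (nat_lit 12073119)] (nat_lit 5058382)) p15_29_3 (nat_lit 4) (nat_lit 96) (nat_lit 97) = true := by decide +kernel
def p15_29_3_97 : pfC (piC [(nat_lit 35755509), (nat_lit 23968959), (nat_lit 17897616), (nat_lit 12073119)] (nat_lit 5058382)) p15_29_3 (nat_lit 4) (nat_lit 97) (nat_lit 98) = true := by decide +kernel
def p15_29_3_98 : pfC (piC [(nat_lit 35755509), (nat_lit 23968959), (nat_lit 17897616), (nat_lit 12073119)] (nat_lit 5058382)) p15_29_3 (nat_lit 4) (nat_lit 98) (nat_lit 99) = true := by decide +kernel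
def p15_29_3_99 : pfC (piC [(nat_lit 35755509), (nat_lit 23968959), (nat_lit 17897616), (nat_lit 12073119)] (nat_lit 5058382)) p15_29_3 (nat_lit 4) (nat_lit 99) (nat_lit 100) = true := by decide +kernel
def p15_29_3_100 : pfC (piC [(nat_lit 35755509), (nat_lit 23968959), (nat_lit 17897616), (nat_lit 12073119)] (nat_lit 5058382)) p15_29_3 (nat_lit 4) (nat_lit 100) (nat_lit 101) = true := by decide +kernel
def p15_29_3_101 : pfC (piC [(nat_lit 35755509), (nat_lit 23968959), (nat_lit 17897616), (nat_lit 12073119)] (nat_lit 5058382)) p15_29_3 (nat_lit 4) (nat_lit 101) (nat_lit 102) = true := by decide +kernel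
def p15_29_3_102 : pfC (piC [(nat_lit 35755509), (nat_lit 23968959), (nat_lit 17897616), (nat_lit 12073119)] (nat_lit 5058382)) p15_29_3 (nat_lit 4) (nat_lit 102) (nat_lit 103) = true := by decide +kernel
def p15_29_3_103 : pfC (piC [(nat_lit 35755509), (nat_lit 23968959), (nat_lit 17897616), (nat_lit 12073119)] (nat_lit 5058382)) p15_29_3 (nat_lit 4) (nat_lit 103) (nat_lit 104) = true := by decide +kernel
def p15_29_3_104 : pfC (piC [(nat_lit 35755509), (nat_lit 23968959), (nat_lit 17897616), (nat_lit 12073119)] (nat_lit 5058382)) p15_29_3 (nat_lit 4) (nat_lit 104) (nat_lit 105) = true := by decide +kernel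
def p15_29_3_105 : pfC (piC [(nat_lit 35755509), (nat_lit 23968959), (nat_lit 17897616), (nat_lit 12073119)] (nat_lit 5058382)) p15_29_3 (nat_lit 4) (nat_lit 105) (nat_lit 106) = true := by decide +kernel
def p15_29_3_106 : pfC (piC [(nat_lit 35755509), (nat_lit 23968959), (nat_lit 17897616), (nat_lit 12073119)] (nat_lit 5058382)) p15_29_3 (nat_lit 4) (nat_lit 106) (nat_lit 107) = true := by decide +kernel
def p15_29_3_107 : pfC (piC [(nat_lit 35755509), (nat_lit 23968959), (nat_lit 17897616), (nat_lit 12073119)] (nat_lit 5058382)) p15_29_3 (nat_lit 4) (nat_lit 107) (nat_lit 108) = true := by decide +kernel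
def p15_29_3_108 : pfC (piC [(nat_lit 35755509), (nat_lit 23968959), (nat_lit 17897616), (nat_lit 12073119)] (nat_lit 5058382)) p15_29_3 (nat_lit 4) (nat_lit 108) (nat_lit 109) = true := by decide +kernel
def p15_29_3_109 : pfC (piC [(nat_lit 35755509), (nat_lit 23968959), (nat_lit 17897616), (nat_lit 12073119)] (nat_lit 5058382)) p15_29_3 (nat_lit 4) (nat_lit 109) (nat_lit 110) = true := by decide +kernel
def p15_29_3_110 : pfC (piC [(nat_lit 35755509), (nat_lit 23968959), (nat_lit 17897616), (nat_lit 12073119)] (nat_lit 5058382)) p15_29_3 (nat_lit 4) (nat_lit 110) (nat_lit 111) = true := by decide +kernel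
def p15_29_3_111 : pfC (piC [(nat_lit 35755509), (nat_lit 23968959), (nat_lit 17897616), (nat_lit 12073119)] (nat_lit 5058382)) p15_29_3 (nat_lit 4) (nat_lit 111) (nat_lit 112) = true := by decide +kernel
def p15_29_3_112 : pfC (piC [(nat_lit 35755509), (nat_lit 23968959), (nat_lit 17897616), (nat_lit 12073119)] (nat_lit 5058382)) p15_29_3 (nat_lit 4) (nat_lit 112) (nat_lit 113) = true := by decide +kernel
def p15_29_3_113 : pfC (piC [(nat_lit 35755509), (nat_lit 23968959), (nat_lit 17897616), (nat_lit 12073119)] (nat_lit 5058382)) p15_29_3 (nat_lit 4) (nat_lit 113) (nat_lit 114) = true := by decide +kernel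
def p15_29_3_114 : pfC (piC [(nat_lit 35755509), (nat_lit 23968959), (nat_lit 17897616), (nat_lit 12073119)] (nat_lit 5058382)) p15_29_3 (nat_lit 4) (nat_lit 114) (nat_lit 115) = true := by decide +kernel
def p15_29_3_115 : pfC (piC [(nat_lit 35755509), (nat_lit 23968959), (nat_lit 17897616), (nat_lit 12073119)] (nat_lit 5058382)) p15_29_3 (nat_lit 4) (nat_lit 115) (nat_lit 116) = true := by decide +kernel
def p15_29_3_116 : pfC (piC [(nat_lit 35755509), (nat_lit 23968959), (nat_lit 17897616), (nat_lit 12073119)] (nat_lit 5058382)) p15_29_3 (nat_lit 4) (nat_lit 116) (nat_lit 117) = true := by decide +kernel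
def p15_29_3_117 : pfC (piC [(nat_lit 35755509), (nat_lit 23968959), (nat_lit 17897616), (nat_lit 12073119)] (nat_lit 5058382)) p15_29_3 (nat_lit 4) (nat_lit 117) (nat_lit 118) = true := by decide +kernel
def p15_29_3_118 : pfC (piC [(nat_lit 35755509), (nat_lit 23968959), (nat_lit 17897616), (nat_lit 12073119)] (nat_lit 5058382)) p15_29_3 (nat_lit 4) (nat_lit 118) (nat_lit 119) = true := by decide +kernel
def p15_29_3_119 : pfC (piC [(nat_lit 35755509), (nat_lit 23968959), (nat_lit 17897616), (nat_lit 12073119)] (nat_lit 5058382)) p15_29_3 (nat_lit 4) (nat_lit 119) (nat_lit 120) = true := by decide +kernel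
def p15_29_3_120 : pfC (piC [(nat_lit 35755509), (nat_lit 23968959), (nat_lit 17897616), (nat_lit 12073119)] (nat_lit 5058382)) p15_29_3 (nat_lit 4) (nat_lit 120) (nat_lit 121) = true := by decide +kernel
def p15_29_3_121 : pfC (piC [(nat_lit 35755509), (nat_lit 23968959), (nat_lit 17897616), (nat_lit 12073119)] (nat_lit 5058382)) p15_29_3 (nat_lit 4) (nat_lit 121) (nat_lit 122) = true := by decide +kernel
def p15_29_3_122 : pfC (piC [(nat_lit 35755509), (nat_lit 23968959), (nat_lit 17897616), (nat_lit 12073119)] (nat_lit 5058382)) p15_29_3 (nat_lit 4) (nat_lit 122) (nat_lit 123) = true := by decide +kernel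
def p15_29_3_123 : pfC (piC [(nat_lit 35755509), (nat_lit 23968959), (nat_lit 17897616), (nat_lit 12073119)] (nat_lit 5058382)) p15_29_3 (nat_lit 4) (nat_lit 123) (nat_lit 124) = true := by decide +kernel
def p15_29_3_124 : pfC (piC [(nat_lit 35755509), (nat_lit 23968959), (nat_lit 17897616), (nat_lit 12073119)] (nat_lit 5058382)) p15_29_3 (nat_lit 4) (nat_lit 124) (nat_lit 125) = true := by decide +kernel
def p15_29_3_125 : pfC (piC [(nat_lit 35755509), (nat_lit 23968959), (nat_lit 17897616), (nat_lit 12073119)] (nat_lit 5058382)) p15_29_3 (nat_lit 4) (nat_lit 125) (nat_lit 126) = true := by decide +kernel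
def p15_29_3_126 : pfC (piC [(nat_lit 35755509), (nat_lit 23968959), (nat_lit 17897616), (nat_lit 12073119)] (nat_lit 5058382)) p15_29_3 (nat_lit 4) (nat_lit 126) (nat_lit 127) = true := by decide +kernel
def p15_29_3_127 : pfC (piC [(nat_lit 35755509), (nat_lit 23968959), (nat_lit 17897616), (nat_lit 12073119)] (nat_lit 5058382)) p15_29_3 (nat_lit 4) (nat_lit 127) (nat_lit 128) = true := by decide +kernel
def p15_29_3_128 : pfC (piC [(nat_lit 35755509), (nat_lit 23968959), (nat_lit 17897616), (nat_lit 12073119)] (nat_lit 5058382)) p15_29_3 (nat_lit 4) (nat_lit 128) (nat_lit 129) = true := by decide +kernel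
def p15_29_3_129 : pfC (piC [(nat_lit 35755509), (nat_lit 23968959), (nat_lit 17897616), (nat_lit 12073119)] (nat_lit 5058382)) p15_29_3 (nat_lit 4) (nat_lit 129) (nat_lit 130) = true := by decide +kernel
def p15_29_3_130 : pfC (piC [(nat_lit 35755509), (nat_lit 23968959), (nat_lit 17897616), (nat_lit 12073119)] (nat_lit 5058382)) p15_29_3 (nat_lit 4) (nat_lit 130) (nat_lit 131) = true := by decide +kernel
def p15_29_3_131 : pfC (piC [(nat_lit 35755509), (nat_lit 23968959), (nat_lit 17897616), (nat_lit 12073119)] (nat_lit 5058382)) p15_29_3 (nat_lit 4) (nat_lit 131) (nat_lit 132) = true := by decide +kernel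
def p15_29_3_132 : pfC (piC [(nat_lit 35755509), (nat_lit 23968959), (nat_lit 17897616), (nat_lit 12073119)] (nat_lit 5058382)) p15_29_3 (nat_lit 4) (nat_lit 132) (nat_lit 133) = true := by decide +kernel
def p15_29_3_133 : pfC (piC [(nat_lit 35755509), (nat_lit 23968959), (nat_lit 17897616), (nat_lit 12073119)] (nat_lit 5058382)) p15_29_3 (nat_lit 4) (nat_lit 133) (nat_lit 134) = true := by decide +kernel
def p15_29_3_134 : pfC (piC [(nat_lit 35755509), (nat_lit 23968959), (nat_lit 17897616), (nat_lit 12073119)] (nat_lit 5058382)) p15_29_3 (nat_lit 4) (nat_lit 134) (nat_lit 135) = true := by decide +kernel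
def p15_29_3_135 : pfC (piC [(nat_lit 35755509), (nat_lit 23968959), (nat_lit 17897616), (nat_lit 12073119)] (nat_lit 5058382)) p15_29_3 (nat_lit 4) (nat_lit 135) (nat_lit 136) = true := by decide +kernel
def p15_29_3_136 : pfC (piC [(nat_lit 35755509), (nat_lit 23968959), (nat_lit 17897616), (nat_lit 12073119)] (nat_lit 5058382)) p15_29_3 (nat_lit 4) (nat_lit 136) (nat_lit 137) = true := by decide +kernel
def p15_29_3_137 : pfC (piC [(nat_lit 35755509), (nat_lit 23968959), (nat_lit 17897616), (nat_lit 12073119)] (nat_lit 5058382)) p15_29_3 (nat_lit 4) (nat_lit 137) (nat_lit 138) = true := by decide +kernel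
def p15_29_3_138 : pfC (piC [(nat_lit 35755509), (nat_lit 23968959), (nat_lit 17897616), (nat_lit 12073119)] (nat_lit 5058382)) p15_29_3 (nat_lit 4) (nat_lit 138) (nat_lit 139) = true := by decide +kernel
def p15_29_3_139 : pfC (piC [(nat_lit 35755509), (nat_lit 23968959), (nat_lit 17897616), (nat_lit 12073119)] (nat_lit 5058382)) p15_29_3 (nat_lit 4) (nat_lit 139) (nat_lit 140) = true := by decide +kernel
def p15_29_3_140 : pfC (piC [(nat_lit 35755509), (nat_lit 23968959), (nat_lit 17897616), (nat_lit 12073119)] (nat_lit 5058382)) p15_29_3 (nat_lit 4) (nat_lit 140) (nat_lit 141) = true := by decide +kernel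
def p15_29_3_141 : pfC (piC [(nat_lit 35755509), (nat_lit 23968959), (nat_lit 17897616), (nat_lit 12073119)] (nat_lit 5058382)) p15_29_3 (nat_lit 4) (nat_lit 141) (nat_lit 142) = true := by decide +kernel
def p15_29_3_142 : pfC (piC [(nat_lit 35755509), (nat_lit 23968959), (nat_lit 17897616), (nat_lit 12073119)] (nat_lit 5058382)) p15_29_3 (nat_lit 4) (nat_lit 142) (nat_lit 143) = true := by decide +kernel
def p15_29_3_143 : pfC (piC [(nat_lit 35755509), (nat_lit 23968959), (nat_lit 17897616), (nat_lit 12073119)] (nat_lit 5058382)) p15_29_3 (nat_lit 4) (nat_lit 143) (nat_lit 144) = true := by decide +kernel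
def p15_29_3_144 : pfC (piC [(nat_lit 35755509), (nat_lit 23968959), (nat_lit 17897616), (nat_lit 12073119)] (nat_lit 5058382)) p15_29_3 (nat_lit 4) (nat_lit 144) (nat_lit 145) = true := by decide +kernel
def p15_29_3_145 : pfC (piC [(nat_lit 35755509), (nat_lit 23968959), (nat_lit 17897616), (nat_lit 12073119)] (nat_lit 5058382)) p15_29_3 (nat_lit 4) (nat_lit 145) (nat_lit 146) = true := by decide +kernel
def p15_29_3_146 : pfC (piC [(nat_lit 35755509), (nat_lit 23968959), (nat_lit 17897616), (nat_lit 12073119)] (nat_lit 5058382)) p15_29_3 (nat_lit 4) (nat_lit 146) (nat_lit 147) = true := by decide +kernel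
def p15_29_3_147 : pfC (piC [(nat_lit 35755509), (nat_lit 23968959), (nat_lit 17897616), (nat_lit 12073119)] (nat_lit 5058382)) p15_29_3 (nat_lit 4) (nat_lit 147) (nat_lit 148) = true := by decide +kernel
def p15_29_3_148 : pfC (piC [(nat_lit 35755509), (nat_lit 23968959), (nat_lit 17897616), (nat_lit 12073119)] (nat_lit 5058382)) p15_29_3 (nat_lit 4) (nat_lit 148) (nat_lit 149) = true := by decide +kernel
def p15_29_3_149 : pfC (piC [(nat_lit 35755509), (nat_lit 23968959), (nat_lit 17897616), (nat_lit 12073119)] (nat_lit 5058382)) p15_29_3 (nat_lit 4) (nat_lit 149) (nat_lit 150) = true := by decide +kernel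
def p15_29_3_150 : pfC (piC [(nat_lit 35755509), (nat_lit 23968959), (nat_lit 17897616), (nat_lit 12073119)] (nat_lit 5058382)) p15_29_3 (nat_lit 4) (nat_lit 150) (nat_lit 151) = true := by decide +kernel
def p15_29_3_151 : pfC (piC [(nat_lit 35755509), (nat_lit 23968959), (nat_lit 17897616), (nat_lit 12073119)] (nat_lit 5058382)) p15_29_3 (nat_lit 4) (nat_lit 151) (nat_lit 152) = true := by decide +kernel
def p15_29_3_152 : pfC (piC [(nat_lit 35755509), (nat_lit 23968959), (nat_lit 17897616), (nat_lit 12073119)] (nat_lit 5058382)) p15_29_3 (nat_lit 4) (nat_lit 152) (nat_lit 153) = true := by decide +kernel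
def p15_29_3_153 : pfC (piC [(nat_lit 35755509), (nat_lit 23968959), (nat_lit 17897616), (nat_lit 12073119)] (nat_lit 5058382)) p15_29_3 (nat_lit 4) (nat_lit 153) (nat_lit 154) = true := by decide +kernel
def p15_29_3_154 : pfC (piC [(nat_lit 35755509), (nat_lit 23968959), (nat_lit 17897616), (nat_lit 12073119)] (nat_lit 5058382)) p15_29_3 (nat_lit 4) (nat_lit 154) (nat_lit 155) = true := by decide +kernel
def p15_29_3_155 : pfC (piC [(nat_lit 35755509), (nat_lit 23968959), (nat_lit 17897616), (nat_lit 12073119)] (nat_lit 5058382)) p15_29_3 (nat_lit 4) (nat_lit 155) (nat_lit 156) = true := by decide +kernel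
def p15_29_3_156 : pfC (piC [(nat_lit 35755509), (nat_lit 23968959), (nat_lit 17897616), (nat_lit 12073119)] (nat_lit 5058382)) p15_29_3 (nat_lit 4) (nat_lit 156) (nat_lit 157) = true := by decide +kernel
def p15_29_3_157 : pfC (piC [(nat_lit 35755509), (nat_lit 23968959), (nat_lit 17897616), (nat_lit 12073119)] (nat_lit 5058382)) p15_29_3 (nat_lit 4) (nat_lit 157) (nat_lit 158) = true := by decide +kernel
def p15_29_3_158 : pfC (piC [(nat_lit 35755509), (nat_lit 23968959), (nat_lit 17897616), (nat_lit 12073119)] (nat_lit 5058382)) p15_29_3 (nat_lit 4) (nat_lit 158) (nat_lit 159) = true := by decide +kernel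
def p15_29_3_159 : pfC (piC [(nat_lit 35755509), (nat_lit 23968959), (nat_lit 17897616), (nat_lit 12073119)] (nat_lit 5058382)) p15_29_3 (nat_lit 4) (nat_lit 159) (nat_lit 160) = true := by decide +kernel
def p15_29_3_160 : pfC (piC [(nat_lit 35755509), (nat_lit 23968959), (nat_lit 17897616), (nat_lit 12073119)] (nat_lit 5058382)) p15_29_3 (nat_lit 4) (nat_lit 160) (nat_lit 161) = true := by decide +kernel
def p15_29_3_161 : pfC (piC [(nat_lit 35755509), (nat_lit 23968959), (nat_lit 17897616), (nat_lit 12073119)] (nat_lit 5058382)) p15_29_3 (nat_lit 4) (nat_lit 161) (nat_lit 162) = true := by decide +kernel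
def p15_29_3_162 : pfC (piC [(nat_lit 35755509), (nat_lit 23968959), (nat_lit 17897616), (nat_lit 12073119)] (nat_lit 5058382)) p15_29_3 (nat_lit 4) (nat_lit 162) (nat_lit 163) = true := by decide +kernel
def p15_29_3_163 : pfC (piC [(nat_lit 35755509), (nat_lit 23968959), (nat_lit 17897616), (nat_lit 12073119)] (nat_lit 5058382)) p15_29_3 (nat_lit 4) (nat_lit 163) (nat_lit 164) = true := by decide +kernel
def p15_29_3_164 : pfC (piC [(nat_lit 35755509), (nat_lit 23968959), (nat_lit 17897616), (nat_lit 12073119)] (nat_lit 5058382)) p15_29_3 (nat_lit 4) (nat_lit 164) (nat_lit 165) = true := by decide +kernel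
def p15_29_3_165 : pfC (piC [(nat_lit 35755509), (nat_lit 23968959), (nat_lit 17897616), (nat_lit 12073119)] (nat_lit 5058382)) p15_29_3 (nat_lit 4) (nat_lit 165) (nat_lit 166) = true := by decide +kernel
def p15_29_3_166 : pfC (piC [(nat_lit 35755509), (nat_lit 23968959), (nat_lit 17897616), (nat_lit 12073119)] (nat_lit 5058382)) p15_29_3 (nat_lit 4) (nat_lit 166) (nat_lit 167) = true := by decide +kernel
def p15_29_3_167 : pfC (piC [(nat_lit 35755509), (nat_lit 23968959), (nat_lit 17897616), (nat_lit 12073119)] (nat_lit 5058382)) p15_29_3 (nat_lit 4) (nat_lit 167) (nat_lit 168) = true := by decide +kernel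
def p15_29_3_168 : pfC (piC [(nat_lit 35755509), (nat_lit 23968959), (nat_lit 17897616), (nat_lit 12073119)] (nat_lit 5058382)) p15_29_3 (nat_lit 4) (nat_lit 168) (nat_lit 169) = true := by decide +kernel
def p15_29_3_169 : pfC (piC [(nat_lit 35755509), (nat_lit 23968959), (nat_lit 17897616), (nat_lit 12073119)] (nat_lit 5058382)) p15_29_3 (nat_lit 4) (nat_lit 169) (nat_lit 170) = true := by decide +kernel
def p15_29_3_170 : pfC (piC [(nat_lit 35755509), (nat_lit 23968959), (nat_lit 17897616), (nat_lit 12073119)] (nat_lit 5058382)) p15_29_3 (nat_lit 4) (nat_lit 170) (nat_lit 171) = true := by decide +kernel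
def p15_29_3_171 : pfC (piC [(nat_lit 35755509), (nat_lit 23968959), (nat_lit 17897616), (nat_lit 12073119)] (nat_lit 5058382)) p15_29_3 (nat_lit 4) (nat_lit 171) (nat_lit 172) = true := by decide +kernel
def p15_29_3_172 : pfC (piC [(nat_lit 35755509), (nat_lit 23968959), (nat_lit 17897616), (nat_lit 12073119)] (nat_lit 5058382)) p15_29_3 (nat_lit 4) (nat_lit 172) (nat_lit 173) = true := by decide +kernel
def p15_29_3_173 : pfC (piC [(nat_lit 35755509), (nat_lit 23968959), (nat_lit 17897616), (nat_lit 12073119)] (nat_lit 5058382)) p15_29_3 (nat_lit 4) (nat_lit 173) (nat_lit 174) = true := by decide +kernel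
def p15_29_3_174 : pfC (piC [(nat_lit 35755509), (nat_lit 23968959), (nat_lit 17897616), (nat_lit 12073119)] (nat_lit 5058382)) p15_29_3 (nat_lit 4) (nat_lit 174) (nat_lit 175) = true := by decide +kernel
def p15_29_3_175 : pfC (piC [(nat_lit 35755509), (nat_lit 23968959), (nat_lit 17897616), (nat_lit 12073119)] (nat_lit 5058382)) p15_29_3 (nat_lit 4) (nat_lit 175) (nat_lit 176) = true := by decide +kernel
def p15_29_3_176 : pfC (piC [(nat_lit 35755509), (nat_lit 23968959), (nat_lit 17897616), (nat_lit 12073119)] (nat_lit 5058382)) p15_29_3 (nat_lit 4) (nat_lit 176) (nat_lit 177) = true := by decide +kernel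
def p15_29_3_177 : pfC (piC [(nat_lit 35755509), (nat_lit 23968959), (nat_lit 17897616), (nat_lit 12073119)] (nat_lit 5058382)) p15_29_3 (nat_lit 4) (nat_lit 177) (nat_lit 178) = true := by decide +kernel
def p15_29_3_178 : pfC (piC [(nat_lit 35755509), (nat_lit 23968959), (nat_lit 17897616), (nat_lit 12073119)] (nat_lit 5058382)) p15_29_3 (nat_lit 4) (nat_lit 178) (nat_lit 179) = true := by decide +kernel
def p15_29_3_179 : pfC (piC [(nat_lit 35755509), (nat_lit 23968959), (nat_lit 17897616), (nat_lit 12073119)] (nat_lit 5058382)) p15_29_3 (nat_lit 4) (nat_lit 179) (nat_lit 180) = true := by decide +kernel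
def p15_29_3_180 : pfC (piC [(nat_lit 35755509), (nat_lit 23968959), (nat_lit 17897616), (nat_lit 12073119)] (nat_lit 5058382)) p15_29_3 (nat_lit 4) (nat_lit 180) (nat_lit 181) = true := by decide +kernel
def p15_29_3_181 : pfC (piC [(nat_lit 35755509), (nat_lit 23968959), (nat_lit 17897616), (nat_lit 12073119)] (nat_lit 5058382)) p15_29_3 (nat_lit 4) (nat_lit 181) (nat_lit 182) = true := by decide +kernel
def p15_29_3_182 : pfC (piC [(nat_lit 35755509), (nat_lit 23968959), (nat_lit 17897616), (nat_lit 12073119)] (nat_lit 5058382)) p15_29_3 (nat_lit 4) (nat_lit 182) (nat_lit 183) = true := by decide +kernel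
def p15_29_3_183 : pfC (piC [(nat_lit 35755509), (nat_lit 23968959), (nat_lit 17897616), (nat_lit 12073119)] (nat_lit 5058382)) p15_29_3 (nat_lit 4) (nat_lit 183) (nat_lit 184) = true := by decide +kernel
def p15_29_3_184 : pfC (piC [(nat_lit 35755509), (nat_lit 23968959), (nat_lit 17897616), (nat_lit 12073119)] (nat_lit 5058382)) p15_29_3 (nat_lit 4) (nat_lit 184) (nat_lit 185) = true := by decide +kernel
def p15_29_3_185 : pfC (piC [(nat_lit 35755509), (nat_lit 23968959), (nat_lit 17897616), (nat_lit 12073119)] (nat_lit 5058382)) p15_29_3 (nat_lit 4) (nat_lit 185) (nat_lit 186) = true := by decide +kernel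
def p15_29_3_186 : pfC (piC [(nat_lit 35755509), (nat_lit 23968959), (nat_lit 17897616), (nat_lit 12073119)] (nat_lit 5058382)) p15_29_3 (nat_lit 4) (nat_lit 186) (nat_lit 187) = true := by decide +kernel
def p15_29_3_187 : pfC (piC [(nat_lit 35755509), (nat_lit 23968959), (nat_lit 17897616), (nat_lit 12073119)] (nat_lit 5058382)) p15_29_3 (nat_lit 4) (nat_lit 187) (nat_lit 188) = true := by decide +kernel
def p15_29_3_188 : pfC (piC [(nat_lit 35755509), (nat_lit 23968959), (nat_lit 17897616), (nat_lit 12073119)] (nat_lit 5058382)) p15_29_3 (nat_lit 4) (nat_lit 188) (nat_lit 189) = true := by decide +kernel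
def p15_29_3_189 : pfC (piC [(nat_lit 35755509), (nat_lit 23968959), (nat_lit 17897616), (nat_lit 12073119)] (nat_lit 5058382)) p15_29_3 (nat_lit 4) (nat_lit 189) (nat_lit 190) = true := by decide +kernel
def p15_29_3_190 : pfC (piC [(nat_lit 35755509), (nat_lit 23968959), (nat_lit 17897616), (nat_lit 12073119)] (nat_lit 5058382)) p15_29_3 (nat_lit 4) (nat_lit 190) (nat_lit 191) = true := by decide +kernel
def p15_29_3_191 : pfC (piC [(nat_lit 35755509), (nat_lit 23968959), (nat_lit 17897616), (nat_lit 12073119)] (nat_lit 5058382)) p15_29_3 (nat_lit 4) (nat_lit 191) (nat_lit 192) = true := by decide +kernel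
def p15_29_3_192 : pfC (piC [(nat_lit 35755509), (nat_lit 23968959), (nat_lit 17897616), (nat_lit 12073119)] (nat_lit 5058382)) p15_29_3 (nat_lit 4) (nat_lit 192) (nat_lit 193) = true := by decide +kernel
def p15_29_3_193 : pfC (piC [(nat_lit 35755509), (nat_lit 23968959), (nat_lit 17897616), (nat_lit 12073119)] (nat_lit 5058382)) p15_29_3 (nat_lit 4) (nat_lit 193) (nat_lit 194) = true := by decide +kernel
def p15_29_3_194 : pfC (piC [(nat_lit 35755509), (nat_lit 23968959), (nat_lit 17897616), (nat_lit 12073119)] (nat_lit 5058382)) p15_29_3 (nat_lit 4) (nat_lit 194) (nat_lit 195) = true := by decide +kernel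
def p15_29_3_195 : pfC (piC [(nat_lit 35755509), (nat_lit 23968959), (nat_lit 17897616), (nat_lit 12073119)] (nat_lit 5058382)) p15_29_3 (nat_lit 4) (nat_lit 195) (nat_lit 196) = true := by decide +kernel
def p15_29_3_196 : pfC (piC [(nat_lit 35755509), (nat_lit 23968959), (nat_lit 17897616), (nat_lit 12073119)] (nat_lit 5058382)) p15_29_3 (nat_lit 4) (nat_lit 196) (nat_lit 197) = true := by decide +kernel
def p15_29_3_197 : pfC (piC [(nat_lit 35755509), (nat_lit 23968959), (nat_lit 17897616), (nat_lit 12073119)] (nat_lit 5058382)) p15_29_3 (nat_lit 4) (nat_lit 197) (nat_lit 198) = true := by decide +kernel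
def p15_29_3_198 : pfC (piC [(nat_lit 35755509), (nat_lit 23968959), (nat_lit 17897616), (nat_lit 12073119)] (nat_lit 5058382)) p15_29_3 (nat_lit 4) (nat_lit 198) (nat_lit 199) = true := by decide +kernel
def p15_29_3_199 : pfC (piC [(nat_lit 35755509), (nat_lit 23968959), (nat_lit 17897616), (nat_lit 12073119)] (nat_lit 5058382)) p15_29_3 (nat_lit 4) (nat_lit 199) (nat_lit 200) = true := by decide +kernel
def p15_29_3_200 : pfC (piC [(nat_lit 35755509), (nat_lit 23968959), (nat_lit 17897616), (nat_lit 12073119)] (nat_lit 5058382)) p15_29_3 (nat_lit 4) (nat_lit 200) (nat_lit 201) = true := by decide +kernel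
def p15_29_3_201 : pfC (piC [(nat_lit 35755509), (nat_lit 23968959), (nat_lit 17897616), (nat_lit 12073119)] (nat_lit 5058382)) p15_29_3 (nat_lit 4) (nat_lit 201) (nat_lit 202) = true := by decide +kernel
def p15_29_3_202 : pfC (piC [(nat_lit 35755509), (nat_lit 23968959), (nat_lit 17897616), (nat_lit 12073119)] (nat_lit 5058382)) p15_29_3 (nat_lit 4) (nat_lit 202) (nat_lit 203) = true := by decide +kernel
def p15_29_3_203 : pfC (piC [(nat_lit 35755509), (nat_lit 23968959), (nat_lit 17897616), (nat_lit 12073119)] (nat_lit 5058382)) p15_29_3 (nat_lit 4) (nat_lit 203) (nat_lit 204) = true := by decide +kernel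
def p15_29_3_204 : pfC (piC [(nat_lit 35755509), (nat_lit 23968959), (nat_lit 17897616), (nat_lit 12073119)] (nat_lit 5058382)) p15_29_3 (nat_lit 4) (nat_lit 204) (nat_lit 205) = true := by decide +kernel
def p15_29_3_205 : pfC (piC [(nat_lit 35755509), (nat_lit 23968959), (nat_lit 17897616), (nat_lit 12073119)] (nat_lit 5058382)) p15_29_3 (nat_lit 4) (nat_lit 205) (nat_lit 206) = true := by decide +kernel
def p15_29_3_206 : pfC (piC [(nat_lit 35755509), (nat_lit 23968959), (nat_lit 17897616), (nat_lit 12073119)] (nat_lit 5058382)) p15_29_3 (nat_lit 4) (nat_lit 206) (nat_lit 207) = true := by decide +kernel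
def p15_29_3_207 : pfC (piC [(nat_lit 35755509), (nat_lit 23968959), (nat_lit 17897616), (nat_lit 12073119)] (nat_lit 5058382)) p15_29_3 (nat_lit 4) (nat_lit 207) (nat_lit 208) = true := by decide +kernel
def p15_29_3_208 : pfC (piC [(nat_lit 35755509), (nat_lit 23968959), (nat_lit 17897616), (nat_lit 12073119)] (nat_lit 5058382)) p15_29_3 (nat_lit 4) (nat_lit 208) (nat_lit 209) = true := by decide +kernel
def p15_29_3_209 : pfC (piC [(nat_lit 35755509), (nat_lit 23968959), (nat_lit 17897616), (nat_lit 12073119)] (nat_lit 5058382)) p15_29_3 (nat_lit 4) (nat_lit 209) (nat_lit 210) = true := by decide +kernel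
def p15_29_3_210 : pfC (piC [(nat_lit 35755509), (nat_lit 23968959), (nat_lit 17897616), (nat_lit 12073119)] (nat_lit 5058382)) p15_29_3 (nat_lit 4) (nat_lit 210) (nat_lit 211) = true := by decide +kernel
def p15_29_3_211 : pfC (piC [(nat_lit 35755509), (nat_lit 23968959), (nat_lit 17897616), (nat_lit 12073119)] (nat_lit 5058382)) p15_29_3 (nat_lit 4) (nat_lit 211) (nat_lit 212) = true := by decide +kernel
def p15_29_3_212 : pfC (piC [(nat_lit 35755509), (nat_lit 23968959), (nat_lit 17897616), (nat_lit 12073119)] (nat_lit 5058382)) p15_29_3 (nat_lit 4) (nat_lit 212) (nat_lit 213) = true := by decide +kernel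
def p15_29_3_213 : pfC (piC [(nat_lit 35755509), (nat_lit 23968959), (nat_lit 17897616), (nat_lit 12073119)] (nat_lit 5058382)) p15_29_3 (nat_lit 4) (nat_lit 213) (nat_lit 214) = true := by decide +kernel
def p15_29_3_214 : pfC (piC [(nat_lit 35755509), (nat_lit 23968959), (nat_lit 17897616), (nat_lit 12073119)] (nat_lit 5058382)) p15_29_3 (nat_lit 4) (nat_lit 214) (nat_lit 215) = true := by decide +kernel
def p15_29_3_215 : pfC (piC [(nat_lit 35755509), (nat_lit 23968959), (nat_lit 17897616), (nat_lit 12073119)] (nat_lit 5058382)) p15_29_3 (nat_lit 4) (nat_lit 215) (nat_lit 216) = true := by decide +kernel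
def p15_29_3_216 : pfC (piC [(nat_lit 35755509), (nat_lit 23968959), (nat_lit 17897616), (nat_lit 12073119)] (nat_lit 5058382)) p15_29_3 (nat_lit 4) (nat_lit 216) (nat_lit 217) = true := by decide +kernel
def p15_29_3_217 : pfC (piC [(nat_lit 35755509), (nat_lit 23968959), (nat_lit 17897616), (nat_lit 12073119)] (nat_lit 5058382)) p15_29_3 (nat_lit 4) (nat_lit 217) (nat_lit 218) = true := by decide +kernel
def p15_29_3_218 : pfC (piC [(nat_lit 35755509), (nat_lit 23968959), (nat_lit 17897616), (nat_lit 12073119)] (nat_lit 5058382)) p15_29_3 (nat_lit 4) (nat_lit 218) (nat_lit 219) = true := by decide +kernel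
def p15_29_3_219 : pfC (piC [(nat_lit 35755509), (nat_lit 23968959), (nat_lit 17897616), (nat_lit 12073119)] (nat_lit 5058382)) p15_29_3 (nat_lit 4) (nat_lit 219) (nat_lit 220) = true := by decide +kernel
def p15_29_3_220 : pfC (piC [(nat_lit 35755509), (nat_lit 23968959), (nat_lit 17897616), (nat_lit 12073119)] (nat_lit 5058382)) p15_29_3 (nat_lit 4) (nat_lit 220) (nat_lit 221) = true := by decide +kernel
def p15_29_3_221 : pfC (piC [(nat_lit 35755509), (nat_lit 23968959), (nat_lit 17897616), (nat_lit 12073119)] (nat_lit 5058382)) p15_29_3 (nat_lit 4) (nat_lit 221) (nat_lit 222) = true := by decide +kernel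
def p15_29_3_222 : pfC (piC [(nat_lit 35755509), (nat_lit 23968959), (nat_lit 17897616), (nat_lit 12073119)] (nat_lit 5058382)) p15_29_3 (nat_lit 4) (nat_lit 222) (nat_lit 223) = true := by decide +kernel
def p15_29_3_223 : pfC (piC [(nat_lit 35755509), (nat_lit 23968959), (nat_lit 17897616), (nat_lit 12073119)] (nat_lit 5058382)) p15_29_3 (nat_lit 4) (nat_lit 223) (nat_lit 224) = true := by decide +kernel
def p15_29_3_224 : pfC (piC [(nat_lit 35755509), (nat_lit 23968959), (nat_lit 17897616), (nat_lit 12073119)] (nat_lit 5058382)) p15_29_3 (nat_lit 4) (nat_lit 224) (nat_lit 225) = true := by decide +kernel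
def p15_29_3_225 : pfC (piC [(nat_lit 35755509), (nat_lit 23968959), (nat_lit 17897616), (nat_lit 12073119)] (nat_lit 5058382)) p15_29_3 (nat_lit 4) (nat_lit 225) (nat_lit 226) = true := by decide +kernel
def p15_29_3_226 : pfC (piC [(nat_lit 35755509), (nat_lit 23968959), (nat_lit 17897616), (nat_lit 12073119)] (nat_lit 5058382)) p15_29_3 (nat_lit 4) (nat_lit 226) (nat_lit 227) = true := by decide +kernel
def p15_29_3_227 : pfC (piC [(nat_lit 35755509), (nat_lit 23968959), (nat_lit 17897616), (nat_lit 12073119)] (nat_lit 5058382)) p15_29_3 (nat_lit 4) (nat_lit 227) (nat_lit 228) = true := by decide +kernel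
def p15_29_3_228 : pfC (piC [(nat_lit 35755509), (nat_lit 23968959), (nat_lit 17897616), (nat_lit 12073119)] (nat_lit 5058382)) p15_29_3 (nat_lit 4) (nat_lit 228) (nat_lit 229) = true := by decide +kernel
def p15_29_3_229 : pfC (piC [(nat_lit 35755509), (nat_lit 23968959), (nat_lit 17897616), (nat_lit 12073119)] (nat_lit 5058382)) p15_29_3 (nat_lit 4) (nat_lit 229) (nat_lit 230) = true := by decide +kernel
def p15_29_3_230 : pfC (piC [(nat_lit 35755509), (nat_lit 23968959), (nat_lit 17897616), (nat_lit 12073119)] (nat_lit 5058382)) p15_29_3 (nat_lit 4) (nat_lit 230) (nat_lit 231) = true := by decide +kernel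
def p15_29_3_231 : pfC (piC [(nat_lit 35755509), (nat_lit 23968959), (nat_lit 17897616), (nat_lit 12073119)] (nat_lit 5058382)) p15_29_3 (nat_lit 4) (nat_lit 231) (nat_lit 232) = true := by decide +kernel
def p15_29_3_232 : pfC (piC [(nat_lit 35755509), (nat_lit 23968959), (nat_lit 17897616), (nat_lit 12073119)] (nat_lit 5058382)) p15_29_3 (nat_lit 4) (nat_lit 232) (nat_lit 233) = true := by decide +kernel
def p15_29_3_233 : pfC (piC [(nat_lit 35755509), (nat_lit 23968959), (nat_lit 17897616), (nat_lit 12073119)] (nat_lit 5058382)) p15_29_3 (nat_lit 4) (nat_lit 233) (nat_lit 234) = true := by decide +kernel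
def p15_29_3_234 : pfC (piC [(nat_lit 35755509), (nat_lit 23968959), (nat_lit 17897616), (nat_lit 12073119)] (nat_lit 5058382)) p15_29_3 (nat_lit 4) (nat_lit 234) (nat_lit 235) = true := by decide +kernel
def p15_29_3_235 : pfC (piC [(nat_lit 35755509), (nat_lit 23968959), (nat_lit 17897616), (nat_lit 12073119)] (nat_lit 5058382)) p15_29_3 (nat_lit 4) (nat_lit 235) (nat_lit 236) = true := by decide +kernel
def p15_29_3_236 : pfC (piC [(nat_lit 35755509), (nat_lit 23968959), (nat_lit 17897616), (nat_lit 12073119)] (nat_lit 5058382)) p15_29_3 (nat_lit 4) (nat_lit 236) (nat_lit 237) = true := by decide +kernel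
def p15_29_3_237 : pfC (piC [(nat_lit 35755509), (nat_lit 23968959), (nat_lit 17897616), (nat_lit 12073119)] (nat_lit 5058382)) p15_29_3 (nat_lit 4) (nat_lit 237) (nat_lit 238) = true := by decide +kernel
def p15_29_3_238 : pfC (piC [(nat_lit 35755509), (nat_lit 23968959), (nat_lit 17897616), (nat_lit 12073119)] (nat_lit 5058382)) p15_29_3 (nat_lit 4) (nat_lit 238) (nat_lit 239) = true := by decide +kernel
def p15_29_3_239 : pfC (piC [(nat_lit 35755509), (nat_lit 23968959), (nat_lit 17897616), (nat_lit 12073119)] (nat_lit 5058382)) p15_29_3 (nat_lit 4) (nat_lit 239) (nat_lit 240) = true := by decide +kernel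
theorem p15_29_3_T : PfS (PiF n15_29.reverse (nat_lit 5058382)) p15_29_3 (nat_lit 4) [] 0 :=
  pftab_of (los := [(nat_lit 35755509), (nat_lit 23968959), (nat_lit 17897616), (nat_lit 12073119)]) (by decide +kernel) (hi := (nat_lit 240)) (PfP.trans (PfP.trans (PfP.trans (PfP.trans (PfP.trans (PfP.trans (PfP.trans (PfP.trans (PfP.trans (PfP.trans (PfP.trans (PfP.trans (PfP.trans (PfP.trans (PfP.trans (PfP.trans (PfP.trans (PfP.trans (PfP.trans (PfP.trans (PfP.trans (PfP.trans (PfP.trans (PfP.trans (PfP.trans (PfP.trans (PfP.trans (PfP.trans (PfP.trans (PfP.trans (PfP.trans (PfP.trans (PfP.trans (PfP.trans (PfP.trans (PfP.trans (PfP.trans (PfP.trans (PfP.trans (PfP.trans (PfP.trans (PfP.trans (PfP.trans (PfP.trans (PfP.trans (PfP.trans (PfP.trans (PfP.trans (PfP.trans (PfP.trans (PfP.trans (PfP.trans (PfP.trans (PfP.trans (PfP.trans (PfP.trans (PfP.trans (PfP.trans (PfP.trans (PfP.trans (PfP.trans (PfP.trans (PfP.trans (PfP.trans (PfP.trans (PfP.trans (PfP.trans (PfP.trans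 (PfP.trans (PfP.trans (PfP.trans (PfP.trans (PfP.trans (PfP.trans (PfP.trans (PfP.trans (PfP.trans (PfP.trans (PfP.trans (PfP.trans (PfP.trans (PfP.trans (PfP.trans (PfP.trans (PfP.trans (PfP.trans (PfP.trans (PfP.trans (PfP.trans (PfP.trans (PfP.trans (PfP.trans (PfP.trans (PfP.trans (PfP.trans (PfP.trans (PfP.trans (PfP.trans (PfP.trans (PfP.trans (PfP.trans (PfP.trans (PfP.trans (PfP.trans (PfP.trans (PfP.trans (PfP.trans (PfP.trans (PfP.trans
 (PfP.trans (PfP.trans (PfP.trans (PfP.trans (PfP.trans (PfP.trans (PfP.trans (PfP.trans (PfP.trans (PfP.trans (PfP.trans (PfP.trans (PfP.trans (PfP.trans (PfP.trans (PfP.trans (PfP.trans (PfP.trans (PfP.trans (PfP.trans (PfP.trans (PfP.trans (PfP.trans (PfP.trans (PfP.trans (PfP.trans (PfP.trans (PfP.trans (PfP.trans (PfP.trans (PfP.trans (PfP.trans (PfP.trans (PfP.trans (PfP.trans (PfP.trans (PfP.trans (PfP.trans (PfP.trans (PfP.trans (PfP.trans (PfP.trans (PfP.trans (PfP.trans (PfP.trans (PfP.trans (PfP.trans (PfP.trans (PfP.trans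 (PfP.trans (PfP.trans (PfP.trans (PfP.trans (PfP.trans (PfP.trans (PfP.trans (PfP.trans (PfP.trans (PfP.trans (PfP.trans (PfP.trans (PfP.trans (PfP.trans (PfP.trans (PfP.trans (PfP.trans (PfP.trans (PfP.trans (PfP.trans (PfP.trans (PfP.trans (PfP.trans (PfP.trans (PfP.trans (PfP.trans (PfP.trans (PfP.trans (PfP.trans (PfP.trans (PfP.trans (PfP.trans (PfP.trans (PfP.trans (PfP.trans (PfP.trans (PfP.trans (PfP.trans (PfP.trans (PfP.trans (PfP.trans (PfP.trans (PfP.trans (PfP.trans (PfP.trans (PfP.trans (PfP.trans (PfP.trans (PfP.trans (PfP.trans (PfP.trans (PfP.trans (PfP.trans (PfP.trans (PfP.trans (PfP.trans (PfP.trans (PfP.trans (PfP.trans (PfP.trans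
 (PfP.trans (PfP.trans (PfP.trans (PfP.trans (PfP.trans (PfP.trans (PfP.trans (PfP.trans (PfP.trans (PfP.trans (PfP.trans (PfP.trans (PfP.trans (PfP.trans (PfP.trans (PfP.trans (PfP.trans (PfP.trans (PfP.trans (PfP.trans (PfP.trans (pfC_sound p15_29_3_0) (pfC_sound p15_29_3_1)) (pfC_sound p15_29_3_2)) (pfC_sound p15_29_3_3)) (pfC_sound p15_29_3_4)) (pfC_sound p15_29_3_5)) (pfC_sound p15_29_3_6)) (pfC_sound p15_29_3_7)) (pfC_sound p15_29_3_8)) (pfC_sound p15_29_3_9)) (pfC_sound p15_29_3_10)) (pfC_sound p15_29_3_11)) (pfC_sound p15_29_3_12)) (pfC_sound p15_29_3_13)) (pfC_sound p15_29_3_14)) (pfC_sound p15_29_3_15)) (pfC_sound p15_29_3_16)) (pfC_sound p15_29_3_17)) (pfC_sound p15_29_3_18)) (pfC_sound p15_29_3_19)) (pfC_sound p15_29_3_20)) (pfC_sound p15_29_3_21)) (pfC_sound p15_29_3_22)) (pfC_sound p15_29_3_23)) (pfC_sound p15_29_3_24)) (pfC_sound p15_29_3_25)) (pfC_sound p15_29_3_26)) (pfC_sound p15_29_3_27)) (pfC_sound p15_29_3_28)) (pfC_sound p15_29_3_29)) (pfC_sound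 p15_29_3_30)) (pfC_sound p15_29_3_31)) (pfC_sound p15_29_3_32)) (pfC_sound p15_29_3_33)) (pfC_sound p15_29_3_34)) (pfC_sound p15_29_3_35)) (pfC_sound p15_29_3_36)) (pfC_sound p15_29_3_37)) (pfC_sound p15_29_3_38))
 (pfC_sound p15_29_3_39)) (pfC_sound p15_29_3_40)) (pfC_sound p15_29_3_41)) (pfC_sound p15_29_3_42)) (pfC_sound p15_29_3_43)) (pfC_sound p15_29_3_44)) (pfC_sound p15_29_3_45)) (pfC_sound p15_29_3_46)) (pfC_sound p15_29_3_47)) (pfC_sound p15_29_3_48)) (pfC_sound p15_29_3_49)) (pfC_sound p15_29_3_50)) (pfC_sound p15_29_3_51)) (pfC_sound p15_29_3_52)) (pfC_sound p15_29_3_53)) (pfC_sound p15_29_3_54)) (pfC_sound p15_29_3_55)) (pfC_sound p15_29_3_56)) (pfC_sound p15_29_3_57)) (pfC_sound p15_29_3_58)) (pfC_sound p15_29_3_59)) (pfC_sound p15_29_3_60)) (pfC_sound p15_29_3_61)) (pfC_sound p15_29_3_62)) (pfC_sound p15_29_3_63)) (pfC_sound p15_29_3_64)) (pfC_sound p15_29_3_65)) (pfC_sound p15_29_3_66)) (pfC_sound p15_29_3_67)) (pfC_sound p15_29_3_68)) (pfC_sound p15_29_3_69))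 (pfC_sound p15_29_3_70)) (pfC_sound p15_29_3_71)) (pfC_sound p15_29_3_72)) (pfC_sound p15_29_3_73)) (pfC_sound p15_29_3_74)) (pfC_sound p15_29_3_75)) (pfC_sound p15_29_3_76)) (pfC_sound p15_29_3_77)) (pfC_sound p15_29_3_78)) (pfC_sound p15_29_3_79)) (pfC_sound p15_29_3_80)) (pfC_sound p15_29_3_81)) (pfC_sound p15_29_3_82)) (pfC_sound p15_29_3_83)) (pfC_sound p15_29_3_84)) (pfC_sound p15_29_3_85)) (pfC_sound p15_29_3_86))
 (pfC_sound p15_29_3_87)) (pfC_sound p15_29_3_88)) (pfC_sound p15_29_3_89)) (pfC_sound p15_29_3_90)) (pfC_sound p15_29_3_91)) (pfC_sound p15_29_3_92)) (pfC_sound p15_29_3_93)) (pfC_sound p15_29_3_94)) (pfC_sound p15_29_3_95)) (pfC_sound p15_29_3_96)) (pfC_sound p15_29_3_97)) (pfC_sound p15_29_3_98)) (pfC_sound p15_29_3_99)) (pfC_sound p15_29_3_100)) (pfC_sound p15_29_3_101)) (pfC_sound p15_29_3_102)) (pfC_sound p15_29_3_103)) (pfC_sound p15_29_3_104)) (pfC_sound p15_29_3_105)) (pfC_sound p15_29_3_106)) (pfC_sound p15_29_3_107)) (pfC_sound p15_29_3_108))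 (pfC_sound p15_29_3_109)) (pfC_sound p15_29_3_110)) (pfC_sound p15_29_3_111)) (pfC_sound p15_29_3_112)) (pfC_sound p15_29_3_113)) (pfC_sound p15_29_3_114)) (pfC_sound p15_29_3_115)) (pfC_sound p15_29_3_116)) (pfC_sound p15_29_3_117)) (pfC_sound p15_29_3_118)) (pfC_sound p15_29_3_119)) (pfC_sound p15_29_3_120)) (pfC_sound p15_29_3_121)) (pfC_sound p15_29_3_122)) (pfC_sound p15_29_3_123)) (pfC_sound p15_29_3_124)) (pfC_sound p15_29_3_125)) (pfC_sound p15_29_3_126)) (pfC_sound p15_29_3_127)) (pfC_sound p15_29_3_128)) (pfC_sound p15_29_3_129)) (pfC_sound p15_29_3_130)) (pfC_sound p15_29_3_131)) (pfC_sound p15_29_3_132)) (pfC_sound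
 p15_29_3_133)) (pfC_sound p15_29_3_134)) (pfC_sound p15_29_3_135)) (pfC_sound p15_29_3_136)) (pfC_sound p15_29_3_137)) (pfC_sound p15_29_3_138)) (pfC_sound p15_29_3_139)) (pfC_sound p15_29_3_140)) (pfC_sound p15_29_3_141)) (pfC_sound p15_29_3_142)) (pfC_sound p15_29_3_143)) (pfC_sound p15_29_3_144)) (pfC_sound p15_29_3_145)) (pfC_sound p15_29_3_146)) (pfC_sound p15_29_3_147)) (pfC_sound p15_29_3_148)) (pfC_sound p15_29_3_149)) (pfC_sound p15_29_3_150)) (pfC_sound p15_29_3_151)) (pfC_sound p15_29_3_152)) (pfC_sound p15_29_3_153)) (pfC_sound p15_29_3_154)) (pfC_sound p15_29_3_155)) (pfC_sound p15_29_3_156)) (pfC_sound p15_29_3_157)) (pfC_sound p15_29_3_158)) (pfC_sound p15_29_3_159)) (pfC_sound p15_29_3_160)) (pfC_sound p15_29_3_161)) (pfC_sound p15_29_3_162)) (pfC_sound p15_29_3_163)) (pfC_sound p15_29_3_164)) (pfC_sound p15_29_3_165)) (pfC_sound p15_29_3_166)) (pfC_sound p15_29_3_167)) (pfC_sound p15_29_3_168)) (pfC_sound p15_29_3_169)) (pfC_sound p15_29_3_170)) (pfC_sound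 p15_29_3_171)) (pfC_sound p15_29_3_172)) (pfC_sound p15_29_3_173)) (pfC_sound p15_29_3_174)) (pfC_sound p15_29_3_175)) (pfC_sound p15_29_3_176)) (pfC_sound p15_29_3_177)) (pfC_sound p15_29_3_178)) (pfC_sound
 p15_29_3_179)) (pfC_sound p15_29_3_180)) (pfC_sound p15_29_3_181)) (pfC_sound p15_29_3_182)) (pfC_sound p15_29_3_183)) (pfC_sound p15_29_3_184)) (pfC_sound p15_29_3_185)) (pfC_sound p15_29_3_186)) (pfC_sound p15_29_3_187)) (pfC_sound p15_29_3_188)) (pfC_sound p15_29_3_189)) (pfC_sound p15_29_3_190)) (pfC_sound p15_29_3_191)) (pfC_sound p15_29_3_192)) (pfC_sound p15_29_3_193)) (pfC_sound p15_29_3_194)) (pfC_sound p15_29_3_195)) (pfC_sound p15_29_3_196)) (pfC_sound p15_29_3_197)) (pfC_sound p15_29_3_198)) (pfC_sound p15_29_3_199)) (pfC_sound p15_29_3_200)) (pfC_sound p15_29_3_201)) (pfC_sound p15_29_3_202)) (pfC_sound p15_29_3_203)) (pfC_sound p15_29_3_204)) (pfC_sound p15_29_3_205)) (pfC_sound p15_29_3_206)) (pfC_sound p15_29_3_207)) (pfC_sound p15_29_3_208)) (pfC_sound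 p15_29_3_209)) (pfC_sound p15_29_3_210)) (pfC_sound p15_29_3_211)) (pfC_sound p15_29_3_212)) (pfC_sound p15_29_3_213)) (pfC_sound p15_29_3_214)) (pfC_sound p15_29_3_215)) (pfC_sound p15_29_3_216)) (pfC_sound p15_29_3_217)) (pfC_sound p15_29_3_218)) (pfC_sound p15_29_3_219)) (pfC_sound p15_29_3_220)) (pfC_sound p15_29_3_221)) (pfC_sound p15_29_3_222)) (pfC_sound p15_29_3_223)) (pfC_sound p15_29_3_224)) (pfC_sound
 p15_29_3_225)) (pfC_sound p15_29_3_226)) (pfC_sound p15_29_3_227)) (pfC_sound p15_29_3_228)) (pfC_sound p15_29_3_229)) (pfC_sound p15_29_3_230)) (pfC_sound p15_29_3_231)) (pfC_sound p15_29_3_232)) (pfC_sound p15_29_3_233)) (pfC_sound p15_29_3_234)) (pfC_sound p15_29_3_235)) (pfC_sound p15_29_3_236)) (pfC_sound p15_29_3_237)) (pfC_sound p15_29_3_238)) (pfC_sound p15_29_3_239)) (by decide +kernel)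

def z15_29_3 : zOK yB15_29 (nat_lit 3) (nat_lit 750) (nat_lit 792) (nat_lit 5058382) (nat_lit 4716051) = true := by decide +kernel
def g15_29_3 : gOK yB15_29.x P15_29 (nat_lit 1402) (q15_29 :: r15_29) (nat_lit 3) (nat_lit 750) (nat_lit 4) (nat_lit 792) (nat_lit 12712500) (nat_lit 12712500) (nat_lit 12712500) (nat_lit 12712500) [(nat_lit 800)] = true := by decide +kernel
def v15_29_3 : ivC P15_29 s15_29 w15_29 n15_29 (nat_lit 4) (nat_lit 4590) (nat_lit 3) (nat_lit 750) f168_1_750 f176_1_750 (nat_lit 4) (nat_lit 792) f168_1_792 f176_1_792 (nat_lit 5058382) (nat_lit 4716051) p15_29_3 = true := by decide +kernel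
end CB
end Pool.Agent.Lib.MP_6947cd_al
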