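import Pool.Agent.Lib.MP_6947cd_al.L.BoxDataB
import Pool.Agent.Lib.MP_6947cd_al.L.TeD5
import Pool.Agent.Lib.MP_6947cd_al.L.TeD6

/-!
Problem MP_6947cd_al (Chollet).  CASE B, rows `j`: boxes (generated).
-/

set_option autoImplicit false
set_option linter.defProp false
set_option maxRecDepth 20000

namespace Pool.Agent.Lib.MP_6947cd_al
namespace CB

open Ent Ent.Pk Fr Fr.WT CA

/-! box `yB15_30` -/

def P15_30 : BQ := ⟨(nat_lit 8), (nat_lit 3), (nat_lit 5), (nat_lit 2), (nat_lit 6), (nat_lit 865), (nat_lit 870), (nat_lit 120), [(nat_lit 200), (nat_lit 300), (nat_lit 450), (nat_lit 800)], (nat_lit 130480000), (nat_lit 16000000), (nat_lit 16000000000)⟩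
def q15_30 : PC := ⟨(nat_lit 1000), [(nat_lit 120000), (nat_lit 200000), (nat_lit 300000), (nat_lit 450000), (nat_lit 800000)], (nat_lit 340282367000166625996085689103316680705000000), (nat_lit 15869520000000), (nat_lit 15869520000000), (nat_lit 10000000)⟩
def r15_30 : List PC := [⟨(nat_lit 1274), [(nat_lit 120543), (nat_lit 200811), (nat_lit 300801), (nat_lit 450755), (nat_lit 799774)], (nat_lit 341954174269259915461632800328046223666662092), (nat_lit 16259675244800), (nat_lit 16262022745280), (nat_lit 10045250)⟩, ⟨(nat_lit 1898), [(nat_lit 121973), (nat_lit 202579), (nat_lit 303477), (nat_lit 455177), (nat_lit 807003)], (nat_lit 345795962192726419376115391512799233677680184), (nat_lit 17042650809600), (nat_lit 17050344442560), (nat_lit 10164417)⟩]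
def s15_30 : List PB := [⟨(nat_lit 25480), (nat_lit 1928688000000), [(nat_lit 200811), (nat_lit 300801), (nat_lit 450755), (nat_lit 799774)], (nat_lit 341954174269259915461632800328046223666662092), (nat_lit 1142159582087424), (nat_lit 1142161929587904), (nat_lit 43840)⟩, ⟨(nat_lit 37960), (nat_lit 1951568000000), [(nat_lit 202579), (nat_lit 303477), (nat_lit 455177), (nat_lit 807003)], (nat_lit 345795962192726419376115391512799233677680184), (nat_lit 1142942557652224), (nat_lit 1142950251285184), (nat_lit 143680)⟩]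
def n15_30 : List KN := [⟨(nat_lit 800), (nat_lit 450), (nat_lit 12006452), (nat_lit 6616487)⟩, ⟨(nat_lit 450), (nat_lit 300), (nat_lit 17778567), (nat_lit 12006452)⟩, ⟨(nat_lit 300), (nat_lit 200), (nat_lit 23859669), (nat_lit 17778567)⟩, ⟨(nat_lit 200), (nat_lit 120), (nat_lit 35404596), (nat_lit 23859669)⟩]
def w15_30 : List ℕ := [(nat_lit 43840), (nat_lit 143680)]
def par15_30 : parC yB15_30 P15_30 s15_30 r15_30 q15_30 n15_30 w15_30 = true := by decide +kernel

def p15_30_0 : PF := (PF.cons (PF.cons (PF.cons (PF.cons (PF.leaf (nat_lit 911964) (nat_lit 2995195) (nat_lit 64113617) (nat_lit 2995195) [(nat_lit 0), (nat_lit 0), (nat_lit 0), (nat_lit 0)]) (PF.cons (PF.leaf (nat_lit 1122526) (nat_lit 356020) (nat_lit 63673408) (nat_lit 3079384) [(nat_lit 356020), (nat_lit 0), (nat_lit 0), (nat_lit 0)]) (PF.cons (PF.leaf (nat_lit 1375704) (nat_lit 393773) (nat_lit 63151185) (nat_lit 3170079) [(nat_lit 393773), (nat_lit 0), (nat_lit 0), (nat_lit 0)]) (PF.cons (PF.leaf (nat_lit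 1665216) (nat_lit 428834) (nat_lit 62559405) (nat_lit 3262904) [(nat_lit 428834), (nat_lit 0), (nat_lit 0), (nat_lit 0)]) (PF.cons (PF.leaf (nat_lit 1987031) (nat_lit 461607) (nat_lit 61907415) (nat_lit 3354966) [(nat_lit 461607), (nat_lit 0), (nat_lit 0), (nat_lit 0)]) (PF.cons (PF.leaf (nat_lit 2337698) (nat_lit 492299) (nat_lit 61203018) (nat_lit 3444295) [(nat_lit 492299), (nat_lit 0), (nat_lit 0), (nat_lit 0)]) (PF.cons (PF.leaf (nat_lit 2714094) (nat_lit 521023) (nat_lit 60453127) (nat_lit 3529542) [(nat_lit 521023), (nat_lit 0), (nat_lit 0), (nat_lit 0)]) (PF.cons (PF.leaf (nat_lit 3113285) (nat_lit 547851) (nat_lit 59664058) (nat_lit 3609792) [(nat_lit 547851), (nat_lit 0), (nat_lit 0),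
 (nat_lit 0)]) (PF.cons (PF.leaf (nat_lit 3532524) (nat_lit 572837) (nat_lit 58841672) (nat_lit 3684442) [(nat_lit 572837), (nat_lit 0), (nat_lit 0), (nat_lit 0)]) (PF.cons (PF.leaf (nat_lit 3969185) (nat_lit 596027) (nat_lit 57991435) (nat_lit 3753125) [(nat_lit 596027), (nat_lit 0), (nat_lit 0), (nat_lit 0)]) (PF.cons (PF.leaf (nat_lit 4420777) (nat_lit 617471) (nat_lit 57118444) (nat_lit 3815648) [(nat_lit 617471), (nat_lit 0), (nat_lit 0), (nat_lit 0)]) (PF.cons PF.nil (PF.cons PF.nil (PF.cons PF.nil PF.nil)))))))))))))) (PF.cons (PF.cons (PF.leaf (nat_lit 1549534) (nat_lit 1420414) (nat_lit 62423592) (nat_lit 3264806) [(nat_lit 0), (nat_lit 1420414), (nat_lit 0), (nat_lit 0)]) (PF.cons (PF.leaf (nat_lit 1831011) (nat_lit 443717) (nat_lit 61836485) (nat_lit 3347248) [(nat_lit 443717), (nat_lit 1481361), (nat_lit 0), (nat_lit 0)]) (PF.cons (PF.leaf (nat_lit 2146677) (nat_lit 475433) (nat_lit 61186480) (nat_lit 3430023) [(nat_lit 475433), (nat_lit 1541441), (nat_lit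 0), (nat_lit 0)]) (PF.cons (PF.leaf (nat_lit 2491733) (nat_lit 505016) (nat_lit 60483377) (nat_lit 3510893) [(nat_lit 505016), (nat_lit 1599492), (nat_lit 0), (nat_lit 0)]) (PF.cons (PF.leaf (nat_lit 2862631) (nat_lit
 532625) (nat_lit 59735128) (nat_lit 3588366) [(nat_lit 532625), (nat_lit 1654816), (nat_lit 0), (nat_lit 0)]) (PF.cons (PF.leaf (nat_lit 3256220) (nat_lit 558356) (nat_lit 58948609) (nat_lit 3661437) [(nat_lit 558356), (nat_lit 1706981), (nat_lit 0), (nat_lit 0)]) (PF.cons (PF.leaf (nat_lit 3669618) (nat_lit 582277) (nat_lit 58129967) (nat_lit 3729446) [(nat_lit 582277), (nat_lit 1755731), (nat_lit 0), (nat_lit 0)]) (PF.cons (PF.leaf (nat_lit 4100159) (nat_lit 604444) (nat_lit 57284790) (nat_lit 3791984) [(nat_lit 604444), (nat_lit 1800925), (nat_lit 0), (nat_lit 0)]) (PF.cons (PF.leaf (nat_lit 4545354) (nat_lit 624910) (nat_lit 56418196) (nat_lit 3848823) [(nat_lit 624910), (nat_lit 1842506), (nat_lit 0), (nat_lit 0)]) (PF.cons (PF.leaf (nat_lit 5002866)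 (nat_lit 643730) (nat_lit 55534883) (nat_lit 3899877) [(nat_lit 643730), (nat_lit 1880481), (nat_lit 0), (nat_lit 0)]) (PF.cons PF.nil (PF.cons PF.nil PF.nil)))))))))))) (PF.cons (PF.cons (PF.leaf (nat_lit 2310689) (nat_lit 1584221) (nat_lit 60440359) (nat_lit 3500010) [(nat_lit 0), (nat_lit 1584221), (nat_lit 0), (nat_lit 0)]) (PF.cons (PF.leaf (nat_lit 2647535) (nat_lit 516308) (nat_lit 59745324) (nat_lit 3572594) [(nat_lit
 516308), (nat_lit 1637292), (nat_lit 0), (nat_lit 0)]) (PF.cons (PF.leaf (nat_lit 3011367) (nat_lit 542986) (nat_lit 59003848) (nat_lit 3642556) [(nat_lit 542986), (nat_lit 1688216), (nat_lit 0), (nat_lit 0)]) (PF.cons (PF.leaf (nat_lit 3398218) (nat_lit 567764) (nat_lit 58223922) (nat_lit 3708750) [(nat_lit 567764), (nat_lit 1736423), (nat_lit 0), (nat_lit 0)]) (PF.cons (PF.leaf (nat_lit 3804956) (nat_lit 590736) (nat_lit 57412289) (nat_lit 3770433) [(nat_lit 590736), (nat_lit 1781572), (nat_lit 0), (nat_lit 0)]) (PF.cons (PF.leaf (nat_lit 4228782)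 (nat_lit 611977) (nat_lit 56574853) (nat_lit 3827135) [(nat_lit 611977), (nat_lit 1823468), (nat_lit 0), (nat_lit 0)]) (PF.cons (PF.leaf (nat_lit 4667141) (nat_lit 631550) (nat_lit 55716880) (nat_lit 3878592) [(nat_lit 631550), (nat_lit 1862019), (nat_lit 0), (nat_lit 0)]) (PF.cons (PF.leaf (nat_lit 5117686) (nat_lit 649515) (nat_lit 54843108) (nat_lit 3924683) [(nat_lit 649515), (nat_lit 1897205), (nat_lit 0), (nat_lit 0)]) (PF.cons (PF.leaf (nat_lit 5578249) (nat_lit 665934) (nat_lit 53957819) (nat_lit 3965403) [(nat_lit 665934), (nat_lit 1929056), (nat_lit 0), (nat_lit 0)]) (PF.cons PF.nil PF.nil)))))))))) (PF.cons (PF.cons (PF.leaf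
 (nat_lit 3162007) (nat_lit 1719347) (nat_lit 58258285) (nat_lit 3692485) [(nat_lit 0), (nat_lit 1719347), (nat_lit 0), (nat_lit 0)]) (PF.cons (PF.leaf (nat_lit 3540363) (nat_lit 576070) (nat_lit 57489574) (nat_lit 3752040) [(nat_lit 576070), (nat_lit 1763709), (nat_lit 0), (nat_lit 0)]) (PF.cons (PF.leaf (nat_lit 3939395) (nat_lit 598221) (nat_lit 56688532) (nat_lit 3807664) [(nat_lit 598221), (nat_lit 1805391), (nat_lit 0), (nat_lit 0)]) (PF.cons (PF.leaf (nat_lit 4355755) (nat_lit 618640) (nat_lit 55861685) (nat_lit 3858811) [(nat_lit 618640), (nat_lit 1844131), (nat_lit 0), (nat_lit 0)]) (PF.cons (PF.leaf (nat_lit 4786741) (nat_lit 637407) (nat_lit 55014633) (nat_lit 3905161) [(nat_lit 637407), (nat_lit 1879795), (nat_lit 0), (nat_lit 0)]) (PF.cons (PF.leaf (nat_lit 5229935) (nat_lit 654596) (nat_lit 54152281) (nat_lit 3946558) [(nat_lit 654596), (nat_lit 1912330), (nat_lit 0), (nat_lit 0)]) (PF.cons (PF.leaf (nat_lit 5683141) (nat_lit 670272) (nat_lit 53278975) (nat_lit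 3982964) [(nat_lit 670272), (nat_lit 1941746), (nat_lit 0), (nat_lit 0)]) (PF.cons PF.nil (PF.cons PF.nil PF.nil))))))))) (PF.cons (PF.cons (PF.leaf (nat_lit 4074220) (nat_lit 1827336) (nat_lit 55958077)
 (nat_lit 3841391) [(nat_lit 0), (nat_lit 1827336), (nat_lit 0), (nat_lit 0)]) (PF.cons (PF.leaf (nat_lit 4481914) (nat_lit 624433) (nat_lit 55144991) (nat_lit 3887227) [(nat_lit 624433), (nat_lit 1863039), (nat_lit 0), (nat_lit 0)]) (PF.cons (PF.leaf (nat_lit 4904848) (nat_lit 642492) (nat_lit 54311340) (nat_lit 3928724) [(nat_lit 642492), (nat_lit 1895940), (nat_lit 0), (nat_lit 0)]) (PF.cons (PF.leaf (nat_lit 5340211) (nat_lit 658984) (nat_lit 53462380) (nat_lit 3965674) [(nat_lit 658984), (nat_lit 1925951), (nat_lit 0), (nat_lit 0)]) (PF.cons (PF.leaf (nat_lit 5785725) (nat_lit 673987) (nat_lit 52602638) (nat_lit 3998006) [(nat_lit 673987), (nat_lit 1953054), (nat_lit 0), (nat_lit 0)]) (PF.cons (PF.leaf (nat_lit 6239339) (nat_lit 687575) (nat_lit 51736063) (nat_lit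 4025739) [(nat_lit 687575), (nat_lit 1977283), (nat_lit 0), (nat_lit 0)]) (PF.cons PF.nil PF.nil))))))) (PF.cons (PF.cons (PF.leaf (nat_lit 5022462) (nat_lit 1910558) (nat_lit 53606563) (nat_lit 3949457) [(nat_lit 0), (nat_lit 1910558), (nat_lit 0), (nat_lit 0)]) (PF.cons (PF.leaf (nat_lit 5449162) (nat_lit 662683) (nat_lit 52773152) (nat_lit 3982191) [(nat_lit 662683), (nat_lit 1938157), (nat_lit 0), (nat_lit 0)])
 (PF.cons (PF.leaf (nat_lit 5886547) (nat_lit 677088) (nat_lit 51928660) (nat_lit 4010672) [(nat_lit 677088), (nat_lit 1963060), (nat_lit 0), (nat_lit 0)]) (PF.cons (PF.leaf (nat_lit 6332276) (nat_lit 690098) (nat_lit 51077234) (nat_lit 4034889) [(nat_lit 690098), (nat_lit 1985278), (nat_lit 0), (nat_lit 0)]) (PF.cons PF.nil PF.nil))))) (PF.cons (PF.cons (PF.leaf (nat_lit 5986441) (nat_lit 1971839) (nat_lit 51256681) (nat_lit 4021096) [(nat_lit 0), (nat_lit 1971839), (nat_lit 0), (nat_lit 0)]) (PF.cons (PF.leaf (nat_lit 6423694) (nat_lit 692076) (nat_lit 50421843)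 (nat_lit 4042000) [(nat_lit 692076), (nat_lit 1992148), (nat_lit 0), (nat_lit 0)]) (PF.cons (PF.leaf (nat_lit 6867900) (nat_lit 703274) (nat_lit 49583304) (nat_lit 4059001) [(nat_lit 703274), (nat_lit 2009993), (nat_lit 0), (nat_lit 0)]) (PF.cons PF.nil PF.nil)))) (PF.cons (PF.cons (PF.leaf (nat_lit 6950255) (nat_lit 2014152) (nat_lit 48948400) (nat_lit 4061348) [(nat_lit 0), (nat_lit 2014152), (nat_lit 0), (nat_lit 0)]) (PF.cons (PF.leaf (nat_lit 7391363) (nat_lit 713834) (nat_lit 48126336) (nat_lit 4071970) [(nat_lit 713834), (nat_lit 2028095), (nat_lit 0), (nat_lit 0)]) PF.nil)) (PF.cons PF.nil (PF.cons PF.nil (PF.cons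
 PF.nil PF.nil))))))))))) (PF.cons (PF.cons (PF.cons (PF.leaf (nat_lit 2198795) (nat_lit 3492948) (nat_lit 59889154) (nat_lit 3492948) [(nat_lit 0), (nat_lit 0), (nat_lit 3726709), (nat_lit 0)]) (PF.cons (PF.leaf (nat_lit 2499117) (nat_lit 491625) (nat_lit 59266153) (nat_lit 3558224) [(nat_lit 491625), (nat_lit 0), (nat_lit 3792809), (nat_lit 0)]) (PF.cons (PF.leaf (nat_lit 2831202) (nat_lit 520768) (nat_lit 58585877) (nat_lit 3622989) [(nat_lit 520768), (nat_lit 0), (nat_lit 3858408), (nat_lit 0)]) (PF.cons (PF.leaf (nat_lit 3189817) (nat_lit 547430) (nat_lit 57859282) (nat_lit 3685515) [(nat_lit 547430), (nat_lit 0), (nat_lit 3921723), (nat_lit 0)]) (PF.cons (PF.leaf (nat_lit 3571164) (nat_lit 571919) (nat_lit 57094875) (nat_lit 3744674) [(nat_lit 571919), (nat_lit 0), (nat_lit 3981586), (nat_lit 0)]) (PF.cons (PF.leaf (nat_lit 3972023) (nat_lit 594431) (nat_lit 56299690) (nat_lit 3799734) [(nat_lit 594431), (nat_lit 0), (nat_lit 4037231), (nat_lit 0)]) (PF.cons (PF.leaf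 (nat_lit 4389546) (nat_lit 615106) (nat_lit 55479766) (nat_lit 3850234) [(nat_lit 615106), (nat_lit 0), (nat_lit 4088172), (nat_lit 0)]) (PF.cons (PF.leaf (nat_lit 4821202) (nat_lit 634053) (nat_lit 54640401)
 (nat_lit 3895907) [(nat_lit 634053), (nat_lit 0), (nat_lit 4134128), (nat_lit 0)]) (PF.cons (PF.leaf (nat_lit 5264656) (nat_lit 651364) (nat_lit 53786295) (nat_lit 3936630) [(nat_lit 651364), (nat_lit 0), (nat_lit 4174968), (nat_lit 0)]) (PF.cons (PF.leaf (nat_lit 5717794) (nat_lit 667122) (nat_lit 52921647) (nat_lit 3972388) [(nat_lit 667122), (nat_lit 0), (nat_lit 4210670), (nat_lit 0)]) (PF.cons PF.nil (PF.cons PF.nil PF.nil)))))))))))) (PF.cons (PF.cons (PF.leaf (nat_lit 2987296) (nat_lit 1693927) (nat_lit 57831236) (nat_lit 3673564) [(nat_lit 0), (nat_lit 1693927), (nat_lit 3910084), (nat_lit 0)]) (PF.cons (PF.leaf (nat_lit 3335802) (nat_lit 555276) (nat_lit 57119825) (nat_lit 3729375) [(nat_lit 555276), (nat_lit 1737847), (nat_lit 3966488), (nat_lit 0)]) (PF.cons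 (PF.leaf (nat_lit 3708515) (nat_lit 579103) (nat_lit 56368515) (nat_lit 3782470) [(nat_lit 579103), (nat_lit 1779527), (nat_lit 4020092), (nat_lit 0)]) (PF.cons (PF.leaf (nat_lit 4101379) (nat_lit 600904) (nat_lit 55585527) (nat_lit 3831995) [(nat_lit 600904), (nat_lit 1818561), (nat_lit 4070014), (nat_lit 0)]) (PF.cons (PF.leaf (nat_lit 4511257) (nat_lit 620854) (nat_lit 54777552) (nat_lit 3877418) [(nat_lit
 620854), (nat_lit 1854725), (nat_lit 4115699), (nat_lit 0)]) (PF.cons (PF.leaf (nat_lit 4935444) (nat_lit 639082) (nat_lit 53950242) (nat_lit 3918425) [(nat_lit 639082), (nat_lit 1887910), (nat_lit 4156820), (nat_lit 0)]) (PF.cons (PF.leaf (nat_lit 5371530) (nat_lit 655694) (nat_lit 53108487) (nat_lit 3954859) [(nat_lit 655694), (nat_lit 1918086), (nat_lit 4193211), (nat_lit 0)]) (PF.cons (PF.leaf (nat_lit 5817349) (nat_lit 670781) (nat_lit 52256567) (nat_lit 3986675) [(nat_lit 670781), (nat_lit 1945273), (nat_lit 4224825), (nat_lit 0)]) (PF.cons PF.nil (PF.cons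 PF.nil PF.nil)))))))))) (PF.cons (PF.cons (PF.leaf (nat_lit 3847962) (nat_lit 1802207) (nat_lit 55632501) (nat_lit 3816862) [(nat_lit 0), (nat_lit 1802207), (nat_lit 4055033), (nat_lit 0)]) (PF.cons (PF.leaf (nat_lit 4231191) (nat_lit 606418) (nat_lit 54865701) (nat_lit 3861053) [(nat_lit 606418), (nat_lit 1838096), (nat_lit 4099445), (nat_lit 0)]) (PF.cons (PF.leaf (nat_lit 4632458) (nat_lit 625764) (nat_lit 54072677) (nat_lit 3901624) [(nat_lit 625764), (nat_lit 1871435), (nat_lit 4140110), (nat_lit 0)]) (PF.cons (PF.leaf (nat_lit 5048500) (nat_lit 643371) (nat_lit 53259748) (nat_lit 3938195) [(nat_lit 643371), (nat_lit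
 1902057), (nat_lit 4176638), (nat_lit 0)]) (PF.cons (PF.leaf (nat_lit 5476740) (nat_lit 659366) (nat_lit 52432173) (nat_lit 3970566) [(nat_lit 659366), (nat_lit 1929894), (nat_lit 4208819), (nat_lit 0)]) (PF.cons (PF.leaf (nat_lit 5914906) (nat_lit 673850) (nat_lit 51594436) (nat_lit 3998661) [(nat_lit 673850), (nat_lit 1954942), (nat_lit 4236574), (nat_lit 0)]) (PF.cons (PF.leaf (nat_lit 6360992) (nat_lit 686916) (nat_lit 50750408) (nat_lit 4022495) [(nat_lit 686916), (nat_lit 1977244), (nat_lit 4259918), (nat_lit 0)]) (PF.cons PF.nil (PF.cons PF.nil PF.nil))))))))) (PF.cons (PF.cons (PF.leaf (nat_lit 4754381) (nat_lit 1886635) (nat_lit 53364283) (nat_lit 3923032) [(nat_lit 0), (nat_lit 1886635), (nat_lit 4161590), (nat_lit 0)]) (PF.cons (PF.leaf (nat_lit 5161157) (nat_lit 646912) (nat_lit 52568398) (nat_lit 3955376) [(nat_lit 646912), (nat_lit 1914793), (nat_lit 4193745), (nat_lit 0)]) (PF.cons (PF.leaf (nat_lit 5580914) (nat_lit 662378) (nat_lit 51757030) (nat_lit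 3983895) [(nat_lit 662378), (nat_lit 1940396), (nat_lit 4221939), (nat_lit 0)]) (PF.cons (PF.leaf (nat_lit 6010996) (nat_lit 676335) (nat_lit 50935044) (nat_lit 4008474) [(nat_lit 676335), (nat_lit 1963411), (nat_lit
 4246052), (nat_lit 0)]) (PF.cons (PF.leaf (nat_lit 6449277) (nat_lit 688887) (nat_lit 50106527) (nat_lit 4029098) [(nat_lit 688887), (nat_lit 1983855), (nat_lit 4266071), (nat_lit 0)]) (PF.cons (PF.leaf (nat_lit 6893911) (nat_lit 700122) (nat_lit 49274963) (nat_lit 4045823) [(nat_lit 700122), (nat_lit 2001786), (nat_lit 4282055), (nat_lit 0)]) (PF.cons PF.nil PF.nil))))))) (PF.cons (PF.cons (PF.leaf (nat_lit 5685043) (nat_lit 1949670) (nat_lit 51082445) (nat_lit 3994977) [(nat_lit 0), (nat_lit 1949670), (nat_lit 4232707), (nat_lit 0)]) (PF.cons (PF.leaf (nat_lit 6106254) (nat_lit 678233) (nat_lit 50277977) (nat_lit 4016233) [(nat_lit 678233), (nat_lit 1970746), (nat_lit 4253382), (nat_lit 0)]) (PF.cons (PF.leaf (nat_lit 6536326) (nat_lit 690338) (nat_lit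 49466315) (nat_lit 4033834) [(nat_lit 690338), (nat_lit 1989428), (nat_lit 4270272), (nat_lit 0)]) (PF.cons (PF.leaf (nat_lit 6973095) (nat_lit 701137) (nat_lit 48651167) (nat_lit 4047808) [(nat_lit 701137), (nat_lit 2005753), (nat_lit 4283409), (nat_lit 0)]) (PF.cons PF.nil PF.nil))))) (PF.cons (PF.cons (PF.leaf (nat_lit 6622923) (nat_lit 1994019) (nat_lit 48829288) (nat_lit 4036801) [(nat_lit 0), (nat_lit 1994019), (nat_lit
 4272625), (nat_lit 0)]) (PF.cons (PF.leaf (nat_lit 7051284) (nat_lit 701691) (nat_lit 48031708) (nat_lit 4048192) [(nat_lit 701691), (nat_lit 2008825), (nat_lit 4283092), (nat_lit 0)]) (PF.cons (PF.leaf (nat_lit 7485213) (nat_lit 710907) (nat_lit 47233166) (nat_lit 4056285) [(nat_lit 710907), (nat_lit 2021480), (nat_lit 4290144), (nat_lit 0)]) (PF.cons PF.nil PF.nil)))) (PF.cons (PF.cons (PF.leaf (nat_lit 7554976) (nat_lit 2022399) (nat_lit 46635475) (nat_lit 4052960) [(nat_lit 0), (nat_lit 2022399), (nat_lit 4285979), (nat_lit 0)]) (PF.cons PF.nil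 PF.nil)) (PF.cons PF.nil (PF.cons PF.nil PF.nil))))))))) (PF.cons (PF.cons (PF.cons (PF.leaf (nat_lit 3648737) (nat_lit 3793746) (nat_lit 55250601) (nat_lit 3793746) [(nat_lit 0), (nat_lit 0), (nat_lit 4032232), (nat_lit 0)]) (PF.cons (PF.leaf (nat_lit 4003879) (nat_lit 585446) (nat_lit 54539227) (nat_lit 3835696) [(nat_lit 585446), (nat_lit 0), (nat_lit 4074221), (nat_lit 0)]) (PF.cons (PF.leaf (nat_lit 4380796) (nat_lit 606699) (nat_lit 53793674) (nat_lit 3874928) [(nat_lit 606699), (nat_lit 0), (nat_lit 4113405), (nat_lit 0)]) (PF.cons (PF.leaf (nat_lit 4775407) (nat_lit 625863) (nat_lit 53022103) (nat_lit 3910823) [(nat_lit 625863),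
 (nat_lit 0), (nat_lit 4149148), (nat_lit 0)]) (PF.cons (PF.leaf (nat_lit 5184634) (nat_lit 643171) (nat_lit 52230970) (nat_lit 3943016) [(nat_lit 643171), (nat_lit 0), (nat_lit 4181069), (nat_lit 0)]) (PF.cons (PF.leaf (nat_lit 5605883) (nat_lit 658797) (nat_lit 51425580) (nat_lit 3971310) [(nat_lit 658797), (nat_lit 0), (nat_lit 4208966), (nat_lit 0)]) (PF.cons (PF.leaf (nat_lit 6036895) (nat_lit 672875) (nat_lit 50610409) (nat_lit 3995631) [(nat_lit 672875), (nat_lit 0), (nat_lit 4232759), (nat_lit 0)]) (PF.cons (PF.leaf (nat_lit 6475689) (nat_lit 685517) (nat_lit 49789282) (nat_lit 4015989) [(nat_lit 685517), (nat_lit 0), (nat_lit 4252458), (nat_lit 0)]) (PF.cons PF.nil (PF.cons PF.nil PF.nil)))))))))) (PF.cons (PF.cons (PF.leaf (nat_lit 4508639) (nat_lit 1861488) (nat_lit 53079134) (nat_lit 3897059) [(nat_lit 0), (nat_lit 1861488), (nat_lit 4135565), (nat_lit 0)]) (PF.cons (PF.leaf (nat_lit 4892898) (nat_lit 629112) (nat_lit 52326944) (nat_lit 3928687) [(nat_lit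 629112), (nat_lit 1890249), (nat_lit 4166909), (nat_lit 0)]) (PF.cons (PF.leaf (nat_lit 5292975) (nat_lit 646002) (nat_lit 51553509) (nat_lit 3957011) [(nat_lit 646002), (nat_lit 1916611), (nat_lit 4194837), (nat_lit
 0)]) (PF.cons (PF.leaf (nat_lit 5705718) (nat_lit 661177) (nat_lit 50764829) (nat_lit 3981781) [(nat_lit 661177), (nat_lit 1940483), (nat_lit 4219092), (nat_lit 0)]) (PF.cons (PF.leaf (nat_lit 6128674) (nat_lit 674794) (nat_lit 49965776) (nat_lit 4002886) [(nat_lit 674794), (nat_lit 1961848), (nat_lit 4239561), (nat_lit 0)]) (PF.cons (PF.leaf (nat_lit 6559726) (nat_lit 686981) (nat_lit 49160408) (nat_lit 4020310) [(nat_lit 686981), (nat_lit 1980735), (nat_lit 4256225), (nat_lit 0)]) (PF.cons (PF.leaf (nat_lit 6997060) (nat_lit 697844) (nat_lit 48352154) (nat_lit 4034103) [(nat_lit 697844), (nat_lit 1997209), (nat_lit 4269139), (nat_lit 0)]) (PF.cons PF.nil (PF.cons PF.nil PF.nil))))))))) (PF.cons (PF.cons (PF.leaf (nat_lit 5402405) (nat_lit 1926427) (nat_lit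 50874688) (nat_lit 3968761) [(nat_lit 0), (nat_lit 1926427), (nat_lit 4206253), (nat_lit 0)]) (PF.cons (PF.leaf (nat_lit 5805578) (nat_lit 662905) (nat_lit 50104974) (nat_lit 3990188) [(nat_lit 662905), (nat_lit 1948312), (nat_lit 4227060), (nat_lit 0)]) (PF.cons (PF.leaf (nat_lit 6219880) (nat_lit 676147) (nat_lit 49323711) (nat_lit 4008257) [(nat_lit 676147), (nat_lit 1967881), (nat_lit 4244393), (nat_lit 0)]) (PF.cons
 (PF.leaf (nat_lit 6642788) (nat_lit 687948) (nat_lit 48535361) (nat_lit 4022919) [(nat_lit 687948), (nat_lit 1985138), (nat_lit 4258204), (nat_lit 0)]) (PF.cons (PF.leaf (nat_lit 7072369) (nat_lit 698428) (nat_lit 47743592) (nat_lit 4034201) [(nat_lit 698428), (nat_lit 2000130), (nat_lit 4268523), (nat_lit 0)]) (PF.cons PF.nil (PF.cons PF.nil PF.nil))))))) (PF.cons (PF.cons (PF.leaf (nat_lit 6311446) (nat_lit 1972923) (nat_lit 48683494) (nat_lit 4011839) [(nat_lit 0), (nat_lit 1972923), (nat_lit 4247354), (nat_lit 0)]) (PF.cons (PF.leaf (nat_lit 6725481)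 (nat_lit 688409) (nat_lit 47913627) (nat_lit 4023904) [(nat_lit 688409), (nat_lit 1988632), (nat_lit 4258486), (nat_lit 0)]) (PF.cons (PF.leaf (nat_lit 7146917) (nat_lit 698570) (nat_lit 47139427) (nat_lit 4032831) [(nat_lit 698570), (nat_lit 2002221), (nat_lit 4266374), (nat_lit 0)]) (PF.cons (PF.leaf (nat_lit 7573752) (nat_lit 707511) (nat_lit 46364207) (nat_lit 4038677) [(nat_lit 707511), (nat_lit 2013744), (nat_lit 4271080), (nat_lit 0)]) (PF.cons PF.nil PF.nil))))) (PF.cons (PF.cons (PF.leaf (nat_lit 7221451) (nat_lit 2003526) (nat_lit 46539104) (nat_lit 4030064) [(nat_lit 0), (nat_lit 2003526), (nat_lit 4262768), (nat_lit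
 0)]) (PF.cons (PF.leaf (nat_lit 7640056) (nat_lit 706942) (nat_lit 45781717) (nat_lit 4033917) [(nat_lit 706942), (nat_lit 2013848), (nat_lit 4265420), (nat_lit 0)]) (PF.cons (PF.leaf (nat_lit 8063141) (nat_lit 714501) (nat_lit 45025272) (nat_lit 4034981) [(nat_lit 714501), (nat_lit 2022292), (nat_lit 4265192), (nat_lit 0)]) (PF.cons PF.nil PF.nil)))) (PF.cons (PF.cons (PF.leaf (nat_lit 8121687) (nat_lit 2020696) (nat_lit 44464851) (nat_lit 4027352) [(nat_lit 0), (nat_lit 2020696), (nat_lit 4256563), (nat_lit 0)]) (PF.cons PF.nil PF.nil)) (PF.cons PF.nil (PF.cons PF.nil PF.nil)))))))) (PF.cons (PF.cons (PF.cons (PF.leaf (nat_lit 5141341) (nat_lit 3942510) (nat_lit 50626789) (nat_lit 3942510) [(nat_lit 0), (nat_lit 0), (nat_lit 4179837), (nat_lit 0)]) (PF.cons (PF.leaf (nat_lit 5523811) (nat_lit 645541) (nat_lit 49897772) (nat_lit 3963886) [(nat_lit 645541), (nat_lit 0), (nat_lit 4200537), (nat_lit 0)]) (PF.cons (PF.leaf (nat_lit 5920255) (nat_lit 660290) (nat_lit 49151518)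 (nat_lit 3982270) [(nat_lit 660290), (nat_lit 0), (nat_lit 4218147), (nat_lit 0)]) (PF.cons (PF.leaf (nat_lit 6327615) (nat_lit 673367) (nat_lit 48393652) (nat_lit 3997511) [(nat_lit 673367), (nat_lit 0),
 (nat_lit 4232515), (nat_lit 0)]) (PF.cons (PF.leaf (nat_lit 6743571) (nat_lit 684953) (nat_lit 47628650) (nat_lit 4009566) [(nat_lit 684953), (nat_lit 0), (nat_lit 4243594), (nat_lit 0)]) (PF.cons (PF.leaf (nat_lit 7166167) (nat_lit 695190) (nat_lit 46860164) (nat_lit 4018457) [(nat_lit 695190), (nat_lit 0), (nat_lit 4251412), (nat_lit 0)]) (PF.cons PF.nil (PF.cons PF.nil (PF.cons PF.nil PF.nil))))))))) (PF.cons (PF.cons (PF.leaf (nat_lit 6017851) (nat_lit 1950665) (nat_lit 48506540) (nat_lit 3986470) [(nat_lit 0), (nat_lit 1950665), (nat_lit 4221711), (nat_lit 0)]) (PF.cons (PF.leaf (nat_lit 6415557) (nat_lit 673643) (nat_lit 47768571) (nat_lit 3999093) [(nat_lit 673643), (nat_lit 1967346), (nat_lit 4233386), (nat_lit 0)]) (PF.cons (PF.leaf (nat_lit 6822862) (nat_lit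 684982) (nat_lit 47022062) (nat_lit 4008776) [(nat_lit 684982), (nat_lit 1981936), (nat_lit 4242024), (nat_lit 0)]) (PF.cons (PF.leaf (nat_lit 7237409) (nat_lit 694952) (nat_lit 46271083) (nat_lit 4015519) [(nat_lit 694952), (nat_lit 1994467), (nat_lit 4247628), (nat_lit 0)]) (PF.cons (PF.leaf (nat_lit 7657381) (nat_lit 703684) (nat_lit 45518924) (nat_lit 4019375) [(nat_lit 703684), (nat_lit 2005003), (nat_lit
 4250257), (nat_lit 0)]) (PF.cons PF.nil (PF.cons PF.nil PF.nil))))))) (PF.cons (PF.cons (PF.leaf (nat_lit 6902895) (nat_lit 1983639) (nat_lit 46418080) (nat_lit 4006561) [(nat_lit 0), (nat_lit 1983639), (nat_lit 4238963), (nat_lit 0)]) (PF.cons (PF.leaf (nat_lit 7308678) (nat_lit 694274) (nat_lit 45685841) (nat_lit 4011295) [(nat_lit 694274), (nat_lit 1994945), (nat_lit 4242503), (nat_lit 0)]) (PF.cons (PF.leaf (nat_lit 7720693) (nat_lit 702792) (nat_lit 44951345) (nat_lit 4013337) [(nat_lit 702792), (nat_lit 2004373), (nat_lit 4243265), (nat_lit 0)]) (PF.cons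 (PF.leaf (nat_lit 8137083) (nat_lit 710176) (nat_lit 44217549) (nat_lit 4012762) [(nat_lit 710176), (nat_lit 2011990), (nat_lit 4241330), (nat_lit 0)]) (PF.cons PF.nil PF.nil))))) (PF.cons (PF.cons (PF.leaf (nat_lit 7784379) (nat_lit 2003113) (nat_lit 44387901) (nat_lit 4006196) [(nat_lit 0), (nat_lit 2003113), (nat_lit 4235124), (nat_lit 0)]) (PF.cons (PF.leaf (nat_lit 8192784) (nat_lit 708724) (nat_lit 43671721) (nat_lit 4004102) [(nat_lit 708724), (nat_lit 2009789), (nat_lit 4231631), (nat_lit 0)]) (PF.cons PF.nil (PF.cons PF.nil PF.nil)))) (PF.cons (PF.cons (PF.leaf (nat_lit 8653421) (nat_lit 2011289) (nat_lit 42433655)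
 (nat_lit 3988789) [(nat_lit 0), (nat_lit 2011289), (nat_lit 4213736), (nat_lit 0)]) (PF.cons PF.nil PF.nil)) (PF.cons PF.nil PF.nil)))))) (PF.cons (PF.cons (PF.cons (PF.leaf (nat_lit 6601327) (nat_lit 3982421) (nat_lit 46268218) (nat_lit 3982421) [(nat_lit 0), (nat_lit 0), (nat_lit 4214543), (nat_lit 0)]) (PF.cons (PF.leaf (nat_lit 6992289) (nat_lit 680137) (nat_lit 45565087) (nat_lit 3987975) [(nat_lit 680137), (nat_lit 0), (nat_lit 4218903), (nat_lit 0)]) (PF.cons (PF.leaf (nat_lit 7391624) (nat_lit 689850) (nat_lit 44855697) (nat_lit 3990958) [(nat_lit 689850), (nat_lit 0), (nat_lit 4220613), (nat_lit 0)]) (PF.cons (PF.leaf (nat_lit 7797089) (nat_lit 698267) (nat_lit 44143751) (nat_lit 3991406) [(nat_lit 698267), (nat_lit 0), (nat_lit 4219712), (nat_lit 0)]) (PF.cons (PF.leaf (nat_lit 8206999) (nat_lit 705528) (nat_lit 43432195) (nat_lit 3989391) [(nat_lit 705528), (nat_lit 0), (nat_lit 4216277), (nat_lit 0)]) PF.nil))))) (PF.cons (PF.cons (PF.leaf (nat_lit 7461170)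 (nat_lit 1984490) (nat_lit 44288243) (nat_lit 3984295) [(nat_lit 0), (nat_lit 1984490), (nat_lit 4212945), (nat_lit 0)]) (PF.cons (PF.leaf (nat_lit 7858073) (nat_lit 696693) (nat_lit 43594809) (nat_lit 3983211)
 [(nat_lit 696693), (nat_lit 1992191), (nat_lit 4210476), (nat_lit 0)]) (PF.cons (PF.leaf (nat_lit 8260266) (nat_lit 703826) (nat_lit 42900595) (nat_lit 3979817) [(nat_lit 703826), (nat_lit 1998228), (nat_lit 4205629), (nat_lit 0)]) (PF.cons PF.nil PF.nil)))) (PF.cons (PF.cons (PF.leaf (nat_lit 8314252) (nat_lit 1994979) (nat_lit 42373180) (nat_lit 3969372) [(nat_lit 0), (nat_lit 1994979), (nat_lit 4194075), (nat_lit 0)]) (PF.cons (PF.leaf (nat_lit 8712308) (nat_lit 707764) (nat_lit 41697916) (nat_lit 3962617) [(nat_lit 707764), (nat_lit 1998699), (nat_lit 4185778), (nat_lit 0)]) PF.nil)) (PF.cons PF.nil (PF.cons PF.nil PF.nil))))) (PF.cons (PF.cons (PF.cons (PF.leaf (nat_lit 7988357) (nat_lit 3949120) (nat_lit 42291829) (nat_lit 3949120) [(nat_lit 0), (nat_lit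 0), (nat_lit 4173572), (nat_lit 0)]) (PF.cons (PF.leaf (nat_lit 8376047) (nat_lit 696368) (nat_lit 41637103) (nat_lit 3943444) [(nat_lit 696368), (nat_lit 0), (nat_lit 4166379), (nat_lit 0)]) (PF.cons (PF.leaf (nat_lit 8768290) (nat_lit 702333) (nat_lit 40982629) (nat_lit 3935785) [(nat_lit 702333), (nat_lit 0), (nat_lit 4157146), (nat_lit 0)]) (PF.cons PF.nil PF.nil)))) (PF.cons (PF.cons (PF.leaf (nat_lit 8813636) (nat_lit
 1980880) (nat_lit 40489756) (nat_lit 3922880) [(nat_lit 0), (nat_lit 1980880), (nat_lit 4143059), (nat_lit 0)]) (PF.cons (PF.leaf (nat_lit 9201402) (nat_lit 704646) (nat_lit 39854261) (nat_lit 3912495) [(nat_lit 704646), (nat_lit 1982209), (nat_lit 4131040), (nat_lit 0)]) PF.nil)) (PF.cons PF.nil PF.nil))) (PF.cons (PF.cons (PF.cons (PF.leaf (nat_lit 9285040) (nat_lit 3869297) (nat_lit 38730868) (nat_lit 3869297) [(nat_lit 0), (nat_lit 0), (nat_lit 4084774), (nat_lit 0)]) (PF.cons PF.nil PF.nil)) (PF.cons PF.nil PF.nil)) (PF.cons PF.nil (PF.cons PF.nil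 PF.nil))))))))) (PF.cons (PF.cons (PF.cons (PF.cons (PF.leaf (nat_lit 3193500) (nat_lit 3657648) (nat_lit 54236951) (nat_lit 3657648) [(nat_lit 0), (nat_lit 0), (nat_lit 0), (nat_lit 9214212)]) (PF.cons (PF.leaf (nat_lit 3496353) (nat_lit 525779) (nat_lit 53646985) (nat_lit 3701373) [(nat_lit 525779), (nat_lit 0), (nat_lit 0), (nat_lit 9234674)]) (PF.cons (PF.leaf (nat_lit 3827787) (nat_lit 552115) (nat_lit 53008909) (nat_lit 3743775) [(nat_lit 552115), (nat_lit 0), (nat_lit 0), (nat_lit 9251898)]) (PF.cons (PF.leaf (nat_lit 4182311) (nat_lit 575535) (nat_lit 52333634) (nat_lit 3783729) [(nat_lit 575535), (nat_lit 0), (nat_lit 0),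
 (nat_lit 9264842)]) (PF.cons (PF.leaf (nat_lit 4556014) (nat_lit 596516) (nat_lit 51629373) (nat_lit 3820551) [(nat_lit 596516), (nat_lit 0), (nat_lit 0), (nat_lit 9272821)]) (PF.cons (PF.leaf (nat_lit 4945742) (nat_lit 615379) (nat_lit 50902672) (nat_lit 3853833) [(nat_lit 615379), (nat_lit 0), (nat_lit 0), (nat_lit 9275410)]) (PF.cons (PF.leaf (nat_lit 5348804) (nat_lit 632357) (nat_lit 50158939) (nat_lit 3883352) [(nat_lit 632357), (nat_lit 0), (nat_lit 0), (nat_lit 9272379)]) (PF.cons (PF.leaf (nat_lit 5762873) (nat_lit 647629) (nat_lit 49402747) (nat_lit 3909015) [(nat_lit 647629), (nat_lit 0), (nat_lit 0), (nat_lit 9263646)]) (PF.cons (PF.leaf (nat_lit 6185915) (nat_lit 661341) (nat_lit 48638016) (nat_lit 3930817) [(nat_lit 661341), (nat_lit 0), (nat_lit 0), (nat_lit 9249247)]) (PF.cons (PF.leaf (nat_lit 6616106) (nat_lit 673617) (nat_lit 47868132) (nat_lit 3948818) [(nat_lit 673617), (nat_lit 0), (nat_lit 0), (nat_lit 9229304)]) (PF.cons (PF.leaf (nat_lit 7051825)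 (nat_lit 684564) (nat_lit 47096037) (nat_lit 3963124) [(nat_lit 684564), (nat_lit 0), (nat_lit 0), (nat_lit 9204008)]) (PF.cons PF.nil (PF.cons PF.nil (PF.cons PF.nil PF.nil)))))))))))))) (PF.cons (PF.cons
 (PF.leaf (nat_lit 3964940) (nat_lit 1764584) (nat_lit 52316465) (nat_lit 3771483) [(nat_lit 0), (nat_lit 1764584), (nat_lit 0), (nat_lit 9256279)]) (PF.cons (PF.leaf (nat_lit 4308035) (nat_lit 579609) (nat_lit 51660560) (nat_lit 3806637) [(nat_lit 579609), (nat_lit 1798068), (nat_lit 0), (nat_lit 9263938)]) (PF.cons (PF.leaf (nat_lit 4672090) (nat_lit 600180) (nat_lit 50973168) (nat_lit 3839173) [(nat_lit 600180), (nat_lit 1829160), (nat_lit 0), (nat_lit 9266950)]) (PF.cons (PF.leaf (nat_lit 5053092) (nat_lit 618576) (nat_lit 50261941) (nat_lit 3868588) [(nat_lit 618576), (nat_lit 1857667), (nat_lit 0), (nat_lit 9264886)]) (PF.cons (PF.leaf (nat_lit 5448047) (nat_lit 635067) (nat_lit 49532901) (nat_lit 3894600) [(nat_lit 635067), (nat_lit 1883524), (nat_lit 0), (nat_lit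 9257517)]) (PF.cons (PF.leaf (nat_lit 5854442) (nat_lit 649853) (nat_lit 48790968) (nat_lit 3917072) [(nat_lit 649853), (nat_lit 1906741), (nat_lit 0), (nat_lit 9244764)]) (PF.cons (PF.leaf (nat_lit 6270105) (nat_lit 663091) (nat_lit 48040262) (nat_lit 3935967) [(nat_lit 663091), (nat_lit 1927372), (nat_lit 0), (nat_lit 9226661)]) (PF.cons (PF.leaf (nat_lit 6693180) (nat_lit 674912) (nat_lit 47284279) (nat_lit
 3951321) [(nat_lit 674912), (nat_lit 1945499), (nat_lit 0), (nat_lit 9203327)]) (PF.cons (PF.leaf (nat_lit 7121966) (nat_lit 685426) (nat_lit 46526013) (nat_lit 3963220) [(nat_lit 685426), (nat_lit 1961223), (nat_lit 0), (nat_lit 9174944)]) (PF.cons (PF.leaf (nat_lit 7554997) (nat_lit 694732) (nat_lit 45768039) (nat_lit 3971783) [(nat_lit 694732), (nat_lit 1974654), (nat_lit 0), (nat_lit 9141742)]) (PF.cons PF.nil (PF.cons PF.nil PF.nil)))))))))))) (PF.cons (PF.cons (PF.leaf (nat_lit 4790642) (nat_lit 1842251) (nat_lit 50311887) (nat_lit 3855419) [(nat_lit 0),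 (nat_lit 1842251), (nat_lit 0), (nat_lit 9257003)]) (PF.cons (PF.leaf (nat_lit 5161451) (nat_lit 620983) (nat_lit 49619207) (nat_lit 3881145) [(nat_lit 620983), (nat_lit 1868405), (nat_lit 0), (nat_lit 9250665)]) (PF.cons (PF.leaf (nat_lit 5547457) (nat_lit 637107) (nat_lit 48907084) (nat_lit 3903830) [(nat_lit 637107), (nat_lit 1892183), (nat_lit 0), (nat_lit 9239317)]) (PF.cons (PF.leaf (nat_lit 5945589) (nat_lit 651498) (nat_lit 48181068) (nat_lit 3923287) [(nat_lit 651498), (nat_lit 1913539), (nat_lit 0), (nat_lit 9222880)]) (PF.cons (PF.leaf (nat_lit 6353484) (nat_lit 664336) (nat_lit 47445644) (nat_lit 3939446)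
 [(nat_lit 664336), (nat_lit 1932494), (nat_lit 0), (nat_lit 9201387)]) (PF.cons (PF.leaf (nat_lit 6769142) (nat_lit 675762) (nat_lit 46704521) (nat_lit 3952313) [(nat_lit 675762), (nat_lit 1949106), (nat_lit 0), (nat_lit 9174952)]) (PF.cons (PF.leaf (nat_lit 7190812) (nat_lit 685895) (nat_lit 45960819) (nat_lit 3961952) [(nat_lit 685895), (nat_lit 1963456), (nat_lit 0), (nat_lit 9143753)]) (PF.cons (PF.leaf (nat_lit 7616973) (nat_lit 694838) (nat_lit 45217182) (nat_lit 3968465) [(nat_lit 694838), (nat_lit 1975640), (nat_lit 0), (nat_lit 9108009)]) (PF.cons PF.nil (PF.cons PF.nil PF.nil)))))))))) (PF.cons (PF.cons (PF.leaf (nat_lit 5648212) (nat_lit 1899771) (nat_lit 48280484) (nat_lit 3911152) [(nat_lit 0), (nat_lit 1899771), (nat_lit 0), (nat_lit 9217862)]) (PF.cons (PF.leaf (nat_lit 6037063) (nat_lit 652547) (nat_lit 47572366) (nat_lit 3927759) [(nat_lit 652547), (nat_lit 1919350), (nat_lit 0), (nat_lit 9198088)]) (PF.cons (PF.leaf (nat_lit 6436627) (nat_lit 665067)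 (nat_lit 46853676) (nat_lit 3941340) [(nat_lit 665067), (nat_lit 1936712), (nat_lit 0), (nat_lit 9173523)]) (PF.cons (PF.leaf (nat_lit 6844487) (nat_lit 676165) (nat_lit 46128496) (nat_lit 3951871) [(nat_lit 676165),
 (nat_lit 1951888), (nat_lit 0), (nat_lit 9144280)]) (PF.cons (PF.leaf (nat_lit 7258777) (nat_lit 685973) (nat_lit 45400171) (nat_lit 3959392) [(nat_lit 685973), (nat_lit 1964941), (nat_lit 0), (nat_lit 9110532)]) (PF.cons (PF.leaf (nat_lit 7677893) (nat_lit 694599) (nat_lit 44671480) (nat_lit 3963988) [(nat_lit 694599), (nat_lit 1975950), (nat_lit 0), (nat_lit 9072491)]) (PF.cons (PF.leaf (nat_lit 8100445) (nat_lit 702140) (nat_lit 43944759) (nat_lit 3965770) [(nat_lit 702140), (nat_lit 1985012), (nat_lit 0), (nat_lit 9030400)]) (PF.cons PF.nil (PF.cons PF.nil PF.nil))))))))) (PF.cons (PF.cons (PF.leaf (nat_lit 6520437) (nat_lit 1940075) (nat_lit 46263639) (nat_lit 3941727) [(nat_lit 0), (nat_lit 1940075), (nat_lit 0), (nat_lit 9143143)]) (PF.cons (PF.leaf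 (nat_lit 6919784) (nat_lit 676111) (nat_lit 45555681) (nat_lit 3950066) [(nat_lit 676111), (nat_lit 1953890), (nat_lit 0), (nat_lit 9111390)]) (PF.cons (PF.leaf (nat_lit 7326325) (nat_lit 685654) (nat_lit 44843668) (nat_lit 3955606) [(nat_lit 685654), (nat_lit 1965716), (nat_lit 0), (nat_lit 9075361)]) (PF.cons (PF.leaf (nat_lit 7738146) (nat_lit 694014) (nat_lit 44130614) (nat_lit 3958411) [(nat_lit 694014), (nat_lit 1975619),
 (nat_lit 0), (nat_lit 9035267)]) (PF.cons (PF.leaf (nat_lit 8153764) (nat_lit 701294) (nat_lit 43418995) (nat_lit 3958576) [(nat_lit 701294), (nat_lit 1983679), (nat_lit 0), (nat_lit 8991343)]) (PF.cons PF.nil (PF.cons PF.nil PF.nil))))))) (PF.cons (PF.cons (PF.leaf (nat_lit 7394180) (nat_lit 1965819) (nat_lit 44290764) (nat_lit 3950651) [(nat_lit 0), (nat_lit 1965819), (nat_lit 0), (nat_lit 9038301)]) (PF.cons (PF.leaf (nat_lit 7798174) (nat_lit 693075) (nat_lit 43594159) (nat_lit 3951786) [(nat_lit 693075), (nat_lit 1974678), (nat_lit 0), (nat_lit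 8996400)]) (PF.cons (PF.leaf (nat_lit 8206621) (nat_lit 700141) (nat_lit 42898230) (nat_lit 3950447) [(nat_lit 700141), (nat_lit 1981797), (nat_lit 0), (nat_lit 8950864)]) (PF.cons (PF.leaf (nat_lit 8617978) (nat_lit 706220) (nat_lit 42205187) (nat_lit 3946738) [(nat_lit 706220), (nat_lit 1987257), (nat_lit 0), (nat_lit 8901940)]) (PF.cons PF.nil PF.nil))))) (PF.cons (PF.cons (PF.leaf (nat_lit 8259610) (nat_lit 1979391) (nat_lit 42382026) (nat_lit 3941426) [(nat_lit 0), (nat_lit 1979391), (nat_lit 0), (nat_lit 8909009)]) (PF.cons (PF.leaf (nat_lit 8663787) (nat_lit 704584) (nat_lit 41704564) (nat_lit 3936465) [(nat_lit 704584),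
 (nat_lit 1984056), (nat_lit 0), (nat_lit 8858861)]) (PF.cons PF.nil (PF.cons PF.nil PF.nil)))) (PF.cons (PF.cons (PF.leaf (nat_lit 9109563) (nat_lit 1982910) (nat_lit 40550482) (nat_lit 3917321) [(nat_lit 0), (nat_lit 1982910), (nat_lit 0), (nat_lit 8760631)]) (PF.cons PF.nil PF.nil)) (PF.cons PF.nil PF.nil))))))))) (PF.cons (PF.cons (PF.cons (PF.leaf (nat_lit 4570519) (nat_lit 3827980) (nat_lit 49995192) (nat_lit 3827980) [(nat_lit 0), (nat_lit 0), (nat_lit 4063256), (nat_lit 9222383)]) (PF.cons (PF.leaf (nat_lit 4915963) (nat_lit 599489) (nat_lit 49352330) (nat_lit 3853226) [(nat_lit 599489), (nat_lit 0), (nat_lit 4087773), (nat_lit 9215993)]) (PF.cons (PF.leaf (nat_lit 5280416) (nat_lit 617857) (nat_lit 48682342) (nat_lit 3875963) [(nat_lit 617857), (nat_lit 0), (nat_lit 4109719), (nat_lit 9205073)]) (PF.cons (PF.leaf (nat_lit 5659921) (nat_lit 634067) (nat_lit 47992589) (nat_lit 3895841) [(nat_lit 634067), (nat_lit 0), (nat_lit 4128737), (nat_lit 9189442)]) (PF.cons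 (PF.leaf (nat_lit 6051575) (nat_lit 648423) (nat_lit 47288743) (nat_lit 3912680) [(nat_lit 648423), (nat_lit 0), (nat_lit 4144642), (nat_lit 9169051)]) (PF.cons (PF.leaf (nat_lit 6452994) (nat_lit 661148) (nat_lit
 46575346) (nat_lit 3926413) [(nat_lit 661148), (nat_lit 0), (nat_lit 4157362), (nat_lit 9143947)]) (PF.cons (PF.leaf (nat_lit 6862160) (nat_lit 672413) (nat_lit 45856127) (nat_lit 3937047) [(nat_lit 672413), (nat_lit 0), (nat_lit 4166904), (nat_lit 9114249)]) (PF.cons (PF.leaf (nat_lit 7277344) (nat_lit 682358) (nat_lit 45134198) (nat_lit 3944644) [(nat_lit 682358), (nat_lit 0), (nat_lit 4173328), (nat_lit 9080130)]) (PF.cons (PF.leaf (nat_lit 7697023) (nat_lit 691099) (nat_lit 44412179) (nat_lit 3949301) [(nat_lit 691099), (nat_lit 0), (nat_lit 4176734), (nat_lit 9041804)]) (PF.cons PF.nil PF.nil)))))))))) (PF.cons (PF.cons (PF.leaf (nat_lit 5388480) (nat_lit 1874309) (nat_lit 48049809) (nat_lit 3884079) [(nat_lit 0), (nat_lit 1874309), (nat_lit 4117239),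 (nat_lit 9183373)]) (PF.cons (PF.leaf (nat_lit 5757511) (nat_lit 634855) (nat_lit 47379946) (nat_lit 3901043) [(nat_lit 634855), (nat_lit 1895072), (nat_lit 4133282), (nat_lit 9164611)]) (PF.cons (PF.leaf (nat_lit 6140047) (nat_lit 648995) (nat_lit 46694105) (nat_lit 3915261) [(nat_lit 648995), (nat_lit 1913644), (nat_lit 4146504), (nat_lit 9141306)]) (PF.cons (PF.leaf (nat_lit 6533133) (nat_lit 661460) (nat_lit 45997472)
 (nat_lit 3926624) [(nat_lit 661460), (nat_lit 1930024), (nat_lit 4156795), (nat_lit 9113513)]) (PF.cons (PF.leaf (nat_lit 6934548) (nat_lit 672447) (nat_lit 45294159) (nat_lit 3935113) [(nat_lit 672447), (nat_lit 1944257), (nat_lit 4164135), (nat_lit 9081355)]) (PF.cons (PF.leaf (nat_lit 7342420) (nat_lit 682109) (nat_lit 44587512) (nat_lit 3940766) [(nat_lit 682109), (nat_lit 1956417), (nat_lit 4168565), (nat_lit 9045004)]) (PF.cons (PF.leaf (nat_lit 7755146) (nat_lit 690571) (nat_lit 43880295) (nat_lit 3943664) [(nat_lit 690571), (nat_lit 1966591),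 (nat_lit 4170165), (nat_lit 9004668)]) (PF.cons (PF.leaf (nat_lit 8171340) (nat_lit 697939) (nat_lit 43174817) (nat_lit 3943914) [(nat_lit 697939), (nat_lit 1974878), (nat_lit 4169046), (nat_lit 8960579)]) (PF.cons PF.nil PF.nil))))))))) (PF.cons (PF.cons (PF.leaf (nat_lit 6230180) (nat_lit 1917540) (nat_lit 46099735) (nat_lit 3916304) [(nat_lit 0), (nat_lit 1917540), (nat_lit 4146760), (nat_lit 9110931)]) (PF.cons (PF.leaf (nat_lit 6613956) (nat_lit 661247) (nat_lit 45421579) (nat_lit 3925440) [(nat_lit 661247), (nat_lit 1932502), (nat_lit 4154773), (nat_lit 9080766)]) (PF.cons (PF.leaf (nat_lit 7007081) (nat_lit 672034) (nat_lit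
 44735401) (nat_lit 3931919) [(nat_lit 672034), (nat_lit 1945468), (nat_lit 4160055), (nat_lit 9046430)]) (PF.cons (PF.leaf (nat_lit 7407268) (nat_lit 681475) (nat_lit 44044929) (nat_lit 3935756) [(nat_lit 681475), (nat_lit 1956487), (nat_lit 4162624), (nat_lit 9008100)]) (PF.cons (PF.leaf (nat_lit 7812783) (nat_lit 689709) (nat_lit 43353168) (nat_lit 3937014) [(nat_lit 689709), (nat_lit 1965634), (nat_lit 4162542), (nat_lit 8965983)]) (PF.cons (PF.leaf (nat_lit 8222151) (nat_lit 696850) (nat_lit 42662575) (nat_lit 3935784) [(nat_lit 696850), (nat_lit 1972993), (nat_lit 4159907), (nat_lit 8920307)]) (PF.cons PF.nil PF.nil))))))) (PF.cons (PF.cons (PF.leaf (nat_lit 7080621) (nat_lit 1945987) (nat_lit 44179097) (nat_lit 3927520) [(nat_lit 0), (nat_lit 1945987), (nat_lit 4154719), (nat_lit 9009512)]) (PF.cons (PF.leaf (nat_lit 7472424) (nat_lit 680441) (nat_lit 43505891) (nat_lit 3929665) [(nat_lit 680441), (nat_lit 1955930), (nat_lit 4155556), (nat_lit 8969466)]) (PF.cons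 (PF.leaf (nat_lit 7870371) (nat_lit 688503) (nat_lit 42830364) (nat_lit 3929397) [(nat_lit 688503), (nat_lit 1964109), (nat_lit 4153914), (nat_lit 8925800)]) (PF.cons (PF.leaf (nat_lit 8272665) (nat_lit 695464)
 (nat_lit 42155217) (nat_lit 3926792) [(nat_lit 695464), (nat_lit 1970596), (nat_lit 4149873), (nat_lit 8878744)]) (PF.cons (PF.leaf (nat_lit 8677958) (nat_lit 701429) (nat_lit 41482638) (nat_lit 3921952) [(nat_lit 701429), (nat_lit 1975476), (nat_lit 4143536), (nat_lit 8828537)]) PF.nil))))) (PF.cons (PF.cons (PF.leaf (nat_lit 7928600) (nat_lit 1962042) (nat_lit 42311317) (nat_lit 3920852) [(nat_lit 0), (nat_lit 1962042), (nat_lit 4144321), (nat_lit 8884151)]) (PF.cons (PF.leaf (nat_lit 8323305) (nat_lit 693773) (nat_lit 41652298) (nat_lit 3916977) [(nat_lit 693773), (nat_lit 1967713), (nat_lit 4138983), (nat_lit 8835927)]) (PF.cons (PF.leaf (nat_lit 8721690) (nat_lit 699598) (nat_lit 40995009) (nat_lit 3910997) [(nat_lit 699598), (nat_lit 1971857), (nat_lit 4131483),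 (nat_lit 8784694)]) (PF.cons PF.nil PF.nil)))) (PF.cons (PF.cons (PF.leaf (nat_lit 8765871) (nat_lit 1967821) (nat_lit 40511853) (nat_lit 3899342) [(nat_lit 0), (nat_lit 1967821), (nat_lit 4118702), (nat_lit 8739809)]) (PF.cons (PF.leaf (nat_lit 9159617) (nat_lit 702308) (nat_lit 39873268) (nat_lit 3890423) [(nat_lit 702308), (nat_lit 1969905), (nat_lit 4108196), (nat_lit 8685089)]) PF.nil)) (PF.cons PF.nil (PF.cons
 PF.nil PF.nil)))))))) (PF.cons (PF.cons (PF.cons (PF.leaf (nat_lit 5960262) (nat_lit 3890224) (nat_lit 45900579) (nat_lit 3890224) [(nat_lit 0), (nat_lit 0), (nat_lit 4120474), (nat_lit 9077060)]) (PF.cons (PF.leaf (nat_lit 6325779) (nat_lit 644278) (nat_lit 45257570) (nat_lit 3900062) [(nat_lit 644278), (nat_lit 0), (nat_lit 4129171), (nat_lit 9048558)]) (PF.cons (PF.leaf (nat_lit 6703395) (nat_lit 656696) (nat_lit 44601363) (nat_lit 3907426) [(nat_lit 656696), (nat_lit 0), (nat_lit 4135328), (nat_lit 9015972)]) (PF.cons (PF.leaf (nat_lit 7090256) (nat_lit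 667505) (nat_lit 43936774) (nat_lit 3912269) [(nat_lit 667505), (nat_lit 0), (nat_lit 4138899), (nat_lit 8979453)]) (PF.cons (PF.leaf (nat_lit 7484256) (nat_lit 676911) (nat_lit 43267564) (nat_lit 3914608) [(nat_lit 676911), (nat_lit 0), (nat_lit 4139904), (nat_lit 8939185)]) (PF.cons (PF.leaf (nat_lit 7883656) (nat_lit 685075) (nat_lit 42596745) (nat_lit 3914505) [(nat_lit 685075), (nat_lit 0), (nat_lit 4138405), (nat_lit 8895375)]) (PF.cons (PF.leaf (nat_lit 8286979) (nat_lit 692125) (nat_lit 41926773) (nat_lit 3912049) [(nat_lit 692125), (nat_lit 0), (nat_lit 4134494), (nat_lit 8848246)]) (PF.cons PF.nil (PF.cons PF.nil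
 PF.nil))))))))) (PF.cons (PF.cons (PF.leaf (nat_lit 6783659) (nat_lit 1924810) (nat_lit 44040299) (nat_lit 3903591) [(nat_lit 0), (nat_lit 1924810), (nat_lit 4130541), (nat_lit 8979028)]) (PF.cons (PF.leaf (nat_lit 7161292) (nat_lit 666287) (nat_lit 43394221) (nat_lit 3906713) [(nat_lit 666287), (nat_lit 1935947), (nat_lit 4132360), (nat_lit 8940922)]) (PF.cons (PF.leaf (nat_lit 7547136) (nat_lit 675590) (nat_lit 42742074) (nat_lit 3907503) [(nat_lit 675590), (nat_lit 1945286), (nat_lit 4131785), (nat_lit 8899197)]) (PF.cons (PF.leaf (nat_lit 7939036) (nat_lit 683621) (nat_lit 42087256) (nat_lit 3906005) [(nat_lit 683621), (nat_lit 1952891), (nat_lit 4128862), (nat_lit 8854072)]) (PF.cons (PF.leaf (nat_lit 8335374) (nat_lit 690524) (nat_lit 41432468) (nat_lit 3902293) [(nat_lit 690524), (nat_lit 1958842), (nat_lit 4123669), (nat_lit 8805772)]) (PF.cons (PF.leaf (nat_lit 8734786) (nat_lit 696415) (nat_lit 40779894) (nat_lit 3896464) [(nat_lit 696415), (nat_lit 1963226),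 (nat_lit 4116308), (nat_lit 8754532)]) (PF.cons PF.nil PF.nil))))))) (PF.cons (PF.cons (PF.leaf (nat_lit 7611322) (nat_lit 1943571) (nat_lit 42219287) (nat_lit 3899433) [(nat_lit 0), (nat_lit 1943571), (nat_lit
 4122658), (nat_lit 8857632)]) (PF.cons (PF.leaf (nat_lit 7995035) (nat_lit 681815) (nat_lit 41581413) (nat_lit 3896645) [(nat_lit 681815), (nat_lit 1950333), (nat_lit 4118424), (nat_lit 8811423)]) (PF.cons (PF.leaf (nat_lit 8384035) (nat_lit 688623) (nat_lit 40942471) (nat_lit 3891775) [(nat_lit 688623), (nat_lit 1955528), (nat_lit 4112053), (nat_lit 8762155)]) (PF.cons (PF.leaf (nat_lit 8776639) (nat_lit 694404) (nat_lit 40304885) (nat_lit 3884908) [(nat_lit 694404), (nat_lit 1959233), (nat_lit 4103635), (nat_lit 8710066)]) (PF.cons PF.nil PF.nil))))) (PF.cons (PF.cons (PF.leaf (nat_lit 8433628) (nat_lit 1951777) (nat_lit 40456210) (nat_lit 3880522) [(nat_lit 0), (nat_lit 1951777), (nat_lit 4099672), (nat_lit 8717404)]) (PF.cons (PF.leaf (nat_lit 8818908) (nat_lit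 692126) (nat_lit 39834200) (nat_lit 3872705) [(nat_lit 692126), (nat_lit 1954849), (nat_lit 4090290), (nat_lit 8664651)]) (PF.cons (PF.leaf (nat_lit 9207245) (nat_lit 696909) (nat_lit 39214610) (nat_lit 3863093) [(nat_lit 696909), (nat_lit 1956581), (nat_lit 4079068), (nat_lit 8609407)]) (PF.cons PF.nil PF.nil)))) (PF.cons (PF.cons (PF.leaf (nat_lit 9243615) (nat_lit 1951296) (nat_lit 38762902) (nat_lit 3849493)
 [(nat_lit 0), (nat_lit 1951296), (nat_lit 4064294), (nat_lit 8562641)]) (PF.cons (PF.leaf (nat_lit 9627094) (nat_lit 698208) (nat_lit 38161795) (nat_lit 3837504) [(nat_lit 698208), (nat_lit 1951296), (nat_lit 4050650), (nat_lit 8504815)]) PF.nil)) (PF.cons PF.nil PF.nil)))))) (PF.cons (PF.cons (PF.cons (PF.leaf (nat_lit 7309753) (nat_lit 3877096) (nat_lit 42102253) (nat_lit 3877096) [(nat_lit 0), (nat_lit 0), (nat_lit 4100085), (nat_lit 8829207)]) (PF.cons (PF.leaf (nat_lit 7680517) (nat_lit 668375) (nat_lit 41489023) (nat_lit 3875399) [(nat_lit 668375), (nat_lit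 0), (nat_lit 4096954), (nat_lit 8785151)]) (PF.cons (PF.leaf (nat_lit 8058576) (nat_lit 676407) (nat_lit 40871209) (nat_lit 3871654) [(nat_lit 676407), (nat_lit 0), (nat_lit 4091724), (nat_lit 8737961)]) (PF.cons (PF.leaf (nat_lit 8441862) (nat_lit 683238) (nat_lit 40251912) (nat_lit 3865924) [(nat_lit 683238), (nat_lit 0), (nat_lit 4084460), (nat_lit 8687879)]) (PF.cons (PF.leaf (nat_lit 8828861) (nat_lit 689014) (nat_lit 39633565) (nat_lit 3858292) [(nat_lit 689014), (nat_lit 0), (nat_lit 4075251), (nat_lit 8635142)]) (PF.cons PF.nil (PF.cons PF.nil PF.nil))))))) (PF.cons (PF.cons (PF.leaf (nat_lit 8114296) (nat_lit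
 1934625) (nat_lit 40380975) (nat_lit 3860795) [(nat_lit 0), (nat_lit 1934625), (nat_lit 4079729), (nat_lit 8693226)]) (PF.cons (PF.leaf (nat_lit 8489632) (nat_lit 680827) (nat_lit 39778063) (nat_lit 3854102) [(nat_lit 680827), (nat_lit 1938777), (nat_lit 4071493), (nat_lit 8642562)]) (PF.cons (PF.leaf (nat_lit 8869554) (nat_lit 686572) (nat_lit 39174971) (nat_lit 3845609) [(nat_lit 686572), (nat_lit 1941535), (nat_lit 4061413), (nat_lit 8589312)]) (PF.cons (PF.leaf (nat_lit 9252487) (nat_lit 691358) (nat_lit 38573887) (nat_lit 3835405) [(nat_lit 691358), (nat_lit 1942978), (nat_lit 4049582), (nat_lit 8533716)]) (PF.cons PF.nil PF.nil))))) (PF.cons (PF.cons (PF.leaf (nat_lit 8911429) (nat_lit 1936487) (nat_lit 38719984) (nat_lit 3832341) [(nat_lit 0), (nat_lit 1936487), (nat_lit 4046967), (nat_lit 8542609)]) (PF.cons (PF.leaf (nat_lit 9287314) (nat_lit 688627) (nat_lit 38133780) (nat_lit 3821445) [(nat_lit 688627), (nat_lit 1937447), (nat_lit 4034441), (nat_lit 8486740)])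 (PF.cons (PF.leaf (nat_lit 9665760) (nat_lit 692534) (nat_lit 37550423) (nat_lit 3809015) [(nat_lit 692534), (nat_lit 1937226), (nat_lit 4020346), (nat_lit 8428814)]) (PF.cons PF.nil PF.nil)))) (PF.cons (PF.cons
 (PF.leaf (nat_lit 9695210) (nat_lit 1930997) (nat_lit 37128333) (nat_lit 3794011) [(nat_lit 0), (nat_lit 1930997), (nat_lit 4004142), (nat_lit 8381045)]) (PF.cons PF.nil PF.nil)) (PF.cons PF.nil PF.nil))))) (PF.cons (PF.cons (PF.cons (PF.leaf (nat_lit 8591402) (nat_lit 3814247) (nat_lit 38659069) (nat_lit 3814247) [(nat_lit 0), (nat_lit 0), (nat_lit 4028688), (nat_lit 8520741)]) (PF.cons (PF.leaf (nat_lit 8958240) (nat_lit 677962) (nat_lit 38090118) (nat_lit 3804482) [(nat_lit 677962), (nat_lit 0), (nat_lit 4017317), (nat_lit 8466977)]) (PF.cons (PF.leaf (nat_lit 9329117) (nat_lit 682805) (nat_lit 37521608) (nat_lit 3793158) [(nat_lit 682805), (nat_lit 0), (nat_lit 4004352), (nat_lit 8411027)]) (PF.cons (PF.leaf (nat_lit 9702508) (nat_lit 686752) (nat_lit 36955513)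 (nat_lit 3780365) [(nat_lit 686752), (nat_lit 0), (nat_lit 3989887), (nat_lit 8353126)]) (PF.cons PF.nil PF.nil))))) (PF.cons (PF.cons (PF.leaf (nat_lit 9364104) (nat_lit 1917345) (nat_lit 37096135) (nat_lit 3778423) [(nat_lit 0), (nat_lit 1917345), (nat_lit 3988413), (nat_lit 8363253)]) (PF.cons (PF.leaf (nat_lit 9730735) (nat_lit 683674) (nat_lit 36544149) (nat_lit 3765145) [(nat_lit 683674), (nat_lit 1916592),
 (nat_lit 3973466), (nat_lit 8305383)]) (PF.cons PF.nil (PF.cons PF.nil PF.nil)))) (PF.cons (PF.cons (PF.leaf (nat_lit 10122864) (nat_lit 1907865) (nat_lit 35600852) (nat_lit 3734569) [(nat_lit 0), (nat_lit 1907865), (nat_lit 3939988), (nat_lit 8197704)]) (PF.cons PF.nil PF.nil)) PF.nil))) (PF.cons (PF.cons (PF.cons (PF.leaf (nat_lit 9793664) (nat_lit 3720433) (nat_lit 35577667) (nat_lit 3720433) [(nat_lit 0), (nat_lit 0), (nat_lit 3925743), (nat_lit 8181996)]) (PF.cons (PF.leaf (nat_lit 10151242) (nat_lit 677590) (nat_lit 35058098) (nat_lit 3705334) [(nat_lit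 677590), (nat_lit 0), (nat_lit 3908959), (nat_lit 8122994)]) PF.nil)) (PF.cons PF.nil PF.nil)) (PF.cons PF.nil (PF.cons PF.nil PF.nil)))))))) (PF.cons (PF.cons (PF.cons (PF.cons (PF.leaf (nat_lit 5377910) (nat_lit 3788770) (nat_lit 45427479) (nat_lit 3788770) [(nat_lit 0), (nat_lit 0), (nat_lit 0), (nat_lit 8946281)]) (PF.cons (PF.leaf (nat_lit 5711523) (nat_lit 601453) (nat_lit 44856012) (nat_lit 3803126) [(nat_lit 601453), (nat_lit 0), (nat_lit 0), (nat_lit 8924110)]) (PF.cons (PF.leaf (nat_lit 6062074) (nat_lit 617599) (nat_lit 44262428) (nat_lit 3815198) [(nat_lit 617599), (nat_lit 0), (nat_lit 0), (nat_lit 8897993)])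
 (PF.cons (PF.leaf (nat_lit 6425760) (nat_lit 631590) (nat_lit 43653217) (nat_lit 3824807) [(nat_lit 631590), (nat_lit 0), (nat_lit 0), (nat_lit 8868008)]) (PF.cons (PF.leaf (nat_lit 6799859) (nat_lit 643771) (nat_lit 43033294) (nat_lit 3831885) [(nat_lit 643771), (nat_lit 0), (nat_lit 0), (nat_lit 8834272)]) (PF.cons (PF.leaf (nat_lit 7182166) (nat_lit 654393) (nat_lit 42406527) (nat_lit 3836440) [(nat_lit 654393), (nat_lit 0), (nat_lit 0), (nat_lit 8796939)]) (PF.cons (PF.leaf (nat_lit 7570869) (nat_lit 663646) (nat_lit 41776036) (nat_lit 3838524) [(nat_lit 663646), (nat_lit 0), (nat_lit 0), (nat_lit 8756187)]) (PF.cons (PF.leaf (nat_lit 7964414) (nat_lit 671683) (nat_lit 41144380) (nat_lit 3838223) [(nat_lit 671683), (nat_lit 0), (nat_lit 0), (nat_lit 8712212)]) (PF.cons (PF.leaf (nat_lit 8361496) (nat_lit 678629) (nat_lit 40513682) (nat_lit 3835641) [(nat_lit 678629), (nat_lit 0), (nat_lit 0), (nat_lit 8665226)]) (PF.cons PF.nil PF.nil)))))))))) (PF.cons (PF.cons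 (PF.leaf (nat_lit 6154248) (nat_lit 1856790) (nat_lit 43708676) (nat_lit 3814751) [(nat_lit 0), (nat_lit 1856790), (nat_lit 0), (nat_lit 8864297)]) (PF.cons (PF.leaf (nat_lit 6507646) (nat_lit 630781) (nat_lit
 43118223) (nat_lit 3822354) [(nat_lit 630781), (nat_lit 1872044), (nat_lit 0), (nat_lit 8832703)]) (PF.cons (PF.leaf (nat_lit 6872902) (nat_lit 642891) (nat_lit 42515177) (nat_lit 3827641) [(nat_lit 642891), (nat_lit 1885305), (nat_lit 0), (nat_lit 8797452)]) (PF.cons (PF.leaf (nat_lit 7247230) (nat_lit 653389) (nat_lit 41903991) (nat_lit 3830589) [(nat_lit 653389), (nat_lit 1896625), (nat_lit 0), (nat_lit 8758718)]) (PF.cons (PF.leaf (nat_lit 7628595) (nat_lit 662491) (nat_lit 41288145) (nat_lit 3831230) [(nat_lit 662491), (nat_lit 1906087), (nat_lit 0), (nat_lit 8716692)]) (PF.cons (PF.leaf (nat_lit 8015316) (nat_lit 670365) (nat_lit 40670420) (nat_lit 3829631) [(nat_lit 670365), (nat_lit 1913783), (nat_lit 0), (nat_lit 8671575)]) (PF.cons (PF.leaf (nat_lit 8405974)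 (nat_lit 677145) (nat_lit 40053085) (nat_lit 3825884) [(nat_lit 677145), (nat_lit 1919815), (nat_lit 0), (nat_lit 8623578)]) (PF.cons (PF.leaf (nat_lit 8799349) (nat_lit 682941) (nat_lit 39438007) (nat_lit 3820096) [(nat_lit 682941), (nat_lit 1924284), (nat_lit 0), (nat_lit 8572916)]) (PF.cons PF.nil PF.nil))))))))) (PF.cons (PF.cons (PF.leaf (nat_lit 6948049) (nat_lit 1885472) (nat_lit 41997851) (nat_lit 3822318)
 [(nat_lit 0), (nat_lit 1885472), (nat_lit 0), (nat_lit 8758849)]) (PF.cons (PF.leaf (nat_lit 7313460) (nat_lit 651947) (nat_lit 41403608) (nat_lit 3823772) [(nat_lit 651947), (nat_lit 1895771), (nat_lit 0), (nat_lit 8718970)]) (PF.cons (PF.leaf (nat_lit 7686985) (nat_lit 660971) (nat_lit 40803360) (nat_lit 3823074) [(nat_lit 660971), (nat_lit 1904328), (nat_lit 0), (nat_lit 8675889)]) (PF.cons (PF.leaf (nat_lit 8066519) (nat_lit 668738) (nat_lit 40200244) (nat_lit 3820274) [(nat_lit 668738), (nat_lit 1911218), (nat_lit 0), (nat_lit 8629820)]) (PF.cons (PF.leaf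 (nat_lit 8450502) (nat_lit 675396) (nat_lit 39596754) (nat_lit 3815451) [(nat_lit 675396), (nat_lit 1916530), (nat_lit 0), (nat_lit 8580981)]) (PF.cons (PF.leaf (nat_lit 8837619) (nat_lit 681064) (nat_lit 38994904) (nat_lit 3808699) [(nat_lit 681064), (nat_lit 1920353), (nat_lit 0), (nat_lit 8529588)]) (PF.cons PF.nil PF.nil))))))) (PF.cons (PF.cons (PF.leaf (nat_lit 7746845) (nat_lit 1902074) (nat_lit 40320959) (nat_lit 3814085) [(nat_lit 0), (nat_lit 1902074), (nat_lit 0), (nat_lit 8633771)]) (PF.cons (PF.leaf (nat_lit 8118511) (nat_lit 666784) (nat_lit 39733309) (nat_lit 3810180) [(nat_lit 666784), (nat_lit 1908209),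
 (nat_lit 0), (nat_lit 8586955)]) (PF.cons (PF.leaf (nat_lit 8495477) (nat_lit 673371) (nat_lit 39144265) (nat_lit 3804366) [(nat_lit 673371), (nat_lit 1912846), (nat_lit 0), (nat_lit 8537449)]) (PF.cons (PF.leaf (nat_lit 8876095) (nat_lit 678952) (nat_lit 38556064) (nat_lit 3796729) [(nat_lit 678952), (nat_lit 1916068), (nat_lit 0), (nat_lit 8485478)]) (PF.cons (PF.leaf (nat_lit 9259177) (nat_lit 683638) (nat_lit 37970501) (nat_lit 3787365) [(nat_lit 683638), (nat_lit 1917958), (nat_lit 0), (nat_lit 8431258)]) PF.nil))))) (PF.cons (PF.cons (PF.leaf (nat_lit 8541543) (nat_lit 1908779) (nat_lit 38695081) (nat_lit 3792649) [(nat_lit 0), (nat_lit 1908779), (nat_lit 0), (nat_lit 8492981)]) (PF.cons (PF.leaf (nat_lit 8915155) (nat_lit 676593) (nat_lit 38121064) (nat_lit 3784206) [(nat_lit 676593), (nat_lit 1911440), (nat_lit 0), (nat_lit 8440592)]) (PF.cons (PF.leaf (nat_lit 9291925) (nat_lit 681221) (nat_lit 37548871) (nat_lit 3774124) [(nat_lit 681221), (nat_lit 1912831),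 (nat_lit 0), (nat_lit 8386024)]) (PF.cons PF.nil PF.nil)))) (PF.cons (PF.cons (PF.leaf (nat_lit 9325546) (nat_lit 1907411) (nat_lit 37131037) (nat_lit 3760413) [(nat_lit 0), (nat_lit 1907411), (nat_lit 0), (nat_lit
 8340152)]) (PF.cons (PF.leaf (nat_lit 9697883) (nat_lit 682363) (nat_lit 36575300) (nat_lit 3748216) [(nat_lit 682363), (nat_lit 1907198), (nat_lit 0), (nat_lit 8283470)]) PF.nil)) (PF.cons PF.nil (PF.cons PF.nil PF.nil)))))))) (PF.cons (PF.cons (PF.cons (PF.leaf (nat_lit 6675199) (nat_lit 3797607) (nat_lit 41838023) (nat_lit 3797607) [(nat_lit 0), (nat_lit 0), (nat_lit 4019156), (nat_lit 8727012)]) (PF.cons (PF.leaf (nat_lit 7024314) (nat_lit 635660) (nat_lit 41273856) (nat_lit 3800155) [(nat_lit 635660), (nat_lit 0), (nat_lit 4020329), (nat_lit 8689405)]) (PF.cons (PF.leaf (nat_lit 7384164) (nat_lit 646359) (nat_lit 40699093) (nat_lit 3800619) [(nat_lit 646359), (nat_lit 0), (nat_lit 4019374), (nat_lit 8648503)]) (PF.cons (PF.leaf (nat_lit 7752085) (nat_lit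 655519) (nat_lit 40117860) (nat_lit 3799013) [(nat_lit 655519), (nat_lit 0), (nat_lit 4016308), (nat_lit 8604535)]) (PF.cons (PF.leaf (nat_lit 8126131) (nat_lit 663362) (nat_lit 39533334) (nat_lit 3795392) [(nat_lit 663362), (nat_lit 0), (nat_lit 4011186), (nat_lit 8557724)]) (PF.cons (PF.leaf (nat_lit 8504746) (nat_lit 670056) (nat_lit 38948031) (nat_lit 3789834) [(nat_lit 670056), (nat_lit 0), (nat_lit 4004089), (nat_lit
 8508287)]) (PF.cons (PF.leaf (nat_lit 8886602) (nat_lit 675735) (nat_lit 38363978) (nat_lit 3782432) [(nat_lit 675735), (nat_lit 0), (nat_lit 3995113), (nat_lit 8456438)]) (PF.cons PF.nil (PF.cons PF.nil PF.nil))))))))) (PF.cons (PF.cons (PF.leaf (nat_lit 7451066) (nat_lit 1882308) (nat_lit 40212010) (nat_lit 3792108) [(nat_lit 0), (nat_lit 1882308), (nat_lit 4009768), (nat_lit 8606308)]) (PF.cons (PF.leaf (nat_lit 7810230) (nat_lit 653373) (nat_lit 39647361) (nat_lit 3789371) [(nat_lit 653373), (nat_lit 1889728), (nat_lit 4005562), (nat_lit 8561707)])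 (PF.cons (PF.leaf (nat_lit 8176635) (nat_lit 661212) (nat_lit 39078036) (nat_lit 3784737) [(nat_lit 661212), (nat_lit 1895578), (nat_lit 3999419), (nat_lit 8514308)]) (PF.cons (PF.leaf (nat_lit 8548278) (nat_lit 667864) (nat_lit 38506901) (nat_lit 3778272) [(nat_lit 667864), (nat_lit 1899941), (nat_lit 3991408), (nat_lit 8464347)]) (PF.cons (PF.leaf (nat_lit 8923698) (nat_lit 673481) (nat_lit 37936210) (nat_lit 3770061) [(nat_lit 673481), (nat_lit 1902904), (nat_lit 3981616), (nat_lit 8412047)]) (PF.cons (PF.leaf (nat_lit 9301676) (nat_lit 678180) (nat_lit 37367764) (nat_lit 3760198) [(nat_lit 678180), (nat_lit 1904557), (nat_lit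
 3970141), (nat_lit 8357624)]) (PF.cons PF.nil PF.nil))))))) (PF.cons (PF.cons (PF.leaf (nat_lit 8228835) (nat_lit 1891808) (nat_lit 38625143) (nat_lit 3773408) [(nat_lit 0), (nat_lit 1891808), (nat_lit 3986953), (nat_lit 8469844)]) (PF.cons (PF.leaf (nat_lit 8592836) (nat_lit 665379) (nat_lit 38068938) (nat_lit 3766120) [(nat_lit 665379), (nat_lit 1895587), (nat_lit 3978116), (nat_lit 8419541)]) (PF.cons (PF.leaf (nat_lit 8961476) (nat_lit 670982) (nat_lit 37512133) (nat_lit 3757174) [(nat_lit 670982), (nat_lit 1898030), (nat_lit 3967586), (nat_lit 8366945)]) (PF.cons (PF.leaf (nat_lit 9333224) (nat_lit 675646) (nat_lit 36956755) (nat_lit 3746659) [(nat_lit 675646), (nat_lit 1899220), (nat_lit 3955456), (nat_lit 8312280)]) (PF.cons PF.nil PF.nil))))) (PF.cons (PF.cons (PF.leaf (nat_lit 9000574) (nat_lit 1892845) (nat_lit 37091224) (nat_lit 3743784) [(nat_lit 0), (nat_lit 1892845), (nat_lit 3953034), (nat_lit 8321116)]) (PF.cons (PF.leaf (nat_lit 9365561) (nat_lit 672892)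 (nat_lit 36549388) (nat_lit 3732683) [(nat_lit 672892), (nat_lit 1893608), (nat_lit 3940319), (nat_lit 8266352)]) (PF.cons (PF.leaf (nat_lit 9733236) (nat_lit 676712) (nat_lit 36009762) (nat_lit 3720174) [(nat_lit
 676712), (nat_lit 1893246), (nat_lit 3926169), (nat_lit 8209770)]) (PF.cons PF.nil PF.nil)))) (PF.cons (PF.cons (PF.leaf (nat_lit 9760609) (nat_lit 1887019) (nat_lit 35618673) (nat_lit 3705313) [(nat_lit 0), (nat_lit 1887019), (nat_lit 3910136), (nat_lit 8163305)]) (PF.cons PF.nil PF.nil)) (PF.cons PF.nil PF.nil)))))) (PF.cons (PF.cons (PF.cons (PF.leaf (nat_lit 7930645) (nat_lit 3753104) (nat_lit 38533538) (nat_lit 3753104) [(nat_lit 0), (nat_lit 0), (nat_lit 3966464), (nat_lit 8444620)]) (PF.cons (PF.leaf (nat_lit 8283152) (nat_lit 652700) (nat_lit 37998215) (nat_lit 3747015) [(nat_lit 652700), (nat_lit 0), (nat_lit 3958845), (nat_lit 8396595)]) (PF.cons (PF.leaf (nat_lit 8642183) (nat_lit 659519) (nat_lit 37459237) (nat_lit 3739251) [(nat_lit 659519), (nat_lit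 0), (nat_lit 3949516), (nat_lit 8346126)]) (PF.cons (PF.leaf (nat_lit 9005811) (nat_lit 665220) (nat_lit 36919228) (nat_lit 3729889) [(nat_lit 665220), (nat_lit 0), (nat_lit 3938558), (nat_lit 8293458)]) (PF.cons (PF.leaf (nat_lit 9372660) (nat_lit 669951) (nat_lit 36380230) (nat_lit 3719016) [(nat_lit 669951), (nat_lit 0), (nat_lit 3926063), (nat_lit 8238817)]) (PF.cons PF.nil (PF.cons PF.nil PF.nil))))))) (PF.cons
 (PF.cons (PF.leaf (nat_lit 8687458) (nat_lit 1877154) (nat_lit 37034479) (nat_lit 3726174) [(nat_lit 0), (nat_lit 1877154), (nat_lit 3935268), (nat_lit 8300233)]) (PF.cons (PF.leaf (nat_lit 9043682) (nat_lit 662323) (nat_lit 36508749) (nat_lit 3716217) [(nat_lit 662323), (nat_lit 1878994), (nat_lit 3923720), (nat_lit 8247543)]) (PF.cons (PF.leaf (nat_lit 9404017) (nat_lit 667086) (nat_lit 35982990) (nat_lit 3704816) [(nat_lit 667086), (nat_lit 1879641), (nat_lit 3910700), (nat_lit 8192895)]) (PF.cons (PF.leaf (nat_lit 9766980) (nat_lit 670972) (nat_lit 35459037)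 (nat_lit 3692059) [(nat_lit 670972), (nat_lit 1879174), (nat_lit 3896301), (nat_lit 8136511)]) (PF.cons PF.nil PF.nil))))) (PF.cons (PF.cons (PF.leaf (nat_lit 9436865) (nat_lit 1873604) (nat_lit 35588730) (nat_lit 3690212) [(nat_lit 0), (nat_lit 1873604), (nat_lit 3894920), (nat_lit 8146410)]) (PF.cons (PF.leaf (nat_lit 9793335) (nat_lit 667916) (nat_lit 35077619) (nat_lit 3677048) [(nat_lit 667916), (nat_lit 1872819), (nat_lit 3880120), (nat_lit 8090173)]) (PF.cons PF.nil (PF.cons PF.nil PF.nil)))) (PF.cons (PF.cons (PF.leaf (nat_lit 10173934) (nat_lit 1864210) (nat_lit 34202862) (nat_lit 3647015) [(nat_lit 0), (nat_lit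
 1864210), (nat_lit 3847257), (nat_lit 7985894)]) (PF.cons PF.nil PF.nil)) (PF.cons PF.nil PF.nil))))) (PF.cons (PF.cons (PF.cons (PF.leaf (nat_lit 9124296) (nat_lit 3674129) (nat_lit 35543222) (nat_lit 3674129) [(nat_lit 0), (nat_lit 0), (nat_lit 3878709), (nat_lit 8127665)]) (PF.cons (PF.leaf (nat_lit 9472740) (nat_lit 657956) (nat_lit 35046696) (nat_lit 3662084) [(nat_lit 657956), (nat_lit 0), (nat_lit 3865051), (nat_lit 8073460)]) (PF.cons (PF.leaf (nat_lit 9824853) (nat_lit 662002) (nat_lit 34550537) (nat_lit 3648776) [(nat_lit 662002), (nat_lit 0), (nat_lit 3850110), (nat_lit 8017580)]) (PF.cons PF.nil PF.nil)))) (PF.cons (PF.cons (PF.leaf (nat_lit 9852118) (nat_lit 1851858) (nat_lit 34181236) (nat_lit 3633323) [(nat_lit 0), (nat_lit 1851858), (nat_lit 3833478), (nat_lit 7970978)]) (PF.cons (PF.leaf (nat_lit 10200249) (nat_lit 661945) (nat_lit 33699239) (nat_lit 3618578) [(nat_lit 661945), (nat_lit 1849815), (nat_lit 3817092), (nat_lit 7913978)]) PF.nil)) (PF.cons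 PF.nil PF.nil))) (PF.cons (PF.cons (PF.cons (PF.leaf (nat_lit 10247954) (nat_lit 3574214) (nat_lit 32862359) (nat_lit 3574214) [(nat_lit 0), (nat_lit 0), (nat_lit 3769848), (nat_lit 7796423)]) (PF.cons PF.nil
 PF.nil)) (PF.cons PF.nil PF.nil)) (PF.cons PF.nil PF.nil)))))) (PF.cons (PF.cons (PF.cons (PF.cons (PF.leaf (nat_lit 7308616) (nat_lit 3684811) (nat_lit 38344791) (nat_lit 3684811) [(nat_lit 0), (nat_lit 0), (nat_lit 0), (nat_lit 8359736)]) (PF.cons (PF.leaf (nat_lit 7642356) (nat_lit 622896) (nat_lit 37849747) (nat_lit 3682733) [(nat_lit 622896), (nat_lit 0), (nat_lit 0), (nat_lit 8317811)]) (PF.cons (PF.leaf (nat_lit 7985813) (nat_lit 632291) (nat_lit 37345878) (nat_lit 3678871) [(nat_lit 632291), (nat_lit 0), (nat_lit 0), (nat_lit 8273159)]) (PF.cons (PF.leaf (nat_lit 8336463) (nat_lit 640222) (nat_lit 36836732) (nat_lit 3673275) [(nat_lit 640222), (nat_lit 0), (nat_lit 0), (nat_lit 8226046)]) (PF.cons (PF.leaf (nat_lit 8692513) (nat_lit 646913) (nat_lit 36325017)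 (nat_lit 3666020) [(nat_lit 646913), (nat_lit 0), (nat_lit 0), (nat_lit 8176706)]) (PF.cons (PF.leaf (nat_lit 9052545) (nat_lit 652537) (nat_lit 35812859) (nat_lit 3657190) [(nat_lit 652537), (nat_lit 0), (nat_lit 0), (nat_lit 8125357)]) (PF.cons (PF.leaf (nat_lit 9415346) (nat_lit 657229) (nat_lit 35301956) (nat_lit 3646879) [(nat_lit 657229), (nat_lit 0), (nat_lit 0), (nat_lit 8072200)]) (PF.cons PF.nil (PF.cons
 PF.nil PF.nil))))))))) (PF.cons (PF.cons (PF.leaf (nat_lit 8042284) (nat_lit 1831265) (nat_lit 36922114) (nat_lit 3667719) [(nat_lit 0), (nat_lit 1831265), (nat_lit 0), (nat_lit 8229238)]) (PF.cons (PF.leaf (nat_lit 8384649) (nat_lit 637505) (nat_lit 36427582) (nat_lit 3661384) [(nat_lit 637505), (nat_lit 1836149), (nat_lit 0), (nat_lit 8182064)]) (PF.cons (PF.leaf (nat_lit 8733542) (nat_lit 644260) (nat_lit 35929203) (nat_lit 3653470) [(nat_lit 644260), (nat_lit 1839645), (nat_lit 0), (nat_lit 8132657)]) (PF.cons (PF.leaf (nat_lit 9087088) (nat_lit 649906)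 (nat_lit 35429421) (nat_lit 3644057) [(nat_lit 649906), (nat_lit 1841845), (nat_lit 0), (nat_lit 8081255)]) (PF.cons (PF.leaf (nat_lit 9443940) (nat_lit 654595) (nat_lit 34930140) (nat_lit 3633231) [(nat_lit 654595), (nat_lit 1842839), (nat_lit 0), (nat_lit 8028073)]) (PF.cons PF.nil (PF.cons PF.nil PF.nil))))))) (PF.cons (PF.cons (PF.leaf (nat_lit 8776543) (nat_lit 1834664) (nat_lit 35535386) (nat_lit 3640439) [(nat_lit 0), (nat_lit 1834664), (nat_lit 0), (nat_lit 8087885)]) (PF.cons (PF.leaf (nat_lit 9122930) (nat_lit 647024) (nat_lit 35048617) (nat_lit 3630510) [(nat_lit 647024), (nat_lit 1836458), (nat_lit 0), (nat_lit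
 8036581)]) (PF.cons (PF.leaf (nat_lit 9473517) (nat_lit 651754) (nat_lit 34561395) (nat_lit 3619226) [(nat_lit 651754), (nat_lit 1837094), (nat_lit 0), (nat_lit 7983497)]) (PF.cons (PF.leaf (nat_lit 9826843) (nat_lit 655618) (nat_lit 34075432) (nat_lit 3606676) [(nat_lit 655618), (nat_lit 1836654), (nat_lit 0), (nat_lit 7928846)]) (PF.cons PF.nil PF.nil))))) (PF.cons (PF.cons (PF.leaf (nat_lit 9504662) (nat_lit 1831122) (nat_lit 34195250) (nat_lit 3604868) [(nat_lit 0), (nat_lit 1831122), (nat_lit 0), (nat_lit 7938442)]) (PF.cons (PF.leaf (nat_lit 9851721) (nat_lit 652605) (nat_lit 33720992) (nat_lit 3591970) [(nat_lit 652605), (nat_lit 1830395), (nat_lit 0), (nat_lit 7884019)]) (PF.cons PF.nil (PF.cons PF.nil PF.nil)))) (PF.cons (PF.cons (PF.leaf (nat_lit 10221868) (nat_lit 1822024) (nat_lit 32908032) (nat_lit 3562676) [(nat_lit 0), (nat_lit 1822024), (nat_lit 0), (nat_lit 7783335)]) (PF.cons PF.nil PF.nil)) (PF.cons PF.nil PF.nil)))))) (PF.cons (PF.cons (PF.cons (PF.leaf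 (nat_lit 8483666) (nat_lit 3622136) (nat_lit 35463423) (nat_lit 3622136) [(nat_lit 0), (nat_lit 0), (nat_lit 3825939), (nat_lit 8065770)]) (PF.cons (PF.leaf (nat_lit 8819721) (nat_lit 635102) (nat_lit 34994434)
 (nat_lit 3613427) [(nat_lit 635102), (nat_lit 0), (nat_lit 3815684), (nat_lit 8016721)]) (PF.cons (PF.leaf (nat_lit 9161727) (nat_lit 641021) (nat_lit 34522338) (nat_lit 3603316) [(nat_lit 641021), (nat_lit 0), (nat_lit 3804004), (nat_lit 7965703)]) (PF.cons (PF.leaf (nat_lit 9507866) (nat_lit 645894) (nat_lit 34049379) (nat_lit 3591888) [(nat_lit 645894), (nat_lit 0), (nat_lit 3790986), (nat_lit 7912958)]) (PF.cons (PF.leaf (nat_lit 9856893) (nat_lit 649869) (nat_lit 33577292) (nat_lit 3579228) [(nat_lit 649869), (nat_lit 0), (nat_lit 3776721), (nat_lit 7858697)]) PF.nil))))) (PF.cons (PF.cons (PF.leaf (nat_lit 9198982) (nat_lit 1816799) (nat_lit 34152526) (nat_lit 3589200) [(nat_lit 0), (nat_lit 1816799), (nat_lit 3788732), (nat_lit 7920518)]) (PF.cons (PF.leaf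 (nat_lit 9538209) (nat_lit 642730) (nat_lit 33691945) (nat_lit 3577418) [(nat_lit 642730), (nat_lit 1817120), (nat_lit 3775373), (nat_lit 7868075)]) (PF.cons (PF.leaf (nat_lit 9881187) (nat_lit 646780) (nat_lit 33231297) (nat_lit 3564448) [(nat_lit 646780), (nat_lit 1816400), (nat_lit 3760809), (nat_lit 7814098)]) (PF.cons PF.nil PF.nil)))) (PF.cons (PF.cons (PF.leaf (nat_lit 9907200) (nat_lit 1809868) (nat_lit 32887712)
 (nat_lit 3549381) [(nat_lit 0), (nat_lit 1809868), (nat_lit 3744601), (nat_lit 7769126)]) (PF.cons (PF.leaf (nat_lit 10246529) (nat_lit 646807) (nat_lit 32439625) (nat_lit 3535087) [(nat_lit 646807), (nat_lit 1807981), (nat_lit 3728711), (nat_lit 7714206)]) PF.nil)) (PF.cons PF.nil (PF.cons PF.nil PF.nil))))) (PF.cons (PF.cons (PF.cons (PF.leaf (nat_lit 9602848) (nat_lit 3535104) (nat_lit 32853866) (nat_lit 3535104) [(nat_lit 0), (nat_lit 0), (nat_lit 3730244), (nat_lit 7753117)]) (PF.cons (PF.leaf (nat_lit 9934947) (nat_lit 637503) (nat_lit 32418202)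 (nat_lit 3521883) [(nat_lit 637503), (nat_lit 0), (nat_lit 3715450), (nat_lit 7700107)]) (PF.cons (PF.leaf (nat_lit 10270467) (nat_lit 640971) (nat_lit 31982745) (nat_lit 3507616) [(nat_lit 640971), (nat_lit 0), (nat_lit 3699596), (nat_lit 7645772)]) (PF.cons PF.nil PF.nil)))) (PF.cons (PF.cons (PF.leaf (nat_lit 10291863) (nat_lit 1786983) (nat_lit 31660217) (nat_lit 3492087) [(nat_lit 0), (nat_lit 1786983), (nat_lit 3682939), (nat_lit 7601214)]) (PF.cons PF.nil PF.nil)) (PF.cons PF.nil PF.nil))) (PF.cons (PF.cons (PF.cons (PF.leaf (nat_lit 10659964) (nat_lit 3433723) (nat_lit 30507234) (nat_lit 3433723) [(nat_lit 0), (nat_lit 0),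
 (nat_lit 3620277), (nat_lit 7435673)]) (PF.cons PF.nil PF.nil)) (PF.cons PF.nil PF.nil)) (PF.cons PF.nil PF.nil))))) (PF.cons (PF.cons (PF.cons (PF.cons (PF.leaf (nat_lit 8983063) (nat_lit 3490743) (nat_lit 32806876) (nat_lit 3490743) [(nat_lit 0), (nat_lit 0), (nat_lit 0), (nat_lit 7702798)]) (PF.cons (PF.leaf (nat_lit 9304272) (nat_lit 616757) (nat_lit 32394015) (nat_lit 3480528) [(nat_lit 616757), (nat_lit 0), (nat_lit 0), (nat_lit 7654378)]) (PF.cons (PF.leaf (nat_lit 9630984) (nat_lit 621990) (nat_lit 31978397) (nat_lit 3469116) [(nat_lit 621990), (nat_lit 0), (nat_lit 0), (nat_lit 7604329)]) (PF.cons (PF.leaf (nat_lit 9961500) (nat_lit 626241) (nat_lit 31561958) (nat_lit 3456595) [(nat_lit 626241), (nat_lit 0), (nat_lit 0), (nat_lit 7552883)]) (PF.cons PF.nil PF.nil))))) (PF.cons (PF.cons (PF.leaf (nat_lit 9661992) (nat_lit 1756256) (nat_lit 31654591) (nat_lit 3454665) [(nat_lit 0), (nat_lit 1756256), (nat_lit 0), (nat_lit 7560824)]) (PF.cons (PF.leaf (nat_lit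 9986009) (nat_lit 622946) (nat_lit 31248883) (nat_lit 3441951) [(nat_lit 622946), (nat_lit 1755573), (nat_lit 0), (nat_lit 7509864)]) (PF.cons (PF.leaf (nat_lit 10313521) (nat_lit 626465) (nat_lit 30843006) (nat_lit
 3428238) [(nat_lit 626465), (nat_lit 1753970), (nat_lit 0), (nat_lit 7457666)]) (PF.cons PF.nil PF.nil)))) (PF.cons (PF.cons (PF.leaf (nat_lit 10334262) (nat_lit 1747245) (nat_lit 30541746) (nat_lit 3413220) [(nat_lit 0), (nat_lit 1747245), (nat_lit 0), (nat_lit 7414838)]) (PF.cons PF.nil PF.nil)) PF.nil))) (PF.cons (PF.cons (PF.cons (PF.leaf (nat_lit 10038392) (nat_lit 3400535) (nat_lit 30516780) (nat_lit 3400535) [(nat_lit 0), (nat_lit 0), (nat_lit 3586779), (nat_lit 7401179)]) (PF.cons (PF.leaf (nat_lit 10355877) (nat_lit 617264) (nat_lit 30132299) (nat_lit 3386819) [(nat_lit 617264), (nat_lit 0), (nat_lit 3571552), (nat_lit 7350219)]) (PF.cons PF.nil PF.nil))) (PF.cons (PF.cons (PF.leaf (nat_lit 10693455) (nat_lit 1724106) (nat_lit 29464387) (nat_lit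 3356984) [(nat_lit 0), (nat_lit 1724106), (nat_lit 3539130), (nat_lit 7256051)]) PF.nil) PF.nil)) (PF.cons PF.nil PF.nil))) (PF.cons (PF.cons (PF.cons (PF.cons (PF.leaf (nat_lit 10439212) (nat_lit 3272098) (nat_lit 28471931) (nat_lit 3272098) [(nat_lit 0), (nat_lit 0), (nat_lit 0), (nat_lit 7072956)]) (PF.cons (PF.leaf (nat_lit 10743525) (nat_lit 597605) (nat_lit 28130646) (nat_lit 3258308) [(nat_lit 597605), (nat_lit 0), (nat_lit
 0), (nat_lit 7024450)]) PF.nil)) (PF.cons PF.nil PF.nil)) (PF.cons PF.nil PF.nil)) (PF.cons PF.nil (PF.cons PF.nil (PF.cons PF.nil PF.nil)))))))))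

def p15_30_0_0 : pfC (piC [(nat_lit 35404596), (nat_lit 23859669), (nat_lit 17778567), (nat_lit 12006452)] (nat_lit 19877745)) p15_30_0 (nat_lit 4) (nat_lit 0) (nat_lit 1) = true := by decide +kernel
def p15_30_0_1 : pfC (piC [(nat_lit 35404596), (nat_lit 23859669), (nat_lit 17778567), (nat_lit 12006452)] (nat_lit 19877745)) p15_30_0 (nat_lit 4) (nat_lit 1) (nat_lit 2) = true := by decide +kernel
def p15_30_0_2 : pfC (piC [(nat_lit 35404596), (nat_lit 23859669), (nat_lit 17778567), (nat_lit 12006452)] (nat_lit 19877745)) p15_30_0 (nat_lit 4) (nat_lit 2) (nat_lit 3) = true := by decide +kernel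
def p15_30_0_3 : pfC (piC [(nat_lit 35404596), (nat_lit 23859669), (nat_lit 17778567), (nat_lit 12006452)] (nat_lit 19877745)) p15_30_0 (nat_lit 4) (nat_lit 3) (nat_lit 4) = true := by decide +kernel
def p15_30_0_4 : pfC (piC [(nat_lit 35404596), (nat_lit 23859669), (nat_lit 17778567), (nat_lit 12006452)] (nat_lit 19877745)) p15_30_0 (nat_lit 4) (nat_lit 4) (nat_lit 5) = true := by decide +kernel
def p15_30_0_5 : pfC (piC [(nat_lit 35404596), (nat_lit 23859669), (nat_lit 17778567), (nat_lit 12006452)] (nat_lit 19877745)) p15_30_0 (nat_lit 4) (nat_lit 5) (nat_lit 6) = true := by decide +kernel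
def p15_30_0_6 : pfC (piC [(nat_lit 35404596), (nat_lit 23859669), (nat_lit 17778567), (nat_lit 12006452)] (nat_lit 19877745)) p15_30_0 (nat_lit 4) (nat_lit 6) (nat_lit 7) = true := by decide +kernel
def p15_30_0_7 : pfC (piC [(nat_lit 35404596), (nat_lit 23859669), (nat_lit 17778567), (nat_lit 12006452)] (nat_lit 19877745)) p15_30_0 (nat_lit 4) (nat_lit 7) (nat_lit 8) = true := by decide +kernel
def p15_30_0_8 : pfC (piC [(nat_lit 35404596), (nat_lit 23859669), (nat_lit 17778567), (nat_lit 12006452)] (nat_lit 19877745)) p15_30_0 (nat_lit 4) (nat_lit 8) (nat_lit 9) = true := by decide +kernel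
def p15_30_0_9 : pfC (piC [(nat_lit 35404596), (nat_lit 23859669), (nat_lit 17778567), (nat_lit 12006452)] (nat_lit 19877745)) p15_30_0 (nat_lit 4) (nat_lit 9) (nat_lit 10) = true := by decide +kernel
def p15_30_0_10 : pfC (piC [(nat_lit 35404596), (nat_lit 23859669), (nat_lit 17778567), (nat_lit 12006452)] (nat_lit 19877745)) p15_30_0 (nat_lit 4) (nat_lit 10) (nat_lit 11) = true := by decide +kernel
def p15_30_0_11 : pfC (piC [(nat_lit 35404596), (nat_lit 23859669), (nat_lit 17778567), (nat_lit 12006452)] (nat_lit 19877745)) p15_30_0 (nat_lit 4) (nat_lit 11) (nat_lit 12) = true := by decide +kernel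
def p15_30_0_12 : pfC (piC [(nat_lit 35404596), (nat_lit 23859669), (nat_lit 17778567), (nat_lit 12006452)] (nat_lit 19877745)) p15_30_0 (nat_lit 4) (nat_lit 12) (nat_lit 13) = true := by decide +kernel
def p15_30_0_13 : pfC (piC [(nat_lit 35404596), (nat_lit 23859669), (nat_lit 17778567), (nat_lit 12006452)] (nat_lit 19877745)) p15_30_0 (nat_lit 4) (nat_lit 13) (nat_lit 14) = true := by decide +kernel
def p15_30_0_14 : pfC (piC [(nat_lit 35404596), (nat_lit 23859669), (nat_lit 17778567), (nat_lit 12006452)] (nat_lit 19877745)) p15_30_0 (nat_lit 4) (nat_lit 14) (nat_lit 15) = true := by decide +kernel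
def p15_30_0_15 : pfC (piC [(nat_lit 35404596), (nat_lit 23859669), (nat_lit 17778567), (nat_lit 12006452)] (nat_lit 19877745)) p15_30_0 (nat_lit 4) (nat_lit 15) (nat_lit 16) = true := by decide +kernel
def p15_30_0_16 : pfC (piC [(nat_lit 35404596), (nat_lit 23859669), (nat_lit 17778567), (nat_lit 12006452)] (nat_lit 19877745)) p15_30_0 (nat_lit 4) (nat_lit 16) (nat_lit 17) = true := by decide +kernel
def p15_30_0_17 : pfC (piC [(nat_lit 35404596), (nat_lit 23859669), (nat_lit 17778567), (nat_lit 12006452)] (nat_lit 19877745)) p15_30_0 (nat_lit 4) (nat_lit 17) (nat_lit 18) = true := by decide +kernel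
def p15_30_0_18 : pfC (piC [(nat_lit 35404596), (nat_lit 23859669), (nat_lit 17778567), (nat_lit 12006452)] (nat_lit 19877745)) p15_30_0 (nat_lit 4) (nat_lit 18) (nat_lit 19) = true := by decide +kernel
def p15_30_0_19 : pfC (piC [(nat_lit 35404596), (nat_lit 23859669), (nat_lit 17778567), (nat_lit 12006452)] (nat_lit 19877745)) p15_30_0 (nat_lit 4) (nat_lit 19) (nat_lit 20) = true := by decide +kernel
def p15_30_0_20 : pfC (piC [(nat_lit 35404596), (nat_lit 23859669), (nat_lit 17778567), (nat_lit 12006452)] (nat_lit 19877745)) p15_30_0 (nat_lit 4) (nat_lit 20) (nat_lit 21) = true := by decide +kernel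
def p15_30_0_21 : pfC (piC [(nat_lit 35404596), (nat_lit 23859669), (nat_lit 17778567), (nat_lit 12006452)] (nat_lit 19877745)) p15_30_0 (nat_lit 4) (nat_lit 21) (nat_lit 22) = true := by decide +kernel
def p15_30_0_22 : pfC (piC [(nat_lit 35404596), (nat_lit 23859669), (nat_lit 17778567), (nat_lit 12006452)] (nat_lit 19877745)) p15_30_0 (nat_lit 4) (nat_lit 22) (nat_lit 23) = true := by decide +kernel
def p15_30_0_23 : pfC (piC [(nat_lit 35404596), (nat_lit 23859669), (nat_lit 17778567), (nat_lit 12006452)] (nat_lit 19877745)) p15_30_0 (nat_lit 4) (nat_lit 23) (nat_lit 24) = true := by decide +kernel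
def p15_30_0_24 : pfC (piC [(nat_lit 35404596), (nat_lit 23859669), (nat_lit 17778567), (nat_lit 12006452)] (nat_lit 19877745)) p15_30_0 (nat_lit 4) (nat_lit 24) (nat_lit 25) = true := by decide +kernel
def p15_30_0_25 : pfC (piC [(nat_lit 35404596), (nat_lit 23859669), (nat_lit 17778567), (nat_lit 12006452)] (nat_lit 19877745)) p15_30_0 (nat_lit 4) (nat_lit 25) (nat_lit 26) = true := by decide +kernel
def p15_30_0_26 : pfC (piC [(nat_lit 35404596), (nat_lit 23859669), (nat_lit 17778567), (nat_lit 12006452)] (nat_lit 19877745)) p15_30_0 (nat_lit 4) (nat_lit 26) (nat_lit 27) = true := by decide +kernel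
def p15_30_0_27 : pfC (piC [(nat_lit 35404596), (nat_lit 23859669), (nat_lit 17778567), (nat_lit 12006452)] (nat_lit 19877745)) p15_30_0 (nat_lit 4) (nat_lit 27) (nat_lit 28) = true := by decide +kernel
def p15_30_0_28 : pfC (piC [(nat_lit 35404596), (nat_lit 23859669), (nat_lit 17778567), (nat_lit 12006452)] (nat_lit 19877745)) p15_30_0 (nat_lit 4) (nat_lit 28) (nat_lit 29) = true := by decide +kernel
def p15_30_0_29 : pfC (piC [(nat_lit 35404596), (nat_lit 23859669), (nat_lit 17778567), (nat_lit 12006452)] (nat_lit 19877745)) p15_30_0 (nat_lit 4) (nat_lit 29) (nat_lit 30) = true := by decide +kernel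
def p15_30_0_30 : pfC (piC [(nat_lit 35404596), (nat_lit 23859669), (nat_lit 17778567), (nat_lit 12006452)] (nat_lit 19877745)) p15_30_0 (nat_lit 4) (nat_lit 30) (nat_lit 31) = true := by decide +kernel
def p15_30_0_31 : pfC (piC [(nat_lit 35404596), (nat_lit 23859669), (nat_lit 17778567), (nat_lit 12006452)] (nat_lit 19877745)) p15_30_0 (nat_lit 4) (nat_lit 31) (nat_lit 32) = true := by decide +kernel
def p15_30_0_32 : pfC (piC [(nat_lit 35404596), (nat_lit 23859669), (nat_lit 17778567), (nat_lit 12006452)] (nat_lit 19877745)) p15_30_0 (nat_lit 4) (nat_lit 32) (nat_lit 33) = true := by decide +kernel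
def p15_30_0_33 : pfC (piC [(nat_lit 35404596), (nat_lit 23859669), (nat_lit 17778567), (nat_lit 12006452)] (nat_lit 19877745)) p15_30_0 (nat_lit 4) (nat_lit 33) (nat_lit 34) = true := by decide +kernel
def p15_30_0_34 : pfC (piC [(nat_lit 35404596), (nat_lit 23859669), (nat_lit 17778567), (nat_lit 12006452)] (nat_lit 19877745)) p15_30_0 (nat_lit 4) (nat_lit 34) (nat_lit 35) = true := by decide +kernel
def p15_30_0_35 : pfC (piC [(nat_lit 35404596), (nat_lit 23859669), (nat_lit 17778567), (nat_lit 12006452)] (nat_lit 19877745)) p15_30_0 (nat_lit 4) (nat_lit 35) (nat_lit 36) = true := by decide +kernel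
def p15_30_0_36 : pfC (piC [(nat_lit 35404596), (nat_lit 23859669), (nat_lit 17778567), (nat_lit 12006452)] (nat_lit 19877745)) p15_30_0 (nat_lit 4) (nat_lit 36) (nat_lit 37) = true := by decide +kernel
def p15_30_0_37 : pfC (piC [(nat_lit 35404596), (nat_lit 23859669), (nat_lit 17778567), (nat_lit 12006452)] (nat_lit 19877745)) p15_30_0 (nat_lit 4) (nat_lit 37) (nat_lit 38) = true := by decide +kernel
def p15_30_0_38 : pfC (piC [(nat_lit 35404596), (nat_lit 23859669), (nat_lit 17778567), (nat_lit 12006452)] (nat_lit 19877745)) p15_30_0 (nat_lit 4) (nat_lit 38) (nat_lit 39) = true := by decide +kernel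
def p15_30_0_39 : pfC (piC [(nat_lit 35404596), (nat_lit 23859669), (nat_lit 17778567), (nat_lit 12006452)] (nat_lit 19877745)) p15_30_0 (nat_lit 4) (nat_lit 39) (nat_lit 40) = true := by decide +kernel
def p15_30_0_40 : pfC (piC [(nat_lit 35404596), (nat_lit 23859669), (nat_lit 17778567), (nat_lit 12006452)] (nat_lit 19877745)) p15_30_0 (nat_lit 4) (nat_lit 40) (nat_lit 41) = true := by decide +kernel
def p15_30_0_41 : pfC (piC [(nat_lit 35404596), (nat_lit 23859669), (nat_lit 17778567), (nat_lit 12006452)] (nat_lit 19877745)) p15_30_0 (nat_lit 4) (nat_lit 41) (nat_lit 42) = true := by decide +kernel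
def p15_30_0_42 : pfC (piC [(nat_lit 35404596), (nat_lit 23859669), (nat_lit 17778567), (nat_lit 12006452)] (nat_lit 19877745)) p15_30_0 (nat_lit 4) (nat_lit 42) (nat_lit 43) = true := by decide +kernel
def p15_30_0_43 : pfC (piC [(nat_lit 35404596), (nat_lit 23859669), (nat_lit 17778567), (nat_lit 12006452)] (nat_lit 19877745)) p15_30_0 (nat_lit 4) (nat_lit 43) (nat_lit 44) = true := by decide +kernel
def p15_30_0_44 : pfC (piC [(nat_lit 35404596), (nat_lit 23859669), (nat_lit 17778567), (nat_lit 12006452)] (nat_lit 19877745)) p15_30_0 (nat_lit 4) (nat_lit 44) (nat_lit 45) = true := by decide +kernel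
def p15_30_0_45 : pfC (piC [(nat_lit 35404596), (nat_lit 23859669), (nat_lit 17778567), (nat_lit 12006452)] (nat_lit 19877745)) p15_30_0 (nat_lit 4) (nat_lit 45) (nat_lit 46) = true := by decide +kernel
def p15_30_0_46 : pfC (piC [(nat_lit 35404596), (nat_lit 23859669), (nat_lit 17778567), (nat_lit 12006452)] (nat_lit 19877745)) p15_30_0 (nat_lit 4) (nat_lit 46) (nat_lit 47) = true := by decide +kernel
def p15_30_0_47 : pfC (piC [(nat_lit 35404596), (nat_lit 23859669), (nat_lit 17778567), (nat_lit 12006452)] (nat_lit 19877745)) p15_30_0 (nat_lit 4) (nat_lit 47) (nat_lit 48) = true := by decide +kernel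
def p15_30_0_48 : pfC (piC [(nat_lit 35404596), (nat_lit 23859669), (nat_lit 17778567), (nat_lit 12006452)] (nat_lit 19877745)) p15_30_0 (nat_lit 4) (nat_lit 48) (nat_lit 49) = true := by decide +kernel
def p15_30_0_49 : pfC (piC [(nat_lit 35404596), (nat_lit 23859669), (nat_lit 17778567), (nat_lit 12006452)] (nat_lit 19877745)) p15_30_0 (nat_lit 4) (nat_lit 49) (nat_lit 50) = true := by decide +kernel
def p15_30_0_50 : pfC (piC [(nat_lit 35404596), (nat_lit 23859669), (nat_lit 17778567), (nat_lit 12006452)] (nat_lit 19877745)) p15_30_0 (nat_lit 4) (nat_lit 50) (nat_lit 51) = true := by decide +kernel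
def p15_30_0_51 : pfC (piC [(nat_lit 35404596), (nat_lit 23859669), (nat_lit 17778567), (nat_lit 12006452)] (nat_lit 19877745)) p15_30_0 (nat_lit 4) (nat_lit 51) (nat_lit 52) = true := by decide +kernel
def p15_30_0_52 : pfC (piC [(nat_lit 35404596), (nat_lit 23859669), (nat_lit 17778567), (nat_lit 12006452)] (nat_lit 19877745)) p15_30_0 (nat_lit 4) (nat_lit 52) (nat_lit 53) = true := by decide +kernel
def p15_30_0_53 : pfC (piC [(nat_lit 35404596), (nat_lit 23859669), (nat_lit 17778567), (nat_lit 12006452)] (nat_lit 19877745)) p15_30_0 (nat_lit 4) (nat_lit 53) (nat_lit 54) = true := by decide +kernel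
def p15_30_0_54 : pfC (piC [(nat_lit 35404596), (nat_lit 23859669), (nat_lit 17778567), (nat_lit 12006452)] (nat_lit 19877745)) p15_30_0 (nat_lit 4) (nat_lit 54) (nat_lit 55) = true := by decide +kernel
def p15_30_0_55 : pfC (piC [(nat_lit 35404596), (nat_lit 23859669), (nat_lit 17778567), (nat_lit 12006452)] (nat_lit 19877745)) p15_30_0 (nat_lit 4) (nat_lit 55) (nat_lit 56) = true := by decide +kernel
def p15_30_0_56 : pfC (piC [(nat_lit 35404596), (nat_lit 23859669), (nat_lit 17778567), (nat_lit 12006452)] (nat_lit 19877745)) p15_30_0 (nat_lit 4) (nat_lit 56) (nat_lit 57) = true := by decide +kernel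
def p15_30_0_57 : pfC (piC [(nat_lit 35404596), (nat_lit 23859669), (nat_lit 17778567), (nat_lit 12006452)] (nat_lit 19877745)) p15_30_0 (nat_lit 4) (nat_lit 57) (nat_lit 58) = true := by decide +kernel
def p15_30_0_58 : pfC (piC [(nat_lit 35404596), (nat_lit 23859669), (nat_lit 17778567), (nat_lit 12006452)] (nat_lit 19877745)) p15_30_0 (nat_lit 4) (nat_lit 58) (nat_lit 59) = true := by decide +kernel
def p15_30_0_59 : pfC (piC [(nat_lit 35404596), (nat_lit 23859669), (nat_lit 17778567), (nat_lit 12006452)] (nat_lit 19877745)) p15_30_0 (nat_lit 4) (nat_lit 59) (nat_lit 60) = true := by decide +kernel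
def p15_30_0_60 : pfC (piC [(nat_lit 35404596), (nat_lit 23859669), (nat_lit 17778567), (nat_lit 12006452)] (nat_lit 19877745)) p15_30_0 (nat_lit 4) (nat_lit 60) (nat_lit 61) = true := by decide +kernel
def p15_30_0_61 : pfC (piC [(nat_lit 35404596), (nat_lit 23859669), (nat_lit 17778567), (nat_lit 12006452)] (nat_lit 19877745)) p15_30_0 (nat_lit 4) (nat_lit 61) (nat_lit 62) = true := by decide +kernel
def p15_30_0_62 : pfC (piC [(nat_lit 35404596), (nat_lit 23859669), (nat_lit 17778567), (nat_lit 12006452)] (nat_lit 19877745)) p15_30_0 (nat_lit 4) (nat_lit 62) (nat_lit 63) = true := by decide +kernel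
def p15_30_0_63 : pfC (piC [(nat_lit 35404596), (nat_lit 23859669), (nat_lit 17778567), (nat_lit 12006452)] (nat_lit 19877745)) p15_30_0 (nat_lit 4) (nat_lit 63) (nat_lit 64) = true := by decide +kernel
def p15_30_0_64 : pfC (piC [(nat_lit 35404596), (nat_lit 23859669), (nat_lit 17778567), (nat_lit 12006452)] (nat_lit 19877745)) p15_30_0 (nat_lit 4) (nat_lit 64) (nat_lit 65) = true := by decide +kernel
def p15_30_0_65 : pfC (piC [(nat_lit 35404596), (nat_lit 23859669), (nat_lit 17778567), (nat_lit 12006452)] (nat_lit 19877745)) p15_30_0 (nat_lit 4) (nat_lit 65) (nat_lit 66) = true := by decide +kernel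
def p15_30_0_66 : pfC (piC [(nat_lit 35404596), (nat_lit 23859669), (nat_lit 17778567), (nat_lit 12006452)] (nat_lit 19877745)) p15_30_0 (nat_lit 4) (nat_lit 66) (nat_lit 67) = true := by decide +kernel
def p15_30_0_67 : pfC (piC [(nat_lit 35404596), (nat_lit 23859669), (nat_lit 17778567), (nat_lit 12006452)] (nat_lit 19877745)) p15_30_0 (nat_lit 4) (nat_lit 67) (nat_lit 68) = true := by decide +kernel
def p15_30_0_68 : pfC (piC [(nat_lit 35404596), (nat_lit 23859669), (nat_lit 17778567), (nat_lit 12006452)] (nat_lit 19877745)) p15_30_0 (nat_lit 4) (nat_lit 68) (nat_lit 69) = true := by decide +kernel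
def p15_30_0_69 : pfC (piC [(nat_lit 35404596), (nat_lit 23859669), (nat_lit 17778567), (nat_lit 12006452)] (nat_lit 19877745)) p15_30_0 (nat_lit 4) (nat_lit 69) (nat_lit 70) = true := by decide +kernel
def p15_30_0_70 : pfC (piC [(nat_lit 35404596), (nat_lit 23859669), (nat_lit 17778567), (nat_lit 12006452)] (nat_lit 19877745)) p15_30_0 (nat_lit 4) (nat_lit 70) (nat_lit 71) = true := by decide +kernel
def p15_30_0_71 : pfC (piC [(nat_lit 35404596), (nat_lit 23859669), (nat_lit 17778567), (nat_lit 12006452)] (nat_lit 19877745)) p15_30_0 (nat_lit 4) (nat_lit 71) (nat_lit 72) = true := by decide +kernel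
def p15_30_0_72 : pfC (piC [(nat_lit 35404596), (nat_lit 23859669), (nat_lit 17778567), (nat_lit 12006452)] (nat_lit 19877745)) p15_30_0 (nat_lit 4) (nat_lit 72) (nat_lit 73) = true := by decide +kernel
def p15_30_0_73 : pfC (piC [(nat_lit 35404596), (nat_lit 23859669), (nat_lit 17778567), (nat_lit 12006452)] (nat_lit 19877745)) p15_30_0 (nat_lit 4) (nat_lit 73) (nat_lit 74) = true := by decide +kernel
def p15_30_0_74 : pfC (piC [(nat_lit 35404596), (nat_lit 23859669), (nat_lit 17778567), (nat_lit 12006452)] (nat_lit 19877745)) p15_30_0 (nat_lit 4) (nat_lit 74) (nat_lit 75) = true := by decide +kernel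
def p15_30_0_75 : pfC (piC [(nat_lit 35404596), (nat_lit 23859669), (nat_lit 17778567), (nat_lit 12006452)] (nat_lit 19877745)) p15_30_0 (nat_lit 4) (nat_lit 75) (nat_lit 76) = true := by decide +kernel
def p15_30_0_76 : pfC (piC [(nat_lit 35404596), (nat_lit 23859669), (nat_lit 17778567), (nat_lit 12006452)] (nat_lit 19877745)) p15_30_0 (nat_lit 4) (nat_lit 76) (nat_lit 77) = true := by decide +kernel
def p15_30_0_77 : pfC (piC [(nat_lit 35404596), (nat_lit 23859669), (nat_lit 17778567), (nat_lit 12006452)] (nat_lit 19877745)) p15_30_0 (nat_lit 4) (nat_lit 77) (nat_lit 78) = true := by decide +kernel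
def p15_30_0_78 : pfC (piC [(nat_lit 35404596), (nat_lit 23859669), (nat_lit 17778567), (nat_lit 12006452)] (nat_lit 19877745)) p15_30_0 (nat_lit 4) (nat_lit 78) (nat_lit 79) = true := by decide +kernel
def p15_30_0_79 : pfC (piC [(nat_lit 35404596), (nat_lit 23859669), (nat_lit 17778567), (nat_lit 12006452)] (nat_lit 19877745)) p15_30_0 (nat_lit 4) (nat_lit 79) (nat_lit 80) = true := by decide +kernel
def p15_30_0_80 : pfC (piC [(nat_lit 35404596), (nat_lit 23859669), (nat_lit 17778567), (nat_lit 12006452)] (nat_lit 19877745)) p15_30_0 (nat_lit 4) (nat_lit 80) (nat_lit 81) = true := by decide +kernel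
def p15_30_0_81 : pfC (piC [(nat_lit 35404596), (nat_lit 23859669), (nat_lit 17778567), (nat_lit 12006452)] (nat_lit 19877745)) p15_30_0 (nat_lit 4) (nat_lit 81) (nat_lit 82) = true := by decide +kernel
def p15_30_0_82 : pfC (piC [(nat_lit 35404596), (nat_lit 23859669), (nat_lit 17778567), (nat_lit 12006452)] (nat_lit 19877745)) p15_30_0 (nat_lit 4) (nat_lit 82) (nat_lit 83) = true := by decide +kernel
def p15_30_0_83 : pfC (piC [(nat_lit 35404596), (nat_lit 23859669), (nat_lit 17778567), (nat_lit 12006452)] (nat_lit 19877745)) p15_30_0 (nat_lit 4) (nat_lit 83) (nat_lit 84) = true := by decide +kernel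
def p15_30_0_84 : pfC (piC [(nat_lit 35404596), (nat_lit 23859669), (nat_lit 17778567), (nat_lit 12006452)] (nat_lit 19877745)) p15_30_0 (nat_lit 4) (nat_lit 84) (nat_lit 85) = true := by decide +kernel
def p15_30_0_85 : pfC (piC [(nat_lit 35404596), (nat_lit 23859669), (nat_lit 17778567), (nat_lit 12006452)] (nat_lit 19877745)) p15_30_0 (nat_lit 4) (nat_lit 85) (nat_lit 86) = true := by decide +kernel
def p15_30_0_86 : pfC (piC [(nat_lit 35404596), (nat_lit 23859669), (nat_lit 17778567), (nat_lit 12006452)] (nat_lit 19877745)) p15_30_0 (nat_lit 4) (nat_lit 86) (nat_lit 87) = true := by decide +kernel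
def p15_30_0_87 : pfC (piC [(nat_lit 35404596), (nat_lit 23859669), (nat_lit 17778567), (nat_lit 12006452)] (nat_lit 19877745)) p15_30_0 (nat_lit 4) (nat_lit 87) (nat_lit 88) = true := by decide +kernel
def p15_30_0_88 : pfC (piC [(nat_lit 35404596), (nat_lit 23859669), (nat_lit 17778567), (nat_lit 12006452)] (nat_lit 19877745)) p15_30_0 (nat_lit 4) (nat_lit 88) (nat_lit 89) = true := by decide +kernel
def p15_30_0_89 : pfC (piC [(nat_lit 35404596), (nat_lit 23859669), (nat_lit 17778567), (nat_lit 12006452)] (nat_lit 19877745)) p15_30_0 (nat_lit 4) (nat_lit 89) (nat_lit 90) = true := by decide +kernel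
def p15_30_0_90 : pfC (piC [(nat_lit 35404596), (nat_lit 23859669), (nat_lit 17778567), (nat_lit 12006452)] (nat_lit 19877745)) p15_30_0 (nat_lit 4) (nat_lit 90) (nat_lit 91) = true := by decide +kernel
def p15_30_0_91 : pfC (piC [(nat_lit 35404596), (nat_lit 23859669), (nat_lit 17778567), (nat_lit 12006452)] (nat_lit 19877745)) p15_30_0 (nat_lit 4) (nat_lit 91) (nat_lit 92) = true := by decide +kernel
def p15_30_0_92 : pfC (piC [(nat_lit 35404596), (nat_lit 23859669), (nat_lit 17778567), (nat_lit 12006452)] (nat_lit 19877745)) p15_30_0 (nat_lit 4) (nat_lit 92) (nat_lit 93) = true := by decide +kernel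
def p15_30_0_93 : pfC (piC [(nat_lit 35404596), (nat_lit 23859669), (nat_lit 17778567), (nat_lit 12006452)] (nat_lit 19877745)) p15_30_0 (nat_lit 4) (nat_lit 93) (nat_lit 94) = true := by decide +kernel
def p15_30_0_94 : pfC (piC [(nat_lit 35404596), (nat_lit 23859669), (nat_lit 17778567), (nat_lit 12006452)] (nat_lit 19877745)) p15_30_0 (nat_lit 4) (nat_lit 94) (nat_lit 95) = true := by decide +kernel
def p15_30_0_95 : pfC (piC [(nat_lit 35404596), (nat_lit 23859669), (nat_lit 17778567), (nat_lit 12006452)] (nat_lit 19877745)) p15_30_0 (nat_lit 4) (nat_lit 95) (nat_lit 96) = true := by decide +kernel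
def p15_30_0_96 : pfC (piC [(nat_lit 35404596), (nat_lit 23859669), (nat_lit 17778567), (nat_lit 12006452)] (nat_lit 19877745)) p15_30_0 (nat_lit 4) (nat_lit 96) (nat_lit 97) = true := by decide +kernel
def p15_30_0_97 : pfC (piC [(nat_lit 35404596), (nat_lit 23859669), (nat_lit 17778567), (nat_lit 12006452)] (nat_lit 19877745)) p15_30_0 (nat_lit 4) (nat_lit 97) (nat_lit 98) = true := by decide +kernel
def p15_30_0_98 : pfC (piC [(nat_lit 35404596), (nat_lit 23859669), (nat_lit 17778567), (nat_lit 12006452)] (nat_lit 19877745)) p15_30_0 (nat_lit 4) (nat_lit 98) (nat_lit 99) = true := by decide +kernel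
def p15_30_0_99 : pfC (piC [(nat_lit 35404596), (nat_lit 23859669), (nat_lit 17778567), (nat_lit 12006452)] (nat_lit 19877745)) p15_30_0 (nat_lit 4) (nat_lit 99) (nat_lit 100) = true := by decide +kernel
def p15_30_0_100 : pfC (piC [(nat_lit 35404596), (nat_lit 23859669), (nat_lit 17778567), (nat_lit 12006452)] (nat_lit 19877745)) p15_30_0 (nat_lit 4) (nat_lit 100) (nat_lit 101) = true := by decide +kernel
def p15_30_0_101 : pfC (piC [(nat_lit 35404596), (nat_lit 23859669), (nat_lit 17778567), (nat_lit 12006452)] (nat_lit 19877745)) p15_30_0 (nat_lit 4) (nat_lit 101) (nat_lit 102) = true := by decide +kernel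
def p15_30_0_102 : pfC (piC [(nat_lit 35404596), (nat_lit 23859669), (nat_lit 17778567), (nat_lit 12006452)] (nat_lit 19877745)) p15_30_0 (nat_lit 4) (nat_lit 102) (nat_lit 103) = true := by decide +kernel
def p15_30_0_103 : pfC (piC [(nat_lit 35404596), (nat_lit 23859669), (nat_lit 17778567), (nat_lit 12006452)] (nat_lit 19877745)) p15_30_0 (nat_lit 4) (nat_lit 103) (nat_lit 104) = true := by decide +kernel
def p15_30_0_104 : pfC (piC [(nat_lit 35404596), (nat_lit 23859669), (nat_lit 17778567), (nat_lit 12006452)] (nat_lit 19877745)) p15_30_0 (nat_lit 4) (nat_lit 104) (nat_lit 105) = true := by decide +kernel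
def p15_30_0_105 : pfC (piC [(nat_lit 35404596), (nat_lit 23859669), (nat_lit 17778567), (nat_lit 12006452)] (nat_lit 19877745)) p15_30_0 (nat_lit 4) (nat_lit 105) (nat_lit 106) = true := by decide +kernel
def p15_30_0_106 : pfC (piC [(nat_lit 35404596), (nat_lit 23859669), (nat_lit 17778567), (nat_lit 12006452)] (nat_lit 19877745)) p15_30_0 (nat_lit 4) (nat_lit 106) (nat_lit 107) = true := by decide +kernel
def p15_30_0_107 : pfC (piC [(nat_lit 35404596), (nat_lit 23859669), (nat_lit 17778567), (nat_lit 12006452)] (nat_lit 19877745)) p15_30_0 (nat_lit 4) (nat_lit 107) (nat_lit 108) = true := by decide +kernel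
def p15_30_0_108 : pfC (piC [(nat_lit 35404596), (nat_lit 23859669), (nat_lit 17778567), (nat_lit 12006452)] (nat_lit 19877745)) p15_30_0 (nat_lit 4) (nat_lit 108) (nat_lit 109) = true := by decide +kernel
def p15_30_0_109 : pfC (piC [(nat_lit 35404596), (nat_lit 23859669), (nat_lit 17778567), (nat_lit 12006452)] (nat_lit 19877745)) p15_30_0 (nat_lit 4) (nat_lit 109) (nat_lit 110) = true := by decide +kernel
def p15_30_0_110 : pfC (piC [(nat_lit 35404596), (nat_lit 23859669), (nat_lit 17778567), (nat_lit 12006452)] (nat_lit 19877745)) p15_30_0 (nat_lit 4) (nat_lit 110) (nat_lit 111) = true := by decide +kernel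
def p15_30_0_111 : pfC (piC [(nat_lit 35404596), (nat_lit 23859669), (nat_lit 17778567), (nat_lit 12006452)] (nat_lit 19877745)) p15_30_0 (nat_lit 4) (nat_lit 111) (nat_lit 112) = true := by decide +kernel
def p15_30_0_112 : pfC (piC [(nat_lit 35404596), (nat_lit 23859669), (nat_lit 17778567), (nat_lit 12006452)] (nat_lit 19877745)) p15_30_0 (nat_lit 4) (nat_lit 112) (nat_lit 113) = true := by decide +kernel
def p15_30_0_113 : pfC (piC [(nat_lit 35404596), (nat_lit 23859669), (nat_lit 17778567), (nat_lit 12006452)] (nat_lit 19877745)) p15_30_0 (nat_lit 4) (nat_lit 113) (nat_lit 114) = true := by decide +kernel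
def p15_30_0_114 : pfC (piC [(nat_lit 35404596), (nat_lit 23859669), (nat_lit 17778567), (nat_lit 12006452)] (nat_lit 19877745)) p15_30_0 (nat_lit 4) (nat_lit 114) (nat_lit 115) = true := by decide +kernel
def p15_30_0_115 : pfC (piC [(nat_lit 35404596), (nat_lit 23859669), (nat_lit 17778567), (nat_lit 12006452)] (nat_lit 19877745)) p15_30_0 (nat_lit 4) (nat_lit 115) (nat_lit 116) = true := by decide +kernel
def p15_30_0_116 : pfC (piC [(nat_lit 35404596), (nat_lit 23859669), (nat_lit 17778567), (nat_lit 12006452)] (nat_lit 19877745)) p15_30_0 (nat_lit 4) (nat_lit 116) (nat_lit 117) = true := by decide +kernel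
def p15_30_0_117 : pfC (piC [(nat_lit 35404596), (nat_lit 23859669), (nat_lit 17778567), (nat_lit 12006452)] (nat_lit 19877745)) p15_30_0 (nat_lit 4) (nat_lit 117) (nat_lit 118) = true := by decide +kernel
def p15_30_0_118 : pfC (piC [(nat_lit 35404596), (nat_lit 23859669), (nat_lit 17778567), (nat_lit 12006452)] (nat_lit 19877745)) p15_30_0 (nat_lit 4) (nat_lit 118) (nat_lit 119) = true := by decide +kernel
def p15_30_0_119 : pfC (piC [(nat_lit 35404596), (nat_lit 23859669), (nat_lit 17778567), (nat_lit 12006452)] (nat_lit 19877745)) p15_30_0 (nat_lit 4) (nat_lit 119) (nat_lit 120) = true := by decide +kernel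
def p15_30_0_120 : pfC (piC [(nat_lit 35404596), (nat_lit 23859669), (nat_lit 17778567), (nat_lit 12006452)] (nat_lit 19877745)) p15_30_0 (nat_lit 4) (nat_lit 120) (nat_lit 121) = true := by decide +kernel
def p15_30_0_121 : pfC (piC [(nat_lit 35404596), (nat_lit 23859669), (nat_lit 17778567), (nat_lit 12006452)] (nat_lit 19877745)) p15_30_0 (nat_lit 4) (nat_lit 121) (nat_lit 122) = true := by decide +kernel
def p15_30_0_122 : pfC (piC [(nat_lit 35404596), (nat_lit 23859669), (nat_lit 17778567), (nat_lit 12006452)] (nat_lit 19877745)) p15_30_0 (nat_lit 4) (nat_lit 122) (nat_lit 123) = true := by decide +kernel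
def p15_30_0_123 : pfC (piC [(nat_lit 35404596), (nat_lit 23859669), (nat_lit 17778567), (nat_lit 12006452)] (nat_lit 19877745)) p15_30_0 (nat_lit 4) (nat_lit 123) (nat_lit 124) = true := by decide +kernel
def p15_30_0_124 : pfC (piC [(nat_lit 35404596), (nat_lit 23859669), (nat_lit 17778567), (nat_lit 12006452)] (nat_lit 19877745)) p15_30_0 (nat_lit 4) (nat_lit 124) (nat_lit 125) = true := by decide +kernel
def p15_30_0_125 : pfC (piC [(nat_lit 35404596), (nat_lit 23859669), (nat_lit 17778567), (nat_lit 12006452)] (nat_lit 19877745)) p15_30_0 (nat_lit 4) (nat_lit 125) (nat_lit 126) = true := by decide +kernel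
def p15_30_0_126 : pfC (piC [(nat_lit 35404596), (nat_lit 23859669), (nat_lit 17778567), (nat_lit 12006452)] (nat_lit 19877745)) p15_30_0 (nat_lit 4) (nat_lit 126) (nat_lit 127) = true := by decide +kernel
def p15_30_0_127 : pfC (piC [(nat_lit 35404596), (nat_lit 23859669), (nat_lit 17778567), (nat_lit 12006452)] (nat_lit 19877745)) p15_30_0 (nat_lit 4) (nat_lit 127) (nat_lit 128) = true := by decide +kernel
def p15_30_0_128 : pfC (piC [(nat_lit 35404596), (nat_lit 23859669), (nat_lit 17778567), (nat_lit 12006452)] (nat_lit 19877745)) p15_30_0 (nat_lit 4) (nat_lit 128) (nat_lit 129) = true := by decide +kernel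
def p15_30_0_129 : pfC (piC [(nat_lit 35404596), (nat_lit 23859669), (nat_lit 17778567), (nat_lit 12006452)] (nat_lit 19877745)) p15_30_0 (nat_lit 4) (nat_lit 129) (nat_lit 130) = true := by decide +kernel
def p15_30_0_130 : pfC (piC [(nat_lit 35404596), (nat_lit 23859669), (nat_lit 17778567), (nat_lit 12006452)] (nat_lit 19877745)) p15_30_0 (nat_lit 4) (nat_lit 130) (nat_lit 131) = true := by decide +kernel
def p15_30_0_131 : pfC (piC [(nat_lit 35404596), (nat_lit 23859669), (nat_lit 17778567), (nat_lit 12006452)] (nat_lit 19877745)) p15_30_0 (nat_lit 4) (nat_lit 131) (nat_lit 132) = true := by decide +kernel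
def p15_30_0_132 : pfC (piC [(nat_lit 35404596), (nat_lit 23859669), (nat_lit 17778567), (nat_lit 12006452)] (nat_lit 19877745)) p15_30_0 (nat_lit 4) (nat_lit 132) (nat_lit 133) = true := by decide +kernel
def p15_30_0_133 : pfC (piC [(nat_lit 35404596), (nat_lit 23859669), (nat_lit 17778567), (nat_lit 12006452)] (nat_lit 19877745)) p15_30_0 (nat_lit 4) (nat_lit 133) (nat_lit 134) = true := by decide +kernel
def p15_30_0_134 : pfC (piC [(nat_lit 35404596), (nat_lit 23859669), (nat_lit 17778567), (nat_lit 12006452)] (nat_lit 19877745)) p15_30_0 (nat_lit 4) (nat_lit 134) (nat_lit 135) = true := by decide +kernel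
def p15_30_0_135 : pfC (piC [(nat_lit 35404596), (nat_lit 23859669), (nat_lit 17778567), (nat_lit 12006452)] (nat_lit 19877745)) p15_30_0 (nat_lit 4) (nat_lit 135) (nat_lit 136) = true := by decide +kernel
def p15_30_0_136 : pfC (piC [(nat_lit 35404596), (nat_lit 23859669), (nat_lit 17778567), (nat_lit 12006452)] (nat_lit 19877745)) p15_30_0 (nat_lit 4) (nat_lit 136) (nat_lit 137) = true := by decide +kernel
def p15_30_0_137 : pfC (piC [(nat_lit 35404596), (nat_lit 23859669), (nat_lit 17778567), (nat_lit 12006452)] (nat_lit 19877745)) p15_30_0 (nat_lit 4) (nat_lit 137) (nat_lit 138) = true := by decide +kernel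
def p15_30_0_138 : pfC (piC [(nat_lit 35404596), (nat_lit 23859669), (nat_lit 17778567), (nat_lit 12006452)] (nat_lit 19877745)) p15_30_0 (nat_lit 4) (nat_lit 138) (nat_lit 139) = true := by decide +kernel
def p15_30_0_139 : pfC (piC [(nat_lit 35404596), (nat_lit 23859669), (nat_lit 17778567), (nat_lit 12006452)] (nat_lit 19877745)) p15_30_0 (nat_lit 4) (nat_lit 139) (nat_lit 140) = true := by decide +kernel
def p15_30_0_140 : pfC (piC [(nat_lit 35404596), (nat_lit 23859669), (nat_lit 17778567), (nat_lit 12006452)] (nat_lit 19877745)) p15_30_0 (nat_lit 4) (nat_lit 140) (nat_lit 141) = true := by decide +kernel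
def p15_30_0_141 : pfC (piC [(nat_lit 35404596), (nat_lit 23859669), (nat_lit 17778567), (nat_lit 12006452)] (nat_lit 19877745)) p15_30_0 (nat_lit 4) (nat_lit 141) (nat_lit 142) = true := by decide +kernel
def p15_30_0_142 : pfC (piC [(nat_lit 35404596), (nat_lit 23859669), (nat_lit 17778567), (nat_lit 12006452)] (nat_lit 19877745)) p15_30_0 (nat_lit 4) (nat_lit 142) (nat_lit 143) = true := by decide +kernel
def p15_30_0_143 : pfC (piC [(nat_lit 35404596), (nat_lit 23859669), (nat_lit 17778567), (nat_lit 12006452)] (nat_lit 19877745)) p15_30_0 (nat_lit 4) (nat_lit 143) (nat_lit 144) = true := by decide +kernel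
def p15_30_0_144 : pfC (piC [(nat_lit 35404596), (nat_lit 23859669), (nat_lit 17778567), (nat_lit 12006452)] (nat_lit 19877745)) p15_30_0 (nat_lit 4) (nat_lit 144) (nat_lit 145) = true := by decide +kernel
def p15_30_0_145 : pfC (piC [(nat_lit 35404596), (nat_lit 23859669), (nat_lit 17778567), (nat_lit 12006452)] (nat_lit 19877745)) p15_30_0 (nat_lit 4) (nat_lit 145) (nat_lit 146) = true := by decide +kernel
def p15_30_0_146 : pfC (piC [(nat_lit 35404596), (nat_lit 23859669), (nat_lit 17778567), (nat_lit 12006452)] (nat_lit 19877745)) p15_30_0 (nat_lit 4) (nat_lit 146) (nat_lit 147) = true := by decide +kernel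
def p15_30_0_147 : pfC (piC [(nat_lit 35404596), (nat_lit 23859669), (nat_lit 17778567), (nat_lit 12006452)] (nat_lit 19877745)) p15_30_0 (nat_lit 4) (nat_lit 147) (nat_lit 148) = true := by decide +kernel
def p15_30_0_148 : pfC (piC [(nat_lit 35404596), (nat_lit 23859669), (nat_lit 17778567), (nat_lit 12006452)] (nat_lit 19877745)) p15_30_0 (nat_lit 4) (nat_lit 148) (nat_lit 149) = true := by decide +kernel
def p15_30_0_149 : pfC (piC [(nat_lit 35404596), (nat_lit 23859669), (nat_lit 17778567), (nat_lit 12006452)] (nat_lit 19877745)) p15_30_0 (nat_lit 4) (nat_lit 149) (nat_lit 150) = true := by decide +kernel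
def p15_30_0_150 : pfC (piC [(nat_lit 35404596), (nat_lit 23859669), (nat_lit 17778567), (nat_lit 12006452)] (nat_lit 19877745)) p15_30_0 (nat_lit 4) (nat_lit 150) (nat_lit 151) = true := by decide +kernel
def p15_30_0_151 : pfC (piC [(nat_lit 35404596), (nat_lit 23859669), (nat_lit 17778567), (nat_lit 12006452)] (nat_lit 19877745)) p15_30_0 (nat_lit 4) (nat_lit 151) (nat_lit 152) = true := by decide +kernel
def p15_30_0_152 : pfC (piC [(nat_lit 35404596), (nat_lit 23859669), (nat_lit 17778567), (nat_lit 12006452)] (nat_lit 19877745)) p15_30_0 (nat_lit 4) (nat_lit 152) (nat_lit 153) = true := by decide +kernel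
def p15_30_0_153 : pfC (piC [(nat_lit 35404596), (nat_lit 23859669), (nat_lit 17778567), (nat_lit 12006452)] (nat_lit 19877745)) p15_30_0 (nat_lit 4) (nat_lit 153) (nat_lit 154) = true := by decide +kernel
def p15_30_0_154 : pfC (piC [(nat_lit 35404596), (nat_lit 23859669), (nat_lit 17778567), (nat_lit 12006452)] (nat_lit 19877745)) p15_30_0 (nat_lit 4) (nat_lit 154) (nat_lit 155) = true := by decide +kernel
def p15_30_0_155 : pfC (piC [(nat_lit 35404596), (nat_lit 23859669), (nat_lit 17778567), (nat_lit 12006452)] (nat_lit 19877745)) p15_30_0 (nat_lit 4) (nat_lit 155) (nat_lit 156) = true := by decide +kernel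
def p15_30_0_156 : pfC (piC [(nat_lit 35404596), (nat_lit 23859669), (nat_lit 17778567), (nat_lit 12006452)] (nat_lit 19877745)) p15_30_0 (nat_lit 4) (nat_lit 156) (nat_lit 157) = true := by decide +kernel
def p15_30_0_157 : pfC (piC [(nat_lit 35404596), (nat_lit 23859669), (nat_lit 17778567), (nat_lit 12006452)] (nat_lit 19877745)) p15_30_0 (nat_lit 4) (nat_lit 157) (nat_lit 158) = true := by decide +kernel
def p15_30_0_158 : pfC (piC [(nat_lit 35404596), (nat_lit 23859669), (nat_lit 17778567), (nat_lit 12006452)] (nat_lit 19877745)) p15_30_0 (nat_lit 4) (nat_lit 158) (nat_lit 159) = true := by decide +kernel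
def p15_30_0_159 : pfC (piC [(nat_lit 35404596), (nat_lit 23859669), (nat_lit 17778567), (nat_lit 12006452)] (nat_lit 19877745)) p15_30_0 (nat_lit 4) (nat_lit 159) (nat_lit 160) = true := by decide +kernel
def p15_30_0_160 : pfC (piC [(nat_lit 35404596), (nat_lit 23859669), (nat_lit 17778567), (nat_lit 12006452)] (nat_lit 19877745)) p15_30_0 (nat_lit 4) (nat_lit 160) (nat_lit 161) = true := by decide +kernel
def p15_30_0_161 : pfC (piC [(nat_lit 35404596), (nat_lit 23859669), (nat_lit 17778567), (nat_lit 12006452)] (nat_lit 19877745)) p15_30_0 (nat_lit 4) (nat_lit 161) (nat_lit 162) = true := by decide +kernel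
def p15_30_0_162 : pfC (piC [(nat_lit 35404596), (nat_lit 23859669), (nat_lit 17778567), (nat_lit 12006452)] (nat_lit 19877745)) p15_30_0 (nat_lit 4) (nat_lit 162) (nat_lit 163) = true := by decide +kernel
def p15_30_0_163 : pfC (piC [(nat_lit 35404596), (nat_lit 23859669), (nat_lit 17778567), (nat_lit 12006452)] (nat_lit 19877745)) p15_30_0 (nat_lit 4) (nat_lit 163) (nat_lit 164) = true := by decide +kernel
def p15_30_0_164 : pfC (piC [(nat_lit 35404596), (nat_lit 23859669), (nat_lit 17778567), (nat_lit 12006452)] (nat_lit 19877745)) p15_30_0 (nat_lit 4) (nat_lit 164) (nat_lit 165) = true := by decide +kernel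
def p15_30_0_165 : pfC (piC [(nat_lit 35404596), (nat_lit 23859669), (nat_lit 17778567), (nat_lit 12006452)] (nat_lit 19877745)) p15_30_0 (nat_lit 4) (nat_lit 165) (nat_lit 166) = true := by decide +kernel
def p15_30_0_166 : pfC (piC [(nat_lit 35404596), (nat_lit 23859669), (nat_lit 17778567), (nat_lit 12006452)] (nat_lit 19877745)) p15_30_0 (nat_lit 4) (nat_lit 166) (nat_lit 167) = true := by decide +kernel
def p15_30_0_167 : pfC (piC [(nat_lit 35404596), (nat_lit 23859669), (nat_lit 17778567), (nat_lit 12006452)] (nat_lit 19877745)) p15_30_0 (nat_lit 4) (nat_lit 167) (nat_lit 168) = true := by decide +kernel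
def p15_30_0_168 : pfC (piC [(nat_lit 35404596), (nat_lit 23859669), (nat_lit 17778567), (nat_lit 12006452)] (nat_lit 19877745)) p15_30_0 (nat_lit 4) (nat_lit 168) (nat_lit 169) = true := by decide +kernel
def p15_30_0_169 : pfC (piC [(nat_lit 35404596), (nat_lit 23859669), (nat_lit 17778567), (nat_lit 12006452)] (nat_lit 19877745)) p15_30_0 (nat_lit 4) (nat_lit 169) (nat_lit 170) = true := by decide +kernel
def p15_30_0_170 : pfC (piC [(nat_lit 35404596), (nat_lit 23859669), (nat_lit 17778567), (nat_lit 12006452)] (nat_lit 19877745)) p15_30_0 (nat_lit 4) (nat_lit 170) (nat_lit 171) = true := by decide +kernel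
def p15_30_0_171 : pfC (piC [(nat_lit 35404596), (nat_lit 23859669), (nat_lit 17778567), (nat_lit 12006452)] (nat_lit 19877745)) p15_30_0 (nat_lit 4) (nat_lit 171) (nat_lit 172) = true := by decide +kernel
def p15_30_0_172 : pfC (piC [(nat_lit 35404596), (nat_lit 23859669), (nat_lit 17778567), (nat_lit 12006452)] (nat_lit 19877745)) p15_30_0 (nat_lit 4) (nat_lit 172) (nat_lit 173) = true := by decide +kernel
def p15_30_0_173 : pfC (piC [(nat_lit 35404596), (nat_lit 23859669), (nat_lit 17778567), (nat_lit 12006452)] (nat_lit 19877745)) p15_30_0 (nat_lit 4) (nat_lit 173) (nat_lit 174) = true := by decide +kernel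
def p15_30_0_174 : pfC (piC [(nat_lit 35404596), (nat_lit 23859669), (nat_lit 17778567), (nat_lit 12006452)] (nat_lit 19877745)) p15_30_0 (nat_lit 4) (nat_lit 174) (nat_lit 175) = true := by decide +kernel
def p15_30_0_175 : pfC (piC [(nat_lit 35404596), (nat_lit 23859669), (nat_lit 17778567), (nat_lit 12006452)] (nat_lit 19877745)) p15_30_0 (nat_lit 4) (nat_lit 175) (nat_lit 176) = true := by decide +kernel
def p15_30_0_176 : pfC (piC [(nat_lit 35404596), (nat_lit 23859669), (nat_lit 17778567), (nat_lit 12006452)] (nat_lit 19877745)) p15_30_0 (nat_lit 4) (nat_lit 176) (nat_lit 177) = true := by decide +kernel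
def p15_30_0_177 : pfC (piC [(nat_lit 35404596), (nat_lit 23859669), (nat_lit 17778567), (nat_lit 12006452)] (nat_lit 19877745)) p15_30_0 (nat_lit 4) (nat_lit 177) (nat_lit 178) = true := by decide +kernel
def p15_30_0_178 : pfC (piC [(nat_lit 35404596), (nat_lit 23859669), (nat_lit 17778567), (nat_lit 12006452)] (nat_lit 19877745)) p15_30_0 (nat_lit 4) (nat_lit 178) (nat_lit 179) = true := by decide +kernel
def p15_30_0_179 : pfC (piC [(nat_lit 35404596), (nat_lit 23859669), (nat_lit 17778567), (nat_lit 12006452)] (nat_lit 19877745)) p15_30_0 (nat_lit 4) (nat_lit 179) (nat_lit 180) = true := by decide +kernel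
def p15_30_0_180 : pfC (piC [(nat_lit 35404596), (nat_lit 23859669), (nat_lit 17778567), (nat_lit 12006452)] (nat_lit 19877745)) p15_30_0 (nat_lit 4) (nat_lit 180) (nat_lit 181) = true := by decide +kernel
def p15_30_0_181 : pfC (piC [(nat_lit 35404596), (nat_lit 23859669), (nat_lit 17778567), (nat_lit 12006452)] (nat_lit 19877745)) p15_30_0 (nat_lit 4) (nat_lit 181) (nat_lit 182) = true := by decide +kernel
def p15_30_0_182 : pfC (piC [(nat_lit 35404596), (nat_lit 23859669), (nat_lit 17778567), (nat_lit 12006452)] (nat_lit 19877745)) p15_30_0 (nat_lit 4) (nat_lit 182) (nat_lit 183) = true := by decide +kernel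
def p15_30_0_183 : pfC (piC [(nat_lit 35404596), (nat_lit 23859669), (nat_lit 17778567), (nat_lit 12006452)] (nat_lit 19877745)) p15_30_0 (nat_lit 4) (nat_lit 183) (nat_lit 184) = true := by decide +kernel
def p15_30_0_184 : pfC (piC [(nat_lit 35404596), (nat_lit 23859669), (nat_lit 17778567), (nat_lit 12006452)] (nat_lit 19877745)) p15_30_0 (nat_lit 4) (nat_lit 184) (nat_lit 185) = true := by decide +kernel
def p15_30_0_185 : pfC (piC [(nat_lit 35404596), (nat_lit 23859669), (nat_lit 17778567), (nat_lit 12006452)] (nat_lit 19877745)) p15_30_0 (nat_lit 4) (nat_lit 185) (nat_lit 186) = true := by decide +kernel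
def p15_30_0_186 : pfC (piC [(nat_lit 35404596), (nat_lit 23859669), (nat_lit 17778567), (nat_lit 12006452)] (nat_lit 19877745)) p15_30_0 (nat_lit 4) (nat_lit 186) (nat_lit 187) = true := by decide +kernel
def p15_30_0_187 : pfC (piC [(nat_lit 35404596), (nat_lit 23859669), (nat_lit 17778567), (nat_lit 12006452)] (nat_lit 19877745)) p15_30_0 (nat_lit 4) (nat_lit 187) (nat_lit 188) = true := by decide +kernel
def p15_30_0_188 : pfC (piC [(nat_lit 35404596), (nat_lit 23859669), (nat_lit 17778567), (nat_lit 12006452)] (nat_lit 19877745)) p15_30_0 (nat_lit 4) (nat_lit 188) (nat_lit 189) = true := by decide +kernel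
def p15_30_0_189 : pfC (piC [(nat_lit 35404596), (nat_lit 23859669), (nat_lit 17778567), (nat_lit 12006452)] (nat_lit 19877745)) p15_30_0 (nat_lit 4) (nat_lit 189) (nat_lit 190) = true := by decide +kernel
def p15_30_0_190 : pfC (piC [(nat_lit 35404596), (nat_lit 23859669), (nat_lit 17778567), (nat_lit 12006452)] (nat_lit 19877745)) p15_30_0 (nat_lit 4) (nat_lit 190) (nat_lit 191) = true := by decide +kernel
def p15_30_0_191 : pfC (piC [(nat_lit 35404596), (nat_lit 23859669), (nat_lit 17778567), (nat_lit 12006452)] (nat_lit 19877745)) p15_30_0 (nat_lit 4) (nat_lit 191) (nat_lit 192) = true := by decide +kernel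
def p15_30_0_192 : pfC (piC [(nat_lit 35404596), (nat_lit 23859669), (nat_lit 17778567), (nat_lit 12006452)] (nat_lit 19877745)) p15_30_0 (nat_lit 4) (nat_lit 192) (nat_lit 193) = true := by decide +kernel
def p15_30_0_193 : pfC (piC [(nat_lit 35404596), (nat_lit 23859669), (nat_lit 17778567), (nat_lit 12006452)] (nat_lit 19877745)) p15_30_0 (nat_lit 4) (nat_lit 193) (nat_lit 194) = true := by decide +kernel
def p15_30_0_194 : pfC (piC [(nat_lit 35404596), (nat_lit 23859669), (nat_lit 17778567), (nat_lit 12006452)] (nat_lit 19877745)) p15_30_0 (nat_lit 4) (nat_lit 194) (nat_lit 195) = true := by decide +kernel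
def p15_30_0_195 : pfC (piC [(nat_lit 35404596), (nat_lit 23859669), (nat_lit 17778567), (nat_lit 12006452)] (nat_lit 19877745)) p15_30_0 (nat_lit 4) (nat_lit 195) (nat_lit 196) = true := by decide +kernel
def p15_30_0_196 : pfC (piC [(nat_lit 35404596), (nat_lit 23859669), (nat_lit 17778567), (nat_lit 12006452)] (nat_lit 19877745)) p15_30_0 (nat_lit 4) (nat_lit 196) (nat_lit 197) = true := by decide +kernel
def p15_30_0_197 : pfC (piC [(nat_lit 35404596), (nat_lit 23859669), (nat_lit 17778567), (nat_lit 12006452)] (nat_lit 19877745)) p15_30_0 (nat_lit 4) (nat_lit 197) (nat_lit 198) = true := by decide +kernel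
def p15_30_0_198 : pfC (piC [(nat_lit 35404596), (nat_lit 23859669), (nat_lit 17778567), (nat_lit 12006452)] (nat_lit 19877745)) p15_30_0 (nat_lit 4) (nat_lit 198) (nat_lit 199) = true := by decide +kernel
def p15_30_0_199 : pfC (piC [(nat_lit 35404596), (nat_lit 23859669), (nat_lit 17778567), (nat_lit 12006452)] (nat_lit 19877745)) p15_30_0 (nat_lit 4) (nat_lit 199) (nat_lit 200) = true := by decide +kernel
def p15_30_0_200 : pfC (piC [(nat_lit 35404596), (nat_lit 23859669), (nat_lit 17778567), (nat_lit 12006452)] (nat_lit 19877745)) p15_30_0 (nat_lit 4) (nat_lit 200) (nat_lit 201) = true := by decide +kernel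
def p15_30_0_201 : pfC (piC [(nat_lit 35404596), (nat_lit 23859669), (nat_lit 17778567), (nat_lit 12006452)] (nat_lit 19877745)) p15_30_0 (nat_lit 4) (nat_lit 201) (nat_lit 202) = true := by decide +kernel
def p15_30_0_202 : pfC (piC [(nat_lit 35404596), (nat_lit 23859669), (nat_lit 17778567), (nat_lit 12006452)] (nat_lit 19877745)) p15_30_0 (nat_lit 4) (nat_lit 202) (nat_lit 203) = true := by decide +kernel
def p15_30_0_203 : pfC (piC [(nat_lit 35404596), (nat_lit 23859669), (nat_lit 17778567), (nat_lit 12006452)] (nat_lit 19877745)) p15_30_0 (nat_lit 4) (nat_lit 203) (nat_lit 204) = true := by decide +kernel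
def p15_30_0_204 : pfC (piC [(nat_lit 35404596), (nat_lit 23859669), (nat_lit 17778567), (nat_lit 12006452)] (nat_lit 19877745)) p15_30_0 (nat_lit 4) (nat_lit 204) (nat_lit 205) = true := by decide +kernel
def p15_30_0_205 : pfC (piC [(nat_lit 35404596), (nat_lit 23859669), (nat_lit 17778567), (nat_lit 12006452)] (nat_lit 19877745)) p15_30_0 (nat_lit 4) (nat_lit 205) (nat_lit 206) = true := by decide +kernel
def p15_30_0_206 : pfC (piC [(nat_lit 35404596), (nat_lit 23859669), (nat_lit 17778567), (nat_lit 12006452)] (nat_lit 19877745)) p15_30_0 (nat_lit 4) (nat_lit 206) (nat_lit 207) = true := by decide +kernel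
def p15_30_0_207 : pfC (piC [(nat_lit 35404596), (nat_lit 23859669), (nat_lit 17778567), (nat_lit 12006452)] (nat_lit 19877745)) p15_30_0 (nat_lit 4) (nat_lit 207) (nat_lit 208) = true := by decide +kernel
def p15_30_0_208 : pfC (piC [(nat_lit 35404596), (nat_lit 23859669), (nat_lit 17778567), (nat_lit 12006452)] (nat_lit 19877745)) p15_30_0 (nat_lit 4) (nat_lit 208) (nat_lit 209) = true := by decide +kernel
def p15_30_0_209 : pfC (piC [(nat_lit 35404596), (nat_lit 23859669), (nat_lit 17778567), (nat_lit 12006452)] (nat_lit 19877745)) p15_30_0 (nat_lit 4) (nat_lit 209) (nat_lit 210) = true := by decide +kernel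
def p15_30_0_210 : pfC (piC [(nat_lit 35404596), (nat_lit 23859669), (nat_lit 17778567), (nat_lit 12006452)] (nat_lit 19877745)) p15_30_0 (nat_lit 4) (nat_lit 210) (nat_lit 211) = true := by decide +kernel
def p15_30_0_211 : pfC (piC [(nat_lit 35404596), (nat_lit 23859669), (nat_lit 17778567), (nat_lit 12006452)] (nat_lit 19877745)) p15_30_0 (nat_lit 4) (nat_lit 211) (nat_lit 212) = true := by decide +kernel
def p15_30_0_212 : pfC (piC [(nat_lit 35404596), (nat_lit 23859669), (nat_lit 17778567), (nat_lit 12006452)] (nat_lit 19877745)) p15_30_0 (nat_lit 4) (nat_lit 212) (nat_lit 213) = true := by decide +kernel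
def p15_30_0_213 : pfC (piC [(nat_lit 35404596), (nat_lit 23859669), (nat_lit 17778567), (nat_lit 12006452)] (nat_lit 19877745)) p15_30_0 (nat_lit 4) (nat_lit 213) (nat_lit 214) = true := by decide +kernel
def p15_30_0_214 : pfC (piC [(nat_lit 35404596), (nat_lit 23859669), (nat_lit 17778567), (nat_lit 12006452)] (nat_lit 19877745)) p15_30_0 (nat_lit 4) (nat_lit 214) (nat_lit 215) = true := by decide +kernel
def p15_30_0_215 : pfC (piC [(nat_lit 35404596), (nat_lit 23859669), (nat_lit 17778567), (nat_lit 12006452)] (nat_lit 19877745)) p15_30_0 (nat_lit 4) (nat_lit 215) (nat_lit 216) = true := by decide +kernel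
def p15_30_0_216 : pfC (piC [(nat_lit 35404596), (nat_lit 23859669), (nat_lit 17778567), (nat_lit 12006452)] (nat_lit 19877745)) p15_30_0 (nat_lit 4) (nat_lit 216) (nat_lit 217) = true := by decide +kernel
def p15_30_0_217 : pfC (piC [(nat_lit 35404596), (nat_lit 23859669), (nat_lit 17778567), (nat_lit 12006452)] (nat_lit 19877745)) p15_30_0 (nat_lit 4) (nat_lit 217) (nat_lit 218) = true := by decide +kernel
def p15_30_0_218 : pfC (piC [(nat_lit 35404596), (nat_lit 23859669), (nat_lit 17778567), (nat_lit 12006452)] (nat_lit 19877745)) p15_30_0 (nat_lit 4) (nat_lit 218) (nat_lit 219) = true := by decide +kernel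
def p15_30_0_219 : pfC (piC [(nat_lit 35404596), (nat_lit 23859669), (nat_lit 17778567), (nat_lit 12006452)] (nat_lit 19877745)) p15_30_0 (nat_lit 4) (nat_lit 219) (nat_lit 220) = true := by decide +kernel
def p15_30_0_220 : pfC (piC [(nat_lit 35404596), (nat_lit 23859669), (nat_lit 17778567), (nat_lit 12006452)] (nat_lit 19877745)) p15_30_0 (nat_lit 4) (nat_lit 220) (nat_lit 221) = true := by decide +kernel
def p15_30_0_221 : pfC (piC [(nat_lit 35404596), (nat_lit 23859669), (nat_lit 17778567), (nat_lit 12006452)] (nat_lit 19877745)) p15_30_0 (nat_lit 4) (nat_lit 221) (nat_lit 222) = true := by decide +kernel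
def p15_30_0_222 : pfC (piC [(nat_lit 35404596), (nat_lit 23859669), (nat_lit 17778567), (nat_lit 12006452)] (nat_lit 19877745)) p15_30_0 (nat_lit 4) (nat_lit 222) (nat_lit 223) = true := by decide +kernel
def p15_30_0_223 : pfC (piC [(nat_lit 35404596), (nat_lit 23859669), (nat_lit 17778567), (nat_lit 12006452)] (nat_lit 19877745)) p15_30_0 (nat_lit 4) (nat_lit 223) (nat_lit 224) = true := by decide +kernel
def p15_30_0_224 : pfC (piC [(nat_lit 35404596), (nat_lit 23859669), (nat_lit 17778567), (nat_lit 12006452)] (nat_lit 19877745)) p15_30_0 (nat_lit 4) (nat_lit 224) (nat_lit 225) = true := by decide +kernel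
def p15_30_0_225 : pfC (piC [(nat_lit 35404596), (nat_lit 23859669), (nat_lit 17778567), (nat_lit 12006452)] (nat_lit 19877745)) p15_30_0 (nat_lit 4) (nat_lit 225) (nat_lit 226) = true := by decide +kernel
def p15_30_0_226 : pfC (piC [(nat_lit 35404596), (nat_lit 23859669), (nat_lit 17778567), (nat_lit 12006452)] (nat_lit 19877745)) p15_30_0 (nat_lit 4) (nat_lit 226) (nat_lit 227) = true := by decide +kernel
def p15_30_0_227 : pfC (piC [(nat_lit 35404596), (nat_lit 23859669), (nat_lit 17778567), (nat_lit 12006452)] (nat_lit 19877745)) p15_30_0 (nat_lit 4) (nat_lit 227) (nat_lit 228) = true := by decide +kernel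
def p15_30_0_228 : pfC (piC [(nat_lit 35404596), (nat_lit 23859669), (nat_lit 17778567), (nat_lit 12006452)] (nat_lit 19877745)) p15_30_0 (nat_lit 4) (nat_lit 228) (nat_lit 229) = true := by decide +kernel
def p15_30_0_229 : pfC (piC [(nat_lit 35404596), (nat_lit 23859669), (nat_lit 17778567), (nat_lit 12006452)] (nat_lit 19877745)) p15_30_0 (nat_lit 4) (nat_lit 229) (nat_lit 230) = true := by decide +kernel
def p15_30_0_230 : pfC (piC [(nat_lit 35404596), (nat_lit 23859669), (nat_lit 17778567), (nat_lit 12006452)] (nat_lit 19877745)) p15_30_0 (nat_lit 4) (nat_lit 230) (nat_lit 231) = true := by decide +kernel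
def p15_30_0_231 : pfC (piC [(nat_lit 35404596), (nat_lit 23859669), (nat_lit 17778567), (nat_lit 12006452)] (nat_lit 19877745)) p15_30_0 (nat_lit 4) (nat_lit 231) (nat_lit 232) = true := by decide +kernel
def p15_30_0_232 : pfC (piC [(nat_lit 35404596), (nat_lit 23859669), (nat_lit 17778567), (nat_lit 12006452)] (nat_lit 19877745)) p15_30_0 (nat_lit 4) (nat_lit 232) (nat_lit 233) = true := by decide +kernel
def p15_30_0_233 : pfC (piC [(nat_lit 35404596), (nat_lit 23859669), (nat_lit 17778567), (nat_lit 12006452)] (nat_lit 19877745)) p15_30_0 (nat_lit 4) (nat_lit 233) (nat_lit 234) = true := by decide +kernel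
def p15_30_0_234 : pfC (piC [(nat_lit 35404596), (nat_lit 23859669), (nat_lit 17778567), (nat_lit 12006452)] (nat_lit 19877745)) p15_30_0 (nat_lit 4) (nat_lit 234) (nat_lit 235) = true := by decide +kernel
def p15_30_0_235 : pfC (piC [(nat_lit 35404596), (nat_lit 23859669), (nat_lit 17778567), (nat_lit 12006452)] (nat_lit 19877745)) p15_30_0 (nat_lit 4) (nat_lit 235) (nat_lit 236) = true := by decide +kernel
def p15_30_0_236 : pfC (piC [(nat_lit 35404596), (nat_lit 23859669), (nat_lit 17778567), (nat_lit 12006452)] (nat_lit 19877745)) p15_30_0 (nat_lit 4) (nat_lit 236) (nat_lit 237) = true := by decide +kernel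
def p15_30_0_237 : pfC (piC [(nat_lit 35404596), (nat_lit 23859669), (nat_lit 17778567), (nat_lit 12006452)] (nat_lit 19877745)) p15_30_0 (nat_lit 4) (nat_lit 237) (nat_lit 238) = true := by decide +kernel
def p15_30_0_238 : pfC (piC [(nat_lit 35404596), (nat_lit 23859669), (nat_lit 17778567), (nat_lit 12006452)] (nat_lit 19877745)) p15_30_0 (nat_lit 4) (nat_lit 238) (nat_lit 239) = true := by decide +kernel
def p15_30_0_239 : pfC (piC [(nat_lit 35404596), (nat_lit 23859669), (nat_lit 17778567), (nat_lit 12006452)] (nat_lit 19877745)) p15_30_0 (nat_lit 4) (nat_lit 239) (nat_lit 240) = true := by decide +kernel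
def p15_30_0_240 : pfC (piC [(nat_lit 35404596), (nat_lit 23859669), (nat_lit 17778567), (nat_lit 12006452)] (nat_lit 19877745)) p15_30_0 (nat_lit 4) (nat_lit 240) (nat_lit 241) = true := by decide +kernel
def p15_30_0_241 : pfC (piC [(nat_lit 35404596), (nat_lit 23859669), (nat_lit 17778567), (nat_lit 12006452)] (nat_lit 19877745)) p15_30_0 (nat_lit 4) (nat_lit 241) (nat_lit 242) = true := by decide +kernel
def p15_30_0_242 : pfC (piC [(nat_lit 35404596), (nat_lit 23859669), (nat_lit 17778567), (nat_lit 12006452)] (nat_lit 19877745)) p15_30_0 (nat_lit 4) (nat_lit 242) (nat_lit 243) = true := by decide +kernel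
def p15_30_0_243 : pfC (piC [(nat_lit 35404596), (nat_lit 23859669), (nat_lit 17778567), (nat_lit 12006452)] (nat_lit 19877745)) p15_30_0 (nat_lit 4) (nat_lit 243) (nat_lit 244) = true := by decide +kernel
def p15_30_0_244 : pfC (piC [(nat_lit 35404596), (nat_lit 23859669), (nat_lit 17778567), (nat_lit 12006452)] (nat_lit 19877745)) p15_30_0 (nat_lit 4) (nat_lit 244) (nat_lit 245) = true := by decide +kernel
def p15_30_0_245 : pfC (piC [(nat_lit 35404596), (nat_lit 23859669), (nat_lit 17778567), (nat_lit 12006452)] (nat_lit 19877745)) p15_30_0 (nat_lit 4) (nat_lit 245) (nat_lit 246) = true := by decide +kernel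
def p15_30_0_246 : pfC (piC [(nat_lit 35404596), (nat_lit 23859669), (nat_lit 17778567), (nat_lit 12006452)] (nat_lit 19877745)) p15_30_0 (nat_lit 4) (nat_lit 246) (nat_lit 247) = true := by decide +kernel
def p15_30_0_247 : pfC (piC [(nat_lit 35404596), (nat_lit 23859669), (nat_lit 17778567), (nat_lit 12006452)] (nat_lit 19877745)) p15_30_0 (nat_lit 4) (nat_lit 247) (nat_lit 248) = true := by decide +kernel
def p15_30_0_248 : pfC (piC [(nat_lit 35404596), (nat_lit 23859669), (nat_lit 17778567), (nat_lit 12006452)] (nat_lit 19877745)) p15_30_0 (nat_lit 4) (nat_lit 248) (nat_lit 249) = true := by decide +kernel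
def p15_30_0_249 : pfC (piC [(nat_lit 35404596), (nat_lit 23859669), (nat_lit 17778567), (nat_lit 12006452)] (nat_lit 19877745)) p15_30_0 (nat_lit 4) (nat_lit 249) (nat_lit 250) = true := by decide +kernel
def p15_30_0_250 : pfC (piC [(nat_lit 35404596), (nat_lit 23859669), (nat_lit 17778567), (nat_lit 12006452)] (nat_lit 19877745)) p15_30_0 (nat_lit 4) (nat_lit 250) (nat_lit 251) = true := by decide +kernel
def p15_30_0_251 : pfC (piC [(nat_lit 35404596), (nat_lit 23859669), (nat_lit 17778567), (nat_lit 12006452)] (nat_lit 19877745)) p15_30_0 (nat_lit 4) (nat_lit 251) (nat_lit 252) = true := by decide +kernel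
def p15_30_0_252 : pfC (piC [(nat_lit 35404596), (nat_lit 23859669), (nat_lit 17778567), (nat_lit 12006452)] (nat_lit 19877745)) p15_30_0 (nat_lit 4) (nat_lit 252) (nat_lit 253) = true := by decide +kernel
def p15_30_0_253 : pfC (piC [(nat_lit 35404596), (nat_lit 23859669), (nat_lit 17778567), (nat_lit 12006452)] (nat_lit 19877745)) p15_30_0 (nat_lit 4) (nat_lit 253) (nat_lit 254) = true := by decide +kernel
def p15_30_0_254 : pfC (piC [(nat_lit 35404596), (nat_lit 23859669), (nat_lit 17778567), (nat_lit 12006452)] (nat_lit 19877745)) p15_30_0 (nat_lit 4) (nat_lit 254) (nat_lit 255) = true := by decide +kernel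
def p15_30_0_255 : pfC (piC [(nat_lit 35404596), (nat_lit 23859669), (nat_lit 17778567), (nat_lit 12006452)] (nat_lit 19877745)) p15_30_0 (nat_lit 4) (nat_lit 255) (nat_lit 256) = true := by decide +kernel
def p15_30_0_256 : pfC (piC [(nat_lit 35404596), (nat_lit 23859669), (nat_lit 17778567), (nat_lit 12006452)] (nat_lit 19877745)) p15_30_0 (nat_lit 4) (nat_lit 256) (nat_lit 257) = true := by decide +kernel
def p15_30_0_257 : pfC (piC [(nat_lit 35404596), (nat_lit 23859669), (nat_lit 17778567), (nat_lit 12006452)] (nat_lit 19877745)) p15_30_0 (nat_lit 4) (nat_lit 257) (nat_lit 258) = true := by decide +kernel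
def p15_30_0_258 : pfC (piC [(nat_lit 35404596), (nat_lit 23859669), (nat_lit 17778567), (nat_lit 12006452)] (nat_lit 19877745)) p15_30_0 (nat_lit 4) (nat_lit 258) (nat_lit 259) = true := by decide +kernel
def p15_30_0_259 : pfC (piC [(nat_lit 35404596), (nat_lit 23859669), (nat_lit 17778567), (nat_lit 12006452)] (nat_lit 19877745)) p15_30_0 (nat_lit 4) (nat_lit 259) (nat_lit 260) = true := by decide +kernel
def p15_30_0_260 : pfC (piC [(nat_lit 35404596), (nat_lit 23859669), (nat_lit 17778567), (nat_lit 12006452)] (nat_lit 19877745)) p15_30_0 (nat_lit 4) (nat_lit 260) (nat_lit 261) = true := by decide +kernel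
def p15_30_0_261 : pfC (piC [(nat_lit 35404596), (nat_lit 23859669), (nat_lit 17778567), (nat_lit 12006452)] (nat_lit 19877745)) p15_30_0 (nat_lit 4) (nat_lit 261) (nat_lit 262) = true := by decide +kernel
def p15_30_0_262 : pfC (piC [(nat_lit 35404596), (nat_lit 23859669), (nat_lit 17778567), (nat_lit 12006452)] (nat_lit 19877745)) p15_30_0 (nat_lit 4) (nat_lit 262) (nat_lit 263) = true := by decide +kernel
def p15_30_0_263 : pfC (piC [(nat_lit 35404596), (nat_lit 23859669), (nat_lit 17778567), (nat_lit 12006452)] (nat_lit 19877745)) p15_30_0 (nat_lit 4) (nat_lit 263) (nat_lit 264) = true := by decide +kernel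
def p15_30_0_264 : pfC (piC [(nat_lit 35404596), (nat_lit 23859669), (nat_lit 17778567), (nat_lit 12006452)] (nat_lit 19877745)) p15_30_0 (nat_lit 4) (nat_lit 264) (nat_lit 265) = true := by decide +kernel
def p15_30_0_265 : pfC (piC [(nat_lit 35404596), (nat_lit 23859669), (nat_lit 17778567), (nat_lit 12006452)] (nat_lit 19877745)) p15_30_0 (nat_lit 4) (nat_lit 265) (nat_lit 266) = true := by decide +kernel
def p15_30_0_266 : pfC (piC [(nat_lit 35404596), (nat_lit 23859669), (nat_lit 17778567), (nat_lit 12006452)] (nat_lit 19877745)) p15_30_0 (nat_lit 4) (nat_lit 266) (nat_lit 267) = true := by decide +kernel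
def p15_30_0_267 : pfC (piC [(nat_lit 35404596), (nat_lit 23859669), (nat_lit 17778567), (nat_lit 12006452)] (nat_lit 19877745)) p15_30_0 (nat_lit 4) (nat_lit 267) (nat_lit 268) = true := by decide +kernel
def p15_30_0_268 : pfC (piC [(nat_lit 35404596), (nat_lit 23859669), (nat_lit 17778567), (nat_lit 12006452)] (nat_lit 19877745)) p15_30_0 (nat_lit 4) (nat_lit 268) (nat_lit 269) = true := by decide +kernel
def p15_30_0_269 : pfC (piC [(nat_lit 35404596), (nat_lit 23859669), (nat_lit 17778567), (nat_lit 12006452)] (nat_lit 19877745)) p15_30_0 (nat_lit 4) (nat_lit 269) (nat_lit 270) = true := by decide +kernel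
def p15_30_0_270 : pfC (piC [(nat_lit 35404596), (nat_lit 23859669), (nat_lit 17778567), (nat_lit 12006452)] (nat_lit 19877745)) p15_30_0 (nat_lit 4) (nat_lit 270) (nat_lit 271) = true := by decide +kernel
def p15_30_0_271 : pfC (piC [(nat_lit 35404596), (nat_lit 23859669), (nat_lit 17778567), (nat_lit 12006452)] (nat_lit 19877745)) p15_30_0 (nat_lit 4) (nat_lit 271) (nat_lit 272) = true := by decide +kernel
def p15_30_0_272 : pfC (piC [(nat_lit 35404596), (nat_lit 23859669), (nat_lit 17778567), (nat_lit 12006452)] (nat_lit 19877745)) p15_30_0 (nat_lit 4) (nat_lit 272) (nat_lit 273) = true := by decide +kernel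
def p15_30_0_273 : pfC (piC [(nat_lit 35404596), (nat_lit 23859669), (nat_lit 17778567), (nat_lit 12006452)] (nat_lit 19877745)) p15_30_0 (nat_lit 4) (nat_lit 273) (nat_lit 274) = true := by decide +kernel
def p15_30_0_274 : pfC (piC [(nat_lit 35404596), (nat_lit 23859669), (nat_lit 17778567), (nat_lit 12006452)] (nat_lit 19877745)) p15_30_0 (nat_lit 4) (nat_lit 274) (nat_lit 275) = true := by decide +kernel
def p15_30_0_275 : pfC (piC [(nat_lit 35404596), (nat_lit 23859669), (nat_lit 17778567), (nat_lit 12006452)] (nat_lit 19877745)) p15_30_0 (nat_lit 4) (nat_lit 275) (nat_lit 276) = true := by decide +kernel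
def p15_30_0_276 : pfC (piC [(nat_lit 35404596), (nat_lit 23859669), (nat_lit 17778567), (nat_lit 12006452)] (nat_lit 19877745)) p15_30_0 (nat_lit 4) (nat_lit 276) (nat_lit 277) = true := by decide +kernel
def p15_30_0_277 : pfC (piC [(nat_lit 35404596), (nat_lit 23859669), (nat_lit 17778567), (nat_lit 12006452)] (nat_lit 19877745)) p15_30_0 (nat_lit 4) (nat_lit 277) (nat_lit 278) = true := by decide +kernel
def p15_30_0_278 : pfC (piC [(nat_lit 35404596), (nat_lit 23859669), (nat_lit 17778567), (nat_lit 12006452)] (nat_lit 19877745)) p15_30_0 (nat_lit 4) (nat_lit 278) (nat_lit 279) = true := by decide +kernel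
def p15_30_0_279 : pfC (piC [(nat_lit 35404596), (nat_lit 23859669), (nat_lit 17778567), (nat_lit 12006452)] (nat_lit 19877745)) p15_30_0 (nat_lit 4) (nat_lit 279) (nat_lit 280) = true := by decide +kernel
def p15_30_0_280 : pfC (piC [(nat_lit 35404596), (nat_lit 23859669), (nat_lit 17778567), (nat_lit 12006452)] (nat_lit 19877745)) p15_30_0 (nat_lit 4) (nat_lit 280) (nat_lit 281) = true := by decide +kernel
def p15_30_0_281 : pfC (piC [(nat_lit 35404596), (nat_lit 23859669), (nat_lit 17778567), (nat_lit 12006452)] (nat_lit 19877745)) p15_30_0 (nat_lit 4) (nat_lit 281) (nat_lit 282) = true := by decide +kernel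
def p15_30_0_282 : pfC (piC [(nat_lit 35404596), (nat_lit 23859669), (nat_lit 17778567), (nat_lit 12006452)] (nat_lit 19877745)) p15_30_0 (nat_lit 4) (nat_lit 282) (nat_lit 283) = true := by decide +kernel
def p15_30_0_283 : pfC (piC [(nat_lit 35404596), (nat_lit 23859669), (nat_lit 17778567), (nat_lit 12006452)] (nat_lit 19877745)) p15_30_0 (nat_lit 4) (nat_lit 283) (nat_lit 284) = true := by decide +kernel
def p15_30_0_284 : pfC (piC [(nat_lit 35404596), (nat_lit 23859669), (nat_lit 17778567), (nat_lit 12006452)] (nat_lit 19877745)) p15_30_0 (nat_lit 4) (nat_lit 284) (nat_lit 285) = true := by decide +kernel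
def p15_30_0_285 : pfC (piC [(nat_lit 35404596), (nat_lit 23859669), (nat_lit 17778567), (nat_lit 12006452)] (nat_lit 19877745)) p15_30_0 (nat_lit 4) (nat_lit 285) (nat_lit 286) = true := by decide +kernel
def p15_30_0_286 : pfC (piC [(nat_lit 35404596), (nat_lit 23859669), (nat_lit 17778567), (nat_lit 12006452)] (nat_lit 19877745)) p15_30_0 (nat_lit 4) (nat_lit 286) (nat_lit 287) = true := by decide +kernel
def p15_30_0_287 : pfC (piC [(nat_lit 35404596), (nat_lit 23859669), (nat_lit 17778567), (nat_lit 12006452)] (nat_lit 19877745)) p15_30_0 (nat_lit 4) (nat_lit 287) (nat_lit 288) = true := by decide +kernel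
def p15_30_0_288 : pfC (piC [(nat_lit 35404596), (nat_lit 23859669), (nat_lit 17778567), (nat_lit 12006452)] (nat_lit 19877745)) p15_30_0 (nat_lit 4) (nat_lit 288) (nat_lit 289) = true := by decide +kernel
def p15_30_0_289 : pfC (piC [(nat_lit 35404596), (nat_lit 23859669), (nat_lit 17778567), (nat_lit 12006452)] (nat_lit 19877745)) p15_30_0 (nat_lit 4) (nat_lit 289) (nat_lit 290) = true := by decide +kernel
def p15_30_0_290 : pfC (piC [(nat_lit 35404596), (nat_lit 23859669), (nat_lit 17778567), (nat_lit 12006452)] (nat_lit 19877745)) p15_30_0 (nat_lit 4) (nat_lit 290) (nat_lit 291) = true := by decide +kernel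
def p15_30_0_291 : pfC (piC [(nat_lit 35404596), (nat_lit 23859669), (nat_lit 17778567), (nat_lit 12006452)] (nat_lit 19877745)) p15_30_0 (nat_lit 4) (nat_lit 291) (nat_lit 292) = true := by decide +kernel
def p15_30_0_292 : pfC (piC [(nat_lit 35404596), (nat_lit 23859669), (nat_lit 17778567), (nat_lit 12006452)] (nat_lit 19877745)) p15_30_0 (nat_lit 4) (nat_lit 292) (nat_lit 293) = true := by decide +kernel
def p15_30_0_293 : pfC (piC [(nat_lit 35404596), (nat_lit 23859669), (nat_lit 17778567), (nat_lit 12006452)] (nat_lit 19877745)) p15_30_0 (nat_lit 4) (nat_lit 293) (nat_lit 294) = true := by decide +kernel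
def p15_30_0_294 : pfC (piC [(nat_lit 35404596), (nat_lit 23859669), (nat_lit 17778567), (nat_lit 12006452)] (nat_lit 19877745)) p15_30_0 (nat_lit 4) (nat_lit 294) (nat_lit 295) = true := by decide +kernel
def p15_30_0_295 : pfC (piC [(nat_lit 35404596), (nat_lit 23859669), (nat_lit 17778567), (nat_lit 12006452)] (nat_lit 19877745)) p15_30_0 (nat_lit 4) (nat_lit 295) (nat_lit 296) = true := by decide +kernel
def p15_30_0_296 : pfC (piC [(nat_lit 35404596), (nat_lit 23859669), (nat_lit 17778567), (nat_lit 12006452)] (nat_lit 19877745)) p15_30_0 (nat_lit 4) (nat_lit 296) (nat_lit 297) = true := by decide +kernel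
def p15_30_0_297 : pfC (piC [(nat_lit 35404596), (nat_lit 23859669), (nat_lit 17778567), (nat_lit 12006452)] (nat_lit 19877745)) p15_30_0 (nat_lit 4) (nat_lit 297) (nat_lit 298) = true := by decide +kernel
def p15_30_0_298 : pfC (piC [(nat_lit 35404596), (nat_lit 23859669), (nat_lit 17778567), (nat_lit 12006452)] (nat_lit 19877745)) p15_30_0 (nat_lit 4) (nat_lit 298) (nat_lit 299) = true := by decide +kernel
def p15_30_0_299 : pfC (piC [(nat_lit 35404596), (nat_lit 23859669), (nat_lit 17778567), (nat_lit 12006452)] (nat_lit 19877745)) p15_30_0 (nat_lit 4) (nat_lit 299) (nat_lit 300) = true := by decide +kernel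
def p15_30_0_300 : pfC (piC [(nat_lit 35404596), (nat_lit 23859669), (nat_lit 17778567), (nat_lit 12006452)] (nat_lit 19877745)) p15_30_0 (nat_lit 4) (nat_lit 300) (nat_lit 301) = true := by decide +kernel
def p15_30_0_301 : pfC (piC [(nat_lit 35404596), (nat_lit 23859669), (nat_lit 17778567), (nat_lit 12006452)] (nat_lit 19877745)) p15_30_0 (nat_lit 4) (nat_lit 301) (nat_lit 302) = true := by decide +kernel
def p15_30_0_302 : pfC (piC [(nat_lit 35404596), (nat_lit 23859669), (nat_lit 17778567), (nat_lit 12006452)] (nat_lit 19877745)) p15_30_0 (nat_lit 4) (nat_lit 302) (nat_lit 303) = true := by decide +kernel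
def p15_30_0_303 : pfC (piC [(nat_lit 35404596), (nat_lit 23859669), (nat_lit 17778567), (nat_lit 12006452)] (nat_lit 19877745)) p15_30_0 (nat_lit 4) (nat_lit 303) (nat_lit 304) = true := by decide +kernel
def p15_30_0_304 : pfC (piC [(nat_lit 35404596), (nat_lit 23859669), (nat_lit 17778567), (nat_lit 12006452)] (nat_lit 19877745)) p15_30_0 (nat_lit 4) (nat_lit 304) (nat_lit 305) = true := by decide +kernel
def p15_30_0_305 : pfC (piC [(nat_lit 35404596), (nat_lit 23859669), (nat_lit 17778567), (nat_lit 12006452)] (nat_lit 19877745)) p15_30_0 (nat_lit 4) (nat_lit 305) (nat_lit 306) = true := by decide +kernel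
def p15_30_0_306 : pfC (piC [(nat_lit 35404596), (nat_lit 23859669), (nat_lit 17778567), (nat_lit 12006452)] (nat_lit 19877745)) p15_30_0 (nat_lit 4) (nat_lit 306) (nat_lit 307) = true := by decide +kernel
def p15_30_0_307 : pfC (piC [(nat_lit 35404596), (nat_lit 23859669), (nat_lit 17778567), (nat_lit 12006452)] (nat_lit 19877745)) p15_30_0 (nat_lit 4) (nat_lit 307) (nat_lit 308) = true := by decide +kernel
def p15_30_0_308 : pfC (piC [(nat_lit 35404596), (nat_lit 23859669), (nat_lit 17778567), (nat_lit 12006452)] (nat_lit 19877745)) p15_30_0 (nat_lit 4) (nat_lit 308) (nat_lit 309) = true := by decide +kernel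
def p15_30_0_309 : pfC (piC [(nat_lit 35404596), (nat_lit 23859669), (nat_lit 17778567), (nat_lit 12006452)] (nat_lit 19877745)) p15_30_0 (nat_lit 4) (nat_lit 309) (nat_lit 310) = true := by decide +kernel
def p15_30_0_310 : pfC (piC [(nat_lit 35404596), (nat_lit 23859669), (nat_lit 17778567), (nat_lit 12006452)] (nat_lit 19877745)) p15_30_0 (nat_lit 4) (nat_lit 310) (nat_lit 311) = true := by decide +kernel
def p15_30_0_311 : pfC (piC [(nat_lit 35404596), (nat_lit 23859669), (nat_lit 17778567), (nat_lit 12006452)] (nat_lit 19877745)) p15_30_0 (nat_lit 4) (nat_lit 311) (nat_lit 312) = true := by decide +kernel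
def p15_30_0_312 : pfC (piC [(nat_lit 35404596), (nat_lit 23859669), (nat_lit 17778567), (nat_lit 12006452)] (nat_lit 19877745)) p15_30_0 (nat_lit 4) (nat_lit 312) (nat_lit 313) = true := by decide +kernel
def p15_30_0_313 : pfC (piC [(nat_lit 35404596), (nat_lit 23859669), (nat_lit 17778567), (nat_lit 12006452)] (nat_lit 19877745)) p15_30_0 (nat_lit 4) (nat_lit 313) (nat_lit 314) = true := by decide +kernel
def p15_30_0_314 : pfC (piC [(nat_lit 35404596), (nat_lit 23859669), (nat_lit 17778567), (nat_lit 12006452)] (nat_lit 19877745)) p15_30_0 (nat_lit 4) (nat_lit 314) (nat_lit 315) = true := by decide +kernel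
def p15_30_0_315 : pfC (piC [(nat_lit 35404596), (nat_lit 23859669), (nat_lit 17778567), (nat_lit 12006452)] (nat_lit 19877745)) p15_30_0 (nat_lit 4) (nat_lit 315) (nat_lit 316) = true := by decide +kernel
def p15_30_0_316 : pfC (piC [(nat_lit 35404596), (nat_lit 23859669), (nat_lit 17778567), (nat_lit 12006452)] (nat_lit 19877745)) p15_30_0 (nat_lit 4) (nat_lit 316) (nat_lit 317) = true := by decide +kernel
def p15_30_0_317 : pfC (piC [(nat_lit 35404596), (nat_lit 23859669), (nat_lit 17778567), (nat_lit 12006452)] (nat_lit 19877745)) p15_30_0 (nat_lit 4) (nat_lit 317) (nat_lit 318) = true := by decide +kernel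
def p15_30_0_318 : pfC (piC [(nat_lit 35404596), (nat_lit 23859669), (nat_lit 17778567), (nat_lit 12006452)] (nat_lit 19877745)) p15_30_0 (nat_lit 4) (nat_lit 318) (nat_lit 319) = true := by decide +kernel
def p15_30_0_319 : pfC (piC [(nat_lit 35404596), (nat_lit 23859669), (nat_lit 17778567), (nat_lit 12006452)] (nat_lit 19877745)) p15_30_0 (nat_lit 4) (nat_lit 319) (nat_lit 320) = true := by decide +kernel
def p15_30_0_320 : pfC (piC [(nat_lit 35404596), (nat_lit 23859669), (nat_lit 17778567), (nat_lit 12006452)] (nat_lit 19877745)) p15_30_0 (nat_lit 4) (nat_lit 320) (nat_lit 321) = true := by decide +kernel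
def p15_30_0_321 : pfC (piC [(nat_lit 35404596), (nat_lit 23859669), (nat_lit 17778567), (nat_lit 12006452)] (nat_lit 19877745)) p15_30_0 (nat_lit 4) (nat_lit 321) (nat_lit 322) = true := by decide +kernel
def p15_30_0_322 : pfC (piC [(nat_lit 35404596), (nat_lit 23859669), (nat_lit 17778567), (nat_lit 12006452)] (nat_lit 19877745)) p15_30_0 (nat_lit 4) (nat_lit 322) (nat_lit 323) = true := by decide +kernel
def p15_30_0_323 : pfC (piC [(nat_lit 35404596), (nat_lit 23859669), (nat_lit 17778567), (nat_lit 12006452)] (nat_lit 19877745)) p15_30_0 (nat_lit 4) (nat_lit 323) (nat_lit 324) = true := by decide +kernel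
def p15_30_0_324 : pfC (piC [(nat_lit 35404596), (nat_lit 23859669), (nat_lit 17778567), (nat_lit 12006452)] (nat_lit 19877745)) p15_30_0 (nat_lit 4) (nat_lit 324) (nat_lit 325) = true := by decide +kernel
def p15_30_0_325 : pfC (piC [(nat_lit 35404596), (nat_lit 23859669), (nat_lit 17778567), (nat_lit 12006452)] (nat_lit 19877745)) p15_30_0 (nat_lit 4) (nat_lit 325) (nat_lit 326) = true := by decide +kernel
def p15_30_0_326 : pfC (piC [(nat_lit 35404596), (nat_lit 23859669), (nat_lit 17778567), (nat_lit 12006452)] (nat_lit 19877745)) p15_30_0 (nat_lit 4) (nat_lit 326) (nat_lit 327) = true := by decide +kernel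
def p15_30_0_327 : pfC (piC [(nat_lit 35404596), (nat_lit 23859669), (nat_lit 17778567), (nat_lit 12006452)] (nat_lit 19877745)) p15_30_0 (nat_lit 4) (nat_lit 327) (nat_lit 328) = true := by decide +kernel
def p15_30_0_328 : pfC (piC [(nat_lit 35404596), (nat_lit 23859669), (nat_lit 17778567), (nat_lit 12006452)] (nat_lit 19877745)) p15_30_0 (nat_lit 4) (nat_lit 328) (nat_lit 329) = true := by decide +kernel
def p15_30_0_329 : pfC (piC [(nat_lit 35404596), (nat_lit 23859669), (nat_lit 17778567), (nat_lit 12006452)] (nat_lit 19877745)) p15_30_0 (nat_lit 4) (nat_lit 329) (nat_lit 330) = true := by decide +kernel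
def p15_30_0_330 : pfC (piC [(nat_lit 35404596), (nat_lit 23859669), (nat_lit 17778567), (nat_lit 12006452)] (nat_lit 19877745)) p15_30_0 (nat_lit 4) (nat_lit 330) (nat_lit 331) = true := by decide +kernel
def p15_30_0_331 : pfC (piC [(nat_lit 35404596), (nat_lit 23859669), (nat_lit 17778567), (nat_lit 12006452)] (nat_lit 19877745)) p15_30_0 (nat_lit 4) (nat_lit 331) (nat_lit 332) = true := by decide +kernel
def p15_30_0_332 : pfC (piC [(nat_lit 35404596), (nat_lit 23859669), (nat_lit 17778567), (nat_lit 12006452)] (nat_lit 19877745)) p15_30_0 (nat_lit 4) (nat_lit 332) (nat_lit 333) = true := by decide +kernel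
def p15_30_0_333 : pfC (piC [(nat_lit 35404596), (nat_lit 23859669), (nat_lit 17778567), (nat_lit 12006452)] (nat_lit 19877745)) p15_30_0 (nat_lit 4) (nat_lit 333) (nat_lit 334) = true := by decide +kernel
def p15_30_0_334 : pfC (piC [(nat_lit 35404596), (nat_lit 23859669), (nat_lit 17778567), (nat_lit 12006452)] (nat_lit 19877745)) p15_30_0 (nat_lit 4) (nat_lit 334) (nat_lit 335) = true := by decide +kernel
def p15_30_0_335 : pfC (piC [(nat_lit 35404596), (nat_lit 23859669), (nat_lit 17778567), (nat_lit 12006452)] (nat_lit 19877745)) p15_30_0 (nat_lit 4) (nat_lit 335) (nat_lit 336) = true := by decide +kernel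
def p15_30_0_336 : pfC (piC [(nat_lit 35404596), (nat_lit 23859669), (nat_lit 17778567), (nat_lit 12006452)] (nat_lit 19877745)) p15_30_0 (nat_lit 4) (nat_lit 336) (nat_lit 337) = true := by decide +kernel
def p15_30_0_337 : pfC (piC [(nat_lit 35404596), (nat_lit 23859669), (nat_lit 17778567), (nat_lit 12006452)] (nat_lit 19877745)) p15_30_0 (nat_lit 4) (nat_lit 337) (nat_lit 338) = true := by decide +kernel
def p15_30_0_338 : pfC (piC [(nat_lit 35404596), (nat_lit 23859669), (nat_lit 17778567), (nat_lit 12006452)] (nat_lit 19877745)) p15_30_0 (nat_lit 4) (nat_lit 338) (nat_lit 339) = true := by decide +kernel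
def p15_30_0_339 : pfC (piC [(nat_lit 35404596), (nat_lit 23859669), (nat_lit 17778567), (nat_lit 12006452)] (nat_lit 19877745)) p15_30_0 (nat_lit 4) (nat_lit 339) (nat_lit 340) = true := by decide +kernel
def p15_30_0_340 : pfC (piC [(nat_lit 35404596), (nat_lit 23859669), (nat_lit 17778567), (nat_lit 12006452)] (nat_lit 19877745)) p15_30_0 (nat_lit 4) (nat_lit 340) (nat_lit 341) = true := by decide +kernel
def p15_30_0_341 : pfC (piC [(nat_lit 35404596), (nat_lit 23859669), (nat_lit 17778567), (nat_lit 12006452)] (nat_lit 19877745)) p15_30_0 (nat_lit 4) (nat_lit 341) (nat_lit 342) = true := by decide +kernel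
def p15_30_0_342 : pfC (piC [(nat_lit 35404596), (nat_lit 23859669), (nat_lit 17778567), (nat_lit 12006452)] (nat_lit 19877745)) p15_30_0 (nat_lit 4) (nat_lit 342) (nat_lit 343) = true := by decide +kernel
def p15_30_0_343 : pfC (piC [(nat_lit 35404596), (nat_lit 23859669), (nat_lit 17778567), (nat_lit 12006452)] (nat_lit 19877745)) p15_30_0 (nat_lit 4) (nat_lit 343) (nat_lit 344) = true := by decide +kernel
def p15_30_0_344 : pfC (piC [(nat_lit 35404596), (nat_lit 23859669), (nat_lit 17778567), (nat_lit 12006452)] (nat_lit 19877745)) p15_30_0 (nat_lit 4) (nat_lit 344) (nat_lit 345) = true := by decide +kernel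
def p15_30_0_345 : pfC (piC [(nat_lit 35404596), (nat_lit 23859669), (nat_lit 17778567), (nat_lit 12006452)] (nat_lit 19877745)) p15_30_0 (nat_lit 4) (nat_lit 345) (nat_lit 346) = true := by decide +kernel
def p15_30_0_346 : pfC (piC [(nat_lit 35404596), (nat_lit 23859669), (nat_lit 17778567), (nat_lit 12006452)] (nat_lit 19877745)) p15_30_0 (nat_lit 4) (nat_lit 346) (nat_lit 347) = true := by decide +kernel
def p15_30_0_347 : pfC (piC [(nat_lit 35404596), (nat_lit 23859669), (nat_lit 17778567), (nat_lit 12006452)] (nat_lit 19877745)) p15_30_0 (nat_lit 4) (nat_lit 347) (nat_lit 348) = true := by decide +kernel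
def p15_30_0_348 : pfC (piC [(nat_lit 35404596), (nat_lit 23859669), (nat_lit 17778567), (nat_lit 12006452)] (nat_lit 19877745)) p15_30_0 (nat_lit 4) (nat_lit 348) (nat_lit 349) = true := by decide +kernel
def p15_30_0_349 : pfC (piC [(nat_lit 35404596), (nat_lit 23859669), (nat_lit 17778567), (nat_lit 12006452)] (nat_lit 19877745)) p15_30_0 (nat_lit 4) (nat_lit 349) (nat_lit 350) = true := by decide +kernel
def p15_30_0_350 : pfC (piC [(nat_lit 35404596), (nat_lit 23859669), (nat_lit 17778567), (nat_lit 12006452)] (nat_lit 19877745)) p15_30_0 (nat_lit 4) (nat_lit 350) (nat_lit 351) = true := by decide +kernel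
def p15_30_0_351 : pfC (piC [(nat_lit 35404596), (nat_lit 23859669), (nat_lit 17778567), (nat_lit 12006452)] (nat_lit 19877745)) p15_30_0 (nat_lit 4) (nat_lit 351) (nat_lit 352) = true := by decide +kernel
def p15_30_0_352 : pfC (piC [(nat_lit 35404596), (nat_lit 23859669), (nat_lit 17778567), (nat_lit 12006452)] (nat_lit 19877745)) p15_30_0 (nat_lit 4) (nat_lit 352) (nat_lit 353) = true := by decide +kernel
def p15_30_0_353 : pfC (piC [(nat_lit 35404596), (nat_lit 23859669), (nat_lit 17778567), (nat_lit 12006452)] (nat_lit 19877745)) p15_30_0 (nat_lit 4) (nat_lit 353) (nat_lit 354) = true := by decide +kernel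
def p15_30_0_354 : pfC (piC [(nat_lit 35404596), (nat_lit 23859669), (nat_lit 17778567), (nat_lit 12006452)] (nat_lit 19877745)) p15_30_0 (nat_lit 4) (nat_lit 354) (nat_lit 355) = true := by decide +kernel
def p15_30_0_355 : pfC (piC [(nat_lit 35404596), (nat_lit 23859669), (nat_lit 17778567), (nat_lit 12006452)] (nat_lit 19877745)) p15_30_0 (nat_lit 4) (nat_lit 355) (nat_lit 356) = true := by decide +kernel
def p15_30_0_356 : pfC (piC [(nat_lit 35404596), (nat_lit 23859669), (nat_lit 17778567), (nat_lit 12006452)] (nat_lit 19877745)) p15_30_0 (nat_lit 4) (nat_lit 356) (nat_lit 357) = true := by decide +kernel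
def p15_30_0_357 : pfC (piC [(nat_lit 35404596), (nat_lit 23859669), (nat_lit 17778567), (nat_lit 12006452)] (nat_lit 19877745)) p15_30_0 (nat_lit 4) (nat_lit 357) (nat_lit 358) = true := by decide +kernel
def p15_30_0_358 : pfC (piC [(nat_lit 35404596), (nat_lit 23859669), (nat_lit 17778567), (nat_lit 12006452)] (nat_lit 19877745)) p15_30_0 (nat_lit 4) (nat_lit 358) (nat_lit 359) = true := by decide +kernel
def p15_30_0_359 : pfC (piC [(nat_lit 35404596), (nat_lit 23859669), (nat_lit 17778567), (nat_lit 12006452)] (nat_lit 19877745)) p15_30_0 (nat_lit 4) (nat_lit 359) (nat_lit 360) = true := by decide +kernel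
def p15_30_0_360 : pfC (piC [(nat_lit 35404596), (nat_lit 23859669), (nat_lit 17778567), (nat_lit 12006452)] (nat_lit 19877745)) p15_30_0 (nat_lit 4) (nat_lit 360) (nat_lit 361) = true := by decide +kernel
def p15_30_0_361 : pfC (piC [(nat_lit 35404596), (nat_lit 23859669), (nat_lit 17778567), (nat_lit 12006452)] (nat_lit 19877745)) p15_30_0 (nat_lit 4) (nat_lit 361) (nat_lit 362) = true := by decide +kernel
def p15_30_0_362 : pfC (piC [(nat_lit 35404596), (nat_lit 23859669), (nat_lit 17778567), (nat_lit 12006452)] (nat_lit 19877745)) p15_30_0 (nat_lit 4) (nat_lit 362) (nat_lit 363) = true := by decide +kernel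
def p15_30_0_363 : pfC (piC [(nat_lit 35404596), (nat_lit 23859669), (nat_lit 17778567), (nat_lit 12006452)] (nat_lit 19877745)) p15_30_0 (nat_lit 4) (nat_lit 363) (nat_lit 364) = true := by decide +kernel
def p15_30_0_364 : pfC (piC [(nat_lit 35404596), (nat_lit 23859669), (nat_lit 17778567), (nat_lit 12006452)] (nat_lit 19877745)) p15_30_0 (nat_lit 4) (nat_lit 364) (nat_lit 365) = true := by decide +kernel
def p15_30_0_365 : pfC (piC [(nat_lit 35404596), (nat_lit 23859669), (nat_lit 17778567), (nat_lit 12006452)] (nat_lit 19877745)) p15_30_0 (nat_lit 4) (nat_lit 365) (nat_lit 366) = true := by decide +kernel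
def p15_30_0_366 : pfC (piC [(nat_lit 35404596), (nat_lit 23859669), (nat_lit 17778567), (nat_lit 12006452)] (nat_lit 19877745)) p15_30_0 (nat_lit 4) (nat_lit 366) (nat_lit 367) = true := by decide +kernel
def p15_30_0_367 : pfC (piC [(nat_lit 35404596), (nat_lit 23859669), (nat_lit 17778567), (nat_lit 12006452)] (nat_lit 19877745)) p15_30_0 (nat_lit 4) (nat_lit 367) (nat_lit 368) = true := by decide +kernel
def p15_30_0_368 : pfC (piC [(nat_lit 35404596), (nat_lit 23859669), (nat_lit 17778567), (nat_lit 12006452)] (nat_lit 19877745)) p15_30_0 (nat_lit 4) (nat_lit 368) (nat_lit 369) = true := by decide +kernel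
def p15_30_0_369 : pfC (piC [(nat_lit 35404596), (nat_lit 23859669), (nat_lit 17778567), (nat_lit 12006452)] (nat_lit 19877745)) p15_30_0 (nat_lit 4) (nat_lit 369) (nat_lit 370) = true := by decide +kernel
def p15_30_0_370 : pfC (piC [(nat_lit 35404596), (nat_lit 23859669), (nat_lit 17778567), (nat_lit 12006452)] (nat_lit 19877745)) p15_30_0 (nat_lit 4) (nat_lit 370) (nat_lit 371) = true := by decide +kernel
def p15_30_0_371 : pfC (piC [(nat_lit 35404596), (nat_lit 23859669), (nat_lit 17778567), (nat_lit 12006452)] (nat_lit 19877745)) p15_30_0 (nat_lit 4) (nat_lit 371) (nat_lit 372) = true := by decide +kernel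
def p15_30_0_372 : pfC (piC [(nat_lit 35404596), (nat_lit 23859669), (nat_lit 17778567), (nat_lit 12006452)] (nat_lit 19877745)) p15_30_0 (nat_lit 4) (nat_lit 372) (nat_lit 373) = true := by decide +kernel
def p15_30_0_373 : pfC (piC [(nat_lit 35404596), (nat_lit 23859669), (nat_lit 17778567), (nat_lit 12006452)] (nat_lit 19877745)) p15_30_0 (nat_lit 4) (nat_lit 373) (nat_lit 374) = true := by decide +kernel
def p15_30_0_374 : pfC (piC [(nat_lit 35404596), (nat_lit 23859669), (nat_lit 17778567), (nat_lit 12006452)] (nat_lit 19877745)) p15_30_0 (nat_lit 4) (nat_lit 374) (nat_lit 375) = true := by decide +kernel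
def p15_30_0_375 : pfC (piC [(nat_lit 35404596), (nat_lit 23859669), (nat_lit 17778567), (nat_lit 12006452)] (nat_lit 19877745)) p15_30_0 (nat_lit 4) (nat_lit 375) (nat_lit 376) = true := by decide +kernel
def p15_30_0_376 : pfC (piC [(nat_lit 35404596), (nat_lit 23859669), (nat_lit 17778567), (nat_lit 12006452)] (nat_lit 19877745)) p15_30_0 (nat_lit 4) (nat_lit 376) (nat_lit 377) = true := by decide +kernel
def p15_30_0_377 : pfC (piC [(nat_lit 35404596), (nat_lit 23859669), (nat_lit 17778567), (nat_lit 12006452)] (nat_lit 19877745)) p15_30_0 (nat_lit 4) (nat_lit 377) (nat_lit 378) = true := by decide +kernel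
def p15_30_0_378 : pfC (piC [(nat_lit 35404596), (nat_lit 23859669), (nat_lit 17778567), (nat_lit 12006452)] (nat_lit 19877745)) p15_30_0 (nat_lit 4) (nat_lit 378) (nat_lit 379) = true := by decide +kernel
def p15_30_0_379 : pfC (piC [(nat_lit 35404596), (nat_lit 23859669), (nat_lit 17778567), (nat_lit 12006452)] (nat_lit 19877745)) p15_30_0 (nat_lit 4) (nat_lit 379) (nat_lit 380) = true := by decide +kernel
def p15_30_0_380 : pfC (piC [(nat_lit 35404596), (nat_lit 23859669), (nat_lit 17778567), (nat_lit 12006452)] (nat_lit 19877745)) p15_30_0 (nat_lit 4) (nat_lit 380) (nat_lit 381) = true := by decide +kernel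
def p15_30_0_381 : pfC (piC [(nat_lit 35404596), (nat_lit 23859669), (nat_lit 17778567), (nat_lit 12006452)] (nat_lit 19877745)) p15_30_0 (nat_lit 4) (nat_lit 381) (nat_lit 382) = true := by decide +kernel
def p15_30_0_382 : pfC (piC [(nat_lit 35404596), (nat_lit 23859669), (nat_lit 17778567), (nat_lit 12006452)] (nat_lit 19877745)) p15_30_0 (nat_lit 4) (nat_lit 382) (nat_lit 383) = true := by decide +kernel
def p15_30_0_383 : pfC (piC [(nat_lit 35404596), (nat_lit 23859669), (nat_lit 17778567), (nat_lit 12006452)] (nat_lit 19877745)) p15_30_0 (nat_lit 4) (nat_lit 383) (nat_lit 384) = true := by decide +kernel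
def p15_30_0_384 : pfC (piC [(nat_lit 35404596), (nat_lit 23859669), (nat_lit 17778567), (nat_lit 12006452)] (nat_lit 19877745)) p15_30_0 (nat_lit 4) (nat_lit 384) (nat_lit 385) = true := by decide +kernel
def p15_30_0_385 : pfC (piC [(nat_lit 35404596), (nat_lit 23859669), (nat_lit 17778567), (nat_lit 12006452)] (nat_lit 19877745)) p15_30_0 (nat_lit 4) (nat_lit 385) (nat_lit 386) = true := by decide +kernel
def p15_30_0_386 : pfC (piC [(nat_lit 35404596), (nat_lit 23859669), (nat_lit 17778567), (nat_lit 12006452)] (nat_lit 19877745)) p15_30_0 (nat_lit 4) (nat_lit 386) (nat_lit 387) = true := by decide +kernel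
def p15_30_0_387 : pfC (piC [(nat_lit 35404596), (nat_lit 23859669), (nat_lit 17778567), (nat_lit 12006452)] (nat_lit 19877745)) p15_30_0 (nat_lit 4) (nat_lit 387) (nat_lit 388) = true := by decide +kernel
def p15_30_0_388 : pfC (piC [(nat_lit 35404596), (nat_lit 23859669), (nat_lit 17778567), (nat_lit 12006452)] (nat_lit 19877745)) p15_30_0 (nat_lit 4) (nat_lit 388) (nat_lit 389) = true := by decide +kernel
def p15_30_0_389 : pfC (piC [(nat_lit 35404596), (nat_lit 23859669), (nat_lit 17778567), (nat_lit 12006452)] (nat_lit 19877745)) p15_30_0 (nat_lit 4) (nat_lit 389) (nat_lit 390) = true := by decide +kernel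
def p15_30_0_390 : pfC (piC [(nat_lit 35404596), (nat_lit 23859669), (nat_lit 17778567), (nat_lit 12006452)] (nat_lit 19877745)) p15_30_0 (nat_lit 4) (nat_lit 390) (nat_lit 391) = true := by decide +kernel
def p15_30_0_391 : pfC (piC [(nat_lit 35404596), (nat_lit 23859669), (nat_lit 17778567), (nat_lit 12006452)] (nat_lit 19877745)) p15_30_0 (nat_lit 4) (nat_lit 391) (nat_lit 392) = true := by decide +kernel
def p15_30_0_392 : pfC (piC [(nat_lit 35404596), (nat_lit 23859669), (nat_lit 17778567), (nat_lit 12006452)] (nat_lit 19877745)) p15_30_0 (nat_lit 4) (nat_lit 392) (nat_lit 393) = true := by decide +kernel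
def p15_30_0_393 : pfC (piC [(nat_lit 35404596), (nat_lit 23859669), (nat_lit 17778567), (nat_lit 12006452)] (nat_lit 19877745)) p15_30_0 (nat_lit 4) (nat_lit 393) (nat_lit 394) = true := by decide +kernel
def p15_30_0_394 : pfC (piC [(nat_lit 35404596), (nat_lit 23859669), (nat_lit 17778567), (nat_lit 12006452)] (nat_lit 19877745)) p15_30_0 (nat_lit 4) (nat_lit 394) (nat_lit 395) = true := by decide +kernel
def p15_30_0_395 : pfC (piC [(nat_lit 35404596), (nat_lit 23859669), (nat_lit 17778567), (nat_lit 12006452)] (nat_lit 19877745)) p15_30_0 (nat_lit 4) (nat_lit 395) (nat_lit 396) = true := by decide +kernel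
def p15_30_0_396 : pfC (piC [(nat_lit 35404596), (nat_lit 23859669), (nat_lit 17778567), (nat_lit 12006452)] (nat_lit 19877745)) p15_30_0 (nat_lit 4) (nat_lit 396) (nat_lit 397) = true := by decide +kernel
theorem p15_30_0_T : PfS (PiF n15_30.reverse (nat_lit 19877745)) p15_30_0 (nat_lit 4) [] 0 :=
  pftab_of (los := [(nat_lit 35404596), (nat_lit 23859669), (nat_lit 17778567), (nat_lit 12006452)]) (by decide +kernel) (hi := (nat_lit 397)) (PfP.trans (PfP.trans (PfP.trans (PfP.trans (PfP.trans (PfP.trans (PfP.trans (PfP.trans (PfP.trans (PfP.trans (PfP.trans (PfP.trans (PfP.trans (PfP.trans (PfP.trans (PfP.trans (PfP.trans (PfP.trans (PfP.trans (PfP.trans (PfP.trans (PfP.trans (PfP.trans (PfP.trans (PfP.trans (PfP.trans (PfP.trans (PfP.trans (PfP.trans (PfP.trans (PfP.trans (PfP.trans (PfP.trans (PfP.trans (PfP.trans (PfP.trans (PfP.trans (PfP.trans (PfP.trans (PfP.trans (PfP.trans (PfP.trans (PfP.trans (PfP.trans (PfP.trans (PfP.trans (PfP.trans (PfP.trans (PfP.trans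 (PfP.trans (PfP.trans (PfP.trans (PfP.trans (PfP.trans (PfP.trans (PfP.trans (PfP.trans (PfP.trans (PfP.trans (PfP.trans (PfP.trans (PfP.trans (PfP.trans (PfP.trans (PfP.trans (PfP.trans (PfP.trans (PfP.trans (PfP.trans (PfP.trans (PfP.trans (PfP.trans (PfP.trans (PfP.trans (PfP.trans (PfP.trans (PfP.trans (PfP.trans (PfP.trans (PfP.trans (PfP.trans (PfP.trans (PfP.trans (PfP.trans (PfP.trans (PfP.trans (PfP.trans (PfP.trans (PfP.trans (PfP.trans (PfP.trans (PfP.trans (PfP.trans (PfP.trans (PfP.trans (PfP.trans (PfP.trans (PfP.trans (PfP.trans (PfP.trans (PfP.trans (PfP.trans (PfP.trans (PfP.trans (PfP.trans (PfP.trans (PfP.trans (PfP.trans (PfP.trans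
 (PfP.trans (PfP.trans (PfP.trans (PfP.trans (PfP.trans (PfP.trans (PfP.trans (PfP.trans (PfP.trans (PfP.trans (PfP.trans (PfP.trans (PfP.trans (PfP.trans (PfP.trans (PfP.trans (PfP.trans (PfP.trans (PfP.trans (PfP.trans (PfP.trans (PfP.trans (PfP.trans (PfP.trans (PfP.trans (PfP.trans (PfP.trans (PfP.trans (PfP.trans (PfP.trans (PfP.trans (PfP.trans (PfP.trans (PfP.trans (PfP.trans (PfP.trans (PfP.trans (PfP.trans (PfP.trans (PfP.trans (PfP.trans (PfP.trans (PfP.trans (PfP.trans (PfP.trans (PfP.trans (PfP.trans (PfP.trans (PfP.trans (PfP.trans (PfP.trans (PfP.trans (PfP.trans (PfP.trans (PfP.trans (PfP.trans (PfP.trans (PfP.trans (PfP.trans (PfP.trans (PfP.trans (PfP.trans (PfP.trans (PfP.trans (PfP.trans (PfP.trans (PfP.trans (PfP.trans (PfP.trans (PfP.trans (PfP.trans (PfP.trans (PfP.trans (PfP.trans (PfP.trans (PfP.trans (PfP.trans (PfP.trans (PfP.trans (PfP.trans (PfP.trans (PfP.trans (PfP.trans (PfP.trans (PfP.trans (PfP.trans (PfP.trans (PfP.trans (PfP.trans (PfP.trans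 (PfP.trans (PfP.trans (PfP.trans (PfP.trans (PfP.trans (PfP.trans (PfP.trans (PfP.trans (PfP.trans (PfP.trans (PfP.trans (PfP.trans (PfP.trans (PfP.trans (PfP.trans (PfP.trans (PfP.trans (PfP.trans (PfP.trans
 (PfP.trans (PfP.trans (PfP.trans (PfP.trans (PfP.trans (PfP.trans (PfP.trans (PfP.trans (PfP.trans (PfP.trans (PfP.trans (PfP.trans (PfP.trans (PfP.trans (PfP.trans (PfP.trans (PfP.trans (PfP.trans (PfP.trans (PfP.trans (PfP.trans (PfP.trans (PfP.trans (PfP.trans (PfP.trans (PfP.trans (PfP.trans (PfP.trans (PfP.trans (PfP.trans (PfP.trans (PfP.trans (PfP.trans (PfP.trans (PfP.trans (PfP.trans (PfP.trans (PfP.trans (PfP.trans (PfP.trans (PfP.trans (PfP.trans (PfP.trans (PfP.trans (PfP.trans (PfP.trans (PfP.trans (PfP.trans (PfP.trans (PfP.trans (PfP.trans (PfP.trans (PfP.trans (PfP.trans (PfP.trans (PfP.trans (PfP.trans (PfP.trans (PfP.trans (PfP.trans (PfP.trans (PfP.trans (PfP.trans (PfP.trans (PfP.trans (PfP.trans (PfP.trans (PfP.trans (PfP.trans (PfP.trans (PfP.trans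 (PfP.trans (PfP.trans (PfP.trans (PfP.trans (PfP.trans (PfP.trans (PfP.trans (PfP.trans (PfP.trans (PfP.trans (PfP.trans (PfP.trans (PfP.trans (PfP.trans (PfP.trans (PfP.trans (PfP.trans (PfP.trans (PfP.trans (PfP.trans (PfP.trans (PfP.trans (PfP.trans (PfP.trans (PfP.trans (PfP.trans (PfP.trans (PfP.trans (PfP.trans (PfP.trans (PfP.trans (PfP.trans (PfP.trans (PfP.trans (PfP.trans (PfP.trans (PfP.trans (PfP.trans
 (PfP.trans (PfP.trans (PfP.trans (PfP.trans (PfP.trans (PfP.trans (PfP.trans (PfP.trans (PfP.trans (PfP.trans (PfP.trans (PfP.trans (PfP.trans (PfP.trans (PfP.trans (PfP.trans (PfP.trans (PfP.trans (PfP.trans (PfP.trans (PfP.trans (PfP.trans (PfP.trans (PfP.trans (PfP.trans (PfP.trans (PfP.trans (PfP.trans (PfP.trans (PfP.trans (PfP.trans (PfP.trans (PfP.trans (PfP.trans (PfP.trans (PfP.trans (PfP.trans (PfP.trans (PfP.trans (PfP.trans (PfP.trans (PfP.trans (PfP.trans (PfP.trans (PfP.trans (PfP.trans (PfP.trans (PfP.trans (PfP.trans (PfP.trans (PfP.trans (PfP.trans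 (PfP.trans (PfP.trans (PfP.trans (PfP.trans (PfP.trans (PfP.trans (PfP.trans (PfP.trans (PfP.trans (PfP.trans (PfP.trans (PfP.trans (PfP.trans (PfP.trans (PfP.trans (PfP.trans (PfP.trans (pfC_sound p15_30_0_0) (pfC_sound p15_30_0_1)) (pfC_sound p15_30_0_2)) (pfC_sound p15_30_0_3)) (pfC_sound p15_30_0_4)) (pfC_sound p15_30_0_5)) (pfC_sound p15_30_0_6)) (pfC_sound p15_30_0_7)) (pfC_sound p15_30_0_8)) (pfC_sound p15_30_0_9)) (pfC_sound p15_30_0_10)) (pfC_sound p15_30_0_11)) (pfC_sound p15_30_0_12)) (pfC_sound p15_30_0_13)) (pfC_sound p15_30_0_14)) (pfC_sound p15_30_0_15)) (pfC_sound p15_30_0_16)) (pfC_sound p15_30_0_17))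
 (pfC_sound p15_30_0_18)) (pfC_sound p15_30_0_19)) (pfC_sound p15_30_0_20)) (pfC_sound p15_30_0_21)) (pfC_sound p15_30_0_22)) (pfC_sound p15_30_0_23)) (pfC_sound p15_30_0_24)) (pfC_sound p15_30_0_25)) (pfC_sound p15_30_0_26)) (pfC_sound p15_30_0_27)) (pfC_sound p15_30_0_28)) (pfC_sound p15_30_0_29)) (pfC_sound p15_30_0_30)) (pfC_sound p15_30_0_31)) (pfC_sound p15_30_0_32)) (pfC_sound p15_30_0_33)) (pfC_sound p15_30_0_34)) (pfC_sound p15_30_0_35)) (pfC_sound p15_30_0_36)) (pfC_sound p15_30_0_37)) (pfC_sound p15_30_0_38)) (pfC_sound p15_30_0_39)) (pfC_sound p15_30_0_40)) (pfC_sound p15_30_0_41)) (pfC_sound p15_30_0_42)) (pfC_sound p15_30_0_43)) (pfC_sound p15_30_0_44)) (pfC_sound p15_30_0_45)) (pfC_sound p15_30_0_46)) (pfC_sound p15_30_0_47)) (pfC_sound p15_30_0_48)) (pfC_sound p15_30_0_49)) (pfC_sound p15_30_0_50)) (pfC_sound p15_30_0_51)) (pfC_sound p15_30_0_52)) (pfC_sound p15_30_0_53)) (pfC_sound p15_30_0_54)) (pfC_sound p15_30_0_55)) (pfC_sound p15_30_0_56)) (pfC_sound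 p15_30_0_57)) (pfC_sound p15_30_0_58)) (pfC_sound p15_30_0_59)) (pfC_sound p15_30_0_60)) (pfC_sound p15_30_0_61)) (pfC_sound p15_30_0_62)) (pfC_sound p15_30_0_63)) (pfC_sound p15_30_0_64)) (pfC_sound p15_30_0_65))
 (pfC_sound p15_30_0_66)) (pfC_sound p15_30_0_67)) (pfC_sound p15_30_0_68)) (pfC_sound p15_30_0_69)) (pfC_sound p15_30_0_70)) (pfC_sound p15_30_0_71)) (pfC_sound p15_30_0_72)) (pfC_sound p15_30_0_73)) (pfC_sound p15_30_0_74)) (pfC_sound p15_30_0_75)) (pfC_sound p15_30_0_76)) (pfC_sound p15_30_0_77)) (pfC_sound p15_30_0_78)) (pfC_sound p15_30_0_79)) (pfC_sound p15_30_0_80)) (pfC_sound p15_30_0_81)) (pfC_sound p15_30_0_82)) (pfC_sound p15_30_0_83)) (pfC_sound p15_30_0_84)) (pfC_sound p15_30_0_85)) (pfC_sound p15_30_0_86)) (pfC_sound p15_30_0_87)) (pfC_sound p15_30_0_88)) (pfC_sound p15_30_0_89)) (pfC_sound p15_30_0_90)) (pfC_sound p15_30_0_91)) (pfC_sound p15_30_0_92)) (pfC_sound p15_30_0_93)) (pfC_sound p15_30_0_94)) (pfC_sound p15_30_0_95)) (pfC_sound p15_30_0_96))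 (pfC_sound p15_30_0_97)) (pfC_sound p15_30_0_98)) (pfC_sound p15_30_0_99)) (pfC_sound p15_30_0_100)) (pfC_sound p15_30_0_101)) (pfC_sound p15_30_0_102)) (pfC_sound p15_30_0_103)) (pfC_sound p15_30_0_104)) (pfC_sound p15_30_0_105)) (pfC_sound p15_30_0_106)) (pfC_sound p15_30_0_107)) (pfC_sound p15_30_0_108)) (pfC_sound p15_30_0_109)) (pfC_sound p15_30_0_110)) (pfC_sound p15_30_0_111)) (pfC_sound p15_30_0_112)) (pfC_sound
 p15_30_0_113)) (pfC_sound p15_30_0_114)) (pfC_sound p15_30_0_115)) (pfC_sound p15_30_0_116)) (pfC_sound p15_30_0_117)) (pfC_sound p15_30_0_118)) (pfC_sound p15_30_0_119)) (pfC_sound p15_30_0_120)) (pfC_sound p15_30_0_121)) (pfC_sound p15_30_0_122)) (pfC_sound p15_30_0_123)) (pfC_sound p15_30_0_124)) (pfC_sound p15_30_0_125)) (pfC_sound p15_30_0_126)) (pfC_sound p15_30_0_127)) (pfC_sound p15_30_0_128)) (pfC_sound p15_30_0_129)) (pfC_sound p15_30_0_130)) (pfC_sound p15_30_0_131)) (pfC_sound p15_30_0_132)) (pfC_sound p15_30_0_133)) (pfC_sound p15_30_0_134))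 (pfC_sound p15_30_0_135)) (pfC_sound p15_30_0_136)) (pfC_sound p15_30_0_137)) (pfC_sound p15_30_0_138)) (pfC_sound p15_30_0_139)) (pfC_sound p15_30_0_140)) (pfC_sound p15_30_0_141)) (pfC_sound p15_30_0_142)) (pfC_sound p15_30_0_143)) (pfC_sound p15_30_0_144)) (pfC_sound p15_30_0_145)) (pfC_sound p15_30_0_146)) (pfC_sound p15_30_0_147)) (pfC_sound p15_30_0_148)) (pfC_sound p15_30_0_149)) (pfC_sound p15_30_0_150)) (pfC_sound p15_30_0_151)) (pfC_sound p15_30_0_152)) (pfC_sound p15_30_0_153)) (pfC_sound p15_30_0_154)) (pfC_sound p15_30_0_155)) (pfC_sound p15_30_0_156)) (pfC_sound p15_30_0_157)) (pfC_sound p15_30_0_158)) (pfC_sound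
 p15_30_0_159)) (pfC_sound p15_30_0_160)) (pfC_sound p15_30_0_161)) (pfC_sound p15_30_0_162)) (pfC_sound p15_30_0_163)) (pfC_sound p15_30_0_164)) (pfC_sound p15_30_0_165)) (pfC_sound p15_30_0_166)) (pfC_sound p15_30_0_167)) (pfC_sound p15_30_0_168)) (pfC_sound p15_30_0_169)) (pfC_sound p15_30_0_170)) (pfC_sound p15_30_0_171)) (pfC_sound p15_30_0_172)) (pfC_sound p15_30_0_173)) (pfC_sound p15_30_0_174)) (pfC_sound p15_30_0_175)) (pfC_sound p15_30_0_176)) (pfC_sound p15_30_0_177)) (pfC_sound p15_30_0_178)) (pfC_sound p15_30_0_179)) (pfC_sound p15_30_0_180)) (pfC_sound p15_30_0_181)) (pfC_sound p15_30_0_182)) (pfC_sound p15_30_0_183)) (pfC_sound p15_30_0_184)) (pfC_sound p15_30_0_185)) (pfC_sound p15_30_0_186)) (pfC_sound p15_30_0_187)) (pfC_sound p15_30_0_188)) (pfC_sound p15_30_0_189)) (pfC_sound p15_30_0_190)) (pfC_sound p15_30_0_191)) (pfC_sound p15_30_0_192)) (pfC_sound p15_30_0_193)) (pfC_sound p15_30_0_194)) (pfC_sound p15_30_0_195)) (pfC_sound p15_30_0_196)) (pfC_sound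 p15_30_0_197)) (pfC_sound p15_30_0_198)) (pfC_sound p15_30_0_199)) (pfC_sound p15_30_0_200)) (pfC_sound p15_30_0_201)) (pfC_sound p15_30_0_202)) (pfC_sound p15_30_0_203)) (pfC_sound p15_30_0_204)) (pfC_sound
 p15_30_0_205)) (pfC_sound p15_30_0_206)) (pfC_sound p15_30_0_207)) (pfC_sound p15_30_0_208)) (pfC_sound p15_30_0_209)) (pfC_sound p15_30_0_210)) (pfC_sound p15_30_0_211)) (pfC_sound p15_30_0_212)) (pfC_sound p15_30_0_213)) (pfC_sound p15_30_0_214)) (pfC_sound p15_30_0_215)) (pfC_sound p15_30_0_216)) (pfC_sound p15_30_0_217)) (pfC_sound p15_30_0_218)) (pfC_sound p15_30_0_219)) (pfC_sound p15_30_0_220)) (pfC_sound p15_30_0_221)) (pfC_sound p15_30_0_222)) (pfC_sound p15_30_0_223)) (pfC_sound p15_30_0_224)) (pfC_sound p15_30_0_225)) (pfC_sound p15_30_0_226)) (pfC_sound p15_30_0_227)) (pfC_sound p15_30_0_228)) (pfC_sound p15_30_0_229)) (pfC_sound p15_30_0_230)) (pfC_sound p15_30_0_231)) (pfC_sound p15_30_0_232)) (pfC_sound p15_30_0_233)) (pfC_sound p15_30_0_234)) (pfC_sound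 p15_30_0_235)) (pfC_sound p15_30_0_236)) (pfC_sound p15_30_0_237)) (pfC_sound p15_30_0_238)) (pfC_sound p15_30_0_239)) (pfC_sound p15_30_0_240)) (pfC_sound p15_30_0_241)) (pfC_sound p15_30_0_242)) (pfC_sound p15_30_0_243)) (pfC_sound p15_30_0_244)) (pfC_sound p15_30_0_245)) (pfC_sound p15_30_0_246)) (pfC_sound p15_30_0_247)) (pfC_sound p15_30_0_248)) (pfC_sound p15_30_0_249)) (pfC_sound p15_30_0_250)) (pfC_sound
 p15_30_0_251)) (pfC_sound p15_30_0_252)) (pfC_sound p15_30_0_253)) (pfC_sound p15_30_0_254)) (pfC_sound p15_30_0_255)) (pfC_sound p15_30_0_256)) (pfC_sound p15_30_0_257)) (pfC_sound p15_30_0_258)) (pfC_sound p15_30_0_259)) (pfC_sound p15_30_0_260)) (pfC_sound p15_30_0_261)) (pfC_sound p15_30_0_262)) (pfC_sound p15_30_0_263)) (pfC_sound p15_30_0_264)) (pfC_sound p15_30_0_265)) (pfC_sound p15_30_0_266)) (pfC_sound p15_30_0_267)) (pfC_sound p15_30_0_268)) (pfC_sound p15_30_0_269)) (pfC_sound p15_30_0_270)) (pfC_sound p15_30_0_271)) (pfC_sound p15_30_0_272)) (pfC_sound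 p15_30_0_273)) (pfC_sound p15_30_0_274)) (pfC_sound p15_30_0_275)) (pfC_sound p15_30_0_276)) (pfC_sound p15_30_0_277)) (pfC_sound p15_30_0_278)) (pfC_sound p15_30_0_279)) (pfC_sound p15_30_0_280)) (pfC_sound p15_30_0_281)) (pfC_sound p15_30_0_282)) (pfC_sound p15_30_0_283)) (pfC_sound p15_30_0_284)) (pfC_sound p15_30_0_285)) (pfC_sound p15_30_0_286)) (pfC_sound p15_30_0_287)) (pfC_sound p15_30_0_288)) (pfC_sound p15_30_0_289)) (pfC_sound p15_30_0_290)) (pfC_sound p15_30_0_291)) (pfC_sound p15_30_0_292)) (pfC_sound p15_30_0_293)) (pfC_sound p15_30_0_294)) (pfC_sound p15_30_0_295)) (pfC_sound p15_30_0_296)) (pfC_sound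
 p15_30_0_297)) (pfC_sound p15_30_0_298)) (pfC_sound p15_30_0_299)) (pfC_sound p15_30_0_300)) (pfC_sound p15_30_0_301)) (pfC_sound p15_30_0_302)) (pfC_sound p15_30_0_303)) (pfC_sound p15_30_0_304)) (pfC_sound p15_30_0_305)) (pfC_sound p15_30_0_306)) (pfC_sound p15_30_0_307)) (pfC_sound p15_30_0_308)) (pfC_sound p15_30_0_309)) (pfC_sound p15_30_0_310)) (pfC_sound p15_30_0_311)) (pfC_sound p15_30_0_312)) (pfC_sound p15_30_0_313)) (pfC_sound p15_30_0_314)) (pfC_sound p15_30_0_315)) (pfC_sound p15_30_0_316)) (pfC_sound p15_30_0_317)) (pfC_sound p15_30_0_318)) (pfC_sound p15_30_0_319)) (pfC_sound p15_30_0_320)) (pfC_sound p15_30_0_321)) (pfC_sound p15_30_0_322)) (pfC_sound p15_30_0_323)) (pfC_sound p15_30_0_324)) (pfC_sound p15_30_0_325)) (pfC_sound p15_30_0_326)) (pfC_sound p15_30_0_327)) (pfC_sound p15_30_0_328)) (pfC_sound p15_30_0_329)) (pfC_sound p15_30_0_330)) (pfC_sound p15_30_0_331)) (pfC_sound p15_30_0_332)) (pfC_sound p15_30_0_333)) (pfC_sound p15_30_0_334)) (pfC_sound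 p15_30_0_335)) (pfC_sound p15_30_0_336)) (pfC_sound p15_30_0_337)) (pfC_sound p15_30_0_338)) (pfC_sound p15_30_0_339)) (pfC_sound p15_30_0_340)) (pfC_sound p15_30_0_341)) (pfC_sound p15_30_0_342)) (pfC_sound
 p15_30_0_343)) (pfC_sound p15_30_0_344)) (pfC_sound p15_30_0_345)) (pfC_sound p15_30_0_346)) (pfC_sound p15_30_0_347)) (pfC_sound p15_30_0_348)) (pfC_sound p15_30_0_349)) (pfC_sound p15_30_0_350)) (pfC_sound p15_30_0_351)) (pfC_sound p15_30_0_352)) (pfC_sound p15_30_0_353)) (pfC_sound p15_30_0_354)) (pfC_sound p15_30_0_355)) (pfC_sound p15_30_0_356)) (pfC_sound p15_30_0_357)) (pfC_sound p15_30_0_358)) (pfC_sound p15_30_0_359)) (pfC_sound p15_30_0_360)) (pfC_sound p15_30_0_361)) (pfC_sound p15_30_0_362)) (pfC_sound p15_30_0_363)) (pfC_sound p15_30_0_364)) (pfC_sound p15_30_0_365)) (pfC_sound p15_30_0_366)) (pfC_sound p15_30_0_367)) (pfC_sound p15_30_0_368)) (pfC_sound p15_30_0_369)) (pfC_sound p15_30_0_370)) (pfC_sound p15_30_0_371)) (pfC_sound p15_30_0_372)) (pfC_sound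 p15_30_0_373)) (pfC_sound p15_30_0_374)) (pfC_sound p15_30_0_375)) (pfC_sound p15_30_0_376)) (pfC_sound p15_30_0_377)) (pfC_sound p15_30_0_378)) (pfC_sound p15_30_0_379)) (pfC_sound p15_30_0_380)) (pfC_sound p15_30_0_381)) (pfC_sound p15_30_0_382)) (pfC_sound p15_30_0_383)) (pfC_sound p15_30_0_384)) (pfC_sound p15_30_0_385)) (pfC_sound p15_30_0_386)) (pfC_sound p15_30_0_387)) (pfC_sound p15_30_0_388)) (pfC_sound
 p15_30_0_389)) (pfC_sound p15_30_0_390)) (pfC_sound p15_30_0_391)) (pfC_sound p15_30_0_392)) (pfC_sound p15_30_0_393)) (pfC_sound p15_30_0_394)) (pfC_sound p15_30_0_395)) (pfC_sound p15_30_0_396)) (by decide +kernel)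

def z15_30_0 : zOK yB15_30 (nat_lit 0) (nat_lit 0) (nat_lit 400) (nat_lit 19877745) (nat_lit 10758730) = true := by decide +kernel
def g15_30_0 : gOK yB15_30.x P15_30 (nat_lit 1401) (q15_30 :: r15_30) (nat_lit 0) (nat_lit 0) (nat_lit 1) (nat_lit 400) (nat_lit 0) (nat_lit 11000000) (nat_lit 12712500) (nat_lit 12712500) [(nat_lit 800), (nat_lit 1600)] = true := by decide +kernel
def v15_30_0 : ivC P15_30 s15_30 w15_30 n15_30 (nat_lit 4) (nat_lit 5335) (nat_lit 0) (nat_lit 0) f168_1_0 f176_1_0 (nat_lit 1) (nat_lit 400) f168_1_400 f176_1_400 (nat_lit 19877745) (nat_lit 10758730) p15_30_0 = true := by decide +kernel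
def p15_30_1 : PF := (PF.cons (PF.cons (PF.cons (PF.cons (PF.leaf (nat_lit 2079963) (nat_lit 9808740) (nat_lit 57300072) (nat_lit 9808740) [(nat_lit 0), (nat_lit 0), (nat_lit 0), (nat_lit 0)]) (PF.cons (PF.leaf (nat_lit 2309920) (nat_lit 417959) (nat_lit 56847769) (nat_lit 9843083) [(nat_lit 417959), (nat_lit 0), (nat_lit 0), (nat_lit 0)]) (PF.cons (PF.leaf (nat_lit 2580569) (nat_lit 454792) (nat_lit 56320674) (nat_lit 9878554) [(nat_lit 454792), (nat_lit 0), (nat_lit 0), (nat_lit 0)]) (PF.cons (PF.leaf (nat_lit 2884201) (nat_lit 487402) (nat_lit 55733961) (nat_lit 9912643) [(nat_lit 487402), (nat_lit 0), (nat_lit 0), (nat_lit 0)]) (PF.cons (PF.leaf (nat_lit 3215702) (nat_lit 516652) (nat_lit 55098664) (nat_lit 9943536) [(nat_lit 516652), (nat_lit 0), (nat_lit 0), (nat_lit 0)]) (PF.cons (PF.leaf (nat_lit 3571036) (nat_lit 543082) (nat_lit 54423490) (nat_lit 9969910) [(nat_lit 543082), (nat_lit 0), (nat_lit 0), (nat_lit 0)]) (PF.cons (PF.leaf (nat_lit 3946805) (nat_lit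 567055) (nat_lit 53715657) (nat_lit 9990823) [(nat_lit 567055), (nat_lit 0), (nat_lit 0), (nat_lit 0)]) (PF.cons (PF.leaf (nat_lit 4340066) (nat_lit 588836) (nat_lit 52981330) (nat_lit 10005628) [(nat_lit 588836), (nat_lit 0), (nat_lit
 0), (nat_lit 0)]) (PF.cons (PF.leaf (nat_lit 4748234) (nat_lit 608626) (nat_lit 52225873) (nat_lit 10013925) [(nat_lit 608626), (nat_lit 0), (nat_lit 0), (nat_lit 0)]) (PF.cons (PF.leaf (nat_lit 5168943) (nat_lit 626589) (nat_lit 51454006) (nat_lit 10015502) [(nat_lit 626589), (nat_lit 0), (nat_lit 0), (nat_lit 0)]) (PF.cons PF.nil (PF.cons PF.nil PF.nil)))))))))))) (PF.cons (PF.cons (PF.leaf (nat_lit 2741116) (nat_lit 1584763) (nat_lit 55614478) (nat_lit 9909570) [(nat_lit 0), (nat_lit 1584763), (nat_lit 0), (nat_lit 0)]) (PF.cons (PF.leaf (nat_lit 3032834) (nat_lit 496317) (nat_lit 55043238) (nat_lit 9936652) [(nat_lit 496317), (nat_lit 1632605), (nat_lit 0), (nat_lit 0)]) (PF.cons (PF.leaf (nat_lit 3354849) (nat_lit 524759) (nat_lit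 54420118) (nat_lit 9960816) [(nat_lit 524759), (nat_lit 1678358), (nat_lit 0), (nat_lit 0)]) (PF.cons (PF.leaf (nat_lit 3701809) (nat_lit 550354) (nat_lit 53755666) (nat_lit 9980726) [(nat_lit 550354), (nat_lit 1721357), (nat_lit 0), (nat_lit 0)]) (PF.cons (PF.leaf (nat_lit 4069849) (nat_lit 573505) (nat_lit 53058035) (nat_lit 9995456) [(nat_lit 573505), (nat_lit 1761297), (nat_lit 0), (nat_lit 0)]) (PF.cons (PF.leaf (nat_lit 4455773) (nat_lit
 594495) (nat_lit 52333887) (nat_lit 10004388) [(nat_lit 594495), (nat_lit 1798058), (nat_lit 0), (nat_lit 0)]) (PF.cons (PF.leaf (nat_lit 4856797) (nat_lit 613533) (nat_lit 51588846) (nat_lit 10007144) [(nat_lit 613533), (nat_lit 1831622), (nat_lit 0), (nat_lit 0)]) (PF.cons (PF.leaf (nat_lit 5270510) (nat_lit 630784) (nat_lit 50827759) (nat_lit 10003531) [(nat_lit 630784), (nat_lit 1862032), (nat_lit 0), (nat_lit 0)]) (PF.cons (PF.leaf (nat_lit 5694728) (nat_lit 646385) (nat_lit 50054847) (nat_lit 9993507) [(nat_lit 646385), (nat_lit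 1889372), (nat_lit 0), (nat_lit 0)]) (PF.cons PF.nil PF.nil)))))))))) (PF.cons (PF.cons (PF.leaf (nat_lit 3498095) (nat_lit 1704689) (nat_lit 53726912) (nat_lit 9972521) [(nat_lit 0), (nat_lit 1704689), (nat_lit 0), (nat_lit 0)]) (PF.cons (PF.leaf (nat_lit 3834454) (nat_lit 556423) (nat_lit 53078454) (nat_lit 9986297) [(nat_lit 556423), (nat_lit 1743818), (nat_lit 0), (nat_lit 0)]) (PF.cons (PF.leaf (nat_lit 4193491) (nat_lit 578954) (nat_lit 52394814) (nat_lit 9995210) [(nat_lit 578954), (nat_lit 1780439), (nat_lit 0), (nat_lit 0)]) (PF.cons (PF.leaf (nat_lit 4571173) (nat_lit 599300) (nat_lit 51683681) (nat_lit 9998647) [(nat_lit 599300), (nat_lit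
 1814291), (nat_lit 0), (nat_lit 0)]) (PF.cons (PF.leaf (nat_lit 4964451) (nat_lit 617698) (nat_lit 50951240) (nat_lit 9996238) [(nat_lit 617698), (nat_lit 1845269), (nat_lit 0), (nat_lit 0)]) (PF.cons (PF.leaf (nat_lit 5370725) (nat_lit 634329) (nat_lit 50202642) (nat_lit 9987804) [(nat_lit 634329), (nat_lit 1873359), (nat_lit 0), (nat_lit 0)]) (PF.cons (PF.leaf (nat_lit 5787725) (nat_lit 649336) (nat_lit 49442273) (nat_lit 9973307) [(nat_lit 649336), (nat_lit 1898605), (nat_lit 0), (nat_lit 0)]) (PF.cons PF.nil (PF.cons PF.nil PF.nil))))))))) (PF.cons (PF.cons (PF.leaf (nat_lit 4319366) (nat_lit 1797993) (nat_lit 51724633) (nat_lit 9990200) [(nat_lit 0), (nat_lit 1797993), (nat_lit 0), (nat_lit 0)]) (PF.cons (PF.leaf (nat_lit 4687306) (nat_lit 603231) (nat_lit 51029896) (nat_lit 9988539) [(nat_lit 603231), (nat_lit 1829048), (nat_lit 0), (nat_lit 0)]) (PF.cons (PF.leaf (nat_lit 5071968) (nat_lit 621116) (nat_lit 50312547) (nat_lit 9981355) [(nat_lit 621116), (nat_lit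 1857558), (nat_lit 0), (nat_lit 0)]) (PF.cons (PF.leaf (nat_lit 5470205) (nat_lit 637225) (nat_lit 49578330) (nat_lit 9968471) [(nat_lit 637225), (nat_lit 1883445), (nat_lit 0), (nat_lit 0)]) (PF.cons (PF.leaf
 (nat_lit 5879570) (nat_lit 651718) (nat_lit 48831965) (nat_lit 9949855) [(nat_lit 651718), (nat_lit 1906706), (nat_lit 0), (nat_lit 0)]) (PF.cons (PF.leaf (nat_lit 6297942) (nat_lit 664728) (nat_lit 48077421) (nat_lit 9925578) [(nat_lit 664728), (nat_lit 1927390), (nat_lit 0), (nat_lit 0)]) (PF.cons PF.nil PF.nil))))))) (PF.cons (PF.cons (PF.leaf (nat_lit 5180575) (nat_lit 1868588) (nat_lit 49671857) (nat_lit 9962602) [(nat_lit 0), (nat_lit 1868588), (nat_lit 0), (nat_lit 0)]) (PF.cons (PF.leaf (nat_lit 5569736) (nat_lit 639459) (nat_lit 48954228) (nat_lit 9945654) [(nat_lit 639459), (nat_lit 1892367), (nat_lit 0), (nat_lit 0)]) (PF.cons (PF.leaf (nat_lit 5970887) (nat_lit 653526) (nat_lit 48223513) (nat_lit 9923276) [(nat_lit 653526), (nat_lit 1913742), (nat_lit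 0), (nat_lit 0)]) (PF.cons (PF.leaf (nat_lit 6381518) (nat_lit 666111) (nat_lit 47484033) (nat_lit 9895544) [(nat_lit 666111), (nat_lit 1932725), (nat_lit 0), (nat_lit 0)]) (PF.cons PF.nil PF.nil))))) (PF.cons (PF.cons (PF.leaf (nat_lit 6062616) (nat_lit 1919777) (nat_lit 47616259) (nat_lit 9893668) [(nat_lit 0), (nat_lit 1919777), (nat_lit 0), (nat_lit 0)]) (PF.cons (PF.leaf (nat_lit 6464764) (nat_lit 666985) (nat_lit
 46893286) (nat_lit 9862819) [(nat_lit 666985), (nat_lit 1937144), (nat_lit 0), (nat_lit 0)]) (PF.cons (PF.leaf (nat_lit 6875132) (nat_lit 677860) (nat_lit 46164388) (nat_lit 9827040) [(nat_lit 677860), (nat_lit 1952332), (nat_lit 0), (nat_lit 0)]) (PF.cons PF.nil PF.nil)))) (PF.cons (PF.cons (PF.leaf (nat_lit 6950652) (nat_lit 1954505) (nat_lit 45592607) (nat_lit 9789170) [(nat_lit 0), (nat_lit 1954505), (nat_lit 0), (nat_lit 0)]) (PF.cons (PF.leaf (nat_lit 7359312) (nat_lit 687275) (nat_lit 44877182) (nat_lit 9746379) [(nat_lit 687275), (nat_lit 1966329),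 (nat_lit 0), (nat_lit 0)]) PF.nil)) (PF.cons PF.nil (PF.cons PF.nil PF.nil))))))))) (PF.cons (PF.cons (PF.cons (PF.leaf (nat_lit 3347342) (nat_lit 3903063) (nat_lit 53261628) (nat_lit 9944121) [(nat_lit 0), (nat_lit 0), (nat_lit 3903063), (nat_lit 0)]) (PF.cons (PF.leaf (nat_lit 3649452) (nat_lit 528727) (nat_lit 52681714) (nat_lit 9954773) [(nat_lit 528727), (nat_lit 0), (nat_lit 3943596), (nat_lit 0)]) (PF.cons (PF.leaf (nat_lit 3979656) (nat_lit 554614) (nat_lit 52055208) (nat_lit 9961658) [(nat_lit 554614), (nat_lit 0), (nat_lit 3982716), (nat_lit 0)]) (PF.cons (PF.leaf (nat_lit 4332451) (nat_lit 577545) (nat_lit 51392879)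
 (nat_lit 9963943) [(nat_lit 577545), (nat_lit 0), (nat_lit 4019353), (nat_lit 0)]) (PF.cons (PF.leaf (nat_lit 4703932) (nat_lit 598016) (nat_lit 50702800) (nat_lit 9961091) [(nat_lit 598016), (nat_lit 0), (nat_lit 4052855), (nat_lit 0)]) (PF.cons (PF.leaf (nat_lit 5090965) (nat_lit 616361) (nat_lit 49991379) (nat_lit 9952787) [(nat_lit 616361), (nat_lit 0), (nat_lit 4082840), (nat_lit 0)]) (PF.cons (PF.leaf (nat_lit 5490893) (nat_lit 632824) (nat_lit 49263887) (nat_lit 9938879) [(nat_lit 632824), (nat_lit 0), (nat_lit 4109100), (nat_lit 0)]) (PF.cons (PF.leaf (nat_lit 5901430) (nat_lit 647593) (nat_lit 48524758) (nat_lit 9919350) [(nat_lit 647593), (nat_lit 0), (nat_lit 4131553), (nat_lit 0)]) (PF.cons PF.nil (PF.cons PF.nil PF.nil)))))))))) (PF.cons (PF.cons (PF.leaf (nat_lit 4113709) (nat_lit 1768382) (nat_lit 51377326) (nat_lit 9955636) [(nat_lit 0), (nat_lit 1768382), (nat_lit 4007466), (nat_lit 0)]) (PF.cons (PF.leaf (nat_lit 4454969) (nat_lit 581137) (nat_lit 50734549)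 (nat_lit 9953188) [(nat_lit 581137), (nat_lit 1800460), (nat_lit 4039476), (nat_lit 0)]) (PF.cons (PF.leaf (nat_lit 4816734) (nat_lit 601233) (nat_lit 50061499) (nat_lit 9945860) [(nat_lit 601233), (nat_lit
 1830143), (nat_lit 4068841), (nat_lit 0)]) (PF.cons (PF.leaf (nat_lit 5195006) (nat_lit 619146) (nat_lit 49365670) (nat_lit 9933347) [(nat_lit 619146), (nat_lit 1857263), (nat_lit 4095091), (nat_lit 0)]) (PF.cons (PF.leaf (nat_lit 5586824) (nat_lit 635155) (nat_lit 48652937) (nat_lit 9915513) [(nat_lit 635155), (nat_lit 1881775), (nat_lit 4117962), (nat_lit 0)]) (PF.cons (PF.leaf (nat_lit 5989710) (nat_lit 649469) (nat_lit 47928082) (nat_lit 9892343) [(nat_lit 649469), (nat_lit 1903703), (nat_lit 4137333), (nat_lit 0)]) (PF.cons (PF.leaf (nat_lit 6401541) (nat_lit 662252) (nat_lit 47195088) (nat_lit 9863923) [(nat_lit 662252), (nat_lit 1923110), (nat_lit 4153179), (nat_lit 0)]) (PF.cons PF.nil (PF.cons PF.nil PF.nil))))))))) (PF.cons (PF.cons (PF.leaf (nat_lit 4932079)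 (nat_lit 1842031) (nat_lit 49415596) (nat_lit 9926665) [(nat_lit 0), (nat_lit 1842031), (nat_lit 4082487), (nat_lit 0)]) (PF.cons (PF.leaf (nat_lit 5300145) (nat_lit 621165) (nat_lit 48738302) (nat_lit 9910343) [(nat_lit 621165), (nat_lit 1866908), (nat_lit 4105184), (nat_lit 0)]) (PF.cons (PF.leaf (nat_lit 5683027) (nat_lit 636839) (nat_lit 48042450) (nat_lit 9888949) [(nat_lit 636839), (nat_lit 1889442), (nat_lit
 4124850), (nat_lit 0)]) (PF.cons (PF.leaf (nat_lit 6077686) (nat_lit 650790) (nat_lit 47333438) (nat_lit 9862479) [(nat_lit 650790), (nat_lit 1909603), (nat_lit 4141317), (nat_lit 0)]) (PF.cons (PF.leaf (nat_lit 6481793) (nat_lit 663200) (nat_lit 46615615) (nat_lit 9831023) [(nat_lit 663200), (nat_lit 1927422), (nat_lit 4154525), (nat_lit 0)]) (PF.cons (PF.leaf (nat_lit 6893405) (nat_lit 674218) (nat_lit 45892564) (nat_lit 9794737) [(nat_lit 674218), (nat_lit 1942963), (nat_lit 4164493), (nat_lit 0)]) (PF.cons PF.nil PF.nil))))))) (PF.cons (PF.cons (PF.leaf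 (nat_lit 5780664) (nat_lit 1896094) (nat_lit 47431415) (nat_lit 9859248) [(nat_lit 0), (nat_lit 1896094), (nat_lit 4129865), (nat_lit 0)]) (PF.cons (PF.leaf (nat_lit 6166090) (nat_lit 651533) (nat_lit 46740139) (nat_lit 9829834) [(nat_lit 651533), (nat_lit 1914570), (nat_lit 4143594), (nat_lit 0)]) (PF.cons (PF.leaf (nat_lit 6561936) (nat_lit 663654) (nat_lit 46038865) (nat_lit 9795664) [(nat_lit 663654), (nat_lit 1930881), (nat_lit 4154327), (nat_lit 0)]) (PF.cons (PF.leaf (nat_lit 6965827) (nat_lit 674370) (nat_lit 45331547) (nat_lit 9756900) [(nat_lit 674370), (nat_lit 1945066), (nat_lit 4162051), (nat_lit 0)]) (PF.cons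
 PF.nil PF.nil))))) (PF.cons (PF.cons (PF.leaf (nat_lit 6642844) (nat_lit 1933534) (nat_lit 45464116) (nat_lit 9757902) [(nat_lit 0), (nat_lit 1933534), (nat_lit 4152656), (nat_lit 0)]) (PF.cons (PF.leaf (nat_lit 7038309) (nat_lit 674083) (nat_lit 44773747) (nat_lit 9716960) [(nat_lit 674083), (nat_lit 1946434), (nat_lit 4158282), (nat_lit 0)]) (PF.cons (PF.leaf (nat_lit 7440762) (nat_lit 683286) (nat_lit 44079638) (nat_lit 9671833) [(nat_lit 683286), (nat_lit 1957404), (nat_lit 4161151), (nat_lit 0)]) (PF.cons PF.nil PF.nil)))) (PF.cons (PF.cons (PF.leaf (nat_lit 7506002) (nat_lit 1956982) (nat_lit 43541421) (nat_lit 9628132) [(nat_lit 0), (nat_lit 1956982), (nat_lit 4154347), (nat_lit 0)]) (PF.cons PF.nil PF.nil)) (PF.cons PF.nil (PF.cons PF.nil PF.nil)))))))) (PF.cons (PF.cons (PF.cons (PF.leaf (nat_lit 4709781) (nat_lit 4054766) (nat_lit 49109931) (nat_lit 9889349) [(nat_lit 0), (nat_lit 0), (nat_lit 4054766), (nat_lit 0)]) (PF.cons (PF.leaf (nat_lit 5052925) (nat_lit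 599702) (nat_lit 48481240) (nat_lit 9873666) [(nat_lit 599702), (nat_lit 0), (nat_lit 4077101), (nat_lit 0)]) (PF.cons (PF.leaf (nat_lit 5414687) (nat_lit 617652) (nat_lit 47826430) (nat_lit 9853254) [(nat_lit
 617652), (nat_lit 0), (nat_lit 4096911), (nat_lit 0)]) (PF.cons (PF.leaf (nat_lit 5791141) (nat_lit 633445) (nat_lit 47152689) (nat_lit 9828043) [(nat_lit 633445), (nat_lit 0), (nat_lit 4113871), (nat_lit 0)]) (PF.cons (PF.leaf (nat_lit 6179416) (nat_lit 647392) (nat_lit 46465538) (nat_lit 9798062) [(nat_lit 647392), (nat_lit 0), (nat_lit 4127821), (nat_lit 0)]) (PF.cons (PF.leaf (nat_lit 6577171) (nat_lit 659721) (nat_lit 45769381) (nat_lit 9763415) [(nat_lit 659721), (nat_lit 0), (nat_lit 4138703), (nat_lit 0)]) (PF.cons (PF.leaf (nat_lit 6982413) (nat_lit 670608) (nat_lit 45067824) (nat_lit 9724264) [(nat_lit 670608), (nat_lit 0), (nat_lit 4146535), (nat_lit 0)]) (PF.cons PF.nil (PF.cons PF.nil PF.nil))))))))) (PF.cons (PF.cons (PF.leaf (nat_lit 5519782) (nat_lit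 1870736) (nat_lit 47209501) (nat_lit 9823201) [(nat_lit 0), (nat_lit 1870736), (nat_lit 4102686), (nat_lit 0)]) (PF.cons (PF.leaf (nat_lit 5885797) (nat_lit 633930) (nat_lit 46555437) (nat_lit 9795275) [(nat_lit 633930), (nat_lit 1890457), (nat_lit 4116855), (nat_lit 0)]) (PF.cons (PF.leaf (nat_lit 6265007) (nat_lit 647688) (nat_lit 45886074) (nat_lit 9762753) [(nat_lit 647688), (nat_lit 1908024), (nat_lit 4128291),
 (nat_lit 0)]) (PF.cons (PF.leaf (nat_lit 6654496) (nat_lit 659784) (nat_lit 45206454) (nat_lit 9725757) [(nat_lit 659784), (nat_lit 1923446), (nat_lit 4136901), (nat_lit 0)]) (PF.cons (PF.leaf (nat_lit 7052067) (nat_lit 670416) (nat_lit 44520558) (nat_lit 9684458) [(nat_lit 670416), (nat_lit 1936776), (nat_lit 4142676), (nat_lit 0)]) (PF.cons PF.nil (PF.cons PF.nil PF.nil))))))) (PF.cons (PF.cons (PF.leaf (nat_lit 6352343) (nat_lit 1911203) (nat_lit 45306994) (nat_lit 9724906) [(nat_lit 0), (nat_lit 1911203), (nat_lit 4127252), (nat_lit 0)]) (PF.cons (PF.leaf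 (nat_lit 6732596) (nat_lit 659337) (nat_lit 44645550) (nat_lit 9685887) [(nat_lit 659337), (nat_lit 1925284), (nat_lit 4133734), (nat_lit 0)]) (PF.cons (PF.leaf (nat_lit 7121964) (nat_lit 669793) (nat_lit 43976487) (nat_lit 9642727) [(nat_lit 669793), (nat_lit 1937416), (nat_lit 4137589), (nat_lit 0)]) (PF.cons (PF.leaf (nat_lit 7518203) (nat_lit 678920) (nat_lit 43303414) (nat_lit 9595645) [(nat_lit 678920), (nat_lit 1947656), (nat_lit 4138840), (nat_lit 0)]) (PF.cons PF.nil PF.nil))))) (PF.cons (PF.cons (PF.leaf (nat_lit 7192960) (nat_lit 1937403) (nat_lit 43434861) (nat_lit 9599093) [(nat_lit 0), (nat_lit 1937403),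
 (nat_lit 4131323), (nat_lit 0)]) (PF.cons (PF.leaf (nat_lit 7580915) (nat_lit 677712) (nat_lit 42778695) (nat_lit 9550589) [(nat_lit 677712), (nat_lit 1946628), (nat_lit 4130964), (nat_lit 0)]) (PF.cons PF.nil (PF.cons PF.nil PF.nil)))) (PF.cons (PF.cons (PF.leaf (nat_lit 8030842) (nat_lit 1951692) (nat_lit 41615214) (nat_lit 9450826) [(nat_lit 0), (nat_lit 1951692), (nat_lit 4118001), (nat_lit 0)]) (PF.cons PF.nil PF.nil)) (PF.cons PF.nil PF.nil)))))) (PF.cons (PF.cons (PF.cons (PF.leaf (nat_lit 6081945) (nat_lit 4101155) (nat_lit 45115514) (nat_lit 9689831) [(nat_lit 0), (nat_lit 0), (nat_lit 4101155), (nat_lit 0)]) (PF.cons (PF.leaf (nat_lit 6444306) (nat_lit 642485) (nat_lit 44488220) (nat_lit 9652883) [(nat_lit 642485), (nat_lit 0), (nat_lit 4108407), (nat_lit 0)]) (PF.cons (PF.leaf (nat_lit 6818507) (nat_lit 654581) (nat_lit 43848244) (nat_lit 9611805) [(nat_lit 654581), (nat_lit 0), (nat_lit 4113199), (nat_lit 0)]) (PF.cons (PF.leaf (nat_lit 7201747) (nat_lit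 665081) (nat_lit 43200266) (nat_lit 9566807) [(nat_lit 665081), (nat_lit 0), (nat_lit 4115498), (nat_lit 0)]) (PF.cons (PF.leaf (nat_lit 7591939) (nat_lit 674195) (nat_lit 42547928) (nat_lit 9518114) [(nat_lit 674195),
 (nat_lit 0), (nat_lit 4115329), (nat_lit 0)]) PF.nil))))) (PF.cons (PF.cons (PF.leaf (nat_lit 6896292) (nat_lit 1916463) (nat_lit 43301880) (nat_lit 9568053) [(nat_lit 0), (nat_lit 1916463), (nat_lit 4107471), (nat_lit 0)]) (PF.cons (PF.leaf (nat_lit 7270392) (nat_lit 663689) (nat_lit 42672029) (nat_lit 9521777) [(nat_lit 663689), (nat_lit 1926902), (nat_lit 4108138), (nat_lit 0)]) (PF.cons (PF.leaf (nat_lit 7652525) (nat_lit 672718) (nat_lit 42036380) (nat_lit 9471909) [(nat_lit 672718), (nat_lit 1935586), (nat_lit 4106499), (nat_lit 0)]) (PF.cons PF.nil PF.nil)))) (PF.cons (PF.cons (PF.leaf (nat_lit 7714495) (nat_lit 1933481) (nat_lit 41527476) (nat_lit 9424199) [(nat_lit 0), (nat_lit 1933481), (nat_lit 4096724), (nat_lit 0)]) (PF.cons (PF.leaf (nat_lit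 8094454) (nat_lit 678559) (nat_lit 40905861) (nat_lit 9370170) [(nat_lit 678559), (nat_lit 1939686), (nat_lit 4091615), (nat_lit 0)]) PF.nil)) (PF.cons PF.nil (PF.cons PF.nil PF.nil))))) (PF.cons (PF.cons (PF.cons (PF.leaf (nat_lit 7413644) (nat_lit 4074506) (nat_lit 41415396) (nat_lit 9395392) [(nat_lit 0), (nat_lit 0), (nat_lit 4074506), (nat_lit 0)]) (PF.cons (PF.leaf (nat_lit 7780929) (nat_lit 665256) (nat_lit 40817682)
 (nat_lit 9343768) [(nat_lit 665256), (nat_lit 0), (nat_lit 4070526), (nat_lit 0)]) (PF.cons (PF.leaf (nat_lit 8155369) (nat_lit 673063) (nat_lit 40215560) (nat_lit 9289030) [(nat_lit 673063), (nat_lit 0), (nat_lit 4064523), (nat_lit 0)]) (PF.cons PF.nil PF.nil)))) (PF.cons (PF.cons (PF.leaf (nat_lit 8209175) (nat_lit 1923454) (nat_lit 39738321) (nat_lit 9238645) [(nat_lit 0), (nat_lit 1923454), (nat_lit 4052098), (nat_lit 0)]) (PF.cons (PF.leaf (nat_lit 8580888) (nat_lit 677185) (nat_lit 39150756) (nat_lit 9180720) [(nat_lit 677185), (nat_lit 1927180),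 (nat_lit 4043242), (nat_lit 0)]) PF.nil)) (PF.cons PF.nil PF.nil))) (PF.cons (PF.cons (PF.cons (PF.leaf (nat_lit 8678799) (nat_lit 4000008) (nat_lit 38062142) (nat_lit 9046630) [(nat_lit 0), (nat_lit 0), (nat_lit 4000008), (nat_lit 0)]) (PF.cons PF.nil PF.nil)) (PF.cons PF.nil PF.nil)) (PF.cons PF.nil (PF.cons PF.nil PF.nil)))))))) (PF.cons (PF.cons (PF.cons (PF.cons (PF.leaf (nat_lit 4213553) (nat_lit 9018114) (nat_lit 48360158) (nat_lit 9730540) [(nat_lit 0), (nat_lit 0), (nat_lit 0), (nat_lit 9018114)]) (PF.cons (PF.leaf (nat_lit 4511398) (nat_lit 542999) (nat_lit 47832581) (nat_lit 9720069) [(nat_lit 542999), (nat_lit 0),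
 (nat_lit 0), (nat_lit 9013162)]) (PF.cons (PF.leaf (nat_lit 4834816) (nat_lit 566536) (nat_lit 47265721) (nat_lit 9705498) [(nat_lit 566536), (nat_lit 0), (nat_lit 0), (nat_lit 9004520)]) (PF.cons (PF.leaf (nat_lit 5178274) (nat_lit 586931) (nat_lit 46669548) (nat_lit 9686601) [(nat_lit 586931), (nat_lit 0), (nat_lit 0), (nat_lit 8991869)]) (PF.cons (PF.leaf (nat_lit 5537943) (nat_lit 604777) (nat_lit 46051393) (nat_lit 9663270) [(nat_lit 604777), (nat_lit 0), (nat_lit 0), (nat_lit 8975039)]) (PF.cons (PF.leaf (nat_lit 5910813) (nat_lit 620480) (nat_lit 45416946) (nat_lit 9635494) [(nat_lit 620480), (nat_lit 0), (nat_lit 0), (nat_lit 8953971)]) (PF.cons (PF.leaf (nat_lit 6294409) (nat_lit 634333) (nat_lit 44770784) (nat_lit 9603336) [(nat_lit 634333), (nat_lit 0), (nat_lit 0), (nat_lit 8928690)]) (PF.cons (PF.leaf (nat_lit 6686637) (nat_lit 646562) (nat_lit 44116669) (nat_lit 9566918) [(nat_lit 646562), (nat_lit 0), (nat_lit 0), (nat_lit 8899290)]) (PF.cons (PF.leaf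 (nat_lit 7085742) (nat_lit 657343) (nat_lit 43457747) (nat_lit 9526408) [(nat_lit 657343), (nat_lit 0), (nat_lit 0), (nat_lit 8865911)]) (PF.cons PF.nil PF.nil)))))))))) (PF.cons (PF.cons (PF.leaf (nat_lit 4952619)
 (nat_lit 1783477) (nat_lit 46662201) (nat_lit 9679047) [(nat_lit 0), (nat_lit 1783477), (nat_lit 0), (nat_lit 8984086)]) (PF.cons (PF.leaf (nat_lit 5284138) (nat_lit 588124) (nat_lit 46085991) (nat_lit 9657544) [(nat_lit 588124), (nat_lit 1808483), (nat_lit 0), (nat_lit 8968668)]) (PF.cons (PF.leaf (nat_lit 5633832) (nat_lit 605788) (nat_lit 45485205) (nat_lit 9631709) [(nat_lit 605788), (nat_lit 1831112), (nat_lit 0), (nat_lit 8949208)]) (PF.cons (PF.leaf (nat_lit 5997851) (nat_lit 621239) (nat_lit 44866527) (nat_lit 9601569) [(nat_lit 621239), (nat_lit 1851326), (nat_lit 0), (nat_lit 8925670)]) (PF.cons (PF.leaf (nat_lit 6373388) (nat_lit 634810) (nat_lit 44235095) (nat_lit 9567209) [(nat_lit 634810), (nat_lit 1869168), (nat_lit 0), (nat_lit 8898096)]) (PF.cons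 (PF.leaf (nat_lit 6758138) (nat_lit 646747) (nat_lit 43595003) (nat_lit 9528763) [(nat_lit 646747), (nat_lit 1884724), (nat_lit 0), (nat_lit 8866586)]) (PF.cons (PF.leaf (nat_lit 7150210) (nat_lit 657237) (nat_lit 42949596) (nat_lit 9486406) [(nat_lit 657237), (nat_lit 1898099), (nat_lit 0), (nat_lit 8831284)]) (PF.cons PF.nil (PF.cons PF.nil PF.nil))))))))) (PF.cons (PF.cons (PF.leaf (nat_lit 5732644) (nat_lit 1837165)
 (nat_lit 44916393) (nat_lit 9597381) [(nat_lit 0), (nat_lit 1837165), (nat_lit 0), (nat_lit 8920706)]) (PF.cons (PF.leaf (nat_lit 6086458) (nat_lit 621351) (nat_lit 44315832) (nat_lit 9565228) [(nat_lit 621351), (nat_lit 1855687), (nat_lit 0), (nat_lit 8895024)]) (PF.cons (PF.leaf (nat_lit 6453175) (nat_lit 634753) (nat_lit 43700777) (nat_lit 9528969) [(nat_lit 634753), (nat_lit 1872058), (nat_lit 0), (nat_lit 8865441)]) (PF.cons (PF.leaf (nat_lit 6829922) (nat_lit 646481) (nat_lit 43075894) (nat_lit 9488763) [(nat_lit 646481), (nat_lit 1886317), (nat_lit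 0), (nat_lit 8832073)]) (PF.cons (PF.leaf (nat_lit 7214594) (nat_lit 656747) (nat_lit 42444871) (nat_lit 9444797) [(nat_lit 656747), (nat_lit 1898539), (nat_lit 0), (nat_lit 8795073)]) (PF.cons (PF.leaf (nat_lit 7605401) (nat_lit 665716) (nat_lit 41810693) (nat_lit 9397277) [(nat_lit 665716), (nat_lit 1908819), (nat_lit 0), (nat_lit 8754621)]) (PF.cons PF.nil PF.nil))))))) (PF.cons (PF.cons (PF.leaf (nat_lit 6534858) (nat_lit 1874212) (nat_lit 43166828) (nat_lit 9488612) [(nat_lit 0), (nat_lit 1874212), (nat_lit 0), (nat_lit 8830732)]) (PF.cons (PF.leaf (nat_lit 6902660) (nat_lit 645740) (nat_lit 42558636) (nat_lit 9446935)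
 [(nat_lit 645740), (nat_lit 1887240), (nat_lit 0), (nat_lit 8795777)]) (PF.cons (PF.leaf (nat_lit 7279421) (nat_lit 655857) (nat_lit 41943050) (nat_lit 9401610) [(nat_lit 655857), (nat_lit 1898373), (nat_lit 0), (nat_lit 8757315)]) (PF.cons (PF.leaf (nat_lit 7662943) (nat_lit 664656) (nat_lit 41323401) (nat_lit 9352858) [(nat_lit 664656), (nat_lit 1907682), (nat_lit 0), (nat_lit 8715535)]) (PF.cons (PF.leaf (nat_lit 8051588) (nat_lit 672284) (nat_lit 40702364) (nat_lit 9300908) [(nat_lit 672284), (nat_lit 1915254), (nat_lit 0), (nat_lit 8670640)]) PF.nil))))) (PF.cons (PF.cons (PF.leaf (nat_lit 7345527) (nat_lit 1897631) (nat_lit 41443419) (nat_lit 9356848) [(nat_lit 0), (nat_lit 1897631), (nat_lit 0), (nat_lit 8718018)]) (PF.cons (PF.leaf (nat_lit 7721074) (nat_lit 663238) (nat_lit 40839240) (nat_lit 9307097) [(nat_lit 663238), (nat_lit 1906026), (nat_lit 0), (nat_lit 8675130)]) (PF.cons (PF.leaf (nat_lit 8102579) (nat_lit 670742) (nat_lit 40232711) (nat_lit 9254250)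 [(nat_lit 670742), (nat_lit 1912782), (nat_lit 0), (nat_lit 8629238)]) (PF.cons PF.nil PF.nil)))) (PF.cons (PF.cons (PF.leaf (nat_lit 8154486) (nat_lit 1909862) (nat_lit 39766323) (nat_lit 9206458) [(nat_lit 0),
 (nat_lit 1909862), (nat_lit 0), (nat_lit 8586718)]) (PF.cons (PF.leaf (nat_lit 8533067) (nat_lit 675235) (nat_lit 39174200) (nat_lit 9150156) [(nat_lit 675235), (nat_lit 1914377), (nat_lit 0), (nat_lit 8537332)]) PF.nil)) (PF.cons PF.nil (PF.cons PF.nil PF.nil)))))))) (PF.cons (PF.cons (PF.cons (PF.leaf (nat_lit 5499632) (nat_lit 4000286) (nat_lit 44665664) (nat_lit 9558791) [(nat_lit 0), (nat_lit 0), (nat_lit 4000286), (nat_lit 8884071)]) (PF.cons (PF.leaf (nat_lit 5830841) (nat_lit 600245) (nat_lit 44107498) (nat_lit 9528788) [(nat_lit 600245), (nat_lit 0), (nat_lit 4012100), (nat_lit 8860180)]) (PF.cons (PF.leaf (nat_lit 6178692) (nat_lit 616065) (nat_lit 43527944) (nat_lit 9494667) [(nat_lit 616065), (nat_lit 0), (nat_lit 4021630), (nat_lit 8832439)]) (PF.cons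 (PF.leaf (nat_lit 6539409) (nat_lit 629740) (nat_lit 42933326) (nat_lit 9456594) [(nat_lit 629740), (nat_lit 0), (nat_lit 4028714), (nat_lit 8800955)]) (PF.cons (PF.leaf (nat_lit 6910314) (nat_lit 641617) (nat_lit 42328426) (nat_lit 9414752) [(nat_lit 641617), (nat_lit 0), (nat_lit 4033299), (nat_lit 8765864)]) (PF.cons (PF.leaf (nat_lit 7289225) (nat_lit 651949) (nat_lit 41716996) (nat_lit 9369338) [(nat_lit 651949),
 (nat_lit 0), (nat_lit 4035399), (nat_lit 8727330)]) (PF.cons (PF.leaf (nat_lit 7674356) (nat_lit 660930) (nat_lit 41102056) (nat_lit 9320566) [(nat_lit 660930), (nat_lit 0), (nat_lit 4035072), (nat_lit 8685535)]) (PF.cons PF.nil (PF.cons PF.nil PF.nil))))))))) (PF.cons (PF.cons (PF.leaf (nat_lit 6268512) (nat_lit 1849805) (nat_lit 42988192) (nat_lit 9454021) [(nat_lit 0), (nat_lit 1849805), (nat_lit 4019232), (nat_lit 8797561)]) (PF.cons (PF.leaf (nat_lit 6619014) (nat_lit 628740) (nat_lit 42411984) (nat_lit 9414673) [(nat_lit 628740), (nat_lit 1864343),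 (nat_lit 4024414), (nat_lit 8764657)]) (PF.cons (PF.leaf (nat_lit 6981141) (nat_lit 640564) (nat_lit 41823631) (nat_lit 9371611) [(nat_lit 640564), (nat_lit 1876920), (nat_lit 4027296), (nat_lit 8728223)]) (PF.cons (PF.leaf (nat_lit 7352151) (nat_lit 650791) (nat_lit 41227461) (nat_lit 9325065) [(nat_lit 650791), (nat_lit 1887598), (nat_lit 4027867), (nat_lit 8688446)]) (PF.cons (PF.leaf (nat_lit 7730032) (nat_lit 659637) (nat_lit 40626848) (nat_lit 9275264) [(nat_lit 659637), (nat_lit 1896459), (nat_lit 4026166), (nat_lit 8645523)]) (PF.cons (PF.leaf (nat_lit 8113129) (nat_lit 667272) (nat_lit 40024485) (nat_lit 9222440)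
 [(nat_lit 667272), (nat_lit 1903601), (nat_lit 4022266), (nat_lit 8599657)]) (PF.cons PF.nil PF.nil))))))) (PF.cons (PF.cons (PF.leaf (nat_lit 7054133) (nat_lit 1876648) (nat_lit 41319635) (nat_lit 9326744) [(nat_lit 0), (nat_lit 1876648), (nat_lit 4020229), (nat_lit 8688906)]) (PF.cons (PF.leaf (nat_lit 7416309) (nat_lit 649207) (nat_lit 40740038) (nat_lit 9279331) [(nat_lit 649207), (nat_lit 1886356), (nat_lit 4019388), (nat_lit 8648135)]) (PF.cons (PF.leaf (nat_lit 7786437) (nat_lit 657991) (nat_lit 40154667) (nat_lit 9228726) [(nat_lit 657991), (nat_lit 1894361), (nat_lit 4016419), (nat_lit 8604293)]) (PF.cons (PF.leaf (nat_lit 8162439) (nat_lit 665533) (nat_lit 39566566) (nat_lit 9175179) [(nat_lit 665533), (nat_lit 1900741), (nat_lit 4011382), (nat_lit 8557600)]) (PF.cons PF.nil PF.nil))))) (PF.cons (PF.cons (PF.leaf (nat_lit 7844376) (nat_lit 1891794) (nat_lit 39684806) (nat_lit 9180932) [(nat_lit 0), (nat_lit 1891794), (nat_lit 4005856), (nat_lit 8561835)]) (PF.cons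 (PF.leaf (nat_lit 8212602) (nat_lit 663477) (nat_lit 39111792) (nat_lit 9126872) [(nat_lit 663477), (nat_lit 1897460), (nat_lit 3999778), (nat_lit 8514510)]) (PF.cons (PF.leaf (nat_lit 8586030) (nat_lit 669869)
 (nat_lit 38537452) (nat_lit 9070173) [(nat_lit 669869), (nat_lit 1901668), (nat_lit 3991822), (nat_lit 8464620)]) (PF.cons PF.nil PF.nil)))) (PF.cons (PF.cons (PF.leaf (nat_lit 8630436) (nat_lit 1897389) (nat_lit 38099952) (nat_lit 9020533) [(nat_lit 0), (nat_lit 1897389), (nat_lit 3978671), (nat_lit 8420098)]) (PF.cons PF.nil PF.nil)) (PF.cons PF.nil PF.nil)))))) (PF.cons (PF.cons (PF.cons (PF.leaf (nat_lit 6781525) (nat_lit 3995638) (nat_lit 41165886) (nat_lit 9294096) [(nat_lit 0), (nat_lit 0), (nat_lit 3995638), (nat_lit 8657552)]) (PF.cons (PF.leaf (nat_lit 7127698) (nat_lit 633064) (nat_lit 40615503) (nat_lit 9249278) [(nat_lit 633064), (nat_lit 0), (nat_lit 3995931), (nat_lit 8619104)]) (PF.cons (PF.leaf (nat_lit 7484424) (nat_lit 643522) (nat_lit 40054866)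 (nat_lit 9201115) [(nat_lit 643522), (nat_lit 0), (nat_lit 3994155), (nat_lit 8577475)]) (PF.cons (PF.leaf (nat_lit 7849058) (nat_lit 652456) (nat_lit 39487987) (nat_lit 9149884) [(nat_lit 652456), (nat_lit 0), (nat_lit 3990335), (nat_lit 8532900)]) (PF.cons (PF.leaf (nat_lit 8219700) (nat_lit 660088) (nat_lit 38917948) (nat_lit 9095843) [(nat_lit 660088), (nat_lit 0), (nat_lit 3984531), (nat_lit 8485604)]) (PF.cons
 PF.nil (PF.cons PF.nil PF.nil))))))) (PF.cons (PF.cons (PF.leaf (nat_lit 7549420) (nat_lit 1872289) (nat_lit 39580356) (nat_lit 9153153) [(nat_lit 0), (nat_lit 1872289), (nat_lit 3984041), (nat_lit 8534930)]) (PF.cons (PF.leaf (nat_lit 7905394) (nat_lit 650206) (nat_lit 39029662) (nat_lit 9101538) [(nat_lit 650206), (nat_lit 1879245), (nat_lit 3979161), (nat_lit 8489836)]) (PF.cons (PF.leaf (nat_lit 8268479) (nat_lit 657846) (nat_lit 38474446) (nat_lit 9047134) [(nat_lit 657846), (nat_lit 1884666), (nat_lit 3972407), (nat_lit 8442056)]) (PF.cons (PF.leaf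 (nat_lit 8636700) (nat_lit 664315) (nat_lit 37917489) (nat_lit 8990208) [(nat_lit 664315), (nat_lit 1888637), (nat_lit 3963851), (nat_lit 8391827)]) (PF.cons PF.nil PF.nil))))) (PF.cons (PF.cons (PF.leaf (nat_lit 8319014) (nat_lit 1880675) (nat_lit 38033262) (nat_lit 8997425) [(nat_lit 0), (nat_lit 1880675), (nat_lit 3959622), (nat_lit 8397526)]) (PF.cons (PF.leaf (nat_lit 8679685) (nat_lit 661760) (nat_lit 37490846) (nat_lit 8940367) [(nat_lit 661760), (nat_lit 1884095), (nat_lit 3950302), (nat_lit 8347043)]) (PF.cons PF.nil (PF.cons PF.nil PF.nil)))) (PF.cons (PF.cons (PF.leaf (nat_lit 9082601) (nat_lit 1880887) (nat_lit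
 36537771) (nat_lit 8830435) [(nat_lit 0), (nat_lit 1880887), (nat_lit 3924626), (nat_lit 8248688)]) (PF.cons PF.nil PF.nil)) (PF.cons PF.nil PF.nil))))) (PF.cons (PF.cons (PF.cons (PF.leaf (nat_lit 8021916) (nat_lit 3939495) (nat_lit 37945467) (nat_lit 8971999) [(nat_lit 0), (nat_lit 0), (nat_lit 3939495), (nat_lit 8372860)]) (PF.cons (PF.leaf (nat_lit 8371311) (nat_lit 649218) (nat_lit 37423320) (nat_lit 8917424) [(nat_lit 649218), (nat_lit 0), (nat_lit 3931398), (nat_lit 8324652)]) (PF.cons (PF.leaf (nat_lit 8727128) (nat_lit 655874) (nat_lit 36897616) (nat_lit 8860410) [(nat_lit 655874), (nat_lit 0), (nat_lit 3921647), (nat_lit 8274094)]) (PF.cons PF.nil PF.nil)))) (PF.cons (PF.cons (PF.leaf (nat_lit 8770965) (nat_lit 1865441) (nat_lit 36483728) (nat_lit 8809651) [(nat_lit 0), (nat_lit 1865441), (nat_lit 3907216), (nat_lit 8228341)]) (PF.cons (PF.leaf (nat_lit 9123995) (nat_lit 658482) (nat_lit 35970908) (nat_lit 8750641) [(nat_lit 658482), (nat_lit 1867011), (nat_lit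 3895349), (nat_lit 8175719)]) PF.nil)) (PF.cons PF.nil PF.nil))) (PF.cons (PF.cons (PF.cons (PF.leaf (nat_lit 9201765) (nat_lit 3850334) (nat_lit 35030513) (nat_lit 8620171) [(nat_lit 0), (nat_lit 0), (nat_lit
 3850334), (nat_lit 8056790)]) (PF.cons PF.nil PF.nil)) (PF.cons PF.nil PF.nil)) (PF.cons PF.nil PF.nil)))))) (PF.cons (PF.cons (PF.cons (PF.cons (PF.leaf (nat_lit 6200618) (nat_lit 8548700) (nat_lit 40828971) (nat_lit 9182440) [(nat_lit 0), (nat_lit 0), (nat_lit 0), (nat_lit 8548700)]) (PF.cons (PF.leaf (nat_lit 6519488) (nat_lit 594133) (nat_lit 40335897) (nat_lit 9144828) [(nat_lit 594133), (nat_lit 0), (nat_lit 0), (nat_lit 8516976)]) (PF.cons (PF.leaf (nat_lit 6853471) (nat_lit 608273) (nat_lit 39824918) (nat_lit 9103604) [(nat_lit 608273), (nat_lit 0), (nat_lit 0), (nat_lit 8481870)]) (PF.cons (PF.leaf (nat_lit 7198945) (nat_lit 620314) (nat_lit 39301563) (nat_lit 9059064) [(nat_lit 620314), (nat_lit 0), (nat_lit 0), (nat_lit 8443621)]) (PF.cons (PF.leaf (nat_lit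 7553378) (nat_lit 630621) (nat_lit 38769962) (nat_lit 9011470) [(nat_lit 630621), (nat_lit 0), (nat_lit 0), (nat_lit 8402446)]) (PF.cons (PF.leaf (nat_lit 7914783) (nat_lit 639463) (nat_lit 38233321) (nat_lit 8961066) [(nat_lit 639463), (nat_lit 0), (nat_lit 0), (nat_lit 8358555)]) (PF.cons (PF.leaf (nat_lit 8281494) (nat_lit 647038) (nat_lit 37694191) (nat_lit 8908082) [(nat_lit 647038), (nat_lit 0), (nat_lit 0),
 (nat_lit 8312152)]) (PF.cons PF.nil (PF.cons PF.nil PF.nil))))))))) (PF.cons (PF.cons (PF.leaf (nat_lit 6931013) (nat_lit 1813262) (nat_lit 39353634) (nat_lit 9058149) [(nat_lit 0), (nat_lit 1813262), (nat_lit 0), (nat_lit 8441883)]) (PF.cons (PF.leaf (nat_lit 7266614) (nat_lit 618345) (nat_lit 38846937) (nat_lit 9013217) [(nat_lit 618345), (nat_lit 1824147), (nat_lit 0), (nat_lit 8403082)]) (PF.cons (PF.leaf (nat_lit 7612655) (nat_lit 628699) (nat_lit 38330237) (nat_lit 8965211) [(nat_lit 628699), (nat_lit 1833246), (nat_lit 0), (nat_lit 8361358)]) (PF.cons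 (PF.leaf (nat_lit 7966557) (nat_lit 637526) (nat_lit 37807262) (nat_lit 8914415) [(nat_lit 637526), (nat_lit 1840649), (nat_lit 0), (nat_lit 8316952)]) (PF.cons (PF.leaf (nat_lit 8326466) (nat_lit 645054) (nat_lit 37280883) (nat_lit 8861080) [(nat_lit 645054), (nat_lit 1846458), (nat_lit 0), (nat_lit 8270087)]) (PF.cons PF.nil (PF.cons PF.nil PF.nil))))))) (PF.cons (PF.cons (PF.leaf (nat_lit 7674395) (nat_lit 1830794) (nat_lit 37891315) (nat_lit 8917735) [(nat_lit 0), (nat_lit 1830794), (nat_lit 0), (nat_lit 8319086)]) (PF.cons (PF.leaf (nat_lit 8019896) (nat_lit 635225) (nat_lit 37383091) (nat_lit 8866767) [(nat_lit 635225),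
 (nat_lit 1837492), (nat_lit 0), (nat_lit 8274371)]) (PF.cons (PF.leaf (nat_lit 8372505) (nat_lit 642770) (nat_lit 36870213) (nat_lit 8813263) [(nat_lit 642770), (nat_lit 1842684), (nat_lit 0), (nat_lit 8227213)]) (PF.cons (PF.leaf (nat_lit 8730279) (nat_lit 649152) (nat_lit 36355269) (nat_lit 8757480) [(nat_lit 649152), (nat_lit 1846461), (nat_lit 0), (nat_lit 8177840)]) (PF.cons PF.nil PF.nil))))) (PF.cons (PF.cons (PF.leaf (nat_lit 8420389) (nat_lit 1838565) (nat_lit 36461530) (nat_lit 8764590) [(nat_lit 0), (nat_lit 1838565), (nat_lit 0), (nat_lit 8183497)]) (PF.cons (PF.leaf (nat_lit 8770862) (nat_lit 646581) (nat_lit 35959836) (nat_lit 8708832) [(nat_lit 646581), (nat_lit 1841837), (nat_lit 0), (nat_lit 8134025)]) (PF.cons PF.nil (PF.cons PF.nil PF.nil)))) (PF.cons (PF.cons (PF.leaf (nat_lit 9161591) (nat_lit 1838512) (nat_lit 35076708) (nat_lit 8601851) [(nat_lit 0), (nat_lit 1838512), (nat_lit 0), (nat_lit 8038101)]) (PF.cons PF.nil PF.nil)) (PF.cons PF.nil PF.nil))))))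 (PF.cons (PF.cons (PF.cons (PF.leaf (nat_lit 7402944) (nat_lit 3871904) (nat_lit 37767422) (nat_lit 8888195) [(nat_lit 0), (nat_lit 0), (nat_lit 3871904), (nat_lit 8290644)]) (PF.cons (PF.leaf (nat_lit
 7733980) (nat_lit 619889) (nat_lit 37284191) (nat_lit 8840005) [(nat_lit 619889), (nat_lit 0), (nat_lit 3867823), (nat_lit 8248451)]) (PF.cons (PF.leaf (nat_lit 8074593) (nat_lit 629100) (nat_lit 36792377) (nat_lit 8789035) [(nat_lit 629100), (nat_lit 0), (nat_lit 3861973), (nat_lit 8203612)]) (PF.cons (PF.leaf (nat_lit 8422283) (nat_lit 636859) (nat_lit 36295432) (nat_lit 8735592) [(nat_lit 636859), (nat_lit 0), (nat_lit 3854413), (nat_lit 8156397)]) (PF.cons (PF.leaf (nat_lit 8775289) (nat_lit 643394) (nat_lit 35795988) (nat_lit 8679943) [(nat_lit 643394), (nat_lit 0), (nat_lit 3845220), (nat_lit 8107040)]) PF.nil))))) (PF.cons (PF.cons (PF.leaf (nat_lit 8129592) (nat_lit 1820546) (nat_lit 36379210) (nat_lit 8740134) [(nat_lit 0), (nat_lit 1820546), (nat_lit 3849429),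 (nat_lit 8159746)]) (PF.cons (PF.leaf (nat_lit 8469085) (nat_lit 634084) (nat_lit 35896509) (nat_lit 8686837) [(nat_lit 634084), (nat_lit 1825118), (nat_lit 3841189), (nat_lit 8112536)]) (PF.cons (PF.leaf (nat_lit 8815007) (nat_lit 640691) (nat_lit 35410056) (nat_lit 8631306) [(nat_lit 640691), (nat_lit 1828330), (nat_lit 3831390), (nat_lit 8063172)]) (PF.cons PF.nil PF.nil)))) (PF.cons (PF.cons (PF.leaf (nat_lit
 8856738) (nat_lit 1823232) (nat_lit 35026035) (nat_lit 8581978) [(nat_lit 0), (nat_lit 1823232), (nat_lit 3817086), (nat_lit 8018624)]) (PF.cons (PF.leaf (nat_lit 9200169) (nat_lit 643284) (nat_lit 34550871) (nat_lit 8524748) [(nat_lit 643284), (nat_lit 1824793), (nat_lit 3805343), (nat_lit 7967488)]) PF.nil)) (PF.cons PF.nil (PF.cons PF.nil PF.nil))))) (PF.cons (PF.cons (PF.cons (PF.leaf (nat_lit 8565152) (nat_lit 3798990) (nat_lit 34957007) (nat_lit 8559777) [(nat_lit 0), (nat_lit 0), (nat_lit 3798990), (nat_lit 7997023)]) (PF.cons (PF.leaf (nat_lit 8898417)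 (nat_lit 631495) (nat_lit 34499121) (nat_lit 8504973) [(nat_lit 631495), (nat_lit 0), (nat_lit 3788484), (nat_lit 7948126)]) (PF.cons (PF.leaf (nat_lit 9237552) (nat_lit 637292) (nat_lit 34038187) (nat_lit 8448198) [(nat_lit 637292), (nat_lit 0), (nat_lit 3776594), (nat_lit 7897326)]) (PF.cons PF.nil PF.nil)))) (PF.cons (PF.cons (PF.leaf (nat_lit 9273716) (nat_lit 1805090) (nat_lit 33677436) (nat_lit 8398757) [(nat_lit 0), (nat_lit 1805090), (nat_lit 3761284), (nat_lit 7852479)]) (PF.cons PF.nil PF.nil)) (PF.cons PF.nil PF.nil))) (PF.cons (PF.cons (PF.cons (PF.leaf (nat_lit 9672618) (nat_lit 3702886) (nat_lit 32410402)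
 (nat_lit 8216497) [(nat_lit 0), (nat_lit 0), (nat_lit 3702886), (nat_lit 7686625)]) (PF.cons PF.nil PF.nil)) (PF.cons PF.nil PF.nil)) (PF.cons PF.nil PF.nil))))) (PF.cons (PF.cons (PF.cons (PF.cons (PF.leaf (nat_lit 7962104) (nat_lit 7928947) (nat_lit 34831329) (nat_lit 8490642) [(nat_lit 0), (nat_lit 0), (nat_lit 0), (nat_lit 7928947)]) (PF.cons (PF.leaf (nat_lit 8279151) (nat_lit 604735) (nat_lit 34405728) (nat_lit 8441676) [(nat_lit 604735), (nat_lit 0), (nat_lit 0), (nat_lit 7885557)]) (PF.cons (PF.leaf (nat_lit 8605018) (nat_lit 612971) (nat_lit 33972754) (nat_lit 8390351) [(nat_lit 612971), (nat_lit 0), (nat_lit 0), (nat_lit 7839921)]) (PF.cons (PF.leaf (nat_lit 8937322) (nat_lit 619827) (nat_lit 33535396) (nat_lit 8336980) [(nat_lit 619827), (nat_lit 0), (nat_lit 0), (nat_lit 7792317)]) (PF.cons PF.nil PF.nil))))) (PF.cons (PF.cons (PF.leaf (nat_lit 8652095) (nat_lit 1765577) (nat_lit 33611417) (nat_lit 8342302) [(nat_lit 0), (nat_lit 1765577), (nat_lit 0), (nat_lit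 7796504)]) (PF.cons (PF.leaf (nat_lit 8976633) (nat_lit 616739) (nat_lit 33186531) (nat_lit 8289388) [(nat_lit 616739), (nat_lit 1768492), (nat_lit 0), (nat_lit 7749220)]) (PF.cons (PF.leaf (nat_lit 9307074)
 (nat_lit 622559) (nat_lit 32758388) (nat_lit 8234633) [(nat_lit 622559), (nat_lit 1770190), (nat_lit 0), (nat_lit 7700160)]) (PF.cons PF.nil PF.nil)))) (PF.cons (PF.cons (PF.leaf (nat_lit 9341931) (nat_lit 1764473) (nat_lit 32422373) (nat_lit 8186944) [(nat_lit 0), (nat_lit 1764473), (nat_lit 0), (nat_lit 7656849)]) (PF.cons PF.nil PF.nil)) (PF.cons PF.nil (PF.cons PF.nil PF.nil))))) (PF.cons (PF.cons (PF.cons (PF.leaf (nat_lit 9056811) (nat_lit 3659171) (nat_lit 32367903) (nat_lit 8167655) [(nat_lit 0), (nat_lit 0), (nat_lit 3659171), (nat_lit 7638027)]) (PF.cons (PF.leaf (nat_lit 9375505) (nat_lit 613161) (nat_lit 31964388) (nat_lit 8114121) [(nat_lit 613161), (nat_lit 0), (nat_lit 3647328), (nat_lit 7589937)]) (PF.cons (PF.leaf (nat_lit 9699658) (nat_lit 618300)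 (nat_lit 31558156) (nat_lit 8058951) [(nat_lit 618300), (nat_lit 0), (nat_lit 3634305), (nat_lit 7540266)]) (PF.cons PF.nil PF.nil)))) (PF.cons (PF.cons (PF.leaf (nat_lit 9729813) (nat_lit 1744850) (nat_lit 31241916) (nat_lit 8011679) [(nat_lit 0), (nat_lit 1744850), (nat_lit 3618785), (nat_lit 7497193)]) (PF.cons PF.nil PF.nil)) (PF.cons PF.nil PF.nil))) (PF.cons (PF.cons (PF.cons (PF.leaf (nat_lit 10102062) (nat_lit
 3560778) (nat_lit 30130481) (nat_lit 7838835) [(nat_lit 0), (nat_lit 0), (nat_lit 3560778), (nat_lit 7339312)]) (PF.cons PF.nil PF.nil)) (PF.cons PF.nil PF.nil)) PF.nil))) (PF.cons (PF.cons (PF.cons (PF.cons (PF.leaf (nat_lit 9506826) (nat_lit 7299777) (nat_lit 30110357) (nat_lit 7799344) [(nat_lit 0), (nat_lit 0), (nat_lit 0), (nat_lit 7299777)]) (PF.cons (PF.leaf (nat_lit 9812315) (nat_lit 594847) (nat_lit 29752855) (nat_lit 7747873) [(nat_lit 594847), (nat_lit 0), (nat_lit 0), (nat_lit 7253309)]) (PF.cons PF.nil PF.nil))) (PF.cons (PF.cons (PF.leaf (nat_lit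 10148317) (nat_lit 1686093) (nat_lit 29114010) (nat_lit 7650287) [(nat_lit 0), (nat_lit 1686093), (nat_lit 0), (nat_lit 7164605)]) PF.nil) PF.nil)) (PF.cons PF.nil PF.nil)) (PF.cons PF.nil (PF.cons PF.nil (PF.cons PF.nil (PF.cons PF.nil PF.nil)))))))))

def p15_30_1_0 : pfC (piC [(nat_lit 35404596), (nat_lit 23859669), (nat_lit 17778567), (nat_lit 12006452)] (nat_lit 10758730)) p15_30_1 (nat_lit 4) (nat_lit 0) (nat_lit 1) = true := by decide +kernel
def p15_30_1_1 : pfC (piC [(nat_lit 35404596), (nat_lit 23859669), (nat_lit 17778567), (nat_lit 12006452)] (nat_lit 10758730)) p15_30_1 (nat_lit 4) (nat_lit 1) (nat_lit 2) = true := by decide +kernel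
def p15_30_1_2 : pfC (piC [(nat_lit 35404596), (nat_lit 23859669), (nat_lit 17778567), (nat_lit 12006452)] (nat_lit 10758730)) p15_30_1 (nat_lit 4) (nat_lit 2) (nat_lit 3) = true := by decide +kernel
def p15_30_1_3 : pfC (piC [(nat_lit 35404596), (nat_lit 23859669), (nat_lit 17778567), (nat_lit 12006452)] (nat_lit 10758730)) p15_30_1 (nat_lit 4) (nat_lit 3) (nat_lit 4) = true := by decide +kernel
def p15_30_1_4 : pfC (piC [(nat_lit 35404596), (nat_lit 23859669), (nat_lit 17778567), (nat_lit 12006452)] (nat_lit 10758730)) p15_30_1 (nat_lit 4) (nat_lit 4) (nat_lit 5) = true := by decide +kernel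
def p15_30_1_5 : pfC (piC [(nat_lit 35404596), (nat_lit 23859669), (nat_lit 17778567), (nat_lit 12006452)] (nat_lit 10758730)) p15_30_1 (nat_lit 4) (nat_lit 5) (nat_lit 6) = true := by decide +kernel
def p15_30_1_6 : pfC (piC [(nat_lit 35404596), (nat_lit 23859669), (nat_lit 17778567), (nat_lit 12006452)] (nat_lit 10758730)) p15_30_1 (nat_lit 4) (nat_lit 6) (nat_lit 7) = true := by decide +kernel
def p15_30_1_7 : pfC (piC [(nat_lit 35404596), (nat_lit 23859669), (nat_lit 17778567), (nat_lit 12006452)] (nat_lit 10758730)) p15_30_1 (nat_lit 4) (nat_lit 7) (nat_lit 8) = true := by decide +kernel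
def p15_30_1_8 : pfC (piC [(nat_lit 35404596), (nat_lit 23859669), (nat_lit 17778567), (nat_lit 12006452)] (nat_lit 10758730)) p15_30_1 (nat_lit 4) (nat_lit 8) (nat_lit 9) = true := by decide +kernel
def p15_30_1_9 : pfC (piC [(nat_lit 35404596), (nat_lit 23859669), (nat_lit 17778567), (nat_lit 12006452)] (nat_lit 10758730)) p15_30_1 (nat_lit 4) (nat_lit 9) (nat_lit 10) = true := by decide +kernel
def p15_30_1_10 : pfC (piC [(nat_lit 35404596), (nat_lit 23859669), (nat_lit 17778567), (nat_lit 12006452)] (nat_lit 10758730)) p15_30_1 (nat_lit 4) (nat_lit 10) (nat_lit 11) = true := by decide +kernel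
def p15_30_1_11 : pfC (piC [(nat_lit 35404596), (nat_lit 23859669), (nat_lit 17778567), (nat_lit 12006452)] (nat_lit 10758730)) p15_30_1 (nat_lit 4) (nat_lit 11) (nat_lit 12) = true := by decide +kernel
def p15_30_1_12 : pfC (piC [(nat_lit 35404596), (nat_lit 23859669), (nat_lit 17778567), (nat_lit 12006452)] (nat_lit 10758730)) p15_30_1 (nat_lit 4) (nat_lit 12) (nat_lit 13) = true := by decide +kernel
def p15_30_1_13 : pfC (piC [(nat_lit 35404596), (nat_lit 23859669), (nat_lit 17778567), (nat_lit 12006452)] (nat_lit 10758730)) p15_30_1 (nat_lit 4) (nat_lit 13) (nat_lit 14) = true := by decide +kernel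
def p15_30_1_14 : pfC (piC [(nat_lit 35404596), (nat_lit 23859669), (nat_lit 17778567), (nat_lit 12006452)] (nat_lit 10758730)) p15_30_1 (nat_lit 4) (nat_lit 14) (nat_lit 15) = true := by decide +kernel
def p15_30_1_15 : pfC (piC [(nat_lit 35404596), (nat_lit 23859669), (nat_lit 17778567), (nat_lit 12006452)] (nat_lit 10758730)) p15_30_1 (nat_lit 4) (nat_lit 15) (nat_lit 16) = true := by decide +kernel
def p15_30_1_16 : pfC (piC [(nat_lit 35404596), (nat_lit 23859669), (nat_lit 17778567), (nat_lit 12006452)] (nat_lit 10758730)) p15_30_1 (nat_lit 4) (nat_lit 16) (nat_lit 17) = true := by decide +kernel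
def p15_30_1_17 : pfC (piC [(nat_lit 35404596), (nat_lit 23859669), (nat_lit 17778567), (nat_lit 12006452)] (nat_lit 10758730)) p15_30_1 (nat_lit 4) (nat_lit 17) (nat_lit 18) = true := by decide +kernel
def p15_30_1_18 : pfC (piC [(nat_lit 35404596), (nat_lit 23859669), (nat_lit 17778567), (nat_lit 12006452)] (nat_lit 10758730)) p15_30_1 (nat_lit 4) (nat_lit 18) (nat_lit 19) = true := by decide +kernel
def p15_30_1_19 : pfC (piC [(nat_lit 35404596), (nat_lit 23859669), (nat_lit 17778567), (nat_lit 12006452)] (nat_lit 10758730)) p15_30_1 (nat_lit 4) (nat_lit 19) (nat_lit 20) = true := by decide +kernel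
def p15_30_1_20 : pfC (piC [(nat_lit 35404596), (nat_lit 23859669), (nat_lit 17778567), (nat_lit 12006452)] (nat_lit 10758730)) p15_30_1 (nat_lit 4) (nat_lit 20) (nat_lit 21) = true := by decide +kernel
def p15_30_1_21 : pfC (piC [(nat_lit 35404596), (nat_lit 23859669), (nat_lit 17778567), (nat_lit 12006452)] (nat_lit 10758730)) p15_30_1 (nat_lit 4) (nat_lit 21) (nat_lit 22) = true := by decide +kernel
def p15_30_1_22 : pfC (piC [(nat_lit 35404596), (nat_lit 23859669), (nat_lit 17778567), (nat_lit 12006452)] (nat_lit 10758730)) p15_30_1 (nat_lit 4) (nat_lit 22) (nat_lit 23) = true := by decide +kernel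
def p15_30_1_23 : pfC (piC [(nat_lit 35404596), (nat_lit 23859669), (nat_lit 17778567), (nat_lit 12006452)] (nat_lit 10758730)) p15_30_1 (nat_lit 4) (nat_lit 23) (nat_lit 24) = true := by decide +kernel
def p15_30_1_24 : pfC (piC [(nat_lit 35404596), (nat_lit 23859669), (nat_lit 17778567), (nat_lit 12006452)] (nat_lit 10758730)) p15_30_1 (nat_lit 4) (nat_lit 24) (nat_lit 25) = true := by decide +kernel
def p15_30_1_25 : pfC (piC [(nat_lit 35404596), (nat_lit 23859669), (nat_lit 17778567), (nat_lit 12006452)] (nat_lit 10758730)) p15_30_1 (nat_lit 4) (nat_lit 25) (nat_lit 26) = true := by decide +kernel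
def p15_30_1_26 : pfC (piC [(nat_lit 35404596), (nat_lit 23859669), (nat_lit 17778567), (nat_lit 12006452)] (nat_lit 10758730)) p15_30_1 (nat_lit 4) (nat_lit 26) (nat_lit 27) = true := by decide +kernel
def p15_30_1_27 : pfC (piC [(nat_lit 35404596), (nat_lit 23859669), (nat_lit 17778567), (nat_lit 12006452)] (nat_lit 10758730)) p15_30_1 (nat_lit 4) (nat_lit 27) (nat_lit 28) = true := by decide +kernel
def p15_30_1_28 : pfC (piC [(nat_lit 35404596), (nat_lit 23859669), (nat_lit 17778567), (nat_lit 12006452)] (nat_lit 10758730)) p15_30_1 (nat_lit 4) (nat_lit 28) (nat_lit 29) = true := by decide +kernel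
def p15_30_1_29 : pfC (piC [(nat_lit 35404596), (nat_lit 23859669), (nat_lit 17778567), (nat_lit 12006452)] (nat_lit 10758730)) p15_30_1 (nat_lit 4) (nat_lit 29) (nat_lit 30) = true := by decide +kernel
def p15_30_1_30 : pfC (piC [(nat_lit 35404596), (nat_lit 23859669), (nat_lit 17778567), (nat_lit 12006452)] (nat_lit 10758730)) p15_30_1 (nat_lit 4) (nat_lit 30) (nat_lit 31) = true := by decide +kernel
def p15_30_1_31 : pfC (piC [(nat_lit 35404596), (nat_lit 23859669), (nat_lit 17778567), (nat_lit 12006452)] (nat_lit 10758730)) p15_30_1 (nat_lit 4) (nat_lit 31) (nat_lit 32) = true := by decide +kernel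
def p15_30_1_32 : pfC (piC [(nat_lit 35404596), (nat_lit 23859669), (nat_lit 17778567), (nat_lit 12006452)] (nat_lit 10758730)) p15_30_1 (nat_lit 4) (nat_lit 32) (nat_lit 33) = true := by decide +kernel
def p15_30_1_33 : pfC (piC [(nat_lit 35404596), (nat_lit 23859669), (nat_lit 17778567), (nat_lit 12006452)] (nat_lit 10758730)) p15_30_1 (nat_lit 4) (nat_lit 33) (nat_lit 34) = true := by decide +kernel
def p15_30_1_34 : pfC (piC [(nat_lit 35404596), (nat_lit 23859669), (nat_lit 17778567), (nat_lit 12006452)] (nat_lit 10758730)) p15_30_1 (nat_lit 4) (nat_lit 34) (nat_lit 35) = true := by decide +kernel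
def p15_30_1_35 : pfC (piC [(nat_lit 35404596), (nat_lit 23859669), (nat_lit 17778567), (nat_lit 12006452)] (nat_lit 10758730)) p15_30_1 (nat_lit 4) (nat_lit 35) (nat_lit 36) = true := by decide +kernel
def p15_30_1_36 : pfC (piC [(nat_lit 35404596), (nat_lit 23859669), (nat_lit 17778567), (nat_lit 12006452)] (nat_lit 10758730)) p15_30_1 (nat_lit 4) (nat_lit 36) (nat_lit 37) = true := by decide +kernel
def p15_30_1_37 : pfC (piC [(nat_lit 35404596), (nat_lit 23859669), (nat_lit 17778567), (nat_lit 12006452)] (nat_lit 10758730)) p15_30_1 (nat_lit 4) (nat_lit 37) (nat_lit 38) = true := by decide +kernel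
def p15_30_1_38 : pfC (piC [(nat_lit 35404596), (nat_lit 23859669), (nat_lit 17778567), (nat_lit 12006452)] (nat_lit 10758730)) p15_30_1 (nat_lit 4) (nat_lit 38) (nat_lit 39) = true := by decide +kernel
def p15_30_1_39 : pfC (piC [(nat_lit 35404596), (nat_lit 23859669), (nat_lit 17778567), (nat_lit 12006452)] (nat_lit 10758730)) p15_30_1 (nat_lit 4) (nat_lit 39) (nat_lit 40) = true := by decide +kernel
def p15_30_1_40 : pfC (piC [(nat_lit 35404596), (nat_lit 23859669), (nat_lit 17778567), (nat_lit 12006452)] (nat_lit 10758730)) p15_30_1 (nat_lit 4) (nat_lit 40) (nat_lit 41) = true := by decide +kernel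
def p15_30_1_41 : pfC (piC [(nat_lit 35404596), (nat_lit 23859669), (nat_lit 17778567), (nat_lit 12006452)] (nat_lit 10758730)) p15_30_1 (nat_lit 4) (nat_lit 41) (nat_lit 42) = true := by decide +kernel
def p15_30_1_42 : pfC (piC [(nat_lit 35404596), (nat_lit 23859669), (nat_lit 17778567), (nat_lit 12006452)] (nat_lit 10758730)) p15_30_1 (nat_lit 4) (nat_lit 42) (nat_lit 43) = true := by decide +kernel
def p15_30_1_43 : pfC (piC [(nat_lit 35404596), (nat_lit 23859669), (nat_lit 17778567), (nat_lit 12006452)] (nat_lit 10758730)) p15_30_1 (nat_lit 4) (nat_lit 43) (nat_lit 44) = true := by decide +kernel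
def p15_30_1_44 : pfC (piC [(nat_lit 35404596), (nat_lit 23859669), (nat_lit 17778567), (nat_lit 12006452)] (nat_lit 10758730)) p15_30_1 (nat_lit 4) (nat_lit 44) (nat_lit 45) = true := by decide +kernel
def p15_30_1_45 : pfC (piC [(nat_lit 35404596), (nat_lit 23859669), (nat_lit 17778567), (nat_lit 12006452)] (nat_lit 10758730)) p15_30_1 (nat_lit 4) (nat_lit 45) (nat_lit 46) = true := by decide +kernel
def p15_30_1_46 : pfC (piC [(nat_lit 35404596), (nat_lit 23859669), (nat_lit 17778567), (nat_lit 12006452)] (nat_lit 10758730)) p15_30_1 (nat_lit 4) (nat_lit 46) (nat_lit 47) = true := by decide +kernel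
def p15_30_1_47 : pfC (piC [(nat_lit 35404596), (nat_lit 23859669), (nat_lit 17778567), (nat_lit 12006452)] (nat_lit 10758730)) p15_30_1 (nat_lit 4) (nat_lit 47) (nat_lit 48) = true := by decide +kernel
def p15_30_1_48 : pfC (piC [(nat_lit 35404596), (nat_lit 23859669), (nat_lit 17778567), (nat_lit 12006452)] (nat_lit 10758730)) p15_30_1 (nat_lit 4) (nat_lit 48) (nat_lit 49) = true := by decide +kernel
def p15_30_1_49 : pfC (piC [(nat_lit 35404596), (nat_lit 23859669), (nat_lit 17778567), (nat_lit 12006452)] (nat_lit 10758730)) p15_30_1 (nat_lit 4) (nat_lit 49) (nat_lit 50) = true := by decide +kernel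
def p15_30_1_50 : pfC (piC [(nat_lit 35404596), (nat_lit 23859669), (nat_lit 17778567), (nat_lit 12006452)] (nat_lit 10758730)) p15_30_1 (nat_lit 4) (nat_lit 50) (nat_lit 51) = true := by decide +kernel
def p15_30_1_51 : pfC (piC [(nat_lit 35404596), (nat_lit 23859669), (nat_lit 17778567), (nat_lit 12006452)] (nat_lit 10758730)) p15_30_1 (nat_lit 4) (nat_lit 51) (nat_lit 52) = true := by decide +kernel
def p15_30_1_52 : pfC (piC [(nat_lit 35404596), (nat_lit 23859669), (nat_lit 17778567), (nat_lit 12006452)] (nat_lit 10758730)) p15_30_1 (nat_lit 4) (nat_lit 52) (nat_lit 53) = true := by decide +kernel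
def p15_30_1_53 : pfC (piC [(nat_lit 35404596), (nat_lit 23859669), (nat_lit 17778567), (nat_lit 12006452)] (nat_lit 10758730)) p15_30_1 (nat_lit 4) (nat_lit 53) (nat_lit 54) = true := by decide +kernel
def p15_30_1_54 : pfC (piC [(nat_lit 35404596), (nat_lit 23859669), (nat_lit 17778567), (nat_lit 12006452)] (nat_lit 10758730)) p15_30_1 (nat_lit 4) (nat_lit 54) (nat_lit 55) = true := by decide +kernel
def p15_30_1_55 : pfC (piC [(nat_lit 35404596), (nat_lit 23859669), (nat_lit 17778567), (nat_lit 12006452)] (nat_lit 10758730)) p15_30_1 (nat_lit 4) (nat_lit 55) (nat_lit 56) = true := by decide +kernel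
def p15_30_1_56 : pfC (piC [(nat_lit 35404596), (nat_lit 23859669), (nat_lit 17778567), (nat_lit 12006452)] (nat_lit 10758730)) p15_30_1 (nat_lit 4) (nat_lit 56) (nat_lit 57) = true := by decide +kernel
def p15_30_1_57 : pfC (piC [(nat_lit 35404596), (nat_lit 23859669), (nat_lit 17778567), (nat_lit 12006452)] (nat_lit 10758730)) p15_30_1 (nat_lit 4) (nat_lit 57) (nat_lit 58) = true := by decide +kernel
def p15_30_1_58 : pfC (piC [(nat_lit 35404596), (nat_lit 23859669), (nat_lit 17778567), (nat_lit 12006452)] (nat_lit 10758730)) p15_30_1 (nat_lit 4) (nat_lit 58) (nat_lit 59) = true := by decide +kernel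
def p15_30_1_59 : pfC (piC [(nat_lit 35404596), (nat_lit 23859669), (nat_lit 17778567), (nat_lit 12006452)] (nat_lit 10758730)) p15_30_1 (nat_lit 4) (nat_lit 59) (nat_lit 60) = true := by decide +kernel
def p15_30_1_60 : pfC (piC [(nat_lit 35404596), (nat_lit 23859669), (nat_lit 17778567), (nat_lit 12006452)] (nat_lit 10758730)) p15_30_1 (nat_lit 4) (nat_lit 60) (nat_lit 61) = true := by decide +kernel
def p15_30_1_61 : pfC (piC [(nat_lit 35404596), (nat_lit 23859669), (nat_lit 17778567), (nat_lit 12006452)] (nat_lit 10758730)) p15_30_1 (nat_lit 4) (nat_lit 61) (nat_lit 62) = true := by decide +kernel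
def p15_30_1_62 : pfC (piC [(nat_lit 35404596), (nat_lit 23859669), (nat_lit 17778567), (nat_lit 12006452)] (nat_lit 10758730)) p15_30_1 (nat_lit 4) (nat_lit 62) (nat_lit 63) = true := by decide +kernel
def p15_30_1_63 : pfC (piC [(nat_lit 35404596), (nat_lit 23859669), (nat_lit 17778567), (nat_lit 12006452)] (nat_lit 10758730)) p15_30_1 (nat_lit 4) (nat_lit 63) (nat_lit 64) = true := by decide +kernel
def p15_30_1_64 : pfC (piC [(nat_lit 35404596), (nat_lit 23859669), (nat_lit 17778567), (nat_lit 12006452)] (nat_lit 10758730)) p15_30_1 (nat_lit 4) (nat_lit 64) (nat_lit 65) = true := by decide +kernel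
def p15_30_1_65 : pfC (piC [(nat_lit 35404596), (nat_lit 23859669), (nat_lit 17778567), (nat_lit 12006452)] (nat_lit 10758730)) p15_30_1 (nat_lit 4) (nat_lit 65) (nat_lit 66) = true := by decide +kernel
def p15_30_1_66 : pfC (piC [(nat_lit 35404596), (nat_lit 23859669), (nat_lit 17778567), (nat_lit 12006452)] (nat_lit 10758730)) p15_30_1 (nat_lit 4) (nat_lit 66) (nat_lit 67) = true := by decide +kernel
def p15_30_1_67 : pfC (piC [(nat_lit 35404596), (nat_lit 23859669), (nat_lit 17778567), (nat_lit 12006452)] (nat_lit 10758730)) p15_30_1 (nat_lit 4) (nat_lit 67) (nat_lit 68) = true := by decide +kernel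
def p15_30_1_68 : pfC (piC [(nat_lit 35404596), (nat_lit 23859669), (nat_lit 17778567), (nat_lit 12006452)] (nat_lit 10758730)) p15_30_1 (nat_lit 4) (nat_lit 68) (nat_lit 69) = true := by decide +kernel
def p15_30_1_69 : pfC (piC [(nat_lit 35404596), (nat_lit 23859669), (nat_lit 17778567), (nat_lit 12006452)] (nat_lit 10758730)) p15_30_1 (nat_lit 4) (nat_lit 69) (nat_lit 70) = true := by decide +kernel
def p15_30_1_70 : pfC (piC [(nat_lit 35404596), (nat_lit 23859669), (nat_lit 17778567), (nat_lit 12006452)] (nat_lit 10758730)) p15_30_1 (nat_lit 4) (nat_lit 70) (nat_lit 71) = true := by decide +kernel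
def p15_30_1_71 : pfC (piC [(nat_lit 35404596), (nat_lit 23859669), (nat_lit 17778567), (nat_lit 12006452)] (nat_lit 10758730)) p15_30_1 (nat_lit 4) (nat_lit 71) (nat_lit 72) = true := by decide +kernel
def p15_30_1_72 : pfC (piC [(nat_lit 35404596), (nat_lit 23859669), (nat_lit 17778567), (nat_lit 12006452)] (nat_lit 10758730)) p15_30_1 (nat_lit 4) (nat_lit 72) (nat_lit 73) = true := by decide +kernel
def p15_30_1_73 : pfC (piC [(nat_lit 35404596), (nat_lit 23859669), (nat_lit 17778567), (nat_lit 12006452)] (nat_lit 10758730)) p15_30_1 (nat_lit 4) (nat_lit 73) (nat_lit 74) = true := by decide +kernel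
def p15_30_1_74 : pfC (piC [(nat_lit 35404596), (nat_lit 23859669), (nat_lit 17778567), (nat_lit 12006452)] (nat_lit 10758730)) p15_30_1 (nat_lit 4) (nat_lit 74) (nat_lit 75) = true := by decide +kernel
def p15_30_1_75 : pfC (piC [(nat_lit 35404596), (nat_lit 23859669), (nat_lit 17778567), (nat_lit 12006452)] (nat_lit 10758730)) p15_30_1 (nat_lit 4) (nat_lit 75) (nat_lit 76) = true := by decide +kernel
def p15_30_1_76 : pfC (piC [(nat_lit 35404596), (nat_lit 23859669), (nat_lit 17778567), (nat_lit 12006452)] (nat_lit 10758730)) p15_30_1 (nat_lit 4) (nat_lit 76) (nat_lit 77) = true := by decide +kernel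
def p15_30_1_77 : pfC (piC [(nat_lit 35404596), (nat_lit 23859669), (nat_lit 17778567), (nat_lit 12006452)] (nat_lit 10758730)) p15_30_1 (nat_lit 4) (nat_lit 77) (nat_lit 78) = true := by decide +kernel
def p15_30_1_78 : pfC (piC [(nat_lit 35404596), (nat_lit 23859669), (nat_lit 17778567), (nat_lit 12006452)] (nat_lit 10758730)) p15_30_1 (nat_lit 4) (nat_lit 78) (nat_lit 79) = true := by decide +kernel
def p15_30_1_79 : pfC (piC [(nat_lit 35404596), (nat_lit 23859669), (nat_lit 17778567), (nat_lit 12006452)] (nat_lit 10758730)) p15_30_1 (nat_lit 4) (nat_lit 79) (nat_lit 80) = true := by decide +kernel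
def p15_30_1_80 : pfC (piC [(nat_lit 35404596), (nat_lit 23859669), (nat_lit 17778567), (nat_lit 12006452)] (nat_lit 10758730)) p15_30_1 (nat_lit 4) (nat_lit 80) (nat_lit 81) = true := by decide +kernel
def p15_30_1_81 : pfC (piC [(nat_lit 35404596), (nat_lit 23859669), (nat_lit 17778567), (nat_lit 12006452)] (nat_lit 10758730)) p15_30_1 (nat_lit 4) (nat_lit 81) (nat_lit 82) = true := by decide +kernel
def p15_30_1_82 : pfC (piC [(nat_lit 35404596), (nat_lit 23859669), (nat_lit 17778567), (nat_lit 12006452)] (nat_lit 10758730)) p15_30_1 (nat_lit 4) (nat_lit 82) (nat_lit 83) = true := by decide +kernel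
def p15_30_1_83 : pfC (piC [(nat_lit 35404596), (nat_lit 23859669), (nat_lit 17778567), (nat_lit 12006452)] (nat_lit 10758730)) p15_30_1 (nat_lit 4) (nat_lit 83) (nat_lit 84) = true := by decide +kernel
def p15_30_1_84 : pfC (piC [(nat_lit 35404596), (nat_lit 23859669), (nat_lit 17778567), (nat_lit 12006452)] (nat_lit 10758730)) p15_30_1 (nat_lit 4) (nat_lit 84) (nat_lit 85) = true := by decide +kernel
def p15_30_1_85 : pfC (piC [(nat_lit 35404596), (nat_lit 23859669), (nat_lit 17778567), (nat_lit 12006452)] (nat_lit 10758730)) p15_30_1 (nat_lit 4) (nat_lit 85) (nat_lit 86) = true := by decide +kernel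
def p15_30_1_86 : pfC (piC [(nat_lit 35404596), (nat_lit 23859669), (nat_lit 17778567), (nat_lit 12006452)] (nat_lit 10758730)) p15_30_1 (nat_lit 4) (nat_lit 86) (nat_lit 87) = true := by decide +kernel
def p15_30_1_87 : pfC (piC [(nat_lit 35404596), (nat_lit 23859669), (nat_lit 17778567), (nat_lit 12006452)] (nat_lit 10758730)) p15_30_1 (nat_lit 4) (nat_lit 87) (nat_lit 88) = true := by decide +kernel
def p15_30_1_88 : pfC (piC [(nat_lit 35404596), (nat_lit 23859669), (nat_lit 17778567), (nat_lit 12006452)] (nat_lit 10758730)) p15_30_1 (nat_lit 4) (nat_lit 88) (nat_lit 89) = true := by decide +kernel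
def p15_30_1_89 : pfC (piC [(nat_lit 35404596), (nat_lit 23859669), (nat_lit 17778567), (nat_lit 12006452)] (nat_lit 10758730)) p15_30_1 (nat_lit 4) (nat_lit 89) (nat_lit 90) = true := by decide +kernel
def p15_30_1_90 : pfC (piC [(nat_lit 35404596), (nat_lit 23859669), (nat_lit 17778567), (nat_lit 12006452)] (nat_lit 10758730)) p15_30_1 (nat_lit 4) (nat_lit 90) (nat_lit 91) = true := by decide +kernel
def p15_30_1_91 : pfC (piC [(nat_lit 35404596), (nat_lit 23859669), (nat_lit 17778567), (nat_lit 12006452)] (nat_lit 10758730)) p15_30_1 (nat_lit 4) (nat_lit 91) (nat_lit 92) = true := by decide +kernel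
def p15_30_1_92 : pfC (piC [(nat_lit 35404596), (nat_lit 23859669), (nat_lit 17778567), (nat_lit 12006452)] (nat_lit 10758730)) p15_30_1 (nat_lit 4) (nat_lit 92) (nat_lit 93) = true := by decide +kernel
def p15_30_1_93 : pfC (piC [(nat_lit 35404596), (nat_lit 23859669), (nat_lit 17778567), (nat_lit 12006452)] (nat_lit 10758730)) p15_30_1 (nat_lit 4) (nat_lit 93) (nat_lit 94) = true := by decide +kernel
def p15_30_1_94 : pfC (piC [(nat_lit 35404596), (nat_lit 23859669), (nat_lit 17778567), (nat_lit 12006452)] (nat_lit 10758730)) p15_30_1 (nat_lit 4) (nat_lit 94) (nat_lit 95) = true := by decide +kernel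
def p15_30_1_95 : pfC (piC [(nat_lit 35404596), (nat_lit 23859669), (nat_lit 17778567), (nat_lit 12006452)] (nat_lit 10758730)) p15_30_1 (nat_lit 4) (nat_lit 95) (nat_lit 96) = true := by decide +kernel
def p15_30_1_96 : pfC (piC [(nat_lit 35404596), (nat_lit 23859669), (nat_lit 17778567), (nat_lit 12006452)] (nat_lit 10758730)) p15_30_1 (nat_lit 4) (nat_lit 96) (nat_lit 97) = true := by decide +kernel
def p15_30_1_97 : pfC (piC [(nat_lit 35404596), (nat_lit 23859669), (nat_lit 17778567), (nat_lit 12006452)] (nat_lit 10758730)) p15_30_1 (nat_lit 4) (nat_lit 97) (nat_lit 98) = true := by decide +kernel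
def p15_30_1_98 : pfC (piC [(nat_lit 35404596), (nat_lit 23859669), (nat_lit 17778567), (nat_lit 12006452)] (nat_lit 10758730)) p15_30_1 (nat_lit 4) (nat_lit 98) (nat_lit 99) = true := by decide +kernel
def p15_30_1_99 : pfC (piC [(nat_lit 35404596), (nat_lit 23859669), (nat_lit 17778567), (nat_lit 12006452)] (nat_lit 10758730)) p15_30_1 (nat_lit 4) (nat_lit 99) (nat_lit 100) = true := by decide +kernel
def p15_30_1_100 : pfC (piC [(nat_lit 35404596), (nat_lit 23859669), (nat_lit 17778567), (nat_lit 12006452)] (nat_lit 10758730)) p15_30_1 (nat_lit 4) (nat_lit 100) (nat_lit 101) = true := by decide +kernel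
def p15_30_1_101 : pfC (piC [(nat_lit 35404596), (nat_lit 23859669), (nat_lit 17778567), (nat_lit 12006452)] (nat_lit 10758730)) p15_30_1 (nat_lit 4) (nat_lit 101) (nat_lit 102) = true := by decide +kernel
def p15_30_1_102 : pfC (piC [(nat_lit 35404596), (nat_lit 23859669), (nat_lit 17778567), (nat_lit 12006452)] (nat_lit 10758730)) p15_30_1 (nat_lit 4) (nat_lit 102) (nat_lit 103) = true := by decide +kernel
def p15_30_1_103 : pfC (piC [(nat_lit 35404596), (nat_lit 23859669), (nat_lit 17778567), (nat_lit 12006452)] (nat_lit 10758730)) p15_30_1 (nat_lit 4) (nat_lit 103) (nat_lit 104) = true := by decide +kernel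
def p15_30_1_104 : pfC (piC [(nat_lit 35404596), (nat_lit 23859669), (nat_lit 17778567), (nat_lit 12006452)] (nat_lit 10758730)) p15_30_1 (nat_lit 4) (nat_lit 104) (nat_lit 105) = true := by decide +kernel
def p15_30_1_105 : pfC (piC [(nat_lit 35404596), (nat_lit 23859669), (nat_lit 17778567), (nat_lit 12006452)] (nat_lit 10758730)) p15_30_1 (nat_lit 4) (nat_lit 105) (nat_lit 106) = true := by decide +kernel
def p15_30_1_106 : pfC (piC [(nat_lit 35404596), (nat_lit 23859669), (nat_lit 17778567), (nat_lit 12006452)] (nat_lit 10758730)) p15_30_1 (nat_lit 4) (nat_lit 106) (nat_lit 107) = true := by decide +kernel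
def p15_30_1_107 : pfC (piC [(nat_lit 35404596), (nat_lit 23859669), (nat_lit 17778567), (nat_lit 12006452)] (nat_lit 10758730)) p15_30_1 (nat_lit 4) (nat_lit 107) (nat_lit 108) = true := by decide +kernel
def p15_30_1_108 : pfC (piC [(nat_lit 35404596), (nat_lit 23859669), (nat_lit 17778567), (nat_lit 12006452)] (nat_lit 10758730)) p15_30_1 (nat_lit 4) (nat_lit 108) (nat_lit 109) = true := by decide +kernel
def p15_30_1_109 : pfC (piC [(nat_lit 35404596), (nat_lit 23859669), (nat_lit 17778567), (nat_lit 12006452)] (nat_lit 10758730)) p15_30_1 (nat_lit 4) (nat_lit 109) (nat_lit 110) = true := by decide +kernel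
def p15_30_1_110 : pfC (piC [(nat_lit 35404596), (nat_lit 23859669), (nat_lit 17778567), (nat_lit 12006452)] (nat_lit 10758730)) p15_30_1 (nat_lit 4) (nat_lit 110) (nat_lit 111) = true := by decide +kernel
def p15_30_1_111 : pfC (piC [(nat_lit 35404596), (nat_lit 23859669), (nat_lit 17778567), (nat_lit 12006452)] (nat_lit 10758730)) p15_30_1 (nat_lit 4) (nat_lit 111) (nat_lit 112) = true := by decide +kernel
def p15_30_1_112 : pfC (piC [(nat_lit 35404596), (nat_lit 23859669), (nat_lit 17778567), (nat_lit 12006452)] (nat_lit 10758730)) p15_30_1 (nat_lit 4) (nat_lit 112) (nat_lit 113) = true := by decide +kernel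
def p15_30_1_113 : pfC (piC [(nat_lit 35404596), (nat_lit 23859669), (nat_lit 17778567), (nat_lit 12006452)] (nat_lit 10758730)) p15_30_1 (nat_lit 4) (nat_lit 113) (nat_lit 114) = true := by decide +kernel
def p15_30_1_114 : pfC (piC [(nat_lit 35404596), (nat_lit 23859669), (nat_lit 17778567), (nat_lit 12006452)] (nat_lit 10758730)) p15_30_1 (nat_lit 4) (nat_lit 114) (nat_lit 115) = true := by decide +kernel
def p15_30_1_115 : pfC (piC [(nat_lit 35404596), (nat_lit 23859669), (nat_lit 17778567), (nat_lit 12006452)] (nat_lit 10758730)) p15_30_1 (nat_lit 4) (nat_lit 115) (nat_lit 116) = true := by decide +kernel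
def p15_30_1_116 : pfC (piC [(nat_lit 35404596), (nat_lit 23859669), (nat_lit 17778567), (nat_lit 12006452)] (nat_lit 10758730)) p15_30_1 (nat_lit 4) (nat_lit 116) (nat_lit 117) = true := by decide +kernel
def p15_30_1_117 : pfC (piC [(nat_lit 35404596), (nat_lit 23859669), (nat_lit 17778567), (nat_lit 12006452)] (nat_lit 10758730)) p15_30_1 (nat_lit 4) (nat_lit 117) (nat_lit 118) = true := by decide +kernel
def p15_30_1_118 : pfC (piC [(nat_lit 35404596), (nat_lit 23859669), (nat_lit 17778567), (nat_lit 12006452)] (nat_lit 10758730)) p15_30_1 (nat_lit 4) (nat_lit 118) (nat_lit 119) = true := by decide +kernel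
def p15_30_1_119 : pfC (piC [(nat_lit 35404596), (nat_lit 23859669), (nat_lit 17778567), (nat_lit 12006452)] (nat_lit 10758730)) p15_30_1 (nat_lit 4) (nat_lit 119) (nat_lit 120) = true := by decide +kernel
def p15_30_1_120 : pfC (piC [(nat_lit 35404596), (nat_lit 23859669), (nat_lit 17778567), (nat_lit 12006452)] (nat_lit 10758730)) p15_30_1 (nat_lit 4) (nat_lit 120) (nat_lit 121) = true := by decide +kernel
def p15_30_1_121 : pfC (piC [(nat_lit 35404596), (nat_lit 23859669), (nat_lit 17778567), (nat_lit 12006452)] (nat_lit 10758730)) p15_30_1 (nat_lit 4) (nat_lit 121) (nat_lit 122) = true := by decide +kernel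
def p15_30_1_122 : pfC (piC [(nat_lit 35404596), (nat_lit 23859669), (nat_lit 17778567), (nat_lit 12006452)] (nat_lit 10758730)) p15_30_1 (nat_lit 4) (nat_lit 122) (nat_lit 123) = true := by decide +kernel
def p15_30_1_123 : pfC (piC [(nat_lit 35404596), (nat_lit 23859669), (nat_lit 17778567), (nat_lit 12006452)] (nat_lit 10758730)) p15_30_1 (nat_lit 4) (nat_lit 123) (nat_lit 124) = true := by decide +kernel
def p15_30_1_124 : pfC (piC [(nat_lit 35404596), (nat_lit 23859669), (nat_lit 17778567), (nat_lit 12006452)] (nat_lit 10758730)) p15_30_1 (nat_lit 4) (nat_lit 124) (nat_lit 125) = true := by decide +kernel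
def p15_30_1_125 : pfC (piC [(nat_lit 35404596), (nat_lit 23859669), (nat_lit 17778567), (nat_lit 12006452)] (nat_lit 10758730)) p15_30_1 (nat_lit 4) (nat_lit 125) (nat_lit 126) = true := by decide +kernel
def p15_30_1_126 : pfC (piC [(nat_lit 35404596), (nat_lit 23859669), (nat_lit 17778567), (nat_lit 12006452)] (nat_lit 10758730)) p15_30_1 (nat_lit 4) (nat_lit 126) (nat_lit 127) = true := by decide +kernel
def p15_30_1_127 : pfC (piC [(nat_lit 35404596), (nat_lit 23859669), (nat_lit 17778567), (nat_lit 12006452)] (nat_lit 10758730)) p15_30_1 (nat_lit 4) (nat_lit 127) (nat_lit 128) = true := by decide +kernel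
def p15_30_1_128 : pfC (piC [(nat_lit 35404596), (nat_lit 23859669), (nat_lit 17778567), (nat_lit 12006452)] (nat_lit 10758730)) p15_30_1 (nat_lit 4) (nat_lit 128) (nat_lit 129) = true := by decide +kernel
def p15_30_1_129 : pfC (piC [(nat_lit 35404596), (nat_lit 23859669), (nat_lit 17778567), (nat_lit 12006452)] (nat_lit 10758730)) p15_30_1 (nat_lit 4) (nat_lit 129) (nat_lit 130) = true := by decide +kernel
def p15_30_1_130 : pfC (piC [(nat_lit 35404596), (nat_lit 23859669), (nat_lit 17778567), (nat_lit 12006452)] (nat_lit 10758730)) p15_30_1 (nat_lit 4) (nat_lit 130) (nat_lit 131) = true := by decide +kernel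
def p15_30_1_131 : pfC (piC [(nat_lit 35404596), (nat_lit 23859669), (nat_lit 17778567), (nat_lit 12006452)] (nat_lit 10758730)) p15_30_1 (nat_lit 4) (nat_lit 131) (nat_lit 132) = true := by decide +kernel
def p15_30_1_132 : pfC (piC [(nat_lit 35404596), (nat_lit 23859669), (nat_lit 17778567), (nat_lit 12006452)] (nat_lit 10758730)) p15_30_1 (nat_lit 4) (nat_lit 132) (nat_lit 133) = true := by decide +kernel
def p15_30_1_133 : pfC (piC [(nat_lit 35404596), (nat_lit 23859669), (nat_lit 17778567), (nat_lit 12006452)] (nat_lit 10758730)) p15_30_1 (nat_lit 4) (nat_lit 133) (nat_lit 134) = true := by decide +kernel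
def p15_30_1_134 : pfC (piC [(nat_lit 35404596), (nat_lit 23859669), (nat_lit 17778567), (nat_lit 12006452)] (nat_lit 10758730)) p15_30_1 (nat_lit 4) (nat_lit 134) (nat_lit 135) = true := by decide +kernel
def p15_30_1_135 : pfC (piC [(nat_lit 35404596), (nat_lit 23859669), (nat_lit 17778567), (nat_lit 12006452)] (nat_lit 10758730)) p15_30_1 (nat_lit 4) (nat_lit 135) (nat_lit 136) = true := by decide +kernel
def p15_30_1_136 : pfC (piC [(nat_lit 35404596), (nat_lit 23859669), (nat_lit 17778567), (nat_lit 12006452)] (nat_lit 10758730)) p15_30_1 (nat_lit 4) (nat_lit 136) (nat_lit 137) = true := by decide +kernel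
def p15_30_1_137 : pfC (piC [(nat_lit 35404596), (nat_lit 23859669), (nat_lit 17778567), (nat_lit 12006452)] (nat_lit 10758730)) p15_30_1 (nat_lit 4) (nat_lit 137) (nat_lit 138) = true := by decide +kernel
def p15_30_1_138 : pfC (piC [(nat_lit 35404596), (nat_lit 23859669), (nat_lit 17778567), (nat_lit 12006452)] (nat_lit 10758730)) p15_30_1 (nat_lit 4) (nat_lit 138) (nat_lit 139) = true := by decide +kernel
def p15_30_1_139 : pfC (piC [(nat_lit 35404596), (nat_lit 23859669), (nat_lit 17778567), (nat_lit 12006452)] (nat_lit 10758730)) p15_30_1 (nat_lit 4) (nat_lit 139) (nat_lit 140) = true := by decide +kernel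
def p15_30_1_140 : pfC (piC [(nat_lit 35404596), (nat_lit 23859669), (nat_lit 17778567), (nat_lit 12006452)] (nat_lit 10758730)) p15_30_1 (nat_lit 4) (nat_lit 140) (nat_lit 141) = true := by decide +kernel
def p15_30_1_141 : pfC (piC [(nat_lit 35404596), (nat_lit 23859669), (nat_lit 17778567), (nat_lit 12006452)] (nat_lit 10758730)) p15_30_1 (nat_lit 4) (nat_lit 141) (nat_lit 142) = true := by decide +kernel
def p15_30_1_142 : pfC (piC [(nat_lit 35404596), (nat_lit 23859669), (nat_lit 17778567), (nat_lit 12006452)] (nat_lit 10758730)) p15_30_1 (nat_lit 4) (nat_lit 142) (nat_lit 143) = true := by decide +kernel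
def p15_30_1_143 : pfC (piC [(nat_lit 35404596), (nat_lit 23859669), (nat_lit 17778567), (nat_lit 12006452)] (nat_lit 10758730)) p15_30_1 (nat_lit 4) (nat_lit 143) (nat_lit 144) = true := by decide +kernel
def p15_30_1_144 : pfC (piC [(nat_lit 35404596), (nat_lit 23859669), (nat_lit 17778567), (nat_lit 12006452)] (nat_lit 10758730)) p15_30_1 (nat_lit 4) (nat_lit 144) (nat_lit 145) = true := by decide +kernel
def p15_30_1_145 : pfC (piC [(nat_lit 35404596), (nat_lit 23859669), (nat_lit 17778567), (nat_lit 12006452)] (nat_lit 10758730)) p15_30_1 (nat_lit 4) (nat_lit 145) (nat_lit 146) = true := by decide +kernel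
def p15_30_1_146 : pfC (piC [(nat_lit 35404596), (nat_lit 23859669), (nat_lit 17778567), (nat_lit 12006452)] (nat_lit 10758730)) p15_30_1 (nat_lit 4) (nat_lit 146) (nat_lit 147) = true := by decide +kernel
def p15_30_1_147 : pfC (piC [(nat_lit 35404596), (nat_lit 23859669), (nat_lit 17778567), (nat_lit 12006452)] (nat_lit 10758730)) p15_30_1 (nat_lit 4) (nat_lit 147) (nat_lit 148) = true := by decide +kernel
def p15_30_1_148 : pfC (piC [(nat_lit 35404596), (nat_lit 23859669), (nat_lit 17778567), (nat_lit 12006452)] (nat_lit 10758730)) p15_30_1 (nat_lit 4) (nat_lit 148) (nat_lit 149) = true := by decide +kernel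
def p15_30_1_149 : pfC (piC [(nat_lit 35404596), (nat_lit 23859669), (nat_lit 17778567), (nat_lit 12006452)] (nat_lit 10758730)) p15_30_1 (nat_lit 4) (nat_lit 149) (nat_lit 150) = true := by decide +kernel
def p15_30_1_150 : pfC (piC [(nat_lit 35404596), (nat_lit 23859669), (nat_lit 17778567), (nat_lit 12006452)] (nat_lit 10758730)) p15_30_1 (nat_lit 4) (nat_lit 150) (nat_lit 151) = true := by decide +kernel
def p15_30_1_151 : pfC (piC [(nat_lit 35404596), (nat_lit 23859669), (nat_lit 17778567), (nat_lit 12006452)] (nat_lit 10758730)) p15_30_1 (nat_lit 4) (nat_lit 151) (nat_lit 152) = true := by decide +kernel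
def p15_30_1_152 : pfC (piC [(nat_lit 35404596), (nat_lit 23859669), (nat_lit 17778567), (nat_lit 12006452)] (nat_lit 10758730)) p15_30_1 (nat_lit 4) (nat_lit 152) (nat_lit 153) = true := by decide +kernel
def p15_30_1_153 : pfC (piC [(nat_lit 35404596), (nat_lit 23859669), (nat_lit 17778567), (nat_lit 12006452)] (nat_lit 10758730)) p15_30_1 (nat_lit 4) (nat_lit 153) (nat_lit 154) = true := by decide +kernel
def p15_30_1_154 : pfC (piC [(nat_lit 35404596), (nat_lit 23859669), (nat_lit 17778567), (nat_lit 12006452)] (nat_lit 10758730)) p15_30_1 (nat_lit 4) (nat_lit 154) (nat_lit 155) = true := by decide +kernel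
def p15_30_1_155 : pfC (piC [(nat_lit 35404596), (nat_lit 23859669), (nat_lit 17778567), (nat_lit 12006452)] (nat_lit 10758730)) p15_30_1 (nat_lit 4) (nat_lit 155) (nat_lit 156) = true := by decide +kernel
def p15_30_1_156 : pfC (piC [(nat_lit 35404596), (nat_lit 23859669), (nat_lit 17778567), (nat_lit 12006452)] (nat_lit 10758730)) p15_30_1 (nat_lit 4) (nat_lit 156) (nat_lit 157) = true := by decide +kernel
def p15_30_1_157 : pfC (piC [(nat_lit 35404596), (nat_lit 23859669), (nat_lit 17778567), (nat_lit 12006452)] (nat_lit 10758730)) p15_30_1 (nat_lit 4) (nat_lit 157) (nat_lit 158) = true := by decide +kernel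
def p15_30_1_158 : pfC (piC [(nat_lit 35404596), (nat_lit 23859669), (nat_lit 17778567), (nat_lit 12006452)] (nat_lit 10758730)) p15_30_1 (nat_lit 4) (nat_lit 158) (nat_lit 159) = true := by decide +kernel
def p15_30_1_159 : pfC (piC [(nat_lit 35404596), (nat_lit 23859669), (nat_lit 17778567), (nat_lit 12006452)] (nat_lit 10758730)) p15_30_1 (nat_lit 4) (nat_lit 159) (nat_lit 160) = true := by decide +kernel
def p15_30_1_160 : pfC (piC [(nat_lit 35404596), (nat_lit 23859669), (nat_lit 17778567), (nat_lit 12006452)] (nat_lit 10758730)) p15_30_1 (nat_lit 4) (nat_lit 160) (nat_lit 161) = true := by decide +kernel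
def p15_30_1_161 : pfC (piC [(nat_lit 35404596), (nat_lit 23859669), (nat_lit 17778567), (nat_lit 12006452)] (nat_lit 10758730)) p15_30_1 (nat_lit 4) (nat_lit 161) (nat_lit 162) = true := by decide +kernel
def p15_30_1_162 : pfC (piC [(nat_lit 35404596), (nat_lit 23859669), (nat_lit 17778567), (nat_lit 12006452)] (nat_lit 10758730)) p15_30_1 (nat_lit 4) (nat_lit 162) (nat_lit 163) = true := by decide +kernel
def p15_30_1_163 : pfC (piC [(nat_lit 35404596), (nat_lit 23859669), (nat_lit 17778567), (nat_lit 12006452)] (nat_lit 10758730)) p15_30_1 (nat_lit 4) (nat_lit 163) (nat_lit 164) = true := by decide +kernel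
def p15_30_1_164 : pfC (piC [(nat_lit 35404596), (nat_lit 23859669), (nat_lit 17778567), (nat_lit 12006452)] (nat_lit 10758730)) p15_30_1 (nat_lit 4) (nat_lit 164) (nat_lit 165) = true := by decide +kernel
def p15_30_1_165 : pfC (piC [(nat_lit 35404596), (nat_lit 23859669), (nat_lit 17778567), (nat_lit 12006452)] (nat_lit 10758730)) p15_30_1 (nat_lit 4) (nat_lit 165) (nat_lit 166) = true := by decide +kernel
def p15_30_1_166 : pfC (piC [(nat_lit 35404596), (nat_lit 23859669), (nat_lit 17778567), (nat_lit 12006452)] (nat_lit 10758730)) p15_30_1 (nat_lit 4) (nat_lit 166) (nat_lit 167) = true := by decide +kernel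
def p15_30_1_167 : pfC (piC [(nat_lit 35404596), (nat_lit 23859669), (nat_lit 17778567), (nat_lit 12006452)] (nat_lit 10758730)) p15_30_1 (nat_lit 4) (nat_lit 167) (nat_lit 168) = true := by decide +kernel
def p15_30_1_168 : pfC (piC [(nat_lit 35404596), (nat_lit 23859669), (nat_lit 17778567), (nat_lit 12006452)] (nat_lit 10758730)) p15_30_1 (nat_lit 4) (nat_lit 168) (nat_lit 169) = true := by decide +kernel
def p15_30_1_169 : pfC (piC [(nat_lit 35404596), (nat_lit 23859669), (nat_lit 17778567), (nat_lit 12006452)] (nat_lit 10758730)) p15_30_1 (nat_lit 4) (nat_lit 169) (nat_lit 170) = true := by decide +kernel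
def p15_30_1_170 : pfC (piC [(nat_lit 35404596), (nat_lit 23859669), (nat_lit 17778567), (nat_lit 12006452)] (nat_lit 10758730)) p15_30_1 (nat_lit 4) (nat_lit 170) (nat_lit 171) = true := by decide +kernel
def p15_30_1_171 : pfC (piC [(nat_lit 35404596), (nat_lit 23859669), (nat_lit 17778567), (nat_lit 12006452)] (nat_lit 10758730)) p15_30_1 (nat_lit 4) (nat_lit 171) (nat_lit 172) = true := by decide +kernel
def p15_30_1_172 : pfC (piC [(nat_lit 35404596), (nat_lit 23859669), (nat_lit 17778567), (nat_lit 12006452)] (nat_lit 10758730)) p15_30_1 (nat_lit 4) (nat_lit 172) (nat_lit 173) = true := by decide +kernel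
def p15_30_1_173 : pfC (piC [(nat_lit 35404596), (nat_lit 23859669), (nat_lit 17778567), (nat_lit 12006452)] (nat_lit 10758730)) p15_30_1 (nat_lit 4) (nat_lit 173) (nat_lit 174) = true := by decide +kernel
def p15_30_1_174 : pfC (piC [(nat_lit 35404596), (nat_lit 23859669), (nat_lit 17778567), (nat_lit 12006452)] (nat_lit 10758730)) p15_30_1 (nat_lit 4) (nat_lit 174) (nat_lit 175) = true := by decide +kernel
def p15_30_1_175 : pfC (piC [(nat_lit 35404596), (nat_lit 23859669), (nat_lit 17778567), (nat_lit 12006452)] (nat_lit 10758730)) p15_30_1 (nat_lit 4) (nat_lit 175) (nat_lit 176) = true := by decide +kernel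
def p15_30_1_176 : pfC (piC [(nat_lit 35404596), (nat_lit 23859669), (nat_lit 17778567), (nat_lit 12006452)] (nat_lit 10758730)) p15_30_1 (nat_lit 4) (nat_lit 176) (nat_lit 177) = true := by decide +kernel
def p15_30_1_177 : pfC (piC [(nat_lit 35404596), (nat_lit 23859669), (nat_lit 17778567), (nat_lit 12006452)] (nat_lit 10758730)) p15_30_1 (nat_lit 4) (nat_lit 177) (nat_lit 178) = true := by decide +kernel
def p15_30_1_178 : pfC (piC [(nat_lit 35404596), (nat_lit 23859669), (nat_lit 17778567), (nat_lit 12006452)] (nat_lit 10758730)) p15_30_1 (nat_lit 4) (nat_lit 178) (nat_lit 179) = true := by decide +kernel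
def p15_30_1_179 : pfC (piC [(nat_lit 35404596), (nat_lit 23859669), (nat_lit 17778567), (nat_lit 12006452)] (nat_lit 10758730)) p15_30_1 (nat_lit 4) (nat_lit 179) (nat_lit 180) = true := by decide +kernel
def p15_30_1_180 : pfC (piC [(nat_lit 35404596), (nat_lit 23859669), (nat_lit 17778567), (nat_lit 12006452)] (nat_lit 10758730)) p15_30_1 (nat_lit 4) (nat_lit 180) (nat_lit 181) = true := by decide +kernel
def p15_30_1_181 : pfC (piC [(nat_lit 35404596), (nat_lit 23859669), (nat_lit 17778567), (nat_lit 12006452)] (nat_lit 10758730)) p15_30_1 (nat_lit 4) (nat_lit 181) (nat_lit 182) = true := by decide +kernel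
def p15_30_1_182 : pfC (piC [(nat_lit 35404596), (nat_lit 23859669), (nat_lit 17778567), (nat_lit 12006452)] (nat_lit 10758730)) p15_30_1 (nat_lit 4) (nat_lit 182) (nat_lit 183) = true := by decide +kernel
def p15_30_1_183 : pfC (piC [(nat_lit 35404596), (nat_lit 23859669), (nat_lit 17778567), (nat_lit 12006452)] (nat_lit 10758730)) p15_30_1 (nat_lit 4) (nat_lit 183) (nat_lit 184) = true := by decide +kernel
def p15_30_1_184 : pfC (piC [(nat_lit 35404596), (nat_lit 23859669), (nat_lit 17778567), (nat_lit 12006452)] (nat_lit 10758730)) p15_30_1 (nat_lit 4) (nat_lit 184) (nat_lit 185) = true := by decide +kernel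
def p15_30_1_185 : pfC (piC [(nat_lit 35404596), (nat_lit 23859669), (nat_lit 17778567), (nat_lit 12006452)] (nat_lit 10758730)) p15_30_1 (nat_lit 4) (nat_lit 185) (nat_lit 186) = true := by decide +kernel
def p15_30_1_186 : pfC (piC [(nat_lit 35404596), (nat_lit 23859669), (nat_lit 17778567), (nat_lit 12006452)] (nat_lit 10758730)) p15_30_1 (nat_lit 4) (nat_lit 186) (nat_lit 187) = true := by decide +kernel
def p15_30_1_187 : pfC (piC [(nat_lit 35404596), (nat_lit 23859669), (nat_lit 17778567), (nat_lit 12006452)] (nat_lit 10758730)) p15_30_1 (nat_lit 4) (nat_lit 187) (nat_lit 188) = true := by decide +kernel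
def p15_30_1_188 : pfC (piC [(nat_lit 35404596), (nat_lit 23859669), (nat_lit 17778567), (nat_lit 12006452)] (nat_lit 10758730)) p15_30_1 (nat_lit 4) (nat_lit 188) (nat_lit 189) = true := by decide +kernel
def p15_30_1_189 : pfC (piC [(nat_lit 35404596), (nat_lit 23859669), (nat_lit 17778567), (nat_lit 12006452)] (nat_lit 10758730)) p15_30_1 (nat_lit 4) (nat_lit 189) (nat_lit 190) = true := by decide +kernel
def p15_30_1_190 : pfC (piC [(nat_lit 35404596), (nat_lit 23859669), (nat_lit 17778567), (nat_lit 12006452)] (nat_lit 10758730)) p15_30_1 (nat_lit 4) (nat_lit 190) (nat_lit 191) = true := by decide +kernel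
def p15_30_1_191 : pfC (piC [(nat_lit 35404596), (nat_lit 23859669), (nat_lit 17778567), (nat_lit 12006452)] (nat_lit 10758730)) p15_30_1 (nat_lit 4) (nat_lit 191) (nat_lit 192) = true := by decide +kernel
def p15_30_1_192 : pfC (piC [(nat_lit 35404596), (nat_lit 23859669), (nat_lit 17778567), (nat_lit 12006452)] (nat_lit 10758730)) p15_30_1 (nat_lit 4) (nat_lit 192) (nat_lit 193) = true := by decide +kernel
def p15_30_1_193 : pfC (piC [(nat_lit 35404596), (nat_lit 23859669), (nat_lit 17778567), (nat_lit 12006452)] (nat_lit 10758730)) p15_30_1 (nat_lit 4) (nat_lit 193) (nat_lit 194) = true := by decide +kernel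
def p15_30_1_194 : pfC (piC [(nat_lit 35404596), (nat_lit 23859669), (nat_lit 17778567), (nat_lit 12006452)] (nat_lit 10758730)) p15_30_1 (nat_lit 4) (nat_lit 194) (nat_lit 195) = true := by decide +kernel
def p15_30_1_195 : pfC (piC [(nat_lit 35404596), (nat_lit 23859669), (nat_lit 17778567), (nat_lit 12006452)] (nat_lit 10758730)) p15_30_1 (nat_lit 4) (nat_lit 195) (nat_lit 196) = true := by decide +kernel
def p15_30_1_196 : pfC (piC [(nat_lit 35404596), (nat_lit 23859669), (nat_lit 17778567), (nat_lit 12006452)] (nat_lit 10758730)) p15_30_1 (nat_lit 4) (nat_lit 196) (nat_lit 197) = true := by decide +kernel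
def p15_30_1_197 : pfC (piC [(nat_lit 35404596), (nat_lit 23859669), (nat_lit 17778567), (nat_lit 12006452)] (nat_lit 10758730)) p15_30_1 (nat_lit 4) (nat_lit 197) (nat_lit 198) = true := by decide +kernel
def p15_30_1_198 : pfC (piC [(nat_lit 35404596), (nat_lit 23859669), (nat_lit 17778567), (nat_lit 12006452)] (nat_lit 10758730)) p15_30_1 (nat_lit 4) (nat_lit 198) (nat_lit 199) = true := by decide +kernel
def p15_30_1_199 : pfC (piC [(nat_lit 35404596), (nat_lit 23859669), (nat_lit 17778567), (nat_lit 12006452)] (nat_lit 10758730)) p15_30_1 (nat_lit 4) (nat_lit 199) (nat_lit 200) = true := by decide +kernel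
def p15_30_1_200 : pfC (piC [(nat_lit 35404596), (nat_lit 23859669), (nat_lit 17778567), (nat_lit 12006452)] (nat_lit 10758730)) p15_30_1 (nat_lit 4) (nat_lit 200) (nat_lit 201) = true := by decide +kernel
def p15_30_1_201 : pfC (piC [(nat_lit 35404596), (nat_lit 23859669), (nat_lit 17778567), (nat_lit 12006452)] (nat_lit 10758730)) p15_30_1 (nat_lit 4) (nat_lit 201) (nat_lit 202) = true := by decide +kernel
def p15_30_1_202 : pfC (piC [(nat_lit 35404596), (nat_lit 23859669), (nat_lit 17778567), (nat_lit 12006452)] (nat_lit 10758730)) p15_30_1 (nat_lit 4) (nat_lit 202) (nat_lit 203) = true := by decide +kernel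
def p15_30_1_203 : pfC (piC [(nat_lit 35404596), (nat_lit 23859669), (nat_lit 17778567), (nat_lit 12006452)] (nat_lit 10758730)) p15_30_1 (nat_lit 4) (nat_lit 203) (nat_lit 204) = true := by decide +kernel
def p15_30_1_204 : pfC (piC [(nat_lit 35404596), (nat_lit 23859669), (nat_lit 17778567), (nat_lit 12006452)] (nat_lit 10758730)) p15_30_1 (nat_lit 4) (nat_lit 204) (nat_lit 205) = true := by decide +kernel
def p15_30_1_205 : pfC (piC [(nat_lit 35404596), (nat_lit 23859669), (nat_lit 17778567), (nat_lit 12006452)] (nat_lit 10758730)) p15_30_1 (nat_lit 4) (nat_lit 205) (nat_lit 206) = true := by decide +kernel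
def p15_30_1_206 : pfC (piC [(nat_lit 35404596), (nat_lit 23859669), (nat_lit 17778567), (nat_lit 12006452)] (nat_lit 10758730)) p15_30_1 (nat_lit 4) (nat_lit 206) (nat_lit 207) = true := by decide +kernel
def p15_30_1_207 : pfC (piC [(nat_lit 35404596), (nat_lit 23859669), (nat_lit 17778567), (nat_lit 12006452)] (nat_lit 10758730)) p15_30_1 (nat_lit 4) (nat_lit 207) (nat_lit 208) = true := by decide +kernel
def p15_30_1_208 : pfC (piC [(nat_lit 35404596), (nat_lit 23859669), (nat_lit 17778567), (nat_lit 12006452)] (nat_lit 10758730)) p15_30_1 (nat_lit 4) (nat_lit 208) (nat_lit 209) = true := by decide +kernel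
def p15_30_1_209 : pfC (piC [(nat_lit 35404596), (nat_lit 23859669), (nat_lit 17778567), (nat_lit 12006452)] (nat_lit 10758730)) p15_30_1 (nat_lit 4) (nat_lit 209) (nat_lit 210) = true := by decide +kernel
def p15_30_1_210 : pfC (piC [(nat_lit 35404596), (nat_lit 23859669), (nat_lit 17778567), (nat_lit 12006452)] (nat_lit 10758730)) p15_30_1 (nat_lit 4) (nat_lit 210) (nat_lit 211) = true := by decide +kernel
def p15_30_1_211 : pfC (piC [(nat_lit 35404596), (nat_lit 23859669), (nat_lit 17778567), (nat_lit 12006452)] (nat_lit 10758730)) p15_30_1 (nat_lit 4) (nat_lit 211) (nat_lit 212) = true := by decide +kernel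
def p15_30_1_212 : pfC (piC [(nat_lit 35404596), (nat_lit 23859669), (nat_lit 17778567), (nat_lit 12006452)] (nat_lit 10758730)) p15_30_1 (nat_lit 4) (nat_lit 212) (nat_lit 213) = true := by decide +kernel
def p15_30_1_213 : pfC (piC [(nat_lit 35404596), (nat_lit 23859669), (nat_lit 17778567), (nat_lit 12006452)] (nat_lit 10758730)) p15_30_1 (nat_lit 4) (nat_lit 213) (nat_lit 214) = true := by decide +kernel
def p15_30_1_214 : pfC (piC [(nat_lit 35404596), (nat_lit 23859669), (nat_lit 17778567), (nat_lit 12006452)] (nat_lit 10758730)) p15_30_1 (nat_lit 4) (nat_lit 214) (nat_lit 215) = true := by decide +kernel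
def p15_30_1_215 : pfC (piC [(nat_lit 35404596), (nat_lit 23859669), (nat_lit 17778567), (nat_lit 12006452)] (nat_lit 10758730)) p15_30_1 (nat_lit 4) (nat_lit 215) (nat_lit 216) = true := by decide +kernel
def p15_30_1_216 : pfC (piC [(nat_lit 35404596), (nat_lit 23859669), (nat_lit 17778567), (nat_lit 12006452)] (nat_lit 10758730)) p15_30_1 (nat_lit 4) (nat_lit 216) (nat_lit 217) = true := by decide +kernel
def p15_30_1_217 : pfC (piC [(nat_lit 35404596), (nat_lit 23859669), (nat_lit 17778567), (nat_lit 12006452)] (nat_lit 10758730)) p15_30_1 (nat_lit 4) (nat_lit 217) (nat_lit 218) = true := by decide +kernel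
def p15_30_1_218 : pfC (piC [(nat_lit 35404596), (nat_lit 23859669), (nat_lit 17778567), (nat_lit 12006452)] (nat_lit 10758730)) p15_30_1 (nat_lit 4) (nat_lit 218) (nat_lit 219) = true := by decide +kernel
def p15_30_1_219 : pfC (piC [(nat_lit 35404596), (nat_lit 23859669), (nat_lit 17778567), (nat_lit 12006452)] (nat_lit 10758730)) p15_30_1 (nat_lit 4) (nat_lit 219) (nat_lit 220) = true := by decide +kernel
def p15_30_1_220 : pfC (piC [(nat_lit 35404596), (nat_lit 23859669), (nat_lit 17778567), (nat_lit 12006452)] (nat_lit 10758730)) p15_30_1 (nat_lit 4) (nat_lit 220) (nat_lit 221) = true := by decide +kernel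
def p15_30_1_221 : pfC (piC [(nat_lit 35404596), (nat_lit 23859669), (nat_lit 17778567), (nat_lit 12006452)] (nat_lit 10758730)) p15_30_1 (nat_lit 4) (nat_lit 221) (nat_lit 222) = true := by decide +kernel
def p15_30_1_222 : pfC (piC [(nat_lit 35404596), (nat_lit 23859669), (nat_lit 17778567), (nat_lit 12006452)] (nat_lit 10758730)) p15_30_1 (nat_lit 4) (nat_lit 222) (nat_lit 223) = true := by decide +kernel
def p15_30_1_223 : pfC (piC [(nat_lit 35404596), (nat_lit 23859669), (nat_lit 17778567), (nat_lit 12006452)] (nat_lit 10758730)) p15_30_1 (nat_lit 4) (nat_lit 223) (nat_lit 224) = true := by decide +kernel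
def p15_30_1_224 : pfC (piC [(nat_lit 35404596), (nat_lit 23859669), (nat_lit 17778567), (nat_lit 12006452)] (nat_lit 10758730)) p15_30_1 (nat_lit 4) (nat_lit 224) (nat_lit 225) = true := by decide +kernel
def p15_30_1_225 : pfC (piC [(nat_lit 35404596), (nat_lit 23859669), (nat_lit 17778567), (nat_lit 12006452)] (nat_lit 10758730)) p15_30_1 (nat_lit 4) (nat_lit 225) (nat_lit 226) = true := by decide +kernel
theorem p15_30_1_T : PfS (PiF n15_30.reverse (nat_lit 10758730)) p15_30_1 (nat_lit 4) [] 0 :=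
  pftab_of (los := [(nat_lit 35404596), (nat_lit 23859669), (nat_lit 17778567), (nat_lit 12006452)]) (by decide +kernel) (hi := (nat_lit 226)) (PfP.trans (PfP.trans (PfP.trans (PfP.trans (PfP.trans (PfP.trans (PfP.trans (PfP.trans (PfP.trans (PfP.trans (PfP.trans (PfP.trans (PfP.trans (PfP.trans (PfP.trans (PfP.trans (PfP.trans (PfP.trans (PfP.trans (PfP.trans (PfP.trans (PfP.trans (PfP.trans (PfP.trans (PfP.trans (PfP.trans (PfP.trans (PfP.trans (PfP.trans (PfP.trans (PfP.trans (PfP.trans (PfP.trans (PfP.trans (PfP.trans (PfP.trans (PfP.trans (PfP.trans (PfP.trans (PfP.trans (PfP.trans (PfP.trans (PfP.trans (PfP.trans (PfP.trans (PfP.trans (PfP.trans (PfP.trans (PfP.trans (PfP.trans (PfP.trans (PfP.trans (PfP.trans (PfP.trans (PfP.trans (PfP.trans (PfP.trans (PfP.trans (PfP.trans (PfP.trans (PfP.trans (PfP.trans (PfP.trans (PfP.trans (PfP.trans (PfP.trans (PfP.trans (PfP.trans (PfP.trans (PfP.trans (PfP.trans (PfP.trans (PfP.trans (PfP.trans (PfP.trans (PfP.trans (PfP.trans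 (PfP.trans (PfP.trans (PfP.trans (PfP.trans (PfP.trans (PfP.trans (PfP.trans (PfP.trans (PfP.trans (PfP.trans (PfP.trans (PfP.trans (PfP.trans (PfP.trans (PfP.trans (PfP.trans (PfP.trans (PfP.trans (PfP.trans (PfP.trans (PfP.trans (PfP.trans (PfP.trans (PfP.trans (PfP.trans (PfP.trans (PfP.trans (PfP.trans (PfP.trans (PfP.trans (PfP.trans (PfP.trans
 (PfP.trans (PfP.trans (PfP.trans (PfP.trans (PfP.trans (PfP.trans (PfP.trans (PfP.trans (PfP.trans (PfP.trans (PfP.trans (PfP.trans (PfP.trans (PfP.trans (PfP.trans (PfP.trans (PfP.trans (PfP.trans (PfP.trans (PfP.trans (PfP.trans (PfP.trans (PfP.trans (PfP.trans (PfP.trans (PfP.trans (PfP.trans (PfP.trans (PfP.trans (PfP.trans (PfP.trans (PfP.trans (PfP.trans (PfP.trans (PfP.trans (PfP.trans (PfP.trans (PfP.trans (PfP.trans (PfP.trans (PfP.trans (PfP.trans (PfP.trans (PfP.trans (PfP.trans (PfP.trans (PfP.trans (PfP.trans (PfP.trans (PfP.trans (PfP.trans (PfP.trans (PfP.trans (PfP.trans (PfP.trans (PfP.trans (PfP.trans (PfP.trans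 (PfP.trans (PfP.trans (PfP.trans (PfP.trans (PfP.trans (PfP.trans (PfP.trans (PfP.trans (PfP.trans (PfP.trans (PfP.trans (PfP.trans (PfP.trans (PfP.trans (PfP.trans (PfP.trans (PfP.trans (PfP.trans (PfP.trans (PfP.trans (PfP.trans (PfP.trans (PfP.trans (PfP.trans (PfP.trans (PfP.trans (PfP.trans (PfP.trans (PfP.trans (PfP.trans (PfP.trans (PfP.trans (PfP.trans (PfP.trans (PfP.trans (PfP.trans (PfP.trans (PfP.trans (PfP.trans (PfP.trans (PfP.trans (PfP.trans (PfP.trans (PfP.trans (PfP.trans (PfP.trans (PfP.trans (PfP.trans (PfP.trans (PfP.trans (PfP.trans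
 (PfP.trans (PfP.trans (PfP.trans (PfP.trans (PfP.trans (PfP.trans (PfP.trans (pfC_sound p15_30_1_0) (pfC_sound p15_30_1_1)) (pfC_sound p15_30_1_2)) (pfC_sound p15_30_1_3)) (pfC_sound p15_30_1_4)) (pfC_sound p15_30_1_5)) (pfC_sound p15_30_1_6)) (pfC_sound p15_30_1_7)) (pfC_sound p15_30_1_8)) (pfC_sound p15_30_1_9)) (pfC_sound p15_30_1_10)) (pfC_sound p15_30_1_11)) (pfC_sound p15_30_1_12)) (pfC_sound p15_30_1_13)) (pfC_sound p15_30_1_14)) (pfC_sound p15_30_1_15)) (pfC_sound p15_30_1_16)) (pfC_sound p15_30_1_17)) (pfC_sound p15_30_1_18)) (pfC_sound p15_30_1_19)) (pfC_sound p15_30_1_20)) (pfC_sound p15_30_1_21)) (pfC_sound p15_30_1_22)) (pfC_sound p15_30_1_23)) (pfC_sound p15_30_1_24)) (pfC_sound p15_30_1_25)) (pfC_sound p15_30_1_26)) (pfC_sound p15_30_1_27)) (pfC_sound p15_30_1_28)) (pfC_sound p15_30_1_29)) (pfC_sound p15_30_1_30)) (pfC_sound p15_30_1_31)) (pfC_sound p15_30_1_32)) (pfC_sound p15_30_1_33)) (pfC_sound p15_30_1_34)) (pfC_sound p15_30_1_35)) (pfC_sound p15_30_1_36))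 (pfC_sound p15_30_1_37)) (pfC_sound p15_30_1_38)) (pfC_sound p15_30_1_39)) (pfC_sound p15_30_1_40)) (pfC_sound p15_30_1_41)) (pfC_sound p15_30_1_42)) (pfC_sound p15_30_1_43)) (pfC_sound p15_30_1_44))
 (pfC_sound p15_30_1_45)) (pfC_sound p15_30_1_46)) (pfC_sound p15_30_1_47)) (pfC_sound p15_30_1_48)) (pfC_sound p15_30_1_49)) (pfC_sound p15_30_1_50)) (pfC_sound p15_30_1_51)) (pfC_sound p15_30_1_52)) (pfC_sound p15_30_1_53)) (pfC_sound p15_30_1_54)) (pfC_sound p15_30_1_55)) (pfC_sound p15_30_1_56)) (pfC_sound p15_30_1_57)) (pfC_sound p15_30_1_58)) (pfC_sound p15_30_1_59)) (pfC_sound p15_30_1_60)) (pfC_sound p15_30_1_61)) (pfC_sound p15_30_1_62)) (pfC_sound p15_30_1_63)) (pfC_sound p15_30_1_64)) (pfC_sound p15_30_1_65)) (pfC_sound p15_30_1_66)) (pfC_sound p15_30_1_67)) (pfC_sound p15_30_1_68)) (pfC_sound p15_30_1_69)) (pfC_sound p15_30_1_70)) (pfC_sound p15_30_1_71)) (pfC_sound p15_30_1_72)) (pfC_sound p15_30_1_73)) (pfC_sound p15_30_1_74)) (pfC_sound p15_30_1_75)) (pfC_sound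 p15_30_1_76)) (pfC_sound p15_30_1_77)) (pfC_sound p15_30_1_78)) (pfC_sound p15_30_1_79)) (pfC_sound p15_30_1_80)) (pfC_sound p15_30_1_81)) (pfC_sound p15_30_1_82)) (pfC_sound p15_30_1_83)) (pfC_sound p15_30_1_84)) (pfC_sound p15_30_1_85)) (pfC_sound p15_30_1_86)) (pfC_sound p15_30_1_87)) (pfC_sound p15_30_1_88)) (pfC_sound p15_30_1_89)) (pfC_sound p15_30_1_90)) (pfC_sound p15_30_1_91)) (pfC_sound p15_30_1_92))
 (pfC_sound p15_30_1_93)) (pfC_sound p15_30_1_94)) (pfC_sound p15_30_1_95)) (pfC_sound p15_30_1_96)) (pfC_sound p15_30_1_97)) (pfC_sound p15_30_1_98)) (pfC_sound p15_30_1_99)) (pfC_sound p15_30_1_100)) (pfC_sound p15_30_1_101)) (pfC_sound p15_30_1_102)) (pfC_sound p15_30_1_103)) (pfC_sound p15_30_1_104)) (pfC_sound p15_30_1_105)) (pfC_sound p15_30_1_106)) (pfC_sound p15_30_1_107)) (pfC_sound p15_30_1_108)) (pfC_sound p15_30_1_109)) (pfC_sound p15_30_1_110)) (pfC_sound p15_30_1_111)) (pfC_sound p15_30_1_112)) (pfC_sound p15_30_1_113)) (pfC_sound p15_30_1_114)) (pfC_sound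 p15_30_1_115)) (pfC_sound p15_30_1_116)) (pfC_sound p15_30_1_117)) (pfC_sound p15_30_1_118)) (pfC_sound p15_30_1_119)) (pfC_sound p15_30_1_120)) (pfC_sound p15_30_1_121)) (pfC_sound p15_30_1_122)) (pfC_sound p15_30_1_123)) (pfC_sound p15_30_1_124)) (pfC_sound p15_30_1_125)) (pfC_sound p15_30_1_126)) (pfC_sound p15_30_1_127)) (pfC_sound p15_30_1_128)) (pfC_sound p15_30_1_129)) (pfC_sound p15_30_1_130)) (pfC_sound p15_30_1_131)) (pfC_sound p15_30_1_132)) (pfC_sound p15_30_1_133)) (pfC_sound p15_30_1_134)) (pfC_sound p15_30_1_135)) (pfC_sound p15_30_1_136)) (pfC_sound p15_30_1_137)) (pfC_sound p15_30_1_138)) (pfC_sound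
 p15_30_1_139)) (pfC_sound p15_30_1_140)) (pfC_sound p15_30_1_141)) (pfC_sound p15_30_1_142)) (pfC_sound p15_30_1_143)) (pfC_sound p15_30_1_144)) (pfC_sound p15_30_1_145)) (pfC_sound p15_30_1_146)) (pfC_sound p15_30_1_147)) (pfC_sound p15_30_1_148)) (pfC_sound p15_30_1_149)) (pfC_sound p15_30_1_150)) (pfC_sound p15_30_1_151)) (pfC_sound p15_30_1_152)) (pfC_sound p15_30_1_153)) (pfC_sound p15_30_1_154)) (pfC_sound p15_30_1_155)) (pfC_sound p15_30_1_156)) (pfC_sound p15_30_1_157)) (pfC_sound p15_30_1_158)) (pfC_sound p15_30_1_159)) (pfC_sound p15_30_1_160)) (pfC_sound p15_30_1_161)) (pfC_sound p15_30_1_162)) (pfC_sound p15_30_1_163)) (pfC_sound p15_30_1_164)) (pfC_sound p15_30_1_165)) (pfC_sound p15_30_1_166)) (pfC_sound p15_30_1_167)) (pfC_sound p15_30_1_168)) (pfC_sound p15_30_1_169)) (pfC_sound p15_30_1_170)) (pfC_sound p15_30_1_171)) (pfC_sound p15_30_1_172)) (pfC_sound p15_30_1_173)) (pfC_sound p15_30_1_174)) (pfC_sound p15_30_1_175)) (pfC_sound p15_30_1_176)) (pfC_sound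 p15_30_1_177)) (pfC_sound p15_30_1_178)) (pfC_sound p15_30_1_179)) (pfC_sound p15_30_1_180)) (pfC_sound p15_30_1_181)) (pfC_sound p15_30_1_182)) (pfC_sound p15_30_1_183)) (pfC_sound p15_30_1_184)) (pfC_sound
 p15_30_1_185)) (pfC_sound p15_30_1_186)) (pfC_sound p15_30_1_187)) (pfC_sound p15_30_1_188)) (pfC_sound p15_30_1_189)) (pfC_sound p15_30_1_190)) (pfC_sound p15_30_1_191)) (pfC_sound p15_30_1_192)) (pfC_sound p15_30_1_193)) (pfC_sound p15_30_1_194)) (pfC_sound p15_30_1_195)) (pfC_sound p15_30_1_196)) (pfC_sound p15_30_1_197)) (pfC_sound p15_30_1_198)) (pfC_sound p15_30_1_199)) (pfC_sound p15_30_1_200)) (pfC_sound p15_30_1_201)) (pfC_sound p15_30_1_202)) (pfC_sound p15_30_1_203)) (pfC_sound p15_30_1_204)) (pfC_sound p15_30_1_205)) (pfC_sound p15_30_1_206)) (pfC_sound p15_30_1_207)) (pfC_sound p15_30_1_208)) (pfC_sound p15_30_1_209)) (pfC_sound p15_30_1_210)) (pfC_sound p15_30_1_211)) (pfC_sound p15_30_1_212)) (pfC_sound p15_30_1_213)) (pfC_sound p15_30_1_214)) (pfC_sound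 p15_30_1_215)) (pfC_sound p15_30_1_216)) (pfC_sound p15_30_1_217)) (pfC_sound p15_30_1_218)) (pfC_sound p15_30_1_219)) (pfC_sound p15_30_1_220)) (pfC_sound p15_30_1_221)) (pfC_sound p15_30_1_222)) (pfC_sound p15_30_1_223)) (pfC_sound p15_30_1_224)) (pfC_sound p15_30_1_225)) (by decide +kernel)

def z15_30_1 : zOK yB15_30 (nat_lit 1) (nat_lit 400) (nat_lit 600) (nat_lit 10758730) (nat_lit 6891553) = true := by decide +kernel
def g15_30_1 : gOK yB15_30.x P15_30 (nat_lit 1401) (q15_30 :: r15_30) (nat_lit 1) (nat_lit 400) (nat_lit 2) (nat_lit 600) (nat_lit 11000000) (nat_lit 17850000) (nat_lit 12712500) (nat_lit 12712500) [(nat_lit 800), (nat_lit 1130)] = true := by decide +kernel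
def v15_30_1 : ivC P15_30 s15_30 w15_30 n15_30 (nat_lit 4) (nat_lit 4935) (nat_lit 1) (nat_lit 400) f168_1_400 f176_1_400 (nat_lit 2) (nat_lit 600) f168_1_600 f176_1_600 (nat_lit 10758730) (nat_lit 6891553) p15_30_1 = true := by decide +kernel
def p15_30_2 : PF := (PF.cons (PF.cons (PF.cons (PF.cons (PF.leaf (nat_lit 2710602) (nat_lit 15593879) (nat_lit 51514933) (nat_lit 15593879) [(nat_lit 0), (nat_lit 0), (nat_lit 0), (nat_lit 0)]) (PF.cons (PF.leaf (nat_lit 2935035) (nat_lit 419923) (nat_lit 51119378) (nat_lit 15569511) [(nat_lit 419923), (nat_lit 0), (nat_lit 0), (nat_lit 0)]) (PF.cons (PF.leaf (nat_lit 3198074) (nat_lit 455379) (nat_lit 50659755) (nat_lit 15538298) [(nat_lit 455379), (nat_lit 0), (nat_lit 0), (nat_lit 0)]) (PF.cons (PF.leaf (nat_lit 3491900) (nat_lit 486326) (nat_lit 50149680) (nat_lit 15500153) [(nat_lit 486326), (nat_lit 0), (nat_lit 0), (nat_lit 0)]) (PF.cons (PF.leaf (nat_lit 3811343) (nat_lit 513709) (nat_lit 49599000) (nat_lit 15454973) [(nat_lit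 513709), (nat_lit 0), (nat_lit 0), (nat_lit 0)]) (PF.cons (PF.leaf (nat_lit 4152400) (nat_lit 538138) (nat_lit 49015413) (nat_lit 15402708) [(nat_lit 538138), (nat_lit 0), (nat_lit 0), (nat_lit 0)]) (PF.cons (PF.leaf (nat_lit 4511758) (nat_lit 560034) (nat_lit 48405215) (nat_lit 15343387) [(nat_lit 560034), (nat_lit 0), (nat_lit 0), (nat_lit 0)]) (PF.cons (PF.leaf (nat_lit 4886600) (nat_lit 579712) (nat_lit 47773707) (nat_lit 15277118) [(nat_lit 579712), (nat_lit 0),
 (nat_lit 0), (nat_lit 0)]) (PF.cons (PF.leaf (nat_lit 5274490) (nat_lit 597412) (nat_lit 47125432) (nat_lit 15204082) [(nat_lit 597412), (nat_lit 0), (nat_lit 0), (nat_lit 0)]) (PF.cons (PF.leaf (nat_lit 5673287) (nat_lit 613328) (nat_lit 46464327) (nat_lit 15124525) [(nat_lit 613328), (nat_lit 0), (nat_lit 0), (nat_lit 0)]) (PF.cons (PF.leaf (nat_lit 6081080) (nat_lit 627623) (nat_lit 45793830) (nat_lit 15038748) [(nat_lit 627623), (nat_lit 0), (nat_lit 0), (nat_lit 0)]) (PF.cons PF.nil (PF.cons PF.nil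 (PF.cons PF.nil PF.nil)))))))))))))) (PF.cons (PF.cons (PF.leaf (nat_lit 3345739) (nat_lit 1574077) (nat_lit 50048578) (nat_lit 15486157) [(nat_lit 0), (nat_lit 1574077), (nat_lit 0), (nat_lit 0)]) (PF.cons (PF.leaf (nat_lit 3627152) (nat_lit 493358) (nat_lit 49553591) (nat_lit 15445020) [(nat_lit 493358), (nat_lit 1616842), (nat_lit 0), (nat_lit 0)]) (PF.cons (PF.leaf (nat_lit 3936686) (nat_lit 519996) (nat_lit 49015022) (nat_lit 15396605) [(nat_lit 519996), (nat_lit 1657192), (nat_lit 0), (nat_lit 0)]) (PF.cons (PF.leaf (nat_lit 4269059) (nat_lit 543669) (nat_lit 48442134) (nat_lit 15341045) [(nat_lit 543669), (nat_lit 1694625), (nat_lit 0), (nat_lit 0)]) (PF.cons (PF.leaf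
 (nat_lit 4620489) (nat_lit 564836) (nat_lit 47842015) (nat_lit 15278483) [(nat_lit 564836), (nat_lit 1728967), (nat_lit 0), (nat_lit 0)]) (PF.cons (PF.leaf (nat_lit 4987936) (nat_lit 583824) (nat_lit 47220384) (nat_lit 15209100) [(nat_lit 583824), (nat_lit 1760202), (nat_lit 0), (nat_lit 0)]) (PF.cons (PF.leaf (nat_lit 5368774) (nat_lit 600879) (nat_lit 46582005) (nat_lit 15133132) [(nat_lit 600879), (nat_lit 1788395), (nat_lit 0), (nat_lit 0)]) (PF.cons (PF.leaf (nat_lit 5760762) (nat_lit 616196) (nat_lit 45930927) (nat_lit 15050858) [(nat_lit 616196), (nat_lit 1813652), (nat_lit 0), (nat_lit 0)]) (PF.cons (PF.leaf (nat_lit 6161922) (nat_lit 629934) (nat_lit 45270631) (nat_lit 14962602) [(nat_lit 629934), (nat_lit 1836105), (nat_lit 0), (nat_lit 0)]) (PF.cons PF.nil (PF.cons PF.nil (PF.cons PF.nil PF.nil)))))))))))) (PF.cons (PF.cons (PF.leaf (nat_lit 4065994) (nat_lit 1678078) (nat_lit 48419792) (nat_lit 15332862) [(nat_lit 0), (nat_lit 1678078), (nat_lit 0), (nat_lit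 0)]) (PF.cons (PF.leaf (nat_lit 4387633) (nat_lit 548089) (nat_lit 47861931) (nat_lit 15274707) [(nat_lit 548089), (nat_lit 1712041), (nat_lit 0), (nat_lit 0)]) (PF.cons (PF.leaf (nat_lit 4730028) (nat_lit 568732)
 (nat_lit 47274951) (nat_lit 15209483) [(nat_lit 568732), (nat_lit 1743456), (nat_lit 0), (nat_lit 0)]) (PF.cons (PF.leaf (nat_lit 5089280) (nat_lit 587179) (nat_lit 46665451) (nat_lit 15137489) [(nat_lit 587179), (nat_lit 1772167), (nat_lit 0), (nat_lit 0)]) (PF.cons (PF.leaf (nat_lit 5462518) (nat_lit 603701) (nat_lit 46038673) (nat_lit 15059030) [(nat_lit 603701), (nat_lit 1798150), (nat_lit 0), (nat_lit 0)]) (PF.cons (PF.leaf (nat_lit 5847328) (nat_lit 618506) (nat_lit 45398935) (nat_lit 14974437) [(nat_lit 618506), (nat_lit 1821454), (nat_lit 0), (nat_lit 0)]) (PF.cons (PF.leaf (nat_lit 6241621) (nat_lit 631759) (nat_lit 44749866) (nat_lit 14884060) [(nat_lit 631759), (nat_lit 1842166), (nat_lit 0), (nat_lit 0)]) (PF.cons (PF.leaf (nat_lit 6643600) (nat_lit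 643598) (nat_lit 44094562) (nat_lit 14788272) [(nat_lit 643598), (nat_lit 1860395), (nat_lit 0), (nat_lit 0)]) (PF.cons PF.nil (PF.cons PF.nil PF.nil)))))))))) (PF.cons (PF.cons (PF.leaf (nat_lit 4841941) (nat_lit 1756600) (nat_lit 46702742) (nat_lit 15136268) [(nat_lit 0), (nat_lit 1756600), (nat_lit 0), (nat_lit 0)]) (PF.cons (PF.leaf (nat_lit 5191622) (nat_lit 589754) (nat_lit 46108096) (nat_lit 15062244) [(nat_lit
 589754), (nat_lit 1782905), (nat_lit 0), (nat_lit 0)]) (PF.cons (PF.leaf (nat_lit 5556499) (nat_lit 605869) (nat_lit 45494900) (nat_lit 14981788) [(nat_lit 605869), (nat_lit 1806795), (nat_lit 0), (nat_lit 0)]) (PF.cons (PF.leaf (nat_lit 5933596) (nat_lit 620256) (nat_lit 44867981) (nat_lit 14895301) [(nat_lit 620256), (nat_lit 1828253), (nat_lit 0), (nat_lit 0)]) (PF.cons (PF.leaf (nat_lit 6320656) (nat_lit 633100) (nat_lit 44231263) (nat_lit 14803180) [(nat_lit 633100), (nat_lit 1847322), (nat_lit 0), (nat_lit 0)]) (PF.cons (PF.leaf (nat_lit 6715748)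 (nat_lit 644545) (nat_lit 43588014) (nat_lit 14705824) [(nat_lit 644545), (nat_lit 1864082), (nat_lit 0), (nat_lit 0)]) (PF.cons PF.nil (PF.cons PF.nil (PF.cons PF.nil PF.nil))))))))) (PF.cons (PF.cons (PF.leaf (nat_lit 5651893) (nat_lit 1814413) (nat_lit 44949812) (nat_lit 14901347) [(nat_lit 0), (nat_lit 1814413), (nat_lit 0), (nat_lit 0)]) (PF.cons (PF.leaf (nat_lit 6020298) (nat_lit 621433) (nat_lit 44337471) (nat_lit 14813443) [(nat_lit 621433), (nat_lit 1834115), (nat_lit 0), (nat_lit 0)]) (PF.cons (PF.leaf (nat_lit 6399602) (nat_lit 633950) (nat_lit 43714401) (nat_lit 14719984) [(nat_lit 633950), (nat_lit 1851631), (nat_lit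
 0), (nat_lit 0)]) (PF.cons (PF.leaf (nat_lit 6787452) (nat_lit 645067) (nat_lit 43084177) (nat_lit 14621414) [(nat_lit 645067), (nat_lit 1867004), (nat_lit 0), (nat_lit 0)]) (PF.cons (PF.leaf (nat_lit 7182069) (nat_lit 654917) (nat_lit 42449744) (nat_lit 14518161) [(nat_lit 654917), (nat_lit 1880308), (nat_lit 0), (nat_lit 0)]) (PF.cons PF.nil (PF.cons PF.nil PF.nil))))))) (PF.cons (PF.cons (PF.leaf (nat_lit 6479362) (nat_lit 1855143) (nat_lit 43198646) (nat_lit 14634448) [(nat_lit 0), (nat_lit 1855143), (nat_lit 0), (nat_lit 0)]) (PF.cons (PF.leaf (nat_lit 6859265) (nat_lit 645157) (nat_lit 42582591) (nat_lit 14535046) [(nat_lit 645157), (nat_lit 1869203), (nat_lit 0), (nat_lit 0)]) (PF.cons (PF.leaf (nat_lit 7246693) (nat_lit 654746) (nat_lit 41961592) (nat_lit 14431057) [(nat_lit 654746), (nat_lit 1881333), (nat_lit 0), (nat_lit 0)]) (PF.cons (PF.leaf (nat_lit 7639778) (nat_lit 663182) (nat_lit 41338305) (nat_lit 14322925) [(nat_lit 663182), (nat_lit 1891606), (nat_lit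 0), (nat_lit 0)]) (PF.cons PF.nil PF.nil))))) (PF.cons (PF.cons (PF.leaf (nat_lit 7311790) (nat_lit 1881740) (nat_lit 41476055) (nat_lit 14342315) [(nat_lit 0), (nat_lit 1881740), (nat_lit 0), (nat_lit 0)])
 (PF.cons (PF.leaf (nat_lit 7697581) (nat_lit 662422) (nat_lit 40866400) (nat_lit 14233871) [(nat_lit 662422), (nat_lit 1891019), (nat_lit 0), (nat_lit 0)]) (PF.cons PF.nil (PF.cons PF.nil PF.nil)))) (PF.cons (PF.cons (PF.leaf (nat_lit 8139710) (nat_lit 1896671) (nat_lit 39800662) (nat_lit 14031447) [(nat_lit 0), (nat_lit 1896671), (nat_lit 0), (nat_lit 0)]) (PF.cons PF.nil PF.nil)) (PF.cons PF.nil PF.nil))))))))) (PF.cons (PF.cons (PF.cons (PF.leaf (nat_lit 3907434) (nat_lit 3811932) (nat_lit 48030147) (nat_lit 15266732) [(nat_lit 0), (nat_lit 0), (nat_lit 3811932), (nat_lit 0)]) (PF.cons (PF.leaf (nat_lit 4196926) (nat_lit 520354) (nat_lit 47531446) (nat_lit 15213255) [(nat_lit 520354), (nat_lit 0), (nat_lit 3843756), (nat_lit 0)]) (PF.cons (PF.leaf (nat_lit 4512535)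 (nat_lit 544502) (nat_lit 46993582) (nat_lit 15152258) [(nat_lit 544502), (nat_lit 0), (nat_lit 3873967), (nat_lit 0)]) (PF.cons (PF.leaf (nat_lit 4848895) (nat_lit 565659) (nat_lit 46425855) (nat_lit 15084226) [(nat_lit 565659), (nat_lit 0), (nat_lit 3901750), (nat_lit 0)]) (PF.cons (PF.leaf (nat_lit 5202275) (nat_lit 584357) (nat_lit 45835180) (nat_lit 15009563) [(nat_lit 584357), (nat_lit 0), (nat_lit 3926637),
 (nat_lit 0)]) (PF.cons (PF.leaf (nat_lit 5569696) (nat_lit 600960) (nat_lit 45226988) (nat_lit 14928643) [(nat_lit 600960), (nat_lit 0), (nat_lit 3948379), (nat_lit 0)]) (PF.cons (PF.leaf (nat_lit 5948686) (nat_lit 615733) (nat_lit 44605701) (nat_lit 14841840) [(nat_lit 615733), (nat_lit 0), (nat_lit 3966866), (nat_lit 0)]) (PF.cons (PF.leaf (nat_lit 6337154) (nat_lit 628884) (nat_lit 43975004) (nat_lit 14749535) [(nat_lit 628884), (nat_lit 0), (nat_lit 3982084), (nat_lit 0)]) (PF.cons (PF.leaf (nat_lit 6733281) (nat_lit 640576) (nat_lit 43338009) (nat_lit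 14652113) [(nat_lit 640576), (nat_lit 0), (nat_lit 3994080), (nat_lit 0)]) (PF.cons PF.nil PF.nil)))))))))) (PF.cons (PF.cons (PF.leaf (nat_lit 4633188) (nat_lit 1726637) (nat_lit 46414696) (nat_lit 15077237) [(nat_lit 0), (nat_lit 1726637), (nat_lit 3890241), (nat_lit 0)]) (PF.cons (PF.leaf (nat_lit 4958211) (nat_lit 567959) (nat_lit 45864444) (nat_lit 15007784) [(nat_lit 567959), (nat_lit 1754383), (nat_lit 3914241), (nat_lit 0)]) (PF.cons (PF.leaf (nat_lit 5302099) (nat_lit 586373) (nat_lit 45288949) (nat_lit 14931559) [(nat_lit 586373), (nat_lit 1779776), (nat_lit 3935780), (nat_lit 0)]) (PF.cons (PF.leaf (nat_lit 5661053)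
 (nat_lit 602637) (nat_lit 44694574) (nat_lit 14849068) [(nat_lit 602637), (nat_lit 1802727), (nat_lit 3954530), (nat_lit 0)]) (PF.cons (PF.leaf (nat_lit 6032290) (nat_lit 617052) (nat_lit 44086264) (nat_lit 14760761) [(nat_lit 617052), (nat_lit 1823247), (nat_lit 3970329), (nat_lit 0)]) (PF.cons (PF.leaf (nat_lit 6413505) (nat_lit 629842) (nat_lit 43468005) (nat_lit 14667067) [(nat_lit 629842), (nat_lit 1841402), (nat_lit 3983124), (nat_lit 0)]) (PF.cons (PF.leaf (nat_lit 6802785) (nat_lit 641183) (nat_lit 42843090) (nat_lit 14568402) [(nat_lit 641183), (nat_lit 1857284), (nat_lit 3992932), (nat_lit 0)]) (PF.cons (PF.leaf (nat_lit 7198438) (nat_lit 651218) (nat_lit 42214280) (nat_lit 14465179) [(nat_lit 651218), (nat_lit 1871000), (nat_lit 3999822), (nat_lit 0)]) (PF.cons PF.nil PF.nil))))))))) (PF.cons (PF.cons (PF.leaf (nat_lit 5404664) (nat_lit 1788287) (nat_lit 44739167) (nat_lit 14850011) [(nat_lit 0), (nat_lit 1788287), (nat_lit 3943059), (nat_lit 0)]) (PF.cons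 (PF.leaf (nat_lit 5753790) (nat_lit 603634) (nat_lit 44161003) (nat_lit 14766515) [(nat_lit 603634), (nat_lit 1809337), (nat_lit 3958985), (nat_lit 0)]) (PF.cons (PF.leaf (nat_lit 6116513) (nat_lit 617805) (nat_lit
 43567373) (nat_lit 14677168) [(nat_lit 617805), (nat_lit 1828201), (nat_lit 3972258), (nat_lit 0)]) (PF.cons (PF.leaf (nat_lit 6489962) (nat_lit 630321) (nat_lit 42962800) (nat_lit 14582477) [(nat_lit 630321), (nat_lit 1844893), (nat_lit 3982781), (nat_lit 0)]) (PF.cons (PF.leaf (nat_lit 6872025) (nat_lit 641379) (nat_lit 42350894) (nat_lit 14482908) [(nat_lit 641379), (nat_lit 1859474), (nat_lit 3990543), (nat_lit 0)]) (PF.cons (PF.leaf (nat_lit 7260884) (nat_lit 651132) (nat_lit 41734610) (nat_lit 14378900) [(nat_lit 651132), (nat_lit 1872026), (nat_lit 3995586), (nat_lit 0)]) (PF.cons PF.nil PF.nil))))))) (PF.cons (PF.cons (PF.leaf (nat_lit 6202472) (nat_lit 1832336) (nat_lit 43048101) (nat_lit 14590971) [(nat_lit 0), (nat_lit 1832336), (nat_lit 3972729),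 (nat_lit 0)]) (PF.cons (PF.leaf (nat_lit 6567204) (nat_lit 630299) (nat_lit 42458743) (nat_lit 14495728) [(nat_lit 630299), (nat_lit 1847639), (nat_lit 3981124), (nat_lit 0)]) (PF.cons (PF.leaf (nat_lit 6941538) (nat_lit 641150) (nat_lit 41860951) (nat_lit 14395623) [(nat_lit 641150), (nat_lit 1860987), (nat_lit 3986972), (nat_lit 0)]) (PF.cons (PF.leaf (nat_lit 7323249) (nat_lit 650682) (nat_lit 41258004) (nat_lit 14291144)
 [(nat_lit 650682), (nat_lit 1872440), (nat_lit 3990293), (nat_lit 0)]) (PF.cons (PF.leaf (nat_lit 7710676) (nat_lit 659034) (nat_lit 40652558) (nat_lit 14182741) [(nat_lit 659034), (nat_lit 1882075), (nat_lit 3991149), (nat_lit 0)]) PF.nil))))) (PF.cons (PF.cons (PF.leaf (nat_lit 7012180) (nat_lit 1861861) (nat_lit 41372597) (nat_lit 14306495) [(nat_lit 0), (nat_lit 1861861), (nat_lit 3982273), (nat_lit 0)]) (PF.cons (PF.leaf (nat_lit 7386048) (nat_lit 649854) (nat_lit 40783971) (nat_lit 14201892) [(nat_lit 649854), (nat_lit 1872275), (nat_lit 3983990),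 (nat_lit 0)]) (PF.cons (PF.leaf (nat_lit 7766431) (nat_lit 658036) (nat_lit 40191998) (nat_lit 14093404) [(nat_lit 658036), (nat_lit 1880983), (nat_lit 3983403), (nat_lit 0)]) (PF.cons PF.nil PF.nil)))) (PF.cons (PF.cons (PF.leaf (nat_lit 7822959) (nat_lit 1879393) (nat_lit 39734226) (nat_lit 14002827) [(nat_lit 0), (nat_lit 1879393), (nat_lit 3974793), (nat_lit 0)]) (PF.cons (PF.leaf (nat_lit 8201004) (nat_lit 663684) (nat_lit 39154761) (nat_lit 13891154) [(nat_lit 663684), (nat_lit 1885686), (nat_lit 3970778), (nat_lit 0)]) PF.nil)) (PF.cons PF.nil (PF.cons PF.nil PF.nil)))))))) (PF.cons (PF.cons (PF.cons (PF.leaf (nat_lit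
 5182457) (nat_lit 3915058) (nat_lit 44486172) (nat_lit 14792523) [(nat_lit 0), (nat_lit 0), (nat_lit 3915058), (nat_lit 0)]) (PF.cons (PF.leaf (nat_lit 5508548) (nat_lit 582705) (nat_lit 43949285) (nat_lit 14714324) [(nat_lit 582705), (nat_lit 0), (nat_lit 3931248), (nat_lit 0)]) (PF.cons (PF.leaf (nat_lit 5851899) (nat_lit 599187) (nat_lit 43390407) (nat_lit 14629745) [(nat_lit 599187), (nat_lit 0), (nat_lit 3945141), (nat_lit 0)]) (PF.cons (PF.leaf (nat_lit 6208767) (nat_lit 613574) (nat_lit 42815614) (nat_lit 14539437) [(nat_lit 613574), (nat_lit 0), (nat_lit 3956519), (nat_lit 0)]) (PF.cons (PF.leaf (nat_lit 6576492) (nat_lit 626187) (nat_lit 42229535) (nat_lit 14443949) [(nat_lit 626187), (nat_lit 0), (nat_lit 3965289), (nat_lit 0)]) (PF.cons (PF.leaf (nat_lit 6952876) (nat_lit 637263) (nat_lit 41635844) (nat_lit 14343772) [(nat_lit 637263), (nat_lit 0), (nat_lit 3971439), (nat_lit 0)]) (PF.cons (PF.leaf (nat_lit 7336114) (nat_lit 646983) (nat_lit 41037524) (nat_lit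 14239360) [(nat_lit 646983), (nat_lit 0), (nat_lit 3975012), (nat_lit 0)]) (PF.cons PF.nil (PF.cons PF.nil PF.nil))))))))) (PF.cons (PF.cons (PF.leaf (nat_lit 5945541) (nat_lit 1807766) (nat_lit 42865814) (nat_lit
 14542443) [(nat_lit 0), (nat_lit 1807766), (nat_lit 3946394), (nat_lit 0)]) (PF.cons (PF.leaf (nat_lit 6292481) (nat_lit 613319) (nat_lit 42307887) (nat_lit 14451981) [(nat_lit 613319), (nat_lit 1824470), (nat_lit 3955576), (nat_lit 0)]) (PF.cons (PF.leaf (nat_lit 6651661) (nat_lit 625818) (nat_lit 41736984) (nat_lit 14356240) [(nat_lit 625818), (nat_lit 1839186), (nat_lit 3962382), (nat_lit 0)]) (PF.cons (PF.leaf (nat_lit 7020322) (nat_lit 636734) (nat_lit 41157324) (nat_lit 14255796) [(nat_lit 636734), (nat_lit 1851952), (nat_lit 3966768), (nat_lit 0)]) (PF.cons (PF.leaf (nat_lit 7396447) (nat_lit 646272) (nat_lit 40572222) (nat_lit 14151154) [(nat_lit 646272), (nat_lit 1862840), (nat_lit 3968753), (nat_lit 0)]) (PF.cons (PF.leaf (nat_lit 7778360) (nat_lit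 654591) (nat_lit 39984351) (nat_lit 14042771) [(nat_lit 654591), (nat_lit 1871936), (nat_lit 3968398), (nat_lit 0)]) (PF.cons PF.nil PF.nil))))))) (PF.cons (PF.cons (PF.leaf (nat_lit 6728850) (nat_lit 1840576) (nat_lit 41244642) (nat_lit 14266414) [(nat_lit 0), (nat_lit 1840576), (nat_lit 3958301), (nat_lit 0)]) (PF.cons (PF.leaf (nat_lit 7088848) (nat_lit 635759) (nat_lit 40680361) (nat_lit 14166113) [(nat_lit 635759),
 (nat_lit 1852243), (nat_lit 3961045), (nat_lit 0)]) (PF.cons (PF.leaf (nat_lit 7457356) (nat_lit 645187) (nat_lit 40109433) (nat_lit 14061577) [(nat_lit 645187), (nat_lit 1862157), (nat_lit 3961555), (nat_lit 0)]) (PF.cons (PF.leaf (nat_lit 7832272) (nat_lit 653371) (nat_lit 39534862) (nat_lit 13953313) [(nat_lit 653371), (nat_lit 1870386), (nat_lit 3959874), (nat_lit 0)]) (PF.cons PF.nil PF.nil))))) (PF.cons (PF.cons (PF.leaf (nat_lit 7519666) (nat_lit 1860957) (nat_lit 39648487) (nat_lit 13970553) [(nat_lit 0), (nat_lit 1860957), (nat_lit 3953450),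 (nat_lit 0)]) (PF.cons (PF.leaf (nat_lit 7886894) (nat_lit 651818) (nat_lit 39088076) (nat_lit 13862721) [(nat_lit 651818), (nat_lit 1868368), (nat_lit 3950544), (nat_lit 0)]) (PF.cons (PF.leaf (nat_lit 8259807) (nat_lit 658804) (nat_lit 38525508) (nat_lit 13751608) [(nat_lit 658804), (nat_lit 1874264), (nat_lit 3945645), (nat_lit 0)]) (PF.cons PF.nil PF.nil)))) (PF.cons (PF.cons (PF.leaf (nat_lit 8308604) (nat_lit 1871115) (nat_lit 38094783) (nat_lit 13660513) [(nat_lit 0), (nat_lit 1871115), (nat_lit 3934527), (nat_lit 0)]) (PF.cons PF.nil PF.nil)) (PF.cons PF.nil PF.nil)))))) (PF.cons (PF.cons (PF.cons (PF.leaf (nat_lit 6464510)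
 (nat_lit 3933456) (nat_lit 41087269) (nat_lit 14221173) [(nat_lit 0), (nat_lit 0), (nat_lit 3933456), (nat_lit 0)]) (PF.cons (PF.leaf (nat_lit 6808047) (nat_lit 619603) (nat_lit 40551812) (nat_lit 14125842) [(nat_lit 619603), (nat_lit 0), (nat_lit 3937184), (nat_lit 0)]) (PF.cons (PF.leaf (nat_lit 7162670) (nat_lit 630656) (nat_lit 40005392) (nat_lit 14025770) [(nat_lit 630656), (nat_lit 0), (nat_lit 3938778), (nat_lit 0)]) (PF.cons (PF.leaf (nat_lit 7525740) (nat_lit 640198) (nat_lit 39451934) (nat_lit 13921575) [(nat_lit 640198), (nat_lit 0), (nat_lit 3938236), (nat_lit 0)]) (PF.cons (PF.leaf (nat_lit 7895320) (nat_lit 648437) (nat_lit 38894480) (nat_lit 13813780) [(nat_lit 648437), (nat_lit 0), (nat_lit 3935600), (nat_lit 0)]) (PF.cons PF.nil (PF.cons PF.nil PF.nil))))))) (PF.cons (PF.cons (PF.leaf (nat_lit 7231761) (nat_lit 1841141) (nat_lit 39540123) (nat_lit 13933994) [(nat_lit 0), (nat_lit 1841141), (nat_lit 3931184), (nat_lit 0)]) (PF.cons (PF.leaf (nat_lit 7586281)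 (nat_lit 638469) (nat_lit 39001884) (nat_lit 13830492) [(nat_lit 638469), (nat_lit 1849795), (nat_lit 3929390), (nat_lit 0)]) (PF.cons (PF.leaf (nat_lit 7948399) (nat_lit 646676) (nat_lit 38458388) (nat_lit
 13723304) [(nat_lit 646676), (nat_lit 1856872), (nat_lit 3925631), (nat_lit 0)]) (PF.cons (PF.leaf (nat_lit 8316116) (nat_lit 653709) (nat_lit 37912388) (nat_lit 13612949) [(nat_lit 653709), (nat_lit 1862445), (nat_lit 3919966), (nat_lit 0)]) (PF.cons PF.nil PF.nil))))) (PF.cons (PF.cons (PF.leaf (nat_lit 8003122) (nat_lit 1854043) (nat_lit 38024238) (nat_lit 13631696) [(nat_lit 0), (nat_lit 1854043), (nat_lit 3914929), (nat_lit 0)]) (PF.cons (PF.leaf (nat_lit 8363345) (nat_lit 651585) (nat_lit 37492027) (nat_lit 13522202) [(nat_lit 651585), (nat_lit 1858980), (nat_lit 3908345), (nat_lit 0)]) (PF.cons PF.nil (PF.cons PF.nil PF.nil)))) (PF.cons (PF.cons (PF.leaf (nat_lit 8770392) (nat_lit 1858203) (nat_lit 36553772) (nat_lit 13319321) [(nat_lit 0), (nat_lit 1858203),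 (nat_lit 3887035), (nat_lit 0)]) (PF.cons PF.nil PF.nil)) (PF.cons PF.nil PF.nil))))) (PF.cons (PF.cons (PF.cons (PF.leaf (nat_lit 7712200) (nat_lit 3894342) (nat_lit 37932812) (nat_lit 13598631) [(nat_lit 0), (nat_lit 0), (nat_lit 3894342), (nat_lit 0)]) (PF.cons (PF.leaf (nat_lit 8060726) (nat_lit 638955) (nat_lit 37420788) (nat_lit 13493411) [(nat_lit 638955), (nat_lit 0), (nat_lit 3888914), (nat_lit 0)]) (PF.cons
 (PF.leaf (nat_lit 8416102) (nat_lit 646112) (nat_lit 36904587) (nat_lit 13384987) [(nat_lit 646112), (nat_lit 0), (nat_lit 3881753), (nat_lit 0)]) (PF.cons PF.nil (PF.cons PF.nil PF.nil))))) (PF.cons (PF.cons (PF.leaf (nat_lit 8463935) (nat_lit 1842412) (nat_lit 36496228) (nat_lit 13293791) [(nat_lit 0), (nat_lit 1842412), (nat_lit 3869095), (nat_lit 0)]) (PF.cons (PF.leaf (nat_lit 8816955) (nat_lit 649590) (nat_lit 35991663) (nat_lit 13183862) [(nat_lit 649590), (nat_lit 1845306), (nat_lit 3859597), (nat_lit 0)]) (PF.cons PF.nil (PF.cons PF.nil PF.nil))))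 (PF.cons (PF.cons (PF.leaf (nat_lit 9209960) (nat_lit 1841697) (nat_lit 35106345) (nat_lit 12982196) [(nat_lit 0), (nat_lit 1841697), (nat_lit 3834219), (nat_lit 0)]) (PF.cons PF.nil PF.nil)) PF.nil))) (PF.cons (PF.cons (PF.cons (PF.leaf (nat_lit 8903531) (nat_lit 3817832) (nat_lit 35059911) (nat_lit 12959737) [(nat_lit 0), (nat_lit 0), (nat_lit 3817832), (nat_lit 0)]) (PF.cons (PF.leaf (nat_lit 9249251) (nat_lit 646187) (nat_lit 34582082) (nat_lit 12850322) [(nat_lit 646187), (nat_lit 0), (nat_lit 3806044), (nat_lit 0)]) PF.nil)) (PF.cons PF.nil PF.nil)) (PF.cons PF.nil (PF.cons PF.nil PF.nil)))))))) (PF.cons (PF.cons (PF.cons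
 (PF.cons (PF.leaf (nat_lit 4689749) (nat_lit 8618647) (nat_lit 43884653) (nat_lit 14605512) [(nat_lit 0), (nat_lit 0), (nat_lit 0), (nat_lit 8618647)]) (PF.cons (PF.leaf (nat_lit 4974353) (nat_lit 528538) (nat_lit 43432506) (nat_lit 14540622) [(nat_lit 528538), (nat_lit 0), (nat_lit 0), (nat_lit 8607145)]) (PF.cons (PF.leaf (nat_lit 5282943) (nat_lit 550615) (nat_lit 42946980) (nat_lit 14468457) [(nat_lit 550615), (nat_lit 0), (nat_lit 0), (nat_lit 8592143)]) (PF.cons (PF.leaf (nat_lit 5610178) (nat_lit 569598) (nat_lit 42436593) (nat_lit 14389882) [(nat_lit 569598), (nat_lit 0), (nat_lit 0), (nat_lit 8573541)]) (PF.cons (PF.leaf (nat_lit 5952413) (nat_lit 586089) (nat_lit 41907576) (nat_lit 14305559) [(nat_lit 586089), (nat_lit 0), (nat_lit 0), (nat_lit 8551318)]) (PF.cons (PF.leaf (nat_lit 6306804) (nat_lit 600503) (nat_lit 41364740) (nat_lit 14216042) [(nat_lit 600503), (nat_lit 0), (nat_lit 0), (nat_lit 8525513)]) (PF.cons (PF.leaf (nat_lit 6671032) (nat_lit 613141)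 (nat_lit 40811928) (nat_lit 14121818) [(nat_lit 613141), (nat_lit 0), (nat_lit 0), (nat_lit 8496215)]) (PF.cons (PF.leaf (nat_lit 7043195) (nat_lit 624234) (nat_lit 40252285) (nat_lit 14023335) [(nat_lit 624234),
 (nat_lit 0), (nat_lit 0), (nat_lit 8463550)]) (PF.cons (PF.leaf (nat_lit 7421641) (nat_lit 633963) (nat_lit 39688423) (nat_lit 13921009) [(nat_lit 633963), (nat_lit 0), (nat_lit 0), (nat_lit 8427672)]) (PF.cons PF.nil PF.nil)))))))))) (PF.cons (PF.cons (PF.leaf (nat_lit 5390014) (nat_lit 1726154) (nat_lit 42432017) (nat_lit 14384222) [(nat_lit 0), (nat_lit 1726154), (nat_lit 0), (nat_lit 8566419)]) (PF.cons (PF.leaf (nat_lit 5705717) (nat_lit 570032) (nat_lit 41938845) (nat_lit 14305743) [(nat_lit 570032), (nat_lit 1748226), (nat_lit 0), (nat_lit 8545964)]) (PF.cons (PF.leaf (nat_lit 6038388) (nat_lit 586405) (nat_lit 41424750) (nat_lit 14221275) [(nat_lit 586405), (nat_lit 1768015), (nat_lit 0), (nat_lit 8521960)]) (PF.cons (PF.leaf (nat_lit 6384350) (nat_lit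 600634) (nat_lit 40895398) (nat_lit 14131509) [(nat_lit 600634), (nat_lit 1785525), (nat_lit 0), (nat_lit 8494477)]) (PF.cons (PF.leaf (nat_lit 6740958) (nat_lit 613056) (nat_lit 40355116) (nat_lit 14037015) [(nat_lit 613056), (nat_lit 1800831), (nat_lit 0), (nat_lit 8463622)]) (PF.cons (PF.leaf (nat_lit 7106100) (nat_lit 623922) (nat_lit 39807340) (nat_lit 13938292) [(nat_lit 623922), (nat_lit 1814040), (nat_lit 0),
 (nat_lit 8429530)]) (PF.cons (PF.leaf (nat_lit 7477991) (nat_lit 633423) (nat_lit 39254858) (nat_lit 13835786) [(nat_lit 633423), (nat_lit 1825267), (nat_lit 0), (nat_lit 8392357)]) (PF.cons (PF.leaf (nat_lit 7855133) (nat_lit 641715) (nat_lit 38699979) (nat_lit 13729911) [(nat_lit 641715), (nat_lit 1834637), (nat_lit 0), (nat_lit 8352278)]) (PF.cons PF.nil PF.nil))))))))) (PF.cons (PF.cons (PF.leaf (nat_lit 6127421) (nat_lit 1772122) (nat_lit 40939612) (nat_lit 14134425) [(nat_lit 0), (nat_lit 1772122), (nat_lit 0), (nat_lit 8490530)]) (PF.cons (PF.leaf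 (nat_lit 6463658) (nat_lit 600182) (nat_lit 40425700) (nat_lit 14044912) [(nat_lit 600182), (nat_lit 1788182), (nat_lit 0), (nat_lit 8461652)]) (PF.cons (PF.leaf (nat_lit 6811936) (nat_lit 612496) (nat_lit 39899314) (nat_lit 13950544) [(nat_lit 612496), (nat_lit 1802241), (nat_lit 0), (nat_lit 8429479)]) (PF.cons (PF.leaf (nat_lit 7169563) (nat_lit 623213) (nat_lit 39364383) (nat_lit 13851901) [(nat_lit 623213), (nat_lit 1814359), (nat_lit 0), (nat_lit 8394166)]) (PF.cons (PF.leaf (nat_lit 7534557) (nat_lit 632549) (nat_lit 38823996) (nat_lit 13749483) [(nat_lit 632549), (nat_lit 1824627), (nat_lit 0), (nat_lit 8355882)]) (PF.cons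
 (PF.leaf (nat_lit 7905278) (nat_lit 640667) (nat_lit 38280645) (nat_lit 13643734) [(nat_lit 640667), (nat_lit 1833145), (nat_lit 0), (nat_lit 8314802)]) (PF.cons PF.nil PF.nil))))))) (PF.cons (PF.cons (PF.leaf (nat_lit 6885023) (nat_lit 1803046) (nat_lit 39443630) (nat_lit 13862274) [(nat_lit 0), (nat_lit 1803046), (nat_lit 0), (nat_lit 8393768)]) (PF.cons (PF.leaf (nat_lit 7234213) (nat_lit 622083) (nat_lit 38922781) (nat_lit 13764086) [(nat_lit 622083), (nat_lit 1814133), (nat_lit 0), (nat_lit 8357460)]) (PF.cons (PF.leaf (nat_lit 7591829) (nat_lit 631323) (nat_lit 38395364) (nat_lit 13662057) [(nat_lit 631323), (nat_lit 1823496), (nat_lit 0), (nat_lit 8318256)]) (PF.cons (PF.leaf (nat_lit 7955792) (nat_lit 639323) (nat_lit 37864174) (nat_lit 13556683) [(nat_lit 639323), (nat_lit 1831213), (nat_lit 0), (nat_lit 8276343)]) (PF.cons (PF.leaf (nat_lit 8324592) (nat_lit 646231) (nat_lit 37331448) (nat_lit 13448400) [(nat_lit 646231), (nat_lit 1837374), (nat_lit 0), (nat_lit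 8231914)]) PF.nil))))) (PF.cons (PF.cons (PF.leaf (nat_lit 7650617) (nat_lit 1821897) (nat_lit 37968331) (nat_lit 13573423) [(nat_lit 0), (nat_lit 1821897), (nat_lit 0), (nat_lit 8279470)]) (PF.cons (PF.leaf
 (nat_lit 8007139) (nat_lit 637665) (nat_lit 37450092) (nat_lit 13468705) [(nat_lit 637665), (nat_lit 1828861), (nat_lit 0), (nat_lit 8236904)]) (PF.cons (PF.leaf (nat_lit 8369340) (nat_lit 644494) (nat_lit 36929470) (nat_lit 13361045) [(nat_lit 644494), (nat_lit 1834354), (nat_lit 0), (nat_lit 8191888)]) (PF.cons PF.nil PF.nil)))) (PF.cons (PF.cons (PF.leaf (nat_lit 8415237) (nat_lit 1830974) (nat_lit 36529974) (nat_lit 13272934) [(nat_lit 0), (nat_lit 1830974), (nat_lit 0), (nat_lit 8151028)]) (PF.cons (PF.leaf (nat_lit 8774861) (nat_lit 648269) (nat_lit 36020936) (nat_lit 13163589) [(nat_lit 648269), (nat_lit 1834525), (nat_lit 0), (nat_lit 8103390)]) PF.nil)) (PF.cons PF.nil (PF.cons PF.nil PF.nil)))))))) (PF.cons (PF.cons (PF.cons (PF.leaf (nat_lit 5898118) (nat_lit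 3841581) (nat_lit 40731151) (nat_lit 14080422) [(nat_lit 0), (nat_lit 0), (nat_lit 3841581), (nat_lit 8455658)]) (PF.cons (PF.leaf (nat_lit 6213306) (nat_lit 579845) (nat_lit 40253223) (nat_lit 13996844) [(nat_lit 579845), (nat_lit 0), (nat_lit 3849946), (nat_lit 8428953)]) (PF.cons (PF.leaf (nat_lit 6544129) (nat_lit 594550) (nat_lit 39756916) (nat_lit 13907675) [(nat_lit 594550), (nat_lit 0), (nat_lit 3856235),
 (nat_lit 8398883)]) (PF.cons (PF.leaf (nat_lit 6886985) (nat_lit 607191) (nat_lit 39247586) (nat_lit 13813684) [(nat_lit 607191), (nat_lit 0), (nat_lit 3860347), (nat_lit 8365620)]) (PF.cons (PF.leaf (nat_lit 7239348) (nat_lit 618114) (nat_lit 38729267) (nat_lit 13715489) [(nat_lit 618114), (nat_lit 0), (nat_lit 3862263), (nat_lit 8329335)]) (PF.cons (PF.leaf (nat_lit 7599198) (nat_lit 627572) (nat_lit 38205111) (nat_lit 13613612) [(nat_lit 627572), (nat_lit 0), (nat_lit 3862019), (nat_lit 8290204)]) (PF.cons (PF.leaf (nat_lit 7964881) (nat_lit 635759) (nat_lit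 37677652) (nat_lit 13508507) [(nat_lit 635759), (nat_lit 0), (nat_lit 3859683), (nat_lit 8248409)]) (PF.cons PF.nil (PF.cons PF.nil PF.nil))))))))) (PF.cons (PF.cons (PF.leaf (nat_lit 6625325) (nat_lit 1779752) (nat_lit 39295966) (nat_lit 13818350) [(nat_lit 0), (nat_lit 1779752), (nat_lit 3851694), (nat_lit 8363049)]) (PF.cons (PF.leaf (nat_lit 6958491) (nat_lit 605815) (nat_lit 38802208) (nat_lit 13725175) [(nat_lit 605815), (nat_lit 1792396), (nat_lit 3854282), (nat_lit 8328934)]) (PF.cons (PF.leaf (nat_lit 7302612) (nat_lit 616734) (nat_lit 38297828) (nat_lit 13627620) [(nat_lit 616734), (nat_lit 1803225), (nat_lit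
 3854842), (nat_lit 8291827)]) (PF.cons (PF.leaf (nat_lit 7655078) (nat_lit 626134) (nat_lit 37786479) (nat_lit 13526293) [(nat_lit 626134), (nat_lit 1812315), (nat_lit 3853388), (nat_lit 8251931)]) (PF.cons (PF.leaf (nat_lit 8014024) (nat_lit 634234) (nat_lit 37270998) (nat_lit 13421708) [(nat_lit 634234), (nat_lit 1819756), (nat_lit 3849971), (nat_lit 8209441)]) (PF.cons (PF.leaf (nat_lit 8377915) (nat_lit 641198) (nat_lit 36753645) (nat_lit 13314307) [(nat_lit 641198), (nat_lit 1825649), (nat_lit 3844666), (nat_lit 8164552)]) (PF.cons PF.nil PF.nil))))))) (PF.cons (PF.cons (PF.leaf (nat_lit 7368215) (nat_lit 1802073) (nat_lit 37866794) (nat_lit 13538273) [(nat_lit 0), (nat_lit 1802073), (nat_lit 3846573), (nat_lit 8253025)]) (PF.cons (PF.leaf (nat_lit 7712385) (nat_lit 624316) (nat_lit 37369362) (nat_lit 13437845) [(nat_lit 624316), (nat_lit 1810354), (nat_lit 3844007), (nat_lit 8212571)]) (PF.cons (PF.leaf (nat_lit 8064112) (nat_lit 632395) (nat_lit 36866636) (nat_lit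 13334053) [(nat_lit 632395), (nat_lit 1817086), (nat_lit 3839598), (nat_lit 8169561)]) (PF.cons (PF.leaf (nat_lit 8421429) (nat_lit 639307) (nat_lit 36361179) (nat_lit 13227395) [(nat_lit 639307), (nat_lit
 1822352), (nat_lit 3833407), (nat_lit 8124203)]) (PF.cons PF.nil PF.nil))))) (PF.cons (PF.cons (PF.leaf (nat_lit 8115929) (nat_lit 1814034) (nat_lit 36463942) (nat_lit 13245444) [(nat_lit 0), (nat_lit 1814034), (nat_lit 3828578), (nat_lit 8128743)]) (PF.cons (PF.leaf (nat_lit 8465993) (nat_lit 637134) (nat_lit 35971088) (nat_lit 13139786) [(nat_lit 637134), (nat_lit 1818714), (nat_lit 3821581), (nat_lit 8083078)]) (PF.cons (PF.leaf (nat_lit 8821089) (nat_lit 643003) (nat_lit 35476660) (nat_lit 13031624) [(nat_lit 643003), (nat_lit 1822082), (nat_lit 3812970), (nat_lit 8035301)]) (PF.cons PF.nil PF.nil)))) (PF.cons (PF.cons (PF.leaf (nat_lit 8860602) (nat_lit 1817631) (nat_lit 35100706) (nat_lit 12944389) [(nat_lit 0), (nat_lit 1817631), (nat_lit 3799941), (nat_lit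 7993249)]) (PF.cons PF.nil PF.nil)) (PF.cons PF.nil PF.nil)))))) (PF.cons (PF.cons (PF.cons (PF.leaf (nat_lit 7103564) (nat_lit 3823529) (nat_lit 37739475) (nat_lit 13497951) [(nat_lit 0), (nat_lit 0), (nat_lit 3823529), (nat_lit 8224326)]) (PF.cons (PF.leaf (nat_lit 7432854) (nat_lit 608918) (nat_lit 37266831) (nat_lit 13402516) [(nat_lit 608918), (nat_lit 0), (nat_lit 3822166), (nat_lit 8186212)]) (PF.cons (PF.leaf
 (nat_lit 7772163) (nat_lit 618628) (nat_lit 36785075) (nat_lit 13303134) [(nat_lit 618628), (nat_lit 0), (nat_lit 3818980), (nat_lit 8145385)]) (PF.cons (PF.leaf (nat_lit 8118979) (nat_lit 626894) (nat_lit 36297599) (nat_lit 13200428) [(nat_lit 626894), (nat_lit 0), (nat_lit 3814008), (nat_lit 8102083)]) (PF.cons (PF.leaf (nat_lit 8471525) (nat_lit 633934) (nat_lit 35807012) (nat_lit 13094913) [(nat_lit 633934), (nat_lit 0), (nat_lit 3807316), (nat_lit 8056519)]) (PF.cons PF.nil (PF.cons PF.nil PF.nil))))))) (PF.cons (PF.cons (PF.leaf (nat_lit 7830889) (nat_lit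 1795677) (nat_lit 36378155) (nat_lit 13213747) [(nat_lit 0), (nat_lit 1795677), (nat_lit 3808377), (nat_lit 8104478)]) (PF.cons (PF.leaf (nat_lit 8169579) (nat_lit 624534) (nat_lit 35904247) (nat_lit 13112282) [(nat_lit 624534), (nat_lit 1801627), (nat_lit 3802576), (nat_lit 8060967)]) (PF.cons (PF.leaf (nat_lit 8515093) (nat_lit 631612) (nat_lit 35426045) (nat_lit 13007869) [(nat_lit 631612), (nat_lit 1806180), (nat_lit 3795145), (nat_lit 8015200)]) (PF.cons (PF.leaf (nat_lit 8865553) (nat_lit 637591) (nat_lit 34945906) (nat_lit 12901002) [(nat_lit 637591), (nat_lit 1809421), (nat_lit 3786155), (nat_lit 7967396)]) (PF.cons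
 PF.nil PF.nil))))) (PF.cons (PF.cons (PF.leaf (nat_lit 8560570) (nat_lit 1801994) (nat_lit 35046733) (nat_lit 12920072) [(nat_lit 0), (nat_lit 1801994), (nat_lit 3782447), (nat_lit 7973120)]) (PF.cons (PF.leaf (nat_lit 8903991) (nat_lit 635016) (nat_lit 34578738) (nat_lit 12814463) [(nat_lit 635016), (nat_lit 1804784), (nat_lit 3772869), (nat_lit 7925285)]) (PF.cons PF.nil (PF.cons PF.nil PF.nil)))) (PF.cons (PF.cons (PF.leaf (nat_lit 9285649) (nat_lit 1801123) (nat_lit 33756156) (nat_lit 12620942) [(nat_lit 0), (nat_lit 1801123), (nat_lit 3747683), (nat_lit 7832975)]) (PF.cons PF.nil PF.nil)) (PF.cons PF.nil PF.nil))))) (PF.cons (PF.cons (PF.cons (PF.leaf (nat_lit 8274039) (nat_lit 3763880) (nat_lit 34974534) (nat_lit 12891655) [(nat_lit 0), (nat_lit 0), (nat_lit 3763880), (nat_lit 7950981)]) (PF.cons (PF.leaf (nat_lit 8606931) (nat_lit 623122) (nat_lit 34523804) (nat_lit 12790104) [(nat_lit 623122), (nat_lit 0), (nat_lit 3755494), (nat_lit 7905297)]) (PF.cons (PF.leaf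 (nat_lit 8946041) (nat_lit 629337) (nat_lit 34069568) (nat_lit 12685966) [(nat_lit 629337), (nat_lit 0), (nat_lit 3745661), (nat_lit 7857619)]) (PF.cons PF.nil PF.nil)))) (PF.cons (PF.cons (PF.leaf (nat_lit
 8985766) (nat_lit 1786689) (nat_lit 33712501) (nat_lit 12599567) [(nat_lit 0), (nat_lit 1786689), (nat_lit 3731724), (nat_lit 7814880)]) (PF.cons (PF.leaf (nat_lit 9322459) (nat_lit 631626) (nat_lit 33268547) (nat_lit 12494773) [(nat_lit 631626), (nat_lit 1787915), (nat_lit 3720111), (nat_lit 7765617)]) PF.nil)) (PF.cons PF.nil PF.nil))) (PF.cons (PF.cons (PF.cons (PF.leaf (nat_lit 9392741) (nat_lit 3677691) (nat_lit 32456676) (nat_lit 12285582) [(nat_lit 0), (nat_lit 0), (nat_lit 3677691), (nat_lit 7655787)]) (PF.cons PF.nil PF.nil)) (PF.cons PF.nil PF.nil)) (PF.cons PF.nil PF.nil)))))) (PF.cons (PF.cons (PF.cons (PF.cons (PF.leaf (nat_lit 6541954) (nat_lit 8128493) (nat_lit 37470947) (nat_lit 13380877) [(nat_lit 0), (nat_lit 0), (nat_lit 0), (nat_lit 8128493)])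 (PF.cons (PF.leaf (nat_lit 6846086) (nat_lit 572339) (nat_lit 37046371) (nat_lit 13296562) [(nat_lit 572339), (nat_lit 0), (nat_lit 0), (nat_lit 8096769)]) (PF.cons (PF.leaf (nat_lit 7164558) (nat_lit 585612) (nat_lit 36606161) (nat_lit 13207315) [(nat_lit 585612), (nat_lit 0), (nat_lit 0), (nat_lit 8062055)]) (PF.cons (PF.leaf (nat_lit 7493893) (nat_lit 596873) (nat_lit 36155026) (nat_lit 13113948) [(nat_lit 596873),
 (nat_lit 0), (nat_lit 0), (nat_lit 8024608)]) (PF.cons (PF.leaf (nat_lit 7831724) (nat_lit 606483) (nat_lit 35696479) (nat_lit 13017095) [(nat_lit 606483), (nat_lit 0), (nat_lit 0), (nat_lit 7984651)]) (PF.cons (PF.leaf (nat_lit 8176157) (nat_lit 614702) (nat_lit 35233241) (nat_lit 12917275) [(nat_lit 614702), (nat_lit 0), (nat_lit 0), (nat_lit 7942391)]) (PF.cons (PF.leaf (nat_lit 8525667) (nat_lit 621728) (nat_lit 34767475) (nat_lit 12814926) [(nat_lit 621728), (nat_lit 0), (nat_lit 0), (nat_lit 7898020)]) (PF.cons PF.nil (PF.cons PF.nil PF.nil)))))))))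 (PF.cons (PF.cons (PF.leaf (nat_lit 7235585) (nat_lit 1741332) (nat_lit 36201029) (nat_lit 13119727) [(nat_lit 0), (nat_lit 1741332), (nat_lit 0), (nat_lit 8023361)]) (PF.cons (PF.leaf (nat_lit 7555562) (nat_lit 594754) (nat_lit 35763962) (nat_lit 13027722) [(nat_lit 594754), (nat_lit 1751039), (nat_lit 0), (nat_lit 7985666)]) (PF.cons (PF.leaf (nat_lit 7885486) (nat_lit 604439) (nat_lit 35317956) (nat_lit 12932008) [(nat_lit 604439), (nat_lit 1759087), (nat_lit 0), (nat_lit 7945440)]) (PF.cons (PF.leaf (nat_lit 8222899) (nat_lit 612674) (nat_lit 34866183) (nat_lit 12833196) [(nat_lit 612674), (nat_lit 1765570), (nat_lit 0),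
 (nat_lit 7902919)]) (PF.cons (PF.leaf (nat_lit 8566058) (nat_lit 619681) (nat_lit 34411084) (nat_lit 12731780) [(nat_lit 619681), (nat_lit 1770592), (nat_lit 0), (nat_lit 7858315)]) (PF.cons PF.nil (PF.cons PF.nil PF.nil))))))) (PF.cons (PF.cons (PF.leaf (nat_lit 7941823) (nat_lit 1756297) (nat_lit 34939809) (nat_lit 12845847) [(nat_lit 0), (nat_lit 1756297), (nat_lit 0), (nat_lit 7905280)]) (PF.cons (PF.leaf (nat_lit 8271318) (nat_lit 610314) (nat_lit 34500440) (nat_lit 12748341) [(nat_lit 610314), (nat_lit 1762182), (nat_lit 0), (nat_lit 7862676)]) (PF.cons (PF.leaf (nat_lit 8607652) (nat_lit 617363) (nat_lit 34056661) (nat_lit 12648088) [(nat_lit 617363), (nat_lit 1766685), (nat_lit 0), (nat_lit 7817982)]) (PF.cons (PF.leaf (nat_lit 8948970) (nat_lit 623317) (nat_lit 33610679) (nat_lit 12545562) [(nat_lit 623317), (nat_lit 1769896), (nat_lit 0), (nat_lit 7771412)]) (PF.cons PF.nil PF.nil))))) (PF.cons (PF.cons (PF.leaf (nat_lit 8651207) (nat_lit 1762490) (nat_lit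 33703635) (nat_lit 12563742) [(nat_lit 0), (nat_lit 1762490), (nat_lit 0), (nat_lit 7776981)]) (PF.cons (PF.leaf (nat_lit 8985681) (nat_lit 620763) (nat_lit 33268761) (nat_lit 12462508) [(nat_lit 620763), (nat_lit
 1765279), (nat_lit 0), (nat_lit 7730470)]) (PF.cons PF.nil (PF.cons PF.nil PF.nil)))) (PF.cons (PF.cons (PF.leaf (nat_lit 9356998) (nat_lit 1761710) (nat_lit 32502983) (nat_lit 12277094) [(nat_lit 0), (nat_lit 1761710), (nat_lit 0), (nat_lit 7640945)]) (PF.cons PF.nil PF.nil)) (PF.cons PF.nil PF.nil)))))) (PF.cons (PF.cons (PF.cons (PF.leaf (nat_lit 7679230) (nat_lit 3703113) (nat_lit 34836349) (nat_lit 12810399) [(nat_lit 0), (nat_lit 0), (nat_lit 3703113), (nat_lit 7879475)]) (PF.cons (PF.leaf (nat_lit 7995153) (nat_lit 595714) (nat_lit 34418347) (nat_lit 12717699) [(nat_lit 595714), (nat_lit 0), (nat_lit 3698481), (nat_lit 7839285)]) (PF.cons (PF.leaf (nat_lit 8320260) (nat_lit 604373) (nat_lit 33992571) (nat_lit 12621644) [(nat_lit 604373), (nat_lit 0),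 (nat_lit 3692267), (nat_lit 7796791)]) (PF.cons (PF.leaf (nat_lit 8652161) (nat_lit 611655) (nat_lit 33561970) (nat_lit 12522840) [(nat_lit 611655), (nat_lit 0), (nat_lit 3684534), (nat_lit 7752249)]) (PF.cons (PF.leaf (nat_lit 8989198) (nat_lit 617781) (nat_lit 33128793) (nat_lit 12421776) [(nat_lit 617781), (nat_lit 0), (nat_lit 3675360), (nat_lit 7705878)]) PF.nil))))) (PF.cons (PF.cons (PF.leaf (nat_lit 8370715) (nat_lit
 1745560) (nat_lit 33635478) (nat_lit 12536497) [(nat_lit 0), (nat_lit 1745560), (nat_lit 3680001), (nat_lit 7755637)]) (PF.cons (PF.leaf (nat_lit 8694889) (nat_lit 608901) (nat_lit 33216867) (nat_lit 12439210) [(nat_lit 608901), (nat_lit 1749606), (nat_lit 3671729), (nat_lit 7711248)]) (PF.cons (PF.leaf (nat_lit 9025299) (nat_lit 615117) (nat_lit 32794596) (nat_lit 12339497) [(nat_lit 615117), (nat_lit 1752402), (nat_lit 3662076), (nat_lit 7665003)]) (PF.cons PF.nil PF.nil)))) (PF.cons (PF.cons (PF.leaf (nat_lit 9063501) (nat_lit 1747409) (nat_lit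 32461738) (nat_lit 12256694) [(nat_lit 0), (nat_lit 1747409), (nat_lit 3648403), (nat_lit 7623579)]) (PF.cons (PF.leaf (nat_lit 9391737) (nat_lit 617459) (nat_lit 32048482) (nat_lit 12156462) [(nat_lit 617459), (nat_lit 1748726), (nat_lit 3637085), (nat_lit 7575935)]) PF.nil)) (PF.cons PF.nil (PF.cons PF.nil PF.nil))))) (PF.cons (PF.cons (PF.cons (PF.leaf (nat_lit 8782551) (nat_lit 3631723) (nat_lit 32404526) (nat_lit 12232410) [(nat_lit 0), (nat_lit 0), (nat_lit 3631723), (nat_lit 7604214)]) (PF.cons (PF.leaf (nat_lit 9101206) (nat_lit 606272) (nat_lit 32006121) (nat_lit 12135956) [(nat_lit 606272), (nat_lit 0), (nat_lit 3621583),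
 (nat_lit 7558647)]) (PF.cons (PF.leaf (nat_lit 9425599) (nat_lit 611764) (nat_lit 31604655) (nat_lit 12037354) [(nat_lit 611764), (nat_lit 0), (nat_lit 3610210), (nat_lit 7511426)]) (PF.cons PF.nil PF.nil)))) (PF.cons (PF.cons (PF.leaf (nat_lit 9458935) (nat_lit 1730044) (nat_lit 31290864) (nat_lit 11956431) [(nat_lit 0), (nat_lit 1730044), (nat_lit 3595767), (nat_lit 7469968)]) (PF.cons PF.nil PF.nil)) (PF.cons PF.nil PF.nil))) (PF.cons (PF.cons (PF.cons (PF.leaf (nat_lit 9838559) (nat_lit 3541188) (nat_lit 30186827) (nat_lit 11663868) [(nat_lit 0), (nat_lit 0), (nat_lit 3541188), (nat_lit 7317276)]) (PF.cons PF.nil PF.nil)) (PF.cons PF.nil PF.nil)) (PF.cons PF.nil PF.nil))))) (PF.cons (PF.cons (PF.cons (PF.cons (PF.leaf (nat_lit 8203272) (nat_lit 7544848) (nat_lit 32307191) (nat_lit 12167075) [(nat_lit 0), (nat_lit 0), (nat_lit 0), (nat_lit 7544848)]) (PF.cons (PF.leaf (nat_lit 8506764) (nat_lit 581202) (nat_lit 31936236) (nat_lit 12078549) [(nat_lit 581202), (nat_lit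 0), (nat_lit 0), (nat_lit 7504275)]) (PF.cons (PF.leaf (nat_lit 8818778) (nat_lit 589020) (nat_lit 31558517) (nat_lit 11987119) [(nat_lit 589020), (nat_lit 0), (nat_lit 0), (nat_lit 7461711)]) (PF.cons (PF.leaf
 (nat_lit 9137021) (nat_lit 595527) (nat_lit 31176613) (nat_lit 11893365) [(nat_lit 595527), (nat_lit 0), (nat_lit 0), (nat_lit 7417417)]) (PF.cons PF.nil PF.nil))))) (PF.cons (PF.cons (PF.leaf (nat_lit 8862549) (nat_lit 1693709) (nat_lit 31243747) (nat_lit 11907009) [(nat_lit 0), (nat_lit 1693709), (nat_lit 0), (nat_lit 7421448)]) (PF.cons (PF.leaf (nat_lit 9173438) (nat_lit 592537) (nat_lit 30872410) (nat_lit 11814887) [(nat_lit 592537), (nat_lit 1696395), (nat_lit 0), (nat_lit 7377527)]) (PF.cons (PF.leaf (nat_lit 9490098) (nat_lit 598076) (nat_lit 30497857) (nat_lit 11720721) [(nat_lit 598076), (nat_lit 1697953), (nat_lit 0), (nat_lit 7332042)]) (PF.cons PF.nil PF.nil)))) (PF.cons (PF.cons (PF.leaf (nat_lit 9522495) (nat_lit 1692508) (nat_lit 30204282) (nat_lit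 11643315) [(nat_lit 0), (nat_lit 1692508), (nat_lit 0), (nat_lit 7292065)]) (PF.cons PF.nil PF.nil)) PF.nil))) (PF.cons (PF.cons (PF.cons (PF.leaf (nat_lit 9247769) (nat_lit 3501866) (nat_lit 30158814) (nat_lit 11622615) [(nat_lit 0), (nat_lit 0), (nat_lit 3501866), (nat_lit 7275171)]) (PF.cons (PF.leaf (nat_lit 9553440) (nat_lit 589138) (nat_lit 29804992) (nat_lit 11531823) [(nat_lit 589138), (nat_lit 0), (nat_lit
 3490745), (nat_lit 7230704)]) (PF.cons PF.nil PF.nil))) (PF.cons (PF.cons (PF.leaf (nat_lit 9892714) (nat_lit 1674109) (nat_lit 29171175) (nat_lit 11363875) [(nat_lit 0), (nat_lit 1674109), (nat_lit 3464078), (nat_lit 7145191)]) PF.nil) PF.nil)) (PF.cons PF.nil PF.nil))) (PF.cons (PF.cons (PF.cons (PF.cons (PF.leaf (nat_lit 9677291) (nat_lit 6965844) (nat_lit 28184677) (nat_lit 11060757) [(nat_lit 0), (nat_lit 0), (nat_lit 0), (nat_lit 6965844)]) (PF.cons (PF.leaf (nat_lit 9971093) (nat_lit 572160) (nat_lit 27868895) (nat_lit 10975714) [(nat_lit 572160), (nat_lit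 0), (nat_lit 0), (nat_lit 6923010)]) PF.nil)) (PF.cons PF.nil PF.nil)) (PF.cons PF.nil PF.nil)) (PF.cons PF.nil (PF.cons PF.nil (PF.cons PF.nil PF.nil))))))))

def p15_30_2_0 : pfC (piC [(nat_lit 35404596), (nat_lit 23859669), (nat_lit 17778567), (nat_lit 12006452)] (nat_lit 6891553)) p15_30_2 (nat_lit 4) (nat_lit 0) (nat_lit 1) = true := by decide +kernel
def p15_30_2_1 : pfC (piC [(nat_lit 35404596), (nat_lit 23859669), (nat_lit 17778567), (nat_lit 12006452)] (nat_lit 6891553)) p15_30_2 (nat_lit 4) (nat_lit 1) (nat_lit 2) = true := by decide +kernel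
def p15_30_2_2 : pfC (piC [(nat_lit 35404596), (nat_lit 23859669), (nat_lit 17778567), (nat_lit 12006452)] (nat_lit 6891553)) p15_30_2 (nat_lit 4) (nat_lit 2) (nat_lit 3) = true := by decide +kernel
def p15_30_2_3 : pfC (piC [(nat_lit 35404596), (nat_lit 23859669), (nat_lit 17778567), (nat_lit 12006452)] (nat_lit 6891553)) p15_30_2 (nat_lit 4) (nat_lit 3) (nat_lit 4) = true := by decide +kernel
def p15_30_2_4 : pfC (piC [(nat_lit 35404596), (nat_lit 23859669), (nat_lit 17778567), (nat_lit 12006452)] (nat_lit 6891553)) p15_30_2 (nat_lit 4) (nat_lit 4) (nat_lit 5) = true := by decide +kernel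
def p15_30_2_5 : pfC (piC [(nat_lit 35404596), (nat_lit 23859669), (nat_lit 17778567), (nat_lit 12006452)] (nat_lit 6891553)) p15_30_2 (nat_lit 4) (nat_lit 5) (nat_lit 6) = true := by decide +kernel
def p15_30_2_6 : pfC (piC [(nat_lit 35404596), (nat_lit 23859669), (nat_lit 17778567), (nat_lit 12006452)] (nat_lit 6891553)) p15_30_2 (nat_lit 4) (nat_lit 6) (nat_lit 7) = true := by decide +kernel
def p15_30_2_7 : pfC (piC [(nat_lit 35404596), (nat_lit 23859669), (nat_lit 17778567), (nat_lit 12006452)] (nat_lit 6891553)) p15_30_2 (nat_lit 4) (nat_lit 7) (nat_lit 8) = true := by decide +kernel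
def p15_30_2_8 : pfC (piC [(nat_lit 35404596), (nat_lit 23859669), (nat_lit 17778567), (nat_lit 12006452)] (nat_lit 6891553)) p15_30_2 (nat_lit 4) (nat_lit 8) (nat_lit 9) = true := by decide +kernel
def p15_30_2_9 : pfC (piC [(nat_lit 35404596), (nat_lit 23859669), (nat_lit 17778567), (nat_lit 12006452)] (nat_lit 6891553)) p15_30_2 (nat_lit 4) (nat_lit 9) (nat_lit 10) = true := by decide +kernel
def p15_30_2_10 : pfC (piC [(nat_lit 35404596), (nat_lit 23859669), (nat_lit 17778567), (nat_lit 12006452)] (nat_lit 6891553)) p15_30_2 (nat_lit 4) (nat_lit 10) (nat_lit 11) = true := by decide +kernel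
def p15_30_2_11 : pfC (piC [(nat_lit 35404596), (nat_lit 23859669), (nat_lit 17778567), (nat_lit 12006452)] (nat_lit 6891553)) p15_30_2 (nat_lit 4) (nat_lit 11) (nat_lit 12) = true := by decide +kernel
def p15_30_2_12 : pfC (piC [(nat_lit 35404596), (nat_lit 23859669), (nat_lit 17778567), (nat_lit 12006452)] (nat_lit 6891553)) p15_30_2 (nat_lit 4) (nat_lit 12) (nat_lit 13) = true := by decide +kernel
def p15_30_2_13 : pfC (piC [(nat_lit 35404596), (nat_lit 23859669), (nat_lit 17778567), (nat_lit 12006452)] (nat_lit 6891553)) p15_30_2 (nat_lit 4) (nat_lit 13) (nat_lit 14) = true := by decide +kernel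
def p15_30_2_14 : pfC (piC [(nat_lit 35404596), (nat_lit 23859669), (nat_lit 17778567), (nat_lit 12006452)] (nat_lit 6891553)) p15_30_2 (nat_lit 4) (nat_lit 14) (nat_lit 15) = true := by decide +kernel
def p15_30_2_15 : pfC (piC [(nat_lit 35404596), (nat_lit 23859669), (nat_lit 17778567), (nat_lit 12006452)] (nat_lit 6891553)) p15_30_2 (nat_lit 4) (nat_lit 15) (nat_lit 16) = true := by decide +kernel
def p15_30_2_16 : pfC (piC [(nat_lit 35404596), (nat_lit 23859669), (nat_lit 17778567), (nat_lit 12006452)] (nat_lit 6891553)) p15_30_2 (nat_lit 4) (nat_lit 16) (nat_lit 17) = true := by decide +kernel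
def p15_30_2_17 : pfC (piC [(nat_lit 35404596), (nat_lit 23859669), (nat_lit 17778567), (nat_lit 12006452)] (nat_lit 6891553)) p15_30_2 (nat_lit 4) (nat_lit 17) (nat_lit 18) = true := by decide +kernel
def p15_30_2_18 : pfC (piC [(nat_lit 35404596), (nat_lit 23859669), (nat_lit 17778567), (nat_lit 12006452)] (nat_lit 6891553)) p15_30_2 (nat_lit 4) (nat_lit 18) (nat_lit 19) = true := by decide +kernel
def p15_30_2_19 : pfC (piC [(nat_lit 35404596), (nat_lit 23859669), (nat_lit 17778567), (nat_lit 12006452)] (nat_lit 6891553)) p15_30_2 (nat_lit 4) (nat_lit 19) (nat_lit 20) = true := by decide +kernel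
def p15_30_2_20 : pfC (piC [(nat_lit 35404596), (nat_lit 23859669), (nat_lit 17778567), (nat_lit 12006452)] (nat_lit 6891553)) p15_30_2 (nat_lit 4) (nat_lit 20) (nat_lit 21) = true := by decide +kernel
def p15_30_2_21 : pfC (piC [(nat_lit 35404596), (nat_lit 23859669), (nat_lit 17778567), (nat_lit 12006452)] (nat_lit 6891553)) p15_30_2 (nat_lit 4) (nat_lit 21) (nat_lit 22) = true := by decide +kernel
def p15_30_2_22 : pfC (piC [(nat_lit 35404596), (nat_lit 23859669), (nat_lit 17778567), (nat_lit 12006452)] (nat_lit 6891553)) p15_30_2 (nat_lit 4) (nat_lit 22) (nat_lit 23) = true := by decide +kernel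
def p15_30_2_23 : pfC (piC [(nat_lit 35404596), (nat_lit 23859669), (nat_lit 17778567), (nat_lit 12006452)] (nat_lit 6891553)) p15_30_2 (nat_lit 4) (nat_lit 23) (nat_lit 24) = true := by decide +kernel
def p15_30_2_24 : pfC (piC [(nat_lit 35404596), (nat_lit 23859669), (nat_lit 17778567), (nat_lit 12006452)] (nat_lit 6891553)) p15_30_2 (nat_lit 4) (nat_lit 24) (nat_lit 25) = true := by decide +kernel
def p15_30_2_25 : pfC (piC [(nat_lit 35404596), (nat_lit 23859669), (nat_lit 17778567), (nat_lit 12006452)] (nat_lit 6891553)) p15_30_2 (nat_lit 4) (nat_lit 25) (nat_lit 26) = true := by decide +kernel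
def p15_30_2_26 : pfC (piC [(nat_lit 35404596), (nat_lit 23859669), (nat_lit 17778567), (nat_lit 12006452)] (nat_lit 6891553)) p15_30_2 (nat_lit 4) (nat_lit 26) (nat_lit 27) = true := by decide +kernel
def p15_30_2_27 : pfC (piC [(nat_lit 35404596), (nat_lit 23859669), (nat_lit 17778567), (nat_lit 12006452)] (nat_lit 6891553)) p15_30_2 (nat_lit 4) (nat_lit 27) (nat_lit 28) = true := by decide +kernel
def p15_30_2_28 : pfC (piC [(nat_lit 35404596), (nat_lit 23859669), (nat_lit 17778567), (nat_lit 12006452)] (nat_lit 6891553)) p15_30_2 (nat_lit 4) (nat_lit 28) (nat_lit 29) = true := by decide +kernel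
def p15_30_2_29 : pfC (piC [(nat_lit 35404596), (nat_lit 23859669), (nat_lit 17778567), (nat_lit 12006452)] (nat_lit 6891553)) p15_30_2 (nat_lit 4) (nat_lit 29) (nat_lit 30) = true := by decide +kernel
def p15_30_2_30 : pfC (piC [(nat_lit 35404596), (nat_lit 23859669), (nat_lit 17778567), (nat_lit 12006452)] (nat_lit 6891553)) p15_30_2 (nat_lit 4) (nat_lit 30) (nat_lit 31) = true := by decide +kernel
def p15_30_2_31 : pfC (piC [(nat_lit 35404596), (nat_lit 23859669), (nat_lit 17778567), (nat_lit 12006452)] (nat_lit 6891553)) p15_30_2 (nat_lit 4) (nat_lit 31) (nat_lit 32) = true := by decide +kernel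
def p15_30_2_32 : pfC (piC [(nat_lit 35404596), (nat_lit 23859669), (nat_lit 17778567), (nat_lit 12006452)] (nat_lit 6891553)) p15_30_2 (nat_lit 4) (nat_lit 32) (nat_lit 33) = true := by decide +kernel
def p15_30_2_33 : pfC (piC [(nat_lit 35404596), (nat_lit 23859669), (nat_lit 17778567), (nat_lit 12006452)] (nat_lit 6891553)) p15_30_2 (nat_lit 4) (nat_lit 33) (nat_lit 34) = true := by decide +kernel
def p15_30_2_34 : pfC (piC [(nat_lit 35404596), (nat_lit 23859669), (nat_lit 17778567), (nat_lit 12006452)] (nat_lit 6891553)) p15_30_2 (nat_lit 4) (nat_lit 34) (nat_lit 35) = true := by decide +kernel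
def p15_30_2_35 : pfC (piC [(nat_lit 35404596), (nat_lit 23859669), (nat_lit 17778567), (nat_lit 12006452)] (nat_lit 6891553)) p15_30_2 (nat_lit 4) (nat_lit 35) (nat_lit 36) = true := by decide +kernel
def p15_30_2_36 : pfC (piC [(nat_lit 35404596), (nat_lit 23859669), (nat_lit 17778567), (nat_lit 12006452)] (nat_lit 6891553)) p15_30_2 (nat_lit 4) (nat_lit 36) (nat_lit 37) = true := by decide +kernel
def p15_30_2_37 : pfC (piC [(nat_lit 35404596), (nat_lit 23859669), (nat_lit 17778567), (nat_lit 12006452)] (nat_lit 6891553)) p15_30_2 (nat_lit 4) (nat_lit 37) (nat_lit 38) = true := by decide +kernel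
def p15_30_2_38 : pfC (piC [(nat_lit 35404596), (nat_lit 23859669), (nat_lit 17778567), (nat_lit 12006452)] (nat_lit 6891553)) p15_30_2 (nat_lit 4) (nat_lit 38) (nat_lit 39) = true := by decide +kernel
def p15_30_2_39 : pfC (piC [(nat_lit 35404596), (nat_lit 23859669), (nat_lit 17778567), (nat_lit 12006452)] (nat_lit 6891553)) p15_30_2 (nat_lit 4) (nat_lit 39) (nat_lit 40) = true := by decide +kernel
def p15_30_2_40 : pfC (piC [(nat_lit 35404596), (nat_lit 23859669), (nat_lit 17778567), (nat_lit 12006452)] (nat_lit 6891553)) p15_30_2 (nat_lit 4) (nat_lit 40) (nat_lit 41) = true := by decide +kernel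
def p15_30_2_41 : pfC (piC [(nat_lit 35404596), (nat_lit 23859669), (nat_lit 17778567), (nat_lit 12006452)] (nat_lit 6891553)) p15_30_2 (nat_lit 4) (nat_lit 41) (nat_lit 42) = true := by decide +kernel
def p15_30_2_42 : pfC (piC [(nat_lit 35404596), (nat_lit 23859669), (nat_lit 17778567), (nat_lit 12006452)] (nat_lit 6891553)) p15_30_2 (nat_lit 4) (nat_lit 42) (nat_lit 43) = true := by decide +kernel
def p15_30_2_43 : pfC (piC [(nat_lit 35404596), (nat_lit 23859669), (nat_lit 17778567), (nat_lit 12006452)] (nat_lit 6891553)) p15_30_2 (nat_lit 4) (nat_lit 43) (nat_lit 44) = true := by decide +kernel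
def p15_30_2_44 : pfC (piC [(nat_lit 35404596), (nat_lit 23859669), (nat_lit 17778567), (nat_lit 12006452)] (nat_lit 6891553)) p15_30_2 (nat_lit 4) (nat_lit 44) (nat_lit 45) = true := by decide +kernel
def p15_30_2_45 : pfC (piC [(nat_lit 35404596), (nat_lit 23859669), (nat_lit 17778567), (nat_lit 12006452)] (nat_lit 6891553)) p15_30_2 (nat_lit 4) (nat_lit 45) (nat_lit 46) = true := by decide +kernel
def p15_30_2_46 : pfC (piC [(nat_lit 35404596), (nat_lit 23859669), (nat_lit 17778567), (nat_lit 12006452)] (nat_lit 6891553)) p15_30_2 (nat_lit 4) (nat_lit 46) (nat_lit 47) = true := by decide +kernel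
def p15_30_2_47 : pfC (piC [(nat_lit 35404596), (nat_lit 23859669), (nat_lit 17778567), (nat_lit 12006452)] (nat_lit 6891553)) p15_30_2 (nat_lit 4) (nat_lit 47) (nat_lit 48) = true := by decide +kernel
def p15_30_2_48 : pfC (piC [(nat_lit 35404596), (nat_lit 23859669), (nat_lit 17778567), (nat_lit 12006452)] (nat_lit 6891553)) p15_30_2 (nat_lit 4) (nat_lit 48) (nat_lit 49) = true := by decide +kernel
def p15_30_2_49 : pfC (piC [(nat_lit 35404596), (nat_lit 23859669), (nat_lit 17778567), (nat_lit 12006452)] (nat_lit 6891553)) p15_30_2 (nat_lit 4) (nat_lit 49) (nat_lit 50) = true := by decide +kernel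
def p15_30_2_50 : pfC (piC [(nat_lit 35404596), (nat_lit 23859669), (nat_lit 17778567), (nat_lit 12006452)] (nat_lit 6891553)) p15_30_2 (nat_lit 4) (nat_lit 50) (nat_lit 51) = true := by decide +kernel
def p15_30_2_51 : pfC (piC [(nat_lit 35404596), (nat_lit 23859669), (nat_lit 17778567), (nat_lit 12006452)] (nat_lit 6891553)) p15_30_2 (nat_lit 4) (nat_lit 51) (nat_lit 52) = true := by decide +kernel
def p15_30_2_52 : pfC (piC [(nat_lit 35404596), (nat_lit 23859669), (nat_lit 17778567), (nat_lit 12006452)] (nat_lit 6891553)) p15_30_2 (nat_lit 4) (nat_lit 52) (nat_lit 53) = true := by decide +kernel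
def p15_30_2_53 : pfC (piC [(nat_lit 35404596), (nat_lit 23859669), (nat_lit 17778567), (nat_lit 12006452)] (nat_lit 6891553)) p15_30_2 (nat_lit 4) (nat_lit 53) (nat_lit 54) = true := by decide +kernel
def p15_30_2_54 : pfC (piC [(nat_lit 35404596), (nat_lit 23859669), (nat_lit 17778567), (nat_lit 12006452)] (nat_lit 6891553)) p15_30_2 (nat_lit 4) (nat_lit 54) (nat_lit 55) = true := by decide +kernel
def p15_30_2_55 : pfC (piC [(nat_lit 35404596), (nat_lit 23859669), (nat_lit 17778567), (nat_lit 12006452)] (nat_lit 6891553)) p15_30_2 (nat_lit 4) (nat_lit 55) (nat_lit 56) = true := by decide +kernel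
def p15_30_2_56 : pfC (piC [(nat_lit 35404596), (nat_lit 23859669), (nat_lit 17778567), (nat_lit 12006452)] (nat_lit 6891553)) p15_30_2 (nat_lit 4) (nat_lit 56) (nat_lit 57) = true := by decide +kernel
def p15_30_2_57 : pfC (piC [(nat_lit 35404596), (nat_lit 23859669), (nat_lit 17778567), (nat_lit 12006452)] (nat_lit 6891553)) p15_30_2 (nat_lit 4) (nat_lit 57) (nat_lit 58) = true := by decide +kernel
def p15_30_2_58 : pfC (piC [(nat_lit 35404596), (nat_lit 23859669), (nat_lit 17778567), (nat_lit 12006452)] (nat_lit 6891553)) p15_30_2 (nat_lit 4) (nat_lit 58) (nat_lit 59) = true := by decide +kernel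
def p15_30_2_59 : pfC (piC [(nat_lit 35404596), (nat_lit 23859669), (nat_lit 17778567), (nat_lit 12006452)] (nat_lit 6891553)) p15_30_2 (nat_lit 4) (nat_lit 59) (nat_lit 60) = true := by decide +kernel
def p15_30_2_60 : pfC (piC [(nat_lit 35404596), (nat_lit 23859669), (nat_lit 17778567), (nat_lit 12006452)] (nat_lit 6891553)) p15_30_2 (nat_lit 4) (nat_lit 60) (nat_lit 61) = true := by decide +kernel
def p15_30_2_61 : pfC (piC [(nat_lit 35404596), (nat_lit 23859669), (nat_lit 17778567), (nat_lit 12006452)] (nat_lit 6891553)) p15_30_2 (nat_lit 4) (nat_lit 61) (nat_lit 62) = true := by decide +kernel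
def p15_30_2_62 : pfC (piC [(nat_lit 35404596), (nat_lit 23859669), (nat_lit 17778567), (nat_lit 12006452)] (nat_lit 6891553)) p15_30_2 (nat_lit 4) (nat_lit 62) (nat_lit 63) = true := by decide +kernel
def p15_30_2_63 : pfC (piC [(nat_lit 35404596), (nat_lit 23859669), (nat_lit 17778567), (nat_lit 12006452)] (nat_lit 6891553)) p15_30_2 (nat_lit 4) (nat_lit 63) (nat_lit 64) = true := by decide +kernel
def p15_30_2_64 : pfC (piC [(nat_lit 35404596), (nat_lit 23859669), (nat_lit 17778567), (nat_lit 12006452)] (nat_lit 6891553)) p15_30_2 (nat_lit 4) (nat_lit 64) (nat_lit 65) = true := by decide +kernel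
def p15_30_2_65 : pfC (piC [(nat_lit 35404596), (nat_lit 23859669), (nat_lit 17778567), (nat_lit 12006452)] (nat_lit 6891553)) p15_30_2 (nat_lit 4) (nat_lit 65) (nat_lit 66) = true := by decide +kernel
def p15_30_2_66 : pfC (piC [(nat_lit 35404596), (nat_lit 23859669), (nat_lit 17778567), (nat_lit 12006452)] (nat_lit 6891553)) p15_30_2 (nat_lit 4) (nat_lit 66) (nat_lit 67) = true := by decide +kernel
def p15_30_2_67 : pfC (piC [(nat_lit 35404596), (nat_lit 23859669), (nat_lit 17778567), (nat_lit 12006452)] (nat_lit 6891553)) p15_30_2 (nat_lit 4) (nat_lit 67) (nat_lit 68) = true := by decide +kernel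
def p15_30_2_68 : pfC (piC [(nat_lit 35404596), (nat_lit 23859669), (nat_lit 17778567), (nat_lit 12006452)] (nat_lit 6891553)) p15_30_2 (nat_lit 4) (nat_lit 68) (nat_lit 69) = true := by decide +kernel
def p15_30_2_69 : pfC (piC [(nat_lit 35404596), (nat_lit 23859669), (nat_lit 17778567), (nat_lit 12006452)] (nat_lit 6891553)) p15_30_2 (nat_lit 4) (nat_lit 69) (nat_lit 70) = true := by decide +kernel
def p15_30_2_70 : pfC (piC [(nat_lit 35404596), (nat_lit 23859669), (nat_lit 17778567), (nat_lit 12006452)] (nat_lit 6891553)) p15_30_2 (nat_lit 4) (nat_lit 70) (nat_lit 71) = true := by decide +kernel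
def p15_30_2_71 : pfC (piC [(nat_lit 35404596), (nat_lit 23859669), (nat_lit 17778567), (nat_lit 12006452)] (nat_lit 6891553)) p15_30_2 (nat_lit 4) (nat_lit 71) (nat_lit 72) = true := by decide +kernel
def p15_30_2_72 : pfC (piC [(nat_lit 35404596), (nat_lit 23859669), (nat_lit 17778567), (nat_lit 12006452)] (nat_lit 6891553)) p15_30_2 (nat_lit 4) (nat_lit 72) (nat_lit 73) = true := by decide +kernel
def p15_30_2_73 : pfC (piC [(nat_lit 35404596), (nat_lit 23859669), (nat_lit 17778567), (nat_lit 12006452)] (nat_lit 6891553)) p15_30_2 (nat_lit 4) (nat_lit 73) (nat_lit 74) = true := by decide +kernel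
def p15_30_2_74 : pfC (piC [(nat_lit 35404596), (nat_lit 23859669), (nat_lit 17778567), (nat_lit 12006452)] (nat_lit 6891553)) p15_30_2 (nat_lit 4) (nat_lit 74) (nat_lit 75) = true := by decide +kernel
def p15_30_2_75 : pfC (piC [(nat_lit 35404596), (nat_lit 23859669), (nat_lit 17778567), (nat_lit 12006452)] (nat_lit 6891553)) p15_30_2 (nat_lit 4) (nat_lit 75) (nat_lit 76) = true := by decide +kernel
def p15_30_2_76 : pfC (piC [(nat_lit 35404596), (nat_lit 23859669), (nat_lit 17778567), (nat_lit 12006452)] (nat_lit 6891553)) p15_30_2 (nat_lit 4) (nat_lit 76) (nat_lit 77) = true := by decide +kernel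
def p15_30_2_77 : pfC (piC [(nat_lit 35404596), (nat_lit 23859669), (nat_lit 17778567), (nat_lit 12006452)] (nat_lit 6891553)) p15_30_2 (nat_lit 4) (nat_lit 77) (nat_lit 78) = true := by decide +kernel
def p15_30_2_78 : pfC (piC [(nat_lit 35404596), (nat_lit 23859669), (nat_lit 17778567), (nat_lit 12006452)] (nat_lit 6891553)) p15_30_2 (nat_lit 4) (nat_lit 78) (nat_lit 79) = true := by decide +kernel
def p15_30_2_79 : pfC (piC [(nat_lit 35404596), (nat_lit 23859669), (nat_lit 17778567), (nat_lit 12006452)] (nat_lit 6891553)) p15_30_2 (nat_lit 4) (nat_lit 79) (nat_lit 80) = true := by decide +kernel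
def p15_30_2_80 : pfC (piC [(nat_lit 35404596), (nat_lit 23859669), (nat_lit 17778567), (nat_lit 12006452)] (nat_lit 6891553)) p15_30_2 (nat_lit 4) (nat_lit 80) (nat_lit 81) = true := by decide +kernel
def p15_30_2_81 : pfC (piC [(nat_lit 35404596), (nat_lit 23859669), (nat_lit 17778567), (nat_lit 12006452)] (nat_lit 6891553)) p15_30_2 (nat_lit 4) (nat_lit 81) (nat_lit 82) = true := by decide +kernel
def p15_30_2_82 : pfC (piC [(nat_lit 35404596), (nat_lit 23859669), (nat_lit 17778567), (nat_lit 12006452)] (nat_lit 6891553)) p15_30_2 (nat_lit 4) (nat_lit 82) (nat_lit 83) = true := by decide +kernel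
def p15_30_2_83 : pfC (piC [(nat_lit 35404596), (nat_lit 23859669), (nat_lit 17778567), (nat_lit 12006452)] (nat_lit 6891553)) p15_30_2 (nat_lit 4) (nat_lit 83) (nat_lit 84) = true := by decide +kernel
def p15_30_2_84 : pfC (piC [(nat_lit 35404596), (nat_lit 23859669), (nat_lit 17778567), (nat_lit 12006452)] (nat_lit 6891553)) p15_30_2 (nat_lit 4) (nat_lit 84) (nat_lit 85) = true := by decide +kernel
def p15_30_2_85 : pfC (piC [(nat_lit 35404596), (nat_lit 23859669), (nat_lit 17778567), (nat_lit 12006452)] (nat_lit 6891553)) p15_30_2 (nat_lit 4) (nat_lit 85) (nat_lit 86) = true := by decide +kernel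
def p15_30_2_86 : pfC (piC [(nat_lit 35404596), (nat_lit 23859669), (nat_lit 17778567), (nat_lit 12006452)] (nat_lit 6891553)) p15_30_2 (nat_lit 4) (nat_lit 86) (nat_lit 87) = true := by decide +kernel
def p15_30_2_87 : pfC (piC [(nat_lit 35404596), (nat_lit 23859669), (nat_lit 17778567), (nat_lit 12006452)] (nat_lit 6891553)) p15_30_2 (nat_lit 4) (nat_lit 87) (nat_lit 88) = true := by decide +kernel
def p15_30_2_88 : pfC (piC [(nat_lit 35404596), (nat_lit 23859669), (nat_lit 17778567), (nat_lit 12006452)] (nat_lit 6891553)) p15_30_2 (nat_lit 4) (nat_lit 88) (nat_lit 89) = true := by decide +kernel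
def p15_30_2_89 : pfC (piC [(nat_lit 35404596), (nat_lit 23859669), (nat_lit 17778567), (nat_lit 12006452)] (nat_lit 6891553)) p15_30_2 (nat_lit 4) (nat_lit 89) (nat_lit 90) = true := by decide +kernel
def p15_30_2_90 : pfC (piC [(nat_lit 35404596), (nat_lit 23859669), (nat_lit 17778567), (nat_lit 12006452)] (nat_lit 6891553)) p15_30_2 (nat_lit 4) (nat_lit 90) (nat_lit 91) = true := by decide +kernel
def p15_30_2_91 : pfC (piC [(nat_lit 35404596), (nat_lit 23859669), (nat_lit 17778567), (nat_lit 12006452)] (nat_lit 6891553)) p15_30_2 (nat_lit 4) (nat_lit 91) (nat_lit 92) = true := by decide +kernel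
def p15_30_2_92 : pfC (piC [(nat_lit 35404596), (nat_lit 23859669), (nat_lit 17778567), (nat_lit 12006452)] (nat_lit 6891553)) p15_30_2 (nat_lit 4) (nat_lit 92) (nat_lit 93) = true := by decide +kernel
def p15_30_2_93 : pfC (piC [(nat_lit 35404596), (nat_lit 23859669), (nat_lit 17778567), (nat_lit 12006452)] (nat_lit 6891553)) p15_30_2 (nat_lit 4) (nat_lit 93) (nat_lit 94) = true := by decide +kernel
def p15_30_2_94 : pfC (piC [(nat_lit 35404596), (nat_lit 23859669), (nat_lit 17778567), (nat_lit 12006452)] (nat_lit 6891553)) p15_30_2 (nat_lit 4) (nat_lit 94) (nat_lit 95) = true := by decide +kernel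
def p15_30_2_95 : pfC (piC [(nat_lit 35404596), (nat_lit 23859669), (nat_lit 17778567), (nat_lit 12006452)] (nat_lit 6891553)) p15_30_2 (nat_lit 4) (nat_lit 95) (nat_lit 96) = true := by decide +kernel
def p15_30_2_96 : pfC (piC [(nat_lit 35404596), (nat_lit 23859669), (nat_lit 17778567), (nat_lit 12006452)] (nat_lit 6891553)) p15_30_2 (nat_lit 4) (nat_lit 96) (nat_lit 97) = true := by decide +kernel
def p15_30_2_97 : pfC (piC [(nat_lit 35404596), (nat_lit 23859669), (nat_lit 17778567), (nat_lit 12006452)] (nat_lit 6891553)) p15_30_2 (nat_lit 4) (nat_lit 97) (nat_lit 98) = true := by decide +kernel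
def p15_30_2_98 : pfC (piC [(nat_lit 35404596), (nat_lit 23859669), (nat_lit 17778567), (nat_lit 12006452)] (nat_lit 6891553)) p15_30_2 (nat_lit 4) (nat_lit 98) (nat_lit 99) = true := by decide +kernel
def p15_30_2_99 : pfC (piC [(nat_lit 35404596), (nat_lit 23859669), (nat_lit 17778567), (nat_lit 12006452)] (nat_lit 6891553)) p15_30_2 (nat_lit 4) (nat_lit 99) (nat_lit 100) = true := by decide +kernel
def p15_30_2_100 : pfC (piC [(nat_lit 35404596), (nat_lit 23859669), (nat_lit 17778567), (nat_lit 12006452)] (nat_lit 6891553)) p15_30_2 (nat_lit 4) (nat_lit 100) (nat_lit 101) = true := by decide +kernel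
def p15_30_2_101 : pfC (piC [(nat_lit 35404596), (nat_lit 23859669), (nat_lit 17778567), (nat_lit 12006452)] (nat_lit 6891553)) p15_30_2 (nat_lit 4) (nat_lit 101) (nat_lit 102) = true := by decide +kernel
def p15_30_2_102 : pfC (piC [(nat_lit 35404596), (nat_lit 23859669), (nat_lit 17778567), (nat_lit 12006452)] (nat_lit 6891553)) p15_30_2 (nat_lit 4) (nat_lit 102) (nat_lit 103) = true := by decide +kernel
def p15_30_2_103 : pfC (piC [(nat_lit 35404596), (nat_lit 23859669), (nat_lit 17778567), (nat_lit 12006452)] (nat_lit 6891553)) p15_30_2 (nat_lit 4) (nat_lit 103) (nat_lit 104) = true := by decide +kernel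
def p15_30_2_104 : pfC (piC [(nat_lit 35404596), (nat_lit 23859669), (nat_lit 17778567), (nat_lit 12006452)] (nat_lit 6891553)) p15_30_2 (nat_lit 4) (nat_lit 104) (nat_lit 105) = true := by decide +kernel
def p15_30_2_105 : pfC (piC [(nat_lit 35404596), (nat_lit 23859669), (nat_lit 17778567), (nat_lit 12006452)] (nat_lit 6891553)) p15_30_2 (nat_lit 4) (nat_lit 105) (nat_lit 106) = true := by decide +kernel
def p15_30_2_106 : pfC (piC [(nat_lit 35404596), (nat_lit 23859669), (nat_lit 17778567), (nat_lit 12006452)] (nat_lit 6891553)) p15_30_2 (nat_lit 4) (nat_lit 106) (nat_lit 107) = true := by decide +kernel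
def p15_30_2_107 : pfC (piC [(nat_lit 35404596), (nat_lit 23859669), (nat_lit 17778567), (nat_lit 12006452)] (nat_lit 6891553)) p15_30_2 (nat_lit 4) (nat_lit 107) (nat_lit 108) = true := by decide +kernel
def p15_30_2_108 : pfC (piC [(nat_lit 35404596), (nat_lit 23859669), (nat_lit 17778567), (nat_lit 12006452)] (nat_lit 6891553)) p15_30_2 (nat_lit 4) (nat_lit 108) (nat_lit 109) = true := by decide +kernel
def p15_30_2_109 : pfC (piC [(nat_lit 35404596), (nat_lit 23859669), (nat_lit 17778567), (nat_lit 12006452)] (nat_lit 6891553)) p15_30_2 (nat_lit 4) (nat_lit 109) (nat_lit 110) = true := by decide +kernel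
def p15_30_2_110 : pfC (piC [(nat_lit 35404596), (nat_lit 23859669), (nat_lit 17778567), (nat_lit 12006452)] (nat_lit 6891553)) p15_30_2 (nat_lit 4) (nat_lit 110) (nat_lit 111) = true := by decide +kernel
def p15_30_2_111 : pfC (piC [(nat_lit 35404596), (nat_lit 23859669), (nat_lit 17778567), (nat_lit 12006452)] (nat_lit 6891553)) p15_30_2 (nat_lit 4) (nat_lit 111) (nat_lit 112) = true := by decide +kernel
def p15_30_2_112 : pfC (piC [(nat_lit 35404596), (nat_lit 23859669), (nat_lit 17778567), (nat_lit 12006452)] (nat_lit 6891553)) p15_30_2 (nat_lit 4) (nat_lit 112) (nat_lit 113) = true := by decide +kernel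
def p15_30_2_113 : pfC (piC [(nat_lit 35404596), (nat_lit 23859669), (nat_lit 17778567), (nat_lit 12006452)] (nat_lit 6891553)) p15_30_2 (nat_lit 4) (nat_lit 113) (nat_lit 114) = true := by decide +kernel
def p15_30_2_114 : pfC (piC [(nat_lit 35404596), (nat_lit 23859669), (nat_lit 17778567), (nat_lit 12006452)] (nat_lit 6891553)) p15_30_2 (nat_lit 4) (nat_lit 114) (nat_lit 115) = true := by decide +kernel
def p15_30_2_115 : pfC (piC [(nat_lit 35404596), (nat_lit 23859669), (nat_lit 17778567), (nat_lit 12006452)] (nat_lit 6891553)) p15_30_2 (nat_lit 4) (nat_lit 115) (nat_lit 116) = true := by decide +kernel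
def p15_30_2_116 : pfC (piC [(nat_lit 35404596), (nat_lit 23859669), (nat_lit 17778567), (nat_lit 12006452)] (nat_lit 6891553)) p15_30_2 (nat_lit 4) (nat_lit 116) (nat_lit 117) = true := by decide +kernel
def p15_30_2_117 : pfC (piC [(nat_lit 35404596), (nat_lit 23859669), (nat_lit 17778567), (nat_lit 12006452)] (nat_lit 6891553)) p15_30_2 (nat_lit 4) (nat_lit 117) (nat_lit 118) = true := by decide +kernel
def p15_30_2_118 : pfC (piC [(nat_lit 35404596), (nat_lit 23859669), (nat_lit 17778567), (nat_lit 12006452)] (nat_lit 6891553)) p15_30_2 (nat_lit 4) (nat_lit 118) (nat_lit 119) = true := by decide +kernel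
def p15_30_2_119 : pfC (piC [(nat_lit 35404596), (nat_lit 23859669), (nat_lit 17778567), (nat_lit 12006452)] (nat_lit 6891553)) p15_30_2 (nat_lit 4) (nat_lit 119) (nat_lit 120) = true := by decide +kernel
def p15_30_2_120 : pfC (piC [(nat_lit 35404596), (nat_lit 23859669), (nat_lit 17778567), (nat_lit 12006452)] (nat_lit 6891553)) p15_30_2 (nat_lit 4) (nat_lit 120) (nat_lit 121) = true := by decide +kernel
def p15_30_2_121 : pfC (piC [(nat_lit 35404596), (nat_lit 23859669), (nat_lit 17778567), (nat_lit 12006452)] (nat_lit 6891553)) p15_30_2 (nat_lit 4) (nat_lit 121) (nat_lit 122) = true := by decide +kernel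
def p15_30_2_122 : pfC (piC [(nat_lit 35404596), (nat_lit 23859669), (nat_lit 17778567), (nat_lit 12006452)] (nat_lit 6891553)) p15_30_2 (nat_lit 4) (nat_lit 122) (nat_lit 123) = true := by decide +kernel
def p15_30_2_123 : pfC (piC [(nat_lit 35404596), (nat_lit 23859669), (nat_lit 17778567), (nat_lit 12006452)] (nat_lit 6891553)) p15_30_2 (nat_lit 4) (nat_lit 123) (nat_lit 124) = true := by decide +kernel
def p15_30_2_124 : pfC (piC [(nat_lit 35404596), (nat_lit 23859669), (nat_lit 17778567), (nat_lit 12006452)] (nat_lit 6891553)) p15_30_2 (nat_lit 4) (nat_lit 124) (nat_lit 125) = true := by decide +kernel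
def p15_30_2_125 : pfC (piC [(nat_lit 35404596), (nat_lit 23859669), (nat_lit 17778567), (nat_lit 12006452)] (nat_lit 6891553)) p15_30_2 (nat_lit 4) (nat_lit 125) (nat_lit 126) = true := by decide +kernel
def p15_30_2_126 : pfC (piC [(nat_lit 35404596), (nat_lit 23859669), (nat_lit 17778567), (nat_lit 12006452)] (nat_lit 6891553)) p15_30_2 (nat_lit 4) (nat_lit 126) (nat_lit 127) = true := by decide +kernel
def p15_30_2_127 : pfC (piC [(nat_lit 35404596), (nat_lit 23859669), (nat_lit 17778567), (nat_lit 12006452)] (nat_lit 6891553)) p15_30_2 (nat_lit 4) (nat_lit 127) (nat_lit 128) = true := by decide +kernel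
def p15_30_2_128 : pfC (piC [(nat_lit 35404596), (nat_lit 23859669), (nat_lit 17778567), (nat_lit 12006452)] (nat_lit 6891553)) p15_30_2 (nat_lit 4) (nat_lit 128) (nat_lit 129) = true := by decide +kernel
def p15_30_2_129 : pfC (piC [(nat_lit 35404596), (nat_lit 23859669), (nat_lit 17778567), (nat_lit 12006452)] (nat_lit 6891553)) p15_30_2 (nat_lit 4) (nat_lit 129) (nat_lit 130) = true := by decide +kernel
def p15_30_2_130 : pfC (piC [(nat_lit 35404596), (nat_lit 23859669), (nat_lit 17778567), (nat_lit 12006452)] (nat_lit 6891553)) p15_30_2 (nat_lit 4) (nat_lit 130) (nat_lit 131) = true := by decide +kernel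
def p15_30_2_131 : pfC (piC [(nat_lit 35404596), (nat_lit 23859669), (nat_lit 17778567), (nat_lit 12006452)] (nat_lit 6891553)) p15_30_2 (nat_lit 4) (nat_lit 131) (nat_lit 132) = true := by decide +kernel
def p15_30_2_132 : pfC (piC [(nat_lit 35404596), (nat_lit 23859669), (nat_lit 17778567), (nat_lit 12006452)] (nat_lit 6891553)) p15_30_2 (nat_lit 4) (nat_lit 132) (nat_lit 133) = true := by decide +kernel
def p15_30_2_133 : pfC (piC [(nat_lit 35404596), (nat_lit 23859669), (nat_lit 17778567), (nat_lit 12006452)] (nat_lit 6891553)) p15_30_2 (nat_lit 4) (nat_lit 133) (nat_lit 134) = true := by decide +kernel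
def p15_30_2_134 : pfC (piC [(nat_lit 35404596), (nat_lit 23859669), (nat_lit 17778567), (nat_lit 12006452)] (nat_lit 6891553)) p15_30_2 (nat_lit 4) (nat_lit 134) (nat_lit 135) = true := by decide +kernel
def p15_30_2_135 : pfC (piC [(nat_lit 35404596), (nat_lit 23859669), (nat_lit 17778567), (nat_lit 12006452)] (nat_lit 6891553)) p15_30_2 (nat_lit 4) (nat_lit 135) (nat_lit 136) = true := by decide +kernel
def p15_30_2_136 : pfC (piC [(nat_lit 35404596), (nat_lit 23859669), (nat_lit 17778567), (nat_lit 12006452)] (nat_lit 6891553)) p15_30_2 (nat_lit 4) (nat_lit 136) (nat_lit 137) = true := by decide +kernel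
def p15_30_2_137 : pfC (piC [(nat_lit 35404596), (nat_lit 23859669), (nat_lit 17778567), (nat_lit 12006452)] (nat_lit 6891553)) p15_30_2 (nat_lit 4) (nat_lit 137) (nat_lit 138) = true := by decide +kernel
def p15_30_2_138 : pfC (piC [(nat_lit 35404596), (nat_lit 23859669), (nat_lit 17778567), (nat_lit 12006452)] (nat_lit 6891553)) p15_30_2 (nat_lit 4) (nat_lit 138) (nat_lit 139) = true := by decide +kernel
def p15_30_2_139 : pfC (piC [(nat_lit 35404596), (nat_lit 23859669), (nat_lit 17778567), (nat_lit 12006452)] (nat_lit 6891553)) p15_30_2 (nat_lit 4) (nat_lit 139) (nat_lit 140) = true := by decide +kernel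
def p15_30_2_140 : pfC (piC [(nat_lit 35404596), (nat_lit 23859669), (nat_lit 17778567), (nat_lit 12006452)] (nat_lit 6891553)) p15_30_2 (nat_lit 4) (nat_lit 140) (nat_lit 141) = true := by decide +kernel
def p15_30_2_141 : pfC (piC [(nat_lit 35404596), (nat_lit 23859669), (nat_lit 17778567), (nat_lit 12006452)] (nat_lit 6891553)) p15_30_2 (nat_lit 4) (nat_lit 141) (nat_lit 142) = true := by decide +kernel
def p15_30_2_142 : pfC (piC [(nat_lit 35404596), (nat_lit 23859669), (nat_lit 17778567), (nat_lit 12006452)] (nat_lit 6891553)) p15_30_2 (nat_lit 4) (nat_lit 142) (nat_lit 143) = true := by decide +kernel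
def p15_30_2_143 : pfC (piC [(nat_lit 35404596), (nat_lit 23859669), (nat_lit 17778567), (nat_lit 12006452)] (nat_lit 6891553)) p15_30_2 (nat_lit 4) (nat_lit 143) (nat_lit 144) = true := by decide +kernel
def p15_30_2_144 : pfC (piC [(nat_lit 35404596), (nat_lit 23859669), (nat_lit 17778567), (nat_lit 12006452)] (nat_lit 6891553)) p15_30_2 (nat_lit 4) (nat_lit 144) (nat_lit 145) = true := by decide +kernel
def p15_30_2_145 : pfC (piC [(nat_lit 35404596), (nat_lit 23859669), (nat_lit 17778567), (nat_lit 12006452)] (nat_lit 6891553)) p15_30_2 (nat_lit 4) (nat_lit 145) (nat_lit 146) = true := by decide +kernel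
def p15_30_2_146 : pfC (piC [(nat_lit 35404596), (nat_lit 23859669), (nat_lit 17778567), (nat_lit 12006452)] (nat_lit 6891553)) p15_30_2 (nat_lit 4) (nat_lit 146) (nat_lit 147) = true := by decide +kernel
def p15_30_2_147 : pfC (piC [(nat_lit 35404596), (nat_lit 23859669), (nat_lit 17778567), (nat_lit 12006452)] (nat_lit 6891553)) p15_30_2 (nat_lit 4) (nat_lit 147) (nat_lit 148) = true := by decide +kernel
def p15_30_2_148 : pfC (piC [(nat_lit 35404596), (nat_lit 23859669), (nat_lit 17778567), (nat_lit 12006452)] (nat_lit 6891553)) p15_30_2 (nat_lit 4) (nat_lit 148) (nat_lit 149) = true := by decide +kernel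
def p15_30_2_149 : pfC (piC [(nat_lit 35404596), (nat_lit 23859669), (nat_lit 17778567), (nat_lit 12006452)] (nat_lit 6891553)) p15_30_2 (nat_lit 4) (nat_lit 149) (nat_lit 150) = true := by decide +kernel
def p15_30_2_150 : pfC (piC [(nat_lit 35404596), (nat_lit 23859669), (nat_lit 17778567), (nat_lit 12006452)] (nat_lit 6891553)) p15_30_2 (nat_lit 4) (nat_lit 150) (nat_lit 151) = true := by decide +kernel
def p15_30_2_151 : pfC (piC [(nat_lit 35404596), (nat_lit 23859669), (nat_lit 17778567), (nat_lit 12006452)] (nat_lit 6891553)) p15_30_2 (nat_lit 4) (nat_lit 151) (nat_lit 152) = true := by decide +kernel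
def p15_30_2_152 : pfC (piC [(nat_lit 35404596), (nat_lit 23859669), (nat_lit 17778567), (nat_lit 12006452)] (nat_lit 6891553)) p15_30_2 (nat_lit 4) (nat_lit 152) (nat_lit 153) = true := by decide +kernel
def p15_30_2_153 : pfC (piC [(nat_lit 35404596), (nat_lit 23859669), (nat_lit 17778567), (nat_lit 12006452)] (nat_lit 6891553)) p15_30_2 (nat_lit 4) (nat_lit 153) (nat_lit 154) = true := by decide +kernel
def p15_30_2_154 : pfC (piC [(nat_lit 35404596), (nat_lit 23859669), (nat_lit 17778567), (nat_lit 12006452)] (nat_lit 6891553)) p15_30_2 (nat_lit 4) (nat_lit 154) (nat_lit 155) = true := by decide +kernel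
def p15_30_2_155 : pfC (piC [(nat_lit 35404596), (nat_lit 23859669), (nat_lit 17778567), (nat_lit 12006452)] (nat_lit 6891553)) p15_30_2 (nat_lit 4) (nat_lit 155) (nat_lit 156) = true := by decide +kernel
def p15_30_2_156 : pfC (piC [(nat_lit 35404596), (nat_lit 23859669), (nat_lit 17778567), (nat_lit 12006452)] (nat_lit 6891553)) p15_30_2 (nat_lit 4) (nat_lit 156) (nat_lit 157) = true := by decide +kernel
def p15_30_2_157 : pfC (piC [(nat_lit 35404596), (nat_lit 23859669), (nat_lit 17778567), (nat_lit 12006452)] (nat_lit 6891553)) p15_30_2 (nat_lit 4) (nat_lit 157) (nat_lit 158) = true := by decide +kernel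
def p15_30_2_158 : pfC (piC [(nat_lit 35404596), (nat_lit 23859669), (nat_lit 17778567), (nat_lit 12006452)] (nat_lit 6891553)) p15_30_2 (nat_lit 4) (nat_lit 158) (nat_lit 159) = true := by decide +kernel
def p15_30_2_159 : pfC (piC [(nat_lit 35404596), (nat_lit 23859669), (nat_lit 17778567), (nat_lit 12006452)] (nat_lit 6891553)) p15_30_2 (nat_lit 4) (nat_lit 159) (nat_lit 160) = true := by decide +kernel
def p15_30_2_160 : pfC (piC [(nat_lit 35404596), (nat_lit 23859669), (nat_lit 17778567), (nat_lit 12006452)] (nat_lit 6891553)) p15_30_2 (nat_lit 4) (nat_lit 160) (nat_lit 161) = true := by decide +kernel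
def p15_30_2_161 : pfC (piC [(nat_lit 35404596), (nat_lit 23859669), (nat_lit 17778567), (nat_lit 12006452)] (nat_lit 6891553)) p15_30_2 (nat_lit 4) (nat_lit 161) (nat_lit 162) = true := by decide +kernel
def p15_30_2_162 : pfC (piC [(nat_lit 35404596), (nat_lit 23859669), (nat_lit 17778567), (nat_lit 12006452)] (nat_lit 6891553)) p15_30_2 (nat_lit 4) (nat_lit 162) (nat_lit 163) = true := by decide +kernel
def p15_30_2_163 : pfC (piC [(nat_lit 35404596), (nat_lit 23859669), (nat_lit 17778567), (nat_lit 12006452)] (nat_lit 6891553)) p15_30_2 (nat_lit 4) (nat_lit 163) (nat_lit 164) = true := by decide +kernel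
def p15_30_2_164 : pfC (piC [(nat_lit 35404596), (nat_lit 23859669), (nat_lit 17778567), (nat_lit 12006452)] (nat_lit 6891553)) p15_30_2 (nat_lit 4) (nat_lit 164) (nat_lit 165) = true := by decide +kernel
def p15_30_2_165 : pfC (piC [(nat_lit 35404596), (nat_lit 23859669), (nat_lit 17778567), (nat_lit 12006452)] (nat_lit 6891553)) p15_30_2 (nat_lit 4) (nat_lit 165) (nat_lit 166) = true := by decide +kernel
def p15_30_2_166 : pfC (piC [(nat_lit 35404596), (nat_lit 23859669), (nat_lit 17778567), (nat_lit 12006452)] (nat_lit 6891553)) p15_30_2 (nat_lit 4) (nat_lit 166) (nat_lit 167) = true := by decide +kernel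
def p15_30_2_167 : pfC (piC [(nat_lit 35404596), (nat_lit 23859669), (nat_lit 17778567), (nat_lit 12006452)] (nat_lit 6891553)) p15_30_2 (nat_lit 4) (nat_lit 167) (nat_lit 168) = true := by decide +kernel
def p15_30_2_168 : pfC (piC [(nat_lit 35404596), (nat_lit 23859669), (nat_lit 17778567), (nat_lit 12006452)] (nat_lit 6891553)) p15_30_2 (nat_lit 4) (nat_lit 168) (nat_lit 169) = true := by decide +kernel
def p15_30_2_169 : pfC (piC [(nat_lit 35404596), (nat_lit 23859669), (nat_lit 17778567), (nat_lit 12006452)] (nat_lit 6891553)) p15_30_2 (nat_lit 4) (nat_lit 169) (nat_lit 170) = true := by decide +kernel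
def p15_30_2_170 : pfC (piC [(nat_lit 35404596), (nat_lit 23859669), (nat_lit 17778567), (nat_lit 12006452)] (nat_lit 6891553)) p15_30_2 (nat_lit 4) (nat_lit 170) (nat_lit 171) = true := by decide +kernel
def p15_30_2_171 : pfC (piC [(nat_lit 35404596), (nat_lit 23859669), (nat_lit 17778567), (nat_lit 12006452)] (nat_lit 6891553)) p15_30_2 (nat_lit 4) (nat_lit 171) (nat_lit 172) = true := by decide +kernel
def p15_30_2_172 : pfC (piC [(nat_lit 35404596), (nat_lit 23859669), (nat_lit 17778567), (nat_lit 12006452)] (nat_lit 6891553)) p15_30_2 (nat_lit 4) (nat_lit 172) (nat_lit 173) = true := by decide +kernel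
def p15_30_2_173 : pfC (piC [(nat_lit 35404596), (nat_lit 23859669), (nat_lit 17778567), (nat_lit 12006452)] (nat_lit 6891553)) p15_30_2 (nat_lit 4) (nat_lit 173) (nat_lit 174) = true := by decide +kernel
def p15_30_2_174 : pfC (piC [(nat_lit 35404596), (nat_lit 23859669), (nat_lit 17778567), (nat_lit 12006452)] (nat_lit 6891553)) p15_30_2 (nat_lit 4) (nat_lit 174) (nat_lit 175) = true := by decide +kernel
def p15_30_2_175 : pfC (piC [(nat_lit 35404596), (nat_lit 23859669), (nat_lit 17778567), (nat_lit 12006452)] (nat_lit 6891553)) p15_30_2 (nat_lit 4) (nat_lit 175) (nat_lit 176) = true := by decide +kernel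
def p15_30_2_176 : pfC (piC [(nat_lit 35404596), (nat_lit 23859669), (nat_lit 17778567), (nat_lit 12006452)] (nat_lit 6891553)) p15_30_2 (nat_lit 4) (nat_lit 176) (nat_lit 177) = true := by decide +kernel
def p15_30_2_177 : pfC (piC [(nat_lit 35404596), (nat_lit 23859669), (nat_lit 17778567), (nat_lit 12006452)] (nat_lit 6891553)) p15_30_2 (nat_lit 4) (nat_lit 177) (nat_lit 178) = true := by decide +kernel
def p15_30_2_178 : pfC (piC [(nat_lit 35404596), (nat_lit 23859669), (nat_lit 17778567), (nat_lit 12006452)] (nat_lit 6891553)) p15_30_2 (nat_lit 4) (nat_lit 178) (nat_lit 179) = true := by decide +kernel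
def p15_30_2_179 : pfC (piC [(nat_lit 35404596), (nat_lit 23859669), (nat_lit 17778567), (nat_lit 12006452)] (nat_lit 6891553)) p15_30_2 (nat_lit 4) (nat_lit 179) (nat_lit 180) = true := by decide +kernel
def p15_30_2_180 : pfC (piC [(nat_lit 35404596), (nat_lit 23859669), (nat_lit 17778567), (nat_lit 12006452)] (nat_lit 6891553)) p15_30_2 (nat_lit 4) (nat_lit 180) (nat_lit 181) = true := by decide +kernel
def p15_30_2_181 : pfC (piC [(nat_lit 35404596), (nat_lit 23859669), (nat_lit 17778567), (nat_lit 12006452)] (nat_lit 6891553)) p15_30_2 (nat_lit 4) (nat_lit 181) (nat_lit 182) = true := by decide +kernel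
def p15_30_2_182 : pfC (piC [(nat_lit 35404596), (nat_lit 23859669), (nat_lit 17778567), (nat_lit 12006452)] (nat_lit 6891553)) p15_30_2 (nat_lit 4) (nat_lit 182) (nat_lit 183) = true := by decide +kernel
def p15_30_2_183 : pfC (piC [(nat_lit 35404596), (nat_lit 23859669), (nat_lit 17778567), (nat_lit 12006452)] (nat_lit 6891553)) p15_30_2 (nat_lit 4) (nat_lit 183) (nat_lit 184) = true := by decide +kernel
def p15_30_2_184 : pfC (piC [(nat_lit 35404596), (nat_lit 23859669), (nat_lit 17778567), (nat_lit 12006452)] (nat_lit 6891553)) p15_30_2 (nat_lit 4) (nat_lit 184) (nat_lit 185) = true := by decide +kernel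
def p15_30_2_185 : pfC (piC [(nat_lit 35404596), (nat_lit 23859669), (nat_lit 17778567), (nat_lit 12006452)] (nat_lit 6891553)) p15_30_2 (nat_lit 4) (nat_lit 185) (nat_lit 186) = true := by decide +kernel
def p15_30_2_186 : pfC (piC [(nat_lit 35404596), (nat_lit 23859669), (nat_lit 17778567), (nat_lit 12006452)] (nat_lit 6891553)) p15_30_2 (nat_lit 4) (nat_lit 186) (nat_lit 187) = true := by decide +kernel
def p15_30_2_187 : pfC (piC [(nat_lit 35404596), (nat_lit 23859669), (nat_lit 17778567), (nat_lit 12006452)] (nat_lit 6891553)) p15_30_2 (nat_lit 4) (nat_lit 187) (nat_lit 188) = true := by decide +kernel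
def p15_30_2_188 : pfC (piC [(nat_lit 35404596), (nat_lit 23859669), (nat_lit 17778567), (nat_lit 12006452)] (nat_lit 6891553)) p15_30_2 (nat_lit 4) (nat_lit 188) (nat_lit 189) = true := by decide +kernel
def p15_30_2_189 : pfC (piC [(nat_lit 35404596), (nat_lit 23859669), (nat_lit 17778567), (nat_lit 12006452)] (nat_lit 6891553)) p15_30_2 (nat_lit 4) (nat_lit 189) (nat_lit 190) = true := by decide +kernel
def p15_30_2_190 : pfC (piC [(nat_lit 35404596), (nat_lit 23859669), (nat_lit 17778567), (nat_lit 12006452)] (nat_lit 6891553)) p15_30_2 (nat_lit 4) (nat_lit 190) (nat_lit 191) = true := by decide +kernel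
def p15_30_2_191 : pfC (piC [(nat_lit 35404596), (nat_lit 23859669), (nat_lit 17778567), (nat_lit 12006452)] (nat_lit 6891553)) p15_30_2 (nat_lit 4) (nat_lit 191) (nat_lit 192) = true := by decide +kernel
def p15_30_2_192 : pfC (piC [(nat_lit 35404596), (nat_lit 23859669), (nat_lit 17778567), (nat_lit 12006452)] (nat_lit 6891553)) p15_30_2 (nat_lit 4) (nat_lit 192) (nat_lit 193) = true := by decide +kernel
def p15_30_2_193 : pfC (piC [(nat_lit 35404596), (nat_lit 23859669), (nat_lit 17778567), (nat_lit 12006452)] (nat_lit 6891553)) p15_30_2 (nat_lit 4) (nat_lit 193) (nat_lit 194) = true := by decide +kernel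
def p15_30_2_194 : pfC (piC [(nat_lit 35404596), (nat_lit 23859669), (nat_lit 17778567), (nat_lit 12006452)] (nat_lit 6891553)) p15_30_2 (nat_lit 4) (nat_lit 194) (nat_lit 195) = true := by decide +kernel
def p15_30_2_195 : pfC (piC [(nat_lit 35404596), (nat_lit 23859669), (nat_lit 17778567), (nat_lit 12006452)] (nat_lit 6891553)) p15_30_2 (nat_lit 4) (nat_lit 195) (nat_lit 196) = true := by decide +kernel
def p15_30_2_196 : pfC (piC [(nat_lit 35404596), (nat_lit 23859669), (nat_lit 17778567), (nat_lit 12006452)] (nat_lit 6891553)) p15_30_2 (nat_lit 4) (nat_lit 196) (nat_lit 197) = true := by decide +kernel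
def p15_30_2_197 : pfC (piC [(nat_lit 35404596), (nat_lit 23859669), (nat_lit 17778567), (nat_lit 12006452)] (nat_lit 6891553)) p15_30_2 (nat_lit 4) (nat_lit 197) (nat_lit 198) = true := by decide +kernel
def p15_30_2_198 : pfC (piC [(nat_lit 35404596), (nat_lit 23859669), (nat_lit 17778567), (nat_lit 12006452)] (nat_lit 6891553)) p15_30_2 (nat_lit 4) (nat_lit 198) (nat_lit 199) = true := by decide +kernel
def p15_30_2_199 : pfC (piC [(nat_lit 35404596), (nat_lit 23859669), (nat_lit 17778567), (nat_lit 12006452)] (nat_lit 6891553)) p15_30_2 (nat_lit 4) (nat_lit 199) (nat_lit 200) = true := by decide +kernel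
def p15_30_2_200 : pfC (piC [(nat_lit 35404596), (nat_lit 23859669), (nat_lit 17778567), (nat_lit 12006452)] (nat_lit 6891553)) p15_30_2 (nat_lit 4) (nat_lit 200) (nat_lit 201) = true := by decide +kernel
def p15_30_2_201 : pfC (piC [(nat_lit 35404596), (nat_lit 23859669), (nat_lit 17778567), (nat_lit 12006452)] (nat_lit 6891553)) p15_30_2 (nat_lit 4) (nat_lit 201) (nat_lit 202) = true := by decide +kernel
def p15_30_2_202 : pfC (piC [(nat_lit 35404596), (nat_lit 23859669), (nat_lit 17778567), (nat_lit 12006452)] (nat_lit 6891553)) p15_30_2 (nat_lit 4) (nat_lit 202) (nat_lit 203) = true := by decide +kernel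
def p15_30_2_203 : pfC (piC [(nat_lit 35404596), (nat_lit 23859669), (nat_lit 17778567), (nat_lit 12006452)] (nat_lit 6891553)) p15_30_2 (nat_lit 4) (nat_lit 203) (nat_lit 204) = true := by decide +kernel
def p15_30_2_204 : pfC (piC [(nat_lit 35404596), (nat_lit 23859669), (nat_lit 17778567), (nat_lit 12006452)] (nat_lit 6891553)) p15_30_2 (nat_lit 4) (nat_lit 204) (nat_lit 205) = true := by decide +kernel
def p15_30_2_205 : pfC (piC [(nat_lit 35404596), (nat_lit 23859669), (nat_lit 17778567), (nat_lit 12006452)] (nat_lit 6891553)) p15_30_2 (nat_lit 4) (nat_lit 205) (nat_lit 206) = true := by decide +kernel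
def p15_30_2_206 : pfC (piC [(nat_lit 35404596), (nat_lit 23859669), (nat_lit 17778567), (nat_lit 12006452)] (nat_lit 6891553)) p15_30_2 (nat_lit 4) (nat_lit 206) (nat_lit 207) = true := by decide +kernel
def p15_30_2_207 : pfC (piC [(nat_lit 35404596), (nat_lit 23859669), (nat_lit 17778567), (nat_lit 12006452)] (nat_lit 6891553)) p15_30_2 (nat_lit 4) (nat_lit 207) (nat_lit 208) = true := by decide +kernel
def p15_30_2_208 : pfC (piC [(nat_lit 35404596), (nat_lit 23859669), (nat_lit 17778567), (nat_lit 12006452)] (nat_lit 6891553)) p15_30_2 (nat_lit 4) (nat_lit 208) (nat_lit 209) = true := by decide +kernel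
def p15_30_2_209 : pfC (piC [(nat_lit 35404596), (nat_lit 23859669), (nat_lit 17778567), (nat_lit 12006452)] (nat_lit 6891553)) p15_30_2 (nat_lit 4) (nat_lit 209) (nat_lit 210) = true := by decide +kernel
def p15_30_2_210 : pfC (piC [(nat_lit 35404596), (nat_lit 23859669), (nat_lit 17778567), (nat_lit 12006452)] (nat_lit 6891553)) p15_30_2 (nat_lit 4) (nat_lit 210) (nat_lit 211) = true := by decide +kernel
def p15_30_2_211 : pfC (piC [(nat_lit 35404596), (nat_lit 23859669), (nat_lit 17778567), (nat_lit 12006452)] (nat_lit 6891553)) p15_30_2 (nat_lit 4) (nat_lit 211) (nat_lit 212) = true := by decide +kernel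
def p15_30_2_212 : pfC (piC [(nat_lit 35404596), (nat_lit 23859669), (nat_lit 17778567), (nat_lit 12006452)] (nat_lit 6891553)) p15_30_2 (nat_lit 4) (nat_lit 212) (nat_lit 213) = true := by decide +kernel
def p15_30_2_213 : pfC (piC [(nat_lit 35404596), (nat_lit 23859669), (nat_lit 17778567), (nat_lit 12006452)] (nat_lit 6891553)) p15_30_2 (nat_lit 4) (nat_lit 213) (nat_lit 214) = true := by decide +kernel
def p15_30_2_214 : pfC (piC [(nat_lit 35404596), (nat_lit 23859669), (nat_lit 17778567), (nat_lit 12006452)] (nat_lit 6891553)) p15_30_2 (nat_lit 4) (nat_lit 214) (nat_lit 215) = true := by decide +kernel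
def p15_30_2_215 : pfC (piC [(nat_lit 35404596), (nat_lit 23859669), (nat_lit 17778567), (nat_lit 12006452)] (nat_lit 6891553)) p15_30_2 (nat_lit 4) (nat_lit 215) (nat_lit 216) = true := by decide +kernel
def p15_30_2_216 : pfC (piC [(nat_lit 35404596), (nat_lit 23859669), (nat_lit 17778567), (nat_lit 12006452)] (nat_lit 6891553)) p15_30_2 (nat_lit 4) (nat_lit 216) (nat_lit 217) = true := by decide +kernel
def p15_30_2_217 : pfC (piC [(nat_lit 35404596), (nat_lit 23859669), (nat_lit 17778567), (nat_lit 12006452)] (nat_lit 6891553)) p15_30_2 (nat_lit 4) (nat_lit 217) (nat_lit 218) = true := by decide +kernel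
def p15_30_2_218 : pfC (piC [(nat_lit 35404596), (nat_lit 23859669), (nat_lit 17778567), (nat_lit 12006452)] (nat_lit 6891553)) p15_30_2 (nat_lit 4) (nat_lit 218) (nat_lit 219) = true := by decide +kernel
def p15_30_2_219 : pfC (piC [(nat_lit 35404596), (nat_lit 23859669), (nat_lit 17778567), (nat_lit 12006452)] (nat_lit 6891553)) p15_30_2 (nat_lit 4) (nat_lit 219) (nat_lit 220) = true := by decide +kernel
def p15_30_2_220 : pfC (piC [(nat_lit 35404596), (nat_lit 23859669), (nat_lit 17778567), (nat_lit 12006452)] (nat_lit 6891553)) p15_30_2 (nat_lit 4) (nat_lit 220) (nat_lit 221) = true := by decide +kernel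
def p15_30_2_221 : pfC (piC [(nat_lit 35404596), (nat_lit 23859669), (nat_lit 17778567), (nat_lit 12006452)] (nat_lit 6891553)) p15_30_2 (nat_lit 4) (nat_lit 221) (nat_lit 222) = true := by decide +kernel
def p15_30_2_222 : pfC (piC [(nat_lit 35404596), (nat_lit 23859669), (nat_lit 17778567), (nat_lit 12006452)] (nat_lit 6891553)) p15_30_2 (nat_lit 4) (nat_lit 222) (nat_lit 223) = true := by decide +kernel
def p15_30_2_223 : pfC (piC [(nat_lit 35404596), (nat_lit 23859669), (nat_lit 17778567), (nat_lit 12006452)] (nat_lit 6891553)) p15_30_2 (nat_lit 4) (nat_lit 223) (nat_lit 224) = true := by decide +kernel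
def p15_30_2_224 : pfC (piC [(nat_lit 35404596), (nat_lit 23859669), (nat_lit 17778567), (nat_lit 12006452)] (nat_lit 6891553)) p15_30_2 (nat_lit 4) (nat_lit 224) (nat_lit 225) = true := by decide +kernel
def p15_30_2_225 : pfC (piC [(nat_lit 35404596), (nat_lit 23859669), (nat_lit 17778567), (nat_lit 12006452)] (nat_lit 6891553)) p15_30_2 (nat_lit 4) (nat_lit 225) (nat_lit 226) = true := by decide +kernel
def p15_30_2_226 : pfC (piC [(nat_lit 35404596), (nat_lit 23859669), (nat_lit 17778567), (nat_lit 12006452)] (nat_lit 6891553)) p15_30_2 (nat_lit 4) (nat_lit 226) (nat_lit 227) = true := by decide +kernel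
def p15_30_2_227 : pfC (piC [(nat_lit 35404596), (nat_lit 23859669), (nat_lit 17778567), (nat_lit 12006452)] (nat_lit 6891553)) p15_30_2 (nat_lit 4) (nat_lit 227) (nat_lit 228) = true := by decide +kernel
def p15_30_2_228 : pfC (piC [(nat_lit 35404596), (nat_lit 23859669), (nat_lit 17778567), (nat_lit 12006452)] (nat_lit 6891553)) p15_30_2 (nat_lit 4) (nat_lit 228) (nat_lit 229) = true := by decide +kernel
def p15_30_2_229 : pfC (piC [(nat_lit 35404596), (nat_lit 23859669), (nat_lit 17778567), (nat_lit 12006452)] (nat_lit 6891553)) p15_30_2 (nat_lit 4) (nat_lit 229) (nat_lit 230) = true := by decide +kernel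
def p15_30_2_230 : pfC (piC [(nat_lit 35404596), (nat_lit 23859669), (nat_lit 17778567), (nat_lit 12006452)] (nat_lit 6891553)) p15_30_2 (nat_lit 4) (nat_lit 230) (nat_lit 231) = true := by decide +kernel
def p15_30_2_231 : pfC (piC [(nat_lit 35404596), (nat_lit 23859669), (nat_lit 17778567), (nat_lit 12006452)] (nat_lit 6891553)) p15_30_2 (nat_lit 4) (nat_lit 231) (nat_lit 232) = true := by decide +kernel
def p15_30_2_232 : pfC (piC [(nat_lit 35404596), (nat_lit 23859669), (nat_lit 17778567), (nat_lit 12006452)] (nat_lit 6891553)) p15_30_2 (nat_lit 4) (nat_lit 232) (nat_lit 233) = true := by decide +kernel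
def p15_30_2_233 : pfC (piC [(nat_lit 35404596), (nat_lit 23859669), (nat_lit 17778567), (nat_lit 12006452)] (nat_lit 6891553)) p15_30_2 (nat_lit 4) (nat_lit 233) (nat_lit 234) = true := by decide +kernel
def p15_30_2_234 : pfC (piC [(nat_lit 35404596), (nat_lit 23859669), (nat_lit 17778567), (nat_lit 12006452)] (nat_lit 6891553)) p15_30_2 (nat_lit 4) (nat_lit 234) (nat_lit 235) = true := by decide +kernel
def p15_30_2_235 : pfC (piC [(nat_lit 35404596), (nat_lit 23859669), (nat_lit 17778567), (nat_lit 12006452)] (nat_lit 6891553)) p15_30_2 (nat_lit 4) (nat_lit 235) (nat_lit 236) = true := by decide +kernel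
def p15_30_2_236 : pfC (piC [(nat_lit 35404596), (nat_lit 23859669), (nat_lit 17778567), (nat_lit 12006452)] (nat_lit 6891553)) p15_30_2 (nat_lit 4) (nat_lit 236) (nat_lit 237) = true := by decide +kernel
def p15_30_2_237 : pfC (piC [(nat_lit 35404596), (nat_lit 23859669), (nat_lit 17778567), (nat_lit 12006452)] (nat_lit 6891553)) p15_30_2 (nat_lit 4) (nat_lit 237) (nat_lit 238) = true := by decide +kernel
def p15_30_2_238 : pfC (piC [(nat_lit 35404596), (nat_lit 23859669), (nat_lit 17778567), (nat_lit 12006452)] (nat_lit 6891553)) p15_30_2 (nat_lit 4) (nat_lit 238) (nat_lit 239) = true := by decide +kernel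
theorem p15_30_2_T : PfS (PiF n15_30.reverse (nat_lit 6891553)) p15_30_2 (nat_lit 4) [] 0 :=
  pftab_of (los := [(nat_lit 35404596), (nat_lit 23859669), (nat_lit 17778567), (nat_lit 12006452)]) (by decide +kernel) (hi := (nat_lit 239)) (PfP.trans (PfP.trans (PfP.trans (PfP.trans (PfP.trans (PfP.trans (PfP.trans (PfP.trans (PfP.trans (PfP.trans (PfP.trans (PfP.trans (PfP.trans (PfP.trans (PfP.trans (PfP.trans (PfP.trans (PfP.trans (PfP.trans (PfP.trans (PfP.trans (PfP.trans (PfP.trans (PfP.trans (PfP.trans (PfP.trans (PfP.trans (PfP.trans (PfP.trans (PfP.trans (PfP.trans (PfP.trans (PfP.trans (PfP.trans (PfP.trans (PfP.trans (PfP.trans (PfP.trans (PfP.trans (PfP.trans (PfP.trans (PfP.trans (PfP.trans (PfP.trans (PfP.trans (PfP.trans (PfP.trans (PfP.trans (PfP.trans (PfP.trans (PfP.trans (PfP.trans (PfP.trans (PfP.trans (PfP.trans (PfP.trans (PfP.trans (PfP.trans (PfP.trans (PfP.trans (PfP.trans (PfP.trans (PfP.trans (PfP.trans (PfP.trans (PfP.trans (PfP.trans (PfP.trans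 (PfP.trans (PfP.trans (PfP.trans (PfP.trans (PfP.trans (PfP.trans (PfP.trans (PfP.trans (PfP.trans (PfP.trans (PfP.trans (PfP.trans (PfP.trans (PfP.trans (PfP.trans (PfP.trans (PfP.trans (PfP.trans (PfP.trans (PfP.trans (PfP.trans (PfP.trans (PfP.trans (PfP.trans (PfP.trans (PfP.trans (PfP.trans (PfP.trans (PfP.trans (PfP.trans (PfP.trans (PfP.trans (PfP.trans (PfP.trans (PfP.trans (PfP.trans (PfP.trans (PfP.trans (PfP.trans (PfP.trans (PfP.trans
 (PfP.trans (PfP.trans (PfP.trans (PfP.trans (PfP.trans (PfP.trans (PfP.trans (PfP.trans (PfP.trans (PfP.trans (PfP.trans (PfP.trans (PfP.trans (PfP.trans (PfP.trans (PfP.trans (PfP.trans (PfP.trans (PfP.trans (PfP.trans (PfP.trans (PfP.trans (PfP.trans (PfP.trans (PfP.trans (PfP.trans (PfP.trans (PfP.trans (PfP.trans (PfP.trans (PfP.trans (PfP.trans (PfP.trans (PfP.trans (PfP.trans (PfP.trans (PfP.trans (PfP.trans (PfP.trans (PfP.trans (PfP.trans (PfP.trans (PfP.trans (PfP.trans (PfP.trans (PfP.trans (PfP.trans (PfP.trans (PfP.trans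 (PfP.trans (PfP.trans (PfP.trans (PfP.trans (PfP.trans (PfP.trans (PfP.trans (PfP.trans (PfP.trans (PfP.trans (PfP.trans (PfP.trans (PfP.trans (PfP.trans (PfP.trans (PfP.trans (PfP.trans (PfP.trans (PfP.trans (PfP.trans (PfP.trans (PfP.trans (PfP.trans (PfP.trans (PfP.trans (PfP.trans (PfP.trans (PfP.trans (PfP.trans (PfP.trans (PfP.trans (PfP.trans (PfP.trans (PfP.trans (PfP.trans (PfP.trans (PfP.trans (PfP.trans (PfP.trans (PfP.trans (PfP.trans (PfP.trans (PfP.trans (PfP.trans (PfP.trans (PfP.trans (PfP.trans (PfP.trans (PfP.trans (PfP.trans (PfP.trans (PfP.trans (PfP.trans (PfP.trans (PfP.trans (PfP.trans (PfP.trans (PfP.trans (PfP.trans (PfP.trans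
 (PfP.trans (PfP.trans (PfP.trans (PfP.trans (PfP.trans (PfP.trans (PfP.trans (PfP.trans (PfP.trans (PfP.trans (PfP.trans (PfP.trans (PfP.trans (PfP.trans (PfP.trans (PfP.trans (PfP.trans (PfP.trans (PfP.trans (PfP.trans (pfC_sound p15_30_2_0) (pfC_sound p15_30_2_1)) (pfC_sound p15_30_2_2)) (pfC_sound p15_30_2_3)) (pfC_sound p15_30_2_4)) (pfC_sound p15_30_2_5)) (pfC_sound p15_30_2_6)) (pfC_sound p15_30_2_7)) (pfC_sound p15_30_2_8)) (pfC_sound p15_30_2_9)) (pfC_sound p15_30_2_10)) (pfC_sound p15_30_2_11)) (pfC_sound p15_30_2_12)) (pfC_sound p15_30_2_13)) (pfC_sound p15_30_2_14)) (pfC_sound p15_30_2_15)) (pfC_sound p15_30_2_16)) (pfC_sound p15_30_2_17)) (pfC_sound p15_30_2_18)) (pfC_sound p15_30_2_19)) (pfC_sound p15_30_2_20)) (pfC_sound p15_30_2_21)) (pfC_sound p15_30_2_22)) (pfC_sound p15_30_2_23)) (pfC_sound p15_30_2_24)) (pfC_sound p15_30_2_25)) (pfC_sound p15_30_2_26)) (pfC_sound p15_30_2_27)) (pfC_sound p15_30_2_28)) (pfC_sound p15_30_2_29)) (pfC_sound p15_30_2_30))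 (pfC_sound p15_30_2_31)) (pfC_sound p15_30_2_32)) (pfC_sound p15_30_2_33)) (pfC_sound p15_30_2_34)) (pfC_sound p15_30_2_35)) (pfC_sound p15_30_2_36)) (pfC_sound p15_30_2_37)) (pfC_sound p15_30_2_38)) (pfC_sound
 p15_30_2_39)) (pfC_sound p15_30_2_40)) (pfC_sound p15_30_2_41)) (pfC_sound p15_30_2_42)) (pfC_sound p15_30_2_43)) (pfC_sound p15_30_2_44)) (pfC_sound p15_30_2_45)) (pfC_sound p15_30_2_46)) (pfC_sound p15_30_2_47)) (pfC_sound p15_30_2_48)) (pfC_sound p15_30_2_49)) (pfC_sound p15_30_2_50)) (pfC_sound p15_30_2_51)) (pfC_sound p15_30_2_52)) (pfC_sound p15_30_2_53)) (pfC_sound p15_30_2_54)) (pfC_sound p15_30_2_55)) (pfC_sound p15_30_2_56)) (pfC_sound p15_30_2_57)) (pfC_sound p15_30_2_58)) (pfC_sound p15_30_2_59)) (pfC_sound p15_30_2_60)) (pfC_sound p15_30_2_61)) (pfC_sound p15_30_2_62)) (pfC_sound p15_30_2_63)) (pfC_sound p15_30_2_64)) (pfC_sound p15_30_2_65)) (pfC_sound p15_30_2_66)) (pfC_sound p15_30_2_67)) (pfC_sound p15_30_2_68)) (pfC_sound p15_30_2_69)) (pfC_sound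 p15_30_2_70)) (pfC_sound p15_30_2_71)) (pfC_sound p15_30_2_72)) (pfC_sound p15_30_2_73)) (pfC_sound p15_30_2_74)) (pfC_sound p15_30_2_75)) (pfC_sound p15_30_2_76)) (pfC_sound p15_30_2_77)) (pfC_sound p15_30_2_78)) (pfC_sound p15_30_2_79)) (pfC_sound p15_30_2_80)) (pfC_sound p15_30_2_81)) (pfC_sound p15_30_2_82)) (pfC_sound p15_30_2_83)) (pfC_sound p15_30_2_84)) (pfC_sound p15_30_2_85)) (pfC_sound p15_30_2_86)) (pfC_sound
 p15_30_2_87)) (pfC_sound p15_30_2_88)) (pfC_sound p15_30_2_89)) (pfC_sound p15_30_2_90)) (pfC_sound p15_30_2_91)) (pfC_sound p15_30_2_92)) (pfC_sound p15_30_2_93)) (pfC_sound p15_30_2_94)) (pfC_sound p15_30_2_95)) (pfC_sound p15_30_2_96)) (pfC_sound p15_30_2_97)) (pfC_sound p15_30_2_98)) (pfC_sound p15_30_2_99)) (pfC_sound p15_30_2_100)) (pfC_sound p15_30_2_101)) (pfC_sound p15_30_2_102)) (pfC_sound p15_30_2_103)) (pfC_sound p15_30_2_104)) (pfC_sound p15_30_2_105)) (pfC_sound p15_30_2_106)) (pfC_sound p15_30_2_107)) (pfC_sound p15_30_2_108)) (pfC_sound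 p15_30_2_109)) (pfC_sound p15_30_2_110)) (pfC_sound p15_30_2_111)) (pfC_sound p15_30_2_112)) (pfC_sound p15_30_2_113)) (pfC_sound p15_30_2_114)) (pfC_sound p15_30_2_115)) (pfC_sound p15_30_2_116)) (pfC_sound p15_30_2_117)) (pfC_sound p15_30_2_118)) (pfC_sound p15_30_2_119)) (pfC_sound p15_30_2_120)) (pfC_sound p15_30_2_121)) (pfC_sound p15_30_2_122)) (pfC_sound p15_30_2_123)) (pfC_sound p15_30_2_124)) (pfC_sound p15_30_2_125)) (pfC_sound p15_30_2_126)) (pfC_sound p15_30_2_127)) (pfC_sound p15_30_2_128)) (pfC_sound p15_30_2_129)) (pfC_sound p15_30_2_130)) (pfC_sound p15_30_2_131)) (pfC_sound p15_30_2_132)) (pfC_sound p15_30_2_133))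
 (pfC_sound p15_30_2_134)) (pfC_sound p15_30_2_135)) (pfC_sound p15_30_2_136)) (pfC_sound p15_30_2_137)) (pfC_sound p15_30_2_138)) (pfC_sound p15_30_2_139)) (pfC_sound p15_30_2_140)) (pfC_sound p15_30_2_141)) (pfC_sound p15_30_2_142)) (pfC_sound p15_30_2_143)) (pfC_sound p15_30_2_144)) (pfC_sound p15_30_2_145)) (pfC_sound p15_30_2_146)) (pfC_sound p15_30_2_147)) (pfC_sound p15_30_2_148)) (pfC_sound p15_30_2_149)) (pfC_sound p15_30_2_150)) (pfC_sound p15_30_2_151)) (pfC_sound p15_30_2_152)) (pfC_sound p15_30_2_153)) (pfC_sound p15_30_2_154)) (pfC_sound p15_30_2_155)) (pfC_sound p15_30_2_156)) (pfC_sound p15_30_2_157)) (pfC_sound p15_30_2_158)) (pfC_sound p15_30_2_159)) (pfC_sound p15_30_2_160)) (pfC_sound p15_30_2_161)) (pfC_sound p15_30_2_162)) (pfC_sound p15_30_2_163)) (pfC_sound p15_30_2_164)) (pfC_sound p15_30_2_165)) (pfC_sound p15_30_2_166)) (pfC_sound p15_30_2_167)) (pfC_sound p15_30_2_168)) (pfC_sound p15_30_2_169)) (pfC_sound p15_30_2_170)) (pfC_sound p15_30_2_171))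 (pfC_sound p15_30_2_172)) (pfC_sound p15_30_2_173)) (pfC_sound p15_30_2_174)) (pfC_sound p15_30_2_175)) (pfC_sound p15_30_2_176)) (pfC_sound p15_30_2_177)) (pfC_sound p15_30_2_178)) (pfC_sound p15_30_2_179))
 (pfC_sound p15_30_2_180)) (pfC_sound p15_30_2_181)) (pfC_sound p15_30_2_182)) (pfC_sound p15_30_2_183)) (pfC_sound p15_30_2_184)) (pfC_sound p15_30_2_185)) (pfC_sound p15_30_2_186)) (pfC_sound p15_30_2_187)) (pfC_sound p15_30_2_188)) (pfC_sound p15_30_2_189)) (pfC_sound p15_30_2_190)) (pfC_sound p15_30_2_191)) (pfC_sound p15_30_2_192)) (pfC_sound p15_30_2_193)) (pfC_sound p15_30_2_194)) (pfC_sound p15_30_2_195)) (pfC_sound p15_30_2_196)) (pfC_sound p15_30_2_197)) (pfC_sound p15_30_2_198)) (pfC_sound p15_30_2_199)) (pfC_sound p15_30_2_200)) (pfC_sound p15_30_2_201)) (pfC_sound p15_30_2_202)) (pfC_sound p15_30_2_203)) (pfC_sound p15_30_2_204)) (pfC_sound p15_30_2_205)) (pfC_sound p15_30_2_206)) (pfC_sound p15_30_2_207)) (pfC_sound p15_30_2_208)) (pfC_sound p15_30_2_209))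 (pfC_sound p15_30_2_210)) (pfC_sound p15_30_2_211)) (pfC_sound p15_30_2_212)) (pfC_sound p15_30_2_213)) (pfC_sound p15_30_2_214)) (pfC_sound p15_30_2_215)) (pfC_sound p15_30_2_216)) (pfC_sound p15_30_2_217)) (pfC_sound p15_30_2_218)) (pfC_sound p15_30_2_219)) (pfC_sound p15_30_2_220)) (pfC_sound p15_30_2_221)) (pfC_sound p15_30_2_222)) (pfC_sound p15_30_2_223)) (pfC_sound p15_30_2_224)) (pfC_sound p15_30_2_225))
 (pfC_sound p15_30_2_226)) (pfC_sound p15_30_2_227)) (pfC_sound p15_30_2_228)) (pfC_sound p15_30_2_229)) (pfC_sound p15_30_2_230)) (pfC_sound p15_30_2_231)) (pfC_sound p15_30_2_232)) (pfC_sound p15_30_2_233)) (pfC_sound p15_30_2_234)) (pfC_sound p15_30_2_235)) (pfC_sound p15_30_2_236)) (pfC_sound p15_30_2_237)) (pfC_sound p15_30_2_238)) (by decide +kernel)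

def z15_30_2 : zOK yB15_30 (nat_lit 2) (nat_lit 600) (nat_lit 750) (nat_lit 6891553) (nat_lit 5058382) = true := by decide +kernel
def g15_30_2 : gOK yB15_30.x P15_30 (nat_lit 1401) (q15_30 :: r15_30) (nat_lit 2) (nat_lit 600) (nat_lit 3) (nat_lit 750) (nat_lit 12712500) (nat_lit 12712500) (nat_lit 12712500) (nat_lit 12712500) [(nat_lit 800), (nat_lit 1600)] = true := by decide +kernel
def v15_30_2 : ivC P15_30 s15_30 w15_30 n15_30 (nat_lit 4) (nat_lit 4735) (nat_lit 2) (nat_lit 600) f168_1_600 f176_1_600 (nat_lit 3) (nat_lit 750) f168_1_750 f176_1_750 (nat_lit 6891553) (nat_lit 5058382) p15_30_2 = true := by decide +kernel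
def p15_30_3 : PF := (PF.cons (PF.cons (PF.cons (PF.cons (PF.leaf (nat_lit 2925224) (nat_lit 18240456) (nat_lit 48868356) (nat_lit 18240456) [(nat_lit 0), (nat_lit 0), (nat_lit 0), (nat_lit 0)]) (PF.cons (PF.leaf (nat_lit 3144792) (nat_lit 413813) (nat_lit 48505351) (nat_lit 18189648) [(nat_lit 413813), (nat_lit 0), (nat_lit 0), (nat_lit 0)]) (PF.cons (PF.leaf (nat_lit 3401952) (nat_lit 448433) (nat_lit 48083662) (nat_lit 18128283) [(nat_lit 448433), (nat_lit 0), (nat_lit 0), (nat_lit 0)]) (PF.cons (PF.leaf (nat_lit 3688964) (nat_lit 478557) (nat_lit 47615796) (nat_lit 18057344) [(nat_lit 478557), (nat_lit 0), (nat_lit 0), (nat_lit 0)]) (PF.cons (PF.leaf (nat_lit 4000739) (nat_lit 505132) (nat_lit 47110785) (nat_lit 17977499) [(nat_lit 505132), (nat_lit 0), (nat_lit 0), (nat_lit 0)]) (PF.cons (PF.leaf (nat_lit 4333351) (nat_lit 528771) (nat_lit 46575671) (nat_lit 17889282) [(nat_lit 528771), (nat_lit 0), (nat_lit 0), (nat_lit 0)]) (PF.cons (PF.leaf (nat_lit 4683566) (nat_lit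 549906) (nat_lit 46016200) (nat_lit 17793176) [(nat_lit 549906), (nat_lit 0), (nat_lit 0), (nat_lit 0)]) (PF.cons (PF.leaf (nat_lit 5048664) (nat_lit 568853) (nat_lit 45437195) (nat_lit 17689645) [(nat_lit 568853), (nat_lit 0),
 (nat_lit 0), (nat_lit 0)]) (PF.cons (PF.leaf (nat_lit 5426278) (nat_lit 585859) (nat_lit 44842778) (nat_lit 17579157) [(nat_lit 585859), (nat_lit 0), (nat_lit 0), (nat_lit 0)]) (PF.cons (PF.leaf (nat_lit 5814348) (nat_lit 601124) (nat_lit 44236512) (nat_lit 17462181) [(nat_lit 601124), (nat_lit 0), (nat_lit 0), (nat_lit 0)]) (PF.cons (PF.leaf (nat_lit 6211029) (nat_lit 614811) (nat_lit 43621503) (nat_lit 17339197) [(nat_lit 614811), (nat_lit 0), (nat_lit 0), (nat_lit 0)]) (PF.cons PF.nil (PF.cons PF.nil (PF.cons PF.nil PF.nil)))))))))))))) (PF.cons (PF.cons (PF.leaf (nat_lit 3544279) (nat_lit 1546980) (nat_lit 47523674) (nat_lit 18038157) [(nat_lit 0), (nat_lit 1546980), (nat_lit 0), (nat_lit 0)]) (PF.cons (PF.leaf (nat_lit 3818975) (nat_lit 485087)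 (nat_lit 47069748) (nat_lit 17965943) [(nat_lit 485087), (nat_lit 1588032), (nat_lit 0), (nat_lit 0)]) (PF.cons (PF.leaf (nat_lit 4120938) (nat_lit 510942) (nat_lit 46575914) (nat_lit 17884368) [(nat_lit 510942), (nat_lit 1626644), (nat_lit 0), (nat_lit 0)]) (PF.cons (PF.leaf (nat_lit 4444970) (nat_lit 533857) (nat_lit 46050646) (nat_lit 17794235) [(nat_lit 533857), (nat_lit 1662359), (nat_lit 0), (nat_lit 0)]) (PF.cons (PF.leaf
 (nat_lit 4787392) (nat_lit 554295) (nat_lit 45500415) (nat_lit 17696180) [(nat_lit 554295), (nat_lit 1695033), (nat_lit 0), (nat_lit 0)]) (PF.cons (PF.leaf (nat_lit 5145219) (nat_lit 572589) (nat_lit 44930426) (nat_lit 17590766) [(nat_lit 572589), (nat_lit 1724674), (nat_lit 0), (nat_lit 0)]) (PF.cons (PF.leaf (nat_lit 5515943) (nat_lit 588986) (nat_lit 44345006) (nat_lit 17478520) [(nat_lit 588986), (nat_lit 1751365), (nat_lit 0), (nat_lit 0)]) (PF.cons (PF.leaf (nat_lit 5897407) (nat_lit 603687) (nat_lit 43747823) (nat_lit 17359952) [(nat_lit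 603687), (nat_lit 1775225), (nat_lit 0), (nat_lit 0)]) (PF.cons (PF.leaf (nat_lit 6287706) (nat_lit 616853) (nat_lit 43142026) (nat_lit 17235566) [(nat_lit 616853), (nat_lit 1796393), (nat_lit 0), (nat_lit 0)]) (PF.cons (PF.leaf (nat_lit 6685172) (nat_lit 628622) (nat_lit 42530339) (nat_lit 17105857) [(nat_lit 628622), (nat_lit 1815015), (nat_lit 0), (nat_lit 0)]) (PF.cons PF.nil (PF.cons PF.nil PF.nil)))))))))))) (PF.cons (PF.cons (PF.leaf (nat_lit 4245061) (nat_lit 1646086) (nat_lit 46030745) (nat_lit 17785893) [(nat_lit 0), (nat_lit 1646086), (nat_lit 0), (nat_lit 0)]) (PF.cons (PF.leaf (nat_lit 4558528) (nat_lit 537872) (nat_lit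
 45519254) (nat_lit 17694731) [(nat_lit 537872), (nat_lit 1678477), (nat_lit 0), (nat_lit 0)]) (PF.cons (PF.leaf (nat_lit 4892078) (nat_lit 557817) (nat_lit 44981033) (nat_lit 17595423) [(nat_lit 557817), (nat_lit 1708360), (nat_lit 0), (nat_lit 0)]) (PF.cons (PF.leaf (nat_lit 5241910) (nat_lit 575602) (nat_lit 44422096) (nat_lit 17488695) [(nat_lit 575602), (nat_lit 1735607), (nat_lit 0), (nat_lit 0)]) (PF.cons (PF.leaf (nat_lit 5605235) (nat_lit 591501) (nat_lit 43847211) (nat_lit 17375173) [(nat_lit 591501), (nat_lit 1760211), (nat_lit 0), (nat_lit 0)]) (PF.cons (PF.leaf (nat_lit 5979713) (nat_lit 605723) (nat_lit 43260292) (nat_lit 17255431) [(nat_lit 605723), (nat_lit 1782234), (nat_lit 0), (nat_lit 0)]) (PF.cons (PF.leaf (nat_lit 6363380) (nat_lit 618438) (nat_lit 42664627) (nat_lit 17130010) [(nat_lit 618438), (nat_lit 1801772), (nat_lit 0), (nat_lit 0)]) (PF.cons (PF.leaf (nat_lit 6754459) (nat_lit 629784) (nat_lit 42063015) (nat_lit 16999428) [(nat_lit 629784),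 (nat_lit 1818939), (nat_lit 0), (nat_lit 0)]) (PF.cons PF.nil (PF.cons PF.nil PF.nil)))))))))) (PF.cons (PF.cons (PF.leaf (nat_lit 4999190) (nat_lit 1720425) (nat_lit 44456849) (nat_lit 17490686) [(nat_lit 0),
 (nat_lit 1720425), (nat_lit 0), (nat_lit 0)]) (PF.cons (PF.leaf (nat_lit 5339671) (nat_lit 577871) (nat_lit 43911436) (nat_lit 17383320) [(nat_lit 577871), (nat_lit 1745394), (nat_lit 0), (nat_lit 0)]) (PF.cons (PF.leaf (nat_lit 5694867) (nat_lit 593393) (nat_lit 43348877) (nat_lit 17269071) [(nat_lit 593393), (nat_lit 1768025), (nat_lit 0), (nat_lit 0)]) (PF.cons (PF.leaf (nat_lit 6061881) (nat_lit 607231) (nat_lit 42773560) (nat_lit 17148611) [(nat_lit 607231), (nat_lit 1788315), (nat_lit 0), (nat_lit 0)]) (PF.cons (PF.leaf (nat_lit 6438543) (nat_lit 619567) (nat_lit 42189043) (nat_lit 17022545) [(nat_lit 619567), (nat_lit 1806317), (nat_lit 0), (nat_lit 0)]) (PF.cons (PF.leaf (nat_lit 6822997) (nat_lit 630550) (nat_lit 41598286) (nat_lit 16891430) [(nat_lit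 630550), (nat_lit 1822114), (nat_lit 0), (nat_lit 0)]) (PF.cons (PF.leaf (nat_lit 7213673) (nat_lit 640302) (nat_lit 41003785) (nat_lit 16755788) [(nat_lit 640302), (nat_lit 1835808), (nat_lit 0), (nat_lit 0)]) (PF.cons PF.nil (PF.cons PF.nil PF.nil))))))))) (PF.cons (PF.cons (PF.leaf (nat_lit 5786000) (nat_lit 1774887) (nat_lit 42849181) (nat_lit 17160082) [(nat_lit 0), (nat_lit 1774887), (nat_lit 0), (nat_lit 0)]) (PF.cons
 (PF.leaf (nat_lit 6144585) (nat_lit 608195) (nat_lit 42287062) (nat_lit 17039428) [(nat_lit 608195), (nat_lit 1793531), (nat_lit 0), (nat_lit 0)]) (PF.cons (PF.leaf (nat_lit 6513754) (nat_lit 620234) (nat_lit 41714870) (nat_lit 16913148) [(nat_lit 620234), (nat_lit 1810081), (nat_lit 0), (nat_lit 0)]) (PF.cons (PF.leaf (nat_lit 6891247) (nat_lit 630917) (nat_lit 41135849) (nat_lit 16781863) [(nat_lit 630917), (nat_lit 1824586), (nat_lit 0), (nat_lit 0)]) (PF.cons (PF.leaf (nat_lit 7275346) (nat_lit 640377) (nat_lit 40552670) (nat_lit 16646134) [(nat_lit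 640377), (nat_lit 1837124), (nat_lit 0), (nat_lit 0)]) (PF.cons PF.nil (PF.cons PF.nil PF.nil))))))) (PF.cons (PF.cons (PF.leaf (nat_lit 6589903) (nat_lit 1813111) (nat_lit 41241512) (nat_lit 16801741) [(nat_lit 0), (nat_lit 1813111), (nat_lit 0), (nat_lit 0)]) (PF.cons (PF.leaf (nat_lit 6959721) (nat_lit 630877) (nat_lit 40675271) (nat_lit 16670691) [(nat_lit 630877), (nat_lit 1826394), (nat_lit 0), (nat_lit 0)]) (PF.cons (PF.leaf (nat_lit 7336912) (nat_lit 640101) (nat_lit 40104184) (nat_lit 16535212) [(nat_lit 640101), (nat_lit 1837842), (nat_lit 0), (nat_lit 0)]) (PF.cons (PF.leaf (nat_lit 7719662) (nat_lit 648213) (nat_lit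
 39530666) (nat_lit 16395862) [(nat_lit 648213), (nat_lit 1847528), (nat_lit 0), (nat_lit 0)]) (PF.cons PF.nil PF.nil))))) (PF.cons (PF.cons (PF.leaf (nat_lit 7399072) (nat_lit 1837993) (nat_lit 39657879) (nat_lit 16422971) [(nat_lit 0), (nat_lit 1837993), (nat_lit 0), (nat_lit 0)]) (PF.cons (PF.leaf (nat_lit 7774811) (nat_lit 647392) (nat_lit 39096627) (nat_lit 16284237) [(nat_lit 647392), (nat_lit 1846759), (nat_lit 0), (nat_lit 0)]) (PF.cons PF.nil (PF.cons PF.nil PF.nil)))) (PF.cons (PF.cons (PF.leaf (nat_lit 8204590) (nat_lit 1851911) (nat_lit 38115028) (nat_lit 16030405) [(nat_lit 0), (nat_lit 1851911), (nat_lit 0), (nat_lit 0)]) (PF.cons PF.nil PF.nil)) (PF.cons PF.nil PF.nil))))))))) (PF.cons (PF.cons (PF.cons (PF.leaf (nat_lit 4086913) (nat_lit 3730901) (nat_lit 45676120) (nat_lit 17701790) [(nat_lit 0), (nat_lit 0), (nat_lit 3730901), (nat_lit 0)]) (PF.cons (PF.leaf (nat_lit 4369197) (nat_lit 510564) (nat_lit 45218775) (nat_lit 17618964) [(nat_lit 510564), (nat_lit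 0), (nat_lit 3760507), (nat_lit 0)]) (PF.cons (PF.leaf (nat_lit 4676832) (nat_lit 533992) (nat_lit 44725479) (nat_lit 17526840) [(nat_lit 533992), (nat_lit 0), (nat_lit 3788508), (nat_lit 0)]) (PF.cons (PF.leaf
 (nat_lit 5004558) (nat_lit 554472) (nat_lit 44204726) (nat_lit 17426511) [(nat_lit 554472), (nat_lit 0), (nat_lit 3814155), (nat_lit 0)]) (PF.cons (PF.leaf (nat_lit 5348746) (nat_lit 572536) (nat_lit 43662821) (nat_lit 17318818) [(nat_lit 572536), (nat_lit 0), (nat_lit 3837028), (nat_lit 0)]) (PF.cons (PF.leaf (nat_lit 5706517) (nat_lit 588547) (nat_lit 43104706) (nat_lit 17204459) [(nat_lit 588547), (nat_lit 0), (nat_lit 3856911), (nat_lit 0)]) (PF.cons (PF.leaf (nat_lit 6075485) (nat_lit 602772) (nat_lit 42534400) (nat_lit 17084058) [(nat_lit 602772), (nat_lit 0), (nat_lit 3873716), (nat_lit 0)]) (PF.cons (PF.leaf (nat_lit 6453618) (nat_lit 615419) (nat_lit 41955242) (nat_lit 16958187) [(nat_lit 615419), (nat_lit 0), (nat_lit 3887443), (nat_lit 0)]) (PF.cons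 (PF.leaf (nat_lit 6839190) (nat_lit 626653) (nat_lit 41370052) (nat_lit 16827382) [(nat_lit 626653), (nat_lit 0), (nat_lit 3898147), (nat_lit 0)]) (PF.cons PF.nil PF.nil)))))))))) (PF.cons (PF.cons (PF.leaf (nat_lit 4792690) (nat_lit 1690896) (nat_lit 44195023) (nat_lit 17419982) [(nat_lit 0), (nat_lit 1690896), (nat_lit 3802909), (nat_lit 0)]) (PF.cons (PF.leaf (nat_lit 5109319) (nat_lit 556484) (nat_lit 43690198) (nat_lit
 17319730) [(nat_lit 556484), (nat_lit 1717373), (nat_lit 3825024), (nat_lit 0)]) (PF.cons (PF.leaf (nat_lit 5444269) (nat_lit 574290) (nat_lit 43162090) (nat_lit 17211801) [(nat_lit 574290), (nat_lit 1741554), (nat_lit 3844784), (nat_lit 0)]) (PF.cons (PF.leaf (nat_lit 5793808) (nat_lit 589990) (nat_lit 42616499) (nat_lit 17097078) [(nat_lit 589990), (nat_lit 1763368), (nat_lit 3861893), (nat_lit 0)]) (PF.cons (PF.leaf (nat_lit 6155253) (nat_lit 603886) (nat_lit 42057922) (nat_lit 16976289) [(nat_lit 603886), (nat_lit 1782840), (nat_lit 3876215),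 (nat_lit 0)]) (PF.cons (PF.leaf (nat_lit 6526394) (nat_lit 616201) (nat_lit 41489979) (nat_lit 16850071) [(nat_lit 616201), (nat_lit 1800041), (nat_lit 3887710), (nat_lit 0)]) (PF.cons (PF.leaf (nat_lit 6905365) (nat_lit 627112) (nat_lit 40915660) (nat_lit 16719002) [(nat_lit 627112), (nat_lit 1815069), (nat_lit 3896405), (nat_lit 0)]) (PF.cons (PF.leaf (nat_lit 7290557) (nat_lit 636760) (nat_lit 40337467) (nat_lit 16583616) [(nat_lit 636760), (nat_lit 1828033), (nat_lit 3902370), (nat_lit 0)]) (PF.cons PF.nil PF.nil))))))))) (PF.cons (PF.cons (PF.leaf (nat_lit 5542573) (nat_lit 1749306) (nat_lit 42657939) (nat_lit 17101435) [(nat_lit 0),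
 (nat_lit 1749306), (nat_lit 3850826), (nat_lit 0)]) (PF.cons (PF.leaf (nat_lit 5882553) (nat_lit 590785) (nat_lit 42127052) (nat_lit 16986994) [(nat_lit 590785), (nat_lit 1769328), (nat_lit 3865323), (nat_lit 0)]) (PF.cons (PF.leaf (nat_lit 6235747) (nat_lit 604462) (nat_lit 41581756) (nat_lit 16866328) [(nat_lit 604462), (nat_lit 1787244), (nat_lit 3877314), (nat_lit 0)]) (PF.cons (PF.leaf (nat_lit 6599387) (nat_lit 616529) (nat_lit 41026167) (nat_lit 16740183) [(nat_lit 616529), (nat_lit 1803076), (nat_lit 3886719), (nat_lit 0)]) (PF.cons (PF.leaf (nat_lit 6971404) (nat_lit 627182) (nat_lit 40463565) (nat_lit 16609202) [(nat_lit 627182), (nat_lit 1816889), (nat_lit 3893535), (nat_lit 0)]) (PF.cons (PF.leaf (nat_lit 7350071) (nat_lit 636573) (nat_lit 39896635) (nat_lit 16473959) [(nat_lit 636573), (nat_lit 1828769), (nat_lit 3897809), (nat_lit 0)]) (PF.cons PF.nil PF.nil))))))) (PF.cons (PF.cons (PF.leaf (nat_lit 6318069) (nat_lit 1790891) (nat_lit 41105035) (nat_lit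 16754020) [(nat_lit 0), (nat_lit 1790891), (nat_lit 3877081), (nat_lit 0)]) (PF.cons (PF.leaf (nat_lit 6673262) (nat_lit 616382) (nat_lit 40563196) (nat_lit 16628432) [(nat_lit 616382), (nat_lit 1805423), (nat_lit
 3884530), (nat_lit 0)]) (PF.cons (PF.leaf (nat_lit 7037830) (nat_lit 626851) (nat_lit 40013323) (nat_lit 16497931) [(nat_lit 626851), (nat_lit 1818087), (nat_lit 3889591), (nat_lit 0)]) (PF.cons (PF.leaf (nat_lit 7409629) (nat_lit 636044) (nat_lit 39458398) (nat_lit 16363157) [(nat_lit 636044), (nat_lit 1828945), (nat_lit 3892288), (nat_lit 0)]) (PF.cons (PF.leaf (nat_lit 7787052) (nat_lit 644097) (nat_lit 38900841) (nat_lit 16224674) [(nat_lit 644097), (nat_lit 1838074), (nat_lit 3892683), (nat_lit 0)]) PF.nil))))) (PF.cons (PF.cons (PF.leaf (nat_lit 7105488) (nat_lit 1818697) (nat_lit 39564314) (nat_lit 16385088) [(nat_lit 0), (nat_lit 1818697), (nat_lit 3884620), (nat_lit 0)]) (PF.cons (PF.leaf (nat_lit 7469721) (nat_lit 635157) (nat_lit 39022301) (nat_lit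 16251149) [(nat_lit 635157), (nat_lit 1828588), (nat_lit 3885850), (nat_lit 0)]) (PF.cons (PF.leaf (nat_lit 7840381) (nat_lit 643060) (nat_lit 38476872) (nat_lit 16113467) [(nat_lit 643060), (nat_lit 1836856), (nat_lit 3884927), (nat_lit 0)]) (PF.cons PF.nil PF.nil)))) (PF.cons (PF.cons (PF.leaf (nat_lit 7894583) (nat_lit 1835181) (nat_lit 38055236) (nat_lit 16001285) [(nat_lit 0), (nat_lit 1835181), (nat_lit 3876385),
 (nat_lit 0)]) (PF.cons (PF.leaf (nat_lit 8263139) (nat_lit 648464) (nat_lit 37520693) (nat_lit 15861491) [(nat_lit 648464), (nat_lit 1841175), (nat_lit 3872287), (nat_lit 0)]) PF.nil)) (PF.cons PF.nil (PF.cons PF.nil PF.nil)))))))) (PF.cons (PF.cons (PF.cons (PF.leaf (nat_lit 5323545) (nat_lit 3823360) (nat_lit 42427725) (nat_lit 17034365) [(nat_lit 0), (nat_lit 0), (nat_lit 3823360), (nat_lit 0)]) (PF.cons (PF.leaf (nat_lit 5641233) (nat_lit 570302) (nat_lit 41934594) (nat_lit 16927434) [(nat_lit 570302), (nat_lit 0), (nat_lit 3838241), (nat_lit 0)])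 (PF.cons (PF.leaf (nat_lit 5975722) (nat_lit 586262) (nat_lit 41421076) (nat_lit 16813340) [(nat_lit 586262), (nat_lit 0), (nat_lit 3850935), (nat_lit 0)]) (PF.cons (PF.leaf (nat_lit 6323363) (nat_lit 600176) (nat_lit 40892712) (nat_lit 16693073) [(nat_lit 600176), (nat_lit 0), (nat_lit 3861249), (nat_lit 0)]) (PF.cons (PF.leaf (nat_lit 6681557) (nat_lit 612363) (nat_lit 40353721) (nat_lit 16567427) [(nat_lit 612363), (nat_lit 0), (nat_lit 3869105), (nat_lit 0)]) (PF.cons (PF.leaf (nat_lit 7048218) (nat_lit 623058) (nat_lit 39807446) (nat_lit 16437072) [(nat_lit 623058), (nat_lit 0), (nat_lit 3874500), (nat_lit 0)]) (PF.cons (PF.leaf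
 (nat_lit 7421599) (nat_lit 632441) (nat_lit 39256602) (nat_lit 16302602) [(nat_lit 632441), (nat_lit 0), (nat_lit 3877479), (nat_lit 0)]) (PF.cons PF.nil (PF.cons PF.nil PF.nil))))))))) (PF.cons (PF.cons (PF.leaf (nat_lit 6065661) (nat_lit 1766919) (nat_lit 40939319) (nat_lit 16699608) [(nat_lit 0), (nat_lit 1766919), (nat_lit 3851482), (nat_lit 0)]) (PF.cons (PF.leaf (nat_lit 6403661) (nat_lit 599805) (nat_lit 40426235) (nat_lit 16580370) [(nat_lit 599805), (nat_lit 1782861), (nat_lit 3859770), (nat_lit 0)]) (PF.cons (PF.leaf (nat_lit 6753598) (nat_lit 611897) (nat_lit 39900960) (nat_lit 16455531) [(nat_lit 611897), (nat_lit 1796891), (nat_lit 3865817), (nat_lit 0)]) (PF.cons (PF.leaf (nat_lit 7112803) (nat_lit 622453) (nat_lit 39367341) (nat_lit 16325878) [(nat_lit 622453), (nat_lit 1809054), (nat_lit 3869589), (nat_lit 0)]) (PF.cons (PF.leaf (nat_lit 7479339) (nat_lit 631673) (nat_lit 38828399) (nat_lit 16192073) [(nat_lit 631673), (nat_lit 1819423), (nat_lit 3871111),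 (nat_lit 0)]) (PF.cons (PF.leaf (nat_lit 7851569) (nat_lit 639715) (nat_lit 38286572) (nat_lit 16054692) [(nat_lit 639715), (nat_lit 1828085), (nat_lit 3870443), (nat_lit 0)]) (PF.cons PF.nil PF.nil)))))))
 (PF.cons (PF.cons (PF.leaf (nat_lit 6827734) (nat_lit 1798008) (nat_lit 39448158) (nat_lit 16341723) [(nat_lit 0), (nat_lit 1798008), (nat_lit 3861456), (nat_lit 0)]) (PF.cons (PF.leaf (nat_lit 7178560) (nat_lit 621424) (nat_lit 38928437) (nat_lit 16213222) [(nat_lit 621424), (nat_lit 1809144), (nat_lit 3863720), (nat_lit 0)]) (PF.cons (PF.leaf (nat_lit 7537746) (nat_lit 630551) (nat_lit 38402280) (nat_lit 16080440) [(nat_lit 630551), (nat_lit 1818605), (nat_lit 3863889), (nat_lit 0)]) (PF.cons (PF.leaf (nat_lit 7903250) (nat_lit 638475) (nat_lit 37872431) (nat_lit 15944022) [(nat_lit 638475), (nat_lit 1826460), (nat_lit 3862005), (nat_lit 0)]) (PF.cons PF.nil PF.nil))))) (PF.cons (PF.cons (PF.leaf (nat_lit 7597649) (nat_lit 1817310) (nat_lit 37977620) (nat_lit 15967582)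 [(nat_lit 0), (nat_lit 1817310), (nat_lit 3855839), (nat_lit 0)]) (PF.cons (PF.leaf (nat_lit 7955737) (nat_lit 636919) (nat_lit 37460547) (nat_lit 15832463) [(nat_lit 636919), (nat_lit 1824404), (nat_lit 3852834), (nat_lit 0)]) (PF.cons (PF.leaf (nat_lit 8319470) (nat_lit 643698) (nat_lit 36941135) (nat_lit 15694185) [(nat_lit 643698), (nat_lit 1830055), (nat_lit 3847963), (nat_lit 0)]) (PF.cons PF.nil PF.nil))))
 (PF.cons (PF.cons (PF.leaf (nat_lit 8366477) (nat_lit 1826951) (nat_lit 36543551) (nat_lit 15583138) [(nat_lit 0), (nat_lit 1826951), (nat_lit 3837158), (nat_lit 0)]) (PF.cons PF.nil PF.nil)) (PF.cons PF.nil PF.nil)))))) (PF.cons (PF.cons (PF.cons (PF.leaf (nat_lit 6568459) (nat_lit 3837406) (nat_lit 39304865) (nat_lit 16291727) [(nat_lit 0), (nat_lit 0), (nat_lit 3837406), (nat_lit 0)]) (PF.cons (PF.leaf (nat_lit 6903344) (nat_lit 605670) (nat_lit 38811555) (nat_lit 16169571) [(nat_lit 605670), (nat_lit 0), (nat_lit 3840671), (nat_lit 0)]) (PF.cons (PF.leaf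 (nat_lit 7249109) (nat_lit 616394) (nat_lit 38307860) (nat_lit 16042388) [(nat_lit 616394), (nat_lit 0), (nat_lit 3841925), (nat_lit 0)]) (PF.cons (PF.leaf (nat_lit 7603149) (nat_lit 625650) (nat_lit 37797366) (nat_lit 15910986) [(nat_lit 625650), (nat_lit 0), (nat_lit 3841170), (nat_lit 0)]) (PF.cons (PF.leaf (nat_lit 7963615) (nat_lit 633645) (nat_lit 37282854) (nat_lit 15776029) [(nat_lit 633645), (nat_lit 0), (nat_lit 3838449), (nat_lit 0)]) (PF.cons PF.nil (PF.cons PF.nil PF.nil))))))) (PF.cons (PF.cons (PF.leaf (nat_lit 7315676) (nat_lit 1798079) (nat_lit 37879105) (nat_lit 15928498) [(nat_lit 0), (nat_lit 1798079),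
 (nat_lit 3834376), (nat_lit 0)]) (PF.cons (PF.leaf (nat_lit 7661457) (nat_lit 623922) (nat_lit 37382375) (nat_lit 15798705) [(nat_lit 623922), (nat_lit 1806398), (nat_lit 3832470), (nat_lit 0)]) (PF.cons (PF.leaf (nat_lit 8014734) (nat_lit 631897) (nat_lit 36880467) (nat_lit 15665185) [(nat_lit 631897), (nat_lit 1813208), (nat_lit 3828718), (nat_lit 0)]) (PF.cons (PF.leaf (nat_lit 8373552) (nat_lit 638737) (nat_lit 36375903) (nat_lit 15528579) [(nat_lit 638737), (nat_lit 1818585), (nat_lit 3823177), (nat_lit 0)]) (PF.cons PF.nil PF.nil))))) (PF.cons (PF.cons (PF.leaf (nat_lit 8067551) (nat_lit 1810416) (nat_lit 36479635) (nat_lit 15553392) [(nat_lit 0), (nat_lit 1810416), (nat_lit 3818317), (nat_lit 0)]) (PF.cons (PF.leaf (nat_lit 8419145) (nat_lit 636653) (nat_lit 35987531) (nat_lit 15418429) [(nat_lit 636653), (nat_lit 1815199), (nat_lit 3811933), (nat_lit 0)]) (PF.cons (PF.leaf (nat_lit 8775725) (nat_lit 642472) (nat_lit 35493898) (nat_lit 15280807) [(nat_lit 642472),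 (nat_lit 1818693), (nat_lit 3803924), (nat_lit 0)]) (PF.cons PF.nil PF.nil)))) (PF.cons (PF.cons (PF.leaf (nat_lit 8816236) (nat_lit 1814476) (nat_lit 35119433) (nat_lit 15171689) [(nat_lit 0), (nat_lit 1814476),
 (nat_lit 3791420), (nat_lit 0)]) (PF.cons PF.nil PF.nil)) (PF.cons PF.nil PF.nil))))) (PF.cons (PF.cons (PF.cons (PF.leaf (nat_lit 7782790) (nat_lit 3798502) (nat_lit 36396395) (nat_lit 15518406) [(nat_lit 0), (nat_lit 0), (nat_lit 3798502), (nat_lit 0)]) (PF.cons (PF.leaf (nat_lit 8123027) (nat_lit 624361) (nat_lit 35922856) (nat_lit 15388603) [(nat_lit 624361), (nat_lit 0), (nat_lit 3793248), (nat_lit 0)]) (PF.cons (PF.leaf (nat_lit 8470050) (nat_lit 631343) (nat_lit 35445125) (nat_lit 15255554) [(nat_lit 631343), (nat_lit 0), (nat_lit 3786361), (nat_lit 0)]) (PF.cons (PF.leaf (nat_lit 8821975) (nat_lit 637253) (nat_lit 34965527) (nat_lit 15119885) [(nat_lit 637253), (nat_lit 0), (nat_lit 3777909), (nat_lit 0)]) (PF.cons PF.nil PF.nil))))) (PF.cons (PF.cons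 (PF.leaf (nat_lit 8516428) (nat_lit 1799187) (nat_lit 35067266) (nat_lit 15145625) [(nat_lit 0), (nat_lit 1799187), (nat_lit 3774183), (nat_lit 0)]) (PF.cons (PF.leaf (nat_lit 8861325) (nat_lit 634755) (nat_lit 34599696) (nat_lit 15011854) [(nat_lit 634755), (nat_lit 1802056), (nat_lit 3765112), (nat_lit 0)]) (PF.cons PF.nil (PF.cons PF.nil PF.nil)))) (PF.cons (PF.cons (PF.leaf (nat_lit 9245309) (nat_lit 1798693) (nat_lit
 33778737) (nat_lit 14769224) [(nat_lit 0), (nat_lit 1798693), (nat_lit 3740865), (nat_lit 0)]) (PF.cons PF.nil PF.nil)) PF.nil))) (PF.cons (PF.cons (PF.cons (PF.leaf (nat_lit 8945546) (nat_lit 3725125) (nat_lit 33736636) (nat_lit 14746549) [(nat_lit 0), (nat_lit 0), (nat_lit 3725125), (nat_lit 0)]) (PF.cons (PF.leaf (nat_lit 9283638) (nat_lit 631546) (nat_lit 33292856) (nat_lit 14614751) [(nat_lit 631546), (nat_lit 0), (nat_lit 3713931), (nat_lit 0)]) PF.nil)) (PF.cons PF.nil PF.nil)) (PF.cons PF.nil (PF.cons PF.nil PF.nil)))))))) (PF.cons (PF.cons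 (PF.cons (PF.cons (PF.leaf (nat_lit 4838631) (nat_lit 8389411) (nat_lit 41885581) (nat_lit 16833820) [(nat_lit 0), (nat_lit 0), (nat_lit 0), (nat_lit 8389411)]) (PF.cons (PF.leaf (nat_lit 5116294) (nat_lit 517572) (nat_lit 41469714) (nat_lit 16744194) [(nat_lit 517572), (nat_lit 0), (nat_lit 0), (nat_lit 8377330)]) (PF.cons (PF.leaf (nat_lit 5417314) (nat_lit 539043) (nat_lit 41023012) (nat_lit 16645797) [(nat_lit 539043), (nat_lit 0), (nat_lit 0), (nat_lit 8361915)]) (PF.cons (PF.leaf (nat_lit 5736486) (nat_lit 557481) (nat_lit 40553270) (nat_lit 16539993) [(nat_lit 557481), (nat_lit 0), (nat_lit 0), (nat_lit 8343105)]) (PF.cons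
 (PF.leaf (nat_lit 6070244) (nat_lit 573481) (nat_lit 40066186) (nat_lit 16427798) [(nat_lit 573481), (nat_lit 0), (nat_lit 0), (nat_lit 8320903)]) (PF.cons (PF.leaf (nat_lit 6415837) (nat_lit 587453) (nat_lit 39566153) (nat_lit 16310028) [(nat_lit 587453), (nat_lit 0), (nat_lit 0), (nat_lit 8295363)]) (PF.cons (PF.leaf (nat_lit 6771031) (nat_lit 599696) (nat_lit 39056678) (nat_lit 16187371) [(nat_lit 599696), (nat_lit 0), (nat_lit 0), (nat_lit 8266581)]) (PF.cons (PF.leaf (nat_lit 7133968) (nat_lit 610438) (nat_lit 38540629) (nat_lit 16060429) [(nat_lit 610438), (nat_lit 0), (nat_lit 0), (nat_lit 8234682)]) (PF.cons (PF.leaf (nat_lit 7503065) (nat_lit 619858) (nat_lit 38020391) (nat_lit 15929739) [(nat_lit 619858), (nat_lit 0), (nat_lit 0), (nat_lit 8199816)]) (PF.cons PF.nil PF.nil)))))))))) (PF.cons (PF.cons (PF.leaf (nat_lit 5520649) (nat_lit 1688016) (nat_lit 40549491) (nat_lit 16535040) [(nat_lit 0), (nat_lit 1688016), (nat_lit 0), (nat_lit 8336264)]) (PF.cons (PF.leaf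 (nat_lit 5828568) (nat_lit 557782) (nat_lit 40095407) (nat_lit 16430546) [(nat_lit 557782), (nat_lit 1709252), (nat_lit 0), (nat_lit 8315823)]) (PF.cons (PF.leaf (nat_lit 6153028) (nat_lit 573681) (nat_lit
 39621859) (nat_lit 16319270) [(nat_lit 573681), (nat_lit 1728269), (nat_lit 0), (nat_lit 8292050)]) (PF.cons (PF.leaf (nat_lit 6490442) (nat_lit 587487) (nat_lit 39134027) (nat_lit 16202211) [(nat_lit 587487), (nat_lit 1745083), (nat_lit 0), (nat_lit 8265029)]) (PF.cons (PF.leaf (nat_lit 6838259) (nat_lit 599533) (nat_lit 38635869) (nat_lit 16080166) [(nat_lit 599533), (nat_lit 1759771), (nat_lit 0), (nat_lit 8234871)]) (PF.cons (PF.leaf (nat_lit 7194414) (nat_lit 610066) (nat_lit 38130519) (nat_lit 15953803) [(nat_lit 610066), (nat_lit 1772443), (nat_lit 0), (nat_lit 8201713)]) (PF.cons (PF.leaf (nat_lit 7557197) (nat_lit 619277) (nat_lit 37620528) (nat_lit 15823701) [(nat_lit 619277), (nat_lit 1783215), (nat_lit 0), (nat_lit 8165705)]) (PF.cons (PF.leaf (nat_lit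 7925162) (nat_lit 627316) (nat_lit 37108003) (nat_lit 15690373) [(nat_lit 627316), (nat_lit 1792208), (nat_lit 0), (nat_lit 8127013)]) (PF.cons PF.nil PF.nil))))))))) (PF.cons (PF.cons (PF.leaf (nat_lit 6238894) (nat_lit 1732023) (nat_lit 39175185) (nat_lit 16208270) [(nat_lit 0), (nat_lit 1732023), (nat_lit 0), (nat_lit 8261309)]) (PF.cons (PF.leaf (nat_lit 6566855) (nat_lit 586962) (nat_lit 38701358) (nat_lit 16092495)
 [(nat_lit 586962), (nat_lit 1747463), (nat_lit 0), (nat_lit 8233069)]) (PF.cons (PF.leaf (nat_lit 6906604) (nat_lit 598916) (nat_lit 38215774) (nat_lit 15971501) [(nat_lit 598916), (nat_lit 1760973), (nat_lit 0), (nat_lit 8201758)]) (PF.cons (PF.leaf (nat_lit 7255498) (nat_lit 609317) (nat_lit 37722027) (nat_lit 15846064) [(nat_lit 609317), (nat_lit 1772618), (nat_lit 0), (nat_lit 8167530)]) (PF.cons (PF.leaf (nat_lit 7611627) (nat_lit 618377) (nat_lit 37222945) (nat_lit 15716832) [(nat_lit 618377), (nat_lit 1782487), (nat_lit 0), (nat_lit 8130548)])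 (PF.cons (PF.leaf (nat_lit 7973414) (nat_lit 626260) (nat_lit 36720806) (nat_lit 15584361) [(nat_lit 626260), (nat_lit 1790682), (nat_lit 0), (nat_lit 8090979)]) (PF.cons PF.nil PF.nil))))))) (PF.cons (PF.cons (PF.leaf (nat_lit 6977107) (nat_lit 1761612) (nat_lit 37795563) (nat_lit 15861190) [(nat_lit 0), (nat_lit 1761612), (nat_lit 0), (nat_lit 8167220)]) (PF.cons (PF.leaf (nat_lit 7317830) (nat_lit 608165) (nat_lit 37314563) (nat_lit 15737094) [(nat_lit 608165), (nat_lit 1772285), (nat_lit 0), (nat_lit 8132131)]) (PF.cons (PF.leaf (nat_lit 7666834) (nat_lit 617144) (nat_lit 36827202) (nat_lit 15609057) [(nat_lit 617144), (nat_lit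
 1781304), (nat_lit 0), (nat_lit 8094351)]) (PF.cons (PF.leaf (nat_lit 8022105) (nat_lit 624921) (nat_lit 36336039) (nat_lit 15477704) [(nat_lit 624921), (nat_lit 1788747), (nat_lit 0), (nat_lit 8054059)]) (PF.cons (PF.leaf (nat_lit 8382180) (nat_lit 631642) (nat_lit 35843125) (nat_lit 15343567) [(nat_lit 631642), (nat_lit 1794704), (nat_lit 0), (nat_lit 8011438)]) PF.nil))))) (PF.cons (PF.cons (PF.leaf (nat_lit 7723617) (nat_lit 1779687) (nat_lit 36432712) (nat_lit 15500249) [(nat_lit 0), (nat_lit 1779687), (nat_lit 0), (nat_lit 8057100)]) (PF.cons (PF.leaf (nat_lit 8071694) (nat_lit 623284) (nat_lit 35953262) (nat_lit 15370318) [(nat_lit 623284), (nat_lit 1786424), (nat_lit 0), (nat_lit 8016251)]) (PF.cons (PF.leaf (nat_lit 8425406) (nat_lit 629936) (nat_lit 35471281) (nat_lit 15237509) [(nat_lit 629936), (nat_lit 1791755), (nat_lit 0), (nat_lit 7973127)]) (PF.cons PF.nil PF.nil)))) (PF.cons (PF.cons (PF.leaf (nat_lit 8469850) (nat_lit 1788471) (nat_lit 35101517) (nat_lit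 15130877) [(nat_lit 0), (nat_lit 1788471), (nat_lit 0), (nat_lit 7934060)]) (PF.cons (PF.leaf (nat_lit 8821218) (nat_lit 633622) (nat_lit 34629665) (nat_lit 14997200) [(nat_lit 633622), (nat_lit 1791956),
 (nat_lit 0), (nat_lit 7888539)]) PF.nil)) (PF.cons PF.nil (PF.cons PF.nil PF.nil)))))))) (PF.cons (PF.cons (PF.cons (PF.leaf (nat_lit 6013623) (nat_lit 3749445) (nat_lit 38984628) (nat_lit 16146912) [(nat_lit 0), (nat_lit 0), (nat_lit 3749445), (nat_lit 8227826)]) (PF.cons (PF.leaf (nat_lit 6321156) (nat_lit 567103) (nat_lit 38543836) (nat_lit 16038863) [(nat_lit 567103), (nat_lit 0), (nat_lit 3757256), (nat_lit 8201752)]) (PF.cons (PF.leaf (nat_lit 6643960) (nat_lit 581405) (nat_lit 38085865) (nat_lit 15924526) [(nat_lit 581405), (nat_lit 0), (nat_lit 3763089), (nat_lit 8172520)]) (PF.cons (PF.leaf (nat_lit 6978546) (nat_lit 593694) (nat_lit 37615624) (nat_lit 15804947) [(nat_lit 593694), (nat_lit 0), (nat_lit 3766854), (nat_lit 8140302)]) (PF.cons (PF.leaf (nat_lit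 7322435) (nat_lit 604312) (nat_lit 37136806) (nat_lit 15680947) [(nat_lit 604312), (nat_lit 0), (nat_lit 3768539), (nat_lit 8105269)]) (PF.cons (PF.leaf (nat_lit 7673687) (nat_lit 613508) (nat_lit 36652301) (nat_lit 15553197) [(nat_lit 613508), (nat_lit 0), (nat_lit 3768182), (nat_lit 8067591)]) (PF.cons (PF.leaf (nat_lit 8030699) (nat_lit 621470) (nat_lit 36164428) (nat_lit 15422270) [(nat_lit 621470), (nat_lit 0),
 (nat_lit 3765849), (nat_lit 8027440)]) (PF.cons PF.nil (PF.cons PF.nil PF.nil))))))))) (PF.cons (PF.cons (PF.leaf (nat_lit 6722461) (nat_lit 1738954) (nat_lit 37660666) (nat_lit 15812834) [(nat_lit 0), (nat_lit 1738954), (nat_lit 3758476), (nat_lit 8137881)]) (PF.cons (PF.leaf (nat_lit 7047631) (nat_lit 592303) (nat_lit 37204561) (nat_lit 15695027) [(nat_lit 592303), (nat_lit 1751165), (nat_lit 3760821), (nat_lit 8104934)]) (PF.cons (PF.leaf (nat_lit 7383541) (nat_lit 602928) (nat_lit 36738372) (nat_lit 15572518) [(nat_lit 602928), (nat_lit 1761628), (nat_lit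 3761245), (nat_lit 8069192)]) (PF.cons (PF.leaf (nat_lit 7727659) (nat_lit 612077) (nat_lit 36265450) (nat_lit 15446095) [(nat_lit 612077), (nat_lit 1770418), (nat_lit 3759763), (nat_lit 8030852)]) (PF.cons (PF.leaf (nat_lit 8078174) (nat_lit 619964) (nat_lit 35788397) (nat_lit 15316401) [(nat_lit 619964), (nat_lit 1777629), (nat_lit 3756427), (nat_lit 7990099)]) (PF.cons (PF.leaf (nat_lit 8433601) (nat_lit 626751) (nat_lit 35309289) (nat_lit 15183979) [(nat_lit 626751), (nat_lit 1783356), (nat_lit 3751309), (nat_lit 7947117)]) (PF.cons PF.nil PF.nil))))))) (PF.cons (PF.cons (PF.leaf (nat_lit 7447024) (nat_lit 1760446)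
 (nat_lit 36340084) (nat_lit 15462734) [(nat_lit 0), (nat_lit 1760446), (nat_lit 3753167), (nat_lit 8031933)]) (PF.cons (PF.leaf (nat_lit 7783101) (nat_lit 610282) (nat_lit 35879779) (nat_lit 15338022) [(nat_lit 610282), (nat_lit 1768475), (nat_lit 3750653), (nat_lit 7993123)]) (PF.cons (PF.leaf (nat_lit 8126645) (nat_lit 618158) (nat_lit 35414271) (nat_lit 15209859) [(nat_lit 618158), (nat_lit 1775019), (nat_lit 3746396), (nat_lit 7951929)]) (PF.cons (PF.leaf (nat_lit 8475734) (nat_lit 624903) (nat_lit 34945919) (nat_lit 15078858) [(nat_lit 624903), (nat_lit 1780157), (nat_lit 3740457), (nat_lit 7908549)]) (PF.cons PF.nil PF.nil))))) (PF.cons (PF.cons (PF.leaf (nat_lit 8176890) (nat_lit 1772054) (nat_lit 35041470) (nat_lit 15102507) [(nat_lit 0), (nat_lit 1772054), (nat_lit 3735769), (nat_lit 7912901)]) (PF.cons (PF.leaf (nat_lit 8518962) (nat_lit 622786) (nat_lit 34584537) (nat_lit 14973206) [(nat_lit 622786), (nat_lit 1776641), (nat_lit 3729083), (nat_lit 7869273)])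 (PF.cons (PF.leaf (nat_lit 8866050) (nat_lit 628529) (nat_lit 34125823) (nat_lit 14841459) [(nat_lit 628529), (nat_lit 1779974), (nat_lit 3720873), (nat_lit 7823674)]) (PF.cons PF.nil PF.nil)))) (PF.cons (PF.cons
 (PF.leaf (nat_lit 8904503) (nat_lit 1775697) (nat_lit 33777084) (nat_lit 14736976) [(nat_lit 0), (nat_lit 1775697), (nat_lit 3708386), (nat_lit 7783576)]) (PF.cons PF.nil PF.nil)) (PF.cons PF.nil PF.nil)))))) (PF.cons (PF.cons (PF.cons (PF.leaf (nat_lit 7187726) (nat_lit 3730929) (nat_lit 36223570) (nat_lit 15418794) [(nat_lit 0), (nat_lit 0), (nat_lit 3730929), (nat_lit 8004589)]) (PF.cons (PF.leaf (nat_lit 7509332) (nat_lit 595276) (nat_lit 35786089) (nat_lit 15300211) [(nat_lit 595276), (nat_lit 0), (nat_lit 3729597), (nat_lit 7968039)]) (PF.cons (PF.leaf (nat_lit 7840803) (nat_lit 604749) (nat_lit 35339897) (nat_lit 15177393) [(nat_lit 604749), (nat_lit 0), (nat_lit 3726537), (nat_lit 7928948)]) (PF.cons (PF.leaf (nat_lit 8179679) (nat_lit 612818) (nat_lit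 34888115) (nat_lit 15051126) [(nat_lit 612818), (nat_lit 0), (nat_lit 3721786), (nat_lit 7887542)]) (PF.cons (PF.leaf (nat_lit 8524240) (nat_lit 619697) (nat_lit 34433140) (nat_lit 14922040) [(nat_lit 619697), (nat_lit 0), (nat_lit 3715407), (nat_lit 7844025)]) (PF.cons PF.nil (PF.cons PF.nil PF.nil))))))) (PF.cons (PF.cons (PF.leaf (nat_lit 7897825) (nat_lit 1754248) (nat_lit 34963095) (nat_lit 15068996) [(nat_lit 0),
 (nat_lit 1754248), (nat_lit 3716317), (nat_lit 7889838)]) (PF.cons (PF.leaf (nat_lit 8228819) (nat_lit 610516) (nat_lit 34523635) (nat_lit 14944716) [(nat_lit 610516), (nat_lit 1760077), (nat_lit 3710795), (nat_lit 7848276)]) (PF.cons (PF.leaf (nat_lit 8566585) (nat_lit 617441) (nat_lit 34079895) (nat_lit 14817410) [(nat_lit 617441), (nat_lit 1764565), (nat_lit 3703728), (nat_lit 7804600)]) (PF.cons (PF.leaf (nat_lit 8909282) (nat_lit 623300) (nat_lit 33634047) (nat_lit 14687675) [(nat_lit 623300), (nat_lit 1767795), (nat_lit 3695186), (nat_lit 7759020)])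 (PF.cons PF.nil PF.nil))))) (PF.cons (PF.cons (PF.leaf (nat_lit 8610870) (nat_lit 1760545) (nat_lit 33727976) (nat_lit 14712144) [(nat_lit 0), (nat_lit 1760545), (nat_lit 3691562), (nat_lit 7764476)]) (PF.cons (PF.leaf (nat_lit 8946741) (nat_lit 620806) (nat_lit 33293154) (nat_lit 14584309) [(nat_lit 620806), (nat_lit 1763350), (nat_lit 3682474), (nat_lit 7718892)]) (PF.cons PF.nil (PF.cons PF.nil PF.nil)))) (PF.cons (PF.cons (PF.leaf (nat_lit 9320147) (nat_lit 1759984) (nat_lit 32528381) (nat_lit 14352503) [(nat_lit 0), (nat_lit 1759984), (nat_lit 3658489), (nat_lit 7630995)]) (PF.cons PF.nil PF.nil)) (PF.cons PF.nil PF.nil)))))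
 (PF.cons (PF.cons (PF.cons (PF.leaf (nat_lit 8330396) (nat_lit 3673693) (nat_lit 33661923) (nat_lit 14682361) [(nat_lit 0), (nat_lit 0), (nat_lit 3673693), (nat_lit 7743447)]) (PF.cons (PF.leaf (nat_lit 8655997) (nat_lit 609223) (nat_lit 33243064) (nat_lit 14559328) [(nat_lit 609223), (nat_lit 0), (nat_lit 3665758), (nat_lit 7699919)]) (PF.cons (PF.leaf (nat_lit 8987792) (nat_lit 615325) (nat_lit 32820658) (nat_lit 14433635) [(nat_lit 615325), (nat_lit 0), (nat_lit 3656450), (nat_lit 7654516)]) (PF.cons PF.nil PF.nil)))) (PF.cons (PF.cons (PF.leaf (nat_lit 9026651) (nat_lit 1745996) (nat_lit 32488654) (nat_lit 14330908) [(nat_lit 0), (nat_lit 1745996), (nat_lit 3643142), (nat_lit 7613826)]) (PF.cons (PF.leaf (nat_lit 9356234) (nat_lit 617633) (nat_lit 32075282) (nat_lit 14205173) [(nat_lit 617633), (nat_lit 1747320), (nat_lit 3632150), (nat_lit 7566950)]) PF.nil)) (PF.cons PF.nil PF.nil))) (PF.cons (PF.cons (PF.cons (PF.leaf (nat_lit 9425332) (nat_lit 3591670) (nat_lit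 31319604) (nat_lit 13960017) [(nat_lit 0), (nat_lit 0), (nat_lit 3591670), (nat_lit 7462510)]) (PF.cons PF.nil PF.nil)) (PF.cons PF.nil PF.nil)) (PF.cons PF.nil PF.nil)))))) (PF.cons (PF.cons (PF.cons (PF.cons
 (PF.leaf (nat_lit 6638041) (nat_lit 7914135) (nat_lit 35981010) (nat_lit 15299532) [(nat_lit 0), (nat_lit 0), (nat_lit 0), (nat_lit 7914135)]) (PF.cons (PF.leaf (nat_lit 6935254) (nat_lit 559779) (nat_lit 35587652) (nat_lit 15193977) [(nat_lit 559779), (nat_lit 0), (nat_lit 0), (nat_lit 7883701)]) (PF.cons (PF.leaf (nat_lit 7246520) (nat_lit 572733) (nat_lit 35179587) (nat_lit 15082863) [(nat_lit 572733), (nat_lit 0), (nat_lit 0), (nat_lit 7850446)]) (PF.cons (PF.leaf (nat_lit 7568471) (nat_lit 583727) (nat_lit 34761152) (nat_lit 14967239) [(nat_lit 583727), (nat_lit 0), (nat_lit 0), (nat_lit 7814618)]) (PF.cons (PF.leaf (nat_lit 7898767) (nat_lit 593113) (nat_lit 34335582) (nat_lit 14847910) [(nat_lit 593113), (nat_lit 0), (nat_lit 0), (nat_lit 7776432)]) (PF.cons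 (PF.leaf (nat_lit 8235592) (nat_lit 601148) (nat_lit 33905384) (nat_lit 14725522) [(nat_lit 601148), (nat_lit 0), (nat_lit 0), (nat_lit 7736082)]) (PF.cons (PF.leaf (nat_lit 8577460) (nat_lit 608024) (nat_lit 33472552) (nat_lit 14600613) [(nat_lit 608024), (nat_lit 0), (nat_lit 0), (nat_lit 7693751)]) (PF.cons PF.nil (PF.cons PF.nil PF.nil))))))))) (PF.cons (PF.cons (PF.leaf (nat_lit 7315591) (nat_lit 1701862) (nat_lit
 34804129) (nat_lit 14975977) [(nat_lit 0), (nat_lit 1701862), (nat_lit 0), (nat_lit 7813421)]) (PF.cons (PF.leaf (nat_lit 7628426) (nat_lit 581651) (nat_lit 34398518) (nat_lit 14862509) [(nat_lit 581651), (nat_lit 1711343), (nat_lit 0), (nat_lit 7777395)]) (PF.cons (PF.leaf (nat_lit 7951059) (nat_lit 591118) (nat_lit 33984359) (nat_lit 14745024) [(nat_lit 591118), (nat_lit 1719221), (nat_lit 0), (nat_lit 7738984)]) (PF.cons (PF.leaf (nat_lit 8281082) (nat_lit 599175) (nat_lit 33564578) (nat_lit 14624283) [(nat_lit 599175), (nat_lit 1725592), (nat_lit 0),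 (nat_lit 7698416)]) (PF.cons (PF.leaf (nat_lit 8616792) (nat_lit 606038) (nat_lit 33141428) (nat_lit 14500895) [(nat_lit 606038), (nat_lit 1730556), (nat_lit 0), (nat_lit 7655888)]) (PF.cons PF.nil (PF.cons PF.nil PF.nil))))))) (PF.cons (PF.cons (PF.leaf (nat_lit 8005937) (nat_lit 1716541) (nat_lit 33633281) (nat_lit 14641133) [(nat_lit 0), (nat_lit 1716541), (nat_lit 0), (nat_lit 7700657)]) (PF.cons (PF.leaf (nat_lit 8328263) (nat_lit 596882) (nat_lit 33224798) (nat_lit 14522374) [(nat_lit 596882), (nat_lit 1722344), (nat_lit 0), (nat_lit 7660034)]) (PF.cons (PF.leaf (nat_lit 8657377) (nat_lit 603793) (nat_lit 32811945) (nat_lit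
 14400758) [(nat_lit 603793), (nat_lit 1726816), (nat_lit 0), (nat_lit 7617444)]) (PF.cons (PF.leaf (nat_lit 8991457) (nat_lit 609639) (nat_lit 32396764) (nat_lit 14276862) [(nat_lit 609639), (nat_lit 1730044), (nat_lit 0), (nat_lit 7573088)]) (PF.cons PF.nil PF.nil))))) (PF.cons (PF.cons (PF.leaf (nat_lit 8699943) (nat_lit 1722805) (nat_lit 32483573) (nat_lit 14300064) [(nat_lit 0), (nat_lit 1722805), (nat_lit 0), (nat_lit 7578379)]) (PF.cons (PF.leaf (nat_lit 9027378) (nat_lit 607171) (nat_lit 32078507) (nat_lit 14178041) [(nat_lit 607171), (nat_lit 1725633), (nat_lit 0), (nat_lit 7534095)]) (PF.cons PF.nil (PF.cons PF.nil PF.nil)))) (PF.cons (PF.cons (PF.leaf (nat_lit 9391089) (nat_lit 1722386) (nat_lit 31364771) (nat_lit 13956731) [(nat_lit 0), (nat_lit 1722386), (nat_lit 0), (nat_lit 7448882)]) (PF.cons PF.nil PF.nil)) (PF.cons PF.nil PF.nil)))))) (PF.cons (PF.cons (PF.cons (PF.leaf (nat_lit 7748712) (nat_lit 3615622) (nat_lit 33538134) (nat_lit 14602873) [(nat_lit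 0), (nat_lit 0), (nat_lit 3615622), (nat_lit 7676091)]) (PF.cons (PF.leaf (nat_lit 8057802) (nat_lit 582649) (nat_lit 33149425) (nat_lit 14489880) [(nat_lit 582649), (nat_lit 0), (nat_lit 3611296), (nat_lit
 7637780)]) (PF.cons (PF.leaf (nat_lit 8375960) (nat_lit 591133) (nat_lit 32753240) (nat_lit 14373253) [(nat_lit 591133), (nat_lit 0), (nat_lit 3605463), (nat_lit 7597294)]) (PF.cons (PF.leaf (nat_lit 8700838) (nat_lit 598277) (nat_lit 32352306) (nat_lit 14253739) [(nat_lit 598277), (nat_lit 0), (nat_lit 3598182), (nat_lit 7554875)]) (PF.cons (PF.leaf (nat_lit 9030827) (nat_lit 604297) (nat_lit 31948704) (nat_lit 14131927) [(nat_lit 604297), (nat_lit 0), (nat_lit 3589529), (nat_lit 7510730)]) PF.nil))))) (PF.cons (PF.cons (PF.leaf (nat_lit 8425273) (nat_lit 1706376) (nat_lit 32421015) (nat_lit 14271505) [(nat_lit 0), (nat_lit 1706376), (nat_lit 3593747), (nat_lit 7558084)]) (PF.cons (PF.leaf (nat_lit 8742637) (nat_lit 595612) (nat_lit 32031027) (nat_lit 14154133) [(nat_lit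 595612), (nat_lit 1710428), (nat_lit 3585958), (nat_lit 7515826)]) (PF.cons (PF.leaf (nat_lit 9066211) (nat_lit 601724) (nat_lit 31637369) (nat_lit 14034238) [(nat_lit 601724), (nat_lit 1713276), (nat_lit 3576853), (nat_lit 7471812)]) (PF.cons PF.nil PF.nil)))) (PF.cons (PF.cons (PF.leaf (nat_lit 9103705) (nat_lit 1708515) (nat_lit 31327104) (nat_lit 13936103) [(nat_lit 0), (nat_lit 1708515), (nat_lit 3563813),
 (nat_lit 7432380)]) (PF.cons (PF.leaf (nat_lit 9425285) (nat_lit 604094) (nat_lit 30941379) (nat_lit 13816222) [(nat_lit 604094), (nat_lit 1709941), (nat_lit 3553124), (nat_lit 7387054)]) PF.nil)) (PF.cons PF.nil (PF.cons PF.nil PF.nil))))) (PF.cons (PF.cons (PF.cons (PF.leaf (nat_lit 8828575) (nat_lit 3547747) (nat_lit 31274532) (nat_lit 13910850) [(nat_lit 0), (nat_lit 0), (nat_lit 3547747), (nat_lit 7413967)]) (PF.cons (PF.leaf (nat_lit 9140776) (nat_lit 593191) (nat_lit 30902607) (nat_lit 13795385) [(nat_lit 593191), (nat_lit 0), (nat_lit 3538193), (nat_lit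 7370620)]) (PF.cons (PF.leaf (nat_lit 9458708) (nat_lit 598609) (nat_lit 30527577) (nat_lit 13677683) [(nat_lit 598609), (nat_lit 0), (nat_lit 3527463), (nat_lit 7325704)]) (PF.cons PF.nil PF.nil)))) (PF.cons (PF.cons (PF.leaf (nat_lit 9491579) (nat_lit 1692070) (nat_lit 30234479) (nat_lit 13582350) [(nat_lit 0), (nat_lit 1692070), (nat_lit 3513702), (nat_lit 7286253)]) (PF.cons PF.nil PF.nil)) (PF.cons PF.nil PF.nil))) (PF.cons (PF.cons (PF.cons (PF.leaf (nat_lit 9864513) (nat_lit 3461764) (nat_lit 29202098) (nat_lit 13239405) [(nat_lit 0), (nat_lit 0), (nat_lit 3461764), (nat_lit 7141007)]) (PF.cons PF.nil PF.nil))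
 (PF.cons PF.nil PF.nil)) (PF.cons PF.nil PF.nil))))) (PF.cons (PF.cons (PF.cons (PF.cons (PF.leaf (nat_lit 8261735) (nat_lit 7357930) (nat_lit 31187302) (nat_lit 13847718) [(nat_lit 0), (nat_lit 0), (nat_lit 0), (nat_lit 7357930)]) (PF.cons (PF.leaf (nat_lit 8559123) (nat_lit 568846) (nat_lit 30840809) (nat_lit 13741187) [(nat_lit 568846), (nat_lit 0), (nat_lit 0), (nat_lit 7319322)]) (PF.cons (PF.leaf (nat_lit 8864943) (nat_lit 576532) (nat_lit 30487786) (nat_lit 13631489) [(nat_lit 576532), (nat_lit 0), (nat_lit 0), (nat_lit 7278823)]) (PF.cons (PF.leaf (nat_lit 9176938) (nat_lit 582940) (nat_lit 30130629) (nat_lit 13519323) [(nat_lit 582940), (nat_lit 0), (nat_lit 0), (nat_lit 7236679)]) (PF.cons PF.nil PF.nil))))) (PF.cons (PF.cons (PF.leaf (nat_lit 8907971) (nat_lit 1656999) (nat_lit 30193634) (nat_lit 13536707) [(nat_lit 0), (nat_lit 1656999), (nat_lit 0), (nat_lit 7240490)]) (PF.cons (PF.leaf (nat_lit 9212797) (nat_lit 580053) (nat_lit 29846175) (nat_lit 13426710)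 [(nat_lit 580053), (nat_lit 1659766), (nat_lit 0), (nat_lit 7198702)]) (PF.cons (PF.leaf (nat_lit 9523386) (nat_lit 585523) (nat_lit 29495487) (nat_lit 13314561) [(nat_lit 585523), (nat_lit 1661441), (nat_lit 0),
 (nat_lit 7155425)]) (PF.cons PF.nil PF.nil)))) (PF.cons (PF.cons (PF.leaf (nat_lit 9555406) (nat_lit 1656256) (nat_lit 29220648) (nat_lit 13223553) [(nat_lit 0), (nat_lit 1656256), (nat_lit 0), (nat_lit 7117366)]) (PF.cons PF.nil PF.nil)) PF.nil))) (PF.cons (PF.cons (PF.cons (PF.leaf (nat_lit 9286198) (nat_lit 3424101) (nat_lit 29178702) (nat_lit 13202179) [(nat_lit 0), (nat_lit 0), (nat_lit 3424101), (nat_lit 7101276)]) (PF.cons (PF.leaf (nat_lit 9586123) (nat_lit 576906) (nat_lit 28846993) (nat_lit 13094396) [(nat_lit 576906), (nat_lit 0), (nat_lit 3413621), (nat_lit 7058965)]) (PF.cons PF.nil PF.nil))) (PF.cons (PF.cons (PF.leaf (nat_lit 9919448) (nat_lit 1638834) (nat_lit 28252447) (nat_lit 12896522) [(nat_lit 0), (nat_lit 1638834), (nat_lit 3388322), (nat_lit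 6977562)]) PF.nil) PF.nil)) (PF.cons PF.nil PF.nil))) (PF.cons (PF.cons (PF.cons (PF.cons (PF.leaf (nat_lit 9710068) (nat_lit 6806995) (nat_lit 27328443) (nat_lit 12552388) [(nat_lit 0), (nat_lit 0), (nat_lit 0), (nat_lit 6806995)]) (PF.cons (PF.leaf (nat_lit 9998715) (nat_lit 560759) (nat_lit 27031243) (nat_lit 12452042) [(nat_lit 560759), (nat_lit 0), (nat_lit 0), (nat_lit 6766192)]) PF.nil)) (PF.cons PF.nil PF.nil))
 (PF.cons PF.nil PF.nil)) (PF.cons PF.nil (PF.cons PF.nil (PF.cons PF.nil PF.nil))))))))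

def p15_30_3_0 : pfC (piC [(nat_lit 35404596), (nat_lit 23859669), (nat_lit 17778567), (nat_lit 12006452)] (nat_lit 5058382)) p15_30_3 (nat_lit 4) (nat_lit 0) (nat_lit 1) = true := by decide +kernel
def p15_30_3_1 : pfC (piC [(nat_lit 35404596), (nat_lit 23859669), (nat_lit 17778567), (nat_lit 12006452)] (nat_lit 5058382)) p15_30_3 (nat_lit 4) (nat_lit 1) (nat_lit 2) = true := by decide +kernel
def p15_30_3_2 : pfC (piC [(nat_lit 35404596), (nat_lit 23859669), (nat_lit 17778567), (nat_lit 12006452)] (nat_lit 5058382)) p15_30_3 (nat_lit 4) (nat_lit 2) (nat_lit 3) = true := by decide +kernel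
def p15_30_3_3 : pfC (piC [(nat_lit 35404596), (nat_lit 23859669), (nat_lit 17778567), (nat_lit 12006452)] (nat_lit 5058382)) p15_30_3 (nat_lit 4) (nat_lit 3) (nat_lit 4) = true := by decide +kernel
def p15_30_3_4 : pfC (piC [(nat_lit 35404596), (nat_lit 23859669), (nat_lit 17778567), (nat_lit 12006452)] (nat_lit 5058382)) p15_30_3 (nat_lit 4) (nat_lit 4) (nat_lit 5) = true := by decide +kernel
def p15_30_3_5 : pfC (piC [(nat_lit 35404596), (nat_lit 23859669), (nat_lit 17778567), (nat_lit 12006452)] (nat_lit 5058382)) p15_30_3 (nat_lit 4) (nat_lit 5) (nat_lit 6) = true := by decide +kernel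
def p15_30_3_6 : pfC (piC [(nat_lit 35404596), (nat_lit 23859669), (nat_lit 17778567), (nat_lit 12006452)] (nat_lit 5058382)) p15_30_3 (nat_lit 4) (nat_lit 6) (nat_lit 7) = true := by decide +kernel
def p15_30_3_7 : pfC (piC [(nat_lit 35404596), (nat_lit 23859669), (nat_lit 17778567), (nat_lit 12006452)] (nat_lit 5058382)) p15_30_3 (nat_lit 4) (nat_lit 7) (nat_lit 8) = true := by decide +kernel
def p15_30_3_8 : pfC (piC [(nat_lit 35404596), (nat_lit 23859669), (nat_lit 17778567), (nat_lit 12006452)] (nat_lit 5058382)) p15_30_3 (nat_lit 4) (nat_lit 8) (nat_lit 9) = true := by decide +kernel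
def p15_30_3_9 : pfC (piC [(nat_lit 35404596), (nat_lit 23859669), (nat_lit 17778567), (nat_lit 12006452)] (nat_lit 5058382)) p15_30_3 (nat_lit 4) (nat_lit 9) (nat_lit 10) = true := by decide +kernel
def p15_30_3_10 : pfC (piC [(nat_lit 35404596), (nat_lit 23859669), (nat_lit 17778567), (nat_lit 12006452)] (nat_lit 5058382)) p15_30_3 (nat_lit 4) (nat_lit 10) (nat_lit 11) = true := by decide +kernel
def p15_30_3_11 : pfC (piC [(nat_lit 35404596), (nat_lit 23859669), (nat_lit 17778567), (nat_lit 12006452)] (nat_lit 5058382)) p15_30_3 (nat_lit 4) (nat_lit 11) (nat_lit 12) = true := by decide +kernel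
def p15_30_3_12 : pfC (piC [(nat_lit 35404596), (nat_lit 23859669), (nat_lit 17778567), (nat_lit 12006452)] (nat_lit 5058382)) p15_30_3 (nat_lit 4) (nat_lit 12) (nat_lit 13) = true := by decide +kernel
def p15_30_3_13 : pfC (piC [(nat_lit 35404596), (nat_lit 23859669), (nat_lit 17778567), (nat_lit 12006452)] (nat_lit 5058382)) p15_30_3 (nat_lit 4) (nat_lit 13) (nat_lit 14) = true := by decide +kernel
def p15_30_3_14 : pfC (piC [(nat_lit 35404596), (nat_lit 23859669), (nat_lit 17778567), (nat_lit 12006452)] (nat_lit 5058382)) p15_30_3 (nat_lit 4) (nat_lit 14) (nat_lit 15) = true := by decide +kernel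
def p15_30_3_15 : pfC (piC [(nat_lit 35404596), (nat_lit 23859669), (nat_lit 17778567), (nat_lit 12006452)] (nat_lit 5058382)) p15_30_3 (nat_lit 4) (nat_lit 15) (nat_lit 16) = true := by decide +kernel
def p15_30_3_16 : pfC (piC [(nat_lit 35404596), (nat_lit 23859669), (nat_lit 17778567), (nat_lit 12006452)] (nat_lit 5058382)) p15_30_3 (nat_lit 4) (nat_lit 16) (nat_lit 17) = true := by decide +kernel
def p15_30_3_17 : pfC (piC [(nat_lit 35404596), (nat_lit 23859669), (nat_lit 17778567), (nat_lit 12006452)] (nat_lit 5058382)) p15_30_3 (nat_lit 4) (nat_lit 17) (nat_lit 18) = true := by decide +kernel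
def p15_30_3_18 : pfC (piC [(nat_lit 35404596), (nat_lit 23859669), (nat_lit 17778567), (nat_lit 12006452)] (nat_lit 5058382)) p15_30_3 (nat_lit 4) (nat_lit 18) (nat_lit 19) = true := by decide +kernel
def p15_30_3_19 : pfC (piC [(nat_lit 35404596), (nat_lit 23859669), (nat_lit 17778567), (nat_lit 12006452)] (nat_lit 5058382)) p15_30_3 (nat_lit 4) (nat_lit 19) (nat_lit 20) = true := by decide +kernel
def p15_30_3_20 : pfC (piC [(nat_lit 35404596), (nat_lit 23859669), (nat_lit 17778567), (nat_lit 12006452)] (nat_lit 5058382)) p15_30_3 (nat_lit 4) (nat_lit 20) (nat_lit 21) = true := by decide +kernel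
def p15_30_3_21 : pfC (piC [(nat_lit 35404596), (nat_lit 23859669), (nat_lit 17778567), (nat_lit 12006452)] (nat_lit 5058382)) p15_30_3 (nat_lit 4) (nat_lit 21) (nat_lit 22) = true := by decide +kernel
def p15_30_3_22 : pfC (piC [(nat_lit 35404596), (nat_lit 23859669), (nat_lit 17778567), (nat_lit 12006452)] (nat_lit 5058382)) p15_30_3 (nat_lit 4) (nat_lit 22) (nat_lit 23) = true := by decide +kernel
def p15_30_3_23 : pfC (piC [(nat_lit 35404596), (nat_lit 23859669), (nat_lit 17778567), (nat_lit 12006452)] (nat_lit 5058382)) p15_30_3 (nat_lit 4) (nat_lit 23) (nat_lit 24) = true := by decide +kernel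
def p15_30_3_24 : pfC (piC [(nat_lit 35404596), (nat_lit 23859669), (nat_lit 17778567), (nat_lit 12006452)] (nat_lit 5058382)) p15_30_3 (nat_lit 4) (nat_lit 24) (nat_lit 25) = true := by decide +kernel
def p15_30_3_25 : pfC (piC [(nat_lit 35404596), (nat_lit 23859669), (nat_lit 17778567), (nat_lit 12006452)] (nat_lit 5058382)) p15_30_3 (nat_lit 4) (nat_lit 25) (nat_lit 26) = true := by decide +kernel
def p15_30_3_26 : pfC (piC [(nat_lit 35404596), (nat_lit 23859669), (nat_lit 17778567), (nat_lit 12006452)] (nat_lit 5058382)) p15_30_3 (nat_lit 4) (nat_lit 26) (nat_lit 27) = true := by decide +kernel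
def p15_30_3_27 : pfC (piC [(nat_lit 35404596), (nat_lit 23859669), (nat_lit 17778567), (nat_lit 12006452)] (nat_lit 5058382)) p15_30_3 (nat_lit 4) (nat_lit 27) (nat_lit 28) = true := by decide +kernel
def p15_30_3_28 : pfC (piC [(nat_lit 35404596), (nat_lit 23859669), (nat_lit 17778567), (nat_lit 12006452)] (nat_lit 5058382)) p15_30_3 (nat_lit 4) (nat_lit 28) (nat_lit 29) = true := by decide +kernel
def p15_30_3_29 : pfC (piC [(nat_lit 35404596), (nat_lit 23859669), (nat_lit 17778567), (nat_lit 12006452)] (nat_lit 5058382)) p15_30_3 (nat_lit 4) (nat_lit 29) (nat_lit 30) = true := by decide +kernel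
def p15_30_3_30 : pfC (piC [(nat_lit 35404596), (nat_lit 23859669), (nat_lit 17778567), (nat_lit 12006452)] (nat_lit 5058382)) p15_30_3 (nat_lit 4) (nat_lit 30) (nat_lit 31) = true := by decide +kernel
def p15_30_3_31 : pfC (piC [(nat_lit 35404596), (nat_lit 23859669), (nat_lit 17778567), (nat_lit 12006452)] (nat_lit 5058382)) p15_30_3 (nat_lit 4) (nat_lit 31) (nat_lit 32) = true := by decide +kernel
def p15_30_3_32 : pfC (piC [(nat_lit 35404596), (nat_lit 23859669), (nat_lit 17778567), (nat_lit 12006452)] (nat_lit 5058382)) p15_30_3 (nat_lit 4) (nat_lit 32) (nat_lit 33) = true := by decide +kernel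
def p15_30_3_33 : pfC (piC [(nat_lit 35404596), (nat_lit 23859669), (nat_lit 17778567), (nat_lit 12006452)] (nat_lit 5058382)) p15_30_3 (nat_lit 4) (nat_lit 33) (nat_lit 34) = true := by decide +kernel
def p15_30_3_34 : pfC (piC [(nat_lit 35404596), (nat_lit 23859669), (nat_lit 17778567), (nat_lit 12006452)] (nat_lit 5058382)) p15_30_3 (nat_lit 4) (nat_lit 34) (nat_lit 35) = true := by decide +kernel
def p15_30_3_35 : pfC (piC [(nat_lit 35404596), (nat_lit 23859669), (nat_lit 17778567), (nat_lit 12006452)] (nat_lit 5058382)) p15_30_3 (nat_lit 4) (nat_lit 35) (nat_lit 36) = true := by decide +kernel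
def p15_30_3_36 : pfC (piC [(nat_lit 35404596), (nat_lit 23859669), (nat_lit 17778567), (nat_lit 12006452)] (nat_lit 5058382)) p15_30_3 (nat_lit 4) (nat_lit 36) (nat_lit 37) = true := by decide +kernel
def p15_30_3_37 : pfC (piC [(nat_lit 35404596), (nat_lit 23859669), (nat_lit 17778567), (nat_lit 12006452)] (nat_lit 5058382)) p15_30_3 (nat_lit 4) (nat_lit 37) (nat_lit 38) = true := by decide +kernel
def p15_30_3_38 : pfC (piC [(nat_lit 35404596), (nat_lit 23859669), (nat_lit 17778567), (nat_lit 12006452)] (nat_lit 5058382)) p15_30_3 (nat_lit 4) (nat_lit 38) (nat_lit 39) = true := by decide +kernel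
def p15_30_3_39 : pfC (piC [(nat_lit 35404596), (nat_lit 23859669), (nat_lit 17778567), (nat_lit 12006452)] (nat_lit 5058382)) p15_30_3 (nat_lit 4) (nat_lit 39) (nat_lit 40) = true := by decide +kernel
def p15_30_3_40 : pfC (piC [(nat_lit 35404596), (nat_lit 23859669), (nat_lit 17778567), (nat_lit 12006452)] (nat_lit 5058382)) p15_30_3 (nat_lit 4) (nat_lit 40) (nat_lit 41) = true := by decide +kernel
def p15_30_3_41 : pfC (piC [(nat_lit 35404596), (nat_lit 23859669), (nat_lit 17778567), (nat_lit 12006452)] (nat_lit 5058382)) p15_30_3 (nat_lit 4) (nat_lit 41) (nat_lit 42) = true := by decide +kernel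
def p15_30_3_42 : pfC (piC [(nat_lit 35404596), (nat_lit 23859669), (nat_lit 17778567), (nat_lit 12006452)] (nat_lit 5058382)) p15_30_3 (nat_lit 4) (nat_lit 42) (nat_lit 43) = true := by decide +kernel
def p15_30_3_43 : pfC (piC [(nat_lit 35404596), (nat_lit 23859669), (nat_lit 17778567), (nat_lit 12006452)] (nat_lit 5058382)) p15_30_3 (nat_lit 4) (nat_lit 43) (nat_lit 44) = true := by decide +kernel
def p15_30_3_44 : pfC (piC [(nat_lit 35404596), (nat_lit 23859669), (nat_lit 17778567), (nat_lit 12006452)] (nat_lit 5058382)) p15_30_3 (nat_lit 4) (nat_lit 44) (nat_lit 45) = true := by decide +kernel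
def p15_30_3_45 : pfC (piC [(nat_lit 35404596), (nat_lit 23859669), (nat_lit 17778567), (nat_lit 12006452)] (nat_lit 5058382)) p15_30_3 (nat_lit 4) (nat_lit 45) (nat_lit 46) = true := by decide +kernel
def p15_30_3_46 : pfC (piC [(nat_lit 35404596), (nat_lit 23859669), (nat_lit 17778567), (nat_lit 12006452)] (nat_lit 5058382)) p15_30_3 (nat_lit 4) (nat_lit 46) (nat_lit 47) = true := by decide +kernel
def p15_30_3_47 : pfC (piC [(nat_lit 35404596), (nat_lit 23859669), (nat_lit 17778567), (nat_lit 12006452)] (nat_lit 5058382)) p15_30_3 (nat_lit 4) (nat_lit 47) (nat_lit 48) = true := by decide +kernel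
def p15_30_3_48 : pfC (piC [(nat_lit 35404596), (nat_lit 23859669), (nat_lit 17778567), (nat_lit 12006452)] (nat_lit 5058382)) p15_30_3 (nat_lit 4) (nat_lit 48) (nat_lit 49) = true := by decide +kernel
def p15_30_3_49 : pfC (piC [(nat_lit 35404596), (nat_lit 23859669), (nat_lit 17778567), (nat_lit 12006452)] (nat_lit 5058382)) p15_30_3 (nat_lit 4) (nat_lit 49) (nat_lit 50) = true := by decide +kernel
def p15_30_3_50 : pfC (piC [(nat_lit 35404596), (nat_lit 23859669), (nat_lit 17778567), (nat_lit 12006452)] (nat_lit 5058382)) p15_30_3 (nat_lit 4) (nat_lit 50) (nat_lit 51) = true := by decide +kernel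
def p15_30_3_51 : pfC (piC [(nat_lit 35404596), (nat_lit 23859669), (nat_lit 17778567), (nat_lit 12006452)] (nat_lit 5058382)) p15_30_3 (nat_lit 4) (nat_lit 51) (nat_lit 52) = true := by decide +kernel
def p15_30_3_52 : pfC (piC [(nat_lit 35404596), (nat_lit 23859669), (nat_lit 17778567), (nat_lit 12006452)] (nat_lit 5058382)) p15_30_3 (nat_lit 4) (nat_lit 52) (nat_lit 53) = true := by decide +kernel
def p15_30_3_53 : pfC (piC [(nat_lit 35404596), (nat_lit 23859669), (nat_lit 17778567), (nat_lit 12006452)] (nat_lit 5058382)) p15_30_3 (nat_lit 4) (nat_lit 53) (nat_lit 54) = true := by decide +kernel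
def p15_30_3_54 : pfC (piC [(nat_lit 35404596), (nat_lit 23859669), (nat_lit 17778567), (nat_lit 12006452)] (nat_lit 5058382)) p15_30_3 (nat_lit 4) (nat_lit 54) (nat_lit 55) = true := by decide +kernel
def p15_30_3_55 : pfC (piC [(nat_lit 35404596), (nat_lit 23859669), (nat_lit 17778567), (nat_lit 12006452)] (nat_lit 5058382)) p15_30_3 (nat_lit 4) (nat_lit 55) (nat_lit 56) = true := by decide +kernel
def p15_30_3_56 : pfC (piC [(nat_lit 35404596), (nat_lit 23859669), (nat_lit 17778567), (nat_lit 12006452)] (nat_lit 5058382)) p15_30_3 (nat_lit 4) (nat_lit 56) (nat_lit 57) = true := by decide +kernel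
def p15_30_3_57 : pfC (piC [(nat_lit 35404596), (nat_lit 23859669), (nat_lit 17778567), (nat_lit 12006452)] (nat_lit 5058382)) p15_30_3 (nat_lit 4) (nat_lit 57) (nat_lit 58) = true := by decide +kernel
def p15_30_3_58 : pfC (piC [(nat_lit 35404596), (nat_lit 23859669), (nat_lit 17778567), (nat_lit 12006452)] (nat_lit 5058382)) p15_30_3 (nat_lit 4) (nat_lit 58) (nat_lit 59) = true := by decide +kernel
def p15_30_3_59 : pfC (piC [(nat_lit 35404596), (nat_lit 23859669), (nat_lit 17778567), (nat_lit 12006452)] (nat_lit 5058382)) p15_30_3 (nat_lit 4) (nat_lit 59) (nat_lit 60) = true := by decide +kernel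
def p15_30_3_60 : pfC (piC [(nat_lit 35404596), (nat_lit 23859669), (nat_lit 17778567), (nat_lit 12006452)] (nat_lit 5058382)) p15_30_3 (nat_lit 4) (nat_lit 60) (nat_lit 61) = true := by decide +kernel
def p15_30_3_61 : pfC (piC [(nat_lit 35404596), (nat_lit 23859669), (nat_lit 17778567), (nat_lit 12006452)] (nat_lit 5058382)) p15_30_3 (nat_lit 4) (nat_lit 61) (nat_lit 62) = true := by decide +kernel
def p15_30_3_62 : pfC (piC [(nat_lit 35404596), (nat_lit 23859669), (nat_lit 17778567), (nat_lit 12006452)] (nat_lit 5058382)) p15_30_3 (nat_lit 4) (nat_lit 62) (nat_lit 63) = true := by decide +kernel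
def p15_30_3_63 : pfC (piC [(nat_lit 35404596), (nat_lit 23859669), (nat_lit 17778567), (nat_lit 12006452)] (nat_lit 5058382)) p15_30_3 (nat_lit 4) (nat_lit 63) (nat_lit 64) = true := by decide +kernel
def p15_30_3_64 : pfC (piC [(nat_lit 35404596), (nat_lit 23859669), (nat_lit 17778567), (nat_lit 12006452)] (nat_lit 5058382)) p15_30_3 (nat_lit 4) (nat_lit 64) (nat_lit 65) = true := by decide +kernel
def p15_30_3_65 : pfC (piC [(nat_lit 35404596), (nat_lit 23859669), (nat_lit 17778567), (nat_lit 12006452)] (nat_lit 5058382)) p15_30_3 (nat_lit 4) (nat_lit 65) (nat_lit 66) = true := by decide +kernel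
def p15_30_3_66 : pfC (piC [(nat_lit 35404596), (nat_lit 23859669), (nat_lit 17778567), (nat_lit 12006452)] (nat_lit 5058382)) p15_30_3 (nat_lit 4) (nat_lit 66) (nat_lit 67) = true := by decide +kernel
def p15_30_3_67 : pfC (piC [(nat_lit 35404596), (nat_lit 23859669), (nat_lit 17778567), (nat_lit 12006452)] (nat_lit 5058382)) p15_30_3 (nat_lit 4) (nat_lit 67) (nat_lit 68) = true := by decide +kernel
def p15_30_3_68 : pfC (piC [(nat_lit 35404596), (nat_lit 23859669), (nat_lit 17778567), (nat_lit 12006452)] (nat_lit 5058382)) p15_30_3 (nat_lit 4) (nat_lit 68) (nat_lit 69) = true := by decide +kernel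
def p15_30_3_69 : pfC (piC [(nat_lit 35404596), (nat_lit 23859669), (nat_lit 17778567), (nat_lit 12006452)] (nat_lit 5058382)) p15_30_3 (nat_lit 4) (nat_lit 69) (nat_lit 70) = true := by decide +kernel
def p15_30_3_70 : pfC (piC [(nat_lit 35404596), (nat_lit 23859669), (nat_lit 17778567), (nat_lit 12006452)] (nat_lit 5058382)) p15_30_3 (nat_lit 4) (nat_lit 70) (nat_lit 71) = true := by decide +kernel
def p15_30_3_71 : pfC (piC [(nat_lit 35404596), (nat_lit 23859669), (nat_lit 17778567), (nat_lit 12006452)] (nat_lit 5058382)) p15_30_3 (nat_lit 4) (nat_lit 71) (nat_lit 72) = true := by decide +kernel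
def p15_30_3_72 : pfC (piC [(nat_lit 35404596), (nat_lit 23859669), (nat_lit 17778567), (nat_lit 12006452)] (nat_lit 5058382)) p15_30_3 (nat_lit 4) (nat_lit 72) (nat_lit 73) = true := by decide +kernel
def p15_30_3_73 : pfC (piC [(nat_lit 35404596), (nat_lit 23859669), (nat_lit 17778567), (nat_lit 12006452)] (nat_lit 5058382)) p15_30_3 (nat_lit 4) (nat_lit 73) (nat_lit 74) = true := by decide +kernel
def p15_30_3_74 : pfC (piC [(nat_lit 35404596), (nat_lit 23859669), (nat_lit 17778567), (nat_lit 12006452)] (nat_lit 5058382)) p15_30_3 (nat_lit 4) (nat_lit 74) (nat_lit 75) = true := by decide +kernel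
def p15_30_3_75 : pfC (piC [(nat_lit 35404596), (nat_lit 23859669), (nat_lit 17778567), (nat_lit 12006452)] (nat_lit 5058382)) p15_30_3 (nat_lit 4) (nat_lit 75) (nat_lit 76) = true := by decide +kernel
def p15_30_3_76 : pfC (piC [(nat_lit 35404596), (nat_lit 23859669), (nat_lit 17778567), (nat_lit 12006452)] (nat_lit 5058382)) p15_30_3 (nat_lit 4) (nat_lit 76) (nat_lit 77) = true := by decide +kernel
def p15_30_3_77 : pfC (piC [(nat_lit 35404596), (nat_lit 23859669), (nat_lit 17778567), (nat_lit 12006452)] (nat_lit 5058382)) p15_30_3 (nat_lit 4) (nat_lit 77) (nat_lit 78) = true := by decide +kernel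
def p15_30_3_78 : pfC (piC [(nat_lit 35404596), (nat_lit 23859669), (nat_lit 17778567), (nat_lit 12006452)] (nat_lit 5058382)) p15_30_3 (nat_lit 4) (nat_lit 78) (nat_lit 79) = true := by decide +kernel
def p15_30_3_79 : pfC (piC [(nat_lit 35404596), (nat_lit 23859669), (nat_lit 17778567), (nat_lit 12006452)] (nat_lit 5058382)) p15_30_3 (nat_lit 4) (nat_lit 79) (nat_lit 80) = true := by decide +kernel
def p15_30_3_80 : pfC (piC [(nat_lit 35404596), (nat_lit 23859669), (nat_lit 17778567), (nat_lit 12006452)] (nat_lit 5058382)) p15_30_3 (nat_lit 4) (nat_lit 80) (nat_lit 81) = true := by decide +kernel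
def p15_30_3_81 : pfC (piC [(nat_lit 35404596), (nat_lit 23859669), (nat_lit 17778567), (nat_lit 12006452)] (nat_lit 5058382)) p15_30_3 (nat_lit 4) (nat_lit 81) (nat_lit 82) = true := by decide +kernel
def p15_30_3_82 : pfC (piC [(nat_lit 35404596), (nat_lit 23859669), (nat_lit 17778567), (nat_lit 12006452)] (nat_lit 5058382)) p15_30_3 (nat_lit 4) (nat_lit 82) (nat_lit 83) = true := by decide +kernel
def p15_30_3_83 : pfC (piC [(nat_lit 35404596), (nat_lit 23859669), (nat_lit 17778567), (nat_lit 12006452)] (nat_lit 5058382)) p15_30_3 (nat_lit 4) (nat_lit 83) (nat_lit 84) = true := by decide +kernel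
def p15_30_3_84 : pfC (piC [(nat_lit 35404596), (nat_lit 23859669), (nat_lit 17778567), (nat_lit 12006452)] (nat_lit 5058382)) p15_30_3 (nat_lit 4) (nat_lit 84) (nat_lit 85) = true := by decide +kernel
def p15_30_3_85 : pfC (piC [(nat_lit 35404596), (nat_lit 23859669), (nat_lit 17778567), (nat_lit 12006452)] (nat_lit 5058382)) p15_30_3 (nat_lit 4) (nat_lit 85) (nat_lit 86) = true := by decide +kernel
def p15_30_3_86 : pfC (piC [(nat_lit 35404596), (nat_lit 23859669), (nat_lit 17778567), (nat_lit 12006452)] (nat_lit 5058382)) p15_30_3 (nat_lit 4) (nat_lit 86) (nat_lit 87) = true := by decide +kernel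
def p15_30_3_87 : pfC (piC [(nat_lit 35404596), (nat_lit 23859669), (nat_lit 17778567), (nat_lit 12006452)] (nat_lit 5058382)) p15_30_3 (nat_lit 4) (nat_lit 87) (nat_lit 88) = true := by decide +kernel
def p15_30_3_88 : pfC (piC [(nat_lit 35404596), (nat_lit 23859669), (nat_lit 17778567), (nat_lit 12006452)] (nat_lit 5058382)) p15_30_3 (nat_lit 4) (nat_lit 88) (nat_lit 89) = true := by decide +kernel
def p15_30_3_89 : pfC (piC [(nat_lit 35404596), (nat_lit 23859669), (nat_lit 17778567), (nat_lit 12006452)] (nat_lit 5058382)) p15_30_3 (nat_lit 4) (nat_lit 89) (nat_lit 90) = true := by decide +kernel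
def p15_30_3_90 : pfC (piC [(nat_lit 35404596), (nat_lit 23859669), (nat_lit 17778567), (nat_lit 12006452)] (nat_lit 5058382)) p15_30_3 (nat_lit 4) (nat_lit 90) (nat_lit 91) = true := by decide +kernel
def p15_30_3_91 : pfC (piC [(nat_lit 35404596), (nat_lit 23859669), (nat_lit 17778567), (nat_lit 12006452)] (nat_lit 5058382)) p15_30_3 (nat_lit 4) (nat_lit 91) (nat_lit 92) = true := by decide +kernel
def p15_30_3_92 : pfC (piC [(nat_lit 35404596), (nat_lit 23859669), (nat_lit 17778567), (nat_lit 12006452)] (nat_lit 5058382)) p15_30_3 (nat_lit 4) (nat_lit 92) (nat_lit 93) = true := by decide +kernel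
def p15_30_3_93 : pfC (piC [(nat_lit 35404596), (nat_lit 23859669), (nat_lit 17778567), (nat_lit 12006452)] (nat_lit 5058382)) p15_30_3 (nat_lit 4) (nat_lit 93) (nat_lit 94) = true := by decide +kernel
def p15_30_3_94 : pfC (piC [(nat_lit 35404596), (nat_lit 23859669), (nat_lit 17778567), (nat_lit 12006452)] (nat_lit 5058382)) p15_30_3 (nat_lit 4) (nat_lit 94) (nat_lit 95) = true := by decide +kernel
def p15_30_3_95 : pfC (piC [(nat_lit 35404596), (nat_lit 23859669), (nat_lit 17778567), (nat_lit 12006452)] (nat_lit 5058382)) p15_30_3 (nat_lit 4) (nat_lit 95) (nat_lit 96) = true := by decide +kernel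
def p15_30_3_96 : pfC (piC [(nat_lit 35404596), (nat_lit 23859669), (nat_lit 17778567), (nat_lit 12006452)] (nat_lit 5058382)) p15_30_3 (nat_lit 4) (nat_lit 96) (nat_lit 97) = true := by decide +kernel
def p15_30_3_97 : pfC (piC [(nat_lit 35404596), (nat_lit 23859669), (nat_lit 17778567), (nat_lit 12006452)] (nat_lit 5058382)) p15_30_3 (nat_lit 4) (nat_lit 97) (nat_lit 98) = true := by decide +kernel
def p15_30_3_98 : pfC (piC [(nat_lit 35404596), (nat_lit 23859669), (nat_lit 17778567), (nat_lit 12006452)] (nat_lit 5058382)) p15_30_3 (nat_lit 4) (nat_lit 98) (nat_lit 99) = true := by decide +kernel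
def p15_30_3_99 : pfC (piC [(nat_lit 35404596), (nat_lit 23859669), (nat_lit 17778567), (nat_lit 12006452)] (nat_lit 5058382)) p15_30_3 (nat_lit 4) (nat_lit 99) (nat_lit 100) = true := by decide +kernel
def p15_30_3_100 : pfC (piC [(nat_lit 35404596), (nat_lit 23859669), (nat_lit 17778567), (nat_lit 12006452)] (nat_lit 5058382)) p15_30_3 (nat_lit 4) (nat_lit 100) (nat_lit 101) = true := by decide +kernel
def p15_30_3_101 : pfC (piC [(nat_lit 35404596), (nat_lit 23859669), (nat_lit 17778567), (nat_lit 12006452)] (nat_lit 5058382)) p15_30_3 (nat_lit 4) (nat_lit 101) (nat_lit 102) = true := by decide +kernel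
def p15_30_3_102 : pfC (piC [(nat_lit 35404596), (nat_lit 23859669), (nat_lit 17778567), (nat_lit 12006452)] (nat_lit 5058382)) p15_30_3 (nat_lit 4) (nat_lit 102) (nat_lit 103) = true := by decide +kernel
def p15_30_3_103 : pfC (piC [(nat_lit 35404596), (nat_lit 23859669), (nat_lit 17778567), (nat_lit 12006452)] (nat_lit 5058382)) p15_30_3 (nat_lit 4) (nat_lit 103) (nat_lit 104) = true := by decide +kernel
def p15_30_3_104 : pfC (piC [(nat_lit 35404596), (nat_lit 23859669), (nat_lit 17778567), (nat_lit 12006452)] (nat_lit 5058382)) p15_30_3 (nat_lit 4) (nat_lit 104) (nat_lit 105) = true := by decide +kernel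
def p15_30_3_105 : pfC (piC [(nat_lit 35404596), (nat_lit 23859669), (nat_lit 17778567), (nat_lit 12006452)] (nat_lit 5058382)) p15_30_3 (nat_lit 4) (nat_lit 105) (nat_lit 106) = true := by decide +kernel
def p15_30_3_106 : pfC (piC [(nat_lit 35404596), (nat_lit 23859669), (nat_lit 17778567), (nat_lit 12006452)] (nat_lit 5058382)) p15_30_3 (nat_lit 4) (nat_lit 106) (nat_lit 107) = true := by decide +kernel
def p15_30_3_107 : pfC (piC [(nat_lit 35404596), (nat_lit 23859669), (nat_lit 17778567), (nat_lit 12006452)] (nat_lit 5058382)) p15_30_3 (nat_lit 4) (nat_lit 107) (nat_lit 108) = true := by decide +kernel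
def p15_30_3_108 : pfC (piC [(nat_lit 35404596), (nat_lit 23859669), (nat_lit 17778567), (nat_lit 12006452)] (nat_lit 5058382)) p15_30_3 (nat_lit 4) (nat_lit 108) (nat_lit 109) = true := by decide +kernel
def p15_30_3_109 : pfC (piC [(nat_lit 35404596), (nat_lit 23859669), (nat_lit 17778567), (nat_lit 12006452)] (nat_lit 5058382)) p15_30_3 (nat_lit 4) (nat_lit 109) (nat_lit 110) = true := by decide +kernel
def p15_30_3_110 : pfC (piC [(nat_lit 35404596), (nat_lit 23859669), (nat_lit 17778567), (nat_lit 12006452)] (nat_lit 5058382)) p15_30_3 (nat_lit 4) (nat_lit 110) (nat_lit 111) = true := by decide +kernel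
def p15_30_3_111 : pfC (piC [(nat_lit 35404596), (nat_lit 23859669), (nat_lit 17778567), (nat_lit 12006452)] (nat_lit 5058382)) p15_30_3 (nat_lit 4) (nat_lit 111) (nat_lit 112) = true := by decide +kernel
def p15_30_3_112 : pfC (piC [(nat_lit 35404596), (nat_lit 23859669), (nat_lit 17778567), (nat_lit 12006452)] (nat_lit 5058382)) p15_30_3 (nat_lit 4) (nat_lit 112) (nat_lit 113) = true := by decide +kernel
def p15_30_3_113 : pfC (piC [(nat_lit 35404596), (nat_lit 23859669), (nat_lit 17778567), (nat_lit 12006452)] (nat_lit 5058382)) p15_30_3 (nat_lit 4) (nat_lit 113) (nat_lit 114) = true := by decide +kernel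
def p15_30_3_114 : pfC (piC [(nat_lit 35404596), (nat_lit 23859669), (nat_lit 17778567), (nat_lit 12006452)] (nat_lit 5058382)) p15_30_3 (nat_lit 4) (nat_lit 114) (nat_lit 115) = true := by decide +kernel
def p15_30_3_115 : pfC (piC [(nat_lit 35404596), (nat_lit 23859669), (nat_lit 17778567), (nat_lit 12006452)] (nat_lit 5058382)) p15_30_3 (nat_lit 4) (nat_lit 115) (nat_lit 116) = true := by decide +kernel
def p15_30_3_116 : pfC (piC [(nat_lit 35404596), (nat_lit 23859669), (nat_lit 17778567), (nat_lit 12006452)] (nat_lit 5058382)) p15_30_3 (nat_lit 4) (nat_lit 116) (nat_lit 117) = true := by decide +kernel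
def p15_30_3_117 : pfC (piC [(nat_lit 35404596), (nat_lit 23859669), (nat_lit 17778567), (nat_lit 12006452)] (nat_lit 5058382)) p15_30_3 (nat_lit 4) (nat_lit 117) (nat_lit 118) = true := by decide +kernel
def p15_30_3_118 : pfC (piC [(nat_lit 35404596), (nat_lit 23859669), (nat_lit 17778567), (nat_lit 12006452)] (nat_lit 5058382)) p15_30_3 (nat_lit 4) (nat_lit 118) (nat_lit 119) = true := by decide +kernel
def p15_30_3_119 : pfC (piC [(nat_lit 35404596), (nat_lit 23859669), (nat_lit 17778567), (nat_lit 12006452)] (nat_lit 5058382)) p15_30_3 (nat_lit 4) (nat_lit 119) (nat_lit 120) = true := by decide +kernel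
def p15_30_3_120 : pfC (piC [(nat_lit 35404596), (nat_lit 23859669), (nat_lit 17778567), (nat_lit 12006452)] (nat_lit 5058382)) p15_30_3 (nat_lit 4) (nat_lit 120) (nat_lit 121) = true := by decide +kernel
def p15_30_3_121 : pfC (piC [(nat_lit 35404596), (nat_lit 23859669), (nat_lit 17778567), (nat_lit 12006452)] (nat_lit 5058382)) p15_30_3 (nat_lit 4) (nat_lit 121) (nat_lit 122) = true := by decide +kernel
def p15_30_3_122 : pfC (piC [(nat_lit 35404596), (nat_lit 23859669), (nat_lit 17778567), (nat_lit 12006452)] (nat_lit 5058382)) p15_30_3 (nat_lit 4) (nat_lit 122) (nat_lit 123) = true := by decide +kernel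
def p15_30_3_123 : pfC (piC [(nat_lit 35404596), (nat_lit 23859669), (nat_lit 17778567), (nat_lit 12006452)] (nat_lit 5058382)) p15_30_3 (nat_lit 4) (nat_lit 123) (nat_lit 124) = true := by decide +kernel
def p15_30_3_124 : pfC (piC [(nat_lit 35404596), (nat_lit 23859669), (nat_lit 17778567), (nat_lit 12006452)] (nat_lit 5058382)) p15_30_3 (nat_lit 4) (nat_lit 124) (nat_lit 125) = true := by decide +kernel
def p15_30_3_125 : pfC (piC [(nat_lit 35404596), (nat_lit 23859669), (nat_lit 17778567), (nat_lit 12006452)] (nat_lit 5058382)) p15_30_3 (nat_lit 4) (nat_lit 125) (nat_lit 126) = true := by decide +kernel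
def p15_30_3_126 : pfC (piC [(nat_lit 35404596), (nat_lit 23859669), (nat_lit 17778567), (nat_lit 12006452)] (nat_lit 5058382)) p15_30_3 (nat_lit 4) (nat_lit 126) (nat_lit 127) = true := by decide +kernel
def p15_30_3_127 : pfC (piC [(nat_lit 35404596), (nat_lit 23859669), (nat_lit 17778567), (nat_lit 12006452)] (nat_lit 5058382)) p15_30_3 (nat_lit 4) (nat_lit 127) (nat_lit 128) = true := by decide +kernel
def p15_30_3_128 : pfC (piC [(nat_lit 35404596), (nat_lit 23859669), (nat_lit 17778567), (nat_lit 12006452)] (nat_lit 5058382)) p15_30_3 (nat_lit 4) (nat_lit 128) (nat_lit 129) = true := by decide +kernel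
def p15_30_3_129 : pfC (piC [(nat_lit 35404596), (nat_lit 23859669), (nat_lit 17778567), (nat_lit 12006452)] (nat_lit 5058382)) p15_30_3 (nat_lit 4) (nat_lit 129) (nat_lit 130) = true := by decide +kernel
def p15_30_3_130 : pfC (piC [(nat_lit 35404596), (nat_lit 23859669), (nat_lit 17778567), (nat_lit 12006452)] (nat_lit 5058382)) p15_30_3 (nat_lit 4) (nat_lit 130) (nat_lit 131) = true := by decide +kernel
def p15_30_3_131 : pfC (piC [(nat_lit 35404596), (nat_lit 23859669), (nat_lit 17778567), (nat_lit 12006452)] (nat_lit 5058382)) p15_30_3 (nat_lit 4) (nat_lit 131) (nat_lit 132) = true := by decide +kernel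
def p15_30_3_132 : pfC (piC [(nat_lit 35404596), (nat_lit 23859669), (nat_lit 17778567), (nat_lit 12006452)] (nat_lit 5058382)) p15_30_3 (nat_lit 4) (nat_lit 132) (nat_lit 133) = true := by decide +kernel
def p15_30_3_133 : pfC (piC [(nat_lit 35404596), (nat_lit 23859669), (nat_lit 17778567), (nat_lit 12006452)] (nat_lit 5058382)) p15_30_3 (nat_lit 4) (nat_lit 133) (nat_lit 134) = true := by decide +kernel
def p15_30_3_134 : pfC (piC [(nat_lit 35404596), (nat_lit 23859669), (nat_lit 17778567), (nat_lit 12006452)] (nat_lit 5058382)) p15_30_3 (nat_lit 4) (nat_lit 134) (nat_lit 135) = true := by decide +kernel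
def p15_30_3_135 : pfC (piC [(nat_lit 35404596), (nat_lit 23859669), (nat_lit 17778567), (nat_lit 12006452)] (nat_lit 5058382)) p15_30_3 (nat_lit 4) (nat_lit 135) (nat_lit 136) = true := by decide +kernel
def p15_30_3_136 : pfC (piC [(nat_lit 35404596), (nat_lit 23859669), (nat_lit 17778567), (nat_lit 12006452)] (nat_lit 5058382)) p15_30_3 (nat_lit 4) (nat_lit 136) (nat_lit 137) = true := by decide +kernel
def p15_30_3_137 : pfC (piC [(nat_lit 35404596), (nat_lit 23859669), (nat_lit 17778567), (nat_lit 12006452)] (nat_lit 5058382)) p15_30_3 (nat_lit 4) (nat_lit 137) (nat_lit 138) = true := by decide +kernel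
def p15_30_3_138 : pfC (piC [(nat_lit 35404596), (nat_lit 23859669), (nat_lit 17778567), (nat_lit 12006452)] (nat_lit 5058382)) p15_30_3 (nat_lit 4) (nat_lit 138) (nat_lit 139) = true := by decide +kernel
def p15_30_3_139 : pfC (piC [(nat_lit 35404596), (nat_lit 23859669), (nat_lit 17778567), (nat_lit 12006452)] (nat_lit 5058382)) p15_30_3 (nat_lit 4) (nat_lit 139) (nat_lit 140) = true := by decide +kernel
def p15_30_3_140 : pfC (piC [(nat_lit 35404596), (nat_lit 23859669), (nat_lit 17778567), (nat_lit 12006452)] (nat_lit 5058382)) p15_30_3 (nat_lit 4) (nat_lit 140) (nat_lit 141) = true := by decide +kernel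
def p15_30_3_141 : pfC (piC [(nat_lit 35404596), (nat_lit 23859669), (nat_lit 17778567), (nat_lit 12006452)] (nat_lit 5058382)) p15_30_3 (nat_lit 4) (nat_lit 141) (nat_lit 142) = true := by decide +kernel
def p15_30_3_142 : pfC (piC [(nat_lit 35404596), (nat_lit 23859669), (nat_lit 17778567), (nat_lit 12006452)] (nat_lit 5058382)) p15_30_3 (nat_lit 4) (nat_lit 142) (nat_lit 143) = true := by decide +kernel
def p15_30_3_143 : pfC (piC [(nat_lit 35404596), (nat_lit 23859669), (nat_lit 17778567), (nat_lit 12006452)] (nat_lit 5058382)) p15_30_3 (nat_lit 4) (nat_lit 143) (nat_lit 144) = true := by decide +kernel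
def p15_30_3_144 : pfC (piC [(nat_lit 35404596), (nat_lit 23859669), (nat_lit 17778567), (nat_lit 12006452)] (nat_lit 5058382)) p15_30_3 (nat_lit 4) (nat_lit 144) (nat_lit 145) = true := by decide +kernel
def p15_30_3_145 : pfC (piC [(nat_lit 35404596), (nat_lit 23859669), (nat_lit 17778567), (nat_lit 12006452)] (nat_lit 5058382)) p15_30_3 (nat_lit 4) (nat_lit 145) (nat_lit 146) = true := by decide +kernel
def p15_30_3_146 : pfC (piC [(nat_lit 35404596), (nat_lit 23859669), (nat_lit 17778567), (nat_lit 12006452)] (nat_lit 5058382)) p15_30_3 (nat_lit 4) (nat_lit 146) (nat_lit 147) = true := by decide +kernel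
def p15_30_3_147 : pfC (piC [(nat_lit 35404596), (nat_lit 23859669), (nat_lit 17778567), (nat_lit 12006452)] (nat_lit 5058382)) p15_30_3 (nat_lit 4) (nat_lit 147) (nat_lit 148) = true := by decide +kernel
def p15_30_3_148 : pfC (piC [(nat_lit 35404596), (nat_lit 23859669), (nat_lit 17778567), (nat_lit 12006452)] (nat_lit 5058382)) p15_30_3 (nat_lit 4) (nat_lit 148) (nat_lit 149) = true := by decide +kernel
def p15_30_3_149 : pfC (piC [(nat_lit 35404596), (nat_lit 23859669), (nat_lit 17778567), (nat_lit 12006452)] (nat_lit 5058382)) p15_30_3 (nat_lit 4) (nat_lit 149) (nat_lit 150) = true := by decide +kernel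
def p15_30_3_150 : pfC (piC [(nat_lit 35404596), (nat_lit 23859669), (nat_lit 17778567), (nat_lit 12006452)] (nat_lit 5058382)) p15_30_3 (nat_lit 4) (nat_lit 150) (nat_lit 151) = true := by decide +kernel
def p15_30_3_151 : pfC (piC [(nat_lit 35404596), (nat_lit 23859669), (nat_lit 17778567), (nat_lit 12006452)] (nat_lit 5058382)) p15_30_3 (nat_lit 4) (nat_lit 151) (nat_lit 152) = true := by decide +kernel
def p15_30_3_152 : pfC (piC [(nat_lit 35404596), (nat_lit 23859669), (nat_lit 17778567), (nat_lit 12006452)] (nat_lit 5058382)) p15_30_3 (nat_lit 4) (nat_lit 152) (nat_lit 153) = true := by decide +kernel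
def p15_30_3_153 : pfC (piC [(nat_lit 35404596), (nat_lit 23859669), (nat_lit 17778567), (nat_lit 12006452)] (nat_lit 5058382)) p15_30_3 (nat_lit 4) (nat_lit 153) (nat_lit 154) = true := by decide +kernel
def p15_30_3_154 : pfC (piC [(nat_lit 35404596), (nat_lit 23859669), (nat_lit 17778567), (nat_lit 12006452)] (nat_lit 5058382)) p15_30_3 (nat_lit 4) (nat_lit 154) (nat_lit 155) = true := by decide +kernel
def p15_30_3_155 : pfC (piC [(nat_lit 35404596), (nat_lit 23859669), (nat_lit 17778567), (nat_lit 12006452)] (nat_lit 5058382)) p15_30_3 (nat_lit 4) (nat_lit 155) (nat_lit 156) = true := by decide +kernel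
def p15_30_3_156 : pfC (piC [(nat_lit 35404596), (nat_lit 23859669), (nat_lit 17778567), (nat_lit 12006452)] (nat_lit 5058382)) p15_30_3 (nat_lit 4) (nat_lit 156) (nat_lit 157) = true := by decide +kernel
def p15_30_3_157 : pfC (piC [(nat_lit 35404596), (nat_lit 23859669), (nat_lit 17778567), (nat_lit 12006452)] (nat_lit 5058382)) p15_30_3 (nat_lit 4) (nat_lit 157) (nat_lit 158) = true := by decide +kernel
def p15_30_3_158 : pfC (piC [(nat_lit 35404596), (nat_lit 23859669), (nat_lit 17778567), (nat_lit 12006452)] (nat_lit 5058382)) p15_30_3 (nat_lit 4) (nat_lit 158) (nat_lit 159) = true := by decide +kernel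
def p15_30_3_159 : pfC (piC [(nat_lit 35404596), (nat_lit 23859669), (nat_lit 17778567), (nat_lit 12006452)] (nat_lit 5058382)) p15_30_3 (nat_lit 4) (nat_lit 159) (nat_lit 160) = true := by decide +kernel
def p15_30_3_160 : pfC (piC [(nat_lit 35404596), (nat_lit 23859669), (nat_lit 17778567), (nat_lit 12006452)] (nat_lit 5058382)) p15_30_3 (nat_lit 4) (nat_lit 160) (nat_lit 161) = true := by decide +kernel
def p15_30_3_161 : pfC (piC [(nat_lit 35404596), (nat_lit 23859669), (nat_lit 17778567), (nat_lit 12006452)] (nat_lit 5058382)) p15_30_3 (nat_lit 4) (nat_lit 161) (nat_lit 162) = true := by decide +kernel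
def p15_30_3_162 : pfC (piC [(nat_lit 35404596), (nat_lit 23859669), (nat_lit 17778567), (nat_lit 12006452)] (nat_lit 5058382)) p15_30_3 (nat_lit 4) (nat_lit 162) (nat_lit 163) = true := by decide +kernel
def p15_30_3_163 : pfC (piC [(nat_lit 35404596), (nat_lit 23859669), (nat_lit 17778567), (nat_lit 12006452)] (nat_lit 5058382)) p15_30_3 (nat_lit 4) (nat_lit 163) (nat_lit 164) = true := by decide +kernel
def p15_30_3_164 : pfC (piC [(nat_lit 35404596), (nat_lit 23859669), (nat_lit 17778567), (nat_lit 12006452)] (nat_lit 5058382)) p15_30_3 (nat_lit 4) (nat_lit 164) (nat_lit 165) = true := by decide +kernel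
def p15_30_3_165 : pfC (piC [(nat_lit 35404596), (nat_lit 23859669), (nat_lit 17778567), (nat_lit 12006452)] (nat_lit 5058382)) p15_30_3 (nat_lit 4) (nat_lit 165) (nat_lit 166) = true := by decide +kernel
def p15_30_3_166 : pfC (piC [(nat_lit 35404596), (nat_lit 23859669), (nat_lit 17778567), (nat_lit 12006452)] (nat_lit 5058382)) p15_30_3 (nat_lit 4) (nat_lit 166) (nat_lit 167) = true := by decide +kernel
def p15_30_3_167 : pfC (piC [(nat_lit 35404596), (nat_lit 23859669), (nat_lit 17778567), (nat_lit 12006452)] (nat_lit 5058382)) p15_30_3 (nat_lit 4) (nat_lit 167) (nat_lit 168) = true := by decide +kernel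
def p15_30_3_168 : pfC (piC [(nat_lit 35404596), (nat_lit 23859669), (nat_lit 17778567), (nat_lit 12006452)] (nat_lit 5058382)) p15_30_3 (nat_lit 4) (nat_lit 168) (nat_lit 169) = true := by decide +kernel
def p15_30_3_169 : pfC (piC [(nat_lit 35404596), (nat_lit 23859669), (nat_lit 17778567), (nat_lit 12006452)] (nat_lit 5058382)) p15_30_3 (nat_lit 4) (nat_lit 169) (nat_lit 170) = true := by decide +kernel
def p15_30_3_170 : pfC (piC [(nat_lit 35404596), (nat_lit 23859669), (nat_lit 17778567), (nat_lit 12006452)] (nat_lit 5058382)) p15_30_3 (nat_lit 4) (nat_lit 170) (nat_lit 171) = true := by decide +kernel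
def p15_30_3_171 : pfC (piC [(nat_lit 35404596), (nat_lit 23859669), (nat_lit 17778567), (nat_lit 12006452)] (nat_lit 5058382)) p15_30_3 (nat_lit 4) (nat_lit 171) (nat_lit 172) = true := by decide +kernel
def p15_30_3_172 : pfC (piC [(nat_lit 35404596), (nat_lit 23859669), (nat_lit 17778567), (nat_lit 12006452)] (nat_lit 5058382)) p15_30_3 (nat_lit 4) (nat_lit 172) (nat_lit 173) = true := by decide +kernel
def p15_30_3_173 : pfC (piC [(nat_lit 35404596), (nat_lit 23859669), (nat_lit 17778567), (nat_lit 12006452)] (nat_lit 5058382)) p15_30_3 (nat_lit 4) (nat_lit 173) (nat_lit 174) = true := by decide +kernel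
def p15_30_3_174 : pfC (piC [(nat_lit 35404596), (nat_lit 23859669), (nat_lit 17778567), (nat_lit 12006452)] (nat_lit 5058382)) p15_30_3 (nat_lit 4) (nat_lit 174) (nat_lit 175) = true := by decide +kernel
def p15_30_3_175 : pfC (piC [(nat_lit 35404596), (nat_lit 23859669), (nat_lit 17778567), (nat_lit 12006452)] (nat_lit 5058382)) p15_30_3 (nat_lit 4) (nat_lit 175) (nat_lit 176) = true := by decide +kernel
def p15_30_3_176 : pfC (piC [(nat_lit 35404596), (nat_lit 23859669), (nat_lit 17778567), (nat_lit 12006452)] (nat_lit 5058382)) p15_30_3 (nat_lit 4) (nat_lit 176) (nat_lit 177) = true := by decide +kernel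
def p15_30_3_177 : pfC (piC [(nat_lit 35404596), (nat_lit 23859669), (nat_lit 17778567), (nat_lit 12006452)] (nat_lit 5058382)) p15_30_3 (nat_lit 4) (nat_lit 177) (nat_lit 178) = true := by decide +kernel
def p15_30_3_178 : pfC (piC [(nat_lit 35404596), (nat_lit 23859669), (nat_lit 17778567), (nat_lit 12006452)] (nat_lit 5058382)) p15_30_3 (nat_lit 4) (nat_lit 178) (nat_lit 179) = true := by decide +kernel
def p15_30_3_179 : pfC (piC [(nat_lit 35404596), (nat_lit 23859669), (nat_lit 17778567), (nat_lit 12006452)] (nat_lit 5058382)) p15_30_3 (nat_lit 4) (nat_lit 179) (nat_lit 180) = true := by decide +kernel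
def p15_30_3_180 : pfC (piC [(nat_lit 35404596), (nat_lit 23859669), (nat_lit 17778567), (nat_lit 12006452)] (nat_lit 5058382)) p15_30_3 (nat_lit 4) (nat_lit 180) (nat_lit 181) = true := by decide +kernel
def p15_30_3_181 : pfC (piC [(nat_lit 35404596), (nat_lit 23859669), (nat_lit 17778567), (nat_lit 12006452)] (nat_lit 5058382)) p15_30_3 (nat_lit 4) (nat_lit 181) (nat_lit 182) = true := by decide +kernel
def p15_30_3_182 : pfC (piC [(nat_lit 35404596), (nat_lit 23859669), (nat_lit 17778567), (nat_lit 12006452)] (nat_lit 5058382)) p15_30_3 (nat_lit 4) (nat_lit 182) (nat_lit 183) = true := by decide +kernel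
def p15_30_3_183 : pfC (piC [(nat_lit 35404596), (nat_lit 23859669), (nat_lit 17778567), (nat_lit 12006452)] (nat_lit 5058382)) p15_30_3 (nat_lit 4) (nat_lit 183) (nat_lit 184) = true := by decide +kernel
def p15_30_3_184 : pfC (piC [(nat_lit 35404596), (nat_lit 23859669), (nat_lit 17778567), (nat_lit 12006452)] (nat_lit 5058382)) p15_30_3 (nat_lit 4) (nat_lit 184) (nat_lit 185) = true := by decide +kernel
def p15_30_3_185 : pfC (piC [(nat_lit 35404596), (nat_lit 23859669), (nat_lit 17778567), (nat_lit 12006452)] (nat_lit 5058382)) p15_30_3 (nat_lit 4) (nat_lit 185) (nat_lit 186) = true := by decide +kernel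
def p15_30_3_186 : pfC (piC [(nat_lit 35404596), (nat_lit 23859669), (nat_lit 17778567), (nat_lit 12006452)] (nat_lit 5058382)) p15_30_3 (nat_lit 4) (nat_lit 186) (nat_lit 187) = true := by decide +kernel
def p15_30_3_187 : pfC (piC [(nat_lit 35404596), (nat_lit 23859669), (nat_lit 17778567), (nat_lit 12006452)] (nat_lit 5058382)) p15_30_3 (nat_lit 4) (nat_lit 187) (nat_lit 188) = true := by decide +kernel
def p15_30_3_188 : pfC (piC [(nat_lit 35404596), (nat_lit 23859669), (nat_lit 17778567), (nat_lit 12006452)] (nat_lit 5058382)) p15_30_3 (nat_lit 4) (nat_lit 188) (nat_lit 189) = true := by decide +kernel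
def p15_30_3_189 : pfC (piC [(nat_lit 35404596), (nat_lit 23859669), (nat_lit 17778567), (nat_lit 12006452)] (nat_lit 5058382)) p15_30_3 (nat_lit 4) (nat_lit 189) (nat_lit 190) = true := by decide +kernel
def p15_30_3_190 : pfC (piC [(nat_lit 35404596), (nat_lit 23859669), (nat_lit 17778567), (nat_lit 12006452)] (nat_lit 5058382)) p15_30_3 (nat_lit 4) (nat_lit 190) (nat_lit 191) = true := by decide +kernel
def p15_30_3_191 : pfC (piC [(nat_lit 35404596), (nat_lit 23859669), (nat_lit 17778567), (nat_lit 12006452)] (nat_lit 5058382)) p15_30_3 (nat_lit 4) (nat_lit 191) (nat_lit 192) = true := by decide +kernel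
def p15_30_3_192 : pfC (piC [(nat_lit 35404596), (nat_lit 23859669), (nat_lit 17778567), (nat_lit 12006452)] (nat_lit 5058382)) p15_30_3 (nat_lit 4) (nat_lit 192) (nat_lit 193) = true := by decide +kernel
def p15_30_3_193 : pfC (piC [(nat_lit 35404596), (nat_lit 23859669), (nat_lit 17778567), (nat_lit 12006452)] (nat_lit 5058382)) p15_30_3 (nat_lit 4) (nat_lit 193) (nat_lit 194) = true := by decide +kernel
def p15_30_3_194 : pfC (piC [(nat_lit 35404596), (nat_lit 23859669), (nat_lit 17778567), (nat_lit 12006452)] (nat_lit 5058382)) p15_30_3 (nat_lit 4) (nat_lit 194) (nat_lit 195) = true := by decide +kernel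
def p15_30_3_195 : pfC (piC [(nat_lit 35404596), (nat_lit 23859669), (nat_lit 17778567), (nat_lit 12006452)] (nat_lit 5058382)) p15_30_3 (nat_lit 4) (nat_lit 195) (nat_lit 196) = true := by decide +kernel
def p15_30_3_196 : pfC (piC [(nat_lit 35404596), (nat_lit 23859669), (nat_lit 17778567), (nat_lit 12006452)] (nat_lit 5058382)) p15_30_3 (nat_lit 4) (nat_lit 196) (nat_lit 197) = true := by decide +kernel
def p15_30_3_197 : pfC (piC [(nat_lit 35404596), (nat_lit 23859669), (nat_lit 17778567), (nat_lit 12006452)] (nat_lit 5058382)) p15_30_3 (nat_lit 4) (nat_lit 197) (nat_lit 198) = true := by decide +kernel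
def p15_30_3_198 : pfC (piC [(nat_lit 35404596), (nat_lit 23859669), (nat_lit 17778567), (nat_lit 12006452)] (nat_lit 5058382)) p15_30_3 (nat_lit 4) (nat_lit 198) (nat_lit 199) = true := by decide +kernel
def p15_30_3_199 : pfC (piC [(nat_lit 35404596), (nat_lit 23859669), (nat_lit 17778567), (nat_lit 12006452)] (nat_lit 5058382)) p15_30_3 (nat_lit 4) (nat_lit 199) (nat_lit 200) = true := by decide +kernel
def p15_30_3_200 : pfC (piC [(nat_lit 35404596), (nat_lit 23859669), (nat_lit 17778567), (nat_lit 12006452)] (nat_lit 5058382)) p15_30_3 (nat_lit 4) (nat_lit 200) (nat_lit 201) = true := by decide +kernel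
def p15_30_3_201 : pfC (piC [(nat_lit 35404596), (nat_lit 23859669), (nat_lit 17778567), (nat_lit 12006452)] (nat_lit 5058382)) p15_30_3 (nat_lit 4) (nat_lit 201) (nat_lit 202) = true := by decide +kernel
def p15_30_3_202 : pfC (piC [(nat_lit 35404596), (nat_lit 23859669), (nat_lit 17778567), (nat_lit 12006452)] (nat_lit 5058382)) p15_30_3 (nat_lit 4) (nat_lit 202) (nat_lit 203) = true := by decide +kernel
def p15_30_3_203 : pfC (piC [(nat_lit 35404596), (nat_lit 23859669), (nat_lit 17778567), (nat_lit 12006452)] (nat_lit 5058382)) p15_30_3 (nat_lit 4) (nat_lit 203) (nat_lit 204) = true := by decide +kernel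
def p15_30_3_204 : pfC (piC [(nat_lit 35404596), (nat_lit 23859669), (nat_lit 17778567), (nat_lit 12006452)] (nat_lit 5058382)) p15_30_3 (nat_lit 4) (nat_lit 204) (nat_lit 205) = true := by decide +kernel
def p15_30_3_205 : pfC (piC [(nat_lit 35404596), (nat_lit 23859669), (nat_lit 17778567), (nat_lit 12006452)] (nat_lit 5058382)) p15_30_3 (nat_lit 4) (nat_lit 205) (nat_lit 206) = true := by decide +kernel
def p15_30_3_206 : pfC (piC [(nat_lit 35404596), (nat_lit 23859669), (nat_lit 17778567), (nat_lit 12006452)] (nat_lit 5058382)) p15_30_3 (nat_lit 4) (nat_lit 206) (nat_lit 207) = true := by decide +kernel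
def p15_30_3_207 : pfC (piC [(nat_lit 35404596), (nat_lit 23859669), (nat_lit 17778567), (nat_lit 12006452)] (nat_lit 5058382)) p15_30_3 (nat_lit 4) (nat_lit 207) (nat_lit 208) = true := by decide +kernel
def p15_30_3_208 : pfC (piC [(nat_lit 35404596), (nat_lit 23859669), (nat_lit 17778567), (nat_lit 12006452)] (nat_lit 5058382)) p15_30_3 (nat_lit 4) (nat_lit 208) (nat_lit 209) = true := by decide +kernel
def p15_30_3_209 : pfC (piC [(nat_lit 35404596), (nat_lit 23859669), (nat_lit 17778567), (nat_lit 12006452)] (nat_lit 5058382)) p15_30_3 (nat_lit 4) (nat_lit 209) (nat_lit 210) = true := by decide +kernel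
def p15_30_3_210 : pfC (piC [(nat_lit 35404596), (nat_lit 23859669), (nat_lit 17778567), (nat_lit 12006452)] (nat_lit 5058382)) p15_30_3 (nat_lit 4) (nat_lit 210) (nat_lit 211) = true := by decide +kernel
def p15_30_3_211 : pfC (piC [(nat_lit 35404596), (nat_lit 23859669), (nat_lit 17778567), (nat_lit 12006452)] (nat_lit 5058382)) p15_30_3 (nat_lit 4) (nat_lit 211) (nat_lit 212) = true := by decide +kernel
def p15_30_3_212 : pfC (piC [(nat_lit 35404596), (nat_lit 23859669), (nat_lit 17778567), (nat_lit 12006452)] (nat_lit 5058382)) p15_30_3 (nat_lit 4) (nat_lit 212) (nat_lit 213) = true := by decide +kernel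
def p15_30_3_213 : pfC (piC [(nat_lit 35404596), (nat_lit 23859669), (nat_lit 17778567), (nat_lit 12006452)] (nat_lit 5058382)) p15_30_3 (nat_lit 4) (nat_lit 213) (nat_lit 214) = true := by decide +kernel
def p15_30_3_214 : pfC (piC [(nat_lit 35404596), (nat_lit 23859669), (nat_lit 17778567), (nat_lit 12006452)] (nat_lit 5058382)) p15_30_3 (nat_lit 4) (nat_lit 214) (nat_lit 215) = true := by decide +kernel
def p15_30_3_215 : pfC (piC [(nat_lit 35404596), (nat_lit 23859669), (nat_lit 17778567), (nat_lit 12006452)] (nat_lit 5058382)) p15_30_3 (nat_lit 4) (nat_lit 215) (nat_lit 216) = true := by decide +kernel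
def p15_30_3_216 : pfC (piC [(nat_lit 35404596), (nat_lit 23859669), (nat_lit 17778567), (nat_lit 12006452)] (nat_lit 5058382)) p15_30_3 (nat_lit 4) (nat_lit 216) (nat_lit 217) = true := by decide +kernel
def p15_30_3_217 : pfC (piC [(nat_lit 35404596), (nat_lit 23859669), (nat_lit 17778567), (nat_lit 12006452)] (nat_lit 5058382)) p15_30_3 (nat_lit 4) (nat_lit 217) (nat_lit 218) = true := by decide +kernel
def p15_30_3_218 : pfC (piC [(nat_lit 35404596), (nat_lit 23859669), (nat_lit 17778567), (nat_lit 12006452)] (nat_lit 5058382)) p15_30_3 (nat_lit 4) (nat_lit 218) (nat_lit 219) = true := by decide +kernel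
def p15_30_3_219 : pfC (piC [(nat_lit 35404596), (nat_lit 23859669), (nat_lit 17778567), (nat_lit 12006452)] (nat_lit 5058382)) p15_30_3 (nat_lit 4) (nat_lit 219) (nat_lit 220) = true := by decide +kernel
def p15_30_3_220 : pfC (piC [(nat_lit 35404596), (nat_lit 23859669), (nat_lit 17778567), (nat_lit 12006452)] (nat_lit 5058382)) p15_30_3 (nat_lit 4) (nat_lit 220) (nat_lit 221) = true := by decide +kernel
def p15_30_3_221 : pfC (piC [(nat_lit 35404596), (nat_lit 23859669), (nat_lit 17778567), (nat_lit 12006452)] (nat_lit 5058382)) p15_30_3 (nat_lit 4) (nat_lit 221) (nat_lit 222) = true := by decide +kernel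
def p15_30_3_222 : pfC (piC [(nat_lit 35404596), (nat_lit 23859669), (nat_lit 17778567), (nat_lit 12006452)] (nat_lit 5058382)) p15_30_3 (nat_lit 4) (nat_lit 222) (nat_lit 223) = true := by decide +kernel
def p15_30_3_223 : pfC (piC [(nat_lit 35404596), (nat_lit 23859669), (nat_lit 17778567), (nat_lit 12006452)] (nat_lit 5058382)) p15_30_3 (nat_lit 4) (nat_lit 223) (nat_lit 224) = true := by decide +kernel
def p15_30_3_224 : pfC (piC [(nat_lit 35404596), (nat_lit 23859669), (nat_lit 17778567), (nat_lit 12006452)] (nat_lit 5058382)) p15_30_3 (nat_lit 4) (nat_lit 224) (nat_lit 225) = true := by decide +kernel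
def p15_30_3_225 : pfC (piC [(nat_lit 35404596), (nat_lit 23859669), (nat_lit 17778567), (nat_lit 12006452)] (nat_lit 5058382)) p15_30_3 (nat_lit 4) (nat_lit 225) (nat_lit 226) = true := by decide +kernel
def p15_30_3_226 : pfC (piC [(nat_lit 35404596), (nat_lit 23859669), (nat_lit 17778567), (nat_lit 12006452)] (nat_lit 5058382)) p15_30_3 (nat_lit 4) (nat_lit 226) (nat_lit 227) = true := by decide +kernel
def p15_30_3_227 : pfC (piC [(nat_lit 35404596), (nat_lit 23859669), (nat_lit 17778567), (nat_lit 12006452)] (nat_lit 5058382)) p15_30_3 (nat_lit 4) (nat_lit 227) (nat_lit 228) = true := by decide +kernel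
def p15_30_3_228 : pfC (piC [(nat_lit 35404596), (nat_lit 23859669), (nat_lit 17778567), (nat_lit 12006452)] (nat_lit 5058382)) p15_30_3 (nat_lit 4) (nat_lit 228) (nat_lit 229) = true := by decide +kernel
def p15_30_3_229 : pfC (piC [(nat_lit 35404596), (nat_lit 23859669), (nat_lit 17778567), (nat_lit 12006452)] (nat_lit 5058382)) p15_30_3 (nat_lit 4) (nat_lit 229) (nat_lit 230) = true := by decide +kernel
def p15_30_3_230 : pfC (piC [(nat_lit 35404596), (nat_lit 23859669), (nat_lit 17778567), (nat_lit 12006452)] (nat_lit 5058382)) p15_30_3 (nat_lit 4) (nat_lit 230) (nat_lit 231) = true := by decide +kernel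
def p15_30_3_231 : pfC (piC [(nat_lit 35404596), (nat_lit 23859669), (nat_lit 17778567), (nat_lit 12006452)] (nat_lit 5058382)) p15_30_3 (nat_lit 4) (nat_lit 231) (nat_lit 232) = true := by decide +kernel
def p15_30_3_232 : pfC (piC [(nat_lit 35404596), (nat_lit 23859669), (nat_lit 17778567), (nat_lit 12006452)] (nat_lit 5058382)) p15_30_3 (nat_lit 4) (nat_lit 232) (nat_lit 233) = true := by decide +kernel
def p15_30_3_233 : pfC (piC [(nat_lit 35404596), (nat_lit 23859669), (nat_lit 17778567), (nat_lit 12006452)] (nat_lit 5058382)) p15_30_3 (nat_lit 4) (nat_lit 233) (nat_lit 234) = true := by decide +kernel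
def p15_30_3_234 : pfC (piC [(nat_lit 35404596), (nat_lit 23859669), (nat_lit 17778567), (nat_lit 12006452)] (nat_lit 5058382)) p15_30_3 (nat_lit 4) (nat_lit 234) (nat_lit 235) = true := by decide +kernel
def p15_30_3_235 : pfC (piC [(nat_lit 35404596), (nat_lit 23859669), (nat_lit 17778567), (nat_lit 12006452)] (nat_lit 5058382)) p15_30_3 (nat_lit 4) (nat_lit 235) (nat_lit 236) = true := by decide +kernel
def p15_30_3_236 : pfC (piC [(nat_lit 35404596), (nat_lit 23859669), (nat_lit 17778567), (nat_lit 12006452)] (nat_lit 5058382)) p15_30_3 (nat_lit 4) (nat_lit 236) (nat_lit 237) = true := by decide +kernel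
def p15_30_3_237 : pfC (piC [(nat_lit 35404596), (nat_lit 23859669), (nat_lit 17778567), (nat_lit 12006452)] (nat_lit 5058382)) p15_30_3 (nat_lit 4) (nat_lit 237) (nat_lit 238) = true := by decide +kernel
def p15_30_3_238 : pfC (piC [(nat_lit 35404596), (nat_lit 23859669), (nat_lit 17778567), (nat_lit 12006452)] (nat_lit 5058382)) p15_30_3 (nat_lit 4) (nat_lit 238) (nat_lit 239) = true := by decide +kernel
def p15_30_3_239 : pfC (piC [(nat_lit 35404596), (nat_lit 23859669), (nat_lit 17778567), (nat_lit 12006452)] (nat_lit 5058382)) p15_30_3 (nat_lit 4) (nat_lit 239) (nat_lit 240) = true := by decide +kernel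
def p15_30_3_240 : pfC (piC [(nat_lit 35404596), (nat_lit 23859669), (nat_lit 17778567), (nat_lit 12006452)] (nat_lit 5058382)) p15_30_3 (nat_lit 4) (nat_lit 240) (nat_lit 241) = true := by decide +kernel
def p15_30_3_241 : pfC (piC [(nat_lit 35404596), (nat_lit 23859669), (nat_lit 17778567), (nat_lit 12006452)] (nat_lit 5058382)) p15_30_3 (nat_lit 4) (nat_lit 241) (nat_lit 242) = true := by decide +kernel
def p15_30_3_242 : pfC (piC [(nat_lit 35404596), (nat_lit 23859669), (nat_lit 17778567), (nat_lit 12006452)] (nat_lit 5058382)) p15_30_3 (nat_lit 4) (nat_lit 242) (nat_lit 243) = true := by decide +kernel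
theorem p15_30_3_T : PfS (PiF n15_30.reverse (nat_lit 5058382)) p15_30_3 (nat_lit 4) [] 0 :=
  pftab_of (los := [(nat_lit 35404596), (nat_lit 23859669), (nat_lit 17778567), (nat_lit 12006452)]) (by decide +kernel) (hi := (nat_lit 243)) (PfP.trans (PfP.trans (PfP.trans (PfP.trans (PfP.trans (PfP.trans (PfP.trans (PfP.trans (PfP.trans (PfP.trans (PfP.trans (PfP.trans (PfP.trans (PfP.trans (PfP.trans (PfP.trans (PfP.trans (PfP.trans (PfP.trans (PfP.trans (PfP.trans (PfP.trans (PfP.trans (PfP.trans (PfP.trans (PfP.trans (PfP.trans (PfP.trans (PfP.trans (PfP.trans (PfP.trans (PfP.trans (PfP.trans (PfP.trans (PfP.trans (PfP.trans (PfP.trans (PfP.trans (PfP.trans (PfP.trans (PfP.trans (PfP.trans (PfP.trans (PfP.trans (PfP.trans (PfP.trans (PfP.trans (PfP.trans (PfP.trans (PfP.trans (PfP.trans (PfP.trans (PfP.trans (PfP.trans (PfP.trans (PfP.trans (PfP.trans (PfP.trans (PfP.trans (PfP.trans (PfP.trans (PfP.trans (PfP.trans (PfP.trans (PfP.trans (PfP.trans (PfP.trans (PfP.trans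 (PfP.trans (PfP.trans (PfP.trans (PfP.trans (PfP.trans (PfP.trans (PfP.trans (PfP.trans (PfP.trans (PfP.trans (PfP.trans (PfP.trans (PfP.trans (PfP.trans (PfP.trans (PfP.trans (PfP.trans (PfP.trans (PfP.trans (PfP.trans (PfP.trans (PfP.trans (PfP.trans (PfP.trans (PfP.trans (PfP.trans (PfP.trans (PfP.trans (PfP.trans (PfP.trans (PfP.trans (PfP.trans (PfP.trans (PfP.trans (PfP.trans (PfP.trans (PfP.trans (PfP.trans (PfP.trans (PfP.trans (PfP.trans
 (PfP.trans (PfP.trans (PfP.trans (PfP.trans (PfP.trans (PfP.trans (PfP.trans (PfP.trans (PfP.trans (PfP.trans (PfP.trans (PfP.trans (PfP.trans (PfP.trans (PfP.trans (PfP.trans (PfP.trans (PfP.trans (PfP.trans (PfP.trans (PfP.trans (PfP.trans (PfP.trans (PfP.trans (PfP.trans (PfP.trans (PfP.trans (PfP.trans (PfP.trans (PfP.trans (PfP.trans (PfP.trans (PfP.trans (PfP.trans (PfP.trans (PfP.trans (PfP.trans (PfP.trans (PfP.trans (PfP.trans (PfP.trans (PfP.trans (PfP.trans (PfP.trans (PfP.trans (PfP.trans (PfP.trans (PfP.trans (PfP.trans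 (PfP.trans (PfP.trans (PfP.trans (PfP.trans (PfP.trans (PfP.trans (PfP.trans (PfP.trans (PfP.trans (PfP.trans (PfP.trans (PfP.trans (PfP.trans (PfP.trans (PfP.trans (PfP.trans (PfP.trans (PfP.trans (PfP.trans (PfP.trans (PfP.trans (PfP.trans (PfP.trans (PfP.trans (PfP.trans (PfP.trans (PfP.trans (PfP.trans (PfP.trans (PfP.trans (PfP.trans (PfP.trans (PfP.trans (PfP.trans (PfP.trans (PfP.trans (PfP.trans (PfP.trans (PfP.trans (PfP.trans (PfP.trans (PfP.trans (PfP.trans (PfP.trans (PfP.trans (PfP.trans (PfP.trans (PfP.trans (PfP.trans (PfP.trans (PfP.trans (PfP.trans (PfP.trans (PfP.trans (PfP.trans (PfP.trans (PfP.trans (PfP.trans (PfP.trans (PfP.trans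
 (PfP.trans (PfP.trans (PfP.trans (PfP.trans (PfP.trans (PfP.trans (PfP.trans (PfP.trans (PfP.trans (PfP.trans (PfP.trans (PfP.trans (PfP.trans (PfP.trans (PfP.trans (PfP.trans (PfP.trans (PfP.trans (PfP.trans (PfP.trans (PfP.trans (PfP.trans (PfP.trans (PfP.trans (pfC_sound p15_30_3_0) (pfC_sound p15_30_3_1)) (pfC_sound p15_30_3_2)) (pfC_sound p15_30_3_3)) (pfC_sound p15_30_3_4)) (pfC_sound p15_30_3_5)) (pfC_sound p15_30_3_6)) (pfC_sound p15_30_3_7)) (pfC_sound p15_30_3_8)) (pfC_sound p15_30_3_9)) (pfC_sound p15_30_3_10)) (pfC_sound p15_30_3_11)) (pfC_sound p15_30_3_12)) (pfC_sound p15_30_3_13)) (pfC_sound p15_30_3_14)) (pfC_sound p15_30_3_15)) (pfC_sound p15_30_3_16)) (pfC_sound p15_30_3_17)) (pfC_sound p15_30_3_18)) (pfC_sound p15_30_3_19)) (pfC_sound p15_30_3_20)) (pfC_sound p15_30_3_21)) (pfC_sound p15_30_3_22)) (pfC_sound p15_30_3_23)) (pfC_sound p15_30_3_24)) (pfC_sound p15_30_3_25)) (pfC_sound p15_30_3_26)) (pfC_sound p15_30_3_27)) (pfC_sound p15_30_3_28)) (pfC_sound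 p15_30_3_29)) (pfC_sound p15_30_3_30)) (pfC_sound p15_30_3_31)) (pfC_sound p15_30_3_32)) (pfC_sound p15_30_3_33)) (pfC_sound p15_30_3_34)) (pfC_sound p15_30_3_35)) (pfC_sound p15_30_3_36)) (pfC_sound
 p15_30_3_37)) (pfC_sound p15_30_3_38)) (pfC_sound p15_30_3_39)) (pfC_sound p15_30_3_40)) (pfC_sound p15_30_3_41)) (pfC_sound p15_30_3_42)) (pfC_sound p15_30_3_43)) (pfC_sound p15_30_3_44)) (pfC_sound p15_30_3_45)) (pfC_sound p15_30_3_46)) (pfC_sound p15_30_3_47)) (pfC_sound p15_30_3_48)) (pfC_sound p15_30_3_49)) (pfC_sound p15_30_3_50)) (pfC_sound p15_30_3_51)) (pfC_sound p15_30_3_52)) (pfC_sound p15_30_3_53)) (pfC_sound p15_30_3_54)) (pfC_sound p15_30_3_55)) (pfC_sound p15_30_3_56)) (pfC_sound p15_30_3_57)) (pfC_sound p15_30_3_58)) (pfC_sound p15_30_3_59)) (pfC_sound p15_30_3_60)) (pfC_sound p15_30_3_61)) (pfC_sound p15_30_3_62)) (pfC_sound p15_30_3_63)) (pfC_sound p15_30_3_64)) (pfC_sound p15_30_3_65)) (pfC_sound p15_30_3_66)) (pfC_sound p15_30_3_67)) (pfC_sound p15_30_3_68))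 (pfC_sound p15_30_3_69)) (pfC_sound p15_30_3_70)) (pfC_sound p15_30_3_71)) (pfC_sound p15_30_3_72)) (pfC_sound p15_30_3_73)) (pfC_sound p15_30_3_74)) (pfC_sound p15_30_3_75)) (pfC_sound p15_30_3_76)) (pfC_sound p15_30_3_77)) (pfC_sound p15_30_3_78)) (pfC_sound p15_30_3_79)) (pfC_sound p15_30_3_80)) (pfC_sound p15_30_3_81)) (pfC_sound p15_30_3_82)) (pfC_sound p15_30_3_83)) (pfC_sound p15_30_3_84)) (pfC_sound
 p15_30_3_85)) (pfC_sound p15_30_3_86)) (pfC_sound p15_30_3_87)) (pfC_sound p15_30_3_88)) (pfC_sound p15_30_3_89)) (pfC_sound p15_30_3_90)) (pfC_sound p15_30_3_91)) (pfC_sound p15_30_3_92)) (pfC_sound p15_30_3_93)) (pfC_sound p15_30_3_94)) (pfC_sound p15_30_3_95)) (pfC_sound p15_30_3_96)) (pfC_sound p15_30_3_97)) (pfC_sound p15_30_3_98)) (pfC_sound p15_30_3_99)) (pfC_sound p15_30_3_100)) (pfC_sound p15_30_3_101)) (pfC_sound p15_30_3_102)) (pfC_sound p15_30_3_103)) (pfC_sound p15_30_3_104)) (pfC_sound p15_30_3_105)) (pfC_sound p15_30_3_106)) (pfC_sound p15_30_3_107))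 (pfC_sound p15_30_3_108)) (pfC_sound p15_30_3_109)) (pfC_sound p15_30_3_110)) (pfC_sound p15_30_3_111)) (pfC_sound p15_30_3_112)) (pfC_sound p15_30_3_113)) (pfC_sound p15_30_3_114)) (pfC_sound p15_30_3_115)) (pfC_sound p15_30_3_116)) (pfC_sound p15_30_3_117)) (pfC_sound p15_30_3_118)) (pfC_sound p15_30_3_119)) (pfC_sound p15_30_3_120)) (pfC_sound p15_30_3_121)) (pfC_sound p15_30_3_122)) (pfC_sound p15_30_3_123)) (pfC_sound p15_30_3_124)) (pfC_sound p15_30_3_125)) (pfC_sound p15_30_3_126)) (pfC_sound p15_30_3_127)) (pfC_sound p15_30_3_128)) (pfC_sound p15_30_3_129)) (pfC_sound p15_30_3_130)) (pfC_sound p15_30_3_131))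
 (pfC_sound p15_30_3_132)) (pfC_sound p15_30_3_133)) (pfC_sound p15_30_3_134)) (pfC_sound p15_30_3_135)) (pfC_sound p15_30_3_136)) (pfC_sound p15_30_3_137)) (pfC_sound p15_30_3_138)) (pfC_sound p15_30_3_139)) (pfC_sound p15_30_3_140)) (pfC_sound p15_30_3_141)) (pfC_sound p15_30_3_142)) (pfC_sound p15_30_3_143)) (pfC_sound p15_30_3_144)) (pfC_sound p15_30_3_145)) (pfC_sound p15_30_3_146)) (pfC_sound p15_30_3_147)) (pfC_sound p15_30_3_148)) (pfC_sound p15_30_3_149)) (pfC_sound p15_30_3_150)) (pfC_sound p15_30_3_151)) (pfC_sound p15_30_3_152)) (pfC_sound p15_30_3_153)) (pfC_sound p15_30_3_154)) (pfC_sound p15_30_3_155)) (pfC_sound p15_30_3_156)) (pfC_sound p15_30_3_157)) (pfC_sound p15_30_3_158)) (pfC_sound p15_30_3_159)) (pfC_sound p15_30_3_160)) (pfC_sound p15_30_3_161)) (pfC_sound p15_30_3_162)) (pfC_sound p15_30_3_163)) (pfC_sound p15_30_3_164)) (pfC_sound p15_30_3_165)) (pfC_sound p15_30_3_166)) (pfC_sound p15_30_3_167)) (pfC_sound p15_30_3_168)) (pfC_sound p15_30_3_169))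 (pfC_sound p15_30_3_170)) (pfC_sound p15_30_3_171)) (pfC_sound p15_30_3_172)) (pfC_sound p15_30_3_173)) (pfC_sound p15_30_3_174)) (pfC_sound p15_30_3_175)) (pfC_sound p15_30_3_176)) (pfC_sound p15_30_3_177))
 (pfC_sound p15_30_3_178)) (pfC_sound p15_30_3_179)) (pfC_sound p15_30_3_180)) (pfC_sound p15_30_3_181)) (pfC_sound p15_30_3_182)) (pfC_sound p15_30_3_183)) (pfC_sound p15_30_3_184)) (pfC_sound p15_30_3_185)) (pfC_sound p15_30_3_186)) (pfC_sound p15_30_3_187)) (pfC_sound p15_30_3_188)) (pfC_sound p15_30_3_189)) (pfC_sound p15_30_3_190)) (pfC_sound p15_30_3_191)) (pfC_sound p15_30_3_192)) (pfC_sound p15_30_3_193)) (pfC_sound p15_30_3_194)) (pfC_sound p15_30_3_195)) (pfC_sound p15_30_3_196)) (pfC_sound p15_30_3_197)) (pfC_sound p15_30_3_198)) (pfC_sound p15_30_3_199)) (pfC_sound p15_30_3_200)) (pfC_sound p15_30_3_201)) (pfC_sound p15_30_3_202)) (pfC_sound p15_30_3_203)) (pfC_sound p15_30_3_204)) (pfC_sound p15_30_3_205)) (pfC_sound p15_30_3_206)) (pfC_sound p15_30_3_207))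 (pfC_sound p15_30_3_208)) (pfC_sound p15_30_3_209)) (pfC_sound p15_30_3_210)) (pfC_sound p15_30_3_211)) (pfC_sound p15_30_3_212)) (pfC_sound p15_30_3_213)) (pfC_sound p15_30_3_214)) (pfC_sound p15_30_3_215)) (pfC_sound p15_30_3_216)) (pfC_sound p15_30_3_217)) (pfC_sound p15_30_3_218)) (pfC_sound p15_30_3_219)) (pfC_sound p15_30_3_220)) (pfC_sound p15_30_3_221)) (pfC_sound p15_30_3_222)) (pfC_sound p15_30_3_223))
 (pfC_sound p15_30_3_224)) (pfC_sound p15_30_3_225)) (pfC_sound p15_30_3_226)) (pfC_sound p15_30_3_227)) (pfC_sound p15_30_3_228)) (pfC_sound p15_30_3_229)) (pfC_sound p15_30_3_230)) (pfC_sound p15_30_3_231)) (pfC_sound p15_30_3_232)) (pfC_sound p15_30_3_233)) (pfC_sound p15_30_3_234)) (pfC_sound p15_30_3_235)) (pfC_sound p15_30_3_236)) (pfC_sound p15_30_3_237)) (pfC_sound p15_30_3_238)) (pfC_sound p15_30_3_239)) (pfC_sound p15_30_3_240)) (pfC_sound p15_30_3_241)) (pfC_sound p15_30_3_242)) (by decide +kernel)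

def z15_30_3 : zOK yB15_30 (nat_lit 3) (nat_lit 750) (nat_lit 792) (nat_lit 5058382) (nat_lit 4796502) = true := by decide +kernel
def g15_30_3 : gOK yB15_30.x P15_30 (nat_lit 1401) (q15_30 :: r15_30) (nat_lit 3) (nat_lit 750) (nat_lit 4) (nat_lit 792) (nat_lit 12712500) (nat_lit 12712500) (nat_lit 12712500) (nat_lit 12712500) [(nat_lit 800)] = true := by decide +kernel
def v15_30_3 : ivC P15_30 s15_30 w15_30 n15_30 (nat_lit 4) (nat_lit 4585) (nat_lit 3) (nat_lit 750) f168_1_750 f176_1_750 (nat_lit 4) (nat_lit 792) f168_1_792 f176_1_792 (nat_lit 5058382) (nat_lit 4796502) p15_30_3 = true := by decide +kernel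
end CB
end Pool.Agent.Lib.MP_6947cd_al
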