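import Pool.Agent.Lib.MP_6947cd_al.PS.TeX55_v15_31_0
import Pool.Agent.Lib.MP_6947cd_al.PS.TeX55_v15_31_1
import Pool.Agent.Lib.MP_6947cd_al.PS.TeX55_v15_31_2
import Pool.Agent.Lib.MP_6947cd_al.PS.TeX55_v15_31_3

/-!
Problem MP_6947cd_al (Chollet).  CASE B, rows `j`: boxes (generated).
-/

set_option autoImplicit false
set_option linter.defProp false
set_option maxRecDepth 20000

namespace Pool.Agent.Lib.MP_6947cd_al
namespace CB

open Ent Ent.Pk Fr Fr.WT CA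

def v15_31_0 : ivC P15_31 s15_31 w15_31 n15_31 (nat_lit 4) (nat_lit 5330) (nat_lit 0) (nat_lit 0) f168_1_0 f176_1_0 (nat_lit 1) (nat_lit 400) f168_1_400 f176_1_400 (nat_lit 19732815) (nat_lit 10729447) p15_31_0 = true :=
  ivC_of (ivS_cut v15_31_0_s0 (ivS_cut v15_31_0_s1 v15_31_0_s2))

def v15_31_1 : ivC P15_31 s15_31 w15_31 n15_31 (nat_lit 4) (nat_lit 4930) (nat_lit 1) (nat_lit 400) f168_1_400 f176_1_400 (nat_lit 2) (nat_lit 600) f168_1_600 f176_1_600 (nat_lit 10729447) (nat_lit 6931473) p15_31_1 = true :=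
  ivC_of (ivS_cut v15_31_1_s0 (ivS_cut v15_31_1_s1 v15_31_1_s2))

def v15_31_2 : ivC P15_31 s15_31 w15_31 n15_31 (nat_lit 4) (nat_lit 4730) (nat_lit 2) (nat_lit 600) f168_1_600 f176_1_600 (nat_lit 3) (nat_lit 750) f168_1_750 f176_1_750 (nat_lit 6931473) (nat_lit 5058382) p15_31_2 = true :=
  ivC_of (ivS_cut v15_31_2_s0 (ivS_cut v15_31_2_s1 v15_31_2_s2))

def v15_31_3 : ivC P15_31 s15_31 w15_31 n15_31 (nat_lit 4) (nat_lit 4580) (nat_lit 3) (nat_lit 750) f168_1_750 f176_1_750 (nat_lit 4) (nat_lit 792) f168_1_792 f176_1_792 (nat_lit 5058382) (nat_lit 4861332) p15_31_3 = true :=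
  ivC_of (ivS_cut v15_31_3_s0 (ivS_cut v15_31_3_s1 v15_31_3_s2))

end CB
end Pool.Agent.Lib.MP_6947cd_al
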