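import Pool.Agent.Lib.MP_6947cd_al.L.BoxDataB
import Pool.Agent.Lib.MP_6947cd_al.L.TeD5
import Pool.Agent.Lib.MP_6947cd_al.L.TeD6

/-!
Problem MP_6947cd_al (Chollet).  CASE B, rows `j`: boxes (generated).
-/

set_option autoImplicit false
set_option linter.defProp false
set_option maxRecDepth 20000

namespace Pool.Agent.Lib.MP_6947cd_al
namespace CB

open Ent Ent.Pk Fr Fr.WT CA

/-! box `yB15_32` -/

def P15_32 : BQ := ⟨(nat_lit 8), (nat_lit 1), (nat_lit 7), (nat_lit 0), (nat_lit 8), (nat_lit 875), (nat_lit 880), (nat_lit 120), [(nat_lit 200), (nat_lit 300), (nat_lit 450), (nat_lit 800)], (nat_lit 132864000), (nat_lit 16000000), (nat_lit 16000000000)⟩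
def q15_32 : PC := ⟨(nat_lit 1000), [(nat_lit 120000), (nat_lit 200000), (nat_lit 300000), (nat_lit 450000), (nat_lit 800000)], (nat_lit 340282367000166625996085689103316680705000000), (nat_lit 15867136000000), (nat_lit 15867136000000), (nat_lit 10000000)⟩
def r15_32 : List PC := [⟨(nat_lit 1281), [(nat_lit 120559), (nat_lit 200763), (nat_lit 300797), (nat_lit 451049), (nat_lit 799808)], (nat_lit 330073895992948873974112287551968122466421468), (nat_lit 16269916853120), (nat_lit 16272311512640), (nat_lit 10046584)⟩, ⟨(nat_lit 1836), [(nat_lit 121827), (nat_lit 202332), (nat_lit 303125), (nat_lit 456918), (nat_lit 804654)], (nat_lit 330073895993758268882534860960287132790774741), (nat_lit 16970773726720), (nat_lit 16977898051840), (nat_lit 10153734)⟩]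
def s15_32 : List PB := [⟨(nat_lit 25620), (nat_lit 1928944000000), [(nat_lit 200763), (nat_lit 300797), (nat_lit 451049), (nat_lit 799808)], (nat_lit 330073895992948873974112287551968122466421468), (nat_lit 1142169823695744), (nat_lit 1142172218355264), (nat_lit 44960)⟩, ⟨(nat_lit 36720), (nat_lit 1949232000000), [(nat_lit 202332), (nat_lit 303125), (nat_lit 456918), (nat_lit 804654)], (nat_lit 330073895993758268882534860960287132790774741), (nat_lit 1142870680569344), (nat_lit 1142877804894464), (nat_lit 133760)⟩]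
def n15_32 : List KN := [⟨(nat_lit 800), (nat_lit 450), (nat_lit 11874437), (nat_lit 6812188)⟩, ⟨(nat_lit 450), (nat_lit 300), (nat_lit 17602610), (nat_lit 11874437)⟩, ⟨(nat_lit 300), (nat_lit 200), (nat_lit 23538785), (nat_lit 17602610)⟩, ⟨(nat_lit 200), (nat_lit 120), (nat_lit 35065580), (nat_lit 23538785)⟩]
def w15_32 : List ℕ := [(nat_lit 44960), (nat_lit 133760)]
def par15_32 : parC yB15_32 P15_32 s15_32 r15_32 q15_32 n15_32 w15_32 = true := by decide +kernel

def p15_32_0 : PF := (PF.cons (PF.cons (PF.cons (PF.cons (PF.leaf (nat_lit 933667) (nat_lit 3090790) (nat_lit 64018022) (nat_lit 3090790) [(nat_lit 0), (nat_lit 0), (nat_lit 0), (nat_lit 0)]) (PF.cons (PF.leaf (nat_lit 1154201) (nat_lit 376626) (nat_lit 63553407) (nat_lit 3178779) [(nat_lit 376626), (nat_lit 0), (nat_lit 0), (nat_lit 0)]) (PF.cons (PF.leaf (nat_lit 1419142) (nat_lit 416523) (nat_lit 63002561) (nat_lit 3273204) [(nat_lit 416523), (nat_lit 0), (nat_lit 0), (nat_lit 0)]) (PF.cons (PF.leaf (nat_lit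 1721952) (nat_lit 453505) (nat_lit 62378859) (nat_lit 3369436) [(nat_lit 453505), (nat_lit 0), (nat_lit 0), (nat_lit 0)]) (PF.cons (PF.leaf (nat_lit 2058270) (nat_lit 487994) (nat_lit 61692402) (nat_lit 3464431) [(nat_lit 487994), (nat_lit 0), (nat_lit 0), (nat_lit 0)]) (PF.cons (PF.leaf (nat_lit 2424390) (nat_lit 520202) (nat_lit 60951661) (nat_lit 3556139) [(nat_lit 520202), (nat_lit 0), (nat_lit 0), (nat_lit 0)]) (PF.cons (PF.leaf (nat_lit 2816915) (nat_lit 550247) (nat_lit 60164155) (nat_lit 3643169) [(nat_lit 550247), (nat_lit 0), (nat_lit 0), (nat_lit 0)]) (PF.cons (PF.leaf (nat_lit 3232695) (nat_lit 578208) (nat_lit 59336754) (nat_lit 3724596) [(nat_lit 578208), (nat_lit 0), (nat_lit 0),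
 (nat_lit 0)]) (PF.cons (PF.leaf (nat_lit 3668732) (nat_lit 604145) (nat_lit 58475815) (nat_lit 3799830) [(nat_lit 604145), (nat_lit 0), (nat_lit 0), (nat_lit 0)]) (PF.cons (PF.leaf (nat_lit 4122213) (nat_lit 628114) (nat_lit 57587251) (nat_lit 3868528) [(nat_lit 628114), (nat_lit 0), (nat_lit 0), (nat_lit 0)]) (PF.cons (PF.leaf (nat_lit 4590470) (nat_lit 650173) (nat_lit 56676546) (nat_lit 3930532) [(nat_lit 650173), (nat_lit 0), (nat_lit 0), (nat_lit 0)]) (PF.cons (PF.leaf (nat_lit 5070983) (nat_lit 670382) (nat_lit 55748775) (nat_lit 3985827) [(nat_lit 670382), (nat_lit 0), (nat_lit 0), (nat_lit 0)]) (PF.cons PF.nil (PF.cons PF.nil (PF.cons PF.nil PF.nil))))))))))))))) (PF.cons (PF.cons (PF.leaf (nat_lit 1592491) (nat_lit 1483661) (nat_lit 62257054) (nat_lit 3368096) [(nat_lit 0), (nat_lit 1483661), (nat_lit 0), (nat_lit 0)]) (PF.cons (PF.leaf (nat_lit 1886348) (nat_lit 468424) (nat_lit 61639677) (nat_lit 3453352) [(nat_lit 468424), (nat_lit 1547358), (nat_lit 0),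 (nat_lit 0)]) (PF.cons (PF.leaf (nat_lit 2215611) (nat_lit 501776) (nat_lit 60956771) (nat_lit 3538565) [(nat_lit 501776), (nat_lit 1609922), (nat_lit 0), (nat_lit 0)]) (PF.cons (PF.leaf (nat_lit 2575239) (nat_lit
 532798) (nat_lit 60218884) (nat_lit 3621399) [(nat_lit 532798), (nat_lit 1670133), (nat_lit 0), (nat_lit 0)]) (PF.cons (PF.leaf (nat_lit 2961411) (nat_lit 561657) (nat_lit 59434606) (nat_lit 3700309) [(nat_lit 561657), (nat_lit 1727265), (nat_lit 0), (nat_lit 0)]) (PF.cons (PF.leaf (nat_lit 3370733) (nat_lit 588457) (nat_lit 58611372) (nat_lit 3774273) [(nat_lit 588457), (nat_lit 1780879), (nat_lit 0), (nat_lit 0)]) (PF.cons (PF.leaf (nat_lit 3800119) (nat_lit 613272) (nat_lit 57755820) (nat_lit 3842635) [(nat_lit 613272), (nat_lit 1830722), (nat_lit 0), (nat_lit 0)]) (PF.cons (PF.leaf (nat_lit 4246705) (nat_lit 636167) (nat_lit 56873970) (nat_lit 3905005) [(nat_lit 636167), (nat_lit 1876664), (nat_lit 0), (nat_lit 0)]) (PF.cons (PF.leaf (nat_lit 4707809) (nat_lit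 657204) (nat_lit 55971317) (nat_lit 3961187) [(nat_lit 657204), (nat_lit 1918669), (nat_lit 0), (nat_lit 0)]) (PF.cons (PF.leaf (nat_lit 5180965) (nat_lit 676449) (nat_lit 55052874) (nat_lit 4011131) [(nat_lit 676449), (nat_lit 1956761), (nat_lit 0), (nat_lit 0)]) (PF.cons PF.nil (PF.cons PF.nil (PF.cons PF.nil (PF.cons PF.nil PF.nil)))))))))))))) (PF.cons (PF.cons (PF.leaf (nat_lit 2377225) (nat_lit 1652517) (nat_lit
 60196233) (nat_lit 3607544) [(nat_lit 0), (nat_lit 1652517), (nat_lit 0), (nat_lit 0)]) (PF.cons (PF.leaf (nat_lit 2727763) (nat_lit 543924) (nat_lit 59468187) (nat_lit 3681707) [(nat_lit 543924), (nat_lit 1707496), (nat_lit 0), (nat_lit 0)]) (PF.cons (PF.leaf (nat_lit 3106000) (nat_lit 571793) (nat_lit 58692398) (nat_lit 3752789) [(nat_lit 571793), (nat_lit 1760019), (nat_lit 0), (nat_lit 0)]) (PF.cons (PF.leaf (nat_lit 3507754) (nat_lit 597582) (nat_lit 57877447) (nat_lit 3819616) [(nat_lit 597582), (nat_lit 1809500), (nat_lit 0), (nat_lit 0)]) (PF.cons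 (PF.leaf (nat_lit 3929686) (nat_lit 621398) (nat_lit 57030581) (nat_lit 3881442) [(nat_lit 621398), (nat_lit 1855596), (nat_lit 0), (nat_lit 0)]) (PF.cons (PF.leaf (nat_lit 4368796) (nat_lit 643323) (nat_lit 56158134) (nat_lit 3937814) [(nat_lit 643323), (nat_lit 1898123), (nat_lit 0), (nat_lit 0)]) (PF.cons (PF.leaf (nat_lit 4822334) (nat_lit 663429) (nat_lit 55265738) (nat_lit 3988490) [(nat_lit 663429), (nat_lit 1937001), (nat_lit 0), (nat_lit 0)]) (PF.cons (PF.leaf (nat_lit 5287851) (nat_lit 681789) (nat_lit 54358441) (nat_lit 4033385) [(nat_lit 681789), (nat_lit 1972230), (nat_lit 0), (nat_lit 0)]) (PF.cons (PF.leaf (nat_lit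
 5763019) (nat_lit 698472) (nat_lit 53440777) (nat_lit 4072529) [(nat_lit 698472), (nat_lit 2003863), (nat_lit 0), (nat_lit 0)]) (PF.cons PF.nil (PF.cons PF.nil (PF.cons PF.nil PF.nil)))))))))))) (PF.cons (PF.cons (PF.leaf (nat_lit 3252444) (nat_lit 1790476) (nat_lit 57936401) (nat_lit 3800982) [(nat_lit 0), (nat_lit 1790476), (nat_lit 0), (nat_lit 0)]) (PF.cons (PF.leaf (nat_lit 3644892) (nat_lit 605579) (nat_lit 57134454) (nat_lit 3860934) [(nat_lit 605579), (nat_lit 1835948), (nat_lit 0), (nat_lit 0)]) (PF.cons (PF.leaf (nat_lit 4058327) (nat_lit 628531) (nat_lit 56299904) (nat_lit 3916514) [(nat_lit 628531), (nat_lit 1878443), (nat_lit 0), (nat_lit 0)]) (PF.cons (PF.leaf (nat_lit 4489222) (nat_lit 649596) (nat_lit 55439721) (nat_lit 3967185) [(nat_lit 649596), (nat_lit 1917705), (nat_lit 0), (nat_lit 0)]) (PF.cons (PF.leaf (nat_lit 4934704) (nat_lit 668865) (nat_lit 54559874) (nat_lit 4012647) [(nat_lit 668865), (nat_lit 1953609), (nat_lit 0), (nat_lit 0)]) (PF.cons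 (PF.leaf (nat_lit 5392203) (nat_lit 686420) (nat_lit 53665573) (nat_lit 4052774) [(nat_lit 686420), (nat_lit 1986120), (nat_lit 0), (nat_lit 0)]) (PF.cons (PF.leaf (nat_lit 5859404) (nat_lit 702339) (nat_lit
 52761411) (nat_lit 4087560) [(nat_lit 702339), (nat_lit 2015267), (nat_lit 0), (nat_lit 0)]) (PF.cons (PF.leaf (nat_lit 6334208) (nat_lit 716698) (nat_lit 51851451) (nat_lit 4117093) [(nat_lit 716698), (nat_lit 2041125), (nat_lit 0), (nat_lit 0)]) (PF.cons PF.nil (PF.cons PF.nil PF.nil)))))))))) (PF.cons (PF.cons (PF.leaf (nat_lit 4187350) (nat_lit 1899410) (nat_lit 55563069) (nat_lit 3948099) [(nat_lit 0), (nat_lit 1899410), (nat_lit 0), (nat_lit 0)]) (PF.cons (PF.leaf (nat_lit 4608857) (nat_lit 654986) (nat_lit 54718352) (nat_lit 3993331) [(nat_lit 654986), (nat_lit 1935535), (nat_lit 0), (nat_lit 0)]) (PF.cons (PF.leaf (nat_lit 5045603) (nat_lit 673519) (nat_lit 53853534) (nat_lit 4033847) [(nat_lit 673519), (nat_lit 1968598), (nat_lit 0), (nat_lit 0)]) (PF.cons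 (PF.leaf (nat_lit 5494635) (nat_lit 690355) (nat_lit 52974180) (nat_lit 4069465) [(nat_lit 690355), (nat_lit 1998524), (nat_lit 0), (nat_lit 0)]) (PF.cons (PF.leaf (nat_lit 5953558) (nat_lit 705584) (nat_lit 52085067) (nat_lit 4100143) [(nat_lit 705584), (nat_lit 2025316), (nat_lit 0), (nat_lit 0)]) (PF.cons (PF.leaf (nat_lit 6420220) (nat_lit 719287) (nat_lit 51190339) (nat_lit 4125935) [(nat_lit 719287), (nat_lit
 2049025), (nat_lit 0), (nat_lit 0)]) (PF.cons PF.nil (PF.cons PF.nil (PF.cons PF.nil PF.nil))))))))) (PF.cons (PF.cons (PF.leaf (nat_lit 5156064) (nat_lit 1982070) (nat_lit 53146197) (nat_lit 4052265) [(nat_lit 0), (nat_lit 1982070), (nat_lit 0), (nat_lit 0)]) (PF.cons (PF.leaf (nat_lit 5595833) (nat_lit 693597) (nat_lit 52283938) (nat_lit 4083616) [(nat_lit 693597), (nat_lit 2009532), (nat_lit 0), (nat_lit 0)]) (PF.cons (PF.leaf (nat_lit 6046056) (nat_lit 708213) (nat_lit 51411533) (nat_lit 4110419) [(nat_lit 708213), (nat_lit 2034086), (nat_lit 0), (nat_lit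 0)]) (PF.cons (PF.leaf (nat_lit 6504305) (nat_lit 721328) (nat_lit 50533328) (nat_lit 4132692) [(nat_lit 721328), (nat_lit 2055761), (nat_lit 0), (nat_lit 0)]) (PF.cons (PF.leaf (nat_lit 6968618) (nat_lit 733028) (nat_lit 49653035) (nat_lit 4150531) [(nat_lit 733028), (nat_lit 2074626), (nat_lit 0), (nat_lit 0)]) (PF.cons PF.nil (PF.cons PF.nil PF.nil))))))) (PF.cons (PF.cons (PF.leaf (nat_lit 6137728) (nat_lit 2041651) (nat_lit 50740384) (nat_lit 4118517) [(nat_lit 0), (nat_lit 2041651), (nat_lit 0), (nat_lit 0)]) (PF.cons (PF.leaf (nat_lit 6587020) (nat_lit 722827) (nat_lit 49880111) (nat_lit 4137480) [(nat_lit 722827),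
 (nat_lit 2061398), (nat_lit 0), (nat_lit 0)]) (PF.cons (PF.leaf (nat_lit 7042896) (nat_lit 734030) (nat_lit 49017331) (nat_lit 4152324) [(nat_lit 734030), (nat_lit 2078515), (nat_lit 0), (nat_lit 0)]) (PF.cons PF.nil (PF.cons PF.nil PF.nil))))) (PF.cons (PF.cons (PF.leaf (nat_lit 7116236) (nat_lit 2081463) (nat_lit 48386122) (nat_lit 4152443) [(nat_lit 0), (nat_lit 2081463), (nat_lit 0), (nat_lit 0)]) (PF.cons (PF.leaf (nat_lit 7568215) (nat_lit 744034) (nat_lit 47542253) (nat_lit 4160760) [(nat_lit 744034), (nat_lit 2094537), (nat_lit 0), (nat_lit 0)]) (PF.cons PF.nil (PF.cons PF.nil PF.nil)))) (PF.cons (PF.cons (PF.leaf (nat_lit 8079675) (nat_lit 2104688) (nat_lit 46111763) (nat_lit 4159541) [(nat_lit 0), (nat_lit 2104688), (nat_lit 0), (nat_lit 0)]) (PF.cons PF.nil PF.nil)) (PF.cons PF.nil (PF.cons PF.nil PF.nil))))))))))) (PF.cons (PF.cons (PF.cons (PF.leaf (nat_lit 2244384) (nat_lit 3594391) (nat_lit 59685532) (nat_lit 3594391) [(nat_lit 0), (nat_lit 0), (nat_lit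 3828888), (nat_lit 0)]) (PF.cons (PF.leaf (nat_lit 2556757) (nat_lit 517138) (nat_lit 59033385) (nat_lit 3661518) [(nat_lit 517138), (nat_lit 0), (nat_lit 3896770), (nat_lit 0)]) (PF.cons (PF.leaf (nat_lit 2901895)
 (nat_lit 547655) (nat_lit 58321940) (nat_lit 3727777) [(nat_lit 547655), (nat_lit 0), (nat_lit 3963783), (nat_lit 0)]) (PF.cons (PF.leaf (nat_lit 3274334) (nat_lit 575496) (nat_lit 57562874) (nat_lit 3791372) [(nat_lit 575496), (nat_lit 0), (nat_lit 4028077), (nat_lit 0)]) (PF.cons (PF.leaf (nat_lit 3670008) (nat_lit 600983) (nat_lit 56765275) (nat_lit 3851150) [(nat_lit 600983), (nat_lit 0), (nat_lit 4088453), (nat_lit 0)]) (PF.cons (PF.leaf (nat_lit 4085491) (nat_lit 624326) (nat_lit 55936664) (nat_lit 3906372) [(nat_lit 624326), (nat_lit 0), (nat_lit 4144143), (nat_lit 0)]) (PF.cons (PF.leaf (nat_lit 4517759) (nat_lit 645675) (nat_lit 55083494) (nat_lit 3956590) [(nat_lit 645675), (nat_lit 0), (nat_lit 4194674), (nat_lit 0)]) (PF.cons (PF.leaf (nat_lit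 4964111) (nat_lit 665150) (nat_lit 54211410) (nat_lit 4001558) [(nat_lit 665150), (nat_lit 0), (nat_lit 4239788), (nat_lit 0)]) (PF.cons (PF.leaf (nat_lit 5422077) (nat_lit 682854) (nat_lit 53325408) (nat_lit 4041186) [(nat_lit 682854), (nat_lit 0), (nat_lit 4279385), (nat_lit 0)]) (PF.cons (PF.leaf (nat_lit 5889411) (nat_lit 698879) (nat_lit 52429924) (nat_lit 4075492) [(nat_lit 698879), (nat_lit 0), (nat_lit 4313481), (nat_lit
 0)]) (PF.cons PF.nil (PF.cons PF.nil PF.nil)))))))))))) (PF.cons (PF.cons (PF.leaf (nat_lit 3054615) (nat_lit 1761604) (nat_lit 57556102) (nat_lit 3777055) [(nat_lit 0), (nat_lit 1761604), (nat_lit 4014051), (nat_lit 0)]) (PF.cons (PF.leaf (nat_lit 3416112) (nat_lit 583072) (nat_lit 56814035) (nat_lit 3833662) [(nat_lit 583072), (nat_lit 1806886), (nat_lit 4071155), (nat_lit 0)]) (PF.cons (PF.leaf (nat_lit 3802358) (nat_lit 607860) (nat_lit 56031238) (nat_lit 3887153) [(nat_lit 607860), (nat_lit 1849650), (nat_lit 4125049), (nat_lit 0)]) (PF.cons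 (PF.leaf (nat_lit 4209097) (nat_lit 630456) (nat_lit 55216458) (nat_lit 3936664) [(nat_lit 630456), (nat_lit 1889483), (nat_lit 4174838), (nat_lit 0)]) (PF.cons (PF.leaf (nat_lit 4633030) (nat_lit 651047) (nat_lit 54376812) (nat_lit 3981667) [(nat_lit 651047), (nat_lit 1926168), (nat_lit 4219975), (nat_lit 0)]) (PF.cons (PF.leaf (nat_lit 5071255) (nat_lit 669775) (nat_lit 53518308) (nat_lit 4021867) [(nat_lit 669775), (nat_lit 1959606), (nat_lit 4260152), (nat_lit 0)]) (PF.cons (PF.leaf (nat_lit 5521232) (nat_lit 686756) (nat_lit 52646126) (nat_lit 4057134) [(nat_lit 686756), (nat_lit 1989782), (nat_lit 4295231), (nat_lit 0)]) (PF.cons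
 (PF.leaf (nat_lit 5980683) (nat_lit 702091) (nat_lit 51764781) (nat_lit 4087455) [(nat_lit 702091), (nat_lit 2016738), (nat_lit 4325198), (nat_lit 0)]) (PF.cons (PF.leaf (nat_lit 6447543) (nat_lit 715873) (nat_lit 50878234) (nat_lit 4112905) [(nat_lit 715873), (nat_lit 2040554), (nat_lit 4350128), (nat_lit 0)]) (PF.cons PF.nil PF.nil)))))))))) (PF.cons (PF.cons (PF.leaf (nat_lit 3936826) (nat_lit 1871531) (nat_lit 55287927) (nat_lit 3919747) [(nat_lit 0), (nat_lit 1871531), (nat_lit 4158074), (nat_lit 0)]) (PF.cons (PF.leaf (nat_lit 4333205) (nat_lit 635604) (nat_lit 54491037) (nat_lit 3963765) [(nat_lit 635604), (nat_lit 1908105), (nat_lit 4202195), (nat_lit 0)]) (PF.cons (PF.leaf (nat_lit 4747822) (nat_lit 655567) (nat_lit 53667947) (nat_lit 4003794) [(nat_lit 655567), (nat_lit 1941871), (nat_lit 4242192), (nat_lit 0)]) (PF.cons (PF.leaf (nat_lit 5177259) (nat_lit 673651) (nat_lit 52825350) (nat_lit 4039470) [(nat_lit 673651), (nat_lit 1972673), (nat_lit 4277689),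 (nat_lit 0)]) (PF.cons (PF.leaf (nat_lit 5618790) (nat_lit 689995) (nat_lit 51968801) (nat_lit 4070615) [(nat_lit 689995), (nat_lit 2000455), (nat_lit 4308501), (nat_lit 0)]) (PF.cons (PF.leaf (nat_lit 6070030)
 (nat_lit 704713) (nat_lit 51103023) (nat_lit 4097180) [(nat_lit 704713), (nat_lit 2025232), (nat_lit 4334579), (nat_lit 0)]) (PF.cons (PF.leaf (nat_lit 6528876) (nat_lit 717905) (nat_lit 50232074) (nat_lit 4119211) [(nat_lit 717905), (nat_lit 2047062), (nat_lit 4355968), (nat_lit 0)]) (PF.cons PF.nil (PF.cons PF.nil PF.nil))))))))) (PF.cons (PF.cons (PF.leaf (nat_lit 4863402) (nat_lit 1956066) (nat_lit 52955955) (nat_lit 4023149) [(nat_lit 0), (nat_lit 1956066), (nat_lit 4261508), (nat_lit 0)]) (PF.cons (PF.leaf (nat_lit 5282951) (nat_lit 676768) (nat_lit 52131943) (nat_lit 4054524) [(nat_lit 676768), (nat_lit 1984338), (nat_lit 4292560), (nat_lit 0)]) (PF.cons (PF.leaf (nat_lit 5715415) (nat_lit 692570) (nat_lit 51293047) (nat_lit 4081769) [(nat_lit 692570),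 (nat_lit 2009838), (nat_lit 4319339), (nat_lit 0)]) (PF.cons (PF.leaf (nat_lit 6158026) (nat_lit 706748) (nat_lit 50444381) (nat_lit 4104792) [(nat_lit 706748), (nat_lit 2032546), (nat_lit 4341753), (nat_lit 0)]) (PF.cons (PF.leaf (nat_lit 6608570) (nat_lit 719418) (nat_lit 49590222) (nat_lit 4123608) [(nat_lit 719418), (nat_lit 2052497), (nat_lit 4359816), (nat_lit 0)]) (PF.cons (PF.leaf (nat_lit 7065107) (nat_lit 730678)
 (nat_lit 48734202) (nat_lit 4138302) [(nat_lit 730678), (nat_lit 2069766), (nat_lit 4373618), (nat_lit 0)]) (PF.cons PF.nil PF.nil))))))) (PF.cons (PF.cons (PF.leaf (nat_lit 5812087) (nat_lit 2018007) (nat_lit 50618183) (nat_lit 4090723) [(nat_lit 0), (nat_lit 2018007), (nat_lit 4327877), (nat_lit 0)]) (PF.cons (PF.leaf (nat_lit 6245317) (nat_lit 708194) (nat_lit 49788383) (nat_lit 4110407) [(nat_lit 708194), (nat_lit 2038746), (nat_lit 4346841), (nat_lit 0)]) (PF.cons (PF.leaf (nat_lit 6687167) (nat_lit 720412) (nat_lit 48952333) (nat_lit 4126201)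 [(nat_lit 720412), (nat_lit 2056917), (nat_lit 4361781), (nat_lit 0)]) (PF.cons (PF.leaf (nat_lit 7135415) (nat_lit 731233) (nat_lit 48113896) (nat_lit 4138162) [(nat_lit 731233), (nat_lit 2072573), (nat_lit 4372759), (nat_lit 0)]) (PF.cons PF.nil PF.nil))))) (PF.cons (PF.cons (PF.leaf (nat_lit 6765461) (nat_lit 2060378) (nat_lit 48317873) (nat_lit 4127085) [(nat_lit 0), (nat_lit 2060378), (nat_lit 4361961), (nat_lit 0)]) (PF.cons (PF.leaf (nat_lit 7204889) (nat_lit 731330) (nat_lit 47498144) (nat_lit 4136486) [(nat_lit 731330), (nat_lit 2074510), (nat_lit 4370297), (nat_lit 0)]) (PF.cons (PF.leaf (nat_lit 7649542) (nat_lit 740489)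
 (nat_lit 46678573) (nat_lit 4142420) [(nat_lit 740489), (nat_lit 2086358), (nat_lit 4375049), (nat_lit 0)]) (PF.cons PF.nil PF.nil)))) (PF.cons (PF.cons (PF.leaf (nat_lit 7710382) (nat_lit 2086174) (nat_lit 46085787) (nat_lit 4137133) [(nat_lit 0), (nat_lit 2086174), (nat_lit 4368847), (nat_lit 0)]) (PF.cons (PF.leaf (nat_lit 8150261) (nat_lit 747484) (nat_lit 45287422) (nat_lit 4137799) [(nat_lit 747484), (nat_lit 2094657), (nat_lit 4368164), (nat_lit 0)]) PF.nil)) (PF.cons PF.nil (PF.cons PF.nil PF.nil))))))))) (PF.cons (PF.cons (PF.cons (PF.leaf (nat_lit 3714986) (nat_lit 3892782) (nat_lit 54953324) (nat_lit 3892782) [(nat_lit 0), (nat_lit 0), (nat_lit 4131352), (nat_lit 0)]) (PF.cons (PF.leaf (nat_lit 4082410) (nat_lit 613157) (nat_lit 54213820) (nat_lit 3934940) [(nat_lit 613157), (nat_lit 0), (nat_lit 4173447), (nat_lit 0)]) (PF.cons (PF.leaf (nat_lit 4472033) (nat_lit 635183) (nat_lit 53439645) (nat_lit 3974033) [(nat_lit 635183), (nat_lit 0), (nat_lit 4212382),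 (nat_lit 0)]) (PF.cons (PF.leaf (nat_lit 4879582) (nat_lit 654966) (nat_lit 52639422) (nat_lit 4009445) [(nat_lit 654966), (nat_lit 0), (nat_lit 4247522), (nat_lit 0)]) (PF.cons (PF.leaf (nat_lit 5301835) (nat_lit
 672756) (nat_lit 51819967) (nat_lit 4040820) [(nat_lit 672756), (nat_lit 0), (nat_lit 4278499), (nat_lit 0)]) (PF.cons (PF.leaf (nat_lit 5736036) (nat_lit 688737) (nat_lit 50986876) (nat_lit 4067983) [(nat_lit 688737), (nat_lit 0), (nat_lit 4305133), (nat_lit 0)]) (PF.cons (PF.leaf (nat_lit 6179820) (nat_lit 703056) (nat_lit 50144851) (nat_lit 4090884) [(nat_lit 703056), (nat_lit 0), (nat_lit 4327369), (nat_lit 0)]) (PF.cons (PF.leaf (nat_lit 6631108) (nat_lit 715835) (nat_lit 49297902) (nat_lit 4109563) [(nat_lit 715835), (nat_lit 0), (nat_lit 4345249), (nat_lit 0)]) (PF.cons PF.nil (PF.cons PF.nil PF.nil)))))))))) (PF.cons (PF.cons (PF.leaf (nat_lit 4594338) (nat_lit 1928732) (nat_lit 52720401) (nat_lit 3994374) [(nat_lit 0), (nat_lit 1928732), (nat_lit 4232652),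 (nat_lit 0)]) (PF.cons (PF.leaf (nat_lit 4990891) (nat_lit 657818) (nat_lit 51941130) (nat_lit 4025420) [(nat_lit 657818), (nat_lit 1957852), (nat_lit 4263295), (nat_lit 0)]) (PF.cons (PF.leaf (nat_lit 5403378) (nat_lit 675177) (nat_lit 51140829) (nat_lit 4052854) [(nat_lit 675177), (nat_lit 1984352), (nat_lit 4290210), (nat_lit 0)]) (PF.cons (PF.leaf (nat_lit 5828515) (nat_lit 690696) (nat_lit 50325806) (nat_lit
 4076447) [(nat_lit 690696), (nat_lit 2008152), (nat_lit 4313158), (nat_lit 0)]) (PF.cons (PF.leaf (nat_lit 6263723) (nat_lit 704545) (nat_lit 49501176) (nat_lit 4096108) [(nat_lit 704545), (nat_lit 2029248), (nat_lit 4332048), (nat_lit 0)]) (PF.cons (PF.leaf (nat_lit 6706809) (nat_lit 716862) (nat_lit 48671181) (nat_lit 4111847) [(nat_lit 716862), (nat_lit 2047689), (nat_lit 4346890), (nat_lit 0)]) (PF.cons (PF.leaf (nat_lit 7155838) (nat_lit 727764) (nat_lit 47839395) (nat_lit 4123741) [(nat_lit 727764), (nat_lit 2063554), (nat_lit 4357766), (nat_lit 0)]) (PF.cons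 PF.nil (PF.cons PF.nil PF.nil))))))))) (PF.cons (PF.cons (PF.leaf (nat_lit 5506107) (nat_lit 1993170) (nat_lit 50460591) (nat_lit 4062674) [(nat_lit 0), (nat_lit 1993170), (nat_lit 4299603), (nat_lit 0)]) (PF.cons (PF.leaf (nat_lit 5921137) (nat_lit 691995) (nat_lit 49665904) (nat_lit 4082888) [(nat_lit 691995), (nat_lit 2014942), (nat_lit 4319069), (nat_lit 0)]) (PF.cons (PF.leaf (nat_lit 6347191) (nat_lit 705464) (nat_lit 48860330) (nat_lit 4099496) [(nat_lit 705464), (nat_lit 2034216), (nat_lit 4334811), (nat_lit 0)]) (PF.cons (PF.leaf (nat_lit 6781674) (nat_lit 717392) (nat_lit 48048530) (nat_lit 4112474) [(nat_lit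
 717392), (nat_lit 2051010), (nat_lit 4346804), (nat_lit 0)]) (PF.cons (PF.leaf (nat_lit 7222538) (nat_lit 727910) (nat_lit 47234320) (nat_lit 4121872) [(nat_lit 727910), (nat_lit 2065385), (nat_lit 4355103), (nat_lit 0)]) (PF.cons (PF.leaf (nat_lit 7668025) (nat_lit 737128) (nat_lit 46420879) (nat_lit 4127796) [(nat_lit 737128), (nat_lit 2077428), (nat_lit 4359818), (nat_lit 0)]) (PF.cons PF.nil PF.nil))))))) (PF.cons (PF.cons (PF.leaf (nat_lit 6431150) (nat_lit 2038209) (nat_lit 48221539) (nat_lit 4101141) [(nat_lit 0), (nat_lit 2038209), (nat_lit 4335751), (nat_lit 0)]) (PF.cons (PF.leaf (nat_lit 6856315) (nat_lit 717415) (nat_lit 47429385) (nat_lit 4111528) [(nat_lit 717415), (nat_lit 2053443), (nat_lit 4345076), (nat_lit 0)]) (PF.cons (PF.leaf (nat_lit 7288640) (nat_lit 727614) (nat_lit 46633815) (nat_lit 4118591) [(nat_lit 727614), (nat_lit 2066411), (nat_lit 4350970), (nat_lit 0)]) (PF.cons (PF.leaf (nat_lit 7726070) (nat_lit 736517) (nat_lit 45838258) (nat_lit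 4122412) [(nat_lit 736517), (nat_lit 2077184), (nat_lit 4353518), (nat_lit 0)]) (PF.cons PF.nil PF.nil))))) (PF.cons (PF.cons (PF.leaf (nat_lit 7354891) (nat_lit 2066672) (nat_lit 46037284) (nat_lit 4113967) [(nat_lit
 0), (nat_lit 2066672), (nat_lit 4345435), (nat_lit 0)]) (PF.cons (PF.leaf (nat_lit 7783749) (nat_lit 735515) (nat_lit 45260525) (nat_lit 4115830) [(nat_lit 735515), (nat_lit 2076250), (nat_lit 4345969), (nat_lit 0)]) (PF.cons (PF.leaf (nat_lit 8216766) (nat_lit 742971) (nat_lit 44485739) (nat_lit 4114773) [(nat_lit 742971), (nat_lit 2083842), (nat_lit 4343493), (nat_lit 0)]) (PF.cons PF.nil PF.nil)))) (PF.cons (PF.cons (PF.leaf (nat_lit 8266551) (nat_lit 2081243) (nat_lit 43931011) (nat_lit 4105420) [(nat_lit 0), (nat_lit 2081243), (nat_lit 4333081), (nat_lit 0)]) (PF.cons PF.nil PF.nil)) (PF.cons PF.nil (PF.cons PF.nil PF.nil)))))))) (PF.cons (PF.cons (PF.cons (PF.leaf (nat_lit 5222736) (nat_lit 4034447) (nat_lit 50260710) (nat_lit 4034447) [(nat_lit 0),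 (nat_lit 0), (nat_lit 4271218), (nat_lit 0)]) (PF.cons (PF.leaf (nat_lit 5616726) (nat_lit 673666) (nat_lit 49507389) (nat_lit 4054952) [(nat_lit 673666), (nat_lit 0), (nat_lit 4290934), (nat_lit 0)]) (PF.cons (PF.leaf (nat_lit 6024747) (nat_lit 688766) (nat_lit 48737161) (nat_lit 4072211) [(nat_lit 688766), (nat_lit 0), (nat_lit 4307302), (nat_lit 0)]) (PF.cons (PF.leaf (nat_lit 6443632) (nat_lit 702083) (nat_lit 47955906)
 (nat_lit 4086093) [(nat_lit 702083), (nat_lit 0), (nat_lit 4320187), (nat_lit 0)]) (PF.cons (PF.leaf (nat_lit 6870961) (nat_lit 713809) (nat_lit 47168296) (nat_lit 4096573) [(nat_lit 713809), (nat_lit 0), (nat_lit 4329567), (nat_lit 0)]) (PF.cons (PF.leaf (nat_lit 7304698) (nat_lit 724100) (nat_lit 46378130) (nat_lit 4103700) [(nat_lit 724100), (nat_lit 0), (nat_lit 4335493), (nat_lit 0)]) (PF.cons (PF.leaf (nat_lit 7743088) (nat_lit 733081) (nat_lit 45588550) (nat_lit 4107572) [(nat_lit 733081), (nat_lit 0), (nat_lit 4338067), (nat_lit 0)]) (PF.cons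 PF.nil (PF.cons PF.nil PF.nil))))))))) (PF.cons (PF.cons (PF.leaf (nat_lit 6115439) (nat_lit 2014755) (nat_lit 48092436) (nat_lit 4074622) [(nat_lit 0), (nat_lit 2014755), (nat_lit 4308999), (nat_lit 0)]) (PF.cons (PF.leaf (nat_lit 6524200) (nat_lit 701935) (nat_lit 47332281) (nat_lit 4085877) [(nat_lit 701935), (nat_lit 2031159), (nat_lit 4319186), (nat_lit 0)]) (PF.cons (PF.leaf (nat_lit 6942447) (nat_lit 713417) (nat_lit 46564264) (nat_lit 4093991) [(nat_lit 713417), (nat_lit 2045319), (nat_lit 4326134), (nat_lit 0)]) (PF.cons (PF.leaf (nat_lit 7367743) (nat_lit 723442) (nat_lit 45792615) (nat_lit 4098986) [(nat_lit 723442),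
 (nat_lit 2057279), (nat_lit 4329868), (nat_lit 0)]) (PF.cons (PF.leaf (nat_lit 7798197) (nat_lit 732152) (nat_lit 45020739) (nat_lit 4100938) [(nat_lit 732152), (nat_lit 2067118), (nat_lit 4330468), (nat_lit 0)]) (PF.cons PF.nil (PF.cons PF.nil PF.nil))))))) (PF.cons (PF.cons (PF.leaf (nat_lit 7014831) (nat_lit 2046037) (nat_lit 45962946) (nat_lit 4090024) [(nat_lit 0), (nat_lit 2046037), (nat_lit 4321255), (nat_lit 0)]) (PF.cons (PF.leaf (nat_lit 7430989) (nat_lit 722344) (nat_lit 45211037) (nat_lit 4093033) [(nat_lit 722344), (nat_lit 2056772), (nat_lit 4322951), (nat_lit 0)]) (PF.cons (PF.leaf (nat_lit 7853144) (nat_lit 730846) (nat_lit 44457735) (nat_lit 4093202) [(nat_lit 730846), (nat_lit 2065509), (nat_lit 4321720), (nat_lit 0)]) (PF.cons (PF.leaf (nat_lit 8279388) (nat_lit 738145) (nat_lit 43706089) (nat_lit 4090629) [(nat_lit 738145), (nat_lit 2072329), (nat_lit 4317666), (nat_lit 0)]) (PF.cons PF.nil PF.nil))))) (PF.cons (PF.cons (PF.leaf (nat_lit 7908638)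 (nat_lit 2063289) (nat_lit 43898915) (nat_lit 4084410) [(nat_lit 0), (nat_lit 2063289), (nat_lit 4311873), (nat_lit 0)]) (PF.cons (PF.leaf (nat_lit 8326614) (nat_lit 736288) (nat_lit 43165700) (nat_lit 4080359)
 [(nat_lit 736288), (nat_lit 2069181), (nat_lit 4306306), (nat_lit 0)]) (PF.cons PF.nil (PF.cons PF.nil PF.nil)))) (PF.cons (PF.cons (PF.leaf (nat_lit 8787971) (nat_lit 2068899) (nat_lit 41917702) (nat_lit 4061472) [(nat_lit 0), (nat_lit 2068899), (nat_lit 4284679), (nat_lit 0)]) (PF.cons PF.nil PF.nil)) (PF.cons PF.nil PF.nil)))))) (PF.cons (PF.cons (PF.cons (PF.leaf (nat_lit 6692322) (nat_lit 4065275) (nat_lit 45858395) (nat_lit 4065275) [(nat_lit 0), (nat_lit 0), (nat_lit 4296285), (nat_lit 0)]) (PF.cons (PF.leaf (nat_lit 7093651) (nat_lit 707624) (nat_lit 45135513) (nat_lit 4069370) [(nat_lit 707624), (nat_lit 0), (nat_lit 4299076), (nat_lit 0)]) (PF.cons (PF.leaf (nat_lit 7503225) (nat_lit 717416) (nat_lit 44407035) (nat_lit 4070732) [(nat_lit 717416), (nat_lit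 0), (nat_lit 4299053), (nat_lit 0)]) (PF.cons (PF.leaf (nat_lit 7918737) (nat_lit 725834) (nat_lit 43676795) (nat_lit 4069415) [(nat_lit 725834), (nat_lit 0), (nat_lit 4296275), (nat_lit 0)]) (PF.cons (PF.leaf (nat_lit 8338438) (nat_lit 733028) (nat_lit 42947832) (nat_lit 4065512) [(nat_lit 733028), (nat_lit 0), (nat_lit 4290838), (nat_lit 0)]) (PF.cons PF.nil (PF.cons PF.nil PF.nil))))))) (PF.cons (PF.cons (PF.leaf
 (nat_lit 7565160) (nat_lit 2044180) (nat_lit 43843116) (nat_lit 4062492) [(nat_lit 0), (nat_lit 2044180), (nat_lit 4289755), (nat_lit 0)]) (PF.cons (PF.leaf (nat_lit 7971790) (nat_lit 723859) (nat_lit 43132246) (nat_lit 4059676) [(nat_lit 723859), (nat_lit 2051247), (nat_lit 4285445), (nat_lit 0)]) (PF.cons (PF.leaf (nat_lit 8383488) (nat_lit 730934) (nat_lit 42421399) (nat_lit 4054432) [(nat_lit 730934), (nat_lit 2056551), (nat_lit 4278640), (nat_lit 0)]) (PF.cons (PF.leaf (nat_lit 8798472) (nat_lit 736893) (nat_lit 41713293) (nat_lit 4046866) [(nat_lit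 736893), (nat_lit 2060178), (nat_lit 4269448), (nat_lit 0)]) (PF.cons PF.nil PF.nil))))) (PF.cons (PF.cons (PF.leaf (nat_lit 8429430) (nat_lit 2052422) (nat_lit 41899139) (nat_lit 4042522) [(nat_lit 0), (nat_lit 2052422), (nat_lit 4265576), (nat_lit 0)]) (PF.cons (PF.leaf (nat_lit 8836482) (nat_lit 734375) (nat_lit 41208805) (nat_lit 4033863) [(nat_lit 734375), (nat_lit 2055338), (nat_lit 4255272), (nat_lit 0)]) (PF.cons PF.nil (PF.cons PF.nil PF.nil)))) (PF.cons (PF.cons (PF.leaf (nat_lit 9277718) (nat_lit 2050903) (nat_lit 40039396) (nat_lit 4008543) [(nat_lit 0), (nat_lit 2050903), (nat_lit 4227040), (nat_lit 0)]) (PF.cons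
 PF.nil PF.nil)) (PF.cons PF.nil PF.nil))))) (PF.cons (PF.cons (PF.cons (PF.leaf (nat_lit 8084401) (nat_lit 4022579) (nat_lit 41858863) (nat_lit 4022579) [(nat_lit 0), (nat_lit 0), (nat_lit 4245473), (nat_lit 0)]) (PF.cons (PF.leaf (nat_lit 8481266) (nat_lit 722671) (nat_lit 41188607) (nat_lit 4015192) [(nat_lit 722671), (nat_lit 0), (nat_lit 4236468), (nat_lit 0)]) (PF.cons (PF.leaf (nat_lit 8882464) (nat_lit 728547) (nat_lit 40519340) (nat_lit 4005726) [(nat_lit 728547), (nat_lit 0), (nat_lit 4225330), (nat_lit 0)]) (PF.cons PF.nil PF.nil)))) (PF.cons (PF.cons (PF.leaf (nat_lit 8919953) (nat_lit 2035813) (nat_lit 40031928) (nat_lit 3991520) [(nat_lit 0), (nat_lit 2035813), (nat_lit 4209910), (nat_lit 0)]) (PF.cons (PF.leaf (nat_lit 9316225) (nat_lit 730364) (nat_lit 39383020) (nat_lit 3979298) [(nat_lit 730364), (nat_lit 2036334), (nat_lit 4195959), (nat_lit 0)]) PF.nil)) (PF.cons PF.nil PF.nil))) (PF.cons (PF.cons (PF.cons (PF.leaf (nat_lit 9382796) (nat_lit 3933919)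 (nat_lit 38289902) (nat_lit 3933919) [(nat_lit 0), (nat_lit 0), (nat_lit 4147498), (nat_lit 0)]) (PF.cons PF.nil PF.nil)) (PF.cons PF.nil PF.nil)) (PF.cons PF.nil (PF.cons PF.nil PF.nil))))))))) (PF.cons (PF.cons
 (PF.cons (PF.cons (PF.leaf (nat_lit 3208306) (nat_lit 3750591) (nat_lit 54189296) (nat_lit 3750591) [(nat_lit 0), (nat_lit 0), (nat_lit 0), (nat_lit 9168925)]) (PF.cons (PF.leaf (nat_lit 3522527) (nat_lit 550693) (nat_lit 53572400) (nat_lit 3795666) [(nat_lit 550693), (nat_lit 0), (nat_lit 0), (nat_lit 9190052)]) (PF.cons (PF.leaf (nat_lit 3866198) (nat_lit 578192) (nat_lit 52905738) (nat_lit 3839123) [(nat_lit 578192), (nat_lit 0), (nat_lit 0), (nat_lit 9207566)]) (PF.cons (PF.leaf (nat_lit 4233604) (nat_lit 602591) (nat_lit 52200865) (nat_lit 3879794) [(nat_lit 602591), (nat_lit 0), (nat_lit 0), (nat_lit 9220379)]) (PF.cons (PF.leaf (nat_lit 4620627) (nat_lit 624388) (nat_lit 51466492) (nat_lit 3916978) [(nat_lit 624388), (nat_lit 0), (nat_lit 0), (nat_lit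 9227789)]) (PF.cons (PF.leaf (nat_lit 5023920) (nat_lit 643920) (nat_lit 50709566) (nat_lit 3950270) [(nat_lit 643920), (nat_lit 0), (nat_lit 0), (nat_lit 9229374)]) (PF.cons (PF.leaf (nat_lit 5440647) (nat_lit 661433) (nat_lit 49935827) (nat_lit 3979460) [(nat_lit 661433), (nat_lit 0), (nat_lit 0), (nat_lit 9224926)]) (PF.cons (PF.leaf (nat_lit 5868359) (nat_lit 677118) (nat_lit 49150115) (nat_lit 4004471) [(nat_lit 677118),
 (nat_lit 0), (nat_lit 0), (nat_lit 9214393)]) (PF.cons (PF.leaf (nat_lit 6304898) (nat_lit 691133) (nat_lit 48356571) (nat_lit 4025325) [(nat_lit 691133), (nat_lit 0), (nat_lit 0), (nat_lit 9197848)]) (PF.cons (PF.leaf (nat_lit 6748331) (nat_lit 703609) (nat_lit 47558763) (nat_lit 4042106) [(nat_lit 703609), (nat_lit 0), (nat_lit 0), (nat_lit 9175455)]) (PF.cons (PF.leaf (nat_lit 7196988) (nat_lit 714664) (nat_lit 46759770) (nat_lit 4054950) [(nat_lit 714664), (nat_lit 0), (nat_lit 0), (nat_lit 9147445)]) (PF.cons PF.nil (PF.cons PF.nil (PF.cons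 PF.nil PF.nil)))))))))))))) (PF.cons (PF.cons (PF.leaf (nat_lit 3999776) (nat_lit 1828456) (nat_lit 52203479) (nat_lit 3865900) [(nat_lit 0), (nat_lit 1828456), (nat_lit 0), (nat_lit 9210976)]) (PF.cons (PF.leaf (nat_lit 4355046) (nat_lit 606380) (nat_lit 51519580) (nat_lit 3901577) [(nat_lit 606380), (nat_lit 1862981), (nat_lit 0), (nat_lit 9218293)]) (PF.cons (PF.leaf (nat_lit 4731743) (nat_lit 627750) (nat_lit 50803539) (nat_lit 3934321) [(nat_lit 627750), (nat_lit 1894880), (nat_lit 0), (nat_lit 9220569)]) (PF.cons (PF.leaf (nat_lit 5125698) (nat_lit 646799) (nat_lit 50063452) (nat_lit 3963623) [(nat_lit 646799), (nat_lit 1923962),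
 (nat_lit 0), (nat_lit 9217377)]) (PF.cons (PF.leaf (nat_lit 5533762) (nat_lit 663809) (nat_lit 49305691) (nat_lit 3989209) [(nat_lit 663809), (nat_lit 1950170), (nat_lit 0), (nat_lit 9208504)]) (PF.cons (PF.leaf (nat_lit 5953269) (nat_lit 678994) (nat_lit 48535460) (nat_lit 4010958) [(nat_lit 678994), (nat_lit 1973525), (nat_lit 0), (nat_lit 9193898)]) (PF.cons (PF.leaf (nat_lit 6381960) (nat_lit 692522) (nat_lit 47757101) (nat_lit 4028854) [(nat_lit 692522), (nat_lit 1994095), (nat_lit 0), (nat_lit 9173628)]) (PF.cons (PF.leaf (nat_lit 6817824) (nat_lit 704533) (nat_lit 46974292) (nat_lit 4042957) [(nat_lit 704533), (nat_lit 2011980), (nat_lit 0), (nat_lit 9147848)]) (PF.cons (PF.leaf (nat_lit 7259146) (nat_lit 715148) (nat_lit 46190169) (nat_lit 4053378) [(nat_lit 715148), (nat_lit 2027296), (nat_lit 0), (nat_lit 9116781)]) (PF.cons (PF.leaf (nat_lit 7704357) (nat_lit 724474) (nat_lit 45407417) (nat_lit 4060262) [(nat_lit 724474), (nat_lit 2040170), (nat_lit 0), (nat_lit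 9080695)]) (PF.cons PF.nil (PF.cons PF.nil PF.nil)))))))))))) (PF.cons (PF.cons (PF.leaf (nat_lit 4845446) (nat_lit 1907313) (nat_lit 50135631) (nat_lit 3949279) [(nat_lit 0), (nat_lit 1907313), (nat_lit 0),
 (nat_lit 9209275)]) (PF.cons (PF.leaf (nat_lit 5228607) (nat_lit 648870) (nat_lit 49415521) (nat_lit 3974780) [(nat_lit 648870), (nat_lit 1933966), (nat_lit 0), (nat_lit 9201707)]) (PF.cons (PF.leaf (nat_lit 5627146) (nat_lit 665502) (nat_lit 48675997) (nat_lit 3996954) [(nat_lit 665502), (nat_lit 1958033), (nat_lit 0), (nat_lit 9188788)]) (PF.cons (PF.leaf (nat_lit 6037869) (nat_lit 680283) (nat_lit 47922914) (nat_lit 4015626) [(nat_lit 680283), (nat_lit 1979480), (nat_lit 0), (nat_lit 9170462)]) (PF.cons (PF.leaf (nat_lit 6458297) (nat_lit 693401) (nat_lit 47160992) (nat_lit 4030742) [(nat_lit 693401), (nat_lit 1998339), (nat_lit 0), (nat_lit 9146792)]) (PF.cons (PF.leaf (nat_lit 6886322) (nat_lit 705011) (nat_lit 46394131) (nat_lit 4042332) [(nat_lit 705011),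 (nat_lit 2014683), (nat_lit 0), (nat_lit 9117926)]) (PF.cons (PF.leaf (nat_lit 7320125) (nat_lit 715240) (nat_lit 45625594) (nat_lit 4050483) [(nat_lit 715240), (nat_lit 2028607), (nat_lit 0), (nat_lit 9084079)]) (PF.cons (PF.leaf (nat_lit 7758101) (nat_lit 724199) (nat_lit 44858137) (nat_lit 4055320) [(nat_lit 724199), (nat_lit 2040225), (nat_lit 0), (nat_lit 9045505)]) (PF.cons PF.nil (PF.cons PF.nil PF.nil))))))))))
 (PF.cons (PF.cons (PF.leaf (nat_lit 5721976) (nat_lit 1964826) (nat_lit 48045672) (nat_lit 4002801) [(nat_lit 0), (nat_lit 1964826), (nat_lit 0), (nat_lit 9165860)]) (PF.cons (PF.leaf (nat_lit 6122911) (nat_lit 680965) (nat_lit 47311743) (nat_lit 4018570) [(nat_lit 680965), (nat_lit 1984452), (nat_lit 0), (nat_lit 9144176)]) (PF.cons (PF.leaf (nat_lit 6534526) (nat_lit 693761) (nat_lit 46567718) (nat_lit 4031072) [(nat_lit 693761), (nat_lit 2001687), (nat_lit 0), (nat_lit 9117436)]) (PF.cons (PF.leaf (nat_lit 6954324) (nat_lit 705039) (nat_lit 45817880)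 (nat_lit 4040307) [(nat_lit 705039), (nat_lit 2016573), (nat_lit 0), (nat_lit 9085786)]) (PF.cons (PF.leaf (nat_lit 7380350) (nat_lit 714939) (nat_lit 45065727) (nat_lit 4046335) [(nat_lit 714939), (nat_lit 2029186), (nat_lit 0), (nat_lit 9049432)]) (PF.cons (PF.leaf (nat_lit 7810925) (nat_lit 723581) (nat_lit 44314155) (nat_lit 4049261) [(nat_lit 723581), (nat_lit 2039623), (nat_lit 0), (nat_lit 9008619)]) (PF.cons (PF.leaf (nat_lit 8244597) (nat_lit 731068) (nat_lit 43565583) (nat_lit 4049220) [(nat_lit 731068), (nat_lit 2047991), (nat_lit 0), (nat_lit 8963625)]) (PF.cons PF.nil (PF.cons PF.nil PF.nil))))))))) (PF.cons (PF.cons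
 (PF.leaf (nat_lit 6611550) (nat_lit 2004188) (nat_lit 45976509) (nat_lit 4029921) [(nat_lit 0), (nat_lit 2004188), (nat_lit 0), (nat_lit 9085628)]) (PF.cons (PF.leaf (nat_lit 7022415) (nat_lit 704605) (nat_lit 45244976) (nat_lit 4036951) [(nat_lit 704605), (nat_lit 2017694), (nat_lit 0), (nat_lit 9051501)]) (PF.cons (PF.leaf (nat_lit 7440300) (nat_lit 714240) (nat_lit 44510136) (nat_lit 4040996) [(nat_lit 714240), (nat_lit 2029070), (nat_lit 0), (nat_lit 9012916)]) (PF.cons (PF.leaf (nat_lit 7863228) (nat_lit 722617) (nat_lit 43775123) (nat_lit 4042142) [(nat_lit 722617), (nat_lit 2038395), (nat_lit 0), (nat_lit 8970113)]) (PF.cons (PF.leaf (nat_lit 8289654) (nat_lit 729845) (nat_lit 43042508) (nat_lit 4040504) [(nat_lit 729845), (nat_lit 2045764), (nat_lit 0), (nat_lit 8923358)]) (PF.cons PF.nil (PF.cons PF.nil PF.nil))))))) (PF.cons (PF.cons (PF.leaf (nat_lit 7500696) (nat_lit 2028294) (nat_lit 43958236) (nat_lit 4034521) [(nat_lit 0), (nat_lit 2028294), (nat_lit 0),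 (nat_lit 8974584)]) (PF.cons (PF.leaf (nat_lit 7915464) (nat_lit 721299) (nat_lit 43240589) (nat_lit 4034011) [(nat_lit 721299), (nat_lit 2036574), (nat_lit 0), (nat_lit 8930041)]) (PF.cons (PF.leaf (nat_lit
 8334408) (nat_lit 728317) (nat_lit 42524504) (nat_lit 4030892) [(nat_lit 728317), (nat_lit 2043005), (nat_lit 0), (nat_lit 8881751)]) (PF.cons (PF.leaf (nat_lit 8755960) (nat_lit 734288) (nat_lit 41812262) (nat_lit 4025286) [(nat_lit 734288), (nat_lit 2047681), (nat_lit 0), (nat_lit 8829989)]) (PF.cons PF.nil PF.nil))))) (PF.cons (PF.cons (PF.leaf (nat_lit 8379449) (nat_lit 2039739) (nat_lit 42011106) (nat_lit 4020425) [(nat_lit 0), (nat_lit 2039739), (nat_lit 0), (nat_lit 8838842)]) (PF.cons (PF.leaf (nat_lit 8793566) (nat_lit 732283) (nat_lit 41315204) (nat_lit 4013599) [(nat_lit 732283), (nat_lit 2043630), (nat_lit 0), (nat_lit 8785942)]) (PF.cons (PF.leaf (nat_lit 9209666) (nat_lit 737136) (nat_lit 40624276) (nat_lit 4004560) [(nat_lit 737136), (nat_lit 2045947),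 (nat_lit 0), (nat_lit 8730015)]) (PF.cons PF.nil PF.nil)))) (PF.cons (PF.cons (PF.leaf (nat_lit 9240675) (nat_lit 2040810) (nat_lit 40147875) (nat_lit 3991158) [(nat_lit 0), (nat_lit 2040810), (nat_lit 0), (nat_lit 8684101)]) (PF.cons PF.nil PF.nil)) (PF.cons PF.nil PF.nil))))))))) (PF.cons (PF.cons (PF.cons (PF.leaf (nat_lit 4604707) (nat_lit 3919474) (nat_lit 49860843) (nat_lit 3919474) [(nat_lit 0), (nat_lit 0),
 (nat_lit 4154484), (nat_lit 9174010)]) (PF.cons (PF.leaf (nat_lit 4961798) (nat_lit 626191) (nat_lit 49192036) (nat_lit 3944793) [(nat_lit 626191), (nat_lit 0), (nat_lit 4178995), (nat_lit 9166797)]) (PF.cons (PF.leaf (nat_lit 5338275) (nat_lit 645212) (nat_lit 48495683) (nat_lit 3967326) [(nat_lit 645212), (nat_lit 0), (nat_lit 4200652), (nat_lit 9154725)]) (PF.cons (PF.leaf (nat_lit 5730032) (nat_lit 661939) (nat_lit 47779539) (nat_lit 3986726) [(nat_lit 661939), (nat_lit 0), (nat_lit 4219103), (nat_lit 9137626)]) (PF.cons (PF.leaf (nat_lit 6134025) (nat_lit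 676691) (nat_lit 47049576) (nat_lit 4002827) [(nat_lit 676691), (nat_lit 0), (nat_lit 4234173), (nat_lit 9115470)]) (PF.cons (PF.leaf (nat_lit 6547743) (nat_lit 689704) (nat_lit 46310572) (nat_lit 4015575) [(nat_lit 689704), (nat_lit 0), (nat_lit 4245809), (nat_lit 9088333)]) (PF.cons (PF.leaf (nat_lit 6969075) (nat_lit 701161) (nat_lit 45566440) (nat_lit 4025002) [(nat_lit 701161), (nat_lit 0), (nat_lit 4254038), (nat_lit 9056364)]) (PF.cons (PF.leaf (nat_lit 7396192) (nat_lit 711210) (nat_lit 44820434) (nat_lit 4031187) [(nat_lit 711210), (nat_lit 0), (nat_lit 4258944), (nat_lit 9019770)]) (PF.cons (PF.leaf (nat_lit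
 7827526) (nat_lit 719978) (nat_lit 44075285) (nat_lit 4034252) [(nat_lit 719978), (nat_lit 0), (nat_lit 4260649), (nat_lit 8978795)]) (PF.cons PF.nil (PF.cons PF.nil (PF.cons PF.nil PF.nil)))))))))))) (PF.cons (PF.cons (PF.leaf (nat_lit 5441123) (nat_lit 1937846) (nat_lit 47858238) (nat_lit 3974130) [(nat_lit 0), (nat_lit 1937846), (nat_lit 4206804), (nat_lit 9131792)]) (PF.cons (PF.leaf (nat_lit 5821850) (nat_lit 662369) (nat_lit 47163309) (nat_lit 3990547) [(nat_lit 662369), (nat_lit 1958857), (nat_lit 4222209), (nat_lit 9111518)]) (PF.cons (PF.leaf (nat_lit 6216211) (nat_lit 676903) (nat_lit 46452557) (nat_lit 4003975) [(nat_lit 676903), (nat_lit 1977496), (nat_lit 4234547), (nat_lit 9086428)]) (PF.cons (PF.leaf (nat_lit 6621139) (nat_lit 689654) (nat_lit 45731430) (nat_lit 4014321) [(nat_lit 689654), (nat_lit 1993772), (nat_lit 4243722), (nat_lit 9056603)]) (PF.cons (PF.leaf (nat_lit 7034299) (nat_lit 700830) (nat_lit 45004237) (nat_lit 4021582) [(nat_lit 700830),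 (nat_lit 2007742), (nat_lit 4249732), (nat_lit 9022195)]) (PF.cons (PF.leaf (nat_lit 7453733) (nat_lit 710595) (nat_lit 44274473) (nat_lit 4025819) [(nat_lit 710595), (nat_lit 2019495), (nat_lit 4252640), (nat_lit
 8983405)]) (PF.cons (PF.leaf (nat_lit 7877776) (nat_lit 719084) (nat_lit 43545020) (nat_lit 4027131) [(nat_lit 719084), (nat_lit 2029132), (nat_lit 4252548), (nat_lit 8940473)]) (PF.cons (PF.leaf (nat_lit 8304987) (nat_lit 726411) (nat_lit 42818271) (nat_lit 4025647) [(nat_lit 726411), (nat_lit 2036765), (nat_lit 4249587), (nat_lit 8893662)]) (PF.cons PF.nil (PF.cons PF.nil PF.nil)))))))))) (PF.cons (PF.cons (PF.leaf (nat_lit 6300199) (nat_lit 1980594) (nat_lit 45855892) (nat_lit 4003600) [(nat_lit 0), (nat_lit 1980594), (nat_lit 4233330), (nat_lit 9054800)]) (PF.cons (PF.leaf (nat_lit 6695361) (nat_lit 689070) (nat_lit 45154375) (nat_lit 4011692) [(nat_lit 689070), (nat_lit 1995427), (nat_lit 4240202), (nat_lit 9022616)]) (PF.cons (PF.leaf (nat_lit 7099808)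 (nat_lit 700048) (nat_lit 44445353) (nat_lit 4016931) [(nat_lit 700048), (nat_lit 2008113), (nat_lit 4244144), (nat_lit 8986059)]) (PF.cons (PF.leaf (nat_lit 7511185) (nat_lit 709593) (nat_lit 43732721) (nat_lit 4019350) [(nat_lit 709593), (nat_lit 2018717), (nat_lit 4245192), (nat_lit 8945333)]) (PF.cons (PF.leaf (nat_lit 7927681) (nat_lit 717856) (nat_lit 43019604) (nat_lit 4019031) [(nat_lit 717856), (nat_lit 2027322),
 (nat_lit 4243430), (nat_lit 8900676)]) (PF.cons (PF.leaf (nat_lit 8347762) (nat_lit 724958) (nat_lit 42308555) (nat_lit 4016085) [(nat_lit 724958), (nat_lit 2034029), (nat_lit 4238973), (nat_lit 8852344)]) (PF.cons (PF.leaf (nat_lit 8770110) (nat_lit 731006) (nat_lit 41601674) (nat_lit 4010644) [(nat_lit 731006), (nat_lit 2038944), (nat_lit 4231958), (nat_lit 8800606)]) (PF.cons PF.nil (PF.cons PF.nil PF.nil))))))))) (PF.cons (PF.cons (PF.leaf (nat_lit 7166468) (nat_lit 2007802) (nat_lit 43888994) (nat_lit 4011099) [(nat_lit 0), (nat_lit 2007802), (nat_lit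 4237325), (nat_lit 8947987)]) (PF.cons (PF.leaf (nat_lit 7569095) (nat_lit 708188) (nat_lit 43194584) (nat_lit 4011829) [(nat_lit 708188), (nat_lit 2017321), (nat_lit 4236648), (nat_lit 8905595)]) (PF.cons (PF.leaf (nat_lit 7977686) (nat_lit 716283) (nat_lit 42498578) (nat_lit 4009997) [(nat_lit 716283), (nat_lit 2024958), (nat_lit 4233341), (nat_lit 8859450)]) (PF.cons (PF.leaf (nat_lit 8390395) (nat_lit 723210) (nat_lit 41803777) (nat_lit 4005698) [(nat_lit 723210), (nat_lit 2030798), (nat_lit 4227502), (nat_lit 8809806)]) (PF.cons (PF.leaf (nat_lit 8805806) (nat_lit 729082) (nat_lit 41112441) (nat_lit 3999050) [(nat_lit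
 729082), (nat_lit 2034935), (nat_lit 4219254), (nat_lit 8756930)]) (PF.cons PF.nil (PF.cons PF.nil PF.nil))))))) (PF.cons (PF.cons (PF.leaf (nat_lit 8028483) (nat_lit 2022065) (nat_lit 41981344) (nat_lit 4000066) [(nat_lit 0), (nat_lit 2022065), (nat_lit 4222319), (nat_lit 8816820)]) (PF.cons (PF.leaf (nat_lit 8433315) (nat_lit 721156) (nat_lit 41303468) (nat_lit 3994520) [(nat_lit 721156), (nat_lit 2027093), (nat_lit 4215210), (nat_lit 8766081)]) (PF.cons (PF.leaf (nat_lit 8841562) (nat_lit 726895) (nat_lit 40628147) (nat_lit 3986761) [(nat_lit 726895), (nat_lit 2030506), (nat_lit 4205831), (nat_lit 8712255)]) (PF.cons (PF.leaf (nat_lit 9251769) (nat_lit 731673) (nat_lit 39957389) (nat_lit 3976909) [(nat_lit 731673), (nat_lit 2032393), (nat_lit 4194308), (nat_lit 8655609)]) (PF.cons PF.nil PF.nil))))) (PF.cons (PF.cons (PF.leaf (nat_lit 8877921) (nat_lit 2025672) (nat_lit 40148326) (nat_lit 3973805) [(nat_lit 0), (nat_lit 2025672), (nat_lit 4191715), (nat_lit 8666601)])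 (PF.cons (PF.leaf (nat_lit 9281025) (nat_lit 729119) (nat_lit 39493243) (nat_lit 3963054) [(nat_lit 729119), (nat_lit 2026959), (nat_lit 4179279), (nat_lit 8609319)]) (PF.cons PF.nil (PF.cons PF.nil PF.nil))))
 (PF.cons (PF.cons (PF.leaf (nat_lit 9708902) (nat_lit 2020610) (nat_lit 38399093) (nat_lit 3935311) [(nat_lit 0), (nat_lit 2020610), (nat_lit 4148608), (nat_lit 8502136)]) (PF.cons PF.nil PF.nil)) (PF.cons PF.nil PF.nil)))))))) (PF.cons (PF.cons (PF.cons (PF.leaf (nat_lit 6009985) (nat_lit 3976461) (nat_lit 45698142) (nat_lit 3976461) [(nat_lit 0), (nat_lit 0), (nat_lit 4206033), (nat_lit 9022142)]) (PF.cons (PF.leaf (nat_lit 6386601) (nat_lit 671332) (nat_lit 45032279) (nat_lit 3985518) [(nat_lit 671332), (nat_lit 0), (nat_lit 4213859), (nat_lit 8991962)]) (PF.cons (PF.leaf (nat_lit 6775399) (nat_lit 684052) (nat_lit 44353452) (nat_lit 3991896) [(nat_lit 684052), (nat_lit 0), (nat_lit 4218938), (nat_lit 8957483)]) (PF.cons (PF.leaf (nat_lit 7173416) (nat_lit 695063)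 (nat_lit 43666701) (nat_lit 3995564) [(nat_lit 695063), (nat_lit 0), (nat_lit 4221238), (nat_lit 8918879)]) (PF.cons (PF.leaf (nat_lit 7578466) (nat_lit 704586) (nat_lit 42975951) (nat_lit 3996557) [(nat_lit 704586), (nat_lit 0), (nat_lit 4220799), (nat_lit 8876361)]) (PF.cons (PF.leaf (nat_lit 7988727) (nat_lit 712791) (nat_lit 42284339) (nat_lit 3994954) [(nat_lit 712791), (nat_lit 0), (nat_lit 4217700), (nat_lit
 8830162)]) (PF.cons (PF.leaf (nat_lit 8402665) (nat_lit 719816) (nat_lit 41594412) (nat_lit 3990862) [(nat_lit 719816), (nat_lit 0), (nat_lit 4212054), (nat_lit 8780532)]) (PF.cons (PF.leaf (nat_lit 8818978) (nat_lit 725775) (nat_lit 40908258) (nat_lit 3984409) [(nat_lit 725775), (nat_lit 0), (nat_lit 4203991), (nat_lit 8727729)]) (PF.cons PF.nil PF.nil))))))))) (PF.cons (PF.cons (PF.leaf (nat_lit 6849382) (nat_lit 1985841) (nat_lit 43791232) (nat_lit 3986715) [(nat_lit 0), (nat_lit 1985841), (nat_lit 4212759), (nat_lit 8919504)]) (PF.cons (PF.leaf (nat_lit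 7237769) (nat_lit 693477) (nat_lit 43124007) (nat_lit 3988656) [(nat_lit 693477), (nat_lit 1996716), (nat_lit 4213303), (nat_lit 8879347)]) (PF.cons (PF.leaf (nat_lit 7634290) (nat_lit 702903) (nat_lit 42451240) (nat_lit 3988103) [(nat_lit 702903), (nat_lit 2005664), (nat_lit 4211289), (nat_lit 8835417)]) (PF.cons (PF.leaf (nat_lit 8036725) (nat_lit 710980) (nat_lit 41776469) (nat_lit 3985117) [(nat_lit 710980), (nat_lit 2012762), (nat_lit 4206781), (nat_lit 8787957)]) (PF.cons (PF.leaf (nat_lit 8443391) (nat_lit 717862) (nat_lit 41102496) (nat_lit 3979789) [(nat_lit 717862), (nat_lit 2018103), (nat_lit 4199876), (nat_lit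
 8737219)]) (PF.cons (PF.leaf (nat_lit 8852876) (nat_lit 723675) (nat_lit 40431574) (nat_lit 3972235) [(nat_lit 723675), (nat_lit 2021784), (nat_lit 4190690), (nat_lit 8683461)]) (PF.cons PF.nil PF.nil))))))) (PF.cons (PF.cons (PF.leaf (nat_lit 7691581) (nat_lit 2003157) (nat_lit 41929250) (nat_lit 3978706) [(nat_lit 0), (nat_lit 2003157), (nat_lit 4200797), (nat_lit 8792946)]) (PF.cons (PF.leaf (nat_lit 8085508) (nat_lit 708814) (nat_lit 41272267) (nat_lit 3974447) [(nat_lit 708814), (nat_lit 2009414), (nat_lit 4194996), (nat_lit 8744462)]) (PF.cons (PF.leaf (nat_lit 8484542) (nat_lit 715610) (nat_lit 40614904) (nat_lit 3967984) [(nat_lit 715610), (nat_lit 2014004), (nat_lit 4186936), (nat_lit 8692821)]) (PF.cons (PF.leaf (nat_lit 8886955) (nat_lit 721319) (nat_lit 39959669) (nat_lit 3959419) [(nat_lit 721319), (nat_lit 2017015), (nat_lit 4176725), (nat_lit 8638284)]) (PF.cons (PF.leaf (nat_lit 9291455) (nat_lit 726056) (nat_lit 39308562) (nat_lit 3948867) [(nat_lit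 726056), (nat_lit 2018542), (nat_lit 4164481), (nat_lit 8581108)]) PF.nil))))) (PF.cons (PF.cons (PF.leaf (nat_lit 8526780) (nat_lit 2009479) (nat_lit 40131042) (nat_lit 3955468) [(nat_lit 0), (nat_lit 2009479),
 (nat_lit 4173260), (nat_lit 8647341)]) (PF.cons (PF.leaf (nat_lit 8921619) (nat_lit 718695) (nat_lit 39492075) (nat_lit 3945984) [(nat_lit 718695), (nat_lit 2011869), (nat_lit 4162117), (nat_lit 8592212)]) (PF.cons (PF.leaf (nat_lit 9319274) (nat_lit 723363) (nat_lit 38856291) (nat_lit 3934618) [(nat_lit 723363), (nat_lit 2012843), (nat_lit 4149050), (nat_lit 8534543)]) (PF.cons PF.nil PF.nil)))) (PF.cons (PF.cons (PF.leaf (nat_lit 9347971) (nat_lit 2006822) (nat_lit 38408266) (nat_lit 3919848) [(nat_lit 0), (nat_lit 2006822), (nat_lit 4133080), (nat_lit 8487246)]) (PF.cons (PF.leaf (nat_lit 9740307) (nat_lit 724175) (nat_lit 37792332) (nat_lit 3906073) [(nat_lit 724175), (nat_lit 2006016), (nat_lit 4117562), (nat_lit 8427042)]) PF.nil)) (PF.cons PF.nil PF.nil))))))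 (PF.cons (PF.cons (PF.cons (PF.leaf (nat_lit 7370814) (nat_lit 3956271) (nat_lit 41850959) (nat_lit 3956271) [(nat_lit 0), (nat_lit 0), (nat_lit 4178201), (nat_lit 8766977)]) (PF.cons (PF.leaf (nat_lit 7751778) (nat_lit 694914) (nat_lit 41218563) (nat_lit 3953305) [(nat_lit 694914), (nat_lit 0), (nat_lit 4173713), (nat_lit 8720889)]) (PF.cons (PF.leaf (nat_lit 8139942) (nat_lit 703015) (nat_lit 40582103) (nat_lit
 3948157) [(nat_lit 703015), (nat_lit 0), (nat_lit 4166989), (nat_lit 8671549)]) (PF.cons (PF.leaf (nat_lit 8533188) (nat_lit 709847) (nat_lit 39944796) (nat_lit 3940906) [(nat_lit 709847), (nat_lit 0), (nat_lit 4158114), (nat_lit 8619222)]) (PF.cons (PF.leaf (nat_lit 8929947) (nat_lit 715566) (nat_lit 39309158) (nat_lit 3931651) [(nat_lit 715566), (nat_lit 0), (nat_lit 4147190), (nat_lit 8564167)]) (PF.cons (PF.leaf (nat_lit 9328908) (nat_lit 720295) (nat_lit 38677190) (nat_lit 3920505) [(nat_lit 720295), (nat_lit 0), (nat_lit 4134334), (nat_lit 8506632)]) (PF.cons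 PF.nil PF.nil))))))) (PF.cons (PF.cons (PF.leaf (nat_lit 8188796) (nat_lit 1992072) (nat_lit 40093307) (nat_lit 3936077) [(nat_lit 0), (nat_lit 1992072), (nat_lit 4153742), (nat_lit 8626127)]) (PF.cons (PF.leaf (nat_lit 8573813) (nat_lit 707091) (nat_lit 39473126) (nat_lit 3927888) [(nat_lit 707091), (nat_lit 1995663), (nat_lit 4143920), (nat_lit 8573281)]) (PF.cons (PF.leaf (nat_lit 8963235) (nat_lit 712787) (nat_lit 38853413) (nat_lit 3917799) [(nat_lit 712787), (nat_lit 1997774), (nat_lit 4132156), (nat_lit 8517779)]) (PF.cons (PF.leaf (nat_lit 9355449) (nat_lit 717473) (nat_lit 38236420) (nat_lit 3905917) [(nat_lit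
 717473), (nat_lit 1998497), (nat_lit 4118558), (nat_lit 8459881)]) (PF.cons PF.nil PF.nil))))) (PF.cons (PF.cons (PF.leaf (nat_lit 8997865) (nat_lit 1992005) (nat_lit 38401235) (nat_lit 3903386) [(nat_lit 0), (nat_lit 1992005), (nat_lit 4116539), (nat_lit 8470560)]) (PF.cons (PF.leaf (nat_lit 9382818) (nat_lit 714413) (nat_lit 37799726) (nat_lit 3890844) [(nat_lit 714413), (nat_lit 1992260), (nat_lit 4102282), (nat_lit 8412461)]) (PF.cons (PF.leaf (nat_lit 9770096) (nat_lit 718184) (nat_lit 37201763) (nat_lit 3876701) [(nat_lit 718184), (nat_lit 1991269), (nat_lit 4086388), (nat_lit 8352272)]) (PF.cons PF.nil PF.nil)))) (PF.cons (PF.cons (PF.leaf (nat_lit 9792053) (nat_lit 1984361) (nat_lit 36783570) (nat_lit 3860645) [(nat_lit 0), (nat_lit 1984361), (nat_lit 4069113), (nat_lit 8304170)]) (PF.cons PF.nil PF.nil)) (PF.cons PF.nil PF.nil))))) (PF.cons (PF.cons (PF.cons (PF.leaf (nat_lit 8660090) (nat_lit 3885843) (nat_lit 38375476) (nat_lit 3885843) [(nat_lit 0), (nat_lit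 0), (nat_lit 4098904), (nat_lit 8451873)]) (PF.cons (PF.leaf (nat_lit 9036134) (nat_lit 703509) (nat_lit 37790874) (nat_lit 3874580) [(nat_lit 703509), (nat_lit 0), (nat_lit 4085953), (nat_lit 8396033)]) (PF.cons
 (PF.leaf (nat_lit 9416043) (nat_lit 708276) (nat_lit 37207312) (nat_lit 3861678) [(nat_lit 708276), (nat_lit 0), (nat_lit 4071327), (nat_lit 8337958)]) (PF.cons (PF.leaf (nat_lit 9798256) (nat_lit 712100) (nat_lit 36626824) (nat_lit 3847240) [(nat_lit 712100), (nat_lit 0), (nat_lit 4055136), (nat_lit 8277899)]) (PF.cons PF.nil PF.nil))))) (PF.cons (PF.cons (PF.leaf (nat_lit 9443921) (nat_lit 1970813) (nat_lit 36784924) (nat_lit 3845904) [(nat_lit 0), (nat_lit 1970813), (nat_lit 4054330), (nat_lit 8289848)]) (PF.cons (PF.leaf (nat_lit 9819190) (nat_lit 708713) (nat_lit 36219071) (nat_lit 3831016) [(nat_lit 708713), (nat_lit 1969344), (nat_lit 4037694), (nat_lit 8229888)]) (PF.cons PF.nil (PF.cons PF.nil PF.nil)))) (PF.cons (PF.cons (PF.leaf (nat_lit 10212424)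 (nat_lit 1959220) (nat_lit 35266552) (nat_lit 3797831) [(nat_lit 0), (nat_lit 1959220), (nat_lit 4001513), (nat_lit 8119933)]) (PF.cons PF.nil PF.nil)) PF.nil))) (PF.cons (PF.cons (PF.cons (PF.leaf (nat_lit 9867015) (nat_lit 3784658) (nat_lit 35274734) (nat_lit 3784658) [(nat_lit 0), (nat_lit 0), (nat_lit 3988332), (nat_lit 8107757)]) (PF.cons (PF.leaf (nat_lit 10232853) (nat_lit 701916) (nat_lit 34742551) (nat_lit 3767994)
 [(nat_lit 701916), (nat_lit 0), (nat_lit 3969909), (nat_lit 8046800)]) PF.nil)) (PF.cons PF.nil PF.nil)) (PF.cons PF.nil (PF.cons PF.nil PF.nil)))))))) (PF.cons (PF.cons (PF.cons (PF.cons (PF.leaf (nat_lit 5386478) (nat_lit 3876949) (nat_lit 45421695) (nat_lit 3876949) [(nat_lit 0), (nat_lit 0), (nat_lit 0), (nat_lit 8905084)]) (PF.cons (PF.leaf (nat_lit 5731341) (nat_lit 627589) (nat_lit 44825792) (nat_lit 3891209) [(nat_lit 627589), (nat_lit 0), (nat_lit 0), (nat_lit 8882111)]) (PF.cons (PF.leaf (nat_lit 6093490) (nat_lit 644295) (nat_lit 44207394)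 (nat_lit 3902956) [(nat_lit 644295), (nat_lit 0), (nat_lit 0), (nat_lit 8854935)]) (PF.cons (PF.leaf (nat_lit 6468987) (nat_lit 658722) (nat_lit 43573341) (nat_lit 3912017) [(nat_lit 658722), (nat_lit 0), (nat_lit 0), (nat_lit 8823644)]) (PF.cons (PF.leaf (nat_lit 6854965) (nat_lit 671230) (nat_lit 42928807) (nat_lit 3918336) [(nat_lit 671230), (nat_lit 0), (nat_lit 0), (nat_lit 8788373)]) (PF.cons (PF.leaf (nat_lit 7249147) (nat_lit 682083) (nat_lit 42277863) (nat_lit 3921936) [(nat_lit 682083), (nat_lit 0), (nat_lit 0), (nat_lit 8749298)]) (PF.cons (PF.leaf (nat_lit 7649606) (nat_lit 691484) (nat_lit 41623781) (nat_lit 3922887)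
 [(nat_lit 691484), (nat_lit 0), (nat_lit 0), (nat_lit 8706619)]) (PF.cons (PF.leaf (nat_lit 8054731) (nat_lit 699594) (nat_lit 40969241) (nat_lit 3921291) [(nat_lit 699594), (nat_lit 0), (nat_lit 0), (nat_lit 8660559)]) (PF.cons (PF.leaf (nat_lit 8463140) (nat_lit 706547) (nat_lit 40316457) (nat_lit 3917271) [(nat_lit 706547), (nat_lit 0), (nat_lit 0), (nat_lit 8611352)]) (PF.cons PF.nil PF.nil)))))))))) (PF.cons (PF.cons (PF.leaf (nat_lit 6180735) (nat_lit 1918290) (nat_lit 43647972) (nat_lit 3901438) [(nat_lit 0), (nat_lit 1918290), (nat_lit 0), (nat_lit 8820555)]) (PF.cons (PF.leaf (nat_lit 6545458) (nat_lit 657575) (nat_lit 43033854) (nat_lit 3908447) [(nat_lit 657575), (nat_lit 1933687), (nat_lit 0), (nat_lit 8787624)]) (PF.cons (PF.leaf (nat_lit 6922146) (nat_lit 670017) (nat_lit 42407256) (nat_lit 3912942) [(nat_lit 670017), (nat_lit 1946935), (nat_lit 0), (nat_lit 8750821)]) (PF.cons (PF.leaf (nat_lit 7307943) (nat_lit 680750) (nat_lit 41772861) (nat_lit 3914914)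 [(nat_lit 680750), (nat_lit 1958100), (nat_lit 0), (nat_lit 8710343)]) (PF.cons (PF.leaf (nat_lit 7700707) (nat_lit 690002) (nat_lit 41134316) (nat_lit 3914410) [(nat_lit 690002), (nat_lit 1967274), (nat_lit 0),
 (nat_lit 8666400)]) (PF.cons (PF.leaf (nat_lit 8098678) (nat_lit 697951) (nat_lit 40494533) (nat_lit 3911515) [(nat_lit 697951), (nat_lit 1974564), (nat_lit 0), (nat_lit 8619220)]) (PF.cons (PF.leaf (nat_lit 8500375) (nat_lit 704741) (nat_lit 39855876) (nat_lit 3906337) [(nat_lit 704741), (nat_lit 1980083), (nat_lit 0), (nat_lit 8569035)]) (PF.cons (PF.leaf (nat_lit 8904540) (nat_lit 710488) (nat_lit 39220285) (nat_lit 3898998) [(nat_lit 710488), (nat_lit 1983942), (nat_lit 0), (nat_lit 8516082)]) (PF.cons PF.nil PF.nil))))))))) (PF.cons (PF.cons (PF.leaf (nat_lit 6991580) (nat_lit 1946415) (nat_lit 41886510) (nat_lit 3906473) [(nat_lit 0), (nat_lit 1946415), (nat_lit 0), (nat_lit 8711498)]) (PF.cons (PF.leaf (nat_lit 7368056) (nat_lit 678970) (nat_lit 41270051)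 (nat_lit 3906936) [(nat_lit 678970), (nat_lit 1956544), (nat_lit 0), (nat_lit 8669882)]) (PF.cons (PF.leaf (nat_lit 7752614) (nat_lit 688150) (nat_lit 40648006) (nat_lit 3905087) [(nat_lit 688150), (nat_lit 1964805), (nat_lit 0), (nat_lit 8624902)]) (PF.cons (PF.leaf (nat_lit 8143070) (nat_lit 695997) (nat_lit 40023659) (nat_lit 3900993) [(nat_lit 695997), (nat_lit 1971286), (nat_lit 0), (nat_lit 8576797)]) (PF.cons
 (PF.leaf (nat_lit 8537810) (nat_lit 702669) (nat_lit 39399608) (nat_lit 3894746) [(nat_lit 702669), (nat_lit 1976084), (nat_lit 0), (nat_lit 8525805)]) (PF.cons (PF.leaf (nat_lit 8935464) (nat_lit 708293) (nat_lit 38777948) (nat_lit 3886459) [(nat_lit 708293), (nat_lit 1979302), (nat_lit 0), (nat_lit 8472165)]) (PF.cons PF.nil PF.nil))))))) (PF.cons (PF.cons (PF.leaf (nat_lit 7806141) (nat_lit 1961846) (nat_lit 40164098) (nat_lit 3894944) [(nat_lit 0), (nat_lit 1961846), (nat_lit 0), (nat_lit 8582115)]) (PF.cons (PF.leaf (nat_lit 8188412) (nat_lit 693711)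 (nat_lit 39556053) (nat_lit 3889749) [(nat_lit 693711), (nat_lit 1967569), (nat_lit 0), (nat_lit 8533295)]) (PF.cons (PF.leaf (nat_lit 8575839) (nat_lit 700319) (nat_lit 38947209) (nat_lit 3882524) [(nat_lit 700319), (nat_lit 1971695), (nat_lit 0), (nat_lit 8481676)]) (PF.cons (PF.leaf (nat_lit 8966731) (nat_lit 705862) (nat_lit 38339895) (nat_lit 3873369) [(nat_lit 705862), (nat_lit 1974316), (nat_lit 0), (nat_lit 8427504)]) (PF.cons (PF.leaf (nat_lit 9359841) (nat_lit 710458) (nat_lit 37735968) (nat_lit 3862395) [(nat_lit 710458), (nat_lit 1975528), (nat_lit 0), (nat_lit 8371014)]) PF.nil))))) (PF.cons (PF.cons (PF.leaf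
 (nat_lit 8615102) (nat_lit 1966930) (nat_lit 38498119) (nat_lit 3869687) [(nat_lit 0), (nat_lit 1966930), (nat_lit 0), (nat_lit 8436641)]) (PF.cons (PF.leaf (nat_lit 8998730) (nat_lit 703182) (nat_lit 37905688) (nat_lit 3859746) [(nat_lit 703182), (nat_lit 1968998), (nat_lit 0), (nat_lit 8382100)]) (PF.cons (PF.leaf (nat_lit 9385302) (nat_lit 707728) (nat_lit 37315768) (nat_lit 3848077) [(nat_lit 707728), (nat_lit 1969719), (nat_lit 0), (nat_lit 8325315)]) (PF.cons PF.nil PF.nil)))) (PF.cons (PF.cons (PF.leaf (nat_lit 9411778) (nat_lit 1963626) (nat_lit 36899347) (nat_lit 3833310) [(nat_lit 0), (nat_lit 1963626), (nat_lit 0), (nat_lit 8279010)]) (PF.cons (PF.leaf (nat_lit 9793478) (nat_lit 708437) (nat_lit 36327199) (nat_lit 3819480) [(nat_lit 708437), (nat_lit 1962690), (nat_lit 0), (nat_lit 8220121)]) PF.nil)) (PF.cons PF.nil (PF.cons PF.nil PF.nil)))))))) (PF.cons (PF.cons (PF.cons (PF.leaf (nat_lit 6699886) (nat_lit 3881243) (nat_lit 41762241) (nat_lit 3881243) [(nat_lit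 0), (nat_lit 0), (nat_lit 4102189), (nat_lit 8681569)]) (PF.cons (PF.leaf (nat_lit 7059819) (nat_lit 662043) (nat_lit 41176314) (nat_lit 3883011) [(nat_lit 662043), (nat_lit 0), (nat_lit 4102506), (nat_lit
 8642468)]) (PF.cons (PF.leaf (nat_lit 7430580) (nat_lit 672998) (nat_lit 40579962) (nat_lit 3882527) [(nat_lit 672998), (nat_lit 0), (nat_lit 4100523), (nat_lit 8599901)]) (PF.cons (PF.leaf (nat_lit 7809399) (nat_lit 682327) (nat_lit 39977509) (nat_lit 3879819) [(nat_lit 682327), (nat_lit 0), (nat_lit 4096271), (nat_lit 8554115)]) (PF.cons (PF.leaf (nat_lit 8194265) (nat_lit 690261) (nat_lit 39372278) (nat_lit 3874955) [(nat_lit 690261), (nat_lit 0), (nat_lit 4089823), (nat_lit 8505354)]) (PF.cons (PF.leaf (nat_lit 8583532) (nat_lit 696980) (nat_lit 38766894) (nat_lit 3868028) [(nat_lit 696980), (nat_lit 0), (nat_lit 4081273), (nat_lit 8453855)]) (PF.cons (PF.leaf (nat_lit 8975840) (nat_lit 702626) (nat_lit 38163461) (nat_lit 3859149) [(nat_lit 702626), (nat_lit 0),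 (nat_lit 4070735), (nat_lit 8399854)]) (PF.cons PF.nil (PF.cons PF.nil PF.nil))))))))) (PF.cons (PF.cons (PF.leaf (nat_lit 7491665) (nat_lit 1941551) (nat_lit 40090379) (nat_lit 3872913) [(nat_lit 0), (nat_lit 1941551), (nat_lit 4089783), (nat_lit 8557092)]) (PF.cons (PF.leaf (nat_lit 7861370) (nat_lit 679845) (nat_lit 39505411) (nat_lit 3869072) [(nat_lit 679845), (nat_lit 1948694), (nat_lit 4084393), (nat_lit
 8510697)]) (PF.cons (PF.leaf (nat_lit 8238260) (nat_lit 687784) (nat_lit 38916193) (nat_lit 3863200) [(nat_lit 687784), (nat_lit 1954160), (nat_lit 4076931), (nat_lit 8461378)]) (PF.cons (PF.leaf (nat_lit 8620278) (nat_lit 694470) (nat_lit 38325714) (nat_lit 3855379) [(nat_lit 694470), (nat_lit 1958039), (nat_lit 4067480), (nat_lit 8409393)]) (PF.cons (PF.leaf (nat_lit 9005900) (nat_lit 700060) (nat_lit 37736319) (nat_lit 3845707) [(nat_lit 700060), (nat_lit 1960431), (nat_lit 4056144), (nat_lit 8354983)]) (PF.cons (PF.leaf (nat_lit 9393857) (nat_lit 704681) (nat_lit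 37149872) (nat_lit 3834293) [(nat_lit 704681), (nat_lit 1961435), (nat_lit 4043034), (nat_lit 8298383)]) (PF.cons PF.nil PF.nil))))))) (PF.cons (PF.cons (PF.leaf (nat_lit 8284117) (nat_lit 1949710) (nat_lit 38462499) (nat_lit 3850785) [(nat_lit 0), (nat_lit 1949710), (nat_lit 4063352), (nat_lit 8416376)]) (PF.cons (PF.leaf (nat_lit 8658207) (nat_lit 691662) (nat_lit 37887698) (nat_lit 3842156) [(nat_lit 691662), (nat_lit 1953010), (nat_lit 4053092), (nat_lit 8364091)]) (PF.cons (PF.leaf (nat_lit 9036792) (nat_lit 697247) (nat_lit 37312867) (nat_lit 3831768) [(nat_lit 697247), (nat_lit 1954890), (nat_lit 4041039),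
 (nat_lit 8309430)]) (PF.cons (PF.leaf (nat_lit 9418285) (nat_lit 701841) (nat_lit 36740106) (nat_lit 3819724) [(nat_lit 701841), (nat_lit 1955440), (nat_lit 4027298), (nat_lit 8252638)]) (PF.cons PF.nil PF.nil))))) (PF.cons (PF.cons (PF.leaf (nat_lit 9069140) (nat_lit 1949043) (nat_lit 36892561) (nat_lit 3817341) [(nat_lit 0), (nat_lit 1949043), (nat_lit 4025427), (nat_lit 8263175)]) (PF.cons (PF.leaf (nat_lit 9443658) (nat_lit 698779) (nat_lit 36333960) (nat_lit 3804736) [(nat_lit 698779), (nat_lit 1949178), (nat_lit 4011129), (nat_lit 8206336)]) (PF.cons (PF.leaf (nat_lit 9820653) (nat_lit 702493) (nat_lit 35778209) (nat_lit 3790652) [(nat_lit 702493), (nat_lit 1948123), (nat_lit 3995324), (nat_lit 8147633)]) (PF.cons PF.nil PF.nil)))) (PF.cons (PF.cons (PF.leaf (nat_lit 9840997) (nat_lit 1941266) (nat_lit 35388869) (nat_lit 3774822) [(nat_lit 0), (nat_lit 1941266), (nat_lit 3978305), (nat_lit 8100874)]) (PF.cons PF.nil PF.nil)) (PF.cons PF.nil PF.nil)))))) (PF.cons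 (PF.cons (PF.cons (PF.leaf (nat_lit 7967996) (nat_lit 3830671) (nat_lit 38404160) (nat_lit 3830671) [(nat_lit 0), (nat_lit 0), (nat_lit 4043136), (nat_lit 8393853)]) (PF.cons (PF.leaf (nat_lit 8330568) (nat_lit
 678602) (nat_lit 37850238) (nat_lit 3823405) [(nat_lit 678602), (nat_lit 0), (nat_lit 4034262), (nat_lit 8344021)]) (PF.cons (PF.leaf (nat_lit 8699594) (nat_lit 685477) (nat_lit 37293081) (nat_lit 3814351) [(nat_lit 685477), (nat_lit 0), (nat_lit 4023565), (nat_lit 8291647)]) (PF.cons (PF.leaf (nat_lit 9073100) (nat_lit 691173) (nat_lit 36735419) (nat_lit 3803601) [(nat_lit 691173), (nat_lit 0), (nat_lit 4011140), (nat_lit 8236995)]) (PF.cons (PF.leaf (nat_lit 9449650) (nat_lit 695846) (nat_lit 36179370) (nat_lit 3791254) [(nat_lit 695846), (nat_lit 0), (nat_lit 3997092), (nat_lit 8180308)]) (PF.cons PF.nil (PF.cons PF.nil PF.nil))))))) (PF.cons (PF.cons (PF.leaf (nat_lit 8738548) (nat_lit 1933235) (nat_lit 36868087) (nat_lit 3800257) [(nat_lit 0), (nat_lit 1933235),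 (nat_lit 4008278), (nat_lit 8245337)]) (PF.cons (PF.leaf (nat_lit 9104395) (nat_lit 687964) (nat_lit 36325372) (nat_lit 3788933) [(nat_lit 687964), (nat_lit 1934549), (nat_lit 3995286), (nat_lit 8190709)]) (PF.cons (PF.leaf (nat_lit 9474204) (nat_lit 692680) (nat_lit 35783164) (nat_lit 3776082) [(nat_lit 692680), (nat_lit 1934597), (nat_lit 3980739), (nat_lit 8134064)]) (PF.cons (PF.leaf (nat_lit 9846461) (nat_lit
 696471) (nat_lit 35243362) (nat_lit 3761805) [(nat_lit 696471), (nat_lit 1933467), (nat_lit 3964742), (nat_lit 8075639)]) (PF.cons PF.nil PF.nil))))) (PF.cons (PF.cons (PF.leaf (nat_lit 9500392) (nat_lit 1927936) (nat_lit 35389898) (nat_lit 3760519) [(nat_lit 0), (nat_lit 1927936), (nat_lit 3963982), (nat_lit 8087278)]) (PF.cons (PF.leaf (nat_lit 9865959) (nat_lit 693121) (nat_lit 34863487) (nat_lit 3745863) [(nat_lit 693121), (nat_lit 1926501), (nat_lit 3947615), (nat_lit 8029052)]) (PF.cons PF.nil (PF.cons PF.nil PF.nil)))) (PF.cons (PF.cons (PF.leaf (nat_lit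 10248555) (nat_lit 1916597) (nat_lit 33976008) (nat_lit 3713393) [(nat_lit 0), (nat_lit 1916597), (nat_lit 3912228), (nat_lit 7922579)]) (PF.cons PF.nil PF.nil)) (PF.cons PF.nil PF.nil))))) (PF.cons (PF.cons (PF.cons (PF.leaf (nat_lit 9171097) (nat_lit 3745110) (nat_lit 35374714) (nat_lit 3745110) [(nat_lit 0), (nat_lit 0), (nat_lit 3948538), (nat_lit 8071686)]) (PF.cons (PF.leaf (nat_lit 9528747) (nat_lit 682965) (nat_lit 34862641) (nat_lit 3731692) [(nat_lit 682965), (nat_lit 0), (nat_lit 3933434), (nat_lit 8015605)]) (PF.cons (PF.leaf (nat_lit 9889916) (nat_lit 686941) (nat_lit 34351438) (nat_lit 3716943) [(nat_lit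
 686941), (nat_lit 0), (nat_lit 3916978), (nat_lit 7957805)]) (PF.cons PF.nil PF.nil)))) (PF.cons (PF.cons (PF.leaf (nat_lit 9910623) (nat_lit 1904412) (nat_lit 33983427) (nat_lit 3700605) [(nat_lit 0), (nat_lit 1904412), (nat_lit 3899449), (nat_lit 7911009)]) (PF.cons (PF.leaf (nat_lit 10267462) (nat_lit 686490) (nat_lit 33487428) (nat_lit 3684391) [(nat_lit 686490), (nat_lit 1901708), (nat_lit 3881523), (nat_lit 7852111)]) PF.nil)) (PF.cons PF.nil PF.nil))) (PF.cons (PF.cons (PF.cons (PF.leaf (nat_lit 10301496) (nat_lit 3638682) (nat_lit 32666487) (nat_lit 3638682) [(nat_lit 0), (nat_lit 0), (nat_lit 3832950), (nat_lit 7735921)]) (PF.cons (PF.leaf (nat_lit 10649848) (nat_lit 679113) (nat_lit 32199074) (nat_lit 3621309) [(nat_lit 679113), (nat_lit 0), (nat_lit 3813876), (nat_lit 7676904)]) PF.nil)) (PF.cons PF.nil PF.nil)) (PF.cons PF.nil PF.nil)))))) (PF.cons (PF.cons (PF.cons (PF.cons (PF.leaf (nat_lit 7313069) (nat_lit 3767279) (nat_lit 38364991) (nat_lit 3767279)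 [(nat_lit 0), (nat_lit 0), (nat_lit 0), (nat_lit 8325513)]) (PF.cons (PF.leaf (nat_lit 7657406) (nat_lit 648797) (nat_lit 37849248) (nat_lit 3764394) [(nat_lit 648797), (nat_lit 0), (nat_lit 0), (nat_lit 8282124)])
 (PF.cons (PF.leaf (nat_lit 8011543) (nat_lit 658411) (nat_lit 37324806) (nat_lit 3759583) [(nat_lit 658411), (nat_lit 0), (nat_lit 0), (nat_lit 8235866)]) (PF.cons (PF.leaf (nat_lit 8372879) (nat_lit 666480) (nat_lit 36795387) (nat_lit 3752909) [(nat_lit 666480), (nat_lit 0), (nat_lit 0), (nat_lit 8187024)]) (PF.cons (PF.leaf (nat_lit 8739551) (nat_lit 673241) (nat_lit 36263832) (nat_lit 3744460) [(nat_lit 673241), (nat_lit 0), (nat_lit 0), (nat_lit 8135851)]) (PF.cons (PF.leaf (nat_lit 9110056) (nat_lit 678875) (nat_lit 35732363) (nat_lit 3734333) [(nat_lit 678875), (nat_lit 0), (nat_lit 0), (nat_lit 8082579)]) (PF.cons (PF.leaf (nat_lit 9483168) (nat_lit 683524) (nat_lit 35202748) (nat_lit 3722635) [(nat_lit 683524), (nat_lit 0), (nat_lit 0), (nat_lit 8027426)])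 (PF.cons PF.nil (PF.cons PF.nil PF.nil))))))))) (PF.cons (PF.cons (PF.leaf (nat_lit 8062563) (nat_lit 1889340) (nat_lit 36897514) (nat_lit 3747466) [(nat_lit 0), (nat_lit 1889340), (nat_lit 0), (nat_lit 8191497)]) (PF.cons (PF.leaf (nat_lit 8415287) (nat_lit 663449) (nat_lit 36383525) (nat_lit 3740057) [(nat_lit 663449), (nat_lit 1893926), (nat_lit 0), (nat_lit 8142618)]) (PF.cons (PF.leaf (nat_lit 8774499) (nat_lit
 670285) (nat_lit 35866039) (nat_lit 3730959) [(nat_lit 670285), (nat_lit 1897030), (nat_lit 0), (nat_lit 8091404)]) (PF.cons (PF.leaf (nat_lit 9138270) (nat_lit 675950) (nat_lit 35347611) (nat_lit 3720262) [(nat_lit 675950), (nat_lit 1898753), (nat_lit 0), (nat_lit 8038111)]) (PF.cons (PF.leaf (nat_lit 9505203) (nat_lit 680604) (nat_lit 34830225) (nat_lit 3708065) [(nat_lit 680604), (nat_lit 1899196), (nat_lit 0), (nat_lit 7982969)]) (PF.cons PF.nil (PF.cons PF.nil PF.nil))))))) (PF.cons (PF.cons (PF.leaf (nat_lit 8811575) (nat_lit 1891440) (nat_lit 35470219)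 (nat_lit 3716983) [(nat_lit 0), (nat_lit 1891440), (nat_lit 0), (nat_lit 8046243)]) (PF.cons (PF.leaf (nat_lit 9167934) (nat_lit 672769) (nat_lit 34965482) (nat_lit 3705785) [(nat_lit 672769), (nat_lit 1892764), (nat_lit 0), (nat_lit 7993081)]) (PF.cons (PF.leaf (nat_lit 9528353) (nat_lit 677474) (nat_lit 34460769) (nat_lit 3693150) [(nat_lit 677474), (nat_lit 1892858), (nat_lit 0), (nat_lit 7938075)]) (PF.cons (PF.leaf (nat_lit 9891360) (nat_lit 681267) (nat_lit 33957863) (nat_lit 3679176) [(nat_lit 681267), (nat_lit 1891810), (nat_lit 0), (nat_lit 7881449)]) (PF.cons PF.nil PF.nil))))) (PF.cons (PF.cons (PF.leaf (nat_lit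
 9553216) (nat_lit 1886296) (nat_lit 34093891) (nat_lit 3677890) [(nat_lit 0), (nat_lit 1886296), (nat_lit 0), (nat_lit 7892714)]) (PF.cons (PF.leaf (nat_lit 9909751) (nat_lit 677972) (nat_lit 33603254) (nat_lit 3663591) [(nat_lit 677972), (nat_lit 1884972), (nat_lit 0), (nat_lit 7836358)]) (PF.cons PF.nil (PF.cons PF.nil PF.nil)))) (PF.cons (PF.cons (PF.leaf (nat_lit 10282647) (nat_lit 1875388) (nat_lit 32774772) (nat_lit 3631991) [(nat_lit 0), (nat_lit 1875388), (nat_lit 0), (nat_lit 7733497)]) (PF.cons PF.nil PF.nil)) (PF.cons PF.nil PF.nil)))))) (PF.cons (PF.cons (PF.cons (PF.leaf (nat_lit 8501728) (nat_lit 3699035) (nat_lit 35427020) (nat_lit 3699035) [(nat_lit 0), (nat_lit 0), (nat_lit 3902144), (nat_lit 8026870)]) (PF.cons (PF.leaf (nat_lit 8847721) (nat_lit 660520) (nat_lit 34940109) (nat_lit 3689195) [(nat_lit 660520), (nat_lit 0), (nat_lit 3890687), (nat_lit 7976100)]) (PF.cons (PF.leaf (nat_lit 9199609) (nat_lit 666483) (nat_lit 34450436) (nat_lit 3677858)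 [(nat_lit 666483), (nat_lit 0), (nat_lit 3877709), (nat_lit 7923280)]) (PF.cons (PF.leaf (nat_lit 9555529) (nat_lit 671343) (nat_lit 33960342) (nat_lit 3665121) [(nat_lit 671343), (nat_lit 0), (nat_lit 3863310),
 (nat_lit 7868668)]) (PF.cons (PF.leaf (nat_lit 9914194) (nat_lit 675258) (nat_lit 33471631) (nat_lit 3651081) [(nat_lit 675258), (nat_lit 0), (nat_lit 3847593), (nat_lit 7812491)]) (PF.cons PF.nil (PF.cons PF.nil PF.nil))))))) (PF.cons (PF.cons (PF.leaf (nat_lit 9230958) (nat_lit 1871941) (nat_lit 34079158) (nat_lit 3662848) [(nat_lit 0), (nat_lit 1871941), (nat_lit 3861526), (nat_lit 7877779)]) (PF.cons (PF.leaf (nat_lit 9579736) (nat_lit 667889) (nat_lit 33602053) (nat_lit 3649777) [(nat_lit 667889), (nat_lit 1871755), (nat_lit 3846809), (nat_lit 7823509)]) (PF.cons (PF.leaf (nat_lit 9932140) (nat_lit 671890) (nat_lit 33125333) (nat_lit 3635449) [(nat_lit 671890), (nat_lit 1870463), (nat_lit 3830816), (nat_lit 7767656)]) (PF.cons PF.nil (PF.cons PF.nil PF.nil)))))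 (PF.cons (PF.cons (PF.leaf (nat_lit 9951934) (nat_lit 1863370) (nat_lit 32781410) (nat_lit 3619539) [(nat_lit 0), (nat_lit 1863370), (nat_lit 3813752), (nat_lit 7722456)]) (PF.cons (PF.leaf (nat_lit 10300344) (nat_lit 671554) (nat_lit 32318268) (nat_lit 3603852) [(nat_lit 671554), (nat_lit 1860868), (nat_lit 3796401), (nat_lit 7665666)]) (PF.cons PF.nil (PF.cons PF.nil PF.nil)))) (PF.cons (PF.cons (PF.leaf (nat_lit
 10660392) (nat_lit 1849872) (nat_lit 31538705) (nat_lit 3570670) [(nat_lit 0), (nat_lit 1849872), (nat_lit 3760411), (nat_lit 7563136)]) (PF.cons PF.nil PF.nil)) (PF.cons PF.nil PF.nil))))) (PF.cons (PF.cons (PF.cons (PF.leaf (nat_lit 9631641) (nat_lit 3605991) (nat_lit 32773940) (nat_lit 3605991) [(nat_lit 0), (nat_lit 0), (nat_lit 3800213), (nat_lit 7709484)]) (PF.cons (PF.leaf (nat_lit 9972914) (nat_lit 662084) (nat_lit 32323055) (nat_lit 3591477) [(nat_lit 662084), (nat_lit 0), (nat_lit 3784059), (nat_lit 7654692)]) (PF.cons (PF.leaf (nat_lit 10317473)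 (nat_lit 665482) (nat_lit 31872802) (nat_lit 3575859) [(nat_lit 665482), (nat_lit 0), (nat_lit 3766787), (nat_lit 7598537)]) (PF.cons PF.nil PF.nil)))) (PF.cons (PF.cons (PF.leaf (nat_lit 10332737) (nat_lit 1838879) (nat_lit 31550255) (nat_lit 3559543) [(nat_lit 0), (nat_lit 1838879), (nat_lit 3749332), (nat_lit 7553822)]) (PF.cons (PF.leaf (nat_lit 10673251) (nat_lit 664460) (nat_lit 31112995) (nat_lit 3542820) [(nat_lit 664460), (nat_lit 1835423), (nat_lit 3730961), (nat_lit 7497063)]) PF.nil)) (PF.cons PF.nil PF.nil))) (PF.cons (PF.cons (PF.cons (PF.leaf (nat_lit 10696978) (nat_lit 3498635) (nat_lit 30394671) (nat_lit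
 3498635) [(nat_lit 0), (nat_lit 0), (nat_lit 3684080), (nat_lit 7387754)]) (PF.cons PF.nil PF.nil)) (PF.cons PF.nil PF.nil)) (PF.cons PF.nil PF.nil))))) (PF.cons (PF.cons (PF.cons (PF.cons (PF.leaf (nat_lit 8985043) (nat_lit 3567343) (nat_lit 32841153) (nat_lit 3567343) [(nat_lit 0), (nat_lit 0), (nat_lit 0), (nat_lit 7675078)]) (PF.cons (PF.leaf (nat_lit 9316060) (nat_lit 641764) (nat_lit 32411155) (nat_lit 3556026) [(nat_lit 641764), (nat_lit 0), (nat_lit 0), (nat_lit 7624966)]) (PF.cons (PF.leaf (nat_lit 9652533) (nat_lit 647029) (nat_lit 31978684) (nat_lit 3543431) [(nat_lit 647029), (nat_lit 0), (nat_lit 0), (nat_lit 7573159)]) (PF.cons (PF.leaf (nat_lit 9992725) (nat_lit 651261) (nat_lit 31545766) (nat_lit 3529655) [(nat_lit 651261), (nat_lit 0), (nat_lit 0), (nat_lit 7519901)]) (PF.cons (PF.leaf (nat_lit 10335398) (nat_lit 654612) (nat_lit 31113957) (nat_lit 3514793) [(nat_lit 654612), (nat_lit 0), (nat_lit 0), (nat_lit 7465403)]) PF.nil))))) (PF.cons (PF.cons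 (PF.leaf (nat_lit 9677961) (nat_lit 1810655) (nat_lit 31652556) (nat_lit 3528165) [(nat_lit 0), (nat_lit 1810655), (nat_lit 0), (nat_lit 7529358)]) (PF.cons (PF.leaf (nat_lit 10011440) (nat_lit 647692) (nat_lit
 31230930) (nat_lit 3514217) [(nat_lit 647692), (nat_lit 1809476), (nat_lit 0), (nat_lit 7476623)]) (PF.cons (PF.leaf (nat_lit 10348300) (nat_lit 651160) (nat_lit 30809519) (nat_lit 3499211) [(nat_lit 651160), (nat_lit 1807320), (nat_lit 0), (nat_lit 7422610)]) (PF.cons PF.nil PF.nil)))) (PF.cons (PF.cons (PF.leaf (nat_lit 10363175) (nat_lit 1800079) (nat_lit 30506977) (nat_lit 3483425) [(nat_lit 0), (nat_lit 1800079), (nat_lit 0), (nat_lit 7379563)]) (PF.cons (PF.leaf (nat_lit 10696289) (nat_lit 650313) (nat_lit 30097200) (nat_lit 3467375) [(nat_lit 650313), (nat_lit 1796915), (nat_lit 0), (nat_lit 7325023)]) PF.nil)) (PF.cons PF.nil (PF.cons PF.nil PF.nil))))) (PF.cons (PF.cons (PF.cons (PF.leaf (nat_lit 10052002) (nat_lit 3471487) (nat_lit 30505144) (nat_lit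 3471487) [(nat_lit 0), (nat_lit 0), (nat_lit 3657034), (nat_lit 7368786)]) (PF.cons (PF.leaf (nat_lit 10378600) (nat_lit 641467) (nat_lit 30105931) (nat_lit 3456537) [(nat_lit 641467), (nat_lit 0), (nat_lit 3640510), (nat_lit 7316091)]) (PF.cons (PF.leaf (nat_lit 10708295) (nat_lit 644433) (nat_lit 29707113) (nat_lit 3440651) [(nat_lit 644433), (nat_lit 0), (nat_lit 3623041), (nat_lit 7262284)]) (PF.cons PF.nil PF.nil))))
 (PF.cons (PF.cons (PF.leaf (nat_lit 10719378) (nat_lit 1775450) (nat_lit 29422702) (nat_lit 3424695) [(nat_lit 0), (nat_lit 1775450), (nat_lit 3606009), (nat_lit 7219988)]) (PF.cons PF.nil PF.nil)) (PF.cons PF.nil PF.nil))) (PF.cons (PF.cons (PF.cons (PF.leaf (nat_lit 11061223) (nat_lit 3365740) (nat_lit 28402420) (nat_lit 3365740) [(nat_lit 0), (nat_lit 0), (nat_lit 3542962), (nat_lit 7063681)]) (PF.cons PF.nil PF.nil)) (PF.cons PF.nil PF.nil)) PF.nil))) (PF.cons (PF.cons (PF.cons (PF.cons (PF.leaf (nat_lit 10439746) (nat_lit 3343101) (nat_lit 28513068)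 (nat_lit 3343101) [(nat_lit 0), (nat_lit 0), (nat_lit 0), (nat_lit 7050528)]) (PF.cons (PF.leaf (nat_lit 10753098) (nat_lit 621454) (nat_lit 28157645) (nat_lit 3328124) [(nat_lit 621454), (nat_lit 0), (nat_lit 0), (nat_lit 7000317)]) (PF.cons PF.nil PF.nil))) (PF.cons (PF.cons (PF.leaf (nat_lit 11077236) (nat_lit 1714754) (nat_lit 27550140) (nat_lit 3296931) [(nat_lit 0), (nat_lit 1714754), (nat_lit 0), (nat_lit 6909397)]) PF.nil) PF.nil)) (PF.cons PF.nil PF.nil)) (PF.cons PF.nil (PF.cons PF.nil (PF.cons PF.nil PF.nil)))))))))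

def p15_32_0_0 : pfC (piC [(nat_lit 35065580), (nat_lit 23538785), (nat_lit 17602610), (nat_lit 11874437)] (nat_lit 19519284)) p15_32_0 (nat_lit 4) (nat_lit 0) (nat_lit 1) = true := by decide +kernel
def p15_32_0_1 : pfC (piC [(nat_lit 35065580), (nat_lit 23538785), (nat_lit 17602610), (nat_lit 11874437)] (nat_lit 19519284)) p15_32_0 (nat_lit 4) (nat_lit 1) (nat_lit 2) = true := by decide +kernel
def p15_32_0_2 : pfC (piC [(nat_lit 35065580), (nat_lit 23538785), (nat_lit 17602610), (nat_lit 11874437)] (nat_lit 19519284)) p15_32_0 (nat_lit 4) (nat_lit 2) (nat_lit 3) = true := by decide +kernel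
def p15_32_0_3 : pfC (piC [(nat_lit 35065580), (nat_lit 23538785), (nat_lit 17602610), (nat_lit 11874437)] (nat_lit 19519284)) p15_32_0 (nat_lit 4) (nat_lit 3) (nat_lit 4) = true := by decide +kernel
def p15_32_0_4 : pfC (piC [(nat_lit 35065580), (nat_lit 23538785), (nat_lit 17602610), (nat_lit 11874437)] (nat_lit 19519284)) p15_32_0 (nat_lit 4) (nat_lit 4) (nat_lit 5) = true := by decide +kernel
def p15_32_0_5 : pfC (piC [(nat_lit 35065580), (nat_lit 23538785), (nat_lit 17602610), (nat_lit 11874437)] (nat_lit 19519284)) p15_32_0 (nat_lit 4) (nat_lit 5) (nat_lit 6) = true := by decide +kernel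
def p15_32_0_6 : pfC (piC [(nat_lit 35065580), (nat_lit 23538785), (nat_lit 17602610), (nat_lit 11874437)] (nat_lit 19519284)) p15_32_0 (nat_lit 4) (nat_lit 6) (nat_lit 7) = true := by decide +kernel
def p15_32_0_7 : pfC (piC [(nat_lit 35065580), (nat_lit 23538785), (nat_lit 17602610), (nat_lit 11874437)] (nat_lit 19519284)) p15_32_0 (nat_lit 4) (nat_lit 7) (nat_lit 8) = true := by decide +kernel
def p15_32_0_8 : pfC (piC [(nat_lit 35065580), (nat_lit 23538785), (nat_lit 17602610), (nat_lit 11874437)] (nat_lit 19519284)) p15_32_0 (nat_lit 4) (nat_lit 8) (nat_lit 9) = true := by decide +kernel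
def p15_32_0_9 : pfC (piC [(nat_lit 35065580), (nat_lit 23538785), (nat_lit 17602610), (nat_lit 11874437)] (nat_lit 19519284)) p15_32_0 (nat_lit 4) (nat_lit 9) (nat_lit 10) = true := by decide +kernel
def p15_32_0_10 : pfC (piC [(nat_lit 35065580), (nat_lit 23538785), (nat_lit 17602610), (nat_lit 11874437)] (nat_lit 19519284)) p15_32_0 (nat_lit 4) (nat_lit 10) (nat_lit 11) = true := by decide +kernel
def p15_32_0_11 : pfC (piC [(nat_lit 35065580), (nat_lit 23538785), (nat_lit 17602610), (nat_lit 11874437)] (nat_lit 19519284)) p15_32_0 (nat_lit 4) (nat_lit 11) (nat_lit 12) = true := by decide +kernel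
def p15_32_0_12 : pfC (piC [(nat_lit 35065580), (nat_lit 23538785), (nat_lit 17602610), (nat_lit 11874437)] (nat_lit 19519284)) p15_32_0 (nat_lit 4) (nat_lit 12) (nat_lit 13) = true := by decide +kernel
def p15_32_0_13 : pfC (piC [(nat_lit 35065580), (nat_lit 23538785), (nat_lit 17602610), (nat_lit 11874437)] (nat_lit 19519284)) p15_32_0 (nat_lit 4) (nat_lit 13) (nat_lit 14) = true := by decide +kernel
def p15_32_0_14 : pfC (piC [(nat_lit 35065580), (nat_lit 23538785), (nat_lit 17602610), (nat_lit 11874437)] (nat_lit 19519284)) p15_32_0 (nat_lit 4) (nat_lit 14) (nat_lit 15) = true := by decide +kernel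
def p15_32_0_15 : pfC (piC [(nat_lit 35065580), (nat_lit 23538785), (nat_lit 17602610), (nat_lit 11874437)] (nat_lit 19519284)) p15_32_0 (nat_lit 4) (nat_lit 15) (nat_lit 16) = true := by decide +kernel
def p15_32_0_16 : pfC (piC [(nat_lit 35065580), (nat_lit 23538785), (nat_lit 17602610), (nat_lit 11874437)] (nat_lit 19519284)) p15_32_0 (nat_lit 4) (nat_lit 16) (nat_lit 17) = true := by decide +kernel
def p15_32_0_17 : pfC (piC [(nat_lit 35065580), (nat_lit 23538785), (nat_lit 17602610), (nat_lit 11874437)] (nat_lit 19519284)) p15_32_0 (nat_lit 4) (nat_lit 17) (nat_lit 18) = true := by decide +kernel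
def p15_32_0_18 : pfC (piC [(nat_lit 35065580), (nat_lit 23538785), (nat_lit 17602610), (nat_lit 11874437)] (nat_lit 19519284)) p15_32_0 (nat_lit 4) (nat_lit 18) (nat_lit 19) = true := by decide +kernel
def p15_32_0_19 : pfC (piC [(nat_lit 35065580), (nat_lit 23538785), (nat_lit 17602610), (nat_lit 11874437)] (nat_lit 19519284)) p15_32_0 (nat_lit 4) (nat_lit 19) (nat_lit 20) = true := by decide +kernel
def p15_32_0_20 : pfC (piC [(nat_lit 35065580), (nat_lit 23538785), (nat_lit 17602610), (nat_lit 11874437)] (nat_lit 19519284)) p15_32_0 (nat_lit 4) (nat_lit 20) (nat_lit 21) = true := by decide +kernel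
def p15_32_0_21 : pfC (piC [(nat_lit 35065580), (nat_lit 23538785), (nat_lit 17602610), (nat_lit 11874437)] (nat_lit 19519284)) p15_32_0 (nat_lit 4) (nat_lit 21) (nat_lit 22) = true := by decide +kernel
def p15_32_0_22 : pfC (piC [(nat_lit 35065580), (nat_lit 23538785), (nat_lit 17602610), (nat_lit 11874437)] (nat_lit 19519284)) p15_32_0 (nat_lit 4) (nat_lit 22) (nat_lit 23) = true := by decide +kernel
def p15_32_0_23 : pfC (piC [(nat_lit 35065580), (nat_lit 23538785), (nat_lit 17602610), (nat_lit 11874437)] (nat_lit 19519284)) p15_32_0 (nat_lit 4) (nat_lit 23) (nat_lit 24) = true := by decide +kernel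
def p15_32_0_24 : pfC (piC [(nat_lit 35065580), (nat_lit 23538785), (nat_lit 17602610), (nat_lit 11874437)] (nat_lit 19519284)) p15_32_0 (nat_lit 4) (nat_lit 24) (nat_lit 25) = true := by decide +kernel
def p15_32_0_25 : pfC (piC [(nat_lit 35065580), (nat_lit 23538785), (nat_lit 17602610), (nat_lit 11874437)] (nat_lit 19519284)) p15_32_0 (nat_lit 4) (nat_lit 25) (nat_lit 26) = true := by decide +kernel
def p15_32_0_26 : pfC (piC [(nat_lit 35065580), (nat_lit 23538785), (nat_lit 17602610), (nat_lit 11874437)] (nat_lit 19519284)) p15_32_0 (nat_lit 4) (nat_lit 26) (nat_lit 27) = true := by decide +kernel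
def p15_32_0_27 : pfC (piC [(nat_lit 35065580), (nat_lit 23538785), (nat_lit 17602610), (nat_lit 11874437)] (nat_lit 19519284)) p15_32_0 (nat_lit 4) (nat_lit 27) (nat_lit 28) = true := by decide +kernel
def p15_32_0_28 : pfC (piC [(nat_lit 35065580), (nat_lit 23538785), (nat_lit 17602610), (nat_lit 11874437)] (nat_lit 19519284)) p15_32_0 (nat_lit 4) (nat_lit 28) (nat_lit 29) = true := by decide +kernel
def p15_32_0_29 : pfC (piC [(nat_lit 35065580), (nat_lit 23538785), (nat_lit 17602610), (nat_lit 11874437)] (nat_lit 19519284)) p15_32_0 (nat_lit 4) (nat_lit 29) (nat_lit 30) = true := by decide +kernel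
def p15_32_0_30 : pfC (piC [(nat_lit 35065580), (nat_lit 23538785), (nat_lit 17602610), (nat_lit 11874437)] (nat_lit 19519284)) p15_32_0 (nat_lit 4) (nat_lit 30) (nat_lit 31) = true := by decide +kernel
def p15_32_0_31 : pfC (piC [(nat_lit 35065580), (nat_lit 23538785), (nat_lit 17602610), (nat_lit 11874437)] (nat_lit 19519284)) p15_32_0 (nat_lit 4) (nat_lit 31) (nat_lit 32) = true := by decide +kernel
def p15_32_0_32 : pfC (piC [(nat_lit 35065580), (nat_lit 23538785), (nat_lit 17602610), (nat_lit 11874437)] (nat_lit 19519284)) p15_32_0 (nat_lit 4) (nat_lit 32) (nat_lit 33) = true := by decide +kernel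
def p15_32_0_33 : pfC (piC [(nat_lit 35065580), (nat_lit 23538785), (nat_lit 17602610), (nat_lit 11874437)] (nat_lit 19519284)) p15_32_0 (nat_lit 4) (nat_lit 33) (nat_lit 34) = true := by decide +kernel
def p15_32_0_34 : pfC (piC [(nat_lit 35065580), (nat_lit 23538785), (nat_lit 17602610), (nat_lit 11874437)] (nat_lit 19519284)) p15_32_0 (nat_lit 4) (nat_lit 34) (nat_lit 35) = true := by decide +kernel
def p15_32_0_35 : pfC (piC [(nat_lit 35065580), (nat_lit 23538785), (nat_lit 17602610), (nat_lit 11874437)] (nat_lit 19519284)) p15_32_0 (nat_lit 4) (nat_lit 35) (nat_lit 36) = true := by decide +kernel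
def p15_32_0_36 : pfC (piC [(nat_lit 35065580), (nat_lit 23538785), (nat_lit 17602610), (nat_lit 11874437)] (nat_lit 19519284)) p15_32_0 (nat_lit 4) (nat_lit 36) (nat_lit 37) = true := by decide +kernel
def p15_32_0_37 : pfC (piC [(nat_lit 35065580), (nat_lit 23538785), (nat_lit 17602610), (nat_lit 11874437)] (nat_lit 19519284)) p15_32_0 (nat_lit 4) (nat_lit 37) (nat_lit 38) = true := by decide +kernel
def p15_32_0_38 : pfC (piC [(nat_lit 35065580), (nat_lit 23538785), (nat_lit 17602610), (nat_lit 11874437)] (nat_lit 19519284)) p15_32_0 (nat_lit 4) (nat_lit 38) (nat_lit 39) = true := by decide +kernel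
def p15_32_0_39 : pfC (piC [(nat_lit 35065580), (nat_lit 23538785), (nat_lit 17602610), (nat_lit 11874437)] (nat_lit 19519284)) p15_32_0 (nat_lit 4) (nat_lit 39) (nat_lit 40) = true := by decide +kernel
def p15_32_0_40 : pfC (piC [(nat_lit 35065580), (nat_lit 23538785), (nat_lit 17602610), (nat_lit 11874437)] (nat_lit 19519284)) p15_32_0 (nat_lit 4) (nat_lit 40) (nat_lit 41) = true := by decide +kernel
def p15_32_0_41 : pfC (piC [(nat_lit 35065580), (nat_lit 23538785), (nat_lit 17602610), (nat_lit 11874437)] (nat_lit 19519284)) p15_32_0 (nat_lit 4) (nat_lit 41) (nat_lit 42) = true := by decide +kernel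
def p15_32_0_42 : pfC (piC [(nat_lit 35065580), (nat_lit 23538785), (nat_lit 17602610), (nat_lit 11874437)] (nat_lit 19519284)) p15_32_0 (nat_lit 4) (nat_lit 42) (nat_lit 43) = true := by decide +kernel
def p15_32_0_43 : pfC (piC [(nat_lit 35065580), (nat_lit 23538785), (nat_lit 17602610), (nat_lit 11874437)] (nat_lit 19519284)) p15_32_0 (nat_lit 4) (nat_lit 43) (nat_lit 44) = true := by decide +kernel
def p15_32_0_44 : pfC (piC [(nat_lit 35065580), (nat_lit 23538785), (nat_lit 17602610), (nat_lit 11874437)] (nat_lit 19519284)) p15_32_0 (nat_lit 4) (nat_lit 44) (nat_lit 45) = true := by decide +kernel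
def p15_32_0_45 : pfC (piC [(nat_lit 35065580), (nat_lit 23538785), (nat_lit 17602610), (nat_lit 11874437)] (nat_lit 19519284)) p15_32_0 (nat_lit 4) (nat_lit 45) (nat_lit 46) = true := by decide +kernel
def p15_32_0_46 : pfC (piC [(nat_lit 35065580), (nat_lit 23538785), (nat_lit 17602610), (nat_lit 11874437)] (nat_lit 19519284)) p15_32_0 (nat_lit 4) (nat_lit 46) (nat_lit 47) = true := by decide +kernel
def p15_32_0_47 : pfC (piC [(nat_lit 35065580), (nat_lit 23538785), (nat_lit 17602610), (nat_lit 11874437)] (nat_lit 19519284)) p15_32_0 (nat_lit 4) (nat_lit 47) (nat_lit 48) = true := by decide +kernel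
def p15_32_0_48 : pfC (piC [(nat_lit 35065580), (nat_lit 23538785), (nat_lit 17602610), (nat_lit 11874437)] (nat_lit 19519284)) p15_32_0 (nat_lit 4) (nat_lit 48) (nat_lit 49) = true := by decide +kernel
def p15_32_0_49 : pfC (piC [(nat_lit 35065580), (nat_lit 23538785), (nat_lit 17602610), (nat_lit 11874437)] (nat_lit 19519284)) p15_32_0 (nat_lit 4) (nat_lit 49) (nat_lit 50) = true := by decide +kernel
def p15_32_0_50 : pfC (piC [(nat_lit 35065580), (nat_lit 23538785), (nat_lit 17602610), (nat_lit 11874437)] (nat_lit 19519284)) p15_32_0 (nat_lit 4) (nat_lit 50) (nat_lit 51) = true := by decide +kernel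
def p15_32_0_51 : pfC (piC [(nat_lit 35065580), (nat_lit 23538785), (nat_lit 17602610), (nat_lit 11874437)] (nat_lit 19519284)) p15_32_0 (nat_lit 4) (nat_lit 51) (nat_lit 52) = true := by decide +kernel
def p15_32_0_52 : pfC (piC [(nat_lit 35065580), (nat_lit 23538785), (nat_lit 17602610), (nat_lit 11874437)] (nat_lit 19519284)) p15_32_0 (nat_lit 4) (nat_lit 52) (nat_lit 53) = true := by decide +kernel
def p15_32_0_53 : pfC (piC [(nat_lit 35065580), (nat_lit 23538785), (nat_lit 17602610), (nat_lit 11874437)] (nat_lit 19519284)) p15_32_0 (nat_lit 4) (nat_lit 53) (nat_lit 54) = true := by decide +kernel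
def p15_32_0_54 : pfC (piC [(nat_lit 35065580), (nat_lit 23538785), (nat_lit 17602610), (nat_lit 11874437)] (nat_lit 19519284)) p15_32_0 (nat_lit 4) (nat_lit 54) (nat_lit 55) = true := by decide +kernel
def p15_32_0_55 : pfC (piC [(nat_lit 35065580), (nat_lit 23538785), (nat_lit 17602610), (nat_lit 11874437)] (nat_lit 19519284)) p15_32_0 (nat_lit 4) (nat_lit 55) (nat_lit 56) = true := by decide +kernel
def p15_32_0_56 : pfC (piC [(nat_lit 35065580), (nat_lit 23538785), (nat_lit 17602610), (nat_lit 11874437)] (nat_lit 19519284)) p15_32_0 (nat_lit 4) (nat_lit 56) (nat_lit 57) = true := by decide +kernel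
def p15_32_0_57 : pfC (piC [(nat_lit 35065580), (nat_lit 23538785), (nat_lit 17602610), (nat_lit 11874437)] (nat_lit 19519284)) p15_32_0 (nat_lit 4) (nat_lit 57) (nat_lit 58) = true := by decide +kernel
def p15_32_0_58 : pfC (piC [(nat_lit 35065580), (nat_lit 23538785), (nat_lit 17602610), (nat_lit 11874437)] (nat_lit 19519284)) p15_32_0 (nat_lit 4) (nat_lit 58) (nat_lit 59) = true := by decide +kernel
def p15_32_0_59 : pfC (piC [(nat_lit 35065580), (nat_lit 23538785), (nat_lit 17602610), (nat_lit 11874437)] (nat_lit 19519284)) p15_32_0 (nat_lit 4) (nat_lit 59) (nat_lit 60) = true := by decide +kernel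
def p15_32_0_60 : pfC (piC [(nat_lit 35065580), (nat_lit 23538785), (nat_lit 17602610), (nat_lit 11874437)] (nat_lit 19519284)) p15_32_0 (nat_lit 4) (nat_lit 60) (nat_lit 61) = true := by decide +kernel
def p15_32_0_61 : pfC (piC [(nat_lit 35065580), (nat_lit 23538785), (nat_lit 17602610), (nat_lit 11874437)] (nat_lit 19519284)) p15_32_0 (nat_lit 4) (nat_lit 61) (nat_lit 62) = true := by decide +kernel
def p15_32_0_62 : pfC (piC [(nat_lit 35065580), (nat_lit 23538785), (nat_lit 17602610), (nat_lit 11874437)] (nat_lit 19519284)) p15_32_0 (nat_lit 4) (nat_lit 62) (nat_lit 63) = true := by decide +kernel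
def p15_32_0_63 : pfC (piC [(nat_lit 35065580), (nat_lit 23538785), (nat_lit 17602610), (nat_lit 11874437)] (nat_lit 19519284)) p15_32_0 (nat_lit 4) (nat_lit 63) (nat_lit 64) = true := by decide +kernel
def p15_32_0_64 : pfC (piC [(nat_lit 35065580), (nat_lit 23538785), (nat_lit 17602610), (nat_lit 11874437)] (nat_lit 19519284)) p15_32_0 (nat_lit 4) (nat_lit 64) (nat_lit 65) = true := by decide +kernel
def p15_32_0_65 : pfC (piC [(nat_lit 35065580), (nat_lit 23538785), (nat_lit 17602610), (nat_lit 11874437)] (nat_lit 19519284)) p15_32_0 (nat_lit 4) (nat_lit 65) (nat_lit 66) = true := by decide +kernel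
def p15_32_0_66 : pfC (piC [(nat_lit 35065580), (nat_lit 23538785), (nat_lit 17602610), (nat_lit 11874437)] (nat_lit 19519284)) p15_32_0 (nat_lit 4) (nat_lit 66) (nat_lit 67) = true := by decide +kernel
def p15_32_0_67 : pfC (piC [(nat_lit 35065580), (nat_lit 23538785), (nat_lit 17602610), (nat_lit 11874437)] (nat_lit 19519284)) p15_32_0 (nat_lit 4) (nat_lit 67) (nat_lit 68) = true := by decide +kernel
def p15_32_0_68 : pfC (piC [(nat_lit 35065580), (nat_lit 23538785), (nat_lit 17602610), (nat_lit 11874437)] (nat_lit 19519284)) p15_32_0 (nat_lit 4) (nat_lit 68) (nat_lit 69) = true := by decide +kernel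
def p15_32_0_69 : pfC (piC [(nat_lit 35065580), (nat_lit 23538785), (nat_lit 17602610), (nat_lit 11874437)] (nat_lit 19519284)) p15_32_0 (nat_lit 4) (nat_lit 69) (nat_lit 70) = true := by decide +kernel
def p15_32_0_70 : pfC (piC [(nat_lit 35065580), (nat_lit 23538785), (nat_lit 17602610), (nat_lit 11874437)] (nat_lit 19519284)) p15_32_0 (nat_lit 4) (nat_lit 70) (nat_lit 71) = true := by decide +kernel
def p15_32_0_71 : pfC (piC [(nat_lit 35065580), (nat_lit 23538785), (nat_lit 17602610), (nat_lit 11874437)] (nat_lit 19519284)) p15_32_0 (nat_lit 4) (nat_lit 71) (nat_lit 72) = true := by decide +kernel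
def p15_32_0_72 : pfC (piC [(nat_lit 35065580), (nat_lit 23538785), (nat_lit 17602610), (nat_lit 11874437)] (nat_lit 19519284)) p15_32_0 (nat_lit 4) (nat_lit 72) (nat_lit 73) = true := by decide +kernel
def p15_32_0_73 : pfC (piC [(nat_lit 35065580), (nat_lit 23538785), (nat_lit 17602610), (nat_lit 11874437)] (nat_lit 19519284)) p15_32_0 (nat_lit 4) (nat_lit 73) (nat_lit 74) = true := by decide +kernel
def p15_32_0_74 : pfC (piC [(nat_lit 35065580), (nat_lit 23538785), (nat_lit 17602610), (nat_lit 11874437)] (nat_lit 19519284)) p15_32_0 (nat_lit 4) (nat_lit 74) (nat_lit 75) = true := by decide +kernel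
def p15_32_0_75 : pfC (piC [(nat_lit 35065580), (nat_lit 23538785), (nat_lit 17602610), (nat_lit 11874437)] (nat_lit 19519284)) p15_32_0 (nat_lit 4) (nat_lit 75) (nat_lit 76) = true := by decide +kernel
def p15_32_0_76 : pfC (piC [(nat_lit 35065580), (nat_lit 23538785), (nat_lit 17602610), (nat_lit 11874437)] (nat_lit 19519284)) p15_32_0 (nat_lit 4) (nat_lit 76) (nat_lit 77) = true := by decide +kernel
def p15_32_0_77 : pfC (piC [(nat_lit 35065580), (nat_lit 23538785), (nat_lit 17602610), (nat_lit 11874437)] (nat_lit 19519284)) p15_32_0 (nat_lit 4) (nat_lit 77) (nat_lit 78) = true := by decide +kernel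
def p15_32_0_78 : pfC (piC [(nat_lit 35065580), (nat_lit 23538785), (nat_lit 17602610), (nat_lit 11874437)] (nat_lit 19519284)) p15_32_0 (nat_lit 4) (nat_lit 78) (nat_lit 79) = true := by decide +kernel
def p15_32_0_79 : pfC (piC [(nat_lit 35065580), (nat_lit 23538785), (nat_lit 17602610), (nat_lit 11874437)] (nat_lit 19519284)) p15_32_0 (nat_lit 4) (nat_lit 79) (nat_lit 80) = true := by decide +kernel
def p15_32_0_80 : pfC (piC [(nat_lit 35065580), (nat_lit 23538785), (nat_lit 17602610), (nat_lit 11874437)] (nat_lit 19519284)) p15_32_0 (nat_lit 4) (nat_lit 80) (nat_lit 81) = true := by decide +kernel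
def p15_32_0_81 : pfC (piC [(nat_lit 35065580), (nat_lit 23538785), (nat_lit 17602610), (nat_lit 11874437)] (nat_lit 19519284)) p15_32_0 (nat_lit 4) (nat_lit 81) (nat_lit 82) = true := by decide +kernel
def p15_32_0_82 : pfC (piC [(nat_lit 35065580), (nat_lit 23538785), (nat_lit 17602610), (nat_lit 11874437)] (nat_lit 19519284)) p15_32_0 (nat_lit 4) (nat_lit 82) (nat_lit 83) = true := by decide +kernel
def p15_32_0_83 : pfC (piC [(nat_lit 35065580), (nat_lit 23538785), (nat_lit 17602610), (nat_lit 11874437)] (nat_lit 19519284)) p15_32_0 (nat_lit 4) (nat_lit 83) (nat_lit 84) = true := by decide +kernel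
def p15_32_0_84 : pfC (piC [(nat_lit 35065580), (nat_lit 23538785), (nat_lit 17602610), (nat_lit 11874437)] (nat_lit 19519284)) p15_32_0 (nat_lit 4) (nat_lit 84) (nat_lit 85) = true := by decide +kernel
def p15_32_0_85 : pfC (piC [(nat_lit 35065580), (nat_lit 23538785), (nat_lit 17602610), (nat_lit 11874437)] (nat_lit 19519284)) p15_32_0 (nat_lit 4) (nat_lit 85) (nat_lit 86) = true := by decide +kernel
def p15_32_0_86 : pfC (piC [(nat_lit 35065580), (nat_lit 23538785), (nat_lit 17602610), (nat_lit 11874437)] (nat_lit 19519284)) p15_32_0 (nat_lit 4) (nat_lit 86) (nat_lit 87) = true := by decide +kernel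
def p15_32_0_87 : pfC (piC [(nat_lit 35065580), (nat_lit 23538785), (nat_lit 17602610), (nat_lit 11874437)] (nat_lit 19519284)) p15_32_0 (nat_lit 4) (nat_lit 87) (nat_lit 88) = true := by decide +kernel
def p15_32_0_88 : pfC (piC [(nat_lit 35065580), (nat_lit 23538785), (nat_lit 17602610), (nat_lit 11874437)] (nat_lit 19519284)) p15_32_0 (nat_lit 4) (nat_lit 88) (nat_lit 89) = true := by decide +kernel
def p15_32_0_89 : pfC (piC [(nat_lit 35065580), (nat_lit 23538785), (nat_lit 17602610), (nat_lit 11874437)] (nat_lit 19519284)) p15_32_0 (nat_lit 4) (nat_lit 89) (nat_lit 90) = true := by decide +kernel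
def p15_32_0_90 : pfC (piC [(nat_lit 35065580), (nat_lit 23538785), (nat_lit 17602610), (nat_lit 11874437)] (nat_lit 19519284)) p15_32_0 (nat_lit 4) (nat_lit 90) (nat_lit 91) = true := by decide +kernel
def p15_32_0_91 : pfC (piC [(nat_lit 35065580), (nat_lit 23538785), (nat_lit 17602610), (nat_lit 11874437)] (nat_lit 19519284)) p15_32_0 (nat_lit 4) (nat_lit 91) (nat_lit 92) = true := by decide +kernel
def p15_32_0_92 : pfC (piC [(nat_lit 35065580), (nat_lit 23538785), (nat_lit 17602610), (nat_lit 11874437)] (nat_lit 19519284)) p15_32_0 (nat_lit 4) (nat_lit 92) (nat_lit 93) = true := by decide +kernel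
def p15_32_0_93 : pfC (piC [(nat_lit 35065580), (nat_lit 23538785), (nat_lit 17602610), (nat_lit 11874437)] (nat_lit 19519284)) p15_32_0 (nat_lit 4) (nat_lit 93) (nat_lit 94) = true := by decide +kernel
def p15_32_0_94 : pfC (piC [(nat_lit 35065580), (nat_lit 23538785), (nat_lit 17602610), (nat_lit 11874437)] (nat_lit 19519284)) p15_32_0 (nat_lit 4) (nat_lit 94) (nat_lit 95) = true := by decide +kernel
def p15_32_0_95 : pfC (piC [(nat_lit 35065580), (nat_lit 23538785), (nat_lit 17602610), (nat_lit 11874437)] (nat_lit 19519284)) p15_32_0 (nat_lit 4) (nat_lit 95) (nat_lit 96) = true := by decide +kernel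
def p15_32_0_96 : pfC (piC [(nat_lit 35065580), (nat_lit 23538785), (nat_lit 17602610), (nat_lit 11874437)] (nat_lit 19519284)) p15_32_0 (nat_lit 4) (nat_lit 96) (nat_lit 97) = true := by decide +kernel
def p15_32_0_97 : pfC (piC [(nat_lit 35065580), (nat_lit 23538785), (nat_lit 17602610), (nat_lit 11874437)] (nat_lit 19519284)) p15_32_0 (nat_lit 4) (nat_lit 97) (nat_lit 98) = true := by decide +kernel
def p15_32_0_98 : pfC (piC [(nat_lit 35065580), (nat_lit 23538785), (nat_lit 17602610), (nat_lit 11874437)] (nat_lit 19519284)) p15_32_0 (nat_lit 4) (nat_lit 98) (nat_lit 99) = true := by decide +kernel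
def p15_32_0_99 : pfC (piC [(nat_lit 35065580), (nat_lit 23538785), (nat_lit 17602610), (nat_lit 11874437)] (nat_lit 19519284)) p15_32_0 (nat_lit 4) (nat_lit 99) (nat_lit 100) = true := by decide +kernel
def p15_32_0_100 : pfC (piC [(nat_lit 35065580), (nat_lit 23538785), (nat_lit 17602610), (nat_lit 11874437)] (nat_lit 19519284)) p15_32_0 (nat_lit 4) (nat_lit 100) (nat_lit 101) = true := by decide +kernel
def p15_32_0_101 : pfC (piC [(nat_lit 35065580), (nat_lit 23538785), (nat_lit 17602610), (nat_lit 11874437)] (nat_lit 19519284)) p15_32_0 (nat_lit 4) (nat_lit 101) (nat_lit 102) = true := by decide +kernel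
def p15_32_0_102 : pfC (piC [(nat_lit 35065580), (nat_lit 23538785), (nat_lit 17602610), (nat_lit 11874437)] (nat_lit 19519284)) p15_32_0 (nat_lit 4) (nat_lit 102) (nat_lit 103) = true := by decide +kernel
def p15_32_0_103 : pfC (piC [(nat_lit 35065580), (nat_lit 23538785), (nat_lit 17602610), (nat_lit 11874437)] (nat_lit 19519284)) p15_32_0 (nat_lit 4) (nat_lit 103) (nat_lit 104) = true := by decide +kernel
def p15_32_0_104 : pfC (piC [(nat_lit 35065580), (nat_lit 23538785), (nat_lit 17602610), (nat_lit 11874437)] (nat_lit 19519284)) p15_32_0 (nat_lit 4) (nat_lit 104) (nat_lit 105) = true := by decide +kernel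
def p15_32_0_105 : pfC (piC [(nat_lit 35065580), (nat_lit 23538785), (nat_lit 17602610), (nat_lit 11874437)] (nat_lit 19519284)) p15_32_0 (nat_lit 4) (nat_lit 105) (nat_lit 106) = true := by decide +kernel
def p15_32_0_106 : pfC (piC [(nat_lit 35065580), (nat_lit 23538785), (nat_lit 17602610), (nat_lit 11874437)] (nat_lit 19519284)) p15_32_0 (nat_lit 4) (nat_lit 106) (nat_lit 107) = true := by decide +kernel
def p15_32_0_107 : pfC (piC [(nat_lit 35065580), (nat_lit 23538785), (nat_lit 17602610), (nat_lit 11874437)] (nat_lit 19519284)) p15_32_0 (nat_lit 4) (nat_lit 107) (nat_lit 108) = true := by decide +kernel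
def p15_32_0_108 : pfC (piC [(nat_lit 35065580), (nat_lit 23538785), (nat_lit 17602610), (nat_lit 11874437)] (nat_lit 19519284)) p15_32_0 (nat_lit 4) (nat_lit 108) (nat_lit 109) = true := by decide +kernel
def p15_32_0_109 : pfC (piC [(nat_lit 35065580), (nat_lit 23538785), (nat_lit 17602610), (nat_lit 11874437)] (nat_lit 19519284)) p15_32_0 (nat_lit 4) (nat_lit 109) (nat_lit 110) = true := by decide +kernel
def p15_32_0_110 : pfC (piC [(nat_lit 35065580), (nat_lit 23538785), (nat_lit 17602610), (nat_lit 11874437)] (nat_lit 19519284)) p15_32_0 (nat_lit 4) (nat_lit 110) (nat_lit 111) = true := by decide +kernel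
def p15_32_0_111 : pfC (piC [(nat_lit 35065580), (nat_lit 23538785), (nat_lit 17602610), (nat_lit 11874437)] (nat_lit 19519284)) p15_32_0 (nat_lit 4) (nat_lit 111) (nat_lit 112) = true := by decide +kernel
def p15_32_0_112 : pfC (piC [(nat_lit 35065580), (nat_lit 23538785), (nat_lit 17602610), (nat_lit 11874437)] (nat_lit 19519284)) p15_32_0 (nat_lit 4) (nat_lit 112) (nat_lit 113) = true := by decide +kernel
def p15_32_0_113 : pfC (piC [(nat_lit 35065580), (nat_lit 23538785), (nat_lit 17602610), (nat_lit 11874437)] (nat_lit 19519284)) p15_32_0 (nat_lit 4) (nat_lit 113) (nat_lit 114) = true := by decide +kernel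
def p15_32_0_114 : pfC (piC [(nat_lit 35065580), (nat_lit 23538785), (nat_lit 17602610), (nat_lit 11874437)] (nat_lit 19519284)) p15_32_0 (nat_lit 4) (nat_lit 114) (nat_lit 115) = true := by decide +kernel
def p15_32_0_115 : pfC (piC [(nat_lit 35065580), (nat_lit 23538785), (nat_lit 17602610), (nat_lit 11874437)] (nat_lit 19519284)) p15_32_0 (nat_lit 4) (nat_lit 115) (nat_lit 116) = true := by decide +kernel
def p15_32_0_116 : pfC (piC [(nat_lit 35065580), (nat_lit 23538785), (nat_lit 17602610), (nat_lit 11874437)] (nat_lit 19519284)) p15_32_0 (nat_lit 4) (nat_lit 116) (nat_lit 117) = true := by decide +kernel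
def p15_32_0_117 : pfC (piC [(nat_lit 35065580), (nat_lit 23538785), (nat_lit 17602610), (nat_lit 11874437)] (nat_lit 19519284)) p15_32_0 (nat_lit 4) (nat_lit 117) (nat_lit 118) = true := by decide +kernel
def p15_32_0_118 : pfC (piC [(nat_lit 35065580), (nat_lit 23538785), (nat_lit 17602610), (nat_lit 11874437)] (nat_lit 19519284)) p15_32_0 (nat_lit 4) (nat_lit 118) (nat_lit 119) = true := by decide +kernel
def p15_32_0_119 : pfC (piC [(nat_lit 35065580), (nat_lit 23538785), (nat_lit 17602610), (nat_lit 11874437)] (nat_lit 19519284)) p15_32_0 (nat_lit 4) (nat_lit 119) (nat_lit 120) = true := by decide +kernel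
def p15_32_0_120 : pfC (piC [(nat_lit 35065580), (nat_lit 23538785), (nat_lit 17602610), (nat_lit 11874437)] (nat_lit 19519284)) p15_32_0 (nat_lit 4) (nat_lit 120) (nat_lit 121) = true := by decide +kernel
def p15_32_0_121 : pfC (piC [(nat_lit 35065580), (nat_lit 23538785), (nat_lit 17602610), (nat_lit 11874437)] (nat_lit 19519284)) p15_32_0 (nat_lit 4) (nat_lit 121) (nat_lit 122) = true := by decide +kernel
def p15_32_0_122 : pfC (piC [(nat_lit 35065580), (nat_lit 23538785), (nat_lit 17602610), (nat_lit 11874437)] (nat_lit 19519284)) p15_32_0 (nat_lit 4) (nat_lit 122) (nat_lit 123) = true := by decide +kernel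
def p15_32_0_123 : pfC (piC [(nat_lit 35065580), (nat_lit 23538785), (nat_lit 17602610), (nat_lit 11874437)] (nat_lit 19519284)) p15_32_0 (nat_lit 4) (nat_lit 123) (nat_lit 124) = true := by decide +kernel
def p15_32_0_124 : pfC (piC [(nat_lit 35065580), (nat_lit 23538785), (nat_lit 17602610), (nat_lit 11874437)] (nat_lit 19519284)) p15_32_0 (nat_lit 4) (nat_lit 124) (nat_lit 125) = true := by decide +kernel
def p15_32_0_125 : pfC (piC [(nat_lit 35065580), (nat_lit 23538785), (nat_lit 17602610), (nat_lit 11874437)] (nat_lit 19519284)) p15_32_0 (nat_lit 4) (nat_lit 125) (nat_lit 126) = true := by decide +kernel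
def p15_32_0_126 : pfC (piC [(nat_lit 35065580), (nat_lit 23538785), (nat_lit 17602610), (nat_lit 11874437)] (nat_lit 19519284)) p15_32_0 (nat_lit 4) (nat_lit 126) (nat_lit 127) = true := by decide +kernel
def p15_32_0_127 : pfC (piC [(nat_lit 35065580), (nat_lit 23538785), (nat_lit 17602610), (nat_lit 11874437)] (nat_lit 19519284)) p15_32_0 (nat_lit 4) (nat_lit 127) (nat_lit 128) = true := by decide +kernel
def p15_32_0_128 : pfC (piC [(nat_lit 35065580), (nat_lit 23538785), (nat_lit 17602610), (nat_lit 11874437)] (nat_lit 19519284)) p15_32_0 (nat_lit 4) (nat_lit 128) (nat_lit 129) = true := by decide +kernel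
def p15_32_0_129 : pfC (piC [(nat_lit 35065580), (nat_lit 23538785), (nat_lit 17602610), (nat_lit 11874437)] (nat_lit 19519284)) p15_32_0 (nat_lit 4) (nat_lit 129) (nat_lit 130) = true := by decide +kernel
def p15_32_0_130 : pfC (piC [(nat_lit 35065580), (nat_lit 23538785), (nat_lit 17602610), (nat_lit 11874437)] (nat_lit 19519284)) p15_32_0 (nat_lit 4) (nat_lit 130) (nat_lit 131) = true := by decide +kernel
def p15_32_0_131 : pfC (piC [(nat_lit 35065580), (nat_lit 23538785), (nat_lit 17602610), (nat_lit 11874437)] (nat_lit 19519284)) p15_32_0 (nat_lit 4) (nat_lit 131) (nat_lit 132) = true := by decide +kernel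
def p15_32_0_132 : pfC (piC [(nat_lit 35065580), (nat_lit 23538785), (nat_lit 17602610), (nat_lit 11874437)] (nat_lit 19519284)) p15_32_0 (nat_lit 4) (nat_lit 132) (nat_lit 133) = true := by decide +kernel
def p15_32_0_133 : pfC (piC [(nat_lit 35065580), (nat_lit 23538785), (nat_lit 17602610), (nat_lit 11874437)] (nat_lit 19519284)) p15_32_0 (nat_lit 4) (nat_lit 133) (nat_lit 134) = true := by decide +kernel
def p15_32_0_134 : pfC (piC [(nat_lit 35065580), (nat_lit 23538785), (nat_lit 17602610), (nat_lit 11874437)] (nat_lit 19519284)) p15_32_0 (nat_lit 4) (nat_lit 134) (nat_lit 135) = true := by decide +kernel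
def p15_32_0_135 : pfC (piC [(nat_lit 35065580), (nat_lit 23538785), (nat_lit 17602610), (nat_lit 11874437)] (nat_lit 19519284)) p15_32_0 (nat_lit 4) (nat_lit 135) (nat_lit 136) = true := by decide +kernel
def p15_32_0_136 : pfC (piC [(nat_lit 35065580), (nat_lit 23538785), (nat_lit 17602610), (nat_lit 11874437)] (nat_lit 19519284)) p15_32_0 (nat_lit 4) (nat_lit 136) (nat_lit 137) = true := by decide +kernel
def p15_32_0_137 : pfC (piC [(nat_lit 35065580), (nat_lit 23538785), (nat_lit 17602610), (nat_lit 11874437)] (nat_lit 19519284)) p15_32_0 (nat_lit 4) (nat_lit 137) (nat_lit 138) = true := by decide +kernel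
def p15_32_0_138 : pfC (piC [(nat_lit 35065580), (nat_lit 23538785), (nat_lit 17602610), (nat_lit 11874437)] (nat_lit 19519284)) p15_32_0 (nat_lit 4) (nat_lit 138) (nat_lit 139) = true := by decide +kernel
def p15_32_0_139 : pfC (piC [(nat_lit 35065580), (nat_lit 23538785), (nat_lit 17602610), (nat_lit 11874437)] (nat_lit 19519284)) p15_32_0 (nat_lit 4) (nat_lit 139) (nat_lit 140) = true := by decide +kernel
def p15_32_0_140 : pfC (piC [(nat_lit 35065580), (nat_lit 23538785), (nat_lit 17602610), (nat_lit 11874437)] (nat_lit 19519284)) p15_32_0 (nat_lit 4) (nat_lit 140) (nat_lit 141) = true := by decide +kernel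
def p15_32_0_141 : pfC (piC [(nat_lit 35065580), (nat_lit 23538785), (nat_lit 17602610), (nat_lit 11874437)] (nat_lit 19519284)) p15_32_0 (nat_lit 4) (nat_lit 141) (nat_lit 142) = true := by decide +kernel
def p15_32_0_142 : pfC (piC [(nat_lit 35065580), (nat_lit 23538785), (nat_lit 17602610), (nat_lit 11874437)] (nat_lit 19519284)) p15_32_0 (nat_lit 4) (nat_lit 142) (nat_lit 143) = true := by decide +kernel
def p15_32_0_143 : pfC (piC [(nat_lit 35065580), (nat_lit 23538785), (nat_lit 17602610), (nat_lit 11874437)] (nat_lit 19519284)) p15_32_0 (nat_lit 4) (nat_lit 143) (nat_lit 144) = true := by decide +kernel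
def p15_32_0_144 : pfC (piC [(nat_lit 35065580), (nat_lit 23538785), (nat_lit 17602610), (nat_lit 11874437)] (nat_lit 19519284)) p15_32_0 (nat_lit 4) (nat_lit 144) (nat_lit 145) = true := by decide +kernel
def p15_32_0_145 : pfC (piC [(nat_lit 35065580), (nat_lit 23538785), (nat_lit 17602610), (nat_lit 11874437)] (nat_lit 19519284)) p15_32_0 (nat_lit 4) (nat_lit 145) (nat_lit 146) = true := by decide +kernel
def p15_32_0_146 : pfC (piC [(nat_lit 35065580), (nat_lit 23538785), (nat_lit 17602610), (nat_lit 11874437)] (nat_lit 19519284)) p15_32_0 (nat_lit 4) (nat_lit 146) (nat_lit 147) = true := by decide +kernel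
def p15_32_0_147 : pfC (piC [(nat_lit 35065580), (nat_lit 23538785), (nat_lit 17602610), (nat_lit 11874437)] (nat_lit 19519284)) p15_32_0 (nat_lit 4) (nat_lit 147) (nat_lit 148) = true := by decide +kernel
def p15_32_0_148 : pfC (piC [(nat_lit 35065580), (nat_lit 23538785), (nat_lit 17602610), (nat_lit 11874437)] (nat_lit 19519284)) p15_32_0 (nat_lit 4) (nat_lit 148) (nat_lit 149) = true := by decide +kernel
def p15_32_0_149 : pfC (piC [(nat_lit 35065580), (nat_lit 23538785), (nat_lit 17602610), (nat_lit 11874437)] (nat_lit 19519284)) p15_32_0 (nat_lit 4) (nat_lit 149) (nat_lit 150) = true := by decide +kernel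
def p15_32_0_150 : pfC (piC [(nat_lit 35065580), (nat_lit 23538785), (nat_lit 17602610), (nat_lit 11874437)] (nat_lit 19519284)) p15_32_0 (nat_lit 4) (nat_lit 150) (nat_lit 151) = true := by decide +kernel
def p15_32_0_151 : pfC (piC [(nat_lit 35065580), (nat_lit 23538785), (nat_lit 17602610), (nat_lit 11874437)] (nat_lit 19519284)) p15_32_0 (nat_lit 4) (nat_lit 151) (nat_lit 152) = true := by decide +kernel
def p15_32_0_152 : pfC (piC [(nat_lit 35065580), (nat_lit 23538785), (nat_lit 17602610), (nat_lit 11874437)] (nat_lit 19519284)) p15_32_0 (nat_lit 4) (nat_lit 152) (nat_lit 153) = true := by decide +kernel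
def p15_32_0_153 : pfC (piC [(nat_lit 35065580), (nat_lit 23538785), (nat_lit 17602610), (nat_lit 11874437)] (nat_lit 19519284)) p15_32_0 (nat_lit 4) (nat_lit 153) (nat_lit 154) = true := by decide +kernel
def p15_32_0_154 : pfC (piC [(nat_lit 35065580), (nat_lit 23538785), (nat_lit 17602610), (nat_lit 11874437)] (nat_lit 19519284)) p15_32_0 (nat_lit 4) (nat_lit 154) (nat_lit 155) = true := by decide +kernel
def p15_32_0_155 : pfC (piC [(nat_lit 35065580), (nat_lit 23538785), (nat_lit 17602610), (nat_lit 11874437)] (nat_lit 19519284)) p15_32_0 (nat_lit 4) (nat_lit 155) (nat_lit 156) = true := by decide +kernel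
def p15_32_0_156 : pfC (piC [(nat_lit 35065580), (nat_lit 23538785), (nat_lit 17602610), (nat_lit 11874437)] (nat_lit 19519284)) p15_32_0 (nat_lit 4) (nat_lit 156) (nat_lit 157) = true := by decide +kernel
def p15_32_0_157 : pfC (piC [(nat_lit 35065580), (nat_lit 23538785), (nat_lit 17602610), (nat_lit 11874437)] (nat_lit 19519284)) p15_32_0 (nat_lit 4) (nat_lit 157) (nat_lit 158) = true := by decide +kernel
def p15_32_0_158 : pfC (piC [(nat_lit 35065580), (nat_lit 23538785), (nat_lit 17602610), (nat_lit 11874437)] (nat_lit 19519284)) p15_32_0 (nat_lit 4) (nat_lit 158) (nat_lit 159) = true := by decide +kernel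
def p15_32_0_159 : pfC (piC [(nat_lit 35065580), (nat_lit 23538785), (nat_lit 17602610), (nat_lit 11874437)] (nat_lit 19519284)) p15_32_0 (nat_lit 4) (nat_lit 159) (nat_lit 160) = true := by decide +kernel
def p15_32_0_160 : pfC (piC [(nat_lit 35065580), (nat_lit 23538785), (nat_lit 17602610), (nat_lit 11874437)] (nat_lit 19519284)) p15_32_0 (nat_lit 4) (nat_lit 160) (nat_lit 161) = true := by decide +kernel
def p15_32_0_161 : pfC (piC [(nat_lit 35065580), (nat_lit 23538785), (nat_lit 17602610), (nat_lit 11874437)] (nat_lit 19519284)) p15_32_0 (nat_lit 4) (nat_lit 161) (nat_lit 162) = true := by decide +kernel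
def p15_32_0_162 : pfC (piC [(nat_lit 35065580), (nat_lit 23538785), (nat_lit 17602610), (nat_lit 11874437)] (nat_lit 19519284)) p15_32_0 (nat_lit 4) (nat_lit 162) (nat_lit 163) = true := by decide +kernel
def p15_32_0_163 : pfC (piC [(nat_lit 35065580), (nat_lit 23538785), (nat_lit 17602610), (nat_lit 11874437)] (nat_lit 19519284)) p15_32_0 (nat_lit 4) (nat_lit 163) (nat_lit 164) = true := by decide +kernel
def p15_32_0_164 : pfC (piC [(nat_lit 35065580), (nat_lit 23538785), (nat_lit 17602610), (nat_lit 11874437)] (nat_lit 19519284)) p15_32_0 (nat_lit 4) (nat_lit 164) (nat_lit 165) = true := by decide +kernel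
def p15_32_0_165 : pfC (piC [(nat_lit 35065580), (nat_lit 23538785), (nat_lit 17602610), (nat_lit 11874437)] (nat_lit 19519284)) p15_32_0 (nat_lit 4) (nat_lit 165) (nat_lit 166) = true := by decide +kernel
def p15_32_0_166 : pfC (piC [(nat_lit 35065580), (nat_lit 23538785), (nat_lit 17602610), (nat_lit 11874437)] (nat_lit 19519284)) p15_32_0 (nat_lit 4) (nat_lit 166) (nat_lit 167) = true := by decide +kernel
def p15_32_0_167 : pfC (piC [(nat_lit 35065580), (nat_lit 23538785), (nat_lit 17602610), (nat_lit 11874437)] (nat_lit 19519284)) p15_32_0 (nat_lit 4) (nat_lit 167) (nat_lit 168) = true := by decide +kernel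
def p15_32_0_168 : pfC (piC [(nat_lit 35065580), (nat_lit 23538785), (nat_lit 17602610), (nat_lit 11874437)] (nat_lit 19519284)) p15_32_0 (nat_lit 4) (nat_lit 168) (nat_lit 169) = true := by decide +kernel
def p15_32_0_169 : pfC (piC [(nat_lit 35065580), (nat_lit 23538785), (nat_lit 17602610), (nat_lit 11874437)] (nat_lit 19519284)) p15_32_0 (nat_lit 4) (nat_lit 169) (nat_lit 170) = true := by decide +kernel
def p15_32_0_170 : pfC (piC [(nat_lit 35065580), (nat_lit 23538785), (nat_lit 17602610), (nat_lit 11874437)] (nat_lit 19519284)) p15_32_0 (nat_lit 4) (nat_lit 170) (nat_lit 171) = true := by decide +kernel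
def p15_32_0_171 : pfC (piC [(nat_lit 35065580), (nat_lit 23538785), (nat_lit 17602610), (nat_lit 11874437)] (nat_lit 19519284)) p15_32_0 (nat_lit 4) (nat_lit 171) (nat_lit 172) = true := by decide +kernel
def p15_32_0_172 : pfC (piC [(nat_lit 35065580), (nat_lit 23538785), (nat_lit 17602610), (nat_lit 11874437)] (nat_lit 19519284)) p15_32_0 (nat_lit 4) (nat_lit 172) (nat_lit 173) = true := by decide +kernel
def p15_32_0_173 : pfC (piC [(nat_lit 35065580), (nat_lit 23538785), (nat_lit 17602610), (nat_lit 11874437)] (nat_lit 19519284)) p15_32_0 (nat_lit 4) (nat_lit 173) (nat_lit 174) = true := by decide +kernel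
def p15_32_0_174 : pfC (piC [(nat_lit 35065580), (nat_lit 23538785), (nat_lit 17602610), (nat_lit 11874437)] (nat_lit 19519284)) p15_32_0 (nat_lit 4) (nat_lit 174) (nat_lit 175) = true := by decide +kernel
def p15_32_0_175 : pfC (piC [(nat_lit 35065580), (nat_lit 23538785), (nat_lit 17602610), (nat_lit 11874437)] (nat_lit 19519284)) p15_32_0 (nat_lit 4) (nat_lit 175) (nat_lit 176) = true := by decide +kernel
def p15_32_0_176 : pfC (piC [(nat_lit 35065580), (nat_lit 23538785), (nat_lit 17602610), (nat_lit 11874437)] (nat_lit 19519284)) p15_32_0 (nat_lit 4) (nat_lit 176) (nat_lit 177) = true := by decide +kernel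
def p15_32_0_177 : pfC (piC [(nat_lit 35065580), (nat_lit 23538785), (nat_lit 17602610), (nat_lit 11874437)] (nat_lit 19519284)) p15_32_0 (nat_lit 4) (nat_lit 177) (nat_lit 178) = true := by decide +kernel
def p15_32_0_178 : pfC (piC [(nat_lit 35065580), (nat_lit 23538785), (nat_lit 17602610), (nat_lit 11874437)] (nat_lit 19519284)) p15_32_0 (nat_lit 4) (nat_lit 178) (nat_lit 179) = true := by decide +kernel
def p15_32_0_179 : pfC (piC [(nat_lit 35065580), (nat_lit 23538785), (nat_lit 17602610), (nat_lit 11874437)] (nat_lit 19519284)) p15_32_0 (nat_lit 4) (nat_lit 179) (nat_lit 180) = true := by decide +kernel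
def p15_32_0_180 : pfC (piC [(nat_lit 35065580), (nat_lit 23538785), (nat_lit 17602610), (nat_lit 11874437)] (nat_lit 19519284)) p15_32_0 (nat_lit 4) (nat_lit 180) (nat_lit 181) = true := by decide +kernel
def p15_32_0_181 : pfC (piC [(nat_lit 35065580), (nat_lit 23538785), (nat_lit 17602610), (nat_lit 11874437)] (nat_lit 19519284)) p15_32_0 (nat_lit 4) (nat_lit 181) (nat_lit 182) = true := by decide +kernel
def p15_32_0_182 : pfC (piC [(nat_lit 35065580), (nat_lit 23538785), (nat_lit 17602610), (nat_lit 11874437)] (nat_lit 19519284)) p15_32_0 (nat_lit 4) (nat_lit 182) (nat_lit 183) = true := by decide +kernel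
def p15_32_0_183 : pfC (piC [(nat_lit 35065580), (nat_lit 23538785), (nat_lit 17602610), (nat_lit 11874437)] (nat_lit 19519284)) p15_32_0 (nat_lit 4) (nat_lit 183) (nat_lit 184) = true := by decide +kernel
def p15_32_0_184 : pfC (piC [(nat_lit 35065580), (nat_lit 23538785), (nat_lit 17602610), (nat_lit 11874437)] (nat_lit 19519284)) p15_32_0 (nat_lit 4) (nat_lit 184) (nat_lit 185) = true := by decide +kernel
def p15_32_0_185 : pfC (piC [(nat_lit 35065580), (nat_lit 23538785), (nat_lit 17602610), (nat_lit 11874437)] (nat_lit 19519284)) p15_32_0 (nat_lit 4) (nat_lit 185) (nat_lit 186) = true := by decide +kernel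
def p15_32_0_186 : pfC (piC [(nat_lit 35065580), (nat_lit 23538785), (nat_lit 17602610), (nat_lit 11874437)] (nat_lit 19519284)) p15_32_0 (nat_lit 4) (nat_lit 186) (nat_lit 187) = true := by decide +kernel
def p15_32_0_187 : pfC (piC [(nat_lit 35065580), (nat_lit 23538785), (nat_lit 17602610), (nat_lit 11874437)] (nat_lit 19519284)) p15_32_0 (nat_lit 4) (nat_lit 187) (nat_lit 188) = true := by decide +kernel
def p15_32_0_188 : pfC (piC [(nat_lit 35065580), (nat_lit 23538785), (nat_lit 17602610), (nat_lit 11874437)] (nat_lit 19519284)) p15_32_0 (nat_lit 4) (nat_lit 188) (nat_lit 189) = true := by decide +kernel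
def p15_32_0_189 : pfC (piC [(nat_lit 35065580), (nat_lit 23538785), (nat_lit 17602610), (nat_lit 11874437)] (nat_lit 19519284)) p15_32_0 (nat_lit 4) (nat_lit 189) (nat_lit 190) = true := by decide +kernel
def p15_32_0_190 : pfC (piC [(nat_lit 35065580), (nat_lit 23538785), (nat_lit 17602610), (nat_lit 11874437)] (nat_lit 19519284)) p15_32_0 (nat_lit 4) (nat_lit 190) (nat_lit 191) = true := by decide +kernel
def p15_32_0_191 : pfC (piC [(nat_lit 35065580), (nat_lit 23538785), (nat_lit 17602610), (nat_lit 11874437)] (nat_lit 19519284)) p15_32_0 (nat_lit 4) (nat_lit 191) (nat_lit 192) = true := by decide +kernel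
def p15_32_0_192 : pfC (piC [(nat_lit 35065580), (nat_lit 23538785), (nat_lit 17602610), (nat_lit 11874437)] (nat_lit 19519284)) p15_32_0 (nat_lit 4) (nat_lit 192) (nat_lit 193) = true := by decide +kernel
def p15_32_0_193 : pfC (piC [(nat_lit 35065580), (nat_lit 23538785), (nat_lit 17602610), (nat_lit 11874437)] (nat_lit 19519284)) p15_32_0 (nat_lit 4) (nat_lit 193) (nat_lit 194) = true := by decide +kernel
def p15_32_0_194 : pfC (piC [(nat_lit 35065580), (nat_lit 23538785), (nat_lit 17602610), (nat_lit 11874437)] (nat_lit 19519284)) p15_32_0 (nat_lit 4) (nat_lit 194) (nat_lit 195) = true := by decide +kernel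
def p15_32_0_195 : pfC (piC [(nat_lit 35065580), (nat_lit 23538785), (nat_lit 17602610), (nat_lit 11874437)] (nat_lit 19519284)) p15_32_0 (nat_lit 4) (nat_lit 195) (nat_lit 196) = true := by decide +kernel
def p15_32_0_196 : pfC (piC [(nat_lit 35065580), (nat_lit 23538785), (nat_lit 17602610), (nat_lit 11874437)] (nat_lit 19519284)) p15_32_0 (nat_lit 4) (nat_lit 196) (nat_lit 197) = true := by decide +kernel
def p15_32_0_197 : pfC (piC [(nat_lit 35065580), (nat_lit 23538785), (nat_lit 17602610), (nat_lit 11874437)] (nat_lit 19519284)) p15_32_0 (nat_lit 4) (nat_lit 197) (nat_lit 198) = true := by decide +kernel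
def p15_32_0_198 : pfC (piC [(nat_lit 35065580), (nat_lit 23538785), (nat_lit 17602610), (nat_lit 11874437)] (nat_lit 19519284)) p15_32_0 (nat_lit 4) (nat_lit 198) (nat_lit 199) = true := by decide +kernel
def p15_32_0_199 : pfC (piC [(nat_lit 35065580), (nat_lit 23538785), (nat_lit 17602610), (nat_lit 11874437)] (nat_lit 19519284)) p15_32_0 (nat_lit 4) (nat_lit 199) (nat_lit 200) = true := by decide +kernel
def p15_32_0_200 : pfC (piC [(nat_lit 35065580), (nat_lit 23538785), (nat_lit 17602610), (nat_lit 11874437)] (nat_lit 19519284)) p15_32_0 (nat_lit 4) (nat_lit 200) (nat_lit 201) = true := by decide +kernel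
def p15_32_0_201 : pfC (piC [(nat_lit 35065580), (nat_lit 23538785), (nat_lit 17602610), (nat_lit 11874437)] (nat_lit 19519284)) p15_32_0 (nat_lit 4) (nat_lit 201) (nat_lit 202) = true := by decide +kernel
def p15_32_0_202 : pfC (piC [(nat_lit 35065580), (nat_lit 23538785), (nat_lit 17602610), (nat_lit 11874437)] (nat_lit 19519284)) p15_32_0 (nat_lit 4) (nat_lit 202) (nat_lit 203) = true := by decide +kernel
def p15_32_0_203 : pfC (piC [(nat_lit 35065580), (nat_lit 23538785), (nat_lit 17602610), (nat_lit 11874437)] (nat_lit 19519284)) p15_32_0 (nat_lit 4) (nat_lit 203) (nat_lit 204) = true := by decide +kernel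
def p15_32_0_204 : pfC (piC [(nat_lit 35065580), (nat_lit 23538785), (nat_lit 17602610), (nat_lit 11874437)] (nat_lit 19519284)) p15_32_0 (nat_lit 4) (nat_lit 204) (nat_lit 205) = true := by decide +kernel
def p15_32_0_205 : pfC (piC [(nat_lit 35065580), (nat_lit 23538785), (nat_lit 17602610), (nat_lit 11874437)] (nat_lit 19519284)) p15_32_0 (nat_lit 4) (nat_lit 205) (nat_lit 206) = true := by decide +kernel
def p15_32_0_206 : pfC (piC [(nat_lit 35065580), (nat_lit 23538785), (nat_lit 17602610), (nat_lit 11874437)] (nat_lit 19519284)) p15_32_0 (nat_lit 4) (nat_lit 206) (nat_lit 207) = true := by decide +kernel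
def p15_32_0_207 : pfC (piC [(nat_lit 35065580), (nat_lit 23538785), (nat_lit 17602610), (nat_lit 11874437)] (nat_lit 19519284)) p15_32_0 (nat_lit 4) (nat_lit 207) (nat_lit 208) = true := by decide +kernel
def p15_32_0_208 : pfC (piC [(nat_lit 35065580), (nat_lit 23538785), (nat_lit 17602610), (nat_lit 11874437)] (nat_lit 19519284)) p15_32_0 (nat_lit 4) (nat_lit 208) (nat_lit 209) = true := by decide +kernel
def p15_32_0_209 : pfC (piC [(nat_lit 35065580), (nat_lit 23538785), (nat_lit 17602610), (nat_lit 11874437)] (nat_lit 19519284)) p15_32_0 (nat_lit 4) (nat_lit 209) (nat_lit 210) = true := by decide +kernel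
def p15_32_0_210 : pfC (piC [(nat_lit 35065580), (nat_lit 23538785), (nat_lit 17602610), (nat_lit 11874437)] (nat_lit 19519284)) p15_32_0 (nat_lit 4) (nat_lit 210) (nat_lit 211) = true := by decide +kernel
def p15_32_0_211 : pfC (piC [(nat_lit 35065580), (nat_lit 23538785), (nat_lit 17602610), (nat_lit 11874437)] (nat_lit 19519284)) p15_32_0 (nat_lit 4) (nat_lit 211) (nat_lit 212) = true := by decide +kernel
def p15_32_0_212 : pfC (piC [(nat_lit 35065580), (nat_lit 23538785), (nat_lit 17602610), (nat_lit 11874437)] (nat_lit 19519284)) p15_32_0 (nat_lit 4) (nat_lit 212) (nat_lit 213) = true := by decide +kernel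
def p15_32_0_213 : pfC (piC [(nat_lit 35065580), (nat_lit 23538785), (nat_lit 17602610), (nat_lit 11874437)] (nat_lit 19519284)) p15_32_0 (nat_lit 4) (nat_lit 213) (nat_lit 214) = true := by decide +kernel
def p15_32_0_214 : pfC (piC [(nat_lit 35065580), (nat_lit 23538785), (nat_lit 17602610), (nat_lit 11874437)] (nat_lit 19519284)) p15_32_0 (nat_lit 4) (nat_lit 214) (nat_lit 215) = true := by decide +kernel
def p15_32_0_215 : pfC (piC [(nat_lit 35065580), (nat_lit 23538785), (nat_lit 17602610), (nat_lit 11874437)] (nat_lit 19519284)) p15_32_0 (nat_lit 4) (nat_lit 215) (nat_lit 216) = true := by decide +kernel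
def p15_32_0_216 : pfC (piC [(nat_lit 35065580), (nat_lit 23538785), (nat_lit 17602610), (nat_lit 11874437)] (nat_lit 19519284)) p15_32_0 (nat_lit 4) (nat_lit 216) (nat_lit 217) = true := by decide +kernel
def p15_32_0_217 : pfC (piC [(nat_lit 35065580), (nat_lit 23538785), (nat_lit 17602610), (nat_lit 11874437)] (nat_lit 19519284)) p15_32_0 (nat_lit 4) (nat_lit 217) (nat_lit 218) = true := by decide +kernel
def p15_32_0_218 : pfC (piC [(nat_lit 35065580), (nat_lit 23538785), (nat_lit 17602610), (nat_lit 11874437)] (nat_lit 19519284)) p15_32_0 (nat_lit 4) (nat_lit 218) (nat_lit 219) = true := by decide +kernel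
def p15_32_0_219 : pfC (piC [(nat_lit 35065580), (nat_lit 23538785), (nat_lit 17602610), (nat_lit 11874437)] (nat_lit 19519284)) p15_32_0 (nat_lit 4) (nat_lit 219) (nat_lit 220) = true := by decide +kernel
def p15_32_0_220 : pfC (piC [(nat_lit 35065580), (nat_lit 23538785), (nat_lit 17602610), (nat_lit 11874437)] (nat_lit 19519284)) p15_32_0 (nat_lit 4) (nat_lit 220) (nat_lit 221) = true := by decide +kernel
def p15_32_0_221 : pfC (piC [(nat_lit 35065580), (nat_lit 23538785), (nat_lit 17602610), (nat_lit 11874437)] (nat_lit 19519284)) p15_32_0 (nat_lit 4) (nat_lit 221) (nat_lit 222) = true := by decide +kernel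
def p15_32_0_222 : pfC (piC [(nat_lit 35065580), (nat_lit 23538785), (nat_lit 17602610), (nat_lit 11874437)] (nat_lit 19519284)) p15_32_0 (nat_lit 4) (nat_lit 222) (nat_lit 223) = true := by decide +kernel
def p15_32_0_223 : pfC (piC [(nat_lit 35065580), (nat_lit 23538785), (nat_lit 17602610), (nat_lit 11874437)] (nat_lit 19519284)) p15_32_0 (nat_lit 4) (nat_lit 223) (nat_lit 224) = true := by decide +kernel
def p15_32_0_224 : pfC (piC [(nat_lit 35065580), (nat_lit 23538785), (nat_lit 17602610), (nat_lit 11874437)] (nat_lit 19519284)) p15_32_0 (nat_lit 4) (nat_lit 224) (nat_lit 225) = true := by decide +kernel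
def p15_32_0_225 : pfC (piC [(nat_lit 35065580), (nat_lit 23538785), (nat_lit 17602610), (nat_lit 11874437)] (nat_lit 19519284)) p15_32_0 (nat_lit 4) (nat_lit 225) (nat_lit 226) = true := by decide +kernel
def p15_32_0_226 : pfC (piC [(nat_lit 35065580), (nat_lit 23538785), (nat_lit 17602610), (nat_lit 11874437)] (nat_lit 19519284)) p15_32_0 (nat_lit 4) (nat_lit 226) (nat_lit 227) = true := by decide +kernel
def p15_32_0_227 : pfC (piC [(nat_lit 35065580), (nat_lit 23538785), (nat_lit 17602610), (nat_lit 11874437)] (nat_lit 19519284)) p15_32_0 (nat_lit 4) (nat_lit 227) (nat_lit 228) = true := by decide +kernel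
def p15_32_0_228 : pfC (piC [(nat_lit 35065580), (nat_lit 23538785), (nat_lit 17602610), (nat_lit 11874437)] (nat_lit 19519284)) p15_32_0 (nat_lit 4) (nat_lit 228) (nat_lit 229) = true := by decide +kernel
def p15_32_0_229 : pfC (piC [(nat_lit 35065580), (nat_lit 23538785), (nat_lit 17602610), (nat_lit 11874437)] (nat_lit 19519284)) p15_32_0 (nat_lit 4) (nat_lit 229) (nat_lit 230) = true := by decide +kernel
def p15_32_0_230 : pfC (piC [(nat_lit 35065580), (nat_lit 23538785), (nat_lit 17602610), (nat_lit 11874437)] (nat_lit 19519284)) p15_32_0 (nat_lit 4) (nat_lit 230) (nat_lit 231) = true := by decide +kernel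
def p15_32_0_231 : pfC (piC [(nat_lit 35065580), (nat_lit 23538785), (nat_lit 17602610), (nat_lit 11874437)] (nat_lit 19519284)) p15_32_0 (nat_lit 4) (nat_lit 231) (nat_lit 232) = true := by decide +kernel
def p15_32_0_232 : pfC (piC [(nat_lit 35065580), (nat_lit 23538785), (nat_lit 17602610), (nat_lit 11874437)] (nat_lit 19519284)) p15_32_0 (nat_lit 4) (nat_lit 232) (nat_lit 233) = true := by decide +kernel
def p15_32_0_233 : pfC (piC [(nat_lit 35065580), (nat_lit 23538785), (nat_lit 17602610), (nat_lit 11874437)] (nat_lit 19519284)) p15_32_0 (nat_lit 4) (nat_lit 233) (nat_lit 234) = true := by decide +kernel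
def p15_32_0_234 : pfC (piC [(nat_lit 35065580), (nat_lit 23538785), (nat_lit 17602610), (nat_lit 11874437)] (nat_lit 19519284)) p15_32_0 (nat_lit 4) (nat_lit 234) (nat_lit 235) = true := by decide +kernel
def p15_32_0_235 : pfC (piC [(nat_lit 35065580), (nat_lit 23538785), (nat_lit 17602610), (nat_lit 11874437)] (nat_lit 19519284)) p15_32_0 (nat_lit 4) (nat_lit 235) (nat_lit 236) = true := by decide +kernel
def p15_32_0_236 : pfC (piC [(nat_lit 35065580), (nat_lit 23538785), (nat_lit 17602610), (nat_lit 11874437)] (nat_lit 19519284)) p15_32_0 (nat_lit 4) (nat_lit 236) (nat_lit 237) = true := by decide +kernel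
def p15_32_0_237 : pfC (piC [(nat_lit 35065580), (nat_lit 23538785), (nat_lit 17602610), (nat_lit 11874437)] (nat_lit 19519284)) p15_32_0 (nat_lit 4) (nat_lit 237) (nat_lit 238) = true := by decide +kernel
def p15_32_0_238 : pfC (piC [(nat_lit 35065580), (nat_lit 23538785), (nat_lit 17602610), (nat_lit 11874437)] (nat_lit 19519284)) p15_32_0 (nat_lit 4) (nat_lit 238) (nat_lit 239) = true := by decide +kernel
def p15_32_0_239 : pfC (piC [(nat_lit 35065580), (nat_lit 23538785), (nat_lit 17602610), (nat_lit 11874437)] (nat_lit 19519284)) p15_32_0 (nat_lit 4) (nat_lit 239) (nat_lit 240) = true := by decide +kernel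
def p15_32_0_240 : pfC (piC [(nat_lit 35065580), (nat_lit 23538785), (nat_lit 17602610), (nat_lit 11874437)] (nat_lit 19519284)) p15_32_0 (nat_lit 4) (nat_lit 240) (nat_lit 241) = true := by decide +kernel
def p15_32_0_241 : pfC (piC [(nat_lit 35065580), (nat_lit 23538785), (nat_lit 17602610), (nat_lit 11874437)] (nat_lit 19519284)) p15_32_0 (nat_lit 4) (nat_lit 241) (nat_lit 242) = true := by decide +kernel
def p15_32_0_242 : pfC (piC [(nat_lit 35065580), (nat_lit 23538785), (nat_lit 17602610), (nat_lit 11874437)] (nat_lit 19519284)) p15_32_0 (nat_lit 4) (nat_lit 242) (nat_lit 243) = true := by decide +kernel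
def p15_32_0_243 : pfC (piC [(nat_lit 35065580), (nat_lit 23538785), (nat_lit 17602610), (nat_lit 11874437)] (nat_lit 19519284)) p15_32_0 (nat_lit 4) (nat_lit 243) (nat_lit 244) = true := by decide +kernel
def p15_32_0_244 : pfC (piC [(nat_lit 35065580), (nat_lit 23538785), (nat_lit 17602610), (nat_lit 11874437)] (nat_lit 19519284)) p15_32_0 (nat_lit 4) (nat_lit 244) (nat_lit 245) = true := by decide +kernel
def p15_32_0_245 : pfC (piC [(nat_lit 35065580), (nat_lit 23538785), (nat_lit 17602610), (nat_lit 11874437)] (nat_lit 19519284)) p15_32_0 (nat_lit 4) (nat_lit 245) (nat_lit 246) = true := by decide +kernel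
def p15_32_0_246 : pfC (piC [(nat_lit 35065580), (nat_lit 23538785), (nat_lit 17602610), (nat_lit 11874437)] (nat_lit 19519284)) p15_32_0 (nat_lit 4) (nat_lit 246) (nat_lit 247) = true := by decide +kernel
def p15_32_0_247 : pfC (piC [(nat_lit 35065580), (nat_lit 23538785), (nat_lit 17602610), (nat_lit 11874437)] (nat_lit 19519284)) p15_32_0 (nat_lit 4) (nat_lit 247) (nat_lit 248) = true := by decide +kernel
def p15_32_0_248 : pfC (piC [(nat_lit 35065580), (nat_lit 23538785), (nat_lit 17602610), (nat_lit 11874437)] (nat_lit 19519284)) p15_32_0 (nat_lit 4) (nat_lit 248) (nat_lit 249) = true := by decide +kernel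
def p15_32_0_249 : pfC (piC [(nat_lit 35065580), (nat_lit 23538785), (nat_lit 17602610), (nat_lit 11874437)] (nat_lit 19519284)) p15_32_0 (nat_lit 4) (nat_lit 249) (nat_lit 250) = true := by decide +kernel
def p15_32_0_250 : pfC (piC [(nat_lit 35065580), (nat_lit 23538785), (nat_lit 17602610), (nat_lit 11874437)] (nat_lit 19519284)) p15_32_0 (nat_lit 4) (nat_lit 250) (nat_lit 251) = true := by decide +kernel
def p15_32_0_251 : pfC (piC [(nat_lit 35065580), (nat_lit 23538785), (nat_lit 17602610), (nat_lit 11874437)] (nat_lit 19519284)) p15_32_0 (nat_lit 4) (nat_lit 251) (nat_lit 252) = true := by decide +kernel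
def p15_32_0_252 : pfC (piC [(nat_lit 35065580), (nat_lit 23538785), (nat_lit 17602610), (nat_lit 11874437)] (nat_lit 19519284)) p15_32_0 (nat_lit 4) (nat_lit 252) (nat_lit 253) = true := by decide +kernel
def p15_32_0_253 : pfC (piC [(nat_lit 35065580), (nat_lit 23538785), (nat_lit 17602610), (nat_lit 11874437)] (nat_lit 19519284)) p15_32_0 (nat_lit 4) (nat_lit 253) (nat_lit 254) = true := by decide +kernel
def p15_32_0_254 : pfC (piC [(nat_lit 35065580), (nat_lit 23538785), (nat_lit 17602610), (nat_lit 11874437)] (nat_lit 19519284)) p15_32_0 (nat_lit 4) (nat_lit 254) (nat_lit 255) = true := by decide +kernel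
def p15_32_0_255 : pfC (piC [(nat_lit 35065580), (nat_lit 23538785), (nat_lit 17602610), (nat_lit 11874437)] (nat_lit 19519284)) p15_32_0 (nat_lit 4) (nat_lit 255) (nat_lit 256) = true := by decide +kernel
def p15_32_0_256 : pfC (piC [(nat_lit 35065580), (nat_lit 23538785), (nat_lit 17602610), (nat_lit 11874437)] (nat_lit 19519284)) p15_32_0 (nat_lit 4) (nat_lit 256) (nat_lit 257) = true := by decide +kernel
def p15_32_0_257 : pfC (piC [(nat_lit 35065580), (nat_lit 23538785), (nat_lit 17602610), (nat_lit 11874437)] (nat_lit 19519284)) p15_32_0 (nat_lit 4) (nat_lit 257) (nat_lit 258) = true := by decide +kernel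
def p15_32_0_258 : pfC (piC [(nat_lit 35065580), (nat_lit 23538785), (nat_lit 17602610), (nat_lit 11874437)] (nat_lit 19519284)) p15_32_0 (nat_lit 4) (nat_lit 258) (nat_lit 259) = true := by decide +kernel
def p15_32_0_259 : pfC (piC [(nat_lit 35065580), (nat_lit 23538785), (nat_lit 17602610), (nat_lit 11874437)] (nat_lit 19519284)) p15_32_0 (nat_lit 4) (nat_lit 259) (nat_lit 260) = true := by decide +kernel
def p15_32_0_260 : pfC (piC [(nat_lit 35065580), (nat_lit 23538785), (nat_lit 17602610), (nat_lit 11874437)] (nat_lit 19519284)) p15_32_0 (nat_lit 4) (nat_lit 260) (nat_lit 261) = true := by decide +kernel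
def p15_32_0_261 : pfC (piC [(nat_lit 35065580), (nat_lit 23538785), (nat_lit 17602610), (nat_lit 11874437)] (nat_lit 19519284)) p15_32_0 (nat_lit 4) (nat_lit 261) (nat_lit 262) = true := by decide +kernel
def p15_32_0_262 : pfC (piC [(nat_lit 35065580), (nat_lit 23538785), (nat_lit 17602610), (nat_lit 11874437)] (nat_lit 19519284)) p15_32_0 (nat_lit 4) (nat_lit 262) (nat_lit 263) = true := by decide +kernel
def p15_32_0_263 : pfC (piC [(nat_lit 35065580), (nat_lit 23538785), (nat_lit 17602610), (nat_lit 11874437)] (nat_lit 19519284)) p15_32_0 (nat_lit 4) (nat_lit 263) (nat_lit 264) = true := by decide +kernel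
def p15_32_0_264 : pfC (piC [(nat_lit 35065580), (nat_lit 23538785), (nat_lit 17602610), (nat_lit 11874437)] (nat_lit 19519284)) p15_32_0 (nat_lit 4) (nat_lit 264) (nat_lit 265) = true := by decide +kernel
def p15_32_0_265 : pfC (piC [(nat_lit 35065580), (nat_lit 23538785), (nat_lit 17602610), (nat_lit 11874437)] (nat_lit 19519284)) p15_32_0 (nat_lit 4) (nat_lit 265) (nat_lit 266) = true := by decide +kernel
def p15_32_0_266 : pfC (piC [(nat_lit 35065580), (nat_lit 23538785), (nat_lit 17602610), (nat_lit 11874437)] (nat_lit 19519284)) p15_32_0 (nat_lit 4) (nat_lit 266) (nat_lit 267) = true := by decide +kernel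
def p15_32_0_267 : pfC (piC [(nat_lit 35065580), (nat_lit 23538785), (nat_lit 17602610), (nat_lit 11874437)] (nat_lit 19519284)) p15_32_0 (nat_lit 4) (nat_lit 267) (nat_lit 268) = true := by decide +kernel
def p15_32_0_268 : pfC (piC [(nat_lit 35065580), (nat_lit 23538785), (nat_lit 17602610), (nat_lit 11874437)] (nat_lit 19519284)) p15_32_0 (nat_lit 4) (nat_lit 268) (nat_lit 269) = true := by decide +kernel
def p15_32_0_269 : pfC (piC [(nat_lit 35065580), (nat_lit 23538785), (nat_lit 17602610), (nat_lit 11874437)] (nat_lit 19519284)) p15_32_0 (nat_lit 4) (nat_lit 269) (nat_lit 270) = true := by decide +kernel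
def p15_32_0_270 : pfC (piC [(nat_lit 35065580), (nat_lit 23538785), (nat_lit 17602610), (nat_lit 11874437)] (nat_lit 19519284)) p15_32_0 (nat_lit 4) (nat_lit 270) (nat_lit 271) = true := by decide +kernel
def p15_32_0_271 : pfC (piC [(nat_lit 35065580), (nat_lit 23538785), (nat_lit 17602610), (nat_lit 11874437)] (nat_lit 19519284)) p15_32_0 (nat_lit 4) (nat_lit 271) (nat_lit 272) = true := by decide +kernel
def p15_32_0_272 : pfC (piC [(nat_lit 35065580), (nat_lit 23538785), (nat_lit 17602610), (nat_lit 11874437)] (nat_lit 19519284)) p15_32_0 (nat_lit 4) (nat_lit 272) (nat_lit 273) = true := by decide +kernel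
def p15_32_0_273 : pfC (piC [(nat_lit 35065580), (nat_lit 23538785), (nat_lit 17602610), (nat_lit 11874437)] (nat_lit 19519284)) p15_32_0 (nat_lit 4) (nat_lit 273) (nat_lit 274) = true := by decide +kernel
def p15_32_0_274 : pfC (piC [(nat_lit 35065580), (nat_lit 23538785), (nat_lit 17602610), (nat_lit 11874437)] (nat_lit 19519284)) p15_32_0 (nat_lit 4) (nat_lit 274) (nat_lit 275) = true := by decide +kernel
def p15_32_0_275 : pfC (piC [(nat_lit 35065580), (nat_lit 23538785), (nat_lit 17602610), (nat_lit 11874437)] (nat_lit 19519284)) p15_32_0 (nat_lit 4) (nat_lit 275) (nat_lit 276) = true := by decide +kernel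
def p15_32_0_276 : pfC (piC [(nat_lit 35065580), (nat_lit 23538785), (nat_lit 17602610), (nat_lit 11874437)] (nat_lit 19519284)) p15_32_0 (nat_lit 4) (nat_lit 276) (nat_lit 277) = true := by decide +kernel
def p15_32_0_277 : pfC (piC [(nat_lit 35065580), (nat_lit 23538785), (nat_lit 17602610), (nat_lit 11874437)] (nat_lit 19519284)) p15_32_0 (nat_lit 4) (nat_lit 277) (nat_lit 278) = true := by decide +kernel
def p15_32_0_278 : pfC (piC [(nat_lit 35065580), (nat_lit 23538785), (nat_lit 17602610), (nat_lit 11874437)] (nat_lit 19519284)) p15_32_0 (nat_lit 4) (nat_lit 278) (nat_lit 279) = true := by decide +kernel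
def p15_32_0_279 : pfC (piC [(nat_lit 35065580), (nat_lit 23538785), (nat_lit 17602610), (nat_lit 11874437)] (nat_lit 19519284)) p15_32_0 (nat_lit 4) (nat_lit 279) (nat_lit 280) = true := by decide +kernel
def p15_32_0_280 : pfC (piC [(nat_lit 35065580), (nat_lit 23538785), (nat_lit 17602610), (nat_lit 11874437)] (nat_lit 19519284)) p15_32_0 (nat_lit 4) (nat_lit 280) (nat_lit 281) = true := by decide +kernel
def p15_32_0_281 : pfC (piC [(nat_lit 35065580), (nat_lit 23538785), (nat_lit 17602610), (nat_lit 11874437)] (nat_lit 19519284)) p15_32_0 (nat_lit 4) (nat_lit 281) (nat_lit 282) = true := by decide +kernel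
def p15_32_0_282 : pfC (piC [(nat_lit 35065580), (nat_lit 23538785), (nat_lit 17602610), (nat_lit 11874437)] (nat_lit 19519284)) p15_32_0 (nat_lit 4) (nat_lit 282) (nat_lit 283) = true := by decide +kernel
def p15_32_0_283 : pfC (piC [(nat_lit 35065580), (nat_lit 23538785), (nat_lit 17602610), (nat_lit 11874437)] (nat_lit 19519284)) p15_32_0 (nat_lit 4) (nat_lit 283) (nat_lit 284) = true := by decide +kernel
def p15_32_0_284 : pfC (piC [(nat_lit 35065580), (nat_lit 23538785), (nat_lit 17602610), (nat_lit 11874437)] (nat_lit 19519284)) p15_32_0 (nat_lit 4) (nat_lit 284) (nat_lit 285) = true := by decide +kernel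
def p15_32_0_285 : pfC (piC [(nat_lit 35065580), (nat_lit 23538785), (nat_lit 17602610), (nat_lit 11874437)] (nat_lit 19519284)) p15_32_0 (nat_lit 4) (nat_lit 285) (nat_lit 286) = true := by decide +kernel
def p15_32_0_286 : pfC (piC [(nat_lit 35065580), (nat_lit 23538785), (nat_lit 17602610), (nat_lit 11874437)] (nat_lit 19519284)) p15_32_0 (nat_lit 4) (nat_lit 286) (nat_lit 287) = true := by decide +kernel
def p15_32_0_287 : pfC (piC [(nat_lit 35065580), (nat_lit 23538785), (nat_lit 17602610), (nat_lit 11874437)] (nat_lit 19519284)) p15_32_0 (nat_lit 4) (nat_lit 287) (nat_lit 288) = true := by decide +kernel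
def p15_32_0_288 : pfC (piC [(nat_lit 35065580), (nat_lit 23538785), (nat_lit 17602610), (nat_lit 11874437)] (nat_lit 19519284)) p15_32_0 (nat_lit 4) (nat_lit 288) (nat_lit 289) = true := by decide +kernel
def p15_32_0_289 : pfC (piC [(nat_lit 35065580), (nat_lit 23538785), (nat_lit 17602610), (nat_lit 11874437)] (nat_lit 19519284)) p15_32_0 (nat_lit 4) (nat_lit 289) (nat_lit 290) = true := by decide +kernel
def p15_32_0_290 : pfC (piC [(nat_lit 35065580), (nat_lit 23538785), (nat_lit 17602610), (nat_lit 11874437)] (nat_lit 19519284)) p15_32_0 (nat_lit 4) (nat_lit 290) (nat_lit 291) = true := by decide +kernel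
def p15_32_0_291 : pfC (piC [(nat_lit 35065580), (nat_lit 23538785), (nat_lit 17602610), (nat_lit 11874437)] (nat_lit 19519284)) p15_32_0 (nat_lit 4) (nat_lit 291) (nat_lit 292) = true := by decide +kernel
def p15_32_0_292 : pfC (piC [(nat_lit 35065580), (nat_lit 23538785), (nat_lit 17602610), (nat_lit 11874437)] (nat_lit 19519284)) p15_32_0 (nat_lit 4) (nat_lit 292) (nat_lit 293) = true := by decide +kernel
def p15_32_0_293 : pfC (piC [(nat_lit 35065580), (nat_lit 23538785), (nat_lit 17602610), (nat_lit 11874437)] (nat_lit 19519284)) p15_32_0 (nat_lit 4) (nat_lit 293) (nat_lit 294) = true := by decide +kernel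
def p15_32_0_294 : pfC (piC [(nat_lit 35065580), (nat_lit 23538785), (nat_lit 17602610), (nat_lit 11874437)] (nat_lit 19519284)) p15_32_0 (nat_lit 4) (nat_lit 294) (nat_lit 295) = true := by decide +kernel
def p15_32_0_295 : pfC (piC [(nat_lit 35065580), (nat_lit 23538785), (nat_lit 17602610), (nat_lit 11874437)] (nat_lit 19519284)) p15_32_0 (nat_lit 4) (nat_lit 295) (nat_lit 296) = true := by decide +kernel
def p15_32_0_296 : pfC (piC [(nat_lit 35065580), (nat_lit 23538785), (nat_lit 17602610), (nat_lit 11874437)] (nat_lit 19519284)) p15_32_0 (nat_lit 4) (nat_lit 296) (nat_lit 297) = true := by decide +kernel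
def p15_32_0_297 : pfC (piC [(nat_lit 35065580), (nat_lit 23538785), (nat_lit 17602610), (nat_lit 11874437)] (nat_lit 19519284)) p15_32_0 (nat_lit 4) (nat_lit 297) (nat_lit 298) = true := by decide +kernel
def p15_32_0_298 : pfC (piC [(nat_lit 35065580), (nat_lit 23538785), (nat_lit 17602610), (nat_lit 11874437)] (nat_lit 19519284)) p15_32_0 (nat_lit 4) (nat_lit 298) (nat_lit 299) = true := by decide +kernel
def p15_32_0_299 : pfC (piC [(nat_lit 35065580), (nat_lit 23538785), (nat_lit 17602610), (nat_lit 11874437)] (nat_lit 19519284)) p15_32_0 (nat_lit 4) (nat_lit 299) (nat_lit 300) = true := by decide +kernel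
def p15_32_0_300 : pfC (piC [(nat_lit 35065580), (nat_lit 23538785), (nat_lit 17602610), (nat_lit 11874437)] (nat_lit 19519284)) p15_32_0 (nat_lit 4) (nat_lit 300) (nat_lit 301) = true := by decide +kernel
def p15_32_0_301 : pfC (piC [(nat_lit 35065580), (nat_lit 23538785), (nat_lit 17602610), (nat_lit 11874437)] (nat_lit 19519284)) p15_32_0 (nat_lit 4) (nat_lit 301) (nat_lit 302) = true := by decide +kernel
def p15_32_0_302 : pfC (piC [(nat_lit 35065580), (nat_lit 23538785), (nat_lit 17602610), (nat_lit 11874437)] (nat_lit 19519284)) p15_32_0 (nat_lit 4) (nat_lit 302) (nat_lit 303) = true := by decide +kernel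
def p15_32_0_303 : pfC (piC [(nat_lit 35065580), (nat_lit 23538785), (nat_lit 17602610), (nat_lit 11874437)] (nat_lit 19519284)) p15_32_0 (nat_lit 4) (nat_lit 303) (nat_lit 304) = true := by decide +kernel
def p15_32_0_304 : pfC (piC [(nat_lit 35065580), (nat_lit 23538785), (nat_lit 17602610), (nat_lit 11874437)] (nat_lit 19519284)) p15_32_0 (nat_lit 4) (nat_lit 304) (nat_lit 305) = true := by decide +kernel
def p15_32_0_305 : pfC (piC [(nat_lit 35065580), (nat_lit 23538785), (nat_lit 17602610), (nat_lit 11874437)] (nat_lit 19519284)) p15_32_0 (nat_lit 4) (nat_lit 305) (nat_lit 306) = true := by decide +kernel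
def p15_32_0_306 : pfC (piC [(nat_lit 35065580), (nat_lit 23538785), (nat_lit 17602610), (nat_lit 11874437)] (nat_lit 19519284)) p15_32_0 (nat_lit 4) (nat_lit 306) (nat_lit 307) = true := by decide +kernel
def p15_32_0_307 : pfC (piC [(nat_lit 35065580), (nat_lit 23538785), (nat_lit 17602610), (nat_lit 11874437)] (nat_lit 19519284)) p15_32_0 (nat_lit 4) (nat_lit 307) (nat_lit 308) = true := by decide +kernel
def p15_32_0_308 : pfC (piC [(nat_lit 35065580), (nat_lit 23538785), (nat_lit 17602610), (nat_lit 11874437)] (nat_lit 19519284)) p15_32_0 (nat_lit 4) (nat_lit 308) (nat_lit 309) = true := by decide +kernel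
def p15_32_0_309 : pfC (piC [(nat_lit 35065580), (nat_lit 23538785), (nat_lit 17602610), (nat_lit 11874437)] (nat_lit 19519284)) p15_32_0 (nat_lit 4) (nat_lit 309) (nat_lit 310) = true := by decide +kernel
def p15_32_0_310 : pfC (piC [(nat_lit 35065580), (nat_lit 23538785), (nat_lit 17602610), (nat_lit 11874437)] (nat_lit 19519284)) p15_32_0 (nat_lit 4) (nat_lit 310) (nat_lit 311) = true := by decide +kernel
def p15_32_0_311 : pfC (piC [(nat_lit 35065580), (nat_lit 23538785), (nat_lit 17602610), (nat_lit 11874437)] (nat_lit 19519284)) p15_32_0 (nat_lit 4) (nat_lit 311) (nat_lit 312) = true := by decide +kernel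
def p15_32_0_312 : pfC (piC [(nat_lit 35065580), (nat_lit 23538785), (nat_lit 17602610), (nat_lit 11874437)] (nat_lit 19519284)) p15_32_0 (nat_lit 4) (nat_lit 312) (nat_lit 313) = true := by decide +kernel
def p15_32_0_313 : pfC (piC [(nat_lit 35065580), (nat_lit 23538785), (nat_lit 17602610), (nat_lit 11874437)] (nat_lit 19519284)) p15_32_0 (nat_lit 4) (nat_lit 313) (nat_lit 314) = true := by decide +kernel
def p15_32_0_314 : pfC (piC [(nat_lit 35065580), (nat_lit 23538785), (nat_lit 17602610), (nat_lit 11874437)] (nat_lit 19519284)) p15_32_0 (nat_lit 4) (nat_lit 314) (nat_lit 315) = true := by decide +kernel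
def p15_32_0_315 : pfC (piC [(nat_lit 35065580), (nat_lit 23538785), (nat_lit 17602610), (nat_lit 11874437)] (nat_lit 19519284)) p15_32_0 (nat_lit 4) (nat_lit 315) (nat_lit 316) = true := by decide +kernel
def p15_32_0_316 : pfC (piC [(nat_lit 35065580), (nat_lit 23538785), (nat_lit 17602610), (nat_lit 11874437)] (nat_lit 19519284)) p15_32_0 (nat_lit 4) (nat_lit 316) (nat_lit 317) = true := by decide +kernel
def p15_32_0_317 : pfC (piC [(nat_lit 35065580), (nat_lit 23538785), (nat_lit 17602610), (nat_lit 11874437)] (nat_lit 19519284)) p15_32_0 (nat_lit 4) (nat_lit 317) (nat_lit 318) = true := by decide +kernel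
def p15_32_0_318 : pfC (piC [(nat_lit 35065580), (nat_lit 23538785), (nat_lit 17602610), (nat_lit 11874437)] (nat_lit 19519284)) p15_32_0 (nat_lit 4) (nat_lit 318) (nat_lit 319) = true := by decide +kernel
def p15_32_0_319 : pfC (piC [(nat_lit 35065580), (nat_lit 23538785), (nat_lit 17602610), (nat_lit 11874437)] (nat_lit 19519284)) p15_32_0 (nat_lit 4) (nat_lit 319) (nat_lit 320) = true := by decide +kernel
def p15_32_0_320 : pfC (piC [(nat_lit 35065580), (nat_lit 23538785), (nat_lit 17602610), (nat_lit 11874437)] (nat_lit 19519284)) p15_32_0 (nat_lit 4) (nat_lit 320) (nat_lit 321) = true := by decide +kernel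
def p15_32_0_321 : pfC (piC [(nat_lit 35065580), (nat_lit 23538785), (nat_lit 17602610), (nat_lit 11874437)] (nat_lit 19519284)) p15_32_0 (nat_lit 4) (nat_lit 321) (nat_lit 322) = true := by decide +kernel
def p15_32_0_322 : pfC (piC [(nat_lit 35065580), (nat_lit 23538785), (nat_lit 17602610), (nat_lit 11874437)] (nat_lit 19519284)) p15_32_0 (nat_lit 4) (nat_lit 322) (nat_lit 323) = true := by decide +kernel
def p15_32_0_323 : pfC (piC [(nat_lit 35065580), (nat_lit 23538785), (nat_lit 17602610), (nat_lit 11874437)] (nat_lit 19519284)) p15_32_0 (nat_lit 4) (nat_lit 323) (nat_lit 324) = true := by decide +kernel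
def p15_32_0_324 : pfC (piC [(nat_lit 35065580), (nat_lit 23538785), (nat_lit 17602610), (nat_lit 11874437)] (nat_lit 19519284)) p15_32_0 (nat_lit 4) (nat_lit 324) (nat_lit 325) = true := by decide +kernel
def p15_32_0_325 : pfC (piC [(nat_lit 35065580), (nat_lit 23538785), (nat_lit 17602610), (nat_lit 11874437)] (nat_lit 19519284)) p15_32_0 (nat_lit 4) (nat_lit 325) (nat_lit 326) = true := by decide +kernel
def p15_32_0_326 : pfC (piC [(nat_lit 35065580), (nat_lit 23538785), (nat_lit 17602610), (nat_lit 11874437)] (nat_lit 19519284)) p15_32_0 (nat_lit 4) (nat_lit 326) (nat_lit 327) = true := by decide +kernel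
def p15_32_0_327 : pfC (piC [(nat_lit 35065580), (nat_lit 23538785), (nat_lit 17602610), (nat_lit 11874437)] (nat_lit 19519284)) p15_32_0 (nat_lit 4) (nat_lit 327) (nat_lit 328) = true := by decide +kernel
def p15_32_0_328 : pfC (piC [(nat_lit 35065580), (nat_lit 23538785), (nat_lit 17602610), (nat_lit 11874437)] (nat_lit 19519284)) p15_32_0 (nat_lit 4) (nat_lit 328) (nat_lit 329) = true := by decide +kernel
def p15_32_0_329 : pfC (piC [(nat_lit 35065580), (nat_lit 23538785), (nat_lit 17602610), (nat_lit 11874437)] (nat_lit 19519284)) p15_32_0 (nat_lit 4) (nat_lit 329) (nat_lit 330) = true := by decide +kernel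
def p15_32_0_330 : pfC (piC [(nat_lit 35065580), (nat_lit 23538785), (nat_lit 17602610), (nat_lit 11874437)] (nat_lit 19519284)) p15_32_0 (nat_lit 4) (nat_lit 330) (nat_lit 331) = true := by decide +kernel
def p15_32_0_331 : pfC (piC [(nat_lit 35065580), (nat_lit 23538785), (nat_lit 17602610), (nat_lit 11874437)] (nat_lit 19519284)) p15_32_0 (nat_lit 4) (nat_lit 331) (nat_lit 332) = true := by decide +kernel
def p15_32_0_332 : pfC (piC [(nat_lit 35065580), (nat_lit 23538785), (nat_lit 17602610), (nat_lit 11874437)] (nat_lit 19519284)) p15_32_0 (nat_lit 4) (nat_lit 332) (nat_lit 333) = true := by decide +kernel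
def p15_32_0_333 : pfC (piC [(nat_lit 35065580), (nat_lit 23538785), (nat_lit 17602610), (nat_lit 11874437)] (nat_lit 19519284)) p15_32_0 (nat_lit 4) (nat_lit 333) (nat_lit 334) = true := by decide +kernel
def p15_32_0_334 : pfC (piC [(nat_lit 35065580), (nat_lit 23538785), (nat_lit 17602610), (nat_lit 11874437)] (nat_lit 19519284)) p15_32_0 (nat_lit 4) (nat_lit 334) (nat_lit 335) = true := by decide +kernel
def p15_32_0_335 : pfC (piC [(nat_lit 35065580), (nat_lit 23538785), (nat_lit 17602610), (nat_lit 11874437)] (nat_lit 19519284)) p15_32_0 (nat_lit 4) (nat_lit 335) (nat_lit 336) = true := by decide +kernel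
def p15_32_0_336 : pfC (piC [(nat_lit 35065580), (nat_lit 23538785), (nat_lit 17602610), (nat_lit 11874437)] (nat_lit 19519284)) p15_32_0 (nat_lit 4) (nat_lit 336) (nat_lit 337) = true := by decide +kernel
def p15_32_0_337 : pfC (piC [(nat_lit 35065580), (nat_lit 23538785), (nat_lit 17602610), (nat_lit 11874437)] (nat_lit 19519284)) p15_32_0 (nat_lit 4) (nat_lit 337) (nat_lit 338) = true := by decide +kernel
def p15_32_0_338 : pfC (piC [(nat_lit 35065580), (nat_lit 23538785), (nat_lit 17602610), (nat_lit 11874437)] (nat_lit 19519284)) p15_32_0 (nat_lit 4) (nat_lit 338) (nat_lit 339) = true := by decide +kernel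
def p15_32_0_339 : pfC (piC [(nat_lit 35065580), (nat_lit 23538785), (nat_lit 17602610), (nat_lit 11874437)] (nat_lit 19519284)) p15_32_0 (nat_lit 4) (nat_lit 339) (nat_lit 340) = true := by decide +kernel
def p15_32_0_340 : pfC (piC [(nat_lit 35065580), (nat_lit 23538785), (nat_lit 17602610), (nat_lit 11874437)] (nat_lit 19519284)) p15_32_0 (nat_lit 4) (nat_lit 340) (nat_lit 341) = true := by decide +kernel
def p15_32_0_341 : pfC (piC [(nat_lit 35065580), (nat_lit 23538785), (nat_lit 17602610), (nat_lit 11874437)] (nat_lit 19519284)) p15_32_0 (nat_lit 4) (nat_lit 341) (nat_lit 342) = true := by decide +kernel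
def p15_32_0_342 : pfC (piC [(nat_lit 35065580), (nat_lit 23538785), (nat_lit 17602610), (nat_lit 11874437)] (nat_lit 19519284)) p15_32_0 (nat_lit 4) (nat_lit 342) (nat_lit 343) = true := by decide +kernel
def p15_32_0_343 : pfC (piC [(nat_lit 35065580), (nat_lit 23538785), (nat_lit 17602610), (nat_lit 11874437)] (nat_lit 19519284)) p15_32_0 (nat_lit 4) (nat_lit 343) (nat_lit 344) = true := by decide +kernel
def p15_32_0_344 : pfC (piC [(nat_lit 35065580), (nat_lit 23538785), (nat_lit 17602610), (nat_lit 11874437)] (nat_lit 19519284)) p15_32_0 (nat_lit 4) (nat_lit 344) (nat_lit 345) = true := by decide +kernel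
def p15_32_0_345 : pfC (piC [(nat_lit 35065580), (nat_lit 23538785), (nat_lit 17602610), (nat_lit 11874437)] (nat_lit 19519284)) p15_32_0 (nat_lit 4) (nat_lit 345) (nat_lit 346) = true := by decide +kernel
def p15_32_0_346 : pfC (piC [(nat_lit 35065580), (nat_lit 23538785), (nat_lit 17602610), (nat_lit 11874437)] (nat_lit 19519284)) p15_32_0 (nat_lit 4) (nat_lit 346) (nat_lit 347) = true := by decide +kernel
def p15_32_0_347 : pfC (piC [(nat_lit 35065580), (nat_lit 23538785), (nat_lit 17602610), (nat_lit 11874437)] (nat_lit 19519284)) p15_32_0 (nat_lit 4) (nat_lit 347) (nat_lit 348) = true := by decide +kernel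
def p15_32_0_348 : pfC (piC [(nat_lit 35065580), (nat_lit 23538785), (nat_lit 17602610), (nat_lit 11874437)] (nat_lit 19519284)) p15_32_0 (nat_lit 4) (nat_lit 348) (nat_lit 349) = true := by decide +kernel
def p15_32_0_349 : pfC (piC [(nat_lit 35065580), (nat_lit 23538785), (nat_lit 17602610), (nat_lit 11874437)] (nat_lit 19519284)) p15_32_0 (nat_lit 4) (nat_lit 349) (nat_lit 350) = true := by decide +kernel
def p15_32_0_350 : pfC (piC [(nat_lit 35065580), (nat_lit 23538785), (nat_lit 17602610), (nat_lit 11874437)] (nat_lit 19519284)) p15_32_0 (nat_lit 4) (nat_lit 350) (nat_lit 351) = true := by decide +kernel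
def p15_32_0_351 : pfC (piC [(nat_lit 35065580), (nat_lit 23538785), (nat_lit 17602610), (nat_lit 11874437)] (nat_lit 19519284)) p15_32_0 (nat_lit 4) (nat_lit 351) (nat_lit 352) = true := by decide +kernel
def p15_32_0_352 : pfC (piC [(nat_lit 35065580), (nat_lit 23538785), (nat_lit 17602610), (nat_lit 11874437)] (nat_lit 19519284)) p15_32_0 (nat_lit 4) (nat_lit 352) (nat_lit 353) = true := by decide +kernel
def p15_32_0_353 : pfC (piC [(nat_lit 35065580), (nat_lit 23538785), (nat_lit 17602610), (nat_lit 11874437)] (nat_lit 19519284)) p15_32_0 (nat_lit 4) (nat_lit 353) (nat_lit 354) = true := by decide +kernel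
def p15_32_0_354 : pfC (piC [(nat_lit 35065580), (nat_lit 23538785), (nat_lit 17602610), (nat_lit 11874437)] (nat_lit 19519284)) p15_32_0 (nat_lit 4) (nat_lit 354) (nat_lit 355) = true := by decide +kernel
def p15_32_0_355 : pfC (piC [(nat_lit 35065580), (nat_lit 23538785), (nat_lit 17602610), (nat_lit 11874437)] (nat_lit 19519284)) p15_32_0 (nat_lit 4) (nat_lit 355) (nat_lit 356) = true := by decide +kernel
def p15_32_0_356 : pfC (piC [(nat_lit 35065580), (nat_lit 23538785), (nat_lit 17602610), (nat_lit 11874437)] (nat_lit 19519284)) p15_32_0 (nat_lit 4) (nat_lit 356) (nat_lit 357) = true := by decide +kernel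
def p15_32_0_357 : pfC (piC [(nat_lit 35065580), (nat_lit 23538785), (nat_lit 17602610), (nat_lit 11874437)] (nat_lit 19519284)) p15_32_0 (nat_lit 4) (nat_lit 357) (nat_lit 358) = true := by decide +kernel
def p15_32_0_358 : pfC (piC [(nat_lit 35065580), (nat_lit 23538785), (nat_lit 17602610), (nat_lit 11874437)] (nat_lit 19519284)) p15_32_0 (nat_lit 4) (nat_lit 358) (nat_lit 359) = true := by decide +kernel
def p15_32_0_359 : pfC (piC [(nat_lit 35065580), (nat_lit 23538785), (nat_lit 17602610), (nat_lit 11874437)] (nat_lit 19519284)) p15_32_0 (nat_lit 4) (nat_lit 359) (nat_lit 360) = true := by decide +kernel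
def p15_32_0_360 : pfC (piC [(nat_lit 35065580), (nat_lit 23538785), (nat_lit 17602610), (nat_lit 11874437)] (nat_lit 19519284)) p15_32_0 (nat_lit 4) (nat_lit 360) (nat_lit 361) = true := by decide +kernel
def p15_32_0_361 : pfC (piC [(nat_lit 35065580), (nat_lit 23538785), (nat_lit 17602610), (nat_lit 11874437)] (nat_lit 19519284)) p15_32_0 (nat_lit 4) (nat_lit 361) (nat_lit 362) = true := by decide +kernel
def p15_32_0_362 : pfC (piC [(nat_lit 35065580), (nat_lit 23538785), (nat_lit 17602610), (nat_lit 11874437)] (nat_lit 19519284)) p15_32_0 (nat_lit 4) (nat_lit 362) (nat_lit 363) = true := by decide +kernel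
def p15_32_0_363 : pfC (piC [(nat_lit 35065580), (nat_lit 23538785), (nat_lit 17602610), (nat_lit 11874437)] (nat_lit 19519284)) p15_32_0 (nat_lit 4) (nat_lit 363) (nat_lit 364) = true := by decide +kernel
def p15_32_0_364 : pfC (piC [(nat_lit 35065580), (nat_lit 23538785), (nat_lit 17602610), (nat_lit 11874437)] (nat_lit 19519284)) p15_32_0 (nat_lit 4) (nat_lit 364) (nat_lit 365) = true := by decide +kernel
def p15_32_0_365 : pfC (piC [(nat_lit 35065580), (nat_lit 23538785), (nat_lit 17602610), (nat_lit 11874437)] (nat_lit 19519284)) p15_32_0 (nat_lit 4) (nat_lit 365) (nat_lit 366) = true := by decide +kernel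
def p15_32_0_366 : pfC (piC [(nat_lit 35065580), (nat_lit 23538785), (nat_lit 17602610), (nat_lit 11874437)] (nat_lit 19519284)) p15_32_0 (nat_lit 4) (nat_lit 366) (nat_lit 367) = true := by decide +kernel
def p15_32_0_367 : pfC (piC [(nat_lit 35065580), (nat_lit 23538785), (nat_lit 17602610), (nat_lit 11874437)] (nat_lit 19519284)) p15_32_0 (nat_lit 4) (nat_lit 367) (nat_lit 368) = true := by decide +kernel
def p15_32_0_368 : pfC (piC [(nat_lit 35065580), (nat_lit 23538785), (nat_lit 17602610), (nat_lit 11874437)] (nat_lit 19519284)) p15_32_0 (nat_lit 4) (nat_lit 368) (nat_lit 369) = true := by decide +kernel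
def p15_32_0_369 : pfC (piC [(nat_lit 35065580), (nat_lit 23538785), (nat_lit 17602610), (nat_lit 11874437)] (nat_lit 19519284)) p15_32_0 (nat_lit 4) (nat_lit 369) (nat_lit 370) = true := by decide +kernel
def p15_32_0_370 : pfC (piC [(nat_lit 35065580), (nat_lit 23538785), (nat_lit 17602610), (nat_lit 11874437)] (nat_lit 19519284)) p15_32_0 (nat_lit 4) (nat_lit 370) (nat_lit 371) = true := by decide +kernel
def p15_32_0_371 : pfC (piC [(nat_lit 35065580), (nat_lit 23538785), (nat_lit 17602610), (nat_lit 11874437)] (nat_lit 19519284)) p15_32_0 (nat_lit 4) (nat_lit 371) (nat_lit 372) = true := by decide +kernel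
def p15_32_0_372 : pfC (piC [(nat_lit 35065580), (nat_lit 23538785), (nat_lit 17602610), (nat_lit 11874437)] (nat_lit 19519284)) p15_32_0 (nat_lit 4) (nat_lit 372) (nat_lit 373) = true := by decide +kernel
def p15_32_0_373 : pfC (piC [(nat_lit 35065580), (nat_lit 23538785), (nat_lit 17602610), (nat_lit 11874437)] (nat_lit 19519284)) p15_32_0 (nat_lit 4) (nat_lit 373) (nat_lit 374) = true := by decide +kernel
def p15_32_0_374 : pfC (piC [(nat_lit 35065580), (nat_lit 23538785), (nat_lit 17602610), (nat_lit 11874437)] (nat_lit 19519284)) p15_32_0 (nat_lit 4) (nat_lit 374) (nat_lit 375) = true := by decide +kernel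
def p15_32_0_375 : pfC (piC [(nat_lit 35065580), (nat_lit 23538785), (nat_lit 17602610), (nat_lit 11874437)] (nat_lit 19519284)) p15_32_0 (nat_lit 4) (nat_lit 375) (nat_lit 376) = true := by decide +kernel
def p15_32_0_376 : pfC (piC [(nat_lit 35065580), (nat_lit 23538785), (nat_lit 17602610), (nat_lit 11874437)] (nat_lit 19519284)) p15_32_0 (nat_lit 4) (nat_lit 376) (nat_lit 377) = true := by decide +kernel
def p15_32_0_377 : pfC (piC [(nat_lit 35065580), (nat_lit 23538785), (nat_lit 17602610), (nat_lit 11874437)] (nat_lit 19519284)) p15_32_0 (nat_lit 4) (nat_lit 377) (nat_lit 378) = true := by decide +kernel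
def p15_32_0_378 : pfC (piC [(nat_lit 35065580), (nat_lit 23538785), (nat_lit 17602610), (nat_lit 11874437)] (nat_lit 19519284)) p15_32_0 (nat_lit 4) (nat_lit 378) (nat_lit 379) = true := by decide +kernel
def p15_32_0_379 : pfC (piC [(nat_lit 35065580), (nat_lit 23538785), (nat_lit 17602610), (nat_lit 11874437)] (nat_lit 19519284)) p15_32_0 (nat_lit 4) (nat_lit 379) (nat_lit 380) = true := by decide +kernel
def p15_32_0_380 : pfC (piC [(nat_lit 35065580), (nat_lit 23538785), (nat_lit 17602610), (nat_lit 11874437)] (nat_lit 19519284)) p15_32_0 (nat_lit 4) (nat_lit 380) (nat_lit 381) = true := by decide +kernel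
def p15_32_0_381 : pfC (piC [(nat_lit 35065580), (nat_lit 23538785), (nat_lit 17602610), (nat_lit 11874437)] (nat_lit 19519284)) p15_32_0 (nat_lit 4) (nat_lit 381) (nat_lit 382) = true := by decide +kernel
def p15_32_0_382 : pfC (piC [(nat_lit 35065580), (nat_lit 23538785), (nat_lit 17602610), (nat_lit 11874437)] (nat_lit 19519284)) p15_32_0 (nat_lit 4) (nat_lit 382) (nat_lit 383) = true := by decide +kernel
def p15_32_0_383 : pfC (piC [(nat_lit 35065580), (nat_lit 23538785), (nat_lit 17602610), (nat_lit 11874437)] (nat_lit 19519284)) p15_32_0 (nat_lit 4) (nat_lit 383) (nat_lit 384) = true := by decide +kernel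
def p15_32_0_384 : pfC (piC [(nat_lit 35065580), (nat_lit 23538785), (nat_lit 17602610), (nat_lit 11874437)] (nat_lit 19519284)) p15_32_0 (nat_lit 4) (nat_lit 384) (nat_lit 385) = true := by decide +kernel
def p15_32_0_385 : pfC (piC [(nat_lit 35065580), (nat_lit 23538785), (nat_lit 17602610), (nat_lit 11874437)] (nat_lit 19519284)) p15_32_0 (nat_lit 4) (nat_lit 385) (nat_lit 386) = true := by decide +kernel
def p15_32_0_386 : pfC (piC [(nat_lit 35065580), (nat_lit 23538785), (nat_lit 17602610), (nat_lit 11874437)] (nat_lit 19519284)) p15_32_0 (nat_lit 4) (nat_lit 386) (nat_lit 387) = true := by decide +kernel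
def p15_32_0_387 : pfC (piC [(nat_lit 35065580), (nat_lit 23538785), (nat_lit 17602610), (nat_lit 11874437)] (nat_lit 19519284)) p15_32_0 (nat_lit 4) (nat_lit 387) (nat_lit 388) = true := by decide +kernel
def p15_32_0_388 : pfC (piC [(nat_lit 35065580), (nat_lit 23538785), (nat_lit 17602610), (nat_lit 11874437)] (nat_lit 19519284)) p15_32_0 (nat_lit 4) (nat_lit 388) (nat_lit 389) = true := by decide +kernel
def p15_32_0_389 : pfC (piC [(nat_lit 35065580), (nat_lit 23538785), (nat_lit 17602610), (nat_lit 11874437)] (nat_lit 19519284)) p15_32_0 (nat_lit 4) (nat_lit 389) (nat_lit 390) = true := by decide +kernel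
def p15_32_0_390 : pfC (piC [(nat_lit 35065580), (nat_lit 23538785), (nat_lit 17602610), (nat_lit 11874437)] (nat_lit 19519284)) p15_32_0 (nat_lit 4) (nat_lit 390) (nat_lit 391) = true := by decide +kernel
def p15_32_0_391 : pfC (piC [(nat_lit 35065580), (nat_lit 23538785), (nat_lit 17602610), (nat_lit 11874437)] (nat_lit 19519284)) p15_32_0 (nat_lit 4) (nat_lit 391) (nat_lit 392) = true := by decide +kernel
def p15_32_0_392 : pfC (piC [(nat_lit 35065580), (nat_lit 23538785), (nat_lit 17602610), (nat_lit 11874437)] (nat_lit 19519284)) p15_32_0 (nat_lit 4) (nat_lit 392) (nat_lit 393) = true := by decide +kernel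
def p15_32_0_393 : pfC (piC [(nat_lit 35065580), (nat_lit 23538785), (nat_lit 17602610), (nat_lit 11874437)] (nat_lit 19519284)) p15_32_0 (nat_lit 4) (nat_lit 393) (nat_lit 394) = true := by decide +kernel
def p15_32_0_394 : pfC (piC [(nat_lit 35065580), (nat_lit 23538785), (nat_lit 17602610), (nat_lit 11874437)] (nat_lit 19519284)) p15_32_0 (nat_lit 4) (nat_lit 394) (nat_lit 395) = true := by decide +kernel
def p15_32_0_395 : pfC (piC [(nat_lit 35065580), (nat_lit 23538785), (nat_lit 17602610), (nat_lit 11874437)] (nat_lit 19519284)) p15_32_0 (nat_lit 4) (nat_lit 395) (nat_lit 396) = true := by decide +kernel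
def p15_32_0_396 : pfC (piC [(nat_lit 35065580), (nat_lit 23538785), (nat_lit 17602610), (nat_lit 11874437)] (nat_lit 19519284)) p15_32_0 (nat_lit 4) (nat_lit 396) (nat_lit 397) = true := by decide +kernel
def p15_32_0_397 : pfC (piC [(nat_lit 35065580), (nat_lit 23538785), (nat_lit 17602610), (nat_lit 11874437)] (nat_lit 19519284)) p15_32_0 (nat_lit 4) (nat_lit 397) (nat_lit 398) = true := by decide +kernel
def p15_32_0_398 : pfC (piC [(nat_lit 35065580), (nat_lit 23538785), (nat_lit 17602610), (nat_lit 11874437)] (nat_lit 19519284)) p15_32_0 (nat_lit 4) (nat_lit 398) (nat_lit 399) = true := by decide +kernel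
def p15_32_0_399 : pfC (piC [(nat_lit 35065580), (nat_lit 23538785), (nat_lit 17602610), (nat_lit 11874437)] (nat_lit 19519284)) p15_32_0 (nat_lit 4) (nat_lit 399) (nat_lit 400) = true := by decide +kernel
def p15_32_0_400 : pfC (piC [(nat_lit 35065580), (nat_lit 23538785), (nat_lit 17602610), (nat_lit 11874437)] (nat_lit 19519284)) p15_32_0 (nat_lit 4) (nat_lit 400) (nat_lit 401) = true := by decide +kernel
def p15_32_0_401 : pfC (piC [(nat_lit 35065580), (nat_lit 23538785), (nat_lit 17602610), (nat_lit 11874437)] (nat_lit 19519284)) p15_32_0 (nat_lit 4) (nat_lit 401) (nat_lit 402) = true := by decide +kernel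
def p15_32_0_402 : pfC (piC [(nat_lit 35065580), (nat_lit 23538785), (nat_lit 17602610), (nat_lit 11874437)] (nat_lit 19519284)) p15_32_0 (nat_lit 4) (nat_lit 402) (nat_lit 403) = true := by decide +kernel
def p15_32_0_403 : pfC (piC [(nat_lit 35065580), (nat_lit 23538785), (nat_lit 17602610), (nat_lit 11874437)] (nat_lit 19519284)) p15_32_0 (nat_lit 4) (nat_lit 403) (nat_lit 404) = true := by decide +kernel
def p15_32_0_404 : pfC (piC [(nat_lit 35065580), (nat_lit 23538785), (nat_lit 17602610), (nat_lit 11874437)] (nat_lit 19519284)) p15_32_0 (nat_lit 4) (nat_lit 404) (nat_lit 405) = true := by decide +kernel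
def p15_32_0_405 : pfC (piC [(nat_lit 35065580), (nat_lit 23538785), (nat_lit 17602610), (nat_lit 11874437)] (nat_lit 19519284)) p15_32_0 (nat_lit 4) (nat_lit 405) (nat_lit 406) = true := by decide +kernel
def p15_32_0_406 : pfC (piC [(nat_lit 35065580), (nat_lit 23538785), (nat_lit 17602610), (nat_lit 11874437)] (nat_lit 19519284)) p15_32_0 (nat_lit 4) (nat_lit 406) (nat_lit 407) = true := by decide +kernel
def p15_32_0_407 : pfC (piC [(nat_lit 35065580), (nat_lit 23538785), (nat_lit 17602610), (nat_lit 11874437)] (nat_lit 19519284)) p15_32_0 (nat_lit 4) (nat_lit 407) (nat_lit 408) = true := by decide +kernel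
def p15_32_0_408 : pfC (piC [(nat_lit 35065580), (nat_lit 23538785), (nat_lit 17602610), (nat_lit 11874437)] (nat_lit 19519284)) p15_32_0 (nat_lit 4) (nat_lit 408) (nat_lit 409) = true := by decide +kernel
def p15_32_0_409 : pfC (piC [(nat_lit 35065580), (nat_lit 23538785), (nat_lit 17602610), (nat_lit 11874437)] (nat_lit 19519284)) p15_32_0 (nat_lit 4) (nat_lit 409) (nat_lit 410) = true := by decide +kernel
def p15_32_0_410 : pfC (piC [(nat_lit 35065580), (nat_lit 23538785), (nat_lit 17602610), (nat_lit 11874437)] (nat_lit 19519284)) p15_32_0 (nat_lit 4) (nat_lit 410) (nat_lit 411) = true := by decide +kernel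
def p15_32_0_411 : pfC (piC [(nat_lit 35065580), (nat_lit 23538785), (nat_lit 17602610), (nat_lit 11874437)] (nat_lit 19519284)) p15_32_0 (nat_lit 4) (nat_lit 411) (nat_lit 412) = true := by decide +kernel
def p15_32_0_412 : pfC (piC [(nat_lit 35065580), (nat_lit 23538785), (nat_lit 17602610), (nat_lit 11874437)] (nat_lit 19519284)) p15_32_0 (nat_lit 4) (nat_lit 412) (nat_lit 413) = true := by decide +kernel
def p15_32_0_413 : pfC (piC [(nat_lit 35065580), (nat_lit 23538785), (nat_lit 17602610), (nat_lit 11874437)] (nat_lit 19519284)) p15_32_0 (nat_lit 4) (nat_lit 413) (nat_lit 414) = true := by decide +kernel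
def p15_32_0_414 : pfC (piC [(nat_lit 35065580), (nat_lit 23538785), (nat_lit 17602610), (nat_lit 11874437)] (nat_lit 19519284)) p15_32_0 (nat_lit 4) (nat_lit 414) (nat_lit 415) = true := by decide +kernel
def p15_32_0_415 : pfC (piC [(nat_lit 35065580), (nat_lit 23538785), (nat_lit 17602610), (nat_lit 11874437)] (nat_lit 19519284)) p15_32_0 (nat_lit 4) (nat_lit 415) (nat_lit 416) = true := by decide +kernel
def p15_32_0_416 : pfC (piC [(nat_lit 35065580), (nat_lit 23538785), (nat_lit 17602610), (nat_lit 11874437)] (nat_lit 19519284)) p15_32_0 (nat_lit 4) (nat_lit 416) (nat_lit 417) = true := by decide +kernel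
def p15_32_0_417 : pfC (piC [(nat_lit 35065580), (nat_lit 23538785), (nat_lit 17602610), (nat_lit 11874437)] (nat_lit 19519284)) p15_32_0 (nat_lit 4) (nat_lit 417) (nat_lit 418) = true := by decide +kernel
def p15_32_0_418 : pfC (piC [(nat_lit 35065580), (nat_lit 23538785), (nat_lit 17602610), (nat_lit 11874437)] (nat_lit 19519284)) p15_32_0 (nat_lit 4) (nat_lit 418) (nat_lit 419) = true := by decide +kernel
def p15_32_0_419 : pfC (piC [(nat_lit 35065580), (nat_lit 23538785), (nat_lit 17602610), (nat_lit 11874437)] (nat_lit 19519284)) p15_32_0 (nat_lit 4) (nat_lit 419) (nat_lit 420) = true := by decide +kernel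
def p15_32_0_420 : pfC (piC [(nat_lit 35065580), (nat_lit 23538785), (nat_lit 17602610), (nat_lit 11874437)] (nat_lit 19519284)) p15_32_0 (nat_lit 4) (nat_lit 420) (nat_lit 421) = true := by decide +kernel
def p15_32_0_421 : pfC (piC [(nat_lit 35065580), (nat_lit 23538785), (nat_lit 17602610), (nat_lit 11874437)] (nat_lit 19519284)) p15_32_0 (nat_lit 4) (nat_lit 421) (nat_lit 422) = true := by decide +kernel
theorem p15_32_0_T : PfS (PiF n15_32.reverse (nat_lit 19519284)) p15_32_0 (nat_lit 4) [] 0 :=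
  pftab_of (los := [(nat_lit 35065580), (nat_lit 23538785), (nat_lit 17602610), (nat_lit 11874437)]) (by decide +kernel) (hi := (nat_lit 422)) (PfP.trans (PfP.trans (PfP.trans (PfP.trans (PfP.trans (PfP.trans (PfP.trans (PfP.trans (PfP.trans (PfP.trans (PfP.trans (PfP.trans (PfP.trans (PfP.trans (PfP.trans (PfP.trans (PfP.trans (PfP.trans (PfP.trans (PfP.trans (PfP.trans (PfP.trans (PfP.trans (PfP.trans (PfP.trans (PfP.trans (PfP.trans (PfP.trans (PfP.trans (PfP.trans (PfP.trans (PfP.trans (PfP.trans (PfP.trans (PfP.trans (PfP.trans (PfP.trans (PfP.trans (PfP.trans (PfP.trans (PfP.trans (PfP.trans (PfP.trans (PfP.trans (PfP.trans (PfP.trans (PfP.trans (PfP.trans (PfP.trans (PfP.trans (PfP.trans (PfP.trans (PfP.trans (PfP.trans (PfP.trans (PfP.trans (PfP.trans (PfP.trans (PfP.trans (PfP.trans (PfP.trans (PfP.trans (PfP.trans (PfP.trans (PfP.trans (PfP.trans (PfP.trans (PfP.trans (PfP.trans (PfP.trans (PfP.trans (PfP.trans (PfP.trans (PfP.trans (PfP.trans (PfP.trans (PfP.trans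 (PfP.trans (PfP.trans (PfP.trans (PfP.trans (PfP.trans (PfP.trans (PfP.trans (PfP.trans (PfP.trans (PfP.trans (PfP.trans (PfP.trans (PfP.trans (PfP.trans (PfP.trans (PfP.trans (PfP.trans (PfP.trans (PfP.trans (PfP.trans (PfP.trans (PfP.trans (PfP.trans (PfP.trans (PfP.trans (PfP.trans (PfP.trans (PfP.trans (PfP.trans (PfP.trans (PfP.trans (PfP.trans
 (PfP.trans (PfP.trans (PfP.trans (PfP.trans (PfP.trans (PfP.trans (PfP.trans (PfP.trans (PfP.trans (PfP.trans (PfP.trans (PfP.trans (PfP.trans (PfP.trans (PfP.trans (PfP.trans (PfP.trans (PfP.trans (PfP.trans (PfP.trans (PfP.trans (PfP.trans (PfP.trans (PfP.trans (PfP.trans (PfP.trans (PfP.trans (PfP.trans (PfP.trans (PfP.trans (PfP.trans (PfP.trans (PfP.trans (PfP.trans (PfP.trans (PfP.trans (PfP.trans (PfP.trans (PfP.trans (PfP.trans (PfP.trans (PfP.trans (PfP.trans (PfP.trans (PfP.trans (PfP.trans (PfP.trans (PfP.trans (PfP.trans (PfP.trans (PfP.trans (PfP.trans (PfP.trans (PfP.trans (PfP.trans (PfP.trans (PfP.trans (PfP.trans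 (PfP.trans (PfP.trans (PfP.trans (PfP.trans (PfP.trans (PfP.trans (PfP.trans (PfP.trans (PfP.trans (PfP.trans (PfP.trans (PfP.trans (PfP.trans (PfP.trans (PfP.trans (PfP.trans (PfP.trans (PfP.trans (PfP.trans (PfP.trans (PfP.trans (PfP.trans (PfP.trans (PfP.trans (PfP.trans (PfP.trans (PfP.trans (PfP.trans (PfP.trans (PfP.trans (PfP.trans (PfP.trans (PfP.trans (PfP.trans (PfP.trans (PfP.trans (PfP.trans (PfP.trans (PfP.trans (PfP.trans (PfP.trans (PfP.trans (PfP.trans (PfP.trans (PfP.trans (PfP.trans (PfP.trans (PfP.trans (PfP.trans (PfP.trans (PfP.trans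
 (PfP.trans (PfP.trans (PfP.trans (PfP.trans (PfP.trans (PfP.trans (PfP.trans (PfP.trans (PfP.trans (PfP.trans (PfP.trans (PfP.trans (PfP.trans (PfP.trans (PfP.trans (PfP.trans (PfP.trans (PfP.trans (PfP.trans (PfP.trans (PfP.trans (PfP.trans (PfP.trans (PfP.trans (PfP.trans (PfP.trans (PfP.trans (PfP.trans (PfP.trans (PfP.trans (PfP.trans (PfP.trans (PfP.trans (PfP.trans (PfP.trans (PfP.trans (PfP.trans (PfP.trans (PfP.trans (PfP.trans (PfP.trans (PfP.trans (PfP.trans (PfP.trans (PfP.trans (PfP.trans (PfP.trans (PfP.trans (PfP.trans (PfP.trans (PfP.trans (PfP.trans (PfP.trans (PfP.trans (PfP.trans (PfP.trans (PfP.trans (PfP.trans (PfP.trans (PfP.trans (PfP.trans (PfP.trans (PfP.trans (PfP.trans (PfP.trans (PfP.trans (PfP.trans (PfP.trans (PfP.trans (PfP.trans (PfP.trans (PfP.trans (PfP.trans (PfP.trans (PfP.trans (PfP.trans (PfP.trans (PfP.trans (PfP.trans (PfP.trans (PfP.trans (PfP.trans (PfP.trans (PfP.trans (PfP.trans (PfP.trans (PfP.trans (PfP.trans (PfP.trans (PfP.trans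 (PfP.trans (PfP.trans (PfP.trans (PfP.trans (PfP.trans (PfP.trans (PfP.trans (PfP.trans (PfP.trans (PfP.trans (PfP.trans (PfP.trans (PfP.trans (PfP.trans (PfP.trans (PfP.trans (PfP.trans (PfP.trans (PfP.trans
 (PfP.trans (PfP.trans (PfP.trans (PfP.trans (PfP.trans (PfP.trans (PfP.trans (PfP.trans (PfP.trans (PfP.trans (PfP.trans (PfP.trans (PfP.trans (PfP.trans (PfP.trans (PfP.trans (PfP.trans (PfP.trans (PfP.trans (PfP.trans (PfP.trans (PfP.trans (PfP.trans (PfP.trans (PfP.trans (PfP.trans (PfP.trans (PfP.trans (PfP.trans (PfP.trans (PfP.trans (PfP.trans (PfP.trans (PfP.trans (PfP.trans (PfP.trans (PfP.trans (PfP.trans (PfP.trans (PfP.trans (PfP.trans (PfP.trans (PfP.trans (PfP.trans (PfP.trans (PfP.trans (PfP.trans (PfP.trans (PfP.trans (PfP.trans (PfP.trans (PfP.trans (PfP.trans (PfP.trans (PfP.trans (PfP.trans (PfP.trans (PfP.trans (PfP.trans (PfP.trans (PfP.trans (PfP.trans (PfP.trans (PfP.trans (PfP.trans (PfP.trans (PfP.trans (PfP.trans (PfP.trans (PfP.trans (PfP.trans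 (PfP.trans (PfP.trans (PfP.trans (PfP.trans (PfP.trans (PfP.trans (PfP.trans (PfP.trans (PfP.trans (PfP.trans (PfP.trans (PfP.trans (PfP.trans (PfP.trans (PfP.trans (PfP.trans (PfP.trans (PfP.trans (PfP.trans (PfP.trans (PfP.trans (PfP.trans (PfP.trans (pfC_sound p15_32_0_0) (pfC_sound p15_32_0_1)) (pfC_sound p15_32_0_2)) (pfC_sound p15_32_0_3)) (pfC_sound p15_32_0_4)) (pfC_sound p15_32_0_5)) (pfC_sound
 p15_32_0_6)) (pfC_sound p15_32_0_7)) (pfC_sound p15_32_0_8)) (pfC_sound p15_32_0_9)) (pfC_sound p15_32_0_10)) (pfC_sound p15_32_0_11)) (pfC_sound p15_32_0_12)) (pfC_sound p15_32_0_13)) (pfC_sound p15_32_0_14)) (pfC_sound p15_32_0_15)) (pfC_sound p15_32_0_16)) (pfC_sound p15_32_0_17)) (pfC_sound p15_32_0_18)) (pfC_sound p15_32_0_19)) (pfC_sound p15_32_0_20)) (pfC_sound p15_32_0_21)) (pfC_sound p15_32_0_22)) (pfC_sound p15_32_0_23)) (pfC_sound p15_32_0_24)) (pfC_sound p15_32_0_25)) (pfC_sound p15_32_0_26)) (pfC_sound p15_32_0_27)) (pfC_sound p15_32_0_28)) (pfC_sound p15_32_0_29))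 (pfC_sound p15_32_0_30)) (pfC_sound p15_32_0_31)) (pfC_sound p15_32_0_32)) (pfC_sound p15_32_0_33)) (pfC_sound p15_32_0_34)) (pfC_sound p15_32_0_35)) (pfC_sound p15_32_0_36)) (pfC_sound p15_32_0_37)) (pfC_sound p15_32_0_38)) (pfC_sound p15_32_0_39)) (pfC_sound p15_32_0_40)) (pfC_sound p15_32_0_41)) (pfC_sound p15_32_0_42)) (pfC_sound p15_32_0_43)) (pfC_sound p15_32_0_44)) (pfC_sound p15_32_0_45)) (pfC_sound p15_32_0_46)) (pfC_sound p15_32_0_47)) (pfC_sound p15_32_0_48)) (pfC_sound p15_32_0_49)) (pfC_sound p15_32_0_50)) (pfC_sound p15_32_0_51)) (pfC_sound p15_32_0_52)) (pfC_sound p15_32_0_53)) (pfC_sound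
 p15_32_0_54)) (pfC_sound p15_32_0_55)) (pfC_sound p15_32_0_56)) (pfC_sound p15_32_0_57)) (pfC_sound p15_32_0_58)) (pfC_sound p15_32_0_59)) (pfC_sound p15_32_0_60)) (pfC_sound p15_32_0_61)) (pfC_sound p15_32_0_62)) (pfC_sound p15_32_0_63)) (pfC_sound p15_32_0_64)) (pfC_sound p15_32_0_65)) (pfC_sound p15_32_0_66)) (pfC_sound p15_32_0_67)) (pfC_sound p15_32_0_68)) (pfC_sound p15_32_0_69)) (pfC_sound p15_32_0_70)) (pfC_sound p15_32_0_71)) (pfC_sound p15_32_0_72)) (pfC_sound p15_32_0_73)) (pfC_sound p15_32_0_74)) (pfC_sound p15_32_0_75)) (pfC_sound p15_32_0_76)) (pfC_sound p15_32_0_77)) (pfC_sound p15_32_0_78)) (pfC_sound p15_32_0_79)) (pfC_sound p15_32_0_80)) (pfC_sound p15_32_0_81)) (pfC_sound p15_32_0_82)) (pfC_sound p15_32_0_83)) (pfC_sound p15_32_0_84)) (pfC_sound p15_32_0_85)) (pfC_sound p15_32_0_86)) (pfC_sound p15_32_0_87)) (pfC_sound p15_32_0_88)) (pfC_sound p15_32_0_89)) (pfC_sound p15_32_0_90)) (pfC_sound p15_32_0_91)) (pfC_sound p15_32_0_92)) (pfC_sound p15_32_0_93))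 (pfC_sound p15_32_0_94)) (pfC_sound p15_32_0_95)) (pfC_sound p15_32_0_96)) (pfC_sound p15_32_0_97)) (pfC_sound p15_32_0_98)) (pfC_sound p15_32_0_99)) (pfC_sound p15_32_0_100)) (pfC_sound p15_32_0_101))
 (pfC_sound p15_32_0_102)) (pfC_sound p15_32_0_103)) (pfC_sound p15_32_0_104)) (pfC_sound p15_32_0_105)) (pfC_sound p15_32_0_106)) (pfC_sound p15_32_0_107)) (pfC_sound p15_32_0_108)) (pfC_sound p15_32_0_109)) (pfC_sound p15_32_0_110)) (pfC_sound p15_32_0_111)) (pfC_sound p15_32_0_112)) (pfC_sound p15_32_0_113)) (pfC_sound p15_32_0_114)) (pfC_sound p15_32_0_115)) (pfC_sound p15_32_0_116)) (pfC_sound p15_32_0_117)) (pfC_sound p15_32_0_118)) (pfC_sound p15_32_0_119)) (pfC_sound p15_32_0_120)) (pfC_sound p15_32_0_121)) (pfC_sound p15_32_0_122)) (pfC_sound p15_32_0_123)) (pfC_sound p15_32_0_124)) (pfC_sound p15_32_0_125)) (pfC_sound p15_32_0_126)) (pfC_sound p15_32_0_127)) (pfC_sound p15_32_0_128)) (pfC_sound p15_32_0_129)) (pfC_sound p15_32_0_130)) (pfC_sound p15_32_0_131))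 (pfC_sound p15_32_0_132)) (pfC_sound p15_32_0_133)) (pfC_sound p15_32_0_134)) (pfC_sound p15_32_0_135)) (pfC_sound p15_32_0_136)) (pfC_sound p15_32_0_137)) (pfC_sound p15_32_0_138)) (pfC_sound p15_32_0_139)) (pfC_sound p15_32_0_140)) (pfC_sound p15_32_0_141)) (pfC_sound p15_32_0_142)) (pfC_sound p15_32_0_143)) (pfC_sound p15_32_0_144)) (pfC_sound p15_32_0_145)) (pfC_sound p15_32_0_146)) (pfC_sound p15_32_0_147))
 (pfC_sound p15_32_0_148)) (pfC_sound p15_32_0_149)) (pfC_sound p15_32_0_150)) (pfC_sound p15_32_0_151)) (pfC_sound p15_32_0_152)) (pfC_sound p15_32_0_153)) (pfC_sound p15_32_0_154)) (pfC_sound p15_32_0_155)) (pfC_sound p15_32_0_156)) (pfC_sound p15_32_0_157)) (pfC_sound p15_32_0_158)) (pfC_sound p15_32_0_159)) (pfC_sound p15_32_0_160)) (pfC_sound p15_32_0_161)) (pfC_sound p15_32_0_162)) (pfC_sound p15_32_0_163)) (pfC_sound p15_32_0_164)) (pfC_sound p15_32_0_165)) (pfC_sound p15_32_0_166)) (pfC_sound p15_32_0_167)) (pfC_sound p15_32_0_168)) (pfC_sound p15_32_0_169))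 (pfC_sound p15_32_0_170)) (pfC_sound p15_32_0_171)) (pfC_sound p15_32_0_172)) (pfC_sound p15_32_0_173)) (pfC_sound p15_32_0_174)) (pfC_sound p15_32_0_175)) (pfC_sound p15_32_0_176)) (pfC_sound p15_32_0_177)) (pfC_sound p15_32_0_178)) (pfC_sound p15_32_0_179)) (pfC_sound p15_32_0_180)) (pfC_sound p15_32_0_181)) (pfC_sound p15_32_0_182)) (pfC_sound p15_32_0_183)) (pfC_sound p15_32_0_184)) (pfC_sound p15_32_0_185)) (pfC_sound p15_32_0_186)) (pfC_sound p15_32_0_187)) (pfC_sound p15_32_0_188)) (pfC_sound p15_32_0_189)) (pfC_sound p15_32_0_190)) (pfC_sound p15_32_0_191)) (pfC_sound p15_32_0_192)) (pfC_sound p15_32_0_193))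
 (pfC_sound p15_32_0_194)) (pfC_sound p15_32_0_195)) (pfC_sound p15_32_0_196)) (pfC_sound p15_32_0_197)) (pfC_sound p15_32_0_198)) (pfC_sound p15_32_0_199)) (pfC_sound p15_32_0_200)) (pfC_sound p15_32_0_201)) (pfC_sound p15_32_0_202)) (pfC_sound p15_32_0_203)) (pfC_sound p15_32_0_204)) (pfC_sound p15_32_0_205)) (pfC_sound p15_32_0_206)) (pfC_sound p15_32_0_207)) (pfC_sound p15_32_0_208)) (pfC_sound p15_32_0_209)) (pfC_sound p15_32_0_210)) (pfC_sound p15_32_0_211)) (pfC_sound p15_32_0_212)) (pfC_sound p15_32_0_213)) (pfC_sound p15_32_0_214)) (pfC_sound p15_32_0_215)) (pfC_sound p15_32_0_216)) (pfC_sound p15_32_0_217)) (pfC_sound p15_32_0_218)) (pfC_sound p15_32_0_219)) (pfC_sound p15_32_0_220)) (pfC_sound p15_32_0_221)) (pfC_sound p15_32_0_222)) (pfC_sound p15_32_0_223)) (pfC_sound p15_32_0_224)) (pfC_sound p15_32_0_225)) (pfC_sound p15_32_0_226)) (pfC_sound p15_32_0_227)) (pfC_sound p15_32_0_228)) (pfC_sound p15_32_0_229)) (pfC_sound p15_32_0_230)) (pfC_sound p15_32_0_231))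 (pfC_sound p15_32_0_232)) (pfC_sound p15_32_0_233)) (pfC_sound p15_32_0_234)) (pfC_sound p15_32_0_235)) (pfC_sound p15_32_0_236)) (pfC_sound p15_32_0_237)) (pfC_sound p15_32_0_238)) (pfC_sound p15_32_0_239))
 (pfC_sound p15_32_0_240)) (pfC_sound p15_32_0_241)) (pfC_sound p15_32_0_242)) (pfC_sound p15_32_0_243)) (pfC_sound p15_32_0_244)) (pfC_sound p15_32_0_245)) (pfC_sound p15_32_0_246)) (pfC_sound p15_32_0_247)) (pfC_sound p15_32_0_248)) (pfC_sound p15_32_0_249)) (pfC_sound p15_32_0_250)) (pfC_sound p15_32_0_251)) (pfC_sound p15_32_0_252)) (pfC_sound p15_32_0_253)) (pfC_sound p15_32_0_254)) (pfC_sound p15_32_0_255)) (pfC_sound p15_32_0_256)) (pfC_sound p15_32_0_257)) (pfC_sound p15_32_0_258)) (pfC_sound p15_32_0_259)) (pfC_sound p15_32_0_260)) (pfC_sound p15_32_0_261)) (pfC_sound p15_32_0_262)) (pfC_sound p15_32_0_263)) (pfC_sound p15_32_0_264)) (pfC_sound p15_32_0_265)) (pfC_sound p15_32_0_266)) (pfC_sound p15_32_0_267)) (pfC_sound p15_32_0_268)) (pfC_sound p15_32_0_269))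 (pfC_sound p15_32_0_270)) (pfC_sound p15_32_0_271)) (pfC_sound p15_32_0_272)) (pfC_sound p15_32_0_273)) (pfC_sound p15_32_0_274)) (pfC_sound p15_32_0_275)) (pfC_sound p15_32_0_276)) (pfC_sound p15_32_0_277)) (pfC_sound p15_32_0_278)) (pfC_sound p15_32_0_279)) (pfC_sound p15_32_0_280)) (pfC_sound p15_32_0_281)) (pfC_sound p15_32_0_282)) (pfC_sound p15_32_0_283)) (pfC_sound p15_32_0_284)) (pfC_sound p15_32_0_285))
 (pfC_sound p15_32_0_286)) (pfC_sound p15_32_0_287)) (pfC_sound p15_32_0_288)) (pfC_sound p15_32_0_289)) (pfC_sound p15_32_0_290)) (pfC_sound p15_32_0_291)) (pfC_sound p15_32_0_292)) (pfC_sound p15_32_0_293)) (pfC_sound p15_32_0_294)) (pfC_sound p15_32_0_295)) (pfC_sound p15_32_0_296)) (pfC_sound p15_32_0_297)) (pfC_sound p15_32_0_298)) (pfC_sound p15_32_0_299)) (pfC_sound p15_32_0_300)) (pfC_sound p15_32_0_301)) (pfC_sound p15_32_0_302)) (pfC_sound p15_32_0_303)) (pfC_sound p15_32_0_304)) (pfC_sound p15_32_0_305)) (pfC_sound p15_32_0_306)) (pfC_sound p15_32_0_307))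 (pfC_sound p15_32_0_308)) (pfC_sound p15_32_0_309)) (pfC_sound p15_32_0_310)) (pfC_sound p15_32_0_311)) (pfC_sound p15_32_0_312)) (pfC_sound p15_32_0_313)) (pfC_sound p15_32_0_314)) (pfC_sound p15_32_0_315)) (pfC_sound p15_32_0_316)) (pfC_sound p15_32_0_317)) (pfC_sound p15_32_0_318)) (pfC_sound p15_32_0_319)) (pfC_sound p15_32_0_320)) (pfC_sound p15_32_0_321)) (pfC_sound p15_32_0_322)) (pfC_sound p15_32_0_323)) (pfC_sound p15_32_0_324)) (pfC_sound p15_32_0_325)) (pfC_sound p15_32_0_326)) (pfC_sound p15_32_0_327)) (pfC_sound p15_32_0_328)) (pfC_sound p15_32_0_329)) (pfC_sound p15_32_0_330)) (pfC_sound p15_32_0_331))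
 (pfC_sound p15_32_0_332)) (pfC_sound p15_32_0_333)) (pfC_sound p15_32_0_334)) (pfC_sound p15_32_0_335)) (pfC_sound p15_32_0_336)) (pfC_sound p15_32_0_337)) (pfC_sound p15_32_0_338)) (pfC_sound p15_32_0_339)) (pfC_sound p15_32_0_340)) (pfC_sound p15_32_0_341)) (pfC_sound p15_32_0_342)) (pfC_sound p15_32_0_343)) (pfC_sound p15_32_0_344)) (pfC_sound p15_32_0_345)) (pfC_sound p15_32_0_346)) (pfC_sound p15_32_0_347)) (pfC_sound p15_32_0_348)) (pfC_sound p15_32_0_349)) (pfC_sound p15_32_0_350)) (pfC_sound p15_32_0_351)) (pfC_sound p15_32_0_352)) (pfC_sound p15_32_0_353)) (pfC_sound p15_32_0_354)) (pfC_sound p15_32_0_355)) (pfC_sound p15_32_0_356)) (pfC_sound p15_32_0_357)) (pfC_sound p15_32_0_358)) (pfC_sound p15_32_0_359)) (pfC_sound p15_32_0_360)) (pfC_sound p15_32_0_361)) (pfC_sound p15_32_0_362)) (pfC_sound p15_32_0_363)) (pfC_sound p15_32_0_364)) (pfC_sound p15_32_0_365)) (pfC_sound p15_32_0_366)) (pfC_sound p15_32_0_367)) (pfC_sound p15_32_0_368)) (pfC_sound p15_32_0_369))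 (pfC_sound p15_32_0_370)) (pfC_sound p15_32_0_371)) (pfC_sound p15_32_0_372)) (pfC_sound p15_32_0_373)) (pfC_sound p15_32_0_374)) (pfC_sound p15_32_0_375)) (pfC_sound p15_32_0_376)) (pfC_sound p15_32_0_377))
 (pfC_sound p15_32_0_378)) (pfC_sound p15_32_0_379)) (pfC_sound p15_32_0_380)) (pfC_sound p15_32_0_381)) (pfC_sound p15_32_0_382)) (pfC_sound p15_32_0_383)) (pfC_sound p15_32_0_384)) (pfC_sound p15_32_0_385)) (pfC_sound p15_32_0_386)) (pfC_sound p15_32_0_387)) (pfC_sound p15_32_0_388)) (pfC_sound p15_32_0_389)) (pfC_sound p15_32_0_390)) (pfC_sound p15_32_0_391)) (pfC_sound p15_32_0_392)) (pfC_sound p15_32_0_393)) (pfC_sound p15_32_0_394)) (pfC_sound p15_32_0_395)) (pfC_sound p15_32_0_396)) (pfC_sound p15_32_0_397)) (pfC_sound p15_32_0_398)) (pfC_sound p15_32_0_399)) (pfC_sound p15_32_0_400)) (pfC_sound p15_32_0_401)) (pfC_sound p15_32_0_402)) (pfC_sound p15_32_0_403)) (pfC_sound p15_32_0_404)) (pfC_sound p15_32_0_405)) (pfC_sound p15_32_0_406)) (pfC_sound p15_32_0_407))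 (pfC_sound p15_32_0_408)) (pfC_sound p15_32_0_409)) (pfC_sound p15_32_0_410)) (pfC_sound p15_32_0_411)) (pfC_sound p15_32_0_412)) (pfC_sound p15_32_0_413)) (pfC_sound p15_32_0_414)) (pfC_sound p15_32_0_415)) (pfC_sound p15_32_0_416)) (pfC_sound p15_32_0_417)) (pfC_sound p15_32_0_418)) (pfC_sound p15_32_0_419)) (pfC_sound p15_32_0_420)) (pfC_sound p15_32_0_421)) (by decide +kernel)

def z15_32_0 : zOK yB15_32 (nat_lit 0) (nat_lit 0) (nat_lit 400) (nat_lit 19519284) (nat_lit 10788098) = true := by decide +kernel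
def g15_32_0 : gOK yB15_32.x P15_32 (nat_lit 1397) (q15_32 :: r15_32) (nat_lit 0) (nat_lit 0) (nat_lit 1) (nat_lit 400) (nat_lit 0) (nat_lit 11000000) (nat_lit 12712500) (nat_lit 12712500) [(nat_lit 800), (nat_lit 1600)] = true := by decide +kernel
def v15_32_0 : ivC P15_32 s15_32 w15_32 n15_32 (nat_lit 4) (nat_lit 5325) (nat_lit 0) (nat_lit 0) f168_1_0 f176_1_0 (nat_lit 1) (nat_lit 400) f168_1_400 f176_1_400 (nat_lit 19519284) (nat_lit 10788098) p15_32_0 = true := by decide +kernel
def p15_32_1 : PF := (PF.cons (PF.cons (PF.cons (PF.cons (PF.leaf (nat_lit 2067927) (nat_lit 9717497) (nat_lit 57391315) (nat_lit 9717497) [(nat_lit 0), (nat_lit 0), (nat_lit 0), (nat_lit 0)]) (PF.cons (PF.leaf (nat_lit 2307495) (nat_lit 438996) (nat_lit 56915452) (nat_lit 9754363) [(nat_lit 438996), (nat_lit 0), (nat_lit 0), (nat_lit 0)]) (PF.cons (PF.leaf (nat_lit 2589309) (nat_lit 477656) (nat_lit 56361237) (nat_lit 9792262) [(nat_lit 477656), (nat_lit 0), (nat_lit 0), (nat_lit 0)]) (PF.cons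 (PF.leaf (nat_lit 2905335) (nat_lit 511847) (nat_lit 55744796) (nat_lit 9828473) [(nat_lit 511847), (nat_lit 0), (nat_lit 0), (nat_lit 0)]) (PF.cons (PF.leaf (nat_lit 3250196) (nat_lit 542468) (nat_lit 55077893) (nat_lit 9861046) [(nat_lit 542468), (nat_lit 0), (nat_lit 0), (nat_lit 0)]) (PF.cons (PF.leaf (nat_lit 3619607) (nat_lit 570080) (nat_lit 54369830) (nat_lit 9888580) [(nat_lit 570080), (nat_lit 0), (nat_lit 0), (nat_lit 0)]) (PF.cons (PF.leaf (nat_lit 4009973) (nat_lit 595065) (nat_lit 53628327) (nat_lit 9910092) [(nat_lit 595065), (nat_lit 0), (nat_lit 0), (nat_lit 0)]) (PF.cons (PF.leaf (nat_lit 4418168) (nat_lit 617699) (nat_lit 52859983) (nat_lit 9924929) [(nat_lit 617699), (nat_lit 0), (nat_lit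
 0), (nat_lit 0)]) (PF.cons (PF.leaf (nat_lit 4841401) (nat_lit 638196) (nat_lit 52070533) (nat_lit 9932705) [(nat_lit 638196), (nat_lit 0), (nat_lit 0), (nat_lit 0)]) (PF.cons (PF.leaf (nat_lit 5277208) (nat_lit 656728) (nat_lit 51265013) (nat_lit 9933239) [(nat_lit 656728), (nat_lit 0), (nat_lit 0), (nat_lit 0)]) (PF.cons PF.nil (PF.cons PF.nil PF.nil)))))))))))) (PF.cons (PF.cons (PF.leaf (nat_lit 2748453) (nat_lit 1645152) (nat_lit 55639653) (nat_lit 9824006) [(nat_lit 0), (nat_lit 1645152), (nat_lit 0), (nat_lit 0)]) (PF.cons (PF.leaf (nat_lit 3051736) (nat_lit 520639) (nat_lit 55040392) (nat_lit 9852719) [(nat_lit 520639), (nat_lit 1695061), (nat_lit 0), (nat_lit 0)]) (PF.cons (PF.leaf (nat_lit 3386327) (nat_lit 550417) (nat_lit 54387199) (nat_lit 9878141) [(nat_lit 550417), (nat_lit 1742636), (nat_lit 0), (nat_lit 0)]) (PF.cons (PF.leaf (nat_lit 3746644) (nat_lit 577159) (nat_lit 53691298) (nat_lit 9898850) [(nat_lit 577159), (nat_lit 1787185), (nat_lit 0), (nat_lit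 0)]) (PF.cons (PF.leaf (nat_lit 4128604) (nat_lit 601288) (nat_lit 52961384) (nat_lit 9913879) [(nat_lit 601288), (nat_lit 1828396), (nat_lit 0), (nat_lit 0)]) (PF.cons (PF.leaf (nat_lit 4528796) (nat_lit 623098)
 (nat_lit 52204567) (nat_lit 9922601) [(nat_lit 623098), (nat_lit 1866149), (nat_lit 0), (nat_lit 0)]) (PF.cons (PF.leaf (nat_lit 4944304) (nat_lit 642813) (nat_lit 51426849) (nat_lit 9924647) [(nat_lit 642813), (nat_lit 1900436), (nat_lit 0), (nat_lit 0)]) (PF.cons (PF.leaf (nat_lit 5372527) (nat_lit 660607) (nat_lit 50633393) (nat_lit 9919852) [(nat_lit 660607), (nat_lit 1931314), (nat_lit 0), (nat_lit 0)]) (PF.cons (PF.leaf (nat_lit 5811176) (nat_lit 676629) (nat_lit 49828688) (nat_lit 9908209) [(nat_lit 676629), (nat_lit 1958880), (nat_lit 0), (nat_lit 0)]) (PF.cons PF.nil PF.nil)))))))))) (PF.cons (PF.cons (PF.leaf (nat_lit 3526636) (nat_lit 1768710) (nat_lit 53681845) (nat_lit 9889547) [(nat_lit 0), (nat_lit 1768710), (nat_lit 0), (nat_lit 0)]) (PF.cons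 (PF.leaf (nat_lit 3875621) (nat_lit 583007) (nat_lit 53003539) (nat_lit 9903803) [(nat_lit 583007), (nat_lit 1809231), (nat_lit 0), (nat_lit 0)]) (PF.cons (PF.leaf (nat_lit 4247865) (nat_lit 606487) (nat_lit 52289097) (nat_lit 9912753) [(nat_lit 606487), (nat_lit 1846993), (nat_lit 0), (nat_lit 0)]) (PF.cons (PF.leaf (nat_lit 4639169) (nat_lit 627627) (nat_lit 51546698) (nat_lit 9915769) [(nat_lit 627627), (nat_lit 1881731),
 (nat_lit 0), (nat_lit 0)]) (PF.cons (PF.leaf (nat_lit 5046298) (nat_lit 646677) (nat_lit 50782923) (nat_lit 9912489) [(nat_lit 646677), (nat_lit 1913345), (nat_lit 0), (nat_lit 0)]) (PF.cons (PF.leaf (nat_lit 5466512) (nat_lit 663828) (nat_lit 50003250) (nat_lit 9902756) [(nat_lit 663828), (nat_lit 1941831), (nat_lit 0), (nat_lit 0)]) (PF.cons (PF.leaf (nat_lit 5897398) (nat_lit 679236) (nat_lit 49212332) (nat_lit 9886565) [(nat_lit 679236), (nat_lit 1967246), (nat_lit 0), (nat_lit 0)]) (PF.cons (PF.leaf (nat_lit 6336855) (nat_lit 693034) (nat_lit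 48414173) (nat_lit 9864030) [(nat_lit 693034), (nat_lit 1989684), (nat_lit 0), (nat_lit 0)]) (PF.cons PF.nil PF.nil))))))))) (PF.cons (PF.cons (PF.leaf (nat_lit 4369427) (nat_lit 1863992) (nat_lit 51610002) (nat_lit 9906831) [(nat_lit 0), (nat_lit 1863992), (nat_lit 0), (nat_lit 0)]) (PF.cons (PF.leaf (nat_lit 4750345) (nat_lit 631262) (nat_lit 50885483) (nat_lit 9904570) [(nat_lit 631262), (nat_lit 1895832), (nat_lit 0), (nat_lit 0)]) (PF.cons (PF.leaf (nat_lit 5148247) (nat_lit 649779) (nat_lit 50138187) (nat_lit 9896380) [(nat_lit 649779), (nat_lit 1924895), (nat_lit 0), (nat_lit 0)]) (PF.cons (PF.leaf (nat_lit 5559850) (nat_lit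
 666390) (nat_lit 49374206) (nat_lit 9882103) [(nat_lit 666390), (nat_lit 1951110), (nat_lit 0), (nat_lit 0)]) (PF.cons (PF.leaf (nat_lit 5982568) (nat_lit 681268) (nat_lit 48598537) (nat_lit 9861734) [(nat_lit 681268), (nat_lit 1974488), (nat_lit 0), (nat_lit 0)]) (PF.cons (PF.leaf (nat_lit 6414176) (nat_lit 694556) (nat_lit 47815375) (nat_lit 9835384) [(nat_lit 694556), (nat_lit 1995090), (nat_lit 0), (nat_lit 0)]) (PF.cons PF.nil PF.nil))))))) (PF.cons (PF.cons (PF.leaf (nat_lit 5251352) (nat_lit 1935182) (nat_lit 49491655) (nat_lit 9876427) [(nat_lit 0), (nat_lit 1935182), (nat_lit 0), (nat_lit 0)]) (PF.cons (PF.leaf (nat_lit 5653320) (nat_lit 668280) (nat_lit 48745605) (nat_lit 9858011) [(nat_lit 668280), (nat_lit 1959228), (nat_lit 0), (nat_lit 0)]) (PF.cons (PF.leaf (nat_lit 6067303) (nat_lit 682720) (nat_lit 47986844) (nat_lit 9833841) [(nat_lit 682720), (nat_lit 1980671), (nat_lit 0), (nat_lit 0)]) (PF.cons (PF.leaf (nat_lit 6490675) (nat_lit 695572) (nat_lit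 47219928) (nat_lit 9804022) [(nat_lit 695572), (nat_lit 1999536), (nat_lit 0), (nat_lit 0)]) (PF.cons (PF.leaf (nat_lit 6921387) (nat_lit 706968) (nat_lit 46448631) (nat_lit 9768744) [(nat_lit 706968), (nat_lit
 2015890), (nat_lit 0), (nat_lit 0)]) PF.nil))))) (PF.cons (PF.cons (PF.leaf (nat_lit 6152543) (nat_lit 1985859) (nat_lit 47376540) (nat_lit 9802976) [(nat_lit 0), (nat_lit 1985859), (nat_lit 0), (nat_lit 0)]) (PF.cons (PF.leaf (nat_lit 6566967) (nat_lit 696074) (nat_lit 46627318) (nat_lit 9770041) [(nat_lit 696074), (nat_lit 2003075), (nat_lit 0), (nat_lit 0)]) (PF.cons (PF.leaf (nat_lit 6989470) (nat_lit 707115) (nat_lit 45872886) (nat_lit 9731942) [(nat_lit 707115), (nat_lit 2017950), (nat_lit 0), (nat_lit 0)]) (PF.cons PF.nil PF.nil)))) (PF.cons (PF.cons (PF.leaf (nat_lit 7057716) (nat_lit 2019232) (nat_lit 45300499) (nat_lit 9692915) [(nat_lit 0), (nat_lit 2019232), (nat_lit 0), (nat_lit 0)]) (PF.cons (PF.leaf (nat_lit 7477907) (nat_lit 716229) (nat_lit 44561430)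 (nat_lit 9647654) [(nat_lit 716229), (nat_lit 2030583), (nat_lit 0), (nat_lit 0)]) PF.nil)) (PF.cons PF.nil (PF.cons PF.nil PF.nil))))))))) (PF.cons (PF.cons (PF.cons (PF.leaf (nat_lit 3356588) (nat_lit 3995707) (nat_lit 53253934) (nat_lit 9859170) [(nat_lit 0), (nat_lit 0), (nat_lit 3995707), (nat_lit 0)]) (PF.cons (PF.leaf (nat_lit 3670034) (nat_lit 553629) (nat_lit 52647134) (nat_lit 9870571) [(nat_lit 553629),
 (nat_lit 0), (nat_lit 4037478), (nat_lit 0)]) (PF.cons (PF.leaf (nat_lit 4012427) (nat_lit 580654) (nat_lit 51992106) (nat_lit 9877854) [(nat_lit 580654), (nat_lit 0), (nat_lit 4077542), (nat_lit 0)]) (PF.cons (PF.leaf (nat_lit 4378045) (nat_lit 604541) (nat_lit 51300260) (nat_lit 9880140) [(nat_lit 604541), (nat_lit 0), (nat_lit 4114787), (nat_lit 0)]) (PF.cons (PF.leaf (nat_lit 4762784) (nat_lit 625806) (nat_lit 50580159) (nat_lit 9876876) [(nat_lit 625806), (nat_lit 0), (nat_lit 4148550), (nat_lit 0)]) (PF.cons (PF.leaf (nat_lit 5163312) (nat_lit 644802)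 (nat_lit 49838604) (nat_lit 9867749) [(nat_lit 644802), (nat_lit 0), (nat_lit 4178447), (nat_lit 0)]) (PF.cons (PF.leaf (nat_lit 5576842) (nat_lit 661785) (nat_lit 49081188) (nat_lit 9852627) [(nat_lit 661785), (nat_lit 0), (nat_lit 4204284), (nat_lit 0)]) (PF.cons (PF.leaf (nat_lit 6000965) (nat_lit 676955) (nat_lit 48312606) (nat_lit 9831519) [(nat_lit 676955), (nat_lit 0), (nat_lit 4225999), (nat_lit 0)]) (PF.cons (PF.leaf (nat_lit 6433559) (nat_lit 690473) (nat_lit 47536860) (nat_lit 9804542) [(nat_lit 690473), (nat_lit 0), (nat_lit 4243620), (nat_lit 0)]) (PF.cons PF.nil PF.nil)))))))))) (PF.cons (PF.cons (PF.leaf (nat_lit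
 4142941) (nat_lit 1832029) (nat_lit 51304120) (nat_lit 9871304) [(nat_lit 0), (nat_lit 1832029), (nat_lit 4101357), (nat_lit 0)]) (PF.cons (PF.leaf (nat_lit 4496334) (nat_lit 607848) (nat_lit 50633410) (nat_lit 9868653) [(nat_lit 607848), (nat_lit 1865111), (nat_lit 4133789), (nat_lit 0)]) (PF.cons (PF.leaf (nat_lit 4870689) (nat_lit 628725) (nat_lit 49931776) (nat_lit 9860750) [(nat_lit 628725), (nat_lit 1895569), (nat_lit 4163265), (nat_lit 0)]) (PF.cons (PF.leaf (nat_lit 5261868) (nat_lit 647273) (nat_lit 49207151) (nat_lit 9847291) [(nat_lit 647273), (nat_lit 1923239), (nat_lit 4189307), (nat_lit 0)]) (PF.cons (PF.leaf (nat_lit 5666739) (nat_lit 663788) (nat_lit 48465753) (nat_lit 9828155) [(nat_lit 663788), (nat_lit 1948084), (nat_lit 4211664), (nat_lit 0)]) (PF.cons (PF.leaf (nat_lit 6082694) (nat_lit 678491) (nat_lit 47712636) (nat_lit 9803354) [(nat_lit 678491), (nat_lit 1970138), (nat_lit 4230228), (nat_lit 0)]) (PF.cons (PF.leaf (nat_lit 6507504) (nat_lit 691554)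 (nat_lit 46952005) (nat_lit 9773003) [(nat_lit 691554), (nat_lit 1989480), (nat_lit 4244995), (nat_lit 0)]) (PF.cons PF.nil (PF.cons PF.nil PF.nil))))))))) (PF.cons (PF.cons (PF.leaf (nat_lit 4981256) (nat_lit
 1906819) (nat_lit 49278886) (nat_lit 9840657) [(nat_lit 0), (nat_lit 1906819), (nat_lit 4175629), (nat_lit 0)]) (PF.cons (PF.leaf (nat_lit 5361636) (nat_lit 648961) (nat_lit 48574200) (nat_lit 9823289) [(nat_lit 648961), (nat_lit 1932174), (nat_lit 4198012), (nat_lit 0)]) (PF.cons (PF.leaf (nat_lit 5757013) (nat_lit 665132) (nat_lit 47850974) (nat_lit 9800525) [(nat_lit 665132), (nat_lit 1954982), (nat_lit 4217081), (nat_lit 0)]) (PF.cons (PF.leaf (nat_lit 6164224) (nat_lit 679462) (nat_lit 47114906) (nat_lit 9772385) [(nat_lit 679462), (nat_lit 1975226), (nat_lit 4232681), (nat_lit 0)]) (PF.cons (PF.leaf (nat_lit 6580850) (nat_lit 692146) (nat_lit 46370574) (nat_lit 9738986) [(nat_lit 692146), (nat_lit 1992946), (nat_lit 4244771), (nat_lit 0)]) (PF.cons (PF.leaf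 (nat_lit 7004800) (nat_lit 703342) (nat_lit 45621746) (nat_lit 9700517) [(nat_lit 703342), (nat_lit 2008222), (nat_lit 4253389), (nat_lit 0)]) (PF.cons PF.nil PF.nil))))))) (PF.cons (PF.cons (PF.leaf (nat_lit 5848827) (nat_lit 1960867) (nat_lit 47235779) (nat_lit 9769793) [(nat_lit 0), (nat_lit 1960867), (nat_lit 4220635), (nat_lit 0)]) (PF.cons (PF.leaf (nat_lit 6246310) (nat_lit 679847) (nat_lit 46518676) (nat_lit
 9738685) [(nat_lit 679847), (nat_lit 1979384), (nat_lit 4233447), (nat_lit 0)]) (PF.cons (PF.leaf (nat_lit 6654199) (nat_lit 692238) (nat_lit 45792031) (nat_lit 9702572) [(nat_lit 692238), (nat_lit 1995567), (nat_lit 4243028), (nat_lit 0)]) (PF.cons (PF.leaf (nat_lit 7070014) (nat_lit 703129) (nat_lit 45059991) (nat_lit 9661644) [(nat_lit 703129), (nat_lit 2009466), (nat_lit 4249386), (nat_lit 0)]) (PF.cons PF.nil PF.nil))))) (PF.cons (PF.cons (PF.leaf (nat_lit 6728445) (nat_lit 1997389) (nat_lit 45215607) (nat_lit 9663811) [(nat_lit 0), (nat_lit 1997389),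 (nat_lit 4239836), (nat_lit 0)]) (PF.cons (PF.leaf (nat_lit 7135426) (nat_lit 702472) (nat_lit 44501577) (nat_lit 9620734) [(nat_lit 702472), (nat_lit 2009985), (nat_lit 4244084), (nat_lit 0)]) (PF.cons (PF.leaf (nat_lit 7549232) (nat_lit 711767) (nat_lit 43784526) (nat_lit 9573299) [(nat_lit 711767), (nat_lit 2020514), (nat_lit 4245393), (nat_lit 0)]) (PF.cons PF.nil PF.nil)))) (PF.cons (PF.cons (PF.leaf (nat_lit 7607161) (nat_lit 2019245) (nat_lit 43246756) (nat_lit 9528738) [(nat_lit 0), (nat_lit 2019245), (nat_lit 4237089), (nat_lit 0)]) (PF.cons PF.nil PF.nil)) (PF.cons PF.nil (PF.cons PF.nil PF.nil)))))))) (PF.cons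
 (PF.cons (PF.cons (PF.leaf (nat_lit 4738614) (nat_lit 4145726) (nat_lit 49013890) (nat_lit 9803470) [(nat_lit 0), (nat_lit 0), (nat_lit 4145726), (nat_lit 0)]) (PF.cons (PF.leaf (nat_lit 5093380) (nat_lit 626347) (nat_lit 48359269) (nat_lit 9787110) [(nat_lit 626347), (nat_lit 0), (nat_lit 4168042), (nat_lit 0)]) (PF.cons (PF.leaf (nat_lit 5467141) (nat_lit 644937) (nat_lit 47678103) (nat_lit 9765714) [(nat_lit 644937), (nat_lit 0), (nat_lit 4187559), (nat_lit 0)]) (PF.cons (PF.leaf (nat_lit 5855823) (nat_lit 661235) (nat_lit 46977970) (nat_lit 9739219) [(nat_lit 661235), (nat_lit 0), (nat_lit 4203957), (nat_lit 0)]) (PF.cons (PF.leaf (nat_lit 6256416) (nat_lit 675569) (nat_lit 46264684) (nat_lit 9707675) [(nat_lit 675569), (nat_lit 0), (nat_lit 4217086), (nat_lit 0)]) (PF.cons (PF.leaf (nat_lit 6666445) (nat_lit 688180) (nat_lit 45542882) (nat_lit 9671212) [(nat_lit 688180), (nat_lit 0), (nat_lit 4226908), (nat_lit 0)]) (PF.cons (PF.leaf (nat_lit 7083850) (nat_lit 699253)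 (nat_lit 44816351) (nat_lit 9630021) [(nat_lit 699253), (nat_lit 0), (nat_lit 4233459), (nat_lit 0)]) (PF.cons PF.nil (PF.cons PF.nil PF.nil))))))))) (PF.cons (PF.cons (PF.leaf (nat_lit 5567107) (nat_lit
 1934069) (nat_lit 47055831) (nat_lit 9734851) [(nat_lit 0), (nat_lit 1934069), (nat_lit 4192030), (nat_lit 0)]) (PF.cons (PF.leaf (nat_lit 5944806) (nat_lit 661369) (nat_lit 46376678) (nat_lit 9705596) [(nat_lit 661369), (nat_lit 1954027), (nat_lit 4205570), (nat_lit 0)]) (PF.cons (PF.leaf (nat_lit 6335830) (nat_lit 675513) (nat_lit 45682367) (nat_lit 9671488) [(nat_lit 675513), (nat_lit 1971654), (nat_lit 4216138), (nat_lit 0)]) (PF.cons (PF.leaf (nat_lit 6737142) (nat_lit 687887) (nat_lit 44978192) (nat_lit 9632674) [(nat_lit 687887), (nat_lit 1986970), (nat_lit 4223656), (nat_lit 0)]) (PF.cons (PF.leaf (nat_lit 7146467) (nat_lit 698705) (nat_lit 44268333) (nat_lit 9589351) [(nat_lit 698705), (nat_lit 2000040), (nat_lit 4228132), (nat_lit 0)]) (PF.cons PF.nil (PF.cons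 PF.nil PF.nil))))))) (PF.cons (PF.cons (PF.leaf (nat_lit 6417127) (nat_lit 1974062) (nat_lit 45100502) (nat_lit 9632800) [(nat_lit 0), (nat_lit 1974062), (nat_lit 4213692), (nat_lit 0)]) (PF.cons (PF.leaf (nat_lit 6808763) (nat_lit 687078) (nat_lit 44415619) (nat_lit 9591972) [(nat_lit 687078), (nat_lit 1988012), (nat_lit 4219058), (nat_lit 0)]) (PF.cons (PF.leaf (nat_lit 7209468) (nat_lit 697721) (nat_lit
 43723610) (nat_lit 9546813) [(nat_lit 697721), (nat_lit 1999868), (nat_lit 4221603), (nat_lit 0)]) (PF.cons (PF.leaf (nat_lit 7616915) (nat_lit 706951) (nat_lit 43028249) (nat_lit 9497569) [(nat_lit 706951), (nat_lit 2009699), (nat_lit 4221371), (nat_lit 0)]) (PF.cons PF.nil PF.nil))))) (PF.cons (PF.cons (PF.leaf (nat_lit 7273709) (nat_lit 1999052) (nat_lit 43181392) (nat_lit 9502424) [(nat_lit 0), (nat_lit 1999052), (nat_lit 4213919), (nat_lit 0)]) (PF.cons (PF.leaf (nat_lit 7672513) (nat_lit 705380) (nat_lit 42503879) (nat_lit 9451802) [(nat_lit 705380), (nat_lit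 2007862), (nat_lit 4212082), (nat_lit 0)]) (PF.cons (PF.leaf (nat_lit 8077133) (nat_lit 713199) (nat_lit 41824925) (nat_lit 9397513) [(nat_lit 713199), (nat_lit 2014843), (nat_lit 4207722), (nat_lit 0)]) (PF.cons PF.nil PF.nil)))) (PF.cons (PF.cons (PF.leaf (nat_lit 8125819) (nat_lit 2011594) (nat_lit 41320992) (nat_lit 9349197) [(nat_lit 0), (nat_lit 2011594), (nat_lit 4196121), (nat_lit 0)]) (PF.cons PF.nil PF.nil)) (PF.cons PF.nil PF.nil)))))) (PF.cons (PF.cons (PF.cons (PF.leaf (nat_lit 6126687) (nat_lit 4186692) (nat_lit 44949186) (nat_lit 9599549) [(nat_lit 0), (nat_lit 0), (nat_lit 4186692), (nat_lit 0)])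
 (PF.cons (PF.leaf (nat_lit 6500152) (nat_lit 669480) (nat_lit 44298964) (nat_lit 9561105) [(nat_lit 669480), (nat_lit 0), (nat_lit 4193087), (nat_lit 0)]) (PF.cons (PF.leaf (nat_lit 6885547) (nat_lit 681872) (nat_lit 43636277) (nat_lit 9518328) [(nat_lit 681872), (nat_lit 0), (nat_lit 4196820), (nat_lit 0)]) (PF.cons (PF.leaf (nat_lit 7279953) (nat_lit 692571) (nat_lit 42966024) (nat_lit 9471451) [(nat_lit 692571), (nat_lit 0), (nat_lit 4197874), (nat_lit 0)]) (PF.cons (PF.leaf (nat_lit 7681210) (nat_lit 701799) (nat_lit 42292011) (nat_lit 9420725) [(nat_lit 701799), (nat_lit 0), (nat_lit 4196292), (nat_lit 0)]) (PF.cons PF.nil (PF.cons PF.nil PF.nil))))))) (PF.cons (PF.cons (PF.leaf (nat_lit 6957159) (nat_lit 1977374) (nat_lit 43088240) (nat_lit 9473925) [(nat_lit 0), (nat_lit 1977374), (nat_lit 4189757), (nat_lit 0)]) (PF.cons (PF.leaf (nat_lit 7342033) (nat_lit 690817) (nat_lit 42437115) (nat_lit 9425801) [(nat_lit 690817), (nat_lit 1987554), (nat_lit 4189174), (nat_lit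 0)]) (PF.cons (PF.leaf (nat_lit 7734869) (nat_lit 699968) (nat_lit 41780698) (nat_lit 9373940) [(nat_lit 699968), (nat_lit 1995854), (nat_lit 4186127), (nat_lit 0)]) (PF.cons (PF.leaf (nat_lit 8133478) (nat_lit
 707788) (nat_lit 41122419) (nat_lit 9318621) [(nat_lit 707788), (nat_lit 2002354), (nat_lit 4180684), (nat_lit 0)]) (PF.cons PF.nil PF.nil))))) (PF.cons (PF.cons (PF.leaf (nat_lit 7790067) (nat_lit 1992980) (nat_lit 41272042) (nat_lit 9325695) [(nat_lit 0), (nat_lit 1992980), (nat_lit 4175038), (nat_lit 0)]) (PF.cons (PF.leaf (nat_lit 8180278) (nat_lit 705503) (nat_lit 40631135) (nat_lit 9269608) [(nat_lit 705503), (nat_lit 1998689), (nat_lit 4168395), (nat_lit 0)]) (PF.cons PF.nil (PF.cons PF.nil PF.nil)))) (PF.cons (PF.cons (PF.leaf (nat_lit 8615932) (nat_lit 1998006) (nat_lit 39518446) (nat_lit 9159737) [(nat_lit 0), (nat_lit 1998006), (nat_lit 4145536), (nat_lit 0)]) (PF.cons PF.nil PF.nil)) (PF.cons PF.nil PF.nil))))) (PF.cons (PF.cons (PF.cons (PF.leaf (nat_lit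 7470222) (nat_lit 4152851) (nat_lit 41197572) (nat_lit 9299832) [(nat_lit 0), (nat_lit 0), (nat_lit 4152851), (nat_lit 0)]) (PF.cons (PF.leaf (nat_lit 7847739) (nat_lit 691752) (nat_lit 40580531) (nat_lit 9246370) [(nat_lit 691752), (nat_lit 0), (nat_lit 4147539), (nat_lit 0)]) (PF.cons (PF.leaf (nat_lit 8232322) (nat_lit 699628) (nat_lit 39959581) (nat_lit 9189686) [(nat_lit 699628), (nat_lit 0), (nat_lit 4140071),
 (nat_lit 0)]) (PF.cons PF.nil PF.nil)))) (PF.cons (PF.cons (PF.leaf (nat_lit 8279380) (nat_lit 1980880) (nat_lit 39483233) (nat_lit 9138958) [(nat_lit 0), (nat_lit 1980880), (nat_lit 4126435), (nat_lit 0)]) (PF.cons (PF.leaf (nat_lit 8660817) (nat_lit 703413) (nat_lit 38878191) (nat_lit 9079057) [(nat_lit 703413), (nat_lit 1984054), (nat_lit 4116024), (nat_lit 0)]) PF.nil)) (PF.cons PF.nil PF.nil))) (PF.cons (PF.cons (PF.cons (PF.leaf (nat_lit 8743561) (nat_lit 4070666) (nat_lit 37809158) (nat_lit 8946321) [(nat_lit 0), (nat_lit 0), (nat_lit 4070666), (nat_lit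 0)]) (PF.cons PF.nil PF.nil)) (PF.cons PF.nil PF.nil)) (PF.cons PF.nil (PF.cons PF.nil PF.nil)))))))) (PF.cons (PF.cons (PF.cons (PF.cons (PF.leaf (nat_lit 4198534) (nat_lit 8981021) (nat_lit 48472022) (nat_lit 9655768) [(nat_lit 0), (nat_lit 0), (nat_lit 0), (nat_lit 8981021)]) (PF.cons (PF.leaf (nat_lit 4507360) (nat_lit 567732) (nat_lit 47919013) (nat_lit 9645692) [(nat_lit 567732), (nat_lit 0), (nat_lit 0), (nat_lit 8976374)]) (PF.cons (PF.leaf (nat_lit 4842522) (nat_lit 592258) (nat_lit 47325304) (nat_lit 9631240) [(nat_lit 592258), (nat_lit 0), (nat_lit 0), (nat_lit 8967750)]) (PF.cons (PF.leaf (nat_lit 5198275)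
 (nat_lit 613467) (nat_lit 46701453) (nat_lit 9612154) [(nat_lit 613467), (nat_lit 0), (nat_lit 0), (nat_lit 8954803)]) (PF.cons (PF.leaf (nat_lit 5570616) (nat_lit 631977) (nat_lit 46055228) (nat_lit 9588320) [(nat_lit 631977), (nat_lit 0), (nat_lit 0), (nat_lit 8937355)]) (PF.cons (PF.leaf (nat_lit 5956358) (nat_lit 648213) (nat_lit 45392662) (nat_lit 9559730) [(nat_lit 648213), (nat_lit 0), (nat_lit 0), (nat_lit 8915353)]) (PF.cons (PF.leaf (nat_lit 6352905) (nat_lit 662484) (nat_lit 44718599) (nat_lit 9526466) [(nat_lit 662484), (nat_lit 0), (nat_lit 0), (nat_lit 8888840)]) (PF.cons (PF.leaf (nat_lit 6758085) (nat_lit 675027) (nat_lit 44037021) (nat_lit 9488670) [(nat_lit 675027), (nat_lit 0), (nat_lit 0), (nat_lit 8857931)]) (PF.cons (PF.leaf (nat_lit 7169993) (nat_lit 686029) (nat_lit 43351244) (nat_lit 9446535) [(nat_lit 686029), (nat_lit 0), (nat_lit 0), (nat_lit 8822793)]) (PF.cons PF.nil PF.nil)))))))))) (PF.cons (PF.cons (PF.leaf (nat_lit 4956777) (nat_lit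 1845490) (nat_lit 46711660) (nat_lit 9604710) [(nat_lit 0), (nat_lit 1845490), (nat_lit 0), (nat_lit 8946951)]) (PF.cons (PF.leaf (nat_lit 5299961) (nat_lit 614357) (nat_lit 46109232) (nat_lit 9582874) [(nat_lit
 614357), (nat_lit 1871251), (nat_lit 0), (nat_lit 8931095)]) (PF.cons (PF.leaf (nat_lit 5661752) (nat_lit 632684) (nat_lit 45481679) (nat_lit 9556421) [(nat_lit 632684), (nat_lit 1894438), (nat_lit 0), (nat_lit 8910903)]) (PF.cons (PF.leaf (nat_lit 6038128) (nat_lit 648666) (nat_lit 44836071) (nat_lit 9525379) [(nat_lit 648666), (nat_lit 1915017), (nat_lit 0), (nat_lit 8886345)]) (PF.cons (PF.leaf (nat_lit 6426145) (nat_lit 662651) (nat_lit 44177841) (nat_lit 9489848) [(nat_lit 662651), (nat_lit 1933042), (nat_lit 0), (nat_lit 8857476)]) (PF.cons (PF.leaf (nat_lit 6823414) (nat_lit 674897) (nat_lit 43511316) (nat_lit 9449983) [(nat_lit 674897), (nat_lit 1948611), (nat_lit 0), (nat_lit 8824415)]) (PF.cons (PF.leaf (nat_lit 7227901) (nat_lit 685605) (nat_lit 42840022)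 (nat_lit 9405980) [(nat_lit 685605), (nat_lit 1961843), (nat_lit 0), (nat_lit 8787333)]) (PF.cons (PF.leaf (nat_lit 7637894) (nat_lit 694938) (nat_lit 42166875) (nat_lit 9358067) [(nat_lit 694938), (nat_lit 1972867), (nat_lit 0), (nat_lit 8746431)]) (PF.cons PF.nil PF.nil))))))))) (PF.cons (PF.cons (PF.leaf (nat_lit 5755948) (nat_lit 1899906) (nat_lit 44905502) (nat_lit 9521735) [(nat_lit 0), (nat_lit 1899906),
 (nat_lit 0), (nat_lit 8881762)]) (PF.cons (PF.leaf (nat_lit 6121602) (nat_lit 648457) (nat_lit 44279265) (nat_lit 9488609) [(nat_lit 648457), (nat_lit 1918745), (nat_lit 0), (nat_lit 8854988)]) (PF.cons (PF.leaf (nat_lit 6500317) (nat_lit 662272) (nat_lit 43638551) (nat_lit 9451128) [(nat_lit 662272), (nat_lit 1935263), (nat_lit 0), (nat_lit 8824060)]) (PF.cons (PF.leaf (nat_lit 6889143) (nat_lit 674309) (nat_lit 42988283) (nat_lit 9409471) [(nat_lit 674309), (nat_lit 1949507), (nat_lit 0), (nat_lit 8789112)]) (PF.cons (PF.leaf (nat_lit 7285840) (nat_lit 684792)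 (nat_lit 42332345) (nat_lit 9363846) [(nat_lit 684792), (nat_lit 1961566), (nat_lit 0), (nat_lit 8750319)]) (PF.cons (PF.leaf (nat_lit 7688550) (nat_lit 693895) (nat_lit 41673874) (nat_lit 9314483) [(nat_lit 693895), (nat_lit 1971546), (nat_lit 0), (nat_lit 8707885)]) (PF.cons PF.nil PF.nil))))))) (PF.cons (PF.cons (PF.leaf (nat_lit 6576526) (nat_lit 1936748) (nat_lit 43099673) (nat_lit 9410297) [(nat_lit 0), (nat_lit 1936748), (nat_lit 0), (nat_lit 8788597)]) (PF.cons (PF.leaf (nat_lit 6955965) (nat_lit 673237) (nat_lit 42467173) (nat_lit 9367149) [(nat_lit 673237), (nat_lit 1949736), (nat_lit 0), (nat_lit 8752042)])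
 (PF.cons (PF.leaf (nat_lit 7344352) (nat_lit 683572) (nat_lit 41827658) (nat_lit 9320160) [(nat_lit 683572), (nat_lit 1960688), (nat_lit 0), (nat_lit 8711783)]) (PF.cons (PF.leaf (nat_lit 7739419) (nat_lit 692507) (nat_lit 41184626) (nat_lit 9269574) [(nat_lit 692507), (nat_lit 1969685), (nat_lit 0), (nat_lit 8668031)]) (PF.cons (PF.leaf (nat_lit 8139450) (nat_lit 700198) (nat_lit 40540878) (nat_lit 9215645) [(nat_lit 700198), (nat_lit 1976827), (nat_lit 0), (nat_lit 8621013)]) PF.nil))))) (PF.cons (PF.cons (PF.leaf (nat_lit 7404277) (nat_lit 1959237) (nat_lit 41325210) (nat_lit 9274922) [(nat_lit 0), (nat_lit 1959237), (nat_lit 0), (nat_lit 8671730)]) (PF.cons (PF.leaf (nat_lit 7791019) (nat_lit 690757) (nat_lit 40698568) (nat_lit 9223354) [(nat_lit 690757), (nat_lit 1967311), (nat_lit 0), (nat_lit 8626887)]) (PF.cons (PF.leaf (nat_lit 8183579) (nat_lit 698327) (nat_lit 40070171) (nat_lit 9168554) [(nat_lit 698327), (nat_lit 1973632), (nat_lit 0), (nat_lit 8578899)])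 (PF.cons PF.nil PF.nil)))) (PF.cons (PF.cons (PF.leaf (nat_lit 8228760) (nat_lit 1969997) (nat_lit 39602766) (nat_lit 9120359) [(nat_lit 0), (nat_lit 1969997), (nat_lit 0), (nat_lit 8535698)]) (PF.cons (PF.leaf
 (nat_lit 8617926) (nat_lit 702496) (nat_lit 38990256) (nat_lit 9062030) [(nat_lit 702496), (nat_lit 1973978), (nat_lit 0), (nat_lit 8484137)]) PF.nil)) (PF.cons PF.nil (PF.cons PF.nil PF.nil)))))))) (PF.cons (PF.cons (PF.cons (PF.leaf (nat_lit 5503983) (nat_lit 4088388) (nat_lit 44689975) (nat_lit 9484474) [(nat_lit 0), (nat_lit 0), (nat_lit 4088388), (nat_lit 8845974)]) (PF.cons (PF.leaf (nat_lit 5846438) (nat_lit 626374) (nat_lit 44107386) (nat_lit 9453764) [(nat_lit 626374), (nat_lit 0), (nat_lit 4100016), (nat_lit 8821271)]) (PF.cons (PF.leaf (nat_lit 6205880) (nat_lit 642744) (nat_lit 43503026) (nat_lit 9418694) [(nat_lit 642744), (nat_lit 0), (nat_lit 4109132), (nat_lit 8792468)]) (PF.cons (PF.leaf (nat_lit 6578401) (nat_lit 656845) (nat_lit 42883566) (nat_lit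 9379441) [(nat_lit 656845), (nat_lit 0), (nat_lit 4115584), (nat_lit 8759684)]) (PF.cons (PF.leaf (nat_lit 6961178) (nat_lit 669041) (nat_lit 42254043) (nat_lit 9336202) [(nat_lit 669041), (nat_lit 0), (nat_lit 4119328), (nat_lit 8723072)]) (PF.cons (PF.leaf (nat_lit 7351941) (nat_lit 679599) (nat_lit 41618408) (nat_lit 9289198) [(nat_lit 679599), (nat_lit 0), (nat_lit 4120394), (nat_lit 8682815)]) (PF.cons (PF.leaf
 (nat_lit 7748829) (nat_lit 688722) (nat_lit 40979835) (nat_lit 9238662) [(nat_lit 688722), (nat_lit 0), (nat_lit 4118857), (nat_lit 8639120)]) (PF.cons PF.nil (PF.cons PF.nil PF.nil))))))))) (PF.cons (PF.cons (PF.leaf (nat_lit 6290840) (nat_lit 1911285) (nat_lit 42957221) (nat_lit 9377692) [(nat_lit 0), (nat_lit 1911285), (nat_lit 4105659), (nat_lit 8756954)]) (PF.cons (PF.leaf (nat_lit 6652661) (nat_lit 655510) (nat_lit 42357335) (nat_lit 9337131) [(nat_lit 655510), (nat_lit 1925952), (nat_lit 4110164), (nat_lit 8722719)]) (PF.cons (PF.leaf (nat_lit 7026225)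 (nat_lit 667659) (nat_lit 41745407) (nat_lit 9292655) [(nat_lit 667659), (nat_lit 1938508), (nat_lit 4112174), (nat_lit 8684747)]) (PF.cons (PF.leaf (nat_lit 7408697) (nat_lit 678115) (nat_lit 41125989) (nat_lit 9244514) [(nat_lit 678115), (nat_lit 1949024), (nat_lit 4111692), (nat_lit 8643245)]) (PF.cons (PF.leaf (nat_lit 7797977) (nat_lit 687108) (nat_lit 40502621) (nat_lit 9192958) [(nat_lit 687108), (nat_lit 1957596), (nat_lit 4108772), (nat_lit 8598430)]) (PF.cons (PF.leaf (nat_lit 8192336) (nat_lit 694815) (nat_lit 39878125) (nat_lit 9138241) [(nat_lit 694815), (nat_lit 1964333), (nat_lit 4103503), (nat_lit 8550530)])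
 (PF.cons PF.nil PF.nil))))))) (PF.cons (PF.cons (PF.leaf (nat_lit 7093584) (nat_lit 1937562) (nat_lit 41237578) (nat_lit 9247391) [(nat_lit 0), (nat_lit 1937562), (nat_lit 4103961), (nat_lit 8644755)]) (PF.cons (PF.leaf (nat_lit 7466834) (nat_lit 676198) (nat_lit 40635715) (nat_lit 9198387) [(nat_lit 676198), (nat_lit 1947096), (nat_lit 4102053), (nat_lit 8602264)]) (PF.cons (PF.leaf (nat_lit 7848002) (nat_lit 685134) (nat_lit 40028483) (nat_lit 9146042) [(nat_lit 685134), (nat_lit 1954804), (nat_lit 4097860), (nat_lit 8556547)]) (PF.cons (PF.leaf (nat_lit 8234948) (nat_lit 692754) (nat_lit 39419065) (nat_lit 9090627) [(nat_lit 692754), (nat_lit 1960776), (nat_lit 4091458), (nat_lit 8507844)]) (PF.cons PF.nil PF.nil))))) (PF.cons (PF.cons (PF.leaf (nat_lit 7899704) (nat_lit 1951547) (nat_lit 39556677) (nat_lit 9097892) [(nat_lit 0), (nat_lit 1951547), (nat_lit 4086144), (nat_lit 8513456)]) (PF.cons (PF.leaf (nat_lit 8278560) (nat_lit 690371) (nat_lit 38963175) (nat_lit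 9041993) [(nat_lit 690371), (nat_lit 1956803), (nat_lit 4078708), (nat_lit 8464153)]) (PF.cons (PF.leaf (nat_lit 8662470) (nat_lit 696782) (nat_lit 38368925) (nat_lit 8983354) [(nat_lit 696782), (nat_lit 1960504),
 (nat_lit 4069275), (nat_lit 8412177)]) (PF.cons PF.nil PF.nil)))) (PF.cons (PF.cons (PF.leaf (nat_lit 8700169) (nat_lit 1955542) (nat_lit 37931067) (nat_lit 8933450) [(nat_lit 0), (nat_lit 1955542), (nat_lit 4055007), (nat_lit 8367117)]) (PF.cons PF.nil PF.nil)) (PF.cons PF.nil PF.nil)))))) (PF.cons (PF.cons (PF.cons (PF.leaf (nat_lit 6802307) (nat_lit 4078976) (nat_lit 41118346) (nat_lit 9217150) [(nat_lit 0), (nat_lit 0), (nat_lit 4078976), (nat_lit 8615363)]) (PF.cons (PF.leaf (nat_lit 7159309) (nat_lit 659428) (nat_lit 40546163) (nat_lit 9170966) [(nat_lit 659428), (nat_lit 0), (nat_lit 4078412), (nat_lit 8575429)]) (PF.cons (PF.leaf (nat_lit 7526947) (nat_lit 670138) (nat_lit 39963886) (nat_lit 9121275) [(nat_lit 670138), (nat_lit 0), (nat_lit 4075613),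 (nat_lit 8532147)]) (PF.cons (PF.leaf (nat_lit 7902492) (nat_lit 679237) (nat_lit 39375720) (nat_lit 9068374) [(nat_lit 679237), (nat_lit 0), (nat_lit 4070618), (nat_lit 8485770)]) (PF.cons (PF.leaf (nat_lit 8283963) (nat_lit 686958) (nat_lit 38784894) (nat_lit 9012539) [(nat_lit 686958), (nat_lit 0), (nat_lit 4063500), (nat_lit 8436543)]) (PF.cons PF.nil (PF.cons PF.nil PF.nil))))))) (PF.cons (PF.cons (PF.leaf (nat_lit
 7586217) (nat_lit 1931541) (nat_lit 39486461) (nat_lit 9073002) [(nat_lit 0), (nat_lit 1931541), (nat_lit 4064394), (nat_lit 8489018)]) (PF.cons (PF.leaf (nat_lit 7952751) (nat_lit 676656) (nat_lit 38915372) (nat_lit 9019739) [(nat_lit 676656), (nat_lit 1938219), (nat_lit 4058340), (nat_lit 8442144)]) (PF.cons (PF.leaf (nat_lit 8326344) (nat_lit 684395) (nat_lit 38340172) (nat_lit 8963570) [(nat_lit 684395), (nat_lit 1943256), (nat_lit 4050280), (nat_lit 8392463)]) (PF.cons (PF.leaf (nat_lit 8704963) (nat_lit 690895) (nat_lit 37763763) (nat_lit 8904781)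 [(nat_lit 690895), (nat_lit 1946746), (nat_lit 4040301), (nat_lit 8340230)]) (PF.cons PF.nil PF.nil))))) (PF.cons (PF.cons (PF.leaf (nat_lit 8370624) (nat_lit 1938599) (nat_lit 37897756) (nat_lit 8913617) [(nat_lit 0), (nat_lit 1938599), (nat_lit 4036410), (nat_lit 8347418)]) (PF.cons (PF.leaf (nat_lit 8741410) (nat_lit 688021) (nat_lit 37336630) (nat_lit 8854736) [(nat_lit 688021), (nat_lit 1941543), (nat_lit 4025682), (nat_lit 8294970)]) (PF.cons PF.nil (PF.cons PF.nil PF.nil)))) (PF.cons (PF.cons (PF.leaf (nat_lit 9147651) (nat_lit 1937129) (nat_lit 36365561) (nat_lit 8742766) [(nat_lit 0), (nat_lit 1937129), (nat_lit 3997467),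
 (nat_lit 8194162)]) (PF.cons PF.nil PF.nil)) (PF.cons PF.nil PF.nil))))) (PF.cons (PF.cons (PF.cons (PF.leaf (nat_lit 8055739) (nat_lit 4016583) (nat_lit 37842302) (nat_lit 8891303) [(nat_lit 0), (nat_lit 0), (nat_lit 4016583), (nat_lit 8325456)]) (PF.cons (PF.leaf (nat_lit 8415223) (nat_lit 675107) (nat_lit 37301462) (nat_lit 8835063) [(nat_lit 675107), (nat_lit 0), (nat_lit 4007242), (nat_lit 8275452)]) (PF.cons (PF.leaf (nat_lit 8781064) (nat_lit 681818) (nat_lit 36757470) (nat_lit 8776295) [(nat_lit 681818), (nat_lit 0), (nat_lit 3996136), (nat_lit 8223002)]) (PF.cons (PF.leaf (nat_lit 9151303) (nat_lit 687364) (nat_lit 36212978) (nat_lit 8715290) [(nat_lit 687364), (nat_lit 0), (nat_lit 3983360), (nat_lit 8168369)]) (PF.cons PF.nil PF.nil))))) (PF.cons (PF.cons (PF.leaf (nat_lit 8818667) (nat_lit 1921578) (nat_lit 36342926) (nat_lit 8725397) [(nat_lit 0), (nat_lit 1921578), (nat_lit 3980689), (nat_lit 8176844)]) (PF.cons (PF.leaf (nat_lit 9181355) (nat_lit 684112)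 (nat_lit 35812992) (nat_lit 8664603) [(nat_lit 684112), (nat_lit 1922627), (nat_lit 3967393), (nat_lit 8122297)]) (PF.cons PF.nil (PF.cons PF.nil PF.nil)))) (PF.cons (PF.cons (PF.leaf (nat_lit 9573010) (nat_lit
 1915704) (nat_lit 34899843) (nat_lit 8550853) [(nat_lit 0), (nat_lit 1915704), (nat_lit 3935790), (nat_lit 8019334)]) (PF.cons PF.nil PF.nil)) PF.nil))) (PF.cons (PF.cons (PF.cons (PF.leaf (nat_lit 9245446) (nat_lit 3920683) (nat_lit 34886107) (nat_lit 8535756) [(nat_lit 0), (nat_lit 0), (nat_lit 3920683), (nat_lit 8004214)]) (PF.cons (PF.leaf (nat_lit 9600069) (nat_lit 678974) (nat_lit 34385928) (nat_lit 8473892) [(nat_lit 678974), (nat_lit 0), (nat_lit 3905405), (nat_lit 7948395)]) PF.nil)) (PF.cons PF.nil PF.nil)) (PF.cons PF.nil PF.nil)))))) (PF.cons (PF.cons (PF.cons (PF.cons (PF.leaf (nat_lit 6185086) (nat_lit 8521396) (nat_lit 40943783) (nat_lit 9122236) [(nat_lit 0), (nat_lit 0), (nat_lit 0), (nat_lit 8521396)]) (PF.cons (PF.leaf (nat_lit 6514919) (nat_lit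 619911) (nat_lit 40427679) (nat_lit 9083768) [(nat_lit 619911), (nat_lit 0), (nat_lit 0), (nat_lit 8488726)]) (PF.cons (PF.leaf (nat_lit 6860182) (nat_lit 634529) (nat_lit 39893317) (nat_lit 9041491) [(nat_lit 634529), (nat_lit 0), (nat_lit 0), (nat_lit 8452471)]) (PF.cons (PF.leaf (nat_lit 7217122) (nat_lit 646933) (nat_lit 39346534) (nat_lit 8995714) [(nat_lit 646933), (nat_lit 0), (nat_lit 0), (nat_lit 8412882)])
 (PF.cons (PF.leaf (nat_lit 7583114) (nat_lit 657505) (nat_lit 38791692) (nat_lit 8946713) [(nat_lit 657505), (nat_lit 0), (nat_lit 0), (nat_lit 8370192)]) (PF.cons (PF.leaf (nat_lit 7956043) (nat_lit 666527) (nat_lit 38232168) (nat_lit 8894750) [(nat_lit 666527), (nat_lit 0), (nat_lit 0), (nat_lit 8324628)]) (PF.cons (PF.leaf (nat_lit 8334202) (nat_lit 674210) (nat_lit 37670648) (nat_lit 8840074) [(nat_lit 674210), (nat_lit 0), (nat_lit 0), (nat_lit 8276415)]) (PF.cons PF.nil (PF.cons PF.nil PF.nil))))))))) (PF.cons (PF.cons (PF.leaf (nat_lit 6933089) (nat_lit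 1873577) (nat_lit 39415385) (nat_lit 8995821) [(nat_lit 0), (nat_lit 1873577), (nat_lit 0), (nat_lit 8412014)]) (PF.cons (PF.leaf (nat_lit 7279720) (nat_lit 644638) (nat_lit 38886319) (nat_lit 8949635) [(nat_lit 644638), (nat_lit 1884501), (nat_lit 0), (nat_lit 8371858)]) (PF.cons (PF.leaf (nat_lit 7636909) (nat_lit 655268) (nat_lit 38347323) (nat_lit 8900217) [(nat_lit 655268), (nat_lit 1893507), (nat_lit 0), (nat_lit 8328614)]) (PF.cons (PF.leaf (nat_lit 8001996) (nat_lit 664284) (nat_lit 37802322) (nat_lit 8847863) [(nat_lit 664284), (nat_lit 1900696), (nat_lit 0), (nat_lit 8282538)]) (PF.cons (PF.leaf (nat_lit 8373025)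
 (nat_lit 671924) (nat_lit 37254338) (nat_lit 8792845) [(nat_lit 671924), (nat_lit 1906183), (nat_lit 0), (nat_lit 8233873)]) (PF.cons (PF.leaf (nat_lit 8748427) (nat_lit 678373) (nat_lit 36705754) (nat_lit 8735417) [(nat_lit 678373), (nat_lit 1910084), (nat_lit 0), (nat_lit 8182845)]) (PF.cons PF.nil PF.nil))))))) (PF.cons (PF.cons (PF.leaf (nat_lit 7693336) (nat_lit 1890439) (nat_lit 37903740) (nat_lit 8852498) [(nat_lit 0), (nat_lit 1890439), (nat_lit 0), (nat_lit 8285847)]) (PF.cons (PF.leaf (nat_lit 8049664) (nat_lit 661667) (nat_lit 37374376) (nat_lit 8799982) [(nat_lit 661667), (nat_lit 1896919), (nat_lit 0), (nat_lit 8239474)]) (PF.cons (PF.leaf (nat_lit 8413074) (nat_lit 669334) (nat_lit 36840693) (nat_lit 8744811) [(nat_lit 669334), (nat_lit 1901787), (nat_lit 0), (nat_lit 8190531)]) (PF.cons (PF.leaf (nat_lit 8781570) (nat_lit 675773) (nat_lit 36305404) (nat_lit 8687259) [(nat_lit 675773), (nat_lit 1905145), (nat_lit 0), (nat_lit 8139269)]) (PF.cons PF.nil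 PF.nil))))) (PF.cons (PF.cons (PF.leaf (nat_lit 8455111) (nat_lit 1897047) (nat_lit 36429032) (nat_lit 8695926) [(nat_lit 0), (nat_lit 1897047), (nat_lit 0), (nat_lit 8146355)]) (PF.cons (PF.leaf (nat_lit 8816026)
 (nat_lit 672898) (nat_lit 35907737) (nat_lit 8638425) [(nat_lit 672898), (nat_lit 1899903), (nat_lit 0), (nat_lit 8095020)]) (PF.cons (PF.leaf (nat_lit 9181450) (nat_lit 678283) (nat_lit 35385957) (nat_lit 8578810) [(nat_lit 678283), (nat_lit 1901413), (nat_lit 0), (nat_lit 8041617)]) (PF.cons PF.nil PF.nil)))) (PF.cons (PF.cons (PF.leaf (nat_lit 9210810) (nat_lit 1895470) (nat_lit 35003936) (nat_lit 8529477) [(nat_lit 0), (nat_lit 1895470), (nat_lit 0), (nat_lit 7996758)]) (PF.cons PF.nil PF.nil)) (PF.cons PF.nil PF.nil)))))) (PF.cons (PF.cons (PF.cons (PF.leaf (nat_lit 7404264) (nat_lit 3954345) (nat_lit 37809625) (nat_lit 8825589) [(nat_lit 0), (nat_lit 0), (nat_lit 3954345), (nat_lit 8259626)]) (PF.cons (PF.leaf (nat_lit 7745902) (nat_lit 645788) (nat_lit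 37305704) (nat_lit 8776023) [(nat_lit 645788), (nat_lit 0), (nat_lit 3949382), (nat_lit 8215956)]) (PF.cons (PF.leaf (nat_lit 8097200) (nat_lit 655213) (nat_lit 36793316) (nat_lit 8723547) [(nat_lit 655213), (nat_lit 0), (nat_lit 3942509), (nat_lit 8169505)]) (PF.cons (PF.leaf (nat_lit 8455584) (nat_lit 663108) (nat_lit 36276086) (nat_lit 8668484) [(nat_lit 663108), (nat_lit 0), (nat_lit 3933798), (nat_lit 8120557)]) (PF.cons
 (PF.leaf (nat_lit 8819219) (nat_lit 669711) (nat_lit 35756777) (nat_lit 8611117) [(nat_lit 669711), (nat_lit 0), (nat_lit 3923341), (nat_lit 8069365)]) (PF.cons PF.nil (PF.cons PF.nil PF.nil))))))) (PF.cons (PF.cons (PF.leaf (nat_lit 8146815) (nat_lit 1878680) (nat_lit 36376309) (nat_lit 8674445) [(nat_lit 0), (nat_lit 1878680), (nat_lit 3928992), (nat_lit 8125192)]) (PF.cons (PF.leaf (nat_lit 8496680) (nat_lit 660021) (nat_lit 35874132) (nat_lit 8619550) [(nat_lit 660021), (nat_lit 1882951), (nat_lit 3919609), (nat_lit 8076273)]) (PF.cons (PF.leaf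 (nat_lit 8852937) (nat_lit 666707) (nat_lit 35368540) (nat_lit 8562327) [(nat_lit 666707), (nat_lit 1885770), (nat_lit 3908556), (nat_lit 8025101)]) (PF.cons (PF.leaf (nat_lit 9213678) (nat_lit 672236) (nat_lit 34862017) (nat_lit 8503056) [(nat_lit 672236), (nat_lit 1887239), (nat_lit 3895932), (nat_lit 7971929)]) (PF.cons PF.nil PF.nil))))) (PF.cons (PF.cons (PF.leaf (nat_lit 8888809) (nat_lit 1880070) (nat_lit 34982193) (nat_lit 8512851) [(nat_lit 0), (nat_lit 1880070), (nat_lit 3893303), (nat_lit 7980162)]) (PF.cons (PF.leaf (nat_lit 9242228) (nat_lit 669022) (nat_lit 34489010) (nat_lit 8453884) [(nat_lit 669022), (nat_lit 1881163),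
 (nat_lit 3880227), (nat_lit 7927170)]) (PF.cons PF.nil (PF.cons PF.nil PF.nil)))) (PF.cons (PF.cons (PF.leaf (nat_lit 9623522) (nat_lit 1874436) (nat_lit 33637639) (nat_lit 8343789) [(nat_lit 0), (nat_lit 1874436), (nat_lit 3849299), (nat_lit 7827386)]) (PF.cons PF.nil PF.nil)) (PF.cons PF.nil PF.nil))))) (PF.cons (PF.cons (PF.cons (PF.leaf (nat_lit 8580359) (nat_lit 3875658) (nat_lit 34941175) (nat_lit 8493746) [(nat_lit 0), (nat_lit 0), (nat_lit 3875658), (nat_lit 7961287)]) (PF.cons (PF.leaf (nat_lit 8923580) (nat_lit 656911) (nat_lit 34465334) (nat_lit 8437327) [(nat_lit 656911), (nat_lit 0), (nat_lit 3863955), (nat_lit 7910664)]) (PF.cons (PF.leaf (nat_lit 9272617) (nat_lit 662750) (nat_lit 33986777) (nat_lit 8378863) [(nat_lit 662750), (nat_lit 0), (nat_lit 3850775), (nat_lit 7858060)]) (PF.cons PF.nil PF.nil)))) (PF.cons (PF.cons (PF.leaf (nat_lit 9302941) (nat_lit 1860314) (nat_lit 33624248) (nat_lit 8329335) [(nat_lit 0), (nat_lit 1860314), (nat_lit 3834566),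 (nat_lit 7812891)]) (PF.cons (PF.leaf (nat_lit 9648903) (nat_lit 664028) (nat_lit 33157906) (nat_lit 8269605) [(nat_lit 664028), (nat_lit 1859958), (nat_lit 3819719), (nat_lit 7758937)]) PF.nil)) (PF.cons PF.nil
 PF.nil))) (PF.cons (PF.cons (PF.cons (PF.leaf (nat_lit 9698860) (nat_lit 3773371) (nat_lit 32349559) (nat_lit 8146943) [(nat_lit 0), (nat_lit 0), (nat_lit 3773371), (nat_lit 7646098)]) (PF.cons PF.nil PF.nil)) (PF.cons PF.nil PF.nil)) (PF.cons PF.nil PF.nil))))) (PF.cons (PF.cons (PF.cons (PF.cons (PF.leaf (nat_lit 7947257) (nat_lit 7908810) (nat_lit 34940638) (nat_lit 8441744) [(nat_lit 0), (nat_lit 0), (nat_lit 0), (nat_lit 7908810)]) (PF.cons (PF.leaf (nat_lit 8274704) (nat_lit 630240) (nat_lit 34495488) (nat_lit 8391349) [(nat_lit 630240), (nat_lit 0), (nat_lit 0), (nat_lit 7863911)]) (PF.cons (PF.leaf (nat_lit 8611052) (nat_lit 638662) (nat_lit 34043045) (nat_lit 8338486) [(nat_lit 638662), (nat_lit 0), (nat_lit 0), (nat_lit 7816652)]) (PF.cons (PF.leaf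 (nat_lit 8953849) (nat_lit 645629) (nat_lit 33586455) (nat_lit 8283485) [(nat_lit 645629), (nat_lit 0), (nat_lit 0), (nat_lit 7767327)]) (PF.cons (PF.leaf (nat_lit 9301385) (nat_lit 651380) (nat_lit 33128100) (nat_lit 8226624) [(nat_lit 651380), (nat_lit 0), (nat_lit 0), (nat_lit 7716188)]) PF.nil))))) (PF.cons (PF.cons (PF.leaf (nat_lit 8653013) (nat_lit 1822842) (nat_lit 33677257) (nat_lit 8290242) [(nat_lit 0), (nat_lit
 1822842), (nat_lit 0), (nat_lit 7772823)]) (PF.cons (PF.leaf (nat_lit 8987750) (nat_lit 642243) (nat_lit 33233875) (nat_lit 8235723) [(nat_lit 642243), (nat_lit 1825435), (nat_lit 0), (nat_lit 7723845)]) (PF.cons (PF.leaf (nat_lit 9328363) (nat_lit 648124) (nat_lit 32787516) (nat_lit 8179287) [(nat_lit 648124), (nat_lit 1826731), (nat_lit 0), (nat_lit 7673009)]) (PF.cons PF.nil PF.nil)))) (PF.cons (PF.cons (PF.leaf (nat_lit 9357670) (nat_lit 1820457) (nat_lit 32448423) (nat_lit 8131452) [(nat_lit 0), (nat_lit 1820457), (nat_lit 0), (nat_lit 7629340)])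 (PF.cons (PF.leaf (nat_lit 9695487) (nat_lit 649525) (nat_lit 32012859) (nat_lit 8073901) [(nat_lit 649525), (nat_lit 1820302), (nat_lit 0), (nat_lit 7577306)]) PF.nil)) (PF.cons PF.nil (PF.cons PF.nil PF.nil))))) (PF.cons (PF.cons (PF.cons (PF.leaf (nat_lit 9056424) (nat_lit 3735727) (nat_lit 32418403) (nat_lit 8115156) [(nat_lit 0), (nat_lit 0), (nat_lit 3735727), (nat_lit 7613175)]) (PF.cons (PF.leaf (nat_lit 9384937) (nat_lit 638167) (nat_lit 31997764) (nat_lit 8060010) [(nat_lit 638167), (nat_lit 0), (nat_lit 3722717), (nat_lit 7563384)]) (PF.cons (PF.leaf (nat_lit 9718864) (nat_lit 643337) (nat_lit 31574680) (nat_lit 8003167)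
 [(nat_lit 643337), (nat_lit 0), (nat_lit 3708447), (nat_lit 7511947)]) (PF.cons PF.nil PF.nil)))) (PF.cons (PF.cons (PF.leaf (nat_lit 9743492) (nat_lit 1799330) (nat_lit 31255891) (nat_lit 7955792) [(nat_lit 0), (nat_lit 1799330), (nat_lit 3692105), (nat_lit 7468564)]) (PF.cons PF.nil PF.nil)) (PF.cons PF.nil PF.nil))) (PF.cons (PF.cons (PF.cons (PF.leaf (nat_lit 10113531) (nat_lit 3631506) (nat_lit 30134057) (nat_lit 7782659) [(nat_lit 0), (nat_lit 0), (nat_lit 3631506), (nat_lit 7309694)]) (PF.cons PF.nil PF.nil)) (PF.cons PF.nil PF.nil)) PF.nil))) (PF.cons (PF.cons (PF.cons (PF.cons (PF.leaf (nat_lit 9493098) (nat_lit 7284676) (nat_lit 30211184) (nat_lit 7758922) [(nat_lit 0), (nat_lit 0), (nat_lit 0), (nat_lit 7284676)]) (PF.cons (PF.leaf (nat_lit 9808267) (nat_lit 619473) (nat_lit 29837441) (nat_lit 7705829) [(nat_lit 619473), (nat_lit 0), (nat_lit 0), (nat_lit 7236517)]) (PF.cons PF.nil PF.nil))) (PF.cons (PF.cons (PF.leaf (nat_lit 10148637) (nat_lit 1739896) (nat_lit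 29179526) (nat_lit 7606425) [(nat_lit 0), (nat_lit 1739896), (nat_lit 0), (nat_lit 7145741)]) PF.nil) PF.nil)) (PF.cons PF.nil PF.nil)) (PF.cons PF.nil (PF.cons PF.nil (PF.cons PF.nil (PF.cons PF.nil
 PF.nil)))))))))

def p15_32_1_0 : pfC (piC [(nat_lit 35065580), (nat_lit 23538785), (nat_lit 17602610), (nat_lit 11874437)] (nat_lit 10788098)) p15_32_1 (nat_lit 4) (nat_lit 0) (nat_lit 1) = true := by decide +kernel
def p15_32_1_1 : pfC (piC [(nat_lit 35065580), (nat_lit 23538785), (nat_lit 17602610), (nat_lit 11874437)] (nat_lit 10788098)) p15_32_1 (nat_lit 4) (nat_lit 1) (nat_lit 2) = true := by decide +kernel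
def p15_32_1_2 : pfC (piC [(nat_lit 35065580), (nat_lit 23538785), (nat_lit 17602610), (nat_lit 11874437)] (nat_lit 10788098)) p15_32_1 (nat_lit 4) (nat_lit 2) (nat_lit 3) = true := by decide +kernel
def p15_32_1_3 : pfC (piC [(nat_lit 35065580), (nat_lit 23538785), (nat_lit 17602610), (nat_lit 11874437)] (nat_lit 10788098)) p15_32_1 (nat_lit 4) (nat_lit 3) (nat_lit 4) = true := by decide +kernel
def p15_32_1_4 : pfC (piC [(nat_lit 35065580), (nat_lit 23538785), (nat_lit 17602610), (nat_lit 11874437)] (nat_lit 10788098)) p15_32_1 (nat_lit 4) (nat_lit 4) (nat_lit 5) = true := by decide +kernel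
def p15_32_1_5 : pfC (piC [(nat_lit 35065580), (nat_lit 23538785), (nat_lit 17602610), (nat_lit 11874437)] (nat_lit 10788098)) p15_32_1 (nat_lit 4) (nat_lit 5) (nat_lit 6) = true := by decide +kernel
def p15_32_1_6 : pfC (piC [(nat_lit 35065580), (nat_lit 23538785), (nat_lit 17602610), (nat_lit 11874437)] (nat_lit 10788098)) p15_32_1 (nat_lit 4) (nat_lit 6) (nat_lit 7) = true := by decide +kernel
def p15_32_1_7 : pfC (piC [(nat_lit 35065580), (nat_lit 23538785), (nat_lit 17602610), (nat_lit 11874437)] (nat_lit 10788098)) p15_32_1 (nat_lit 4) (nat_lit 7) (nat_lit 8) = true := by decide +kernel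
def p15_32_1_8 : pfC (piC [(nat_lit 35065580), (nat_lit 23538785), (nat_lit 17602610), (nat_lit 11874437)] (nat_lit 10788098)) p15_32_1 (nat_lit 4) (nat_lit 8) (nat_lit 9) = true := by decide +kernel
def p15_32_1_9 : pfC (piC [(nat_lit 35065580), (nat_lit 23538785), (nat_lit 17602610), (nat_lit 11874437)] (nat_lit 10788098)) p15_32_1 (nat_lit 4) (nat_lit 9) (nat_lit 10) = true := by decide +kernel
def p15_32_1_10 : pfC (piC [(nat_lit 35065580), (nat_lit 23538785), (nat_lit 17602610), (nat_lit 11874437)] (nat_lit 10788098)) p15_32_1 (nat_lit 4) (nat_lit 10) (nat_lit 11) = true := by decide +kernel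
def p15_32_1_11 : pfC (piC [(nat_lit 35065580), (nat_lit 23538785), (nat_lit 17602610), (nat_lit 11874437)] (nat_lit 10788098)) p15_32_1 (nat_lit 4) (nat_lit 11) (nat_lit 12) = true := by decide +kernel
def p15_32_1_12 : pfC (piC [(nat_lit 35065580), (nat_lit 23538785), (nat_lit 17602610), (nat_lit 11874437)] (nat_lit 10788098)) p15_32_1 (nat_lit 4) (nat_lit 12) (nat_lit 13) = true := by decide +kernel
def p15_32_1_13 : pfC (piC [(nat_lit 35065580), (nat_lit 23538785), (nat_lit 17602610), (nat_lit 11874437)] (nat_lit 10788098)) p15_32_1 (nat_lit 4) (nat_lit 13) (nat_lit 14) = true := by decide +kernel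
def p15_32_1_14 : pfC (piC [(nat_lit 35065580), (nat_lit 23538785), (nat_lit 17602610), (nat_lit 11874437)] (nat_lit 10788098)) p15_32_1 (nat_lit 4) (nat_lit 14) (nat_lit 15) = true := by decide +kernel
def p15_32_1_15 : pfC (piC [(nat_lit 35065580), (nat_lit 23538785), (nat_lit 17602610), (nat_lit 11874437)] (nat_lit 10788098)) p15_32_1 (nat_lit 4) (nat_lit 15) (nat_lit 16) = true := by decide +kernel
def p15_32_1_16 : pfC (piC [(nat_lit 35065580), (nat_lit 23538785), (nat_lit 17602610), (nat_lit 11874437)] (nat_lit 10788098)) p15_32_1 (nat_lit 4) (nat_lit 16) (nat_lit 17) = true := by decide +kernel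
def p15_32_1_17 : pfC (piC [(nat_lit 35065580), (nat_lit 23538785), (nat_lit 17602610), (nat_lit 11874437)] (nat_lit 10788098)) p15_32_1 (nat_lit 4) (nat_lit 17) (nat_lit 18) = true := by decide +kernel
def p15_32_1_18 : pfC (piC [(nat_lit 35065580), (nat_lit 23538785), (nat_lit 17602610), (nat_lit 11874437)] (nat_lit 10788098)) p15_32_1 (nat_lit 4) (nat_lit 18) (nat_lit 19) = true := by decide +kernel
def p15_32_1_19 : pfC (piC [(nat_lit 35065580), (nat_lit 23538785), (nat_lit 17602610), (nat_lit 11874437)] (nat_lit 10788098)) p15_32_1 (nat_lit 4) (nat_lit 19) (nat_lit 20) = true := by decide +kernel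
def p15_32_1_20 : pfC (piC [(nat_lit 35065580), (nat_lit 23538785), (nat_lit 17602610), (nat_lit 11874437)] (nat_lit 10788098)) p15_32_1 (nat_lit 4) (nat_lit 20) (nat_lit 21) = true := by decide +kernel
def p15_32_1_21 : pfC (piC [(nat_lit 35065580), (nat_lit 23538785), (nat_lit 17602610), (nat_lit 11874437)] (nat_lit 10788098)) p15_32_1 (nat_lit 4) (nat_lit 21) (nat_lit 22) = true := by decide +kernel
def p15_32_1_22 : pfC (piC [(nat_lit 35065580), (nat_lit 23538785), (nat_lit 17602610), (nat_lit 11874437)] (nat_lit 10788098)) p15_32_1 (nat_lit 4) (nat_lit 22) (nat_lit 23) = true := by decide +kernel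
def p15_32_1_23 : pfC (piC [(nat_lit 35065580), (nat_lit 23538785), (nat_lit 17602610), (nat_lit 11874437)] (nat_lit 10788098)) p15_32_1 (nat_lit 4) (nat_lit 23) (nat_lit 24) = true := by decide +kernel
def p15_32_1_24 : pfC (piC [(nat_lit 35065580), (nat_lit 23538785), (nat_lit 17602610), (nat_lit 11874437)] (nat_lit 10788098)) p15_32_1 (nat_lit 4) (nat_lit 24) (nat_lit 25) = true := by decide +kernel
def p15_32_1_25 : pfC (piC [(nat_lit 35065580), (nat_lit 23538785), (nat_lit 17602610), (nat_lit 11874437)] (nat_lit 10788098)) p15_32_1 (nat_lit 4) (nat_lit 25) (nat_lit 26) = true := by decide +kernel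
def p15_32_1_26 : pfC (piC [(nat_lit 35065580), (nat_lit 23538785), (nat_lit 17602610), (nat_lit 11874437)] (nat_lit 10788098)) p15_32_1 (nat_lit 4) (nat_lit 26) (nat_lit 27) = true := by decide +kernel
def p15_32_1_27 : pfC (piC [(nat_lit 35065580), (nat_lit 23538785), (nat_lit 17602610), (nat_lit 11874437)] (nat_lit 10788098)) p15_32_1 (nat_lit 4) (nat_lit 27) (nat_lit 28) = true := by decide +kernel
def p15_32_1_28 : pfC (piC [(nat_lit 35065580), (nat_lit 23538785), (nat_lit 17602610), (nat_lit 11874437)] (nat_lit 10788098)) p15_32_1 (nat_lit 4) (nat_lit 28) (nat_lit 29) = true := by decide +kernel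
def p15_32_1_29 : pfC (piC [(nat_lit 35065580), (nat_lit 23538785), (nat_lit 17602610), (nat_lit 11874437)] (nat_lit 10788098)) p15_32_1 (nat_lit 4) (nat_lit 29) (nat_lit 30) = true := by decide +kernel
def p15_32_1_30 : pfC (piC [(nat_lit 35065580), (nat_lit 23538785), (nat_lit 17602610), (nat_lit 11874437)] (nat_lit 10788098)) p15_32_1 (nat_lit 4) (nat_lit 30) (nat_lit 31) = true := by decide +kernel
def p15_32_1_31 : pfC (piC [(nat_lit 35065580), (nat_lit 23538785), (nat_lit 17602610), (nat_lit 11874437)] (nat_lit 10788098)) p15_32_1 (nat_lit 4) (nat_lit 31) (nat_lit 32) = true := by decide +kernel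
def p15_32_1_32 : pfC (piC [(nat_lit 35065580), (nat_lit 23538785), (nat_lit 17602610), (nat_lit 11874437)] (nat_lit 10788098)) p15_32_1 (nat_lit 4) (nat_lit 32) (nat_lit 33) = true := by decide +kernel
def p15_32_1_33 : pfC (piC [(nat_lit 35065580), (nat_lit 23538785), (nat_lit 17602610), (nat_lit 11874437)] (nat_lit 10788098)) p15_32_1 (nat_lit 4) (nat_lit 33) (nat_lit 34) = true := by decide +kernel
def p15_32_1_34 : pfC (piC [(nat_lit 35065580), (nat_lit 23538785), (nat_lit 17602610), (nat_lit 11874437)] (nat_lit 10788098)) p15_32_1 (nat_lit 4) (nat_lit 34) (nat_lit 35) = true := by decide +kernel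
def p15_32_1_35 : pfC (piC [(nat_lit 35065580), (nat_lit 23538785), (nat_lit 17602610), (nat_lit 11874437)] (nat_lit 10788098)) p15_32_1 (nat_lit 4) (nat_lit 35) (nat_lit 36) = true := by decide +kernel
def p15_32_1_36 : pfC (piC [(nat_lit 35065580), (nat_lit 23538785), (nat_lit 17602610), (nat_lit 11874437)] (nat_lit 10788098)) p15_32_1 (nat_lit 4) (nat_lit 36) (nat_lit 37) = true := by decide +kernel
def p15_32_1_37 : pfC (piC [(nat_lit 35065580), (nat_lit 23538785), (nat_lit 17602610), (nat_lit 11874437)] (nat_lit 10788098)) p15_32_1 (nat_lit 4) (nat_lit 37) (nat_lit 38) = true := by decide +kernel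
def p15_32_1_38 : pfC (piC [(nat_lit 35065580), (nat_lit 23538785), (nat_lit 17602610), (nat_lit 11874437)] (nat_lit 10788098)) p15_32_1 (nat_lit 4) (nat_lit 38) (nat_lit 39) = true := by decide +kernel
def p15_32_1_39 : pfC (piC [(nat_lit 35065580), (nat_lit 23538785), (nat_lit 17602610), (nat_lit 11874437)] (nat_lit 10788098)) p15_32_1 (nat_lit 4) (nat_lit 39) (nat_lit 40) = true := by decide +kernel
def p15_32_1_40 : pfC (piC [(nat_lit 35065580), (nat_lit 23538785), (nat_lit 17602610), (nat_lit 11874437)] (nat_lit 10788098)) p15_32_1 (nat_lit 4) (nat_lit 40) (nat_lit 41) = true := by decide +kernel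
def p15_32_1_41 : pfC (piC [(nat_lit 35065580), (nat_lit 23538785), (nat_lit 17602610), (nat_lit 11874437)] (nat_lit 10788098)) p15_32_1 (nat_lit 4) (nat_lit 41) (nat_lit 42) = true := by decide +kernel
def p15_32_1_42 : pfC (piC [(nat_lit 35065580), (nat_lit 23538785), (nat_lit 17602610), (nat_lit 11874437)] (nat_lit 10788098)) p15_32_1 (nat_lit 4) (nat_lit 42) (nat_lit 43) = true := by decide +kernel
def p15_32_1_43 : pfC (piC [(nat_lit 35065580), (nat_lit 23538785), (nat_lit 17602610), (nat_lit 11874437)] (nat_lit 10788098)) p15_32_1 (nat_lit 4) (nat_lit 43) (nat_lit 44) = true := by decide +kernel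
def p15_32_1_44 : pfC (piC [(nat_lit 35065580), (nat_lit 23538785), (nat_lit 17602610), (nat_lit 11874437)] (nat_lit 10788098)) p15_32_1 (nat_lit 4) (nat_lit 44) (nat_lit 45) = true := by decide +kernel
def p15_32_1_45 : pfC (piC [(nat_lit 35065580), (nat_lit 23538785), (nat_lit 17602610), (nat_lit 11874437)] (nat_lit 10788098)) p15_32_1 (nat_lit 4) (nat_lit 45) (nat_lit 46) = true := by decide +kernel
def p15_32_1_46 : pfC (piC [(nat_lit 35065580), (nat_lit 23538785), (nat_lit 17602610), (nat_lit 11874437)] (nat_lit 10788098)) p15_32_1 (nat_lit 4) (nat_lit 46) (nat_lit 47) = true := by decide +kernel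
def p15_32_1_47 : pfC (piC [(nat_lit 35065580), (nat_lit 23538785), (nat_lit 17602610), (nat_lit 11874437)] (nat_lit 10788098)) p15_32_1 (nat_lit 4) (nat_lit 47) (nat_lit 48) = true := by decide +kernel
def p15_32_1_48 : pfC (piC [(nat_lit 35065580), (nat_lit 23538785), (nat_lit 17602610), (nat_lit 11874437)] (nat_lit 10788098)) p15_32_1 (nat_lit 4) (nat_lit 48) (nat_lit 49) = true := by decide +kernel
def p15_32_1_49 : pfC (piC [(nat_lit 35065580), (nat_lit 23538785), (nat_lit 17602610), (nat_lit 11874437)] (nat_lit 10788098)) p15_32_1 (nat_lit 4) (nat_lit 49) (nat_lit 50) = true := by decide +kernel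
def p15_32_1_50 : pfC (piC [(nat_lit 35065580), (nat_lit 23538785), (nat_lit 17602610), (nat_lit 11874437)] (nat_lit 10788098)) p15_32_1 (nat_lit 4) (nat_lit 50) (nat_lit 51) = true := by decide +kernel
def p15_32_1_51 : pfC (piC [(nat_lit 35065580), (nat_lit 23538785), (nat_lit 17602610), (nat_lit 11874437)] (nat_lit 10788098)) p15_32_1 (nat_lit 4) (nat_lit 51) (nat_lit 52) = true := by decide +kernel
def p15_32_1_52 : pfC (piC [(nat_lit 35065580), (nat_lit 23538785), (nat_lit 17602610), (nat_lit 11874437)] (nat_lit 10788098)) p15_32_1 (nat_lit 4) (nat_lit 52) (nat_lit 53) = true := by decide +kernel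
def p15_32_1_53 : pfC (piC [(nat_lit 35065580), (nat_lit 23538785), (nat_lit 17602610), (nat_lit 11874437)] (nat_lit 10788098)) p15_32_1 (nat_lit 4) (nat_lit 53) (nat_lit 54) = true := by decide +kernel
def p15_32_1_54 : pfC (piC [(nat_lit 35065580), (nat_lit 23538785), (nat_lit 17602610), (nat_lit 11874437)] (nat_lit 10788098)) p15_32_1 (nat_lit 4) (nat_lit 54) (nat_lit 55) = true := by decide +kernel
def p15_32_1_55 : pfC (piC [(nat_lit 35065580), (nat_lit 23538785), (nat_lit 17602610), (nat_lit 11874437)] (nat_lit 10788098)) p15_32_1 (nat_lit 4) (nat_lit 55) (nat_lit 56) = true := by decide +kernel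
def p15_32_1_56 : pfC (piC [(nat_lit 35065580), (nat_lit 23538785), (nat_lit 17602610), (nat_lit 11874437)] (nat_lit 10788098)) p15_32_1 (nat_lit 4) (nat_lit 56) (nat_lit 57) = true := by decide +kernel
def p15_32_1_57 : pfC (piC [(nat_lit 35065580), (nat_lit 23538785), (nat_lit 17602610), (nat_lit 11874437)] (nat_lit 10788098)) p15_32_1 (nat_lit 4) (nat_lit 57) (nat_lit 58) = true := by decide +kernel
def p15_32_1_58 : pfC (piC [(nat_lit 35065580), (nat_lit 23538785), (nat_lit 17602610), (nat_lit 11874437)] (nat_lit 10788098)) p15_32_1 (nat_lit 4) (nat_lit 58) (nat_lit 59) = true := by decide +kernel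
def p15_32_1_59 : pfC (piC [(nat_lit 35065580), (nat_lit 23538785), (nat_lit 17602610), (nat_lit 11874437)] (nat_lit 10788098)) p15_32_1 (nat_lit 4) (nat_lit 59) (nat_lit 60) = true := by decide +kernel
def p15_32_1_60 : pfC (piC [(nat_lit 35065580), (nat_lit 23538785), (nat_lit 17602610), (nat_lit 11874437)] (nat_lit 10788098)) p15_32_1 (nat_lit 4) (nat_lit 60) (nat_lit 61) = true := by decide +kernel
def p15_32_1_61 : pfC (piC [(nat_lit 35065580), (nat_lit 23538785), (nat_lit 17602610), (nat_lit 11874437)] (nat_lit 10788098)) p15_32_1 (nat_lit 4) (nat_lit 61) (nat_lit 62) = true := by decide +kernel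
def p15_32_1_62 : pfC (piC [(nat_lit 35065580), (nat_lit 23538785), (nat_lit 17602610), (nat_lit 11874437)] (nat_lit 10788098)) p15_32_1 (nat_lit 4) (nat_lit 62) (nat_lit 63) = true := by decide +kernel
def p15_32_1_63 : pfC (piC [(nat_lit 35065580), (nat_lit 23538785), (nat_lit 17602610), (nat_lit 11874437)] (nat_lit 10788098)) p15_32_1 (nat_lit 4) (nat_lit 63) (nat_lit 64) = true := by decide +kernel
def p15_32_1_64 : pfC (piC [(nat_lit 35065580), (nat_lit 23538785), (nat_lit 17602610), (nat_lit 11874437)] (nat_lit 10788098)) p15_32_1 (nat_lit 4) (nat_lit 64) (nat_lit 65) = true := by decide +kernel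
def p15_32_1_65 : pfC (piC [(nat_lit 35065580), (nat_lit 23538785), (nat_lit 17602610), (nat_lit 11874437)] (nat_lit 10788098)) p15_32_1 (nat_lit 4) (nat_lit 65) (nat_lit 66) = true := by decide +kernel
def p15_32_1_66 : pfC (piC [(nat_lit 35065580), (nat_lit 23538785), (nat_lit 17602610), (nat_lit 11874437)] (nat_lit 10788098)) p15_32_1 (nat_lit 4) (nat_lit 66) (nat_lit 67) = true := by decide +kernel
def p15_32_1_67 : pfC (piC [(nat_lit 35065580), (nat_lit 23538785), (nat_lit 17602610), (nat_lit 11874437)] (nat_lit 10788098)) p15_32_1 (nat_lit 4) (nat_lit 67) (nat_lit 68) = true := by decide +kernel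
def p15_32_1_68 : pfC (piC [(nat_lit 35065580), (nat_lit 23538785), (nat_lit 17602610), (nat_lit 11874437)] (nat_lit 10788098)) p15_32_1 (nat_lit 4) (nat_lit 68) (nat_lit 69) = true := by decide +kernel
def p15_32_1_69 : pfC (piC [(nat_lit 35065580), (nat_lit 23538785), (nat_lit 17602610), (nat_lit 11874437)] (nat_lit 10788098)) p15_32_1 (nat_lit 4) (nat_lit 69) (nat_lit 70) = true := by decide +kernel
def p15_32_1_70 : pfC (piC [(nat_lit 35065580), (nat_lit 23538785), (nat_lit 17602610), (nat_lit 11874437)] (nat_lit 10788098)) p15_32_1 (nat_lit 4) (nat_lit 70) (nat_lit 71) = true := by decide +kernel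
def p15_32_1_71 : pfC (piC [(nat_lit 35065580), (nat_lit 23538785), (nat_lit 17602610), (nat_lit 11874437)] (nat_lit 10788098)) p15_32_1 (nat_lit 4) (nat_lit 71) (nat_lit 72) = true := by decide +kernel
def p15_32_1_72 : pfC (piC [(nat_lit 35065580), (nat_lit 23538785), (nat_lit 17602610), (nat_lit 11874437)] (nat_lit 10788098)) p15_32_1 (nat_lit 4) (nat_lit 72) (nat_lit 73) = true := by decide +kernel
def p15_32_1_73 : pfC (piC [(nat_lit 35065580), (nat_lit 23538785), (nat_lit 17602610), (nat_lit 11874437)] (nat_lit 10788098)) p15_32_1 (nat_lit 4) (nat_lit 73) (nat_lit 74) = true := by decide +kernel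
def p15_32_1_74 : pfC (piC [(nat_lit 35065580), (nat_lit 23538785), (nat_lit 17602610), (nat_lit 11874437)] (nat_lit 10788098)) p15_32_1 (nat_lit 4) (nat_lit 74) (nat_lit 75) = true := by decide +kernel
def p15_32_1_75 : pfC (piC [(nat_lit 35065580), (nat_lit 23538785), (nat_lit 17602610), (nat_lit 11874437)] (nat_lit 10788098)) p15_32_1 (nat_lit 4) (nat_lit 75) (nat_lit 76) = true := by decide +kernel
def p15_32_1_76 : pfC (piC [(nat_lit 35065580), (nat_lit 23538785), (nat_lit 17602610), (nat_lit 11874437)] (nat_lit 10788098)) p15_32_1 (nat_lit 4) (nat_lit 76) (nat_lit 77) = true := by decide +kernel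
def p15_32_1_77 : pfC (piC [(nat_lit 35065580), (nat_lit 23538785), (nat_lit 17602610), (nat_lit 11874437)] (nat_lit 10788098)) p15_32_1 (nat_lit 4) (nat_lit 77) (nat_lit 78) = true := by decide +kernel
def p15_32_1_78 : pfC (piC [(nat_lit 35065580), (nat_lit 23538785), (nat_lit 17602610), (nat_lit 11874437)] (nat_lit 10788098)) p15_32_1 (nat_lit 4) (nat_lit 78) (nat_lit 79) = true := by decide +kernel
def p15_32_1_79 : pfC (piC [(nat_lit 35065580), (nat_lit 23538785), (nat_lit 17602610), (nat_lit 11874437)] (nat_lit 10788098)) p15_32_1 (nat_lit 4) (nat_lit 79) (nat_lit 80) = true := by decide +kernel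
def p15_32_1_80 : pfC (piC [(nat_lit 35065580), (nat_lit 23538785), (nat_lit 17602610), (nat_lit 11874437)] (nat_lit 10788098)) p15_32_1 (nat_lit 4) (nat_lit 80) (nat_lit 81) = true := by decide +kernel
def p15_32_1_81 : pfC (piC [(nat_lit 35065580), (nat_lit 23538785), (nat_lit 17602610), (nat_lit 11874437)] (nat_lit 10788098)) p15_32_1 (nat_lit 4) (nat_lit 81) (nat_lit 82) = true := by decide +kernel
def p15_32_1_82 : pfC (piC [(nat_lit 35065580), (nat_lit 23538785), (nat_lit 17602610), (nat_lit 11874437)] (nat_lit 10788098)) p15_32_1 (nat_lit 4) (nat_lit 82) (nat_lit 83) = true := by decide +kernel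
def p15_32_1_83 : pfC (piC [(nat_lit 35065580), (nat_lit 23538785), (nat_lit 17602610), (nat_lit 11874437)] (nat_lit 10788098)) p15_32_1 (nat_lit 4) (nat_lit 83) (nat_lit 84) = true := by decide +kernel
def p15_32_1_84 : pfC (piC [(nat_lit 35065580), (nat_lit 23538785), (nat_lit 17602610), (nat_lit 11874437)] (nat_lit 10788098)) p15_32_1 (nat_lit 4) (nat_lit 84) (nat_lit 85) = true := by decide +kernel
def p15_32_1_85 : pfC (piC [(nat_lit 35065580), (nat_lit 23538785), (nat_lit 17602610), (nat_lit 11874437)] (nat_lit 10788098)) p15_32_1 (nat_lit 4) (nat_lit 85) (nat_lit 86) = true := by decide +kernel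
def p15_32_1_86 : pfC (piC [(nat_lit 35065580), (nat_lit 23538785), (nat_lit 17602610), (nat_lit 11874437)] (nat_lit 10788098)) p15_32_1 (nat_lit 4) (nat_lit 86) (nat_lit 87) = true := by decide +kernel
def p15_32_1_87 : pfC (piC [(nat_lit 35065580), (nat_lit 23538785), (nat_lit 17602610), (nat_lit 11874437)] (nat_lit 10788098)) p15_32_1 (nat_lit 4) (nat_lit 87) (nat_lit 88) = true := by decide +kernel
def p15_32_1_88 : pfC (piC [(nat_lit 35065580), (nat_lit 23538785), (nat_lit 17602610), (nat_lit 11874437)] (nat_lit 10788098)) p15_32_1 (nat_lit 4) (nat_lit 88) (nat_lit 89) = true := by decide +kernel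
def p15_32_1_89 : pfC (piC [(nat_lit 35065580), (nat_lit 23538785), (nat_lit 17602610), (nat_lit 11874437)] (nat_lit 10788098)) p15_32_1 (nat_lit 4) (nat_lit 89) (nat_lit 90) = true := by decide +kernel
def p15_32_1_90 : pfC (piC [(nat_lit 35065580), (nat_lit 23538785), (nat_lit 17602610), (nat_lit 11874437)] (nat_lit 10788098)) p15_32_1 (nat_lit 4) (nat_lit 90) (nat_lit 91) = true := by decide +kernel
def p15_32_1_91 : pfC (piC [(nat_lit 35065580), (nat_lit 23538785), (nat_lit 17602610), (nat_lit 11874437)] (nat_lit 10788098)) p15_32_1 (nat_lit 4) (nat_lit 91) (nat_lit 92) = true := by decide +kernel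
def p15_32_1_92 : pfC (piC [(nat_lit 35065580), (nat_lit 23538785), (nat_lit 17602610), (nat_lit 11874437)] (nat_lit 10788098)) p15_32_1 (nat_lit 4) (nat_lit 92) (nat_lit 93) = true := by decide +kernel
def p15_32_1_93 : pfC (piC [(nat_lit 35065580), (nat_lit 23538785), (nat_lit 17602610), (nat_lit 11874437)] (nat_lit 10788098)) p15_32_1 (nat_lit 4) (nat_lit 93) (nat_lit 94) = true := by decide +kernel
def p15_32_1_94 : pfC (piC [(nat_lit 35065580), (nat_lit 23538785), (nat_lit 17602610), (nat_lit 11874437)] (nat_lit 10788098)) p15_32_1 (nat_lit 4) (nat_lit 94) (nat_lit 95) = true := by decide +kernel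
def p15_32_1_95 : pfC (piC [(nat_lit 35065580), (nat_lit 23538785), (nat_lit 17602610), (nat_lit 11874437)] (nat_lit 10788098)) p15_32_1 (nat_lit 4) (nat_lit 95) (nat_lit 96) = true := by decide +kernel
def p15_32_1_96 : pfC (piC [(nat_lit 35065580), (nat_lit 23538785), (nat_lit 17602610), (nat_lit 11874437)] (nat_lit 10788098)) p15_32_1 (nat_lit 4) (nat_lit 96) (nat_lit 97) = true := by decide +kernel
def p15_32_1_97 : pfC (piC [(nat_lit 35065580), (nat_lit 23538785), (nat_lit 17602610), (nat_lit 11874437)] (nat_lit 10788098)) p15_32_1 (nat_lit 4) (nat_lit 97) (nat_lit 98) = true := by decide +kernel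
def p15_32_1_98 : pfC (piC [(nat_lit 35065580), (nat_lit 23538785), (nat_lit 17602610), (nat_lit 11874437)] (nat_lit 10788098)) p15_32_1 (nat_lit 4) (nat_lit 98) (nat_lit 99) = true := by decide +kernel
def p15_32_1_99 : pfC (piC [(nat_lit 35065580), (nat_lit 23538785), (nat_lit 17602610), (nat_lit 11874437)] (nat_lit 10788098)) p15_32_1 (nat_lit 4) (nat_lit 99) (nat_lit 100) = true := by decide +kernel
def p15_32_1_100 : pfC (piC [(nat_lit 35065580), (nat_lit 23538785), (nat_lit 17602610), (nat_lit 11874437)] (nat_lit 10788098)) p15_32_1 (nat_lit 4) (nat_lit 100) (nat_lit 101) = true := by decide +kernel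
def p15_32_1_101 : pfC (piC [(nat_lit 35065580), (nat_lit 23538785), (nat_lit 17602610), (nat_lit 11874437)] (nat_lit 10788098)) p15_32_1 (nat_lit 4) (nat_lit 101) (nat_lit 102) = true := by decide +kernel
def p15_32_1_102 : pfC (piC [(nat_lit 35065580), (nat_lit 23538785), (nat_lit 17602610), (nat_lit 11874437)] (nat_lit 10788098)) p15_32_1 (nat_lit 4) (nat_lit 102) (nat_lit 103) = true := by decide +kernel
def p15_32_1_103 : pfC (piC [(nat_lit 35065580), (nat_lit 23538785), (nat_lit 17602610), (nat_lit 11874437)] (nat_lit 10788098)) p15_32_1 (nat_lit 4) (nat_lit 103) (nat_lit 104) = true := by decide +kernel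
def p15_32_1_104 : pfC (piC [(nat_lit 35065580), (nat_lit 23538785), (nat_lit 17602610), (nat_lit 11874437)] (nat_lit 10788098)) p15_32_1 (nat_lit 4) (nat_lit 104) (nat_lit 105) = true := by decide +kernel
def p15_32_1_105 : pfC (piC [(nat_lit 35065580), (nat_lit 23538785), (nat_lit 17602610), (nat_lit 11874437)] (nat_lit 10788098)) p15_32_1 (nat_lit 4) (nat_lit 105) (nat_lit 106) = true := by decide +kernel
def p15_32_1_106 : pfC (piC [(nat_lit 35065580), (nat_lit 23538785), (nat_lit 17602610), (nat_lit 11874437)] (nat_lit 10788098)) p15_32_1 (nat_lit 4) (nat_lit 106) (nat_lit 107) = true := by decide +kernel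
def p15_32_1_107 : pfC (piC [(nat_lit 35065580), (nat_lit 23538785), (nat_lit 17602610), (nat_lit 11874437)] (nat_lit 10788098)) p15_32_1 (nat_lit 4) (nat_lit 107) (nat_lit 108) = true := by decide +kernel
def p15_32_1_108 : pfC (piC [(nat_lit 35065580), (nat_lit 23538785), (nat_lit 17602610), (nat_lit 11874437)] (nat_lit 10788098)) p15_32_1 (nat_lit 4) (nat_lit 108) (nat_lit 109) = true := by decide +kernel
def p15_32_1_109 : pfC (piC [(nat_lit 35065580), (nat_lit 23538785), (nat_lit 17602610), (nat_lit 11874437)] (nat_lit 10788098)) p15_32_1 (nat_lit 4) (nat_lit 109) (nat_lit 110) = true := by decide +kernel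
def p15_32_1_110 : pfC (piC [(nat_lit 35065580), (nat_lit 23538785), (nat_lit 17602610), (nat_lit 11874437)] (nat_lit 10788098)) p15_32_1 (nat_lit 4) (nat_lit 110) (nat_lit 111) = true := by decide +kernel
def p15_32_1_111 : pfC (piC [(nat_lit 35065580), (nat_lit 23538785), (nat_lit 17602610), (nat_lit 11874437)] (nat_lit 10788098)) p15_32_1 (nat_lit 4) (nat_lit 111) (nat_lit 112) = true := by decide +kernel
def p15_32_1_112 : pfC (piC [(nat_lit 35065580), (nat_lit 23538785), (nat_lit 17602610), (nat_lit 11874437)] (nat_lit 10788098)) p15_32_1 (nat_lit 4) (nat_lit 112) (nat_lit 113) = true := by decide +kernel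
def p15_32_1_113 : pfC (piC [(nat_lit 35065580), (nat_lit 23538785), (nat_lit 17602610), (nat_lit 11874437)] (nat_lit 10788098)) p15_32_1 (nat_lit 4) (nat_lit 113) (nat_lit 114) = true := by decide +kernel
def p15_32_1_114 : pfC (piC [(nat_lit 35065580), (nat_lit 23538785), (nat_lit 17602610), (nat_lit 11874437)] (nat_lit 10788098)) p15_32_1 (nat_lit 4) (nat_lit 114) (nat_lit 115) = true := by decide +kernel
def p15_32_1_115 : pfC (piC [(nat_lit 35065580), (nat_lit 23538785), (nat_lit 17602610), (nat_lit 11874437)] (nat_lit 10788098)) p15_32_1 (nat_lit 4) (nat_lit 115) (nat_lit 116) = true := by decide +kernel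
def p15_32_1_116 : pfC (piC [(nat_lit 35065580), (nat_lit 23538785), (nat_lit 17602610), (nat_lit 11874437)] (nat_lit 10788098)) p15_32_1 (nat_lit 4) (nat_lit 116) (nat_lit 117) = true := by decide +kernel
def p15_32_1_117 : pfC (piC [(nat_lit 35065580), (nat_lit 23538785), (nat_lit 17602610), (nat_lit 11874437)] (nat_lit 10788098)) p15_32_1 (nat_lit 4) (nat_lit 117) (nat_lit 118) = true := by decide +kernel
def p15_32_1_118 : pfC (piC [(nat_lit 35065580), (nat_lit 23538785), (nat_lit 17602610), (nat_lit 11874437)] (nat_lit 10788098)) p15_32_1 (nat_lit 4) (nat_lit 118) (nat_lit 119) = true := by decide +kernel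
def p15_32_1_119 : pfC (piC [(nat_lit 35065580), (nat_lit 23538785), (nat_lit 17602610), (nat_lit 11874437)] (nat_lit 10788098)) p15_32_1 (nat_lit 4) (nat_lit 119) (nat_lit 120) = true := by decide +kernel
def p15_32_1_120 : pfC (piC [(nat_lit 35065580), (nat_lit 23538785), (nat_lit 17602610), (nat_lit 11874437)] (nat_lit 10788098)) p15_32_1 (nat_lit 4) (nat_lit 120) (nat_lit 121) = true := by decide +kernel
def p15_32_1_121 : pfC (piC [(nat_lit 35065580), (nat_lit 23538785), (nat_lit 17602610), (nat_lit 11874437)] (nat_lit 10788098)) p15_32_1 (nat_lit 4) (nat_lit 121) (nat_lit 122) = true := by decide +kernel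
def p15_32_1_122 : pfC (piC [(nat_lit 35065580), (nat_lit 23538785), (nat_lit 17602610), (nat_lit 11874437)] (nat_lit 10788098)) p15_32_1 (nat_lit 4) (nat_lit 122) (nat_lit 123) = true := by decide +kernel
def p15_32_1_123 : pfC (piC [(nat_lit 35065580), (nat_lit 23538785), (nat_lit 17602610), (nat_lit 11874437)] (nat_lit 10788098)) p15_32_1 (nat_lit 4) (nat_lit 123) (nat_lit 124) = true := by decide +kernel
def p15_32_1_124 : pfC (piC [(nat_lit 35065580), (nat_lit 23538785), (nat_lit 17602610), (nat_lit 11874437)] (nat_lit 10788098)) p15_32_1 (nat_lit 4) (nat_lit 124) (nat_lit 125) = true := by decide +kernel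
def p15_32_1_125 : pfC (piC [(nat_lit 35065580), (nat_lit 23538785), (nat_lit 17602610), (nat_lit 11874437)] (nat_lit 10788098)) p15_32_1 (nat_lit 4) (nat_lit 125) (nat_lit 126) = true := by decide +kernel
def p15_32_1_126 : pfC (piC [(nat_lit 35065580), (nat_lit 23538785), (nat_lit 17602610), (nat_lit 11874437)] (nat_lit 10788098)) p15_32_1 (nat_lit 4) (nat_lit 126) (nat_lit 127) = true := by decide +kernel
def p15_32_1_127 : pfC (piC [(nat_lit 35065580), (nat_lit 23538785), (nat_lit 17602610), (nat_lit 11874437)] (nat_lit 10788098)) p15_32_1 (nat_lit 4) (nat_lit 127) (nat_lit 128) = true := by decide +kernel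
def p15_32_1_128 : pfC (piC [(nat_lit 35065580), (nat_lit 23538785), (nat_lit 17602610), (nat_lit 11874437)] (nat_lit 10788098)) p15_32_1 (nat_lit 4) (nat_lit 128) (nat_lit 129) = true := by decide +kernel
def p15_32_1_129 : pfC (piC [(nat_lit 35065580), (nat_lit 23538785), (nat_lit 17602610), (nat_lit 11874437)] (nat_lit 10788098)) p15_32_1 (nat_lit 4) (nat_lit 129) (nat_lit 130) = true := by decide +kernel
def p15_32_1_130 : pfC (piC [(nat_lit 35065580), (nat_lit 23538785), (nat_lit 17602610), (nat_lit 11874437)] (nat_lit 10788098)) p15_32_1 (nat_lit 4) (nat_lit 130) (nat_lit 131) = true := by decide +kernel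
def p15_32_1_131 : pfC (piC [(nat_lit 35065580), (nat_lit 23538785), (nat_lit 17602610), (nat_lit 11874437)] (nat_lit 10788098)) p15_32_1 (nat_lit 4) (nat_lit 131) (nat_lit 132) = true := by decide +kernel
def p15_32_1_132 : pfC (piC [(nat_lit 35065580), (nat_lit 23538785), (nat_lit 17602610), (nat_lit 11874437)] (nat_lit 10788098)) p15_32_1 (nat_lit 4) (nat_lit 132) (nat_lit 133) = true := by decide +kernel
def p15_32_1_133 : pfC (piC [(nat_lit 35065580), (nat_lit 23538785), (nat_lit 17602610), (nat_lit 11874437)] (nat_lit 10788098)) p15_32_1 (nat_lit 4) (nat_lit 133) (nat_lit 134) = true := by decide +kernel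
def p15_32_1_134 : pfC (piC [(nat_lit 35065580), (nat_lit 23538785), (nat_lit 17602610), (nat_lit 11874437)] (nat_lit 10788098)) p15_32_1 (nat_lit 4) (nat_lit 134) (nat_lit 135) = true := by decide +kernel
def p15_32_1_135 : pfC (piC [(nat_lit 35065580), (nat_lit 23538785), (nat_lit 17602610), (nat_lit 11874437)] (nat_lit 10788098)) p15_32_1 (nat_lit 4) (nat_lit 135) (nat_lit 136) = true := by decide +kernel
def p15_32_1_136 : pfC (piC [(nat_lit 35065580), (nat_lit 23538785), (nat_lit 17602610), (nat_lit 11874437)] (nat_lit 10788098)) p15_32_1 (nat_lit 4) (nat_lit 136) (nat_lit 137) = true := by decide +kernel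
def p15_32_1_137 : pfC (piC [(nat_lit 35065580), (nat_lit 23538785), (nat_lit 17602610), (nat_lit 11874437)] (nat_lit 10788098)) p15_32_1 (nat_lit 4) (nat_lit 137) (nat_lit 138) = true := by decide +kernel
def p15_32_1_138 : pfC (piC [(nat_lit 35065580), (nat_lit 23538785), (nat_lit 17602610), (nat_lit 11874437)] (nat_lit 10788098)) p15_32_1 (nat_lit 4) (nat_lit 138) (nat_lit 139) = true := by decide +kernel
def p15_32_1_139 : pfC (piC [(nat_lit 35065580), (nat_lit 23538785), (nat_lit 17602610), (nat_lit 11874437)] (nat_lit 10788098)) p15_32_1 (nat_lit 4) (nat_lit 139) (nat_lit 140) = true := by decide +kernel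
def p15_32_1_140 : pfC (piC [(nat_lit 35065580), (nat_lit 23538785), (nat_lit 17602610), (nat_lit 11874437)] (nat_lit 10788098)) p15_32_1 (nat_lit 4) (nat_lit 140) (nat_lit 141) = true := by decide +kernel
def p15_32_1_141 : pfC (piC [(nat_lit 35065580), (nat_lit 23538785), (nat_lit 17602610), (nat_lit 11874437)] (nat_lit 10788098)) p15_32_1 (nat_lit 4) (nat_lit 141) (nat_lit 142) = true := by decide +kernel
def p15_32_1_142 : pfC (piC [(nat_lit 35065580), (nat_lit 23538785), (nat_lit 17602610), (nat_lit 11874437)] (nat_lit 10788098)) p15_32_1 (nat_lit 4) (nat_lit 142) (nat_lit 143) = true := by decide +kernel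
def p15_32_1_143 : pfC (piC [(nat_lit 35065580), (nat_lit 23538785), (nat_lit 17602610), (nat_lit 11874437)] (nat_lit 10788098)) p15_32_1 (nat_lit 4) (nat_lit 143) (nat_lit 144) = true := by decide +kernel
def p15_32_1_144 : pfC (piC [(nat_lit 35065580), (nat_lit 23538785), (nat_lit 17602610), (nat_lit 11874437)] (nat_lit 10788098)) p15_32_1 (nat_lit 4) (nat_lit 144) (nat_lit 145) = true := by decide +kernel
def p15_32_1_145 : pfC (piC [(nat_lit 35065580), (nat_lit 23538785), (nat_lit 17602610), (nat_lit 11874437)] (nat_lit 10788098)) p15_32_1 (nat_lit 4) (nat_lit 145) (nat_lit 146) = true := by decide +kernel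
def p15_32_1_146 : pfC (piC [(nat_lit 35065580), (nat_lit 23538785), (nat_lit 17602610), (nat_lit 11874437)] (nat_lit 10788098)) p15_32_1 (nat_lit 4) (nat_lit 146) (nat_lit 147) = true := by decide +kernel
def p15_32_1_147 : pfC (piC [(nat_lit 35065580), (nat_lit 23538785), (nat_lit 17602610), (nat_lit 11874437)] (nat_lit 10788098)) p15_32_1 (nat_lit 4) (nat_lit 147) (nat_lit 148) = true := by decide +kernel
def p15_32_1_148 : pfC (piC [(nat_lit 35065580), (nat_lit 23538785), (nat_lit 17602610), (nat_lit 11874437)] (nat_lit 10788098)) p15_32_1 (nat_lit 4) (nat_lit 148) (nat_lit 149) = true := by decide +kernel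
def p15_32_1_149 : pfC (piC [(nat_lit 35065580), (nat_lit 23538785), (nat_lit 17602610), (nat_lit 11874437)] (nat_lit 10788098)) p15_32_1 (nat_lit 4) (nat_lit 149) (nat_lit 150) = true := by decide +kernel
def p15_32_1_150 : pfC (piC [(nat_lit 35065580), (nat_lit 23538785), (nat_lit 17602610), (nat_lit 11874437)] (nat_lit 10788098)) p15_32_1 (nat_lit 4) (nat_lit 150) (nat_lit 151) = true := by decide +kernel
def p15_32_1_151 : pfC (piC [(nat_lit 35065580), (nat_lit 23538785), (nat_lit 17602610), (nat_lit 11874437)] (nat_lit 10788098)) p15_32_1 (nat_lit 4) (nat_lit 151) (nat_lit 152) = true := by decide +kernel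
def p15_32_1_152 : pfC (piC [(nat_lit 35065580), (nat_lit 23538785), (nat_lit 17602610), (nat_lit 11874437)] (nat_lit 10788098)) p15_32_1 (nat_lit 4) (nat_lit 152) (nat_lit 153) = true := by decide +kernel
def p15_32_1_153 : pfC (piC [(nat_lit 35065580), (nat_lit 23538785), (nat_lit 17602610), (nat_lit 11874437)] (nat_lit 10788098)) p15_32_1 (nat_lit 4) (nat_lit 153) (nat_lit 154) = true := by decide +kernel
def p15_32_1_154 : pfC (piC [(nat_lit 35065580), (nat_lit 23538785), (nat_lit 17602610), (nat_lit 11874437)] (nat_lit 10788098)) p15_32_1 (nat_lit 4) (nat_lit 154) (nat_lit 155) = true := by decide +kernel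
def p15_32_1_155 : pfC (piC [(nat_lit 35065580), (nat_lit 23538785), (nat_lit 17602610), (nat_lit 11874437)] (nat_lit 10788098)) p15_32_1 (nat_lit 4) (nat_lit 155) (nat_lit 156) = true := by decide +kernel
def p15_32_1_156 : pfC (piC [(nat_lit 35065580), (nat_lit 23538785), (nat_lit 17602610), (nat_lit 11874437)] (nat_lit 10788098)) p15_32_1 (nat_lit 4) (nat_lit 156) (nat_lit 157) = true := by decide +kernel
def p15_32_1_157 : pfC (piC [(nat_lit 35065580), (nat_lit 23538785), (nat_lit 17602610), (nat_lit 11874437)] (nat_lit 10788098)) p15_32_1 (nat_lit 4) (nat_lit 157) (nat_lit 158) = true := by decide +kernel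
def p15_32_1_158 : pfC (piC [(nat_lit 35065580), (nat_lit 23538785), (nat_lit 17602610), (nat_lit 11874437)] (nat_lit 10788098)) p15_32_1 (nat_lit 4) (nat_lit 158) (nat_lit 159) = true := by decide +kernel
def p15_32_1_159 : pfC (piC [(nat_lit 35065580), (nat_lit 23538785), (nat_lit 17602610), (nat_lit 11874437)] (nat_lit 10788098)) p15_32_1 (nat_lit 4) (nat_lit 159) (nat_lit 160) = true := by decide +kernel
def p15_32_1_160 : pfC (piC [(nat_lit 35065580), (nat_lit 23538785), (nat_lit 17602610), (nat_lit 11874437)] (nat_lit 10788098)) p15_32_1 (nat_lit 4) (nat_lit 160) (nat_lit 161) = true := by decide +kernel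
def p15_32_1_161 : pfC (piC [(nat_lit 35065580), (nat_lit 23538785), (nat_lit 17602610), (nat_lit 11874437)] (nat_lit 10788098)) p15_32_1 (nat_lit 4) (nat_lit 161) (nat_lit 162) = true := by decide +kernel
def p15_32_1_162 : pfC (piC [(nat_lit 35065580), (nat_lit 23538785), (nat_lit 17602610), (nat_lit 11874437)] (nat_lit 10788098)) p15_32_1 (nat_lit 4) (nat_lit 162) (nat_lit 163) = true := by decide +kernel
def p15_32_1_163 : pfC (piC [(nat_lit 35065580), (nat_lit 23538785), (nat_lit 17602610), (nat_lit 11874437)] (nat_lit 10788098)) p15_32_1 (nat_lit 4) (nat_lit 163) (nat_lit 164) = true := by decide +kernel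
def p15_32_1_164 : pfC (piC [(nat_lit 35065580), (nat_lit 23538785), (nat_lit 17602610), (nat_lit 11874437)] (nat_lit 10788098)) p15_32_1 (nat_lit 4) (nat_lit 164) (nat_lit 165) = true := by decide +kernel
def p15_32_1_165 : pfC (piC [(nat_lit 35065580), (nat_lit 23538785), (nat_lit 17602610), (nat_lit 11874437)] (nat_lit 10788098)) p15_32_1 (nat_lit 4) (nat_lit 165) (nat_lit 166) = true := by decide +kernel
def p15_32_1_166 : pfC (piC [(nat_lit 35065580), (nat_lit 23538785), (nat_lit 17602610), (nat_lit 11874437)] (nat_lit 10788098)) p15_32_1 (nat_lit 4) (nat_lit 166) (nat_lit 167) = true := by decide +kernel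
def p15_32_1_167 : pfC (piC [(nat_lit 35065580), (nat_lit 23538785), (nat_lit 17602610), (nat_lit 11874437)] (nat_lit 10788098)) p15_32_1 (nat_lit 4) (nat_lit 167) (nat_lit 168) = true := by decide +kernel
def p15_32_1_168 : pfC (piC [(nat_lit 35065580), (nat_lit 23538785), (nat_lit 17602610), (nat_lit 11874437)] (nat_lit 10788098)) p15_32_1 (nat_lit 4) (nat_lit 168) (nat_lit 169) = true := by decide +kernel
def p15_32_1_169 : pfC (piC [(nat_lit 35065580), (nat_lit 23538785), (nat_lit 17602610), (nat_lit 11874437)] (nat_lit 10788098)) p15_32_1 (nat_lit 4) (nat_lit 169) (nat_lit 170) = true := by decide +kernel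
def p15_32_1_170 : pfC (piC [(nat_lit 35065580), (nat_lit 23538785), (nat_lit 17602610), (nat_lit 11874437)] (nat_lit 10788098)) p15_32_1 (nat_lit 4) (nat_lit 170) (nat_lit 171) = true := by decide +kernel
def p15_32_1_171 : pfC (piC [(nat_lit 35065580), (nat_lit 23538785), (nat_lit 17602610), (nat_lit 11874437)] (nat_lit 10788098)) p15_32_1 (nat_lit 4) (nat_lit 171) (nat_lit 172) = true := by decide +kernel
def p15_32_1_172 : pfC (piC [(nat_lit 35065580), (nat_lit 23538785), (nat_lit 17602610), (nat_lit 11874437)] (nat_lit 10788098)) p15_32_1 (nat_lit 4) (nat_lit 172) (nat_lit 173) = true := by decide +kernel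
def p15_32_1_173 : pfC (piC [(nat_lit 35065580), (nat_lit 23538785), (nat_lit 17602610), (nat_lit 11874437)] (nat_lit 10788098)) p15_32_1 (nat_lit 4) (nat_lit 173) (nat_lit 174) = true := by decide +kernel
def p15_32_1_174 : pfC (piC [(nat_lit 35065580), (nat_lit 23538785), (nat_lit 17602610), (nat_lit 11874437)] (nat_lit 10788098)) p15_32_1 (nat_lit 4) (nat_lit 174) (nat_lit 175) = true := by decide +kernel
def p15_32_1_175 : pfC (piC [(nat_lit 35065580), (nat_lit 23538785), (nat_lit 17602610), (nat_lit 11874437)] (nat_lit 10788098)) p15_32_1 (nat_lit 4) (nat_lit 175) (nat_lit 176) = true := by decide +kernel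
def p15_32_1_176 : pfC (piC [(nat_lit 35065580), (nat_lit 23538785), (nat_lit 17602610), (nat_lit 11874437)] (nat_lit 10788098)) p15_32_1 (nat_lit 4) (nat_lit 176) (nat_lit 177) = true := by decide +kernel
def p15_32_1_177 : pfC (piC [(nat_lit 35065580), (nat_lit 23538785), (nat_lit 17602610), (nat_lit 11874437)] (nat_lit 10788098)) p15_32_1 (nat_lit 4) (nat_lit 177) (nat_lit 178) = true := by decide +kernel
def p15_32_1_178 : pfC (piC [(nat_lit 35065580), (nat_lit 23538785), (nat_lit 17602610), (nat_lit 11874437)] (nat_lit 10788098)) p15_32_1 (nat_lit 4) (nat_lit 178) (nat_lit 179) = true := by decide +kernel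
def p15_32_1_179 : pfC (piC [(nat_lit 35065580), (nat_lit 23538785), (nat_lit 17602610), (nat_lit 11874437)] (nat_lit 10788098)) p15_32_1 (nat_lit 4) (nat_lit 179) (nat_lit 180) = true := by decide +kernel
def p15_32_1_180 : pfC (piC [(nat_lit 35065580), (nat_lit 23538785), (nat_lit 17602610), (nat_lit 11874437)] (nat_lit 10788098)) p15_32_1 (nat_lit 4) (nat_lit 180) (nat_lit 181) = true := by decide +kernel
def p15_32_1_181 : pfC (piC [(nat_lit 35065580), (nat_lit 23538785), (nat_lit 17602610), (nat_lit 11874437)] (nat_lit 10788098)) p15_32_1 (nat_lit 4) (nat_lit 181) (nat_lit 182) = true := by decide +kernel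
def p15_32_1_182 : pfC (piC [(nat_lit 35065580), (nat_lit 23538785), (nat_lit 17602610), (nat_lit 11874437)] (nat_lit 10788098)) p15_32_1 (nat_lit 4) (nat_lit 182) (nat_lit 183) = true := by decide +kernel
def p15_32_1_183 : pfC (piC [(nat_lit 35065580), (nat_lit 23538785), (nat_lit 17602610), (nat_lit 11874437)] (nat_lit 10788098)) p15_32_1 (nat_lit 4) (nat_lit 183) (nat_lit 184) = true := by decide +kernel
def p15_32_1_184 : pfC (piC [(nat_lit 35065580), (nat_lit 23538785), (nat_lit 17602610), (nat_lit 11874437)] (nat_lit 10788098)) p15_32_1 (nat_lit 4) (nat_lit 184) (nat_lit 185) = true := by decide +kernel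
def p15_32_1_185 : pfC (piC [(nat_lit 35065580), (nat_lit 23538785), (nat_lit 17602610), (nat_lit 11874437)] (nat_lit 10788098)) p15_32_1 (nat_lit 4) (nat_lit 185) (nat_lit 186) = true := by decide +kernel
def p15_32_1_186 : pfC (piC [(nat_lit 35065580), (nat_lit 23538785), (nat_lit 17602610), (nat_lit 11874437)] (nat_lit 10788098)) p15_32_1 (nat_lit 4) (nat_lit 186) (nat_lit 187) = true := by decide +kernel
def p15_32_1_187 : pfC (piC [(nat_lit 35065580), (nat_lit 23538785), (nat_lit 17602610), (nat_lit 11874437)] (nat_lit 10788098)) p15_32_1 (nat_lit 4) (nat_lit 187) (nat_lit 188) = true := by decide +kernel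
def p15_32_1_188 : pfC (piC [(nat_lit 35065580), (nat_lit 23538785), (nat_lit 17602610), (nat_lit 11874437)] (nat_lit 10788098)) p15_32_1 (nat_lit 4) (nat_lit 188) (nat_lit 189) = true := by decide +kernel
def p15_32_1_189 : pfC (piC [(nat_lit 35065580), (nat_lit 23538785), (nat_lit 17602610), (nat_lit 11874437)] (nat_lit 10788098)) p15_32_1 (nat_lit 4) (nat_lit 189) (nat_lit 190) = true := by decide +kernel
def p15_32_1_190 : pfC (piC [(nat_lit 35065580), (nat_lit 23538785), (nat_lit 17602610), (nat_lit 11874437)] (nat_lit 10788098)) p15_32_1 (nat_lit 4) (nat_lit 190) (nat_lit 191) = true := by decide +kernel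
def p15_32_1_191 : pfC (piC [(nat_lit 35065580), (nat_lit 23538785), (nat_lit 17602610), (nat_lit 11874437)] (nat_lit 10788098)) p15_32_1 (nat_lit 4) (nat_lit 191) (nat_lit 192) = true := by decide +kernel
def p15_32_1_192 : pfC (piC [(nat_lit 35065580), (nat_lit 23538785), (nat_lit 17602610), (nat_lit 11874437)] (nat_lit 10788098)) p15_32_1 (nat_lit 4) (nat_lit 192) (nat_lit 193) = true := by decide +kernel
def p15_32_1_193 : pfC (piC [(nat_lit 35065580), (nat_lit 23538785), (nat_lit 17602610), (nat_lit 11874437)] (nat_lit 10788098)) p15_32_1 (nat_lit 4) (nat_lit 193) (nat_lit 194) = true := by decide +kernel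
def p15_32_1_194 : pfC (piC [(nat_lit 35065580), (nat_lit 23538785), (nat_lit 17602610), (nat_lit 11874437)] (nat_lit 10788098)) p15_32_1 (nat_lit 4) (nat_lit 194) (nat_lit 195) = true := by decide +kernel
def p15_32_1_195 : pfC (piC [(nat_lit 35065580), (nat_lit 23538785), (nat_lit 17602610), (nat_lit 11874437)] (nat_lit 10788098)) p15_32_1 (nat_lit 4) (nat_lit 195) (nat_lit 196) = true := by decide +kernel
def p15_32_1_196 : pfC (piC [(nat_lit 35065580), (nat_lit 23538785), (nat_lit 17602610), (nat_lit 11874437)] (nat_lit 10788098)) p15_32_1 (nat_lit 4) (nat_lit 196) (nat_lit 197) = true := by decide +kernel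
def p15_32_1_197 : pfC (piC [(nat_lit 35065580), (nat_lit 23538785), (nat_lit 17602610), (nat_lit 11874437)] (nat_lit 10788098)) p15_32_1 (nat_lit 4) (nat_lit 197) (nat_lit 198) = true := by decide +kernel
def p15_32_1_198 : pfC (piC [(nat_lit 35065580), (nat_lit 23538785), (nat_lit 17602610), (nat_lit 11874437)] (nat_lit 10788098)) p15_32_1 (nat_lit 4) (nat_lit 198) (nat_lit 199) = true := by decide +kernel
def p15_32_1_199 : pfC (piC [(nat_lit 35065580), (nat_lit 23538785), (nat_lit 17602610), (nat_lit 11874437)] (nat_lit 10788098)) p15_32_1 (nat_lit 4) (nat_lit 199) (nat_lit 200) = true := by decide +kernel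
def p15_32_1_200 : pfC (piC [(nat_lit 35065580), (nat_lit 23538785), (nat_lit 17602610), (nat_lit 11874437)] (nat_lit 10788098)) p15_32_1 (nat_lit 4) (nat_lit 200) (nat_lit 201) = true := by decide +kernel
def p15_32_1_201 : pfC (piC [(nat_lit 35065580), (nat_lit 23538785), (nat_lit 17602610), (nat_lit 11874437)] (nat_lit 10788098)) p15_32_1 (nat_lit 4) (nat_lit 201) (nat_lit 202) = true := by decide +kernel
def p15_32_1_202 : pfC (piC [(nat_lit 35065580), (nat_lit 23538785), (nat_lit 17602610), (nat_lit 11874437)] (nat_lit 10788098)) p15_32_1 (nat_lit 4) (nat_lit 202) (nat_lit 203) = true := by decide +kernel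
def p15_32_1_203 : pfC (piC [(nat_lit 35065580), (nat_lit 23538785), (nat_lit 17602610), (nat_lit 11874437)] (nat_lit 10788098)) p15_32_1 (nat_lit 4) (nat_lit 203) (nat_lit 204) = true := by decide +kernel
def p15_32_1_204 : pfC (piC [(nat_lit 35065580), (nat_lit 23538785), (nat_lit 17602610), (nat_lit 11874437)] (nat_lit 10788098)) p15_32_1 (nat_lit 4) (nat_lit 204) (nat_lit 205) = true := by decide +kernel
def p15_32_1_205 : pfC (piC [(nat_lit 35065580), (nat_lit 23538785), (nat_lit 17602610), (nat_lit 11874437)] (nat_lit 10788098)) p15_32_1 (nat_lit 4) (nat_lit 205) (nat_lit 206) = true := by decide +kernel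
def p15_32_1_206 : pfC (piC [(nat_lit 35065580), (nat_lit 23538785), (nat_lit 17602610), (nat_lit 11874437)] (nat_lit 10788098)) p15_32_1 (nat_lit 4) (nat_lit 206) (nat_lit 207) = true := by decide +kernel
def p15_32_1_207 : pfC (piC [(nat_lit 35065580), (nat_lit 23538785), (nat_lit 17602610), (nat_lit 11874437)] (nat_lit 10788098)) p15_32_1 (nat_lit 4) (nat_lit 207) (nat_lit 208) = true := by decide +kernel
def p15_32_1_208 : pfC (piC [(nat_lit 35065580), (nat_lit 23538785), (nat_lit 17602610), (nat_lit 11874437)] (nat_lit 10788098)) p15_32_1 (nat_lit 4) (nat_lit 208) (nat_lit 209) = true := by decide +kernel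
def p15_32_1_209 : pfC (piC [(nat_lit 35065580), (nat_lit 23538785), (nat_lit 17602610), (nat_lit 11874437)] (nat_lit 10788098)) p15_32_1 (nat_lit 4) (nat_lit 209) (nat_lit 210) = true := by decide +kernel
def p15_32_1_210 : pfC (piC [(nat_lit 35065580), (nat_lit 23538785), (nat_lit 17602610), (nat_lit 11874437)] (nat_lit 10788098)) p15_32_1 (nat_lit 4) (nat_lit 210) (nat_lit 211) = true := by decide +kernel
def p15_32_1_211 : pfC (piC [(nat_lit 35065580), (nat_lit 23538785), (nat_lit 17602610), (nat_lit 11874437)] (nat_lit 10788098)) p15_32_1 (nat_lit 4) (nat_lit 211) (nat_lit 212) = true := by decide +kernel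
def p15_32_1_212 : pfC (piC [(nat_lit 35065580), (nat_lit 23538785), (nat_lit 17602610), (nat_lit 11874437)] (nat_lit 10788098)) p15_32_1 (nat_lit 4) (nat_lit 212) (nat_lit 213) = true := by decide +kernel
def p15_32_1_213 : pfC (piC [(nat_lit 35065580), (nat_lit 23538785), (nat_lit 17602610), (nat_lit 11874437)] (nat_lit 10788098)) p15_32_1 (nat_lit 4) (nat_lit 213) (nat_lit 214) = true := by decide +kernel
def p15_32_1_214 : pfC (piC [(nat_lit 35065580), (nat_lit 23538785), (nat_lit 17602610), (nat_lit 11874437)] (nat_lit 10788098)) p15_32_1 (nat_lit 4) (nat_lit 214) (nat_lit 215) = true := by decide +kernel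
def p15_32_1_215 : pfC (piC [(nat_lit 35065580), (nat_lit 23538785), (nat_lit 17602610), (nat_lit 11874437)] (nat_lit 10788098)) p15_32_1 (nat_lit 4) (nat_lit 215) (nat_lit 216) = true := by decide +kernel
def p15_32_1_216 : pfC (piC [(nat_lit 35065580), (nat_lit 23538785), (nat_lit 17602610), (nat_lit 11874437)] (nat_lit 10788098)) p15_32_1 (nat_lit 4) (nat_lit 216) (nat_lit 217) = true := by decide +kernel
def p15_32_1_217 : pfC (piC [(nat_lit 35065580), (nat_lit 23538785), (nat_lit 17602610), (nat_lit 11874437)] (nat_lit 10788098)) p15_32_1 (nat_lit 4) (nat_lit 217) (nat_lit 218) = true := by decide +kernel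
def p15_32_1_218 : pfC (piC [(nat_lit 35065580), (nat_lit 23538785), (nat_lit 17602610), (nat_lit 11874437)] (nat_lit 10788098)) p15_32_1 (nat_lit 4) (nat_lit 218) (nat_lit 219) = true := by decide +kernel
def p15_32_1_219 : pfC (piC [(nat_lit 35065580), (nat_lit 23538785), (nat_lit 17602610), (nat_lit 11874437)] (nat_lit 10788098)) p15_32_1 (nat_lit 4) (nat_lit 219) (nat_lit 220) = true := by decide +kernel
def p15_32_1_220 : pfC (piC [(nat_lit 35065580), (nat_lit 23538785), (nat_lit 17602610), (nat_lit 11874437)] (nat_lit 10788098)) p15_32_1 (nat_lit 4) (nat_lit 220) (nat_lit 221) = true := by decide +kernel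
def p15_32_1_221 : pfC (piC [(nat_lit 35065580), (nat_lit 23538785), (nat_lit 17602610), (nat_lit 11874437)] (nat_lit 10788098)) p15_32_1 (nat_lit 4) (nat_lit 221) (nat_lit 222) = true := by decide +kernel
def p15_32_1_222 : pfC (piC [(nat_lit 35065580), (nat_lit 23538785), (nat_lit 17602610), (nat_lit 11874437)] (nat_lit 10788098)) p15_32_1 (nat_lit 4) (nat_lit 222) (nat_lit 223) = true := by decide +kernel
def p15_32_1_223 : pfC (piC [(nat_lit 35065580), (nat_lit 23538785), (nat_lit 17602610), (nat_lit 11874437)] (nat_lit 10788098)) p15_32_1 (nat_lit 4) (nat_lit 223) (nat_lit 224) = true := by decide +kernel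
def p15_32_1_224 : pfC (piC [(nat_lit 35065580), (nat_lit 23538785), (nat_lit 17602610), (nat_lit 11874437)] (nat_lit 10788098)) p15_32_1 (nat_lit 4) (nat_lit 224) (nat_lit 225) = true := by decide +kernel
def p15_32_1_225 : pfC (piC [(nat_lit 35065580), (nat_lit 23538785), (nat_lit 17602610), (nat_lit 11874437)] (nat_lit 10788098)) p15_32_1 (nat_lit 4) (nat_lit 225) (nat_lit 226) = true := by decide +kernel
def p15_32_1_226 : pfC (piC [(nat_lit 35065580), (nat_lit 23538785), (nat_lit 17602610), (nat_lit 11874437)] (nat_lit 10788098)) p15_32_1 (nat_lit 4) (nat_lit 226) (nat_lit 227) = true := by decide +kernel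
def p15_32_1_227 : pfC (piC [(nat_lit 35065580), (nat_lit 23538785), (nat_lit 17602610), (nat_lit 11874437)] (nat_lit 10788098)) p15_32_1 (nat_lit 4) (nat_lit 227) (nat_lit 228) = true := by decide +kernel
def p15_32_1_228 : pfC (piC [(nat_lit 35065580), (nat_lit 23538785), (nat_lit 17602610), (nat_lit 11874437)] (nat_lit 10788098)) p15_32_1 (nat_lit 4) (nat_lit 228) (nat_lit 229) = true := by decide +kernel
def p15_32_1_229 : pfC (piC [(nat_lit 35065580), (nat_lit 23538785), (nat_lit 17602610), (nat_lit 11874437)] (nat_lit 10788098)) p15_32_1 (nat_lit 4) (nat_lit 229) (nat_lit 230) = true := by decide +kernel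
def p15_32_1_230 : pfC (piC [(nat_lit 35065580), (nat_lit 23538785), (nat_lit 17602610), (nat_lit 11874437)] (nat_lit 10788098)) p15_32_1 (nat_lit 4) (nat_lit 230) (nat_lit 231) = true := by decide +kernel
def p15_32_1_231 : pfC (piC [(nat_lit 35065580), (nat_lit 23538785), (nat_lit 17602610), (nat_lit 11874437)] (nat_lit 10788098)) p15_32_1 (nat_lit 4) (nat_lit 231) (nat_lit 232) = true := by decide +kernel
def p15_32_1_232 : pfC (piC [(nat_lit 35065580), (nat_lit 23538785), (nat_lit 17602610), (nat_lit 11874437)] (nat_lit 10788098)) p15_32_1 (nat_lit 4) (nat_lit 232) (nat_lit 233) = true := by decide +kernel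
def p15_32_1_233 : pfC (piC [(nat_lit 35065580), (nat_lit 23538785), (nat_lit 17602610), (nat_lit 11874437)] (nat_lit 10788098)) p15_32_1 (nat_lit 4) (nat_lit 233) (nat_lit 234) = true := by decide +kernel
def p15_32_1_234 : pfC (piC [(nat_lit 35065580), (nat_lit 23538785), (nat_lit 17602610), (nat_lit 11874437)] (nat_lit 10788098)) p15_32_1 (nat_lit 4) (nat_lit 234) (nat_lit 235) = true := by decide +kernel
def p15_32_1_235 : pfC (piC [(nat_lit 35065580), (nat_lit 23538785), (nat_lit 17602610), (nat_lit 11874437)] (nat_lit 10788098)) p15_32_1 (nat_lit 4) (nat_lit 235) (nat_lit 236) = true := by decide +kernel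
def p15_32_1_236 : pfC (piC [(nat_lit 35065580), (nat_lit 23538785), (nat_lit 17602610), (nat_lit 11874437)] (nat_lit 10788098)) p15_32_1 (nat_lit 4) (nat_lit 236) (nat_lit 237) = true := by decide +kernel
def p15_32_1_237 : pfC (piC [(nat_lit 35065580), (nat_lit 23538785), (nat_lit 17602610), (nat_lit 11874437)] (nat_lit 10788098)) p15_32_1 (nat_lit 4) (nat_lit 237) (nat_lit 238) = true := by decide +kernel
def p15_32_1_238 : pfC (piC [(nat_lit 35065580), (nat_lit 23538785), (nat_lit 17602610), (nat_lit 11874437)] (nat_lit 10788098)) p15_32_1 (nat_lit 4) (nat_lit 238) (nat_lit 239) = true := by decide +kernel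
def p15_32_1_239 : pfC (piC [(nat_lit 35065580), (nat_lit 23538785), (nat_lit 17602610), (nat_lit 11874437)] (nat_lit 10788098)) p15_32_1 (nat_lit 4) (nat_lit 239) (nat_lit 240) = true := by decide +kernel
def p15_32_1_240 : pfC (piC [(nat_lit 35065580), (nat_lit 23538785), (nat_lit 17602610), (nat_lit 11874437)] (nat_lit 10788098)) p15_32_1 (nat_lit 4) (nat_lit 240) (nat_lit 241) = true := by decide +kernel
def p15_32_1_241 : pfC (piC [(nat_lit 35065580), (nat_lit 23538785), (nat_lit 17602610), (nat_lit 11874437)] (nat_lit 10788098)) p15_32_1 (nat_lit 4) (nat_lit 241) (nat_lit 242) = true := by decide +kernel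
def p15_32_1_242 : pfC (piC [(nat_lit 35065580), (nat_lit 23538785), (nat_lit 17602610), (nat_lit 11874437)] (nat_lit 10788098)) p15_32_1 (nat_lit 4) (nat_lit 242) (nat_lit 243) = true := by decide +kernel
theorem p15_32_1_T : PfS (PiF n15_32.reverse (nat_lit 10788098)) p15_32_1 (nat_lit 4) [] 0 :=
  pftab_of (los := [(nat_lit 35065580), (nat_lit 23538785), (nat_lit 17602610), (nat_lit 11874437)]) (by decide +kernel) (hi := (nat_lit 243)) (PfP.trans (PfP.trans (PfP.trans (PfP.trans (PfP.trans (PfP.trans (PfP.trans (PfP.trans (PfP.trans (PfP.trans (PfP.trans (PfP.trans (PfP.trans (PfP.trans (PfP.trans (PfP.trans (PfP.trans (PfP.trans (PfP.trans (PfP.trans (PfP.trans (PfP.trans (PfP.trans (PfP.trans (PfP.trans (PfP.trans (PfP.trans (PfP.trans (PfP.trans (PfP.trans (PfP.trans (PfP.trans (PfP.trans (PfP.trans (PfP.trans (PfP.trans (PfP.trans (PfP.trans (PfP.trans (PfP.trans (PfP.trans (PfP.trans (PfP.trans (PfP.trans (PfP.trans (PfP.trans (PfP.trans (PfP.trans (PfP.trans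 (PfP.trans (PfP.trans (PfP.trans (PfP.trans (PfP.trans (PfP.trans (PfP.trans (PfP.trans (PfP.trans (PfP.trans (PfP.trans (PfP.trans (PfP.trans (PfP.trans (PfP.trans (PfP.trans (PfP.trans (PfP.trans (PfP.trans (PfP.trans (PfP.trans (PfP.trans (PfP.trans (PfP.trans (PfP.trans (PfP.trans (PfP.trans (PfP.trans (PfP.trans (PfP.trans (PfP.trans (PfP.trans (PfP.trans (PfP.trans (PfP.trans (PfP.trans (PfP.trans (PfP.trans (PfP.trans (PfP.trans (PfP.trans (PfP.trans (PfP.trans (PfP.trans (PfP.trans (PfP.trans (PfP.trans (PfP.trans (PfP.trans (PfP.trans (PfP.trans (PfP.trans (PfP.trans (PfP.trans (PfP.trans (PfP.trans (PfP.trans (PfP.trans (PfP.trans (PfP.trans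
 (PfP.trans (PfP.trans (PfP.trans (PfP.trans (PfP.trans (PfP.trans (PfP.trans (PfP.trans (PfP.trans (PfP.trans (PfP.trans (PfP.trans (PfP.trans (PfP.trans (PfP.trans (PfP.trans (PfP.trans (PfP.trans (PfP.trans (PfP.trans (PfP.trans (PfP.trans (PfP.trans (PfP.trans (PfP.trans (PfP.trans (PfP.trans (PfP.trans (PfP.trans (PfP.trans (PfP.trans (PfP.trans (PfP.trans (PfP.trans (PfP.trans (PfP.trans (PfP.trans (PfP.trans (PfP.trans (PfP.trans (PfP.trans (PfP.trans (PfP.trans (PfP.trans (PfP.trans (PfP.trans (PfP.trans (PfP.trans (PfP.trans (PfP.trans (PfP.trans (PfP.trans (PfP.trans (PfP.trans (PfP.trans (PfP.trans (PfP.trans (PfP.trans (PfP.trans (PfP.trans (PfP.trans (PfP.trans (PfP.trans (PfP.trans (PfP.trans (PfP.trans (PfP.trans (PfP.trans (PfP.trans (PfP.trans (PfP.trans (PfP.trans (PfP.trans (PfP.trans (PfP.trans (PfP.trans (PfP.trans (PfP.trans (PfP.trans (PfP.trans (PfP.trans (PfP.trans (PfP.trans (PfP.trans (PfP.trans (PfP.trans (PfP.trans (PfP.trans (PfP.trans (PfP.trans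 (PfP.trans (PfP.trans (PfP.trans (PfP.trans (PfP.trans (PfP.trans (PfP.trans (PfP.trans (PfP.trans (PfP.trans (PfP.trans (PfP.trans (PfP.trans (PfP.trans (PfP.trans (PfP.trans (PfP.trans (PfP.trans (PfP.trans
 (PfP.trans (PfP.trans (PfP.trans (PfP.trans (PfP.trans (PfP.trans (PfP.trans (PfP.trans (PfP.trans (PfP.trans (PfP.trans (PfP.trans (PfP.trans (PfP.trans (PfP.trans (PfP.trans (PfP.trans (PfP.trans (PfP.trans (PfP.trans (PfP.trans (PfP.trans (PfP.trans (PfP.trans (pfC_sound p15_32_1_0) (pfC_sound p15_32_1_1)) (pfC_sound p15_32_1_2)) (pfC_sound p15_32_1_3)) (pfC_sound p15_32_1_4)) (pfC_sound p15_32_1_5)) (pfC_sound p15_32_1_6)) (pfC_sound p15_32_1_7)) (pfC_sound p15_32_1_8)) (pfC_sound p15_32_1_9)) (pfC_sound p15_32_1_10)) (pfC_sound p15_32_1_11)) (pfC_sound p15_32_1_12)) (pfC_sound p15_32_1_13)) (pfC_sound p15_32_1_14)) (pfC_sound p15_32_1_15)) (pfC_sound p15_32_1_16)) (pfC_sound p15_32_1_17)) (pfC_sound p15_32_1_18)) (pfC_sound p15_32_1_19)) (pfC_sound p15_32_1_20))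 (pfC_sound p15_32_1_21)) (pfC_sound p15_32_1_22)) (pfC_sound p15_32_1_23)) (pfC_sound p15_32_1_24)) (pfC_sound p15_32_1_25)) (pfC_sound p15_32_1_26)) (pfC_sound p15_32_1_27)) (pfC_sound p15_32_1_28)) (pfC_sound p15_32_1_29)) (pfC_sound p15_32_1_30)) (pfC_sound p15_32_1_31)) (pfC_sound p15_32_1_32)) (pfC_sound p15_32_1_33)) (pfC_sound p15_32_1_34)) (pfC_sound p15_32_1_35)) (pfC_sound p15_32_1_36)) (pfC_sound
 p15_32_1_37)) (pfC_sound p15_32_1_38)) (pfC_sound p15_32_1_39)) (pfC_sound p15_32_1_40)) (pfC_sound p15_32_1_41)) (pfC_sound p15_32_1_42)) (pfC_sound p15_32_1_43)) (pfC_sound p15_32_1_44)) (pfC_sound p15_32_1_45)) (pfC_sound p15_32_1_46)) (pfC_sound p15_32_1_47)) (pfC_sound p15_32_1_48)) (pfC_sound p15_32_1_49)) (pfC_sound p15_32_1_50)) (pfC_sound p15_32_1_51)) (pfC_sound p15_32_1_52)) (pfC_sound p15_32_1_53)) (pfC_sound p15_32_1_54)) (pfC_sound p15_32_1_55)) (pfC_sound p15_32_1_56)) (pfC_sound p15_32_1_57)) (pfC_sound p15_32_1_58)) (pfC_sound p15_32_1_59)) (pfC_sound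 p15_32_1_60)) (pfC_sound p15_32_1_61)) (pfC_sound p15_32_1_62)) (pfC_sound p15_32_1_63)) (pfC_sound p15_32_1_64)) (pfC_sound p15_32_1_65)) (pfC_sound p15_32_1_66)) (pfC_sound p15_32_1_67)) (pfC_sound p15_32_1_68)) (pfC_sound p15_32_1_69)) (pfC_sound p15_32_1_70)) (pfC_sound p15_32_1_71)) (pfC_sound p15_32_1_72)) (pfC_sound p15_32_1_73)) (pfC_sound p15_32_1_74)) (pfC_sound p15_32_1_75)) (pfC_sound p15_32_1_76)) (pfC_sound p15_32_1_77)) (pfC_sound p15_32_1_78)) (pfC_sound p15_32_1_79)) (pfC_sound p15_32_1_80)) (pfC_sound p15_32_1_81)) (pfC_sound p15_32_1_82)) (pfC_sound p15_32_1_83)) (pfC_sound p15_32_1_84)) (pfC_sound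
 p15_32_1_85)) (pfC_sound p15_32_1_86)) (pfC_sound p15_32_1_87)) (pfC_sound p15_32_1_88)) (pfC_sound p15_32_1_89)) (pfC_sound p15_32_1_90)) (pfC_sound p15_32_1_91)) (pfC_sound p15_32_1_92)) (pfC_sound p15_32_1_93)) (pfC_sound p15_32_1_94)) (pfC_sound p15_32_1_95)) (pfC_sound p15_32_1_96)) (pfC_sound p15_32_1_97)) (pfC_sound p15_32_1_98)) (pfC_sound p15_32_1_99)) (pfC_sound p15_32_1_100)) (pfC_sound p15_32_1_101)) (pfC_sound p15_32_1_102)) (pfC_sound p15_32_1_103)) (pfC_sound p15_32_1_104)) (pfC_sound p15_32_1_105)) (pfC_sound p15_32_1_106)) (pfC_sound p15_32_1_107)) (pfC_sound p15_32_1_108)) (pfC_sound p15_32_1_109)) (pfC_sound p15_32_1_110)) (pfC_sound p15_32_1_111)) (pfC_sound p15_32_1_112)) (pfC_sound p15_32_1_113)) (pfC_sound p15_32_1_114)) (pfC_sound p15_32_1_115)) (pfC_sound p15_32_1_116)) (pfC_sound p15_32_1_117)) (pfC_sound p15_32_1_118)) (pfC_sound p15_32_1_119)) (pfC_sound p15_32_1_120)) (pfC_sound p15_32_1_121)) (pfC_sound p15_32_1_122)) (pfC_sound p15_32_1_123))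 (pfC_sound p15_32_1_124)) (pfC_sound p15_32_1_125)) (pfC_sound p15_32_1_126)) (pfC_sound p15_32_1_127)) (pfC_sound p15_32_1_128)) (pfC_sound p15_32_1_129)) (pfC_sound p15_32_1_130)) (pfC_sound p15_32_1_131))
 (pfC_sound p15_32_1_132)) (pfC_sound p15_32_1_133)) (pfC_sound p15_32_1_134)) (pfC_sound p15_32_1_135)) (pfC_sound p15_32_1_136)) (pfC_sound p15_32_1_137)) (pfC_sound p15_32_1_138)) (pfC_sound p15_32_1_139)) (pfC_sound p15_32_1_140)) (pfC_sound p15_32_1_141)) (pfC_sound p15_32_1_142)) (pfC_sound p15_32_1_143)) (pfC_sound p15_32_1_144)) (pfC_sound p15_32_1_145)) (pfC_sound p15_32_1_146)) (pfC_sound p15_32_1_147)) (pfC_sound p15_32_1_148)) (pfC_sound p15_32_1_149)) (pfC_sound p15_32_1_150)) (pfC_sound p15_32_1_151)) (pfC_sound p15_32_1_152)) (pfC_sound p15_32_1_153)) (pfC_sound p15_32_1_154)) (pfC_sound p15_32_1_155)) (pfC_sound p15_32_1_156)) (pfC_sound p15_32_1_157)) (pfC_sound p15_32_1_158)) (pfC_sound p15_32_1_159)) (pfC_sound p15_32_1_160)) (pfC_sound p15_32_1_161))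 (pfC_sound p15_32_1_162)) (pfC_sound p15_32_1_163)) (pfC_sound p15_32_1_164)) (pfC_sound p15_32_1_165)) (pfC_sound p15_32_1_166)) (pfC_sound p15_32_1_167)) (pfC_sound p15_32_1_168)) (pfC_sound p15_32_1_169)) (pfC_sound p15_32_1_170)) (pfC_sound p15_32_1_171)) (pfC_sound p15_32_1_172)) (pfC_sound p15_32_1_173)) (pfC_sound p15_32_1_174)) (pfC_sound p15_32_1_175)) (pfC_sound p15_32_1_176)) (pfC_sound p15_32_1_177))
 (pfC_sound p15_32_1_178)) (pfC_sound p15_32_1_179)) (pfC_sound p15_32_1_180)) (pfC_sound p15_32_1_181)) (pfC_sound p15_32_1_182)) (pfC_sound p15_32_1_183)) (pfC_sound p15_32_1_184)) (pfC_sound p15_32_1_185)) (pfC_sound p15_32_1_186)) (pfC_sound p15_32_1_187)) (pfC_sound p15_32_1_188)) (pfC_sound p15_32_1_189)) (pfC_sound p15_32_1_190)) (pfC_sound p15_32_1_191)) (pfC_sound p15_32_1_192)) (pfC_sound p15_32_1_193)) (pfC_sound p15_32_1_194)) (pfC_sound p15_32_1_195)) (pfC_sound p15_32_1_196)) (pfC_sound p15_32_1_197)) (pfC_sound p15_32_1_198)) (pfC_sound p15_32_1_199))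 (pfC_sound p15_32_1_200)) (pfC_sound p15_32_1_201)) (pfC_sound p15_32_1_202)) (pfC_sound p15_32_1_203)) (pfC_sound p15_32_1_204)) (pfC_sound p15_32_1_205)) (pfC_sound p15_32_1_206)) (pfC_sound p15_32_1_207)) (pfC_sound p15_32_1_208)) (pfC_sound p15_32_1_209)) (pfC_sound p15_32_1_210)) (pfC_sound p15_32_1_211)) (pfC_sound p15_32_1_212)) (pfC_sound p15_32_1_213)) (pfC_sound p15_32_1_214)) (pfC_sound p15_32_1_215)) (pfC_sound p15_32_1_216)) (pfC_sound p15_32_1_217)) (pfC_sound p15_32_1_218)) (pfC_sound p15_32_1_219)) (pfC_sound p15_32_1_220)) (pfC_sound p15_32_1_221)) (pfC_sound p15_32_1_222)) (pfC_sound p15_32_1_223))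
 (pfC_sound p15_32_1_224)) (pfC_sound p15_32_1_225)) (pfC_sound p15_32_1_226)) (pfC_sound p15_32_1_227)) (pfC_sound p15_32_1_228)) (pfC_sound p15_32_1_229)) (pfC_sound p15_32_1_230)) (pfC_sound p15_32_1_231)) (pfC_sound p15_32_1_232)) (pfC_sound p15_32_1_233)) (pfC_sound p15_32_1_234)) (pfC_sound p15_32_1_235)) (pfC_sound p15_32_1_236)) (pfC_sound p15_32_1_237)) (pfC_sound p15_32_1_238)) (pfC_sound p15_32_1_239)) (pfC_sound p15_32_1_240)) (pfC_sound p15_32_1_241)) (pfC_sound p15_32_1_242)) (by decide +kernel)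

def z15_32_1 : zOK yB15_32 (nat_lit 1) (nat_lit 400) (nat_lit 600) (nat_lit 10788098) (nat_lit 6971554) = true := by decide +kernel
def g15_32_1 : gOK yB15_32.x P15_32 (nat_lit 1397) (q15_32 :: r15_32) (nat_lit 1) (nat_lit 400) (nat_lit 2) (nat_lit 600) (nat_lit 11000000) (nat_lit 17850000) (nat_lit 12712500) (nat_lit 12712500) [(nat_lit 800), (nat_lit 1130)] = true := by decide +kernel
def v15_32_1 : ivC P15_32 s15_32 w15_32 n15_32 (nat_lit 4) (nat_lit 4925) (nat_lit 1) (nat_lit 400) f168_1_400 f176_1_400 (nat_lit 2) (nat_lit 600) f168_1_600 f176_1_600 (nat_lit 10788098) (nat_lit 6971554) p15_32_1 = true := by decide +kernel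
def p15_32_2 : PF := (PF.cons (PF.cons (PF.cons (PF.cons (PF.leaf (nat_lit 2700292) (nat_lit 15478547) (nat_lit 51630265) (nat_lit 15478547) [(nat_lit 0), (nat_lit 0), (nat_lit 0), (nat_lit 0)]) (PF.cons (PF.leaf (nat_lit 2934195) (nat_lit 441424) (nat_lit 51213304) (nat_lit 15454083) [(nat_lit 441424), (nat_lit 0), (nat_lit 0), (nat_lit 0)]) (PF.cons (PF.leaf (nat_lit 3208134) (nat_lit 478575) (nat_lit 50729197) (nat_lit 15422464) [(nat_lit 478575), (nat_lit 0), (nat_lit 0), (nat_lit 0)]) (PF.cons (PF.leaf (nat_lit 3513939) (nat_lit 510944) (nat_lit 50192451) (nat_lit 15383529) [(nat_lit 510944), (nat_lit 0), (nat_lit 0), (nat_lit 0)]) (PF.cons (PF.leaf (nat_lit 3846179) (nat_lit 539525) (nat_lit 49613582) (nat_lit 15337129) [(nat_lit 539525), (nat_lit 0), (nat_lit 0), (nat_lit 0)]) (PF.cons (PF.leaf (nat_lit 4200620) (nat_lit 564959) (nat_lit 49000815) (nat_lit 15283199) [(nat_lit 564959), (nat_lit 0), (nat_lit 0), (nat_lit 0)]) (PF.cons (PF.leaf (nat_lit 4573775) (nat_lit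 587693) (nat_lit 48360883) (nat_lit 15221765) [(nat_lit 587693), (nat_lit 0), (nat_lit 0), (nat_lit 0)]) (PF.cons (PF.leaf (nat_lit 4962653) (nat_lit 608058) (nat_lit 47699447) (nat_lit 15152953) [(nat_lit 608058), (nat_lit 0),
 (nat_lit 0), (nat_lit 0)]) (PF.cons (PF.leaf (nat_lit 5364676) (nat_lit 626311) (nat_lit 47021353) (nat_lit 15076971) [(nat_lit 626311), (nat_lit 0), (nat_lit 0), (nat_lit 0)]) (PF.cons (PF.leaf (nat_lit 5777562) (nat_lit 642657) (nat_lit 46330790) (nat_lit 14994103) [(nat_lit 642657), (nat_lit 0), (nat_lit 0), (nat_lit 0)]) (PF.cons (PF.leaf (nat_lit 6199294) (nat_lit 657271) (nat_lit 45631404) (nat_lit 14904691) [(nat_lit 657271), (nat_lit 0), (nat_lit 0), (nat_lit 0)]) (PF.cons PF.nil (PF.cons PF.nil (PF.cons PF.nil PF.nil)))))))))))))) (PF.cons (PF.cons (PF.leaf (nat_lit 3354072) (nat_lit 1634694) (nat_lit 50103871) (nat_lit 15370247) [(nat_lit 0), (nat_lit 1634694), (nat_lit 0), (nat_lit 0)]) (PF.cons (PF.leaf (nat_lit 3646641) (nat_lit 517733)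 (nat_lit 49583846) (nat_lit 15328122) [(nat_lit 517733), (nat_lit 1679110), (nat_lit 0), (nat_lit 0)]) (PF.cons (PF.leaf (nat_lit 3968214) (nat_lit 545550) (nat_lit 49018538) (nat_lit 15278315) [(nat_lit 545550), (nat_lit 1720858), (nat_lit 0), (nat_lit 0)]) (PF.cons (PF.leaf (nat_lit 4313292) (nat_lit 570209) (nat_lit 48417813) (nat_lit 15220942) [(nat_lit 570209), (nat_lit 1759429), (nat_lit 0), (nat_lit 0)]) (PF.cons (PF.leaf
 (nat_lit 4677896) (nat_lit 592195) (nat_lit 47789227) (nat_lit 15156150) [(nat_lit 592195), (nat_lit 1794651), (nat_lit 0), (nat_lit 0)]) (PF.cons (PF.leaf (nat_lit 5058775) (nat_lit 611854) (nat_lit 47138880) (nat_lit 15084139) [(nat_lit 611854), (nat_lit 1826522), (nat_lit 0), (nat_lit 0)]) (PF.cons (PF.leaf (nat_lit 5453186) (nat_lit 629446) (nat_lit 46471844) (nat_lit 15005170) [(nat_lit 629446), (nat_lit 1855120), (nat_lit 0), (nat_lit 0)]) (PF.cons (PF.leaf (nat_lit 5858760) (nat_lit 645179) (nat_lit 45792423) (nat_lit 14919560) [(nat_lit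 645179), (nat_lit 1880569), (nat_lit 0), (nat_lit 0)]) (PF.cons (PF.leaf (nat_lit 6273419) (nat_lit 659226) (nat_lit 45104310) (nat_lit 14827672) [(nat_lit 659226), (nat_lit 1903017), (nat_lit 0), (nat_lit 0)]) (PF.cons (PF.leaf (nat_lit 6695295) (nat_lit 671732) (nat_lit 44410694) (nat_lit 14729903) [(nat_lit 671732), (nat_lit 1922620), (nat_lit 0), (nat_lit 0)]) (PF.cons PF.nil (PF.cons PF.nil PF.nil)))))))))))) (PF.cons (PF.cons (PF.leaf (nat_lit 4094340) (nat_lit 1741259) (nat_lit 48412263) (nat_lit 15214031) [(nat_lit 0), (nat_lit 1741259), (nat_lit 0), (nat_lit 0)]) (PF.cons (PF.leaf (nat_lit 4427994) (nat_lit 574329) (nat_lit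
 47828031) (nat_lit 15153954) [(nat_lit 574329), (nat_lit 1776248), (nat_lit 0), (nat_lit 0)]) (PF.cons (PF.leaf (nat_lit 4782889) (nat_lit 595778) (nat_lit 47213923) (nat_lit 15086414) [(nat_lit 595778), (nat_lit 1808459), (nat_lit 0), (nat_lit 0)]) (PF.cons (PF.leaf (nat_lit 5154995) (nat_lit 614882) (nat_lit 46576955) (nat_lit 15011731) [(nat_lit 614882), (nat_lit 1837739), (nat_lit 0), (nat_lit 0)]) (PF.cons (PF.leaf (nat_lit 5541267) (nat_lit 631930) (nat_lit 45922699) (nat_lit 14930239) [(nat_lit 631930), (nat_lit 1864076), (nat_lit 0), (nat_lit 0)]) (PF.cons (PF.leaf (nat_lit 5939143) (nat_lit 647141) (nat_lit 45255737) (nat_lit 14842302) [(nat_lit 647141), (nat_lit 1887532), (nat_lit 0), (nat_lit 0)]) (PF.cons (PF.leaf (nat_lit 6346470) (nat_lit 660695) (nat_lit 44579913) (nat_lit 14748310) [(nat_lit 660695), (nat_lit 1908209), (nat_lit 0), (nat_lit 0)]) (PF.cons (PF.leaf (nat_lit 6761304) (nat_lit 672738) (nat_lit 43898497) (nat_lit 14648676) [(nat_lit 672738),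 (nat_lit 1926233), (nat_lit 0), (nat_lit 0)]) (PF.cons PF.nil (PF.cons PF.nil PF.nil)))))))))) (PF.cons (PF.cons (PF.leaf (nat_lit 4890384) (nat_lit 1820929) (nat_lit 46633594) (nat_lit 15012431) [(nat_lit 0),
 (nat_lit 1820929), (nat_lit 0), (nat_lit 0)]) (PF.cons (PF.leaf (nat_lit 5252331) (nat_lit 617119) (nat_lit 46012791) (nat_lit 14935685) [(nat_lit 617119), (nat_lit 1847738), (nat_lit 0), (nat_lit 0)]) (PF.cons (PF.leaf (nat_lit 5629686) (nat_lit 633751) (nat_lit 45373326) (nat_lit 14852184) [(nat_lit 633751), (nat_lit 1871932), (nat_lit 0), (nat_lit 0)]) (PF.cons (PF.leaf (nat_lit 6019355) (nat_lit 648539) (nat_lit 44720314) (nat_lit 14762364) [(nat_lit 648539), (nat_lit 1893504), (nat_lit 0), (nat_lit 0)]) (PF.cons (PF.leaf (nat_lit 6418967) (nat_lit 661677) (nat_lit 44057904) (nat_lit 14666658) [(nat_lit 661677), (nat_lit 1912512), (nat_lit 0), (nat_lit 0)]) (PF.cons (PF.leaf (nat_lit 6826502) (nat_lit 673322) (nat_lit 43389544) (nat_lit 14565507) [(nat_lit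 673322), (nat_lit 1929049), (nat_lit 0), (nat_lit 0)]) (PF.cons (PF.leaf (nat_lit 7240210) (nat_lit 683608) (nat_lit 42718132) (nat_lit 14459353) [(nat_lit 683608), (nat_lit 1943226), (nat_lit 0), (nat_lit 0)]) (PF.cons PF.nil (PF.cons PF.nil PF.nil))))))))) (PF.cons (PF.cons (PF.leaf (nat_lit 5719620) (nat_lit 1878770) (nat_lit 44822788) (nat_lit 14770943) [(nat_lit 0), (nat_lit 1878770), (nat_lit 0), (nat_lit 0)]) (PF.cons
 (PF.leaf (nat_lit 6100112) (nat_lit 649356) (nat_lit 44185510) (nat_lit 14679734) [(nat_lit 649356), (nat_lit 1898552), (nat_lit 0), (nat_lit 0)]) (PF.cons (PF.leaf (nat_lit 6491502) (nat_lit 662166) (nat_lit 43537819) (nat_lit 14582735) [(nat_lit 662166), (nat_lit 1915981), (nat_lit 0), (nat_lit 0)]) (PF.cons (PF.leaf (nat_lit 6891377) (nat_lit 673481) (nat_lit 42883482) (nat_lit 14480430) [(nat_lit 673481), (nat_lit 1931113), (nat_lit 0), (nat_lit 0)]) (PF.cons (PF.leaf (nat_lit 7297858) (nat_lit 683446) (nat_lit 42225593) (nat_lit 14373286) [(nat_lit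 683446), (nat_lit 1944037), (nat_lit 0), (nat_lit 0)]) (PF.cons PF.nil (PF.cons PF.nil PF.nil))))))) (PF.cons (PF.cons (PF.leaf (nat_lit 6564972) (nat_lit 1918664) (nat_lit 43018978) (nat_lit 14496511) [(nat_lit 0), (nat_lit 1918664), (nat_lit 0), (nat_lit 0)]) (PF.cons (PF.leaf (nat_lit 6956489) (nat_lit 673204) (nat_lit 42379815) (nat_lit 14393446) [(nat_lit 673204), (nat_lit 1932469), (nat_lit 0), (nat_lit 0)]) (PF.cons (PF.leaf (nat_lit 7355397) (nat_lit 682909) (nat_lit 41736289) (nat_lit 14285647) [(nat_lit 682909), (nat_lit 1944211), (nat_lit 0), (nat_lit 0)]) (PF.cons (PF.leaf (nat_lit 7759770) (nat_lit 691387) (nat_lit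
 41091182) (nat_lit 14173596) [(nat_lit 691387), (nat_lit 1953974), (nat_lit 0), (nat_lit 0)]) (PF.cons PF.nil PF.nil))))) (PF.cons (PF.cons (PF.leaf (nat_lit 7413537) (nat_lit 1943780) (nat_lit 41249708) (nat_lit 14196422) [(nat_lit 0), (nat_lit 1943780), (nat_lit 0), (nat_lit 0)]) (PF.cons (PF.leaf (nat_lit 7810288) (nat_lit 690263) (nat_lit 40619092) (nat_lit 14084158) [(nat_lit 690263), (nat_lit 1952549), (nat_lit 0), (nat_lit 0)]) (PF.cons PF.nil (PF.cons PF.nil PF.nil)))) (PF.cons (PF.cons (PF.leaf (nat_lit 8255687) (nat_lit 1956770) (nat_lit 39533799) (nat_lit 13877621) [(nat_lit 0), (nat_lit 1956770), (nat_lit 0), (nat_lit 0)]) (PF.cons PF.nil PF.nil)) (PF.cons PF.nil PF.nil))))))))) (PF.cons (PF.cons (PF.cons (PF.leaf (nat_lit 3917222) (nat_lit 3903150) (nat_lit 48054719) (nat_lit 15150942) [(nat_lit 0), (nat_lit 0), (nat_lit 3903150), (nat_lit 0)]) (PF.cons (PF.leaf (nat_lit 4217594) (nat_lit 545027) (nat_lit 47532191) (nat_lit 15095914) [(nat_lit 545027), (nat_lit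 0), (nat_lit 3935680), (nat_lit 0)]) (PF.cons (PF.leaf (nat_lit 4544841) (nat_lit 570182) (nat_lit 46969129) (nat_lit 15032989) [(nat_lit 570182), (nat_lit 0), (nat_lit 3966329), (nat_lit 0)]) (PF.cons (PF.leaf
 (nat_lit 4893392) (nat_lit 592165) (nat_lit 46375390) (nat_lit 14962666) [(nat_lit 592165), (nat_lit 0), (nat_lit 3994257), (nat_lit 0)]) (PF.cons (PF.leaf (nat_lit 5259315) (nat_lit 611534) (nat_lit 45758310) (nat_lit 14885366) [(nat_lit 611534), (nat_lit 0), (nat_lit 4018997), (nat_lit 0)]) (PF.cons (PF.leaf (nat_lit 5639481) (nat_lit 628672) (nat_lit 45123652) (nat_lit 14801490) [(nat_lit 628672), (nat_lit 0), (nat_lit 4040308), (nat_lit 0)]) (PF.cons (PF.leaf (nat_lit 6031295) (nat_lit 643861) (nat_lit 44476101) (nat_lit 14711446) [(nat_lit 643861), (nat_lit 0), (nat_lit 4058095), (nat_lit 0)]) (PF.cons (PF.leaf (nat_lit 6432539) (nat_lit 657320) (nat_lit 43819553) (nat_lit 14615647) [(nat_lit 657320), (nat_lit 0), (nat_lit 4072364), (nat_lit 0)]) (PF.cons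 (PF.leaf (nat_lit 6841309) (nat_lit 669226) (nat_lit 43157293) (nat_lit 14514521) [(nat_lit 669226), (nat_lit 0), (nat_lit 4083185), (nat_lit 0)]) (PF.cons PF.nil PF.nil)))))))))) (PF.cons (PF.cons (PF.leaf (nat_lit 4661834) (nat_lit 1788944) (nat_lit 46381013) (nat_lit 14957353) [(nat_lit 0), (nat_lit 1788944), (nat_lit 3981501), (nat_lit 0)]) (PF.cons (PF.leaf (nat_lit 4998392) (nat_lit 594130) (nat_lit 45806162) (nat_lit
 14885572) [(nat_lit 594130), (nat_lit 1817420), (nat_lit 4005526), (nat_lit 0)]) (PF.cons (PF.leaf (nat_lit 5354226) (nat_lit 613213) (nat_lit 45205531) (nat_lit 14806690) [(nat_lit 613213), (nat_lit 1843337), (nat_lit 4026827), (nat_lit 0)]) (PF.cons (PF.leaf (nat_lit 5725387) (nat_lit 630008) (nat_lit 44585856) (nat_lit 14721240) [(nat_lit 630008), (nat_lit 1866612), (nat_lit 4045077), (nat_lit 0)]) (PF.cons (PF.leaf (nat_lit 6108955) (nat_lit 644835) (nat_lit 43952367) (nat_lit 14629706) [(nat_lit 644835), (nat_lit 1887270), (nat_lit 4060127),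 (nat_lit 0)]) (PF.cons (PF.leaf (nat_lit 6502511) (nat_lit 657930) (nat_lit 43309276) (nat_lit 14532553) [(nat_lit 657930), (nat_lit 1905388), (nat_lit 4071941), (nat_lit 0)]) (PF.cons (PF.leaf (nat_lit 6904019) (nat_lit 669482) (nat_lit 42660053) (nat_lit 14430233) [(nat_lit 669482), (nat_lit 1921075), (nat_lit 4080556), (nat_lit 0)]) (PF.cons (PF.leaf (nat_lit 7311722) (nat_lit 679643) (nat_lit 42007599) (nat_lit 14323196) [(nat_lit 679643), (nat_lit 1934452), (nat_lit 4086061), (nat_lit 0)]) (PF.cons PF.nil PF.nil))))))))) (PF.cons (PF.cons (PF.leaf (nat_lit 5452020) (nat_lit 1851146) (nat_lit 44649265) (nat_lit 14724454) [(nat_lit 0),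
 (nat_lit 1851146), (nat_lit 4032799), (nat_lit 0)]) (PF.cons (PF.leaf (nat_lit 5812814) (nat_lit 630652) (nat_lit 44047021) (nat_lit 14638018) [(nat_lit 630652), (nat_lit 1872477), (nat_lit 4048165), (nat_lit 0)]) (PF.cons (PF.leaf (nat_lit 6187364) (nat_lit 645234) (nat_lit 43429326) (nat_lit 14545477) [(nat_lit 645234), (nat_lit 1891445), (nat_lit 4060647), (nat_lit 0)]) (PF.cons (PF.leaf (nat_lit 6572703) (nat_lit 658055) (nat_lit 42800950) (nat_lit 14447373) [(nat_lit 658055), (nat_lit 1908079), (nat_lit 4070163), (nat_lit 0)]) (PF.cons (PF.leaf (nat_lit 6966585) (nat_lit 669323) (nat_lit 42165693) (nat_lit 14344209) [(nat_lit 669323), (nat_lit 1922448), (nat_lit 4076718), (nat_lit 0)]) (PF.cons (PF.leaf (nat_lit 7367130) (nat_lit 679203) (nat_lit 41526658) (nat_lit 14236459) [(nat_lit 679203), (nat_lit 1934652), (nat_lit 4080375), (nat_lit 0)]) (PF.cons PF.nil PF.nil))))))) (PF.cons (PF.cons (PF.leaf (nat_lit 6267648) (nat_lit 1894810) (nat_lit 42905993) (nat_lit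 14458661) [(nat_lit 0), (nat_lit 1894810), (nat_lit 4059726), (nat_lit 0)]) (PF.cons (PF.leaf (nat_lit 6643819) (nat_lit 657672) (nat_lit 42293884) (nat_lit 14360065) [(nat_lit 657672), (nat_lit 1910032), (nat_lit
 4067093), (nat_lit 0)]) (PF.cons (PF.leaf (nat_lit 7029561) (nat_lit 668736) (nat_lit 41673706) (nat_lit 14256435) [(nat_lit 668736), (nat_lit 1923156), (nat_lit 4071726), (nat_lit 0)]) (PF.cons (PF.leaf (nat_lit 7422590) (nat_lit 678397) (nat_lit 41048899) (nat_lit 14148294) [(nat_lit 678397), (nat_lit 1934254), (nat_lit 4073662), (nat_lit 0)]) (PF.cons (PF.leaf (nat_lit 7821164) (nat_lit 686803) (nat_lit 40422245) (nat_lit 14036126) [(nat_lit 686803), (nat_lit 1943414), (nat_lit 4072981), (nat_lit 0)]) PF.nil))))) (PF.cons (PF.cons (PF.leaf (nat_lit 7093804) (nat_lit 1923235) (nat_lit 41183388) (nat_lit 14166853) [(nat_lit 0), (nat_lit 1923235), (nat_lit 4065629), (nat_lit 0)]) (PF.cons (PF.leaf (nat_lit 7478627) (nat_lit 677211) (nat_lit 40573801) (nat_lit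 14058676) [(nat_lit 677211), (nat_lit 1933288), (nat_lit 4065968), (nat_lit 0)]) (PF.cons (PF.leaf (nat_lit 7869825) (nat_lit 685453) (nat_lit 39961444) (nat_lit 13946516) [(nat_lit 685453), (nat_lit 1941521), (nat_lit 4063858), (nat_lit 0)]) (PF.cons PF.nil PF.nil)))) (PF.cons (PF.cons (PF.leaf (nat_lit 7919397) (nat_lit 1939142) (nat_lit 39503489) (nat_lit 13855711) [(nat_lit 0), (nat_lit 1939142), (nat_lit 4053899),
 (nat_lit 0)]) (PF.cons (PF.leaf (nat_lit 8307778) (nat_lit 690746) (nat_lit 38905077) (nat_lit 13740404) [(nat_lit 690746), (nat_lit 1944865), (nat_lit 4048258), (nat_lit 0)]) PF.nil)) (PF.cons PF.nil (PF.cons PF.nil PF.nil)))))))) (PF.cons (PF.cons (PF.cons (PF.leaf (nat_lit 5210534) (nat_lit 4003134) (nat_lit 44430956) (nat_lit 14671588) [(nat_lit 0), (nat_lit 0), (nat_lit 4003134), (nat_lit 0)]) (PF.cons (PF.leaf (nat_lit 5547699) (nat_lit 608682) (nat_lit 43871236) (nat_lit 14590811) [(nat_lit 608682), (nat_lit 0), (nat_lit 4019041), (nat_lit 0)])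 (PF.cons (PF.leaf (nat_lit 5902458) (nat_lit 625718) (nat_lit 43289156) (nat_lit 14503379) [(nat_lit 625718), (nat_lit 0), (nat_lit 4032419), (nat_lit 0)]) (PF.cons (PF.leaf (nat_lit 6270940) (nat_lit 640531) (nat_lit 42691120) (nat_lit 14409977) [(nat_lit 640531), (nat_lit 0), (nat_lit 4043059), (nat_lit 0)]) (PF.cons (PF.leaf (nat_lit 6650335) (nat_lit 653462) (nat_lit 42082007) (nat_lit 14311192) [(nat_lit 653462), (nat_lit 0), (nat_lit 4050881), (nat_lit 0)]) (PF.cons (PF.leaf (nat_lit 7038374) (nat_lit 664760) (nat_lit 41465680) (nat_lit 14207546) [(nat_lit 664760), (nat_lit 0), (nat_lit 4055890), (nat_lit 0)]) (PF.cons (PF.leaf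
 (nat_lit 7433158) (nat_lit 674619) (nat_lit 40845272) (nat_lit 14099528) [(nat_lit 674619), (nat_lit 0), (nat_lit 4058148), (nat_lit 0)]) (PF.cons PF.nil (PF.cons PF.nil PF.nil))))))))) (PF.cons (PF.cons (PF.leaf (nat_lit 5991065) (nat_lit 1869048) (nat_lit 42759462) (nat_lit 14415514) [(nat_lit 0), (nat_lit 1869048), (nat_lit 4032393), (nat_lit 0)]) (PF.cons (PF.leaf (nat_lit 6349126) (nat_lit 639917) (nat_lit 42179417) (nat_lit 14322013) [(nat_lit 639917), (nat_lit 1885854), (nat_lit 4040804), (nat_lit 0)]) (PF.cons (PF.leaf (nat_lit 6719527) (nat_lit 652739) (nat_lit 41586495) (nat_lit 14223035) [(nat_lit 652739), (nat_lit 1900518), (nat_lit 4046642), (nat_lit 0)]) (PF.cons (PF.leaf (nat_lit 7099438) (nat_lit 663881) (nat_lit 40985129) (nat_lit 14119191) [(nat_lit 663881), (nat_lit 1913090), (nat_lit 4049878), (nat_lit 0)]) (PF.cons (PF.leaf (nat_lit 7486740) (nat_lit 673561) (nat_lit 40378795) (nat_lit 14011020) [(nat_lit 673561), (nat_lit 1923653), (nat_lit 4050548),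 (nat_lit 0)]) (PF.cons (PF.leaf (nat_lit 7879677) (nat_lit 681947) (nat_lit 39770292) (nat_lit 13899012) [(nat_lit 681947), (nat_lit 1932309), (nat_lit 4048731), (nat_lit 0)]) (PF.cons PF.nil PF.nil)))))))
 (PF.cons (PF.cons (PF.leaf (nat_lit 6790889) (nat_lit 1901155) (nat_lit 41091234) (nat_lit 14132779) [(nat_lit 0), (nat_lit 1901155), (nat_lit 4041244), (nat_lit 0)]) (PF.cons (PF.leaf (nat_lit 7161733) (nat_lit 662550) (nat_lit 40506198) (nat_lit 14029159) [(nat_lit 662550), (nat_lit 1912617), (nat_lit 4042834), (nat_lit 0)]) (PF.cons (PF.leaf (nat_lit 7541048) (nat_lit 672126) (nat_lit 39914904) (nat_lit 13921178) [(nat_lit 672126), (nat_lit 1922203), (nat_lit 4042034), (nat_lit 0)]) (PF.cons (PF.leaf (nat_lit 7926659) (nat_lit 680383) (nat_lit 39320492) (nat_lit 13809377) [(nat_lit 680383), (nat_lit 1929991), (nat_lit 4038903), (nat_lit 0)]) (PF.cons PF.nil PF.nil))))) (PF.cons (PF.cons (PF.leaf (nat_lit 7596906) (nat_lit 1920244) (nat_lit 39452891) (nat_lit 13829918)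 [(nat_lit 0), (nat_lit 1920244), (nat_lit 4032635), (nat_lit 0)]) (PF.cons (PF.leaf (nat_lit 7974510) (nat_lit 678483) (nat_lit 38873440) (nat_lit 13718646) [(nat_lit 678483), (nat_lit 1927217), (nat_lit 4028295), (nat_lit 0)]) (PF.cons (PF.leaf (nat_lit 8357648) (nat_lit 685484) (nat_lit 38292392) (nat_lit 13604031) [(nat_lit 685484), (nat_lit 1932576), (nat_lit 4021844), (nat_lit 0)]) (PF.cons PF.nil PF.nil))))
 (PF.cons (PF.cons (PF.leaf (nat_lit 8399526) (nat_lit 1928686) (nat_lit 37862149) (nat_lit 13512928) [(nat_lit 0), (nat_lit 1928686), (nat_lit 4009493), (nat_lit 0)]) (PF.cons (PF.leaf (nat_lit 8779370) (nat_lit 689082) (nat_lit 37295507) (nat_lit 13396232) [(nat_lit 689082), (nat_lit 1931920), (nat_lit 4000154), (nat_lit 0)]) PF.nil)) (PF.cons PF.nil PF.nil)))))) (PF.cons (PF.cons (PF.cons (PF.leaf (nat_lit 6507623) (nat_lit 4015812) (nat_lit 40968081) (nat_lit 14093292) [(nat_lit 0), (nat_lit 0), (nat_lit 4015812), (nat_lit 0)]) (PF.cons (PF.leaf (nat_lit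 6861763) (nat_lit 645728) (nat_lit 40412327) (nat_lit 13994907) [(nat_lit 645728), (nat_lit 0), (nat_lit 4018616), (nat_lit 0)]) (PF.cons (PF.leaf (nat_lit 7227075) (nat_lit 657033) (nat_lit 39845765) (nat_lit 13891627) [(nat_lit 657033), (nat_lit 0), (nat_lit 4019117), (nat_lit 0)]) (PF.cons (PF.leaf (nat_lit 7600811) (nat_lit 666737) (nat_lit 39272505) (nat_lit 13784106) [(nat_lit 666737), (nat_lit 0), (nat_lit 4017329), (nat_lit 0)]) (PF.cons (PF.leaf (nat_lit 7980976) (nat_lit 675063) (nat_lit 38695727) (nat_lit 13672897) [(nat_lit 675063), (nat_lit 0), (nat_lit 4013311), (nat_lit 0)]) (PF.cons PF.nil (PF.cons PF.nil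
 PF.nil))))))) (PF.cons (PF.cons (PF.leaf (nat_lit 7290240) (nat_lit 1899843) (nat_lit 39378509) (nat_lit 13799604) [(nat_lit 0), (nat_lit 1899843), (nat_lit 4010285), (nat_lit 0)]) (PF.cons (PF.leaf (nat_lit 7655079) (nat_lit 664659) (nat_lit 38821324) (nat_lit 13692866) [(nat_lit 664659), (nat_lit 1908198), (nat_lit 4007254), (nat_lit 0)]) (PF.cons (PF.leaf (nat_lit 8027454) (nat_lit 672962) (nat_lit 38259277) (nat_lit 13582356) [(nat_lit 672962), (nat_lit 1914869), (nat_lit 4002128), (nat_lit 0)]) (PF.cons (PF.leaf (nat_lit 8405306) (nat_lit 680024) (nat_lit 37695238) (nat_lit 13468620) [(nat_lit 680024), (nat_lit 1919940), (nat_lit 3994979), (nat_lit 0)]) (PF.cons PF.nil PF.nil))))) (PF.cons (PF.cons (PF.leaf (nat_lit 8075717) (nat_lit 1911320) (nat_lit 37824771) (nat_lit 13490706) [(nat_lit 0), (nat_lit 1911320), (nat_lit 3990231), (nat_lit 0)]) (PF.cons (PF.leaf (nat_lit 8445795) (nat_lit 677565) (nat_lit 37275234) (nat_lit 13377929) [(nat_lit 677565), (nat_lit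 1915761), (nat_lit 3982186), (nat_lit 0)]) (PF.cons (PF.leaf (nat_lit 8820714) (nat_lit 683512) (nat_lit 36724955) (nat_lit 13262352) [(nat_lit 683512), (nat_lit 1918767), (nat_lit 3972314), (nat_lit 0)]) (PF.cons
 PF.nil PF.nil)))) (PF.cons (PF.cons (PF.leaf (nat_lit 8855697) (nat_lit 1913712) (nat_lit 36321176) (nat_lit 13171913) [(nat_lit 0), (nat_lit 1913712), (nat_lit 3958194), (nat_lit 0)]) (PF.cons PF.nil PF.nil)) (PF.cons PF.nil PF.nil))))) (PF.cons (PF.cons (PF.cons (PF.leaf (nat_lit 7766821) (nat_lit 3969823) (nat_lit 37765508) (nat_lit 13464011) [(nat_lit 0), (nat_lit 0), (nat_lit 3969823), (nat_lit 0)]) (PF.cons (PF.leaf (nat_lit 8125187) (nat_lit 664538) (nat_lit 37236168) (nat_lit 13355672) [(nat_lit 664538), (nat_lit 0), (nat_lit 3963108), (nat_lit 0)]) (PF.cons (PF.leaf (nat_lit 8490324) (nat_lit 671749) (nat_lit 36703041) (nat_lit 13244071) [(nat_lit 671749), (nat_lit 0), (nat_lit 3954550), (nat_lit 0)]) (PF.cons (PF.leaf (nat_lit 8860260) (nat_lit 677792)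 (nat_lit 36168755) (nat_lit 13129747) [(nat_lit 677792), (nat_lit 0), (nat_lit 3944233), (nat_lit 0)]) (PF.cons PF.nil PF.nil))))) (PF.cons (PF.cons (PF.leaf (nat_lit 8531731) (nat_lit 1897764) (nat_lit 36294884) (nat_lit 13153002) [(nat_lit 0), (nat_lit 1897764), (nat_lit 3940790), (nat_lit 0)]) (PF.cons (PF.leaf (nat_lit 8894143) (nat_lit 674900) (nat_lit 35774517) (nat_lit 13039960) [(nat_lit 674900), (nat_lit 1900122),
 (nat_lit 3929828), (nat_lit 0)]) (PF.cons PF.nil (PF.cons PF.nil PF.nil)))) (PF.cons (PF.cons (PF.leaf (nat_lit 9289631) (nat_lit 1895258) (nat_lit 34875273) (nat_lit 12835506) [(nat_lit 0), (nat_lit 1895258), (nat_lit 3901879), (nat_lit 0)]) (PF.cons PF.nil PF.nil)) PF.nil))) (PF.cons (PF.cons (PF.cons (PF.leaf (nat_lit 8966458) (nat_lit 3886186) (nat_lit 34858258) (nat_lit 12819622) [(nat_lit 0), (nat_lit 0), (nat_lit 3886186), (nat_lit 0)]) (PF.cons (PF.leaf (nat_lit 9321152) (nat_lit 670844) (nat_lit 34365981) (nat_lit 12707267) [(nat_lit 670844),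 (nat_lit 0), (nat_lit 3872944), (nat_lit 0)]) PF.nil)) (PF.cons PF.nil PF.nil)) (PF.cons PF.nil (PF.cons PF.nil PF.nil)))))))) (PF.cons (PF.cons (PF.cons (PF.cons (PF.leaf (nat_lit 4677495) (nat_lit 8588865) (nat_lit 44005209) (nat_lit 14514737) [(nat_lit 0), (nat_lit 0), (nat_lit 0), (nat_lit 8588865)]) (PF.cons (PF.leaf (nat_lit 4972650) (nat_lit 552921) (nat_lit 43530653) (nat_lit 14448027) [(nat_lit 552921), (nat_lit 0), (nat_lit 0), (nat_lit 8577209)]) (PF.cons (PF.leaf (nat_lit 5292479) (nat_lit 575889) (nat_lit 43021504) (nat_lit 14373725) [(nat_lit 575889), (nat_lit 0), (nat_lit 0), (nat_lit 8561803)]) (PF.cons (PF.leaf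
 (nat_lit 5631440) (nat_lit 595588) (nat_lit 42486790) (nat_lit 14292719) [(nat_lit 595588), (nat_lit 0), (nat_lit 0), (nat_lit 8542537)]) (PF.cons (PF.leaf (nat_lit 5985718) (nat_lit 612651) (nat_lit 41933119) (nat_lit 14205697) [(nat_lit 612651), (nat_lit 0), (nat_lit 0), (nat_lit 8519389)]) (PF.cons (PF.leaf (nat_lit 6352336) (nat_lit 627515) (nat_lit 41365588) (nat_lit 14113238) [(nat_lit 627515), (nat_lit 0), (nat_lit 0), (nat_lit 8492410)]) (PF.cons (PF.leaf (nat_lit 6728855) (nat_lit 640496) (nat_lit 40788269) (nat_lit 14015859) [(nat_lit 640496), (nat_lit 0), (nat_lit 0), (nat_lit 8461707)]) (PF.cons (PF.leaf (nat_lit 7113265) (nat_lit 651837) (nat_lit 40204484) (nat_lit 13914039) [(nat_lit 651837), (nat_lit 0), (nat_lit 0), (nat_lit 8427426)]) (PF.cons (PF.leaf (nat_lit 7503839) (nat_lit 661731) (nat_lit 39616990) (nat_lit 13808225) [(nat_lit 661731), (nat_lit 0), (nat_lit 0), (nat_lit 8389742)]) (PF.cons PF.nil PF.nil)))))))))) (PF.cons (PF.cons (PF.leaf (nat_lit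 5395925) (nat_lit 1786811) (nat_lit 42497377) (nat_lit 14289062) [(nat_lit 0), (nat_lit 1786811), (nat_lit 0), (nat_lit 8535561)]) (PF.cons (PF.leaf (nat_lit 5722765) (nat_lit 595686) (nat_lit 41981164) (nat_lit
 14208159) [(nat_lit 595686), (nat_lit 1809442), (nat_lit 0), (nat_lit 8514358)]) (PF.cons (PF.leaf (nat_lit 6066946) (nat_lit 612639) (nat_lit 41443555) (nat_lit 14121002) [(nat_lit 612639), (nat_lit 1829608), (nat_lit 0), (nat_lit 8489366)]) (PF.cons (PF.leaf (nat_lit 6424657) (nat_lit 627321) (nat_lit 40890543) (nat_lit 14028314) [(nat_lit 627321), (nat_lit 1847324), (nat_lit 0), (nat_lit 8460666)]) (PF.cons (PF.leaf (nat_lit 6793129) (nat_lit 640089) (nat_lit 40326707) (nat_lit 13930695) [(nat_lit 640089), (nat_lit 1862676), (nat_lit 0), (nat_lit 8428377)]) (PF.cons (PF.leaf (nat_lit 7170132) (nat_lit 651204) (nat_lit 39755674) (nat_lit 13828673) [(nat_lit 651204), (nat_lit 1875784), (nat_lit 0), (nat_lit 8392655)]) (PF.cons (PF.leaf (nat_lit 7553810) (nat_lit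 660873) (nat_lit 39180386) (nat_lit 13722727) [(nat_lit 660873), (nat_lit 1886779), (nat_lit 0), (nat_lit 8353677)]) (PF.cons (PF.leaf (nat_lit 7942592) (nat_lit 669258) (nat_lit 38603267) (nat_lit 13613299) [(nat_lit 669258), (nat_lit 1895796), (nat_lit 0), (nat_lit 8311638)]) (PF.cons PF.nil PF.nil))))))))) (PF.cons (PF.cons (PF.leaf (nat_lit 6151392) (nat_lit 1833084) (nat_lit 40951670) (nat_lit 14033712) [(nat_lit 0),
 (nat_lit 1833084), (nat_lit 0), (nat_lit 8457261)]) (PF.cons (PF.leaf (nat_lit 6498897) (nat_lit 626534) (nat_lit 40415187) (nat_lit 13941314) [(nat_lit 626534), (nat_lit 1849321), (nat_lit 0), (nat_lit 8427133)]) (PF.cons (PF.leaf (nat_lit 6858596) (nat_lit 639199) (nat_lit 39866229) (nat_lit 13843862) [(nat_lit 639199), (nat_lit 1863406), (nat_lit 0), (nat_lit 8393508)]) (PF.cons (PF.leaf (nat_lit 7227693) (nat_lit 650171) (nat_lit 39308942) (nat_lit 13741970) [(nat_lit 650171), (nat_lit 1875411), (nat_lit 0), (nat_lit 8356560)]) (PF.cons (PF.leaf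 (nat_lit 7604119) (nat_lit 659677) (nat_lit 38746580) (nat_lit 13636168) [(nat_lit 659677), (nat_lit 1885438), (nat_lit 0), (nat_lit 8316476)]) (PF.cons (PF.leaf (nat_lit 7986165) (nat_lit 667893) (nat_lit 38181762) (nat_lit 13526929) [(nat_lit 667893), (nat_lit 1893599), (nat_lit 0), (nat_lit 8273454)]) (PF.cons PF.nil PF.nil))))))) (PF.cons (PF.cons (PF.leaf (nat_lit 6926317) (nat_lit 1863536) (nat_lit 39405897) (nat_lit 13755226) [(nat_lit 0), (nat_lit 1863536), (nat_lit 0), (nat_lit 8357079)]) (PF.cons (PF.leaf (nat_lit 7286592) (nat_lit 648709) (nat_lit 38863618) (nat_lit 13653849) [(nat_lit 648709), (nat_lit 1874498), (nat_lit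
 0), (nat_lit 8319139)]) (PF.cons (PF.leaf (nat_lit 7655273) (nat_lit 658126) (nat_lit 38315070) (nat_lit 13548501) [(nat_lit 658126), (nat_lit 1883613), (nat_lit 0), (nat_lit 8278148)]) (PF.cons (PF.leaf (nat_lit 8030237) (nat_lit 666229) (nat_lit 37763189) (nat_lit 13439706) [(nat_lit 666229), (nat_lit 1890971), (nat_lit 0), (nat_lit 8234314)]) (PF.cons (PF.leaf (nat_lit 8409899) (nat_lit 673174) (nat_lit 37210318) (nat_lit 13327926) [(nat_lit 673174), (nat_lit 1896673), (nat_lit 0), (nat_lit 8187849)]) PF.nil))))) (PF.cons (PF.cons (PF.leaf (nat_lit 7708081) (nat_lit 1881326) (nat_lit 37885193) (nat_lit 13459634) [(nat_lit 0), (nat_lit 1881326), (nat_lit 0), (nat_lit 8238678)]) (PF.cons (PF.leaf (nat_lit 8075291) (nat_lit 664247) (nat_lit 37347050) (nat_lit 13351571) [(nat_lit 664247), (nat_lit 1887931), (nat_lit 0), (nat_lit 8194217)]) (PF.cons (PF.leaf (nat_lit 8448048) (nat_lit 671120) (nat_lit 36807003) (nat_lit 13240493) [(nat_lit 671120), (nat_lit 1892968), (nat_lit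 0), (nat_lit 8147199)]) (PF.cons PF.nil PF.nil)))) (PF.cons (PF.cons (PF.leaf (nat_lit 8487492) (nat_lit 1888911) (nat_lit 36406194) (nat_lit 13152321) [(nat_lit 0), (nat_lit 1888911), (nat_lit 0), (nat_lit
 8105740)]) (PF.cons (PF.leaf (nat_lit 8857266) (nat_lit 674569) (nat_lit 35878965) (nat_lit 13039596) [(nat_lit 674569), (nat_lit 1891926), (nat_lit 0), (nat_lit 8056051)]) PF.nil)) (PF.cons PF.nil (PF.cons PF.nil PF.nil)))))))) (PF.cons (PF.cons (PF.cons (PF.leaf (nat_lit 5904002) (nat_lit 3927209) (nat_lit 40773338) (nat_lit 13984750) [(nat_lit 0), (nat_lit 0), (nat_lit 3927209), (nat_lit 8423514)]) (PF.cons (PF.leaf (nat_lit 6229934) (nat_lit 605300) (nat_lit 40273933) (nat_lit 13898569) [(nat_lit 605300), (nat_lit 0), (nat_lit 3935202), (nat_lit 8395807)]) (PF.cons (PF.leaf (nat_lit 6571812) (nat_lit 620490) (nat_lit 39755802) (nat_lit 13806574) [(nat_lit 620490), (nat_lit 0), (nat_lit 3940923), (nat_lit 8364532)]) (PF.cons (PF.leaf (nat_lit 6925912) (nat_lit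 633498) (nat_lit 39224598) (nat_lit 13709569) [(nat_lit 633498), (nat_lit 0), (nat_lit 3944279), (nat_lit 8329870)]) (PF.cons (PF.leaf (nat_lit 7289586) (nat_lit 644689) (nat_lit 38684572) (nat_lit 13608202) [(nat_lit 644689), (nat_lit 0), (nat_lit 3945267), (nat_lit 8292012)]) (PF.cons (PF.leaf (nat_lit 7660728) (nat_lit 654331) (nat_lit 38139045) (nat_lit 13503023) [(nat_lit 654331), (nat_lit 0), (nat_lit 3943935),
 (nat_lit 8251152)]) (PF.cons (PF.leaf (nat_lit 8037608) (nat_lit 662626) (nat_lit 37590677) (nat_lit 13394518) [(nat_lit 662626), (nat_lit 0), (nat_lit 3940368), (nat_lit 8207490)]) (PF.cons PF.nil (PF.cons PF.nil PF.nil))))))))) (PF.cons (PF.cons (PF.leaf (nat_lit 6648227) (nat_lit 1839344) (nat_lit 39289236) (nat_lit 13716870) [(nat_lit 0), (nat_lit 1839344), (nat_lit 3935306), (nat_lit 8328055)]) (PF.cons (PF.leaf (nat_lit 6992199) (nat_lit 631783) (nat_lit 38774610) (nat_lit 13620742) [(nat_lit 631783), (nat_lit 1852022), (nat_lit 3937118), (nat_lit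 8292536)]) (PF.cons (PF.leaf (nat_lit 7347225) (nat_lit 642980) (nat_lit 38249425) (nat_lit 13520075) [(nat_lit 642980), (nat_lit 1862751), (nat_lit 3936739), (nat_lit 8253859)]) (PF.cons (PF.leaf (nat_lit 7710627) (nat_lit 652571) (nat_lit 37717524) (nat_lit 13415513) [(nat_lit 652571), (nat_lit 1871618), (nat_lit 3934194), (nat_lit 8212246)]) (PF.cons (PF.leaf (nat_lit 8080453) (nat_lit 660785) (nat_lit 37181886) (nat_lit 13307595) [(nat_lit 660785), (nat_lit 1878727), (nat_lit 3929549), (nat_lit 8167910)]) (PF.cons (PF.leaf (nat_lit 8455103) (nat_lit 667798) (nat_lit 36644881) (nat_lit 13196790) [(nat_lit 667798), (nat_lit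
 1884188), (nat_lit 3922895), (nat_lit 8121064)]) (PF.cons PF.nil PF.nil))))))) (PF.cons (PF.cons (PF.leaf (nat_lit 7407355) (nat_lit 1860935) (nat_lit 37814682) (nat_lit 13430467) [(nat_lit 0), (nat_lit 1860935), (nat_lit 3927369), (nat_lit 8214421)]) (PF.cons (PF.leaf (nat_lit 7762107) (nat_lit 650425) (nat_lit 37297542) (nat_lit 13326878) [(nat_lit 650425), (nat_lit 1868991), (nat_lit 3923714), (nat_lit 8172269)]) (PF.cons (PF.leaf (nat_lit 8124386) (nat_lit 658627) (nat_lit 36775423) (nat_lit 13219828) [(nat_lit 658627), (nat_lit 1875391), (nat_lit 3918084), (nat_lit 8127438)]) (PF.cons (PF.leaf (nat_lit 8492173) (nat_lit 665596) (nat_lit 36251012) (nat_lit 13109842) [(nat_lit 665596), (nat_lit 1880228), (nat_lit 3910556), (nat_lit 8080155)]) (PF.cons PF.nil PF.nil))))) (PF.cons (PF.cons (PF.leaf (nat_lit 8170191) (nat_lit 1871678) (nat_lit 36370634) (nat_lit 13131113) [(nat_lit 0), (nat_lit 1871678), (nat_lit 3905984), (nat_lit 8086045)]) (PF.cons (PF.leaf (nat_lit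 8530438) (nat_lit 663108) (nat_lit 35859535) (nat_lit 13022209) [(nat_lit 663108), (nat_lit 1875934), (nat_lit 3897666), (nat_lit 8038490)]) (PF.cons (PF.leaf (nat_lit 8895593) (nat_lit 668984) (nat_lit 35347325)
 (nat_lit 12910757) [(nat_lit 668984), (nat_lit 1878795), (nat_lit 3887635), (nat_lit 7988740)]) (PF.cons PF.nil PF.nil)))) (PF.cons (PF.cons (PF.leaf (nat_lit 8928685) (nat_lit 1873701) (nat_lit 34970631) (nat_lit 12823592) [(nat_lit 0), (nat_lit 1873701), (nat_lit 3873575), (nat_lit 7946208)]) (PF.cons PF.nil PF.nil)) (PF.cons PF.nil PF.nil)))))) (PF.cons (PF.cons (PF.cons (PF.leaf (nat_lit 7124930) (nat_lit 3904102) (nat_lit 37716989) (nat_lit 13395882) [(nat_lit 0), (nat_lit 0), (nat_lit 3904102), (nat_lit 8187735)]) (PF.cons (PF.leaf (nat_lit 7464582) (nat_lit 634457) (nat_lit 37225067) (nat_lit 13297486) [(nat_lit 634457), (nat_lit 0), (nat_lit 3901839), (nat_lit 8148122)]) (PF.cons (PF.leaf (nat_lit 7814332) (nat_lit 644385) (nat_lit 36724139) (nat_lit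 13195020) [(nat_lit 644385), (nat_lit 0), (nat_lit 3897610), (nat_lit 8105661)]) (PF.cons (PF.leaf (nat_lit 8171592) (nat_lit 652789) (nat_lit 36217764) (nat_lit 13089137) [(nat_lit 652789), (nat_lit 0), (nat_lit 3891467), (nat_lit 8060605)]) (PF.cons (PF.leaf (nat_lit 8534515) (nat_lit 659898) (nat_lit 35708674) (nat_lit 12980377) [(nat_lit 659898), (nat_lit 0), (nat_lit 3883490), (nat_lit 8013186)]) (PF.cons PF.nil (PF.cons
 PF.nil PF.nil))))))) (PF.cons (PF.cons (PF.leaf (nat_lit 7867519) (nat_lit 1852911) (nat_lit 36314300) (nat_lit 13105478) [(nat_lit 0), (nat_lit 1852911), (nat_lit 3885959), (nat_lit 8064203)]) (PF.cons (PF.leaf (nat_lit 8216332) (nat_lit 650107) (nat_lit 35822260) (nat_lit 13000918) [(nat_lit 650107), (nat_lit 1858558), (nat_lit 3878999), (nat_lit 8018969)]) (PF.cons (PF.leaf (nat_lit 8571927) (nat_lit 657266) (nat_lit 35326246) (nat_lit 12893341) [(nat_lit 657266), (nat_lit 1862715), (nat_lit 3870297), (nat_lit 7971381)]) (PF.cons (PF.leaf (nat_lit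 8932370) (nat_lit 663264) (nat_lit 34828721) (nat_lit 12783266) [(nat_lit 663264), (nat_lit 1865476), (nat_lit 3859940), (nat_lit 7921675)]) (PF.cons PF.nil PF.nil))))) (PF.cons (PF.cons (PF.leaf (nat_lit 8611391) (nat_lit 1857896) (nat_lit 34945457) (nat_lit 12805555) [(nat_lit 0), (nat_lit 1857896), (nat_lit 3856588), (nat_lit 7928828)]) (PF.cons (PF.leaf (nat_lit 8964542) (nat_lit 660384) (nat_lit 34460714) (nat_lit 12696822) [(nat_lit 660384), (nat_lit 1860215), (nat_lit 3845663), (nat_lit 7879132)]) (PF.cons PF.nil (PF.cons PF.nil PF.nil)))) (PF.cons (PF.cons (PF.leaf (nat_lit 9349439) (nat_lit 1855402) (nat_lit 33621551)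
 (nat_lit 12500338) [(nat_lit 0), (nat_lit 1855402), (nat_lit 3818094), (nat_lit 7784525)]) (PF.cons PF.nil PF.nil)) (PF.cons PF.nil PF.nil))))) (PF.cons (PF.cons (PF.cons (PF.leaf (nat_lit 8307893) (nat_lit 3838384) (nat_lit 34901166) (nat_lit 12783213) [(nat_lit 0), (nat_lit 0), (nat_lit 3838384), (nat_lit 7909279)]) (PF.cons (PF.leaf (nat_lit 8650489) (nat_lit 648151) (nat_lit 34433738) (nat_lit 12678659) [(nat_lit 648151), (nat_lit 0), (nat_lit 3828795), (nat_lit 7861876)]) (PF.cons (PF.leaf (nat_lit 8999245) (nat_lit 654411) (nat_lit 33963121) (nat_lit 12571472) [(nat_lit 654411), (nat_lit 0), (nat_lit 3817665), (nat_lit 7812400)]) (PF.cons PF.nil PF.nil)))) (PF.cons (PF.cons (PF.leaf (nat_lit 9032986) (nat_lit 1840904) (nat_lit 33605086) (nat_lit 12485188) [(nat_lit 0), (nat_lit 1840904), (nat_lit 3802783), (nat_lit 7769282)]) (PF.cons (PF.leaf (nat_lit 9378999) (nat_lit 656395) (nat_lit 33145734) (nat_lit 12377404) [(nat_lit 656395), (nat_lit 1841625), (nat_lit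 3789816), (nat_lit 7718204)]) PF.nil)) (PF.cons PF.nil PF.nil))) (PF.cons (PF.cons (PF.cons (PF.leaf (nat_lit 9436261) (nat_lit 3745849) (nat_lit 32344638) (nat_lit 12171628) [(nat_lit 0), (nat_lit 0), (nat_lit
 3745849), (nat_lit 7609147)]) (PF.cons PF.nil PF.nil)) (PF.cons PF.nil PF.nil)) (PF.cons PF.nil PF.nil)))))) (PF.cons (PF.cons (PF.cons (PF.cons (PF.leaf (nat_lit 6529364) (nat_lit 8106197) (nat_lit 37587044) (nat_lit 13309373) [(nat_lit 0), (nat_lit 0), (nat_lit 0), (nat_lit 8106197)]) (PF.cons (PF.leaf (nat_lit 6843985) (nat_lit 597404) (nat_lit 37142247) (nat_lit 13222366) [(nat_lit 597404), (nat_lit 0), (nat_lit 0), (nat_lit 8073397)]) (PF.cons (PF.leaf (nat_lit 7173233) (nat_lit 611106) (nat_lit 36681489) (nat_lit 13130239) [(nat_lit 611106), (nat_lit 0), (nat_lit 0), (nat_lit 8037435)]) (PF.cons (PF.leaf (nat_lit 7513526) (nat_lit 622687) (nat_lit 36209744) (nat_lit 13033840) [(nat_lit 622687), (nat_lit 0), (nat_lit 0), (nat_lit 7998582)]) (PF.cons (PF.leaf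 (nat_lit 7862377) (nat_lit 632525) (nat_lit 35730723) (nat_lit 12933830) [(nat_lit 632525), (nat_lit 0), (nat_lit 0), (nat_lit 7957079)]) (PF.cons (PF.leaf (nat_lit 8217818) (nat_lit 640894) (nat_lit 35247294) (nat_lit 12830754) [(nat_lit 640894), (nat_lit 0), (nat_lit 0), (nat_lit 7913146)]) (PF.cons (PF.leaf (nat_lit 8578255) (nat_lit 648003) (nat_lit 34761732) (nat_lit 12725076) [(nat_lit 648003), (nat_lit 0), (nat_lit
 0), (nat_lit 7866992)]) (PF.cons PF.nil (PF.cons PF.nil PF.nil))))))))) (PF.cons (PF.cons (PF.leaf (nat_lit 7239692) (nat_lit 1799761) (nat_lit 36270346) (nat_lit 13042257) [(nat_lit 0), (nat_lit 1799761), (nat_lit 0), (nat_lit 7998224)]) (PF.cons (PF.leaf (nat_lit 7570215) (nat_lit 620241) (nat_lit 35813584) (nat_lit 12947288) [(nat_lit 620241), (nat_lit 1809441), (nat_lit 0), (nat_lit 7959128)]) (PF.cons (PF.leaf (nat_lit 7910793) (nat_lit 630168) (nat_lit 35347916) (nat_lit 12848484) [(nat_lit 630168), (nat_lit 1817344), (nat_lit 0), (nat_lit 7917364)])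 (PF.cons (PF.leaf (nat_lit 8258889) (nat_lit 638564) (nat_lit 34876687) (nat_lit 12746483) [(nat_lit 638564), (nat_lit 1823576), (nat_lit 0), (nat_lit 7873186)]) (PF.cons (PF.leaf (nat_lit 8612688) (nat_lit 645662) (nat_lit 34402466) (nat_lit 12641804) [(nat_lit 645662), (nat_lit 1828252), (nat_lit 0), (nat_lit 7826819)]) (PF.cons PF.nil (PF.cons PF.nil PF.nil))))))) (PF.cons (PF.cons (PF.leaf (nat_lit 7961946) (nat_lit 1813949) (nat_lit 34965464) (nat_lit 12762050) [(nat_lit 0), (nat_lit 1813949), (nat_lit 0), (nat_lit 7876699)]) (PF.cons (PF.leaf (nat_lit 8301802) (nat_lit 635894) (nat_lit 34507401) (nat_lit 12661430)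
 [(nat_lit 635894), (nat_lit 1819585), (nat_lit 0), (nat_lit 7832458)]) (PF.cons (PF.leaf (nat_lit 8648479) (nat_lit 643047) (nat_lit 34045186) (nat_lit 12557987) [(nat_lit 643047), (nat_lit 1823745), (nat_lit 0), (nat_lit 7786026)]) (PF.cons (PF.leaf (nat_lit 9000069) (nat_lit 649042) (nat_lit 33581137) (nat_lit 12452220) [(nat_lit 649042), (nat_lit 1826529), (nat_lit 0), (nat_lit 7737634)]) (PF.cons PF.nil PF.nil))))) (PF.cons (PF.cons (PF.leaf (nat_lit 8686367) (nat_lit 1818953) (nat_lit 33689298) (nat_lit 12473510) [(nat_lit 0), (nat_lit 1818953), (nat_lit 0), (nat_lit 7744572)]) (PF.cons (PF.leaf (nat_lit 9030856) (nat_lit 646195) (nat_lit 33236996) (nat_lit 12369112) [(nat_lit 646195), (nat_lit 1821322), (nat_lit 0), (nat_lit 7696270)]) (PF.cons PF.nil (PF.cons PF.nil PF.nil)))) (PF.cons (PF.cons (PF.leaf (nat_lit 9406048) (nat_lit 1816684) (nat_lit 32452534) (nat_lit 12180522) [(nat_lit 0), (nat_lit 1816684), (nat_lit 0), (nat_lit 7604509)]) (PF.cons PF.nil PF.nil))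 (PF.cons PF.nil PF.nil)))))) (PF.cons (PF.cons (PF.cons (PF.leaf (nat_lit 7682482) (nat_lit 3782824) (nat_lit 34887787) (nat_lit 12732114) [(nat_lit 0), (nat_lit 0), (nat_lit 3782824), (nat_lit 7853043)])
 (PF.cons (PF.leaf (nat_lit 8008564) (nat_lit 620792) (nat_lit 34451507) (nat_lit 12636465) [(nat_lit 620792), (nat_lit 0), (nat_lit 3777292), (nat_lit 7811377)]) (PF.cons (PF.leaf (nat_lit 8343909) (nat_lit 629642) (nat_lit 34007522) (nat_lit 12537358) [(nat_lit 629642), (nat_lit 0), (nat_lit 3770057), (nat_lit 7767294)]) (PF.cons (PF.leaf (nat_lit 8686059) (nat_lit 637041) (nat_lit 33558933) (nat_lit 12435429) [(nat_lit 637041), (nat_lit 0), (nat_lit 3761194), (nat_lit 7721065)]) (PF.cons (PF.leaf (nat_lit 9033290) (nat_lit 643220) (nat_lit 33108101) (nat_lit 12331188) [(nat_lit 643220), (nat_lit 0), (nat_lit 3750792), (nat_lit 7672923)]) PF.nil))))) (PF.cons (PF.cons (PF.leaf (nat_lit 8389128) (nat_lit 1801731) (nat_lit 33646833) (nat_lit 12452011) [(nat_lit 0), (nat_lit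 1801731), (nat_lit 3756860), (nat_lit 7725688)]) (PF.cons (PF.leaf (nat_lit 8723257) (nat_lit 633984) (nat_lit 33210930) (nat_lit 12351679) [(nat_lit 633984), (nat_lit 1805463), (nat_lit 3747471), (nat_lit 7679641)]) (PF.cons (PF.leaf (nat_lit 9063589) (nat_lit 640266) (nat_lit 32771629) (nat_lit 12248865) [(nat_lit 640266), (nat_lit 1807864), (nat_lit 3736607), (nat_lit 7631656)]) (PF.cons PF.nil PF.nil))))
 (PF.cons (PF.cons (PF.leaf (nat_lit 9096126) (nat_lit 1802297) (nat_lit 32436474) (nat_lit 12166012) [(nat_lit 0), (nat_lit 1802297), (nat_lit 3722038), (nat_lit 7589845)]) (PF.cons (PF.leaf (nat_lit 9433973) (nat_lit 642334) (nat_lit 32007127) (nat_lit 12062725) [(nat_lit 642334), (nat_lit 1803156), (nat_lit 3709446), (nat_lit 7540433)]) PF.nil)) (PF.cons PF.nil (PF.cons PF.nil PF.nil))))) (PF.cons (PF.cons (PF.cons (PF.leaf (nat_lit 8799007) (nat_lit 3705825) (nat_lit 32403653) (nat_lit 12147428) [(nat_lit 0), (nat_lit 0), (nat_lit 3705825), (nat_lit 7573039)])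 (PF.cons (PF.leaf (nat_lit 9127239) (nat_lit 630850) (nat_lit 31989241) (nat_lit 12048017) [(nat_lit 630850), (nat_lit 0), (nat_lit 3694534), (nat_lit 7525817)]) (PF.cons (PF.leaf (nat_lit 9461166) (nat_lit 636377) (nat_lit 31572026) (nat_lit 11946420) [(nat_lit 636377), (nat_lit 0), (nat_lit 3681929), (nat_lit 7476876)]) (PF.cons PF.nil PF.nil)))) (PF.cons (PF.cons (PF.leaf (nat_lit 9488862) (nat_lit 1783398) (nat_lit 31256419) (nat_lit 11865522) [(nat_lit 0), (nat_lit 1783398), (nat_lit 3666641), (nat_lit 7435094)]) (PF.cons PF.nil PF.nil)) (PF.cons PF.nil PF.nil))) (PF.cons (PF.cons (PF.cons (PF.leaf (nat_lit 9865669)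
 (nat_lit 3609437) (nat_lit 30144693) (nat_lit 11572935) [(nat_lit 0), (nat_lit 0), (nat_lit 3609437), (nat_lit 7281435)]) (PF.cons PF.nil PF.nil)) (PF.cons PF.nil PF.nil)) (PF.cons PF.nil PF.nil))))) (PF.cons (PF.cons (PF.cons (PF.cons (PF.leaf (nat_lit 8191161) (nat_lit 7528076) (nat_lit 32414756) (nat_lit 12109827) [(nat_lit 0), (nat_lit 0), (nat_lit 0), (nat_lit 7528076)]) (PF.cons (PF.leaf (nat_lit 8504630) (nat_lit 605883) (nat_lit 32026526) (nat_lit 12018344) [(nat_lit 605883), (nat_lit 0), (nat_lit 0), (nat_lit 7486019)]) (PF.cons (PF.leaf (nat_lit 8826697) (nat_lit 613869) (nat_lit 31631574) (nat_lit 11923871) [(nat_lit 613869), (nat_lit 0), (nat_lit 0), (nat_lit 7441875)]) (PF.cons (PF.leaf (nat_lit 9155008) (nat_lit 620475) (nat_lit 31232615) (nat_lit 11827014) [(nat_lit 620475), (nat_lit 0), (nat_lit 0), (nat_lit 7395919)]) (PF.cons PF.nil PF.nil))))) (PF.cons (PF.cons (PF.leaf (nat_lit 8865478) (nat_lit 1749015) (nat_lit 31312763) (nat_lit 11843465) [(nat_lit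 0), (nat_lit 1749015), (nat_lit 0), (nat_lit 7401189)]) (PF.cons (PF.leaf (nat_lit 9186162) (nat_lit 617195) (nat_lit 30925007) (nat_lit 11748321) [(nat_lit 617195), (nat_lit 1751378), (nat_lit 0), (nat_lit
 7355636)]) (PF.cons (PF.leaf (nat_lit 9512592) (nat_lit 622789) (nat_lit 30534248) (nat_lit 11651088) [(nat_lit 622789), (nat_lit 1752540), (nat_lit 0), (nat_lit 7308452)]) (PF.cons PF.nil PF.nil)))) (PF.cons (PF.cons (PF.leaf (nat_lit 9539609) (nat_lit 1746564) (nat_lit 30237814) (nat_lit 11573530) [(nat_lit 0), (nat_lit 1746564), (nat_lit 0), (nat_lit 7268113)]) (PF.cons PF.nil PF.nil)) (PF.cons PF.nil (PF.cons PF.nil PF.nil))))) (PF.cons (PF.cons (PF.cons (PF.leaf (nat_lit 9249367) (nat_lit 3575782) (nat_lit 30213820) (nat_lit 11558139) [(nat_lit 0), (nat_lit 0), (nat_lit 3575782), (nat_lit 7253690)]) (PF.cons (PF.leaf (nat_lit 9564490) (nat_lit 613317) (nat_lit 29844736) (nat_lit 11464414) [(nat_lit 613317), (nat_lit 0), (nat_lit 3563547), (nat_lit 7207598)])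 (PF.cons PF.nil (PF.cons PF.nil PF.nil)))) (PF.cons (PF.cons (PF.leaf (nat_lit 9907819) (nat_lit 1726736) (nat_lit 29193467) (nat_lit 11293413) [(nat_lit 0), (nat_lit 1726736), (nat_lit 3534919), (nat_lit 7120091)]) (PF.cons PF.nil PF.nil)) (PF.cons PF.nil PF.nil))) (PF.cons (PF.cons (PF.cons (PF.leaf (nat_lit 10262046) (nat_lit 3478673) (nat_lit 28207599) (nat_lit 11021515) [(nat_lit 0), (nat_lit 0), (nat_lit 3478673),
 (nat_lit 6974117)]) (PF.cons PF.nil PF.nil)) (PF.cons PF.nil PF.nil)) PF.nil))) (PF.cons (PF.cons (PF.cons (PF.cons (PF.leaf (nat_lit 9665982) (nat_lit 6953027) (nat_lit 28282739) (nat_lit 11013961) [(nat_lit 0), (nat_lit 0), (nat_lit 0), (nat_lit 6953027)]) (PF.cons (PF.leaf (nat_lit 9969111) (nat_lit 595967) (nat_lit 27952469) (nat_lit 10926014) [(nat_lit 595967), (nat_lit 0), (nat_lit 0), (nat_lit 6908590)]) (PF.cons PF.nil PF.nil))) (PF.cons (PF.cons (PF.leaf (nat_lit 10296253) (nat_lit 1671768) (nat_lit 27370789) (nat_lit 10766344) [(nat_lit 0),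 (nat_lit 1671768), (nat_lit 0), (nat_lit 6824977)]) PF.nil) PF.nil)) (PF.cons PF.nil PF.nil)) (PF.cons PF.nil (PF.cons PF.nil (PF.cons PF.nil PF.nil))))))))

def p15_32_2_0 : pfC (piC [(nat_lit 35065580), (nat_lit 23538785), (nat_lit 17602610), (nat_lit 11874437)] (nat_lit 6971554)) p15_32_2 (nat_lit 4) (nat_lit 0) (nat_lit 1) = true := by decide +kernel
def p15_32_2_1 : pfC (piC [(nat_lit 35065580), (nat_lit 23538785), (nat_lit 17602610), (nat_lit 11874437)] (nat_lit 6971554)) p15_32_2 (nat_lit 4) (nat_lit 1) (nat_lit 2) = true := by decide +kernel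
def p15_32_2_2 : pfC (piC [(nat_lit 35065580), (nat_lit 23538785), (nat_lit 17602610), (nat_lit 11874437)] (nat_lit 6971554)) p15_32_2 (nat_lit 4) (nat_lit 2) (nat_lit 3) = true := by decide +kernel
def p15_32_2_3 : pfC (piC [(nat_lit 35065580), (nat_lit 23538785), (nat_lit 17602610), (nat_lit 11874437)] (nat_lit 6971554)) p15_32_2 (nat_lit 4) (nat_lit 3) (nat_lit 4) = true := by decide +kernel
def p15_32_2_4 : pfC (piC [(nat_lit 35065580), (nat_lit 23538785), (nat_lit 17602610), (nat_lit 11874437)] (nat_lit 6971554)) p15_32_2 (nat_lit 4) (nat_lit 4) (nat_lit 5) = true := by decide +kernel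
def p15_32_2_5 : pfC (piC [(nat_lit 35065580), (nat_lit 23538785), (nat_lit 17602610), (nat_lit 11874437)] (nat_lit 6971554)) p15_32_2 (nat_lit 4) (nat_lit 5) (nat_lit 6) = true := by decide +kernel
def p15_32_2_6 : pfC (piC [(nat_lit 35065580), (nat_lit 23538785), (nat_lit 17602610), (nat_lit 11874437)] (nat_lit 6971554)) p15_32_2 (nat_lit 4) (nat_lit 6) (nat_lit 7) = true := by decide +kernel
def p15_32_2_7 : pfC (piC [(nat_lit 35065580), (nat_lit 23538785), (nat_lit 17602610), (nat_lit 11874437)] (nat_lit 6971554)) p15_32_2 (nat_lit 4) (nat_lit 7) (nat_lit 8) = true := by decide +kernel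
def p15_32_2_8 : pfC (piC [(nat_lit 35065580), (nat_lit 23538785), (nat_lit 17602610), (nat_lit 11874437)] (nat_lit 6971554)) p15_32_2 (nat_lit 4) (nat_lit 8) (nat_lit 9) = true := by decide +kernel
def p15_32_2_9 : pfC (piC [(nat_lit 35065580), (nat_lit 23538785), (nat_lit 17602610), (nat_lit 11874437)] (nat_lit 6971554)) p15_32_2 (nat_lit 4) (nat_lit 9) (nat_lit 10) = true := by decide +kernel
def p15_32_2_10 : pfC (piC [(nat_lit 35065580), (nat_lit 23538785), (nat_lit 17602610), (nat_lit 11874437)] (nat_lit 6971554)) p15_32_2 (nat_lit 4) (nat_lit 10) (nat_lit 11) = true := by decide +kernel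
def p15_32_2_11 : pfC (piC [(nat_lit 35065580), (nat_lit 23538785), (nat_lit 17602610), (nat_lit 11874437)] (nat_lit 6971554)) p15_32_2 (nat_lit 4) (nat_lit 11) (nat_lit 12) = true := by decide +kernel
def p15_32_2_12 : pfC (piC [(nat_lit 35065580), (nat_lit 23538785), (nat_lit 17602610), (nat_lit 11874437)] (nat_lit 6971554)) p15_32_2 (nat_lit 4) (nat_lit 12) (nat_lit 13) = true := by decide +kernel
def p15_32_2_13 : pfC (piC [(nat_lit 35065580), (nat_lit 23538785), (nat_lit 17602610), (nat_lit 11874437)] (nat_lit 6971554)) p15_32_2 (nat_lit 4) (nat_lit 13) (nat_lit 14) = true := by decide +kernel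
def p15_32_2_14 : pfC (piC [(nat_lit 35065580), (nat_lit 23538785), (nat_lit 17602610), (nat_lit 11874437)] (nat_lit 6971554)) p15_32_2 (nat_lit 4) (nat_lit 14) (nat_lit 15) = true := by decide +kernel
def p15_32_2_15 : pfC (piC [(nat_lit 35065580), (nat_lit 23538785), (nat_lit 17602610), (nat_lit 11874437)] (nat_lit 6971554)) p15_32_2 (nat_lit 4) (nat_lit 15) (nat_lit 16) = true := by decide +kernel
def p15_32_2_16 : pfC (piC [(nat_lit 35065580), (nat_lit 23538785), (nat_lit 17602610), (nat_lit 11874437)] (nat_lit 6971554)) p15_32_2 (nat_lit 4) (nat_lit 16) (nat_lit 17) = true := by decide +kernel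
def p15_32_2_17 : pfC (piC [(nat_lit 35065580), (nat_lit 23538785), (nat_lit 17602610), (nat_lit 11874437)] (nat_lit 6971554)) p15_32_2 (nat_lit 4) (nat_lit 17) (nat_lit 18) = true := by decide +kernel
def p15_32_2_18 : pfC (piC [(nat_lit 35065580), (nat_lit 23538785), (nat_lit 17602610), (nat_lit 11874437)] (nat_lit 6971554)) p15_32_2 (nat_lit 4) (nat_lit 18) (nat_lit 19) = true := by decide +kernel
def p15_32_2_19 : pfC (piC [(nat_lit 35065580), (nat_lit 23538785), (nat_lit 17602610), (nat_lit 11874437)] (nat_lit 6971554)) p15_32_2 (nat_lit 4) (nat_lit 19) (nat_lit 20) = true := by decide +kernel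
def p15_32_2_20 : pfC (piC [(nat_lit 35065580), (nat_lit 23538785), (nat_lit 17602610), (nat_lit 11874437)] (nat_lit 6971554)) p15_32_2 (nat_lit 4) (nat_lit 20) (nat_lit 21) = true := by decide +kernel
def p15_32_2_21 : pfC (piC [(nat_lit 35065580), (nat_lit 23538785), (nat_lit 17602610), (nat_lit 11874437)] (nat_lit 6971554)) p15_32_2 (nat_lit 4) (nat_lit 21) (nat_lit 22) = true := by decide +kernel
def p15_32_2_22 : pfC (piC [(nat_lit 35065580), (nat_lit 23538785), (nat_lit 17602610), (nat_lit 11874437)] (nat_lit 6971554)) p15_32_2 (nat_lit 4) (nat_lit 22) (nat_lit 23) = true := by decide +kernel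
def p15_32_2_23 : pfC (piC [(nat_lit 35065580), (nat_lit 23538785), (nat_lit 17602610), (nat_lit 11874437)] (nat_lit 6971554)) p15_32_2 (nat_lit 4) (nat_lit 23) (nat_lit 24) = true := by decide +kernel
def p15_32_2_24 : pfC (piC [(nat_lit 35065580), (nat_lit 23538785), (nat_lit 17602610), (nat_lit 11874437)] (nat_lit 6971554)) p15_32_2 (nat_lit 4) (nat_lit 24) (nat_lit 25) = true := by decide +kernel
def p15_32_2_25 : pfC (piC [(nat_lit 35065580), (nat_lit 23538785), (nat_lit 17602610), (nat_lit 11874437)] (nat_lit 6971554)) p15_32_2 (nat_lit 4) (nat_lit 25) (nat_lit 26) = true := by decide +kernel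
def p15_32_2_26 : pfC (piC [(nat_lit 35065580), (nat_lit 23538785), (nat_lit 17602610), (nat_lit 11874437)] (nat_lit 6971554)) p15_32_2 (nat_lit 4) (nat_lit 26) (nat_lit 27) = true := by decide +kernel
def p15_32_2_27 : pfC (piC [(nat_lit 35065580), (nat_lit 23538785), (nat_lit 17602610), (nat_lit 11874437)] (nat_lit 6971554)) p15_32_2 (nat_lit 4) (nat_lit 27) (nat_lit 28) = true := by decide +kernel
def p15_32_2_28 : pfC (piC [(nat_lit 35065580), (nat_lit 23538785), (nat_lit 17602610), (nat_lit 11874437)] (nat_lit 6971554)) p15_32_2 (nat_lit 4) (nat_lit 28) (nat_lit 29) = true := by decide +kernel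
def p15_32_2_29 : pfC (piC [(nat_lit 35065580), (nat_lit 23538785), (nat_lit 17602610), (nat_lit 11874437)] (nat_lit 6971554)) p15_32_2 (nat_lit 4) (nat_lit 29) (nat_lit 30) = true := by decide +kernel
def p15_32_2_30 : pfC (piC [(nat_lit 35065580), (nat_lit 23538785), (nat_lit 17602610), (nat_lit 11874437)] (nat_lit 6971554)) p15_32_2 (nat_lit 4) (nat_lit 30) (nat_lit 31) = true := by decide +kernel
def p15_32_2_31 : pfC (piC [(nat_lit 35065580), (nat_lit 23538785), (nat_lit 17602610), (nat_lit 11874437)] (nat_lit 6971554)) p15_32_2 (nat_lit 4) (nat_lit 31) (nat_lit 32) = true := by decide +kernel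
def p15_32_2_32 : pfC (piC [(nat_lit 35065580), (nat_lit 23538785), (nat_lit 17602610), (nat_lit 11874437)] (nat_lit 6971554)) p15_32_2 (nat_lit 4) (nat_lit 32) (nat_lit 33) = true := by decide +kernel
def p15_32_2_33 : pfC (piC [(nat_lit 35065580), (nat_lit 23538785), (nat_lit 17602610), (nat_lit 11874437)] (nat_lit 6971554)) p15_32_2 (nat_lit 4) (nat_lit 33) (nat_lit 34) = true := by decide +kernel
def p15_32_2_34 : pfC (piC [(nat_lit 35065580), (nat_lit 23538785), (nat_lit 17602610), (nat_lit 11874437)] (nat_lit 6971554)) p15_32_2 (nat_lit 4) (nat_lit 34) (nat_lit 35) = true := by decide +kernel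
def p15_32_2_35 : pfC (piC [(nat_lit 35065580), (nat_lit 23538785), (nat_lit 17602610), (nat_lit 11874437)] (nat_lit 6971554)) p15_32_2 (nat_lit 4) (nat_lit 35) (nat_lit 36) = true := by decide +kernel
def p15_32_2_36 : pfC (piC [(nat_lit 35065580), (nat_lit 23538785), (nat_lit 17602610), (nat_lit 11874437)] (nat_lit 6971554)) p15_32_2 (nat_lit 4) (nat_lit 36) (nat_lit 37) = true := by decide +kernel
def p15_32_2_37 : pfC (piC [(nat_lit 35065580), (nat_lit 23538785), (nat_lit 17602610), (nat_lit 11874437)] (nat_lit 6971554)) p15_32_2 (nat_lit 4) (nat_lit 37) (nat_lit 38) = true := by decide +kernel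
def p15_32_2_38 : pfC (piC [(nat_lit 35065580), (nat_lit 23538785), (nat_lit 17602610), (nat_lit 11874437)] (nat_lit 6971554)) p15_32_2 (nat_lit 4) (nat_lit 38) (nat_lit 39) = true := by decide +kernel
def p15_32_2_39 : pfC (piC [(nat_lit 35065580), (nat_lit 23538785), (nat_lit 17602610), (nat_lit 11874437)] (nat_lit 6971554)) p15_32_2 (nat_lit 4) (nat_lit 39) (nat_lit 40) = true := by decide +kernel
def p15_32_2_40 : pfC (piC [(nat_lit 35065580), (nat_lit 23538785), (nat_lit 17602610), (nat_lit 11874437)] (nat_lit 6971554)) p15_32_2 (nat_lit 4) (nat_lit 40) (nat_lit 41) = true := by decide +kernel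
def p15_32_2_41 : pfC (piC [(nat_lit 35065580), (nat_lit 23538785), (nat_lit 17602610), (nat_lit 11874437)] (nat_lit 6971554)) p15_32_2 (nat_lit 4) (nat_lit 41) (nat_lit 42) = true := by decide +kernel
def p15_32_2_42 : pfC (piC [(nat_lit 35065580), (nat_lit 23538785), (nat_lit 17602610), (nat_lit 11874437)] (nat_lit 6971554)) p15_32_2 (nat_lit 4) (nat_lit 42) (nat_lit 43) = true := by decide +kernel
def p15_32_2_43 : pfC (piC [(nat_lit 35065580), (nat_lit 23538785), (nat_lit 17602610), (nat_lit 11874437)] (nat_lit 6971554)) p15_32_2 (nat_lit 4) (nat_lit 43) (nat_lit 44) = true := by decide +kernel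
def p15_32_2_44 : pfC (piC [(nat_lit 35065580), (nat_lit 23538785), (nat_lit 17602610), (nat_lit 11874437)] (nat_lit 6971554)) p15_32_2 (nat_lit 4) (nat_lit 44) (nat_lit 45) = true := by decide +kernel
def p15_32_2_45 : pfC (piC [(nat_lit 35065580), (nat_lit 23538785), (nat_lit 17602610), (nat_lit 11874437)] (nat_lit 6971554)) p15_32_2 (nat_lit 4) (nat_lit 45) (nat_lit 46) = true := by decide +kernel
def p15_32_2_46 : pfC (piC [(nat_lit 35065580), (nat_lit 23538785), (nat_lit 17602610), (nat_lit 11874437)] (nat_lit 6971554)) p15_32_2 (nat_lit 4) (nat_lit 46) (nat_lit 47) = true := by decide +kernel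
def p15_32_2_47 : pfC (piC [(nat_lit 35065580), (nat_lit 23538785), (nat_lit 17602610), (nat_lit 11874437)] (nat_lit 6971554)) p15_32_2 (nat_lit 4) (nat_lit 47) (nat_lit 48) = true := by decide +kernel
def p15_32_2_48 : pfC (piC [(nat_lit 35065580), (nat_lit 23538785), (nat_lit 17602610), (nat_lit 11874437)] (nat_lit 6971554)) p15_32_2 (nat_lit 4) (nat_lit 48) (nat_lit 49) = true := by decide +kernel
def p15_32_2_49 : pfC (piC [(nat_lit 35065580), (nat_lit 23538785), (nat_lit 17602610), (nat_lit 11874437)] (nat_lit 6971554)) p15_32_2 (nat_lit 4) (nat_lit 49) (nat_lit 50) = true := by decide +kernel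
def p15_32_2_50 : pfC (piC [(nat_lit 35065580), (nat_lit 23538785), (nat_lit 17602610), (nat_lit 11874437)] (nat_lit 6971554)) p15_32_2 (nat_lit 4) (nat_lit 50) (nat_lit 51) = true := by decide +kernel
def p15_32_2_51 : pfC (piC [(nat_lit 35065580), (nat_lit 23538785), (nat_lit 17602610), (nat_lit 11874437)] (nat_lit 6971554)) p15_32_2 (nat_lit 4) (nat_lit 51) (nat_lit 52) = true := by decide +kernel
def p15_32_2_52 : pfC (piC [(nat_lit 35065580), (nat_lit 23538785), (nat_lit 17602610), (nat_lit 11874437)] (nat_lit 6971554)) p15_32_2 (nat_lit 4) (nat_lit 52) (nat_lit 53) = true := by decide +kernel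
def p15_32_2_53 : pfC (piC [(nat_lit 35065580), (nat_lit 23538785), (nat_lit 17602610), (nat_lit 11874437)] (nat_lit 6971554)) p15_32_2 (nat_lit 4) (nat_lit 53) (nat_lit 54) = true := by decide +kernel
def p15_32_2_54 : pfC (piC [(nat_lit 35065580), (nat_lit 23538785), (nat_lit 17602610), (nat_lit 11874437)] (nat_lit 6971554)) p15_32_2 (nat_lit 4) (nat_lit 54) (nat_lit 55) = true := by decide +kernel
def p15_32_2_55 : pfC (piC [(nat_lit 35065580), (nat_lit 23538785), (nat_lit 17602610), (nat_lit 11874437)] (nat_lit 6971554)) p15_32_2 (nat_lit 4) (nat_lit 55) (nat_lit 56) = true := by decide +kernel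
def p15_32_2_56 : pfC (piC [(nat_lit 35065580), (nat_lit 23538785), (nat_lit 17602610), (nat_lit 11874437)] (nat_lit 6971554)) p15_32_2 (nat_lit 4) (nat_lit 56) (nat_lit 57) = true := by decide +kernel
def p15_32_2_57 : pfC (piC [(nat_lit 35065580), (nat_lit 23538785), (nat_lit 17602610), (nat_lit 11874437)] (nat_lit 6971554)) p15_32_2 (nat_lit 4) (nat_lit 57) (nat_lit 58) = true := by decide +kernel
def p15_32_2_58 : pfC (piC [(nat_lit 35065580), (nat_lit 23538785), (nat_lit 17602610), (nat_lit 11874437)] (nat_lit 6971554)) p15_32_2 (nat_lit 4) (nat_lit 58) (nat_lit 59) = true := by decide +kernel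
def p15_32_2_59 : pfC (piC [(nat_lit 35065580), (nat_lit 23538785), (nat_lit 17602610), (nat_lit 11874437)] (nat_lit 6971554)) p15_32_2 (nat_lit 4) (nat_lit 59) (nat_lit 60) = true := by decide +kernel
def p15_32_2_60 : pfC (piC [(nat_lit 35065580), (nat_lit 23538785), (nat_lit 17602610), (nat_lit 11874437)] (nat_lit 6971554)) p15_32_2 (nat_lit 4) (nat_lit 60) (nat_lit 61) = true := by decide +kernel
def p15_32_2_61 : pfC (piC [(nat_lit 35065580), (nat_lit 23538785), (nat_lit 17602610), (nat_lit 11874437)] (nat_lit 6971554)) p15_32_2 (nat_lit 4) (nat_lit 61) (nat_lit 62) = true := by decide +kernel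
def p15_32_2_62 : pfC (piC [(nat_lit 35065580), (nat_lit 23538785), (nat_lit 17602610), (nat_lit 11874437)] (nat_lit 6971554)) p15_32_2 (nat_lit 4) (nat_lit 62) (nat_lit 63) = true := by decide +kernel
def p15_32_2_63 : pfC (piC [(nat_lit 35065580), (nat_lit 23538785), (nat_lit 17602610), (nat_lit 11874437)] (nat_lit 6971554)) p15_32_2 (nat_lit 4) (nat_lit 63) (nat_lit 64) = true := by decide +kernel
def p15_32_2_64 : pfC (piC [(nat_lit 35065580), (nat_lit 23538785), (nat_lit 17602610), (nat_lit 11874437)] (nat_lit 6971554)) p15_32_2 (nat_lit 4) (nat_lit 64) (nat_lit 65) = true := by decide +kernel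
def p15_32_2_65 : pfC (piC [(nat_lit 35065580), (nat_lit 23538785), (nat_lit 17602610), (nat_lit 11874437)] (nat_lit 6971554)) p15_32_2 (nat_lit 4) (nat_lit 65) (nat_lit 66) = true := by decide +kernel
def p15_32_2_66 : pfC (piC [(nat_lit 35065580), (nat_lit 23538785), (nat_lit 17602610), (nat_lit 11874437)] (nat_lit 6971554)) p15_32_2 (nat_lit 4) (nat_lit 66) (nat_lit 67) = true := by decide +kernel
def p15_32_2_67 : pfC (piC [(nat_lit 35065580), (nat_lit 23538785), (nat_lit 17602610), (nat_lit 11874437)] (nat_lit 6971554)) p15_32_2 (nat_lit 4) (nat_lit 67) (nat_lit 68) = true := by decide +kernel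
def p15_32_2_68 : pfC (piC [(nat_lit 35065580), (nat_lit 23538785), (nat_lit 17602610), (nat_lit 11874437)] (nat_lit 6971554)) p15_32_2 (nat_lit 4) (nat_lit 68) (nat_lit 69) = true := by decide +kernel
def p15_32_2_69 : pfC (piC [(nat_lit 35065580), (nat_lit 23538785), (nat_lit 17602610), (nat_lit 11874437)] (nat_lit 6971554)) p15_32_2 (nat_lit 4) (nat_lit 69) (nat_lit 70) = true := by decide +kernel
def p15_32_2_70 : pfC (piC [(nat_lit 35065580), (nat_lit 23538785), (nat_lit 17602610), (nat_lit 11874437)] (nat_lit 6971554)) p15_32_2 (nat_lit 4) (nat_lit 70) (nat_lit 71) = true := by decide +kernel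
def p15_32_2_71 : pfC (piC [(nat_lit 35065580), (nat_lit 23538785), (nat_lit 17602610), (nat_lit 11874437)] (nat_lit 6971554)) p15_32_2 (nat_lit 4) (nat_lit 71) (nat_lit 72) = true := by decide +kernel
def p15_32_2_72 : pfC (piC [(nat_lit 35065580), (nat_lit 23538785), (nat_lit 17602610), (nat_lit 11874437)] (nat_lit 6971554)) p15_32_2 (nat_lit 4) (nat_lit 72) (nat_lit 73) = true := by decide +kernel
def p15_32_2_73 : pfC (piC [(nat_lit 35065580), (nat_lit 23538785), (nat_lit 17602610), (nat_lit 11874437)] (nat_lit 6971554)) p15_32_2 (nat_lit 4) (nat_lit 73) (nat_lit 74) = true := by decide +kernel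
def p15_32_2_74 : pfC (piC [(nat_lit 35065580), (nat_lit 23538785), (nat_lit 17602610), (nat_lit 11874437)] (nat_lit 6971554)) p15_32_2 (nat_lit 4) (nat_lit 74) (nat_lit 75) = true := by decide +kernel
def p15_32_2_75 : pfC (piC [(nat_lit 35065580), (nat_lit 23538785), (nat_lit 17602610), (nat_lit 11874437)] (nat_lit 6971554)) p15_32_2 (nat_lit 4) (nat_lit 75) (nat_lit 76) = true := by decide +kernel
def p15_32_2_76 : pfC (piC [(nat_lit 35065580), (nat_lit 23538785), (nat_lit 17602610), (nat_lit 11874437)] (nat_lit 6971554)) p15_32_2 (nat_lit 4) (nat_lit 76) (nat_lit 77) = true := by decide +kernel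
def p15_32_2_77 : pfC (piC [(nat_lit 35065580), (nat_lit 23538785), (nat_lit 17602610), (nat_lit 11874437)] (nat_lit 6971554)) p15_32_2 (nat_lit 4) (nat_lit 77) (nat_lit 78) = true := by decide +kernel
def p15_32_2_78 : pfC (piC [(nat_lit 35065580), (nat_lit 23538785), (nat_lit 17602610), (nat_lit 11874437)] (nat_lit 6971554)) p15_32_2 (nat_lit 4) (nat_lit 78) (nat_lit 79) = true := by decide +kernel
def p15_32_2_79 : pfC (piC [(nat_lit 35065580), (nat_lit 23538785), (nat_lit 17602610), (nat_lit 11874437)] (nat_lit 6971554)) p15_32_2 (nat_lit 4) (nat_lit 79) (nat_lit 80) = true := by decide +kernel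
def p15_32_2_80 : pfC (piC [(nat_lit 35065580), (nat_lit 23538785), (nat_lit 17602610), (nat_lit 11874437)] (nat_lit 6971554)) p15_32_2 (nat_lit 4) (nat_lit 80) (nat_lit 81) = true := by decide +kernel
def p15_32_2_81 : pfC (piC [(nat_lit 35065580), (nat_lit 23538785), (nat_lit 17602610), (nat_lit 11874437)] (nat_lit 6971554)) p15_32_2 (nat_lit 4) (nat_lit 81) (nat_lit 82) = true := by decide +kernel
def p15_32_2_82 : pfC (piC [(nat_lit 35065580), (nat_lit 23538785), (nat_lit 17602610), (nat_lit 11874437)] (nat_lit 6971554)) p15_32_2 (nat_lit 4) (nat_lit 82) (nat_lit 83) = true := by decide +kernel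
def p15_32_2_83 : pfC (piC [(nat_lit 35065580), (nat_lit 23538785), (nat_lit 17602610), (nat_lit 11874437)] (nat_lit 6971554)) p15_32_2 (nat_lit 4) (nat_lit 83) (nat_lit 84) = true := by decide +kernel
def p15_32_2_84 : pfC (piC [(nat_lit 35065580), (nat_lit 23538785), (nat_lit 17602610), (nat_lit 11874437)] (nat_lit 6971554)) p15_32_2 (nat_lit 4) (nat_lit 84) (nat_lit 85) = true := by decide +kernel
def p15_32_2_85 : pfC (piC [(nat_lit 35065580), (nat_lit 23538785), (nat_lit 17602610), (nat_lit 11874437)] (nat_lit 6971554)) p15_32_2 (nat_lit 4) (nat_lit 85) (nat_lit 86) = true := by decide +kernel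
def p15_32_2_86 : pfC (piC [(nat_lit 35065580), (nat_lit 23538785), (nat_lit 17602610), (nat_lit 11874437)] (nat_lit 6971554)) p15_32_2 (nat_lit 4) (nat_lit 86) (nat_lit 87) = true := by decide +kernel
def p15_32_2_87 : pfC (piC [(nat_lit 35065580), (nat_lit 23538785), (nat_lit 17602610), (nat_lit 11874437)] (nat_lit 6971554)) p15_32_2 (nat_lit 4) (nat_lit 87) (nat_lit 88) = true := by decide +kernel
def p15_32_2_88 : pfC (piC [(nat_lit 35065580), (nat_lit 23538785), (nat_lit 17602610), (nat_lit 11874437)] (nat_lit 6971554)) p15_32_2 (nat_lit 4) (nat_lit 88) (nat_lit 89) = true := by decide +kernel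
def p15_32_2_89 : pfC (piC [(nat_lit 35065580), (nat_lit 23538785), (nat_lit 17602610), (nat_lit 11874437)] (nat_lit 6971554)) p15_32_2 (nat_lit 4) (nat_lit 89) (nat_lit 90) = true := by decide +kernel
def p15_32_2_90 : pfC (piC [(nat_lit 35065580), (nat_lit 23538785), (nat_lit 17602610), (nat_lit 11874437)] (nat_lit 6971554)) p15_32_2 (nat_lit 4) (nat_lit 90) (nat_lit 91) = true := by decide +kernel
def p15_32_2_91 : pfC (piC [(nat_lit 35065580), (nat_lit 23538785), (nat_lit 17602610), (nat_lit 11874437)] (nat_lit 6971554)) p15_32_2 (nat_lit 4) (nat_lit 91) (nat_lit 92) = true := by decide +kernel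
def p15_32_2_92 : pfC (piC [(nat_lit 35065580), (nat_lit 23538785), (nat_lit 17602610), (nat_lit 11874437)] (nat_lit 6971554)) p15_32_2 (nat_lit 4) (nat_lit 92) (nat_lit 93) = true := by decide +kernel
def p15_32_2_93 : pfC (piC [(nat_lit 35065580), (nat_lit 23538785), (nat_lit 17602610), (nat_lit 11874437)] (nat_lit 6971554)) p15_32_2 (nat_lit 4) (nat_lit 93) (nat_lit 94) = true := by decide +kernel
def p15_32_2_94 : pfC (piC [(nat_lit 35065580), (nat_lit 23538785), (nat_lit 17602610), (nat_lit 11874437)] (nat_lit 6971554)) p15_32_2 (nat_lit 4) (nat_lit 94) (nat_lit 95) = true := by decide +kernel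
def p15_32_2_95 : pfC (piC [(nat_lit 35065580), (nat_lit 23538785), (nat_lit 17602610), (nat_lit 11874437)] (nat_lit 6971554)) p15_32_2 (nat_lit 4) (nat_lit 95) (nat_lit 96) = true := by decide +kernel
def p15_32_2_96 : pfC (piC [(nat_lit 35065580), (nat_lit 23538785), (nat_lit 17602610), (nat_lit 11874437)] (nat_lit 6971554)) p15_32_2 (nat_lit 4) (nat_lit 96) (nat_lit 97) = true := by decide +kernel
def p15_32_2_97 : pfC (piC [(nat_lit 35065580), (nat_lit 23538785), (nat_lit 17602610), (nat_lit 11874437)] (nat_lit 6971554)) p15_32_2 (nat_lit 4) (nat_lit 97) (nat_lit 98) = true := by decide +kernel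
def p15_32_2_98 : pfC (piC [(nat_lit 35065580), (nat_lit 23538785), (nat_lit 17602610), (nat_lit 11874437)] (nat_lit 6971554)) p15_32_2 (nat_lit 4) (nat_lit 98) (nat_lit 99) = true := by decide +kernel
def p15_32_2_99 : pfC (piC [(nat_lit 35065580), (nat_lit 23538785), (nat_lit 17602610), (nat_lit 11874437)] (nat_lit 6971554)) p15_32_2 (nat_lit 4) (nat_lit 99) (nat_lit 100) = true := by decide +kernel
def p15_32_2_100 : pfC (piC [(nat_lit 35065580), (nat_lit 23538785), (nat_lit 17602610), (nat_lit 11874437)] (nat_lit 6971554)) p15_32_2 (nat_lit 4) (nat_lit 100) (nat_lit 101) = true := by decide +kernel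
def p15_32_2_101 : pfC (piC [(nat_lit 35065580), (nat_lit 23538785), (nat_lit 17602610), (nat_lit 11874437)] (nat_lit 6971554)) p15_32_2 (nat_lit 4) (nat_lit 101) (nat_lit 102) = true := by decide +kernel
def p15_32_2_102 : pfC (piC [(nat_lit 35065580), (nat_lit 23538785), (nat_lit 17602610), (nat_lit 11874437)] (nat_lit 6971554)) p15_32_2 (nat_lit 4) (nat_lit 102) (nat_lit 103) = true := by decide +kernel
def p15_32_2_103 : pfC (piC [(nat_lit 35065580), (nat_lit 23538785), (nat_lit 17602610), (nat_lit 11874437)] (nat_lit 6971554)) p15_32_2 (nat_lit 4) (nat_lit 103) (nat_lit 104) = true := by decide +kernel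
def p15_32_2_104 : pfC (piC [(nat_lit 35065580), (nat_lit 23538785), (nat_lit 17602610), (nat_lit 11874437)] (nat_lit 6971554)) p15_32_2 (nat_lit 4) (nat_lit 104) (nat_lit 105) = true := by decide +kernel
def p15_32_2_105 : pfC (piC [(nat_lit 35065580), (nat_lit 23538785), (nat_lit 17602610), (nat_lit 11874437)] (nat_lit 6971554)) p15_32_2 (nat_lit 4) (nat_lit 105) (nat_lit 106) = true := by decide +kernel
def p15_32_2_106 : pfC (piC [(nat_lit 35065580), (nat_lit 23538785), (nat_lit 17602610), (nat_lit 11874437)] (nat_lit 6971554)) p15_32_2 (nat_lit 4) (nat_lit 106) (nat_lit 107) = true := by decide +kernel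
def p15_32_2_107 : pfC (piC [(nat_lit 35065580), (nat_lit 23538785), (nat_lit 17602610), (nat_lit 11874437)] (nat_lit 6971554)) p15_32_2 (nat_lit 4) (nat_lit 107) (nat_lit 108) = true := by decide +kernel
def p15_32_2_108 : pfC (piC [(nat_lit 35065580), (nat_lit 23538785), (nat_lit 17602610), (nat_lit 11874437)] (nat_lit 6971554)) p15_32_2 (nat_lit 4) (nat_lit 108) (nat_lit 109) = true := by decide +kernel
def p15_32_2_109 : pfC (piC [(nat_lit 35065580), (nat_lit 23538785), (nat_lit 17602610), (nat_lit 11874437)] (nat_lit 6971554)) p15_32_2 (nat_lit 4) (nat_lit 109) (nat_lit 110) = true := by decide +kernel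
def p15_32_2_110 : pfC (piC [(nat_lit 35065580), (nat_lit 23538785), (nat_lit 17602610), (nat_lit 11874437)] (nat_lit 6971554)) p15_32_2 (nat_lit 4) (nat_lit 110) (nat_lit 111) = true := by decide +kernel
def p15_32_2_111 : pfC (piC [(nat_lit 35065580), (nat_lit 23538785), (nat_lit 17602610), (nat_lit 11874437)] (nat_lit 6971554)) p15_32_2 (nat_lit 4) (nat_lit 111) (nat_lit 112) = true := by decide +kernel
def p15_32_2_112 : pfC (piC [(nat_lit 35065580), (nat_lit 23538785), (nat_lit 17602610), (nat_lit 11874437)] (nat_lit 6971554)) p15_32_2 (nat_lit 4) (nat_lit 112) (nat_lit 113) = true := by decide +kernel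
def p15_32_2_113 : pfC (piC [(nat_lit 35065580), (nat_lit 23538785), (nat_lit 17602610), (nat_lit 11874437)] (nat_lit 6971554)) p15_32_2 (nat_lit 4) (nat_lit 113) (nat_lit 114) = true := by decide +kernel
def p15_32_2_114 : pfC (piC [(nat_lit 35065580), (nat_lit 23538785), (nat_lit 17602610), (nat_lit 11874437)] (nat_lit 6971554)) p15_32_2 (nat_lit 4) (nat_lit 114) (nat_lit 115) = true := by decide +kernel
def p15_32_2_115 : pfC (piC [(nat_lit 35065580), (nat_lit 23538785), (nat_lit 17602610), (nat_lit 11874437)] (nat_lit 6971554)) p15_32_2 (nat_lit 4) (nat_lit 115) (nat_lit 116) = true := by decide +kernel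
def p15_32_2_116 : pfC (piC [(nat_lit 35065580), (nat_lit 23538785), (nat_lit 17602610), (nat_lit 11874437)] (nat_lit 6971554)) p15_32_2 (nat_lit 4) (nat_lit 116) (nat_lit 117) = true := by decide +kernel
def p15_32_2_117 : pfC (piC [(nat_lit 35065580), (nat_lit 23538785), (nat_lit 17602610), (nat_lit 11874437)] (nat_lit 6971554)) p15_32_2 (nat_lit 4) (nat_lit 117) (nat_lit 118) = true := by decide +kernel
def p15_32_2_118 : pfC (piC [(nat_lit 35065580), (nat_lit 23538785), (nat_lit 17602610), (nat_lit 11874437)] (nat_lit 6971554)) p15_32_2 (nat_lit 4) (nat_lit 118) (nat_lit 119) = true := by decide +kernel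
def p15_32_2_119 : pfC (piC [(nat_lit 35065580), (nat_lit 23538785), (nat_lit 17602610), (nat_lit 11874437)] (nat_lit 6971554)) p15_32_2 (nat_lit 4) (nat_lit 119) (nat_lit 120) = true := by decide +kernel
def p15_32_2_120 : pfC (piC [(nat_lit 35065580), (nat_lit 23538785), (nat_lit 17602610), (nat_lit 11874437)] (nat_lit 6971554)) p15_32_2 (nat_lit 4) (nat_lit 120) (nat_lit 121) = true := by decide +kernel
def p15_32_2_121 : pfC (piC [(nat_lit 35065580), (nat_lit 23538785), (nat_lit 17602610), (nat_lit 11874437)] (nat_lit 6971554)) p15_32_2 (nat_lit 4) (nat_lit 121) (nat_lit 122) = true := by decide +kernel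
def p15_32_2_122 : pfC (piC [(nat_lit 35065580), (nat_lit 23538785), (nat_lit 17602610), (nat_lit 11874437)] (nat_lit 6971554)) p15_32_2 (nat_lit 4) (nat_lit 122) (nat_lit 123) = true := by decide +kernel
def p15_32_2_123 : pfC (piC [(nat_lit 35065580), (nat_lit 23538785), (nat_lit 17602610), (nat_lit 11874437)] (nat_lit 6971554)) p15_32_2 (nat_lit 4) (nat_lit 123) (nat_lit 124) = true := by decide +kernel
def p15_32_2_124 : pfC (piC [(nat_lit 35065580), (nat_lit 23538785), (nat_lit 17602610), (nat_lit 11874437)] (nat_lit 6971554)) p15_32_2 (nat_lit 4) (nat_lit 124) (nat_lit 125) = true := by decide +kernel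
def p15_32_2_125 : pfC (piC [(nat_lit 35065580), (nat_lit 23538785), (nat_lit 17602610), (nat_lit 11874437)] (nat_lit 6971554)) p15_32_2 (nat_lit 4) (nat_lit 125) (nat_lit 126) = true := by decide +kernel
def p15_32_2_126 : pfC (piC [(nat_lit 35065580), (nat_lit 23538785), (nat_lit 17602610), (nat_lit 11874437)] (nat_lit 6971554)) p15_32_2 (nat_lit 4) (nat_lit 126) (nat_lit 127) = true := by decide +kernel
def p15_32_2_127 : pfC (piC [(nat_lit 35065580), (nat_lit 23538785), (nat_lit 17602610), (nat_lit 11874437)] (nat_lit 6971554)) p15_32_2 (nat_lit 4) (nat_lit 127) (nat_lit 128) = true := by decide +kernel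
def p15_32_2_128 : pfC (piC [(nat_lit 35065580), (nat_lit 23538785), (nat_lit 17602610), (nat_lit 11874437)] (nat_lit 6971554)) p15_32_2 (nat_lit 4) (nat_lit 128) (nat_lit 129) = true := by decide +kernel
def p15_32_2_129 : pfC (piC [(nat_lit 35065580), (nat_lit 23538785), (nat_lit 17602610), (nat_lit 11874437)] (nat_lit 6971554)) p15_32_2 (nat_lit 4) (nat_lit 129) (nat_lit 130) = true := by decide +kernel
def p15_32_2_130 : pfC (piC [(nat_lit 35065580), (nat_lit 23538785), (nat_lit 17602610), (nat_lit 11874437)] (nat_lit 6971554)) p15_32_2 (nat_lit 4) (nat_lit 130) (nat_lit 131) = true := by decide +kernel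
def p15_32_2_131 : pfC (piC [(nat_lit 35065580), (nat_lit 23538785), (nat_lit 17602610), (nat_lit 11874437)] (nat_lit 6971554)) p15_32_2 (nat_lit 4) (nat_lit 131) (nat_lit 132) = true := by decide +kernel
def p15_32_2_132 : pfC (piC [(nat_lit 35065580), (nat_lit 23538785), (nat_lit 17602610), (nat_lit 11874437)] (nat_lit 6971554)) p15_32_2 (nat_lit 4) (nat_lit 132) (nat_lit 133) = true := by decide +kernel
def p15_32_2_133 : pfC (piC [(nat_lit 35065580), (nat_lit 23538785), (nat_lit 17602610), (nat_lit 11874437)] (nat_lit 6971554)) p15_32_2 (nat_lit 4) (nat_lit 133) (nat_lit 134) = true := by decide +kernel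
def p15_32_2_134 : pfC (piC [(nat_lit 35065580), (nat_lit 23538785), (nat_lit 17602610), (nat_lit 11874437)] (nat_lit 6971554)) p15_32_2 (nat_lit 4) (nat_lit 134) (nat_lit 135) = true := by decide +kernel
def p15_32_2_135 : pfC (piC [(nat_lit 35065580), (nat_lit 23538785), (nat_lit 17602610), (nat_lit 11874437)] (nat_lit 6971554)) p15_32_2 (nat_lit 4) (nat_lit 135) (nat_lit 136) = true := by decide +kernel
def p15_32_2_136 : pfC (piC [(nat_lit 35065580), (nat_lit 23538785), (nat_lit 17602610), (nat_lit 11874437)] (nat_lit 6971554)) p15_32_2 (nat_lit 4) (nat_lit 136) (nat_lit 137) = true := by decide +kernel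
def p15_32_2_137 : pfC (piC [(nat_lit 35065580), (nat_lit 23538785), (nat_lit 17602610), (nat_lit 11874437)] (nat_lit 6971554)) p15_32_2 (nat_lit 4) (nat_lit 137) (nat_lit 138) = true := by decide +kernel
def p15_32_2_138 : pfC (piC [(nat_lit 35065580), (nat_lit 23538785), (nat_lit 17602610), (nat_lit 11874437)] (nat_lit 6971554)) p15_32_2 (nat_lit 4) (nat_lit 138) (nat_lit 139) = true := by decide +kernel
def p15_32_2_139 : pfC (piC [(nat_lit 35065580), (nat_lit 23538785), (nat_lit 17602610), (nat_lit 11874437)] (nat_lit 6971554)) p15_32_2 (nat_lit 4) (nat_lit 139) (nat_lit 140) = true := by decide +kernel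
def p15_32_2_140 : pfC (piC [(nat_lit 35065580), (nat_lit 23538785), (nat_lit 17602610), (nat_lit 11874437)] (nat_lit 6971554)) p15_32_2 (nat_lit 4) (nat_lit 140) (nat_lit 141) = true := by decide +kernel
def p15_32_2_141 : pfC (piC [(nat_lit 35065580), (nat_lit 23538785), (nat_lit 17602610), (nat_lit 11874437)] (nat_lit 6971554)) p15_32_2 (nat_lit 4) (nat_lit 141) (nat_lit 142) = true := by decide +kernel
def p15_32_2_142 : pfC (piC [(nat_lit 35065580), (nat_lit 23538785), (nat_lit 17602610), (nat_lit 11874437)] (nat_lit 6971554)) p15_32_2 (nat_lit 4) (nat_lit 142) (nat_lit 143) = true := by decide +kernel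
def p15_32_2_143 : pfC (piC [(nat_lit 35065580), (nat_lit 23538785), (nat_lit 17602610), (nat_lit 11874437)] (nat_lit 6971554)) p15_32_2 (nat_lit 4) (nat_lit 143) (nat_lit 144) = true := by decide +kernel
def p15_32_2_144 : pfC (piC [(nat_lit 35065580), (nat_lit 23538785), (nat_lit 17602610), (nat_lit 11874437)] (nat_lit 6971554)) p15_32_2 (nat_lit 4) (nat_lit 144) (nat_lit 145) = true := by decide +kernel
def p15_32_2_145 : pfC (piC [(nat_lit 35065580), (nat_lit 23538785), (nat_lit 17602610), (nat_lit 11874437)] (nat_lit 6971554)) p15_32_2 (nat_lit 4) (nat_lit 145) (nat_lit 146) = true := by decide +kernel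
def p15_32_2_146 : pfC (piC [(nat_lit 35065580), (nat_lit 23538785), (nat_lit 17602610), (nat_lit 11874437)] (nat_lit 6971554)) p15_32_2 (nat_lit 4) (nat_lit 146) (nat_lit 147) = true := by decide +kernel
def p15_32_2_147 : pfC (piC [(nat_lit 35065580), (nat_lit 23538785), (nat_lit 17602610), (nat_lit 11874437)] (nat_lit 6971554)) p15_32_2 (nat_lit 4) (nat_lit 147) (nat_lit 148) = true := by decide +kernel
def p15_32_2_148 : pfC (piC [(nat_lit 35065580), (nat_lit 23538785), (nat_lit 17602610), (nat_lit 11874437)] (nat_lit 6971554)) p15_32_2 (nat_lit 4) (nat_lit 148) (nat_lit 149) = true := by decide +kernel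
def p15_32_2_149 : pfC (piC [(nat_lit 35065580), (nat_lit 23538785), (nat_lit 17602610), (nat_lit 11874437)] (nat_lit 6971554)) p15_32_2 (nat_lit 4) (nat_lit 149) (nat_lit 150) = true := by decide +kernel
def p15_32_2_150 : pfC (piC [(nat_lit 35065580), (nat_lit 23538785), (nat_lit 17602610), (nat_lit 11874437)] (nat_lit 6971554)) p15_32_2 (nat_lit 4) (nat_lit 150) (nat_lit 151) = true := by decide +kernel
def p15_32_2_151 : pfC (piC [(nat_lit 35065580), (nat_lit 23538785), (nat_lit 17602610), (nat_lit 11874437)] (nat_lit 6971554)) p15_32_2 (nat_lit 4) (nat_lit 151) (nat_lit 152) = true := by decide +kernel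
def p15_32_2_152 : pfC (piC [(nat_lit 35065580), (nat_lit 23538785), (nat_lit 17602610), (nat_lit 11874437)] (nat_lit 6971554)) p15_32_2 (nat_lit 4) (nat_lit 152) (nat_lit 153) = true := by decide +kernel
def p15_32_2_153 : pfC (piC [(nat_lit 35065580), (nat_lit 23538785), (nat_lit 17602610), (nat_lit 11874437)] (nat_lit 6971554)) p15_32_2 (nat_lit 4) (nat_lit 153) (nat_lit 154) = true := by decide +kernel
def p15_32_2_154 : pfC (piC [(nat_lit 35065580), (nat_lit 23538785), (nat_lit 17602610), (nat_lit 11874437)] (nat_lit 6971554)) p15_32_2 (nat_lit 4) (nat_lit 154) (nat_lit 155) = true := by decide +kernel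
def p15_32_2_155 : pfC (piC [(nat_lit 35065580), (nat_lit 23538785), (nat_lit 17602610), (nat_lit 11874437)] (nat_lit 6971554)) p15_32_2 (nat_lit 4) (nat_lit 155) (nat_lit 156) = true := by decide +kernel
def p15_32_2_156 : pfC (piC [(nat_lit 35065580), (nat_lit 23538785), (nat_lit 17602610), (nat_lit 11874437)] (nat_lit 6971554)) p15_32_2 (nat_lit 4) (nat_lit 156) (nat_lit 157) = true := by decide +kernel
def p15_32_2_157 : pfC (piC [(nat_lit 35065580), (nat_lit 23538785), (nat_lit 17602610), (nat_lit 11874437)] (nat_lit 6971554)) p15_32_2 (nat_lit 4) (nat_lit 157) (nat_lit 158) = true := by decide +kernel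
def p15_32_2_158 : pfC (piC [(nat_lit 35065580), (nat_lit 23538785), (nat_lit 17602610), (nat_lit 11874437)] (nat_lit 6971554)) p15_32_2 (nat_lit 4) (nat_lit 158) (nat_lit 159) = true := by decide +kernel
def p15_32_2_159 : pfC (piC [(nat_lit 35065580), (nat_lit 23538785), (nat_lit 17602610), (nat_lit 11874437)] (nat_lit 6971554)) p15_32_2 (nat_lit 4) (nat_lit 159) (nat_lit 160) = true := by decide +kernel
def p15_32_2_160 : pfC (piC [(nat_lit 35065580), (nat_lit 23538785), (nat_lit 17602610), (nat_lit 11874437)] (nat_lit 6971554)) p15_32_2 (nat_lit 4) (nat_lit 160) (nat_lit 161) = true := by decide +kernel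
def p15_32_2_161 : pfC (piC [(nat_lit 35065580), (nat_lit 23538785), (nat_lit 17602610), (nat_lit 11874437)] (nat_lit 6971554)) p15_32_2 (nat_lit 4) (nat_lit 161) (nat_lit 162) = true := by decide +kernel
def p15_32_2_162 : pfC (piC [(nat_lit 35065580), (nat_lit 23538785), (nat_lit 17602610), (nat_lit 11874437)] (nat_lit 6971554)) p15_32_2 (nat_lit 4) (nat_lit 162) (nat_lit 163) = true := by decide +kernel
def p15_32_2_163 : pfC (piC [(nat_lit 35065580), (nat_lit 23538785), (nat_lit 17602610), (nat_lit 11874437)] (nat_lit 6971554)) p15_32_2 (nat_lit 4) (nat_lit 163) (nat_lit 164) = true := by decide +kernel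
def p15_32_2_164 : pfC (piC [(nat_lit 35065580), (nat_lit 23538785), (nat_lit 17602610), (nat_lit 11874437)] (nat_lit 6971554)) p15_32_2 (nat_lit 4) (nat_lit 164) (nat_lit 165) = true := by decide +kernel
def p15_32_2_165 : pfC (piC [(nat_lit 35065580), (nat_lit 23538785), (nat_lit 17602610), (nat_lit 11874437)] (nat_lit 6971554)) p15_32_2 (nat_lit 4) (nat_lit 165) (nat_lit 166) = true := by decide +kernel
def p15_32_2_166 : pfC (piC [(nat_lit 35065580), (nat_lit 23538785), (nat_lit 17602610), (nat_lit 11874437)] (nat_lit 6971554)) p15_32_2 (nat_lit 4) (nat_lit 166) (nat_lit 167) = true := by decide +kernel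
def p15_32_2_167 : pfC (piC [(nat_lit 35065580), (nat_lit 23538785), (nat_lit 17602610), (nat_lit 11874437)] (nat_lit 6971554)) p15_32_2 (nat_lit 4) (nat_lit 167) (nat_lit 168) = true := by decide +kernel
def p15_32_2_168 : pfC (piC [(nat_lit 35065580), (nat_lit 23538785), (nat_lit 17602610), (nat_lit 11874437)] (nat_lit 6971554)) p15_32_2 (nat_lit 4) (nat_lit 168) (nat_lit 169) = true := by decide +kernel
def p15_32_2_169 : pfC (piC [(nat_lit 35065580), (nat_lit 23538785), (nat_lit 17602610), (nat_lit 11874437)] (nat_lit 6971554)) p15_32_2 (nat_lit 4) (nat_lit 169) (nat_lit 170) = true := by decide +kernel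
def p15_32_2_170 : pfC (piC [(nat_lit 35065580), (nat_lit 23538785), (nat_lit 17602610), (nat_lit 11874437)] (nat_lit 6971554)) p15_32_2 (nat_lit 4) (nat_lit 170) (nat_lit 171) = true := by decide +kernel
def p15_32_2_171 : pfC (piC [(nat_lit 35065580), (nat_lit 23538785), (nat_lit 17602610), (nat_lit 11874437)] (nat_lit 6971554)) p15_32_2 (nat_lit 4) (nat_lit 171) (nat_lit 172) = true := by decide +kernel
def p15_32_2_172 : pfC (piC [(nat_lit 35065580), (nat_lit 23538785), (nat_lit 17602610), (nat_lit 11874437)] (nat_lit 6971554)) p15_32_2 (nat_lit 4) (nat_lit 172) (nat_lit 173) = true := by decide +kernel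
def p15_32_2_173 : pfC (piC [(nat_lit 35065580), (nat_lit 23538785), (nat_lit 17602610), (nat_lit 11874437)] (nat_lit 6971554)) p15_32_2 (nat_lit 4) (nat_lit 173) (nat_lit 174) = true := by decide +kernel
def p15_32_2_174 : pfC (piC [(nat_lit 35065580), (nat_lit 23538785), (nat_lit 17602610), (nat_lit 11874437)] (nat_lit 6971554)) p15_32_2 (nat_lit 4) (nat_lit 174) (nat_lit 175) = true := by decide +kernel
def p15_32_2_175 : pfC (piC [(nat_lit 35065580), (nat_lit 23538785), (nat_lit 17602610), (nat_lit 11874437)] (nat_lit 6971554)) p15_32_2 (nat_lit 4) (nat_lit 175) (nat_lit 176) = true := by decide +kernel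
def p15_32_2_176 : pfC (piC [(nat_lit 35065580), (nat_lit 23538785), (nat_lit 17602610), (nat_lit 11874437)] (nat_lit 6971554)) p15_32_2 (nat_lit 4) (nat_lit 176) (nat_lit 177) = true := by decide +kernel
def p15_32_2_177 : pfC (piC [(nat_lit 35065580), (nat_lit 23538785), (nat_lit 17602610), (nat_lit 11874437)] (nat_lit 6971554)) p15_32_2 (nat_lit 4) (nat_lit 177) (nat_lit 178) = true := by decide +kernel
def p15_32_2_178 : pfC (piC [(nat_lit 35065580), (nat_lit 23538785), (nat_lit 17602610), (nat_lit 11874437)] (nat_lit 6971554)) p15_32_2 (nat_lit 4) (nat_lit 178) (nat_lit 179) = true := by decide +kernel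
def p15_32_2_179 : pfC (piC [(nat_lit 35065580), (nat_lit 23538785), (nat_lit 17602610), (nat_lit 11874437)] (nat_lit 6971554)) p15_32_2 (nat_lit 4) (nat_lit 179) (nat_lit 180) = true := by decide +kernel
def p15_32_2_180 : pfC (piC [(nat_lit 35065580), (nat_lit 23538785), (nat_lit 17602610), (nat_lit 11874437)] (nat_lit 6971554)) p15_32_2 (nat_lit 4) (nat_lit 180) (nat_lit 181) = true := by decide +kernel
def p15_32_2_181 : pfC (piC [(nat_lit 35065580), (nat_lit 23538785), (nat_lit 17602610), (nat_lit 11874437)] (nat_lit 6971554)) p15_32_2 (nat_lit 4) (nat_lit 181) (nat_lit 182) = true := by decide +kernel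
def p15_32_2_182 : pfC (piC [(nat_lit 35065580), (nat_lit 23538785), (nat_lit 17602610), (nat_lit 11874437)] (nat_lit 6971554)) p15_32_2 (nat_lit 4) (nat_lit 182) (nat_lit 183) = true := by decide +kernel
def p15_32_2_183 : pfC (piC [(nat_lit 35065580), (nat_lit 23538785), (nat_lit 17602610), (nat_lit 11874437)] (nat_lit 6971554)) p15_32_2 (nat_lit 4) (nat_lit 183) (nat_lit 184) = true := by decide +kernel
def p15_32_2_184 : pfC (piC [(nat_lit 35065580), (nat_lit 23538785), (nat_lit 17602610), (nat_lit 11874437)] (nat_lit 6971554)) p15_32_2 (nat_lit 4) (nat_lit 184) (nat_lit 185) = true := by decide +kernel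
def p15_32_2_185 : pfC (piC [(nat_lit 35065580), (nat_lit 23538785), (nat_lit 17602610), (nat_lit 11874437)] (nat_lit 6971554)) p15_32_2 (nat_lit 4) (nat_lit 185) (nat_lit 186) = true := by decide +kernel
def p15_32_2_186 : pfC (piC [(nat_lit 35065580), (nat_lit 23538785), (nat_lit 17602610), (nat_lit 11874437)] (nat_lit 6971554)) p15_32_2 (nat_lit 4) (nat_lit 186) (nat_lit 187) = true := by decide +kernel
def p15_32_2_187 : pfC (piC [(nat_lit 35065580), (nat_lit 23538785), (nat_lit 17602610), (nat_lit 11874437)] (nat_lit 6971554)) p15_32_2 (nat_lit 4) (nat_lit 187) (nat_lit 188) = true := by decide +kernel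
def p15_32_2_188 : pfC (piC [(nat_lit 35065580), (nat_lit 23538785), (nat_lit 17602610), (nat_lit 11874437)] (nat_lit 6971554)) p15_32_2 (nat_lit 4) (nat_lit 188) (nat_lit 189) = true := by decide +kernel
def p15_32_2_189 : pfC (piC [(nat_lit 35065580), (nat_lit 23538785), (nat_lit 17602610), (nat_lit 11874437)] (nat_lit 6971554)) p15_32_2 (nat_lit 4) (nat_lit 189) (nat_lit 190) = true := by decide +kernel
def p15_32_2_190 : pfC (piC [(nat_lit 35065580), (nat_lit 23538785), (nat_lit 17602610), (nat_lit 11874437)] (nat_lit 6971554)) p15_32_2 (nat_lit 4) (nat_lit 190) (nat_lit 191) = true := by decide +kernel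
def p15_32_2_191 : pfC (piC [(nat_lit 35065580), (nat_lit 23538785), (nat_lit 17602610), (nat_lit 11874437)] (nat_lit 6971554)) p15_32_2 (nat_lit 4) (nat_lit 191) (nat_lit 192) = true := by decide +kernel
def p15_32_2_192 : pfC (piC [(nat_lit 35065580), (nat_lit 23538785), (nat_lit 17602610), (nat_lit 11874437)] (nat_lit 6971554)) p15_32_2 (nat_lit 4) (nat_lit 192) (nat_lit 193) = true := by decide +kernel
def p15_32_2_193 : pfC (piC [(nat_lit 35065580), (nat_lit 23538785), (nat_lit 17602610), (nat_lit 11874437)] (nat_lit 6971554)) p15_32_2 (nat_lit 4) (nat_lit 193) (nat_lit 194) = true := by decide +kernel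
def p15_32_2_194 : pfC (piC [(nat_lit 35065580), (nat_lit 23538785), (nat_lit 17602610), (nat_lit 11874437)] (nat_lit 6971554)) p15_32_2 (nat_lit 4) (nat_lit 194) (nat_lit 195) = true := by decide +kernel
def p15_32_2_195 : pfC (piC [(nat_lit 35065580), (nat_lit 23538785), (nat_lit 17602610), (nat_lit 11874437)] (nat_lit 6971554)) p15_32_2 (nat_lit 4) (nat_lit 195) (nat_lit 196) = true := by decide +kernel
def p15_32_2_196 : pfC (piC [(nat_lit 35065580), (nat_lit 23538785), (nat_lit 17602610), (nat_lit 11874437)] (nat_lit 6971554)) p15_32_2 (nat_lit 4) (nat_lit 196) (nat_lit 197) = true := by decide +kernel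
def p15_32_2_197 : pfC (piC [(nat_lit 35065580), (nat_lit 23538785), (nat_lit 17602610), (nat_lit 11874437)] (nat_lit 6971554)) p15_32_2 (nat_lit 4) (nat_lit 197) (nat_lit 198) = true := by decide +kernel
def p15_32_2_198 : pfC (piC [(nat_lit 35065580), (nat_lit 23538785), (nat_lit 17602610), (nat_lit 11874437)] (nat_lit 6971554)) p15_32_2 (nat_lit 4) (nat_lit 198) (nat_lit 199) = true := by decide +kernel
def p15_32_2_199 : pfC (piC [(nat_lit 35065580), (nat_lit 23538785), (nat_lit 17602610), (nat_lit 11874437)] (nat_lit 6971554)) p15_32_2 (nat_lit 4) (nat_lit 199) (nat_lit 200) = true := by decide +kernel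
def p15_32_2_200 : pfC (piC [(nat_lit 35065580), (nat_lit 23538785), (nat_lit 17602610), (nat_lit 11874437)] (nat_lit 6971554)) p15_32_2 (nat_lit 4) (nat_lit 200) (nat_lit 201) = true := by decide +kernel
def p15_32_2_201 : pfC (piC [(nat_lit 35065580), (nat_lit 23538785), (nat_lit 17602610), (nat_lit 11874437)] (nat_lit 6971554)) p15_32_2 (nat_lit 4) (nat_lit 201) (nat_lit 202) = true := by decide +kernel
def p15_32_2_202 : pfC (piC [(nat_lit 35065580), (nat_lit 23538785), (nat_lit 17602610), (nat_lit 11874437)] (nat_lit 6971554)) p15_32_2 (nat_lit 4) (nat_lit 202) (nat_lit 203) = true := by decide +kernel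
def p15_32_2_203 : pfC (piC [(nat_lit 35065580), (nat_lit 23538785), (nat_lit 17602610), (nat_lit 11874437)] (nat_lit 6971554)) p15_32_2 (nat_lit 4) (nat_lit 203) (nat_lit 204) = true := by decide +kernel
def p15_32_2_204 : pfC (piC [(nat_lit 35065580), (nat_lit 23538785), (nat_lit 17602610), (nat_lit 11874437)] (nat_lit 6971554)) p15_32_2 (nat_lit 4) (nat_lit 204) (nat_lit 205) = true := by decide +kernel
def p15_32_2_205 : pfC (piC [(nat_lit 35065580), (nat_lit 23538785), (nat_lit 17602610), (nat_lit 11874437)] (nat_lit 6971554)) p15_32_2 (nat_lit 4) (nat_lit 205) (nat_lit 206) = true := by decide +kernel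
def p15_32_2_206 : pfC (piC [(nat_lit 35065580), (nat_lit 23538785), (nat_lit 17602610), (nat_lit 11874437)] (nat_lit 6971554)) p15_32_2 (nat_lit 4) (nat_lit 206) (nat_lit 207) = true := by decide +kernel
def p15_32_2_207 : pfC (piC [(nat_lit 35065580), (nat_lit 23538785), (nat_lit 17602610), (nat_lit 11874437)] (nat_lit 6971554)) p15_32_2 (nat_lit 4) (nat_lit 207) (nat_lit 208) = true := by decide +kernel
def p15_32_2_208 : pfC (piC [(nat_lit 35065580), (nat_lit 23538785), (nat_lit 17602610), (nat_lit 11874437)] (nat_lit 6971554)) p15_32_2 (nat_lit 4) (nat_lit 208) (nat_lit 209) = true := by decide +kernel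
def p15_32_2_209 : pfC (piC [(nat_lit 35065580), (nat_lit 23538785), (nat_lit 17602610), (nat_lit 11874437)] (nat_lit 6971554)) p15_32_2 (nat_lit 4) (nat_lit 209) (nat_lit 210) = true := by decide +kernel
def p15_32_2_210 : pfC (piC [(nat_lit 35065580), (nat_lit 23538785), (nat_lit 17602610), (nat_lit 11874437)] (nat_lit 6971554)) p15_32_2 (nat_lit 4) (nat_lit 210) (nat_lit 211) = true := by decide +kernel
def p15_32_2_211 : pfC (piC [(nat_lit 35065580), (nat_lit 23538785), (nat_lit 17602610), (nat_lit 11874437)] (nat_lit 6971554)) p15_32_2 (nat_lit 4) (nat_lit 211) (nat_lit 212) = true := by decide +kernel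
def p15_32_2_212 : pfC (piC [(nat_lit 35065580), (nat_lit 23538785), (nat_lit 17602610), (nat_lit 11874437)] (nat_lit 6971554)) p15_32_2 (nat_lit 4) (nat_lit 212) (nat_lit 213) = true := by decide +kernel
def p15_32_2_213 : pfC (piC [(nat_lit 35065580), (nat_lit 23538785), (nat_lit 17602610), (nat_lit 11874437)] (nat_lit 6971554)) p15_32_2 (nat_lit 4) (nat_lit 213) (nat_lit 214) = true := by decide +kernel
def p15_32_2_214 : pfC (piC [(nat_lit 35065580), (nat_lit 23538785), (nat_lit 17602610), (nat_lit 11874437)] (nat_lit 6971554)) p15_32_2 (nat_lit 4) (nat_lit 214) (nat_lit 215) = true := by decide +kernel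
def p15_32_2_215 : pfC (piC [(nat_lit 35065580), (nat_lit 23538785), (nat_lit 17602610), (nat_lit 11874437)] (nat_lit 6971554)) p15_32_2 (nat_lit 4) (nat_lit 215) (nat_lit 216) = true := by decide +kernel
def p15_32_2_216 : pfC (piC [(nat_lit 35065580), (nat_lit 23538785), (nat_lit 17602610), (nat_lit 11874437)] (nat_lit 6971554)) p15_32_2 (nat_lit 4) (nat_lit 216) (nat_lit 217) = true := by decide +kernel
def p15_32_2_217 : pfC (piC [(nat_lit 35065580), (nat_lit 23538785), (nat_lit 17602610), (nat_lit 11874437)] (nat_lit 6971554)) p15_32_2 (nat_lit 4) (nat_lit 217) (nat_lit 218) = true := by decide +kernel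
def p15_32_2_218 : pfC (piC [(nat_lit 35065580), (nat_lit 23538785), (nat_lit 17602610), (nat_lit 11874437)] (nat_lit 6971554)) p15_32_2 (nat_lit 4) (nat_lit 218) (nat_lit 219) = true := by decide +kernel
def p15_32_2_219 : pfC (piC [(nat_lit 35065580), (nat_lit 23538785), (nat_lit 17602610), (nat_lit 11874437)] (nat_lit 6971554)) p15_32_2 (nat_lit 4) (nat_lit 219) (nat_lit 220) = true := by decide +kernel
def p15_32_2_220 : pfC (piC [(nat_lit 35065580), (nat_lit 23538785), (nat_lit 17602610), (nat_lit 11874437)] (nat_lit 6971554)) p15_32_2 (nat_lit 4) (nat_lit 220) (nat_lit 221) = true := by decide +kernel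
def p15_32_2_221 : pfC (piC [(nat_lit 35065580), (nat_lit 23538785), (nat_lit 17602610), (nat_lit 11874437)] (nat_lit 6971554)) p15_32_2 (nat_lit 4) (nat_lit 221) (nat_lit 222) = true := by decide +kernel
def p15_32_2_222 : pfC (piC [(nat_lit 35065580), (nat_lit 23538785), (nat_lit 17602610), (nat_lit 11874437)] (nat_lit 6971554)) p15_32_2 (nat_lit 4) (nat_lit 222) (nat_lit 223) = true := by decide +kernel
def p15_32_2_223 : pfC (piC [(nat_lit 35065580), (nat_lit 23538785), (nat_lit 17602610), (nat_lit 11874437)] (nat_lit 6971554)) p15_32_2 (nat_lit 4) (nat_lit 223) (nat_lit 224) = true := by decide +kernel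
def p15_32_2_224 : pfC (piC [(nat_lit 35065580), (nat_lit 23538785), (nat_lit 17602610), (nat_lit 11874437)] (nat_lit 6971554)) p15_32_2 (nat_lit 4) (nat_lit 224) (nat_lit 225) = true := by decide +kernel
def p15_32_2_225 : pfC (piC [(nat_lit 35065580), (nat_lit 23538785), (nat_lit 17602610), (nat_lit 11874437)] (nat_lit 6971554)) p15_32_2 (nat_lit 4) (nat_lit 225) (nat_lit 226) = true := by decide +kernel
def p15_32_2_226 : pfC (piC [(nat_lit 35065580), (nat_lit 23538785), (nat_lit 17602610), (nat_lit 11874437)] (nat_lit 6971554)) p15_32_2 (nat_lit 4) (nat_lit 226) (nat_lit 227) = true := by decide +kernel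
def p15_32_2_227 : pfC (piC [(nat_lit 35065580), (nat_lit 23538785), (nat_lit 17602610), (nat_lit 11874437)] (nat_lit 6971554)) p15_32_2 (nat_lit 4) (nat_lit 227) (nat_lit 228) = true := by decide +kernel
def p15_32_2_228 : pfC (piC [(nat_lit 35065580), (nat_lit 23538785), (nat_lit 17602610), (nat_lit 11874437)] (nat_lit 6971554)) p15_32_2 (nat_lit 4) (nat_lit 228) (nat_lit 229) = true := by decide +kernel
def p15_32_2_229 : pfC (piC [(nat_lit 35065580), (nat_lit 23538785), (nat_lit 17602610), (nat_lit 11874437)] (nat_lit 6971554)) p15_32_2 (nat_lit 4) (nat_lit 229) (nat_lit 230) = true := by decide +kernel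
def p15_32_2_230 : pfC (piC [(nat_lit 35065580), (nat_lit 23538785), (nat_lit 17602610), (nat_lit 11874437)] (nat_lit 6971554)) p15_32_2 (nat_lit 4) (nat_lit 230) (nat_lit 231) = true := by decide +kernel
def p15_32_2_231 : pfC (piC [(nat_lit 35065580), (nat_lit 23538785), (nat_lit 17602610), (nat_lit 11874437)] (nat_lit 6971554)) p15_32_2 (nat_lit 4) (nat_lit 231) (nat_lit 232) = true := by decide +kernel
def p15_32_2_232 : pfC (piC [(nat_lit 35065580), (nat_lit 23538785), (nat_lit 17602610), (nat_lit 11874437)] (nat_lit 6971554)) p15_32_2 (nat_lit 4) (nat_lit 232) (nat_lit 233) = true := by decide +kernel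
def p15_32_2_233 : pfC (piC [(nat_lit 35065580), (nat_lit 23538785), (nat_lit 17602610), (nat_lit 11874437)] (nat_lit 6971554)) p15_32_2 (nat_lit 4) (nat_lit 233) (nat_lit 234) = true := by decide +kernel
def p15_32_2_234 : pfC (piC [(nat_lit 35065580), (nat_lit 23538785), (nat_lit 17602610), (nat_lit 11874437)] (nat_lit 6971554)) p15_32_2 (nat_lit 4) (nat_lit 234) (nat_lit 235) = true := by decide +kernel
def p15_32_2_235 : pfC (piC [(nat_lit 35065580), (nat_lit 23538785), (nat_lit 17602610), (nat_lit 11874437)] (nat_lit 6971554)) p15_32_2 (nat_lit 4) (nat_lit 235) (nat_lit 236) = true := by decide +kernel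
def p15_32_2_236 : pfC (piC [(nat_lit 35065580), (nat_lit 23538785), (nat_lit 17602610), (nat_lit 11874437)] (nat_lit 6971554)) p15_32_2 (nat_lit 4) (nat_lit 236) (nat_lit 237) = true := by decide +kernel
def p15_32_2_237 : pfC (piC [(nat_lit 35065580), (nat_lit 23538785), (nat_lit 17602610), (nat_lit 11874437)] (nat_lit 6971554)) p15_32_2 (nat_lit 4) (nat_lit 237) (nat_lit 238) = true := by decide +kernel
def p15_32_2_238 : pfC (piC [(nat_lit 35065580), (nat_lit 23538785), (nat_lit 17602610), (nat_lit 11874437)] (nat_lit 6971554)) p15_32_2 (nat_lit 4) (nat_lit 238) (nat_lit 239) = true := by decide +kernel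
def p15_32_2_239 : pfC (piC [(nat_lit 35065580), (nat_lit 23538785), (nat_lit 17602610), (nat_lit 11874437)] (nat_lit 6971554)) p15_32_2 (nat_lit 4) (nat_lit 239) (nat_lit 240) = true := by decide +kernel
def p15_32_2_240 : pfC (piC [(nat_lit 35065580), (nat_lit 23538785), (nat_lit 17602610), (nat_lit 11874437)] (nat_lit 6971554)) p15_32_2 (nat_lit 4) (nat_lit 240) (nat_lit 241) = true := by decide +kernel
def p15_32_2_241 : pfC (piC [(nat_lit 35065580), (nat_lit 23538785), (nat_lit 17602610), (nat_lit 11874437)] (nat_lit 6971554)) p15_32_2 (nat_lit 4) (nat_lit 241) (nat_lit 242) = true := by decide +kernel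
def p15_32_2_242 : pfC (piC [(nat_lit 35065580), (nat_lit 23538785), (nat_lit 17602610), (nat_lit 11874437)] (nat_lit 6971554)) p15_32_2 (nat_lit 4) (nat_lit 242) (nat_lit 243) = true := by decide +kernel
def p15_32_2_243 : pfC (piC [(nat_lit 35065580), (nat_lit 23538785), (nat_lit 17602610), (nat_lit 11874437)] (nat_lit 6971554)) p15_32_2 (nat_lit 4) (nat_lit 243) (nat_lit 244) = true := by decide +kernel
def p15_32_2_244 : pfC (piC [(nat_lit 35065580), (nat_lit 23538785), (nat_lit 17602610), (nat_lit 11874437)] (nat_lit 6971554)) p15_32_2 (nat_lit 4) (nat_lit 244) (nat_lit 245) = true := by decide +kernel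
def p15_32_2_245 : pfC (piC [(nat_lit 35065580), (nat_lit 23538785), (nat_lit 17602610), (nat_lit 11874437)] (nat_lit 6971554)) p15_32_2 (nat_lit 4) (nat_lit 245) (nat_lit 246) = true := by decide +kernel
theorem p15_32_2_T : PfS (PiF n15_32.reverse (nat_lit 6971554)) p15_32_2 (nat_lit 4) [] 0 :=
  pftab_of (los := [(nat_lit 35065580), (nat_lit 23538785), (nat_lit 17602610), (nat_lit 11874437)]) (by decide +kernel) (hi := (nat_lit 246)) (PfP.trans (PfP.trans (PfP.trans (PfP.trans (PfP.trans (PfP.trans (PfP.trans (PfP.trans (PfP.trans (PfP.trans (PfP.trans (PfP.trans (PfP.trans (PfP.trans (PfP.trans (PfP.trans (PfP.trans (PfP.trans (PfP.trans (PfP.trans (PfP.trans (PfP.trans (PfP.trans (PfP.trans (PfP.trans (PfP.trans (PfP.trans (PfP.trans (PfP.trans (PfP.trans (PfP.trans (PfP.trans (PfP.trans (PfP.trans (PfP.trans (PfP.trans (PfP.trans (PfP.trans (PfP.trans (PfP.trans (PfP.trans (PfP.trans (PfP.trans (PfP.trans (PfP.trans (PfP.trans (PfP.trans (PfP.trans (PfP.trans (PfP.trans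 (PfP.trans (PfP.trans (PfP.trans (PfP.trans (PfP.trans (PfP.trans (PfP.trans (PfP.trans (PfP.trans (PfP.trans (PfP.trans (PfP.trans (PfP.trans (PfP.trans (PfP.trans (PfP.trans (PfP.trans (PfP.trans (PfP.trans (PfP.trans (PfP.trans (PfP.trans (PfP.trans (PfP.trans (PfP.trans (PfP.trans (PfP.trans (PfP.trans (PfP.trans (PfP.trans (PfP.trans (PfP.trans (PfP.trans (PfP.trans (PfP.trans (PfP.trans (PfP.trans (PfP.trans (PfP.trans (PfP.trans (PfP.trans (PfP.trans (PfP.trans (PfP.trans (PfP.trans (PfP.trans (PfP.trans (PfP.trans (PfP.trans (PfP.trans (PfP.trans (PfP.trans (PfP.trans (PfP.trans (PfP.trans (PfP.trans (PfP.trans (PfP.trans (PfP.trans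
 (PfP.trans (PfP.trans (PfP.trans (PfP.trans (PfP.trans (PfP.trans (PfP.trans (PfP.trans (PfP.trans (PfP.trans (PfP.trans (PfP.trans (PfP.trans (PfP.trans (PfP.trans (PfP.trans (PfP.trans (PfP.trans (PfP.trans (PfP.trans (PfP.trans (PfP.trans (PfP.trans (PfP.trans (PfP.trans (PfP.trans (PfP.trans (PfP.trans (PfP.trans (PfP.trans (PfP.trans (PfP.trans (PfP.trans (PfP.trans (PfP.trans (PfP.trans (PfP.trans (PfP.trans (PfP.trans (PfP.trans (PfP.trans (PfP.trans (PfP.trans (PfP.trans (PfP.trans (PfP.trans (PfP.trans (PfP.trans (PfP.trans (PfP.trans (PfP.trans (PfP.trans (PfP.trans (PfP.trans (PfP.trans (PfP.trans (PfP.trans (PfP.trans (PfP.trans (PfP.trans (PfP.trans (PfP.trans (PfP.trans (PfP.trans (PfP.trans (PfP.trans (PfP.trans (PfP.trans (PfP.trans (PfP.trans (PfP.trans (PfP.trans (PfP.trans (PfP.trans (PfP.trans (PfP.trans (PfP.trans (PfP.trans (PfP.trans (PfP.trans (PfP.trans (PfP.trans (PfP.trans (PfP.trans (PfP.trans (PfP.trans (PfP.trans (PfP.trans (PfP.trans (PfP.trans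 (PfP.trans (PfP.trans (PfP.trans (PfP.trans (PfP.trans (PfP.trans (PfP.trans (PfP.trans (PfP.trans (PfP.trans (PfP.trans (PfP.trans (PfP.trans (PfP.trans (PfP.trans (PfP.trans (PfP.trans (PfP.trans (PfP.trans
 (PfP.trans (PfP.trans (PfP.trans (PfP.trans (PfP.trans (PfP.trans (PfP.trans (PfP.trans (PfP.trans (PfP.trans (PfP.trans (PfP.trans (PfP.trans (PfP.trans (PfP.trans (PfP.trans (PfP.trans (PfP.trans (PfP.trans (PfP.trans (PfP.trans (PfP.trans (PfP.trans (PfP.trans (PfP.trans (PfP.trans (PfP.trans (pfC_sound p15_32_2_0) (pfC_sound p15_32_2_1)) (pfC_sound p15_32_2_2)) (pfC_sound p15_32_2_3)) (pfC_sound p15_32_2_4)) (pfC_sound p15_32_2_5)) (pfC_sound p15_32_2_6)) (pfC_sound p15_32_2_7)) (pfC_sound p15_32_2_8)) (pfC_sound p15_32_2_9)) (pfC_sound p15_32_2_10)) (pfC_sound p15_32_2_11)) (pfC_sound p15_32_2_12)) (pfC_sound p15_32_2_13)) (pfC_sound p15_32_2_14)) (pfC_sound p15_32_2_15)) (pfC_sound p15_32_2_16)) (pfC_sound p15_32_2_17)) (pfC_sound p15_32_2_18)) (pfC_sound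 p15_32_2_19)) (pfC_sound p15_32_2_20)) (pfC_sound p15_32_2_21)) (pfC_sound p15_32_2_22)) (pfC_sound p15_32_2_23)) (pfC_sound p15_32_2_24)) (pfC_sound p15_32_2_25)) (pfC_sound p15_32_2_26)) (pfC_sound p15_32_2_27)) (pfC_sound p15_32_2_28)) (pfC_sound p15_32_2_29)) (pfC_sound p15_32_2_30)) (pfC_sound p15_32_2_31)) (pfC_sound p15_32_2_32)) (pfC_sound p15_32_2_33)) (pfC_sound p15_32_2_34)) (pfC_sound p15_32_2_35)) (pfC_sound
 p15_32_2_36)) (pfC_sound p15_32_2_37)) (pfC_sound p15_32_2_38)) (pfC_sound p15_32_2_39)) (pfC_sound p15_32_2_40)) (pfC_sound p15_32_2_41)) (pfC_sound p15_32_2_42)) (pfC_sound p15_32_2_43)) (pfC_sound p15_32_2_44)) (pfC_sound p15_32_2_45)) (pfC_sound p15_32_2_46)) (pfC_sound p15_32_2_47)) (pfC_sound p15_32_2_48)) (pfC_sound p15_32_2_49)) (pfC_sound p15_32_2_50)) (pfC_sound p15_32_2_51)) (pfC_sound p15_32_2_52)) (pfC_sound p15_32_2_53)) (pfC_sound p15_32_2_54)) (pfC_sound p15_32_2_55)) (pfC_sound p15_32_2_56)) (pfC_sound p15_32_2_57)) (pfC_sound p15_32_2_58))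 (pfC_sound p15_32_2_59)) (pfC_sound p15_32_2_60)) (pfC_sound p15_32_2_61)) (pfC_sound p15_32_2_62)) (pfC_sound p15_32_2_63)) (pfC_sound p15_32_2_64)) (pfC_sound p15_32_2_65)) (pfC_sound p15_32_2_66)) (pfC_sound p15_32_2_67)) (pfC_sound p15_32_2_68)) (pfC_sound p15_32_2_69)) (pfC_sound p15_32_2_70)) (pfC_sound p15_32_2_71)) (pfC_sound p15_32_2_72)) (pfC_sound p15_32_2_73)) (pfC_sound p15_32_2_74)) (pfC_sound p15_32_2_75)) (pfC_sound p15_32_2_76)) (pfC_sound p15_32_2_77)) (pfC_sound p15_32_2_78)) (pfC_sound p15_32_2_79)) (pfC_sound p15_32_2_80)) (pfC_sound p15_32_2_81)) (pfC_sound p15_32_2_82)) (pfC_sound p15_32_2_83)) (pfC_sound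
 p15_32_2_84)) (pfC_sound p15_32_2_85)) (pfC_sound p15_32_2_86)) (pfC_sound p15_32_2_87)) (pfC_sound p15_32_2_88)) (pfC_sound p15_32_2_89)) (pfC_sound p15_32_2_90)) (pfC_sound p15_32_2_91)) (pfC_sound p15_32_2_92)) (pfC_sound p15_32_2_93)) (pfC_sound p15_32_2_94)) (pfC_sound p15_32_2_95)) (pfC_sound p15_32_2_96)) (pfC_sound p15_32_2_97)) (pfC_sound p15_32_2_98)) (pfC_sound p15_32_2_99)) (pfC_sound p15_32_2_100)) (pfC_sound p15_32_2_101)) (pfC_sound p15_32_2_102)) (pfC_sound p15_32_2_103)) (pfC_sound p15_32_2_104)) (pfC_sound p15_32_2_105)) (pfC_sound p15_32_2_106)) (pfC_sound p15_32_2_107)) (pfC_sound p15_32_2_108)) (pfC_sound p15_32_2_109)) (pfC_sound p15_32_2_110)) (pfC_sound p15_32_2_111)) (pfC_sound p15_32_2_112)) (pfC_sound p15_32_2_113)) (pfC_sound p15_32_2_114)) (pfC_sound p15_32_2_115)) (pfC_sound p15_32_2_116)) (pfC_sound p15_32_2_117)) (pfC_sound p15_32_2_118)) (pfC_sound p15_32_2_119)) (pfC_sound p15_32_2_120)) (pfC_sound p15_32_2_121)) (pfC_sound p15_32_2_122))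 (pfC_sound p15_32_2_123)) (pfC_sound p15_32_2_124)) (pfC_sound p15_32_2_125)) (pfC_sound p15_32_2_126)) (pfC_sound p15_32_2_127)) (pfC_sound p15_32_2_128)) (pfC_sound p15_32_2_129)) (pfC_sound p15_32_2_130))
 (pfC_sound p15_32_2_131)) (pfC_sound p15_32_2_132)) (pfC_sound p15_32_2_133)) (pfC_sound p15_32_2_134)) (pfC_sound p15_32_2_135)) (pfC_sound p15_32_2_136)) (pfC_sound p15_32_2_137)) (pfC_sound p15_32_2_138)) (pfC_sound p15_32_2_139)) (pfC_sound p15_32_2_140)) (pfC_sound p15_32_2_141)) (pfC_sound p15_32_2_142)) (pfC_sound p15_32_2_143)) (pfC_sound p15_32_2_144)) (pfC_sound p15_32_2_145)) (pfC_sound p15_32_2_146)) (pfC_sound p15_32_2_147)) (pfC_sound p15_32_2_148)) (pfC_sound p15_32_2_149)) (pfC_sound p15_32_2_150)) (pfC_sound p15_32_2_151)) (pfC_sound p15_32_2_152)) (pfC_sound p15_32_2_153)) (pfC_sound p15_32_2_154)) (pfC_sound p15_32_2_155)) (pfC_sound p15_32_2_156)) (pfC_sound p15_32_2_157)) (pfC_sound p15_32_2_158)) (pfC_sound p15_32_2_159)) (pfC_sound p15_32_2_160))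 (pfC_sound p15_32_2_161)) (pfC_sound p15_32_2_162)) (pfC_sound p15_32_2_163)) (pfC_sound p15_32_2_164)) (pfC_sound p15_32_2_165)) (pfC_sound p15_32_2_166)) (pfC_sound p15_32_2_167)) (pfC_sound p15_32_2_168)) (pfC_sound p15_32_2_169)) (pfC_sound p15_32_2_170)) (pfC_sound p15_32_2_171)) (pfC_sound p15_32_2_172)) (pfC_sound p15_32_2_173)) (pfC_sound p15_32_2_174)) (pfC_sound p15_32_2_175)) (pfC_sound p15_32_2_176))
 (pfC_sound p15_32_2_177)) (pfC_sound p15_32_2_178)) (pfC_sound p15_32_2_179)) (pfC_sound p15_32_2_180)) (pfC_sound p15_32_2_181)) (pfC_sound p15_32_2_182)) (pfC_sound p15_32_2_183)) (pfC_sound p15_32_2_184)) (pfC_sound p15_32_2_185)) (pfC_sound p15_32_2_186)) (pfC_sound p15_32_2_187)) (pfC_sound p15_32_2_188)) (pfC_sound p15_32_2_189)) (pfC_sound p15_32_2_190)) (pfC_sound p15_32_2_191)) (pfC_sound p15_32_2_192)) (pfC_sound p15_32_2_193)) (pfC_sound p15_32_2_194)) (pfC_sound p15_32_2_195)) (pfC_sound p15_32_2_196)) (pfC_sound p15_32_2_197)) (pfC_sound p15_32_2_198))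 (pfC_sound p15_32_2_199)) (pfC_sound p15_32_2_200)) (pfC_sound p15_32_2_201)) (pfC_sound p15_32_2_202)) (pfC_sound p15_32_2_203)) (pfC_sound p15_32_2_204)) (pfC_sound p15_32_2_205)) (pfC_sound p15_32_2_206)) (pfC_sound p15_32_2_207)) (pfC_sound p15_32_2_208)) (pfC_sound p15_32_2_209)) (pfC_sound p15_32_2_210)) (pfC_sound p15_32_2_211)) (pfC_sound p15_32_2_212)) (pfC_sound p15_32_2_213)) (pfC_sound p15_32_2_214)) (pfC_sound p15_32_2_215)) (pfC_sound p15_32_2_216)) (pfC_sound p15_32_2_217)) (pfC_sound p15_32_2_218)) (pfC_sound p15_32_2_219)) (pfC_sound p15_32_2_220)) (pfC_sound p15_32_2_221)) (pfC_sound p15_32_2_222))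
 (pfC_sound p15_32_2_223)) (pfC_sound p15_32_2_224)) (pfC_sound p15_32_2_225)) (pfC_sound p15_32_2_226)) (pfC_sound p15_32_2_227)) (pfC_sound p15_32_2_228)) (pfC_sound p15_32_2_229)) (pfC_sound p15_32_2_230)) (pfC_sound p15_32_2_231)) (pfC_sound p15_32_2_232)) (pfC_sound p15_32_2_233)) (pfC_sound p15_32_2_234)) (pfC_sound p15_32_2_235)) (pfC_sound p15_32_2_236)) (pfC_sound p15_32_2_237)) (pfC_sound p15_32_2_238)) (pfC_sound p15_32_2_239)) (pfC_sound p15_32_2_240)) (pfC_sound p15_32_2_241)) (pfC_sound p15_32_2_242)) (pfC_sound p15_32_2_243)) (pfC_sound p15_32_2_244)) (pfC_sound p15_32_2_245)) (by decide +kernel)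

def z15_32_2 : zOK yB15_32 (nat_lit 2) (nat_lit 600) (nat_lit 750) (nat_lit 6971554) (nat_lit 5074980) = true := by decide +kernel
def g15_32_2 : gOK yB15_32.x P15_32 (nat_lit 1397) (q15_32 :: r15_32) (nat_lit 2) (nat_lit 600) (nat_lit 3) (nat_lit 750) (nat_lit 12712500) (nat_lit 12712500) (nat_lit 12712500) (nat_lit 12712500) [(nat_lit 800)] = true := by decide +kernel
def v15_32_2 : ivC P15_32 s15_32 w15_32 n15_32 (nat_lit 4) (nat_lit 4725) (nat_lit 2) (nat_lit 600) f168_1_600 f176_1_600 (nat_lit 3) (nat_lit 750) f168_1_750 f176_1_750 (nat_lit 6971554) (nat_lit 5074980) p15_32_2 = true := by decide +kernel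
def p15_32_3 : PF := (PF.cons (PF.cons (PF.cons (PF.cons (PF.leaf (nat_lit 2909250) (nat_lit 18024676) (nat_lit 49084136) (nat_lit 18024676) [(nat_lit 0), (nat_lit 0), (nat_lit 0), (nat_lit 0)]) (PF.cons (PF.leaf (nat_lit 3138342) (nat_lit 435442) (nat_lit 48699923) (nat_lit 17973446) [(nat_lit 435442), (nat_lit 0), (nat_lit 0), (nat_lit 0)]) (PF.cons (PF.leaf (nat_lit 3406409) (nat_lit 471741) (nat_lit 48253970) (nat_lit 17911359) [(nat_lit 471741), (nat_lit 0), (nat_lit 0), (nat_lit 0)]) (PF.cons (PF.leaf (nat_lit 3705412) (nat_lit 503266) (nat_lit 47759659) (nat_lit 17839352) [(nat_lit 503266), (nat_lit 0), (nat_lit 0), (nat_lit 0)]) (PF.cons (PF.leaf (nat_lit 4029988) (nat_lit 531017) (nat_lit 47226673) (nat_lit 17758070) [(nat_lit 531017), (nat_lit 0), (nat_lit 0), (nat_lit 0)]) (PF.cons (PF.leaf (nat_lit 4375987) (nat_lit 555641) (nat_lit 46662570) (nat_lit 17668037) [(nat_lit 555641), (nat_lit 0), (nat_lit 0), (nat_lit 0)]) (PF.cons (PF.leaf (nat_lit 4739995) (nat_lit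 577592) (nat_lit 46073515) (nat_lit 17569743) [(nat_lit 577592), (nat_lit 0), (nat_lit 0), (nat_lit 0)]) (PF.cons (PF.leaf (nat_lit 5119101) (nat_lit 597208) (nat_lit 45464679) (nat_lit 17463672) [(nat_lit 597208), (nat_lit 0),
 (nat_lit 0), (nat_lit 0)]) (PF.cons (PF.leaf (nat_lit 5510843) (nat_lit 614752) (nat_lit 44840476) (nat_lit 17350317) [(nat_lit 614752), (nat_lit 0), (nat_lit 0), (nat_lit 0)]) (PF.cons (PF.leaf (nat_lit 5913009) (nat_lit 630435) (nat_lit 44204710) (nat_lit 17230185) [(nat_lit 630435), (nat_lit 0), (nat_lit 0), (nat_lit 0)]) (PF.cons (PF.leaf (nat_lit 6323696) (nat_lit 644433) (nat_lit 43560688) (nat_lit 17103790) [(nat_lit 644433), (nat_lit 0), (nat_lit 0), (nat_lit 0)]) (PF.cons PF.nil (PF.cons PF.nil (PF.cons PF.nil PF.nil)))))))))))))) (PF.cons (PF.cons (PF.leaf (nat_lit 3547133) (nat_lit 1608129) (nat_lit 47678730) (nat_lit 17821953) [(nat_lit 0), (nat_lit 1608129), (nat_lit 0), (nat_lit 0)]) (PF.cons (PF.leaf (nat_lit 3833008) (nat_lit 509546)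 (nat_lit 47199934) (nat_lit 17748553) [(nat_lit 509546), (nat_lit 1650779), (nat_lit 0), (nat_lit 0)]) (PF.cons (PF.leaf (nat_lit 4147024) (nat_lit 536561) (nat_lit 46679517) (nat_lit 17665433) [(nat_lit 536561), (nat_lit 1690738), (nat_lit 0), (nat_lit 0)]) (PF.cons (PF.leaf (nat_lit 4483773) (nat_lit 560443) (nat_lit 46126543) (nat_lit 17573394) [(nat_lit 560443), (nat_lit 1727544), (nat_lit 0), (nat_lit 0)]) (PF.cons (PF.leaf
 (nat_lit 4839364) (nat_lit 581682) (nat_lit 45547938) (nat_lit 17473083) [(nat_lit 581682), (nat_lit 1761060), (nat_lit 0), (nat_lit 0)]) (PF.cons (PF.leaf (nat_lit 5210655) (nat_lit 600630) (nat_lit 44949273) (nat_lit 17365081) [(nat_lit 600630), (nat_lit 1791305), (nat_lit 0), (nat_lit 0)]) (PF.cons (PF.leaf (nat_lit 5594977) (nat_lit 617552) (nat_lit 44335173) (nat_lit 17249945) [(nat_lit 617552), (nat_lit 1818379), (nat_lit 0), (nat_lit 0)]) (PF.cons (PF.leaf (nat_lit 5990046) (nat_lit 632660) (nat_lit 43709553) (nat_lit 17128219) [(nat_lit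 632660), (nat_lit 1842417), (nat_lit 0), (nat_lit 0)]) (PF.cons (PF.leaf (nat_lit 6393862) (nat_lit 646128) (nat_lit 43075763) (nat_lit 17000442) [(nat_lit 646128), (nat_lit 1863576), (nat_lit 0), (nat_lit 0)]) (PF.cons (PF.leaf (nat_lit 6804695) (nat_lit 658105) (nat_lit 42436693) (nat_lit 16867149) [(nat_lit 658105), (nat_lit 1882017), (nat_lit 0), (nat_lit 0)]) (PF.cons PF.nil (PF.cons PF.nil PF.nil)))))))))))) (PF.cons (PF.cons (PF.leaf (nat_lit 4268117) (nat_lit 1709695) (nat_lit 46122047) (nat_lit 17567374) [(nat_lit 0), (nat_lit 1709695), (nat_lit 0), (nat_lit 0)]) (PF.cons (PF.leaf (nat_lit 4593613) (nat_lit 564156) (nat_lit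
 45584262) (nat_lit 17474245) [(nat_lit 564156), (nat_lit 1743074), (nat_lit 0), (nat_lit 0)]) (PF.cons (PF.leaf (nat_lit 4939698) (nat_lit 584892) (nat_lit 45018951) (nat_lit 17372636) [(nat_lit 584892), (nat_lit 1773720), (nat_lit 0), (nat_lit 0)]) (PF.cons (PF.leaf (nat_lit 5302403) (nat_lit 603321) (nat_lit 44432534) (nat_lit 17263294) [(nat_lit 603321), (nat_lit 1801510), (nat_lit 0), (nat_lit 0)]) (PF.cons (PF.leaf (nat_lit 5678794) (nat_lit 619734) (nat_lit 43830096) (nat_lit 17146875) [(nat_lit 619734), (nat_lit 1826450), (nat_lit 0), (nat_lit 0)]) (PF.cons (PF.leaf (nat_lit 6066413) (nat_lit 634356) (nat_lit 43215809) (nat_lit 17023986) [(nat_lit 634356), (nat_lit 1848616), (nat_lit 0), (nat_lit 0)]) (PF.cons (PF.leaf (nat_lit 6463140) (nat_lit 647366) (nat_lit 42593169) (nat_lit 16895205) [(nat_lit 647366), (nat_lit 1868118), (nat_lit 0), (nat_lit 0)]) (PF.cons (PF.leaf (nat_lit 6867176) (nat_lit 658915) (nat_lit 41965141) (nat_lit 16761086) [(nat_lit 658915),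 (nat_lit 1885087), (nat_lit 0), (nat_lit 0)]) (PF.cons PF.nil (PF.cons PF.nil PF.nil)))))))))) (PF.cons (PF.cons (PF.leaf (nat_lit 5042574) (nat_lit 1785126) (nat_lit 44485257) (nat_lit 17268175) [(nat_lit 0),
 (nat_lit 1785126), (nat_lit 0), (nat_lit 0)]) (PF.cons (PF.leaf (nat_lit 5395353) (nat_lit 605256) (nat_lit 43913625) (nat_lit 17158191) [(nat_lit 605256), (nat_lit 1810579), (nat_lit 0), (nat_lit 0)]) (PF.cons (PF.leaf (nat_lit 5763073) (nat_lit 621287) (nat_lit 43324676) (nat_lit 17041055) [(nat_lit 621287), (nat_lit 1833501), (nat_lit 0), (nat_lit 0)]) (PF.cons (PF.leaf (nat_lit 6142727) (nat_lit 635519) (nat_lit 42723077) (nat_lit 16917475) [(nat_lit 635519), (nat_lit 1853900), (nat_lit 0), (nat_lit 0)]) (PF.cons (PF.leaf (nat_lit 6532020) (nat_lit 648147) (nat_lit 42112606) (nat_lit 16788090) [(nat_lit 648147), (nat_lit 1871842), (nat_lit 0), (nat_lit 0)]) (PF.cons (PF.leaf (nat_lit 6929014) (nat_lit 659329) (nat_lit 41496396) (nat_lit 16653494) [(nat_lit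 659329), (nat_lit 1887424), (nat_lit 0), (nat_lit 0)]) (PF.cons (PF.leaf (nat_lit 7332027) (nat_lit 669198) (nat_lit 40877084) (nat_lit 16514247) [(nat_lit 669198), (nat_lit 1900763), (nat_lit 0), (nat_lit 0)]) (PF.cons PF.nil (PF.cons PF.nil PF.nil))))))))) (PF.cons (PF.cons (PF.leaf (nat_lit 5848975) (nat_lit 1839608) (nat_lit 42818029) (nat_lit 16932350) [(nat_lit 0), (nat_lit 1839608), (nat_lit 0), (nat_lit 0)]) (PF.cons
 (PF.leaf (nat_lit 6219711) (nat_lit 636131) (nat_lit 42230744) (nat_lit 16808617) [(nat_lit 636131), (nat_lit 1858329), (nat_lit 0), (nat_lit 0)]) (PF.cons (PF.leaf (nat_lit 6601062) (nat_lit 648461) (nat_lit 41633630) (nat_lit 16679072) [(nat_lit 648461), (nat_lit 1874796), (nat_lit 0), (nat_lit 0)]) (PF.cons (PF.leaf (nat_lit 6990674) (nat_lit 659343) (nat_lit 41030122) (nat_lit 16544371) [(nat_lit 659343), (nat_lit 1889072), (nat_lit 0), (nat_lit 0)]) (PF.cons (PF.leaf (nat_lit 7386743) (nat_lit 668919) (nat_lit 40423035) (nat_lit 16405111) [(nat_lit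 668919), (nat_lit 1901246), (nat_lit 0), (nat_lit 0)]) (PF.cons PF.nil (PF.cons PF.nil PF.nil))))))) (PF.cons (PF.cons (PF.leaf (nat_lit 6671154) (nat_lit 1877028) (nat_lit 41155604) (nat_lit 16568064) [(nat_lit 0), (nat_lit 1877028), (nat_lit 0), (nat_lit 0)]) (PF.cons (PF.leaf (nat_lit 7052695) (nat_lit 658945) (nat_lit 40565850) (nat_lit 16433672) [(nat_lit 658945), (nat_lit 1890068), (nat_lit 0), (nat_lit 0)]) (PF.cons (PF.leaf (nat_lit 7441484) (nat_lit 668288) (nat_lit 39971759) (nat_lit 16294745) [(nat_lit 668288), (nat_lit 1901146), (nat_lit 0), (nat_lit 0)]) (PF.cons (PF.leaf (nat_lit 7835663) (nat_lit 676448) (nat_lit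
 39375867) (nat_lit 16151873) [(nat_lit 676448), (nat_lit 1910345), (nat_lit 0), (nat_lit 0)]) (PF.cons PF.nil PF.nil))))) (PF.cons (PF.cons (PF.leaf (nat_lit 7496945) (nat_lit 1900490) (nat_lit 39522774) (nat_lit 16183092) [(nat_lit 0), (nat_lit 1900490), (nat_lit 0), (nat_lit 0)]) (PF.cons (PF.leaf (nat_lit 7883787) (nat_lit 675274) (nat_lit 38939989) (nat_lit 16040931) [(nat_lit 675274), (nat_lit 1908769), (nat_lit 0), (nat_lit 0)]) (PF.cons (PF.leaf (nat_lit 8275268) (nat_lit 682179) (nat_lit 38356860) (nat_lit 15895395) [(nat_lit 682179), (nat_lit 1915366), (nat_lit 0), (nat_lit 0)]) (PF.cons PF.nil PF.nil)))) (PF.cons (PF.cons (PF.leaf (nat_lit 8317273) (nat_lit 1912546) (nat_lit 37936539) (nat_lit 15784448) [(nat_lit 0), (nat_lit 1912546), (nat_lit 0), (nat_lit 0)]) (PF.cons PF.nil PF.nil)) (PF.cons PF.nil PF.nil))))))))) (PF.cons (PF.cons (PF.cons (PF.leaf (nat_lit 4091748) (nat_lit 3824129) (nat_lit 45795597) (nat_lit 17489086) [(nat_lit 0), (nat_lit 0), (nat_lit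 3824129), (nat_lit 0)]) (PF.cons (PF.leaf (nat_lit 4384948) (nat_lit 535304) (nat_lit 45314512) (nat_lit 17404609) [(nat_lit 535304), (nat_lit 0), (nat_lit 3854385), (nat_lit 0)]) (PF.cons (PF.leaf (nat_lit
 4704255) (nat_lit 559726) (nat_lit 44796078) (nat_lit 17310503) [(nat_lit 559726), (nat_lit 0), (nat_lit 3882777), (nat_lit 0)]) (PF.cons (PF.leaf (nat_lit 5044199) (nat_lit 581019) (nat_lit 44249336) (nat_lit 17207881) [(nat_lit 581019), (nat_lit 0), (nat_lit 3908535), (nat_lit 0)]) (PF.cons (PF.leaf (nat_lit 5400983) (nat_lit 599742) (nat_lit 43680999) (nat_lit 17097602) [(nat_lit 599742), (nat_lit 0), (nat_lit 3931240), (nat_lit 0)]) (PF.cons (PF.leaf (nat_lit 5771544) (nat_lit 616279) (nat_lit 43096332) (nat_lit 16980398) [(nat_lit 616279), (nat_lit 0), (nat_lit 3950684), (nat_lit 0)]) (PF.cons (PF.leaf (nat_lit 6153375) (nat_lit 630914) (nat_lit 42499608) (nat_lit 16856920) [(nat_lit 630914), (nat_lit 0), (nat_lit 3966797), (nat_lit 0)]) (PF.cons (PF.leaf (nat_lit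 6544363) (nat_lit 643866) (nat_lit 41894374) (nat_lit 16727775) [(nat_lit 643866), (nat_lit 0), (nat_lit 3979595), (nat_lit 0)]) (PF.cons (PF.leaf (nat_lit 6942643) (nat_lit 655312) (nat_lit 41283617) (nat_lit 16593536) [(nat_lit 655312), (nat_lit 0), (nat_lit 3989157), (nat_lit 0)]) (PF.cons PF.nil (PF.cons PF.nil (PF.cons PF.nil PF.nil)))))))))))) (PF.cons (PF.cons (PF.leaf (nat_lit 4816627) (nat_lit 1753646)
 (nat_lit 44255073) (nat_lit 17203985) [(nat_lit 0), (nat_lit 1753646), (nat_lit 3896107), (nat_lit 0)]) (PF.cons (PF.leaf (nat_lit 5144846) (nat_lit 582699) (nat_lit 43725624) (nat_lit 17101435) [(nat_lit 582699), (nat_lit 1780830), (nat_lit 3918222), (nat_lit 0)]) (PF.cons (PF.leaf (nat_lit 5491785) (nat_lit 601164) (nat_lit 43172309) (nat_lit 16990929) [(nat_lit 601164), (nat_lit 1805516), (nat_lit 3937729), (nat_lit 0)]) (PF.cons (PF.leaf (nat_lit 5853591) (nat_lit 617388) (nat_lit 42601289) (nat_lit 16873377) [(nat_lit 617388), (nat_lit 1827644), (nat_lit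 3954337), (nat_lit 0)]) (PF.cons (PF.leaf (nat_lit 6227430) (nat_lit 631690) (nat_lit 42017340) (nat_lit 16749542) [(nat_lit 631690), (nat_lit 1847248), (nat_lit 3967922), (nat_lit 0)]) (PF.cons (PF.leaf (nat_lit 6610978) (nat_lit 644307) (nat_lit 41424303) (nat_lit 16620095) [(nat_lit 644307), (nat_lit 1864415), (nat_lit 3978459), (nat_lit 0)]) (PF.cons (PF.leaf (nat_lit 7002272) (nat_lit 655428) (nat_lit 40825340) (nat_lit 16485648) [(nat_lit 655428), (nat_lit 1879256), (nat_lit 3985995), (nat_lit 0)]) (PF.cons (PF.leaf (nat_lit 7399646) (nat_lit 665205) (nat_lit 40223092) (nat_lit 16346769) [(nat_lit 665205), (nat_lit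
 1891895), (nat_lit 3990619), (nat_lit 0)]) (PF.cons PF.nil (PF.cons PF.nil PF.nil)))))))))) (PF.cons (PF.cons (PF.leaf (nat_lit 5585515) (nat_lit 1812586) (nat_lit 42660247) (nat_lit 16880882) [(nat_lit 0), (nat_lit 1812586), (nat_lit 3942510), (nat_lit 0)]) (PF.cons (PF.leaf (nat_lit 5937231) (nat_lit 617835) (nat_lit 42105114) (nat_lit 16763650) [(nat_lit 617835), (nat_lit 1832880), (nat_lit 3956450), (nat_lit 0)]) (PF.cons (PF.leaf (nat_lit 6302333) (nat_lit 631920) (nat_lit 41535524) (nat_lit 16639983) [(nat_lit 631920), (nat_lit 1850899), (nat_lit 3967665), (nat_lit 0)]) (PF.cons (PF.leaf (nat_lit 6677937) (nat_lit 644290) (nat_lit 40955835) (nat_lit 16510663) [(nat_lit 644290), (nat_lit 1866676), (nat_lit 3976088), (nat_lit 0)]) (PF.cons (PF.leaf (nat_lit 7061878) (nat_lit 655154) (nat_lit 40369517) (nat_lit 16376368) [(nat_lit 655154), (nat_lit 1880288), (nat_lit 3981733), (nat_lit 0)]) (PF.cons (PF.leaf (nat_lit 7452363) (nat_lit 664674) (nat_lit 39779398) (nat_lit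 16237705) [(nat_lit 664674), (nat_lit 1891835), (nat_lit 3984665), (nat_lit 0)]) (PF.cons PF.nil (PF.cons PF.nil (PF.cons PF.nil PF.nil))))))))) (PF.cons (PF.cons (PF.leaf (nat_lit 6379192) (nat_lit 1853800)
 (nat_lit 41053236) (nat_lit 16528081) [(nat_lit 0), (nat_lit 1853800), (nat_lit 3966093), (nat_lit 0)]) (PF.cons (PF.leaf (nat_lit 6745915) (nat_lit 643790) (nat_lit 40488321) (nat_lit 16399386) [(nat_lit 643790), (nat_lit 1868257), (nat_lit 3972541), (nat_lit 0)]) (PF.cons (PF.leaf (nat_lit 7122009) (nat_lit 654474) (nat_lit 39915670) (nat_lit 16265643) [(nat_lit 654474), (nat_lit 1880709), (nat_lit 3976422), (nat_lit 0)]) (PF.cons (PF.leaf (nat_lit 7505254) (nat_lit 663799) (nat_lit 39338426) (nat_lit 16127529) [(nat_lit 663799), (nat_lit 1891227), (nat_lit 3977778), (nat_lit 0)]) (PF.cons (PF.leaf (nat_lit 7893964) (nat_lit 671911) (nat_lit 38759130) (nat_lit 15985638) [(nat_lit 671911), (nat_lit 1899902), (nat_lit 3976688), (nat_lit 0)]) (PF.cons PF.nil (PF.cons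 PF.nil PF.nil))))))) (PF.cons (PF.cons (PF.leaf (nat_lit 7183503) (nat_lit 1880549) (nat_lit 39463141) (nat_lit 16153365) [(nat_lit 0), (nat_lit 1880549), (nat_lit 3970106), (nat_lit 0)]) (PF.cons (PF.leaf (nat_lit 7558823) (nat_lit 662563) (nat_lit 38899687) (nat_lit 16016173) [(nat_lit 662563), (nat_lit 1890097), (nat_lit 3970000), (nat_lit 0)]) (PF.cons (PF.leaf (nat_lit 7940441) (nat_lit 670531) (nat_lit 38333328)
 (nat_lit 15875172) [(nat_lit 670531), (nat_lit 1897911), (nat_lit 3967603), (nat_lit 0)]) (PF.cons (PF.leaf (nat_lit 8326610) (nat_lit 677401) (nat_lit 37766350) (nat_lit 15730942) [(nat_lit 677401), (nat_lit 1904077), (nat_lit 3963006), (nat_lit 0)]) (PF.cons PF.nil PF.nil))))) (PF.cons (PF.cons (PF.leaf (nat_lit 7987928) (nat_lit 1895473) (nat_lit 37909928) (nat_lit 15763758) [(nat_lit 0), (nat_lit 1895473), (nat_lit 3957758), (nat_lit 0)]) (PF.cons (PF.leaf (nat_lit 8366977) (nat_lit 675596) (nat_lit 37355816) (nat_lit 15620708) [(nat_lit 675596), (nat_lit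 1900920), (nat_lit 3952088), (nat_lit 0)]) (PF.cons PF.nil (PF.cons PF.nil PF.nil)))) (PF.cons (PF.cons (PF.leaf (nat_lit 8784706) (nat_lit 1900754) (nat_lit 36406918) (nat_lit 15365367) [(nat_lit 0), (nat_lit 1900754), (nat_lit 3932002), (nat_lit 0)]) (PF.cons PF.nil PF.nil)) (PF.cons PF.nil PF.nil)))))))) (PF.cons (PF.cons (PF.cons (PF.leaf (nat_lit 5347518) (nat_lit 3913473) (nat_lit 42461118) (nat_lit 16820746) [(nat_lit 0), (nat_lit 0), (nat_lit 3913473), (nat_lit 0)]) (PF.cons (PF.leaf (nat_lit 5676344) (nat_lit 596328) (nat_lit 41945042) (nat_lit 16711314) [(nat_lit 596328), (nat_lit 0), (nat_lit 3928063), (nat_lit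
 0)]) (PF.cons (PF.leaf (nat_lit 6022310) (nat_lit 612837) (nat_lit 41408158) (nat_lit 16594488) [(nat_lit 612837), (nat_lit 0), (nat_lit 3940245), (nat_lit 0)]) (PF.cons (PF.leaf (nat_lit 6381641) (nat_lit 627174) (nat_lit 40856328) (nat_lit 16471292) [(nat_lit 627174), (nat_lit 0), (nat_lit 3949834), (nat_lit 0)]) (PF.cons (PF.leaf (nat_lit 6751609) (nat_lit 639678) (nat_lit 40294017) (nat_lit 16342553) [(nat_lit 639678), (nat_lit 0), (nat_lit 3956764), (nat_lit 0)]) (PF.cons (PF.leaf (nat_lit 7130027) (nat_lit 650596) (nat_lit 39724755) (nat_lit 16208977) [(nat_lit 650596), (nat_lit 0), (nat_lit 3961048), (nat_lit 0)]) (PF.cons (PF.leaf (nat_lit 7515057) (nat_lit 660120) (nat_lit 39151404) (nat_lit 16071186) [(nat_lit 660120), (nat_lit 0), (nat_lit 3962750), (nat_lit 0)]) (PF.cons (PF.leaf (nat_lit 7905151) (nat_lit 668402) (nat_lit 38576323) (nat_lit 15929744) [(nat_lit 668402), (nat_lit 0), (nat_lit 3961964), (nat_lit 0)]) (PF.cons PF.nil PF.nil))))))))) (PF.cons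 (PF.cons (PF.leaf (nat_lit 6107421) (nat_lit 1828674) (nat_lit 40919871) (nat_lit 16481154) [(nat_lit 0), (nat_lit 1828674), (nat_lit 3939556), (nat_lit 0)]) (PF.cons (PF.leaf (nat_lit 6456624) (nat_lit 626450)
 (nat_lit 40384418) (nat_lit 16359052) [(nat_lit 626450), (nat_lit 1844718), (nat_lit 3947086), (nat_lit 0)]) (PF.cons (PF.leaf (nat_lit 6817884) (nat_lit 638865) (nat_lit 39836812) (nat_lit 16231188) [(nat_lit 638865), (nat_lit 1858702), (nat_lit 3952188), (nat_lit 0)]) (PF.cons (PF.leaf (nat_lit 7188458) (nat_lit 649648) (nat_lit 39281112) (nat_lit 16098386) [(nat_lit 649648), (nat_lit 1870680), (nat_lit 3954842), (nat_lit 0)]) (PF.cons (PF.leaf (nat_lit 7566286) (nat_lit 659014) (nat_lit 38720500) (nat_lit 15961339) [(nat_lit 659014), (nat_lit 1880740), (nat_lit 3955088), (nat_lit 0)]) (PF.cons (PF.leaf (nat_lit 7949678) (nat_lit 667128) (nat_lit 38157536) (nat_lit 15820652) [(nat_lit 667128), (nat_lit 1888980), (nat_lit 3953001), (nat_lit 0)]) (PF.cons PF.nil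 PF.nil))))))) (PF.cons (PF.cons (PF.leaf (nat_lit 6886409) (nat_lit 1859088) (nat_lit 39379611) (nat_lit 16117916) [(nat_lit 0), (nat_lit 1859088), (nat_lit 3946553), (nat_lit 0)]) (PF.cons (PF.leaf (nat_lit 7248205) (nat_lit 648271) (nat_lit 38838740) (nat_lit 15986348) [(nat_lit 648271), (nat_lit 1870031), (nat_lit 3947695), (nat_lit 0)]) (PF.cons (PF.leaf (nat_lit 7618326) (nat_lit 657550) (nat_lit 38291761) (nat_lit
 15850407) [(nat_lit 657550), (nat_lit 1879178), (nat_lit 3946591), (nat_lit 0)]) (PF.cons (PF.leaf (nat_lit 7994668) (nat_lit 665553) (nat_lit 37741554) (nat_lit 15710771) [(nat_lit 665553), (nat_lit 1886611), (nat_lit 3943301), (nat_lit 0)]) (PF.cons (PF.leaf (nat_lit 8375660) (nat_lit 672427) (nat_lit 37190417) (nat_lit 15568024) [(nat_lit 672427), (nat_lit 1892420), (nat_lit 3937910), (nat_lit 0)]) PF.nil))))) (PF.cons (PF.cons (PF.leaf (nat_lit 7671993) (nat_lit 1877147) (nat_lit 37864527) (nat_lit 15738266) [(nat_lit 0), (nat_lit 1877147), (nat_lit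 3937287), (nat_lit 0)]) (PF.cons (PF.leaf (nat_lit 8040605) (nat_lit 663658) (nat_lit 37327885) (nat_lit 15600020) [(nat_lit 663658), (nat_lit 1883822), (nat_lit 3932890), (nat_lit 0)]) (PF.cons (PF.leaf (nat_lit 8414718) (nat_lit 670459) (nat_lit 36789405) (nat_lit 15458584) [(nat_lit 670459), (nat_lit 1888958), (nat_lit 3926513), (nat_lit 0)]) (PF.cons PF.nil PF.nil)))) (PF.cons (PF.cons (PF.leaf (nat_lit 8455028) (nat_lit 1885135) (nat_lit 36390792) (nat_lit 15348457) [(nat_lit 0), (nat_lit 1885135), (nat_lit 3914509), (nat_lit 0)]) (PF.cons (PF.leaf (nat_lit 8826125) (nat_lit 673941) (nat_lit 35865006) (nat_lit 15205920)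
 [(nat_lit 673941), (nat_lit 1888262), (nat_lit 3905446), (nat_lit 0)]) PF.nil)) (PF.cons PF.nil PF.nil)))))) (PF.cons (PF.cons (PF.cons (PF.leaf (nat_lit 6608446) (nat_lit 3921943) (nat_lit 39267398) (nat_lit 16075583) [(nat_lit 0), (nat_lit 0), (nat_lit 3921943), (nat_lit 0)]) (PF.cons (PF.leaf (nat_lit 6954045) (nat_lit 631859) (nat_lit 38753478) (nat_lit 15950562) [(nat_lit 631859), (nat_lit 0), (nat_lit 3924304), (nat_lit 0)]) (PF.cons (PF.leaf (nat_lit 7310598) (nat_lit 642836) (nat_lit 38229268) (nat_lit 15820394) [(nat_lit 642836), (nat_lit 0), (nat_lit 3924492), (nat_lit 0)]) (PF.cons (PF.leaf (nat_lit 7675435) (nat_lit 652258) (nat_lit 37698541) (nat_lit 15685920) [(nat_lit 652258), (nat_lit 0), (nat_lit 3922524), (nat_lit 0)]) (PF.cons (PF.leaf (nat_lit 8046624) (nat_lit 660345) (nat_lit 37164217) (nat_lit 15547833) [(nat_lit 660345), (nat_lit 0), (nat_lit 3918460), (nat_lit 0)]) (PF.cons (PF.leaf (nat_lit 8422580) (nat_lit 667264) (nat_lit 36628616) (nat_lit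 15406726) [(nat_lit 667264), (nat_lit 0), (nat_lit 3912382), (nat_lit 0)]) (PF.cons PF.nil PF.nil))))))) (PF.cons (PF.cons (PF.leaf (nat_lit 7371453) (nat_lit 1857340) (nat_lit 37797090) (nat_lit 15707164) [(nat_lit
 0), (nat_lit 1857340), (nat_lit 3915739), (nat_lit 0)]) (PF.cons (PF.leaf (nat_lit 7727678) (nat_lit 650189) (nat_lit 37280972) (nat_lit 15574390) [(nat_lit 650189), (nat_lit 1865374), (nat_lit 3912628), (nat_lit 0)]) (PF.cons (PF.leaf (nat_lit 8091350) (nat_lit 658265) (nat_lit 36760015) (nat_lit 15437830) [(nat_lit 658265), (nat_lit 1871796), (nat_lit 3907546), (nat_lit 0)]) (PF.cons (PF.leaf (nat_lit 8460468) (nat_lit 665140) (nat_lit 36236859) (nat_lit 15298153) [(nat_lit 665140), (nat_lit 1876690), (nat_lit 3900562), (nat_lit 0)]) (PF.cons PF.nil PF.nil))))) (PF.cons (PF.cons (PF.leaf (nat_lit 8137921) (nat_lit 1868303) (nat_lit 36357384) (nat_lit 15326886) [(nat_lit 0), (nat_lit 1868303), (nat_lit 3895978), (nat_lit 0)]) (PF.cons (PF.leaf (nat_lit 8499523)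 (nat_lit 662729) (nat_lit 35847397) (nat_lit 15188947) [(nat_lit 662729), (nat_lit 1872609), (nat_lit 3888173), (nat_lit 0)]) (PF.cons (PF.leaf (nat_lit 8865973) (nat_lit 668535) (nat_lit 35336361) (nat_lit 15048339) [(nat_lit 668535), (nat_lit 1875546), (nat_lit 3878649), (nat_lit 0)]) (PF.cons PF.nil PF.nil)))) (PF.cons (PF.cons (PF.leaf (nat_lit 8899835) (nat_lit 1870652) (nat_lit 34961456) (nat_lit 14940268) [(nat_lit
 0), (nat_lit 1870652), (nat_lit 3865043), (nat_lit 0)]) (PF.cons PF.nil PF.nil)) (PF.cons PF.nil PF.nil))))) (PF.cons (PF.cons (PF.cons (PF.leaf (nat_lit 7835331) (nat_lit 3876322) (nat_lit 36303663) (nat_lit 15299860) [(nat_lit 0), (nat_lit 0), (nat_lit 3876322), (nat_lit 0)]) (PF.cons (PF.leaf (nat_lit 8185540) (nat_lit 650038) (nat_lit 35812335) (nat_lit 15167190) [(nat_lit 650038), (nat_lit 0), (nat_lit 3869812), (nat_lit 0)]) (PF.cons (PF.leaf (nat_lit 8542473) (nat_lit 657081) (nat_lit 35317157) (nat_lit 15031240) [(nat_lit 657081), (nat_lit 0),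 (nat_lit 3861563), (nat_lit 0)]) (PF.cons (PF.leaf (nat_lit 8904195) (nat_lit 662991) (nat_lit 34820553) (nat_lit 14892662) [(nat_lit 662991), (nat_lit 0), (nat_lit 3851656), (nat_lit 0)]) (PF.cons PF.nil PF.nil))))) (PF.cons (PF.cons (PF.leaf (nat_lit 8582618) (nat_lit 1855194) (nat_lit 34938131) (nat_lit 14922274) [(nat_lit 0), (nat_lit 1855194), (nat_lit 3848302), (nat_lit 0)]) (PF.cons (PF.leaf (nat_lit 8937064) (nat_lit 660178) (nat_lit 34454190) (nat_lit 14785685) [(nat_lit 660178), (nat_lit 1857548), (nat_lit 3837802), (nat_lit 0)]) (PF.cons PF.nil (PF.cons PF.nil PF.nil)))) (PF.cons (PF.cons (PF.leaf (nat_lit 9323879)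
 (nat_lit 1852963) (nat_lit 33617346) (nat_lit 14541396) [(nat_lit 0), (nat_lit 1852963), (nat_lit 3811035), (nat_lit 0)]) (PF.cons PF.nil PF.nil)) PF.nil))) (PF.cons (PF.cons (PF.cons (PF.leaf (nat_lit 9007433) (nat_lit 3795939) (nat_lit 33602482) (nat_lit 14526634) [(nat_lit 0), (nat_lit 0), (nat_lit 3795939), (nat_lit 0)]) (PF.cons (PF.leaf (nat_lit 9354657) (nat_lit 656332) (nat_lit 33143686) (nat_lit 14392180) [(nat_lit 656332), (nat_lit 0), (nat_lit 3783322), (nat_lit 0)]) PF.nil)) (PF.cons PF.nil PF.nil)) (PF.cons PF.nil (PF.cons PF.nil PF.nil)))))))) (PF.cons (PF.cons (PF.cons (PF.cons (PF.leaf (nat_lit 4823171) (nat_lit 8371141) (nat_lit 42078378) (nat_lit 16659293) [(nat_lit 0), (nat_lit 0), (nat_lit 0), (nat_lit 8371141)]) (PF.cons (PF.leaf (nat_lit 5111419) (nat_lit 542024) (nat_lit 41640309) (nat_lit 16567665) [(nat_lit 542024), (nat_lit 0), (nat_lit 0), (nat_lit 8358814)]) (PF.cons (PF.leaf (nat_lit 5423708) (nat_lit 564376) (nat_lit 41170171) (nat_lit 16466978)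 [(nat_lit 564376), (nat_lit 0), (nat_lit 0), (nat_lit 8342908)]) (PF.cons (PF.leaf (nat_lit 5754644) (nat_lit 583522) (nat_lit 40676261) (nat_lit 16358626) [(nat_lit 583522), (nat_lit 0), (nat_lit 0), (nat_lit
 8323356)]) (PF.cons (PF.leaf (nat_lit 6100487) (nat_lit 600088) (nat_lit 40164640) (nat_lit 16243655) [(nat_lit 600088), (nat_lit 0), (nat_lit 0), (nat_lit 8300164)]) (PF.cons (PF.leaf (nat_lit 6458340) (nat_lit 614504) (nat_lit 39639983) (nat_lit 16122909) [(nat_lit 614504), (nat_lit 0), (nat_lit 0), (nat_lit 8273397)]) (PF.cons (PF.leaf (nat_lit 6825873) (nat_lit 627086) (nat_lit 39106016) (nat_lit 15997108) [(nat_lit 627086), (nat_lit 0), (nat_lit 0), (nat_lit 8243167)]) (PF.cons (PF.leaf (nat_lit 7201111) (nat_lit 638075) (nat_lit 38565785) (nat_lit 15866883) [(nat_lit 638075), (nat_lit 0), (nat_lit 0), (nat_lit 8209619)]) (PF.cons (PF.leaf (nat_lit 7582418) (nat_lit 647659) (nat_lit 38021811) (nat_lit 15732799) [(nat_lit 647659), (nat_lit 0), (nat_lit 0),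 (nat_lit 8172922)]) (PF.cons PF.nil PF.nil)))))))))) (PF.cons (PF.cons (PF.leaf (nat_lit 5523564) (nat_lit 1749158) (nat_lit 40686496) (nat_lit 16356481) [(nat_lit 0), (nat_lit 1749158), (nat_lit 0), (nat_lit 8316675)]) (PF.cons (PF.leaf (nat_lit 5842661) (nat_lit 583489) (nat_lit 40209490) (nat_lit 16249477) [(nat_lit 583489), (nat_lit 1770937), (nat_lit 0), (nat_lit 8295418)]) (PF.cons (PF.leaf (nat_lit 6178677) (nat_lit
 599962) (nat_lit 39712508) (nat_lit 16135461) [(nat_lit 599962), (nat_lit 1790319), (nat_lit 0), (nat_lit 8270598)]) (PF.cons (PF.leaf (nat_lit 6527882) (nat_lit 614217) (nat_lit 39201053) (nat_lit 16015467) [(nat_lit 614217), (nat_lit 1807330), (nat_lit 0), (nat_lit 8242309)]) (PF.cons (PF.leaf (nat_lit 6887621) (nat_lit 626605) (nat_lit 38679326) (nat_lit 15890324) [(nat_lit 626605), (nat_lit 1822061), (nat_lit 0), (nat_lit 8210678)]) (PF.cons (PF.leaf (nat_lit 7255702) (nat_lit 637388) (nat_lit 38150651) (nat_lit 15760729) [(nat_lit 637388), (nat_lit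 1834634), (nat_lit 0), (nat_lit 8175858)]) (PF.cons (PF.leaf (nat_lit 7630346) (nat_lit 646766) (nat_lit 37617725) (nat_lit 15627290) [(nat_lit 646766), (nat_lit 1845179), (nat_lit 0), (nat_lit 8138020)]) (PF.cons (PF.leaf (nat_lit 8010040) (nat_lit 654901) (nat_lit 37082773) (nat_lit 15490550) [(nat_lit 654901), (nat_lit 1853829), (nat_lit 0), (nat_lit 8097352)]) (PF.cons PF.nil PF.nil))))))))) (PF.cons (PF.cons (PF.leaf (nat_lit 6260112) (nat_lit 1793451) (nat_lit 39258019) (nat_lit 16024760) [(nat_lit 0), (nat_lit 1793451), (nat_lit 0), (nat_lit 8239130)]) (PF.cons (PF.leaf (nat_lit 6599395) (nat_lit 613360) (nat_lit 38761626)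
 (nat_lit 15906107) [(nat_lit 613360), (nat_lit 1809062), (nat_lit 0), (nat_lit 8209594)]) (PF.cons (PF.leaf (nat_lit 6950627) (nat_lit 625663) (nat_lit 38253427) (nat_lit 15782071) [(nat_lit 625663), (nat_lit 1822597), (nat_lit 0), (nat_lit 8176793)]) (PF.cons (PF.leaf (nat_lit 7311061) (nat_lit 636319) (nat_lit 37737229) (nat_lit 15653463) [(nat_lit 636319), (nat_lit 1834131), (nat_lit 0), (nat_lit 8140899)]) (PF.cons (PF.leaf (nat_lit 7678705) (nat_lit 645551) (nat_lit 37216021) (nat_lit 15520959) [(nat_lit 645551), (nat_lit 1843766), (nat_lit 0), (nat_lit 8102094)]) (PF.cons (PF.leaf (nat_lit 8051905) (nat_lit 653532) (nat_lit 36692208) (nat_lit 15385144) [(nat_lit 653532), (nat_lit 1851614), (nat_lit 0), (nat_lit 8060565)]) (PF.cons PF.nil PF.nil))))))) (PF.cons (PF.cons (PF.leaf (nat_lit 7015936) (nat_lit 1822574) (nat_lit 37827442) (nat_lit 15672159) [(nat_lit 0), (nat_lit 1822574), (nat_lit 0), (nat_lit 8141487)]) (PF.cons (PF.leaf (nat_lit 7367815) (nat_lit 634840)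 (nat_lit 37324895) (nat_lit 15544962) [(nat_lit 634840), (nat_lit 1833126), (nat_lit 0), (nat_lit 8104736)]) (PF.cons (PF.leaf (nat_lit 7727974) (nat_lit 643997) (nat_lit 36816232) (nat_lit 15413725) [(nat_lit
 643997), (nat_lit 1841904), (nat_lit 0), (nat_lit 8065145)]) (PF.cons (PF.leaf (nat_lit 8094344) (nat_lit 651880) (nat_lit 36304153) (nat_lit 15279103) [(nat_lit 651880), (nat_lit 1849000), (nat_lit 0), (nat_lit 8022914)]) (PF.cons (PF.leaf (nat_lit 8465389) (nat_lit 658641) (nat_lit 35790814) (nat_lit 15141653) [(nat_lit 658641), (nat_lit 1854512), (nat_lit 0), (nat_lit 7978240)]) PF.nil))))) (PF.cons (PF.cons (PF.leaf (nat_lit 7778956) (nat_lit 1839614) (nat_lit 36417737) (nat_lit 15305458) [(nat_lit 0), (nat_lit 1839614), (nat_lit 0), (nat_lit 8027158)]) (PF.cons (PF.leaf (nat_lit 8137817) (nat_lit 649924) (nat_lit 35918141) (nat_lit 15172337) [(nat_lit 649924), (nat_lit 1846003), (nat_lit 0), (nat_lit 7984394)]) (PF.cons (PF.leaf (nat_lit 8502206) (nat_lit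 656625) (nat_lit 35416443) (nat_lit 15036295) [(nat_lit 656625), (nat_lit 1850892), (nat_lit 0), (nat_lit 7939250)]) (PF.cons PF.nil PF.nil)))) (PF.cons (PF.cons (PF.leaf (nat_lit 8540367) (nat_lit 1846945) (nat_lit 35044190) (nat_lit 14930368) [(nat_lit 0), (nat_lit 1846945), (nat_lit 0), (nat_lit 7899523)]) (PF.cons (PF.leaf (nat_lit 8902008) (nat_lit 659996) (nat_lit 34553794) (nat_lit 14793523) [(nat_lit 659996),
 (nat_lit 1849912), (nat_lit 0), (nat_lit 7851935)]) PF.nil)) (PF.cons PF.nil (PF.cons PF.nil PF.nil)))))))) (PF.cons (PF.cons (PF.cons (PF.leaf (nat_lit 6016968) (nat_lit 3837110) (nat_lit 39094671) (nat_lit 15970326) [(nat_lit 0), (nat_lit 0), (nat_lit 3837110), (nat_lit 8206704)]) (PF.cons (PF.leaf (nat_lit 6335298) (nat_lit 592611) (nat_lit 38632453) (nat_lit 15859635) [(nat_lit 592611), (nat_lit 0), (nat_lit 3844538), (nat_lit 8179574)]) (PF.cons (PF.leaf (nat_lit 6669221) (nat_lit 607395) (nat_lit 38152670) (nat_lit 15742464) [(nat_lit 607395), (nat_lit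 0), (nat_lit 3849799), (nat_lit 8149087)]) (PF.cons (PF.leaf (nat_lit 7015103) (nat_lit 620050) (nat_lit 37660521) (nat_lit 15619896) [(nat_lit 620050), (nat_lit 0), (nat_lit 3852813), (nat_lit 8115431)]) (PF.cons (PF.leaf (nat_lit 7370381) (nat_lit 630936) (nat_lit 37159914) (nat_lit 15492782) [(nat_lit 630936), (nat_lit 0), (nat_lit 3853580), (nat_lit 8078789)]) (PF.cons (PF.leaf (nat_lit 7733013) (nat_lit 640316) (nat_lit 36653902) (nat_lit 15361825) [(nat_lit 640316), (nat_lit 0), (nat_lit 3852151), (nat_lit 8039352)]) (PF.cons (PF.leaf (nat_lit 8101315) (nat_lit 648389) (nat_lit 36144931) (nat_lit 15227622) [(nat_lit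
 648389), (nat_lit 0), (nat_lit 3848609), (nat_lit 7997311)]) (PF.cons PF.nil (PF.cons PF.nil PF.nil))))))))) (PF.cons (PF.cons (PF.leaf (nat_lit 6743089) (nat_lit 1799030) (nat_lit 37720800) (nat_lit 15631109) [(nat_lit 0), (nat_lit 1799030), (nat_lit 3844125), (nat_lit 8113746)]) (PF.cons (PF.leaf (nat_lit 7079127) (nat_lit 618323) (nat_lit 37243768) (nat_lit 15510388) [(nat_lit 618323), (nat_lit 1811275), (nat_lit 3845700), (nat_lit 8079356)]) (PF.cons (PF.leaf (nat_lit 7426023) (nat_lit 629227) (nat_lit 36756670) (nat_lit 15384838) [(nat_lit 629227), (nat_lit 1821642), (nat_lit 3845195), (nat_lit 8042011)]) (PF.cons (PF.leaf (nat_lit 7781161) (nat_lit 638569) (nat_lit 36263041) (nat_lit 15255279) [(nat_lit 638569), (nat_lit 1830218), (nat_lit 3842640), (nat_lit 8001924)]) (PF.cons (PF.leaf (nat_lit 8142650) (nat_lit 646573) (nat_lit 35765626) (nat_lit 15122383) [(nat_lit 646573), (nat_lit 1837106), (nat_lit 3838099), (nat_lit 7959301)]) (PF.cons (PF.leaf (nat_lit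 8508943) (nat_lit 653414) (nat_lit 35266608) (nat_lit 14986717) [(nat_lit 653414), (nat_lit 1842415), (nat_lit 3831659), (nat_lit 7914340)]) (PF.cons PF.nil PF.nil))))))) (PF.cons (PF.cons (PF.leaf (nat_lit 7484198)
 (nat_lit 1819809) (nat_lit 36353577) (nat_lit 15275524) [(nat_lit 0), (nat_lit 1819809), (nat_lit 3836034), (nat_lit 8004056)]) (PF.cons (PF.leaf (nat_lit 7830944) (nat_lit 636451) (nat_lit 35873392) (nat_lit 15147758) [(nat_lit 636451), (nat_lit 1827621), (nat_lit 3832448), (nat_lit 7963518)]) (PF.cons (PF.leaf (nat_lit 8185138) (nat_lit 644454) (nat_lit 35388273) (nat_lit 15016472) [(nat_lit 644454), (nat_lit 1833843), (nat_lit 3826994), (nat_lit 7920478)]) (PF.cons (PF.leaf (nat_lit 8544805) (nat_lit 651260) (nat_lit 34900697) (nat_lit 14882306) [(nat_lit 651260), (nat_lit 1838566), (nat_lit 3819744), (nat_lit 7875150)]) (PF.cons PF.nil PF.nil))))) (PF.cons (PF.cons (PF.leaf (nat_lit 8229538) (nat_lit 1830229) (nat_lit 35012261) (nat_lit 14909749) [(nat_lit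 0), (nat_lit 1830229), (nat_lit 3815302), (nat_lit 7880810)]) (PF.cons (PF.leaf (nat_lit 8581903) (nat_lit 648832) (nat_lit 34536803) (nat_lit 14777367) [(nat_lit 648832), (nat_lit 1834406), (nat_lit 3807321), (nat_lit 7835268)]) (PF.cons (PF.leaf (nat_lit 8939166) (nat_lit 654587) (nat_lit 34059983) (nat_lit 14642519) [(nat_lit 654587), (nat_lit 1837247), (nat_lit 3797720), (nat_lit 7787673)]) (PF.cons PF.nil PF.nil))))
 (PF.cons (PF.cons (PF.leaf (nat_lit 8971363) (nat_lit 1832339) (nat_lit 33709385) (nat_lit 14538831) [(nat_lit 0), (nat_lit 1832339), (nat_lit 3784214), (nat_lit 7747024)]) (PF.cons PF.nil PF.nil)) (PF.cons PF.nil PF.nil)))))) (PF.cons (PF.cons (PF.cons (PF.leaf (nat_lit 7207283) (nat_lit 3813562) (nat_lit 36264166) (nat_lit 15238919) [(nat_lit 0), (nat_lit 0), (nat_lit 3813562), (nat_lit 7978600)]) (PF.cons (PF.leaf (nat_lit 7539329) (nat_lit 620875) (nat_lit 35807298) (nat_lit 15117438) [(nat_lit 620875), (nat_lit 0), (nat_lit 3811342), (nat_lit 7940516)])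 (PF.cons (PF.leaf (nat_lit 7881324) (nat_lit 630568) (nat_lit 35341781) (nat_lit 14991626) [(nat_lit 630568), (nat_lit 0), (nat_lit 3807255), (nat_lit 7899757)]) (PF.cons (PF.leaf (nat_lit 8230739) (nat_lit 638779) (nat_lit 34870900) (nat_lit 14862297) [(nat_lit 638779), (nat_lit 0), (nat_lit 3801353), (nat_lit 7856568)]) (PF.cons (PF.leaf (nat_lit 8585780) (nat_lit 645732) (nat_lit 34397177) (nat_lit 14730110) [(nat_lit 645732), (nat_lit 0), (nat_lit 3793713), (nat_lit 7811168)]) (PF.cons PF.nil (PF.cons PF.nil PF.nil))))))) (PF.cons (PF.cons (PF.leaf (nat_lit 7932964) (nat_lit 1812008) (nat_lit 34961005) (nat_lit 14883772)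
 [(nat_lit 0), (nat_lit 1812008), (nat_lit 3795999), (nat_lit 7860027)]) (PF.cons (PF.leaf (nat_lit 8274179) (nat_lit 636160) (nat_lit 34503202) (nat_lit 14756518) [(nat_lit 636160), (nat_lit 1817545), (nat_lit 3789337), (nat_lit 7816711)]) (PF.cons (PF.leaf (nat_lit 8622129) (nat_lit 643169) (nat_lit 34041394) (nat_lit 14626193) [(nat_lit 643169), (nat_lit 1821649), (nat_lit 3781024), (nat_lit 7771187)]) (PF.cons (PF.leaf (nat_lit 8974926) (nat_lit 649052) (nat_lit 33577861) (nat_lit 14493419) [(nat_lit 649052), (nat_lit 1824413), (nat_lit 3771141), (nat_lit 7723677)]) (PF.cons PF.nil PF.nil))))) (PF.cons (PF.cons (PF.leaf (nat_lit 8660556) (nat_lit 1817007) (nat_lit 33686934) (nat_lit 14521635) [(nat_lit 0), (nat_lit 1817007), (nat_lit 3767856), (nat_lit 7730515)]) (PF.cons (PF.leaf (nat_lit 9006272) (nat_lit 646258) (nat_lit 33235061) (nat_lit 14390846) [(nat_lit 646258), (nat_lit 1819355), (nat_lit 3757446), (nat_lit 7683042)]) (PF.cons PF.nil (PF.cons PF.nil PF.nil))))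 (PF.cons (PF.cons (PF.leaf (nat_lit 9383190) (nat_lit 1814862) (nat_lit 32452302) (nat_lit 14156955) [(nat_lit 0), (nat_lit 1814862), (nat_lit 3731112), (nat_lit 7592741)]) (PF.cons PF.nil PF.nil)) (PF.cons
 PF.nil PF.nil))))) (PF.cons (PF.cons (PF.cons (PF.leaf (nat_lit 8363206) (nat_lit 3750312) (nat_lit 33646664) (nat_lit 14499287) [(nat_lit 0), (nat_lit 0), (nat_lit 3750312), (nat_lit 7711922)]) (PF.cons (PF.leaf (nat_lit 8698612) (nat_lit 634332) (nat_lit 33210868) (nat_lit 14373382) [(nat_lit 634332), (nat_lit 0), (nat_lit 3741195), (nat_lit 7666642)]) (PF.cons (PF.leaf (nat_lit 9040163) (nat_lit 640484) (nat_lit 32771802) (nat_lit 14244791) [(nat_lit 640484), (nat_lit 0), (nat_lit 3730613), (nat_lit 7619410)]) (PF.cons PF.nil PF.nil)))) (PF.cons (PF.cons (PF.leaf (nat_lit 9073180) (nat_lit 1800793) (nat_lit 32437821) (nat_lit 14142841) [(nat_lit 0), (nat_lit 1800793), (nat_lit 3716365), (nat_lit 7578260)]) (PF.cons (PF.leaf (nat_lit 9412198) (nat_lit 642497) (nat_lit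 32008731) (nat_lit 14014288) [(nat_lit 642497), (nat_lit 1801627), (nat_lit 3704043), (nat_lit 7529537)]) PF.nil)) (PF.cons PF.nil PF.nil))) (PF.cons (PF.cons (PF.cons (PF.leaf (nat_lit 9468566) (nat_lit 3661989) (nat_lit 31260710) (nat_lit 13774557) [(nat_lit 0), (nat_lit 0), (nat_lit 3661989), (nat_lit 7425586)]) (PF.cons PF.nil PF.nil)) (PF.cons PF.nil PF.nil)) (PF.cons PF.nil PF.nil)))))) (PF.cons (PF.cons
 (PF.cons (PF.cons (PF.leaf (nat_lit 6623972) (nat_lit 7901642) (nat_lit 36149119) (nat_lit 15156408) [(nat_lit 0), (nat_lit 0), (nat_lit 0), (nat_lit 7901642)]) (PF.cons (PF.leaf (nat_lit 6931709) (nat_lit 584878) (nat_lit 35735722) (nat_lit 15048055) [(nat_lit 584878), (nat_lit 0), (nat_lit 0), (nat_lit 7870078)]) (PF.cons (PF.leaf (nat_lit 7253797) (nat_lit 598261) (nat_lit 35307260) (nat_lit 14933979) [(nat_lit 598261), (nat_lit 0), (nat_lit 0), (nat_lit 7835524)]) (PF.cons (PF.leaf (nat_lit 7586738) (nat_lit 609574) (nat_lit 34868330) (nat_lit 14815266) [(nat_lit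 609574), (nat_lit 0), (nat_lit 0), (nat_lit 7798245)]) (PF.cons (PF.leaf (nat_lit 7928107) (nat_lit 619190) (nat_lit 34422361) (nat_lit 14692751) [(nat_lit 619190), (nat_lit 0), (nat_lit 0), (nat_lit 7758469)]) (PF.cons (PF.leaf (nat_lit 8275997) (nat_lit 627376) (nat_lit 33972004) (nat_lit 14567107) [(nat_lit 627376), (nat_lit 0), (nat_lit 0), (nat_lit 7716409)]) (PF.cons (PF.leaf (nat_lit 8628858) (nat_lit 634337) (nat_lit 33519364) (nat_lit 14438897) [(nat_lit 634337), (nat_lit 0), (nat_lit 0), (nat_lit 7672262)]) (PF.cons PF.nil (PF.cons PF.nil PF.nil))))))))) (PF.cons (PF.cons (PF.leaf (nat_lit 7318415) (nat_lit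
 1760711) (nat_lit 34925041) (nat_lit 14827252) [(nat_lit 0), (nat_lit 1760711), (nat_lit 0), (nat_lit 7797903)]) (PF.cons (PF.leaf (nat_lit 7641846) (nat_lit 607175) (nat_lit 34499825) (nat_lit 14710779) [(nat_lit 607175), (nat_lit 1770167), (nat_lit 0), (nat_lit 7760432)]) (PF.cons (PF.leaf (nat_lit 7975188) (nat_lit 616885) (nat_lit 34066059) (nat_lit 14590187) [(nat_lit 616885), (nat_lit 1777905), (nat_lit 0), (nat_lit 7720444)]) (PF.cons (PF.leaf (nat_lit 8315958) (nat_lit 625105) (nat_lit 33626836) (nat_lit 14466266) [(nat_lit 625105), (nat_lit 1784032), (nat_lit 0), (nat_lit 7678181)]) (PF.cons (PF.leaf (nat_lit 8662384) (nat_lit 632062) (nat_lit 33184537) (nat_lit 14339649) [(nat_lit 632062), (nat_lit 1788659), (nat_lit 0), (nat_lit 7633858)]) (PF.cons PF.nil (PF.cons PF.nil PF.nil))))))) (PF.cons (PF.cons (PF.leaf (nat_lit 8025007) (nat_lit 1774627) (nat_lit 33709888) (nat_lit 14486596) [(nat_lit 0), (nat_lit 1774627), (nat_lit 0), (nat_lit 7681536)]) (PF.cons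 (PF.leaf (nat_lit 8357759) (nat_lit 622506) (nat_lit 33282707) (nat_lit 14364740) [(nat_lit 622506), (nat_lit 1780188), (nat_lit 0), (nat_lit 7639241)]) (PF.cons (PF.leaf (nat_lit 8697283) (nat_lit 629522) (nat_lit
 32851377) (nat_lit 14239976) [(nat_lit 629522), (nat_lit 1784326), (nat_lit 0), (nat_lit 7594880)]) (PF.cons (PF.leaf (nat_lit 9041715) (nat_lit 635414) (nat_lit 32418045) (nat_lit 14112902) [(nat_lit 635414), (nat_lit 1787139), (nat_lit 0), (nat_lit 7548670)]) (PF.cons PF.nil PF.nil))))) (PF.cons (PF.cons (PF.leaf (nat_lit 8734314) (nat_lit 1779726) (nat_lit 32519330) (nat_lit 14139732) [(nat_lit 0), (nat_lit 1779726), (nat_lit 0), (nat_lit 7555285)]) (PF.cons (PF.leaf (nat_lit 9071844) (nat_lit 632657) (nat_lit 32096743) (nat_lit 14014614) [(nat_lit 632657), (nat_lit 1782146), (nat_lit 0), (nat_lit 7509179)]) (PF.cons PF.nil (PF.cons PF.nil PF.nil)))) (PF.cons (PF.cons (PF.leaf (nat_lit 9439640) (nat_lit 1777849) (nat_lit 31363369) (nat_lit 13790801) [(nat_lit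 0), (nat_lit 1777849), (nat_lit 0), (nat_lit 7421622)]) (PF.cons PF.nil PF.nil)) (PF.cons PF.nil PF.nil)))))) (PF.cons (PF.cons (PF.cons (PF.leaf (nat_lit 7751022) (nat_lit 3697147) (nat_lit 33638490) (nat_lit 14455218) [(nat_lit 0), (nat_lit 0), (nat_lit 3697147), (nat_lit 7658978)]) (PF.cons (PF.leaf (nat_lit 8070326) (nat_lit 607769) (nat_lit 33231546) (nat_lit 14339260) [(nat_lit 607769), (nat_lit 0), (nat_lit
 3691930), (nat_lit 7619153)]) (PF.cons (PF.leaf (nat_lit 8398783) (nat_lit 616446) (nat_lit 32817159) (nat_lit 14219588) [(nat_lit 616446), (nat_lit 0), (nat_lit 3685088), (nat_lit 7577041)]) (PF.cons (PF.leaf (nat_lit 8733980) (nat_lit 623710) (nat_lit 32398208) (nat_lit 14096976) [(nat_lit 623710), (nat_lit 0), (nat_lit 3676693), (nat_lit 7532900)]) (PF.cons (PF.leaf (nat_lit 9074233) (nat_lit 629787) (nat_lit 31976884) (nat_lit 13972039) [(nat_lit 629787), (nat_lit 0), (nat_lit 3666831), (nat_lit 7486953)]) (PF.cons PF.nil (PF.cons PF.nil PF.nil))))))) (PF.cons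 (PF.cons (PF.leaf (nat_lit 8442980) (nat_lit 1762993) (nat_lit 32480578) (nat_lit 14118193) [(nat_lit 0), (nat_lit 1762993), (nat_lit 3672444), (nat_lit 7537301)]) (PF.cons (PF.leaf (nat_lit 8770369) (nat_lit 620745) (nat_lit 32073255) (nat_lit 13997811) [(nat_lit 620745), (nat_lit 1766742), (nat_lit 3663554), (nat_lit 7493351)]) (PF.cons (PF.leaf (nat_lit 9103940) (nat_lit 626928) (nat_lit 31662488) (nat_lit 13874872) [(nat_lit 626928), (nat_lit 1769205), (nat_lit 3653256), (nat_lit 7447566)]) (PF.cons PF.nil (PF.cons PF.nil PF.nil))))) (PF.cons (PF.cons (PF.leaf (nat_lit 9135891) (nat_lit 1763876) (nat_lit 31349153)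
 (nat_lit 13777246) [(nat_lit 0), (nat_lit 1763876), (nat_lit 3639322), (nat_lit 7407668)]) (PF.cons (PF.leaf (nat_lit 9467166) (nat_lit 629031) (nat_lit 30947212) (nat_lit 13654390) [(nat_lit 629031), (nat_lit 1764857), (nat_lit 3627380), (nat_lit 7360541)]) (PF.cons PF.nil (PF.cons PF.nil PF.nil)))) (PF.cons (PF.cons (PF.leaf (nat_lit 9823752) (nat_lit 1758733) (nat_lit 30252578) (nat_lit 13436027) [(nat_lit 0), (nat_lit 1758733), (nat_lit 3599451), (nat_lit 7272277)]) (PF.cons PF.nil PF.nil)) (PF.cons PF.nil PF.nil))))) (PF.cons (PF.cons (PF.cons (PF.leaf (nat_lit 8844651) (nat_lit 3623680) (nat_lit 31319249) (nat_lit 13758880) [(nat_lit 0), (nat_lit 0), (nat_lit 3623680), (nat_lit 7391661)]) (PF.cons (PF.leaf (nat_lit 9166503) (nat_lit 617825) (nat_lit 30931242) (nat_lit 13640507) [(nat_lit 617825), (nat_lit 0), (nat_lit 3612992), (nat_lit 7346626)]) (PF.cons (PF.leaf (nat_lit 9494046) (nat_lit 623283) (nat_lit 30540358) (nat_lit 13519878) [(nat_lit 623283), (nat_lit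 0), (nat_lit 3601047), (nat_lit 7299957)]) (PF.cons PF.nil PF.nil)))) (PF.cons (PF.cons (PF.leaf (nat_lit 9521389) (nat_lit 1745909) (nat_lit 30244707) (nat_lit 13425106) [(nat_lit 0), (nat_lit 1745909), (nat_lit
 3586441), (nat_lit 7260103)]) (PF.cons (PF.leaf (nat_lit 9846418) (nat_lit 624524) (nat_lit 29862582) (nat_lit 13304905) [(nat_lit 624524), (nat_lit 1745695), (nat_lit 3573128), (nat_lit 7212424)]) PF.nil)) (PF.cons PF.nil PF.nil))) (PF.cons (PF.cons (PF.cons (PF.leaf (nat_lit 9891805) (nat_lit 3531863) (nat_lit 29202144) (nat_lit 13083898) [(nat_lit 0), (nat_lit 0), (nat_lit 3531863), (nat_lit 7113590)]) (PF.cons PF.nil PF.nil)) (PF.cons PF.nil PF.nil)) (PF.cons PF.nil PF.nil))))) (PF.cons (PF.cons (PF.cons (PF.cons (PF.leaf (nat_lit 8249251) (nat_lit 7349233) (nat_lit 31333035) (nat_lit 13728076) [(nat_lit 0), (nat_lit 0), (nat_lit 0), (nat_lit 7349233)]) (PF.cons (PF.leaf (nat_lit 8556651) (nat_lit 593544) (nat_lit 30969413) (nat_lit 13618522) [(nat_lit 593544),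 (nat_lit 0), (nat_lit 0), (nat_lit 7309110)]) (PF.cons (PF.leaf (nat_lit 8872565) (nat_lit 601401) (nat_lit 30599274) (nat_lit 13505733) [(nat_lit 601401), (nat_lit 0), (nat_lit 0), (nat_lit 7267001)]) (PF.cons (PF.leaf (nat_lit 9194676) (nat_lit 607910) (nat_lit 30225148) (nat_lit 13390435) [(nat_lit 607910), (nat_lit 0), (nat_lit 0), (nat_lit 7223165)]) (PF.cons PF.nil PF.nil))))) (PF.cons (PF.cons (PF.leaf (nat_lit
 8910701) (nat_lit 1712659) (nat_lit 30300539) (nat_lit 13411104) [(nat_lit 0), (nat_lit 1712659), (nat_lit 0), (nat_lit 7228169)]) (PF.cons (PF.leaf (nat_lit 9225371) (nat_lit 604738) (nat_lit 29936733) (nat_lit 13298062) [(nat_lit 604738), (nat_lit 1715112), (nat_lit 0), (nat_lit 7184722)]) (PF.cons (PF.leaf (nat_lit 9545782) (nat_lit 610265) (nat_lit 29569882) (nat_lit 13182843) [(nat_lit 610265), (nat_lit 1716401), (nat_lit 0), (nat_lit 7139718)]) (PF.cons PF.nil PF.nil)))) (PF.cons (PF.cons (PF.leaf (nat_lit 9572519) (nat_lit 1710689) (nat_lit 29291623)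 (nat_lit 13092141) [(nat_lit 0), (nat_lit 1710689), (nat_lit 0), (nat_lit 7101223)]) (PF.cons (PF.leaf (nat_lit 9890630) (nat_lit 611654) (nat_lit 28932540) (nat_lit 12977324) [(nat_lit 611654), (nat_lit 1710709), (nat_lit 0), (nat_lit 7055291)]) PF.nil)) (PF.cons PF.nil (PF.cons PF.nil PF.nil))))) (PF.cons (PF.cons (PF.cons (PF.leaf (nat_lit 9287838) (nat_lit 3499560) (nat_lit 29269743) (nat_lit 13077123) [(nat_lit 0), (nat_lit 0), (nat_lit 3499560), (nat_lit 7087461)]) (PF.cons (PF.leaf (nat_lit 9597268) (nat_lit 601116) (nat_lit 28922812) (nat_lit 12966403) [(nat_lit 601116), (nat_lit 0), (nat_lit 3487982), (nat_lit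
 7043499)]) (PF.cons (PF.leaf (nat_lit 9912012) (nat_lit 606022) (nat_lit 28573284) (nat_lit 12853745) [(nat_lit 606022), (nat_lit 0), (nat_lit 3475311), (nat_lit 6998141)]) (PF.cons PF.nil PF.nil)))) (PF.cons (PF.cons (PF.leaf (nat_lit 9934795) (nat_lit 1691847) (nat_lit 28310289) (nat_lit 12765928) [(nat_lit 0), (nat_lit 1691847), (nat_lit 3460737), (nat_lit 6960003)]) (PF.cons PF.nil PF.nil)) (PF.cons PF.nil PF.nil))) (PF.cons (PF.cons (PF.cons (PF.leaf (nat_lit 10283752) (nat_lit 3407048) (nat_lit 27382195) (nat_lit 12450462) [(nat_lit 0), (nat_lit 0), (nat_lit 3407048), (nat_lit 6820685)]) (PF.cons PF.nil PF.nil)) (PF.cons PF.nil PF.nil)) PF.nil))) (PF.cons (PF.cons (PF.cons (PF.cons (PF.leaf (nat_lit 9699070) (nat_lit 6800785) (nat_lit 27455203) (nat_lit 12450469) [(nat_lit 0), (nat_lit 0), (nat_lit 0), (nat_lit 6800785)]) (PF.cons (PF.leaf (nat_lit 9997078) (nat_lit 584573) (nat_lit 27143627) (nat_lit 12347175) [(nat_lit 584573), (nat_lit 0), (nat_lit 0), (nat_lit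 6758359)]) (PF.cons PF.nil PF.nil))) (PF.cons (PF.cons (PF.leaf (nat_lit 10319169) (nat_lit 1639360) (nat_lit 26594585) (nat_lit 12160913) [(nat_lit 0), (nat_lit 1639360), (nat_lit 0), (nat_lit 6678488)]) PF.nil)
 PF.nil)) (PF.cons PF.nil PF.nil)) (PF.cons PF.nil (PF.cons PF.nil (PF.cons PF.nil PF.nil))))))))

def p15_32_3_0 : pfC (piC [(nat_lit 35065580), (nat_lit 23538785), (nat_lit 17602610), (nat_lit 11874437)] (nat_lit 5074980)) p15_32_3 (nat_lit 4) (nat_lit 0) (nat_lit 1) = true := by decide +kernel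
def p15_32_3_1 : pfC (piC [(nat_lit 35065580), (nat_lit 23538785), (nat_lit 17602610), (nat_lit 11874437)] (nat_lit 5074980)) p15_32_3 (nat_lit 4) (nat_lit 1) (nat_lit 2) = true := by decide +kernel
def p15_32_3_2 : pfC (piC [(nat_lit 35065580), (nat_lit 23538785), (nat_lit 17602610), (nat_lit 11874437)] (nat_lit 5074980)) p15_32_3 (nat_lit 4) (nat_lit 2) (nat_lit 3) = true := by decide +kernel
def p15_32_3_3 : pfC (piC [(nat_lit 35065580), (nat_lit 23538785), (nat_lit 17602610), (nat_lit 11874437)] (nat_lit 5074980)) p15_32_3 (nat_lit 4) (nat_lit 3) (nat_lit 4) = true := by decide +kernel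
def p15_32_3_4 : pfC (piC [(nat_lit 35065580), (nat_lit 23538785), (nat_lit 17602610), (nat_lit 11874437)] (nat_lit 5074980)) p15_32_3 (nat_lit 4) (nat_lit 4) (nat_lit 5) = true := by decide +kernel
def p15_32_3_5 : pfC (piC [(nat_lit 35065580), (nat_lit 23538785), (nat_lit 17602610), (nat_lit 11874437)] (nat_lit 5074980)) p15_32_3 (nat_lit 4) (nat_lit 5) (nat_lit 6) = true := by decide +kernel
def p15_32_3_6 : pfC (piC [(nat_lit 35065580), (nat_lit 23538785), (nat_lit 17602610), (nat_lit 11874437)] (nat_lit 5074980)) p15_32_3 (nat_lit 4) (nat_lit 6) (nat_lit 7) = true := by decide +kernel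
def p15_32_3_7 : pfC (piC [(nat_lit 35065580), (nat_lit 23538785), (nat_lit 17602610), (nat_lit 11874437)] (nat_lit 5074980)) p15_32_3 (nat_lit 4) (nat_lit 7) (nat_lit 8) = true := by decide +kernel
def p15_32_3_8 : pfC (piC [(nat_lit 35065580), (nat_lit 23538785), (nat_lit 17602610), (nat_lit 11874437)] (nat_lit 5074980)) p15_32_3 (nat_lit 4) (nat_lit 8) (nat_lit 9) = true := by decide +kernel
def p15_32_3_9 : pfC (piC [(nat_lit 35065580), (nat_lit 23538785), (nat_lit 17602610), (nat_lit 11874437)] (nat_lit 5074980)) p15_32_3 (nat_lit 4) (nat_lit 9) (nat_lit 10) = true := by decide +kernel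
def p15_32_3_10 : pfC (piC [(nat_lit 35065580), (nat_lit 23538785), (nat_lit 17602610), (nat_lit 11874437)] (nat_lit 5074980)) p15_32_3 (nat_lit 4) (nat_lit 10) (nat_lit 11) = true := by decide +kernel
def p15_32_3_11 : pfC (piC [(nat_lit 35065580), (nat_lit 23538785), (nat_lit 17602610), (nat_lit 11874437)] (nat_lit 5074980)) p15_32_3 (nat_lit 4) (nat_lit 11) (nat_lit 12) = true := by decide +kernel
def p15_32_3_12 : pfC (piC [(nat_lit 35065580), (nat_lit 23538785), (nat_lit 17602610), (nat_lit 11874437)] (nat_lit 5074980)) p15_32_3 (nat_lit 4) (nat_lit 12) (nat_lit 13) = true := by decide +kernel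
def p15_32_3_13 : pfC (piC [(nat_lit 35065580), (nat_lit 23538785), (nat_lit 17602610), (nat_lit 11874437)] (nat_lit 5074980)) p15_32_3 (nat_lit 4) (nat_lit 13) (nat_lit 14) = true := by decide +kernel
def p15_32_3_14 : pfC (piC [(nat_lit 35065580), (nat_lit 23538785), (nat_lit 17602610), (nat_lit 11874437)] (nat_lit 5074980)) p15_32_3 (nat_lit 4) (nat_lit 14) (nat_lit 15) = true := by decide +kernel
def p15_32_3_15 : pfC (piC [(nat_lit 35065580), (nat_lit 23538785), (nat_lit 17602610), (nat_lit 11874437)] (nat_lit 5074980)) p15_32_3 (nat_lit 4) (nat_lit 15) (nat_lit 16) = true := by decide +kernel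
def p15_32_3_16 : pfC (piC [(nat_lit 35065580), (nat_lit 23538785), (nat_lit 17602610), (nat_lit 11874437)] (nat_lit 5074980)) p15_32_3 (nat_lit 4) (nat_lit 16) (nat_lit 17) = true := by decide +kernel
def p15_32_3_17 : pfC (piC [(nat_lit 35065580), (nat_lit 23538785), (nat_lit 17602610), (nat_lit 11874437)] (nat_lit 5074980)) p15_32_3 (nat_lit 4) (nat_lit 17) (nat_lit 18) = true := by decide +kernel
def p15_32_3_18 : pfC (piC [(nat_lit 35065580), (nat_lit 23538785), (nat_lit 17602610), (nat_lit 11874437)] (nat_lit 5074980)) p15_32_3 (nat_lit 4) (nat_lit 18) (nat_lit 19) = true := by decide +kernel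
def p15_32_3_19 : pfC (piC [(nat_lit 35065580), (nat_lit 23538785), (nat_lit 17602610), (nat_lit 11874437)] (nat_lit 5074980)) p15_32_3 (nat_lit 4) (nat_lit 19) (nat_lit 20) = true := by decide +kernel
def p15_32_3_20 : pfC (piC [(nat_lit 35065580), (nat_lit 23538785), (nat_lit 17602610), (nat_lit 11874437)] (nat_lit 5074980)) p15_32_3 (nat_lit 4) (nat_lit 20) (nat_lit 21) = true := by decide +kernel
def p15_32_3_21 : pfC (piC [(nat_lit 35065580), (nat_lit 23538785), (nat_lit 17602610), (nat_lit 11874437)] (nat_lit 5074980)) p15_32_3 (nat_lit 4) (nat_lit 21) (nat_lit 22) = true := by decide +kernel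
def p15_32_3_22 : pfC (piC [(nat_lit 35065580), (nat_lit 23538785), (nat_lit 17602610), (nat_lit 11874437)] (nat_lit 5074980)) p15_32_3 (nat_lit 4) (nat_lit 22) (nat_lit 23) = true := by decide +kernel
def p15_32_3_23 : pfC (piC [(nat_lit 35065580), (nat_lit 23538785), (nat_lit 17602610), (nat_lit 11874437)] (nat_lit 5074980)) p15_32_3 (nat_lit 4) (nat_lit 23) (nat_lit 24) = true := by decide +kernel
def p15_32_3_24 : pfC (piC [(nat_lit 35065580), (nat_lit 23538785), (nat_lit 17602610), (nat_lit 11874437)] (nat_lit 5074980)) p15_32_3 (nat_lit 4) (nat_lit 24) (nat_lit 25) = true := by decide +kernel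
def p15_32_3_25 : pfC (piC [(nat_lit 35065580), (nat_lit 23538785), (nat_lit 17602610), (nat_lit 11874437)] (nat_lit 5074980)) p15_32_3 (nat_lit 4) (nat_lit 25) (nat_lit 26) = true := by decide +kernel
def p15_32_3_26 : pfC (piC [(nat_lit 35065580), (nat_lit 23538785), (nat_lit 17602610), (nat_lit 11874437)] (nat_lit 5074980)) p15_32_3 (nat_lit 4) (nat_lit 26) (nat_lit 27) = true := by decide +kernel
def p15_32_3_27 : pfC (piC [(nat_lit 35065580), (nat_lit 23538785), (nat_lit 17602610), (nat_lit 11874437)] (nat_lit 5074980)) p15_32_3 (nat_lit 4) (nat_lit 27) (nat_lit 28) = true := by decide +kernel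
def p15_32_3_28 : pfC (piC [(nat_lit 35065580), (nat_lit 23538785), (nat_lit 17602610), (nat_lit 11874437)] (nat_lit 5074980)) p15_32_3 (nat_lit 4) (nat_lit 28) (nat_lit 29) = true := by decide +kernel
def p15_32_3_29 : pfC (piC [(nat_lit 35065580), (nat_lit 23538785), (nat_lit 17602610), (nat_lit 11874437)] (nat_lit 5074980)) p15_32_3 (nat_lit 4) (nat_lit 29) (nat_lit 30) = true := by decide +kernel
def p15_32_3_30 : pfC (piC [(nat_lit 35065580), (nat_lit 23538785), (nat_lit 17602610), (nat_lit 11874437)] (nat_lit 5074980)) p15_32_3 (nat_lit 4) (nat_lit 30) (nat_lit 31) = true := by decide +kernel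
def p15_32_3_31 : pfC (piC [(nat_lit 35065580), (nat_lit 23538785), (nat_lit 17602610), (nat_lit 11874437)] (nat_lit 5074980)) p15_32_3 (nat_lit 4) (nat_lit 31) (nat_lit 32) = true := by decide +kernel
def p15_32_3_32 : pfC (piC [(nat_lit 35065580), (nat_lit 23538785), (nat_lit 17602610), (nat_lit 11874437)] (nat_lit 5074980)) p15_32_3 (nat_lit 4) (nat_lit 32) (nat_lit 33) = true := by decide +kernel
def p15_32_3_33 : pfC (piC [(nat_lit 35065580), (nat_lit 23538785), (nat_lit 17602610), (nat_lit 11874437)] (nat_lit 5074980)) p15_32_3 (nat_lit 4) (nat_lit 33) (nat_lit 34) = true := by decide +kernel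
def p15_32_3_34 : pfC (piC [(nat_lit 35065580), (nat_lit 23538785), (nat_lit 17602610), (nat_lit 11874437)] (nat_lit 5074980)) p15_32_3 (nat_lit 4) (nat_lit 34) (nat_lit 35) = true := by decide +kernel
def p15_32_3_35 : pfC (piC [(nat_lit 35065580), (nat_lit 23538785), (nat_lit 17602610), (nat_lit 11874437)] (nat_lit 5074980)) p15_32_3 (nat_lit 4) (nat_lit 35) (nat_lit 36) = true := by decide +kernel
def p15_32_3_36 : pfC (piC [(nat_lit 35065580), (nat_lit 23538785), (nat_lit 17602610), (nat_lit 11874437)] (nat_lit 5074980)) p15_32_3 (nat_lit 4) (nat_lit 36) (nat_lit 37) = true := by decide +kernel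
def p15_32_3_37 : pfC (piC [(nat_lit 35065580), (nat_lit 23538785), (nat_lit 17602610), (nat_lit 11874437)] (nat_lit 5074980)) p15_32_3 (nat_lit 4) (nat_lit 37) (nat_lit 38) = true := by decide +kernel
def p15_32_3_38 : pfC (piC [(nat_lit 35065580), (nat_lit 23538785), (nat_lit 17602610), (nat_lit 11874437)] (nat_lit 5074980)) p15_32_3 (nat_lit 4) (nat_lit 38) (nat_lit 39) = true := by decide +kernel
def p15_32_3_39 : pfC (piC [(nat_lit 35065580), (nat_lit 23538785), (nat_lit 17602610), (nat_lit 11874437)] (nat_lit 5074980)) p15_32_3 (nat_lit 4) (nat_lit 39) (nat_lit 40) = true := by decide +kernel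
def p15_32_3_40 : pfC (piC [(nat_lit 35065580), (nat_lit 23538785), (nat_lit 17602610), (nat_lit 11874437)] (nat_lit 5074980)) p15_32_3 (nat_lit 4) (nat_lit 40) (nat_lit 41) = true := by decide +kernel
def p15_32_3_41 : pfC (piC [(nat_lit 35065580), (nat_lit 23538785), (nat_lit 17602610), (nat_lit 11874437)] (nat_lit 5074980)) p15_32_3 (nat_lit 4) (nat_lit 41) (nat_lit 42) = true := by decide +kernel
def p15_32_3_42 : pfC (piC [(nat_lit 35065580), (nat_lit 23538785), (nat_lit 17602610), (nat_lit 11874437)] (nat_lit 5074980)) p15_32_3 (nat_lit 4) (nat_lit 42) (nat_lit 43) = true := by decide +kernel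
def p15_32_3_43 : pfC (piC [(nat_lit 35065580), (nat_lit 23538785), (nat_lit 17602610), (nat_lit 11874437)] (nat_lit 5074980)) p15_32_3 (nat_lit 4) (nat_lit 43) (nat_lit 44) = true := by decide +kernel
def p15_32_3_44 : pfC (piC [(nat_lit 35065580), (nat_lit 23538785), (nat_lit 17602610), (nat_lit 11874437)] (nat_lit 5074980)) p15_32_3 (nat_lit 4) (nat_lit 44) (nat_lit 45) = true := by decide +kernel
def p15_32_3_45 : pfC (piC [(nat_lit 35065580), (nat_lit 23538785), (nat_lit 17602610), (nat_lit 11874437)] (nat_lit 5074980)) p15_32_3 (nat_lit 4) (nat_lit 45) (nat_lit 46) = true := by decide +kernel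
def p15_32_3_46 : pfC (piC [(nat_lit 35065580), (nat_lit 23538785), (nat_lit 17602610), (nat_lit 11874437)] (nat_lit 5074980)) p15_32_3 (nat_lit 4) (nat_lit 46) (nat_lit 47) = true := by decide +kernel
def p15_32_3_47 : pfC (piC [(nat_lit 35065580), (nat_lit 23538785), (nat_lit 17602610), (nat_lit 11874437)] (nat_lit 5074980)) p15_32_3 (nat_lit 4) (nat_lit 47) (nat_lit 48) = true := by decide +kernel
def p15_32_3_48 : pfC (piC [(nat_lit 35065580), (nat_lit 23538785), (nat_lit 17602610), (nat_lit 11874437)] (nat_lit 5074980)) p15_32_3 (nat_lit 4) (nat_lit 48) (nat_lit 49) = true := by decide +kernel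
def p15_32_3_49 : pfC (piC [(nat_lit 35065580), (nat_lit 23538785), (nat_lit 17602610), (nat_lit 11874437)] (nat_lit 5074980)) p15_32_3 (nat_lit 4) (nat_lit 49) (nat_lit 50) = true := by decide +kernel
def p15_32_3_50 : pfC (piC [(nat_lit 35065580), (nat_lit 23538785), (nat_lit 17602610), (nat_lit 11874437)] (nat_lit 5074980)) p15_32_3 (nat_lit 4) (nat_lit 50) (nat_lit 51) = true := by decide +kernel
def p15_32_3_51 : pfC (piC [(nat_lit 35065580), (nat_lit 23538785), (nat_lit 17602610), (nat_lit 11874437)] (nat_lit 5074980)) p15_32_3 (nat_lit 4) (nat_lit 51) (nat_lit 52) = true := by decide +kernel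
def p15_32_3_52 : pfC (piC [(nat_lit 35065580), (nat_lit 23538785), (nat_lit 17602610), (nat_lit 11874437)] (nat_lit 5074980)) p15_32_3 (nat_lit 4) (nat_lit 52) (nat_lit 53) = true := by decide +kernel
def p15_32_3_53 : pfC (piC [(nat_lit 35065580), (nat_lit 23538785), (nat_lit 17602610), (nat_lit 11874437)] (nat_lit 5074980)) p15_32_3 (nat_lit 4) (nat_lit 53) (nat_lit 54) = true := by decide +kernel
def p15_32_3_54 : pfC (piC [(nat_lit 35065580), (nat_lit 23538785), (nat_lit 17602610), (nat_lit 11874437)] (nat_lit 5074980)) p15_32_3 (nat_lit 4) (nat_lit 54) (nat_lit 55) = true := by decide +kernel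
def p15_32_3_55 : pfC (piC [(nat_lit 35065580), (nat_lit 23538785), (nat_lit 17602610), (nat_lit 11874437)] (nat_lit 5074980)) p15_32_3 (nat_lit 4) (nat_lit 55) (nat_lit 56) = true := by decide +kernel
def p15_32_3_56 : pfC (piC [(nat_lit 35065580), (nat_lit 23538785), (nat_lit 17602610), (nat_lit 11874437)] (nat_lit 5074980)) p15_32_3 (nat_lit 4) (nat_lit 56) (nat_lit 57) = true := by decide +kernel
def p15_32_3_57 : pfC (piC [(nat_lit 35065580), (nat_lit 23538785), (nat_lit 17602610), (nat_lit 11874437)] (nat_lit 5074980)) p15_32_3 (nat_lit 4) (nat_lit 57) (nat_lit 58) = true := by decide +kernel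
def p15_32_3_58 : pfC (piC [(nat_lit 35065580), (nat_lit 23538785), (nat_lit 17602610), (nat_lit 11874437)] (nat_lit 5074980)) p15_32_3 (nat_lit 4) (nat_lit 58) (nat_lit 59) = true := by decide +kernel
def p15_32_3_59 : pfC (piC [(nat_lit 35065580), (nat_lit 23538785), (nat_lit 17602610), (nat_lit 11874437)] (nat_lit 5074980)) p15_32_3 (nat_lit 4) (nat_lit 59) (nat_lit 60) = true := by decide +kernel
def p15_32_3_60 : pfC (piC [(nat_lit 35065580), (nat_lit 23538785), (nat_lit 17602610), (nat_lit 11874437)] (nat_lit 5074980)) p15_32_3 (nat_lit 4) (nat_lit 60) (nat_lit 61) = true := by decide +kernel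
def p15_32_3_61 : pfC (piC [(nat_lit 35065580), (nat_lit 23538785), (nat_lit 17602610), (nat_lit 11874437)] (nat_lit 5074980)) p15_32_3 (nat_lit 4) (nat_lit 61) (nat_lit 62) = true := by decide +kernel
def p15_32_3_62 : pfC (piC [(nat_lit 35065580), (nat_lit 23538785), (nat_lit 17602610), (nat_lit 11874437)] (nat_lit 5074980)) p15_32_3 (nat_lit 4) (nat_lit 62) (nat_lit 63) = true := by decide +kernel
def p15_32_3_63 : pfC (piC [(nat_lit 35065580), (nat_lit 23538785), (nat_lit 17602610), (nat_lit 11874437)] (nat_lit 5074980)) p15_32_3 (nat_lit 4) (nat_lit 63) (nat_lit 64) = true := by decide +kernel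
def p15_32_3_64 : pfC (piC [(nat_lit 35065580), (nat_lit 23538785), (nat_lit 17602610), (nat_lit 11874437)] (nat_lit 5074980)) p15_32_3 (nat_lit 4) (nat_lit 64) (nat_lit 65) = true := by decide +kernel
def p15_32_3_65 : pfC (piC [(nat_lit 35065580), (nat_lit 23538785), (nat_lit 17602610), (nat_lit 11874437)] (nat_lit 5074980)) p15_32_3 (nat_lit 4) (nat_lit 65) (nat_lit 66) = true := by decide +kernel
def p15_32_3_66 : pfC (piC [(nat_lit 35065580), (nat_lit 23538785), (nat_lit 17602610), (nat_lit 11874437)] (nat_lit 5074980)) p15_32_3 (nat_lit 4) (nat_lit 66) (nat_lit 67) = true := by decide +kernel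
def p15_32_3_67 : pfC (piC [(nat_lit 35065580), (nat_lit 23538785), (nat_lit 17602610), (nat_lit 11874437)] (nat_lit 5074980)) p15_32_3 (nat_lit 4) (nat_lit 67) (nat_lit 68) = true := by decide +kernel
def p15_32_3_68 : pfC (piC [(nat_lit 35065580), (nat_lit 23538785), (nat_lit 17602610), (nat_lit 11874437)] (nat_lit 5074980)) p15_32_3 (nat_lit 4) (nat_lit 68) (nat_lit 69) = true := by decide +kernel
def p15_32_3_69 : pfC (piC [(nat_lit 35065580), (nat_lit 23538785), (nat_lit 17602610), (nat_lit 11874437)] (nat_lit 5074980)) p15_32_3 (nat_lit 4) (nat_lit 69) (nat_lit 70) = true := by decide +kernel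
def p15_32_3_70 : pfC (piC [(nat_lit 35065580), (nat_lit 23538785), (nat_lit 17602610), (nat_lit 11874437)] (nat_lit 5074980)) p15_32_3 (nat_lit 4) (nat_lit 70) (nat_lit 71) = true := by decide +kernel
def p15_32_3_71 : pfC (piC [(nat_lit 35065580), (nat_lit 23538785), (nat_lit 17602610), (nat_lit 11874437)] (nat_lit 5074980)) p15_32_3 (nat_lit 4) (nat_lit 71) (nat_lit 72) = true := by decide +kernel
def p15_32_3_72 : pfC (piC [(nat_lit 35065580), (nat_lit 23538785), (nat_lit 17602610), (nat_lit 11874437)] (nat_lit 5074980)) p15_32_3 (nat_lit 4) (nat_lit 72) (nat_lit 73) = true := by decide +kernel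
def p15_32_3_73 : pfC (piC [(nat_lit 35065580), (nat_lit 23538785), (nat_lit 17602610), (nat_lit 11874437)] (nat_lit 5074980)) p15_32_3 (nat_lit 4) (nat_lit 73) (nat_lit 74) = true := by decide +kernel
def p15_32_3_74 : pfC (piC [(nat_lit 35065580), (nat_lit 23538785), (nat_lit 17602610), (nat_lit 11874437)] (nat_lit 5074980)) p15_32_3 (nat_lit 4) (nat_lit 74) (nat_lit 75) = true := by decide +kernel
def p15_32_3_75 : pfC (piC [(nat_lit 35065580), (nat_lit 23538785), (nat_lit 17602610), (nat_lit 11874437)] (nat_lit 5074980)) p15_32_3 (nat_lit 4) (nat_lit 75) (nat_lit 76) = true := by decide +kernel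
def p15_32_3_76 : pfC (piC [(nat_lit 35065580), (nat_lit 23538785), (nat_lit 17602610), (nat_lit 11874437)] (nat_lit 5074980)) p15_32_3 (nat_lit 4) (nat_lit 76) (nat_lit 77) = true := by decide +kernel
def p15_32_3_77 : pfC (piC [(nat_lit 35065580), (nat_lit 23538785), (nat_lit 17602610), (nat_lit 11874437)] (nat_lit 5074980)) p15_32_3 (nat_lit 4) (nat_lit 77) (nat_lit 78) = true := by decide +kernel
def p15_32_3_78 : pfC (piC [(nat_lit 35065580), (nat_lit 23538785), (nat_lit 17602610), (nat_lit 11874437)] (nat_lit 5074980)) p15_32_3 (nat_lit 4) (nat_lit 78) (nat_lit 79) = true := by decide +kernel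
def p15_32_3_79 : pfC (piC [(nat_lit 35065580), (nat_lit 23538785), (nat_lit 17602610), (nat_lit 11874437)] (nat_lit 5074980)) p15_32_3 (nat_lit 4) (nat_lit 79) (nat_lit 80) = true := by decide +kernel
def p15_32_3_80 : pfC (piC [(nat_lit 35065580), (nat_lit 23538785), (nat_lit 17602610), (nat_lit 11874437)] (nat_lit 5074980)) p15_32_3 (nat_lit 4) (nat_lit 80) (nat_lit 81) = true := by decide +kernel
def p15_32_3_81 : pfC (piC [(nat_lit 35065580), (nat_lit 23538785), (nat_lit 17602610), (nat_lit 11874437)] (nat_lit 5074980)) p15_32_3 (nat_lit 4) (nat_lit 81) (nat_lit 82) = true := by decide +kernel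
def p15_32_3_82 : pfC (piC [(nat_lit 35065580), (nat_lit 23538785), (nat_lit 17602610), (nat_lit 11874437)] (nat_lit 5074980)) p15_32_3 (nat_lit 4) (nat_lit 82) (nat_lit 83) = true := by decide +kernel
def p15_32_3_83 : pfC (piC [(nat_lit 35065580), (nat_lit 23538785), (nat_lit 17602610), (nat_lit 11874437)] (nat_lit 5074980)) p15_32_3 (nat_lit 4) (nat_lit 83) (nat_lit 84) = true := by decide +kernel
def p15_32_3_84 : pfC (piC [(nat_lit 35065580), (nat_lit 23538785), (nat_lit 17602610), (nat_lit 11874437)] (nat_lit 5074980)) p15_32_3 (nat_lit 4) (nat_lit 84) (nat_lit 85) = true := by decide +kernel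
def p15_32_3_85 : pfC (piC [(nat_lit 35065580), (nat_lit 23538785), (nat_lit 17602610), (nat_lit 11874437)] (nat_lit 5074980)) p15_32_3 (nat_lit 4) (nat_lit 85) (nat_lit 86) = true := by decide +kernel
def p15_32_3_86 : pfC (piC [(nat_lit 35065580), (nat_lit 23538785), (nat_lit 17602610), (nat_lit 11874437)] (nat_lit 5074980)) p15_32_3 (nat_lit 4) (nat_lit 86) (nat_lit 87) = true := by decide +kernel
def p15_32_3_87 : pfC (piC [(nat_lit 35065580), (nat_lit 23538785), (nat_lit 17602610), (nat_lit 11874437)] (nat_lit 5074980)) p15_32_3 (nat_lit 4) (nat_lit 87) (nat_lit 88) = true := by decide +kernel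
def p15_32_3_88 : pfC (piC [(nat_lit 35065580), (nat_lit 23538785), (nat_lit 17602610), (nat_lit 11874437)] (nat_lit 5074980)) p15_32_3 (nat_lit 4) (nat_lit 88) (nat_lit 89) = true := by decide +kernel
def p15_32_3_89 : pfC (piC [(nat_lit 35065580), (nat_lit 23538785), (nat_lit 17602610), (nat_lit 11874437)] (nat_lit 5074980)) p15_32_3 (nat_lit 4) (nat_lit 89) (nat_lit 90) = true := by decide +kernel
def p15_32_3_90 : pfC (piC [(nat_lit 35065580), (nat_lit 23538785), (nat_lit 17602610), (nat_lit 11874437)] (nat_lit 5074980)) p15_32_3 (nat_lit 4) (nat_lit 90) (nat_lit 91) = true := by decide +kernel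
def p15_32_3_91 : pfC (piC [(nat_lit 35065580), (nat_lit 23538785), (nat_lit 17602610), (nat_lit 11874437)] (nat_lit 5074980)) p15_32_3 (nat_lit 4) (nat_lit 91) (nat_lit 92) = true := by decide +kernel
def p15_32_3_92 : pfC (piC [(nat_lit 35065580), (nat_lit 23538785), (nat_lit 17602610), (nat_lit 11874437)] (nat_lit 5074980)) p15_32_3 (nat_lit 4) (nat_lit 92) (nat_lit 93) = true := by decide +kernel
def p15_32_3_93 : pfC (piC [(nat_lit 35065580), (nat_lit 23538785), (nat_lit 17602610), (nat_lit 11874437)] (nat_lit 5074980)) p15_32_3 (nat_lit 4) (nat_lit 93) (nat_lit 94) = true := by decide +kernel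
def p15_32_3_94 : pfC (piC [(nat_lit 35065580), (nat_lit 23538785), (nat_lit 17602610), (nat_lit 11874437)] (nat_lit 5074980)) p15_32_3 (nat_lit 4) (nat_lit 94) (nat_lit 95) = true := by decide +kernel
def p15_32_3_95 : pfC (piC [(nat_lit 35065580), (nat_lit 23538785), (nat_lit 17602610), (nat_lit 11874437)] (nat_lit 5074980)) p15_32_3 (nat_lit 4) (nat_lit 95) (nat_lit 96) = true := by decide +kernel
def p15_32_3_96 : pfC (piC [(nat_lit 35065580), (nat_lit 23538785), (nat_lit 17602610), (nat_lit 11874437)] (nat_lit 5074980)) p15_32_3 (nat_lit 4) (nat_lit 96) (nat_lit 97) = true := by decide +kernel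
def p15_32_3_97 : pfC (piC [(nat_lit 35065580), (nat_lit 23538785), (nat_lit 17602610), (nat_lit 11874437)] (nat_lit 5074980)) p15_32_3 (nat_lit 4) (nat_lit 97) (nat_lit 98) = true := by decide +kernel
def p15_32_3_98 : pfC (piC [(nat_lit 35065580), (nat_lit 23538785), (nat_lit 17602610), (nat_lit 11874437)] (nat_lit 5074980)) p15_32_3 (nat_lit 4) (nat_lit 98) (nat_lit 99) = true := by decide +kernel
def p15_32_3_99 : pfC (piC [(nat_lit 35065580), (nat_lit 23538785), (nat_lit 17602610), (nat_lit 11874437)] (nat_lit 5074980)) p15_32_3 (nat_lit 4) (nat_lit 99) (nat_lit 100) = true := by decide +kernel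
def p15_32_3_100 : pfC (piC [(nat_lit 35065580), (nat_lit 23538785), (nat_lit 17602610), (nat_lit 11874437)] (nat_lit 5074980)) p15_32_3 (nat_lit 4) (nat_lit 100) (nat_lit 101) = true := by decide +kernel
def p15_32_3_101 : pfC (piC [(nat_lit 35065580), (nat_lit 23538785), (nat_lit 17602610), (nat_lit 11874437)] (nat_lit 5074980)) p15_32_3 (nat_lit 4) (nat_lit 101) (nat_lit 102) = true := by decide +kernel
def p15_32_3_102 : pfC (piC [(nat_lit 35065580), (nat_lit 23538785), (nat_lit 17602610), (nat_lit 11874437)] (nat_lit 5074980)) p15_32_3 (nat_lit 4) (nat_lit 102) (nat_lit 103) = true := by decide +kernel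
def p15_32_3_103 : pfC (piC [(nat_lit 35065580), (nat_lit 23538785), (nat_lit 17602610), (nat_lit 11874437)] (nat_lit 5074980)) p15_32_3 (nat_lit 4) (nat_lit 103) (nat_lit 104) = true := by decide +kernel
def p15_32_3_104 : pfC (piC [(nat_lit 35065580), (nat_lit 23538785), (nat_lit 17602610), (nat_lit 11874437)] (nat_lit 5074980)) p15_32_3 (nat_lit 4) (nat_lit 104) (nat_lit 105) = true := by decide +kernel
def p15_32_3_105 : pfC (piC [(nat_lit 35065580), (nat_lit 23538785), (nat_lit 17602610), (nat_lit 11874437)] (nat_lit 5074980)) p15_32_3 (nat_lit 4) (nat_lit 105) (nat_lit 106) = true := by decide +kernel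
def p15_32_3_106 : pfC (piC [(nat_lit 35065580), (nat_lit 23538785), (nat_lit 17602610), (nat_lit 11874437)] (nat_lit 5074980)) p15_32_3 (nat_lit 4) (nat_lit 106) (nat_lit 107) = true := by decide +kernel
def p15_32_3_107 : pfC (piC [(nat_lit 35065580), (nat_lit 23538785), (nat_lit 17602610), (nat_lit 11874437)] (nat_lit 5074980)) p15_32_3 (nat_lit 4) (nat_lit 107) (nat_lit 108) = true := by decide +kernel
def p15_32_3_108 : pfC (piC [(nat_lit 35065580), (nat_lit 23538785), (nat_lit 17602610), (nat_lit 11874437)] (nat_lit 5074980)) p15_32_3 (nat_lit 4) (nat_lit 108) (nat_lit 109) = true := by decide +kernel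
def p15_32_3_109 : pfC (piC [(nat_lit 35065580), (nat_lit 23538785), (nat_lit 17602610), (nat_lit 11874437)] (nat_lit 5074980)) p15_32_3 (nat_lit 4) (nat_lit 109) (nat_lit 110) = true := by decide +kernel
def p15_32_3_110 : pfC (piC [(nat_lit 35065580), (nat_lit 23538785), (nat_lit 17602610), (nat_lit 11874437)] (nat_lit 5074980)) p15_32_3 (nat_lit 4) (nat_lit 110) (nat_lit 111) = true := by decide +kernel
def p15_32_3_111 : pfC (piC [(nat_lit 35065580), (nat_lit 23538785), (nat_lit 17602610), (nat_lit 11874437)] (nat_lit 5074980)) p15_32_3 (nat_lit 4) (nat_lit 111) (nat_lit 112) = true := by decide +kernel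
def p15_32_3_112 : pfC (piC [(nat_lit 35065580), (nat_lit 23538785), (nat_lit 17602610), (nat_lit 11874437)] (nat_lit 5074980)) p15_32_3 (nat_lit 4) (nat_lit 112) (nat_lit 113) = true := by decide +kernel
def p15_32_3_113 : pfC (piC [(nat_lit 35065580), (nat_lit 23538785), (nat_lit 17602610), (nat_lit 11874437)] (nat_lit 5074980)) p15_32_3 (nat_lit 4) (nat_lit 113) (nat_lit 114) = true := by decide +kernel
def p15_32_3_114 : pfC (piC [(nat_lit 35065580), (nat_lit 23538785), (nat_lit 17602610), (nat_lit 11874437)] (nat_lit 5074980)) p15_32_3 (nat_lit 4) (nat_lit 114) (nat_lit 115) = true := by decide +kernel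
def p15_32_3_115 : pfC (piC [(nat_lit 35065580), (nat_lit 23538785), (nat_lit 17602610), (nat_lit 11874437)] (nat_lit 5074980)) p15_32_3 (nat_lit 4) (nat_lit 115) (nat_lit 116) = true := by decide +kernel
def p15_32_3_116 : pfC (piC [(nat_lit 35065580), (nat_lit 23538785), (nat_lit 17602610), (nat_lit 11874437)] (nat_lit 5074980)) p15_32_3 (nat_lit 4) (nat_lit 116) (nat_lit 117) = true := by decide +kernel
def p15_32_3_117 : pfC (piC [(nat_lit 35065580), (nat_lit 23538785), (nat_lit 17602610), (nat_lit 11874437)] (nat_lit 5074980)) p15_32_3 (nat_lit 4) (nat_lit 117) (nat_lit 118) = true := by decide +kernel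
def p15_32_3_118 : pfC (piC [(nat_lit 35065580), (nat_lit 23538785), (nat_lit 17602610), (nat_lit 11874437)] (nat_lit 5074980)) p15_32_3 (nat_lit 4) (nat_lit 118) (nat_lit 119) = true := by decide +kernel
def p15_32_3_119 : pfC (piC [(nat_lit 35065580), (nat_lit 23538785), (nat_lit 17602610), (nat_lit 11874437)] (nat_lit 5074980)) p15_32_3 (nat_lit 4) (nat_lit 119) (nat_lit 120) = true := by decide +kernel
def p15_32_3_120 : pfC (piC [(nat_lit 35065580), (nat_lit 23538785), (nat_lit 17602610), (nat_lit 11874437)] (nat_lit 5074980)) p15_32_3 (nat_lit 4) (nat_lit 120) (nat_lit 121) = true := by decide +kernel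
def p15_32_3_121 : pfC (piC [(nat_lit 35065580), (nat_lit 23538785), (nat_lit 17602610), (nat_lit 11874437)] (nat_lit 5074980)) p15_32_3 (nat_lit 4) (nat_lit 121) (nat_lit 122) = true := by decide +kernel
def p15_32_3_122 : pfC (piC [(nat_lit 35065580), (nat_lit 23538785), (nat_lit 17602610), (nat_lit 11874437)] (nat_lit 5074980)) p15_32_3 (nat_lit 4) (nat_lit 122) (nat_lit 123) = true := by decide +kernel
def p15_32_3_123 : pfC (piC [(nat_lit 35065580), (nat_lit 23538785), (nat_lit 17602610), (nat_lit 11874437)] (nat_lit 5074980)) p15_32_3 (nat_lit 4) (nat_lit 123) (nat_lit 124) = true := by decide +kernel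
def p15_32_3_124 : pfC (piC [(nat_lit 35065580), (nat_lit 23538785), (nat_lit 17602610), (nat_lit 11874437)] (nat_lit 5074980)) p15_32_3 (nat_lit 4) (nat_lit 124) (nat_lit 125) = true := by decide +kernel
def p15_32_3_125 : pfC (piC [(nat_lit 35065580), (nat_lit 23538785), (nat_lit 17602610), (nat_lit 11874437)] (nat_lit 5074980)) p15_32_3 (nat_lit 4) (nat_lit 125) (nat_lit 126) = true := by decide +kernel
def p15_32_3_126 : pfC (piC [(nat_lit 35065580), (nat_lit 23538785), (nat_lit 17602610), (nat_lit 11874437)] (nat_lit 5074980)) p15_32_3 (nat_lit 4) (nat_lit 126) (nat_lit 127) = true := by decide +kernel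
def p15_32_3_127 : pfC (piC [(nat_lit 35065580), (nat_lit 23538785), (nat_lit 17602610), (nat_lit 11874437)] (nat_lit 5074980)) p15_32_3 (nat_lit 4) (nat_lit 127) (nat_lit 128) = true := by decide +kernel
def p15_32_3_128 : pfC (piC [(nat_lit 35065580), (nat_lit 23538785), (nat_lit 17602610), (nat_lit 11874437)] (nat_lit 5074980)) p15_32_3 (nat_lit 4) (nat_lit 128) (nat_lit 129) = true := by decide +kernel
def p15_32_3_129 : pfC (piC [(nat_lit 35065580), (nat_lit 23538785), (nat_lit 17602610), (nat_lit 11874437)] (nat_lit 5074980)) p15_32_3 (nat_lit 4) (nat_lit 129) (nat_lit 130) = true := by decide +kernel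
def p15_32_3_130 : pfC (piC [(nat_lit 35065580), (nat_lit 23538785), (nat_lit 17602610), (nat_lit 11874437)] (nat_lit 5074980)) p15_32_3 (nat_lit 4) (nat_lit 130) (nat_lit 131) = true := by decide +kernel
def p15_32_3_131 : pfC (piC [(nat_lit 35065580), (nat_lit 23538785), (nat_lit 17602610), (nat_lit 11874437)] (nat_lit 5074980)) p15_32_3 (nat_lit 4) (nat_lit 131) (nat_lit 132) = true := by decide +kernel
def p15_32_3_132 : pfC (piC [(nat_lit 35065580), (nat_lit 23538785), (nat_lit 17602610), (nat_lit 11874437)] (nat_lit 5074980)) p15_32_3 (nat_lit 4) (nat_lit 132) (nat_lit 133) = true := by decide +kernel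
def p15_32_3_133 : pfC (piC [(nat_lit 35065580), (nat_lit 23538785), (nat_lit 17602610), (nat_lit 11874437)] (nat_lit 5074980)) p15_32_3 (nat_lit 4) (nat_lit 133) (nat_lit 134) = true := by decide +kernel
def p15_32_3_134 : pfC (piC [(nat_lit 35065580), (nat_lit 23538785), (nat_lit 17602610), (nat_lit 11874437)] (nat_lit 5074980)) p15_32_3 (nat_lit 4) (nat_lit 134) (nat_lit 135) = true := by decide +kernel
def p15_32_3_135 : pfC (piC [(nat_lit 35065580), (nat_lit 23538785), (nat_lit 17602610), (nat_lit 11874437)] (nat_lit 5074980)) p15_32_3 (nat_lit 4) (nat_lit 135) (nat_lit 136) = true := by decide +kernel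
def p15_32_3_136 : pfC (piC [(nat_lit 35065580), (nat_lit 23538785), (nat_lit 17602610), (nat_lit 11874437)] (nat_lit 5074980)) p15_32_3 (nat_lit 4) (nat_lit 136) (nat_lit 137) = true := by decide +kernel
def p15_32_3_137 : pfC (piC [(nat_lit 35065580), (nat_lit 23538785), (nat_lit 17602610), (nat_lit 11874437)] (nat_lit 5074980)) p15_32_3 (nat_lit 4) (nat_lit 137) (nat_lit 138) = true := by decide +kernel
def p15_32_3_138 : pfC (piC [(nat_lit 35065580), (nat_lit 23538785), (nat_lit 17602610), (nat_lit 11874437)] (nat_lit 5074980)) p15_32_3 (nat_lit 4) (nat_lit 138) (nat_lit 139) = true := by decide +kernel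
def p15_32_3_139 : pfC (piC [(nat_lit 35065580), (nat_lit 23538785), (nat_lit 17602610), (nat_lit 11874437)] (nat_lit 5074980)) p15_32_3 (nat_lit 4) (nat_lit 139) (nat_lit 140) = true := by decide +kernel
def p15_32_3_140 : pfC (piC [(nat_lit 35065580), (nat_lit 23538785), (nat_lit 17602610), (nat_lit 11874437)] (nat_lit 5074980)) p15_32_3 (nat_lit 4) (nat_lit 140) (nat_lit 141) = true := by decide +kernel
def p15_32_3_141 : pfC (piC [(nat_lit 35065580), (nat_lit 23538785), (nat_lit 17602610), (nat_lit 11874437)] (nat_lit 5074980)) p15_32_3 (nat_lit 4) (nat_lit 141) (nat_lit 142) = true := by decide +kernel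
def p15_32_3_142 : pfC (piC [(nat_lit 35065580), (nat_lit 23538785), (nat_lit 17602610), (nat_lit 11874437)] (nat_lit 5074980)) p15_32_3 (nat_lit 4) (nat_lit 142) (nat_lit 143) = true := by decide +kernel
def p15_32_3_143 : pfC (piC [(nat_lit 35065580), (nat_lit 23538785), (nat_lit 17602610), (nat_lit 11874437)] (nat_lit 5074980)) p15_32_3 (nat_lit 4) (nat_lit 143) (nat_lit 144) = true := by decide +kernel
def p15_32_3_144 : pfC (piC [(nat_lit 35065580), (nat_lit 23538785), (nat_lit 17602610), (nat_lit 11874437)] (nat_lit 5074980)) p15_32_3 (nat_lit 4) (nat_lit 144) (nat_lit 145) = true := by decide +kernel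
def p15_32_3_145 : pfC (piC [(nat_lit 35065580), (nat_lit 23538785), (nat_lit 17602610), (nat_lit 11874437)] (nat_lit 5074980)) p15_32_3 (nat_lit 4) (nat_lit 145) (nat_lit 146) = true := by decide +kernel
def p15_32_3_146 : pfC (piC [(nat_lit 35065580), (nat_lit 23538785), (nat_lit 17602610), (nat_lit 11874437)] (nat_lit 5074980)) p15_32_3 (nat_lit 4) (nat_lit 146) (nat_lit 147) = true := by decide +kernel
def p15_32_3_147 : pfC (piC [(nat_lit 35065580), (nat_lit 23538785), (nat_lit 17602610), (nat_lit 11874437)] (nat_lit 5074980)) p15_32_3 (nat_lit 4) (nat_lit 147) (nat_lit 148) = true := by decide +kernel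
def p15_32_3_148 : pfC (piC [(nat_lit 35065580), (nat_lit 23538785), (nat_lit 17602610), (nat_lit 11874437)] (nat_lit 5074980)) p15_32_3 (nat_lit 4) (nat_lit 148) (nat_lit 149) = true := by decide +kernel
def p15_32_3_149 : pfC (piC [(nat_lit 35065580), (nat_lit 23538785), (nat_lit 17602610), (nat_lit 11874437)] (nat_lit 5074980)) p15_32_3 (nat_lit 4) (nat_lit 149) (nat_lit 150) = true := by decide +kernel
def p15_32_3_150 : pfC (piC [(nat_lit 35065580), (nat_lit 23538785), (nat_lit 17602610), (nat_lit 11874437)] (nat_lit 5074980)) p15_32_3 (nat_lit 4) (nat_lit 150) (nat_lit 151) = true := by decide +kernel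
def p15_32_3_151 : pfC (piC [(nat_lit 35065580), (nat_lit 23538785), (nat_lit 17602610), (nat_lit 11874437)] (nat_lit 5074980)) p15_32_3 (nat_lit 4) (nat_lit 151) (nat_lit 152) = true := by decide +kernel
def p15_32_3_152 : pfC (piC [(nat_lit 35065580), (nat_lit 23538785), (nat_lit 17602610), (nat_lit 11874437)] (nat_lit 5074980)) p15_32_3 (nat_lit 4) (nat_lit 152) (nat_lit 153) = true := by decide +kernel
def p15_32_3_153 : pfC (piC [(nat_lit 35065580), (nat_lit 23538785), (nat_lit 17602610), (nat_lit 11874437)] (nat_lit 5074980)) p15_32_3 (nat_lit 4) (nat_lit 153) (nat_lit 154) = true := by decide +kernel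
def p15_32_3_154 : pfC (piC [(nat_lit 35065580), (nat_lit 23538785), (nat_lit 17602610), (nat_lit 11874437)] (nat_lit 5074980)) p15_32_3 (nat_lit 4) (nat_lit 154) (nat_lit 155) = true := by decide +kernel
def p15_32_3_155 : pfC (piC [(nat_lit 35065580), (nat_lit 23538785), (nat_lit 17602610), (nat_lit 11874437)] (nat_lit 5074980)) p15_32_3 (nat_lit 4) (nat_lit 155) (nat_lit 156) = true := by decide +kernel
def p15_32_3_156 : pfC (piC [(nat_lit 35065580), (nat_lit 23538785), (nat_lit 17602610), (nat_lit 11874437)] (nat_lit 5074980)) p15_32_3 (nat_lit 4) (nat_lit 156) (nat_lit 157) = true := by decide +kernel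
def p15_32_3_157 : pfC (piC [(nat_lit 35065580), (nat_lit 23538785), (nat_lit 17602610), (nat_lit 11874437)] (nat_lit 5074980)) p15_32_3 (nat_lit 4) (nat_lit 157) (nat_lit 158) = true := by decide +kernel
def p15_32_3_158 : pfC (piC [(nat_lit 35065580), (nat_lit 23538785), (nat_lit 17602610), (nat_lit 11874437)] (nat_lit 5074980)) p15_32_3 (nat_lit 4) (nat_lit 158) (nat_lit 159) = true := by decide +kernel
def p15_32_3_159 : pfC (piC [(nat_lit 35065580), (nat_lit 23538785), (nat_lit 17602610), (nat_lit 11874437)] (nat_lit 5074980)) p15_32_3 (nat_lit 4) (nat_lit 159) (nat_lit 160) = true := by decide +kernel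
def p15_32_3_160 : pfC (piC [(nat_lit 35065580), (nat_lit 23538785), (nat_lit 17602610), (nat_lit 11874437)] (nat_lit 5074980)) p15_32_3 (nat_lit 4) (nat_lit 160) (nat_lit 161) = true := by decide +kernel
def p15_32_3_161 : pfC (piC [(nat_lit 35065580), (nat_lit 23538785), (nat_lit 17602610), (nat_lit 11874437)] (nat_lit 5074980)) p15_32_3 (nat_lit 4) (nat_lit 161) (nat_lit 162) = true := by decide +kernel
def p15_32_3_162 : pfC (piC [(nat_lit 35065580), (nat_lit 23538785), (nat_lit 17602610), (nat_lit 11874437)] (nat_lit 5074980)) p15_32_3 (nat_lit 4) (nat_lit 162) (nat_lit 163) = true := by decide +kernel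
def p15_32_3_163 : pfC (piC [(nat_lit 35065580), (nat_lit 23538785), (nat_lit 17602610), (nat_lit 11874437)] (nat_lit 5074980)) p15_32_3 (nat_lit 4) (nat_lit 163) (nat_lit 164) = true := by decide +kernel
def p15_32_3_164 : pfC (piC [(nat_lit 35065580), (nat_lit 23538785), (nat_lit 17602610), (nat_lit 11874437)] (nat_lit 5074980)) p15_32_3 (nat_lit 4) (nat_lit 164) (nat_lit 165) = true := by decide +kernel
def p15_32_3_165 : pfC (piC [(nat_lit 35065580), (nat_lit 23538785), (nat_lit 17602610), (nat_lit 11874437)] (nat_lit 5074980)) p15_32_3 (nat_lit 4) (nat_lit 165) (nat_lit 166) = true := by decide +kernel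
def p15_32_3_166 : pfC (piC [(nat_lit 35065580), (nat_lit 23538785), (nat_lit 17602610), (nat_lit 11874437)] (nat_lit 5074980)) p15_32_3 (nat_lit 4) (nat_lit 166) (nat_lit 167) = true := by decide +kernel
def p15_32_3_167 : pfC (piC [(nat_lit 35065580), (nat_lit 23538785), (nat_lit 17602610), (nat_lit 11874437)] (nat_lit 5074980)) p15_32_3 (nat_lit 4) (nat_lit 167) (nat_lit 168) = true := by decide +kernel
def p15_32_3_168 : pfC (piC [(nat_lit 35065580), (nat_lit 23538785), (nat_lit 17602610), (nat_lit 11874437)] (nat_lit 5074980)) p15_32_3 (nat_lit 4) (nat_lit 168) (nat_lit 169) = true := by decide +kernel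
def p15_32_3_169 : pfC (piC [(nat_lit 35065580), (nat_lit 23538785), (nat_lit 17602610), (nat_lit 11874437)] (nat_lit 5074980)) p15_32_3 (nat_lit 4) (nat_lit 169) (nat_lit 170) = true := by decide +kernel
def p15_32_3_170 : pfC (piC [(nat_lit 35065580), (nat_lit 23538785), (nat_lit 17602610), (nat_lit 11874437)] (nat_lit 5074980)) p15_32_3 (nat_lit 4) (nat_lit 170) (nat_lit 171) = true := by decide +kernel
def p15_32_3_171 : pfC (piC [(nat_lit 35065580), (nat_lit 23538785), (nat_lit 17602610), (nat_lit 11874437)] (nat_lit 5074980)) p15_32_3 (nat_lit 4) (nat_lit 171) (nat_lit 172) = true := by decide +kernel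
def p15_32_3_172 : pfC (piC [(nat_lit 35065580), (nat_lit 23538785), (nat_lit 17602610), (nat_lit 11874437)] (nat_lit 5074980)) p15_32_3 (nat_lit 4) (nat_lit 172) (nat_lit 173) = true := by decide +kernel
def p15_32_3_173 : pfC (piC [(nat_lit 35065580), (nat_lit 23538785), (nat_lit 17602610), (nat_lit 11874437)] (nat_lit 5074980)) p15_32_3 (nat_lit 4) (nat_lit 173) (nat_lit 174) = true := by decide +kernel
def p15_32_3_174 : pfC (piC [(nat_lit 35065580), (nat_lit 23538785), (nat_lit 17602610), (nat_lit 11874437)] (nat_lit 5074980)) p15_32_3 (nat_lit 4) (nat_lit 174) (nat_lit 175) = true := by decide +kernel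
def p15_32_3_175 : pfC (piC [(nat_lit 35065580), (nat_lit 23538785), (nat_lit 17602610), (nat_lit 11874437)] (nat_lit 5074980)) p15_32_3 (nat_lit 4) (nat_lit 175) (nat_lit 176) = true := by decide +kernel
def p15_32_3_176 : pfC (piC [(nat_lit 35065580), (nat_lit 23538785), (nat_lit 17602610), (nat_lit 11874437)] (nat_lit 5074980)) p15_32_3 (nat_lit 4) (nat_lit 176) (nat_lit 177) = true := by decide +kernel
def p15_32_3_177 : pfC (piC [(nat_lit 35065580), (nat_lit 23538785), (nat_lit 17602610), (nat_lit 11874437)] (nat_lit 5074980)) p15_32_3 (nat_lit 4) (nat_lit 177) (nat_lit 178) = true := by decide +kernel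
def p15_32_3_178 : pfC (piC [(nat_lit 35065580), (nat_lit 23538785), (nat_lit 17602610), (nat_lit 11874437)] (nat_lit 5074980)) p15_32_3 (nat_lit 4) (nat_lit 178) (nat_lit 179) = true := by decide +kernel
def p15_32_3_179 : pfC (piC [(nat_lit 35065580), (nat_lit 23538785), (nat_lit 17602610), (nat_lit 11874437)] (nat_lit 5074980)) p15_32_3 (nat_lit 4) (nat_lit 179) (nat_lit 180) = true := by decide +kernel
def p15_32_3_180 : pfC (piC [(nat_lit 35065580), (nat_lit 23538785), (nat_lit 17602610), (nat_lit 11874437)] (nat_lit 5074980)) p15_32_3 (nat_lit 4) (nat_lit 180) (nat_lit 181) = true := by decide +kernel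
def p15_32_3_181 : pfC (piC [(nat_lit 35065580), (nat_lit 23538785), (nat_lit 17602610), (nat_lit 11874437)] (nat_lit 5074980)) p15_32_3 (nat_lit 4) (nat_lit 181) (nat_lit 182) = true := by decide +kernel
def p15_32_3_182 : pfC (piC [(nat_lit 35065580), (nat_lit 23538785), (nat_lit 17602610), (nat_lit 11874437)] (nat_lit 5074980)) p15_32_3 (nat_lit 4) (nat_lit 182) (nat_lit 183) = true := by decide +kernel
def p15_32_3_183 : pfC (piC [(nat_lit 35065580), (nat_lit 23538785), (nat_lit 17602610), (nat_lit 11874437)] (nat_lit 5074980)) p15_32_3 (nat_lit 4) (nat_lit 183) (nat_lit 184) = true := by decide +kernel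
def p15_32_3_184 : pfC (piC [(nat_lit 35065580), (nat_lit 23538785), (nat_lit 17602610), (nat_lit 11874437)] (nat_lit 5074980)) p15_32_3 (nat_lit 4) (nat_lit 184) (nat_lit 185) = true := by decide +kernel
def p15_32_3_185 : pfC (piC [(nat_lit 35065580), (nat_lit 23538785), (nat_lit 17602610), (nat_lit 11874437)] (nat_lit 5074980)) p15_32_3 (nat_lit 4) (nat_lit 185) (nat_lit 186) = true := by decide +kernel
def p15_32_3_186 : pfC (piC [(nat_lit 35065580), (nat_lit 23538785), (nat_lit 17602610), (nat_lit 11874437)] (nat_lit 5074980)) p15_32_3 (nat_lit 4) (nat_lit 186) (nat_lit 187) = true := by decide +kernel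
def p15_32_3_187 : pfC (piC [(nat_lit 35065580), (nat_lit 23538785), (nat_lit 17602610), (nat_lit 11874437)] (nat_lit 5074980)) p15_32_3 (nat_lit 4) (nat_lit 187) (nat_lit 188) = true := by decide +kernel
def p15_32_3_188 : pfC (piC [(nat_lit 35065580), (nat_lit 23538785), (nat_lit 17602610), (nat_lit 11874437)] (nat_lit 5074980)) p15_32_3 (nat_lit 4) (nat_lit 188) (nat_lit 189) = true := by decide +kernel
def p15_32_3_189 : pfC (piC [(nat_lit 35065580), (nat_lit 23538785), (nat_lit 17602610), (nat_lit 11874437)] (nat_lit 5074980)) p15_32_3 (nat_lit 4) (nat_lit 189) (nat_lit 190) = true := by decide +kernel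
def p15_32_3_190 : pfC (piC [(nat_lit 35065580), (nat_lit 23538785), (nat_lit 17602610), (nat_lit 11874437)] (nat_lit 5074980)) p15_32_3 (nat_lit 4) (nat_lit 190) (nat_lit 191) = true := by decide +kernel
def p15_32_3_191 : pfC (piC [(nat_lit 35065580), (nat_lit 23538785), (nat_lit 17602610), (nat_lit 11874437)] (nat_lit 5074980)) p15_32_3 (nat_lit 4) (nat_lit 191) (nat_lit 192) = true := by decide +kernel
def p15_32_3_192 : pfC (piC [(nat_lit 35065580), (nat_lit 23538785), (nat_lit 17602610), (nat_lit 11874437)] (nat_lit 5074980)) p15_32_3 (nat_lit 4) (nat_lit 192) (nat_lit 193) = true := by decide +kernel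
def p15_32_3_193 : pfC (piC [(nat_lit 35065580), (nat_lit 23538785), (nat_lit 17602610), (nat_lit 11874437)] (nat_lit 5074980)) p15_32_3 (nat_lit 4) (nat_lit 193) (nat_lit 194) = true := by decide +kernel
def p15_32_3_194 : pfC (piC [(nat_lit 35065580), (nat_lit 23538785), (nat_lit 17602610), (nat_lit 11874437)] (nat_lit 5074980)) p15_32_3 (nat_lit 4) (nat_lit 194) (nat_lit 195) = true := by decide +kernel
def p15_32_3_195 : pfC (piC [(nat_lit 35065580), (nat_lit 23538785), (nat_lit 17602610), (nat_lit 11874437)] (nat_lit 5074980)) p15_32_3 (nat_lit 4) (nat_lit 195) (nat_lit 196) = true := by decide +kernel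
def p15_32_3_196 : pfC (piC [(nat_lit 35065580), (nat_lit 23538785), (nat_lit 17602610), (nat_lit 11874437)] (nat_lit 5074980)) p15_32_3 (nat_lit 4) (nat_lit 196) (nat_lit 197) = true := by decide +kernel
def p15_32_3_197 : pfC (piC [(nat_lit 35065580), (nat_lit 23538785), (nat_lit 17602610), (nat_lit 11874437)] (nat_lit 5074980)) p15_32_3 (nat_lit 4) (nat_lit 197) (nat_lit 198) = true := by decide +kernel
def p15_32_3_198 : pfC (piC [(nat_lit 35065580), (nat_lit 23538785), (nat_lit 17602610), (nat_lit 11874437)] (nat_lit 5074980)) p15_32_3 (nat_lit 4) (nat_lit 198) (nat_lit 199) = true := by decide +kernel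
def p15_32_3_199 : pfC (piC [(nat_lit 35065580), (nat_lit 23538785), (nat_lit 17602610), (nat_lit 11874437)] (nat_lit 5074980)) p15_32_3 (nat_lit 4) (nat_lit 199) (nat_lit 200) = true := by decide +kernel
def p15_32_3_200 : pfC (piC [(nat_lit 35065580), (nat_lit 23538785), (nat_lit 17602610), (nat_lit 11874437)] (nat_lit 5074980)) p15_32_3 (nat_lit 4) (nat_lit 200) (nat_lit 201) = true := by decide +kernel
def p15_32_3_201 : pfC (piC [(nat_lit 35065580), (nat_lit 23538785), (nat_lit 17602610), (nat_lit 11874437)] (nat_lit 5074980)) p15_32_3 (nat_lit 4) (nat_lit 201) (nat_lit 202) = true := by decide +kernel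
def p15_32_3_202 : pfC (piC [(nat_lit 35065580), (nat_lit 23538785), (nat_lit 17602610), (nat_lit 11874437)] (nat_lit 5074980)) p15_32_3 (nat_lit 4) (nat_lit 202) (nat_lit 203) = true := by decide +kernel
def p15_32_3_203 : pfC (piC [(nat_lit 35065580), (nat_lit 23538785), (nat_lit 17602610), (nat_lit 11874437)] (nat_lit 5074980)) p15_32_3 (nat_lit 4) (nat_lit 203) (nat_lit 204) = true := by decide +kernel
def p15_32_3_204 : pfC (piC [(nat_lit 35065580), (nat_lit 23538785), (nat_lit 17602610), (nat_lit 11874437)] (nat_lit 5074980)) p15_32_3 (nat_lit 4) (nat_lit 204) (nat_lit 205) = true := by decide +kernel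
def p15_32_3_205 : pfC (piC [(nat_lit 35065580), (nat_lit 23538785), (nat_lit 17602610), (nat_lit 11874437)] (nat_lit 5074980)) p15_32_3 (nat_lit 4) (nat_lit 205) (nat_lit 206) = true := by decide +kernel
def p15_32_3_206 : pfC (piC [(nat_lit 35065580), (nat_lit 23538785), (nat_lit 17602610), (nat_lit 11874437)] (nat_lit 5074980)) p15_32_3 (nat_lit 4) (nat_lit 206) (nat_lit 207) = true := by decide +kernel
def p15_32_3_207 : pfC (piC [(nat_lit 35065580), (nat_lit 23538785), (nat_lit 17602610), (nat_lit 11874437)] (nat_lit 5074980)) p15_32_3 (nat_lit 4) (nat_lit 207) (nat_lit 208) = true := by decide +kernel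
def p15_32_3_208 : pfC (piC [(nat_lit 35065580), (nat_lit 23538785), (nat_lit 17602610), (nat_lit 11874437)] (nat_lit 5074980)) p15_32_3 (nat_lit 4) (nat_lit 208) (nat_lit 209) = true := by decide +kernel
def p15_32_3_209 : pfC (piC [(nat_lit 35065580), (nat_lit 23538785), (nat_lit 17602610), (nat_lit 11874437)] (nat_lit 5074980)) p15_32_3 (nat_lit 4) (nat_lit 209) (nat_lit 210) = true := by decide +kernel
def p15_32_3_210 : pfC (piC [(nat_lit 35065580), (nat_lit 23538785), (nat_lit 17602610), (nat_lit 11874437)] (nat_lit 5074980)) p15_32_3 (nat_lit 4) (nat_lit 210) (nat_lit 211) = true := by decide +kernel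
def p15_32_3_211 : pfC (piC [(nat_lit 35065580), (nat_lit 23538785), (nat_lit 17602610), (nat_lit 11874437)] (nat_lit 5074980)) p15_32_3 (nat_lit 4) (nat_lit 211) (nat_lit 212) = true := by decide +kernel
def p15_32_3_212 : pfC (piC [(nat_lit 35065580), (nat_lit 23538785), (nat_lit 17602610), (nat_lit 11874437)] (nat_lit 5074980)) p15_32_3 (nat_lit 4) (nat_lit 212) (nat_lit 213) = true := by decide +kernel
def p15_32_3_213 : pfC (piC [(nat_lit 35065580), (nat_lit 23538785), (nat_lit 17602610), (nat_lit 11874437)] (nat_lit 5074980)) p15_32_3 (nat_lit 4) (nat_lit 213) (nat_lit 214) = true := by decide +kernel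
def p15_32_3_214 : pfC (piC [(nat_lit 35065580), (nat_lit 23538785), (nat_lit 17602610), (nat_lit 11874437)] (nat_lit 5074980)) p15_32_3 (nat_lit 4) (nat_lit 214) (nat_lit 215) = true := by decide +kernel
def p15_32_3_215 : pfC (piC [(nat_lit 35065580), (nat_lit 23538785), (nat_lit 17602610), (nat_lit 11874437)] (nat_lit 5074980)) p15_32_3 (nat_lit 4) (nat_lit 215) (nat_lit 216) = true := by decide +kernel
def p15_32_3_216 : pfC (piC [(nat_lit 35065580), (nat_lit 23538785), (nat_lit 17602610), (nat_lit 11874437)] (nat_lit 5074980)) p15_32_3 (nat_lit 4) (nat_lit 216) (nat_lit 217) = true := by decide +kernel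
def p15_32_3_217 : pfC (piC [(nat_lit 35065580), (nat_lit 23538785), (nat_lit 17602610), (nat_lit 11874437)] (nat_lit 5074980)) p15_32_3 (nat_lit 4) (nat_lit 217) (nat_lit 218) = true := by decide +kernel
def p15_32_3_218 : pfC (piC [(nat_lit 35065580), (nat_lit 23538785), (nat_lit 17602610), (nat_lit 11874437)] (nat_lit 5074980)) p15_32_3 (nat_lit 4) (nat_lit 218) (nat_lit 219) = true := by decide +kernel
def p15_32_3_219 : pfC (piC [(nat_lit 35065580), (nat_lit 23538785), (nat_lit 17602610), (nat_lit 11874437)] (nat_lit 5074980)) p15_32_3 (nat_lit 4) (nat_lit 219) (nat_lit 220) = true := by decide +kernel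
def p15_32_3_220 : pfC (piC [(nat_lit 35065580), (nat_lit 23538785), (nat_lit 17602610), (nat_lit 11874437)] (nat_lit 5074980)) p15_32_3 (nat_lit 4) (nat_lit 220) (nat_lit 221) = true := by decide +kernel
def p15_32_3_221 : pfC (piC [(nat_lit 35065580), (nat_lit 23538785), (nat_lit 17602610), (nat_lit 11874437)] (nat_lit 5074980)) p15_32_3 (nat_lit 4) (nat_lit 221) (nat_lit 222) = true := by decide +kernel
def p15_32_3_222 : pfC (piC [(nat_lit 35065580), (nat_lit 23538785), (nat_lit 17602610), (nat_lit 11874437)] (nat_lit 5074980)) p15_32_3 (nat_lit 4) (nat_lit 222) (nat_lit 223) = true := by decide +kernel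
def p15_32_3_223 : pfC (piC [(nat_lit 35065580), (nat_lit 23538785), (nat_lit 17602610), (nat_lit 11874437)] (nat_lit 5074980)) p15_32_3 (nat_lit 4) (nat_lit 223) (nat_lit 224) = true := by decide +kernel
def p15_32_3_224 : pfC (piC [(nat_lit 35065580), (nat_lit 23538785), (nat_lit 17602610), (nat_lit 11874437)] (nat_lit 5074980)) p15_32_3 (nat_lit 4) (nat_lit 224) (nat_lit 225) = true := by decide +kernel
def p15_32_3_225 : pfC (piC [(nat_lit 35065580), (nat_lit 23538785), (nat_lit 17602610), (nat_lit 11874437)] (nat_lit 5074980)) p15_32_3 (nat_lit 4) (nat_lit 225) (nat_lit 226) = true := by decide +kernel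
def p15_32_3_226 : pfC (piC [(nat_lit 35065580), (nat_lit 23538785), (nat_lit 17602610), (nat_lit 11874437)] (nat_lit 5074980)) p15_32_3 (nat_lit 4) (nat_lit 226) (nat_lit 227) = true := by decide +kernel
def p15_32_3_227 : pfC (piC [(nat_lit 35065580), (nat_lit 23538785), (nat_lit 17602610), (nat_lit 11874437)] (nat_lit 5074980)) p15_32_3 (nat_lit 4) (nat_lit 227) (nat_lit 228) = true := by decide +kernel
def p15_32_3_228 : pfC (piC [(nat_lit 35065580), (nat_lit 23538785), (nat_lit 17602610), (nat_lit 11874437)] (nat_lit 5074980)) p15_32_3 (nat_lit 4) (nat_lit 228) (nat_lit 229) = true := by decide +kernel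
def p15_32_3_229 : pfC (piC [(nat_lit 35065580), (nat_lit 23538785), (nat_lit 17602610), (nat_lit 11874437)] (nat_lit 5074980)) p15_32_3 (nat_lit 4) (nat_lit 229) (nat_lit 230) = true := by decide +kernel
def p15_32_3_230 : pfC (piC [(nat_lit 35065580), (nat_lit 23538785), (nat_lit 17602610), (nat_lit 11874437)] (nat_lit 5074980)) p15_32_3 (nat_lit 4) (nat_lit 230) (nat_lit 231) = true := by decide +kernel
def p15_32_3_231 : pfC (piC [(nat_lit 35065580), (nat_lit 23538785), (nat_lit 17602610), (nat_lit 11874437)] (nat_lit 5074980)) p15_32_3 (nat_lit 4) (nat_lit 231) (nat_lit 232) = true := by decide +kernel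
def p15_32_3_232 : pfC (piC [(nat_lit 35065580), (nat_lit 23538785), (nat_lit 17602610), (nat_lit 11874437)] (nat_lit 5074980)) p15_32_3 (nat_lit 4) (nat_lit 232) (nat_lit 233) = true := by decide +kernel
def p15_32_3_233 : pfC (piC [(nat_lit 35065580), (nat_lit 23538785), (nat_lit 17602610), (nat_lit 11874437)] (nat_lit 5074980)) p15_32_3 (nat_lit 4) (nat_lit 233) (nat_lit 234) = true := by decide +kernel
def p15_32_3_234 : pfC (piC [(nat_lit 35065580), (nat_lit 23538785), (nat_lit 17602610), (nat_lit 11874437)] (nat_lit 5074980)) p15_32_3 (nat_lit 4) (nat_lit 234) (nat_lit 235) = true := by decide +kernel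
def p15_32_3_235 : pfC (piC [(nat_lit 35065580), (nat_lit 23538785), (nat_lit 17602610), (nat_lit 11874437)] (nat_lit 5074980)) p15_32_3 (nat_lit 4) (nat_lit 235) (nat_lit 236) = true := by decide +kernel
def p15_32_3_236 : pfC (piC [(nat_lit 35065580), (nat_lit 23538785), (nat_lit 17602610), (nat_lit 11874437)] (nat_lit 5074980)) p15_32_3 (nat_lit 4) (nat_lit 236) (nat_lit 237) = true := by decide +kernel
def p15_32_3_237 : pfC (piC [(nat_lit 35065580), (nat_lit 23538785), (nat_lit 17602610), (nat_lit 11874437)] (nat_lit 5074980)) p15_32_3 (nat_lit 4) (nat_lit 237) (nat_lit 238) = true := by decide +kernel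
def p15_32_3_238 : pfC (piC [(nat_lit 35065580), (nat_lit 23538785), (nat_lit 17602610), (nat_lit 11874437)] (nat_lit 5074980)) p15_32_3 (nat_lit 4) (nat_lit 238) (nat_lit 239) = true := by decide +kernel
def p15_32_3_239 : pfC (piC [(nat_lit 35065580), (nat_lit 23538785), (nat_lit 17602610), (nat_lit 11874437)] (nat_lit 5074980)) p15_32_3 (nat_lit 4) (nat_lit 239) (nat_lit 240) = true := by decide +kernel
def p15_32_3_240 : pfC (piC [(nat_lit 35065580), (nat_lit 23538785), (nat_lit 17602610), (nat_lit 11874437)] (nat_lit 5074980)) p15_32_3 (nat_lit 4) (nat_lit 240) (nat_lit 241) = true := by decide +kernel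
def p15_32_3_241 : pfC (piC [(nat_lit 35065580), (nat_lit 23538785), (nat_lit 17602610), (nat_lit 11874437)] (nat_lit 5074980)) p15_32_3 (nat_lit 4) (nat_lit 241) (nat_lit 242) = true := by decide +kernel
def p15_32_3_242 : pfC (piC [(nat_lit 35065580), (nat_lit 23538785), (nat_lit 17602610), (nat_lit 11874437)] (nat_lit 5074980)) p15_32_3 (nat_lit 4) (nat_lit 242) (nat_lit 243) = true := by decide +kernel
def p15_32_3_243 : pfC (piC [(nat_lit 35065580), (nat_lit 23538785), (nat_lit 17602610), (nat_lit 11874437)] (nat_lit 5074980)) p15_32_3 (nat_lit 4) (nat_lit 243) (nat_lit 244) = true := by decide +kernel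
def p15_32_3_244 : pfC (piC [(nat_lit 35065580), (nat_lit 23538785), (nat_lit 17602610), (nat_lit 11874437)] (nat_lit 5074980)) p15_32_3 (nat_lit 4) (nat_lit 244) (nat_lit 245) = true := by decide +kernel
def p15_32_3_245 : pfC (piC [(nat_lit 35065580), (nat_lit 23538785), (nat_lit 17602610), (nat_lit 11874437)] (nat_lit 5074980)) p15_32_3 (nat_lit 4) (nat_lit 245) (nat_lit 246) = true := by decide +kernel
def p15_32_3_246 : pfC (piC [(nat_lit 35065580), (nat_lit 23538785), (nat_lit 17602610), (nat_lit 11874437)] (nat_lit 5074980)) p15_32_3 (nat_lit 4) (nat_lit 246) (nat_lit 247) = true := by decide +kernel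
def p15_32_3_247 : pfC (piC [(nat_lit 35065580), (nat_lit 23538785), (nat_lit 17602610), (nat_lit 11874437)] (nat_lit 5074980)) p15_32_3 (nat_lit 4) (nat_lit 247) (nat_lit 248) = true := by decide +kernel
def p15_32_3_248 : pfC (piC [(nat_lit 35065580), (nat_lit 23538785), (nat_lit 17602610), (nat_lit 11874437)] (nat_lit 5074980)) p15_32_3 (nat_lit 4) (nat_lit 248) (nat_lit 249) = true := by decide +kernel
def p15_32_3_249 : pfC (piC [(nat_lit 35065580), (nat_lit 23538785), (nat_lit 17602610), (nat_lit 11874437)] (nat_lit 5074980)) p15_32_3 (nat_lit 4) (nat_lit 249) (nat_lit 250) = true := by decide +kernel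
def p15_32_3_250 : pfC (piC [(nat_lit 35065580), (nat_lit 23538785), (nat_lit 17602610), (nat_lit 11874437)] (nat_lit 5074980)) p15_32_3 (nat_lit 4) (nat_lit 250) (nat_lit 251) = true := by decide +kernel
def p15_32_3_251 : pfC (piC [(nat_lit 35065580), (nat_lit 23538785), (nat_lit 17602610), (nat_lit 11874437)] (nat_lit 5074980)) p15_32_3 (nat_lit 4) (nat_lit 251) (nat_lit 252) = true := by decide +kernel
def p15_32_3_252 : pfC (piC [(nat_lit 35065580), (nat_lit 23538785), (nat_lit 17602610), (nat_lit 11874437)] (nat_lit 5074980)) p15_32_3 (nat_lit 4) (nat_lit 252) (nat_lit 253) = true := by decide +kernel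
def p15_32_3_253 : pfC (piC [(nat_lit 35065580), (nat_lit 23538785), (nat_lit 17602610), (nat_lit 11874437)] (nat_lit 5074980)) p15_32_3 (nat_lit 4) (nat_lit 253) (nat_lit 254) = true := by decide +kernel
def p15_32_3_254 : pfC (piC [(nat_lit 35065580), (nat_lit 23538785), (nat_lit 17602610), (nat_lit 11874437)] (nat_lit 5074980)) p15_32_3 (nat_lit 4) (nat_lit 254) (nat_lit 255) = true := by decide +kernel
def p15_32_3_255 : pfC (piC [(nat_lit 35065580), (nat_lit 23538785), (nat_lit 17602610), (nat_lit 11874437)] (nat_lit 5074980)) p15_32_3 (nat_lit 4) (nat_lit 255) (nat_lit 256) = true := by decide +kernel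
theorem p15_32_3_T : PfS (PiF n15_32.reverse (nat_lit 5074980)) p15_32_3 (nat_lit 4) [] 0 :=
  pftab_of (los := [(nat_lit 35065580), (nat_lit 23538785), (nat_lit 17602610), (nat_lit 11874437)]) (by decide +kernel) (hi := (nat_lit 256)) (PfP.trans (PfP.trans (PfP.trans (PfP.trans (PfP.trans (PfP.trans (PfP.trans (PfP.trans (PfP.trans (PfP.trans (PfP.trans (PfP.trans (PfP.trans (PfP.trans (PfP.trans (PfP.trans (PfP.trans (PfP.trans (PfP.trans (PfP.trans (PfP.trans (PfP.trans (PfP.trans (PfP.trans (PfP.trans (PfP.trans (PfP.trans (PfP.trans (PfP.trans (PfP.trans (PfP.trans (PfP.trans (PfP.trans (PfP.trans (PfP.trans (PfP.trans (PfP.trans (PfP.trans (PfP.trans (PfP.trans (PfP.trans (PfP.trans (PfP.trans (PfP.trans (PfP.trans (PfP.trans (PfP.trans (PfP.trans (PfP.trans (PfP.trans (PfP.trans (PfP.trans (PfP.trans (PfP.trans (PfP.trans (PfP.trans (PfP.trans (PfP.trans (PfP.trans (PfP.trans (PfP.trans (PfP.trans (PfP.trans (PfP.trans (PfP.trans (PfP.trans (PfP.trans (PfP.trans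 (PfP.trans (PfP.trans (PfP.trans (PfP.trans (PfP.trans (PfP.trans (PfP.trans (PfP.trans (PfP.trans (PfP.trans (PfP.trans (PfP.trans (PfP.trans (PfP.trans (PfP.trans (PfP.trans (PfP.trans (PfP.trans (PfP.trans (PfP.trans (PfP.trans (PfP.trans (PfP.trans (PfP.trans (PfP.trans (PfP.trans (PfP.trans (PfP.trans (PfP.trans (PfP.trans (PfP.trans (PfP.trans (PfP.trans (PfP.trans (PfP.trans (PfP.trans (PfP.trans (PfP.trans (PfP.trans (PfP.trans (PfP.trans
 (PfP.trans (PfP.trans (PfP.trans (PfP.trans (PfP.trans (PfP.trans (PfP.trans (PfP.trans (PfP.trans (PfP.trans (PfP.trans (PfP.trans (PfP.trans (PfP.trans (PfP.trans (PfP.trans (PfP.trans (PfP.trans (PfP.trans (PfP.trans (PfP.trans (PfP.trans (PfP.trans (PfP.trans (PfP.trans (PfP.trans (PfP.trans (PfP.trans (PfP.trans (PfP.trans (PfP.trans (PfP.trans (PfP.trans (PfP.trans (PfP.trans (PfP.trans (PfP.trans (PfP.trans (PfP.trans (PfP.trans (PfP.trans (PfP.trans (PfP.trans (PfP.trans (PfP.trans (PfP.trans (PfP.trans (PfP.trans (PfP.trans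 (PfP.trans (PfP.trans (PfP.trans (PfP.trans (PfP.trans (PfP.trans (PfP.trans (PfP.trans (PfP.trans (PfP.trans (PfP.trans (PfP.trans (PfP.trans (PfP.trans (PfP.trans (PfP.trans (PfP.trans (PfP.trans (PfP.trans (PfP.trans (PfP.trans (PfP.trans (PfP.trans (PfP.trans (PfP.trans (PfP.trans (PfP.trans (PfP.trans (PfP.trans (PfP.trans (PfP.trans (PfP.trans (PfP.trans (PfP.trans (PfP.trans (PfP.trans (PfP.trans (PfP.trans (PfP.trans (PfP.trans (PfP.trans (PfP.trans (PfP.trans (PfP.trans (PfP.trans (PfP.trans (PfP.trans (PfP.trans (PfP.trans (PfP.trans (PfP.trans (PfP.trans (PfP.trans (PfP.trans (PfP.trans (PfP.trans (PfP.trans (PfP.trans (PfP.trans (PfP.trans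
 (PfP.trans (PfP.trans (PfP.trans (PfP.trans (PfP.trans (PfP.trans (PfP.trans (PfP.trans (PfP.trans (PfP.trans (PfP.trans (PfP.trans (PfP.trans (PfP.trans (PfP.trans (PfP.trans (PfP.trans (PfP.trans (PfP.trans (PfP.trans (PfP.trans (PfP.trans (PfP.trans (PfP.trans (PfP.trans (PfP.trans (PfP.trans (PfP.trans (PfP.trans (PfP.trans (PfP.trans (PfP.trans (PfP.trans (PfP.trans (PfP.trans (PfP.trans (PfP.trans (pfC_sound p15_32_3_0) (pfC_sound p15_32_3_1)) (pfC_sound p15_32_3_2)) (pfC_sound p15_32_3_3)) (pfC_sound p15_32_3_4)) (pfC_sound p15_32_3_5)) (pfC_sound p15_32_3_6)) (pfC_sound p15_32_3_7)) (pfC_sound p15_32_3_8)) (pfC_sound p15_32_3_9)) (pfC_sound p15_32_3_10)) (pfC_sound p15_32_3_11)) (pfC_sound p15_32_3_12)) (pfC_sound p15_32_3_13)) (pfC_sound p15_32_3_14)) (pfC_sound p15_32_3_15)) (pfC_sound p15_32_3_16)) (pfC_sound p15_32_3_17)) (pfC_sound p15_32_3_18)) (pfC_sound p15_32_3_19)) (pfC_sound p15_32_3_20)) (pfC_sound p15_32_3_21)) (pfC_sound p15_32_3_22)) (pfC_sound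 p15_32_3_23)) (pfC_sound p15_32_3_24)) (pfC_sound p15_32_3_25)) (pfC_sound p15_32_3_26)) (pfC_sound p15_32_3_27)) (pfC_sound p15_32_3_28)) (pfC_sound p15_32_3_29)) (pfC_sound p15_32_3_30)) (pfC_sound p15_32_3_31))
 (pfC_sound p15_32_3_32)) (pfC_sound p15_32_3_33)) (pfC_sound p15_32_3_34)) (pfC_sound p15_32_3_35)) (pfC_sound p15_32_3_36)) (pfC_sound p15_32_3_37)) (pfC_sound p15_32_3_38)) (pfC_sound p15_32_3_39)) (pfC_sound p15_32_3_40)) (pfC_sound p15_32_3_41)) (pfC_sound p15_32_3_42)) (pfC_sound p15_32_3_43)) (pfC_sound p15_32_3_44)) (pfC_sound p15_32_3_45)) (pfC_sound p15_32_3_46)) (pfC_sound p15_32_3_47)) (pfC_sound p15_32_3_48)) (pfC_sound p15_32_3_49)) (pfC_sound p15_32_3_50)) (pfC_sound p15_32_3_51)) (pfC_sound p15_32_3_52)) (pfC_sound p15_32_3_53)) (pfC_sound p15_32_3_54)) (pfC_sound p15_32_3_55)) (pfC_sound p15_32_3_56)) (pfC_sound p15_32_3_57)) (pfC_sound p15_32_3_58)) (pfC_sound p15_32_3_59)) (pfC_sound p15_32_3_60)) (pfC_sound p15_32_3_61)) (pfC_sound p15_32_3_62))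 (pfC_sound p15_32_3_63)) (pfC_sound p15_32_3_64)) (pfC_sound p15_32_3_65)) (pfC_sound p15_32_3_66)) (pfC_sound p15_32_3_67)) (pfC_sound p15_32_3_68)) (pfC_sound p15_32_3_69)) (pfC_sound p15_32_3_70)) (pfC_sound p15_32_3_71)) (pfC_sound p15_32_3_72)) (pfC_sound p15_32_3_73)) (pfC_sound p15_32_3_74)) (pfC_sound p15_32_3_75)) (pfC_sound p15_32_3_76)) (pfC_sound p15_32_3_77)) (pfC_sound p15_32_3_78)) (pfC_sound p15_32_3_79))
 (pfC_sound p15_32_3_80)) (pfC_sound p15_32_3_81)) (pfC_sound p15_32_3_82)) (pfC_sound p15_32_3_83)) (pfC_sound p15_32_3_84)) (pfC_sound p15_32_3_85)) (pfC_sound p15_32_3_86)) (pfC_sound p15_32_3_87)) (pfC_sound p15_32_3_88)) (pfC_sound p15_32_3_89)) (pfC_sound p15_32_3_90)) (pfC_sound p15_32_3_91)) (pfC_sound p15_32_3_92)) (pfC_sound p15_32_3_93)) (pfC_sound p15_32_3_94)) (pfC_sound p15_32_3_95)) (pfC_sound p15_32_3_96)) (pfC_sound p15_32_3_97)) (pfC_sound p15_32_3_98)) (pfC_sound p15_32_3_99)) (pfC_sound p15_32_3_100)) (pfC_sound p15_32_3_101)) (pfC_sound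 p15_32_3_102)) (pfC_sound p15_32_3_103)) (pfC_sound p15_32_3_104)) (pfC_sound p15_32_3_105)) (pfC_sound p15_32_3_106)) (pfC_sound p15_32_3_107)) (pfC_sound p15_32_3_108)) (pfC_sound p15_32_3_109)) (pfC_sound p15_32_3_110)) (pfC_sound p15_32_3_111)) (pfC_sound p15_32_3_112)) (pfC_sound p15_32_3_113)) (pfC_sound p15_32_3_114)) (pfC_sound p15_32_3_115)) (pfC_sound p15_32_3_116)) (pfC_sound p15_32_3_117)) (pfC_sound p15_32_3_118)) (pfC_sound p15_32_3_119)) (pfC_sound p15_32_3_120)) (pfC_sound p15_32_3_121)) (pfC_sound p15_32_3_122)) (pfC_sound p15_32_3_123)) (pfC_sound p15_32_3_124)) (pfC_sound p15_32_3_125)) (pfC_sound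
 p15_32_3_126)) (pfC_sound p15_32_3_127)) (pfC_sound p15_32_3_128)) (pfC_sound p15_32_3_129)) (pfC_sound p15_32_3_130)) (pfC_sound p15_32_3_131)) (pfC_sound p15_32_3_132)) (pfC_sound p15_32_3_133)) (pfC_sound p15_32_3_134)) (pfC_sound p15_32_3_135)) (pfC_sound p15_32_3_136)) (pfC_sound p15_32_3_137)) (pfC_sound p15_32_3_138)) (pfC_sound p15_32_3_139)) (pfC_sound p15_32_3_140)) (pfC_sound p15_32_3_141)) (pfC_sound p15_32_3_142)) (pfC_sound p15_32_3_143)) (pfC_sound p15_32_3_144)) (pfC_sound p15_32_3_145)) (pfC_sound p15_32_3_146)) (pfC_sound p15_32_3_147)) (pfC_sound p15_32_3_148)) (pfC_sound p15_32_3_149)) (pfC_sound p15_32_3_150)) (pfC_sound p15_32_3_151)) (pfC_sound p15_32_3_152)) (pfC_sound p15_32_3_153)) (pfC_sound p15_32_3_154)) (pfC_sound p15_32_3_155)) (pfC_sound p15_32_3_156)) (pfC_sound p15_32_3_157)) (pfC_sound p15_32_3_158)) (pfC_sound p15_32_3_159)) (pfC_sound p15_32_3_160)) (pfC_sound p15_32_3_161)) (pfC_sound p15_32_3_162)) (pfC_sound p15_32_3_163)) (pfC_sound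 p15_32_3_164)) (pfC_sound p15_32_3_165)) (pfC_sound p15_32_3_166)) (pfC_sound p15_32_3_167)) (pfC_sound p15_32_3_168)) (pfC_sound p15_32_3_169)) (pfC_sound p15_32_3_170)) (pfC_sound p15_32_3_171)) (pfC_sound
 p15_32_3_172)) (pfC_sound p15_32_3_173)) (pfC_sound p15_32_3_174)) (pfC_sound p15_32_3_175)) (pfC_sound p15_32_3_176)) (pfC_sound p15_32_3_177)) (pfC_sound p15_32_3_178)) (pfC_sound p15_32_3_179)) (pfC_sound p15_32_3_180)) (pfC_sound p15_32_3_181)) (pfC_sound p15_32_3_182)) (pfC_sound p15_32_3_183)) (pfC_sound p15_32_3_184)) (pfC_sound p15_32_3_185)) (pfC_sound p15_32_3_186)) (pfC_sound p15_32_3_187)) (pfC_sound p15_32_3_188)) (pfC_sound p15_32_3_189)) (pfC_sound p15_32_3_190)) (pfC_sound p15_32_3_191)) (pfC_sound p15_32_3_192)) (pfC_sound p15_32_3_193)) (pfC_sound p15_32_3_194)) (pfC_sound p15_32_3_195)) (pfC_sound p15_32_3_196)) (pfC_sound p15_32_3_197)) (pfC_sound p15_32_3_198)) (pfC_sound p15_32_3_199)) (pfC_sound p15_32_3_200)) (pfC_sound p15_32_3_201)) (pfC_sound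 p15_32_3_202)) (pfC_sound p15_32_3_203)) (pfC_sound p15_32_3_204)) (pfC_sound p15_32_3_205)) (pfC_sound p15_32_3_206)) (pfC_sound p15_32_3_207)) (pfC_sound p15_32_3_208)) (pfC_sound p15_32_3_209)) (pfC_sound p15_32_3_210)) (pfC_sound p15_32_3_211)) (pfC_sound p15_32_3_212)) (pfC_sound p15_32_3_213)) (pfC_sound p15_32_3_214)) (pfC_sound p15_32_3_215)) (pfC_sound p15_32_3_216)) (pfC_sound p15_32_3_217)) (pfC_sound
 p15_32_3_218)) (pfC_sound p15_32_3_219)) (pfC_sound p15_32_3_220)) (pfC_sound p15_32_3_221)) (pfC_sound p15_32_3_222)) (pfC_sound p15_32_3_223)) (pfC_sound p15_32_3_224)) (pfC_sound p15_32_3_225)) (pfC_sound p15_32_3_226)) (pfC_sound p15_32_3_227)) (pfC_sound p15_32_3_228)) (pfC_sound p15_32_3_229)) (pfC_sound p15_32_3_230)) (pfC_sound p15_32_3_231)) (pfC_sound p15_32_3_232)) (pfC_sound p15_32_3_233)) (pfC_sound p15_32_3_234)) (pfC_sound p15_32_3_235)) (pfC_sound p15_32_3_236)) (pfC_sound p15_32_3_237)) (pfC_sound p15_32_3_238)) (pfC_sound p15_32_3_239)) (pfC_sound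 p15_32_3_240)) (pfC_sound p15_32_3_241)) (pfC_sound p15_32_3_242)) (pfC_sound p15_32_3_243)) (pfC_sound p15_32_3_244)) (pfC_sound p15_32_3_245)) (pfC_sound p15_32_3_246)) (pfC_sound p15_32_3_247)) (pfC_sound p15_32_3_248)) (pfC_sound p15_32_3_249)) (pfC_sound p15_32_3_250)) (pfC_sound p15_32_3_251)) (pfC_sound p15_32_3_252)) (pfC_sound p15_32_3_253)) (pfC_sound p15_32_3_254)) (pfC_sound p15_32_3_255)) (by decide +kernel)

def z15_32_3 : zOK yB15_32 (nat_lit 3) (nat_lit 750) (nat_lit 792) (nat_lit 5074980) (nat_lit 4942965) = true := by decide +kernel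
def g15_32_3 : gOK yB15_32.x P15_32 (nat_lit 1397) (q15_32 :: r15_32) (nat_lit 3) (nat_lit 750) (nat_lit 4) (nat_lit 792) (nat_lit 12712500) (nat_lit 12712500) (nat_lit 12712500) (nat_lit 12712500) [(nat_lit 800)] = true := by decide +kernel
def v15_32_3 : ivC P15_32 s15_32 w15_32 n15_32 (nat_lit 4) (nat_lit 4575) (nat_lit 3) (nat_lit 750) f168_1_750 f176_1_750 (nat_lit 4) (nat_lit 792) f168_1_792 f176_1_792 (nat_lit 5074980) (nat_lit 4942965) p15_32_3 = true := by decide +kernel
end CB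
end Pool.Agent.Lib.MP_6947cd_al
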