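import Pool.Agent.Lib.MP_6947cd_al.L.BoxDataB
import Pool.Agent.Lib.MP_6947cd_al.L.TeD1

/-!
Problem MP_6947cd_al (Chollet).  CASE B, rows `j`: boxes (generated).
-/

set_option autoImplicit false
set_option linter.defProp false
set_option maxRecDepth 20000

namespace Pool.Agent.Lib.MP_6947cd_al
namespace CB

open Ent Ent.Pk Fr Fr.WT CA

/-! box `yB15_33` -/

def P15_33 : BQ := ⟨(nat_lit 8), (nat_lit 8), (nat_lit 0), (nat_lit 4), (nat_lit 4), (nat_lit 880), (nat_lit 900), (nat_lit 90), [(nat_lit 180), (nat_lit 330), (nat_lit 650)], (nat_lit 137424000), (nat_lit 16000000), (nat_lit 16000000000)⟩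
def q15_33 : PC := ⟨(nat_lit 1000), [(nat_lit 90000), (nat_lit 180000), (nat_lit 330000), (nat_lit 650000)], (nat_lit 79228162532711081671548469249000000), (nat_lit 15862576000000), (nat_lit 15862576000000), (nat_lit 10000000)⟩
def r15_33 : List PC := [⟨(nat_lit 1316), [(nat_lit 90483), (nat_lit 180863), (nat_lit 331033), (nat_lit 651334)], (nat_lit 79687210506420057208778721879608280), (nat_lit 16313813943040), (nat_lit 16324514562560), (nat_lit 10053667)⟩, ⟨(nat_lit 1878), [(nat_lit 92081), (nat_lit 182276), (nat_lit 336168), (nat_lit 657174)], (nat_lit 80501676017265513606895846395174111), (nat_lit 17030068968320), (nat_lit 17059800436480), (nat_lit 10231223)⟩, ⟨(nat_lit 1231), [(nat_lit 90340), (nat_lit 180686), (nat_lit 330460), (nat_lit 649904)], (nat_lit 79563773029209182780189041585244484), (nat_lit 16192460040640), (nat_lit 16200282328960), (nat_lit 10038112)⟩]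
def s15_33 : List PB := [⟨(nat_lit 26320), (nat_lit 1447728000000), [(nat_lit 180863), (nat_lit 331033), (nat_lit 651334)], (nat_lit 79687210506420057208778721879608280), (nat_lit 1142213720785664), (nat_lit 1142224421405184), (nat_lit 50560)⟩, ⟨(nat_lit 37560), (nat_lit 1473296000000), [(nat_lit 182276), (nat_lit 336168), (nat_lit 657174)], (nat_lit 80501676017265513606895846395174111), (nat_lit 1142929975810944), (nat_lit 1142959707279104), (nat_lit 140480)⟩, ⟨(nat_lit 24620), (nat_lit 1445440000000), [(nat_lit 180686), (nat_lit 330460), (nat_lit 649904)], (nat_lit 79563773029209182780189041585244484), (nat_lit 1142092366883264), (nat_lit 1142100189171584), (nat_lit 36960)⟩]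
def n15_33 : List KN := [⟨(nat_lit 650), (nat_lit 330), (nat_lit 16296408), (nat_lit 6991654)⟩, ⟨(nat_lit 330), (nat_lit 180), (nat_lit 25257288), (nat_lit 16296408)⟩, ⟨(nat_lit 180), (nat_lit 90), (nat_lit 40745421), (nat_lit 25257288)⟩]
def w15_33 : List ℕ := [(nat_lit 50560), (nat_lit 140480), (nat_lit 36960)]
def par15_33 : parC yB15_33 P15_33 s15_33 r15_33 q15_33 n15_33 w15_33 = true := by decide +kernel

def p15_33_0 : PF := (PF.cons (PF.cons (PF.cons (PF.leaf (nat_lit 945688) (nat_lit 3144181) (nat_lit 63964631) (nat_lit 3144181) [(nat_lit 0), (nat_lit 0), (nat_lit 0)]) (PF.cons (PF.leaf (nat_lit 1081855) (nat_lit 214356) (nat_lit 63698449) (nat_lit 3196007) [(nat_lit 214356), (nat_lit 0), (nat_lit 0)]) (PF.cons (PF.leaf (nat_lit 1246849) (nat_lit 235875) (nat_lit 63383204) (nat_lit 3253856) [(nat_lit 235875), (nat_lit 0), (nat_lit 0)]) (PF.cons (PF.leaf (nat_lit 1435106) (nat_lit 255829) (nat_lit 63026002) (nat_lit 3315323) [(nat_lit 255829), (nat_lit 0), (nat_lit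 0)]) (PF.cons (PF.leaf (nat_lit 1644117) (nat_lit 274573) (nat_lit 62631817) (nat_lit 3378702) [(nat_lit 274573), (nat_lit 0), (nat_lit 0)]) (PF.cons (PF.leaf (nat_lit 1872189) (nat_lit 292311) (nat_lit 62204524) (nat_lit 3442730) [(nat_lit 292311), (nat_lit 0), (nat_lit 0)]) (PF.cons (PF.leaf (nat_lit 2117809) (nat_lit 309167) (nat_lit 61747364) (nat_lit 3506446) [(nat_lit 309167), (nat_lit 0), (nat_lit 0)]) (PF.cons (PF.leaf (nat_lit 2379619) (nat_lit 325216) (nat_lit 61263184) (nat_lit 3569112) [(nat_lit 325216), (nat_lit 0), (nat_lit 0)]) (PF.cons (PF.leaf (nat_lit 2656367) (nat_lit 340511) (nat_lit 60754564) (nat_lit 3630157)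
 [(nat_lit 340511), (nat_lit 0), (nat_lit 0)]) (PF.cons (PF.leaf (nat_lit 2946857) (nat_lit 355085) (nat_lit 60223895) (nat_lit 3689143) [(nat_lit 355085), (nat_lit 0), (nat_lit 0)]) (PF.cons (PF.leaf (nat_lit 3249951) (nat_lit 368965) (nat_lit 59673419) (nat_lit 3745735) [(nat_lit 368965), (nat_lit 0), (nat_lit 0)]) (PF.cons (PF.leaf (nat_lit 3564599) (nat_lit 382170) (nat_lit 59105256) (nat_lit 3799678) [(nat_lit 382170), (nat_lit 0), (nat_lit 0)]) (PF.cons (PF.leaf (nat_lit 3889736) (nat_lit 394717) (nat_lit 58521416) (nat_lit 3850789) [(nat_lit 394717), (nat_lit 0), (nat_lit 0)]) (PF.cons (PF.leaf (nat_lit 4224353) (nat_lit 406620) (nat_lit 57923812) (nat_lit 3898936) [(nat_lit 406620), (nat_lit 0), (nat_lit 0)]) (PF.cons (PF.leaf (nat_lit 4567461) (nat_lit 417893) (nat_lit 57314261) (nat_lit 3944036) [(nat_lit 417893), (nat_lit 0), (nat_lit 0)]) (PF.cons PF.nil (PF.cons PF.nil (PF.cons PF.nil PF.nil)))))))))))))))))) (PF.cons (PF.cons (PF.leaf (nat_lit 1588964)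 (nat_lit 1438290) (nat_lit 62255997) (nat_lit 3414524) [(nat_lit 0), (nat_lit 1438290), (nat_lit 0)]) (PF.cons (PF.leaf (nat_lit 1780447) (nat_lit 279702) (nat_lit 61882903) (nat_lit 3467941) [(nat_lit 279702), (nat_lit
 1478265), (nat_lit 0)]) (PF.cons (PF.leaf (nat_lit 1994987) (nat_lit 297646) (nat_lit 61471192) (nat_lit 3523308) [(nat_lit 297646), (nat_lit 1519018), (nat_lit 0)]) (PF.cons (PF.leaf (nat_lit 2228739) (nat_lit 314479) (nat_lit 61026343) (nat_lit 3579307) [(nat_lit 314479), (nat_lit 1559723), (nat_lit 0)]) (PF.cons (PF.leaf (nat_lit 2479754) (nat_lit 330372) (nat_lit 60552499) (nat_lit 3634989) [(nat_lit 330372), (nat_lit 1599833), (nat_lit 0)]) (PF.cons (PF.leaf (nat_lit 2746419) (nat_lit 345428) (nat_lit 60053039) (nat_lit 3689652) [(nat_lit 345428), (nat_lit 1638978), (nat_lit 0)]) (PF.cons (PF.leaf (nat_lit 3027299) (nat_lit 359714) (nat_lit 59530868) (nat_lit 3742763) [(nat_lit 359714), (nat_lit 1676894), (nat_lit 0)]) (PF.cons (PF.leaf (nat_lit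 3321208) (nat_lit 373276) (nat_lit 58988562) (nat_lit 3793921) [(nat_lit 373276), (nat_lit 1713396), (nat_lit 0)]) (PF.cons (PF.leaf (nat_lit 3626885) (nat_lit 386146) (nat_lit 58428467) (nat_lit 3842823) [(nat_lit 386146), (nat_lit 1748351), (nat_lit 0)]) (PF.cons (PF.leaf (nat_lit 3943247) (nat_lit 398350) (nat_lit 57852741) (nat_lit 3889245) [(nat_lit 398350), (nat_lit 1781667), (nat_lit 0)]) (PF.cons (PF.leaf (nat_lit 4269247)
 (nat_lit 409910) (nat_lit 57263394) (nat_lit 3933026) [(nat_lit 409910), (nat_lit 1813284), (nat_lit 0)]) (PF.cons (PF.leaf (nat_lit 4603917) (nat_lit 420844) (nat_lit 56662300) (nat_lit 3974055) [(nat_lit 420844), (nat_lit 1843166), (nat_lit 0)]) (PF.cons (PF.leaf (nat_lit 4946273) (nat_lit 431169) (nat_lit 56051219) (nat_lit 4012263) [(nat_lit 431169), (nat_lit 1871294), (nat_lit 0)]) (PF.cons (PF.leaf (nat_lit 5295426) (nat_lit 440902) (nat_lit 55431800) (nat_lit 4047616) [(nat_lit 440902), (nat_lit 1897668), (nat_lit 0)]) (PF.cons PF.nil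 (PF.cons PF.nil PF.nil)))))))))))))))) (PF.cons (PF.cons (PF.leaf (nat_lit 2355274) (nat_lit 1601410) (nat_lit 60256083) (nat_lit 3649908) [(nat_lit 0), (nat_lit 1601410), (nat_lit 0)]) (PF.cons (PF.leaf (nat_lit 2590413) (nat_lit 333757) (nat_lit 59802926) (nat_lit 3698157) [(nat_lit 333757), (nat_lit 1636985), (nat_lit 0)]) (PF.cons (PF.leaf (nat_lit 2844051) (nat_lit 348889) (nat_lit 59320356) (nat_lit 3746228) [(nat_lit 348889), (nat_lit 1672224), (nat_lit 0)]) (PF.cons (PF.leaf (nat_lit 3113219) (nat_lit 363113) (nat_lit 58812676) (nat_lit 3793397) [(nat_lit 363113), (nat_lit 1706698), (nat_lit 0)]) (PF.cons (PF.leaf (nat_lit 3396217)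
 (nat_lit 376527) (nat_lit 58283323) (nat_lit 3839139) [(nat_lit 376527), (nat_lit 1740118), (nat_lit 0)]) (PF.cons (PF.leaf (nat_lit 3691706) (nat_lit 389196) (nat_lit 57735192) (nat_lit 3883071) [(nat_lit 389196), (nat_lit 1772282), (nat_lit 0)]) (PF.cons (PF.leaf (nat_lit 3998318) (nat_lit 401166) (nat_lit 57170806) (nat_lit 3924907) [(nat_lit 401166), (nat_lit 1803051), (nat_lit 0)]) (PF.cons (PF.leaf (nat_lit 4314999) (nat_lit 412470) (nat_lit 56592418) (nat_lit 3964443) [(nat_lit 412470), (nat_lit 1832327), (nat_lit 0)]) (PF.cons (PF.leaf (nat_lit 4640597) (nat_lit 423138) (nat_lit 56002070) (nat_lit 4001534) [(nat_lit 423138), (nat_lit 1860048), (nat_lit 0)]) (PF.cons (PF.leaf (nat_lit 4974147) (nat_lit 433193) (nat_lit 55401629) (nat_lit 4036084) [(nat_lit 433193), (nat_lit 1886178), (nat_lit 0)]) (PF.cons (PF.leaf (nat_lit 5314747) (nat_lit 442656) (nat_lit 54792819) (nat_lit 4068034) [(nat_lit 442656), (nat_lit 1910697), (nat_lit 0)]) (PF.cons (PF.leaf (nat_lit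 5661494) (nat_lit 451546) (nat_lit 54177228) (nat_lit 4097361) [(nat_lit 451546), (nat_lit 1933603), (nat_lit 0)]) (PF.cons PF.nil (PF.cons PF.nil PF.nil)))))))))))))) (PF.cons (PF.cons (PF.leaf (nat_lit 3210895)
 (nat_lit 1735599) (nat_lit 58060305) (nat_lit 3841708) [(nat_lit 0), (nat_lit 1735599), (nat_lit 0)]) (PF.cons (PF.leaf (nat_lit 3479433) (nat_lit 378458) (nat_lit 57551194) (nat_lit 3881872) [(nat_lit 378458), (nat_lit 1765762), (nat_lit 0)]) (PF.cons (PF.leaf (nat_lit 3762509) (nat_lit 391135) (nat_lit 57020605) (nat_lit 3920786) [(nat_lit 391135), (nat_lit 1795049), (nat_lit 0)]) (PF.cons (PF.leaf (nat_lit 4057816) (nat_lit 403027) (nat_lit 56471953) (nat_lit 3958061) [(nat_lit 403027), (nat_lit 1823238), (nat_lit 0)]) (PF.cons (PF.leaf (nat_lit 4363883) (nat_lit 414199) (nat_lit 55908062) (nat_lit 3993420) [(nat_lit 414199), (nat_lit 1850177), (nat_lit 0)]) (PF.cons (PF.leaf (nat_lit 4679484) (nat_lit 424699) (nat_lit 55331354) (nat_lit 4026666) [(nat_lit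 424699), (nat_lit 1875764), (nat_lit 0)]) (PF.cons (PF.leaf (nat_lit 5003535) (nat_lit 434565) (nat_lit 54743955) (nat_lit 4057666) [(nat_lit 434565), (nat_lit 1899932), (nat_lit 0)]) (PF.cons (PF.leaf (nat_lit 5334994) (nat_lit 443826) (nat_lit 54147763) (nat_lit 4086331) [(nat_lit 443826), (nat_lit 1922643), (nat_lit 0)]) (PF.cons (PF.leaf (nat_lit 5672933) (nat_lit 452508) (nat_lit 53544489) (nat_lit 4112613) [(nat_lit
 452508), (nat_lit 1943879), (nat_lit 0)]) (PF.cons (PF.leaf (nat_lit 6016493) (nat_lit 460635) (nat_lit 52935689) (nat_lit 4136492) [(nat_lit 460635), (nat_lit 1963635), (nat_lit 0)]) (PF.cons PF.nil (PF.cons PF.nil PF.nil)))))))))))) (PF.cons (PF.cons (PF.leaf (nat_lit 4126444) (nat_lit 1842500) (nat_lit 55749751) (nat_lit 3989060) [(nat_lit 0), (nat_lit 1842500), (nat_lit 0)]) (PF.cons (PF.leaf (nat_lit 4419251) (nat_lit 414912) (nat_lit 55205546) (nat_lit 4020221) [(nat_lit 414912), (nat_lit 1867033), (nat_lit 0)]) (PF.cons (PF.leaf (nat_lit 4723278)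 (nat_lit 425393) (nat_lit 54646518) (nat_lit 4049658) [(nat_lit 425393), (nat_lit 1890462), (nat_lit 0)]) (PF.cons (PF.leaf (nat_lit 5036609) (nat_lit 435184) (nat_lit 54075376) (nat_lit 4077177) [(nat_lit 435184), (nat_lit 1912676), (nat_lit 0)]) (PF.cons (PF.leaf (nat_lit 5358004) (nat_lit 444335) (nat_lit 53494407) (nat_lit 4102646) [(nat_lit 444335), (nat_lit 1933603), (nat_lit 0)]) (PF.cons (PF.leaf (nat_lit 5686430) (nat_lit 452885) (nat_lit 52905587) (nat_lit 4125984) [(nat_lit 452885), (nat_lit 1953203), (nat_lit 0)]) (PF.cons (PF.leaf (nat_lit 6020924) (nat_lit 460865) (nat_lit 52310657) (nat_lit 4147145) [(nat_lit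
 460865), (nat_lit 1971453), (nat_lit 0)]) (PF.cons (PF.leaf (nat_lit 6360627) (nat_lit 468304) (nat_lit 51711164) (nat_lit 4166113) [(nat_lit 468304), (nat_lit 1988351), (nat_lit 0)]) (PF.cons (PF.leaf (nat_lit 6704736) (nat_lit 475225) (nat_lit 51108498) (nat_lit 4182895) [(nat_lit 475225), (nat_lit 2003903), (nat_lit 0)]) (PF.cons PF.nil PF.nil)))))))))) (PF.cons (PF.cons (PF.leaf (nat_lit 5077056) (nat_lit 1924559) (nat_lit 53391213) (nat_lit 4094804) [(nat_lit 0), (nat_lit 1924559), (nat_lit 0)]) (PF.cons (PF.leaf (nat_lit 5386374) (nat_lit 444052) (nat_lit 52829181) (nat_lit 4117124) [(nat_lit 444052), (nat_lit 1943690), (nat_lit 0)]) (PF.cons (PF.leaf (nat_lit 5704104) (nat_lit 452577) (nat_lit 52257744) (nat_lit 4137589) [(nat_lit 452577), (nat_lit 1961664), (nat_lit 0)]) (PF.cons (PF.leaf (nat_lit 6028634) (nat_lit 460497) (nat_lit 51679031) (nat_lit 4156119) [(nat_lit 460497), (nat_lit 1978434), (nat_lit 0)]) (PF.cons (PF.leaf (nat_lit 6358962) (nat_lit 467851)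 (nat_lit 51094861) (nat_lit 4172669) [(nat_lit 467851), (nat_lit 1993975), (nat_lit 0)]) (PF.cons (PF.leaf (nat_lit 6694189) (nat_lit 474673) (nat_lit 50506813) (nat_lit 4187225) [(nat_lit 474673), (nat_lit
 2008281), (nat_lit 0)]) (PF.cons (PF.leaf (nat_lit 7033561) (nat_lit 480992) (nat_lit 49916272) (nat_lit 4199793) [(nat_lit 480992), (nat_lit 2021359), (nat_lit 0)]) (PF.cons PF.nil PF.nil)))))))) (PF.cons (PF.cons (PF.leaf (nat_lit 6042518) (nat_lit 1984660) (nat_lit 51037340) (nat_lit 4163509) [(nat_lit 0), (nat_lit 1984660), (nat_lit 0)]) (PF.cons (PF.leaf (nat_lit 6361890) (nat_lit 466773) (nat_lit 50471163) (nat_lit 4177715) [(nat_lit 466773), (nat_lit 1998860), (nat_lit 0)]) (PF.cons (PF.leaf (nat_lit 6687383) (nat_lit 473577) (nat_lit 49899854) (nat_lit 4190128) [(nat_lit 473577), (nat_lit 2011945), (nat_lit 0)]) (PF.cons (PF.leaf (nat_lit 7017616) (nat_lit 479853) (nat_lit 49325070) (nat_lit 4200732) [(nat_lit 479853), (nat_lit 2023907), (nat_lit 0)]) (PF.cons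 (PF.leaf (nat_lit 7351776) (nat_lit 485635) (nat_lit 48748232) (nat_lit 4209534) [(nat_lit 485635), (nat_lit 2034750), (nat_lit 0)]) (PF.cons PF.nil PF.nil)))))) (PF.cons (PF.cons (PF.leaf (nat_lit 7007042) (nat_lit 2025821) (nat_lit 48727685) (nat_lit 4200378) [(nat_lit 0), (nat_lit 2025821), (nat_lit 0)]) (PF.cons (PF.leaf (nat_lit 7331348) (nat_lit 483943) (nat_lit 48167737) (nat_lit 4207458) [(nat_lit 483943),
 (nat_lit 2035667), (nat_lit 0)]) (PF.cons (PF.leaf (nat_lit 7659873) (nat_lit 489253) (nat_lit 47605930) (nat_lit 4212905) [(nat_lit 489253), (nat_lit 2044495), (nat_lit 0)]) (PF.cons (PF.leaf (nat_lit 7991492) (nat_lit 494106) (nat_lit 47043535) (nat_lit 4216741) [(nat_lit 494106), (nat_lit 2052316), (nat_lit 0)]) PF.nil)))) (PF.cons (PF.cons (PF.leaf (nat_lit 7958795) (nat_lit 2050973) (nat_lit 46490411) (nat_lit 4210614) [(nat_lit 0), (nat_lit 2050973), (nat_lit 0)]) (PF.cons (PF.leaf (nat_lit 8284003) (nat_lit 496379) (nat_lit 45944209) (nat_lit 4211629)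 [(nat_lit 496379), (nat_lit 2057074), (nat_lit 0)]) PF.nil)) (PF.cons PF.nil (PF.cons PF.nil (PF.cons PF.nil (PF.cons PF.nil PF.nil))))))))))))) (PF.cons (PF.cons (PF.cons (PF.leaf (nat_lit 2772197) (nat_lit 3760894) (nat_lit 57000442) (nat_lit 3760894) [(nat_lit 0), (nat_lit 0), (nat_lit 6347475)]) (PF.cons (PF.leaf (nat_lit 2981791) (nat_lit 327344) (nat_lit 56607019) (nat_lit 3795144) [(nat_lit 327344), (nat_lit 0), (nat_lit 6379305)]) (PF.cons (PF.leaf (nat_lit 3212859) (nat_lit 344245) (nat_lit 56178681) (nat_lit 3830076) [(nat_lit 344245), (nat_lit 0), (nat_lit 6411564)]) (PF.cons (PF.leaf (nat_lit 3461132) (nat_lit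
 359580) (nat_lit 55721891) (nat_lit 3864831) [(nat_lit 359580), (nat_lit 0), (nat_lit 6443348)]) (PF.cons (PF.leaf (nat_lit 3724395) (nat_lit 373646) (nat_lit 55241413) (nat_lit 3898809) [(nat_lit 373646), (nat_lit 0), (nat_lit 6474005)]) (PF.cons (PF.leaf (nat_lit 4000747) (nat_lit 386637) (nat_lit 54740993) (nat_lit 3931579) [(nat_lit 386637), (nat_lit 0), (nat_lit 6503050)]) (PF.cons (PF.leaf (nat_lit 4288649) (nat_lit 398691) (nat_lit 54223716) (nat_lit 3962830) [(nat_lit 398691), (nat_lit 0), (nat_lit 6530119)]) (PF.cons (PF.leaf (nat_lit 4586792) (nat_lit 409904) (nat_lit 53692204) (nat_lit 3992336) [(nat_lit 409904), (nat_lit 0), (nat_lit 6554943)]) (PF.cons (PF.leaf (nat_lit 4893999) (nat_lit 420351) (nat_lit 53148736) (nat_lit 4019935) [(nat_lit 420351), (nat_lit 0), (nat_lit 6577326)]) (PF.cons (PF.leaf (nat_lit 5209204) (nat_lit 430092) (nat_lit 52595327) (nat_lit 4045518) [(nat_lit 430092), (nat_lit 0), (nat_lit 6597131)]) (PF.cons (PF.leaf (nat_lit 5531447)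 (nat_lit 439175) (nat_lit 52033777) (nat_lit 4069016) [(nat_lit 439175), (nat_lit 0), (nat_lit 6614268)]) (PF.cons (PF.leaf (nat_lit 5859842) (nat_lit 447639) (nat_lit 51465704) (nat_lit 4090388) [(nat_lit 447639),
 (nat_lit 0), (nat_lit 6628688)]) (PF.cons (PF.leaf (nat_lit 6193578) (nat_lit 455520) (nat_lit 50892576) (nat_lit 4109623) [(nat_lit 455520), (nat_lit 0), (nat_lit 6640372)]) (PF.cons (PF.leaf (nat_lit 6531889) (nat_lit 462848) (nat_lit 50315725) (nat_lit 4126727) [(nat_lit 462848), (nat_lit 0), (nat_lit 6649330)]) (PF.cons PF.nil (PF.cons PF.nil PF.nil)))))))))))))))) (PF.cons (PF.cons (PF.leaf (nat_lit 3562154) (nat_lit 1761341) (nat_lit 54969053) (nat_lit 3901154) [(nat_lit 0), (nat_lit 1761341), (nat_lit 6477263)]) (PF.cons (PF.leaf (nat_lit 3807522) (nat_lit 372708) (nat_lit 54516313) (nat_lit 3930251) [(nat_lit 372708), (nat_lit 1787024), (nat_lit 6502513)]) (PF.cons (PF.leaf (nat_lit 4069153) (nat_lit 386123) (nat_lit 54039108) (nat_lit 3958721)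 [(nat_lit 386123), (nat_lit 1812051), (nat_lit 6526683)]) (PF.cons (PF.leaf (nat_lit 4344033) (nat_lit 398413) (nat_lit 53542000) (nat_lit 3986120) [(nat_lit 398413), (nat_lit 1836149), (nat_lit 6549300)]) (PF.cons (PF.leaf (nat_lit 4630406) (nat_lit 409742) (nat_lit 53028526) (nat_lit 4012137) [(nat_lit 409742), (nat_lit 1859149), (nat_lit 6570027)]) (PF.cons (PF.leaf (nat_lit 4926781) (nat_lit 420226) (nat_lit 52501559) (nat_lit
 4036555) [(nat_lit 420226), (nat_lit 1880942), (nat_lit 6588623)]) (PF.cons (PF.leaf (nat_lit 5231896) (nat_lit 429949) (nat_lit 51963513) (nat_lit 4059221) [(nat_lit 429949), (nat_lit 1901465), (nat_lit 6604918)]) (PF.cons (PF.leaf (nat_lit 5544646) (nat_lit 438976) (nat_lit 51416464) (nat_lit 4080034) [(nat_lit 438976), (nat_lit 1920680), (nat_lit 6618797)]) (PF.cons (PF.leaf (nat_lit 5864052) (nat_lit 447360) (nat_lit 50862229) (nat_lit 4098932) [(nat_lit 447360), (nat_lit 1938575), (nat_lit 6630191)]) (PF.cons (PF.leaf (nat_lit 6189219)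 (nat_lit 455144) (nat_lit 50302411) (nat_lit 4115881) [(nat_lit 455144), (nat_lit 1955148), (nat_lit 6639068)]) (PF.cons (PF.leaf (nat_lit 6519339) (nat_lit 462366) (nat_lit 49738445) (nat_lit 4130872) [(nat_lit 462366), (nat_lit 1970412), (nat_lit 6645420)]) (PF.cons (PF.leaf (nat_lit 6853655) (nat_lit 469057) (nat_lit 49171615) (nat_lit 4143914) [(nat_lit 469057), (nat_lit 1984386), (nat_lit 6649268)]) (PF.cons PF.nil (PF.cons PF.nil PF.nil)))))))))))))) (PF.cons (PF.cons (PF.leaf (nat_lit 4412906) (nat_lit 1850951) (nat_lit 52833628) (nat_lit 4007776) [(nat_lit 0), (nat_lit 1850951), (nat_lit 6565506)]) (PF.cons (PF.leaf (nat_lit 4683929)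
 (nat_lit 408318) (nat_lit 52344573) (nat_lit 4030239) [(nat_lit 408318), (nat_lit 1871741), (nat_lit 6582199)]) (PF.cons (PF.leaf (nat_lit 4967310) (nat_lit 419066) (nat_lit 51838872) (nat_lit 4051474) [(nat_lit 419066), (nat_lit 1891605), (nat_lit 6597120)]) (PF.cons (PF.leaf (nat_lit 5260711) (nat_lit 428939) (nat_lit 51319855) (nat_lit 4071261) [(nat_lit 428939), (nat_lit 1910417), (nat_lit 6610042)]) (PF.cons (PF.leaf (nat_lit 5562738) (nat_lit 438039) (nat_lit 50790192) (nat_lit 4089453) [(nat_lit 438039), (nat_lit 1928095), (nat_lit 6620815)]) (PF.cons (PF.leaf (nat_lit 5872199) (nat_lit 446444) (nat_lit 50252100) (nat_lit 4105950) [(nat_lit 446444), (nat_lit 1944598), (nat_lit 6629341)]) (PF.cons (PF.leaf (nat_lit 6188057) (nat_lit 454213) (nat_lit 49707465) (nat_lit 4120696) [(nat_lit 454213), (nat_lit 1959902), (nat_lit 6635565)]) (PF.cons (PF.leaf (nat_lit 6509395) (nat_lit 461394) (nat_lit 49157916) (nat_lit 4133659) [(nat_lit 461394), (nat_lit 1974005),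 (nat_lit 6639466)]) (PF.cons (PF.leaf (nat_lit 6835388) (nat_lit 468027) (nat_lit 48604882) (nat_lit 4144834) [(nat_lit 468027), (nat_lit 1986914), (nat_lit 6641048)]) (PF.cons (PF.leaf (nat_lit 7165289) (nat_lit
 474147) (nat_lit 48049625) (nat_lit 4154231) [(nat_lit 474147), (nat_lit 1998646), (nat_lit 6640336)]) (PF.cons PF.nil (PF.cons PF.nil PF.nil)))))))))))) (PF.cons (PF.cons (PF.leaf (nat_lit 5300174) (nat_lit 1918739) (nat_lit 50658264) (nat_lit 4081788) [(nat_lit 0), (nat_lit 1918739), (nat_lit 6612543)]) (PF.cons (PF.leaf (nat_lit 5588858) (nat_lit 436158) (nat_lit 50150409) (nat_lit 4097379) [(nat_lit 436158), (nat_lit 1934838), (nat_lit 6620349)]) (PF.cons (PF.leaf (nat_lit 5886785) (nat_lit 444739) (nat_lit 49631834) (nat_lit 4111526) [(nat_lit 444739), (nat_lit 1949938), (nat_lit 6626157)]) (PF.cons (PF.leaf (nat_lit 6192127) (nat_lit 452611) (nat_lit 49105012) (nat_lit 4124133) [(nat_lit 452611), (nat_lit 1963982), (nat_lit 6629885)]) (PF.cons (PF.leaf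 (nat_lit 6503753) (nat_lit 459844) (nat_lit 48571969) (nat_lit 4135143) [(nat_lit 459844), (nat_lit 1976944), (nat_lit 6631487)]) (PF.cons (PF.leaf (nat_lit 6820684) (nat_lit 466494) (nat_lit 48034413) (nat_lit 4144529) [(nat_lit 466494), (nat_lit 1988814), (nat_lit 6630952)]) (PF.cons (PF.leaf (nat_lit 7142117) (nat_lit 472607) (nat_lit 47493803) (nat_lit 4152284) [(nat_lit 472607), (nat_lit 1999597), (nat_lit 6628291)])
 (PF.cons (PF.leaf (nat_lit 7467261) (nat_lit 478219) (nat_lit 46951405) (nat_lit 4158420) [(nat_lit 478219), (nat_lit 2009306), (nat_lit 6623532)]) (PF.cons (PF.leaf (nat_lit 7795429) (nat_lit 483364) (nat_lit 46408326) (nat_lit 4162960) [(nat_lit 483364), (nat_lit 2017962), (nat_lit 6616721)]) (PF.cons PF.nil PF.nil)))))))))) (PF.cons (PF.cons (PF.leaf (nat_lit 6204881) (nat_lit 1967468) (nat_lit 48490682) (nat_lit 4126255) [(nat_lit 0), (nat_lit 1967468), (nat_lit 6621999)]) (PF.cons (PF.leaf (nat_lit 6504803) (nat_lit 457571) (nat_lit 47977256)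 (nat_lit 4135371) [(nat_lit 457571), (nat_lit 1979287), (nat_lit 6621463)]) (PF.cons (PF.leaf (nat_lit 6811526) (nat_lit 464349) (nat_lit 47457586) (nat_lit 4143035) [(nat_lit 464349), (nat_lit 1990131), (nat_lit 6618966)]) (PF.cons (PF.leaf (nat_lit 7123546) (nat_lit 470540) (nat_lit 46933521) (nat_lit 4149220) [(nat_lit 470540), (nat_lit 1999985), (nat_lit 6614504)]) (PF.cons (PF.leaf (nat_lit 7439954) (nat_lit 476197) (nat_lit 46406602) (nat_lit 4153922) [(nat_lit 476197), (nat_lit 2008851), (nat_lit 6608093)]) (PF.cons (PF.leaf (nat_lit 7759963) (nat_lit 481362) (nat_lit 45878131) (nat_lit 4157150) [(nat_lit 481362), (nat_lit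
 2016737), (nat_lit 6599766)]) (PF.cons (PF.leaf (nat_lit 8082906) (nat_lit 486071) (nat_lit 45349227) (nat_lit 4158928) [(nat_lit 486071), (nat_lit 2023664), (nat_lit 6589571)]) (PF.cons PF.nil PF.nil)))))))) (PF.cons (PF.cons (PF.leaf (nat_lit 7112286) (nat_lit 1999851) (nat_lit 46365576) (nat_lit 4145057) [(nat_lit 0), (nat_lit 1999851), (nat_lit 6598919)]) (PF.cons (PF.leaf (nat_lit 7418401) (nat_lit 473614) (nat_lit 45856345) (nat_lit 4148394) [(nat_lit 473614), (nat_lit 2007889), (nat_lit 6591010)]) (PF.cons (PF.leaf (nat_lit 7729370) (nat_lit 478879) (nat_lit 45344214) (nat_lit 4150380) [(nat_lit 478879), (nat_lit 2015029), (nat_lit 6581311)]) (PF.cons (PF.leaf (nat_lit 8043933) (nat_lit 483655) (nat_lit 44830567) (nat_lit 4151027) [(nat_lit 483655), (nat_lit 2021277), (nat_lit 6569861)]) (PF.cons (PF.leaf (nat_lit 8361371) (nat_lit 487982) (nat_lit 44316567) (nat_lit 4150356) [(nat_lit 487982), (nat_lit 2026650), (nat_lit 6556708)]) (PF.cons PF.nil PF.nil))))))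 (PF.cons (PF.cons (PF.leaf (nat_lit 8011298) (nat_lit 2018449) (nat_lit 44307168) (nat_lit 4142230) [(nat_lit 0), (nat_lit 2018449), (nat_lit 6548717)]) (PF.cons (PF.leaf (nat_lit 8319681) (nat_lit 485168) (nat_lit
 43809121) (nat_lit 4140596) [(nat_lit 485168), (nat_lit 2023228), (nat_lit 6534557)]) (PF.cons (PF.leaf (nat_lit 8631366) (nat_lit 489165) (nat_lit 43310628) (nat_lit 4137763) [(nat_lit 489165), (nat_lit 2027208), (nat_lit 6518841)]) (PF.cons (PF.leaf (nat_lit 8945313) (nat_lit 492751) (nat_lit 42812724) (nat_lit 4133762) [(nat_lit 492751), (nat_lit 2030407), (nat_lit 6501626)]) PF.nil)))) (PF.cons (PF.cons (PF.leaf (nat_lit 8893830) (nat_lit 2025597) (nat_lit 42331409) (nat_lit 4121616) [(nat_lit 0), (nat_lit 2025597), (nat_lit 6476601)]) (PF.cons (PF.leaf (nat_lit 9201484) (nat_lit 492988) (nat_lit 41849339) (nat_lit 4115823) [(nat_lit 492988), (nat_lit 2027620), (nat_lit 6457317)]) PF.nil)) (PF.cons PF.nil (PF.cons PF.nil (PF.cons PF.nil PF.nil)))))))))))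 (PF.cons (PF.cons (PF.cons (PF.leaf (nat_lit 4670689) (nat_lit 3996669) (nat_lit 50071234) (nat_lit 3996669) [(nat_lit 0), (nat_lit 0), (nat_lit 6520454)]) (PF.cons (PF.leaf (nat_lit 4917713) (nat_lit 395270) (nat_lit 49643578) (nat_lit 4012750) [(nat_lit 395270), (nat_lit 0), (nat_lit 6528606)]) (PF.cons (PF.leaf (nat_lit 5179179) (nat_lit 407149) (nat_lit 49195670) (nat_lit 4027999) [(nat_lit 407149), (nat_lit 0), (nat_lit
 6535422)]) (PF.cons (PF.leaf (nat_lit 5452127) (nat_lit 417796) (nat_lit 48731905) (nat_lit 4042159) [(nat_lit 417796), (nat_lit 0), (nat_lit 6540679)]) (PF.cons (PF.leaf (nat_lit 5734728) (nat_lit 427417) (nat_lit 48255618) (nat_lit 4055061) [(nat_lit 427417), (nat_lit 0), (nat_lit 6544230)]) (PF.cons (PF.leaf (nat_lit 6025549) (nat_lit 436161) (nat_lit 47769460) (nat_lit 4066593) [(nat_lit 436161), (nat_lit 0), (nat_lit 6545976)]) (PF.cons (PF.leaf (nat_lit 6323380) (nat_lit 444134) (nat_lit 47275602) (nat_lit 4076683) [(nat_lit 444134), (nat_lit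 0), (nat_lit 6545861)]) (PF.cons (PF.leaf (nat_lit 6627191) (nat_lit 451420) (nat_lit 46775867) (nat_lit 4085293) [(nat_lit 451420), (nat_lit 0), (nat_lit 6543855)]) (PF.cons (PF.leaf (nat_lit 6936075) (nat_lit 458085) (nat_lit 46271811) (nat_lit 4092407) [(nat_lit 458085), (nat_lit 0), (nat_lit 6539956)]) (PF.cons (PF.leaf (nat_lit 7249282) (nat_lit 464183) (nat_lit 45764778) (nat_lit 4098027) [(nat_lit 464183), (nat_lit 0), (nat_lit 6534178)]) (PF.cons (PF.leaf (nat_lit 7566061) (nat_lit 469759) (nat_lit 45255941) (nat_lit 4102168) [(nat_lit 469759), (nat_lit 0), (nat_lit 6526551)]) (PF.cons PF.nil (PF.cons PF.nil (PF.cons PF.nil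
 PF.nil)))))))))))))) (PF.cons (PF.cons (PF.leaf (nat_lit 5496180) (nat_lit 1900618) (nat_lit 48090906) (nat_lit 4047295) [(nat_lit 0), (nat_lit 1900618), (nat_lit 6534996)]) (PF.cons (PF.leaf (nat_lit 5763439) (nat_lit 423822) (nat_lit 47639583) (nat_lit 4058007) [(nat_lit 423822), (nat_lit 1914719), (nat_lit 6536339)]) (PF.cons (PF.leaf (nat_lit 6041362) (nat_lit 433011) (nat_lit 47175150) (nat_lit 4067585) [(nat_lit 433011), (nat_lit 1927923), (nat_lit 6536064)]) (PF.cons (PF.leaf (nat_lit 6327724) (nat_lit 441294) (nat_lit 46700665) (nat_lit 4075916) [(nat_lit 441294), (nat_lit 1940162), (nat_lit 6534092)]) (PF.cons (PF.leaf (nat_lit 6621172) (nat_lit 448797) (nat_lit 46218530) (nat_lit 4082932) [(nat_lit 448797), (nat_lit 1951405), (nat_lit 6530377)]) (PF.cons (PF.leaf (nat_lit 6920584) (nat_lit 455613) (nat_lit 45730697) (nat_lit 4088595) [(nat_lit 455613), (nat_lit 1961643), (nat_lit 6524906)]) (PF.cons (PF.leaf (nat_lit 7224998) (nat_lit 461814) (nat_lit 45238790)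 (nat_lit 4092890) [(nat_lit 461814), (nat_lit 1970879), (nat_lit 6517681)]) (PF.cons (PF.leaf (nat_lit 7533586) (nat_lit 467460) (nat_lit 44744185) (nat_lit 4095820) [(nat_lit 467460), (nat_lit 1979129), (nat_lit
 6508725)]) (PF.cons (PF.leaf (nat_lit 7845642) (nat_lit 472598) (nat_lit 44248060) (nat_lit 4097402) [(nat_lit 472598), (nat_lit 1986414), (nat_lit 6498072)]) (PF.cons (PF.leaf (nat_lit 8160519) (nat_lit 477269) (nat_lit 43751436) (nat_lit 4097659) [(nat_lit 477269), (nat_lit 1992761), (nat_lit 6485765)]) (PF.cons PF.nil (PF.cons PF.nil PF.nil)))))))))))) (PF.cons (PF.cons (PF.leaf (nat_lit 6343690) (nat_lit 1941551) (nat_lit 46111116) (nat_lit 4074014) [(nat_lit 0), (nat_lit 1941551), (nat_lit 6520290)]) (PF.cons (PF.leaf (nat_lit 6624187) (nat_lit 445279) (nat_lit 45650382) (nat_lit 4079486) [(nat_lit 445279), (nat_lit 1951791), (nat_lit 6515041)]) (PF.cons (PF.leaf (nat_lit 6912519) (nat_lit 452406) (nat_lit 45181635) (nat_lit 4083758) [(nat_lit 452406),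 (nat_lit 1961145), (nat_lit 6508157)]) (PF.cons (PF.leaf (nat_lit 7206944) (nat_lit 458832) (nat_lit 44707060) (nat_lit 4086793) [(nat_lit 458832), (nat_lit 1969596), (nat_lit 6499635)]) (PF.cons (PF.leaf (nat_lit 7506416) (nat_lit 464640) (nat_lit 44228414) (nat_lit 4088579) [(nat_lit 464640), (nat_lit 1977140), (nat_lit 6489487)]) (PF.cons (PF.leaf (nat_lit 7810071) (nat_lit 469896) (nat_lit 43747149) (nat_lit 4089118)
 [(nat_lit 469896), (nat_lit 1983789), (nat_lit 6477741)]) (PF.cons (PF.leaf (nat_lit 8117114) (nat_lit 474652) (nat_lit 43264482) (nat_lit 4088425) [(nat_lit 474652), (nat_lit 1989558), (nat_lit 6464436)]) (PF.cons (PF.leaf (nat_lit 8426946) (nat_lit 478951) (nat_lit 42781448) (nat_lit 4086525) [(nat_lit 478951), (nat_lit 1994471), (nat_lit 6449619)]) (PF.cons PF.nil (PF.cons PF.nil PF.nil)))))))))) (PF.cons (PF.cons (PF.leaf (nat_lit 7198389) (nat_lit 1967877) (nat_lit 44165623) (nat_lit 4079723) [(nat_lit 0), (nat_lit 1967877), (nat_lit 6479916)])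 (PF.cons (PF.leaf (nat_lit 7486788) (nat_lit 461146) (nat_lit 43705584) (nat_lit 4080430) [(nat_lit 461146), (nat_lit 1974723), (nat_lit 6468740)]) (PF.cons (PF.leaf (nat_lit 7780846) (nat_lit 466631) (nat_lit 43241207) (nat_lit 4079993) [(nat_lit 466631), (nat_lit 1980749), (nat_lit 6456049)]) (PF.cons (PF.leaf (nat_lit 8079198) (nat_lit 471559) (nat_lit 42774079) (nat_lit 4078415) [(nat_lit 471559), (nat_lit 1985961), (nat_lit 6441878)]) (PF.cons (PF.leaf (nat_lit 8380992) (nat_lit 475987) (nat_lit 42305496) (nat_lit 4075711) [(nat_lit 475987), (nat_lit 1990372), (nat_lit 6426270)]) (PF.cons (PF.leaf (nat_lit 8685540) (nat_lit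
 479963) (nat_lit 41836538) (nat_lit 4071905) [(nat_lit 479963), (nat_lit 1994000), (nat_lit 6409274)]) (PF.cons PF.nil (PF.cons PF.nil PF.nil)))))))) (PF.cons (PF.cons (PF.leaf (nat_lit 8049269) (nat_lit 1981981) (nat_lit 42277342) (nat_lit 4067597) [(nat_lit 0), (nat_lit 1981981), (nat_lit 6417973)]) (PF.cons (PF.leaf (nat_lit 8341497) (nat_lit 472505) (nat_lit 41825083) (nat_lit 4064156) [(nat_lit 472505), (nat_lit 1985907), (nat_lit 6401719)]) (PF.cons (PF.leaf (nat_lit 8637736) (nat_lit 476660) (nat_lit 41371133) (nat_lit 4059684) [(nat_lit 476660), (nat_lit 1989102), (nat_lit 6384132)]) (PF.cons (PF.leaf (nat_lit 8936803) (nat_lit 480362) (nat_lit 40916655) (nat_lit 4054205) [(nat_lit 480362), (nat_lit 1991582), (nat_lit 6365267)]) (PF.cons (PF.leaf (nat_lit 9238077) (nat_lit 483656) (nat_lit 40462608) (nat_lit 4047747) [(nat_lit 483656), (nat_lit 1993368), (nat_lit 6345179)]) (PF.cons PF.nil PF.nil)))))) (PF.cons (PF.cons (PF.leaf (nat_lit 8888286) (nat_lit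 1985969) (nat_lit 40461189) (nat_lit 4040725) [(nat_lit 0), (nat_lit 1985969), (nat_lit 6338524)]) (PF.cons (PF.leaf (nat_lit 9181255) (nat_lit 480196) (nat_lit 40021546) (nat_lit 4033785) [(nat_lit 480196), (nat_lit
 1987426), (nat_lit 6318076)]) (PF.cons (PF.leaf (nat_lit 9476924) (nat_lit 483262) (nat_lit 39582104) (nat_lit 4025949) [(nat_lit 483262), (nat_lit 1988246), (nat_lit 6296500)]) (PF.cons PF.nil PF.nil)))) (PF.cons (PF.cons (PF.leaf (nat_lit 9709708) (nat_lit 1981683) (nat_lit 38726144) (nat_lit 4001940) [(nat_lit 0), (nat_lit 1981683), (nat_lit 6245313)]) (PF.cons PF.nil PF.nil)) (PF.cons PF.nil (PF.cons PF.nil (PF.cons PF.nil PF.nil)))))))))) (PF.cons (PF.cons (PF.cons (PF.leaf (nat_lit 6468602) (nat_lit 4010862) (nat_lit 43885514) (nat_lit 4010862) [(nat_lit 0), (nat_lit 0), (nat_lit 6404145)]) (PF.cons (PF.leaf (nat_lit 6728903) (nat_lit 429857) (nat_lit 43477474) (nat_lit 4013818) [(nat_lit 429857), (nat_lit 0), (nat_lit 6395887)]) (PF.cons (PF.leaf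 (nat_lit 6998611) (nat_lit 437797) (nat_lit 43058889) (nat_lit 4015756) [(nat_lit 437797), (nat_lit 0), (nat_lit 6386190)]) (PF.cons (PF.leaf (nat_lit 7275563) (nat_lit 444833) (nat_lit 42632489) (nat_lit 4016630) [(nat_lit 444833), (nat_lit 0), (nat_lit 6375063)]) (PF.cons (PF.leaf (nat_lit 7558470) (nat_lit 451104) (nat_lit 42200390) (nat_lit 4016422) [(nat_lit 451104), (nat_lit 0), (nat_lit 6362526)]) (PF.cons (PF.leaf (nat_lit
 7846288) (nat_lit 456714) (nat_lit 41764285) (nat_lit 4015130) [(nat_lit 456714), (nat_lit 0), (nat_lit 6348607)]) (PF.cons (PF.leaf (nat_lit 8138164) (nat_lit 461742) (nat_lit 41325558) (nat_lit 4012764) [(nat_lit 461742), (nat_lit 0), (nat_lit 6333344)]) (PF.cons (PF.leaf (nat_lit 8433310) (nat_lit 466251) (nat_lit 40885368) (nat_lit 4009345) [(nat_lit 466251), (nat_lit 0), (nat_lit 6316780)]) (PF.cons (PF.leaf (nat_lit 8731147) (nat_lit 470292) (nat_lit 40444688) (nat_lit 4004897) [(nat_lit 470292), (nat_lit 0), (nat_lit 6298962)]) (PF.cons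 PF.nil (PF.cons PF.nil (PF.cons PF.nil PF.nil)))))))))))) (PF.cons (PF.cons (PF.leaf (nat_lit 7273068) (nat_lit 1931253) (nat_lit 42113874) (nat_lit 4007321) [(nat_lit 0), (nat_lit 1931253), (nat_lit 6352121)]) (PF.cons (PF.leaf (nat_lit 7543631) (nat_lit 446587) (nat_lit 41701633) (nat_lit 4006268) [(nat_lit 446587), (nat_lit 1937425), (nat_lit 6338966)]) (PF.cons (PF.leaf (nat_lit 7821007) (nat_lit 452597) (nat_lit 41283180) (nat_lit 4004217) [(nat_lit 452597), (nat_lit 1942820), (nat_lit 6324466)]) (PF.cons (PF.leaf (nat_lit 8103516) (nat_lit 457928) (nat_lit 40860423) (nat_lit 4001165) [(nat_lit 457928), (nat_lit 1947443), (nat_lit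
 6308664)]) (PF.cons (PF.leaf (nat_lit 8390233) (nat_lit 462672) (nat_lit 40434873) (nat_lit 3997126) [(nat_lit 462672), (nat_lit 1951305), (nat_lit 6291605)]) (PF.cons (PF.leaf (nat_lit 8680299) (nat_lit 466898) (nat_lit 40007763) (nat_lit 3992119) [(nat_lit 466898), (nat_lit 1954427), (nat_lit 6273337)]) (PF.cons (PF.leaf (nat_lit 8973099) (nat_lit 470661) (nat_lit 39580109) (nat_lit 3986171) [(nat_lit 470661), (nat_lit 1956833), (nat_lit 6253910)]) (PF.cons PF.nil (PF.cons PF.nil (PF.cons PF.nil PF.nil)))))))))) (PF.cons (PF.cons (PF.leaf (nat_lit 8078848) (nat_lit 1942558) (nat_lit 40386945) (nat_lit 3988803) [(nat_lit 0), (nat_lit 1942558), (nat_lit 6282648)]) (PF.cons (PF.leaf (nat_lit 8355144) (nat_lit 458456) (nat_lit 39978323) (nat_lit 3984216) [(nat_lit 458456), (nat_lit 1946022), (nat_lit 6265257)]) (PF.cons (PF.leaf (nat_lit 8636344) (nat_lit 462977) (nat_lit 39566522) (nat_lit 3978715) [(nat_lit 462977), (nat_lit 1948794), (nat_lit 6246677)]) (PF.cons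 (PF.leaf (nat_lit 8921091) (nat_lit 466972) (nat_lit 39152902) (nat_lit 3972321) [(nat_lit 466972), (nat_lit 1950890), (nat_lit 6226964)]) (PF.cons (PF.leaf (nat_lit 9208646) (nat_lit 470502) (nat_lit 38738559) (nat_lit
 3965060) [(nat_lit 470502), (nat_lit 1952329), (nat_lit 6206174)]) (PF.cons (PF.leaf (nat_lit 9498374) (nat_lit 473617) (nat_lit 38324396) (nat_lit 3956963) [(nat_lit 473617), (nat_lit 1953137), (nat_lit 6184363)]) (PF.cons PF.nil (PF.cons PF.nil PF.nil)))))))) (PF.cons (PF.cons (PF.leaf (nat_lit 8877465) (nat_lit 1944648) (nat_lit 38720158) (nat_lit 3957843) [(nat_lit 0), (nat_lit 1944648), (nat_lit 6198955)]) (PF.cons (PF.leaf (nat_lit 9156143) (nat_lit 466512) (nat_lit 38320427) (nat_lit 3950248) [(nat_lit 466512), (nat_lit 1945831), (nat_lit 6178043)]) (PF.cons (PF.leaf (nat_lit 9438270) (nat_lit 469855) (nat_lit 37919653) (nat_lit 3941850) [(nat_lit 469855), (nat_lit 1946412), (nat_lit 6156120)]) (PF.cons (PF.leaf (nat_lit 9722705) (nat_lit 472780)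 (nat_lit 37518818) (nat_lit 3932682) [(nat_lit 472780), (nat_lit 1946412), (nat_lit 6133245)]) (PF.cons PF.nil (PF.cons PF.nil PF.nil)))))) (PF.cons (PF.cons (PF.leaf (nat_lit 9662868) (nat_lit 1939234) (nat_lit 37122874) (nat_lit 3916794) [(nat_lit 0), (nat_lit 1939234), (nat_lit 6104068)]) (PF.cons (PF.leaf (nat_lit 9941428) (nat_lit 471527) (nat_lit 36735507) (nat_lit 3906707) [(nat_lit 471527), (nat_lit 1938519), (nat_lit
 6080331)]) (PF.cons PF.nil (PF.cons PF.nil PF.nil)))) (PF.cons (PF.cons (PF.leaf (nat_lit 10430841) (nat_lit 1927766) (nat_lit 35600157) (nat_lit 3867751) [(nat_lit 0), (nat_lit 1927766), (nat_lit 6000690)]) (PF.cons PF.nil PF.nil)) (PF.cons PF.nil (PF.cons PF.nil PF.nil)))))))) (PF.cons (PF.cons (PF.cons (PF.leaf (nat_lit 8105283) (nat_lit 3907331) (nat_lit 38622025) (nat_lit 3907331) [(nat_lit 0), (nat_lit 0), (nat_lit 6144863)]) (PF.cons (PF.leaf (nat_lit 8365385) (nat_lit 442917) (nat_lit 38255348) (nat_lit 3902129) [(nat_lit 442917), (nat_lit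 0), (nat_lit 6127104)]) (PF.cons (PF.leaf (nat_lit 8631535) (nat_lit 448062) (nat_lit 37883689) (nat_lit 3896087) [(nat_lit 448062), (nat_lit 0), (nat_lit 6108227)]) (PF.cons (PF.leaf (nat_lit 8902153) (nat_lit 452558) (nat_lit 37508703) (nat_lit 3889228) [(nat_lit 452558), (nat_lit 0), (nat_lit 6088301)]) (PF.cons (PF.leaf (nat_lit 9176312) (nat_lit 456498) (nat_lit 37131694) (nat_lit 3881578) [(nat_lit 456498), (nat_lit 0), (nat_lit 6067386)]) (PF.cons (PF.leaf (nat_lit 9453302) (nat_lit 459954) (nat_lit 36753708) (nat_lit 3873165) [(nat_lit 459954), (nat_lit 0), (nat_lit 6045541)]) (PF.cons (PF.leaf (nat_lit 9732485) (nat_lit 462982)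
 (nat_lit 36375607) (nat_lit 3864021) [(nat_lit 462982), (nat_lit 0), (nat_lit 6022821)]) (PF.cons PF.nil PF.nil)))))))) (PF.cons (PF.cons (PF.leaf (nat_lit 8865393) (nat_lit 1902094) (nat_lit 37095441) (nat_lit 3873990) [(nat_lit 0), (nat_lit 1902094), (nat_lit 6059321)]) (PF.cons (PF.leaf (nat_lit 9129828) (nat_lit 451886) (nat_lit 36733516) (nat_lit 3866135) [(nat_lit 451886), (nat_lit 1903259), (nat_lit 6038504)]) (PF.cons (PF.leaf (nat_lit 9398569) (nat_lit 455678) (nat_lit 36369135) (nat_lit 3857537) [(nat_lit 455678), (nat_lit 1903834), (nat_lit 6016737)]) (PF.cons (PF.leaf (nat_lit 9670359) (nat_lit 458975) (nat_lit 36003467) (nat_lit 3848230) [(nat_lit 458975), (nat_lit 1903842), (nat_lit 5994086)]) (PF.cons (PF.leaf (nat_lit 9944505) (nat_lit 461841) (nat_lit 35637444) (nat_lit 3838243) [(nat_lit 461841), (nat_lit 1903305), (nat_lit 5970613)]) (PF.cons PF.nil PF.nil)))))) (PF.cons (PF.cons (PF.leaf (nat_lit 9616774) (nat_lit 1896339) (nat_lit 35626326) (nat_lit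 3831925) [(nat_lit 0), (nat_lit 1896339), (nat_lit 5964470)]) (PF.cons (PF.leaf (nat_lit 9882676) (nat_lit 457592) (nat_lit 35273195) (nat_lit 3821859) [(nat_lit 457592), (nat_lit 1895697), (nat_lit 5941192)])
 (PF.cons (PF.leaf (nat_lit 10151621) (nat_lit 460333) (nat_lit 34919362) (nat_lit 3811158) [(nat_lit 460333), (nat_lit 1894552), (nat_lit 5917130)]) (PF.cons PF.nil PF.nil)))) (PF.cons (PF.cons (PF.leaf (nat_lit 10354705) (nat_lit 1884945) (nat_lit 34220735) (nat_lit 3782933) [(nat_lit 0), (nat_lit 1884945), (nat_lit 5862576)]) (PF.cons PF.nil PF.nil)) (PF.cons PF.nil (PF.cons PF.nil PF.nil)))))) (PF.cons (PF.cons (PF.cons (PF.leaf (nat_lit 9574113) (nat_lit 3747776) (nat_lit 34225552) (nat_lit 3747776) [(nat_lit 0), (nat_lit 0), (nat_lit 5827096)]) (PF.cons (PF.leaf (nat_lit 9827226) (nat_lit 442978) (nat_lit 33904834) (nat_lit 3737971) [(nat_lit 442978), (nat_lit 0), (nat_lit 5804605)]) (PF.cons (PF.leaf (nat_lit 10084246) (nat_lit 446212) (nat_lit 33582126)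 (nat_lit 3727555) [(nat_lit 446212), (nat_lit 0), (nat_lit 5781341)]) (PF.cons (PF.leaf (nat_lit 10343920) (nat_lit 448981) (nat_lit 33258437) (nat_lit 3716564) [(nat_lit 448981), (nat_lit 0), (nat_lit 5757373)]) (PF.cons PF.nil (PF.cons PF.nil PF.nil)))))) (PF.cons (PF.cons (PF.leaf (nat_lit 10283171) (nat_lit 1842351) (nat_lit 32928849) (nat_lit 3699547) [(nat_lit 0), (nat_lit 1842351), (nat_lit 5727612)]) (PF.cons
 (PF.leaf (nat_lit 10537208) (nat_lit 446999) (nat_lit 32616285) (nat_lit 3688096) [(nat_lit 446999), (nat_lit 1840502), (nat_lit 5703385)]) (PF.cons PF.nil (PF.cons PF.nil PF.nil)))) (PF.cons (PF.cons (PF.leaf (nat_lit 10979125) (nat_lit 1827239) (nat_lit 31688680) (nat_lit 3646554) [(nat_lit 0), (nat_lit 1827239), (nat_lit 5623819)]) (PF.cons PF.nil PF.nil)) (PF.cons PF.nil PF.nil)))) (PF.cons (PF.cons (PF.cons (PF.leaf (nat_lit 10889323) (nat_lit 3566496) (nat_lit 30567553) (nat_lit 3566496) [(nat_lit 0), (nat_lit 0), (nat_lit 5495793)]) (PF.cons (PF.leaf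 (nat_lit 11132390) (nat_lit 435537) (nat_lit 30290001) (nat_lit 3554357) [(nat_lit 435537), (nat_lit 0), (nat_lit 5471485)]) PF.nil)) (PF.cons PF.nil PF.nil)) (PF.cons PF.nil (PF.cons PF.nil (PF.cons PF.nil (PF.cons PF.nil (PF.cons PF.nil PF.nil))))))))))))

def p15_33_0_0 : pfC (piC [(nat_lit 40745421), (nat_lit 25257288), (nat_lit 16296408)] (nat_lit 19310217)) p15_33_0 (nat_lit 3) (nat_lit 0) (nat_lit 1) = true := by decide +kernel
def p15_33_0_1 : pfC (piC [(nat_lit 40745421), (nat_lit 25257288), (nat_lit 16296408)] (nat_lit 19310217)) p15_33_0 (nat_lit 3) (nat_lit 1) (nat_lit 2) = true := by decide +kernel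
def p15_33_0_2 : pfC (piC [(nat_lit 40745421), (nat_lit 25257288), (nat_lit 16296408)] (nat_lit 19310217)) p15_33_0 (nat_lit 3) (nat_lit 2) (nat_lit 3) = true := by decide +kernel
def p15_33_0_3 : pfC (piC [(nat_lit 40745421), (nat_lit 25257288), (nat_lit 16296408)] (nat_lit 19310217)) p15_33_0 (nat_lit 3) (nat_lit 3) (nat_lit 4) = true := by decide +kernel
def p15_33_0_4 : pfC (piC [(nat_lit 40745421), (nat_lit 25257288), (nat_lit 16296408)] (nat_lit 19310217)) p15_33_0 (nat_lit 3) (nat_lit 4) (nat_lit 5) = true := by decide +kernel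
def p15_33_0_5 : pfC (piC [(nat_lit 40745421), (nat_lit 25257288), (nat_lit 16296408)] (nat_lit 19310217)) p15_33_0 (nat_lit 3) (nat_lit 5) (nat_lit 6) = true := by decide +kernel
def p15_33_0_6 : pfC (piC [(nat_lit 40745421), (nat_lit 25257288), (nat_lit 16296408)] (nat_lit 19310217)) p15_33_0 (nat_lit 3) (nat_lit 6) (nat_lit 7) = true := by decide +kernel
def p15_33_0_7 : pfC (piC [(nat_lit 40745421), (nat_lit 25257288), (nat_lit 16296408)] (nat_lit 19310217)) p15_33_0 (nat_lit 3) (nat_lit 7) (nat_lit 8) = true := by decide +kernel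
def p15_33_0_8 : pfC (piC [(nat_lit 40745421), (nat_lit 25257288), (nat_lit 16296408)] (nat_lit 19310217)) p15_33_0 (nat_lit 3) (nat_lit 8) (nat_lit 9) = true := by decide +kernel
def p15_33_0_9 : pfC (piC [(nat_lit 40745421), (nat_lit 25257288), (nat_lit 16296408)] (nat_lit 19310217)) p15_33_0 (nat_lit 3) (nat_lit 9) (nat_lit 10) = true := by decide +kernel
def p15_33_0_10 : pfC (piC [(nat_lit 40745421), (nat_lit 25257288), (nat_lit 16296408)] (nat_lit 19310217)) p15_33_0 (nat_lit 3) (nat_lit 10) (nat_lit 11) = true := by decide +kernel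
def p15_33_0_11 : pfC (piC [(nat_lit 40745421), (nat_lit 25257288), (nat_lit 16296408)] (nat_lit 19310217)) p15_33_0 (nat_lit 3) (nat_lit 11) (nat_lit 12) = true := by decide +kernel
def p15_33_0_12 : pfC (piC [(nat_lit 40745421), (nat_lit 25257288), (nat_lit 16296408)] (nat_lit 19310217)) p15_33_0 (nat_lit 3) (nat_lit 12) (nat_lit 13) = true := by decide +kernel
def p15_33_0_13 : pfC (piC [(nat_lit 40745421), (nat_lit 25257288), (nat_lit 16296408)] (nat_lit 19310217)) p15_33_0 (nat_lit 3) (nat_lit 13) (nat_lit 14) = true := by decide +kernel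
def p15_33_0_14 : pfC (piC [(nat_lit 40745421), (nat_lit 25257288), (nat_lit 16296408)] (nat_lit 19310217)) p15_33_0 (nat_lit 3) (nat_lit 14) (nat_lit 15) = true := by decide +kernel
def p15_33_0_15 : pfC (piC [(nat_lit 40745421), (nat_lit 25257288), (nat_lit 16296408)] (nat_lit 19310217)) p15_33_0 (nat_lit 3) (nat_lit 15) (nat_lit 16) = true := by decide +kernel
def p15_33_0_16 : pfC (piC [(nat_lit 40745421), (nat_lit 25257288), (nat_lit 16296408)] (nat_lit 19310217)) p15_33_0 (nat_lit 3) (nat_lit 16) (nat_lit 17) = true := by decide +kernel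
def p15_33_0_17 : pfC (piC [(nat_lit 40745421), (nat_lit 25257288), (nat_lit 16296408)] (nat_lit 19310217)) p15_33_0 (nat_lit 3) (nat_lit 17) (nat_lit 18) = true := by decide +kernel
def p15_33_0_18 : pfC (piC [(nat_lit 40745421), (nat_lit 25257288), (nat_lit 16296408)] (nat_lit 19310217)) p15_33_0 (nat_lit 3) (nat_lit 18) (nat_lit 19) = true := by decide +kernel
def p15_33_0_19 : pfC (piC [(nat_lit 40745421), (nat_lit 25257288), (nat_lit 16296408)] (nat_lit 19310217)) p15_33_0 (nat_lit 3) (nat_lit 19) (nat_lit 20) = true := by decide +kernel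
def p15_33_0_20 : pfC (piC [(nat_lit 40745421), (nat_lit 25257288), (nat_lit 16296408)] (nat_lit 19310217)) p15_33_0 (nat_lit 3) (nat_lit 20) (nat_lit 21) = true := by decide +kernel
def p15_33_0_21 : pfC (piC [(nat_lit 40745421), (nat_lit 25257288), (nat_lit 16296408)] (nat_lit 19310217)) p15_33_0 (nat_lit 3) (nat_lit 21) (nat_lit 22) = true := by decide +kernel
def p15_33_0_22 : pfC (piC [(nat_lit 40745421), (nat_lit 25257288), (nat_lit 16296408)] (nat_lit 19310217)) p15_33_0 (nat_lit 3) (nat_lit 22) (nat_lit 23) = true := by decide +kernel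
def p15_33_0_23 : pfC (piC [(nat_lit 40745421), (nat_lit 25257288), (nat_lit 16296408)] (nat_lit 19310217)) p15_33_0 (nat_lit 3) (nat_lit 23) (nat_lit 24) = true := by decide +kernel
def p15_33_0_24 : pfC (piC [(nat_lit 40745421), (nat_lit 25257288), (nat_lit 16296408)] (nat_lit 19310217)) p15_33_0 (nat_lit 3) (nat_lit 24) (nat_lit 25) = true := by decide +kernel
def p15_33_0_25 : pfC (piC [(nat_lit 40745421), (nat_lit 25257288), (nat_lit 16296408)] (nat_lit 19310217)) p15_33_0 (nat_lit 3) (nat_lit 25) (nat_lit 26) = true := by decide +kernel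
def p15_33_0_26 : pfC (piC [(nat_lit 40745421), (nat_lit 25257288), (nat_lit 16296408)] (nat_lit 19310217)) p15_33_0 (nat_lit 3) (nat_lit 26) (nat_lit 27) = true := by decide +kernel
def p15_33_0_27 : pfC (piC [(nat_lit 40745421), (nat_lit 25257288), (nat_lit 16296408)] (nat_lit 19310217)) p15_33_0 (nat_lit 3) (nat_lit 27) (nat_lit 28) = true := by decide +kernel
def p15_33_0_28 : pfC (piC [(nat_lit 40745421), (nat_lit 25257288), (nat_lit 16296408)] (nat_lit 19310217)) p15_33_0 (nat_lit 3) (nat_lit 28) (nat_lit 29) = true := by decide +kernel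
def p15_33_0_29 : pfC (piC [(nat_lit 40745421), (nat_lit 25257288), (nat_lit 16296408)] (nat_lit 19310217)) p15_33_0 (nat_lit 3) (nat_lit 29) (nat_lit 30) = true := by decide +kernel
def p15_33_0_30 : pfC (piC [(nat_lit 40745421), (nat_lit 25257288), (nat_lit 16296408)] (nat_lit 19310217)) p15_33_0 (nat_lit 3) (nat_lit 30) (nat_lit 31) = true := by decide +kernel
def p15_33_0_31 : pfC (piC [(nat_lit 40745421), (nat_lit 25257288), (nat_lit 16296408)] (nat_lit 19310217)) p15_33_0 (nat_lit 3) (nat_lit 31) (nat_lit 32) = true := by decide +kernel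
def p15_33_0_32 : pfC (piC [(nat_lit 40745421), (nat_lit 25257288), (nat_lit 16296408)] (nat_lit 19310217)) p15_33_0 (nat_lit 3) (nat_lit 32) (nat_lit 33) = true := by decide +kernel
def p15_33_0_33 : pfC (piC [(nat_lit 40745421), (nat_lit 25257288), (nat_lit 16296408)] (nat_lit 19310217)) p15_33_0 (nat_lit 3) (nat_lit 33) (nat_lit 34) = true := by decide +kernel
def p15_33_0_34 : pfC (piC [(nat_lit 40745421), (nat_lit 25257288), (nat_lit 16296408)] (nat_lit 19310217)) p15_33_0 (nat_lit 3) (nat_lit 34) (nat_lit 35) = true := by decide +kernel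
def p15_33_0_35 : pfC (piC [(nat_lit 40745421), (nat_lit 25257288), (nat_lit 16296408)] (nat_lit 19310217)) p15_33_0 (nat_lit 3) (nat_lit 35) (nat_lit 36) = true := by decide +kernel
def p15_33_0_36 : pfC (piC [(nat_lit 40745421), (nat_lit 25257288), (nat_lit 16296408)] (nat_lit 19310217)) p15_33_0 (nat_lit 3) (nat_lit 36) (nat_lit 37) = true := by decide +kernel
def p15_33_0_37 : pfC (piC [(nat_lit 40745421), (nat_lit 25257288), (nat_lit 16296408)] (nat_lit 19310217)) p15_33_0 (nat_lit 3) (nat_lit 37) (nat_lit 38) = true := by decide +kernel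
def p15_33_0_38 : pfC (piC [(nat_lit 40745421), (nat_lit 25257288), (nat_lit 16296408)] (nat_lit 19310217)) p15_33_0 (nat_lit 3) (nat_lit 38) (nat_lit 39) = true := by decide +kernel
def p15_33_0_39 : pfC (piC [(nat_lit 40745421), (nat_lit 25257288), (nat_lit 16296408)] (nat_lit 19310217)) p15_33_0 (nat_lit 3) (nat_lit 39) (nat_lit 40) = true := by decide +kernel
def p15_33_0_40 : pfC (piC [(nat_lit 40745421), (nat_lit 25257288), (nat_lit 16296408)] (nat_lit 19310217)) p15_33_0 (nat_lit 3) (nat_lit 40) (nat_lit 41) = true := by decide +kernel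
def p15_33_0_41 : pfC (piC [(nat_lit 40745421), (nat_lit 25257288), (nat_lit 16296408)] (nat_lit 19310217)) p15_33_0 (nat_lit 3) (nat_lit 41) (nat_lit 42) = true := by decide +kernel
def p15_33_0_42 : pfC (piC [(nat_lit 40745421), (nat_lit 25257288), (nat_lit 16296408)] (nat_lit 19310217)) p15_33_0 (nat_lit 3) (nat_lit 42) (nat_lit 43) = true := by decide +kernel
def p15_33_0_43 : pfC (piC [(nat_lit 40745421), (nat_lit 25257288), (nat_lit 16296408)] (nat_lit 19310217)) p15_33_0 (nat_lit 3) (nat_lit 43) (nat_lit 44) = true := by decide +kernel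
def p15_33_0_44 : pfC (piC [(nat_lit 40745421), (nat_lit 25257288), (nat_lit 16296408)] (nat_lit 19310217)) p15_33_0 (nat_lit 3) (nat_lit 44) (nat_lit 45) = true := by decide +kernel
def p15_33_0_45 : pfC (piC [(nat_lit 40745421), (nat_lit 25257288), (nat_lit 16296408)] (nat_lit 19310217)) p15_33_0 (nat_lit 3) (nat_lit 45) (nat_lit 46) = true := by decide +kernel
def p15_33_0_46 : pfC (piC [(nat_lit 40745421), (nat_lit 25257288), (nat_lit 16296408)] (nat_lit 19310217)) p15_33_0 (nat_lit 3) (nat_lit 46) (nat_lit 47) = true := by decide +kernel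
def p15_33_0_47 : pfC (piC [(nat_lit 40745421), (nat_lit 25257288), (nat_lit 16296408)] (nat_lit 19310217)) p15_33_0 (nat_lit 3) (nat_lit 47) (nat_lit 48) = true := by decide +kernel
def p15_33_0_48 : pfC (piC [(nat_lit 40745421), (nat_lit 25257288), (nat_lit 16296408)] (nat_lit 19310217)) p15_33_0 (nat_lit 3) (nat_lit 48) (nat_lit 49) = true := by decide +kernel
def p15_33_0_49 : pfC (piC [(nat_lit 40745421), (nat_lit 25257288), (nat_lit 16296408)] (nat_lit 19310217)) p15_33_0 (nat_lit 3) (nat_lit 49) (nat_lit 50) = true := by decide +kernel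
def p15_33_0_50 : pfC (piC [(nat_lit 40745421), (nat_lit 25257288), (nat_lit 16296408)] (nat_lit 19310217)) p15_33_0 (nat_lit 3) (nat_lit 50) (nat_lit 51) = true := by decide +kernel
def p15_33_0_51 : pfC (piC [(nat_lit 40745421), (nat_lit 25257288), (nat_lit 16296408)] (nat_lit 19310217)) p15_33_0 (nat_lit 3) (nat_lit 51) (nat_lit 52) = true := by decide +kernel
def p15_33_0_52 : pfC (piC [(nat_lit 40745421), (nat_lit 25257288), (nat_lit 16296408)] (nat_lit 19310217)) p15_33_0 (nat_lit 3) (nat_lit 52) (nat_lit 53) = true := by decide +kernel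
def p15_33_0_53 : pfC (piC [(nat_lit 40745421), (nat_lit 25257288), (nat_lit 16296408)] (nat_lit 19310217)) p15_33_0 (nat_lit 3) (nat_lit 53) (nat_lit 54) = true := by decide +kernel
def p15_33_0_54 : pfC (piC [(nat_lit 40745421), (nat_lit 25257288), (nat_lit 16296408)] (nat_lit 19310217)) p15_33_0 (nat_lit 3) (nat_lit 54) (nat_lit 55) = true := by decide +kernel
def p15_33_0_55 : pfC (piC [(nat_lit 40745421), (nat_lit 25257288), (nat_lit 16296408)] (nat_lit 19310217)) p15_33_0 (nat_lit 3) (nat_lit 55) (nat_lit 56) = true := by decide +kernel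
def p15_33_0_56 : pfC (piC [(nat_lit 40745421), (nat_lit 25257288), (nat_lit 16296408)] (nat_lit 19310217)) p15_33_0 (nat_lit 3) (nat_lit 56) (nat_lit 57) = true := by decide +kernel
def p15_33_0_57 : pfC (piC [(nat_lit 40745421), (nat_lit 25257288), (nat_lit 16296408)] (nat_lit 19310217)) p15_33_0 (nat_lit 3) (nat_lit 57) (nat_lit 58) = true := by decide +kernel
def p15_33_0_58 : pfC (piC [(nat_lit 40745421), (nat_lit 25257288), (nat_lit 16296408)] (nat_lit 19310217)) p15_33_0 (nat_lit 3) (nat_lit 58) (nat_lit 59) = true := by decide +kernel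
def p15_33_0_59 : pfC (piC [(nat_lit 40745421), (nat_lit 25257288), (nat_lit 16296408)] (nat_lit 19310217)) p15_33_0 (nat_lit 3) (nat_lit 59) (nat_lit 60) = true := by decide +kernel
def p15_33_0_60 : pfC (piC [(nat_lit 40745421), (nat_lit 25257288), (nat_lit 16296408)] (nat_lit 19310217)) p15_33_0 (nat_lit 3) (nat_lit 60) (nat_lit 61) = true := by decide +kernel
def p15_33_0_61 : pfC (piC [(nat_lit 40745421), (nat_lit 25257288), (nat_lit 16296408)] (nat_lit 19310217)) p15_33_0 (nat_lit 3) (nat_lit 61) (nat_lit 62) = true := by decide +kernel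
def p15_33_0_62 : pfC (piC [(nat_lit 40745421), (nat_lit 25257288), (nat_lit 16296408)] (nat_lit 19310217)) p15_33_0 (nat_lit 3) (nat_lit 62) (nat_lit 63) = true := by decide +kernel
def p15_33_0_63 : pfC (piC [(nat_lit 40745421), (nat_lit 25257288), (nat_lit 16296408)] (nat_lit 19310217)) p15_33_0 (nat_lit 3) (nat_lit 63) (nat_lit 64) = true := by decide +kernel
def p15_33_0_64 : pfC (piC [(nat_lit 40745421), (nat_lit 25257288), (nat_lit 16296408)] (nat_lit 19310217)) p15_33_0 (nat_lit 3) (nat_lit 64) (nat_lit 65) = true := by decide +kernel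
def p15_33_0_65 : pfC (piC [(nat_lit 40745421), (nat_lit 25257288), (nat_lit 16296408)] (nat_lit 19310217)) p15_33_0 (nat_lit 3) (nat_lit 65) (nat_lit 66) = true := by decide +kernel
def p15_33_0_66 : pfC (piC [(nat_lit 40745421), (nat_lit 25257288), (nat_lit 16296408)] (nat_lit 19310217)) p15_33_0 (nat_lit 3) (nat_lit 66) (nat_lit 67) = true := by decide +kernel
def p15_33_0_67 : pfC (piC [(nat_lit 40745421), (nat_lit 25257288), (nat_lit 16296408)] (nat_lit 19310217)) p15_33_0 (nat_lit 3) (nat_lit 67) (nat_lit 68) = true := by decide +kernel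
def p15_33_0_68 : pfC (piC [(nat_lit 40745421), (nat_lit 25257288), (nat_lit 16296408)] (nat_lit 19310217)) p15_33_0 (nat_lit 3) (nat_lit 68) (nat_lit 69) = true := by decide +kernel
def p15_33_0_69 : pfC (piC [(nat_lit 40745421), (nat_lit 25257288), (nat_lit 16296408)] (nat_lit 19310217)) p15_33_0 (nat_lit 3) (nat_lit 69) (nat_lit 70) = true := by decide +kernel
def p15_33_0_70 : pfC (piC [(nat_lit 40745421), (nat_lit 25257288), (nat_lit 16296408)] (nat_lit 19310217)) p15_33_0 (nat_lit 3) (nat_lit 70) (nat_lit 71) = true := by decide +kernel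
def p15_33_0_71 : pfC (piC [(nat_lit 40745421), (nat_lit 25257288), (nat_lit 16296408)] (nat_lit 19310217)) p15_33_0 (nat_lit 3) (nat_lit 71) (nat_lit 72) = true := by decide +kernel
def p15_33_0_72 : pfC (piC [(nat_lit 40745421), (nat_lit 25257288), (nat_lit 16296408)] (nat_lit 19310217)) p15_33_0 (nat_lit 3) (nat_lit 72) (nat_lit 73) = true := by decide +kernel
def p15_33_0_73 : pfC (piC [(nat_lit 40745421), (nat_lit 25257288), (nat_lit 16296408)] (nat_lit 19310217)) p15_33_0 (nat_lit 3) (nat_lit 73) (nat_lit 74) = true := by decide +kernel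
def p15_33_0_74 : pfC (piC [(nat_lit 40745421), (nat_lit 25257288), (nat_lit 16296408)] (nat_lit 19310217)) p15_33_0 (nat_lit 3) (nat_lit 74) (nat_lit 75) = true := by decide +kernel
def p15_33_0_75 : pfC (piC [(nat_lit 40745421), (nat_lit 25257288), (nat_lit 16296408)] (nat_lit 19310217)) p15_33_0 (nat_lit 3) (nat_lit 75) (nat_lit 76) = true := by decide +kernel
def p15_33_0_76 : pfC (piC [(nat_lit 40745421), (nat_lit 25257288), (nat_lit 16296408)] (nat_lit 19310217)) p15_33_0 (nat_lit 3) (nat_lit 76) (nat_lit 77) = true := by decide +kernel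
def p15_33_0_77 : pfC (piC [(nat_lit 40745421), (nat_lit 25257288), (nat_lit 16296408)] (nat_lit 19310217)) p15_33_0 (nat_lit 3) (nat_lit 77) (nat_lit 78) = true := by decide +kernel
def p15_33_0_78 : pfC (piC [(nat_lit 40745421), (nat_lit 25257288), (nat_lit 16296408)] (nat_lit 19310217)) p15_33_0 (nat_lit 3) (nat_lit 78) (nat_lit 79) = true := by decide +kernel
def p15_33_0_79 : pfC (piC [(nat_lit 40745421), (nat_lit 25257288), (nat_lit 16296408)] (nat_lit 19310217)) p15_33_0 (nat_lit 3) (nat_lit 79) (nat_lit 80) = true := by decide +kernel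
def p15_33_0_80 : pfC (piC [(nat_lit 40745421), (nat_lit 25257288), (nat_lit 16296408)] (nat_lit 19310217)) p15_33_0 (nat_lit 3) (nat_lit 80) (nat_lit 81) = true := by decide +kernel
def p15_33_0_81 : pfC (piC [(nat_lit 40745421), (nat_lit 25257288), (nat_lit 16296408)] (nat_lit 19310217)) p15_33_0 (nat_lit 3) (nat_lit 81) (nat_lit 82) = true := by decide +kernel
def p15_33_0_82 : pfC (piC [(nat_lit 40745421), (nat_lit 25257288), (nat_lit 16296408)] (nat_lit 19310217)) p15_33_0 (nat_lit 3) (nat_lit 82) (nat_lit 83) = true := by decide +kernel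
def p15_33_0_83 : pfC (piC [(nat_lit 40745421), (nat_lit 25257288), (nat_lit 16296408)] (nat_lit 19310217)) p15_33_0 (nat_lit 3) (nat_lit 83) (nat_lit 84) = true := by decide +kernel
def p15_33_0_84 : pfC (piC [(nat_lit 40745421), (nat_lit 25257288), (nat_lit 16296408)] (nat_lit 19310217)) p15_33_0 (nat_lit 3) (nat_lit 84) (nat_lit 85) = true := by decide +kernel
def p15_33_0_85 : pfC (piC [(nat_lit 40745421), (nat_lit 25257288), (nat_lit 16296408)] (nat_lit 19310217)) p15_33_0 (nat_lit 3) (nat_lit 85) (nat_lit 86) = true := by decide +kernel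
def p15_33_0_86 : pfC (piC [(nat_lit 40745421), (nat_lit 25257288), (nat_lit 16296408)] (nat_lit 19310217)) p15_33_0 (nat_lit 3) (nat_lit 86) (nat_lit 87) = true := by decide +kernel
def p15_33_0_87 : pfC (piC [(nat_lit 40745421), (nat_lit 25257288), (nat_lit 16296408)] (nat_lit 19310217)) p15_33_0 (nat_lit 3) (nat_lit 87) (nat_lit 88) = true := by decide +kernel
def p15_33_0_88 : pfC (piC [(nat_lit 40745421), (nat_lit 25257288), (nat_lit 16296408)] (nat_lit 19310217)) p15_33_0 (nat_lit 3) (nat_lit 88) (nat_lit 89) = true := by decide +kernel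
def p15_33_0_89 : pfC (piC [(nat_lit 40745421), (nat_lit 25257288), (nat_lit 16296408)] (nat_lit 19310217)) p15_33_0 (nat_lit 3) (nat_lit 89) (nat_lit 90) = true := by decide +kernel
def p15_33_0_90 : pfC (piC [(nat_lit 40745421), (nat_lit 25257288), (nat_lit 16296408)] (nat_lit 19310217)) p15_33_0 (nat_lit 3) (nat_lit 90) (nat_lit 91) = true := by decide +kernel
def p15_33_0_91 : pfC (piC [(nat_lit 40745421), (nat_lit 25257288), (nat_lit 16296408)] (nat_lit 19310217)) p15_33_0 (nat_lit 3) (nat_lit 91) (nat_lit 92) = true := by decide +kernel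
def p15_33_0_92 : pfC (piC [(nat_lit 40745421), (nat_lit 25257288), (nat_lit 16296408)] (nat_lit 19310217)) p15_33_0 (nat_lit 3) (nat_lit 92) (nat_lit 93) = true := by decide +kernel
def p15_33_0_93 : pfC (piC [(nat_lit 40745421), (nat_lit 25257288), (nat_lit 16296408)] (nat_lit 19310217)) p15_33_0 (nat_lit 3) (nat_lit 93) (nat_lit 94) = true := by decide +kernel
def p15_33_0_94 : pfC (piC [(nat_lit 40745421), (nat_lit 25257288), (nat_lit 16296408)] (nat_lit 19310217)) p15_33_0 (nat_lit 3) (nat_lit 94) (nat_lit 95) = true := by decide +kernel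
def p15_33_0_95 : pfC (piC [(nat_lit 40745421), (nat_lit 25257288), (nat_lit 16296408)] (nat_lit 19310217)) p15_33_0 (nat_lit 3) (nat_lit 95) (nat_lit 96) = true := by decide +kernel
def p15_33_0_96 : pfC (piC [(nat_lit 40745421), (nat_lit 25257288), (nat_lit 16296408)] (nat_lit 19310217)) p15_33_0 (nat_lit 3) (nat_lit 96) (nat_lit 97) = true := by decide +kernel
def p15_33_0_97 : pfC (piC [(nat_lit 40745421), (nat_lit 25257288), (nat_lit 16296408)] (nat_lit 19310217)) p15_33_0 (nat_lit 3) (nat_lit 97) (nat_lit 98) = true := by decide +kernel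
def p15_33_0_98 : pfC (piC [(nat_lit 40745421), (nat_lit 25257288), (nat_lit 16296408)] (nat_lit 19310217)) p15_33_0 (nat_lit 3) (nat_lit 98) (nat_lit 99) = true := by decide +kernel
def p15_33_0_99 : pfC (piC [(nat_lit 40745421), (nat_lit 25257288), (nat_lit 16296408)] (nat_lit 19310217)) p15_33_0 (nat_lit 3) (nat_lit 99) (nat_lit 100) = true := by decide +kernel
def p15_33_0_100 : pfC (piC [(nat_lit 40745421), (nat_lit 25257288), (nat_lit 16296408)] (nat_lit 19310217)) p15_33_0 (nat_lit 3) (nat_lit 100) (nat_lit 101) = true := by decide +kernel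
def p15_33_0_101 : pfC (piC [(nat_lit 40745421), (nat_lit 25257288), (nat_lit 16296408)] (nat_lit 19310217)) p15_33_0 (nat_lit 3) (nat_lit 101) (nat_lit 102) = true := by decide +kernel
def p15_33_0_102 : pfC (piC [(nat_lit 40745421), (nat_lit 25257288), (nat_lit 16296408)] (nat_lit 19310217)) p15_33_0 (nat_lit 3) (nat_lit 102) (nat_lit 103) = true := by decide +kernel
def p15_33_0_103 : pfC (piC [(nat_lit 40745421), (nat_lit 25257288), (nat_lit 16296408)] (nat_lit 19310217)) p15_33_0 (nat_lit 3) (nat_lit 103) (nat_lit 104) = true := by decide +kernel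
def p15_33_0_104 : pfC (piC [(nat_lit 40745421), (nat_lit 25257288), (nat_lit 16296408)] (nat_lit 19310217)) p15_33_0 (nat_lit 3) (nat_lit 104) (nat_lit 105) = true := by decide +kernel
def p15_33_0_105 : pfC (piC [(nat_lit 40745421), (nat_lit 25257288), (nat_lit 16296408)] (nat_lit 19310217)) p15_33_0 (nat_lit 3) (nat_lit 105) (nat_lit 106) = true := by decide +kernel
def p15_33_0_106 : pfC (piC [(nat_lit 40745421), (nat_lit 25257288), (nat_lit 16296408)] (nat_lit 19310217)) p15_33_0 (nat_lit 3) (nat_lit 106) (nat_lit 107) = true := by decide +kernel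
def p15_33_0_107 : pfC (piC [(nat_lit 40745421), (nat_lit 25257288), (nat_lit 16296408)] (nat_lit 19310217)) p15_33_0 (nat_lit 3) (nat_lit 107) (nat_lit 108) = true := by decide +kernel
def p15_33_0_108 : pfC (piC [(nat_lit 40745421), (nat_lit 25257288), (nat_lit 16296408)] (nat_lit 19310217)) p15_33_0 (nat_lit 3) (nat_lit 108) (nat_lit 109) = true := by decide +kernel
def p15_33_0_109 : pfC (piC [(nat_lit 40745421), (nat_lit 25257288), (nat_lit 16296408)] (nat_lit 19310217)) p15_33_0 (nat_lit 3) (nat_lit 109) (nat_lit 110) = true := by decide +kernel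
def p15_33_0_110 : pfC (piC [(nat_lit 40745421), (nat_lit 25257288), (nat_lit 16296408)] (nat_lit 19310217)) p15_33_0 (nat_lit 3) (nat_lit 110) (nat_lit 111) = true := by decide +kernel
def p15_33_0_111 : pfC (piC [(nat_lit 40745421), (nat_lit 25257288), (nat_lit 16296408)] (nat_lit 19310217)) p15_33_0 (nat_lit 3) (nat_lit 111) (nat_lit 112) = true := by decide +kernel
def p15_33_0_112 : pfC (piC [(nat_lit 40745421), (nat_lit 25257288), (nat_lit 16296408)] (nat_lit 19310217)) p15_33_0 (nat_lit 3) (nat_lit 112) (nat_lit 113) = true := by decide +kernel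
def p15_33_0_113 : pfC (piC [(nat_lit 40745421), (nat_lit 25257288), (nat_lit 16296408)] (nat_lit 19310217)) p15_33_0 (nat_lit 3) (nat_lit 113) (nat_lit 114) = true := by decide +kernel
def p15_33_0_114 : pfC (piC [(nat_lit 40745421), (nat_lit 25257288), (nat_lit 16296408)] (nat_lit 19310217)) p15_33_0 (nat_lit 3) (nat_lit 114) (nat_lit 115) = true := by decide +kernel
def p15_33_0_115 : pfC (piC [(nat_lit 40745421), (nat_lit 25257288), (nat_lit 16296408)] (nat_lit 19310217)) p15_33_0 (nat_lit 3) (nat_lit 115) (nat_lit 116) = true := by decide +kernel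
def p15_33_0_116 : pfC (piC [(nat_lit 40745421), (nat_lit 25257288), (nat_lit 16296408)] (nat_lit 19310217)) p15_33_0 (nat_lit 3) (nat_lit 116) (nat_lit 117) = true := by decide +kernel
def p15_33_0_117 : pfC (piC [(nat_lit 40745421), (nat_lit 25257288), (nat_lit 16296408)] (nat_lit 19310217)) p15_33_0 (nat_lit 3) (nat_lit 117) (nat_lit 118) = true := by decide +kernel
def p15_33_0_118 : pfC (piC [(nat_lit 40745421), (nat_lit 25257288), (nat_lit 16296408)] (nat_lit 19310217)) p15_33_0 (nat_lit 3) (nat_lit 118) (nat_lit 119) = true := by decide +kernel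
def p15_33_0_119 : pfC (piC [(nat_lit 40745421), (nat_lit 25257288), (nat_lit 16296408)] (nat_lit 19310217)) p15_33_0 (nat_lit 3) (nat_lit 119) (nat_lit 120) = true := by decide +kernel
def p15_33_0_120 : pfC (piC [(nat_lit 40745421), (nat_lit 25257288), (nat_lit 16296408)] (nat_lit 19310217)) p15_33_0 (nat_lit 3) (nat_lit 120) (nat_lit 121) = true := by decide +kernel
def p15_33_0_121 : pfC (piC [(nat_lit 40745421), (nat_lit 25257288), (nat_lit 16296408)] (nat_lit 19310217)) p15_33_0 (nat_lit 3) (nat_lit 121) (nat_lit 122) = true := by decide +kernel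
def p15_33_0_122 : pfC (piC [(nat_lit 40745421), (nat_lit 25257288), (nat_lit 16296408)] (nat_lit 19310217)) p15_33_0 (nat_lit 3) (nat_lit 122) (nat_lit 123) = true := by decide +kernel
def p15_33_0_123 : pfC (piC [(nat_lit 40745421), (nat_lit 25257288), (nat_lit 16296408)] (nat_lit 19310217)) p15_33_0 (nat_lit 3) (nat_lit 123) (nat_lit 124) = true := by decide +kernel
def p15_33_0_124 : pfC (piC [(nat_lit 40745421), (nat_lit 25257288), (nat_lit 16296408)] (nat_lit 19310217)) p15_33_0 (nat_lit 3) (nat_lit 124) (nat_lit 125) = true := by decide +kernel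
def p15_33_0_125 : pfC (piC [(nat_lit 40745421), (nat_lit 25257288), (nat_lit 16296408)] (nat_lit 19310217)) p15_33_0 (nat_lit 3) (nat_lit 125) (nat_lit 126) = true := by decide +kernel
def p15_33_0_126 : pfC (piC [(nat_lit 40745421), (nat_lit 25257288), (nat_lit 16296408)] (nat_lit 19310217)) p15_33_0 (nat_lit 3) (nat_lit 126) (nat_lit 127) = true := by decide +kernel
def p15_33_0_127 : pfC (piC [(nat_lit 40745421), (nat_lit 25257288), (nat_lit 16296408)] (nat_lit 19310217)) p15_33_0 (nat_lit 3) (nat_lit 127) (nat_lit 128) = true := by decide +kernel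
def p15_33_0_128 : pfC (piC [(nat_lit 40745421), (nat_lit 25257288), (nat_lit 16296408)] (nat_lit 19310217)) p15_33_0 (nat_lit 3) (nat_lit 128) (nat_lit 129) = true := by decide +kernel
def p15_33_0_129 : pfC (piC [(nat_lit 40745421), (nat_lit 25257288), (nat_lit 16296408)] (nat_lit 19310217)) p15_33_0 (nat_lit 3) (nat_lit 129) (nat_lit 130) = true := by decide +kernel
def p15_33_0_130 : pfC (piC [(nat_lit 40745421), (nat_lit 25257288), (nat_lit 16296408)] (nat_lit 19310217)) p15_33_0 (nat_lit 3) (nat_lit 130) (nat_lit 131) = true := by decide +kernel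
def p15_33_0_131 : pfC (piC [(nat_lit 40745421), (nat_lit 25257288), (nat_lit 16296408)] (nat_lit 19310217)) p15_33_0 (nat_lit 3) (nat_lit 131) (nat_lit 132) = true := by decide +kernel
def p15_33_0_132 : pfC (piC [(nat_lit 40745421), (nat_lit 25257288), (nat_lit 16296408)] (nat_lit 19310217)) p15_33_0 (nat_lit 3) (nat_lit 132) (nat_lit 133) = true := by decide +kernel
def p15_33_0_133 : pfC (piC [(nat_lit 40745421), (nat_lit 25257288), (nat_lit 16296408)] (nat_lit 19310217)) p15_33_0 (nat_lit 3) (nat_lit 133) (nat_lit 134) = true := by decide +kernel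
def p15_33_0_134 : pfC (piC [(nat_lit 40745421), (nat_lit 25257288), (nat_lit 16296408)] (nat_lit 19310217)) p15_33_0 (nat_lit 3) (nat_lit 134) (nat_lit 135) = true := by decide +kernel
def p15_33_0_135 : pfC (piC [(nat_lit 40745421), (nat_lit 25257288), (nat_lit 16296408)] (nat_lit 19310217)) p15_33_0 (nat_lit 3) (nat_lit 135) (nat_lit 136) = true := by decide +kernel
def p15_33_0_136 : pfC (piC [(nat_lit 40745421), (nat_lit 25257288), (nat_lit 16296408)] (nat_lit 19310217)) p15_33_0 (nat_lit 3) (nat_lit 136) (nat_lit 137) = true := by decide +kernel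
def p15_33_0_137 : pfC (piC [(nat_lit 40745421), (nat_lit 25257288), (nat_lit 16296408)] (nat_lit 19310217)) p15_33_0 (nat_lit 3) (nat_lit 137) (nat_lit 138) = true := by decide +kernel
def p15_33_0_138 : pfC (piC [(nat_lit 40745421), (nat_lit 25257288), (nat_lit 16296408)] (nat_lit 19310217)) p15_33_0 (nat_lit 3) (nat_lit 138) (nat_lit 139) = true := by decide +kernel
def p15_33_0_139 : pfC (piC [(nat_lit 40745421), (nat_lit 25257288), (nat_lit 16296408)] (nat_lit 19310217)) p15_33_0 (nat_lit 3) (nat_lit 139) (nat_lit 140) = true := by decide +kernel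
def p15_33_0_140 : pfC (piC [(nat_lit 40745421), (nat_lit 25257288), (nat_lit 16296408)] (nat_lit 19310217)) p15_33_0 (nat_lit 3) (nat_lit 140) (nat_lit 141) = true := by decide +kernel
def p15_33_0_141 : pfC (piC [(nat_lit 40745421), (nat_lit 25257288), (nat_lit 16296408)] (nat_lit 19310217)) p15_33_0 (nat_lit 3) (nat_lit 141) (nat_lit 142) = true := by decide +kernel
def p15_33_0_142 : pfC (piC [(nat_lit 40745421), (nat_lit 25257288), (nat_lit 16296408)] (nat_lit 19310217)) p15_33_0 (nat_lit 3) (nat_lit 142) (nat_lit 143) = true := by decide +kernel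
def p15_33_0_143 : pfC (piC [(nat_lit 40745421), (nat_lit 25257288), (nat_lit 16296408)] (nat_lit 19310217)) p15_33_0 (nat_lit 3) (nat_lit 143) (nat_lit 144) = true := by decide +kernel
def p15_33_0_144 : pfC (piC [(nat_lit 40745421), (nat_lit 25257288), (nat_lit 16296408)] (nat_lit 19310217)) p15_33_0 (nat_lit 3) (nat_lit 144) (nat_lit 145) = true := by decide +kernel
def p15_33_0_145 : pfC (piC [(nat_lit 40745421), (nat_lit 25257288), (nat_lit 16296408)] (nat_lit 19310217)) p15_33_0 (nat_lit 3) (nat_lit 145) (nat_lit 146) = true := by decide +kernel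
def p15_33_0_146 : pfC (piC [(nat_lit 40745421), (nat_lit 25257288), (nat_lit 16296408)] (nat_lit 19310217)) p15_33_0 (nat_lit 3) (nat_lit 146) (nat_lit 147) = true := by decide +kernel
def p15_33_0_147 : pfC (piC [(nat_lit 40745421), (nat_lit 25257288), (nat_lit 16296408)] (nat_lit 19310217)) p15_33_0 (nat_lit 3) (nat_lit 147) (nat_lit 148) = true := by decide +kernel
def p15_33_0_148 : pfC (piC [(nat_lit 40745421), (nat_lit 25257288), (nat_lit 16296408)] (nat_lit 19310217)) p15_33_0 (nat_lit 3) (nat_lit 148) (nat_lit 149) = true := by decide +kernel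
def p15_33_0_149 : pfC (piC [(nat_lit 40745421), (nat_lit 25257288), (nat_lit 16296408)] (nat_lit 19310217)) p15_33_0 (nat_lit 3) (nat_lit 149) (nat_lit 150) = true := by decide +kernel
def p15_33_0_150 : pfC (piC [(nat_lit 40745421), (nat_lit 25257288), (nat_lit 16296408)] (nat_lit 19310217)) p15_33_0 (nat_lit 3) (nat_lit 150) (nat_lit 151) = true := by decide +kernel
def p15_33_0_151 : pfC (piC [(nat_lit 40745421), (nat_lit 25257288), (nat_lit 16296408)] (nat_lit 19310217)) p15_33_0 (nat_lit 3) (nat_lit 151) (nat_lit 152) = true := by decide +kernel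
def p15_33_0_152 : pfC (piC [(nat_lit 40745421), (nat_lit 25257288), (nat_lit 16296408)] (nat_lit 19310217)) p15_33_0 (nat_lit 3) (nat_lit 152) (nat_lit 153) = true := by decide +kernel
def p15_33_0_153 : pfC (piC [(nat_lit 40745421), (nat_lit 25257288), (nat_lit 16296408)] (nat_lit 19310217)) p15_33_0 (nat_lit 3) (nat_lit 153) (nat_lit 154) = true := by decide +kernel
def p15_33_0_154 : pfC (piC [(nat_lit 40745421), (nat_lit 25257288), (nat_lit 16296408)] (nat_lit 19310217)) p15_33_0 (nat_lit 3) (nat_lit 154) (nat_lit 155) = true := by decide +kernel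
def p15_33_0_155 : pfC (piC [(nat_lit 40745421), (nat_lit 25257288), (nat_lit 16296408)] (nat_lit 19310217)) p15_33_0 (nat_lit 3) (nat_lit 155) (nat_lit 156) = true := by decide +kernel
def p15_33_0_156 : pfC (piC [(nat_lit 40745421), (nat_lit 25257288), (nat_lit 16296408)] (nat_lit 19310217)) p15_33_0 (nat_lit 3) (nat_lit 156) (nat_lit 157) = true := by decide +kernel
def p15_33_0_157 : pfC (piC [(nat_lit 40745421), (nat_lit 25257288), (nat_lit 16296408)] (nat_lit 19310217)) p15_33_0 (nat_lit 3) (nat_lit 157) (nat_lit 158) = true := by decide +kernel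
def p15_33_0_158 : pfC (piC [(nat_lit 40745421), (nat_lit 25257288), (nat_lit 16296408)] (nat_lit 19310217)) p15_33_0 (nat_lit 3) (nat_lit 158) (nat_lit 159) = true := by decide +kernel
def p15_33_0_159 : pfC (piC [(nat_lit 40745421), (nat_lit 25257288), (nat_lit 16296408)] (nat_lit 19310217)) p15_33_0 (nat_lit 3) (nat_lit 159) (nat_lit 160) = true := by decide +kernel
def p15_33_0_160 : pfC (piC [(nat_lit 40745421), (nat_lit 25257288), (nat_lit 16296408)] (nat_lit 19310217)) p15_33_0 (nat_lit 3) (nat_lit 160) (nat_lit 161) = true := by decide +kernel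
def p15_33_0_161 : pfC (piC [(nat_lit 40745421), (nat_lit 25257288), (nat_lit 16296408)] (nat_lit 19310217)) p15_33_0 (nat_lit 3) (nat_lit 161) (nat_lit 162) = true := by decide +kernel
def p15_33_0_162 : pfC (piC [(nat_lit 40745421), (nat_lit 25257288), (nat_lit 16296408)] (nat_lit 19310217)) p15_33_0 (nat_lit 3) (nat_lit 162) (nat_lit 163) = true := by decide +kernel
def p15_33_0_163 : pfC (piC [(nat_lit 40745421), (nat_lit 25257288), (nat_lit 16296408)] (nat_lit 19310217)) p15_33_0 (nat_lit 3) (nat_lit 163) (nat_lit 164) = true := by decide +kernel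
def p15_33_0_164 : pfC (piC [(nat_lit 40745421), (nat_lit 25257288), (nat_lit 16296408)] (nat_lit 19310217)) p15_33_0 (nat_lit 3) (nat_lit 164) (nat_lit 165) = true := by decide +kernel
def p15_33_0_165 : pfC (piC [(nat_lit 40745421), (nat_lit 25257288), (nat_lit 16296408)] (nat_lit 19310217)) p15_33_0 (nat_lit 3) (nat_lit 165) (nat_lit 166) = true := by decide +kernel
def p15_33_0_166 : pfC (piC [(nat_lit 40745421), (nat_lit 25257288), (nat_lit 16296408)] (nat_lit 19310217)) p15_33_0 (nat_lit 3) (nat_lit 166) (nat_lit 167) = true := by decide +kernel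
def p15_33_0_167 : pfC (piC [(nat_lit 40745421), (nat_lit 25257288), (nat_lit 16296408)] (nat_lit 19310217)) p15_33_0 (nat_lit 3) (nat_lit 167) (nat_lit 168) = true := by decide +kernel
def p15_33_0_168 : pfC (piC [(nat_lit 40745421), (nat_lit 25257288), (nat_lit 16296408)] (nat_lit 19310217)) p15_33_0 (nat_lit 3) (nat_lit 168) (nat_lit 169) = true := by decide +kernel
def p15_33_0_169 : pfC (piC [(nat_lit 40745421), (nat_lit 25257288), (nat_lit 16296408)] (nat_lit 19310217)) p15_33_0 (nat_lit 3) (nat_lit 169) (nat_lit 170) = true := by decide +kernel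
def p15_33_0_170 : pfC (piC [(nat_lit 40745421), (nat_lit 25257288), (nat_lit 16296408)] (nat_lit 19310217)) p15_33_0 (nat_lit 3) (nat_lit 170) (nat_lit 171) = true := by decide +kernel
def p15_33_0_171 : pfC (piC [(nat_lit 40745421), (nat_lit 25257288), (nat_lit 16296408)] (nat_lit 19310217)) p15_33_0 (nat_lit 3) (nat_lit 171) (nat_lit 172) = true := by decide +kernel
def p15_33_0_172 : pfC (piC [(nat_lit 40745421), (nat_lit 25257288), (nat_lit 16296408)] (nat_lit 19310217)) p15_33_0 (nat_lit 3) (nat_lit 172) (nat_lit 173) = true := by decide +kernel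
def p15_33_0_173 : pfC (piC [(nat_lit 40745421), (nat_lit 25257288), (nat_lit 16296408)] (nat_lit 19310217)) p15_33_0 (nat_lit 3) (nat_lit 173) (nat_lit 174) = true := by decide +kernel
def p15_33_0_174 : pfC (piC [(nat_lit 40745421), (nat_lit 25257288), (nat_lit 16296408)] (nat_lit 19310217)) p15_33_0 (nat_lit 3) (nat_lit 174) (nat_lit 175) = true := by decide +kernel
def p15_33_0_175 : pfC (piC [(nat_lit 40745421), (nat_lit 25257288), (nat_lit 16296408)] (nat_lit 19310217)) p15_33_0 (nat_lit 3) (nat_lit 175) (nat_lit 176) = true := by decide +kernel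
def p15_33_0_176 : pfC (piC [(nat_lit 40745421), (nat_lit 25257288), (nat_lit 16296408)] (nat_lit 19310217)) p15_33_0 (nat_lit 3) (nat_lit 176) (nat_lit 177) = true := by decide +kernel
def p15_33_0_177 : pfC (piC [(nat_lit 40745421), (nat_lit 25257288), (nat_lit 16296408)] (nat_lit 19310217)) p15_33_0 (nat_lit 3) (nat_lit 177) (nat_lit 178) = true := by decide +kernel
def p15_33_0_178 : pfC (piC [(nat_lit 40745421), (nat_lit 25257288), (nat_lit 16296408)] (nat_lit 19310217)) p15_33_0 (nat_lit 3) (nat_lit 178) (nat_lit 179) = true := by decide +kernel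
def p15_33_0_179 : pfC (piC [(nat_lit 40745421), (nat_lit 25257288), (nat_lit 16296408)] (nat_lit 19310217)) p15_33_0 (nat_lit 3) (nat_lit 179) (nat_lit 180) = true := by decide +kernel
def p15_33_0_180 : pfC (piC [(nat_lit 40745421), (nat_lit 25257288), (nat_lit 16296408)] (nat_lit 19310217)) p15_33_0 (nat_lit 3) (nat_lit 180) (nat_lit 181) = true := by decide +kernel
def p15_33_0_181 : pfC (piC [(nat_lit 40745421), (nat_lit 25257288), (nat_lit 16296408)] (nat_lit 19310217)) p15_33_0 (nat_lit 3) (nat_lit 181) (nat_lit 182) = true := by decide +kernel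
def p15_33_0_182 : pfC (piC [(nat_lit 40745421), (nat_lit 25257288), (nat_lit 16296408)] (nat_lit 19310217)) p15_33_0 (nat_lit 3) (nat_lit 182) (nat_lit 183) = true := by decide +kernel
def p15_33_0_183 : pfC (piC [(nat_lit 40745421), (nat_lit 25257288), (nat_lit 16296408)] (nat_lit 19310217)) p15_33_0 (nat_lit 3) (nat_lit 183) (nat_lit 184) = true := by decide +kernel
def p15_33_0_184 : pfC (piC [(nat_lit 40745421), (nat_lit 25257288), (nat_lit 16296408)] (nat_lit 19310217)) p15_33_0 (nat_lit 3) (nat_lit 184) (nat_lit 185) = true := by decide +kernel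
def p15_33_0_185 : pfC (piC [(nat_lit 40745421), (nat_lit 25257288), (nat_lit 16296408)] (nat_lit 19310217)) p15_33_0 (nat_lit 3) (nat_lit 185) (nat_lit 186) = true := by decide +kernel
def p15_33_0_186 : pfC (piC [(nat_lit 40745421), (nat_lit 25257288), (nat_lit 16296408)] (nat_lit 19310217)) p15_33_0 (nat_lit 3) (nat_lit 186) (nat_lit 187) = true := by decide +kernel
def p15_33_0_187 : pfC (piC [(nat_lit 40745421), (nat_lit 25257288), (nat_lit 16296408)] (nat_lit 19310217)) p15_33_0 (nat_lit 3) (nat_lit 187) (nat_lit 188) = true := by decide +kernel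
def p15_33_0_188 : pfC (piC [(nat_lit 40745421), (nat_lit 25257288), (nat_lit 16296408)] (nat_lit 19310217)) p15_33_0 (nat_lit 3) (nat_lit 188) (nat_lit 189) = true := by decide +kernel
def p15_33_0_189 : pfC (piC [(nat_lit 40745421), (nat_lit 25257288), (nat_lit 16296408)] (nat_lit 19310217)) p15_33_0 (nat_lit 3) (nat_lit 189) (nat_lit 190) = true := by decide +kernel
def p15_33_0_190 : pfC (piC [(nat_lit 40745421), (nat_lit 25257288), (nat_lit 16296408)] (nat_lit 19310217)) p15_33_0 (nat_lit 3) (nat_lit 190) (nat_lit 191) = true := by decide +kernel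
def p15_33_0_191 : pfC (piC [(nat_lit 40745421), (nat_lit 25257288), (nat_lit 16296408)] (nat_lit 19310217)) p15_33_0 (nat_lit 3) (nat_lit 191) (nat_lit 192) = true := by decide +kernel
def p15_33_0_192 : pfC (piC [(nat_lit 40745421), (nat_lit 25257288), (nat_lit 16296408)] (nat_lit 19310217)) p15_33_0 (nat_lit 3) (nat_lit 192) (nat_lit 193) = true := by decide +kernel
def p15_33_0_193 : pfC (piC [(nat_lit 40745421), (nat_lit 25257288), (nat_lit 16296408)] (nat_lit 19310217)) p15_33_0 (nat_lit 3) (nat_lit 193) (nat_lit 194) = true := by decide +kernel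
def p15_33_0_194 : pfC (piC [(nat_lit 40745421), (nat_lit 25257288), (nat_lit 16296408)] (nat_lit 19310217)) p15_33_0 (nat_lit 3) (nat_lit 194) (nat_lit 195) = true := by decide +kernel
def p15_33_0_195 : pfC (piC [(nat_lit 40745421), (nat_lit 25257288), (nat_lit 16296408)] (nat_lit 19310217)) p15_33_0 (nat_lit 3) (nat_lit 195) (nat_lit 196) = true := by decide +kernel
def p15_33_0_196 : pfC (piC [(nat_lit 40745421), (nat_lit 25257288), (nat_lit 16296408)] (nat_lit 19310217)) p15_33_0 (nat_lit 3) (nat_lit 196) (nat_lit 197) = true := by decide +kernel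
def p15_33_0_197 : pfC (piC [(nat_lit 40745421), (nat_lit 25257288), (nat_lit 16296408)] (nat_lit 19310217)) p15_33_0 (nat_lit 3) (nat_lit 197) (nat_lit 198) = true := by decide +kernel
def p15_33_0_198 : pfC (piC [(nat_lit 40745421), (nat_lit 25257288), (nat_lit 16296408)] (nat_lit 19310217)) p15_33_0 (nat_lit 3) (nat_lit 198) (nat_lit 199) = true := by decide +kernel
def p15_33_0_199 : pfC (piC [(nat_lit 40745421), (nat_lit 25257288), (nat_lit 16296408)] (nat_lit 19310217)) p15_33_0 (nat_lit 3) (nat_lit 199) (nat_lit 200) = true := by decide +kernel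
def p15_33_0_200 : pfC (piC [(nat_lit 40745421), (nat_lit 25257288), (nat_lit 16296408)] (nat_lit 19310217)) p15_33_0 (nat_lit 3) (nat_lit 200) (nat_lit 201) = true := by decide +kernel
def p15_33_0_201 : pfC (piC [(nat_lit 40745421), (nat_lit 25257288), (nat_lit 16296408)] (nat_lit 19310217)) p15_33_0 (nat_lit 3) (nat_lit 201) (nat_lit 202) = true := by decide +kernel
def p15_33_0_202 : pfC (piC [(nat_lit 40745421), (nat_lit 25257288), (nat_lit 16296408)] (nat_lit 19310217)) p15_33_0 (nat_lit 3) (nat_lit 202) (nat_lit 203) = true := by decide +kernel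
def p15_33_0_203 : pfC (piC [(nat_lit 40745421), (nat_lit 25257288), (nat_lit 16296408)] (nat_lit 19310217)) p15_33_0 (nat_lit 3) (nat_lit 203) (nat_lit 204) = true := by decide +kernel
def p15_33_0_204 : pfC (piC [(nat_lit 40745421), (nat_lit 25257288), (nat_lit 16296408)] (nat_lit 19310217)) p15_33_0 (nat_lit 3) (nat_lit 204) (nat_lit 205) = true := by decide +kernel
def p15_33_0_205 : pfC (piC [(nat_lit 40745421), (nat_lit 25257288), (nat_lit 16296408)] (nat_lit 19310217)) p15_33_0 (nat_lit 3) (nat_lit 205) (nat_lit 206) = true := by decide +kernel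
def p15_33_0_206 : pfC (piC [(nat_lit 40745421), (nat_lit 25257288), (nat_lit 16296408)] (nat_lit 19310217)) p15_33_0 (nat_lit 3) (nat_lit 206) (nat_lit 207) = true := by decide +kernel
def p15_33_0_207 : pfC (piC [(nat_lit 40745421), (nat_lit 25257288), (nat_lit 16296408)] (nat_lit 19310217)) p15_33_0 (nat_lit 3) (nat_lit 207) (nat_lit 208) = true := by decide +kernel
def p15_33_0_208 : pfC (piC [(nat_lit 40745421), (nat_lit 25257288), (nat_lit 16296408)] (nat_lit 19310217)) p15_33_0 (nat_lit 3) (nat_lit 208) (nat_lit 209) = true := by decide +kernel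
def p15_33_0_209 : pfC (piC [(nat_lit 40745421), (nat_lit 25257288), (nat_lit 16296408)] (nat_lit 19310217)) p15_33_0 (nat_lit 3) (nat_lit 209) (nat_lit 210) = true := by decide +kernel
def p15_33_0_210 : pfC (piC [(nat_lit 40745421), (nat_lit 25257288), (nat_lit 16296408)] (nat_lit 19310217)) p15_33_0 (nat_lit 3) (nat_lit 210) (nat_lit 211) = true := by decide +kernel
def p15_33_0_211 : pfC (piC [(nat_lit 40745421), (nat_lit 25257288), (nat_lit 16296408)] (nat_lit 19310217)) p15_33_0 (nat_lit 3) (nat_lit 211) (nat_lit 212) = true := by decide +kernel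
def p15_33_0_212 : pfC (piC [(nat_lit 40745421), (nat_lit 25257288), (nat_lit 16296408)] (nat_lit 19310217)) p15_33_0 (nat_lit 3) (nat_lit 212) (nat_lit 213) = true := by decide +kernel
def p15_33_0_213 : pfC (piC [(nat_lit 40745421), (nat_lit 25257288), (nat_lit 16296408)] (nat_lit 19310217)) p15_33_0 (nat_lit 3) (nat_lit 213) (nat_lit 214) = true := by decide +kernel
def p15_33_0_214 : pfC (piC [(nat_lit 40745421), (nat_lit 25257288), (nat_lit 16296408)] (nat_lit 19310217)) p15_33_0 (nat_lit 3) (nat_lit 214) (nat_lit 215) = true := by decide +kernel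
def p15_33_0_215 : pfC (piC [(nat_lit 40745421), (nat_lit 25257288), (nat_lit 16296408)] (nat_lit 19310217)) p15_33_0 (nat_lit 3) (nat_lit 215) (nat_lit 216) = true := by decide +kernel
def p15_33_0_216 : pfC (piC [(nat_lit 40745421), (nat_lit 25257288), (nat_lit 16296408)] (nat_lit 19310217)) p15_33_0 (nat_lit 3) (nat_lit 216) (nat_lit 217) = true := by decide +kernel
def p15_33_0_217 : pfC (piC [(nat_lit 40745421), (nat_lit 25257288), (nat_lit 16296408)] (nat_lit 19310217)) p15_33_0 (nat_lit 3) (nat_lit 217) (nat_lit 218) = true := by decide +kernel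
def p15_33_0_218 : pfC (piC [(nat_lit 40745421), (nat_lit 25257288), (nat_lit 16296408)] (nat_lit 19310217)) p15_33_0 (nat_lit 3) (nat_lit 218) (nat_lit 219) = true := by decide +kernel
def p15_33_0_219 : pfC (piC [(nat_lit 40745421), (nat_lit 25257288), (nat_lit 16296408)] (nat_lit 19310217)) p15_33_0 (nat_lit 3) (nat_lit 219) (nat_lit 220) = true := by decide +kernel
def p15_33_0_220 : pfC (piC [(nat_lit 40745421), (nat_lit 25257288), (nat_lit 16296408)] (nat_lit 19310217)) p15_33_0 (nat_lit 3) (nat_lit 220) (nat_lit 221) = true := by decide +kernel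
def p15_33_0_221 : pfC (piC [(nat_lit 40745421), (nat_lit 25257288), (nat_lit 16296408)] (nat_lit 19310217)) p15_33_0 (nat_lit 3) (nat_lit 221) (nat_lit 222) = true := by decide +kernel
def p15_33_0_222 : pfC (piC [(nat_lit 40745421), (nat_lit 25257288), (nat_lit 16296408)] (nat_lit 19310217)) p15_33_0 (nat_lit 3) (nat_lit 222) (nat_lit 223) = true := by decide +kernel
def p15_33_0_223 : pfC (piC [(nat_lit 40745421), (nat_lit 25257288), (nat_lit 16296408)] (nat_lit 19310217)) p15_33_0 (nat_lit 3) (nat_lit 223) (nat_lit 224) = true := by decide +kernel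
def p15_33_0_224 : pfC (piC [(nat_lit 40745421), (nat_lit 25257288), (nat_lit 16296408)] (nat_lit 19310217)) p15_33_0 (nat_lit 3) (nat_lit 224) (nat_lit 225) = true := by decide +kernel
def p15_33_0_225 : pfC (piC [(nat_lit 40745421), (nat_lit 25257288), (nat_lit 16296408)] (nat_lit 19310217)) p15_33_0 (nat_lit 3) (nat_lit 225) (nat_lit 226) = true := by decide +kernel
def p15_33_0_226 : pfC (piC [(nat_lit 40745421), (nat_lit 25257288), (nat_lit 16296408)] (nat_lit 19310217)) p15_33_0 (nat_lit 3) (nat_lit 226) (nat_lit 227) = true := by decide +kernel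
def p15_33_0_227 : pfC (piC [(nat_lit 40745421), (nat_lit 25257288), (nat_lit 16296408)] (nat_lit 19310217)) p15_33_0 (nat_lit 3) (nat_lit 227) (nat_lit 228) = true := by decide +kernel
def p15_33_0_228 : pfC (piC [(nat_lit 40745421), (nat_lit 25257288), (nat_lit 16296408)] (nat_lit 19310217)) p15_33_0 (nat_lit 3) (nat_lit 228) (nat_lit 229) = true := by decide +kernel
def p15_33_0_229 : pfC (piC [(nat_lit 40745421), (nat_lit 25257288), (nat_lit 16296408)] (nat_lit 19310217)) p15_33_0 (nat_lit 3) (nat_lit 229) (nat_lit 230) = true := by decide +kernel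
def p15_33_0_230 : pfC (piC [(nat_lit 40745421), (nat_lit 25257288), (nat_lit 16296408)] (nat_lit 19310217)) p15_33_0 (nat_lit 3) (nat_lit 230) (nat_lit 231) = true := by decide +kernel
def p15_33_0_231 : pfC (piC [(nat_lit 40745421), (nat_lit 25257288), (nat_lit 16296408)] (nat_lit 19310217)) p15_33_0 (nat_lit 3) (nat_lit 231) (nat_lit 232) = true := by decide +kernel
def p15_33_0_232 : pfC (piC [(nat_lit 40745421), (nat_lit 25257288), (nat_lit 16296408)] (nat_lit 19310217)) p15_33_0 (nat_lit 3) (nat_lit 232) (nat_lit 233) = true := by decide +kernel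
def p15_33_0_233 : pfC (piC [(nat_lit 40745421), (nat_lit 25257288), (nat_lit 16296408)] (nat_lit 19310217)) p15_33_0 (nat_lit 3) (nat_lit 233) (nat_lit 234) = true := by decide +kernel
def p15_33_0_234 : pfC (piC [(nat_lit 40745421), (nat_lit 25257288), (nat_lit 16296408)] (nat_lit 19310217)) p15_33_0 (nat_lit 3) (nat_lit 234) (nat_lit 235) = true := by decide +kernel
def p15_33_0_235 : pfC (piC [(nat_lit 40745421), (nat_lit 25257288), (nat_lit 16296408)] (nat_lit 19310217)) p15_33_0 (nat_lit 3) (nat_lit 235) (nat_lit 236) = true := by decide +kernel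
def p15_33_0_236 : pfC (piC [(nat_lit 40745421), (nat_lit 25257288), (nat_lit 16296408)] (nat_lit 19310217)) p15_33_0 (nat_lit 3) (nat_lit 236) (nat_lit 237) = true := by decide +kernel
def p15_33_0_237 : pfC (piC [(nat_lit 40745421), (nat_lit 25257288), (nat_lit 16296408)] (nat_lit 19310217)) p15_33_0 (nat_lit 3) (nat_lit 237) (nat_lit 238) = true := by decide +kernel
def p15_33_0_238 : pfC (piC [(nat_lit 40745421), (nat_lit 25257288), (nat_lit 16296408)] (nat_lit 19310217)) p15_33_0 (nat_lit 3) (nat_lit 238) (nat_lit 239) = true := by decide +kernel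
theorem p15_33_0_T : PfS (PiF n15_33.reverse (nat_lit 19310217)) p15_33_0 (nat_lit 3) [] 0 :=
  pftab_of (los := [(nat_lit 40745421), (nat_lit 25257288), (nat_lit 16296408)]) (by decide +kernel) (hi := (nat_lit 239)) (PfP.trans (PfP.trans (PfP.trans (PfP.trans (PfP.trans (PfP.trans (PfP.trans (PfP.trans (PfP.trans (PfP.trans (PfP.trans (PfP.trans (PfP.trans (PfP.trans (PfP.trans (PfP.trans (PfP.trans (PfP.trans (PfP.trans (PfP.trans (PfP.trans (PfP.trans (PfP.trans (PfP.trans (PfP.trans (PfP.trans (PfP.trans (PfP.trans (PfP.trans (PfP.trans (PfP.trans (PfP.trans (PfP.trans (PfP.trans (PfP.trans (PfP.trans (PfP.trans (PfP.trans (PfP.trans (PfP.trans (PfP.trans (PfP.trans (PfP.trans (PfP.trans (PfP.trans (PfP.trans (PfP.trans (PfP.trans (PfP.trans (PfP.trans (PfP.trans (PfP.trans (PfP.trans (PfP.trans (PfP.trans (PfP.trans (PfP.trans (PfP.trans (PfP.trans (PfP.trans (PfP.trans (PfP.trans (PfP.trans (PfP.trans (PfP.trans (PfP.trans (PfP.trans (PfP.trans (PfP.trans (PfP.trans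 (PfP.trans (PfP.trans (PfP.trans (PfP.trans (PfP.trans (PfP.trans (PfP.trans (PfP.trans (PfP.trans (PfP.trans (PfP.trans (PfP.trans (PfP.trans (PfP.trans (PfP.trans (PfP.trans (PfP.trans (PfP.trans (PfP.trans (PfP.trans (PfP.trans (PfP.trans (PfP.trans (PfP.trans (PfP.trans (PfP.trans (PfP.trans (PfP.trans (PfP.trans (PfP.trans (PfP.trans (PfP.trans (PfP.trans (PfP.trans (PfP.trans (PfP.trans (PfP.trans (PfP.trans (PfP.trans
 (PfP.trans (PfP.trans (PfP.trans (PfP.trans (PfP.trans (PfP.trans (PfP.trans (PfP.trans (PfP.trans (PfP.trans (PfP.trans (PfP.trans (PfP.trans (PfP.trans (PfP.trans (PfP.trans (PfP.trans (PfP.trans (PfP.trans (PfP.trans (PfP.trans (PfP.trans (PfP.trans (PfP.trans (PfP.trans (PfP.trans (PfP.trans (PfP.trans (PfP.trans (PfP.trans (PfP.trans (PfP.trans (PfP.trans (PfP.trans (PfP.trans (PfP.trans (PfP.trans (PfP.trans (PfP.trans (PfP.trans (PfP.trans (PfP.trans (PfP.trans (PfP.trans (PfP.trans (PfP.trans (PfP.trans (PfP.trans (PfP.trans (PfP.trans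 (PfP.trans (PfP.trans (PfP.trans (PfP.trans (PfP.trans (PfP.trans (PfP.trans (PfP.trans (PfP.trans (PfP.trans (PfP.trans (PfP.trans (PfP.trans (PfP.trans (PfP.trans (PfP.trans (PfP.trans (PfP.trans (PfP.trans (PfP.trans (PfP.trans (PfP.trans (PfP.trans (PfP.trans (PfP.trans (PfP.trans (PfP.trans (PfP.trans (PfP.trans (PfP.trans (PfP.trans (PfP.trans (PfP.trans (PfP.trans (PfP.trans (PfP.trans (PfP.trans (PfP.trans (PfP.trans (PfP.trans (PfP.trans (PfP.trans (PfP.trans (PfP.trans (PfP.trans (PfP.trans (PfP.trans (PfP.trans (PfP.trans (PfP.trans (PfP.trans (PfP.trans (PfP.trans (PfP.trans (PfP.trans (PfP.trans (PfP.trans (PfP.trans (PfP.trans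
 (PfP.trans (PfP.trans (PfP.trans (PfP.trans (PfP.trans (PfP.trans (PfP.trans (PfP.trans (PfP.trans (PfP.trans (PfP.trans (PfP.trans (PfP.trans (PfP.trans (PfP.trans (PfP.trans (PfP.trans (PfP.trans (PfP.trans (PfP.trans (pfC_sound p15_33_0_0) (pfC_sound p15_33_0_1)) (pfC_sound p15_33_0_2)) (pfC_sound p15_33_0_3)) (pfC_sound p15_33_0_4)) (pfC_sound p15_33_0_5)) (pfC_sound p15_33_0_6)) (pfC_sound p15_33_0_7)) (pfC_sound p15_33_0_8)) (pfC_sound p15_33_0_9)) (pfC_sound p15_33_0_10)) (pfC_sound p15_33_0_11)) (pfC_sound p15_33_0_12)) (pfC_sound p15_33_0_13)) (pfC_sound p15_33_0_14)) (pfC_sound p15_33_0_15)) (pfC_sound p15_33_0_16)) (pfC_sound p15_33_0_17)) (pfC_sound p15_33_0_18)) (pfC_sound p15_33_0_19)) (pfC_sound p15_33_0_20)) (pfC_sound p15_33_0_21)) (pfC_sound p15_33_0_22)) (pfC_sound p15_33_0_23)) (pfC_sound p15_33_0_24)) (pfC_sound p15_33_0_25)) (pfC_sound p15_33_0_26)) (pfC_sound p15_33_0_27)) (pfC_sound p15_33_0_28)) (pfC_sound p15_33_0_29)) (pfC_sound p15_33_0_30))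 (pfC_sound p15_33_0_31)) (pfC_sound p15_33_0_32)) (pfC_sound p15_33_0_33)) (pfC_sound p15_33_0_34)) (pfC_sound p15_33_0_35)) (pfC_sound p15_33_0_36)) (pfC_sound p15_33_0_37)) (pfC_sound p15_33_0_38)) (pfC_sound
 p15_33_0_39)) (pfC_sound p15_33_0_40)) (pfC_sound p15_33_0_41)) (pfC_sound p15_33_0_42)) (pfC_sound p15_33_0_43)) (pfC_sound p15_33_0_44)) (pfC_sound p15_33_0_45)) (pfC_sound p15_33_0_46)) (pfC_sound p15_33_0_47)) (pfC_sound p15_33_0_48)) (pfC_sound p15_33_0_49)) (pfC_sound p15_33_0_50)) (pfC_sound p15_33_0_51)) (pfC_sound p15_33_0_52)) (pfC_sound p15_33_0_53)) (pfC_sound p15_33_0_54)) (pfC_sound p15_33_0_55)) (pfC_sound p15_33_0_56)) (pfC_sound p15_33_0_57)) (pfC_sound p15_33_0_58)) (pfC_sound p15_33_0_59)) (pfC_sound p15_33_0_60)) (pfC_sound p15_33_0_61)) (pfC_sound p15_33_0_62)) (pfC_sound p15_33_0_63)) (pfC_sound p15_33_0_64)) (pfC_sound p15_33_0_65)) (pfC_sound p15_33_0_66)) (pfC_sound p15_33_0_67)) (pfC_sound p15_33_0_68)) (pfC_sound p15_33_0_69)) (pfC_sound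 p15_33_0_70)) (pfC_sound p15_33_0_71)) (pfC_sound p15_33_0_72)) (pfC_sound p15_33_0_73)) (pfC_sound p15_33_0_74)) (pfC_sound p15_33_0_75)) (pfC_sound p15_33_0_76)) (pfC_sound p15_33_0_77)) (pfC_sound p15_33_0_78)) (pfC_sound p15_33_0_79)) (pfC_sound p15_33_0_80)) (pfC_sound p15_33_0_81)) (pfC_sound p15_33_0_82)) (pfC_sound p15_33_0_83)) (pfC_sound p15_33_0_84)) (pfC_sound p15_33_0_85)) (pfC_sound p15_33_0_86)) (pfC_sound
 p15_33_0_87)) (pfC_sound p15_33_0_88)) (pfC_sound p15_33_0_89)) (pfC_sound p15_33_0_90)) (pfC_sound p15_33_0_91)) (pfC_sound p15_33_0_92)) (pfC_sound p15_33_0_93)) (pfC_sound p15_33_0_94)) (pfC_sound p15_33_0_95)) (pfC_sound p15_33_0_96)) (pfC_sound p15_33_0_97)) (pfC_sound p15_33_0_98)) (pfC_sound p15_33_0_99)) (pfC_sound p15_33_0_100)) (pfC_sound p15_33_0_101)) (pfC_sound p15_33_0_102)) (pfC_sound p15_33_0_103)) (pfC_sound p15_33_0_104)) (pfC_sound p15_33_0_105)) (pfC_sound p15_33_0_106)) (pfC_sound p15_33_0_107)) (pfC_sound p15_33_0_108)) (pfC_sound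 p15_33_0_109)) (pfC_sound p15_33_0_110)) (pfC_sound p15_33_0_111)) (pfC_sound p15_33_0_112)) (pfC_sound p15_33_0_113)) (pfC_sound p15_33_0_114)) (pfC_sound p15_33_0_115)) (pfC_sound p15_33_0_116)) (pfC_sound p15_33_0_117)) (pfC_sound p15_33_0_118)) (pfC_sound p15_33_0_119)) (pfC_sound p15_33_0_120)) (pfC_sound p15_33_0_121)) (pfC_sound p15_33_0_122)) (pfC_sound p15_33_0_123)) (pfC_sound p15_33_0_124)) (pfC_sound p15_33_0_125)) (pfC_sound p15_33_0_126)) (pfC_sound p15_33_0_127)) (pfC_sound p15_33_0_128)) (pfC_sound p15_33_0_129)) (pfC_sound p15_33_0_130)) (pfC_sound p15_33_0_131)) (pfC_sound p15_33_0_132)) (pfC_sound p15_33_0_133))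
 (pfC_sound p15_33_0_134)) (pfC_sound p15_33_0_135)) (pfC_sound p15_33_0_136)) (pfC_sound p15_33_0_137)) (pfC_sound p15_33_0_138)) (pfC_sound p15_33_0_139)) (pfC_sound p15_33_0_140)) (pfC_sound p15_33_0_141)) (pfC_sound p15_33_0_142)) (pfC_sound p15_33_0_143)) (pfC_sound p15_33_0_144)) (pfC_sound p15_33_0_145)) (pfC_sound p15_33_0_146)) (pfC_sound p15_33_0_147)) (pfC_sound p15_33_0_148)) (pfC_sound p15_33_0_149)) (pfC_sound p15_33_0_150)) (pfC_sound p15_33_0_151)) (pfC_sound p15_33_0_152)) (pfC_sound p15_33_0_153)) (pfC_sound p15_33_0_154)) (pfC_sound p15_33_0_155)) (pfC_sound p15_33_0_156)) (pfC_sound p15_33_0_157)) (pfC_sound p15_33_0_158)) (pfC_sound p15_33_0_159)) (pfC_sound p15_33_0_160)) (pfC_sound p15_33_0_161)) (pfC_sound p15_33_0_162)) (pfC_sound p15_33_0_163)) (pfC_sound p15_33_0_164)) (pfC_sound p15_33_0_165)) (pfC_sound p15_33_0_166)) (pfC_sound p15_33_0_167)) (pfC_sound p15_33_0_168)) (pfC_sound p15_33_0_169)) (pfC_sound p15_33_0_170)) (pfC_sound p15_33_0_171))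 (pfC_sound p15_33_0_172)) (pfC_sound p15_33_0_173)) (pfC_sound p15_33_0_174)) (pfC_sound p15_33_0_175)) (pfC_sound p15_33_0_176)) (pfC_sound p15_33_0_177)) (pfC_sound p15_33_0_178)) (pfC_sound p15_33_0_179))
 (pfC_sound p15_33_0_180)) (pfC_sound p15_33_0_181)) (pfC_sound p15_33_0_182)) (pfC_sound p15_33_0_183)) (pfC_sound p15_33_0_184)) (pfC_sound p15_33_0_185)) (pfC_sound p15_33_0_186)) (pfC_sound p15_33_0_187)) (pfC_sound p15_33_0_188)) (pfC_sound p15_33_0_189)) (pfC_sound p15_33_0_190)) (pfC_sound p15_33_0_191)) (pfC_sound p15_33_0_192)) (pfC_sound p15_33_0_193)) (pfC_sound p15_33_0_194)) (pfC_sound p15_33_0_195)) (pfC_sound p15_33_0_196)) (pfC_sound p15_33_0_197)) (pfC_sound p15_33_0_198)) (pfC_sound p15_33_0_199)) (pfC_sound p15_33_0_200)) (pfC_sound p15_33_0_201)) (pfC_sound p15_33_0_202)) (pfC_sound p15_33_0_203)) (pfC_sound p15_33_0_204)) (pfC_sound p15_33_0_205)) (pfC_sound p15_33_0_206)) (pfC_sound p15_33_0_207)) (pfC_sound p15_33_0_208)) (pfC_sound p15_33_0_209))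 (pfC_sound p15_33_0_210)) (pfC_sound p15_33_0_211)) (pfC_sound p15_33_0_212)) (pfC_sound p15_33_0_213)) (pfC_sound p15_33_0_214)) (pfC_sound p15_33_0_215)) (pfC_sound p15_33_0_216)) (pfC_sound p15_33_0_217)) (pfC_sound p15_33_0_218)) (pfC_sound p15_33_0_219)) (pfC_sound p15_33_0_220)) (pfC_sound p15_33_0_221)) (pfC_sound p15_33_0_222)) (pfC_sound p15_33_0_223)) (pfC_sound p15_33_0_224)) (pfC_sound p15_33_0_225))
 (pfC_sound p15_33_0_226)) (pfC_sound p15_33_0_227)) (pfC_sound p15_33_0_228)) (pfC_sound p15_33_0_229)) (pfC_sound p15_33_0_230)) (pfC_sound p15_33_0_231)) (pfC_sound p15_33_0_232)) (pfC_sound p15_33_0_233)) (pfC_sound p15_33_0_234)) (pfC_sound p15_33_0_235)) (pfC_sound p15_33_0_236)) (pfC_sound p15_33_0_237)) (pfC_sound p15_33_0_238)) (by decide +kernel)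

def z15_33_0 : zOK yB15_33 (nat_lit 0) (nat_lit 0) (nat_lit 400) (nat_lit 19310217) (nat_lit 10817553) = true := by decide +kernel
def g15_33_0 : gOK yB15_33.x P15_33 (nat_lit 1403) (q15_33 :: r15_33) (nat_lit 0) (nat_lit 0) (nat_lit 1) (nat_lit 400) (nat_lit 0) (nat_lit 11000000) (nat_lit 12712500) (nat_lit 12712500) [(nat_lit 800), (nat_lit 1600)] = true := by decide +kernel
def v15_33_0 : ivC P15_33 s15_33 w15_33 n15_33 (nat_lit 3) (nat_lit 5320) (nat_lit 0) (nat_lit 0) f176_0_0 f184_0_0 (nat_lit 1) (nat_lit 400) f176_0_400 f184_0_400 (nat_lit 19310217) (nat_lit 10817553) p15_33_0 = true := by decide +kernel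
def p15_33_1 : PF := (PF.cons (PF.cons (PF.cons (PF.leaf (nat_lit 2062480) (nat_lit 9676387) (nat_lit 57432425) (nat_lit 9676387) [(nat_lit 0), (nat_lit 0), (nat_lit 0)]) (PF.cons (PF.leaf (nat_lit 2212493) (nat_lit 251423) (nat_lit 57158795) (nat_lit 9698594) [(nat_lit 251423), (nat_lit 0), (nat_lit 0)]) (PF.cons (PF.leaf (nat_lit 2391128) (nat_lit 273883) (nat_lit 56838170) (nat_lit 9722875) [(nat_lit 273883), (nat_lit 0), (nat_lit 0)]) (PF.cons (PF.leaf (nat_lit 2592145) (nat_lit 293974) (nat_lit 56478937) (nat_lit 9747951) [(nat_lit 293974), (nat_lit 0), (nat_lit 0)]) (PF.cons (PF.leaf (nat_lit 2812678) (nat_lit 312233) (nat_lit 56087025) (nat_lit 9772852) [(nat_lit 312233), (nat_lit 0), (nat_lit 0)]) (PF.cons (PF.leaf (nat_lit 3050301) (nat_lit 328997) (nat_lit 55667008) (nat_lit 9796814) [(nat_lit 328997), (nat_lit 0), (nat_lit 0)]) (PF.cons (PF.leaf (nat_lit 3303185) (nat_lit 344495) (nat_lit 55222618) (nat_lit 9819223) [(nat_lit 344495), (nat_lit 0), (nat_lit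 0)]) (PF.cons (PF.leaf (nat_lit 3569713) (nat_lit 358886) (nat_lit 54757018) (nat_lit 9839588) [(nat_lit 358886), (nat_lit 0), (nat_lit 0)]) (PF.cons (PF.leaf (nat_lit 3848547) (nat_lit 372292) (nat_lit 54272957) (nat_lit 9857517)
 [(nat_lit 372292), (nat_lit 0), (nat_lit 0)]) (PF.cons (PF.leaf (nat_lit 4138330) (nat_lit 384803) (nat_lit 53772873) (nat_lit 9872706) [(nat_lit 384803), (nat_lit 0), (nat_lit 0)]) (PF.cons (PF.leaf (nat_lit 4438061) (nat_lit 396493) (nat_lit 53258952) (nat_lit 9884920) [(nat_lit 396493), (nat_lit 0), (nat_lit 0)]) (PF.cons (PF.leaf (nat_lit 4746569) (nat_lit 407422) (nat_lit 52733176) (nat_lit 9893990) [(nat_lit 407422), (nat_lit 0), (nat_lit 0)]) (PF.cons (PF.leaf (nat_lit 5062914) (nat_lit 417638) (nat_lit 52197351) (nat_lit 9899797) [(nat_lit 417638), (nat_lit 0), (nat_lit 0)]) (PF.cons (PF.leaf (nat_lit 5386274) (nat_lit 427185) (nat_lit 51653130) (nat_lit 9902271) [(nat_lit 427185), (nat_lit 0), (nat_lit 0)]) (PF.cons PF.nil (PF.cons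 PF.nil PF.nil)))))))))))))))) (PF.cons (PF.cons (PF.leaf (nat_lit 2727207) (nat_lit 1594167) (nat_lit 55732434) (nat_lit 9782211) [(nat_lit 0), (nat_lit 1594167), (nat_lit 0)]) (PF.cons (PF.leaf (nat_lit 2927166) (nat_lit 312862) (nat_lit 55368492) (nat_lit 9801158) [(nat_lit 312862), (nat_lit 1626299), (nat_lit 0)]) (PF.cons (PF.leaf (nat_lit 3148581) (nat_lit 330101) (nat_lit 54970596) (nat_lit 9819630) [(nat_lit 330101), (nat_lit 1658382),
 (nat_lit 0)]) (PF.cons (PF.leaf (nat_lit 3387414) (nat_lit 345813) (nat_lit 54544671) (nat_lit 9836901) [(nat_lit 345813), (nat_lit 1689798), (nat_lit 0)]) (PF.cons (PF.leaf (nat_lit 3641380) (nat_lit 360267) (nat_lit 54095140) (nat_lit 9852422) [(nat_lit 360267), (nat_lit 1720181), (nat_lit 0)]) (PF.cons (PF.leaf (nat_lit 3908764) (nat_lit 373640) (nat_lit 53625531) (nat_lit 9865771) [(nat_lit 373640), (nat_lit 1749308), (nat_lit 0)]) (PF.cons (PF.leaf (nat_lit 4187971) (nat_lit 386060) (nat_lit 53138780) (nat_lit 9876626) [(nat_lit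 386060), (nat_lit 1777043), (nat_lit 0)]) (PF.cons (PF.leaf (nat_lit 4477698) (nat_lit 397621) (nat_lit 52637409) (nat_lit 9884743) [(nat_lit 397621), (nat_lit 1803308), (nat_lit 0)]) (PF.cons (PF.leaf (nat_lit 4776760) (nat_lit 408397) (nat_lit 52123624) (nat_lit 9889944) [(nat_lit 408397), (nat_lit 1828061), (nat_lit 0)]) (PF.cons (PF.leaf (nat_lit 5084151) (nat_lit 418448) (nat_lit 51599387) (nat_lit 9892106) [(nat_lit 418448), (nat_lit 1851285), (nat_lit 0)]) (PF.cons (PF.leaf (nat_lit 5398864) (nat_lit 427821) (nat_lit 51066460) (nat_lit 9891153) [(nat_lit 427821), (nat_lit 1872983), (nat_lit 0)]) (PF.cons (PF.leaf (nat_lit 5720013) (nat_lit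
 436559) (nat_lit 50526435) (nat_lit 9887049) [(nat_lit 436559), (nat_lit 1893170), (nat_lit 0)]) (PF.cons PF.nil (PF.cons PF.nil PF.nil)))))))))))))) (PF.cons (PF.cons (PF.leaf (nat_lit 3488363) (nat_lit 1715147) (nat_lit 53828750) (nat_lit 9849766) [(nat_lit 0), (nat_lit 1715147), (nat_lit 0)]) (PF.cons (PF.leaf (nat_lit 3724974) (nat_lit 359915) (nat_lit 53404245) (nat_lit 9860569) [(nat_lit 359915), (nat_lit 1742041), (nat_lit 0)]) (PF.cons (PF.leaf (nat_lit 3978039) (nat_lit 373606) (nat_lit 52955611) (nat_lit 9869530) [(nat_lit 373606), (nat_lit 1768229), (nat_lit 0)]) (PF.cons (PF.leaf (nat_lit 4244551) (nat_lit 386182) (nat_lit 52487130) (nat_lit 9876276) [(nat_lit 386182), (nat_lit 1793429), (nat_lit 0)]) (PF.cons (PF.leaf (nat_lit 4522751) (nat_lit 397798) (nat_lit 52002148) (nat_lit 9880537) [(nat_lit 397798), (nat_lit 1817467), (nat_lit 0)]) (PF.cons (PF.leaf (nat_lit 4811195) (nat_lit 408561) (nat_lit 51503406) (nat_lit 9882117) [(nat_lit 408561), (nat_lit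 1840240), (nat_lit 0)]) (PF.cons (PF.leaf (nat_lit 5108674) (nat_lit 418555) (nat_lit 50993227) (nat_lit 9880880) [(nat_lit 418555), (nat_lit 1861685), (nat_lit 0)]) (PF.cons (PF.leaf (nat_lit 5414048) (nat_lit
 427843) (nat_lit 50473617) (nat_lit 9876743) [(nat_lit 427843), (nat_lit 1881773), (nat_lit 0)]) (PF.cons (PF.leaf (nat_lit 5726343) (nat_lit 436477) (nat_lit 49946340) (nat_lit 9869660) [(nat_lit 436477), (nat_lit 1900495), (nat_lit 0)]) (PF.cons (PF.leaf (nat_lit 6044673) (nat_lit 444501) (nat_lit 49412967) (nat_lit 9859621) [(nat_lit 444501), (nat_lit 1917855), (nat_lit 0)]) (PF.cons PF.nil (PF.cons PF.nil PF.nil)))))))))))) (PF.cons (PF.cons (PF.leaf (nat_lit 4314118) (nat_lit 1809212) (nat_lit 51809665) (nat_lit 9871509) [(nat_lit 0), (nat_lit 1809212), (nat_lit 0)]) (PF.cons (PF.leaf (nat_lit 4577335) (nat_lit 396731) (nat_lit 51347169) (nat_lit 9872188) [(nat_lit 396731), (nat_lit 1830907), (nat_lit 0)]) (PF.cons (PF.leaf (nat_lit 4853080) (nat_lit 407705)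 (nat_lit 50868039) (nat_lit 9870423) [(nat_lit 407705), (nat_lit 1851646), (nat_lit 0)]) (PF.cons (PF.leaf (nat_lit 5139090) (nat_lit 417808) (nat_lit 50375436) (nat_lit 9866059) [(nat_lit 417808), (nat_lit 1871297), (nat_lit 0)]) (PF.cons (PF.leaf (nat_lit 5433943) (nat_lit 427137) (nat_lit 49871917) (nat_lit 9858999) [(nat_lit 427137), (nat_lit 1889782), (nat_lit 0)]) (PF.cons (PF.leaf (nat_lit 5736471) (nat_lit 435766)
 (nat_lit 49359614) (nat_lit 9849188) [(nat_lit 435766), (nat_lit 1907059), (nat_lit 0)]) (PF.cons (PF.leaf (nat_lit 6045649) (nat_lit 443754) (nat_lit 48840350) (nat_lit 9836607) [(nat_lit 443754), (nat_lit 1923110), (nat_lit 0)]) (PF.cons (PF.leaf (nat_lit 6360561) (nat_lit 451148) (nat_lit 48315710) (nat_lit 9821267) [(nat_lit 451148), (nat_lit 1937932), (nat_lit 0)]) (PF.cons PF.nil (PF.cons PF.nil PF.nil)))))))))) (PF.cons (PF.cons (PF.leaf (nat_lit 5179873) (nat_lit 1880291) (nat_lit 49740198) (nat_lit 9847448) [(nat_lit 0), (nat_lit 1880291),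 (nat_lit 0)]) (PF.cons (PF.leaf (nat_lit 5461620) (nat_lit 425502) (nat_lit 49257008) (nat_lit 9837774) [(nat_lit 425502), (nat_lit 1897131), (nat_lit 0)]) (PF.cons (PF.leaf (nat_lit 5752865) (nat_lit 434278) (nat_lit 48762917) (nat_lit 9825522) [(nat_lit 434278), (nat_lit 1912953), (nat_lit 0)]) (PF.cons (PF.leaf (nat_lit 6051703) (nat_lit 442346) (nat_lit 48260296) (nat_lit 9810666) [(nat_lit 442346), (nat_lit 1927702), (nat_lit 0)]) (PF.cons (PF.leaf (nat_lit 6357083) (nat_lit 449775) (nat_lit 47751099) (nat_lit 9793212) [(nat_lit 449775), (nat_lit 1941350), (nat_lit 0)]) (PF.cons (PF.leaf (nat_lit 6668028) (nat_lit 456618) (nat_lit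
 47236977) (nat_lit 9773187) [(nat_lit 456618), (nat_lit 1953889), (nat_lit 0)]) (PF.cons (PF.leaf (nat_lit 6983684) (nat_lit 462920) (nat_lit 46719350) (nat_lit 9750640) [(nat_lit 462920), (nat_lit 1965325), (nat_lit 0)]) (PF.cons PF.nil PF.nil)))))))) (PF.cons (PF.cons (PF.leaf (nat_lit 6066318) (nat_lit 1931720) (nat_lit 47668613) (nat_lit 9781599) [(nat_lit 0), (nat_lit 1931720), (nat_lit 0)]) (PF.cons (PF.leaf (nat_lit 6360185) (nat_lit 447692) (nat_lit 47177848) (nat_lit 9762324) [(nat_lit 447692), (nat_lit 1944189), (nat_lit 0)]) (PF.cons (PF.leaf (nat_lit 6661076) (nat_lit 454645) (nat_lit 46680546) (nat_lit 9740606) [(nat_lit 454645), (nat_lit 1955673), (nat_lit 0)]) (PF.cons (PF.leaf (nat_lit 6967479) (nat_lit 461012) (nat_lit 46178493) (nat_lit 9716490) [(nat_lit 461012), (nat_lit 1966158), (nat_lit 0)]) (PF.cons (PF.leaf (nat_lit 7278483) (nat_lit 466844) (nat_lit 45673181) (nat_lit 9690037) [(nat_lit 466844), (nat_lit 1975643), (nat_lit 0)]) (PF.cons PF.nil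 PF.nil)))))) (PF.cons (PF.cons (PF.leaf (nat_lit 6958485) (nat_lit 1966486) (nat_lit 45630067) (nat_lit 9679827) [(nat_lit 0), (nat_lit 1966486), (nat_lit 0)]) (PF.cons (PF.leaf (nat_lit 7259360) (nat_lit 464418)
 (nat_lit 45141471) (nat_lit 9652189) [(nat_lit 464418), (nat_lit 1975122), (nat_lit 0)]) (PF.cons (PF.leaf (nat_lit 7565311) (nat_lit 469846) (nat_lit 44649621) (nat_lit 9622377) [(nat_lit 469846), (nat_lit 1982853), (nat_lit 0)]) (PF.cons PF.nil PF.nil)))) (PF.cons (PF.cons (PF.leaf (nat_lit 7845034) (nat_lit 1987280) (nat_lit 43649300) (nat_lit 9548550) [(nat_lit 0), (nat_lit 1987280), (nat_lit 0)]) (PF.cons (PF.leaf (nat_lit 8148937) (nat_lit 476596) (nat_lit 43169906) (nat_lit 9513957) [(nat_lit 476596), (nat_lit 1992621), (nat_lit 0)]) PF.nil)) (PF.cons PF.nil (PF.cons PF.nil (PF.cons PF.nil PF.nil))))))))))) (PF.cons (PF.cons (PF.cons (PF.leaf (nat_lit 3808482) (nat_lit 6380965) (nat_lit 50965261) (nat_lit 9762586) [(nat_lit 0), (nat_lit 0), (nat_lit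 6380965)]) (PF.cons (PF.leaf (nat_lit 4017675) (nat_lit 343964) (nat_lit 50606483) (nat_lit 9762903) [(nat_lit 343964), (nat_lit 0), (nat_lit 6395461)]) (PF.cons (PF.leaf (nat_lit 4246745) (nat_lit 359916) (nat_lit 50217878) (nat_lit 9761601) [(nat_lit 359916), (nat_lit 0), (nat_lit 6409499)]) (PF.cons (PF.leaf (nat_lit 4491468) (nat_lit 374077) (nat_lit 49805593) (nat_lit 9758399) [(nat_lit 374077), (nat_lit 0), (nat_lit
 6422588)]) (PF.cons (PF.leaf (nat_lit 4749407) (nat_lit 386805) (nat_lit 49374112) (nat_lit 9753097) [(nat_lit 386805), (nat_lit 0), (nat_lit 6434382)]) (PF.cons (PF.leaf (nat_lit 5018665) (nat_lit 398343) (nat_lit 48926918) (nat_lit 9745547) [(nat_lit 398343), (nat_lit 0), (nat_lit 6444630)]) (PF.cons (PF.leaf (nat_lit 5297715) (nat_lit 408863) (nat_lit 48466825) (nat_lit 9735650) [(nat_lit 408863), (nat_lit 0), (nat_lit 6453156)]) (PF.cons (PF.leaf (nat_lit 5585306) (nat_lit 418492) (nat_lit 47996177) (nat_lit 9723347) [(nat_lit 418492), (nat_lit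 0), (nat_lit 6459837)]) (PF.cons (PF.leaf (nat_lit 5880279) (nat_lit 427330) (nat_lit 47516970) (nat_lit 9708606) [(nat_lit 427330), (nat_lit 0), (nat_lit 6464593)]) (PF.cons (PF.leaf (nat_lit 6181661) (nat_lit 435453) (nat_lit 47030930) (nat_lit 9691426) [(nat_lit 435453), (nat_lit 0), (nat_lit 6467378)]) (PF.cons (PF.leaf (nat_lit 6488578) (nat_lit 442925) (nat_lit 46539564) (nat_lit 9671825) [(nat_lit 442925), (nat_lit 0), (nat_lit 6468170)]) (PF.cons PF.nil (PF.cons PF.nil (PF.cons PF.nil PF.nil)))))))))))))) (PF.cons (PF.cons (PF.leaf (nat_lit 4569128) (nat_lit 1799919) (nat_lit 49140131) (nat_lit 9740176) [(nat_lit 0), (nat_lit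
 1799919), (nat_lit 6428585)]) (PF.cons (PF.leaf (nat_lit 4808889) (nat_lit 383461) (nat_lit 48736130) (nat_lit 9732592) [(nat_lit 383461), (nat_lit 1819348), (nat_lit 6437279)]) (PF.cons (PF.leaf (nat_lit 5063293) (nat_lit 395598) (nat_lit 48312078) (nat_lit 9722860) [(nat_lit 395598), (nat_lit 1837953), (nat_lit 6444722)]) (PF.cons (PF.leaf (nat_lit 5329335) (nat_lit 406513) (nat_lit 47872138) (nat_lit 9710890) [(nat_lit 406513), (nat_lit 1855559), (nat_lit 6450684)]) (PF.cons (PF.leaf (nat_lit 5605266) (nat_lit 416403) (nat_lit 47419488) (nat_lit 9696625) [(nat_lit 416403), (nat_lit 1872072), (nat_lit 6455011)]) (PF.cons (PF.leaf (nat_lit 5889662) (nat_lit 425411) (nat_lit 46956674) (nat_lit 9680040) [(nat_lit 425411), (nat_lit 1887446), (nat_lit 6457597)]) (PF.cons (PF.leaf (nat_lit 6181326) (nat_lit 433641) (nat_lit 46485791) (nat_lit 9661131) [(nat_lit 433641), (nat_lit 1901662), (nat_lit 6458380)]) (PF.cons (PF.leaf (nat_lit 6479231) (nat_lit 441175) (nat_lit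 46008611) (nat_lit 9639919) [(nat_lit 441175), (nat_lit 1914724), (nat_lit 6457325)]) (PF.cons (PF.leaf (nat_lit 6782484) (nat_lit 448081) (nat_lit 45526652) (nat_lit 9616440) [(nat_lit 448081), (nat_lit 1926646),
 (nat_lit 6454425)]) (PF.cons (PF.leaf (nat_lit 7090279) (nat_lit 454411) (nat_lit 45041231) (nat_lit 9590742) [(nat_lit 454411), (nat_lit 1937451), (nat_lit 6449687)]) (PF.cons PF.nil (PF.cons PF.nil PF.nil)))))))))))) (PF.cons (PF.cons (PF.leaf (nat_lit 5375162) (nat_lit 1862090) (nat_lit 47256287) (nat_lit 9682432) [(nat_lit 0), (nat_lit 1862090), (nat_lit 6445911)]) (PF.cons (PF.leaf (nat_lit 5636025) (nat_lit 413120) (nat_lit 46826969) (nat_lit 9666593) [(nat_lit 413120), (nat_lit 1877048), (nat_lit 6448031)]) (PF.cons (PF.leaf (nat_lit 5907754) (nat_lit 422530) (nat_lit 46384478) (nat_lit 9648495) [(nat_lit 422530), (nat_lit 1891088), (nat_lit 6448599)]) (PF.cons (PF.leaf (nat_lit 6188129) (nat_lit 431037) (nat_lit 45931739) (nat_lit 9628151) [(nat_lit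 431037), (nat_lit 1904139), (nat_lit 6447528)]) (PF.cons (PF.leaf (nat_lit 6475810) (nat_lit 438763) (nat_lit 45471062) (nat_lit 9605588) [(nat_lit 438763), (nat_lit 1916169), (nat_lit 6444768)]) (PF.cons (PF.leaf (nat_lit 6769683) (nat_lit 445799) (nat_lit 45004334) (nat_lit 9580846) [(nat_lit 445799), (nat_lit 1927168), (nat_lit 6440298)]) (PF.cons (PF.leaf (nat_lit 7068792) (nat_lit 452215) (nat_lit 44533134) (nat_lit
 9553979) [(nat_lit 452215), (nat_lit 1937143), (nat_lit 6434117)]) (PF.cons (PF.leaf (nat_lit 7372304) (nat_lit 458071) (nat_lit 44058803) (nat_lit 9525049) [(nat_lit 458071), (nat_lit 1946108), (nat_lit 6426241)]) (PF.cons PF.nil (PF.cons PF.nil PF.nil)))))))))) (PF.cons (PF.cons (PF.leaf (nat_lit 6206287) (nat_lit 1906178) (nat_lit 45363426) (nat_lit 9592134) [(nat_lit 0), (nat_lit 1906178), (nat_lit 6434717)]) (PF.cons (PF.leaf (nat_lit 6481199) (nat_lit 435474) (nat_lit 44922907) (nat_lit 9568563) [(nat_lit 435474), (nat_lit 1917150), (nat_lit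 6430416)]) (PF.cons (PF.leaf (nat_lit 6764158) (nat_lit 442795) (nat_lit 44474168) (nat_lit 9542853) [(nat_lit 442795), (nat_lit 1927223), (nat_lit 6424529)]) (PF.cons (PF.leaf (nat_lit 7053404) (nat_lit 449416) (nat_lit 44019317) (nat_lit 9515071) [(nat_lit 449416), (nat_lit 1936375), (nat_lit 6417045)]) (PF.cons (PF.leaf (nat_lit 7347940) (nat_lit 455419) (nat_lit 43560055) (nat_lit 9485287) [(nat_lit 455419), (nat_lit 1944606), (nat_lit 6407974)]) (PF.cons (PF.leaf (nat_lit 7646854) (nat_lit 460866) (nat_lit 43097793) (nat_lit 9453578) [(nat_lit 460866), (nat_lit 1951923), (nat_lit 6397336)]) (PF.cons PF.nil (PF.cons PF.nil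
 PF.nil)))))))) (PF.cons (PF.cons (PF.leaf (nat_lit 7047388) (nat_lit 1935192) (nat_lit 43495963) (nat_lit 9473721) [(nat_lit 0), (nat_lit 1935192), (nat_lit 6398358)]) (PF.cons (PF.leaf (nat_lit 7330963) (nat_lit 452105) (nat_lit 43054324) (nat_lit 9443376) [(nat_lit 452105), (nat_lit 1942690), (nat_lit 6388246)]) (PF.cons (PF.leaf (nat_lit 7620404) (nat_lit 457766) (nat_lit 42608067) (nat_lit 9411129) [(nat_lit 457766), (nat_lit 1949357), (nat_lit 6376651)]) (PF.cons (PF.leaf (nat_lit 7914337) (nat_lit 462869) (nat_lit 42158731) (nat_lit 9377072) [(nat_lit 462869), (nat_lit 1955199), (nat_lit 6363605)]) (PF.cons PF.nil (PF.cons PF.nil PF.nil)))))) (PF.cons (PF.cons (PF.leaf (nat_lit 7887177) (nat_lit 1951683) (nat_lit 41677466) (nat_lit 9332191) [(nat_lit 0), (nat_lit 1951683), (nat_lit 6340738)]) (PF.cons (PF.leaf (nat_lit 8175275) (nat_lit 464139) (nat_lit 41241840) (nat_lit 9296196) [(nat_lit 464139), (nat_lit 1956204), (nat_lit 6325614)]) (PF.cons (PF.leaf (nat_lit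 8467585) (nat_lit 468455) (nat_lit 40804209) (nat_lit 9258584) [(nat_lit 468455), (nat_lit 1959985), (nat_lit 6309180)]) (PF.cons PF.nil PF.nil)))) (PF.cons (PF.cons (PF.leaf (nat_lit 8717326) (nat_lit 1957845)
 (nat_lit 39923520) (nat_lit 9172463) [(nat_lit 0), (nat_lit 1957845), (nat_lit 6265756)]) (PF.cons PF.nil PF.nil)) (PF.cons PF.nil (PF.cons PF.nil (PF.cons PF.nil PF.nil)))))))))) (PF.cons (PF.cons (PF.cons (PF.leaf (nat_lit 5557367) (nat_lit 6348472) (nat_lit 44918646) (nat_lit 9493221) [(nat_lit 0), (nat_lit 0), (nat_lit 6348472)]) (PF.cons (PF.leaf (nat_lit 5795304) (nat_lit 396009) (nat_lit 44545705) (nat_lit 9474067) [(nat_lit 396009), (nat_lit 0), (nat_lit 6346515)]) (PF.cons (PF.leaf (nat_lit 6046392) (nat_lit 406806) (nat_lit 44156025) (nat_lit 9452731) [(nat_lit 406806), (nat_lit 0), (nat_lit 6343221)]) (PF.cons (PF.leaf (nat_lit 6307713) (nat_lit 416339) (nat_lit 43753462) (nat_lit 9429296) [(nat_lit 416339), (nat_lit 0), (nat_lit 6338516)]) (PF.cons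 (PF.leaf (nat_lit 6577539) (nat_lit 424834) (nat_lit 43340918) (nat_lit 9403835) [(nat_lit 424834), (nat_lit 0), (nat_lit 6332360)]) (PF.cons (PF.leaf (nat_lit 6854494) (nat_lit 432450) (nat_lit 42920670) (nat_lit 9376419) [(nat_lit 432450), (nat_lit 0), (nat_lit 6324736)]) (PF.cons (PF.leaf (nat_lit 7137449) (nat_lit 439307) (nat_lit 42494564) (nat_lit 9347118) [(nat_lit 439307), (nat_lit 0), (nat_lit 6315643)]) (PF.cons
 (PF.leaf (nat_lit 7425448) (nat_lit 445497) (nat_lit 42064133) (nat_lit 9316006) [(nat_lit 445497), (nat_lit 0), (nat_lit 6305096)]) (PF.cons (PF.leaf (nat_lit 7717661) (nat_lit 451092) (nat_lit 41630666) (nat_lit 9283159) [(nat_lit 451092), (nat_lit 0), (nat_lit 6293123)]) (PF.cons PF.nil PF.nil)))))))))) (PF.cons (PF.cons (PF.leaf (nat_lit 6333793) (nat_lit 1873863) (nat_lit 43204688) (nat_lit 9387731) [(nat_lit 0), (nat_lit 1873863), (nat_lit 6321265)]) (PF.cons (PF.leaf (nat_lit 6588897) (nat_lit 420141) (nat_lit 42814533) (nat_lit 9362014) [(nat_lit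 420141), (nat_lit 1884001), (nat_lit 6314061)]) (PF.cons (PF.leaf (nat_lit 6853584) (nat_lit 428291) (nat_lit 42413743) (nat_lit 9334279) [(nat_lit 428291), (nat_lit 1893286), (nat_lit 6305460)]) (PF.cons (PF.leaf (nat_lit 7125707) (nat_lit 435540) (nat_lit 42004945) (nat_lit 9304634) [(nat_lit 435540), (nat_lit 1901687), (nat_lit 6295462)]) (PF.cons (PF.leaf (nat_lit 7403973) (nat_lit 442022) (nat_lit 41590184) (nat_lit 9273176) [(nat_lit 442022), (nat_lit 1909200), (nat_lit 6284081)]) (PF.cons (PF.leaf (nat_lit 7687394) (nat_lit 447839) (nat_lit 41171102) (nat_lit 9239996) [(nat_lit 447839), (nat_lit 1915837), (nat_lit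
 6271340)]) (PF.cons (PF.leaf (nat_lit 7975056) (nat_lit 453069) (nat_lit 40749053) (nat_lit 9205183) [(nat_lit 453069), (nat_lit 1921615), (nat_lit 6257272)]) (PF.cons PF.nil PF.nil)))))))) (PF.cons (PF.cons (PF.leaf (nat_lit 7125898) (nat_lit 1899335) (nat_lit 41503155) (nat_lit 9259620) [(nat_lit 0), (nat_lit 1899335), (nat_lit 6273683)]) (PF.cons (PF.leaf (nat_lit 7391958) (nat_lit 437708) (nat_lit 41107245) (nat_lit 9228169) [(nat_lit 437708), (nat_lit 1906197), (nat_lit 6261647)]) (PF.cons (PF.leaf (nat_lit 7665024) (nat_lit 443903) (nat_lit 40704931) (nat_lit 9194945) [(nat_lit 443903), (nat_lit 1912269), (nat_lit 6248294)]) (PF.cons (PF.leaf (nat_lit 7943409) (nat_lit 449421) (nat_lit 40298058) (nat_lit 9160064) [(nat_lit 449421), (nat_lit 1917553), (nat_lit 6233659)]) (PF.cons (PF.leaf (nat_lit 8226190) (nat_lit 454348) (nat_lit 39888097) (nat_lit 9123631) [(nat_lit 454348), (nat_lit 1922062), (nat_lit 6217781)]) (PF.cons PF.nil PF.nil)))))) (PF.cons (PF.cons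 (PF.leaf (nat_lit 7921605) (nat_lit 1913168) (nat_lit 39838854) (nat_lit 9112953) [(nat_lit 0), (nat_lit 1913168), (nat_lit 6208750)]) (PF.cons (PF.leaf (nat_lit 8194041) (nat_lit 450296) (nat_lit 39445030) (nat_lit
 9076728) [(nat_lit 450296), (nat_lit 1917247), (nat_lit 6192507)]) (PF.cons (PF.leaf (nat_lit 8471573) (nat_lit 454983) (nat_lit 39047784) (nat_lit 9039006) [(nat_lit 454983), (nat_lit 1920624), (nat_lit 6175090)]) (PF.cons (PF.leaf (nat_lit 8752822) (nat_lit 459144) (nat_lit 38648440) (nat_lit 8999897) [(nat_lit 459144), (nat_lit 1923312), (nat_lit 6156552)]) PF.nil)))) (PF.cons (PF.cons (PF.leaf (nat_lit 8712170) (nat_lit 1917502) (nat_lit 38227879) (nat_lit 8951748) [(nat_lit 0), (nat_lit 1917502), (nat_lit 6129587)]) (PF.cons (PF.leaf (nat_lit 8987589) (nat_lit 458984) (nat_lit 37841486) (nat_lit 8911716) [(nat_lit 458984), (nat_lit 1919243), (nat_lit 6109825)]) PF.nil)) (PF.cons PF.nil (PF.cons PF.nil (PF.cons PF.nil PF.nil)))))))) (PF.cons (PF.cons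 (PF.cons (PF.leaf (nat_lit 7200507) (nat_lit 6143471) (nat_lit 39637361) (nat_lit 9041037) [(nat_lit 0), (nat_lit 0), (nat_lit 6143471)]) (PF.cons (PF.leaf (nat_lit 7448150) (nat_lit 420968) (nat_lit 39286523) (nat_lit 9009805) [(nat_lit 420968), (nat_lit 0), (nat_lit 6130505)]) (PF.cons (PF.leaf (nat_lit 7704402) (nat_lit 428102) (nat_lit 38926929) (nat_lit 8976789) [(nat_lit 428102), (nat_lit 0), (nat_lit 6116296)]) (PF.cons
 (PF.leaf (nat_lit 7967162) (nat_lit 434353) (nat_lit 38560907) (nat_lit 8942151) [(nat_lit 434353), (nat_lit 0), (nat_lit 6100897)]) (PF.cons (PF.leaf (nat_lit 8235224) (nat_lit 439865) (nat_lit 38190248) (nat_lit 8906024) [(nat_lit 439865), (nat_lit 0), (nat_lit 6084358)]) (PF.cons (PF.leaf (nat_lit 8507639) (nat_lit 444744) (nat_lit 37816377) (nat_lit 8868525) [(nat_lit 444744), (nat_lit 0), (nat_lit 6066728)]) (PF.cons PF.nil (PF.cons PF.nil PF.nil)))))))) (PF.cons (PF.cons (PF.leaf (nat_lit 7953317) (nat_lit 1872324) (nat_lit 38120179) (nat_lit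 8893240) [(nat_lit 0), (nat_lit 1872324), (nat_lit 6074356)]) (PF.cons (PF.leaf (nat_lit 8209786) (nat_lit 434945) (nat_lit 37766638) (nat_lit 8857739) [(nat_lit 434945), (nat_lit 1876302), (nat_lit 6057729)]) (PF.cons (PF.leaf (nat_lit 8472458) (nat_lit 440262) (nat_lit 37407947) (nat_lit 8820757) [(nat_lit 440262), (nat_lit 1879586), (nat_lit 6039998)]) (PF.cons (PF.leaf (nat_lit 8739766) (nat_lit 444930) (nat_lit 37045717) (nat_lit 8782433) [(nat_lit 444930), (nat_lit 1882193), (nat_lit 6021225)]) (PF.cons (PF.leaf (nat_lit 9010775) (nat_lit 449040) (nat_lit 36681217) (nat_lit 8742887) [(nat_lit 449040), (nat_lit 1884142), (nat_lit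
 6001468)]) (PF.cons PF.nil PF.nil)))))) (PF.cons (PF.cons (PF.leaf (nat_lit 8705985) (nat_lit 1875892) (nat_lit 36643694) (nat_lit 8733415) [(nat_lit 0), (nat_lit 1875892), (nat_lit 5993306)]) (PF.cons (PF.leaf (nat_lit 8967314) (nat_lit 444570) (nat_lit 36293654) (nat_lit 8694534) [(nat_lit 444570), (nat_lit 1877618), (nat_lit 5973605)]) (PF.cons (PF.leaf (nat_lit 9233111) (nat_lit 448516) (nat_lit 35940956) (nat_lit 8654452) [(nat_lit 448516), (nat_lit 1878744), (nat_lit 5952959)]) (PF.cons PF.nil PF.nil)))) (PF.cons (PF.cons (PF.leaf (nat_lit 9451534) (nat_lit 1872174) (nat_lit 35219198) (nat_lit 8564731) [(nat_lit 0), (nat_lit 1872174), (nat_lit 5902786)]) (PF.cons PF.nil PF.nil)) (PF.cons PF.nil (PF.cons PF.nil PF.nil)))))) (PF.cons (PF.cons (PF.cons (PF.leaf (nat_lit 8702278) (nat_lit 5857796) (nat_lit 35159221) (nat_lit 8518405) [(nat_lit 0), (nat_lit 0), (nat_lit 5857796)]) (PF.cons (PF.leaf (nat_lit 8949049) (nat_lit 429005) (nat_lit 34844116) (nat_lit 8481251)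 [(nat_lit 429005), (nat_lit 0), (nat_lit 5838609)]) (PF.cons (PF.leaf (nat_lit 9201445) (nat_lit 433629) (nat_lit 34524754) (nat_lit 8442845) [(nat_lit 433629), (nat_lit 0), (nat_lit 5818488)]) (PF.cons (PF.leaf
 (nat_lit 9457937) (nat_lit 437635) (nat_lit 34202540) (nat_lit 8403335) [(nat_lit 437635), (nat_lit 0), (nat_lit 5797507)]) (PF.cons PF.nil (PF.cons PF.nil PF.nil)))))) (PF.cons (PF.cons (PF.leaf (nat_lit 9415155) (nat_lit 1829896) (nat_lit 33850210) (nat_lit 8354640) [(nat_lit 0), (nat_lit 1829896), (nat_lit 5768516)]) (PF.cons (PF.leaf (nat_lit 9665764) (nat_lit 436438) (nat_lit 33539066) (nat_lit 8315073) [(nat_lit 436438), (nat_lit 1830003), (nat_lit 5747057)]) (PF.cons PF.nil (PF.cons PF.nil PF.nil)))) (PF.cons (PF.cons (PF.leaf (nat_lit 10120014) (nat_lit 1820891) (nat_lit 32589312) (nat_lit 8185749) [(nat_lit 0), (nat_lit 1820891), (nat_lit 5672992)]) (PF.cons PF.nil PF.nil)) (PF.cons PF.nil PF.nil)))) (PF.cons (PF.cons (PF.cons (PF.leaf (nat_lit 10061252)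 (nat_lit 5544073) (nat_lit 31401023) (nat_lit 7987424) [(nat_lit 0), (nat_lit 0), (nat_lit 5544073)]) (PF.cons (PF.leaf (nat_lit 10301699) (nat_lit 426892) (nat_lit 31123911) (nat_lit 7948350) [(nat_lit 426892), (nat_lit 0), (nat_lit 5521931)]) PF.nil)) (PF.cons PF.nil PF.nil)) (PF.cons PF.nil (PF.cons PF.nil (PF.cons PF.nil (PF.cons PF.nil PF.nil))))))))))

def p15_33_1_0 : pfC (piC [(nat_lit 40745421), (nat_lit 25257288), (nat_lit 16296408)] (nat_lit 10817553)) p15_33_1 (nat_lit 3) (nat_lit 0) (nat_lit 1) = true := by decide +kernel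
def p15_33_1_1 : pfC (piC [(nat_lit 40745421), (nat_lit 25257288), (nat_lit 16296408)] (nat_lit 10817553)) p15_33_1 (nat_lit 3) (nat_lit 1) (nat_lit 2) = true := by decide +kernel
def p15_33_1_2 : pfC (piC [(nat_lit 40745421), (nat_lit 25257288), (nat_lit 16296408)] (nat_lit 10817553)) p15_33_1 (nat_lit 3) (nat_lit 2) (nat_lit 3) = true := by decide +kernel
def p15_33_1_3 : pfC (piC [(nat_lit 40745421), (nat_lit 25257288), (nat_lit 16296408)] (nat_lit 10817553)) p15_33_1 (nat_lit 3) (nat_lit 3) (nat_lit 4) = true := by decide +kernel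
def p15_33_1_4 : pfC (piC [(nat_lit 40745421), (nat_lit 25257288), (nat_lit 16296408)] (nat_lit 10817553)) p15_33_1 (nat_lit 3) (nat_lit 4) (nat_lit 5) = true := by decide +kernel
def p15_33_1_5 : pfC (piC [(nat_lit 40745421), (nat_lit 25257288), (nat_lit 16296408)] (nat_lit 10817553)) p15_33_1 (nat_lit 3) (nat_lit 5) (nat_lit 6) = true := by decide +kernel
def p15_33_1_6 : pfC (piC [(nat_lit 40745421), (nat_lit 25257288), (nat_lit 16296408)] (nat_lit 10817553)) p15_33_1 (nat_lit 3) (nat_lit 6) (nat_lit 7) = true := by decide +kernel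
def p15_33_1_7 : pfC (piC [(nat_lit 40745421), (nat_lit 25257288), (nat_lit 16296408)] (nat_lit 10817553)) p15_33_1 (nat_lit 3) (nat_lit 7) (nat_lit 8) = true := by decide +kernel
def p15_33_1_8 : pfC (piC [(nat_lit 40745421), (nat_lit 25257288), (nat_lit 16296408)] (nat_lit 10817553)) p15_33_1 (nat_lit 3) (nat_lit 8) (nat_lit 9) = true := by decide +kernel
def p15_33_1_9 : pfC (piC [(nat_lit 40745421), (nat_lit 25257288), (nat_lit 16296408)] (nat_lit 10817553)) p15_33_1 (nat_lit 3) (nat_lit 9) (nat_lit 10) = true := by decide +kernel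
def p15_33_1_10 : pfC (piC [(nat_lit 40745421), (nat_lit 25257288), (nat_lit 16296408)] (nat_lit 10817553)) p15_33_1 (nat_lit 3) (nat_lit 10) (nat_lit 11) = true := by decide +kernel
def p15_33_1_11 : pfC (piC [(nat_lit 40745421), (nat_lit 25257288), (nat_lit 16296408)] (nat_lit 10817553)) p15_33_1 (nat_lit 3) (nat_lit 11) (nat_lit 12) = true := by decide +kernel
def p15_33_1_12 : pfC (piC [(nat_lit 40745421), (nat_lit 25257288), (nat_lit 16296408)] (nat_lit 10817553)) p15_33_1 (nat_lit 3) (nat_lit 12) (nat_lit 13) = true := by decide +kernel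
def p15_33_1_13 : pfC (piC [(nat_lit 40745421), (nat_lit 25257288), (nat_lit 16296408)] (nat_lit 10817553)) p15_33_1 (nat_lit 3) (nat_lit 13) (nat_lit 14) = true := by decide +kernel
def p15_33_1_14 : pfC (piC [(nat_lit 40745421), (nat_lit 25257288), (nat_lit 16296408)] (nat_lit 10817553)) p15_33_1 (nat_lit 3) (nat_lit 14) (nat_lit 15) = true := by decide +kernel
def p15_33_1_15 : pfC (piC [(nat_lit 40745421), (nat_lit 25257288), (nat_lit 16296408)] (nat_lit 10817553)) p15_33_1 (nat_lit 3) (nat_lit 15) (nat_lit 16) = true := by decide +kernel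
def p15_33_1_16 : pfC (piC [(nat_lit 40745421), (nat_lit 25257288), (nat_lit 16296408)] (nat_lit 10817553)) p15_33_1 (nat_lit 3) (nat_lit 16) (nat_lit 17) = true := by decide +kernel
def p15_33_1_17 : pfC (piC [(nat_lit 40745421), (nat_lit 25257288), (nat_lit 16296408)] (nat_lit 10817553)) p15_33_1 (nat_lit 3) (nat_lit 17) (nat_lit 18) = true := by decide +kernel
def p15_33_1_18 : pfC (piC [(nat_lit 40745421), (nat_lit 25257288), (nat_lit 16296408)] (nat_lit 10817553)) p15_33_1 (nat_lit 3) (nat_lit 18) (nat_lit 19) = true := by decide +kernel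
def p15_33_1_19 : pfC (piC [(nat_lit 40745421), (nat_lit 25257288), (nat_lit 16296408)] (nat_lit 10817553)) p15_33_1 (nat_lit 3) (nat_lit 19) (nat_lit 20) = true := by decide +kernel
def p15_33_1_20 : pfC (piC [(nat_lit 40745421), (nat_lit 25257288), (nat_lit 16296408)] (nat_lit 10817553)) p15_33_1 (nat_lit 3) (nat_lit 20) (nat_lit 21) = true := by decide +kernel
def p15_33_1_21 : pfC (piC [(nat_lit 40745421), (nat_lit 25257288), (nat_lit 16296408)] (nat_lit 10817553)) p15_33_1 (nat_lit 3) (nat_lit 21) (nat_lit 22) = true := by decide +kernel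
def p15_33_1_22 : pfC (piC [(nat_lit 40745421), (nat_lit 25257288), (nat_lit 16296408)] (nat_lit 10817553)) p15_33_1 (nat_lit 3) (nat_lit 22) (nat_lit 23) = true := by decide +kernel
def p15_33_1_23 : pfC (piC [(nat_lit 40745421), (nat_lit 25257288), (nat_lit 16296408)] (nat_lit 10817553)) p15_33_1 (nat_lit 3) (nat_lit 23) (nat_lit 24) = true := by decide +kernel
def p15_33_1_24 : pfC (piC [(nat_lit 40745421), (nat_lit 25257288), (nat_lit 16296408)] (nat_lit 10817553)) p15_33_1 (nat_lit 3) (nat_lit 24) (nat_lit 25) = true := by decide +kernel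
def p15_33_1_25 : pfC (piC [(nat_lit 40745421), (nat_lit 25257288), (nat_lit 16296408)] (nat_lit 10817553)) p15_33_1 (nat_lit 3) (nat_lit 25) (nat_lit 26) = true := by decide +kernel
def p15_33_1_26 : pfC (piC [(nat_lit 40745421), (nat_lit 25257288), (nat_lit 16296408)] (nat_lit 10817553)) p15_33_1 (nat_lit 3) (nat_lit 26) (nat_lit 27) = true := by decide +kernel
def p15_33_1_27 : pfC (piC [(nat_lit 40745421), (nat_lit 25257288), (nat_lit 16296408)] (nat_lit 10817553)) p15_33_1 (nat_lit 3) (nat_lit 27) (nat_lit 28) = true := by decide +kernel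
def p15_33_1_28 : pfC (piC [(nat_lit 40745421), (nat_lit 25257288), (nat_lit 16296408)] (nat_lit 10817553)) p15_33_1 (nat_lit 3) (nat_lit 28) (nat_lit 29) = true := by decide +kernel
def p15_33_1_29 : pfC (piC [(nat_lit 40745421), (nat_lit 25257288), (nat_lit 16296408)] (nat_lit 10817553)) p15_33_1 (nat_lit 3) (nat_lit 29) (nat_lit 30) = true := by decide +kernel
def p15_33_1_30 : pfC (piC [(nat_lit 40745421), (nat_lit 25257288), (nat_lit 16296408)] (nat_lit 10817553)) p15_33_1 (nat_lit 3) (nat_lit 30) (nat_lit 31) = true := by decide +kernel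
def p15_33_1_31 : pfC (piC [(nat_lit 40745421), (nat_lit 25257288), (nat_lit 16296408)] (nat_lit 10817553)) p15_33_1 (nat_lit 3) (nat_lit 31) (nat_lit 32) = true := by decide +kernel
def p15_33_1_32 : pfC (piC [(nat_lit 40745421), (nat_lit 25257288), (nat_lit 16296408)] (nat_lit 10817553)) p15_33_1 (nat_lit 3) (nat_lit 32) (nat_lit 33) = true := by decide +kernel
def p15_33_1_33 : pfC (piC [(nat_lit 40745421), (nat_lit 25257288), (nat_lit 16296408)] (nat_lit 10817553)) p15_33_1 (nat_lit 3) (nat_lit 33) (nat_lit 34) = true := by decide +kernel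
def p15_33_1_34 : pfC (piC [(nat_lit 40745421), (nat_lit 25257288), (nat_lit 16296408)] (nat_lit 10817553)) p15_33_1 (nat_lit 3) (nat_lit 34) (nat_lit 35) = true := by decide +kernel
def p15_33_1_35 : pfC (piC [(nat_lit 40745421), (nat_lit 25257288), (nat_lit 16296408)] (nat_lit 10817553)) p15_33_1 (nat_lit 3) (nat_lit 35) (nat_lit 36) = true := by decide +kernel
def p15_33_1_36 : pfC (piC [(nat_lit 40745421), (nat_lit 25257288), (nat_lit 16296408)] (nat_lit 10817553)) p15_33_1 (nat_lit 3) (nat_lit 36) (nat_lit 37) = true := by decide +kernel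
def p15_33_1_37 : pfC (piC [(nat_lit 40745421), (nat_lit 25257288), (nat_lit 16296408)] (nat_lit 10817553)) p15_33_1 (nat_lit 3) (nat_lit 37) (nat_lit 38) = true := by decide +kernel
def p15_33_1_38 : pfC (piC [(nat_lit 40745421), (nat_lit 25257288), (nat_lit 16296408)] (nat_lit 10817553)) p15_33_1 (nat_lit 3) (nat_lit 38) (nat_lit 39) = true := by decide +kernel
def p15_33_1_39 : pfC (piC [(nat_lit 40745421), (nat_lit 25257288), (nat_lit 16296408)] (nat_lit 10817553)) p15_33_1 (nat_lit 3) (nat_lit 39) (nat_lit 40) = true := by decide +kernel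
def p15_33_1_40 : pfC (piC [(nat_lit 40745421), (nat_lit 25257288), (nat_lit 16296408)] (nat_lit 10817553)) p15_33_1 (nat_lit 3) (nat_lit 40) (nat_lit 41) = true := by decide +kernel
def p15_33_1_41 : pfC (piC [(nat_lit 40745421), (nat_lit 25257288), (nat_lit 16296408)] (nat_lit 10817553)) p15_33_1 (nat_lit 3) (nat_lit 41) (nat_lit 42) = true := by decide +kernel
def p15_33_1_42 : pfC (piC [(nat_lit 40745421), (nat_lit 25257288), (nat_lit 16296408)] (nat_lit 10817553)) p15_33_1 (nat_lit 3) (nat_lit 42) (nat_lit 43) = true := by decide +kernel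
def p15_33_1_43 : pfC (piC [(nat_lit 40745421), (nat_lit 25257288), (nat_lit 16296408)] (nat_lit 10817553)) p15_33_1 (nat_lit 3) (nat_lit 43) (nat_lit 44) = true := by decide +kernel
def p15_33_1_44 : pfC (piC [(nat_lit 40745421), (nat_lit 25257288), (nat_lit 16296408)] (nat_lit 10817553)) p15_33_1 (nat_lit 3) (nat_lit 44) (nat_lit 45) = true := by decide +kernel
def p15_33_1_45 : pfC (piC [(nat_lit 40745421), (nat_lit 25257288), (nat_lit 16296408)] (nat_lit 10817553)) p15_33_1 (nat_lit 3) (nat_lit 45) (nat_lit 46) = true := by decide +kernel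
def p15_33_1_46 : pfC (piC [(nat_lit 40745421), (nat_lit 25257288), (nat_lit 16296408)] (nat_lit 10817553)) p15_33_1 (nat_lit 3) (nat_lit 46) (nat_lit 47) = true := by decide +kernel
def p15_33_1_47 : pfC (piC [(nat_lit 40745421), (nat_lit 25257288), (nat_lit 16296408)] (nat_lit 10817553)) p15_33_1 (nat_lit 3) (nat_lit 47) (nat_lit 48) = true := by decide +kernel
def p15_33_1_48 : pfC (piC [(nat_lit 40745421), (nat_lit 25257288), (nat_lit 16296408)] (nat_lit 10817553)) p15_33_1 (nat_lit 3) (nat_lit 48) (nat_lit 49) = true := by decide +kernel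
def p15_33_1_49 : pfC (piC [(nat_lit 40745421), (nat_lit 25257288), (nat_lit 16296408)] (nat_lit 10817553)) p15_33_1 (nat_lit 3) (nat_lit 49) (nat_lit 50) = true := by decide +kernel
def p15_33_1_50 : pfC (piC [(nat_lit 40745421), (nat_lit 25257288), (nat_lit 16296408)] (nat_lit 10817553)) p15_33_1 (nat_lit 3) (nat_lit 50) (nat_lit 51) = true := by decide +kernel
def p15_33_1_51 : pfC (piC [(nat_lit 40745421), (nat_lit 25257288), (nat_lit 16296408)] (nat_lit 10817553)) p15_33_1 (nat_lit 3) (nat_lit 51) (nat_lit 52) = true := by decide +kernel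
def p15_33_1_52 : pfC (piC [(nat_lit 40745421), (nat_lit 25257288), (nat_lit 16296408)] (nat_lit 10817553)) p15_33_1 (nat_lit 3) (nat_lit 52) (nat_lit 53) = true := by decide +kernel
def p15_33_1_53 : pfC (piC [(nat_lit 40745421), (nat_lit 25257288), (nat_lit 16296408)] (nat_lit 10817553)) p15_33_1 (nat_lit 3) (nat_lit 53) (nat_lit 54) = true := by decide +kernel
def p15_33_1_54 : pfC (piC [(nat_lit 40745421), (nat_lit 25257288), (nat_lit 16296408)] (nat_lit 10817553)) p15_33_1 (nat_lit 3) (nat_lit 54) (nat_lit 55) = true := by decide +kernel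
def p15_33_1_55 : pfC (piC [(nat_lit 40745421), (nat_lit 25257288), (nat_lit 16296408)] (nat_lit 10817553)) p15_33_1 (nat_lit 3) (nat_lit 55) (nat_lit 56) = true := by decide +kernel
def p15_33_1_56 : pfC (piC [(nat_lit 40745421), (nat_lit 25257288), (nat_lit 16296408)] (nat_lit 10817553)) p15_33_1 (nat_lit 3) (nat_lit 56) (nat_lit 57) = true := by decide +kernel
def p15_33_1_57 : pfC (piC [(nat_lit 40745421), (nat_lit 25257288), (nat_lit 16296408)] (nat_lit 10817553)) p15_33_1 (nat_lit 3) (nat_lit 57) (nat_lit 58) = true := by decide +kernel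
def p15_33_1_58 : pfC (piC [(nat_lit 40745421), (nat_lit 25257288), (nat_lit 16296408)] (nat_lit 10817553)) p15_33_1 (nat_lit 3) (nat_lit 58) (nat_lit 59) = true := by decide +kernel
def p15_33_1_59 : pfC (piC [(nat_lit 40745421), (nat_lit 25257288), (nat_lit 16296408)] (nat_lit 10817553)) p15_33_1 (nat_lit 3) (nat_lit 59) (nat_lit 60) = true := by decide +kernel
def p15_33_1_60 : pfC (piC [(nat_lit 40745421), (nat_lit 25257288), (nat_lit 16296408)] (nat_lit 10817553)) p15_33_1 (nat_lit 3) (nat_lit 60) (nat_lit 61) = true := by decide +kernel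
def p15_33_1_61 : pfC (piC [(nat_lit 40745421), (nat_lit 25257288), (nat_lit 16296408)] (nat_lit 10817553)) p15_33_1 (nat_lit 3) (nat_lit 61) (nat_lit 62) = true := by decide +kernel
def p15_33_1_62 : pfC (piC [(nat_lit 40745421), (nat_lit 25257288), (nat_lit 16296408)] (nat_lit 10817553)) p15_33_1 (nat_lit 3) (nat_lit 62) (nat_lit 63) = true := by decide +kernel
def p15_33_1_63 : pfC (piC [(nat_lit 40745421), (nat_lit 25257288), (nat_lit 16296408)] (nat_lit 10817553)) p15_33_1 (nat_lit 3) (nat_lit 63) (nat_lit 64) = true := by decide +kernel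
def p15_33_1_64 : pfC (piC [(nat_lit 40745421), (nat_lit 25257288), (nat_lit 16296408)] (nat_lit 10817553)) p15_33_1 (nat_lit 3) (nat_lit 64) (nat_lit 65) = true := by decide +kernel
def p15_33_1_65 : pfC (piC [(nat_lit 40745421), (nat_lit 25257288), (nat_lit 16296408)] (nat_lit 10817553)) p15_33_1 (nat_lit 3) (nat_lit 65) (nat_lit 66) = true := by decide +kernel
def p15_33_1_66 : pfC (piC [(nat_lit 40745421), (nat_lit 25257288), (nat_lit 16296408)] (nat_lit 10817553)) p15_33_1 (nat_lit 3) (nat_lit 66) (nat_lit 67) = true := by decide +kernel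
def p15_33_1_67 : pfC (piC [(nat_lit 40745421), (nat_lit 25257288), (nat_lit 16296408)] (nat_lit 10817553)) p15_33_1 (nat_lit 3) (nat_lit 67) (nat_lit 68) = true := by decide +kernel
def p15_33_1_68 : pfC (piC [(nat_lit 40745421), (nat_lit 25257288), (nat_lit 16296408)] (nat_lit 10817553)) p15_33_1 (nat_lit 3) (nat_lit 68) (nat_lit 69) = true := by decide +kernel
def p15_33_1_69 : pfC (piC [(nat_lit 40745421), (nat_lit 25257288), (nat_lit 16296408)] (nat_lit 10817553)) p15_33_1 (nat_lit 3) (nat_lit 69) (nat_lit 70) = true := by decide +kernel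
def p15_33_1_70 : pfC (piC [(nat_lit 40745421), (nat_lit 25257288), (nat_lit 16296408)] (nat_lit 10817553)) p15_33_1 (nat_lit 3) (nat_lit 70) (nat_lit 71) = true := by decide +kernel
def p15_33_1_71 : pfC (piC [(nat_lit 40745421), (nat_lit 25257288), (nat_lit 16296408)] (nat_lit 10817553)) p15_33_1 (nat_lit 3) (nat_lit 71) (nat_lit 72) = true := by decide +kernel
def p15_33_1_72 : pfC (piC [(nat_lit 40745421), (nat_lit 25257288), (nat_lit 16296408)] (nat_lit 10817553)) p15_33_1 (nat_lit 3) (nat_lit 72) (nat_lit 73) = true := by decide +kernel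
def p15_33_1_73 : pfC (piC [(nat_lit 40745421), (nat_lit 25257288), (nat_lit 16296408)] (nat_lit 10817553)) p15_33_1 (nat_lit 3) (nat_lit 73) (nat_lit 74) = true := by decide +kernel
def p15_33_1_74 : pfC (piC [(nat_lit 40745421), (nat_lit 25257288), (nat_lit 16296408)] (nat_lit 10817553)) p15_33_1 (nat_lit 3) (nat_lit 74) (nat_lit 75) = true := by decide +kernel
def p15_33_1_75 : pfC (piC [(nat_lit 40745421), (nat_lit 25257288), (nat_lit 16296408)] (nat_lit 10817553)) p15_33_1 (nat_lit 3) (nat_lit 75) (nat_lit 76) = true := by decide +kernel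
def p15_33_1_76 : pfC (piC [(nat_lit 40745421), (nat_lit 25257288), (nat_lit 16296408)] (nat_lit 10817553)) p15_33_1 (nat_lit 3) (nat_lit 76) (nat_lit 77) = true := by decide +kernel
def p15_33_1_77 : pfC (piC [(nat_lit 40745421), (nat_lit 25257288), (nat_lit 16296408)] (nat_lit 10817553)) p15_33_1 (nat_lit 3) (nat_lit 77) (nat_lit 78) = true := by decide +kernel
def p15_33_1_78 : pfC (piC [(nat_lit 40745421), (nat_lit 25257288), (nat_lit 16296408)] (nat_lit 10817553)) p15_33_1 (nat_lit 3) (nat_lit 78) (nat_lit 79) = true := by decide +kernel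
def p15_33_1_79 : pfC (piC [(nat_lit 40745421), (nat_lit 25257288), (nat_lit 16296408)] (nat_lit 10817553)) p15_33_1 (nat_lit 3) (nat_lit 79) (nat_lit 80) = true := by decide +kernel
def p15_33_1_80 : pfC (piC [(nat_lit 40745421), (nat_lit 25257288), (nat_lit 16296408)] (nat_lit 10817553)) p15_33_1 (nat_lit 3) (nat_lit 80) (nat_lit 81) = true := by decide +kernel
def p15_33_1_81 : pfC (piC [(nat_lit 40745421), (nat_lit 25257288), (nat_lit 16296408)] (nat_lit 10817553)) p15_33_1 (nat_lit 3) (nat_lit 81) (nat_lit 82) = true := by decide +kernel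
def p15_33_1_82 : pfC (piC [(nat_lit 40745421), (nat_lit 25257288), (nat_lit 16296408)] (nat_lit 10817553)) p15_33_1 (nat_lit 3) (nat_lit 82) (nat_lit 83) = true := by decide +kernel
def p15_33_1_83 : pfC (piC [(nat_lit 40745421), (nat_lit 25257288), (nat_lit 16296408)] (nat_lit 10817553)) p15_33_1 (nat_lit 3) (nat_lit 83) (nat_lit 84) = true := by decide +kernel
def p15_33_1_84 : pfC (piC [(nat_lit 40745421), (nat_lit 25257288), (nat_lit 16296408)] (nat_lit 10817553)) p15_33_1 (nat_lit 3) (nat_lit 84) (nat_lit 85) = true := by decide +kernel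
def p15_33_1_85 : pfC (piC [(nat_lit 40745421), (nat_lit 25257288), (nat_lit 16296408)] (nat_lit 10817553)) p15_33_1 (nat_lit 3) (nat_lit 85) (nat_lit 86) = true := by decide +kernel
def p15_33_1_86 : pfC (piC [(nat_lit 40745421), (nat_lit 25257288), (nat_lit 16296408)] (nat_lit 10817553)) p15_33_1 (nat_lit 3) (nat_lit 86) (nat_lit 87) = true := by decide +kernel
def p15_33_1_87 : pfC (piC [(nat_lit 40745421), (nat_lit 25257288), (nat_lit 16296408)] (nat_lit 10817553)) p15_33_1 (nat_lit 3) (nat_lit 87) (nat_lit 88) = true := by decide +kernel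
def p15_33_1_88 : pfC (piC [(nat_lit 40745421), (nat_lit 25257288), (nat_lit 16296408)] (nat_lit 10817553)) p15_33_1 (nat_lit 3) (nat_lit 88) (nat_lit 89) = true := by decide +kernel
def p15_33_1_89 : pfC (piC [(nat_lit 40745421), (nat_lit 25257288), (nat_lit 16296408)] (nat_lit 10817553)) p15_33_1 (nat_lit 3) (nat_lit 89) (nat_lit 90) = true := by decide +kernel
def p15_33_1_90 : pfC (piC [(nat_lit 40745421), (nat_lit 25257288), (nat_lit 16296408)] (nat_lit 10817553)) p15_33_1 (nat_lit 3) (nat_lit 90) (nat_lit 91) = true := by decide +kernel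
def p15_33_1_91 : pfC (piC [(nat_lit 40745421), (nat_lit 25257288), (nat_lit 16296408)] (nat_lit 10817553)) p15_33_1 (nat_lit 3) (nat_lit 91) (nat_lit 92) = true := by decide +kernel
def p15_33_1_92 : pfC (piC [(nat_lit 40745421), (nat_lit 25257288), (nat_lit 16296408)] (nat_lit 10817553)) p15_33_1 (nat_lit 3) (nat_lit 92) (nat_lit 93) = true := by decide +kernel
def p15_33_1_93 : pfC (piC [(nat_lit 40745421), (nat_lit 25257288), (nat_lit 16296408)] (nat_lit 10817553)) p15_33_1 (nat_lit 3) (nat_lit 93) (nat_lit 94) = true := by decide +kernel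
def p15_33_1_94 : pfC (piC [(nat_lit 40745421), (nat_lit 25257288), (nat_lit 16296408)] (nat_lit 10817553)) p15_33_1 (nat_lit 3) (nat_lit 94) (nat_lit 95) = true := by decide +kernel
def p15_33_1_95 : pfC (piC [(nat_lit 40745421), (nat_lit 25257288), (nat_lit 16296408)] (nat_lit 10817553)) p15_33_1 (nat_lit 3) (nat_lit 95) (nat_lit 96) = true := by decide +kernel
def p15_33_1_96 : pfC (piC [(nat_lit 40745421), (nat_lit 25257288), (nat_lit 16296408)] (nat_lit 10817553)) p15_33_1 (nat_lit 3) (nat_lit 96) (nat_lit 97) = true := by decide +kernel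
def p15_33_1_97 : pfC (piC [(nat_lit 40745421), (nat_lit 25257288), (nat_lit 16296408)] (nat_lit 10817553)) p15_33_1 (nat_lit 3) (nat_lit 97) (nat_lit 98) = true := by decide +kernel
def p15_33_1_98 : pfC (piC [(nat_lit 40745421), (nat_lit 25257288), (nat_lit 16296408)] (nat_lit 10817553)) p15_33_1 (nat_lit 3) (nat_lit 98) (nat_lit 99) = true := by decide +kernel
def p15_33_1_99 : pfC (piC [(nat_lit 40745421), (nat_lit 25257288), (nat_lit 16296408)] (nat_lit 10817553)) p15_33_1 (nat_lit 3) (nat_lit 99) (nat_lit 100) = true := by decide +kernel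
def p15_33_1_100 : pfC (piC [(nat_lit 40745421), (nat_lit 25257288), (nat_lit 16296408)] (nat_lit 10817553)) p15_33_1 (nat_lit 3) (nat_lit 100) (nat_lit 101) = true := by decide +kernel
def p15_33_1_101 : pfC (piC [(nat_lit 40745421), (nat_lit 25257288), (nat_lit 16296408)] (nat_lit 10817553)) p15_33_1 (nat_lit 3) (nat_lit 101) (nat_lit 102) = true := by decide +kernel
def p15_33_1_102 : pfC (piC [(nat_lit 40745421), (nat_lit 25257288), (nat_lit 16296408)] (nat_lit 10817553)) p15_33_1 (nat_lit 3) (nat_lit 102) (nat_lit 103) = true := by decide +kernel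
def p15_33_1_103 : pfC (piC [(nat_lit 40745421), (nat_lit 25257288), (nat_lit 16296408)] (nat_lit 10817553)) p15_33_1 (nat_lit 3) (nat_lit 103) (nat_lit 104) = true := by decide +kernel
def p15_33_1_104 : pfC (piC [(nat_lit 40745421), (nat_lit 25257288), (nat_lit 16296408)] (nat_lit 10817553)) p15_33_1 (nat_lit 3) (nat_lit 104) (nat_lit 105) = true := by decide +kernel
def p15_33_1_105 : pfC (piC [(nat_lit 40745421), (nat_lit 25257288), (nat_lit 16296408)] (nat_lit 10817553)) p15_33_1 (nat_lit 3) (nat_lit 105) (nat_lit 106) = true := by decide +kernel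
def p15_33_1_106 : pfC (piC [(nat_lit 40745421), (nat_lit 25257288), (nat_lit 16296408)] (nat_lit 10817553)) p15_33_1 (nat_lit 3) (nat_lit 106) (nat_lit 107) = true := by decide +kernel
def p15_33_1_107 : pfC (piC [(nat_lit 40745421), (nat_lit 25257288), (nat_lit 16296408)] (nat_lit 10817553)) p15_33_1 (nat_lit 3) (nat_lit 107) (nat_lit 108) = true := by decide +kernel
def p15_33_1_108 : pfC (piC [(nat_lit 40745421), (nat_lit 25257288), (nat_lit 16296408)] (nat_lit 10817553)) p15_33_1 (nat_lit 3) (nat_lit 108) (nat_lit 109) = true := by decide +kernel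
def p15_33_1_109 : pfC (piC [(nat_lit 40745421), (nat_lit 25257288), (nat_lit 16296408)] (nat_lit 10817553)) p15_33_1 (nat_lit 3) (nat_lit 109) (nat_lit 110) = true := by decide +kernel
def p15_33_1_110 : pfC (piC [(nat_lit 40745421), (nat_lit 25257288), (nat_lit 16296408)] (nat_lit 10817553)) p15_33_1 (nat_lit 3) (nat_lit 110) (nat_lit 111) = true := by decide +kernel
def p15_33_1_111 : pfC (piC [(nat_lit 40745421), (nat_lit 25257288), (nat_lit 16296408)] (nat_lit 10817553)) p15_33_1 (nat_lit 3) (nat_lit 111) (nat_lit 112) = true := by decide +kernel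
def p15_33_1_112 : pfC (piC [(nat_lit 40745421), (nat_lit 25257288), (nat_lit 16296408)] (nat_lit 10817553)) p15_33_1 (nat_lit 3) (nat_lit 112) (nat_lit 113) = true := by decide +kernel
def p15_33_1_113 : pfC (piC [(nat_lit 40745421), (nat_lit 25257288), (nat_lit 16296408)] (nat_lit 10817553)) p15_33_1 (nat_lit 3) (nat_lit 113) (nat_lit 114) = true := by decide +kernel
def p15_33_1_114 : pfC (piC [(nat_lit 40745421), (nat_lit 25257288), (nat_lit 16296408)] (nat_lit 10817553)) p15_33_1 (nat_lit 3) (nat_lit 114) (nat_lit 115) = true := by decide +kernel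
def p15_33_1_115 : pfC (piC [(nat_lit 40745421), (nat_lit 25257288), (nat_lit 16296408)] (nat_lit 10817553)) p15_33_1 (nat_lit 3) (nat_lit 115) (nat_lit 116) = true := by decide +kernel
def p15_33_1_116 : pfC (piC [(nat_lit 40745421), (nat_lit 25257288), (nat_lit 16296408)] (nat_lit 10817553)) p15_33_1 (nat_lit 3) (nat_lit 116) (nat_lit 117) = true := by decide +kernel
def p15_33_1_117 : pfC (piC [(nat_lit 40745421), (nat_lit 25257288), (nat_lit 16296408)] (nat_lit 10817553)) p15_33_1 (nat_lit 3) (nat_lit 117) (nat_lit 118) = true := by decide +kernel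
def p15_33_1_118 : pfC (piC [(nat_lit 40745421), (nat_lit 25257288), (nat_lit 16296408)] (nat_lit 10817553)) p15_33_1 (nat_lit 3) (nat_lit 118) (nat_lit 119) = true := by decide +kernel
def p15_33_1_119 : pfC (piC [(nat_lit 40745421), (nat_lit 25257288), (nat_lit 16296408)] (nat_lit 10817553)) p15_33_1 (nat_lit 3) (nat_lit 119) (nat_lit 120) = true := by decide +kernel
def p15_33_1_120 : pfC (piC [(nat_lit 40745421), (nat_lit 25257288), (nat_lit 16296408)] (nat_lit 10817553)) p15_33_1 (nat_lit 3) (nat_lit 120) (nat_lit 121) = true := by decide +kernel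
def p15_33_1_121 : pfC (piC [(nat_lit 40745421), (nat_lit 25257288), (nat_lit 16296408)] (nat_lit 10817553)) p15_33_1 (nat_lit 3) (nat_lit 121) (nat_lit 122) = true := by decide +kernel
def p15_33_1_122 : pfC (piC [(nat_lit 40745421), (nat_lit 25257288), (nat_lit 16296408)] (nat_lit 10817553)) p15_33_1 (nat_lit 3) (nat_lit 122) (nat_lit 123) = true := by decide +kernel
def p15_33_1_123 : pfC (piC [(nat_lit 40745421), (nat_lit 25257288), (nat_lit 16296408)] (nat_lit 10817553)) p15_33_1 (nat_lit 3) (nat_lit 123) (nat_lit 124) = true := by decide +kernel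
def p15_33_1_124 : pfC (piC [(nat_lit 40745421), (nat_lit 25257288), (nat_lit 16296408)] (nat_lit 10817553)) p15_33_1 (nat_lit 3) (nat_lit 124) (nat_lit 125) = true := by decide +kernel
def p15_33_1_125 : pfC (piC [(nat_lit 40745421), (nat_lit 25257288), (nat_lit 16296408)] (nat_lit 10817553)) p15_33_1 (nat_lit 3) (nat_lit 125) (nat_lit 126) = true := by decide +kernel
def p15_33_1_126 : pfC (piC [(nat_lit 40745421), (nat_lit 25257288), (nat_lit 16296408)] (nat_lit 10817553)) p15_33_1 (nat_lit 3) (nat_lit 126) (nat_lit 127) = true := by decide +kernel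
def p15_33_1_127 : pfC (piC [(nat_lit 40745421), (nat_lit 25257288), (nat_lit 16296408)] (nat_lit 10817553)) p15_33_1 (nat_lit 3) (nat_lit 127) (nat_lit 128) = true := by decide +kernel
def p15_33_1_128 : pfC (piC [(nat_lit 40745421), (nat_lit 25257288), (nat_lit 16296408)] (nat_lit 10817553)) p15_33_1 (nat_lit 3) (nat_lit 128) (nat_lit 129) = true := by decide +kernel
def p15_33_1_129 : pfC (piC [(nat_lit 40745421), (nat_lit 25257288), (nat_lit 16296408)] (nat_lit 10817553)) p15_33_1 (nat_lit 3) (nat_lit 129) (nat_lit 130) = true := by decide +kernel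
def p15_33_1_130 : pfC (piC [(nat_lit 40745421), (nat_lit 25257288), (nat_lit 16296408)] (nat_lit 10817553)) p15_33_1 (nat_lit 3) (nat_lit 130) (nat_lit 131) = true := by decide +kernel
def p15_33_1_131 : pfC (piC [(nat_lit 40745421), (nat_lit 25257288), (nat_lit 16296408)] (nat_lit 10817553)) p15_33_1 (nat_lit 3) (nat_lit 131) (nat_lit 132) = true := by decide +kernel
def p15_33_1_132 : pfC (piC [(nat_lit 40745421), (nat_lit 25257288), (nat_lit 16296408)] (nat_lit 10817553)) p15_33_1 (nat_lit 3) (nat_lit 132) (nat_lit 133) = true := by decide +kernel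
def p15_33_1_133 : pfC (piC [(nat_lit 40745421), (nat_lit 25257288), (nat_lit 16296408)] (nat_lit 10817553)) p15_33_1 (nat_lit 3) (nat_lit 133) (nat_lit 134) = true := by decide +kernel
def p15_33_1_134 : pfC (piC [(nat_lit 40745421), (nat_lit 25257288), (nat_lit 16296408)] (nat_lit 10817553)) p15_33_1 (nat_lit 3) (nat_lit 134) (nat_lit 135) = true := by decide +kernel
def p15_33_1_135 : pfC (piC [(nat_lit 40745421), (nat_lit 25257288), (nat_lit 16296408)] (nat_lit 10817553)) p15_33_1 (nat_lit 3) (nat_lit 135) (nat_lit 136) = true := by decide +kernel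
def p15_33_1_136 : pfC (piC [(nat_lit 40745421), (nat_lit 25257288), (nat_lit 16296408)] (nat_lit 10817553)) p15_33_1 (nat_lit 3) (nat_lit 136) (nat_lit 137) = true := by decide +kernel
def p15_33_1_137 : pfC (piC [(nat_lit 40745421), (nat_lit 25257288), (nat_lit 16296408)] (nat_lit 10817553)) p15_33_1 (nat_lit 3) (nat_lit 137) (nat_lit 138) = true := by decide +kernel
def p15_33_1_138 : pfC (piC [(nat_lit 40745421), (nat_lit 25257288), (nat_lit 16296408)] (nat_lit 10817553)) p15_33_1 (nat_lit 3) (nat_lit 138) (nat_lit 139) = true := by decide +kernel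
def p15_33_1_139 : pfC (piC [(nat_lit 40745421), (nat_lit 25257288), (nat_lit 16296408)] (nat_lit 10817553)) p15_33_1 (nat_lit 3) (nat_lit 139) (nat_lit 140) = true := by decide +kernel
def p15_33_1_140 : pfC (piC [(nat_lit 40745421), (nat_lit 25257288), (nat_lit 16296408)] (nat_lit 10817553)) p15_33_1 (nat_lit 3) (nat_lit 140) (nat_lit 141) = true := by decide +kernel
def p15_33_1_141 : pfC (piC [(nat_lit 40745421), (nat_lit 25257288), (nat_lit 16296408)] (nat_lit 10817553)) p15_33_1 (nat_lit 3) (nat_lit 141) (nat_lit 142) = true := by decide +kernel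
def p15_33_1_142 : pfC (piC [(nat_lit 40745421), (nat_lit 25257288), (nat_lit 16296408)] (nat_lit 10817553)) p15_33_1 (nat_lit 3) (nat_lit 142) (nat_lit 143) = true := by decide +kernel
def p15_33_1_143 : pfC (piC [(nat_lit 40745421), (nat_lit 25257288), (nat_lit 16296408)] (nat_lit 10817553)) p15_33_1 (nat_lit 3) (nat_lit 143) (nat_lit 144) = true := by decide +kernel
def p15_33_1_144 : pfC (piC [(nat_lit 40745421), (nat_lit 25257288), (nat_lit 16296408)] (nat_lit 10817553)) p15_33_1 (nat_lit 3) (nat_lit 144) (nat_lit 145) = true := by decide +kernel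
def p15_33_1_145 : pfC (piC [(nat_lit 40745421), (nat_lit 25257288), (nat_lit 16296408)] (nat_lit 10817553)) p15_33_1 (nat_lit 3) (nat_lit 145) (nat_lit 146) = true := by decide +kernel
def p15_33_1_146 : pfC (piC [(nat_lit 40745421), (nat_lit 25257288), (nat_lit 16296408)] (nat_lit 10817553)) p15_33_1 (nat_lit 3) (nat_lit 146) (nat_lit 147) = true := by decide +kernel
def p15_33_1_147 : pfC (piC [(nat_lit 40745421), (nat_lit 25257288), (nat_lit 16296408)] (nat_lit 10817553)) p15_33_1 (nat_lit 3) (nat_lit 147) (nat_lit 148) = true := by decide +kernel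
def p15_33_1_148 : pfC (piC [(nat_lit 40745421), (nat_lit 25257288), (nat_lit 16296408)] (nat_lit 10817553)) p15_33_1 (nat_lit 3) (nat_lit 148) (nat_lit 149) = true := by decide +kernel
def p15_33_1_149 : pfC (piC [(nat_lit 40745421), (nat_lit 25257288), (nat_lit 16296408)] (nat_lit 10817553)) p15_33_1 (nat_lit 3) (nat_lit 149) (nat_lit 150) = true := by decide +kernel
def p15_33_1_150 : pfC (piC [(nat_lit 40745421), (nat_lit 25257288), (nat_lit 16296408)] (nat_lit 10817553)) p15_33_1 (nat_lit 3) (nat_lit 150) (nat_lit 151) = true := by decide +kernel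
def p15_33_1_151 : pfC (piC [(nat_lit 40745421), (nat_lit 25257288), (nat_lit 16296408)] (nat_lit 10817553)) p15_33_1 (nat_lit 3) (nat_lit 151) (nat_lit 152) = true := by decide +kernel
def p15_33_1_152 : pfC (piC [(nat_lit 40745421), (nat_lit 25257288), (nat_lit 16296408)] (nat_lit 10817553)) p15_33_1 (nat_lit 3) (nat_lit 152) (nat_lit 153) = true := by decide +kernel
def p15_33_1_153 : pfC (piC [(nat_lit 40745421), (nat_lit 25257288), (nat_lit 16296408)] (nat_lit 10817553)) p15_33_1 (nat_lit 3) (nat_lit 153) (nat_lit 154) = true := by decide +kernel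
def p15_33_1_154 : pfC (piC [(nat_lit 40745421), (nat_lit 25257288), (nat_lit 16296408)] (nat_lit 10817553)) p15_33_1 (nat_lit 3) (nat_lit 154) (nat_lit 155) = true := by decide +kernel
theorem p15_33_1_T : PfS (PiF n15_33.reverse (nat_lit 10817553)) p15_33_1 (nat_lit 3) [] 0 :=
  pftab_of (los := [(nat_lit 40745421), (nat_lit 25257288), (nat_lit 16296408)]) (by decide +kernel) (hi := (nat_lit 155)) (PfP.trans (PfP.trans (PfP.trans (PfP.trans (PfP.trans (PfP.trans (PfP.trans (PfP.trans (PfP.trans (PfP.trans (PfP.trans (PfP.trans (PfP.trans (PfP.trans (PfP.trans (PfP.trans (PfP.trans (PfP.trans (PfP.trans (PfP.trans (PfP.trans (PfP.trans (PfP.trans (PfP.trans (PfP.trans (PfP.trans (PfP.trans (PfP.trans (PfP.trans (PfP.trans (PfP.trans (PfP.trans (PfP.trans (PfP.trans (PfP.trans (PfP.trans (PfP.trans (PfP.trans (PfP.trans (PfP.trans (PfP.trans (PfP.trans (PfP.trans (PfP.trans (PfP.trans (PfP.trans (PfP.trans (PfP.trans (PfP.trans (PfP.trans (PfP.trans (PfP.trans (PfP.trans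 (PfP.trans (PfP.trans (PfP.trans (PfP.trans (PfP.trans (PfP.trans (PfP.trans (PfP.trans (PfP.trans (PfP.trans (PfP.trans (PfP.trans (PfP.trans (PfP.trans (PfP.trans (PfP.trans (PfP.trans (PfP.trans (PfP.trans (PfP.trans (PfP.trans (PfP.trans (PfP.trans (PfP.trans (PfP.trans (PfP.trans (PfP.trans (PfP.trans (PfP.trans (PfP.trans (PfP.trans (PfP.trans (PfP.trans (PfP.trans (PfP.trans (PfP.trans (PfP.trans (PfP.trans (PfP.trans (PfP.trans (PfP.trans (PfP.trans (PfP.trans (PfP.trans (PfP.trans (PfP.trans (PfP.trans (PfP.trans (PfP.trans (PfP.trans (PfP.trans (PfP.trans (PfP.trans (PfP.trans (PfP.trans (PfP.trans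
 (PfP.trans (PfP.trans (PfP.trans (PfP.trans (PfP.trans (PfP.trans (PfP.trans (PfP.trans (PfP.trans (PfP.trans (PfP.trans (PfP.trans (PfP.trans (PfP.trans (PfP.trans (PfP.trans (PfP.trans (PfP.trans (PfP.trans (PfP.trans (PfP.trans (PfP.trans (PfP.trans (PfP.trans (PfP.trans (PfP.trans (PfP.trans (PfP.trans (PfP.trans (PfP.trans (PfP.trans (PfP.trans (PfP.trans (PfP.trans (PfP.trans (PfP.trans (PfP.trans (PfP.trans (PfP.trans (PfP.trans (PfP.trans (PfP.trans (PfP.trans (PfP.trans (PfP.trans (pfC_sound p15_33_1_0) (pfC_sound p15_33_1_1)) (pfC_sound p15_33_1_2)) (pfC_sound p15_33_1_3)) (pfC_sound p15_33_1_4)) (pfC_sound p15_33_1_5)) (pfC_sound p15_33_1_6)) (pfC_sound p15_33_1_7)) (pfC_sound p15_33_1_8)) (pfC_sound p15_33_1_9)) (pfC_sound p15_33_1_10)) (pfC_sound p15_33_1_11)) (pfC_sound p15_33_1_12)) (pfC_sound p15_33_1_13)) (pfC_sound p15_33_1_14)) (pfC_sound p15_33_1_15)) (pfC_sound p15_33_1_16)) (pfC_sound p15_33_1_17)) (pfC_sound p15_33_1_18)) (pfC_sound p15_33_1_19))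 (pfC_sound p15_33_1_20)) (pfC_sound p15_33_1_21)) (pfC_sound p15_33_1_22)) (pfC_sound p15_33_1_23)) (pfC_sound p15_33_1_24)) (pfC_sound p15_33_1_25)) (pfC_sound p15_33_1_26)) (pfC_sound p15_33_1_27)) (pfC_sound
 p15_33_1_28)) (pfC_sound p15_33_1_29)) (pfC_sound p15_33_1_30)) (pfC_sound p15_33_1_31)) (pfC_sound p15_33_1_32)) (pfC_sound p15_33_1_33)) (pfC_sound p15_33_1_34)) (pfC_sound p15_33_1_35)) (pfC_sound p15_33_1_36)) (pfC_sound p15_33_1_37)) (pfC_sound p15_33_1_38)) (pfC_sound p15_33_1_39)) (pfC_sound p15_33_1_40)) (pfC_sound p15_33_1_41)) (pfC_sound p15_33_1_42)) (pfC_sound p15_33_1_43)) (pfC_sound p15_33_1_44)) (pfC_sound p15_33_1_45)) (pfC_sound p15_33_1_46)) (pfC_sound p15_33_1_47)) (pfC_sound p15_33_1_48)) (pfC_sound p15_33_1_49)) (pfC_sound p15_33_1_50)) (pfC_sound p15_33_1_51)) (pfC_sound p15_33_1_52)) (pfC_sound p15_33_1_53)) (pfC_sound p15_33_1_54)) (pfC_sound p15_33_1_55)) (pfC_sound p15_33_1_56)) (pfC_sound p15_33_1_57)) (pfC_sound p15_33_1_58)) (pfC_sound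 p15_33_1_59)) (pfC_sound p15_33_1_60)) (pfC_sound p15_33_1_61)) (pfC_sound p15_33_1_62)) (pfC_sound p15_33_1_63)) (pfC_sound p15_33_1_64)) (pfC_sound p15_33_1_65)) (pfC_sound p15_33_1_66)) (pfC_sound p15_33_1_67)) (pfC_sound p15_33_1_68)) (pfC_sound p15_33_1_69)) (pfC_sound p15_33_1_70)) (pfC_sound p15_33_1_71)) (pfC_sound p15_33_1_72)) (pfC_sound p15_33_1_73)) (pfC_sound p15_33_1_74)) (pfC_sound p15_33_1_75)) (pfC_sound
 p15_33_1_76)) (pfC_sound p15_33_1_77)) (pfC_sound p15_33_1_78)) (pfC_sound p15_33_1_79)) (pfC_sound p15_33_1_80)) (pfC_sound p15_33_1_81)) (pfC_sound p15_33_1_82)) (pfC_sound p15_33_1_83)) (pfC_sound p15_33_1_84)) (pfC_sound p15_33_1_85)) (pfC_sound p15_33_1_86)) (pfC_sound p15_33_1_87)) (pfC_sound p15_33_1_88)) (pfC_sound p15_33_1_89)) (pfC_sound p15_33_1_90)) (pfC_sound p15_33_1_91)) (pfC_sound p15_33_1_92)) (pfC_sound p15_33_1_93)) (pfC_sound p15_33_1_94)) (pfC_sound p15_33_1_95)) (pfC_sound p15_33_1_96)) (pfC_sound p15_33_1_97)) (pfC_sound p15_33_1_98))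 (pfC_sound p15_33_1_99)) (pfC_sound p15_33_1_100)) (pfC_sound p15_33_1_101)) (pfC_sound p15_33_1_102)) (pfC_sound p15_33_1_103)) (pfC_sound p15_33_1_104)) (pfC_sound p15_33_1_105)) (pfC_sound p15_33_1_106)) (pfC_sound p15_33_1_107)) (pfC_sound p15_33_1_108)) (pfC_sound p15_33_1_109)) (pfC_sound p15_33_1_110)) (pfC_sound p15_33_1_111)) (pfC_sound p15_33_1_112)) (pfC_sound p15_33_1_113)) (pfC_sound p15_33_1_114)) (pfC_sound p15_33_1_115)) (pfC_sound p15_33_1_116)) (pfC_sound p15_33_1_117)) (pfC_sound p15_33_1_118)) (pfC_sound p15_33_1_119)) (pfC_sound p15_33_1_120)) (pfC_sound p15_33_1_121)) (pfC_sound p15_33_1_122)) (pfC_sound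
 p15_33_1_123)) (pfC_sound p15_33_1_124)) (pfC_sound p15_33_1_125)) (pfC_sound p15_33_1_126)) (pfC_sound p15_33_1_127)) (pfC_sound p15_33_1_128)) (pfC_sound p15_33_1_129)) (pfC_sound p15_33_1_130)) (pfC_sound p15_33_1_131)) (pfC_sound p15_33_1_132)) (pfC_sound p15_33_1_133)) (pfC_sound p15_33_1_134)) (pfC_sound p15_33_1_135)) (pfC_sound p15_33_1_136)) (pfC_sound p15_33_1_137)) (pfC_sound p15_33_1_138)) (pfC_sound p15_33_1_139)) (pfC_sound p15_33_1_140)) (pfC_sound p15_33_1_141)) (pfC_sound p15_33_1_142)) (pfC_sound p15_33_1_143)) (pfC_sound p15_33_1_144)) (pfC_sound p15_33_1_145)) (pfC_sound p15_33_1_146)) (pfC_sound p15_33_1_147)) (pfC_sound p15_33_1_148)) (pfC_sound p15_33_1_149)) (pfC_sound p15_33_1_150)) (pfC_sound p15_33_1_151)) (pfC_sound p15_33_1_152)) (pfC_sound p15_33_1_153)) (pfC_sound p15_33_1_154)) (by decide +kernel)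

def z15_33_1 : zOK yB15_33 (nat_lit 1) (nat_lit 400) (nat_lit 600) (nat_lit 10817553) (nat_lit 6991654) = true := by decide +kernel
def g15_33_1 : gOK yB15_33.x P15_33 (nat_lit 1403) (q15_33 :: r15_33) (nat_lit 1) (nat_lit 400) (nat_lit 2) (nat_lit 600) (nat_lit 11000000) (nat_lit 17850000) (nat_lit 12712500) (nat_lit 12712500) [(nat_lit 800), (nat_lit 1130)] = true := by decide +kernel
def v15_33_1 : ivC P15_33 s15_33 w15_33 n15_33 (nat_lit 3) (nat_lit 4920) (nat_lit 1) (nat_lit 400) f176_0_400 f184_0_400 (nat_lit 2) (nat_lit 600) f176_0_600 f184_0_600 (nat_lit 10817553) (nat_lit 6991654) p15_33_1 = true := by decide +kernel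
def p15_33_2 : PF := (PF.cons (PF.cons (PF.cons (PF.leaf (nat_lit 2689213) (nat_lit 15355633) (nat_lit 51753179) (nat_lit 15355633) [(nat_lit 0), (nat_lit 0), (nat_lit 0)]) (PF.cons (PF.leaf (nat_lit 2836401) (nat_lit 253535) (nat_lit 51512466) (nat_lit 15342811) [(nat_lit 253535), (nat_lit 0), (nat_lit 0)]) (PF.cons (PF.leaf (nat_lit 3011218) (nat_lit 275580) (nat_lit 51230943) (nat_lit 15326709) [(nat_lit 275580), (nat_lit 0), (nat_lit 0)]) (PF.cons (PF.leaf (nat_lit 3207397) (nat_lit 295107) (nat_lit 50916158) (nat_lit 15307333) [(nat_lit 295107), (nat_lit 0), (nat_lit 0)]) (PF.cons (PF.leaf (nat_lit 3421840) (nat_lit 312681) (nat_lit 50573454) (nat_lit 15284634) [(nat_lit 312681), (nat_lit 0), (nat_lit 0)]) (PF.cons (PF.leaf (nat_lit 3652241) (nat_lit 328662) (nat_lit 50206948) (nat_lit 15258550) [(nat_lit 328662), (nat_lit 0), (nat_lit 0)]) (PF.cons (PF.leaf (nat_lit 3896666) (nat_lit 343299) (nat_lit 49819983) (nat_lit 15229029) [(nat_lit 343299), (nat_lit 0),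 (nat_lit 0)]) (PF.cons (PF.leaf (nat_lit 4153613) (nat_lit 356772) (nat_lit 49415372) (nat_lit 15196034) [(nat_lit 356772), (nat_lit 0), (nat_lit 0)]) (PF.cons (PF.leaf (nat_lit 4421601) (nat_lit 369215) (nat_lit 48995540) (nat_lit
 15159547) [(nat_lit 369215), (nat_lit 0), (nat_lit 0)]) (PF.cons (PF.leaf (nat_lit 4699451) (nat_lit 380735) (nat_lit 48562616) (nat_lit 15119575) [(nat_lit 380735), (nat_lit 0), (nat_lit 0)]) (PF.cons (PF.leaf (nat_lit 4986040) (nat_lit 391417) (nat_lit 48118490) (nat_lit 15076145) [(nat_lit 391417), (nat_lit 0), (nat_lit 0)]) (PF.cons (PF.leaf (nat_lit 5280392) (nat_lit 401331) (nat_lit 47664856) (nat_lit 15029304) [(nat_lit 401331), (nat_lit 0), (nat_lit 0)]) (PF.cons (PF.leaf (nat_lit 5581673) (nat_lit 410537) (nat_lit 47203242) (nat_lit 14979118) [(nat_lit 410537), (nat_lit 0), (nat_lit 0)]) (PF.cons (PF.leaf (nat_lit 5888967) (nat_lit 419085) (nat_lit 46735032) (nat_lit 14925669) [(nat_lit 419085), (nat_lit 0), (nat_lit 0)]) (PF.cons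 PF.nil (PF.cons PF.nil (PF.cons PF.nil (PF.cons PF.nil PF.nil)))))))))))))))))) (PF.cons (PF.cons (PF.leaf (nat_lit 3328740) (nat_lit 1585957) (nat_lit 50267060) (nat_lit 15255794) [(nat_lit 0), (nat_lit 1585957), (nat_lit 0)]) (PF.cons (PF.leaf (nat_lit 3522571) (nat_lit 312026) (nat_lit 49949975) (nat_lit 15231963) [(nat_lit 312026), (nat_lit 1614847), (nat_lit 0)]) (PF.cons (PF.leaf (nat_lit 3736691) (nat_lit 328524) (nat_lit 49603907)
 (nat_lit 15204429) [(nat_lit 328524), (nat_lit 1643425), (nat_lit 0)]) (PF.cons (PF.leaf (nat_lit 3967035) (nat_lit 343422) (nat_lit 49234107) (nat_lit 15173284) [(nat_lit 343422), (nat_lit 1671151), (nat_lit 0)]) (PF.cons (PF.leaf (nat_lit 4211455) (nat_lit 357006) (nat_lit 48844484) (nat_lit 15138580) [(nat_lit 357006), (nat_lit 1697724), (nat_lit 0)]) (PF.cons (PF.leaf (nat_lit 4468095) (nat_lit 369468) (nat_lit 48438136) (nat_lit 15100361) [(nat_lit 369468), (nat_lit 1722972), (nat_lit 0)]) (PF.cons (PF.leaf (nat_lit 4735482)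 (nat_lit 380950) (nat_lit 48017625) (nat_lit 15058674) [(nat_lit 380950), (nat_lit 1746808), (nat_lit 0)]) (PF.cons (PF.leaf (nat_lit 5012341) (nat_lit 391559) (nat_lit 47585131) (nat_lit 15013575) [(nat_lit 391559), (nat_lit 1769191), (nat_lit 0)]) (PF.cons (PF.leaf (nat_lit 5297558) (nat_lit 401377) (nat_lit 47142547) (nat_lit 14965134) [(nat_lit 401377), (nat_lit 1790112), (nat_lit 0)]) (PF.cons (PF.leaf (nat_lit 5590193) (nat_lit 410473) (nat_lit 46691538) (nat_lit 14913432) [(nat_lit 410473), (nat_lit 1809583), (nat_lit 0)]) (PF.cons (PF.leaf (nat_lit 5889270) (nat_lit 418903) (nat_lit 46233586) (nat_lit 14858562) [(nat_lit 418903), (nat_lit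
 1827628), (nat_lit 0)]) (PF.cons (PF.leaf (nat_lit 6194002) (nat_lit 426716) (nat_lit 45770018) (nat_lit 14800630) [(nat_lit 426716), (nat_lit 1844282), (nat_lit 0)]) (PF.cons (PF.leaf (nat_lit 6503626) (nat_lit 433954) (nat_lit 45302029) (nat_lit 14739748) [(nat_lit 433954), (nat_lit 1859583), (nat_lit 0)]) (PF.cons PF.nil (PF.cons PF.nil (PF.cons PF.nil PF.nil)))))))))))))))) (PF.cons (PF.cons (PF.leaf (nat_lit 4053936) (nat_lit 1690855) (nat_lit 48616771) (nat_lit 15110330) [(nat_lit 0), (nat_lit 1690855), (nat_lit 0)]) (PF.cons (PF.leaf (nat_lit 4281200) (nat_lit 355569) (nat_lit 48249721) (nat_lit 15074859) [(nat_lit 355569), (nat_lit 1714330), (nat_lit 0)]) (PF.cons (PF.leaf (nat_lit 4523766) (nat_lit 368403) (nat_lit 47862346) (nat_lit 15035655) [(nat_lit 368403), (nat_lit 1737002), (nat_lit 0)]) (PF.cons (PF.leaf (nat_lit 4778768) (nat_lit 380095) (nat_lit 47458372) (nat_lit 14992870) [(nat_lit 380095), (nat_lit 1758641), (nat_lit 0)]) (PF.cons (PF.leaf (nat_lit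 5044437) (nat_lit 390812) (nat_lit 47040696) (nat_lit 14946626) [(nat_lit 390812), (nat_lit 1779119), (nat_lit 0)]) (PF.cons (PF.leaf (nat_lit 5319408) (nat_lit 400672) (nat_lit 46611677) (nat_lit 14897039)
 [(nat_lit 400672), (nat_lit 1798366), (nat_lit 0)]) (PF.cons (PF.leaf (nat_lit 5602528) (nat_lit 409766) (nat_lit 46173292) (nat_lit 14844219) [(nat_lit 409766), (nat_lit 1816350), (nat_lit 0)]) (PF.cons (PF.leaf (nat_lit 5892722) (nat_lit 418165) (nat_lit 45727240) (nat_lit 14788283) [(nat_lit 418165), (nat_lit 1833065), (nat_lit 0)]) (PF.cons (PF.leaf (nat_lit 6189070) (nat_lit 425927) (nat_lit 45275001) (nat_lit 14729350) [(nat_lit 425927), (nat_lit 1848519), (nat_lit 0)]) (PF.cons (PF.leaf (nat_lit 6490813) (nat_lit 433101) (nat_lit 44817881) (nat_lit 14667545) [(nat_lit 433101), (nat_lit 1862735), (nat_lit 0)]) (PF.cons (PF.leaf (nat_lit 6797180) (nat_lit 439729) (nat_lit 44357039) (nat_lit 14602997) [(nat_lit 439729), (nat_lit 1875742), (nat_lit 0)]) (PF.cons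 PF.nil (PF.cons PF.nil (PF.cons PF.nil PF.nil)))))))))))))) (PF.cons (PF.cons (PF.leaf (nat_lit 4835072) (nat_lit 1769983) (nat_lit 46877699) (nat_lit 14921163) [(nat_lit 0), (nat_lit 1769983), (nat_lit 0)]) (PF.cons (PF.leaf (nat_lit 5086217) (nat_lit 388888) (nat_lit 46479968) (nat_lit 14874557) [(nat_lit 388888), (nat_lit 1788466), (nat_lit 0)]) (PF.cons (PF.leaf (nat_lit 5348973) (nat_lit 399011) (nat_lit 46068329)
 (nat_lit 14824456) [(nat_lit 399011), (nat_lit 1806001), (nat_lit 0)]) (PF.cons (PF.leaf (nat_lit 5621102) (nat_lit 408266) (nat_lit 45645492) (nat_lit 14771047) [(nat_lit 408266), (nat_lit 1822491), (nat_lit 0)]) (PF.cons (PF.leaf (nat_lit 5901289) (nat_lit 416757) (nat_lit 45213632) (nat_lit 14714495) [(nat_lit 416757), (nat_lit 1837884), (nat_lit 0)]) (PF.cons (PF.leaf (nat_lit 6188432) (nat_lit 424565) (nat_lit 44774549) (nat_lit 14654952) [(nat_lit 424565), (nat_lit 1852161), (nat_lit 0)]) (PF.cons (PF.leaf (nat_lit 6481573) (nat_lit 431752) (nat_lit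 44329774) (nat_lit 14592565) [(nat_lit 431752), (nat_lit 1865318), (nat_lit 0)]) (PF.cons (PF.leaf (nat_lit 6779870) (nat_lit 438371) (nat_lit 43880626) (nat_lit 14527481) [(nat_lit 438371), (nat_lit 1877368), (nat_lit 0)]) (PF.cons (PF.leaf (nat_lit 7082568) (nat_lit 444464) (nat_lit 43428257) (nat_lit 14459842) [(nat_lit 444464), (nat_lit 1888332), (nat_lit 0)]) (PF.cons PF.nil (PF.cons PF.nil (PF.cons PF.nil PF.nil)))))))))))) (PF.cons (PF.cons (PF.leaf (nat_lit 5650222) (nat_lit 1828144) (nat_lit 45103094) (nat_lit 14693139) [(nat_lit 0), (nat_lit 1828144), (nat_lit 0)]) (PF.cons (PF.leaf (nat_lit 5917906) (nat_lit 414483)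
 (nat_lit 44688975) (nat_lit 14636608) [(nat_lit 414483), (nat_lit 1842186), (nat_lit 0)]) (PF.cons (PF.leaf (nat_lit 6194357) (nat_lit 422484) (nat_lit 44265750) (nat_lit 14576980) [(nat_lit 422484), (nat_lit 1855278), (nat_lit 0)]) (PF.cons (PF.leaf (nat_lit 6477782) (nat_lit 429798) (nat_lit 43835422) (nat_lit 14514453) [(nat_lit 429798), (nat_lit 1867385), (nat_lit 0)]) (PF.cons (PF.leaf (nat_lit 6767147) (nat_lit 436495) (nat_lit 43399633) (nat_lit 14449209) [(nat_lit 436495), (nat_lit 1878496), (nat_lit 0)]) (PF.cons (PF.leaf (nat_lit 7061558) (nat_lit 442634) (nat_lit 42959761) (nat_lit 14381417) [(nat_lit 442634), (nat_lit 1888615), (nat_lit 0)]) (PF.cons (PF.leaf (nat_lit 7360246) (nat_lit 448262) (nat_lit 42516985) (nat_lit 14311237) [(nat_lit 448262), (nat_lit 1897754), (nat_lit 0)]) (PF.cons PF.nil (PF.cons PF.nil (PF.cons PF.nil PF.nil)))))))))) (PF.cons (PF.cons (PF.leaf (nat_lit 6482719) (nat_lit 1869004) (nat_lit 43331188) (nat_lit 14432600) [(nat_lit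 0), (nat_lit 1869004), (nat_lit 0)]) (PF.cons (PF.leaf (nat_lit 6761213) (nat_lit 433963) (nat_lit 42911262) (nat_lit 14367713) [(nat_lit 433963), (nat_lit 1879174), (nat_lit 0)]) (PF.cons (PF.leaf (nat_lit 7046251)
 (nat_lit 440252) (nat_lit 42485825) (nat_lit 14300195) [(nat_lit 440252), (nat_lit 1888457), (nat_lit 0)]) (PF.cons (PF.leaf (nat_lit 7336353) (nat_lit 445983) (nat_lit 42056372) (nat_lit 14230246) [(nat_lit 445983), (nat_lit 1896848), (nat_lit 0)]) (PF.cons (PF.leaf (nat_lit 7630689) (nat_lit 451208) (nat_lit 41624146) (nat_lit 14158046) [(nat_lit 451208), (nat_lit 1904357), (nat_lit 0)]) (PF.cons (PF.leaf (nat_lit 7928546) (nat_lit 455971) (nat_lit 41190199) (nat_lit 14083765) [(nat_lit 455971), (nat_lit 1910997), (nat_lit 0)]) (PF.cons PF.nil (PF.cons PF.nil PF.nil)))))))) (PF.cons (PF.cons (PF.leaf (nat_lit 7319876) (nat_lit 1895550) (nat_lit 41589168) (nat_lit 14146340) [(nat_lit 0), (nat_lit 1895550), (nat_lit 0)]) (PF.cons (PF.leaf (nat_lit 7604722)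 (nat_lit 448492) (nat_lit 41171169) (nat_lit 14074767) [(nat_lit 448492), (nat_lit 1902397), (nat_lit 0)]) (PF.cons (PF.leaf (nat_lit 7894343) (nat_lit 453377) (nat_lit 40750337) (nat_lit 14001046) [(nat_lit 453377), (nat_lit 1908445), (nat_lit 0)]) (PF.cons (PF.leaf (nat_lit 8187492) (nat_lit 457803) (nat_lit 40327792) (nat_lit 13925364) [(nat_lit 457803), (nat_lit 1913707), (nat_lit 0)]) (PF.cons PF.nil (PF.cons PF.nil
 PF.nil)))))) (PF.cons (PF.cons (PF.leaf (nat_lit 8152145) (nat_lit 1910288) (nat_lit 39895866) (nat_lit 13840924) [(nat_lit 0), (nat_lit 1910288), (nat_lit 0)]) (PF.cons (PF.leaf (nat_lit 8439876) (nat_lit 458971) (nat_lit 39485331) (nat_lit 13764284) [(nat_lit 458971), (nat_lit 1914317), (nat_lit 0)]) (PF.cons PF.nil (PF.cons PF.nil PF.nil)))) (PF.cons (PF.cons (PF.leaf (nat_lit 8972486) (nat_lit 1915341) (nat_lit 38263771) (nat_lit 13522308) [(nat_lit 0), (nat_lit 1915341), (nat_lit 0)]) (PF.cons PF.nil PF.nil)) (PF.cons PF.nil (PF.cons PF.nil PF.nil)))))))))))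 (PF.cons (PF.cons (PF.cons (PF.leaf (nat_lit 4322849) (nat_lit 6164140) (nat_lit 46181670) (nat_lit 14763001) [(nat_lit 0), (nat_lit 0), (nat_lit 6164140)]) (PF.cons (PF.leaf (nat_lit 4523582) (nat_lit 337145) (nat_lit 45872730) (nat_lit 14726084) [(nat_lit 337145), (nat_lit 0), (nat_lit 6172852)]) (PF.cons (PF.leaf (nat_lit 4743103) (nat_lit 352325) (nat_lit 45538357) (nat_lit 14684908) [(nat_lit 352325), (nat_lit 0), (nat_lit 6180895)]) (PF.cons (PF.leaf (nat_lit 4977258) (nat_lit 365708) (nat_lit 45183864) (nat_lit 14639894) [(nat_lit 365708), (nat_lit 0), (nat_lit 6187928)]) (PF.cons (PF.leaf (nat_lit 5223745)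
 (nat_lit 377659) (nat_lit 44813119) (nat_lit 14591342) [(nat_lit 377659), (nat_lit 0), (nat_lit 6193712)]) (PF.cons (PF.leaf (nat_lit 5480713) (nat_lit 388426) (nat_lit 44429111) (nat_lit 14539486) [(nat_lit 388426), (nat_lit 0), (nat_lit 6198083)]) (PF.cons (PF.leaf (nat_lit 5746701) (nat_lit 398185) (nat_lit 44034245) (nat_lit 14484524) [(nat_lit 398185), (nat_lit 0), (nat_lit 6200927)]) (PF.cons (PF.leaf (nat_lit 6020489) (nat_lit 407069) (nat_lit 43630518) (nat_lit 14426633) [(nat_lit 407069), (nat_lit 0), (nat_lit 6202172)]) (PF.cons (PF.leaf (nat_lit 6301031) (nat_lit 415180) (nat_lit 43219615) (nat_lit 14365976) [(nat_lit 415180), (nat_lit 0), (nat_lit 6201777)]) (PF.cons (PF.leaf (nat_lit 6587407) (nat_lit 422598) (nat_lit 42802990) (nat_lit 14302708) [(nat_lit 422598), (nat_lit 0), (nat_lit 6199723)]) (PF.cons (PF.leaf (nat_lit 6878809) (nat_lit 429391) (nat_lit 42381903) (nat_lit 14236979) [(nat_lit 429391), (nat_lit 0), (nat_lit 6196011)]) (PF.cons (PF.leaf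 (nat_lit 7174502) (nat_lit 435613) (nat_lit 41957464) (nat_lit 14168934) [(nat_lit 435613), (nat_lit 0), (nat_lit 6190659)]) (PF.cons PF.nil (PF.cons PF.nil PF.nil)))))))))))))) (PF.cons (PF.cons (PF.leaf (nat_lit
 5043536) (nat_lit 1750367) (nat_lit 44614461) (nat_lit 14558401) [(nat_lit 0), (nat_lit 1750367), (nat_lit 6185583)]) (PF.cons (PF.leaf (nat_lit 5272466) (nat_lit 373744) (nat_lit 44267597) (nat_lit 14510928) [(nat_lit 373744), (nat_lit 1767411), (nat_lit 6189130)]) (PF.cons (PF.leaf (nat_lit 5515163) (nat_lit 385139) (nat_lit 43903692) (nat_lit 14459756) [(nat_lit 385139), (nat_lit 1783611), (nat_lit 6191473)]) (PF.cons (PF.leaf (nat_lit 5768700) (nat_lit 395325) (nat_lit 43526310) (nat_lit 14405229) [(nat_lit 395325), (nat_lit 1798831), (nat_lit 6192466)]) (PF.cons (PF.leaf (nat_lit 6031405) (nat_lit 404503) (nat_lit 43138166) (nat_lit 14347616) [(nat_lit 404503), (nat_lit 1813002), (nat_lit 6192014)]) (PF.cons (PF.leaf (nat_lit 6301922) (nat_lit 412818)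 (nat_lit 42741421) (nat_lit 14287141) [(nat_lit 412818), (nat_lit 1826098), (nat_lit 6190061)]) (PF.cons (PF.leaf (nat_lit 6579123) (nat_lit 420378) (nat_lit 42337851) (nat_lit 14223999) [(nat_lit 420378), (nat_lit 1838117), (nat_lit 6186575)]) (PF.cons (PF.leaf (nat_lit 6862041) (nat_lit 427267) (nat_lit 41928944) (nat_lit 14158371) [(nat_lit 427267), (nat_lit 1849073), (nat_lit 6181549)]) (PF.cons (PF.leaf (nat_lit 7149833)
 (nat_lit 433554) (nat_lit 41515974) (nat_lit 14090422) [(nat_lit 433554), (nat_lit 1858990), (nat_lit 6174989)]) (PF.cons (PF.leaf (nat_lit 7441824) (nat_lit 439294) (nat_lit 41100041) (nat_lit 14020309) [(nat_lit 439294), (nat_lit 1867898), (nat_lit 6166917)]) (PF.cons PF.nil (PF.cons PF.nil PF.nil)))))))))))) (PF.cons (PF.cons (PF.leaf (nat_lit 5804774) (nat_lit 1802818) (nat_lit 43000326) (nat_lit 14320772) [(nat_lit 0), (nat_lit 1802818), (nat_lit 6182078)]) (PF.cons (PF.leaf (nat_lit 6053046) (nat_lit 400806) (nat_lit 42632283) (nat_lit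 14264266) [(nat_lit 400806), (nat_lit 1815682), (nat_lit 6180090)]) (PF.cons (PF.leaf (nat_lit 6311534) (nat_lit 409552) (nat_lit 42253018) (nat_lit 14204620) [(nat_lit 409552), (nat_lit 1827670), (nat_lit 6176728)]) (PF.cons (PF.leaf (nat_lit 6578062) (nat_lit 417418) (nat_lit 41865018) (nat_lit 14142126) [(nat_lit 417418), (nat_lit 1838730), (nat_lit 6171950)]) (PF.cons (PF.leaf (nat_lit 6851366) (nat_lit 424528) (nat_lit 41470240) (nat_lit 14077029) [(nat_lit 424528), (nat_lit 1848846), (nat_lit 6165736)]) (PF.cons (PF.leaf (nat_lit 7130402) (nat_lit 430975) (nat_lit 41070275) (nat_lit 14009536) [(nat_lit 430975), (nat_lit 1858018),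
 (nat_lit 6158087)]) (PF.cons (PF.leaf (nat_lit 7414279) (nat_lit 436831) (nat_lit 40666449) (nat_lit 13939836) [(nat_lit 436831), (nat_lit 1866261), (nat_lit 6149016)]) (PF.cons (PF.leaf (nat_lit 7702207) (nat_lit 442154) (nat_lit 40259885) (nat_lit 13868100) [(nat_lit 442154), (nat_lit 1873597), (nat_lit 6138549)]) (PF.cons PF.nil (PF.cons PF.nil PF.nil)))))))))) (PF.cons (PF.cons (PF.leaf (nat_lit 6588371) (nat_lit 1838998) (nat_lit 41379868) (nat_lit 14056237) [(nat_lit 0), (nat_lit 1838998), (nat_lit 6155711)]) (PF.cons (PF.leaf (nat_lit 6849559) (nat_lit 420966) (nat_lit 41002316) (nat_lit 13992306) [(nat_lit 420966), (nat_lit 1848252), (nat_lit 6148466)]) (PF.cons (PF.leaf (nat_lit 7118329) (nat_lit 427722) (nat_lit 40617690) (nat_lit 13925777) [(nat_lit 427722), (nat_lit 1856676), (nat_lit 6139867)]) (PF.cons (PF.leaf (nat_lit 7392957) (nat_lit 433807) (nat_lit 40227771) (nat_lit 13856905) [(nat_lit 433807), (nat_lit 1864262), (nat_lit 6129924)]) (PF.cons (PF.leaf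 (nat_lit 7672525) (nat_lit 439302) (nat_lit 39833993) (nat_lit 13785905) [(nat_lit 439302), (nat_lit 1871015), (nat_lit 6118656)]) (PF.cons (PF.leaf (nat_lit 7956176) (nat_lit 444271) (nat_lit 39437541) (nat_lit
 13712968) [(nat_lit 444271), (nat_lit 1876949), (nat_lit 6106096)]) (PF.cons (PF.leaf (nat_lit 8243205) (nat_lit 448765) (nat_lit 39039412) (nat_lit 13638266) [(nat_lit 448765), (nat_lit 1882086), (nat_lit 6092278)]) (PF.cons PF.nil PF.nil)))))))) (PF.cons (PF.cons (PF.leaf (nat_lit 7381036) (nat_lit 1861933) (nat_lit 39780701) (nat_lit 13770867) [(nat_lit 0), (nat_lit 1861933), (nat_lit 6109509)]) (PF.cons (PF.leaf (nat_lit 7650271) (nat_lit 435832) (nat_lit 39401882) (nat_lit 13701094) [(nat_lit 435832), (nat_lit 1868105), (nat_lit 6097582)]) (PF.cons (PF.leaf (nat_lit 7925079) (nat_lit 441034) (nat_lit 39018984) (nat_lit 13629231) [(nat_lit 441034), (nat_lit 1873528), (nat_lit 6084413)]) (PF.cons (PF.leaf (nat_lit 8204110) (nat_lit 445707) (nat_lit 38633305)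 (nat_lit 13555496) [(nat_lit 445707), (nat_lit 1878211), (nat_lit 6070039)]) (PF.cons (PF.leaf (nat_lit 8486564) (nat_lit 449909) (nat_lit 38245907) (nat_lit 13480081) [(nat_lit 449909), (nat_lit 1882171), (nat_lit 6054499)]) (PF.cons PF.nil PF.nil)))))) (PF.cons (PF.cons (PF.leaf (nat_lit 8172935) (nat_lit 1874041) (nat_lit 38221532) (nat_lit 13470338) [(nat_lit 0), (nat_lit 1874041), (nat_lit 6046733)]) (PF.cons (PF.leaf
 (nat_lit 8446516) (nat_lit 446516) (nat_lit 37847245) (nat_lit 13396196) [(nat_lit 446516), (nat_lit 1877609), (nat_lit 6030807)]) (PF.cons (PF.leaf (nat_lit 8724133) (nat_lit 450475) (nat_lit 37471051) (nat_lit 13320423) [(nat_lit 450475), (nat_lit 1880518), (nat_lit 6013793)]) (PF.cons PF.nil PF.nil)))) (PF.cons (PF.cons (PF.leaf (nat_lit 8956829) (nat_lit 1877313) (nat_lit 36714687) (nat_lit 13159717) [(nat_lit 0), (nat_lit 1877313), (nat_lit 5970524)]) (PF.cons (PF.leaf (nat_lit 9231941) (nat_lit 453841) (nat_lit 36348948) (nat_lit 13082522)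 [(nat_lit 453841), (nat_lit 1878701), (nat_lit 5951293)]) PF.nil)) (PF.cons PF.nil (PF.cons PF.nil (PF.cons PF.nil PF.nil)))))))))) (PF.cons (PF.cons (PF.cons (PF.leaf (nat_lit 5953683) (nat_lit 6075650) (nat_lit 41017492) (nat_lit 13940019) [(nat_lit 0), (nat_lit 0), (nat_lit 6075650)]) (PF.cons (PF.leaf (nat_lit 6180531) (nat_lit 383134) (nat_lit 40697242) (nat_lit 13886017) [(nat_lit 383134), (nat_lit 0), (nat_lit 6071209)]) (PF.cons (PF.leaf (nat_lit 6419889) (nat_lit 393313) (nat_lit 40362603) (nat_lit 13828522) [(nat_lit 393313), (nat_lit 0), (nat_lit 6065529)]) (PF.cons (PF.leaf (nat_lit 6668852) (nat_lit 402263) (nat_lit 40016868)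
 (nat_lit 13767986) [(nat_lit 402263), (nat_lit 0), (nat_lit 6058583)]) (PF.cons (PF.leaf (nat_lit 6925789) (nat_lit 410206) (nat_lit 39662508) (nat_lit 13704757) [(nat_lit 410206), (nat_lit 0), (nat_lit 6050360)]) (PF.cons (PF.leaf (nat_lit 7189383) (nat_lit 417302) (nat_lit 39301459) (nat_lit 13639113) [(nat_lit 417302), (nat_lit 0), (nat_lit 6040863)]) (PF.cons (PF.leaf (nat_lit 7458625) (nat_lit 423669) (nat_lit 38935286) (nat_lit 13571290) [(nat_lit 423669), (nat_lit 0), (nat_lit 6030110)]) (PF.cons (PF.leaf (nat_lit 7732587) (nat_lit 429398) (nat_lit 38565283) (nat_lit 13501492) [(nat_lit 429398), (nat_lit 0), (nat_lit 6018124)]) (PF.cons (PF.leaf (nat_lit 8010490) (nat_lit 434561) (nat_lit 38192538) (nat_lit 13429902) [(nat_lit 434561), (nat_lit 0), (nat_lit 6004938)]) (PF.cons PF.nil (PF.cons PF.nil (PF.cons PF.nil PF.nil)))))))))))) (PF.cons (PF.cons (PF.leaf (nat_lit 6688236) (nat_lit 1804304) (nat_lit 39547123) (nat_lit 13678667) [(nat_lit 0), (nat_lit 1804304),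 (nat_lit 6039359)]) (PF.cons (PF.leaf (nat_lit 6931149) (nat_lit 405393) (nat_lit 39211868) (nat_lit 13617453) [(nat_lit 405393), (nat_lit 1813147), (nat_lit 6030475)]) (PF.cons (PF.leaf (nat_lit 7183170)
 (nat_lit 413031) (nat_lit 38867391) (nat_lit 13553461) [(nat_lit 413031), (nat_lit 1821186), (nat_lit 6020355)]) (PF.cons (PF.leaf (nat_lit 7442198) (nat_lit 419800) (nat_lit 38515928) (nat_lit 13487039) [(nat_lit 419800), (nat_lit 1828404), (nat_lit 6009019)]) (PF.cons (PF.leaf (nat_lit 7707006) (nat_lit 425834) (nat_lit 38159214) (nat_lit 13418464) [(nat_lit 425834), (nat_lit 1834804), (nat_lit 5996495)]) (PF.cons (PF.leaf (nat_lit 7976679) (nat_lit 431233) (nat_lit 37798644) (nat_lit 13347969) [(nat_lit 431233), (nat_lit 1840402), (nat_lit 5982813)]) (PF.cons (PF.leaf (nat_lit 8250354) (nat_lit 436075) (nat_lit 37435361) (nat_lit 13275753) [(nat_lit 436075), (nat_lit 1845221), (nat_lit 5968012)]) (PF.cons (PF.leaf (nat_lit 8527330) (nat_lit 440421) (nat_lit 37070321)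 (nat_lit 13201995) [(nat_lit 440421), (nat_lit 1849288), (nat_lit 5952130)]) (PF.cons PF.nil (PF.cons PF.nil PF.nil)))))))))) (PF.cons (PF.cons (PF.leaf (nat_lit 7437532) (nat_lit 1825271) (nat_lit 38085824) (nat_lit 13399296) [(nat_lit 0), (nat_lit 1825271), (nat_lit 5986574)]) (PF.cons (PF.leaf (nat_lit 7690772) (nat_lit 421478) (nat_lit 37745129) (nat_lit 13332559) [(nat_lit 421478), (nat_lit 1831144), (nat_lit
 5973678)]) (PF.cons (PF.leaf (nat_lit 7950709) (nat_lit 427264) (nat_lit 37398777) (nat_lit 13263639) [(nat_lit 427264), (nat_lit 1836291), (nat_lit 5959642)]) (PF.cons (PF.leaf (nat_lit 8215687) (nat_lit 432402) (nat_lit 37048337) (nat_lit 13192811) [(nat_lit 432402), (nat_lit 1840718), (nat_lit 5944510)]) (PF.cons (PF.leaf (nat_lit 8484838) (nat_lit 436980) (nat_lit 36695058) (nat_lit 13120302) [(nat_lit 436980), (nat_lit 1844441), (nat_lit 5928324)]) (PF.cons (PF.leaf (nat_lit 8757366) (nat_lit 441064) (nat_lit 36339958) (nat_lit 13046307) [(nat_lit 441064),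 (nat_lit 1847482), (nat_lit 5911129)]) (PF.cons PF.nil (PF.cons PF.nil PF.nil)))))))) (PF.cons (PF.cons (PF.leaf (nat_lit 8190742) (nat_lit 1835950) (nat_lit 36653930) (nat_lit 13107204) [(nat_lit 0), (nat_lit 1835950), (nat_lit 5919914)]) (PF.cons (PF.leaf (nat_lit 8450122) (nat_lit 432949) (nat_lit 36314317) (nat_lit 13036407) [(nat_lit 432949), (nat_lit 1839336), (nat_lit 5903564)]) (PF.cons (PF.leaf (nat_lit 8714417) (nat_lit 437321) (nat_lit 35971560) (nat_lit 12963928) [(nat_lit 437321), (nat_lit 1842085), (nat_lit 5886211)]) (PF.cons (PF.leaf (nat_lit 8982263) (nat_lit 441194) (nat_lit 35626784) (nat_lit 12889989)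
 [(nat_lit 441194), (nat_lit 1844213), (nat_lit 5867907)]) (PF.cons PF.nil (PF.cons PF.nil PF.nil)))))) (PF.cons (PF.cons (PF.leaf (nat_lit 8940060) (nat_lit 1838323) (nat_lit 35264630) (nat_lit 12806950) [(nat_lit 0), (nat_lit 1838323), (nat_lit 5841968)]) (PF.cons (PF.leaf (nat_lit 9202470) (nat_lit 440846) (nat_lit 34930558) (nat_lit 12733351) [(nat_lit 440846), (nat_lit 1839639), (nat_lit 5822748)]) (PF.cons (PF.leaf (nat_lit 9468432) (nat_lit 444109) (nat_lit 34595129) (nat_lit 12658490) [(nat_lit 444109), (nat_lit 1840405), (nat_lit 5802674)]) (PF.cons PF.nil PF.nil)))) (PF.cons (PF.cons (PF.leaf (nat_lit 9679841) (nat_lit 1833992) (nat_lit 33926201) (nat_lit 12502390) [(nat_lit 0), (nat_lit 1833992), (nat_lit 5755128)]) (PF.cons PF.nil PF.nil)) (PF.cons PF.nil (PF.cons PF.nil PF.nil)))))))) (PF.cons (PF.cons (PF.cons (PF.leaf (nat_lit 7494355) (nat_lit 5861044) (nat_lit 36492487) (nat_lit 13033191) [(nat_lit 0), (nat_lit 0), (nat_lit 5861044)]) (PF.cons (PF.leaf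 (nat_lit 7730586) (nat_lit 405098) (nat_lit 36189475) (nat_lit 12970607) [(nat_lit 405098), (nat_lit 0), (nat_lit 5847877)]) (PF.cons (PF.leaf (nat_lit 7975083) (nat_lit 411837) (nat_lit 35878752) (nat_lit 12905575)
 [(nat_lit 411837), (nat_lit 0), (nat_lit 5833603)]) (PF.cons (PF.leaf (nat_lit 8225754) (nat_lit 417730) (nat_lit 35562310) (nat_lit 12838462) [(nat_lit 417730), (nat_lit 0), (nat_lit 5818282)]) (PF.cons (PF.leaf (nat_lit 8481527) (nat_lit 422917) (nat_lit 35241680) (nat_lit 12769557) [(nat_lit 422917), (nat_lit 0), (nat_lit 5801968)]) (PF.cons (PF.leaf (nat_lit 8741435) (nat_lit 427500) (nat_lit 34918079) (nat_lit 12699096) [(nat_lit 427500), (nat_lit 0), (nat_lit 5784711)]) (PF.cons (PF.leaf (nat_lit 9004726) (nat_lit 431559) (nat_lit 34592495) (nat_lit 12627280) [(nat_lit 431559), (nat_lit 0), (nat_lit 5766559)]) (PF.cons PF.nil PF.nil)))))))) (PF.cons (PF.cons (PF.leaf (nat_lit 8209320) (nat_lit 1796315) (nat_lit 35182226) (nat_lit 12752413) [(nat_lit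 0), (nat_lit 1796315), (nat_lit 5792619)]) (PF.cons (PF.leaf (nat_lit 8454054) (nat_lit 418094) (nat_lit 34876163) (nat_lit 12685701) [(nat_lit 418094), (nat_lit 1799783), (nat_lit 5776356)]) (PF.cons (PF.leaf (nat_lit 8704782) (nat_lit 423113) (nat_lit 34565456) (nat_lit 12617139) [(nat_lit 423113), (nat_lit 1802613), (nat_lit 5759125)]) (PF.cons (PF.leaf (nat_lit 8959958) (nat_lit 427512) (nat_lit 34251483) (nat_lit 12547004)
 [(nat_lit 427512), (nat_lit 1804820), (nat_lit 5740988)]) (PF.cons (PF.leaf (nat_lit 9218704) (nat_lit 431381) (nat_lit 33935333) (nat_lit 12475522) [(nat_lit 431381), (nat_lit 1806428), (nat_lit 5722000)]) (PF.cons PF.nil PF.nil)))))) (PF.cons (PF.cons (PF.leaf (nat_lit 8925024) (nat_lit 1798589) (nat_lit 33903831) (nat_lit 12464381) [(nat_lit 0), (nat_lit 1798589), (nat_lit 5714473)]) (PF.cons (PF.leaf (nat_lit 9174582) (nat_lit 427038) (nat_lit 33599968) (nat_lit 12394850) [(nat_lit 427038), (nat_lit 1800026), (nat_lit 5695633)]) (PF.cons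 (PF.leaf (nat_lit 9428510) (nat_lit 430768) (nat_lit 33293587) (nat_lit 12323942) [(nat_lit 430768), (nat_lit 1800915), (nat_lit 5675971)]) (PF.cons PF.nil PF.nil)))) (PF.cons (PF.cons (PF.leaf (nat_lit 9635092) (nat_lit 1794408) (nat_lit 32666860) (nat_lit 12172720) [(nat_lit 0), (nat_lit 1794408), (nat_lit 5628668)]) (PF.cons (PF.leaf (nat_lit 9886783) (nat_lit 432894) (nat_lit 32368709) (nat_lit 12101432) [(nat_lit 432894), (nat_lit 1794176), (nat_lit 5607748)]) PF.nil)) (PF.cons PF.nil (PF.cons PF.nil PF.nil)))))) (PF.cons (PF.cons (PF.cons (PF.leaf (nat_lit 8914453) (nat_lit 5588489) (nat_lit 32622941) (nat_lit 12131913) [(nat_lit 0),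
 (nat_lit 0), (nat_lit 5588489)]) (PF.cons (PF.leaf (nat_lit 9150574) (nat_lit 412200) (nat_lit 32348290) (nat_lit 12066899) [(nat_lit 412200), (nat_lit 0), (nat_lit 5570355)]) (PF.cons (PF.leaf (nat_lit 9392183) (nat_lit 416605) (nat_lit 32069740) (nat_lit 12000300) [(nat_lit 416605), (nat_lit 0), (nat_lit 5551390)]) (PF.cons (PF.leaf (nat_lit 9637759) (nat_lit 420420) (nat_lit 31788503) (nat_lit 11932385) [(nat_lit 420420), (nat_lit 0), (nat_lit 5531665)]) (PF.cons PF.nil (PF.cons PF.nil PF.nil)))))) (PF.cons (PF.cons (PF.leaf (nat_lit 9595208) (nat_lit 1754707) (nat_lit 31481599) (nat_lit 11854047) [(nat_lit 0), (nat_lit 1754707), (nat_lit 5504614)]) (PF.cons (PF.leaf (nat_lit 9835245) (nat_lit 419242) (nat_lit 31209586) (nat_lit 11787070) [(nat_lit 419242), (nat_lit 1754778), (nat_lit 5484533)]) (PF.cons (PF.leaf (nat_lit 10079256) (nat_lit 422467) (nat_lit 30935487) (nat_lit 11718946) [(nat_lit 422467), (nat_lit 1754372), (nat_lit 5463767)]) (PF.cons PF.nil PF.nil))))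 (PF.cons (PF.cons (PF.leaf (nat_lit 10269455) (nat_lit 1746144) (nat_lit 30378780) (nat_lit 11575429) [(nat_lit 0), (nat_lit 1746144), (nat_lit 5415578)]) (PF.cons PF.nil PF.nil)) (PF.cons PF.nil PF.nil))))
 (PF.cons (PF.cons (PF.cons (PF.leaf (nat_lit 10210817) (nat_lit 5297125) (nat_lit 29341894) (nat_lit 11281290) [(nat_lit 0), (nat_lit 0), (nat_lit 5297125)]) (PF.cons (PF.leaf (nat_lit 10441759) (nat_lit 410324) (nat_lit 29097920) (nat_lit 11217532) [(nat_lit 410324), (nat_lit 0), (nat_lit 5276607)]) PF.nil)) (PF.cons PF.nil PF.nil)) (PF.cons PF.nil (PF.cons PF.nil (PF.cons PF.nil (PF.cons PF.nil PF.nil))))))))))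

def p15_33_2_0 : pfC (piC [(nat_lit 40745421), (nat_lit 25257288), (nat_lit 16296408)] (nat_lit 6991654)) p15_33_2 (nat_lit 3) (nat_lit 0) (nat_lit 1) = true := by decide +kernel
def p15_33_2_1 : pfC (piC [(nat_lit 40745421), (nat_lit 25257288), (nat_lit 16296408)] (nat_lit 6991654)) p15_33_2 (nat_lit 3) (nat_lit 1) (nat_lit 2) = true := by decide +kernel
def p15_33_2_2 : pfC (piC [(nat_lit 40745421), (nat_lit 25257288), (nat_lit 16296408)] (nat_lit 6991654)) p15_33_2 (nat_lit 3) (nat_lit 2) (nat_lit 3) = true := by decide +kernel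
def p15_33_2_3 : pfC (piC [(nat_lit 40745421), (nat_lit 25257288), (nat_lit 16296408)] (nat_lit 6991654)) p15_33_2 (nat_lit 3) (nat_lit 3) (nat_lit 4) = true := by decide +kernel
def p15_33_2_4 : pfC (piC [(nat_lit 40745421), (nat_lit 25257288), (nat_lit 16296408)] (nat_lit 6991654)) p15_33_2 (nat_lit 3) (nat_lit 4) (nat_lit 5) = true := by decide +kernel
def p15_33_2_5 : pfC (piC [(nat_lit 40745421), (nat_lit 25257288), (nat_lit 16296408)] (nat_lit 6991654)) p15_33_2 (nat_lit 3) (nat_lit 5) (nat_lit 6) = true := by decide +kernel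
def p15_33_2_6 : pfC (piC [(nat_lit 40745421), (nat_lit 25257288), (nat_lit 16296408)] (nat_lit 6991654)) p15_33_2 (nat_lit 3) (nat_lit 6) (nat_lit 7) = true := by decide +kernel
def p15_33_2_7 : pfC (piC [(nat_lit 40745421), (nat_lit 25257288), (nat_lit 16296408)] (nat_lit 6991654)) p15_33_2 (nat_lit 3) (nat_lit 7) (nat_lit 8) = true := by decide +kernel
def p15_33_2_8 : pfC (piC [(nat_lit 40745421), (nat_lit 25257288), (nat_lit 16296408)] (nat_lit 6991654)) p15_33_2 (nat_lit 3) (nat_lit 8) (nat_lit 9) = true := by decide +kernel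
def p15_33_2_9 : pfC (piC [(nat_lit 40745421), (nat_lit 25257288), (nat_lit 16296408)] (nat_lit 6991654)) p15_33_2 (nat_lit 3) (nat_lit 9) (nat_lit 10) = true := by decide +kernel
def p15_33_2_10 : pfC (piC [(nat_lit 40745421), (nat_lit 25257288), (nat_lit 16296408)] (nat_lit 6991654)) p15_33_2 (nat_lit 3) (nat_lit 10) (nat_lit 11) = true := by decide +kernel
def p15_33_2_11 : pfC (piC [(nat_lit 40745421), (nat_lit 25257288), (nat_lit 16296408)] (nat_lit 6991654)) p15_33_2 (nat_lit 3) (nat_lit 11) (nat_lit 12) = true := by decide +kernel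
def p15_33_2_12 : pfC (piC [(nat_lit 40745421), (nat_lit 25257288), (nat_lit 16296408)] (nat_lit 6991654)) p15_33_2 (nat_lit 3) (nat_lit 12) (nat_lit 13) = true := by decide +kernel
def p15_33_2_13 : pfC (piC [(nat_lit 40745421), (nat_lit 25257288), (nat_lit 16296408)] (nat_lit 6991654)) p15_33_2 (nat_lit 3) (nat_lit 13) (nat_lit 14) = true := by decide +kernel
def p15_33_2_14 : pfC (piC [(nat_lit 40745421), (nat_lit 25257288), (nat_lit 16296408)] (nat_lit 6991654)) p15_33_2 (nat_lit 3) (nat_lit 14) (nat_lit 15) = true := by decide +kernel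
def p15_33_2_15 : pfC (piC [(nat_lit 40745421), (nat_lit 25257288), (nat_lit 16296408)] (nat_lit 6991654)) p15_33_2 (nat_lit 3) (nat_lit 15) (nat_lit 16) = true := by decide +kernel
def p15_33_2_16 : pfC (piC [(nat_lit 40745421), (nat_lit 25257288), (nat_lit 16296408)] (nat_lit 6991654)) p15_33_2 (nat_lit 3) (nat_lit 16) (nat_lit 17) = true := by decide +kernel
def p15_33_2_17 : pfC (piC [(nat_lit 40745421), (nat_lit 25257288), (nat_lit 16296408)] (nat_lit 6991654)) p15_33_2 (nat_lit 3) (nat_lit 17) (nat_lit 18) = true := by decide +kernel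
def p15_33_2_18 : pfC (piC [(nat_lit 40745421), (nat_lit 25257288), (nat_lit 16296408)] (nat_lit 6991654)) p15_33_2 (nat_lit 3) (nat_lit 18) (nat_lit 19) = true := by decide +kernel
def p15_33_2_19 : pfC (piC [(nat_lit 40745421), (nat_lit 25257288), (nat_lit 16296408)] (nat_lit 6991654)) p15_33_2 (nat_lit 3) (nat_lit 19) (nat_lit 20) = true := by decide +kernel
def p15_33_2_20 : pfC (piC [(nat_lit 40745421), (nat_lit 25257288), (nat_lit 16296408)] (nat_lit 6991654)) p15_33_2 (nat_lit 3) (nat_lit 20) (nat_lit 21) = true := by decide +kernel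
def p15_33_2_21 : pfC (piC [(nat_lit 40745421), (nat_lit 25257288), (nat_lit 16296408)] (nat_lit 6991654)) p15_33_2 (nat_lit 3) (nat_lit 21) (nat_lit 22) = true := by decide +kernel
def p15_33_2_22 : pfC (piC [(nat_lit 40745421), (nat_lit 25257288), (nat_lit 16296408)] (nat_lit 6991654)) p15_33_2 (nat_lit 3) (nat_lit 22) (nat_lit 23) = true := by decide +kernel
def p15_33_2_23 : pfC (piC [(nat_lit 40745421), (nat_lit 25257288), (nat_lit 16296408)] (nat_lit 6991654)) p15_33_2 (nat_lit 3) (nat_lit 23) (nat_lit 24) = true := by decide +kernel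
def p15_33_2_24 : pfC (piC [(nat_lit 40745421), (nat_lit 25257288), (nat_lit 16296408)] (nat_lit 6991654)) p15_33_2 (nat_lit 3) (nat_lit 24) (nat_lit 25) = true := by decide +kernel
def p15_33_2_25 : pfC (piC [(nat_lit 40745421), (nat_lit 25257288), (nat_lit 16296408)] (nat_lit 6991654)) p15_33_2 (nat_lit 3) (nat_lit 25) (nat_lit 26) = true := by decide +kernel
def p15_33_2_26 : pfC (piC [(nat_lit 40745421), (nat_lit 25257288), (nat_lit 16296408)] (nat_lit 6991654)) p15_33_2 (nat_lit 3) (nat_lit 26) (nat_lit 27) = true := by decide +kernel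
def p15_33_2_27 : pfC (piC [(nat_lit 40745421), (nat_lit 25257288), (nat_lit 16296408)] (nat_lit 6991654)) p15_33_2 (nat_lit 3) (nat_lit 27) (nat_lit 28) = true := by decide +kernel
def p15_33_2_28 : pfC (piC [(nat_lit 40745421), (nat_lit 25257288), (nat_lit 16296408)] (nat_lit 6991654)) p15_33_2 (nat_lit 3) (nat_lit 28) (nat_lit 29) = true := by decide +kernel
def p15_33_2_29 : pfC (piC [(nat_lit 40745421), (nat_lit 25257288), (nat_lit 16296408)] (nat_lit 6991654)) p15_33_2 (nat_lit 3) (nat_lit 29) (nat_lit 30) = true := by decide +kernel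
def p15_33_2_30 : pfC (piC [(nat_lit 40745421), (nat_lit 25257288), (nat_lit 16296408)] (nat_lit 6991654)) p15_33_2 (nat_lit 3) (nat_lit 30) (nat_lit 31) = true := by decide +kernel
def p15_33_2_31 : pfC (piC [(nat_lit 40745421), (nat_lit 25257288), (nat_lit 16296408)] (nat_lit 6991654)) p15_33_2 (nat_lit 3) (nat_lit 31) (nat_lit 32) = true := by decide +kernel
def p15_33_2_32 : pfC (piC [(nat_lit 40745421), (nat_lit 25257288), (nat_lit 16296408)] (nat_lit 6991654)) p15_33_2 (nat_lit 3) (nat_lit 32) (nat_lit 33) = true := by decide +kernel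
def p15_33_2_33 : pfC (piC [(nat_lit 40745421), (nat_lit 25257288), (nat_lit 16296408)] (nat_lit 6991654)) p15_33_2 (nat_lit 3) (nat_lit 33) (nat_lit 34) = true := by decide +kernel
def p15_33_2_34 : pfC (piC [(nat_lit 40745421), (nat_lit 25257288), (nat_lit 16296408)] (nat_lit 6991654)) p15_33_2 (nat_lit 3) (nat_lit 34) (nat_lit 35) = true := by decide +kernel
def p15_33_2_35 : pfC (piC [(nat_lit 40745421), (nat_lit 25257288), (nat_lit 16296408)] (nat_lit 6991654)) p15_33_2 (nat_lit 3) (nat_lit 35) (nat_lit 36) = true := by decide +kernel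
def p15_33_2_36 : pfC (piC [(nat_lit 40745421), (nat_lit 25257288), (nat_lit 16296408)] (nat_lit 6991654)) p15_33_2 (nat_lit 3) (nat_lit 36) (nat_lit 37) = true := by decide +kernel
def p15_33_2_37 : pfC (piC [(nat_lit 40745421), (nat_lit 25257288), (nat_lit 16296408)] (nat_lit 6991654)) p15_33_2 (nat_lit 3) (nat_lit 37) (nat_lit 38) = true := by decide +kernel
def p15_33_2_38 : pfC (piC [(nat_lit 40745421), (nat_lit 25257288), (nat_lit 16296408)] (nat_lit 6991654)) p15_33_2 (nat_lit 3) (nat_lit 38) (nat_lit 39) = true := by decide +kernel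
def p15_33_2_39 : pfC (piC [(nat_lit 40745421), (nat_lit 25257288), (nat_lit 16296408)] (nat_lit 6991654)) p15_33_2 (nat_lit 3) (nat_lit 39) (nat_lit 40) = true := by decide +kernel
def p15_33_2_40 : pfC (piC [(nat_lit 40745421), (nat_lit 25257288), (nat_lit 16296408)] (nat_lit 6991654)) p15_33_2 (nat_lit 3) (nat_lit 40) (nat_lit 41) = true := by decide +kernel
def p15_33_2_41 : pfC (piC [(nat_lit 40745421), (nat_lit 25257288), (nat_lit 16296408)] (nat_lit 6991654)) p15_33_2 (nat_lit 3) (nat_lit 41) (nat_lit 42) = true := by decide +kernel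
def p15_33_2_42 : pfC (piC [(nat_lit 40745421), (nat_lit 25257288), (nat_lit 16296408)] (nat_lit 6991654)) p15_33_2 (nat_lit 3) (nat_lit 42) (nat_lit 43) = true := by decide +kernel
def p15_33_2_43 : pfC (piC [(nat_lit 40745421), (nat_lit 25257288), (nat_lit 16296408)] (nat_lit 6991654)) p15_33_2 (nat_lit 3) (nat_lit 43) (nat_lit 44) = true := by decide +kernel
def p15_33_2_44 : pfC (piC [(nat_lit 40745421), (nat_lit 25257288), (nat_lit 16296408)] (nat_lit 6991654)) p15_33_2 (nat_lit 3) (nat_lit 44) (nat_lit 45) = true := by decide +kernel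
def p15_33_2_45 : pfC (piC [(nat_lit 40745421), (nat_lit 25257288), (nat_lit 16296408)] (nat_lit 6991654)) p15_33_2 (nat_lit 3) (nat_lit 45) (nat_lit 46) = true := by decide +kernel
def p15_33_2_46 : pfC (piC [(nat_lit 40745421), (nat_lit 25257288), (nat_lit 16296408)] (nat_lit 6991654)) p15_33_2 (nat_lit 3) (nat_lit 46) (nat_lit 47) = true := by decide +kernel
def p15_33_2_47 : pfC (piC [(nat_lit 40745421), (nat_lit 25257288), (nat_lit 16296408)] (nat_lit 6991654)) p15_33_2 (nat_lit 3) (nat_lit 47) (nat_lit 48) = true := by decide +kernel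
def p15_33_2_48 : pfC (piC [(nat_lit 40745421), (nat_lit 25257288), (nat_lit 16296408)] (nat_lit 6991654)) p15_33_2 (nat_lit 3) (nat_lit 48) (nat_lit 49) = true := by decide +kernel
def p15_33_2_49 : pfC (piC [(nat_lit 40745421), (nat_lit 25257288), (nat_lit 16296408)] (nat_lit 6991654)) p15_33_2 (nat_lit 3) (nat_lit 49) (nat_lit 50) = true := by decide +kernel
def p15_33_2_50 : pfC (piC [(nat_lit 40745421), (nat_lit 25257288), (nat_lit 16296408)] (nat_lit 6991654)) p15_33_2 (nat_lit 3) (nat_lit 50) (nat_lit 51) = true := by decide +kernel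
def p15_33_2_51 : pfC (piC [(nat_lit 40745421), (nat_lit 25257288), (nat_lit 16296408)] (nat_lit 6991654)) p15_33_2 (nat_lit 3) (nat_lit 51) (nat_lit 52) = true := by decide +kernel
def p15_33_2_52 : pfC (piC [(nat_lit 40745421), (nat_lit 25257288), (nat_lit 16296408)] (nat_lit 6991654)) p15_33_2 (nat_lit 3) (nat_lit 52) (nat_lit 53) = true := by decide +kernel
def p15_33_2_53 : pfC (piC [(nat_lit 40745421), (nat_lit 25257288), (nat_lit 16296408)] (nat_lit 6991654)) p15_33_2 (nat_lit 3) (nat_lit 53) (nat_lit 54) = true := by decide +kernel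
def p15_33_2_54 : pfC (piC [(nat_lit 40745421), (nat_lit 25257288), (nat_lit 16296408)] (nat_lit 6991654)) p15_33_2 (nat_lit 3) (nat_lit 54) (nat_lit 55) = true := by decide +kernel
def p15_33_2_55 : pfC (piC [(nat_lit 40745421), (nat_lit 25257288), (nat_lit 16296408)] (nat_lit 6991654)) p15_33_2 (nat_lit 3) (nat_lit 55) (nat_lit 56) = true := by decide +kernel
def p15_33_2_56 : pfC (piC [(nat_lit 40745421), (nat_lit 25257288), (nat_lit 16296408)] (nat_lit 6991654)) p15_33_2 (nat_lit 3) (nat_lit 56) (nat_lit 57) = true := by decide +kernel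
def p15_33_2_57 : pfC (piC [(nat_lit 40745421), (nat_lit 25257288), (nat_lit 16296408)] (nat_lit 6991654)) p15_33_2 (nat_lit 3) (nat_lit 57) (nat_lit 58) = true := by decide +kernel
def p15_33_2_58 : pfC (piC [(nat_lit 40745421), (nat_lit 25257288), (nat_lit 16296408)] (nat_lit 6991654)) p15_33_2 (nat_lit 3) (nat_lit 58) (nat_lit 59) = true := by decide +kernel
def p15_33_2_59 : pfC (piC [(nat_lit 40745421), (nat_lit 25257288), (nat_lit 16296408)] (nat_lit 6991654)) p15_33_2 (nat_lit 3) (nat_lit 59) (nat_lit 60) = true := by decide +kernel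
def p15_33_2_60 : pfC (piC [(nat_lit 40745421), (nat_lit 25257288), (nat_lit 16296408)] (nat_lit 6991654)) p15_33_2 (nat_lit 3) (nat_lit 60) (nat_lit 61) = true := by decide +kernel
def p15_33_2_61 : pfC (piC [(nat_lit 40745421), (nat_lit 25257288), (nat_lit 16296408)] (nat_lit 6991654)) p15_33_2 (nat_lit 3) (nat_lit 61) (nat_lit 62) = true := by decide +kernel
def p15_33_2_62 : pfC (piC [(nat_lit 40745421), (nat_lit 25257288), (nat_lit 16296408)] (nat_lit 6991654)) p15_33_2 (nat_lit 3) (nat_lit 62) (nat_lit 63) = true := by decide +kernel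
def p15_33_2_63 : pfC (piC [(nat_lit 40745421), (nat_lit 25257288), (nat_lit 16296408)] (nat_lit 6991654)) p15_33_2 (nat_lit 3) (nat_lit 63) (nat_lit 64) = true := by decide +kernel
def p15_33_2_64 : pfC (piC [(nat_lit 40745421), (nat_lit 25257288), (nat_lit 16296408)] (nat_lit 6991654)) p15_33_2 (nat_lit 3) (nat_lit 64) (nat_lit 65) = true := by decide +kernel
def p15_33_2_65 : pfC (piC [(nat_lit 40745421), (nat_lit 25257288), (nat_lit 16296408)] (nat_lit 6991654)) p15_33_2 (nat_lit 3) (nat_lit 65) (nat_lit 66) = true := by decide +kernel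
def p15_33_2_66 : pfC (piC [(nat_lit 40745421), (nat_lit 25257288), (nat_lit 16296408)] (nat_lit 6991654)) p15_33_2 (nat_lit 3) (nat_lit 66) (nat_lit 67) = true := by decide +kernel
def p15_33_2_67 : pfC (piC [(nat_lit 40745421), (nat_lit 25257288), (nat_lit 16296408)] (nat_lit 6991654)) p15_33_2 (nat_lit 3) (nat_lit 67) (nat_lit 68) = true := by decide +kernel
def p15_33_2_68 : pfC (piC [(nat_lit 40745421), (nat_lit 25257288), (nat_lit 16296408)] (nat_lit 6991654)) p15_33_2 (nat_lit 3) (nat_lit 68) (nat_lit 69) = true := by decide +kernel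
def p15_33_2_69 : pfC (piC [(nat_lit 40745421), (nat_lit 25257288), (nat_lit 16296408)] (nat_lit 6991654)) p15_33_2 (nat_lit 3) (nat_lit 69) (nat_lit 70) = true := by decide +kernel
def p15_33_2_70 : pfC (piC [(nat_lit 40745421), (nat_lit 25257288), (nat_lit 16296408)] (nat_lit 6991654)) p15_33_2 (nat_lit 3) (nat_lit 70) (nat_lit 71) = true := by decide +kernel
def p15_33_2_71 : pfC (piC [(nat_lit 40745421), (nat_lit 25257288), (nat_lit 16296408)] (nat_lit 6991654)) p15_33_2 (nat_lit 3) (nat_lit 71) (nat_lit 72) = true := by decide +kernel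
def p15_33_2_72 : pfC (piC [(nat_lit 40745421), (nat_lit 25257288), (nat_lit 16296408)] (nat_lit 6991654)) p15_33_2 (nat_lit 3) (nat_lit 72) (nat_lit 73) = true := by decide +kernel
def p15_33_2_73 : pfC (piC [(nat_lit 40745421), (nat_lit 25257288), (nat_lit 16296408)] (nat_lit 6991654)) p15_33_2 (nat_lit 3) (nat_lit 73) (nat_lit 74) = true := by decide +kernel
def p15_33_2_74 : pfC (piC [(nat_lit 40745421), (nat_lit 25257288), (nat_lit 16296408)] (nat_lit 6991654)) p15_33_2 (nat_lit 3) (nat_lit 74) (nat_lit 75) = true := by decide +kernel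
def p15_33_2_75 : pfC (piC [(nat_lit 40745421), (nat_lit 25257288), (nat_lit 16296408)] (nat_lit 6991654)) p15_33_2 (nat_lit 3) (nat_lit 75) (nat_lit 76) = true := by decide +kernel
def p15_33_2_76 : pfC (piC [(nat_lit 40745421), (nat_lit 25257288), (nat_lit 16296408)] (nat_lit 6991654)) p15_33_2 (nat_lit 3) (nat_lit 76) (nat_lit 77) = true := by decide +kernel
def p15_33_2_77 : pfC (piC [(nat_lit 40745421), (nat_lit 25257288), (nat_lit 16296408)] (nat_lit 6991654)) p15_33_2 (nat_lit 3) (nat_lit 77) (nat_lit 78) = true := by decide +kernel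
def p15_33_2_78 : pfC (piC [(nat_lit 40745421), (nat_lit 25257288), (nat_lit 16296408)] (nat_lit 6991654)) p15_33_2 (nat_lit 3) (nat_lit 78) (nat_lit 79) = true := by decide +kernel
def p15_33_2_79 : pfC (piC [(nat_lit 40745421), (nat_lit 25257288), (nat_lit 16296408)] (nat_lit 6991654)) p15_33_2 (nat_lit 3) (nat_lit 79) (nat_lit 80) = true := by decide +kernel
def p15_33_2_80 : pfC (piC [(nat_lit 40745421), (nat_lit 25257288), (nat_lit 16296408)] (nat_lit 6991654)) p15_33_2 (nat_lit 3) (nat_lit 80) (nat_lit 81) = true := by decide +kernel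
def p15_33_2_81 : pfC (piC [(nat_lit 40745421), (nat_lit 25257288), (nat_lit 16296408)] (nat_lit 6991654)) p15_33_2 (nat_lit 3) (nat_lit 81) (nat_lit 82) = true := by decide +kernel
def p15_33_2_82 : pfC (piC [(nat_lit 40745421), (nat_lit 25257288), (nat_lit 16296408)] (nat_lit 6991654)) p15_33_2 (nat_lit 3) (nat_lit 82) (nat_lit 83) = true := by decide +kernel
def p15_33_2_83 : pfC (piC [(nat_lit 40745421), (nat_lit 25257288), (nat_lit 16296408)] (nat_lit 6991654)) p15_33_2 (nat_lit 3) (nat_lit 83) (nat_lit 84) = true := by decide +kernel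
def p15_33_2_84 : pfC (piC [(nat_lit 40745421), (nat_lit 25257288), (nat_lit 16296408)] (nat_lit 6991654)) p15_33_2 (nat_lit 3) (nat_lit 84) (nat_lit 85) = true := by decide +kernel
def p15_33_2_85 : pfC (piC [(nat_lit 40745421), (nat_lit 25257288), (nat_lit 16296408)] (nat_lit 6991654)) p15_33_2 (nat_lit 3) (nat_lit 85) (nat_lit 86) = true := by decide +kernel
def p15_33_2_86 : pfC (piC [(nat_lit 40745421), (nat_lit 25257288), (nat_lit 16296408)] (nat_lit 6991654)) p15_33_2 (nat_lit 3) (nat_lit 86) (nat_lit 87) = true := by decide +kernel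
def p15_33_2_87 : pfC (piC [(nat_lit 40745421), (nat_lit 25257288), (nat_lit 16296408)] (nat_lit 6991654)) p15_33_2 (nat_lit 3) (nat_lit 87) (nat_lit 88) = true := by decide +kernel
def p15_33_2_88 : pfC (piC [(nat_lit 40745421), (nat_lit 25257288), (nat_lit 16296408)] (nat_lit 6991654)) p15_33_2 (nat_lit 3) (nat_lit 88) (nat_lit 89) = true := by decide +kernel
def p15_33_2_89 : pfC (piC [(nat_lit 40745421), (nat_lit 25257288), (nat_lit 16296408)] (nat_lit 6991654)) p15_33_2 (nat_lit 3) (nat_lit 89) (nat_lit 90) = true := by decide +kernel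
def p15_33_2_90 : pfC (piC [(nat_lit 40745421), (nat_lit 25257288), (nat_lit 16296408)] (nat_lit 6991654)) p15_33_2 (nat_lit 3) (nat_lit 90) (nat_lit 91) = true := by decide +kernel
def p15_33_2_91 : pfC (piC [(nat_lit 40745421), (nat_lit 25257288), (nat_lit 16296408)] (nat_lit 6991654)) p15_33_2 (nat_lit 3) (nat_lit 91) (nat_lit 92) = true := by decide +kernel
def p15_33_2_92 : pfC (piC [(nat_lit 40745421), (nat_lit 25257288), (nat_lit 16296408)] (nat_lit 6991654)) p15_33_2 (nat_lit 3) (nat_lit 92) (nat_lit 93) = true := by decide +kernel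
def p15_33_2_93 : pfC (piC [(nat_lit 40745421), (nat_lit 25257288), (nat_lit 16296408)] (nat_lit 6991654)) p15_33_2 (nat_lit 3) (nat_lit 93) (nat_lit 94) = true := by decide +kernel
def p15_33_2_94 : pfC (piC [(nat_lit 40745421), (nat_lit 25257288), (nat_lit 16296408)] (nat_lit 6991654)) p15_33_2 (nat_lit 3) (nat_lit 94) (nat_lit 95) = true := by decide +kernel
def p15_33_2_95 : pfC (piC [(nat_lit 40745421), (nat_lit 25257288), (nat_lit 16296408)] (nat_lit 6991654)) p15_33_2 (nat_lit 3) (nat_lit 95) (nat_lit 96) = true := by decide +kernel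
def p15_33_2_96 : pfC (piC [(nat_lit 40745421), (nat_lit 25257288), (nat_lit 16296408)] (nat_lit 6991654)) p15_33_2 (nat_lit 3) (nat_lit 96) (nat_lit 97) = true := by decide +kernel
def p15_33_2_97 : pfC (piC [(nat_lit 40745421), (nat_lit 25257288), (nat_lit 16296408)] (nat_lit 6991654)) p15_33_2 (nat_lit 3) (nat_lit 97) (nat_lit 98) = true := by decide +kernel
def p15_33_2_98 : pfC (piC [(nat_lit 40745421), (nat_lit 25257288), (nat_lit 16296408)] (nat_lit 6991654)) p15_33_2 (nat_lit 3) (nat_lit 98) (nat_lit 99) = true := by decide +kernel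
def p15_33_2_99 : pfC (piC [(nat_lit 40745421), (nat_lit 25257288), (nat_lit 16296408)] (nat_lit 6991654)) p15_33_2 (nat_lit 3) (nat_lit 99) (nat_lit 100) = true := by decide +kernel
def p15_33_2_100 : pfC (piC [(nat_lit 40745421), (nat_lit 25257288), (nat_lit 16296408)] (nat_lit 6991654)) p15_33_2 (nat_lit 3) (nat_lit 100) (nat_lit 101) = true := by decide +kernel
def p15_33_2_101 : pfC (piC [(nat_lit 40745421), (nat_lit 25257288), (nat_lit 16296408)] (nat_lit 6991654)) p15_33_2 (nat_lit 3) (nat_lit 101) (nat_lit 102) = true := by decide +kernel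
def p15_33_2_102 : pfC (piC [(nat_lit 40745421), (nat_lit 25257288), (nat_lit 16296408)] (nat_lit 6991654)) p15_33_2 (nat_lit 3) (nat_lit 102) (nat_lit 103) = true := by decide +kernel
def p15_33_2_103 : pfC (piC [(nat_lit 40745421), (nat_lit 25257288), (nat_lit 16296408)] (nat_lit 6991654)) p15_33_2 (nat_lit 3) (nat_lit 103) (nat_lit 104) = true := by decide +kernel
def p15_33_2_104 : pfC (piC [(nat_lit 40745421), (nat_lit 25257288), (nat_lit 16296408)] (nat_lit 6991654)) p15_33_2 (nat_lit 3) (nat_lit 104) (nat_lit 105) = true := by decide +kernel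
def p15_33_2_105 : pfC (piC [(nat_lit 40745421), (nat_lit 25257288), (nat_lit 16296408)] (nat_lit 6991654)) p15_33_2 (nat_lit 3) (nat_lit 105) (nat_lit 106) = true := by decide +kernel
def p15_33_2_106 : pfC (piC [(nat_lit 40745421), (nat_lit 25257288), (nat_lit 16296408)] (nat_lit 6991654)) p15_33_2 (nat_lit 3) (nat_lit 106) (nat_lit 107) = true := by decide +kernel
def p15_33_2_107 : pfC (piC [(nat_lit 40745421), (nat_lit 25257288), (nat_lit 16296408)] (nat_lit 6991654)) p15_33_2 (nat_lit 3) (nat_lit 107) (nat_lit 108) = true := by decide +kernel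
def p15_33_2_108 : pfC (piC [(nat_lit 40745421), (nat_lit 25257288), (nat_lit 16296408)] (nat_lit 6991654)) p15_33_2 (nat_lit 3) (nat_lit 108) (nat_lit 109) = true := by decide +kernel
def p15_33_2_109 : pfC (piC [(nat_lit 40745421), (nat_lit 25257288), (nat_lit 16296408)] (nat_lit 6991654)) p15_33_2 (nat_lit 3) (nat_lit 109) (nat_lit 110) = true := by decide +kernel
def p15_33_2_110 : pfC (piC [(nat_lit 40745421), (nat_lit 25257288), (nat_lit 16296408)] (nat_lit 6991654)) p15_33_2 (nat_lit 3) (nat_lit 110) (nat_lit 111) = true := by decide +kernel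
def p15_33_2_111 : pfC (piC [(nat_lit 40745421), (nat_lit 25257288), (nat_lit 16296408)] (nat_lit 6991654)) p15_33_2 (nat_lit 3) (nat_lit 111) (nat_lit 112) = true := by decide +kernel
def p15_33_2_112 : pfC (piC [(nat_lit 40745421), (nat_lit 25257288), (nat_lit 16296408)] (nat_lit 6991654)) p15_33_2 (nat_lit 3) (nat_lit 112) (nat_lit 113) = true := by decide +kernel
def p15_33_2_113 : pfC (piC [(nat_lit 40745421), (nat_lit 25257288), (nat_lit 16296408)] (nat_lit 6991654)) p15_33_2 (nat_lit 3) (nat_lit 113) (nat_lit 114) = true := by decide +kernel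
def p15_33_2_114 : pfC (piC [(nat_lit 40745421), (nat_lit 25257288), (nat_lit 16296408)] (nat_lit 6991654)) p15_33_2 (nat_lit 3) (nat_lit 114) (nat_lit 115) = true := by decide +kernel
def p15_33_2_115 : pfC (piC [(nat_lit 40745421), (nat_lit 25257288), (nat_lit 16296408)] (nat_lit 6991654)) p15_33_2 (nat_lit 3) (nat_lit 115) (nat_lit 116) = true := by decide +kernel
def p15_33_2_116 : pfC (piC [(nat_lit 40745421), (nat_lit 25257288), (nat_lit 16296408)] (nat_lit 6991654)) p15_33_2 (nat_lit 3) (nat_lit 116) (nat_lit 117) = true := by decide +kernel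
def p15_33_2_117 : pfC (piC [(nat_lit 40745421), (nat_lit 25257288), (nat_lit 16296408)] (nat_lit 6991654)) p15_33_2 (nat_lit 3) (nat_lit 117) (nat_lit 118) = true := by decide +kernel
def p15_33_2_118 : pfC (piC [(nat_lit 40745421), (nat_lit 25257288), (nat_lit 16296408)] (nat_lit 6991654)) p15_33_2 (nat_lit 3) (nat_lit 118) (nat_lit 119) = true := by decide +kernel
def p15_33_2_119 : pfC (piC [(nat_lit 40745421), (nat_lit 25257288), (nat_lit 16296408)] (nat_lit 6991654)) p15_33_2 (nat_lit 3) (nat_lit 119) (nat_lit 120) = true := by decide +kernel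
def p15_33_2_120 : pfC (piC [(nat_lit 40745421), (nat_lit 25257288), (nat_lit 16296408)] (nat_lit 6991654)) p15_33_2 (nat_lit 3) (nat_lit 120) (nat_lit 121) = true := by decide +kernel
def p15_33_2_121 : pfC (piC [(nat_lit 40745421), (nat_lit 25257288), (nat_lit 16296408)] (nat_lit 6991654)) p15_33_2 (nat_lit 3) (nat_lit 121) (nat_lit 122) = true := by decide +kernel
def p15_33_2_122 : pfC (piC [(nat_lit 40745421), (nat_lit 25257288), (nat_lit 16296408)] (nat_lit 6991654)) p15_33_2 (nat_lit 3) (nat_lit 122) (nat_lit 123) = true := by decide +kernel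
def p15_33_2_123 : pfC (piC [(nat_lit 40745421), (nat_lit 25257288), (nat_lit 16296408)] (nat_lit 6991654)) p15_33_2 (nat_lit 3) (nat_lit 123) (nat_lit 124) = true := by decide +kernel
def p15_33_2_124 : pfC (piC [(nat_lit 40745421), (nat_lit 25257288), (nat_lit 16296408)] (nat_lit 6991654)) p15_33_2 (nat_lit 3) (nat_lit 124) (nat_lit 125) = true := by decide +kernel
def p15_33_2_125 : pfC (piC [(nat_lit 40745421), (nat_lit 25257288), (nat_lit 16296408)] (nat_lit 6991654)) p15_33_2 (nat_lit 3) (nat_lit 125) (nat_lit 126) = true := by decide +kernel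
def p15_33_2_126 : pfC (piC [(nat_lit 40745421), (nat_lit 25257288), (nat_lit 16296408)] (nat_lit 6991654)) p15_33_2 (nat_lit 3) (nat_lit 126) (nat_lit 127) = true := by decide +kernel
def p15_33_2_127 : pfC (piC [(nat_lit 40745421), (nat_lit 25257288), (nat_lit 16296408)] (nat_lit 6991654)) p15_33_2 (nat_lit 3) (nat_lit 127) (nat_lit 128) = true := by decide +kernel
def p15_33_2_128 : pfC (piC [(nat_lit 40745421), (nat_lit 25257288), (nat_lit 16296408)] (nat_lit 6991654)) p15_33_2 (nat_lit 3) (nat_lit 128) (nat_lit 129) = true := by decide +kernel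
def p15_33_2_129 : pfC (piC [(nat_lit 40745421), (nat_lit 25257288), (nat_lit 16296408)] (nat_lit 6991654)) p15_33_2 (nat_lit 3) (nat_lit 129) (nat_lit 130) = true := by decide +kernel
def p15_33_2_130 : pfC (piC [(nat_lit 40745421), (nat_lit 25257288), (nat_lit 16296408)] (nat_lit 6991654)) p15_33_2 (nat_lit 3) (nat_lit 130) (nat_lit 131) = true := by decide +kernel
def p15_33_2_131 : pfC (piC [(nat_lit 40745421), (nat_lit 25257288), (nat_lit 16296408)] (nat_lit 6991654)) p15_33_2 (nat_lit 3) (nat_lit 131) (nat_lit 132) = true := by decide +kernel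
def p15_33_2_132 : pfC (piC [(nat_lit 40745421), (nat_lit 25257288), (nat_lit 16296408)] (nat_lit 6991654)) p15_33_2 (nat_lit 3) (nat_lit 132) (nat_lit 133) = true := by decide +kernel
def p15_33_2_133 : pfC (piC [(nat_lit 40745421), (nat_lit 25257288), (nat_lit 16296408)] (nat_lit 6991654)) p15_33_2 (nat_lit 3) (nat_lit 133) (nat_lit 134) = true := by decide +kernel
def p15_33_2_134 : pfC (piC [(nat_lit 40745421), (nat_lit 25257288), (nat_lit 16296408)] (nat_lit 6991654)) p15_33_2 (nat_lit 3) (nat_lit 134) (nat_lit 135) = true := by decide +kernel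
def p15_33_2_135 : pfC (piC [(nat_lit 40745421), (nat_lit 25257288), (nat_lit 16296408)] (nat_lit 6991654)) p15_33_2 (nat_lit 3) (nat_lit 135) (nat_lit 136) = true := by decide +kernel
def p15_33_2_136 : pfC (piC [(nat_lit 40745421), (nat_lit 25257288), (nat_lit 16296408)] (nat_lit 6991654)) p15_33_2 (nat_lit 3) (nat_lit 136) (nat_lit 137) = true := by decide +kernel
def p15_33_2_137 : pfC (piC [(nat_lit 40745421), (nat_lit 25257288), (nat_lit 16296408)] (nat_lit 6991654)) p15_33_2 (nat_lit 3) (nat_lit 137) (nat_lit 138) = true := by decide +kernel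
def p15_33_2_138 : pfC (piC [(nat_lit 40745421), (nat_lit 25257288), (nat_lit 16296408)] (nat_lit 6991654)) p15_33_2 (nat_lit 3) (nat_lit 138) (nat_lit 139) = true := by decide +kernel
def p15_33_2_139 : pfC (piC [(nat_lit 40745421), (nat_lit 25257288), (nat_lit 16296408)] (nat_lit 6991654)) p15_33_2 (nat_lit 3) (nat_lit 139) (nat_lit 140) = true := by decide +kernel
def p15_33_2_140 : pfC (piC [(nat_lit 40745421), (nat_lit 25257288), (nat_lit 16296408)] (nat_lit 6991654)) p15_33_2 (nat_lit 3) (nat_lit 140) (nat_lit 141) = true := by decide +kernel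
def p15_33_2_141 : pfC (piC [(nat_lit 40745421), (nat_lit 25257288), (nat_lit 16296408)] (nat_lit 6991654)) p15_33_2 (nat_lit 3) (nat_lit 141) (nat_lit 142) = true := by decide +kernel
def p15_33_2_142 : pfC (piC [(nat_lit 40745421), (nat_lit 25257288), (nat_lit 16296408)] (nat_lit 6991654)) p15_33_2 (nat_lit 3) (nat_lit 142) (nat_lit 143) = true := by decide +kernel
def p15_33_2_143 : pfC (piC [(nat_lit 40745421), (nat_lit 25257288), (nat_lit 16296408)] (nat_lit 6991654)) p15_33_2 (nat_lit 3) (nat_lit 143) (nat_lit 144) = true := by decide +kernel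
def p15_33_2_144 : pfC (piC [(nat_lit 40745421), (nat_lit 25257288), (nat_lit 16296408)] (nat_lit 6991654)) p15_33_2 (nat_lit 3) (nat_lit 144) (nat_lit 145) = true := by decide +kernel
def p15_33_2_145 : pfC (piC [(nat_lit 40745421), (nat_lit 25257288), (nat_lit 16296408)] (nat_lit 6991654)) p15_33_2 (nat_lit 3) (nat_lit 145) (nat_lit 146) = true := by decide +kernel
def p15_33_2_146 : pfC (piC [(nat_lit 40745421), (nat_lit 25257288), (nat_lit 16296408)] (nat_lit 6991654)) p15_33_2 (nat_lit 3) (nat_lit 146) (nat_lit 147) = true := by decide +kernel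
def p15_33_2_147 : pfC (piC [(nat_lit 40745421), (nat_lit 25257288), (nat_lit 16296408)] (nat_lit 6991654)) p15_33_2 (nat_lit 3) (nat_lit 147) (nat_lit 148) = true := by decide +kernel
def p15_33_2_148 : pfC (piC [(nat_lit 40745421), (nat_lit 25257288), (nat_lit 16296408)] (nat_lit 6991654)) p15_33_2 (nat_lit 3) (nat_lit 148) (nat_lit 149) = true := by decide +kernel
def p15_33_2_149 : pfC (piC [(nat_lit 40745421), (nat_lit 25257288), (nat_lit 16296408)] (nat_lit 6991654)) p15_33_2 (nat_lit 3) (nat_lit 149) (nat_lit 150) = true := by decide +kernel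
def p15_33_2_150 : pfC (piC [(nat_lit 40745421), (nat_lit 25257288), (nat_lit 16296408)] (nat_lit 6991654)) p15_33_2 (nat_lit 3) (nat_lit 150) (nat_lit 151) = true := by decide +kernel
def p15_33_2_151 : pfC (piC [(nat_lit 40745421), (nat_lit 25257288), (nat_lit 16296408)] (nat_lit 6991654)) p15_33_2 (nat_lit 3) (nat_lit 151) (nat_lit 152) = true := by decide +kernel
def p15_33_2_152 : pfC (piC [(nat_lit 40745421), (nat_lit 25257288), (nat_lit 16296408)] (nat_lit 6991654)) p15_33_2 (nat_lit 3) (nat_lit 152) (nat_lit 153) = true := by decide +kernel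
def p15_33_2_153 : pfC (piC [(nat_lit 40745421), (nat_lit 25257288), (nat_lit 16296408)] (nat_lit 6991654)) p15_33_2 (nat_lit 3) (nat_lit 153) (nat_lit 154) = true := by decide +kernel
def p15_33_2_154 : pfC (piC [(nat_lit 40745421), (nat_lit 25257288), (nat_lit 16296408)] (nat_lit 6991654)) p15_33_2 (nat_lit 3) (nat_lit 154) (nat_lit 155) = true := by decide +kernel
def p15_33_2_155 : pfC (piC [(nat_lit 40745421), (nat_lit 25257288), (nat_lit 16296408)] (nat_lit 6991654)) p15_33_2 (nat_lit 3) (nat_lit 155) (nat_lit 156) = true := by decide +kernel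
def p15_33_2_156 : pfC (piC [(nat_lit 40745421), (nat_lit 25257288), (nat_lit 16296408)] (nat_lit 6991654)) p15_33_2 (nat_lit 3) (nat_lit 156) (nat_lit 157) = true := by decide +kernel
def p15_33_2_157 : pfC (piC [(nat_lit 40745421), (nat_lit 25257288), (nat_lit 16296408)] (nat_lit 6991654)) p15_33_2 (nat_lit 3) (nat_lit 157) (nat_lit 158) = true := by decide +kernel
def p15_33_2_158 : pfC (piC [(nat_lit 40745421), (nat_lit 25257288), (nat_lit 16296408)] (nat_lit 6991654)) p15_33_2 (nat_lit 3) (nat_lit 158) (nat_lit 159) = true := by decide +kernel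
def p15_33_2_159 : pfC (piC [(nat_lit 40745421), (nat_lit 25257288), (nat_lit 16296408)] (nat_lit 6991654)) p15_33_2 (nat_lit 3) (nat_lit 159) (nat_lit 160) = true := by decide +kernel
def p15_33_2_160 : pfC (piC [(nat_lit 40745421), (nat_lit 25257288), (nat_lit 16296408)] (nat_lit 6991654)) p15_33_2 (nat_lit 3) (nat_lit 160) (nat_lit 161) = true := by decide +kernel
def p15_33_2_161 : pfC (piC [(nat_lit 40745421), (nat_lit 25257288), (nat_lit 16296408)] (nat_lit 6991654)) p15_33_2 (nat_lit 3) (nat_lit 161) (nat_lit 162) = true := by decide +kernel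
def p15_33_2_162 : pfC (piC [(nat_lit 40745421), (nat_lit 25257288), (nat_lit 16296408)] (nat_lit 6991654)) p15_33_2 (nat_lit 3) (nat_lit 162) (nat_lit 163) = true := by decide +kernel
def p15_33_2_163 : pfC (piC [(nat_lit 40745421), (nat_lit 25257288), (nat_lit 16296408)] (nat_lit 6991654)) p15_33_2 (nat_lit 3) (nat_lit 163) (nat_lit 164) = true := by decide +kernel
def p15_33_2_164 : pfC (piC [(nat_lit 40745421), (nat_lit 25257288), (nat_lit 16296408)] (nat_lit 6991654)) p15_33_2 (nat_lit 3) (nat_lit 164) (nat_lit 165) = true := by decide +kernel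
def p15_33_2_165 : pfC (piC [(nat_lit 40745421), (nat_lit 25257288), (nat_lit 16296408)] (nat_lit 6991654)) p15_33_2 (nat_lit 3) (nat_lit 165) (nat_lit 166) = true := by decide +kernel
def p15_33_2_166 : pfC (piC [(nat_lit 40745421), (nat_lit 25257288), (nat_lit 16296408)] (nat_lit 6991654)) p15_33_2 (nat_lit 3) (nat_lit 166) (nat_lit 167) = true := by decide +kernel
def p15_33_2_167 : pfC (piC [(nat_lit 40745421), (nat_lit 25257288), (nat_lit 16296408)] (nat_lit 6991654)) p15_33_2 (nat_lit 3) (nat_lit 167) (nat_lit 168) = true := by decide +kernel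
def p15_33_2_168 : pfC (piC [(nat_lit 40745421), (nat_lit 25257288), (nat_lit 16296408)] (nat_lit 6991654)) p15_33_2 (nat_lit 3) (nat_lit 168) (nat_lit 169) = true := by decide +kernel
def p15_33_2_169 : pfC (piC [(nat_lit 40745421), (nat_lit 25257288), (nat_lit 16296408)] (nat_lit 6991654)) p15_33_2 (nat_lit 3) (nat_lit 169) (nat_lit 170) = true := by decide +kernel
def p15_33_2_170 : pfC (piC [(nat_lit 40745421), (nat_lit 25257288), (nat_lit 16296408)] (nat_lit 6991654)) p15_33_2 (nat_lit 3) (nat_lit 170) (nat_lit 171) = true := by decide +kernel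
def p15_33_2_171 : pfC (piC [(nat_lit 40745421), (nat_lit 25257288), (nat_lit 16296408)] (nat_lit 6991654)) p15_33_2 (nat_lit 3) (nat_lit 171) (nat_lit 172) = true := by decide +kernel
theorem p15_33_2_T : PfS (PiF n15_33.reverse (nat_lit 6991654)) p15_33_2 (nat_lit 3) [] 0 :=
  pftab_of (los := [(nat_lit 40745421), (nat_lit 25257288), (nat_lit 16296408)]) (by decide +kernel) (hi := (nat_lit 172)) (PfP.trans (PfP.trans (PfP.trans (PfP.trans (PfP.trans (PfP.trans (PfP.trans (PfP.trans (PfP.trans (PfP.trans (PfP.trans (PfP.trans (PfP.trans (PfP.trans (PfP.trans (PfP.trans (PfP.trans (PfP.trans (PfP.trans (PfP.trans (PfP.trans (PfP.trans (PfP.trans (PfP.trans (PfP.trans (PfP.trans (PfP.trans (PfP.trans (PfP.trans (PfP.trans (PfP.trans (PfP.trans (PfP.trans (PfP.trans (PfP.trans (PfP.trans (PfP.trans (PfP.trans (PfP.trans (PfP.trans (PfP.trans (PfP.trans (PfP.trans (PfP.trans (PfP.trans (PfP.trans (PfP.trans (PfP.trans (PfP.trans (PfP.trans (PfP.trans (PfP.trans (PfP.trans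 (PfP.trans (PfP.trans (PfP.trans (PfP.trans (PfP.trans (PfP.trans (PfP.trans (PfP.trans (PfP.trans (PfP.trans (PfP.trans (PfP.trans (PfP.trans (PfP.trans (PfP.trans (PfP.trans (PfP.trans (PfP.trans (PfP.trans (PfP.trans (PfP.trans (PfP.trans (PfP.trans (PfP.trans (PfP.trans (PfP.trans (PfP.trans (PfP.trans (PfP.trans (PfP.trans (PfP.trans (PfP.trans (PfP.trans (PfP.trans (PfP.trans (PfP.trans (PfP.trans (PfP.trans (PfP.trans (PfP.trans (PfP.trans (PfP.trans (PfP.trans (PfP.trans (PfP.trans (PfP.trans (PfP.trans (PfP.trans (PfP.trans (PfP.trans (PfP.trans (PfP.trans (PfP.trans (PfP.trans (PfP.trans (PfP.trans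
 (PfP.trans (PfP.trans (PfP.trans (PfP.trans (PfP.trans (PfP.trans (PfP.trans (PfP.trans (PfP.trans (PfP.trans (PfP.trans (PfP.trans (PfP.trans (PfP.trans (PfP.trans (PfP.trans (PfP.trans (PfP.trans (PfP.trans (PfP.trans (PfP.trans (PfP.trans (PfP.trans (PfP.trans (PfP.trans (PfP.trans (PfP.trans (PfP.trans (PfP.trans (PfP.trans (PfP.trans (PfP.trans (PfP.trans (PfP.trans (PfP.trans (PfP.trans (PfP.trans (PfP.trans (PfP.trans (PfP.trans (PfP.trans (PfP.trans (PfP.trans (PfP.trans (PfP.trans (PfP.trans (PfP.trans (PfP.trans (PfP.trans (PfP.trans (PfP.trans (PfP.trans (PfP.trans (PfP.trans (PfP.trans (PfP.trans (PfP.trans (PfP.trans (PfP.trans (PfP.trans (PfP.trans (PfP.trans (pfC_sound p15_33_2_0) (pfC_sound p15_33_2_1)) (pfC_sound p15_33_2_2)) (pfC_sound p15_33_2_3)) (pfC_sound p15_33_2_4)) (pfC_sound p15_33_2_5)) (pfC_sound p15_33_2_6)) (pfC_sound p15_33_2_7)) (pfC_sound p15_33_2_8)) (pfC_sound p15_33_2_9)) (pfC_sound p15_33_2_10)) (pfC_sound p15_33_2_11)) (pfC_sound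 p15_33_2_12)) (pfC_sound p15_33_2_13)) (pfC_sound p15_33_2_14)) (pfC_sound p15_33_2_15)) (pfC_sound p15_33_2_16)) (pfC_sound p15_33_2_17)) (pfC_sound p15_33_2_18)) (pfC_sound p15_33_2_19)) (pfC_sound p15_33_2_20))
 (pfC_sound p15_33_2_21)) (pfC_sound p15_33_2_22)) (pfC_sound p15_33_2_23)) (pfC_sound p15_33_2_24)) (pfC_sound p15_33_2_25)) (pfC_sound p15_33_2_26)) (pfC_sound p15_33_2_27)) (pfC_sound p15_33_2_28)) (pfC_sound p15_33_2_29)) (pfC_sound p15_33_2_30)) (pfC_sound p15_33_2_31)) (pfC_sound p15_33_2_32)) (pfC_sound p15_33_2_33)) (pfC_sound p15_33_2_34)) (pfC_sound p15_33_2_35)) (pfC_sound p15_33_2_36)) (pfC_sound p15_33_2_37)) (pfC_sound p15_33_2_38)) (pfC_sound p15_33_2_39)) (pfC_sound p15_33_2_40)) (pfC_sound p15_33_2_41)) (pfC_sound p15_33_2_42)) (pfC_sound p15_33_2_43)) (pfC_sound p15_33_2_44)) (pfC_sound p15_33_2_45)) (pfC_sound p15_33_2_46)) (pfC_sound p15_33_2_47)) (pfC_sound p15_33_2_48)) (pfC_sound p15_33_2_49)) (pfC_sound p15_33_2_50)) (pfC_sound p15_33_2_51))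 (pfC_sound p15_33_2_52)) (pfC_sound p15_33_2_53)) (pfC_sound p15_33_2_54)) (pfC_sound p15_33_2_55)) (pfC_sound p15_33_2_56)) (pfC_sound p15_33_2_57)) (pfC_sound p15_33_2_58)) (pfC_sound p15_33_2_59)) (pfC_sound p15_33_2_60)) (pfC_sound p15_33_2_61)) (pfC_sound p15_33_2_62)) (pfC_sound p15_33_2_63)) (pfC_sound p15_33_2_64)) (pfC_sound p15_33_2_65)) (pfC_sound p15_33_2_66)) (pfC_sound p15_33_2_67)) (pfC_sound p15_33_2_68))
 (pfC_sound p15_33_2_69)) (pfC_sound p15_33_2_70)) (pfC_sound p15_33_2_71)) (pfC_sound p15_33_2_72)) (pfC_sound p15_33_2_73)) (pfC_sound p15_33_2_74)) (pfC_sound p15_33_2_75)) (pfC_sound p15_33_2_76)) (pfC_sound p15_33_2_77)) (pfC_sound p15_33_2_78)) (pfC_sound p15_33_2_79)) (pfC_sound p15_33_2_80)) (pfC_sound p15_33_2_81)) (pfC_sound p15_33_2_82)) (pfC_sound p15_33_2_83)) (pfC_sound p15_33_2_84)) (pfC_sound p15_33_2_85)) (pfC_sound p15_33_2_86)) (pfC_sound p15_33_2_87)) (pfC_sound p15_33_2_88)) (pfC_sound p15_33_2_89)) (pfC_sound p15_33_2_90)) (pfC_sound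 p15_33_2_91)) (pfC_sound p15_33_2_92)) (pfC_sound p15_33_2_93)) (pfC_sound p15_33_2_94)) (pfC_sound p15_33_2_95)) (pfC_sound p15_33_2_96)) (pfC_sound p15_33_2_97)) (pfC_sound p15_33_2_98)) (pfC_sound p15_33_2_99)) (pfC_sound p15_33_2_100)) (pfC_sound p15_33_2_101)) (pfC_sound p15_33_2_102)) (pfC_sound p15_33_2_103)) (pfC_sound p15_33_2_104)) (pfC_sound p15_33_2_105)) (pfC_sound p15_33_2_106)) (pfC_sound p15_33_2_107)) (pfC_sound p15_33_2_108)) (pfC_sound p15_33_2_109)) (pfC_sound p15_33_2_110)) (pfC_sound p15_33_2_111)) (pfC_sound p15_33_2_112)) (pfC_sound p15_33_2_113)) (pfC_sound p15_33_2_114)) (pfC_sound p15_33_2_115))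
 (pfC_sound p15_33_2_116)) (pfC_sound p15_33_2_117)) (pfC_sound p15_33_2_118)) (pfC_sound p15_33_2_119)) (pfC_sound p15_33_2_120)) (pfC_sound p15_33_2_121)) (pfC_sound p15_33_2_122)) (pfC_sound p15_33_2_123)) (pfC_sound p15_33_2_124)) (pfC_sound p15_33_2_125)) (pfC_sound p15_33_2_126)) (pfC_sound p15_33_2_127)) (pfC_sound p15_33_2_128)) (pfC_sound p15_33_2_129)) (pfC_sound p15_33_2_130)) (pfC_sound p15_33_2_131)) (pfC_sound p15_33_2_132)) (pfC_sound p15_33_2_133)) (pfC_sound p15_33_2_134)) (pfC_sound p15_33_2_135)) (pfC_sound p15_33_2_136)) (pfC_sound p15_33_2_137)) (pfC_sound p15_33_2_138)) (pfC_sound p15_33_2_139)) (pfC_sound p15_33_2_140)) (pfC_sound p15_33_2_141)) (pfC_sound p15_33_2_142)) (pfC_sound p15_33_2_143)) (pfC_sound p15_33_2_144)) (pfC_sound p15_33_2_145)) (pfC_sound p15_33_2_146)) (pfC_sound p15_33_2_147)) (pfC_sound p15_33_2_148)) (pfC_sound p15_33_2_149)) (pfC_sound p15_33_2_150)) (pfC_sound p15_33_2_151)) (pfC_sound p15_33_2_152)) (pfC_sound p15_33_2_153))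 (pfC_sound p15_33_2_154)) (pfC_sound p15_33_2_155)) (pfC_sound p15_33_2_156)) (pfC_sound p15_33_2_157)) (pfC_sound p15_33_2_158)) (pfC_sound p15_33_2_159)) (pfC_sound p15_33_2_160)) (pfC_sound p15_33_2_161))
 (pfC_sound p15_33_2_162)) (pfC_sound p15_33_2_163)) (pfC_sound p15_33_2_164)) (pfC_sound p15_33_2_165)) (pfC_sound p15_33_2_166)) (pfC_sound p15_33_2_167)) (pfC_sound p15_33_2_168)) (pfC_sound p15_33_2_169)) (pfC_sound p15_33_2_170)) (pfC_sound p15_33_2_171)) (by decide +kernel)

def z15_33_2 : zOK yB15_33 (nat_lit 2) (nat_lit 600) (nat_lit 743) (nat_lit 6991654) (nat_lit 5158383) = true := by decide +kernel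
def g15_33_2 : gOK yB15_33.x P15_33 (nat_lit 1403) (q15_33 :: r15_33) (nat_lit 2) (nat_lit 600) (nat_lit 3) (nat_lit 743) (nat_lit 12712500) (nat_lit 12712500) (nat_lit 12712500) (nat_lit 12712500) [(nat_lit 800), (nat_lit 1600)] = true := by decide +kernel
def v15_33_2 : ivC P15_33 s15_33 w15_33 n15_33 (nat_lit 3) (nat_lit 4720) (nat_lit 2) (nat_lit 600) f176_0_600 f184_0_600 (nat_lit 3) (nat_lit 743) f176_0_743 f184_0_743 (nat_lit 6991654) (nat_lit 5158383) p15_33_2 = true := by decide +kernel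
end CB
end Pool.Agent.Lib.MP_6947cd_al
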