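import Pool.Agent.Lib.MP_6947cd_al.L.BoxDataB
import Pool.Agent.Lib.MP_6947cd_al.L.TeD1
import Pool.Agent.Lib.MP_6947cd_al.L.TeD2

/-!
Problem MP_6947cd_al (Chollet).  CASE B, rows `j`: boxes (generated).
-/

set_option autoImplicit false
set_option linter.defProp false
set_option maxRecDepth 20000

namespace Pool.Agent.Lib.MP_6947cd_al
namespace CB

open Ent Ent.Pk Fr Fr.WT CA

/-! box `yB15_35` -/

def P15_35 : BQ := ⟨(nat_lit 8), (nat_lit 8), (nat_lit 0), (nat_lit 4), (nat_lit 4), (nat_lit 920), (nat_lit 940), (nat_lit 90), [(nat_lit 180), (nat_lit 330), (nat_lit 650)], (nat_lit 145792000), (nat_lit 16000000), (nat_lit 16000000000)⟩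
def q15_35 : PC := ⟨(nat_lit 1000), [(nat_lit 90000), (nat_lit 180000), (nat_lit 330000), (nat_lit 650000)], (nat_lit 79228162532711081671548469249000000), (nat_lit 15854208000000), (nat_lit 15854208000000), (nat_lit 10000000)⟩
def r15_35 : List PC := [⟨(nat_lit 1322), [(nat_lit 90504), (nat_lit 180664), (nat_lit 331222), (nat_lit 651312)], (nat_lit 79669225713523822074412490835315334), (nat_lit 16325259783040), (nat_lit 16335937612160), (nat_lit 10056000)⟩, ⟨(nat_lit 1946), [(nat_lit 92403), (nat_lit 182180), (nat_lit 337324), (nat_lit 656732)], (nat_lit 80522037655032343624447223305034898), (nat_lit 17116686542720), (nat_lit 17148056810880), (nat_lit 10267000)⟩]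
def s15_35 : List PB := [⟨(nat_lit 26440), (nat_lit 1448064000000), [(nat_lit 180664), (nat_lit 331222), (nat_lit 651312)], (nat_lit 79669225713523822074412490835315334), (nat_lit 1142225166625664), (nat_lit 1142235844454784), (nat_lit 51520)⟩, ⟨(nat_lit 38920), (nat_lit 1478448000000), [(nat_lit 182180), (nat_lit 337324), (nat_lit 656732)], (nat_lit 80522037655032343624447223305034898), (nat_lit 1143016593385344), (nat_lit 1143047963653504), (nat_lit 151360)⟩]
def n15_35 : List KN := [⟨(nat_lit 650), (nat_lit 330), (nat_lit 15232604), (nat_lit 7830720)⟩, ⟨(nat_lit 330), (nat_lit 180), (nat_lit 23751559), (nat_lit 15232604)⟩, ⟨(nat_lit 180), (nat_lit 90), (nat_lit 37297016), (nat_lit 23751559)⟩]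
def w15_35 : List ℕ := [(nat_lit 51520), (nat_lit 151360)]
def par15_35 : parC yB15_35 P15_35 s15_35 r15_35 q15_35 n15_35 w15_35 = true := by decide +kernel

def p15_35_0 : PF := (PF.cons (PF.cons (PF.cons (PF.leaf (nat_lit 1050911) (nat_lit 3625169) (nat_lit 63483643) (nat_lit 3625169) [(nat_lit 0), (nat_lit 0), (nat_lit 0)]) (PF.cons (PF.leaf (nat_lit 1243002) (nat_lit 320868) (nat_lit 63090171) (nat_lit 3697772) [(nat_lit 320868), (nat_lit 0), (nat_lit 0)]) (PF.cons (PF.leaf (nat_lit 1473199) (nat_lit 353355) (nat_lit 62625076) (nat_lit 3777024) [(nat_lit 353355), (nat_lit 0), (nat_lit 0)]) (PF.cons (PF.leaf (nat_lit 1735423) (nat_lit 383336) (nat_lit 62099614) (nat_lit 3859188) [(nat_lit 383336), (nat_lit 0), (nat_lit 0)]) (PF.cons (PF.leaf (nat_lit 2026116) (nat_lit 411278) (nat_lit 61522005) (nat_lit 3941692) [(nat_lit 411278), (nat_lit 0), (nat_lit 0)]) (PF.cons (PF.leaf (nat_lit 2342262) (nat_lit 437439) (nat_lit 60898910) (nat_lit 4022706) [(nat_lit 437439),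 (nat_lit 0), (nat_lit 0)]) (PF.cons (PF.leaf (nat_lit 2681262) (nat_lit 461969) (nat_lit 60236082) (nat_lit 4100913) [(nat_lit 461969), (nat_lit 0), (nat_lit 0)]) (PF.cons (PF.leaf (nat_lit 3040714) (nat_lit 484965) (nat_lit 59538681) (nat_lit 4175373) [(nat_lit 484965), (nat_lit 0), (nat_lit 0)]) (PF.cons (PF.leaf (nat_lit 3418375) (nat_lit 506495) (nat_lit 58811432) (nat_lit 4245418)
 [(nat_lit 506495), (nat_lit 0), (nat_lit 0)]) (PF.cons (PF.leaf (nat_lit 3812152) (nat_lit 526611) (nat_lit 58058711) (nat_lit 4310598) [(nat_lit 526611), (nat_lit 0), (nat_lit 0)]) (PF.cons (PF.leaf (nat_lit 4220011) (nat_lit 545359) (nat_lit 57284593) (nat_lit 4370622) [(nat_lit 545359), (nat_lit 0), (nat_lit 0)]) (PF.cons (PF.leaf (nat_lit 4640059) (nat_lit 562782) (nat_lit 56492869) (nat_lit 4425332) [(nat_lit 562782), (nat_lit 0), (nat_lit 0)]) (PF.cons (PF.leaf (nat_lit 5070516) (nat_lit 578923) (nat_lit 55687067) (nat_lit 4474667) [(nat_lit 578923), (nat_lit 0), (nat_lit 0)])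 (PF.cons (PF.leaf (nat_lit 5509684) (nat_lit 593823) (nat_lit 54870454) (nat_lit 4518648) [(nat_lit 593823), (nat_lit 0), (nat_lit 0)]) (PF.cons (PF.leaf (nat_lit 5955980) (nat_lit 607529) (nat_lit 54046045) (nat_lit 4557355) [(nat_lit 607529), (nat_lit 0), (nat_lit 0)]) (PF.cons (PF.leaf (nat_lit 6407954) (nat_lit 620085) (nat_lit 53216610) (nat_lit 4590918) [(nat_lit 620085), (nat_lit 0), (nat_lit 0)]) (PF.cons (PF.leaf (nat_lit 6864218) (nat_lit 631539) (nat_lit 52384677) (nat_lit 4619503) [(nat_lit 631539), (nat_lit 0), (nat_lit 0)]) (PF.cons PF.nil (PF.cons PF.nil (PF.cons PF.nil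
 PF.nil)))))))))))))))))))) (PF.cons (PF.cons (PF.leaf (nat_lit 1809616) (nat_lit 1794750) (nat_lit 61379320) (nat_lit 3934742) [(nat_lit 0), (nat_lit 1794750), (nat_lit 0)]) (PF.cons (PF.leaf (nat_lit 2071188) (nat_lit 409747) (nat_lit 60844874) (nat_lit 4004296) [(nat_lit 409747), (nat_lit 1849894), (nat_lit 0)]) (PF.cons (PF.leaf (nat_lit 2362690) (nat_lit 436249) (nat_lit 60256800) (nat_lit 4074607) [(nat_lit 436249), (nat_lit 1904905), (nat_lit 0)]) (PF.cons (PF.leaf (nat_lit 2679617) (nat_lit 460853) (nat_lit 59623870) (nat_lit 4143781) [(nat_lit 460853), (nat_lit 1958599), (nat_lit 0)]) (PF.cons (PF.leaf (nat_lit 3018859) (nat_lit 483778) (nat_lit 58952952) (nat_lit 4210511) [(nat_lit 483778), (nat_lit 2010235), (nat_lit 0)]) (PF.cons (PF.leaf (nat_lit 3377756) (nat_lit 505158) (nat_lit 58249801) (nat_lit 4273883) [(nat_lit 505158), (nat_lit 2059332), (nat_lit 0)]) (PF.cons (PF.leaf (nat_lit 3753939) (nat_lit 525086) (nat_lit 57519440) (nat_lit 4333266) [(nat_lit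 525086), (nat_lit 2105584), (nat_lit 0)]) (PF.cons (PF.leaf (nat_lit 4145246) (nat_lit 543631) (nat_lit 56766356) (nat_lit 4388236) [(nat_lit 543631), (nat_lit 2148802), (nat_lit 0)]) (PF.cons (PF.leaf (nat_lit
 4549653) (nat_lit 560848) (nat_lit 55994618) (nat_lit 4438526) [(nat_lit 560848), (nat_lit 2188882), (nat_lit 0)]) (PF.cons (PF.leaf (nat_lit 4965303) (nat_lit 576789) (nat_lit 55207930) (nat_lit 4483992) [(nat_lit 576789), (nat_lit 2225782), (nat_lit 0)]) (PF.cons (PF.leaf (nat_lit 5390455) (nat_lit 591503) (nat_lit 54409682) (nat_lit 4524584) [(nat_lit 591503), (nat_lit 2259508), (nat_lit 0)]) (PF.cons (PF.leaf (nat_lit 5823492) (nat_lit 605037) (nat_lit 53602969) (nat_lit 4560324) [(nat_lit 605037), (nat_lit 2290103), (nat_lit 0)]) (PF.cons (PF.leaf (nat_lit 6262942) (nat_lit 617439) (nat_lit 52790612) (nat_lit 4591292) [(nat_lit 617439), (nat_lit 2317635), (nat_lit 0)]) (PF.cons (PF.leaf (nat_lit 6707374) (nat_lit 628756) (nat_lit 51975176) (nat_lit 4617611)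 [(nat_lit 628756), (nat_lit 2342194), (nat_lit 0)]) (PF.cons (PF.leaf (nat_lit 7155523) (nat_lit 639036) (nat_lit 51158983) (nat_lit 4639436) [(nat_lit 639036), (nat_lit 2363886), (nat_lit 0)]) (PF.cons PF.nil (PF.cons PF.nil (PF.cons PF.nil PF.nil)))))))))))))))))) (PF.cons (PF.cons (PF.leaf (nat_lit 2702370) (nat_lit 1983917) (nat_lit 58952666) (nat_lit 4188311) [(nat_lit 0), (nat_lit 1983917), (nat_lit 0)]) (PF.cons
 (PF.leaf (nat_lit 3016051) (nat_lit 480782) (nat_lit 58320861) (nat_lit 4246494) [(nat_lit 480782), (nat_lit 2030337), (nat_lit 0)]) (PF.cons (PF.leaf (nat_lit 3352753) (nat_lit 502403) (nat_lit 57650944) (nat_lit 4302694) [(nat_lit 502403), (nat_lit 2075183), (nat_lit 0)]) (PF.cons (PF.leaf (nat_lit 3708864) (nat_lit 522418) (nat_lit 56949798) (nat_lit 4355971) [(nat_lit 522418), (nat_lit 2117894), (nat_lit 0)]) (PF.cons (PF.leaf (nat_lit 4081756) (nat_lit 540959) (nat_lit 56223041) (nat_lit 4405693) [(nat_lit 540959), (nat_lit 2158120), (nat_lit 0)])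 (PF.cons (PF.leaf (nat_lit 4469110) (nat_lit 558123) (nat_lit 55475456) (nat_lit 4451447) [(nat_lit 558123), (nat_lit 2195645), (nat_lit 0)]) (PF.cons (PF.leaf (nat_lit 4868866) (nat_lit 573985) (nat_lit 54711226) (nat_lit 4492977) [(nat_lit 573985), (nat_lit 2230349), (nat_lit 0)]) (PF.cons (PF.leaf (nat_lit 5279148) (nat_lit 588607) (nat_lit 53934057) (nat_lit 4530144) [(nat_lit 588607), (nat_lit 2262179), (nat_lit 0)]) (PF.cons (PF.leaf (nat_lit 5698261) (nat_lit 602047) (nat_lit 53147266) (nat_lit 4562904) [(nat_lit 602047), (nat_lit 2291132), (nat_lit 0)]) (PF.cons (PF.leaf (nat_lit 6124585) (nat_lit 614357) (nat_lit 52353834)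
 (nat_lit 4591277) [(nat_lit 614357), (nat_lit 2317240), (nat_lit 0)]) (PF.cons (PF.leaf (nat_lit 6556752) (nat_lit 625590) (nat_lit 51556435) (nat_lit 4615340) [(nat_lit 625590), (nat_lit 2340565), (nat_lit 0)]) (PF.cons (PF.leaf (nat_lit 6993374) (nat_lit 635795) (nat_lit 50757475) (nat_lit 4635207) [(nat_lit 635795), (nat_lit 2361188), (nat_lit 0)]) (PF.cons (PF.leaf (nat_lit 7433259) (nat_lit 645022) (nat_lit 49959105) (nat_lit 4651024) [(nat_lit 645022), (nat_lit 2379205), (nat_lit 0)]) (PF.cons PF.nil (PF.cons PF.nil (PF.cons PF.nil PF.nil)))))))))))))))) (PF.cons (PF.cons (PF.leaf (nat_lit 3684031) (nat_lit 2130935) (nat_lit 56336748) (nat_lit 4379259) [(nat_lit 0), (nat_lit 2130935), (nat_lit 0)]) (PF.cons (PF.leaf (nat_lit 4034649) (nat_lit 536956) (nat_lit 55645066) (nat_lit 4423339) [(nat_lit 536956), (nat_lit 2167816), (nat_lit 0)]) (PF.cons (PF.leaf (nat_lit 4402389) (nat_lit 554325) (nat_lit 54928147) (nat_lit 4464315) [(nat_lit 554325), (nat_lit 2202566),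 (nat_lit 0)]) (PF.cons (PF.leaf (nat_lit 4784341) (nat_lit 570296) (nat_lit 54191358) (nat_lit 4501761) [(nat_lit 570296), (nat_lit 2234934), (nat_lit 0)]) (PF.cons (PF.leaf (nat_lit 5178296) (nat_lit 584971)
 (nat_lit 53439172) (nat_lit 4535417) [(nat_lit 584971), (nat_lit 2264779), (nat_lit 0)]) (PF.cons (PF.leaf (nat_lit 5582308) (nat_lit 598429) (nat_lit 52675415) (nat_lit 4565148) [(nat_lit 598429), (nat_lit 2292034), (nat_lit 0)]) (PF.cons (PF.leaf (nat_lit 5994662) (nat_lit 610738) (nat_lit 51903420) (nat_lit 4590905) [(nat_lit 610738), (nat_lit 2316686), (nat_lit 0)]) (PF.cons (PF.leaf (nat_lit 6413775) (nat_lit 621959) (nat_lit 51126113) (nat_lit 4612706) [(nat_lit 621959), (nat_lit 2338758), (nat_lit 0)]) (PF.cons (PF.leaf (nat_lit 6838271) (nat_lit 632149) (nat_lit 50346080) (nat_lit 4630621) [(nat_lit 632149), (nat_lit 2358304), (nat_lit 0)]) (PF.cons (PF.leaf (nat_lit 7266848) (nat_lit 641362) (nat_lit 49565610) (nat_lit 4644756) [(nat_lit 641362), (nat_lit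 2375395), (nat_lit 0)]) (PF.cons (PF.leaf (nat_lit 7698343) (nat_lit 649647) (nat_lit 48786727) (nat_lit 4655244) [(nat_lit 649647), (nat_lit 2390121), (nat_lit 0)]) (PF.cons (PF.leaf (nat_lit 8131707) (nat_lit 657056) (nat_lit 48011217) (nat_lit 4662241) [(nat_lit 657056), (nat_lit 2402577), (nat_lit 0)]) (PF.cons PF.nil (PF.cons PF.nil PF.nil)))))))))))))) (PF.cons (PF.cons (PF.leaf (nat_lit 4716950) (nat_lit 2239766)
 (nat_lit 53639183) (nat_lit 4510563) [(nat_lit 0), (nat_lit 2239766), (nat_lit 0)]) (PF.cons (PF.leaf (nat_lit 5091688) (nat_lit 580321) (nat_lit 52918141) (nat_lit 4540534) [(nat_lit 580321), (nat_lit 2267453), (nat_lit 0)]) (PF.cons (PF.leaf (nat_lit 5478673) (nat_lit 593977) (nat_lit 52182107) (nat_lit 4567134) [(nat_lit 593977), (nat_lit 2292903), (nat_lit 0)]) (PF.cons (PF.leaf (nat_lit 5875530) (nat_lit 606421) (nat_lit 51435201) (nat_lit 4590217) [(nat_lit 606421), (nat_lit 2316032), (nat_lit 0)]) (PF.cons (PF.leaf (nat_lit 6280462) (nat_lit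 617738) (nat_lit 50680881) (nat_lit 4609729) [(nat_lit 617738), (nat_lit 2336811), (nat_lit 0)]) (PF.cons (PF.leaf (nat_lit 6691878) (nat_lit 627998) (nat_lit 49922107) (nat_lit 4625683) [(nat_lit 627998), (nat_lit 2355257), (nat_lit 0)]) (PF.cons (PF.leaf (nat_lit 7108370) (nat_lit 637264) (nat_lit 49161435) (nat_lit 4638138) [(nat_lit 637264), (nat_lit 2371412), (nat_lit 0)]) (PF.cons (PF.leaf (nat_lit 7528686) (nat_lit 645595) (nat_lit 48401088) (nat_lit 4647192) [(nat_lit 645595), (nat_lit 2385341), (nat_lit 0)]) (PF.cons (PF.leaf (nat_lit 7951691) (nat_lit 653043) (nat_lit 47643006) (nat_lit 4652967) [(nat_lit 653043), (nat_lit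
 2397122), (nat_lit 0)]) (PF.cons (PF.leaf (nat_lit 8376372) (nat_lit 659661) (nat_lit 46888878) (nat_lit 4655605) [(nat_lit 659661), (nat_lit 2406843), (nat_lit 0)]) (PF.cons PF.nil (PF.cons PF.nil PF.nil)))))))))))) (PF.cons (PF.cons (PF.leaf (nat_lit 5771151) (nat_lit 2315377) (nat_lit 50942654) (nat_lit 4589272) [(nat_lit 0), (nat_lit 2315377), (nat_lit 0)]) (PF.cons (PF.leaf (nat_lit 6159675) (nat_lit 612728) (nat_lit 50215725) (nat_lit 4606433) [(nat_lit 612728), (nat_lit 2334785), (nat_lit 0)]) (PF.cons (PF.leaf (nat_lit 6556512) (nat_lit 623188) (nat_lit 49481622) (nat_lit 4620395) [(nat_lit 623188), (nat_lit 2352083), (nat_lit 0)]) (PF.cons (PF.leaf (nat_lit 6959741) (nat_lit 632610) (nat_lit 48743445) (nat_lit 4631162) [(nat_lit 632610), (nat_lit 2367274), (nat_lit 0)]) (PF.cons (PF.leaf (nat_lit 7367923) (nat_lit 641066) (nat_lit 48003800) (nat_lit 4638784) [(nat_lit 641066), (nat_lit 2380392), (nat_lit 0)]) (PF.cons (PF.leaf (nat_lit 7779782) (nat_lit 648619)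 (nat_lit 47264902) (nat_lit 4643349) [(nat_lit 648619), (nat_lit 2391492), (nat_lit 0)]) (PF.cons (PF.leaf (nat_lit 8194197) (nat_lit 655329) (nat_lit 46528652) (nat_lit 4644968) [(nat_lit 655329), (nat_lit
 2400643), (nat_lit 0)]) (PF.cons (PF.leaf (nat_lit 8610194) (nat_lit 661246) (nat_lit 45796681) (nat_lit 4643769) [(nat_lit 661246), (nat_lit 2407926), (nat_lit 0)]) (PF.cons PF.nil (PF.cons PF.nil PF.nil)))))))))) (PF.cons (PF.cons (PF.leaf (nat_lit 6823969) (nat_lit 2363013) (nat_lit 48306920) (nat_lit 4623809) [(nat_lit 0), (nat_lit 2363013), (nat_lit 0)]) (PF.cons (PF.leaf (nat_lit 7218274) (nat_lit 635913) (nat_lit 47591164) (nat_lit 4629994) [(nat_lit 635913), (nat_lit 2375290), (nat_lit 0)]) (PF.cons (PF.leaf (nat_lit 7617801) (nat_lit 643668) (nat_lit 46873964) (nat_lit 4633355) [(nat_lit 643668), (nat_lit 2385692), (nat_lit 0)]) (PF.cons (PF.leaf (nat_lit 8021011) (nat_lit 650545) (nat_lit 46157602) (nat_lit 4633969) [(nat_lit 650545), (nat_lit 2394267),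 (nat_lit 0)]) (PF.cons (PF.leaf (nat_lit 8426762) (nat_lit 656608) (nat_lit 45443992) (nat_lit 4631937) [(nat_lit 656608), (nat_lit 2401075), (nat_lit 0)]) (PF.cons (PF.leaf (nat_lit 8834057) (nat_lit 661910) (nat_lit 44734749) (nat_lit 4627374) [(nat_lit 661910), (nat_lit 2406189), (nat_lit 0)]) (PF.cons (PF.leaf (nat_lit 9242026) (nat_lit 666505) (nat_lit 44031241) (nat_lit 4620410) [(nat_lit 666505), (nat_lit 2409687),
 (nat_lit 0)]) (PF.cons PF.nil PF.nil)))))))) (PF.cons (PF.cons (PF.leaf (nat_lit 7859137) (nat_lit 2387713) (nat_lit 45772260) (nat_lit 4622559) [(nat_lit 0), (nat_lit 2387713), (nat_lit 0)]) (PF.cons (PF.leaf (nat_lit 8253248) (nat_lit 651469) (nat_lit 45079352) (nat_lit 4619712) [(nat_lit 651469), (nat_lit 2394039), (nat_lit 0)]) (PF.cons (PF.leaf (nat_lit 8650216) (nat_lit 656972) (nat_lit 44389025) (nat_lit 4614486) [(nat_lit 656972), (nat_lit 2398765), (nat_lit 0)]) (PF.cons (PF.leaf (nat_lit 9048800) (nat_lit 661741) (nat_lit 43702927) (nat_lit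 4606988) [(nat_lit 661741), (nat_lit 2401953), (nat_lit 0)]) (PF.cons (PF.leaf (nat_lit 9448122) (nat_lit 665829) (nat_lit 43022429) (nat_lit 4597334) [(nat_lit 665829), (nat_lit 2403675), (nat_lit 0)]) (PF.cons PF.nil PF.nil)))))) (PF.cons (PF.cons (PF.leaf (nat_lit 8865625) (nat_lit 2394023) (nat_lit 43363466) (nat_lit 4593159) [(nat_lit 0), (nat_lit 2394023), (nat_lit 0)]) (PF.cons (PF.leaf (nat_lit 9255246) (nat_lit 660813) (nat_lit 42700824) (nat_lit 4583113) [(nat_lit 660813), (nat_lit 2395507), (nat_lit 0)]) (PF.cons (PF.leaf (nat_lit 9645949) (nat_lit 664465) (nat_lit 42043463) (nat_lit 4571130) [(nat_lit 664465), (nat_lit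
 2395660), (nat_lit 0)]) (PF.cons PF.nil PF.nil)))) (PF.cons (PF.cons (PF.leaf (nat_lit 9836483) (nat_lit 2385880) (nat_lit 41093680) (nat_lit 4542208) [(nat_lit 0), (nat_lit 2385880), (nat_lit 0)]) (PF.cons (PF.leaf (nat_lit 10218641) (nat_lit 665169) (nat_lit 40465520) (nat_lit 4526581) [(nat_lit 665169), (nat_lit 2383504), (nat_lit 0)]) PF.nil)) (PF.cons PF.nil (PF.cons PF.nil (PF.cons PF.nil PF.nil))))))))))))) (PF.cons (PF.cons (PF.cons (PF.leaf (nat_lit 2899003) (nat_lit 4232648) (nat_lit 56392046) (nat_lit 4232648) [(nat_lit 0), (nat_lit 0), (nat_lit 6484118)]) (PF.cons (PF.leaf (nat_lit 3176570) (nat_lit 462849) (nat_lit 55845358) (nat_lit 4276745) [(nat_lit 462849), (nat_lit 0), (nat_lit 6523859)]) (PF.cons (PF.leaf (nat_lit 3481157) (nat_lit 486712) (nat_lit 55252378) (nat_lit 4320374) [(nat_lit 486712), (nat_lit 0), (nat_lit 6562636)]) (PF.cons (PF.leaf (nat_lit 3807781) (nat_lit 508169) (nat_lit 54622801) (nat_lit 4362327) [(nat_lit 508169), (nat_lit 0),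 (nat_lit 6599175)]) (PF.cons (PF.leaf (nat_lit 4153042) (nat_lit 527622) (nat_lit 53963907) (nat_lit 4401806) [(nat_lit 527622), (nat_lit 0), (nat_lit 6632607)]) (PF.cons (PF.leaf (nat_lit 4514174) (nat_lit 545336)
 (nat_lit 53281507) (nat_lit 4438281) [(nat_lit 545336), (nat_lit 0), (nat_lit 6662340)]) (PF.cons (PF.leaf (nat_lit 4888839) (nat_lit 561498) (nat_lit 52580430) (nat_lit 4471411) [(nat_lit 561498), (nat_lit 0), (nat_lit 6687981)]) (PF.cons (PF.leaf (nat_lit 5274983) (nat_lit 576248) (nat_lit 51864791) (nat_lit 4500988) [(nat_lit 576248), (nat_lit 0), (nat_lit 6709291)]) (PF.cons (PF.leaf (nat_lit 5670775) (nat_lit 589699) (nat_lit 51138160) (nat_lit 4526907) [(nat_lit 589699), (nat_lit 0), (nat_lit 6726146)]) (PF.cons (PF.leaf (nat_lit 6074636) (nat_lit 601944) (nat_lit 50403662) (nat_lit 4549139) [(nat_lit 601944), (nat_lit 0), (nat_lit 6738512)]) (PF.cons (PF.leaf (nat_lit 6485018) (nat_lit 613062) (nat_lit 49664053) (nat_lit 4567710) [(nat_lit 613062),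 (nat_lit 0), (nat_lit 6746426)]) (PF.cons (PF.leaf (nat_lit 6900624) (nat_lit 623125) (nat_lit 48921767) (nat_lit 4582690) [(nat_lit 623125), (nat_lit 0), (nat_lit 6749980)]) (PF.cons (PF.leaf (nat_lit 7320229) (nat_lit 632197) (nat_lit 48178960) (nat_lit 4594182) [(nat_lit 632197), (nat_lit 0), (nat_lit 6749303)]) (PF.cons (PF.leaf (nat_lit 7742718) (nat_lit 640338) (nat_lit 47437537) (nat_lit 4602313) [(nat_lit 640338),
 (nat_lit 0), (nat_lit 6744558)]) (PF.cons (PF.leaf (nat_lit 8167091) (nat_lit 647605) (nat_lit 46699178) (nat_lit 4607226) [(nat_lit 647605), (nat_lit 0), (nat_lit 6735931)]) (PF.cons PF.nil (PF.cons PF.nil (PF.cons PF.nil PF.nil)))))))))))))))))) (PF.cons (PF.cons (PF.leaf (nat_lit 3799424) (nat_lit 2123492) (nat_lit 53989653) (nat_lit 4380935) [(nat_lit 0), (nat_lit 2123492), (nat_lit 6614731)]) (PF.cons (PF.leaf (nat_lit 4118710) (nat_lit 520723) (nat_lit 53374180) (nat_lit 4415101) [(nat_lit 520723), (nat_lit 2156365), (nat_lit 6642443)]) (PF.cons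 (PF.leaf (nat_lit 4457751) (nat_lit 539201) (nat_lit 52728375) (nat_lit 4447179) [(nat_lit 539201), (nat_lit 2187504), (nat_lit 6667350)]) (PF.cons (PF.leaf (nat_lit 4812908) (nat_lit 555887) (nat_lit 52059076) (nat_lit 4476616) [(nat_lit 555887), (nat_lit 2216579), (nat_lit 6688878)]) (PF.cons (PF.leaf (nat_lit 5181551) (nat_lit 571007) (nat_lit 51371644) (nat_lit 4503065) [(nat_lit 571007), (nat_lit 2243408), (nat_lit 6706662)]) (PF.cons (PF.leaf (nat_lit 5561477) (nat_lit 584727) (nat_lit 50670465) (nat_lit 4526318) [(nat_lit 584727), (nat_lit 2267904), (nat_lit 6720487)]) (PF.cons (PF.leaf (nat_lit 5950772) (nat_lit 597172)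
 (nat_lit 49959219) (nat_lit 4546270) [(nat_lit 597172), (nat_lit 2290038), (nat_lit 6730248)]) (PF.cons (PF.leaf (nat_lit 6347806) (nat_lit 608445) (nat_lit 49241054) (nat_lit 4562889) [(nat_lit 608445), (nat_lit 2309824), (nat_lit 6735925)]) (PF.cons (PF.leaf (nat_lit 6751071) (nat_lit 618631) (nat_lit 48518691) (nat_lit 4576199) [(nat_lit 618631), (nat_lit 2327306), (nat_lit 6737562)]) (PF.cons (PF.leaf (nat_lit 7159248) (nat_lit 627805) (nat_lit 47794497) (nat_lit 4586265) [(nat_lit 627805), (nat_lit 2342546), (nat_lit 6735252)]) (PF.cons (PF.leaf (nat_lit 7571154) (nat_lit 636034) (nat_lit 47070539) (nat_lit 4593181) [(nat_lit 636034), (nat_lit 2355624), (nat_lit 6729122)]) (PF.cons (PF.leaf (nat_lit 7985714) (nat_lit 643378) (nat_lit 46348624) (nat_lit 4597064) [(nat_lit 643378), (nat_lit 2366627), (nat_lit 6719329)]) (PF.cons (PF.leaf (nat_lit 8401962) (nat_lit 649894) (nat_lit 45630330) (nat_lit 4598046) [(nat_lit 649894), (nat_lit 2375649), (nat_lit 6706046)])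 (PF.cons PF.nil (PF.cons PF.nil (PF.cons PF.nil PF.nil)))))))))))))))) (PF.cons (PF.cons (PF.leaf (nat_lit 4758931) (nat_lit 2219476) (nat_lit 51498916) (nat_lit 4481965) [(nat_lit 0), (nat_lit 2219476), (nat_lit
 6688977)]) (PF.cons (PF.leaf (nat_lit 5106028) (nat_lit 564358) (nat_lit 50847714) (nat_lit 4505065) [(nat_lit 564358), (nat_lit 2244255), (nat_lit 6703164)]) (PF.cons (PF.leaf (nat_lit 5467331) (nat_lit 578635) (nat_lit 50177894) (nat_lit 4525523) [(nat_lit 578635), (nat_lit 2267088), (nat_lit 6713946)]) (PF.cons (PF.leaf (nat_lit 5840042) (nat_lit 591491) (nat_lit 49494381) (nat_lit 4543122) [(nat_lit 591491), (nat_lit 2287855), (nat_lit 6721123)]) (PF.cons (PF.leaf (nat_lit 6222102) (nat_lit 603076) (nat_lit 48801139) (nat_lit 4557751) [(nat_lit 603076), (nat_lit 2306506), (nat_lit 6724603)]) (PF.cons (PF.leaf (nat_lit 6611758) (nat_lit 613506) (nat_lit 48101449) (nat_lit 4569375) [(nat_lit 613506), (nat_lit 2323040), (nat_lit 6724373)]) (PF.cons (PF.leaf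 (nat_lit 7007505) (nat_lit 622877) (nat_lit 47398077) (nat_lit 4578012) [(nat_lit 622877), (nat_lit 2337487), (nat_lit 6720483)]) (PF.cons (PF.leaf (nat_lit 7407994) (nat_lit 631269) (nat_lit 46693379) (nat_lit 4583719) [(nat_lit 631269), (nat_lit 2349900), (nat_lit 6713022)]) (PF.cons (PF.leaf (nat_lit 7812039) (nat_lit 638753) (nat_lit 45989382) (nat_lit 4586585) [(nat_lit 638753), (nat_lit 2360348), (nat_lit 6702116)])
 (PF.cons (PF.leaf (nat_lit 8218613) (nat_lit 645392) (nat_lit 45287833) (nat_lit 4586716) [(nat_lit 645392), (nat_lit 2368909), (nat_lit 6687912)]) (PF.cons (PF.leaf (nat_lit 8626750) (nat_lit 651242) (nat_lit 44590239) (nat_lit 4584234) [(nat_lit 651242), (nat_lit 2375669), (nat_lit 6670574)]) (PF.cons (PF.leaf (nat_lit 9035599) (nat_lit 656356) (nat_lit 43897902) (nat_lit 4579270) [(nat_lit 656356), (nat_lit 2380718), (nat_lit 6650277)]) (PF.cons PF.nil (PF.cons PF.nil PF.nil)))))))))))))) (PF.cons (PF.cons (PF.leaf (nat_lit 5747462) (nat_lit 2285740)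 (nat_lit 49000846) (nat_lit 4539740) [(nat_lit 0), (nat_lit 2285740), (nat_lit 6711004)]) (PF.cons (PF.leaf (nat_lit 6111588) (nat_lit 596657) (nat_lit 48338079) (nat_lit 4552304) [(nat_lit 596657), (nat_lit 2303147), (nat_lit 6712329)]) (PF.cons (PF.leaf (nat_lit 6485604) (nat_lit 607528) (nat_lit 47665257) (nat_lit 4562205) [(nat_lit 607528), (nat_lit 2318667), (nat_lit 6710290)]) (PF.cons (PF.leaf (nat_lit 6867328) (nat_lit 617243) (nat_lit 46985950) (nat_lit 4569400) [(nat_lit 617243), (nat_lit 2332283), (nat_lit 6704882)]) (PF.cons (PF.leaf (nat_lit 7255147) (nat_lit 625912) (nat_lit 46303071) (nat_lit 4573901) [(nat_lit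
 625912), (nat_lit 2344011), (nat_lit 6696155)]) (PF.cons (PF.leaf (nat_lit 7647682) (nat_lit 633625) (nat_lit 45619042) (nat_lit 4575759) [(nat_lit 633625), (nat_lit 2353894), (nat_lit 6684199)]) (PF.cons (PF.leaf (nat_lit 8043725) (nat_lit 640457) (nat_lit 44935899) (nat_lit 4575053) [(nat_lit 640457), (nat_lit 2361992), (nat_lit 6669134)]) (PF.cons (PF.leaf (nat_lit 8442217) (nat_lit 646476) (nat_lit 44255373) (nat_lit 4571881) [(nat_lit 646476), (nat_lit 2368374), (nat_lit 6651100)]) (PF.cons (PF.leaf (nat_lit 8842251) (nat_lit 651739) (nat_lit 43578934) (nat_lit 4566355) [(nat_lit 651739), (nat_lit 2373118), (nat_lit 6630252)]) (PF.cons (PF.leaf (nat_lit 9242963) (nat_lit 656301) (nat_lit 42907837) (nat_lit 4558595) [(nat_lit 656301), (nat_lit 2376305), (nat_lit 6606752)]) (PF.cons PF.nil (PF.cons PF.nil PF.nil)))))))))))) (PF.cons (PF.cons (PF.leaf (nat_lit 6742476) (nat_lit 2326971) (nat_lit 46552264) (nat_lit 4560392) [(nat_lit 0), (nat_lit 2326971), (nat_lit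 6688270)]) (PF.cons (PF.leaf (nat_lit 7115366) (nat_lit 619752) (nat_lit 45895126) (nat_lit 4563680) [(nat_lit 619752), (nat_lit 2337972), (nat_lit 6678363)]) (PF.cons (PF.leaf (nat_lit 7494811) (nat_lit 627832)
 (nat_lit 45234090) (nat_lit 4564539) [(nat_lit 627832), (nat_lit 2347269), (nat_lit 6665440)]) (PF.cons (PF.leaf (nat_lit 7879094) (nat_lit 634965) (nat_lit 44571736) (nat_lit 4563011) [(nat_lit 634965), (nat_lit 2354894), (nat_lit 6649591)]) (PF.cons (PF.leaf (nat_lit 8266955) (nat_lit 641235) (nat_lit 43910180) (nat_lit 4559169) [(nat_lit 641235), (nat_lit 2360896), (nat_lit 6630933)]) (PF.cons (PF.leaf (nat_lit 8657305) (nat_lit 646715) (nat_lit 43251181) (nat_lit 4553103) [(nat_lit 646715), (nat_lit 2365338), (nat_lit 6609598)]) (PF.cons (PF.leaf (nat_lit 9049223) (nat_lit 651465) (nat_lit 42596212) (nat_lit 4544914) [(nat_lit 651465), (nat_lit 2368289), (nat_lit 6585732)]) (PF.cons (PF.leaf (nat_lit 9441855) (nat_lit 655543) (nat_lit 41946511) (nat_lit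 4534715) [(nat_lit 655543), (nat_lit 2369823), (nat_lit 6559489)]) (PF.cons PF.nil (PF.cons PF.nil PF.nil)))))))))) (PF.cons (PF.cons (PF.leaf (nat_lit 7727610) (nat_lit 2347611) (nat_lit 44191135) (nat_lit 4550520) [(nat_lit 0), (nat_lit 2347611), (nat_lit 6629100)]) (PF.cons (PF.leaf (nat_lit 8103064) (nat_lit 635368) (nat_lit 43551372) (nat_lit 4546034) [(nat_lit 635368), (nat_lit 2353224), (nat_lit 6609915)]) (PF.cons
 (PF.leaf (nat_lit 8482528) (nat_lit 641164) (nat_lit 42912031) (nat_lit 4539454) [(nat_lit 641164), (nat_lit 2357363), (nat_lit 6588180)]) (PF.cons (PF.leaf (nat_lit 8864629) (nat_lit 646183) (nat_lit 42274959) (nat_lit 4530865) [(nat_lit 646183), (nat_lit 2360082), (nat_lit 6564027)]) (PF.cons (PF.leaf (nat_lit 9248409) (nat_lit 650492) (nat_lit 41641674) (nat_lit 4520360) [(nat_lit 650492), (nat_lit 2361442), (nat_lit 6537592)]) (PF.cons (PF.leaf (nat_lit 9633001) (nat_lit 654150) (nat_lit 41013430) (nat_lit 4508043) [(nat_lit 654150), (nat_lit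 2361512), (nat_lit 6509022)]) (PF.cons PF.nil (PF.cons PF.nil PF.nil)))))))) (PF.cons (PF.cons (PF.leaf (nat_lit 8691460) (nat_lit 2351662) (nat_lit 41941003) (nat_lit 4516367) [(nat_lit 0), (nat_lit 2351662), (nat_lit 6541466)]) (PF.cons (PF.leaf (nat_lit 9064949) (nat_lit 644944) (nat_lit 41326198) (nat_lit 4505595) [(nat_lit 644944), (nat_lit 2352856), (nat_lit 6514935)]) (PF.cons (PF.leaf (nat_lit 9440527) (nat_lit 648880) (nat_lit 40714749) (nat_lit 4493089) [(nat_lit 648880), (nat_lit 2352811), (nat_lit 6486341)]) (PF.cons (PF.leaf (nat_lit 9817094) (nat_lit 652180) (nat_lit 40107965) (nat_lit 4478946) [(nat_lit 652180), (nat_lit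
 2351589), (nat_lit 6455821)]) (PF.cons (PF.leaf (nat_lit 10193895) (nat_lit 654897) (nat_lit 39506916) (nat_lit 4463264) [(nat_lit 654897), (nat_lit 2349254), (nat_lit 6423514)]) (PF.cons PF.nil PF.nil)))))) (PF.cons (PF.cons (PF.leaf (nat_lit 9626503) (nat_lit 2342602) (nat_lit 39814719) (nat_lit 4463451) [(nat_lit 0), (nat_lit 2342602), (nat_lit 6432424)]) (PF.cons (PF.leaf (nat_lit 9994812) (nat_lit 649682) (nat_lit 39229367) (nat_lit 4447748) [(nat_lit 649682), (nat_lit 2340245), (nat_lit 6400298)]) (PF.cons (PF.leaf (nat_lit 10363771) (nat_lit 652113) (nat_lit 38649279) (nat_lit 4430653) [(nat_lit 652113), (nat_lit 2336870), (nat_lit 6366560)]) (PF.cons PF.nil PF.nil)))) (PF.cons (PF.cons (PF.leaf (nat_lit 10528139) (nat_lit 2323366) (nat_lit 37817497) (nat_lit 4396449) [(nat_lit 0), (nat_lit 2323366), (nat_lit 6307931)]) (PF.cons PF.nil PF.nil)) (PF.cons PF.nil (PF.cons PF.nil PF.nil))))))))))) (PF.cons (PF.cons (PF.cons (PF.leaf (nat_lit 4802040) (nat_lit 4440222)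 (nat_lit 49429013) (nat_lit 4440222) [(nat_lit 0), (nat_lit 0), (nat_lit 6619788)]) (PF.cons (PF.leaf (nat_lit 5119276) (nat_lit 543036) (nat_lit 48853266) (nat_lit 4458035) [(nat_lit 543036), (nat_lit 0),
 (nat_lit 6627237)]) (PF.cons (PF.leaf (nat_lit 5453727) (nat_lit 558921) (nat_lit 48253148) (nat_lit 4473826) [(nat_lit 558921), (nat_lit 0), (nat_lit 6631997)]) (PF.cons (PF.leaf (nat_lit 5801789) (nat_lit 572947) (nat_lit 47635037) (nat_lit 4487298) [(nat_lit 572947), (nat_lit 0), (nat_lit 6633817)]) (PF.cons (PF.leaf (nat_lit 6160956) (nat_lit 585401) (nat_lit 47003802) (nat_lit 4498281) [(nat_lit 585401), (nat_lit 0), (nat_lit 6632562)]) (PF.cons (PF.leaf (nat_lit 6529135) (nat_lit 596488) (nat_lit 46363312) (nat_lit 4506696) [(nat_lit 596488), (nat_lit 0), (nat_lit 6628179)]) (PF.cons (PF.leaf (nat_lit 6904624) (nat_lit 606365) (nat_lit 45716734) (nat_lit 4512525) [(nat_lit 606365), (nat_lit 0), (nat_lit 6620679)]) (PF.cons (PF.leaf (nat_lit 7285936) (nat_lit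 615154) (nat_lit 45066702) (nat_lit 4515796) [(nat_lit 615154), (nat_lit 0), (nat_lit 6610117)]) (PF.cons (PF.leaf (nat_lit 7671781) (nat_lit 622956) (nat_lit 44415437) (nat_lit 4516565) [(nat_lit 622956), (nat_lit 0), (nat_lit 6596580)]) (PF.cons (PF.leaf (nat_lit 8061030) (nat_lit 629855) (nat_lit 43764828) (nat_lit 4514916) [(nat_lit 629855), (nat_lit 0), (nat_lit 6580183)]) (PF.cons (PF.leaf (nat_lit 8452704)
 (nat_lit 635926) (nat_lit 43116488) (nat_lit 4510945) [(nat_lit 635926), (nat_lit 0), (nat_lit 6561056)]) (PF.cons (PF.leaf (nat_lit 8845892) (nat_lit 641233) (nat_lit 42471798) (nat_lit 4504762) [(nat_lit 641233), (nat_lit 0), (nat_lit 6539342)]) (PF.cons (PF.leaf (nat_lit 9239807) (nat_lit 645833) (nat_lit 41831941) (nat_lit 4496481) [(nat_lit 645833), (nat_lit 0), (nat_lit 6515191)]) (PF.cons PF.nil (PF.cons PF.nil (PF.cons PF.nil PF.nil)))))))))))))))) (PF.cons (PF.cons (PF.leaf (nat_lit 5725535) (nat_lit 2250076) (nat_lit 47136012) (nat_lit 4481875) [(nat_lit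 0), (nat_lit 2250076), (nat_lit 6620424)]) (PF.cons (PF.leaf (nat_lit 6064289) (nat_lit 577186) (nat_lit 46539370) (nat_lit 4491014) [(nat_lit 577186), (nat_lit 2266282), (nat_lit 6617479)]) (PF.cons (PF.leaf (nat_lit 6415085) (nat_lit 589063) (nat_lit 45928615) (nat_lit 4497922) [(nat_lit 589063), (nat_lit 2280753), (nat_lit 6611696)]) (PF.cons (PF.leaf (nat_lit 6775300) (nat_lit 599546) (nat_lit 45308131) (nat_lit 4502514) [(nat_lit 599546), (nat_lit 2293449), (nat_lit 6603039)]) (PF.cons (PF.leaf (nat_lit 7143013) (nat_lit 608813) (nat_lit 44681360) (nat_lit 4504767) [(nat_lit 608813), (nat_lit 2304376), (nat_lit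
 6591526)]) (PF.cons (PF.leaf (nat_lit 7516651) (nat_lit 617004) (nat_lit 44051085) (nat_lit 4504702) [(nat_lit 617004), (nat_lit 2313569), (nat_lit 6577217)]) (PF.cons (PF.leaf (nat_lit 7894865) (nat_lit 624225) (nat_lit 43419596) (nat_lit 4502372) [(nat_lit 624225), (nat_lit 2321080), (nat_lit 6560203)]) (PF.cons (PF.leaf (nat_lit 8276491) (nat_lit 630569) (nat_lit 42788805) (nat_lit 4497852) [(nat_lit 630569), (nat_lit 2326976), (nat_lit 6540594)]) (PF.cons (PF.leaf (nat_lit 8660556) (nat_lit 636112) (nat_lit 42160319) (nat_lit 4491231) [(nat_lit 636112), (nat_lit 2331328), (nat_lit 6518516)]) (PF.cons (PF.leaf (nat_lit 9046131) (nat_lit 640919) (nat_lit 41535498) (nat_lit 4482610) [(nat_lit 640919), (nat_lit 2334214), (nat_lit 6494105)]) (PF.cons (PF.leaf (nat_lit 9432453) (nat_lit 645050) (nat_lit 40915492) (nat_lit 4472096) [(nat_lit 645050), (nat_lit 2335712), (nat_lit 6467502)]) (PF.cons PF.nil (PF.cons PF.nil (PF.cons PF.nil PF.nil)))))))))))))) (PF.cons (PF.cons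 (PF.leaf (nat_lit 6664486) (nat_lit 2287184) (nat_lit 44873949) (nat_lit 4492067) [(nat_lit 0), (nat_lit 2287184), (nat_lit 6584213)]) (PF.cons (PF.leaf (nat_lit 7015604) (nat_lit 601402) (nat_lit 44275413)
 (nat_lit 4493298) [(nat_lit 601402), (nat_lit 2297474), (nat_lit 6571874)]) (PF.cons (PF.leaf (nat_lit 7374947) (nat_lit 610187) (nat_lit 43669869) (nat_lit 4492410) [(nat_lit 610187), (nat_lit 2306174), (nat_lit 6556904)]) (PF.cons (PF.leaf (nat_lit 7740503) (nat_lit 617885) (nat_lit 43060385) (nat_lit 4489419) [(nat_lit 617885), (nat_lit 2313304), (nat_lit 6539371)]) (PF.cons (PF.leaf (nat_lit 8110824) (nat_lit 624620) (nat_lit 42449411) (nat_lit 4484372) [(nat_lit 624620), (nat_lit 2318906), (nat_lit 6519366)]) (PF.cons (PF.leaf (nat_lit 8484681) (nat_lit 630490) (nat_lit 41838941) (nat_lit 4477340) [(nat_lit 630490), (nat_lit 2323037), (nat_lit 6497002)]) (PF.cons (PF.leaf (nat_lit 8861057) (nat_lit 635578) (nat_lit 41230623) (nat_lit 4468404) [(nat_lit 635578),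 (nat_lit 2325759), (nat_lit 6472398)]) (PF.cons (PF.leaf (nat_lit 9239016) (nat_lit 639952) (nat_lit 40625827) (nat_lit 4457658) [(nat_lit 639952), (nat_lit 2327143), (nat_lit 6445686)]) (PF.cons (PF.leaf (nat_lit 9617791) (nat_lit 643673) (nat_lit 40025700) (nat_lit 4445201) [(nat_lit 643673), (nat_lit 2327260), (nat_lit 6416999)]) (PF.cons PF.nil (PF.cons PF.nil (PF.cons PF.nil PF.nil)))))))))))) (PF.cons (PF.cons
 (PF.leaf (nat_lit 7601584) (nat_lit 2305332) (nat_lit 42681976) (nat_lit 4475959) [(nat_lit 0), (nat_lit 2305332), (nat_lit 6517439)]) (PF.cons (PF.leaf (nat_lit 7958319) (nat_lit 617862) (nat_lit 42094307) (nat_lit 4470420) [(nat_lit 617862), (nat_lit 2310627), (nat_lit 6497169)]) (PF.cons (PF.leaf (nat_lit 8320418) (nat_lit 624203) (nat_lit 41504539) (nat_lit 4463011) [(nat_lit 624203), (nat_lit 2314533), (nat_lit 6474628)]) (PF.cons (PF.leaf (nat_lit 8686303) (nat_lit 629680) (nat_lit 40914833) (nat_lit 4453794) [(nat_lit 629680), (nat_lit 2317096),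 (nat_lit 6449927)]) (PF.cons (PF.leaf (nat_lit 9054883) (nat_lit 634383) (nat_lit 40326931) (nat_lit 4442849) [(nat_lit 634383), (nat_lit 2318373), (nat_lit 6423188)]) (PF.cons (PF.leaf (nat_lit 9425191) (nat_lit 638388) (nat_lit 39742254) (nat_lit 4430263) [(nat_lit 638388), (nat_lit 2318426), (nat_lit 6394536)]) (PF.cons (PF.leaf (nat_lit 9796450) (nat_lit 641758) (nat_lit 39161972) (nat_lit 4416126) [(nat_lit 641758), (nat_lit 2317320), (nat_lit 6364101)]) (PF.cons PF.nil (PF.cons PF.nil (PF.cons PF.nil PF.nil)))))))))) (PF.cons (PF.cons (PF.leaf (nat_lit 8524666) (nat_lit 2308197) (nat_lit 40584393) (nat_lit 4438678) [(nat_lit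
 0), (nat_lit 2308197), (nat_lit 6426475)]) (PF.cons (PF.leaf (nat_lit 8882084) (nat_lit 628190) (nat_lit 40015885) (nat_lit 4427581) [(nat_lit 628190), (nat_lit 2309374), (nat_lit 6399829)]) (PF.cons (PF.leaf (nat_lit 9242716) (nat_lit 632580) (nat_lit 39448620) (nat_lit 4414907) [(nat_lit 632580), (nat_lit 2309374), (nat_lit 6371313)]) (PF.cons (PF.leaf (nat_lit 9605318) (nat_lit 636278) (nat_lit 38884120) (nat_lit 4400739) [(nat_lit 636278), (nat_lit 2308252), (nat_lit 6341053)]) (PF.cons (PF.leaf (nat_lit 9969039) (nat_lit 639350) (nat_lit 38323616) (nat_lit 4385163) [(nat_lit 639350), (nat_lit 2306070), (nat_lit 6309173)]) (PF.cons (PF.leaf (nat_lit 10333153) (nat_lit 641856) (nat_lit 37768110) (nat_lit 4368269) [(nat_lit 641856), (nat_lit 2302887), (nat_lit 6275799)]) (PF.cons PF.nil (PF.cons PF.nil PF.nil)))))))) (PF.cons (PF.cons (PF.leaf (nat_lit 9425467) (nat_lit 2298944) (nat_lit 38594921) (nat_lit 4384876) [(nat_lit 0), (nat_lit 2298944), (nat_lit 6317146)])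 (PF.cons (PF.leaf (nat_lit 9780016) (nat_lit 633661) (nat_lit 38050659) (nat_lit 4369365) [(nat_lit 633661), (nat_lit 2296792), (nat_lit 6285582)]) (PF.cons (PF.leaf (nat_lit 10136164) (nat_lit 636491) (nat_lit
 37509857) (nat_lit 4352570) [(nat_lit 636491), (nat_lit 2293664), (nat_lit 6252538)]) (PF.cons (PF.leaf (nat_lit 10492925) (nat_lit 638762) (nat_lit 36973583) (nat_lit 4334575) [(nat_lit 638762), (nat_lit 2289619), (nat_lit 6218135)]) (PF.cons PF.nil (PF.cons PF.nil PF.nil)))))) (PF.cons (PF.cons (PF.leaf (nat_lit 10298647) (nat_lit 2280242) (nat_lit 36719839) (nat_lit 4318571) [(nat_lit 0), (nat_lit 2280242), (nat_lit 6194474)]) (PF.cons (PF.leaf (nat_lit 10647817) (nat_lit 635296) (nat_lit 36202627) (nat_lit 4299660) [(nat_lit 635296), (nat_lit 2275445), (nat_lit 6159277)]) (PF.cons PF.nil (PF.cons PF.nil PF.nil)))) (PF.cons (PF.cons (PF.leaf (nat_lit 11141027) (nat_lit 2254302) (nat_lit 34960312) (nat_lit 4243115) [(nat_lit 0), (nat_lit 2254302), (nat_lit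 6062632)]) (PF.cons PF.nil PF.nil)) (PF.cons PF.nil (PF.cons PF.nil PF.nil)))))))))) (PF.cons (PF.cons (PF.cons (PF.leaf (nat_lit 6594968) (nat_lit 4419710) (nat_lit 43262920) (nat_lit 4419710) [(nat_lit 0), (nat_lit 0), (nat_lit 6475394)]) (PF.cons (PF.leaf (nat_lit 6923086) (nat_lit 580375) (nat_lit 42723889) (nat_lit 4419612) [(nat_lit 580375), (nat_lit 0), (nat_lit 6461645)]) (PF.cons (PF.leaf (nat_lit 7261668) (nat_lit
 590384) (nat_lit 42173830) (nat_lit 4417632) [(nat_lit 590384), (nat_lit 0), (nat_lit 6445527)]) (PF.cons (PF.leaf (nat_lit 7608193) (nat_lit 599051) (nat_lit 41616591) (nat_lit 4413764) [(nat_lit 599051), (nat_lit 0), (nat_lit 6427101)]) (PF.cons (PF.leaf (nat_lit 7960906) (nat_lit 606571) (nat_lit 41055143) (nat_lit 4408036) [(nat_lit 606571), (nat_lit 0), (nat_lit 6406448)]) (PF.cons (PF.leaf (nat_lit 8318376) (nat_lit 613092) (nat_lit 40491845) (nat_lit 4400503) [(nat_lit 613092), (nat_lit 0), (nat_lit 6383666)]) (PF.cons (PF.leaf (nat_lit 8679415)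 (nat_lit 618730) (nat_lit 39928607) (nat_lit 4391233) [(nat_lit 618730), (nat_lit 0), (nat_lit 6358862)]) (PF.cons (PF.leaf (nat_lit 9042984) (nat_lit 623579) (nat_lit 39366997) (nat_lit 4380305) [(nat_lit 623579), (nat_lit 0), (nat_lit 6332150)]) (PF.cons (PF.leaf (nat_lit 9408230) (nat_lit 627718) (nat_lit 38808314) (nat_lit 4367805) [(nat_lit 627718), (nat_lit 0), (nat_lit 6303649)]) (PF.cons (PF.leaf (nat_lit 9774365) (nat_lit 631211) (nat_lit 38253638) (nat_lit 4353823) [(nat_lit 631211), (nat_lit 0), (nat_lit 6273481)]) (PF.cons PF.nil (PF.cons PF.nil PF.nil)))))))))))) (PF.cons (PF.cons (PF.leaf (nat_lit 7484460) (nat_lit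
 2260987) (nat_lit 41237179) (nat_lit 4399398) [(nat_lit 0), (nat_lit 2260987), (nat_lit 6403748)]) (PF.cons (PF.leaf (nat_lit 7821853) (nat_lit 598663) (nat_lit 40701182) (nat_lit 4393321) [(nat_lit 598663), (nat_lit 2266348), (nat_lit 6383098)]) (PF.cons (PF.leaf (nat_lit 8166265) (nat_lit 605874) (nat_lit 40160071) (nat_lit 4385538) [(nat_lit 605874), (nat_lit 2270361), (nat_lit 6360364)]) (PF.cons (PF.leaf (nat_lit 8515846) (nat_lit 612068) (nat_lit 39616481) (nat_lit 4376099) [(nat_lit 612068), (nat_lit 2273071), (nat_lit 6335651)]) (PF.cons (PF.leaf (nat_lit 8869272) (nat_lit 617376) (nat_lit 39072483) (nat_lit 4365070) [(nat_lit 617376), (nat_lit 2274530), (nat_lit 6309073)]) (PF.cons (PF.leaf (nat_lit 9225442) (nat_lit 621901) (nat_lit 38529739) (nat_lit 4352528) [(nat_lit 621901), (nat_lit 2274801), (nat_lit 6280745)]) (PF.cons (PF.leaf (nat_lit 9583466) (nat_lit 625726) (nat_lit 37989602) (nat_lit 4338553) [(nat_lit 625726), (nat_lit 2273946), (nat_lit 6250783)])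 (PF.cons (PF.leaf (nat_lit 9942525) (nat_lit 628921) (nat_lit 37453181) (nat_lit 4323231) [(nat_lit 628921), (nat_lit 2272031), (nat_lit 6219306)]) (PF.cons PF.nil (PF.cons PF.nil PF.nil)))))))))) (PF.cons
 (PF.cons (PF.leaf (nat_lit 8367552) (nat_lit 2263680) (nat_lit 39287201) (nat_lit 4360380) [(nat_lit 0), (nat_lit 2263680), (nat_lit 6311290)]) (PF.cons (PF.leaf (nat_lit 8708574) (nat_lit 610366) (nat_lit 38763920) (nat_lit 4349312) [(nat_lit 610366), (nat_lit 2265104), (nat_lit 6285001)]) (PF.cons (PF.leaf (nat_lit 9054121) (nat_lit 615423) (nat_lit 38239502) (nat_lit 4336781) [(nat_lit 615423), (nat_lit 2265381), (nat_lit 6256973)]) (PF.cons (PF.leaf (nat_lit 9402747) (nat_lit 619690) (nat_lit 37715777) (nat_lit 4322860) [(nat_lit 619690), (nat_lit 2264566), (nat_lit 6227324)]) (PF.cons (PF.leaf (nat_lit 9753460) (nat_lit 623259) (nat_lit 37194196) (nat_lit 4307627) [(nat_lit 623259), (nat_lit 2262716), (nat_lit 6196173)]) (PF.cons (PF.leaf (nat_lit 10105429)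 (nat_lit 626205) (nat_lit 36675931) (nat_lit 4291163) [(nat_lit 626205), (nat_lit 2259891), (nat_lit 6163635)]) (PF.cons (PF.leaf (nat_lit 10457936) (nat_lit 628591) (nat_lit 36161933) (nat_lit 4273550) [(nat_lit 628591), (nat_lit 2256151), (nat_lit 6129825)]) (PF.cons PF.nil PF.nil)))))))) (PF.cons (PF.cons (PF.leaf (nat_lit 9234900) (nat_lit 2254913) (nat_lit 37428844) (nat_lit 4306620) [(nat_lit 0), (nat_lit 2254913),
 (nat_lit 6202869)]) (PF.cons (PF.leaf (nat_lit 9575512) (nat_lit 616977) (nat_lit 36924325) (nat_lit 4291538) [(nat_lit 616977), (nat_lit 2253146), (nat_lit 6172177)]) (PF.cons (PF.leaf (nat_lit 9918794) (nat_lit 620349) (nat_lit 36421326) (nat_lit 4275247) [(nat_lit 620349), (nat_lit 2250424), (nat_lit 6140089)]) (PF.cons (PF.leaf (nat_lit 10263609) (nat_lit 623096) (nat_lit 35921121) (nat_lit 4257825) [(nat_lit 623096), (nat_lit 2246803), (nat_lit 6106722)]) (PF.cons (PF.leaf (nat_lit 10609197) (nat_lit 625288) (nat_lit 35424728) (nat_lit 4239352)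 [(nat_lit 625288), (nat_lit 2242338), (nat_lit 6072188)]) (PF.cons PF.nil PF.nil)))))) (PF.cons (PF.cons (PF.leaf (nat_lit 10080290) (nat_lit 2237193) (nat_lit 35670133) (nat_lit 4241608) [(nat_lit 0), (nat_lit 2237193), (nat_lit 6082765)]) (PF.cons (PF.leaf (nat_lit 10417612) (nat_lit 619619) (nat_lit 35187923) (nat_lit 4223398) [(nat_lit 619619), (nat_lit 2232880), (nat_lit 6048782)]) (PF.cons (PF.leaf (nat_lit 10756226) (nat_lit 621660) (nat_lit 34708968) (nat_lit 4204219) [(nat_lit 621660), (nat_lit 2227786), (nat_lit 6013718)]) (PF.cons PF.nil PF.nil)))) (PF.cons (PF.cons (PF.leaf (nat_lit 10899781) (nat_lit 2212589) (nat_lit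
 34013801) (nat_lit 4168297) [(nat_lit 0), (nat_lit 2212589), (nat_lit 5954589)]) (PF.cons (PF.leaf (nat_lit 11231798) (nat_lit 619163) (nat_lit 33555723) (nat_lit 4147728) [(nat_lit 619163), (nat_lit 2206276), (nat_lit 5918271)]) PF.nil)) (PF.cons PF.nil (PF.cons PF.nil PF.nil)))))))) (PF.cons (PF.cons (PF.cons (PF.leaf (nat_lit 8222582) (nat_lit 4281626) (nat_lit 38042726) (nat_lit 4281626) [(nat_lit 0), (nat_lit 0), (nat_lit 6196115)]) (PF.cons (PF.leaf (nat_lit 8546379) (nat_lit 591156) (nat_lit 37564241) (nat_lit 4270914) [(nat_lit 591156), (nat_lit 0), (nat_lit 6170625)]) (PF.cons (PF.leaf (nat_lit 8876327) (nat_lit 597166) (nat_lit 37081840) (nat_lit 4258810) [(nat_lit 597166), (nat_lit 0), (nat_lit 6143457)]) (PF.cons (PF.leaf (nat_lit 9210682) (nat_lit 602228) (nat_lit 36597793) (nat_lit 4245383) [(nat_lit 602228), (nat_lit 0), (nat_lit 6114737)]) (PF.cons (PF.leaf (nat_lit 9548222) (nat_lit 606473) (nat_lit 36113866) (nat_lit 4230708) [(nat_lit 606473), (nat_lit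 0), (nat_lit 6084586)]) (PF.cons (PF.leaf (nat_lit 9887981) (nat_lit 610005) (nat_lit 35631460) (nat_lit 4214861) [(nat_lit 610005), (nat_lit 0), (nat_lit 6053115)]) (PF.cons (PF.leaf (nat_lit 10229120) (nat_lit
 612907) (nat_lit 35151703) (nat_lit 4197919) [(nat_lit 612907), (nat_lit 0), (nat_lit 6020436)]) (PF.cons (PF.leaf (nat_lit 10570961) (nat_lit 615247) (nat_lit 34675510) (nat_lit 4179958) [(nat_lit 615247), (nat_lit 0), (nat_lit 5986653)]) (PF.cons PF.nil (PF.cons PF.nil PF.nil)))))))))) (PF.cons (PF.cons (PF.leaf (nat_lit 9056416) (nat_lit 2210441) (nat_lit 36311025) (nat_lit 4228732) [(nat_lit 0), (nat_lit 2210441), (nat_lit 6089653)]) (PF.cons (PF.leaf (nat_lit 9382586) (nat_lit 599426) (nat_lit 35845358) (nat_lit 4214299) [(nat_lit 599426), (nat_lit 2209245), (nat_lit 6060120)]) (PF.cons (PF.leaf (nat_lit 9712677) (nat_lit 603523) (nat_lit 35379054) (nat_lit 4198702) [(nat_lit 603523), (nat_lit 2207091), (nat_lit 6029229)]) (PF.cons (PF.leaf (nat_lit 10045349)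 (nat_lit 606895) (nat_lit 34913675) (nat_lit 4182016) [(nat_lit 606895), (nat_lit 2204035), (nat_lit 5997099)]) (PF.cons (PF.leaf (nat_lit 10379700) (nat_lit 609633) (nat_lit 34450446) (nat_lit 4164318) [(nat_lit 609633), (nat_lit 2200134), (nat_lit 5963844)]) (PF.cons (PF.leaf (nat_lit 10714977) (nat_lit 611811) (nat_lit 33990351) (nat_lit 4145682) [(nat_lit 611811), (nat_lit 2195444), (nat_lit 5929569)]) (PF.cons
 PF.nil (PF.cons PF.nil PF.nil)))))))) (PF.cons (PF.cons (PF.leaf (nat_lit 9874098) (nat_lit 2194152) (nat_lit 34663881) (nat_lit 4165545) [(nat_lit 0), (nat_lit 2194152), (nat_lit 5972770)]) (PF.cons (PF.leaf (nat_lit 10199231) (nat_lit 603409) (nat_lit 34215596) (nat_lit 4148180) [(nat_lit 603409), (nat_lit 2190448), (nat_lit 5940182)]) (PF.cons (PF.leaf (nat_lit 10526658) (nat_lit 606032) (nat_lit 33768836) (nat_lit 4129871) [(nat_lit 606032), (nat_lit 2185957), (nat_lit 5906531)]) (PF.cons (PF.leaf (nat_lit 10855331) (nat_lit 608089) (nat_lit 33324683)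 (nat_lit 4110692) [(nat_lit 608089), (nat_lit 2180732), (nat_lit 5871925)]) (PF.cons PF.nil (PF.cons PF.nil PF.nil)))))) (PF.cons (PF.cons (PF.leaf (nat_lit 10670774) (nat_lit 2171171) (nat_lit 33106034) (nat_lit 4094703) [(nat_lit 0), (nat_lit 2171171), (nat_lit 5848639)]) (PF.cons (PF.leaf (nat_lit 10992476) (nat_lit 604096) (nat_lit 32677713) (nat_lit 4075103) [(nat_lit 604096), (nat_lit 2165490), (nat_lit 5813857)]) (PF.cons (PF.leaf (nat_lit 11315274) (nat_lit 605568) (nat_lit 32252317) (nat_lit 4054757) [(nat_lit 605568), (nat_lit 2159171), (nat_lit 5778271)]) (PF.cons PF.nil PF.nil)))) (PF.cons (PF.cons (PF.leaf (nat_lit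
 11443426) (nat_lit 2143119) (nat_lit 31638357) (nat_lit 4018407) [(nat_lit 0), (nat_lit 2143119), (nat_lit 5719892)]) (PF.cons PF.nil PF.nil)) (PF.cons PF.nil PF.nil)))))) (PF.cons (PF.cons (PF.cons (PF.leaf (nat_lit 9681260) (nat_lit 4090312) (nat_lit 33696563) (nat_lit 4090312) [(nat_lit 0), (nat_lit 0), (nat_lit 5864387)]) (PF.cons (PF.leaf (nat_lit 9993568) (nat_lit 586456) (nat_lit 33281536) (nat_lit 4073936) [(nat_lit 586456), (nat_lit 0), (nat_lit 5833376)]) (PF.cons (PF.leaf (nat_lit 10309379) (nat_lit 589827) (nat_lit 32866117) (nat_lit 4056617) [(nat_lit 589827), (nat_lit 0), (nat_lit 5801284)]) (PF.cons (PF.leaf (nat_lit 10627403) (nat_lit 592528) (nat_lit 32451650) (nat_lit 4038431) [(nat_lit 592528), (nat_lit 0), (nat_lit 5768228)]) (PF.cons (PF.leaf (nat_lit 10946819) (nat_lit 594651) (nat_lit 32039185) (nat_lit 4019450) [(nat_lit 594651), (nat_lit 0), (nat_lit 5734314)]) (PF.cons PF.nil PF.nil)))))) (PF.cons (PF.cons (PF.leaf (nat_lit 10454729) (nat_lit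 2129947) (nat_lit 32233347) (nat_lit 4022246) [(nat_lit 0), (nat_lit 2129947), (nat_lit 5744654)]) (PF.cons (PF.leaf (nat_lit 10765674) (nat_lit 588571) (nat_lit 31833964) (nat_lit 4003705) [(nat_lit 588571),
 (nat_lit 2124988), (nat_lit 5711516)]) (PF.cons (PF.leaf (nat_lit 11078663) (nat_lit 590638) (nat_lit 31435986) (nat_lit 3984412) [(nat_lit 590638), (nat_lit 2119371), (nat_lit 5677553)]) (PF.cons (PF.leaf (nat_lit 11392675) (nat_lit 592188) (nat_lit 31040342) (nat_lit 3964437) [(nat_lit 592188), (nat_lit 2113146), (nat_lit 5642864)]) PF.nil)))) (PF.cons (PF.cons (PF.leaf (nat_lit 11208424) (nat_lit 2103837) (nat_lit 30848993) (nat_lit 3949002) [(nat_lit 0), (nat_lit 2103837), (nat_lit 5620628)]) (PF.cons (PF.leaf (nat_lit 11515949) (nat_lit 587906) (nat_lit 30467215) (nat_lit 3928850) [(nat_lit 587906), (nat_lit 2097319), (nat_lit 5586040)]) PF.nil)) (PF.cons PF.nil PF.nil)))) (PF.cons (PF.cons (PF.cons (PF.leaf (nat_lit 10986634) (nat_lit 3880789) (nat_lit 30087990)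 (nat_lit 3880789) [(nat_lit 0), (nat_lit 0), (nat_lit 5523338)]) (PF.cons (PF.leaf (nat_lit 11284572) (nat_lit 573165) (nat_lit 29730949) (nat_lit 3861788) [(nat_lit 573165), (nat_lit 0), (nat_lit 5490484)]) (PF.cons (PF.leaf (nat_lit 11584387) (nat_lit 574814) (nat_lit 29375144) (nat_lit 3842178) [(nat_lit 574814), (nat_lit 0), (nat_lit 5456976)]) (PF.cons PF.nil PF.nil)))) (PF.cons (PF.cons (PF.leaf (nat_lit
 11702192) (nat_lit 2037010) (nat_lit 28853099) (nat_lit 3807313) [(nat_lit 0), (nat_lit 2037010), (nat_lit 5401898)]) (PF.cons PF.nil PF.nil)) PF.nil)) (PF.cons PF.nil (PF.cons PF.nil (PF.cons PF.nil (PF.cons PF.nil (PF.cons PF.nil PF.nil))))))))))))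

def p15_35_0_0 : pfC (piC [(nat_lit 37297016), (nat_lit 23751559), (nat_lit 15232604)] (nat_lit 17602610)) p15_35_0 (nat_lit 3) (nat_lit 0) (nat_lit 1) = true := by decide +kernel
def p15_35_0_1 : pfC (piC [(nat_lit 37297016), (nat_lit 23751559), (nat_lit 15232604)] (nat_lit 17602610)) p15_35_0 (nat_lit 3) (nat_lit 1) (nat_lit 2) = true := by decide +kernel
def p15_35_0_2 : pfC (piC [(nat_lit 37297016), (nat_lit 23751559), (nat_lit 15232604)] (nat_lit 17602610)) p15_35_0 (nat_lit 3) (nat_lit 2) (nat_lit 3) = true := by decide +kernel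
def p15_35_0_3 : pfC (piC [(nat_lit 37297016), (nat_lit 23751559), (nat_lit 15232604)] (nat_lit 17602610)) p15_35_0 (nat_lit 3) (nat_lit 3) (nat_lit 4) = true := by decide +kernel
def p15_35_0_4 : pfC (piC [(nat_lit 37297016), (nat_lit 23751559), (nat_lit 15232604)] (nat_lit 17602610)) p15_35_0 (nat_lit 3) (nat_lit 4) (nat_lit 5) = true := by decide +kernel
def p15_35_0_5 : pfC (piC [(nat_lit 37297016), (nat_lit 23751559), (nat_lit 15232604)] (nat_lit 17602610)) p15_35_0 (nat_lit 3) (nat_lit 5) (nat_lit 6) = true := by decide +kernel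
def p15_35_0_6 : pfC (piC [(nat_lit 37297016), (nat_lit 23751559), (nat_lit 15232604)] (nat_lit 17602610)) p15_35_0 (nat_lit 3) (nat_lit 6) (nat_lit 7) = true := by decide +kernel
def p15_35_0_7 : pfC (piC [(nat_lit 37297016), (nat_lit 23751559), (nat_lit 15232604)] (nat_lit 17602610)) p15_35_0 (nat_lit 3) (nat_lit 7) (nat_lit 8) = true := by decide +kernel
def p15_35_0_8 : pfC (piC [(nat_lit 37297016), (nat_lit 23751559), (nat_lit 15232604)] (nat_lit 17602610)) p15_35_0 (nat_lit 3) (nat_lit 8) (nat_lit 9) = true := by decide +kernel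
def p15_35_0_9 : pfC (piC [(nat_lit 37297016), (nat_lit 23751559), (nat_lit 15232604)] (nat_lit 17602610)) p15_35_0 (nat_lit 3) (nat_lit 9) (nat_lit 10) = true := by decide +kernel
def p15_35_0_10 : pfC (piC [(nat_lit 37297016), (nat_lit 23751559), (nat_lit 15232604)] (nat_lit 17602610)) p15_35_0 (nat_lit 3) (nat_lit 10) (nat_lit 11) = true := by decide +kernel
def p15_35_0_11 : pfC (piC [(nat_lit 37297016), (nat_lit 23751559), (nat_lit 15232604)] (nat_lit 17602610)) p15_35_0 (nat_lit 3) (nat_lit 11) (nat_lit 12) = true := by decide +kernel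
def p15_35_0_12 : pfC (piC [(nat_lit 37297016), (nat_lit 23751559), (nat_lit 15232604)] (nat_lit 17602610)) p15_35_0 (nat_lit 3) (nat_lit 12) (nat_lit 13) = true := by decide +kernel
def p15_35_0_13 : pfC (piC [(nat_lit 37297016), (nat_lit 23751559), (nat_lit 15232604)] (nat_lit 17602610)) p15_35_0 (nat_lit 3) (nat_lit 13) (nat_lit 14) = true := by decide +kernel
def p15_35_0_14 : pfC (piC [(nat_lit 37297016), (nat_lit 23751559), (nat_lit 15232604)] (nat_lit 17602610)) p15_35_0 (nat_lit 3) (nat_lit 14) (nat_lit 15) = true := by decide +kernel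
def p15_35_0_15 : pfC (piC [(nat_lit 37297016), (nat_lit 23751559), (nat_lit 15232604)] (nat_lit 17602610)) p15_35_0 (nat_lit 3) (nat_lit 15) (nat_lit 16) = true := by decide +kernel
def p15_35_0_16 : pfC (piC [(nat_lit 37297016), (nat_lit 23751559), (nat_lit 15232604)] (nat_lit 17602610)) p15_35_0 (nat_lit 3) (nat_lit 16) (nat_lit 17) = true := by decide +kernel
def p15_35_0_17 : pfC (piC [(nat_lit 37297016), (nat_lit 23751559), (nat_lit 15232604)] (nat_lit 17602610)) p15_35_0 (nat_lit 3) (nat_lit 17) (nat_lit 18) = true := by decide +kernel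
def p15_35_0_18 : pfC (piC [(nat_lit 37297016), (nat_lit 23751559), (nat_lit 15232604)] (nat_lit 17602610)) p15_35_0 (nat_lit 3) (nat_lit 18) (nat_lit 19) = true := by decide +kernel
def p15_35_0_19 : pfC (piC [(nat_lit 37297016), (nat_lit 23751559), (nat_lit 15232604)] (nat_lit 17602610)) p15_35_0 (nat_lit 3) (nat_lit 19) (nat_lit 20) = true := by decide +kernel
def p15_35_0_20 : pfC (piC [(nat_lit 37297016), (nat_lit 23751559), (nat_lit 15232604)] (nat_lit 17602610)) p15_35_0 (nat_lit 3) (nat_lit 20) (nat_lit 21) = true := by decide +kernel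
def p15_35_0_21 : pfC (piC [(nat_lit 37297016), (nat_lit 23751559), (nat_lit 15232604)] (nat_lit 17602610)) p15_35_0 (nat_lit 3) (nat_lit 21) (nat_lit 22) = true := by decide +kernel
def p15_35_0_22 : pfC (piC [(nat_lit 37297016), (nat_lit 23751559), (nat_lit 15232604)] (nat_lit 17602610)) p15_35_0 (nat_lit 3) (nat_lit 22) (nat_lit 23) = true := by decide +kernel
def p15_35_0_23 : pfC (piC [(nat_lit 37297016), (nat_lit 23751559), (nat_lit 15232604)] (nat_lit 17602610)) p15_35_0 (nat_lit 3) (nat_lit 23) (nat_lit 24) = true := by decide +kernel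
def p15_35_0_24 : pfC (piC [(nat_lit 37297016), (nat_lit 23751559), (nat_lit 15232604)] (nat_lit 17602610)) p15_35_0 (nat_lit 3) (nat_lit 24) (nat_lit 25) = true := by decide +kernel
def p15_35_0_25 : pfC (piC [(nat_lit 37297016), (nat_lit 23751559), (nat_lit 15232604)] (nat_lit 17602610)) p15_35_0 (nat_lit 3) (nat_lit 25) (nat_lit 26) = true := by decide +kernel
def p15_35_0_26 : pfC (piC [(nat_lit 37297016), (nat_lit 23751559), (nat_lit 15232604)] (nat_lit 17602610)) p15_35_0 (nat_lit 3) (nat_lit 26) (nat_lit 27) = true := by decide +kernel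
def p15_35_0_27 : pfC (piC [(nat_lit 37297016), (nat_lit 23751559), (nat_lit 15232604)] (nat_lit 17602610)) p15_35_0 (nat_lit 3) (nat_lit 27) (nat_lit 28) = true := by decide +kernel
def p15_35_0_28 : pfC (piC [(nat_lit 37297016), (nat_lit 23751559), (nat_lit 15232604)] (nat_lit 17602610)) p15_35_0 (nat_lit 3) (nat_lit 28) (nat_lit 29) = true := by decide +kernel
def p15_35_0_29 : pfC (piC [(nat_lit 37297016), (nat_lit 23751559), (nat_lit 15232604)] (nat_lit 17602610)) p15_35_0 (nat_lit 3) (nat_lit 29) (nat_lit 30) = true := by decide +kernel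
def p15_35_0_30 : pfC (piC [(nat_lit 37297016), (nat_lit 23751559), (nat_lit 15232604)] (nat_lit 17602610)) p15_35_0 (nat_lit 3) (nat_lit 30) (nat_lit 31) = true := by decide +kernel
def p15_35_0_31 : pfC (piC [(nat_lit 37297016), (nat_lit 23751559), (nat_lit 15232604)] (nat_lit 17602610)) p15_35_0 (nat_lit 3) (nat_lit 31) (nat_lit 32) = true := by decide +kernel
def p15_35_0_32 : pfC (piC [(nat_lit 37297016), (nat_lit 23751559), (nat_lit 15232604)] (nat_lit 17602610)) p15_35_0 (nat_lit 3) (nat_lit 32) (nat_lit 33) = true := by decide +kernel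
def p15_35_0_33 : pfC (piC [(nat_lit 37297016), (nat_lit 23751559), (nat_lit 15232604)] (nat_lit 17602610)) p15_35_0 (nat_lit 3) (nat_lit 33) (nat_lit 34) = true := by decide +kernel
def p15_35_0_34 : pfC (piC [(nat_lit 37297016), (nat_lit 23751559), (nat_lit 15232604)] (nat_lit 17602610)) p15_35_0 (nat_lit 3) (nat_lit 34) (nat_lit 35) = true := by decide +kernel
def p15_35_0_35 : pfC (piC [(nat_lit 37297016), (nat_lit 23751559), (nat_lit 15232604)] (nat_lit 17602610)) p15_35_0 (nat_lit 3) (nat_lit 35) (nat_lit 36) = true := by decide +kernel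
def p15_35_0_36 : pfC (piC [(nat_lit 37297016), (nat_lit 23751559), (nat_lit 15232604)] (nat_lit 17602610)) p15_35_0 (nat_lit 3) (nat_lit 36) (nat_lit 37) = true := by decide +kernel
def p15_35_0_37 : pfC (piC [(nat_lit 37297016), (nat_lit 23751559), (nat_lit 15232604)] (nat_lit 17602610)) p15_35_0 (nat_lit 3) (nat_lit 37) (nat_lit 38) = true := by decide +kernel
def p15_35_0_38 : pfC (piC [(nat_lit 37297016), (nat_lit 23751559), (nat_lit 15232604)] (nat_lit 17602610)) p15_35_0 (nat_lit 3) (nat_lit 38) (nat_lit 39) = true := by decide +kernel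
def p15_35_0_39 : pfC (piC [(nat_lit 37297016), (nat_lit 23751559), (nat_lit 15232604)] (nat_lit 17602610)) p15_35_0 (nat_lit 3) (nat_lit 39) (nat_lit 40) = true := by decide +kernel
def p15_35_0_40 : pfC (piC [(nat_lit 37297016), (nat_lit 23751559), (nat_lit 15232604)] (nat_lit 17602610)) p15_35_0 (nat_lit 3) (nat_lit 40) (nat_lit 41) = true := by decide +kernel
def p15_35_0_41 : pfC (piC [(nat_lit 37297016), (nat_lit 23751559), (nat_lit 15232604)] (nat_lit 17602610)) p15_35_0 (nat_lit 3) (nat_lit 41) (nat_lit 42) = true := by decide +kernel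
def p15_35_0_42 : pfC (piC [(nat_lit 37297016), (nat_lit 23751559), (nat_lit 15232604)] (nat_lit 17602610)) p15_35_0 (nat_lit 3) (nat_lit 42) (nat_lit 43) = true := by decide +kernel
def p15_35_0_43 : pfC (piC [(nat_lit 37297016), (nat_lit 23751559), (nat_lit 15232604)] (nat_lit 17602610)) p15_35_0 (nat_lit 3) (nat_lit 43) (nat_lit 44) = true := by decide +kernel
def p15_35_0_44 : pfC (piC [(nat_lit 37297016), (nat_lit 23751559), (nat_lit 15232604)] (nat_lit 17602610)) p15_35_0 (nat_lit 3) (nat_lit 44) (nat_lit 45) = true := by decide +kernel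
def p15_35_0_45 : pfC (piC [(nat_lit 37297016), (nat_lit 23751559), (nat_lit 15232604)] (nat_lit 17602610)) p15_35_0 (nat_lit 3) (nat_lit 45) (nat_lit 46) = true := by decide +kernel
def p15_35_0_46 : pfC (piC [(nat_lit 37297016), (nat_lit 23751559), (nat_lit 15232604)] (nat_lit 17602610)) p15_35_0 (nat_lit 3) (nat_lit 46) (nat_lit 47) = true := by decide +kernel
def p15_35_0_47 : pfC (piC [(nat_lit 37297016), (nat_lit 23751559), (nat_lit 15232604)] (nat_lit 17602610)) p15_35_0 (nat_lit 3) (nat_lit 47) (nat_lit 48) = true := by decide +kernel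
def p15_35_0_48 : pfC (piC [(nat_lit 37297016), (nat_lit 23751559), (nat_lit 15232604)] (nat_lit 17602610)) p15_35_0 (nat_lit 3) (nat_lit 48) (nat_lit 49) = true := by decide +kernel
def p15_35_0_49 : pfC (piC [(nat_lit 37297016), (nat_lit 23751559), (nat_lit 15232604)] (nat_lit 17602610)) p15_35_0 (nat_lit 3) (nat_lit 49) (nat_lit 50) = true := by decide +kernel
def p15_35_0_50 : pfC (piC [(nat_lit 37297016), (nat_lit 23751559), (nat_lit 15232604)] (nat_lit 17602610)) p15_35_0 (nat_lit 3) (nat_lit 50) (nat_lit 51) = true := by decide +kernel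
def p15_35_0_51 : pfC (piC [(nat_lit 37297016), (nat_lit 23751559), (nat_lit 15232604)] (nat_lit 17602610)) p15_35_0 (nat_lit 3) (nat_lit 51) (nat_lit 52) = true := by decide +kernel
def p15_35_0_52 : pfC (piC [(nat_lit 37297016), (nat_lit 23751559), (nat_lit 15232604)] (nat_lit 17602610)) p15_35_0 (nat_lit 3) (nat_lit 52) (nat_lit 53) = true := by decide +kernel
def p15_35_0_53 : pfC (piC [(nat_lit 37297016), (nat_lit 23751559), (nat_lit 15232604)] (nat_lit 17602610)) p15_35_0 (nat_lit 3) (nat_lit 53) (nat_lit 54) = true := by decide +kernel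
def p15_35_0_54 : pfC (piC [(nat_lit 37297016), (nat_lit 23751559), (nat_lit 15232604)] (nat_lit 17602610)) p15_35_0 (nat_lit 3) (nat_lit 54) (nat_lit 55) = true := by decide +kernel
def p15_35_0_55 : pfC (piC [(nat_lit 37297016), (nat_lit 23751559), (nat_lit 15232604)] (nat_lit 17602610)) p15_35_0 (nat_lit 3) (nat_lit 55) (nat_lit 56) = true := by decide +kernel
def p15_35_0_56 : pfC (piC [(nat_lit 37297016), (nat_lit 23751559), (nat_lit 15232604)] (nat_lit 17602610)) p15_35_0 (nat_lit 3) (nat_lit 56) (nat_lit 57) = true := by decide +kernel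
def p15_35_0_57 : pfC (piC [(nat_lit 37297016), (nat_lit 23751559), (nat_lit 15232604)] (nat_lit 17602610)) p15_35_0 (nat_lit 3) (nat_lit 57) (nat_lit 58) = true := by decide +kernel
def p15_35_0_58 : pfC (piC [(nat_lit 37297016), (nat_lit 23751559), (nat_lit 15232604)] (nat_lit 17602610)) p15_35_0 (nat_lit 3) (nat_lit 58) (nat_lit 59) = true := by decide +kernel
def p15_35_0_59 : pfC (piC [(nat_lit 37297016), (nat_lit 23751559), (nat_lit 15232604)] (nat_lit 17602610)) p15_35_0 (nat_lit 3) (nat_lit 59) (nat_lit 60) = true := by decide +kernel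
def p15_35_0_60 : pfC (piC [(nat_lit 37297016), (nat_lit 23751559), (nat_lit 15232604)] (nat_lit 17602610)) p15_35_0 (nat_lit 3) (nat_lit 60) (nat_lit 61) = true := by decide +kernel
def p15_35_0_61 : pfC (piC [(nat_lit 37297016), (nat_lit 23751559), (nat_lit 15232604)] (nat_lit 17602610)) p15_35_0 (nat_lit 3) (nat_lit 61) (nat_lit 62) = true := by decide +kernel
def p15_35_0_62 : pfC (piC [(nat_lit 37297016), (nat_lit 23751559), (nat_lit 15232604)] (nat_lit 17602610)) p15_35_0 (nat_lit 3) (nat_lit 62) (nat_lit 63) = true := by decide +kernel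
def p15_35_0_63 : pfC (piC [(nat_lit 37297016), (nat_lit 23751559), (nat_lit 15232604)] (nat_lit 17602610)) p15_35_0 (nat_lit 3) (nat_lit 63) (nat_lit 64) = true := by decide +kernel
def p15_35_0_64 : pfC (piC [(nat_lit 37297016), (nat_lit 23751559), (nat_lit 15232604)] (nat_lit 17602610)) p15_35_0 (nat_lit 3) (nat_lit 64) (nat_lit 65) = true := by decide +kernel
def p15_35_0_65 : pfC (piC [(nat_lit 37297016), (nat_lit 23751559), (nat_lit 15232604)] (nat_lit 17602610)) p15_35_0 (nat_lit 3) (nat_lit 65) (nat_lit 66) = true := by decide +kernel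
def p15_35_0_66 : pfC (piC [(nat_lit 37297016), (nat_lit 23751559), (nat_lit 15232604)] (nat_lit 17602610)) p15_35_0 (nat_lit 3) (nat_lit 66) (nat_lit 67) = true := by decide +kernel
def p15_35_0_67 : pfC (piC [(nat_lit 37297016), (nat_lit 23751559), (nat_lit 15232604)] (nat_lit 17602610)) p15_35_0 (nat_lit 3) (nat_lit 67) (nat_lit 68) = true := by decide +kernel
def p15_35_0_68 : pfC (piC [(nat_lit 37297016), (nat_lit 23751559), (nat_lit 15232604)] (nat_lit 17602610)) p15_35_0 (nat_lit 3) (nat_lit 68) (nat_lit 69) = true := by decide +kernel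
def p15_35_0_69 : pfC (piC [(nat_lit 37297016), (nat_lit 23751559), (nat_lit 15232604)] (nat_lit 17602610)) p15_35_0 (nat_lit 3) (nat_lit 69) (nat_lit 70) = true := by decide +kernel
def p15_35_0_70 : pfC (piC [(nat_lit 37297016), (nat_lit 23751559), (nat_lit 15232604)] (nat_lit 17602610)) p15_35_0 (nat_lit 3) (nat_lit 70) (nat_lit 71) = true := by decide +kernel
def p15_35_0_71 : pfC (piC [(nat_lit 37297016), (nat_lit 23751559), (nat_lit 15232604)] (nat_lit 17602610)) p15_35_0 (nat_lit 3) (nat_lit 71) (nat_lit 72) = true := by decide +kernel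
def p15_35_0_72 : pfC (piC [(nat_lit 37297016), (nat_lit 23751559), (nat_lit 15232604)] (nat_lit 17602610)) p15_35_0 (nat_lit 3) (nat_lit 72) (nat_lit 73) = true := by decide +kernel
def p15_35_0_73 : pfC (piC [(nat_lit 37297016), (nat_lit 23751559), (nat_lit 15232604)] (nat_lit 17602610)) p15_35_0 (nat_lit 3) (nat_lit 73) (nat_lit 74) = true := by decide +kernel
def p15_35_0_74 : pfC (piC [(nat_lit 37297016), (nat_lit 23751559), (nat_lit 15232604)] (nat_lit 17602610)) p15_35_0 (nat_lit 3) (nat_lit 74) (nat_lit 75) = true := by decide +kernel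
def p15_35_0_75 : pfC (piC [(nat_lit 37297016), (nat_lit 23751559), (nat_lit 15232604)] (nat_lit 17602610)) p15_35_0 (nat_lit 3) (nat_lit 75) (nat_lit 76) = true := by decide +kernel
def p15_35_0_76 : pfC (piC [(nat_lit 37297016), (nat_lit 23751559), (nat_lit 15232604)] (nat_lit 17602610)) p15_35_0 (nat_lit 3) (nat_lit 76) (nat_lit 77) = true := by decide +kernel
def p15_35_0_77 : pfC (piC [(nat_lit 37297016), (nat_lit 23751559), (nat_lit 15232604)] (nat_lit 17602610)) p15_35_0 (nat_lit 3) (nat_lit 77) (nat_lit 78) = true := by decide +kernel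
def p15_35_0_78 : pfC (piC [(nat_lit 37297016), (nat_lit 23751559), (nat_lit 15232604)] (nat_lit 17602610)) p15_35_0 (nat_lit 3) (nat_lit 78) (nat_lit 79) = true := by decide +kernel
def p15_35_0_79 : pfC (piC [(nat_lit 37297016), (nat_lit 23751559), (nat_lit 15232604)] (nat_lit 17602610)) p15_35_0 (nat_lit 3) (nat_lit 79) (nat_lit 80) = true := by decide +kernel
def p15_35_0_80 : pfC (piC [(nat_lit 37297016), (nat_lit 23751559), (nat_lit 15232604)] (nat_lit 17602610)) p15_35_0 (nat_lit 3) (nat_lit 80) (nat_lit 81) = true := by decide +kernel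
def p15_35_0_81 : pfC (piC [(nat_lit 37297016), (nat_lit 23751559), (nat_lit 15232604)] (nat_lit 17602610)) p15_35_0 (nat_lit 3) (nat_lit 81) (nat_lit 82) = true := by decide +kernel
def p15_35_0_82 : pfC (piC [(nat_lit 37297016), (nat_lit 23751559), (nat_lit 15232604)] (nat_lit 17602610)) p15_35_0 (nat_lit 3) (nat_lit 82) (nat_lit 83) = true := by decide +kernel
def p15_35_0_83 : pfC (piC [(nat_lit 37297016), (nat_lit 23751559), (nat_lit 15232604)] (nat_lit 17602610)) p15_35_0 (nat_lit 3) (nat_lit 83) (nat_lit 84) = true := by decide +kernel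
def p15_35_0_84 : pfC (piC [(nat_lit 37297016), (nat_lit 23751559), (nat_lit 15232604)] (nat_lit 17602610)) p15_35_0 (nat_lit 3) (nat_lit 84) (nat_lit 85) = true := by decide +kernel
def p15_35_0_85 : pfC (piC [(nat_lit 37297016), (nat_lit 23751559), (nat_lit 15232604)] (nat_lit 17602610)) p15_35_0 (nat_lit 3) (nat_lit 85) (nat_lit 86) = true := by decide +kernel
def p15_35_0_86 : pfC (piC [(nat_lit 37297016), (nat_lit 23751559), (nat_lit 15232604)] (nat_lit 17602610)) p15_35_0 (nat_lit 3) (nat_lit 86) (nat_lit 87) = true := by decide +kernel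
def p15_35_0_87 : pfC (piC [(nat_lit 37297016), (nat_lit 23751559), (nat_lit 15232604)] (nat_lit 17602610)) p15_35_0 (nat_lit 3) (nat_lit 87) (nat_lit 88) = true := by decide +kernel
def p15_35_0_88 : pfC (piC [(nat_lit 37297016), (nat_lit 23751559), (nat_lit 15232604)] (nat_lit 17602610)) p15_35_0 (nat_lit 3) (nat_lit 88) (nat_lit 89) = true := by decide +kernel
def p15_35_0_89 : pfC (piC [(nat_lit 37297016), (nat_lit 23751559), (nat_lit 15232604)] (nat_lit 17602610)) p15_35_0 (nat_lit 3) (nat_lit 89) (nat_lit 90) = true := by decide +kernel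
def p15_35_0_90 : pfC (piC [(nat_lit 37297016), (nat_lit 23751559), (nat_lit 15232604)] (nat_lit 17602610)) p15_35_0 (nat_lit 3) (nat_lit 90) (nat_lit 91) = true := by decide +kernel
def p15_35_0_91 : pfC (piC [(nat_lit 37297016), (nat_lit 23751559), (nat_lit 15232604)] (nat_lit 17602610)) p15_35_0 (nat_lit 3) (nat_lit 91) (nat_lit 92) = true := by decide +kernel
def p15_35_0_92 : pfC (piC [(nat_lit 37297016), (nat_lit 23751559), (nat_lit 15232604)] (nat_lit 17602610)) p15_35_0 (nat_lit 3) (nat_lit 92) (nat_lit 93) = true := by decide +kernel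
def p15_35_0_93 : pfC (piC [(nat_lit 37297016), (nat_lit 23751559), (nat_lit 15232604)] (nat_lit 17602610)) p15_35_0 (nat_lit 3) (nat_lit 93) (nat_lit 94) = true := by decide +kernel
def p15_35_0_94 : pfC (piC [(nat_lit 37297016), (nat_lit 23751559), (nat_lit 15232604)] (nat_lit 17602610)) p15_35_0 (nat_lit 3) (nat_lit 94) (nat_lit 95) = true := by decide +kernel
def p15_35_0_95 : pfC (piC [(nat_lit 37297016), (nat_lit 23751559), (nat_lit 15232604)] (nat_lit 17602610)) p15_35_0 (nat_lit 3) (nat_lit 95) (nat_lit 96) = true := by decide +kernel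
def p15_35_0_96 : pfC (piC [(nat_lit 37297016), (nat_lit 23751559), (nat_lit 15232604)] (nat_lit 17602610)) p15_35_0 (nat_lit 3) (nat_lit 96) (nat_lit 97) = true := by decide +kernel
def p15_35_0_97 : pfC (piC [(nat_lit 37297016), (nat_lit 23751559), (nat_lit 15232604)] (nat_lit 17602610)) p15_35_0 (nat_lit 3) (nat_lit 97) (nat_lit 98) = true := by decide +kernel
def p15_35_0_98 : pfC (piC [(nat_lit 37297016), (nat_lit 23751559), (nat_lit 15232604)] (nat_lit 17602610)) p15_35_0 (nat_lit 3) (nat_lit 98) (nat_lit 99) = true := by decide +kernel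
def p15_35_0_99 : pfC (piC [(nat_lit 37297016), (nat_lit 23751559), (nat_lit 15232604)] (nat_lit 17602610)) p15_35_0 (nat_lit 3) (nat_lit 99) (nat_lit 100) = true := by decide +kernel
def p15_35_0_100 : pfC (piC [(nat_lit 37297016), (nat_lit 23751559), (nat_lit 15232604)] (nat_lit 17602610)) p15_35_0 (nat_lit 3) (nat_lit 100) (nat_lit 101) = true := by decide +kernel
def p15_35_0_101 : pfC (piC [(nat_lit 37297016), (nat_lit 23751559), (nat_lit 15232604)] (nat_lit 17602610)) p15_35_0 (nat_lit 3) (nat_lit 101) (nat_lit 102) = true := by decide +kernel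
def p15_35_0_102 : pfC (piC [(nat_lit 37297016), (nat_lit 23751559), (nat_lit 15232604)] (nat_lit 17602610)) p15_35_0 (nat_lit 3) (nat_lit 102) (nat_lit 103) = true := by decide +kernel
def p15_35_0_103 : pfC (piC [(nat_lit 37297016), (nat_lit 23751559), (nat_lit 15232604)] (nat_lit 17602610)) p15_35_0 (nat_lit 3) (nat_lit 103) (nat_lit 104) = true := by decide +kernel
def p15_35_0_104 : pfC (piC [(nat_lit 37297016), (nat_lit 23751559), (nat_lit 15232604)] (nat_lit 17602610)) p15_35_0 (nat_lit 3) (nat_lit 104) (nat_lit 105) = true := by decide +kernel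
def p15_35_0_105 : pfC (piC [(nat_lit 37297016), (nat_lit 23751559), (nat_lit 15232604)] (nat_lit 17602610)) p15_35_0 (nat_lit 3) (nat_lit 105) (nat_lit 106) = true := by decide +kernel
def p15_35_0_106 : pfC (piC [(nat_lit 37297016), (nat_lit 23751559), (nat_lit 15232604)] (nat_lit 17602610)) p15_35_0 (nat_lit 3) (nat_lit 106) (nat_lit 107) = true := by decide +kernel
def p15_35_0_107 : pfC (piC [(nat_lit 37297016), (nat_lit 23751559), (nat_lit 15232604)] (nat_lit 17602610)) p15_35_0 (nat_lit 3) (nat_lit 107) (nat_lit 108) = true := by decide +kernel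
def p15_35_0_108 : pfC (piC [(nat_lit 37297016), (nat_lit 23751559), (nat_lit 15232604)] (nat_lit 17602610)) p15_35_0 (nat_lit 3) (nat_lit 108) (nat_lit 109) = true := by decide +kernel
def p15_35_0_109 : pfC (piC [(nat_lit 37297016), (nat_lit 23751559), (nat_lit 15232604)] (nat_lit 17602610)) p15_35_0 (nat_lit 3) (nat_lit 109) (nat_lit 110) = true := by decide +kernel
def p15_35_0_110 : pfC (piC [(nat_lit 37297016), (nat_lit 23751559), (nat_lit 15232604)] (nat_lit 17602610)) p15_35_0 (nat_lit 3) (nat_lit 110) (nat_lit 111) = true := by decide +kernel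
def p15_35_0_111 : pfC (piC [(nat_lit 37297016), (nat_lit 23751559), (nat_lit 15232604)] (nat_lit 17602610)) p15_35_0 (nat_lit 3) (nat_lit 111) (nat_lit 112) = true := by decide +kernel
def p15_35_0_112 : pfC (piC [(nat_lit 37297016), (nat_lit 23751559), (nat_lit 15232604)] (nat_lit 17602610)) p15_35_0 (nat_lit 3) (nat_lit 112) (nat_lit 113) = true := by decide +kernel
def p15_35_0_113 : pfC (piC [(nat_lit 37297016), (nat_lit 23751559), (nat_lit 15232604)] (nat_lit 17602610)) p15_35_0 (nat_lit 3) (nat_lit 113) (nat_lit 114) = true := by decide +kernel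
def p15_35_0_114 : pfC (piC [(nat_lit 37297016), (nat_lit 23751559), (nat_lit 15232604)] (nat_lit 17602610)) p15_35_0 (nat_lit 3) (nat_lit 114) (nat_lit 115) = true := by decide +kernel
def p15_35_0_115 : pfC (piC [(nat_lit 37297016), (nat_lit 23751559), (nat_lit 15232604)] (nat_lit 17602610)) p15_35_0 (nat_lit 3) (nat_lit 115) (nat_lit 116) = true := by decide +kernel
def p15_35_0_116 : pfC (piC [(nat_lit 37297016), (nat_lit 23751559), (nat_lit 15232604)] (nat_lit 17602610)) p15_35_0 (nat_lit 3) (nat_lit 116) (nat_lit 117) = true := by decide +kernel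
def p15_35_0_117 : pfC (piC [(nat_lit 37297016), (nat_lit 23751559), (nat_lit 15232604)] (nat_lit 17602610)) p15_35_0 (nat_lit 3) (nat_lit 117) (nat_lit 118) = true := by decide +kernel
def p15_35_0_118 : pfC (piC [(nat_lit 37297016), (nat_lit 23751559), (nat_lit 15232604)] (nat_lit 17602610)) p15_35_0 (nat_lit 3) (nat_lit 118) (nat_lit 119) = true := by decide +kernel
def p15_35_0_119 : pfC (piC [(nat_lit 37297016), (nat_lit 23751559), (nat_lit 15232604)] (nat_lit 17602610)) p15_35_0 (nat_lit 3) (nat_lit 119) (nat_lit 120) = true := by decide +kernel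
def p15_35_0_120 : pfC (piC [(nat_lit 37297016), (nat_lit 23751559), (nat_lit 15232604)] (nat_lit 17602610)) p15_35_0 (nat_lit 3) (nat_lit 120) (nat_lit 121) = true := by decide +kernel
def p15_35_0_121 : pfC (piC [(nat_lit 37297016), (nat_lit 23751559), (nat_lit 15232604)] (nat_lit 17602610)) p15_35_0 (nat_lit 3) (nat_lit 121) (nat_lit 122) = true := by decide +kernel
def p15_35_0_122 : pfC (piC [(nat_lit 37297016), (nat_lit 23751559), (nat_lit 15232604)] (nat_lit 17602610)) p15_35_0 (nat_lit 3) (nat_lit 122) (nat_lit 123) = true := by decide +kernel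
def p15_35_0_123 : pfC (piC [(nat_lit 37297016), (nat_lit 23751559), (nat_lit 15232604)] (nat_lit 17602610)) p15_35_0 (nat_lit 3) (nat_lit 123) (nat_lit 124) = true := by decide +kernel
def p15_35_0_124 : pfC (piC [(nat_lit 37297016), (nat_lit 23751559), (nat_lit 15232604)] (nat_lit 17602610)) p15_35_0 (nat_lit 3) (nat_lit 124) (nat_lit 125) = true := by decide +kernel
def p15_35_0_125 : pfC (piC [(nat_lit 37297016), (nat_lit 23751559), (nat_lit 15232604)] (nat_lit 17602610)) p15_35_0 (nat_lit 3) (nat_lit 125) (nat_lit 126) = true := by decide +kernel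
def p15_35_0_126 : pfC (piC [(nat_lit 37297016), (nat_lit 23751559), (nat_lit 15232604)] (nat_lit 17602610)) p15_35_0 (nat_lit 3) (nat_lit 126) (nat_lit 127) = true := by decide +kernel
def p15_35_0_127 : pfC (piC [(nat_lit 37297016), (nat_lit 23751559), (nat_lit 15232604)] (nat_lit 17602610)) p15_35_0 (nat_lit 3) (nat_lit 127) (nat_lit 128) = true := by decide +kernel
def p15_35_0_128 : pfC (piC [(nat_lit 37297016), (nat_lit 23751559), (nat_lit 15232604)] (nat_lit 17602610)) p15_35_0 (nat_lit 3) (nat_lit 128) (nat_lit 129) = true := by decide +kernel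
def p15_35_0_129 : pfC (piC [(nat_lit 37297016), (nat_lit 23751559), (nat_lit 15232604)] (nat_lit 17602610)) p15_35_0 (nat_lit 3) (nat_lit 129) (nat_lit 130) = true := by decide +kernel
def p15_35_0_130 : pfC (piC [(nat_lit 37297016), (nat_lit 23751559), (nat_lit 15232604)] (nat_lit 17602610)) p15_35_0 (nat_lit 3) (nat_lit 130) (nat_lit 131) = true := by decide +kernel
def p15_35_0_131 : pfC (piC [(nat_lit 37297016), (nat_lit 23751559), (nat_lit 15232604)] (nat_lit 17602610)) p15_35_0 (nat_lit 3) (nat_lit 131) (nat_lit 132) = true := by decide +kernel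
def p15_35_0_132 : pfC (piC [(nat_lit 37297016), (nat_lit 23751559), (nat_lit 15232604)] (nat_lit 17602610)) p15_35_0 (nat_lit 3) (nat_lit 132) (nat_lit 133) = true := by decide +kernel
def p15_35_0_133 : pfC (piC [(nat_lit 37297016), (nat_lit 23751559), (nat_lit 15232604)] (nat_lit 17602610)) p15_35_0 (nat_lit 3) (nat_lit 133) (nat_lit 134) = true := by decide +kernel
def p15_35_0_134 : pfC (piC [(nat_lit 37297016), (nat_lit 23751559), (nat_lit 15232604)] (nat_lit 17602610)) p15_35_0 (nat_lit 3) (nat_lit 134) (nat_lit 135) = true := by decide +kernel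
def p15_35_0_135 : pfC (piC [(nat_lit 37297016), (nat_lit 23751559), (nat_lit 15232604)] (nat_lit 17602610)) p15_35_0 (nat_lit 3) (nat_lit 135) (nat_lit 136) = true := by decide +kernel
def p15_35_0_136 : pfC (piC [(nat_lit 37297016), (nat_lit 23751559), (nat_lit 15232604)] (nat_lit 17602610)) p15_35_0 (nat_lit 3) (nat_lit 136) (nat_lit 137) = true := by decide +kernel
def p15_35_0_137 : pfC (piC [(nat_lit 37297016), (nat_lit 23751559), (nat_lit 15232604)] (nat_lit 17602610)) p15_35_0 (nat_lit 3) (nat_lit 137) (nat_lit 138) = true := by decide +kernel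
def p15_35_0_138 : pfC (piC [(nat_lit 37297016), (nat_lit 23751559), (nat_lit 15232604)] (nat_lit 17602610)) p15_35_0 (nat_lit 3) (nat_lit 138) (nat_lit 139) = true := by decide +kernel
def p15_35_0_139 : pfC (piC [(nat_lit 37297016), (nat_lit 23751559), (nat_lit 15232604)] (nat_lit 17602610)) p15_35_0 (nat_lit 3) (nat_lit 139) (nat_lit 140) = true := by decide +kernel
def p15_35_0_140 : pfC (piC [(nat_lit 37297016), (nat_lit 23751559), (nat_lit 15232604)] (nat_lit 17602610)) p15_35_0 (nat_lit 3) (nat_lit 140) (nat_lit 141) = true := by decide +kernel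
def p15_35_0_141 : pfC (piC [(nat_lit 37297016), (nat_lit 23751559), (nat_lit 15232604)] (nat_lit 17602610)) p15_35_0 (nat_lit 3) (nat_lit 141) (nat_lit 142) = true := by decide +kernel
def p15_35_0_142 : pfC (piC [(nat_lit 37297016), (nat_lit 23751559), (nat_lit 15232604)] (nat_lit 17602610)) p15_35_0 (nat_lit 3) (nat_lit 142) (nat_lit 143) = true := by decide +kernel
def p15_35_0_143 : pfC (piC [(nat_lit 37297016), (nat_lit 23751559), (nat_lit 15232604)] (nat_lit 17602610)) p15_35_0 (nat_lit 3) (nat_lit 143) (nat_lit 144) = true := by decide +kernel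
def p15_35_0_144 : pfC (piC [(nat_lit 37297016), (nat_lit 23751559), (nat_lit 15232604)] (nat_lit 17602610)) p15_35_0 (nat_lit 3) (nat_lit 144) (nat_lit 145) = true := by decide +kernel
def p15_35_0_145 : pfC (piC [(nat_lit 37297016), (nat_lit 23751559), (nat_lit 15232604)] (nat_lit 17602610)) p15_35_0 (nat_lit 3) (nat_lit 145) (nat_lit 146) = true := by decide +kernel
def p15_35_0_146 : pfC (piC [(nat_lit 37297016), (nat_lit 23751559), (nat_lit 15232604)] (nat_lit 17602610)) p15_35_0 (nat_lit 3) (nat_lit 146) (nat_lit 147) = true := by decide +kernel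
def p15_35_0_147 : pfC (piC [(nat_lit 37297016), (nat_lit 23751559), (nat_lit 15232604)] (nat_lit 17602610)) p15_35_0 (nat_lit 3) (nat_lit 147) (nat_lit 148) = true := by decide +kernel
def p15_35_0_148 : pfC (piC [(nat_lit 37297016), (nat_lit 23751559), (nat_lit 15232604)] (nat_lit 17602610)) p15_35_0 (nat_lit 3) (nat_lit 148) (nat_lit 149) = true := by decide +kernel
def p15_35_0_149 : pfC (piC [(nat_lit 37297016), (nat_lit 23751559), (nat_lit 15232604)] (nat_lit 17602610)) p15_35_0 (nat_lit 3) (nat_lit 149) (nat_lit 150) = true := by decide +kernel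
def p15_35_0_150 : pfC (piC [(nat_lit 37297016), (nat_lit 23751559), (nat_lit 15232604)] (nat_lit 17602610)) p15_35_0 (nat_lit 3) (nat_lit 150) (nat_lit 151) = true := by decide +kernel
def p15_35_0_151 : pfC (piC [(nat_lit 37297016), (nat_lit 23751559), (nat_lit 15232604)] (nat_lit 17602610)) p15_35_0 (nat_lit 3) (nat_lit 151) (nat_lit 152) = true := by decide +kernel
def p15_35_0_152 : pfC (piC [(nat_lit 37297016), (nat_lit 23751559), (nat_lit 15232604)] (nat_lit 17602610)) p15_35_0 (nat_lit 3) (nat_lit 152) (nat_lit 153) = true := by decide +kernel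
def p15_35_0_153 : pfC (piC [(nat_lit 37297016), (nat_lit 23751559), (nat_lit 15232604)] (nat_lit 17602610)) p15_35_0 (nat_lit 3) (nat_lit 153) (nat_lit 154) = true := by decide +kernel
def p15_35_0_154 : pfC (piC [(nat_lit 37297016), (nat_lit 23751559), (nat_lit 15232604)] (nat_lit 17602610)) p15_35_0 (nat_lit 3) (nat_lit 154) (nat_lit 155) = true := by decide +kernel
def p15_35_0_155 : pfC (piC [(nat_lit 37297016), (nat_lit 23751559), (nat_lit 15232604)] (nat_lit 17602610)) p15_35_0 (nat_lit 3) (nat_lit 155) (nat_lit 156) = true := by decide +kernel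
def p15_35_0_156 : pfC (piC [(nat_lit 37297016), (nat_lit 23751559), (nat_lit 15232604)] (nat_lit 17602610)) p15_35_0 (nat_lit 3) (nat_lit 156) (nat_lit 157) = true := by decide +kernel
def p15_35_0_157 : pfC (piC [(nat_lit 37297016), (nat_lit 23751559), (nat_lit 15232604)] (nat_lit 17602610)) p15_35_0 (nat_lit 3) (nat_lit 157) (nat_lit 158) = true := by decide +kernel
def p15_35_0_158 : pfC (piC [(nat_lit 37297016), (nat_lit 23751559), (nat_lit 15232604)] (nat_lit 17602610)) p15_35_0 (nat_lit 3) (nat_lit 158) (nat_lit 159) = true := by decide +kernel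
def p15_35_0_159 : pfC (piC [(nat_lit 37297016), (nat_lit 23751559), (nat_lit 15232604)] (nat_lit 17602610)) p15_35_0 (nat_lit 3) (nat_lit 159) (nat_lit 160) = true := by decide +kernel
def p15_35_0_160 : pfC (piC [(nat_lit 37297016), (nat_lit 23751559), (nat_lit 15232604)] (nat_lit 17602610)) p15_35_0 (nat_lit 3) (nat_lit 160) (nat_lit 161) = true := by decide +kernel
def p15_35_0_161 : pfC (piC [(nat_lit 37297016), (nat_lit 23751559), (nat_lit 15232604)] (nat_lit 17602610)) p15_35_0 (nat_lit 3) (nat_lit 161) (nat_lit 162) = true := by decide +kernel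
def p15_35_0_162 : pfC (piC [(nat_lit 37297016), (nat_lit 23751559), (nat_lit 15232604)] (nat_lit 17602610)) p15_35_0 (nat_lit 3) (nat_lit 162) (nat_lit 163) = true := by decide +kernel
def p15_35_0_163 : pfC (piC [(nat_lit 37297016), (nat_lit 23751559), (nat_lit 15232604)] (nat_lit 17602610)) p15_35_0 (nat_lit 3) (nat_lit 163) (nat_lit 164) = true := by decide +kernel
def p15_35_0_164 : pfC (piC [(nat_lit 37297016), (nat_lit 23751559), (nat_lit 15232604)] (nat_lit 17602610)) p15_35_0 (nat_lit 3) (nat_lit 164) (nat_lit 165) = true := by decide +kernel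
def p15_35_0_165 : pfC (piC [(nat_lit 37297016), (nat_lit 23751559), (nat_lit 15232604)] (nat_lit 17602610)) p15_35_0 (nat_lit 3) (nat_lit 165) (nat_lit 166) = true := by decide +kernel
def p15_35_0_166 : pfC (piC [(nat_lit 37297016), (nat_lit 23751559), (nat_lit 15232604)] (nat_lit 17602610)) p15_35_0 (nat_lit 3) (nat_lit 166) (nat_lit 167) = true := by decide +kernel
def p15_35_0_167 : pfC (piC [(nat_lit 37297016), (nat_lit 23751559), (nat_lit 15232604)] (nat_lit 17602610)) p15_35_0 (nat_lit 3) (nat_lit 167) (nat_lit 168) = true := by decide +kernel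
def p15_35_0_168 : pfC (piC [(nat_lit 37297016), (nat_lit 23751559), (nat_lit 15232604)] (nat_lit 17602610)) p15_35_0 (nat_lit 3) (nat_lit 168) (nat_lit 169) = true := by decide +kernel
def p15_35_0_169 : pfC (piC [(nat_lit 37297016), (nat_lit 23751559), (nat_lit 15232604)] (nat_lit 17602610)) p15_35_0 (nat_lit 3) (nat_lit 169) (nat_lit 170) = true := by decide +kernel
def p15_35_0_170 : pfC (piC [(nat_lit 37297016), (nat_lit 23751559), (nat_lit 15232604)] (nat_lit 17602610)) p15_35_0 (nat_lit 3) (nat_lit 170) (nat_lit 171) = true := by decide +kernel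
def p15_35_0_171 : pfC (piC [(nat_lit 37297016), (nat_lit 23751559), (nat_lit 15232604)] (nat_lit 17602610)) p15_35_0 (nat_lit 3) (nat_lit 171) (nat_lit 172) = true := by decide +kernel
def p15_35_0_172 : pfC (piC [(nat_lit 37297016), (nat_lit 23751559), (nat_lit 15232604)] (nat_lit 17602610)) p15_35_0 (nat_lit 3) (nat_lit 172) (nat_lit 173) = true := by decide +kernel
def p15_35_0_173 : pfC (piC [(nat_lit 37297016), (nat_lit 23751559), (nat_lit 15232604)] (nat_lit 17602610)) p15_35_0 (nat_lit 3) (nat_lit 173) (nat_lit 174) = true := by decide +kernel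
def p15_35_0_174 : pfC (piC [(nat_lit 37297016), (nat_lit 23751559), (nat_lit 15232604)] (nat_lit 17602610)) p15_35_0 (nat_lit 3) (nat_lit 174) (nat_lit 175) = true := by decide +kernel
def p15_35_0_175 : pfC (piC [(nat_lit 37297016), (nat_lit 23751559), (nat_lit 15232604)] (nat_lit 17602610)) p15_35_0 (nat_lit 3) (nat_lit 175) (nat_lit 176) = true := by decide +kernel
def p15_35_0_176 : pfC (piC [(nat_lit 37297016), (nat_lit 23751559), (nat_lit 15232604)] (nat_lit 17602610)) p15_35_0 (nat_lit 3) (nat_lit 176) (nat_lit 177) = true := by decide +kernel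
def p15_35_0_177 : pfC (piC [(nat_lit 37297016), (nat_lit 23751559), (nat_lit 15232604)] (nat_lit 17602610)) p15_35_0 (nat_lit 3) (nat_lit 177) (nat_lit 178) = true := by decide +kernel
def p15_35_0_178 : pfC (piC [(nat_lit 37297016), (nat_lit 23751559), (nat_lit 15232604)] (nat_lit 17602610)) p15_35_0 (nat_lit 3) (nat_lit 178) (nat_lit 179) = true := by decide +kernel
def p15_35_0_179 : pfC (piC [(nat_lit 37297016), (nat_lit 23751559), (nat_lit 15232604)] (nat_lit 17602610)) p15_35_0 (nat_lit 3) (nat_lit 179) (nat_lit 180) = true := by decide +kernel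
def p15_35_0_180 : pfC (piC [(nat_lit 37297016), (nat_lit 23751559), (nat_lit 15232604)] (nat_lit 17602610)) p15_35_0 (nat_lit 3) (nat_lit 180) (nat_lit 181) = true := by decide +kernel
def p15_35_0_181 : pfC (piC [(nat_lit 37297016), (nat_lit 23751559), (nat_lit 15232604)] (nat_lit 17602610)) p15_35_0 (nat_lit 3) (nat_lit 181) (nat_lit 182) = true := by decide +kernel
def p15_35_0_182 : pfC (piC [(nat_lit 37297016), (nat_lit 23751559), (nat_lit 15232604)] (nat_lit 17602610)) p15_35_0 (nat_lit 3) (nat_lit 182) (nat_lit 183) = true := by decide +kernel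
def p15_35_0_183 : pfC (piC [(nat_lit 37297016), (nat_lit 23751559), (nat_lit 15232604)] (nat_lit 17602610)) p15_35_0 (nat_lit 3) (nat_lit 183) (nat_lit 184) = true := by decide +kernel
def p15_35_0_184 : pfC (piC [(nat_lit 37297016), (nat_lit 23751559), (nat_lit 15232604)] (nat_lit 17602610)) p15_35_0 (nat_lit 3) (nat_lit 184) (nat_lit 185) = true := by decide +kernel
def p15_35_0_185 : pfC (piC [(nat_lit 37297016), (nat_lit 23751559), (nat_lit 15232604)] (nat_lit 17602610)) p15_35_0 (nat_lit 3) (nat_lit 185) (nat_lit 186) = true := by decide +kernel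
def p15_35_0_186 : pfC (piC [(nat_lit 37297016), (nat_lit 23751559), (nat_lit 15232604)] (nat_lit 17602610)) p15_35_0 (nat_lit 3) (nat_lit 186) (nat_lit 187) = true := by decide +kernel
def p15_35_0_187 : pfC (piC [(nat_lit 37297016), (nat_lit 23751559), (nat_lit 15232604)] (nat_lit 17602610)) p15_35_0 (nat_lit 3) (nat_lit 187) (nat_lit 188) = true := by decide +kernel
def p15_35_0_188 : pfC (piC [(nat_lit 37297016), (nat_lit 23751559), (nat_lit 15232604)] (nat_lit 17602610)) p15_35_0 (nat_lit 3) (nat_lit 188) (nat_lit 189) = true := by decide +kernel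
def p15_35_0_189 : pfC (piC [(nat_lit 37297016), (nat_lit 23751559), (nat_lit 15232604)] (nat_lit 17602610)) p15_35_0 (nat_lit 3) (nat_lit 189) (nat_lit 190) = true := by decide +kernel
def p15_35_0_190 : pfC (piC [(nat_lit 37297016), (nat_lit 23751559), (nat_lit 15232604)] (nat_lit 17602610)) p15_35_0 (nat_lit 3) (nat_lit 190) (nat_lit 191) = true := by decide +kernel
def p15_35_0_191 : pfC (piC [(nat_lit 37297016), (nat_lit 23751559), (nat_lit 15232604)] (nat_lit 17602610)) p15_35_0 (nat_lit 3) (nat_lit 191) (nat_lit 192) = true := by decide +kernel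
def p15_35_0_192 : pfC (piC [(nat_lit 37297016), (nat_lit 23751559), (nat_lit 15232604)] (nat_lit 17602610)) p15_35_0 (nat_lit 3) (nat_lit 192) (nat_lit 193) = true := by decide +kernel
def p15_35_0_193 : pfC (piC [(nat_lit 37297016), (nat_lit 23751559), (nat_lit 15232604)] (nat_lit 17602610)) p15_35_0 (nat_lit 3) (nat_lit 193) (nat_lit 194) = true := by decide +kernel
def p15_35_0_194 : pfC (piC [(nat_lit 37297016), (nat_lit 23751559), (nat_lit 15232604)] (nat_lit 17602610)) p15_35_0 (nat_lit 3) (nat_lit 194) (nat_lit 195) = true := by decide +kernel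
def p15_35_0_195 : pfC (piC [(nat_lit 37297016), (nat_lit 23751559), (nat_lit 15232604)] (nat_lit 17602610)) p15_35_0 (nat_lit 3) (nat_lit 195) (nat_lit 196) = true := by decide +kernel
def p15_35_0_196 : pfC (piC [(nat_lit 37297016), (nat_lit 23751559), (nat_lit 15232604)] (nat_lit 17602610)) p15_35_0 (nat_lit 3) (nat_lit 196) (nat_lit 197) = true := by decide +kernel
def p15_35_0_197 : pfC (piC [(nat_lit 37297016), (nat_lit 23751559), (nat_lit 15232604)] (nat_lit 17602610)) p15_35_0 (nat_lit 3) (nat_lit 197) (nat_lit 198) = true := by decide +kernel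
def p15_35_0_198 : pfC (piC [(nat_lit 37297016), (nat_lit 23751559), (nat_lit 15232604)] (nat_lit 17602610)) p15_35_0 (nat_lit 3) (nat_lit 198) (nat_lit 199) = true := by decide +kernel
def p15_35_0_199 : pfC (piC [(nat_lit 37297016), (nat_lit 23751559), (nat_lit 15232604)] (nat_lit 17602610)) p15_35_0 (nat_lit 3) (nat_lit 199) (nat_lit 200) = true := by decide +kernel
def p15_35_0_200 : pfC (piC [(nat_lit 37297016), (nat_lit 23751559), (nat_lit 15232604)] (nat_lit 17602610)) p15_35_0 (nat_lit 3) (nat_lit 200) (nat_lit 201) = true := by decide +kernel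
def p15_35_0_201 : pfC (piC [(nat_lit 37297016), (nat_lit 23751559), (nat_lit 15232604)] (nat_lit 17602610)) p15_35_0 (nat_lit 3) (nat_lit 201) (nat_lit 202) = true := by decide +kernel
def p15_35_0_202 : pfC (piC [(nat_lit 37297016), (nat_lit 23751559), (nat_lit 15232604)] (nat_lit 17602610)) p15_35_0 (nat_lit 3) (nat_lit 202) (nat_lit 203) = true := by decide +kernel
def p15_35_0_203 : pfC (piC [(nat_lit 37297016), (nat_lit 23751559), (nat_lit 15232604)] (nat_lit 17602610)) p15_35_0 (nat_lit 3) (nat_lit 203) (nat_lit 204) = true := by decide +kernel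
def p15_35_0_204 : pfC (piC [(nat_lit 37297016), (nat_lit 23751559), (nat_lit 15232604)] (nat_lit 17602610)) p15_35_0 (nat_lit 3) (nat_lit 204) (nat_lit 205) = true := by decide +kernel
def p15_35_0_205 : pfC (piC [(nat_lit 37297016), (nat_lit 23751559), (nat_lit 15232604)] (nat_lit 17602610)) p15_35_0 (nat_lit 3) (nat_lit 205) (nat_lit 206) = true := by decide +kernel
def p15_35_0_206 : pfC (piC [(nat_lit 37297016), (nat_lit 23751559), (nat_lit 15232604)] (nat_lit 17602610)) p15_35_0 (nat_lit 3) (nat_lit 206) (nat_lit 207) = true := by decide +kernel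
def p15_35_0_207 : pfC (piC [(nat_lit 37297016), (nat_lit 23751559), (nat_lit 15232604)] (nat_lit 17602610)) p15_35_0 (nat_lit 3) (nat_lit 207) (nat_lit 208) = true := by decide +kernel
def p15_35_0_208 : pfC (piC [(nat_lit 37297016), (nat_lit 23751559), (nat_lit 15232604)] (nat_lit 17602610)) p15_35_0 (nat_lit 3) (nat_lit 208) (nat_lit 209) = true := by decide +kernel
def p15_35_0_209 : pfC (piC [(nat_lit 37297016), (nat_lit 23751559), (nat_lit 15232604)] (nat_lit 17602610)) p15_35_0 (nat_lit 3) (nat_lit 209) (nat_lit 210) = true := by decide +kernel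
def p15_35_0_210 : pfC (piC [(nat_lit 37297016), (nat_lit 23751559), (nat_lit 15232604)] (nat_lit 17602610)) p15_35_0 (nat_lit 3) (nat_lit 210) (nat_lit 211) = true := by decide +kernel
def p15_35_0_211 : pfC (piC [(nat_lit 37297016), (nat_lit 23751559), (nat_lit 15232604)] (nat_lit 17602610)) p15_35_0 (nat_lit 3) (nat_lit 211) (nat_lit 212) = true := by decide +kernel
def p15_35_0_212 : pfC (piC [(nat_lit 37297016), (nat_lit 23751559), (nat_lit 15232604)] (nat_lit 17602610)) p15_35_0 (nat_lit 3) (nat_lit 212) (nat_lit 213) = true := by decide +kernel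
def p15_35_0_213 : pfC (piC [(nat_lit 37297016), (nat_lit 23751559), (nat_lit 15232604)] (nat_lit 17602610)) p15_35_0 (nat_lit 3) (nat_lit 213) (nat_lit 214) = true := by decide +kernel
def p15_35_0_214 : pfC (piC [(nat_lit 37297016), (nat_lit 23751559), (nat_lit 15232604)] (nat_lit 17602610)) p15_35_0 (nat_lit 3) (nat_lit 214) (nat_lit 215) = true := by decide +kernel
def p15_35_0_215 : pfC (piC [(nat_lit 37297016), (nat_lit 23751559), (nat_lit 15232604)] (nat_lit 17602610)) p15_35_0 (nat_lit 3) (nat_lit 215) (nat_lit 216) = true := by decide +kernel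
def p15_35_0_216 : pfC (piC [(nat_lit 37297016), (nat_lit 23751559), (nat_lit 15232604)] (nat_lit 17602610)) p15_35_0 (nat_lit 3) (nat_lit 216) (nat_lit 217) = true := by decide +kernel
def p15_35_0_217 : pfC (piC [(nat_lit 37297016), (nat_lit 23751559), (nat_lit 15232604)] (nat_lit 17602610)) p15_35_0 (nat_lit 3) (nat_lit 217) (nat_lit 218) = true := by decide +kernel
def p15_35_0_218 : pfC (piC [(nat_lit 37297016), (nat_lit 23751559), (nat_lit 15232604)] (nat_lit 17602610)) p15_35_0 (nat_lit 3) (nat_lit 218) (nat_lit 219) = true := by decide +kernel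
def p15_35_0_219 : pfC (piC [(nat_lit 37297016), (nat_lit 23751559), (nat_lit 15232604)] (nat_lit 17602610)) p15_35_0 (nat_lit 3) (nat_lit 219) (nat_lit 220) = true := by decide +kernel
def p15_35_0_220 : pfC (piC [(nat_lit 37297016), (nat_lit 23751559), (nat_lit 15232604)] (nat_lit 17602610)) p15_35_0 (nat_lit 3) (nat_lit 220) (nat_lit 221) = true := by decide +kernel
def p15_35_0_221 : pfC (piC [(nat_lit 37297016), (nat_lit 23751559), (nat_lit 15232604)] (nat_lit 17602610)) p15_35_0 (nat_lit 3) (nat_lit 221) (nat_lit 222) = true := by decide +kernel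
def p15_35_0_222 : pfC (piC [(nat_lit 37297016), (nat_lit 23751559), (nat_lit 15232604)] (nat_lit 17602610)) p15_35_0 (nat_lit 3) (nat_lit 222) (nat_lit 223) = true := by decide +kernel
def p15_35_0_223 : pfC (piC [(nat_lit 37297016), (nat_lit 23751559), (nat_lit 15232604)] (nat_lit 17602610)) p15_35_0 (nat_lit 3) (nat_lit 223) (nat_lit 224) = true := by decide +kernel
def p15_35_0_224 : pfC (piC [(nat_lit 37297016), (nat_lit 23751559), (nat_lit 15232604)] (nat_lit 17602610)) p15_35_0 (nat_lit 3) (nat_lit 224) (nat_lit 225) = true := by decide +kernel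
def p15_35_0_225 : pfC (piC [(nat_lit 37297016), (nat_lit 23751559), (nat_lit 15232604)] (nat_lit 17602610)) p15_35_0 (nat_lit 3) (nat_lit 225) (nat_lit 226) = true := by decide +kernel
def p15_35_0_226 : pfC (piC [(nat_lit 37297016), (nat_lit 23751559), (nat_lit 15232604)] (nat_lit 17602610)) p15_35_0 (nat_lit 3) (nat_lit 226) (nat_lit 227) = true := by decide +kernel
def p15_35_0_227 : pfC (piC [(nat_lit 37297016), (nat_lit 23751559), (nat_lit 15232604)] (nat_lit 17602610)) p15_35_0 (nat_lit 3) (nat_lit 227) (nat_lit 228) = true := by decide +kernel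
def p15_35_0_228 : pfC (piC [(nat_lit 37297016), (nat_lit 23751559), (nat_lit 15232604)] (nat_lit 17602610)) p15_35_0 (nat_lit 3) (nat_lit 228) (nat_lit 229) = true := by decide +kernel
def p15_35_0_229 : pfC (piC [(nat_lit 37297016), (nat_lit 23751559), (nat_lit 15232604)] (nat_lit 17602610)) p15_35_0 (nat_lit 3) (nat_lit 229) (nat_lit 230) = true := by decide +kernel
def p15_35_0_230 : pfC (piC [(nat_lit 37297016), (nat_lit 23751559), (nat_lit 15232604)] (nat_lit 17602610)) p15_35_0 (nat_lit 3) (nat_lit 230) (nat_lit 231) = true := by decide +kernel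
def p15_35_0_231 : pfC (piC [(nat_lit 37297016), (nat_lit 23751559), (nat_lit 15232604)] (nat_lit 17602610)) p15_35_0 (nat_lit 3) (nat_lit 231) (nat_lit 232) = true := by decide +kernel
def p15_35_0_232 : pfC (piC [(nat_lit 37297016), (nat_lit 23751559), (nat_lit 15232604)] (nat_lit 17602610)) p15_35_0 (nat_lit 3) (nat_lit 232) (nat_lit 233) = true := by decide +kernel
def p15_35_0_233 : pfC (piC [(nat_lit 37297016), (nat_lit 23751559), (nat_lit 15232604)] (nat_lit 17602610)) p15_35_0 (nat_lit 3) (nat_lit 233) (nat_lit 234) = true := by decide +kernel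
def p15_35_0_234 : pfC (piC [(nat_lit 37297016), (nat_lit 23751559), (nat_lit 15232604)] (nat_lit 17602610)) p15_35_0 (nat_lit 3) (nat_lit 234) (nat_lit 235) = true := by decide +kernel
def p15_35_0_235 : pfC (piC [(nat_lit 37297016), (nat_lit 23751559), (nat_lit 15232604)] (nat_lit 17602610)) p15_35_0 (nat_lit 3) (nat_lit 235) (nat_lit 236) = true := by decide +kernel
def p15_35_0_236 : pfC (piC [(nat_lit 37297016), (nat_lit 23751559), (nat_lit 15232604)] (nat_lit 17602610)) p15_35_0 (nat_lit 3) (nat_lit 236) (nat_lit 237) = true := by decide +kernel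
def p15_35_0_237 : pfC (piC [(nat_lit 37297016), (nat_lit 23751559), (nat_lit 15232604)] (nat_lit 17602610)) p15_35_0 (nat_lit 3) (nat_lit 237) (nat_lit 238) = true := by decide +kernel
def p15_35_0_238 : pfC (piC [(nat_lit 37297016), (nat_lit 23751559), (nat_lit 15232604)] (nat_lit 17602610)) p15_35_0 (nat_lit 3) (nat_lit 238) (nat_lit 239) = true := by decide +kernel
def p15_35_0_239 : pfC (piC [(nat_lit 37297016), (nat_lit 23751559), (nat_lit 15232604)] (nat_lit 17602610)) p15_35_0 (nat_lit 3) (nat_lit 239) (nat_lit 240) = true := by decide +kernel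
def p15_35_0_240 : pfC (piC [(nat_lit 37297016), (nat_lit 23751559), (nat_lit 15232604)] (nat_lit 17602610)) p15_35_0 (nat_lit 3) (nat_lit 240) (nat_lit 241) = true := by decide +kernel
def p15_35_0_241 : pfC (piC [(nat_lit 37297016), (nat_lit 23751559), (nat_lit 15232604)] (nat_lit 17602610)) p15_35_0 (nat_lit 3) (nat_lit 241) (nat_lit 242) = true := by decide +kernel
def p15_35_0_242 : pfC (piC [(nat_lit 37297016), (nat_lit 23751559), (nat_lit 15232604)] (nat_lit 17602610)) p15_35_0 (nat_lit 3) (nat_lit 242) (nat_lit 243) = true := by decide +kernel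
def p15_35_0_243 : pfC (piC [(nat_lit 37297016), (nat_lit 23751559), (nat_lit 15232604)] (nat_lit 17602610)) p15_35_0 (nat_lit 3) (nat_lit 243) (nat_lit 244) = true := by decide +kernel
def p15_35_0_244 : pfC (piC [(nat_lit 37297016), (nat_lit 23751559), (nat_lit 15232604)] (nat_lit 17602610)) p15_35_0 (nat_lit 3) (nat_lit 244) (nat_lit 245) = true := by decide +kernel
def p15_35_0_245 : pfC (piC [(nat_lit 37297016), (nat_lit 23751559), (nat_lit 15232604)] (nat_lit 17602610)) p15_35_0 (nat_lit 3) (nat_lit 245) (nat_lit 246) = true := by decide +kernel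
def p15_35_0_246 : pfC (piC [(nat_lit 37297016), (nat_lit 23751559), (nat_lit 15232604)] (nat_lit 17602610)) p15_35_0 (nat_lit 3) (nat_lit 246) (nat_lit 247) = true := by decide +kernel
def p15_35_0_247 : pfC (piC [(nat_lit 37297016), (nat_lit 23751559), (nat_lit 15232604)] (nat_lit 17602610)) p15_35_0 (nat_lit 3) (nat_lit 247) (nat_lit 248) = true := by decide +kernel
def p15_35_0_248 : pfC (piC [(nat_lit 37297016), (nat_lit 23751559), (nat_lit 15232604)] (nat_lit 17602610)) p15_35_0 (nat_lit 3) (nat_lit 248) (nat_lit 249) = true := by decide +kernel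
def p15_35_0_249 : pfC (piC [(nat_lit 37297016), (nat_lit 23751559), (nat_lit 15232604)] (nat_lit 17602610)) p15_35_0 (nat_lit 3) (nat_lit 249) (nat_lit 250) = true := by decide +kernel
def p15_35_0_250 : pfC (piC [(nat_lit 37297016), (nat_lit 23751559), (nat_lit 15232604)] (nat_lit 17602610)) p15_35_0 (nat_lit 3) (nat_lit 250) (nat_lit 251) = true := by decide +kernel
def p15_35_0_251 : pfC (piC [(nat_lit 37297016), (nat_lit 23751559), (nat_lit 15232604)] (nat_lit 17602610)) p15_35_0 (nat_lit 3) (nat_lit 251) (nat_lit 252) = true := by decide +kernel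
def p15_35_0_252 : pfC (piC [(nat_lit 37297016), (nat_lit 23751559), (nat_lit 15232604)] (nat_lit 17602610)) p15_35_0 (nat_lit 3) (nat_lit 252) (nat_lit 253) = true := by decide +kernel
def p15_35_0_253 : pfC (piC [(nat_lit 37297016), (nat_lit 23751559), (nat_lit 15232604)] (nat_lit 17602610)) p15_35_0 (nat_lit 3) (nat_lit 253) (nat_lit 254) = true := by decide +kernel
def p15_35_0_254 : pfC (piC [(nat_lit 37297016), (nat_lit 23751559), (nat_lit 15232604)] (nat_lit 17602610)) p15_35_0 (nat_lit 3) (nat_lit 254) (nat_lit 255) = true := by decide +kernel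
def p15_35_0_255 : pfC (piC [(nat_lit 37297016), (nat_lit 23751559), (nat_lit 15232604)] (nat_lit 17602610)) p15_35_0 (nat_lit 3) (nat_lit 255) (nat_lit 256) = true := by decide +kernel
def p15_35_0_256 : pfC (piC [(nat_lit 37297016), (nat_lit 23751559), (nat_lit 15232604)] (nat_lit 17602610)) p15_35_0 (nat_lit 3) (nat_lit 256) (nat_lit 257) = true := by decide +kernel
def p15_35_0_257 : pfC (piC [(nat_lit 37297016), (nat_lit 23751559), (nat_lit 15232604)] (nat_lit 17602610)) p15_35_0 (nat_lit 3) (nat_lit 257) (nat_lit 258) = true := by decide +kernel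
def p15_35_0_258 : pfC (piC [(nat_lit 37297016), (nat_lit 23751559), (nat_lit 15232604)] (nat_lit 17602610)) p15_35_0 (nat_lit 3) (nat_lit 258) (nat_lit 259) = true := by decide +kernel
def p15_35_0_259 : pfC (piC [(nat_lit 37297016), (nat_lit 23751559), (nat_lit 15232604)] (nat_lit 17602610)) p15_35_0 (nat_lit 3) (nat_lit 259) (nat_lit 260) = true := by decide +kernel
def p15_35_0_260 : pfC (piC [(nat_lit 37297016), (nat_lit 23751559), (nat_lit 15232604)] (nat_lit 17602610)) p15_35_0 (nat_lit 3) (nat_lit 260) (nat_lit 261) = true := by decide +kernel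
def p15_35_0_261 : pfC (piC [(nat_lit 37297016), (nat_lit 23751559), (nat_lit 15232604)] (nat_lit 17602610)) p15_35_0 (nat_lit 3) (nat_lit 261) (nat_lit 262) = true := by decide +kernel
def p15_35_0_262 : pfC (piC [(nat_lit 37297016), (nat_lit 23751559), (nat_lit 15232604)] (nat_lit 17602610)) p15_35_0 (nat_lit 3) (nat_lit 262) (nat_lit 263) = true := by decide +kernel
def p15_35_0_263 : pfC (piC [(nat_lit 37297016), (nat_lit 23751559), (nat_lit 15232604)] (nat_lit 17602610)) p15_35_0 (nat_lit 3) (nat_lit 263) (nat_lit 264) = true := by decide +kernel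
def p15_35_0_264 : pfC (piC [(nat_lit 37297016), (nat_lit 23751559), (nat_lit 15232604)] (nat_lit 17602610)) p15_35_0 (nat_lit 3) (nat_lit 264) (nat_lit 265) = true := by decide +kernel
def p15_35_0_265 : pfC (piC [(nat_lit 37297016), (nat_lit 23751559), (nat_lit 15232604)] (nat_lit 17602610)) p15_35_0 (nat_lit 3) (nat_lit 265) (nat_lit 266) = true := by decide +kernel
def p15_35_0_266 : pfC (piC [(nat_lit 37297016), (nat_lit 23751559), (nat_lit 15232604)] (nat_lit 17602610)) p15_35_0 (nat_lit 3) (nat_lit 266) (nat_lit 267) = true := by decide +kernel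
def p15_35_0_267 : pfC (piC [(nat_lit 37297016), (nat_lit 23751559), (nat_lit 15232604)] (nat_lit 17602610)) p15_35_0 (nat_lit 3) (nat_lit 267) (nat_lit 268) = true := by decide +kernel
def p15_35_0_268 : pfC (piC [(nat_lit 37297016), (nat_lit 23751559), (nat_lit 15232604)] (nat_lit 17602610)) p15_35_0 (nat_lit 3) (nat_lit 268) (nat_lit 269) = true := by decide +kernel
def p15_35_0_269 : pfC (piC [(nat_lit 37297016), (nat_lit 23751559), (nat_lit 15232604)] (nat_lit 17602610)) p15_35_0 (nat_lit 3) (nat_lit 269) (nat_lit 270) = true := by decide +kernel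
def p15_35_0_270 : pfC (piC [(nat_lit 37297016), (nat_lit 23751559), (nat_lit 15232604)] (nat_lit 17602610)) p15_35_0 (nat_lit 3) (nat_lit 270) (nat_lit 271) = true := by decide +kernel
def p15_35_0_271 : pfC (piC [(nat_lit 37297016), (nat_lit 23751559), (nat_lit 15232604)] (nat_lit 17602610)) p15_35_0 (nat_lit 3) (nat_lit 271) (nat_lit 272) = true := by decide +kernel
def p15_35_0_272 : pfC (piC [(nat_lit 37297016), (nat_lit 23751559), (nat_lit 15232604)] (nat_lit 17602610)) p15_35_0 (nat_lit 3) (nat_lit 272) (nat_lit 273) = true := by decide +kernel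
def p15_35_0_273 : pfC (piC [(nat_lit 37297016), (nat_lit 23751559), (nat_lit 15232604)] (nat_lit 17602610)) p15_35_0 (nat_lit 3) (nat_lit 273) (nat_lit 274) = true := by decide +kernel
def p15_35_0_274 : pfC (piC [(nat_lit 37297016), (nat_lit 23751559), (nat_lit 15232604)] (nat_lit 17602610)) p15_35_0 (nat_lit 3) (nat_lit 274) (nat_lit 275) = true := by decide +kernel
def p15_35_0_275 : pfC (piC [(nat_lit 37297016), (nat_lit 23751559), (nat_lit 15232604)] (nat_lit 17602610)) p15_35_0 (nat_lit 3) (nat_lit 275) (nat_lit 276) = true := by decide +kernel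
def p15_35_0_276 : pfC (piC [(nat_lit 37297016), (nat_lit 23751559), (nat_lit 15232604)] (nat_lit 17602610)) p15_35_0 (nat_lit 3) (nat_lit 276) (nat_lit 277) = true := by decide +kernel
def p15_35_0_277 : pfC (piC [(nat_lit 37297016), (nat_lit 23751559), (nat_lit 15232604)] (nat_lit 17602610)) p15_35_0 (nat_lit 3) (nat_lit 277) (nat_lit 278) = true := by decide +kernel
def p15_35_0_278 : pfC (piC [(nat_lit 37297016), (nat_lit 23751559), (nat_lit 15232604)] (nat_lit 17602610)) p15_35_0 (nat_lit 3) (nat_lit 278) (nat_lit 279) = true := by decide +kernel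
def p15_35_0_279 : pfC (piC [(nat_lit 37297016), (nat_lit 23751559), (nat_lit 15232604)] (nat_lit 17602610)) p15_35_0 (nat_lit 3) (nat_lit 279) (nat_lit 280) = true := by decide +kernel
def p15_35_0_280 : pfC (piC [(nat_lit 37297016), (nat_lit 23751559), (nat_lit 15232604)] (nat_lit 17602610)) p15_35_0 (nat_lit 3) (nat_lit 280) (nat_lit 281) = true := by decide +kernel
def p15_35_0_281 : pfC (piC [(nat_lit 37297016), (nat_lit 23751559), (nat_lit 15232604)] (nat_lit 17602610)) p15_35_0 (nat_lit 3) (nat_lit 281) (nat_lit 282) = true := by decide +kernel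
def p15_35_0_282 : pfC (piC [(nat_lit 37297016), (nat_lit 23751559), (nat_lit 15232604)] (nat_lit 17602610)) p15_35_0 (nat_lit 3) (nat_lit 282) (nat_lit 283) = true := by decide +kernel
def p15_35_0_283 : pfC (piC [(nat_lit 37297016), (nat_lit 23751559), (nat_lit 15232604)] (nat_lit 17602610)) p15_35_0 (nat_lit 3) (nat_lit 283) (nat_lit 284) = true := by decide +kernel
def p15_35_0_284 : pfC (piC [(nat_lit 37297016), (nat_lit 23751559), (nat_lit 15232604)] (nat_lit 17602610)) p15_35_0 (nat_lit 3) (nat_lit 284) (nat_lit 285) = true := by decide +kernel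
def p15_35_0_285 : pfC (piC [(nat_lit 37297016), (nat_lit 23751559), (nat_lit 15232604)] (nat_lit 17602610)) p15_35_0 (nat_lit 3) (nat_lit 285) (nat_lit 286) = true := by decide +kernel
def p15_35_0_286 : pfC (piC [(nat_lit 37297016), (nat_lit 23751559), (nat_lit 15232604)] (nat_lit 17602610)) p15_35_0 (nat_lit 3) (nat_lit 286) (nat_lit 287) = true := by decide +kernel
def p15_35_0_287 : pfC (piC [(nat_lit 37297016), (nat_lit 23751559), (nat_lit 15232604)] (nat_lit 17602610)) p15_35_0 (nat_lit 3) (nat_lit 287) (nat_lit 288) = true := by decide +kernel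
def p15_35_0_288 : pfC (piC [(nat_lit 37297016), (nat_lit 23751559), (nat_lit 15232604)] (nat_lit 17602610)) p15_35_0 (nat_lit 3) (nat_lit 288) (nat_lit 289) = true := by decide +kernel
def p15_35_0_289 : pfC (piC [(nat_lit 37297016), (nat_lit 23751559), (nat_lit 15232604)] (nat_lit 17602610)) p15_35_0 (nat_lit 3) (nat_lit 289) (nat_lit 290) = true := by decide +kernel
theorem p15_35_0_T : PfS (PiF n15_35.reverse (nat_lit 17602610)) p15_35_0 (nat_lit 3) [] 0 :=
  pftab_of (los := [(nat_lit 37297016), (nat_lit 23751559), (nat_lit 15232604)]) (by decide +kernel) (hi := (nat_lit 290)) (PfP.trans (PfP.trans (PfP.trans (PfP.trans (PfP.trans (PfP.trans (PfP.trans (PfP.trans (PfP.trans (PfP.trans (PfP.trans (PfP.trans (PfP.trans (PfP.trans (PfP.trans (PfP.trans (PfP.trans (PfP.trans (PfP.trans (PfP.trans (PfP.trans (PfP.trans (PfP.trans (PfP.trans (PfP.trans (PfP.trans (PfP.trans (PfP.trans (PfP.trans (PfP.trans (PfP.trans (PfP.trans (PfP.trans (PfP.trans (PfP.trans (PfP.trans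 (PfP.trans (PfP.trans (PfP.trans (PfP.trans (PfP.trans (PfP.trans (PfP.trans (PfP.trans (PfP.trans (PfP.trans (PfP.trans (PfP.trans (PfP.trans (PfP.trans (PfP.trans (PfP.trans (PfP.trans (PfP.trans (PfP.trans (PfP.trans (PfP.trans (PfP.trans (PfP.trans (PfP.trans (PfP.trans (PfP.trans (PfP.trans (PfP.trans (PfP.trans (PfP.trans (PfP.trans (PfP.trans (PfP.trans (PfP.trans (PfP.trans (PfP.trans (PfP.trans (PfP.trans (PfP.trans (PfP.trans (PfP.trans (PfP.trans (PfP.trans (PfP.trans (PfP.trans (PfP.trans (PfP.trans (PfP.trans (PfP.trans (PfP.trans (PfP.trans (PfP.trans (PfP.trans (PfP.trans (PfP.trans (PfP.trans (PfP.trans (PfP.trans (PfP.trans (PfP.trans (PfP.trans (PfP.trans (PfP.trans (PfP.trans (PfP.trans (PfP.trans (PfP.trans (PfP.trans (PfP.trans (PfP.trans (PfP.trans (PfP.trans (PfP.trans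
 (PfP.trans (PfP.trans (PfP.trans (PfP.trans (PfP.trans (PfP.trans (PfP.trans (PfP.trans (PfP.trans (PfP.trans (PfP.trans (PfP.trans (PfP.trans (PfP.trans (PfP.trans (PfP.trans (PfP.trans (PfP.trans (PfP.trans (PfP.trans (PfP.trans (PfP.trans (PfP.trans (PfP.trans (PfP.trans (PfP.trans (PfP.trans (PfP.trans (PfP.trans (PfP.trans (PfP.trans (PfP.trans (PfP.trans (PfP.trans (PfP.trans (PfP.trans (PfP.trans (PfP.trans (PfP.trans (PfP.trans (PfP.trans (PfP.trans (PfP.trans (PfP.trans (PfP.trans (PfP.trans (PfP.trans (PfP.trans (PfP.trans (PfP.trans (PfP.trans (PfP.trans (PfP.trans (PfP.trans (PfP.trans (PfP.trans (PfP.trans (PfP.trans (PfP.trans (PfP.trans (PfP.trans (PfP.trans (PfP.trans (PfP.trans (PfP.trans (PfP.trans (PfP.trans (PfP.trans (PfP.trans (PfP.trans (PfP.trans (PfP.trans (PfP.trans (PfP.trans (PfP.trans (PfP.trans (PfP.trans (PfP.trans (PfP.trans (PfP.trans (PfP.trans (PfP.trans (PfP.trans (PfP.trans (PfP.trans (PfP.trans (PfP.trans (PfP.trans (PfP.trans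 (PfP.trans (PfP.trans (PfP.trans (PfP.trans (PfP.trans (PfP.trans (PfP.trans (PfP.trans (PfP.trans (PfP.trans (PfP.trans (PfP.trans (PfP.trans (PfP.trans (PfP.trans (PfP.trans (PfP.trans (PfP.trans (PfP.trans (PfP.trans
 (PfP.trans (PfP.trans (PfP.trans (PfP.trans (PfP.trans (PfP.trans (PfP.trans (PfP.trans (PfP.trans (PfP.trans (PfP.trans (PfP.trans (PfP.trans (PfP.trans (PfP.trans (PfP.trans (PfP.trans (PfP.trans (PfP.trans (PfP.trans (PfP.trans (PfP.trans (PfP.trans (PfP.trans (PfP.trans (PfP.trans (PfP.trans (PfP.trans (PfP.trans (PfP.trans (PfP.trans (PfP.trans (PfP.trans (PfP.trans (PfP.trans (PfP.trans (PfP.trans (PfP.trans (PfP.trans (PfP.trans (PfP.trans (PfP.trans (PfP.trans (PfP.trans (PfP.trans (PfP.trans (PfP.trans (PfP.trans (PfP.trans (PfP.trans (PfP.trans (PfP.trans (PfP.trans (PfP.trans (PfP.trans (PfP.trans (PfP.trans (PfP.trans (PfP.trans (PfP.trans (PfP.trans (PfP.trans (PfP.trans (PfP.trans (PfP.trans (PfP.trans (PfP.trans (PfP.trans (PfP.trans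 (PfP.trans (PfP.trans (pfC_sound p15_35_0_0) (pfC_sound p15_35_0_1)) (pfC_sound p15_35_0_2)) (pfC_sound p15_35_0_3)) (pfC_sound p15_35_0_4)) (pfC_sound p15_35_0_5)) (pfC_sound p15_35_0_6)) (pfC_sound p15_35_0_7)) (pfC_sound p15_35_0_8)) (pfC_sound p15_35_0_9)) (pfC_sound p15_35_0_10)) (pfC_sound p15_35_0_11)) (pfC_sound p15_35_0_12)) (pfC_sound p15_35_0_13)) (pfC_sound p15_35_0_14)) (pfC_sound p15_35_0_15)) (pfC_sound p15_35_0_16))
 (pfC_sound p15_35_0_17)) (pfC_sound p15_35_0_18)) (pfC_sound p15_35_0_19)) (pfC_sound p15_35_0_20)) (pfC_sound p15_35_0_21)) (pfC_sound p15_35_0_22)) (pfC_sound p15_35_0_23)) (pfC_sound p15_35_0_24)) (pfC_sound p15_35_0_25)) (pfC_sound p15_35_0_26)) (pfC_sound p15_35_0_27)) (pfC_sound p15_35_0_28)) (pfC_sound p15_35_0_29)) (pfC_sound p15_35_0_30)) (pfC_sound p15_35_0_31)) (pfC_sound p15_35_0_32)) (pfC_sound p15_35_0_33)) (pfC_sound p15_35_0_34)) (pfC_sound p15_35_0_35)) (pfC_sound p15_35_0_36)) (pfC_sound p15_35_0_37)) (pfC_sound p15_35_0_38))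 (pfC_sound p15_35_0_39)) (pfC_sound p15_35_0_40)) (pfC_sound p15_35_0_41)) (pfC_sound p15_35_0_42)) (pfC_sound p15_35_0_43)) (pfC_sound p15_35_0_44)) (pfC_sound p15_35_0_45)) (pfC_sound p15_35_0_46)) (pfC_sound p15_35_0_47)) (pfC_sound p15_35_0_48)) (pfC_sound p15_35_0_49)) (pfC_sound p15_35_0_50)) (pfC_sound p15_35_0_51)) (pfC_sound p15_35_0_52)) (pfC_sound p15_35_0_53)) (pfC_sound p15_35_0_54)) (pfC_sound p15_35_0_55)) (pfC_sound p15_35_0_56)) (pfC_sound p15_35_0_57)) (pfC_sound p15_35_0_58)) (pfC_sound p15_35_0_59)) (pfC_sound p15_35_0_60)) (pfC_sound p15_35_0_61)) (pfC_sound p15_35_0_62)) (pfC_sound p15_35_0_63)) (pfC_sound p15_35_0_64))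
 (pfC_sound p15_35_0_65)) (pfC_sound p15_35_0_66)) (pfC_sound p15_35_0_67)) (pfC_sound p15_35_0_68)) (pfC_sound p15_35_0_69)) (pfC_sound p15_35_0_70)) (pfC_sound p15_35_0_71)) (pfC_sound p15_35_0_72)) (pfC_sound p15_35_0_73)) (pfC_sound p15_35_0_74)) (pfC_sound p15_35_0_75)) (pfC_sound p15_35_0_76)) (pfC_sound p15_35_0_77)) (pfC_sound p15_35_0_78)) (pfC_sound p15_35_0_79)) (pfC_sound p15_35_0_80)) (pfC_sound p15_35_0_81)) (pfC_sound p15_35_0_82)) (pfC_sound p15_35_0_83)) (pfC_sound p15_35_0_84)) (pfC_sound p15_35_0_85)) (pfC_sound p15_35_0_86)) (pfC_sound p15_35_0_87)) (pfC_sound p15_35_0_88)) (pfC_sound p15_35_0_89)) (pfC_sound p15_35_0_90)) (pfC_sound p15_35_0_91)) (pfC_sound p15_35_0_92)) (pfC_sound p15_35_0_93)) (pfC_sound p15_35_0_94)) (pfC_sound p15_35_0_95)) (pfC_sound p15_35_0_96)) (pfC_sound p15_35_0_97)) (pfC_sound p15_35_0_98)) (pfC_sound p15_35_0_99)) (pfC_sound p15_35_0_100)) (pfC_sound p15_35_0_101)) (pfC_sound p15_35_0_102)) (pfC_sound p15_35_0_103))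 (pfC_sound p15_35_0_104)) (pfC_sound p15_35_0_105)) (pfC_sound p15_35_0_106)) (pfC_sound p15_35_0_107)) (pfC_sound p15_35_0_108)) (pfC_sound p15_35_0_109)) (pfC_sound p15_35_0_110)) (pfC_sound p15_35_0_111)) (pfC_sound
 p15_35_0_112)) (pfC_sound p15_35_0_113)) (pfC_sound p15_35_0_114)) (pfC_sound p15_35_0_115)) (pfC_sound p15_35_0_116)) (pfC_sound p15_35_0_117)) (pfC_sound p15_35_0_118)) (pfC_sound p15_35_0_119)) (pfC_sound p15_35_0_120)) (pfC_sound p15_35_0_121)) (pfC_sound p15_35_0_122)) (pfC_sound p15_35_0_123)) (pfC_sound p15_35_0_124)) (pfC_sound p15_35_0_125)) (pfC_sound p15_35_0_126)) (pfC_sound p15_35_0_127)) (pfC_sound p15_35_0_128)) (pfC_sound p15_35_0_129)) (pfC_sound p15_35_0_130)) (pfC_sound p15_35_0_131)) (pfC_sound p15_35_0_132)) (pfC_sound p15_35_0_133)) (pfC_sound p15_35_0_134)) (pfC_sound p15_35_0_135)) (pfC_sound p15_35_0_136)) (pfC_sound p15_35_0_137)) (pfC_sound p15_35_0_138)) (pfC_sound p15_35_0_139)) (pfC_sound p15_35_0_140)) (pfC_sound p15_35_0_141))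 (pfC_sound p15_35_0_142)) (pfC_sound p15_35_0_143)) (pfC_sound p15_35_0_144)) (pfC_sound p15_35_0_145)) (pfC_sound p15_35_0_146)) (pfC_sound p15_35_0_147)) (pfC_sound p15_35_0_148)) (pfC_sound p15_35_0_149)) (pfC_sound p15_35_0_150)) (pfC_sound p15_35_0_151)) (pfC_sound p15_35_0_152)) (pfC_sound p15_35_0_153)) (pfC_sound p15_35_0_154)) (pfC_sound p15_35_0_155)) (pfC_sound p15_35_0_156)) (pfC_sound p15_35_0_157)) (pfC_sound
 p15_35_0_158)) (pfC_sound p15_35_0_159)) (pfC_sound p15_35_0_160)) (pfC_sound p15_35_0_161)) (pfC_sound p15_35_0_162)) (pfC_sound p15_35_0_163)) (pfC_sound p15_35_0_164)) (pfC_sound p15_35_0_165)) (pfC_sound p15_35_0_166)) (pfC_sound p15_35_0_167)) (pfC_sound p15_35_0_168)) (pfC_sound p15_35_0_169)) (pfC_sound p15_35_0_170)) (pfC_sound p15_35_0_171)) (pfC_sound p15_35_0_172)) (pfC_sound p15_35_0_173)) (pfC_sound p15_35_0_174)) (pfC_sound p15_35_0_175)) (pfC_sound p15_35_0_176)) (pfC_sound p15_35_0_177)) (pfC_sound p15_35_0_178)) (pfC_sound p15_35_0_179))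 (pfC_sound p15_35_0_180)) (pfC_sound p15_35_0_181)) (pfC_sound p15_35_0_182)) (pfC_sound p15_35_0_183)) (pfC_sound p15_35_0_184)) (pfC_sound p15_35_0_185)) (pfC_sound p15_35_0_186)) (pfC_sound p15_35_0_187)) (pfC_sound p15_35_0_188)) (pfC_sound p15_35_0_189)) (pfC_sound p15_35_0_190)) (pfC_sound p15_35_0_191)) (pfC_sound p15_35_0_192)) (pfC_sound p15_35_0_193)) (pfC_sound p15_35_0_194)) (pfC_sound p15_35_0_195)) (pfC_sound p15_35_0_196)) (pfC_sound p15_35_0_197)) (pfC_sound p15_35_0_198)) (pfC_sound p15_35_0_199)) (pfC_sound p15_35_0_200)) (pfC_sound p15_35_0_201)) (pfC_sound p15_35_0_202)) (pfC_sound p15_35_0_203)) (pfC_sound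
 p15_35_0_204)) (pfC_sound p15_35_0_205)) (pfC_sound p15_35_0_206)) (pfC_sound p15_35_0_207)) (pfC_sound p15_35_0_208)) (pfC_sound p15_35_0_209)) (pfC_sound p15_35_0_210)) (pfC_sound p15_35_0_211)) (pfC_sound p15_35_0_212)) (pfC_sound p15_35_0_213)) (pfC_sound p15_35_0_214)) (pfC_sound p15_35_0_215)) (pfC_sound p15_35_0_216)) (pfC_sound p15_35_0_217)) (pfC_sound p15_35_0_218)) (pfC_sound p15_35_0_219)) (pfC_sound p15_35_0_220)) (pfC_sound p15_35_0_221)) (pfC_sound p15_35_0_222)) (pfC_sound p15_35_0_223)) (pfC_sound p15_35_0_224)) (pfC_sound p15_35_0_225)) (pfC_sound p15_35_0_226)) (pfC_sound p15_35_0_227)) (pfC_sound p15_35_0_228)) (pfC_sound p15_35_0_229)) (pfC_sound p15_35_0_230)) (pfC_sound p15_35_0_231)) (pfC_sound p15_35_0_232)) (pfC_sound p15_35_0_233)) (pfC_sound p15_35_0_234)) (pfC_sound p15_35_0_235)) (pfC_sound p15_35_0_236)) (pfC_sound p15_35_0_237)) (pfC_sound p15_35_0_238)) (pfC_sound p15_35_0_239)) (pfC_sound p15_35_0_240)) (pfC_sound p15_35_0_241)) (pfC_sound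 p15_35_0_242)) (pfC_sound p15_35_0_243)) (pfC_sound p15_35_0_244)) (pfC_sound p15_35_0_245)) (pfC_sound p15_35_0_246)) (pfC_sound p15_35_0_247)) (pfC_sound p15_35_0_248)) (pfC_sound p15_35_0_249)) (pfC_sound
 p15_35_0_250)) (pfC_sound p15_35_0_251)) (pfC_sound p15_35_0_252)) (pfC_sound p15_35_0_253)) (pfC_sound p15_35_0_254)) (pfC_sound p15_35_0_255)) (pfC_sound p15_35_0_256)) (pfC_sound p15_35_0_257)) (pfC_sound p15_35_0_258)) (pfC_sound p15_35_0_259)) (pfC_sound p15_35_0_260)) (pfC_sound p15_35_0_261)) (pfC_sound p15_35_0_262)) (pfC_sound p15_35_0_263)) (pfC_sound p15_35_0_264)) (pfC_sound p15_35_0_265)) (pfC_sound p15_35_0_266)) (pfC_sound p15_35_0_267)) (pfC_sound p15_35_0_268)) (pfC_sound p15_35_0_269)) (pfC_sound p15_35_0_270)) (pfC_sound p15_35_0_271)) (pfC_sound p15_35_0_272)) (pfC_sound p15_35_0_273)) (pfC_sound p15_35_0_274)) (pfC_sound p15_35_0_275)) (pfC_sound p15_35_0_276)) (pfC_sound p15_35_0_277)) (pfC_sound p15_35_0_278)) (pfC_sound p15_35_0_279)) (pfC_sound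 p15_35_0_280)) (pfC_sound p15_35_0_281)) (pfC_sound p15_35_0_282)) (pfC_sound p15_35_0_283)) (pfC_sound p15_35_0_284)) (pfC_sound p15_35_0_285)) (pfC_sound p15_35_0_286)) (pfC_sound p15_35_0_287)) (pfC_sound p15_35_0_288)) (pfC_sound p15_35_0_289)) (by decide +kernel)

def z15_35_0 : zOK yB15_35 (nat_lit 0) (nat_lit 0) (nat_lit 400) (nat_lit 17602610) (nat_lit 11026205) = true := by decide +kernel
def g15_35_0 : gOK yB15_35.x P15_35 (nat_lit 1384) (q15_35 :: r15_35) (nat_lit 0) (nat_lit 0) (nat_lit 1) (nat_lit 400) (nat_lit 0) (nat_lit 11000000) (nat_lit 12712500) (nat_lit 12712500) [(nat_lit 800), (nat_lit 1600)] = true := by decide +kernel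
def v15_35_0 : ivC P15_35 s15_35 w15_35 n15_35 (nat_lit 3) (nat_lit 5280) (nat_lit 0) (nat_lit 0) f184_0_0 f192_0_0 (nat_lit 1) (nat_lit 400) f184_0_400 f192_0_400 (nat_lit 17602610) (nat_lit 11026205) p15_35_0 = true := by decide +kernel
def p15_35_1 : PF := (PF.cons (PF.cons (PF.cons (PF.leaf (nat_lit 2035175) (nat_lit 9472029) (nat_lit 57636783) (nat_lit 9472029) [(nat_lit 0), (nat_lit 0), (nat_lit 0)]) (PF.cons (PF.leaf (nat_lit 2240850) (nat_lit 364490) (nat_lit 57239057) (nat_lit 9505264) [(nat_lit 364490), (nat_lit 0), (nat_lit 0)]) (PF.cons (PF.leaf (nat_lit 2483544) (nat_lit 396864) (nat_lit 56774634) (nat_lit 9540450) [(nat_lit 396864), (nat_lit 0), (nat_lit 0)]) (PF.cons (PF.leaf (nat_lit 2756205) (nat_lit 425658) (nat_lit 56256460) (nat_lit 9575377) [(nat_lit 425658), (nat_lit 0), (nat_lit 0)]) (PF.cons (PF.leaf (nat_lit 3054481) (nat_lit 451628) (nat_lit 55693874) (nat_lit 9608423) [(nat_lit 451628), (nat_lit 0), (nat_lit 0)]) (PF.cons (PF.leaf (nat_lit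 3374860) (nat_lit 475246) (nat_lit 55094210) (nat_lit 9638370) [(nat_lit 475246), (nat_lit 0), (nat_lit 0)]) (PF.cons (PF.leaf (nat_lit 3714482) (nat_lit 496827) (nat_lit 54463535) (nat_lit 9664311) [(nat_lit 496827), (nat_lit 0), (nat_lit 0)]) (PF.cons (PF.leaf (nat_lit 4070846) (nat_lit 516599) (nat_lit 53807032) (nat_lit 9685586) [(nat_lit 516599), (nat_lit 0), (nat_lit 0)]) (PF.cons (PF.leaf (nat_lit 4441748) (nat_lit 534731) (nat_lit 53129228) (nat_lit 9701733)
 [(nat_lit 534731), (nat_lit 0), (nat_lit 0)]) (PF.cons (PF.leaf (nat_lit 4825180) (nat_lit 551359) (nat_lit 52434124) (nat_lit 9712455) [(nat_lit 551359), (nat_lit 0), (nat_lit 0)]) (PF.cons (PF.leaf (nat_lit 5219325) (nat_lit 566593) (nat_lit 51725292) (nat_lit 9717588) [(nat_lit 566593), (nat_lit 0), (nat_lit 0)]) (PF.cons (PF.leaf (nat_lit 5622524) (nat_lit 580527) (nat_lit 51005931) (nat_lit 9717080) [(nat_lit 580527), (nat_lit 0), (nat_lit 0)]) (PF.cons (PF.leaf (nat_lit 6033279) (nat_lit 593244) (nat_lit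 50278914) (nat_lit 9710963) [(nat_lit 593244), (nat_lit 0), (nat_lit 0)]) (PF.cons (PF.leaf (nat_lit 6450144) (nat_lit 604819) (nat_lit 49546818) (nat_lit 9699343) [(nat_lit 604819), (nat_lit 0), (nat_lit 0)]) (PF.cons (PF.leaf (nat_lit 6871873) (nat_lit 615319) (nat_lit 48811958) (nat_lit 9682379) [(nat_lit 615319), (nat_lit 0), (nat_lit 0)]) (PF.cons PF.nil (PF.cons PF.nil (PF.cons PF.nil PF.nil)))))))))))))))))) (PF.cons (PF.cons (PF.leaf (nat_lit 2805475) (nat_lit 1936715) (nat_lit 55572577) (nat_lit 9599520) [(nat_lit 0), (nat_lit 1936715), (nat_lit 0)]) (PF.cons (PF.leaf (nat_lit 3072705) (nat_lit 445266) (nat_lit 55058440) (nat_lit 9624777) [(nat_lit 445266), (nat_lit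
 1980328), (nat_lit 0)]) (PF.cons (PF.leaf (nat_lit 3367266) (nat_lit 469795) (nat_lit 54498301) (nat_lit 9648021) [(nat_lit 469795), (nat_lit 2022899), (nat_lit 0)]) (PF.cons (PF.leaf (nat_lit 3684304) (nat_lit 491938) (nat_lit 53901267) (nat_lit 9668122) [(nat_lit 491938), (nat_lit 2063606), (nat_lit 0)]) (PF.cons (PF.leaf (nat_lit 4020485) (nat_lit 512066) (nat_lit 53274274) (nat_lit 9684280) [(nat_lit 512066), (nat_lit 2101991), (nat_lit 0)]) (PF.cons (PF.leaf (nat_lit 4373066) (nat_lit 530427) (nat_lit 52622928) (nat_lit 9695939) [(nat_lit 530427), (nat_lit 2137805), (nat_lit 0)]) (PF.cons (PF.leaf (nat_lit 4739719) (nat_lit 547204) (nat_lit 51951936) (nat_lit 9702727) [(nat_lit 547204), (nat_lit 2170922), (nat_lit 0)]) (PF.cons (PF.leaf (nat_lit 5118392) (nat_lit 562535) (nat_lit 51265344) (nat_lit 9704421) [(nat_lit 562535), (nat_lit 2201295), (nat_lit 0)]) (PF.cons (PF.leaf (nat_lit 5507254) (nat_lit 576535) (nat_lit 50566685) (nat_lit 9700916) [(nat_lit 576535),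 (nat_lit 2228930), (nat_lit 0)]) (PF.cons (PF.leaf (nat_lit 5904629) (nat_lit 589296) (nat_lit 49859067) (nat_lit 9692202) [(nat_lit 589296), (nat_lit 2253870), (nat_lit 0)]) (PF.cons (PF.leaf (nat_lit 6309085)
 (nat_lit 600903) (nat_lit 49145246) (nat_lit 9678344) [(nat_lit 600903), (nat_lit 2276182), (nat_lit 0)]) (PF.cons (PF.leaf (nat_lit 6719210) (nat_lit 611429) (nat_lit 48427665) (nat_lit 9659466) [(nat_lit 611429), (nat_lit 2295951), (nat_lit 0)]) (PF.cons (PF.leaf (nat_lit 7133787) (nat_lit 620942) (nat_lit 47708496) (nat_lit 9635738) [(nat_lit 620942), (nat_lit 2313273), (nat_lit 0)]) (PF.cons PF.nil (PF.cons PF.nil (PF.cons PF.nil PF.nil)))))))))))))))) (PF.cons (PF.cons (PF.leaf (nat_lit 3680453) (nat_lit 2075699) (nat_lit 53287680) (nat_lit 9669732) [(nat_lit 0), (nat_lit 2075699), (nat_lit 0)]) (PF.cons (PF.leaf (nat_lit 3990984) (nat_lit 505649) (nat_lit 52701515) (nat_lit 9680798) [(nat_lit 505649), (nat_lit 2110425), (nat_lit 0)]) (PF.cons (PF.leaf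 (nat_lit 4321687) (nat_lit 524667) (nat_lit 52084717) (nat_lit 9688065) [(nat_lit 524667), (nat_lit 2143347), (nat_lit 0)]) (PF.cons (PF.leaf (nat_lit 4668942) (nat_lit 541890) (nat_lit 51443841) (nat_lit 9691050) [(nat_lit 541890), (nat_lit 2174124), (nat_lit 0)]) (PF.cons (PF.leaf (nat_lit 5030152) (nat_lit 557535) (nat_lit 50784076) (nat_lit 9689448) [(nat_lit 557535), (nat_lit 2202573), (nat_lit 0)]) (PF.cons (PF.leaf
 (nat_lit 5403123) (nat_lit 571761) (nat_lit 50109699) (nat_lit 9683094) [(nat_lit 571761), (nat_lit 2228606), (nat_lit 0)]) (PF.cons (PF.leaf (nat_lit 5785970) (nat_lit 584692) (nat_lit 49424328) (nat_lit 9671926) [(nat_lit 584692), (nat_lit 2252203), (nat_lit 0)]) (PF.cons (PF.leaf (nat_lit 6176994) (nat_lit 596429) (nat_lit 48731077) (nat_lit 9655965) [(nat_lit 596429), (nat_lit 2273381), (nat_lit 0)]) (PF.cons (PF.leaf (nat_lit 6574726) (nat_lit 607059) (nat_lit 48032650) (nat_lit 9635300) [(nat_lit 607059), (nat_lit 2292191), (nat_lit 0)]) (PF.cons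 (PF.leaf (nat_lit 6977826) (nat_lit 616658) (nat_lit 47331412) (nat_lit 9610066) [(nat_lit 616658), (nat_lit 2308702), (nat_lit 0)]) (PF.cons (PF.leaf (nat_lit 7385082) (nat_lit 625294) (nat_lit 46629438) (nat_lit 9580440) [(nat_lit 625294), (nat_lit 2322996), (nat_lit 0)]) (PF.cons PF.nil (PF.cons PF.nil (PF.cons PF.nil PF.nil)))))))))))))) (PF.cons (PF.cons (PF.leaf (nat_lit 4619634) (nat_lit 2177846) (nat_lit 50898240) (nat_lit 9677033) [(nat_lit 0), (nat_lit 2177846), (nat_lit 0)]) (PF.cons (PF.leaf (nat_lit 4959465) (nat_lit 551173) (nat_lit 50272994) (nat_lit 9672328) [(nat_lit 551173), (nat_lit 2204105), (nat_lit 0)])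
 (PF.cons (PF.leaf (nat_lit 5313911) (nat_lit 565902) (nat_lit 49628575) (nat_lit 9663314) [(nat_lit 565902), (nat_lit 2228372), (nat_lit 0)]) (PF.cons (PF.leaf (nat_lit 5680194) (nat_lit 579203) (nat_lit 48969765) (nat_lit 9649872) [(nat_lit 579203), (nat_lit 2250521), (nat_lit 0)]) (PF.cons (PF.leaf (nat_lit 6056269) (nat_lit 591222) (nat_lit 48300438) (nat_lit 9631978) [(nat_lit 591222), (nat_lit 2270501), (nat_lit 0)]) (PF.cons (PF.leaf (nat_lit 6440381) (nat_lit 602073) (nat_lit 47623821) (nat_lit 9609680) [(nat_lit 602073), (nat_lit 2288313), (nat_lit 0)]) (PF.cons (PF.leaf (nat_lit 6831001) (nat_lit 611851) (nat_lit 46942650) (nat_lit 9583083) [(nat_lit 611851), (nat_lit 2303990), (nat_lit 0)]) (PF.cons (PF.leaf (nat_lit 7226782) (nat_lit 620635) (nat_lit 46259270) (nat_lit 9552333) [(nat_lit 620635), (nat_lit 2317586), (nat_lit 0)]) (PF.cons (PF.leaf (nat_lit 7626538) (nat_lit 628497) (nat_lit 45575706) (nat_lit 9517606) [(nat_lit 628497), (nat_lit 2329173),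 (nat_lit 0)]) (PF.cons (PF.leaf (nat_lit 8029194) (nat_lit 635499) (nat_lit 44893714) (nat_lit 9479104) [(nat_lit 635499), (nat_lit 2338832), (nat_lit 0)]) (PF.cons PF.nil (PF.cons PF.nil PF.nil)))))))))))) (PF.cons
 (PF.cons (PF.leaf (nat_lit 5592313) (nat_lit 2248966) (nat_lit 48487335) (nat_lit 9625610) [(nat_lit 0), (nat_lit 2248966), (nat_lit 0)]) (PF.cons (PF.leaf (nat_lit 5950517) (nat_lit 584996) (nat_lit 47847284) (nat_lit 9606023) [(nat_lit 584996), (nat_lit 2267627), (nat_lit 0)]) (PF.cons (PF.leaf (nat_lit 6319002) (nat_lit 596256) (nat_lit 47196528) (nat_lit 9582305) [(nat_lit 596256), (nat_lit 2284366), (nat_lit 0)]) (PF.cons (PF.leaf (nat_lit 6695600) (nat_lit 606355) (nat_lit 46538562) (nat_lit 9554531) [(nat_lit 606355), (nat_lit 2299163), (nat_lit 0)]) (PF.cons (PF.leaf (nat_lit 7078687) (nat_lit 615398) (nat_lit 45876255) (nat_lit 9522822) [(nat_lit 615398), (nat_lit 2312035), (nat_lit 0)]) (PF.cons (PF.leaf (nat_lit 7466877) (nat_lit 623474) (nat_lit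 45212005) (nat_lit 9487332) [(nat_lit 623474), (nat_lit 2323026), (nat_lit 0)]) (PF.cons (PF.leaf (nat_lit 7858944) (nat_lit 630658) (nat_lit 44547843) (nat_lit 9448240) [(nat_lit 630658), (nat_lit 2332194), (nat_lit 0)]) (PF.cons (PF.leaf (nat_lit 8253850) (nat_lit 637017) (nat_lit 43885498) (nat_lit 9405743) [(nat_lit 637017), (nat_lit 2339612), (nat_lit 0)]) (PF.cons PF.nil (PF.cons PF.nil PF.nil)))))))))) (PF.cons (PF.cons
 (PF.leaf (nat_lit 6575362) (nat_lit 2294270) (nat_lit 46113455) (nat_lit 9524006) [(nat_lit 0), (nat_lit 2294270), (nat_lit 0)]) (PF.cons (PF.leaf (nat_lit 6943526) (nat_lit 609376) (nat_lit 45476020) (nat_lit 9491575) [(nat_lit 609376), (nat_lit 2306368), (nat_lit 0)]) (PF.cons (PF.leaf (nat_lit 7318608) (nat_lit 617800) (nat_lit 44834019) (nat_lit 9455522) [(nat_lit 617800), (nat_lit 2316733), (nat_lit 0)]) (PF.cons (PF.leaf (nat_lit 7698887) (nat_lit 625270) (nat_lit 44189999) (nat_lit 9416014) [(nat_lit 625270), (nat_lit 2325397), (nat_lit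 0)]) (PF.cons (PF.leaf (nat_lit 8083093) (nat_lit 631869) (nat_lit 43546059) (nat_lit 9373233) [(nat_lit 631869), (nat_lit 2332408), (nat_lit 0)]) (PF.cons (PF.leaf (nat_lit 8470133) (nat_lit 637668) (nat_lit 42903952) (nat_lit 9327376) [(nat_lit 637668), (nat_lit 2337828), (nat_lit 0)]) (PF.cons PF.nil (PF.cons PF.nil PF.nil)))))))) (PF.cons (PF.cons (PF.leaf (nat_lit 7551854) (nat_lit 2318443) (nat_lit 43816079) (nat_lit 9382071) [(nat_lit 0), (nat_lit 2318443), (nat_lit 0)]) (PF.cons (PF.leaf (nat_lit 7923623) (nat_lit 626107) (nat_lit 43193287) (nat_lit 9339219) [(nat_lit 626107), (nat_lit 2325033), (nat_lit 0)]) (PF.cons (PF.leaf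
 (nat_lit 8299727) (nat_lit 632210) (nat_lit 42570277) (nat_lit 9293376) [(nat_lit 632210), (nat_lit 2330122), (nat_lit 0)]) (PF.cons (PF.leaf (nat_lit 8678783) (nat_lit 637529) (nat_lit 41948887) (nat_lit 9244738) [(nat_lit 637529), (nat_lit 2333766), (nat_lit 0)]) (PF.cons (PF.leaf (nat_lit 9059822) (nat_lit 642131) (nat_lit 41330633) (nat_lit 9193505) [(nat_lit 642131), (nat_lit 2336025), (nat_lit 0)]) (PF.cons PF.nil PF.nil)))))) (PF.cons (PF.cons (PF.leaf (nat_lit 8509856) (nat_lit 2325613) (nat_lit 41620160) (nat_lit 9209357) [(nat_lit 0), (nat_lit 2325613), (nat_lit 0)]) (PF.cons (PF.leaf (nat_lit 8880543) (nat_lit 636665) (nat_lit 41019901) (nat_lit 9158474) [(nat_lit 636665), (nat_lit 2327681), (nat_lit 0)]) (PF.cons (PF.leaf (nat_lit 9253610) (nat_lit 640876) (nat_lit 40422410) (nat_lit 9105234) [(nat_lit 640876), (nat_lit 2328487), (nat_lit 0)]) (PF.cons PF.nil PF.nil)))) (PF.cons (PF.cons (PF.leaf (nat_lit 9441344) (nat_lit 2319324) (nat_lit 39539863) (nat_lit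 9014353) [(nat_lit 0), (nat_lit 2319324), (nat_lit 0)]) (PF.cons PF.nil PF.nil)) (PF.cons PF.nil (PF.cons PF.nil PF.nil))))))))))) (PF.cons (PF.cons (PF.cons (PF.leaf (nat_lit 3803278) (nat_lit 6494377) (nat_lit
 51037367) (nat_lit 9577068) [(nat_lit 0), (nat_lit 0), (nat_lit 6494377)]) (PF.cons (PF.leaf (nat_lit 4078081) (nat_lit 480143) (nat_lit 50537066) (nat_lit 9578239) [(nat_lit 480143), (nat_lit 0), (nat_lit 6513362)]) (PF.cons (PF.leaf (nat_lit 4377618) (nat_lit 502118) (nat_lit 49997487) (nat_lit 9576371) [(nat_lit 502118), (nat_lit 0), (nat_lit 6530716)]) (PF.cons (PF.leaf (nat_lit 4696809) (nat_lit 521438) (nat_lit 49427774) (nat_lit 9571001) [(nat_lit 521438), (nat_lit 0), (nat_lit 6545720)]) (PF.cons (PF.leaf (nat_lit 5032243) (nat_lit 538600) (nat_lit 48834674) (nat_lit 9561830) [(nat_lit 538600), (nat_lit 0), (nat_lit 6557904)]) (PF.cons (PF.leaf (nat_lit 5381216) (nat_lit 553939) (nat_lit 48223460) (nat_lit 9548684) [(nat_lit 553939), (nat_lit 0), (nat_lit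 6566970)]) (PF.cons (PF.leaf (nat_lit 5741490) (nat_lit 567696) (nat_lit 47598410) (nat_lit 9531482) [(nat_lit 567696), (nat_lit 0), (nat_lit 6572743)]) (PF.cons (PF.leaf (nat_lit 6111155) (nat_lit 580051) (nat_lit 46963084) (nat_lit 9510221) [(nat_lit 580051), (nat_lit 0), (nat_lit 6575142)]) (PF.cons (PF.leaf (nat_lit 6488592) (nat_lit 591150) (nat_lit 46320499) (nat_lit 9484956) [(nat_lit 591150), (nat_lit 0), (nat_lit
 6574152)]) (PF.cons (PF.leaf (nat_lit 6872342) (nat_lit 601108) (nat_lit 45673235) (nat_lit 9455789) [(nat_lit 601108), (nat_lit 0), (nat_lit 6569812)]) (PF.cons (PF.leaf (nat_lit 7261119) (nat_lit 610023) (nat_lit 45023520) (nat_lit 9422855) [(nat_lit 610023), (nat_lit 0), (nat_lit 6562200)]) (PF.cons (PF.leaf (nat_lit 7653785) (nat_lit 617980) (nat_lit 44373284) (nat_lit 9386319) [(nat_lit 617980), (nat_lit 0), (nat_lit 6551425)]) (PF.cons PF.nil (PF.cons PF.nil PF.nil)))))))))))))) (PF.cons (PF.cons (PF.leaf (nat_lit 4667737) (nat_lit 2147983)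 (nat_lit 48868239) (nat_lit 9550084) [(nat_lit 0), (nat_lit 2147983), (nat_lit 6542504)]) (PF.cons (PF.leaf (nat_lit 4977969) (nat_lit 529654) (nat_lit 48316207) (nat_lit 9538833) [(nat_lit 529654), (nat_lit 2172578), (nat_lit 6551538)]) (PF.cons (PF.leaf (nat_lit 5305791) (nat_lit 546033) (nat_lit 47739476) (nat_lit 9523896) [(nat_lit 546033), (nat_lit 2195393), (nat_lit 6557978)]) (PF.cons (PF.leaf (nat_lit 5647646) (nat_lit 560550) (nat_lit 47144204) (nat_lit 9505167) [(nat_lit 560550), (nat_lit 2216240), (nat_lit 6561548)]) (PF.cons (PF.leaf (nat_lit 6001005) (nat_lit 573481) (nat_lit 46535132) (nat_lit 9482617) [(nat_lit 573481),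
 (nat_lit 2235044), (nat_lit 6562093)]) (PF.cons (PF.leaf (nat_lit 6363825) (nat_lit 585028) (nat_lit 45916054) (nat_lit 9456280) [(nat_lit 585028), (nat_lit 2251792), (nat_lit 6559545)]) (PF.cons (PF.leaf (nat_lit 6734357) (nat_lit 595345) (nat_lit 45290092) (nat_lit 9426236) [(nat_lit 595345), (nat_lit 2266513), (nat_lit 6553899)]) (PF.cons (PF.leaf (nat_lit 7111115) (nat_lit 604555) (nat_lit 44659863) (nat_lit 9392603) [(nat_lit 604555), (nat_lit 2279259), (nat_lit 6545200)]) (PF.cons (PF.leaf (nat_lit 7492804) (nat_lit 612759) (nat_lit 44027582) (nat_lit 9355528) [(nat_lit 612759), (nat_lit 2290100), (nat_lit 6533527)]) (PF.cons (PF.leaf (nat_lit 7878279) (nat_lit 620043) (nat_lit 43395145) (nat_lit 9315177) [(nat_lit 620043), (nat_lit 2299114), (nat_lit 6518985)]) (PF.cons (PF.leaf (nat_lit 8266520) (nat_lit 626481) (nat_lit 42764177) (nat_lit 9271733) [(nat_lit 626481), (nat_lit 2306387), (nat_lit 6501699)]) (PF.cons PF.nil PF.nil)))))))))))) (PF.cons (PF.cons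 (PF.leaf (nat_lit 5576149) (nat_lit 2213524) (nat_lit 46656304) (nat_lit 9476181) [(nat_lit 0), (nat_lit 2213524), (nat_lit 6549277)]) (PF.cons (PF.leaf (nat_lit 5909178) (nat_lit 565491) (nat_lit 46080485) (nat_lit
 9452699) [(nat_lit 565491), (nat_lit 2231052), (nat_lit 6548031)]) (PF.cons (PF.leaf (nat_lit 6254627) (nat_lit 577785) (nat_lit 45490048) (nat_lit 9425582) [(nat_lit 577785), (nat_lit 2246807), (nat_lit 6543996)]) (PF.cons (PF.leaf (nat_lit 6609859) (nat_lit 588677) (nat_lit 44889268) (nat_lit 9394907) [(nat_lit 588677), (nat_lit 2260742), (nat_lit 6537119)]) (PF.cons (PF.leaf (nat_lit 6972985) (nat_lit 598342) (nat_lit 44281526) (nat_lit 9360784) [(nat_lit 598342), (nat_lit 2272863), (nat_lit 6527405)]) (PF.cons (PF.leaf (nat_lit 7342404) (nat_lit 606917) (nat_lit 43669568) (nat_lit 9323348) [(nat_lit 606917), (nat_lit 2283203), (nat_lit 6514903)]) (PF.cons (PF.leaf (nat_lit 7716761) (nat_lit 614509) (nat_lit 43055670) (nat_lit 9282756) [(nat_lit 614509),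 (nat_lit 2291818), (nat_lit 6499693)]) (PF.cons (PF.leaf (nat_lit 8094893) (nat_lit 621209) (nat_lit 42441739) (nat_lit 9239178) [(nat_lit 621209), (nat_lit 2298774), (nat_lit 6481879)]) (PF.cons (PF.leaf (nat_lit 8475780) (nat_lit 627093) (nat_lit 41829390) (nat_lit 9192795) [(nat_lit 627093), (nat_lit 2304147), (nat_lit 6461580)]) (PF.cons PF.nil PF.nil)))))))))) (PF.cons (PF.cons (PF.leaf (nat_lit 6503688) (nat_lit 2254940)
 (nat_lit 44463518) (nat_lit 9361241) [(nat_lit 0), (nat_lit 2254940), (nat_lit 6519232)]) (PF.cons (PF.leaf (nat_lit 6850214) (nat_lit 591084) (nat_lit 43883078) (nat_lit 9326950) [(nat_lit 591084), (nat_lit 2266362), (nat_lit 6508612)]) (PF.cons (PF.leaf (nat_lit 7205312) (nat_lit 600229) (nat_lit 43295071) (nat_lit 9289416) [(nat_lit 600229), (nat_lit 2276161), (nat_lit 6495380)]) (PF.cons (PF.leaf (nat_lit 7566967) (nat_lit 608279) (nat_lit 42702513) (nat_lit 9248801) [(nat_lit 608279), (nat_lit 2284356), (nat_lit 6479591)]) (PF.cons (PF.leaf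 (nat_lit 7933719) (nat_lit 615355) (nat_lit 42107826) (nat_lit 9205273) [(nat_lit 615355), (nat_lit 2290987), (nat_lit 6461329)]) (PF.cons (PF.leaf (nat_lit 8304337) (nat_lit 621556) (nat_lit 41512992) (nat_lit 9159011) [(nat_lit 621556), (nat_lit 2296110), (nat_lit 6440696)]) (PF.cons (PF.leaf (nat_lit 8677779) (nat_lit 626962) (nat_lit 40919658) (nat_lit 9110197) [(nat_lit 626962), (nat_lit 2299791), (nat_lit 6417807)]) (PF.cons PF.nil PF.nil)))))))) (PF.cons (PF.cons (PF.leaf (nat_lit 7432485) (nat_lit 2276734) (nat_lit 42330583) (nat_lit 9212843) [(nat_lit 0), (nat_lit 2276734), (nat_lit 6458448)]) (PF.cons (PF.leaf (nat_lit 7785615)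
 (nat_lit 608708) (nat_lit 41758531) (nat_lit 9169642) [(nat_lit 608708), (nat_lit 2283018), (nat_lit 6439857)]) (PF.cons (PF.leaf (nat_lit 8144415) (nat_lit 615364) (nat_lit 41183827) (nat_lit 9123726) [(nat_lit 615364), (nat_lit 2287884), (nat_lit 6418991)]) (PF.cons (PF.leaf (nat_lit 8507306) (nat_lit 621148) (nat_lit 40608611) (nat_lit 9075285) [(nat_lit 621148), (nat_lit 2291378), (nat_lit 6395956)]) (PF.cons (PF.leaf (nat_lit 8873181) (nat_lit 626150) (nat_lit 40034615) (nat_lit 9024505) [(nat_lit 626150), (nat_lit 2293556), (nat_lit 6370865)]) (PF.cons (PF.leaf (nat_lit 9241062) (nat_lit 630443) (nat_lit 39463261) (nat_lit 8971570) [(nat_lit 630443), (nat_lit 2294480), (nat_lit 6343840)]) PF.nil)))))) (PF.cons (PF.cons (PF.leaf (nat_lit 8349870) (nat_lit 2282754) (nat_lit 40283197) (nat_lit 9038675) [(nat_lit 0), (nat_lit 2282754), (nat_lit 6373166)]) (PF.cons (PF.leaf (nat_lit 8704518) (nat_lit 620041) (nat_lit 39728102) (nat_lit 8988528) [(nat_lit 620041),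 (nat_lit 2284804), (nat_lit 6348117)]) (PF.cons (PF.leaf (nat_lit 9062656) (nat_lit 624710) (nat_lit 39173734) (nat_lit 8936215) [(nat_lit 624710), (nat_lit 2285652), (nat_lit 6321182)]) (PF.cons (PF.leaf (nat_lit
 9423021) (nat_lit 628678) (nat_lit 38621608) (nat_lit 8881924) [(nat_lit 628678), (nat_lit 2285352), (nat_lit 6292481)]) PF.nil)))) (PF.cons (PF.cons (PF.leaf (nat_lit 9247112) (nat_lit 2276265) (nat_lit 38336336) (nat_lit 8845754) [(nat_lit 0), (nat_lit 2276265), (nat_lit 6269130)]) (PF.cons (PF.leaf (nat_lit 9599599) (nat_lit 626389) (nat_lit 37803560) (nat_lit 8790477) [(nat_lit 626389), (nat_lit 2274887), (nat_lit 6239058)]) PF.nil)) (PF.cons PF.nil (PF.cons PF.nil (PF.cons PF.nil PF.nil)))))))))) (PF.cons (PF.cons (PF.cons (PF.leaf (nat_lit 5569530) (nat_lit 6452138) (nat_lit 44888225) (nat_lit 9316310) [(nat_lit 0), (nat_lit 0), (nat_lit 6452138)]) (PF.cons (PF.leaf (nat_lit 5874939) (nat_lit 541586) (nat_lit 44380190) (nat_lit 9290939) [(nat_lit 541586),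 (nat_lit 0), (nat_lit 6448048)]) (PF.cons (PF.leaf (nat_lit 6195900) (nat_lit 555801) (nat_lit 43851964) (nat_lit 9262162) [(nat_lit 555801), (nat_lit 0), (nat_lit 6441541)]) (PF.cons (PF.leaf (nat_lit 6528966) (nat_lit 568156) (nat_lit 43309150) (nat_lit 9230103) [(nat_lit 568156), (nat_lit 0), (nat_lit 6432543)]) (PF.cons (PF.leaf (nat_lit 6871720) (nat_lit 578964) (nat_lit 42755973) (nat_lit 9194895) [(nat_lit 578964),
 (nat_lit 0), (nat_lit 6421043)]) (PF.cons (PF.leaf (nat_lit 7222251) (nat_lit 588449) (nat_lit 42195746) (nat_lit 9156678) [(nat_lit 588449), (nat_lit 0), (nat_lit 6407070)]) (PF.cons (PF.leaf (nat_lit 7578984) (nat_lit 596782) (nat_lit 41631141) (nat_lit 9115605) [(nat_lit 596782), (nat_lit 0), (nat_lit 6390685)]) (PF.cons (PF.leaf (nat_lit 7940584) (nat_lit 604096) (nat_lit 41064353) (nat_lit 9071839) [(nat_lit 604096), (nat_lit 0), (nat_lit 6371973)]) (PF.cons (PF.leaf (nat_lit 8305905) (nat_lit 610499) (nat_lit 40497208) (nat_lit 9025546) [(nat_lit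 610499), (nat_lit 0), (nat_lit 6351032)]) (PF.cons (PF.leaf (nat_lit 8673943) (nat_lit 616080) (nat_lit 39931239) (nat_lit 8976895) [(nat_lit 616080), (nat_lit 0), (nat_lit 6327975)]) (PF.cons PF.nil (PF.cons PF.nil PF.nil)))))))))))) (PF.cons (PF.cons (PF.leaf (nat_lit 6440705) (nat_lit 2211947) (nat_lit 42878392) (nat_lit 9193251) [(nat_lit 0), (nat_lit 2211947), (nat_lit 6412610)]) (PF.cons (PF.leaf (nat_lit 6764319) (nat_lit 570061) (nat_lit 42355944) (nat_lit 9158477) [(nat_lit 570061), (nat_lit 2223249), (nat_lit 6400540)]) (PF.cons (PF.leaf (nat_lit 7098706) (nat_lit 580449) (nat_lit 41822032) (nat_lit 9120651) [(nat_lit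
 580449), (nat_lit 2232984), (nat_lit 6386122)]) (PF.cons (PF.leaf (nat_lit 7441370) (nat_lit 589487) (nat_lit 41280428) (nat_lit 9079959) [(nat_lit 589487), (nat_lit 2241157), (nat_lit 6369402)]) (PF.cons (PF.leaf (nat_lit 7790553) (nat_lit 597365) (nat_lit 40734058) (nat_lit 9036581) [(nat_lit 597365), (nat_lit 2247805), (nat_lit 6350452)]) (PF.cons (PF.leaf (nat_lit 8144815) (nat_lit 604232) (nat_lit 40185257) (nat_lit 8990692) [(nat_lit 604232), (nat_lit 2252982), (nat_lit 6329360)]) (PF.cons (PF.leaf (nat_lit 8502939) (nat_lit 610201) (nat_lit 39635927) (nat_lit 8942468) [(nat_lit 610201), (nat_lit 2256753), (nat_lit 6306226)]) (PF.cons (PF.leaf (nat_lit 8863887) (nat_lit 615368) (nat_lit 39087639) (nat_lit 8892083) [(nat_lit 615368), (nat_lit 2259188), (nat_lit 6281160)]) (PF.cons PF.nil (PF.cons PF.nil PF.nil)))))))))) (PF.cons (PF.cons (PF.leaf (nat_lit 7322073) (nat_lit 2232881) (nat_lit 40907375) (nat_lit 9041914) [(nat_lit 0), (nat_lit 2232881), (nat_lit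 6346879)]) (PF.cons (PF.leaf (nat_lit 7655883) (nat_lit 589577) (nat_lit 40385741) (nat_lit 8999293) [(nat_lit 589577), (nat_lit 2239245), (nat_lit 6327854)]) (PF.cons (PF.leaf (nat_lit 7997027) (nat_lit 597113) (nat_lit
 39858531) (nat_lit 8954101) [(nat_lit 597113), (nat_lit 2244231), (nat_lit 6306744)]) (PF.cons (PF.leaf (nat_lit 8343625) (nat_lit 603625) (nat_lit 39328343) (nat_lit 8906540) [(nat_lit 603625), (nat_lit 2247880), (nat_lit 6283645)]) (PF.cons (PF.leaf (nat_lit 8694347) (nat_lit 609239) (nat_lit 38797231) (nat_lit 8856799) [(nat_lit 609239), (nat_lit 2250247), (nat_lit 6258664)]) (PF.cons (PF.leaf (nat_lit 9048084) (nat_lit 614060) (nat_lit 38266851) (nat_lit 8805058) [(nat_lit 614060), (nat_lit 2251391), (nat_lit 6231909)]) (PF.cons (PF.leaf (nat_lit 9403936) (nat_lit 618169) (nat_lit 37738556) (nat_lit 8751492) [(nat_lit 618169), (nat_lit 2251378), (nat_lit 6203494)]) (PF.cons PF.nil PF.nil)))))))) (PF.cons (PF.cons (PF.leaf (nat_lit 8199496) (nat_lit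 2238775) (nat_lit 39003941) (nat_lit 8868614) [(nat_lit 0), (nat_lit 2238775), (nat_lit 6259964)]) (PF.cons (PF.leaf (nat_lit 8537748) (nat_lit 602317) (nat_lit 38493034) (nat_lit 8819813) [(nat_lit 602317), (nat_lit 2241073), (nat_lit 6235213)]) (PF.cons (PF.leaf (nat_lit 8880791) (nat_lit 607657) (nat_lit 37980545) (nat_lit 8768945) [(nat_lit 607657), (nat_lit 2242197), (nat_lit 6208706)]) (PF.cons (PF.leaf (nat_lit 9227162)
 (nat_lit 612199) (nat_lit 37468288) (nat_lit 8716203) [(nat_lit 612199), (nat_lit 2242201), (nat_lit 6180559)]) (PF.cons (PF.leaf (nat_lit 9575865) (nat_lit 616033) (nat_lit 36957709) (nat_lit 8661768) [(nat_lit 616033), (nat_lit 2241142), (nat_lit 6150885)]) (PF.cons PF.nil PF.nil)))))) (PF.cons (PF.cons (PF.leaf (nat_lit 9063209) (nat_lit 2232773) (nat_lit 37185136) (nat_lit 8679251) [(nat_lit 0), (nat_lit 2232773), (nat_lit 6156666)]) (PF.cons (PF.leaf (nat_lit 9401728) (nat_lit 609818) (nat_lit 36691245) (nat_lit 8625844) [(nat_lit 609818),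 (nat_lit 2231773), (nat_lit 6127404)]) (PF.cons (PF.leaf (nat_lit 9743146) (nat_lit 613438) (nat_lit 36198462) (nat_lit 8570843) [(nat_lit 613438), (nat_lit 2229796), (nat_lit 6096723)]) (PF.cons PF.nil PF.nil)))) (PF.cons (PF.cons (PF.leaf (nat_lit 9906612) (nat_lit 2217464) (nat_lit 35460028) (nat_lit 8478975) [(nat_lit 0), (nat_lit 2217464), (nat_lit 6041243)]) (PF.cons PF.nil PF.nil)) (PF.cons PF.nil (PF.cons PF.nil PF.nil)))))))) (PF.cons (PF.cons (PF.cons (PF.leaf (nat_lit 7224318) (nat_lit 6233636) (nat_lit 39538223) (nat_lit 8869678) [(nat_lit 0), (nat_lit 0), (nat_lit 6233636)]) (PF.cons (PF.leaf (nat_lit 7537380) (nat_lit 568169)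
 (nat_lit 39067645) (nat_lit 8828534) [(nat_lit 568169), (nat_lit 0), (nat_lit 6214821)]) (PF.cons (PF.leaf (nat_lit 7859969) (nat_lit 577056) (nat_lit 38587827) (nat_lit 8784816) [(nat_lit 577056), (nat_lit 0), (nat_lit 6194018)]) (PF.cons (PF.leaf (nat_lit 8189703) (nat_lit 584654) (nat_lit 38102076) (nat_lit 8738767) [(nat_lit 584654), (nat_lit 0), (nat_lit 6171335)]) (PF.cons (PF.leaf (nat_lit 8524950) (nat_lit 591165) (nat_lit 37612923) (nat_lit 8690600) [(nat_lit 591165), (nat_lit 0), (nat_lit 6146876)]) (PF.cons (PF.leaf (nat_lit 8864386) (nat_lit 596738) (nat_lit 37122364) (nat_lit 8640507) [(nat_lit 596738), (nat_lit 0), (nat_lit 6120749)]) (PF.cons (PF.leaf (nat_lit 9206942) (nat_lit 601492) (nat_lit 36632001) (nat_lit 8588666) [(nat_lit 601492), (nat_lit 0), (nat_lit 6093064)]) (PF.cons (PF.leaf (nat_lit 9551661) (nat_lit 605520) (nat_lit 36143142) (nat_lit 8535243) [(nat_lit 605520), (nat_lit 0), (nat_lit 6063927)]) (PF.cons PF.nil (PF.cons PF.nil PF.nil))))))))))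 (PF.cons (PF.cons (PF.leaf (nat_lit 8061189) (nat_lit 2193591) (nat_lit 37775839) (nat_lit 8699329) [(nat_lit 0), (nat_lit 2193591), (nat_lit 6146684)]) (PF.cons (PF.leaf (nat_lit 8382198) (nat_lit 583167)
 (nat_lit 37308773) (nat_lit 8652460) [(nat_lit 583167), (nat_lit 2196416), (nat_lit 6122665)]) (PF.cons (PF.leaf (nat_lit 8709603) (nat_lit 589468) (nat_lit 36837417) (nat_lit 8603522) [(nat_lit 589468), (nat_lit 2198062), (nat_lit 6096958)]) (PF.cons (PF.leaf (nat_lit 9041660) (nat_lit 594812) (nat_lit 36364014) (nat_lit 8552734) [(nat_lit 594812), (nat_lit 2198584), (nat_lit 6069680)]) (PF.cons (PF.leaf (nat_lit 9377144) (nat_lit 599329) (nat_lit 35890319) (nat_lit 8500289) [(nat_lit 599329), (nat_lit 2198040), (nat_lit 6040948)]) (PF.cons (PF.leaf (nat_lit 9715066) (nat_lit 603123) (nat_lit 35417729) (nat_lit 8446361) [(nat_lit 603123), (nat_lit 2196493), (nat_lit 6010869)]) (PF.cons PF.nil (PF.cons PF.nil PF.nil)))))))) (PF.cons (PF.cons (PF.leaf (nat_lit 8891250)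 (nat_lit 2188773) (nat_lit 36080923) (nat_lit 8514837) [(nat_lit 0), (nat_lit 2188773), (nat_lit 6045168)]) (PF.cons (PF.leaf (nat_lit 9215278) (nat_lit 592350) (nat_lit 35625099) (nat_lit 8463673) [(nat_lit 592350), (nat_lit 2188342), (nat_lit 6017001)]) (PF.cons (PF.leaf (nat_lit 9543451) (nat_lit 596699) (nat_lit 35168282) (nat_lit 8410906) [(nat_lit 596699), (nat_lit 2186927), (nat_lit 5987456)]) (PF.cons
 (PF.leaf (nat_lit 9874424) (nat_lit 600315) (nat_lit 34712022) (nat_lit 8356724) [(nat_lit 600315), (nat_lit 2184584), (nat_lit 5956650)]) (PF.cons PF.nil (PF.cons PF.nil PF.nil)))))) (PF.cons (PF.cons (PF.leaf (nat_lit 9706739) (nat_lit 2174882) (nat_lit 34465083) (nat_lit 8320722) [(nat_lit 0), (nat_lit 2174882), (nat_lit 5932786)]) (PF.cons (PF.leaf (nat_lit 10030279) (nat_lit 597115) (nat_lit 34025265) (nat_lit 8266529) [(nat_lit 597115), (nat_lit 2171846), (nat_lit 5901453)]) (PF.cons PF.nil (PF.cons PF.nil PF.nil)))) (PF.cons (PF.cons (PF.leaf (nat_lit 10502505)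 (nat_lit 2153986) (nat_lit 32933895) (nat_lit 8120790) [(nat_lit 0), (nat_lit 2153986), (nat_lit 5812726)]) (PF.cons PF.nil PF.nil)) (PF.cons PF.nil PF.nil)))))) (PF.cons (PF.cons (PF.cons (PF.leaf (nat_lit 8733126) (nat_lit 5934581) (nat_lit 35018138) (nat_lit 8352349) [(nat_lit 0), (nat_lit 0), (nat_lit 5934581)]) (PF.cons (PF.leaf (nat_lit 9041688) (nat_lit 573652) (nat_lit 34600148) (nat_lit 8303817) [(nat_lit 573652), (nat_lit 0), (nat_lit 5907798)]) (PF.cons (PF.leaf (nat_lit 9355964) (nat_lit 578994) (nat_lit 34178720) (nat_lit 8253593) [(nat_lit 578994), (nat_lit 0), (nat_lit 5879627)]) (PF.cons (PF.leaf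
 (nat_lit 9674279) (nat_lit 583442) (nat_lit 33755801) (nat_lit 8201898) [(nat_lit 583442), (nat_lit 0), (nat_lit 5850196)]) (PF.cons (PF.leaf (nat_lit 9995516) (nat_lit 587127) (nat_lit 33332898) (nat_lit 8148920) [(nat_lit 587127), (nat_lit 0), (nat_lit 5819621)]) (PF.cons PF.nil PF.nil)))))) (PF.cons (PF.cons (PF.leaf (nat_lit 9520048) (nat_lit 2132122) (nat_lit 33508133) (nat_lit 8165144) [(nat_lit 0), (nat_lit 2132122), (nat_lit 5825853)]) (PF.cons (PF.leaf (nat_lit 9830702) (nat_lit 580226) (nat_lit 33100982) (nat_lit 8113620) [(nat_lit 580226), (nat_lit 2129829), (nat_lit 5796038)]) (PF.cons (PF.leaf (nat_lit 10145043) (nat_lit 583820) (nat_lit 32693156) (nat_lit 8060827) [(nat_lit 583820), (nat_lit 2126702), (nat_lit 5765121)]) (PF.cons PF.nil PF.nil)))) (PF.cons (PF.cons (PF.leaf (nat_lit 10292348) (nat_lit 2113142) (nat_lit 32069854) (nat_lit 7972574) [(nat_lit 0), (nat_lit 2113142), (nat_lit 5710024)]) (PF.cons (PF.leaf (nat_lit 10602086) (nat_lit 583026)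 (nat_lit 31677263) (nat_lit 7919085) [(nat_lit 583026), (nat_lit 2108765), (nat_lit 5677976)]) PF.nil)) (PF.cons PF.nil PF.nil)))) (PF.cons (PF.cons (PF.cons (PF.leaf (nat_lit 10095923) (nat_lit 5609034) (nat_lit
 31236484) (nat_lit 7827156) [(nat_lit 0), (nat_lit 0), (nat_lit 5609034)]) (PF.cons (PF.leaf (nat_lit 10394106) (nat_lit 566884) (nat_lit 30871930) (nat_lit 7776485) [(nat_lit 566884), (nat_lit 0), (nat_lit 5578702)]) (PF.cons (PF.leaf (nat_lit 10695625) (nat_lit 569895) (nat_lit 30506865) (nat_lit 7724791) [(nat_lit 569895), (nat_lit 0), (nat_lit 5547472)]) (PF.cons PF.nil PF.nil)))) (PF.cons (PF.cons (PF.leaf (nat_lit 10829503) (nat_lit 2050130) (nat_lit 29952459) (nat_lit 7639820) [(nat_lit 0), (nat_lit 2050130), (nat_lit 5493280)]) (PF.cons PF.nil PF.nil)) PF.nil)) (PF.cons PF.nil (PF.cons PF.nil (PF.cons PF.nil (PF.cons PF.nil PF.nil))))))))))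

def p15_35_1_0 : pfC (piC [(nat_lit 37297016), (nat_lit 23751559), (nat_lit 15232604)] (nat_lit 11026205)) p15_35_1 (nat_lit 3) (nat_lit 0) (nat_lit 1) = true := by decide +kernel
def p15_35_1_1 : pfC (piC [(nat_lit 37297016), (nat_lit 23751559), (nat_lit 15232604)] (nat_lit 11026205)) p15_35_1 (nat_lit 3) (nat_lit 1) (nat_lit 2) = true := by decide +kernel
def p15_35_1_2 : pfC (piC [(nat_lit 37297016), (nat_lit 23751559), (nat_lit 15232604)] (nat_lit 11026205)) p15_35_1 (nat_lit 3) (nat_lit 2) (nat_lit 3) = true := by decide +kernel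
def p15_35_1_3 : pfC (piC [(nat_lit 37297016), (nat_lit 23751559), (nat_lit 15232604)] (nat_lit 11026205)) p15_35_1 (nat_lit 3) (nat_lit 3) (nat_lit 4) = true := by decide +kernel
def p15_35_1_4 : pfC (piC [(nat_lit 37297016), (nat_lit 23751559), (nat_lit 15232604)] (nat_lit 11026205)) p15_35_1 (nat_lit 3) (nat_lit 4) (nat_lit 5) = true := by decide +kernel
def p15_35_1_5 : pfC (piC [(nat_lit 37297016), (nat_lit 23751559), (nat_lit 15232604)] (nat_lit 11026205)) p15_35_1 (nat_lit 3) (nat_lit 5) (nat_lit 6) = true := by decide +kernel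
def p15_35_1_6 : pfC (piC [(nat_lit 37297016), (nat_lit 23751559), (nat_lit 15232604)] (nat_lit 11026205)) p15_35_1 (nat_lit 3) (nat_lit 6) (nat_lit 7) = true := by decide +kernel
def p15_35_1_7 : pfC (piC [(nat_lit 37297016), (nat_lit 23751559), (nat_lit 15232604)] (nat_lit 11026205)) p15_35_1 (nat_lit 3) (nat_lit 7) (nat_lit 8) = true := by decide +kernel
def p15_35_1_8 : pfC (piC [(nat_lit 37297016), (nat_lit 23751559), (nat_lit 15232604)] (nat_lit 11026205)) p15_35_1 (nat_lit 3) (nat_lit 8) (nat_lit 9) = true := by decide +kernel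
def p15_35_1_9 : pfC (piC [(nat_lit 37297016), (nat_lit 23751559), (nat_lit 15232604)] (nat_lit 11026205)) p15_35_1 (nat_lit 3) (nat_lit 9) (nat_lit 10) = true := by decide +kernel
def p15_35_1_10 : pfC (piC [(nat_lit 37297016), (nat_lit 23751559), (nat_lit 15232604)] (nat_lit 11026205)) p15_35_1 (nat_lit 3) (nat_lit 10) (nat_lit 11) = true := by decide +kernel
def p15_35_1_11 : pfC (piC [(nat_lit 37297016), (nat_lit 23751559), (nat_lit 15232604)] (nat_lit 11026205)) p15_35_1 (nat_lit 3) (nat_lit 11) (nat_lit 12) = true := by decide +kernel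
def p15_35_1_12 : pfC (piC [(nat_lit 37297016), (nat_lit 23751559), (nat_lit 15232604)] (nat_lit 11026205)) p15_35_1 (nat_lit 3) (nat_lit 12) (nat_lit 13) = true := by decide +kernel
def p15_35_1_13 : pfC (piC [(nat_lit 37297016), (nat_lit 23751559), (nat_lit 15232604)] (nat_lit 11026205)) p15_35_1 (nat_lit 3) (nat_lit 13) (nat_lit 14) = true := by decide +kernel
def p15_35_1_14 : pfC (piC [(nat_lit 37297016), (nat_lit 23751559), (nat_lit 15232604)] (nat_lit 11026205)) p15_35_1 (nat_lit 3) (nat_lit 14) (nat_lit 15) = true := by decide +kernel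
def p15_35_1_15 : pfC (piC [(nat_lit 37297016), (nat_lit 23751559), (nat_lit 15232604)] (nat_lit 11026205)) p15_35_1 (nat_lit 3) (nat_lit 15) (nat_lit 16) = true := by decide +kernel
def p15_35_1_16 : pfC (piC [(nat_lit 37297016), (nat_lit 23751559), (nat_lit 15232604)] (nat_lit 11026205)) p15_35_1 (nat_lit 3) (nat_lit 16) (nat_lit 17) = true := by decide +kernel
def p15_35_1_17 : pfC (piC [(nat_lit 37297016), (nat_lit 23751559), (nat_lit 15232604)] (nat_lit 11026205)) p15_35_1 (nat_lit 3) (nat_lit 17) (nat_lit 18) = true := by decide +kernel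
def p15_35_1_18 : pfC (piC [(nat_lit 37297016), (nat_lit 23751559), (nat_lit 15232604)] (nat_lit 11026205)) p15_35_1 (nat_lit 3) (nat_lit 18) (nat_lit 19) = true := by decide +kernel
def p15_35_1_19 : pfC (piC [(nat_lit 37297016), (nat_lit 23751559), (nat_lit 15232604)] (nat_lit 11026205)) p15_35_1 (nat_lit 3) (nat_lit 19) (nat_lit 20) = true := by decide +kernel
def p15_35_1_20 : pfC (piC [(nat_lit 37297016), (nat_lit 23751559), (nat_lit 15232604)] (nat_lit 11026205)) p15_35_1 (nat_lit 3) (nat_lit 20) (nat_lit 21) = true := by decide +kernel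
def p15_35_1_21 : pfC (piC [(nat_lit 37297016), (nat_lit 23751559), (nat_lit 15232604)] (nat_lit 11026205)) p15_35_1 (nat_lit 3) (nat_lit 21) (nat_lit 22) = true := by decide +kernel
def p15_35_1_22 : pfC (piC [(nat_lit 37297016), (nat_lit 23751559), (nat_lit 15232604)] (nat_lit 11026205)) p15_35_1 (nat_lit 3) (nat_lit 22) (nat_lit 23) = true := by decide +kernel
def p15_35_1_23 : pfC (piC [(nat_lit 37297016), (nat_lit 23751559), (nat_lit 15232604)] (nat_lit 11026205)) p15_35_1 (nat_lit 3) (nat_lit 23) (nat_lit 24) = true := by decide +kernel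
def p15_35_1_24 : pfC (piC [(nat_lit 37297016), (nat_lit 23751559), (nat_lit 15232604)] (nat_lit 11026205)) p15_35_1 (nat_lit 3) (nat_lit 24) (nat_lit 25) = true := by decide +kernel
def p15_35_1_25 : pfC (piC [(nat_lit 37297016), (nat_lit 23751559), (nat_lit 15232604)] (nat_lit 11026205)) p15_35_1 (nat_lit 3) (nat_lit 25) (nat_lit 26) = true := by decide +kernel
def p15_35_1_26 : pfC (piC [(nat_lit 37297016), (nat_lit 23751559), (nat_lit 15232604)] (nat_lit 11026205)) p15_35_1 (nat_lit 3) (nat_lit 26) (nat_lit 27) = true := by decide +kernel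
def p15_35_1_27 : pfC (piC [(nat_lit 37297016), (nat_lit 23751559), (nat_lit 15232604)] (nat_lit 11026205)) p15_35_1 (nat_lit 3) (nat_lit 27) (nat_lit 28) = true := by decide +kernel
def p15_35_1_28 : pfC (piC [(nat_lit 37297016), (nat_lit 23751559), (nat_lit 15232604)] (nat_lit 11026205)) p15_35_1 (nat_lit 3) (nat_lit 28) (nat_lit 29) = true := by decide +kernel
def p15_35_1_29 : pfC (piC [(nat_lit 37297016), (nat_lit 23751559), (nat_lit 15232604)] (nat_lit 11026205)) p15_35_1 (nat_lit 3) (nat_lit 29) (nat_lit 30) = true := by decide +kernel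
def p15_35_1_30 : pfC (piC [(nat_lit 37297016), (nat_lit 23751559), (nat_lit 15232604)] (nat_lit 11026205)) p15_35_1 (nat_lit 3) (nat_lit 30) (nat_lit 31) = true := by decide +kernel
def p15_35_1_31 : pfC (piC [(nat_lit 37297016), (nat_lit 23751559), (nat_lit 15232604)] (nat_lit 11026205)) p15_35_1 (nat_lit 3) (nat_lit 31) (nat_lit 32) = true := by decide +kernel
def p15_35_1_32 : pfC (piC [(nat_lit 37297016), (nat_lit 23751559), (nat_lit 15232604)] (nat_lit 11026205)) p15_35_1 (nat_lit 3) (nat_lit 32) (nat_lit 33) = true := by decide +kernel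
def p15_35_1_33 : pfC (piC [(nat_lit 37297016), (nat_lit 23751559), (nat_lit 15232604)] (nat_lit 11026205)) p15_35_1 (nat_lit 3) (nat_lit 33) (nat_lit 34) = true := by decide +kernel
def p15_35_1_34 : pfC (piC [(nat_lit 37297016), (nat_lit 23751559), (nat_lit 15232604)] (nat_lit 11026205)) p15_35_1 (nat_lit 3) (nat_lit 34) (nat_lit 35) = true := by decide +kernel
def p15_35_1_35 : pfC (piC [(nat_lit 37297016), (nat_lit 23751559), (nat_lit 15232604)] (nat_lit 11026205)) p15_35_1 (nat_lit 3) (nat_lit 35) (nat_lit 36) = true := by decide +kernel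
def p15_35_1_36 : pfC (piC [(nat_lit 37297016), (nat_lit 23751559), (nat_lit 15232604)] (nat_lit 11026205)) p15_35_1 (nat_lit 3) (nat_lit 36) (nat_lit 37) = true := by decide +kernel
def p15_35_1_37 : pfC (piC [(nat_lit 37297016), (nat_lit 23751559), (nat_lit 15232604)] (nat_lit 11026205)) p15_35_1 (nat_lit 3) (nat_lit 37) (nat_lit 38) = true := by decide +kernel
def p15_35_1_38 : pfC (piC [(nat_lit 37297016), (nat_lit 23751559), (nat_lit 15232604)] (nat_lit 11026205)) p15_35_1 (nat_lit 3) (nat_lit 38) (nat_lit 39) = true := by decide +kernel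
def p15_35_1_39 : pfC (piC [(nat_lit 37297016), (nat_lit 23751559), (nat_lit 15232604)] (nat_lit 11026205)) p15_35_1 (nat_lit 3) (nat_lit 39) (nat_lit 40) = true := by decide +kernel
def p15_35_1_40 : pfC (piC [(nat_lit 37297016), (nat_lit 23751559), (nat_lit 15232604)] (nat_lit 11026205)) p15_35_1 (nat_lit 3) (nat_lit 40) (nat_lit 41) = true := by decide +kernel
def p15_35_1_41 : pfC (piC [(nat_lit 37297016), (nat_lit 23751559), (nat_lit 15232604)] (nat_lit 11026205)) p15_35_1 (nat_lit 3) (nat_lit 41) (nat_lit 42) = true := by decide +kernel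
def p15_35_1_42 : pfC (piC [(nat_lit 37297016), (nat_lit 23751559), (nat_lit 15232604)] (nat_lit 11026205)) p15_35_1 (nat_lit 3) (nat_lit 42) (nat_lit 43) = true := by decide +kernel
def p15_35_1_43 : pfC (piC [(nat_lit 37297016), (nat_lit 23751559), (nat_lit 15232604)] (nat_lit 11026205)) p15_35_1 (nat_lit 3) (nat_lit 43) (nat_lit 44) = true := by decide +kernel
def p15_35_1_44 : pfC (piC [(nat_lit 37297016), (nat_lit 23751559), (nat_lit 15232604)] (nat_lit 11026205)) p15_35_1 (nat_lit 3) (nat_lit 44) (nat_lit 45) = true := by decide +kernel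
def p15_35_1_45 : pfC (piC [(nat_lit 37297016), (nat_lit 23751559), (nat_lit 15232604)] (nat_lit 11026205)) p15_35_1 (nat_lit 3) (nat_lit 45) (nat_lit 46) = true := by decide +kernel
def p15_35_1_46 : pfC (piC [(nat_lit 37297016), (nat_lit 23751559), (nat_lit 15232604)] (nat_lit 11026205)) p15_35_1 (nat_lit 3) (nat_lit 46) (nat_lit 47) = true := by decide +kernel
def p15_35_1_47 : pfC (piC [(nat_lit 37297016), (nat_lit 23751559), (nat_lit 15232604)] (nat_lit 11026205)) p15_35_1 (nat_lit 3) (nat_lit 47) (nat_lit 48) = true := by decide +kernel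
def p15_35_1_48 : pfC (piC [(nat_lit 37297016), (nat_lit 23751559), (nat_lit 15232604)] (nat_lit 11026205)) p15_35_1 (nat_lit 3) (nat_lit 48) (nat_lit 49) = true := by decide +kernel
def p15_35_1_49 : pfC (piC [(nat_lit 37297016), (nat_lit 23751559), (nat_lit 15232604)] (nat_lit 11026205)) p15_35_1 (nat_lit 3) (nat_lit 49) (nat_lit 50) = true := by decide +kernel
def p15_35_1_50 : pfC (piC [(nat_lit 37297016), (nat_lit 23751559), (nat_lit 15232604)] (nat_lit 11026205)) p15_35_1 (nat_lit 3) (nat_lit 50) (nat_lit 51) = true := by decide +kernel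
def p15_35_1_51 : pfC (piC [(nat_lit 37297016), (nat_lit 23751559), (nat_lit 15232604)] (nat_lit 11026205)) p15_35_1 (nat_lit 3) (nat_lit 51) (nat_lit 52) = true := by decide +kernel
def p15_35_1_52 : pfC (piC [(nat_lit 37297016), (nat_lit 23751559), (nat_lit 15232604)] (nat_lit 11026205)) p15_35_1 (nat_lit 3) (nat_lit 52) (nat_lit 53) = true := by decide +kernel
def p15_35_1_53 : pfC (piC [(nat_lit 37297016), (nat_lit 23751559), (nat_lit 15232604)] (nat_lit 11026205)) p15_35_1 (nat_lit 3) (nat_lit 53) (nat_lit 54) = true := by decide +kernel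
def p15_35_1_54 : pfC (piC [(nat_lit 37297016), (nat_lit 23751559), (nat_lit 15232604)] (nat_lit 11026205)) p15_35_1 (nat_lit 3) (nat_lit 54) (nat_lit 55) = true := by decide +kernel
def p15_35_1_55 : pfC (piC [(nat_lit 37297016), (nat_lit 23751559), (nat_lit 15232604)] (nat_lit 11026205)) p15_35_1 (nat_lit 3) (nat_lit 55) (nat_lit 56) = true := by decide +kernel
def p15_35_1_56 : pfC (piC [(nat_lit 37297016), (nat_lit 23751559), (nat_lit 15232604)] (nat_lit 11026205)) p15_35_1 (nat_lit 3) (nat_lit 56) (nat_lit 57) = true := by decide +kernel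
def p15_35_1_57 : pfC (piC [(nat_lit 37297016), (nat_lit 23751559), (nat_lit 15232604)] (nat_lit 11026205)) p15_35_1 (nat_lit 3) (nat_lit 57) (nat_lit 58) = true := by decide +kernel
def p15_35_1_58 : pfC (piC [(nat_lit 37297016), (nat_lit 23751559), (nat_lit 15232604)] (nat_lit 11026205)) p15_35_1 (nat_lit 3) (nat_lit 58) (nat_lit 59) = true := by decide +kernel
def p15_35_1_59 : pfC (piC [(nat_lit 37297016), (nat_lit 23751559), (nat_lit 15232604)] (nat_lit 11026205)) p15_35_1 (nat_lit 3) (nat_lit 59) (nat_lit 60) = true := by decide +kernel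
def p15_35_1_60 : pfC (piC [(nat_lit 37297016), (nat_lit 23751559), (nat_lit 15232604)] (nat_lit 11026205)) p15_35_1 (nat_lit 3) (nat_lit 60) (nat_lit 61) = true := by decide +kernel
def p15_35_1_61 : pfC (piC [(nat_lit 37297016), (nat_lit 23751559), (nat_lit 15232604)] (nat_lit 11026205)) p15_35_1 (nat_lit 3) (nat_lit 61) (nat_lit 62) = true := by decide +kernel
def p15_35_1_62 : pfC (piC [(nat_lit 37297016), (nat_lit 23751559), (nat_lit 15232604)] (nat_lit 11026205)) p15_35_1 (nat_lit 3) (nat_lit 62) (nat_lit 63) = true := by decide +kernel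
def p15_35_1_63 : pfC (piC [(nat_lit 37297016), (nat_lit 23751559), (nat_lit 15232604)] (nat_lit 11026205)) p15_35_1 (nat_lit 3) (nat_lit 63) (nat_lit 64) = true := by decide +kernel
def p15_35_1_64 : pfC (piC [(nat_lit 37297016), (nat_lit 23751559), (nat_lit 15232604)] (nat_lit 11026205)) p15_35_1 (nat_lit 3) (nat_lit 64) (nat_lit 65) = true := by decide +kernel
def p15_35_1_65 : pfC (piC [(nat_lit 37297016), (nat_lit 23751559), (nat_lit 15232604)] (nat_lit 11026205)) p15_35_1 (nat_lit 3) (nat_lit 65) (nat_lit 66) = true := by decide +kernel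
def p15_35_1_66 : pfC (piC [(nat_lit 37297016), (nat_lit 23751559), (nat_lit 15232604)] (nat_lit 11026205)) p15_35_1 (nat_lit 3) (nat_lit 66) (nat_lit 67) = true := by decide +kernel
def p15_35_1_67 : pfC (piC [(nat_lit 37297016), (nat_lit 23751559), (nat_lit 15232604)] (nat_lit 11026205)) p15_35_1 (nat_lit 3) (nat_lit 67) (nat_lit 68) = true := by decide +kernel
def p15_35_1_68 : pfC (piC [(nat_lit 37297016), (nat_lit 23751559), (nat_lit 15232604)] (nat_lit 11026205)) p15_35_1 (nat_lit 3) (nat_lit 68) (nat_lit 69) = true := by decide +kernel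
def p15_35_1_69 : pfC (piC [(nat_lit 37297016), (nat_lit 23751559), (nat_lit 15232604)] (nat_lit 11026205)) p15_35_1 (nat_lit 3) (nat_lit 69) (nat_lit 70) = true := by decide +kernel
def p15_35_1_70 : pfC (piC [(nat_lit 37297016), (nat_lit 23751559), (nat_lit 15232604)] (nat_lit 11026205)) p15_35_1 (nat_lit 3) (nat_lit 70) (nat_lit 71) = true := by decide +kernel
def p15_35_1_71 : pfC (piC [(nat_lit 37297016), (nat_lit 23751559), (nat_lit 15232604)] (nat_lit 11026205)) p15_35_1 (nat_lit 3) (nat_lit 71) (nat_lit 72) = true := by decide +kernel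
def p15_35_1_72 : pfC (piC [(nat_lit 37297016), (nat_lit 23751559), (nat_lit 15232604)] (nat_lit 11026205)) p15_35_1 (nat_lit 3) (nat_lit 72) (nat_lit 73) = true := by decide +kernel
def p15_35_1_73 : pfC (piC [(nat_lit 37297016), (nat_lit 23751559), (nat_lit 15232604)] (nat_lit 11026205)) p15_35_1 (nat_lit 3) (nat_lit 73) (nat_lit 74) = true := by decide +kernel
def p15_35_1_74 : pfC (piC [(nat_lit 37297016), (nat_lit 23751559), (nat_lit 15232604)] (nat_lit 11026205)) p15_35_1 (nat_lit 3) (nat_lit 74) (nat_lit 75) = true := by decide +kernel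
def p15_35_1_75 : pfC (piC [(nat_lit 37297016), (nat_lit 23751559), (nat_lit 15232604)] (nat_lit 11026205)) p15_35_1 (nat_lit 3) (nat_lit 75) (nat_lit 76) = true := by decide +kernel
def p15_35_1_76 : pfC (piC [(nat_lit 37297016), (nat_lit 23751559), (nat_lit 15232604)] (nat_lit 11026205)) p15_35_1 (nat_lit 3) (nat_lit 76) (nat_lit 77) = true := by decide +kernel
def p15_35_1_77 : pfC (piC [(nat_lit 37297016), (nat_lit 23751559), (nat_lit 15232604)] (nat_lit 11026205)) p15_35_1 (nat_lit 3) (nat_lit 77) (nat_lit 78) = true := by decide +kernel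
def p15_35_1_78 : pfC (piC [(nat_lit 37297016), (nat_lit 23751559), (nat_lit 15232604)] (nat_lit 11026205)) p15_35_1 (nat_lit 3) (nat_lit 78) (nat_lit 79) = true := by decide +kernel
def p15_35_1_79 : pfC (piC [(nat_lit 37297016), (nat_lit 23751559), (nat_lit 15232604)] (nat_lit 11026205)) p15_35_1 (nat_lit 3) (nat_lit 79) (nat_lit 80) = true := by decide +kernel
def p15_35_1_80 : pfC (piC [(nat_lit 37297016), (nat_lit 23751559), (nat_lit 15232604)] (nat_lit 11026205)) p15_35_1 (nat_lit 3) (nat_lit 80) (nat_lit 81) = true := by decide +kernel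
def p15_35_1_81 : pfC (piC [(nat_lit 37297016), (nat_lit 23751559), (nat_lit 15232604)] (nat_lit 11026205)) p15_35_1 (nat_lit 3) (nat_lit 81) (nat_lit 82) = true := by decide +kernel
def p15_35_1_82 : pfC (piC [(nat_lit 37297016), (nat_lit 23751559), (nat_lit 15232604)] (nat_lit 11026205)) p15_35_1 (nat_lit 3) (nat_lit 82) (nat_lit 83) = true := by decide +kernel
def p15_35_1_83 : pfC (piC [(nat_lit 37297016), (nat_lit 23751559), (nat_lit 15232604)] (nat_lit 11026205)) p15_35_1 (nat_lit 3) (nat_lit 83) (nat_lit 84) = true := by decide +kernel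
def p15_35_1_84 : pfC (piC [(nat_lit 37297016), (nat_lit 23751559), (nat_lit 15232604)] (nat_lit 11026205)) p15_35_1 (nat_lit 3) (nat_lit 84) (nat_lit 85) = true := by decide +kernel
def p15_35_1_85 : pfC (piC [(nat_lit 37297016), (nat_lit 23751559), (nat_lit 15232604)] (nat_lit 11026205)) p15_35_1 (nat_lit 3) (nat_lit 85) (nat_lit 86) = true := by decide +kernel
def p15_35_1_86 : pfC (piC [(nat_lit 37297016), (nat_lit 23751559), (nat_lit 15232604)] (nat_lit 11026205)) p15_35_1 (nat_lit 3) (nat_lit 86) (nat_lit 87) = true := by decide +kernel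
def p15_35_1_87 : pfC (piC [(nat_lit 37297016), (nat_lit 23751559), (nat_lit 15232604)] (nat_lit 11026205)) p15_35_1 (nat_lit 3) (nat_lit 87) (nat_lit 88) = true := by decide +kernel
def p15_35_1_88 : pfC (piC [(nat_lit 37297016), (nat_lit 23751559), (nat_lit 15232604)] (nat_lit 11026205)) p15_35_1 (nat_lit 3) (nat_lit 88) (nat_lit 89) = true := by decide +kernel
def p15_35_1_89 : pfC (piC [(nat_lit 37297016), (nat_lit 23751559), (nat_lit 15232604)] (nat_lit 11026205)) p15_35_1 (nat_lit 3) (nat_lit 89) (nat_lit 90) = true := by decide +kernel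
def p15_35_1_90 : pfC (piC [(nat_lit 37297016), (nat_lit 23751559), (nat_lit 15232604)] (nat_lit 11026205)) p15_35_1 (nat_lit 3) (nat_lit 90) (nat_lit 91) = true := by decide +kernel
def p15_35_1_91 : pfC (piC [(nat_lit 37297016), (nat_lit 23751559), (nat_lit 15232604)] (nat_lit 11026205)) p15_35_1 (nat_lit 3) (nat_lit 91) (nat_lit 92) = true := by decide +kernel
def p15_35_1_92 : pfC (piC [(nat_lit 37297016), (nat_lit 23751559), (nat_lit 15232604)] (nat_lit 11026205)) p15_35_1 (nat_lit 3) (nat_lit 92) (nat_lit 93) = true := by decide +kernel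
def p15_35_1_93 : pfC (piC [(nat_lit 37297016), (nat_lit 23751559), (nat_lit 15232604)] (nat_lit 11026205)) p15_35_1 (nat_lit 3) (nat_lit 93) (nat_lit 94) = true := by decide +kernel
def p15_35_1_94 : pfC (piC [(nat_lit 37297016), (nat_lit 23751559), (nat_lit 15232604)] (nat_lit 11026205)) p15_35_1 (nat_lit 3) (nat_lit 94) (nat_lit 95) = true := by decide +kernel
def p15_35_1_95 : pfC (piC [(nat_lit 37297016), (nat_lit 23751559), (nat_lit 15232604)] (nat_lit 11026205)) p15_35_1 (nat_lit 3) (nat_lit 95) (nat_lit 96) = true := by decide +kernel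
def p15_35_1_96 : pfC (piC [(nat_lit 37297016), (nat_lit 23751559), (nat_lit 15232604)] (nat_lit 11026205)) p15_35_1 (nat_lit 3) (nat_lit 96) (nat_lit 97) = true := by decide +kernel
def p15_35_1_97 : pfC (piC [(nat_lit 37297016), (nat_lit 23751559), (nat_lit 15232604)] (nat_lit 11026205)) p15_35_1 (nat_lit 3) (nat_lit 97) (nat_lit 98) = true := by decide +kernel
def p15_35_1_98 : pfC (piC [(nat_lit 37297016), (nat_lit 23751559), (nat_lit 15232604)] (nat_lit 11026205)) p15_35_1 (nat_lit 3) (nat_lit 98) (nat_lit 99) = true := by decide +kernel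
def p15_35_1_99 : pfC (piC [(nat_lit 37297016), (nat_lit 23751559), (nat_lit 15232604)] (nat_lit 11026205)) p15_35_1 (nat_lit 3) (nat_lit 99) (nat_lit 100) = true := by decide +kernel
def p15_35_1_100 : pfC (piC [(nat_lit 37297016), (nat_lit 23751559), (nat_lit 15232604)] (nat_lit 11026205)) p15_35_1 (nat_lit 3) (nat_lit 100) (nat_lit 101) = true := by decide +kernel
def p15_35_1_101 : pfC (piC [(nat_lit 37297016), (nat_lit 23751559), (nat_lit 15232604)] (nat_lit 11026205)) p15_35_1 (nat_lit 3) (nat_lit 101) (nat_lit 102) = true := by decide +kernel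
def p15_35_1_102 : pfC (piC [(nat_lit 37297016), (nat_lit 23751559), (nat_lit 15232604)] (nat_lit 11026205)) p15_35_1 (nat_lit 3) (nat_lit 102) (nat_lit 103) = true := by decide +kernel
def p15_35_1_103 : pfC (piC [(nat_lit 37297016), (nat_lit 23751559), (nat_lit 15232604)] (nat_lit 11026205)) p15_35_1 (nat_lit 3) (nat_lit 103) (nat_lit 104) = true := by decide +kernel
def p15_35_1_104 : pfC (piC [(nat_lit 37297016), (nat_lit 23751559), (nat_lit 15232604)] (nat_lit 11026205)) p15_35_1 (nat_lit 3) (nat_lit 104) (nat_lit 105) = true := by decide +kernel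
def p15_35_1_105 : pfC (piC [(nat_lit 37297016), (nat_lit 23751559), (nat_lit 15232604)] (nat_lit 11026205)) p15_35_1 (nat_lit 3) (nat_lit 105) (nat_lit 106) = true := by decide +kernel
def p15_35_1_106 : pfC (piC [(nat_lit 37297016), (nat_lit 23751559), (nat_lit 15232604)] (nat_lit 11026205)) p15_35_1 (nat_lit 3) (nat_lit 106) (nat_lit 107) = true := by decide +kernel
def p15_35_1_107 : pfC (piC [(nat_lit 37297016), (nat_lit 23751559), (nat_lit 15232604)] (nat_lit 11026205)) p15_35_1 (nat_lit 3) (nat_lit 107) (nat_lit 108) = true := by decide +kernel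
def p15_35_1_108 : pfC (piC [(nat_lit 37297016), (nat_lit 23751559), (nat_lit 15232604)] (nat_lit 11026205)) p15_35_1 (nat_lit 3) (nat_lit 108) (nat_lit 109) = true := by decide +kernel
def p15_35_1_109 : pfC (piC [(nat_lit 37297016), (nat_lit 23751559), (nat_lit 15232604)] (nat_lit 11026205)) p15_35_1 (nat_lit 3) (nat_lit 109) (nat_lit 110) = true := by decide +kernel
def p15_35_1_110 : pfC (piC [(nat_lit 37297016), (nat_lit 23751559), (nat_lit 15232604)] (nat_lit 11026205)) p15_35_1 (nat_lit 3) (nat_lit 110) (nat_lit 111) = true := by decide +kernel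
def p15_35_1_111 : pfC (piC [(nat_lit 37297016), (nat_lit 23751559), (nat_lit 15232604)] (nat_lit 11026205)) p15_35_1 (nat_lit 3) (nat_lit 111) (nat_lit 112) = true := by decide +kernel
def p15_35_1_112 : pfC (piC [(nat_lit 37297016), (nat_lit 23751559), (nat_lit 15232604)] (nat_lit 11026205)) p15_35_1 (nat_lit 3) (nat_lit 112) (nat_lit 113) = true := by decide +kernel
def p15_35_1_113 : pfC (piC [(nat_lit 37297016), (nat_lit 23751559), (nat_lit 15232604)] (nat_lit 11026205)) p15_35_1 (nat_lit 3) (nat_lit 113) (nat_lit 114) = true := by decide +kernel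
def p15_35_1_114 : pfC (piC [(nat_lit 37297016), (nat_lit 23751559), (nat_lit 15232604)] (nat_lit 11026205)) p15_35_1 (nat_lit 3) (nat_lit 114) (nat_lit 115) = true := by decide +kernel
def p15_35_1_115 : pfC (piC [(nat_lit 37297016), (nat_lit 23751559), (nat_lit 15232604)] (nat_lit 11026205)) p15_35_1 (nat_lit 3) (nat_lit 115) (nat_lit 116) = true := by decide +kernel
def p15_35_1_116 : pfC (piC [(nat_lit 37297016), (nat_lit 23751559), (nat_lit 15232604)] (nat_lit 11026205)) p15_35_1 (nat_lit 3) (nat_lit 116) (nat_lit 117) = true := by decide +kernel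
def p15_35_1_117 : pfC (piC [(nat_lit 37297016), (nat_lit 23751559), (nat_lit 15232604)] (nat_lit 11026205)) p15_35_1 (nat_lit 3) (nat_lit 117) (nat_lit 118) = true := by decide +kernel
def p15_35_1_118 : pfC (piC [(nat_lit 37297016), (nat_lit 23751559), (nat_lit 15232604)] (nat_lit 11026205)) p15_35_1 (nat_lit 3) (nat_lit 118) (nat_lit 119) = true := by decide +kernel
def p15_35_1_119 : pfC (piC [(nat_lit 37297016), (nat_lit 23751559), (nat_lit 15232604)] (nat_lit 11026205)) p15_35_1 (nat_lit 3) (nat_lit 119) (nat_lit 120) = true := by decide +kernel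
def p15_35_1_120 : pfC (piC [(nat_lit 37297016), (nat_lit 23751559), (nat_lit 15232604)] (nat_lit 11026205)) p15_35_1 (nat_lit 3) (nat_lit 120) (nat_lit 121) = true := by decide +kernel
def p15_35_1_121 : pfC (piC [(nat_lit 37297016), (nat_lit 23751559), (nat_lit 15232604)] (nat_lit 11026205)) p15_35_1 (nat_lit 3) (nat_lit 121) (nat_lit 122) = true := by decide +kernel
def p15_35_1_122 : pfC (piC [(nat_lit 37297016), (nat_lit 23751559), (nat_lit 15232604)] (nat_lit 11026205)) p15_35_1 (nat_lit 3) (nat_lit 122) (nat_lit 123) = true := by decide +kernel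
def p15_35_1_123 : pfC (piC [(nat_lit 37297016), (nat_lit 23751559), (nat_lit 15232604)] (nat_lit 11026205)) p15_35_1 (nat_lit 3) (nat_lit 123) (nat_lit 124) = true := by decide +kernel
def p15_35_1_124 : pfC (piC [(nat_lit 37297016), (nat_lit 23751559), (nat_lit 15232604)] (nat_lit 11026205)) p15_35_1 (nat_lit 3) (nat_lit 124) (nat_lit 125) = true := by decide +kernel
def p15_35_1_125 : pfC (piC [(nat_lit 37297016), (nat_lit 23751559), (nat_lit 15232604)] (nat_lit 11026205)) p15_35_1 (nat_lit 3) (nat_lit 125) (nat_lit 126) = true := by decide +kernel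
def p15_35_1_126 : pfC (piC [(nat_lit 37297016), (nat_lit 23751559), (nat_lit 15232604)] (nat_lit 11026205)) p15_35_1 (nat_lit 3) (nat_lit 126) (nat_lit 127) = true := by decide +kernel
def p15_35_1_127 : pfC (piC [(nat_lit 37297016), (nat_lit 23751559), (nat_lit 15232604)] (nat_lit 11026205)) p15_35_1 (nat_lit 3) (nat_lit 127) (nat_lit 128) = true := by decide +kernel
def p15_35_1_128 : pfC (piC [(nat_lit 37297016), (nat_lit 23751559), (nat_lit 15232604)] (nat_lit 11026205)) p15_35_1 (nat_lit 3) (nat_lit 128) (nat_lit 129) = true := by decide +kernel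
def p15_35_1_129 : pfC (piC [(nat_lit 37297016), (nat_lit 23751559), (nat_lit 15232604)] (nat_lit 11026205)) p15_35_1 (nat_lit 3) (nat_lit 129) (nat_lit 130) = true := by decide +kernel
def p15_35_1_130 : pfC (piC [(nat_lit 37297016), (nat_lit 23751559), (nat_lit 15232604)] (nat_lit 11026205)) p15_35_1 (nat_lit 3) (nat_lit 130) (nat_lit 131) = true := by decide +kernel
def p15_35_1_131 : pfC (piC [(nat_lit 37297016), (nat_lit 23751559), (nat_lit 15232604)] (nat_lit 11026205)) p15_35_1 (nat_lit 3) (nat_lit 131) (nat_lit 132) = true := by decide +kernel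
def p15_35_1_132 : pfC (piC [(nat_lit 37297016), (nat_lit 23751559), (nat_lit 15232604)] (nat_lit 11026205)) p15_35_1 (nat_lit 3) (nat_lit 132) (nat_lit 133) = true := by decide +kernel
def p15_35_1_133 : pfC (piC [(nat_lit 37297016), (nat_lit 23751559), (nat_lit 15232604)] (nat_lit 11026205)) p15_35_1 (nat_lit 3) (nat_lit 133) (nat_lit 134) = true := by decide +kernel
def p15_35_1_134 : pfC (piC [(nat_lit 37297016), (nat_lit 23751559), (nat_lit 15232604)] (nat_lit 11026205)) p15_35_1 (nat_lit 3) (nat_lit 134) (nat_lit 135) = true := by decide +kernel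
def p15_35_1_135 : pfC (piC [(nat_lit 37297016), (nat_lit 23751559), (nat_lit 15232604)] (nat_lit 11026205)) p15_35_1 (nat_lit 3) (nat_lit 135) (nat_lit 136) = true := by decide +kernel
def p15_35_1_136 : pfC (piC [(nat_lit 37297016), (nat_lit 23751559), (nat_lit 15232604)] (nat_lit 11026205)) p15_35_1 (nat_lit 3) (nat_lit 136) (nat_lit 137) = true := by decide +kernel
def p15_35_1_137 : pfC (piC [(nat_lit 37297016), (nat_lit 23751559), (nat_lit 15232604)] (nat_lit 11026205)) p15_35_1 (nat_lit 3) (nat_lit 137) (nat_lit 138) = true := by decide +kernel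
def p15_35_1_138 : pfC (piC [(nat_lit 37297016), (nat_lit 23751559), (nat_lit 15232604)] (nat_lit 11026205)) p15_35_1 (nat_lit 3) (nat_lit 138) (nat_lit 139) = true := by decide +kernel
def p15_35_1_139 : pfC (piC [(nat_lit 37297016), (nat_lit 23751559), (nat_lit 15232604)] (nat_lit 11026205)) p15_35_1 (nat_lit 3) (nat_lit 139) (nat_lit 140) = true := by decide +kernel
def p15_35_1_140 : pfC (piC [(nat_lit 37297016), (nat_lit 23751559), (nat_lit 15232604)] (nat_lit 11026205)) p15_35_1 (nat_lit 3) (nat_lit 140) (nat_lit 141) = true := by decide +kernel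
def p15_35_1_141 : pfC (piC [(nat_lit 37297016), (nat_lit 23751559), (nat_lit 15232604)] (nat_lit 11026205)) p15_35_1 (nat_lit 3) (nat_lit 141) (nat_lit 142) = true := by decide +kernel
def p15_35_1_142 : pfC (piC [(nat_lit 37297016), (nat_lit 23751559), (nat_lit 15232604)] (nat_lit 11026205)) p15_35_1 (nat_lit 3) (nat_lit 142) (nat_lit 143) = true := by decide +kernel
def p15_35_1_143 : pfC (piC [(nat_lit 37297016), (nat_lit 23751559), (nat_lit 15232604)] (nat_lit 11026205)) p15_35_1 (nat_lit 3) (nat_lit 143) (nat_lit 144) = true := by decide +kernel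
def p15_35_1_144 : pfC (piC [(nat_lit 37297016), (nat_lit 23751559), (nat_lit 15232604)] (nat_lit 11026205)) p15_35_1 (nat_lit 3) (nat_lit 144) (nat_lit 145) = true := by decide +kernel
def p15_35_1_145 : pfC (piC [(nat_lit 37297016), (nat_lit 23751559), (nat_lit 15232604)] (nat_lit 11026205)) p15_35_1 (nat_lit 3) (nat_lit 145) (nat_lit 146) = true := by decide +kernel
def p15_35_1_146 : pfC (piC [(nat_lit 37297016), (nat_lit 23751559), (nat_lit 15232604)] (nat_lit 11026205)) p15_35_1 (nat_lit 3) (nat_lit 146) (nat_lit 147) = true := by decide +kernel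
def p15_35_1_147 : pfC (piC [(nat_lit 37297016), (nat_lit 23751559), (nat_lit 15232604)] (nat_lit 11026205)) p15_35_1 (nat_lit 3) (nat_lit 147) (nat_lit 148) = true := by decide +kernel
def p15_35_1_148 : pfC (piC [(nat_lit 37297016), (nat_lit 23751559), (nat_lit 15232604)] (nat_lit 11026205)) p15_35_1 (nat_lit 3) (nat_lit 148) (nat_lit 149) = true := by decide +kernel
def p15_35_1_149 : pfC (piC [(nat_lit 37297016), (nat_lit 23751559), (nat_lit 15232604)] (nat_lit 11026205)) p15_35_1 (nat_lit 3) (nat_lit 149) (nat_lit 150) = true := by decide +kernel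
def p15_35_1_150 : pfC (piC [(nat_lit 37297016), (nat_lit 23751559), (nat_lit 15232604)] (nat_lit 11026205)) p15_35_1 (nat_lit 3) (nat_lit 150) (nat_lit 151) = true := by decide +kernel
def p15_35_1_151 : pfC (piC [(nat_lit 37297016), (nat_lit 23751559), (nat_lit 15232604)] (nat_lit 11026205)) p15_35_1 (nat_lit 3) (nat_lit 151) (nat_lit 152) = true := by decide +kernel
def p15_35_1_152 : pfC (piC [(nat_lit 37297016), (nat_lit 23751559), (nat_lit 15232604)] (nat_lit 11026205)) p15_35_1 (nat_lit 3) (nat_lit 152) (nat_lit 153) = true := by decide +kernel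
def p15_35_1_153 : pfC (piC [(nat_lit 37297016), (nat_lit 23751559), (nat_lit 15232604)] (nat_lit 11026205)) p15_35_1 (nat_lit 3) (nat_lit 153) (nat_lit 154) = true := by decide +kernel
def p15_35_1_154 : pfC (piC [(nat_lit 37297016), (nat_lit 23751559), (nat_lit 15232604)] (nat_lit 11026205)) p15_35_1 (nat_lit 3) (nat_lit 154) (nat_lit 155) = true := by decide +kernel
def p15_35_1_155 : pfC (piC [(nat_lit 37297016), (nat_lit 23751559), (nat_lit 15232604)] (nat_lit 11026205)) p15_35_1 (nat_lit 3) (nat_lit 155) (nat_lit 156) = true := by decide +kernel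
def p15_35_1_156 : pfC (piC [(nat_lit 37297016), (nat_lit 23751559), (nat_lit 15232604)] (nat_lit 11026205)) p15_35_1 (nat_lit 3) (nat_lit 156) (nat_lit 157) = true := by decide +kernel
def p15_35_1_157 : pfC (piC [(nat_lit 37297016), (nat_lit 23751559), (nat_lit 15232604)] (nat_lit 11026205)) p15_35_1 (nat_lit 3) (nat_lit 157) (nat_lit 158) = true := by decide +kernel
def p15_35_1_158 : pfC (piC [(nat_lit 37297016), (nat_lit 23751559), (nat_lit 15232604)] (nat_lit 11026205)) p15_35_1 (nat_lit 3) (nat_lit 158) (nat_lit 159) = true := by decide +kernel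
def p15_35_1_159 : pfC (piC [(nat_lit 37297016), (nat_lit 23751559), (nat_lit 15232604)] (nat_lit 11026205)) p15_35_1 (nat_lit 3) (nat_lit 159) (nat_lit 160) = true := by decide +kernel
def p15_35_1_160 : pfC (piC [(nat_lit 37297016), (nat_lit 23751559), (nat_lit 15232604)] (nat_lit 11026205)) p15_35_1 (nat_lit 3) (nat_lit 160) (nat_lit 161) = true := by decide +kernel
def p15_35_1_161 : pfC (piC [(nat_lit 37297016), (nat_lit 23751559), (nat_lit 15232604)] (nat_lit 11026205)) p15_35_1 (nat_lit 3) (nat_lit 161) (nat_lit 162) = true := by decide +kernel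
def p15_35_1_162 : pfC (piC [(nat_lit 37297016), (nat_lit 23751559), (nat_lit 15232604)] (nat_lit 11026205)) p15_35_1 (nat_lit 3) (nat_lit 162) (nat_lit 163) = true := by decide +kernel
def p15_35_1_163 : pfC (piC [(nat_lit 37297016), (nat_lit 23751559), (nat_lit 15232604)] (nat_lit 11026205)) p15_35_1 (nat_lit 3) (nat_lit 163) (nat_lit 164) = true := by decide +kernel
def p15_35_1_164 : pfC (piC [(nat_lit 37297016), (nat_lit 23751559), (nat_lit 15232604)] (nat_lit 11026205)) p15_35_1 (nat_lit 3) (nat_lit 164) (nat_lit 165) = true := by decide +kernel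
def p15_35_1_165 : pfC (piC [(nat_lit 37297016), (nat_lit 23751559), (nat_lit 15232604)] (nat_lit 11026205)) p15_35_1 (nat_lit 3) (nat_lit 165) (nat_lit 166) = true := by decide +kernel
def p15_35_1_166 : pfC (piC [(nat_lit 37297016), (nat_lit 23751559), (nat_lit 15232604)] (nat_lit 11026205)) p15_35_1 (nat_lit 3) (nat_lit 166) (nat_lit 167) = true := by decide +kernel
def p15_35_1_167 : pfC (piC [(nat_lit 37297016), (nat_lit 23751559), (nat_lit 15232604)] (nat_lit 11026205)) p15_35_1 (nat_lit 3) (nat_lit 167) (nat_lit 168) = true := by decide +kernel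
def p15_35_1_168 : pfC (piC [(nat_lit 37297016), (nat_lit 23751559), (nat_lit 15232604)] (nat_lit 11026205)) p15_35_1 (nat_lit 3) (nat_lit 168) (nat_lit 169) = true := by decide +kernel
def p15_35_1_169 : pfC (piC [(nat_lit 37297016), (nat_lit 23751559), (nat_lit 15232604)] (nat_lit 11026205)) p15_35_1 (nat_lit 3) (nat_lit 169) (nat_lit 170) = true := by decide +kernel
def p15_35_1_170 : pfC (piC [(nat_lit 37297016), (nat_lit 23751559), (nat_lit 15232604)] (nat_lit 11026205)) p15_35_1 (nat_lit 3) (nat_lit 170) (nat_lit 171) = true := by decide +kernel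
def p15_35_1_171 : pfC (piC [(nat_lit 37297016), (nat_lit 23751559), (nat_lit 15232604)] (nat_lit 11026205)) p15_35_1 (nat_lit 3) (nat_lit 171) (nat_lit 172) = true := by decide +kernel
def p15_35_1_172 : pfC (piC [(nat_lit 37297016), (nat_lit 23751559), (nat_lit 15232604)] (nat_lit 11026205)) p15_35_1 (nat_lit 3) (nat_lit 172) (nat_lit 173) = true := by decide +kernel
def p15_35_1_173 : pfC (piC [(nat_lit 37297016), (nat_lit 23751559), (nat_lit 15232604)] (nat_lit 11026205)) p15_35_1 (nat_lit 3) (nat_lit 173) (nat_lit 174) = true := by decide +kernel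
def p15_35_1_174 : pfC (piC [(nat_lit 37297016), (nat_lit 23751559), (nat_lit 15232604)] (nat_lit 11026205)) p15_35_1 (nat_lit 3) (nat_lit 174) (nat_lit 175) = true := by decide +kernel
def p15_35_1_175 : pfC (piC [(nat_lit 37297016), (nat_lit 23751559), (nat_lit 15232604)] (nat_lit 11026205)) p15_35_1 (nat_lit 3) (nat_lit 175) (nat_lit 176) = true := by decide +kernel
def p15_35_1_176 : pfC (piC [(nat_lit 37297016), (nat_lit 23751559), (nat_lit 15232604)] (nat_lit 11026205)) p15_35_1 (nat_lit 3) (nat_lit 176) (nat_lit 177) = true := by decide +kernel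
def p15_35_1_177 : pfC (piC [(nat_lit 37297016), (nat_lit 23751559), (nat_lit 15232604)] (nat_lit 11026205)) p15_35_1 (nat_lit 3) (nat_lit 177) (nat_lit 178) = true := by decide +kernel
def p15_35_1_178 : pfC (piC [(nat_lit 37297016), (nat_lit 23751559), (nat_lit 15232604)] (nat_lit 11026205)) p15_35_1 (nat_lit 3) (nat_lit 178) (nat_lit 179) = true := by decide +kernel
def p15_35_1_179 : pfC (piC [(nat_lit 37297016), (nat_lit 23751559), (nat_lit 15232604)] (nat_lit 11026205)) p15_35_1 (nat_lit 3) (nat_lit 179) (nat_lit 180) = true := by decide +kernel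
def p15_35_1_180 : pfC (piC [(nat_lit 37297016), (nat_lit 23751559), (nat_lit 15232604)] (nat_lit 11026205)) p15_35_1 (nat_lit 3) (nat_lit 180) (nat_lit 181) = true := by decide +kernel
def p15_35_1_181 : pfC (piC [(nat_lit 37297016), (nat_lit 23751559), (nat_lit 15232604)] (nat_lit 11026205)) p15_35_1 (nat_lit 3) (nat_lit 181) (nat_lit 182) = true := by decide +kernel
def p15_35_1_182 : pfC (piC [(nat_lit 37297016), (nat_lit 23751559), (nat_lit 15232604)] (nat_lit 11026205)) p15_35_1 (nat_lit 3) (nat_lit 182) (nat_lit 183) = true := by decide +kernel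
def p15_35_1_183 : pfC (piC [(nat_lit 37297016), (nat_lit 23751559), (nat_lit 15232604)] (nat_lit 11026205)) p15_35_1 (nat_lit 3) (nat_lit 183) (nat_lit 184) = true := by decide +kernel
def p15_35_1_184 : pfC (piC [(nat_lit 37297016), (nat_lit 23751559), (nat_lit 15232604)] (nat_lit 11026205)) p15_35_1 (nat_lit 3) (nat_lit 184) (nat_lit 185) = true := by decide +kernel
def p15_35_1_185 : pfC (piC [(nat_lit 37297016), (nat_lit 23751559), (nat_lit 15232604)] (nat_lit 11026205)) p15_35_1 (nat_lit 3) (nat_lit 185) (nat_lit 186) = true := by decide +kernel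
def p15_35_1_186 : pfC (piC [(nat_lit 37297016), (nat_lit 23751559), (nat_lit 15232604)] (nat_lit 11026205)) p15_35_1 (nat_lit 3) (nat_lit 186) (nat_lit 187) = true := by decide +kernel
def p15_35_1_187 : pfC (piC [(nat_lit 37297016), (nat_lit 23751559), (nat_lit 15232604)] (nat_lit 11026205)) p15_35_1 (nat_lit 3) (nat_lit 187) (nat_lit 188) = true := by decide +kernel
def p15_35_1_188 : pfC (piC [(nat_lit 37297016), (nat_lit 23751559), (nat_lit 15232604)] (nat_lit 11026205)) p15_35_1 (nat_lit 3) (nat_lit 188) (nat_lit 189) = true := by decide +kernel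
def p15_35_1_189 : pfC (piC [(nat_lit 37297016), (nat_lit 23751559), (nat_lit 15232604)] (nat_lit 11026205)) p15_35_1 (nat_lit 3) (nat_lit 189) (nat_lit 190) = true := by decide +kernel
def p15_35_1_190 : pfC (piC [(nat_lit 37297016), (nat_lit 23751559), (nat_lit 15232604)] (nat_lit 11026205)) p15_35_1 (nat_lit 3) (nat_lit 190) (nat_lit 191) = true := by decide +kernel
def p15_35_1_191 : pfC (piC [(nat_lit 37297016), (nat_lit 23751559), (nat_lit 15232604)] (nat_lit 11026205)) p15_35_1 (nat_lit 3) (nat_lit 191) (nat_lit 192) = true := by decide +kernel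
theorem p15_35_1_T : PfS (PiF n15_35.reverse (nat_lit 11026205)) p15_35_1 (nat_lit 3) [] 0 :=
  pftab_of (los := [(nat_lit 37297016), (nat_lit 23751559), (nat_lit 15232604)]) (by decide +kernel) (hi := (nat_lit 192)) (PfP.trans (PfP.trans (PfP.trans (PfP.trans (PfP.trans (PfP.trans (PfP.trans (PfP.trans (PfP.trans (PfP.trans (PfP.trans (PfP.trans (PfP.trans (PfP.trans (PfP.trans (PfP.trans (PfP.trans (PfP.trans (PfP.trans (PfP.trans (PfP.trans (PfP.trans (PfP.trans (PfP.trans (PfP.trans (PfP.trans (PfP.trans (PfP.trans (PfP.trans (PfP.trans (PfP.trans (PfP.trans (PfP.trans (PfP.trans (PfP.trans (PfP.trans (PfP.trans (PfP.trans (PfP.trans (PfP.trans (PfP.trans (PfP.trans (PfP.trans (PfP.trans (PfP.trans (PfP.trans (PfP.trans (PfP.trans (PfP.trans (PfP.trans (PfP.trans (PfP.trans (PfP.trans (PfP.trans (PfP.trans (PfP.trans (PfP.trans (PfP.trans (PfP.trans (PfP.trans (PfP.trans (PfP.trans (PfP.trans (PfP.trans (PfP.trans (PfP.trans (PfP.trans (PfP.trans (PfP.trans (PfP.trans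 (PfP.trans (PfP.trans (PfP.trans (PfP.trans (PfP.trans (PfP.trans (PfP.trans (PfP.trans (PfP.trans (PfP.trans (PfP.trans (PfP.trans (PfP.trans (PfP.trans (PfP.trans (PfP.trans (PfP.trans (PfP.trans (PfP.trans (PfP.trans (PfP.trans (PfP.trans (PfP.trans (PfP.trans (PfP.trans (PfP.trans (PfP.trans (PfP.trans (PfP.trans (PfP.trans (PfP.trans (PfP.trans (PfP.trans (PfP.trans (PfP.trans (PfP.trans (PfP.trans (PfP.trans (PfP.trans
 (PfP.trans (PfP.trans (PfP.trans (PfP.trans (PfP.trans (PfP.trans (PfP.trans (PfP.trans (PfP.trans (PfP.trans (PfP.trans (PfP.trans (PfP.trans (PfP.trans (PfP.trans (PfP.trans (PfP.trans (PfP.trans (PfP.trans (PfP.trans (PfP.trans (PfP.trans (PfP.trans (PfP.trans (PfP.trans (PfP.trans (PfP.trans (PfP.trans (PfP.trans (PfP.trans (PfP.trans (PfP.trans (PfP.trans (PfP.trans (PfP.trans (PfP.trans (PfP.trans (PfP.trans (PfP.trans (PfP.trans (PfP.trans (PfP.trans (PfP.trans (PfP.trans (PfP.trans (PfP.trans (PfP.trans (PfP.trans (PfP.trans (PfP.trans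 (PfP.trans (PfP.trans (PfP.trans (PfP.trans (PfP.trans (PfP.trans (PfP.trans (PfP.trans (PfP.trans (PfP.trans (PfP.trans (PfP.trans (PfP.trans (PfP.trans (PfP.trans (PfP.trans (PfP.trans (PfP.trans (PfP.trans (PfP.trans (PfP.trans (PfP.trans (PfP.trans (PfP.trans (PfP.trans (PfP.trans (PfP.trans (PfP.trans (PfP.trans (PfP.trans (PfP.trans (PfP.trans (pfC_sound p15_35_1_0) (pfC_sound p15_35_1_1)) (pfC_sound p15_35_1_2)) (pfC_sound p15_35_1_3)) (pfC_sound p15_35_1_4)) (pfC_sound p15_35_1_5)) (pfC_sound p15_35_1_6)) (pfC_sound p15_35_1_7)) (pfC_sound p15_35_1_8)) (pfC_sound p15_35_1_9)) (pfC_sound p15_35_1_10)) (pfC_sound p15_35_1_11))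
 (pfC_sound p15_35_1_12)) (pfC_sound p15_35_1_13)) (pfC_sound p15_35_1_14)) (pfC_sound p15_35_1_15)) (pfC_sound p15_35_1_16)) (pfC_sound p15_35_1_17)) (pfC_sound p15_35_1_18)) (pfC_sound p15_35_1_19)) (pfC_sound p15_35_1_20)) (pfC_sound p15_35_1_21)) (pfC_sound p15_35_1_22)) (pfC_sound p15_35_1_23)) (pfC_sound p15_35_1_24)) (pfC_sound p15_35_1_25)) (pfC_sound p15_35_1_26)) (pfC_sound p15_35_1_27)) (pfC_sound p15_35_1_28)) (pfC_sound p15_35_1_29)) (pfC_sound p15_35_1_30)) (pfC_sound p15_35_1_31)) (pfC_sound p15_35_1_32)) (pfC_sound p15_35_1_33)) (pfC_sound p15_35_1_34)) (pfC_sound p15_35_1_35)) (pfC_sound p15_35_1_36)) (pfC_sound p15_35_1_37)) (pfC_sound p15_35_1_38)) (pfC_sound p15_35_1_39)) (pfC_sound p15_35_1_40)) (pfC_sound p15_35_1_41)) (pfC_sound p15_35_1_42)) (pfC_sound p15_35_1_43)) (pfC_sound p15_35_1_44)) (pfC_sound p15_35_1_45)) (pfC_sound p15_35_1_46)) (pfC_sound p15_35_1_47)) (pfC_sound p15_35_1_48)) (pfC_sound p15_35_1_49)) (pfC_sound p15_35_1_50)) (pfC_sound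 p15_35_1_51)) (pfC_sound p15_35_1_52)) (pfC_sound p15_35_1_53)) (pfC_sound p15_35_1_54)) (pfC_sound p15_35_1_55)) (pfC_sound p15_35_1_56)) (pfC_sound p15_35_1_57)) (pfC_sound p15_35_1_58)) (pfC_sound p15_35_1_59))
 (pfC_sound p15_35_1_60)) (pfC_sound p15_35_1_61)) (pfC_sound p15_35_1_62)) (pfC_sound p15_35_1_63)) (pfC_sound p15_35_1_64)) (pfC_sound p15_35_1_65)) (pfC_sound p15_35_1_66)) (pfC_sound p15_35_1_67)) (pfC_sound p15_35_1_68)) (pfC_sound p15_35_1_69)) (pfC_sound p15_35_1_70)) (pfC_sound p15_35_1_71)) (pfC_sound p15_35_1_72)) (pfC_sound p15_35_1_73)) (pfC_sound p15_35_1_74)) (pfC_sound p15_35_1_75)) (pfC_sound p15_35_1_76)) (pfC_sound p15_35_1_77)) (pfC_sound p15_35_1_78)) (pfC_sound p15_35_1_79)) (pfC_sound p15_35_1_80)) (pfC_sound p15_35_1_81)) (pfC_sound p15_35_1_82)) (pfC_sound p15_35_1_83)) (pfC_sound p15_35_1_84)) (pfC_sound p15_35_1_85)) (pfC_sound p15_35_1_86)) (pfC_sound p15_35_1_87)) (pfC_sound p15_35_1_88)) (pfC_sound p15_35_1_89)) (pfC_sound p15_35_1_90))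 (pfC_sound p15_35_1_91)) (pfC_sound p15_35_1_92)) (pfC_sound p15_35_1_93)) (pfC_sound p15_35_1_94)) (pfC_sound p15_35_1_95)) (pfC_sound p15_35_1_96)) (pfC_sound p15_35_1_97)) (pfC_sound p15_35_1_98)) (pfC_sound p15_35_1_99)) (pfC_sound p15_35_1_100)) (pfC_sound p15_35_1_101)) (pfC_sound p15_35_1_102)) (pfC_sound p15_35_1_103)) (pfC_sound p15_35_1_104)) (pfC_sound p15_35_1_105)) (pfC_sound p15_35_1_106)) (pfC_sound
 p15_35_1_107)) (pfC_sound p15_35_1_108)) (pfC_sound p15_35_1_109)) (pfC_sound p15_35_1_110)) (pfC_sound p15_35_1_111)) (pfC_sound p15_35_1_112)) (pfC_sound p15_35_1_113)) (pfC_sound p15_35_1_114)) (pfC_sound p15_35_1_115)) (pfC_sound p15_35_1_116)) (pfC_sound p15_35_1_117)) (pfC_sound p15_35_1_118)) (pfC_sound p15_35_1_119)) (pfC_sound p15_35_1_120)) (pfC_sound p15_35_1_121)) (pfC_sound p15_35_1_122)) (pfC_sound p15_35_1_123)) (pfC_sound p15_35_1_124)) (pfC_sound p15_35_1_125)) (pfC_sound p15_35_1_126)) (pfC_sound p15_35_1_127)) (pfC_sound p15_35_1_128))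 (pfC_sound p15_35_1_129)) (pfC_sound p15_35_1_130)) (pfC_sound p15_35_1_131)) (pfC_sound p15_35_1_132)) (pfC_sound p15_35_1_133)) (pfC_sound p15_35_1_134)) (pfC_sound p15_35_1_135)) (pfC_sound p15_35_1_136)) (pfC_sound p15_35_1_137)) (pfC_sound p15_35_1_138)) (pfC_sound p15_35_1_139)) (pfC_sound p15_35_1_140)) (pfC_sound p15_35_1_141)) (pfC_sound p15_35_1_142)) (pfC_sound p15_35_1_143)) (pfC_sound p15_35_1_144)) (pfC_sound p15_35_1_145)) (pfC_sound p15_35_1_146)) (pfC_sound p15_35_1_147)) (pfC_sound p15_35_1_148)) (pfC_sound p15_35_1_149)) (pfC_sound p15_35_1_150)) (pfC_sound p15_35_1_151)) (pfC_sound p15_35_1_152)) (pfC_sound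
 p15_35_1_153)) (pfC_sound p15_35_1_154)) (pfC_sound p15_35_1_155)) (pfC_sound p15_35_1_156)) (pfC_sound p15_35_1_157)) (pfC_sound p15_35_1_158)) (pfC_sound p15_35_1_159)) (pfC_sound p15_35_1_160)) (pfC_sound p15_35_1_161)) (pfC_sound p15_35_1_162)) (pfC_sound p15_35_1_163)) (pfC_sound p15_35_1_164)) (pfC_sound p15_35_1_165)) (pfC_sound p15_35_1_166)) (pfC_sound p15_35_1_167)) (pfC_sound p15_35_1_168)) (pfC_sound p15_35_1_169)) (pfC_sound p15_35_1_170)) (pfC_sound p15_35_1_171)) (pfC_sound p15_35_1_172)) (pfC_sound p15_35_1_173)) (pfC_sound p15_35_1_174)) (pfC_sound p15_35_1_175)) (pfC_sound p15_35_1_176)) (pfC_sound p15_35_1_177)) (pfC_sound p15_35_1_178)) (pfC_sound p15_35_1_179)) (pfC_sound p15_35_1_180)) (pfC_sound p15_35_1_181)) (pfC_sound p15_35_1_182)) (pfC_sound p15_35_1_183)) (pfC_sound p15_35_1_184)) (pfC_sound p15_35_1_185)) (pfC_sound p15_35_1_186)) (pfC_sound p15_35_1_187)) (pfC_sound p15_35_1_188)) (pfC_sound p15_35_1_189)) (pfC_sound p15_35_1_190)) (pfC_sound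 p15_35_1_191)) (by decide +kernel)

def z15_35_1 : zOK yB15_35 (nat_lit 1) (nat_lit 400) (nat_lit 600) (nat_lit 11026205) (nat_lit 7031977) = true := by decide +kernel
def g15_35_1 : gOK yB15_35.x P15_35 (nat_lit 1384) (q15_35 :: r15_35) (nat_lit 1) (nat_lit 400) (nat_lit 2) (nat_lit 600) (nat_lit 11000000) (nat_lit 17850000) (nat_lit 12712500) (nat_lit 12712500) [(nat_lit 800), (nat_lit 1600)] = true := by decide +kernel
def v15_35_1 : ivC P15_35 s15_35 w15_35 n15_35 (nat_lit 3) (nat_lit 4880) (nat_lit 1) (nat_lit 400) f184_0_400 f192_0_400 (nat_lit 2) (nat_lit 600) f184_0_600 f192_0_600 (nat_lit 11026205) (nat_lit 7031977) p15_35_1 = true := by decide +kernel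
def p15_35_2 : PF := (PF.cons (PF.cons (PF.cons (PF.leaf (nat_lit 2605875) (nat_lit 14463094) (nat_lit 52645718) (nat_lit 14463094) [(nat_lit 0), (nat_lit 0), (nat_lit 0)]) (PF.cons (PF.leaf (nat_lit 2808359) (nat_lit 368590) (nat_lit 52288143) (nat_lit 14452079) [(nat_lit 368590), (nat_lit 0), (nat_lit 0)]) (PF.cons (PF.leaf (nat_lit 3046419) (nat_lit 400151) (nat_lit 51871702) (nat_lit 14436806) [(nat_lit 400151), (nat_lit 0), (nat_lit 0)]) (PF.cons (PF.leaf (nat_lit 3312877) (nat_lit 427876) (nat_lit 51408340) (nat_lit 14416842) [(nat_lit 427876), (nat_lit 0), (nat_lit 0)]) (PF.cons (PF.leaf (nat_lit 3603218) (nat_lit 452585) (nat_lit 50906653) (nat_lit 14391819) [(nat_lit 452585), (nat_lit 0), (nat_lit 0)]) (PF.cons (PF.leaf (nat_lit 3913944) (nat_lit 474800) (nat_lit 50373348) (nat_lit 14361462) [(nat_lit 474800), (nat_lit 0), (nat_lit 0)]) (PF.cons (PF.leaf (nat_lit 4242241) (nat_lit 494885) (nat_lit 49813910) (nat_lit 14325590) [(nat_lit 494885), (nat_lit 0),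 (nat_lit 0)]) (PF.cons (PF.leaf (nat_lit 4585613) (nat_lit 513103) (nat_lit 49232975) (nat_lit 14284111) [(nat_lit 513103), (nat_lit 0), (nat_lit 0)]) (PF.cons (PF.leaf (nat_lit 4941962) (nat_lit 529658) (nat_lit 48634534) (nat_lit
 14237014) [(nat_lit 529658), (nat_lit 0), (nat_lit 0)]) (PF.cons (PF.leaf (nat_lit 5309403) (nat_lit 544709) (nat_lit 48022070) (nat_lit 14184359) [(nat_lit 544709), (nat_lit 0), (nat_lit 0)]) (PF.cons (PF.leaf (nat_lit 5686239) (nat_lit 558389) (nat_lit 47398650) (nat_lit 14126266) [(nat_lit 558389), (nat_lit 0), (nat_lit 0)]) (PF.cons (PF.leaf (nat_lit 6070973) (nat_lit 570810) (nat_lit 46766989) (nat_lit 14062906) [(nat_lit 570810), (nat_lit 0), (nat_lit 0)]) (PF.cons (PF.leaf (nat_lit 6462210) (nat_lit 582068) (nat_lit 46129493) (nat_lit 13994492) [(nat_lit 582068), (nat_lit 0), (nat_lit 0)]) (PF.cons (PF.leaf (nat_lit 6858744) (nat_lit 592249) (nat_lit 45488305) (nat_lit 13921268) [(nat_lit 592249), (nat_lit 0), (nat_lit 0)]) (PF.cons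 (PF.leaf (nat_lit 7259402) (nat_lit 601427) (nat_lit 44845323) (nat_lit 13843502) [(nat_lit 601427), (nat_lit 0), (nat_lit 0)]) (PF.cons PF.nil (PF.cons PF.nil (PF.cons PF.nil PF.nil)))))))))))))))))) (PF.cons (PF.cons (PF.leaf (nat_lit 3349816) (nat_lit 1930426) (nat_lit 50802748) (nat_lit 14375638) [(nat_lit 0), (nat_lit 1930426), (nat_lit 0)]) (PF.cons (PF.leaf (nat_lit 3609532) (nat_lit 444814) (nat_lit 50345592) (nat_lit 14349228) [(nat_lit
 444814), (nat_lit 1969177), (nat_lit 0)]) (PF.cons (PF.leaf (nat_lit 3894957) (nat_lit 468084) (nat_lit 49848644) (nat_lit 14317421) [(nat_lit 468084), (nat_lit 2006577), (nat_lit 0)]) (PF.cons (PF.leaf (nat_lit 4201252) (nat_lit 488864) (nat_lit 49320118) (nat_lit 14280153) [(nat_lit 488864), (nat_lit 2041945), (nat_lit 0)]) (PF.cons (PF.leaf (nat_lit 4525136) (nat_lit 507563) (nat_lit 48766226) (nat_lit 14237394) [(nat_lit 507563), (nat_lit 2074938), (nat_lit 0)]) (PF.cons (PF.leaf (nat_lit 4863967) (nat_lit 524462) (nat_lit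 48191937) (nat_lit 14189167) [(nat_lit 524462), (nat_lit 2105397), (nat_lit 0)]) (PF.cons (PF.leaf (nat_lit 5215473) (nat_lit 539769) (nat_lit 47601378) (nat_lit 14135549) [(nat_lit 539769), (nat_lit 2133267), (nat_lit 0)]) (PF.cons (PF.leaf (nat_lit 5577753) (nat_lit 553646) (nat_lit 46998057) (nat_lit 14076667) [(nat_lit 553646), (nat_lit 2158562), (nat_lit 0)]) (PF.cons (PF.leaf (nat_lit 5949072) (nat_lit 566223) (nat_lit 46384999) (nat_lit 14012691) [(nat_lit 566223), (nat_lit 2181331), (nat_lit 0)]) (PF.cons (PF.leaf (nat_lit 6327947) (nat_lit 577610) (nat_lit 45764840) (nat_lit 13943828) [(nat_lit 577610), (nat_lit 2201651), (nat_lit 0)]) (PF.cons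
 (PF.leaf (nat_lit 6712996) (nat_lit 587899) (nat_lit 45139891) (nat_lit 13870314) [(nat_lit 587899), (nat_lit 2219613), (nat_lit 0)]) (PF.cons (PF.leaf (nat_lit 7103017) (nat_lit 597173) (nat_lit 44512183) (nat_lit 13792406) [(nat_lit 597173), (nat_lit 2235317), (nat_lit 0)]) (PF.cons (PF.leaf (nat_lit 7496915) (nat_lit 605504) (nat_lit 43883506) (nat_lit 13710380) [(nat_lit 605504), (nat_lit 2248869), (nat_lit 0)]) (PF.cons PF.nil (PF.cons PF.nil (PF.cons PF.nil PF.nil)))))))))))))))) (PF.cons (PF.cons (PF.leaf (nat_lit 4186478) (nat_lit 2049285) (nat_lit 48781723) (nat_lit 14228518) [(nat_lit 0), (nat_lit 2049285), (nat_lit 0)]) (PF.cons (PF.leaf (nat_lit 4485556) (nat_lit 500167) (nat_lit 48264745) (nat_lit 14185459) [(nat_lit 500167), (nat_lit 2079220), (nat_lit 0)]) (PF.cons (PF.leaf (nat_lit 4803355) (nat_lit 517839) (nat_lit 47721640) (nat_lit 14136862) [(nat_lit 517839), (nat_lit 2107315), (nat_lit 0)]) (PF.cons (PF.leaf (nat_lit 5136371) (nat_lit 533700) (nat_lit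 47158190) (nat_lit 14082890) [(nat_lit 533700), (nat_lit 2133315), (nat_lit 0)]) (PF.cons (PF.leaf (nat_lit 5482102) (nat_lit 547988) (nat_lit 46578931) (nat_lit 14023717) [(nat_lit 547988), (nat_lit 2157104),
 (nat_lit 0)]) (PF.cons (PF.leaf (nat_lit 5838506) (nat_lit 560882) (nat_lit 45987565) (nat_lit 13959541) [(nat_lit 560882), (nat_lit 2178646), (nat_lit 0)]) (PF.cons (PF.leaf (nat_lit 6203773) (nat_lit 572519) (nat_lit 45387194) (nat_lit 13890581) [(nat_lit 572519), (nat_lit 2197958), (nat_lit 0)]) (PF.cons (PF.leaf (nat_lit 6576399) (nat_lit 583014) (nat_lit 44780458) (nat_lit 13817077) [(nat_lit 583014), (nat_lit 2215088), (nat_lit 0)]) (PF.cons (PF.leaf (nat_lit 6954998) (nat_lit 592460) (nat_lit 44169634) (nat_lit 13739287) [(nat_lit 592460), (nat_lit 2230104), (nat_lit 0)]) (PF.cons (PF.leaf (nat_lit 7338362) (nat_lit 600939) (nat_lit 43556695) (nat_lit 13657482) [(nat_lit 600939), (nat_lit 2243087), (nat_lit 0)]) (PF.cons (PF.leaf (nat_lit 7725416) (nat_lit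 608525) (nat_lit 42943360) (nat_lit 13571941) [(nat_lit 608525), (nat_lit 2254128), (nat_lit 0)]) (PF.cons (PF.leaf (nat_lit 8115181) (nat_lit 615281) (nat_lit 42331126) (nat_lit 13482948) [(nat_lit 615281), (nat_lit 2263321), (nat_lit 0)]) (PF.cons PF.nil (PF.cons PF.nil PF.nil)))))))))))))) (PF.cons (PF.cons (PF.leaf (nat_lit 5078583) (nat_lit 2133811) (nat_lit 46682346) (nat_lit 14025031) [(nat_lit 0), (nat_lit
 2133811), (nat_lit 0)]) (PF.cons (PF.leaf (nat_lit 5403956) (nat_lit 541000) (nat_lit 46133835) (nat_lit 13966379) [(nat_lit 541000), (nat_lit 2155865), (nat_lit 0)]) (PF.cons (PF.leaf (nat_lit 5742826) (nat_lit 554485) (nat_lit 45569083) (nat_lit 13902639) [(nat_lit 554485), (nat_lit 2176039), (nat_lit 0)]) (PF.cons (PF.leaf (nat_lit 6092548) (nat_lit 566573) (nat_lit 44992233) (nat_lit 13834095) [(nat_lit 566573), (nat_lit 2194254), (nat_lit 0)]) (PF.cons (PF.leaf (nat_lit 6451193) (nat_lit 577422) (nat_lit 44406611) (nat_lit 13761023) [(nat_lit 577422),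 (nat_lit 2210496), (nat_lit 0)]) (PF.cons (PF.leaf (nat_lit 6817132) (nat_lit 587154) (nat_lit 43814966) (nat_lit 13683703) [(nat_lit 587154), (nat_lit 2224789), (nat_lit 0)]) (PF.cons (PF.leaf (nat_lit 7188970) (nat_lit 595872) (nat_lit 43219609) (nat_lit 13602416) [(nat_lit 595872), (nat_lit 2237183), (nat_lit 0)]) (PF.cons (PF.leaf (nat_lit 7565482) (nat_lit 603660) (nat_lit 42622508) (nat_lit 13517447) [(nat_lit 603660), (nat_lit 2247744), (nat_lit 0)]) (PF.cons (PF.leaf (nat_lit 7945584) (nat_lit 610592) (nat_lit 42025350) (nat_lit 13429079) [(nat_lit 610592), (nat_lit 2256547), (nat_lit 0)]) (PF.cons (PF.leaf (nat_lit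
 8328309) (nat_lit 616733) (nat_lit 41429591) (nat_lit 13337597) [(nat_lit 616733), (nat_lit 2263674), (nat_lit 0)]) (PF.cons PF.nil (PF.cons PF.nil PF.nil)))))))))))) (PF.cons (PF.cons (PF.leaf (nat_lit 5999016) (nat_lit 2190648) (nat_lit 44572918) (nat_lit 13773299) [(nat_lit 0), (nat_lit 2190648), (nat_lit 0)]) (PF.cons (PF.leaf (nat_lit 6340824) (nat_lit 570840) (nat_lit 44013057) (nat_lit 13701315) [(nat_lit 570840), (nat_lit 2205899), (nat_lit 0)]) (PF.cons (PF.leaf (nat_lit 6692148) (nat_lit 581045) (nat_lit 43444104) (nat_lit 13624986) [(nat_lit 581045), (nat_lit 2219407), (nat_lit 0)]) (PF.cons (PF.leaf (nat_lit 7050940) (nat_lit 590140) (nat_lit 42869050) (nat_lit 13544641) [(nat_lit 590140), (nat_lit 2231175), (nat_lit 0)]) (PF.cons (PF.leaf (nat_lit 7415687) (nat_lit 598238) (nat_lit 42290331) (nat_lit 13460593) [(nat_lit 598238), (nat_lit 2241234), (nat_lit 0)]) (PF.cons (PF.leaf (nat_lit 7785116) (nat_lit 605430) (nat_lit 41709972) (nat_lit 13373144) [(nat_lit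 605430), (nat_lit 2249636), (nat_lit 0)]) (PF.cons (PF.leaf (nat_lit 8158136) (nat_lit 611794) (nat_lit 41129678) (nat_lit 13282587) [(nat_lit 611794), (nat_lit 2256445), (nat_lit 0)]) (PF.cons (PF.leaf (nat_lit
 8533762) (nat_lit 617397) (nat_lit 40550893) (nat_lit 13189207) [(nat_lit 617397), (nat_lit 2261732), (nat_lit 0)]) (PF.cons PF.nil (PF.cons PF.nil PF.nil)))))))))) (PF.cons (PF.cons (PF.leaf (nat_lit 6927854) (nat_lit 2225094) (nat_lit 42500031) (nat_lit 13483310) [(nat_lit 0), (nat_lit 2225094), (nat_lit 0)]) (PF.cons (PF.leaf (nat_lit 7278646) (nat_lit 592057) (nat_lit 41942996) (nat_lit 13400707) [(nat_lit 592057), (nat_lit 2234610), (nat_lit 0)]) (PF.cons (PF.leaf (nat_lit 7635903) (nat_lit 599640) (nat_lit 41381988) (nat_lit 13314599) [(nat_lit 599640), (nat_lit 2242588), (nat_lit 0)]) (PF.cons (PF.leaf (nat_lit 7997998) (nat_lit 606329) (nat_lit 40819169) (nat_lit 13225313) [(nat_lit 606329), (nat_lit 2249068), (nat_lit 0)]) (PF.cons (PF.leaf (nat_lit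 8363765) (nat_lit 612206) (nat_lit 40256314) (nat_lit 13133159) [(nat_lit 612206), (nat_lit 2254102), (nat_lit 0)]) (PF.cons (PF.leaf (nat_lit 8732214) (nat_lit 617345) (nat_lit 39694901) (nat_lit 13038426) [(nat_lit 617345), (nat_lit 2257751), (nat_lit 0)]) (PF.cons (PF.leaf (nat_lit 9102451) (nat_lit 621806) (nat_lit 39136168) (nat_lit 12941392) [(nat_lit 621806), (nat_lit 2260083), (nat_lit 0)]) (PF.cons PF.nil
 PF.nil)))))))) (PF.cons (PF.cons (PF.leaf (nat_lit 7850659) (nat_lit 2241540) (nat_lit 40494462) (nat_lit 13165108) [(nat_lit 0), (nat_lit 2241540), (nat_lit 0)]) (PF.cons (PF.leaf (nat_lit 8204845) (nat_lit 606423) (nat_lit 39949928) (nat_lit 13074597) [(nat_lit 606423), (nat_lit 2246310), (nat_lit 0)]) (PF.cons (PF.leaf (nat_lit 8563160) (nat_lit 611893) (nat_lit 39405026) (nat_lit 12981399) [(nat_lit 611893), (nat_lit 2249766), (nat_lit 0)]) (PF.cons (PF.leaf (nat_lit 8924309) (nat_lit 616637) (nat_lit 38861315) (nat_lit 12885819) [(nat_lit 616637), (nat_lit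 2251960), (nat_lit 0)]) (PF.cons (PF.leaf (nat_lit 9287376) (nat_lit 620719) (nat_lit 38320077) (nat_lit 12788137) [(nat_lit 620719), (nat_lit 2252953), (nat_lit 0)]) (PF.cons PF.nil PF.nil)))))) (PF.cons (PF.cons (PF.leaf (nat_lit 8757248) (nat_lit 2243656) (nat_lit 38575395) (nat_lit 12827823) [(nat_lit 0), (nat_lit 2243656), (nat_lit 0)]) (PF.cons (PF.leaf (nat_lit 9110701) (nat_lit 615325) (nat_lit 38049687) (nat_lit 12731867) [(nat_lit 615325), (nat_lit 2244561), (nat_lit 0)]) (PF.cons (PF.leaf (nat_lit 9466515) (nat_lit 619089) (nat_lit 37526092) (nat_lit 12633963) [(nat_lit 619089), (nat_lit 2244368), (nat_lit 0)])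
 (PF.cons PF.nil PF.nil)))) (PF.cons (PF.cons (PF.leaf (nat_lit 9640707) (nat_lit 2234493) (nat_lit 36753618) (nat_lit 12479250) [(nat_lit 0), (nat_lit 2234493), (nat_lit 0)]) (PF.cons PF.nil PF.nil)) (PF.cons PF.nil (PF.cons PF.nil PF.nil))))))))))) (PF.cons (PF.cons (PF.cons (PF.leaf (nat_lit 4273877) (nat_lit 6310963) (nat_lit 46830864) (nat_lit 13966985) [(nat_lit 0), (nat_lit 0), (nat_lit 6310963)]) (PF.cons (PF.leaf (nat_lit 4538811) (nat_lit 472639) (nat_lit 46390658) (nat_lit 13923134) [(nat_lit 472639), (nat_lit 0), (nat_lit 6322380)]) (PF.cons (PF.leaf (nat_lit 4827105) (nat_lit 493456) (nat_lit 45916385) (nat_lit 13873461) [(nat_lit 493456), (nat_lit 0), (nat_lit 6332052)]) (PF.cons (PF.leaf (nat_lit 5133790) (nat_lit 511609) (nat_lit 45416111) (nat_lit 13818397) [(nat_lit 511609), (nat_lit 0), (nat_lit 6339476)]) (PF.cons (PF.leaf (nat_lit 5455566) (nat_lit 527609) (nat_lit 44895757) (nat_lit 13758278) [(nat_lit 527609), (nat_lit 0), (nat_lit 6344337)])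 (PF.cons (PF.leaf (nat_lit 5789840) (nat_lit 541808) (nat_lit 44359922) (nat_lit 13693399) [(nat_lit 541808), (nat_lit 0), (nat_lit 6346447)]) (PF.cons (PF.leaf (nat_lit 6134498) (nat_lit 554458) (nat_lit 43812312)
 (nat_lit 13624038) [(nat_lit 554458), (nat_lit 0), (nat_lit 6345713)]) (PF.cons (PF.leaf (nat_lit 6487753) (nat_lit 565749) (nat_lit 43255991) (nat_lit 13550468) [(nat_lit 565749), (nat_lit 0), (nat_lit 6342105)]) (PF.cons (PF.leaf (nat_lit 6848089) (nat_lit 575833) (nat_lit 42693534) (nat_lit 13472963) [(nat_lit 575833), (nat_lit 0), (nat_lit 6335646)]) (PF.cons (PF.leaf (nat_lit 7214157) (nat_lit 584831) (nat_lit 42127136) (nat_lit 13391795) [(nat_lit 584831), (nat_lit 0), (nat_lit 6326395)]) (PF.cons (PF.leaf (nat_lit 7584793) (nat_lit 592846) (nat_lit 41558675) (nat_lit 13307235) [(nat_lit 592846), (nat_lit 0), (nat_lit 6314439)]) (PF.cons (PF.leaf (nat_lit 7958950) (nat_lit 599963) (nat_lit 40989773) (nat_lit 13219554) [(nat_lit 599963), (nat_lit 0),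 (nat_lit 6299883)]) (PF.cons (PF.leaf (nat_lit 8335706) (nat_lit 606259) (nat_lit 40421832) (nat_lit 13129018) [(nat_lit 606259), (nat_lit 0), (nat_lit 6282848)]) (PF.cons PF.nil (PF.cons PF.nil (PF.cons PF.nil PF.nil)))))))))))))))) (PF.cons (PF.cons (PF.leaf (nat_lit 5097315) (nat_lit 2097200) (nat_lit 44928104) (nat_lit 13753185) [(nat_lit 0), (nat_lit 2097200), (nat_lit 6330322)]) (PF.cons (PF.leaf (nat_lit 5394945) (nat_lit
 518234) (nat_lit 44444032) (nat_lit 13694992) [(nat_lit 518234), (nat_lit 2118523), (nat_lit 6333030)]) (PF.cons (PF.leaf (nat_lit 5709078) (nat_lit 533535) (nat_lit 43938611) (nat_lit 13631655) [(nat_lit 533535), (nat_lit 2138107), (nat_lit 6333367)]) (PF.cons (PF.leaf (nat_lit 6036275) (nat_lit 547003) (nat_lit 43417210) (nat_lit 13563604) [(nat_lit 547003), (nat_lit 2155821), (nat_lit 6331167)]) (PF.cons (PF.leaf (nat_lit 6374156) (nat_lit 558923) (nat_lit 42883939) (nat_lit 13491204) [(nat_lit 558923), (nat_lit 2171625), (nat_lit 6326349)])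 (PF.cons (PF.leaf (nat_lit 6720768) (nat_lit 569504) (nat_lit 42342070) (nat_lit 13414784) [(nat_lit 569504), (nat_lit 2185536), (nat_lit 6318896)]) (PF.cons (PF.leaf (nat_lit 7074494) (nat_lit 578907) (nat_lit 41794277) (nat_lit 13334653) [(nat_lit 578907), (nat_lit 2197601), (nat_lit 6308834)]) (PF.cons (PF.leaf (nat_lit 7433954) (nat_lit 587257) (nat_lit 41242791) (nat_lit 13251105) [(nat_lit 587257), (nat_lit 2207886), (nat_lit 6296225)]) (PF.cons (PF.leaf (nat_lit 7797952) (nat_lit 594659) (nat_lit 40689490) (nat_lit 13164424) [(nat_lit 594659), (nat_lit 2216466), (nat_lit 6281153)]) (PF.cons (PF.leaf (nat_lit 8165438) (nat_lit 601200)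
 (nat_lit 40135975) (nat_lit 13074887) [(nat_lit 601200), (nat_lit 2223424), (nat_lit 6263720)]) (PF.cons (PF.leaf (nat_lit 8535478) (nat_lit 606955) (nat_lit 39583612) (nat_lit 12982761) [(nat_lit 606955), (nat_lit 2228844), (nat_lit 6244038)]) (PF.cons PF.nil (PF.cons PF.nil (PF.cons PF.nil PF.nil)))))))))))))) (PF.cons (PF.cons (PF.leaf (nat_lit 5959976) (nat_lit 2151402) (nat_lit 42992567) (nat_lit 13497901) [(nat_lit 0), (nat_lit 2151402), (nat_lit 6315538)]) (PF.cons (PF.leaf (nat_lit 6278546) (nat_lit 550717) (nat_lit 42488449) (nat_lit 13427579) [(nat_lit 550717), (nat_lit 2166229), (nat_lit 6309609)]) (PF.cons (PF.leaf (nat_lit 6608766) (nat_lit 562089) (nat_lit 41971638) (nat_lit 13352937) [(nat_lit 562089), (nat_lit 2179401), (nat_lit 6301253)]) (PF.cons (PF.leaf (nat_lit 6948115) (nat_lit 572107) (nat_lit 41445830) (nat_lit 13274387) [(nat_lit 572107), (nat_lit 2190902), (nat_lit 6290465)]) (PF.cons (PF.leaf (nat_lit 7294809) (nat_lit 580951) (nat_lit 40913932)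 (nat_lit 13192287) [(nat_lit 580951), (nat_lit 2200754), (nat_lit 6277279)]) (PF.cons (PF.leaf (nat_lit 7647367) (nat_lit 588757) (nat_lit 40378295) (nat_lit 13106965) [(nat_lit 588757), (nat_lit 2209002),
 (nat_lit 6261760)]) (PF.cons (PF.leaf (nat_lit 8004536) (nat_lit 595636) (nat_lit 39840858) (nat_lit 13018722) [(nat_lit 595636), (nat_lit 2215709), (nat_lit 6243990)]) (PF.cons (PF.leaf (nat_lit 8365236) (nat_lit 601681) (nat_lit 39303241) (nat_lit 12927845) [(nat_lit 601681), (nat_lit 2220943), (nat_lit 6224070)]) (PF.cons (PF.leaf (nat_lit 8728514) (nat_lit 606966) (nat_lit 38766811) (nat_lit 12834604) [(nat_lit 606966), (nat_lit 2224778), (nat_lit 6202108)]) (PF.cons PF.nil (PF.cons PF.nil (PF.cons PF.nil PF.nil)))))))))))) (PF.cons (PF.cons (PF.leaf (nat_lit 6839673) (nat_lit 2184157) (nat_lit 41075437) (nat_lit 13209872) [(nat_lit 0), (nat_lit 2184157), (nat_lit 6271031)]) (PF.cons (PF.leaf (nat_lit 7170711) (nat_lit 573631) (nat_lit 40567330) (nat_lit 13129914)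 [(nat_lit 573631), (nat_lit 2193515), (nat_lit 6257390)]) (PF.cons (PF.leaf (nat_lit 7509835) (nat_lit 582037) (nat_lit 40052523) (nat_lit 13046490) [(nat_lit 582037), (nat_lit 2201398), (nat_lit 6241527)]) (PF.cons (PF.leaf (nat_lit 7855116) (nat_lit 589401) (nat_lit 39533610) (nat_lit 12959973) [(nat_lit 589401), (nat_lit 2207837), (nat_lit 6223512)]) (PF.cons (PF.leaf (nat_lit 8205212) (nat_lit 595845) (nat_lit
 39012666) (nat_lit 12870696) [(nat_lit 595845), (nat_lit 2212878), (nat_lit 6203431)]) (PF.cons (PF.leaf (nat_lit 8558977) (nat_lit 601469) (nat_lit 38491385) (nat_lit 12778960) [(nat_lit 601469), (nat_lit 2216579), (nat_lit 6181382)]) (PF.cons (PF.leaf (nat_lit 8915415) (nat_lit 606351) (nat_lit 37971168) (nat_lit 12685044) [(nat_lit 606351), (nat_lit 2219005), (nat_lit 6157472)]) (PF.cons (PF.leaf (nat_lit 9273717) (nat_lit 610562) (nat_lit 37453188) (nat_lit 12589206) [(nat_lit 610562), (nat_lit 2220223), (nat_lit 6131811)]) (PF.cons PF.nil (PF.cons PF.nil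 PF.nil)))))))))) (PF.cons (PF.cons (PF.leaf (nat_lit 7720667) (nat_lit 2199806) (nat_lit 39209752) (nat_lit 12897782) [(nat_lit 0), (nat_lit 2199806), (nat_lit 6202051)]) (PF.cons (PF.leaf (nat_lit 8057949) (nat_lit 589245) (nat_lit 38708448) (nat_lit 12810638) [(nat_lit 589245), (nat_lit 2204637), (nat_lit 6181929)]) (PF.cons (PF.leaf (nat_lit 8400661) (nat_lit 595341) (nat_lit 38204604) (nat_lit 12720831) [(nat_lit 595341), (nat_lit 2208199), (nat_lit 6159894)]) (PF.cons (PF.leaf (nat_lit 8747286) (nat_lit 600617) (nat_lit 37700058) (nat_lit 12628690) [(nat_lit 600617), (nat_lit 2210540), (nat_lit 6136048)]) (PF.cons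
 (PF.leaf (nat_lit 9096775) (nat_lit 605162) (nat_lit 37196295) (nat_lit 12534509) [(nat_lit 605162), (nat_lit 2211715), (nat_lit 6110495)]) (PF.cons (PF.leaf (nat_lit 9448270) (nat_lit 609048) (nat_lit 36694532) (nat_lit 12438553) [(nat_lit 609048), (nat_lit 2211784), (nat_lit 6083344)]) (PF.cons PF.nil (PF.cons PF.nil PF.nil)))))))) (PF.cons (PF.cons (PF.leaf (nat_lit 8591840) (nat_lit 2201872) (nat_lit 37416170) (nat_lit 12569531) [(nat_lit 0), (nat_lit 2201872), (nat_lit 6113746)]) (PF.cons (PF.leaf (nat_lit 8930811) (nat_lit 599170) (nat_lit 36928766) (nat_lit 12477420) [(nat_lit 599170), (nat_lit 2203009), (nat_lit 6088410)]) (PF.cons (PF.leaf (nat_lit 9273190) (nat_lit 603441) (nat_lit 36441684) (nat_lit 12383360) [(nat_lit 603441), (nat_lit 2203077), (nat_lit 6061497)]) (PF.cons (PF.leaf (nat_lit 9617788) (nat_lit 607058) (nat_lit 35956232) (nat_lit 12287632) [(nat_lit 607058), (nat_lit 2202131), (nat_lit 6033114)]) (PF.cons PF.nil (PF.cons PF.nil PF.nil))))))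 (PF.cons (PF.cons (PF.leaf (nat_lit 9445499) (nat_lit 2193240) (nat_lit 35706716) (nat_lit 12231896) [(nat_lit 0), (nat_lit 2193240), (nat_lit 6010755)]) (PF.cons (PF.leaf (nat_lit 9782820) (nat_lit 604625) (nat_lit
 35237678) (nat_lit 12136723) [(nat_lit 604625), (nat_lit 2191400), (nat_lit 5981382)]) (PF.cons PF.nil (PF.cons PF.nil PF.nil)))) (PF.cons (PF.cons (PF.leaf (nat_lit 10276506) (nat_lit 2176274) (nat_lit 34087386) (nat_lit 11890447) [(nat_lit 0), (nat_lit 2176274), (nat_lit 5897059)]) (PF.cons PF.nil PF.nil)) (PF.cons PF.nil (PF.cons PF.nil PF.nil)))))))))) (PF.cons (PF.cons (PF.cons (PF.leaf (nat_lit 5934008) (nat_lit 6214119) (nat_lit 41463431) (nat_lit 13217141) [(nat_lit 0), (nat_lit 0), (nat_lit 6214119)]) (PF.cons (PF.leaf (nat_lit 6226789) (nat_lit 526648) (nat_lit 41018002) (nat_lit 13150502) [(nat_lit 526648), (nat_lit 0), (nat_lit 6206829)]) (PF.cons (PF.leaf (nat_lit 6534305) (nat_lit 540016) (nat_lit 40554877) (nat_lit 13079207) [(nat_lit 540016),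 (nat_lit 0), (nat_lit 6197347)]) (PF.cons (PF.leaf (nat_lit 6853233) (nat_lit 551575) (nat_lit 40078932) (nat_lit 13003836) [(nat_lit 551575), (nat_lit 0), (nat_lit 6185659)]) (PF.cons (PF.leaf (nat_lit 7181276) (nat_lit 561638) (nat_lit 39593831) (nat_lit 12924849) [(nat_lit 561638), (nat_lit 0), (nat_lit 6171789)]) (PF.cons (PF.leaf (nat_lit 7516633) (nat_lit 570431) (nat_lit 39102436) (nat_lit 12842637) [(nat_lit 570431),
 (nat_lit 0), (nat_lit 6155790)]) (PF.cons (PF.leaf (nat_lit 7857825) (nat_lit 578125) (nat_lit 38607050) (nat_lit 12757542) [(nat_lit 578125), (nat_lit 0), (nat_lit 6137734)]) (PF.cons (PF.leaf (nat_lit 8203600) (nat_lit 584852) (nat_lit 38109558) (nat_lit 12669872) [(nat_lit 584852), (nat_lit 0), (nat_lit 6117706)]) (PF.cons (PF.leaf (nat_lit 8552889) (nat_lit 590720) (nat_lit 37611527) (nat_lit 12579911) [(nat_lit 590720), (nat_lit 0), (nat_lit 6095804)]) (PF.cons (PF.leaf (nat_lit 8904793) (nat_lit 595818) (nat_lit 37114267) (nat_lit 12487918)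 [(nat_lit 595818), (nat_lit 0), (nat_lit 6072130)]) (PF.cons PF.nil (PF.cons PF.nil PF.nil)))))))))))) (PF.cons (PF.cons (PF.leaf (nat_lit 6762938) (nat_lit 2140495) (nat_lit 39703223) (nat_lit 12935645) [(nat_lit 0), (nat_lit 2140495), (nat_lit 6164723)]) (PF.cons (PF.leaf (nat_lit 7072796) (nat_lit 552774) (nat_lit 39244925) (nat_lit 12859644) [(nat_lit 552774), (nat_lit 2150139), (nat_lit 6150664)]) (PF.cons (PF.leaf (nat_lit 7392890) (nat_lit 562483) (nat_lit 38776450) (nat_lit 12779982) [(nat_lit 562483), (nat_lit 2158326), (nat_lit 6134543)]) (PF.cons (PF.leaf (nat_lit 7720821) (nat_lit 570895) (nat_lit 38301065) (nat_lit 12697128)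
 [(nat_lit 570895), (nat_lit 2165077), (nat_lit 6116427)]) (PF.cons (PF.leaf (nat_lit 8054932) (nat_lit 578201) (nat_lit 37821300) (nat_lit 12611473) [(nat_lit 578201), (nat_lit 2170437), (nat_lit 6096398)]) (PF.cons (PF.leaf (nat_lit 8393865) (nat_lit 584545) (nat_lit 37339172) (nat_lit 12523355) [(nat_lit 584545), (nat_lit 2174463), (nat_lit 6074546)]) (PF.cons (PF.leaf (nat_lit 8736485) (nat_lit 590043) (nat_lit 36856318) (nat_lit 12433073) [(nat_lit 590043), (nat_lit 2177223), (nat_lit 6050968)]) (PF.cons (PF.leaf (nat_lit 9081848) (nat_lit 594786) (nat_lit 36374088) (nat_lit 12340899) [(nat_lit 594786), (nat_lit 2178784), (nat_lit 6025766)]) (PF.cons PF.nil (PF.cons PF.nil PF.nil)))))))))) (PF.cons (PF.cons (PF.leaf (nat_lit 7601635) (nat_lit 2156530) (nat_lit 37975282) (nat_lit 12632580) [(nat_lit 0), (nat_lit 2156530), (nat_lit 6093944)]) (PF.cons (PF.leaf (nat_lit 7921191) (nat_lit 570527) (nat_lit 37517035) (nat_lit 12549642) [(nat_lit 570527), (nat_lit 2161726),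 (nat_lit 6074077)]) (PF.cons (PF.leaf (nat_lit 8247772) (nat_lit 577548) (nat_lit 37053662) (nat_lit 12463909) [(nat_lit 577548), (nat_lit 2165665), (nat_lit 6052407)]) (PF.cons (PF.leaf (nat_lit 8579563) (nat_lit
 583595) (nat_lit 36587413) (nat_lit 12375766) [(nat_lit 583595), (nat_lit 2168390), (nat_lit 6029033)]) (PF.cons (PF.leaf (nat_lit 8915319) (nat_lit 588793) (nat_lit 36120064) (nat_lit 12285541) [(nat_lit 588793), (nat_lit 2169958), (nat_lit 6004058)]) (PF.cons (PF.leaf (nat_lit 9254033) (nat_lit 593243) (nat_lit 35653046) (nat_lit 12193523) [(nat_lit 593243), (nat_lit 2170428), (nat_lit 5977583)]) (PF.cons (PF.leaf (nat_lit 9594805) (nat_lit 597028) (nat_lit 35187531) (nat_lit 12099967) [(nat_lit 597028), (nat_lit 2169862), (nat_lit 5949710)]) (PF.cons PF.nil PF.nil)))))))) (PF.cons (PF.cons (PF.leaf (nat_lit 8437386) (nat_lit 2159332) (nat_lit 36303533) (nat_lit 12315151) [(nat_lit 0), (nat_lit 2159332), (nat_lit 6006065)]) (PF.cons (PF.leaf (nat_lit 8761366)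 (nat_lit 582034) (nat_lit 35853732) (nat_lit 12227404) [(nat_lit 582034), (nat_lit 2160908), (nat_lit 5981458)]) (PF.cons (PF.leaf (nat_lit 9089998) (nat_lit 587006) (nat_lit 35402235) (nat_lit 12137601) [(nat_lit 587006), (nat_lit 2161422), (nat_lit 5955347)]) (PF.cons (PF.leaf (nat_lit 9421890) (nat_lit 591224) (nat_lit 34950616) (nat_lit 12046059) [(nat_lit 591224), (nat_lit 2160928), (nat_lit 5927837)]) (PF.cons
 (PF.leaf (nat_lit 9756093) (nat_lit 594779) (nat_lit 34500132) (nat_lit 11953051) [(nat_lit 594779), (nat_lit 2159481), (nat_lit 5899033)]) (PF.cons PF.nil PF.nil)))))) (PF.cons (PF.cons (PF.leaf (nat_lit 9261404) (nat_lit 2151754) (nat_lit 34702176) (nat_lit 11989479) [(nat_lit 0), (nat_lit 2151754), (nat_lit 5905069)]) (PF.cons (PF.leaf (nat_lit 9585981) (nat_lit 588755) (nat_lit 34266177) (nat_lit 11898728) [(nat_lit 588755), (nat_lit 2150413), (nat_lit 5876749)]) (PF.cons (PF.leaf (nat_lit 9913467) (nat_lit 592133) (nat_lit 33830806) (nat_lit 11806539)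 [(nat_lit 592133), (nat_lit 2148191), (nat_lit 5847216)]) (PF.cons PF.nil PF.nil)))) (PF.cons (PF.cons (PF.leaf (nat_lit 10067709) (nat_lit 2136093) (nat_lit 33178877) (nat_lit 11660591) [(nat_lit 0), (nat_lit 2136093), (nat_lit 5794438)]) (PF.cons (PF.leaf (nat_lit 10390138) (nat_lit 591765) (nat_lit 32759947) (nat_lit 11568319) [(nat_lit 591765), (nat_lit 2132426), (nat_lit 5763325)]) PF.nil)) (PF.cons PF.nil (PF.cons PF.nil PF.nil)))))))) (PF.cons (PF.cons (PF.cons (PF.leaf (nat_lit 7496678) (nat_lit 5985214) (nat_lit 36784005) (nat_lit 12369164) [(nat_lit 0), (nat_lit 0), (nat_lit 5985214)]) (PF.cons (PF.leaf (nat_lit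
 7796968) (nat_lit 549714) (nat_lit 36369528) (nat_lit 12291346) [(nat_lit 549714), (nat_lit 0), (nat_lit 5966074)]) (PF.cons (PF.leaf (nat_lit 8106401) (nat_lit 558101) (nat_lit 35946691) (nat_lit 12210407) [(nat_lit 558101), (nat_lit 0), (nat_lit 5945170)]) (PF.cons (PF.leaf (nat_lit 8422677) (nat_lit 565253) (nat_lit 35518378) (nat_lit 12126835) [(nat_lit 565253), (nat_lit 0), (nat_lit 5922612)]) (PF.cons (PF.leaf (nat_lit 8744254) (nat_lit 571366) (nat_lit 35086793) (nat_lit 12041026) [(nat_lit 571366), (nat_lit 0), (nat_lit 5898508)]) (PF.cons (PF.leaf (nat_lit 9069897) (nat_lit 576589) (nat_lit 34653672) (nat_lit 11953310) [(nat_lit 576589), (nat_lit 0), (nat_lit 5872961)]) (PF.cons (PF.leaf (nat_lit 9398553) (nat_lit 581035) (nat_lit 34220409) (nat_lit 11863974) [(nat_lit 581035), (nat_lit 0), (nat_lit 5846071)]) (PF.cons (PF.leaf (nat_lit 9729403) (nat_lit 584798) (nat_lit 33788143) (nat_lit 11773266) [(nat_lit 584798), (nat_lit 0), (nat_lit 5817937)]) (PF.cons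 PF.nil (PF.cons PF.nil PF.nil)))))))))) (PF.cons (PF.cons (PF.leaf (nat_lit 8295918) (nat_lit 2115880) (nat_lit 35231993) (nat_lit 12064324) [(nat_lit 0), (nat_lit 2115880), (nat_lit 5898871)]) (PF.cons (PF.leaf
 (nat_lit 8603955) (nat_lit 563582) (nat_lit 34819665) (nat_lit 11981501) [(nat_lit 563582), (nat_lit 2118126), (nat_lit 5875312)]) (PF.cons (PF.leaf (nat_lit 8918205) (nat_lit 569526) (nat_lit 34403269) (nat_lit 11896393) [(nat_lit 569526), (nat_lit 2119289), (nat_lit 5850269)]) (PF.cons (PF.leaf (nat_lit 9236953) (nat_lit 574558) (nat_lit 33984764) (nat_lit 11809376) [(nat_lit 574558), (nat_lit 2119423), (nat_lit 5823858)]) (PF.cons (PF.leaf (nat_lit 9559060) (nat_lit 578806) (nat_lit 33565680) (nat_lit 11720765) [(nat_lit 578806), (nat_lit 2118586), (nat_lit 5796185)]) (PF.cons (PF.leaf (nat_lit 9883589) (nat_lit 582370) (nat_lit 33147238) (nat_lit 11630829) [(nat_lit 582370), (nat_lit 2116839), (nat_lit 5767351)]) (PF.cons PF.nil (PF.cons PF.nil PF.nil))))))))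 (PF.cons (PF.cons (PF.leaf (nat_lit 9089751) (nat_lit 2109916) (nat_lit 33735594) (nat_lit 11751621) [(nat_lit 0), (nat_lit 2109916), (nat_lit 5800587)]) (PF.cons (PF.leaf (nat_lit 9400965) (nat_lit 572052) (nat_lit 33332089) (nat_lit 11665620) [(nat_lit 572052), (nat_lit 2109230), (nat_lit 5773529)]) (PF.cons (PF.leaf (nat_lit 9716278) (nat_lit 576164) (nat_lit 32927387) (nat_lit 11578003) [(nat_lit 576164), (nat_lit
 2107645), (nat_lit 5745267)]) (PF.cons (PF.leaf (nat_lit 10034351) (nat_lit 579581) (nat_lit 32522844) (nat_lit 11489067) [(nat_lit 579581), (nat_lit 2105216), (nat_lit 5715907)]) (PF.cons PF.nil (PF.cons PF.nil PF.nil)))))) (PF.cons (PF.cons (PF.leaf (nat_lit 9871045) (nat_lit 2095926) (nat_lit 32304838) (nat_lit 11435799) [(nat_lit 0), (nat_lit 2095926), (nat_lit 5693464)]) (PF.cons (PF.leaf (nat_lit 10182186) (nat_lit 576447) (nat_lit 31914318) (nat_lit 11348093) [(nat_lit 576447), (nat_lit 2092905), (nat_lit 5663746)]) (PF.cons (PF.leaf (nat_lit 10495852)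 (nat_lit 579151) (nat_lit 31524522) (nat_lit 11259308) [(nat_lit 579151), (nat_lit 2089146), (nat_lit 5633079)]) (PF.cons PF.nil PF.nil)))) (PF.cons (PF.cons (PF.leaf (nat_lit 10635021) (nat_lit 2075756) (nat_lit 30944728) (nat_lit 11120608) [(nat_lit 0), (nat_lit 2075756), (nat_lit 5580149)]) (PF.cons PF.nil PF.nil)) (PF.cons PF.nil PF.nil)))))) (PF.cons (PF.cons (PF.cons (PF.leaf (nat_lit 8932181) (nat_lit 5697177) (nat_lit 32802332) (nat_lit 11517771) [(nat_lit 0), (nat_lit 0), (nat_lit 5697177)]) (PF.cons (PF.leaf (nat_lit 9228999) (nat_lit 554185) (nat_lit 32431298) (nat_lit 11436922) [(nat_lit 554185), (nat_lit 0),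
 (nat_lit 5671601)]) (PF.cons (PF.leaf (nat_lit 9531416) (nat_lit 559279) (nat_lit 32056926) (nat_lit 11354172) [(nat_lit 559279), (nat_lit 0), (nat_lit 5644788)]) (PF.cons (PF.leaf (nat_lit 9837780) (nat_lit 563520) (nat_lit 31680928) (nat_lit 11269884) [(nat_lit 563520), (nat_lit 0), (nat_lit 5616859)]) (PF.cons (PF.leaf (nat_lit 10147055) (nat_lit 567035) (nat_lit 31304634) (nat_lit 11184353) [(nat_lit 567035), (nat_lit 0), (nat_lit 5587920)]) (PF.cons PF.nil PF.nil)))))) (PF.cons (PF.cons (PF.leaf (nat_lit 9687549) (nat_lit 2055628) (nat_lit 31461611) (nat_lit 11215587) [(nat_lit 0), (nat_lit 2055628), (nat_lit 5593996)]) (PF.cons (PF.leaf (nat_lit 9986711) (nat_lit 560390) (nat_lit 31099121) (nat_lit 11132671) [(nat_lit 560390), (nat_lit 2053374), (nat_lit 5565813)]) (PF.cons (PF.leaf (nat_lit 10289528) (nat_lit 563836) (nat_lit 30735726) (nat_lit 11048459) [(nat_lit 563836), (nat_lit 2050351), (nat_lit 5536650)]) (PF.cons PF.nil PF.nil)))) (PF.cons (PF.cons (PF.leaf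 (nat_lit 10430234) (nat_lit 2037446) (nat_lit 30180613) (nat_lit 10913539) [(nat_lit 0), (nat_lit 2037446), (nat_lit 5484942)]) (PF.cons (PF.leaf (nat_lit 10728887) (nat_lit 563083) (nat_lit 29829986) (nat_lit
 10829773) [(nat_lit 563083), (nat_lit 2033297), (nat_lit 5454843)]) PF.nil)) (PF.cons PF.nil PF.nil)))) (PF.cons (PF.cons (PF.cons (PF.leaf (nat_lit 10238862) (nat_lit 5391307) (nat_lit 29441503) (nat_lit 10710771) [(nat_lit 0), (nat_lit 0), (nat_lit 5391307)]) (PF.cons (PF.leaf (nat_lit 10526695) (nat_lit 547780) (nat_lit 29115084) (nat_lit 10631644) [(nat_lit 547780), (nat_lit 0), (nat_lit 5362860)]) (PF.cons (PF.leaf (nat_lit 10817888) (nat_lit 550702) (nat_lit 28787932) (nat_lit 10551457) [(nat_lit 550702), (nat_lit 0), (nat_lit 5333603)]) (PF.cons PF.nil PF.nil)))) (PF.cons (PF.cons (PF.leaf (nat_lit 10946615) (nat_lit 1978276) (nat_lit 28291300) (nat_lit 10424362) [(nat_lit 0), (nat_lit 1978276), (nat_lit 5282974)]) (PF.cons PF.nil PF.nil)) PF.nil)) (PF.cons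 PF.nil (PF.cons PF.nil (PF.cons PF.nil (PF.cons PF.nil PF.nil))))))))))

def p15_35_2_0 : pfC (piC [(nat_lit 37297016), (nat_lit 23751559), (nat_lit 15232604)] (nat_lit 7031977)) p15_35_2 (nat_lit 3) (nat_lit 0) (nat_lit 1) = true := by decide +kernel
def p15_35_2_1 : pfC (piC [(nat_lit 37297016), (nat_lit 23751559), (nat_lit 15232604)] (nat_lit 7031977)) p15_35_2 (nat_lit 3) (nat_lit 1) (nat_lit 2) = true := by decide +kernel
def p15_35_2_2 : pfC (piC [(nat_lit 37297016), (nat_lit 23751559), (nat_lit 15232604)] (nat_lit 7031977)) p15_35_2 (nat_lit 3) (nat_lit 2) (nat_lit 3) = true := by decide +kernel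
def p15_35_2_3 : pfC (piC [(nat_lit 37297016), (nat_lit 23751559), (nat_lit 15232604)] (nat_lit 7031977)) p15_35_2 (nat_lit 3) (nat_lit 3) (nat_lit 4) = true := by decide +kernel
def p15_35_2_4 : pfC (piC [(nat_lit 37297016), (nat_lit 23751559), (nat_lit 15232604)] (nat_lit 7031977)) p15_35_2 (nat_lit 3) (nat_lit 4) (nat_lit 5) = true := by decide +kernel
def p15_35_2_5 : pfC (piC [(nat_lit 37297016), (nat_lit 23751559), (nat_lit 15232604)] (nat_lit 7031977)) p15_35_2 (nat_lit 3) (nat_lit 5) (nat_lit 6) = true := by decide +kernel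
def p15_35_2_6 : pfC (piC [(nat_lit 37297016), (nat_lit 23751559), (nat_lit 15232604)] (nat_lit 7031977)) p15_35_2 (nat_lit 3) (nat_lit 6) (nat_lit 7) = true := by decide +kernel
def p15_35_2_7 : pfC (piC [(nat_lit 37297016), (nat_lit 23751559), (nat_lit 15232604)] (nat_lit 7031977)) p15_35_2 (nat_lit 3) (nat_lit 7) (nat_lit 8) = true := by decide +kernel
def p15_35_2_8 : pfC (piC [(nat_lit 37297016), (nat_lit 23751559), (nat_lit 15232604)] (nat_lit 7031977)) p15_35_2 (nat_lit 3) (nat_lit 8) (nat_lit 9) = true := by decide +kernel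
def p15_35_2_9 : pfC (piC [(nat_lit 37297016), (nat_lit 23751559), (nat_lit 15232604)] (nat_lit 7031977)) p15_35_2 (nat_lit 3) (nat_lit 9) (nat_lit 10) = true := by decide +kernel
def p15_35_2_10 : pfC (piC [(nat_lit 37297016), (nat_lit 23751559), (nat_lit 15232604)] (nat_lit 7031977)) p15_35_2 (nat_lit 3) (nat_lit 10) (nat_lit 11) = true := by decide +kernel
def p15_35_2_11 : pfC (piC [(nat_lit 37297016), (nat_lit 23751559), (nat_lit 15232604)] (nat_lit 7031977)) p15_35_2 (nat_lit 3) (nat_lit 11) (nat_lit 12) = true := by decide +kernel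
def p15_35_2_12 : pfC (piC [(nat_lit 37297016), (nat_lit 23751559), (nat_lit 15232604)] (nat_lit 7031977)) p15_35_2 (nat_lit 3) (nat_lit 12) (nat_lit 13) = true := by decide +kernel
def p15_35_2_13 : pfC (piC [(nat_lit 37297016), (nat_lit 23751559), (nat_lit 15232604)] (nat_lit 7031977)) p15_35_2 (nat_lit 3) (nat_lit 13) (nat_lit 14) = true := by decide +kernel
def p15_35_2_14 : pfC (piC [(nat_lit 37297016), (nat_lit 23751559), (nat_lit 15232604)] (nat_lit 7031977)) p15_35_2 (nat_lit 3) (nat_lit 14) (nat_lit 15) = true := by decide +kernel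
def p15_35_2_15 : pfC (piC [(nat_lit 37297016), (nat_lit 23751559), (nat_lit 15232604)] (nat_lit 7031977)) p15_35_2 (nat_lit 3) (nat_lit 15) (nat_lit 16) = true := by decide +kernel
def p15_35_2_16 : pfC (piC [(nat_lit 37297016), (nat_lit 23751559), (nat_lit 15232604)] (nat_lit 7031977)) p15_35_2 (nat_lit 3) (nat_lit 16) (nat_lit 17) = true := by decide +kernel
def p15_35_2_17 : pfC (piC [(nat_lit 37297016), (nat_lit 23751559), (nat_lit 15232604)] (nat_lit 7031977)) p15_35_2 (nat_lit 3) (nat_lit 17) (nat_lit 18) = true := by decide +kernel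
def p15_35_2_18 : pfC (piC [(nat_lit 37297016), (nat_lit 23751559), (nat_lit 15232604)] (nat_lit 7031977)) p15_35_2 (nat_lit 3) (nat_lit 18) (nat_lit 19) = true := by decide +kernel
def p15_35_2_19 : pfC (piC [(nat_lit 37297016), (nat_lit 23751559), (nat_lit 15232604)] (nat_lit 7031977)) p15_35_2 (nat_lit 3) (nat_lit 19) (nat_lit 20) = true := by decide +kernel
def p15_35_2_20 : pfC (piC [(nat_lit 37297016), (nat_lit 23751559), (nat_lit 15232604)] (nat_lit 7031977)) p15_35_2 (nat_lit 3) (nat_lit 20) (nat_lit 21) = true := by decide +kernel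
def p15_35_2_21 : pfC (piC [(nat_lit 37297016), (nat_lit 23751559), (nat_lit 15232604)] (nat_lit 7031977)) p15_35_2 (nat_lit 3) (nat_lit 21) (nat_lit 22) = true := by decide +kernel
def p15_35_2_22 : pfC (piC [(nat_lit 37297016), (nat_lit 23751559), (nat_lit 15232604)] (nat_lit 7031977)) p15_35_2 (nat_lit 3) (nat_lit 22) (nat_lit 23) = true := by decide +kernel
def p15_35_2_23 : pfC (piC [(nat_lit 37297016), (nat_lit 23751559), (nat_lit 15232604)] (nat_lit 7031977)) p15_35_2 (nat_lit 3) (nat_lit 23) (nat_lit 24) = true := by decide +kernel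
def p15_35_2_24 : pfC (piC [(nat_lit 37297016), (nat_lit 23751559), (nat_lit 15232604)] (nat_lit 7031977)) p15_35_2 (nat_lit 3) (nat_lit 24) (nat_lit 25) = true := by decide +kernel
def p15_35_2_25 : pfC (piC [(nat_lit 37297016), (nat_lit 23751559), (nat_lit 15232604)] (nat_lit 7031977)) p15_35_2 (nat_lit 3) (nat_lit 25) (nat_lit 26) = true := by decide +kernel
def p15_35_2_26 : pfC (piC [(nat_lit 37297016), (nat_lit 23751559), (nat_lit 15232604)] (nat_lit 7031977)) p15_35_2 (nat_lit 3) (nat_lit 26) (nat_lit 27) = true := by decide +kernel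
def p15_35_2_27 : pfC (piC [(nat_lit 37297016), (nat_lit 23751559), (nat_lit 15232604)] (nat_lit 7031977)) p15_35_2 (nat_lit 3) (nat_lit 27) (nat_lit 28) = true := by decide +kernel
def p15_35_2_28 : pfC (piC [(nat_lit 37297016), (nat_lit 23751559), (nat_lit 15232604)] (nat_lit 7031977)) p15_35_2 (nat_lit 3) (nat_lit 28) (nat_lit 29) = true := by decide +kernel
def p15_35_2_29 : pfC (piC [(nat_lit 37297016), (nat_lit 23751559), (nat_lit 15232604)] (nat_lit 7031977)) p15_35_2 (nat_lit 3) (nat_lit 29) (nat_lit 30) = true := by decide +kernel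
def p15_35_2_30 : pfC (piC [(nat_lit 37297016), (nat_lit 23751559), (nat_lit 15232604)] (nat_lit 7031977)) p15_35_2 (nat_lit 3) (nat_lit 30) (nat_lit 31) = true := by decide +kernel
def p15_35_2_31 : pfC (piC [(nat_lit 37297016), (nat_lit 23751559), (nat_lit 15232604)] (nat_lit 7031977)) p15_35_2 (nat_lit 3) (nat_lit 31) (nat_lit 32) = true := by decide +kernel
def p15_35_2_32 : pfC (piC [(nat_lit 37297016), (nat_lit 23751559), (nat_lit 15232604)] (nat_lit 7031977)) p15_35_2 (nat_lit 3) (nat_lit 32) (nat_lit 33) = true := by decide +kernel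
def p15_35_2_33 : pfC (piC [(nat_lit 37297016), (nat_lit 23751559), (nat_lit 15232604)] (nat_lit 7031977)) p15_35_2 (nat_lit 3) (nat_lit 33) (nat_lit 34) = true := by decide +kernel
def p15_35_2_34 : pfC (piC [(nat_lit 37297016), (nat_lit 23751559), (nat_lit 15232604)] (nat_lit 7031977)) p15_35_2 (nat_lit 3) (nat_lit 34) (nat_lit 35) = true := by decide +kernel
def p15_35_2_35 : pfC (piC [(nat_lit 37297016), (nat_lit 23751559), (nat_lit 15232604)] (nat_lit 7031977)) p15_35_2 (nat_lit 3) (nat_lit 35) (nat_lit 36) = true := by decide +kernel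
def p15_35_2_36 : pfC (piC [(nat_lit 37297016), (nat_lit 23751559), (nat_lit 15232604)] (nat_lit 7031977)) p15_35_2 (nat_lit 3) (nat_lit 36) (nat_lit 37) = true := by decide +kernel
def p15_35_2_37 : pfC (piC [(nat_lit 37297016), (nat_lit 23751559), (nat_lit 15232604)] (nat_lit 7031977)) p15_35_2 (nat_lit 3) (nat_lit 37) (nat_lit 38) = true := by decide +kernel
def p15_35_2_38 : pfC (piC [(nat_lit 37297016), (nat_lit 23751559), (nat_lit 15232604)] (nat_lit 7031977)) p15_35_2 (nat_lit 3) (nat_lit 38) (nat_lit 39) = true := by decide +kernel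
def p15_35_2_39 : pfC (piC [(nat_lit 37297016), (nat_lit 23751559), (nat_lit 15232604)] (nat_lit 7031977)) p15_35_2 (nat_lit 3) (nat_lit 39) (nat_lit 40) = true := by decide +kernel
def p15_35_2_40 : pfC (piC [(nat_lit 37297016), (nat_lit 23751559), (nat_lit 15232604)] (nat_lit 7031977)) p15_35_2 (nat_lit 3) (nat_lit 40) (nat_lit 41) = true := by decide +kernel
def p15_35_2_41 : pfC (piC [(nat_lit 37297016), (nat_lit 23751559), (nat_lit 15232604)] (nat_lit 7031977)) p15_35_2 (nat_lit 3) (nat_lit 41) (nat_lit 42) = true := by decide +kernel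
def p15_35_2_42 : pfC (piC [(nat_lit 37297016), (nat_lit 23751559), (nat_lit 15232604)] (nat_lit 7031977)) p15_35_2 (nat_lit 3) (nat_lit 42) (nat_lit 43) = true := by decide +kernel
def p15_35_2_43 : pfC (piC [(nat_lit 37297016), (nat_lit 23751559), (nat_lit 15232604)] (nat_lit 7031977)) p15_35_2 (nat_lit 3) (nat_lit 43) (nat_lit 44) = true := by decide +kernel
def p15_35_2_44 : pfC (piC [(nat_lit 37297016), (nat_lit 23751559), (nat_lit 15232604)] (nat_lit 7031977)) p15_35_2 (nat_lit 3) (nat_lit 44) (nat_lit 45) = true := by decide +kernel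
def p15_35_2_45 : pfC (piC [(nat_lit 37297016), (nat_lit 23751559), (nat_lit 15232604)] (nat_lit 7031977)) p15_35_2 (nat_lit 3) (nat_lit 45) (nat_lit 46) = true := by decide +kernel
def p15_35_2_46 : pfC (piC [(nat_lit 37297016), (nat_lit 23751559), (nat_lit 15232604)] (nat_lit 7031977)) p15_35_2 (nat_lit 3) (nat_lit 46) (nat_lit 47) = true := by decide +kernel
def p15_35_2_47 : pfC (piC [(nat_lit 37297016), (nat_lit 23751559), (nat_lit 15232604)] (nat_lit 7031977)) p15_35_2 (nat_lit 3) (nat_lit 47) (nat_lit 48) = true := by decide +kernel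
def p15_35_2_48 : pfC (piC [(nat_lit 37297016), (nat_lit 23751559), (nat_lit 15232604)] (nat_lit 7031977)) p15_35_2 (nat_lit 3) (nat_lit 48) (nat_lit 49) = true := by decide +kernel
def p15_35_2_49 : pfC (piC [(nat_lit 37297016), (nat_lit 23751559), (nat_lit 15232604)] (nat_lit 7031977)) p15_35_2 (nat_lit 3) (nat_lit 49) (nat_lit 50) = true := by decide +kernel
def p15_35_2_50 : pfC (piC [(nat_lit 37297016), (nat_lit 23751559), (nat_lit 15232604)] (nat_lit 7031977)) p15_35_2 (nat_lit 3) (nat_lit 50) (nat_lit 51) = true := by decide +kernel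
def p15_35_2_51 : pfC (piC [(nat_lit 37297016), (nat_lit 23751559), (nat_lit 15232604)] (nat_lit 7031977)) p15_35_2 (nat_lit 3) (nat_lit 51) (nat_lit 52) = true := by decide +kernel
def p15_35_2_52 : pfC (piC [(nat_lit 37297016), (nat_lit 23751559), (nat_lit 15232604)] (nat_lit 7031977)) p15_35_2 (nat_lit 3) (nat_lit 52) (nat_lit 53) = true := by decide +kernel
def p15_35_2_53 : pfC (piC [(nat_lit 37297016), (nat_lit 23751559), (nat_lit 15232604)] (nat_lit 7031977)) p15_35_2 (nat_lit 3) (nat_lit 53) (nat_lit 54) = true := by decide +kernel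
def p15_35_2_54 : pfC (piC [(nat_lit 37297016), (nat_lit 23751559), (nat_lit 15232604)] (nat_lit 7031977)) p15_35_2 (nat_lit 3) (nat_lit 54) (nat_lit 55) = true := by decide +kernel
def p15_35_2_55 : pfC (piC [(nat_lit 37297016), (nat_lit 23751559), (nat_lit 15232604)] (nat_lit 7031977)) p15_35_2 (nat_lit 3) (nat_lit 55) (nat_lit 56) = true := by decide +kernel
def p15_35_2_56 : pfC (piC [(nat_lit 37297016), (nat_lit 23751559), (nat_lit 15232604)] (nat_lit 7031977)) p15_35_2 (nat_lit 3) (nat_lit 56) (nat_lit 57) = true := by decide +kernel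
def p15_35_2_57 : pfC (piC [(nat_lit 37297016), (nat_lit 23751559), (nat_lit 15232604)] (nat_lit 7031977)) p15_35_2 (nat_lit 3) (nat_lit 57) (nat_lit 58) = true := by decide +kernel
def p15_35_2_58 : pfC (piC [(nat_lit 37297016), (nat_lit 23751559), (nat_lit 15232604)] (nat_lit 7031977)) p15_35_2 (nat_lit 3) (nat_lit 58) (nat_lit 59) = true := by decide +kernel
def p15_35_2_59 : pfC (piC [(nat_lit 37297016), (nat_lit 23751559), (nat_lit 15232604)] (nat_lit 7031977)) p15_35_2 (nat_lit 3) (nat_lit 59) (nat_lit 60) = true := by decide +kernel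
def p15_35_2_60 : pfC (piC [(nat_lit 37297016), (nat_lit 23751559), (nat_lit 15232604)] (nat_lit 7031977)) p15_35_2 (nat_lit 3) (nat_lit 60) (nat_lit 61) = true := by decide +kernel
def p15_35_2_61 : pfC (piC [(nat_lit 37297016), (nat_lit 23751559), (nat_lit 15232604)] (nat_lit 7031977)) p15_35_2 (nat_lit 3) (nat_lit 61) (nat_lit 62) = true := by decide +kernel
def p15_35_2_62 : pfC (piC [(nat_lit 37297016), (nat_lit 23751559), (nat_lit 15232604)] (nat_lit 7031977)) p15_35_2 (nat_lit 3) (nat_lit 62) (nat_lit 63) = true := by decide +kernel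
def p15_35_2_63 : pfC (piC [(nat_lit 37297016), (nat_lit 23751559), (nat_lit 15232604)] (nat_lit 7031977)) p15_35_2 (nat_lit 3) (nat_lit 63) (nat_lit 64) = true := by decide +kernel
def p15_35_2_64 : pfC (piC [(nat_lit 37297016), (nat_lit 23751559), (nat_lit 15232604)] (nat_lit 7031977)) p15_35_2 (nat_lit 3) (nat_lit 64) (nat_lit 65) = true := by decide +kernel
def p15_35_2_65 : pfC (piC [(nat_lit 37297016), (nat_lit 23751559), (nat_lit 15232604)] (nat_lit 7031977)) p15_35_2 (nat_lit 3) (nat_lit 65) (nat_lit 66) = true := by decide +kernel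
def p15_35_2_66 : pfC (piC [(nat_lit 37297016), (nat_lit 23751559), (nat_lit 15232604)] (nat_lit 7031977)) p15_35_2 (nat_lit 3) (nat_lit 66) (nat_lit 67) = true := by decide +kernel
def p15_35_2_67 : pfC (piC [(nat_lit 37297016), (nat_lit 23751559), (nat_lit 15232604)] (nat_lit 7031977)) p15_35_2 (nat_lit 3) (nat_lit 67) (nat_lit 68) = true := by decide +kernel
def p15_35_2_68 : pfC (piC [(nat_lit 37297016), (nat_lit 23751559), (nat_lit 15232604)] (nat_lit 7031977)) p15_35_2 (nat_lit 3) (nat_lit 68) (nat_lit 69) = true := by decide +kernel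
def p15_35_2_69 : pfC (piC [(nat_lit 37297016), (nat_lit 23751559), (nat_lit 15232604)] (nat_lit 7031977)) p15_35_2 (nat_lit 3) (nat_lit 69) (nat_lit 70) = true := by decide +kernel
def p15_35_2_70 : pfC (piC [(nat_lit 37297016), (nat_lit 23751559), (nat_lit 15232604)] (nat_lit 7031977)) p15_35_2 (nat_lit 3) (nat_lit 70) (nat_lit 71) = true := by decide +kernel
def p15_35_2_71 : pfC (piC [(nat_lit 37297016), (nat_lit 23751559), (nat_lit 15232604)] (nat_lit 7031977)) p15_35_2 (nat_lit 3) (nat_lit 71) (nat_lit 72) = true := by decide +kernel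
def p15_35_2_72 : pfC (piC [(nat_lit 37297016), (nat_lit 23751559), (nat_lit 15232604)] (nat_lit 7031977)) p15_35_2 (nat_lit 3) (nat_lit 72) (nat_lit 73) = true := by decide +kernel
def p15_35_2_73 : pfC (piC [(nat_lit 37297016), (nat_lit 23751559), (nat_lit 15232604)] (nat_lit 7031977)) p15_35_2 (nat_lit 3) (nat_lit 73) (nat_lit 74) = true := by decide +kernel
def p15_35_2_74 : pfC (piC [(nat_lit 37297016), (nat_lit 23751559), (nat_lit 15232604)] (nat_lit 7031977)) p15_35_2 (nat_lit 3) (nat_lit 74) (nat_lit 75) = true := by decide +kernel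
def p15_35_2_75 : pfC (piC [(nat_lit 37297016), (nat_lit 23751559), (nat_lit 15232604)] (nat_lit 7031977)) p15_35_2 (nat_lit 3) (nat_lit 75) (nat_lit 76) = true := by decide +kernel
def p15_35_2_76 : pfC (piC [(nat_lit 37297016), (nat_lit 23751559), (nat_lit 15232604)] (nat_lit 7031977)) p15_35_2 (nat_lit 3) (nat_lit 76) (nat_lit 77) = true := by decide +kernel
def p15_35_2_77 : pfC (piC [(nat_lit 37297016), (nat_lit 23751559), (nat_lit 15232604)] (nat_lit 7031977)) p15_35_2 (nat_lit 3) (nat_lit 77) (nat_lit 78) = true := by decide +kernel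
def p15_35_2_78 : pfC (piC [(nat_lit 37297016), (nat_lit 23751559), (nat_lit 15232604)] (nat_lit 7031977)) p15_35_2 (nat_lit 3) (nat_lit 78) (nat_lit 79) = true := by decide +kernel
def p15_35_2_79 : pfC (piC [(nat_lit 37297016), (nat_lit 23751559), (nat_lit 15232604)] (nat_lit 7031977)) p15_35_2 (nat_lit 3) (nat_lit 79) (nat_lit 80) = true := by decide +kernel
def p15_35_2_80 : pfC (piC [(nat_lit 37297016), (nat_lit 23751559), (nat_lit 15232604)] (nat_lit 7031977)) p15_35_2 (nat_lit 3) (nat_lit 80) (nat_lit 81) = true := by decide +kernel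
def p15_35_2_81 : pfC (piC [(nat_lit 37297016), (nat_lit 23751559), (nat_lit 15232604)] (nat_lit 7031977)) p15_35_2 (nat_lit 3) (nat_lit 81) (nat_lit 82) = true := by decide +kernel
def p15_35_2_82 : pfC (piC [(nat_lit 37297016), (nat_lit 23751559), (nat_lit 15232604)] (nat_lit 7031977)) p15_35_2 (nat_lit 3) (nat_lit 82) (nat_lit 83) = true := by decide +kernel
def p15_35_2_83 : pfC (piC [(nat_lit 37297016), (nat_lit 23751559), (nat_lit 15232604)] (nat_lit 7031977)) p15_35_2 (nat_lit 3) (nat_lit 83) (nat_lit 84) = true := by decide +kernel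
def p15_35_2_84 : pfC (piC [(nat_lit 37297016), (nat_lit 23751559), (nat_lit 15232604)] (nat_lit 7031977)) p15_35_2 (nat_lit 3) (nat_lit 84) (nat_lit 85) = true := by decide +kernel
def p15_35_2_85 : pfC (piC [(nat_lit 37297016), (nat_lit 23751559), (nat_lit 15232604)] (nat_lit 7031977)) p15_35_2 (nat_lit 3) (nat_lit 85) (nat_lit 86) = true := by decide +kernel
def p15_35_2_86 : pfC (piC [(nat_lit 37297016), (nat_lit 23751559), (nat_lit 15232604)] (nat_lit 7031977)) p15_35_2 (nat_lit 3) (nat_lit 86) (nat_lit 87) = true := by decide +kernel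
def p15_35_2_87 : pfC (piC [(nat_lit 37297016), (nat_lit 23751559), (nat_lit 15232604)] (nat_lit 7031977)) p15_35_2 (nat_lit 3) (nat_lit 87) (nat_lit 88) = true := by decide +kernel
def p15_35_2_88 : pfC (piC [(nat_lit 37297016), (nat_lit 23751559), (nat_lit 15232604)] (nat_lit 7031977)) p15_35_2 (nat_lit 3) (nat_lit 88) (nat_lit 89) = true := by decide +kernel
def p15_35_2_89 : pfC (piC [(nat_lit 37297016), (nat_lit 23751559), (nat_lit 15232604)] (nat_lit 7031977)) p15_35_2 (nat_lit 3) (nat_lit 89) (nat_lit 90) = true := by decide +kernel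
def p15_35_2_90 : pfC (piC [(nat_lit 37297016), (nat_lit 23751559), (nat_lit 15232604)] (nat_lit 7031977)) p15_35_2 (nat_lit 3) (nat_lit 90) (nat_lit 91) = true := by decide +kernel
def p15_35_2_91 : pfC (piC [(nat_lit 37297016), (nat_lit 23751559), (nat_lit 15232604)] (nat_lit 7031977)) p15_35_2 (nat_lit 3) (nat_lit 91) (nat_lit 92) = true := by decide +kernel
def p15_35_2_92 : pfC (piC [(nat_lit 37297016), (nat_lit 23751559), (nat_lit 15232604)] (nat_lit 7031977)) p15_35_2 (nat_lit 3) (nat_lit 92) (nat_lit 93) = true := by decide +kernel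
def p15_35_2_93 : pfC (piC [(nat_lit 37297016), (nat_lit 23751559), (nat_lit 15232604)] (nat_lit 7031977)) p15_35_2 (nat_lit 3) (nat_lit 93) (nat_lit 94) = true := by decide +kernel
def p15_35_2_94 : pfC (piC [(nat_lit 37297016), (nat_lit 23751559), (nat_lit 15232604)] (nat_lit 7031977)) p15_35_2 (nat_lit 3) (nat_lit 94) (nat_lit 95) = true := by decide +kernel
def p15_35_2_95 : pfC (piC [(nat_lit 37297016), (nat_lit 23751559), (nat_lit 15232604)] (nat_lit 7031977)) p15_35_2 (nat_lit 3) (nat_lit 95) (nat_lit 96) = true := by decide +kernel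
def p15_35_2_96 : pfC (piC [(nat_lit 37297016), (nat_lit 23751559), (nat_lit 15232604)] (nat_lit 7031977)) p15_35_2 (nat_lit 3) (nat_lit 96) (nat_lit 97) = true := by decide +kernel
def p15_35_2_97 : pfC (piC [(nat_lit 37297016), (nat_lit 23751559), (nat_lit 15232604)] (nat_lit 7031977)) p15_35_2 (nat_lit 3) (nat_lit 97) (nat_lit 98) = true := by decide +kernel
def p15_35_2_98 : pfC (piC [(nat_lit 37297016), (nat_lit 23751559), (nat_lit 15232604)] (nat_lit 7031977)) p15_35_2 (nat_lit 3) (nat_lit 98) (nat_lit 99) = true := by decide +kernel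
def p15_35_2_99 : pfC (piC [(nat_lit 37297016), (nat_lit 23751559), (nat_lit 15232604)] (nat_lit 7031977)) p15_35_2 (nat_lit 3) (nat_lit 99) (nat_lit 100) = true := by decide +kernel
def p15_35_2_100 : pfC (piC [(nat_lit 37297016), (nat_lit 23751559), (nat_lit 15232604)] (nat_lit 7031977)) p15_35_2 (nat_lit 3) (nat_lit 100) (nat_lit 101) = true := by decide +kernel
def p15_35_2_101 : pfC (piC [(nat_lit 37297016), (nat_lit 23751559), (nat_lit 15232604)] (nat_lit 7031977)) p15_35_2 (nat_lit 3) (nat_lit 101) (nat_lit 102) = true := by decide +kernel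
def p15_35_2_102 : pfC (piC [(nat_lit 37297016), (nat_lit 23751559), (nat_lit 15232604)] (nat_lit 7031977)) p15_35_2 (nat_lit 3) (nat_lit 102) (nat_lit 103) = true := by decide +kernel
def p15_35_2_103 : pfC (piC [(nat_lit 37297016), (nat_lit 23751559), (nat_lit 15232604)] (nat_lit 7031977)) p15_35_2 (nat_lit 3) (nat_lit 103) (nat_lit 104) = true := by decide +kernel
def p15_35_2_104 : pfC (piC [(nat_lit 37297016), (nat_lit 23751559), (nat_lit 15232604)] (nat_lit 7031977)) p15_35_2 (nat_lit 3) (nat_lit 104) (nat_lit 105) = true := by decide +kernel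
def p15_35_2_105 : pfC (piC [(nat_lit 37297016), (nat_lit 23751559), (nat_lit 15232604)] (nat_lit 7031977)) p15_35_2 (nat_lit 3) (nat_lit 105) (nat_lit 106) = true := by decide +kernel
def p15_35_2_106 : pfC (piC [(nat_lit 37297016), (nat_lit 23751559), (nat_lit 15232604)] (nat_lit 7031977)) p15_35_2 (nat_lit 3) (nat_lit 106) (nat_lit 107) = true := by decide +kernel
def p15_35_2_107 : pfC (piC [(nat_lit 37297016), (nat_lit 23751559), (nat_lit 15232604)] (nat_lit 7031977)) p15_35_2 (nat_lit 3) (nat_lit 107) (nat_lit 108) = true := by decide +kernel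
def p15_35_2_108 : pfC (piC [(nat_lit 37297016), (nat_lit 23751559), (nat_lit 15232604)] (nat_lit 7031977)) p15_35_2 (nat_lit 3) (nat_lit 108) (nat_lit 109) = true := by decide +kernel
def p15_35_2_109 : pfC (piC [(nat_lit 37297016), (nat_lit 23751559), (nat_lit 15232604)] (nat_lit 7031977)) p15_35_2 (nat_lit 3) (nat_lit 109) (nat_lit 110) = true := by decide +kernel
def p15_35_2_110 : pfC (piC [(nat_lit 37297016), (nat_lit 23751559), (nat_lit 15232604)] (nat_lit 7031977)) p15_35_2 (nat_lit 3) (nat_lit 110) (nat_lit 111) = true := by decide +kernel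
def p15_35_2_111 : pfC (piC [(nat_lit 37297016), (nat_lit 23751559), (nat_lit 15232604)] (nat_lit 7031977)) p15_35_2 (nat_lit 3) (nat_lit 111) (nat_lit 112) = true := by decide +kernel
def p15_35_2_112 : pfC (piC [(nat_lit 37297016), (nat_lit 23751559), (nat_lit 15232604)] (nat_lit 7031977)) p15_35_2 (nat_lit 3) (nat_lit 112) (nat_lit 113) = true := by decide +kernel
def p15_35_2_113 : pfC (piC [(nat_lit 37297016), (nat_lit 23751559), (nat_lit 15232604)] (nat_lit 7031977)) p15_35_2 (nat_lit 3) (nat_lit 113) (nat_lit 114) = true := by decide +kernel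
def p15_35_2_114 : pfC (piC [(nat_lit 37297016), (nat_lit 23751559), (nat_lit 15232604)] (nat_lit 7031977)) p15_35_2 (nat_lit 3) (nat_lit 114) (nat_lit 115) = true := by decide +kernel
def p15_35_2_115 : pfC (piC [(nat_lit 37297016), (nat_lit 23751559), (nat_lit 15232604)] (nat_lit 7031977)) p15_35_2 (nat_lit 3) (nat_lit 115) (nat_lit 116) = true := by decide +kernel
def p15_35_2_116 : pfC (piC [(nat_lit 37297016), (nat_lit 23751559), (nat_lit 15232604)] (nat_lit 7031977)) p15_35_2 (nat_lit 3) (nat_lit 116) (nat_lit 117) = true := by decide +kernel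
def p15_35_2_117 : pfC (piC [(nat_lit 37297016), (nat_lit 23751559), (nat_lit 15232604)] (nat_lit 7031977)) p15_35_2 (nat_lit 3) (nat_lit 117) (nat_lit 118) = true := by decide +kernel
def p15_35_2_118 : pfC (piC [(nat_lit 37297016), (nat_lit 23751559), (nat_lit 15232604)] (nat_lit 7031977)) p15_35_2 (nat_lit 3) (nat_lit 118) (nat_lit 119) = true := by decide +kernel
def p15_35_2_119 : pfC (piC [(nat_lit 37297016), (nat_lit 23751559), (nat_lit 15232604)] (nat_lit 7031977)) p15_35_2 (nat_lit 3) (nat_lit 119) (nat_lit 120) = true := by decide +kernel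
def p15_35_2_120 : pfC (piC [(nat_lit 37297016), (nat_lit 23751559), (nat_lit 15232604)] (nat_lit 7031977)) p15_35_2 (nat_lit 3) (nat_lit 120) (nat_lit 121) = true := by decide +kernel
def p15_35_2_121 : pfC (piC [(nat_lit 37297016), (nat_lit 23751559), (nat_lit 15232604)] (nat_lit 7031977)) p15_35_2 (nat_lit 3) (nat_lit 121) (nat_lit 122) = true := by decide +kernel
def p15_35_2_122 : pfC (piC [(nat_lit 37297016), (nat_lit 23751559), (nat_lit 15232604)] (nat_lit 7031977)) p15_35_2 (nat_lit 3) (nat_lit 122) (nat_lit 123) = true := by decide +kernel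
def p15_35_2_123 : pfC (piC [(nat_lit 37297016), (nat_lit 23751559), (nat_lit 15232604)] (nat_lit 7031977)) p15_35_2 (nat_lit 3) (nat_lit 123) (nat_lit 124) = true := by decide +kernel
def p15_35_2_124 : pfC (piC [(nat_lit 37297016), (nat_lit 23751559), (nat_lit 15232604)] (nat_lit 7031977)) p15_35_2 (nat_lit 3) (nat_lit 124) (nat_lit 125) = true := by decide +kernel
def p15_35_2_125 : pfC (piC [(nat_lit 37297016), (nat_lit 23751559), (nat_lit 15232604)] (nat_lit 7031977)) p15_35_2 (nat_lit 3) (nat_lit 125) (nat_lit 126) = true := by decide +kernel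
def p15_35_2_126 : pfC (piC [(nat_lit 37297016), (nat_lit 23751559), (nat_lit 15232604)] (nat_lit 7031977)) p15_35_2 (nat_lit 3) (nat_lit 126) (nat_lit 127) = true := by decide +kernel
def p15_35_2_127 : pfC (piC [(nat_lit 37297016), (nat_lit 23751559), (nat_lit 15232604)] (nat_lit 7031977)) p15_35_2 (nat_lit 3) (nat_lit 127) (nat_lit 128) = true := by decide +kernel
def p15_35_2_128 : pfC (piC [(nat_lit 37297016), (nat_lit 23751559), (nat_lit 15232604)] (nat_lit 7031977)) p15_35_2 (nat_lit 3) (nat_lit 128) (nat_lit 129) = true := by decide +kernel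
def p15_35_2_129 : pfC (piC [(nat_lit 37297016), (nat_lit 23751559), (nat_lit 15232604)] (nat_lit 7031977)) p15_35_2 (nat_lit 3) (nat_lit 129) (nat_lit 130) = true := by decide +kernel
def p15_35_2_130 : pfC (piC [(nat_lit 37297016), (nat_lit 23751559), (nat_lit 15232604)] (nat_lit 7031977)) p15_35_2 (nat_lit 3) (nat_lit 130) (nat_lit 131) = true := by decide +kernel
def p15_35_2_131 : pfC (piC [(nat_lit 37297016), (nat_lit 23751559), (nat_lit 15232604)] (nat_lit 7031977)) p15_35_2 (nat_lit 3) (nat_lit 131) (nat_lit 132) = true := by decide +kernel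
def p15_35_2_132 : pfC (piC [(nat_lit 37297016), (nat_lit 23751559), (nat_lit 15232604)] (nat_lit 7031977)) p15_35_2 (nat_lit 3) (nat_lit 132) (nat_lit 133) = true := by decide +kernel
def p15_35_2_133 : pfC (piC [(nat_lit 37297016), (nat_lit 23751559), (nat_lit 15232604)] (nat_lit 7031977)) p15_35_2 (nat_lit 3) (nat_lit 133) (nat_lit 134) = true := by decide +kernel
def p15_35_2_134 : pfC (piC [(nat_lit 37297016), (nat_lit 23751559), (nat_lit 15232604)] (nat_lit 7031977)) p15_35_2 (nat_lit 3) (nat_lit 134) (nat_lit 135) = true := by decide +kernel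
def p15_35_2_135 : pfC (piC [(nat_lit 37297016), (nat_lit 23751559), (nat_lit 15232604)] (nat_lit 7031977)) p15_35_2 (nat_lit 3) (nat_lit 135) (nat_lit 136) = true := by decide +kernel
def p15_35_2_136 : pfC (piC [(nat_lit 37297016), (nat_lit 23751559), (nat_lit 15232604)] (nat_lit 7031977)) p15_35_2 (nat_lit 3) (nat_lit 136) (nat_lit 137) = true := by decide +kernel
def p15_35_2_137 : pfC (piC [(nat_lit 37297016), (nat_lit 23751559), (nat_lit 15232604)] (nat_lit 7031977)) p15_35_2 (nat_lit 3) (nat_lit 137) (nat_lit 138) = true := by decide +kernel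
def p15_35_2_138 : pfC (piC [(nat_lit 37297016), (nat_lit 23751559), (nat_lit 15232604)] (nat_lit 7031977)) p15_35_2 (nat_lit 3) (nat_lit 138) (nat_lit 139) = true := by decide +kernel
def p15_35_2_139 : pfC (piC [(nat_lit 37297016), (nat_lit 23751559), (nat_lit 15232604)] (nat_lit 7031977)) p15_35_2 (nat_lit 3) (nat_lit 139) (nat_lit 140) = true := by decide +kernel
def p15_35_2_140 : pfC (piC [(nat_lit 37297016), (nat_lit 23751559), (nat_lit 15232604)] (nat_lit 7031977)) p15_35_2 (nat_lit 3) (nat_lit 140) (nat_lit 141) = true := by decide +kernel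
def p15_35_2_141 : pfC (piC [(nat_lit 37297016), (nat_lit 23751559), (nat_lit 15232604)] (nat_lit 7031977)) p15_35_2 (nat_lit 3) (nat_lit 141) (nat_lit 142) = true := by decide +kernel
def p15_35_2_142 : pfC (piC [(nat_lit 37297016), (nat_lit 23751559), (nat_lit 15232604)] (nat_lit 7031977)) p15_35_2 (nat_lit 3) (nat_lit 142) (nat_lit 143) = true := by decide +kernel
def p15_35_2_143 : pfC (piC [(nat_lit 37297016), (nat_lit 23751559), (nat_lit 15232604)] (nat_lit 7031977)) p15_35_2 (nat_lit 3) (nat_lit 143) (nat_lit 144) = true := by decide +kernel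
def p15_35_2_144 : pfC (piC [(nat_lit 37297016), (nat_lit 23751559), (nat_lit 15232604)] (nat_lit 7031977)) p15_35_2 (nat_lit 3) (nat_lit 144) (nat_lit 145) = true := by decide +kernel
def p15_35_2_145 : pfC (piC [(nat_lit 37297016), (nat_lit 23751559), (nat_lit 15232604)] (nat_lit 7031977)) p15_35_2 (nat_lit 3) (nat_lit 145) (nat_lit 146) = true := by decide +kernel
def p15_35_2_146 : pfC (piC [(nat_lit 37297016), (nat_lit 23751559), (nat_lit 15232604)] (nat_lit 7031977)) p15_35_2 (nat_lit 3) (nat_lit 146) (nat_lit 147) = true := by decide +kernel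
def p15_35_2_147 : pfC (piC [(nat_lit 37297016), (nat_lit 23751559), (nat_lit 15232604)] (nat_lit 7031977)) p15_35_2 (nat_lit 3) (nat_lit 147) (nat_lit 148) = true := by decide +kernel
def p15_35_2_148 : pfC (piC [(nat_lit 37297016), (nat_lit 23751559), (nat_lit 15232604)] (nat_lit 7031977)) p15_35_2 (nat_lit 3) (nat_lit 148) (nat_lit 149) = true := by decide +kernel
def p15_35_2_149 : pfC (piC [(nat_lit 37297016), (nat_lit 23751559), (nat_lit 15232604)] (nat_lit 7031977)) p15_35_2 (nat_lit 3) (nat_lit 149) (nat_lit 150) = true := by decide +kernel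
def p15_35_2_150 : pfC (piC [(nat_lit 37297016), (nat_lit 23751559), (nat_lit 15232604)] (nat_lit 7031977)) p15_35_2 (nat_lit 3) (nat_lit 150) (nat_lit 151) = true := by decide +kernel
def p15_35_2_151 : pfC (piC [(nat_lit 37297016), (nat_lit 23751559), (nat_lit 15232604)] (nat_lit 7031977)) p15_35_2 (nat_lit 3) (nat_lit 151) (nat_lit 152) = true := by decide +kernel
def p15_35_2_152 : pfC (piC [(nat_lit 37297016), (nat_lit 23751559), (nat_lit 15232604)] (nat_lit 7031977)) p15_35_2 (nat_lit 3) (nat_lit 152) (nat_lit 153) = true := by decide +kernel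
def p15_35_2_153 : pfC (piC [(nat_lit 37297016), (nat_lit 23751559), (nat_lit 15232604)] (nat_lit 7031977)) p15_35_2 (nat_lit 3) (nat_lit 153) (nat_lit 154) = true := by decide +kernel
def p15_35_2_154 : pfC (piC [(nat_lit 37297016), (nat_lit 23751559), (nat_lit 15232604)] (nat_lit 7031977)) p15_35_2 (nat_lit 3) (nat_lit 154) (nat_lit 155) = true := by decide +kernel
def p15_35_2_155 : pfC (piC [(nat_lit 37297016), (nat_lit 23751559), (nat_lit 15232604)] (nat_lit 7031977)) p15_35_2 (nat_lit 3) (nat_lit 155) (nat_lit 156) = true := by decide +kernel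
def p15_35_2_156 : pfC (piC [(nat_lit 37297016), (nat_lit 23751559), (nat_lit 15232604)] (nat_lit 7031977)) p15_35_2 (nat_lit 3) (nat_lit 156) (nat_lit 157) = true := by decide +kernel
def p15_35_2_157 : pfC (piC [(nat_lit 37297016), (nat_lit 23751559), (nat_lit 15232604)] (nat_lit 7031977)) p15_35_2 (nat_lit 3) (nat_lit 157) (nat_lit 158) = true := by decide +kernel
def p15_35_2_158 : pfC (piC [(nat_lit 37297016), (nat_lit 23751559), (nat_lit 15232604)] (nat_lit 7031977)) p15_35_2 (nat_lit 3) (nat_lit 158) (nat_lit 159) = true := by decide +kernel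
def p15_35_2_159 : pfC (piC [(nat_lit 37297016), (nat_lit 23751559), (nat_lit 15232604)] (nat_lit 7031977)) p15_35_2 (nat_lit 3) (nat_lit 159) (nat_lit 160) = true := by decide +kernel
def p15_35_2_160 : pfC (piC [(nat_lit 37297016), (nat_lit 23751559), (nat_lit 15232604)] (nat_lit 7031977)) p15_35_2 (nat_lit 3) (nat_lit 160) (nat_lit 161) = true := by decide +kernel
def p15_35_2_161 : pfC (piC [(nat_lit 37297016), (nat_lit 23751559), (nat_lit 15232604)] (nat_lit 7031977)) p15_35_2 (nat_lit 3) (nat_lit 161) (nat_lit 162) = true := by decide +kernel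
def p15_35_2_162 : pfC (piC [(nat_lit 37297016), (nat_lit 23751559), (nat_lit 15232604)] (nat_lit 7031977)) p15_35_2 (nat_lit 3) (nat_lit 162) (nat_lit 163) = true := by decide +kernel
def p15_35_2_163 : pfC (piC [(nat_lit 37297016), (nat_lit 23751559), (nat_lit 15232604)] (nat_lit 7031977)) p15_35_2 (nat_lit 3) (nat_lit 163) (nat_lit 164) = true := by decide +kernel
def p15_35_2_164 : pfC (piC [(nat_lit 37297016), (nat_lit 23751559), (nat_lit 15232604)] (nat_lit 7031977)) p15_35_2 (nat_lit 3) (nat_lit 164) (nat_lit 165) = true := by decide +kernel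
def p15_35_2_165 : pfC (piC [(nat_lit 37297016), (nat_lit 23751559), (nat_lit 15232604)] (nat_lit 7031977)) p15_35_2 (nat_lit 3) (nat_lit 165) (nat_lit 166) = true := by decide +kernel
def p15_35_2_166 : pfC (piC [(nat_lit 37297016), (nat_lit 23751559), (nat_lit 15232604)] (nat_lit 7031977)) p15_35_2 (nat_lit 3) (nat_lit 166) (nat_lit 167) = true := by decide +kernel
def p15_35_2_167 : pfC (piC [(nat_lit 37297016), (nat_lit 23751559), (nat_lit 15232604)] (nat_lit 7031977)) p15_35_2 (nat_lit 3) (nat_lit 167) (nat_lit 168) = true := by decide +kernel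
def p15_35_2_168 : pfC (piC [(nat_lit 37297016), (nat_lit 23751559), (nat_lit 15232604)] (nat_lit 7031977)) p15_35_2 (nat_lit 3) (nat_lit 168) (nat_lit 169) = true := by decide +kernel
def p15_35_2_169 : pfC (piC [(nat_lit 37297016), (nat_lit 23751559), (nat_lit 15232604)] (nat_lit 7031977)) p15_35_2 (nat_lit 3) (nat_lit 169) (nat_lit 170) = true := by decide +kernel
def p15_35_2_170 : pfC (piC [(nat_lit 37297016), (nat_lit 23751559), (nat_lit 15232604)] (nat_lit 7031977)) p15_35_2 (nat_lit 3) (nat_lit 170) (nat_lit 171) = true := by decide +kernel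
def p15_35_2_171 : pfC (piC [(nat_lit 37297016), (nat_lit 23751559), (nat_lit 15232604)] (nat_lit 7031977)) p15_35_2 (nat_lit 3) (nat_lit 171) (nat_lit 172) = true := by decide +kernel
def p15_35_2_172 : pfC (piC [(nat_lit 37297016), (nat_lit 23751559), (nat_lit 15232604)] (nat_lit 7031977)) p15_35_2 (nat_lit 3) (nat_lit 172) (nat_lit 173) = true := by decide +kernel
def p15_35_2_173 : pfC (piC [(nat_lit 37297016), (nat_lit 23751559), (nat_lit 15232604)] (nat_lit 7031977)) p15_35_2 (nat_lit 3) (nat_lit 173) (nat_lit 174) = true := by decide +kernel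
def p15_35_2_174 : pfC (piC [(nat_lit 37297016), (nat_lit 23751559), (nat_lit 15232604)] (nat_lit 7031977)) p15_35_2 (nat_lit 3) (nat_lit 174) (nat_lit 175) = true := by decide +kernel
def p15_35_2_175 : pfC (piC [(nat_lit 37297016), (nat_lit 23751559), (nat_lit 15232604)] (nat_lit 7031977)) p15_35_2 (nat_lit 3) (nat_lit 175) (nat_lit 176) = true := by decide +kernel
def p15_35_2_176 : pfC (piC [(nat_lit 37297016), (nat_lit 23751559), (nat_lit 15232604)] (nat_lit 7031977)) p15_35_2 (nat_lit 3) (nat_lit 176) (nat_lit 177) = true := by decide +kernel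
def p15_35_2_177 : pfC (piC [(nat_lit 37297016), (nat_lit 23751559), (nat_lit 15232604)] (nat_lit 7031977)) p15_35_2 (nat_lit 3) (nat_lit 177) (nat_lit 178) = true := by decide +kernel
def p15_35_2_178 : pfC (piC [(nat_lit 37297016), (nat_lit 23751559), (nat_lit 15232604)] (nat_lit 7031977)) p15_35_2 (nat_lit 3) (nat_lit 178) (nat_lit 179) = true := by decide +kernel
def p15_35_2_179 : pfC (piC [(nat_lit 37297016), (nat_lit 23751559), (nat_lit 15232604)] (nat_lit 7031977)) p15_35_2 (nat_lit 3) (nat_lit 179) (nat_lit 180) = true := by decide +kernel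
def p15_35_2_180 : pfC (piC [(nat_lit 37297016), (nat_lit 23751559), (nat_lit 15232604)] (nat_lit 7031977)) p15_35_2 (nat_lit 3) (nat_lit 180) (nat_lit 181) = true := by decide +kernel
def p15_35_2_181 : pfC (piC [(nat_lit 37297016), (nat_lit 23751559), (nat_lit 15232604)] (nat_lit 7031977)) p15_35_2 (nat_lit 3) (nat_lit 181) (nat_lit 182) = true := by decide +kernel
def p15_35_2_182 : pfC (piC [(nat_lit 37297016), (nat_lit 23751559), (nat_lit 15232604)] (nat_lit 7031977)) p15_35_2 (nat_lit 3) (nat_lit 182) (nat_lit 183) = true := by decide +kernel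
def p15_35_2_183 : pfC (piC [(nat_lit 37297016), (nat_lit 23751559), (nat_lit 15232604)] (nat_lit 7031977)) p15_35_2 (nat_lit 3) (nat_lit 183) (nat_lit 184) = true := by decide +kernel
def p15_35_2_184 : pfC (piC [(nat_lit 37297016), (nat_lit 23751559), (nat_lit 15232604)] (nat_lit 7031977)) p15_35_2 (nat_lit 3) (nat_lit 184) (nat_lit 185) = true := by decide +kernel
def p15_35_2_185 : pfC (piC [(nat_lit 37297016), (nat_lit 23751559), (nat_lit 15232604)] (nat_lit 7031977)) p15_35_2 (nat_lit 3) (nat_lit 185) (nat_lit 186) = true := by decide +kernel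
def p15_35_2_186 : pfC (piC [(nat_lit 37297016), (nat_lit 23751559), (nat_lit 15232604)] (nat_lit 7031977)) p15_35_2 (nat_lit 3) (nat_lit 186) (nat_lit 187) = true := by decide +kernel
def p15_35_2_187 : pfC (piC [(nat_lit 37297016), (nat_lit 23751559), (nat_lit 15232604)] (nat_lit 7031977)) p15_35_2 (nat_lit 3) (nat_lit 187) (nat_lit 188) = true := by decide +kernel
def p15_35_2_188 : pfC (piC [(nat_lit 37297016), (nat_lit 23751559), (nat_lit 15232604)] (nat_lit 7031977)) p15_35_2 (nat_lit 3) (nat_lit 188) (nat_lit 189) = true := by decide +kernel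
def p15_35_2_189 : pfC (piC [(nat_lit 37297016), (nat_lit 23751559), (nat_lit 15232604)] (nat_lit 7031977)) p15_35_2 (nat_lit 3) (nat_lit 189) (nat_lit 190) = true := by decide +kernel
def p15_35_2_190 : pfC (piC [(nat_lit 37297016), (nat_lit 23751559), (nat_lit 15232604)] (nat_lit 7031977)) p15_35_2 (nat_lit 3) (nat_lit 190) (nat_lit 191) = true := by decide +kernel
def p15_35_2_191 : pfC (piC [(nat_lit 37297016), (nat_lit 23751559), (nat_lit 15232604)] (nat_lit 7031977)) p15_35_2 (nat_lit 3) (nat_lit 191) (nat_lit 192) = true := by decide +kernel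
def p15_35_2_192 : pfC (piC [(nat_lit 37297016), (nat_lit 23751559), (nat_lit 15232604)] (nat_lit 7031977)) p15_35_2 (nat_lit 3) (nat_lit 192) (nat_lit 193) = true := by decide +kernel
def p15_35_2_193 : pfC (piC [(nat_lit 37297016), (nat_lit 23751559), (nat_lit 15232604)] (nat_lit 7031977)) p15_35_2 (nat_lit 3) (nat_lit 193) (nat_lit 194) = true := by decide +kernel
def p15_35_2_194 : pfC (piC [(nat_lit 37297016), (nat_lit 23751559), (nat_lit 15232604)] (nat_lit 7031977)) p15_35_2 (nat_lit 3) (nat_lit 194) (nat_lit 195) = true := by decide +kernel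
def p15_35_2_195 : pfC (piC [(nat_lit 37297016), (nat_lit 23751559), (nat_lit 15232604)] (nat_lit 7031977)) p15_35_2 (nat_lit 3) (nat_lit 195) (nat_lit 196) = true := by decide +kernel
def p15_35_2_196 : pfC (piC [(nat_lit 37297016), (nat_lit 23751559), (nat_lit 15232604)] (nat_lit 7031977)) p15_35_2 (nat_lit 3) (nat_lit 196) (nat_lit 197) = true := by decide +kernel
def p15_35_2_197 : pfC (piC [(nat_lit 37297016), (nat_lit 23751559), (nat_lit 15232604)] (nat_lit 7031977)) p15_35_2 (nat_lit 3) (nat_lit 197) (nat_lit 198) = true := by decide +kernel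
def p15_35_2_198 : pfC (piC [(nat_lit 37297016), (nat_lit 23751559), (nat_lit 15232604)] (nat_lit 7031977)) p15_35_2 (nat_lit 3) (nat_lit 198) (nat_lit 199) = true := by decide +kernel
theorem p15_35_2_T : PfS (PiF n15_35.reverse (nat_lit 7031977)) p15_35_2 (nat_lit 3) [] 0 :=
  pftab_of (los := [(nat_lit 37297016), (nat_lit 23751559), (nat_lit 15232604)]) (by decide +kernel) (hi := (nat_lit 199)) (PfP.trans (PfP.trans (PfP.trans (PfP.trans (PfP.trans (PfP.trans (PfP.trans (PfP.trans (PfP.trans (PfP.trans (PfP.trans (PfP.trans (PfP.trans (PfP.trans (PfP.trans (PfP.trans (PfP.trans (PfP.trans (PfP.trans (PfP.trans (PfP.trans (PfP.trans (PfP.trans (PfP.trans (PfP.trans (PfP.trans (PfP.trans (PfP.trans (PfP.trans (PfP.trans (PfP.trans (PfP.trans (PfP.trans (PfP.trans (PfP.trans (PfP.trans (PfP.trans (PfP.trans (PfP.trans (PfP.trans (PfP.trans (PfP.trans (PfP.trans (PfP.trans (PfP.trans (PfP.trans (PfP.trans (PfP.trans (PfP.trans (PfP.trans (PfP.trans (PfP.trans (PfP.trans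 (PfP.trans (PfP.trans (PfP.trans (PfP.trans (PfP.trans (PfP.trans (PfP.trans (PfP.trans (PfP.trans (PfP.trans (PfP.trans (PfP.trans (PfP.trans (PfP.trans (PfP.trans (PfP.trans (PfP.trans (PfP.trans (PfP.trans (PfP.trans (PfP.trans (PfP.trans (PfP.trans (PfP.trans (PfP.trans (PfP.trans (PfP.trans (PfP.trans (PfP.trans (PfP.trans (PfP.trans (PfP.trans (PfP.trans (PfP.trans (PfP.trans (PfP.trans (PfP.trans (PfP.trans (PfP.trans (PfP.trans (PfP.trans (PfP.trans (PfP.trans (PfP.trans (PfP.trans (PfP.trans (PfP.trans (PfP.trans (PfP.trans (PfP.trans (PfP.trans (PfP.trans (PfP.trans (PfP.trans (PfP.trans (PfP.trans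
 (PfP.trans (PfP.trans (PfP.trans (PfP.trans (PfP.trans (PfP.trans (PfP.trans (PfP.trans (PfP.trans (PfP.trans (PfP.trans (PfP.trans (PfP.trans (PfP.trans (PfP.trans (PfP.trans (PfP.trans (PfP.trans (PfP.trans (PfP.trans (PfP.trans (PfP.trans (PfP.trans (PfP.trans (PfP.trans (PfP.trans (PfP.trans (PfP.trans (PfP.trans (PfP.trans (PfP.trans (PfP.trans (PfP.trans (PfP.trans (PfP.trans (PfP.trans (PfP.trans (PfP.trans (PfP.trans (PfP.trans (PfP.trans (PfP.trans (PfP.trans (PfP.trans (PfP.trans (PfP.trans (PfP.trans (PfP.trans (PfP.trans (PfP.trans (PfP.trans (PfP.trans (PfP.trans (PfP.trans (PfP.trans (PfP.trans (PfP.trans (PfP.trans (PfP.trans (PfP.trans (PfP.trans (PfP.trans (PfP.trans (PfP.trans (PfP.trans (PfP.trans (PfP.trans (PfP.trans (PfP.trans (PfP.trans (PfP.trans (PfP.trans (PfP.trans (PfP.trans (PfP.trans (PfP.trans (PfP.trans (PfP.trans (PfP.trans (PfP.trans (PfP.trans (PfP.trans (PfP.trans (PfP.trans (PfP.trans (PfP.trans (PfP.trans (PfP.trans (PfP.trans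 (pfC_sound p15_35_2_0) (pfC_sound p15_35_2_1)) (pfC_sound p15_35_2_2)) (pfC_sound p15_35_2_3)) (pfC_sound p15_35_2_4)) (pfC_sound p15_35_2_5)) (pfC_sound p15_35_2_6)) (pfC_sound p15_35_2_7)) (pfC_sound p15_35_2_8))
 (pfC_sound p15_35_2_9)) (pfC_sound p15_35_2_10)) (pfC_sound p15_35_2_11)) (pfC_sound p15_35_2_12)) (pfC_sound p15_35_2_13)) (pfC_sound p15_35_2_14)) (pfC_sound p15_35_2_15)) (pfC_sound p15_35_2_16)) (pfC_sound p15_35_2_17)) (pfC_sound p15_35_2_18)) (pfC_sound p15_35_2_19)) (pfC_sound p15_35_2_20)) (pfC_sound p15_35_2_21)) (pfC_sound p15_35_2_22)) (pfC_sound p15_35_2_23)) (pfC_sound p15_35_2_24)) (pfC_sound p15_35_2_25)) (pfC_sound p15_35_2_26)) (pfC_sound p15_35_2_27)) (pfC_sound p15_35_2_28)) (pfC_sound p15_35_2_29)) (pfC_sound p15_35_2_30)) (pfC_sound p15_35_2_31)) (pfC_sound p15_35_2_32)) (pfC_sound p15_35_2_33)) (pfC_sound p15_35_2_34)) (pfC_sound p15_35_2_35)) (pfC_sound p15_35_2_36)) (pfC_sound p15_35_2_37)) (pfC_sound p15_35_2_38)) (pfC_sound p15_35_2_39))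 (pfC_sound p15_35_2_40)) (pfC_sound p15_35_2_41)) (pfC_sound p15_35_2_42)) (pfC_sound p15_35_2_43)) (pfC_sound p15_35_2_44)) (pfC_sound p15_35_2_45)) (pfC_sound p15_35_2_46)) (pfC_sound p15_35_2_47)) (pfC_sound p15_35_2_48)) (pfC_sound p15_35_2_49)) (pfC_sound p15_35_2_50)) (pfC_sound p15_35_2_51)) (pfC_sound p15_35_2_52)) (pfC_sound p15_35_2_53)) (pfC_sound p15_35_2_54)) (pfC_sound p15_35_2_55)) (pfC_sound p15_35_2_56))
 (pfC_sound p15_35_2_57)) (pfC_sound p15_35_2_58)) (pfC_sound p15_35_2_59)) (pfC_sound p15_35_2_60)) (pfC_sound p15_35_2_61)) (pfC_sound p15_35_2_62)) (pfC_sound p15_35_2_63)) (pfC_sound p15_35_2_64)) (pfC_sound p15_35_2_65)) (pfC_sound p15_35_2_66)) (pfC_sound p15_35_2_67)) (pfC_sound p15_35_2_68)) (pfC_sound p15_35_2_69)) (pfC_sound p15_35_2_70)) (pfC_sound p15_35_2_71)) (pfC_sound p15_35_2_72)) (pfC_sound p15_35_2_73)) (pfC_sound p15_35_2_74)) (pfC_sound p15_35_2_75)) (pfC_sound p15_35_2_76)) (pfC_sound p15_35_2_77)) (pfC_sound p15_35_2_78)) (pfC_sound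 p15_35_2_79)) (pfC_sound p15_35_2_80)) (pfC_sound p15_35_2_81)) (pfC_sound p15_35_2_82)) (pfC_sound p15_35_2_83)) (pfC_sound p15_35_2_84)) (pfC_sound p15_35_2_85)) (pfC_sound p15_35_2_86)) (pfC_sound p15_35_2_87)) (pfC_sound p15_35_2_88)) (pfC_sound p15_35_2_89)) (pfC_sound p15_35_2_90)) (pfC_sound p15_35_2_91)) (pfC_sound p15_35_2_92)) (pfC_sound p15_35_2_93)) (pfC_sound p15_35_2_94)) (pfC_sound p15_35_2_95)) (pfC_sound p15_35_2_96)) (pfC_sound p15_35_2_97)) (pfC_sound p15_35_2_98)) (pfC_sound p15_35_2_99)) (pfC_sound p15_35_2_100)) (pfC_sound p15_35_2_101)) (pfC_sound p15_35_2_102)) (pfC_sound p15_35_2_103)) (pfC_sound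
 p15_35_2_104)) (pfC_sound p15_35_2_105)) (pfC_sound p15_35_2_106)) (pfC_sound p15_35_2_107)) (pfC_sound p15_35_2_108)) (pfC_sound p15_35_2_109)) (pfC_sound p15_35_2_110)) (pfC_sound p15_35_2_111)) (pfC_sound p15_35_2_112)) (pfC_sound p15_35_2_113)) (pfC_sound p15_35_2_114)) (pfC_sound p15_35_2_115)) (pfC_sound p15_35_2_116)) (pfC_sound p15_35_2_117)) (pfC_sound p15_35_2_118)) (pfC_sound p15_35_2_119)) (pfC_sound p15_35_2_120)) (pfC_sound p15_35_2_121)) (pfC_sound p15_35_2_122)) (pfC_sound p15_35_2_123)) (pfC_sound p15_35_2_124)) (pfC_sound p15_35_2_125)) (pfC_sound p15_35_2_126)) (pfC_sound p15_35_2_127)) (pfC_sound p15_35_2_128)) (pfC_sound p15_35_2_129)) (pfC_sound p15_35_2_130)) (pfC_sound p15_35_2_131)) (pfC_sound p15_35_2_132)) (pfC_sound p15_35_2_133)) (pfC_sound p15_35_2_134)) (pfC_sound p15_35_2_135)) (pfC_sound p15_35_2_136)) (pfC_sound p15_35_2_137)) (pfC_sound p15_35_2_138)) (pfC_sound p15_35_2_139)) (pfC_sound p15_35_2_140)) (pfC_sound p15_35_2_141)) (pfC_sound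 p15_35_2_142)) (pfC_sound p15_35_2_143)) (pfC_sound p15_35_2_144)) (pfC_sound p15_35_2_145)) (pfC_sound p15_35_2_146)) (pfC_sound p15_35_2_147)) (pfC_sound p15_35_2_148)) (pfC_sound p15_35_2_149)) (pfC_sound
 p15_35_2_150)) (pfC_sound p15_35_2_151)) (pfC_sound p15_35_2_152)) (pfC_sound p15_35_2_153)) (pfC_sound p15_35_2_154)) (pfC_sound p15_35_2_155)) (pfC_sound p15_35_2_156)) (pfC_sound p15_35_2_157)) (pfC_sound p15_35_2_158)) (pfC_sound p15_35_2_159)) (pfC_sound p15_35_2_160)) (pfC_sound p15_35_2_161)) (pfC_sound p15_35_2_162)) (pfC_sound p15_35_2_163)) (pfC_sound p15_35_2_164)) (pfC_sound p15_35_2_165)) (pfC_sound p15_35_2_166)) (pfC_sound p15_35_2_167)) (pfC_sound p15_35_2_168)) (pfC_sound p15_35_2_169)) (pfC_sound p15_35_2_170)) (pfC_sound p15_35_2_171)) (pfC_sound p15_35_2_172)) (pfC_sound p15_35_2_173)) (pfC_sound p15_35_2_174)) (pfC_sound p15_35_2_175)) (pfC_sound p15_35_2_176)) (pfC_sound p15_35_2_177)) (pfC_sound p15_35_2_178)) (pfC_sound p15_35_2_179)) (pfC_sound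 p15_35_2_180)) (pfC_sound p15_35_2_181)) (pfC_sound p15_35_2_182)) (pfC_sound p15_35_2_183)) (pfC_sound p15_35_2_184)) (pfC_sound p15_35_2_185)) (pfC_sound p15_35_2_186)) (pfC_sound p15_35_2_187)) (pfC_sound p15_35_2_188)) (pfC_sound p15_35_2_189)) (pfC_sound p15_35_2_190)) (pfC_sound p15_35_2_191)) (pfC_sound p15_35_2_192)) (pfC_sound p15_35_2_193)) (pfC_sound p15_35_2_194)) (pfC_sound p15_35_2_195)) (pfC_sound
 p15_35_2_196)) (pfC_sound p15_35_2_197)) (pfC_sound p15_35_2_198)) (by decide +kernel)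

def z15_35_2 : zOK yB15_35 (nat_lit 2) (nat_lit 600) (nat_lit 682) (nat_lit 7031977) (nat_lit 5887873) = true := by decide +kernel
def g15_35_2 : gOK yB15_35.x P15_35 (nat_lit 1384) (q15_35 :: r15_35) (nat_lit 2) (nat_lit 600) (nat_lit 3) (nat_lit 682) (nat_lit 12712500) (nat_lit 12712500) (nat_lit 12712500) (nat_lit 12712500) [(nat_lit 800)] = true := by decide +kernel
def v15_35_2 : ivC P15_35 s15_35 w15_35 n15_35 (nat_lit 3) (nat_lit 4680) (nat_lit 2) (nat_lit 600) f184_0_600 f192_0_600 (nat_lit 3) (nat_lit 682) f184_0_682 f192_0_682 (nat_lit 7031977) (nat_lit 5887873) p15_35_2 = true := by decide +kernel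
end CB
end Pool.Agent.Lib.MP_6947cd_al
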