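import Pool.Agent.Lib.MP_6947cd_al.L.BoxDataB
import Pool.Agent.Lib.MP_6947cd_al.L.TeD5
import Pool.Agent.Lib.MP_6947cd_al.L.TeD6

/-!
Problem MP_6947cd_al (Chollet).  CASE B, rows `j`: boxes (generated).
-/

set_option autoImplicit false
set_option linter.defProp false
set_option maxRecDepth 20000

namespace Pool.Agent.Lib.MP_6947cd_al
namespace CB

open Ent Ent.Pk Fr Fr.WT CA

/-! box `yB12_16` -/

def P12_16 : BQ := ⟨(nat_lit 8), (nat_lit 4), (nat_lit 4), (nat_lit 0), (nat_lit 8), (nat_lit 860), (nat_lit 880), (nat_lit 120), [(nat_lit 200), (nat_lit 300), (nat_lit 450), (nat_lit 800)], (nat_lit 129840000), (nat_lit 16000000), (nat_lit 16000000000)⟩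
def q12_16 : PC := ⟨(nat_lit 1000), [(nat_lit 120000), (nat_lit 200000), (nat_lit 300000), (nat_lit 450000), (nat_lit 800000)], (nat_lit 340282367000166625996085689103316680705000000), (nat_lit 15870160000000), (nat_lit 15870160000000), (nat_lit 10000000)⟩
def r12_16 : List PC := [⟨(nat_lit 1328), [(nat_lit 120662), (nat_lit 200966), (nat_lit 301125), (nat_lit 451737), (nat_lit 800891)], (nat_lit 238197656924284793037061736306560015721777782), (nat_lit 16333004989440), (nat_lit 16344230776320), (nat_lit 10055167)⟩, ⟨(nat_lit 2086), [(nat_lit 123362), (nat_lit 203192), (nat_lit 304400), (nat_lit 456169), (nat_lit 811016)], (nat_lit 238197656925183319628386330476323090505620838), (nat_lit 17292707105280), (nat_lit 17329875411840), (nat_lit 10280167)⟩]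
def s12_16 : List PB := [⟨(nat_lit 26560), (nat_lit 1930592000000), [(nat_lit 200966), (nat_lit 301125), (nat_lit 451737), (nat_lit 800891)], (nat_lit 238197656924284793037061736306560015721777782), (nat_lit 1142232911832064), (nat_lit 1142244137618944), (nat_lit 52480)⟩, ⟨(nat_lit 41720), (nat_lit 1973792000000), [(nat_lit 203192), (nat_lit 304400), (nat_lit 456169), (nat_lit 811016)], (nat_lit 238197656925183319628386330476323090505620838), (nat_lit 1143192613947904), (nat_lit 1143229782254464), (nat_lit 173760)⟩]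
def n12_16 : List KN := [⟨(nat_lit 800), (nat_lit 450), (nat_lit 12073119), (nat_lit 6481740)⟩, ⟨(nat_lit 450), (nat_lit 300), (nat_lit 17897616), (nat_lit 12073119)⟩, ⟨(nat_lit 300), (nat_lit 200), (nat_lit 23968959), (nat_lit 17897616)⟩, ⟨(nat_lit 200), (nat_lit 120), (nat_lit 35755509), (nat_lit 23968959)⟩]
def w12_16 : List ℕ := [(nat_lit 52480), (nat_lit 173760)]
def par12_16 : parC yB12_16 P12_16 s12_16 r12_16 q12_16 n12_16 w12_16 = true := by decide +kernel

def p12_16_0 : PF := (PF.cons (PF.cons (PF.cons (PF.cons (PF.leaf (nat_lit 674376) (nat_lit 2015926) (nat_lit 65092886) (nat_lit 2015926) [(nat_lit 0), (nat_lit 0), (nat_lit 0), (nat_lit 0)]) (PF.cons (PF.leaf (nat_lit 868094) (nat_lit 319998) (nat_lit 64691647) (nat_lit 2097166) [(nat_lit 319998), (nat_lit 0), (nat_lit 0), (nat_lit 0)]) (PF.cons (PF.leaf (nat_lit 1103367) (nat_lit 356562) (nat_lit 64211480) (nat_lit 2184207) [(nat_lit 356562), (nat_lit 0), (nat_lit 0), (nat_lit 0)]) (PF.cons (PF.leaf (nat_lit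 1374600) (nat_lit 391000) (nat_lit 63662763) (nat_lit 2273049) [(nat_lit 391000), (nat_lit 0), (nat_lit 0), (nat_lit 0)]) (PF.cons (PF.leaf (nat_lit 1678313) (nat_lit 423560) (nat_lit 63053416) (nat_lit 2361153) [(nat_lit 423560), (nat_lit 0), (nat_lit 0), (nat_lit 0)]) (PF.cons (PF.leaf (nat_lit 2011450) (nat_lit 454346) (nat_lit 62390228) (nat_lit 2446852) [(nat_lit 454346), (nat_lit 0), (nat_lit 0), (nat_lit 0)]) (PF.cons (PF.leaf (nat_lit 2371144) (nat_lit 483401) (nat_lit 61679380) (nat_lit 2529026) [(nat_lit 483401), (nat_lit 0), (nat_lit 0), (nat_lit 0)]) (PF.cons (PF.leaf (nat_lit 2754699) (nat_lit 510746) (nat_lit 60926662) (nat_lit 2606924) [(nat_lit 510746), (nat_lit 0), (nat_lit 0),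
 (nat_lit 0)]) (PF.cons (PF.leaf (nat_lit 3159477) (nat_lit 536398) (nat_lit 60137572) (nat_lit 2680056) [(nat_lit 536398), (nat_lit 0), (nat_lit 0), (nat_lit 0)]) (PF.cons (PF.leaf (nat_lit 3582948) (nat_lit 560373) (nat_lit 59317334) (nat_lit 2748117) [(nat_lit 560373), (nat_lit 0), (nat_lit 0), (nat_lit 0)]) (PF.cons (PF.leaf (nat_lit 4022679) (nat_lit 582696) (nat_lit 58470909) (nat_lit 2810942) [(nat_lit 582696), (nat_lit 0), (nat_lit 0), (nat_lit 0)]) (PF.cons (PF.leaf (nat_lit 4476366) (nat_lit 603396) (nat_lit 57602978) (nat_lit 2868473) [(nat_lit 603396), (nat_lit 0), (nat_lit 0), (nat_lit 0)]) (PF.cons PF.nil (PF.cons PF.nil PF.nil)))))))))))))) (PF.cons (PF.cons (PF.leaf (nat_lit 1281675) (nat_lit 1330045) (nat_lit 63501951) (nat_lit 2276816) [(nat_lit 0), (nat_lit 1330045), (nat_lit 0), (nat_lit 0)]) (PF.cons (PF.leaf (nat_lit 1547006) (nat_lit 408054) (nat_lit 62951996) (nat_lit 2355840) [(nat_lit 408054), (nat_lit 1392920), (nat_lit 0), (nat_lit 0)]) (PF.cons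 (PF.leaf (nat_lit 1846530) (nat_lit 439464) (nat_lit 62339220) (nat_lit 2435301) [(nat_lit 439464), (nat_lit 1455362), (nat_lit 0), (nat_lit 0)]) (PF.cons (PF.leaf (nat_lit 2175780) (nat_lit 469053) (nat_lit
 61672314) (nat_lit 2513222) [(nat_lit 469053), (nat_lit 1516115), (nat_lit 0), (nat_lit 0)]) (PF.cons (PF.leaf (nat_lit 2531508) (nat_lit 496910) (nat_lit 60958459) (nat_lit 2588308) [(nat_lit 496910), (nat_lit 1574401), (nat_lit 0), (nat_lit 0)]) (PF.cons (PF.leaf (nat_lit 2910795) (nat_lit 523079) (nat_lit 60203988) (nat_lit 2659697) [(nat_lit 523079), (nat_lit 1629729), (nat_lit 0), (nat_lit 0)]) (PF.cons (PF.leaf (nat_lit 3310927) (nat_lit 547587) (nat_lit 59414671) (nat_lit 2726825) [(nat_lit 547587), (nat_lit 1681790), (nat_lit 0), (nat_lit 0)]) (PF.cons (PF.leaf (nat_lit 3729338) (nat_lit 570461) (nat_lit 58595852) (nat_lit 2789333) [(nat_lit 570461), (nat_lit 1730399), (nat_lit 0), (nat_lit 0)]) (PF.cons (PF.leaf (nat_lit 4163582) (nat_lit 591728) (nat_lit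 57752507) (nat_lit 2847017) [(nat_lit 591728), (nat_lit 1775462), (nat_lit 0), (nat_lit 0)]) (PF.cons (PF.leaf (nat_lit 4611372) (nat_lit 611422) (nat_lit 56889270) (nat_lit 2899786) [(nat_lit 611422), (nat_lit 1816953), (nat_lit 0), (nat_lit 0)]) (PF.cons PF.nil (PF.cons PF.nil PF.nil)))))))))))) (PF.cons (PF.cons (PF.leaf (nat_lit 2019219) (nat_lit 1504047) (nat_lit 61596103) (nat_lit 2504615) [(nat_lit 0), (nat_lit
 1504047), (nat_lit 0), (nat_lit 0)]) (PF.cons (PF.leaf (nat_lit 2341848) (nat_lit 482232) (nat_lit 60932552) (nat_lit 2574964) [(nat_lit 482232), (nat_lit 1559531), (nat_lit 0), (nat_lit 0)]) (PF.cons (PF.leaf (nat_lit 2691983) (nat_lit 509077) (nat_lit 60221151) (nat_lit 2643232) [(nat_lit 509077), (nat_lit 1613137), (nat_lit 0), (nat_lit 0)]) (PF.cons (PF.leaf (nat_lit 3065818) (nat_lit 534213) (nat_lit 59469304) (nat_lit 2708404) [(nat_lit 534213), (nat_lit 1664231), (nat_lit 0), (nat_lit 0)]) (PF.cons (PF.leaf (nat_lit 3460408) (nat_lit 557697) (nat_lit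 58683361) (nat_lit 2769820) [(nat_lit 557697), (nat_lit 1712421), (nat_lit 0), (nat_lit 0)]) (PF.cons (PF.leaf (nat_lit 3873070) (nat_lit 579570) (nat_lit 57868965) (nat_lit 2827059) [(nat_lit 579570), (nat_lit 1757468), (nat_lit 0), (nat_lit 0)]) (PF.cons (PF.leaf (nat_lit 4301325) (nat_lit 599869) (nat_lit 57031231) (nat_lit 2879874) [(nat_lit 599869), (nat_lit 1799244), (nat_lit 0), (nat_lit 0)]) (PF.cons (PF.leaf (nat_lit 4742862) (nat_lit 618636) (nat_lit 56174829) (nat_lit 2928141) [(nat_lit 618636), (nat_lit 1837693), (nat_lit 0), (nat_lit 0)]) (PF.cons (PF.leaf (nat_lit 5195527) (nat_lit 635913) (nat_lit 55304032)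
 (nat_lit 2971831) [(nat_lit 635913), (nat_lit 1872819), (nat_lit 0), (nat_lit 0)]) (PF.cons PF.nil PF.nil)))))))))) (PF.cons (PF.cons (PF.leaf (nat_lit 2854268) (nat_lit 1649259) (nat_lit 59466833) (nat_lit 2694200) [(nat_lit 0), (nat_lit 1649259), (nat_lit 0), (nat_lit 0)]) (PF.cons (PF.leaf (nat_lit 3220792) (nat_lit 544159) (nat_lit 58722530) (nat_lit 2753369) [(nat_lit 544159), (nat_lit 1696251), (nat_lit 0), (nat_lit 0)]) (PF.cons (PF.leaf (nat_lit 3608739) (nat_lit 566746) (nat_lit 57943840) (nat_lit 2809312) [(nat_lit 566746), (nat_lit 1740722), (nat_lit 0), (nat_lit 0)]) (PF.cons (PF.leaf (nat_lit 4014847) (nat_lit 587723) (nat_lit 57137009) (nat_lit 2861530) [(nat_lit 587723), (nat_lit 1782367), (nat_lit 0), (nat_lit 0)]) (PF.cons (PF.leaf (nat_lit 4436515) (nat_lit 607146) (nat_lit 56307470) (nat_lit 2909720) [(nat_lit 607146), (nat_lit 1821012), (nat_lit 0), (nat_lit 0)]) (PF.cons (PF.leaf (nat_lit 4871363) (nat_lit 625064) (nat_lit 55460046) (nat_lit 2953722)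 [(nat_lit 625064), (nat_lit 1856573), (nat_lit 0), (nat_lit 0)]) (PF.cons (PF.leaf (nat_lit 5317219) (nat_lit 641529) (nat_lit 54599065) (nat_lit 2993475) [(nat_lit 641529), (nat_lit 1889031), (nat_lit 0),
 (nat_lit 0)]) (PF.cons PF.nil (PF.cons PF.nil PF.nil))))))))) (PF.cons (PF.cons (PF.leaf (nat_lit 3757211) (nat_lit 1766870) (nat_lit 57195772) (nat_lit 2845558) [(nat_lit 0), (nat_lit 1766870), (nat_lit 0), (nat_lit 0)]) (PF.cons (PF.leaf (nat_lit 4155492) (nat_lit 594931) (nat_lit 56399943) (nat_lit 2892965) [(nat_lit 594931), (nat_lit 1805243), (nat_lit 0), (nat_lit 0)]) (PF.cons (PF.leaf (nat_lit 4569831) (nat_lit 613573) (nat_lit 55581335) (nat_lit 2936748) [(nat_lit 613573), (nat_lit 1840895), (nat_lit 0), (nat_lit 0)]) (PF.cons (PF.leaf (nat_lit 4997458) (nat_lit 630726) (nat_lit 54745105) (nat_lit 2976700) [(nat_lit 630726), (nat_lit 1873706), (nat_lit 0), (nat_lit 0)]) (PF.cons (PF.leaf (nat_lit 5436126) (nat_lit 646450) (nat_lit 53895749) (nat_lit 3012727)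 [(nat_lit 646450), (nat_lit 1903633), (nat_lit 0), (nat_lit 0)]) (PF.cons (PF.leaf (nat_lit 5883805) (nat_lit 660803) (nat_lit 53037235) (nat_lit 3044821) [(nat_lit 660803), (nat_lit 1930685), (nat_lit 0), (nat_lit 0)]) (PF.cons PF.nil PF.nil))))))) (PF.cons (PF.cons (PF.leaf (nat_lit 4702313) (nat_lit 1859015) (nat_lit 54852594) (nat_lit 2961139) [(nat_lit 0), (nat_lit 1859015), (nat_lit 0), (nat_lit 0)]) (PF.cons
 (PF.leaf (nat_lit 5121838) (nat_lit 635632) (nat_lit 54029937) (nat_lit 2997236) [(nat_lit 635632), (nat_lit 1889201), (nat_lit 0), (nat_lit 0)]) (PF.cons (PF.leaf (nat_lit 5552843) (nat_lit 650691) (nat_lit 53194098) (nat_lit 3029730) [(nat_lit 650691), (nat_lit 1916720), (nat_lit 0), (nat_lit 0)]) (PF.cons (PF.leaf (nat_lit 5992992) (nat_lit 664401) (nat_lit 52349231) (nat_lit 3058582) [(nat_lit 664401), (nat_lit 1941558), (nat_lit 0), (nat_lit 0)]) (PF.cons (PF.leaf (nat_lit 6440404) (nat_lit 676826) (nat_lit 51498941) (nat_lit 3083820) [(nat_lit 676826),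 (nat_lit 1963749), (nat_lit 0), (nat_lit 0)]) PF.nil))))) (PF.cons (PF.cons (PF.leaf (nat_lit 5668199) (nat_lit 1928381) (nat_lit 52493903) (nat_lit 3044619) [(nat_lit 0), (nat_lit 1928381), (nat_lit 0), (nat_lit 0)]) (PF.cons (PF.leaf (nat_lit 6100207) (nat_lit 667396) (nat_lit 51664295) (nat_lit 3070402) [(nat_lit 667396), (nat_lit 1951119), (nat_lit 0), (nat_lit 0)]) (PF.cons (PF.leaf (nat_lit 6539896) (nat_lit 679267) (nat_lit 50829139) (nat_lit 3092832) [(nat_lit 679267), (nat_lit 1971384), (nat_lit 0), (nat_lit 0)]) (PF.cons PF.nil PF.nil)))) (PF.cons (PF.cons (PF.leaf (nat_lit 6637844) (nat_lit 1977883) (nat_lit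
 50163456) (nat_lit 3100173) [(nat_lit 0), (nat_lit 1977883), (nat_lit 0), (nat_lit 0)]) (PF.cons (PF.leaf (nat_lit 7075302) (nat_lit 691373) (nat_lit 49342176) (nat_lit 3116886) [(nat_lit 691373), (nat_lit 1994053), (nat_lit 0), (nat_lit 0)]) PF.nil)) (PF.cons PF.nil (PF.cons PF.nil (PF.cons PF.nil PF.nil))))))))))) (PF.cons (PF.cons (PF.cons (PF.leaf (nat_lit 1925310) (nat_lit 2495451) (nat_lit 61027596) (nat_lit 2495451) [(nat_lit 0), (nat_lit 0), (nat_lit 3585764), (nat_lit 0)]) (PF.cons (PF.leaf (nat_lit 2212067) (nat_lit 459153) (nat_lit 60432979) (nat_lit 2559755) [(nat_lit 459153), (nat_lit 0), (nat_lit 3656923), (nat_lit 0)]) (PF.cons (PF.leaf (nat_lit 2530689) (nat_lit 488152) (nat_lit 59780619) (nat_lit 2623795) [(nat_lit 488152), (nat_lit 0), (nat_lit 3728093), (nat_lit 0)]) (PF.cons (PF.leaf (nat_lit 2876245) (nat_lit 514931) (nat_lit 59080641) (nat_lit 2686014) [(nat_lit 514931), (nat_lit 0), (nat_lit 3797361), (nat_lit 0)]) (PF.cons (PF.leaf (nat_lit 3245183)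 (nat_lit 539736) (nat_lit 58340999) (nat_lit 2745416) [(nat_lit 539736), (nat_lit 0), (nat_lit 3863451), (nat_lit 0)]) (PF.cons (PF.leaf (nat_lit 3634451) (nat_lit 562718) (nat_lit 57568355) (nat_lit 2801353)
 [(nat_lit 562718), (nat_lit 0), (nat_lit 3925509), (nat_lit 0)]) (PF.cons (PF.leaf (nat_lit 4041318) (nat_lit 583984) (nat_lit 56768511) (nat_lit 2853418) [(nat_lit 583984), (nat_lit 0), (nat_lit 3982974), (nat_lit 0)]) (PF.cons (PF.leaf (nat_lit 4463301) (nat_lit 603616) (nat_lit 55946630) (nat_lit 2901366) [(nat_lit 603616), (nat_lit 0), (nat_lit 4035499), (nat_lit 0)]) (PF.cons (PF.leaf (nat_lit 4898119) (nat_lit 621685) (nat_lit 55107352) (nat_lit 2945077) [(nat_lit 621685), (nat_lit 0), (nat_lit 4082898), (nat_lit 0)]) (PF.cons (PF.leaf (nat_lit 5343677) (nat_lit 638256) (nat_lit 54254875) (nat_lit 2984520) [(nat_lit 638256), (nat_lit 0), (nat_lit 4125104), (nat_lit 0)]) (PF.cons PF.nil (PF.cons PF.nil PF.nil)))))))))))) (PF.cons (PF.cons (PF.leaf (nat_lit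 2696984) (nat_lit 1626076) (nat_lit 59018109) (nat_lit 2675587) [(nat_lit 0), (nat_lit 1626076), (nat_lit 3789039), (nat_lit 0)]) (PF.cons (PF.leaf (nat_lit 3033732) (nat_lit 524415) (nat_lit 58329641) (nat_lit 2731646) [(nat_lit 524415), (nat_lit 1672194), (nat_lit 3850914), (nat_lit 0)]) (PF.cons (PF.leaf (nat_lit 3395176) (nat_lit 548478) (nat_lit 57599777) (nat_lit 2785510) [(nat_lit 548478), (nat_lit 1716295), (nat_lit
 3910272), (nat_lit 0)]) (PF.cons (PF.leaf (nat_lit 3777446) (nat_lit 570674) (nat_lit 56836329) (nat_lit 2836405) [(nat_lit 570674), (nat_lit 1757917), (nat_lit 3966137), (nat_lit 0)]) (PF.cons (PF.leaf (nat_lit 4177520) (nat_lit 591142) (nat_lit 56045725) (nat_lit 2883845) [(nat_lit 591142), (nat_lit 1796789), (nat_lit 4017882), (nat_lit 0)]) (PF.cons (PF.leaf (nat_lit 4592773) (nat_lit 609985) (nat_lit 55233468) (nat_lit 2927537) [(nat_lit 609985), (nat_lit 1832763), (nat_lit 4065115), (nat_lit 0)]) (PF.cons (PF.leaf (nat_lit 5020841) (nat_lit 627286)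 (nat_lit 54404375) (nat_lit 2967323) [(nat_lit 627286), (nat_lit 1865775), (nat_lit 4107616), (nat_lit 0)]) (PF.cons (PF.leaf (nat_lit 5459589) (nat_lit 643119) (nat_lit 53562713) (nat_lit 3003146) [(nat_lit 643119), (nat_lit 1895821), (nat_lit 4145294), (nat_lit 0)]) (PF.cons PF.nil (PF.cons PF.nil PF.nil)))))))))) (PF.cons (PF.cons (PF.leaf (nat_lit 3547070) (nat_lit 1743126) (nat_lit 56847085) (nat_lit 2822468) [(nat_lit 0), (nat_lit 1743126), (nat_lit 3953006), (nat_lit 0)]) (PF.cons (PF.leaf (nat_lit 3920621) (nat_lit 577600) (nat_lit 56097066) (nat_lit 2868487) [(nat_lit 577600), (nat_lit 1781376), (nat_lit 4002905), (nat_lit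
 0)]) (PF.cons (PF.leaf (nat_lit 4312883) (nat_lit 597392) (nat_lit 55318947) (nat_lit 2911493) [(nat_lit 597392), (nat_lit 1817201), (nat_lit 4049184), (nat_lit 0)]) (PF.cons (PF.leaf (nat_lit 4720680) (nat_lit 615545) (nat_lit 54518873) (nat_lit 2951126) [(nat_lit 615545), (nat_lit 1850395), (nat_lit 4091387), (nat_lit 0)]) (PF.cons (PF.leaf (nat_lit 5141471) (nat_lit 632161) (nat_lit 53702014) (nat_lit 2987185) [(nat_lit 632161), (nat_lit 1880857), (nat_lit 4129252), (nat_lit 0)]) (PF.cons (PF.leaf (nat_lit 5573027) (nat_lit 647326) (nat_lit 52872829) (nat_lit 3019579) [(nat_lit 647326), (nat_lit 1908557), (nat_lit 4162657), (nat_lit 0)]) (PF.cons (PF.leaf (nat_lit 6013360) (nat_lit 661116) (nat_lit 52035209) (nat_lit 3048299) [(nat_lit 661116), (nat_lit 1933512), (nat_lit 4191578), (nat_lit 0)]) (PF.cons PF.nil (PF.cons PF.nil PF.nil))))))))) (PF.cons (PF.cons (PF.leaf (nat_lit 4448672) (nat_lit 1835877) (nat_lit 54587526) (nat_lit 2936547) [(nat_lit 0), (nat_lit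 1835877), (nat_lit 4077106), (nat_lit 0)]) (PF.cons (PF.leaf (nat_lit 4847825) (nat_lit 620292) (nat_lit 53802508) (nat_lit 2972295) [(nat_lit 620292), (nat_lit 1866399), (nat_lit 4114517), (nat_lit 0)]) (PF.cons
 (PF.leaf (nat_lit 5260674) (nat_lit 636314) (nat_lit 53000110) (nat_lit 3004805) [(nat_lit 636314), (nat_lit 1894426), (nat_lit 4147988), (nat_lit 0)]) (PF.cons (PF.leaf (nat_lit 5684581) (nat_lit 650888) (nat_lit 52185156) (nat_lit 3033949) [(nat_lit 650888), (nat_lit 1919895), (nat_lit 4177356), (nat_lit 0)]) (PF.cons (PF.leaf (nat_lit 6117444) (nat_lit 664101) (nat_lit 51361739) (nat_lit 3059687) [(nat_lit 664101), (nat_lit 1942803), (nat_lit 4202570), (nat_lit 0)]) (PF.cons (PF.leaf (nat_lit 6557419) (nat_lit 676032) (nat_lit 50533386) (nat_lit 3082045) [(nat_lit 676032), (nat_lit 1963186), (nat_lit 4223660), (nat_lit 0)]) (PF.cons PF.nil PF.nil))))))) (PF.cons (PF.cons (PF.leaf (nat_lit 5379439) (nat_lit 1906576) (nat_lit 52298199) (nat_lit 3020320) [(nat_lit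 0), (nat_lit 1906576), (nat_lit 4163989), (nat_lit 0)]) (PF.cons (PF.leaf (nat_lit 5794868) (nat_lit 653805) (nat_lit 51499412) (nat_lit 3046376) [(nat_lit 653805), (nat_lit 1929918), (nat_lit 4189543), (nat_lit 0)]) (PF.cons (PF.leaf (nat_lit 6219845) (nat_lit 666512) (nat_lit 50691697) (nat_lit 3069292) [(nat_lit 666512), (nat_lit 1950882), (nat_lit 4211266), (nat_lit 0)]) (PF.cons (PF.leaf (nat_lit 6652195) (nat_lit
 677948) (nat_lit 49878792) (nat_lit 3089070) [(nat_lit 677948), (nat_lit 1969485), (nat_lit 4229160), (nat_lit 0)]) (PF.cons PF.nil PF.nil))))) (PF.cons (PF.cons (PF.leaf (nat_lit 6321362) (nat_lit 1957819) (nat_lit 50024704) (nat_lit 3077218) [(nat_lit 0), (nat_lit 1957819), (nat_lit 4217793), (nat_lit 0)]) (PF.cons (PF.leaf (nat_lit 6745516) (nat_lit 679356) (nat_lit 49228527) (nat_lit 3094560) [(nat_lit 679356), (nat_lit 1974736), (nat_lit 4232687), (nat_lit 0)]) (PF.cons (PF.leaf (nat_lit 7175859) (nat_lit 689179) (nat_lit 48429898) (nat_lit 3109029)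 [(nat_lit 689179), (nat_lit 1989488), (nat_lit 4244082), (nat_lit 0)]) (PF.cons PF.nil PF.nil)))) (PF.cons (PF.cons (PF.leaf (nat_lit 7260465) (nat_lit 1992292) (nat_lit 47800896) (nat_lit 3110978) [(nat_lit 0), (nat_lit 1992292), (nat_lit 4243183), (nat_lit 0)]) (PF.cons PF.nil PF.nil)) (PF.cons PF.nil (PF.cons PF.nil PF.nil))))))))) (PF.cons (PF.cons (PF.cons (PF.leaf (nat_lit 3363422) (nat_lit 2800114) (nat_lit 56442207) (nat_lit 2800114) [(nat_lit 0), (nat_lit 0), (nat_lit 3933245), (nat_lit 0)]) (PF.cons (PF.leaf (nat_lit 3708800) (nat_lit 557408) (nat_lit 55746966) (nat_lit 2844290) [(nat_lit 557408), (nat_lit 0), (nat_lit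
 3980074), (nat_lit 0)]) (PF.cons (PF.leaf (nat_lit 4076437) (nat_lit 578944) (nat_lit 55016066) (nat_lit 2886224) [(nat_lit 578944), (nat_lit 0), (nat_lit 4024316), (nat_lit 0)]) (PF.cons (PF.leaf (nat_lit 4462382) (nat_lit 598521) (nat_lit 54257397) (nat_lit 2925340) [(nat_lit 598521), (nat_lit 0), (nat_lit 4065254), (nat_lit 0)]) (PF.cons (PF.leaf (nat_lit 4863653) (nat_lit 616343) (nat_lit 53477254) (nat_lit 2961293) [(nat_lit 616343), (nat_lit 0), (nat_lit 4102445), (nat_lit 0)]) (PF.cons (PF.leaf (nat_lit 5277706) (nat_lit 632557) (nat_lit 52680865) (nat_lit 2993891) [(nat_lit 632557), (nat_lit 0), (nat_lit 4135633), (nat_lit 0)]) (PF.cons (PF.leaf (nat_lit 5702314) (nat_lit 647281) (nat_lit 51872686) (nat_lit 3023049) [(nat_lit 647281), (nat_lit 0), (nat_lit 4164693), (nat_lit 0)]) (PF.cons (PF.leaf (nat_lit 6135516) (nat_lit 660612) (nat_lit 51056566) (nat_lit 3048759) [(nat_lit 660612), (nat_lit 0), (nat_lit 4189600), (nat_lit 0)]) (PF.cons PF.nil (PF.cons PF.nil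 PF.nil)))))))))) (PF.cons (PF.cons (PF.leaf (nat_lit 4217117) (nat_lit 1811652) (nat_lit 54279492) (nat_lit 2912050) [(nat_lit 0), (nat_lit 1811652), (nat_lit 4052808), (nat_lit 0)]) (PF.cons (PF.leaf (nat_lit
 4593419) (nat_lit 602988) (nat_lit 53538189) (nat_lit 2947205) [(nat_lit 602988), (nat_lit 1842532), (nat_lit 4088948), (nat_lit 0)]) (PF.cons (PF.leaf (nat_lit 4986146) (nat_lit 620321) (nat_lit 52773976) (nat_lit 2979567) [(nat_lit 620321), (nat_lit 1871108), (nat_lit 4121758), (nat_lit 0)]) (PF.cons (PF.leaf (nat_lit 5392194) (nat_lit 636019) (nat_lit 51992753) (nat_lit 3008890) [(nat_lit 636019), (nat_lit 1897256), (nat_lit 4150927), (nat_lit 0)]) (PF.cons (PF.leaf (nat_lit 5809152) (nat_lit 650220) (nat_lit 51199356) (nat_lit 3035050) [(nat_lit 650220), (nat_lit 1920930), (nat_lit 4176297), (nat_lit 0)]) (PF.cons (PF.leaf (nat_lit 6234921) (nat_lit 663035) (nat_lit 50397855) (nat_lit 3058012) [(nat_lit 663035), (nat_lit 1942138), (nat_lit 4197815), (nat_lit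 0)]) (PF.cons (PF.leaf (nat_lit 6667698) (nat_lit 674559) (nat_lit 49591721) (nat_lit 3077801) [(nat_lit 674559), (nat_lit 1960924), (nat_lit 4215504), (nat_lit 0)]) (PF.cons PF.nil (PF.cons PF.nil PF.nil))))))))) (PF.cons (PF.cons (PF.leaf (nat_lit 5109368) (nat_lit 1883799) (nat_lit 52068751) (nat_lit 2995753) [(nat_lit 0), (nat_lit 1883799), (nat_lit 4138354), (nat_lit 0)]) (PF.cons (PF.leaf (nat_lit 5506306) (nat_lit
 638776) (nat_lit 51305114) (nat_lit 3021949) [(nat_lit 638776), (nat_lit 1907773), (nat_lit 4163712), (nat_lit 0)]) (PF.cons (PF.leaf (nat_lit 5914994) (nat_lit 652540) (nat_lit 50528326) (nat_lit 3045263) [(nat_lit 652540), (nat_lit 1929473), (nat_lit 4185597), (nat_lit 0)]) (PF.cons (PF.leaf (nat_lit 6332928) (nat_lit 664910) (nat_lit 49742842) (nat_lit 3065626) [(nat_lit 664910), (nat_lit 1948879), (nat_lit 4203925), (nat_lit 0)]) (PF.cons (PF.leaf (nat_lit 6758163) (nat_lit 675995) (nat_lit 48952362) (nat_lit 3083040) [(nat_lit 675995), (nat_lit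 1966018), (nat_lit 4218695), (nat_lit 0)]) (PF.cons PF.nil (PF.cons PF.nil PF.nil))))))) (PF.cons (PF.cons (PF.leaf (nat_lit 6020802) (nat_lit 1936869) (nat_lit 49858977) (nat_lit 3053790) [(nat_lit 0), (nat_lit 1936869), (nat_lit 4192717), (nat_lit 0)]) (PF.cons (PF.leaf (nat_lit 6430125) (nat_lit 666234) (nat_lit 49091103) (nat_lit 3071693) [(nat_lit 666234), (nat_lit 1954563), (nat_lit 4208045), (nat_lit 0)]) (PF.cons (PF.leaf (nat_lit 6847429) (nat_lit 676944) (nat_lit 48317476) (nat_lit 3086866) [(nat_lit 676944), (nat_lit 1970141), (nat_lit 4220077), (nat_lit 0)]) (PF.cons (PF.leaf (nat_lit 7270705) (nat_lit 686463) (nat_lit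
 47541450) (nat_lit 3099336) [(nat_lit 686463), (nat_lit 1983643), (nat_lit 4228852), (nat_lit 0)]) (PF.cons PF.nil PF.nil))))) (PF.cons (PF.cons (PF.leaf (nat_lit 6936262) (nat_lit 1973347) (nat_lit 47686578) (nat_lit 3089355) [(nat_lit 0), (nat_lit 1973347), (nat_lit 4219744), (nat_lit 0)]) (PF.cons (PF.leaf (nat_lit 7351434) (nat_lit 686609) (nat_lit 46927907) (nat_lit 3099905) [(nat_lit 686609), (nat_lit 1985504), (nat_lit 4226187), (nat_lit 0)]) (PF.cons (PF.leaf (nat_lit 7771607) (nat_lit 694715) (nat_lit 46168981) (nat_lit 3107994) [(nat_lit 694715), (nat_lit 1995767), (nat_lit 4229667), (nat_lit 0)]) (PF.cons PF.nil PF.nil)))) (PF.cons (PF.cons (PF.leaf (nat_lit 7844236) (nat_lit 1995681) (nat_lit 45577514) (nat_lit 3105776) [(nat_lit 0), (nat_lit 1995681), (nat_lit 4223558), (nat_lit 0)]) (PF.cons PF.nil PF.nil)) (PF.cons PF.nil (PF.cons PF.nil PF.nil)))))))) (PF.cons (PF.cons (PF.cons (PF.leaf (nat_lit 4860763) (nat_lit 2970913) (nat_lit 51798886) (nat_lit 2970913)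 [(nat_lit 0), (nat_lit 0), (nat_lit 4113004), (nat_lit 0)]) (PF.cons (PF.leaf (nat_lit 5236632) (nat_lit 621764) (nat_lit 51076288) (nat_lit 2997085) [(nat_lit 621764), (nat_lit 0), (nat_lit 4137891), (nat_lit
 0)]) (PF.cons (PF.leaf (nat_lit 5627013) (nat_lit 636943) (nat_lit 50335002) (nat_lit 3020692) [(nat_lit 636943), (nat_lit 0), (nat_lit 4159743), (nat_lit 0)]) (PF.cons (PF.leaf (nat_lit 6028885) (nat_lit 650514) (nat_lit 49580604) (nat_lit 3041575) [(nat_lit 650514), (nat_lit 0), (nat_lit 4178363), (nat_lit 0)]) (PF.cons (PF.leaf (nat_lit 6439949) (nat_lit 662641) (nat_lit 48817569) (nat_lit 3059671) [(nat_lit 662641), (nat_lit 0), (nat_lit 4193668), (nat_lit 0)]) (PF.cons (PF.leaf (nat_lit 6858281) (nat_lit 673455) (nat_lit 48049582) (nat_lit 3074982) [(nat_lit 673455), (nat_lit 0), (nat_lit 4205656), (nat_lit 0)]) (PF.cons PF.nil (PF.cons PF.nil (PF.cons PF.nil PF.nil))))))))) (PF.cons (PF.cons (PF.leaf (nat_lit 5738148) (nat_lit 1914846) (nat_lit 49661757)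 (nat_lit 3029855) [(nat_lit 0), (nat_lit 1914846), (nat_lit 4167451), (nat_lit 0)]) (PF.cons (PF.leaf (nat_lit 6130693) (nat_lit 651666) (nat_lit 48926345) (nat_lit 3048238) [(nat_lit 651666), (nat_lit 1933370), (nat_lit 4183064), (nat_lit 0)]) (PF.cons (PF.leaf (nat_lit 6533372) (nat_lit 663489) (nat_lit 48181051) (nat_lit 3064065) [(nat_lit 663489), (nat_lit 1949830), (nat_lit 4195628), (nat_lit 0)]) (PF.cons (PF.leaf
 (nat_lit 6943848) (nat_lit 673982) (nat_lit 47429963) (nat_lit 3077312) [(nat_lit 673982), (nat_lit 1964240), (nat_lit 4205116), (nat_lit 0)]) (PF.cons (PF.leaf (nat_lit 7360289) (nat_lit 683265) (nat_lit 46676410) (nat_lit 3088007) [(nat_lit 683265), (nat_lit 1976646), (nat_lit 4211562), (nat_lit 0)]) (PF.cons PF.nil (PF.cons PF.nil PF.nil))))))) (PF.cons (PF.cons (PF.leaf (nat_lit 6627148) (nat_lit 1953453) (nat_lit 47547252) (nat_lit 3067108) [(nat_lit 0), (nat_lit 1953453), (nat_lit 4195848), (nat_lit 0)]) (PF.cons (PF.leaf (nat_lit 7029027) (nat_lit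 674032) (nat_lit 46814388) (nat_lit 3078408) [(nat_lit 674032), (nat_lit 1966494), (nat_lit 4202998), (nat_lit 0)]) (PF.cons (PF.leaf (nat_lit 7437637) (nat_lit 683051) (nat_lit 46078106) (nat_lit 3087337) [(nat_lit 683051), (nat_lit 1977656), (nat_lit 4207317), (nat_lit 0)]) (PF.cons (PF.leaf (nat_lit 7851104) (nat_lit 690956) (nat_lit 45341411) (nat_lit 3093941) [(nat_lit 690956), (nat_lit 1986993), (nat_lit 4208867), (nat_lit 0)]) (PF.cons PF.nil PF.nil))))) (PF.cons (PF.cons (PF.leaf (nat_lit 7514958) (nat_lit 1977928) (nat_lit 45484271) (nat_lit 3085603) [(nat_lit 0), (nat_lit 1977928), (nat_lit 4201717), (nat_lit 0)])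
 (PF.cons (PF.leaf (nat_lit 7920502) (nat_lit 690104) (nat_lit 44764977) (nat_lit 3090705) [(nat_lit 690104), (nat_lit 1986201), (nat_lit 4201473), (nat_lit 0)]) (PF.cons PF.nil (PF.cons PF.nil PF.nil)))) (PF.cons (PF.cons (PF.leaf (nat_lit 8392046) (nat_lit 1990482) (nat_lit 43492587) (nat_lit 3088282) [(nat_lit 0), (nat_lit 1990482), (nat_lit 4188670), (nat_lit 0)]) (PF.cons PF.nil PF.nil)) (PF.cons PF.nil PF.nil)))))) (PF.cons (PF.cons (PF.cons (PF.leaf (nat_lit 6335107) (nat_lit 3044178) (nat_lit 47378685) (nat_lit 3044178) [(nat_lit 0), (nat_lit 0), (nat_lit 4171487), (nat_lit 0)]) (PF.cons (PF.leaf (nat_lit 6721738) (nat_lit 660018) (nat_lit 46675582) (nat_lit 3056190) [(nat_lit 660018), (nat_lit 0), (nat_lit 4179255), (nat_lit 0)]) (PF.cons (PF.leaf (nat_lit 7117204) (nat_lit 670178) (nat_lit 45965100) (nat_lit 3065940) [(nat_lit 670178), (nat_lit 0), (nat_lit 4184353), (nat_lit 0)]) (PF.cons (PF.leaf (nat_lit 7519268) (nat_lit 679074) (nat_lit 45250972) (nat_lit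 3073437) [(nat_lit 679074), (nat_lit 0), (nat_lit 4186795), (nat_lit 0)]) (PF.cons (PF.leaf (nat_lit 7926245) (nat_lit 686834) (nat_lit 44536193) (nat_lit 3078730) [(nat_lit 686834), (nat_lit 0), (nat_lit 4186638),
 (nat_lit 0)]) (PF.cons PF.nil (PF.cons PF.nil PF.nil))))))) (PF.cons (PF.cons (PF.leaf (nat_lit 7199930) (nat_lit 1959191) (nat_lit 45367929) (nat_lit 3064700) [(nat_lit 0), (nat_lit 1959191), (nat_lit 4179247), (nat_lit 0)]) (PF.cons (PF.leaf (nat_lit 7593535) (nat_lit 678112) (nat_lit 44672061) (nat_lit 3070672) [(nat_lit 678112), (nat_lit 1968408), (nat_lit 4179889), (nat_lit 0)]) (PF.cons (PF.leaf (nat_lit 7992862) (nat_lit 685700) (nat_lit 43974466) (nat_lit 3074584) [(nat_lit 685700), (nat_lit 1975958), (nat_lit 4178100), (nat_lit 0)]) (PF.cons PF.nil (PF.cons PF.nil PF.nil))))) (PF.cons (PF.cons (PF.leaf (nat_lit 8059816) (nat_lit 1973937) (nat_lit 43417376) (nat_lit 3069593) [(nat_lit 0), (nat_lit 1973937), (nat_lit 4168492), (nat_lit 0)]) (PF.cons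 (PF.leaf (nat_lit 8455434) (nat_lit 690611) (nat_lit 42737803) (nat_lit 3070342) [(nat_lit 690611), (nat_lit 1979048), (nat_lit 4162989), (nat_lit 0)]) (PF.cons PF.nil (PF.cons PF.nil PF.nil)))) (PF.cons (PF.cons (PF.leaf (nat_lit 8906816) (nat_lit 1978637) (nat_lit 41542011) (nat_lit 3061435) [(nat_lit 0), (nat_lit 1978637), (nat_lit 4142363), (nat_lit 0)]) (PF.cons PF.nil PF.nil)) (PF.cons PF.nil PF.nil))))) (PF.cons (PF.cons
 (PF.cons (PF.leaf (nat_lit 7741029) (nat_lit 3050102) (nat_lit 43320882) (nat_lit 3050102) [(nat_lit 0), (nat_lit 0), (nat_lit 4147565), (nat_lit 0)]) (PF.cons (PF.leaf (nat_lit 8125879) (nat_lit 679217) (nat_lit 42662520) (nat_lit 3051790) [(nat_lit 679217), (nat_lit 0), (nat_lit 4143056), (nat_lit 0)]) (PF.cons (PF.leaf (nat_lit 8515654) (nat_lit 685595) (nat_lit 42003632) (nat_lit 3051687) [(nat_lit 685595), (nat_lit 0), (nat_lit 4136460), (nat_lit 0)]) (PF.cons PF.nil PF.nil)))) (PF.cons (PF.cons (PF.leaf (nat_lit 8573319) (nat_lit 1963275)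 (nat_lit 41482143) (nat_lit 3044205) [(nat_lit 0), (nat_lit 1963275), (nat_lit 4123837), (nat_lit 0)]) (PF.cons (PF.leaf (nat_lit 8958949) (nat_lit 688753) (nat_lit 40841609) (nat_lit 3041493) [(nat_lit 688753), (nat_lit 1965818), (nat_lit 4114227), (nat_lit 0)]) PF.nil)) (PF.cons PF.nil PF.nil))) (PF.cons (PF.cons (PF.cons (PF.leaf (nat_lit 9057934) (nat_lit 3011727) (nat_lit 39672768) (nat_lit 3011727) [(nat_lit 0), (nat_lit 0), (nat_lit 4070719), (nat_lit 0)]) (PF.cons PF.nil PF.nil)) (PF.cons PF.nil PF.nil)) (PF.cons PF.nil (PF.cons PF.nil PF.nil))))))))) (PF.cons (PF.cons (PF.cons (PF.cons (PF.leaf (nat_lit 2958592) (nat_lit 2672021)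
 (nat_lit 55190938) (nat_lit 2672021) [(nat_lit 0), (nat_lit 0), (nat_lit 0), (nat_lit 9245852)]) (PF.cons (PF.leaf (nat_lit 3250815) (nat_lit 498608) (nat_lit 54619719) (nat_lit 2718578) [(nat_lit 498608), (nat_lit 0), (nat_lit 0), (nat_lit 9271907)]) (PF.cons (PF.leaf (nat_lit 3571747) (nat_lit 524909) (nat_lit 53999814) (nat_lit 2763949) [(nat_lit 524909), (nat_lit 0), (nat_lit 0), (nat_lit 9295230)]) (PF.cons (PF.leaf (nat_lit 3916071) (nat_lit 548483) (nat_lit 53341628) (nat_lit 2807099) [(nat_lit 548483), (nat_lit 0), (nat_lit 0), (nat_lit 9314635)]) (PF.cons (PF.leaf (nat_lit 4280086) (nat_lit 569755) (nat_lit 52653054) (nat_lit 2847419) [(nat_lit 569755), (nat_lit 0), (nat_lit 0), (nat_lit 9329317)]) (PF.cons (PF.leaf (nat_lit 4660690) (nat_lit 589011) (nat_lit 51940444) (nat_lit 2884562) [(nat_lit 589011), (nat_lit 0), (nat_lit 0), (nat_lit 9338749)]) (PF.cons (PF.leaf (nat_lit 5055302) (nat_lit 606460) (nat_lit 51209094) (nat_lit 2918341) [(nat_lit 606460),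 (nat_lit 0), (nat_lit 0), (nat_lit 9342611)]) (PF.cons (PF.leaf (nat_lit 5461623) (nat_lit 622265) (nat_lit 50463524) (nat_lit 2948684) [(nat_lit 622265), (nat_lit 0), (nat_lit 0), (nat_lit 9340748)]) (PF.cons (PF.leaf
 (nat_lit 5877651) (nat_lit 636555) (nat_lit 49707647) (nat_lit 2975590) [(nat_lit 636555), (nat_lit 0), (nat_lit 0), (nat_lit 9333131)]) (PF.cons (PF.leaf (nat_lit 6301552) (nat_lit 649443) (nat_lit 48944874) (nat_lit 2999114) [(nat_lit 649443), (nat_lit 0), (nat_lit 0), (nat_lit 9319830)]) (PF.cons (PF.leaf (nat_lit 6731701) (nat_lit 661027) (nat_lit 48178195) (nat_lit 3019346) [(nat_lit 661027), (nat_lit 0), (nat_lit 0), (nat_lit 9300992)]) (PF.cons PF.nil (PF.cons PF.nil (PF.cons PF.nil PF.nil)))))))))))))) (PF.cons (PF.cons (PF.leaf (nat_lit 3719214) (nat_lit 1714082) (nat_lit 53292521) (nat_lit 2795201) [(nat_lit 0), (nat_lit 1714082), (nat_lit 0), (nat_lit 9307006)]) (PF.cons (PF.leaf (nat_lit 4053007) (nat_lit 553819) (nat_lit 52651409) (nat_lit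 2833727) [(nat_lit 553819), (nat_lit 1749220), (nat_lit 0), (nat_lit 9320635)]) (PF.cons (PF.leaf (nat_lit 4408122) (nat_lit 574595) (nat_lit 51977693) (nat_lit 2869962) [(nat_lit 574595), (nat_lit 1782108), (nat_lit 0), (nat_lit 9329857)]) (PF.cons (PF.leaf (nat_lit 4780657) (nat_lit 593310) (nat_lit 51278789) (nat_lit 2903442) [(nat_lit 593310), (nat_lit 1812511), (nat_lit 0), (nat_lit 9334138)]) (PF.cons (PF.leaf (nat_lit
 5167702) (nat_lit 610205) (nat_lit 50560583) (nat_lit 2933910) [(nat_lit 610205), (nat_lit 1840335), (nat_lit 0), (nat_lit 9333164)]) (PF.cons (PF.leaf (nat_lit 5566796) (nat_lit 625459) (nat_lit 49827923) (nat_lit 2961244) [(nat_lit 625459), (nat_lit 1865561), (nat_lit 0), (nat_lit 9326784)]) (PF.cons (PF.leaf (nat_lit 5975806) (nat_lit 639216) (nat_lit 49084905) (nat_lit 2985408) [(nat_lit 639216), (nat_lit 1888225), (nat_lit 0), (nat_lit 9314973)]) (PF.cons (PF.leaf (nat_lit 6392876) (nat_lit 651593) (nat_lit 48335035) (nat_lit 3006429) [(nat_lit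 651593), (nat_lit 1908391), (nat_lit 0), (nat_lit 9297799)]) (PF.cons (PF.leaf (nat_lit 6816315) (nat_lit 662692) (nat_lit 47581344) (nat_lit 3024376) [(nat_lit 662692), (nat_lit 1926146), (nat_lit 0), (nat_lit 9275406)]) (PF.cons (PF.leaf (nat_lit 7244663) (nat_lit 672602) (nat_lit 46826462) (nat_lit 3039348) [(nat_lit 672602), (nat_lit 1941588), (nat_lit 0), (nat_lit 9247989)]) (PF.cons PF.nil (PF.cons PF.nil PF.nil)))))))))))) (PF.cons (PF.cons (PF.leaf (nat_lit 4538340) (nat_lit 1798087) (nat_lit 51296538) (nat_lit 2890283) [(nat_lit 0), (nat_lit 1798087), (nat_lit 0), (nat_lit 9325816)]) (PF.cons (PF.leaf (nat_lit 4901289)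
 (nat_lit 596766) (nat_lit 50614566) (nat_lit 2920253) [(nat_lit 596766), (nat_lit 1825950), (nat_lit 0), (nat_lit 9325326)]) (PF.cons (PF.leaf (nat_lit 5279906) (nat_lit 613226) (nat_lit 49911874) (nat_lit 2947569) [(nat_lit 613226), (nat_lit 1851515), (nat_lit 0), (nat_lit 9319885)]) (PF.cons (PF.leaf (nat_lit 5671171) (nat_lit 628025) (nat_lit 49193917) (nat_lit 2972051) [(nat_lit 628025), (nat_lit 1874712), (nat_lit 0), (nat_lit 9309341)]) (PF.cons (PF.leaf (nat_lit 6072763) (nat_lit 641324) (nat_lit 48465138) (nat_lit 2993623) [(nat_lit 641324), (nat_lit 1895540), (nat_lit 0), (nat_lit 9293670)]) (PF.cons (PF.leaf (nat_lit 6482693) (nat_lit 653253) (nat_lit 47729246) (nat_lit 3012284) [(nat_lit 653253), (nat_lit 1914037), (nat_lit 0), (nat_lit 9272938)]) (PF.cons (PF.leaf (nat_lit 6899235) (nat_lit 663920) (nat_lit 46989381) (nat_lit 3028080) [(nat_lit 663920), (nat_lit 1930271), (nat_lit 0), (nat_lit 9247285)]) (PF.cons (PF.leaf (nat_lit 7320866) (nat_lit 673419)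 (nat_lit 46248233) (nat_lit 3041090) [(nat_lit 673419), (nat_lit 1944327), (nat_lit 0), (nat_lit 9216899)]) (PF.cons PF.nil (PF.cons PF.nil PF.nil)))))))))) (PF.cons (PF.cons (PF.leaf (nat_lit 5393125) (nat_lit
 1861466) (nat_lit 49262078) (nat_lit 2959440) [(nat_lit 0), (nat_lit 1861466), (nat_lit 0), (nat_lit 9302895)]) (PF.cons (PF.leaf (nat_lit 5775507) (nat_lit 629949) (nat_lit 48560925) (nat_lit 2981210) [(nat_lit 629949), (nat_lit 1882726), (nat_lit 0), (nat_lit 9288549)]) (PF.cons (PF.leaf (nat_lit 6169105) (nat_lit 642875) (nat_lit 47847950) (nat_lit 3000329) [(nat_lit 642875), (nat_lit 1901808), (nat_lit 0), (nat_lit 9269354)]) (PF.cons (PF.leaf (nat_lit 6571505) (nat_lit 654424) (nat_lit 47127219) (nat_lit 3016763) [(nat_lit 654424), (nat_lit 1918725), (nat_lit 0), (nat_lit 9245379)]) (PF.cons (PF.leaf (nat_lit 6980872) (nat_lit 664716) (nat_lit 46402085) (nat_lit 3030532) [(nat_lit 664716), (nat_lit 1933524), (nat_lit 0), (nat_lit 9216755)]) (PF.cons (PF.leaf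 (nat_lit 7395598) (nat_lit 673851) (nat_lit 45675362) (nat_lit 3041699) [(nat_lit 673851), (nat_lit 1946274), (nat_lit 0), (nat_lit 9183669)]) (PF.cons (PF.leaf (nat_lit 7814280) (nat_lit 681919) (nat_lit 44949429) (nat_lit 3050352) [(nat_lit 681919), (nat_lit 1957058), (nat_lit 0), (nat_lit 9146338)]) (PF.cons PF.nil (PF.cons PF.nil PF.nil))))))))) (PF.cons (PF.cons (PF.leaf (nat_lit 6265759) (nat_lit 1907093) (nat_lit
 47232697) (nat_lit 3005612) [(nat_lit 0), (nat_lit 1907093), (nat_lit 0), (nat_lit 9242130)]) (PF.cons (PF.leaf (nat_lit 6659890) (nat_lit 655099) (nat_lit 46528496) (nat_lit 3019941) [(nat_lit 655099), (nat_lit 1922511), (nat_lit 0), (nat_lit 9215228)]) (PF.cons (PF.leaf (nat_lit 7061706) (nat_lit 665078) (nat_lit 45819112) (nat_lit 3031802) [(nat_lit 665078), (nat_lit 1935953), (nat_lit 0), (nat_lit 9183926)]) (PF.cons (PF.leaf (nat_lit 7469271) (nat_lit 673902) (nat_lit 45107576) (nat_lit 3041237) [(nat_lit 673902), (nat_lit 1947471), (nat_lit 0),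 (nat_lit 9148406)]) (PF.cons (PF.leaf (nat_lit 7881109) (nat_lit 681667) (nat_lit 44396403) (nat_lit 3048317) [(nat_lit 681667), (nat_lit 1957135), (nat_lit 0), (nat_lit 9108879)]) (PF.cons PF.nil (PF.cons PF.nil PF.nil))))))) (PF.cons (PF.cons (PF.leaf (nat_lit 7142476) (nat_lit 1937602) (nat_lit 45239962) (nat_lit 3031954) [(nat_lit 0), (nat_lit 1937602), (nat_lit 0), (nat_lit 9148883)]) (PF.cons (PF.leaf (nat_lit 7542340) (nat_lit 673568) (nat_lit 44544493) (nat_lit 3039762) [(nat_lit 673568), (nat_lit 1947958), (nat_lit 0), (nat_lit 9111196)]) (PF.cons (PF.leaf (nat_lit 7947094) (nat_lit 681077) (nat_lit 43848726) (nat_lit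
 3045368) [(nat_lit 681077), (nat_lit 1956569), (nat_lit 0), (nat_lit 9069715)]) (PF.cons (PF.leaf (nat_lit 8355183) (nat_lit 687615) (nat_lit 43154908) (nat_lit 3048851) [(nat_lit 687615), (nat_lit 1963507), (nat_lit 0), (nat_lit 9024671)]) (PF.cons PF.nil PF.nil))))) (PF.cons (PF.cons (PF.leaf (nat_lit 8012848) (nat_lit 1955392) (nat_lit 43305987) (nat_lit 3041551) [(nat_lit 0), (nat_lit 1955392), (nat_lit 0), (nat_lit 9028916)]) (PF.cons (PF.leaf (nat_lit 8413795) (nat_lit 686476) (nat_lit 42627600) (nat_lit 3043787) [(nat_lit 686476), (nat_lit 1961434), (nat_lit 0), (nat_lit 8982344)]) (PF.cons PF.nil (PF.cons PF.nil PF.nil)))) (PF.cons (PF.cons (PF.leaf (nat_lit 8869198) (nat_lit 1962610) (nat_lit 41445493) (nat_lit 3037262) [(nat_lit 0), (nat_lit 1962610), (nat_lit 0), (nat_lit 8887784)]) (PF.cons PF.nil PF.nil)) (PF.cons PF.nil PF.nil))))))))) (PF.cons (PF.cons (PF.cons (PF.leaf (nat_lit 4330486) (nat_lit 2863390) (nat_lit 50959162) (nat_lit 2863390) [(nat_lit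 0), (nat_lit 0), (nat_lit 3993240), (nat_lit 9293019)]) (PF.cons (PF.leaf (nat_lit 4667927) (nat_lit 575707) (nat_lit 50327010) (nat_lit 2893118) [(nat_lit 575707), (nat_lit 0), (nat_lit 4021128), (nat_lit 9291848)])
 (PF.cons (PF.leaf (nat_lit 5024721) (nat_lit 594301) (nat_lit 49666679) (nat_lit 2920644) [(nat_lit 594301), (nat_lit 0), (nat_lit 4046588), (nat_lit 9286297)]) (PF.cons (PF.leaf (nat_lit 5397002) (nat_lit 610832) (nat_lit 48985369) (nat_lit 2945634) [(nat_lit 610832), (nat_lit 0), (nat_lit 4069210), (nat_lit 9276100)]) (PF.cons (PF.leaf (nat_lit 5781936) (nat_lit 625580) (nat_lit 48288667) (nat_lit 2967919) [(nat_lit 625580), (nat_lit 0), (nat_lit 4088767), (nat_lit 9261137)]) (PF.cons (PF.leaf (nat_lit 6177163) (nat_lit 638750) (nat_lit 47581078) (nat_lit 2987430) [(nat_lit 638750), (nat_lit 0), (nat_lit 4105152), (nat_lit 9241399)]) (PF.cons (PF.leaf (nat_lit 6580721) (nat_lit 650500) (nat_lit 46866331) (nat_lit 3004170) [(nat_lit 650500), (nat_lit 0),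 (nat_lit 4118343), (nat_lit 9216962)]) (PF.cons (PF.leaf (nat_lit 6990849) (nat_lit 660960) (nat_lit 46147564) (nat_lit 3018186) [(nat_lit 660960), (nat_lit 0), (nat_lit 4128379), (nat_lit 9187960)]) (PF.cons (PF.leaf (nat_lit 7406038) (nat_lit 670236) (nat_lit 45427439) (nat_lit 3029559) [(nat_lit 670236), (nat_lit 0), (nat_lit 4135340), (nat_lit 9154579)]) (PF.cons PF.nil PF.nil)))))))))) (PF.cons (PF.cons (PF.leaf (nat_lit
 5144504) (nat_lit 1836345) (nat_lit 49011955) (nat_lit 2933409) [(nat_lit 0), (nat_lit 1836345), (nat_lit 4058138), (nat_lit 9268964)]) (PF.cons (PF.leaf (nat_lit 5506782) (nat_lit 612524) (nat_lit 48349372) (nat_lit 2955584) [(nat_lit 612524), (nat_lit 1858638), (nat_lit 4077503), (nat_lit 9255189)]) (PF.cons (PF.leaf (nat_lit 5882995) (nat_lit 626994) (nat_lit 47669686) (nat_lit 2975343) [(nat_lit 626994), (nat_lit 1878804), (nat_lit 4094107), (nat_lit 9236882)]) (PF.cons (PF.leaf (nat_lit 6270222) (nat_lit 639849) (nat_lit 46978027) (nat_lit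 2992574) [(nat_lit 639849), (nat_lit 1896819), (nat_lit 4107804), (nat_lit 9214039)]) (PF.cons (PF.leaf (nat_lit 6666269) (nat_lit 651269) (nat_lit 46278493) (nat_lit 3007247) [(nat_lit 651269), (nat_lit 1912710), (nat_lit 4118546), (nat_lit 9186738)]) (PF.cons (PF.leaf (nat_lit 7069274) (nat_lit 661397) (nat_lit 45574441) (nat_lit 3019385) [(nat_lit 661397), (nat_lit 1926533), (nat_lit 4126349), (nat_lit 9155116)]) (PF.cons (PF.leaf (nat_lit 7477648) (nat_lit 670349) (nat_lit 44868668) (nat_lit 3029051) [(nat_lit 670349), (nat_lit 1938365), (nat_lit 4131276), (nat_lit 9119353)]) (PF.cons (PF.leaf (nat_lit 7890005) (nat_lit 678225) (nat_lit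
 44163528) (nat_lit 3036330) [(nat_lit 678225), (nat_lit 1948296), (nat_lit 4133421), (nat_lit 9079658)]) (PF.cons PF.nil PF.nil))))))))) (PF.cons (PF.cons (PF.leaf (nat_lit 5985376) (nat_lit 1884654) (nat_lit 47050947) (nat_lit 2981327) [(nat_lit 0), (nat_lit 1884654), (nat_lit 4097605), (nat_lit 9209623)]) (PF.cons (PF.leaf (nat_lit 6363592) (nat_lit 640385) (nat_lit 46377022) (nat_lit 2996397) [(nat_lit 640385), (nat_lit 1901111), (nat_lit 4108777), (nat_lit 9184007)]) (PF.cons (PF.leaf (nat_lit 6751589) (nat_lit 651554) (nat_lit 45694011) (nat_lit 3009119) [(nat_lit 651554), (nat_lit 1915601), (nat_lit 4117224), (nat_lit 9154144)]) (PF.cons (PF.leaf (nat_lit 7147097) (nat_lit 661414) (nat_lit 45005642) (nat_lit 3019490) [(nat_lit 661414), (nat_lit 1928159), (nat_lit 4122940), (nat_lit 9120175)]) (PF.cons (PF.leaf (nat_lit 7548394) (nat_lit 670095) (nat_lit 44314939) (nat_lit 3027552) [(nat_lit 670095), (nat_lit 1938845), (nat_lit 4125969), (nat_lit 9082279)]) (PF.cons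 (PF.leaf (nat_lit 7954007) (nat_lit 677702) (nat_lit 43624398) (nat_lit 3033377) [(nat_lit 677702), (nat_lit 1947734), (nat_lit 4126392), (nat_lit 9040662)]) (PF.cons PF.nil PF.nil))))))) (PF.cons (PF.cons
 (PF.leaf (nat_lit 6837568) (nat_lit 1917696) (nat_lit 45112180) (nat_lit 3009847) [(nat_lit 0), (nat_lit 1917696), (nat_lit 4114450), (nat_lit 9119243)]) (PF.cons (PF.leaf (nat_lit 7224864) (nat_lit 661002) (nat_lit 44440650) (nat_lit 3018556) [(nat_lit 661002), (nat_lit 1929058), (nat_lit 4118220), (nat_lit 9083208)]) (PF.cons (PF.leaf (nat_lit 7618721) (nat_lit 669467) (nat_lit 43765856) (nat_lit 3025115) [(nat_lit 669467), (nat_lit 1938663), (nat_lit 4119483), (nat_lit 9043431)]) (PF.cons (PF.leaf (nat_lit 8017344) (nat_lit 676854) (nat_lit 43090524) (nat_lit 3029578) [(nat_lit 676854), (nat_lit 1946573), (nat_lit 4118305), (nat_lit 9000119)]) (PF.cons (PF.leaf (nat_lit 8419371) (nat_lit 683261) (nat_lit 42416882) (nat_lit 3032023) [(nat_lit 683261), (nat_lit 1952862),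 (nat_lit 4114777), (nat_lit 8953495)]) PF.nil))))) (PF.cons (PF.cons (PF.leaf (nat_lit 7689340) (nat_lit 1937853) (nat_lit 43220880) (nat_lit 3021784) [(nat_lit 0), (nat_lit 1937853), (nat_lit 4111871), (nat_lit 9002862)]) (PF.cons (PF.leaf (nat_lit 8080442) (nat_lit 675674) (nat_lit 42561488) (nat_lit 3024976) [(nat_lit 675674), (nat_lit 1944843), (nat_lit 4109212), (nat_lit 8958086)]) (PF.cons (PF.leaf (nat_lit
 8475602) (nat_lit 681905) (nat_lit 41903022) (nat_lit 3026271) [(nat_lit 681905), (nat_lit 1950301), (nat_lit 4104344), (nat_lit 8910155)]) (PF.cons PF.nil PF.nil)))) (PF.cons (PF.cons (PF.leaf (nat_lit 8531949) (nat_lit 1947252) (nat_lit 41394090) (nat_lit 3019833) [(nat_lit 0), (nat_lit 1947252), (nat_lit 4093055), (nat_lit 8865573)]) (PF.cons (PF.leaf (nat_lit 8922838) (nat_lit 685451) (nat_lit 40753549) (nat_lit 3018350) [(nat_lit 685451), (nat_lit 1950548), (nat_lit 4084967), (nat_lit 8813751)]) PF.nil)) (PF.cons PF.nil (PF.cons PF.nil PF.nil)))))))) (PF.cons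 (PF.cons (PF.cons (PF.leaf (nat_lit 5725340) (nat_lit 2956220) (nat_lit 46833636) (nat_lit 2956220) [(nat_lit 0), (nat_lit 0), (nat_lit 4071636), (nat_lit 9175682)]) (PF.cons (PF.leaf (nat_lit 6085007) (nat_lit 623603) (nat_lit 46195303) (nat_lit 2971977) [(nat_lit 623603), (nat_lit 0), (nat_lit 4083268), (nat_lit 9151393)]) (PF.cons (PF.leaf (nat_lit 6457143) (nat_lit 636340) (nat_lit 45542787) (nat_lit 2985541) [(nat_lit 636340), (nat_lit 0), (nat_lit 4092401), (nat_lit 9122999)]) (PF.cons (PF.leaf (nat_lit 6838938) (nat_lit 647517) (nat_lit 44880878) (nat_lit 2996852) [(nat_lit 647517), (nat_lit 0), (nat_lit 4098960),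
 (nat_lit 9090608)]) (PF.cons (PF.leaf (nat_lit 7228309) (nat_lit 657328) (nat_lit 44213339) (nat_lit 3005912) [(nat_lit 657328), (nat_lit 0), (nat_lit 4102941), (nat_lit 9054366)]) (PF.cons (PF.leaf (nat_lit 7623519) (nat_lit 665923) (nat_lit 43543203) (nat_lit 3012766) [(nat_lit 665923), (nat_lit 0), (nat_lit 4104386), (nat_lit 9014454)]) (PF.cons (PF.leaf (nat_lit 8023096) (nat_lit 673424) (nat_lit 42872962) (nat_lit 3017484) [(nat_lit 673424), (nat_lit 0), (nat_lit 4103372), (nat_lit 8971074)]) (PF.cons PF.nil (PF.cons PF.nil PF.nil))))))))) (PF.cons (PF.cons (PF.leaf (nat_lit 6549348) (nat_lit 1896503) (nat_lit 44956953) (nat_lit 2986884) [(nat_lit 0), (nat_lit 1896503), (nat_lit 4090200), (nat_lit 9088070)]) (PF.cons (PF.leaf (nat_lit 6922128) (nat_lit 646942) (nat_lit 44313078) (nat_lit 2996484) [(nat_lit 646942), (nat_lit 1908969), (nat_lit 4094793), (nat_lit 9053750)]) (PF.cons (PF.leaf (nat_lit 7303519) (nat_lit 656603) (nat_lit 43662229) (nat_lit 3004004) [(nat_lit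 656603), (nat_lit 1919660), (nat_lit 4096991), (nat_lit 9015728)]) (PF.cons (PF.leaf (nat_lit 7691350) (nat_lit 665023) (nat_lit 43007817) (nat_lit 3009465) [(nat_lit 665023), (nat_lit 1928626), (nat_lit
 4096819), (nat_lit 8974194)]) (PF.cons (PF.leaf (nat_lit 8084017) (nat_lit 672336) (nat_lit 42352568) (nat_lit 3012925) [(nat_lit 672336), (nat_lit 1935936), (nat_lit 4094341), (nat_lit 8929353)]) (PF.cons (PF.leaf (nat_lit 8480164) (nat_lit 678655) (nat_lit 41698701) (nat_lit 3014457) [(nat_lit 678655), (nat_lit 1941668), (nat_lit 4089642), (nat_lit 8881422)]) (PF.cons PF.nil PF.nil))))))) (PF.cons (PF.cons (PF.leaf (nat_lit 7379698) (nat_lit 1919234) (nat_lit 43114148) (nat_lit 3001176) [(nat_lit 0), (nat_lit 1919234), (nat_lit 4089876), (nat_lit 8975265)]) (PF.cons (PF.leaf (nat_lit 7759455) (nat_lit 663745) (nat_lit 42476449) (nat_lit 3005335) [(nat_lit 663745), (nat_lit 1927252), (nat_lit 4088209), (nat_lit 8932357)]) (PF.cons (PF.leaf (nat_lit 8144861) (nat_lit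 670926) (nat_lit 41836893) (nat_lit 3007620) [(nat_lit 670926), (nat_lit 1933708), (nat_lit 4084378), (nat_lit 8886273)]) (PF.cons (PF.leaf (nat_lit 8534240) (nat_lit 677098) (nat_lit 41197935) (nat_lit 3008092) [(nat_lit 677098), (nat_lit 1938668), (nat_lit 4078458), (nat_lit 8837235)]) (PF.cons PF.nil PF.nil))))) (PF.cons (PF.cons (PF.leaf (nat_lit 8206313) (nat_lit 1930972) (nat_lit 41325387) (nat_lit 3001602)
 [(nat_lit 0), (nat_lit 1930972), (nat_lit 4073521), (nat_lit 8841862)]) (PF.cons (PF.leaf (nat_lit 8588394) (nat_lit 675252) (nat_lit 40701954) (nat_lit 3001090) [(nat_lit 675252), (nat_lit 1935212), (nat_lit 4066481), (nat_lit 8791916)]) (PF.cons (PF.leaf (nat_lit 8973868) (nat_lit 680407) (nat_lit 40080278) (nat_lit 2998943) [(nat_lit 680407), (nat_lit 1938103), (nat_lit 4057558), (nat_lit 8739350)]) (PF.cons PF.nil PF.nil)))) (PF.cons (PF.cons (PF.leaf (nat_lit 9021816) (nat_lit 1933604) (nat_lit 39603778) (nat_lit 2990512) [(nat_lit 0), (nat_lit 1933604),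 (nat_lit 4043900), (nat_lit 8692301)]) (PF.cons (PF.leaf (nat_lit 9402727) (nat_lit 682439) (nat_lit 39000036) (nat_lit 2986077) [(nat_lit 682439), (nat_lit 1934675), (nat_lit 4032370), (nat_lit 8636814)]) PF.nil)) (PF.cons PF.nil PF.nil)))))) (PF.cons (PF.cons (PF.cons (PF.leaf (nat_lit 7085876) (nat_lit 2979630) (nat_lit 42982071) (nat_lit 2979630) [(nat_lit 0), (nat_lit 0), (nat_lit 4067073), (nat_lit 8945890)]) (PF.cons (PF.leaf (nat_lit 7452370) (nat_lit 650357) (nat_lit 42369562) (nat_lit 2984775) [(nat_lit 650357), (nat_lit 0), (nat_lit 4066383), (nat_lit 8904968)]) (PF.cons (PF.leaf (nat_lit 7826491) (nat_lit 658723)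
 (nat_lit 41751702) (nat_lit 2988076) [(nat_lit 658723), (nat_lit 0), (nat_lit 4063586), (nat_lit 8860827)]) (PF.cons (PF.leaf (nat_lit 8206186) (nat_lit 665914) (nat_lit 41131607) (nat_lit 2989573) [(nat_lit 665914), (nat_lit 0), (nat_lit 4058733), (nat_lit 8813688)]) (PF.cons (PF.leaf (nat_lit 8589943) (nat_lit 672069) (nat_lit 40511739) (nat_lit 2989332) [(nat_lit 672069), (nat_lit 0), (nat_lit 4051897), (nat_lit 8763771)]) (PF.cons PF.nil (PF.cons PF.nil PF.nil))))))) (PF.cons (PF.cons (PF.leaf (nat_lit 7893738) (nat_lit 1913622) (nat_lit 41236776) (nat_lit 2982488) [(nat_lit 0), (nat_lit 1913622), (nat_lit 4053152), (nat_lit 8816468)]) (PF.cons (PF.leaf (nat_lit 8265551) (nat_lit 663954) (nat_lit 40632978) (nat_lit 2982977) [(nat_lit 663954), (nat_lit 1918889), (nat_lit 4047168), (nat_lit 8768507)]) (PF.cons (PF.leaf (nat_lit 8642270) (nat_lit 670042) (nat_lit 40028341) (nat_lit 2981828) [(nat_lit 670042), (nat_lit 1922763), (nat_lit 4039313), (nat_lit 8717853)])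 (PF.cons (PF.leaf (nat_lit 9022316) (nat_lit 675187) (nat_lit 39425078) (nat_lit 2979109) [(nat_lit 675187), (nat_lit 1925316), (nat_lit 4029670), (nat_lit 8664732)]) (PF.cons PF.nil PF.nil))))) (PF.cons (PF.cons
 (PF.leaf (nat_lit 8695475) (nat_lit 1918531) (nat_lit 39549022) (nat_lit 2973754) [(nat_lit 0), (nat_lit 1918531), (nat_lit 4026020), (nat_lit 8670909)]) (PF.cons (PF.leaf (nat_lit 9068475) (nat_lit 672822) (nat_lit 38960690) (nat_lit 2970285) [(nat_lit 672822), (nat_lit 1920526), (nat_lit 4015547), (nat_lit 8617319)]) (PF.cons (PF.leaf (nat_lit 9444328) (nat_lit 677069) (nat_lit 38374652) (nat_lit 2965403) [(nat_lit 677069), (nat_lit 1921330), (nat_lit 4003466), (nat_lit 8561555)]) (PF.cons PF.nil PF.nil)))) (PF.cons (PF.cons (PF.leaf (nat_lit 9484806) (nat_lit 1915724) (nat_lit 37928888) (nat_lit 2955477) [(nat_lit 0), (nat_lit 1915724), (nat_lit 3988075), (nat_lit 8513049)]) (PF.cons PF.nil PF.nil)) (PF.cons PF.nil PF.nil))))) (PF.cons (PF.cons (PF.cons (PF.leaf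 (nat_lit 8381443) (nat_lit 2956094) (nat_lit 39475956) (nat_lit 2956094) [(nat_lit 0), (nat_lit 0), (nat_lit 4007252), (nat_lit 8647751)]) (PF.cons (PF.leaf (nat_lit 8745101) (nat_lit 662136) (nat_lit 38905390) (nat_lit 2953632) [(nat_lit 662136), (nat_lit 0), (nat_lit 3997865), (nat_lit 8596192)]) (PF.cons (PF.leaf (nat_lit 9113081) (nat_lit 667295) (nat_lit 38334709) (nat_lit 2949737) [(nat_lit 667295), (nat_lit 0),
 (nat_lit 3986856), (nat_lit 8542349)]) (PF.cons (PF.leaf (nat_lit 9483847) (nat_lit 671572) (nat_lit 37765916) (nat_lit 2944479) [(nat_lit 671572), (nat_lit 0), (nat_lit 3974312), (nat_lit 8486449)]) (PF.cons PF.nil PF.nil))))) (PF.cons (PF.cons (PF.leaf (nat_lit 9158888) (nat_lit 1901790) (nat_lit 37885961) (nat_lit 2940111) [(nat_lit 0), (nat_lit 1901790), (nat_lit 3971766), (nat_lit 8493885)]) (PF.cons (PF.leaf (nat_lit 9522877) (nat_lit 668805) (nat_lit 37331394) (nat_lit 2934292) [(nat_lit 668805), (nat_lit 1901956), (nat_lit 3958626), (nat_lit 8437855)])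 (PF.cons PF.nil (PF.cons PF.nil PF.nil)))) (PF.cons (PF.cons (PF.leaf (nat_lit 9923129) (nat_lit 1894626) (nat_lit 36362562) (nat_lit 2916222) [(nat_lit 0), (nat_lit 1894626), (nat_lit 3927485), (nat_lit 8330833)]) (PF.cons PF.nil PF.nil)) PF.nil))) (PF.cons (PF.cons (PF.cons (PF.leaf (nat_lit 9598550) (nat_lit 2902159) (nat_lit 36329646) (nat_lit 2902159) [(nat_lit 0), (nat_lit 0), (nat_lit 3912647), (nat_lit 8313768)]) (PF.cons (PF.leaf (nat_lit 9953678) (nat_lit 663543) (nat_lit 35807228) (nat_lit 2894484) [(nat_lit 663543), (nat_lit 0), (nat_lit 3897462), (nat_lit 8256246)]) PF.nil)) (PF.cons PF.nil PF.nil)) (PF.cons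
 PF.nil (PF.cons PF.nil PF.nil)))))))) (PF.cons (PF.cons (PF.cons (PF.cons (PF.leaf (nat_lit 5175460) (nat_lit 2858526) (nat_lit 46188320) (nat_lit 2858526) [(nat_lit 0), (nat_lit 0), (nat_lit 0), (nat_lit 9030983)]) (PF.cons (PF.leaf (nat_lit 5502026) (nat_lit 580359) (nat_lit 45625420) (nat_lit 2878562) [(nat_lit 580359), (nat_lit 0), (nat_lit 0), (nat_lit 9012234)]) (PF.cons (PF.leaf (nat_lit 5845785) (nat_lit 596685) (nat_lit 45039660) (nat_lit 2896516) [(nat_lit 596685), (nat_lit 0), (nat_lit 0), (nat_lit 8989632)]) (PF.cons (PF.leaf (nat_lit 6203000) (nat_lit 610930) (nat_lit 44437417) (nat_lit 2912208) [(nat_lit 610930), (nat_lit 0), (nat_lit 0), (nat_lit 8963197)]) (PF.cons (PF.leaf (nat_lit 6570990) (nat_lit 623419) (nat_lit 43823547) (nat_lit 2925574) [(nat_lit 623419), (nat_lit 0), (nat_lit 0), (nat_lit 8933006)]) (PF.cons (PF.leaf (nat_lit 6947597) (nat_lit 634388) (nat_lit 43201893) (nat_lit 2936620) [(nat_lit 634388), (nat_lit 0), (nat_lit 0), (nat_lit 8899178)])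 (PF.cons (PF.leaf (nat_lit 7331009) (nat_lit 644019) (nat_lit 42575577) (nat_lit 2945395) [(nat_lit 644019), (nat_lit 0), (nat_lit 0), (nat_lit 8861862)]) (PF.cons (PF.leaf (nat_lit 7719695) (nat_lit 652456)
 (nat_lit 41947174) (nat_lit 2951974) [(nat_lit 652456), (nat_lit 0), (nat_lit 0), (nat_lit 8821233)]) (PF.cons (PF.leaf (nat_lit 8112335) (nat_lit 659819) (nat_lit 41318835) (nat_lit 2956450) [(nat_lit 659819), (nat_lit 0), (nat_lit 0), (nat_lit 8777484)]) (PF.cons PF.nil PF.nil)))))))))) (PF.cons (PF.cons (PF.leaf (nat_lit 5948619) (nat_lit 1825712) (nat_lit 44466180) (nat_lit 2901110) [(nat_lit 0), (nat_lit 1825712), (nat_lit 0), (nat_lit 8957904)]) (PF.cons (PF.leaf (nat_lit 6295887) (nat_lit 610820) (nat_lit 43881955) (nat_lit 2914776) [(nat_lit 610820), (nat_lit 1842115), (nat_lit 0), (nat_lit 8929572)]) (PF.cons (PF.leaf (nat_lit 6655313) (nat_lit 623182) (nat_lit 43284352) (nat_lit 2926345) [(nat_lit 623182), (nat_lit 1856572), (nat_lit 0), (nat_lit 8897588)])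 (PF.cons (PF.leaf (nat_lit 7024156) (nat_lit 633979) (nat_lit 42677783) (nat_lit 2935783) [(nat_lit 633979), (nat_lit 1869119), (nat_lit 0), (nat_lit 8862093)]) (PF.cons (PF.leaf (nat_lit 7400402) (nat_lit 643416) (nat_lit 42065714) (nat_lit 2943113) [(nat_lit 643416), (nat_lit 1879823), (nat_lit 0), (nat_lit 8823248)]) (PF.cons (PF.leaf (nat_lit 7782379) (nat_lit 651650) (nat_lit 41450933) (nat_lit 2948390) [(nat_lit
 651650), (nat_lit 1888769), (nat_lit 0), (nat_lit 8781232)]) (PF.cons (PF.leaf (nat_lit 8168678) (nat_lit 658810) (nat_lit 40835726) (nat_lit 2951694) [(nat_lit 658810), (nat_lit 1896048), (nat_lit 0), (nat_lit 8736239)]) (PF.cons (PF.leaf (nat_lit 8558078) (nat_lit 665001) (nat_lit 40221990) (nat_lit 2953115) [(nat_lit 665001), (nat_lit 1901755), (nat_lit 0), (nat_lit 8688469)]) (PF.cons PF.nil PF.nil))))))))) (PF.cons (PF.cons (PF.leaf (nat_lit 6741421) (nat_lit 1858115) (nat_lit 42746152) (nat_lit 2926099) [(nat_lit 0), (nat_lit 1858115), (nat_lit 0),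 (nat_lit 8860164)]) (PF.cons (PF.leaf (nat_lit 7101559) (nat_lit 633108) (nat_lit 42156076) (nat_lit 2934024) [(nat_lit 633108), (nat_lit 1869532), (nat_lit 0), (nat_lit 8823269)]) (PF.cons (PF.leaf (nat_lit 7470133) (nat_lit 642424) (nat_lit 41559250) (nat_lit 2939999) [(nat_lit 642424), (nat_lit 1879231), (nat_lit 0), (nat_lit 8783125)]) (PF.cons (PF.leaf (nat_lit 7845050) (nat_lit 650512) (nat_lit 40958806) (nat_lit 2944060) [(nat_lit 650512), (nat_lit 1887276), (nat_lit 0), (nat_lit 8739927)]) (PF.cons (PF.leaf (nat_lit 8224758) (nat_lit 657514) (nat_lit 40357247) (nat_lit 2946268) [(nat_lit 657514), (nat_lit 1893746),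
 (nat_lit 0), (nat_lit 8693872)]) (PF.cons (PF.leaf (nat_lit 8607947) (nat_lit 663545) (nat_lit 39756609) (nat_lit 2946703) [(nat_lit 663545), (nat_lit 1898724), (nat_lit 0), (nat_lit 8645163)]) (PF.cons PF.nil PF.nil))))))) (PF.cons (PF.cons (PF.leaf (nat_lit 7541032) (nat_lit 1878071) (nat_lit 41055490) (nat_lit 2936093) [(nat_lit 0), (nat_lit 1878071), (nat_lit 0), (nat_lit 8741507)]) (PF.cons (PF.leaf (nat_lit 7908197) (nat_lit 649026) (nat_lit 40470272) (nat_lit 2939016) [(nat_lit 649026), (nat_lit 1885271), (nat_lit 0), (nat_lit 8697341)]) (PF.cons (PF.leaf (nat_lit 8280977) (nat_lit 655923) (nat_lit 39882990) (nat_lit 2940204) [(nat_lit 655923), (nat_lit 1890982), (nat_lit 0), (nat_lit 8650411)]) (PF.cons (PF.leaf (nat_lit 8657729) (nat_lit 661833) (nat_lit 39295895) (nat_lit 2939722) [(nat_lit 661833), (nat_lit 1895279), (nat_lit 0), (nat_lit 8600927)]) (PF.cons (PF.leaf (nat_lit 9037256) (nat_lit 666862) (nat_lit 38710803) (nat_lit 2937648) [(nat_lit 666862),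 (nat_lit 1898239), (nat_lit 0), (nat_lit 8549096)]) PF.nil))))) (PF.cons (PF.cons (PF.leaf (nat_lit 8337999) (nat_lit 1887777) (nat_lit 39412434) (nat_lit 2933528) [(nat_lit 0), (nat_lit 1887777), (nat_lit 0),
 (nat_lit 8605869)]) (PF.cons (PF.leaf (nat_lit 8707785) (nat_lit 659858) (nat_lit 38839438) (nat_lit 2932196) [(nat_lit 659858), (nat_lit 1891438), (nat_lit 0), (nat_lit 8555783)]) (PF.cons (PF.leaf (nat_lit 9081028) (nat_lit 664800) (nat_lit 38267683) (nat_lit 2929360) [(nat_lit 664800), (nat_lit 1893827), (nat_lit 0), (nat_lit 8503429)]) (PF.cons PF.nil PF.nil)))) (PF.cons (PF.cons (PF.leaf (nat_lit 9125399) (nat_lit 1889076) (nat_lit 37828799) (nat_lit 2920607) [(nat_lit 0), (nat_lit 1889076), (nat_lit 0), (nat_lit 8457012)]) (PF.cons (PF.leaf (nat_lit 9494490) (nat_lit 666582) (nat_lit 37272965) (nat_lit 2915717) [(nat_lit 666582), (nat_lit 1889791), (nat_lit 0), (nat_lit 8402294)]) PF.nil)) (PF.cons PF.nil (PF.cons PF.nil PF.nil)))))))) (PF.cons (PF.cons (PF.cons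 (PF.leaf (nat_lit 6476799) (nat_lit 2902024) (nat_lit 42571636) (nat_lit 2902024) [(nat_lit 0), (nat_lit 0), (nat_lit 3979772), (nat_lit 8827690)]) (PF.cons (PF.leaf (nat_lit 6820414) (nat_lit 616923) (nat_lit 42012020) (nat_lit 2911005) [(nat_lit 616923), (nat_lit 0), (nat_lit 3983117), (nat_lit 8792872)]) (PF.cons (PF.leaf (nat_lit 7175045) (nat_lit 627867) (nat_lit 41441115) (nat_lit 2918092) [(nat_lit 627867),
 (nat_lit 0), (nat_lit 3984369), (nat_lit 8754750)]) (PF.cons (PF.leaf (nat_lit 7538044) (nat_lit 637313) (nat_lit 40863022) (nat_lit 2923282) [(nat_lit 637313), (nat_lit 0), (nat_lit 3983523), (nat_lit 8713522)]) (PF.cons (PF.leaf (nat_lit 7907504) (nat_lit 645470) (nat_lit 40280916) (nat_lit 2926617) [(nat_lit 645470), (nat_lit 0), (nat_lit 3980618), (nat_lit 8669388)]) (PF.cons (PF.leaf (nat_lit 8281863) (nat_lit 652501) (nat_lit 39697324) (nat_lit 2928162) [(nat_lit 652501), (nat_lit 0), (nat_lit 3975721), (nat_lit 8622548)]) (PF.cons (PF.leaf (nat_lit 8659805)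 (nat_lit 658533) (nat_lit 39114292) (nat_lit 2927994) [(nat_lit 658533), (nat_lit 0), (nat_lit 3968917), (nat_lit 8573204)]) (PF.cons PF.nil (PF.cons PF.nil PF.nil))))))))) (PF.cons (PF.cons (PF.leaf (nat_lit 7252608) (nat_lit 1858179) (nat_lit 40933309) (nat_lit 2914731) [(nat_lit 0), (nat_lit 1858179), (nat_lit 3976422), (nat_lit 8713084)]) (PF.cons (PF.leaf (nat_lit 7607016) (nat_lit 635660) (nat_lit 40371510) (nat_lit 2918738) [(nat_lit 635660), (nat_lit 1866604), (nat_lit 3974285), (nat_lit 8671006)]) (PF.cons (PF.leaf (nat_lit 7968954) (nat_lit 643774) (nat_lit 39804391) (nat_lit 2921015) [(nat_lit 643774),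
 (nat_lit 1873480), (nat_lit 3970216), (nat_lit 8626080)]) (PF.cons (PF.leaf (nat_lit 8336427) (nat_lit 650728) (nat_lit 39234820) (nat_lit 2921610) [(nat_lit 650728), (nat_lit 1878877), (nat_lit 3964270), (nat_lit 8578523)]) (PF.cons (PF.leaf (nat_lit 8707983) (nat_lit 656666) (nat_lit 38665063) (nat_lit 2920592) [(nat_lit 656666), (nat_lit 1882877), (nat_lit 3956522), (nat_lit 8528545)]) (PF.cons (PF.leaf (nat_lit 9082412) (nat_lit 661701) (nat_lit 38096943) (nat_lit 2918038) [(nat_lit 661701), (nat_lit 1885562), (nat_lit 3947062), (nat_lit 8476350)]) (PF.cons PF.nil PF.nil))))))) (PF.cons (PF.cons (PF.leaf (nat_lit 8031814) (nat_lit 1870608) (nat_lit 39330648) (nat_lit 2914771) [(nat_lit 0), (nat_lit 1870608), (nat_lit 3959013), (nat_lit 8581581)]) (PF.cons (PF.leaf (nat_lit 8391724) (nat_lit 648646) (nat_lit 38775881) (nat_lit 2914487) [(nat_lit 648646), (nat_lit 1875343), (nat_lit 3952112), (nat_lit 8533499)]) (PF.cons (PF.leaf (nat_lit 8756557) (nat_lit 654538)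 (nat_lit 38219943) (nat_lit 2912681) [(nat_lit 654538), (nat_lit 1878749), (nat_lit 3943505), (nat_lit 8483052)]) (PF.cons (PF.leaf (nat_lit 9124777) (nat_lit 659509) (nat_lit 37664872) (nat_lit 2909422) [(nat_lit
 659509), (nat_lit 1880902), (nat_lit 3933274), (nat_lit 8430455)]) (PF.cons PF.nil PF.nil))))) (PF.cons (PF.cons (PF.leaf (nat_lit 8806176) (nat_lit 1874263) (nat_lit 37778413) (nat_lit 2904279) [(nat_lit 0), (nat_lit 1874263), (nat_lit 3929883), (nat_lit 8436722)]) (PF.cons (PF.leaf (nat_lit 9167655) (nat_lit 657083) (nat_lit 37236879) (nat_lit 2900373) [(nat_lit 657083), (nat_lit 1875923), (nat_lit 3918959), (nat_lit 8383873)]) (PF.cons (PF.leaf (nat_lit 9532089) (nat_lit 661196) (nat_lit 36697060) (nat_lit 2895160) [(nat_lit 661196), (nat_lit 1876458), (nat_lit 3906575), (nat_lit 8329124)]) (PF.cons PF.nil PF.nil)))) (PF.cons (PF.cons (PF.leaf (nat_lit 9569751) (nat_lit 1870764) (nat_lit 36285831) (nat_lit 2885164) [(nat_lit 0), (nat_lit 1870764), (nat_lit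 3891194), (nat_lit 8281781)]) (PF.cons PF.nil PF.nil)) (PF.cons PF.nil PF.nil)))))) (PF.cons (PF.cons (PF.cons (PF.leaf (nat_lit 7740256) (nat_lit 2894945) (nat_lit 39226933) (nat_lit 2894945) [(nat_lit 0), (nat_lit 0), (nat_lit 3938183), (nat_lit 8555283)]) (PF.cons (PF.leaf (nat_lit 8088433) (nat_lit 635985) (nat_lit 38693464) (nat_lit 2895762) [(nat_lit 635985), (nat_lit 0), (nat_lit 3932414), (nat_lit 8509385)]) (PF.cons
 (PF.leaf (nat_lit 8443394) (nat_lit 643065) (nat_lit 38155782) (nat_lit 2895041) [(nat_lit 643065), (nat_lit 0), (nat_lit 3924938), (nat_lit 8460990)]) (PF.cons (PF.leaf (nat_lit 8803216) (nat_lit 649049) (nat_lit 37616518) (nat_lit 2892839) [(nat_lit 649049), (nat_lit 0), (nat_lit 3915822), (nat_lit 8410331)]) (PF.cons (PF.leaf (nat_lit 9166533) (nat_lit 654079) (nat_lit 37077726) (nat_lit 2889228) [(nat_lit 654079), (nat_lit 0), (nat_lit 3905147), (nat_lit 8357622)]) (PF.cons PF.nil (PF.cons PF.nil PF.nil))))))) (PF.cons (PF.cons (PF.leaf (nat_lit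 8498943) (nat_lit 1858350) (nat_lit 37710859) (nat_lit 2887000) [(nat_lit 0), (nat_lit 1858350), (nat_lit 3911659), (nat_lit 8414641)]) (PF.cons (PF.leaf (nat_lit 8851412) (nat_lit 646499) (nat_lit 37185832) (nat_lit 2884128) [(nat_lit 646499), (nat_lit 1861052), (nat_lit 3901842), (nat_lit 8363807)]) (PF.cons (PF.leaf (nat_lit 9208247) (nat_lit 651533) (nat_lit 36660284) (nat_lit 2879918) [(nat_lit 651533), (nat_lit 1862565), (nat_lit 3890538), (nat_lit 8310949)]) (PF.cons (PF.leaf (nat_lit 9567964) (nat_lit 655704) (nat_lit 36136066) (nat_lit 2874441) [(nat_lit 655704), (nat_lit 1862964), (nat_lit 3877834), (nat_lit 8256278)])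
 (PF.cons PF.nil PF.nil))))) (PF.cons (PF.cons (PF.leaf (nat_lit 9251197) (nat_lit 1857092) (nat_lit 36246258) (nat_lit 2870215) [(nat_lit 0), (nat_lit 1857092), (nat_lit 3875447), (nat_lit 8263630)]) (PF.cons (PF.leaf (nat_lit 9604417) (nat_lit 652930) (nat_lit 35734934) (nat_lit 2864254) [(nat_lit 652930), (nat_lit 1857115), (nat_lit 3862248), (nat_lit 8208982)]) (PF.cons PF.nil (PF.cons PF.nil PF.nil)))) (PF.cons (PF.cons (PF.leaf (nat_lit 9991858) (nat_lit 1849734) (nat_lit 34840354) (nat_lit 2846247) [(nat_lit 0), (nat_lit 1849734), (nat_lit 3831418), (nat_lit 8105085)]) (PF.cons PF.nil PF.nil)) (PF.cons PF.nil PF.nil))))) (PF.cons (PF.cons (PF.cons (PF.leaf (nat_lit 8943950) (nat_lit 2854324) (nat_lit 36190889) (nat_lit 2854324) [(nat_lit 0), (nat_lit 0), (nat_lit 3858751), (nat_lit 8243672)]) (PF.cons (PF.leaf (nat_lit 9288918) (nat_lit 642941) (nat_lit 35694527) (nat_lit 2849373) [(nat_lit 642941), (nat_lit 0), (nat_lit 3846645), (nat_lit 8191015)]) (PF.cons (PF.leaf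 (nat_lit 9637785) (nat_lit 647242) (nat_lit 35198110) (nat_lit 2843243) [(nat_lit 647242), (nat_lit 0), (nat_lit 3833242), (nat_lit 8136623)]) (PF.cons PF.nil PF.nil)))) (PF.cons (PF.cons (PF.leaf (nat_lit
 9674745) (nat_lit 1837119) (nat_lit 34809950) (nat_lit 2832575) [(nat_lit 0), (nat_lit 1837119), (nat_lit 3817101), (nat_lit 8088931)]) (PF.cons (PF.leaf (nat_lit 10019839) (nat_lit 647692) (nat_lit 34327375) (nat_lit 2824986) [(nat_lit 647692), (nat_lit 1835806), (nat_lit 3802152), (nat_lit 8033247)]) PF.nil)) (PF.cons PF.nil PF.nil))) (PF.cons (PF.cons (PF.cons (PF.leaf (nat_lit 10078430) (nat_lit 2792351) (nat_lit 33463324) (nat_lit 2792351) [(nat_lit 0), (nat_lit 0), (nat_lit 3756079), (nat_lit 7914409)]) (PF.cons PF.nil PF.nil)) (PF.cons PF.nil PF.nil)) (PF.cons PF.nil PF.nil)))))) (PF.cons (PF.cons (PF.cons (PF.cons (PF.leaf (nat_lit 7139842) (nat_lit 2826959) (nat_lit 38916773) (nat_lit 2826959) [(nat_lit 0), (nat_lit 0), (nat_lit 0), (nat_lit 8455026)]) (PF.cons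 (PF.leaf (nat_lit 7468246) (nat_lit 605419) (nat_lit 38426645) (nat_lit 2831475) [(nat_lit 605419), (nat_lit 0), (nat_lit 0), (nat_lit 8415090)]) (PF.cons (PF.leaf (nat_lit 7806588) (nat_lit 615009) (nat_lit 37927190) (nat_lit 2834335) [(nat_lit 615009), (nat_lit 0), (nat_lit 0), (nat_lit 8372423)]) (PF.cons (PF.leaf (nat_lit 8152351) (nat_lit 623167) (nat_lit 37421926) (nat_lit 2835574) [(nat_lit 623167), (nat_lit
 0), (nat_lit 0), (nat_lit 8327269)]) (PF.cons (PF.leaf (nat_lit 8503774) (nat_lit 630113) (nat_lit 36913553) (nat_lit 2835253) [(nat_lit 630113), (nat_lit 0), (nat_lit 0), (nat_lit 8279851)]) (PF.cons (PF.leaf (nat_lit 8859443) (nat_lit 636010) (nat_lit 36404199) (nat_lit 2833447) [(nat_lit 636010), (nat_lit 0), (nat_lit 0), (nat_lit 8230371)]) (PF.cons (PF.leaf (nat_lit 9218156) (nat_lit 640989) (nat_lit 35895571) (nat_lit 2830238) [(nat_lit 640989), (nat_lit 0), (nat_lit 0), (nat_lit 8179021)]) (PF.cons PF.nil (PF.cons PF.nil PF.nil))))))))) (PF.cons (PF.cons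 (PF.leaf (nat_lit 7872711) (nat_lit 1809434) (nat_lit 37486431) (nat_lit 2828174) [(nat_lit 0), (nat_lit 1809434), (nat_lit 0), (nat_lit 8328257)]) (PF.cons (PF.leaf (nat_lit 8210317) (nat_lit 620844) (nat_lit 36995570) (nat_lit 2828587) [(nat_lit 620844), (nat_lit 1815111), (nat_lit 0), (nat_lit 8282899)]) (PF.cons (PF.leaf (nat_lit 8554679) (nat_lit 627820) (nat_lit 36500381) (nat_lit 2827534) [(nat_lit 627820), (nat_lit 1819420), (nat_lit 0), (nat_lit 8235278)]) (PF.cons (PF.leaf (nat_lit 8903928) (nat_lit 633710) (nat_lit 36003302) (nat_lit 2825077) [(nat_lit 633710), (nat_lit 1822442), (nat_lit 0), (nat_lit 8185619)])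
 (PF.cons (PF.leaf (nat_lit 9256727) (nat_lit 638659) (nat_lit 35506241) (nat_lit 2821289) [(nat_lit 638659), (nat_lit 1824263), (nat_lit 0), (nat_lit 8134127)]) (PF.cons PF.nil (PF.cons PF.nil PF.nil))))))) (PF.cons (PF.cons (PF.leaf (nat_lit 8607305) (nat_lit 1815088) (nat_lit 36089567) (nat_lit 2819356) [(nat_lit 0), (nat_lit 1815088), (nat_lit 0), (nat_lit 8189903)]) (PF.cons (PF.leaf (nat_lit 8949464) (nat_lit 631148) (nat_lit 35605410) (nat_lit 2816303) [(nat_lit 631148), (nat_lit 1817644), (nat_lit 0), (nat_lit 8140220)]) (PF.cons (PF.leaf (nat_lit 9296037) (nat_lit 636111) (nat_lit 35120360) (nat_lit 2811985) [(nat_lit 636111), (nat_lit 1819050), (nat_lit 0), (nat_lit 8088714)]) (PF.cons (PF.leaf (nat_lit 9645586) (nat_lit 640226) (nat_lit 34636136) (nat_lit 2806473) [(nat_lit 640226), (nat_lit 1819383), (nat_lit 0), (nat_lit 8035585)]) (PF.cons PF.nil PF.nil))))) (PF.cons (PF.cons (PF.leaf (nat_lit 9336684) (nat_lit 1813577) (nat_lit 34737459) (nat_lit 2802335)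 [(nat_lit 0), (nat_lit 1813577), (nat_lit 0), (nat_lit 8042761)]) (PF.cons (PF.leaf (nat_lit 9679978) (nat_lit 637473) (nat_lit 34264934) (nat_lit 2796399) [(nat_lit 637473), (nat_lit 1813573), (nat_lit 0), (nat_lit
 7989761)]) (PF.cons PF.nil (PF.cons PF.nil PF.nil)))) (PF.cons (PF.cons (PF.leaf (nat_lit 10055890) (nat_lit 1806303) (nat_lit 33436966) (nat_lit 2778686) [(nat_lit 0), (nat_lit 1806303), (nat_lit 0), (nat_lit 7889314)]) (PF.cons PF.nil PF.nil)) (PF.cons PF.nil PF.nil)))))) (PF.cons (PF.cons (PF.cons (PF.leaf (nat_lit 8320347) (nat_lit 2801293) (nat_lit 36007775) (nat_lit 2801293) [(nat_lit 0), (nat_lit 0), (nat_lit 3799545), (nat_lit 8166732)]) (PF.cons (PF.leaf (nat_lit 8651985) (nat_lit 619231) (nat_lit 35541695) (nat_lit 2799372) [(nat_lit 619231), (nat_lit 0), (nat_lit 3790768), (nat_lit 8119248)]) (PF.cons (PF.leaf (nat_lit 8989779) (nat_lit 625361) (nat_lit 35072085) (nat_lit 2796141) [(nat_lit 625361), (nat_lit 0), (nat_lit 3780573), (nat_lit 8069763)])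 (PF.cons (PF.leaf (nat_lit 9331916) (nat_lit 630465) (nat_lit 34601186) (nat_lit 2791667) [(nat_lit 630465), (nat_lit 0), (nat_lit 3769038), (nat_lit 8018508)]) (PF.cons (PF.leaf (nat_lit 9677171) (nat_lit 634686) (nat_lit 34130738) (nat_lit 2786024) [(nat_lit 634686), (nat_lit 0), (nat_lit 3756244), (nat_lit 7965686)]) PF.nil))))) (PF.cons (PF.cons (PF.leaf (nat_lit 9036342) (nat_lit 1799038) (nat_lit 34685893) (nat_lit
 2786787) [(nat_lit 0), (nat_lit 1799038), (nat_lit 3765917), (nat_lit 8023725)]) (PF.cons (PF.leaf (nat_lit 9371611) (nat_lit 627579) (nat_lit 34227334) (nat_lit 2781869) [(nat_lit 627579), (nat_lit 1800055), (nat_lit 3753958), (nat_lit 7972671)]) (PF.cons (PF.leaf (nat_lit 9710848) (nat_lit 631852) (nat_lit 33768323) (nat_lit 2775834) [(nat_lit 631852), (nat_lit 1800038), (nat_lit 3740788), (nat_lit 7920041)]) (PF.cons PF.nil PF.nil)))) (PF.cons (PF.cons (PF.leaf (nat_lit 9746016) (nat_lit 1793910) (nat_lit 33408697) (nat_lit 2765363) [(nat_lit 0),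 (nat_lit 1793910), (nat_lit 3724995), (nat_lit 7873978)]) (PF.cons (PF.leaf (nat_lit 10081809) (nat_lit 632340) (nat_lit 32961898) (nat_lit 2757972) [(nat_lit 632340), (nat_lit 1792683), (nat_lit 3710419), (nat_lit 7820271)]) PF.nil)) (PF.cons PF.nil (PF.cons PF.nil PF.nil))))) (PF.cons (PF.cons (PF.cons (PF.leaf (nat_lit 9446568) (nat_lit 2751097) (nat_lit 33366738) (nat_lit 2751097) [(nat_lit 0), (nat_lit 0), (nat_lit 3710186), (nat_lit 7856868)]) (PF.cons (PF.leaf (nat_lit 9774955) (nat_lit 623009) (nat_lit 32932636) (nat_lit 2744684) [(nat_lit 623009), (nat_lit 0), (nat_lit 3696668), (nat_lit 7805048)]) (PF.cons (PF.leaf (nat_lit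
 10106939) (nat_lit 626687) (nat_lit 32498403) (nat_lit 2737278) [(nat_lit 626687), (nat_lit 0), (nat_lit 3682084), (nat_lit 7751862)]) (PF.cons PF.nil PF.nil)))) (PF.cons (PF.cons (PF.leaf (nat_lit 10137172) (nat_lit 1772408) (nat_lit 32160565) (nat_lit 2726219) [(nat_lit 0), (nat_lit 1772408), (nat_lit 3665708), (nat_lit 7706067)]) (PF.cons PF.nil PF.nil)) (PF.cons PF.nil PF.nil))) (PF.cons (PF.cons (PF.cons (PF.leaf (nat_lit 10511454) (nat_lit 2685576) (nat_lit 30987661) (nat_lit 2685576) [(nat_lit 0), (nat_lit 0), (nat_lit 3605089), (nat_lit 7540101)]) (PF.cons PF.nil PF.nil)) (PF.cons PF.nil PF.nil)) (PF.cons PF.nil PF.nil))))) (PF.cons (PF.cons (PF.cons (PF.cons (PF.leaf (nat_lit 8842094) (nat_lit 2705008) (nat_lit 33232328) (nat_lit 2705008) [(nat_lit 0), (nat_lit 0), (nat_lit 0), (nat_lit 7792869)]) (PF.cons (PF.leaf (nat_lit 9158799) (nat_lit 601460) (nat_lit 32823202) (nat_lit 2701360) [(nat_lit 601460), (nat_lit 0), (nat_lit 0), (nat_lit 7745697)]) (PF.cons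 (PF.leaf (nat_lit 9481181) (nat_lit 606869) (nat_lit 32410989) (nat_lit 2696579) [(nat_lit 606869), (nat_lit 0), (nat_lit 0), (nat_lit 7696876)]) (PF.cons (PF.leaf (nat_lit 9807529) (nat_lit 611314) (nat_lit 31997614)
 (nat_lit 2690735) [(nat_lit 611314), (nat_lit 0), (nat_lit 0), (nat_lit 7646629)]) (PF.cons PF.nil PF.nil))))) (PF.cons (PF.cons (PF.leaf (nat_lit 9520727) (nat_lit 1738905) (nat_lit 32073872) (nat_lit 2686604) [(nat_lit 0), (nat_lit 1738905), (nat_lit 0), (nat_lit 7652357)]) (PF.cons (PF.leaf (nat_lit 9840622) (nat_lit 608252) (nat_lit 31671179) (nat_lit 2680471) [(nat_lit 608252), (nat_lit 1738805), (nat_lit 0), (nat_lit 7602526)]) (PF.cons (PF.leaf (nat_lit 10164186) (nat_lit 611959) (nat_lit 31268006) (nat_lit 2673383) [(nat_lit 611959), (nat_lit 1737794), (nat_lit 0), (nat_lit 7551427)]) (PF.cons PF.nil PF.nil)))) (PF.cons (PF.cons (PF.leaf (nat_lit 10193350) (nat_lit 1731370) (nat_lit 30953689) (nat_lit 2662662) [(nat_lit 0), (nat_lit 1731370), (nat_lit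 0), (nat_lit 7507430)]) (PF.cons PF.nil PF.nil)) PF.nil))) (PF.cons (PF.cons (PF.cons (PF.leaf (nat_lit 9902121) (nat_lit 2649850) (nat_lit 30921956) (nat_lit 2649850) [(nat_lit 0), (nat_lit 0), (nat_lit 3565858), (nat_lit 7492787)]) (PF.cons (PF.leaf (nat_lit 10215696) (nat_lit 603124) (nat_lit 30540064) (nat_lit 2642619) [(nat_lit 603124), (nat_lit 0), (nat_lit 3551725), (nat_lit 7442819)]) (PF.cons PF.nil PF.nil)))
 (PF.cons (PF.cons (PF.leaf (nat_lit 10557679) (nat_lit 1709363) (nat_lit 29861980) (nat_lit 2623469) [(nat_lit 0), (nat_lit 1709363), (nat_lit 3520552), (nat_lit 7348361)]) PF.nil) PF.nil)) (PF.cons PF.nil PF.nil))) (PF.cons (PF.cons (PF.cons (PF.cons (PF.leaf (nat_lit 10319911) (nat_lit 2552389) (nat_lit 28790619) (nat_lit 2552389) [(nat_lit 0), (nat_lit 0), (nat_lit 0), (nat_lit 7153160)]) (PF.cons (PF.leaf (nat_lit 10620175) (nat_lit 583724) (nat_lit 28452646) (nat_lit 2544750) [(nat_lit 583724), (nat_lit 0), (nat_lit 0), (nat_lit 7105538)]) PF.nil))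 (PF.cons PF.nil PF.nil)) (PF.cons PF.nil PF.nil)) (PF.cons PF.nil (PF.cons PF.nil (PF.cons PF.nil PF.nil)))))))))

def p12_16_0_0 : pfC (piC [(nat_lit 35755509), (nat_lit 23968959), (nat_lit 17897616), (nat_lit 12073119)] (nat_lit 23538785)) p12_16_0 (nat_lit 4) (nat_lit 0) (nat_lit 1) = true := by decide +kernel
def p12_16_0_1 : pfC (piC [(nat_lit 35755509), (nat_lit 23968959), (nat_lit 17897616), (nat_lit 12073119)] (nat_lit 23538785)) p12_16_0 (nat_lit 4) (nat_lit 1) (nat_lit 2) = true := by decide +kernel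
def p12_16_0_2 : pfC (piC [(nat_lit 35755509), (nat_lit 23968959), (nat_lit 17897616), (nat_lit 12073119)] (nat_lit 23538785)) p12_16_0 (nat_lit 4) (nat_lit 2) (nat_lit 3) = true := by decide +kernel
def p12_16_0_3 : pfC (piC [(nat_lit 35755509), (nat_lit 23968959), (nat_lit 17897616), (nat_lit 12073119)] (nat_lit 23538785)) p12_16_0 (nat_lit 4) (nat_lit 3) (nat_lit 4) = true := by decide +kernel
def p12_16_0_4 : pfC (piC [(nat_lit 35755509), (nat_lit 23968959), (nat_lit 17897616), (nat_lit 12073119)] (nat_lit 23538785)) p12_16_0 (nat_lit 4) (nat_lit 4) (nat_lit 5) = true := by decide +kernel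
def p12_16_0_5 : pfC (piC [(nat_lit 35755509), (nat_lit 23968959), (nat_lit 17897616), (nat_lit 12073119)] (nat_lit 23538785)) p12_16_0 (nat_lit 4) (nat_lit 5) (nat_lit 6) = true := by decide +kernel
def p12_16_0_6 : pfC (piC [(nat_lit 35755509), (nat_lit 23968959), (nat_lit 17897616), (nat_lit 12073119)] (nat_lit 23538785)) p12_16_0 (nat_lit 4) (nat_lit 6) (nat_lit 7) = true := by decide +kernel
def p12_16_0_7 : pfC (piC [(nat_lit 35755509), (nat_lit 23968959), (nat_lit 17897616), (nat_lit 12073119)] (nat_lit 23538785)) p12_16_0 (nat_lit 4) (nat_lit 7) (nat_lit 8) = true := by decide +kernel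
def p12_16_0_8 : pfC (piC [(nat_lit 35755509), (nat_lit 23968959), (nat_lit 17897616), (nat_lit 12073119)] (nat_lit 23538785)) p12_16_0 (nat_lit 4) (nat_lit 8) (nat_lit 9) = true := by decide +kernel
def p12_16_0_9 : pfC (piC [(nat_lit 35755509), (nat_lit 23968959), (nat_lit 17897616), (nat_lit 12073119)] (nat_lit 23538785)) p12_16_0 (nat_lit 4) (nat_lit 9) (nat_lit 10) = true := by decide +kernel
def p12_16_0_10 : pfC (piC [(nat_lit 35755509), (nat_lit 23968959), (nat_lit 17897616), (nat_lit 12073119)] (nat_lit 23538785)) p12_16_0 (nat_lit 4) (nat_lit 10) (nat_lit 11) = true := by decide +kernel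
def p12_16_0_11 : pfC (piC [(nat_lit 35755509), (nat_lit 23968959), (nat_lit 17897616), (nat_lit 12073119)] (nat_lit 23538785)) p12_16_0 (nat_lit 4) (nat_lit 11) (nat_lit 12) = true := by decide +kernel
def p12_16_0_12 : pfC (piC [(nat_lit 35755509), (nat_lit 23968959), (nat_lit 17897616), (nat_lit 12073119)] (nat_lit 23538785)) p12_16_0 (nat_lit 4) (nat_lit 12) (nat_lit 13) = true := by decide +kernel
def p12_16_0_13 : pfC (piC [(nat_lit 35755509), (nat_lit 23968959), (nat_lit 17897616), (nat_lit 12073119)] (nat_lit 23538785)) p12_16_0 (nat_lit 4) (nat_lit 13) (nat_lit 14) = true := by decide +kernel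
def p12_16_0_14 : pfC (piC [(nat_lit 35755509), (nat_lit 23968959), (nat_lit 17897616), (nat_lit 12073119)] (nat_lit 23538785)) p12_16_0 (nat_lit 4) (nat_lit 14) (nat_lit 15) = true := by decide +kernel
def p12_16_0_15 : pfC (piC [(nat_lit 35755509), (nat_lit 23968959), (nat_lit 17897616), (nat_lit 12073119)] (nat_lit 23538785)) p12_16_0 (nat_lit 4) (nat_lit 15) (nat_lit 16) = true := by decide +kernel
def p12_16_0_16 : pfC (piC [(nat_lit 35755509), (nat_lit 23968959), (nat_lit 17897616), (nat_lit 12073119)] (nat_lit 23538785)) p12_16_0 (nat_lit 4) (nat_lit 16) (nat_lit 17) = true := by decide +kernel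
def p12_16_0_17 : pfC (piC [(nat_lit 35755509), (nat_lit 23968959), (nat_lit 17897616), (nat_lit 12073119)] (nat_lit 23538785)) p12_16_0 (nat_lit 4) (nat_lit 17) (nat_lit 18) = true := by decide +kernel
def p12_16_0_18 : pfC (piC [(nat_lit 35755509), (nat_lit 23968959), (nat_lit 17897616), (nat_lit 12073119)] (nat_lit 23538785)) p12_16_0 (nat_lit 4) (nat_lit 18) (nat_lit 19) = true := by decide +kernel
def p12_16_0_19 : pfC (piC [(nat_lit 35755509), (nat_lit 23968959), (nat_lit 17897616), (nat_lit 12073119)] (nat_lit 23538785)) p12_16_0 (nat_lit 4) (nat_lit 19) (nat_lit 20) = true := by decide +kernel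
def p12_16_0_20 : pfC (piC [(nat_lit 35755509), (nat_lit 23968959), (nat_lit 17897616), (nat_lit 12073119)] (nat_lit 23538785)) p12_16_0 (nat_lit 4) (nat_lit 20) (nat_lit 21) = true := by decide +kernel
def p12_16_0_21 : pfC (piC [(nat_lit 35755509), (nat_lit 23968959), (nat_lit 17897616), (nat_lit 12073119)] (nat_lit 23538785)) p12_16_0 (nat_lit 4) (nat_lit 21) (nat_lit 22) = true := by decide +kernel
def p12_16_0_22 : pfC (piC [(nat_lit 35755509), (nat_lit 23968959), (nat_lit 17897616), (nat_lit 12073119)] (nat_lit 23538785)) p12_16_0 (nat_lit 4) (nat_lit 22) (nat_lit 23) = true := by decide +kernel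
def p12_16_0_23 : pfC (piC [(nat_lit 35755509), (nat_lit 23968959), (nat_lit 17897616), (nat_lit 12073119)] (nat_lit 23538785)) p12_16_0 (nat_lit 4) (nat_lit 23) (nat_lit 24) = true := by decide +kernel
def p12_16_0_24 : pfC (piC [(nat_lit 35755509), (nat_lit 23968959), (nat_lit 17897616), (nat_lit 12073119)] (nat_lit 23538785)) p12_16_0 (nat_lit 4) (nat_lit 24) (nat_lit 25) = true := by decide +kernel
def p12_16_0_25 : pfC (piC [(nat_lit 35755509), (nat_lit 23968959), (nat_lit 17897616), (nat_lit 12073119)] (nat_lit 23538785)) p12_16_0 (nat_lit 4) (nat_lit 25) (nat_lit 26) = true := by decide +kernel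
def p12_16_0_26 : pfC (piC [(nat_lit 35755509), (nat_lit 23968959), (nat_lit 17897616), (nat_lit 12073119)] (nat_lit 23538785)) p12_16_0 (nat_lit 4) (nat_lit 26) (nat_lit 27) = true := by decide +kernel
def p12_16_0_27 : pfC (piC [(nat_lit 35755509), (nat_lit 23968959), (nat_lit 17897616), (nat_lit 12073119)] (nat_lit 23538785)) p12_16_0 (nat_lit 4) (nat_lit 27) (nat_lit 28) = true := by decide +kernel
def p12_16_0_28 : pfC (piC [(nat_lit 35755509), (nat_lit 23968959), (nat_lit 17897616), (nat_lit 12073119)] (nat_lit 23538785)) p12_16_0 (nat_lit 4) (nat_lit 28) (nat_lit 29) = true := by decide +kernel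
def p12_16_0_29 : pfC (piC [(nat_lit 35755509), (nat_lit 23968959), (nat_lit 17897616), (nat_lit 12073119)] (nat_lit 23538785)) p12_16_0 (nat_lit 4) (nat_lit 29) (nat_lit 30) = true := by decide +kernel
def p12_16_0_30 : pfC (piC [(nat_lit 35755509), (nat_lit 23968959), (nat_lit 17897616), (nat_lit 12073119)] (nat_lit 23538785)) p12_16_0 (nat_lit 4) (nat_lit 30) (nat_lit 31) = true := by decide +kernel
def p12_16_0_31 : pfC (piC [(nat_lit 35755509), (nat_lit 23968959), (nat_lit 17897616), (nat_lit 12073119)] (nat_lit 23538785)) p12_16_0 (nat_lit 4) (nat_lit 31) (nat_lit 32) = true := by decide +kernel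
def p12_16_0_32 : pfC (piC [(nat_lit 35755509), (nat_lit 23968959), (nat_lit 17897616), (nat_lit 12073119)] (nat_lit 23538785)) p12_16_0 (nat_lit 4) (nat_lit 32) (nat_lit 33) = true := by decide +kernel
def p12_16_0_33 : pfC (piC [(nat_lit 35755509), (nat_lit 23968959), (nat_lit 17897616), (nat_lit 12073119)] (nat_lit 23538785)) p12_16_0 (nat_lit 4) (nat_lit 33) (nat_lit 34) = true := by decide +kernel
def p12_16_0_34 : pfC (piC [(nat_lit 35755509), (nat_lit 23968959), (nat_lit 17897616), (nat_lit 12073119)] (nat_lit 23538785)) p12_16_0 (nat_lit 4) (nat_lit 34) (nat_lit 35) = true := by decide +kernel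
def p12_16_0_35 : pfC (piC [(nat_lit 35755509), (nat_lit 23968959), (nat_lit 17897616), (nat_lit 12073119)] (nat_lit 23538785)) p12_16_0 (nat_lit 4) (nat_lit 35) (nat_lit 36) = true := by decide +kernel
def p12_16_0_36 : pfC (piC [(nat_lit 35755509), (nat_lit 23968959), (nat_lit 17897616), (nat_lit 12073119)] (nat_lit 23538785)) p12_16_0 (nat_lit 4) (nat_lit 36) (nat_lit 37) = true := by decide +kernel
def p12_16_0_37 : pfC (piC [(nat_lit 35755509), (nat_lit 23968959), (nat_lit 17897616), (nat_lit 12073119)] (nat_lit 23538785)) p12_16_0 (nat_lit 4) (nat_lit 37) (nat_lit 38) = true := by decide +kernel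
def p12_16_0_38 : pfC (piC [(nat_lit 35755509), (nat_lit 23968959), (nat_lit 17897616), (nat_lit 12073119)] (nat_lit 23538785)) p12_16_0 (nat_lit 4) (nat_lit 38) (nat_lit 39) = true := by decide +kernel
def p12_16_0_39 : pfC (piC [(nat_lit 35755509), (nat_lit 23968959), (nat_lit 17897616), (nat_lit 12073119)] (nat_lit 23538785)) p12_16_0 (nat_lit 4) (nat_lit 39) (nat_lit 40) = true := by decide +kernel
def p12_16_0_40 : pfC (piC [(nat_lit 35755509), (nat_lit 23968959), (nat_lit 17897616), (nat_lit 12073119)] (nat_lit 23538785)) p12_16_0 (nat_lit 4) (nat_lit 40) (nat_lit 41) = true := by decide +kernel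
def p12_16_0_41 : pfC (piC [(nat_lit 35755509), (nat_lit 23968959), (nat_lit 17897616), (nat_lit 12073119)] (nat_lit 23538785)) p12_16_0 (nat_lit 4) (nat_lit 41) (nat_lit 42) = true := by decide +kernel
def p12_16_0_42 : pfC (piC [(nat_lit 35755509), (nat_lit 23968959), (nat_lit 17897616), (nat_lit 12073119)] (nat_lit 23538785)) p12_16_0 (nat_lit 4) (nat_lit 42) (nat_lit 43) = true := by decide +kernel
def p12_16_0_43 : pfC (piC [(nat_lit 35755509), (nat_lit 23968959), (nat_lit 17897616), (nat_lit 12073119)] (nat_lit 23538785)) p12_16_0 (nat_lit 4) (nat_lit 43) (nat_lit 44) = true := by decide +kernel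
def p12_16_0_44 : pfC (piC [(nat_lit 35755509), (nat_lit 23968959), (nat_lit 17897616), (nat_lit 12073119)] (nat_lit 23538785)) p12_16_0 (nat_lit 4) (nat_lit 44) (nat_lit 45) = true := by decide +kernel
def p12_16_0_45 : pfC (piC [(nat_lit 35755509), (nat_lit 23968959), (nat_lit 17897616), (nat_lit 12073119)] (nat_lit 23538785)) p12_16_0 (nat_lit 4) (nat_lit 45) (nat_lit 46) = true := by decide +kernel
def p12_16_0_46 : pfC (piC [(nat_lit 35755509), (nat_lit 23968959), (nat_lit 17897616), (nat_lit 12073119)] (nat_lit 23538785)) p12_16_0 (nat_lit 4) (nat_lit 46) (nat_lit 47) = true := by decide +kernel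
def p12_16_0_47 : pfC (piC [(nat_lit 35755509), (nat_lit 23968959), (nat_lit 17897616), (nat_lit 12073119)] (nat_lit 23538785)) p12_16_0 (nat_lit 4) (nat_lit 47) (nat_lit 48) = true := by decide +kernel
def p12_16_0_48 : pfC (piC [(nat_lit 35755509), (nat_lit 23968959), (nat_lit 17897616), (nat_lit 12073119)] (nat_lit 23538785)) p12_16_0 (nat_lit 4) (nat_lit 48) (nat_lit 49) = true := by decide +kernel
def p12_16_0_49 : pfC (piC [(nat_lit 35755509), (nat_lit 23968959), (nat_lit 17897616), (nat_lit 12073119)] (nat_lit 23538785)) p12_16_0 (nat_lit 4) (nat_lit 49) (nat_lit 50) = true := by decide +kernel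
def p12_16_0_50 : pfC (piC [(nat_lit 35755509), (nat_lit 23968959), (nat_lit 17897616), (nat_lit 12073119)] (nat_lit 23538785)) p12_16_0 (nat_lit 4) (nat_lit 50) (nat_lit 51) = true := by decide +kernel
def p12_16_0_51 : pfC (piC [(nat_lit 35755509), (nat_lit 23968959), (nat_lit 17897616), (nat_lit 12073119)] (nat_lit 23538785)) p12_16_0 (nat_lit 4) (nat_lit 51) (nat_lit 52) = true := by decide +kernel
def p12_16_0_52 : pfC (piC [(nat_lit 35755509), (nat_lit 23968959), (nat_lit 17897616), (nat_lit 12073119)] (nat_lit 23538785)) p12_16_0 (nat_lit 4) (nat_lit 52) (nat_lit 53) = true := by decide +kernel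
def p12_16_0_53 : pfC (piC [(nat_lit 35755509), (nat_lit 23968959), (nat_lit 17897616), (nat_lit 12073119)] (nat_lit 23538785)) p12_16_0 (nat_lit 4) (nat_lit 53) (nat_lit 54) = true := by decide +kernel
def p12_16_0_54 : pfC (piC [(nat_lit 35755509), (nat_lit 23968959), (nat_lit 17897616), (nat_lit 12073119)] (nat_lit 23538785)) p12_16_0 (nat_lit 4) (nat_lit 54) (nat_lit 55) = true := by decide +kernel
def p12_16_0_55 : pfC (piC [(nat_lit 35755509), (nat_lit 23968959), (nat_lit 17897616), (nat_lit 12073119)] (nat_lit 23538785)) p12_16_0 (nat_lit 4) (nat_lit 55) (nat_lit 56) = true := by decide +kernel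
def p12_16_0_56 : pfC (piC [(nat_lit 35755509), (nat_lit 23968959), (nat_lit 17897616), (nat_lit 12073119)] (nat_lit 23538785)) p12_16_0 (nat_lit 4) (nat_lit 56) (nat_lit 57) = true := by decide +kernel
def p12_16_0_57 : pfC (piC [(nat_lit 35755509), (nat_lit 23968959), (nat_lit 17897616), (nat_lit 12073119)] (nat_lit 23538785)) p12_16_0 (nat_lit 4) (nat_lit 57) (nat_lit 58) = true := by decide +kernel
def p12_16_0_58 : pfC (piC [(nat_lit 35755509), (nat_lit 23968959), (nat_lit 17897616), (nat_lit 12073119)] (nat_lit 23538785)) p12_16_0 (nat_lit 4) (nat_lit 58) (nat_lit 59) = true := by decide +kernel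
def p12_16_0_59 : pfC (piC [(nat_lit 35755509), (nat_lit 23968959), (nat_lit 17897616), (nat_lit 12073119)] (nat_lit 23538785)) p12_16_0 (nat_lit 4) (nat_lit 59) (nat_lit 60) = true := by decide +kernel
def p12_16_0_60 : pfC (piC [(nat_lit 35755509), (nat_lit 23968959), (nat_lit 17897616), (nat_lit 12073119)] (nat_lit 23538785)) p12_16_0 (nat_lit 4) (nat_lit 60) (nat_lit 61) = true := by decide +kernel
def p12_16_0_61 : pfC (piC [(nat_lit 35755509), (nat_lit 23968959), (nat_lit 17897616), (nat_lit 12073119)] (nat_lit 23538785)) p12_16_0 (nat_lit 4) (nat_lit 61) (nat_lit 62) = true := by decide +kernel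
def p12_16_0_62 : pfC (piC [(nat_lit 35755509), (nat_lit 23968959), (nat_lit 17897616), (nat_lit 12073119)] (nat_lit 23538785)) p12_16_0 (nat_lit 4) (nat_lit 62) (nat_lit 63) = true := by decide +kernel
def p12_16_0_63 : pfC (piC [(nat_lit 35755509), (nat_lit 23968959), (nat_lit 17897616), (nat_lit 12073119)] (nat_lit 23538785)) p12_16_0 (nat_lit 4) (nat_lit 63) (nat_lit 64) = true := by decide +kernel
def p12_16_0_64 : pfC (piC [(nat_lit 35755509), (nat_lit 23968959), (nat_lit 17897616), (nat_lit 12073119)] (nat_lit 23538785)) p12_16_0 (nat_lit 4) (nat_lit 64) (nat_lit 65) = true := by decide +kernel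
def p12_16_0_65 : pfC (piC [(nat_lit 35755509), (nat_lit 23968959), (nat_lit 17897616), (nat_lit 12073119)] (nat_lit 23538785)) p12_16_0 (nat_lit 4) (nat_lit 65) (nat_lit 66) = true := by decide +kernel
def p12_16_0_66 : pfC (piC [(nat_lit 35755509), (nat_lit 23968959), (nat_lit 17897616), (nat_lit 12073119)] (nat_lit 23538785)) p12_16_0 (nat_lit 4) (nat_lit 66) (nat_lit 67) = true := by decide +kernel
def p12_16_0_67 : pfC (piC [(nat_lit 35755509), (nat_lit 23968959), (nat_lit 17897616), (nat_lit 12073119)] (nat_lit 23538785)) p12_16_0 (nat_lit 4) (nat_lit 67) (nat_lit 68) = true := by decide +kernel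
def p12_16_0_68 : pfC (piC [(nat_lit 35755509), (nat_lit 23968959), (nat_lit 17897616), (nat_lit 12073119)] (nat_lit 23538785)) p12_16_0 (nat_lit 4) (nat_lit 68) (nat_lit 69) = true := by decide +kernel
def p12_16_0_69 : pfC (piC [(nat_lit 35755509), (nat_lit 23968959), (nat_lit 17897616), (nat_lit 12073119)] (nat_lit 23538785)) p12_16_0 (nat_lit 4) (nat_lit 69) (nat_lit 70) = true := by decide +kernel
def p12_16_0_70 : pfC (piC [(nat_lit 35755509), (nat_lit 23968959), (nat_lit 17897616), (nat_lit 12073119)] (nat_lit 23538785)) p12_16_0 (nat_lit 4) (nat_lit 70) (nat_lit 71) = true := by decide +kernel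
def p12_16_0_71 : pfC (piC [(nat_lit 35755509), (nat_lit 23968959), (nat_lit 17897616), (nat_lit 12073119)] (nat_lit 23538785)) p12_16_0 (nat_lit 4) (nat_lit 71) (nat_lit 72) = true := by decide +kernel
def p12_16_0_72 : pfC (piC [(nat_lit 35755509), (nat_lit 23968959), (nat_lit 17897616), (nat_lit 12073119)] (nat_lit 23538785)) p12_16_0 (nat_lit 4) (nat_lit 72) (nat_lit 73) = true := by decide +kernel
def p12_16_0_73 : pfC (piC [(nat_lit 35755509), (nat_lit 23968959), (nat_lit 17897616), (nat_lit 12073119)] (nat_lit 23538785)) p12_16_0 (nat_lit 4) (nat_lit 73) (nat_lit 74) = true := by decide +kernel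
def p12_16_0_74 : pfC (piC [(nat_lit 35755509), (nat_lit 23968959), (nat_lit 17897616), (nat_lit 12073119)] (nat_lit 23538785)) p12_16_0 (nat_lit 4) (nat_lit 74) (nat_lit 75) = true := by decide +kernel
def p12_16_0_75 : pfC (piC [(nat_lit 35755509), (nat_lit 23968959), (nat_lit 17897616), (nat_lit 12073119)] (nat_lit 23538785)) p12_16_0 (nat_lit 4) (nat_lit 75) (nat_lit 76) = true := by decide +kernel
def p12_16_0_76 : pfC (piC [(nat_lit 35755509), (nat_lit 23968959), (nat_lit 17897616), (nat_lit 12073119)] (nat_lit 23538785)) p12_16_0 (nat_lit 4) (nat_lit 76) (nat_lit 77) = true := by decide +kernel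
def p12_16_0_77 : pfC (piC [(nat_lit 35755509), (nat_lit 23968959), (nat_lit 17897616), (nat_lit 12073119)] (nat_lit 23538785)) p12_16_0 (nat_lit 4) (nat_lit 77) (nat_lit 78) = true := by decide +kernel
def p12_16_0_78 : pfC (piC [(nat_lit 35755509), (nat_lit 23968959), (nat_lit 17897616), (nat_lit 12073119)] (nat_lit 23538785)) p12_16_0 (nat_lit 4) (nat_lit 78) (nat_lit 79) = true := by decide +kernel
def p12_16_0_79 : pfC (piC [(nat_lit 35755509), (nat_lit 23968959), (nat_lit 17897616), (nat_lit 12073119)] (nat_lit 23538785)) p12_16_0 (nat_lit 4) (nat_lit 79) (nat_lit 80) = true := by decide +kernel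
def p12_16_0_80 : pfC (piC [(nat_lit 35755509), (nat_lit 23968959), (nat_lit 17897616), (nat_lit 12073119)] (nat_lit 23538785)) p12_16_0 (nat_lit 4) (nat_lit 80) (nat_lit 81) = true := by decide +kernel
def p12_16_0_81 : pfC (piC [(nat_lit 35755509), (nat_lit 23968959), (nat_lit 17897616), (nat_lit 12073119)] (nat_lit 23538785)) p12_16_0 (nat_lit 4) (nat_lit 81) (nat_lit 82) = true := by decide +kernel
def p12_16_0_82 : pfC (piC [(nat_lit 35755509), (nat_lit 23968959), (nat_lit 17897616), (nat_lit 12073119)] (nat_lit 23538785)) p12_16_0 (nat_lit 4) (nat_lit 82) (nat_lit 83) = true := by decide +kernel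
def p12_16_0_83 : pfC (piC [(nat_lit 35755509), (nat_lit 23968959), (nat_lit 17897616), (nat_lit 12073119)] (nat_lit 23538785)) p12_16_0 (nat_lit 4) (nat_lit 83) (nat_lit 84) = true := by decide +kernel
def p12_16_0_84 : pfC (piC [(nat_lit 35755509), (nat_lit 23968959), (nat_lit 17897616), (nat_lit 12073119)] (nat_lit 23538785)) p12_16_0 (nat_lit 4) (nat_lit 84) (nat_lit 85) = true := by decide +kernel
def p12_16_0_85 : pfC (piC [(nat_lit 35755509), (nat_lit 23968959), (nat_lit 17897616), (nat_lit 12073119)] (nat_lit 23538785)) p12_16_0 (nat_lit 4) (nat_lit 85) (nat_lit 86) = true := by decide +kernel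
def p12_16_0_86 : pfC (piC [(nat_lit 35755509), (nat_lit 23968959), (nat_lit 17897616), (nat_lit 12073119)] (nat_lit 23538785)) p12_16_0 (nat_lit 4) (nat_lit 86) (nat_lit 87) = true := by decide +kernel
def p12_16_0_87 : pfC (piC [(nat_lit 35755509), (nat_lit 23968959), (nat_lit 17897616), (nat_lit 12073119)] (nat_lit 23538785)) p12_16_0 (nat_lit 4) (nat_lit 87) (nat_lit 88) = true := by decide +kernel
def p12_16_0_88 : pfC (piC [(nat_lit 35755509), (nat_lit 23968959), (nat_lit 17897616), (nat_lit 12073119)] (nat_lit 23538785)) p12_16_0 (nat_lit 4) (nat_lit 88) (nat_lit 89) = true := by decide +kernel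
def p12_16_0_89 : pfC (piC [(nat_lit 35755509), (nat_lit 23968959), (nat_lit 17897616), (nat_lit 12073119)] (nat_lit 23538785)) p12_16_0 (nat_lit 4) (nat_lit 89) (nat_lit 90) = true := by decide +kernel
def p12_16_0_90 : pfC (piC [(nat_lit 35755509), (nat_lit 23968959), (nat_lit 17897616), (nat_lit 12073119)] (nat_lit 23538785)) p12_16_0 (nat_lit 4) (nat_lit 90) (nat_lit 91) = true := by decide +kernel
def p12_16_0_91 : pfC (piC [(nat_lit 35755509), (nat_lit 23968959), (nat_lit 17897616), (nat_lit 12073119)] (nat_lit 23538785)) p12_16_0 (nat_lit 4) (nat_lit 91) (nat_lit 92) = true := by decide +kernel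
def p12_16_0_92 : pfC (piC [(nat_lit 35755509), (nat_lit 23968959), (nat_lit 17897616), (nat_lit 12073119)] (nat_lit 23538785)) p12_16_0 (nat_lit 4) (nat_lit 92) (nat_lit 93) = true := by decide +kernel
def p12_16_0_93 : pfC (piC [(nat_lit 35755509), (nat_lit 23968959), (nat_lit 17897616), (nat_lit 12073119)] (nat_lit 23538785)) p12_16_0 (nat_lit 4) (nat_lit 93) (nat_lit 94) = true := by decide +kernel
def p12_16_0_94 : pfC (piC [(nat_lit 35755509), (nat_lit 23968959), (nat_lit 17897616), (nat_lit 12073119)] (nat_lit 23538785)) p12_16_0 (nat_lit 4) (nat_lit 94) (nat_lit 95) = true := by decide +kernel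
def p12_16_0_95 : pfC (piC [(nat_lit 35755509), (nat_lit 23968959), (nat_lit 17897616), (nat_lit 12073119)] (nat_lit 23538785)) p12_16_0 (nat_lit 4) (nat_lit 95) (nat_lit 96) = true := by decide +kernel
def p12_16_0_96 : pfC (piC [(nat_lit 35755509), (nat_lit 23968959), (nat_lit 17897616), (nat_lit 12073119)] (nat_lit 23538785)) p12_16_0 (nat_lit 4) (nat_lit 96) (nat_lit 97) = true := by decide +kernel
def p12_16_0_97 : pfC (piC [(nat_lit 35755509), (nat_lit 23968959), (nat_lit 17897616), (nat_lit 12073119)] (nat_lit 23538785)) p12_16_0 (nat_lit 4) (nat_lit 97) (nat_lit 98) = true := by decide +kernel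
def p12_16_0_98 : pfC (piC [(nat_lit 35755509), (nat_lit 23968959), (nat_lit 17897616), (nat_lit 12073119)] (nat_lit 23538785)) p12_16_0 (nat_lit 4) (nat_lit 98) (nat_lit 99) = true := by decide +kernel
def p12_16_0_99 : pfC (piC [(nat_lit 35755509), (nat_lit 23968959), (nat_lit 17897616), (nat_lit 12073119)] (nat_lit 23538785)) p12_16_0 (nat_lit 4) (nat_lit 99) (nat_lit 100) = true := by decide +kernel
def p12_16_0_100 : pfC (piC [(nat_lit 35755509), (nat_lit 23968959), (nat_lit 17897616), (nat_lit 12073119)] (nat_lit 23538785)) p12_16_0 (nat_lit 4) (nat_lit 100) (nat_lit 101) = true := by decide +kernel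
def p12_16_0_101 : pfC (piC [(nat_lit 35755509), (nat_lit 23968959), (nat_lit 17897616), (nat_lit 12073119)] (nat_lit 23538785)) p12_16_0 (nat_lit 4) (nat_lit 101) (nat_lit 102) = true := by decide +kernel
def p12_16_0_102 : pfC (piC [(nat_lit 35755509), (nat_lit 23968959), (nat_lit 17897616), (nat_lit 12073119)] (nat_lit 23538785)) p12_16_0 (nat_lit 4) (nat_lit 102) (nat_lit 103) = true := by decide +kernel
def p12_16_0_103 : pfC (piC [(nat_lit 35755509), (nat_lit 23968959), (nat_lit 17897616), (nat_lit 12073119)] (nat_lit 23538785)) p12_16_0 (nat_lit 4) (nat_lit 103) (nat_lit 104) = true := by decide +kernel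
def p12_16_0_104 : pfC (piC [(nat_lit 35755509), (nat_lit 23968959), (nat_lit 17897616), (nat_lit 12073119)] (nat_lit 23538785)) p12_16_0 (nat_lit 4) (nat_lit 104) (nat_lit 105) = true := by decide +kernel
def p12_16_0_105 : pfC (piC [(nat_lit 35755509), (nat_lit 23968959), (nat_lit 17897616), (nat_lit 12073119)] (nat_lit 23538785)) p12_16_0 (nat_lit 4) (nat_lit 105) (nat_lit 106) = true := by decide +kernel
def p12_16_0_106 : pfC (piC [(nat_lit 35755509), (nat_lit 23968959), (nat_lit 17897616), (nat_lit 12073119)] (nat_lit 23538785)) p12_16_0 (nat_lit 4) (nat_lit 106) (nat_lit 107) = true := by decide +kernel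
def p12_16_0_107 : pfC (piC [(nat_lit 35755509), (nat_lit 23968959), (nat_lit 17897616), (nat_lit 12073119)] (nat_lit 23538785)) p12_16_0 (nat_lit 4) (nat_lit 107) (nat_lit 108) = true := by decide +kernel
def p12_16_0_108 : pfC (piC [(nat_lit 35755509), (nat_lit 23968959), (nat_lit 17897616), (nat_lit 12073119)] (nat_lit 23538785)) p12_16_0 (nat_lit 4) (nat_lit 108) (nat_lit 109) = true := by decide +kernel
def p12_16_0_109 : pfC (piC [(nat_lit 35755509), (nat_lit 23968959), (nat_lit 17897616), (nat_lit 12073119)] (nat_lit 23538785)) p12_16_0 (nat_lit 4) (nat_lit 109) (nat_lit 110) = true := by decide +kernel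
def p12_16_0_110 : pfC (piC [(nat_lit 35755509), (nat_lit 23968959), (nat_lit 17897616), (nat_lit 12073119)] (nat_lit 23538785)) p12_16_0 (nat_lit 4) (nat_lit 110) (nat_lit 111) = true := by decide +kernel
def p12_16_0_111 : pfC (piC [(nat_lit 35755509), (nat_lit 23968959), (nat_lit 17897616), (nat_lit 12073119)] (nat_lit 23538785)) p12_16_0 (nat_lit 4) (nat_lit 111) (nat_lit 112) = true := by decide +kernel
def p12_16_0_112 : pfC (piC [(nat_lit 35755509), (nat_lit 23968959), (nat_lit 17897616), (nat_lit 12073119)] (nat_lit 23538785)) p12_16_0 (nat_lit 4) (nat_lit 112) (nat_lit 113) = true := by decide +kernel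
def p12_16_0_113 : pfC (piC [(nat_lit 35755509), (nat_lit 23968959), (nat_lit 17897616), (nat_lit 12073119)] (nat_lit 23538785)) p12_16_0 (nat_lit 4) (nat_lit 113) (nat_lit 114) = true := by decide +kernel
def p12_16_0_114 : pfC (piC [(nat_lit 35755509), (nat_lit 23968959), (nat_lit 17897616), (nat_lit 12073119)] (nat_lit 23538785)) p12_16_0 (nat_lit 4) (nat_lit 114) (nat_lit 115) = true := by decide +kernel
def p12_16_0_115 : pfC (piC [(nat_lit 35755509), (nat_lit 23968959), (nat_lit 17897616), (nat_lit 12073119)] (nat_lit 23538785)) p12_16_0 (nat_lit 4) (nat_lit 115) (nat_lit 116) = true := by decide +kernel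
def p12_16_0_116 : pfC (piC [(nat_lit 35755509), (nat_lit 23968959), (nat_lit 17897616), (nat_lit 12073119)] (nat_lit 23538785)) p12_16_0 (nat_lit 4) (nat_lit 116) (nat_lit 117) = true := by decide +kernel
def p12_16_0_117 : pfC (piC [(nat_lit 35755509), (nat_lit 23968959), (nat_lit 17897616), (nat_lit 12073119)] (nat_lit 23538785)) p12_16_0 (nat_lit 4) (nat_lit 117) (nat_lit 118) = true := by decide +kernel
def p12_16_0_118 : pfC (piC [(nat_lit 35755509), (nat_lit 23968959), (nat_lit 17897616), (nat_lit 12073119)] (nat_lit 23538785)) p12_16_0 (nat_lit 4) (nat_lit 118) (nat_lit 119) = true := by decide +kernel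
def p12_16_0_119 : pfC (piC [(nat_lit 35755509), (nat_lit 23968959), (nat_lit 17897616), (nat_lit 12073119)] (nat_lit 23538785)) p12_16_0 (nat_lit 4) (nat_lit 119) (nat_lit 120) = true := by decide +kernel
def p12_16_0_120 : pfC (piC [(nat_lit 35755509), (nat_lit 23968959), (nat_lit 17897616), (nat_lit 12073119)] (nat_lit 23538785)) p12_16_0 (nat_lit 4) (nat_lit 120) (nat_lit 121) = true := by decide +kernel
def p12_16_0_121 : pfC (piC [(nat_lit 35755509), (nat_lit 23968959), (nat_lit 17897616), (nat_lit 12073119)] (nat_lit 23538785)) p12_16_0 (nat_lit 4) (nat_lit 121) (nat_lit 122) = true := by decide +kernel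
def p12_16_0_122 : pfC (piC [(nat_lit 35755509), (nat_lit 23968959), (nat_lit 17897616), (nat_lit 12073119)] (nat_lit 23538785)) p12_16_0 (nat_lit 4) (nat_lit 122) (nat_lit 123) = true := by decide +kernel
def p12_16_0_123 : pfC (piC [(nat_lit 35755509), (nat_lit 23968959), (nat_lit 17897616), (nat_lit 12073119)] (nat_lit 23538785)) p12_16_0 (nat_lit 4) (nat_lit 123) (nat_lit 124) = true := by decide +kernel
def p12_16_0_124 : pfC (piC [(nat_lit 35755509), (nat_lit 23968959), (nat_lit 17897616), (nat_lit 12073119)] (nat_lit 23538785)) p12_16_0 (nat_lit 4) (nat_lit 124) (nat_lit 125) = true := by decide +kernel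
def p12_16_0_125 : pfC (piC [(nat_lit 35755509), (nat_lit 23968959), (nat_lit 17897616), (nat_lit 12073119)] (nat_lit 23538785)) p12_16_0 (nat_lit 4) (nat_lit 125) (nat_lit 126) = true := by decide +kernel
def p12_16_0_126 : pfC (piC [(nat_lit 35755509), (nat_lit 23968959), (nat_lit 17897616), (nat_lit 12073119)] (nat_lit 23538785)) p12_16_0 (nat_lit 4) (nat_lit 126) (nat_lit 127) = true := by decide +kernel
def p12_16_0_127 : pfC (piC [(nat_lit 35755509), (nat_lit 23968959), (nat_lit 17897616), (nat_lit 12073119)] (nat_lit 23538785)) p12_16_0 (nat_lit 4) (nat_lit 127) (nat_lit 128) = true := by decide +kernel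
def p12_16_0_128 : pfC (piC [(nat_lit 35755509), (nat_lit 23968959), (nat_lit 17897616), (nat_lit 12073119)] (nat_lit 23538785)) p12_16_0 (nat_lit 4) (nat_lit 128) (nat_lit 129) = true := by decide +kernel
def p12_16_0_129 : pfC (piC [(nat_lit 35755509), (nat_lit 23968959), (nat_lit 17897616), (nat_lit 12073119)] (nat_lit 23538785)) p12_16_0 (nat_lit 4) (nat_lit 129) (nat_lit 130) = true := by decide +kernel
def p12_16_0_130 : pfC (piC [(nat_lit 35755509), (nat_lit 23968959), (nat_lit 17897616), (nat_lit 12073119)] (nat_lit 23538785)) p12_16_0 (nat_lit 4) (nat_lit 130) (nat_lit 131) = true := by decide +kernel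
def p12_16_0_131 : pfC (piC [(nat_lit 35755509), (nat_lit 23968959), (nat_lit 17897616), (nat_lit 12073119)] (nat_lit 23538785)) p12_16_0 (nat_lit 4) (nat_lit 131) (nat_lit 132) = true := by decide +kernel
def p12_16_0_132 : pfC (piC [(nat_lit 35755509), (nat_lit 23968959), (nat_lit 17897616), (nat_lit 12073119)] (nat_lit 23538785)) p12_16_0 (nat_lit 4) (nat_lit 132) (nat_lit 133) = true := by decide +kernel
def p12_16_0_133 : pfC (piC [(nat_lit 35755509), (nat_lit 23968959), (nat_lit 17897616), (nat_lit 12073119)] (nat_lit 23538785)) p12_16_0 (nat_lit 4) (nat_lit 133) (nat_lit 134) = true := by decide +kernel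
def p12_16_0_134 : pfC (piC [(nat_lit 35755509), (nat_lit 23968959), (nat_lit 17897616), (nat_lit 12073119)] (nat_lit 23538785)) p12_16_0 (nat_lit 4) (nat_lit 134) (nat_lit 135) = true := by decide +kernel
def p12_16_0_135 : pfC (piC [(nat_lit 35755509), (nat_lit 23968959), (nat_lit 17897616), (nat_lit 12073119)] (nat_lit 23538785)) p12_16_0 (nat_lit 4) (nat_lit 135) (nat_lit 136) = true := by decide +kernel
def p12_16_0_136 : pfC (piC [(nat_lit 35755509), (nat_lit 23968959), (nat_lit 17897616), (nat_lit 12073119)] (nat_lit 23538785)) p12_16_0 (nat_lit 4) (nat_lit 136) (nat_lit 137) = true := by decide +kernel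
def p12_16_0_137 : pfC (piC [(nat_lit 35755509), (nat_lit 23968959), (nat_lit 17897616), (nat_lit 12073119)] (nat_lit 23538785)) p12_16_0 (nat_lit 4) (nat_lit 137) (nat_lit 138) = true := by decide +kernel
def p12_16_0_138 : pfC (piC [(nat_lit 35755509), (nat_lit 23968959), (nat_lit 17897616), (nat_lit 12073119)] (nat_lit 23538785)) p12_16_0 (nat_lit 4) (nat_lit 138) (nat_lit 139) = true := by decide +kernel
def p12_16_0_139 : pfC (piC [(nat_lit 35755509), (nat_lit 23968959), (nat_lit 17897616), (nat_lit 12073119)] (nat_lit 23538785)) p12_16_0 (nat_lit 4) (nat_lit 139) (nat_lit 140) = true := by decide +kernel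
def p12_16_0_140 : pfC (piC [(nat_lit 35755509), (nat_lit 23968959), (nat_lit 17897616), (nat_lit 12073119)] (nat_lit 23538785)) p12_16_0 (nat_lit 4) (nat_lit 140) (nat_lit 141) = true := by decide +kernel
def p12_16_0_141 : pfC (piC [(nat_lit 35755509), (nat_lit 23968959), (nat_lit 17897616), (nat_lit 12073119)] (nat_lit 23538785)) p12_16_0 (nat_lit 4) (nat_lit 141) (nat_lit 142) = true := by decide +kernel
def p12_16_0_142 : pfC (piC [(nat_lit 35755509), (nat_lit 23968959), (nat_lit 17897616), (nat_lit 12073119)] (nat_lit 23538785)) p12_16_0 (nat_lit 4) (nat_lit 142) (nat_lit 143) = true := by decide +kernel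
def p12_16_0_143 : pfC (piC [(nat_lit 35755509), (nat_lit 23968959), (nat_lit 17897616), (nat_lit 12073119)] (nat_lit 23538785)) p12_16_0 (nat_lit 4) (nat_lit 143) (nat_lit 144) = true := by decide +kernel
def p12_16_0_144 : pfC (piC [(nat_lit 35755509), (nat_lit 23968959), (nat_lit 17897616), (nat_lit 12073119)] (nat_lit 23538785)) p12_16_0 (nat_lit 4) (nat_lit 144) (nat_lit 145) = true := by decide +kernel
def p12_16_0_145 : pfC (piC [(nat_lit 35755509), (nat_lit 23968959), (nat_lit 17897616), (nat_lit 12073119)] (nat_lit 23538785)) p12_16_0 (nat_lit 4) (nat_lit 145) (nat_lit 146) = true := by decide +kernel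
def p12_16_0_146 : pfC (piC [(nat_lit 35755509), (nat_lit 23968959), (nat_lit 17897616), (nat_lit 12073119)] (nat_lit 23538785)) p12_16_0 (nat_lit 4) (nat_lit 146) (nat_lit 147) = true := by decide +kernel
def p12_16_0_147 : pfC (piC [(nat_lit 35755509), (nat_lit 23968959), (nat_lit 17897616), (nat_lit 12073119)] (nat_lit 23538785)) p12_16_0 (nat_lit 4) (nat_lit 147) (nat_lit 148) = true := by decide +kernel
def p12_16_0_148 : pfC (piC [(nat_lit 35755509), (nat_lit 23968959), (nat_lit 17897616), (nat_lit 12073119)] (nat_lit 23538785)) p12_16_0 (nat_lit 4) (nat_lit 148) (nat_lit 149) = true := by decide +kernel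
def p12_16_0_149 : pfC (piC [(nat_lit 35755509), (nat_lit 23968959), (nat_lit 17897616), (nat_lit 12073119)] (nat_lit 23538785)) p12_16_0 (nat_lit 4) (nat_lit 149) (nat_lit 150) = true := by decide +kernel
def p12_16_0_150 : pfC (piC [(nat_lit 35755509), (nat_lit 23968959), (nat_lit 17897616), (nat_lit 12073119)] (nat_lit 23538785)) p12_16_0 (nat_lit 4) (nat_lit 150) (nat_lit 151) = true := by decide +kernel
def p12_16_0_151 : pfC (piC [(nat_lit 35755509), (nat_lit 23968959), (nat_lit 17897616), (nat_lit 12073119)] (nat_lit 23538785)) p12_16_0 (nat_lit 4) (nat_lit 151) (nat_lit 152) = true := by decide +kernel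
def p12_16_0_152 : pfC (piC [(nat_lit 35755509), (nat_lit 23968959), (nat_lit 17897616), (nat_lit 12073119)] (nat_lit 23538785)) p12_16_0 (nat_lit 4) (nat_lit 152) (nat_lit 153) = true := by decide +kernel
def p12_16_0_153 : pfC (piC [(nat_lit 35755509), (nat_lit 23968959), (nat_lit 17897616), (nat_lit 12073119)] (nat_lit 23538785)) p12_16_0 (nat_lit 4) (nat_lit 153) (nat_lit 154) = true := by decide +kernel
def p12_16_0_154 : pfC (piC [(nat_lit 35755509), (nat_lit 23968959), (nat_lit 17897616), (nat_lit 12073119)] (nat_lit 23538785)) p12_16_0 (nat_lit 4) (nat_lit 154) (nat_lit 155) = true := by decide +kernel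
def p12_16_0_155 : pfC (piC [(nat_lit 35755509), (nat_lit 23968959), (nat_lit 17897616), (nat_lit 12073119)] (nat_lit 23538785)) p12_16_0 (nat_lit 4) (nat_lit 155) (nat_lit 156) = true := by decide +kernel
def p12_16_0_156 : pfC (piC [(nat_lit 35755509), (nat_lit 23968959), (nat_lit 17897616), (nat_lit 12073119)] (nat_lit 23538785)) p12_16_0 (nat_lit 4) (nat_lit 156) (nat_lit 157) = true := by decide +kernel
def p12_16_0_157 : pfC (piC [(nat_lit 35755509), (nat_lit 23968959), (nat_lit 17897616), (nat_lit 12073119)] (nat_lit 23538785)) p12_16_0 (nat_lit 4) (nat_lit 157) (nat_lit 158) = true := by decide +kernel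
def p12_16_0_158 : pfC (piC [(nat_lit 35755509), (nat_lit 23968959), (nat_lit 17897616), (nat_lit 12073119)] (nat_lit 23538785)) p12_16_0 (nat_lit 4) (nat_lit 158) (nat_lit 159) = true := by decide +kernel
def p12_16_0_159 : pfC (piC [(nat_lit 35755509), (nat_lit 23968959), (nat_lit 17897616), (nat_lit 12073119)] (nat_lit 23538785)) p12_16_0 (nat_lit 4) (nat_lit 159) (nat_lit 160) = true := by decide +kernel
def p12_16_0_160 : pfC (piC [(nat_lit 35755509), (nat_lit 23968959), (nat_lit 17897616), (nat_lit 12073119)] (nat_lit 23538785)) p12_16_0 (nat_lit 4) (nat_lit 160) (nat_lit 161) = true := by decide +kernel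
def p12_16_0_161 : pfC (piC [(nat_lit 35755509), (nat_lit 23968959), (nat_lit 17897616), (nat_lit 12073119)] (nat_lit 23538785)) p12_16_0 (nat_lit 4) (nat_lit 161) (nat_lit 162) = true := by decide +kernel
def p12_16_0_162 : pfC (piC [(nat_lit 35755509), (nat_lit 23968959), (nat_lit 17897616), (nat_lit 12073119)] (nat_lit 23538785)) p12_16_0 (nat_lit 4) (nat_lit 162) (nat_lit 163) = true := by decide +kernel
def p12_16_0_163 : pfC (piC [(nat_lit 35755509), (nat_lit 23968959), (nat_lit 17897616), (nat_lit 12073119)] (nat_lit 23538785)) p12_16_0 (nat_lit 4) (nat_lit 163) (nat_lit 164) = true := by decide +kernel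
def p12_16_0_164 : pfC (piC [(nat_lit 35755509), (nat_lit 23968959), (nat_lit 17897616), (nat_lit 12073119)] (nat_lit 23538785)) p12_16_0 (nat_lit 4) (nat_lit 164) (nat_lit 165) = true := by decide +kernel
def p12_16_0_165 : pfC (piC [(nat_lit 35755509), (nat_lit 23968959), (nat_lit 17897616), (nat_lit 12073119)] (nat_lit 23538785)) p12_16_0 (nat_lit 4) (nat_lit 165) (nat_lit 166) = true := by decide +kernel
def p12_16_0_166 : pfC (piC [(nat_lit 35755509), (nat_lit 23968959), (nat_lit 17897616), (nat_lit 12073119)] (nat_lit 23538785)) p12_16_0 (nat_lit 4) (nat_lit 166) (nat_lit 167) = true := by decide +kernel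
def p12_16_0_167 : pfC (piC [(nat_lit 35755509), (nat_lit 23968959), (nat_lit 17897616), (nat_lit 12073119)] (nat_lit 23538785)) p12_16_0 (nat_lit 4) (nat_lit 167) (nat_lit 168) = true := by decide +kernel
def p12_16_0_168 : pfC (piC [(nat_lit 35755509), (nat_lit 23968959), (nat_lit 17897616), (nat_lit 12073119)] (nat_lit 23538785)) p12_16_0 (nat_lit 4) (nat_lit 168) (nat_lit 169) = true := by decide +kernel
def p12_16_0_169 : pfC (piC [(nat_lit 35755509), (nat_lit 23968959), (nat_lit 17897616), (nat_lit 12073119)] (nat_lit 23538785)) p12_16_0 (nat_lit 4) (nat_lit 169) (nat_lit 170) = true := by decide +kernel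
def p12_16_0_170 : pfC (piC [(nat_lit 35755509), (nat_lit 23968959), (nat_lit 17897616), (nat_lit 12073119)] (nat_lit 23538785)) p12_16_0 (nat_lit 4) (nat_lit 170) (nat_lit 171) = true := by decide +kernel
def p12_16_0_171 : pfC (piC [(nat_lit 35755509), (nat_lit 23968959), (nat_lit 17897616), (nat_lit 12073119)] (nat_lit 23538785)) p12_16_0 (nat_lit 4) (nat_lit 171) (nat_lit 172) = true := by decide +kernel
def p12_16_0_172 : pfC (piC [(nat_lit 35755509), (nat_lit 23968959), (nat_lit 17897616), (nat_lit 12073119)] (nat_lit 23538785)) p12_16_0 (nat_lit 4) (nat_lit 172) (nat_lit 173) = true := by decide +kernel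
def p12_16_0_173 : pfC (piC [(nat_lit 35755509), (nat_lit 23968959), (nat_lit 17897616), (nat_lit 12073119)] (nat_lit 23538785)) p12_16_0 (nat_lit 4) (nat_lit 173) (nat_lit 174) = true := by decide +kernel
def p12_16_0_174 : pfC (piC [(nat_lit 35755509), (nat_lit 23968959), (nat_lit 17897616), (nat_lit 12073119)] (nat_lit 23538785)) p12_16_0 (nat_lit 4) (nat_lit 174) (nat_lit 175) = true := by decide +kernel
def p12_16_0_175 : pfC (piC [(nat_lit 35755509), (nat_lit 23968959), (nat_lit 17897616), (nat_lit 12073119)] (nat_lit 23538785)) p12_16_0 (nat_lit 4) (nat_lit 175) (nat_lit 176) = true := by decide +kernel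
def p12_16_0_176 : pfC (piC [(nat_lit 35755509), (nat_lit 23968959), (nat_lit 17897616), (nat_lit 12073119)] (nat_lit 23538785)) p12_16_0 (nat_lit 4) (nat_lit 176) (nat_lit 177) = true := by decide +kernel
def p12_16_0_177 : pfC (piC [(nat_lit 35755509), (nat_lit 23968959), (nat_lit 17897616), (nat_lit 12073119)] (nat_lit 23538785)) p12_16_0 (nat_lit 4) (nat_lit 177) (nat_lit 178) = true := by decide +kernel
def p12_16_0_178 : pfC (piC [(nat_lit 35755509), (nat_lit 23968959), (nat_lit 17897616), (nat_lit 12073119)] (nat_lit 23538785)) p12_16_0 (nat_lit 4) (nat_lit 178) (nat_lit 179) = true := by decide +kernel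
def p12_16_0_179 : pfC (piC [(nat_lit 35755509), (nat_lit 23968959), (nat_lit 17897616), (nat_lit 12073119)] (nat_lit 23538785)) p12_16_0 (nat_lit 4) (nat_lit 179) (nat_lit 180) = true := by decide +kernel
def p12_16_0_180 : pfC (piC [(nat_lit 35755509), (nat_lit 23968959), (nat_lit 17897616), (nat_lit 12073119)] (nat_lit 23538785)) p12_16_0 (nat_lit 4) (nat_lit 180) (nat_lit 181) = true := by decide +kernel
def p12_16_0_181 : pfC (piC [(nat_lit 35755509), (nat_lit 23968959), (nat_lit 17897616), (nat_lit 12073119)] (nat_lit 23538785)) p12_16_0 (nat_lit 4) (nat_lit 181) (nat_lit 182) = true := by decide +kernel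
def p12_16_0_182 : pfC (piC [(nat_lit 35755509), (nat_lit 23968959), (nat_lit 17897616), (nat_lit 12073119)] (nat_lit 23538785)) p12_16_0 (nat_lit 4) (nat_lit 182) (nat_lit 183) = true := by decide +kernel
def p12_16_0_183 : pfC (piC [(nat_lit 35755509), (nat_lit 23968959), (nat_lit 17897616), (nat_lit 12073119)] (nat_lit 23538785)) p12_16_0 (nat_lit 4) (nat_lit 183) (nat_lit 184) = true := by decide +kernel
def p12_16_0_184 : pfC (piC [(nat_lit 35755509), (nat_lit 23968959), (nat_lit 17897616), (nat_lit 12073119)] (nat_lit 23538785)) p12_16_0 (nat_lit 4) (nat_lit 184) (nat_lit 185) = true := by decide +kernel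
def p12_16_0_185 : pfC (piC [(nat_lit 35755509), (nat_lit 23968959), (nat_lit 17897616), (nat_lit 12073119)] (nat_lit 23538785)) p12_16_0 (nat_lit 4) (nat_lit 185) (nat_lit 186) = true := by decide +kernel
def p12_16_0_186 : pfC (piC [(nat_lit 35755509), (nat_lit 23968959), (nat_lit 17897616), (nat_lit 12073119)] (nat_lit 23538785)) p12_16_0 (nat_lit 4) (nat_lit 186) (nat_lit 187) = true := by decide +kernel
def p12_16_0_187 : pfC (piC [(nat_lit 35755509), (nat_lit 23968959), (nat_lit 17897616), (nat_lit 12073119)] (nat_lit 23538785)) p12_16_0 (nat_lit 4) (nat_lit 187) (nat_lit 188) = true := by decide +kernel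
def p12_16_0_188 : pfC (piC [(nat_lit 35755509), (nat_lit 23968959), (nat_lit 17897616), (nat_lit 12073119)] (nat_lit 23538785)) p12_16_0 (nat_lit 4) (nat_lit 188) (nat_lit 189) = true := by decide +kernel
def p12_16_0_189 : pfC (piC [(nat_lit 35755509), (nat_lit 23968959), (nat_lit 17897616), (nat_lit 12073119)] (nat_lit 23538785)) p12_16_0 (nat_lit 4) (nat_lit 189) (nat_lit 190) = true := by decide +kernel
def p12_16_0_190 : pfC (piC [(nat_lit 35755509), (nat_lit 23968959), (nat_lit 17897616), (nat_lit 12073119)] (nat_lit 23538785)) p12_16_0 (nat_lit 4) (nat_lit 190) (nat_lit 191) = true := by decide +kernel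
def p12_16_0_191 : pfC (piC [(nat_lit 35755509), (nat_lit 23968959), (nat_lit 17897616), (nat_lit 12073119)] (nat_lit 23538785)) p12_16_0 (nat_lit 4) (nat_lit 191) (nat_lit 192) = true := by decide +kernel
def p12_16_0_192 : pfC (piC [(nat_lit 35755509), (nat_lit 23968959), (nat_lit 17897616), (nat_lit 12073119)] (nat_lit 23538785)) p12_16_0 (nat_lit 4) (nat_lit 192) (nat_lit 193) = true := by decide +kernel
def p12_16_0_193 : pfC (piC [(nat_lit 35755509), (nat_lit 23968959), (nat_lit 17897616), (nat_lit 12073119)] (nat_lit 23538785)) p12_16_0 (nat_lit 4) (nat_lit 193) (nat_lit 194) = true := by decide +kernel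
def p12_16_0_194 : pfC (piC [(nat_lit 35755509), (nat_lit 23968959), (nat_lit 17897616), (nat_lit 12073119)] (nat_lit 23538785)) p12_16_0 (nat_lit 4) (nat_lit 194) (nat_lit 195) = true := by decide +kernel
def p12_16_0_195 : pfC (piC [(nat_lit 35755509), (nat_lit 23968959), (nat_lit 17897616), (nat_lit 12073119)] (nat_lit 23538785)) p12_16_0 (nat_lit 4) (nat_lit 195) (nat_lit 196) = true := by decide +kernel
def p12_16_0_196 : pfC (piC [(nat_lit 35755509), (nat_lit 23968959), (nat_lit 17897616), (nat_lit 12073119)] (nat_lit 23538785)) p12_16_0 (nat_lit 4) (nat_lit 196) (nat_lit 197) = true := by decide +kernel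
def p12_16_0_197 : pfC (piC [(nat_lit 35755509), (nat_lit 23968959), (nat_lit 17897616), (nat_lit 12073119)] (nat_lit 23538785)) p12_16_0 (nat_lit 4) (nat_lit 197) (nat_lit 198) = true := by decide +kernel
def p12_16_0_198 : pfC (piC [(nat_lit 35755509), (nat_lit 23968959), (nat_lit 17897616), (nat_lit 12073119)] (nat_lit 23538785)) p12_16_0 (nat_lit 4) (nat_lit 198) (nat_lit 199) = true := by decide +kernel
def p12_16_0_199 : pfC (piC [(nat_lit 35755509), (nat_lit 23968959), (nat_lit 17897616), (nat_lit 12073119)] (nat_lit 23538785)) p12_16_0 (nat_lit 4) (nat_lit 199) (nat_lit 200) = true := by decide +kernel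
def p12_16_0_200 : pfC (piC [(nat_lit 35755509), (nat_lit 23968959), (nat_lit 17897616), (nat_lit 12073119)] (nat_lit 23538785)) p12_16_0 (nat_lit 4) (nat_lit 200) (nat_lit 201) = true := by decide +kernel
def p12_16_0_201 : pfC (piC [(nat_lit 35755509), (nat_lit 23968959), (nat_lit 17897616), (nat_lit 12073119)] (nat_lit 23538785)) p12_16_0 (nat_lit 4) (nat_lit 201) (nat_lit 202) = true := by decide +kernel
def p12_16_0_202 : pfC (piC [(nat_lit 35755509), (nat_lit 23968959), (nat_lit 17897616), (nat_lit 12073119)] (nat_lit 23538785)) p12_16_0 (nat_lit 4) (nat_lit 202) (nat_lit 203) = true := by decide +kernel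
def p12_16_0_203 : pfC (piC [(nat_lit 35755509), (nat_lit 23968959), (nat_lit 17897616), (nat_lit 12073119)] (nat_lit 23538785)) p12_16_0 (nat_lit 4) (nat_lit 203) (nat_lit 204) = true := by decide +kernel
def p12_16_0_204 : pfC (piC [(nat_lit 35755509), (nat_lit 23968959), (nat_lit 17897616), (nat_lit 12073119)] (nat_lit 23538785)) p12_16_0 (nat_lit 4) (nat_lit 204) (nat_lit 205) = true := by decide +kernel
def p12_16_0_205 : pfC (piC [(nat_lit 35755509), (nat_lit 23968959), (nat_lit 17897616), (nat_lit 12073119)] (nat_lit 23538785)) p12_16_0 (nat_lit 4) (nat_lit 205) (nat_lit 206) = true := by decide +kernel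
def p12_16_0_206 : pfC (piC [(nat_lit 35755509), (nat_lit 23968959), (nat_lit 17897616), (nat_lit 12073119)] (nat_lit 23538785)) p12_16_0 (nat_lit 4) (nat_lit 206) (nat_lit 207) = true := by decide +kernel
def p12_16_0_207 : pfC (piC [(nat_lit 35755509), (nat_lit 23968959), (nat_lit 17897616), (nat_lit 12073119)] (nat_lit 23538785)) p12_16_0 (nat_lit 4) (nat_lit 207) (nat_lit 208) = true := by decide +kernel
def p12_16_0_208 : pfC (piC [(nat_lit 35755509), (nat_lit 23968959), (nat_lit 17897616), (nat_lit 12073119)] (nat_lit 23538785)) p12_16_0 (nat_lit 4) (nat_lit 208) (nat_lit 209) = true := by decide +kernel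
def p12_16_0_209 : pfC (piC [(nat_lit 35755509), (nat_lit 23968959), (nat_lit 17897616), (nat_lit 12073119)] (nat_lit 23538785)) p12_16_0 (nat_lit 4) (nat_lit 209) (nat_lit 210) = true := by decide +kernel
def p12_16_0_210 : pfC (piC [(nat_lit 35755509), (nat_lit 23968959), (nat_lit 17897616), (nat_lit 12073119)] (nat_lit 23538785)) p12_16_0 (nat_lit 4) (nat_lit 210) (nat_lit 211) = true := by decide +kernel
def p12_16_0_211 : pfC (piC [(nat_lit 35755509), (nat_lit 23968959), (nat_lit 17897616), (nat_lit 12073119)] (nat_lit 23538785)) p12_16_0 (nat_lit 4) (nat_lit 211) (nat_lit 212) = true := by decide +kernel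
def p12_16_0_212 : pfC (piC [(nat_lit 35755509), (nat_lit 23968959), (nat_lit 17897616), (nat_lit 12073119)] (nat_lit 23538785)) p12_16_0 (nat_lit 4) (nat_lit 212) (nat_lit 213) = true := by decide +kernel
def p12_16_0_213 : pfC (piC [(nat_lit 35755509), (nat_lit 23968959), (nat_lit 17897616), (nat_lit 12073119)] (nat_lit 23538785)) p12_16_0 (nat_lit 4) (nat_lit 213) (nat_lit 214) = true := by decide +kernel
def p12_16_0_214 : pfC (piC [(nat_lit 35755509), (nat_lit 23968959), (nat_lit 17897616), (nat_lit 12073119)] (nat_lit 23538785)) p12_16_0 (nat_lit 4) (nat_lit 214) (nat_lit 215) = true := by decide +kernel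
def p12_16_0_215 : pfC (piC [(nat_lit 35755509), (nat_lit 23968959), (nat_lit 17897616), (nat_lit 12073119)] (nat_lit 23538785)) p12_16_0 (nat_lit 4) (nat_lit 215) (nat_lit 216) = true := by decide +kernel
def p12_16_0_216 : pfC (piC [(nat_lit 35755509), (nat_lit 23968959), (nat_lit 17897616), (nat_lit 12073119)] (nat_lit 23538785)) p12_16_0 (nat_lit 4) (nat_lit 216) (nat_lit 217) = true := by decide +kernel
def p12_16_0_217 : pfC (piC [(nat_lit 35755509), (nat_lit 23968959), (nat_lit 17897616), (nat_lit 12073119)] (nat_lit 23538785)) p12_16_0 (nat_lit 4) (nat_lit 217) (nat_lit 218) = true := by decide +kernel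
def p12_16_0_218 : pfC (piC [(nat_lit 35755509), (nat_lit 23968959), (nat_lit 17897616), (nat_lit 12073119)] (nat_lit 23538785)) p12_16_0 (nat_lit 4) (nat_lit 218) (nat_lit 219) = true := by decide +kernel
def p12_16_0_219 : pfC (piC [(nat_lit 35755509), (nat_lit 23968959), (nat_lit 17897616), (nat_lit 12073119)] (nat_lit 23538785)) p12_16_0 (nat_lit 4) (nat_lit 219) (nat_lit 220) = true := by decide +kernel
def p12_16_0_220 : pfC (piC [(nat_lit 35755509), (nat_lit 23968959), (nat_lit 17897616), (nat_lit 12073119)] (nat_lit 23538785)) p12_16_0 (nat_lit 4) (nat_lit 220) (nat_lit 221) = true := by decide +kernel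
def p12_16_0_221 : pfC (piC [(nat_lit 35755509), (nat_lit 23968959), (nat_lit 17897616), (nat_lit 12073119)] (nat_lit 23538785)) p12_16_0 (nat_lit 4) (nat_lit 221) (nat_lit 222) = true := by decide +kernel
def p12_16_0_222 : pfC (piC [(nat_lit 35755509), (nat_lit 23968959), (nat_lit 17897616), (nat_lit 12073119)] (nat_lit 23538785)) p12_16_0 (nat_lit 4) (nat_lit 222) (nat_lit 223) = true := by decide +kernel
def p12_16_0_223 : pfC (piC [(nat_lit 35755509), (nat_lit 23968959), (nat_lit 17897616), (nat_lit 12073119)] (nat_lit 23538785)) p12_16_0 (nat_lit 4) (nat_lit 223) (nat_lit 224) = true := by decide +kernel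
def p12_16_0_224 : pfC (piC [(nat_lit 35755509), (nat_lit 23968959), (nat_lit 17897616), (nat_lit 12073119)] (nat_lit 23538785)) p12_16_0 (nat_lit 4) (nat_lit 224) (nat_lit 225) = true := by decide +kernel
def p12_16_0_225 : pfC (piC [(nat_lit 35755509), (nat_lit 23968959), (nat_lit 17897616), (nat_lit 12073119)] (nat_lit 23538785)) p12_16_0 (nat_lit 4) (nat_lit 225) (nat_lit 226) = true := by decide +kernel
def p12_16_0_226 : pfC (piC [(nat_lit 35755509), (nat_lit 23968959), (nat_lit 17897616), (nat_lit 12073119)] (nat_lit 23538785)) p12_16_0 (nat_lit 4) (nat_lit 226) (nat_lit 227) = true := by decide +kernel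
def p12_16_0_227 : pfC (piC [(nat_lit 35755509), (nat_lit 23968959), (nat_lit 17897616), (nat_lit 12073119)] (nat_lit 23538785)) p12_16_0 (nat_lit 4) (nat_lit 227) (nat_lit 228) = true := by decide +kernel
def p12_16_0_228 : pfC (piC [(nat_lit 35755509), (nat_lit 23968959), (nat_lit 17897616), (nat_lit 12073119)] (nat_lit 23538785)) p12_16_0 (nat_lit 4) (nat_lit 228) (nat_lit 229) = true := by decide +kernel
def p12_16_0_229 : pfC (piC [(nat_lit 35755509), (nat_lit 23968959), (nat_lit 17897616), (nat_lit 12073119)] (nat_lit 23538785)) p12_16_0 (nat_lit 4) (nat_lit 229) (nat_lit 230) = true := by decide +kernel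
def p12_16_0_230 : pfC (piC [(nat_lit 35755509), (nat_lit 23968959), (nat_lit 17897616), (nat_lit 12073119)] (nat_lit 23538785)) p12_16_0 (nat_lit 4) (nat_lit 230) (nat_lit 231) = true := by decide +kernel
def p12_16_0_231 : pfC (piC [(nat_lit 35755509), (nat_lit 23968959), (nat_lit 17897616), (nat_lit 12073119)] (nat_lit 23538785)) p12_16_0 (nat_lit 4) (nat_lit 231) (nat_lit 232) = true := by decide +kernel
def p12_16_0_232 : pfC (piC [(nat_lit 35755509), (nat_lit 23968959), (nat_lit 17897616), (nat_lit 12073119)] (nat_lit 23538785)) p12_16_0 (nat_lit 4) (nat_lit 232) (nat_lit 233) = true := by decide +kernel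
def p12_16_0_233 : pfC (piC [(nat_lit 35755509), (nat_lit 23968959), (nat_lit 17897616), (nat_lit 12073119)] (nat_lit 23538785)) p12_16_0 (nat_lit 4) (nat_lit 233) (nat_lit 234) = true := by decide +kernel
def p12_16_0_234 : pfC (piC [(nat_lit 35755509), (nat_lit 23968959), (nat_lit 17897616), (nat_lit 12073119)] (nat_lit 23538785)) p12_16_0 (nat_lit 4) (nat_lit 234) (nat_lit 235) = true := by decide +kernel
def p12_16_0_235 : pfC (piC [(nat_lit 35755509), (nat_lit 23968959), (nat_lit 17897616), (nat_lit 12073119)] (nat_lit 23538785)) p12_16_0 (nat_lit 4) (nat_lit 235) (nat_lit 236) = true := by decide +kernel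
def p12_16_0_236 : pfC (piC [(nat_lit 35755509), (nat_lit 23968959), (nat_lit 17897616), (nat_lit 12073119)] (nat_lit 23538785)) p12_16_0 (nat_lit 4) (nat_lit 236) (nat_lit 237) = true := by decide +kernel
def p12_16_0_237 : pfC (piC [(nat_lit 35755509), (nat_lit 23968959), (nat_lit 17897616), (nat_lit 12073119)] (nat_lit 23538785)) p12_16_0 (nat_lit 4) (nat_lit 237) (nat_lit 238) = true := by decide +kernel
def p12_16_0_238 : pfC (piC [(nat_lit 35755509), (nat_lit 23968959), (nat_lit 17897616), (nat_lit 12073119)] (nat_lit 23538785)) p12_16_0 (nat_lit 4) (nat_lit 238) (nat_lit 239) = true := by decide +kernel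
def p12_16_0_239 : pfC (piC [(nat_lit 35755509), (nat_lit 23968959), (nat_lit 17897616), (nat_lit 12073119)] (nat_lit 23538785)) p12_16_0 (nat_lit 4) (nat_lit 239) (nat_lit 240) = true := by decide +kernel
def p12_16_0_240 : pfC (piC [(nat_lit 35755509), (nat_lit 23968959), (nat_lit 17897616), (nat_lit 12073119)] (nat_lit 23538785)) p12_16_0 (nat_lit 4) (nat_lit 240) (nat_lit 241) = true := by decide +kernel
def p12_16_0_241 : pfC (piC [(nat_lit 35755509), (nat_lit 23968959), (nat_lit 17897616), (nat_lit 12073119)] (nat_lit 23538785)) p12_16_0 (nat_lit 4) (nat_lit 241) (nat_lit 242) = true := by decide +kernel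
def p12_16_0_242 : pfC (piC [(nat_lit 35755509), (nat_lit 23968959), (nat_lit 17897616), (nat_lit 12073119)] (nat_lit 23538785)) p12_16_0 (nat_lit 4) (nat_lit 242) (nat_lit 243) = true := by decide +kernel
def p12_16_0_243 : pfC (piC [(nat_lit 35755509), (nat_lit 23968959), (nat_lit 17897616), (nat_lit 12073119)] (nat_lit 23538785)) p12_16_0 (nat_lit 4) (nat_lit 243) (nat_lit 244) = true := by decide +kernel
def p12_16_0_244 : pfC (piC [(nat_lit 35755509), (nat_lit 23968959), (nat_lit 17897616), (nat_lit 12073119)] (nat_lit 23538785)) p12_16_0 (nat_lit 4) (nat_lit 244) (nat_lit 245) = true := by decide +kernel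
def p12_16_0_245 : pfC (piC [(nat_lit 35755509), (nat_lit 23968959), (nat_lit 17897616), (nat_lit 12073119)] (nat_lit 23538785)) p12_16_0 (nat_lit 4) (nat_lit 245) (nat_lit 246) = true := by decide +kernel
def p12_16_0_246 : pfC (piC [(nat_lit 35755509), (nat_lit 23968959), (nat_lit 17897616), (nat_lit 12073119)] (nat_lit 23538785)) p12_16_0 (nat_lit 4) (nat_lit 246) (nat_lit 247) = true := by decide +kernel
def p12_16_0_247 : pfC (piC [(nat_lit 35755509), (nat_lit 23968959), (nat_lit 17897616), (nat_lit 12073119)] (nat_lit 23538785)) p12_16_0 (nat_lit 4) (nat_lit 247) (nat_lit 248) = true := by decide +kernel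
def p12_16_0_248 : pfC (piC [(nat_lit 35755509), (nat_lit 23968959), (nat_lit 17897616), (nat_lit 12073119)] (nat_lit 23538785)) p12_16_0 (nat_lit 4) (nat_lit 248) (nat_lit 249) = true := by decide +kernel
def p12_16_0_249 : pfC (piC [(nat_lit 35755509), (nat_lit 23968959), (nat_lit 17897616), (nat_lit 12073119)] (nat_lit 23538785)) p12_16_0 (nat_lit 4) (nat_lit 249) (nat_lit 250) = true := by decide +kernel
def p12_16_0_250 : pfC (piC [(nat_lit 35755509), (nat_lit 23968959), (nat_lit 17897616), (nat_lit 12073119)] (nat_lit 23538785)) p12_16_0 (nat_lit 4) (nat_lit 250) (nat_lit 251) = true := by decide +kernel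
def p12_16_0_251 : pfC (piC [(nat_lit 35755509), (nat_lit 23968959), (nat_lit 17897616), (nat_lit 12073119)] (nat_lit 23538785)) p12_16_0 (nat_lit 4) (nat_lit 251) (nat_lit 252) = true := by decide +kernel
def p12_16_0_252 : pfC (piC [(nat_lit 35755509), (nat_lit 23968959), (nat_lit 17897616), (nat_lit 12073119)] (nat_lit 23538785)) p12_16_0 (nat_lit 4) (nat_lit 252) (nat_lit 253) = true := by decide +kernel
def p12_16_0_253 : pfC (piC [(nat_lit 35755509), (nat_lit 23968959), (nat_lit 17897616), (nat_lit 12073119)] (nat_lit 23538785)) p12_16_0 (nat_lit 4) (nat_lit 253) (nat_lit 254) = true := by decide +kernel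
def p12_16_0_254 : pfC (piC [(nat_lit 35755509), (nat_lit 23968959), (nat_lit 17897616), (nat_lit 12073119)] (nat_lit 23538785)) p12_16_0 (nat_lit 4) (nat_lit 254) (nat_lit 255) = true := by decide +kernel
def p12_16_0_255 : pfC (piC [(nat_lit 35755509), (nat_lit 23968959), (nat_lit 17897616), (nat_lit 12073119)] (nat_lit 23538785)) p12_16_0 (nat_lit 4) (nat_lit 255) (nat_lit 256) = true := by decide +kernel
def p12_16_0_256 : pfC (piC [(nat_lit 35755509), (nat_lit 23968959), (nat_lit 17897616), (nat_lit 12073119)] (nat_lit 23538785)) p12_16_0 (nat_lit 4) (nat_lit 256) (nat_lit 257) = true := by decide +kernel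
def p12_16_0_257 : pfC (piC [(nat_lit 35755509), (nat_lit 23968959), (nat_lit 17897616), (nat_lit 12073119)] (nat_lit 23538785)) p12_16_0 (nat_lit 4) (nat_lit 257) (nat_lit 258) = true := by decide +kernel
def p12_16_0_258 : pfC (piC [(nat_lit 35755509), (nat_lit 23968959), (nat_lit 17897616), (nat_lit 12073119)] (nat_lit 23538785)) p12_16_0 (nat_lit 4) (nat_lit 258) (nat_lit 259) = true := by decide +kernel
def p12_16_0_259 : pfC (piC [(nat_lit 35755509), (nat_lit 23968959), (nat_lit 17897616), (nat_lit 12073119)] (nat_lit 23538785)) p12_16_0 (nat_lit 4) (nat_lit 259) (nat_lit 260) = true := by decide +kernel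
def p12_16_0_260 : pfC (piC [(nat_lit 35755509), (nat_lit 23968959), (nat_lit 17897616), (nat_lit 12073119)] (nat_lit 23538785)) p12_16_0 (nat_lit 4) (nat_lit 260) (nat_lit 261) = true := by decide +kernel
def p12_16_0_261 : pfC (piC [(nat_lit 35755509), (nat_lit 23968959), (nat_lit 17897616), (nat_lit 12073119)] (nat_lit 23538785)) p12_16_0 (nat_lit 4) (nat_lit 261) (nat_lit 262) = true := by decide +kernel
def p12_16_0_262 : pfC (piC [(nat_lit 35755509), (nat_lit 23968959), (nat_lit 17897616), (nat_lit 12073119)] (nat_lit 23538785)) p12_16_0 (nat_lit 4) (nat_lit 262) (nat_lit 263) = true := by decide +kernel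
def p12_16_0_263 : pfC (piC [(nat_lit 35755509), (nat_lit 23968959), (nat_lit 17897616), (nat_lit 12073119)] (nat_lit 23538785)) p12_16_0 (nat_lit 4) (nat_lit 263) (nat_lit 264) = true := by decide +kernel
def p12_16_0_264 : pfC (piC [(nat_lit 35755509), (nat_lit 23968959), (nat_lit 17897616), (nat_lit 12073119)] (nat_lit 23538785)) p12_16_0 (nat_lit 4) (nat_lit 264) (nat_lit 265) = true := by decide +kernel
def p12_16_0_265 : pfC (piC [(nat_lit 35755509), (nat_lit 23968959), (nat_lit 17897616), (nat_lit 12073119)] (nat_lit 23538785)) p12_16_0 (nat_lit 4) (nat_lit 265) (nat_lit 266) = true := by decide +kernel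
def p12_16_0_266 : pfC (piC [(nat_lit 35755509), (nat_lit 23968959), (nat_lit 17897616), (nat_lit 12073119)] (nat_lit 23538785)) p12_16_0 (nat_lit 4) (nat_lit 266) (nat_lit 267) = true := by decide +kernel
def p12_16_0_267 : pfC (piC [(nat_lit 35755509), (nat_lit 23968959), (nat_lit 17897616), (nat_lit 12073119)] (nat_lit 23538785)) p12_16_0 (nat_lit 4) (nat_lit 267) (nat_lit 268) = true := by decide +kernel
def p12_16_0_268 : pfC (piC [(nat_lit 35755509), (nat_lit 23968959), (nat_lit 17897616), (nat_lit 12073119)] (nat_lit 23538785)) p12_16_0 (nat_lit 4) (nat_lit 268) (nat_lit 269) = true := by decide +kernel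
def p12_16_0_269 : pfC (piC [(nat_lit 35755509), (nat_lit 23968959), (nat_lit 17897616), (nat_lit 12073119)] (nat_lit 23538785)) p12_16_0 (nat_lit 4) (nat_lit 269) (nat_lit 270) = true := by decide +kernel
def p12_16_0_270 : pfC (piC [(nat_lit 35755509), (nat_lit 23968959), (nat_lit 17897616), (nat_lit 12073119)] (nat_lit 23538785)) p12_16_0 (nat_lit 4) (nat_lit 270) (nat_lit 271) = true := by decide +kernel
def p12_16_0_271 : pfC (piC [(nat_lit 35755509), (nat_lit 23968959), (nat_lit 17897616), (nat_lit 12073119)] (nat_lit 23538785)) p12_16_0 (nat_lit 4) (nat_lit 271) (nat_lit 272) = true := by decide +kernel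
def p12_16_0_272 : pfC (piC [(nat_lit 35755509), (nat_lit 23968959), (nat_lit 17897616), (nat_lit 12073119)] (nat_lit 23538785)) p12_16_0 (nat_lit 4) (nat_lit 272) (nat_lit 273) = true := by decide +kernel
def p12_16_0_273 : pfC (piC [(nat_lit 35755509), (nat_lit 23968959), (nat_lit 17897616), (nat_lit 12073119)] (nat_lit 23538785)) p12_16_0 (nat_lit 4) (nat_lit 273) (nat_lit 274) = true := by decide +kernel
def p12_16_0_274 : pfC (piC [(nat_lit 35755509), (nat_lit 23968959), (nat_lit 17897616), (nat_lit 12073119)] (nat_lit 23538785)) p12_16_0 (nat_lit 4) (nat_lit 274) (nat_lit 275) = true := by decide +kernel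
def p12_16_0_275 : pfC (piC [(nat_lit 35755509), (nat_lit 23968959), (nat_lit 17897616), (nat_lit 12073119)] (nat_lit 23538785)) p12_16_0 (nat_lit 4) (nat_lit 275) (nat_lit 276) = true := by decide +kernel
def p12_16_0_276 : pfC (piC [(nat_lit 35755509), (nat_lit 23968959), (nat_lit 17897616), (nat_lit 12073119)] (nat_lit 23538785)) p12_16_0 (nat_lit 4) (nat_lit 276) (nat_lit 277) = true := by decide +kernel
def p12_16_0_277 : pfC (piC [(nat_lit 35755509), (nat_lit 23968959), (nat_lit 17897616), (nat_lit 12073119)] (nat_lit 23538785)) p12_16_0 (nat_lit 4) (nat_lit 277) (nat_lit 278) = true := by decide +kernel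
def p12_16_0_278 : pfC (piC [(nat_lit 35755509), (nat_lit 23968959), (nat_lit 17897616), (nat_lit 12073119)] (nat_lit 23538785)) p12_16_0 (nat_lit 4) (nat_lit 278) (nat_lit 279) = true := by decide +kernel
def p12_16_0_279 : pfC (piC [(nat_lit 35755509), (nat_lit 23968959), (nat_lit 17897616), (nat_lit 12073119)] (nat_lit 23538785)) p12_16_0 (nat_lit 4) (nat_lit 279) (nat_lit 280) = true := by decide +kernel
def p12_16_0_280 : pfC (piC [(nat_lit 35755509), (nat_lit 23968959), (nat_lit 17897616), (nat_lit 12073119)] (nat_lit 23538785)) p12_16_0 (nat_lit 4) (nat_lit 280) (nat_lit 281) = true := by decide +kernel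
def p12_16_0_281 : pfC (piC [(nat_lit 35755509), (nat_lit 23968959), (nat_lit 17897616), (nat_lit 12073119)] (nat_lit 23538785)) p12_16_0 (nat_lit 4) (nat_lit 281) (nat_lit 282) = true := by decide +kernel
def p12_16_0_282 : pfC (piC [(nat_lit 35755509), (nat_lit 23968959), (nat_lit 17897616), (nat_lit 12073119)] (nat_lit 23538785)) p12_16_0 (nat_lit 4) (nat_lit 282) (nat_lit 283) = true := by decide +kernel
def p12_16_0_283 : pfC (piC [(nat_lit 35755509), (nat_lit 23968959), (nat_lit 17897616), (nat_lit 12073119)] (nat_lit 23538785)) p12_16_0 (nat_lit 4) (nat_lit 283) (nat_lit 284) = true := by decide +kernel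
def p12_16_0_284 : pfC (piC [(nat_lit 35755509), (nat_lit 23968959), (nat_lit 17897616), (nat_lit 12073119)] (nat_lit 23538785)) p12_16_0 (nat_lit 4) (nat_lit 284) (nat_lit 285) = true := by decide +kernel
def p12_16_0_285 : pfC (piC [(nat_lit 35755509), (nat_lit 23968959), (nat_lit 17897616), (nat_lit 12073119)] (nat_lit 23538785)) p12_16_0 (nat_lit 4) (nat_lit 285) (nat_lit 286) = true := by decide +kernel
def p12_16_0_286 : pfC (piC [(nat_lit 35755509), (nat_lit 23968959), (nat_lit 17897616), (nat_lit 12073119)] (nat_lit 23538785)) p12_16_0 (nat_lit 4) (nat_lit 286) (nat_lit 287) = true := by decide +kernel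
def p12_16_0_287 : pfC (piC [(nat_lit 35755509), (nat_lit 23968959), (nat_lit 17897616), (nat_lit 12073119)] (nat_lit 23538785)) p12_16_0 (nat_lit 4) (nat_lit 287) (nat_lit 288) = true := by decide +kernel
def p12_16_0_288 : pfC (piC [(nat_lit 35755509), (nat_lit 23968959), (nat_lit 17897616), (nat_lit 12073119)] (nat_lit 23538785)) p12_16_0 (nat_lit 4) (nat_lit 288) (nat_lit 289) = true := by decide +kernel
def p12_16_0_289 : pfC (piC [(nat_lit 35755509), (nat_lit 23968959), (nat_lit 17897616), (nat_lit 12073119)] (nat_lit 23538785)) p12_16_0 (nat_lit 4) (nat_lit 289) (nat_lit 290) = true := by decide +kernel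
def p12_16_0_290 : pfC (piC [(nat_lit 35755509), (nat_lit 23968959), (nat_lit 17897616), (nat_lit 12073119)] (nat_lit 23538785)) p12_16_0 (nat_lit 4) (nat_lit 290) (nat_lit 291) = true := by decide +kernel
def p12_16_0_291 : pfC (piC [(nat_lit 35755509), (nat_lit 23968959), (nat_lit 17897616), (nat_lit 12073119)] (nat_lit 23538785)) p12_16_0 (nat_lit 4) (nat_lit 291) (nat_lit 292) = true := by decide +kernel
def p12_16_0_292 : pfC (piC [(nat_lit 35755509), (nat_lit 23968959), (nat_lit 17897616), (nat_lit 12073119)] (nat_lit 23538785)) p12_16_0 (nat_lit 4) (nat_lit 292) (nat_lit 293) = true := by decide +kernel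
def p12_16_0_293 : pfC (piC [(nat_lit 35755509), (nat_lit 23968959), (nat_lit 17897616), (nat_lit 12073119)] (nat_lit 23538785)) p12_16_0 (nat_lit 4) (nat_lit 293) (nat_lit 294) = true := by decide +kernel
def p12_16_0_294 : pfC (piC [(nat_lit 35755509), (nat_lit 23968959), (nat_lit 17897616), (nat_lit 12073119)] (nat_lit 23538785)) p12_16_0 (nat_lit 4) (nat_lit 294) (nat_lit 295) = true := by decide +kernel
def p12_16_0_295 : pfC (piC [(nat_lit 35755509), (nat_lit 23968959), (nat_lit 17897616), (nat_lit 12073119)] (nat_lit 23538785)) p12_16_0 (nat_lit 4) (nat_lit 295) (nat_lit 296) = true := by decide +kernel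
def p12_16_0_296 : pfC (piC [(nat_lit 35755509), (nat_lit 23968959), (nat_lit 17897616), (nat_lit 12073119)] (nat_lit 23538785)) p12_16_0 (nat_lit 4) (nat_lit 296) (nat_lit 297) = true := by decide +kernel
def p12_16_0_297 : pfC (piC [(nat_lit 35755509), (nat_lit 23968959), (nat_lit 17897616), (nat_lit 12073119)] (nat_lit 23538785)) p12_16_0 (nat_lit 4) (nat_lit 297) (nat_lit 298) = true := by decide +kernel
def p12_16_0_298 : pfC (piC [(nat_lit 35755509), (nat_lit 23968959), (nat_lit 17897616), (nat_lit 12073119)] (nat_lit 23538785)) p12_16_0 (nat_lit 4) (nat_lit 298) (nat_lit 299) = true := by decide +kernel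
def p12_16_0_299 : pfC (piC [(nat_lit 35755509), (nat_lit 23968959), (nat_lit 17897616), (nat_lit 12073119)] (nat_lit 23538785)) p12_16_0 (nat_lit 4) (nat_lit 299) (nat_lit 300) = true := by decide +kernel
def p12_16_0_300 : pfC (piC [(nat_lit 35755509), (nat_lit 23968959), (nat_lit 17897616), (nat_lit 12073119)] (nat_lit 23538785)) p12_16_0 (nat_lit 4) (nat_lit 300) (nat_lit 301) = true := by decide +kernel
def p12_16_0_301 : pfC (piC [(nat_lit 35755509), (nat_lit 23968959), (nat_lit 17897616), (nat_lit 12073119)] (nat_lit 23538785)) p12_16_0 (nat_lit 4) (nat_lit 301) (nat_lit 302) = true := by decide +kernel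
def p12_16_0_302 : pfC (piC [(nat_lit 35755509), (nat_lit 23968959), (nat_lit 17897616), (nat_lit 12073119)] (nat_lit 23538785)) p12_16_0 (nat_lit 4) (nat_lit 302) (nat_lit 303) = true := by decide +kernel
def p12_16_0_303 : pfC (piC [(nat_lit 35755509), (nat_lit 23968959), (nat_lit 17897616), (nat_lit 12073119)] (nat_lit 23538785)) p12_16_0 (nat_lit 4) (nat_lit 303) (nat_lit 304) = true := by decide +kernel
def p12_16_0_304 : pfC (piC [(nat_lit 35755509), (nat_lit 23968959), (nat_lit 17897616), (nat_lit 12073119)] (nat_lit 23538785)) p12_16_0 (nat_lit 4) (nat_lit 304) (nat_lit 305) = true := by decide +kernel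
def p12_16_0_305 : pfC (piC [(nat_lit 35755509), (nat_lit 23968959), (nat_lit 17897616), (nat_lit 12073119)] (nat_lit 23538785)) p12_16_0 (nat_lit 4) (nat_lit 305) (nat_lit 306) = true := by decide +kernel
def p12_16_0_306 : pfC (piC [(nat_lit 35755509), (nat_lit 23968959), (nat_lit 17897616), (nat_lit 12073119)] (nat_lit 23538785)) p12_16_0 (nat_lit 4) (nat_lit 306) (nat_lit 307) = true := by decide +kernel
def p12_16_0_307 : pfC (piC [(nat_lit 35755509), (nat_lit 23968959), (nat_lit 17897616), (nat_lit 12073119)] (nat_lit 23538785)) p12_16_0 (nat_lit 4) (nat_lit 307) (nat_lit 308) = true := by decide +kernel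
def p12_16_0_308 : pfC (piC [(nat_lit 35755509), (nat_lit 23968959), (nat_lit 17897616), (nat_lit 12073119)] (nat_lit 23538785)) p12_16_0 (nat_lit 4) (nat_lit 308) (nat_lit 309) = true := by decide +kernel
def p12_16_0_309 : pfC (piC [(nat_lit 35755509), (nat_lit 23968959), (nat_lit 17897616), (nat_lit 12073119)] (nat_lit 23538785)) p12_16_0 (nat_lit 4) (nat_lit 309) (nat_lit 310) = true := by decide +kernel
def p12_16_0_310 : pfC (piC [(nat_lit 35755509), (nat_lit 23968959), (nat_lit 17897616), (nat_lit 12073119)] (nat_lit 23538785)) p12_16_0 (nat_lit 4) (nat_lit 310) (nat_lit 311) = true := by decide +kernel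
def p12_16_0_311 : pfC (piC [(nat_lit 35755509), (nat_lit 23968959), (nat_lit 17897616), (nat_lit 12073119)] (nat_lit 23538785)) p12_16_0 (nat_lit 4) (nat_lit 311) (nat_lit 312) = true := by decide +kernel
def p12_16_0_312 : pfC (piC [(nat_lit 35755509), (nat_lit 23968959), (nat_lit 17897616), (nat_lit 12073119)] (nat_lit 23538785)) p12_16_0 (nat_lit 4) (nat_lit 312) (nat_lit 313) = true := by decide +kernel
def p12_16_0_313 : pfC (piC [(nat_lit 35755509), (nat_lit 23968959), (nat_lit 17897616), (nat_lit 12073119)] (nat_lit 23538785)) p12_16_0 (nat_lit 4) (nat_lit 313) (nat_lit 314) = true := by decide +kernel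
def p12_16_0_314 : pfC (piC [(nat_lit 35755509), (nat_lit 23968959), (nat_lit 17897616), (nat_lit 12073119)] (nat_lit 23538785)) p12_16_0 (nat_lit 4) (nat_lit 314) (nat_lit 315) = true := by decide +kernel
def p12_16_0_315 : pfC (piC [(nat_lit 35755509), (nat_lit 23968959), (nat_lit 17897616), (nat_lit 12073119)] (nat_lit 23538785)) p12_16_0 (nat_lit 4) (nat_lit 315) (nat_lit 316) = true := by decide +kernel
def p12_16_0_316 : pfC (piC [(nat_lit 35755509), (nat_lit 23968959), (nat_lit 17897616), (nat_lit 12073119)] (nat_lit 23538785)) p12_16_0 (nat_lit 4) (nat_lit 316) (nat_lit 317) = true := by decide +kernel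
def p12_16_0_317 : pfC (piC [(nat_lit 35755509), (nat_lit 23968959), (nat_lit 17897616), (nat_lit 12073119)] (nat_lit 23538785)) p12_16_0 (nat_lit 4) (nat_lit 317) (nat_lit 318) = true := by decide +kernel
def p12_16_0_318 : pfC (piC [(nat_lit 35755509), (nat_lit 23968959), (nat_lit 17897616), (nat_lit 12073119)] (nat_lit 23538785)) p12_16_0 (nat_lit 4) (nat_lit 318) (nat_lit 319) = true := by decide +kernel
def p12_16_0_319 : pfC (piC [(nat_lit 35755509), (nat_lit 23968959), (nat_lit 17897616), (nat_lit 12073119)] (nat_lit 23538785)) p12_16_0 (nat_lit 4) (nat_lit 319) (nat_lit 320) = true := by decide +kernel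
def p12_16_0_320 : pfC (piC [(nat_lit 35755509), (nat_lit 23968959), (nat_lit 17897616), (nat_lit 12073119)] (nat_lit 23538785)) p12_16_0 (nat_lit 4) (nat_lit 320) (nat_lit 321) = true := by decide +kernel
def p12_16_0_321 : pfC (piC [(nat_lit 35755509), (nat_lit 23968959), (nat_lit 17897616), (nat_lit 12073119)] (nat_lit 23538785)) p12_16_0 (nat_lit 4) (nat_lit 321) (nat_lit 322) = true := by decide +kernel
def p12_16_0_322 : pfC (piC [(nat_lit 35755509), (nat_lit 23968959), (nat_lit 17897616), (nat_lit 12073119)] (nat_lit 23538785)) p12_16_0 (nat_lit 4) (nat_lit 322) (nat_lit 323) = true := by decide +kernel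
def p12_16_0_323 : pfC (piC [(nat_lit 35755509), (nat_lit 23968959), (nat_lit 17897616), (nat_lit 12073119)] (nat_lit 23538785)) p12_16_0 (nat_lit 4) (nat_lit 323) (nat_lit 324) = true := by decide +kernel
def p12_16_0_324 : pfC (piC [(nat_lit 35755509), (nat_lit 23968959), (nat_lit 17897616), (nat_lit 12073119)] (nat_lit 23538785)) p12_16_0 (nat_lit 4) (nat_lit 324) (nat_lit 325) = true := by decide +kernel
def p12_16_0_325 : pfC (piC [(nat_lit 35755509), (nat_lit 23968959), (nat_lit 17897616), (nat_lit 12073119)] (nat_lit 23538785)) p12_16_0 (nat_lit 4) (nat_lit 325) (nat_lit 326) = true := by decide +kernel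
def p12_16_0_326 : pfC (piC [(nat_lit 35755509), (nat_lit 23968959), (nat_lit 17897616), (nat_lit 12073119)] (nat_lit 23538785)) p12_16_0 (nat_lit 4) (nat_lit 326) (nat_lit 327) = true := by decide +kernel
def p12_16_0_327 : pfC (piC [(nat_lit 35755509), (nat_lit 23968959), (nat_lit 17897616), (nat_lit 12073119)] (nat_lit 23538785)) p12_16_0 (nat_lit 4) (nat_lit 327) (nat_lit 328) = true := by decide +kernel
def p12_16_0_328 : pfC (piC [(nat_lit 35755509), (nat_lit 23968959), (nat_lit 17897616), (nat_lit 12073119)] (nat_lit 23538785)) p12_16_0 (nat_lit 4) (nat_lit 328) (nat_lit 329) = true := by decide +kernel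
def p12_16_0_329 : pfC (piC [(nat_lit 35755509), (nat_lit 23968959), (nat_lit 17897616), (nat_lit 12073119)] (nat_lit 23538785)) p12_16_0 (nat_lit 4) (nat_lit 329) (nat_lit 330) = true := by decide +kernel
def p12_16_0_330 : pfC (piC [(nat_lit 35755509), (nat_lit 23968959), (nat_lit 17897616), (nat_lit 12073119)] (nat_lit 23538785)) p12_16_0 (nat_lit 4) (nat_lit 330) (nat_lit 331) = true := by decide +kernel
def p12_16_0_331 : pfC (piC [(nat_lit 35755509), (nat_lit 23968959), (nat_lit 17897616), (nat_lit 12073119)] (nat_lit 23538785)) p12_16_0 (nat_lit 4) (nat_lit 331) (nat_lit 332) = true := by decide +kernel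
def p12_16_0_332 : pfC (piC [(nat_lit 35755509), (nat_lit 23968959), (nat_lit 17897616), (nat_lit 12073119)] (nat_lit 23538785)) p12_16_0 (nat_lit 4) (nat_lit 332) (nat_lit 333) = true := by decide +kernel
def p12_16_0_333 : pfC (piC [(nat_lit 35755509), (nat_lit 23968959), (nat_lit 17897616), (nat_lit 12073119)] (nat_lit 23538785)) p12_16_0 (nat_lit 4) (nat_lit 333) (nat_lit 334) = true := by decide +kernel
def p12_16_0_334 : pfC (piC [(nat_lit 35755509), (nat_lit 23968959), (nat_lit 17897616), (nat_lit 12073119)] (nat_lit 23538785)) p12_16_0 (nat_lit 4) (nat_lit 334) (nat_lit 335) = true := by decide +kernel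
def p12_16_0_335 : pfC (piC [(nat_lit 35755509), (nat_lit 23968959), (nat_lit 17897616), (nat_lit 12073119)] (nat_lit 23538785)) p12_16_0 (nat_lit 4) (nat_lit 335) (nat_lit 336) = true := by decide +kernel
def p12_16_0_336 : pfC (piC [(nat_lit 35755509), (nat_lit 23968959), (nat_lit 17897616), (nat_lit 12073119)] (nat_lit 23538785)) p12_16_0 (nat_lit 4) (nat_lit 336) (nat_lit 337) = true := by decide +kernel
def p12_16_0_337 : pfC (piC [(nat_lit 35755509), (nat_lit 23968959), (nat_lit 17897616), (nat_lit 12073119)] (nat_lit 23538785)) p12_16_0 (nat_lit 4) (nat_lit 337) (nat_lit 338) = true := by decide +kernel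
def p12_16_0_338 : pfC (piC [(nat_lit 35755509), (nat_lit 23968959), (nat_lit 17897616), (nat_lit 12073119)] (nat_lit 23538785)) p12_16_0 (nat_lit 4) (nat_lit 338) (nat_lit 339) = true := by decide +kernel
def p12_16_0_339 : pfC (piC [(nat_lit 35755509), (nat_lit 23968959), (nat_lit 17897616), (nat_lit 12073119)] (nat_lit 23538785)) p12_16_0 (nat_lit 4) (nat_lit 339) (nat_lit 340) = true := by decide +kernel
def p12_16_0_340 : pfC (piC [(nat_lit 35755509), (nat_lit 23968959), (nat_lit 17897616), (nat_lit 12073119)] (nat_lit 23538785)) p12_16_0 (nat_lit 4) (nat_lit 340) (nat_lit 341) = true := by decide +kernel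
def p12_16_0_341 : pfC (piC [(nat_lit 35755509), (nat_lit 23968959), (nat_lit 17897616), (nat_lit 12073119)] (nat_lit 23538785)) p12_16_0 (nat_lit 4) (nat_lit 341) (nat_lit 342) = true := by decide +kernel
def p12_16_0_342 : pfC (piC [(nat_lit 35755509), (nat_lit 23968959), (nat_lit 17897616), (nat_lit 12073119)] (nat_lit 23538785)) p12_16_0 (nat_lit 4) (nat_lit 342) (nat_lit 343) = true := by decide +kernel
def p12_16_0_343 : pfC (piC [(nat_lit 35755509), (nat_lit 23968959), (nat_lit 17897616), (nat_lit 12073119)] (nat_lit 23538785)) p12_16_0 (nat_lit 4) (nat_lit 343) (nat_lit 344) = true := by decide +kernel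
def p12_16_0_344 : pfC (piC [(nat_lit 35755509), (nat_lit 23968959), (nat_lit 17897616), (nat_lit 12073119)] (nat_lit 23538785)) p12_16_0 (nat_lit 4) (nat_lit 344) (nat_lit 345) = true := by decide +kernel
def p12_16_0_345 : pfC (piC [(nat_lit 35755509), (nat_lit 23968959), (nat_lit 17897616), (nat_lit 12073119)] (nat_lit 23538785)) p12_16_0 (nat_lit 4) (nat_lit 345) (nat_lit 346) = true := by decide +kernel
def p12_16_0_346 : pfC (piC [(nat_lit 35755509), (nat_lit 23968959), (nat_lit 17897616), (nat_lit 12073119)] (nat_lit 23538785)) p12_16_0 (nat_lit 4) (nat_lit 346) (nat_lit 347) = true := by decide +kernel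
def p12_16_0_347 : pfC (piC [(nat_lit 35755509), (nat_lit 23968959), (nat_lit 17897616), (nat_lit 12073119)] (nat_lit 23538785)) p12_16_0 (nat_lit 4) (nat_lit 347) (nat_lit 348) = true := by decide +kernel
def p12_16_0_348 : pfC (piC [(nat_lit 35755509), (nat_lit 23968959), (nat_lit 17897616), (nat_lit 12073119)] (nat_lit 23538785)) p12_16_0 (nat_lit 4) (nat_lit 348) (nat_lit 349) = true := by decide +kernel
def p12_16_0_349 : pfC (piC [(nat_lit 35755509), (nat_lit 23968959), (nat_lit 17897616), (nat_lit 12073119)] (nat_lit 23538785)) p12_16_0 (nat_lit 4) (nat_lit 349) (nat_lit 350) = true := by decide +kernel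
def p12_16_0_350 : pfC (piC [(nat_lit 35755509), (nat_lit 23968959), (nat_lit 17897616), (nat_lit 12073119)] (nat_lit 23538785)) p12_16_0 (nat_lit 4) (nat_lit 350) (nat_lit 351) = true := by decide +kernel
def p12_16_0_351 : pfC (piC [(nat_lit 35755509), (nat_lit 23968959), (nat_lit 17897616), (nat_lit 12073119)] (nat_lit 23538785)) p12_16_0 (nat_lit 4) (nat_lit 351) (nat_lit 352) = true := by decide +kernel
def p12_16_0_352 : pfC (piC [(nat_lit 35755509), (nat_lit 23968959), (nat_lit 17897616), (nat_lit 12073119)] (nat_lit 23538785)) p12_16_0 (nat_lit 4) (nat_lit 352) (nat_lit 353) = true := by decide +kernel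
def p12_16_0_353 : pfC (piC [(nat_lit 35755509), (nat_lit 23968959), (nat_lit 17897616), (nat_lit 12073119)] (nat_lit 23538785)) p12_16_0 (nat_lit 4) (nat_lit 353) (nat_lit 354) = true := by decide +kernel
def p12_16_0_354 : pfC (piC [(nat_lit 35755509), (nat_lit 23968959), (nat_lit 17897616), (nat_lit 12073119)] (nat_lit 23538785)) p12_16_0 (nat_lit 4) (nat_lit 354) (nat_lit 355) = true := by decide +kernel
def p12_16_0_355 : pfC (piC [(nat_lit 35755509), (nat_lit 23968959), (nat_lit 17897616), (nat_lit 12073119)] (nat_lit 23538785)) p12_16_0 (nat_lit 4) (nat_lit 355) (nat_lit 356) = true := by decide +kernel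
def p12_16_0_356 : pfC (piC [(nat_lit 35755509), (nat_lit 23968959), (nat_lit 17897616), (nat_lit 12073119)] (nat_lit 23538785)) p12_16_0 (nat_lit 4) (nat_lit 356) (nat_lit 357) = true := by decide +kernel
def p12_16_0_357 : pfC (piC [(nat_lit 35755509), (nat_lit 23968959), (nat_lit 17897616), (nat_lit 12073119)] (nat_lit 23538785)) p12_16_0 (nat_lit 4) (nat_lit 357) (nat_lit 358) = true := by decide +kernel
def p12_16_0_358 : pfC (piC [(nat_lit 35755509), (nat_lit 23968959), (nat_lit 17897616), (nat_lit 12073119)] (nat_lit 23538785)) p12_16_0 (nat_lit 4) (nat_lit 358) (nat_lit 359) = true := by decide +kernel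
def p12_16_0_359 : pfC (piC [(nat_lit 35755509), (nat_lit 23968959), (nat_lit 17897616), (nat_lit 12073119)] (nat_lit 23538785)) p12_16_0 (nat_lit 4) (nat_lit 359) (nat_lit 360) = true := by decide +kernel
def p12_16_0_360 : pfC (piC [(nat_lit 35755509), (nat_lit 23968959), (nat_lit 17897616), (nat_lit 12073119)] (nat_lit 23538785)) p12_16_0 (nat_lit 4) (nat_lit 360) (nat_lit 361) = true := by decide +kernel
def p12_16_0_361 : pfC (piC [(nat_lit 35755509), (nat_lit 23968959), (nat_lit 17897616), (nat_lit 12073119)] (nat_lit 23538785)) p12_16_0 (nat_lit 4) (nat_lit 361) (nat_lit 362) = true := by decide +kernel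
def p12_16_0_362 : pfC (piC [(nat_lit 35755509), (nat_lit 23968959), (nat_lit 17897616), (nat_lit 12073119)] (nat_lit 23538785)) p12_16_0 (nat_lit 4) (nat_lit 362) (nat_lit 363) = true := by decide +kernel
def p12_16_0_363 : pfC (piC [(nat_lit 35755509), (nat_lit 23968959), (nat_lit 17897616), (nat_lit 12073119)] (nat_lit 23538785)) p12_16_0 (nat_lit 4) (nat_lit 363) (nat_lit 364) = true := by decide +kernel
def p12_16_0_364 : pfC (piC [(nat_lit 35755509), (nat_lit 23968959), (nat_lit 17897616), (nat_lit 12073119)] (nat_lit 23538785)) p12_16_0 (nat_lit 4) (nat_lit 364) (nat_lit 365) = true := by decide +kernel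
def p12_16_0_365 : pfC (piC [(nat_lit 35755509), (nat_lit 23968959), (nat_lit 17897616), (nat_lit 12073119)] (nat_lit 23538785)) p12_16_0 (nat_lit 4) (nat_lit 365) (nat_lit 366) = true := by decide +kernel
def p12_16_0_366 : pfC (piC [(nat_lit 35755509), (nat_lit 23968959), (nat_lit 17897616), (nat_lit 12073119)] (nat_lit 23538785)) p12_16_0 (nat_lit 4) (nat_lit 366) (nat_lit 367) = true := by decide +kernel
def p12_16_0_367 : pfC (piC [(nat_lit 35755509), (nat_lit 23968959), (nat_lit 17897616), (nat_lit 12073119)] (nat_lit 23538785)) p12_16_0 (nat_lit 4) (nat_lit 367) (nat_lit 368) = true := by decide +kernel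
def p12_16_0_368 : pfC (piC [(nat_lit 35755509), (nat_lit 23968959), (nat_lit 17897616), (nat_lit 12073119)] (nat_lit 23538785)) p12_16_0 (nat_lit 4) (nat_lit 368) (nat_lit 369) = true := by decide +kernel
def p12_16_0_369 : pfC (piC [(nat_lit 35755509), (nat_lit 23968959), (nat_lit 17897616), (nat_lit 12073119)] (nat_lit 23538785)) p12_16_0 (nat_lit 4) (nat_lit 369) (nat_lit 370) = true := by decide +kernel
def p12_16_0_370 : pfC (piC [(nat_lit 35755509), (nat_lit 23968959), (nat_lit 17897616), (nat_lit 12073119)] (nat_lit 23538785)) p12_16_0 (nat_lit 4) (nat_lit 370) (nat_lit 371) = true := by decide +kernel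
def p12_16_0_371 : pfC (piC [(nat_lit 35755509), (nat_lit 23968959), (nat_lit 17897616), (nat_lit 12073119)] (nat_lit 23538785)) p12_16_0 (nat_lit 4) (nat_lit 371) (nat_lit 372) = true := by decide +kernel
def p12_16_0_372 : pfC (piC [(nat_lit 35755509), (nat_lit 23968959), (nat_lit 17897616), (nat_lit 12073119)] (nat_lit 23538785)) p12_16_0 (nat_lit 4) (nat_lit 372) (nat_lit 373) = true := by decide +kernel
def p12_16_0_373 : pfC (piC [(nat_lit 35755509), (nat_lit 23968959), (nat_lit 17897616), (nat_lit 12073119)] (nat_lit 23538785)) p12_16_0 (nat_lit 4) (nat_lit 373) (nat_lit 374) = true := by decide +kernel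
def p12_16_0_374 : pfC (piC [(nat_lit 35755509), (nat_lit 23968959), (nat_lit 17897616), (nat_lit 12073119)] (nat_lit 23538785)) p12_16_0 (nat_lit 4) (nat_lit 374) (nat_lit 375) = true := by decide +kernel
def p12_16_0_375 : pfC (piC [(nat_lit 35755509), (nat_lit 23968959), (nat_lit 17897616), (nat_lit 12073119)] (nat_lit 23538785)) p12_16_0 (nat_lit 4) (nat_lit 375) (nat_lit 376) = true := by decide +kernel
def p12_16_0_376 : pfC (piC [(nat_lit 35755509), (nat_lit 23968959), (nat_lit 17897616), (nat_lit 12073119)] (nat_lit 23538785)) p12_16_0 (nat_lit 4) (nat_lit 376) (nat_lit 377) = true := by decide +kernel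
def p12_16_0_377 : pfC (piC [(nat_lit 35755509), (nat_lit 23968959), (nat_lit 17897616), (nat_lit 12073119)] (nat_lit 23538785)) p12_16_0 (nat_lit 4) (nat_lit 377) (nat_lit 378) = true := by decide +kernel
def p12_16_0_378 : pfC (piC [(nat_lit 35755509), (nat_lit 23968959), (nat_lit 17897616), (nat_lit 12073119)] (nat_lit 23538785)) p12_16_0 (nat_lit 4) (nat_lit 378) (nat_lit 379) = true := by decide +kernel
def p12_16_0_379 : pfC (piC [(nat_lit 35755509), (nat_lit 23968959), (nat_lit 17897616), (nat_lit 12073119)] (nat_lit 23538785)) p12_16_0 (nat_lit 4) (nat_lit 379) (nat_lit 380) = true := by decide +kernel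
def p12_16_0_380 : pfC (piC [(nat_lit 35755509), (nat_lit 23968959), (nat_lit 17897616), (nat_lit 12073119)] (nat_lit 23538785)) p12_16_0 (nat_lit 4) (nat_lit 380) (nat_lit 381) = true := by decide +kernel
def p12_16_0_381 : pfC (piC [(nat_lit 35755509), (nat_lit 23968959), (nat_lit 17897616), (nat_lit 12073119)] (nat_lit 23538785)) p12_16_0 (nat_lit 4) (nat_lit 381) (nat_lit 382) = true := by decide +kernel
def p12_16_0_382 : pfC (piC [(nat_lit 35755509), (nat_lit 23968959), (nat_lit 17897616), (nat_lit 12073119)] (nat_lit 23538785)) p12_16_0 (nat_lit 4) (nat_lit 382) (nat_lit 383) = true := by decide +kernel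
def p12_16_0_383 : pfC (piC [(nat_lit 35755509), (nat_lit 23968959), (nat_lit 17897616), (nat_lit 12073119)] (nat_lit 23538785)) p12_16_0 (nat_lit 4) (nat_lit 383) (nat_lit 384) = true := by decide +kernel
def p12_16_0_384 : pfC (piC [(nat_lit 35755509), (nat_lit 23968959), (nat_lit 17897616), (nat_lit 12073119)] (nat_lit 23538785)) p12_16_0 (nat_lit 4) (nat_lit 384) (nat_lit 385) = true := by decide +kernel
def p12_16_0_385 : pfC (piC [(nat_lit 35755509), (nat_lit 23968959), (nat_lit 17897616), (nat_lit 12073119)] (nat_lit 23538785)) p12_16_0 (nat_lit 4) (nat_lit 385) (nat_lit 386) = true := by decide +kernel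
def p12_16_0_386 : pfC (piC [(nat_lit 35755509), (nat_lit 23968959), (nat_lit 17897616), (nat_lit 12073119)] (nat_lit 23538785)) p12_16_0 (nat_lit 4) (nat_lit 386) (nat_lit 387) = true := by decide +kernel
def p12_16_0_387 : pfC (piC [(nat_lit 35755509), (nat_lit 23968959), (nat_lit 17897616), (nat_lit 12073119)] (nat_lit 23538785)) p12_16_0 (nat_lit 4) (nat_lit 387) (nat_lit 388) = true := by decide +kernel
def p12_16_0_388 : pfC (piC [(nat_lit 35755509), (nat_lit 23968959), (nat_lit 17897616), (nat_lit 12073119)] (nat_lit 23538785)) p12_16_0 (nat_lit 4) (nat_lit 388) (nat_lit 389) = true := by decide +kernel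
def p12_16_0_389 : pfC (piC [(nat_lit 35755509), (nat_lit 23968959), (nat_lit 17897616), (nat_lit 12073119)] (nat_lit 23538785)) p12_16_0 (nat_lit 4) (nat_lit 389) (nat_lit 390) = true := by decide +kernel
def p12_16_0_390 : pfC (piC [(nat_lit 35755509), (nat_lit 23968959), (nat_lit 17897616), (nat_lit 12073119)] (nat_lit 23538785)) p12_16_0 (nat_lit 4) (nat_lit 390) (nat_lit 391) = true := by decide +kernel
def p12_16_0_391 : pfC (piC [(nat_lit 35755509), (nat_lit 23968959), (nat_lit 17897616), (nat_lit 12073119)] (nat_lit 23538785)) p12_16_0 (nat_lit 4) (nat_lit 391) (nat_lit 392) = true := by decide +kernel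
def p12_16_0_392 : pfC (piC [(nat_lit 35755509), (nat_lit 23968959), (nat_lit 17897616), (nat_lit 12073119)] (nat_lit 23538785)) p12_16_0 (nat_lit 4) (nat_lit 392) (nat_lit 393) = true := by decide +kernel
def p12_16_0_393 : pfC (piC [(nat_lit 35755509), (nat_lit 23968959), (nat_lit 17897616), (nat_lit 12073119)] (nat_lit 23538785)) p12_16_0 (nat_lit 4) (nat_lit 393) (nat_lit 394) = true := by decide +kernel
def p12_16_0_394 : pfC (piC [(nat_lit 35755509), (nat_lit 23968959), (nat_lit 17897616), (nat_lit 12073119)] (nat_lit 23538785)) p12_16_0 (nat_lit 4) (nat_lit 394) (nat_lit 395) = true := by decide +kernel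
def p12_16_0_395 : pfC (piC [(nat_lit 35755509), (nat_lit 23968959), (nat_lit 17897616), (nat_lit 12073119)] (nat_lit 23538785)) p12_16_0 (nat_lit 4) (nat_lit 395) (nat_lit 396) = true := by decide +kernel
def p12_16_0_396 : pfC (piC [(nat_lit 35755509), (nat_lit 23968959), (nat_lit 17897616), (nat_lit 12073119)] (nat_lit 23538785)) p12_16_0 (nat_lit 4) (nat_lit 396) (nat_lit 397) = true := by decide +kernel
def p12_16_0_397 : pfC (piC [(nat_lit 35755509), (nat_lit 23968959), (nat_lit 17897616), (nat_lit 12073119)] (nat_lit 23538785)) p12_16_0 (nat_lit 4) (nat_lit 397) (nat_lit 398) = true := by decide +kernel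
def p12_16_0_398 : pfC (piC [(nat_lit 35755509), (nat_lit 23968959), (nat_lit 17897616), (nat_lit 12073119)] (nat_lit 23538785)) p12_16_0 (nat_lit 4) (nat_lit 398) (nat_lit 399) = true := by decide +kernel
def p12_16_0_399 : pfC (piC [(nat_lit 35755509), (nat_lit 23968959), (nat_lit 17897616), (nat_lit 12073119)] (nat_lit 23538785)) p12_16_0 (nat_lit 4) (nat_lit 399) (nat_lit 400) = true := by decide +kernel
theorem p12_16_0_T : PfS (PiF n12_16.reverse (nat_lit 23538785)) p12_16_0 (nat_lit 4) [] 0 :=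
  pftab_of (los := [(nat_lit 35755509), (nat_lit 23968959), (nat_lit 17897616), (nat_lit 12073119)]) (by decide +kernel) (hi := (nat_lit 400)) (PfP.trans (PfP.trans (PfP.trans (PfP.trans (PfP.trans (PfP.trans (PfP.trans (PfP.trans (PfP.trans (PfP.trans (PfP.trans (PfP.trans (PfP.trans (PfP.trans (PfP.trans (PfP.trans (PfP.trans (PfP.trans (PfP.trans (PfP.trans (PfP.trans (PfP.trans (PfP.trans (PfP.trans (PfP.trans (PfP.trans (PfP.trans (PfP.trans (PfP.trans (PfP.trans (PfP.trans (PfP.trans (PfP.trans (PfP.trans (PfP.trans (PfP.trans (PfP.trans (PfP.trans (PfP.trans (PfP.trans (PfP.trans (PfP.trans (PfP.trans (PfP.trans (PfP.trans (PfP.trans (PfP.trans (PfP.trans (PfP.trans (PfP.trans (PfP.trans (PfP.trans (PfP.trans (PfP.trans (PfP.trans (PfP.trans (PfP.trans (PfP.trans (PfP.trans (PfP.trans (PfP.trans (PfP.trans (PfP.trans (PfP.trans (PfP.trans (PfP.trans (PfP.trans (PfP.trans (PfP.trans (PfP.trans (PfP.trans (PfP.trans (PfP.trans (PfP.trans (PfP.trans (PfP.trans (PfP.trans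 (PfP.trans (PfP.trans (PfP.trans (PfP.trans (PfP.trans (PfP.trans (PfP.trans (PfP.trans (PfP.trans (PfP.trans (PfP.trans (PfP.trans (PfP.trans (PfP.trans (PfP.trans (PfP.trans (PfP.trans (PfP.trans (PfP.trans (PfP.trans (PfP.trans (PfP.trans (PfP.trans (PfP.trans (PfP.trans (PfP.trans (PfP.trans (PfP.trans (PfP.trans (PfP.trans (PfP.trans (PfP.trans
 (PfP.trans (PfP.trans (PfP.trans (PfP.trans (PfP.trans (PfP.trans (PfP.trans (PfP.trans (PfP.trans (PfP.trans (PfP.trans (PfP.trans (PfP.trans (PfP.trans (PfP.trans (PfP.trans (PfP.trans (PfP.trans (PfP.trans (PfP.trans (PfP.trans (PfP.trans (PfP.trans (PfP.trans (PfP.trans (PfP.trans (PfP.trans (PfP.trans (PfP.trans (PfP.trans (PfP.trans (PfP.trans (PfP.trans (PfP.trans (PfP.trans (PfP.trans (PfP.trans (PfP.trans (PfP.trans (PfP.trans (PfP.trans (PfP.trans (PfP.trans (PfP.trans (PfP.trans (PfP.trans (PfP.trans (PfP.trans (PfP.trans (PfP.trans (PfP.trans (PfP.trans (PfP.trans (PfP.trans (PfP.trans (PfP.trans (PfP.trans (PfP.trans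 (PfP.trans (PfP.trans (PfP.trans (PfP.trans (PfP.trans (PfP.trans (PfP.trans (PfP.trans (PfP.trans (PfP.trans (PfP.trans (PfP.trans (PfP.trans (PfP.trans (PfP.trans (PfP.trans (PfP.trans (PfP.trans (PfP.trans (PfP.trans (PfP.trans (PfP.trans (PfP.trans (PfP.trans (PfP.trans (PfP.trans (PfP.trans (PfP.trans (PfP.trans (PfP.trans (PfP.trans (PfP.trans (PfP.trans (PfP.trans (PfP.trans (PfP.trans (PfP.trans (PfP.trans (PfP.trans (PfP.trans (PfP.trans (PfP.trans (PfP.trans (PfP.trans (PfP.trans (PfP.trans (PfP.trans (PfP.trans (PfP.trans (PfP.trans (PfP.trans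
 (PfP.trans (PfP.trans (PfP.trans (PfP.trans (PfP.trans (PfP.trans (PfP.trans (PfP.trans (PfP.trans (PfP.trans (PfP.trans (PfP.trans (PfP.trans (PfP.trans (PfP.trans (PfP.trans (PfP.trans (PfP.trans (PfP.trans (PfP.trans (PfP.trans (PfP.trans (PfP.trans (PfP.trans (PfP.trans (PfP.trans (PfP.trans (PfP.trans (PfP.trans (PfP.trans (PfP.trans (PfP.trans (PfP.trans (PfP.trans (PfP.trans (PfP.trans (PfP.trans (PfP.trans (PfP.trans (PfP.trans (PfP.trans (PfP.trans (PfP.trans (PfP.trans (PfP.trans (PfP.trans (PfP.trans (PfP.trans (PfP.trans (PfP.trans (PfP.trans (PfP.trans (PfP.trans (PfP.trans (PfP.trans (PfP.trans (PfP.trans (PfP.trans (PfP.trans (PfP.trans (PfP.trans (PfP.trans (PfP.trans (PfP.trans (PfP.trans (PfP.trans (PfP.trans (PfP.trans (PfP.trans (PfP.trans (PfP.trans (PfP.trans (PfP.trans (PfP.trans (PfP.trans (PfP.trans (PfP.trans (PfP.trans (PfP.trans (PfP.trans (PfP.trans (PfP.trans (PfP.trans (PfP.trans (PfP.trans (PfP.trans (PfP.trans (PfP.trans (PfP.trans (PfP.trans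 (PfP.trans (PfP.trans (PfP.trans (PfP.trans (PfP.trans (PfP.trans (PfP.trans (PfP.trans (PfP.trans (PfP.trans (PfP.trans (PfP.trans (PfP.trans (PfP.trans (PfP.trans (PfP.trans (PfP.trans (PfP.trans (PfP.trans
 (PfP.trans (PfP.trans (PfP.trans (PfP.trans (PfP.trans (PfP.trans (PfP.trans (PfP.trans (PfP.trans (PfP.trans (PfP.trans (PfP.trans (PfP.trans (PfP.trans (PfP.trans (PfP.trans (PfP.trans (PfP.trans (PfP.trans (PfP.trans (PfP.trans (PfP.trans (PfP.trans (PfP.trans (PfP.trans (PfP.trans (PfP.trans (PfP.trans (PfP.trans (PfP.trans (PfP.trans (PfP.trans (PfP.trans (PfP.trans (PfP.trans (PfP.trans (PfP.trans (PfP.trans (PfP.trans (PfP.trans (PfP.trans (PfP.trans (PfP.trans (PfP.trans (PfP.trans (PfP.trans (PfP.trans (PfP.trans (PfP.trans (PfP.trans (PfP.trans (PfP.trans (PfP.trans (PfP.trans (PfP.trans (PfP.trans (PfP.trans (PfP.trans (PfP.trans (PfP.trans (PfP.trans (PfP.trans (PfP.trans (PfP.trans (PfP.trans (PfP.trans (PfP.trans (PfP.trans (PfP.trans (PfP.trans (PfP.trans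 (PfP.trans (pfC_sound p12_16_0_0) (pfC_sound p12_16_0_1)) (pfC_sound p12_16_0_2)) (pfC_sound p12_16_0_3)) (pfC_sound p12_16_0_4)) (pfC_sound p12_16_0_5)) (pfC_sound p12_16_0_6)) (pfC_sound p12_16_0_7)) (pfC_sound p12_16_0_8)) (pfC_sound p12_16_0_9)) (pfC_sound p12_16_0_10)) (pfC_sound p12_16_0_11)) (pfC_sound p12_16_0_12)) (pfC_sound p12_16_0_13)) (pfC_sound p12_16_0_14)) (pfC_sound p12_16_0_15)) (pfC_sound
 p12_16_0_16)) (pfC_sound p12_16_0_17)) (pfC_sound p12_16_0_18)) (pfC_sound p12_16_0_19)) (pfC_sound p12_16_0_20)) (pfC_sound p12_16_0_21)) (pfC_sound p12_16_0_22)) (pfC_sound p12_16_0_23)) (pfC_sound p12_16_0_24)) (pfC_sound p12_16_0_25)) (pfC_sound p12_16_0_26)) (pfC_sound p12_16_0_27)) (pfC_sound p12_16_0_28)) (pfC_sound p12_16_0_29)) (pfC_sound p12_16_0_30)) (pfC_sound p12_16_0_31)) (pfC_sound p12_16_0_32)) (pfC_sound p12_16_0_33)) (pfC_sound p12_16_0_34)) (pfC_sound p12_16_0_35)) (pfC_sound p12_16_0_36)) (pfC_sound p12_16_0_37)) (pfC_sound p12_16_0_38)) (pfC_sound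 p12_16_0_39)) (pfC_sound p12_16_0_40)) (pfC_sound p12_16_0_41)) (pfC_sound p12_16_0_42)) (pfC_sound p12_16_0_43)) (pfC_sound p12_16_0_44)) (pfC_sound p12_16_0_45)) (pfC_sound p12_16_0_46)) (pfC_sound p12_16_0_47)) (pfC_sound p12_16_0_48)) (pfC_sound p12_16_0_49)) (pfC_sound p12_16_0_50)) (pfC_sound p12_16_0_51)) (pfC_sound p12_16_0_52)) (pfC_sound p12_16_0_53)) (pfC_sound p12_16_0_54)) (pfC_sound p12_16_0_55)) (pfC_sound p12_16_0_56)) (pfC_sound p12_16_0_57)) (pfC_sound p12_16_0_58)) (pfC_sound p12_16_0_59)) (pfC_sound p12_16_0_60)) (pfC_sound p12_16_0_61)) (pfC_sound p12_16_0_62)) (pfC_sound p12_16_0_63)) (pfC_sound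
 p12_16_0_64)) (pfC_sound p12_16_0_65)) (pfC_sound p12_16_0_66)) (pfC_sound p12_16_0_67)) (pfC_sound p12_16_0_68)) (pfC_sound p12_16_0_69)) (pfC_sound p12_16_0_70)) (pfC_sound p12_16_0_71)) (pfC_sound p12_16_0_72)) (pfC_sound p12_16_0_73)) (pfC_sound p12_16_0_74)) (pfC_sound p12_16_0_75)) (pfC_sound p12_16_0_76)) (pfC_sound p12_16_0_77)) (pfC_sound p12_16_0_78)) (pfC_sound p12_16_0_79)) (pfC_sound p12_16_0_80)) (pfC_sound p12_16_0_81)) (pfC_sound p12_16_0_82)) (pfC_sound p12_16_0_83)) (pfC_sound p12_16_0_84)) (pfC_sound p12_16_0_85)) (pfC_sound p12_16_0_86)) (pfC_sound p12_16_0_87)) (pfC_sound p12_16_0_88)) (pfC_sound p12_16_0_89)) (pfC_sound p12_16_0_90)) (pfC_sound p12_16_0_91)) (pfC_sound p12_16_0_92)) (pfC_sound p12_16_0_93)) (pfC_sound p12_16_0_94)) (pfC_sound p12_16_0_95)) (pfC_sound p12_16_0_96)) (pfC_sound p12_16_0_97)) (pfC_sound p12_16_0_98)) (pfC_sound p12_16_0_99)) (pfC_sound p12_16_0_100)) (pfC_sound p12_16_0_101)) (pfC_sound p12_16_0_102)) (pfC_sound p12_16_0_103))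 (pfC_sound p12_16_0_104)) (pfC_sound p12_16_0_105)) (pfC_sound p12_16_0_106)) (pfC_sound p12_16_0_107)) (pfC_sound p12_16_0_108)) (pfC_sound p12_16_0_109)) (pfC_sound p12_16_0_110)) (pfC_sound
 p12_16_0_111)) (pfC_sound p12_16_0_112)) (pfC_sound p12_16_0_113)) (pfC_sound p12_16_0_114)) (pfC_sound p12_16_0_115)) (pfC_sound p12_16_0_116)) (pfC_sound p12_16_0_117)) (pfC_sound p12_16_0_118)) (pfC_sound p12_16_0_119)) (pfC_sound p12_16_0_120)) (pfC_sound p12_16_0_121)) (pfC_sound p12_16_0_122)) (pfC_sound p12_16_0_123)) (pfC_sound p12_16_0_124)) (pfC_sound p12_16_0_125)) (pfC_sound p12_16_0_126)) (pfC_sound p12_16_0_127)) (pfC_sound p12_16_0_128)) (pfC_sound p12_16_0_129)) (pfC_sound p12_16_0_130)) (pfC_sound p12_16_0_131)) (pfC_sound p12_16_0_132)) (pfC_sound p12_16_0_133)) (pfC_sound p12_16_0_134)) (pfC_sound p12_16_0_135)) (pfC_sound p12_16_0_136)) (pfC_sound p12_16_0_137)) (pfC_sound p12_16_0_138)) (pfC_sound p12_16_0_139)) (pfC_sound p12_16_0_140)) (pfC_sound p12_16_0_141))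 (pfC_sound p12_16_0_142)) (pfC_sound p12_16_0_143)) (pfC_sound p12_16_0_144)) (pfC_sound p12_16_0_145)) (pfC_sound p12_16_0_146)) (pfC_sound p12_16_0_147)) (pfC_sound p12_16_0_148)) (pfC_sound p12_16_0_149)) (pfC_sound p12_16_0_150)) (pfC_sound p12_16_0_151)) (pfC_sound p12_16_0_152)) (pfC_sound p12_16_0_153)) (pfC_sound p12_16_0_154)) (pfC_sound p12_16_0_155)) (pfC_sound p12_16_0_156)) (pfC_sound
 p12_16_0_157)) (pfC_sound p12_16_0_158)) (pfC_sound p12_16_0_159)) (pfC_sound p12_16_0_160)) (pfC_sound p12_16_0_161)) (pfC_sound p12_16_0_162)) (pfC_sound p12_16_0_163)) (pfC_sound p12_16_0_164)) (pfC_sound p12_16_0_165)) (pfC_sound p12_16_0_166)) (pfC_sound p12_16_0_167)) (pfC_sound p12_16_0_168)) (pfC_sound p12_16_0_169)) (pfC_sound p12_16_0_170)) (pfC_sound p12_16_0_171)) (pfC_sound p12_16_0_172)) (pfC_sound p12_16_0_173)) (pfC_sound p12_16_0_174)) (pfC_sound p12_16_0_175)) (pfC_sound p12_16_0_176)) (pfC_sound p12_16_0_177)) (pfC_sound p12_16_0_178)) (pfC_sound p12_16_0_179))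 (pfC_sound p12_16_0_180)) (pfC_sound p12_16_0_181)) (pfC_sound p12_16_0_182)) (pfC_sound p12_16_0_183)) (pfC_sound p12_16_0_184)) (pfC_sound p12_16_0_185)) (pfC_sound p12_16_0_186)) (pfC_sound p12_16_0_187)) (pfC_sound p12_16_0_188)) (pfC_sound p12_16_0_189)) (pfC_sound p12_16_0_190)) (pfC_sound p12_16_0_191)) (pfC_sound p12_16_0_192)) (pfC_sound p12_16_0_193)) (pfC_sound p12_16_0_194)) (pfC_sound p12_16_0_195)) (pfC_sound p12_16_0_196)) (pfC_sound p12_16_0_197)) (pfC_sound p12_16_0_198)) (pfC_sound p12_16_0_199)) (pfC_sound p12_16_0_200)) (pfC_sound p12_16_0_201)) (pfC_sound p12_16_0_202)) (pfC_sound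
 p12_16_0_203)) (pfC_sound p12_16_0_204)) (pfC_sound p12_16_0_205)) (pfC_sound p12_16_0_206)) (pfC_sound p12_16_0_207)) (pfC_sound p12_16_0_208)) (pfC_sound p12_16_0_209)) (pfC_sound p12_16_0_210)) (pfC_sound p12_16_0_211)) (pfC_sound p12_16_0_212)) (pfC_sound p12_16_0_213)) (pfC_sound p12_16_0_214)) (pfC_sound p12_16_0_215)) (pfC_sound p12_16_0_216)) (pfC_sound p12_16_0_217)) (pfC_sound p12_16_0_218)) (pfC_sound p12_16_0_219)) (pfC_sound p12_16_0_220)) (pfC_sound p12_16_0_221)) (pfC_sound p12_16_0_222)) (pfC_sound p12_16_0_223)) (pfC_sound p12_16_0_224)) (pfC_sound p12_16_0_225)) (pfC_sound p12_16_0_226)) (pfC_sound p12_16_0_227)) (pfC_sound p12_16_0_228)) (pfC_sound p12_16_0_229)) (pfC_sound p12_16_0_230)) (pfC_sound p12_16_0_231)) (pfC_sound p12_16_0_232)) (pfC_sound p12_16_0_233)) (pfC_sound p12_16_0_234)) (pfC_sound p12_16_0_235)) (pfC_sound p12_16_0_236)) (pfC_sound p12_16_0_237)) (pfC_sound p12_16_0_238)) (pfC_sound p12_16_0_239)) (pfC_sound p12_16_0_240)) (pfC_sound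 p12_16_0_241)) (pfC_sound p12_16_0_242)) (pfC_sound p12_16_0_243)) (pfC_sound p12_16_0_244)) (pfC_sound p12_16_0_245)) (pfC_sound p12_16_0_246)) (pfC_sound p12_16_0_247)) (pfC_sound p12_16_0_248)) (pfC_sound
 p12_16_0_249)) (pfC_sound p12_16_0_250)) (pfC_sound p12_16_0_251)) (pfC_sound p12_16_0_252)) (pfC_sound p12_16_0_253)) (pfC_sound p12_16_0_254)) (pfC_sound p12_16_0_255)) (pfC_sound p12_16_0_256)) (pfC_sound p12_16_0_257)) (pfC_sound p12_16_0_258)) (pfC_sound p12_16_0_259)) (pfC_sound p12_16_0_260)) (pfC_sound p12_16_0_261)) (pfC_sound p12_16_0_262)) (pfC_sound p12_16_0_263)) (pfC_sound p12_16_0_264)) (pfC_sound p12_16_0_265)) (pfC_sound p12_16_0_266)) (pfC_sound p12_16_0_267)) (pfC_sound p12_16_0_268)) (pfC_sound p12_16_0_269)) (pfC_sound p12_16_0_270)) (pfC_sound p12_16_0_271)) (pfC_sound p12_16_0_272)) (pfC_sound p12_16_0_273)) (pfC_sound p12_16_0_274)) (pfC_sound p12_16_0_275)) (pfC_sound p12_16_0_276)) (pfC_sound p12_16_0_277)) (pfC_sound p12_16_0_278)) (pfC_sound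 p12_16_0_279)) (pfC_sound p12_16_0_280)) (pfC_sound p12_16_0_281)) (pfC_sound p12_16_0_282)) (pfC_sound p12_16_0_283)) (pfC_sound p12_16_0_284)) (pfC_sound p12_16_0_285)) (pfC_sound p12_16_0_286)) (pfC_sound p12_16_0_287)) (pfC_sound p12_16_0_288)) (pfC_sound p12_16_0_289)) (pfC_sound p12_16_0_290)) (pfC_sound p12_16_0_291)) (pfC_sound p12_16_0_292)) (pfC_sound p12_16_0_293)) (pfC_sound p12_16_0_294)) (pfC_sound
 p12_16_0_295)) (pfC_sound p12_16_0_296)) (pfC_sound p12_16_0_297)) (pfC_sound p12_16_0_298)) (pfC_sound p12_16_0_299)) (pfC_sound p12_16_0_300)) (pfC_sound p12_16_0_301)) (pfC_sound p12_16_0_302)) (pfC_sound p12_16_0_303)) (pfC_sound p12_16_0_304)) (pfC_sound p12_16_0_305)) (pfC_sound p12_16_0_306)) (pfC_sound p12_16_0_307)) (pfC_sound p12_16_0_308)) (pfC_sound p12_16_0_309)) (pfC_sound p12_16_0_310)) (pfC_sound p12_16_0_311)) (pfC_sound p12_16_0_312)) (pfC_sound p12_16_0_313)) (pfC_sound p12_16_0_314)) (pfC_sound p12_16_0_315)) (pfC_sound p12_16_0_316)) (pfC_sound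 p12_16_0_317)) (pfC_sound p12_16_0_318)) (pfC_sound p12_16_0_319)) (pfC_sound p12_16_0_320)) (pfC_sound p12_16_0_321)) (pfC_sound p12_16_0_322)) (pfC_sound p12_16_0_323)) (pfC_sound p12_16_0_324)) (pfC_sound p12_16_0_325)) (pfC_sound p12_16_0_326)) (pfC_sound p12_16_0_327)) (pfC_sound p12_16_0_328)) (pfC_sound p12_16_0_329)) (pfC_sound p12_16_0_330)) (pfC_sound p12_16_0_331)) (pfC_sound p12_16_0_332)) (pfC_sound p12_16_0_333)) (pfC_sound p12_16_0_334)) (pfC_sound p12_16_0_335)) (pfC_sound p12_16_0_336)) (pfC_sound p12_16_0_337)) (pfC_sound p12_16_0_338)) (pfC_sound p12_16_0_339)) (pfC_sound p12_16_0_340)) (pfC_sound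
 p12_16_0_341)) (pfC_sound p12_16_0_342)) (pfC_sound p12_16_0_343)) (pfC_sound p12_16_0_344)) (pfC_sound p12_16_0_345)) (pfC_sound p12_16_0_346)) (pfC_sound p12_16_0_347)) (pfC_sound p12_16_0_348)) (pfC_sound p12_16_0_349)) (pfC_sound p12_16_0_350)) (pfC_sound p12_16_0_351)) (pfC_sound p12_16_0_352)) (pfC_sound p12_16_0_353)) (pfC_sound p12_16_0_354)) (pfC_sound p12_16_0_355)) (pfC_sound p12_16_0_356)) (pfC_sound p12_16_0_357)) (pfC_sound p12_16_0_358)) (pfC_sound p12_16_0_359)) (pfC_sound p12_16_0_360)) (pfC_sound p12_16_0_361)) (pfC_sound p12_16_0_362)) (pfC_sound p12_16_0_363)) (pfC_sound p12_16_0_364)) (pfC_sound p12_16_0_365)) (pfC_sound p12_16_0_366)) (pfC_sound p12_16_0_367)) (pfC_sound p12_16_0_368)) (pfC_sound p12_16_0_369)) (pfC_sound p12_16_0_370)) (pfC_sound p12_16_0_371)) (pfC_sound p12_16_0_372)) (pfC_sound p12_16_0_373)) (pfC_sound p12_16_0_374)) (pfC_sound p12_16_0_375)) (pfC_sound p12_16_0_376)) (pfC_sound p12_16_0_377)) (pfC_sound p12_16_0_378)) (pfC_sound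 p12_16_0_379)) (pfC_sound p12_16_0_380)) (pfC_sound p12_16_0_381)) (pfC_sound p12_16_0_382)) (pfC_sound p12_16_0_383)) (pfC_sound p12_16_0_384)) (pfC_sound p12_16_0_385)) (pfC_sound p12_16_0_386)) (pfC_sound
 p12_16_0_387)) (pfC_sound p12_16_0_388)) (pfC_sound p12_16_0_389)) (pfC_sound p12_16_0_390)) (pfC_sound p12_16_0_391)) (pfC_sound p12_16_0_392)) (pfC_sound p12_16_0_393)) (pfC_sound p12_16_0_394)) (pfC_sound p12_16_0_395)) (pfC_sound p12_16_0_396)) (pfC_sound p12_16_0_397)) (pfC_sound p12_16_0_398)) (pfC_sound p12_16_0_399)) (by decide +kernel)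

def z12_16_0 : zOK yB12_16 (nat_lit 0) (nat_lit 0) (nat_lit 400) (nat_lit 23538785) (nat_lit 11208580) = true := by decide +kernel
def g12_16_0 : gOK yB12_16.x P12_16 (nat_lit 1404) (q12_16 :: r12_16) (nat_lit 0) (nat_lit 0) (nat_lit 1) (nat_lit 400) (nat_lit 0) (nat_lit 11000000) (nat_lit 12712500) (nat_lit 12712500) [(nat_lit 800), (nat_lit 1600)] = true := by decide +kernel
def v12_16_0 : ivC P12_16 s12_16 w12_16 n12_16 (nat_lit 4) (nat_lit 5340) (nat_lit 0) (nat_lit 0) f168_1_0 f176_1_0 (nat_lit 1) (nat_lit 400) f168_1_400 f176_1_400 (nat_lit 23538785) (nat_lit 11208580) p12_16_0 = true := by decide +kernel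
def p12_16_1 : PF := (PF.cons (PF.cons (PF.cons (PF.cons (PF.leaf (nat_lit 1965841) (nat_lit 8965571) (nat_lit 58143241) (nat_lit 8965571) [(nat_lit 0), (nat_lit 0), (nat_lit 0), (nat_lit 0)]) (PF.cons (PF.leaf (nat_lit 2189139) (nat_lit 401014) (nat_lit 57701086) (nat_lit 9006711) [(nat_lit 401014), (nat_lit 0), (nat_lit 0), (nat_lit 0)]) (PF.cons (PF.leaf (nat_lit 2452424) (nat_lit 436761) (nat_lit 57185143) (nat_lit 9050147) [(nat_lit 436761), (nat_lit 0), (nat_lit 0), (nat_lit 0)]) (PF.cons (PF.leaf (nat_lit 2748174) (nat_lit 468543) (nat_lit 56610020) (nat_lit 9093160) [(nat_lit 468543), (nat_lit 0), (nat_lit 0), (nat_lit 0)]) (PF.cons (PF.leaf (nat_lit 3071535) (nat_lit 497174) (nat_lit 55986328) (nat_lit 9133786) [(nat_lit 497174), (nat_lit 0), (nat_lit 0), (nat_lit 0)]) (PF.cons (PF.leaf (nat_lit 3418648) (nat_lit 523156) (nat_lit 55322446) (nat_lit 9170584) [(nat_lit 523156), (nat_lit 0), (nat_lit 0), (nat_lit 0)]) (PF.cons (PF.leaf (nat_lit 3786279) (nat_lit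 546827) (nat_lit 54625339) (nat_lit 9202508) [(nat_lit 546827), (nat_lit 0), (nat_lit 0), (nat_lit 0)]) (PF.cons (PF.leaf (nat_lit 4171593) (nat_lit 568429) (nat_lit 53900978) (nat_lit 9228826) [(nat_lit 568429), (nat_lit 0), (nat_lit
 0), (nat_lit 0)]) (PF.cons (PF.leaf (nat_lit 4572058) (nat_lit 588147) (nat_lit 53154579) (nat_lit 9249052) [(nat_lit 588147), (nat_lit 0), (nat_lit 0), (nat_lit 0)]) (PF.cons (PF.leaf (nat_lit 4985410) (nat_lit 606128) (nat_lit 52390757) (nat_lit 9262902) [(nat_lit 606128), (nat_lit 0), (nat_lit 0), (nat_lit 0)]) (PF.cons PF.nil (PF.cons PF.nil PF.nil)))))))))))) (PF.cons (PF.cons (PF.leaf (nat_lit 2620270) (nat_lit 1551383) (nat_lit 56463960) (nat_lit 9093468) [(nat_lit 0), (nat_lit 1551383), (nat_lit 0), (nat_lit 0)]) (PF.cons (PF.leaf (nat_lit 2905015) (nat_lit 478279) (nat_lit 55902557) (nat_lit 9129107) [(nat_lit 478279), (nat_lit 1598868), (nat_lit 0), (nat_lit 0)]) (PF.cons (PF.leaf (nat_lit 3219712) (nat_lit 506090) (nat_lit 55289431)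 (nat_lit 9162670) [(nat_lit 506090), (nat_lit 1644530), (nat_lit 0), (nat_lit 0)]) (PF.cons (PF.leaf (nat_lit 3559195) (nat_lit 531222) (nat_lit 54634788) (nat_lit 9192678) [(nat_lit 531222), (nat_lit 1687679), (nat_lit 0), (nat_lit 0)]) (PF.cons (PF.leaf (nat_lit 3919757) (nat_lit 554053) (nat_lit 53946523) (nat_lit 9218093) [(nat_lit 554053), (nat_lit 1727981), (nat_lit 0), (nat_lit 0)]) (PF.cons (PF.leaf (nat_lit 4298298) (nat_lit 574844)
 (nat_lit 53231101) (nat_lit 9238203) [(nat_lit 574844), (nat_lit 1765284), (nat_lit 0), (nat_lit 0)]) (PF.cons (PF.leaf (nat_lit 4692154) (nat_lit 593786) (nat_lit 52493999) (nat_lit 9252548) [(nat_lit 593786), (nat_lit 1799546), (nat_lit 0), (nat_lit 0)]) (PF.cons (PF.leaf (nat_lit 5098960) (nat_lit 611029) (nat_lit 51739958) (nat_lit 9260861) [(nat_lit 611029), (nat_lit 1830784), (nat_lit 0), (nat_lit 0)]) (PF.cons (PF.leaf (nat_lit 5516609) (nat_lit 626699) (nat_lit 50973127) (nat_lit 9263029) [(nat_lit 626699), (nat_lit 1859058),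 (nat_lit 0), (nat_lit 0)]) (PF.cons PF.nil PF.nil)))))))))) (PF.cons (PF.cons (PF.leaf (nat_lit 3371885) (nat_lit 1672993) (nat_lit 54577058) (nat_lit 9185766) [(nat_lit 0), (nat_lit 1672993), (nat_lit 0), (nat_lit 0)]) (PF.cons (PF.leaf (nat_lit 3701461) (nat_lit 538048) (nat_lit 53937051) (nat_lit 9209257) [(nat_lit 538048), (nat_lit 1712228), (nat_lit 0), (nat_lit 0)]) (PF.cons (PF.leaf (nat_lit 4053636) (nat_lit 560238) (nat_lit 53261543) (nat_lit 9228493) [(nat_lit 560238), (nat_lit 1749148), (nat_lit 0), (nat_lit 0)]) (PF.cons (PF.leaf (nat_lit 4424480) (nat_lit 580364) (nat_lit 52558024) (nat_lit 9242754) [(nat_lit 580364), (nat_lit 1783470),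
 (nat_lit 0), (nat_lit 0)]) (PF.cons (PF.leaf (nat_lit 4811061) (nat_lit 598643) (nat_lit 51832525) (nat_lit 9251584) [(nat_lit 598643), (nat_lit 1815065), (nat_lit 0), (nat_lit 0)]) (PF.cons (PF.leaf (nat_lit 5210843) (nat_lit 615241) (nat_lit 51090090) (nat_lit 9254722) [(nat_lit 615241), (nat_lit 1843897), (nat_lit 0), (nat_lit 0)]) (PF.cons (PF.leaf (nat_lit 5621615) (nat_lit 630290) (nat_lit 50335030) (nat_lit 9252064) [(nat_lit 630290), (nat_lit 1869987), (nat_lit 0), (nat_lit 0)]) (PF.cons PF.nil (PF.cons PF.nil PF.nil))))))))) (PF.cons (PF.cons (PF.leaf (nat_lit 4189546) (nat_lit 1768584) (nat_lit 52569186) (nat_lit 9233873) [(nat_lit 0), (nat_lit 1768584), (nat_lit 0), (nat_lit 0)]) (PF.cons (PF.leaf (nat_lit 4551169) (nat_lit 584973) (nat_lit 51881059) (nat_lit 9242654) [(nat_lit 584973), (nat_lit 1800042), (nat_lit 0), (nat_lit 0)]) (PF.cons (PF.leaf (nat_lit 4929588) (nat_lit 602715) (nat_lit 51169763) (nat_lit 9246340) [(nat_lit 602715), (nat_lit 1829092),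 (nat_lit 0), (nat_lit 0)]) (PF.cons (PF.leaf (nat_lit 5321726) (nat_lit 618766) (nat_lit 50440927) (nat_lit 9244670) [(nat_lit 618766), (nat_lit 1855638), (nat_lit 0), (nat_lit 0)]) (PF.cons (PF.leaf (nat_lit
 5725198) (nat_lit 633275) (nat_lit 49699194) (nat_lit 9237538) [(nat_lit 633275), (nat_lit 1879659), (nat_lit 0), (nat_lit 0)]) (PF.cons (PF.leaf (nat_lit 6137933) (nat_lit 646365) (nat_lit 48948481) (nat_lit 9224953) [(nat_lit 646365), (nat_lit 1901184), (nat_lit 0), (nat_lit 0)]) (PF.cons PF.nil PF.nil))))))) (PF.cons (PF.cons (PF.leaf (nat_lit 5048943) (nat_lit 1841736) (nat_lit 50504902) (nat_lit 9236966) [(nat_lit 0), (nat_lit 1841736), (nat_lit 0), (nat_lit 0)]) (PF.cons (PF.leaf (nat_lit 5432362) (nat_lit 621597) (nat_lit 49791963) (nat_lit 9230859) [(nat_lit 621597), (nat_lit 1866098), (nat_lit 0), (nat_lit 0)]) (PF.cons (PF.leaf (nat_lit 5827942) (nat_lit 635654) (nat_lit 49065289) (nat_lit 9219606) [(nat_lit 635654), (nat_lit 1888151), (nat_lit 0), (nat_lit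 0)]) (PF.cons (PF.leaf (nat_lit 6233200) (nat_lit 648292) (nat_lit 48329142) (nat_lit 9203214) [(nat_lit 648292), (nat_lit 1907894), (nat_lit 0), (nat_lit 0)]) (PF.cons PF.nil PF.nil))))) (PF.cons (PF.cons (PF.leaf (nat_lit 5930803) (nat_lit 1895537) (nat_lit 48432724) (nat_lit 9198398) [(nat_lit 0), (nat_lit 1895537), (nat_lit 0), (nat_lit 0)]) (PF.cons (PF.leaf (nat_lit 6327820) (nat_lit 649681) (nat_lit 47712656)
 (nat_lit 9178534) [(nat_lit 649681), (nat_lit 1913588), (nat_lit 0), (nat_lit 0)]) (PF.cons (PF.leaf (nat_lit 6733264) (nat_lit 660637) (nat_lit 46986005) (nat_lit 9153909) [(nat_lit 660637), (nat_lit 1929524), (nat_lit 0), (nat_lit 0)]) (PF.cons PF.nil PF.nil)))) (PF.cons (PF.cons (PF.leaf (nat_lit 6820044) (nat_lit 1932805) (nat_lit 46388462) (nat_lit 9123519) [(nat_lit 0), (nat_lit 1932805), (nat_lit 0), (nat_lit 0)]) (PF.cons (PF.leaf (nat_lit 7224155) (nat_lit 670617) (nat_lit 45674391) (nat_lit 9091662) [(nat_lit 670617), (nat_lit 1945357), (nat_lit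 0), (nat_lit 0)]) PF.nil)) (PF.cons PF.nil (PF.cons PF.nil PF.nil))))))))) (PF.cons (PF.cons (PF.cons (PF.leaf (nat_lit 3229486) (nat_lit 3848266) (nat_lit 54097030) (nat_lit 9163515) [(nat_lit 0), (nat_lit 0), (nat_lit 3848266), (nat_lit 0)]) (PF.cons (PF.leaf (nat_lit 3525229) (nat_lit 511222) (nat_lit 53524877) (nat_lit 9182831) [(nat_lit 511222), (nat_lit 0), (nat_lit 3889882), (nat_lit 0)]) (PF.cons (PF.leaf (nat_lit 3848823) (nat_lit 536627) (nat_lit 52906070) (nat_lit 9199147) [(nat_lit 536627), (nat_lit 0), (nat_lit 3930338), (nat_lit 0)]) (PF.cons (PF.leaf (nat_lit 4194909) (nat_lit 559224) (nat_lit 52251117) (nat_lit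
 9211482) [(nat_lit 559224), (nat_lit 0), (nat_lit 3968538), (nat_lit 0)]) (PF.cons (PF.leaf (nat_lit 4559710) (nat_lit 579481) (nat_lit 51567902) (nat_lit 9219185) [(nat_lit 579481), (nat_lit 0), (nat_lit 4003800), (nat_lit 0)]) (PF.cons (PF.leaf (nat_lit 4940177) (nat_lit 597712) (nat_lit 50862693) (nat_lit 9221844) [(nat_lit 597712), (nat_lit 0), (nat_lit 4035711), (nat_lit 0)]) (PF.cons (PF.leaf (nat_lit 5333751) (nat_lit 614147) (nat_lit 50140664) (nat_lit 9219229) [(nat_lit 614147), (nat_lit 0), (nat_lit 4064033), (nat_lit 0)]) (PF.cons (PF.leaf (nat_lit 5738206) (nat_lit 628960) (nat_lit 49406181) (nat_lit 9211250) [(nat_lit 628960), (nat_lit 0), (nat_lit 4088657), (nat_lit 0)]) (PF.cons PF.nil (PF.cons PF.nil PF.nil)))))))))) (PF.cons (PF.cons (PF.leaf (nat_lit 3992171) (nat_lit 1740103) (nat_lit 52206853) (nat_lit 9203529) [(nat_lit 0), (nat_lit 1740103), (nat_lit 3958325), (nat_lit 0)]) (PF.cons (PF.leaf (nat_lit 4327295) (nat_lit 563509) (nat_lit 51570408)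 (nat_lit 9210724) [(nat_lit 563509), (nat_lit 1772397), (nat_lit 3991773), (nat_lit 0)]) (PF.cons (PF.leaf (nat_lit 4682883) (nat_lit 583362) (nat_lit 50903300) (nat_lit 9213572) [(nat_lit 583362), (nat_lit 1802454),
 (nat_lit 4022760), (nat_lit 0)]) (PF.cons (PF.leaf (nat_lit 5055038) (nat_lit 601134) (nat_lit 50212875) (nat_lit 9211661) [(nat_lit 601134), (nat_lit 1830085), (nat_lit 4050787), (nat_lit 0)]) (PF.cons (PF.leaf (nat_lit 5440874) (nat_lit 617088) (nat_lit 49504902) (nat_lit 9204767) [(nat_lit 617088), (nat_lit 1855225), (nat_lit 4075565), (nat_lit 0)]) (PF.cons (PF.leaf (nat_lit 5837975) (nat_lit 631419) (nat_lit 48784090) (nat_lit 9192802) [(nat_lit 631419), (nat_lit 1877877), (nat_lit 4096946), (nat_lit 0)]) (PF.cons (PF.leaf (nat_lit 6244278) (nat_lit 644279) (nat_lit 48054379) (nat_lit 9175785) [(nat_lit 644279), (nat_lit 1898089), (nat_lit 4114881), (nat_lit 0)]) (PF.cons PF.nil (PF.cons PF.nil PF.nil))))))))) (PF.cons (PF.cons (PF.leaf (nat_lit 4808357)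 (nat_lit 1815945) (nat_lit 50233983) (nat_lit 9203783) [(nat_lit 0), (nat_lit 1815945), (nat_lit 4039155), (nat_lit 0)]) (PF.cons (PF.leaf (nat_lit 5170713) (nat_lit 603758) (nat_lit 49561369) (nat_lit 9197677) [(nat_lit 603758), (nat_lit 1841260), (nat_lit 4063485), (nat_lit 0)]) (PF.cons (PF.leaf (nat_lit 5547971) (nat_lit 619349) (nat_lit 48869655) (nat_lit 9186857) [(nat_lit 619349), (nat_lit 1864345), (nat_lit 4084909),
 (nat_lit 0)]) (PF.cons (PF.leaf (nat_lit 5937146) (nat_lit 633289) (nat_lit 48164162) (nat_lit 9171240) [(nat_lit 633289), (nat_lit 1885152), (nat_lit 4103234), (nat_lit 0)]) (PF.cons (PF.leaf (nat_lit 6335970) (nat_lit 645751) (nat_lit 47449186) (nat_lit 9150846) [(nat_lit 645751), (nat_lit 1903696), (nat_lit 4118379), (nat_lit 0)]) (PF.cons (PF.leaf (nat_lit 6742525) (nat_lit 656872) (nat_lit 46728281) (nat_lit 9125772) [(nat_lit 656872), (nat_lit 1920026), (nat_lit 4130341), (nat_lit 0)]) (PF.cons PF.nil PF.nil))))))) (PF.cons (PF.cons (PF.leaf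 (nat_lit 5656223) (nat_lit 1872347) (nat_lit 48233987) (nat_lit 9165597) [(nat_lit 0), (nat_lit 1872347), (nat_lit 4092185), (nat_lit 0)]) (PF.cons (PF.leaf (nat_lit 6036446) (nat_lit 634556) (nat_lit 47545770) (nat_lit 9146673) [(nat_lit 634556), (nat_lit 1891394), (nat_lit 4107628), (nat_lit 0)]) (PF.cons (PF.leaf (nat_lit 6427239) (nat_lit 646702) (nat_lit 46846969) (nat_lit 9123218) [(nat_lit 646702), (nat_lit 1908355), (nat_lit 4120152), (nat_lit 0)]) (PF.cons (PF.leaf (nat_lit 6826273) (nat_lit 657495) (nat_lit 46141503) (nat_lit 9095331) [(nat_lit 657495), (nat_lit 1923254), (nat_lit 4129726), (nat_lit 0)]) (PF.cons PF.nil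
 PF.nil))))) (PF.cons (PF.cons (PF.leaf (nat_lit 6518992) (nat_lit 1912121) (nat_lit 46247056) (nat_lit 9092986) [(nat_lit 0), (nat_lit 1912121), (nat_lit 4120286), (nat_lit 0)]) (PF.cons (PF.leaf (nat_lit 6909768) (nat_lit 657654) (nat_lit 45558294) (nat_lit 9062584) [(nat_lit 657654), (nat_lit 1925663), (nat_lit 4127626), (nat_lit 0)]) (PF.cons (PF.leaf (nat_lit 7307727) (nat_lit 666954) (nat_lit 44865221) (nat_lit 9028120) [(nat_lit 666954), (nat_lit 1937327), (nat_lit 4132251), (nat_lit 0)]) (PF.cons PF.nil PF.nil)))) (PF.cons (PF.cons (PF.leaf (nat_lit 7383822) (nat_lit 1937803) (nat_lit 44301842) (nat_lit 8991109) [(nat_lit 0), (nat_lit 1937803), (nat_lit 4126843), (nat_lit 0)]) (PF.cons PF.nil PF.nil)) (PF.cons PF.nil (PF.cons PF.nil PF.nil)))))))) (PF.cons (PF.cons (PF.cons (PF.leaf (nat_lit 4593654) (nat_lit 4012665) (nat_lit 49913590) (nat_lit 9169891) [(nat_lit 0), (nat_lit 0), (nat_lit 4012665), (nat_lit 0)]) (PF.cons (PF.leaf (nat_lit 4931198) (nat_lit 582809)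 (nat_lit 49289529) (nat_lit 9163686) [(nat_lit 582809), (nat_lit 0), (nat_lit 4036394), (nat_lit 0)]) (PF.cons (PF.leaf (nat_lit 5287353) (nat_lit 600589) (nat_lit 48638930) (nat_lit 9153217) [(nat_lit 600589),
 (nat_lit 0), (nat_lit 4057743), (nat_lit 0)]) (PF.cons (PF.leaf (nat_lit 5658268) (nat_lit 616299) (nat_lit 47968874) (nat_lit 9138308) [(nat_lit 616299), (nat_lit 0), (nat_lit 4076365), (nat_lit 0)]) (PF.cons (PF.leaf (nat_lit 6041135) (nat_lit 630236) (nat_lit 47284810) (nat_lit 9118905) [(nat_lit 630236), (nat_lit 0), (nat_lit 4092074), (nat_lit 0)]) (PF.cons (PF.leaf (nat_lit 6433681) (nat_lit 642616) (nat_lit 46591099) (nat_lit 9095041) [(nat_lit 642616), (nat_lit 0), (nat_lit 4104793), (nat_lit 0)]) (PF.cons (PF.leaf (nat_lit 6833937) (nat_lit 653605) (nat_lit 45891320) (nat_lit 9066819) [(nat_lit 653605), (nat_lit 0), (nat_lit 4114519), (nat_lit 0)]) (PF.cons PF.nil (PF.cons PF.nil PF.nil))))))))) (PF.cons (PF.cons (PF.leaf (nat_lit 5402521) (nat_lit 1847559)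 (nat_lit 47998088) (nat_lit 9131677) [(nat_lit 0), (nat_lit 1847559), (nat_lit 4065743), (nat_lit 0)]) (PF.cons (PF.leaf (nat_lit 5763324) (nat_lit 617322) (nat_lit 47347211) (nat_lit 9113670) [(nat_lit 617322), (nat_lit 1867730), (nat_lit 4081439), (nat_lit 0)]) (PF.cons (PF.leaf (nat_lit 6137411) (nat_lit 631040) (nat_lit 46680528) (nat_lit 9091368) [(nat_lit 631040), (nat_lit 1885838), (nat_lit 4094497), (nat_lit
 0)]) (PF.cons (PF.leaf (nat_lit 6521913) (nat_lit 643158) (nat_lit 46003026) (nat_lit 9064816) [(nat_lit 643158), (nat_lit 1901878), (nat_lit 4104807), (nat_lit 0)]) (PF.cons (PF.leaf (nat_lit 6914678) (nat_lit 653866) (nat_lit 45318656) (nat_lit 9034121) [(nat_lit 653866), (nat_lit 1915890), (nat_lit 4112338), (nat_lit 0)]) (PF.cons PF.nil (PF.cons PF.nil PF.nil))))))) (PF.cons (PF.cons (PF.leaf (nat_lit 6235140) (nat_lit 1890138) (nat_lit 46076911) (nat_lit 9061123) [(nat_lit 0), (nat_lit 1890138), (nat_lit 4095250), (nat_lit 0)]) (PF.cons (PF.leaf (nat_lit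 6610622) (nat_lit 643169) (nat_lit 45417306) (nat_lit 9032197) [(nat_lit 643169), (nat_lit 1904767), (nat_lit 4103302), (nat_lit 0)]) (PF.cons (PF.leaf (nat_lit 6995361) (nat_lit 653673) (nat_lit 44749562) (nat_lit 8999311) [(nat_lit 653673), (nat_lit 1917511), (nat_lit 4108784), (nat_lit 0)]) (PF.cons (PF.leaf (nat_lit 7387141) (nat_lit 662893) (nat_lit 44077264) (nat_lit 8962624) [(nat_lit 662893), (nat_lit 1928414), (nat_lit 4111706), (nat_lit 0)]) (PF.cons PF.nil PF.nil))))) (PF.cons (PF.cons (PF.leaf (nat_lit 7076851) (nat_lit 1918407) (nat_lit 44183317) (nat_lit 8962438) [(nat_lit 0), (nat_lit 1918407), (nat_lit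
 4103916), (nat_lit 0)]) (PF.cons (PF.leaf (nat_lit 7460476) (nat_lit 662070) (nat_lit 43527819) (nat_lit 8924010) [(nat_lit 662070), (nat_lit 1928231), (nat_lit 4105108), (nat_lit 0)]) (PF.cons PF.nil (PF.cons PF.nil PF.nil)))) (PF.cons (PF.cons (PF.leaf (nat_lit 7916679) (nat_lit 1934658) (nat_lit 42340217) (nat_lit 8840407) [(nat_lit 0), (nat_lit 1934658), (nat_lit 4094777), (nat_lit 0)]) (PF.cons PF.nil PF.nil)) (PF.cons PF.nil PF.nil)))))) (PF.cons (PF.cons (PF.cons (PF.leaf (nat_lit 5971261) (nat_lit 4069631) (nat_lit 45872262) (nat_lit 9027655) [(nat_lit 0), (nat_lit 0), (nat_lit 4069631), (nat_lit 0)]) (PF.cons (PF.leaf (nat_lit 6328815) (nat_lit 626615) (nat_lit 45247024) (nat_lit 9000284) [(nat_lit 626615), (nat_lit 0), (nat_lit 4078296), (nat_lit 0)]) (PF.cons (PF.leaf (nat_lit 6698299) (nat_lit 638703) (nat_lit 44608638) (nat_lit 8969036) [(nat_lit 638703), (nat_lit 0), (nat_lit 4084576), (nat_lit 0)]) (PF.cons (PF.leaf (nat_lit 7076951) (nat_lit 649250) (nat_lit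 43961747) (nat_lit 8934046) [(nat_lit 649250), (nat_lit 0), (nat_lit 4088422), (nat_lit 0)]) (PF.cons (PF.leaf (nat_lit 7462719) (nat_lit 658454) (nat_lit 43309977) (nat_lit 8895482) [(nat_lit 658454), (nat_lit
 0), (nat_lit 4089844), (nat_lit 0)]) (PF.cons PF.nil (PF.cons PF.nil PF.nil))))))) (PF.cons (PF.cons (PF.leaf (nat_lit 6786199) (nat_lit 1897705) (nat_lit 44038226) (nat_lit 8932135) [(nat_lit 0), (nat_lit 1897705), (nat_lit 4080248), (nat_lit 0)]) (PF.cons (PF.leaf (nat_lit 7155874) (nat_lit 648255) (nat_lit 43409320) (nat_lit 8895534) [(nat_lit 648255), (nat_lit 1908663), (nat_lit 4082346), (nat_lit 0)]) (PF.cons (PF.leaf (nat_lit 7533717) (nat_lit 657350) (nat_lit 42774156) (nat_lit 8855484) [(nat_lit 657350), (nat_lit 1917919), (nat_lit 4082184), (nat_lit 0)]) (PF.cons PF.nil (PF.cons PF.nil PF.nil))))) (PF.cons (PF.cons (PF.leaf (nat_lit 7605815) (nat_lit 1916551) (nat_lit 42241445) (nat_lit 8813854) [(nat_lit 0), (nat_lit 1916551), (nat_lit 4073469), (nat_lit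 0)]) (PF.cons (PF.leaf (nat_lit 7981732) (nat_lit 663626) (nat_lit 41619834) (nat_lit 8769433) [(nat_lit 663626), (nat_lit 1923311), (nat_lit 4069765), (nat_lit 0)]) (PF.cons PF.nil (PF.cons PF.nil PF.nil)))) (PF.cons (PF.cons (PF.leaf (nat_lit 8420657) (nat_lit 1925137) (nat_lit 40500255) (nat_lit 8677142) [(nat_lit 0), (nat_lit 1925137), (nat_lit 4052000), (nat_lit 0)]) (PF.cons PF.nil PF.nil)) (PF.cons PF.nil
 PF.nil))))) (PF.cons (PF.cons (PF.cons (PF.leaf (nat_lit 7310417) (nat_lit 4051296) (nat_lit 42118163) (nat_lit 8785464) [(nat_lit 0), (nat_lit 0), (nat_lit 4051296), (nat_lit 0)]) (PF.cons (PF.leaf (nat_lit 7673559) (nat_lit 650488) (nat_lit 41520752) (nat_lit 8743087) [(nat_lit 650488), (nat_lit 0), (nat_lit 4048621), (nat_lit 0)]) (PF.cons (PF.leaf (nat_lit 8043981) (nat_lit 658372) (nat_lit 40918527) (nat_lit 8697709) [(nat_lit 658372), (nat_lit 0), (nat_lit 4043957), (nat_lit 0)]) (PF.cons PF.nil PF.nil)))) (PF.cons (PF.cons (PF.leaf (nat_lit 8107541) (nat_lit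 1908287) (nat_lit 40418458) (nat_lit 8652804) [(nat_lit 0), (nat_lit 1908287), (nat_lit 4032315), (nat_lit 0)]) (PF.cons (PF.leaf (nat_lit 8475437) (nat_lit 662890) (nat_lit 39830441) (nat_lit 8604024) [(nat_lit 662890), (nat_lit 1912526), (nat_lit 4024732), (nat_lit 0)]) PF.nil)) (PF.cons PF.nil PF.nil))) (PF.cons (PF.cons (PF.cons (PF.leaf (nat_lit 8583802) (nat_lit 3983128) (nat_lit 38709540) (nat_lit 8483629) [(nat_lit 0), (nat_lit 0), (nat_lit 3983128), (nat_lit 0)]) (PF.cons PF.nil PF.nil)) (PF.cons PF.nil PF.nil)) (PF.cons PF.nil (PF.cons PF.nil PF.nil)))))))) (PF.cons (PF.cons (PF.cons (PF.cons (PF.leaf (nat_lit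
 4128280) (nat_lit 9008679) (nat_lit 48992254) (nat_lit 9008679) [(nat_lit 0), (nat_lit 0), (nat_lit 0), (nat_lit 9107879)]) (PF.cons (PF.leaf (nat_lit 4420297) (nat_lit 527065) (nat_lit 48471375) (nat_lit 9005946) [(nat_lit 527065), (nat_lit 0), (nat_lit 0), (nat_lit 9104425)]) (PF.cons (PF.leaf (nat_lit 4737643) (nat_lit 550176) (nat_lit 47911240) (nat_lit 8999758) [(nat_lit 550176), (nat_lit 0), (nat_lit 0), (nat_lit 9097460)]) (PF.cons (PF.leaf (nat_lit 5074905) (nat_lit 570269) (nat_lit 47321618) (nat_lit 8989751) [(nat_lit 570269), (nat_lit 0), (nat_lit 0), (nat_lit 9086634)]) (PF.cons (PF.leaf (nat_lit 5428358) (nat_lit 587913) (nat_lit 46709696) (nat_lit 8975716) [(nat_lit 587913), (nat_lit 0), (nat_lit 0), (nat_lit 9071746)]) (PF.cons (PF.leaf (nat_lit 5795072) (nat_lit 603496) (nat_lit 46081060) (nat_lit 8957560) [(nat_lit 603496), (nat_lit 0), (nat_lit 0), (nat_lit 9052707)]) (PF.cons (PF.leaf (nat_lit 6172632) (nat_lit 617299) (nat_lit 45440213) (nat_lit 8935279)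 [(nat_lit 617299), (nat_lit 0), (nat_lit 0), (nat_lit 9029520)]) (PF.cons (PF.leaf (nat_lit 6558996) (nat_lit 629536) (nat_lit 44790866) (nat_lit 8908937) [(nat_lit 629536), (nat_lit 0), (nat_lit 0), (nat_lit
 9002251)]) (PF.cons (PF.leaf (nat_lit 6952440) (nat_lit 640376) (nat_lit 44136130) (nat_lit 8878650) [(nat_lit 640376), (nat_lit 0), (nat_lit 0), (nat_lit 8971021)]) (PF.cons PF.nil PF.nil)))))))))) (PF.cons (PF.cons (PF.leaf (nat_lit 4864016) (nat_lit 1760162) (nat_lit 47288724) (nat_lit 8981522) [(nat_lit 0), (nat_lit 1760162), (nat_lit 0), (nat_lit 9078403)]) (PF.cons (PF.leaf (nat_lit 5189778) (nat_lit 572005) (nat_lit 46718383) (nat_lit 8968557) [(nat_lit 572005), (nat_lit 1785228), (nat_lit 0), (nat_lit 9064638)]) (PF.cons (PF.leaf (nat_lit 5533638) (nat_lit 589434) (nat_lit 46123252) (nat_lit 8951700) [(nat_lit 589434), (nat_lit 1808047), (nat_lit 0), (nat_lit 9046943)]) (PF.cons (PF.leaf (nat_lit 5891825) (nat_lit 604738) (nat_lit 45509897) (nat_lit 8930883)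 [(nat_lit 604738), (nat_lit 1828561), (nat_lit 0), (nat_lit 9025255)]) (PF.cons (PF.leaf (nat_lit 6261598) (nat_lit 618232) (nat_lit 44883373) (nat_lit 8906117) [(nat_lit 618232), (nat_lit 1846798), (nat_lit 0), (nat_lit 8999593)]) (PF.cons (PF.leaf (nat_lit 6640707) (nat_lit 630152) (nat_lit 44247714) (nat_lit 8877474) [(nat_lit 630152), (nat_lit 1862828), (nat_lit 0), (nat_lit 8970033)]) (PF.cons (PF.leaf (nat_lit
 7027303) (nat_lit 640677) (nat_lit 43606226) (nat_lit 8845075) [(nat_lit 640677), (nat_lit 1876744), (nat_lit 0), (nat_lit 8936698)]) (PF.cons (PF.leaf (nat_lit 7419765) (nat_lit 649954) (nat_lit 42961660) (nat_lit 8809074) [(nat_lit 649954), (nat_lit 1888650), (nat_lit 0), (nat_lit 8899748)]) (PF.cons PF.nil PF.nil))))))))) (PF.cons (PF.cons (PF.leaf (nat_lit 5641584) (nat_lit 1815191) (nat_lit 45534372) (nat_lit 8924807) [(nat_lit 0), (nat_lit 1815191), (nat_lit 0), (nat_lit 9019249)]) (PF.cons (PF.leaf (nat_lit 5989875) (nat_lit 605310) (nat_lit 44938687)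 (nat_lit 8901657) [(nat_lit 605310), (nat_lit 1833955), (nat_lit 0), (nat_lit 8995244)]) (PF.cons (PF.leaf (nat_lit 6351099) (nat_lit 618609) (nat_lit 44328172) (nat_lit 8874696) [(nat_lit 618609), (nat_lit 1850661), (nat_lit 0), (nat_lit 8967400)]) (PF.cons (PF.leaf (nat_lit 6722429) (nat_lit 630296) (nat_lit 43707426) (nat_lit 8844013) [(nat_lit 630296), (nat_lit 1865335), (nat_lit 0), (nat_lit 8935811)]) (PF.cons (PF.leaf (nat_lit 7101808) (nat_lit 640573) (nat_lit 43080091) (nat_lit 8809736) [(nat_lit 640573), (nat_lit 1878039), (nat_lit 0), (nat_lit 8900609)]) (PF.cons (PF.leaf (nat_lit 7487482) (nat_lit 649598) (nat_lit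
 42449121) (nat_lit 8772025) [(nat_lit 649598), (nat_lit 1888856), (nat_lit 0), (nat_lit 8861958)]) (PF.cons PF.nil PF.nil))))))) (PF.cons (PF.cons (PF.leaf (nat_lit 6442238) (nat_lit 1853717) (nat_lit 43773652) (nat_lit 8841042) [(nat_lit 0), (nat_lit 1853717), (nat_lit 0), (nat_lit 8932964)]) (PF.cons (PF.leaf (nat_lit 6804833) (nat_lit 629946) (nat_lit 43169330) (nat_lit 8808596) [(nat_lit 629946), (nat_lit 1867104), (nat_lit 0), (nat_lit 8899625)]) (PF.cons (PF.leaf (nat_lit 7176485) (nat_lit 640051) (nat_lit 42557227) (nat_lit 8772686) [(nat_lit 640051), (nat_lit 1878664), (nat_lit 0), (nat_lit 8862803)]) (PF.cons (PF.leaf (nat_lit 7555018) (nat_lit 648884) (nat_lit 41940639) (nat_lit 8733481) [(nat_lit 648884), (nat_lit 1888456), (nat_lit 0), (nat_lit 8822669)]) (PF.cons (PF.leaf (nat_lit 7938827) (nat_lit 656585) (nat_lit 41322218) (nat_lit 8691165) [(nat_lit 656585), (nat_lit 1896557), (nat_lit 0), (nat_lit 8779412)]) PF.nil))))) (PF.cons (PF.cons (PF.leaf (nat_lit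 7252180) (nat_lit 1878653) (nat_lit 42036947) (nat_lit 8733947) [(nat_lit 0), (nat_lit 1878653), (nat_lit 0), (nat_lit 8823302)]) (PF.cons (PF.leaf (nat_lit 7622878) (nat_lit 647797) (nat_lit 41435702) (nat_lit
 8693476) [(nat_lit 647797), (nat_lit 1887480), (nat_lit 0), (nat_lit 8781916)]) (PF.cons (PF.leaf (nat_lit 7999651) (nat_lit 655353) (nat_lit 40831710) (nat_lit 8650011) [(nat_lit 655353), (nat_lit 1894715), (nat_lit 0), (nat_lit 8737522)]) (PF.cons PF.nil PF.nil)))) (PF.cons (PF.cons (PF.leaf (nat_lit 8061144) (nat_lit 1892378) (nat_lit 40344913) (nat_lit 8607618) [(nat_lit 0), (nat_lit 1892378), (nat_lit 0), (nat_lit 8694390)]) (PF.cons (PF.leaf (nat_lit 8435225) (nat_lit 660210) (nat_lit 39754895) (nat_lit 8560515) [(nat_lit 660210), (nat_lit 1897366), (nat_lit 0), (nat_lit 8646361)]) PF.nil)) (PF.cons PF.nil (PF.cons PF.nil PF.nil)))))))) (PF.cons (PF.cons (PF.cons (PF.leaf (nat_lit 5414877) (nat_lit 3965604) (nat_lit 45271772) (nat_lit 8888632) [(nat_lit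 0), (nat_lit 0), (nat_lit 3965604), (nat_lit 8982803)]) (PF.cons (PF.leaf (nat_lit 5740683) (nat_lit 584600) (nat_lit 44718452) (nat_lit 8867027) [(nat_lit 584600), (nat_lit 0), (nat_lit 3978343), (nat_lit 8960389)]) (PF.cons (PF.leaf (nat_lit 6083083) (nat_lit 600246) (nat_lit 44143504) (nat_lit 8841691) [(nat_lit 600246), (nat_lit 0), (nat_lit 3988913), (nat_lit 8934209)]) (PF.cons (PF.leaf (nat_lit 6438362) (nat_lit
 613822) (nat_lit 43553159) (nat_lit 8812700) [(nat_lit 613822), (nat_lit 0), (nat_lit 3997139), (nat_lit 8904344)]) (PF.cons (PF.leaf (nat_lit 6803910) (nat_lit 625662) (nat_lit 42952137) (nat_lit 8780163) [(nat_lit 625662), (nat_lit 0), (nat_lit 4002950), (nat_lit 8870910)]) (PF.cons (PF.leaf (nat_lit 7177582) (nat_lit 636009) (nat_lit 42344148) (nat_lit 8744221) [(nat_lit 636009), (nat_lit 0), (nat_lit 4006343), (nat_lit 8834052)]) (PF.cons (PF.leaf (nat_lit 7557632) (nat_lit 645048) (nat_lit 41732186) (nat_lit 8705036) [(nat_lit 645048), (nat_lit 0),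 (nat_lit 4007364), (nat_lit 8793937)]) (PF.cons PF.nil (PF.cons PF.nil PF.nil))))))))) (PF.cons (PF.cons (PF.leaf (nat_lit 6181935) (nat_lit 1829684) (nat_lit 43583832) (nat_lit 8807863) [(nat_lit 0), (nat_lit 1829684), (nat_lit 3987849), (nat_lit 8899582)]) (PF.cons (PF.leaf (nat_lit 6527257) (nat_lit 613234) (nat_lit 43011580) (nat_lit 8777281) [(nat_lit 613234), (nat_lit 1844490), (nat_lit 3994082), (nat_lit 8868144)]) (PF.cons (PF.leaf (nat_lit 6884245) (nat_lit 624994) (nat_lit 42426857) (nat_lit 8743235) [(nat_lit 624994), (nat_lit 1857414), (nat_lit 3998098), (nat_lit 8833216)]) (PF.cons (PF.leaf (nat_lit 7250192) (nat_lit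
 635211) (nat_lit 41833943) (nat_lit 8705889) [(nat_lit 635211), (nat_lit 1868504), (nat_lit 3999871), (nat_lit 8794969)]) (PF.cons (PF.leaf (nat_lit 7623132) (nat_lit 644093) (nat_lit 41236175) (nat_lit 8665419) [(nat_lit 644093), (nat_lit 1877835), (nat_lit 3999428), (nat_lit 8753581)]) (PF.cons (PF.leaf (nat_lit 8001437) (nat_lit 651801) (nat_lit 40636229) (nat_lit 8622011) [(nat_lit 651801), (nat_lit 1885491), (nat_lit 3996827), (nat_lit 8709243)]) (PF.cons PF.nil PF.nil))))))) (PF.cons (PF.cons (PF.leaf (nat_lit 6966485) (nat_lit 1857893) (nat_lit 41902757) (nat_lit 8704489) [(nat_lit 0), (nat_lit 1857893), (nat_lit 3992080), (nat_lit 8793698)]) (PF.cons (PF.leaf (nat_lit 7323769) (nat_lit 633973) (nat_lit 41326248) (nat_lit 8665994) [(nat_lit 633973), (nat_lit 1867962), (nat_lit 3992355), (nat_lit 8754316)]) (PF.cons (PF.leaf (nat_lit 7689098) (nat_lit 642770) (nat_lit 40743610) (nat_lit 8624456) [(nat_lit 642770), (nat_lit 1876385), (nat_lit 3990559), (nat_lit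 8711875)]) (PF.cons (PF.leaf (nat_lit 8060419) (nat_lit 650364) (nat_lit 40157861) (nat_lit 8580078) [(nat_lit 650364), (nat_lit 1883230), (nat_lit 3986737), (nat_lit 8666579)]) (PF.cons PF.nil PF.nil))))) (PF.cons
 (PF.cons (PF.leaf (nat_lit 7756348) (nat_lit 1874419) (nat_lit 40253795) (nat_lit 8582149) [(nat_lit 0), (nat_lit 1874419), (nat_lit 3980788), (nat_lit 8668821)]) (PF.cons (PF.leaf (nat_lit 8120001) (nat_lit 648598) (nat_lit 39683080) (nat_lit 8537003) [(nat_lit 648598), (nat_lit 1880503), (nat_lit 3975847), (nat_lit 8622772)]) (PF.cons (PF.leaf (nat_lit 8488963) (nat_lit 655056) (nat_lit 39110684) (nat_lit 8489293) [(nat_lit 655056), (nat_lit 1885169), (nat_lit 3969064), (nat_lit 8574148)]) (PF.cons PF.nil PF.nil)))) (PF.cons (PF.cons (PF.leaf (nat_lit 8542628) (nat_lit 1881359) (nat_lit 38653628) (nat_lit 8444565) [(nat_lit 0), (nat_lit 1881359), (nat_lit 3956481), (nat_lit 8528699)]) (PF.cons PF.nil PF.nil)) (PF.cons PF.nil PF.nil)))))) (PF.cons (PF.cons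 (PF.cons (PF.leaf (nat_lit 6699470) (nat_lit 3967726) (nat_lit 41738533) (nat_lit 8672902) [(nat_lit 0), (nat_lit 0), (nat_lit 3967726), (nat_lit 8761923)]) (PF.cons (PF.leaf (nat_lit 7040758) (nat_lit 618069) (nat_lit 41191371) (nat_lit 8636575) [(nat_lit 618069), (nat_lit 0), (nat_lit 3969025), (nat_lit 8724746)]) (PF.cons (PF.leaf (nat_lit 7392642) (nat_lit 628493) (nat_lit 40633648) (nat_lit 8597116) [(nat_lit 628493),
 (nat_lit 0), (nat_lit 3968323), (nat_lit 8684414)]) (PF.cons (PF.leaf (nat_lit 7752514) (nat_lit 637441) (nat_lit 40069335) (nat_lit 8554740) [(nat_lit 637441), (nat_lit 0), (nat_lit 3965633), (nat_lit 8641146)]) (PF.cons (PF.leaf (nat_lit 8118509) (nat_lit 645126) (nat_lit 39501493) (nat_lit 8509653) [(nat_lit 645126), (nat_lit 0), (nat_lit 3961001), (nat_lit 8595156)]) (PF.cons PF.nil (PF.cons PF.nil PF.nil))))))) (PF.cons (PF.cons (PF.leaf (nat_lit 7466653) (nat_lit 1855067) (nat_lit 40139672) (nat_lit 8554748) [(nat_lit 0), (nat_lit 1855067), (nat_lit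 3959018), (nat_lit 8641287)]) (PF.cons (PF.leaf (nat_lit 7818001) (nat_lit 635497) (nat_lit 39591455) (nat_lit 8511717) [(nat_lit 635497), (nat_lit 1862380), (nat_lit 3955189), (nat_lit 8597383)]) (PF.cons (PF.leaf (nat_lit 8176551) (nat_lit 643168) (nat_lit 39038391) (nat_lit 8466018) [(nat_lit 643168), (nat_lit 1868206), (nat_lit 3949531), (nat_lit 8550795)]) (PF.cons (PF.leaf (nat_lit 8540350) (nat_lit 649703) (nat_lit 38483243) (nat_lit 8417872) [(nat_lit 649703), (nat_lit 1872620), (nat_lit 3942107), (nat_lit 8501749)]) (PF.cons PF.nil PF.nil))))) (PF.cons (PF.cons (PF.leaf (nat_lit 8236107) (nat_lit 1864704) (nat_lit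
 38578058) (nat_lit 8421313) [(nat_lit 0), (nat_lit 1864704), (nat_lit 3937334), (nat_lit 8505362)]) (PF.cons (PF.leaf (nat_lit 8592435) (nat_lit 647401) (nat_lit 38037452) (nat_lit 8372796) [(nat_lit 647401), (nat_lit 1868525), (nat_lit 3929074), (nat_lit 8455960)]) (PF.cons PF.nil (PF.cons PF.nil PF.nil)))) (PF.cons (PF.cons (PF.leaf (nat_lit 9000050) (nat_lit 1866127) (nat_lit 37067221) (nat_lit 8275934) [(nat_lit 0), (nat_lit 1866127), (nat_lit 3904883), (nat_lit 8357507)]) (PF.cons PF.nil PF.nil)) (PF.cons PF.nil PF.nil))))) (PF.cons (PF.cons (PF.cons (PF.leaf (nat_lit 7943879) (nat_lit 3917166) (nat_lit 38481293) (nat_lit 8396043) [(nat_lit 0), (nat_lit 0), (nat_lit 3917166), (nat_lit 8479976)]) (PF.cons (PF.leaf (nat_lit 8288876) (nat_lit 634999) (nat_lit 37961146) (nat_lit 8349708) [(nat_lit 634999), (nat_lit 0), (nat_lit 3910057), (nat_lit 8432784)]) (PF.cons (PF.leaf (nat_lit 8640384) (nat_lit 641700) (nat_lit 37437147) (nat_lit 8301033) [(nat_lit 641700), (nat_lit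 0), (nat_lit 3901330), (nat_lit 8383239)]) (PF.cons PF.nil PF.nil)))) (PF.cons (PF.cons (PF.leaf (nat_lit 8692949) (nat_lit 1850699) (nat_lit 37004972) (nat_lit 8254845) [(nat_lit 0), (nat_lit 1850699),
 (nat_lit 3887316), (nat_lit 8336345)]) (PF.cons (PF.leaf (nat_lit 9041831) (nat_lit 644606) (nat_lit 36493589) (nat_lit 8204002) [(nat_lit 644606), (nat_lit 1852654), (nat_lit 3876439), (nat_lit 8284640)]) PF.nil)) (PF.cons PF.nil PF.nil))) (PF.cons (PF.cons (PF.cons (PF.leaf (nat_lit 9128394) (nat_lit 3832488) (nat_lit 35529044) (nat_lit 8085389) [(nat_lit 0), (nat_lit 0), (nat_lit 3832488), (nat_lit 8164423)]) (PF.cons PF.nil PF.nil)) (PF.cons PF.nil PF.nil)) (PF.cons PF.nil PF.nil)))))) (PF.cons (PF.cons (PF.cons (PF.cons (PF.leaf (nat_lit 6140640) (nat_lit 8551851) (nat_lit 41276352) (nat_lit 8551851) [(nat_lit 0), (nat_lit 0), (nat_lit 0), (nat_lit 8640304)]) (PF.cons (PF.leaf (nat_lit 6454152) (nat_lit 579173) (nat_lit 40788752) (nat_lit 8521850) [(nat_lit 579173),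 (nat_lit 0), (nat_lit 0), (nat_lit 8609518)]) (PF.cons (PF.leaf (nat_lit 6782709) (nat_lit 593143) (nat_lit 40283120) (nat_lit 8488568) [(nat_lit 593143), (nat_lit 0), (nat_lit 0), (nat_lit 8575419)]) (PF.cons (PF.leaf (nat_lit 7122736) (nat_lit 605079) (nat_lit 39764897) (nat_lit 8452218) [(nat_lit 605079), (nat_lit 0), (nat_lit 0), (nat_lit 8538228)]) (PF.cons (PF.leaf (nat_lit 7471780) (nat_lit 615338) (nat_lit
 39238152) (nat_lit 8413001) [(nat_lit 615338), (nat_lit 0), (nat_lit 0), (nat_lit 8498152)]) (PF.cons (PF.leaf (nat_lit 7827861) (nat_lit 624176) (nat_lit 38706049) (nat_lit 8371108) [(nat_lit 624176), (nat_lit 0), (nat_lit 0), (nat_lit 8455386)]) (PF.cons (PF.leaf (nat_lit 8189378) (nat_lit 631787) (nat_lit 38171109) (nat_lit 8326729) [(nat_lit 631787), (nat_lit 0), (nat_lit 0), (nat_lit 8410125)]) (PF.cons PF.nil (PF.cons PF.nil PF.nil))))))))) (PF.cons (PF.cons (PF.leaf (nat_lit 6868447) (nat_lit 1794429) (nat_lit 39795739) (nat_lit 8448822) [(nat_lit 0),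 (nat_lit 1794429), (nat_lit 0), (nat_lit 8534910)]) (PF.cons (PF.leaf (nat_lit 7198822) (nat_lit 603444) (nat_lit 39293920) (nat_lit 8411808) [(nat_lit 603444), (nat_lit 1805486), (nat_lit 0), (nat_lit 8497076)]) (PF.cons (PF.leaf (nat_lit 7539646) (nat_lit 613724) (nat_lit 38781884) (nat_lit 8371933) [(nat_lit 613724), (nat_lit 1814825), (nat_lit 0), (nat_lit 8456360)]) (PF.cons (PF.leaf (nat_lit 7888377) (nat_lit 622526) (nat_lit 38263304) (nat_lit 8329421) [(nat_lit 622526), (nat_lit 1822527), (nat_lit 0), (nat_lit 8412990)]) (PF.cons (PF.leaf (nat_lit 8243198) (nat_lit 630068) (nat_lit 37741017) (nat_lit 8284477) [(nat_lit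
 630068), (nat_lit 1828686), (nat_lit 0), (nat_lit 8367178)]) (PF.cons PF.nil (PF.cons PF.nil PF.nil))))))) (PF.cons (PF.cons (PF.leaf (nat_lit 7609752) (nat_lit 1812901) (nat_lit 38326801) (nat_lit 8329604) [(nat_lit 0), (nat_lit 1812901), (nat_lit 0), (nat_lit 8413301)]) (PF.cons (PF.leaf (nat_lit 7950229) (nat_lit 620501) (nat_lit 37822834) (nat_lit 8286681) [(nat_lit 620501), (nat_lit 1819858), (nat_lit 0), (nat_lit 8369539)]) (PF.cons (PF.leaf (nat_lit 8297875) (nat_lit 628041) (nat_lit 37313954) (nat_lit 8241347) [(nat_lit 628041), (nat_lit 1825361), (nat_lit 0), (nat_lit 8323352)]) (PF.cons (PF.leaf (nat_lit 8650773) (nat_lit 634455) (nat_lit 36802719) (nat_lit 8193819) [(nat_lit 634455), (nat_lit 1829491), (nat_lit 0), (nat_lit 8274962)]) (PF.cons PF.nil PF.nil))))) (PF.cons (PF.cons (PF.leaf (nat_lit 8354176) (nat_lit 1821658) (nat_lit 36889278) (nat_lit 8197314) [(nat_lit 0), (nat_lit 1821658), (nat_lit 0), (nat_lit 8278622)]) (PF.cons (PF.leaf (nat_lit 8699866)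 (nat_lit 632114) (nat_lit 36391239) (nat_lit 8149597) [(nat_lit 632114), (nat_lit 1825247), (nat_lit 0), (nat_lit 8230059)]) (PF.cons PF.nil (PF.cons PF.nil PF.nil)))) (PF.cons (PF.cons (PF.leaf (nat_lit 9094275)
 (nat_lit 1822597) (nat_lit 35495831) (nat_lit 8054903) [(nat_lit 0), (nat_lit 1822597), (nat_lit 0), (nat_lit 8133845)]) (PF.cons PF.nil PF.nil)) (PF.cons PF.nil PF.nil)))))) (PF.cons (PF.cons (PF.cons (PF.leaf (nat_lit 7343353) (nat_lit 3844791) (nat_lit 38194560) (nat_lit 8300795) [(nat_lit 0), (nat_lit 0), (nat_lit 3844791), (nat_lit 8384332)]) (PF.cons (PF.leaf (nat_lit 7669395) (nat_lit 605373) (nat_lit 37715629) (nat_lit 8260283) [(nat_lit 605373), (nat_lit 0), (nat_lit 3841494), (nat_lit 8343015)]) (PF.cons (PF.leaf (nat_lit 8005041) (nat_lit 614537) (nat_lit 37227905) (nat_lit 8217174) [(nat_lit 614537), (nat_lit 0), (nat_lit 3836490), (nat_lit 8299083)]) (PF.cons (PF.leaf (nat_lit 8347802) (nat_lit 622294) (nat_lit 36734795) (nat_lit 8171721) [(nat_lit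 622294), (nat_lit 0), (nat_lit 3829826), (nat_lit 8252792)]) (PF.cons (PF.leaf (nat_lit 8695973) (nat_lit 628862) (nat_lit 36238904) (nat_lit 8124146) [(nat_lit 628862), (nat_lit 0), (nat_lit 3821571), (nat_lit 8204369)]) PF.nil))))) (PF.cons (PF.cons (PF.leaf (nat_lit 8068209) (nat_lit 1803753) (nat_lit 36799160) (nat_lit 8173025) [(nat_lit 0), (nat_lit 1803753), (nat_lit 3824421), (nat_lit 8254225)]) (PF.cons (PF.leaf
 (nat_lit 8402900) (nat_lit 619767) (nat_lit 36320205) (nat_lit 8127487) [(nat_lit 619767), (nat_lit 1808592), (nat_lit 3817022), (nat_lit 8207869)]) (PF.cons (PF.leaf (nat_lit 8744087) (nat_lit 626388) (nat_lit 35837254) (nat_lit 8079819) [(nat_lit 626388), (nat_lit 1812115), (nat_lit 3808107), (nat_lit 8159370)]) (PF.cons PF.nil PF.nil)))) (PF.cons (PF.cons (PF.leaf (nat_lit 8794001) (nat_lit 1807357) (nat_lit 35437914) (nat_lit 8034768) [(nat_lit 0), (nat_lit 1807357), (nat_lit 3794126), (nat_lit 8113644)]) (PF.cons (PF.leaf (nat_lit 9132849) (nat_lit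 629232) (nat_lit 34965965) (nat_lit 7985262) [(nat_lit 629232), (nat_lit 1809234), (nat_lit 3783252), (nat_lit 8063316)]) PF.nil)) (PF.cons PF.nil (PF.cons PF.nil PF.nil))))) (PF.cons (PF.cons (PF.cons (PF.leaf (nat_lit 8506958) (nat_lit 3775958) (nat_lit 35361619) (nat_lit 8012570) [(nat_lit 0), (nat_lit 0), (nat_lit 3775958), (nat_lit 8091352)]) (PF.cons (PF.leaf (nat_lit 8835621) (nat_lit 617568) (nat_lit 34907048) (nat_lit 7965231) [(nat_lit 617568), (nat_lit 0), (nat_lit 3766264), (nat_lit 8043217)]) (PF.cons (PF.leaf (nat_lit 9170224) (nat_lit 623393) (nat_lit 34449203) (nat_lit 7916007) [(nat_lit 623393), (nat_lit 0),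
 (nat_lit 3755220), (nat_lit 7993186)]) (PF.cons PF.nil PF.nil)))) (PF.cons (PF.cons (PF.leaf (nat_lit 9214337) (nat_lit 1790146) (nat_lit 34073826) (nat_lit 7870511) [(nat_lit 0), (nat_lit 1790146), (nat_lit 3740124), (nat_lit 7947040)]) (PF.cons PF.nil PF.nil)) (PF.cons PF.nil PF.nil))) (PF.cons (PF.cons (PF.cons (PF.leaf (nat_lit 9616463) (nat_lit 3683321) (nat_lit 32791789) (nat_lit 7706173) [(nat_lit 0), (nat_lit 0), (nat_lit 3683321), (nat_lit 7780443)]) (PF.cons PF.nil PF.nil)) (PF.cons PF.nil PF.nil)) (PF.cons PF.nil PF.nil))))) (PF.cons (PF.cons (PF.cons (PF.cons (PF.leaf (nat_lit 7920527) (nat_lit 7932294) (nat_lit 35144202) (nat_lit 7932294) [(nat_lit 0), (nat_lit 0), (nat_lit 0), (nat_lit 8010772)]) (PF.cons (PF.leaf (nat_lit 8232495) (nat_lit 590490) (nat_lit 34723714) (nat_lit 7890356) [(nat_lit 590490), (nat_lit 0), (nat_lit 0), (nat_lit 7968083)]) (PF.cons (PF.leaf (nat_lit 8553279) (nat_lit 598676) (nat_lit 34295707) (nat_lit 7846217) [(nat_lit 598676),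 (nat_lit 0), (nat_lit 0), (nat_lit 7923178)]) (PF.cons (PF.leaf (nat_lit 8880523) (nat_lit 605521) (nat_lit 33863120) (nat_lit 7800143) [(nat_lit 605521), (nat_lit 0), (nat_lit 0), (nat_lit 7876327)]) (PF.cons
 PF.nil PF.nil))))) (PF.cons (PF.cons (PF.leaf (nat_lit 8607866) (nat_lit 1748668) (nat_lit 33921941) (nat_lit 7802319) [(nat_lit 0), (nat_lit 1748668), (nat_lit 0), (nat_lit 7878627)]) (PF.cons (PF.leaf (nat_lit 8927465) (nat_lit 602644) (nat_lit 33501721) (nat_lit 7756499) [(nat_lit 602644), (nat_lit 1751799), (nat_lit 0), (nat_lit 7832049)]) (PF.cons (PF.leaf (nat_lit 9253024) (nat_lit 608469) (nat_lit 33078056) (nat_lit 7708929) [(nat_lit 608469), (nat_lit 1753755), (nat_lit 0), (nat_lit 7783711)]) (PF.cons PF.nil PF.nil)))) (PF.cons (PF.cons (PF.leaf (nat_lit 9295409) (nat_lit 1748289) (nat_lit 32729781) (nat_lit 7664991) [(nat_lit 0), (nat_lit 1748289), (nat_lit 0), (nat_lit 7739153)]) (PF.cons PF.nil PF.nil)) (PF.cons PF.nil (PF.cons PF.nil PF.nil))))) (PF.cons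 (PF.cons (PF.cons (PF.leaf (nat_lit 9014651) (nat_lit 3634763) (nat_lit 32669336) (nat_lit 7645611) [(nat_lit 0), (nat_lit 0), (nat_lit 3634763), (nat_lit 7719700)]) (PF.cons (PF.leaf (nat_lit 9328593) (nat_lit 599398) (nat_lit 32270070) (nat_lit 7598913) [(nat_lit 599398), (nat_lit 0), (nat_lit 3623629), (nat_lit 7672267)]) (PF.cons (PF.leaf (nat_lit 9648032) (nat_lit 604556) (nat_lit 31867905) (nat_lit 7550654)
 [(nat_lit 604556), (nat_lit 0), (nat_lit 3611347), (nat_lit 7623264)]) (PF.cons PF.nil PF.nil)))) (PF.cons (PF.cons (PF.leaf (nat_lit 9685539) (nat_lit 1729425) (nat_lit 31539937) (nat_lit 7506868) [(nat_lit 0), (nat_lit 1729425), (nat_lit 3595931), (nat_lit 7578883)]) (PF.cons PF.nil PF.nil)) (PF.cons PF.nil PF.nil))) (PF.cons (PF.cons (PF.cons (PF.leaf (nat_lit 10059979) (nat_lit 3539268) (nat_lit 30419285) (nat_lit 7350282) [(nat_lit 0), (nat_lit 0), (nat_lit 3539268), (nat_lit 7420235)]) (PF.cons PF.nil PF.nil)) (PF.cons PF.nil PF.nil)) PF.nil))) (PF.cons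 (PF.cons (PF.cons (PF.cons (PF.leaf (nat_lit 9477925) (nat_lit 7299826) (nat_lit 30330368) (nat_lit 7299826) [(nat_lit 0), (nat_lit 0), (nat_lit 0), (nat_lit 7369654)]) (PF.cons (PF.leaf (nat_lit 9778541) (nat_lit 581189) (nat_lit 29977728) (nat_lit 7254656) [(nat_lit 581189), (nat_lit 0), (nat_lit 0), (nat_lit 7323809)]) (PF.cons PF.nil PF.nil))) (PF.cons (PF.cons (PF.leaf (nat_lit 10116587) (nat_lit 1670093) (nat_lit 29334149) (nat_lit 7166572) [(nat_lit 0), (nat_lit 1670093), (nat_lit 0), (nat_lit 7234499)]) PF.nil) PF.nil)) (PF.cons PF.nil PF.nil)) (PF.cons PF.nil (PF.cons PF.nil (PF.cons PF.nil (PF.cons PF.nil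
 PF.nil)))))))))

def p12_16_1_0 : pfC (piC [(nat_lit 35755509), (nat_lit 23968959), (nat_lit 17897616), (nat_lit 12073119)] (nat_lit 11208580)) p12_16_1 (nat_lit 4) (nat_lit 0) (nat_lit 1) = true := by decide +kernel
def p12_16_1_1 : pfC (piC [(nat_lit 35755509), (nat_lit 23968959), (nat_lit 17897616), (nat_lit 12073119)] (nat_lit 11208580)) p12_16_1 (nat_lit 4) (nat_lit 1) (nat_lit 2) = true := by decide +kernel
def p12_16_1_2 : pfC (piC [(nat_lit 35755509), (nat_lit 23968959), (nat_lit 17897616), (nat_lit 12073119)] (nat_lit 11208580)) p12_16_1 (nat_lit 4) (nat_lit 2) (nat_lit 3) = true := by decide +kernel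
def p12_16_1_3 : pfC (piC [(nat_lit 35755509), (nat_lit 23968959), (nat_lit 17897616), (nat_lit 12073119)] (nat_lit 11208580)) p12_16_1 (nat_lit 4) (nat_lit 3) (nat_lit 4) = true := by decide +kernel
def p12_16_1_4 : pfC (piC [(nat_lit 35755509), (nat_lit 23968959), (nat_lit 17897616), (nat_lit 12073119)] (nat_lit 11208580)) p12_16_1 (nat_lit 4) (nat_lit 4) (nat_lit 5) = true := by decide +kernel
def p12_16_1_5 : pfC (piC [(nat_lit 35755509), (nat_lit 23968959), (nat_lit 17897616), (nat_lit 12073119)] (nat_lit 11208580)) p12_16_1 (nat_lit 4) (nat_lit 5) (nat_lit 6) = true := by decide +kernel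
def p12_16_1_6 : pfC (piC [(nat_lit 35755509), (nat_lit 23968959), (nat_lit 17897616), (nat_lit 12073119)] (nat_lit 11208580)) p12_16_1 (nat_lit 4) (nat_lit 6) (nat_lit 7) = true := by decide +kernel
def p12_16_1_7 : pfC (piC [(nat_lit 35755509), (nat_lit 23968959), (nat_lit 17897616), (nat_lit 12073119)] (nat_lit 11208580)) p12_16_1 (nat_lit 4) (nat_lit 7) (nat_lit 8) = true := by decide +kernel
def p12_16_1_8 : pfC (piC [(nat_lit 35755509), (nat_lit 23968959), (nat_lit 17897616), (nat_lit 12073119)] (nat_lit 11208580)) p12_16_1 (nat_lit 4) (nat_lit 8) (nat_lit 9) = true := by decide +kernel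
def p12_16_1_9 : pfC (piC [(nat_lit 35755509), (nat_lit 23968959), (nat_lit 17897616), (nat_lit 12073119)] (nat_lit 11208580)) p12_16_1 (nat_lit 4) (nat_lit 9) (nat_lit 10) = true := by decide +kernel
def p12_16_1_10 : pfC (piC [(nat_lit 35755509), (nat_lit 23968959), (nat_lit 17897616), (nat_lit 12073119)] (nat_lit 11208580)) p12_16_1 (nat_lit 4) (nat_lit 10) (nat_lit 11) = true := by decide +kernel
def p12_16_1_11 : pfC (piC [(nat_lit 35755509), (nat_lit 23968959), (nat_lit 17897616), (nat_lit 12073119)] (nat_lit 11208580)) p12_16_1 (nat_lit 4) (nat_lit 11) (nat_lit 12) = true := by decide +kernel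
def p12_16_1_12 : pfC (piC [(nat_lit 35755509), (nat_lit 23968959), (nat_lit 17897616), (nat_lit 12073119)] (nat_lit 11208580)) p12_16_1 (nat_lit 4) (nat_lit 12) (nat_lit 13) = true := by decide +kernel
def p12_16_1_13 : pfC (piC [(nat_lit 35755509), (nat_lit 23968959), (nat_lit 17897616), (nat_lit 12073119)] (nat_lit 11208580)) p12_16_1 (nat_lit 4) (nat_lit 13) (nat_lit 14) = true := by decide +kernel
def p12_16_1_14 : pfC (piC [(nat_lit 35755509), (nat_lit 23968959), (nat_lit 17897616), (nat_lit 12073119)] (nat_lit 11208580)) p12_16_1 (nat_lit 4) (nat_lit 14) (nat_lit 15) = true := by decide +kernel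
def p12_16_1_15 : pfC (piC [(nat_lit 35755509), (nat_lit 23968959), (nat_lit 17897616), (nat_lit 12073119)] (nat_lit 11208580)) p12_16_1 (nat_lit 4) (nat_lit 15) (nat_lit 16) = true := by decide +kernel
def p12_16_1_16 : pfC (piC [(nat_lit 35755509), (nat_lit 23968959), (nat_lit 17897616), (nat_lit 12073119)] (nat_lit 11208580)) p12_16_1 (nat_lit 4) (nat_lit 16) (nat_lit 17) = true := by decide +kernel
def p12_16_1_17 : pfC (piC [(nat_lit 35755509), (nat_lit 23968959), (nat_lit 17897616), (nat_lit 12073119)] (nat_lit 11208580)) p12_16_1 (nat_lit 4) (nat_lit 17) (nat_lit 18) = true := by decide +kernel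
def p12_16_1_18 : pfC (piC [(nat_lit 35755509), (nat_lit 23968959), (nat_lit 17897616), (nat_lit 12073119)] (nat_lit 11208580)) p12_16_1 (nat_lit 4) (nat_lit 18) (nat_lit 19) = true := by decide +kernel
def p12_16_1_19 : pfC (piC [(nat_lit 35755509), (nat_lit 23968959), (nat_lit 17897616), (nat_lit 12073119)] (nat_lit 11208580)) p12_16_1 (nat_lit 4) (nat_lit 19) (nat_lit 20) = true := by decide +kernel
def p12_16_1_20 : pfC (piC [(nat_lit 35755509), (nat_lit 23968959), (nat_lit 17897616), (nat_lit 12073119)] (nat_lit 11208580)) p12_16_1 (nat_lit 4) (nat_lit 20) (nat_lit 21) = true := by decide +kernel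
def p12_16_1_21 : pfC (piC [(nat_lit 35755509), (nat_lit 23968959), (nat_lit 17897616), (nat_lit 12073119)] (nat_lit 11208580)) p12_16_1 (nat_lit 4) (nat_lit 21) (nat_lit 22) = true := by decide +kernel
def p12_16_1_22 : pfC (piC [(nat_lit 35755509), (nat_lit 23968959), (nat_lit 17897616), (nat_lit 12073119)] (nat_lit 11208580)) p12_16_1 (nat_lit 4) (nat_lit 22) (nat_lit 23) = true := by decide +kernel
def p12_16_1_23 : pfC (piC [(nat_lit 35755509), (nat_lit 23968959), (nat_lit 17897616), (nat_lit 12073119)] (nat_lit 11208580)) p12_16_1 (nat_lit 4) (nat_lit 23) (nat_lit 24) = true := by decide +kernel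
def p12_16_1_24 : pfC (piC [(nat_lit 35755509), (nat_lit 23968959), (nat_lit 17897616), (nat_lit 12073119)] (nat_lit 11208580)) p12_16_1 (nat_lit 4) (nat_lit 24) (nat_lit 25) = true := by decide +kernel
def p12_16_1_25 : pfC (piC [(nat_lit 35755509), (nat_lit 23968959), (nat_lit 17897616), (nat_lit 12073119)] (nat_lit 11208580)) p12_16_1 (nat_lit 4) (nat_lit 25) (nat_lit 26) = true := by decide +kernel
def p12_16_1_26 : pfC (piC [(nat_lit 35755509), (nat_lit 23968959), (nat_lit 17897616), (nat_lit 12073119)] (nat_lit 11208580)) p12_16_1 (nat_lit 4) (nat_lit 26) (nat_lit 27) = true := by decide +kernel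
def p12_16_1_27 : pfC (piC [(nat_lit 35755509), (nat_lit 23968959), (nat_lit 17897616), (nat_lit 12073119)] (nat_lit 11208580)) p12_16_1 (nat_lit 4) (nat_lit 27) (nat_lit 28) = true := by decide +kernel
def p12_16_1_28 : pfC (piC [(nat_lit 35755509), (nat_lit 23968959), (nat_lit 17897616), (nat_lit 12073119)] (nat_lit 11208580)) p12_16_1 (nat_lit 4) (nat_lit 28) (nat_lit 29) = true := by decide +kernel
def p12_16_1_29 : pfC (piC [(nat_lit 35755509), (nat_lit 23968959), (nat_lit 17897616), (nat_lit 12073119)] (nat_lit 11208580)) p12_16_1 (nat_lit 4) (nat_lit 29) (nat_lit 30) = true := by decide +kernel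
def p12_16_1_30 : pfC (piC [(nat_lit 35755509), (nat_lit 23968959), (nat_lit 17897616), (nat_lit 12073119)] (nat_lit 11208580)) p12_16_1 (nat_lit 4) (nat_lit 30) (nat_lit 31) = true := by decide +kernel
def p12_16_1_31 : pfC (piC [(nat_lit 35755509), (nat_lit 23968959), (nat_lit 17897616), (nat_lit 12073119)] (nat_lit 11208580)) p12_16_1 (nat_lit 4) (nat_lit 31) (nat_lit 32) = true := by decide +kernel
def p12_16_1_32 : pfC (piC [(nat_lit 35755509), (nat_lit 23968959), (nat_lit 17897616), (nat_lit 12073119)] (nat_lit 11208580)) p12_16_1 (nat_lit 4) (nat_lit 32) (nat_lit 33) = true := by decide +kernel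
def p12_16_1_33 : pfC (piC [(nat_lit 35755509), (nat_lit 23968959), (nat_lit 17897616), (nat_lit 12073119)] (nat_lit 11208580)) p12_16_1 (nat_lit 4) (nat_lit 33) (nat_lit 34) = true := by decide +kernel
def p12_16_1_34 : pfC (piC [(nat_lit 35755509), (nat_lit 23968959), (nat_lit 17897616), (nat_lit 12073119)] (nat_lit 11208580)) p12_16_1 (nat_lit 4) (nat_lit 34) (nat_lit 35) = true := by decide +kernel
def p12_16_1_35 : pfC (piC [(nat_lit 35755509), (nat_lit 23968959), (nat_lit 17897616), (nat_lit 12073119)] (nat_lit 11208580)) p12_16_1 (nat_lit 4) (nat_lit 35) (nat_lit 36) = true := by decide +kernel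
def p12_16_1_36 : pfC (piC [(nat_lit 35755509), (nat_lit 23968959), (nat_lit 17897616), (nat_lit 12073119)] (nat_lit 11208580)) p12_16_1 (nat_lit 4) (nat_lit 36) (nat_lit 37) = true := by decide +kernel
def p12_16_1_37 : pfC (piC [(nat_lit 35755509), (nat_lit 23968959), (nat_lit 17897616), (nat_lit 12073119)] (nat_lit 11208580)) p12_16_1 (nat_lit 4) (nat_lit 37) (nat_lit 38) = true := by decide +kernel
def p12_16_1_38 : pfC (piC [(nat_lit 35755509), (nat_lit 23968959), (nat_lit 17897616), (nat_lit 12073119)] (nat_lit 11208580)) p12_16_1 (nat_lit 4) (nat_lit 38) (nat_lit 39) = true := by decide +kernel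
def p12_16_1_39 : pfC (piC [(nat_lit 35755509), (nat_lit 23968959), (nat_lit 17897616), (nat_lit 12073119)] (nat_lit 11208580)) p12_16_1 (nat_lit 4) (nat_lit 39) (nat_lit 40) = true := by decide +kernel
def p12_16_1_40 : pfC (piC [(nat_lit 35755509), (nat_lit 23968959), (nat_lit 17897616), (nat_lit 12073119)] (nat_lit 11208580)) p12_16_1 (nat_lit 4) (nat_lit 40) (nat_lit 41) = true := by decide +kernel
def p12_16_1_41 : pfC (piC [(nat_lit 35755509), (nat_lit 23968959), (nat_lit 17897616), (nat_lit 12073119)] (nat_lit 11208580)) p12_16_1 (nat_lit 4) (nat_lit 41) (nat_lit 42) = true := by decide +kernel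
def p12_16_1_42 : pfC (piC [(nat_lit 35755509), (nat_lit 23968959), (nat_lit 17897616), (nat_lit 12073119)] (nat_lit 11208580)) p12_16_1 (nat_lit 4) (nat_lit 42) (nat_lit 43) = true := by decide +kernel
def p12_16_1_43 : pfC (piC [(nat_lit 35755509), (nat_lit 23968959), (nat_lit 17897616), (nat_lit 12073119)] (nat_lit 11208580)) p12_16_1 (nat_lit 4) (nat_lit 43) (nat_lit 44) = true := by decide +kernel
def p12_16_1_44 : pfC (piC [(nat_lit 35755509), (nat_lit 23968959), (nat_lit 17897616), (nat_lit 12073119)] (nat_lit 11208580)) p12_16_1 (nat_lit 4) (nat_lit 44) (nat_lit 45) = true := by decide +kernel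
def p12_16_1_45 : pfC (piC [(nat_lit 35755509), (nat_lit 23968959), (nat_lit 17897616), (nat_lit 12073119)] (nat_lit 11208580)) p12_16_1 (nat_lit 4) (nat_lit 45) (nat_lit 46) = true := by decide +kernel
def p12_16_1_46 : pfC (piC [(nat_lit 35755509), (nat_lit 23968959), (nat_lit 17897616), (nat_lit 12073119)] (nat_lit 11208580)) p12_16_1 (nat_lit 4) (nat_lit 46) (nat_lit 47) = true := by decide +kernel
def p12_16_1_47 : pfC (piC [(nat_lit 35755509), (nat_lit 23968959), (nat_lit 17897616), (nat_lit 12073119)] (nat_lit 11208580)) p12_16_1 (nat_lit 4) (nat_lit 47) (nat_lit 48) = true := by decide +kernel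
def p12_16_1_48 : pfC (piC [(nat_lit 35755509), (nat_lit 23968959), (nat_lit 17897616), (nat_lit 12073119)] (nat_lit 11208580)) p12_16_1 (nat_lit 4) (nat_lit 48) (nat_lit 49) = true := by decide +kernel
def p12_16_1_49 : pfC (piC [(nat_lit 35755509), (nat_lit 23968959), (nat_lit 17897616), (nat_lit 12073119)] (nat_lit 11208580)) p12_16_1 (nat_lit 4) (nat_lit 49) (nat_lit 50) = true := by decide +kernel
def p12_16_1_50 : pfC (piC [(nat_lit 35755509), (nat_lit 23968959), (nat_lit 17897616), (nat_lit 12073119)] (nat_lit 11208580)) p12_16_1 (nat_lit 4) (nat_lit 50) (nat_lit 51) = true := by decide +kernel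
def p12_16_1_51 : pfC (piC [(nat_lit 35755509), (nat_lit 23968959), (nat_lit 17897616), (nat_lit 12073119)] (nat_lit 11208580)) p12_16_1 (nat_lit 4) (nat_lit 51) (nat_lit 52) = true := by decide +kernel
def p12_16_1_52 : pfC (piC [(nat_lit 35755509), (nat_lit 23968959), (nat_lit 17897616), (nat_lit 12073119)] (nat_lit 11208580)) p12_16_1 (nat_lit 4) (nat_lit 52) (nat_lit 53) = true := by decide +kernel
def p12_16_1_53 : pfC (piC [(nat_lit 35755509), (nat_lit 23968959), (nat_lit 17897616), (nat_lit 12073119)] (nat_lit 11208580)) p12_16_1 (nat_lit 4) (nat_lit 53) (nat_lit 54) = true := by decide +kernel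
def p12_16_1_54 : pfC (piC [(nat_lit 35755509), (nat_lit 23968959), (nat_lit 17897616), (nat_lit 12073119)] (nat_lit 11208580)) p12_16_1 (nat_lit 4) (nat_lit 54) (nat_lit 55) = true := by decide +kernel
def p12_16_1_55 : pfC (piC [(nat_lit 35755509), (nat_lit 23968959), (nat_lit 17897616), (nat_lit 12073119)] (nat_lit 11208580)) p12_16_1 (nat_lit 4) (nat_lit 55) (nat_lit 56) = true := by decide +kernel
def p12_16_1_56 : pfC (piC [(nat_lit 35755509), (nat_lit 23968959), (nat_lit 17897616), (nat_lit 12073119)] (nat_lit 11208580)) p12_16_1 (nat_lit 4) (nat_lit 56) (nat_lit 57) = true := by decide +kernel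
def p12_16_1_57 : pfC (piC [(nat_lit 35755509), (nat_lit 23968959), (nat_lit 17897616), (nat_lit 12073119)] (nat_lit 11208580)) p12_16_1 (nat_lit 4) (nat_lit 57) (nat_lit 58) = true := by decide +kernel
def p12_16_1_58 : pfC (piC [(nat_lit 35755509), (nat_lit 23968959), (nat_lit 17897616), (nat_lit 12073119)] (nat_lit 11208580)) p12_16_1 (nat_lit 4) (nat_lit 58) (nat_lit 59) = true := by decide +kernel
def p12_16_1_59 : pfC (piC [(nat_lit 35755509), (nat_lit 23968959), (nat_lit 17897616), (nat_lit 12073119)] (nat_lit 11208580)) p12_16_1 (nat_lit 4) (nat_lit 59) (nat_lit 60) = true := by decide +kernel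
def p12_16_1_60 : pfC (piC [(nat_lit 35755509), (nat_lit 23968959), (nat_lit 17897616), (nat_lit 12073119)] (nat_lit 11208580)) p12_16_1 (nat_lit 4) (nat_lit 60) (nat_lit 61) = true := by decide +kernel
def p12_16_1_61 : pfC (piC [(nat_lit 35755509), (nat_lit 23968959), (nat_lit 17897616), (nat_lit 12073119)] (nat_lit 11208580)) p12_16_1 (nat_lit 4) (nat_lit 61) (nat_lit 62) = true := by decide +kernel
def p12_16_1_62 : pfC (piC [(nat_lit 35755509), (nat_lit 23968959), (nat_lit 17897616), (nat_lit 12073119)] (nat_lit 11208580)) p12_16_1 (nat_lit 4) (nat_lit 62) (nat_lit 63) = true := by decide +kernel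
def p12_16_1_63 : pfC (piC [(nat_lit 35755509), (nat_lit 23968959), (nat_lit 17897616), (nat_lit 12073119)] (nat_lit 11208580)) p12_16_1 (nat_lit 4) (nat_lit 63) (nat_lit 64) = true := by decide +kernel
def p12_16_1_64 : pfC (piC [(nat_lit 35755509), (nat_lit 23968959), (nat_lit 17897616), (nat_lit 12073119)] (nat_lit 11208580)) p12_16_1 (nat_lit 4) (nat_lit 64) (nat_lit 65) = true := by decide +kernel
def p12_16_1_65 : pfC (piC [(nat_lit 35755509), (nat_lit 23968959), (nat_lit 17897616), (nat_lit 12073119)] (nat_lit 11208580)) p12_16_1 (nat_lit 4) (nat_lit 65) (nat_lit 66) = true := by decide +kernel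
def p12_16_1_66 : pfC (piC [(nat_lit 35755509), (nat_lit 23968959), (nat_lit 17897616), (nat_lit 12073119)] (nat_lit 11208580)) p12_16_1 (nat_lit 4) (nat_lit 66) (nat_lit 67) = true := by decide +kernel
def p12_16_1_67 : pfC (piC [(nat_lit 35755509), (nat_lit 23968959), (nat_lit 17897616), (nat_lit 12073119)] (nat_lit 11208580)) p12_16_1 (nat_lit 4) (nat_lit 67) (nat_lit 68) = true := by decide +kernel
def p12_16_1_68 : pfC (piC [(nat_lit 35755509), (nat_lit 23968959), (nat_lit 17897616), (nat_lit 12073119)] (nat_lit 11208580)) p12_16_1 (nat_lit 4) (nat_lit 68) (nat_lit 69) = true := by decide +kernel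
def p12_16_1_69 : pfC (piC [(nat_lit 35755509), (nat_lit 23968959), (nat_lit 17897616), (nat_lit 12073119)] (nat_lit 11208580)) p12_16_1 (nat_lit 4) (nat_lit 69) (nat_lit 70) = true := by decide +kernel
def p12_16_1_70 : pfC (piC [(nat_lit 35755509), (nat_lit 23968959), (nat_lit 17897616), (nat_lit 12073119)] (nat_lit 11208580)) p12_16_1 (nat_lit 4) (nat_lit 70) (nat_lit 71) = true := by decide +kernel
def p12_16_1_71 : pfC (piC [(nat_lit 35755509), (nat_lit 23968959), (nat_lit 17897616), (nat_lit 12073119)] (nat_lit 11208580)) p12_16_1 (nat_lit 4) (nat_lit 71) (nat_lit 72) = true := by decide +kernel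
def p12_16_1_72 : pfC (piC [(nat_lit 35755509), (nat_lit 23968959), (nat_lit 17897616), (nat_lit 12073119)] (nat_lit 11208580)) p12_16_1 (nat_lit 4) (nat_lit 72) (nat_lit 73) = true := by decide +kernel
def p12_16_1_73 : pfC (piC [(nat_lit 35755509), (nat_lit 23968959), (nat_lit 17897616), (nat_lit 12073119)] (nat_lit 11208580)) p12_16_1 (nat_lit 4) (nat_lit 73) (nat_lit 74) = true := by decide +kernel
def p12_16_1_74 : pfC (piC [(nat_lit 35755509), (nat_lit 23968959), (nat_lit 17897616), (nat_lit 12073119)] (nat_lit 11208580)) p12_16_1 (nat_lit 4) (nat_lit 74) (nat_lit 75) = true := by decide +kernel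
def p12_16_1_75 : pfC (piC [(nat_lit 35755509), (nat_lit 23968959), (nat_lit 17897616), (nat_lit 12073119)] (nat_lit 11208580)) p12_16_1 (nat_lit 4) (nat_lit 75) (nat_lit 76) = true := by decide +kernel
def p12_16_1_76 : pfC (piC [(nat_lit 35755509), (nat_lit 23968959), (nat_lit 17897616), (nat_lit 12073119)] (nat_lit 11208580)) p12_16_1 (nat_lit 4) (nat_lit 76) (nat_lit 77) = true := by decide +kernel
def p12_16_1_77 : pfC (piC [(nat_lit 35755509), (nat_lit 23968959), (nat_lit 17897616), (nat_lit 12073119)] (nat_lit 11208580)) p12_16_1 (nat_lit 4) (nat_lit 77) (nat_lit 78) = true := by decide +kernel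
def p12_16_1_78 : pfC (piC [(nat_lit 35755509), (nat_lit 23968959), (nat_lit 17897616), (nat_lit 12073119)] (nat_lit 11208580)) p12_16_1 (nat_lit 4) (nat_lit 78) (nat_lit 79) = true := by decide +kernel
def p12_16_1_79 : pfC (piC [(nat_lit 35755509), (nat_lit 23968959), (nat_lit 17897616), (nat_lit 12073119)] (nat_lit 11208580)) p12_16_1 (nat_lit 4) (nat_lit 79) (nat_lit 80) = true := by decide +kernel
def p12_16_1_80 : pfC (piC [(nat_lit 35755509), (nat_lit 23968959), (nat_lit 17897616), (nat_lit 12073119)] (nat_lit 11208580)) p12_16_1 (nat_lit 4) (nat_lit 80) (nat_lit 81) = true := by decide +kernel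
def p12_16_1_81 : pfC (piC [(nat_lit 35755509), (nat_lit 23968959), (nat_lit 17897616), (nat_lit 12073119)] (nat_lit 11208580)) p12_16_1 (nat_lit 4) (nat_lit 81) (nat_lit 82) = true := by decide +kernel
def p12_16_1_82 : pfC (piC [(nat_lit 35755509), (nat_lit 23968959), (nat_lit 17897616), (nat_lit 12073119)] (nat_lit 11208580)) p12_16_1 (nat_lit 4) (nat_lit 82) (nat_lit 83) = true := by decide +kernel
def p12_16_1_83 : pfC (piC [(nat_lit 35755509), (nat_lit 23968959), (nat_lit 17897616), (nat_lit 12073119)] (nat_lit 11208580)) p12_16_1 (nat_lit 4) (nat_lit 83) (nat_lit 84) = true := by decide +kernel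
def p12_16_1_84 : pfC (piC [(nat_lit 35755509), (nat_lit 23968959), (nat_lit 17897616), (nat_lit 12073119)] (nat_lit 11208580)) p12_16_1 (nat_lit 4) (nat_lit 84) (nat_lit 85) = true := by decide +kernel
def p12_16_1_85 : pfC (piC [(nat_lit 35755509), (nat_lit 23968959), (nat_lit 17897616), (nat_lit 12073119)] (nat_lit 11208580)) p12_16_1 (nat_lit 4) (nat_lit 85) (nat_lit 86) = true := by decide +kernel
def p12_16_1_86 : pfC (piC [(nat_lit 35755509), (nat_lit 23968959), (nat_lit 17897616), (nat_lit 12073119)] (nat_lit 11208580)) p12_16_1 (nat_lit 4) (nat_lit 86) (nat_lit 87) = true := by decide +kernel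
def p12_16_1_87 : pfC (piC [(nat_lit 35755509), (nat_lit 23968959), (nat_lit 17897616), (nat_lit 12073119)] (nat_lit 11208580)) p12_16_1 (nat_lit 4) (nat_lit 87) (nat_lit 88) = true := by decide +kernel
def p12_16_1_88 : pfC (piC [(nat_lit 35755509), (nat_lit 23968959), (nat_lit 17897616), (nat_lit 12073119)] (nat_lit 11208580)) p12_16_1 (nat_lit 4) (nat_lit 88) (nat_lit 89) = true := by decide +kernel
def p12_16_1_89 : pfC (piC [(nat_lit 35755509), (nat_lit 23968959), (nat_lit 17897616), (nat_lit 12073119)] (nat_lit 11208580)) p12_16_1 (nat_lit 4) (nat_lit 89) (nat_lit 90) = true := by decide +kernel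
def p12_16_1_90 : pfC (piC [(nat_lit 35755509), (nat_lit 23968959), (nat_lit 17897616), (nat_lit 12073119)] (nat_lit 11208580)) p12_16_1 (nat_lit 4) (nat_lit 90) (nat_lit 91) = true := by decide +kernel
def p12_16_1_91 : pfC (piC [(nat_lit 35755509), (nat_lit 23968959), (nat_lit 17897616), (nat_lit 12073119)] (nat_lit 11208580)) p12_16_1 (nat_lit 4) (nat_lit 91) (nat_lit 92) = true := by decide +kernel
def p12_16_1_92 : pfC (piC [(nat_lit 35755509), (nat_lit 23968959), (nat_lit 17897616), (nat_lit 12073119)] (nat_lit 11208580)) p12_16_1 (nat_lit 4) (nat_lit 92) (nat_lit 93) = true := by decide +kernel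
def p12_16_1_93 : pfC (piC [(nat_lit 35755509), (nat_lit 23968959), (nat_lit 17897616), (nat_lit 12073119)] (nat_lit 11208580)) p12_16_1 (nat_lit 4) (nat_lit 93) (nat_lit 94) = true := by decide +kernel
def p12_16_1_94 : pfC (piC [(nat_lit 35755509), (nat_lit 23968959), (nat_lit 17897616), (nat_lit 12073119)] (nat_lit 11208580)) p12_16_1 (nat_lit 4) (nat_lit 94) (nat_lit 95) = true := by decide +kernel
def p12_16_1_95 : pfC (piC [(nat_lit 35755509), (nat_lit 23968959), (nat_lit 17897616), (nat_lit 12073119)] (nat_lit 11208580)) p12_16_1 (nat_lit 4) (nat_lit 95) (nat_lit 96) = true := by decide +kernel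
def p12_16_1_96 : pfC (piC [(nat_lit 35755509), (nat_lit 23968959), (nat_lit 17897616), (nat_lit 12073119)] (nat_lit 11208580)) p12_16_1 (nat_lit 4) (nat_lit 96) (nat_lit 97) = true := by decide +kernel
def p12_16_1_97 : pfC (piC [(nat_lit 35755509), (nat_lit 23968959), (nat_lit 17897616), (nat_lit 12073119)] (nat_lit 11208580)) p12_16_1 (nat_lit 4) (nat_lit 97) (nat_lit 98) = true := by decide +kernel
def p12_16_1_98 : pfC (piC [(nat_lit 35755509), (nat_lit 23968959), (nat_lit 17897616), (nat_lit 12073119)] (nat_lit 11208580)) p12_16_1 (nat_lit 4) (nat_lit 98) (nat_lit 99) = true := by decide +kernel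
def p12_16_1_99 : pfC (piC [(nat_lit 35755509), (nat_lit 23968959), (nat_lit 17897616), (nat_lit 12073119)] (nat_lit 11208580)) p12_16_1 (nat_lit 4) (nat_lit 99) (nat_lit 100) = true := by decide +kernel
def p12_16_1_100 : pfC (piC [(nat_lit 35755509), (nat_lit 23968959), (nat_lit 17897616), (nat_lit 12073119)] (nat_lit 11208580)) p12_16_1 (nat_lit 4) (nat_lit 100) (nat_lit 101) = true := by decide +kernel
def p12_16_1_101 : pfC (piC [(nat_lit 35755509), (nat_lit 23968959), (nat_lit 17897616), (nat_lit 12073119)] (nat_lit 11208580)) p12_16_1 (nat_lit 4) (nat_lit 101) (nat_lit 102) = true := by decide +kernel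
def p12_16_1_102 : pfC (piC [(nat_lit 35755509), (nat_lit 23968959), (nat_lit 17897616), (nat_lit 12073119)] (nat_lit 11208580)) p12_16_1 (nat_lit 4) (nat_lit 102) (nat_lit 103) = true := by decide +kernel
def p12_16_1_103 : pfC (piC [(nat_lit 35755509), (nat_lit 23968959), (nat_lit 17897616), (nat_lit 12073119)] (nat_lit 11208580)) p12_16_1 (nat_lit 4) (nat_lit 103) (nat_lit 104) = true := by decide +kernel
def p12_16_1_104 : pfC (piC [(nat_lit 35755509), (nat_lit 23968959), (nat_lit 17897616), (nat_lit 12073119)] (nat_lit 11208580)) p12_16_1 (nat_lit 4) (nat_lit 104) (nat_lit 105) = true := by decide +kernel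
def p12_16_1_105 : pfC (piC [(nat_lit 35755509), (nat_lit 23968959), (nat_lit 17897616), (nat_lit 12073119)] (nat_lit 11208580)) p12_16_1 (nat_lit 4) (nat_lit 105) (nat_lit 106) = true := by decide +kernel
def p12_16_1_106 : pfC (piC [(nat_lit 35755509), (nat_lit 23968959), (nat_lit 17897616), (nat_lit 12073119)] (nat_lit 11208580)) p12_16_1 (nat_lit 4) (nat_lit 106) (nat_lit 107) = true := by decide +kernel
def p12_16_1_107 : pfC (piC [(nat_lit 35755509), (nat_lit 23968959), (nat_lit 17897616), (nat_lit 12073119)] (nat_lit 11208580)) p12_16_1 (nat_lit 4) (nat_lit 107) (nat_lit 108) = true := by decide +kernel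
def p12_16_1_108 : pfC (piC [(nat_lit 35755509), (nat_lit 23968959), (nat_lit 17897616), (nat_lit 12073119)] (nat_lit 11208580)) p12_16_1 (nat_lit 4) (nat_lit 108) (nat_lit 109) = true := by decide +kernel
def p12_16_1_109 : pfC (piC [(nat_lit 35755509), (nat_lit 23968959), (nat_lit 17897616), (nat_lit 12073119)] (nat_lit 11208580)) p12_16_1 (nat_lit 4) (nat_lit 109) (nat_lit 110) = true := by decide +kernel
def p12_16_1_110 : pfC (piC [(nat_lit 35755509), (nat_lit 23968959), (nat_lit 17897616), (nat_lit 12073119)] (nat_lit 11208580)) p12_16_1 (nat_lit 4) (nat_lit 110) (nat_lit 111) = true := by decide +kernel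
def p12_16_1_111 : pfC (piC [(nat_lit 35755509), (nat_lit 23968959), (nat_lit 17897616), (nat_lit 12073119)] (nat_lit 11208580)) p12_16_1 (nat_lit 4) (nat_lit 111) (nat_lit 112) = true := by decide +kernel
def p12_16_1_112 : pfC (piC [(nat_lit 35755509), (nat_lit 23968959), (nat_lit 17897616), (nat_lit 12073119)] (nat_lit 11208580)) p12_16_1 (nat_lit 4) (nat_lit 112) (nat_lit 113) = true := by decide +kernel
def p12_16_1_113 : pfC (piC [(nat_lit 35755509), (nat_lit 23968959), (nat_lit 17897616), (nat_lit 12073119)] (nat_lit 11208580)) p12_16_1 (nat_lit 4) (nat_lit 113) (nat_lit 114) = true := by decide +kernel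
def p12_16_1_114 : pfC (piC [(nat_lit 35755509), (nat_lit 23968959), (nat_lit 17897616), (nat_lit 12073119)] (nat_lit 11208580)) p12_16_1 (nat_lit 4) (nat_lit 114) (nat_lit 115) = true := by decide +kernel
def p12_16_1_115 : pfC (piC [(nat_lit 35755509), (nat_lit 23968959), (nat_lit 17897616), (nat_lit 12073119)] (nat_lit 11208580)) p12_16_1 (nat_lit 4) (nat_lit 115) (nat_lit 116) = true := by decide +kernel
def p12_16_1_116 : pfC (piC [(nat_lit 35755509), (nat_lit 23968959), (nat_lit 17897616), (nat_lit 12073119)] (nat_lit 11208580)) p12_16_1 (nat_lit 4) (nat_lit 116) (nat_lit 117) = true := by decide +kernel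
def p12_16_1_117 : pfC (piC [(nat_lit 35755509), (nat_lit 23968959), (nat_lit 17897616), (nat_lit 12073119)] (nat_lit 11208580)) p12_16_1 (nat_lit 4) (nat_lit 117) (nat_lit 118) = true := by decide +kernel
def p12_16_1_118 : pfC (piC [(nat_lit 35755509), (nat_lit 23968959), (nat_lit 17897616), (nat_lit 12073119)] (nat_lit 11208580)) p12_16_1 (nat_lit 4) (nat_lit 118) (nat_lit 119) = true := by decide +kernel
def p12_16_1_119 : pfC (piC [(nat_lit 35755509), (nat_lit 23968959), (nat_lit 17897616), (nat_lit 12073119)] (nat_lit 11208580)) p12_16_1 (nat_lit 4) (nat_lit 119) (nat_lit 120) = true := by decide +kernel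
def p12_16_1_120 : pfC (piC [(nat_lit 35755509), (nat_lit 23968959), (nat_lit 17897616), (nat_lit 12073119)] (nat_lit 11208580)) p12_16_1 (nat_lit 4) (nat_lit 120) (nat_lit 121) = true := by decide +kernel
def p12_16_1_121 : pfC (piC [(nat_lit 35755509), (nat_lit 23968959), (nat_lit 17897616), (nat_lit 12073119)] (nat_lit 11208580)) p12_16_1 (nat_lit 4) (nat_lit 121) (nat_lit 122) = true := by decide +kernel
def p12_16_1_122 : pfC (piC [(nat_lit 35755509), (nat_lit 23968959), (nat_lit 17897616), (nat_lit 12073119)] (nat_lit 11208580)) p12_16_1 (nat_lit 4) (nat_lit 122) (nat_lit 123) = true := by decide +kernel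
def p12_16_1_123 : pfC (piC [(nat_lit 35755509), (nat_lit 23968959), (nat_lit 17897616), (nat_lit 12073119)] (nat_lit 11208580)) p12_16_1 (nat_lit 4) (nat_lit 123) (nat_lit 124) = true := by decide +kernel
def p12_16_1_124 : pfC (piC [(nat_lit 35755509), (nat_lit 23968959), (nat_lit 17897616), (nat_lit 12073119)] (nat_lit 11208580)) p12_16_1 (nat_lit 4) (nat_lit 124) (nat_lit 125) = true := by decide +kernel
def p12_16_1_125 : pfC (piC [(nat_lit 35755509), (nat_lit 23968959), (nat_lit 17897616), (nat_lit 12073119)] (nat_lit 11208580)) p12_16_1 (nat_lit 4) (nat_lit 125) (nat_lit 126) = true := by decide +kernel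
def p12_16_1_126 : pfC (piC [(nat_lit 35755509), (nat_lit 23968959), (nat_lit 17897616), (nat_lit 12073119)] (nat_lit 11208580)) p12_16_1 (nat_lit 4) (nat_lit 126) (nat_lit 127) = true := by decide +kernel
def p12_16_1_127 : pfC (piC [(nat_lit 35755509), (nat_lit 23968959), (nat_lit 17897616), (nat_lit 12073119)] (nat_lit 11208580)) p12_16_1 (nat_lit 4) (nat_lit 127) (nat_lit 128) = true := by decide +kernel
def p12_16_1_128 : pfC (piC [(nat_lit 35755509), (nat_lit 23968959), (nat_lit 17897616), (nat_lit 12073119)] (nat_lit 11208580)) p12_16_1 (nat_lit 4) (nat_lit 128) (nat_lit 129) = true := by decide +kernel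
def p12_16_1_129 : pfC (piC [(nat_lit 35755509), (nat_lit 23968959), (nat_lit 17897616), (nat_lit 12073119)] (nat_lit 11208580)) p12_16_1 (nat_lit 4) (nat_lit 129) (nat_lit 130) = true := by decide +kernel
def p12_16_1_130 : pfC (piC [(nat_lit 35755509), (nat_lit 23968959), (nat_lit 17897616), (nat_lit 12073119)] (nat_lit 11208580)) p12_16_1 (nat_lit 4) (nat_lit 130) (nat_lit 131) = true := by decide +kernel
def p12_16_1_131 : pfC (piC [(nat_lit 35755509), (nat_lit 23968959), (nat_lit 17897616), (nat_lit 12073119)] (nat_lit 11208580)) p12_16_1 (nat_lit 4) (nat_lit 131) (nat_lit 132) = true := by decide +kernel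
def p12_16_1_132 : pfC (piC [(nat_lit 35755509), (nat_lit 23968959), (nat_lit 17897616), (nat_lit 12073119)] (nat_lit 11208580)) p12_16_1 (nat_lit 4) (nat_lit 132) (nat_lit 133) = true := by decide +kernel
def p12_16_1_133 : pfC (piC [(nat_lit 35755509), (nat_lit 23968959), (nat_lit 17897616), (nat_lit 12073119)] (nat_lit 11208580)) p12_16_1 (nat_lit 4) (nat_lit 133) (nat_lit 134) = true := by decide +kernel
def p12_16_1_134 : pfC (piC [(nat_lit 35755509), (nat_lit 23968959), (nat_lit 17897616), (nat_lit 12073119)] (nat_lit 11208580)) p12_16_1 (nat_lit 4) (nat_lit 134) (nat_lit 135) = true := by decide +kernel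
def p12_16_1_135 : pfC (piC [(nat_lit 35755509), (nat_lit 23968959), (nat_lit 17897616), (nat_lit 12073119)] (nat_lit 11208580)) p12_16_1 (nat_lit 4) (nat_lit 135) (nat_lit 136) = true := by decide +kernel
def p12_16_1_136 : pfC (piC [(nat_lit 35755509), (nat_lit 23968959), (nat_lit 17897616), (nat_lit 12073119)] (nat_lit 11208580)) p12_16_1 (nat_lit 4) (nat_lit 136) (nat_lit 137) = true := by decide +kernel
def p12_16_1_137 : pfC (piC [(nat_lit 35755509), (nat_lit 23968959), (nat_lit 17897616), (nat_lit 12073119)] (nat_lit 11208580)) p12_16_1 (nat_lit 4) (nat_lit 137) (nat_lit 138) = true := by decide +kernel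
def p12_16_1_138 : pfC (piC [(nat_lit 35755509), (nat_lit 23968959), (nat_lit 17897616), (nat_lit 12073119)] (nat_lit 11208580)) p12_16_1 (nat_lit 4) (nat_lit 138) (nat_lit 139) = true := by decide +kernel
def p12_16_1_139 : pfC (piC [(nat_lit 35755509), (nat_lit 23968959), (nat_lit 17897616), (nat_lit 12073119)] (nat_lit 11208580)) p12_16_1 (nat_lit 4) (nat_lit 139) (nat_lit 140) = true := by decide +kernel
def p12_16_1_140 : pfC (piC [(nat_lit 35755509), (nat_lit 23968959), (nat_lit 17897616), (nat_lit 12073119)] (nat_lit 11208580)) p12_16_1 (nat_lit 4) (nat_lit 140) (nat_lit 141) = true := by decide +kernel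
def p12_16_1_141 : pfC (piC [(nat_lit 35755509), (nat_lit 23968959), (nat_lit 17897616), (nat_lit 12073119)] (nat_lit 11208580)) p12_16_1 (nat_lit 4) (nat_lit 141) (nat_lit 142) = true := by decide +kernel
def p12_16_1_142 : pfC (piC [(nat_lit 35755509), (nat_lit 23968959), (nat_lit 17897616), (nat_lit 12073119)] (nat_lit 11208580)) p12_16_1 (nat_lit 4) (nat_lit 142) (nat_lit 143) = true := by decide +kernel
def p12_16_1_143 : pfC (piC [(nat_lit 35755509), (nat_lit 23968959), (nat_lit 17897616), (nat_lit 12073119)] (nat_lit 11208580)) p12_16_1 (nat_lit 4) (nat_lit 143) (nat_lit 144) = true := by decide +kernel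
def p12_16_1_144 : pfC (piC [(nat_lit 35755509), (nat_lit 23968959), (nat_lit 17897616), (nat_lit 12073119)] (nat_lit 11208580)) p12_16_1 (nat_lit 4) (nat_lit 144) (nat_lit 145) = true := by decide +kernel
def p12_16_1_145 : pfC (piC [(nat_lit 35755509), (nat_lit 23968959), (nat_lit 17897616), (nat_lit 12073119)] (nat_lit 11208580)) p12_16_1 (nat_lit 4) (nat_lit 145) (nat_lit 146) = true := by decide +kernel
def p12_16_1_146 : pfC (piC [(nat_lit 35755509), (nat_lit 23968959), (nat_lit 17897616), (nat_lit 12073119)] (nat_lit 11208580)) p12_16_1 (nat_lit 4) (nat_lit 146) (nat_lit 147) = true := by decide +kernel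
def p12_16_1_147 : pfC (piC [(nat_lit 35755509), (nat_lit 23968959), (nat_lit 17897616), (nat_lit 12073119)] (nat_lit 11208580)) p12_16_1 (nat_lit 4) (nat_lit 147) (nat_lit 148) = true := by decide +kernel
def p12_16_1_148 : pfC (piC [(nat_lit 35755509), (nat_lit 23968959), (nat_lit 17897616), (nat_lit 12073119)] (nat_lit 11208580)) p12_16_1 (nat_lit 4) (nat_lit 148) (nat_lit 149) = true := by decide +kernel
def p12_16_1_149 : pfC (piC [(nat_lit 35755509), (nat_lit 23968959), (nat_lit 17897616), (nat_lit 12073119)] (nat_lit 11208580)) p12_16_1 (nat_lit 4) (nat_lit 149) (nat_lit 150) = true := by decide +kernel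
def p12_16_1_150 : pfC (piC [(nat_lit 35755509), (nat_lit 23968959), (nat_lit 17897616), (nat_lit 12073119)] (nat_lit 11208580)) p12_16_1 (nat_lit 4) (nat_lit 150) (nat_lit 151) = true := by decide +kernel
def p12_16_1_151 : pfC (piC [(nat_lit 35755509), (nat_lit 23968959), (nat_lit 17897616), (nat_lit 12073119)] (nat_lit 11208580)) p12_16_1 (nat_lit 4) (nat_lit 151) (nat_lit 152) = true := by decide +kernel
def p12_16_1_152 : pfC (piC [(nat_lit 35755509), (nat_lit 23968959), (nat_lit 17897616), (nat_lit 12073119)] (nat_lit 11208580)) p12_16_1 (nat_lit 4) (nat_lit 152) (nat_lit 153) = true := by decide +kernel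
def p12_16_1_153 : pfC (piC [(nat_lit 35755509), (nat_lit 23968959), (nat_lit 17897616), (nat_lit 12073119)] (nat_lit 11208580)) p12_16_1 (nat_lit 4) (nat_lit 153) (nat_lit 154) = true := by decide +kernel
def p12_16_1_154 : pfC (piC [(nat_lit 35755509), (nat_lit 23968959), (nat_lit 17897616), (nat_lit 12073119)] (nat_lit 11208580)) p12_16_1 (nat_lit 4) (nat_lit 154) (nat_lit 155) = true := by decide +kernel
def p12_16_1_155 : pfC (piC [(nat_lit 35755509), (nat_lit 23968959), (nat_lit 17897616), (nat_lit 12073119)] (nat_lit 11208580)) p12_16_1 (nat_lit 4) (nat_lit 155) (nat_lit 156) = true := by decide +kernel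
def p12_16_1_156 : pfC (piC [(nat_lit 35755509), (nat_lit 23968959), (nat_lit 17897616), (nat_lit 12073119)] (nat_lit 11208580)) p12_16_1 (nat_lit 4) (nat_lit 156) (nat_lit 157) = true := by decide +kernel
def p12_16_1_157 : pfC (piC [(nat_lit 35755509), (nat_lit 23968959), (nat_lit 17897616), (nat_lit 12073119)] (nat_lit 11208580)) p12_16_1 (nat_lit 4) (nat_lit 157) (nat_lit 158) = true := by decide +kernel
def p12_16_1_158 : pfC (piC [(nat_lit 35755509), (nat_lit 23968959), (nat_lit 17897616), (nat_lit 12073119)] (nat_lit 11208580)) p12_16_1 (nat_lit 4) (nat_lit 158) (nat_lit 159) = true := by decide +kernel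
def p12_16_1_159 : pfC (piC [(nat_lit 35755509), (nat_lit 23968959), (nat_lit 17897616), (nat_lit 12073119)] (nat_lit 11208580)) p12_16_1 (nat_lit 4) (nat_lit 159) (nat_lit 160) = true := by decide +kernel
def p12_16_1_160 : pfC (piC [(nat_lit 35755509), (nat_lit 23968959), (nat_lit 17897616), (nat_lit 12073119)] (nat_lit 11208580)) p12_16_1 (nat_lit 4) (nat_lit 160) (nat_lit 161) = true := by decide +kernel
def p12_16_1_161 : pfC (piC [(nat_lit 35755509), (nat_lit 23968959), (nat_lit 17897616), (nat_lit 12073119)] (nat_lit 11208580)) p12_16_1 (nat_lit 4) (nat_lit 161) (nat_lit 162) = true := by decide +kernel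
def p12_16_1_162 : pfC (piC [(nat_lit 35755509), (nat_lit 23968959), (nat_lit 17897616), (nat_lit 12073119)] (nat_lit 11208580)) p12_16_1 (nat_lit 4) (nat_lit 162) (nat_lit 163) = true := by decide +kernel
def p12_16_1_163 : pfC (piC [(nat_lit 35755509), (nat_lit 23968959), (nat_lit 17897616), (nat_lit 12073119)] (nat_lit 11208580)) p12_16_1 (nat_lit 4) (nat_lit 163) (nat_lit 164) = true := by decide +kernel
def p12_16_1_164 : pfC (piC [(nat_lit 35755509), (nat_lit 23968959), (nat_lit 17897616), (nat_lit 12073119)] (nat_lit 11208580)) p12_16_1 (nat_lit 4) (nat_lit 164) (nat_lit 165) = true := by decide +kernel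
def p12_16_1_165 : pfC (piC [(nat_lit 35755509), (nat_lit 23968959), (nat_lit 17897616), (nat_lit 12073119)] (nat_lit 11208580)) p12_16_1 (nat_lit 4) (nat_lit 165) (nat_lit 166) = true := by decide +kernel
def p12_16_1_166 : pfC (piC [(nat_lit 35755509), (nat_lit 23968959), (nat_lit 17897616), (nat_lit 12073119)] (nat_lit 11208580)) p12_16_1 (nat_lit 4) (nat_lit 166) (nat_lit 167) = true := by decide +kernel
def p12_16_1_167 : pfC (piC [(nat_lit 35755509), (nat_lit 23968959), (nat_lit 17897616), (nat_lit 12073119)] (nat_lit 11208580)) p12_16_1 (nat_lit 4) (nat_lit 167) (nat_lit 168) = true := by decide +kernel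
def p12_16_1_168 : pfC (piC [(nat_lit 35755509), (nat_lit 23968959), (nat_lit 17897616), (nat_lit 12073119)] (nat_lit 11208580)) p12_16_1 (nat_lit 4) (nat_lit 168) (nat_lit 169) = true := by decide +kernel
def p12_16_1_169 : pfC (piC [(nat_lit 35755509), (nat_lit 23968959), (nat_lit 17897616), (nat_lit 12073119)] (nat_lit 11208580)) p12_16_1 (nat_lit 4) (nat_lit 169) (nat_lit 170) = true := by decide +kernel
def p12_16_1_170 : pfC (piC [(nat_lit 35755509), (nat_lit 23968959), (nat_lit 17897616), (nat_lit 12073119)] (nat_lit 11208580)) p12_16_1 (nat_lit 4) (nat_lit 170) (nat_lit 171) = true := by decide +kernel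
def p12_16_1_171 : pfC (piC [(nat_lit 35755509), (nat_lit 23968959), (nat_lit 17897616), (nat_lit 12073119)] (nat_lit 11208580)) p12_16_1 (nat_lit 4) (nat_lit 171) (nat_lit 172) = true := by decide +kernel
def p12_16_1_172 : pfC (piC [(nat_lit 35755509), (nat_lit 23968959), (nat_lit 17897616), (nat_lit 12073119)] (nat_lit 11208580)) p12_16_1 (nat_lit 4) (nat_lit 172) (nat_lit 173) = true := by decide +kernel
def p12_16_1_173 : pfC (piC [(nat_lit 35755509), (nat_lit 23968959), (nat_lit 17897616), (nat_lit 12073119)] (nat_lit 11208580)) p12_16_1 (nat_lit 4) (nat_lit 173) (nat_lit 174) = true := by decide +kernel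
def p12_16_1_174 : pfC (piC [(nat_lit 35755509), (nat_lit 23968959), (nat_lit 17897616), (nat_lit 12073119)] (nat_lit 11208580)) p12_16_1 (nat_lit 4) (nat_lit 174) (nat_lit 175) = true := by decide +kernel
def p12_16_1_175 : pfC (piC [(nat_lit 35755509), (nat_lit 23968959), (nat_lit 17897616), (nat_lit 12073119)] (nat_lit 11208580)) p12_16_1 (nat_lit 4) (nat_lit 175) (nat_lit 176) = true := by decide +kernel
def p12_16_1_176 : pfC (piC [(nat_lit 35755509), (nat_lit 23968959), (nat_lit 17897616), (nat_lit 12073119)] (nat_lit 11208580)) p12_16_1 (nat_lit 4) (nat_lit 176) (nat_lit 177) = true := by decide +kernel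
def p12_16_1_177 : pfC (piC [(nat_lit 35755509), (nat_lit 23968959), (nat_lit 17897616), (nat_lit 12073119)] (nat_lit 11208580)) p12_16_1 (nat_lit 4) (nat_lit 177) (nat_lit 178) = true := by decide +kernel
def p12_16_1_178 : pfC (piC [(nat_lit 35755509), (nat_lit 23968959), (nat_lit 17897616), (nat_lit 12073119)] (nat_lit 11208580)) p12_16_1 (nat_lit 4) (nat_lit 178) (nat_lit 179) = true := by decide +kernel
def p12_16_1_179 : pfC (piC [(nat_lit 35755509), (nat_lit 23968959), (nat_lit 17897616), (nat_lit 12073119)] (nat_lit 11208580)) p12_16_1 (nat_lit 4) (nat_lit 179) (nat_lit 180) = true := by decide +kernel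
def p12_16_1_180 : pfC (piC [(nat_lit 35755509), (nat_lit 23968959), (nat_lit 17897616), (nat_lit 12073119)] (nat_lit 11208580)) p12_16_1 (nat_lit 4) (nat_lit 180) (nat_lit 181) = true := by decide +kernel
def p12_16_1_181 : pfC (piC [(nat_lit 35755509), (nat_lit 23968959), (nat_lit 17897616), (nat_lit 12073119)] (nat_lit 11208580)) p12_16_1 (nat_lit 4) (nat_lit 181) (nat_lit 182) = true := by decide +kernel
def p12_16_1_182 : pfC (piC [(nat_lit 35755509), (nat_lit 23968959), (nat_lit 17897616), (nat_lit 12073119)] (nat_lit 11208580)) p12_16_1 (nat_lit 4) (nat_lit 182) (nat_lit 183) = true := by decide +kernel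
def p12_16_1_183 : pfC (piC [(nat_lit 35755509), (nat_lit 23968959), (nat_lit 17897616), (nat_lit 12073119)] (nat_lit 11208580)) p12_16_1 (nat_lit 4) (nat_lit 183) (nat_lit 184) = true := by decide +kernel
def p12_16_1_184 : pfC (piC [(nat_lit 35755509), (nat_lit 23968959), (nat_lit 17897616), (nat_lit 12073119)] (nat_lit 11208580)) p12_16_1 (nat_lit 4) (nat_lit 184) (nat_lit 185) = true := by decide +kernel
def p12_16_1_185 : pfC (piC [(nat_lit 35755509), (nat_lit 23968959), (nat_lit 17897616), (nat_lit 12073119)] (nat_lit 11208580)) p12_16_1 (nat_lit 4) (nat_lit 185) (nat_lit 186) = true := by decide +kernel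
def p12_16_1_186 : pfC (piC [(nat_lit 35755509), (nat_lit 23968959), (nat_lit 17897616), (nat_lit 12073119)] (nat_lit 11208580)) p12_16_1 (nat_lit 4) (nat_lit 186) (nat_lit 187) = true := by decide +kernel
def p12_16_1_187 : pfC (piC [(nat_lit 35755509), (nat_lit 23968959), (nat_lit 17897616), (nat_lit 12073119)] (nat_lit 11208580)) p12_16_1 (nat_lit 4) (nat_lit 187) (nat_lit 188) = true := by decide +kernel
def p12_16_1_188 : pfC (piC [(nat_lit 35755509), (nat_lit 23968959), (nat_lit 17897616), (nat_lit 12073119)] (nat_lit 11208580)) p12_16_1 (nat_lit 4) (nat_lit 188) (nat_lit 189) = true := by decide +kernel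
def p12_16_1_189 : pfC (piC [(nat_lit 35755509), (nat_lit 23968959), (nat_lit 17897616), (nat_lit 12073119)] (nat_lit 11208580)) p12_16_1 (nat_lit 4) (nat_lit 189) (nat_lit 190) = true := by decide +kernel
def p12_16_1_190 : pfC (piC [(nat_lit 35755509), (nat_lit 23968959), (nat_lit 17897616), (nat_lit 12073119)] (nat_lit 11208580)) p12_16_1 (nat_lit 4) (nat_lit 190) (nat_lit 191) = true := by decide +kernel
def p12_16_1_191 : pfC (piC [(nat_lit 35755509), (nat_lit 23968959), (nat_lit 17897616), (nat_lit 12073119)] (nat_lit 11208580)) p12_16_1 (nat_lit 4) (nat_lit 191) (nat_lit 192) = true := by decide +kernel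
def p12_16_1_192 : pfC (piC [(nat_lit 35755509), (nat_lit 23968959), (nat_lit 17897616), (nat_lit 12073119)] (nat_lit 11208580)) p12_16_1 (nat_lit 4) (nat_lit 192) (nat_lit 193) = true := by decide +kernel
def p12_16_1_193 : pfC (piC [(nat_lit 35755509), (nat_lit 23968959), (nat_lit 17897616), (nat_lit 12073119)] (nat_lit 11208580)) p12_16_1 (nat_lit 4) (nat_lit 193) (nat_lit 194) = true := by decide +kernel
def p12_16_1_194 : pfC (piC [(nat_lit 35755509), (nat_lit 23968959), (nat_lit 17897616), (nat_lit 12073119)] (nat_lit 11208580)) p12_16_1 (nat_lit 4) (nat_lit 194) (nat_lit 195) = true := by decide +kernel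
def p12_16_1_195 : pfC (piC [(nat_lit 35755509), (nat_lit 23968959), (nat_lit 17897616), (nat_lit 12073119)] (nat_lit 11208580)) p12_16_1 (nat_lit 4) (nat_lit 195) (nat_lit 196) = true := by decide +kernel
def p12_16_1_196 : pfC (piC [(nat_lit 35755509), (nat_lit 23968959), (nat_lit 17897616), (nat_lit 12073119)] (nat_lit 11208580)) p12_16_1 (nat_lit 4) (nat_lit 196) (nat_lit 197) = true := by decide +kernel
def p12_16_1_197 : pfC (piC [(nat_lit 35755509), (nat_lit 23968959), (nat_lit 17897616), (nat_lit 12073119)] (nat_lit 11208580)) p12_16_1 (nat_lit 4) (nat_lit 197) (nat_lit 198) = true := by decide +kernel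
def p12_16_1_198 : pfC (piC [(nat_lit 35755509), (nat_lit 23968959), (nat_lit 17897616), (nat_lit 12073119)] (nat_lit 11208580)) p12_16_1 (nat_lit 4) (nat_lit 198) (nat_lit 199) = true := by decide +kernel
def p12_16_1_199 : pfC (piC [(nat_lit 35755509), (nat_lit 23968959), (nat_lit 17897616), (nat_lit 12073119)] (nat_lit 11208580)) p12_16_1 (nat_lit 4) (nat_lit 199) (nat_lit 200) = true := by decide +kernel
def p12_16_1_200 : pfC (piC [(nat_lit 35755509), (nat_lit 23968959), (nat_lit 17897616), (nat_lit 12073119)] (nat_lit 11208580)) p12_16_1 (nat_lit 4) (nat_lit 200) (nat_lit 201) = true := by decide +kernel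
def p12_16_1_201 : pfC (piC [(nat_lit 35755509), (nat_lit 23968959), (nat_lit 17897616), (nat_lit 12073119)] (nat_lit 11208580)) p12_16_1 (nat_lit 4) (nat_lit 201) (nat_lit 202) = true := by decide +kernel
def p12_16_1_202 : pfC (piC [(nat_lit 35755509), (nat_lit 23968959), (nat_lit 17897616), (nat_lit 12073119)] (nat_lit 11208580)) p12_16_1 (nat_lit 4) (nat_lit 202) (nat_lit 203) = true := by decide +kernel
def p12_16_1_203 : pfC (piC [(nat_lit 35755509), (nat_lit 23968959), (nat_lit 17897616), (nat_lit 12073119)] (nat_lit 11208580)) p12_16_1 (nat_lit 4) (nat_lit 203) (nat_lit 204) = true := by decide +kernel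
def p12_16_1_204 : pfC (piC [(nat_lit 35755509), (nat_lit 23968959), (nat_lit 17897616), (nat_lit 12073119)] (nat_lit 11208580)) p12_16_1 (nat_lit 4) (nat_lit 204) (nat_lit 205) = true := by decide +kernel
def p12_16_1_205 : pfC (piC [(nat_lit 35755509), (nat_lit 23968959), (nat_lit 17897616), (nat_lit 12073119)] (nat_lit 11208580)) p12_16_1 (nat_lit 4) (nat_lit 205) (nat_lit 206) = true := by decide +kernel
def p12_16_1_206 : pfC (piC [(nat_lit 35755509), (nat_lit 23968959), (nat_lit 17897616), (nat_lit 12073119)] (nat_lit 11208580)) p12_16_1 (nat_lit 4) (nat_lit 206) (nat_lit 207) = true := by decide +kernel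
def p12_16_1_207 : pfC (piC [(nat_lit 35755509), (nat_lit 23968959), (nat_lit 17897616), (nat_lit 12073119)] (nat_lit 11208580)) p12_16_1 (nat_lit 4) (nat_lit 207) (nat_lit 208) = true := by decide +kernel
def p12_16_1_208 : pfC (piC [(nat_lit 35755509), (nat_lit 23968959), (nat_lit 17897616), (nat_lit 12073119)] (nat_lit 11208580)) p12_16_1 (nat_lit 4) (nat_lit 208) (nat_lit 209) = true := by decide +kernel
def p12_16_1_209 : pfC (piC [(nat_lit 35755509), (nat_lit 23968959), (nat_lit 17897616), (nat_lit 12073119)] (nat_lit 11208580)) p12_16_1 (nat_lit 4) (nat_lit 209) (nat_lit 210) = true := by decide +kernel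
def p12_16_1_210 : pfC (piC [(nat_lit 35755509), (nat_lit 23968959), (nat_lit 17897616), (nat_lit 12073119)] (nat_lit 11208580)) p12_16_1 (nat_lit 4) (nat_lit 210) (nat_lit 211) = true := by decide +kernel
def p12_16_1_211 : pfC (piC [(nat_lit 35755509), (nat_lit 23968959), (nat_lit 17897616), (nat_lit 12073119)] (nat_lit 11208580)) p12_16_1 (nat_lit 4) (nat_lit 211) (nat_lit 212) = true := by decide +kernel
def p12_16_1_212 : pfC (piC [(nat_lit 35755509), (nat_lit 23968959), (nat_lit 17897616), (nat_lit 12073119)] (nat_lit 11208580)) p12_16_1 (nat_lit 4) (nat_lit 212) (nat_lit 213) = true := by decide +kernel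
def p12_16_1_213 : pfC (piC [(nat_lit 35755509), (nat_lit 23968959), (nat_lit 17897616), (nat_lit 12073119)] (nat_lit 11208580)) p12_16_1 (nat_lit 4) (nat_lit 213) (nat_lit 214) = true := by decide +kernel
def p12_16_1_214 : pfC (piC [(nat_lit 35755509), (nat_lit 23968959), (nat_lit 17897616), (nat_lit 12073119)] (nat_lit 11208580)) p12_16_1 (nat_lit 4) (nat_lit 214) (nat_lit 215) = true := by decide +kernel
def p12_16_1_215 : pfC (piC [(nat_lit 35755509), (nat_lit 23968959), (nat_lit 17897616), (nat_lit 12073119)] (nat_lit 11208580)) p12_16_1 (nat_lit 4) (nat_lit 215) (nat_lit 216) = true := by decide +kernel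
def p12_16_1_216 : pfC (piC [(nat_lit 35755509), (nat_lit 23968959), (nat_lit 17897616), (nat_lit 12073119)] (nat_lit 11208580)) p12_16_1 (nat_lit 4) (nat_lit 216) (nat_lit 217) = true := by decide +kernel
def p12_16_1_217 : pfC (piC [(nat_lit 35755509), (nat_lit 23968959), (nat_lit 17897616), (nat_lit 12073119)] (nat_lit 11208580)) p12_16_1 (nat_lit 4) (nat_lit 217) (nat_lit 218) = true := by decide +kernel
def p12_16_1_218 : pfC (piC [(nat_lit 35755509), (nat_lit 23968959), (nat_lit 17897616), (nat_lit 12073119)] (nat_lit 11208580)) p12_16_1 (nat_lit 4) (nat_lit 218) (nat_lit 219) = true := by decide +kernel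
def p12_16_1_219 : pfC (piC [(nat_lit 35755509), (nat_lit 23968959), (nat_lit 17897616), (nat_lit 12073119)] (nat_lit 11208580)) p12_16_1 (nat_lit 4) (nat_lit 219) (nat_lit 220) = true := by decide +kernel
def p12_16_1_220 : pfC (piC [(nat_lit 35755509), (nat_lit 23968959), (nat_lit 17897616), (nat_lit 12073119)] (nat_lit 11208580)) p12_16_1 (nat_lit 4) (nat_lit 220) (nat_lit 221) = true := by decide +kernel
def p12_16_1_221 : pfC (piC [(nat_lit 35755509), (nat_lit 23968959), (nat_lit 17897616), (nat_lit 12073119)] (nat_lit 11208580)) p12_16_1 (nat_lit 4) (nat_lit 221) (nat_lit 222) = true := by decide +kernel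
def p12_16_1_222 : pfC (piC [(nat_lit 35755509), (nat_lit 23968959), (nat_lit 17897616), (nat_lit 12073119)] (nat_lit 11208580)) p12_16_1 (nat_lit 4) (nat_lit 222) (nat_lit 223) = true := by decide +kernel
def p12_16_1_223 : pfC (piC [(nat_lit 35755509), (nat_lit 23968959), (nat_lit 17897616), (nat_lit 12073119)] (nat_lit 11208580)) p12_16_1 (nat_lit 4) (nat_lit 223) (nat_lit 224) = true := by decide +kernel
def p12_16_1_224 : pfC (piC [(nat_lit 35755509), (nat_lit 23968959), (nat_lit 17897616), (nat_lit 12073119)] (nat_lit 11208580)) p12_16_1 (nat_lit 4) (nat_lit 224) (nat_lit 225) = true := by decide +kernel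
def p12_16_1_225 : pfC (piC [(nat_lit 35755509), (nat_lit 23968959), (nat_lit 17897616), (nat_lit 12073119)] (nat_lit 11208580)) p12_16_1 (nat_lit 4) (nat_lit 225) (nat_lit 226) = true := by decide +kernel
def p12_16_1_226 : pfC (piC [(nat_lit 35755509), (nat_lit 23968959), (nat_lit 17897616), (nat_lit 12073119)] (nat_lit 11208580)) p12_16_1 (nat_lit 4) (nat_lit 226) (nat_lit 227) = true := by decide +kernel
def p12_16_1_227 : pfC (piC [(nat_lit 35755509), (nat_lit 23968959), (nat_lit 17897616), (nat_lit 12073119)] (nat_lit 11208580)) p12_16_1 (nat_lit 4) (nat_lit 227) (nat_lit 228) = true := by decide +kernel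
theorem p12_16_1_T : PfS (PiF n12_16.reverse (nat_lit 11208580)) p12_16_1 (nat_lit 4) [] 0 :=
  pftab_of (los := [(nat_lit 35755509), (nat_lit 23968959), (nat_lit 17897616), (nat_lit 12073119)]) (by decide +kernel) (hi := (nat_lit 228)) (PfP.trans (PfP.trans (PfP.trans (PfP.trans (PfP.trans (PfP.trans (PfP.trans (PfP.trans (PfP.trans (PfP.trans (PfP.trans (PfP.trans (PfP.trans (PfP.trans (PfP.trans (PfP.trans (PfP.trans (PfP.trans (PfP.trans (PfP.trans (PfP.trans (PfP.trans (PfP.trans (PfP.trans (PfP.trans (PfP.trans (PfP.trans (PfP.trans (PfP.trans (PfP.trans (PfP.trans (PfP.trans (PfP.trans (PfP.trans (PfP.trans (PfP.trans (PfP.trans (PfP.trans (PfP.trans (PfP.trans (PfP.trans (PfP.trans (PfP.trans (PfP.trans (PfP.trans (PfP.trans (PfP.trans (PfP.trans (PfP.trans (PfP.trans (PfP.trans (PfP.trans (PfP.trans (PfP.trans (PfP.trans (PfP.trans (PfP.trans (PfP.trans (PfP.trans (PfP.trans (PfP.trans (PfP.trans (PfP.trans (PfP.trans (PfP.trans (PfP.trans (PfP.trans (PfP.trans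 (PfP.trans (PfP.trans (PfP.trans (PfP.trans (PfP.trans (PfP.trans (PfP.trans (PfP.trans (PfP.trans (PfP.trans (PfP.trans (PfP.trans (PfP.trans (PfP.trans (PfP.trans (PfP.trans (PfP.trans (PfP.trans (PfP.trans (PfP.trans (PfP.trans (PfP.trans (PfP.trans (PfP.trans (PfP.trans (PfP.trans (PfP.trans (PfP.trans (PfP.trans (PfP.trans (PfP.trans (PfP.trans (PfP.trans (PfP.trans (PfP.trans (PfP.trans (PfP.trans (PfP.trans (PfP.trans (PfP.trans (PfP.trans
 (PfP.trans (PfP.trans (PfP.trans (PfP.trans (PfP.trans (PfP.trans (PfP.trans (PfP.trans (PfP.trans (PfP.trans (PfP.trans (PfP.trans (PfP.trans (PfP.trans (PfP.trans (PfP.trans (PfP.trans (PfP.trans (PfP.trans (PfP.trans (PfP.trans (PfP.trans (PfP.trans (PfP.trans (PfP.trans (PfP.trans (PfP.trans (PfP.trans (PfP.trans (PfP.trans (PfP.trans (PfP.trans (PfP.trans (PfP.trans (PfP.trans (PfP.trans (PfP.trans (PfP.trans (PfP.trans (PfP.trans (PfP.trans (PfP.trans (PfP.trans (PfP.trans (PfP.trans (PfP.trans (PfP.trans (PfP.trans (PfP.trans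 (PfP.trans (PfP.trans (PfP.trans (PfP.trans (PfP.trans (PfP.trans (PfP.trans (PfP.trans (PfP.trans (PfP.trans (PfP.trans (PfP.trans (PfP.trans (PfP.trans (PfP.trans (PfP.trans (PfP.trans (PfP.trans (PfP.trans (PfP.trans (PfP.trans (PfP.trans (PfP.trans (PfP.trans (PfP.trans (PfP.trans (PfP.trans (PfP.trans (PfP.trans (PfP.trans (PfP.trans (PfP.trans (PfP.trans (PfP.trans (PfP.trans (PfP.trans (PfP.trans (PfP.trans (PfP.trans (PfP.trans (PfP.trans (PfP.trans (PfP.trans (PfP.trans (PfP.trans (PfP.trans (PfP.trans (PfP.trans (PfP.trans (PfP.trans (PfP.trans (PfP.trans (PfP.trans (PfP.trans (PfP.trans (PfP.trans (PfP.trans (PfP.trans (PfP.trans (PfP.trans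
 (PfP.trans (PfP.trans (PfP.trans (PfP.trans (PfP.trans (PfP.trans (PfP.trans (PfP.trans (PfP.trans (pfC_sound p12_16_1_0) (pfC_sound p12_16_1_1)) (pfC_sound p12_16_1_2)) (pfC_sound p12_16_1_3)) (pfC_sound p12_16_1_4)) (pfC_sound p12_16_1_5)) (pfC_sound p12_16_1_6)) (pfC_sound p12_16_1_7)) (pfC_sound p12_16_1_8)) (pfC_sound p12_16_1_9)) (pfC_sound p12_16_1_10)) (pfC_sound p12_16_1_11)) (pfC_sound p12_16_1_12)) (pfC_sound p12_16_1_13)) (pfC_sound p12_16_1_14)) (pfC_sound p12_16_1_15)) (pfC_sound p12_16_1_16)) (pfC_sound p12_16_1_17)) (pfC_sound p12_16_1_18)) (pfC_sound p12_16_1_19)) (pfC_sound p12_16_1_20)) (pfC_sound p12_16_1_21)) (pfC_sound p12_16_1_22)) (pfC_sound p12_16_1_23)) (pfC_sound p12_16_1_24)) (pfC_sound p12_16_1_25)) (pfC_sound p12_16_1_26)) (pfC_sound p12_16_1_27)) (pfC_sound p12_16_1_28)) (pfC_sound p12_16_1_29)) (pfC_sound p12_16_1_30)) (pfC_sound p12_16_1_31)) (pfC_sound p12_16_1_32)) (pfC_sound p12_16_1_33)) (pfC_sound p12_16_1_34)) (pfC_sound p12_16_1_35))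 (pfC_sound p12_16_1_36)) (pfC_sound p12_16_1_37)) (pfC_sound p12_16_1_38)) (pfC_sound p12_16_1_39)) (pfC_sound p12_16_1_40)) (pfC_sound p12_16_1_41)) (pfC_sound p12_16_1_42)) (pfC_sound p12_16_1_43)) (pfC_sound
 p12_16_1_44)) (pfC_sound p12_16_1_45)) (pfC_sound p12_16_1_46)) (pfC_sound p12_16_1_47)) (pfC_sound p12_16_1_48)) (pfC_sound p12_16_1_49)) (pfC_sound p12_16_1_50)) (pfC_sound p12_16_1_51)) (pfC_sound p12_16_1_52)) (pfC_sound p12_16_1_53)) (pfC_sound p12_16_1_54)) (pfC_sound p12_16_1_55)) (pfC_sound p12_16_1_56)) (pfC_sound p12_16_1_57)) (pfC_sound p12_16_1_58)) (pfC_sound p12_16_1_59)) (pfC_sound p12_16_1_60)) (pfC_sound p12_16_1_61)) (pfC_sound p12_16_1_62)) (pfC_sound p12_16_1_63)) (pfC_sound p12_16_1_64)) (pfC_sound p12_16_1_65)) (pfC_sound p12_16_1_66)) (pfC_sound p12_16_1_67)) (pfC_sound p12_16_1_68)) (pfC_sound p12_16_1_69)) (pfC_sound p12_16_1_70)) (pfC_sound p12_16_1_71)) (pfC_sound p12_16_1_72)) (pfC_sound p12_16_1_73)) (pfC_sound p12_16_1_74)) (pfC_sound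 p12_16_1_75)) (pfC_sound p12_16_1_76)) (pfC_sound p12_16_1_77)) (pfC_sound p12_16_1_78)) (pfC_sound p12_16_1_79)) (pfC_sound p12_16_1_80)) (pfC_sound p12_16_1_81)) (pfC_sound p12_16_1_82)) (pfC_sound p12_16_1_83)) (pfC_sound p12_16_1_84)) (pfC_sound p12_16_1_85)) (pfC_sound p12_16_1_86)) (pfC_sound p12_16_1_87)) (pfC_sound p12_16_1_88)) (pfC_sound p12_16_1_89)) (pfC_sound p12_16_1_90)) (pfC_sound p12_16_1_91)) (pfC_sound
 p12_16_1_92)) (pfC_sound p12_16_1_93)) (pfC_sound p12_16_1_94)) (pfC_sound p12_16_1_95)) (pfC_sound p12_16_1_96)) (pfC_sound p12_16_1_97)) (pfC_sound p12_16_1_98)) (pfC_sound p12_16_1_99)) (pfC_sound p12_16_1_100)) (pfC_sound p12_16_1_101)) (pfC_sound p12_16_1_102)) (pfC_sound p12_16_1_103)) (pfC_sound p12_16_1_104)) (pfC_sound p12_16_1_105)) (pfC_sound p12_16_1_106)) (pfC_sound p12_16_1_107)) (pfC_sound p12_16_1_108)) (pfC_sound p12_16_1_109)) (pfC_sound p12_16_1_110)) (pfC_sound p12_16_1_111)) (pfC_sound p12_16_1_112)) (pfC_sound p12_16_1_113)) (pfC_sound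 p12_16_1_114)) (pfC_sound p12_16_1_115)) (pfC_sound p12_16_1_116)) (pfC_sound p12_16_1_117)) (pfC_sound p12_16_1_118)) (pfC_sound p12_16_1_119)) (pfC_sound p12_16_1_120)) (pfC_sound p12_16_1_121)) (pfC_sound p12_16_1_122)) (pfC_sound p12_16_1_123)) (pfC_sound p12_16_1_124)) (pfC_sound p12_16_1_125)) (pfC_sound p12_16_1_126)) (pfC_sound p12_16_1_127)) (pfC_sound p12_16_1_128)) (pfC_sound p12_16_1_129)) (pfC_sound p12_16_1_130)) (pfC_sound p12_16_1_131)) (pfC_sound p12_16_1_132)) (pfC_sound p12_16_1_133)) (pfC_sound p12_16_1_134)) (pfC_sound p12_16_1_135)) (pfC_sound p12_16_1_136)) (pfC_sound p12_16_1_137)) (pfC_sound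
 p12_16_1_138)) (pfC_sound p12_16_1_139)) (pfC_sound p12_16_1_140)) (pfC_sound p12_16_1_141)) (pfC_sound p12_16_1_142)) (pfC_sound p12_16_1_143)) (pfC_sound p12_16_1_144)) (pfC_sound p12_16_1_145)) (pfC_sound p12_16_1_146)) (pfC_sound p12_16_1_147)) (pfC_sound p12_16_1_148)) (pfC_sound p12_16_1_149)) (pfC_sound p12_16_1_150)) (pfC_sound p12_16_1_151)) (pfC_sound p12_16_1_152)) (pfC_sound p12_16_1_153)) (pfC_sound p12_16_1_154)) (pfC_sound p12_16_1_155)) (pfC_sound p12_16_1_156)) (pfC_sound p12_16_1_157)) (pfC_sound p12_16_1_158)) (pfC_sound p12_16_1_159)) (pfC_sound p12_16_1_160)) (pfC_sound p12_16_1_161)) (pfC_sound p12_16_1_162)) (pfC_sound p12_16_1_163)) (pfC_sound p12_16_1_164)) (pfC_sound p12_16_1_165)) (pfC_sound p12_16_1_166)) (pfC_sound p12_16_1_167)) (pfC_sound p12_16_1_168)) (pfC_sound p12_16_1_169)) (pfC_sound p12_16_1_170)) (pfC_sound p12_16_1_171)) (pfC_sound p12_16_1_172)) (pfC_sound p12_16_1_173)) (pfC_sound p12_16_1_174)) (pfC_sound p12_16_1_175)) (pfC_sound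 p12_16_1_176)) (pfC_sound p12_16_1_177)) (pfC_sound p12_16_1_178)) (pfC_sound p12_16_1_179)) (pfC_sound p12_16_1_180)) (pfC_sound p12_16_1_181)) (pfC_sound p12_16_1_182)) (pfC_sound p12_16_1_183)) (pfC_sound
 p12_16_1_184)) (pfC_sound p12_16_1_185)) (pfC_sound p12_16_1_186)) (pfC_sound p12_16_1_187)) (pfC_sound p12_16_1_188)) (pfC_sound p12_16_1_189)) (pfC_sound p12_16_1_190)) (pfC_sound p12_16_1_191)) (pfC_sound p12_16_1_192)) (pfC_sound p12_16_1_193)) (pfC_sound p12_16_1_194)) (pfC_sound p12_16_1_195)) (pfC_sound p12_16_1_196)) (pfC_sound p12_16_1_197)) (pfC_sound p12_16_1_198)) (pfC_sound p12_16_1_199)) (pfC_sound p12_16_1_200)) (pfC_sound p12_16_1_201)) (pfC_sound p12_16_1_202)) (pfC_sound p12_16_1_203)) (pfC_sound p12_16_1_204)) (pfC_sound p12_16_1_205)) (pfC_sound p12_16_1_206)) (pfC_sound p12_16_1_207)) (pfC_sound p12_16_1_208)) (pfC_sound p12_16_1_209)) (pfC_sound p12_16_1_210)) (pfC_sound p12_16_1_211)) (pfC_sound p12_16_1_212)) (pfC_sound p12_16_1_213)) (pfC_sound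 p12_16_1_214)) (pfC_sound p12_16_1_215)) (pfC_sound p12_16_1_216)) (pfC_sound p12_16_1_217)) (pfC_sound p12_16_1_218)) (pfC_sound p12_16_1_219)) (pfC_sound p12_16_1_220)) (pfC_sound p12_16_1_221)) (pfC_sound p12_16_1_222)) (pfC_sound p12_16_1_223)) (pfC_sound p12_16_1_224)) (pfC_sound p12_16_1_225)) (pfC_sound p12_16_1_226)) (pfC_sound p12_16_1_227)) (by decide +kernel)

def z12_16_1 : zOK yB12_16 (nat_lit 1) (nat_lit 400) (nat_lit 600) (nat_lit 11208580) (nat_lit 7486600) = true := by decide +kernel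
def g12_16_1 : gOK yB12_16.x P12_16 (nat_lit 1404) (q12_16 :: r12_16) (nat_lit 1) (nat_lit 400) (nat_lit 2) (nat_lit 600) (nat_lit 11000000) (nat_lit 17850000) (nat_lit 12712500) (nat_lit 12712500) [(nat_lit 800), (nat_lit 1130)] = true := by decide +kernel
def v12_16_1 : ivC P12_16 s12_16 w12_16 n12_16 (nat_lit 4) (nat_lit 4940) (nat_lit 1) (nat_lit 400) f168_1_400 f176_1_400 (nat_lit 2) (nat_lit 600) f168_1_600 f176_1_600 (nat_lit 11208580) (nat_lit 7486600) p12_16_1 = true := by decide +kernel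
def p12_16_2 : PF := (PF.cons (PF.cons (PF.cons (PF.cons (PF.leaf (nat_lit 2542012) (nat_lit 13814181) (nat_lit 53294631) (nat_lit 13814181) [(nat_lit 0), (nat_lit 0), (nat_lit 0), (nat_lit 0)]) (PF.cons (PF.leaf (nat_lit 2762674) (nat_lit 407574) (nat_lit 52892961) (nat_lit 13808276) [(nat_lit 407574), (nat_lit 0), (nat_lit 0), (nat_lit 0)]) (PF.cons (PF.leaf (nat_lit 3021695) (nat_lit 442379) (nat_lit 52425757) (nat_lit 13798296) [(nat_lit 442379), (nat_lit 0), (nat_lit 0), (nat_lit 0)]) (PF.cons (PF.leaf (nat_lit 3311375) (nat_lit 472889) (nat_lit 51906690) (nat_lit 13783453) [(nat_lit 472889), (nat_lit 0), (nat_lit 0), (nat_lit 0)]) (PF.cons (PF.leaf (nat_lit 3626756) (nat_lit 500006) (nat_lit 51345647) (nat_lit 13763139) [(nat_lit 500006), (nat_lit 0), (nat_lit 0), (nat_lit 0)]) (PF.cons (PF.leaf (nat_lit 3963916) (nat_lit 524306) (nat_lit 50750366) (nat_lit 13736915) [(nat_lit 524306), (nat_lit 0), (nat_lit 0), (nat_lit 0)]) (PF.cons (PF.leaf (nat_lit 4319650) (nat_lit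 546187) (nat_lit 50127190) (nat_lit 13704499) [(nat_lit 546187), (nat_lit 0), (nat_lit 0), (nat_lit 0)]) (PF.cons (PF.leaf (nat_lit 4691200) (nat_lit 565941) (nat_lit 49481480) (nat_lit 13665743) [(nat_lit 565941), (nat_lit 0),
 (nat_lit 0), (nat_lit 0)]) (PF.cons (PF.leaf (nat_lit 5076180) (nat_lit 583793) (nat_lit 48817846) (nat_lit 13620620) [(nat_lit 583793), (nat_lit 0), (nat_lit 0), (nat_lit 0)]) (PF.cons (PF.leaf (nat_lit 5472455) (nat_lit 599923) (nat_lit 48140305) (nat_lit 13569199) [(nat_lit 599923), (nat_lit 0), (nat_lit 0), (nat_lit 0)]) (PF.cons (PF.leaf (nat_lit 5878118) (nat_lit 614480) (nat_lit 47452376) (nat_lit 13511633) [(nat_lit 614480), (nat_lit 0), (nat_lit 0), (nat_lit 0)]) (PF.cons PF.nil (PF.cons PF.nil (PF.cons PF.nil PF.nil)))))))))))))) (PF.cons (PF.cons (PF.leaf (nat_lit 3178558) (nat_lit 1558515) (nat_lit 51777828) (nat_lit 13772469) [(nat_lit 0), (nat_lit 1558515), (nat_lit 0), (nat_lit 0)]) (PF.cons (PF.leaf (nat_lit 3456532) (nat_lit 480804)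 (nat_lit 51273083) (nat_lit 13753462) [(nat_lit 480804), (nat_lit 1601462), (nat_lit 0), (nat_lit 0)]) (PF.cons (PF.leaf (nat_lit 3762624) (nat_lit 507146) (nat_lit 50723417) (nat_lit 13728874) [(nat_lit 507146), (nat_lit 1642228), (nat_lit 0), (nat_lit 0)]) (PF.cons (PF.leaf (nat_lit 4091655) (nat_lit 530658) (nat_lit 50138174) (nat_lit 13698386) [(nat_lit 530658), (nat_lit 1680275), (nat_lit 0), (nat_lit 0)]) (PF.cons (PF.leaf
 (nat_lit 4439951) (nat_lit 551777) (nat_lit 49524511) (nat_lit 13661800) [(nat_lit 551777), (nat_lit 1715391), (nat_lit 0), (nat_lit 0)]) (PF.cons (PF.leaf (nat_lit 4804491) (nat_lit 570807) (nat_lit 48888217) (nat_lit 13619031) [(nat_lit 570807), (nat_lit 1747528), (nat_lit 0), (nat_lit 0)]) (PF.cons (PF.leaf (nat_lit 5182732) (nat_lit 587977) (nat_lit 48234126) (nat_lit 13570098) [(nat_lit 587977), (nat_lit 1776721), (nat_lit 0), (nat_lit 0)]) (PF.cons (PF.leaf (nat_lit 5572467) (nat_lit 603469) (nat_lit 47566367) (nat_lit 13515103) [(nat_lit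 603469), (nat_lit 1803052), (nat_lit 0), (nat_lit 0)]) (PF.cons (PF.leaf (nat_lit 5971738) (nat_lit 617432) (nat_lit 46888503) (nat_lit 13454221) [(nat_lit 617432), (nat_lit 1826628), (nat_lit 0), (nat_lit 0)]) (PF.cons PF.nil (PF.cons PF.nil (PF.cons PF.nil PF.nil)))))))))))) (PF.cons (PF.cons (PF.leaf (nat_lit 3902328) (nat_lit 1665312) (nat_lit 50089138) (nat_lit 13689049) [(nat_lit 0), (nat_lit 1665312), (nat_lit 0), (nat_lit 0)]) (PF.cons (PF.leaf (nat_lit 4221125) (nat_lit 535850) (nat_lit 49518517) (nat_lit 13654860) [(nat_lit 535850), (nat_lit 1699792), (nat_lit 0), (nat_lit 0)]) (PF.cons (PF.leaf (nat_lit 4560789) (nat_lit 556411)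
 (nat_lit 48917638) (nat_lit 13614601) [(nat_lit 556411), (nat_lit 1731875), (nat_lit 0), (nat_lit 0)]) (PF.cons (PF.leaf (nat_lit 4917519) (nat_lit 574865) (nat_lit 48293191) (nat_lit 13568272) [(nat_lit 574865), (nat_lit 1761375), (nat_lit 0), (nat_lit 0)]) (PF.cons (PF.leaf (nat_lit 5288469) (nat_lit 591468) (nat_lit 47650503) (nat_lit 13515945) [(nat_lit 591468), (nat_lit 1788244), (nat_lit 0), (nat_lit 0)]) (PF.cons (PF.leaf (nat_lit 5671255) (nat_lit 606413) (nat_lit 46993973) (nat_lit 13457762) [(nat_lit 606413), (nat_lit 1812504), (nat_lit 0), (nat_lit 0)]) (PF.cons (PF.leaf (nat_lit 6063835) (nat_lit 619854) (nat_lit 46327313) (nat_lit 13393922) [(nat_lit 619854), (nat_lit 1834224), (nat_lit 0), (nat_lit 0)]) (PF.cons (PF.leaf (nat_lit 6464400) (nat_lit 631921) (nat_lit 45653701) (nat_lit 13324674) [(nat_lit 631921), (nat_lit 1853494), (nat_lit 0), (nat_lit 0)]) (PF.cons PF.nil (PF.cons PF.nil PF.nil)))))))))) (PF.cons (PF.cons (PF.leaf (nat_lit 4683796) (nat_lit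 1746859) (nat_lit 48305363) (nat_lit 13562871) [(nat_lit 0), (nat_lit 1746859), (nat_lit 0), (nat_lit 0)]) (PF.cons (PF.leaf (nat_lit 5031278) (nat_lit 578101) (nat_lit 47695667) (nat_lit 13513496) [(nat_lit
 578101), (nat_lit 1773849), (nat_lit 0), (nat_lit 0)]) (PF.cons (PF.leaf (nat_lit 5394142) (nat_lit 594262) (nat_lit 47066510) (nat_lit 13458229) [(nat_lit 594262), (nat_lit 1798516), (nat_lit 0), (nat_lit 0)]) (PF.cons (PF.leaf (nat_lit 5769442) (nat_lit 608756) (nat_lit 46422814) (nat_lit 13397265) [(nat_lit 608756), (nat_lit 1820821), (nat_lit 0), (nat_lit 0)]) (PF.cons (PF.leaf (nat_lit 6154938) (nat_lit 621753) (nat_lit 45768590) (nat_lit 13330838) [(nat_lit 621753), (nat_lit 1840790), (nat_lit 0), (nat_lit 0)]) (PF.cons (PF.leaf (nat_lit 6548742) (nat_lit 633390) (nat_lit 45107188) (nat_lit 13259215) [(nat_lit 633390), (nat_lit 1858484), (nat_lit 0), (nat_lit 0)]) (PF.cons PF.nil (PF.cons PF.nil (PF.cons PF.nil PF.nil))))))))) (PF.cons (PF.cons (PF.leaf (nat_lit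 5500935) (nat_lit 1807631) (nat_lit 46481324) (nat_lit 13396962) [(nat_lit 0), (nat_lit 1807631), (nat_lit 0), (nat_lit 0)]) (PF.cons (PF.leaf (nat_lit 5867740) (nat_lit 610486) (nat_lit 45852344) (nat_lit 13333662) [(nat_lit 610486), (nat_lit 1828079), (nat_lit 0), (nat_lit 0)]) (PF.cons (PF.leaf (nat_lit 6245640) (nat_lit 623124) (nat_lit 45211955) (nat_lit 13265039) [(nat_lit 623124), (nat_lit 1846392), (nat_lit
 0), (nat_lit 0)]) (PF.cons (PF.leaf (nat_lit 6632304) (nat_lit 634401) (nat_lit 44563819) (nat_lit 13191392) [(nat_lit 634401), (nat_lit 1862598), (nat_lit 0), (nat_lit 0)]) (PF.cons (PF.leaf (nat_lit 7025957) (nat_lit 644442) (nat_lit 43910962) (nat_lit 13113037) [(nat_lit 644442), (nat_lit 1876760), (nat_lit 0), (nat_lit 0)]) (PF.cons PF.nil (PF.cons PF.nil PF.nil))))))) (PF.cons (PF.cons (PF.leaf (nat_lit 6336834) (nat_lit 1851090) (nat_lit 44656807) (nat_lit 13196555) [(nat_lit 0), (nat_lit 1851090), (nat_lit 0), (nat_lit 0)]) (PF.cons (PF.leaf (nat_lit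 6715639) (nat_lit 634946) (nat_lit 44023165) (nat_lit 13121256) [(nat_lit 634946), (nat_lit 1865889), (nat_lit 0), (nat_lit 0)]) (PF.cons (PF.leaf (nat_lit 7102158) (nat_lit 644695) (nat_lit 43384106) (nat_lit 13041393) [(nat_lit 644695), (nat_lit 1878784), (nat_lit 0), (nat_lit 0)]) (PF.cons (PF.leaf (nat_lit 7494527) (nat_lit 653317) (nat_lit 42742364) (nat_lit 12957311) [(nat_lit 653317), (nat_lit 1889836), (nat_lit 0), (nat_lit 0)]) (PF.cons PF.nil PF.nil))))) (PF.cons (PF.cons (PF.leaf (nat_lit 7178510) (nat_lit 1880100) (nat_lit 42860411) (nat_lit 12967795) [(nat_lit 0), (nat_lit 1880100), (nat_lit 0), (nat_lit 0)])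
 (PF.cons (PF.leaf (nat_lit 7563593) (nat_lit 652924) (nat_lit 42232760) (nat_lit 12882672) [(nat_lit 652924), (nat_lit 1890075), (nat_lit 0), (nat_lit 0)]) (PF.cons PF.nil (PF.cons PF.nil PF.nil)))) (PF.cons (PF.cons (PF.leaf (nat_lit 8016116) (nat_lit 1897105) (nat_lit 41112167) (nat_lit 12716907) [(nat_lit 0), (nat_lit 1897105), (nat_lit 0), (nat_lit 0)]) (PF.cons PF.nil PF.nil)) (PF.cons PF.nil PF.nil))))))))) (PF.cons (PF.cons (PF.cons (PF.leaf (nat_lit 3750499) (nat_lit 3801064) (nat_lit 49672094) (nat_lit 13635654) [(nat_lit 0), (nat_lit 0), (nat_lit 3801064), (nat_lit 0)]) (PF.cons (PF.leaf (nat_lit 4037137) (nat_lit 508654) (nat_lit 49162298) (nat_lit 13603510) [(nat_lit 508654), (nat_lit 0), (nat_lit 3834349), (nat_lit 0)]) (PF.cons (PF.leaf (nat_lit 4349921) (nat_lit 532613) (nat_lit 48612040) (nat_lit 13565319) [(nat_lit 532613), (nat_lit 0), (nat_lit 3866226), (nat_lit 0)]) (PF.cons (PF.leaf (nat_lit 4683571) (nat_lit 553691) (nat_lit 48030757) (nat_lit 13521143)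 [(nat_lit 553691), (nat_lit 0), (nat_lit 3895836), (nat_lit 0)]) (PF.cons (PF.leaf (nat_lit 5034417) (nat_lit 572398) (nat_lit 47425474) (nat_lit 13471074) [(nat_lit 572398), (nat_lit 0), (nat_lit 3922671),
 (nat_lit 0)]) (PF.cons (PF.leaf (nat_lit 5399538) (nat_lit 589079) (nat_lit 46801722) (nat_lit 13415247) [(nat_lit 589079), (nat_lit 0), (nat_lit 3946447), (nat_lit 0)]) (PF.cons (PF.leaf (nat_lit 5776502) (nat_lit 603988) (nat_lit 46164016) (nat_lit 13353846) [(nat_lit 603988), (nat_lit 0), (nat_lit 3967021), (nat_lit 0)]) (PF.cons (PF.leaf (nat_lit 6163220) (nat_lit 617319) (nat_lit 45516125) (nat_lit 13287097) [(nat_lit 617319), (nat_lit 0), (nat_lit 3984352), (nat_lit 0)]) (PF.cons (PF.leaf (nat_lit 6557878) (nat_lit 629229) (nat_lit 44861251) (nat_lit 13215261) [(nat_lit 629229), (nat_lit 0), (nat_lit 3998464), (nat_lit 0)]) (PF.cons PF.nil PF.nil)))))))))) (PF.cons (PF.cons (PF.leaf (nat_lit 4481037) (nat_lit 1717588) (nat_lit 47993728) (nat_lit 13511988) [(nat_lit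 0), (nat_lit 1717588), (nat_lit 3885507), (nat_lit 0)]) (PF.cons (PF.leaf (nat_lit 4803716) (nat_lit 556665) (nat_lit 47429850) (nat_lit 13465300) [(nat_lit 556665), (nat_lit 1745847), (nat_lit 3911148), (nat_lit 0)]) (PF.cons (PF.leaf (nat_lit 5145404) (nat_lit 575050) (nat_lit 46839706) (nat_lit 13412690) [(nat_lit 575050), (nat_lit 1771868), (nat_lit 3934446), (nat_lit 0)]) (PF.cons (PF.leaf (nat_lit 5502319)
 (nat_lit 591357) (nat_lit 46229779) (nat_lit 13354386) [(nat_lit 591357), (nat_lit 1795538), (nat_lit 3955036), (nat_lit 0)]) (PF.cons (PF.leaf (nat_lit 5871714) (nat_lit 605872) (nat_lit 45605117) (nat_lit 13290630) [(nat_lit 605872), (nat_lit 1816847), (nat_lit 3972729), (nat_lit 0)]) (PF.cons (PF.leaf (nat_lit 6251347) (nat_lit 618808) (nat_lit 44969797) (nat_lit 13221685) [(nat_lit 618808), (nat_lit 1835841), (nat_lit 3987444), (nat_lit 0)]) (PF.cons (PF.leaf (nat_lit 6639257) (nat_lit 630333) (nat_lit 44327198) (nat_lit 13147836) [(nat_lit 630333), (nat_lit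 1852596), (nat_lit 3999179), (nat_lit 0)]) (PF.cons (PF.leaf (nat_lit 7033820) (nat_lit 640581) (nat_lit 43680164) (nat_lit 13069385) [(nat_lit 640581), (nat_lit 1867207), (nat_lit 4007983), (nat_lit 0)]) (PF.cons PF.nil PF.nil))))))))) (PF.cons (PF.cons (PF.leaf (nat_lit 5258861) (nat_lit 1781883) (nat_lit 46250418) (nat_lit 13350504) [(nat_lit 0), (nat_lit 1781883), (nat_lit 3944123), (nat_lit 0)]) (PF.cons (PF.leaf (nat_lit 5606182) (nat_lit 592917) (nat_lit 45656852) (nat_lit 13290231) [(nat_lit 592917), (nat_lit 1803552), (nat_lit 3961706), (nat_lit 0)]) (PF.cons (PF.leaf (nat_lit 5967262) (nat_lit 607154) (nat_lit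
 45047053) (nat_lit 13224552) [(nat_lit 607154), (nat_lit 1823105), (nat_lit 3976688), (nat_lit 0)]) (PF.cons (PF.leaf (nat_lit 6339258) (nat_lit 619783) (nat_lit 44425646) (nat_lit 13153788) [(nat_lit 619783), (nat_lit 1840538), (nat_lit 3988951), (nat_lit 0)]) (PF.cons (PF.leaf (nat_lit 6720058) (nat_lit 630992) (nat_lit 43796331) (nat_lit 13078259) [(nat_lit 630992), (nat_lit 1855895), (nat_lit 3998461), (nat_lit 0)]) (PF.cons (PF.leaf (nat_lit 7107878) (nat_lit 640926) (nat_lit 43162146) (nat_lit 12998289) [(nat_lit 640926), (nat_lit 1869247), (nat_lit 4005246), (nat_lit 0)]) (PF.cons PF.nil PF.nil))))))) (PF.cons (PF.cons (PF.leaf (nat_lit 6064244) (nat_lit 1828437) (nat_lit 44488921) (nat_lit 13155586) [(nat_lit 0), (nat_lit 1828437), (nat_lit 3978992), (nat_lit 0)]) (PF.cons (PF.leaf (nat_lit 6427642) (nat_lit 620225) (nat_lit 43883050) (nat_lit 13083419) [(nat_lit 620225), (nat_lit 1844387), (nat_lit 3988956), (nat_lit 0)]) (PF.cons (PF.leaf (nat_lit 6800810)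 (nat_lit 631196) (nat_lit 43268200) (nat_lit 13006567) [(nat_lit 631196), (nat_lit 1858422), (nat_lit 3996386), (nat_lit 0)]) (PF.cons (PF.leaf (nat_lit 7181533) (nat_lit 640879) (nat_lit 42647738) (nat_lit 12925388)
 [(nat_lit 640879), (nat_lit 1870587), (nat_lit 4001286), (nat_lit 0)]) (PF.cons (PF.leaf (nat_lit 7568153) (nat_lit 649406) (nat_lit 42024399) (nat_lit 12840233) [(nat_lit 649406), (nat_lit 1880950), (nat_lit 4003704), (nat_lit 0)]) PF.nil))))) (PF.cons (PF.cons (PF.leaf (nat_lit 6882384) (nat_lit 1860220) (nat_lit 42742155) (nat_lit 12932755) [(nat_lit 0), (nat_lit 1860220), (nat_lit 3993018), (nat_lit 0)]) (PF.cons (PF.leaf (nat_lit 7255304) (nat_lit 640426) (nat_lit 42136461) (nat_lit 12850703) [(nat_lit 640426), (nat_lit 1871264), (nat_lit 3996162), (nat_lit 0)]) (PF.cons (PF.leaf (nat_lit 7634895) (nat_lit 648756) (nat_lit 41527065) (nat_lit 12764764) [(nat_lit 648756), (nat_lit 1880619), (nat_lit 3996992), (nat_lit 0)]) (PF.cons PF.nil PF.nil)))) (PF.cons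 (PF.cons (PF.leaf (nat_lit 7702107) (nat_lit 1879719) (nat_lit 41033130) (nat_lit 12687803) [(nat_lit 0), (nat_lit 1879719), (nat_lit 3989282), (nat_lit 0)]) (PF.cons (PF.leaf (nat_lit 8079493) (nat_lit 654870) (nat_lit 40436490) (nat_lit 12597929) [(nat_lit 654870), (nat_lit 1886598), (nat_lit 3986530), (nat_lit 0)]) PF.nil)) (PF.cons PF.nil (PF.cons PF.nil PF.nil)))))))) (PF.cons (PF.cons (PF.cons (PF.leaf (nat_lit
 5041789) (nat_lit 3916792) (nat_lit 45975714) (nat_lit 13299513) [(nat_lit 0), (nat_lit 0), (nat_lit 3916792), (nat_lit 0)]) (PF.cons (PF.leaf (nat_lit 5365906) (nat_lit 572244) (nat_lit 45424867) (nat_lit 13242875) [(nat_lit 572244), (nat_lit 0), (nat_lit 3934412), (nat_lit 0)]) (PF.cons (PF.leaf (nat_lit 5707408) (nat_lit 588731) (nat_lit 44851127) (nat_lit 13180584) [(nat_lit 588731), (nat_lit 0), (nat_lit 3949818), (nat_lit 0)]) (PF.cons (PF.leaf (nat_lit 6062588) (nat_lit 603179) (nat_lit 44260699) (nat_lit 13113042) [(nat_lit 603179), (nat_lit 0),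 (nat_lit 3962765), (nat_lit 0)]) (PF.cons (PF.leaf (nat_lit 6428788) (nat_lit 615901) (nat_lit 43658327) (nat_lit 13040606) [(nat_lit 615901), (nat_lit 0), (nat_lit 3973136), (nat_lit 0)]) (PF.cons (PF.leaf (nat_lit 6803854) (nat_lit 627122) (nat_lit 43047777) (nat_lit 12963622) [(nat_lit 627122), (nat_lit 0), (nat_lit 3980901), (nat_lit 0)]) (PF.cons (PF.leaf (nat_lit 7185980) (nat_lit 637016) (nat_lit 42432117) (nat_lit 12882426) [(nat_lit 637016), (nat_lit 0), (nat_lit 3986084), (nat_lit 0)]) (PF.cons PF.nil (PF.cons PF.nil PF.nil))))))))) (PF.cons (PF.cons (PF.leaf (nat_lit 5811653) (nat_lit 1804078) (nat_lit 44288200) (nat_lit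
 13110757) [(nat_lit 0), (nat_lit 1804078), (nat_lit 3952887), (nat_lit 0)]) (PF.cons (PF.leaf (nat_lit 6157057) (nat_lit 603403) (nat_lit 43714967) (nat_lit 13042158) [(nat_lit 603403), (nat_lit 1821329), (nat_lit 3963477), (nat_lit 0)]) (PF.cons (PF.leaf (nat_lit 6514840) (nat_lit 615976) (nat_lit 43128113) (nat_lit 12968650) [(nat_lit 615976), (nat_lit 1836645), (nat_lit 3971724), (nat_lit 0)]) (PF.cons (PF.leaf (nat_lit 6882263) (nat_lit 627005) (nat_lit 42531964) (nat_lit 12890641) [(nat_lit 627005), (nat_lit 1850050), (nat_lit 3977569), (nat_lit 0)]) (PF.cons (PF.leaf (nat_lit 7257320) (nat_lit 636687) (nat_lit 41929923) (nat_lit 12808508) [(nat_lit 636687), (nat_lit 1861603), (nat_lit 3981013), (nat_lit 0)]) (PF.cons (PF.leaf (nat_lit 7638342) (nat_lit 645174) (nat_lit 41324743) (nat_lit 12722604) [(nat_lit 645174), (nat_lit 1871382), (nat_lit 3982104), (nat_lit 0)]) (PF.cons PF.nil PF.nil))))))) (PF.cons (PF.cons (PF.leaf (nat_lit 6602625) (nat_lit 1838978) (nat_lit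 42598546) (nat_lit 12894354) [(nat_lit 0), (nat_lit 1838978), (nat_lit 3968977), (nat_lit 0)]) (PF.cons (PF.leaf (nat_lit 6961455) (nat_lit 626418) (nat_lit 42018217) (nat_lit 12815705) [(nat_lit 626418),
 (nat_lit 1851202), (nat_lit 3973033), (nat_lit 0)]) (PF.cons (PF.leaf (nat_lit 7328938) (nat_lit 635960) (nat_lit 41430808) (nat_lit 12732956) [(nat_lit 635960), (nat_lit 1861702), (nat_lit 3974860), (nat_lit 0)]) (PF.cons (PF.leaf (nat_lit 7702976) (nat_lit 644284) (nat_lit 40839404) (nat_lit 12646501) [(nat_lit 644284), (nat_lit 1870536), (nat_lit 3974489), (nat_lit 0)]) (PF.cons PF.nil PF.nil))))) (PF.cons (PF.cons (PF.leaf (nat_lit 7401670) (nat_lit 1861210) (nat_lit 40934100) (nat_lit 12655741) [(nat_lit 0), (nat_lit 1861210), (nat_lit 3967669), (nat_lit 0)]) (PF.cons (PF.leaf (nat_lit 7768027) (nat_lit 643039) (nat_lit 40357377) (nat_lit 12569035) [(nat_lit 643039), (nat_lit 1869155), (nat_lit 3965947), (nat_lit 0)]) (PF.cons (PF.leaf (nat_lit 8140196) (nat_lit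 650160) (nat_lit 39778232) (nat_lit 12479027) [(nat_lit 650160), (nat_lit 1875598), (nat_lit 3962218), (nat_lit 0)]) (PF.cons PF.nil PF.nil)))) (PF.cons (PF.cons (PF.leaf (nat_lit 8199126) (nat_lit 1872958) (nat_lit 39313435) (nat_lit 12400224) [(nat_lit 0), (nat_lit 1872958), (nat_lit 3951659), (nat_lit 0)]) (PF.cons PF.nil PF.nil)) (PF.cons PF.nil PF.nil)))))) (PF.cons (PF.cons (PF.cons (PF.leaf (nat_lit 6341931)
 (nat_lit 3944152) (nat_lit 42424482) (nat_lit 12851872) [(nat_lit 0), (nat_lit 0), (nat_lit 3944152), (nat_lit 0)]) (PF.cons (PF.leaf (nat_lit 6684105) (nat_lit 610364) (nat_lit 41874127) (nat_lit 12777122) [(nat_lit 610364), (nat_lit 0), (nat_lit 3949066), (nat_lit 0)]) (PF.cons (PF.leaf (nat_lit 7037490) (nat_lit 621495) (nat_lit 41312270) (nat_lit 12697943) [(nat_lit 621495), (nat_lit 0), (nat_lit 3951869), (nat_lit 0)]) (PF.cons (PF.leaf (nat_lit 7399447) (nat_lit 631146) (nat_lit 40742938) (nat_lit 12614800) [(nat_lit 631146), (nat_lit 0), (nat_lit 3952544),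 (nat_lit 0)]) (PF.cons (PF.leaf (nat_lit 7768062) (nat_lit 639520) (nat_lit 40169259) (nat_lit 12528102) [(nat_lit 639520), (nat_lit 0), (nat_lit 3951122), (nat_lit 0)]) (PF.cons PF.nil (PF.cons PF.nil PF.nil))))))) (PF.cons (PF.cons (PF.leaf (nat_lit 7116725) (nat_lit 1841358) (nat_lit 40811639) (nat_lit 12620209) [(nat_lit 0), (nat_lit 1841358), (nat_lit 3945201), (nat_lit 0)]) (PF.cons (PF.leaf (nat_lit 7470173) (nat_lit 629739) (nat_lit 40258042) (nat_lit 12537040) [(nat_lit 629739), (nat_lit 1850487), (nat_lit 3944501), (nat_lit 0)]) (PF.cons (PF.leaf (nat_lit 7831337) (nat_lit 638053) (nat_lit 39698840) (nat_lit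
 12450291) [(nat_lit 638053), (nat_lit 1858062), (nat_lit 3941837), (nat_lit 0)]) (PF.cons (PF.leaf (nat_lit 8198225) (nat_lit 645216) (nat_lit 39136866) (nat_lit 12360375) [(nat_lit 645216), (nat_lit 1864148), (nat_lit 3937257), (nat_lit 0)]) (PF.cons PF.nil PF.nil))))) (PF.cons (PF.cons (PF.leaf (nat_lit 7895982) (nat_lit 1855764) (nat_lit 39230961) (nat_lit 12371178) [(nat_lit 0), (nat_lit 1855764), (nat_lit 3931714), (nat_lit 0)]) (PF.cons (PF.leaf (nat_lit 8255357) (nat_lit 643343) (nat_lit 38683336) (nat_lit 12281502) [(nat_lit 643343), (nat_lit 1861151), (nat_lit 3926109), (nat_lit 0)]) (PF.cons PF.nil (PF.cons PF.nil PF.nil)))) (PF.cons (PF.cons (PF.leaf (nat_lit 8671276) (nat_lit 1861199) (nat_lit 37697499) (nat_lit 12109549) [(nat_lit 0), (nat_lit 1861199), (nat_lit 3906054), (nat_lit 0)]) (PF.cons PF.nil PF.nil)) (PF.cons PF.nil PF.nil))))) (PF.cons (PF.cons (PF.cons (PF.leaf (nat_lit 7607514) (nat_lit 3910833) (nat_lit 39126855) (nat_lit 12338624) [(nat_lit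 0), (nat_lit 0), (nat_lit 3910833), (nat_lit 0)]) (PF.cons (PF.leaf (nat_lit 7955008) (nat_lit 630733) (nat_lit 38600297) (nat_lit 12252519) [(nat_lit 630733), (nat_lit 0), (nat_lit 3906315), (nat_lit 0)]) (PF.cons
 (PF.leaf (nat_lit 8309457) (nat_lit 637991) (nat_lit 38069283) (nat_lit 12163292) [(nat_lit 637991), (nat_lit 0), (nat_lit 3900063), (nat_lit 0)]) (PF.cons PF.nil (PF.cons PF.nil PF.nil))))) (PF.cons (PF.cons (PF.leaf (nat_lit 8366734) (nat_lit 1845252) (nat_lit 37629245) (nat_lit 12083448) [(nat_lit 0), (nat_lit 1845252), (nat_lit 3887716), (nat_lit 0)]) (PF.cons (PF.leaf (nat_lit 8718895) (nat_lit 641791) (nat_lit 37110234) (nat_lit 11992136) [(nat_lit 641791), (nat_lit 1848527), (nat_lit 3879030), (nat_lit 0)]) (PF.cons PF.nil (PF.cons PF.nil PF.nil)))) (PF.cons (PF.cons (PF.leaf (nat_lit 9120259) (nat_lit 1845552) (nat_lit 36180412) (nat_lit 11819190) [(nat_lit 0), (nat_lit 1845552), (nat_lit 3854526), (nat_lit 0)]) (PF.cons PF.nil PF.nil)) PF.nil))) (PF.cons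 (PF.cons (PF.cons (PF.leaf (nat_lit 8815399) (nat_lit 3837713) (nat_lit 36124353) (nat_lit 11795894) [(nat_lit 0), (nat_lit 0), (nat_lit 3837713), (nat_lit 0)]) (PF.cons (PF.leaf (nat_lit 9160224) (nat_lit 638754) (nat_lit 35633067) (nat_lit 11703996) [(nat_lit 638754), (nat_lit 0), (nat_lit 3826598), (nat_lit 0)]) PF.nil)) (PF.cons PF.nil PF.nil)) (PF.cons PF.nil (PF.cons PF.nil PF.nil)))))))) (PF.cons (PF.cons (PF.cons
 (PF.cons (PF.leaf (nat_lit 4572783) (nat_lit 8800474) (nat_lit 45203427) (nat_lit 13104911) [(nat_lit 0), (nat_lit 0), (nat_lit 0), (nat_lit 8800474)]) (PF.cons (PF.leaf (nat_lit 4854701) (nat_lit 518263) (nat_lit 44742192) (nat_lit 13058302) [(nat_lit 518263), (nat_lit 0), (nat_lit 0), (nat_lit 8790054)]) (PF.cons (PF.leaf (nat_lit 5160571) (nat_lit 540155) (nat_lit 44246638) (nat_lit 13005657) [(nat_lit 540155), (nat_lit 0), (nat_lit 0), (nat_lit 8776205)]) (PF.cons (PF.leaf (nat_lit 5485144) (nat_lit 559039) (nat_lit 43725415) (nat_lit 12947485) [(nat_lit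 559039), (nat_lit 0), (nat_lit 0), (nat_lit 8758794)]) (PF.cons (PF.leaf (nat_lit 5824801) (nat_lit 575499) (nat_lit 43184857) (nat_lit 12884189) [(nat_lit 575499), (nat_lit 0), (nat_lit 0), (nat_lit 8737769)]) (PF.cons (PF.leaf (nat_lit 6176739) (nat_lit 589936) (nat_lit 42629858) (nat_lit 12816126) [(nat_lit 589936), (nat_lit 0), (nat_lit 0), (nat_lit 8713147)]) (PF.cons (PF.leaf (nat_lit 6538689) (nat_lit 602641) (nat_lit 42064336) (nat_lit 12743627) [(nat_lit 602641), (nat_lit 0), (nat_lit 0), (nat_lit 8684997)]) (PF.cons (PF.leaf (nat_lit 6908727) (nat_lit 613838) (nat_lit 41491503) (nat_lit 12667016) [(nat_lit 613838),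
 (nat_lit 0), (nat_lit 0), (nat_lit 8653426)]) (PF.cons (PF.leaf (nat_lit 7285255) (nat_lit 623699) (nat_lit 40914034) (nat_lit 12586607) [(nat_lit 623699), (nat_lit 0), (nat_lit 0), (nat_lit 8618574)]) (PF.cons PF.nil PF.nil)))))))))) (PF.cons (PF.cons (PF.leaf (nat_lit 5277028) (nat_lit 1720962) (nat_lit 43698090) (nat_lit 12938909) [(nat_lit 0), (nat_lit 1720962), (nat_lit 0), (nat_lit 8750850)]) (PF.cons (PF.leaf (nat_lit 5590330) (nat_lit 559978) (nat_lit 43194216) (nat_lit 12879941) [(nat_lit 559978), (nat_lit 1743288), (nat_lit 0), (nat_lit 8731387)]) (PF.cons (PF.leaf (nat_lit 5920646) (nat_lit 576283) (nat_lit 42668730) (nat_lit 12815709) [(nat_lit 576283), (nat_lit 1763421), (nat_lit 0), (nat_lit 8708383)]) (PF.cons (PF.leaf (nat_lit 6264335) (nat_lit 590502) (nat_lit 42127394) (nat_lit 12746675) [(nat_lit 590502), (nat_lit 1781347), (nat_lit 0), (nat_lit 8681887)]) (PF.cons (PF.leaf (nat_lit 6618795) (nat_lit 602961) (nat_lit 41574618) (nat_lit 12673237) [(nat_lit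 602961), (nat_lit 1797125), (nat_lit 0), (nat_lit 8651986)]) (PF.cons (PF.leaf (nat_lit 6981910) (nat_lit 613901) (nat_lit 41013904) (nat_lit 12595757) [(nat_lit 613901), (nat_lit 1810846), (nat_lit 0),
 (nat_lit 8618799)]) (PF.cons (PF.leaf (nat_lit 7351948) (nat_lit 623507) (nat_lit 40448105) (nat_lit 12514572) [(nat_lit 623507), (nat_lit 1822619), (nat_lit 0), (nat_lit 8582471)]) (PF.cons (PF.leaf (nat_lit 7727397) (nat_lit 631928) (nat_lit 39879583) (nat_lit 12430009) [(nat_lit 631928), (nat_lit 1832555), (nat_lit 0), (nat_lit 8543163)]) (PF.cons PF.nil PF.nil))))))))) (PF.cons (PF.cons (PF.leaf (nat_lit 6019290) (nat_lit 1768506) (nat_lit 42150556) (nat_lit 12744544) [(nat_lit 0), (nat_lit 1768506), (nat_lit 0), (nat_lit 8676698)]) (PF.cons (PF.leaf (nat_lit 6353422) (nat_lit 590459) (nat_lit 41624926) (nat_lit 12674991) [(nat_lit 590459), (nat_lit 1784905), (nat_lit 0), (nat_lit 8648623)]) (PF.cons (PF.leaf (nat_lit 6699680) (nat_lit 602780) (nat_lit 41086328) (nat_lit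 12600978) [(nat_lit 602780), (nat_lit 1799360), (nat_lit 0), (nat_lit 8617224)]) (PF.cons (PF.leaf (nat_lit 7055379) (nat_lit 613543) (nat_lit 40538765) (nat_lit 12522932) [(nat_lit 613543), (nat_lit 1811920), (nat_lit 0), (nat_lit 8582642)]) (PF.cons (PF.leaf (nat_lit 7418578) (nat_lit 622957) (nat_lit 39985393) (nat_lit 12441231) [(nat_lit 622957), (nat_lit 1822662), (nat_lit 0), (nat_lit 8545033)]) (PF.cons
 (PF.leaf (nat_lit 7787639) (nat_lit 631180) (nat_lit 39428760) (nat_lit 12356226) [(nat_lit 631180), (nat_lit 1831679), (nat_lit 0), (nat_lit 8504564)]) (PF.cons PF.nil PF.nil))))))) (PF.cons (PF.cons (PF.leaf (nat_lit 6782412) (nat_lit 1800917) (nat_lit 40598580) (nat_lit 12526771) [(nat_lit 0), (nat_lit 1800917), (nat_lit 0), (nat_lit 8580707)]) (PF.cons (PF.leaf (nat_lit 7129770) (nat_lit 612743) (nat_lit 40065459) (nat_lit 12448505) [(nat_lit 612743), (nat_lit 1812378), (nat_lit 0), (nat_lit 8544970)]) (PF.cons (PF.leaf (nat_lit 7485642) (nat_lit 622035) (nat_lit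 39525431) (nat_lit 12366574) [(nat_lit 622035), (nat_lit 1822150), (nat_lit 0), (nat_lit 8506285)]) (PF.cons (PF.leaf (nat_lit 7847977) (nat_lit 630116) (nat_lit 38981349) (nat_lit 12281366) [(nat_lit 630116), (nat_lit 1830303), (nat_lit 0), (nat_lit 8464836)]) (PF.cons (PF.leaf (nat_lit 8215274) (nat_lit 637127) (nat_lit 38435503) (nat_lit 12193233) [(nat_lit 637127), (nat_lit 1836920), (nat_lit 0), (nat_lit 8420804)]) PF.nil))))) (PF.cons (PF.cons (PF.leaf (nat_lit 7553974) (nat_lit 1821110) (nat_lit 39067585) (nat_lit 12290553) [(nat_lit 0), (nat_lit 1821110), (nat_lit 0), (nat_lit 8466231)]) (PF.cons (PF.leaf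
 (nat_lit 7908893) (nat_lit 628720) (nat_lit 38536879) (nat_lit 12205411) [(nat_lit 628720), (nat_lit 1828452), (nat_lit 0), (nat_lit 8423992)]) (PF.cons (PF.leaf (nat_lit 8269592) (nat_lit 635630) (nat_lit 38003570) (nat_lit 12117352) [(nat_lit 635630), (nat_lit 1834345), (nat_lit 0), (nat_lit 8379247)]) (PF.cons PF.nil PF.nil)))) (PF.cons (PF.cons (PF.leaf (nat_lit 8324814) (nat_lit 1831362) (nat_lit 37574688) (nat_lit 12040566) [(nat_lit 0), (nat_lit 1831362), (nat_lit 0), (nat_lit 8336744)]) (PF.cons (PF.leaf (nat_lit 8683021) (nat_lit 639711) (nat_lit 37053255) (nat_lit 11950253) [(nat_lit 639711), (nat_lit 1835277), (nat_lit 0), (nat_lit 8289203)]) PF.nil)) (PF.cons PF.nil (PF.cons PF.nil PF.nil)))))))) (PF.cons (PF.cons (PF.cons (PF.leaf (nat_lit 5793891) (nat_lit 3847360) (nat_lit 41924939) (nat_lit 12695290) [(nat_lit 0), (nat_lit 0), (nat_lit 3847360), (nat_lit 8641223)]) (PF.cons (PF.leaf (nat_lit 6106875) (nat_lit 570287) (nat_lit 41436454) (nat_lit 12630318)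 [(nat_lit 570287), (nat_lit 0), (nat_lit 3856564), (nat_lit 8615187)]) (PF.cons (PF.leaf (nat_lit 6435543) (nat_lit 584954) (nat_lit 40928975) (nat_lit 12560391) [(nat_lit 584954), (nat_lit 0), (nat_lit 3863758),
 (nat_lit 8585779)]) (PF.cons (PF.leaf (nat_lit 6776310) (nat_lit 597603) (nat_lit 40407962) (nat_lit 12486064) [(nat_lit 597603), (nat_lit 0), (nat_lit 3868823), (nat_lit 8553150)]) (PF.cons (PF.leaf (nat_lit 7126704) (nat_lit 608574) (nat_lit 39877529) (nat_lit 12407796) [(nat_lit 608574), (nat_lit 0), (nat_lit 3871727), (nat_lit 8517460)]) (PF.cons (PF.leaf (nat_lit 7484703) (nat_lit 618112) (nat_lit 39340898) (nat_lit 12325987) [(nat_lit 618112), (nat_lit 0), (nat_lit 3872490), (nat_lit 8478874)]) (PF.cons (PF.leaf (nat_lit 7848666) (nat_lit 626402) (nat_lit 38800661) (nat_lit 12240995) [(nat_lit 626402), (nat_lit 0), (nat_lit 3871172), (nat_lit 8437565)]) (PF.cons PF.nil (PF.cons PF.nil PF.nil))))))))) (PF.cons (PF.cons (PF.leaf (nat_lit 6526070) (nat_lit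 1777692) (nat_lit 40436416) (nat_lit 12485406) [(nat_lit 0), (nat_lit 1777692), (nat_lit 3860171), (nat_lit 8549124)]) (PF.cons (PF.leaf (nat_lit 6857278) (nat_lit 596577) (nat_lit 39931327) (nat_lit 12411166) [(nat_lit 596577), (nat_lit 1790641), (nat_lit 3863606), (nat_lit 8515493)]) (PF.cons (PF.leaf (nat_lit 7199512) (nat_lit 607515) (nat_lit 39415191) (nat_lit 12332882) [(nat_lit 607515), (nat_lit 1801821), (nat_lit
 3865049), (nat_lit 8478836)]) (PF.cons (PF.leaf (nat_lit 7550184) (nat_lit 616968) (nat_lit 38891738) (nat_lit 12251024) [(nat_lit 616968), (nat_lit 1811298), (nat_lit 3864501), (nat_lit 8439344)]) (PF.cons (PF.leaf (nat_lit 7907441) (nat_lit 625147) (nat_lit 38363866) (nat_lit 12165993) [(nat_lit 625147), (nat_lit 1819153), (nat_lit 3862003), (nat_lit 8397206)]) (PF.cons (PF.leaf (nat_lit 8269759) (nat_lit 632212) (nat_lit 37833891) (nat_lit 12078147) [(nat_lit 632212), (nat_lit 1825479), (nat_lit 3857621), (nat_lit 8352609)]) (PF.cons PF.nil PF.nil)))))))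 (PF.cons (PF.cons (PF.leaf (nat_lit 7274409) (nat_lit 1801254) (nat_lit 38953732) (nat_lit 12256380) [(nat_lit 0), (nat_lit 1801254), (nat_lit 3857419), (nat_lit 8438772)]) (PF.cons (PF.leaf (nat_lit 7616838) (nat_lit 615427) (nat_lit 38444607) (nat_lit 12174792) [(nat_lit 615427), (nat_lit 1809862), (nat_lit 3855665), (nat_lit 8398594)]) (PF.cons (PF.leaf (nat_lit 7966908) (nat_lit 623561) (nat_lit 37929907) (nat_lit 12089981) [(nat_lit 623561), (nat_lit 1816951), (nat_lit 3852083), (nat_lit 8355813)]) (PF.cons (PF.leaf (nat_lit 8322657) (nat_lit 630553) (nat_lit 37412253) (nat_lit 12002347) [(nat_lit 630553), (nat_lit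
 1822596), (nat_lit 3846726), (nat_lit 8310632)]) (PF.cons PF.nil PF.nil))))) (PF.cons (PF.cons (PF.leaf (nat_lit 8027864) (nat_lit 1814320) (nat_lit 37498152) (nat_lit 12012894) [(nat_lit 0), (nat_lit 1814320), (nat_lit 3841433), (nat_lit 8313370)]) (PF.cons (PF.leaf (nat_lit 8376371) (nat_lit 628597) (nat_lit 36993549) (nat_lit 11925715) [(nat_lit 628597), (nat_lit 1819327), (nat_lit 3835189), (nat_lit 8267777)]) (PF.cons (PF.leaf (nat_lit 8729996) (nat_lit 634545) (nat_lit 36487200) (nat_lit 11836042) [(nat_lit 634545), (nat_lit 1823041), (nat_lit 3827334), (nat_lit 8220020)]) (PF.cons PF.nil PF.nil)))) (PF.cons (PF.cons (PF.leaf (nat_lit 8778412) (nat_lit 1818872) (nat_lit 36083650) (nat_lit 11759163) [(nat_lit 0), (nat_lit 1818872), (nat_lit 3814449), (nat_lit 8176058)]) (PF.cons PF.nil PF.nil)) (PF.cons PF.nil PF.nil)))))) (PF.cons (PF.cons (PF.cons (PF.leaf (nat_lit 7012663) (nat_lit 3834239) (nat_lit 38813296) (nat_lit 12217959) [(nat_lit 0), (nat_lit 0), (nat_lit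 3834239), (nat_lit 8409078)]) (PF.cons (PF.leaf (nat_lit 7340092) (nat_lit 600096) (nat_lit 38329835) (nat_lit 12140479) [(nat_lit 600096), (nat_lit 0), (nat_lit 3833607), (nat_lit 8371187)]) (PF.cons (PF.leaf
 (nat_lit 7677606) (nat_lit 609834) (nat_lit 37836897) (nat_lit 12059342) [(nat_lit 609834), (nat_lit 0), (nat_lit 3831178), (nat_lit 8330547)]) (PF.cons (PF.leaf (nat_lit 8022707) (nat_lit 618157) (nat_lit 37337948) (nat_lit 11975041) [(nat_lit 618157), (nat_lit 0), (nat_lit 3826981), (nat_lit 8287387)]) (PF.cons (PF.leaf (nat_lit 8373629) (nat_lit 625275) (nat_lit 36835655) (nat_lit 11887991) [(nat_lit 625275), (nat_lit 0), (nat_lit 3821073), (nat_lit 8241917)]) (PF.cons PF.nil (PF.cons PF.nil PF.nil))))))) (PF.cons (PF.cons (PF.leaf (nat_lit 7745267) (nat_lit 1795886) (nat_lit 37401246) (nat_lit 11981716) [(nat_lit 0), (nat_lit 1795886), (nat_lit 3820966), (nat_lit 8288030)]) (PF.cons (PF.leaf (nat_lit 8082271) (nat_lit 616028) (nat_lit 36916303) (nat_lit 11898073)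 [(nat_lit 616028), (nat_lit 1802122), (nat_lit 3815861), (nat_lit 8244562)]) (PF.cons (PF.leaf (nat_lit 8426174) (nat_lit 623164) (nat_lit 36426833) (nat_lit 11811596) [(nat_lit 623164), (nat_lit 1806987), (nat_lit 3809135), (nat_lit 8198794)]) (PF.cons (PF.leaf (nat_lit 8775107) (nat_lit 629221) (nat_lit 35935246) (nat_lit 11722689) [(nat_lit 629221), (nat_lit 1810557), (nat_lit 3800856), (nat_lit 8150942)]) (PF.cons
 PF.nil PF.nil))))) (PF.cons (PF.cons (PF.leaf (nat_lit 8480403) (nat_lit 1803106) (nat_lit 36020203) (nat_lit 11734356) [(nat_lit 0), (nat_lit 1803106), (nat_lit 3796605), (nat_lit 8154827)]) (PF.cons (PF.leaf (nat_lit 8822286) (nat_lit 626825) (nat_lit 35541215) (nat_lit 11646204) [(nat_lit 626825), (nat_lit 1806181), (nat_lit 3787669), (nat_lit 8106864)]) (PF.cons PF.nil (PF.cons PF.nil PF.nil)))) (PF.cons (PF.cons (PF.leaf (nat_lit 9210989) (nat_lit 1803009) (nat_lit 34681646) (nat_lit 11479638) [(nat_lit 0), (nat_lit 1803009), (nat_lit 3763109), (nat_lit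 8012281)]) (PF.cons PF.nil PF.nil)) (PF.cons PF.nil PF.nil))))) (PF.cons (PF.cons (PF.cons (PF.leaf (nat_lit 8195985) (nat_lit 3777725) (nat_lit 35937959) (nat_lit 11706089) [(nat_lit 0), (nat_lit 0), (nat_lit 3777725), (nat_lit 8131587)]) (PF.cons (PF.leaf (nat_lit 8527222) (nat_lit 614944) (nat_lit 35476890) (nat_lit 11621404) [(nat_lit 614944), (nat_lit 0), (nat_lit 3769936), (nat_lit 8085765)]) (PF.cons (PF.leaf (nat_lit 8864742) (nat_lit 621216) (nat_lit 35012120) (nat_lit 11534226) [(nat_lit 621216), (nat_lit 0), (nat_lit 3760708), (nat_lit 8037908)]) (PF.cons PF.nil PF.nil)))) (PF.cons (PF.cons (PF.leaf (nat_lit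
 8912851) (nat_lit 1788427) (nat_lit 34629430) (nat_lit 11457528) [(nat_lit 0), (nat_lit 1788427), (nat_lit 3746777), (nat_lit 7993094)]) (PF.cons (PF.leaf (nat_lit 9248006) (nat_lit 623728) (nat_lit 34175247) (nat_lit 11369241) [(nat_lit 623728), (nat_lit 1789901), (nat_lit 3735713), (nat_lit 7943551)]) PF.nil)) (PF.cons PF.nil PF.nil))) (PF.cons (PF.cons (PF.cons (PF.leaf (nat_lit 9326470) (nat_lit 3693313) (nat_lit 33321093) (nat_lit 11184359) [(nat_lit 0), (nat_lit 0), (nat_lit 3693313), (nat_lit 7830105)]) (PF.cons PF.nil PF.nil)) (PF.cons PF.nil PF.nil)) (PF.cons PF.nil PF.nil)))))) (PF.cons (PF.cons (PF.cons (PF.cons (PF.leaf (nat_lit 6466389) (nat_lit 8299066) (nat_lit 38426301) (nat_lit 12084378) [(nat_lit 0), (nat_lit 0), (nat_lit 0), (nat_lit 8299066)]) (PF.cons (PF.leaf (nat_lit 6768006) (nat_lit 563114) (nat_lit 37994321) (nat_lit 12016490) [(nat_lit 563114), (nat_lit 0), (nat_lit 0), (nat_lit 8267443)]) (PF.cons (PF.leaf (nat_lit 7083967) (nat_lit 576323)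 (nat_lit 37546285) (nat_lit 11944230) [(nat_lit 576323), (nat_lit 0), (nat_lit 0), (nat_lit 8232825)]) (PF.cons (PF.leaf (nat_lit 7410825) (nat_lit 587562) (nat_lit 37086972) (nat_lit 11868227) [(nat_lit 587562),
 (nat_lit 0), (nat_lit 0), (nat_lit 8195461)]) (PF.cons (PF.leaf (nat_lit 7746230) (nat_lit 597185) (nat_lit 36619951) (nat_lit 11788978) [(nat_lit 597185), (nat_lit 0), (nat_lit 0), (nat_lit 8155571)]) (PF.cons (PF.leaf (nat_lit 8088321) (nat_lit 605444) (nat_lit 36147989) (nat_lit 11706895) [(nat_lit 605444), (nat_lit 0), (nat_lit 0), (nat_lit 8113352)]) (PF.cons (PF.leaf (nat_lit 8435592) (nat_lit 612533) (nat_lit 35673287) (nat_lit 11622335) [(nat_lit 612533), (nat_lit 0), (nat_lit 0), (nat_lit 8068994)]) (PF.cons PF.nil (PF.cons PF.nil PF.nil))))))))) (PF.cons (PF.cons (PF.leaf (nat_lit 7163340) (nat_lit 1739258) (nat_lit 37115413) (nat_lit 11868810) [(nat_lit 0), (nat_lit 1739258), (nat_lit 0), (nat_lit 8192664)]) (PF.cons (PF.leaf (nat_lit 7480939) (nat_lit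 585712) (nat_lit 36670466) (nat_lit 11793557) [(nat_lit 585712), (nat_lit 1749132), (nat_lit 0), (nat_lit 8154972)]) (PF.cons (PF.leaf (nat_lit 7808522) (nat_lit 595385) (nat_lit 36216288) (nat_lit 11714901) [(nat_lit 595385), (nat_lit 1757388), (nat_lit 0), (nat_lit 8114732)]) (PF.cons (PF.leaf (nat_lit 8143644) (nat_lit 603638) (nat_lit 35756101) (nat_lit 11633330) [(nat_lit 603638), (nat_lit 1764114), (nat_lit 0),
 (nat_lit 8072176)]) (PF.cons (PF.leaf (nat_lit 8484580) (nat_lit 610687) (nat_lit 35292389) (nat_lit 11549245) [(nat_lit 610687), (nat_lit 1769407), (nat_lit 0), (nat_lit 8027511)]) (PF.cons PF.nil (PF.cons PF.nil PF.nil))))))) (PF.cons (PF.cons (PF.leaf (nat_lit 7873160) (nat_lit 1754969) (nat_lit 35813444) (nat_lit 11639704) [(nat_lit 0), (nat_lit 1754969), (nat_lit 0), (nat_lit 8072862)]) (PF.cons (PF.leaf (nat_lit 8200412) (nat_lit 601487) (nat_lit 35365994) (nat_lit 11558916) [(nat_lit 601487), (nat_lit 1761053), (nat_lit 0), (nat_lit 8030154)]) (PF.cons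 (PF.leaf (nat_lit 8534557) (nat_lit 608559) (nat_lit 34913938) (nat_lit 11475519) [(nat_lit 608559), (nat_lit 1765783), (nat_lit 0), (nat_lit 7985333)]) (PF.cons (PF.leaf (nat_lit 8873745) (nat_lit 614558) (nat_lit 34459519) (nat_lit 11389901) [(nat_lit 614558), (nat_lit 1769245), (nat_lit 0), (nat_lit 7938612)]) (PF.cons PF.nil PF.nil))))) (PF.cons (PF.cons (PF.leaf (nat_lit 8586288) (nat_lit 1761839) (nat_lit 34537357) (nat_lit 11401076) [(nat_lit 0), (nat_lit 1761839), (nat_lit 0), (nat_lit 7942429)]) (PF.cons (PF.leaf (nat_lit 8918645) (nat_lit 612167) (nat_lit 34094400) (nat_lit 11316298) [(nat_lit 612167), (nat_lit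
 1764841), (nat_lit 0), (nat_lit 7895711)]) (PF.cons PF.nil (PF.cons PF.nil PF.nil)))) (PF.cons (PF.cons (PF.leaf (nat_lit 9295899) (nat_lit 1761657) (nat_lit 33298046) (nat_lit 11156329) [(nat_lit 0), (nat_lit 1761657), (nat_lit 0), (nat_lit 7803903)]) (PF.cons PF.nil PF.nil)) (PF.cons PF.nil PF.nil)))))) (PF.cons (PF.cons (PF.cons (PF.leaf (nat_lit 7613103) (nat_lit 3711450) (nat_lit 35699614) (nat_lit 11605608) [(nat_lit 0), (nat_lit 0), (nat_lit 3711450), (nat_lit 8046069)]) (PF.cons (PF.leaf (nat_lit 7926716) (nat_lit 586942) (nat_lit 35274176) (nat_lit 11528873) [(nat_lit 586942), (nat_lit 0), (nat_lit 3707302), (nat_lit 8005758)]) (PF.cons (PF.leaf (nat_lit 8249548) (nat_lit 595600) (nat_lit 34840708) (nat_lit 11449049) [(nat_lit 595600), (nat_lit 0), (nat_lit 3701602), (nat_lit 7963125)]) (PF.cons (PF.leaf (nat_lit 8579220) (nat_lit 602908) (nat_lit 34402205) (nat_lit 11366630) [(nat_lit 602908), (nat_lit 0), (nat_lit 3694405), (nat_lit 7918423)]) (PF.cons (PF.leaf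 (nat_lit 8914091) (nat_lit 609081) (nat_lit 33960956) (nat_lit 11282016) [(nat_lit 609081), (nat_lit 0), (nat_lit 3685781), (nat_lit 7871866)]) PF.nil))))) (PF.cons (PF.cons (PF.leaf (nat_lit 8308019) (nat_lit
 1744828) (nat_lit 34460334) (nat_lit 11374037) [(nat_lit 0), (nat_lit 1744828), (nat_lit 3689434), (nat_lit 7920088)]) (PF.cons (PF.leaf (nat_lit 8629998) (nat_lit 600333) (nat_lit 34034163) (nat_lit 11292644) [(nat_lit 600333), (nat_lit 1749054), (nat_lit 3681643), (nat_lit 7875486)]) (PF.cons (PF.leaf (nat_lit 8958260) (nat_lit 606577) (nat_lit 33604161) (nat_lit 11208939) [(nat_lit 606577), (nat_lit 1752056), (nat_lit 3672488), (nat_lit 7829006)]) (PF.cons PF.nil PF.nil)))) (PF.cons (PF.cons (PF.leaf (nat_lit 9004336) (nat_lit 1747238) (nat_lit 33249166) (nat_lit 11135294) [(nat_lit 0), (nat_lit 1747238), (nat_lit 3658765), (nat_lit 7785554)]) (PF.cons (PF.leaf (nat_lit 9330482) (nat_lit 609103) (nat_lit 32828394) (nat_lit 11050684) [(nat_lit 609103), (nat_lit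 1748748), (nat_lit 3647909), (nat_lit 7737611)]) PF.nil)) (PF.cons PF.nil (PF.cons PF.nil PF.nil))))) (PF.cons (PF.cons (PF.cons (PF.leaf (nat_lit 8725387) (nat_lit 3641790) (nat_lit 33183896) (nat_lit 11110938) [(nat_lit 0), (nat_lit 0), (nat_lit 3641790), (nat_lit 7765198)]) (PF.cons (PF.leaf (nat_lit 9041871) (nat_lit 597931) (nat_lit 32778452) (nat_lit 11029597) [(nat_lit 597931), (nat_lit 0), (nat_lit 3632079),
 (nat_lit 7719335)]) (PF.cons (PF.leaf (nat_lit 9364153) (nat_lit 603456) (nat_lit 32369798) (nat_lit 10946204) [(nat_lit 603456), (nat_lit 0), (nat_lit 3621150), (nat_lit 7671797)]) (PF.cons PF.nil PF.nil)))) (PF.cons (PF.cons (PF.leaf (nat_lit 9405075) (nat_lit 1730238) (nat_lit 32035226) (nat_lit 10873768) [(nat_lit 0), (nat_lit 1730238), (nat_lit 3606557), (nat_lit 7628231)]) (PF.cons PF.nil PF.nil)) (PF.cons PF.nil PF.nil))) (PF.cons (PF.cons (PF.cons (PF.leaf (nat_lit 9789584) (nat_lit 3552224) (nat_lit 30891169) (nat_lit 10617619) [(nat_lit 0), (nat_lit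 0), (nat_lit 3552224), (nat_lit 7471675)]) (PF.cons PF.nil PF.nil)) (PF.cons PF.nil PF.nil)) (PF.cons PF.nil PF.nil))))) (PF.cons (PF.cons (PF.cons (PF.cons (PF.leaf (nat_lit 8156910) (nat_lit 7693076) (nat_lit 33002121) (nat_lit 11027461) [(nat_lit 0), (nat_lit 0), (nat_lit 0), (nat_lit 7693076)]) (PF.cons (PF.leaf (nat_lit 8457711) (nat_lit 572301) (nat_lit 32626395) (nat_lit 10953315) [(nat_lit 572301), (nat_lit 0), (nat_lit 0), (nat_lit 7652266)]) (PF.cons (PF.leaf (nat_lit 8767049) (nat_lit 580103) (nat_lit 32243719) (nat_lit 10876511) [(nat_lit 580103), (nat_lit 0), (nat_lit 0), (nat_lit 7609458)]) (PF.cons (PF.leaf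
 (nat_lit 9082643) (nat_lit 586618) (nat_lit 31856699) (nat_lit 10797525) [(nat_lit 586618), (nat_lit 0), (nat_lit 0), (nat_lit 7564911)]) (PF.cons PF.nil PF.nil))))) (PF.cons (PF.cons (PF.leaf (nat_lit 8818131) (nat_lit 1691626) (nat_lit 31910051) (nat_lit 10805313) [(nat_lit 0), (nat_lit 1691626), (nat_lit 0), (nat_lit 7567273)]) (PF.cons (PF.leaf (nat_lit 9126407) (nat_lit 583773) (nat_lit 31533849) (nat_lit 10727538) [(nat_lit 583773), (nat_lit 1694434), (nat_lit 0), (nat_lit 7523072)]) (PF.cons (PF.leaf (nat_lit 9440482) (nat_lit 589325) (nat_lit 31154299) (nat_lit 10647828) [(nat_lit 589325), (nat_lit 1696140), (nat_lit 0), (nat_lit 7477298)]) (PF.cons PF.nil PF.nil)))) (PF.cons (PF.cons (PF.leaf (nat_lit 9480088) (nat_lit 1690795) (nat_lit 30842718) (nat_lit 10578517) [(nat_lit 0), (nat_lit 1690795), (nat_lit 0), (nat_lit 7435328)]) (PF.cons PF.nil PF.nil)) PF.nil))) (PF.cons (PF.cons (PF.cons (PF.leaf (nat_lit 9207374) (nat_lit 3507829) (nat_lit 30790692) (nat_lit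 10557603) [(nat_lit 0), (nat_lit 0), (nat_lit 3507829), (nat_lit 7417562)]) (PF.cons (PF.leaf (nat_lit 9510471) (nat_lit 580548) (nat_lit 30432364) (nat_lit 10480497) [(nat_lit 580548), (nat_lit 0), (nat_lit
 3497052), (nat_lit 7372783)]) (PF.cons PF.nil PF.nil))) (PF.cons (PF.cons (PF.leaf (nat_lit 9854180) (nat_lit 1672628) (nat_lit 29776983) (nat_lit 10333880) [(nat_lit 0), (nat_lit 1672628), (nat_lit 3470525), (nat_lit 7284931)]) PF.nil) PF.nil)) (PF.cons PF.nil PF.nil))) (PF.cons (PF.cons (PF.cons (PF.cons (PF.leaf (nat_lit 9650649) (nat_lit 7091217) (nat_lit 28697677) (nat_lit 10046266) [(nat_lit 0), (nat_lit 0), (nat_lit 0), (nat_lit 7091217)]) (PF.cons (PF.leaf (nat_lit 9941554) (nat_lit 563298) (nat_lit 28379308) (nat_lit 9973715) [(nat_lit 563298), (nat_lit 0), (nat_lit 0), (nat_lit 7048122)]) PF.nil)) (PF.cons PF.nil PF.nil)) (PF.cons PF.nil PF.nil)) (PF.cons PF.nil (PF.cons PF.nil (PF.cons PF.nil PF.nil))))))))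

def p12_16_2_0 : pfC (piC [(nat_lit 35755509), (nat_lit 23968959), (nat_lit 17897616), (nat_lit 12073119)] (nat_lit 7486600)) p12_16_2 (nat_lit 4) (nat_lit 0) (nat_lit 1) = true := by decide +kernel
def p12_16_2_1 : pfC (piC [(nat_lit 35755509), (nat_lit 23968959), (nat_lit 17897616), (nat_lit 12073119)] (nat_lit 7486600)) p12_16_2 (nat_lit 4) (nat_lit 1) (nat_lit 2) = true := by decide +kernel
def p12_16_2_2 : pfC (piC [(nat_lit 35755509), (nat_lit 23968959), (nat_lit 17897616), (nat_lit 12073119)] (nat_lit 7486600)) p12_16_2 (nat_lit 4) (nat_lit 2) (nat_lit 3) = true := by decide +kernel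
def p12_16_2_3 : pfC (piC [(nat_lit 35755509), (nat_lit 23968959), (nat_lit 17897616), (nat_lit 12073119)] (nat_lit 7486600)) p12_16_2 (nat_lit 4) (nat_lit 3) (nat_lit 4) = true := by decide +kernel
def p12_16_2_4 : pfC (piC [(nat_lit 35755509), (nat_lit 23968959), (nat_lit 17897616), (nat_lit 12073119)] (nat_lit 7486600)) p12_16_2 (nat_lit 4) (nat_lit 4) (nat_lit 5) = true := by decide +kernel
def p12_16_2_5 : pfC (piC [(nat_lit 35755509), (nat_lit 23968959), (nat_lit 17897616), (nat_lit 12073119)] (nat_lit 7486600)) p12_16_2 (nat_lit 4) (nat_lit 5) (nat_lit 6) = true := by decide +kernel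
def p12_16_2_6 : pfC (piC [(nat_lit 35755509), (nat_lit 23968959), (nat_lit 17897616), (nat_lit 12073119)] (nat_lit 7486600)) p12_16_2 (nat_lit 4) (nat_lit 6) (nat_lit 7) = true := by decide +kernel
def p12_16_2_7 : pfC (piC [(nat_lit 35755509), (nat_lit 23968959), (nat_lit 17897616), (nat_lit 12073119)] (nat_lit 7486600)) p12_16_2 (nat_lit 4) (nat_lit 7) (nat_lit 8) = true := by decide +kernel
def p12_16_2_8 : pfC (piC [(nat_lit 35755509), (nat_lit 23968959), (nat_lit 17897616), (nat_lit 12073119)] (nat_lit 7486600)) p12_16_2 (nat_lit 4) (nat_lit 8) (nat_lit 9) = true := by decide +kernel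
def p12_16_2_9 : pfC (piC [(nat_lit 35755509), (nat_lit 23968959), (nat_lit 17897616), (nat_lit 12073119)] (nat_lit 7486600)) p12_16_2 (nat_lit 4) (nat_lit 9) (nat_lit 10) = true := by decide +kernel
def p12_16_2_10 : pfC (piC [(nat_lit 35755509), (nat_lit 23968959), (nat_lit 17897616), (nat_lit 12073119)] (nat_lit 7486600)) p12_16_2 (nat_lit 4) (nat_lit 10) (nat_lit 11) = true := by decide +kernel
def p12_16_2_11 : pfC (piC [(nat_lit 35755509), (nat_lit 23968959), (nat_lit 17897616), (nat_lit 12073119)] (nat_lit 7486600)) p12_16_2 (nat_lit 4) (nat_lit 11) (nat_lit 12) = true := by decide +kernel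
def p12_16_2_12 : pfC (piC [(nat_lit 35755509), (nat_lit 23968959), (nat_lit 17897616), (nat_lit 12073119)] (nat_lit 7486600)) p12_16_2 (nat_lit 4) (nat_lit 12) (nat_lit 13) = true := by decide +kernel
def p12_16_2_13 : pfC (piC [(nat_lit 35755509), (nat_lit 23968959), (nat_lit 17897616), (nat_lit 12073119)] (nat_lit 7486600)) p12_16_2 (nat_lit 4) (nat_lit 13) (nat_lit 14) = true := by decide +kernel
def p12_16_2_14 : pfC (piC [(nat_lit 35755509), (nat_lit 23968959), (nat_lit 17897616), (nat_lit 12073119)] (nat_lit 7486600)) p12_16_2 (nat_lit 4) (nat_lit 14) (nat_lit 15) = true := by decide +kernel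
def p12_16_2_15 : pfC (piC [(nat_lit 35755509), (nat_lit 23968959), (nat_lit 17897616), (nat_lit 12073119)] (nat_lit 7486600)) p12_16_2 (nat_lit 4) (nat_lit 15) (nat_lit 16) = true := by decide +kernel
def p12_16_2_16 : pfC (piC [(nat_lit 35755509), (nat_lit 23968959), (nat_lit 17897616), (nat_lit 12073119)] (nat_lit 7486600)) p12_16_2 (nat_lit 4) (nat_lit 16) (nat_lit 17) = true := by decide +kernel
def p12_16_2_17 : pfC (piC [(nat_lit 35755509), (nat_lit 23968959), (nat_lit 17897616), (nat_lit 12073119)] (nat_lit 7486600)) p12_16_2 (nat_lit 4) (nat_lit 17) (nat_lit 18) = true := by decide +kernel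
def p12_16_2_18 : pfC (piC [(nat_lit 35755509), (nat_lit 23968959), (nat_lit 17897616), (nat_lit 12073119)] (nat_lit 7486600)) p12_16_2 (nat_lit 4) (nat_lit 18) (nat_lit 19) = true := by decide +kernel
def p12_16_2_19 : pfC (piC [(nat_lit 35755509), (nat_lit 23968959), (nat_lit 17897616), (nat_lit 12073119)] (nat_lit 7486600)) p12_16_2 (nat_lit 4) (nat_lit 19) (nat_lit 20) = true := by decide +kernel
def p12_16_2_20 : pfC (piC [(nat_lit 35755509), (nat_lit 23968959), (nat_lit 17897616), (nat_lit 12073119)] (nat_lit 7486600)) p12_16_2 (nat_lit 4) (nat_lit 20) (nat_lit 21) = true := by decide +kernel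
def p12_16_2_21 : pfC (piC [(nat_lit 35755509), (nat_lit 23968959), (nat_lit 17897616), (nat_lit 12073119)] (nat_lit 7486600)) p12_16_2 (nat_lit 4) (nat_lit 21) (nat_lit 22) = true := by decide +kernel
def p12_16_2_22 : pfC (piC [(nat_lit 35755509), (nat_lit 23968959), (nat_lit 17897616), (nat_lit 12073119)] (nat_lit 7486600)) p12_16_2 (nat_lit 4) (nat_lit 22) (nat_lit 23) = true := by decide +kernel
def p12_16_2_23 : pfC (piC [(nat_lit 35755509), (nat_lit 23968959), (nat_lit 17897616), (nat_lit 12073119)] (nat_lit 7486600)) p12_16_2 (nat_lit 4) (nat_lit 23) (nat_lit 24) = true := by decide +kernel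
def p12_16_2_24 : pfC (piC [(nat_lit 35755509), (nat_lit 23968959), (nat_lit 17897616), (nat_lit 12073119)] (nat_lit 7486600)) p12_16_2 (nat_lit 4) (nat_lit 24) (nat_lit 25) = true := by decide +kernel
def p12_16_2_25 : pfC (piC [(nat_lit 35755509), (nat_lit 23968959), (nat_lit 17897616), (nat_lit 12073119)] (nat_lit 7486600)) p12_16_2 (nat_lit 4) (nat_lit 25) (nat_lit 26) = true := by decide +kernel
def p12_16_2_26 : pfC (piC [(nat_lit 35755509), (nat_lit 23968959), (nat_lit 17897616), (nat_lit 12073119)] (nat_lit 7486600)) p12_16_2 (nat_lit 4) (nat_lit 26) (nat_lit 27) = true := by decide +kernel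
def p12_16_2_27 : pfC (piC [(nat_lit 35755509), (nat_lit 23968959), (nat_lit 17897616), (nat_lit 12073119)] (nat_lit 7486600)) p12_16_2 (nat_lit 4) (nat_lit 27) (nat_lit 28) = true := by decide +kernel
def p12_16_2_28 : pfC (piC [(nat_lit 35755509), (nat_lit 23968959), (nat_lit 17897616), (nat_lit 12073119)] (nat_lit 7486600)) p12_16_2 (nat_lit 4) (nat_lit 28) (nat_lit 29) = true := by decide +kernel
def p12_16_2_29 : pfC (piC [(nat_lit 35755509), (nat_lit 23968959), (nat_lit 17897616), (nat_lit 12073119)] (nat_lit 7486600)) p12_16_2 (nat_lit 4) (nat_lit 29) (nat_lit 30) = true := by decide +kernel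
def p12_16_2_30 : pfC (piC [(nat_lit 35755509), (nat_lit 23968959), (nat_lit 17897616), (nat_lit 12073119)] (nat_lit 7486600)) p12_16_2 (nat_lit 4) (nat_lit 30) (nat_lit 31) = true := by decide +kernel
def p12_16_2_31 : pfC (piC [(nat_lit 35755509), (nat_lit 23968959), (nat_lit 17897616), (nat_lit 12073119)] (nat_lit 7486600)) p12_16_2 (nat_lit 4) (nat_lit 31) (nat_lit 32) = true := by decide +kernel
def p12_16_2_32 : pfC (piC [(nat_lit 35755509), (nat_lit 23968959), (nat_lit 17897616), (nat_lit 12073119)] (nat_lit 7486600)) p12_16_2 (nat_lit 4) (nat_lit 32) (nat_lit 33) = true := by decide +kernel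
def p12_16_2_33 : pfC (piC [(nat_lit 35755509), (nat_lit 23968959), (nat_lit 17897616), (nat_lit 12073119)] (nat_lit 7486600)) p12_16_2 (nat_lit 4) (nat_lit 33) (nat_lit 34) = true := by decide +kernel
def p12_16_2_34 : pfC (piC [(nat_lit 35755509), (nat_lit 23968959), (nat_lit 17897616), (nat_lit 12073119)] (nat_lit 7486600)) p12_16_2 (nat_lit 4) (nat_lit 34) (nat_lit 35) = true := by decide +kernel
def p12_16_2_35 : pfC (piC [(nat_lit 35755509), (nat_lit 23968959), (nat_lit 17897616), (nat_lit 12073119)] (nat_lit 7486600)) p12_16_2 (nat_lit 4) (nat_lit 35) (nat_lit 36) = true := by decide +kernel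
def p12_16_2_36 : pfC (piC [(nat_lit 35755509), (nat_lit 23968959), (nat_lit 17897616), (nat_lit 12073119)] (nat_lit 7486600)) p12_16_2 (nat_lit 4) (nat_lit 36) (nat_lit 37) = true := by decide +kernel
def p12_16_2_37 : pfC (piC [(nat_lit 35755509), (nat_lit 23968959), (nat_lit 17897616), (nat_lit 12073119)] (nat_lit 7486600)) p12_16_2 (nat_lit 4) (nat_lit 37) (nat_lit 38) = true := by decide +kernel
def p12_16_2_38 : pfC (piC [(nat_lit 35755509), (nat_lit 23968959), (nat_lit 17897616), (nat_lit 12073119)] (nat_lit 7486600)) p12_16_2 (nat_lit 4) (nat_lit 38) (nat_lit 39) = true := by decide +kernel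
def p12_16_2_39 : pfC (piC [(nat_lit 35755509), (nat_lit 23968959), (nat_lit 17897616), (nat_lit 12073119)] (nat_lit 7486600)) p12_16_2 (nat_lit 4) (nat_lit 39) (nat_lit 40) = true := by decide +kernel
def p12_16_2_40 : pfC (piC [(nat_lit 35755509), (nat_lit 23968959), (nat_lit 17897616), (nat_lit 12073119)] (nat_lit 7486600)) p12_16_2 (nat_lit 4) (nat_lit 40) (nat_lit 41) = true := by decide +kernel
def p12_16_2_41 : pfC (piC [(nat_lit 35755509), (nat_lit 23968959), (nat_lit 17897616), (nat_lit 12073119)] (nat_lit 7486600)) p12_16_2 (nat_lit 4) (nat_lit 41) (nat_lit 42) = true := by decide +kernel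
def p12_16_2_42 : pfC (piC [(nat_lit 35755509), (nat_lit 23968959), (nat_lit 17897616), (nat_lit 12073119)] (nat_lit 7486600)) p12_16_2 (nat_lit 4) (nat_lit 42) (nat_lit 43) = true := by decide +kernel
def p12_16_2_43 : pfC (piC [(nat_lit 35755509), (nat_lit 23968959), (nat_lit 17897616), (nat_lit 12073119)] (nat_lit 7486600)) p12_16_2 (nat_lit 4) (nat_lit 43) (nat_lit 44) = true := by decide +kernel
def p12_16_2_44 : pfC (piC [(nat_lit 35755509), (nat_lit 23968959), (nat_lit 17897616), (nat_lit 12073119)] (nat_lit 7486600)) p12_16_2 (nat_lit 4) (nat_lit 44) (nat_lit 45) = true := by decide +kernel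
def p12_16_2_45 : pfC (piC [(nat_lit 35755509), (nat_lit 23968959), (nat_lit 17897616), (nat_lit 12073119)] (nat_lit 7486600)) p12_16_2 (nat_lit 4) (nat_lit 45) (nat_lit 46) = true := by decide +kernel
def p12_16_2_46 : pfC (piC [(nat_lit 35755509), (nat_lit 23968959), (nat_lit 17897616), (nat_lit 12073119)] (nat_lit 7486600)) p12_16_2 (nat_lit 4) (nat_lit 46) (nat_lit 47) = true := by decide +kernel
def p12_16_2_47 : pfC (piC [(nat_lit 35755509), (nat_lit 23968959), (nat_lit 17897616), (nat_lit 12073119)] (nat_lit 7486600)) p12_16_2 (nat_lit 4) (nat_lit 47) (nat_lit 48) = true := by decide +kernel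
def p12_16_2_48 : pfC (piC [(nat_lit 35755509), (nat_lit 23968959), (nat_lit 17897616), (nat_lit 12073119)] (nat_lit 7486600)) p12_16_2 (nat_lit 4) (nat_lit 48) (nat_lit 49) = true := by decide +kernel
def p12_16_2_49 : pfC (piC [(nat_lit 35755509), (nat_lit 23968959), (nat_lit 17897616), (nat_lit 12073119)] (nat_lit 7486600)) p12_16_2 (nat_lit 4) (nat_lit 49) (nat_lit 50) = true := by decide +kernel
def p12_16_2_50 : pfC (piC [(nat_lit 35755509), (nat_lit 23968959), (nat_lit 17897616), (nat_lit 12073119)] (nat_lit 7486600)) p12_16_2 (nat_lit 4) (nat_lit 50) (nat_lit 51) = true := by decide +kernel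
def p12_16_2_51 : pfC (piC [(nat_lit 35755509), (nat_lit 23968959), (nat_lit 17897616), (nat_lit 12073119)] (nat_lit 7486600)) p12_16_2 (nat_lit 4) (nat_lit 51) (nat_lit 52) = true := by decide +kernel
def p12_16_2_52 : pfC (piC [(nat_lit 35755509), (nat_lit 23968959), (nat_lit 17897616), (nat_lit 12073119)] (nat_lit 7486600)) p12_16_2 (nat_lit 4) (nat_lit 52) (nat_lit 53) = true := by decide +kernel
def p12_16_2_53 : pfC (piC [(nat_lit 35755509), (nat_lit 23968959), (nat_lit 17897616), (nat_lit 12073119)] (nat_lit 7486600)) p12_16_2 (nat_lit 4) (nat_lit 53) (nat_lit 54) = true := by decide +kernel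
def p12_16_2_54 : pfC (piC [(nat_lit 35755509), (nat_lit 23968959), (nat_lit 17897616), (nat_lit 12073119)] (nat_lit 7486600)) p12_16_2 (nat_lit 4) (nat_lit 54) (nat_lit 55) = true := by decide +kernel
def p12_16_2_55 : pfC (piC [(nat_lit 35755509), (nat_lit 23968959), (nat_lit 17897616), (nat_lit 12073119)] (nat_lit 7486600)) p12_16_2 (nat_lit 4) (nat_lit 55) (nat_lit 56) = true := by decide +kernel
def p12_16_2_56 : pfC (piC [(nat_lit 35755509), (nat_lit 23968959), (nat_lit 17897616), (nat_lit 12073119)] (nat_lit 7486600)) p12_16_2 (nat_lit 4) (nat_lit 56) (nat_lit 57) = true := by decide +kernel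
def p12_16_2_57 : pfC (piC [(nat_lit 35755509), (nat_lit 23968959), (nat_lit 17897616), (nat_lit 12073119)] (nat_lit 7486600)) p12_16_2 (nat_lit 4) (nat_lit 57) (nat_lit 58) = true := by decide +kernel
def p12_16_2_58 : pfC (piC [(nat_lit 35755509), (nat_lit 23968959), (nat_lit 17897616), (nat_lit 12073119)] (nat_lit 7486600)) p12_16_2 (nat_lit 4) (nat_lit 58) (nat_lit 59) = true := by decide +kernel
def p12_16_2_59 : pfC (piC [(nat_lit 35755509), (nat_lit 23968959), (nat_lit 17897616), (nat_lit 12073119)] (nat_lit 7486600)) p12_16_2 (nat_lit 4) (nat_lit 59) (nat_lit 60) = true := by decide +kernel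
def p12_16_2_60 : pfC (piC [(nat_lit 35755509), (nat_lit 23968959), (nat_lit 17897616), (nat_lit 12073119)] (nat_lit 7486600)) p12_16_2 (nat_lit 4) (nat_lit 60) (nat_lit 61) = true := by decide +kernel
def p12_16_2_61 : pfC (piC [(nat_lit 35755509), (nat_lit 23968959), (nat_lit 17897616), (nat_lit 12073119)] (nat_lit 7486600)) p12_16_2 (nat_lit 4) (nat_lit 61) (nat_lit 62) = true := by decide +kernel
def p12_16_2_62 : pfC (piC [(nat_lit 35755509), (nat_lit 23968959), (nat_lit 17897616), (nat_lit 12073119)] (nat_lit 7486600)) p12_16_2 (nat_lit 4) (nat_lit 62) (nat_lit 63) = true := by decide +kernel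
def p12_16_2_63 : pfC (piC [(nat_lit 35755509), (nat_lit 23968959), (nat_lit 17897616), (nat_lit 12073119)] (nat_lit 7486600)) p12_16_2 (nat_lit 4) (nat_lit 63) (nat_lit 64) = true := by decide +kernel
def p12_16_2_64 : pfC (piC [(nat_lit 35755509), (nat_lit 23968959), (nat_lit 17897616), (nat_lit 12073119)] (nat_lit 7486600)) p12_16_2 (nat_lit 4) (nat_lit 64) (nat_lit 65) = true := by decide +kernel
def p12_16_2_65 : pfC (piC [(nat_lit 35755509), (nat_lit 23968959), (nat_lit 17897616), (nat_lit 12073119)] (nat_lit 7486600)) p12_16_2 (nat_lit 4) (nat_lit 65) (nat_lit 66) = true := by decide +kernel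
def p12_16_2_66 : pfC (piC [(nat_lit 35755509), (nat_lit 23968959), (nat_lit 17897616), (nat_lit 12073119)] (nat_lit 7486600)) p12_16_2 (nat_lit 4) (nat_lit 66) (nat_lit 67) = true := by decide +kernel
def p12_16_2_67 : pfC (piC [(nat_lit 35755509), (nat_lit 23968959), (nat_lit 17897616), (nat_lit 12073119)] (nat_lit 7486600)) p12_16_2 (nat_lit 4) (nat_lit 67) (nat_lit 68) = true := by decide +kernel
def p12_16_2_68 : pfC (piC [(nat_lit 35755509), (nat_lit 23968959), (nat_lit 17897616), (nat_lit 12073119)] (nat_lit 7486600)) p12_16_2 (nat_lit 4) (nat_lit 68) (nat_lit 69) = true := by decide +kernel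
def p12_16_2_69 : pfC (piC [(nat_lit 35755509), (nat_lit 23968959), (nat_lit 17897616), (nat_lit 12073119)] (nat_lit 7486600)) p12_16_2 (nat_lit 4) (nat_lit 69) (nat_lit 70) = true := by decide +kernel
def p12_16_2_70 : pfC (piC [(nat_lit 35755509), (nat_lit 23968959), (nat_lit 17897616), (nat_lit 12073119)] (nat_lit 7486600)) p12_16_2 (nat_lit 4) (nat_lit 70) (nat_lit 71) = true := by decide +kernel
def p12_16_2_71 : pfC (piC [(nat_lit 35755509), (nat_lit 23968959), (nat_lit 17897616), (nat_lit 12073119)] (nat_lit 7486600)) p12_16_2 (nat_lit 4) (nat_lit 71) (nat_lit 72) = true := by decide +kernel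
def p12_16_2_72 : pfC (piC [(nat_lit 35755509), (nat_lit 23968959), (nat_lit 17897616), (nat_lit 12073119)] (nat_lit 7486600)) p12_16_2 (nat_lit 4) (nat_lit 72) (nat_lit 73) = true := by decide +kernel
def p12_16_2_73 : pfC (piC [(nat_lit 35755509), (nat_lit 23968959), (nat_lit 17897616), (nat_lit 12073119)] (nat_lit 7486600)) p12_16_2 (nat_lit 4) (nat_lit 73) (nat_lit 74) = true := by decide +kernel
def p12_16_2_74 : pfC (piC [(nat_lit 35755509), (nat_lit 23968959), (nat_lit 17897616), (nat_lit 12073119)] (nat_lit 7486600)) p12_16_2 (nat_lit 4) (nat_lit 74) (nat_lit 75) = true := by decide +kernel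
def p12_16_2_75 : pfC (piC [(nat_lit 35755509), (nat_lit 23968959), (nat_lit 17897616), (nat_lit 12073119)] (nat_lit 7486600)) p12_16_2 (nat_lit 4) (nat_lit 75) (nat_lit 76) = true := by decide +kernel
def p12_16_2_76 : pfC (piC [(nat_lit 35755509), (nat_lit 23968959), (nat_lit 17897616), (nat_lit 12073119)] (nat_lit 7486600)) p12_16_2 (nat_lit 4) (nat_lit 76) (nat_lit 77) = true := by decide +kernel
def p12_16_2_77 : pfC (piC [(nat_lit 35755509), (nat_lit 23968959), (nat_lit 17897616), (nat_lit 12073119)] (nat_lit 7486600)) p12_16_2 (nat_lit 4) (nat_lit 77) (nat_lit 78) = true := by decide +kernel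
def p12_16_2_78 : pfC (piC [(nat_lit 35755509), (nat_lit 23968959), (nat_lit 17897616), (nat_lit 12073119)] (nat_lit 7486600)) p12_16_2 (nat_lit 4) (nat_lit 78) (nat_lit 79) = true := by decide +kernel
def p12_16_2_79 : pfC (piC [(nat_lit 35755509), (nat_lit 23968959), (nat_lit 17897616), (nat_lit 12073119)] (nat_lit 7486600)) p12_16_2 (nat_lit 4) (nat_lit 79) (nat_lit 80) = true := by decide +kernel
def p12_16_2_80 : pfC (piC [(nat_lit 35755509), (nat_lit 23968959), (nat_lit 17897616), (nat_lit 12073119)] (nat_lit 7486600)) p12_16_2 (nat_lit 4) (nat_lit 80) (nat_lit 81) = true := by decide +kernel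
def p12_16_2_81 : pfC (piC [(nat_lit 35755509), (nat_lit 23968959), (nat_lit 17897616), (nat_lit 12073119)] (nat_lit 7486600)) p12_16_2 (nat_lit 4) (nat_lit 81) (nat_lit 82) = true := by decide +kernel
def p12_16_2_82 : pfC (piC [(nat_lit 35755509), (nat_lit 23968959), (nat_lit 17897616), (nat_lit 12073119)] (nat_lit 7486600)) p12_16_2 (nat_lit 4) (nat_lit 82) (nat_lit 83) = true := by decide +kernel
def p12_16_2_83 : pfC (piC [(nat_lit 35755509), (nat_lit 23968959), (nat_lit 17897616), (nat_lit 12073119)] (nat_lit 7486600)) p12_16_2 (nat_lit 4) (nat_lit 83) (nat_lit 84) = true := by decide +kernel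
def p12_16_2_84 : pfC (piC [(nat_lit 35755509), (nat_lit 23968959), (nat_lit 17897616), (nat_lit 12073119)] (nat_lit 7486600)) p12_16_2 (nat_lit 4) (nat_lit 84) (nat_lit 85) = true := by decide +kernel
def p12_16_2_85 : pfC (piC [(nat_lit 35755509), (nat_lit 23968959), (nat_lit 17897616), (nat_lit 12073119)] (nat_lit 7486600)) p12_16_2 (nat_lit 4) (nat_lit 85) (nat_lit 86) = true := by decide +kernel
def p12_16_2_86 : pfC (piC [(nat_lit 35755509), (nat_lit 23968959), (nat_lit 17897616), (nat_lit 12073119)] (nat_lit 7486600)) p12_16_2 (nat_lit 4) (nat_lit 86) (nat_lit 87) = true := by decide +kernel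
def p12_16_2_87 : pfC (piC [(nat_lit 35755509), (nat_lit 23968959), (nat_lit 17897616), (nat_lit 12073119)] (nat_lit 7486600)) p12_16_2 (nat_lit 4) (nat_lit 87) (nat_lit 88) = true := by decide +kernel
def p12_16_2_88 : pfC (piC [(nat_lit 35755509), (nat_lit 23968959), (nat_lit 17897616), (nat_lit 12073119)] (nat_lit 7486600)) p12_16_2 (nat_lit 4) (nat_lit 88) (nat_lit 89) = true := by decide +kernel
def p12_16_2_89 : pfC (piC [(nat_lit 35755509), (nat_lit 23968959), (nat_lit 17897616), (nat_lit 12073119)] (nat_lit 7486600)) p12_16_2 (nat_lit 4) (nat_lit 89) (nat_lit 90) = true := by decide +kernel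
def p12_16_2_90 : pfC (piC [(nat_lit 35755509), (nat_lit 23968959), (nat_lit 17897616), (nat_lit 12073119)] (nat_lit 7486600)) p12_16_2 (nat_lit 4) (nat_lit 90) (nat_lit 91) = true := by decide +kernel
def p12_16_2_91 : pfC (piC [(nat_lit 35755509), (nat_lit 23968959), (nat_lit 17897616), (nat_lit 12073119)] (nat_lit 7486600)) p12_16_2 (nat_lit 4) (nat_lit 91) (nat_lit 92) = true := by decide +kernel
def p12_16_2_92 : pfC (piC [(nat_lit 35755509), (nat_lit 23968959), (nat_lit 17897616), (nat_lit 12073119)] (nat_lit 7486600)) p12_16_2 (nat_lit 4) (nat_lit 92) (nat_lit 93) = true := by decide +kernel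
def p12_16_2_93 : pfC (piC [(nat_lit 35755509), (nat_lit 23968959), (nat_lit 17897616), (nat_lit 12073119)] (nat_lit 7486600)) p12_16_2 (nat_lit 4) (nat_lit 93) (nat_lit 94) = true := by decide +kernel
def p12_16_2_94 : pfC (piC [(nat_lit 35755509), (nat_lit 23968959), (nat_lit 17897616), (nat_lit 12073119)] (nat_lit 7486600)) p12_16_2 (nat_lit 4) (nat_lit 94) (nat_lit 95) = true := by decide +kernel
def p12_16_2_95 : pfC (piC [(nat_lit 35755509), (nat_lit 23968959), (nat_lit 17897616), (nat_lit 12073119)] (nat_lit 7486600)) p12_16_2 (nat_lit 4) (nat_lit 95) (nat_lit 96) = true := by decide +kernel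
def p12_16_2_96 : pfC (piC [(nat_lit 35755509), (nat_lit 23968959), (nat_lit 17897616), (nat_lit 12073119)] (nat_lit 7486600)) p12_16_2 (nat_lit 4) (nat_lit 96) (nat_lit 97) = true := by decide +kernel
def p12_16_2_97 : pfC (piC [(nat_lit 35755509), (nat_lit 23968959), (nat_lit 17897616), (nat_lit 12073119)] (nat_lit 7486600)) p12_16_2 (nat_lit 4) (nat_lit 97) (nat_lit 98) = true := by decide +kernel
def p12_16_2_98 : pfC (piC [(nat_lit 35755509), (nat_lit 23968959), (nat_lit 17897616), (nat_lit 12073119)] (nat_lit 7486600)) p12_16_2 (nat_lit 4) (nat_lit 98) (nat_lit 99) = true := by decide +kernel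
def p12_16_2_99 : pfC (piC [(nat_lit 35755509), (nat_lit 23968959), (nat_lit 17897616), (nat_lit 12073119)] (nat_lit 7486600)) p12_16_2 (nat_lit 4) (nat_lit 99) (nat_lit 100) = true := by decide +kernel
def p12_16_2_100 : pfC (piC [(nat_lit 35755509), (nat_lit 23968959), (nat_lit 17897616), (nat_lit 12073119)] (nat_lit 7486600)) p12_16_2 (nat_lit 4) (nat_lit 100) (nat_lit 101) = true := by decide +kernel
def p12_16_2_101 : pfC (piC [(nat_lit 35755509), (nat_lit 23968959), (nat_lit 17897616), (nat_lit 12073119)] (nat_lit 7486600)) p12_16_2 (nat_lit 4) (nat_lit 101) (nat_lit 102) = true := by decide +kernel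
def p12_16_2_102 : pfC (piC [(nat_lit 35755509), (nat_lit 23968959), (nat_lit 17897616), (nat_lit 12073119)] (nat_lit 7486600)) p12_16_2 (nat_lit 4) (nat_lit 102) (nat_lit 103) = true := by decide +kernel
def p12_16_2_103 : pfC (piC [(nat_lit 35755509), (nat_lit 23968959), (nat_lit 17897616), (nat_lit 12073119)] (nat_lit 7486600)) p12_16_2 (nat_lit 4) (nat_lit 103) (nat_lit 104) = true := by decide +kernel
def p12_16_2_104 : pfC (piC [(nat_lit 35755509), (nat_lit 23968959), (nat_lit 17897616), (nat_lit 12073119)] (nat_lit 7486600)) p12_16_2 (nat_lit 4) (nat_lit 104) (nat_lit 105) = true := by decide +kernel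
def p12_16_2_105 : pfC (piC [(nat_lit 35755509), (nat_lit 23968959), (nat_lit 17897616), (nat_lit 12073119)] (nat_lit 7486600)) p12_16_2 (nat_lit 4) (nat_lit 105) (nat_lit 106) = true := by decide +kernel
def p12_16_2_106 : pfC (piC [(nat_lit 35755509), (nat_lit 23968959), (nat_lit 17897616), (nat_lit 12073119)] (nat_lit 7486600)) p12_16_2 (nat_lit 4) (nat_lit 106) (nat_lit 107) = true := by decide +kernel
def p12_16_2_107 : pfC (piC [(nat_lit 35755509), (nat_lit 23968959), (nat_lit 17897616), (nat_lit 12073119)] (nat_lit 7486600)) p12_16_2 (nat_lit 4) (nat_lit 107) (nat_lit 108) = true := by decide +kernel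
def p12_16_2_108 : pfC (piC [(nat_lit 35755509), (nat_lit 23968959), (nat_lit 17897616), (nat_lit 12073119)] (nat_lit 7486600)) p12_16_2 (nat_lit 4) (nat_lit 108) (nat_lit 109) = true := by decide +kernel
def p12_16_2_109 : pfC (piC [(nat_lit 35755509), (nat_lit 23968959), (nat_lit 17897616), (nat_lit 12073119)] (nat_lit 7486600)) p12_16_2 (nat_lit 4) (nat_lit 109) (nat_lit 110) = true := by decide +kernel
def p12_16_2_110 : pfC (piC [(nat_lit 35755509), (nat_lit 23968959), (nat_lit 17897616), (nat_lit 12073119)] (nat_lit 7486600)) p12_16_2 (nat_lit 4) (nat_lit 110) (nat_lit 111) = true := by decide +kernel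
def p12_16_2_111 : pfC (piC [(nat_lit 35755509), (nat_lit 23968959), (nat_lit 17897616), (nat_lit 12073119)] (nat_lit 7486600)) p12_16_2 (nat_lit 4) (nat_lit 111) (nat_lit 112) = true := by decide +kernel
def p12_16_2_112 : pfC (piC [(nat_lit 35755509), (nat_lit 23968959), (nat_lit 17897616), (nat_lit 12073119)] (nat_lit 7486600)) p12_16_2 (nat_lit 4) (nat_lit 112) (nat_lit 113) = true := by decide +kernel
def p12_16_2_113 : pfC (piC [(nat_lit 35755509), (nat_lit 23968959), (nat_lit 17897616), (nat_lit 12073119)] (nat_lit 7486600)) p12_16_2 (nat_lit 4) (nat_lit 113) (nat_lit 114) = true := by decide +kernel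
def p12_16_2_114 : pfC (piC [(nat_lit 35755509), (nat_lit 23968959), (nat_lit 17897616), (nat_lit 12073119)] (nat_lit 7486600)) p12_16_2 (nat_lit 4) (nat_lit 114) (nat_lit 115) = true := by decide +kernel
def p12_16_2_115 : pfC (piC [(nat_lit 35755509), (nat_lit 23968959), (nat_lit 17897616), (nat_lit 12073119)] (nat_lit 7486600)) p12_16_2 (nat_lit 4) (nat_lit 115) (nat_lit 116) = true := by decide +kernel
def p12_16_2_116 : pfC (piC [(nat_lit 35755509), (nat_lit 23968959), (nat_lit 17897616), (nat_lit 12073119)] (nat_lit 7486600)) p12_16_2 (nat_lit 4) (nat_lit 116) (nat_lit 117) = true := by decide +kernel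
def p12_16_2_117 : pfC (piC [(nat_lit 35755509), (nat_lit 23968959), (nat_lit 17897616), (nat_lit 12073119)] (nat_lit 7486600)) p12_16_2 (nat_lit 4) (nat_lit 117) (nat_lit 118) = true := by decide +kernel
def p12_16_2_118 : pfC (piC [(nat_lit 35755509), (nat_lit 23968959), (nat_lit 17897616), (nat_lit 12073119)] (nat_lit 7486600)) p12_16_2 (nat_lit 4) (nat_lit 118) (nat_lit 119) = true := by decide +kernel
def p12_16_2_119 : pfC (piC [(nat_lit 35755509), (nat_lit 23968959), (nat_lit 17897616), (nat_lit 12073119)] (nat_lit 7486600)) p12_16_2 (nat_lit 4) (nat_lit 119) (nat_lit 120) = true := by decide +kernel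
def p12_16_2_120 : pfC (piC [(nat_lit 35755509), (nat_lit 23968959), (nat_lit 17897616), (nat_lit 12073119)] (nat_lit 7486600)) p12_16_2 (nat_lit 4) (nat_lit 120) (nat_lit 121) = true := by decide +kernel
def p12_16_2_121 : pfC (piC [(nat_lit 35755509), (nat_lit 23968959), (nat_lit 17897616), (nat_lit 12073119)] (nat_lit 7486600)) p12_16_2 (nat_lit 4) (nat_lit 121) (nat_lit 122) = true := by decide +kernel
def p12_16_2_122 : pfC (piC [(nat_lit 35755509), (nat_lit 23968959), (nat_lit 17897616), (nat_lit 12073119)] (nat_lit 7486600)) p12_16_2 (nat_lit 4) (nat_lit 122) (nat_lit 123) = true := by decide +kernel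
def p12_16_2_123 : pfC (piC [(nat_lit 35755509), (nat_lit 23968959), (nat_lit 17897616), (nat_lit 12073119)] (nat_lit 7486600)) p12_16_2 (nat_lit 4) (nat_lit 123) (nat_lit 124) = true := by decide +kernel
def p12_16_2_124 : pfC (piC [(nat_lit 35755509), (nat_lit 23968959), (nat_lit 17897616), (nat_lit 12073119)] (nat_lit 7486600)) p12_16_2 (nat_lit 4) (nat_lit 124) (nat_lit 125) = true := by decide +kernel
def p12_16_2_125 : pfC (piC [(nat_lit 35755509), (nat_lit 23968959), (nat_lit 17897616), (nat_lit 12073119)] (nat_lit 7486600)) p12_16_2 (nat_lit 4) (nat_lit 125) (nat_lit 126) = true := by decide +kernel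
def p12_16_2_126 : pfC (piC [(nat_lit 35755509), (nat_lit 23968959), (nat_lit 17897616), (nat_lit 12073119)] (nat_lit 7486600)) p12_16_2 (nat_lit 4) (nat_lit 126) (nat_lit 127) = true := by decide +kernel
def p12_16_2_127 : pfC (piC [(nat_lit 35755509), (nat_lit 23968959), (nat_lit 17897616), (nat_lit 12073119)] (nat_lit 7486600)) p12_16_2 (nat_lit 4) (nat_lit 127) (nat_lit 128) = true := by decide +kernel
def p12_16_2_128 : pfC (piC [(nat_lit 35755509), (nat_lit 23968959), (nat_lit 17897616), (nat_lit 12073119)] (nat_lit 7486600)) p12_16_2 (nat_lit 4) (nat_lit 128) (nat_lit 129) = true := by decide +kernel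
def p12_16_2_129 : pfC (piC [(nat_lit 35755509), (nat_lit 23968959), (nat_lit 17897616), (nat_lit 12073119)] (nat_lit 7486600)) p12_16_2 (nat_lit 4) (nat_lit 129) (nat_lit 130) = true := by decide +kernel
def p12_16_2_130 : pfC (piC [(nat_lit 35755509), (nat_lit 23968959), (nat_lit 17897616), (nat_lit 12073119)] (nat_lit 7486600)) p12_16_2 (nat_lit 4) (nat_lit 130) (nat_lit 131) = true := by decide +kernel
def p12_16_2_131 : pfC (piC [(nat_lit 35755509), (nat_lit 23968959), (nat_lit 17897616), (nat_lit 12073119)] (nat_lit 7486600)) p12_16_2 (nat_lit 4) (nat_lit 131) (nat_lit 132) = true := by decide +kernel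
def p12_16_2_132 : pfC (piC [(nat_lit 35755509), (nat_lit 23968959), (nat_lit 17897616), (nat_lit 12073119)] (nat_lit 7486600)) p12_16_2 (nat_lit 4) (nat_lit 132) (nat_lit 133) = true := by decide +kernel
def p12_16_2_133 : pfC (piC [(nat_lit 35755509), (nat_lit 23968959), (nat_lit 17897616), (nat_lit 12073119)] (nat_lit 7486600)) p12_16_2 (nat_lit 4) (nat_lit 133) (nat_lit 134) = true := by decide +kernel
def p12_16_2_134 : pfC (piC [(nat_lit 35755509), (nat_lit 23968959), (nat_lit 17897616), (nat_lit 12073119)] (nat_lit 7486600)) p12_16_2 (nat_lit 4) (nat_lit 134) (nat_lit 135) = true := by decide +kernel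
def p12_16_2_135 : pfC (piC [(nat_lit 35755509), (nat_lit 23968959), (nat_lit 17897616), (nat_lit 12073119)] (nat_lit 7486600)) p12_16_2 (nat_lit 4) (nat_lit 135) (nat_lit 136) = true := by decide +kernel
def p12_16_2_136 : pfC (piC [(nat_lit 35755509), (nat_lit 23968959), (nat_lit 17897616), (nat_lit 12073119)] (nat_lit 7486600)) p12_16_2 (nat_lit 4) (nat_lit 136) (nat_lit 137) = true := by decide +kernel
def p12_16_2_137 : pfC (piC [(nat_lit 35755509), (nat_lit 23968959), (nat_lit 17897616), (nat_lit 12073119)] (nat_lit 7486600)) p12_16_2 (nat_lit 4) (nat_lit 137) (nat_lit 138) = true := by decide +kernel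
def p12_16_2_138 : pfC (piC [(nat_lit 35755509), (nat_lit 23968959), (nat_lit 17897616), (nat_lit 12073119)] (nat_lit 7486600)) p12_16_2 (nat_lit 4) (nat_lit 138) (nat_lit 139) = true := by decide +kernel
def p12_16_2_139 : pfC (piC [(nat_lit 35755509), (nat_lit 23968959), (nat_lit 17897616), (nat_lit 12073119)] (nat_lit 7486600)) p12_16_2 (nat_lit 4) (nat_lit 139) (nat_lit 140) = true := by decide +kernel
def p12_16_2_140 : pfC (piC [(nat_lit 35755509), (nat_lit 23968959), (nat_lit 17897616), (nat_lit 12073119)] (nat_lit 7486600)) p12_16_2 (nat_lit 4) (nat_lit 140) (nat_lit 141) = true := by decide +kernel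
def p12_16_2_141 : pfC (piC [(nat_lit 35755509), (nat_lit 23968959), (nat_lit 17897616), (nat_lit 12073119)] (nat_lit 7486600)) p12_16_2 (nat_lit 4) (nat_lit 141) (nat_lit 142) = true := by decide +kernel
def p12_16_2_142 : pfC (piC [(nat_lit 35755509), (nat_lit 23968959), (nat_lit 17897616), (nat_lit 12073119)] (nat_lit 7486600)) p12_16_2 (nat_lit 4) (nat_lit 142) (nat_lit 143) = true := by decide +kernel
def p12_16_2_143 : pfC (piC [(nat_lit 35755509), (nat_lit 23968959), (nat_lit 17897616), (nat_lit 12073119)] (nat_lit 7486600)) p12_16_2 (nat_lit 4) (nat_lit 143) (nat_lit 144) = true := by decide +kernel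
def p12_16_2_144 : pfC (piC [(nat_lit 35755509), (nat_lit 23968959), (nat_lit 17897616), (nat_lit 12073119)] (nat_lit 7486600)) p12_16_2 (nat_lit 4) (nat_lit 144) (nat_lit 145) = true := by decide +kernel
def p12_16_2_145 : pfC (piC [(nat_lit 35755509), (nat_lit 23968959), (nat_lit 17897616), (nat_lit 12073119)] (nat_lit 7486600)) p12_16_2 (nat_lit 4) (nat_lit 145) (nat_lit 146) = true := by decide +kernel
def p12_16_2_146 : pfC (piC [(nat_lit 35755509), (nat_lit 23968959), (nat_lit 17897616), (nat_lit 12073119)] (nat_lit 7486600)) p12_16_2 (nat_lit 4) (nat_lit 146) (nat_lit 147) = true := by decide +kernel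
def p12_16_2_147 : pfC (piC [(nat_lit 35755509), (nat_lit 23968959), (nat_lit 17897616), (nat_lit 12073119)] (nat_lit 7486600)) p12_16_2 (nat_lit 4) (nat_lit 147) (nat_lit 148) = true := by decide +kernel
def p12_16_2_148 : pfC (piC [(nat_lit 35755509), (nat_lit 23968959), (nat_lit 17897616), (nat_lit 12073119)] (nat_lit 7486600)) p12_16_2 (nat_lit 4) (nat_lit 148) (nat_lit 149) = true := by decide +kernel
def p12_16_2_149 : pfC (piC [(nat_lit 35755509), (nat_lit 23968959), (nat_lit 17897616), (nat_lit 12073119)] (nat_lit 7486600)) p12_16_2 (nat_lit 4) (nat_lit 149) (nat_lit 150) = true := by decide +kernel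
def p12_16_2_150 : pfC (piC [(nat_lit 35755509), (nat_lit 23968959), (nat_lit 17897616), (nat_lit 12073119)] (nat_lit 7486600)) p12_16_2 (nat_lit 4) (nat_lit 150) (nat_lit 151) = true := by decide +kernel
def p12_16_2_151 : pfC (piC [(nat_lit 35755509), (nat_lit 23968959), (nat_lit 17897616), (nat_lit 12073119)] (nat_lit 7486600)) p12_16_2 (nat_lit 4) (nat_lit 151) (nat_lit 152) = true := by decide +kernel
def p12_16_2_152 : pfC (piC [(nat_lit 35755509), (nat_lit 23968959), (nat_lit 17897616), (nat_lit 12073119)] (nat_lit 7486600)) p12_16_2 (nat_lit 4) (nat_lit 152) (nat_lit 153) = true := by decide +kernel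
def p12_16_2_153 : pfC (piC [(nat_lit 35755509), (nat_lit 23968959), (nat_lit 17897616), (nat_lit 12073119)] (nat_lit 7486600)) p12_16_2 (nat_lit 4) (nat_lit 153) (nat_lit 154) = true := by decide +kernel
def p12_16_2_154 : pfC (piC [(nat_lit 35755509), (nat_lit 23968959), (nat_lit 17897616), (nat_lit 12073119)] (nat_lit 7486600)) p12_16_2 (nat_lit 4) (nat_lit 154) (nat_lit 155) = true := by decide +kernel
def p12_16_2_155 : pfC (piC [(nat_lit 35755509), (nat_lit 23968959), (nat_lit 17897616), (nat_lit 12073119)] (nat_lit 7486600)) p12_16_2 (nat_lit 4) (nat_lit 155) (nat_lit 156) = true := by decide +kernel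
def p12_16_2_156 : pfC (piC [(nat_lit 35755509), (nat_lit 23968959), (nat_lit 17897616), (nat_lit 12073119)] (nat_lit 7486600)) p12_16_2 (nat_lit 4) (nat_lit 156) (nat_lit 157) = true := by decide +kernel
def p12_16_2_157 : pfC (piC [(nat_lit 35755509), (nat_lit 23968959), (nat_lit 17897616), (nat_lit 12073119)] (nat_lit 7486600)) p12_16_2 (nat_lit 4) (nat_lit 157) (nat_lit 158) = true := by decide +kernel
def p12_16_2_158 : pfC (piC [(nat_lit 35755509), (nat_lit 23968959), (nat_lit 17897616), (nat_lit 12073119)] (nat_lit 7486600)) p12_16_2 (nat_lit 4) (nat_lit 158) (nat_lit 159) = true := by decide +kernel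
def p12_16_2_159 : pfC (piC [(nat_lit 35755509), (nat_lit 23968959), (nat_lit 17897616), (nat_lit 12073119)] (nat_lit 7486600)) p12_16_2 (nat_lit 4) (nat_lit 159) (nat_lit 160) = true := by decide +kernel
def p12_16_2_160 : pfC (piC [(nat_lit 35755509), (nat_lit 23968959), (nat_lit 17897616), (nat_lit 12073119)] (nat_lit 7486600)) p12_16_2 (nat_lit 4) (nat_lit 160) (nat_lit 161) = true := by decide +kernel
def p12_16_2_161 : pfC (piC [(nat_lit 35755509), (nat_lit 23968959), (nat_lit 17897616), (nat_lit 12073119)] (nat_lit 7486600)) p12_16_2 (nat_lit 4) (nat_lit 161) (nat_lit 162) = true := by decide +kernel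
def p12_16_2_162 : pfC (piC [(nat_lit 35755509), (nat_lit 23968959), (nat_lit 17897616), (nat_lit 12073119)] (nat_lit 7486600)) p12_16_2 (nat_lit 4) (nat_lit 162) (nat_lit 163) = true := by decide +kernel
def p12_16_2_163 : pfC (piC [(nat_lit 35755509), (nat_lit 23968959), (nat_lit 17897616), (nat_lit 12073119)] (nat_lit 7486600)) p12_16_2 (nat_lit 4) (nat_lit 163) (nat_lit 164) = true := by decide +kernel
def p12_16_2_164 : pfC (piC [(nat_lit 35755509), (nat_lit 23968959), (nat_lit 17897616), (nat_lit 12073119)] (nat_lit 7486600)) p12_16_2 (nat_lit 4) (nat_lit 164) (nat_lit 165) = true := by decide +kernel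
def p12_16_2_165 : pfC (piC [(nat_lit 35755509), (nat_lit 23968959), (nat_lit 17897616), (nat_lit 12073119)] (nat_lit 7486600)) p12_16_2 (nat_lit 4) (nat_lit 165) (nat_lit 166) = true := by decide +kernel
def p12_16_2_166 : pfC (piC [(nat_lit 35755509), (nat_lit 23968959), (nat_lit 17897616), (nat_lit 12073119)] (nat_lit 7486600)) p12_16_2 (nat_lit 4) (nat_lit 166) (nat_lit 167) = true := by decide +kernel
def p12_16_2_167 : pfC (piC [(nat_lit 35755509), (nat_lit 23968959), (nat_lit 17897616), (nat_lit 12073119)] (nat_lit 7486600)) p12_16_2 (nat_lit 4) (nat_lit 167) (nat_lit 168) = true := by decide +kernel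
def p12_16_2_168 : pfC (piC [(nat_lit 35755509), (nat_lit 23968959), (nat_lit 17897616), (nat_lit 12073119)] (nat_lit 7486600)) p12_16_2 (nat_lit 4) (nat_lit 168) (nat_lit 169) = true := by decide +kernel
def p12_16_2_169 : pfC (piC [(nat_lit 35755509), (nat_lit 23968959), (nat_lit 17897616), (nat_lit 12073119)] (nat_lit 7486600)) p12_16_2 (nat_lit 4) (nat_lit 169) (nat_lit 170) = true := by decide +kernel
def p12_16_2_170 : pfC (piC [(nat_lit 35755509), (nat_lit 23968959), (nat_lit 17897616), (nat_lit 12073119)] (nat_lit 7486600)) p12_16_2 (nat_lit 4) (nat_lit 170) (nat_lit 171) = true := by decide +kernel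
def p12_16_2_171 : pfC (piC [(nat_lit 35755509), (nat_lit 23968959), (nat_lit 17897616), (nat_lit 12073119)] (nat_lit 7486600)) p12_16_2 (nat_lit 4) (nat_lit 171) (nat_lit 172) = true := by decide +kernel
def p12_16_2_172 : pfC (piC [(nat_lit 35755509), (nat_lit 23968959), (nat_lit 17897616), (nat_lit 12073119)] (nat_lit 7486600)) p12_16_2 (nat_lit 4) (nat_lit 172) (nat_lit 173) = true := by decide +kernel
def p12_16_2_173 : pfC (piC [(nat_lit 35755509), (nat_lit 23968959), (nat_lit 17897616), (nat_lit 12073119)] (nat_lit 7486600)) p12_16_2 (nat_lit 4) (nat_lit 173) (nat_lit 174) = true := by decide +kernel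
def p12_16_2_174 : pfC (piC [(nat_lit 35755509), (nat_lit 23968959), (nat_lit 17897616), (nat_lit 12073119)] (nat_lit 7486600)) p12_16_2 (nat_lit 4) (nat_lit 174) (nat_lit 175) = true := by decide +kernel
def p12_16_2_175 : pfC (piC [(nat_lit 35755509), (nat_lit 23968959), (nat_lit 17897616), (nat_lit 12073119)] (nat_lit 7486600)) p12_16_2 (nat_lit 4) (nat_lit 175) (nat_lit 176) = true := by decide +kernel
def p12_16_2_176 : pfC (piC [(nat_lit 35755509), (nat_lit 23968959), (nat_lit 17897616), (nat_lit 12073119)] (nat_lit 7486600)) p12_16_2 (nat_lit 4) (nat_lit 176) (nat_lit 177) = true := by decide +kernel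
def p12_16_2_177 : pfC (piC [(nat_lit 35755509), (nat_lit 23968959), (nat_lit 17897616), (nat_lit 12073119)] (nat_lit 7486600)) p12_16_2 (nat_lit 4) (nat_lit 177) (nat_lit 178) = true := by decide +kernel
def p12_16_2_178 : pfC (piC [(nat_lit 35755509), (nat_lit 23968959), (nat_lit 17897616), (nat_lit 12073119)] (nat_lit 7486600)) p12_16_2 (nat_lit 4) (nat_lit 178) (nat_lit 179) = true := by decide +kernel
def p12_16_2_179 : pfC (piC [(nat_lit 35755509), (nat_lit 23968959), (nat_lit 17897616), (nat_lit 12073119)] (nat_lit 7486600)) p12_16_2 (nat_lit 4) (nat_lit 179) (nat_lit 180) = true := by decide +kernel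
def p12_16_2_180 : pfC (piC [(nat_lit 35755509), (nat_lit 23968959), (nat_lit 17897616), (nat_lit 12073119)] (nat_lit 7486600)) p12_16_2 (nat_lit 4) (nat_lit 180) (nat_lit 181) = true := by decide +kernel
def p12_16_2_181 : pfC (piC [(nat_lit 35755509), (nat_lit 23968959), (nat_lit 17897616), (nat_lit 12073119)] (nat_lit 7486600)) p12_16_2 (nat_lit 4) (nat_lit 181) (nat_lit 182) = true := by decide +kernel
def p12_16_2_182 : pfC (piC [(nat_lit 35755509), (nat_lit 23968959), (nat_lit 17897616), (nat_lit 12073119)] (nat_lit 7486600)) p12_16_2 (nat_lit 4) (nat_lit 182) (nat_lit 183) = true := by decide +kernel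
def p12_16_2_183 : pfC (piC [(nat_lit 35755509), (nat_lit 23968959), (nat_lit 17897616), (nat_lit 12073119)] (nat_lit 7486600)) p12_16_2 (nat_lit 4) (nat_lit 183) (nat_lit 184) = true := by decide +kernel
def p12_16_2_184 : pfC (piC [(nat_lit 35755509), (nat_lit 23968959), (nat_lit 17897616), (nat_lit 12073119)] (nat_lit 7486600)) p12_16_2 (nat_lit 4) (nat_lit 184) (nat_lit 185) = true := by decide +kernel
def p12_16_2_185 : pfC (piC [(nat_lit 35755509), (nat_lit 23968959), (nat_lit 17897616), (nat_lit 12073119)] (nat_lit 7486600)) p12_16_2 (nat_lit 4) (nat_lit 185) (nat_lit 186) = true := by decide +kernel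
def p12_16_2_186 : pfC (piC [(nat_lit 35755509), (nat_lit 23968959), (nat_lit 17897616), (nat_lit 12073119)] (nat_lit 7486600)) p12_16_2 (nat_lit 4) (nat_lit 186) (nat_lit 187) = true := by decide +kernel
def p12_16_2_187 : pfC (piC [(nat_lit 35755509), (nat_lit 23968959), (nat_lit 17897616), (nat_lit 12073119)] (nat_lit 7486600)) p12_16_2 (nat_lit 4) (nat_lit 187) (nat_lit 188) = true := by decide +kernel
def p12_16_2_188 : pfC (piC [(nat_lit 35755509), (nat_lit 23968959), (nat_lit 17897616), (nat_lit 12073119)] (nat_lit 7486600)) p12_16_2 (nat_lit 4) (nat_lit 188) (nat_lit 189) = true := by decide +kernel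
def p12_16_2_189 : pfC (piC [(nat_lit 35755509), (nat_lit 23968959), (nat_lit 17897616), (nat_lit 12073119)] (nat_lit 7486600)) p12_16_2 (nat_lit 4) (nat_lit 189) (nat_lit 190) = true := by decide +kernel
def p12_16_2_190 : pfC (piC [(nat_lit 35755509), (nat_lit 23968959), (nat_lit 17897616), (nat_lit 12073119)] (nat_lit 7486600)) p12_16_2 (nat_lit 4) (nat_lit 190) (nat_lit 191) = true := by decide +kernel
def p12_16_2_191 : pfC (piC [(nat_lit 35755509), (nat_lit 23968959), (nat_lit 17897616), (nat_lit 12073119)] (nat_lit 7486600)) p12_16_2 (nat_lit 4) (nat_lit 191) (nat_lit 192) = true := by decide +kernel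
def p12_16_2_192 : pfC (piC [(nat_lit 35755509), (nat_lit 23968959), (nat_lit 17897616), (nat_lit 12073119)] (nat_lit 7486600)) p12_16_2 (nat_lit 4) (nat_lit 192) (nat_lit 193) = true := by decide +kernel
def p12_16_2_193 : pfC (piC [(nat_lit 35755509), (nat_lit 23968959), (nat_lit 17897616), (nat_lit 12073119)] (nat_lit 7486600)) p12_16_2 (nat_lit 4) (nat_lit 193) (nat_lit 194) = true := by decide +kernel
def p12_16_2_194 : pfC (piC [(nat_lit 35755509), (nat_lit 23968959), (nat_lit 17897616), (nat_lit 12073119)] (nat_lit 7486600)) p12_16_2 (nat_lit 4) (nat_lit 194) (nat_lit 195) = true := by decide +kernel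
def p12_16_2_195 : pfC (piC [(nat_lit 35755509), (nat_lit 23968959), (nat_lit 17897616), (nat_lit 12073119)] (nat_lit 7486600)) p12_16_2 (nat_lit 4) (nat_lit 195) (nat_lit 196) = true := by decide +kernel
def p12_16_2_196 : pfC (piC [(nat_lit 35755509), (nat_lit 23968959), (nat_lit 17897616), (nat_lit 12073119)] (nat_lit 7486600)) p12_16_2 (nat_lit 4) (nat_lit 196) (nat_lit 197) = true := by decide +kernel
def p12_16_2_197 : pfC (piC [(nat_lit 35755509), (nat_lit 23968959), (nat_lit 17897616), (nat_lit 12073119)] (nat_lit 7486600)) p12_16_2 (nat_lit 4) (nat_lit 197) (nat_lit 198) = true := by decide +kernel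
def p12_16_2_198 : pfC (piC [(nat_lit 35755509), (nat_lit 23968959), (nat_lit 17897616), (nat_lit 12073119)] (nat_lit 7486600)) p12_16_2 (nat_lit 4) (nat_lit 198) (nat_lit 199) = true := by decide +kernel
def p12_16_2_199 : pfC (piC [(nat_lit 35755509), (nat_lit 23968959), (nat_lit 17897616), (nat_lit 12073119)] (nat_lit 7486600)) p12_16_2 (nat_lit 4) (nat_lit 199) (nat_lit 200) = true := by decide +kernel
def p12_16_2_200 : pfC (piC [(nat_lit 35755509), (nat_lit 23968959), (nat_lit 17897616), (nat_lit 12073119)] (nat_lit 7486600)) p12_16_2 (nat_lit 4) (nat_lit 200) (nat_lit 201) = true := by decide +kernel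
def p12_16_2_201 : pfC (piC [(nat_lit 35755509), (nat_lit 23968959), (nat_lit 17897616), (nat_lit 12073119)] (nat_lit 7486600)) p12_16_2 (nat_lit 4) (nat_lit 201) (nat_lit 202) = true := by decide +kernel
def p12_16_2_202 : pfC (piC [(nat_lit 35755509), (nat_lit 23968959), (nat_lit 17897616), (nat_lit 12073119)] (nat_lit 7486600)) p12_16_2 (nat_lit 4) (nat_lit 202) (nat_lit 203) = true := by decide +kernel
def p12_16_2_203 : pfC (piC [(nat_lit 35755509), (nat_lit 23968959), (nat_lit 17897616), (nat_lit 12073119)] (nat_lit 7486600)) p12_16_2 (nat_lit 4) (nat_lit 203) (nat_lit 204) = true := by decide +kernel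
def p12_16_2_204 : pfC (piC [(nat_lit 35755509), (nat_lit 23968959), (nat_lit 17897616), (nat_lit 12073119)] (nat_lit 7486600)) p12_16_2 (nat_lit 4) (nat_lit 204) (nat_lit 205) = true := by decide +kernel
def p12_16_2_205 : pfC (piC [(nat_lit 35755509), (nat_lit 23968959), (nat_lit 17897616), (nat_lit 12073119)] (nat_lit 7486600)) p12_16_2 (nat_lit 4) (nat_lit 205) (nat_lit 206) = true := by decide +kernel
def p12_16_2_206 : pfC (piC [(nat_lit 35755509), (nat_lit 23968959), (nat_lit 17897616), (nat_lit 12073119)] (nat_lit 7486600)) p12_16_2 (nat_lit 4) (nat_lit 206) (nat_lit 207) = true := by decide +kernel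
def p12_16_2_207 : pfC (piC [(nat_lit 35755509), (nat_lit 23968959), (nat_lit 17897616), (nat_lit 12073119)] (nat_lit 7486600)) p12_16_2 (nat_lit 4) (nat_lit 207) (nat_lit 208) = true := by decide +kernel
def p12_16_2_208 : pfC (piC [(nat_lit 35755509), (nat_lit 23968959), (nat_lit 17897616), (nat_lit 12073119)] (nat_lit 7486600)) p12_16_2 (nat_lit 4) (nat_lit 208) (nat_lit 209) = true := by decide +kernel
def p12_16_2_209 : pfC (piC [(nat_lit 35755509), (nat_lit 23968959), (nat_lit 17897616), (nat_lit 12073119)] (nat_lit 7486600)) p12_16_2 (nat_lit 4) (nat_lit 209) (nat_lit 210) = true := by decide +kernel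
def p12_16_2_210 : pfC (piC [(nat_lit 35755509), (nat_lit 23968959), (nat_lit 17897616), (nat_lit 12073119)] (nat_lit 7486600)) p12_16_2 (nat_lit 4) (nat_lit 210) (nat_lit 211) = true := by decide +kernel
def p12_16_2_211 : pfC (piC [(nat_lit 35755509), (nat_lit 23968959), (nat_lit 17897616), (nat_lit 12073119)] (nat_lit 7486600)) p12_16_2 (nat_lit 4) (nat_lit 211) (nat_lit 212) = true := by decide +kernel
def p12_16_2_212 : pfC (piC [(nat_lit 35755509), (nat_lit 23968959), (nat_lit 17897616), (nat_lit 12073119)] (nat_lit 7486600)) p12_16_2 (nat_lit 4) (nat_lit 212) (nat_lit 213) = true := by decide +kernel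
def p12_16_2_213 : pfC (piC [(nat_lit 35755509), (nat_lit 23968959), (nat_lit 17897616), (nat_lit 12073119)] (nat_lit 7486600)) p12_16_2 (nat_lit 4) (nat_lit 213) (nat_lit 214) = true := by decide +kernel
def p12_16_2_214 : pfC (piC [(nat_lit 35755509), (nat_lit 23968959), (nat_lit 17897616), (nat_lit 12073119)] (nat_lit 7486600)) p12_16_2 (nat_lit 4) (nat_lit 214) (nat_lit 215) = true := by decide +kernel
def p12_16_2_215 : pfC (piC [(nat_lit 35755509), (nat_lit 23968959), (nat_lit 17897616), (nat_lit 12073119)] (nat_lit 7486600)) p12_16_2 (nat_lit 4) (nat_lit 215) (nat_lit 216) = true := by decide +kernel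
def p12_16_2_216 : pfC (piC [(nat_lit 35755509), (nat_lit 23968959), (nat_lit 17897616), (nat_lit 12073119)] (nat_lit 7486600)) p12_16_2 (nat_lit 4) (nat_lit 216) (nat_lit 217) = true := by decide +kernel
def p12_16_2_217 : pfC (piC [(nat_lit 35755509), (nat_lit 23968959), (nat_lit 17897616), (nat_lit 12073119)] (nat_lit 7486600)) p12_16_2 (nat_lit 4) (nat_lit 217) (nat_lit 218) = true := by decide +kernel
def p12_16_2_218 : pfC (piC [(nat_lit 35755509), (nat_lit 23968959), (nat_lit 17897616), (nat_lit 12073119)] (nat_lit 7486600)) p12_16_2 (nat_lit 4) (nat_lit 218) (nat_lit 219) = true := by decide +kernel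
def p12_16_2_219 : pfC (piC [(nat_lit 35755509), (nat_lit 23968959), (nat_lit 17897616), (nat_lit 12073119)] (nat_lit 7486600)) p12_16_2 (nat_lit 4) (nat_lit 219) (nat_lit 220) = true := by decide +kernel
def p12_16_2_220 : pfC (piC [(nat_lit 35755509), (nat_lit 23968959), (nat_lit 17897616), (nat_lit 12073119)] (nat_lit 7486600)) p12_16_2 (nat_lit 4) (nat_lit 220) (nat_lit 221) = true := by decide +kernel
def p12_16_2_221 : pfC (piC [(nat_lit 35755509), (nat_lit 23968959), (nat_lit 17897616), (nat_lit 12073119)] (nat_lit 7486600)) p12_16_2 (nat_lit 4) (nat_lit 221) (nat_lit 222) = true := by decide +kernel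
def p12_16_2_222 : pfC (piC [(nat_lit 35755509), (nat_lit 23968959), (nat_lit 17897616), (nat_lit 12073119)] (nat_lit 7486600)) p12_16_2 (nat_lit 4) (nat_lit 222) (nat_lit 223) = true := by decide +kernel
def p12_16_2_223 : pfC (piC [(nat_lit 35755509), (nat_lit 23968959), (nat_lit 17897616), (nat_lit 12073119)] (nat_lit 7486600)) p12_16_2 (nat_lit 4) (nat_lit 223) (nat_lit 224) = true := by decide +kernel
def p12_16_2_224 : pfC (piC [(nat_lit 35755509), (nat_lit 23968959), (nat_lit 17897616), (nat_lit 12073119)] (nat_lit 7486600)) p12_16_2 (nat_lit 4) (nat_lit 224) (nat_lit 225) = true := by decide +kernel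
def p12_16_2_225 : pfC (piC [(nat_lit 35755509), (nat_lit 23968959), (nat_lit 17897616), (nat_lit 12073119)] (nat_lit 7486600)) p12_16_2 (nat_lit 4) (nat_lit 225) (nat_lit 226) = true := by decide +kernel
def p12_16_2_226 : pfC (piC [(nat_lit 35755509), (nat_lit 23968959), (nat_lit 17897616), (nat_lit 12073119)] (nat_lit 7486600)) p12_16_2 (nat_lit 4) (nat_lit 226) (nat_lit 227) = true := by decide +kernel
def p12_16_2_227 : pfC (piC [(nat_lit 35755509), (nat_lit 23968959), (nat_lit 17897616), (nat_lit 12073119)] (nat_lit 7486600)) p12_16_2 (nat_lit 4) (nat_lit 227) (nat_lit 228) = true := by decide +kernel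
def p12_16_2_228 : pfC (piC [(nat_lit 35755509), (nat_lit 23968959), (nat_lit 17897616), (nat_lit 12073119)] (nat_lit 7486600)) p12_16_2 (nat_lit 4) (nat_lit 228) (nat_lit 229) = true := by decide +kernel
def p12_16_2_229 : pfC (piC [(nat_lit 35755509), (nat_lit 23968959), (nat_lit 17897616), (nat_lit 12073119)] (nat_lit 7486600)) p12_16_2 (nat_lit 4) (nat_lit 229) (nat_lit 230) = true := by decide +kernel
def p12_16_2_230 : pfC (piC [(nat_lit 35755509), (nat_lit 23968959), (nat_lit 17897616), (nat_lit 12073119)] (nat_lit 7486600)) p12_16_2 (nat_lit 4) (nat_lit 230) (nat_lit 231) = true := by decide +kernel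
def p12_16_2_231 : pfC (piC [(nat_lit 35755509), (nat_lit 23968959), (nat_lit 17897616), (nat_lit 12073119)] (nat_lit 7486600)) p12_16_2 (nat_lit 4) (nat_lit 231) (nat_lit 232) = true := by decide +kernel
def p12_16_2_232 : pfC (piC [(nat_lit 35755509), (nat_lit 23968959), (nat_lit 17897616), (nat_lit 12073119)] (nat_lit 7486600)) p12_16_2 (nat_lit 4) (nat_lit 232) (nat_lit 233) = true := by decide +kernel
def p12_16_2_233 : pfC (piC [(nat_lit 35755509), (nat_lit 23968959), (nat_lit 17897616), (nat_lit 12073119)] (nat_lit 7486600)) p12_16_2 (nat_lit 4) (nat_lit 233) (nat_lit 234) = true := by decide +kernel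
def p12_16_2_234 : pfC (piC [(nat_lit 35755509), (nat_lit 23968959), (nat_lit 17897616), (nat_lit 12073119)] (nat_lit 7486600)) p12_16_2 (nat_lit 4) (nat_lit 234) (nat_lit 235) = true := by decide +kernel
def p12_16_2_235 : pfC (piC [(nat_lit 35755509), (nat_lit 23968959), (nat_lit 17897616), (nat_lit 12073119)] (nat_lit 7486600)) p12_16_2 (nat_lit 4) (nat_lit 235) (nat_lit 236) = true := by decide +kernel
def p12_16_2_236 : pfC (piC [(nat_lit 35755509), (nat_lit 23968959), (nat_lit 17897616), (nat_lit 12073119)] (nat_lit 7486600)) p12_16_2 (nat_lit 4) (nat_lit 236) (nat_lit 237) = true := by decide +kernel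
def p12_16_2_237 : pfC (piC [(nat_lit 35755509), (nat_lit 23968959), (nat_lit 17897616), (nat_lit 12073119)] (nat_lit 7486600)) p12_16_2 (nat_lit 4) (nat_lit 237) (nat_lit 238) = true := by decide +kernel
def p12_16_2_238 : pfC (piC [(nat_lit 35755509), (nat_lit 23968959), (nat_lit 17897616), (nat_lit 12073119)] (nat_lit 7486600)) p12_16_2 (nat_lit 4) (nat_lit 238) (nat_lit 239) = true := by decide +kernel
theorem p12_16_2_T : PfS (PiF n12_16.reverse (nat_lit 7486600)) p12_16_2 (nat_lit 4) [] 0 :=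
  pftab_of (los := [(nat_lit 35755509), (nat_lit 23968959), (nat_lit 17897616), (nat_lit 12073119)]) (by decide +kernel) (hi := (nat_lit 239)) (PfP.trans (PfP.trans (PfP.trans (PfP.trans (PfP.trans (PfP.trans (PfP.trans (PfP.trans (PfP.trans (PfP.trans (PfP.trans (PfP.trans (PfP.trans (PfP.trans (PfP.trans (PfP.trans (PfP.trans (PfP.trans (PfP.trans (PfP.trans (PfP.trans (PfP.trans (PfP.trans (PfP.trans (PfP.trans (PfP.trans (PfP.trans (PfP.trans (PfP.trans (PfP.trans (PfP.trans (PfP.trans (PfP.trans (PfP.trans (PfP.trans (PfP.trans (PfP.trans (PfP.trans (PfP.trans (PfP.trans (PfP.trans (PfP.trans (PfP.trans (PfP.trans (PfP.trans (PfP.trans (PfP.trans (PfP.trans (PfP.trans (PfP.trans (PfP.trans (PfP.trans (PfP.trans (PfP.trans (PfP.trans (PfP.trans (PfP.trans (PfP.trans (PfP.trans (PfP.trans (PfP.trans (PfP.trans (PfP.trans (PfP.trans (PfP.trans (PfP.trans (PfP.trans (PfP.trans (PfP.trans (PfP.trans (PfP.trans (PfP.trans (PfP.trans (PfP.trans (PfP.trans (PfP.trans (PfP.trans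 (PfP.trans (PfP.trans (PfP.trans (PfP.trans (PfP.trans (PfP.trans (PfP.trans (PfP.trans (PfP.trans (PfP.trans (PfP.trans (PfP.trans (PfP.trans (PfP.trans (PfP.trans (PfP.trans (PfP.trans (PfP.trans (PfP.trans (PfP.trans (PfP.trans (PfP.trans (PfP.trans (PfP.trans (PfP.trans (PfP.trans (PfP.trans (PfP.trans (PfP.trans (PfP.trans (PfP.trans (PfP.trans
 (PfP.trans (PfP.trans (PfP.trans (PfP.trans (PfP.trans (PfP.trans (PfP.trans (PfP.trans (PfP.trans (PfP.trans (PfP.trans (PfP.trans (PfP.trans (PfP.trans (PfP.trans (PfP.trans (PfP.trans (PfP.trans (PfP.trans (PfP.trans (PfP.trans (PfP.trans (PfP.trans (PfP.trans (PfP.trans (PfP.trans (PfP.trans (PfP.trans (PfP.trans (PfP.trans (PfP.trans (PfP.trans (PfP.trans (PfP.trans (PfP.trans (PfP.trans (PfP.trans (PfP.trans (PfP.trans (PfP.trans (PfP.trans (PfP.trans (PfP.trans (PfP.trans (PfP.trans (PfP.trans (PfP.trans (PfP.trans (PfP.trans (PfP.trans (PfP.trans (PfP.trans (PfP.trans (PfP.trans (PfP.trans (PfP.trans (PfP.trans (PfP.trans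 (PfP.trans (PfP.trans (PfP.trans (PfP.trans (PfP.trans (PfP.trans (PfP.trans (PfP.trans (PfP.trans (PfP.trans (PfP.trans (PfP.trans (PfP.trans (PfP.trans (PfP.trans (PfP.trans (PfP.trans (PfP.trans (PfP.trans (PfP.trans (PfP.trans (PfP.trans (PfP.trans (PfP.trans (PfP.trans (PfP.trans (PfP.trans (PfP.trans (PfP.trans (PfP.trans (PfP.trans (PfP.trans (PfP.trans (PfP.trans (PfP.trans (PfP.trans (PfP.trans (PfP.trans (PfP.trans (PfP.trans (PfP.trans (PfP.trans (PfP.trans (PfP.trans (PfP.trans (PfP.trans (PfP.trans (PfP.trans (PfP.trans (PfP.trans (PfP.trans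
 (PfP.trans (PfP.trans (PfP.trans (PfP.trans (PfP.trans (PfP.trans (PfP.trans (PfP.trans (PfP.trans (PfP.trans (PfP.trans (PfP.trans (PfP.trans (PfP.trans (PfP.trans (PfP.trans (PfP.trans (PfP.trans (PfP.trans (PfP.trans (pfC_sound p12_16_2_0) (pfC_sound p12_16_2_1)) (pfC_sound p12_16_2_2)) (pfC_sound p12_16_2_3)) (pfC_sound p12_16_2_4)) (pfC_sound p12_16_2_5)) (pfC_sound p12_16_2_6)) (pfC_sound p12_16_2_7)) (pfC_sound p12_16_2_8)) (pfC_sound p12_16_2_9)) (pfC_sound p12_16_2_10)) (pfC_sound p12_16_2_11)) (pfC_sound p12_16_2_12)) (pfC_sound p12_16_2_13)) (pfC_sound p12_16_2_14)) (pfC_sound p12_16_2_15)) (pfC_sound p12_16_2_16)) (pfC_sound p12_16_2_17)) (pfC_sound p12_16_2_18)) (pfC_sound p12_16_2_19)) (pfC_sound p12_16_2_20)) (pfC_sound p12_16_2_21)) (pfC_sound p12_16_2_22)) (pfC_sound p12_16_2_23)) (pfC_sound p12_16_2_24)) (pfC_sound p12_16_2_25)) (pfC_sound p12_16_2_26)) (pfC_sound p12_16_2_27)) (pfC_sound p12_16_2_28)) (pfC_sound p12_16_2_29)) (pfC_sound p12_16_2_30))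 (pfC_sound p12_16_2_31)) (pfC_sound p12_16_2_32)) (pfC_sound p12_16_2_33)) (pfC_sound p12_16_2_34)) (pfC_sound p12_16_2_35)) (pfC_sound p12_16_2_36)) (pfC_sound p12_16_2_37)) (pfC_sound p12_16_2_38)) (pfC_sound
 p12_16_2_39)) (pfC_sound p12_16_2_40)) (pfC_sound p12_16_2_41)) (pfC_sound p12_16_2_42)) (pfC_sound p12_16_2_43)) (pfC_sound p12_16_2_44)) (pfC_sound p12_16_2_45)) (pfC_sound p12_16_2_46)) (pfC_sound p12_16_2_47)) (pfC_sound p12_16_2_48)) (pfC_sound p12_16_2_49)) (pfC_sound p12_16_2_50)) (pfC_sound p12_16_2_51)) (pfC_sound p12_16_2_52)) (pfC_sound p12_16_2_53)) (pfC_sound p12_16_2_54)) (pfC_sound p12_16_2_55)) (pfC_sound p12_16_2_56)) (pfC_sound p12_16_2_57)) (pfC_sound p12_16_2_58)) (pfC_sound p12_16_2_59)) (pfC_sound p12_16_2_60)) (pfC_sound p12_16_2_61)) (pfC_sound p12_16_2_62)) (pfC_sound p12_16_2_63)) (pfC_sound p12_16_2_64)) (pfC_sound p12_16_2_65)) (pfC_sound p12_16_2_66)) (pfC_sound p12_16_2_67)) (pfC_sound p12_16_2_68)) (pfC_sound p12_16_2_69)) (pfC_sound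 p12_16_2_70)) (pfC_sound p12_16_2_71)) (pfC_sound p12_16_2_72)) (pfC_sound p12_16_2_73)) (pfC_sound p12_16_2_74)) (pfC_sound p12_16_2_75)) (pfC_sound p12_16_2_76)) (pfC_sound p12_16_2_77)) (pfC_sound p12_16_2_78)) (pfC_sound p12_16_2_79)) (pfC_sound p12_16_2_80)) (pfC_sound p12_16_2_81)) (pfC_sound p12_16_2_82)) (pfC_sound p12_16_2_83)) (pfC_sound p12_16_2_84)) (pfC_sound p12_16_2_85)) (pfC_sound p12_16_2_86)) (pfC_sound
 p12_16_2_87)) (pfC_sound p12_16_2_88)) (pfC_sound p12_16_2_89)) (pfC_sound p12_16_2_90)) (pfC_sound p12_16_2_91)) (pfC_sound p12_16_2_92)) (pfC_sound p12_16_2_93)) (pfC_sound p12_16_2_94)) (pfC_sound p12_16_2_95)) (pfC_sound p12_16_2_96)) (pfC_sound p12_16_2_97)) (pfC_sound p12_16_2_98)) (pfC_sound p12_16_2_99)) (pfC_sound p12_16_2_100)) (pfC_sound p12_16_2_101)) (pfC_sound p12_16_2_102)) (pfC_sound p12_16_2_103)) (pfC_sound p12_16_2_104)) (pfC_sound p12_16_2_105)) (pfC_sound p12_16_2_106)) (pfC_sound p12_16_2_107)) (pfC_sound p12_16_2_108)) (pfC_sound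 p12_16_2_109)) (pfC_sound p12_16_2_110)) (pfC_sound p12_16_2_111)) (pfC_sound p12_16_2_112)) (pfC_sound p12_16_2_113)) (pfC_sound p12_16_2_114)) (pfC_sound p12_16_2_115)) (pfC_sound p12_16_2_116)) (pfC_sound p12_16_2_117)) (pfC_sound p12_16_2_118)) (pfC_sound p12_16_2_119)) (pfC_sound p12_16_2_120)) (pfC_sound p12_16_2_121)) (pfC_sound p12_16_2_122)) (pfC_sound p12_16_2_123)) (pfC_sound p12_16_2_124)) (pfC_sound p12_16_2_125)) (pfC_sound p12_16_2_126)) (pfC_sound p12_16_2_127)) (pfC_sound p12_16_2_128)) (pfC_sound p12_16_2_129)) (pfC_sound p12_16_2_130)) (pfC_sound p12_16_2_131)) (pfC_sound p12_16_2_132)) (pfC_sound p12_16_2_133))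
 (pfC_sound p12_16_2_134)) (pfC_sound p12_16_2_135)) (pfC_sound p12_16_2_136)) (pfC_sound p12_16_2_137)) (pfC_sound p12_16_2_138)) (pfC_sound p12_16_2_139)) (pfC_sound p12_16_2_140)) (pfC_sound p12_16_2_141)) (pfC_sound p12_16_2_142)) (pfC_sound p12_16_2_143)) (pfC_sound p12_16_2_144)) (pfC_sound p12_16_2_145)) (pfC_sound p12_16_2_146)) (pfC_sound p12_16_2_147)) (pfC_sound p12_16_2_148)) (pfC_sound p12_16_2_149)) (pfC_sound p12_16_2_150)) (pfC_sound p12_16_2_151)) (pfC_sound p12_16_2_152)) (pfC_sound p12_16_2_153)) (pfC_sound p12_16_2_154)) (pfC_sound p12_16_2_155)) (pfC_sound p12_16_2_156)) (pfC_sound p12_16_2_157)) (pfC_sound p12_16_2_158)) (pfC_sound p12_16_2_159)) (pfC_sound p12_16_2_160)) (pfC_sound p12_16_2_161)) (pfC_sound p12_16_2_162)) (pfC_sound p12_16_2_163)) (pfC_sound p12_16_2_164)) (pfC_sound p12_16_2_165)) (pfC_sound p12_16_2_166)) (pfC_sound p12_16_2_167)) (pfC_sound p12_16_2_168)) (pfC_sound p12_16_2_169)) (pfC_sound p12_16_2_170)) (pfC_sound p12_16_2_171))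 (pfC_sound p12_16_2_172)) (pfC_sound p12_16_2_173)) (pfC_sound p12_16_2_174)) (pfC_sound p12_16_2_175)) (pfC_sound p12_16_2_176)) (pfC_sound p12_16_2_177)) (pfC_sound p12_16_2_178)) (pfC_sound p12_16_2_179))
 (pfC_sound p12_16_2_180)) (pfC_sound p12_16_2_181)) (pfC_sound p12_16_2_182)) (pfC_sound p12_16_2_183)) (pfC_sound p12_16_2_184)) (pfC_sound p12_16_2_185)) (pfC_sound p12_16_2_186)) (pfC_sound p12_16_2_187)) (pfC_sound p12_16_2_188)) (pfC_sound p12_16_2_189)) (pfC_sound p12_16_2_190)) (pfC_sound p12_16_2_191)) (pfC_sound p12_16_2_192)) (pfC_sound p12_16_2_193)) (pfC_sound p12_16_2_194)) (pfC_sound p12_16_2_195)) (pfC_sound p12_16_2_196)) (pfC_sound p12_16_2_197)) (pfC_sound p12_16_2_198)) (pfC_sound p12_16_2_199)) (pfC_sound p12_16_2_200)) (pfC_sound p12_16_2_201)) (pfC_sound p12_16_2_202)) (pfC_sound p12_16_2_203)) (pfC_sound p12_16_2_204)) (pfC_sound p12_16_2_205)) (pfC_sound p12_16_2_206)) (pfC_sound p12_16_2_207)) (pfC_sound p12_16_2_208)) (pfC_sound p12_16_2_209))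 (pfC_sound p12_16_2_210)) (pfC_sound p12_16_2_211)) (pfC_sound p12_16_2_212)) (pfC_sound p12_16_2_213)) (pfC_sound p12_16_2_214)) (pfC_sound p12_16_2_215)) (pfC_sound p12_16_2_216)) (pfC_sound p12_16_2_217)) (pfC_sound p12_16_2_218)) (pfC_sound p12_16_2_219)) (pfC_sound p12_16_2_220)) (pfC_sound p12_16_2_221)) (pfC_sound p12_16_2_222)) (pfC_sound p12_16_2_223)) (pfC_sound p12_16_2_224)) (pfC_sound p12_16_2_225))
 (pfC_sound p12_16_2_226)) (pfC_sound p12_16_2_227)) (pfC_sound p12_16_2_228)) (pfC_sound p12_16_2_229)) (pfC_sound p12_16_2_230)) (pfC_sound p12_16_2_231)) (pfC_sound p12_16_2_232)) (pfC_sound p12_16_2_233)) (pfC_sound p12_16_2_234)) (pfC_sound p12_16_2_235)) (pfC_sound p12_16_2_236)) (pfC_sound p12_16_2_237)) (pfC_sound p12_16_2_238)) (by decide +kernel)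

def z12_16_2 : zOK yB12_16 (nat_lit 2) (nat_lit 600) (nat_lit 750) (nat_lit 7486600) (nat_lit 6014801) = true := by decide +kernel
def g12_16_2 : gOK yB12_16.x P12_16 (nat_lit 1404) (q12_16 :: r12_16) (nat_lit 2) (nat_lit 600) (nat_lit 3) (nat_lit 750) (nat_lit 12712500) (nat_lit 12712500) (nat_lit 12712500) (nat_lit 12712500) [(nat_lit 800), (nat_lit 1600)] = true := by decide +kernel
def v12_16_2 : ivC P12_16 s12_16 w12_16 n12_16 (nat_lit 4) (nat_lit 4740) (nat_lit 2) (nat_lit 600) f168_1_600 f176_1_600 (nat_lit 3) (nat_lit 750) f168_1_750 f176_1_750 (nat_lit 7486600) (nat_lit 6014801) p12_16_2 = true := by decide +kernel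
def p12_16_3 : PF := (PF.cons (PF.cons (PF.cons (PF.cons (PF.leaf (nat_lit 2702101) (nat_lit 15498717) (nat_lit 51610095) (nat_lit 15498717) [(nat_lit 0), (nat_lit 0), (nat_lit 0), (nat_lit 0)]) (PF.cons (PF.leaf (nat_lit 2920403) (nat_lit 405823) (nat_lit 51226823) (nat_lit 15476166) [(nat_lit 405823), (nat_lit 0), (nat_lit 0), (nat_lit 0)]) (PF.cons (PF.leaf (nat_lit 3176435) (nat_lit 440188) (nat_lit 50781218) (nat_lit 15447216) [(nat_lit 440188), (nat_lit 0), (nat_lit 0), (nat_lit 0)]) (PF.cons (PF.leaf (nat_lit 3462567) (nat_lit 470227) (nat_lit 50286374) (nat_lit 15411756) [(nat_lit 470227), (nat_lit 0), (nat_lit 0), (nat_lit 0)]) (PF.cons (PF.leaf (nat_lit 3773807) (nat_lit 496850) (nat_lit 49751748) (nat_lit 15369661) [(nat_lit 496850), (nat_lit 0), (nat_lit 0), (nat_lit 0)]) (PF.cons (PF.leaf (nat_lit 4106297) (nat_lit 520644) (nat_lit 49184728) (nat_lit 15320860) [(nat_lit 520644), (nat_lit 0), (nat_lit 0), (nat_lit 0)]) (PF.cons (PF.leaf (nat_lit 4456847) (nat_lit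 542017) (nat_lit 48591357) (nat_lit 15265350) [(nat_lit 542017), (nat_lit 0), (nat_lit 0), (nat_lit 0)]) (PF.cons (PF.leaf (nat_lit 4822757) (nat_lit 561268) (nat_lit 47976726) (nat_lit 15203209) [(nat_lit 561268), (nat_lit 0),
 (nat_lit 0), (nat_lit 0)]) (PF.cons (PF.leaf (nat_lit 5201667) (nat_lit 578628) (nat_lit 47345204) (nat_lit 15134582) [(nat_lit 578628), (nat_lit 0), (nat_lit 0), (nat_lit 0)]) (PF.cons (PF.leaf (nat_lit 5591512) (nat_lit 594283) (nat_lit 46700582) (nat_lit 15059680) [(nat_lit 594283), (nat_lit 0), (nat_lit 0), (nat_lit 0)]) (PF.cons (PF.leaf (nat_lit 5990440) (nat_lit 608387) (nat_lit 46046179) (nat_lit 14978763) [(nat_lit 608387), (nat_lit 0), (nat_lit 0), (nat_lit 0)]) (PF.cons PF.nil (PF.cons PF.nil (PF.cons PF.nil PF.nil)))))))))))))) (PF.cons (PF.cons (PF.leaf (nat_lit 3329665) (nat_lit 1548136) (nat_lit 50164103) (nat_lit 15396573) [(nat_lit 0), (nat_lit 1548136), (nat_lit 0), (nat_lit 0)]) (PF.cons (PF.leaf (nat_lit 3604040) (nat_lit 477727)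 (nat_lit 49683159) (nat_lit 15358044) [(nat_lit 477727), (nat_lit 1589881), (nat_lit 0), (nat_lit 0)]) (PF.cons (PF.leaf (nat_lit 3905969) (nat_lit 503590) (nat_lit 49159602) (nat_lit 15312637) [(nat_lit 503590), (nat_lit 1629392), (nat_lit 0), (nat_lit 0)]) (PF.cons (PF.leaf (nat_lit 4230308) (nat_lit 526615) (nat_lit 48602345) (nat_lit 15260453) [(nat_lit 526615), (nat_lit 1666166), (nat_lit 0), (nat_lit 0)]) (PF.cons (PF.leaf
 (nat_lit 4573415) (nat_lit 547247) (nat_lit 48018204) (nat_lit 15201602) [(nat_lit 547247), (nat_lit 1700017), (nat_lit 0), (nat_lit 0)]) (PF.cons (PF.leaf (nat_lit 4932341) (nat_lit 565796) (nat_lit 47412675) (nat_lit 15136236) [(nat_lit 565796), (nat_lit 1730916), (nat_lit 0), (nat_lit 0)]) (PF.cons (PF.leaf (nat_lit 5304577) (nat_lit 582500) (nat_lit 46790340) (nat_lit 15064552) [(nat_lit 582500), (nat_lit 1758917), (nat_lit 0), (nat_lit 0)]) (PF.cons (PF.leaf (nat_lit 5687946) (nat_lit 597543) (nat_lit 46155097) (nat_lit 14986797) [(nat_lit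 597543), (nat_lit 1784113), (nat_lit 0), (nat_lit 0)]) (PF.cons (PF.leaf (nat_lit 6080580) (nat_lit 611078) (nat_lit 45510308) (nat_lit 14903255) [(nat_lit 611078), (nat_lit 1806621), (nat_lit 0), (nat_lit 0)]) (PF.cons (PF.leaf (nat_lit 6480746) (nat_lit 623233) (nat_lit 44858892) (nat_lit 14814246) [(nat_lit 623233), (nat_lit 1826572), (nat_lit 0), (nat_lit 0)]) (PF.cons PF.nil (PF.cons PF.nil PF.nil)))))))))))) (PF.cons (PF.cons (PF.leaf (nat_lit 4041914) (nat_lit 1651255) (nat_lit 48556181) (nat_lit 15250120) [(nat_lit 0), (nat_lit 1651255), (nat_lit 0), (nat_lit 0)]) (PF.cons (PF.leaf (nat_lit 4356040) (nat_lit 531450) (nat_lit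
 48013012) (nat_lit 15195232) [(nat_lit 531450), (nat_lit 1684558), (nat_lit 0), (nat_lit 0)]) (PF.cons (PF.leaf (nat_lit 4690583) (nat_lit 551545) (nat_lit 47441175) (nat_lit 15133608) [(nat_lit 551545), (nat_lit 1715469), (nat_lit 0), (nat_lit 0)]) (PF.cons (PF.leaf (nat_lit 5041748) (nat_lit 569543) (nat_lit 46847026) (nat_lit 15065509) [(nat_lit 569543), (nat_lit 1743823), (nat_lit 0), (nat_lit 0)]) (PF.cons (PF.leaf (nat_lit 5406763) (nat_lit 585703) (nat_lit 46235615) (nat_lit 14991207) [(nat_lit 585703), (nat_lit 1769588), (nat_lit 0), (nat_lit 0)]) (PF.cons (PF.leaf (nat_lit 5783296) (nat_lit 600223) (nat_lit 45611099) (nat_lit 14910996) [(nat_lit 600223), (nat_lit 1792799), (nat_lit 0), (nat_lit 0)]) (PF.cons (PF.leaf (nat_lit 6169334) (nat_lit 613261) (nat_lit 44976982) (nat_lit 14825190) [(nat_lit 613261), (nat_lit 1813534), (nat_lit 0), (nat_lit 0)]) (PF.cons (PF.leaf (nat_lit 6563150) (nat_lit 624949) (nat_lit 44336257) (nat_lit 14734129) [(nat_lit 624949),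 (nat_lit 1831889), (nat_lit 0), (nat_lit 0)]) (PF.cons PF.nil (PF.cons PF.nil PF.nil)))))))))) (PF.cons (PF.cons (PF.leaf (nat_lit 4809933) (nat_lit 1729483) (nat_lit 46859093) (nat_lit 15061269) [(nat_lit 0),
 (nat_lit 1729483), (nat_lit 0), (nat_lit 0)]) (PF.cons (PF.leaf (nat_lit 5151939) (nat_lit 572490) (nat_lit 46279054) (nat_lit 14991010) [(nat_lit 572490), (nat_lit 1755418), (nat_lit 0), (nat_lit 0)]) (PF.cons (PF.leaf (nat_lit 5508970) (nat_lit 588231) (nat_lit 45680562) (nat_lit 14914578) [(nat_lit 588231), (nat_lit 1779069), (nat_lit 0), (nat_lit 0)]) (PF.cons (PF.leaf (nat_lit 5878129) (nat_lit 602324) (nat_lit 45068274) (nat_lit 14832335) [(nat_lit 602324), (nat_lit 1800409), (nat_lit 0), (nat_lit 0)]) (PF.cons (PF.leaf (nat_lit 6257225) (nat_lit 614942) (nat_lit 44445978) (nat_lit 14744643) [(nat_lit 614942), (nat_lit 1819473), (nat_lit 0), (nat_lit 0)]) (PF.cons (PF.leaf (nat_lit 6644412) (nat_lit 626225) (nat_lit 43816833) (nat_lit 14651868) [(nat_lit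 626225), (nat_lit 1836328), (nat_lit 0), (nat_lit 0)]) (PF.cons (PF.leaf (nat_lit 7038062) (nat_lit 636288) (nat_lit 43183510) (nat_lit 14554379) [(nat_lit 636288), (nat_lit 1851062), (nat_lit 0), (nat_lit 0)]) (PF.cons PF.nil (PF.cons PF.nil PF.nil))))))))) (PF.cons (PF.cons (PF.leaf (nat_lit 5612384) (nat_lit 1787452) (nat_lit 45124376) (nat_lit 14834627) [(nat_lit 0), (nat_lit 1787452), (nat_lit 0), (nat_lit 0)]) (PF.cons
 (PF.leaf (nat_lit 5973174) (nat_lit 603836) (nat_lit 44526081) (nat_lit 14750826) [(nat_lit 603836), (nat_lit 1807017), (nat_lit 0), (nat_lit 0)]) (PF.cons (PF.leaf (nat_lit 6344812) (nat_lit 616117) (nat_lit 43916917) (nat_lit 14661654) [(nat_lit 616117), (nat_lit 1824501), (nat_lit 0), (nat_lit 0)]) (PF.cons (PF.leaf (nat_lit 6725009) (nat_lit 627060) (nat_lit 43300340) (nat_lit 14567520) [(nat_lit 627060), (nat_lit 1839942), (nat_lit 0), (nat_lit 0)]) (PF.cons (PF.leaf (nat_lit 7112040) (nat_lit 636793) (nat_lit 42679204) (nat_lit 14468821) [(nat_lit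 636793), (nat_lit 1853403), (nat_lit 0), (nat_lit 0)]) (PF.cons PF.nil (PF.cons PF.nil PF.nil))))))) (PF.cons (PF.cons (PF.leaf (nat_lit 6432992) (nat_lit 1828676) (nat_lit 43389212) (nat_lit 14576216) [(nat_lit 0), (nat_lit 1828676), (nat_lit 0), (nat_lit 0)]) (PF.cons (PF.leaf (nat_lit 6805485) (nat_lit 627449) (nat_lit 42786356) (nat_lit 14481108) [(nat_lit 627449), (nat_lit 1842779), (nat_lit 0), (nat_lit 0)]) (PF.cons (PF.leaf (nat_lit 7185549) (nat_lit 636910) (nat_lit 42178261) (nat_lit 14381530) [(nat_lit 636910), (nat_lit 1855039), (nat_lit 0), (nat_lit 0)]) (PF.cons (PF.leaf (nat_lit 7571354) (nat_lit 645269) (nat_lit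
 41567505) (nat_lit 14277897) [(nat_lit 645269), (nat_lit 1865520), (nat_lit 0), (nat_lit 0)]) (PF.cons PF.nil PF.nil))))) (PF.cons (PF.cons (PF.leaf (nat_lit 7259318) (nat_lit 1856011) (nat_lit 41680229) (nat_lit 14292511) [(nat_lit 0), (nat_lit 1856011), (nat_lit 0), (nat_lit 0)]) (PF.cons (PF.leaf (nat_lit 7638008) (nat_lit 644774) (nat_lit 41082771) (nat_lit 14188428) [(nat_lit 644774), (nat_lit 1865473), (nat_lit 0), (nat_lit 0)]) (PF.cons PF.nil (PF.cons PF.nil PF.nil)))) (PF.cons (PF.cons (PF.leaf (nat_lit 8081940) (nat_lit 1871850) (nat_lit 40016054) (nat_lit 13989807) [(nat_lit 0), (nat_lit 1871850), (nat_lit 0), (nat_lit 0)]) (PF.cons PF.nil PF.nil)) (PF.cons PF.nil PF.nil))))))))) (PF.cons (PF.cons (PF.cons (PF.leaf (nat_lit 3889077) (nat_lit 3762243) (nat_lit 48161517) (nat_lit 15185051) [(nat_lit 0), (nat_lit 0), (nat_lit 3762243), (nat_lit 0)]) (PF.cons (PF.leaf (nat_lit 4171640) (nat_lit 504381) (nat_lit 47676244) (nat_lit 15134511) [(nat_lit 504381), (nat_lit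 0), (nat_lit 3793675), (nat_lit 0)]) (PF.cons (PF.leaf (nat_lit 4479849) (nat_lit 527886) (nat_lit 47152556) (nat_lit 15076813) [(nat_lit 527886), (nat_lit 0), (nat_lit 3823669), (nat_lit 0)]) (PF.cons (PF.leaf
 (nat_lit 4808455) (nat_lit 548519) (nat_lit 46599433) (nat_lit 15012401) [(nat_lit 548519), (nat_lit 0), (nat_lit 3851420), (nat_lit 0)]) (PF.cons (PF.leaf (nat_lit 5153875) (nat_lit 566792) (nat_lit 46023546) (nat_lit 14941636) [(nat_lit 566792), (nat_lit 0), (nat_lit 3876459), (nat_lit 0)]) (PF.cons (PF.leaf (nat_lit 5513203) (nat_lit 583056) (nat_lit 45430139) (nat_lit 14864858) [(nat_lit 583056), (nat_lit 0), (nat_lit 3898531), (nat_lit 0)]) (PF.cons (PF.leaf (nat_lit 5884055) (nat_lit 597568) (nat_lit 44823482) (nat_lit 14782403) [(nat_lit 597568), (nat_lit 0), (nat_lit 3917513), (nat_lit 0)]) (PF.cons (PF.leaf (nat_lit 6264432) (nat_lit 610525) (nat_lit 44207136) (nat_lit 14694616) [(nat_lit 610525), (nat_lit 0), (nat_lit 3933379), (nat_lit 0)]) (PF.cons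 (PF.leaf (nat_lit 6652529) (nat_lit 622085) (nat_lit 43584118) (nat_lit 14601851) [(nat_lit 622085), (nat_lit 0), (nat_lit 3946161), (nat_lit 0)]) (PF.cons PF.nil PF.nil)))))))))) (PF.cons (PF.cons (PF.leaf (nat_lit 4607403) (nat_lit 1700284) (nat_lit 46564673) (nat_lit 15002706) [(nat_lit 0), (nat_lit 1700284), (nat_lit 3841149), (nat_lit 0)]) (PF.cons (PF.leaf (nat_lit 4925150) (nat_lit 551220) (nat_lit 46028172) (nat_lit
 14936729) [(nat_lit 551220), (nat_lit 1727567), (nat_lit 3865122), (nat_lit 0)]) (PF.cons (PF.leaf (nat_lit 5261494) (nat_lit 569192) (nat_lit 45466726) (nat_lit 14864265) [(nat_lit 569192), (nat_lit 1752632), (nat_lit 3886803), (nat_lit 0)]) (PF.cons (PF.leaf (nat_lit 5612727) (nat_lit 585102) (nat_lit 44886485) (nat_lit 14785776) [(nat_lit 585102), (nat_lit 1775383), (nat_lit 3905860), (nat_lit 0)]) (PF.cons (PF.leaf (nat_lit 5976153) (nat_lit 599241) (nat_lit 44292226) (nat_lit 14701676) [(nat_lit 599241), (nat_lit 1795822), (nat_lit 3922120),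 (nat_lit 0)]) (PF.cons (PF.leaf (nat_lit 6349557) (nat_lit 611825) (nat_lit 43687805) (nat_lit 14612357) [(nat_lit 611825), (nat_lit 1814001), (nat_lit 3935521), (nat_lit 0)]) (PF.cons (PF.leaf (nat_lit 6731058) (nat_lit 623020) (nat_lit 43076410) (nat_lit 14518204) [(nat_lit 623020), (nat_lit 1830004), (nat_lit 3946068), (nat_lit 0)]) (PF.cons (PF.leaf (nat_lit 7119049) (nat_lit 632964) (nat_lit 42460721) (nat_lit 14419595) [(nat_lit 632964), (nat_lit 1843928), (nat_lit 3953815), (nat_lit 0)]) (PF.cons PF.nil PF.nil))))))))) (PF.cons (PF.cons (PF.leaf (nat_lit 5371634) (nat_lit 1761920) (nat_lit 44906556) (nat_lit 14783247) [(nat_lit 0),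
 (nat_lit 1761920), (nat_lit 3895169), (nat_lit 0)]) (PF.cons (PF.leaf (nat_lit 5713403) (nat_lit 586453) (nat_lit 44341870) (nat_lit 14703605) [(nat_lit 586453), (nat_lit 1782750), (nat_lit 3911382), (nat_lit 0)]) (PF.cons (PF.leaf (nat_lit 6068645) (nat_lit 600333) (nat_lit 43761720) (nat_lit 14618320) [(nat_lit 600333), (nat_lit 1801508), (nat_lit 3925088), (nat_lit 0)]) (PF.cons (PF.leaf (nat_lit 6434563) (nat_lit 612629) (nat_lit 43170484) (nat_lit 14527862) [(nat_lit 612629), (nat_lit 1818197), (nat_lit 3936180), (nat_lit 0)]) (PF.cons (PF.leaf (nat_lit 6809102) (nat_lit 623529) (nat_lit 42571658) (nat_lit 14432660) [(nat_lit 623529), (nat_lit 1832869), (nat_lit 3944638), (nat_lit 0)]) (PF.cons (PF.leaf (nat_lit 7190509) (nat_lit 633178) (nat_lit 41968108) (nat_lit 14333123) [(nat_lit 633178), (nat_lit 1845597), (nat_lit 3950491), (nat_lit 0)]) (PF.cons PF.nil PF.nil))))))) (PF.cons (PF.cons (PF.leaf (nat_lit 6162656) (nat_lit 1806317) (nat_lit 43231089) (nat_lit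 14532267) [(nat_lit 0), (nat_lit 1806317), (nat_lit 3926502), (nat_lit 0)]) (PF.cons (PF.leaf (nat_lit 6520131) (nat_lit 612920) (nat_lit 42654568) (nat_lit 14441109) [(nat_lit 612920), (nat_lit 1821593), (nat_lit
 3935434), (nat_lit 0)]) (PF.cons (PF.leaf (nat_lit 6887192) (nat_lit 623600) (nat_lit 42069422) (nat_lit 14345229) [(nat_lit 623600), (nat_lit 1835006), (nat_lit 3941940), (nat_lit 0)]) (PF.cons (PF.leaf (nat_lit 7261666) (nat_lit 633015) (nat_lit 41478833) (nat_lit 14245081) [(nat_lit 633015), (nat_lit 1846607), (nat_lit 3946027), (nat_lit 0)]) (PF.cons (PF.leaf (nat_lit 7641937) (nat_lit 641300) (nat_lit 40885382) (nat_lit 14141086) [(nat_lit 641300), (nat_lit 1856464), (nat_lit 3947748), (nat_lit 0)]) PF.nil))))) (PF.cons (PF.cons (PF.leaf (nat_lit 6966198) (nat_lit 1836457) (nat_lit 41569074) (nat_lit 14255874) [(nat_lit 0), (nat_lit 1836457), (nat_lit 3938033), (nat_lit 0)]) (PF.cons (PF.leaf (nat_lit 7333035) (nat_lit 632464) (nat_lit 40992432) (nat_lit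 14155462) [(nat_lit 632464), (nat_lit 1846993), (nat_lit 3940478), (nat_lit 0)]) (PF.cons (PF.leaf (nat_lit 7706447) (nat_lit 640567) (nat_lit 40412133) (nat_lit 14051245) [(nat_lit 640567), (nat_lit 1855896), (nat_lit 3940713), (nat_lit 0)]) (PF.cons PF.nil PF.nil)))) (PF.cons (PF.cons (PF.leaf (nat_lit 7771517) (nat_lit 1854792) (nat_lit 39942000) (nat_lit 13960102) [(nat_lit 0), (nat_lit 1854792), (nat_lit 3932748),
 (nat_lit 0)]) (PF.cons (PF.leaf (nat_lit 8142829) (nat_lit 646422) (nat_lit 39373562) (nat_lit 13852624) [(nat_lit 646422), (nat_lit 1861320), (nat_lit 3929598), (nat_lit 0)]) PF.nil)) (PF.cons PF.nil (PF.cons PF.nil PF.nil)))))))) (PF.cons (PF.cons (PF.cons (PF.leaf (nat_lit 5155530) (nat_lit 3867942) (nat_lit 44647011) (nat_lit 14725917) [(nat_lit 0), (nat_lit 0), (nat_lit 3867942), (nat_lit 0)]) (PF.cons (PF.leaf (nat_lit 5474598) (nat_lit 565990) (nat_lit 44122891) (nat_lit 14651296) [(nat_lit 565990), (nat_lit 0), (nat_lit 3884317), (nat_lit 0)])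 (PF.cons (PF.leaf (nat_lit 5810712) (nat_lit 582116) (nat_lit 43576965) (nat_lit 14570533) [(nat_lit 582116), (nat_lit 0), (nat_lit 3898540), (nat_lit 0)]) (PF.cons (PF.leaf (nat_lit 6160218) (nat_lit 596228) (nat_lit 43015118) (nat_lit 14484236) [(nat_lit 596228), (nat_lit 0), (nat_lit 3910386), (nat_lit 0)]) (PF.cons (PF.leaf (nat_lit 6520528) (nat_lit 608636) (nat_lit 42441842) (nat_lit 14392917) [(nat_lit 608636), (nat_lit 0), (nat_lit 3919754), (nat_lit 0)]) (PF.cons (PF.leaf (nat_lit 6889518) (nat_lit 619567) (nat_lit 41860698) (nat_lit 14297033) [(nat_lit 619567), (nat_lit 0), (nat_lit 3926621), (nat_lit 0)]) (PF.cons (PF.leaf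
 (nat_lit 7265434) (nat_lit 629197) (nat_lit 41274586) (nat_lit 14197006) [(nat_lit 629197), (nat_lit 0), (nat_lit 3931018), (nat_lit 0)]) (PF.cons PF.nil (PF.cons PF.nil PF.nil))))))))) (PF.cons (PF.cons (PF.leaf (nat_lit 5911997) (nat_lit 1782245) (nat_lit 43041680) (nat_lit 14483435) [(nat_lit 0), (nat_lit 1782245), (nat_lit 3900725), (nat_lit 0)]) (PF.cons (PF.leaf (nat_lit 6251893) (nat_lit 596307) (nat_lit 42496130) (nat_lit 14396830) [(nat_lit 596307), (nat_lit 1798846), (nat_lit 3910349), (nat_lit 0)]) (PF.cons (PF.leaf (nat_lit 6603943) (nat_lit 608583) (nat_lit 41937540) (nat_lit 14305110) [(nat_lit 608583), (nat_lit 1813557), (nat_lit 3917718), (nat_lit 0)]) (PF.cons (PF.leaf (nat_lit 6965451) (nat_lit 619339) (nat_lit 41370007) (nat_lit 14208816) [(nat_lit 619339), (nat_lit 1826407), (nat_lit 3922781), (nat_lit 0)]) (PF.cons (PF.leaf (nat_lit 7334460) (nat_lit 628772) (nat_lit 40796748) (nat_lit 14108420) [(nat_lit 628772), (nat_lit 1837458), (nat_lit 3925547),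 (nat_lit 0)]) (PF.cons (PF.leaf (nat_lit 7709337) (nat_lit 637034) (nat_lit 40220368) (nat_lit 14004352) [(nat_lit 637034), (nat_lit 1846790), (nat_lit 3926064), (nat_lit 0)]) (PF.cons PF.nil PF.nil)))))))
 (PF.cons (PF.cons (PF.leaf (nat_lit 6689159) (nat_lit 1815539) (nat_lit 41433754) (nat_lit 14215118) [(nat_lit 0), (nat_lit 1815539), (nat_lit 3914431), (nat_lit 0)]) (PF.cons (PF.leaf (nat_lit 7042242) (nat_lit 618656) (nat_lit 40881175) (nat_lit 14118822) [(nat_lit 618656), (nat_lit 1827263), (nat_lit 3917815), (nat_lit 0)]) (PF.cons (PF.leaf (nat_lit 7403844) (nat_lit 627964) (nat_lit 40321730) (nat_lit 14018393) [(nat_lit 627964), (nat_lit 1837314), (nat_lit 3919065), (nat_lit 0)]) (PF.cons (PF.leaf (nat_lit 7771904) (nat_lit 636077) (nat_lit 39758340) (nat_lit 13914309) [(nat_lit 636077), (nat_lit 1845750), (nat_lit 3918213), (nat_lit 0)]) (PF.cons PF.nil PF.nil))))) (PF.cons (PF.cons (PF.leaf (nat_lit 7474417) (nat_lit 1836613) (nat_lit 39848883) (nat_lit 13926863)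 [(nat_lit 0), (nat_lit 1836613), (nat_lit 3911612), (nat_lit 0)]) (PF.cons (PF.leaf (nat_lit 7834964) (nat_lit 634779) (nat_lit 39299344) (nat_lit 13823078) [(nat_lit 634779), (nat_lit 1844206), (nat_lit 3909496), (nat_lit 0)]) (PF.cons (PF.leaf (nat_lit 8201266) (nat_lit 641724) (nat_lit 38747337) (nat_lit 13716063) [(nat_lit 641724), (nat_lit 1850344), (nat_lit 3905464), (nat_lit 0)]) (PF.cons PF.nil PF.nil))))
 (PF.cons (PF.cons (PF.leaf (nat_lit 8258449) (nat_lit 1847610) (nat_lit 38304485) (nat_lit 13624160) [(nat_lit 0), (nat_lit 1847610), (nat_lit 3894862), (nat_lit 0)]) (PF.cons PF.nil PF.nil)) (PF.cons PF.nil PF.nil)))))) (PF.cons (PF.cons (PF.cons (PF.leaf (nat_lit 6430871) (nat_lit 3890015) (nat_lit 41269402) (nat_lit 14169364) [(nat_lit 0), (nat_lit 0), (nat_lit 3890015), (nat_lit 0)]) (PF.cons (PF.leaf (nat_lit 6767663) (nat_lit 602822) (nat_lit 40745276) (nat_lit 14077830) [(nat_lit 602822), (nat_lit 0), (nat_lit 3894294), (nat_lit 0)]) (PF.cons (PF.leaf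 (nat_lit 7115489) (nat_lit 613708) (nat_lit 40210083) (nat_lit 13981684) [(nat_lit 613708), (nat_lit 0), (nat_lit 3896542), (nat_lit 0)]) (PF.cons (PF.leaf (nat_lit 7471755) (nat_lit 623138) (nat_lit 39667638) (nat_lit 13881510) [(nat_lit 623138), (nat_lit 0), (nat_lit 3896749), (nat_lit 0)]) (PF.cons (PF.leaf (nat_lit 7834585) (nat_lit 631315) (nat_lit 39120906) (nat_lit 13777802) [(nat_lit 631315), (nat_lit 0), (nat_lit 3894947), (nat_lit 0)]) (PF.cons PF.nil (PF.cons PF.nil PF.nil))))))) (PF.cons (PF.cons (PF.leaf (nat_lit 7192538) (nat_lit 1817096) (nat_lit 39733420) (nat_lit 13889473) [(nat_lit 0), (nat_lit 1817096),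
 (nat_lit 3889607), (nat_lit 0)]) (PF.cons (PF.leaf (nat_lit 7540463) (nat_lit 621680) (nat_lit 39205836) (nat_lit 13789851) [(nat_lit 621680), (nat_lit 1825872), (nat_lit 3888524), (nat_lit 0)]) (PF.cons (PF.leaf (nat_lit 7896012) (nat_lit 629808) (nat_lit 38672762) (nat_lit 13686620) [(nat_lit 629808), (nat_lit 1833138), (nat_lit 3885558), (nat_lit 0)]) (PF.cons (PF.leaf (nat_lit 8257221) (nat_lit 636807) (nat_lit 38136883) (nat_lit 13580266) [(nat_lit 636807), (nat_lit 1838960), (nat_lit 3880759), (nat_lit 0)]) (PF.cons PF.nil PF.nil))))) (PF.cons (PF.cons (PF.leaf (nat_lit 7958870) (nat_lit 1830740) (nat_lit 38226908) (nat_lit 13594270) [(nat_lit 0), (nat_lit 1830740), (nat_lit 3875384), (nat_lit 0)]) (PF.cons (PF.leaf (nat_lit 8312732) (nat_lit 634917) (nat_lit 37704563) (nat_lit 13488652) [(nat_lit 634917), (nat_lit 1835899), (nat_lit 3869626), (nat_lit 0)]) (PF.cons (PF.leaf (nat_lit 8671663) (nat_lit 640874) (nat_lit 37180638) (nat_lit 13380298) [(nat_lit 640874),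 (nat_lit 1839760), (nat_lit 3862201), (nat_lit 0)]) (PF.cons PF.nil PF.nil)))) (PF.cons (PF.cons (PF.leaf (nat_lit 8721707) (nat_lit 1835752) (nat_lit 36764049) (nat_lit 13288672) [(nat_lit 0), (nat_lit 1835752),
 (nat_lit 3849610), (nat_lit 0)]) (PF.cons PF.nil PF.nil)) (PF.cons PF.nil PF.nil))))) (PF.cons (PF.cons (PF.cons (PF.leaf (nat_lit 7673712) (nat_lit 3854968) (nat_lit 38128683) (nat_lit 13560255) [(nat_lit 0), (nat_lit 0), (nat_lit 3854968), (nat_lit 0)]) (PF.cons (PF.leaf (nat_lit 8015938) (nat_lit 622505) (nat_lit 37626359) (nat_lit 13458766) [(nat_lit 622505), (nat_lit 0), (nat_lit 3850295), (nat_lit 0)]) (PF.cons (PF.leaf (nat_lit 8365056) (nat_lit 629617) (nat_lit 37119622) (nat_lit 13354125) [(nat_lit 629617), (nat_lit 0), (nat_lit 3843957), (nat_lit 0)]) (PF.cons (PF.leaf (nat_lit 8719163) (nat_lit 635661) (nat_lit 36610941) (nat_lit 13246821) [(nat_lit 635661), (nat_lit 0), (nat_lit 3836016), (nat_lit 0)]) (PF.cons PF.nil PF.nil))))) (PF.cons (PF.cons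 (PF.leaf (nat_lit 8420877) (nat_lit 1820115) (nat_lit 36699829) (nat_lit 13261993) [(nat_lit 0), (nat_lit 1820115), (nat_lit 3831718), (nat_lit 0)]) (PF.cons (PF.leaf (nat_lit 8767828) (nat_lit 633303) (nat_lit 36204224) (nat_lit 13155758) [(nat_lit 633303), (nat_lit 1823262), (nat_lit 3823065), (nat_lit 0)]) (PF.cons PF.nil (PF.cons PF.nil PF.nil)))) (PF.cons (PF.cons (PF.leaf (nat_lit 9162876) (nat_lit 1820250) (nat_lit
 35316113) (nat_lit 12956633) [(nat_lit 0), (nat_lit 1820250), (nat_lit 3798891), (nat_lit 0)]) (PF.cons PF.nil PF.nil)) PF.nil))) (PF.cons (PF.cons (PF.cons (PF.leaf (nat_lit 8861810) (nat_lit 3782495) (nat_lit 35263359) (nat_lit 12932975) [(nat_lit 0), (nat_lit 0), (nat_lit 3782495), (nat_lit 0)]) (PF.cons (PF.leaf (nat_lit 9201726) (nat_lit 630285) (nat_lit 34793679) (nat_lit 12827067) [(nat_lit 630285), (nat_lit 0), (nat_lit 3771556), (nat_lit 0)]) PF.nil)) (PF.cons PF.nil PF.nil)) (PF.cons PF.nil (PF.cons PF.nil PF.nil)))))))) (PF.cons (PF.cons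 (PF.cons (PF.cons (PF.leaf (nat_lit 4688911) (nat_lit 8668438) (nat_lit 43921439) (nat_lit 14518934) [(nat_lit 0), (nat_lit 0), (nat_lit 0), (nat_lit 8668438)]) (PF.cons (PF.leaf (nat_lit 4966768) (nat_lit 512780) (nat_lit 43482164) (nat_lit 14456886) [(nat_lit 512780), (nat_lit 0), (nat_lit 0), (nat_lit 8656980)]) (PF.cons (PF.leaf (nat_lit 5268181) (nat_lit 534290) (nat_lit 43010192) (nat_lit 14387872) [(nat_lit 534290), (nat_lit 0), (nat_lit 0), (nat_lit 8642168)]) (PF.cons (PF.leaf (nat_lit 5587925) (nat_lit 552815) (nat_lit 42513745) (nat_lit 14312710) [(nat_lit 552815), (nat_lit 0), (nat_lit 0), (nat_lit 8623909)]) (PF.cons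
 (PF.leaf (nat_lit 5922468) (nat_lit 568941) (nat_lit 41998840) (nat_lit 14232024) [(nat_lit 568941), (nat_lit 0), (nat_lit 0), (nat_lit 8602180)]) (PF.cons (PF.leaf (nat_lit 6269053) (nat_lit 583069) (nat_lit 41470117) (nat_lit 14146332) [(nat_lit 583069), (nat_lit 0), (nat_lit 0), (nat_lit 8577015)]) (PF.cons (PF.leaf (nat_lit 6625444) (nat_lit 595489) (nat_lit 40931290) (nat_lit 14056091) [(nat_lit 595489), (nat_lit 0), (nat_lit 0), (nat_lit 8548493)]) (PF.cons (PF.leaf (nat_lit 6989772) (nat_lit 606423) (nat_lit 40385399) (nat_lit 13961719) [(nat_lit 606423), (nat_lit 0), (nat_lit 0), (nat_lit 8516728)]) (PF.cons (PF.leaf (nat_lit 7360466) (nat_lit 616046) (nat_lit 39834976) (nat_lit 13863605) [(nat_lit 616046), (nat_lit 0), (nat_lit 0), (nat_lit 8481860)]) (PF.cons PF.nil PF.nil)))))))))) (PF.cons (PF.cons (PF.leaf (nat_lit 5381804) (nat_lit 1700708) (nat_lit 42488094) (nat_lit 14303896) [(nat_lit 0), (nat_lit 1700708), (nat_lit 0), (nat_lit 8616114)]) (PF.cons (PF.leaf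 (nat_lit 5690426) (nat_lit 553606) (nat_lit 42008122) (nat_lit 14228701) [(nat_lit 553606), (nat_lit 1722383), (nat_lit 0), (nat_lit 8595998)]) (PF.cons (PF.leaf (nat_lit 6015769) (nat_lit 569591) (nat_lit
 41507509) (nat_lit 14147750) [(nat_lit 569591), (nat_lit 1741896), (nat_lit 0), (nat_lit 8572473)]) (PF.cons (PF.leaf (nat_lit 6354238) (nat_lit 583515) (nat_lit 40991724) (nat_lit 14061694) [(nat_lit 583515), (nat_lit 1759241), (nat_lit 0), (nat_lit 8545605)]) (PF.cons (PF.leaf (nat_lit 6703276) (nat_lit 595703) (nat_lit 40464950) (nat_lit 13971071) [(nat_lit 595703), (nat_lit 1774484), (nat_lit 0), (nat_lit 8515493)]) (PF.cons (PF.leaf (nat_lit 7060820) (nat_lit 606395) (nat_lit 39930507) (nat_lit 13876348) [(nat_lit 606395), (nat_lit 1787720), (nat_lit 0), (nat_lit 8482260)]) (PF.cons (PF.leaf (nat_lit 7425160) (nat_lit 615777) (nat_lit 39391094) (nat_lit 13777945) [(nat_lit 615777), (nat_lit 1799057), (nat_lit 0), (nat_lit 8446053)]) (PF.cons (PF.leaf (nat_lit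 7794831) (nat_lit 623996) (nat_lit 38848949) (nat_lit 13676247) [(nat_lit 623996), (nat_lit 1808609), (nat_lit 0), (nat_lit 8407030)]) (PF.cons PF.nil PF.nil))))))))) (PF.cons (PF.cons (PF.leaf (nat_lit 6111902) (nat_lit 1746592) (nat_lit 41014140) (nat_lit 14060873) [(nat_lit 0), (nat_lit 1746592), (nat_lit 0), (nat_lit 8540614)]) (PF.cons (PF.leaf (nat_lit 6440960) (nat_lit 583369) (nat_lit 40513233) (nat_lit 13974948)
 [(nat_lit 583369), (nat_lit 1762467), (nat_lit 0), (nat_lit 8512327)]) (PF.cons (PF.leaf (nat_lit 6781944) (nat_lit 595431) (nat_lit 39999870) (nat_lit 13884334) [(nat_lit 595431), (nat_lit 1776439), (nat_lit 0), (nat_lit 8480866)]) (PF.cons (PF.leaf (nat_lit 7132212) (nat_lit 605960) (nat_lit 39477852) (nat_lit 13789579) [(nat_lit 605960), (nat_lit 1788561), (nat_lit 0), (nat_lit 8446375)]) (PF.cons (PF.leaf (nat_lit 7489864) (nat_lit 615162) (nat_lit 38950168) (nat_lit 13691155) [(nat_lit 615162), (nat_lit 1798912), (nat_lit 0), (nat_lit 8409013)])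 (PF.cons (PF.leaf (nat_lit 7853292) (nat_lit 623196) (nat_lit 38419233) (nat_lit 13589477) [(nat_lit 623196), (nat_lit 1807586), (nat_lit 0), (nat_lit 8368944)]) (PF.cons PF.nil PF.nil))))))) (PF.cons (PF.cons (PF.leaf (nat_lit 6862513) (nat_lit 1777749) (nat_lit 39535197) (nat_lit 13795765) [(nat_lit 0), (nat_lit 1777749), (nat_lit 0), (nat_lit 8444602)]) (PF.cons (PF.leaf (nat_lit 7204589) (nat_lit 605096) (nat_lit 39026831) (nat_lit 13701349) [(nat_lit 605096), (nat_lit 1788817), (nat_lit 0), (nat_lit 8409082)]) (PF.cons (PF.leaf (nat_lit 7555064) (nat_lit 614188) (nat_lit 38511747) (nat_lit 13603203) [(nat_lit 614188), (nat_lit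
 1798241), (nat_lit 0), (nat_lit 8370760)]) (PF.cons (PF.leaf (nat_lit 7911917) (nat_lit 622091) (nat_lit 37992654) (nat_lit 13501794) [(nat_lit 622091), (nat_lit 1806091), (nat_lit 0), (nat_lit 8329815)]) (PF.cons (PF.leaf (nat_lit 8273678) (nat_lit 628945) (nat_lit 37471720) (nat_lit 13397533) [(nat_lit 628945), (nat_lit 1812449), (nat_lit 0), (nat_lit 8286427)]) PF.nil))))) (PF.cons (PF.cons (PF.leaf (nat_lit 7621593) (nat_lit 1797069) (nat_lit 38075225) (nat_lit 13514016) [(nat_lit 0), (nat_lit 1797069), (nat_lit 0), (nat_lit 8331291)]) (PF.cons (PF.leaf (nat_lit 7971180) (nat_lit 620666) (nat_lit 37568758) (nat_lit 13413156) [(nat_lit 620666), (nat_lit 1804145), (nat_lit 0), (nat_lit 8289652)]) (PF.cons (PF.leaf (nat_lit 8326494) (nat_lit 627428) (nat_lit 37059650) (nat_lit 13309415) [(nat_lit 627428), (nat_lit 1809813), (nat_lit 0), (nat_lit 8245635)]) (PF.cons PF.nil PF.nil)))) (PF.cons (PF.cons (PF.leaf (nat_lit 8380272) (nat_lit 1806791) (nat_lit 36650366) (nat_lit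 13220523) [(nat_lit 0), (nat_lit 1806791), (nat_lit 0), (nat_lit 8203966)]) (PF.cons (PF.leaf (nat_lit 8733209) (nat_lit 631380) (nat_lit 36152287) (nat_lit 13115039) [(nat_lit 631380), (nat_lit 1810551),
 (nat_lit 0), (nat_lit 8157345)]) PF.nil)) (PF.cons PF.nil (PF.cons PF.nil PF.nil)))))))) (PF.cons (PF.cons (PF.cons (PF.leaf (nat_lit 5888272) (nat_lit 3795687) (nat_lit 40800518) (nat_lit 14006779) [(nat_lit 0), (nat_lit 0), (nat_lit 3795687), (nat_lit 8505828)]) (PF.cons (PF.leaf (nat_lit 6196591) (nat_lit 563451) (nat_lit 40334921) (nat_lit 13926552) [(nat_lit 563451), (nat_lit 0), (nat_lit 3804256), (nat_lit 8479631)]) (PF.cons (PF.leaf (nat_lit 6520347) (nat_lit 577842) (nat_lit 39851135) (nat_lit 13840932) [(nat_lit 577842), (nat_lit 0), (nat_lit 3810871), (nat_lit 8450188)]) (PF.cons (PF.leaf (nat_lit 6856009) (nat_lit 590243) (nat_lit 39354345) (nat_lit 13750649) [(nat_lit 590243), (nat_lit 0), (nat_lit 3815424), (nat_lit 8417664)]) (PF.cons (PF.leaf (nat_lit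 7201128) (nat_lit 600989) (nat_lit 38848455) (nat_lit 13656287) [(nat_lit 600989), (nat_lit 0), (nat_lit 3817890), (nat_lit 8382219)]) (PF.cons (PF.leaf (nat_lit 7553745) (nat_lit 610326) (nat_lit 38336523) (nat_lit 13558339) [(nat_lit 610326), (nat_lit 0), (nat_lit 3818294), (nat_lit 8344021)]) (PF.cons (PF.leaf (nat_lit 7912249) (nat_lit 618439) (nat_lit 37821007) (nat_lit 13457235) [(nat_lit 618439), (nat_lit 0),
 (nat_lit 3816696), (nat_lit 8303239)]) (PF.cons PF.nil (PF.cons PF.nil PF.nil))))))))) (PF.cons (PF.cons (PF.leaf (nat_lit 6608673) (nat_lit 1754872) (nat_lit 39381789) (nat_lit 13751393) [(nat_lit 0), (nat_lit 1754872), (nat_lit 3806953), (nat_lit 8413804)]) (PF.cons (PF.leaf (nat_lit 6934925) (nat_lit 589157) (nat_lit 38900070) (nat_lit 13661798) [(nat_lit 589157), (nat_lit 1767429), (nat_lit 3809961), (nat_lit 8380394)]) (PF.cons (PF.leaf (nat_lit 7272050) (nat_lit 599881) (nat_lit 38407697) (nat_lit 13567957) [(nat_lit 599881), (nat_lit 1778258), (nat_lit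 3811044), (nat_lit 8344091)]) (PF.cons (PF.leaf (nat_lit 7617489) (nat_lit 609143) (nat_lit 37908210) (nat_lit 13470449) [(nat_lit 609143), (nat_lit 1787425), (nat_lit 3810209), (nat_lit 8305087)]) (PF.cons (PF.leaf (nat_lit 7969431) (nat_lit 617154) (nat_lit 37404360) (nat_lit 13369757) [(nat_lit 617154), (nat_lit 1795013), (nat_lit 3807496), (nat_lit 8263568)]) (PF.cons (PF.leaf (nat_lit 8326382) (nat_lit 624072) (nat_lit 36898345) (nat_lit 13266301) [(nat_lit 624072), (nat_lit 1801114), (nat_lit 3802972), (nat_lit 8219715)]) (PF.cons PF.nil PF.nil))))))) (PF.cons (PF.cons (PF.leaf (nat_lit 7345099) (nat_lit 1777553)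
 (nat_lit 37967655) (nat_lit 13478133) [(nat_lit 0), (nat_lit 1777553), (nat_lit 3803299), (nat_lit 8304617)]) (PF.cons (PF.leaf (nat_lit 7682450) (nat_lit 607574) (nat_lit 37481710) (nat_lit 13381408) [(nat_lit 607574), (nat_lit 1785888), (nat_lit 3801324), (nat_lit 8265017)]) (PF.cons (PF.leaf (nat_lit 8027357) (nat_lit 615549) (nat_lit 36990297) (nat_lit 13281401) [(nat_lit 615549), (nat_lit 1792744), (nat_lit 3797588), (nat_lit 8222936)]) (PF.cons (PF.leaf (nat_lit 8377885) (nat_lit 622402) (nat_lit 36495908) (nat_lit 13178586) [(nat_lit 622402), (nat_lit 1798194), (nat_lit 3792147), (nat_lit 8178573)]) (PF.cons PF.nil PF.nil))))) (PF.cons (PF.cons (PF.leaf (nat_lit 8086819) (nat_lit 1790066) (nat_lit 36578213) (nat_lit 13192078) [(nat_lit 0), (nat_lit 1790066), (nat_lit 3786993), (nat_lit 8181325)]) (PF.cons (PF.leaf (nat_lit 8430253) (nat_lit 620446) (nat_lit 36096148) (nat_lit 13090159) [(nat_lit 620446), (nat_lit 1794909), (nat_lit 3780715), (nat_lit 8136615)])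 (PF.cons (PF.leaf (nat_lit 8778776) (nat_lit 626281) (nat_lit 35612249) (nat_lit 12985778) [(nat_lit 626281), (nat_lit 1798494), (nat_lit 3772890), (nat_lit 8089846)]) (PF.cons PF.nil PF.nil)))) (PF.cons (PF.cons
 (PF.leaf (nat_lit 8826037) (nat_lit 1794352) (nat_lit 35226700) (nat_lit 12897621) [(nat_lit 0), (nat_lit 1794352), (nat_lit 3760190), (nat_lit 8046889)]) (PF.cons PF.nil PF.nil)) (PF.cons PF.nil PF.nil)))))) (PF.cons (PF.cons (PF.cons (PF.leaf (nat_lit 7086138) (nat_lit 3780581) (nat_lit 37834690) (nat_lit 13437226) [(nat_lit 0), (nat_lit 0), (nat_lit 3780581), (nat_lit 8275733)]) (PF.cons (PF.leaf (nat_lit 7408774) (nat_lit 592468) (nat_lit 37373164) (nat_lit 13345317) [(nat_lit 592468), (nat_lit 0), (nat_lit 3779732), (nat_lit 8238397)]) (PF.cons (PF.leaf (nat_lit 7741372) (nat_lit 602030) (nat_lit 36902457) (nat_lit 13249569) [(nat_lit 602030), (nat_lit 0), (nat_lit 3777147), (nat_lit 8198429)]) (PF.cons (PF.leaf (nat_lit 8081467) (nat_lit 610200) (nat_lit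 36425866) (nat_lit 13150575) [(nat_lit 610200), (nat_lit 0), (nat_lit 3772857), (nat_lit 8156055)]) (PF.cons (PF.leaf (nat_lit 8427326) (nat_lit 617186) (nat_lit 35945924) (nat_lit 13048824) [(nat_lit 617186), (nat_lit 0), (nat_lit 3766919), (nat_lit 8111478)]) (PF.cons PF.nil (PF.cons PF.nil PF.nil))))))) (PF.cons (PF.cons (PF.leaf (nat_lit 7807480) (nat_lit 1771963) (nat_lit 36486588) (nat_lit 13159547) [(nat_lit 0),
 (nat_lit 1771963), (nat_lit 3766983), (nat_lit 8156746)]) (PF.cons (PF.leaf (nat_lit 8139630) (nat_lit 608072) (nat_lit 36023239) (nat_lit 13061682) [(nat_lit 608072), (nat_lit 1778023), (nat_lit 3761835), (nat_lit 8114124)]) (PF.cons (PF.leaf (nat_lit 8478620) (nat_lit 615083) (nat_lit 35555411) (nat_lit 12960930) [(nat_lit 615083), (nat_lit 1782746), (nat_lit 3755126), (nat_lit 8069305)]) (PF.cons (PF.leaf (nat_lit 8822602) (nat_lit 621033) (nat_lit 35085398) (nat_lit 12857761) [(nat_lit 621033), (nat_lit 1786210), (nat_lit 3746920), (nat_lit 8022499)])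 (PF.cons PF.nil PF.nil))))) (PF.cons (PF.cons (PF.leaf (nat_lit 8531631) (nat_lit 1778887) (nat_lit 35166867) (nat_lit 12872281) [(nat_lit 0), (nat_lit 1778887), (nat_lit 3742773), (nat_lit 8026341)]) (PF.cons (PF.leaf (nat_lit 8868705) (nat_lit 618658) (nat_lit 34708760) (nat_lit 12770272) [(nat_lit 618658), (nat_lit 1781878), (nat_lit 3733949), (nat_lit 7979465)]) (PF.cons PF.nil (PF.cons PF.nil PF.nil)))) (PF.cons (PF.cons (PF.leaf (nat_lit 9251687) (nat_lit 1778731) (nat_lit 33886450) (nat_lit 12579338) [(nat_lit 0), (nat_lit 1778731), (nat_lit 3709827), (nat_lit 7887172)]) (PF.cons PF.nil PF.nil)) (PF.cons PF.nil PF.nil)))))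
 (PF.cons (PF.cons (PF.cons (PF.leaf (nat_lit 8250593) (nat_lit 3724328) (nat_lit 35089049) (nat_lit 12842954) [(nat_lit 0), (nat_lit 0), (nat_lit 3724328), (nat_lit 8003822)]) (PF.cons (PF.leaf (nat_lit 8577209) (nat_lit 606964) (nat_lit 34648022) (nat_lit 12744878) [(nat_lit 606964), (nat_lit 0), (nat_lit 3716636), (nat_lit 7959039)]) (PF.cons (PF.leaf (nat_lit 8910069) (nat_lit 613140) (nat_lit 34203299) (nat_lit 12644259) [(nat_lit 613140), (nat_lit 0), (nat_lit 3707555), (nat_lit 7912308)]) (PF.cons PF.nil PF.nil)))) (PF.cons (PF.cons (PF.leaf (nat_lit 8957204) (nat_lit 1764430) (nat_lit 33837202) (nat_lit 12556894) [(nat_lit 0), (nat_lit 1764430), (nat_lit 3693891), (nat_lit 7868610)]) (PF.cons (PF.leaf (nat_lit 9287816) (nat_lit 615611) (nat_lit 33402315) (nat_lit 12455549) [(nat_lit 615611), (nat_lit 1765886), (nat_lit 3683051), (nat_lit 7820295)]) PF.nil)) (PF.cons PF.nil PF.nil))) (PF.cons (PF.cons (PF.cons (PF.leaf (nat_lit 9364724) (nat_lit 3641620) (nat_lit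 32584845) (nat_lit 12247587) [(nat_lit 0), (nat_lit 0), (nat_lit 3641620), (nat_lit 7709898)]) (PF.cons PF.nil PF.nil)) (PF.cons PF.nil PF.nil)) (PF.cons PF.nil PF.nil)))))) (PF.cons (PF.cons (PF.cons (PF.cons
 (PF.leaf (nat_lit 6546038) (nat_lit 8169516) (nat_lit 37470383) (nat_lit 13299397) [(nat_lit 0), (nat_lit 0), (nat_lit 0), (nat_lit 8169516)]) (PF.cons (PF.leaf (nat_lit 6843413) (nat_lit 556150) (nat_lit 37057694) (nat_lit 13218309) [(nat_lit 556150), (nat_lit 0), (nat_lit 0), (nat_lit 8138328)]) (PF.cons (PF.leaf (nat_lit 7154943) (nat_lit 569143) (nat_lit 36629563) (nat_lit 13132460) [(nat_lit 569143), (nat_lit 0), (nat_lit 0), (nat_lit 8104250)]) (PF.cons (PF.leaf (nat_lit 7477217) (nat_lit 580194) (nat_lit 36190540) (nat_lit 13042623) [(nat_lit 580194), (nat_lit 0), (nat_lit 0), (nat_lit 8067531)]) (PF.cons (PF.leaf (nat_lit 7807929) (nat_lit 589653) (nat_lit 35744021) (nat_lit 12949402) [(nat_lit 589653), (nat_lit 0), (nat_lit 0), (nat_lit 8028388)]) (PF.cons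 (PF.leaf (nat_lit 8145253) (nat_lit 597770) (nat_lit 35292641) (nat_lit 12853289) [(nat_lit 597770), (nat_lit 0), (nat_lit 0), (nat_lit 7987014)]) (PF.cons (PF.leaf (nat_lit 8487711) (nat_lit 604737) (nat_lit 34838496) (nat_lit 12754701) [(nat_lit 604737), (nat_lit 0), (nat_lit 0), (nat_lit 7943595)]) (PF.cons PF.nil (PF.cons PF.nil PF.nil))))))))) (PF.cons (PF.cons (PF.leaf (nat_lit 7232671) (nat_lit 1716623) (nat_lit
 36217977) (nat_lit 13044525) [(nat_lit 0), (nat_lit 1716623), (nat_lit 0), (nat_lit 8064843)]) (PF.cons (PF.leaf (nat_lit 7545836) (nat_lit 578335) (nat_lit 35792566) (nat_lit 12955937) [(nat_lit 578335), (nat_lit 1726269), (nat_lit 0), (nat_lit 8027852)]) (PF.cons (PF.leaf (nat_lit 7868869) (nat_lit 587849) (nat_lit 35358205) (nat_lit 12863753) [(nat_lit 587849), (nat_lit 1734331), (nat_lit 0), (nat_lit 7988411)]) (PF.cons (PF.leaf (nat_lit 8199358) (nat_lit 595966) (nat_lit 34917961) (nat_lit 12768553) [(nat_lit 595966), (nat_lit 1740898), (nat_lit 0),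 (nat_lit 7946749)]) (PF.cons (PF.leaf (nat_lit 8535610) (nat_lit 602899) (nat_lit 34474201) (nat_lit 12670810) [(nat_lit 602899), (nat_lit 1746065), (nat_lit 0), (nat_lit 7903067)]) (PF.cons PF.nil (PF.cons PF.nil PF.nil))))))) (PF.cons (PF.cons (PF.leaf (nat_lit 7932180) (nat_lit 1731898) (nat_lit 34973053) (nat_lit 12777039) [(nat_lit 0), (nat_lit 1731898), (nat_lit 0), (nat_lit 7947461)]) (PF.cons (PF.leaf (nat_lit 8254936) (nat_lit 593827) (nat_lit 34544869) (nat_lit 12683047) [(nat_lit 593827), (nat_lit 1737846), (nat_lit 0), (nat_lit 7905687)]) (PF.cons (PF.leaf (nat_lit 8584531) (nat_lit 600789) (nat_lit 34112136) (nat_lit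
 12586375) [(nat_lit 600789), (nat_lit 1742474), (nat_lit 0), (nat_lit 7861887)]) (PF.cons (PF.leaf (nat_lit 8919135) (nat_lit 606695) (nat_lit 33676993) (nat_lit 12487476) [(nat_lit 606695), (nat_lit 1745863), (nat_lit 0), (nat_lit 7816264)]) (PF.cons PF.nil PF.nil))))) (PF.cons (PF.cons (PF.leaf (nat_lit 8635231) (nat_lit 1738575) (nat_lit 33751746) (nat_lit 12501297) [(nat_lit 0), (nat_lit 1738575), (nat_lit 0), (nat_lit 7820020)]) (PF.cons (PF.leaf (nat_lit 8963128) (nat_lit 604332) (nat_lit 33327450) (nat_lit 12403602) [(nat_lit 604332), (nat_lit 1741523), (nat_lit 0), (nat_lit 7774428)]) (PF.cons PF.nil (PF.cons PF.nil PF.nil)))) (PF.cons (PF.cons (PF.leaf (nat_lit 9335162) (nat_lit 1738406) (nat_lit 32564453) (nat_lit 12220871) [(nat_lit 0), (nat_lit 1738406), (nat_lit 0), (nat_lit 7684931)]) (PF.cons PF.nil PF.nil)) (PF.cons PF.nil PF.nil)))))) (PF.cons (PF.cons (PF.cons (PF.leaf (nat_lit 7675046) (nat_lit 3659944) (nat_lit 34864973) (nat_lit 12741010) [(nat_lit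 0), (nat_lit 0), (nat_lit 3659944), (nat_lit 7921442)]) (PF.cons (PF.leaf (nat_lit 7984391) (nat_lit 579499) (nat_lit 34457790) (nat_lit 12651667) [(nat_lit 579499), (nat_lit 0), (nat_lit 3655819), (nat_lit
 7882018)]) (PF.cons (PF.leaf (nat_lit 8302865) (nat_lit 588027) (nat_lit 34042792) (nat_lit 12559060) [(nat_lit 588027), (nat_lit 0), (nat_lit 3650188), (nat_lit 7840359)]) (PF.cons (PF.leaf (nat_lit 8628116) (nat_lit 595226) (nat_lit 33622837) (nat_lit 12463768) [(nat_lit 595226), (nat_lit 0), (nat_lit 3643107), (nat_lit 7796709)]) (PF.cons (PF.leaf (nat_lit 8958532) (nat_lit 601309) (nat_lit 33200109) (nat_lit 12366258) [(nat_lit 601309), (nat_lit 0), (nat_lit 3634645), (nat_lit 7751280)]) PF.nil))))) (PF.cons (PF.cons (PF.leaf (nat_lit 8360233) (nat_lit 1721872) (nat_lit 33678720) (nat_lit 12473260) [(nat_lit 0), (nat_lit 1721872), (nat_lit 3638234), (nat_lit 7798362)]) (PF.cons (PF.leaf (nat_lit 8677922) (nat_lit 592680) (nat_lit 33270450) (nat_lit 12379389) [(nat_lit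 592680), (nat_lit 1726028), (nat_lit 3630589), (nat_lit 7754836)]) (PF.cons (PF.leaf (nat_lit 9001858) (nat_lit 598838) (nat_lit 32858372) (nat_lit 12283142) [(nat_lit 598838), (nat_lit 1728989), (nat_lit 3621623), (nat_lit 7709504)]) (PF.cons PF.nil PF.nil)))) (PF.cons (PF.cons (PF.leaf (nat_lit 9047111) (nat_lit 1724258) (nat_lit 32518250) (nat_lit 12199519) [(nat_lit 0), (nat_lit 1724258), (nat_lit 3608191),
 (nat_lit 7667167)]) (PF.cons (PF.leaf (nat_lit 9369029) (nat_lit 601337) (nat_lit 32114751) (nat_lit 12102700) [(nat_lit 601337), (nat_lit 1725767), (nat_lit 3597587), (nat_lit 7620450)]) PF.nil)) (PF.cons PF.nil (PF.cons PF.nil PF.nil))))) (PF.cons (PF.cons (PF.cons (PF.leaf (nat_lit 8771481) (nat_lit 3591607) (nat_lit 32456327) (nat_lit 12174389) [(nat_lit 0), (nat_lit 0), (nat_lit 3591607), (nat_lit 7647440)]) (PF.cons (PF.leaf (nat_lit 9083890) (nat_lit 590337) (nat_lit 32067482) (nat_lit 12081236) [(nat_lit 590337), (nat_lit 0), (nat_lit 3582127), (nat_lit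 7602750)]) (PF.cons (PF.leaf (nat_lit 9402059) (nat_lit 595796) (nat_lit 31675421) (nat_lit 11985972) [(nat_lit 595796), (nat_lit 0), (nat_lit 3571466), (nat_lit 7556445)]) (PF.cons PF.nil PF.nil)))) (PF.cons (PF.cons (PF.leaf (nat_lit 9442342) (nat_lit 1707653) (nat_lit 31354498) (nat_lit 11904156) [(nat_lit 0), (nat_lit 1707653), (nat_lit 3557215), (nat_lit 7514037)]) (PF.cons PF.nil PF.nil)) (PF.cons PF.nil PF.nil))) (PF.cons (PF.cons (PF.cons (PF.leaf (nat_lit 9821939) (nat_lit 3504240) (nat_lit 30256464) (nat_lit 11616129) [(nat_lit 0), (nat_lit 0), (nat_lit 3504240), (nat_lit 7361748)]) (PF.cons PF.nil PF.nil))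
 (PF.cons PF.nil PF.nil)) (PF.cons PF.nil PF.nil))))) (PF.cons (PF.cons (PF.cons (PF.cons (PF.leaf (nat_lit 8210128) (nat_lit 7577904) (nat_lit 32285025) (nat_lit 12090073) [(nat_lit 0), (nat_lit 0), (nat_lit 0), (nat_lit 7577904)]) (PF.cons (PF.leaf (nat_lit 8507117) (nat_lit 565180) (nat_lit 31924503) (nat_lit 12004775) [(nat_lit 565180), (nat_lit 0), (nat_lit 0), (nat_lit 7538118)]) (PF.cons (PF.leaf (nat_lit 8812573) (nat_lit 572882) (nat_lit 31557197) (nat_lit 11916652) [(nat_lit 572882), (nat_lit 0), (nat_lit 0), (nat_lit 7496399)]) (PF.cons (PF.leaf (nat_lit 9124240) (nat_lit 579318) (nat_lit 31185601) (nat_lit 11826258) [(nat_lit 579318), (nat_lit 0), (nat_lit 0), (nat_lit 7452999)]) (PF.cons PF.nil PF.nil))))) (PF.cons (PF.cons (PF.leaf (nat_lit 8862871) (nat_lit 1669925) (nat_lit 31237000) (nat_lit 11835951) [(nat_lit 0), (nat_lit 1669925), (nat_lit 0), (nat_lit 7455311)]) (PF.cons (PF.leaf (nat_lit 9167336) (nat_lit 576519) (nat_lit 30875684) (nat_lit 11747103)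 [(nat_lit 576519), (nat_lit 1672727), (nat_lit 0), (nat_lit 7412259)]) (PF.cons (PF.leaf (nat_lit 9477581) (nat_lit 582010) (nat_lit 30511029) (nat_lit 11656252) [(nat_lit 582010), (nat_lit 1674450), (nat_lit 0),
 (nat_lit 7367686)]) (PF.cons PF.nil PF.nil)))) (PF.cons (PF.cons (PF.leaf (nat_lit 9516631) (nat_lit 1669226) (nat_lit 30211735) (nat_lit 11578117) [(nat_lit 0), (nat_lit 1669226), (nat_lit 0), (nat_lit 7326835)]) (PF.cons PF.nil PF.nil)) PF.nil))) (PF.cons (PF.cons (PF.cons (PF.leaf (nat_lit 9247107) (nat_lit 3461091) (nat_lit 30162256) (nat_lit 11556640) [(nat_lit 0), (nat_lit 0), (nat_lit 3461091), (nat_lit 7309608)]) (PF.cons (PF.leaf (nat_lit 9546573) (nat_lit 573397) (nat_lit 29817736) (nat_lit 11469010) [(nat_lit 573397), (nat_lit 0), (nat_lit 3450612), (nat_lit 7266018)]) (PF.cons PF.nil PF.nil))) (PF.cons (PF.cons (PF.leaf (nat_lit 9886228) (nat_lit 1651536) (nat_lit 29187448) (nat_lit 11303474) [(nat_lit 0), (nat_lit 1651536), (nat_lit 3424778), (nat_lit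 7180524)]) PF.nil) PF.nil)) (PF.cons PF.nil PF.nil))) (PF.cons (PF.cons (PF.cons (PF.cons (PF.leaf (nat_lit 9685553) (nat_lit 6992454) (nat_lit 28150777) (nat_lit 10988217) [(nat_lit 0), (nat_lit 0), (nat_lit 0), (nat_lit 6992454)]) (PF.cons (PF.leaf (nat_lit 9973204) (nat_lit 556602) (nat_lit 27843964) (nat_lit 10906213) [(nat_lit 556602), (nat_lit 0), (nat_lit 0), (nat_lit 6950508)]) PF.nil)) (PF.cons PF.nil PF.nil))
 (PF.cons PF.nil PF.nil)) (PF.cons PF.nil (PF.cons PF.nil (PF.cons PF.nil PF.nil))))))))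

def p12_16_3_0 : pfC (piC [(nat_lit 35755509), (nat_lit 23968959), (nat_lit 17897616), (nat_lit 12073119)] (nat_lit 6014801)) p12_16_3 (nat_lit 4) (nat_lit 0) (nat_lit 1) = true := by decide +kernel
def p12_16_3_1 : pfC (piC [(nat_lit 35755509), (nat_lit 23968959), (nat_lit 17897616), (nat_lit 12073119)] (nat_lit 6014801)) p12_16_3 (nat_lit 4) (nat_lit 1) (nat_lit 2) = true := by decide +kernel
def p12_16_3_2 : pfC (piC [(nat_lit 35755509), (nat_lit 23968959), (nat_lit 17897616), (nat_lit 12073119)] (nat_lit 6014801)) p12_16_3 (nat_lit 4) (nat_lit 2) (nat_lit 3) = true := by decide +kernel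
def p12_16_3_3 : pfC (piC [(nat_lit 35755509), (nat_lit 23968959), (nat_lit 17897616), (nat_lit 12073119)] (nat_lit 6014801)) p12_16_3 (nat_lit 4) (nat_lit 3) (nat_lit 4) = true := by decide +kernel
def p12_16_3_4 : pfC (piC [(nat_lit 35755509), (nat_lit 23968959), (nat_lit 17897616), (nat_lit 12073119)] (nat_lit 6014801)) p12_16_3 (nat_lit 4) (nat_lit 4) (nat_lit 5) = true := by decide +kernel
def p12_16_3_5 : pfC (piC [(nat_lit 35755509), (nat_lit 23968959), (nat_lit 17897616), (nat_lit 12073119)] (nat_lit 6014801)) p12_16_3 (nat_lit 4) (nat_lit 5) (nat_lit 6) = true := by decide +kernel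
def p12_16_3_6 : pfC (piC [(nat_lit 35755509), (nat_lit 23968959), (nat_lit 17897616), (nat_lit 12073119)] (nat_lit 6014801)) p12_16_3 (nat_lit 4) (nat_lit 6) (nat_lit 7) = true := by decide +kernel
def p12_16_3_7 : pfC (piC [(nat_lit 35755509), (nat_lit 23968959), (nat_lit 17897616), (nat_lit 12073119)] (nat_lit 6014801)) p12_16_3 (nat_lit 4) (nat_lit 7) (nat_lit 8) = true := by decide +kernel
def p12_16_3_8 : pfC (piC [(nat_lit 35755509), (nat_lit 23968959), (nat_lit 17897616), (nat_lit 12073119)] (nat_lit 6014801)) p12_16_3 (nat_lit 4) (nat_lit 8) (nat_lit 9) = true := by decide +kernel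
def p12_16_3_9 : pfC (piC [(nat_lit 35755509), (nat_lit 23968959), (nat_lit 17897616), (nat_lit 12073119)] (nat_lit 6014801)) p12_16_3 (nat_lit 4) (nat_lit 9) (nat_lit 10) = true := by decide +kernel
def p12_16_3_10 : pfC (piC [(nat_lit 35755509), (nat_lit 23968959), (nat_lit 17897616), (nat_lit 12073119)] (nat_lit 6014801)) p12_16_3 (nat_lit 4) (nat_lit 10) (nat_lit 11) = true := by decide +kernel
def p12_16_3_11 : pfC (piC [(nat_lit 35755509), (nat_lit 23968959), (nat_lit 17897616), (nat_lit 12073119)] (nat_lit 6014801)) p12_16_3 (nat_lit 4) (nat_lit 11) (nat_lit 12) = true := by decide +kernel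
def p12_16_3_12 : pfC (piC [(nat_lit 35755509), (nat_lit 23968959), (nat_lit 17897616), (nat_lit 12073119)] (nat_lit 6014801)) p12_16_3 (nat_lit 4) (nat_lit 12) (nat_lit 13) = true := by decide +kernel
def p12_16_3_13 : pfC (piC [(nat_lit 35755509), (nat_lit 23968959), (nat_lit 17897616), (nat_lit 12073119)] (nat_lit 6014801)) p12_16_3 (nat_lit 4) (nat_lit 13) (nat_lit 14) = true := by decide +kernel
def p12_16_3_14 : pfC (piC [(nat_lit 35755509), (nat_lit 23968959), (nat_lit 17897616), (nat_lit 12073119)] (nat_lit 6014801)) p12_16_3 (nat_lit 4) (nat_lit 14) (nat_lit 15) = true := by decide +kernel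
def p12_16_3_15 : pfC (piC [(nat_lit 35755509), (nat_lit 23968959), (nat_lit 17897616), (nat_lit 12073119)] (nat_lit 6014801)) p12_16_3 (nat_lit 4) (nat_lit 15) (nat_lit 16) = true := by decide +kernel
def p12_16_3_16 : pfC (piC [(nat_lit 35755509), (nat_lit 23968959), (nat_lit 17897616), (nat_lit 12073119)] (nat_lit 6014801)) p12_16_3 (nat_lit 4) (nat_lit 16) (nat_lit 17) = true := by decide +kernel
def p12_16_3_17 : pfC (piC [(nat_lit 35755509), (nat_lit 23968959), (nat_lit 17897616), (nat_lit 12073119)] (nat_lit 6014801)) p12_16_3 (nat_lit 4) (nat_lit 17) (nat_lit 18) = true := by decide +kernel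
def p12_16_3_18 : pfC (piC [(nat_lit 35755509), (nat_lit 23968959), (nat_lit 17897616), (nat_lit 12073119)] (nat_lit 6014801)) p12_16_3 (nat_lit 4) (nat_lit 18) (nat_lit 19) = true := by decide +kernel
def p12_16_3_19 : pfC (piC [(nat_lit 35755509), (nat_lit 23968959), (nat_lit 17897616), (nat_lit 12073119)] (nat_lit 6014801)) p12_16_3 (nat_lit 4) (nat_lit 19) (nat_lit 20) = true := by decide +kernel
def p12_16_3_20 : pfC (piC [(nat_lit 35755509), (nat_lit 23968959), (nat_lit 17897616), (nat_lit 12073119)] (nat_lit 6014801)) p12_16_3 (nat_lit 4) (nat_lit 20) (nat_lit 21) = true := by decide +kernel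
def p12_16_3_21 : pfC (piC [(nat_lit 35755509), (nat_lit 23968959), (nat_lit 17897616), (nat_lit 12073119)] (nat_lit 6014801)) p12_16_3 (nat_lit 4) (nat_lit 21) (nat_lit 22) = true := by decide +kernel
def p12_16_3_22 : pfC (piC [(nat_lit 35755509), (nat_lit 23968959), (nat_lit 17897616), (nat_lit 12073119)] (nat_lit 6014801)) p12_16_3 (nat_lit 4) (nat_lit 22) (nat_lit 23) = true := by decide +kernel
def p12_16_3_23 : pfC (piC [(nat_lit 35755509), (nat_lit 23968959), (nat_lit 17897616), (nat_lit 12073119)] (nat_lit 6014801)) p12_16_3 (nat_lit 4) (nat_lit 23) (nat_lit 24) = true := by decide +kernel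
def p12_16_3_24 : pfC (piC [(nat_lit 35755509), (nat_lit 23968959), (nat_lit 17897616), (nat_lit 12073119)] (nat_lit 6014801)) p12_16_3 (nat_lit 4) (nat_lit 24) (nat_lit 25) = true := by decide +kernel
def p12_16_3_25 : pfC (piC [(nat_lit 35755509), (nat_lit 23968959), (nat_lit 17897616), (nat_lit 12073119)] (nat_lit 6014801)) p12_16_3 (nat_lit 4) (nat_lit 25) (nat_lit 26) = true := by decide +kernel
def p12_16_3_26 : pfC (piC [(nat_lit 35755509), (nat_lit 23968959), (nat_lit 17897616), (nat_lit 12073119)] (nat_lit 6014801)) p12_16_3 (nat_lit 4) (nat_lit 26) (nat_lit 27) = true := by decide +kernel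
def p12_16_3_27 : pfC (piC [(nat_lit 35755509), (nat_lit 23968959), (nat_lit 17897616), (nat_lit 12073119)] (nat_lit 6014801)) p12_16_3 (nat_lit 4) (nat_lit 27) (nat_lit 28) = true := by decide +kernel
def p12_16_3_28 : pfC (piC [(nat_lit 35755509), (nat_lit 23968959), (nat_lit 17897616), (nat_lit 12073119)] (nat_lit 6014801)) p12_16_3 (nat_lit 4) (nat_lit 28) (nat_lit 29) = true := by decide +kernel
def p12_16_3_29 : pfC (piC [(nat_lit 35755509), (nat_lit 23968959), (nat_lit 17897616), (nat_lit 12073119)] (nat_lit 6014801)) p12_16_3 (nat_lit 4) (nat_lit 29) (nat_lit 30) = true := by decide +kernel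
def p12_16_3_30 : pfC (piC [(nat_lit 35755509), (nat_lit 23968959), (nat_lit 17897616), (nat_lit 12073119)] (nat_lit 6014801)) p12_16_3 (nat_lit 4) (nat_lit 30) (nat_lit 31) = true := by decide +kernel
def p12_16_3_31 : pfC (piC [(nat_lit 35755509), (nat_lit 23968959), (nat_lit 17897616), (nat_lit 12073119)] (nat_lit 6014801)) p12_16_3 (nat_lit 4) (nat_lit 31) (nat_lit 32) = true := by decide +kernel
def p12_16_3_32 : pfC (piC [(nat_lit 35755509), (nat_lit 23968959), (nat_lit 17897616), (nat_lit 12073119)] (nat_lit 6014801)) p12_16_3 (nat_lit 4) (nat_lit 32) (nat_lit 33) = true := by decide +kernel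
def p12_16_3_33 : pfC (piC [(nat_lit 35755509), (nat_lit 23968959), (nat_lit 17897616), (nat_lit 12073119)] (nat_lit 6014801)) p12_16_3 (nat_lit 4) (nat_lit 33) (nat_lit 34) = true := by decide +kernel
def p12_16_3_34 : pfC (piC [(nat_lit 35755509), (nat_lit 23968959), (nat_lit 17897616), (nat_lit 12073119)] (nat_lit 6014801)) p12_16_3 (nat_lit 4) (nat_lit 34) (nat_lit 35) = true := by decide +kernel
def p12_16_3_35 : pfC (piC [(nat_lit 35755509), (nat_lit 23968959), (nat_lit 17897616), (nat_lit 12073119)] (nat_lit 6014801)) p12_16_3 (nat_lit 4) (nat_lit 35) (nat_lit 36) = true := by decide +kernel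
def p12_16_3_36 : pfC (piC [(nat_lit 35755509), (nat_lit 23968959), (nat_lit 17897616), (nat_lit 12073119)] (nat_lit 6014801)) p12_16_3 (nat_lit 4) (nat_lit 36) (nat_lit 37) = true := by decide +kernel
def p12_16_3_37 : pfC (piC [(nat_lit 35755509), (nat_lit 23968959), (nat_lit 17897616), (nat_lit 12073119)] (nat_lit 6014801)) p12_16_3 (nat_lit 4) (nat_lit 37) (nat_lit 38) = true := by decide +kernel
def p12_16_3_38 : pfC (piC [(nat_lit 35755509), (nat_lit 23968959), (nat_lit 17897616), (nat_lit 12073119)] (nat_lit 6014801)) p12_16_3 (nat_lit 4) (nat_lit 38) (nat_lit 39) = true := by decide +kernel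
def p12_16_3_39 : pfC (piC [(nat_lit 35755509), (nat_lit 23968959), (nat_lit 17897616), (nat_lit 12073119)] (nat_lit 6014801)) p12_16_3 (nat_lit 4) (nat_lit 39) (nat_lit 40) = true := by decide +kernel
def p12_16_3_40 : pfC (piC [(nat_lit 35755509), (nat_lit 23968959), (nat_lit 17897616), (nat_lit 12073119)] (nat_lit 6014801)) p12_16_3 (nat_lit 4) (nat_lit 40) (nat_lit 41) = true := by decide +kernel
def p12_16_3_41 : pfC (piC [(nat_lit 35755509), (nat_lit 23968959), (nat_lit 17897616), (nat_lit 12073119)] (nat_lit 6014801)) p12_16_3 (nat_lit 4) (nat_lit 41) (nat_lit 42) = true := by decide +kernel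
def p12_16_3_42 : pfC (piC [(nat_lit 35755509), (nat_lit 23968959), (nat_lit 17897616), (nat_lit 12073119)] (nat_lit 6014801)) p12_16_3 (nat_lit 4) (nat_lit 42) (nat_lit 43) = true := by decide +kernel
def p12_16_3_43 : pfC (piC [(nat_lit 35755509), (nat_lit 23968959), (nat_lit 17897616), (nat_lit 12073119)] (nat_lit 6014801)) p12_16_3 (nat_lit 4) (nat_lit 43) (nat_lit 44) = true := by decide +kernel
def p12_16_3_44 : pfC (piC [(nat_lit 35755509), (nat_lit 23968959), (nat_lit 17897616), (nat_lit 12073119)] (nat_lit 6014801)) p12_16_3 (nat_lit 4) (nat_lit 44) (nat_lit 45) = true := by decide +kernel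
def p12_16_3_45 : pfC (piC [(nat_lit 35755509), (nat_lit 23968959), (nat_lit 17897616), (nat_lit 12073119)] (nat_lit 6014801)) p12_16_3 (nat_lit 4) (nat_lit 45) (nat_lit 46) = true := by decide +kernel
def p12_16_3_46 : pfC (piC [(nat_lit 35755509), (nat_lit 23968959), (nat_lit 17897616), (nat_lit 12073119)] (nat_lit 6014801)) p12_16_3 (nat_lit 4) (nat_lit 46) (nat_lit 47) = true := by decide +kernel
def p12_16_3_47 : pfC (piC [(nat_lit 35755509), (nat_lit 23968959), (nat_lit 17897616), (nat_lit 12073119)] (nat_lit 6014801)) p12_16_3 (nat_lit 4) (nat_lit 47) (nat_lit 48) = true := by decide +kernel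
def p12_16_3_48 : pfC (piC [(nat_lit 35755509), (nat_lit 23968959), (nat_lit 17897616), (nat_lit 12073119)] (nat_lit 6014801)) p12_16_3 (nat_lit 4) (nat_lit 48) (nat_lit 49) = true := by decide +kernel
def p12_16_3_49 : pfC (piC [(nat_lit 35755509), (nat_lit 23968959), (nat_lit 17897616), (nat_lit 12073119)] (nat_lit 6014801)) p12_16_3 (nat_lit 4) (nat_lit 49) (nat_lit 50) = true := by decide +kernel
def p12_16_3_50 : pfC (piC [(nat_lit 35755509), (nat_lit 23968959), (nat_lit 17897616), (nat_lit 12073119)] (nat_lit 6014801)) p12_16_3 (nat_lit 4) (nat_lit 50) (nat_lit 51) = true := by decide +kernel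
def p12_16_3_51 : pfC (piC [(nat_lit 35755509), (nat_lit 23968959), (nat_lit 17897616), (nat_lit 12073119)] (nat_lit 6014801)) p12_16_3 (nat_lit 4) (nat_lit 51) (nat_lit 52) = true := by decide +kernel
def p12_16_3_52 : pfC (piC [(nat_lit 35755509), (nat_lit 23968959), (nat_lit 17897616), (nat_lit 12073119)] (nat_lit 6014801)) p12_16_3 (nat_lit 4) (nat_lit 52) (nat_lit 53) = true := by decide +kernel
def p12_16_3_53 : pfC (piC [(nat_lit 35755509), (nat_lit 23968959), (nat_lit 17897616), (nat_lit 12073119)] (nat_lit 6014801)) p12_16_3 (nat_lit 4) (nat_lit 53) (nat_lit 54) = true := by decide +kernel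
def p12_16_3_54 : pfC (piC [(nat_lit 35755509), (nat_lit 23968959), (nat_lit 17897616), (nat_lit 12073119)] (nat_lit 6014801)) p12_16_3 (nat_lit 4) (nat_lit 54) (nat_lit 55) = true := by decide +kernel
def p12_16_3_55 : pfC (piC [(nat_lit 35755509), (nat_lit 23968959), (nat_lit 17897616), (nat_lit 12073119)] (nat_lit 6014801)) p12_16_3 (nat_lit 4) (nat_lit 55) (nat_lit 56) = true := by decide +kernel
def p12_16_3_56 : pfC (piC [(nat_lit 35755509), (nat_lit 23968959), (nat_lit 17897616), (nat_lit 12073119)] (nat_lit 6014801)) p12_16_3 (nat_lit 4) (nat_lit 56) (nat_lit 57) = true := by decide +kernel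
def p12_16_3_57 : pfC (piC [(nat_lit 35755509), (nat_lit 23968959), (nat_lit 17897616), (nat_lit 12073119)] (nat_lit 6014801)) p12_16_3 (nat_lit 4) (nat_lit 57) (nat_lit 58) = true := by decide +kernel
def p12_16_3_58 : pfC (piC [(nat_lit 35755509), (nat_lit 23968959), (nat_lit 17897616), (nat_lit 12073119)] (nat_lit 6014801)) p12_16_3 (nat_lit 4) (nat_lit 58) (nat_lit 59) = true := by decide +kernel
def p12_16_3_59 : pfC (piC [(nat_lit 35755509), (nat_lit 23968959), (nat_lit 17897616), (nat_lit 12073119)] (nat_lit 6014801)) p12_16_3 (nat_lit 4) (nat_lit 59) (nat_lit 60) = true := by decide +kernel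
def p12_16_3_60 : pfC (piC [(nat_lit 35755509), (nat_lit 23968959), (nat_lit 17897616), (nat_lit 12073119)] (nat_lit 6014801)) p12_16_3 (nat_lit 4) (nat_lit 60) (nat_lit 61) = true := by decide +kernel
def p12_16_3_61 : pfC (piC [(nat_lit 35755509), (nat_lit 23968959), (nat_lit 17897616), (nat_lit 12073119)] (nat_lit 6014801)) p12_16_3 (nat_lit 4) (nat_lit 61) (nat_lit 62) = true := by decide +kernel
def p12_16_3_62 : pfC (piC [(nat_lit 35755509), (nat_lit 23968959), (nat_lit 17897616), (nat_lit 12073119)] (nat_lit 6014801)) p12_16_3 (nat_lit 4) (nat_lit 62) (nat_lit 63) = true := by decide +kernel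
def p12_16_3_63 : pfC (piC [(nat_lit 35755509), (nat_lit 23968959), (nat_lit 17897616), (nat_lit 12073119)] (nat_lit 6014801)) p12_16_3 (nat_lit 4) (nat_lit 63) (nat_lit 64) = true := by decide +kernel
def p12_16_3_64 : pfC (piC [(nat_lit 35755509), (nat_lit 23968959), (nat_lit 17897616), (nat_lit 12073119)] (nat_lit 6014801)) p12_16_3 (nat_lit 4) (nat_lit 64) (nat_lit 65) = true := by decide +kernel
def p12_16_3_65 : pfC (piC [(nat_lit 35755509), (nat_lit 23968959), (nat_lit 17897616), (nat_lit 12073119)] (nat_lit 6014801)) p12_16_3 (nat_lit 4) (nat_lit 65) (nat_lit 66) = true := by decide +kernel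
def p12_16_3_66 : pfC (piC [(nat_lit 35755509), (nat_lit 23968959), (nat_lit 17897616), (nat_lit 12073119)] (nat_lit 6014801)) p12_16_3 (nat_lit 4) (nat_lit 66) (nat_lit 67) = true := by decide +kernel
def p12_16_3_67 : pfC (piC [(nat_lit 35755509), (nat_lit 23968959), (nat_lit 17897616), (nat_lit 12073119)] (nat_lit 6014801)) p12_16_3 (nat_lit 4) (nat_lit 67) (nat_lit 68) = true := by decide +kernel
def p12_16_3_68 : pfC (piC [(nat_lit 35755509), (nat_lit 23968959), (nat_lit 17897616), (nat_lit 12073119)] (nat_lit 6014801)) p12_16_3 (nat_lit 4) (nat_lit 68) (nat_lit 69) = true := by decide +kernel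
def p12_16_3_69 : pfC (piC [(nat_lit 35755509), (nat_lit 23968959), (nat_lit 17897616), (nat_lit 12073119)] (nat_lit 6014801)) p12_16_3 (nat_lit 4) (nat_lit 69) (nat_lit 70) = true := by decide +kernel
def p12_16_3_70 : pfC (piC [(nat_lit 35755509), (nat_lit 23968959), (nat_lit 17897616), (nat_lit 12073119)] (nat_lit 6014801)) p12_16_3 (nat_lit 4) (nat_lit 70) (nat_lit 71) = true := by decide +kernel
def p12_16_3_71 : pfC (piC [(nat_lit 35755509), (nat_lit 23968959), (nat_lit 17897616), (nat_lit 12073119)] (nat_lit 6014801)) p12_16_3 (nat_lit 4) (nat_lit 71) (nat_lit 72) = true := by decide +kernel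
def p12_16_3_72 : pfC (piC [(nat_lit 35755509), (nat_lit 23968959), (nat_lit 17897616), (nat_lit 12073119)] (nat_lit 6014801)) p12_16_3 (nat_lit 4) (nat_lit 72) (nat_lit 73) = true := by decide +kernel
def p12_16_3_73 : pfC (piC [(nat_lit 35755509), (nat_lit 23968959), (nat_lit 17897616), (nat_lit 12073119)] (nat_lit 6014801)) p12_16_3 (nat_lit 4) (nat_lit 73) (nat_lit 74) = true := by decide +kernel
def p12_16_3_74 : pfC (piC [(nat_lit 35755509), (nat_lit 23968959), (nat_lit 17897616), (nat_lit 12073119)] (nat_lit 6014801)) p12_16_3 (nat_lit 4) (nat_lit 74) (nat_lit 75) = true := by decide +kernel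
def p12_16_3_75 : pfC (piC [(nat_lit 35755509), (nat_lit 23968959), (nat_lit 17897616), (nat_lit 12073119)] (nat_lit 6014801)) p12_16_3 (nat_lit 4) (nat_lit 75) (nat_lit 76) = true := by decide +kernel
def p12_16_3_76 : pfC (piC [(nat_lit 35755509), (nat_lit 23968959), (nat_lit 17897616), (nat_lit 12073119)] (nat_lit 6014801)) p12_16_3 (nat_lit 4) (nat_lit 76) (nat_lit 77) = true := by decide +kernel
def p12_16_3_77 : pfC (piC [(nat_lit 35755509), (nat_lit 23968959), (nat_lit 17897616), (nat_lit 12073119)] (nat_lit 6014801)) p12_16_3 (nat_lit 4) (nat_lit 77) (nat_lit 78) = true := by decide +kernel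
def p12_16_3_78 : pfC (piC [(nat_lit 35755509), (nat_lit 23968959), (nat_lit 17897616), (nat_lit 12073119)] (nat_lit 6014801)) p12_16_3 (nat_lit 4) (nat_lit 78) (nat_lit 79) = true := by decide +kernel
def p12_16_3_79 : pfC (piC [(nat_lit 35755509), (nat_lit 23968959), (nat_lit 17897616), (nat_lit 12073119)] (nat_lit 6014801)) p12_16_3 (nat_lit 4) (nat_lit 79) (nat_lit 80) = true := by decide +kernel
def p12_16_3_80 : pfC (piC [(nat_lit 35755509), (nat_lit 23968959), (nat_lit 17897616), (nat_lit 12073119)] (nat_lit 6014801)) p12_16_3 (nat_lit 4) (nat_lit 80) (nat_lit 81) = true := by decide +kernel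
def p12_16_3_81 : pfC (piC [(nat_lit 35755509), (nat_lit 23968959), (nat_lit 17897616), (nat_lit 12073119)] (nat_lit 6014801)) p12_16_3 (nat_lit 4) (nat_lit 81) (nat_lit 82) = true := by decide +kernel
def p12_16_3_82 : pfC (piC [(nat_lit 35755509), (nat_lit 23968959), (nat_lit 17897616), (nat_lit 12073119)] (nat_lit 6014801)) p12_16_3 (nat_lit 4) (nat_lit 82) (nat_lit 83) = true := by decide +kernel
def p12_16_3_83 : pfC (piC [(nat_lit 35755509), (nat_lit 23968959), (nat_lit 17897616), (nat_lit 12073119)] (nat_lit 6014801)) p12_16_3 (nat_lit 4) (nat_lit 83) (nat_lit 84) = true := by decide +kernel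
def p12_16_3_84 : pfC (piC [(nat_lit 35755509), (nat_lit 23968959), (nat_lit 17897616), (nat_lit 12073119)] (nat_lit 6014801)) p12_16_3 (nat_lit 4) (nat_lit 84) (nat_lit 85) = true := by decide +kernel
def p12_16_3_85 : pfC (piC [(nat_lit 35755509), (nat_lit 23968959), (nat_lit 17897616), (nat_lit 12073119)] (nat_lit 6014801)) p12_16_3 (nat_lit 4) (nat_lit 85) (nat_lit 86) = true := by decide +kernel
def p12_16_3_86 : pfC (piC [(nat_lit 35755509), (nat_lit 23968959), (nat_lit 17897616), (nat_lit 12073119)] (nat_lit 6014801)) p12_16_3 (nat_lit 4) (nat_lit 86) (nat_lit 87) = true := by decide +kernel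
def p12_16_3_87 : pfC (piC [(nat_lit 35755509), (nat_lit 23968959), (nat_lit 17897616), (nat_lit 12073119)] (nat_lit 6014801)) p12_16_3 (nat_lit 4) (nat_lit 87) (nat_lit 88) = true := by decide +kernel
def p12_16_3_88 : pfC (piC [(nat_lit 35755509), (nat_lit 23968959), (nat_lit 17897616), (nat_lit 12073119)] (nat_lit 6014801)) p12_16_3 (nat_lit 4) (nat_lit 88) (nat_lit 89) = true := by decide +kernel
def p12_16_3_89 : pfC (piC [(nat_lit 35755509), (nat_lit 23968959), (nat_lit 17897616), (nat_lit 12073119)] (nat_lit 6014801)) p12_16_3 (nat_lit 4) (nat_lit 89) (nat_lit 90) = true := by decide +kernel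
def p12_16_3_90 : pfC (piC [(nat_lit 35755509), (nat_lit 23968959), (nat_lit 17897616), (nat_lit 12073119)] (nat_lit 6014801)) p12_16_3 (nat_lit 4) (nat_lit 90) (nat_lit 91) = true := by decide +kernel
def p12_16_3_91 : pfC (piC [(nat_lit 35755509), (nat_lit 23968959), (nat_lit 17897616), (nat_lit 12073119)] (nat_lit 6014801)) p12_16_3 (nat_lit 4) (nat_lit 91) (nat_lit 92) = true := by decide +kernel
def p12_16_3_92 : pfC (piC [(nat_lit 35755509), (nat_lit 23968959), (nat_lit 17897616), (nat_lit 12073119)] (nat_lit 6014801)) p12_16_3 (nat_lit 4) (nat_lit 92) (nat_lit 93) = true := by decide +kernel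
def p12_16_3_93 : pfC (piC [(nat_lit 35755509), (nat_lit 23968959), (nat_lit 17897616), (nat_lit 12073119)] (nat_lit 6014801)) p12_16_3 (nat_lit 4) (nat_lit 93) (nat_lit 94) = true := by decide +kernel
def p12_16_3_94 : pfC (piC [(nat_lit 35755509), (nat_lit 23968959), (nat_lit 17897616), (nat_lit 12073119)] (nat_lit 6014801)) p12_16_3 (nat_lit 4) (nat_lit 94) (nat_lit 95) = true := by decide +kernel
def p12_16_3_95 : pfC (piC [(nat_lit 35755509), (nat_lit 23968959), (nat_lit 17897616), (nat_lit 12073119)] (nat_lit 6014801)) p12_16_3 (nat_lit 4) (nat_lit 95) (nat_lit 96) = true := by decide +kernel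
def p12_16_3_96 : pfC (piC [(nat_lit 35755509), (nat_lit 23968959), (nat_lit 17897616), (nat_lit 12073119)] (nat_lit 6014801)) p12_16_3 (nat_lit 4) (nat_lit 96) (nat_lit 97) = true := by decide +kernel
def p12_16_3_97 : pfC (piC [(nat_lit 35755509), (nat_lit 23968959), (nat_lit 17897616), (nat_lit 12073119)] (nat_lit 6014801)) p12_16_3 (nat_lit 4) (nat_lit 97) (nat_lit 98) = true := by decide +kernel
def p12_16_3_98 : pfC (piC [(nat_lit 35755509), (nat_lit 23968959), (nat_lit 17897616), (nat_lit 12073119)] (nat_lit 6014801)) p12_16_3 (nat_lit 4) (nat_lit 98) (nat_lit 99) = true := by decide +kernel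
def p12_16_3_99 : pfC (piC [(nat_lit 35755509), (nat_lit 23968959), (nat_lit 17897616), (nat_lit 12073119)] (nat_lit 6014801)) p12_16_3 (nat_lit 4) (nat_lit 99) (nat_lit 100) = true := by decide +kernel
def p12_16_3_100 : pfC (piC [(nat_lit 35755509), (nat_lit 23968959), (nat_lit 17897616), (nat_lit 12073119)] (nat_lit 6014801)) p12_16_3 (nat_lit 4) (nat_lit 100) (nat_lit 101) = true := by decide +kernel
def p12_16_3_101 : pfC (piC [(nat_lit 35755509), (nat_lit 23968959), (nat_lit 17897616), (nat_lit 12073119)] (nat_lit 6014801)) p12_16_3 (nat_lit 4) (nat_lit 101) (nat_lit 102) = true := by decide +kernel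
def p12_16_3_102 : pfC (piC [(nat_lit 35755509), (nat_lit 23968959), (nat_lit 17897616), (nat_lit 12073119)] (nat_lit 6014801)) p12_16_3 (nat_lit 4) (nat_lit 102) (nat_lit 103) = true := by decide +kernel
def p12_16_3_103 : pfC (piC [(nat_lit 35755509), (nat_lit 23968959), (nat_lit 17897616), (nat_lit 12073119)] (nat_lit 6014801)) p12_16_3 (nat_lit 4) (nat_lit 103) (nat_lit 104) = true := by decide +kernel
def p12_16_3_104 : pfC (piC [(nat_lit 35755509), (nat_lit 23968959), (nat_lit 17897616), (nat_lit 12073119)] (nat_lit 6014801)) p12_16_3 (nat_lit 4) (nat_lit 104) (nat_lit 105) = true := by decide +kernel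
def p12_16_3_105 : pfC (piC [(nat_lit 35755509), (nat_lit 23968959), (nat_lit 17897616), (nat_lit 12073119)] (nat_lit 6014801)) p12_16_3 (nat_lit 4) (nat_lit 105) (nat_lit 106) = true := by decide +kernel
def p12_16_3_106 : pfC (piC [(nat_lit 35755509), (nat_lit 23968959), (nat_lit 17897616), (nat_lit 12073119)] (nat_lit 6014801)) p12_16_3 (nat_lit 4) (nat_lit 106) (nat_lit 107) = true := by decide +kernel
def p12_16_3_107 : pfC (piC [(nat_lit 35755509), (nat_lit 23968959), (nat_lit 17897616), (nat_lit 12073119)] (nat_lit 6014801)) p12_16_3 (nat_lit 4) (nat_lit 107) (nat_lit 108) = true := by decide +kernel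
def p12_16_3_108 : pfC (piC [(nat_lit 35755509), (nat_lit 23968959), (nat_lit 17897616), (nat_lit 12073119)] (nat_lit 6014801)) p12_16_3 (nat_lit 4) (nat_lit 108) (nat_lit 109) = true := by decide +kernel
def p12_16_3_109 : pfC (piC [(nat_lit 35755509), (nat_lit 23968959), (nat_lit 17897616), (nat_lit 12073119)] (nat_lit 6014801)) p12_16_3 (nat_lit 4) (nat_lit 109) (nat_lit 110) = true := by decide +kernel
def p12_16_3_110 : pfC (piC [(nat_lit 35755509), (nat_lit 23968959), (nat_lit 17897616), (nat_lit 12073119)] (nat_lit 6014801)) p12_16_3 (nat_lit 4) (nat_lit 110) (nat_lit 111) = true := by decide +kernel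
def p12_16_3_111 : pfC (piC [(nat_lit 35755509), (nat_lit 23968959), (nat_lit 17897616), (nat_lit 12073119)] (nat_lit 6014801)) p12_16_3 (nat_lit 4) (nat_lit 111) (nat_lit 112) = true := by decide +kernel
def p12_16_3_112 : pfC (piC [(nat_lit 35755509), (nat_lit 23968959), (nat_lit 17897616), (nat_lit 12073119)] (nat_lit 6014801)) p12_16_3 (nat_lit 4) (nat_lit 112) (nat_lit 113) = true := by decide +kernel
def p12_16_3_113 : pfC (piC [(nat_lit 35755509), (nat_lit 23968959), (nat_lit 17897616), (nat_lit 12073119)] (nat_lit 6014801)) p12_16_3 (nat_lit 4) (nat_lit 113) (nat_lit 114) = true := by decide +kernel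
def p12_16_3_114 : pfC (piC [(nat_lit 35755509), (nat_lit 23968959), (nat_lit 17897616), (nat_lit 12073119)] (nat_lit 6014801)) p12_16_3 (nat_lit 4) (nat_lit 114) (nat_lit 115) = true := by decide +kernel
def p12_16_3_115 : pfC (piC [(nat_lit 35755509), (nat_lit 23968959), (nat_lit 17897616), (nat_lit 12073119)] (nat_lit 6014801)) p12_16_3 (nat_lit 4) (nat_lit 115) (nat_lit 116) = true := by decide +kernel
def p12_16_3_116 : pfC (piC [(nat_lit 35755509), (nat_lit 23968959), (nat_lit 17897616), (nat_lit 12073119)] (nat_lit 6014801)) p12_16_3 (nat_lit 4) (nat_lit 116) (nat_lit 117) = true := by decide +kernel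
def p12_16_3_117 : pfC (piC [(nat_lit 35755509), (nat_lit 23968959), (nat_lit 17897616), (nat_lit 12073119)] (nat_lit 6014801)) p12_16_3 (nat_lit 4) (nat_lit 117) (nat_lit 118) = true := by decide +kernel
def p12_16_3_118 : pfC (piC [(nat_lit 35755509), (nat_lit 23968959), (nat_lit 17897616), (nat_lit 12073119)] (nat_lit 6014801)) p12_16_3 (nat_lit 4) (nat_lit 118) (nat_lit 119) = true := by decide +kernel
def p12_16_3_119 : pfC (piC [(nat_lit 35755509), (nat_lit 23968959), (nat_lit 17897616), (nat_lit 12073119)] (nat_lit 6014801)) p12_16_3 (nat_lit 4) (nat_lit 119) (nat_lit 120) = true := by decide +kernel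
def p12_16_3_120 : pfC (piC [(nat_lit 35755509), (nat_lit 23968959), (nat_lit 17897616), (nat_lit 12073119)] (nat_lit 6014801)) p12_16_3 (nat_lit 4) (nat_lit 120) (nat_lit 121) = true := by decide +kernel
def p12_16_3_121 : pfC (piC [(nat_lit 35755509), (nat_lit 23968959), (nat_lit 17897616), (nat_lit 12073119)] (nat_lit 6014801)) p12_16_3 (nat_lit 4) (nat_lit 121) (nat_lit 122) = true := by decide +kernel
def p12_16_3_122 : pfC (piC [(nat_lit 35755509), (nat_lit 23968959), (nat_lit 17897616), (nat_lit 12073119)] (nat_lit 6014801)) p12_16_3 (nat_lit 4) (nat_lit 122) (nat_lit 123) = true := by decide +kernel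
def p12_16_3_123 : pfC (piC [(nat_lit 35755509), (nat_lit 23968959), (nat_lit 17897616), (nat_lit 12073119)] (nat_lit 6014801)) p12_16_3 (nat_lit 4) (nat_lit 123) (nat_lit 124) = true := by decide +kernel
def p12_16_3_124 : pfC (piC [(nat_lit 35755509), (nat_lit 23968959), (nat_lit 17897616), (nat_lit 12073119)] (nat_lit 6014801)) p12_16_3 (nat_lit 4) (nat_lit 124) (nat_lit 125) = true := by decide +kernel
def p12_16_3_125 : pfC (piC [(nat_lit 35755509), (nat_lit 23968959), (nat_lit 17897616), (nat_lit 12073119)] (nat_lit 6014801)) p12_16_3 (nat_lit 4) (nat_lit 125) (nat_lit 126) = true := by decide +kernel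
def p12_16_3_126 : pfC (piC [(nat_lit 35755509), (nat_lit 23968959), (nat_lit 17897616), (nat_lit 12073119)] (nat_lit 6014801)) p12_16_3 (nat_lit 4) (nat_lit 126) (nat_lit 127) = true := by decide +kernel
def p12_16_3_127 : pfC (piC [(nat_lit 35755509), (nat_lit 23968959), (nat_lit 17897616), (nat_lit 12073119)] (nat_lit 6014801)) p12_16_3 (nat_lit 4) (nat_lit 127) (nat_lit 128) = true := by decide +kernel
def p12_16_3_128 : pfC (piC [(nat_lit 35755509), (nat_lit 23968959), (nat_lit 17897616), (nat_lit 12073119)] (nat_lit 6014801)) p12_16_3 (nat_lit 4) (nat_lit 128) (nat_lit 129) = true := by decide +kernel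
def p12_16_3_129 : pfC (piC [(nat_lit 35755509), (nat_lit 23968959), (nat_lit 17897616), (nat_lit 12073119)] (nat_lit 6014801)) p12_16_3 (nat_lit 4) (nat_lit 129) (nat_lit 130) = true := by decide +kernel
def p12_16_3_130 : pfC (piC [(nat_lit 35755509), (nat_lit 23968959), (nat_lit 17897616), (nat_lit 12073119)] (nat_lit 6014801)) p12_16_3 (nat_lit 4) (nat_lit 130) (nat_lit 131) = true := by decide +kernel
def p12_16_3_131 : pfC (piC [(nat_lit 35755509), (nat_lit 23968959), (nat_lit 17897616), (nat_lit 12073119)] (nat_lit 6014801)) p12_16_3 (nat_lit 4) (nat_lit 131) (nat_lit 132) = true := by decide +kernel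
def p12_16_3_132 : pfC (piC [(nat_lit 35755509), (nat_lit 23968959), (nat_lit 17897616), (nat_lit 12073119)] (nat_lit 6014801)) p12_16_3 (nat_lit 4) (nat_lit 132) (nat_lit 133) = true := by decide +kernel
def p12_16_3_133 : pfC (piC [(nat_lit 35755509), (nat_lit 23968959), (nat_lit 17897616), (nat_lit 12073119)] (nat_lit 6014801)) p12_16_3 (nat_lit 4) (nat_lit 133) (nat_lit 134) = true := by decide +kernel
def p12_16_3_134 : pfC (piC [(nat_lit 35755509), (nat_lit 23968959), (nat_lit 17897616), (nat_lit 12073119)] (nat_lit 6014801)) p12_16_3 (nat_lit 4) (nat_lit 134) (nat_lit 135) = true := by decide +kernel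
def p12_16_3_135 : pfC (piC [(nat_lit 35755509), (nat_lit 23968959), (nat_lit 17897616), (nat_lit 12073119)] (nat_lit 6014801)) p12_16_3 (nat_lit 4) (nat_lit 135) (nat_lit 136) = true := by decide +kernel
def p12_16_3_136 : pfC (piC [(nat_lit 35755509), (nat_lit 23968959), (nat_lit 17897616), (nat_lit 12073119)] (nat_lit 6014801)) p12_16_3 (nat_lit 4) (nat_lit 136) (nat_lit 137) = true := by decide +kernel
def p12_16_3_137 : pfC (piC [(nat_lit 35755509), (nat_lit 23968959), (nat_lit 17897616), (nat_lit 12073119)] (nat_lit 6014801)) p12_16_3 (nat_lit 4) (nat_lit 137) (nat_lit 138) = true := by decide +kernel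
def p12_16_3_138 : pfC (piC [(nat_lit 35755509), (nat_lit 23968959), (nat_lit 17897616), (nat_lit 12073119)] (nat_lit 6014801)) p12_16_3 (nat_lit 4) (nat_lit 138) (nat_lit 139) = true := by decide +kernel
def p12_16_3_139 : pfC (piC [(nat_lit 35755509), (nat_lit 23968959), (nat_lit 17897616), (nat_lit 12073119)] (nat_lit 6014801)) p12_16_3 (nat_lit 4) (nat_lit 139) (nat_lit 140) = true := by decide +kernel
def p12_16_3_140 : pfC (piC [(nat_lit 35755509), (nat_lit 23968959), (nat_lit 17897616), (nat_lit 12073119)] (nat_lit 6014801)) p12_16_3 (nat_lit 4) (nat_lit 140) (nat_lit 141) = true := by decide +kernel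
def p12_16_3_141 : pfC (piC [(nat_lit 35755509), (nat_lit 23968959), (nat_lit 17897616), (nat_lit 12073119)] (nat_lit 6014801)) p12_16_3 (nat_lit 4) (nat_lit 141) (nat_lit 142) = true := by decide +kernel
def p12_16_3_142 : pfC (piC [(nat_lit 35755509), (nat_lit 23968959), (nat_lit 17897616), (nat_lit 12073119)] (nat_lit 6014801)) p12_16_3 (nat_lit 4) (nat_lit 142) (nat_lit 143) = true := by decide +kernel
def p12_16_3_143 : pfC (piC [(nat_lit 35755509), (nat_lit 23968959), (nat_lit 17897616), (nat_lit 12073119)] (nat_lit 6014801)) p12_16_3 (nat_lit 4) (nat_lit 143) (nat_lit 144) = true := by decide +kernel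
def p12_16_3_144 : pfC (piC [(nat_lit 35755509), (nat_lit 23968959), (nat_lit 17897616), (nat_lit 12073119)] (nat_lit 6014801)) p12_16_3 (nat_lit 4) (nat_lit 144) (nat_lit 145) = true := by decide +kernel
def p12_16_3_145 : pfC (piC [(nat_lit 35755509), (nat_lit 23968959), (nat_lit 17897616), (nat_lit 12073119)] (nat_lit 6014801)) p12_16_3 (nat_lit 4) (nat_lit 145) (nat_lit 146) = true := by decide +kernel
def p12_16_3_146 : pfC (piC [(nat_lit 35755509), (nat_lit 23968959), (nat_lit 17897616), (nat_lit 12073119)] (nat_lit 6014801)) p12_16_3 (nat_lit 4) (nat_lit 146) (nat_lit 147) = true := by decide +kernel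
def p12_16_3_147 : pfC (piC [(nat_lit 35755509), (nat_lit 23968959), (nat_lit 17897616), (nat_lit 12073119)] (nat_lit 6014801)) p12_16_3 (nat_lit 4) (nat_lit 147) (nat_lit 148) = true := by decide +kernel
def p12_16_3_148 : pfC (piC [(nat_lit 35755509), (nat_lit 23968959), (nat_lit 17897616), (nat_lit 12073119)] (nat_lit 6014801)) p12_16_3 (nat_lit 4) (nat_lit 148) (nat_lit 149) = true := by decide +kernel
def p12_16_3_149 : pfC (piC [(nat_lit 35755509), (nat_lit 23968959), (nat_lit 17897616), (nat_lit 12073119)] (nat_lit 6014801)) p12_16_3 (nat_lit 4) (nat_lit 149) (nat_lit 150) = true := by decide +kernel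
def p12_16_3_150 : pfC (piC [(nat_lit 35755509), (nat_lit 23968959), (nat_lit 17897616), (nat_lit 12073119)] (nat_lit 6014801)) p12_16_3 (nat_lit 4) (nat_lit 150) (nat_lit 151) = true := by decide +kernel
def p12_16_3_151 : pfC (piC [(nat_lit 35755509), (nat_lit 23968959), (nat_lit 17897616), (nat_lit 12073119)] (nat_lit 6014801)) p12_16_3 (nat_lit 4) (nat_lit 151) (nat_lit 152) = true := by decide +kernel
def p12_16_3_152 : pfC (piC [(nat_lit 35755509), (nat_lit 23968959), (nat_lit 17897616), (nat_lit 12073119)] (nat_lit 6014801)) p12_16_3 (nat_lit 4) (nat_lit 152) (nat_lit 153) = true := by decide +kernel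
def p12_16_3_153 : pfC (piC [(nat_lit 35755509), (nat_lit 23968959), (nat_lit 17897616), (nat_lit 12073119)] (nat_lit 6014801)) p12_16_3 (nat_lit 4) (nat_lit 153) (nat_lit 154) = true := by decide +kernel
def p12_16_3_154 : pfC (piC [(nat_lit 35755509), (nat_lit 23968959), (nat_lit 17897616), (nat_lit 12073119)] (nat_lit 6014801)) p12_16_3 (nat_lit 4) (nat_lit 154) (nat_lit 155) = true := by decide +kernel
def p12_16_3_155 : pfC (piC [(nat_lit 35755509), (nat_lit 23968959), (nat_lit 17897616), (nat_lit 12073119)] (nat_lit 6014801)) p12_16_3 (nat_lit 4) (nat_lit 155) (nat_lit 156) = true := by decide +kernel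
def p12_16_3_156 : pfC (piC [(nat_lit 35755509), (nat_lit 23968959), (nat_lit 17897616), (nat_lit 12073119)] (nat_lit 6014801)) p12_16_3 (nat_lit 4) (nat_lit 156) (nat_lit 157) = true := by decide +kernel
def p12_16_3_157 : pfC (piC [(nat_lit 35755509), (nat_lit 23968959), (nat_lit 17897616), (nat_lit 12073119)] (nat_lit 6014801)) p12_16_3 (nat_lit 4) (nat_lit 157) (nat_lit 158) = true := by decide +kernel
def p12_16_3_158 : pfC (piC [(nat_lit 35755509), (nat_lit 23968959), (nat_lit 17897616), (nat_lit 12073119)] (nat_lit 6014801)) p12_16_3 (nat_lit 4) (nat_lit 158) (nat_lit 159) = true := by decide +kernel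
def p12_16_3_159 : pfC (piC [(nat_lit 35755509), (nat_lit 23968959), (nat_lit 17897616), (nat_lit 12073119)] (nat_lit 6014801)) p12_16_3 (nat_lit 4) (nat_lit 159) (nat_lit 160) = true := by decide +kernel
def p12_16_3_160 : pfC (piC [(nat_lit 35755509), (nat_lit 23968959), (nat_lit 17897616), (nat_lit 12073119)] (nat_lit 6014801)) p12_16_3 (nat_lit 4) (nat_lit 160) (nat_lit 161) = true := by decide +kernel
def p12_16_3_161 : pfC (piC [(nat_lit 35755509), (nat_lit 23968959), (nat_lit 17897616), (nat_lit 12073119)] (nat_lit 6014801)) p12_16_3 (nat_lit 4) (nat_lit 161) (nat_lit 162) = true := by decide +kernel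
def p12_16_3_162 : pfC (piC [(nat_lit 35755509), (nat_lit 23968959), (nat_lit 17897616), (nat_lit 12073119)] (nat_lit 6014801)) p12_16_3 (nat_lit 4) (nat_lit 162) (nat_lit 163) = true := by decide +kernel
def p12_16_3_163 : pfC (piC [(nat_lit 35755509), (nat_lit 23968959), (nat_lit 17897616), (nat_lit 12073119)] (nat_lit 6014801)) p12_16_3 (nat_lit 4) (nat_lit 163) (nat_lit 164) = true := by decide +kernel
def p12_16_3_164 : pfC (piC [(nat_lit 35755509), (nat_lit 23968959), (nat_lit 17897616), (nat_lit 12073119)] (nat_lit 6014801)) p12_16_3 (nat_lit 4) (nat_lit 164) (nat_lit 165) = true := by decide +kernel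
def p12_16_3_165 : pfC (piC [(nat_lit 35755509), (nat_lit 23968959), (nat_lit 17897616), (nat_lit 12073119)] (nat_lit 6014801)) p12_16_3 (nat_lit 4) (nat_lit 165) (nat_lit 166) = true := by decide +kernel
def p12_16_3_166 : pfC (piC [(nat_lit 35755509), (nat_lit 23968959), (nat_lit 17897616), (nat_lit 12073119)] (nat_lit 6014801)) p12_16_3 (nat_lit 4) (nat_lit 166) (nat_lit 167) = true := by decide +kernel
def p12_16_3_167 : pfC (piC [(nat_lit 35755509), (nat_lit 23968959), (nat_lit 17897616), (nat_lit 12073119)] (nat_lit 6014801)) p12_16_3 (nat_lit 4) (nat_lit 167) (nat_lit 168) = true := by decide +kernel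
def p12_16_3_168 : pfC (piC [(nat_lit 35755509), (nat_lit 23968959), (nat_lit 17897616), (nat_lit 12073119)] (nat_lit 6014801)) p12_16_3 (nat_lit 4) (nat_lit 168) (nat_lit 169) = true := by decide +kernel
def p12_16_3_169 : pfC (piC [(nat_lit 35755509), (nat_lit 23968959), (nat_lit 17897616), (nat_lit 12073119)] (nat_lit 6014801)) p12_16_3 (nat_lit 4) (nat_lit 169) (nat_lit 170) = true := by decide +kernel
def p12_16_3_170 : pfC (piC [(nat_lit 35755509), (nat_lit 23968959), (nat_lit 17897616), (nat_lit 12073119)] (nat_lit 6014801)) p12_16_3 (nat_lit 4) (nat_lit 170) (nat_lit 171) = true := by decide +kernel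
def p12_16_3_171 : pfC (piC [(nat_lit 35755509), (nat_lit 23968959), (nat_lit 17897616), (nat_lit 12073119)] (nat_lit 6014801)) p12_16_3 (nat_lit 4) (nat_lit 171) (nat_lit 172) = true := by decide +kernel
def p12_16_3_172 : pfC (piC [(nat_lit 35755509), (nat_lit 23968959), (nat_lit 17897616), (nat_lit 12073119)] (nat_lit 6014801)) p12_16_3 (nat_lit 4) (nat_lit 172) (nat_lit 173) = true := by decide +kernel
def p12_16_3_173 : pfC (piC [(nat_lit 35755509), (nat_lit 23968959), (nat_lit 17897616), (nat_lit 12073119)] (nat_lit 6014801)) p12_16_3 (nat_lit 4) (nat_lit 173) (nat_lit 174) = true := by decide +kernel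
def p12_16_3_174 : pfC (piC [(nat_lit 35755509), (nat_lit 23968959), (nat_lit 17897616), (nat_lit 12073119)] (nat_lit 6014801)) p12_16_3 (nat_lit 4) (nat_lit 174) (nat_lit 175) = true := by decide +kernel
def p12_16_3_175 : pfC (piC [(nat_lit 35755509), (nat_lit 23968959), (nat_lit 17897616), (nat_lit 12073119)] (nat_lit 6014801)) p12_16_3 (nat_lit 4) (nat_lit 175) (nat_lit 176) = true := by decide +kernel
def p12_16_3_176 : pfC (piC [(nat_lit 35755509), (nat_lit 23968959), (nat_lit 17897616), (nat_lit 12073119)] (nat_lit 6014801)) p12_16_3 (nat_lit 4) (nat_lit 176) (nat_lit 177) = true := by decide +kernel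
def p12_16_3_177 : pfC (piC [(nat_lit 35755509), (nat_lit 23968959), (nat_lit 17897616), (nat_lit 12073119)] (nat_lit 6014801)) p12_16_3 (nat_lit 4) (nat_lit 177) (nat_lit 178) = true := by decide +kernel
def p12_16_3_178 : pfC (piC [(nat_lit 35755509), (nat_lit 23968959), (nat_lit 17897616), (nat_lit 12073119)] (nat_lit 6014801)) p12_16_3 (nat_lit 4) (nat_lit 178) (nat_lit 179) = true := by decide +kernel
def p12_16_3_179 : pfC (piC [(nat_lit 35755509), (nat_lit 23968959), (nat_lit 17897616), (nat_lit 12073119)] (nat_lit 6014801)) p12_16_3 (nat_lit 4) (nat_lit 179) (nat_lit 180) = true := by decide +kernel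
def p12_16_3_180 : pfC (piC [(nat_lit 35755509), (nat_lit 23968959), (nat_lit 17897616), (nat_lit 12073119)] (nat_lit 6014801)) p12_16_3 (nat_lit 4) (nat_lit 180) (nat_lit 181) = true := by decide +kernel
def p12_16_3_181 : pfC (piC [(nat_lit 35755509), (nat_lit 23968959), (nat_lit 17897616), (nat_lit 12073119)] (nat_lit 6014801)) p12_16_3 (nat_lit 4) (nat_lit 181) (nat_lit 182) = true := by decide +kernel
def p12_16_3_182 : pfC (piC [(nat_lit 35755509), (nat_lit 23968959), (nat_lit 17897616), (nat_lit 12073119)] (nat_lit 6014801)) p12_16_3 (nat_lit 4) (nat_lit 182) (nat_lit 183) = true := by decide +kernel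
def p12_16_3_183 : pfC (piC [(nat_lit 35755509), (nat_lit 23968959), (nat_lit 17897616), (nat_lit 12073119)] (nat_lit 6014801)) p12_16_3 (nat_lit 4) (nat_lit 183) (nat_lit 184) = true := by decide +kernel
def p12_16_3_184 : pfC (piC [(nat_lit 35755509), (nat_lit 23968959), (nat_lit 17897616), (nat_lit 12073119)] (nat_lit 6014801)) p12_16_3 (nat_lit 4) (nat_lit 184) (nat_lit 185) = true := by decide +kernel
def p12_16_3_185 : pfC (piC [(nat_lit 35755509), (nat_lit 23968959), (nat_lit 17897616), (nat_lit 12073119)] (nat_lit 6014801)) p12_16_3 (nat_lit 4) (nat_lit 185) (nat_lit 186) = true := by decide +kernel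
def p12_16_3_186 : pfC (piC [(nat_lit 35755509), (nat_lit 23968959), (nat_lit 17897616), (nat_lit 12073119)] (nat_lit 6014801)) p12_16_3 (nat_lit 4) (nat_lit 186) (nat_lit 187) = true := by decide +kernel
def p12_16_3_187 : pfC (piC [(nat_lit 35755509), (nat_lit 23968959), (nat_lit 17897616), (nat_lit 12073119)] (nat_lit 6014801)) p12_16_3 (nat_lit 4) (nat_lit 187) (nat_lit 188) = true := by decide +kernel
def p12_16_3_188 : pfC (piC [(nat_lit 35755509), (nat_lit 23968959), (nat_lit 17897616), (nat_lit 12073119)] (nat_lit 6014801)) p12_16_3 (nat_lit 4) (nat_lit 188) (nat_lit 189) = true := by decide +kernel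
def p12_16_3_189 : pfC (piC [(nat_lit 35755509), (nat_lit 23968959), (nat_lit 17897616), (nat_lit 12073119)] (nat_lit 6014801)) p12_16_3 (nat_lit 4) (nat_lit 189) (nat_lit 190) = true := by decide +kernel
def p12_16_3_190 : pfC (piC [(nat_lit 35755509), (nat_lit 23968959), (nat_lit 17897616), (nat_lit 12073119)] (nat_lit 6014801)) p12_16_3 (nat_lit 4) (nat_lit 190) (nat_lit 191) = true := by decide +kernel
def p12_16_3_191 : pfC (piC [(nat_lit 35755509), (nat_lit 23968959), (nat_lit 17897616), (nat_lit 12073119)] (nat_lit 6014801)) p12_16_3 (nat_lit 4) (nat_lit 191) (nat_lit 192) = true := by decide +kernel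
def p12_16_3_192 : pfC (piC [(nat_lit 35755509), (nat_lit 23968959), (nat_lit 17897616), (nat_lit 12073119)] (nat_lit 6014801)) p12_16_3 (nat_lit 4) (nat_lit 192) (nat_lit 193) = true := by decide +kernel
def p12_16_3_193 : pfC (piC [(nat_lit 35755509), (nat_lit 23968959), (nat_lit 17897616), (nat_lit 12073119)] (nat_lit 6014801)) p12_16_3 (nat_lit 4) (nat_lit 193) (nat_lit 194) = true := by decide +kernel
def p12_16_3_194 : pfC (piC [(nat_lit 35755509), (nat_lit 23968959), (nat_lit 17897616), (nat_lit 12073119)] (nat_lit 6014801)) p12_16_3 (nat_lit 4) (nat_lit 194) (nat_lit 195) = true := by decide +kernel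
def p12_16_3_195 : pfC (piC [(nat_lit 35755509), (nat_lit 23968959), (nat_lit 17897616), (nat_lit 12073119)] (nat_lit 6014801)) p12_16_3 (nat_lit 4) (nat_lit 195) (nat_lit 196) = true := by decide +kernel
def p12_16_3_196 : pfC (piC [(nat_lit 35755509), (nat_lit 23968959), (nat_lit 17897616), (nat_lit 12073119)] (nat_lit 6014801)) p12_16_3 (nat_lit 4) (nat_lit 196) (nat_lit 197) = true := by decide +kernel
def p12_16_3_197 : pfC (piC [(nat_lit 35755509), (nat_lit 23968959), (nat_lit 17897616), (nat_lit 12073119)] (nat_lit 6014801)) p12_16_3 (nat_lit 4) (nat_lit 197) (nat_lit 198) = true := by decide +kernel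
def p12_16_3_198 : pfC (piC [(nat_lit 35755509), (nat_lit 23968959), (nat_lit 17897616), (nat_lit 12073119)] (nat_lit 6014801)) p12_16_3 (nat_lit 4) (nat_lit 198) (nat_lit 199) = true := by decide +kernel
def p12_16_3_199 : pfC (piC [(nat_lit 35755509), (nat_lit 23968959), (nat_lit 17897616), (nat_lit 12073119)] (nat_lit 6014801)) p12_16_3 (nat_lit 4) (nat_lit 199) (nat_lit 200) = true := by decide +kernel
def p12_16_3_200 : pfC (piC [(nat_lit 35755509), (nat_lit 23968959), (nat_lit 17897616), (nat_lit 12073119)] (nat_lit 6014801)) p12_16_3 (nat_lit 4) (nat_lit 200) (nat_lit 201) = true := by decide +kernel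
def p12_16_3_201 : pfC (piC [(nat_lit 35755509), (nat_lit 23968959), (nat_lit 17897616), (nat_lit 12073119)] (nat_lit 6014801)) p12_16_3 (nat_lit 4) (nat_lit 201) (nat_lit 202) = true := by decide +kernel
def p12_16_3_202 : pfC (piC [(nat_lit 35755509), (nat_lit 23968959), (nat_lit 17897616), (nat_lit 12073119)] (nat_lit 6014801)) p12_16_3 (nat_lit 4) (nat_lit 202) (nat_lit 203) = true := by decide +kernel
def p12_16_3_203 : pfC (piC [(nat_lit 35755509), (nat_lit 23968959), (nat_lit 17897616), (nat_lit 12073119)] (nat_lit 6014801)) p12_16_3 (nat_lit 4) (nat_lit 203) (nat_lit 204) = true := by decide +kernel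
def p12_16_3_204 : pfC (piC [(nat_lit 35755509), (nat_lit 23968959), (nat_lit 17897616), (nat_lit 12073119)] (nat_lit 6014801)) p12_16_3 (nat_lit 4) (nat_lit 204) (nat_lit 205) = true := by decide +kernel
def p12_16_3_205 : pfC (piC [(nat_lit 35755509), (nat_lit 23968959), (nat_lit 17897616), (nat_lit 12073119)] (nat_lit 6014801)) p12_16_3 (nat_lit 4) (nat_lit 205) (nat_lit 206) = true := by decide +kernel
def p12_16_3_206 : pfC (piC [(nat_lit 35755509), (nat_lit 23968959), (nat_lit 17897616), (nat_lit 12073119)] (nat_lit 6014801)) p12_16_3 (nat_lit 4) (nat_lit 206) (nat_lit 207) = true := by decide +kernel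
def p12_16_3_207 : pfC (piC [(nat_lit 35755509), (nat_lit 23968959), (nat_lit 17897616), (nat_lit 12073119)] (nat_lit 6014801)) p12_16_3 (nat_lit 4) (nat_lit 207) (nat_lit 208) = true := by decide +kernel
def p12_16_3_208 : pfC (piC [(nat_lit 35755509), (nat_lit 23968959), (nat_lit 17897616), (nat_lit 12073119)] (nat_lit 6014801)) p12_16_3 (nat_lit 4) (nat_lit 208) (nat_lit 209) = true := by decide +kernel
def p12_16_3_209 : pfC (piC [(nat_lit 35755509), (nat_lit 23968959), (nat_lit 17897616), (nat_lit 12073119)] (nat_lit 6014801)) p12_16_3 (nat_lit 4) (nat_lit 209) (nat_lit 210) = true := by decide +kernel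
def p12_16_3_210 : pfC (piC [(nat_lit 35755509), (nat_lit 23968959), (nat_lit 17897616), (nat_lit 12073119)] (nat_lit 6014801)) p12_16_3 (nat_lit 4) (nat_lit 210) (nat_lit 211) = true := by decide +kernel
def p12_16_3_211 : pfC (piC [(nat_lit 35755509), (nat_lit 23968959), (nat_lit 17897616), (nat_lit 12073119)] (nat_lit 6014801)) p12_16_3 (nat_lit 4) (nat_lit 211) (nat_lit 212) = true := by decide +kernel
def p12_16_3_212 : pfC (piC [(nat_lit 35755509), (nat_lit 23968959), (nat_lit 17897616), (nat_lit 12073119)] (nat_lit 6014801)) p12_16_3 (nat_lit 4) (nat_lit 212) (nat_lit 213) = true := by decide +kernel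
def p12_16_3_213 : pfC (piC [(nat_lit 35755509), (nat_lit 23968959), (nat_lit 17897616), (nat_lit 12073119)] (nat_lit 6014801)) p12_16_3 (nat_lit 4) (nat_lit 213) (nat_lit 214) = true := by decide +kernel
def p12_16_3_214 : pfC (piC [(nat_lit 35755509), (nat_lit 23968959), (nat_lit 17897616), (nat_lit 12073119)] (nat_lit 6014801)) p12_16_3 (nat_lit 4) (nat_lit 214) (nat_lit 215) = true := by decide +kernel
def p12_16_3_215 : pfC (piC [(nat_lit 35755509), (nat_lit 23968959), (nat_lit 17897616), (nat_lit 12073119)] (nat_lit 6014801)) p12_16_3 (nat_lit 4) (nat_lit 215) (nat_lit 216) = true := by decide +kernel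
def p12_16_3_216 : pfC (piC [(nat_lit 35755509), (nat_lit 23968959), (nat_lit 17897616), (nat_lit 12073119)] (nat_lit 6014801)) p12_16_3 (nat_lit 4) (nat_lit 216) (nat_lit 217) = true := by decide +kernel
def p12_16_3_217 : pfC (piC [(nat_lit 35755509), (nat_lit 23968959), (nat_lit 17897616), (nat_lit 12073119)] (nat_lit 6014801)) p12_16_3 (nat_lit 4) (nat_lit 217) (nat_lit 218) = true := by decide +kernel
def p12_16_3_218 : pfC (piC [(nat_lit 35755509), (nat_lit 23968959), (nat_lit 17897616), (nat_lit 12073119)] (nat_lit 6014801)) p12_16_3 (nat_lit 4) (nat_lit 218) (nat_lit 219) = true := by decide +kernel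
def p12_16_3_219 : pfC (piC [(nat_lit 35755509), (nat_lit 23968959), (nat_lit 17897616), (nat_lit 12073119)] (nat_lit 6014801)) p12_16_3 (nat_lit 4) (nat_lit 219) (nat_lit 220) = true := by decide +kernel
def p12_16_3_220 : pfC (piC [(nat_lit 35755509), (nat_lit 23968959), (nat_lit 17897616), (nat_lit 12073119)] (nat_lit 6014801)) p12_16_3 (nat_lit 4) (nat_lit 220) (nat_lit 221) = true := by decide +kernel
def p12_16_3_221 : pfC (piC [(nat_lit 35755509), (nat_lit 23968959), (nat_lit 17897616), (nat_lit 12073119)] (nat_lit 6014801)) p12_16_3 (nat_lit 4) (nat_lit 221) (nat_lit 222) = true := by decide +kernel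
def p12_16_3_222 : pfC (piC [(nat_lit 35755509), (nat_lit 23968959), (nat_lit 17897616), (nat_lit 12073119)] (nat_lit 6014801)) p12_16_3 (nat_lit 4) (nat_lit 222) (nat_lit 223) = true := by decide +kernel
def p12_16_3_223 : pfC (piC [(nat_lit 35755509), (nat_lit 23968959), (nat_lit 17897616), (nat_lit 12073119)] (nat_lit 6014801)) p12_16_3 (nat_lit 4) (nat_lit 223) (nat_lit 224) = true := by decide +kernel
def p12_16_3_224 : pfC (piC [(nat_lit 35755509), (nat_lit 23968959), (nat_lit 17897616), (nat_lit 12073119)] (nat_lit 6014801)) p12_16_3 (nat_lit 4) (nat_lit 224) (nat_lit 225) = true := by decide +kernel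
def p12_16_3_225 : pfC (piC [(nat_lit 35755509), (nat_lit 23968959), (nat_lit 17897616), (nat_lit 12073119)] (nat_lit 6014801)) p12_16_3 (nat_lit 4) (nat_lit 225) (nat_lit 226) = true := by decide +kernel
def p12_16_3_226 : pfC (piC [(nat_lit 35755509), (nat_lit 23968959), (nat_lit 17897616), (nat_lit 12073119)] (nat_lit 6014801)) p12_16_3 (nat_lit 4) (nat_lit 226) (nat_lit 227) = true := by decide +kernel
def p12_16_3_227 : pfC (piC [(nat_lit 35755509), (nat_lit 23968959), (nat_lit 17897616), (nat_lit 12073119)] (nat_lit 6014801)) p12_16_3 (nat_lit 4) (nat_lit 227) (nat_lit 228) = true := by decide +kernel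
def p12_16_3_228 : pfC (piC [(nat_lit 35755509), (nat_lit 23968959), (nat_lit 17897616), (nat_lit 12073119)] (nat_lit 6014801)) p12_16_3 (nat_lit 4) (nat_lit 228) (nat_lit 229) = true := by decide +kernel
def p12_16_3_229 : pfC (piC [(nat_lit 35755509), (nat_lit 23968959), (nat_lit 17897616), (nat_lit 12073119)] (nat_lit 6014801)) p12_16_3 (nat_lit 4) (nat_lit 229) (nat_lit 230) = true := by decide +kernel
def p12_16_3_230 : pfC (piC [(nat_lit 35755509), (nat_lit 23968959), (nat_lit 17897616), (nat_lit 12073119)] (nat_lit 6014801)) p12_16_3 (nat_lit 4) (nat_lit 230) (nat_lit 231) = true := by decide +kernel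
def p12_16_3_231 : pfC (piC [(nat_lit 35755509), (nat_lit 23968959), (nat_lit 17897616), (nat_lit 12073119)] (nat_lit 6014801)) p12_16_3 (nat_lit 4) (nat_lit 231) (nat_lit 232) = true := by decide +kernel
def p12_16_3_232 : pfC (piC [(nat_lit 35755509), (nat_lit 23968959), (nat_lit 17897616), (nat_lit 12073119)] (nat_lit 6014801)) p12_16_3 (nat_lit 4) (nat_lit 232) (nat_lit 233) = true := by decide +kernel
def p12_16_3_233 : pfC (piC [(nat_lit 35755509), (nat_lit 23968959), (nat_lit 17897616), (nat_lit 12073119)] (nat_lit 6014801)) p12_16_3 (nat_lit 4) (nat_lit 233) (nat_lit 234) = true := by decide +kernel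
def p12_16_3_234 : pfC (piC [(nat_lit 35755509), (nat_lit 23968959), (nat_lit 17897616), (nat_lit 12073119)] (nat_lit 6014801)) p12_16_3 (nat_lit 4) (nat_lit 234) (nat_lit 235) = true := by decide +kernel
def p12_16_3_235 : pfC (piC [(nat_lit 35755509), (nat_lit 23968959), (nat_lit 17897616), (nat_lit 12073119)] (nat_lit 6014801)) p12_16_3 (nat_lit 4) (nat_lit 235) (nat_lit 236) = true := by decide +kernel
def p12_16_3_236 : pfC (piC [(nat_lit 35755509), (nat_lit 23968959), (nat_lit 17897616), (nat_lit 12073119)] (nat_lit 6014801)) p12_16_3 (nat_lit 4) (nat_lit 236) (nat_lit 237) = true := by decide +kernel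
def p12_16_3_237 : pfC (piC [(nat_lit 35755509), (nat_lit 23968959), (nat_lit 17897616), (nat_lit 12073119)] (nat_lit 6014801)) p12_16_3 (nat_lit 4) (nat_lit 237) (nat_lit 238) = true := by decide +kernel
def p12_16_3_238 : pfC (piC [(nat_lit 35755509), (nat_lit 23968959), (nat_lit 17897616), (nat_lit 12073119)] (nat_lit 6014801)) p12_16_3 (nat_lit 4) (nat_lit 238) (nat_lit 239) = true := by decide +kernel
def p12_16_3_239 : pfC (piC [(nat_lit 35755509), (nat_lit 23968959), (nat_lit 17897616), (nat_lit 12073119)] (nat_lit 6014801)) p12_16_3 (nat_lit 4) (nat_lit 239) (nat_lit 240) = true := by decide +kernel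
def p12_16_3_240 : pfC (piC [(nat_lit 35755509), (nat_lit 23968959), (nat_lit 17897616), (nat_lit 12073119)] (nat_lit 6014801)) p12_16_3 (nat_lit 4) (nat_lit 240) (nat_lit 241) = true := by decide +kernel
def p12_16_3_241 : pfC (piC [(nat_lit 35755509), (nat_lit 23968959), (nat_lit 17897616), (nat_lit 12073119)] (nat_lit 6014801)) p12_16_3 (nat_lit 4) (nat_lit 241) (nat_lit 242) = true := by decide +kernel
def p12_16_3_242 : pfC (piC [(nat_lit 35755509), (nat_lit 23968959), (nat_lit 17897616), (nat_lit 12073119)] (nat_lit 6014801)) p12_16_3 (nat_lit 4) (nat_lit 242) (nat_lit 243) = true := by decide +kernel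
theorem p12_16_3_T : PfS (PiF n12_16.reverse (nat_lit 6014801)) p12_16_3 (nat_lit 4) [] 0 :=
  pftab_of (los := [(nat_lit 35755509), (nat_lit 23968959), (nat_lit 17897616), (nat_lit 12073119)]) (by decide +kernel) (hi := (nat_lit 243)) (PfP.trans (PfP.trans (PfP.trans (PfP.trans (PfP.trans (PfP.trans (PfP.trans (PfP.trans (PfP.trans (PfP.trans (PfP.trans (PfP.trans (PfP.trans (PfP.trans (PfP.trans (PfP.trans (PfP.trans (PfP.trans (PfP.trans (PfP.trans (PfP.trans (PfP.trans (PfP.trans (PfP.trans (PfP.trans (PfP.trans (PfP.trans (PfP.trans (PfP.trans (PfP.trans (PfP.trans (PfP.trans (PfP.trans (PfP.trans (PfP.trans (PfP.trans (PfP.trans (PfP.trans (PfP.trans (PfP.trans (PfP.trans (PfP.trans (PfP.trans (PfP.trans (PfP.trans (PfP.trans (PfP.trans (PfP.trans (PfP.trans (PfP.trans (PfP.trans (PfP.trans (PfP.trans (PfP.trans (PfP.trans (PfP.trans (PfP.trans (PfP.trans (PfP.trans (PfP.trans (PfP.trans (PfP.trans (PfP.trans (PfP.trans (PfP.trans (PfP.trans (PfP.trans (PfP.trans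 (PfP.trans (PfP.trans (PfP.trans (PfP.trans (PfP.trans (PfP.trans (PfP.trans (PfP.trans (PfP.trans (PfP.trans (PfP.trans (PfP.trans (PfP.trans (PfP.trans (PfP.trans (PfP.trans (PfP.trans (PfP.trans (PfP.trans (PfP.trans (PfP.trans (PfP.trans (PfP.trans (PfP.trans (PfP.trans (PfP.trans (PfP.trans (PfP.trans (PfP.trans (PfP.trans (PfP.trans (PfP.trans (PfP.trans (PfP.trans (PfP.trans (PfP.trans (PfP.trans (PfP.trans (PfP.trans (PfP.trans (PfP.trans
 (PfP.trans (PfP.trans (PfP.trans (PfP.trans (PfP.trans (PfP.trans (PfP.trans (PfP.trans (PfP.trans (PfP.trans (PfP.trans (PfP.trans (PfP.trans (PfP.trans (PfP.trans (PfP.trans (PfP.trans (PfP.trans (PfP.trans (PfP.trans (PfP.trans (PfP.trans (PfP.trans (PfP.trans (PfP.trans (PfP.trans (PfP.trans (PfP.trans (PfP.trans (PfP.trans (PfP.trans (PfP.trans (PfP.trans (PfP.trans (PfP.trans (PfP.trans (PfP.trans (PfP.trans (PfP.trans (PfP.trans (PfP.trans (PfP.trans (PfP.trans (PfP.trans (PfP.trans (PfP.trans (PfP.trans (PfP.trans (PfP.trans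 (PfP.trans (PfP.trans (PfP.trans (PfP.trans (PfP.trans (PfP.trans (PfP.trans (PfP.trans (PfP.trans (PfP.trans (PfP.trans (PfP.trans (PfP.trans (PfP.trans (PfP.trans (PfP.trans (PfP.trans (PfP.trans (PfP.trans (PfP.trans (PfP.trans (PfP.trans (PfP.trans (PfP.trans (PfP.trans (PfP.trans (PfP.trans (PfP.trans (PfP.trans (PfP.trans (PfP.trans (PfP.trans (PfP.trans (PfP.trans (PfP.trans (PfP.trans (PfP.trans (PfP.trans (PfP.trans (PfP.trans (PfP.trans (PfP.trans (PfP.trans (PfP.trans (PfP.trans (PfP.trans (PfP.trans (PfP.trans (PfP.trans (PfP.trans (PfP.trans (PfP.trans (PfP.trans (PfP.trans (PfP.trans (PfP.trans (PfP.trans (PfP.trans (PfP.trans (PfP.trans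
 (PfP.trans (PfP.trans (PfP.trans (PfP.trans (PfP.trans (PfP.trans (PfP.trans (PfP.trans (PfP.trans (PfP.trans (PfP.trans (PfP.trans (PfP.trans (PfP.trans (PfP.trans (PfP.trans (PfP.trans (PfP.trans (PfP.trans (PfP.trans (PfP.trans (PfP.trans (PfP.trans (PfP.trans (pfC_sound p12_16_3_0) (pfC_sound p12_16_3_1)) (pfC_sound p12_16_3_2)) (pfC_sound p12_16_3_3)) (pfC_sound p12_16_3_4)) (pfC_sound p12_16_3_5)) (pfC_sound p12_16_3_6)) (pfC_sound p12_16_3_7)) (pfC_sound p12_16_3_8)) (pfC_sound p12_16_3_9)) (pfC_sound p12_16_3_10)) (pfC_sound p12_16_3_11)) (pfC_sound p12_16_3_12)) (pfC_sound p12_16_3_13)) (pfC_sound p12_16_3_14)) (pfC_sound p12_16_3_15)) (pfC_sound p12_16_3_16)) (pfC_sound p12_16_3_17)) (pfC_sound p12_16_3_18)) (pfC_sound p12_16_3_19)) (pfC_sound p12_16_3_20)) (pfC_sound p12_16_3_21)) (pfC_sound p12_16_3_22)) (pfC_sound p12_16_3_23)) (pfC_sound p12_16_3_24)) (pfC_sound p12_16_3_25)) (pfC_sound p12_16_3_26)) (pfC_sound p12_16_3_27)) (pfC_sound p12_16_3_28)) (pfC_sound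 p12_16_3_29)) (pfC_sound p12_16_3_30)) (pfC_sound p12_16_3_31)) (pfC_sound p12_16_3_32)) (pfC_sound p12_16_3_33)) (pfC_sound p12_16_3_34)) (pfC_sound p12_16_3_35)) (pfC_sound p12_16_3_36)) (pfC_sound
 p12_16_3_37)) (pfC_sound p12_16_3_38)) (pfC_sound p12_16_3_39)) (pfC_sound p12_16_3_40)) (pfC_sound p12_16_3_41)) (pfC_sound p12_16_3_42)) (pfC_sound p12_16_3_43)) (pfC_sound p12_16_3_44)) (pfC_sound p12_16_3_45)) (pfC_sound p12_16_3_46)) (pfC_sound p12_16_3_47)) (pfC_sound p12_16_3_48)) (pfC_sound p12_16_3_49)) (pfC_sound p12_16_3_50)) (pfC_sound p12_16_3_51)) (pfC_sound p12_16_3_52)) (pfC_sound p12_16_3_53)) (pfC_sound p12_16_3_54)) (pfC_sound p12_16_3_55)) (pfC_sound p12_16_3_56)) (pfC_sound p12_16_3_57)) (pfC_sound p12_16_3_58)) (pfC_sound p12_16_3_59)) (pfC_sound p12_16_3_60)) (pfC_sound p12_16_3_61)) (pfC_sound p12_16_3_62)) (pfC_sound p12_16_3_63)) (pfC_sound p12_16_3_64)) (pfC_sound p12_16_3_65)) (pfC_sound p12_16_3_66)) (pfC_sound p12_16_3_67)) (pfC_sound p12_16_3_68))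 (pfC_sound p12_16_3_69)) (pfC_sound p12_16_3_70)) (pfC_sound p12_16_3_71)) (pfC_sound p12_16_3_72)) (pfC_sound p12_16_3_73)) (pfC_sound p12_16_3_74)) (pfC_sound p12_16_3_75)) (pfC_sound p12_16_3_76)) (pfC_sound p12_16_3_77)) (pfC_sound p12_16_3_78)) (pfC_sound p12_16_3_79)) (pfC_sound p12_16_3_80)) (pfC_sound p12_16_3_81)) (pfC_sound p12_16_3_82)) (pfC_sound p12_16_3_83)) (pfC_sound p12_16_3_84)) (pfC_sound
 p12_16_3_85)) (pfC_sound p12_16_3_86)) (pfC_sound p12_16_3_87)) (pfC_sound p12_16_3_88)) (pfC_sound p12_16_3_89)) (pfC_sound p12_16_3_90)) (pfC_sound p12_16_3_91)) (pfC_sound p12_16_3_92)) (pfC_sound p12_16_3_93)) (pfC_sound p12_16_3_94)) (pfC_sound p12_16_3_95)) (pfC_sound p12_16_3_96)) (pfC_sound p12_16_3_97)) (pfC_sound p12_16_3_98)) (pfC_sound p12_16_3_99)) (pfC_sound p12_16_3_100)) (pfC_sound p12_16_3_101)) (pfC_sound p12_16_3_102)) (pfC_sound p12_16_3_103)) (pfC_sound p12_16_3_104)) (pfC_sound p12_16_3_105)) (pfC_sound p12_16_3_106)) (pfC_sound p12_16_3_107))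 (pfC_sound p12_16_3_108)) (pfC_sound p12_16_3_109)) (pfC_sound p12_16_3_110)) (pfC_sound p12_16_3_111)) (pfC_sound p12_16_3_112)) (pfC_sound p12_16_3_113)) (pfC_sound p12_16_3_114)) (pfC_sound p12_16_3_115)) (pfC_sound p12_16_3_116)) (pfC_sound p12_16_3_117)) (pfC_sound p12_16_3_118)) (pfC_sound p12_16_3_119)) (pfC_sound p12_16_3_120)) (pfC_sound p12_16_3_121)) (pfC_sound p12_16_3_122)) (pfC_sound p12_16_3_123)) (pfC_sound p12_16_3_124)) (pfC_sound p12_16_3_125)) (pfC_sound p12_16_3_126)) (pfC_sound p12_16_3_127)) (pfC_sound p12_16_3_128)) (pfC_sound p12_16_3_129)) (pfC_sound p12_16_3_130)) (pfC_sound p12_16_3_131))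
 (pfC_sound p12_16_3_132)) (pfC_sound p12_16_3_133)) (pfC_sound p12_16_3_134)) (pfC_sound p12_16_3_135)) (pfC_sound p12_16_3_136)) (pfC_sound p12_16_3_137)) (pfC_sound p12_16_3_138)) (pfC_sound p12_16_3_139)) (pfC_sound p12_16_3_140)) (pfC_sound p12_16_3_141)) (pfC_sound p12_16_3_142)) (pfC_sound p12_16_3_143)) (pfC_sound p12_16_3_144)) (pfC_sound p12_16_3_145)) (pfC_sound p12_16_3_146)) (pfC_sound p12_16_3_147)) (pfC_sound p12_16_3_148)) (pfC_sound p12_16_3_149)) (pfC_sound p12_16_3_150)) (pfC_sound p12_16_3_151)) (pfC_sound p12_16_3_152)) (pfC_sound p12_16_3_153)) (pfC_sound p12_16_3_154)) (pfC_sound p12_16_3_155)) (pfC_sound p12_16_3_156)) (pfC_sound p12_16_3_157)) (pfC_sound p12_16_3_158)) (pfC_sound p12_16_3_159)) (pfC_sound p12_16_3_160)) (pfC_sound p12_16_3_161)) (pfC_sound p12_16_3_162)) (pfC_sound p12_16_3_163)) (pfC_sound p12_16_3_164)) (pfC_sound p12_16_3_165)) (pfC_sound p12_16_3_166)) (pfC_sound p12_16_3_167)) (pfC_sound p12_16_3_168)) (pfC_sound p12_16_3_169))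 (pfC_sound p12_16_3_170)) (pfC_sound p12_16_3_171)) (pfC_sound p12_16_3_172)) (pfC_sound p12_16_3_173)) (pfC_sound p12_16_3_174)) (pfC_sound p12_16_3_175)) (pfC_sound p12_16_3_176)) (pfC_sound p12_16_3_177))
 (pfC_sound p12_16_3_178)) (pfC_sound p12_16_3_179)) (pfC_sound p12_16_3_180)) (pfC_sound p12_16_3_181)) (pfC_sound p12_16_3_182)) (pfC_sound p12_16_3_183)) (pfC_sound p12_16_3_184)) (pfC_sound p12_16_3_185)) (pfC_sound p12_16_3_186)) (pfC_sound p12_16_3_187)) (pfC_sound p12_16_3_188)) (pfC_sound p12_16_3_189)) (pfC_sound p12_16_3_190)) (pfC_sound p12_16_3_191)) (pfC_sound p12_16_3_192)) (pfC_sound p12_16_3_193)) (pfC_sound p12_16_3_194)) (pfC_sound p12_16_3_195)) (pfC_sound p12_16_3_196)) (pfC_sound p12_16_3_197)) (pfC_sound p12_16_3_198)) (pfC_sound p12_16_3_199)) (pfC_sound p12_16_3_200)) (pfC_sound p12_16_3_201)) (pfC_sound p12_16_3_202)) (pfC_sound p12_16_3_203)) (pfC_sound p12_16_3_204)) (pfC_sound p12_16_3_205)) (pfC_sound p12_16_3_206)) (pfC_sound p12_16_3_207))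 (pfC_sound p12_16_3_208)) (pfC_sound p12_16_3_209)) (pfC_sound p12_16_3_210)) (pfC_sound p12_16_3_211)) (pfC_sound p12_16_3_212)) (pfC_sound p12_16_3_213)) (pfC_sound p12_16_3_214)) (pfC_sound p12_16_3_215)) (pfC_sound p12_16_3_216)) (pfC_sound p12_16_3_217)) (pfC_sound p12_16_3_218)) (pfC_sound p12_16_3_219)) (pfC_sound p12_16_3_220)) (pfC_sound p12_16_3_221)) (pfC_sound p12_16_3_222)) (pfC_sound p12_16_3_223))
 (pfC_sound p12_16_3_224)) (pfC_sound p12_16_3_225)) (pfC_sound p12_16_3_226)) (pfC_sound p12_16_3_227)) (pfC_sound p12_16_3_228)) (pfC_sound p12_16_3_229)) (pfC_sound p12_16_3_230)) (pfC_sound p12_16_3_231)) (pfC_sound p12_16_3_232)) (pfC_sound p12_16_3_233)) (pfC_sound p12_16_3_234)) (pfC_sound p12_16_3_235)) (pfC_sound p12_16_3_236)) (pfC_sound p12_16_3_237)) (pfC_sound p12_16_3_238)) (pfC_sound p12_16_3_239)) (pfC_sound p12_16_3_240)) (pfC_sound p12_16_3_241)) (pfC_sound p12_16_3_242)) (by decide +kernel)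

def z12_16_3 : zOK yB12_16 (nat_lit 3) (nat_lit 750) (nat_lit 792) (nat_lit 6014801) (nat_lit 6014801) = true := by decide +kernel
def g12_16_3 : gOK yB12_16.x P12_16 (nat_lit 1404) (q12_16 :: r12_16) (nat_lit 3) (nat_lit 750) (nat_lit 4) (nat_lit 792) (nat_lit 12712500) (nat_lit 12712500) (nat_lit 12712500) (nat_lit 12712500) [(nat_lit 800)] = true := by decide +kernel
def v12_16_3 : ivC P12_16 s12_16 w12_16 n12_16 (nat_lit 4) (nat_lit 4590) (nat_lit 3) (nat_lit 750) f168_1_750 f176_1_750 (nat_lit 4) (nat_lit 792) f168_1_792 f176_1_792 (nat_lit 6014801) (nat_lit 6014801) p12_16_3 = true := by decide +kernel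
end CB
end Pool.Agent.Lib.MP_6947cd_al
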