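import Pool.Agent.Lib.MP_6947cd_al.L.BoxDataB
import Pool.Agent.Lib.MP_6947cd_al.L.TeD1
import Pool.Agent.Lib.MP_6947cd_al.L.TeD2

/-!
Problem MP_6947cd_al (Chollet).  CASE B, rows `j`: boxes (generated).
-/

set_option autoImplicit false
set_option linter.defProp false
set_option maxRecDepth 20000

namespace Pool.Agent.Lib.MP_6947cd_al
namespace CB

open Ent Ent.Pk Fr Fr.WT CA

/-! box `yB15_36` -/

def P15_36 : BQ := ⟨(nat_lit 8), (nat_lit 4), (nat_lit 4), (nat_lit 0), (nat_lit 8), (nat_lit 940), (nat_lit 960), (nat_lit 90), [(nat_lit 180), (nat_lit 330), (nat_lit 650)], (nat_lit 149616000), (nat_lit 16000000), (nat_lit 16000000000)⟩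
def q15_36 : PC := ⟨(nat_lit 1000), [(nat_lit 90000), (nat_lit 180000), (nat_lit 330000), (nat_lit 650000)], (nat_lit 79228162532711081671548469249000000), (nat_lit 15850384000000), (nat_lit 15850384000000), (nat_lit 10000000)⟩
def r15_36 : List PC := [⟨(nat_lit 1325), [(nat_lit 90496), (nat_lit 180501), (nat_lit 330741), (nat_lit 650460)], (nat_lit 79647675653325716005481001278982855), (nat_lit 16320139416000), (nat_lit 16330806176000), (nat_lit 10055112)⟩, ⟨(nat_lit 1260), [(nat_lit 90393), (nat_lit 180405), (nat_lit 330320), (nat_lit 650157)], (nat_lit 79557830917015982822108386196146460), (nat_lit 16236588332800), (nat_lit 16245121740800), (nat_lit 10043667)⟩, ⟨(nat_lit 1991), [(nat_lit 92570), (nat_lit 182112), (nat_lit 333665), (nat_lit 658089)], (nat_lit 80486384981914925751284217265740890), (nat_lit 17168011868480), (nat_lit 17200537281280), (nat_lit 10285556)⟩]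
def s15_36 : List PB := [⟨(nat_lit 26500), (nat_lit 1447936000000), [(nat_lit 180501), (nat_lit 330741), (nat_lit 650460)], (nat_lit 79647675653325716005481001278982855), (nat_lit 1142220046258624), (nat_lit 1142230713018624), (nat_lit 52000)⟩, ⟨(nat_lit 25200), (nat_lit 1446288000000), [(nat_lit 180405), (nat_lit 330320), (nat_lit 650157)], (nat_lit 79557830917015982822108386196146460), (nat_lit 1142136495175424), (nat_lit 1142145028583424), (nat_lit 41600)⟩, ⟨(nat_lit 39820), (nat_lit 1481120000000), [(nat_lit 182112), (nat_lit 333665), (nat_lit 658089)], (nat_lit 80486384981914925751284217265740890), (nat_lit 1143067918711104), (nat_lit 1143100444123904), (nat_lit 158560)⟩]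
def n15_36 : List KN := [⟨(nat_lit 650), (nat_lit 330), (nat_lit 14696761), (nat_lit 8416473)⟩, ⟨(nat_lit 330), (nat_lit 180), (nat_lit 22827826), (nat_lit 14696761)⟩, ⟨(nat_lit 180), (nat_lit 90), (nat_lit 35404596), (nat_lit 22827826)⟩]
def w15_36 : List ℕ := [(nat_lit 52000), (nat_lit 41600), (nat_lit 158560)]
def par15_36 : parC yB15_36 P15_36 s15_36 r15_36 q15_36 n15_36 w15_36 = true := by decide +kernel

def p15_36_0 : PF := (PF.cons (PF.cons (PF.cons (PF.leaf (nat_lit 1123941) (nat_lit 3973544) (nat_lit 63135268) (nat_lit 3973544) [(nat_lit 0), (nat_lit 0), (nat_lit 0)]) (PF.cons (PF.leaf (nat_lit 1356360) (nat_lit 404146) (nat_lit 62644063) (nat_lit 4060603) [(nat_lit 404146), (nat_lit 0), (nat_lit 0)]) (PF.cons (PF.leaf (nat_lit 1633921) (nat_lit 445048) (nat_lit 62064665) (nat_lit 4154050) [(nat_lit 445048), (nat_lit 0), (nat_lit 0)]) (PF.cons (PF.leaf (nat_lit 1949574) (nat_lit 482571) (nat_lit 61411966) (nat_lit 4249132) [(nat_lit 482571), (nat_lit 0), (nat_lit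 0)]) (PF.cons (PF.leaf (nat_lit 2298575) (nat_lit 517255) (nat_lit 60697126) (nat_lit 4342662) [(nat_lit 517255), (nat_lit 0), (nat_lit 0)]) (PF.cons (PF.leaf (nat_lit 2676867) (nat_lit 549396) (nat_lit 59929370) (nat_lit 4432459) [(nat_lit 549396), (nat_lit 0), (nat_lit 0)]) (PF.cons (PF.leaf (nat_lit 3080868) (nat_lit 579171) (nat_lit 59116751) (nat_lit 4517034) [(nat_lit 579171), (nat_lit 0), (nat_lit 0)]) (PF.cons (PF.leaf (nat_lit 3507256) (nat_lit 606700) (nat_lit 58266512) (nat_lit 4595393) [(nat_lit 606700), (nat_lit 0), (nat_lit 0)]) (PF.cons (PF.leaf (nat_lit 3952962) (nat_lit 632080) (nat_lit 57385256) (nat_lit 4666910)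
 [(nat_lit 632080), (nat_lit 0), (nat_lit 0)]) (PF.cons (PF.leaf (nat_lit 4415082) (nat_lit 655393) (nat_lit 56479038) (nat_lit 4731229) [(nat_lit 655393), (nat_lit 0), (nat_lit 0)]) (PF.cons (PF.leaf (nat_lit 4890949) (nat_lit 676719) (nat_lit 55553407) (nat_lit 4788206) [(nat_lit 676719), (nat_lit 0), (nat_lit 0)]) (PF.cons (PF.leaf (nat_lit 5378015) (nat_lit 696139) (nat_lit 54613434) (nat_lit 4837848) [(nat_lit 696139), (nat_lit 0), (nat_lit 0)]) (PF.cons (PF.leaf (nat_lit 5874009) (nat_lit 713733) (nat_lit 53663730) (nat_lit 4880282) [(nat_lit 713733), (nat_lit 0), (nat_lit 0)]) (PF.cons (PF.leaf (nat_lit 6376763) (nat_lit 729586) (nat_lit 52708463) (nat_lit 4915725) [(nat_lit 729586), (nat_lit 0), (nat_lit 0)]) (PF.cons (PF.leaf (nat_lit 6884353) (nat_lit 743784) (nat_lit 51751374) (nat_lit 4944454) [(nat_lit 743784), (nat_lit 0), (nat_lit 0)]) (PF.cons (PF.leaf (nat_lit 7395003) (nat_lit 756414) (nat_lit 50795797) (nat_lit 4966792) [(nat_lit 756414), (nat_lit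 0), (nat_lit 0)]) (PF.cons (PF.leaf (nat_lit 7907117) (nat_lit 767565) (nat_lit 49844678) (nat_lit 4983094) [(nat_lit 767565), (nat_lit 0), (nat_lit 0)]) (PF.cons PF.nil (PF.cons PF.nil (PF.cons PF.nil (PF.cons PF.nil
 (PF.cons PF.nil PF.nil)))))))))))))))))))))) (PF.cons (PF.cons (PF.leaf (nat_lit 1955522) (nat_lit 2035116) (nat_lit 60769659) (nat_lit 4304036) [(nat_lit 0), (nat_lit 2035116), (nat_lit 0)]) (PF.cons (PF.leaf (nat_lit 2266324) (nat_lit 509030) (nat_lit 60115897) (nat_lit 4383474) [(nat_lit 509030), (nat_lit 2100410), (nat_lit 0)]) (PF.cons (PF.leaf (nat_lit 2611786) (nat_lit 541792) (nat_lit 59398571) (nat_lit 4462191) [(nat_lit 541792), (nat_lit 2164464), (nat_lit 0)]) (PF.cons (PF.leaf (nat_lit 2986464) (nat_lit 571908) (nat_lit 58629307) (nat_lit 4537907) [(nat_lit 571908), (nat_lit 2225872), (nat_lit 0)]) (PF.cons (PF.leaf (nat_lit 3386271) (nat_lit 599636) (nat_lit 57817357) (nat_lit 4609121) [(nat_lit 599636), (nat_lit 2283787), (nat_lit 0)]) (PF.cons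 (PF.leaf (nat_lit 3807640) (nat_lit 625145) (nat_lit 56970536) (nat_lit 4674848) [(nat_lit 625145), (nat_lit 2337701), (nat_lit 0)]) (PF.cons (PF.leaf (nat_lit 4247390) (nat_lit 648556) (nat_lit 56095669) (nat_lit 4734473) [(nat_lit 648556), (nat_lit 2387329), (nat_lit 0)]) (PF.cons (PF.leaf (nat_lit 4702630) (nat_lit 669972) (nat_lit 55198818) (nat_lit 4787648) [(nat_lit 669972), (nat_lit 2432535), (nat_lit 0)]) (PF.cons
 (PF.leaf (nat_lit 5170715) (nat_lit 689485) (nat_lit 54285410) (nat_lit 4834227) [(nat_lit 689485), (nat_lit 2473291), (nat_lit 0)]) (PF.cons (PF.leaf (nat_lit 5649213) (nat_lit 707182) (nat_lit 53360312) (nat_lit 4874211) [(nat_lit 707182), (nat_lit 2509647), (nat_lit 0)]) (PF.cons (PF.leaf (nat_lit 6135892) (nat_lit 723150) (nat_lit 52427887) (nat_lit 4907713) [(nat_lit 723150), (nat_lit 2541708), (nat_lit 0)]) (PF.cons (PF.leaf (nat_lit 6628720) (nat_lit 737476) (nat_lit 51492028) (nat_lit 4934927) [(nat_lit 737476), (nat_lit 2569620), (nat_lit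 0)]) (PF.cons (PF.leaf (nat_lit 7125888) (nat_lit 750246) (nat_lit 50556195) (nat_lit 4956107) [(nat_lit 750246), (nat_lit 2593558), (nat_lit 0)]) (PF.cons (PF.leaf (nat_lit 7625677) (nat_lit 761546) (nat_lit 49623440) (nat_lit 4971547) [(nat_lit 761546), (nat_lit 2613717), (nat_lit 0)]) (PF.cons (PF.leaf (nat_lit 8126660) (nat_lit 771463) (nat_lit 48696441) (nat_lit 4981570) [(nat_lit 771463), (nat_lit 2630305), (nat_lit 0)]) (PF.cons (PF.leaf (nat_lit 8627472) (nat_lit 780082) (nat_lit 47777525) (nat_lit 4986514) [(nat_lit 780082), (nat_lit 2643535), (nat_lit 0)]) (PF.cons PF.nil (PF.cons PF.nil (PF.cons PF.nil (PF.cons PF.nil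
 PF.nil)))))))))))))))))))) (PF.cons (PF.cons (PF.leaf (nat_lit 2925384) (nat_lit 2237426) (nat_lit 58070965) (nat_lit 4562995) [(nat_lit 0), (nat_lit 2237426), (nat_lit 0)]) (PF.cons (PF.leaf (nat_lit 3292661) (nat_lit 590737) (nat_lit 57311711) (nat_lit 4625826) [(nat_lit 590737), (nat_lit 2290268), (nat_lit 0)]) (PF.cons (PF.leaf (nat_lit 3685682) (nat_lit 616796) (nat_lit 56509669) (nat_lit 4684929) [(nat_lit 616796), (nat_lit 2340310), (nat_lit 0)]) (PF.cons (PF.leaf (nat_lit 4100083) (nat_lit 640595) (nat_lit 55673875) (nat_lit 4739273) [(nat_lit 640595), (nat_lit 2386938), (nat_lit 0)]) (PF.cons (PF.leaf (nat_lit 4532417) (nat_lit 662308) (nat_lit 54811745) (nat_lit 4788225) [(nat_lit 662308), (nat_lit 2429803), (nat_lit 0)]) (PF.cons (PF.leaf (nat_lit 4979690) (nat_lit 682068) (nat_lit 53929582) (nat_lit 4831427) [(nat_lit 682068), (nat_lit 2468731), (nat_lit 0)]) (PF.cons (PF.leaf (nat_lit 5439209) (nat_lit 699984) (nat_lit 53032851) (nat_lit 4868725) [(nat_lit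 699984), (nat_lit 2503664), (nat_lit 0)]) (PF.cons (PF.leaf (nat_lit 5908573) (nat_lit 716158) (nat_lit 52126338) (nat_lit 4900106) [(nat_lit 716158), (nat_lit 2534630), (nat_lit 0)]) (PF.cons (PF.leaf (nat_lit
 6385605) (nat_lit 730683) (nat_lit 51214251) (nat_lit 4925666) [(nat_lit 730683), (nat_lit 2561712), (nat_lit 0)]) (PF.cons (PF.leaf (nat_lit 6868355) (nat_lit 743651) (nat_lit 50300291) (nat_lit 4945579) [(nat_lit 743651), (nat_lit 2585038), (nat_lit 0)]) (PF.cons (PF.leaf (nat_lit 7355060) (nat_lit 755150) (nat_lit 49387703) (nat_lit 4960073) [(nat_lit 755150), (nat_lit 2604764), (nat_lit 0)]) (PF.cons (PF.leaf (nat_lit 7844144) (nat_lit 765267) (nat_lit 48479321) (nat_lit 4969417) [(nat_lit 765267), (nat_lit 2621064), (nat_lit 0)]) (PF.cons (PF.leaf (nat_lit 8334186) (nat_lit 774087) (nat_lit 47577609) (nat_lit 4973902) [(nat_lit 774087), (nat_lit 2634128), (nat_lit 0)]) (PF.cons (PF.leaf (nat_lit 8823927) (nat_lit 781691) (nat_lit 46684688) (nat_lit 4973836)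 [(nat_lit 781691), (nat_lit 2644149), (nat_lit 0)]) (PF.cons PF.nil (PF.cons PF.nil (PF.cons PF.nil (PF.cons PF.nil PF.nil)))))))))))))))))) (PF.cons (PF.cons (PF.leaf (nat_lit 3980830) (nat_lit 2388146) (nat_lit 55198171) (nat_lit 4746202) [(nat_lit 0), (nat_lit 2388146), (nat_lit 0)]) (PF.cons (PF.leaf (nat_lit 4385868) (nat_lit 653260) (nat_lit 54380802) (nat_lit 4790284) [(nat_lit 653260), (nat_lit 2428154), (nat_lit
 0)]) (PF.cons (PF.leaf (nat_lit 4809220) (nat_lit 673545) (nat_lit 53537341) (nat_lit 4829663) [(nat_lit 673545), (nat_lit 2464905), (nat_lit 0)]) (PF.cons (PF.leaf (nat_lit 5247372) (nat_lit 691882) (nat_lit 52674688) (nat_lit 4863953) [(nat_lit 691882), (nat_lit 2498174), (nat_lit 0)]) (PF.cons (PF.leaf (nat_lit 5697519) (nat_lit 708411) (nat_lit 51798572) (nat_lit 4892979) [(nat_lit 708411), (nat_lit 2527872), (nat_lit 0)]) (PF.cons (PF.leaf (nat_lit 6157202) (nat_lit 723250) (nat_lit 50913848) (nat_lit 4916711) [(nat_lit 723250), (nat_lit 2553999),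 (nat_lit 0)]) (PF.cons (PF.leaf (nat_lit 6624254) (nat_lit 736506) (nat_lit 50024685) (nat_lit 4935226) [(nat_lit 736506), (nat_lit 2576621), (nat_lit 0)]) (PF.cons (PF.leaf (nat_lit 7096762) (nat_lit 748274) (nat_lit 49134678) (nat_lit 4948675) [(nat_lit 748274), (nat_lit 2595844), (nat_lit 0)]) (PF.cons (PF.leaf (nat_lit 7572998) (nat_lit 758649) (nat_lit 48246934) (nat_lit 4957264) [(nat_lit 758649), (nat_lit 2611806), (nat_lit 0)]) (PF.cons (PF.leaf (nat_lit 8051437) (nat_lit 767717) (nat_lit 47364130) (nat_lit 4961232) [(nat_lit 767717), (nat_lit 2624665), (nat_lit 0)]) (PF.cons (PF.leaf (nat_lit 8530727) (nat_lit 775562)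
 (nat_lit 46488568) (nat_lit 4960845) [(nat_lit 775562), (nat_lit 2634590), (nat_lit 0)]) (PF.cons (PF.leaf (nat_lit 9009673) (nat_lit 782267) (nat_lit 45622211) (nat_lit 4956381) [(nat_lit 782267), (nat_lit 2641757), (nat_lit 0)]) (PF.cons PF.nil (PF.cons PF.nil (PF.cons PF.nil (PF.cons PF.nil PF.nil)))))))))))))))) (PF.cons (PF.cons (PF.leaf (nat_lit 5079346) (nat_lit 2493418) (nat_lit 52275033) (nat_lit 4860104) [(nat_lit 0), (nat_lit 2493418), (nat_lit 0)]) (PF.cons (PF.leaf (nat_lit 5506919) (nat_lit 699579) (nat_lit 51436456) (nat_lit 4886449) [(nat_lit 699579), (nat_lit 2521582), (nat_lit 0)]) (PF.cons (PF.leaf (nat_lit 5946808) (nat_lit 714928) (nat_lit 50584547) (nat_lit 4908122) [(nat_lit 714928), (nat_lit 2546571), (nat_lit 0)]) (PF.cons (PF.leaf (nat_lit 6396222) (nat_lit 728617) (nat_lit 49724449) (nat_lit 4925073) [(nat_lit 728617), (nat_lit 2568359), (nat_lit 0)]) (PF.cons (PF.leaf (nat_lit 6852943) (nat_lit 740767) (nat_lit 48860434) (nat_lit 4937356)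 [(nat_lit 740767), (nat_lit 2586988), (nat_lit 0)]) (PF.cons (PF.leaf (nat_lit 7315012) (nat_lit 751487) (nat_lit 47996096) (nat_lit 4945099) [(nat_lit 751487), (nat_lit 2602545), (nat_lit 0)]) (PF.cons (PF.leaf
 (nat_lit 7780728) (nat_lit 760873) (nat_lit 47134484) (nat_lit 4948484) [(nat_lit 760873), (nat_lit 2615150), (nat_lit 0)]) (PF.cons (PF.leaf (nat_lit 8248602) (nat_lit 769017) (nat_lit 46278185) (nat_lit 4947727) [(nat_lit 769017), (nat_lit 2624943), (nat_lit 0)]) (PF.cons (PF.leaf (nat_lit 8717317) (nat_lit 776005) (nat_lit 45429392) (nat_lit 4943067) [(nat_lit 776005), (nat_lit 2632077), (nat_lit 0)]) (PF.cons (PF.leaf (nat_lit 9185704) (nat_lit 781916) (nat_lit 44589958) (nat_lit 4934755) [(nat_lit 781916), (nat_lit 2636712), (nat_lit 0)]) (PF.cons (PF.leaf (nat_lit 9652740) (nat_lit 786828) (nat_lit 43761439) (nat_lit 4923049) [(nat_lit 786828), (nat_lit 2639010), (nat_lit 0)]) (PF.cons PF.nil (PF.cons PF.nil (PF.cons PF.nil PF.nil)))))))))))))) (PF.cons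 (PF.cons (PF.leaf (nat_lit 6188510) (nat_lit 2560345) (nat_lit 49391933) (nat_lit 4915154) [(nat_lit 0), (nat_lit 2560345), (nat_lit 0)]) (PF.cons (PF.leaf (nat_lit 6626810) (nat_lit 732389) (nat_lit 48559082) (nat_lit 4926116) [(nat_lit 732389), (nat_lit 2578245), (nat_lit 0)]) (PF.cons (PF.leaf (nat_lit 7072757) (nat_lit 743596) (nat_lit 47722190) (nat_lit 4932905) [(nat_lit 743596), (nat_lit 2593304), (nat_lit 0)])
 (PF.cons (PF.leaf (nat_lit 7524160) (nat_lit 753410) (nat_lit 46884990) (nat_lit 4935630) [(nat_lit 753410), (nat_lit 2605591), (nat_lit 0)]) (PF.cons (PF.leaf (nat_lit 7979296) (nat_lit 761939) (nat_lit 46050565) (nat_lit 4934448) [(nat_lit 761939), (nat_lit 2615208), (nat_lit 0)]) (PF.cons (PF.leaf (nat_lit 8436644) (nat_lit 769278) (nat_lit 45221484) (nat_lit 4929553) [(nat_lit 769278), (nat_lit 2622276), (nat_lit 0)]) (PF.cons (PF.leaf (nat_lit 8894912) (nat_lit 775514) (nat_lit 44399893) (nat_lit 4921160) [(nat_lit 775514), (nat_lit 2626934), (nat_lit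 0)]) (PF.cons (PF.leaf (nat_lit 9352944) (nat_lit 780730) (nat_lit 43587578) (nat_lit 4909495) [(nat_lit 780730), (nat_lit 2629325), (nat_lit 0)]) (PF.cons (PF.leaf (nat_lit 9809749) (nat_lit 785000) (nat_lit 42786023) (nat_lit 4894793) [(nat_lit 785000), (nat_lit 2629598), (nat_lit 0)]) (PF.cons PF.nil (PF.cons PF.nil (PF.cons PF.nil PF.nil)))))))))))) (PF.cons (PF.cons (PF.leaf (nat_lit 7285004) (nat_lit 2596008) (nat_lit 46610136) (nat_lit 4922624) [(nat_lit 0), (nat_lit 2596008), (nat_lit 0)]) (PF.cons (PF.leaf (nat_lit 7725291) (nat_lit 754149) (nat_lit 45801392) (nat_lit 4920957) [(nat_lit 754149), (nat_lit 2605385),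
 (nat_lit 0)]) (PF.cons (PF.leaf (nat_lit 8169696) (nat_lit 761945) (nat_lit 44995052) (nat_lit 4915787) [(nat_lit 761945), (nat_lit 2612346), (nat_lit 0)]) (PF.cons (PF.leaf (nat_lit 8616518) (nat_lit 768591) (nat_lit 44193755) (nat_lit 4907286) [(nat_lit 768591), (nat_lit 2616999), (nat_lit 0)]) (PF.cons (PF.leaf (nat_lit 9064428) (nat_lit 774178) (nat_lit 43399660) (nat_lit 4895646) [(nat_lit 774178), (nat_lit 2619465), (nat_lit 0)]) (PF.cons (PF.leaf (nat_lit 9512272) (nat_lit 778789) (nat_lit 42614538) (nat_lit 4881075) [(nat_lit 778789), (nat_lit 2619875), (nat_lit 0)]) (PF.cons (PF.leaf (nat_lit 9959081) (nat_lit 782502) (nat_lit 41839843) (nat_lit 4863783) [(nat_lit 782502), (nat_lit 2618362), (nat_lit 0)]) (PF.cons PF.nil (PF.cons PF.nil (PF.cons PF.nil PF.nil)))))))))) (PF.cons (PF.cons (PF.leaf (nat_lit 8353089) (nat_lit 2606891) (nat_lit 43967514) (nat_lit 4893055) [(nat_lit 0), (nat_lit 2606891), (nat_lit 0)]) (PF.cons (PF.leaf (nat_lit 8789159) (nat_lit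 767037) (nat_lit 43194478) (nat_lit 4881430) [(nat_lit 767037), (nat_lit 2609409), (nat_lit 0)]) (PF.cons (PF.leaf (nat_lit 9226749) (nat_lit 772071) (nat_lit 42428087) (nat_lit 4866986) [(nat_lit 772071), (nat_lit
 2609942), (nat_lit 0)]) (PF.cons (PF.leaf (nat_lit 9664532) (nat_lit 776165) (nat_lit 41670155) (nat_lit 4849911) [(nat_lit 776165), (nat_lit 2608606), (nat_lit 0)]) (PF.cons (PF.leaf (nat_lit 10101511) (nat_lit 779398) (nat_lit 40922146) (nat_lit 4830396) [(nat_lit 779398), (nat_lit 2605525), (nat_lit 0)]) (PF.cons (PF.leaf (nat_lit 10536832) (nat_lit 781841) (nat_lit 40185236) (nat_lit 4808634) [(nat_lit 781841), (nat_lit 2600819), (nat_lit 0)]) (PF.cons PF.nil (PF.cons PF.nil PF.nil)))))))) (PF.cons (PF.cons (PF.leaf (nat_lit 9382890) (nat_lit 2598603) (nat_lit 41484397) (nat_lit 4835584) [(nat_lit 0), (nat_lit 2598603), (nat_lit 0)]) (PF.cons (PF.leaf (nat_lit 9810530) (nat_lit 772918) (nat_lit 40753611) (nat_lit 4816369) [(nat_lit 772918), (nat_lit 2595739),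 (nat_lit 0)]) (PF.cons (PF.leaf (nat_lit 10237819) (nat_lit 775745) (nat_lit 40032078) (nat_lit 4794963) [(nat_lit 775745), (nat_lit 2591285), (nat_lit 0)]) (PF.cons (PF.leaf (nat_lit 10663727) (nat_lit 777813) (nat_lit 39321006) (nat_lit 4771540) [(nat_lit 777813), (nat_lit 2585353), (nat_lit 0)]) (PF.cons PF.nil (PF.cons PF.nil PF.nil)))))) (PF.cons (PF.cons (PF.leaf (nat_lit 10368874) (nat_lit 2575815) (nat_lit
 39168696) (nat_lit 4757772) [(nat_lit 0), (nat_lit 2575815), (nat_lit 0)]) (PF.cons (PF.leaf (nat_lit 10785372) (nat_lit 773347) (nat_lit 38483115) (nat_lit 4732961) [(nat_lit 773347), (nat_lit 2568821), (nat_lit 0)]) (PF.cons PF.nil (PF.cons PF.nil PF.nil)))) (PF.cons (PF.cons (PF.leaf (nat_lit 11308562) (nat_lit 2542312) (nat_lit 37020004) (nat_lit 4665678) [(nat_lit 0), (nat_lit 2542312), (nat_lit 0)]) (PF.cons PF.nil PF.nil)) (PF.cons PF.nil (PF.cons PF.nil (PF.cons PF.nil (PF.cons PF.nil PF.nil))))))))))))))) (PF.cons (PF.cons (PF.cons (PF.leaf (nat_lit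 2966633) (nat_lit 4566604) (nat_lit 56071917) (nat_lit 4566604) [(nat_lit 0), (nat_lit 0), (nat_lit 6470291)]) (PF.cons (PF.leaf (nat_lit 3291244) (nat_lit 563417) (nat_lit 55412946) (nat_lit 4616958) [(nat_lit 563417), (nat_lit 0), (nat_lit 6515490)]) (PF.cons (PF.leaf (nat_lit 3646692) (nat_lit 592315) (nat_lit 54700263) (nat_lit 4665579) [(nat_lit 592315), (nat_lit 0), (nat_lit 6558337)]) (PF.cons (PF.leaf (nat_lit 4027096) (nat_lit 618086) (nat_lit 53946206) (nat_lit 4711028) [(nat_lit 618086), (nat_lit 0), (nat_lit 6597319)]) (PF.cons (PF.leaf (nat_lit 4428186) (nat_lit 641205) (nat_lit 53160126) (nat_lit 4752403)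
 [(nat_lit 641205), (nat_lit 0), (nat_lit 6631460)]) (PF.cons (PF.leaf (nat_lit 4846451) (nat_lit 661993) (nat_lit 52349529) (nat_lit 4789157) [(nat_lit 661993), (nat_lit 0), (nat_lit 6660156)]) (PF.cons (PF.leaf (nat_lit 5278907) (nat_lit 680683) (nat_lit 51520655) (nat_lit 4820985) [(nat_lit 680683), (nat_lit 0), (nat_lit 6683069)]) (PF.cons (PF.leaf (nat_lit 5722936) (nat_lit 697457) (nat_lit 50678800) (nat_lit 4847757) [(nat_lit 697457), (nat_lit 0), (nat_lit 6700053)]) (PF.cons (PF.leaf (nat_lit 6176212) (nat_lit 712464) (nat_lit 49828516) (nat_lit 4869470) [(nat_lit 712464), (nat_lit 0), (nat_lit 6711112)]) (PF.cons (PF.leaf (nat_lit 6636707) (nat_lit 725834) (nat_lit 48973741) (nat_lit 4886209) [(nat_lit 725834), (nat_lit 0), (nat_lit 6716354)]) (PF.cons (PF.leaf (nat_lit 7102535) (nat_lit 737682) (nat_lit 48117886) (nat_lit 4898130) [(nat_lit 737682), (nat_lit 0), (nat_lit 6715969)]) (PF.cons (PF.leaf (nat_lit 7572097) (nat_lit 748115) (nat_lit 47263910) (nat_lit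 4905431) [(nat_lit 748115), (nat_lit 0), (nat_lit 6710200)]) (PF.cons (PF.leaf (nat_lit 8043897) (nat_lit 757230) (nat_lit 46414369) (nat_lit 4908344) [(nat_lit 757230), (nat_lit 0), (nat_lit 6699334)]) (PF.cons
 (PF.leaf (nat_lit 8516634) (nat_lit 765119) (nat_lit 45571463) (nat_lit 4907122) [(nat_lit 765119), (nat_lit 0), (nat_lit 6683679)]) (PF.cons (PF.leaf (nat_lit 8989142) (nat_lit 771867) (nat_lit 44737075) (nat_lit 4902028) [(nat_lit 771867), (nat_lit 0), (nat_lit 6663560)]) (PF.cons (PF.leaf (nat_lit 9460409) (nat_lit 777558) (nat_lit 43912802) (nat_lit 4893332) [(nat_lit 777558), (nat_lit 0), (nat_lit 6639307)]) (PF.cons PF.nil (PF.cons PF.nil PF.nil)))))))))))))))))) (PF.cons (PF.cons (PF.leaf (nat_lit 3934976) (nat_lit 2359984) (nat_lit 53430430) (nat_lit 4717186) [(nat_lit 0), (nat_lit 2359984), (nat_lit 6601211)]) (PF.cons (PF.leaf (nat_lit 4304485) (nat_lit 629268) (nat_lit 52698610) (nat_lit 4753571) [(nat_lit 629268), (nat_lit 2397245), (nat_lit 6630117)])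 (PF.cons (PF.leaf (nat_lit 4695883) (nat_lit 651205) (nat_lit 51933418) (nat_lit 4786490) [(nat_lit 651205), (nat_lit 2431752), (nat_lit 6654740)]) (PF.cons (PF.leaf (nat_lit 5104834) (nat_lit 670765) (nat_lit 51143518) (nat_lit 4815356) [(nat_lit 670765), (nat_lit 2463163), (nat_lit 6674478)]) (PF.cons (PF.leaf (nat_lit 5528056) (nat_lit 688229) (nat_lit 50335724) (nat_lit 4839843) [(nat_lit 688229), (nat_lit 2491323),
 (nat_lit 6689003)]) (PF.cons (PF.leaf (nat_lit 5962770) (nat_lit 703807) (nat_lit 49515598) (nat_lit 4859807) [(nat_lit 703807), (nat_lit 2516189), (nat_lit 6698180)]) (PF.cons (PF.leaf (nat_lit 6406607) (nat_lit 717665) (nat_lit 48687782) (nat_lit 4875228) [(nat_lit 717665), (nat_lit 2537795), (nat_lit 6702011)]) (PF.cons (PF.leaf (nat_lit 6857472) (nat_lit 729944) (nat_lit 47856200) (nat_lit 4886178) [(nat_lit 729944), (nat_lit 2556223), (nat_lit 6700600)]) (PF.cons (PF.leaf (nat_lit 7313550) (nat_lit 740763) (nat_lit 47024197) (nat_lit 4892793) [(nat_lit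 740763), (nat_lit 2571589), (nat_lit 6694125)]) (PF.cons (PF.leaf (nat_lit 7773213) (nat_lit 750232) (nat_lit 46194628) (nat_lit 4895250) [(nat_lit 750232), (nat_lit 2584032), (nat_lit 6682812)]) (PF.cons (PF.leaf (nat_lit 8235030) (nat_lit 758448) (nat_lit 45369933) (nat_lit 4893761) [(nat_lit 758448), (nat_lit 2593704), (nat_lit 6666926)]) (PF.cons (PF.leaf (nat_lit 8697743) (nat_lit 765504) (nat_lit 44552190) (nat_lit 4888554) [(nat_lit 765504), (nat_lit 2600764), (nat_lit 6646751)]) (PF.cons (PF.leaf (nat_lit 9160229) (nat_lit 771485) (nat_lit 43743160) (nat_lit 4879870) [(nat_lit 771485), (nat_lit 2605376), (nat_lit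
 6622585)]) (PF.cons (PF.leaf (nat_lit 9621510) (nat_lit 776468) (nat_lit 42944327) (nat_lit 4867952) [(nat_lit 776468), (nat_lit 2607705), (nat_lit 6594730)]) (PF.cons PF.nil (PF.cons PF.nil PF.nil)))))))))))))))) (PF.cons (PF.cons (PF.leaf (nat_lit 4959676) (nat_lit 2457684) (nat_lit 50716573) (nat_lit 4810709) [(nat_lit 0), (nat_lit 2457684), (nat_lit 6666160)]) (PF.cons (PF.leaf (nat_lit 5357434) (nat_lit 677427) (nat_lit 49952314) (nat_lit 4832532) [(nat_lit 677427), (nat_lit 2484281), (nat_lit 6677974)]) (PF.cons (PF.leaf (nat_lit 5770263) (nat_lit 693902) (nat_lit 49169345) (nat_lit 4850489) [(nat_lit 693902), (nat_lit 2508033), (nat_lit 6685105)]) (PF.cons (PF.leaf (nat_lit 6194881) (nat_lit 708483) (nat_lit 48373824) (nat_lit 4864412) [(nat_lit 708483), (nat_lit 2528853), (nat_lit 6687417)]) (PF.cons (PF.leaf (nat_lit 6628733) (nat_lit 721365) (nat_lit 47570685) (nat_lit 4874265) [(nat_lit 721365), (nat_lit 2546744), (nat_lit 6684910)]) (PF.cons (PF.leaf (nat_lit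 7069669) (nat_lit 732703) (nat_lit 46763981) (nat_lit 4880100) [(nat_lit 732703), (nat_lit 2561765), (nat_lit 6677680)]) (PF.cons (PF.leaf (nat_lit 7515812) (nat_lit 742629) (nat_lit 45957083) (nat_lit 4882036)
 [(nat_lit 742629), (nat_lit 2574012), (nat_lit 6665891)]) (PF.cons (PF.leaf (nat_lit 7965543) (nat_lit 751255) (nat_lit 45152821) (nat_lit 4880233) [(nat_lit 751255), (nat_lit 2583605), (nat_lit 6649755)]) (PF.cons (PF.leaf (nat_lit 8417449) (nat_lit 758685) (nat_lit 44353574) (nat_lit 4874879) [(nat_lit 758685), (nat_lit 2590680), (nat_lit 6629515)]) (PF.cons (PF.leaf (nat_lit 8870278) (nat_lit 765009) (nat_lit 43561347) (nat_lit 4866182) [(nat_lit 765009), (nat_lit 2595380), (nat_lit 6605432)]) (PF.cons (PF.leaf (nat_lit 9322934) (nat_lit 770313) (nat_lit 42777820) (nat_lit 4854362) [(nat_lit 770313), (nat_lit 2597855), (nat_lit 6577782)]) (PF.cons (PF.leaf (nat_lit 9774496) (nat_lit 774675) (nat_lit 42004395) (nat_lit 4839639) [(nat_lit 774675), (nat_lit 2598253),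 (nat_lit 6546840)]) (PF.cons PF.nil (PF.cons PF.nil PF.nil)))))))))))))) (PF.cons (PF.cons (PF.leaf (nat_lit 6007079) (nat_lit 2520185) (nat_lit 48022052) (nat_lit 4853790) [(nat_lit 0), (nat_lit 2520185), (nat_lit 6672414)]) (PF.cons (PF.leaf (nat_lit 6420444) (nat_lit 711591) (nat_lit 47253972) (nat_lit 4862379) [(nat_lit 711591), (nat_lit 2537375), (nat_lit 6668743)]) (PF.cons (PF.leaf (nat_lit 6843691) (nat_lit
 723670) (nat_lit 46477598) (nat_lit 4867325) [(nat_lit 723670), (nat_lit 2551942), (nat_lit 6660722)]) (PF.cons (PF.leaf (nat_lit 7274289) (nat_lit 734217) (nat_lit 45697295) (nat_lit 4868663) [(nat_lit 734217), (nat_lit 2563920), (nat_lit 6648439)]) (PF.cons (PF.leaf (nat_lit 7710285) (nat_lit 743380) (nat_lit 44916589) (nat_lit 4866493) [(nat_lit 743380), (nat_lit 2573386), (nat_lit 6632048)]) (PF.cons (PF.leaf (nat_lit 8150010) (nat_lit 751282) (nat_lit 44138370) (nat_lit 4860957) [(nat_lit 751282), (nat_lit 2580443), (nat_lit 6611744)]) (PF.cons (PF.leaf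 (nat_lit 8592025) (nat_lit 758029) (nat_lit 43365026) (nat_lit 4852225) [(nat_lit 758029), (nat_lit 2585210), (nat_lit 6587753)]) (PF.cons (PF.leaf (nat_lit 9035078) (nat_lit 763717) (nat_lit 42598536) (nat_lit 4840486) [(nat_lit 763717), (nat_lit 2587817), (nat_lit 6560318)]) (PF.cons (PF.leaf (nat_lit 9478089) (nat_lit 768430) (nat_lit 41840542) (nat_lit 4825939) [(nat_lit 768430), (nat_lit 2588398), (nat_lit 6529690)]) (PF.cons (PF.leaf (nat_lit 9920131) (nat_lit 772248) (nat_lit 41092398) (nat_lit 4808786) [(nat_lit 772248), (nat_lit 2587090), (nat_lit 6496123)]) (PF.cons PF.nil (PF.cons PF.nil PF.nil)))))))))))) (PF.cons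
 (PF.cons (PF.leaf (nat_lit 7052801) (nat_lit 2553783) (nat_lit 45408369) (nat_lit 4855066) [(nat_lit 0), (nat_lit 2553783), (nat_lit 6630244)]) (PF.cons (PF.leaf (nat_lit 7472387) (nat_lit 734570) (nat_lit 44655946) (nat_lit 4852473) [(nat_lit 734570), (nat_lit 2563050), (nat_lit 6613619)]) (PF.cons (PF.leaf (nat_lit 7897937) (nat_lit 743100) (nat_lit 43902435) (nat_lit 4846720) [(nat_lit 743100), (nat_lit 2570044), (nat_lit 6593279)]) (PF.cons (PF.leaf (nat_lit 8327510) (nat_lit 750391) (nat_lit 43150899) (nat_lit 4837933) [(nat_lit 750391), (nat_lit 2574849), (nat_lit 6569407)]) (PF.cons (PF.leaf (nat_lit 8759607) (nat_lit 756557) (nat_lit 42403814) (nat_lit 4826266) [(nat_lit 756557), (nat_lit 2577571), (nat_lit 6542216)]) (PF.cons (PF.leaf (nat_lit 9192943) (nat_lit 761698) (nat_lit 41663194) (nat_lit 4811890) [(nat_lit 761698), (nat_lit 2578326), (nat_lit 6511929)]) (PF.cons (PF.leaf (nat_lit 9626451) (nat_lit 765902) (nat_lit 40930683) (nat_lit 4794986) [(nat_lit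 765902), (nat_lit 2577236), (nat_lit 6478781)]) (PF.cons (PF.leaf (nat_lit 10059151) (nat_lit 769248) (nat_lit 40207625) (nat_lit 4775740) [(nat_lit 769248), (nat_lit 2574425), (nat_lit 6443005)]) (PF.cons (PF.leaf
 (nat_lit 10490261) (nat_lit 771808) (nat_lit 39495109) (nat_lit 4754335) [(nat_lit 771808), (nat_lit 2570015), (nat_lit 6404835)]) (PF.cons PF.nil PF.nil)))))))))) (PF.cons (PF.cons (PF.leaf (nat_lit 8079918) (nat_lit 2564279) (nat_lit 42914030) (nat_lit 4823205) [(nat_lit 0), (nat_lit 2564279), (nat_lit 6550181)]) (PF.cons (PF.leaf (nat_lit 8498948) (nat_lit 748650) (nat_lit 42189793) (nat_lit 4811608) [(nat_lit 748650), (nat_lit 2567093), (nat_lit 6523294)]) (PF.cons (PF.leaf (nat_lit 8921034) (nat_lit 754333) (nat_lit 41469280) (nat_lit 4797409) [(nat_lit 754333), (nat_lit 2568010), (nat_lit 6493404)]) (PF.cons (PF.leaf (nat_lit 9344678) (nat_lit 759014) (nat_lit 40754613) (nat_lit 4780765) [(nat_lit 759014), (nat_lit 2567133), (nat_lit 6460723)]) (PF.cons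 (PF.leaf (nat_lit 9768742) (nat_lit 762786) (nat_lit 40047491) (nat_lit 4761841) [(nat_lit 762786), (nat_lit 2564572), (nat_lit 6425469)]) (PF.cons (PF.leaf (nat_lit 10192272) (nat_lit 765730) (nat_lit 39349282) (nat_lit 4740806) [(nat_lit 765730), (nat_lit 2560441), (nat_lit 6387861)]) (PF.cons (PF.leaf (nat_lit 10614428) (nat_lit 767920) (nat_lit 38661085) (nat_lit 4717831) [(nat_lit 767920), (nat_lit 2554852), (nat_lit
 6348113)]) (PF.cons PF.nil PF.nil)))))))) (PF.cons (PF.cons (PF.leaf (nat_lit 9077305) (nat_lit 2556742) (nat_lit 40560588) (nat_lit 4766015) [(nat_lit 0), (nat_lit 2556742), (nat_lit 6441755)]) (PF.cons (PF.leaf (nat_lit 9491035) (nat_lit 755716) (nat_lit 39871953) (nat_lit 4747439) [(nat_lit 755716), (nat_lit 2554434), (nat_lit 6407099)]) (PF.cons (PF.leaf (nat_lit 9905700) (nat_lit 759131) (nat_lit 39190111) (nat_lit 4726799) [(nat_lit 759131), (nat_lit 2550586), (nat_lit 6370117)]) (PF.cons (PF.leaf (nat_lit 10320134) (nat_lit 761740) (nat_lit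 38516501) (nat_lit 4704254) [(nat_lit 761740), (nat_lit 2545303), (nat_lit 6331017)]) (PF.cons (PF.leaf (nat_lit 10733495) (nat_lit 763617) (nat_lit 37852264) (nat_lit 4679959) [(nat_lit 763617), (nat_lit 2538686), (nat_lit 6289998)]) (PF.cons PF.nil PF.nil)))))) (PF.cons (PF.cons (PF.leaf (nat_lit 10038176) (nat_lit 2535436) (nat_lit 38357598) (nat_lit 4690120) [(nat_lit 0), (nat_lit 2535436), (nat_lit 6313036)]) (PF.cons (PF.leaf (nat_lit 10443414) (nat_lit 757315) (nat_lit 37708350) (nat_lit 4666317) [(nat_lit 757315), (nat_lit 2529153), (nat_lit 6272755)]) (PF.cons (PF.leaf (nat_lit 10848065) (nat_lit 758937) (nat_lit 37067720)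
 (nat_lit 4640930) [(nat_lit 758937), (nat_lit 2521648), (nat_lit 6230745)]) (PF.cons (PF.leaf (nat_lit 11251222) (nat_lit 759913) (nat_lit 36436661) (nat_lit 4614103) [(nat_lit 759913), (nat_lit 2513016), (nat_lit 6187190)]) PF.nil)))) (PF.cons (PF.cons (PF.leaf (nat_lit 10958879) (nat_lit 2503852) (nat_lit 36306489) (nat_lit 4600927) [(nat_lit 0), (nat_lit 2503852), (nat_lit 6170573)]) (PF.cons (PF.leaf (nat_lit 11353584) (nat_lit 754696) (nat_lit 35697925) (nat_lit 4573351) [(nat_lit 754696), (nat_lit 2494550), (nat_lit 6126432)]) PF.nil)) (PF.cons PF.nil (PF.cons PF.nil (PF.cons PF.nil (PF.cons PF.nil PF.nil))))))))))))) (PF.cons (PF.cons (PF.cons (PF.leaf (nat_lit 4858625) (nat_lit 4755500) (nat_lit 49169019) (nat_lit 4755500) [(nat_lit 0), (nat_lit 0), (nat_lit 6592146)]) (PF.cons (PF.leaf (nat_lit 5223697) (nat_lit 650493) (nat_lit 48485747) (nat_lit 4773678) [(nat_lit 650493), (nat_lit 0), (nat_lit 6599446)]) (PF.cons (PF.leaf (nat_lit 5607675) (nat_lit 669102)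 (nat_lit 47776057) (nat_lit 4788728) [(nat_lit 669102), (nat_lit 0), (nat_lit 6602910)]) (PF.cons (PF.leaf (nat_lit 6006372) (nat_lit 685328) (nat_lit 47047895) (nat_lit 4800354) [(nat_lit 685328), (nat_lit 0),
 (nat_lit 6602289)]) (PF.cons (PF.leaf (nat_lit 6416687) (nat_lit 699517) (nat_lit 46307333) (nat_lit 4808425) [(nat_lit 699517), (nat_lit 0), (nat_lit 6597492)]) (PF.cons (PF.leaf (nat_lit 6836077) (nat_lit 711924) (nat_lit 45559185) (nat_lit 4812921) [(nat_lit 711924), (nat_lit 0), (nat_lit 6588540)]) (PF.cons (PF.leaf (nat_lit 7262445) (nat_lit 722748) (nat_lit 44807361) (nat_lit 4813903) [(nat_lit 722748), (nat_lit 0), (nat_lit 6575530)]) (PF.cons (PF.leaf (nat_lit 7693957) (nat_lit 732146) (nat_lit 44055080) (nat_lit 4811479) [(nat_lit 732146), (nat_lit 0), (nat_lit 6558613)]) (PF.cons (PF.leaf (nat_lit 8129053) (nat_lit 740253) (nat_lit 43305022) (nat_lit 4805799) [(nat_lit 740253), (nat_lit 0), (nat_lit 6537980)]) (PF.cons (PF.leaf (nat_lit 8566374) (nat_lit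 747185) (nat_lit 42559422) (nat_lit 4797031) [(nat_lit 747185), (nat_lit 0), (nat_lit 6513844)]) (PF.cons (PF.leaf (nat_lit 9004729) (nat_lit 753042) (nat_lit 41820151) (nat_lit 4785362) [(nat_lit 753042), (nat_lit 0), (nat_lit 6486437)]) (PF.cons (PF.leaf (nat_lit 9443110) (nat_lit 757915) (nat_lit 41088768) (nat_lit 4770984) [(nat_lit 757915), (nat_lit 0), (nat_lit 6455997)]) (PF.cons (PF.leaf (nat_lit 9880559)
 (nat_lit 761885) (nat_lit 40366570) (nat_lit 4754094) [(nat_lit 761885), (nat_lit 0), (nat_lit 6422764)]) (PF.cons PF.nil (PF.cons PF.nil (PF.cons PF.nil PF.nil)))))))))))))))) (PF.cons (PF.cons (PF.leaf (nat_lit 5842586) (nat_lit 2476542) (nat_lit 46671403) (nat_lit 4789026) [(nat_lit 0), (nat_lit 2476542), (nat_lit 6585920)]) (PF.cons (PF.leaf (nat_lit 6229325) (nat_lit 687814) (nat_lit 45971256) (nat_lit 4795867) [(nat_lit 687814), (nat_lit 2493576), (nat_lit 6580149)]) (PF.cons (PF.leaf (nat_lit 6628768) (nat_lit 701353) (nat_lit 45257299) (nat_lit 4799523)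 [(nat_lit 701353), (nat_lit 2508144), (nat_lit 6570569)]) (PF.cons (PF.leaf (nat_lit 7037846) (nat_lit 713086) (nat_lit 44534934) (nat_lit 4799962) [(nat_lit 713086), (nat_lit 2520244), (nat_lit 6557205)]) (PF.cons (PF.leaf (nat_lit 7454252) (nat_lit 723240) (nat_lit 43808386) (nat_lit 4797228) [(nat_lit 723240), (nat_lit 2529932), (nat_lit 6540152)]) (PF.cons (PF.leaf (nat_lit 7876058) (nat_lit 731989) (nat_lit 43081036) (nat_lit 4791417) [(nat_lit 731989), (nat_lit 2537296), (nat_lit 6519556)]) (PF.cons (PF.leaf (nat_lit 8301643) (nat_lit 739478) (nat_lit 42355638) (nat_lit 4782662) [(nat_lit 739478), (nat_lit 2542446),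
 (nat_lit 6495597)]) (PF.cons (PF.leaf (nat_lit 8729610) (nat_lit 745826) (nat_lit 41634453) (nat_lit 4771118) [(nat_lit 745826), (nat_lit 2545503), (nat_lit 6468478)]) (PF.cons (PF.leaf (nat_lit 9158774) (nat_lit 751137) (nat_lit 40919342) (nat_lit 4756953) [(nat_lit 751137), (nat_lit 2546591), (nat_lit 6438411)]) (PF.cons (PF.leaf (nat_lit 9588088) (nat_lit 755504) (nat_lit 40211844) (nat_lit 4740345) [(nat_lit 755504), (nat_lit 2545841), (nat_lit 6405619)]) (PF.cons (PF.leaf (nat_lit 10016656) (nat_lit 759008) (nat_lit 39513224) (nat_lit 4721473) [(nat_lit 759008), (nat_lit 2543381), (nat_lit 6370324)]) (PF.cons PF.nil (PF.cons PF.nil (PF.cons PF.nil PF.nil)))))))))))))) (PF.cons (PF.cons (PF.leaf (nat_lit 6836794) (nat_lit 2509467) (nat_lit 44228348) (nat_lit 4785711) [(nat_lit 0), (nat_lit 2509467), (nat_lit 6537908)]) (PF.cons (PF.leaf (nat_lit 7234587) (nat_lit 713070) (nat_lit 43533569) (nat_lit 4782616) [(nat_lit 713070), (nat_lit 2518995), (nat_lit 6520782)])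 (PF.cons (PF.leaf (nat_lit 7640531) (nat_lit 722700) (nat_lit 42833509) (nat_lit 4776648) [(nat_lit 722700), (nat_lit 2526343), (nat_lit 6500283)]) (PF.cons (PF.leaf (nat_lit 8052334) (nat_lit 730923) (nat_lit
 42131877) (nat_lit 4767893) [(nat_lit 730923), (nat_lit 2531581), (nat_lit 6476554)]) (PF.cons (PF.leaf (nat_lit 8468253) (nat_lit 737897) (nat_lit 41431609) (nat_lit 4756470) [(nat_lit 737897), (nat_lit 2534800), (nat_lit 6449771)]) (PF.cons (PF.leaf (nat_lit 8886833) (nat_lit 743754) (nat_lit 40735061) (nat_lit 4742521) [(nat_lit 743754), (nat_lit 2536106), (nat_lit 6420123)]) (PF.cons (PF.leaf (nat_lit 9306839) (nat_lit 748602) (nat_lit 40044143) (nat_lit 4726201) [(nat_lit 748602), (nat_lit 2535614), (nat_lit 6387813)]) (PF.cons (PF.leaf (nat_lit 9727195) (nat_lit 752535) (nat_lit 39360408) (nat_lit 4707673) [(nat_lit 752535), (nat_lit 2533440), (nat_lit 6353049)]) (PF.cons (PF.leaf (nat_lit 10147018) (nat_lit 755638) (nat_lit 38685123) (nat_lit 4687101) [(nat_lit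 755638), (nat_lit 2529701), (nat_lit 6316037)]) (PF.cons (PF.leaf (nat_lit 10565510) (nat_lit 757984) (nat_lit 38019312) (nat_lit 4664650) [(nat_lit 757984), (nat_lit 2524513), (nat_lit 6276981)]) (PF.cons PF.nil (PF.cons PF.nil PF.nil)))))))))))) (PF.cons (PF.cons (PF.leaf (nat_lit 7822500) (nat_lit 2520465) (nat_lit 41881952) (nat_lit 4752591) [(nat_lit 0), (nat_lit 2520465), (nat_lit 6456436)]) (PF.cons (PF.leaf
 (nat_lit 8223700) (nat_lit 728998) (nat_lit 41206877) (nat_lit 4741302) [(nat_lit 728998), (nat_lit 2523820), (nat_lit 6430085)]) (PF.cons (PF.leaf (nat_lit 8629716) (nat_lit 735565) (nat_lit 40532214) (nat_lit 4727585) [(nat_lit 735565), (nat_lit 2525333), (nat_lit 6400939)]) (PF.cons (PF.leaf (nat_lit 9038796) (nat_lit 741022) (nat_lit 39860513) (nat_lit 4711573) [(nat_lit 741022), (nat_lit 2525097), (nat_lit 6369184)]) (PF.cons (PF.leaf (nat_lit 9449618) (nat_lit 745485) (nat_lit 39193796) (nat_lit 4693409) [(nat_lit 745485), (nat_lit 2523213), (nat_lit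 6335012)]) (PF.cons (PF.leaf (nat_lit 9861099) (nat_lit 749056) (nat_lit 38533680) (nat_lit 4673243) [(nat_lit 749056), (nat_lit 2519788), (nat_lit 6298621)]) (PF.cons (PF.leaf (nat_lit 10272276) (nat_lit 751819) (nat_lit 37881466) (nat_lit 4651229) [(nat_lit 751819), (nat_lit 2514929), (nat_lit 6260204)]) (PF.cons (PF.leaf (nat_lit 10682364) (nat_lit 753851) (nat_lit 37238195) (nat_lit 4627517) [(nat_lit 753851), (nat_lit 2508743), (nat_lit 6219953)]) (PF.cons PF.nil (PF.cons PF.nil PF.nil)))))))))) (PF.cons (PF.cons (PF.leaf (nat_lit 8787055) (nat_lit 2514245) (nat_lit 39656539) (nat_lit 4696327) [(nat_lit 0), (nat_lit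
 2514245), (nat_lit 6349482)]) (PF.cons (PF.leaf (nat_lit 9186263) (nat_lit 737670) (nat_lit 39009934) (nat_lit 4678566) [(nat_lit 737670), (nat_lit 2512655), (nat_lit 6316009)]) (PF.cons (PF.leaf (nat_lit 9587832) (nat_lit 741828) (nat_lit 38367443) (nat_lit 4658843) [(nat_lit 741828), (nat_lit 2509553), (nat_lit 6280327)]) (PF.cons (PF.leaf (nat_lit 9990411) (nat_lit 745104) (nat_lit 37730806) (nat_lit 4637298) [(nat_lit 745104), (nat_lit 2505035), (nat_lit 6242625)]) (PF.cons (PF.leaf (nat_lit 10393029) (nat_lit 747589) (nat_lit 37101399) (nat_lit 4614075) [(nat_lit 747589), (nat_lit 2499200), (nat_lit 6203089)]) (PF.cons (PF.leaf (nat_lit 10794838) (nat_lit 749360) (nat_lit 36480310) (nat_lit 4589313) [(nat_lit 749360), (nat_lit 2492146), (nat_lit 6161898)]) (PF.cons PF.nil (PF.cons PF.nil PF.nil)))))))) (PF.cons (PF.cons (PF.leaf (nat_lit 9722333) (nat_lit 2494779) (nat_lit 37564120) (nat_lit 4622733) [(nat_lit 0), (nat_lit 2494779), (nat_lit 6224030)]) (PF.cons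 (PF.leaf (nat_lit 10115800) (nat_lit 740712) (nat_lit 36950860) (nat_lit 4600048) [(nat_lit 740712), (nat_lit 2489313), (nat_lit 6185310)]) (PF.cons (PF.leaf (nat_lit 10509851) (nat_lit 742977) (nat_lit 36344021)
 (nat_lit 4575830) [(nat_lit 742977), (nat_lit 2482634), (nat_lit 6144916)]) (PF.cons (PF.leaf (nat_lit 10903437) (nat_lit 744539) (nat_lit 35744775) (nat_lit 4550212) [(nat_lit 744539), (nat_lit 2474832), (nat_lit 6103020)]) (PF.cons (PF.leaf (nat_lit 11295817) (nat_lit 745471) (nat_lit 35154040) (nat_lit 4523324) [(nat_lit 745471), (nat_lit 2465996), (nat_lit 6059789)]) (PF.cons PF.nil PF.nil)))))) (PF.cons (PF.cons (PF.leaf (nat_lit 10623490) (nat_lit 2465336) (nat_lit 35608377) (nat_lit 4536658) [(nat_lit 0), (nat_lit 2465336), (nat_lit 6085879)]) (PF.cons (PF.leaf (nat_lit 11008715) (nat_lit 739412) (nat_lit 35030673) (nat_lit 4510361) [(nat_lit 739412), (nat_lit 2456895), (nat_lit 6043494)]) (PF.cons (PF.leaf (nat_lit 11393250) (nat_lit 740194) (nat_lit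 34460727) (nat_lit 4482906) [(nat_lit 740194), (nat_lit 2447500), (nat_lit 5999894)]) (PF.cons PF.nil PF.nil)))) (PF.cons (PF.cons (PF.leaf (nat_lit 11488039) (nat_lit 2428555) (nat_lit 33787559) (nat_lit 4442013) [(nat_lit 0), (nat_lit 2428555), (nat_lit 5939675)]) (PF.cons PF.nil PF.nil)) (PF.cons PF.nil (PF.cons PF.nil (PF.cons PF.nil PF.nil))))))))))) (PF.cons (PF.cons (PF.cons (PF.leaf (nat_lit 6640353) (nat_lit 4714496)
 (nat_lit 43063555) (nat_lit 4714496) [(nat_lit 0), (nat_lit 0), (nat_lit 6443587)]) (PF.cons (PF.leaf (nat_lit 7014415) (nat_lit 688965) (nat_lit 42428990) (nat_lit 4711313) [(nat_lit 688965), (nat_lit 0), (nat_lit 6426514)]) (PF.cons (PF.leaf (nat_lit 7399419) (nat_lit 700231) (nat_lit 41783889) (nat_lit 4705494) [(nat_lit 700231), (nat_lit 0), (nat_lit 6406322)]) (PF.cons (PF.leaf (nat_lit 7792501) (nat_lit 709792) (nat_lit 41132961) (nat_lit 4697086) [(nat_lit 709792), (nat_lit 0), (nat_lit 6383128)]) (PF.cons (PF.leaf (nat_lit 8191552) (nat_lit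 717891) (nat_lit 40479822) (nat_lit 4686178) [(nat_lit 717891), (nat_lit 0), (nat_lit 6357082)]) (PF.cons (PF.leaf (nat_lit 8594850) (nat_lit 724712) (nat_lit 39827318) (nat_lit 4672887) [(nat_lit 724712), (nat_lit 0), (nat_lit 6328348)]) (PF.cons (PF.leaf (nat_lit 9000955) (nat_lit 730403) (nat_lit 39177725) (nat_lit 4657347) [(nat_lit 730403), (nat_lit 0), (nat_lit 6297106)]) (PF.cons (PF.leaf (nat_lit 9408661) (nat_lit 735085) (nat_lit 38532881) (nat_lit 4639701) [(nat_lit 735085), (nat_lit 0), (nat_lit 6263543)]) (PF.cons (PF.leaf (nat_lit 9816937) (nat_lit 738862) (nat_lit 37894276) (nat_lit 4620100) [(nat_lit 738862), (nat_lit 0),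
 (nat_lit 6227844)]) (PF.cons (PF.leaf (nat_lit 10224904) (nat_lit 741823) (nat_lit 37263122) (nat_lit 4598692) [(nat_lit 741823), (nat_lit 0), (nat_lit 6190196)]) (PF.cons (PF.leaf (nat_lit 10631779) (nat_lit 744043) (nat_lit 36640402) (nat_lit 4575626) [(nat_lit 744043), (nat_lit 0), (nat_lit 6150781)]) (PF.cons PF.nil PF.nil)))))))))))) (PF.cons (PF.cons (PF.leaf (nat_lit 7582977) (nat_lit 2475189) (nat_lit 40866713) (nat_lit 4681111) [(nat_lit 0), (nat_lit 2475189), (nat_lit 6361932)]) (PF.cons (PF.leaf (nat_lit 7965060) (nat_lit 707663) (nat_lit 40241926) (nat_lit 4670409) [(nat_lit 707663), (nat_lit 2479366), (nat_lit 6336481)]) (PF.cons (PF.leaf (nat_lit 8354054) (nat_lit 715445) (nat_lit 39613649) (nat_lit 4657416) [(nat_lit 715445), (nat_lit 2481717), (nat_lit 6308379)]) (PF.cons (PF.leaf (nat_lit 8747850) (nat_lit 721932) (nat_lit 38985053) (nat_lit 4642240) [(nat_lit 721932), (nat_lit 2482327), (nat_lit 6277797)]) (PF.cons (PF.leaf (nat_lit 9144885) (nat_lit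 727290) (nat_lit 38358606) (nat_lit 4625008) [(nat_lit 727290), (nat_lit 2481296), (nat_lit 6244913)]) (PF.cons (PF.leaf (nat_lit 9543872) (nat_lit 731649) (nat_lit 37736259) (nat_lit 4605856) [(nat_lit 731649),
 (nat_lit 2478727), (nat_lit 6209907)]) (PF.cons (PF.leaf (nat_lit 9943719) (nat_lit 735119) (nat_lit 37119573) (nat_lit 4584922) [(nat_lit 735119), (nat_lit 2474725), (nat_lit 6172958)]) (PF.cons (PF.leaf (nat_lit 10343511) (nat_lit 737791) (nat_lit 36509798) (nat_lit 4562346) [(nat_lit 737791), (nat_lit 2469396), (nat_lit 6134243)]) (PF.cons (PF.leaf (nat_lit 10742479) (nat_lit 739745) (nat_lit 35907939) (nat_lit 4538265) [(nat_lit 739745), (nat_lit 2462840), (nat_lit 6093933)]) (PF.cons PF.nil PF.nil)))))))))) (PF.cons (PF.cons (PF.leaf (nat_lit 8513521) (nat_lit 2470920) (nat_lit 38768935) (nat_lit 4626403) [(nat_lit 0), (nat_lit 2470920), (nat_lit 6257210)]) (PF.cons (PF.leaf (nat_lit 8897261) (nat_lit 718507) (nat_lit 38164733) (nat_lit 4609643) [(nat_lit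 718507), (nat_lit 2470235), (nat_lit 6225152)]) (PF.cons (PF.leaf (nat_lit 9285008) (nat_lit 723620) (nat_lit 37561632) (nat_lit 4590991) [(nat_lit 723620), (nat_lit 2468036), (nat_lit 6190957)]) (PF.cons (PF.leaf (nat_lit 9675161) (nat_lit 727731) (nat_lit 36961783) (nat_lit 4570576) [(nat_lit 727731), (nat_lit 2464419), (nat_lit 6154806)]) (PF.cons (PF.leaf (nat_lit 10066565) (nat_lit 730957) (nat_lit 36366866) (nat_lit
 4548530) [(nat_lit 730957), (nat_lit 2459480), (nat_lit 6116874)]) (PF.cons (PF.leaf (nat_lit 10458238) (nat_lit 733397) (nat_lit 35778211) (nat_lit 4524985) [(nat_lit 733397), (nat_lit 2453316), (nat_lit 6077332)]) (PF.cons (PF.leaf (nat_lit 10849360) (nat_lit 735133) (nat_lit 35196871) (nat_lit 4500070) [(nat_lit 735133), (nat_lit 2446020), (nat_lit 6036343)]) (PF.cons PF.nil PF.nil)))))))) (PF.cons (PF.cons (PF.leaf (nat_lit 9422231) (nat_lit 2453696) (nat_lit 36785797) (nat_lit 4555498) [(nat_lit 0), (nat_lit 2453696), (nat_lit 6135475)]) (PF.cons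 (PF.leaf (nat_lit 9803196) (nat_lit 723354) (nat_lit 36208513) (nat_lit 4534049) [(nat_lit 723354), (nat_lit 2449171), (nat_lit 6098460)]) (PF.cons (PF.leaf (nat_lit 10186056) (nat_lit 726402) (nat_lit 35635262) (nat_lit 4511095) [(nat_lit 726402), (nat_lit 2443422), (nat_lit 6059794)]) (PF.cons (PF.leaf (nat_lit 10569583) (nat_lit 728664) (nat_lit 35067499) (nat_lit 4486765) [(nat_lit 728664), (nat_lit 2436538), (nat_lit 6019646)]) (PF.cons (PF.leaf (nat_lit 10952914) (nat_lit 730229) (nat_lit 34506362) (nat_lit 4461181) [(nat_lit 730229), (nat_lit 2428606), (nat_lit 5978177)]) (PF.cons PF.nil PF.nil)))))) (PF.cons (PF.cons (PF.leaf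
 (nat_lit 10302962) (nat_lit 2426647) (nat_lit 34923805) (nat_lit 4472765) [(nat_lit 0), (nat_lit 2426647), (nat_lit 6001884)]) (PF.cons (PF.leaf (nat_lit 10678105) (nat_lit 723610) (nat_lit 34376763) (nat_lit 4447821) [(nat_lit 723610), (nat_lit 2419149), (nat_lit 5961339)]) (PF.cons (PF.leaf (nat_lit 11053620) (nat_lit 725052) (nat_lit 33835552) (nat_lit 4421720) [(nat_lit 725052), (nat_lit 2410679), (nat_lit 5919572)]) (PF.cons (PF.leaf (nat_lit 11428549) (nat_lit 725875) (nat_lit 33301150) (nat_lit 4394577) [(nat_lit 725875), (nat_lit 2401315), (nat_lit 5876732)]) PF.nil)))) (PF.cons (PF.cons (PF.leaf (nat_lit 11152128) (nat_lit 2392305) (nat_lit 33183549) (nat_lit 4381790) [(nat_lit 0), (nat_lit 2392305), (nat_lit 5860647)]) (PF.cons (PF.leaf (nat_lit 11519416) (nat_lit 720360) (nat_lit 32668063) (nat_lit 4354350) [(nat_lit 720360), (nat_lit 2382552), (nat_lit 5817758)]) PF.nil)) (PF.cons PF.nil (PF.cons PF.nil (PF.cons PF.nil (PF.cons PF.nil PF.nil)))))))))) (PF.cons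 (PF.cons (PF.cons (PF.leaf (nat_lit 8258521) (nat_lit 4556067) (nat_lit 37893822) (nat_lit 4556067) [(nat_lit 0), (nat_lit 0), (nat_lit 6164730)]) (PF.cons (PF.leaf (nat_lit 8625377) (nat_lit 697822) (nat_lit
 37333091) (nat_lit 4540512) [(nat_lit 697822), (nat_lit 0), (nat_lit 6134346)]) (PF.cons (PF.leaf (nat_lit 8998234) (nat_lit 704194) (nat_lit 36769933) (nat_lit 4523101) [(nat_lit 704194), (nat_lit 0), (nat_lit 6101847)]) (PF.cons (PF.leaf (nat_lit 9375143) (nat_lit 709374) (nat_lit 36207076) (nat_lit 4503957) [(nat_lit 709374), (nat_lit 0), (nat_lit 6067414)]) (PF.cons (PF.leaf (nat_lit 9754669) (nat_lit 713525) (nat_lit 35646619) (nat_lit 4483206) [(nat_lit 713525), (nat_lit 0), (nat_lit 6031221)]) (PF.cons (PF.leaf (nat_lit 10135667) (nat_lit 716779) (nat_lit 35090203) (nat_lit 4460973) [(nat_lit 716779), (nat_lit 0), (nat_lit 5993434)]) (PF.cons (PF.leaf (nat_lit 10517160) (nat_lit 719241) (nat_lit 34539127) (nat_lit 4437383) [(nat_lit 719241), (nat_lit 0),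 (nat_lit 5954213)]) (PF.cons (PF.leaf (nat_lit 10898349) (nat_lit 720999) (nat_lit 33994420) (nat_lit 4412557) [(nat_lit 720999), (nat_lit 0), (nat_lit 5913708)]) (PF.cons PF.nil (PF.cons PF.nil PF.nil)))))))))) (PF.cons (PF.cons (PF.leaf (nat_lit 9139037) (nat_lit 2411986) (nat_lit 36019808) (nat_lit 4488263) [(nat_lit 0), (nat_lit 2411986), (nat_lit 6047188)]) (PF.cons (PF.leaf (nat_lit 9506465) (nat_lit 704979) (nat_lit
 35478932) (nat_lit 4468183) [(nat_lit 704979), (nat_lit 2408552), (nat_lit 6012041)]) (PF.cons (PF.leaf (nat_lit 9877321) (nat_lit 709004) (nat_lit 34939405) (nat_lit 4446604) [(nat_lit 709004), (nat_lit 2403859), (nat_lit 5975233)]) (PF.cons (PF.leaf (nat_lit 10250131) (nat_lit 712119) (nat_lit 34403061) (nat_lit 4423650) [(nat_lit 712119), (nat_lit 2397999), (nat_lit 5936936)]) (PF.cons (PF.leaf (nat_lit 10623857) (nat_lit 714438) (nat_lit 33871322) (nat_lit 4399441) [(nat_lit 714438), (nat_lit 2391063), (nat_lit 5897307)]) (PF.cons (PF.leaf (nat_lit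 10997618) (nat_lit 716057) (nat_lit 33345300) (nat_lit 4374094) [(nat_lit 716057), (nat_lit 2383137), (nat_lit 5856498)]) (PF.cons PF.nil (PF.cons PF.nil PF.nil)))))))) (PF.cons (PF.cons (PF.leaf (nat_lit 9998040) (nat_lit 2387635) (nat_lit 34250701) (nat_lit 4409120) [(nat_lit 0), (nat_lit 2387635), (nat_lit 5918429)]) (PF.cons (PF.leaf (nat_lit 10362302) (nat_lit 707112) (nat_lit 33734419) (nat_lit 4385612) [(nat_lit 707112), (nat_lit 2381180), (nat_lit 5879826)]) (PF.cons (PF.leaf (nat_lit 10728144) (nat_lit 709344) (nat_lit 33221867) (nat_lit 4360934) [(nat_lit 709344), (nat_lit 2373719), (nat_lit 5839970)]) (PF.cons (PF.leaf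
 (nat_lit 11094435) (nat_lit 710869) (nat_lit 32714285) (nat_lit 4335198) [(nat_lit 710869), (nat_lit 2365333), (nat_lit 5799013)]) (PF.cons (PF.leaf (nat_lit 11460386) (nat_lit 711772) (nat_lit 32212632) (nat_lit 4308513) [(nat_lit 711772), (nat_lit 2356102), (nat_lit 5757092)]) (PF.cons PF.nil PF.nil)))))) (PF.cons (PF.cons (PF.leaf (nat_lit 10830715) (nat_lit 2355926) (nat_lit 32589872) (nat_lit 4321954) [(nat_lit 0), (nat_lit 2355926), (nat_lit 5782301)]) (PF.cons (PF.leaf (nat_lit 11189268) (nat_lit 705443) (nat_lit 32100545) (nat_lit 4295955) [(nat_lit 705443), (nat_lit 2347160), (nat_lit 5741347)]) (PF.cons (PF.leaf (nat_lit 11548069) (nat_lit 706292) (nat_lit 31616399) (nat_lit 4269069) [(nat_lit 706292), (nat_lit 2337601), (nat_lit 5699488)]) (PF.cons PF.nil PF.nil)))) (PF.cons (PF.cons (PF.leaf (nat_lit 11634308) (nat_lit 2318845) (nat_lit 31036372) (nat_lit 4229452) [(nat_lit 0), (nat_lit 2318845), (nat_lit 5641901)]) (PF.cons PF.nil PF.nil)) (PF.cons PF.nil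 (PF.cons PF.nil (PF.cons PF.nil PF.nil)))))))) (PF.cons (PF.cons (PF.cons (PF.leaf (nat_lit 9709767) (nat_lit 4345559) (nat_lit 33586667) (nat_lit 4345559) [(nat_lit 0), (nat_lit 0), (nat_lit 5835317)]) (PF.cons
 (PF.leaf (nat_lit 10062064) (nat_lit 689668) (nat_lit 33101634) (nat_lit 4323593) [(nat_lit 689668), (nat_lit 0), (nat_lit 5798783)]) (PF.cons (PF.leaf (nat_lit 10417380) (nat_lit 692870) (nat_lit 32617966) (nat_lit 4300421) [(nat_lit 692870), (nat_lit 0), (nat_lit 5760936)]) (PF.cons (PF.leaf (nat_lit 10774333) (nat_lit 695239) (nat_lit 32137244) (nat_lit 4276160) [(nat_lit 695239), (nat_lit 0), (nat_lit 5721937)]) (PF.cons (PF.leaf (nat_lit 11131972) (nat_lit 696889) (nat_lit 31660688) (nat_lit 4250919) [(nat_lit 696889), (nat_lit 0), (nat_lit 5681929)]) (PF.cons (PF.leaf (nat_lit 11489504) (nat_lit 697908) (nat_lit 31189243) (nat_lit 4224801) [(nat_lit 697908), (nat_lit 0), (nat_lit 5641044)]) (PF.cons PF.nil (PF.cons PF.nil PF.nil)))))))) (PF.cons (PF.cons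 (PF.leaf (nat_lit 10524463) (nat_lit 2319271) (nat_lit 32004780) (nat_lit 4262372) [(nat_lit 0), (nat_lit 2319271), (nat_lit 5704477)]) (PF.cons (PF.leaf (nat_lit 10873452) (nat_lit 689871) (nat_lit 31541799) (nat_lit 4237882) [(nat_lit 689871), (nat_lit 2311578), (nat_lit 5665536)]) (PF.cons (PF.leaf (nat_lit 11223804) (nat_lit 691497) (nat_lit 31082162) (nat_lit 4212465) [(nat_lit 691497), (nat_lit 2303045), (nat_lit
 5625628)]) (PF.cons (PF.leaf (nat_lit 11574464) (nat_lit 692483) (nat_lit 30626937) (nat_lit 4186223) [(nat_lit 692483), (nat_lit 2293748), (nat_lit 5584890)]) (PF.cons PF.nil (PF.cons PF.nil PF.nil)))))) (PF.cons (PF.cons (PF.leaf (nat_lit 11314590) (nat_lit 2284875) (nat_lit 30518705) (nat_lit 4173812) [(nat_lit 0), (nat_lit 2284875), (nat_lit 5569308)]) (PF.cons (PF.leaf (nat_lit 11658081) (nat_lit 686879) (nat_lit 30079530) (nat_lit 4147541) [(nat_lit 686879), (nat_lit 2275360), (nat_lit 5528828)]) (PF.cons PF.nil (PF.cons PF.nil PF.nil)))) (PF.cons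 (PF.cons (PF.leaf (nat_lit 12077950) (nat_lit 2246495) (nat_lit 29126807) (nat_lit 4081919) [(nat_lit 0), (nat_lit 2246495), (nat_lit 5432119)]) (PF.cons PF.nil PF.nil)) (PF.cons PF.nil (PF.cons PF.nil PF.nil)))))) (PF.cons (PF.cons (PF.cons (PF.leaf (nat_lit 11009437) (nat_lit 4118395) (nat_lit 30007397) (nat_lit 4118395) [(nat_lit 0), (nat_lit 0), (nat_lit 5497170)]) (PF.cons (PF.leaf (nat_lit 11344432) (nat_lit 672241) (nat_lit 29590862) (nat_lit 4093628) [(nat_lit 672241), (nat_lit 0), (nat_lit 5458680)]) (PF.cons (PF.leaf (nat_lit 11680654) (nat_lit 673415) (nat_lit 29177273) (nat_lit 4068115) [(nat_lit 673415), (nat_lit 0),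
 (nat_lit 5419432)]) (PF.cons PF.nil PF.nil)))) (PF.cons (PF.cons (PF.leaf (nat_lit 11761666) (nat_lit 2214900) (nat_lit 28672940) (nat_lit 4030387) [(nat_lit 0), (nat_lit 2214900), (nat_lit 5365097)]) (PF.cons (PF.leaf (nat_lit 12091442) (nat_lit 668351) (nat_lit 28277339) (nat_lit 4004346) [(nat_lit 668351), (nat_lit 2204991), (nat_lit 5325630)]) PF.nil)) (PF.cons PF.nil (PF.cons PF.nil PF.nil)))) (PF.cons (PF.cons (PF.cons (PF.leaf (nat_lit 12177566) (nat_lit 3892796) (nat_lit 27020931) (nat_lit 3892796) [(nat_lit 0), (nat_lit 0), (nat_lit 5170726)]) (PF.cons PF.nil PF.nil)) (PF.cons PF.nil PF.nil)) (PF.cons PF.nil (PF.cons PF.nil (PF.cons PF.nil (PF.cons PF.nil PF.nil))))))))))))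

def p15_36_0_0 : pfC (piC [(nat_lit 35404596), (nat_lit 22827826), (nat_lit 14696761)] (nat_lit 16660084)) p15_36_0 (nat_lit 3) (nat_lit 0) (nat_lit 1) = true := by decide +kernel
def p15_36_0_1 : pfC (piC [(nat_lit 35404596), (nat_lit 22827826), (nat_lit 14696761)] (nat_lit 16660084)) p15_36_0 (nat_lit 3) (nat_lit 1) (nat_lit 2) = true := by decide +kernel
def p15_36_0_2 : pfC (piC [(nat_lit 35404596), (nat_lit 22827826), (nat_lit 14696761)] (nat_lit 16660084)) p15_36_0 (nat_lit 3) (nat_lit 2) (nat_lit 3) = true := by decide +kernel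
def p15_36_0_3 : pfC (piC [(nat_lit 35404596), (nat_lit 22827826), (nat_lit 14696761)] (nat_lit 16660084)) p15_36_0 (nat_lit 3) (nat_lit 3) (nat_lit 4) = true := by decide +kernel
def p15_36_0_4 : pfC (piC [(nat_lit 35404596), (nat_lit 22827826), (nat_lit 14696761)] (nat_lit 16660084)) p15_36_0 (nat_lit 3) (nat_lit 4) (nat_lit 5) = true := by decide +kernel
def p15_36_0_5 : pfC (piC [(nat_lit 35404596), (nat_lit 22827826), (nat_lit 14696761)] (nat_lit 16660084)) p15_36_0 (nat_lit 3) (nat_lit 5) (nat_lit 6) = true := by decide +kernel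
def p15_36_0_6 : pfC (piC [(nat_lit 35404596), (nat_lit 22827826), (nat_lit 14696761)] (nat_lit 16660084)) p15_36_0 (nat_lit 3) (nat_lit 6) (nat_lit 7) = true := by decide +kernel
def p15_36_0_7 : pfC (piC [(nat_lit 35404596), (nat_lit 22827826), (nat_lit 14696761)] (nat_lit 16660084)) p15_36_0 (nat_lit 3) (nat_lit 7) (nat_lit 8) = true := by decide +kernel
def p15_36_0_8 : pfC (piC [(nat_lit 35404596), (nat_lit 22827826), (nat_lit 14696761)] (nat_lit 16660084)) p15_36_0 (nat_lit 3) (nat_lit 8) (nat_lit 9) = true := by decide +kernel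
def p15_36_0_9 : pfC (piC [(nat_lit 35404596), (nat_lit 22827826), (nat_lit 14696761)] (nat_lit 16660084)) p15_36_0 (nat_lit 3) (nat_lit 9) (nat_lit 10) = true := by decide +kernel
def p15_36_0_10 : pfC (piC [(nat_lit 35404596), (nat_lit 22827826), (nat_lit 14696761)] (nat_lit 16660084)) p15_36_0 (nat_lit 3) (nat_lit 10) (nat_lit 11) = true := by decide +kernel
def p15_36_0_11 : pfC (piC [(nat_lit 35404596), (nat_lit 22827826), (nat_lit 14696761)] (nat_lit 16660084)) p15_36_0 (nat_lit 3) (nat_lit 11) (nat_lit 12) = true := by decide +kernel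
def p15_36_0_12 : pfC (piC [(nat_lit 35404596), (nat_lit 22827826), (nat_lit 14696761)] (nat_lit 16660084)) p15_36_0 (nat_lit 3) (nat_lit 12) (nat_lit 13) = true := by decide +kernel
def p15_36_0_13 : pfC (piC [(nat_lit 35404596), (nat_lit 22827826), (nat_lit 14696761)] (nat_lit 16660084)) p15_36_0 (nat_lit 3) (nat_lit 13) (nat_lit 14) = true := by decide +kernel
def p15_36_0_14 : pfC (piC [(nat_lit 35404596), (nat_lit 22827826), (nat_lit 14696761)] (nat_lit 16660084)) p15_36_0 (nat_lit 3) (nat_lit 14) (nat_lit 15) = true := by decide +kernel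
def p15_36_0_15 : pfC (piC [(nat_lit 35404596), (nat_lit 22827826), (nat_lit 14696761)] (nat_lit 16660084)) p15_36_0 (nat_lit 3) (nat_lit 15) (nat_lit 16) = true := by decide +kernel
def p15_36_0_16 : pfC (piC [(nat_lit 35404596), (nat_lit 22827826), (nat_lit 14696761)] (nat_lit 16660084)) p15_36_0 (nat_lit 3) (nat_lit 16) (nat_lit 17) = true := by decide +kernel
def p15_36_0_17 : pfC (piC [(nat_lit 35404596), (nat_lit 22827826), (nat_lit 14696761)] (nat_lit 16660084)) p15_36_0 (nat_lit 3) (nat_lit 17) (nat_lit 18) = true := by decide +kernel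
def p15_36_0_18 : pfC (piC [(nat_lit 35404596), (nat_lit 22827826), (nat_lit 14696761)] (nat_lit 16660084)) p15_36_0 (nat_lit 3) (nat_lit 18) (nat_lit 19) = true := by decide +kernel
def p15_36_0_19 : pfC (piC [(nat_lit 35404596), (nat_lit 22827826), (nat_lit 14696761)] (nat_lit 16660084)) p15_36_0 (nat_lit 3) (nat_lit 19) (nat_lit 20) = true := by decide +kernel
def p15_36_0_20 : pfC (piC [(nat_lit 35404596), (nat_lit 22827826), (nat_lit 14696761)] (nat_lit 16660084)) p15_36_0 (nat_lit 3) (nat_lit 20) (nat_lit 21) = true := by decide +kernel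
def p15_36_0_21 : pfC (piC [(nat_lit 35404596), (nat_lit 22827826), (nat_lit 14696761)] (nat_lit 16660084)) p15_36_0 (nat_lit 3) (nat_lit 21) (nat_lit 22) = true := by decide +kernel
def p15_36_0_22 : pfC (piC [(nat_lit 35404596), (nat_lit 22827826), (nat_lit 14696761)] (nat_lit 16660084)) p15_36_0 (nat_lit 3) (nat_lit 22) (nat_lit 23) = true := by decide +kernel
def p15_36_0_23 : pfC (piC [(nat_lit 35404596), (nat_lit 22827826), (nat_lit 14696761)] (nat_lit 16660084)) p15_36_0 (nat_lit 3) (nat_lit 23) (nat_lit 24) = true := by decide +kernel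
def p15_36_0_24 : pfC (piC [(nat_lit 35404596), (nat_lit 22827826), (nat_lit 14696761)] (nat_lit 16660084)) p15_36_0 (nat_lit 3) (nat_lit 24) (nat_lit 25) = true := by decide +kernel
def p15_36_0_25 : pfC (piC [(nat_lit 35404596), (nat_lit 22827826), (nat_lit 14696761)] (nat_lit 16660084)) p15_36_0 (nat_lit 3) (nat_lit 25) (nat_lit 26) = true := by decide +kernel
def p15_36_0_26 : pfC (piC [(nat_lit 35404596), (nat_lit 22827826), (nat_lit 14696761)] (nat_lit 16660084)) p15_36_0 (nat_lit 3) (nat_lit 26) (nat_lit 27) = true := by decide +kernel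
def p15_36_0_27 : pfC (piC [(nat_lit 35404596), (nat_lit 22827826), (nat_lit 14696761)] (nat_lit 16660084)) p15_36_0 (nat_lit 3) (nat_lit 27) (nat_lit 28) = true := by decide +kernel
def p15_36_0_28 : pfC (piC [(nat_lit 35404596), (nat_lit 22827826), (nat_lit 14696761)] (nat_lit 16660084)) p15_36_0 (nat_lit 3) (nat_lit 28) (nat_lit 29) = true := by decide +kernel
def p15_36_0_29 : pfC (piC [(nat_lit 35404596), (nat_lit 22827826), (nat_lit 14696761)] (nat_lit 16660084)) p15_36_0 (nat_lit 3) (nat_lit 29) (nat_lit 30) = true := by decide +kernel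
def p15_36_0_30 : pfC (piC [(nat_lit 35404596), (nat_lit 22827826), (nat_lit 14696761)] (nat_lit 16660084)) p15_36_0 (nat_lit 3) (nat_lit 30) (nat_lit 31) = true := by decide +kernel
def p15_36_0_31 : pfC (piC [(nat_lit 35404596), (nat_lit 22827826), (nat_lit 14696761)] (nat_lit 16660084)) p15_36_0 (nat_lit 3) (nat_lit 31) (nat_lit 32) = true := by decide +kernel
def p15_36_0_32 : pfC (piC [(nat_lit 35404596), (nat_lit 22827826), (nat_lit 14696761)] (nat_lit 16660084)) p15_36_0 (nat_lit 3) (nat_lit 32) (nat_lit 33) = true := by decide +kernel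
def p15_36_0_33 : pfC (piC [(nat_lit 35404596), (nat_lit 22827826), (nat_lit 14696761)] (nat_lit 16660084)) p15_36_0 (nat_lit 3) (nat_lit 33) (nat_lit 34) = true := by decide +kernel
def p15_36_0_34 : pfC (piC [(nat_lit 35404596), (nat_lit 22827826), (nat_lit 14696761)] (nat_lit 16660084)) p15_36_0 (nat_lit 3) (nat_lit 34) (nat_lit 35) = true := by decide +kernel
def p15_36_0_35 : pfC (piC [(nat_lit 35404596), (nat_lit 22827826), (nat_lit 14696761)] (nat_lit 16660084)) p15_36_0 (nat_lit 3) (nat_lit 35) (nat_lit 36) = true := by decide +kernel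
def p15_36_0_36 : pfC (piC [(nat_lit 35404596), (nat_lit 22827826), (nat_lit 14696761)] (nat_lit 16660084)) p15_36_0 (nat_lit 3) (nat_lit 36) (nat_lit 37) = true := by decide +kernel
def p15_36_0_37 : pfC (piC [(nat_lit 35404596), (nat_lit 22827826), (nat_lit 14696761)] (nat_lit 16660084)) p15_36_0 (nat_lit 3) (nat_lit 37) (nat_lit 38) = true := by decide +kernel
def p15_36_0_38 : pfC (piC [(nat_lit 35404596), (nat_lit 22827826), (nat_lit 14696761)] (nat_lit 16660084)) p15_36_0 (nat_lit 3) (nat_lit 38) (nat_lit 39) = true := by decide +kernel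
def p15_36_0_39 : pfC (piC [(nat_lit 35404596), (nat_lit 22827826), (nat_lit 14696761)] (nat_lit 16660084)) p15_36_0 (nat_lit 3) (nat_lit 39) (nat_lit 40) = true := by decide +kernel
def p15_36_0_40 : pfC (piC [(nat_lit 35404596), (nat_lit 22827826), (nat_lit 14696761)] (nat_lit 16660084)) p15_36_0 (nat_lit 3) (nat_lit 40) (nat_lit 41) = true := by decide +kernel
def p15_36_0_41 : pfC (piC [(nat_lit 35404596), (nat_lit 22827826), (nat_lit 14696761)] (nat_lit 16660084)) p15_36_0 (nat_lit 3) (nat_lit 41) (nat_lit 42) = true := by decide +kernel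
def p15_36_0_42 : pfC (piC [(nat_lit 35404596), (nat_lit 22827826), (nat_lit 14696761)] (nat_lit 16660084)) p15_36_0 (nat_lit 3) (nat_lit 42) (nat_lit 43) = true := by decide +kernel
def p15_36_0_43 : pfC (piC [(nat_lit 35404596), (nat_lit 22827826), (nat_lit 14696761)] (nat_lit 16660084)) p15_36_0 (nat_lit 3) (nat_lit 43) (nat_lit 44) = true := by decide +kernel
def p15_36_0_44 : pfC (piC [(nat_lit 35404596), (nat_lit 22827826), (nat_lit 14696761)] (nat_lit 16660084)) p15_36_0 (nat_lit 3) (nat_lit 44) (nat_lit 45) = true := by decide +kernel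
def p15_36_0_45 : pfC (piC [(nat_lit 35404596), (nat_lit 22827826), (nat_lit 14696761)] (nat_lit 16660084)) p15_36_0 (nat_lit 3) (nat_lit 45) (nat_lit 46) = true := by decide +kernel
def p15_36_0_46 : pfC (piC [(nat_lit 35404596), (nat_lit 22827826), (nat_lit 14696761)] (nat_lit 16660084)) p15_36_0 (nat_lit 3) (nat_lit 46) (nat_lit 47) = true := by decide +kernel
def p15_36_0_47 : pfC (piC [(nat_lit 35404596), (nat_lit 22827826), (nat_lit 14696761)] (nat_lit 16660084)) p15_36_0 (nat_lit 3) (nat_lit 47) (nat_lit 48) = true := by decide +kernel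
def p15_36_0_48 : pfC (piC [(nat_lit 35404596), (nat_lit 22827826), (nat_lit 14696761)] (nat_lit 16660084)) p15_36_0 (nat_lit 3) (nat_lit 48) (nat_lit 49) = true := by decide +kernel
def p15_36_0_49 : pfC (piC [(nat_lit 35404596), (nat_lit 22827826), (nat_lit 14696761)] (nat_lit 16660084)) p15_36_0 (nat_lit 3) (nat_lit 49) (nat_lit 50) = true := by decide +kernel
def p15_36_0_50 : pfC (piC [(nat_lit 35404596), (nat_lit 22827826), (nat_lit 14696761)] (nat_lit 16660084)) p15_36_0 (nat_lit 3) (nat_lit 50) (nat_lit 51) = true := by decide +kernel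
def p15_36_0_51 : pfC (piC [(nat_lit 35404596), (nat_lit 22827826), (nat_lit 14696761)] (nat_lit 16660084)) p15_36_0 (nat_lit 3) (nat_lit 51) (nat_lit 52) = true := by decide +kernel
def p15_36_0_52 : pfC (piC [(nat_lit 35404596), (nat_lit 22827826), (nat_lit 14696761)] (nat_lit 16660084)) p15_36_0 (nat_lit 3) (nat_lit 52) (nat_lit 53) = true := by decide +kernel
def p15_36_0_53 : pfC (piC [(nat_lit 35404596), (nat_lit 22827826), (nat_lit 14696761)] (nat_lit 16660084)) p15_36_0 (nat_lit 3) (nat_lit 53) (nat_lit 54) = true := by decide +kernel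
def p15_36_0_54 : pfC (piC [(nat_lit 35404596), (nat_lit 22827826), (nat_lit 14696761)] (nat_lit 16660084)) p15_36_0 (nat_lit 3) (nat_lit 54) (nat_lit 55) = true := by decide +kernel
def p15_36_0_55 : pfC (piC [(nat_lit 35404596), (nat_lit 22827826), (nat_lit 14696761)] (nat_lit 16660084)) p15_36_0 (nat_lit 3) (nat_lit 55) (nat_lit 56) = true := by decide +kernel
def p15_36_0_56 : pfC (piC [(nat_lit 35404596), (nat_lit 22827826), (nat_lit 14696761)] (nat_lit 16660084)) p15_36_0 (nat_lit 3) (nat_lit 56) (nat_lit 57) = true := by decide +kernel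
def p15_36_0_57 : pfC (piC [(nat_lit 35404596), (nat_lit 22827826), (nat_lit 14696761)] (nat_lit 16660084)) p15_36_0 (nat_lit 3) (nat_lit 57) (nat_lit 58) = true := by decide +kernel
def p15_36_0_58 : pfC (piC [(nat_lit 35404596), (nat_lit 22827826), (nat_lit 14696761)] (nat_lit 16660084)) p15_36_0 (nat_lit 3) (nat_lit 58) (nat_lit 59) = true := by decide +kernel
def p15_36_0_59 : pfC (piC [(nat_lit 35404596), (nat_lit 22827826), (nat_lit 14696761)] (nat_lit 16660084)) p15_36_0 (nat_lit 3) (nat_lit 59) (nat_lit 60) = true := by decide +kernel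
def p15_36_0_60 : pfC (piC [(nat_lit 35404596), (nat_lit 22827826), (nat_lit 14696761)] (nat_lit 16660084)) p15_36_0 (nat_lit 3) (nat_lit 60) (nat_lit 61) = true := by decide +kernel
def p15_36_0_61 : pfC (piC [(nat_lit 35404596), (nat_lit 22827826), (nat_lit 14696761)] (nat_lit 16660084)) p15_36_0 (nat_lit 3) (nat_lit 61) (nat_lit 62) = true := by decide +kernel
def p15_36_0_62 : pfC (piC [(nat_lit 35404596), (nat_lit 22827826), (nat_lit 14696761)] (nat_lit 16660084)) p15_36_0 (nat_lit 3) (nat_lit 62) (nat_lit 63) = true := by decide +kernel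
def p15_36_0_63 : pfC (piC [(nat_lit 35404596), (nat_lit 22827826), (nat_lit 14696761)] (nat_lit 16660084)) p15_36_0 (nat_lit 3) (nat_lit 63) (nat_lit 64) = true := by decide +kernel
def p15_36_0_64 : pfC (piC [(nat_lit 35404596), (nat_lit 22827826), (nat_lit 14696761)] (nat_lit 16660084)) p15_36_0 (nat_lit 3) (nat_lit 64) (nat_lit 65) = true := by decide +kernel
def p15_36_0_65 : pfC (piC [(nat_lit 35404596), (nat_lit 22827826), (nat_lit 14696761)] (nat_lit 16660084)) p15_36_0 (nat_lit 3) (nat_lit 65) (nat_lit 66) = true := by decide +kernel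
def p15_36_0_66 : pfC (piC [(nat_lit 35404596), (nat_lit 22827826), (nat_lit 14696761)] (nat_lit 16660084)) p15_36_0 (nat_lit 3) (nat_lit 66) (nat_lit 67) = true := by decide +kernel
def p15_36_0_67 : pfC (piC [(nat_lit 35404596), (nat_lit 22827826), (nat_lit 14696761)] (nat_lit 16660084)) p15_36_0 (nat_lit 3) (nat_lit 67) (nat_lit 68) = true := by decide +kernel
def p15_36_0_68 : pfC (piC [(nat_lit 35404596), (nat_lit 22827826), (nat_lit 14696761)] (nat_lit 16660084)) p15_36_0 (nat_lit 3) (nat_lit 68) (nat_lit 69) = true := by decide +kernel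
def p15_36_0_69 : pfC (piC [(nat_lit 35404596), (nat_lit 22827826), (nat_lit 14696761)] (nat_lit 16660084)) p15_36_0 (nat_lit 3) (nat_lit 69) (nat_lit 70) = true := by decide +kernel
def p15_36_0_70 : pfC (piC [(nat_lit 35404596), (nat_lit 22827826), (nat_lit 14696761)] (nat_lit 16660084)) p15_36_0 (nat_lit 3) (nat_lit 70) (nat_lit 71) = true := by decide +kernel
def p15_36_0_71 : pfC (piC [(nat_lit 35404596), (nat_lit 22827826), (nat_lit 14696761)] (nat_lit 16660084)) p15_36_0 (nat_lit 3) (nat_lit 71) (nat_lit 72) = true := by decide +kernel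
def p15_36_0_72 : pfC (piC [(nat_lit 35404596), (nat_lit 22827826), (nat_lit 14696761)] (nat_lit 16660084)) p15_36_0 (nat_lit 3) (nat_lit 72) (nat_lit 73) = true := by decide +kernel
def p15_36_0_73 : pfC (piC [(nat_lit 35404596), (nat_lit 22827826), (nat_lit 14696761)] (nat_lit 16660084)) p15_36_0 (nat_lit 3) (nat_lit 73) (nat_lit 74) = true := by decide +kernel
def p15_36_0_74 : pfC (piC [(nat_lit 35404596), (nat_lit 22827826), (nat_lit 14696761)] (nat_lit 16660084)) p15_36_0 (nat_lit 3) (nat_lit 74) (nat_lit 75) = true := by decide +kernel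
def p15_36_0_75 : pfC (piC [(nat_lit 35404596), (nat_lit 22827826), (nat_lit 14696761)] (nat_lit 16660084)) p15_36_0 (nat_lit 3) (nat_lit 75) (nat_lit 76) = true := by decide +kernel
def p15_36_0_76 : pfC (piC [(nat_lit 35404596), (nat_lit 22827826), (nat_lit 14696761)] (nat_lit 16660084)) p15_36_0 (nat_lit 3) (nat_lit 76) (nat_lit 77) = true := by decide +kernel
def p15_36_0_77 : pfC (piC [(nat_lit 35404596), (nat_lit 22827826), (nat_lit 14696761)] (nat_lit 16660084)) p15_36_0 (nat_lit 3) (nat_lit 77) (nat_lit 78) = true := by decide +kernel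
def p15_36_0_78 : pfC (piC [(nat_lit 35404596), (nat_lit 22827826), (nat_lit 14696761)] (nat_lit 16660084)) p15_36_0 (nat_lit 3) (nat_lit 78) (nat_lit 79) = true := by decide +kernel
def p15_36_0_79 : pfC (piC [(nat_lit 35404596), (nat_lit 22827826), (nat_lit 14696761)] (nat_lit 16660084)) p15_36_0 (nat_lit 3) (nat_lit 79) (nat_lit 80) = true := by decide +kernel
def p15_36_0_80 : pfC (piC [(nat_lit 35404596), (nat_lit 22827826), (nat_lit 14696761)] (nat_lit 16660084)) p15_36_0 (nat_lit 3) (nat_lit 80) (nat_lit 81) = true := by decide +kernel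
def p15_36_0_81 : pfC (piC [(nat_lit 35404596), (nat_lit 22827826), (nat_lit 14696761)] (nat_lit 16660084)) p15_36_0 (nat_lit 3) (nat_lit 81) (nat_lit 82) = true := by decide +kernel
def p15_36_0_82 : pfC (piC [(nat_lit 35404596), (nat_lit 22827826), (nat_lit 14696761)] (nat_lit 16660084)) p15_36_0 (nat_lit 3) (nat_lit 82) (nat_lit 83) = true := by decide +kernel
def p15_36_0_83 : pfC (piC [(nat_lit 35404596), (nat_lit 22827826), (nat_lit 14696761)] (nat_lit 16660084)) p15_36_0 (nat_lit 3) (nat_lit 83) (nat_lit 84) = true := by decide +kernel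
def p15_36_0_84 : pfC (piC [(nat_lit 35404596), (nat_lit 22827826), (nat_lit 14696761)] (nat_lit 16660084)) p15_36_0 (nat_lit 3) (nat_lit 84) (nat_lit 85) = true := by decide +kernel
def p15_36_0_85 : pfC (piC [(nat_lit 35404596), (nat_lit 22827826), (nat_lit 14696761)] (nat_lit 16660084)) p15_36_0 (nat_lit 3) (nat_lit 85) (nat_lit 86) = true := by decide +kernel
def p15_36_0_86 : pfC (piC [(nat_lit 35404596), (nat_lit 22827826), (nat_lit 14696761)] (nat_lit 16660084)) p15_36_0 (nat_lit 3) (nat_lit 86) (nat_lit 87) = true := by decide +kernel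
def p15_36_0_87 : pfC (piC [(nat_lit 35404596), (nat_lit 22827826), (nat_lit 14696761)] (nat_lit 16660084)) p15_36_0 (nat_lit 3) (nat_lit 87) (nat_lit 88) = true := by decide +kernel
def p15_36_0_88 : pfC (piC [(nat_lit 35404596), (nat_lit 22827826), (nat_lit 14696761)] (nat_lit 16660084)) p15_36_0 (nat_lit 3) (nat_lit 88) (nat_lit 89) = true := by decide +kernel
def p15_36_0_89 : pfC (piC [(nat_lit 35404596), (nat_lit 22827826), (nat_lit 14696761)] (nat_lit 16660084)) p15_36_0 (nat_lit 3) (nat_lit 89) (nat_lit 90) = true := by decide +kernel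
def p15_36_0_90 : pfC (piC [(nat_lit 35404596), (nat_lit 22827826), (nat_lit 14696761)] (nat_lit 16660084)) p15_36_0 (nat_lit 3) (nat_lit 90) (nat_lit 91) = true := by decide +kernel
def p15_36_0_91 : pfC (piC [(nat_lit 35404596), (nat_lit 22827826), (nat_lit 14696761)] (nat_lit 16660084)) p15_36_0 (nat_lit 3) (nat_lit 91) (nat_lit 92) = true := by decide +kernel
def p15_36_0_92 : pfC (piC [(nat_lit 35404596), (nat_lit 22827826), (nat_lit 14696761)] (nat_lit 16660084)) p15_36_0 (nat_lit 3) (nat_lit 92) (nat_lit 93) = true := by decide +kernel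
def p15_36_0_93 : pfC (piC [(nat_lit 35404596), (nat_lit 22827826), (nat_lit 14696761)] (nat_lit 16660084)) p15_36_0 (nat_lit 3) (nat_lit 93) (nat_lit 94) = true := by decide +kernel
def p15_36_0_94 : pfC (piC [(nat_lit 35404596), (nat_lit 22827826), (nat_lit 14696761)] (nat_lit 16660084)) p15_36_0 (nat_lit 3) (nat_lit 94) (nat_lit 95) = true := by decide +kernel
def p15_36_0_95 : pfC (piC [(nat_lit 35404596), (nat_lit 22827826), (nat_lit 14696761)] (nat_lit 16660084)) p15_36_0 (nat_lit 3) (nat_lit 95) (nat_lit 96) = true := by decide +kernel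
def p15_36_0_96 : pfC (piC [(nat_lit 35404596), (nat_lit 22827826), (nat_lit 14696761)] (nat_lit 16660084)) p15_36_0 (nat_lit 3) (nat_lit 96) (nat_lit 97) = true := by decide +kernel
def p15_36_0_97 : pfC (piC [(nat_lit 35404596), (nat_lit 22827826), (nat_lit 14696761)] (nat_lit 16660084)) p15_36_0 (nat_lit 3) (nat_lit 97) (nat_lit 98) = true := by decide +kernel
def p15_36_0_98 : pfC (piC [(nat_lit 35404596), (nat_lit 22827826), (nat_lit 14696761)] (nat_lit 16660084)) p15_36_0 (nat_lit 3) (nat_lit 98) (nat_lit 99) = true := by decide +kernel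
def p15_36_0_99 : pfC (piC [(nat_lit 35404596), (nat_lit 22827826), (nat_lit 14696761)] (nat_lit 16660084)) p15_36_0 (nat_lit 3) (nat_lit 99) (nat_lit 100) = true := by decide +kernel
def p15_36_0_100 : pfC (piC [(nat_lit 35404596), (nat_lit 22827826), (nat_lit 14696761)] (nat_lit 16660084)) p15_36_0 (nat_lit 3) (nat_lit 100) (nat_lit 101) = true := by decide +kernel
def p15_36_0_101 : pfC (piC [(nat_lit 35404596), (nat_lit 22827826), (nat_lit 14696761)] (nat_lit 16660084)) p15_36_0 (nat_lit 3) (nat_lit 101) (nat_lit 102) = true := by decide +kernel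
def p15_36_0_102 : pfC (piC [(nat_lit 35404596), (nat_lit 22827826), (nat_lit 14696761)] (nat_lit 16660084)) p15_36_0 (nat_lit 3) (nat_lit 102) (nat_lit 103) = true := by decide +kernel
def p15_36_0_103 : pfC (piC [(nat_lit 35404596), (nat_lit 22827826), (nat_lit 14696761)] (nat_lit 16660084)) p15_36_0 (nat_lit 3) (nat_lit 103) (nat_lit 104) = true := by decide +kernel
def p15_36_0_104 : pfC (piC [(nat_lit 35404596), (nat_lit 22827826), (nat_lit 14696761)] (nat_lit 16660084)) p15_36_0 (nat_lit 3) (nat_lit 104) (nat_lit 105) = true := by decide +kernel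
def p15_36_0_105 : pfC (piC [(nat_lit 35404596), (nat_lit 22827826), (nat_lit 14696761)] (nat_lit 16660084)) p15_36_0 (nat_lit 3) (nat_lit 105) (nat_lit 106) = true := by decide +kernel
def p15_36_0_106 : pfC (piC [(nat_lit 35404596), (nat_lit 22827826), (nat_lit 14696761)] (nat_lit 16660084)) p15_36_0 (nat_lit 3) (nat_lit 106) (nat_lit 107) = true := by decide +kernel
def p15_36_0_107 : pfC (piC [(nat_lit 35404596), (nat_lit 22827826), (nat_lit 14696761)] (nat_lit 16660084)) p15_36_0 (nat_lit 3) (nat_lit 107) (nat_lit 108) = true := by decide +kernel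
def p15_36_0_108 : pfC (piC [(nat_lit 35404596), (nat_lit 22827826), (nat_lit 14696761)] (nat_lit 16660084)) p15_36_0 (nat_lit 3) (nat_lit 108) (nat_lit 109) = true := by decide +kernel
def p15_36_0_109 : pfC (piC [(nat_lit 35404596), (nat_lit 22827826), (nat_lit 14696761)] (nat_lit 16660084)) p15_36_0 (nat_lit 3) (nat_lit 109) (nat_lit 110) = true := by decide +kernel
def p15_36_0_110 : pfC (piC [(nat_lit 35404596), (nat_lit 22827826), (nat_lit 14696761)] (nat_lit 16660084)) p15_36_0 (nat_lit 3) (nat_lit 110) (nat_lit 111) = true := by decide +kernel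
def p15_36_0_111 : pfC (piC [(nat_lit 35404596), (nat_lit 22827826), (nat_lit 14696761)] (nat_lit 16660084)) p15_36_0 (nat_lit 3) (nat_lit 111) (nat_lit 112) = true := by decide +kernel
def p15_36_0_112 : pfC (piC [(nat_lit 35404596), (nat_lit 22827826), (nat_lit 14696761)] (nat_lit 16660084)) p15_36_0 (nat_lit 3) (nat_lit 112) (nat_lit 113) = true := by decide +kernel
def p15_36_0_113 : pfC (piC [(nat_lit 35404596), (nat_lit 22827826), (nat_lit 14696761)] (nat_lit 16660084)) p15_36_0 (nat_lit 3) (nat_lit 113) (nat_lit 114) = true := by decide +kernel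
def p15_36_0_114 : pfC (piC [(nat_lit 35404596), (nat_lit 22827826), (nat_lit 14696761)] (nat_lit 16660084)) p15_36_0 (nat_lit 3) (nat_lit 114) (nat_lit 115) = true := by decide +kernel
def p15_36_0_115 : pfC (piC [(nat_lit 35404596), (nat_lit 22827826), (nat_lit 14696761)] (nat_lit 16660084)) p15_36_0 (nat_lit 3) (nat_lit 115) (nat_lit 116) = true := by decide +kernel
def p15_36_0_116 : pfC (piC [(nat_lit 35404596), (nat_lit 22827826), (nat_lit 14696761)] (nat_lit 16660084)) p15_36_0 (nat_lit 3) (nat_lit 116) (nat_lit 117) = true := by decide +kernel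
def p15_36_0_117 : pfC (piC [(nat_lit 35404596), (nat_lit 22827826), (nat_lit 14696761)] (nat_lit 16660084)) p15_36_0 (nat_lit 3) (nat_lit 117) (nat_lit 118) = true := by decide +kernel
def p15_36_0_118 : pfC (piC [(nat_lit 35404596), (nat_lit 22827826), (nat_lit 14696761)] (nat_lit 16660084)) p15_36_0 (nat_lit 3) (nat_lit 118) (nat_lit 119) = true := by decide +kernel
def p15_36_0_119 : pfC (piC [(nat_lit 35404596), (nat_lit 22827826), (nat_lit 14696761)] (nat_lit 16660084)) p15_36_0 (nat_lit 3) (nat_lit 119) (nat_lit 120) = true := by decide +kernel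
def p15_36_0_120 : pfC (piC [(nat_lit 35404596), (nat_lit 22827826), (nat_lit 14696761)] (nat_lit 16660084)) p15_36_0 (nat_lit 3) (nat_lit 120) (nat_lit 121) = true := by decide +kernel
def p15_36_0_121 : pfC (piC [(nat_lit 35404596), (nat_lit 22827826), (nat_lit 14696761)] (nat_lit 16660084)) p15_36_0 (nat_lit 3) (nat_lit 121) (nat_lit 122) = true := by decide +kernel
def p15_36_0_122 : pfC (piC [(nat_lit 35404596), (nat_lit 22827826), (nat_lit 14696761)] (nat_lit 16660084)) p15_36_0 (nat_lit 3) (nat_lit 122) (nat_lit 123) = true := by decide +kernel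
def p15_36_0_123 : pfC (piC [(nat_lit 35404596), (nat_lit 22827826), (nat_lit 14696761)] (nat_lit 16660084)) p15_36_0 (nat_lit 3) (nat_lit 123) (nat_lit 124) = true := by decide +kernel
def p15_36_0_124 : pfC (piC [(nat_lit 35404596), (nat_lit 22827826), (nat_lit 14696761)] (nat_lit 16660084)) p15_36_0 (nat_lit 3) (nat_lit 124) (nat_lit 125) = true := by decide +kernel
def p15_36_0_125 : pfC (piC [(nat_lit 35404596), (nat_lit 22827826), (nat_lit 14696761)] (nat_lit 16660084)) p15_36_0 (nat_lit 3) (nat_lit 125) (nat_lit 126) = true := by decide +kernel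
def p15_36_0_126 : pfC (piC [(nat_lit 35404596), (nat_lit 22827826), (nat_lit 14696761)] (nat_lit 16660084)) p15_36_0 (nat_lit 3) (nat_lit 126) (nat_lit 127) = true := by decide +kernel
def p15_36_0_127 : pfC (piC [(nat_lit 35404596), (nat_lit 22827826), (nat_lit 14696761)] (nat_lit 16660084)) p15_36_0 (nat_lit 3) (nat_lit 127) (nat_lit 128) = true := by decide +kernel
def p15_36_0_128 : pfC (piC [(nat_lit 35404596), (nat_lit 22827826), (nat_lit 14696761)] (nat_lit 16660084)) p15_36_0 (nat_lit 3) (nat_lit 128) (nat_lit 129) = true := by decide +kernel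
def p15_36_0_129 : pfC (piC [(nat_lit 35404596), (nat_lit 22827826), (nat_lit 14696761)] (nat_lit 16660084)) p15_36_0 (nat_lit 3) (nat_lit 129) (nat_lit 130) = true := by decide +kernel
def p15_36_0_130 : pfC (piC [(nat_lit 35404596), (nat_lit 22827826), (nat_lit 14696761)] (nat_lit 16660084)) p15_36_0 (nat_lit 3) (nat_lit 130) (nat_lit 131) = true := by decide +kernel
def p15_36_0_131 : pfC (piC [(nat_lit 35404596), (nat_lit 22827826), (nat_lit 14696761)] (nat_lit 16660084)) p15_36_0 (nat_lit 3) (nat_lit 131) (nat_lit 132) = true := by decide +kernel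
def p15_36_0_132 : pfC (piC [(nat_lit 35404596), (nat_lit 22827826), (nat_lit 14696761)] (nat_lit 16660084)) p15_36_0 (nat_lit 3) (nat_lit 132) (nat_lit 133) = true := by decide +kernel
def p15_36_0_133 : pfC (piC [(nat_lit 35404596), (nat_lit 22827826), (nat_lit 14696761)] (nat_lit 16660084)) p15_36_0 (nat_lit 3) (nat_lit 133) (nat_lit 134) = true := by decide +kernel
def p15_36_0_134 : pfC (piC [(nat_lit 35404596), (nat_lit 22827826), (nat_lit 14696761)] (nat_lit 16660084)) p15_36_0 (nat_lit 3) (nat_lit 134) (nat_lit 135) = true := by decide +kernel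
def p15_36_0_135 : pfC (piC [(nat_lit 35404596), (nat_lit 22827826), (nat_lit 14696761)] (nat_lit 16660084)) p15_36_0 (nat_lit 3) (nat_lit 135) (nat_lit 136) = true := by decide +kernel
def p15_36_0_136 : pfC (piC [(nat_lit 35404596), (nat_lit 22827826), (nat_lit 14696761)] (nat_lit 16660084)) p15_36_0 (nat_lit 3) (nat_lit 136) (nat_lit 137) = true := by decide +kernel
def p15_36_0_137 : pfC (piC [(nat_lit 35404596), (nat_lit 22827826), (nat_lit 14696761)] (nat_lit 16660084)) p15_36_0 (nat_lit 3) (nat_lit 137) (nat_lit 138) = true := by decide +kernel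
def p15_36_0_138 : pfC (piC [(nat_lit 35404596), (nat_lit 22827826), (nat_lit 14696761)] (nat_lit 16660084)) p15_36_0 (nat_lit 3) (nat_lit 138) (nat_lit 139) = true := by decide +kernel
def p15_36_0_139 : pfC (piC [(nat_lit 35404596), (nat_lit 22827826), (nat_lit 14696761)] (nat_lit 16660084)) p15_36_0 (nat_lit 3) (nat_lit 139) (nat_lit 140) = true := by decide +kernel
def p15_36_0_140 : pfC (piC [(nat_lit 35404596), (nat_lit 22827826), (nat_lit 14696761)] (nat_lit 16660084)) p15_36_0 (nat_lit 3) (nat_lit 140) (nat_lit 141) = true := by decide +kernel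
def p15_36_0_141 : pfC (piC [(nat_lit 35404596), (nat_lit 22827826), (nat_lit 14696761)] (nat_lit 16660084)) p15_36_0 (nat_lit 3) (nat_lit 141) (nat_lit 142) = true := by decide +kernel
def p15_36_0_142 : pfC (piC [(nat_lit 35404596), (nat_lit 22827826), (nat_lit 14696761)] (nat_lit 16660084)) p15_36_0 (nat_lit 3) (nat_lit 142) (nat_lit 143) = true := by decide +kernel
def p15_36_0_143 : pfC (piC [(nat_lit 35404596), (nat_lit 22827826), (nat_lit 14696761)] (nat_lit 16660084)) p15_36_0 (nat_lit 3) (nat_lit 143) (nat_lit 144) = true := by decide +kernel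
def p15_36_0_144 : pfC (piC [(nat_lit 35404596), (nat_lit 22827826), (nat_lit 14696761)] (nat_lit 16660084)) p15_36_0 (nat_lit 3) (nat_lit 144) (nat_lit 145) = true := by decide +kernel
def p15_36_0_145 : pfC (piC [(nat_lit 35404596), (nat_lit 22827826), (nat_lit 14696761)] (nat_lit 16660084)) p15_36_0 (nat_lit 3) (nat_lit 145) (nat_lit 146) = true := by decide +kernel
def p15_36_0_146 : pfC (piC [(nat_lit 35404596), (nat_lit 22827826), (nat_lit 14696761)] (nat_lit 16660084)) p15_36_0 (nat_lit 3) (nat_lit 146) (nat_lit 147) = true := by decide +kernel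
def p15_36_0_147 : pfC (piC [(nat_lit 35404596), (nat_lit 22827826), (nat_lit 14696761)] (nat_lit 16660084)) p15_36_0 (nat_lit 3) (nat_lit 147) (nat_lit 148) = true := by decide +kernel
def p15_36_0_148 : pfC (piC [(nat_lit 35404596), (nat_lit 22827826), (nat_lit 14696761)] (nat_lit 16660084)) p15_36_0 (nat_lit 3) (nat_lit 148) (nat_lit 149) = true := by decide +kernel
def p15_36_0_149 : pfC (piC [(nat_lit 35404596), (nat_lit 22827826), (nat_lit 14696761)] (nat_lit 16660084)) p15_36_0 (nat_lit 3) (nat_lit 149) (nat_lit 150) = true := by decide +kernel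
def p15_36_0_150 : pfC (piC [(nat_lit 35404596), (nat_lit 22827826), (nat_lit 14696761)] (nat_lit 16660084)) p15_36_0 (nat_lit 3) (nat_lit 150) (nat_lit 151) = true := by decide +kernel
def p15_36_0_151 : pfC (piC [(nat_lit 35404596), (nat_lit 22827826), (nat_lit 14696761)] (nat_lit 16660084)) p15_36_0 (nat_lit 3) (nat_lit 151) (nat_lit 152) = true := by decide +kernel
def p15_36_0_152 : pfC (piC [(nat_lit 35404596), (nat_lit 22827826), (nat_lit 14696761)] (nat_lit 16660084)) p15_36_0 (nat_lit 3) (nat_lit 152) (nat_lit 153) = true := by decide +kernel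
def p15_36_0_153 : pfC (piC [(nat_lit 35404596), (nat_lit 22827826), (nat_lit 14696761)] (nat_lit 16660084)) p15_36_0 (nat_lit 3) (nat_lit 153) (nat_lit 154) = true := by decide +kernel
def p15_36_0_154 : pfC (piC [(nat_lit 35404596), (nat_lit 22827826), (nat_lit 14696761)] (nat_lit 16660084)) p15_36_0 (nat_lit 3) (nat_lit 154) (nat_lit 155) = true := by decide +kernel
def p15_36_0_155 : pfC (piC [(nat_lit 35404596), (nat_lit 22827826), (nat_lit 14696761)] (nat_lit 16660084)) p15_36_0 (nat_lit 3) (nat_lit 155) (nat_lit 156) = true := by decide +kernel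
def p15_36_0_156 : pfC (piC [(nat_lit 35404596), (nat_lit 22827826), (nat_lit 14696761)] (nat_lit 16660084)) p15_36_0 (nat_lit 3) (nat_lit 156) (nat_lit 157) = true := by decide +kernel
def p15_36_0_157 : pfC (piC [(nat_lit 35404596), (nat_lit 22827826), (nat_lit 14696761)] (nat_lit 16660084)) p15_36_0 (nat_lit 3) (nat_lit 157) (nat_lit 158) = true := by decide +kernel
def p15_36_0_158 : pfC (piC [(nat_lit 35404596), (nat_lit 22827826), (nat_lit 14696761)] (nat_lit 16660084)) p15_36_0 (nat_lit 3) (nat_lit 158) (nat_lit 159) = true := by decide +kernel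
def p15_36_0_159 : pfC (piC [(nat_lit 35404596), (nat_lit 22827826), (nat_lit 14696761)] (nat_lit 16660084)) p15_36_0 (nat_lit 3) (nat_lit 159) (nat_lit 160) = true := by decide +kernel
def p15_36_0_160 : pfC (piC [(nat_lit 35404596), (nat_lit 22827826), (nat_lit 14696761)] (nat_lit 16660084)) p15_36_0 (nat_lit 3) (nat_lit 160) (nat_lit 161) = true := by decide +kernel
def p15_36_0_161 : pfC (piC [(nat_lit 35404596), (nat_lit 22827826), (nat_lit 14696761)] (nat_lit 16660084)) p15_36_0 (nat_lit 3) (nat_lit 161) (nat_lit 162) = true := by decide +kernel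
def p15_36_0_162 : pfC (piC [(nat_lit 35404596), (nat_lit 22827826), (nat_lit 14696761)] (nat_lit 16660084)) p15_36_0 (nat_lit 3) (nat_lit 162) (nat_lit 163) = true := by decide +kernel
def p15_36_0_163 : pfC (piC [(nat_lit 35404596), (nat_lit 22827826), (nat_lit 14696761)] (nat_lit 16660084)) p15_36_0 (nat_lit 3) (nat_lit 163) (nat_lit 164) = true := by decide +kernel
def p15_36_0_164 : pfC (piC [(nat_lit 35404596), (nat_lit 22827826), (nat_lit 14696761)] (nat_lit 16660084)) p15_36_0 (nat_lit 3) (nat_lit 164) (nat_lit 165) = true := by decide +kernel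
def p15_36_0_165 : pfC (piC [(nat_lit 35404596), (nat_lit 22827826), (nat_lit 14696761)] (nat_lit 16660084)) p15_36_0 (nat_lit 3) (nat_lit 165) (nat_lit 166) = true := by decide +kernel
def p15_36_0_166 : pfC (piC [(nat_lit 35404596), (nat_lit 22827826), (nat_lit 14696761)] (nat_lit 16660084)) p15_36_0 (nat_lit 3) (nat_lit 166) (nat_lit 167) = true := by decide +kernel
def p15_36_0_167 : pfC (piC [(nat_lit 35404596), (nat_lit 22827826), (nat_lit 14696761)] (nat_lit 16660084)) p15_36_0 (nat_lit 3) (nat_lit 167) (nat_lit 168) = true := by decide +kernel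
def p15_36_0_168 : pfC (piC [(nat_lit 35404596), (nat_lit 22827826), (nat_lit 14696761)] (nat_lit 16660084)) p15_36_0 (nat_lit 3) (nat_lit 168) (nat_lit 169) = true := by decide +kernel
def p15_36_0_169 : pfC (piC [(nat_lit 35404596), (nat_lit 22827826), (nat_lit 14696761)] (nat_lit 16660084)) p15_36_0 (nat_lit 3) (nat_lit 169) (nat_lit 170) = true := by decide +kernel
def p15_36_0_170 : pfC (piC [(nat_lit 35404596), (nat_lit 22827826), (nat_lit 14696761)] (nat_lit 16660084)) p15_36_0 (nat_lit 3) (nat_lit 170) (nat_lit 171) = true := by decide +kernel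
def p15_36_0_171 : pfC (piC [(nat_lit 35404596), (nat_lit 22827826), (nat_lit 14696761)] (nat_lit 16660084)) p15_36_0 (nat_lit 3) (nat_lit 171) (nat_lit 172) = true := by decide +kernel
def p15_36_0_172 : pfC (piC [(nat_lit 35404596), (nat_lit 22827826), (nat_lit 14696761)] (nat_lit 16660084)) p15_36_0 (nat_lit 3) (nat_lit 172) (nat_lit 173) = true := by decide +kernel
def p15_36_0_173 : pfC (piC [(nat_lit 35404596), (nat_lit 22827826), (nat_lit 14696761)] (nat_lit 16660084)) p15_36_0 (nat_lit 3) (nat_lit 173) (nat_lit 174) = true := by decide +kernel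
def p15_36_0_174 : pfC (piC [(nat_lit 35404596), (nat_lit 22827826), (nat_lit 14696761)] (nat_lit 16660084)) p15_36_0 (nat_lit 3) (nat_lit 174) (nat_lit 175) = true := by decide +kernel
def p15_36_0_175 : pfC (piC [(nat_lit 35404596), (nat_lit 22827826), (nat_lit 14696761)] (nat_lit 16660084)) p15_36_0 (nat_lit 3) (nat_lit 175) (nat_lit 176) = true := by decide +kernel
def p15_36_0_176 : pfC (piC [(nat_lit 35404596), (nat_lit 22827826), (nat_lit 14696761)] (nat_lit 16660084)) p15_36_0 (nat_lit 3) (nat_lit 176) (nat_lit 177) = true := by decide +kernel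
def p15_36_0_177 : pfC (piC [(nat_lit 35404596), (nat_lit 22827826), (nat_lit 14696761)] (nat_lit 16660084)) p15_36_0 (nat_lit 3) (nat_lit 177) (nat_lit 178) = true := by decide +kernel
def p15_36_0_178 : pfC (piC [(nat_lit 35404596), (nat_lit 22827826), (nat_lit 14696761)] (nat_lit 16660084)) p15_36_0 (nat_lit 3) (nat_lit 178) (nat_lit 179) = true := by decide +kernel
def p15_36_0_179 : pfC (piC [(nat_lit 35404596), (nat_lit 22827826), (nat_lit 14696761)] (nat_lit 16660084)) p15_36_0 (nat_lit 3) (nat_lit 179) (nat_lit 180) = true := by decide +kernel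
def p15_36_0_180 : pfC (piC [(nat_lit 35404596), (nat_lit 22827826), (nat_lit 14696761)] (nat_lit 16660084)) p15_36_0 (nat_lit 3) (nat_lit 180) (nat_lit 181) = true := by decide +kernel
def p15_36_0_181 : pfC (piC [(nat_lit 35404596), (nat_lit 22827826), (nat_lit 14696761)] (nat_lit 16660084)) p15_36_0 (nat_lit 3) (nat_lit 181) (nat_lit 182) = true := by decide +kernel
def p15_36_0_182 : pfC (piC [(nat_lit 35404596), (nat_lit 22827826), (nat_lit 14696761)] (nat_lit 16660084)) p15_36_0 (nat_lit 3) (nat_lit 182) (nat_lit 183) = true := by decide +kernel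
def p15_36_0_183 : pfC (piC [(nat_lit 35404596), (nat_lit 22827826), (nat_lit 14696761)] (nat_lit 16660084)) p15_36_0 (nat_lit 3) (nat_lit 183) (nat_lit 184) = true := by decide +kernel
def p15_36_0_184 : pfC (piC [(nat_lit 35404596), (nat_lit 22827826), (nat_lit 14696761)] (nat_lit 16660084)) p15_36_0 (nat_lit 3) (nat_lit 184) (nat_lit 185) = true := by decide +kernel
def p15_36_0_185 : pfC (piC [(nat_lit 35404596), (nat_lit 22827826), (nat_lit 14696761)] (nat_lit 16660084)) p15_36_0 (nat_lit 3) (nat_lit 185) (nat_lit 186) = true := by decide +kernel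
def p15_36_0_186 : pfC (piC [(nat_lit 35404596), (nat_lit 22827826), (nat_lit 14696761)] (nat_lit 16660084)) p15_36_0 (nat_lit 3) (nat_lit 186) (nat_lit 187) = true := by decide +kernel
def p15_36_0_187 : pfC (piC [(nat_lit 35404596), (nat_lit 22827826), (nat_lit 14696761)] (nat_lit 16660084)) p15_36_0 (nat_lit 3) (nat_lit 187) (nat_lit 188) = true := by decide +kernel
def p15_36_0_188 : pfC (piC [(nat_lit 35404596), (nat_lit 22827826), (nat_lit 14696761)] (nat_lit 16660084)) p15_36_0 (nat_lit 3) (nat_lit 188) (nat_lit 189) = true := by decide +kernel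
def p15_36_0_189 : pfC (piC [(nat_lit 35404596), (nat_lit 22827826), (nat_lit 14696761)] (nat_lit 16660084)) p15_36_0 (nat_lit 3) (nat_lit 189) (nat_lit 190) = true := by decide +kernel
def p15_36_0_190 : pfC (piC [(nat_lit 35404596), (nat_lit 22827826), (nat_lit 14696761)] (nat_lit 16660084)) p15_36_0 (nat_lit 3) (nat_lit 190) (nat_lit 191) = true := by decide +kernel
def p15_36_0_191 : pfC (piC [(nat_lit 35404596), (nat_lit 22827826), (nat_lit 14696761)] (nat_lit 16660084)) p15_36_0 (nat_lit 3) (nat_lit 191) (nat_lit 192) = true := by decide +kernel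
def p15_36_0_192 : pfC (piC [(nat_lit 35404596), (nat_lit 22827826), (nat_lit 14696761)] (nat_lit 16660084)) p15_36_0 (nat_lit 3) (nat_lit 192) (nat_lit 193) = true := by decide +kernel
def p15_36_0_193 : pfC (piC [(nat_lit 35404596), (nat_lit 22827826), (nat_lit 14696761)] (nat_lit 16660084)) p15_36_0 (nat_lit 3) (nat_lit 193) (nat_lit 194) = true := by decide +kernel
def p15_36_0_194 : pfC (piC [(nat_lit 35404596), (nat_lit 22827826), (nat_lit 14696761)] (nat_lit 16660084)) p15_36_0 (nat_lit 3) (nat_lit 194) (nat_lit 195) = true := by decide +kernel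
def p15_36_0_195 : pfC (piC [(nat_lit 35404596), (nat_lit 22827826), (nat_lit 14696761)] (nat_lit 16660084)) p15_36_0 (nat_lit 3) (nat_lit 195) (nat_lit 196) = true := by decide +kernel
def p15_36_0_196 : pfC (piC [(nat_lit 35404596), (nat_lit 22827826), (nat_lit 14696761)] (nat_lit 16660084)) p15_36_0 (nat_lit 3) (nat_lit 196) (nat_lit 197) = true := by decide +kernel
def p15_36_0_197 : pfC (piC [(nat_lit 35404596), (nat_lit 22827826), (nat_lit 14696761)] (nat_lit 16660084)) p15_36_0 (nat_lit 3) (nat_lit 197) (nat_lit 198) = true := by decide +kernel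
def p15_36_0_198 : pfC (piC [(nat_lit 35404596), (nat_lit 22827826), (nat_lit 14696761)] (nat_lit 16660084)) p15_36_0 (nat_lit 3) (nat_lit 198) (nat_lit 199) = true := by decide +kernel
def p15_36_0_199 : pfC (piC [(nat_lit 35404596), (nat_lit 22827826), (nat_lit 14696761)] (nat_lit 16660084)) p15_36_0 (nat_lit 3) (nat_lit 199) (nat_lit 200) = true := by decide +kernel
def p15_36_0_200 : pfC (piC [(nat_lit 35404596), (nat_lit 22827826), (nat_lit 14696761)] (nat_lit 16660084)) p15_36_0 (nat_lit 3) (nat_lit 200) (nat_lit 201) = true := by decide +kernel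
def p15_36_0_201 : pfC (piC [(nat_lit 35404596), (nat_lit 22827826), (nat_lit 14696761)] (nat_lit 16660084)) p15_36_0 (nat_lit 3) (nat_lit 201) (nat_lit 202) = true := by decide +kernel
def p15_36_0_202 : pfC (piC [(nat_lit 35404596), (nat_lit 22827826), (nat_lit 14696761)] (nat_lit 16660084)) p15_36_0 (nat_lit 3) (nat_lit 202) (nat_lit 203) = true := by decide +kernel
def p15_36_0_203 : pfC (piC [(nat_lit 35404596), (nat_lit 22827826), (nat_lit 14696761)] (nat_lit 16660084)) p15_36_0 (nat_lit 3) (nat_lit 203) (nat_lit 204) = true := by decide +kernel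
def p15_36_0_204 : pfC (piC [(nat_lit 35404596), (nat_lit 22827826), (nat_lit 14696761)] (nat_lit 16660084)) p15_36_0 (nat_lit 3) (nat_lit 204) (nat_lit 205) = true := by decide +kernel
def p15_36_0_205 : pfC (piC [(nat_lit 35404596), (nat_lit 22827826), (nat_lit 14696761)] (nat_lit 16660084)) p15_36_0 (nat_lit 3) (nat_lit 205) (nat_lit 206) = true := by decide +kernel
def p15_36_0_206 : pfC (piC [(nat_lit 35404596), (nat_lit 22827826), (nat_lit 14696761)] (nat_lit 16660084)) p15_36_0 (nat_lit 3) (nat_lit 206) (nat_lit 207) = true := by decide +kernel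
def p15_36_0_207 : pfC (piC [(nat_lit 35404596), (nat_lit 22827826), (nat_lit 14696761)] (nat_lit 16660084)) p15_36_0 (nat_lit 3) (nat_lit 207) (nat_lit 208) = true := by decide +kernel
def p15_36_0_208 : pfC (piC [(nat_lit 35404596), (nat_lit 22827826), (nat_lit 14696761)] (nat_lit 16660084)) p15_36_0 (nat_lit 3) (nat_lit 208) (nat_lit 209) = true := by decide +kernel
def p15_36_0_209 : pfC (piC [(nat_lit 35404596), (nat_lit 22827826), (nat_lit 14696761)] (nat_lit 16660084)) p15_36_0 (nat_lit 3) (nat_lit 209) (nat_lit 210) = true := by decide +kernel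
def p15_36_0_210 : pfC (piC [(nat_lit 35404596), (nat_lit 22827826), (nat_lit 14696761)] (nat_lit 16660084)) p15_36_0 (nat_lit 3) (nat_lit 210) (nat_lit 211) = true := by decide +kernel
def p15_36_0_211 : pfC (piC [(nat_lit 35404596), (nat_lit 22827826), (nat_lit 14696761)] (nat_lit 16660084)) p15_36_0 (nat_lit 3) (nat_lit 211) (nat_lit 212) = true := by decide +kernel
def p15_36_0_212 : pfC (piC [(nat_lit 35404596), (nat_lit 22827826), (nat_lit 14696761)] (nat_lit 16660084)) p15_36_0 (nat_lit 3) (nat_lit 212) (nat_lit 213) = true := by decide +kernel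
def p15_36_0_213 : pfC (piC [(nat_lit 35404596), (nat_lit 22827826), (nat_lit 14696761)] (nat_lit 16660084)) p15_36_0 (nat_lit 3) (nat_lit 213) (nat_lit 214) = true := by decide +kernel
def p15_36_0_214 : pfC (piC [(nat_lit 35404596), (nat_lit 22827826), (nat_lit 14696761)] (nat_lit 16660084)) p15_36_0 (nat_lit 3) (nat_lit 214) (nat_lit 215) = true := by decide +kernel
def p15_36_0_215 : pfC (piC [(nat_lit 35404596), (nat_lit 22827826), (nat_lit 14696761)] (nat_lit 16660084)) p15_36_0 (nat_lit 3) (nat_lit 215) (nat_lit 216) = true := by decide +kernel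
def p15_36_0_216 : pfC (piC [(nat_lit 35404596), (nat_lit 22827826), (nat_lit 14696761)] (nat_lit 16660084)) p15_36_0 (nat_lit 3) (nat_lit 216) (nat_lit 217) = true := by decide +kernel
def p15_36_0_217 : pfC (piC [(nat_lit 35404596), (nat_lit 22827826), (nat_lit 14696761)] (nat_lit 16660084)) p15_36_0 (nat_lit 3) (nat_lit 217) (nat_lit 218) = true := by decide +kernel
def p15_36_0_218 : pfC (piC [(nat_lit 35404596), (nat_lit 22827826), (nat_lit 14696761)] (nat_lit 16660084)) p15_36_0 (nat_lit 3) (nat_lit 218) (nat_lit 219) = true := by decide +kernel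
def p15_36_0_219 : pfC (piC [(nat_lit 35404596), (nat_lit 22827826), (nat_lit 14696761)] (nat_lit 16660084)) p15_36_0 (nat_lit 3) (nat_lit 219) (nat_lit 220) = true := by decide +kernel
def p15_36_0_220 : pfC (piC [(nat_lit 35404596), (nat_lit 22827826), (nat_lit 14696761)] (nat_lit 16660084)) p15_36_0 (nat_lit 3) (nat_lit 220) (nat_lit 221) = true := by decide +kernel
def p15_36_0_221 : pfC (piC [(nat_lit 35404596), (nat_lit 22827826), (nat_lit 14696761)] (nat_lit 16660084)) p15_36_0 (nat_lit 3) (nat_lit 221) (nat_lit 222) = true := by decide +kernel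
def p15_36_0_222 : pfC (piC [(nat_lit 35404596), (nat_lit 22827826), (nat_lit 14696761)] (nat_lit 16660084)) p15_36_0 (nat_lit 3) (nat_lit 222) (nat_lit 223) = true := by decide +kernel
def p15_36_0_223 : pfC (piC [(nat_lit 35404596), (nat_lit 22827826), (nat_lit 14696761)] (nat_lit 16660084)) p15_36_0 (nat_lit 3) (nat_lit 223) (nat_lit 224) = true := by decide +kernel
def p15_36_0_224 : pfC (piC [(nat_lit 35404596), (nat_lit 22827826), (nat_lit 14696761)] (nat_lit 16660084)) p15_36_0 (nat_lit 3) (nat_lit 224) (nat_lit 225) = true := by decide +kernel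
def p15_36_0_225 : pfC (piC [(nat_lit 35404596), (nat_lit 22827826), (nat_lit 14696761)] (nat_lit 16660084)) p15_36_0 (nat_lit 3) (nat_lit 225) (nat_lit 226) = true := by decide +kernel
def p15_36_0_226 : pfC (piC [(nat_lit 35404596), (nat_lit 22827826), (nat_lit 14696761)] (nat_lit 16660084)) p15_36_0 (nat_lit 3) (nat_lit 226) (nat_lit 227) = true := by decide +kernel
def p15_36_0_227 : pfC (piC [(nat_lit 35404596), (nat_lit 22827826), (nat_lit 14696761)] (nat_lit 16660084)) p15_36_0 (nat_lit 3) (nat_lit 227) (nat_lit 228) = true := by decide +kernel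
def p15_36_0_228 : pfC (piC [(nat_lit 35404596), (nat_lit 22827826), (nat_lit 14696761)] (nat_lit 16660084)) p15_36_0 (nat_lit 3) (nat_lit 228) (nat_lit 229) = true := by decide +kernel
def p15_36_0_229 : pfC (piC [(nat_lit 35404596), (nat_lit 22827826), (nat_lit 14696761)] (nat_lit 16660084)) p15_36_0 (nat_lit 3) (nat_lit 229) (nat_lit 230) = true := by decide +kernel
def p15_36_0_230 : pfC (piC [(nat_lit 35404596), (nat_lit 22827826), (nat_lit 14696761)] (nat_lit 16660084)) p15_36_0 (nat_lit 3) (nat_lit 230) (nat_lit 231) = true := by decide +kernel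
def p15_36_0_231 : pfC (piC [(nat_lit 35404596), (nat_lit 22827826), (nat_lit 14696761)] (nat_lit 16660084)) p15_36_0 (nat_lit 3) (nat_lit 231) (nat_lit 232) = true := by decide +kernel
def p15_36_0_232 : pfC (piC [(nat_lit 35404596), (nat_lit 22827826), (nat_lit 14696761)] (nat_lit 16660084)) p15_36_0 (nat_lit 3) (nat_lit 232) (nat_lit 233) = true := by decide +kernel
def p15_36_0_233 : pfC (piC [(nat_lit 35404596), (nat_lit 22827826), (nat_lit 14696761)] (nat_lit 16660084)) p15_36_0 (nat_lit 3) (nat_lit 233) (nat_lit 234) = true := by decide +kernel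
def p15_36_0_234 : pfC (piC [(nat_lit 35404596), (nat_lit 22827826), (nat_lit 14696761)] (nat_lit 16660084)) p15_36_0 (nat_lit 3) (nat_lit 234) (nat_lit 235) = true := by decide +kernel
def p15_36_0_235 : pfC (piC [(nat_lit 35404596), (nat_lit 22827826), (nat_lit 14696761)] (nat_lit 16660084)) p15_36_0 (nat_lit 3) (nat_lit 235) (nat_lit 236) = true := by decide +kernel
def p15_36_0_236 : pfC (piC [(nat_lit 35404596), (nat_lit 22827826), (nat_lit 14696761)] (nat_lit 16660084)) p15_36_0 (nat_lit 3) (nat_lit 236) (nat_lit 237) = true := by decide +kernel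
def p15_36_0_237 : pfC (piC [(nat_lit 35404596), (nat_lit 22827826), (nat_lit 14696761)] (nat_lit 16660084)) p15_36_0 (nat_lit 3) (nat_lit 237) (nat_lit 238) = true := by decide +kernel
def p15_36_0_238 : pfC (piC [(nat_lit 35404596), (nat_lit 22827826), (nat_lit 14696761)] (nat_lit 16660084)) p15_36_0 (nat_lit 3) (nat_lit 238) (nat_lit 239) = true := by decide +kernel
def p15_36_0_239 : pfC (piC [(nat_lit 35404596), (nat_lit 22827826), (nat_lit 14696761)] (nat_lit 16660084)) p15_36_0 (nat_lit 3) (nat_lit 239) (nat_lit 240) = true := by decide +kernel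
def p15_36_0_240 : pfC (piC [(nat_lit 35404596), (nat_lit 22827826), (nat_lit 14696761)] (nat_lit 16660084)) p15_36_0 (nat_lit 3) (nat_lit 240) (nat_lit 241) = true := by decide +kernel
def p15_36_0_241 : pfC (piC [(nat_lit 35404596), (nat_lit 22827826), (nat_lit 14696761)] (nat_lit 16660084)) p15_36_0 (nat_lit 3) (nat_lit 241) (nat_lit 242) = true := by decide +kernel
def p15_36_0_242 : pfC (piC [(nat_lit 35404596), (nat_lit 22827826), (nat_lit 14696761)] (nat_lit 16660084)) p15_36_0 (nat_lit 3) (nat_lit 242) (nat_lit 243) = true := by decide +kernel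
def p15_36_0_243 : pfC (piC [(nat_lit 35404596), (nat_lit 22827826), (nat_lit 14696761)] (nat_lit 16660084)) p15_36_0 (nat_lit 3) (nat_lit 243) (nat_lit 244) = true := by decide +kernel
def p15_36_0_244 : pfC (piC [(nat_lit 35404596), (nat_lit 22827826), (nat_lit 14696761)] (nat_lit 16660084)) p15_36_0 (nat_lit 3) (nat_lit 244) (nat_lit 245) = true := by decide +kernel
def p15_36_0_245 : pfC (piC [(nat_lit 35404596), (nat_lit 22827826), (nat_lit 14696761)] (nat_lit 16660084)) p15_36_0 (nat_lit 3) (nat_lit 245) (nat_lit 246) = true := by decide +kernel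
def p15_36_0_246 : pfC (piC [(nat_lit 35404596), (nat_lit 22827826), (nat_lit 14696761)] (nat_lit 16660084)) p15_36_0 (nat_lit 3) (nat_lit 246) (nat_lit 247) = true := by decide +kernel
def p15_36_0_247 : pfC (piC [(nat_lit 35404596), (nat_lit 22827826), (nat_lit 14696761)] (nat_lit 16660084)) p15_36_0 (nat_lit 3) (nat_lit 247) (nat_lit 248) = true := by decide +kernel
def p15_36_0_248 : pfC (piC [(nat_lit 35404596), (nat_lit 22827826), (nat_lit 14696761)] (nat_lit 16660084)) p15_36_0 (nat_lit 3) (nat_lit 248) (nat_lit 249) = true := by decide +kernel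
def p15_36_0_249 : pfC (piC [(nat_lit 35404596), (nat_lit 22827826), (nat_lit 14696761)] (nat_lit 16660084)) p15_36_0 (nat_lit 3) (nat_lit 249) (nat_lit 250) = true := by decide +kernel
def p15_36_0_250 : pfC (piC [(nat_lit 35404596), (nat_lit 22827826), (nat_lit 14696761)] (nat_lit 16660084)) p15_36_0 (nat_lit 3) (nat_lit 250) (nat_lit 251) = true := by decide +kernel
def p15_36_0_251 : pfC (piC [(nat_lit 35404596), (nat_lit 22827826), (nat_lit 14696761)] (nat_lit 16660084)) p15_36_0 (nat_lit 3) (nat_lit 251) (nat_lit 252) = true := by decide +kernel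
def p15_36_0_252 : pfC (piC [(nat_lit 35404596), (nat_lit 22827826), (nat_lit 14696761)] (nat_lit 16660084)) p15_36_0 (nat_lit 3) (nat_lit 252) (nat_lit 253) = true := by decide +kernel
def p15_36_0_253 : pfC (piC [(nat_lit 35404596), (nat_lit 22827826), (nat_lit 14696761)] (nat_lit 16660084)) p15_36_0 (nat_lit 3) (nat_lit 253) (nat_lit 254) = true := by decide +kernel
def p15_36_0_254 : pfC (piC [(nat_lit 35404596), (nat_lit 22827826), (nat_lit 14696761)] (nat_lit 16660084)) p15_36_0 (nat_lit 3) (nat_lit 254) (nat_lit 255) = true := by decide +kernel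
def p15_36_0_255 : pfC (piC [(nat_lit 35404596), (nat_lit 22827826), (nat_lit 14696761)] (nat_lit 16660084)) p15_36_0 (nat_lit 3) (nat_lit 255) (nat_lit 256) = true := by decide +kernel
def p15_36_0_256 : pfC (piC [(nat_lit 35404596), (nat_lit 22827826), (nat_lit 14696761)] (nat_lit 16660084)) p15_36_0 (nat_lit 3) (nat_lit 256) (nat_lit 257) = true := by decide +kernel
def p15_36_0_257 : pfC (piC [(nat_lit 35404596), (nat_lit 22827826), (nat_lit 14696761)] (nat_lit 16660084)) p15_36_0 (nat_lit 3) (nat_lit 257) (nat_lit 258) = true := by decide +kernel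
def p15_36_0_258 : pfC (piC [(nat_lit 35404596), (nat_lit 22827826), (nat_lit 14696761)] (nat_lit 16660084)) p15_36_0 (nat_lit 3) (nat_lit 258) (nat_lit 259) = true := by decide +kernel
def p15_36_0_259 : pfC (piC [(nat_lit 35404596), (nat_lit 22827826), (nat_lit 14696761)] (nat_lit 16660084)) p15_36_0 (nat_lit 3) (nat_lit 259) (nat_lit 260) = true := by decide +kernel
def p15_36_0_260 : pfC (piC [(nat_lit 35404596), (nat_lit 22827826), (nat_lit 14696761)] (nat_lit 16660084)) p15_36_0 (nat_lit 3) (nat_lit 260) (nat_lit 261) = true := by decide +kernel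
def p15_36_0_261 : pfC (piC [(nat_lit 35404596), (nat_lit 22827826), (nat_lit 14696761)] (nat_lit 16660084)) p15_36_0 (nat_lit 3) (nat_lit 261) (nat_lit 262) = true := by decide +kernel
def p15_36_0_262 : pfC (piC [(nat_lit 35404596), (nat_lit 22827826), (nat_lit 14696761)] (nat_lit 16660084)) p15_36_0 (nat_lit 3) (nat_lit 262) (nat_lit 263) = true := by decide +kernel
def p15_36_0_263 : pfC (piC [(nat_lit 35404596), (nat_lit 22827826), (nat_lit 14696761)] (nat_lit 16660084)) p15_36_0 (nat_lit 3) (nat_lit 263) (nat_lit 264) = true := by decide +kernel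
def p15_36_0_264 : pfC (piC [(nat_lit 35404596), (nat_lit 22827826), (nat_lit 14696761)] (nat_lit 16660084)) p15_36_0 (nat_lit 3) (nat_lit 264) (nat_lit 265) = true := by decide +kernel
def p15_36_0_265 : pfC (piC [(nat_lit 35404596), (nat_lit 22827826), (nat_lit 14696761)] (nat_lit 16660084)) p15_36_0 (nat_lit 3) (nat_lit 265) (nat_lit 266) = true := by decide +kernel
def p15_36_0_266 : pfC (piC [(nat_lit 35404596), (nat_lit 22827826), (nat_lit 14696761)] (nat_lit 16660084)) p15_36_0 (nat_lit 3) (nat_lit 266) (nat_lit 267) = true := by decide +kernel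
def p15_36_0_267 : pfC (piC [(nat_lit 35404596), (nat_lit 22827826), (nat_lit 14696761)] (nat_lit 16660084)) p15_36_0 (nat_lit 3) (nat_lit 267) (nat_lit 268) = true := by decide +kernel
def p15_36_0_268 : pfC (piC [(nat_lit 35404596), (nat_lit 22827826), (nat_lit 14696761)] (nat_lit 16660084)) p15_36_0 (nat_lit 3) (nat_lit 268) (nat_lit 269) = true := by decide +kernel
def p15_36_0_269 : pfC (piC [(nat_lit 35404596), (nat_lit 22827826), (nat_lit 14696761)] (nat_lit 16660084)) p15_36_0 (nat_lit 3) (nat_lit 269) (nat_lit 270) = true := by decide +kernel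
def p15_36_0_270 : pfC (piC [(nat_lit 35404596), (nat_lit 22827826), (nat_lit 14696761)] (nat_lit 16660084)) p15_36_0 (nat_lit 3) (nat_lit 270) (nat_lit 271) = true := by decide +kernel
def p15_36_0_271 : pfC (piC [(nat_lit 35404596), (nat_lit 22827826), (nat_lit 14696761)] (nat_lit 16660084)) p15_36_0 (nat_lit 3) (nat_lit 271) (nat_lit 272) = true := by decide +kernel
def p15_36_0_272 : pfC (piC [(nat_lit 35404596), (nat_lit 22827826), (nat_lit 14696761)] (nat_lit 16660084)) p15_36_0 (nat_lit 3) (nat_lit 272) (nat_lit 273) = true := by decide +kernel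
def p15_36_0_273 : pfC (piC [(nat_lit 35404596), (nat_lit 22827826), (nat_lit 14696761)] (nat_lit 16660084)) p15_36_0 (nat_lit 3) (nat_lit 273) (nat_lit 274) = true := by decide +kernel
def p15_36_0_274 : pfC (piC [(nat_lit 35404596), (nat_lit 22827826), (nat_lit 14696761)] (nat_lit 16660084)) p15_36_0 (nat_lit 3) (nat_lit 274) (nat_lit 275) = true := by decide +kernel
def p15_36_0_275 : pfC (piC [(nat_lit 35404596), (nat_lit 22827826), (nat_lit 14696761)] (nat_lit 16660084)) p15_36_0 (nat_lit 3) (nat_lit 275) (nat_lit 276) = true := by decide +kernel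
def p15_36_0_276 : pfC (piC [(nat_lit 35404596), (nat_lit 22827826), (nat_lit 14696761)] (nat_lit 16660084)) p15_36_0 (nat_lit 3) (nat_lit 276) (nat_lit 277) = true := by decide +kernel
def p15_36_0_277 : pfC (piC [(nat_lit 35404596), (nat_lit 22827826), (nat_lit 14696761)] (nat_lit 16660084)) p15_36_0 (nat_lit 3) (nat_lit 277) (nat_lit 278) = true := by decide +kernel
def p15_36_0_278 : pfC (piC [(nat_lit 35404596), (nat_lit 22827826), (nat_lit 14696761)] (nat_lit 16660084)) p15_36_0 (nat_lit 3) (nat_lit 278) (nat_lit 279) = true := by decide +kernel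
def p15_36_0_279 : pfC (piC [(nat_lit 35404596), (nat_lit 22827826), (nat_lit 14696761)] (nat_lit 16660084)) p15_36_0 (nat_lit 3) (nat_lit 279) (nat_lit 280) = true := by decide +kernel
def p15_36_0_280 : pfC (piC [(nat_lit 35404596), (nat_lit 22827826), (nat_lit 14696761)] (nat_lit 16660084)) p15_36_0 (nat_lit 3) (nat_lit 280) (nat_lit 281) = true := by decide +kernel
def p15_36_0_281 : pfC (piC [(nat_lit 35404596), (nat_lit 22827826), (nat_lit 14696761)] (nat_lit 16660084)) p15_36_0 (nat_lit 3) (nat_lit 281) (nat_lit 282) = true := by decide +kernel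
def p15_36_0_282 : pfC (piC [(nat_lit 35404596), (nat_lit 22827826), (nat_lit 14696761)] (nat_lit 16660084)) p15_36_0 (nat_lit 3) (nat_lit 282) (nat_lit 283) = true := by decide +kernel
def p15_36_0_283 : pfC (piC [(nat_lit 35404596), (nat_lit 22827826), (nat_lit 14696761)] (nat_lit 16660084)) p15_36_0 (nat_lit 3) (nat_lit 283) (nat_lit 284) = true := by decide +kernel
def p15_36_0_284 : pfC (piC [(nat_lit 35404596), (nat_lit 22827826), (nat_lit 14696761)] (nat_lit 16660084)) p15_36_0 (nat_lit 3) (nat_lit 284) (nat_lit 285) = true := by decide +kernel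
def p15_36_0_285 : pfC (piC [(nat_lit 35404596), (nat_lit 22827826), (nat_lit 14696761)] (nat_lit 16660084)) p15_36_0 (nat_lit 3) (nat_lit 285) (nat_lit 286) = true := by decide +kernel
def p15_36_0_286 : pfC (piC [(nat_lit 35404596), (nat_lit 22827826), (nat_lit 14696761)] (nat_lit 16660084)) p15_36_0 (nat_lit 3) (nat_lit 286) (nat_lit 287) = true := by decide +kernel
def p15_36_0_287 : pfC (piC [(nat_lit 35404596), (nat_lit 22827826), (nat_lit 14696761)] (nat_lit 16660084)) p15_36_0 (nat_lit 3) (nat_lit 287) (nat_lit 288) = true := by decide +kernel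
def p15_36_0_288 : pfC (piC [(nat_lit 35404596), (nat_lit 22827826), (nat_lit 14696761)] (nat_lit 16660084)) p15_36_0 (nat_lit 3) (nat_lit 288) (nat_lit 289) = true := by decide +kernel
def p15_36_0_289 : pfC (piC [(nat_lit 35404596), (nat_lit 22827826), (nat_lit 14696761)] (nat_lit 16660084)) p15_36_0 (nat_lit 3) (nat_lit 289) (nat_lit 290) = true := by decide +kernel
def p15_36_0_290 : pfC (piC [(nat_lit 35404596), (nat_lit 22827826), (nat_lit 14696761)] (nat_lit 16660084)) p15_36_0 (nat_lit 3) (nat_lit 290) (nat_lit 291) = true := by decide +kernel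
def p15_36_0_291 : pfC (piC [(nat_lit 35404596), (nat_lit 22827826), (nat_lit 14696761)] (nat_lit 16660084)) p15_36_0 (nat_lit 3) (nat_lit 291) (nat_lit 292) = true := by decide +kernel
def p15_36_0_292 : pfC (piC [(nat_lit 35404596), (nat_lit 22827826), (nat_lit 14696761)] (nat_lit 16660084)) p15_36_0 (nat_lit 3) (nat_lit 292) (nat_lit 293) = true := by decide +kernel
def p15_36_0_293 : pfC (piC [(nat_lit 35404596), (nat_lit 22827826), (nat_lit 14696761)] (nat_lit 16660084)) p15_36_0 (nat_lit 3) (nat_lit 293) (nat_lit 294) = true := by decide +kernel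
def p15_36_0_294 : pfC (piC [(nat_lit 35404596), (nat_lit 22827826), (nat_lit 14696761)] (nat_lit 16660084)) p15_36_0 (nat_lit 3) (nat_lit 294) (nat_lit 295) = true := by decide +kernel
def p15_36_0_295 : pfC (piC [(nat_lit 35404596), (nat_lit 22827826), (nat_lit 14696761)] (nat_lit 16660084)) p15_36_0 (nat_lit 3) (nat_lit 295) (nat_lit 296) = true := by decide +kernel
def p15_36_0_296 : pfC (piC [(nat_lit 35404596), (nat_lit 22827826), (nat_lit 14696761)] (nat_lit 16660084)) p15_36_0 (nat_lit 3) (nat_lit 296) (nat_lit 297) = true := by decide +kernel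
def p15_36_0_297 : pfC (piC [(nat_lit 35404596), (nat_lit 22827826), (nat_lit 14696761)] (nat_lit 16660084)) p15_36_0 (nat_lit 3) (nat_lit 297) (nat_lit 298) = true := by decide +kernel
def p15_36_0_298 : pfC (piC [(nat_lit 35404596), (nat_lit 22827826), (nat_lit 14696761)] (nat_lit 16660084)) p15_36_0 (nat_lit 3) (nat_lit 298) (nat_lit 299) = true := by decide +kernel
def p15_36_0_299 : pfC (piC [(nat_lit 35404596), (nat_lit 22827826), (nat_lit 14696761)] (nat_lit 16660084)) p15_36_0 (nat_lit 3) (nat_lit 299) (nat_lit 300) = true := by decide +kernel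
def p15_36_0_300 : pfC (piC [(nat_lit 35404596), (nat_lit 22827826), (nat_lit 14696761)] (nat_lit 16660084)) p15_36_0 (nat_lit 3) (nat_lit 300) (nat_lit 301) = true := by decide +kernel
def p15_36_0_301 : pfC (piC [(nat_lit 35404596), (nat_lit 22827826), (nat_lit 14696761)] (nat_lit 16660084)) p15_36_0 (nat_lit 3) (nat_lit 301) (nat_lit 302) = true := by decide +kernel
def p15_36_0_302 : pfC (piC [(nat_lit 35404596), (nat_lit 22827826), (nat_lit 14696761)] (nat_lit 16660084)) p15_36_0 (nat_lit 3) (nat_lit 302) (nat_lit 303) = true := by decide +kernel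
def p15_36_0_303 : pfC (piC [(nat_lit 35404596), (nat_lit 22827826), (nat_lit 14696761)] (nat_lit 16660084)) p15_36_0 (nat_lit 3) (nat_lit 303) (nat_lit 304) = true := by decide +kernel
def p15_36_0_304 : pfC (piC [(nat_lit 35404596), (nat_lit 22827826), (nat_lit 14696761)] (nat_lit 16660084)) p15_36_0 (nat_lit 3) (nat_lit 304) (nat_lit 305) = true := by decide +kernel
def p15_36_0_305 : pfC (piC [(nat_lit 35404596), (nat_lit 22827826), (nat_lit 14696761)] (nat_lit 16660084)) p15_36_0 (nat_lit 3) (nat_lit 305) (nat_lit 306) = true := by decide +kernel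
def p15_36_0_306 : pfC (piC [(nat_lit 35404596), (nat_lit 22827826), (nat_lit 14696761)] (nat_lit 16660084)) p15_36_0 (nat_lit 3) (nat_lit 306) (nat_lit 307) = true := by decide +kernel
def p15_36_0_307 : pfC (piC [(nat_lit 35404596), (nat_lit 22827826), (nat_lit 14696761)] (nat_lit 16660084)) p15_36_0 (nat_lit 3) (nat_lit 307) (nat_lit 308) = true := by decide +kernel
def p15_36_0_308 : pfC (piC [(nat_lit 35404596), (nat_lit 22827826), (nat_lit 14696761)] (nat_lit 16660084)) p15_36_0 (nat_lit 3) (nat_lit 308) (nat_lit 309) = true := by decide +kernel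
def p15_36_0_309 : pfC (piC [(nat_lit 35404596), (nat_lit 22827826), (nat_lit 14696761)] (nat_lit 16660084)) p15_36_0 (nat_lit 3) (nat_lit 309) (nat_lit 310) = true := by decide +kernel
def p15_36_0_310 : pfC (piC [(nat_lit 35404596), (nat_lit 22827826), (nat_lit 14696761)] (nat_lit 16660084)) p15_36_0 (nat_lit 3) (nat_lit 310) (nat_lit 311) = true := by decide +kernel
def p15_36_0_311 : pfC (piC [(nat_lit 35404596), (nat_lit 22827826), (nat_lit 14696761)] (nat_lit 16660084)) p15_36_0 (nat_lit 3) (nat_lit 311) (nat_lit 312) = true := by decide +kernel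
def p15_36_0_312 : pfC (piC [(nat_lit 35404596), (nat_lit 22827826), (nat_lit 14696761)] (nat_lit 16660084)) p15_36_0 (nat_lit 3) (nat_lit 312) (nat_lit 313) = true := by decide +kernel
def p15_36_0_313 : pfC (piC [(nat_lit 35404596), (nat_lit 22827826), (nat_lit 14696761)] (nat_lit 16660084)) p15_36_0 (nat_lit 3) (nat_lit 313) (nat_lit 314) = true := by decide +kernel
def p15_36_0_314 : pfC (piC [(nat_lit 35404596), (nat_lit 22827826), (nat_lit 14696761)] (nat_lit 16660084)) p15_36_0 (nat_lit 3) (nat_lit 314) (nat_lit 315) = true := by decide +kernel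
theorem p15_36_0_T : PfS (PiF n15_36.reverse (nat_lit 16660084)) p15_36_0 (nat_lit 3) [] 0 :=
  pftab_of (los := [(nat_lit 35404596), (nat_lit 22827826), (nat_lit 14696761)]) (by decide +kernel) (hi := (nat_lit 315)) (PfP.trans (PfP.trans (PfP.trans (PfP.trans (PfP.trans (PfP.trans (PfP.trans (PfP.trans (PfP.trans (PfP.trans (PfP.trans (PfP.trans (PfP.trans (PfP.trans (PfP.trans (PfP.trans (PfP.trans (PfP.trans (PfP.trans (PfP.trans (PfP.trans (PfP.trans (PfP.trans (PfP.trans (PfP.trans (PfP.trans (PfP.trans (PfP.trans (PfP.trans (PfP.trans (PfP.trans (PfP.trans (PfP.trans (PfP.trans (PfP.trans (PfP.trans (PfP.trans (PfP.trans (PfP.trans (PfP.trans (PfP.trans (PfP.trans (PfP.trans (PfP.trans (PfP.trans (PfP.trans (PfP.trans (PfP.trans (PfP.trans (PfP.trans (PfP.trans (PfP.trans (PfP.trans (PfP.trans (PfP.trans (PfP.trans (PfP.trans (PfP.trans (PfP.trans (PfP.trans (PfP.trans (PfP.trans (PfP.trans (PfP.trans (PfP.trans (PfP.trans (PfP.trans (PfP.trans (PfP.trans (PfP.trans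 (PfP.trans (PfP.trans (PfP.trans (PfP.trans (PfP.trans (PfP.trans (PfP.trans (PfP.trans (PfP.trans (PfP.trans (PfP.trans (PfP.trans (PfP.trans (PfP.trans (PfP.trans (PfP.trans (PfP.trans (PfP.trans (PfP.trans (PfP.trans (PfP.trans (PfP.trans (PfP.trans (PfP.trans (PfP.trans (PfP.trans (PfP.trans (PfP.trans (PfP.trans (PfP.trans (PfP.trans (PfP.trans (PfP.trans (PfP.trans (PfP.trans (PfP.trans (PfP.trans (PfP.trans (PfP.trans
 (PfP.trans (PfP.trans (PfP.trans (PfP.trans (PfP.trans (PfP.trans (PfP.trans (PfP.trans (PfP.trans (PfP.trans (PfP.trans (PfP.trans (PfP.trans (PfP.trans (PfP.trans (PfP.trans (PfP.trans (PfP.trans (PfP.trans (PfP.trans (PfP.trans (PfP.trans (PfP.trans (PfP.trans (PfP.trans (PfP.trans (PfP.trans (PfP.trans (PfP.trans (PfP.trans (PfP.trans (PfP.trans (PfP.trans (PfP.trans (PfP.trans (PfP.trans (PfP.trans (PfP.trans (PfP.trans (PfP.trans (PfP.trans (PfP.trans (PfP.trans (PfP.trans (PfP.trans (PfP.trans (PfP.trans (PfP.trans (PfP.trans (PfP.trans (PfP.trans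 (PfP.trans (PfP.trans (PfP.trans (PfP.trans (PfP.trans (PfP.trans (PfP.trans (PfP.trans (PfP.trans (PfP.trans (PfP.trans (PfP.trans (PfP.trans (PfP.trans (PfP.trans (PfP.trans (PfP.trans (PfP.trans (PfP.trans (PfP.trans (PfP.trans (PfP.trans (PfP.trans (PfP.trans (PfP.trans (PfP.trans (PfP.trans (PfP.trans (PfP.trans (PfP.trans (PfP.trans (PfP.trans (PfP.trans (PfP.trans (PfP.trans (PfP.trans (PfP.trans (PfP.trans (PfP.trans (PfP.trans (PfP.trans (PfP.trans (PfP.trans (PfP.trans (PfP.trans (PfP.trans (PfP.trans (PfP.trans (PfP.trans (PfP.trans (PfP.trans (PfP.trans (PfP.trans (PfP.trans (PfP.trans (PfP.trans (PfP.trans (PfP.trans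
 (PfP.trans (PfP.trans (PfP.trans (PfP.trans (PfP.trans (PfP.trans (PfP.trans (PfP.trans (PfP.trans (PfP.trans (PfP.trans (PfP.trans (PfP.trans (PfP.trans (PfP.trans (PfP.trans (PfP.trans (PfP.trans (PfP.trans (PfP.trans (PfP.trans (PfP.trans (PfP.trans (PfP.trans (PfP.trans (PfP.trans (PfP.trans (PfP.trans (PfP.trans (PfP.trans (PfP.trans (PfP.trans (PfP.trans (PfP.trans (PfP.trans (PfP.trans (PfP.trans (PfP.trans (PfP.trans (PfP.trans (PfP.trans (PfP.trans (PfP.trans (PfP.trans (PfP.trans (PfP.trans (PfP.trans (PfP.trans (PfP.trans (PfP.trans (PfP.trans (PfP.trans (PfP.trans (PfP.trans (PfP.trans (PfP.trans (PfP.trans (PfP.trans (PfP.trans (PfP.trans (PfP.trans (PfP.trans (PfP.trans (PfP.trans (PfP.trans (PfP.trans (PfP.trans (PfP.trans (PfP.trans (PfP.trans (PfP.trans (PfP.trans (PfP.trans (PfP.trans (PfP.trans (PfP.trans (PfP.trans (PfP.trans (PfP.trans (PfP.trans (PfP.trans (PfP.trans (PfP.trans (PfP.trans (PfP.trans (PfP.trans (PfP.trans (PfP.trans (PfP.trans (PfP.trans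 (PfP.trans (PfP.trans (PfP.trans (PfP.trans (PfP.trans (PfP.trans (pfC_sound p15_36_0_0) (pfC_sound p15_36_0_1)) (pfC_sound p15_36_0_2)) (pfC_sound p15_36_0_3)) (pfC_sound p15_36_0_4)) (pfC_sound p15_36_0_5))
 (pfC_sound p15_36_0_6)) (pfC_sound p15_36_0_7)) (pfC_sound p15_36_0_8)) (pfC_sound p15_36_0_9)) (pfC_sound p15_36_0_10)) (pfC_sound p15_36_0_11)) (pfC_sound p15_36_0_12)) (pfC_sound p15_36_0_13)) (pfC_sound p15_36_0_14)) (pfC_sound p15_36_0_15)) (pfC_sound p15_36_0_16)) (pfC_sound p15_36_0_17)) (pfC_sound p15_36_0_18)) (pfC_sound p15_36_0_19)) (pfC_sound p15_36_0_20)) (pfC_sound p15_36_0_21)) (pfC_sound p15_36_0_22)) (pfC_sound p15_36_0_23)) (pfC_sound p15_36_0_24)) (pfC_sound p15_36_0_25)) (pfC_sound p15_36_0_26)) (pfC_sound p15_36_0_27)) (pfC_sound p15_36_0_28)) (pfC_sound p15_36_0_29)) (pfC_sound p15_36_0_30)) (pfC_sound p15_36_0_31)) (pfC_sound p15_36_0_32)) (pfC_sound p15_36_0_33)) (pfC_sound p15_36_0_34)) (pfC_sound p15_36_0_35)) (pfC_sound p15_36_0_36))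 (pfC_sound p15_36_0_37)) (pfC_sound p15_36_0_38)) (pfC_sound p15_36_0_39)) (pfC_sound p15_36_0_40)) (pfC_sound p15_36_0_41)) (pfC_sound p15_36_0_42)) (pfC_sound p15_36_0_43)) (pfC_sound p15_36_0_44)) (pfC_sound p15_36_0_45)) (pfC_sound p15_36_0_46)) (pfC_sound p15_36_0_47)) (pfC_sound p15_36_0_48)) (pfC_sound p15_36_0_49)) (pfC_sound p15_36_0_50)) (pfC_sound p15_36_0_51)) (pfC_sound p15_36_0_52)) (pfC_sound p15_36_0_53))
 (pfC_sound p15_36_0_54)) (pfC_sound p15_36_0_55)) (pfC_sound p15_36_0_56)) (pfC_sound p15_36_0_57)) (pfC_sound p15_36_0_58)) (pfC_sound p15_36_0_59)) (pfC_sound p15_36_0_60)) (pfC_sound p15_36_0_61)) (pfC_sound p15_36_0_62)) (pfC_sound p15_36_0_63)) (pfC_sound p15_36_0_64)) (pfC_sound p15_36_0_65)) (pfC_sound p15_36_0_66)) (pfC_sound p15_36_0_67)) (pfC_sound p15_36_0_68)) (pfC_sound p15_36_0_69)) (pfC_sound p15_36_0_70)) (pfC_sound p15_36_0_71)) (pfC_sound p15_36_0_72)) (pfC_sound p15_36_0_73)) (pfC_sound p15_36_0_74)) (pfC_sound p15_36_0_75)) (pfC_sound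 p15_36_0_76)) (pfC_sound p15_36_0_77)) (pfC_sound p15_36_0_78)) (pfC_sound p15_36_0_79)) (pfC_sound p15_36_0_80)) (pfC_sound p15_36_0_81)) (pfC_sound p15_36_0_82)) (pfC_sound p15_36_0_83)) (pfC_sound p15_36_0_84)) (pfC_sound p15_36_0_85)) (pfC_sound p15_36_0_86)) (pfC_sound p15_36_0_87)) (pfC_sound p15_36_0_88)) (pfC_sound p15_36_0_89)) (pfC_sound p15_36_0_90)) (pfC_sound p15_36_0_91)) (pfC_sound p15_36_0_92)) (pfC_sound p15_36_0_93)) (pfC_sound p15_36_0_94)) (pfC_sound p15_36_0_95)) (pfC_sound p15_36_0_96)) (pfC_sound p15_36_0_97)) (pfC_sound p15_36_0_98)) (pfC_sound p15_36_0_99)) (pfC_sound p15_36_0_100)) (pfC_sound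
 p15_36_0_101)) (pfC_sound p15_36_0_102)) (pfC_sound p15_36_0_103)) (pfC_sound p15_36_0_104)) (pfC_sound p15_36_0_105)) (pfC_sound p15_36_0_106)) (pfC_sound p15_36_0_107)) (pfC_sound p15_36_0_108)) (pfC_sound p15_36_0_109)) (pfC_sound p15_36_0_110)) (pfC_sound p15_36_0_111)) (pfC_sound p15_36_0_112)) (pfC_sound p15_36_0_113)) (pfC_sound p15_36_0_114)) (pfC_sound p15_36_0_115)) (pfC_sound p15_36_0_116)) (pfC_sound p15_36_0_117)) (pfC_sound p15_36_0_118)) (pfC_sound p15_36_0_119)) (pfC_sound p15_36_0_120)) (pfC_sound p15_36_0_121)) (pfC_sound p15_36_0_122)) (pfC_sound p15_36_0_123)) (pfC_sound p15_36_0_124)) (pfC_sound p15_36_0_125)) (pfC_sound p15_36_0_126)) (pfC_sound p15_36_0_127)) (pfC_sound p15_36_0_128)) (pfC_sound p15_36_0_129)) (pfC_sound p15_36_0_130)) (pfC_sound p15_36_0_131)) (pfC_sound p15_36_0_132)) (pfC_sound p15_36_0_133)) (pfC_sound p15_36_0_134)) (pfC_sound p15_36_0_135)) (pfC_sound p15_36_0_136)) (pfC_sound p15_36_0_137)) (pfC_sound p15_36_0_138)) (pfC_sound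 p15_36_0_139)) (pfC_sound p15_36_0_140)) (pfC_sound p15_36_0_141)) (pfC_sound p15_36_0_142)) (pfC_sound p15_36_0_143)) (pfC_sound p15_36_0_144)) (pfC_sound p15_36_0_145)) (pfC_sound p15_36_0_146)) (pfC_sound
 p15_36_0_147)) (pfC_sound p15_36_0_148)) (pfC_sound p15_36_0_149)) (pfC_sound p15_36_0_150)) (pfC_sound p15_36_0_151)) (pfC_sound p15_36_0_152)) (pfC_sound p15_36_0_153)) (pfC_sound p15_36_0_154)) (pfC_sound p15_36_0_155)) (pfC_sound p15_36_0_156)) (pfC_sound p15_36_0_157)) (pfC_sound p15_36_0_158)) (pfC_sound p15_36_0_159)) (pfC_sound p15_36_0_160)) (pfC_sound p15_36_0_161)) (pfC_sound p15_36_0_162)) (pfC_sound p15_36_0_163)) (pfC_sound p15_36_0_164)) (pfC_sound p15_36_0_165)) (pfC_sound p15_36_0_166)) (pfC_sound p15_36_0_167)) (pfC_sound p15_36_0_168)) (pfC_sound p15_36_0_169)) (pfC_sound p15_36_0_170)) (pfC_sound p15_36_0_171)) (pfC_sound p15_36_0_172)) (pfC_sound p15_36_0_173)) (pfC_sound p15_36_0_174)) (pfC_sound p15_36_0_175)) (pfC_sound p15_36_0_176)) (pfC_sound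 p15_36_0_177)) (pfC_sound p15_36_0_178)) (pfC_sound p15_36_0_179)) (pfC_sound p15_36_0_180)) (pfC_sound p15_36_0_181)) (pfC_sound p15_36_0_182)) (pfC_sound p15_36_0_183)) (pfC_sound p15_36_0_184)) (pfC_sound p15_36_0_185)) (pfC_sound p15_36_0_186)) (pfC_sound p15_36_0_187)) (pfC_sound p15_36_0_188)) (pfC_sound p15_36_0_189)) (pfC_sound p15_36_0_190)) (pfC_sound p15_36_0_191)) (pfC_sound p15_36_0_192)) (pfC_sound
 p15_36_0_193)) (pfC_sound p15_36_0_194)) (pfC_sound p15_36_0_195)) (pfC_sound p15_36_0_196)) (pfC_sound p15_36_0_197)) (pfC_sound p15_36_0_198)) (pfC_sound p15_36_0_199)) (pfC_sound p15_36_0_200)) (pfC_sound p15_36_0_201)) (pfC_sound p15_36_0_202)) (pfC_sound p15_36_0_203)) (pfC_sound p15_36_0_204)) (pfC_sound p15_36_0_205)) (pfC_sound p15_36_0_206)) (pfC_sound p15_36_0_207)) (pfC_sound p15_36_0_208)) (pfC_sound p15_36_0_209)) (pfC_sound p15_36_0_210)) (pfC_sound p15_36_0_211)) (pfC_sound p15_36_0_212)) (pfC_sound p15_36_0_213)) (pfC_sound p15_36_0_214)) (pfC_sound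 p15_36_0_215)) (pfC_sound p15_36_0_216)) (pfC_sound p15_36_0_217)) (pfC_sound p15_36_0_218)) (pfC_sound p15_36_0_219)) (pfC_sound p15_36_0_220)) (pfC_sound p15_36_0_221)) (pfC_sound p15_36_0_222)) (pfC_sound p15_36_0_223)) (pfC_sound p15_36_0_224)) (pfC_sound p15_36_0_225)) (pfC_sound p15_36_0_226)) (pfC_sound p15_36_0_227)) (pfC_sound p15_36_0_228)) (pfC_sound p15_36_0_229)) (pfC_sound p15_36_0_230)) (pfC_sound p15_36_0_231)) (pfC_sound p15_36_0_232)) (pfC_sound p15_36_0_233)) (pfC_sound p15_36_0_234)) (pfC_sound p15_36_0_235)) (pfC_sound p15_36_0_236)) (pfC_sound p15_36_0_237)) (pfC_sound p15_36_0_238)) (pfC_sound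
 p15_36_0_239)) (pfC_sound p15_36_0_240)) (pfC_sound p15_36_0_241)) (pfC_sound p15_36_0_242)) (pfC_sound p15_36_0_243)) (pfC_sound p15_36_0_244)) (pfC_sound p15_36_0_245)) (pfC_sound p15_36_0_246)) (pfC_sound p15_36_0_247)) (pfC_sound p15_36_0_248)) (pfC_sound p15_36_0_249)) (pfC_sound p15_36_0_250)) (pfC_sound p15_36_0_251)) (pfC_sound p15_36_0_252)) (pfC_sound p15_36_0_253)) (pfC_sound p15_36_0_254)) (pfC_sound p15_36_0_255)) (pfC_sound p15_36_0_256)) (pfC_sound p15_36_0_257)) (pfC_sound p15_36_0_258)) (pfC_sound p15_36_0_259)) (pfC_sound p15_36_0_260)) (pfC_sound p15_36_0_261)) (pfC_sound p15_36_0_262)) (pfC_sound p15_36_0_263)) (pfC_sound p15_36_0_264)) (pfC_sound p15_36_0_265)) (pfC_sound p15_36_0_266)) (pfC_sound p15_36_0_267)) (pfC_sound p15_36_0_268)) (pfC_sound p15_36_0_269)) (pfC_sound p15_36_0_270)) (pfC_sound p15_36_0_271)) (pfC_sound p15_36_0_272)) (pfC_sound p15_36_0_273)) (pfC_sound p15_36_0_274)) (pfC_sound p15_36_0_275)) (pfC_sound p15_36_0_276)) (pfC_sound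 p15_36_0_277)) (pfC_sound p15_36_0_278)) (pfC_sound p15_36_0_279)) (pfC_sound p15_36_0_280)) (pfC_sound p15_36_0_281)) (pfC_sound p15_36_0_282)) (pfC_sound p15_36_0_283)) (pfC_sound p15_36_0_284)) (pfC_sound
 p15_36_0_285)) (pfC_sound p15_36_0_286)) (pfC_sound p15_36_0_287)) (pfC_sound p15_36_0_288)) (pfC_sound p15_36_0_289)) (pfC_sound p15_36_0_290)) (pfC_sound p15_36_0_291)) (pfC_sound p15_36_0_292)) (pfC_sound p15_36_0_293)) (pfC_sound p15_36_0_294)) (pfC_sound p15_36_0_295)) (pfC_sound p15_36_0_296)) (pfC_sound p15_36_0_297)) (pfC_sound p15_36_0_298)) (pfC_sound p15_36_0_299)) (pfC_sound p15_36_0_300)) (pfC_sound p15_36_0_301)) (pfC_sound p15_36_0_302)) (pfC_sound p15_36_0_303)) (pfC_sound p15_36_0_304)) (pfC_sound p15_36_0_305)) (pfC_sound p15_36_0_306)) (pfC_sound p15_36_0_307)) (pfC_sound p15_36_0_308)) (pfC_sound p15_36_0_309)) (pfC_sound p15_36_0_310)) (pfC_sound p15_36_0_311)) (pfC_sound p15_36_0_312)) (pfC_sound p15_36_0_313)) (pfC_sound p15_36_0_314)) (by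 decide +kernel)

def z15_36_0 : zOK yB15_36 (nat_lit 0) (nat_lit 0) (nat_lit 400) (nat_lit 16660084) (nat_lit 10996129) = true := by decide +kernel
def g15_36_0 : gOK yB15_36.x P15_36 (nat_lit 1374) (q15_36 :: r15_36) (nat_lit 0) (nat_lit 0) (nat_lit 1) (nat_lit 400) (nat_lit 0) (nat_lit 11000000) (nat_lit 12712500) (nat_lit 12712500) [(nat_lit 800), (nat_lit 1600)] = true := by decide +kernel
def v15_36_0 : ivC P15_36 s15_36 w15_36 n15_36 (nat_lit 3) (nat_lit 5260) (nat_lit 0) (nat_lit 0) f184_0_0 f192_0_0 (nat_lit 1) (nat_lit 400) f184_0_400 f192_0_400 (nat_lit 16660084) (nat_lit 10996129) p15_36_0 = true := by decide +kernel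
def p15_36_1 : PF := (PF.cons (PF.cons (PF.cons (PF.leaf (nat_lit 2049482) (nat_lit 9578754) (nat_lit 57530058) (nat_lit 9578754) [(nat_lit 0), (nat_lit 0), (nat_lit 0)]) (PF.cons (PF.leaf (nat_lit 2294643) (nat_lit 451035) (nat_lit 57039750) (nat_lit 9618027) [(nat_lit 451035), (nat_lit 0), (nat_lit 0)]) (PF.cons (PF.leaf (nat_lit 2582951) (nat_lit 490785) (nat_lit 56468861) (nat_lit 9658381) [(nat_lit 490785), (nat_lit 0), (nat_lit 0)]) (PF.cons (PF.leaf (nat_lit 2906254) (nat_lit 525928) (nat_lit 55834092) (nat_lit 9696934) [(nat_lit 525928), (nat_lit 0), (nat_lit 0)]) (PF.cons (PF.leaf (nat_lit 3258972) (nat_lit 557383) (nat_lit 55147648) (nat_lit 9731630) [(nat_lit 557383), (nat_lit 0), (nat_lit 0)]) (PF.cons (PF.leaf (nat_lit 3636703) (nat_lit 585722) (nat_lit 54419195) (nat_lit 9761003) [(nat_lit 585722), (nat_lit 0), (nat_lit 0)]) (PF.cons (PF.leaf (nat_lit 4035716) (nat_lit 611334) (nat_lit 53656766) (nat_lit 9784037) [(nat_lit 611334), (nat_lit 0), (nat_lit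 0)]) (PF.cons (PF.leaf (nat_lit 4452776) (nat_lit 634502) (nat_lit 52867226) (nat_lit 9800067) [(nat_lit 634502), (nat_lit 0), (nat_lit 0)]) (PF.cons (PF.leaf (nat_lit 4884987) (nat_lit 655444) (nat_lit 52056543) (nat_lit 9808709)
 [(nat_lit 655444), (nat_lit 0), (nat_lit 0)]) (PF.cons (PF.leaf (nat_lit 5329799) (nat_lit 674339) (nat_lit 51229955) (nat_lit 9809799) [(nat_lit 674339), (nat_lit 0), (nat_lit 0)]) (PF.cons (PF.leaf (nat_lit 5784847) (nat_lit 691338) (nat_lit 50392078) (nat_lit 9803345) [(nat_lit 691338), (nat_lit 0), (nat_lit 0)]) (PF.cons (PF.leaf (nat_lit 6248027) (nat_lit 706575) (nat_lit 49546986) (nat_lit 9789492) [(nat_lit 706575), (nat_lit 0), (nat_lit 0)]) (PF.cons (PF.leaf (nat_lit 6717426) (nat_lit 720171) (nat_lit 48698272) (nat_lit 9768485) [(nat_lit 720171), (nat_lit 0), (nat_lit 0)]) (PF.cons (PF.leaf (nat_lit 7191351) (nat_lit 732236) (nat_lit 47849093) (nat_lit 9740646) [(nat_lit 732236), (nat_lit 0), (nat_lit 0)]) (PF.cons (PF.leaf (nat_lit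 7668211) (nat_lit 742874) (nat_lit 47002216) (nat_lit 9706349) [(nat_lit 742874), (nat_lit 0), (nat_lit 0)]) (PF.cons PF.nil (PF.cons PF.nil (PF.cons PF.nil PF.nil)))))))))))))))))) (PF.cons (PF.cons (PF.leaf (nat_lit 2885290) (nat_lit 2165083) (nat_lit 55234228) (nat_lit 9709500) [(nat_lit 0), (nat_lit 2165083), (nat_lit 0)]) (PF.cons (PF.leaf (nat_lit 3199134) (nat_lit 544657) (nat_lit 54611772) (nat_lit 9736155) [(nat_lit 544657), (nat_lit
 2216227), (nat_lit 0)]) (PF.cons (PF.leaf (nat_lit 3544234) (nat_lit 574391) (nat_lit 53935684) (nat_lit 9759074) [(nat_lit 574391), (nat_lit 2265269), (nat_lit 0)]) (PF.cons (PF.leaf (nat_lit 3914838) (nat_lit 600985) (nat_lit 53217671) (nat_lit 9776908) [(nat_lit 600985), (nat_lit 2311275), (nat_lit 0)]) (PF.cons (PF.leaf (nat_lit 4306729) (nat_lit 624889) (nat_lit 52466729) (nat_lit 9788762) [(nat_lit 624889), (nat_lit 2353762), (nat_lit 0)]) (PF.cons (PF.leaf (nat_lit 4716404) (nat_lit 646413) (nat_lit 51690162) (nat_lit 9794082)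 [(nat_lit 646413), (nat_lit 2392499), (nat_lit 0)]) (PF.cons (PF.leaf (nat_lit 5140893) (nat_lit 665791) (nat_lit 50894091) (nat_lit 9792566) [(nat_lit 665791), (nat_lit 2427407), (nat_lit 0)]) (PF.cons (PF.leaf (nat_lit 5577545) (nat_lit 683206) (nat_lit 50083751) (nat_lit 9784113) [(nat_lit 683206), (nat_lit 2458504), (nat_lit 0)]) (PF.cons (PF.leaf (nat_lit 6024037) (nat_lit 698813) (nat_lit 49263664) (nat_lit 9768771) [(nat_lit 698813), (nat_lit 2485871), (nat_lit 0)]) (PF.cons (PF.leaf (nat_lit 6478280) (nat_lit 712746) (nat_lit 48437761) (nat_lit 9746706) [(nat_lit 712746), (nat_lit 2509629), (nat_lit 0)]) (PF.cons (PF.leaf (nat_lit 6938443)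
 (nat_lit 725124) (nat_lit 47609463) (nat_lit 9718171) [(nat_lit 725124), (nat_lit 2529929), (nat_lit 0)]) (PF.cons (PF.leaf (nat_lit 7402821) (nat_lit 736058) (nat_lit 46781747) (nat_lit 9683481) [(nat_lit 736058), (nat_lit 2546938), (nat_lit 0)]) (PF.cons (PF.leaf (nat_lit 7869948) (nat_lit 745648) (nat_lit 45957196) (nat_lit 9642996) [(nat_lit 745648), (nat_lit 2560833), (nat_lit 0)]) (PF.cons (PF.leaf (nat_lit 8338496) (nat_lit 753989) (nat_lit 45138043) (nat_lit 9597106) [(nat_lit 753989), (nat_lit 2571799), (nat_lit 0)]) (PF.cons PF.nil (PF.cons PF.nil PF.nil)))))))))))))))) (PF.cons (PF.cons (PF.leaf (nat_lit 3828774) (nat_lit 2312594) (nat_lit 52714512) (nat_lit 9769111) [(nat_lit 0), (nat_lit 2312594), (nat_lit 0)]) (PF.cons (PF.leaf (nat_lit 4189251) (nat_lit 613218) (nat_lit 52015405) (nat_lit 9776613) [(nat_lit 613218), (nat_lit 2351787), (nat_lit 0)]) (PF.cons (PF.leaf (nat_lit 4572111) (nat_lit 635801) (nat_lit 51282409) (nat_lit 9778527) [(nat_lit 635801),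 (nat_lit 2388136), (nat_lit 0)]) (PF.cons (PF.leaf (nat_lit 4973059) (nat_lit 655989) (nat_lit 50523884) (nat_lit 9774373) [(nat_lit 655989), (nat_lit 2421292), (nat_lit 0)]) (PF.cons (PF.leaf (nat_lit 5388824)
 (nat_lit 674055) (nat_lit 49746468) (nat_lit 9763915) [(nat_lit 674055), (nat_lit 2451104), (nat_lit 0)]) (PF.cons (PF.leaf (nat_lit 5816638) (nat_lit 690206) (nat_lit 48955616) (nat_lit 9747095) [(nat_lit 690206), (nat_lit 2477534), (nat_lit 0)]) (PF.cons (PF.leaf (nat_lit 6254106) (nat_lit 704609) (nat_lit 48155912) (nat_lit 9723993) [(nat_lit 704609), (nat_lit 2500626), (nat_lit 0)]) (PF.cons (PF.leaf (nat_lit 6699152) (nat_lit 717404) (nat_lit 47351253) (nat_lit 9694788) [(nat_lit 717404), (nat_lit 2520469), (nat_lit 0)]) (PF.cons (PF.leaf (nat_lit 7149898) (nat_lit 728715) (nat_lit 46544977) (nat_lit 9659735) [(nat_lit 728715), (nat_lit 2537186), (nat_lit 0)]) (PF.cons (PF.leaf (nat_lit 7604750) (nat_lit 738653) (nat_lit 45739946) (nat_lit 9619140) [(nat_lit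 738653), (nat_lit 2550923), (nat_lit 0)]) (PF.cons (PF.leaf (nat_lit 8062223) (nat_lit 747317) (nat_lit 44938619) (nat_lit 9573348) [(nat_lit 747317), (nat_lit 2561835), (nat_lit 0)]) (PF.cons (PF.leaf (nat_lit 8521038) (nat_lit 754801) (nat_lit 44143099) (nat_lit 9522725) [(nat_lit 754801), (nat_lit 2570087), (nat_lit 0)]) (PF.cons PF.nil (PF.cons PF.nil PF.nil)))))))))))))) (PF.cons (PF.cons (PF.leaf (nat_lit 4833777)
 (nat_lit 2416179) (nat_lit 50105570) (nat_lit 9754704) [(nat_lit 0), (nat_lit 2416179), (nat_lit 0)]) (PF.cons (PF.leaf (nat_lit 5224108) (nat_lit 663386) (nat_lit 49370144) (nat_lit 9742306) [(nat_lit 663386), (nat_lit 2444325), (nat_lit 0)]) (PF.cons (PF.leaf (nat_lit 5630008) (nat_lit 680392) (nat_lit 48615238) (nat_lit 9724081) [(nat_lit 680392), (nat_lit 2469569), (nat_lit 0)]) (PF.cons (PF.leaf (nat_lit 6048186) (nat_lit 695488) (nat_lit 47846859) (nat_lit 9700015) [(nat_lit 695488), (nat_lit 2491824), (nat_lit 0)]) (PF.cons (PF.leaf (nat_lit 6476115)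 (nat_lit 708866) (nat_lit 47069853) (nat_lit 9670212) [(nat_lit 708866), (nat_lit 2511093), (nat_lit 0)]) (PF.cons (PF.leaf (nat_lit 6911601) (nat_lit 720682) (nat_lit 46288223) (nat_lit 9634862) [(nat_lit 720682), (nat_lit 2527437), (nat_lit 0)]) (PF.cons (PF.leaf (nat_lit 7352796) (nat_lit 731066) (nat_lit 45505319) (nat_lit 9594220) [(nat_lit 731066), (nat_lit 2540957), (nat_lit 0)]) (PF.cons (PF.leaf (nat_lit 7798042) (nat_lit 740133) (nat_lit 44723965) (nat_lit 9548586) [(nat_lit 740133), (nat_lit 2551776), (nat_lit 0)]) (PF.cons (PF.leaf (nat_lit 8245898) (nat_lit 747984) (nat_lit 43946553) (nat_lit 9498287) [(nat_lit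
 747984), (nat_lit 2560030), (nat_lit 0)]) (PF.cons (PF.leaf (nat_lit 8695105) (nat_lit 754714) (nat_lit 43175106) (nat_lit 9443669) [(nat_lit 754714), (nat_lit 2565868), (nat_lit 0)]) (PF.cons PF.nil (PF.cons PF.nil PF.nil)))))))))))) (PF.cons (PF.cons (PF.leaf (nat_lit 5866001) (nat_lit 2483370) (nat_lit 47501099) (nat_lit 9674233) [(nat_lit 0), (nat_lit 2483370), (nat_lit 0)]) (PF.cons (PF.leaf (nat_lit 6273393) (nat_lit 699167) (nat_lit 46758116) (nat_lit 9643994) [(nat_lit 699167), (nat_lit 2501883), (nat_lit 0)]) (PF.cons (PF.leaf (nat_lit 6691117) (nat_lit 711700) (nat_lit 46005985) (nat_lit 9608487) [(nat_lit 711700), (nat_lit 2517734), (nat_lit 0)]) (PF.cons (PF.leaf (nat_lit 7116659) (nat_lit 722689) (nat_lit 45248996) (nat_lit 9567920) [(nat_lit 722689), (nat_lit 2530956), (nat_lit 0)]) (PF.cons (PF.leaf (nat_lit 7548046) (nat_lit 732280) (nat_lit 44490639) (nat_lit 9522549) [(nat_lit 732280), (nat_lit 2541625), (nat_lit 0)]) (PF.cons (PF.leaf (nat_lit 7983593)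 (nat_lit 740596) (nat_lit 43733787) (nat_lit 9472667) [(nat_lit 740596), (nat_lit 2549844), (nat_lit 0)]) (PF.cons (PF.leaf (nat_lit 8421843) (nat_lit 747742) (nat_lit 42980829) (nat_lit 9418591) [(nat_lit
 747742), (nat_lit 2555735), (nat_lit 0)]) (PF.cons (PF.leaf (nat_lit 8861533) (nat_lit 753814) (nat_lit 42233757) (nat_lit 9360646) [(nat_lit 753814), (nat_lit 2559427), (nat_lit 0)]) (PF.cons (PF.leaf (nat_lit 9301574) (nat_lit 758897) (nat_lit 41494232) (nat_lit 9299166) [(nat_lit 758897), (nat_lit 2561057), (nat_lit 0)]) (PF.cons PF.nil PF.nil)))))))))) (PF.cons (PF.cons (PF.leaf (nat_lit 6900454) (nat_lit 2520958) (nat_lit 44964277) (nat_lit 9539743) [(nat_lit 0), (nat_lit 2520958), (nat_lit 0)]) (PF.cons (PF.leaf (nat_lit 7315337) (nat_lit 723514) (nat_lit 44233489) (nat_lit 9494830) [(nat_lit 723514), (nat_lit 2531395), (nat_lit 0)]) (PF.cons (PF.leaf (nat_lit 7736601) (nat_lit 732445) (nat_lit 43500762) (nat_lit 9445527) [(nat_lit 732445), (nat_lit 2539526),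 (nat_lit 0)]) (PF.cons (PF.leaf (nat_lit 8162291) (nat_lit 740124) (nat_lit 42769132) (nat_lit 9392128) [(nat_lit 740124), (nat_lit 2545435), (nat_lit 0)]) (PF.cons (PF.leaf (nat_lit 8590893) (nat_lit 746667) (nat_lit 42041063) (nat_lit 9334941) [(nat_lit 746667), (nat_lit 2549227), (nat_lit 0)]) (PF.cons (PF.leaf (nat_lit 9021118) (nat_lit 752172) (nat_lit 41318575) (nat_lit 9274278) [(nat_lit 752172), (nat_lit
 2551019), (nat_lit 0)]) (PF.cons (PF.leaf (nat_lit 9451859) (nat_lit 756728) (nat_lit 40603327) (nat_lit 9210454) [(nat_lit 756728), (nat_lit 2550931), (nat_lit 0)]) (PF.cons PF.nil PF.nil)))))))) (PF.cons (PF.cons (PF.leaf (nat_lit 7919612) (nat_lit 2534959) (nat_lit 42535200) (nat_lit 9363853) [(nat_lit 0), (nat_lit 2534959), (nat_lit 0)]) (PF.cons (PF.leaf (nat_lit 8335031) (nat_lit 738786) (nat_lit 41829479) (nat_lit 9307615) [(nat_lit 738786), (nat_lit 2538821), (nat_lit 0)]) (PF.cons (PF.leaf (nat_lit 8753872) (nat_lit 744825) (nat_lit 41126687) (nat_lit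 9247930) [(nat_lit 744825), (nat_lit 2540757), (nat_lit 0)]) (PF.cons (PF.leaf (nat_lit 9174627) (nat_lit 749852) (nat_lit 40428938) (nat_lit 9185105) [(nat_lit 749852), (nat_lit 2540868), (nat_lit 0)]) (PF.cons (PF.leaf (nat_lit 9596131) (nat_lit 753958) (nat_lit 39737940) (nat_lit 9119439) [(nat_lit 753958), (nat_lit 2539266), (nat_lit 0)]) (PF.cons PF.nil PF.nil)))))) (PF.cons (PF.cons (PF.leaf (nat_lit 8911775) (nat_lit 2530541) (nat_lit 40236949) (nat_lit 9158069) [(nat_lit 0), (nat_lit 2530541), (nat_lit 0)]) (PF.cons (PF.leaf (nat_lit 9322819) (nat_lit 746904) (nat_lit 39564085) (nat_lit 9093592) [(nat_lit 746904),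
 (nat_lit 2529175), (nat_lit 0)]) (PF.cons (PF.leaf (nat_lit 9735113) (nat_lit 750637) (nat_lit 38897295) (nat_lit 9026544) [(nat_lit 750637), (nat_lit 2526242), (nat_lit 0)]) (PF.cons PF.nil PF.nil)))) (PF.cons (PF.cons (PF.leaf (nat_lit 9869643) (nat_lit 2512020) (nat_lit 38080518) (nat_lit 8932130) [(nat_lit 0), (nat_lit 2512020), (nat_lit 0)]) (PF.cons (PF.leaf (nat_lit 10272954) (nat_lit 749434) (nat_lit 37444664) (nat_lit 8862048) [(nat_lit 749434), (nat_lit 2506583), (nat_lit 0)]) PF.nil)) (PF.cons PF.nil (PF.cons PF.nil (PF.cons PF.nil (PF.cons PF.nil PF.nil))))))))))))) (PF.cons (PF.cons (PF.cons (PF.leaf (nat_lit 3811478) (nat_lit 6467580) (nat_lit 50968608) (nat_lit 9672624) [(nat_lit 0), (nat_lit 0), (nat_lit 6467580)]) (PF.cons (PF.leaf (nat_lit 4131273) (nat_lit 580336) (nat_lit 50366225) (nat_lit 9672449) [(nat_lit 580336), (nat_lit 0), (nat_lit 6489801)]) (PF.cons (PF.leaf (nat_lit 4479053) (nat_lit 606565) (nat_lit 49718635) (nat_lit 9667786) [(nat_lit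 606565), (nat_lit 0), (nat_lit 6509260)]) (PF.cons (PF.leaf (nat_lit 4848893) (nat_lit 629427) (nat_lit 49037350) (nat_lit 9658085) [(nat_lit 629427), (nat_lit 0), (nat_lit 6525093)]) (PF.cons (PF.leaf (nat_lit
 5236611) (nat_lit 649520) (nat_lit 48330910) (nat_lit 9643037) [(nat_lit 649520), (nat_lit 0), (nat_lit 6536782)]) (PF.cons (PF.leaf (nat_lit 5638843) (nat_lit 667252) (nat_lit 47606000) (nat_lit 9622508) [(nat_lit 667252), (nat_lit 0), (nat_lit 6544042)]) (PF.cons (PF.leaf (nat_lit 6052813) (nat_lit 682919) (nat_lit 46868035) (nat_lit 9596504) [(nat_lit 682919), (nat_lit 0), (nat_lit 6546755)]) (PF.cons (PF.leaf (nat_lit 6476150) (nat_lit 696751) (nat_lit 46121498) (nat_lit 9565131) [(nat_lit 696751), (nat_lit 0), (nat_lit 6544919)]) (PF.cons (PF.leaf (nat_lit 6906835) (nat_lit 708933) (nat_lit 45370149) (nat_lit 9528571) [(nat_lit 708933), (nat_lit 0), (nat_lit 6538622)]) (PF.cons (PF.leaf (nat_lit 7343052) (nat_lit 719618) (nat_lit 44617171) (nat_lit 9487063)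 [(nat_lit 719618), (nat_lit 0), (nat_lit 6528011)]) (PF.cons (PF.leaf (nat_lit 7783246) (nat_lit 728937) (nat_lit 43865266) (nat_lit 9440887) [(nat_lit 728937), (nat_lit 0), (nat_lit 6513279)]) (PF.cons (PF.leaf (nat_lit 8226051) (nat_lit 737007) (nat_lit 43116734) (nat_lit 9390347) [(nat_lit 737007), (nat_lit 0), (nat_lit 6494648)]) (PF.cons (PF.leaf (nat_lit 8670244) (nat_lit 743930) (nat_lit 42373528) (nat_lit 9335766)
 [(nat_lit 743930), (nat_lit 0), (nat_lit 6472357)]) (PF.cons PF.nil (PF.cons PF.nil (PF.cons PF.nil PF.nil)))))))))))))))) (PF.cons (PF.cons (PF.leaf (nat_lit 4738899) (nat_lit 2373928) (nat_lit 48584213) (nat_lit 9634677) [(nat_lit 0), (nat_lit 2373928), (nat_lit 6515993)]) (PF.cons (PF.leaf (nat_lit 5096638) (nat_lit 636044) (nat_lit 47927907) (nat_lit 9618339) [(nat_lit 636044), (nat_lit 2401508), (nat_lit 6525013)]) (PF.cons (PF.leaf (nat_lit 5473736) (nat_lit 655250) (nat_lit 47244657) (nat_lit 9596926) [(nat_lit 655250), (nat_lit 2426432), (nat_lit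 6530295)]) (PF.cons (PF.leaf (nat_lit 5866044) (nat_lit 672053) (nat_lit 46542177) (nat_lit 9570379) [(nat_lit 672053), (nat_lit 2448531), (nat_lit 6531563)]) (PF.cons (PF.leaf (nat_lit 6270455) (nat_lit 686796) (nat_lit 45826402) (nat_lit 9538751) [(nat_lit 686796), (nat_lit 2467768), (nat_lit 6528703)]) (PF.cons (PF.leaf (nat_lit 6684447) (nat_lit 699732) (nat_lit 45102073) (nat_lit 9502176) [(nat_lit 699732), (nat_lit 2484182), (nat_lit 6521719)]) (PF.cons (PF.leaf (nat_lit 7105863) (nat_lit 711056) (nat_lit 44373064) (nat_lit 9460853) [(nat_lit 711056), (nat_lit 2497862), (nat_lit 6510691)]) (PF.cons (PF.leaf (nat_lit 7532888)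
 (nat_lit 720931) (nat_lit 43642582) (nat_lit 9415026) [(nat_lit 720931), (nat_lit 2508920), (nat_lit 6495761)]) (PF.cons (PF.leaf (nat_lit 7963938) (nat_lit 729491) (nat_lit 42913311) (nat_lit 9364970) [(nat_lit 729491), (nat_lit 2517488), (nat_lit 6477107)]) (PF.cons (PF.leaf (nat_lit 8397626) (nat_lit 736854) (nat_lit 42187503) (nat_lit 9310979) [(nat_lit 736854), (nat_lit 2523706), (nat_lit 6454936)]) (PF.cons (PF.leaf (nat_lit 8832760) (nat_lit 743121) (nat_lit 41467050) (nat_lit 9253359) [(nat_lit 743121), (nat_lit 2527718), (nat_lit 6429470)]) (PF.cons PF.nil (PF.cons PF.nil (PF.cons PF.nil PF.nil)))))))))))))) (PF.cons (PF.cons (PF.leaf (nat_lit 5707941) (nat_lit 2439437) (nat_lit 46172273) (nat_lit 9541821) [(nat_lit 0), (nat_lit 2439437), (nat_lit 6515843)]) (PF.cons (PF.leaf (nat_lit 6088745) (nat_lit 675190) (nat_lit 45495687) (nat_lit 9510240) [(nat_lit 675190), (nat_lit 2457893), (nat_lit 6511907)]) (PF.cons (PF.leaf (nat_lit 6482690) (nat_lit 689223) (nat_lit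 44804593) (nat_lit 9473892) [(nat_lit 689223), (nat_lit 2473833), (nat_lit 6504212)]) (PF.cons (PF.leaf (nat_lit 6886716) (nat_lit 701436) (nat_lit 44104283) (nat_lit 9432950) [(nat_lit 701436), (nat_lit
 2487253), (nat_lit 6492762)]) (PF.cons (PF.leaf (nat_lit 7298496) (nat_lit 712050) (nat_lit 43398916) (nat_lit 9387635) [(nat_lit 712050), (nat_lit 2498209), (nat_lit 6477638)]) (PF.cons (PF.leaf (nat_lit 7716111) (nat_lit 721241) (nat_lit 42691847) (nat_lit 9338199) [(nat_lit 721241), (nat_lit 2506791), (nat_lit 6458973)]) (PF.cons (PF.leaf (nat_lit 8137909) (nat_lit 729152) (nat_lit 41985821) (nat_lit 9284916) [(nat_lit 729152), (nat_lit 2513109), (nat_lit 6436937)]) (PF.cons (PF.leaf (nat_lit 8562489) (nat_lit 735905) (nat_lit 41283103) (nat_lit 9228073) [(nat_lit 735905), (nat_lit 2517287), (nat_lit 6411723)]) (PF.cons (PF.leaf (nat_lit 8988635) (nat_lit 741604) (nat_lit 40585572) (nat_lit 9167963) [(nat_lit 741604), (nat_lit 2519453), (nat_lit 6383537)]) (PF.cons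 (PF.leaf (nat_lit 9415268) (nat_lit 746341) (nat_lit 39894787) (nat_lit 9104879) [(nat_lit 746341), (nat_lit 2519737), (nat_lit 6352597)]) (PF.cons PF.nil (PF.cons PF.nil PF.nil)))))))))))) (PF.cons (PF.cons (PF.leaf (nat_lit 6690980) (nat_lit 2476649) (nat_lit 43802222) (nat_lit 9402682) [(nat_lit 0), (nat_lit 2476649), (nat_lit 6473957)]) (PF.cons (PF.leaf (nat_lit 7084063) (nat_lit 701933) (nat_lit 43127812)
 (nat_lit 9358179) [(nat_lit 701933), (nat_lit 2487400), (nat_lit 6458685)]) (PF.cons (PF.leaf (nat_lit 7485699) (nat_lit 711987) (nat_lit 42447383) (nat_lit 9309602) [(nat_lit 711987), (nat_lit 2495932), (nat_lit 6440054)]) (PF.cons (PF.leaf (nat_lit 7893586) (nat_lit 720619) (nat_lit 41764596) (nat_lit 9257221) [(nat_lit 720619), (nat_lit 2502312), (nat_lit 6418196)]) (PF.cons (PF.leaf (nat_lit 8305973) (nat_lit 727989) (nat_lit 41082363) (nat_lit 9201316) [(nat_lit 727989), (nat_lit 2506633), (nat_lit 6393273)]) (PF.cons (PF.leaf (nat_lit 8721389) (nat_lit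 734226) (nat_lit 40403036) (nat_lit 9142171) [(nat_lit 734226), (nat_lit 2509001), (nat_lit 6365468)]) (PF.cons (PF.leaf (nat_lit 9138570) (nat_lit 739439) (nat_lit 39728530) (nat_lit 9080071) [(nat_lit 739439), (nat_lit 2509532), (nat_lit 6334977)]) (PF.cons (PF.leaf (nat_lit 9556441) (nat_lit 743724) (nat_lit 39060416) (nat_lit 9015298) [(nat_lit 743724), (nat_lit 2508342), (nat_lit 6302001)]) (PF.cons PF.nil (PF.cons PF.nil PF.nil)))))))))) (PF.cons (PF.cons (PF.leaf (nat_lit 7668679) (nat_lit 2491307) (nat_lit 41517796) (nat_lit 9227336) [(nat_lit 0), (nat_lit 2491307), (nat_lit 6398449)]) (PF.cons (PF.leaf (nat_lit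
 8066231) (nat_lit 719120) (nat_lit 40860201) (nat_lit 9172640) [(nat_lit 719120), (nat_lit 2495737), (nat_lit 6373902)]) (PF.cons (PF.leaf (nat_lit 8468948) (nat_lit 726056) (nat_lit 40202308) (nat_lit 9114679) [(nat_lit 726056), (nat_lit 2498289), (nat_lit 6346551)]) (PF.cons (PF.leaf (nat_lit 8875070) (nat_lit 731870) (nat_lit 39546651) (nat_lit 9053742) [(nat_lit 731870), (nat_lit 2499058), (nat_lit 6316573)]) (PF.cons (PF.leaf (nat_lit 9283260) (nat_lit 736678) (nat_lit 38895248) (nat_lit 8990113) [(nat_lit 736678), (nat_lit 2498145), (nat_lit 6284155)]) (PF.cons (PF.leaf (nat_lit 9692421) (nat_lit 740581) (nat_lit 38249726) (nat_lit 8924065) [(nat_lit 740581), (nat_lit 2495657), (nat_lit 6249487)]) (PF.cons PF.nil (PF.cons PF.nil PF.nil)))))))) (PF.cons (PF.cons (PF.leaf (nat_lit 8627849) (nat_lit 2488279) (nat_lit 39344829) (nat_lit 9025436) [(nat_lit 0), (nat_lit 2488279), (nat_lit 6297150)]) (PF.cons (PF.leaf (nat_lit 9024293) (nat_lit 728879) (nat_lit 38713153)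 (nat_lit 8963187) [(nat_lit 728879), (nat_lit 2487641), (nat_lit 6265387)]) (PF.cons (PF.leaf (nat_lit 9423412) (nat_lit 733362) (nat_lit 38084940) (nat_lit 8898454) [(nat_lit 733362), (nat_lit 2485460), (nat_lit
 6231390)]) (PF.cons (PF.leaf (nat_lit 9823825) (nat_lit 736952) (nat_lit 37461931) (nat_lit 8831513) [(nat_lit 736952), (nat_lit 2481832), (nat_lit 6195345)]) (PF.cons PF.nil (PF.cons PF.nil PF.nil)))))) (PF.cons (PF.cons (PF.leaf (nat_lit 9559869) (nat_lit 2471622) (nat_lit 37296716) (nat_lit 8805405) [(nat_lit 0), (nat_lit 2471622), (nat_lit 6176956)]) (PF.cons (PF.leaf (nat_lit 9951318) (nat_lit 732871) (nat_lit 36696171) (nat_lit 8737925) [(nat_lit 732871), (nat_lit 2467003), (nat_lit 6139825)]) (PF.cons (PF.leaf (nat_lit 10343611) (nat_lit 735423) (nat_lit 36101466) (nat_lit 8668655) [(nat_lit 735423), (nat_lit 2461142), (nat_lit 6100987)]) (PF.cons PF.nil PF.nil)))) (PF.cons (PF.cons (PF.leaf (nat_lit 10459478) (nat_lit 2444661) (nat_lit 35378377) (nat_lit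 8574184) [(nat_lit 0), (nat_lit 2444661), (nat_lit 6043620)]) (PF.cons PF.nil PF.nil)) (PF.cons PF.nil (PF.cons PF.nil (PF.cons PF.nil PF.nil))))))))))) (PF.cons (PF.cons (PF.cons (PF.leaf (nat_lit 5572487) (nat_lit 6426497) (nat_lit 44851649) (nat_lit 9404169) [(nat_lit 0), (nat_lit 0), (nat_lit 6426497)]) (PF.cons (PF.leaf (nat_lit 5923528) (nat_lit 646915) (nat_lit 44246803) (nat_lit 9372534) [(nat_lit 646915), (nat_lit
 0), (nat_lit 6421279)]) (PF.cons (PF.leaf (nat_lit 6291583) (nat_lit 663392) (nat_lit 43620159) (nat_lit 9336398) [(nat_lit 663392), (nat_lit 0), (nat_lit 6412734)]) (PF.cons (PF.leaf (nat_lit 6672652) (nat_lit 677521) (nat_lit 42978670) (nat_lit 9295953) [(nat_lit 677521), (nat_lit 0), (nat_lit 6400811)]) (PF.cons (PF.leaf (nat_lit 7063830) (nat_lit 689683) (nat_lit 42327575) (nat_lit 9251417) [(nat_lit 689683), (nat_lit 0), (nat_lit 6385542)]) (PF.cons (PF.leaf (nat_lit 7462794) (nat_lit 700155) (nat_lit 41670963) (nat_lit 9203027) [(nat_lit 700155),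 (nat_lit 0), (nat_lit 6367022)]) (PF.cons (PF.leaf (nat_lit 7867625) (nat_lit 709150) (nat_lit 41012108) (nat_lit 9151035) [(nat_lit 709150), (nat_lit 0), (nat_lit 6345382)]) (PF.cons (PF.leaf (nat_lit 8276711) (nat_lit 716838) (nat_lit 40353671) (nat_lit 9095704) [(nat_lit 716838), (nat_lit 0), (nat_lit 6320784)]) (PF.cons (PF.leaf (nat_lit 8688670) (nat_lit 723357) (nat_lit 39697836) (nat_lit 9037302) [(nat_lit 723357), (nat_lit 0), (nat_lit 6293407)]) (PF.cons (PF.leaf (nat_lit 9102308) (nat_lit 728825) (nat_lit 39046405) (nat_lit 8976099) [(nat_lit 728825), (nat_lit 0), (nat_lit 6263440)]) (PF.cons PF.nil (PF.cons PF.nil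
 PF.nil)))))))))))) (PF.cons (PF.cons (PF.leaf (nat_lit 6501189) (nat_lit 2429773) (nat_lit 42654362) (nat_lit 9263117) [(nat_lit 0), (nat_lit 2429773), (nat_lit 6380780)]) (PF.cons (PF.leaf (nat_lit 6870501) (nat_lit 677685) (nat_lit 42038922) (nat_lit 9219856) [(nat_lit 677685), (nat_lit 2441267), (nat_lit 6365540)]) (PF.cons (PF.leaf (nat_lit 7251142) (nat_lit 689405) (nat_lit 41412345) (nat_lit 9172681) [(nat_lit 689405), (nat_lit 2450579), (nat_lit 6347198)]) (PF.cons (PF.leaf (nat_lit 7640242) (nat_lit 699404) (nat_lit 40779256) (nat_lit 9121871) [(nat_lit 699404), (nat_lit 2457758), (nat_lit 6325856)]) (PF.cons (PF.leaf (nat_lit 8035685) (nat_lit 707922) (nat_lit 40143231) (nat_lit 9067701) [(nat_lit 707922), (nat_lit 2462888), (nat_lit 6301650)]) (PF.cons (PF.leaf (nat_lit 8435734) (nat_lit 715144) (nat_lit 39507096) (nat_lit 9010444) [(nat_lit 715144), (nat_lit 2466073), (nat_lit 6274738)]) (PF.cons (PF.leaf (nat_lit 8838933) (nat_lit 721218) (nat_lit 38873125)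 (nat_lit 8950370) [(nat_lit 721218), (nat_lit 2467424), (nat_lit 6245291)]) (PF.cons (PF.leaf (nat_lit 9244069) (nat_lit 726266) (nat_lit 38243166) (nat_lit 8887744) [(nat_lit 726266), (nat_lit 2467060), (nat_lit
 6213489)]) (PF.cons (PF.leaf (nat_lit 9650074) (nat_lit 730392) (nat_lit 37618725) (nat_lit 8822822) [(nat_lit 730392), (nat_lit 2465096), (nat_lit 6179515)]) (PF.cons PF.nil PF.nil)))))))))) (PF.cons (PF.cons (PF.leaf (nat_lit 7435665) (nat_lit 2446119) (nat_lit 40516382) (nat_lit 9090016) [(nat_lit 0), (nat_lit 2446119), (nat_lit 6305086)]) (PF.cons (PF.leaf (nat_lit 7814024) (nat_lit 697729) (nat_lit 39908076) (nat_lit 9037392) [(nat_lit 697729), (nat_lit 2451401), (nat_lit 6281406)]) (PF.cons (PF.leaf (nat_lit 8199640) (nat_lit 705897) (nat_lit 39295667) (nat_lit 8981580) [(nat_lit 705897), (nat_lit 2454818), (nat_lit 6255067)]) (PF.cons (PF.leaf (nat_lit 8590390) (nat_lit 712757) (nat_lit 38682289) (nat_lit 8922876) [(nat_lit 712757), (nat_lit 2456456),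 (nat_lit 6226231)]) (PF.cons (PF.leaf (nat_lit 8984704) (nat_lit 718473) (nat_lit 38070396) (nat_lit 8861558) [(nat_lit 718473), (nat_lit 2456413), (nat_lit 6195068)]) (PF.cons (PF.leaf (nat_lit 9381274) (nat_lit 723176) (nat_lit 37461941) (nat_lit 8797893) [(nat_lit 723176), (nat_lit 2454794), (nat_lit 6161752)]) (PF.cons (PF.leaf (nat_lit 9778994) (nat_lit 726975) (nat_lit 36858492) (nat_lit 8732135) [(nat_lit 726975),
 (nat_lit 2451706), (nat_lit 6126458)]) (PF.cons PF.nil PF.nil)))))))) (PF.cons (PF.cons (PF.leaf (nat_lit 8360592) (nat_lit 2445132) (nat_lit 38468474) (nat_lit 8893028) [(nat_lit 0), (nat_lit 2445132), (nat_lit 6205956)]) (PF.cons (PF.leaf (nat_lit 8741479) (nat_lit 709708) (nat_lit 37878398) (nat_lit 8833336) [(nat_lit 709708), (nat_lit 2445411), (nat_lit 6175567)]) (PF.cons (PF.leaf (nat_lit 9126675) (nat_lit 715156) (nat_lit 37288844) (nat_lit 8771180) [(nat_lit 715156), (nat_lit 2444145), (nat_lit 6143019)]) (PF.cons (PF.leaf (nat_lit 9514562)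 (nat_lit 719590) (nat_lit 36701949) (nat_lit 8706836) [(nat_lit 719590), (nat_lit 2441426), (nat_lit 6108487)]) (PF.cons (PF.leaf (nat_lit 9903975) (nat_lit 723127) (nat_lit 36119398) (nat_lit 8640561) [(nat_lit 723127), (nat_lit 2437353), (nat_lit 6072141)]) (PF.cons PF.nil PF.nil)))))) (PF.cons (PF.cons (PF.leaf (nat_lit 9265755) (nat_lit 2430754) (nat_lit 36527531) (nat_lit 8679493) [(nat_lit 0), (nat_lit 2430754), (nat_lit 6089383)]) (PF.cons (PF.leaf (nat_lit 9644594) (nat_lit 715531) (nat_lit 35962318) (nat_lit 8614814) [(nat_lit 715531), (nat_lit 2427079), (nat_lit 6053915)]) (PF.cons (PF.leaf (nat_lit 10025587) (nat_lit 718872)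
 (nat_lit 35400611) (nat_lit 8548323) [(nat_lit 718872), (nat_lit 2422150), (nat_lit 6016766)]) (PF.cons (PF.leaf (nat_lit 10407493) (nat_lit 721416) (nat_lit 34843867) (nat_lit 8480265) [(nat_lit 721416), (nat_lit 2416057), (nat_lit 5978101)]) PF.nil)))) (PF.cons (PF.cons (PF.leaf (nat_lit 10144605) (nat_lit 2406195) (nat_lit 34701229) (nat_lit 8455601) [(nat_lit 0), (nat_lit 2406195), (nat_lit 5960501)]) (PF.cons (PF.leaf (nat_lit 10518221) (nat_lit 716635) (nat_lit 34164485) (nat_lit 8387701) [(nat_lit 716635), (nat_lit 2399448), (nat_lit 5921373)]) PF.nil)) (PF.cons PF.nil (PF.cons PF.nil (PF.cons PF.nil (PF.cons PF.nil PF.nil)))))))))) (PF.cons (PF.cons (PF.cons (PF.leaf (nat_lit 7223445) (nat_lit 6210699) (nat_lit 39525252) (nat_lit 8951461) [(nat_lit 0), (nat_lit 0), (nat_lit 6210699)]) (PF.cons (PF.leaf (nat_lit 7580513) (nat_lit 673931) (nat_lit 38968537) (nat_lit 8901522) [(nat_lit 673931), (nat_lit 0), (nat_lit 6188273)]) (PF.cons (PF.leaf (nat_lit 7947529)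 (nat_lit 683835) (nat_lit 38403000) (nat_lit 8848342) [(nat_lit 683835), (nat_lit 0), (nat_lit 6163266)]) (PF.cons (PF.leaf (nat_lit 8321798) (nat_lit 692121) (nat_lit 37832688) (nat_lit 8792253) [(nat_lit 692121),
 (nat_lit 0), (nat_lit 6135835)]) (PF.cons (PF.leaf (nat_lit 8701375) (nat_lit 699037) (nat_lit 37260679) (nat_lit 8733552) [(nat_lit 699037), (nat_lit 0), (nat_lit 6106144)]) (PF.cons (PF.leaf (nat_lit 9084681) (nat_lit 704769) (nat_lit 36689376) (nat_lit 8672512) [(nat_lit 704769), (nat_lit 0), (nat_lit 6074359)]) (PF.cons (PF.leaf (nat_lit 9470434) (nat_lit 709466) (nat_lit 36120688) (nat_lit 8609391) [(nat_lit 709466), (nat_lit 0), (nat_lit 6040645)]) (PF.cons (PF.leaf (nat_lit 9857528) (nat_lit 713248) (nat_lit 35556144) (nat_lit 8544425) [(nat_lit 713248), (nat_lit 0), (nat_lit 6005168)]) (PF.cons PF.nil (PF.cons PF.nil PF.nil)))))))))) (PF.cons (PF.cons (PF.leaf (nat_lit 8111834) (nat_lit 2400808) (nat_lit 37603967) (nat_lit 8760494) [(nat_lit 0), (nat_lit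 2400808), (nat_lit 6114514)]) (PF.cons (PF.leaf (nat_lit 8475735) (nat_lit 688976) (nat_lit 37056590) (nat_lit 8703746) [(nat_lit 688976), (nat_lit 2402235), (nat_lit 6085754)]) (PF.cons (PF.leaf (nat_lit 8845926) (nat_lit 695697) (nat_lit 36506283) (nat_lit 8644467) [(nat_lit 695697), (nat_lit 2402081), (nat_lit 6054861)]) (PF.cons (PF.leaf (nat_lit 9220452) (nat_lit 701212) (nat_lit 35955749) (nat_lit 8582957) [(nat_lit
 701212), (nat_lit 2400440), (nat_lit 6022009)]) (PF.cons (PF.leaf (nat_lit 9597870) (nat_lit 705685) (nat_lit 35407077) (nat_lit 8519484) [(nat_lit 705685), (nat_lit 2397410), (nat_lit 5987365)]) (PF.cons (PF.leaf (nat_lit 9977015) (nat_lit 709247) (nat_lit 34861912) (nat_lit 8454293) [(nat_lit 709247), (nat_lit 2393092), (nat_lit 5951092)]) (PF.cons PF.nil (PF.cons PF.nil PF.nil)))))))) (PF.cons (PF.cons (PF.leaf (nat_lit 8988485) (nat_lit 2389209) (nat_lit 35770171) (nat_lit 8554109) [(nat_lit 0), (nat_lit 2389209), (nat_lit 6002038)]) (PF.cons (PF.leaf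 (nat_lit 9353669) (nat_lit 697146) (nat_lit 35240751) (nat_lit 8492469) [(nat_lit 697146), (nat_lit 2386631), (nat_lit 5968394)]) (PF.cons (PF.leaf (nat_lit 9722536) (nat_lit 701472) (nat_lit 34712209) (nat_lit 8428940) [(nat_lit 701472), (nat_lit 2382763), (nat_lit 5933063)]) (PF.cons (PF.leaf (nat_lit 10093607) (nat_lit 704876) (nat_lit 34186373) (nat_lit 8363781) [(nat_lit 704876), (nat_lit 2377699), (nat_lit 5896210)]) (PF.cons (PF.leaf (nat_lit 10465815) (nat_lit 707473) (nat_lit 33664667) (nat_lit 8297222) [(nat_lit 707473), (nat_lit 2371527), (nat_lit 5857991)]) (PF.cons PF.nil PF.nil)))))) (PF.cons (PF.cons (PF.leaf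
 (nat_lit 9845256) (nat_lit 2367368) (nat_lit 34035150) (nat_lit 8337904) [(nat_lit 0), (nat_lit 2367368), (nat_lit 5877884)]) (PF.cons (PF.leaf (nat_lit 10207872) (nat_lit 700148) (nat_lit 33528674) (nat_lit 8273026) [(nat_lit 700148), (nat_lit 2361664), (nat_lit 5840656)]) (PF.cons (PF.leaf (nat_lit 10572286) (nat_lit 702641) (nat_lit 33025506) (nat_lit 8206808) [(nat_lit 702641), (nat_lit 2354927), (nat_lit 5802144)]) (PF.cons PF.nil PF.nil)))) (PF.cons (PF.cons (PF.leaf (nat_lit 10677014) (nat_lit 2337847) (nat_lit 32403226) (nat_lit 8116465) [(nat_lit 0), (nat_lit 2337847), (nat_lit 5745910)]) (PF.cons PF.nil PF.nil)) (PF.cons PF.nil (PF.cons PF.nil (PF.cons PF.nil PF.nil)))))))) (PF.cons (PF.cons (PF.cons (PF.leaf (nat_lit 8729682) (nat_lit 5914670) (nat_lit 35021265) (nat_lit 8428863) [(nat_lit 0), (nat_lit 0), (nat_lit 5914670)]) (PF.cons (PF.leaf (nat_lit 9079722) (nat_lit 677320) (nat_lit 34528714) (nat_lit 8370569) [(nat_lit 677320), (nat_lit 0), (nat_lit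 5883052)]) (PF.cons (PF.leaf (nat_lit 9435342) (nat_lit 682919) (nat_lit 34033958) (nat_lit 8310233) [(nat_lit 682919), (nat_lit 0), (nat_lit 5849695)]) (PF.cons (PF.leaf (nat_lit 9794679) (nat_lit 687403) (nat_lit
 33539342) (nat_lit 8248147) [(nat_lit 687403), (nat_lit 0), (nat_lit 5814777)]) (PF.cons (PF.leaf (nat_lit 10156443) (nat_lit 690933) (nat_lit 33046664) (nat_lit 8184567) [(nat_lit 690933), (nat_lit 0), (nat_lit 5778461)]) (PF.cons (PF.leaf (nat_lit 10519552) (nat_lit 693637) (nat_lit 32557326) (nat_lit 8119714) [(nat_lit 693637), (nat_lit 0), (nat_lit 5740895)]) (PF.cons PF.nil (PF.cons PF.nil PF.nil)))))))) (PF.cons (PF.cons (PF.leaf (nat_lit 9562481) (nat_lit 2327976) (nat_lit 33377759) (nat_lit 8220795) [(nat_lit 0), (nat_lit 2327976), (nat_lit 5795570)]) (PF.cons (PF.leaf (nat_lit 9913013) (nat_lit 682689) (nat_lit 32902064) (nat_lit 8159127) [(nat_lit 682689), (nat_lit 2323446), (nat_lit 5760371)]) (PF.cons (PF.leaf (nat_lit 10266772) (nat_lit 686160)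 (nat_lit 32427354) (nat_lit 8095984) [(nat_lit 686160), (nat_lit 2317827), (nat_lit 5723831)]) (PF.cons (PF.leaf (nat_lit 10622378) (nat_lit 688787) (nat_lit 31955206) (nat_lit 8031608) [(nat_lit 688787), (nat_lit 2311208), (nat_lit 5686106)]) (PF.cons PF.nil (PF.cons PF.nil PF.nil)))))) (PF.cons (PF.cons (PF.leaf (nat_lit 10375900) (nat_lit 2301343) (nat_lit 31823561) (nat_lit 8007416) [(nat_lit 0), (nat_lit 2301343), (nat_lit
 5668786)]) (PF.cons (PF.leaf (nat_lit 10723606) (nat_lit 683661) (nat_lit 31368596) (nat_lit 7943703) [(nat_lit 683661), (nat_lit 2294310), (nat_lit 5631057)]) (PF.cons PF.nil (PF.cons PF.nil PF.nil)))) (PF.cons (PF.cons (PF.leaf (nat_lit 11165785) (nat_lit 2268862) (nat_lit 30361046) (nat_lit 7792161) [(nat_lit 0), (nat_lit 2268862), (nat_lit 5537254)]) (PF.cons PF.nil PF.nil)) (PF.cons PF.nil (PF.cons PF.nil PF.nil)))))) (PF.cons (PF.cons (PF.cons (PF.leaf (nat_lit 10090849) (nat_lit 5591952) (nat_lit 31250147) (nat_lit 7898900) [(nat_lit 0),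 (nat_lit 0), (nat_lit 5591952)]) (PF.cons (PF.leaf (nat_lit 10427761) (nat_lit 667178) (nat_lit 30821704) (nat_lit 7838387) [(nat_lit 667178), (nat_lit 0), (nat_lit 5556308)]) (PF.cons (PF.leaf (nat_lit 10767574) (nat_lit 669991) (nat_lit 30394218) (nat_lit 7776704) [(nat_lit 669991), (nat_lit 0), (nat_lit 5519581)]) (PF.cons PF.nil PF.nil)))) (PF.cons (PF.cons (PF.leaf (nat_lit 10865331) (nat_lit 2234755) (nat_lit 29853956) (nat_lit 7691618) [(nat_lit 0), (nat_lit 2234755), (nat_lit 5465696)]) (PF.cons PF.nil PF.nil)) (PF.cons PF.nil (PF.cons PF.nil PF.nil)))) (PF.cons (PF.cons (PF.cons (PF.leaf (nat_lit 11319706) (nat_lit 5270621)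
 (nat_lit 28092917) (nat_lit 7392169) [(nat_lit 0), (nat_lit 0), (nat_lit 5270621)]) (PF.cons PF.nil PF.nil)) (PF.cons PF.nil PF.nil)) (PF.cons PF.nil (PF.cons PF.nil (PF.cons PF.nil PF.nil))))))))))

def p15_36_1_0 : pfC (piC [(nat_lit 35404596), (nat_lit 22827826), (nat_lit 14696761)] (nat_lit 10996129)) p15_36_1 (nat_lit 3) (nat_lit 0) (nat_lit 1) = true := by decide +kernel
def p15_36_1_1 : pfC (piC [(nat_lit 35404596), (nat_lit 22827826), (nat_lit 14696761)] (nat_lit 10996129)) p15_36_1 (nat_lit 3) (nat_lit 1) (nat_lit 2) = true := by decide +kernel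
def p15_36_1_2 : pfC (piC [(nat_lit 35404596), (nat_lit 22827826), (nat_lit 14696761)] (nat_lit 10996129)) p15_36_1 (nat_lit 3) (nat_lit 2) (nat_lit 3) = true := by decide +kernel
def p15_36_1_3 : pfC (piC [(nat_lit 35404596), (nat_lit 22827826), (nat_lit 14696761)] (nat_lit 10996129)) p15_36_1 (nat_lit 3) (nat_lit 3) (nat_lit 4) = true := by decide +kernel
def p15_36_1_4 : pfC (piC [(nat_lit 35404596), (nat_lit 22827826), (nat_lit 14696761)] (nat_lit 10996129)) p15_36_1 (nat_lit 3) (nat_lit 4) (nat_lit 5) = true := by decide +kernel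
def p15_36_1_5 : pfC (piC [(nat_lit 35404596), (nat_lit 22827826), (nat_lit 14696761)] (nat_lit 10996129)) p15_36_1 (nat_lit 3) (nat_lit 5) (nat_lit 6) = true := by decide +kernel
def p15_36_1_6 : pfC (piC [(nat_lit 35404596), (nat_lit 22827826), (nat_lit 14696761)] (nat_lit 10996129)) p15_36_1 (nat_lit 3) (nat_lit 6) (nat_lit 7) = true := by decide +kernel
def p15_36_1_7 : pfC (piC [(nat_lit 35404596), (nat_lit 22827826), (nat_lit 14696761)] (nat_lit 10996129)) p15_36_1 (nat_lit 3) (nat_lit 7) (nat_lit 8) = true := by decide +kernel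
def p15_36_1_8 : pfC (piC [(nat_lit 35404596), (nat_lit 22827826), (nat_lit 14696761)] (nat_lit 10996129)) p15_36_1 (nat_lit 3) (nat_lit 8) (nat_lit 9) = true := by decide +kernel
def p15_36_1_9 : pfC (piC [(nat_lit 35404596), (nat_lit 22827826), (nat_lit 14696761)] (nat_lit 10996129)) p15_36_1 (nat_lit 3) (nat_lit 9) (nat_lit 10) = true := by decide +kernel
def p15_36_1_10 : pfC (piC [(nat_lit 35404596), (nat_lit 22827826), (nat_lit 14696761)] (nat_lit 10996129)) p15_36_1 (nat_lit 3) (nat_lit 10) (nat_lit 11) = true := by decide +kernel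
def p15_36_1_11 : pfC (piC [(nat_lit 35404596), (nat_lit 22827826), (nat_lit 14696761)] (nat_lit 10996129)) p15_36_1 (nat_lit 3) (nat_lit 11) (nat_lit 12) = true := by decide +kernel
def p15_36_1_12 : pfC (piC [(nat_lit 35404596), (nat_lit 22827826), (nat_lit 14696761)] (nat_lit 10996129)) p15_36_1 (nat_lit 3) (nat_lit 12) (nat_lit 13) = true := by decide +kernel
def p15_36_1_13 : pfC (piC [(nat_lit 35404596), (nat_lit 22827826), (nat_lit 14696761)] (nat_lit 10996129)) p15_36_1 (nat_lit 3) (nat_lit 13) (nat_lit 14) = true := by decide +kernel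
def p15_36_1_14 : pfC (piC [(nat_lit 35404596), (nat_lit 22827826), (nat_lit 14696761)] (nat_lit 10996129)) p15_36_1 (nat_lit 3) (nat_lit 14) (nat_lit 15) = true := by decide +kernel
def p15_36_1_15 : pfC (piC [(nat_lit 35404596), (nat_lit 22827826), (nat_lit 14696761)] (nat_lit 10996129)) p15_36_1 (nat_lit 3) (nat_lit 15) (nat_lit 16) = true := by decide +kernel
def p15_36_1_16 : pfC (piC [(nat_lit 35404596), (nat_lit 22827826), (nat_lit 14696761)] (nat_lit 10996129)) p15_36_1 (nat_lit 3) (nat_lit 16) (nat_lit 17) = true := by decide +kernel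
def p15_36_1_17 : pfC (piC [(nat_lit 35404596), (nat_lit 22827826), (nat_lit 14696761)] (nat_lit 10996129)) p15_36_1 (nat_lit 3) (nat_lit 17) (nat_lit 18) = true := by decide +kernel
def p15_36_1_18 : pfC (piC [(nat_lit 35404596), (nat_lit 22827826), (nat_lit 14696761)] (nat_lit 10996129)) p15_36_1 (nat_lit 3) (nat_lit 18) (nat_lit 19) = true := by decide +kernel
def p15_36_1_19 : pfC (piC [(nat_lit 35404596), (nat_lit 22827826), (nat_lit 14696761)] (nat_lit 10996129)) p15_36_1 (nat_lit 3) (nat_lit 19) (nat_lit 20) = true := by decide +kernel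
def p15_36_1_20 : pfC (piC [(nat_lit 35404596), (nat_lit 22827826), (nat_lit 14696761)] (nat_lit 10996129)) p15_36_1 (nat_lit 3) (nat_lit 20) (nat_lit 21) = true := by decide +kernel
def p15_36_1_21 : pfC (piC [(nat_lit 35404596), (nat_lit 22827826), (nat_lit 14696761)] (nat_lit 10996129)) p15_36_1 (nat_lit 3) (nat_lit 21) (nat_lit 22) = true := by decide +kernel
def p15_36_1_22 : pfC (piC [(nat_lit 35404596), (nat_lit 22827826), (nat_lit 14696761)] (nat_lit 10996129)) p15_36_1 (nat_lit 3) (nat_lit 22) (nat_lit 23) = true := by decide +kernel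
def p15_36_1_23 : pfC (piC [(nat_lit 35404596), (nat_lit 22827826), (nat_lit 14696761)] (nat_lit 10996129)) p15_36_1 (nat_lit 3) (nat_lit 23) (nat_lit 24) = true := by decide +kernel
def p15_36_1_24 : pfC (piC [(nat_lit 35404596), (nat_lit 22827826), (nat_lit 14696761)] (nat_lit 10996129)) p15_36_1 (nat_lit 3) (nat_lit 24) (nat_lit 25) = true := by decide +kernel
def p15_36_1_25 : pfC (piC [(nat_lit 35404596), (nat_lit 22827826), (nat_lit 14696761)] (nat_lit 10996129)) p15_36_1 (nat_lit 3) (nat_lit 25) (nat_lit 26) = true := by decide +kernel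
def p15_36_1_26 : pfC (piC [(nat_lit 35404596), (nat_lit 22827826), (nat_lit 14696761)] (nat_lit 10996129)) p15_36_1 (nat_lit 3) (nat_lit 26) (nat_lit 27) = true := by decide +kernel
def p15_36_1_27 : pfC (piC [(nat_lit 35404596), (nat_lit 22827826), (nat_lit 14696761)] (nat_lit 10996129)) p15_36_1 (nat_lit 3) (nat_lit 27) (nat_lit 28) = true := by decide +kernel
def p15_36_1_28 : pfC (piC [(nat_lit 35404596), (nat_lit 22827826), (nat_lit 14696761)] (nat_lit 10996129)) p15_36_1 (nat_lit 3) (nat_lit 28) (nat_lit 29) = true := by decide +kernel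
def p15_36_1_29 : pfC (piC [(nat_lit 35404596), (nat_lit 22827826), (nat_lit 14696761)] (nat_lit 10996129)) p15_36_1 (nat_lit 3) (nat_lit 29) (nat_lit 30) = true := by decide +kernel
def p15_36_1_30 : pfC (piC [(nat_lit 35404596), (nat_lit 22827826), (nat_lit 14696761)] (nat_lit 10996129)) p15_36_1 (nat_lit 3) (nat_lit 30) (nat_lit 31) = true := by decide +kernel
def p15_36_1_31 : pfC (piC [(nat_lit 35404596), (nat_lit 22827826), (nat_lit 14696761)] (nat_lit 10996129)) p15_36_1 (nat_lit 3) (nat_lit 31) (nat_lit 32) = true := by decide +kernel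
def p15_36_1_32 : pfC (piC [(nat_lit 35404596), (nat_lit 22827826), (nat_lit 14696761)] (nat_lit 10996129)) p15_36_1 (nat_lit 3) (nat_lit 32) (nat_lit 33) = true := by decide +kernel
def p15_36_1_33 : pfC (piC [(nat_lit 35404596), (nat_lit 22827826), (nat_lit 14696761)] (nat_lit 10996129)) p15_36_1 (nat_lit 3) (nat_lit 33) (nat_lit 34) = true := by decide +kernel
def p15_36_1_34 : pfC (piC [(nat_lit 35404596), (nat_lit 22827826), (nat_lit 14696761)] (nat_lit 10996129)) p15_36_1 (nat_lit 3) (nat_lit 34) (nat_lit 35) = true := by decide +kernel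
def p15_36_1_35 : pfC (piC [(nat_lit 35404596), (nat_lit 22827826), (nat_lit 14696761)] (nat_lit 10996129)) p15_36_1 (nat_lit 3) (nat_lit 35) (nat_lit 36) = true := by decide +kernel
def p15_36_1_36 : pfC (piC [(nat_lit 35404596), (nat_lit 22827826), (nat_lit 14696761)] (nat_lit 10996129)) p15_36_1 (nat_lit 3) (nat_lit 36) (nat_lit 37) = true := by decide +kernel
def p15_36_1_37 : pfC (piC [(nat_lit 35404596), (nat_lit 22827826), (nat_lit 14696761)] (nat_lit 10996129)) p15_36_1 (nat_lit 3) (nat_lit 37) (nat_lit 38) = true := by decide +kernel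
def p15_36_1_38 : pfC (piC [(nat_lit 35404596), (nat_lit 22827826), (nat_lit 14696761)] (nat_lit 10996129)) p15_36_1 (nat_lit 3) (nat_lit 38) (nat_lit 39) = true := by decide +kernel
def p15_36_1_39 : pfC (piC [(nat_lit 35404596), (nat_lit 22827826), (nat_lit 14696761)] (nat_lit 10996129)) p15_36_1 (nat_lit 3) (nat_lit 39) (nat_lit 40) = true := by decide +kernel
def p15_36_1_40 : pfC (piC [(nat_lit 35404596), (nat_lit 22827826), (nat_lit 14696761)] (nat_lit 10996129)) p15_36_1 (nat_lit 3) (nat_lit 40) (nat_lit 41) = true := by decide +kernel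
def p15_36_1_41 : pfC (piC [(nat_lit 35404596), (nat_lit 22827826), (nat_lit 14696761)] (nat_lit 10996129)) p15_36_1 (nat_lit 3) (nat_lit 41) (nat_lit 42) = true := by decide +kernel
def p15_36_1_42 : pfC (piC [(nat_lit 35404596), (nat_lit 22827826), (nat_lit 14696761)] (nat_lit 10996129)) p15_36_1 (nat_lit 3) (nat_lit 42) (nat_lit 43) = true := by decide +kernel
def p15_36_1_43 : pfC (piC [(nat_lit 35404596), (nat_lit 22827826), (nat_lit 14696761)] (nat_lit 10996129)) p15_36_1 (nat_lit 3) (nat_lit 43) (nat_lit 44) = true := by decide +kernel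
def p15_36_1_44 : pfC (piC [(nat_lit 35404596), (nat_lit 22827826), (nat_lit 14696761)] (nat_lit 10996129)) p15_36_1 (nat_lit 3) (nat_lit 44) (nat_lit 45) = true := by decide +kernel
def p15_36_1_45 : pfC (piC [(nat_lit 35404596), (nat_lit 22827826), (nat_lit 14696761)] (nat_lit 10996129)) p15_36_1 (nat_lit 3) (nat_lit 45) (nat_lit 46) = true := by decide +kernel
def p15_36_1_46 : pfC (piC [(nat_lit 35404596), (nat_lit 22827826), (nat_lit 14696761)] (nat_lit 10996129)) p15_36_1 (nat_lit 3) (nat_lit 46) (nat_lit 47) = true := by decide +kernel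
def p15_36_1_47 : pfC (piC [(nat_lit 35404596), (nat_lit 22827826), (nat_lit 14696761)] (nat_lit 10996129)) p15_36_1 (nat_lit 3) (nat_lit 47) (nat_lit 48) = true := by decide +kernel
def p15_36_1_48 : pfC (piC [(nat_lit 35404596), (nat_lit 22827826), (nat_lit 14696761)] (nat_lit 10996129)) p15_36_1 (nat_lit 3) (nat_lit 48) (nat_lit 49) = true := by decide +kernel
def p15_36_1_49 : pfC (piC [(nat_lit 35404596), (nat_lit 22827826), (nat_lit 14696761)] (nat_lit 10996129)) p15_36_1 (nat_lit 3) (nat_lit 49) (nat_lit 50) = true := by decide +kernel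
def p15_36_1_50 : pfC (piC [(nat_lit 35404596), (nat_lit 22827826), (nat_lit 14696761)] (nat_lit 10996129)) p15_36_1 (nat_lit 3) (nat_lit 50) (nat_lit 51) = true := by decide +kernel
def p15_36_1_51 : pfC (piC [(nat_lit 35404596), (nat_lit 22827826), (nat_lit 14696761)] (nat_lit 10996129)) p15_36_1 (nat_lit 3) (nat_lit 51) (nat_lit 52) = true := by decide +kernel
def p15_36_1_52 : pfC (piC [(nat_lit 35404596), (nat_lit 22827826), (nat_lit 14696761)] (nat_lit 10996129)) p15_36_1 (nat_lit 3) (nat_lit 52) (nat_lit 53) = true := by decide +kernel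
def p15_36_1_53 : pfC (piC [(nat_lit 35404596), (nat_lit 22827826), (nat_lit 14696761)] (nat_lit 10996129)) p15_36_1 (nat_lit 3) (nat_lit 53) (nat_lit 54) = true := by decide +kernel
def p15_36_1_54 : pfC (piC [(nat_lit 35404596), (nat_lit 22827826), (nat_lit 14696761)] (nat_lit 10996129)) p15_36_1 (nat_lit 3) (nat_lit 54) (nat_lit 55) = true := by decide +kernel
def p15_36_1_55 : pfC (piC [(nat_lit 35404596), (nat_lit 22827826), (nat_lit 14696761)] (nat_lit 10996129)) p15_36_1 (nat_lit 3) (nat_lit 55) (nat_lit 56) = true := by decide +kernel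
def p15_36_1_56 : pfC (piC [(nat_lit 35404596), (nat_lit 22827826), (nat_lit 14696761)] (nat_lit 10996129)) p15_36_1 (nat_lit 3) (nat_lit 56) (nat_lit 57) = true := by decide +kernel
def p15_36_1_57 : pfC (piC [(nat_lit 35404596), (nat_lit 22827826), (nat_lit 14696761)] (nat_lit 10996129)) p15_36_1 (nat_lit 3) (nat_lit 57) (nat_lit 58) = true := by decide +kernel
def p15_36_1_58 : pfC (piC [(nat_lit 35404596), (nat_lit 22827826), (nat_lit 14696761)] (nat_lit 10996129)) p15_36_1 (nat_lit 3) (nat_lit 58) (nat_lit 59) = true := by decide +kernel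
def p15_36_1_59 : pfC (piC [(nat_lit 35404596), (nat_lit 22827826), (nat_lit 14696761)] (nat_lit 10996129)) p15_36_1 (nat_lit 3) (nat_lit 59) (nat_lit 60) = true := by decide +kernel
def p15_36_1_60 : pfC (piC [(nat_lit 35404596), (nat_lit 22827826), (nat_lit 14696761)] (nat_lit 10996129)) p15_36_1 (nat_lit 3) (nat_lit 60) (nat_lit 61) = true := by decide +kernel
def p15_36_1_61 : pfC (piC [(nat_lit 35404596), (nat_lit 22827826), (nat_lit 14696761)] (nat_lit 10996129)) p15_36_1 (nat_lit 3) (nat_lit 61) (nat_lit 62) = true := by decide +kernel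
def p15_36_1_62 : pfC (piC [(nat_lit 35404596), (nat_lit 22827826), (nat_lit 14696761)] (nat_lit 10996129)) p15_36_1 (nat_lit 3) (nat_lit 62) (nat_lit 63) = true := by decide +kernel
def p15_36_1_63 : pfC (piC [(nat_lit 35404596), (nat_lit 22827826), (nat_lit 14696761)] (nat_lit 10996129)) p15_36_1 (nat_lit 3) (nat_lit 63) (nat_lit 64) = true := by decide +kernel
def p15_36_1_64 : pfC (piC [(nat_lit 35404596), (nat_lit 22827826), (nat_lit 14696761)] (nat_lit 10996129)) p15_36_1 (nat_lit 3) (nat_lit 64) (nat_lit 65) = true := by decide +kernel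
def p15_36_1_65 : pfC (piC [(nat_lit 35404596), (nat_lit 22827826), (nat_lit 14696761)] (nat_lit 10996129)) p15_36_1 (nat_lit 3) (nat_lit 65) (nat_lit 66) = true := by decide +kernel
def p15_36_1_66 : pfC (piC [(nat_lit 35404596), (nat_lit 22827826), (nat_lit 14696761)] (nat_lit 10996129)) p15_36_1 (nat_lit 3) (nat_lit 66) (nat_lit 67) = true := by decide +kernel
def p15_36_1_67 : pfC (piC [(nat_lit 35404596), (nat_lit 22827826), (nat_lit 14696761)] (nat_lit 10996129)) p15_36_1 (nat_lit 3) (nat_lit 67) (nat_lit 68) = true := by decide +kernel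
def p15_36_1_68 : pfC (piC [(nat_lit 35404596), (nat_lit 22827826), (nat_lit 14696761)] (nat_lit 10996129)) p15_36_1 (nat_lit 3) (nat_lit 68) (nat_lit 69) = true := by decide +kernel
def p15_36_1_69 : pfC (piC [(nat_lit 35404596), (nat_lit 22827826), (nat_lit 14696761)] (nat_lit 10996129)) p15_36_1 (nat_lit 3) (nat_lit 69) (nat_lit 70) = true := by decide +kernel
def p15_36_1_70 : pfC (piC [(nat_lit 35404596), (nat_lit 22827826), (nat_lit 14696761)] (nat_lit 10996129)) p15_36_1 (nat_lit 3) (nat_lit 70) (nat_lit 71) = true := by decide +kernel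
def p15_36_1_71 : pfC (piC [(nat_lit 35404596), (nat_lit 22827826), (nat_lit 14696761)] (nat_lit 10996129)) p15_36_1 (nat_lit 3) (nat_lit 71) (nat_lit 72) = true := by decide +kernel
def p15_36_1_72 : pfC (piC [(nat_lit 35404596), (nat_lit 22827826), (nat_lit 14696761)] (nat_lit 10996129)) p15_36_1 (nat_lit 3) (nat_lit 72) (nat_lit 73) = true := by decide +kernel
def p15_36_1_73 : pfC (piC [(nat_lit 35404596), (nat_lit 22827826), (nat_lit 14696761)] (nat_lit 10996129)) p15_36_1 (nat_lit 3) (nat_lit 73) (nat_lit 74) = true := by decide +kernel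
def p15_36_1_74 : pfC (piC [(nat_lit 35404596), (nat_lit 22827826), (nat_lit 14696761)] (nat_lit 10996129)) p15_36_1 (nat_lit 3) (nat_lit 74) (nat_lit 75) = true := by decide +kernel
def p15_36_1_75 : pfC (piC [(nat_lit 35404596), (nat_lit 22827826), (nat_lit 14696761)] (nat_lit 10996129)) p15_36_1 (nat_lit 3) (nat_lit 75) (nat_lit 76) = true := by decide +kernel
def p15_36_1_76 : pfC (piC [(nat_lit 35404596), (nat_lit 22827826), (nat_lit 14696761)] (nat_lit 10996129)) p15_36_1 (nat_lit 3) (nat_lit 76) (nat_lit 77) = true := by decide +kernel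
def p15_36_1_77 : pfC (piC [(nat_lit 35404596), (nat_lit 22827826), (nat_lit 14696761)] (nat_lit 10996129)) p15_36_1 (nat_lit 3) (nat_lit 77) (nat_lit 78) = true := by decide +kernel
def p15_36_1_78 : pfC (piC [(nat_lit 35404596), (nat_lit 22827826), (nat_lit 14696761)] (nat_lit 10996129)) p15_36_1 (nat_lit 3) (nat_lit 78) (nat_lit 79) = true := by decide +kernel
def p15_36_1_79 : pfC (piC [(nat_lit 35404596), (nat_lit 22827826), (nat_lit 14696761)] (nat_lit 10996129)) p15_36_1 (nat_lit 3) (nat_lit 79) (nat_lit 80) = true := by decide +kernel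
def p15_36_1_80 : pfC (piC [(nat_lit 35404596), (nat_lit 22827826), (nat_lit 14696761)] (nat_lit 10996129)) p15_36_1 (nat_lit 3) (nat_lit 80) (nat_lit 81) = true := by decide +kernel
def p15_36_1_81 : pfC (piC [(nat_lit 35404596), (nat_lit 22827826), (nat_lit 14696761)] (nat_lit 10996129)) p15_36_1 (nat_lit 3) (nat_lit 81) (nat_lit 82) = true := by decide +kernel
def p15_36_1_82 : pfC (piC [(nat_lit 35404596), (nat_lit 22827826), (nat_lit 14696761)] (nat_lit 10996129)) p15_36_1 (nat_lit 3) (nat_lit 82) (nat_lit 83) = true := by decide +kernel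
def p15_36_1_83 : pfC (piC [(nat_lit 35404596), (nat_lit 22827826), (nat_lit 14696761)] (nat_lit 10996129)) p15_36_1 (nat_lit 3) (nat_lit 83) (nat_lit 84) = true := by decide +kernel
def p15_36_1_84 : pfC (piC [(nat_lit 35404596), (nat_lit 22827826), (nat_lit 14696761)] (nat_lit 10996129)) p15_36_1 (nat_lit 3) (nat_lit 84) (nat_lit 85) = true := by decide +kernel
def p15_36_1_85 : pfC (piC [(nat_lit 35404596), (nat_lit 22827826), (nat_lit 14696761)] (nat_lit 10996129)) p15_36_1 (nat_lit 3) (nat_lit 85) (nat_lit 86) = true := by decide +kernel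
def p15_36_1_86 : pfC (piC [(nat_lit 35404596), (nat_lit 22827826), (nat_lit 14696761)] (nat_lit 10996129)) p15_36_1 (nat_lit 3) (nat_lit 86) (nat_lit 87) = true := by decide +kernel
def p15_36_1_87 : pfC (piC [(nat_lit 35404596), (nat_lit 22827826), (nat_lit 14696761)] (nat_lit 10996129)) p15_36_1 (nat_lit 3) (nat_lit 87) (nat_lit 88) = true := by decide +kernel
def p15_36_1_88 : pfC (piC [(nat_lit 35404596), (nat_lit 22827826), (nat_lit 14696761)] (nat_lit 10996129)) p15_36_1 (nat_lit 3) (nat_lit 88) (nat_lit 89) = true := by decide +kernel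
def p15_36_1_89 : pfC (piC [(nat_lit 35404596), (nat_lit 22827826), (nat_lit 14696761)] (nat_lit 10996129)) p15_36_1 (nat_lit 3) (nat_lit 89) (nat_lit 90) = true := by decide +kernel
def p15_36_1_90 : pfC (piC [(nat_lit 35404596), (nat_lit 22827826), (nat_lit 14696761)] (nat_lit 10996129)) p15_36_1 (nat_lit 3) (nat_lit 90) (nat_lit 91) = true := by decide +kernel
def p15_36_1_91 : pfC (piC [(nat_lit 35404596), (nat_lit 22827826), (nat_lit 14696761)] (nat_lit 10996129)) p15_36_1 (nat_lit 3) (nat_lit 91) (nat_lit 92) = true := by decide +kernel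
def p15_36_1_92 : pfC (piC [(nat_lit 35404596), (nat_lit 22827826), (nat_lit 14696761)] (nat_lit 10996129)) p15_36_1 (nat_lit 3) (nat_lit 92) (nat_lit 93) = true := by decide +kernel
def p15_36_1_93 : pfC (piC [(nat_lit 35404596), (nat_lit 22827826), (nat_lit 14696761)] (nat_lit 10996129)) p15_36_1 (nat_lit 3) (nat_lit 93) (nat_lit 94) = true := by decide +kernel
def p15_36_1_94 : pfC (piC [(nat_lit 35404596), (nat_lit 22827826), (nat_lit 14696761)] (nat_lit 10996129)) p15_36_1 (nat_lit 3) (nat_lit 94) (nat_lit 95) = true := by decide +kernel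
def p15_36_1_95 : pfC (piC [(nat_lit 35404596), (nat_lit 22827826), (nat_lit 14696761)] (nat_lit 10996129)) p15_36_1 (nat_lit 3) (nat_lit 95) (nat_lit 96) = true := by decide +kernel
def p15_36_1_96 : pfC (piC [(nat_lit 35404596), (nat_lit 22827826), (nat_lit 14696761)] (nat_lit 10996129)) p15_36_1 (nat_lit 3) (nat_lit 96) (nat_lit 97) = true := by decide +kernel
def p15_36_1_97 : pfC (piC [(nat_lit 35404596), (nat_lit 22827826), (nat_lit 14696761)] (nat_lit 10996129)) p15_36_1 (nat_lit 3) (nat_lit 97) (nat_lit 98) = true := by decide +kernel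
def p15_36_1_98 : pfC (piC [(nat_lit 35404596), (nat_lit 22827826), (nat_lit 14696761)] (nat_lit 10996129)) p15_36_1 (nat_lit 3) (nat_lit 98) (nat_lit 99) = true := by decide +kernel
def p15_36_1_99 : pfC (piC [(nat_lit 35404596), (nat_lit 22827826), (nat_lit 14696761)] (nat_lit 10996129)) p15_36_1 (nat_lit 3) (nat_lit 99) (nat_lit 100) = true := by decide +kernel
def p15_36_1_100 : pfC (piC [(nat_lit 35404596), (nat_lit 22827826), (nat_lit 14696761)] (nat_lit 10996129)) p15_36_1 (nat_lit 3) (nat_lit 100) (nat_lit 101) = true := by decide +kernel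
def p15_36_1_101 : pfC (piC [(nat_lit 35404596), (nat_lit 22827826), (nat_lit 14696761)] (nat_lit 10996129)) p15_36_1 (nat_lit 3) (nat_lit 101) (nat_lit 102) = true := by decide +kernel
def p15_36_1_102 : pfC (piC [(nat_lit 35404596), (nat_lit 22827826), (nat_lit 14696761)] (nat_lit 10996129)) p15_36_1 (nat_lit 3) (nat_lit 102) (nat_lit 103) = true := by decide +kernel
def p15_36_1_103 : pfC (piC [(nat_lit 35404596), (nat_lit 22827826), (nat_lit 14696761)] (nat_lit 10996129)) p15_36_1 (nat_lit 3) (nat_lit 103) (nat_lit 104) = true := by decide +kernel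
def p15_36_1_104 : pfC (piC [(nat_lit 35404596), (nat_lit 22827826), (nat_lit 14696761)] (nat_lit 10996129)) p15_36_1 (nat_lit 3) (nat_lit 104) (nat_lit 105) = true := by decide +kernel
def p15_36_1_105 : pfC (piC [(nat_lit 35404596), (nat_lit 22827826), (nat_lit 14696761)] (nat_lit 10996129)) p15_36_1 (nat_lit 3) (nat_lit 105) (nat_lit 106) = true := by decide +kernel
def p15_36_1_106 : pfC (piC [(nat_lit 35404596), (nat_lit 22827826), (nat_lit 14696761)] (nat_lit 10996129)) p15_36_1 (nat_lit 3) (nat_lit 106) (nat_lit 107) = true := by decide +kernel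
def p15_36_1_107 : pfC (piC [(nat_lit 35404596), (nat_lit 22827826), (nat_lit 14696761)] (nat_lit 10996129)) p15_36_1 (nat_lit 3) (nat_lit 107) (nat_lit 108) = true := by decide +kernel
def p15_36_1_108 : pfC (piC [(nat_lit 35404596), (nat_lit 22827826), (nat_lit 14696761)] (nat_lit 10996129)) p15_36_1 (nat_lit 3) (nat_lit 108) (nat_lit 109) = true := by decide +kernel
def p15_36_1_109 : pfC (piC [(nat_lit 35404596), (nat_lit 22827826), (nat_lit 14696761)] (nat_lit 10996129)) p15_36_1 (nat_lit 3) (nat_lit 109) (nat_lit 110) = true := by decide +kernel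
def p15_36_1_110 : pfC (piC [(nat_lit 35404596), (nat_lit 22827826), (nat_lit 14696761)] (nat_lit 10996129)) p15_36_1 (nat_lit 3) (nat_lit 110) (nat_lit 111) = true := by decide +kernel
def p15_36_1_111 : pfC (piC [(nat_lit 35404596), (nat_lit 22827826), (nat_lit 14696761)] (nat_lit 10996129)) p15_36_1 (nat_lit 3) (nat_lit 111) (nat_lit 112) = true := by decide +kernel
def p15_36_1_112 : pfC (piC [(nat_lit 35404596), (nat_lit 22827826), (nat_lit 14696761)] (nat_lit 10996129)) p15_36_1 (nat_lit 3) (nat_lit 112) (nat_lit 113) = true := by decide +kernel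
def p15_36_1_113 : pfC (piC [(nat_lit 35404596), (nat_lit 22827826), (nat_lit 14696761)] (nat_lit 10996129)) p15_36_1 (nat_lit 3) (nat_lit 113) (nat_lit 114) = true := by decide +kernel
def p15_36_1_114 : pfC (piC [(nat_lit 35404596), (nat_lit 22827826), (nat_lit 14696761)] (nat_lit 10996129)) p15_36_1 (nat_lit 3) (nat_lit 114) (nat_lit 115) = true := by decide +kernel
def p15_36_1_115 : pfC (piC [(nat_lit 35404596), (nat_lit 22827826), (nat_lit 14696761)] (nat_lit 10996129)) p15_36_1 (nat_lit 3) (nat_lit 115) (nat_lit 116) = true := by decide +kernel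
def p15_36_1_116 : pfC (piC [(nat_lit 35404596), (nat_lit 22827826), (nat_lit 14696761)] (nat_lit 10996129)) p15_36_1 (nat_lit 3) (nat_lit 116) (nat_lit 117) = true := by decide +kernel
def p15_36_1_117 : pfC (piC [(nat_lit 35404596), (nat_lit 22827826), (nat_lit 14696761)] (nat_lit 10996129)) p15_36_1 (nat_lit 3) (nat_lit 117) (nat_lit 118) = true := by decide +kernel
def p15_36_1_118 : pfC (piC [(nat_lit 35404596), (nat_lit 22827826), (nat_lit 14696761)] (nat_lit 10996129)) p15_36_1 (nat_lit 3) (nat_lit 118) (nat_lit 119) = true := by decide +kernel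
def p15_36_1_119 : pfC (piC [(nat_lit 35404596), (nat_lit 22827826), (nat_lit 14696761)] (nat_lit 10996129)) p15_36_1 (nat_lit 3) (nat_lit 119) (nat_lit 120) = true := by decide +kernel
def p15_36_1_120 : pfC (piC [(nat_lit 35404596), (nat_lit 22827826), (nat_lit 14696761)] (nat_lit 10996129)) p15_36_1 (nat_lit 3) (nat_lit 120) (nat_lit 121) = true := by decide +kernel
def p15_36_1_121 : pfC (piC [(nat_lit 35404596), (nat_lit 22827826), (nat_lit 14696761)] (nat_lit 10996129)) p15_36_1 (nat_lit 3) (nat_lit 121) (nat_lit 122) = true := by decide +kernel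
def p15_36_1_122 : pfC (piC [(nat_lit 35404596), (nat_lit 22827826), (nat_lit 14696761)] (nat_lit 10996129)) p15_36_1 (nat_lit 3) (nat_lit 122) (nat_lit 123) = true := by decide +kernel
def p15_36_1_123 : pfC (piC [(nat_lit 35404596), (nat_lit 22827826), (nat_lit 14696761)] (nat_lit 10996129)) p15_36_1 (nat_lit 3) (nat_lit 123) (nat_lit 124) = true := by decide +kernel
def p15_36_1_124 : pfC (piC [(nat_lit 35404596), (nat_lit 22827826), (nat_lit 14696761)] (nat_lit 10996129)) p15_36_1 (nat_lit 3) (nat_lit 124) (nat_lit 125) = true := by decide +kernel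
def p15_36_1_125 : pfC (piC [(nat_lit 35404596), (nat_lit 22827826), (nat_lit 14696761)] (nat_lit 10996129)) p15_36_1 (nat_lit 3) (nat_lit 125) (nat_lit 126) = true := by decide +kernel
def p15_36_1_126 : pfC (piC [(nat_lit 35404596), (nat_lit 22827826), (nat_lit 14696761)] (nat_lit 10996129)) p15_36_1 (nat_lit 3) (nat_lit 126) (nat_lit 127) = true := by decide +kernel
def p15_36_1_127 : pfC (piC [(nat_lit 35404596), (nat_lit 22827826), (nat_lit 14696761)] (nat_lit 10996129)) p15_36_1 (nat_lit 3) (nat_lit 127) (nat_lit 128) = true := by decide +kernel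
def p15_36_1_128 : pfC (piC [(nat_lit 35404596), (nat_lit 22827826), (nat_lit 14696761)] (nat_lit 10996129)) p15_36_1 (nat_lit 3) (nat_lit 128) (nat_lit 129) = true := by decide +kernel
def p15_36_1_129 : pfC (piC [(nat_lit 35404596), (nat_lit 22827826), (nat_lit 14696761)] (nat_lit 10996129)) p15_36_1 (nat_lit 3) (nat_lit 129) (nat_lit 130) = true := by decide +kernel
def p15_36_1_130 : pfC (piC [(nat_lit 35404596), (nat_lit 22827826), (nat_lit 14696761)] (nat_lit 10996129)) p15_36_1 (nat_lit 3) (nat_lit 130) (nat_lit 131) = true := by decide +kernel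
def p15_36_1_131 : pfC (piC [(nat_lit 35404596), (nat_lit 22827826), (nat_lit 14696761)] (nat_lit 10996129)) p15_36_1 (nat_lit 3) (nat_lit 131) (nat_lit 132) = true := by decide +kernel
def p15_36_1_132 : pfC (piC [(nat_lit 35404596), (nat_lit 22827826), (nat_lit 14696761)] (nat_lit 10996129)) p15_36_1 (nat_lit 3) (nat_lit 132) (nat_lit 133) = true := by decide +kernel
def p15_36_1_133 : pfC (piC [(nat_lit 35404596), (nat_lit 22827826), (nat_lit 14696761)] (nat_lit 10996129)) p15_36_1 (nat_lit 3) (nat_lit 133) (nat_lit 134) = true := by decide +kernel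
def p15_36_1_134 : pfC (piC [(nat_lit 35404596), (nat_lit 22827826), (nat_lit 14696761)] (nat_lit 10996129)) p15_36_1 (nat_lit 3) (nat_lit 134) (nat_lit 135) = true := by decide +kernel
def p15_36_1_135 : pfC (piC [(nat_lit 35404596), (nat_lit 22827826), (nat_lit 14696761)] (nat_lit 10996129)) p15_36_1 (nat_lit 3) (nat_lit 135) (nat_lit 136) = true := by decide +kernel
def p15_36_1_136 : pfC (piC [(nat_lit 35404596), (nat_lit 22827826), (nat_lit 14696761)] (nat_lit 10996129)) p15_36_1 (nat_lit 3) (nat_lit 136) (nat_lit 137) = true := by decide +kernel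
def p15_36_1_137 : pfC (piC [(nat_lit 35404596), (nat_lit 22827826), (nat_lit 14696761)] (nat_lit 10996129)) p15_36_1 (nat_lit 3) (nat_lit 137) (nat_lit 138) = true := by decide +kernel
def p15_36_1_138 : pfC (piC [(nat_lit 35404596), (nat_lit 22827826), (nat_lit 14696761)] (nat_lit 10996129)) p15_36_1 (nat_lit 3) (nat_lit 138) (nat_lit 139) = true := by decide +kernel
def p15_36_1_139 : pfC (piC [(nat_lit 35404596), (nat_lit 22827826), (nat_lit 14696761)] (nat_lit 10996129)) p15_36_1 (nat_lit 3) (nat_lit 139) (nat_lit 140) = true := by decide +kernel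
def p15_36_1_140 : pfC (piC [(nat_lit 35404596), (nat_lit 22827826), (nat_lit 14696761)] (nat_lit 10996129)) p15_36_1 (nat_lit 3) (nat_lit 140) (nat_lit 141) = true := by decide +kernel
def p15_36_1_141 : pfC (piC [(nat_lit 35404596), (nat_lit 22827826), (nat_lit 14696761)] (nat_lit 10996129)) p15_36_1 (nat_lit 3) (nat_lit 141) (nat_lit 142) = true := by decide +kernel
def p15_36_1_142 : pfC (piC [(nat_lit 35404596), (nat_lit 22827826), (nat_lit 14696761)] (nat_lit 10996129)) p15_36_1 (nat_lit 3) (nat_lit 142) (nat_lit 143) = true := by decide +kernel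
def p15_36_1_143 : pfC (piC [(nat_lit 35404596), (nat_lit 22827826), (nat_lit 14696761)] (nat_lit 10996129)) p15_36_1 (nat_lit 3) (nat_lit 143) (nat_lit 144) = true := by decide +kernel
def p15_36_1_144 : pfC (piC [(nat_lit 35404596), (nat_lit 22827826), (nat_lit 14696761)] (nat_lit 10996129)) p15_36_1 (nat_lit 3) (nat_lit 144) (nat_lit 145) = true := by decide +kernel
def p15_36_1_145 : pfC (piC [(nat_lit 35404596), (nat_lit 22827826), (nat_lit 14696761)] (nat_lit 10996129)) p15_36_1 (nat_lit 3) (nat_lit 145) (nat_lit 146) = true := by decide +kernel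
def p15_36_1_146 : pfC (piC [(nat_lit 35404596), (nat_lit 22827826), (nat_lit 14696761)] (nat_lit 10996129)) p15_36_1 (nat_lit 3) (nat_lit 146) (nat_lit 147) = true := by decide +kernel
def p15_36_1_147 : pfC (piC [(nat_lit 35404596), (nat_lit 22827826), (nat_lit 14696761)] (nat_lit 10996129)) p15_36_1 (nat_lit 3) (nat_lit 147) (nat_lit 148) = true := by decide +kernel
def p15_36_1_148 : pfC (piC [(nat_lit 35404596), (nat_lit 22827826), (nat_lit 14696761)] (nat_lit 10996129)) p15_36_1 (nat_lit 3) (nat_lit 148) (nat_lit 149) = true := by decide +kernel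
def p15_36_1_149 : pfC (piC [(nat_lit 35404596), (nat_lit 22827826), (nat_lit 14696761)] (nat_lit 10996129)) p15_36_1 (nat_lit 3) (nat_lit 149) (nat_lit 150) = true := by decide +kernel
def p15_36_1_150 : pfC (piC [(nat_lit 35404596), (nat_lit 22827826), (nat_lit 14696761)] (nat_lit 10996129)) p15_36_1 (nat_lit 3) (nat_lit 150) (nat_lit 151) = true := by decide +kernel
def p15_36_1_151 : pfC (piC [(nat_lit 35404596), (nat_lit 22827826), (nat_lit 14696761)] (nat_lit 10996129)) p15_36_1 (nat_lit 3) (nat_lit 151) (nat_lit 152) = true := by decide +kernel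
def p15_36_1_152 : pfC (piC [(nat_lit 35404596), (nat_lit 22827826), (nat_lit 14696761)] (nat_lit 10996129)) p15_36_1 (nat_lit 3) (nat_lit 152) (nat_lit 153) = true := by decide +kernel
def p15_36_1_153 : pfC (piC [(nat_lit 35404596), (nat_lit 22827826), (nat_lit 14696761)] (nat_lit 10996129)) p15_36_1 (nat_lit 3) (nat_lit 153) (nat_lit 154) = true := by decide +kernel
def p15_36_1_154 : pfC (piC [(nat_lit 35404596), (nat_lit 22827826), (nat_lit 14696761)] (nat_lit 10996129)) p15_36_1 (nat_lit 3) (nat_lit 154) (nat_lit 155) = true := by decide +kernel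
def p15_36_1_155 : pfC (piC [(nat_lit 35404596), (nat_lit 22827826), (nat_lit 14696761)] (nat_lit 10996129)) p15_36_1 (nat_lit 3) (nat_lit 155) (nat_lit 156) = true := by decide +kernel
def p15_36_1_156 : pfC (piC [(nat_lit 35404596), (nat_lit 22827826), (nat_lit 14696761)] (nat_lit 10996129)) p15_36_1 (nat_lit 3) (nat_lit 156) (nat_lit 157) = true := by decide +kernel
def p15_36_1_157 : pfC (piC [(nat_lit 35404596), (nat_lit 22827826), (nat_lit 14696761)] (nat_lit 10996129)) p15_36_1 (nat_lit 3) (nat_lit 157) (nat_lit 158) = true := by decide +kernel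
def p15_36_1_158 : pfC (piC [(nat_lit 35404596), (nat_lit 22827826), (nat_lit 14696761)] (nat_lit 10996129)) p15_36_1 (nat_lit 3) (nat_lit 158) (nat_lit 159) = true := by decide +kernel
def p15_36_1_159 : pfC (piC [(nat_lit 35404596), (nat_lit 22827826), (nat_lit 14696761)] (nat_lit 10996129)) p15_36_1 (nat_lit 3) (nat_lit 159) (nat_lit 160) = true := by decide +kernel
def p15_36_1_160 : pfC (piC [(nat_lit 35404596), (nat_lit 22827826), (nat_lit 14696761)] (nat_lit 10996129)) p15_36_1 (nat_lit 3) (nat_lit 160) (nat_lit 161) = true := by decide +kernel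
def p15_36_1_161 : pfC (piC [(nat_lit 35404596), (nat_lit 22827826), (nat_lit 14696761)] (nat_lit 10996129)) p15_36_1 (nat_lit 3) (nat_lit 161) (nat_lit 162) = true := by decide +kernel
def p15_36_1_162 : pfC (piC [(nat_lit 35404596), (nat_lit 22827826), (nat_lit 14696761)] (nat_lit 10996129)) p15_36_1 (nat_lit 3) (nat_lit 162) (nat_lit 163) = true := by decide +kernel
def p15_36_1_163 : pfC (piC [(nat_lit 35404596), (nat_lit 22827826), (nat_lit 14696761)] (nat_lit 10996129)) p15_36_1 (nat_lit 3) (nat_lit 163) (nat_lit 164) = true := by decide +kernel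
def p15_36_1_164 : pfC (piC [(nat_lit 35404596), (nat_lit 22827826), (nat_lit 14696761)] (nat_lit 10996129)) p15_36_1 (nat_lit 3) (nat_lit 164) (nat_lit 165) = true := by decide +kernel
def p15_36_1_165 : pfC (piC [(nat_lit 35404596), (nat_lit 22827826), (nat_lit 14696761)] (nat_lit 10996129)) p15_36_1 (nat_lit 3) (nat_lit 165) (nat_lit 166) = true := by decide +kernel
def p15_36_1_166 : pfC (piC [(nat_lit 35404596), (nat_lit 22827826), (nat_lit 14696761)] (nat_lit 10996129)) p15_36_1 (nat_lit 3) (nat_lit 166) (nat_lit 167) = true := by decide +kernel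
def p15_36_1_167 : pfC (piC [(nat_lit 35404596), (nat_lit 22827826), (nat_lit 14696761)] (nat_lit 10996129)) p15_36_1 (nat_lit 3) (nat_lit 167) (nat_lit 168) = true := by decide +kernel
def p15_36_1_168 : pfC (piC [(nat_lit 35404596), (nat_lit 22827826), (nat_lit 14696761)] (nat_lit 10996129)) p15_36_1 (nat_lit 3) (nat_lit 168) (nat_lit 169) = true := by decide +kernel
def p15_36_1_169 : pfC (piC [(nat_lit 35404596), (nat_lit 22827826), (nat_lit 14696761)] (nat_lit 10996129)) p15_36_1 (nat_lit 3) (nat_lit 169) (nat_lit 170) = true := by decide +kernel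
def p15_36_1_170 : pfC (piC [(nat_lit 35404596), (nat_lit 22827826), (nat_lit 14696761)] (nat_lit 10996129)) p15_36_1 (nat_lit 3) (nat_lit 170) (nat_lit 171) = true := by decide +kernel
def p15_36_1_171 : pfC (piC [(nat_lit 35404596), (nat_lit 22827826), (nat_lit 14696761)] (nat_lit 10996129)) p15_36_1 (nat_lit 3) (nat_lit 171) (nat_lit 172) = true := by decide +kernel
def p15_36_1_172 : pfC (piC [(nat_lit 35404596), (nat_lit 22827826), (nat_lit 14696761)] (nat_lit 10996129)) p15_36_1 (nat_lit 3) (nat_lit 172) (nat_lit 173) = true := by decide +kernel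
def p15_36_1_173 : pfC (piC [(nat_lit 35404596), (nat_lit 22827826), (nat_lit 14696761)] (nat_lit 10996129)) p15_36_1 (nat_lit 3) (nat_lit 173) (nat_lit 174) = true := by decide +kernel
def p15_36_1_174 : pfC (piC [(nat_lit 35404596), (nat_lit 22827826), (nat_lit 14696761)] (nat_lit 10996129)) p15_36_1 (nat_lit 3) (nat_lit 174) (nat_lit 175) = true := by decide +kernel
def p15_36_1_175 : pfC (piC [(nat_lit 35404596), (nat_lit 22827826), (nat_lit 14696761)] (nat_lit 10996129)) p15_36_1 (nat_lit 3) (nat_lit 175) (nat_lit 176) = true := by decide +kernel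
def p15_36_1_176 : pfC (piC [(nat_lit 35404596), (nat_lit 22827826), (nat_lit 14696761)] (nat_lit 10996129)) p15_36_1 (nat_lit 3) (nat_lit 176) (nat_lit 177) = true := by decide +kernel
def p15_36_1_177 : pfC (piC [(nat_lit 35404596), (nat_lit 22827826), (nat_lit 14696761)] (nat_lit 10996129)) p15_36_1 (nat_lit 3) (nat_lit 177) (nat_lit 178) = true := by decide +kernel
def p15_36_1_178 : pfC (piC [(nat_lit 35404596), (nat_lit 22827826), (nat_lit 14696761)] (nat_lit 10996129)) p15_36_1 (nat_lit 3) (nat_lit 178) (nat_lit 179) = true := by decide +kernel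
def p15_36_1_179 : pfC (piC [(nat_lit 35404596), (nat_lit 22827826), (nat_lit 14696761)] (nat_lit 10996129)) p15_36_1 (nat_lit 3) (nat_lit 179) (nat_lit 180) = true := by decide +kernel
def p15_36_1_180 : pfC (piC [(nat_lit 35404596), (nat_lit 22827826), (nat_lit 14696761)] (nat_lit 10996129)) p15_36_1 (nat_lit 3) (nat_lit 180) (nat_lit 181) = true := by decide +kernel
def p15_36_1_181 : pfC (piC [(nat_lit 35404596), (nat_lit 22827826), (nat_lit 14696761)] (nat_lit 10996129)) p15_36_1 (nat_lit 3) (nat_lit 181) (nat_lit 182) = true := by decide +kernel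
def p15_36_1_182 : pfC (piC [(nat_lit 35404596), (nat_lit 22827826), (nat_lit 14696761)] (nat_lit 10996129)) p15_36_1 (nat_lit 3) (nat_lit 182) (nat_lit 183) = true := by decide +kernel
def p15_36_1_183 : pfC (piC [(nat_lit 35404596), (nat_lit 22827826), (nat_lit 14696761)] (nat_lit 10996129)) p15_36_1 (nat_lit 3) (nat_lit 183) (nat_lit 184) = true := by decide +kernel
def p15_36_1_184 : pfC (piC [(nat_lit 35404596), (nat_lit 22827826), (nat_lit 14696761)] (nat_lit 10996129)) p15_36_1 (nat_lit 3) (nat_lit 184) (nat_lit 185) = true := by decide +kernel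
def p15_36_1_185 : pfC (piC [(nat_lit 35404596), (nat_lit 22827826), (nat_lit 14696761)] (nat_lit 10996129)) p15_36_1 (nat_lit 3) (nat_lit 185) (nat_lit 186) = true := by decide +kernel
def p15_36_1_186 : pfC (piC [(nat_lit 35404596), (nat_lit 22827826), (nat_lit 14696761)] (nat_lit 10996129)) p15_36_1 (nat_lit 3) (nat_lit 186) (nat_lit 187) = true := by decide +kernel
def p15_36_1_187 : pfC (piC [(nat_lit 35404596), (nat_lit 22827826), (nat_lit 14696761)] (nat_lit 10996129)) p15_36_1 (nat_lit 3) (nat_lit 187) (nat_lit 188) = true := by decide +kernel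
def p15_36_1_188 : pfC (piC [(nat_lit 35404596), (nat_lit 22827826), (nat_lit 14696761)] (nat_lit 10996129)) p15_36_1 (nat_lit 3) (nat_lit 188) (nat_lit 189) = true := by decide +kernel
def p15_36_1_189 : pfC (piC [(nat_lit 35404596), (nat_lit 22827826), (nat_lit 14696761)] (nat_lit 10996129)) p15_36_1 (nat_lit 3) (nat_lit 189) (nat_lit 190) = true := by decide +kernel
def p15_36_1_190 : pfC (piC [(nat_lit 35404596), (nat_lit 22827826), (nat_lit 14696761)] (nat_lit 10996129)) p15_36_1 (nat_lit 3) (nat_lit 190) (nat_lit 191) = true := by decide +kernel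
def p15_36_1_191 : pfC (piC [(nat_lit 35404596), (nat_lit 22827826), (nat_lit 14696761)] (nat_lit 10996129)) p15_36_1 (nat_lit 3) (nat_lit 191) (nat_lit 192) = true := by decide +kernel
def p15_36_1_192 : pfC (piC [(nat_lit 35404596), (nat_lit 22827826), (nat_lit 14696761)] (nat_lit 10996129)) p15_36_1 (nat_lit 3) (nat_lit 192) (nat_lit 193) = true := by decide +kernel
def p15_36_1_193 : pfC (piC [(nat_lit 35404596), (nat_lit 22827826), (nat_lit 14696761)] (nat_lit 10996129)) p15_36_1 (nat_lit 3) (nat_lit 193) (nat_lit 194) = true := by decide +kernel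
def p15_36_1_194 : pfC (piC [(nat_lit 35404596), (nat_lit 22827826), (nat_lit 14696761)] (nat_lit 10996129)) p15_36_1 (nat_lit 3) (nat_lit 194) (nat_lit 195) = true := by decide +kernel
def p15_36_1_195 : pfC (piC [(nat_lit 35404596), (nat_lit 22827826), (nat_lit 14696761)] (nat_lit 10996129)) p15_36_1 (nat_lit 3) (nat_lit 195) (nat_lit 196) = true := by decide +kernel
def p15_36_1_196 : pfC (piC [(nat_lit 35404596), (nat_lit 22827826), (nat_lit 14696761)] (nat_lit 10996129)) p15_36_1 (nat_lit 3) (nat_lit 196) (nat_lit 197) = true := by decide +kernel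
def p15_36_1_197 : pfC (piC [(nat_lit 35404596), (nat_lit 22827826), (nat_lit 14696761)] (nat_lit 10996129)) p15_36_1 (nat_lit 3) (nat_lit 197) (nat_lit 198) = true := by decide +kernel
def p15_36_1_198 : pfC (piC [(nat_lit 35404596), (nat_lit 22827826), (nat_lit 14696761)] (nat_lit 10996129)) p15_36_1 (nat_lit 3) (nat_lit 198) (nat_lit 199) = true := by decide +kernel
def p15_36_1_199 : pfC (piC [(nat_lit 35404596), (nat_lit 22827826), (nat_lit 14696761)] (nat_lit 10996129)) p15_36_1 (nat_lit 3) (nat_lit 199) (nat_lit 200) = true := by decide +kernel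
def p15_36_1_200 : pfC (piC [(nat_lit 35404596), (nat_lit 22827826), (nat_lit 14696761)] (nat_lit 10996129)) p15_36_1 (nat_lit 3) (nat_lit 200) (nat_lit 201) = true := by decide +kernel
def p15_36_1_201 : pfC (piC [(nat_lit 35404596), (nat_lit 22827826), (nat_lit 14696761)] (nat_lit 10996129)) p15_36_1 (nat_lit 3) (nat_lit 201) (nat_lit 202) = true := by decide +kernel
def p15_36_1_202 : pfC (piC [(nat_lit 35404596), (nat_lit 22827826), (nat_lit 14696761)] (nat_lit 10996129)) p15_36_1 (nat_lit 3) (nat_lit 202) (nat_lit 203) = true := by decide +kernel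
def p15_36_1_203 : pfC (piC [(nat_lit 35404596), (nat_lit 22827826), (nat_lit 14696761)] (nat_lit 10996129)) p15_36_1 (nat_lit 3) (nat_lit 203) (nat_lit 204) = true := by decide +kernel
def p15_36_1_204 : pfC (piC [(nat_lit 35404596), (nat_lit 22827826), (nat_lit 14696761)] (nat_lit 10996129)) p15_36_1 (nat_lit 3) (nat_lit 204) (nat_lit 205) = true := by decide +kernel
def p15_36_1_205 : pfC (piC [(nat_lit 35404596), (nat_lit 22827826), (nat_lit 14696761)] (nat_lit 10996129)) p15_36_1 (nat_lit 3) (nat_lit 205) (nat_lit 206) = true := by decide +kernel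
def p15_36_1_206 : pfC (piC [(nat_lit 35404596), (nat_lit 22827826), (nat_lit 14696761)] (nat_lit 10996129)) p15_36_1 (nat_lit 3) (nat_lit 206) (nat_lit 207) = true := by decide +kernel
def p15_36_1_207 : pfC (piC [(nat_lit 35404596), (nat_lit 22827826), (nat_lit 14696761)] (nat_lit 10996129)) p15_36_1 (nat_lit 3) (nat_lit 207) (nat_lit 208) = true := by decide +kernel
def p15_36_1_208 : pfC (piC [(nat_lit 35404596), (nat_lit 22827826), (nat_lit 14696761)] (nat_lit 10996129)) p15_36_1 (nat_lit 3) (nat_lit 208) (nat_lit 209) = true := by decide +kernel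
def p15_36_1_209 : pfC (piC [(nat_lit 35404596), (nat_lit 22827826), (nat_lit 14696761)] (nat_lit 10996129)) p15_36_1 (nat_lit 3) (nat_lit 209) (nat_lit 210) = true := by decide +kernel
def p15_36_1_210 : pfC (piC [(nat_lit 35404596), (nat_lit 22827826), (nat_lit 14696761)] (nat_lit 10996129)) p15_36_1 (nat_lit 3) (nat_lit 210) (nat_lit 211) = true := by decide +kernel
theorem p15_36_1_T : PfS (PiF n15_36.reverse (nat_lit 10996129)) p15_36_1 (nat_lit 3) [] 0 :=
  pftab_of (los := [(nat_lit 35404596), (nat_lit 22827826), (nat_lit 14696761)]) (by decide +kernel) (hi := (nat_lit 211)) (PfP.trans (PfP.trans (PfP.trans (PfP.trans (PfP.trans (PfP.trans (PfP.trans (PfP.trans (PfP.trans (PfP.trans (PfP.trans (PfP.trans (PfP.trans (PfP.trans (PfP.trans (PfP.trans (PfP.trans (PfP.trans (PfP.trans (PfP.trans (PfP.trans (PfP.trans (PfP.trans (PfP.trans (PfP.trans (PfP.trans (PfP.trans (PfP.trans (PfP.trans (PfP.trans (PfP.trans (PfP.trans (PfP.trans (PfP.trans (PfP.trans (PfP.trans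 (PfP.trans (PfP.trans (PfP.trans (PfP.trans (PfP.trans (PfP.trans (PfP.trans (PfP.trans (PfP.trans (PfP.trans (PfP.trans (PfP.trans (PfP.trans (PfP.trans (PfP.trans (PfP.trans (PfP.trans (PfP.trans (PfP.trans (PfP.trans (PfP.trans (PfP.trans (PfP.trans (PfP.trans (PfP.trans (PfP.trans (PfP.trans (PfP.trans (PfP.trans (PfP.trans (PfP.trans (PfP.trans (PfP.trans (PfP.trans (PfP.trans (PfP.trans (PfP.trans (PfP.trans (PfP.trans (PfP.trans (PfP.trans (PfP.trans (PfP.trans (PfP.trans (PfP.trans (PfP.trans (PfP.trans (PfP.trans (PfP.trans (PfP.trans (PfP.trans (PfP.trans (PfP.trans (PfP.trans (PfP.trans (PfP.trans (PfP.trans (PfP.trans (PfP.trans (PfP.trans (PfP.trans (PfP.trans (PfP.trans (PfP.trans (PfP.trans (PfP.trans (PfP.trans (PfP.trans (PfP.trans (PfP.trans (PfP.trans (PfP.trans (PfP.trans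
 (PfP.trans (PfP.trans (PfP.trans (PfP.trans (PfP.trans (PfP.trans (PfP.trans (PfP.trans (PfP.trans (PfP.trans (PfP.trans (PfP.trans (PfP.trans (PfP.trans (PfP.trans (PfP.trans (PfP.trans (PfP.trans (PfP.trans (PfP.trans (PfP.trans (PfP.trans (PfP.trans (PfP.trans (PfP.trans (PfP.trans (PfP.trans (PfP.trans (PfP.trans (PfP.trans (PfP.trans (PfP.trans (PfP.trans (PfP.trans (PfP.trans (PfP.trans (PfP.trans (PfP.trans (PfP.trans (PfP.trans (PfP.trans (PfP.trans (PfP.trans (PfP.trans (PfP.trans (PfP.trans (PfP.trans (PfP.trans (PfP.trans (PfP.trans (PfP.trans (PfP.trans (PfP.trans (PfP.trans (PfP.trans (PfP.trans (PfP.trans (PfP.trans (PfP.trans (PfP.trans (PfP.trans (PfP.trans (PfP.trans (PfP.trans (PfP.trans (PfP.trans (PfP.trans (PfP.trans (PfP.trans (PfP.trans (PfP.trans (PfP.trans (PfP.trans (PfP.trans (PfP.trans (PfP.trans (PfP.trans (PfP.trans (PfP.trans (PfP.trans (PfP.trans (PfP.trans (PfP.trans (PfP.trans (PfP.trans (PfP.trans (PfP.trans (PfP.trans (PfP.trans (PfP.trans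 (PfP.trans (PfP.trans (PfP.trans (PfP.trans (PfP.trans (PfP.trans (PfP.trans (PfP.trans (PfP.trans (PfP.trans (PfP.trans (pfC_sound p15_36_1_0) (pfC_sound p15_36_1_1)) (pfC_sound p15_36_1_2)) (pfC_sound
 p15_36_1_3)) (pfC_sound p15_36_1_4)) (pfC_sound p15_36_1_5)) (pfC_sound p15_36_1_6)) (pfC_sound p15_36_1_7)) (pfC_sound p15_36_1_8)) (pfC_sound p15_36_1_9)) (pfC_sound p15_36_1_10)) (pfC_sound p15_36_1_11)) (pfC_sound p15_36_1_12)) (pfC_sound p15_36_1_13)) (pfC_sound p15_36_1_14)) (pfC_sound p15_36_1_15)) (pfC_sound p15_36_1_16)) (pfC_sound p15_36_1_17)) (pfC_sound p15_36_1_18)) (pfC_sound p15_36_1_19)) (pfC_sound p15_36_1_20)) (pfC_sound p15_36_1_21)) (pfC_sound p15_36_1_22)) (pfC_sound p15_36_1_23)) (pfC_sound p15_36_1_24)) (pfC_sound p15_36_1_25)) (pfC_sound p15_36_1_26)) (pfC_sound p15_36_1_27)) (pfC_sound p15_36_1_28)) (pfC_sound p15_36_1_29)) (pfC_sound p15_36_1_30)) (pfC_sound p15_36_1_31)) (pfC_sound p15_36_1_32)) (pfC_sound p15_36_1_33)) (pfC_sound p15_36_1_34))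 (pfC_sound p15_36_1_35)) (pfC_sound p15_36_1_36)) (pfC_sound p15_36_1_37)) (pfC_sound p15_36_1_38)) (pfC_sound p15_36_1_39)) (pfC_sound p15_36_1_40)) (pfC_sound p15_36_1_41)) (pfC_sound p15_36_1_42)) (pfC_sound p15_36_1_43)) (pfC_sound p15_36_1_44)) (pfC_sound p15_36_1_45)) (pfC_sound p15_36_1_46)) (pfC_sound p15_36_1_47)) (pfC_sound p15_36_1_48)) (pfC_sound p15_36_1_49)) (pfC_sound p15_36_1_50)) (pfC_sound
 p15_36_1_51)) (pfC_sound p15_36_1_52)) (pfC_sound p15_36_1_53)) (pfC_sound p15_36_1_54)) (pfC_sound p15_36_1_55)) (pfC_sound p15_36_1_56)) (pfC_sound p15_36_1_57)) (pfC_sound p15_36_1_58)) (pfC_sound p15_36_1_59)) (pfC_sound p15_36_1_60)) (pfC_sound p15_36_1_61)) (pfC_sound p15_36_1_62)) (pfC_sound p15_36_1_63)) (pfC_sound p15_36_1_64)) (pfC_sound p15_36_1_65)) (pfC_sound p15_36_1_66)) (pfC_sound p15_36_1_67)) (pfC_sound p15_36_1_68)) (pfC_sound p15_36_1_69)) (pfC_sound p15_36_1_70)) (pfC_sound p15_36_1_71)) (pfC_sound p15_36_1_72)) (pfC_sound p15_36_1_73)) (pfC_sound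 p15_36_1_74)) (pfC_sound p15_36_1_75)) (pfC_sound p15_36_1_76)) (pfC_sound p15_36_1_77)) (pfC_sound p15_36_1_78)) (pfC_sound p15_36_1_79)) (pfC_sound p15_36_1_80)) (pfC_sound p15_36_1_81)) (pfC_sound p15_36_1_82)) (pfC_sound p15_36_1_83)) (pfC_sound p15_36_1_84)) (pfC_sound p15_36_1_85)) (pfC_sound p15_36_1_86)) (pfC_sound p15_36_1_87)) (pfC_sound p15_36_1_88)) (pfC_sound p15_36_1_89)) (pfC_sound p15_36_1_90)) (pfC_sound p15_36_1_91)) (pfC_sound p15_36_1_92)) (pfC_sound p15_36_1_93)) (pfC_sound p15_36_1_94)) (pfC_sound p15_36_1_95)) (pfC_sound p15_36_1_96)) (pfC_sound p15_36_1_97)) (pfC_sound p15_36_1_98)) (pfC_sound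
 p15_36_1_99)) (pfC_sound p15_36_1_100)) (pfC_sound p15_36_1_101)) (pfC_sound p15_36_1_102)) (pfC_sound p15_36_1_103)) (pfC_sound p15_36_1_104)) (pfC_sound p15_36_1_105)) (pfC_sound p15_36_1_106)) (pfC_sound p15_36_1_107)) (pfC_sound p15_36_1_108)) (pfC_sound p15_36_1_109)) (pfC_sound p15_36_1_110)) (pfC_sound p15_36_1_111)) (pfC_sound p15_36_1_112)) (pfC_sound p15_36_1_113)) (pfC_sound p15_36_1_114)) (pfC_sound p15_36_1_115)) (pfC_sound p15_36_1_116)) (pfC_sound p15_36_1_117)) (pfC_sound p15_36_1_118)) (pfC_sound p15_36_1_119)) (pfC_sound p15_36_1_120)) (pfC_sound p15_36_1_121)) (pfC_sound p15_36_1_122)) (pfC_sound p15_36_1_123)) (pfC_sound p15_36_1_124)) (pfC_sound p15_36_1_125)) (pfC_sound p15_36_1_126)) (pfC_sound p15_36_1_127)) (pfC_sound p15_36_1_128)) (pfC_sound p15_36_1_129)) (pfC_sound p15_36_1_130)) (pfC_sound p15_36_1_131)) (pfC_sound p15_36_1_132)) (pfC_sound p15_36_1_133)) (pfC_sound p15_36_1_134)) (pfC_sound p15_36_1_135)) (pfC_sound p15_36_1_136)) (pfC_sound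 p15_36_1_137)) (pfC_sound p15_36_1_138)) (pfC_sound p15_36_1_139)) (pfC_sound p15_36_1_140)) (pfC_sound p15_36_1_141)) (pfC_sound p15_36_1_142)) (pfC_sound p15_36_1_143)) (pfC_sound p15_36_1_144)) (pfC_sound
 p15_36_1_145)) (pfC_sound p15_36_1_146)) (pfC_sound p15_36_1_147)) (pfC_sound p15_36_1_148)) (pfC_sound p15_36_1_149)) (pfC_sound p15_36_1_150)) (pfC_sound p15_36_1_151)) (pfC_sound p15_36_1_152)) (pfC_sound p15_36_1_153)) (pfC_sound p15_36_1_154)) (pfC_sound p15_36_1_155)) (pfC_sound p15_36_1_156)) (pfC_sound p15_36_1_157)) (pfC_sound p15_36_1_158)) (pfC_sound p15_36_1_159)) (pfC_sound p15_36_1_160)) (pfC_sound p15_36_1_161)) (pfC_sound p15_36_1_162)) (pfC_sound p15_36_1_163)) (pfC_sound p15_36_1_164)) (pfC_sound p15_36_1_165)) (pfC_sound p15_36_1_166)) (pfC_sound p15_36_1_167)) (pfC_sound p15_36_1_168)) (pfC_sound p15_36_1_169)) (pfC_sound p15_36_1_170)) (pfC_sound p15_36_1_171)) (pfC_sound p15_36_1_172)) (pfC_sound p15_36_1_173)) (pfC_sound p15_36_1_174)) (pfC_sound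 p15_36_1_175)) (pfC_sound p15_36_1_176)) (pfC_sound p15_36_1_177)) (pfC_sound p15_36_1_178)) (pfC_sound p15_36_1_179)) (pfC_sound p15_36_1_180)) (pfC_sound p15_36_1_181)) (pfC_sound p15_36_1_182)) (pfC_sound p15_36_1_183)) (pfC_sound p15_36_1_184)) (pfC_sound p15_36_1_185)) (pfC_sound p15_36_1_186)) (pfC_sound p15_36_1_187)) (pfC_sound p15_36_1_188)) (pfC_sound p15_36_1_189)) (pfC_sound p15_36_1_190)) (pfC_sound
 p15_36_1_191)) (pfC_sound p15_36_1_192)) (pfC_sound p15_36_1_193)) (pfC_sound p15_36_1_194)) (pfC_sound p15_36_1_195)) (pfC_sound p15_36_1_196)) (pfC_sound p15_36_1_197)) (pfC_sound p15_36_1_198)) (pfC_sound p15_36_1_199)) (pfC_sound p15_36_1_200)) (pfC_sound p15_36_1_201)) (pfC_sound p15_36_1_202)) (pfC_sound p15_36_1_203)) (pfC_sound p15_36_1_204)) (pfC_sound p15_36_1_205)) (pfC_sound p15_36_1_206)) (pfC_sound p15_36_1_207)) (pfC_sound p15_36_1_208)) (pfC_sound p15_36_1_209)) (pfC_sound p15_36_1_210)) (by decide +kernel)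

def z15_36_1 : zOK yB15_36 (nat_lit 1) (nat_lit 400) (nat_lit 600) (nat_lit 10996129) (nat_lit 6931473) = true := by decide +kernel
def g15_36_1 : gOK yB15_36.x P15_36 (nat_lit 1374) (q15_36 :: r15_36) (nat_lit 1) (nat_lit 400) (nat_lit 2) (nat_lit 600) (nat_lit 11000000) (nat_lit 17850000) (nat_lit 12712500) (nat_lit 12712500) [(nat_lit 800), (nat_lit 1600)] = true := by decide +kernel
def v15_36_1 : ivC P15_36 s15_36 w15_36 n15_36 (nat_lit 3) (nat_lit 4860) (nat_lit 1) (nat_lit 400) f184_0_400 f192_0_400 (nat_lit 2) (nat_lit 600) f184_0_600 f192_0_600 (nat_lit 10996129) (nat_lit 6931473) p15_36_1 = true := by decide +kernel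
def p15_36_2 : PF := (PF.cons (PF.cons (PF.cons (PF.leaf (nat_lit 2580785) (nat_lit 14204742) (nat_lit 52904070) (nat_lit 14204742) [(nat_lit 0), (nat_lit 0), (nat_lit 0)]) (PF.cons (PF.leaf (nat_lit 2822136) (nat_lit 455587) (nat_lit 52459656) (nat_lit 14193569) [(nat_lit 455587), (nat_lit 0), (nat_lit 0)]) (PF.cons (PF.leaf (nat_lit 3104821) (nat_lit 494107) (nat_lit 51943744) (nat_lit 14176853) [(nat_lit 494107), (nat_lit 0), (nat_lit 0)]) (PF.cons (PF.leaf (nat_lit 3420483) (nat_lit 527707) (nat_lit 51371856) (nat_lit 14153834) [(nat_lit 527707), (nat_lit 0), (nat_lit 0)]) (PF.cons (PF.leaf (nat_lit 3763508) (nat_lit 557400) (nat_lit 50755267) (nat_lit 14123942) [(nat_lit 557400), (nat_lit 0), (nat_lit 0)]) (PF.cons (PF.leaf (nat_lit 4129496) (nat_lit 583838) (nat_lit 50102817) (nat_lit 14086802) [(nat_lit 583838), (nat_lit 0), (nat_lit 0)]) (PF.cons (PF.leaf (nat_lit 4514790) (nat_lit 607473) (nat_lit 49421753) (nat_lit 14042218) [(nat_lit 607473), (nat_lit 0),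 (nat_lit 0)]) (PF.cons (PF.leaf (nat_lit 4916287) (nat_lit 628640) (nat_lit 48718183) (nat_lit 13990148) [(nat_lit 628640), (nat_lit 0), (nat_lit 0)]) (PF.cons (PF.leaf (nat_lit 5331267) (nat_lit 647598) (nat_lit 47997337) (nat_lit
 13930686) [(nat_lit 647598), (nat_lit 0), (nat_lit 0)]) (PF.cons (PF.leaf (nat_lit 5757349) (nat_lit 664559) (nat_lit 47263740) (nat_lit 13864032) [(nat_lit 664559), (nat_lit 0), (nat_lit 0)]) (PF.cons (PF.leaf (nat_lit 6192388) (nat_lit 679700) (nat_lit 46521332) (nat_lit 13790474) [(nat_lit 679700), (nat_lit 0), (nat_lit 0)]) (PF.cons (PF.leaf (nat_lit 6634517) (nat_lit 693172) (nat_lit 45773544) (nat_lit 13710366) [(nat_lit 693172), (nat_lit 0), (nat_lit 0)]) (PF.cons (PF.leaf (nat_lit 7081988) (nat_lit 705110) (nat_lit 45023374) (nat_lit 13624112) [(nat_lit 705110), (nat_lit 0), (nat_lit 0)]) (PF.cons (PF.leaf (nat_lit 7533325) (nat_lit 715633) (nat_lit 44273430) (nat_lit 13532149) [(nat_lit 715633), (nat_lit 0), (nat_lit 0)]) (PF.cons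 (PF.leaf (nat_lit 7987138) (nat_lit 724850) (nat_lit 43525979) (nat_lit 13434933) [(nat_lit 724850), (nat_lit 0), (nat_lit 0)]) (PF.cons (PF.leaf (nat_lit 8442216) (nat_lit 732859) (nat_lit 42782982) (nat_lit 13332932) [(nat_lit 732859), (nat_lit 0), (nat_lit 0)]) (PF.cons PF.nil (PF.cons PF.nil PF.nil)))))))))))))))))) (PF.cons (PF.cons (PF.leaf (nat_lit 3388799) (nat_lit 2155937) (nat_lit 50837496) (nat_lit 14115378) [(nat_lit 0), (nat_lit
 2155937), (nat_lit 0)]) (PF.cons (PF.leaf (nat_lit 3693877) (nat_lit 543437) (nat_lit 50279567) (nat_lit 14084660) [(nat_lit 543437), (nat_lit 2201147), (nat_lit 0)]) (PF.cons (PF.leaf (nat_lit 4028277) (nat_lit 571485) (nat_lit 49675013) (nat_lit 14046858) [(nat_lit 571485), (nat_lit 2243969), (nat_lit 0)]) (PF.cons (PF.leaf (nat_lit 4386319) (nat_lit 596289) (nat_lit 49034434) (nat_lit 14001846) [(nat_lit 596289), (nat_lit 2283662), (nat_lit 0)]) (PF.cons (PF.leaf (nat_lit 4763889) (nat_lit 618356) (nat_lit 48365895) (nat_lit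 13949604) [(nat_lit 618356), (nat_lit 2319888), (nat_lit 0)]) (PF.cons (PF.leaf (nat_lit 5157614) (nat_lit 638039) (nat_lit 47675865) (nat_lit 13890222) [(nat_lit 638039), (nat_lit 2352528), (nat_lit 0)]) (PF.cons (PF.leaf (nat_lit 5564684) (nat_lit 655606) (nat_lit 46969699) (nat_lit 13823882) [(nat_lit 655606), (nat_lit 2381591), (nat_lit 0)]) (PF.cons (PF.leaf (nat_lit 5982638) (nat_lit 671269) (nat_lit 46251922) (nat_lit 13750848) [(nat_lit 671269), (nat_lit 2407156), (nat_lit 0)]) (PF.cons (PF.leaf (nat_lit 6409359) (nat_lit 685202) (nat_lit 45526396) (nat_lit 13671447) [(nat_lit 685202), (nat_lit 2429348), (nat_lit 0)]) (PF.cons (PF.leaf (nat_lit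
 6842933) (nat_lit 697555) (nat_lit 44796445) (nat_lit 13586055) [(nat_lit 697555), (nat_lit 2448316), (nat_lit 0)]) (PF.cons (PF.leaf (nat_lit 7281704) (nat_lit 708456) (nat_lit 44064933) (nat_lit 13495083) [(nat_lit 708456), (nat_lit 2464227), (nat_lit 0)]) (PF.cons (PF.leaf (nat_lit 7724175) (nat_lit 718023) (nat_lit 43334334) (nat_lit 13398962) [(nat_lit 718023), (nat_lit 2477253), (nat_lit 0)]) (PF.cons (PF.leaf (nat_lit 8169036) (nat_lit 726360) (nat_lit 42606779) (nat_lit 13298138) [(nat_lit 726360), (nat_lit 2487571), (nat_lit 0)]) (PF.cons (PF.leaf (nat_lit 8615111) (nat_lit 733561) (nat_lit 41884100) (nat_lit 13193057) [(nat_lit 733561), (nat_lit 2495356), (nat_lit 0)]) (PF.cons PF.nil (PF.cons PF.nil PF.nil)))))))))))))))) (PF.cons (PF.cons (PF.leaf (nat_lit 4292260) (nat_lit 2281409) (nat_lit 48590336) (nat_lit 13955658) [(nat_lit 0), (nat_lit 2281409), (nat_lit 0)]) (PF.cons (PF.leaf (nat_lit 4639718) (nat_lit 605993) (nat_lit 47968574) (nat_lit 13904186)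 [(nat_lit 605993), (nat_lit 2315029), (nat_lit 0)]) (PF.cons (PF.leaf (nat_lit 5007950) (nat_lit 626883) (nat_lit 47317741) (nat_lit 13845590) [(nat_lit 626883), (nat_lit 2345856), (nat_lit 0)]) (PF.cons (PF.leaf
 (nat_lit 5392806) (nat_lit 645388) (nat_lit 46645231) (nat_lit 13780112) [(nat_lit 645388), (nat_lit 2373651), (nat_lit 0)]) (PF.cons (PF.leaf (nat_lit 5791188) (nat_lit 661811) (nat_lit 45956852) (nat_lit 13708038) [(nat_lit 661811), (nat_lit 2398337), (nat_lit 0)]) (PF.cons (PF.leaf (nat_lit 6200510) (nat_lit 676382) (nat_lit 45257330) (nat_lit 13629698) [(nat_lit 676382), (nat_lit 2419935), (nat_lit 0)]) (PF.cons (PF.leaf (nat_lit 6618546) (nat_lit 689283) (nat_lit 44550594) (nat_lit 13545462) [(nat_lit 689283), (nat_lit 2438526), (nat_lit 0)]) (PF.cons (PF.leaf (nat_lit 7043399) (nat_lit 700669) (nat_lit 43839955) (nat_lit 13455728) [(nat_lit 700669), (nat_lit 2454222), (nat_lit 0)]) (PF.cons (PF.leaf (nat_lit 7473374) (nat_lit 710669) (nat_lit 43128223)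 (nat_lit 13360913) [(nat_lit 710669), (nat_lit 2467160), (nat_lit 0)]) (PF.cons (PF.leaf (nat_lit 7907010) (nat_lit 719399) (nat_lit 42417795) (nat_lit 13261447) [(nat_lit 719399), (nat_lit 2477487), (nat_lit 0)]) (PF.cons (PF.leaf (nat_lit 8343013) (nat_lit 726962) (nat_lit 41710713) (nat_lit 13157761) [(nat_lit 726962), (nat_lit 2485358), (nat_lit 0)]) (PF.cons (PF.leaf (nat_lit 8780229) (nat_lit 733450) (nat_lit 41008719)
 (nat_lit 13050286) [(nat_lit 733450), (nat_lit 2490927), (nat_lit 0)]) (PF.cons PF.nil (PF.cons PF.nil PF.nil)))))))))))))) (PF.cons (PF.cons (PF.leaf (nat_lit 5248941) (nat_lit 2366492) (nat_lit 46278175) (nat_lit 13731159) [(nat_lit 0), (nat_lit 2366492), (nat_lit 0)]) (PF.cons (PF.leaf (nat_lit 5623268) (nat_lit 650831) (nat_lit 45627215) (nat_lit 13660840) [(nat_lit 650831), (nat_lit 2389975), (nat_lit 0)]) (PF.cons (PF.leaf (nat_lit 6011993) (nat_lit 666351) (nat_lit 44959630) (nat_lit 13584171) [(nat_lit 666351), (nat_lit 2410769), (nat_lit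 0)]) (PF.cons (PF.leaf (nat_lit 6412011) (nat_lit 680027) (nat_lit 44280640) (nat_lit 13501571) [(nat_lit 680027), (nat_lit 2428839), (nat_lit 0)]) (PF.cons (PF.leaf (nat_lit 6820955) (nat_lit 692063) (nat_lit 43594419) (nat_lit 13413461) [(nat_lit 692063), (nat_lit 2444225), (nat_lit 0)]) (PF.cons (PF.leaf (nat_lit 7236814) (nat_lit 702625) (nat_lit 42904388) (nat_lit 13320269) [(nat_lit 702625), (nat_lit 2457009), (nat_lit 0)]) (PF.cons (PF.leaf (nat_lit 7657874) (nat_lit 711848) (nat_lit 42213389) (nat_lit 13222425) [(nat_lit 711848), (nat_lit 2467301), (nat_lit 0)]) (PF.cons (PF.leaf (nat_lit 8082652) (nat_lit 719852) (nat_lit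
 41523804) (nat_lit 13120359) [(nat_lit 719852), (nat_lit 2475227), (nat_lit 0)]) (PF.cons (PF.leaf (nat_lit 8509845) (nat_lit 726739) (nat_lit 40837637) (nat_lit 13014495) [(nat_lit 726739), (nat_lit 2480920), (nat_lit 0)]) (PF.cons (PF.leaf (nat_lit 8938315) (nat_lit 732603) (nat_lit 40156578) (nat_lit 12905248) [(nat_lit 732603), (nat_lit 2484518), (nat_lit 0)]) (PF.cons (PF.leaf (nat_lit 9367045) (nat_lit 737525) (nat_lit 39482047) (nat_lit 12793021) [(nat_lit 737525), (nat_lit 2486161), (nat_lit 0)]) (PF.cons PF.nil PF.nil)))))))))))) (PF.cons (PF.cons (PF.leaf (nat_lit 6228616) (nat_lit 2419371) (nat_lit 43978186) (nat_lit 13453141) [(nat_lit 0), (nat_lit 2419371), (nat_lit 0)]) (PF.cons (PF.leaf (nat_lit 6618292) (nat_lit 682300) (nat_lit 43322011) (nat_lit 13367312) [(nat_lit 682300), (nat_lit 2434297), (nat_lit 0)]) (PF.cons (PF.leaf (nat_lit 7017578) (nat_lit 693635) (nat_lit 42657966) (nat_lit 13276256) [(nat_lit 693635), (nat_lit 2446829), (nat_lit 0)]) (PF.cons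 (PF.leaf (nat_lit 7424103) (nat_lit 703512) (nat_lit 41989743) (nat_lit 13180445) [(nat_lit 703512), (nat_lit 2457021), (nat_lit 0)]) (PF.cons (PF.leaf (nat_lit 7836055) (nat_lit 712079) (nat_lit 41320324)
 (nat_lit 13080333) [(nat_lit 712079), (nat_lit 2464959), (nat_lit 0)]) (PF.cons (PF.leaf (nat_lit 8251891) (nat_lit 719461) (nat_lit 40652151) (nat_lit 12976358) [(nat_lit 719461), (nat_lit 2470748), (nat_lit 0)]) (PF.cons (PF.leaf (nat_lit 8670282) (nat_lit 725766) (nat_lit 39987245) (nat_lit 12868941) [(nat_lit 725766), (nat_lit 2474506), (nat_lit 0)]) (PF.cons (PF.leaf (nat_lit 9090076) (nat_lit 731087) (nat_lit 39327285) (nat_lit 12758489) [(nat_lit 731087), (nat_lit 2476356), (nat_lit 0)]) (PF.cons (PF.leaf (nat_lit 9510274) (nat_lit 735508) (nat_lit 38673669) (nat_lit 12645389) [(nat_lit 735508), (nat_lit 2476420), (nat_lit 0)]) (PF.cons PF.nil PF.nil)))))))))) (PF.cons (PF.cons (PF.leaf (nat_lit 7209673) (nat_lit 2446670) (nat_lit 41740929) (nat_lit 13134528)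 [(nat_lit 0), (nat_lit 2446670), (nat_lit 0)]) (PF.cons (PF.leaf (nat_lit 7606207) (nat_lit 703401) (nat_lit 41095713) (nat_lit 13036908) [(nat_lit 703401), (nat_lit 2454557), (nat_lit 0)]) (PF.cons (PF.leaf (nat_lit 8008762) (nat_lit 711429) (nat_lit 40448682) (nat_lit 12935249) [(nat_lit 711429), (nat_lit 2460404), (nat_lit 0)]) (PF.cons (PF.leaf (nat_lit 8415504) (nat_lit 718292) (nat_lit 39802437) (nat_lit
 12830009) [(nat_lit 718292), (nat_lit 2464297), (nat_lit 0)]) (PF.cons (PF.leaf (nat_lit 8825045) (nat_lit 724103) (nat_lit 39159081) (nat_lit 12721619) [(nat_lit 724103), (nat_lit 2466339), (nat_lit 0)]) (PF.cons (PF.leaf (nat_lit 9236189) (nat_lit 728960) (nat_lit 38520332) (nat_lit 12610480) [(nat_lit 728960), (nat_lit 2466639), (nat_lit 0)]) (PF.cons (PF.leaf (nat_lit 9647948) (nat_lit 732950) (nat_lit 37887600) (nat_lit 12496973) [(nat_lit 732950), (nat_lit 2465307), (nat_lit 0)]) (PF.cons PF.nil PF.nil)))))))) (PF.cons (PF.cons (PF.leaf (nat_lit 8177044)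 (nat_lit 2453874) (nat_lit 39597886) (nat_lit 12787682) [(nat_lit 0), (nat_lit 2453874), (nat_lit 0)]) (PF.cons (PF.leaf (nat_lit 8574279) (nat_lit 716396) (nat_lit 38974088) (nat_lit 12681791) [(nat_lit 716396), (nat_lit 2456089), (nat_lit 0)]) (PF.cons (PF.leaf (nat_lit 8974852) (nat_lit 721801) (nat_lit 38352556) (nat_lit 12572968) [(nat_lit 721801), (nat_lit 2456614), (nat_lit 0)]) (PF.cons (PF.leaf (nat_lit 9377341) (nat_lit 726271) (nat_lit 37735107) (nat_lit 12461622) [(nat_lit 726271), (nat_lit 2455545), (nat_lit 0)]) (PF.cons (PF.leaf (nat_lit 9780680) (nat_lit 729895) (nat_lit 37123204) (nat_lit 12348132) [(nat_lit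
 729895), (nat_lit 2452982), (nat_lit 0)]) (PF.cons PF.nil PF.nil)))))) (PF.cons (PF.cons (PF.leaf (nat_lit 9120604) (nat_lit 2445501) (nat_lit 37566949) (nat_lit 12423350) [(nat_lit 0), (nat_lit 2445501), (nat_lit 0)]) (PF.cons (PF.leaf (nat_lit 9514164) (nat_lit 723057) (nat_lit 36970901) (nat_lit 12312247) [(nat_lit 723057), (nat_lit 2443229), (nat_lit 0)]) (PF.cons (PF.leaf (nat_lit 9909082) (nat_lit 726382) (nat_lit 36379775) (nat_lit 12199168) [(nat_lit 726382), (nat_lit 2439586), (nat_lit 0)]) (PF.cons (PF.leaf (nat_lit 10304238) (nat_lit 728956) (nat_lit 35794823) (nat_lit 12084463) [(nat_lit 728956), (nat_lit 2434665), (nat_lit 0)]) PF.nil)))) (PF.cons (PF.cons (PF.leaf (nat_lit 10033922) (nat_lit 2425243) (nat_lit 35656534) (nat_lit 12050328) [(nat_lit 0), (nat_lit 2425243), (nat_lit 0)]) (PF.cons (PF.leaf (nat_lit 10420787) (nat_lit 724788) (nat_lit 35091651) (nat_lit 11936526) [(nat_lit 724788), (nat_lit 2419480), (nat_lit 0)]) PF.nil)) (PF.cons PF.nil (PF.cons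 PF.nil (PF.cons PF.nil (PF.cons PF.nil PF.nil))))))))))))) (PF.cons (PF.cons (PF.cons (PF.leaf (nat_lit 4250299) (nat_lit 6300242) (nat_lit 47065384) (nat_lit 13743186) [(nat_lit 0), (nat_lit 0), (nat_lit
 6300242)]) (PF.cons (PF.leaf (nat_lit 4559172) (nat_lit 571831) (nat_lit 46530224) (nat_lit 13692783) [(nat_lit 571831), (nat_lit 0), (nat_lit 6313973)]) (PF.cons (PF.leaf (nat_lit 4894443) (nat_lit 596591) (nat_lit 45955563) (nat_lit 13635112) [(nat_lit 596591), (nat_lit 0), (nat_lit 6324952)]) (PF.cons (PF.leaf (nat_lit 5250357) (nat_lit 617985) (nat_lit 45351634) (nat_lit 13570649) [(nat_lit 617985), (nat_lit 0), (nat_lit 6332571)]) (PF.cons (PF.leaf (nat_lit 5622862) (nat_lit 636636) (nat_lit 44725975) (nat_lit 13499803) [(nat_lit 636636), (nat_lit 0), (nat_lit 6336487)]) (PF.cons (PF.leaf (nat_lit 6008778) (nat_lit 652973) (nat_lit 44084444) (nat_lit 13422965) [(nat_lit 652973), (nat_lit 0), (nat_lit 6336535)]) (PF.cons (PF.leaf (nat_lit 6405485) (nat_lit 667309)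 (nat_lit 43431751) (nat_lit 13340531) [(nat_lit 667309), (nat_lit 0), (nat_lit 6332675)]) (PF.cons (PF.leaf (nat_lit 6810758) (nat_lit 679884) (nat_lit 42771764) (nat_lit 13252899) [(nat_lit 679884), (nat_lit 0), (nat_lit 6324954)]) (PF.cons (PF.leaf (nat_lit 7222759) (nat_lit 690893) (nat_lit 42107707) (nat_lit 13160475) [(nat_lit 690893), (nat_lit 0), (nat_lit 6313482)]) (PF.cons (PF.leaf (nat_lit 7639809) (nat_lit
 700493) (nat_lit 41442293) (nat_lit 13063669) [(nat_lit 700493), (nat_lit 0), (nat_lit 6298410)]) (PF.cons (PF.leaf (nat_lit 8060493) (nat_lit 708819) (nat_lit 40777811) (nat_lit 12962888) [(nat_lit 708819), (nat_lit 0), (nat_lit 6279921)]) (PF.cons (PF.leaf (nat_lit 8483560) (nat_lit 715987) (nat_lit 40116202) (nat_lit 12858533) [(nat_lit 715987), (nat_lit 0), (nat_lit 6258214)]) (PF.cons (PF.leaf (nat_lit 8907908) (nat_lit 722100) (nat_lit 39459108) (nat_lit 12750996) [(nat_lit 722100), (nat_lit 0), (nat_lit 6233502)]) (PF.cons PF.nil (PF.cons PF.nil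 (PF.cons PF.nil PF.nil)))))))))))))))) (PF.cons (PF.cons (PF.leaf (nat_lit 5135977) (nat_lit 2320454) (nat_lit 44953448) (nat_lit 13515408) [(nat_lit 0), (nat_lit 2320454), (nat_lit 6319501)]) (PF.cons (PF.leaf (nat_lit 5479887) (nat_lit 622954) (nat_lit 44372347) (nat_lit 13447557) [(nat_lit 622954), (nat_lit 2344229), (nat_lit 6321723)]) (PF.cons (PF.leaf (nat_lit 5841967) (nat_lit 640841) (nat_lit 43767766) (nat_lit 13373319) [(nat_lit 640841), (nat_lit 2365462), (nat_lit 6320583)]) (PF.cons (PF.leaf (nat_lit 6218225) (nat_lit 656378) (nat_lit 43146472) (nat_lit 13293235) [(nat_lit 656378), (nat_lit 2384046), (nat_lit 6315924)])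
 (PF.cons (PF.leaf (nat_lit 6605732) (nat_lit 669919) (nat_lit 42513644) (nat_lit 13207790) [(nat_lit 669919), (nat_lit 2399989), (nat_lit 6307709)]) (PF.cons (PF.leaf (nat_lit 7002118) (nat_lit 681728) (nat_lit 41873389) (nat_lit 13117438) [(nat_lit 681728), (nat_lit 2413361), (nat_lit 6295982)]) (PF.cons (PF.leaf (nat_lit 7405385) (nat_lit 692006) (nat_lit 41229042) (nat_lit 13022616) [(nat_lit 692006), (nat_lit 2424266), (nat_lit 6280847)]) (PF.cons (PF.leaf (nat_lit 7813844) (nat_lit 700919) (nat_lit 40583353) (nat_lit 12923749) [(nat_lit 700919), (nat_lit 2432825), (nat_lit 6262446)]) (PF.cons (PF.leaf (nat_lit 8226046) (nat_lit 708604) (nat_lit 39938609) (nat_lit 12821246) [(nat_lit 708604), (nat_lit 2439173), (nat_lit 6240948)]) (PF.cons (PF.leaf (nat_lit 8640723) (nat_lit 715177) (nat_lit 39296726) (nat_lit 12715504) [(nat_lit 715177), (nat_lit 2443444), (nat_lit 6216540)]) (PF.cons (PF.leaf (nat_lit 9056767) (nat_lit 720740) (nat_lit 38659306) (nat_lit 12606906)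 [(nat_lit 720740), (nat_lit 2445777), (nat_lit 6189417)]) (PF.cons PF.nil (PF.cons PF.nil (PF.cons PF.nil PF.nil)))))))))))))) (PF.cons (PF.cons (PF.leaf (nat_lit 6058864) (nat_lit 2374006) (nat_lit 42822159)
 (nat_lit 13240214) [(nat_lit 0), (nat_lit 2374006), (nat_lit 6298426)]) (PF.cons (PF.leaf (nat_lit 6424021) (nat_lit 658320) (nat_lit 42223938) (nat_lit 13157907) [(nat_lit 658320), (nat_lit 2389458), (nat_lit 6289728)]) (PF.cons (PF.leaf (nat_lit 6801521) (nat_lit 671270) (nat_lit 41612978) (nat_lit 13070344) [(nat_lit 671270), (nat_lit 2402590), (nat_lit 6277769)]) (PF.cons (PF.leaf (nat_lit 7188472) (nat_lit 682473) (nat_lit 40993880) (nat_lit 12978064) [(nat_lit 682473), (nat_lit 2413425), (nat_lit 6262596)]) (PF.cons (PF.leaf (nat_lit 7582685) (nat_lit 692156) (nat_lit 40370248) (nat_lit 12881554) [(nat_lit 692156), (nat_lit 2422036), (nat_lit 6244311)]) (PF.cons (PF.leaf (nat_lit 7982366) (nat_lit 700496) (nat_lit 39744972) (nat_lit 12781262) [(nat_lit 700496),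 (nat_lit 2428522), (nat_lit 6223051)]) (PF.cons (PF.leaf (nat_lit 8385996) (nat_lit 707637) (nat_lit 39120409) (nat_lit 12677612) [(nat_lit 707637), (nat_lit 2432994), (nat_lit 6198975)]) (PF.cons (PF.leaf (nat_lit 8792280) (nat_lit 713701) (nat_lit 38498497) (nat_lit 12571003) [(nat_lit 713701), (nat_lit 2435572), (nat_lit 6172257)]) (PF.cons (PF.leaf (nat_lit 9200102) (nat_lit 718789) (nat_lit 37880842) (nat_lit
 12461811) [(nat_lit 718789), (nat_lit 2436378), (nat_lit 6143082)]) (PF.cons (PF.leaf (nat_lit 9608497) (nat_lit 722993) (nat_lit 37268774) (nat_lit 12350391) [(nat_lit 722993), (nat_lit 2435533), (nat_lit 6111635)]) (PF.cons PF.nil (PF.cons PF.nil PF.nil)))))))))))) (PF.cons (PF.cons (PF.leaf (nat_lit 6994266) (nat_lit 2402512) (nat_lit 40729184) (nat_lit 12928719) [(nat_lit 0), (nat_lit 2402512), (nat_lit 6243371)]) (PF.cons (PF.leaf (nat_lit 7370849) (nat_lit 682175) (nat_lit 40132773) (nat_lit 12835302) [(nat_lit 682175), (nat_lit 2411093), (nat_lit 6225280)])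 (PF.cons (PF.leaf (nat_lit 7755539) (nat_lit 691399) (nat_lit 39530890) (nat_lit 12737791) [(nat_lit 691399), (nat_lit 2417669), (nat_lit 6204324)]) (PF.cons (PF.leaf (nat_lit 8146156) (nat_lit 699279) (nat_lit 38926705) (nat_lit 12636685) [(nat_lit 699279), (nat_lit 2422314), (nat_lit 6180639)]) (PF.cons (PF.leaf (nat_lit 8541062) (nat_lit 705973) (nat_lit 38322736) (nat_lit 12532430) [(nat_lit 705973), (nat_lit 2425124), (nat_lit 6154379)]) (PF.cons (PF.leaf (nat_lit 8938892) (nat_lit 711610) (nat_lit 37721008) (nat_lit 12425435) [(nat_lit 711610), (nat_lit 2426201), (nat_lit 6125712)]) (PF.cons (PF.leaf (nat_lit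
 9338499) (nat_lit 716297) (nat_lit 37123172) (nat_lit 12316078) [(nat_lit 716297), (nat_lit 2425656), (nat_lit 6094811)]) (PF.cons (PF.leaf (nat_lit 9738865) (nat_lit 720126) (nat_lit 36530577) (nat_lit 12204712) [(nat_lit 720126), (nat_lit 2423596), (nat_lit 6061850)]) (PF.cons PF.nil (PF.cons PF.nil PF.nil)))))))))) (PF.cons (PF.cons (PF.leaf (nat_lit 7925087) (nat_lit 2411387) (nat_lit 38710258) (nat_lit 12591733) [(nat_lit 0), (nat_lit 2411387), (nat_lit 6161269)]) (PF.cons (PF.leaf (nat_lit 8306038) (nat_lit 697310) (nat_lit 38127906) (nat_lit 12490407) [(nat_lit 697310), (nat_lit 2414405), (nat_lit 6135566)]) (PF.cons (PF.leaf (nat_lit 8691969) (nat_lit 703655) (nat_lit 37544967) (nat_lit 12386064) [(nat_lit 703655), (nat_lit 2415744), (nat_lit 6107491)]) (PF.cons (PF.leaf (nat_lit 9081227) (nat_lit 708947) (nat_lit 36963638) (nat_lit 12279138) [(nat_lit 708947), (nat_lit 2415497), (nat_lit 6077206)]) (PF.cons (PF.leaf (nat_lit 9472561) (nat_lit 713302) (nat_lit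 36385669) (nat_lit 12170017) [(nat_lit 713302), (nat_lit 2413759), (nat_lit 6044878)]) (PF.cons (PF.leaf (nat_lit 9864943) (nat_lit 716818) (nat_lit 35812468) (nat_lit 12059057) [(nat_lit 716818), (nat_lit 2410630),
 (nat_lit 6010675)]) (PF.cons PF.nil (PF.cons PF.nil PF.nil)))))))) (PF.cons (PF.cons (PF.leaf (nat_lit 8839669) (nat_lit 2405017) (nat_lit 36786327) (nat_lit 12238808) [(nat_lit 0), (nat_lit 2405017), (nat_lit 6058591)]) (PF.cons (PF.leaf (nat_lit 9219944) (nat_lit 705742) (nat_lit 36225657) (nat_lit 12132387) [(nat_lit 705742), (nat_lit 2403605), (nat_lit 6026998)]) (PF.cons (PF.leaf (nat_lit 9602902) (nat_lit 709837) (nat_lit 35667627) (nat_lit 12023882) [(nat_lit 709837), (nat_lit 2400820), (nat_lit 5993523)]) (PF.cons (PF.leaf (nat_lit 9987255) (nat_lit 713100) (nat_lit 35113754) (nat_lit 11913657) [(nat_lit 713100), (nat_lit 2396754), (nat_lit 5958327)]) (PF.cons (PF.leaf (nat_lit 10372062) (nat_lit 715619) (nat_lit 34565247) (nat_lit 11802040) [(nat_lit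 715619), (nat_lit 2391495), (nat_lit 5921569)]) (PF.cons PF.nil PF.nil)))))) (PF.cons (PF.cons (PF.leaf (nat_lit 9730318) (nat_lit 2386956) (nat_lit 34968254) (nat_lit 11877870) [(nat_lit 0), (nat_lit 2386956), (nat_lit 5940947)]) (PF.cons (PF.leaf (nat_lit 10106371) (nat_lit 708998) (nat_lit 34433682) (nat_lit 11768696) [(nat_lit 708998), (nat_lit 2382074), (nat_lit 5904991)]) (PF.cons (PF.leaf (nat_lit 10483418) (nat_lit
 711329) (nat_lit 33903814) (nat_lit 11658209) [(nat_lit 711329), (nat_lit 2376088), (nat_lit 5867597)]) (PF.cons PF.nil PF.nil)))) (PF.cons (PF.cons (PF.leaf (nat_lit 10592235) (nat_lit 2360071) (nat_lit 33260109) (nat_lit 11515212) [(nat_lit 0), (nat_lit 2360071), (nat_lit 5812988)]) (PF.cons PF.nil PF.nil)) (PF.cons PF.nil (PF.cons PF.nil (PF.cons PF.nil PF.nil))))))))))) (PF.cons (PF.cons (PF.cons (PF.leaf (nat_lit 5912932) (nat_lit 6207818) (nat_lit 41670737) (nat_lit 13022438) [(nat_lit 0), (nat_lit 0), (nat_lit 6207818)]) (PF.cons (PF.leaf (nat_lit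 6250297) (nat_lit 630304) (nat_lit 41135200) (nat_lit 12945239) [(nat_lit 630304), (nat_lit 0), (nat_lit 6199034)]) (PF.cons (PF.leaf (nat_lit 6603792) (nat_lit 645764) (nat_lit 40580372) (nat_lit 12862394) [(nat_lit 645764), (nat_lit 0), (nat_lit 6187258)]) (PF.cons (PF.leaf (nat_lit 6969575) (nat_lit 658949) (nat_lit 40012350) (nat_lit 12774610) [(nat_lit 658949), (nat_lit 0), (nat_lit 6172502)]) (PF.cons (PF.leaf (nat_lit 7344889) (nat_lit 670240) (nat_lit 39435711) (nat_lit 12682468) [(nat_lit 670240), (nat_lit 0), (nat_lit 6154836)]) (PF.cons (PF.leaf (nat_lit 7727552) (nat_lit 679917) (nat_lit 38854015) (nat_lit 12586474)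
 [(nat_lit 679917), (nat_lit 0), (nat_lit 6134369)]) (PF.cons (PF.leaf (nat_lit 8115777) (nat_lit 688192) (nat_lit 38270105) (nat_lit 12487082) [(nat_lit 688192), (nat_lit 0), (nat_lit 6111236)]) (PF.cons (PF.leaf (nat_lit 8508044) (nat_lit 695233) (nat_lit 37686283) (nat_lit 12384707) [(nat_lit 695233), (nat_lit 0), (nat_lit 6085592)]) (PF.cons (PF.leaf (nat_lit 8903092) (nat_lit 701179) (nat_lit 37104436) (nat_lit 12279732) [(nat_lit 701179), (nat_lit 0), (nat_lit 6057601)]) (PF.cons (PF.leaf (nat_lit 9299806) (nat_lit 706145) (nat_lit 36526120) (nat_lit 12172515) [(nat_lit 706145), (nat_lit 0), (nat_lit 6027432)]) (PF.cons (PF.leaf (nat_lit 9697256) (nat_lit 710229) (nat_lit 35952620) (nat_lit 12063387) [(nat_lit 710229), (nat_lit 0), (nat_lit 5995255)]) (PF.cons PF.nil PF.nil)))))))))))) (PF.cons (PF.cons (PF.leaf (nat_lit 6799221) (nat_lit 2356150) (nat_lit 39727354) (nat_lit 12720960) [(nat_lit 0), (nat_lit 2356150), (nat_lit 6152173)]) (PF.cons (PF.leaf (nat_lit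 7153781) (nat_lit 658440) (nat_lit 39182133) (nat_lit 12632730) [(nat_lit 658440), (nat_lit 2365796), (nat_lit 6134856)]) (PF.cons (PF.leaf (nat_lit 7519117) (nat_lit 669373) (nat_lit 38626870) (nat_lit 12540130)
 [(nat_lit 669373), (nat_lit 2373425), (nat_lit 6114819)]) (PF.cons (PF.leaf (nat_lit 7892501) (nat_lit 678660) (nat_lit 38065611) (nat_lit 12443753) [(nat_lit 678660), (nat_lit 2379103), (nat_lit 6092182)]) (PF.cons (PF.leaf (nat_lit 8271938) (nat_lit 686538) (nat_lit 37501471) (nat_lit 12344102) [(nat_lit 686538), (nat_lit 2382920), (nat_lit 6067082)]) (PF.cons (PF.leaf (nat_lit 8655800) (nat_lit 693191) (nat_lit 36936909) (nat_lit 12241620) [(nat_lit 693191), (nat_lit 2384979), (nat_lit 6039672)]) (PF.cons (PF.leaf (nat_lit 9042729) (nat_lit 698765) (nat_lit 36373902) (nat_lit 12136704) [(nat_lit 698765), (nat_lit 2385392), (nat_lit 6010109)]) (PF.cons (PF.leaf (nat_lit 9431575) (nat_lit 703379) (nat_lit 35814053) (nat_lit 12029715) [(nat_lit 703379), (nat_lit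 2384270), (nat_lit 5978557)]) (PF.cons (PF.leaf (nat_lit 9821384) (nat_lit 707134) (nat_lit 35258672) (nat_lit 11920985) [(nat_lit 707134), (nat_lit 2381723), (nat_lit 5945175)]) (PF.cons PF.nil PF.nil)))))))))) (PF.cons (PF.cons (PF.leaf (nat_lit 7691289) (nat_lit 2367568) (nat_lit 37834377) (nat_lit 12395563) [(nat_lit 0), (nat_lit 2367568), (nat_lit 6071867)]) (PF.cons (PF.leaf (nat_lit 8054537) (nat_lit 676593)
 (nat_lit 37294626) (nat_lit 12299411) [(nat_lit 676593), (nat_lit 2371632), (nat_lit 6047458)]) (PF.cons (PF.leaf (nat_lit 8424770) (nat_lit 684192) (nat_lit 36750921) (nat_lit 12200017) [(nat_lit 684192), (nat_lit 2373998), (nat_lit 6020746)]) (PF.cons (PF.leaf (nat_lit 8799966) (nat_lit 690551) (nat_lit 36206003) (nat_lit 12097871) [(nat_lit 690551), (nat_lit 2374754), (nat_lit 5991887)]) (PF.cons (PF.leaf (nat_lit 9178636) (nat_lit 695831) (nat_lit 35662014) (nat_lit 11993400) [(nat_lit 695831), (nat_lit 2373996), (nat_lit 5961039)]) (PF.cons (PF.leaf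 (nat_lit 9559578) (nat_lit 700160) (nat_lit 35120660) (nat_lit 11886978) [(nat_lit 700160), (nat_lit 2371824), (nat_lit 5928361)]) (PF.cons (PF.leaf (nat_lit 9941735) (nat_lit 703645) (nat_lit 34583311) (nat_lit 11778941) [(nat_lit 703645), (nat_lit 2368337), (nat_lit 5894007)]) (PF.cons PF.nil PF.nil)))))))) (PF.cons (PF.cons (PF.leaf (nat_lit 8575309) (nat_lit 2363747) (nat_lit 36017584) (nat_lit 12055042) [(nat_lit 0), (nat_lit 2363747), (nat_lit 5972471)]) (PF.cons (PF.leaf (nat_lit 8941265) (nat_lit 687334) (nat_lit 35492788) (nat_lit 11953677) [(nat_lit 687334), (nat_lit 2363359), (nat_lit 5942467)]) (PF.cons (PF.leaf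
 (nat_lit 9311461) (nat_lit 692401) (nat_lit 34968052) (nat_lit 11850026) [(nat_lit 692401), (nat_lit 2361574), (nat_lit 5910603)]) (PF.cons (PF.leaf (nat_lit 9684349) (nat_lit 696513) (nat_lit 34445252) (nat_lit 11744493) [(nat_lit 696513), (nat_lit 2358481), (nat_lit 5877039)]) (PF.cons (PF.leaf (nat_lit 10058832) (nat_lit 699785) (nat_lit 33925865) (nat_lit 11637429) [(nat_lit 699785), (nat_lit 2354173), (nat_lit 5841928)]) (PF.cons (PF.leaf (nat_lit 10433968) (nat_lit 702309) (nat_lit 33411069) (nat_lit 11529145) [(nat_lit 702309), (nat_lit 2348737), (nat_lit 5805418)]) PF.nil)))))) (PF.cons (PF.cons (PF.leaf (nat_lit 9442036) (nat_lit 2348234) (nat_lit 34291186) (nat_lit 11706733) [(nat_lit 0), (nat_lit 2348234), (nat_lit 5858977)]) (PF.cons (PF.leaf (nat_lit 9806486) (nat_lit 692457) (nat_lit 33787066) (nat_lit 11602407) [(nat_lit 692457), (nat_lit 2344342), (nat_lit 5824756)]) (PF.cons (PF.leaf (nat_lit 10173162) (nat_lit 695574) (nat_lit 33285617) (nat_lit 11496584)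 [(nat_lit 695574), (nat_lit 2339320), (nat_lit 5789090)]) (PF.cons (PF.leaf (nat_lit 10540879) (nat_lit 697943) (nat_lit 32788129) (nat_lit 11389591) [(nat_lit 697943), (nat_lit 2333252), (nat_lit 5752125)])
 PF.nil)))) (PF.cons (PF.cons (PF.leaf (nat_lit 10285463) (nat_lit 2323857) (nat_lit 32661790) (nat_lit 11356500) [(nat_lit 0), (nat_lit 2323857), (nat_lit 5735617)]) (PF.cons (PF.leaf (nat_lit 10645460) (nat_lit 693289) (nat_lit 32181528) (nat_lit 11251021) [(nat_lit 693289), (nat_lit 2317246), (nat_lit 5698369)]) PF.nil)) (PF.cons PF.nil (PF.cons PF.nil (PF.cons PF.nil (PF.cons PF.nil PF.nil)))))))))) (PF.cons (PF.cons (PF.cons (PF.leaf (nat_lit 7478303) (nat_lit 5981759) (nat_lit 36965221) (nat_lit 12198312) [(nat_lit 0), (nat_lit 0), (nat_lit 5981759)]) (PF.cons (PF.leaf (nat_lit 7821707) (nat_lit 653578) (nat_lit 36470250) (nat_lit 12108123) [(nat_lit 653578), (nat_lit 0), (nat_lit 5958953)]) (PF.cons (PF.leaf (nat_lit 8174680) (nat_lit 662911) (nat_lit 35967146)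 (nat_lit 12014269) [(nat_lit 662911), (nat_lit 0), (nat_lit 5933857)]) (PF.cons (PF.leaf (nat_lit 8534639) (nat_lit 670698) (nat_lit 35459467) (nat_lit 11917356) [(nat_lit 670698), (nat_lit 0), (nat_lit 5906630)]) (PF.cons (PF.leaf (nat_lit 8899744) (nat_lit 677180) (nat_lit 34949918) (nat_lit 11817880) [(nat_lit 677180), (nat_lit 0), (nat_lit 5877431)]) (PF.cons (PF.leaf (nat_lit 9268502) (nat_lit 682539) (nat_lit
 34440608) (nat_lit 11716261) [(nat_lit 682539), (nat_lit 0), (nat_lit 5846414)]) (PF.cons (PF.leaf (nat_lit 9639689) (nat_lit 686921) (nat_lit 33933213) (nat_lit 11612867) [(nat_lit 686921), (nat_lit 0), (nat_lit 5813733)]) (PF.cons (PF.leaf (nat_lit 10012304) (nat_lit 690443) (nat_lit 33429080) (nat_lit 11508022) [(nat_lit 690443), (nat_lit 0), (nat_lit 5779534)]) (PF.cons PF.nil (PF.cons PF.nil PF.nil)))))))))) (PF.cons (PF.cons (PF.leaf (nat_lit 8329221) (nat_lit 2321395) (nat_lit 35257307) (nat_lit 11871431) [(nat_lit 0), (nat_lit 2321395), (nat_lit 5886226)])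 (PF.cons (PF.leaf (nat_lit 8679392) (nat_lit 667426) (nat_lit 34769496) (nat_lit 11775605) [(nat_lit 667426), (nat_lit 2322237), (nat_lit 5858015)]) (PF.cons (PF.leaf (nat_lit 9035697) (nat_lit 673760) (nat_lit 34278706) (nat_lit 11677171) [(nat_lit 673760), (nat_lit 2321628), (nat_lit 5827928)]) (PF.cons (PF.leaf (nat_lit 9396237) (nat_lit 678947) (nat_lit 33787319) (nat_lit 11576603) [(nat_lit 678947), (nat_lit 2319661), (nat_lit 5796128)]) (PF.cons (PF.leaf (nat_lit 9759679) (nat_lit 683149) (nat_lit 33297176) (nat_lit 11474297) [(nat_lit 683149), (nat_lit 2316429), (nat_lit 5762770)]) (PF.cons (PF.leaf (nat_lit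
 10124892) (nat_lit 686490) (nat_lit 32809730) (nat_lit 11370594) [(nat_lit 686490), (nat_lit 2312028), (nat_lit 5728002)]) (PF.cons PF.nil (PF.cons PF.nil PF.nil)))))))) (PF.cons (PF.cons (PF.leaf (nat_lit 9170186) (nat_lit 2308869) (nat_lit 33622911) (nat_lit 11536444) [(nat_lit 0), (nat_lit 2308869), (nat_lit 5777239)]) (PF.cons (PF.leaf (nat_lit 9521960) (nat_lit 674904) (nat_lit 33149775) (nat_lit 11437263) [(nat_lit 674904), (nat_lit 2306105), (nat_lit 5744885)]) (PF.cons (PF.leaf (nat_lit 9877407) (nat_lit 678995) (nat_lit 32677011) (nat_lit 11336323) [(nat_lit 678995), (nat_lit 2302164), (nat_lit 5711052)]) (PF.cons (PF.leaf (nat_lit 10235112) (nat_lit 682212) (nat_lit 32206237) (nat_lit 11233995) [(nat_lit 682212), (nat_lit 2297133), (nat_lit 5675891)]) (PF.cons (PF.leaf (nat_lit 10594052) (nat_lit 684669) (nat_lit 31738717) (nat_lit 11130595) [(nat_lit 684669), (nat_lit 2291095), (nat_lit 5639544)]) (PF.cons PF.nil PF.nil)))))) (PF.cons (PF.cons (PF.leaf (nat_lit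 9993678) (nat_lit 2287279) (nat_lit 32071910) (nat_lit 11199003) [(nat_lit 0), (nat_lit 2287279), (nat_lit 5658686)]) (PF.cons (PF.leaf (nat_lit 10343456) (nat_lit 677618) (nat_lit 31617867) (nat_lit 11098285)
 [(nat_lit 677618), (nat_lit 2281709), (nat_lit 5623304)]) (PF.cons (PF.leaf (nat_lit 10695134) (nat_lit 679997) (nat_lit 31166357) (nat_lit 10996480) [(nat_lit 679997), (nat_lit 2275196), (nat_lit 5586796)]) (PF.cons PF.nil PF.nil)))) (PF.cons (PF.cons (PF.leaf (nat_lit 10794882) (nat_lit 2258904) (nat_lit 30608329) (nat_lit 10863478) [(nat_lit 0), (nat_lit 2258904), (nat_lit 5533796)]) (PF.cons PF.nil PF.nil)) (PF.cons PF.nil (PF.cons PF.nil (PF.cons PF.nil PF.nil)))))))) (PF.cons (PF.cons (PF.cons (PF.leaf (nat_lit 8916317) (nat_lit 5695486) (nat_lit 32960476) (nat_lit 11366391) [(nat_lit 0), (nat_lit 0), (nat_lit 5695486)]) (PF.cons (PF.leaf (nat_lit 9253915) (nat_lit 655955) (nat_lit 32519410) (nat_lit 11272764) [(nat_lit 655955), (nat_lit 0), (nat_lit 5665170)])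 (PF.cons (PF.leaf (nat_lit 9596994) (nat_lit 661295) (nat_lit 32075999) (nat_lit 11177006) [(nat_lit 661295), (nat_lit 0), (nat_lit 5633304)]) (PF.cons (PF.leaf (nat_lit 9943773) (nat_lit 665571) (nat_lit 31632326) (nat_lit 11079564) [(nat_lit 665571), (nat_lit 0), (nat_lit 5600051)]) (PF.cons (PF.leaf (nat_lit 10292999) (nat_lit 668942) (nat_lit 31189988) (nat_lit 10980806) [(nat_lit 668942), (nat_lit 0), (nat_lit
 5565561)]) (PF.cons (PF.leaf (nat_lit 10643657) (nat_lit 671529) (nat_lit 30750236) (nat_lit 10881041) [(nat_lit 671529), (nat_lit 0), (nat_lit 5529971)]) (PF.cons PF.nil (PF.cons PF.nil PF.nil)))))))) (PF.cons (PF.cons (PF.leaf (nat_lit 9717892) (nat_lit 2250140) (nat_lit 31488393) (nat_lit 11042268) [(nat_lit 0), (nat_lit 2250140), (nat_lit 5582002)]) (PF.cons (PF.leaf (nat_lit 10056359) (nat_lit 660999) (nat_lit 31061133) (nat_lit 10946561) [(nat_lit 660999), (nat_lit 2245732), (nat_lit 5548596)]) (PF.cons (PF.leaf (nat_lit 10398087) (nat_lit 664333) (nat_lit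 30634367) (nat_lit 10849477) [(nat_lit 664333), (nat_lit 2240319), (nat_lit 5513995)]) (PF.cons (PF.leaf (nat_lit 10741731) (nat_lit 666865) (nat_lit 30209503) (nat_lit 10751354) [(nat_lit 666865), (nat_lit 2233986), (nat_lit 5478342)]) (PF.cons PF.nil (PF.cons PF.nil PF.nil)))))) (PF.cons (PF.cons (PF.leaf (nat_lit 10502326) (nat_lit 2224610) (nat_lit 30091918) (nat_lit 10719123) [(nat_lit 0), (nat_lit 2224610), (nat_lit 5462137)]) (PF.cons (PF.leaf (nat_lit 10838528) (nat_lit 661952) (nat_lit 29681971) (nat_lit 10622822) [(nat_lit 661952), (nat_lit 2217926), (nat_lit 5426553)]) (PF.cons PF.nil (PF.cons PF.nil PF.nil))))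
 (PF.cons (PF.cons (PF.leaf (nat_lit 11265646) (nat_lit 2193837) (nat_lit 28773512) (nat_lit 10400251) [(nat_lit 0), (nat_lit 2193837), (nat_lit 5338384)]) (PF.cons PF.nil PF.nil)) (PF.cons PF.nil (PF.cons PF.nil PF.nil)))))) (PF.cons (PF.cons (PF.cons (PF.leaf (nat_lit 10225182) (nat_lit 5390689) (nat_lit 29579987) (nat_lit 10575378) [(nat_lit 0), (nat_lit 0), (nat_lit 5390689)]) (PF.cons (PF.leaf (nat_lit 10551206) (nat_lit 646280) (nat_lit 29193250) (nat_lit 10483839) [(nat_lit 646280), (nat_lit 0), (nat_lit 5357088)]) (PF.cons (PF.leaf (nat_lit 10880191) (nat_lit 649024) (nat_lit 28807024) (nat_lit 10391199) [(nat_lit 649024), (nat_lit 0), (nat_lit 5322508)]) (PF.cons PF.nil PF.nil)))) (PF.cons (PF.cons (PF.leaf (nat_lit 10974248) (nat_lit 2161827) (nat_lit 28319178) (nat_lit 10268182) [(nat_lit 0), (nat_lit 2161827), (nat_lit 5271925)]) (PF.cons PF.nil PF.nil)) (PF.cons PF.nil (PF.cons PF.nil PF.nil)))) (PF.cons (PF.cons (PF.cons (PF.leaf (nat_lit 11414575) (nat_lit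 5089478) (nat_lit 26726084) (nat_lit 9845855) [(nat_lit 0), (nat_lit 0), (nat_lit 5089478)]) (PF.cons PF.nil PF.nil)) (PF.cons PF.nil PF.nil)) (PF.cons PF.nil (PF.cons PF.nil (PF.cons PF.nil PF.nil))))))))))

def p15_36_2_0 : pfC (piC [(nat_lit 35404596), (nat_lit 22827826), (nat_lit 14696761)] (nat_lit 6931473)) p15_36_2 (nat_lit 3) (nat_lit 0) (nat_lit 1) = true := by decide +kernel
def p15_36_2_1 : pfC (piC [(nat_lit 35404596), (nat_lit 22827826), (nat_lit 14696761)] (nat_lit 6931473)) p15_36_2 (nat_lit 3) (nat_lit 1) (nat_lit 2) = true := by decide +kernel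
def p15_36_2_2 : pfC (piC [(nat_lit 35404596), (nat_lit 22827826), (nat_lit 14696761)] (nat_lit 6931473)) p15_36_2 (nat_lit 3) (nat_lit 2) (nat_lit 3) = true := by decide +kernel
def p15_36_2_3 : pfC (piC [(nat_lit 35404596), (nat_lit 22827826), (nat_lit 14696761)] (nat_lit 6931473)) p15_36_2 (nat_lit 3) (nat_lit 3) (nat_lit 4) = true := by decide +kernel
def p15_36_2_4 : pfC (piC [(nat_lit 35404596), (nat_lit 22827826), (nat_lit 14696761)] (nat_lit 6931473)) p15_36_2 (nat_lit 3) (nat_lit 4) (nat_lit 5) = true := by decide +kernel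
def p15_36_2_5 : pfC (piC [(nat_lit 35404596), (nat_lit 22827826), (nat_lit 14696761)] (nat_lit 6931473)) p15_36_2 (nat_lit 3) (nat_lit 5) (nat_lit 6) = true := by decide +kernel
def p15_36_2_6 : pfC (piC [(nat_lit 35404596), (nat_lit 22827826), (nat_lit 14696761)] (nat_lit 6931473)) p15_36_2 (nat_lit 3) (nat_lit 6) (nat_lit 7) = true := by decide +kernel
def p15_36_2_7 : pfC (piC [(nat_lit 35404596), (nat_lit 22827826), (nat_lit 14696761)] (nat_lit 6931473)) p15_36_2 (nat_lit 3) (nat_lit 7) (nat_lit 8) = true := by decide +kernel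
def p15_36_2_8 : pfC (piC [(nat_lit 35404596), (nat_lit 22827826), (nat_lit 14696761)] (nat_lit 6931473)) p15_36_2 (nat_lit 3) (nat_lit 8) (nat_lit 9) = true := by decide +kernel
def p15_36_2_9 : pfC (piC [(nat_lit 35404596), (nat_lit 22827826), (nat_lit 14696761)] (nat_lit 6931473)) p15_36_2 (nat_lit 3) (nat_lit 9) (nat_lit 10) = true := by decide +kernel
def p15_36_2_10 : pfC (piC [(nat_lit 35404596), (nat_lit 22827826), (nat_lit 14696761)] (nat_lit 6931473)) p15_36_2 (nat_lit 3) (nat_lit 10) (nat_lit 11) = true := by decide +kernel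
def p15_36_2_11 : pfC (piC [(nat_lit 35404596), (nat_lit 22827826), (nat_lit 14696761)] (nat_lit 6931473)) p15_36_2 (nat_lit 3) (nat_lit 11) (nat_lit 12) = true := by decide +kernel
def p15_36_2_12 : pfC (piC [(nat_lit 35404596), (nat_lit 22827826), (nat_lit 14696761)] (nat_lit 6931473)) p15_36_2 (nat_lit 3) (nat_lit 12) (nat_lit 13) = true := by decide +kernel
def p15_36_2_13 : pfC (piC [(nat_lit 35404596), (nat_lit 22827826), (nat_lit 14696761)] (nat_lit 6931473)) p15_36_2 (nat_lit 3) (nat_lit 13) (nat_lit 14) = true := by decide +kernel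
def p15_36_2_14 : pfC (piC [(nat_lit 35404596), (nat_lit 22827826), (nat_lit 14696761)] (nat_lit 6931473)) p15_36_2 (nat_lit 3) (nat_lit 14) (nat_lit 15) = true := by decide +kernel
def p15_36_2_15 : pfC (piC [(nat_lit 35404596), (nat_lit 22827826), (nat_lit 14696761)] (nat_lit 6931473)) p15_36_2 (nat_lit 3) (nat_lit 15) (nat_lit 16) = true := by decide +kernel
def p15_36_2_16 : pfC (piC [(nat_lit 35404596), (nat_lit 22827826), (nat_lit 14696761)] (nat_lit 6931473)) p15_36_2 (nat_lit 3) (nat_lit 16) (nat_lit 17) = true := by decide +kernel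
def p15_36_2_17 : pfC (piC [(nat_lit 35404596), (nat_lit 22827826), (nat_lit 14696761)] (nat_lit 6931473)) p15_36_2 (nat_lit 3) (nat_lit 17) (nat_lit 18) = true := by decide +kernel
def p15_36_2_18 : pfC (piC [(nat_lit 35404596), (nat_lit 22827826), (nat_lit 14696761)] (nat_lit 6931473)) p15_36_2 (nat_lit 3) (nat_lit 18) (nat_lit 19) = true := by decide +kernel
def p15_36_2_19 : pfC (piC [(nat_lit 35404596), (nat_lit 22827826), (nat_lit 14696761)] (nat_lit 6931473)) p15_36_2 (nat_lit 3) (nat_lit 19) (nat_lit 20) = true := by decide +kernel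
def p15_36_2_20 : pfC (piC [(nat_lit 35404596), (nat_lit 22827826), (nat_lit 14696761)] (nat_lit 6931473)) p15_36_2 (nat_lit 3) (nat_lit 20) (nat_lit 21) = true := by decide +kernel
def p15_36_2_21 : pfC (piC [(nat_lit 35404596), (nat_lit 22827826), (nat_lit 14696761)] (nat_lit 6931473)) p15_36_2 (nat_lit 3) (nat_lit 21) (nat_lit 22) = true := by decide +kernel
def p15_36_2_22 : pfC (piC [(nat_lit 35404596), (nat_lit 22827826), (nat_lit 14696761)] (nat_lit 6931473)) p15_36_2 (nat_lit 3) (nat_lit 22) (nat_lit 23) = true := by decide +kernel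
def p15_36_2_23 : pfC (piC [(nat_lit 35404596), (nat_lit 22827826), (nat_lit 14696761)] (nat_lit 6931473)) p15_36_2 (nat_lit 3) (nat_lit 23) (nat_lit 24) = true := by decide +kernel
def p15_36_2_24 : pfC (piC [(nat_lit 35404596), (nat_lit 22827826), (nat_lit 14696761)] (nat_lit 6931473)) p15_36_2 (nat_lit 3) (nat_lit 24) (nat_lit 25) = true := by decide +kernel
def p15_36_2_25 : pfC (piC [(nat_lit 35404596), (nat_lit 22827826), (nat_lit 14696761)] (nat_lit 6931473)) p15_36_2 (nat_lit 3) (nat_lit 25) (nat_lit 26) = true := by decide +kernel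
def p15_36_2_26 : pfC (piC [(nat_lit 35404596), (nat_lit 22827826), (nat_lit 14696761)] (nat_lit 6931473)) p15_36_2 (nat_lit 3) (nat_lit 26) (nat_lit 27) = true := by decide +kernel
def p15_36_2_27 : pfC (piC [(nat_lit 35404596), (nat_lit 22827826), (nat_lit 14696761)] (nat_lit 6931473)) p15_36_2 (nat_lit 3) (nat_lit 27) (nat_lit 28) = true := by decide +kernel
def p15_36_2_28 : pfC (piC [(nat_lit 35404596), (nat_lit 22827826), (nat_lit 14696761)] (nat_lit 6931473)) p15_36_2 (nat_lit 3) (nat_lit 28) (nat_lit 29) = true := by decide +kernel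
def p15_36_2_29 : pfC (piC [(nat_lit 35404596), (nat_lit 22827826), (nat_lit 14696761)] (nat_lit 6931473)) p15_36_2 (nat_lit 3) (nat_lit 29) (nat_lit 30) = true := by decide +kernel
def p15_36_2_30 : pfC (piC [(nat_lit 35404596), (nat_lit 22827826), (nat_lit 14696761)] (nat_lit 6931473)) p15_36_2 (nat_lit 3) (nat_lit 30) (nat_lit 31) = true := by decide +kernel
def p15_36_2_31 : pfC (piC [(nat_lit 35404596), (nat_lit 22827826), (nat_lit 14696761)] (nat_lit 6931473)) p15_36_2 (nat_lit 3) (nat_lit 31) (nat_lit 32) = true := by decide +kernel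
def p15_36_2_32 : pfC (piC [(nat_lit 35404596), (nat_lit 22827826), (nat_lit 14696761)] (nat_lit 6931473)) p15_36_2 (nat_lit 3) (nat_lit 32) (nat_lit 33) = true := by decide +kernel
def p15_36_2_33 : pfC (piC [(nat_lit 35404596), (nat_lit 22827826), (nat_lit 14696761)] (nat_lit 6931473)) p15_36_2 (nat_lit 3) (nat_lit 33) (nat_lit 34) = true := by decide +kernel
def p15_36_2_34 : pfC (piC [(nat_lit 35404596), (nat_lit 22827826), (nat_lit 14696761)] (nat_lit 6931473)) p15_36_2 (nat_lit 3) (nat_lit 34) (nat_lit 35) = true := by decide +kernel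
def p15_36_2_35 : pfC (piC [(nat_lit 35404596), (nat_lit 22827826), (nat_lit 14696761)] (nat_lit 6931473)) p15_36_2 (nat_lit 3) (nat_lit 35) (nat_lit 36) = true := by decide +kernel
def p15_36_2_36 : pfC (piC [(nat_lit 35404596), (nat_lit 22827826), (nat_lit 14696761)] (nat_lit 6931473)) p15_36_2 (nat_lit 3) (nat_lit 36) (nat_lit 37) = true := by decide +kernel
def p15_36_2_37 : pfC (piC [(nat_lit 35404596), (nat_lit 22827826), (nat_lit 14696761)] (nat_lit 6931473)) p15_36_2 (nat_lit 3) (nat_lit 37) (nat_lit 38) = true := by decide +kernel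
def p15_36_2_38 : pfC (piC [(nat_lit 35404596), (nat_lit 22827826), (nat_lit 14696761)] (nat_lit 6931473)) p15_36_2 (nat_lit 3) (nat_lit 38) (nat_lit 39) = true := by decide +kernel
def p15_36_2_39 : pfC (piC [(nat_lit 35404596), (nat_lit 22827826), (nat_lit 14696761)] (nat_lit 6931473)) p15_36_2 (nat_lit 3) (nat_lit 39) (nat_lit 40) = true := by decide +kernel
def p15_36_2_40 : pfC (piC [(nat_lit 35404596), (nat_lit 22827826), (nat_lit 14696761)] (nat_lit 6931473)) p15_36_2 (nat_lit 3) (nat_lit 40) (nat_lit 41) = true := by decide +kernel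
def p15_36_2_41 : pfC (piC [(nat_lit 35404596), (nat_lit 22827826), (nat_lit 14696761)] (nat_lit 6931473)) p15_36_2 (nat_lit 3) (nat_lit 41) (nat_lit 42) = true := by decide +kernel
def p15_36_2_42 : pfC (piC [(nat_lit 35404596), (nat_lit 22827826), (nat_lit 14696761)] (nat_lit 6931473)) p15_36_2 (nat_lit 3) (nat_lit 42) (nat_lit 43) = true := by decide +kernel
def p15_36_2_43 : pfC (piC [(nat_lit 35404596), (nat_lit 22827826), (nat_lit 14696761)] (nat_lit 6931473)) p15_36_2 (nat_lit 3) (nat_lit 43) (nat_lit 44) = true := by decide +kernel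
def p15_36_2_44 : pfC (piC [(nat_lit 35404596), (nat_lit 22827826), (nat_lit 14696761)] (nat_lit 6931473)) p15_36_2 (nat_lit 3) (nat_lit 44) (nat_lit 45) = true := by decide +kernel
def p15_36_2_45 : pfC (piC [(nat_lit 35404596), (nat_lit 22827826), (nat_lit 14696761)] (nat_lit 6931473)) p15_36_2 (nat_lit 3) (nat_lit 45) (nat_lit 46) = true := by decide +kernel
def p15_36_2_46 : pfC (piC [(nat_lit 35404596), (nat_lit 22827826), (nat_lit 14696761)] (nat_lit 6931473)) p15_36_2 (nat_lit 3) (nat_lit 46) (nat_lit 47) = true := by decide +kernel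
def p15_36_2_47 : pfC (piC [(nat_lit 35404596), (nat_lit 22827826), (nat_lit 14696761)] (nat_lit 6931473)) p15_36_2 (nat_lit 3) (nat_lit 47) (nat_lit 48) = true := by decide +kernel
def p15_36_2_48 : pfC (piC [(nat_lit 35404596), (nat_lit 22827826), (nat_lit 14696761)] (nat_lit 6931473)) p15_36_2 (nat_lit 3) (nat_lit 48) (nat_lit 49) = true := by decide +kernel
def p15_36_2_49 : pfC (piC [(nat_lit 35404596), (nat_lit 22827826), (nat_lit 14696761)] (nat_lit 6931473)) p15_36_2 (nat_lit 3) (nat_lit 49) (nat_lit 50) = true := by decide +kernel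
def p15_36_2_50 : pfC (piC [(nat_lit 35404596), (nat_lit 22827826), (nat_lit 14696761)] (nat_lit 6931473)) p15_36_2 (nat_lit 3) (nat_lit 50) (nat_lit 51) = true := by decide +kernel
def p15_36_2_51 : pfC (piC [(nat_lit 35404596), (nat_lit 22827826), (nat_lit 14696761)] (nat_lit 6931473)) p15_36_2 (nat_lit 3) (nat_lit 51) (nat_lit 52) = true := by decide +kernel
def p15_36_2_52 : pfC (piC [(nat_lit 35404596), (nat_lit 22827826), (nat_lit 14696761)] (nat_lit 6931473)) p15_36_2 (nat_lit 3) (nat_lit 52) (nat_lit 53) = true := by decide +kernel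
def p15_36_2_53 : pfC (piC [(nat_lit 35404596), (nat_lit 22827826), (nat_lit 14696761)] (nat_lit 6931473)) p15_36_2 (nat_lit 3) (nat_lit 53) (nat_lit 54) = true := by decide +kernel
def p15_36_2_54 : pfC (piC [(nat_lit 35404596), (nat_lit 22827826), (nat_lit 14696761)] (nat_lit 6931473)) p15_36_2 (nat_lit 3) (nat_lit 54) (nat_lit 55) = true := by decide +kernel
def p15_36_2_55 : pfC (piC [(nat_lit 35404596), (nat_lit 22827826), (nat_lit 14696761)] (nat_lit 6931473)) p15_36_2 (nat_lit 3) (nat_lit 55) (nat_lit 56) = true := by decide +kernel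
def p15_36_2_56 : pfC (piC [(nat_lit 35404596), (nat_lit 22827826), (nat_lit 14696761)] (nat_lit 6931473)) p15_36_2 (nat_lit 3) (nat_lit 56) (nat_lit 57) = true := by decide +kernel
def p15_36_2_57 : pfC (piC [(nat_lit 35404596), (nat_lit 22827826), (nat_lit 14696761)] (nat_lit 6931473)) p15_36_2 (nat_lit 3) (nat_lit 57) (nat_lit 58) = true := by decide +kernel
def p15_36_2_58 : pfC (piC [(nat_lit 35404596), (nat_lit 22827826), (nat_lit 14696761)] (nat_lit 6931473)) p15_36_2 (nat_lit 3) (nat_lit 58) (nat_lit 59) = true := by decide +kernel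
def p15_36_2_59 : pfC (piC [(nat_lit 35404596), (nat_lit 22827826), (nat_lit 14696761)] (nat_lit 6931473)) p15_36_2 (nat_lit 3) (nat_lit 59) (nat_lit 60) = true := by decide +kernel
def p15_36_2_60 : pfC (piC [(nat_lit 35404596), (nat_lit 22827826), (nat_lit 14696761)] (nat_lit 6931473)) p15_36_2 (nat_lit 3) (nat_lit 60) (nat_lit 61) = true := by decide +kernel
def p15_36_2_61 : pfC (piC [(nat_lit 35404596), (nat_lit 22827826), (nat_lit 14696761)] (nat_lit 6931473)) p15_36_2 (nat_lit 3) (nat_lit 61) (nat_lit 62) = true := by decide +kernel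
def p15_36_2_62 : pfC (piC [(nat_lit 35404596), (nat_lit 22827826), (nat_lit 14696761)] (nat_lit 6931473)) p15_36_2 (nat_lit 3) (nat_lit 62) (nat_lit 63) = true := by decide +kernel
def p15_36_2_63 : pfC (piC [(nat_lit 35404596), (nat_lit 22827826), (nat_lit 14696761)] (nat_lit 6931473)) p15_36_2 (nat_lit 3) (nat_lit 63) (nat_lit 64) = true := by decide +kernel
def p15_36_2_64 : pfC (piC [(nat_lit 35404596), (nat_lit 22827826), (nat_lit 14696761)] (nat_lit 6931473)) p15_36_2 (nat_lit 3) (nat_lit 64) (nat_lit 65) = true := by decide +kernel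
def p15_36_2_65 : pfC (piC [(nat_lit 35404596), (nat_lit 22827826), (nat_lit 14696761)] (nat_lit 6931473)) p15_36_2 (nat_lit 3) (nat_lit 65) (nat_lit 66) = true := by decide +kernel
def p15_36_2_66 : pfC (piC [(nat_lit 35404596), (nat_lit 22827826), (nat_lit 14696761)] (nat_lit 6931473)) p15_36_2 (nat_lit 3) (nat_lit 66) (nat_lit 67) = true := by decide +kernel
def p15_36_2_67 : pfC (piC [(nat_lit 35404596), (nat_lit 22827826), (nat_lit 14696761)] (nat_lit 6931473)) p15_36_2 (nat_lit 3) (nat_lit 67) (nat_lit 68) = true := by decide +kernel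
def p15_36_2_68 : pfC (piC [(nat_lit 35404596), (nat_lit 22827826), (nat_lit 14696761)] (nat_lit 6931473)) p15_36_2 (nat_lit 3) (nat_lit 68) (nat_lit 69) = true := by decide +kernel
def p15_36_2_69 : pfC (piC [(nat_lit 35404596), (nat_lit 22827826), (nat_lit 14696761)] (nat_lit 6931473)) p15_36_2 (nat_lit 3) (nat_lit 69) (nat_lit 70) = true := by decide +kernel
def p15_36_2_70 : pfC (piC [(nat_lit 35404596), (nat_lit 22827826), (nat_lit 14696761)] (nat_lit 6931473)) p15_36_2 (nat_lit 3) (nat_lit 70) (nat_lit 71) = true := by decide +kernel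
def p15_36_2_71 : pfC (piC [(nat_lit 35404596), (nat_lit 22827826), (nat_lit 14696761)] (nat_lit 6931473)) p15_36_2 (nat_lit 3) (nat_lit 71) (nat_lit 72) = true := by decide +kernel
def p15_36_2_72 : pfC (piC [(nat_lit 35404596), (nat_lit 22827826), (nat_lit 14696761)] (nat_lit 6931473)) p15_36_2 (nat_lit 3) (nat_lit 72) (nat_lit 73) = true := by decide +kernel
def p15_36_2_73 : pfC (piC [(nat_lit 35404596), (nat_lit 22827826), (nat_lit 14696761)] (nat_lit 6931473)) p15_36_2 (nat_lit 3) (nat_lit 73) (nat_lit 74) = true := by decide +kernel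
def p15_36_2_74 : pfC (piC [(nat_lit 35404596), (nat_lit 22827826), (nat_lit 14696761)] (nat_lit 6931473)) p15_36_2 (nat_lit 3) (nat_lit 74) (nat_lit 75) = true := by decide +kernel
def p15_36_2_75 : pfC (piC [(nat_lit 35404596), (nat_lit 22827826), (nat_lit 14696761)] (nat_lit 6931473)) p15_36_2 (nat_lit 3) (nat_lit 75) (nat_lit 76) = true := by decide +kernel
def p15_36_2_76 : pfC (piC [(nat_lit 35404596), (nat_lit 22827826), (nat_lit 14696761)] (nat_lit 6931473)) p15_36_2 (nat_lit 3) (nat_lit 76) (nat_lit 77) = true := by decide +kernel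
def p15_36_2_77 : pfC (piC [(nat_lit 35404596), (nat_lit 22827826), (nat_lit 14696761)] (nat_lit 6931473)) p15_36_2 (nat_lit 3) (nat_lit 77) (nat_lit 78) = true := by decide +kernel
def p15_36_2_78 : pfC (piC [(nat_lit 35404596), (nat_lit 22827826), (nat_lit 14696761)] (nat_lit 6931473)) p15_36_2 (nat_lit 3) (nat_lit 78) (nat_lit 79) = true := by decide +kernel
def p15_36_2_79 : pfC (piC [(nat_lit 35404596), (nat_lit 22827826), (nat_lit 14696761)] (nat_lit 6931473)) p15_36_2 (nat_lit 3) (nat_lit 79) (nat_lit 80) = true := by decide +kernel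
def p15_36_2_80 : pfC (piC [(nat_lit 35404596), (nat_lit 22827826), (nat_lit 14696761)] (nat_lit 6931473)) p15_36_2 (nat_lit 3) (nat_lit 80) (nat_lit 81) = true := by decide +kernel
def p15_36_2_81 : pfC (piC [(nat_lit 35404596), (nat_lit 22827826), (nat_lit 14696761)] (nat_lit 6931473)) p15_36_2 (nat_lit 3) (nat_lit 81) (nat_lit 82) = true := by decide +kernel
def p15_36_2_82 : pfC (piC [(nat_lit 35404596), (nat_lit 22827826), (nat_lit 14696761)] (nat_lit 6931473)) p15_36_2 (nat_lit 3) (nat_lit 82) (nat_lit 83) = true := by decide +kernel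
def p15_36_2_83 : pfC (piC [(nat_lit 35404596), (nat_lit 22827826), (nat_lit 14696761)] (nat_lit 6931473)) p15_36_2 (nat_lit 3) (nat_lit 83) (nat_lit 84) = true := by decide +kernel
def p15_36_2_84 : pfC (piC [(nat_lit 35404596), (nat_lit 22827826), (nat_lit 14696761)] (nat_lit 6931473)) p15_36_2 (nat_lit 3) (nat_lit 84) (nat_lit 85) = true := by decide +kernel
def p15_36_2_85 : pfC (piC [(nat_lit 35404596), (nat_lit 22827826), (nat_lit 14696761)] (nat_lit 6931473)) p15_36_2 (nat_lit 3) (nat_lit 85) (nat_lit 86) = true := by decide +kernel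
def p15_36_2_86 : pfC (piC [(nat_lit 35404596), (nat_lit 22827826), (nat_lit 14696761)] (nat_lit 6931473)) p15_36_2 (nat_lit 3) (nat_lit 86) (nat_lit 87) = true := by decide +kernel
def p15_36_2_87 : pfC (piC [(nat_lit 35404596), (nat_lit 22827826), (nat_lit 14696761)] (nat_lit 6931473)) p15_36_2 (nat_lit 3) (nat_lit 87) (nat_lit 88) = true := by decide +kernel
def p15_36_2_88 : pfC (piC [(nat_lit 35404596), (nat_lit 22827826), (nat_lit 14696761)] (nat_lit 6931473)) p15_36_2 (nat_lit 3) (nat_lit 88) (nat_lit 89) = true := by decide +kernel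
def p15_36_2_89 : pfC (piC [(nat_lit 35404596), (nat_lit 22827826), (nat_lit 14696761)] (nat_lit 6931473)) p15_36_2 (nat_lit 3) (nat_lit 89) (nat_lit 90) = true := by decide +kernel
def p15_36_2_90 : pfC (piC [(nat_lit 35404596), (nat_lit 22827826), (nat_lit 14696761)] (nat_lit 6931473)) p15_36_2 (nat_lit 3) (nat_lit 90) (nat_lit 91) = true := by decide +kernel
def p15_36_2_91 : pfC (piC [(nat_lit 35404596), (nat_lit 22827826), (nat_lit 14696761)] (nat_lit 6931473)) p15_36_2 (nat_lit 3) (nat_lit 91) (nat_lit 92) = true := by decide +kernel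
def p15_36_2_92 : pfC (piC [(nat_lit 35404596), (nat_lit 22827826), (nat_lit 14696761)] (nat_lit 6931473)) p15_36_2 (nat_lit 3) (nat_lit 92) (nat_lit 93) = true := by decide +kernel
def p15_36_2_93 : pfC (piC [(nat_lit 35404596), (nat_lit 22827826), (nat_lit 14696761)] (nat_lit 6931473)) p15_36_2 (nat_lit 3) (nat_lit 93) (nat_lit 94) = true := by decide +kernel
def p15_36_2_94 : pfC (piC [(nat_lit 35404596), (nat_lit 22827826), (nat_lit 14696761)] (nat_lit 6931473)) p15_36_2 (nat_lit 3) (nat_lit 94) (nat_lit 95) = true := by decide +kernel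
def p15_36_2_95 : pfC (piC [(nat_lit 35404596), (nat_lit 22827826), (nat_lit 14696761)] (nat_lit 6931473)) p15_36_2 (nat_lit 3) (nat_lit 95) (nat_lit 96) = true := by decide +kernel
def p15_36_2_96 : pfC (piC [(nat_lit 35404596), (nat_lit 22827826), (nat_lit 14696761)] (nat_lit 6931473)) p15_36_2 (nat_lit 3) (nat_lit 96) (nat_lit 97) = true := by decide +kernel
def p15_36_2_97 : pfC (piC [(nat_lit 35404596), (nat_lit 22827826), (nat_lit 14696761)] (nat_lit 6931473)) p15_36_2 (nat_lit 3) (nat_lit 97) (nat_lit 98) = true := by decide +kernel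
def p15_36_2_98 : pfC (piC [(nat_lit 35404596), (nat_lit 22827826), (nat_lit 14696761)] (nat_lit 6931473)) p15_36_2 (nat_lit 3) (nat_lit 98) (nat_lit 99) = true := by decide +kernel
def p15_36_2_99 : pfC (piC [(nat_lit 35404596), (nat_lit 22827826), (nat_lit 14696761)] (nat_lit 6931473)) p15_36_2 (nat_lit 3) (nat_lit 99) (nat_lit 100) = true := by decide +kernel
def p15_36_2_100 : pfC (piC [(nat_lit 35404596), (nat_lit 22827826), (nat_lit 14696761)] (nat_lit 6931473)) p15_36_2 (nat_lit 3) (nat_lit 100) (nat_lit 101) = true := by decide +kernel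
def p15_36_2_101 : pfC (piC [(nat_lit 35404596), (nat_lit 22827826), (nat_lit 14696761)] (nat_lit 6931473)) p15_36_2 (nat_lit 3) (nat_lit 101) (nat_lit 102) = true := by decide +kernel
def p15_36_2_102 : pfC (piC [(nat_lit 35404596), (nat_lit 22827826), (nat_lit 14696761)] (nat_lit 6931473)) p15_36_2 (nat_lit 3) (nat_lit 102) (nat_lit 103) = true := by decide +kernel
def p15_36_2_103 : pfC (piC [(nat_lit 35404596), (nat_lit 22827826), (nat_lit 14696761)] (nat_lit 6931473)) p15_36_2 (nat_lit 3) (nat_lit 103) (nat_lit 104) = true := by decide +kernel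
def p15_36_2_104 : pfC (piC [(nat_lit 35404596), (nat_lit 22827826), (nat_lit 14696761)] (nat_lit 6931473)) p15_36_2 (nat_lit 3) (nat_lit 104) (nat_lit 105) = true := by decide +kernel
def p15_36_2_105 : pfC (piC [(nat_lit 35404596), (nat_lit 22827826), (nat_lit 14696761)] (nat_lit 6931473)) p15_36_2 (nat_lit 3) (nat_lit 105) (nat_lit 106) = true := by decide +kernel
def p15_36_2_106 : pfC (piC [(nat_lit 35404596), (nat_lit 22827826), (nat_lit 14696761)] (nat_lit 6931473)) p15_36_2 (nat_lit 3) (nat_lit 106) (nat_lit 107) = true := by decide +kernel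
def p15_36_2_107 : pfC (piC [(nat_lit 35404596), (nat_lit 22827826), (nat_lit 14696761)] (nat_lit 6931473)) p15_36_2 (nat_lit 3) (nat_lit 107) (nat_lit 108) = true := by decide +kernel
def p15_36_2_108 : pfC (piC [(nat_lit 35404596), (nat_lit 22827826), (nat_lit 14696761)] (nat_lit 6931473)) p15_36_2 (nat_lit 3) (nat_lit 108) (nat_lit 109) = true := by decide +kernel
def p15_36_2_109 : pfC (piC [(nat_lit 35404596), (nat_lit 22827826), (nat_lit 14696761)] (nat_lit 6931473)) p15_36_2 (nat_lit 3) (nat_lit 109) (nat_lit 110) = true := by decide +kernel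
def p15_36_2_110 : pfC (piC [(nat_lit 35404596), (nat_lit 22827826), (nat_lit 14696761)] (nat_lit 6931473)) p15_36_2 (nat_lit 3) (nat_lit 110) (nat_lit 111) = true := by decide +kernel
def p15_36_2_111 : pfC (piC [(nat_lit 35404596), (nat_lit 22827826), (nat_lit 14696761)] (nat_lit 6931473)) p15_36_2 (nat_lit 3) (nat_lit 111) (nat_lit 112) = true := by decide +kernel
def p15_36_2_112 : pfC (piC [(nat_lit 35404596), (nat_lit 22827826), (nat_lit 14696761)] (nat_lit 6931473)) p15_36_2 (nat_lit 3) (nat_lit 112) (nat_lit 113) = true := by decide +kernel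
def p15_36_2_113 : pfC (piC [(nat_lit 35404596), (nat_lit 22827826), (nat_lit 14696761)] (nat_lit 6931473)) p15_36_2 (nat_lit 3) (nat_lit 113) (nat_lit 114) = true := by decide +kernel
def p15_36_2_114 : pfC (piC [(nat_lit 35404596), (nat_lit 22827826), (nat_lit 14696761)] (nat_lit 6931473)) p15_36_2 (nat_lit 3) (nat_lit 114) (nat_lit 115) = true := by decide +kernel
def p15_36_2_115 : pfC (piC [(nat_lit 35404596), (nat_lit 22827826), (nat_lit 14696761)] (nat_lit 6931473)) p15_36_2 (nat_lit 3) (nat_lit 115) (nat_lit 116) = true := by decide +kernel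
def p15_36_2_116 : pfC (piC [(nat_lit 35404596), (nat_lit 22827826), (nat_lit 14696761)] (nat_lit 6931473)) p15_36_2 (nat_lit 3) (nat_lit 116) (nat_lit 117) = true := by decide +kernel
def p15_36_2_117 : pfC (piC [(nat_lit 35404596), (nat_lit 22827826), (nat_lit 14696761)] (nat_lit 6931473)) p15_36_2 (nat_lit 3) (nat_lit 117) (nat_lit 118) = true := by decide +kernel
def p15_36_2_118 : pfC (piC [(nat_lit 35404596), (nat_lit 22827826), (nat_lit 14696761)] (nat_lit 6931473)) p15_36_2 (nat_lit 3) (nat_lit 118) (nat_lit 119) = true := by decide +kernel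
def p15_36_2_119 : pfC (piC [(nat_lit 35404596), (nat_lit 22827826), (nat_lit 14696761)] (nat_lit 6931473)) p15_36_2 (nat_lit 3) (nat_lit 119) (nat_lit 120) = true := by decide +kernel
def p15_36_2_120 : pfC (piC [(nat_lit 35404596), (nat_lit 22827826), (nat_lit 14696761)] (nat_lit 6931473)) p15_36_2 (nat_lit 3) (nat_lit 120) (nat_lit 121) = true := by decide +kernel
def p15_36_2_121 : pfC (piC [(nat_lit 35404596), (nat_lit 22827826), (nat_lit 14696761)] (nat_lit 6931473)) p15_36_2 (nat_lit 3) (nat_lit 121) (nat_lit 122) = true := by decide +kernel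
def p15_36_2_122 : pfC (piC [(nat_lit 35404596), (nat_lit 22827826), (nat_lit 14696761)] (nat_lit 6931473)) p15_36_2 (nat_lit 3) (nat_lit 122) (nat_lit 123) = true := by decide +kernel
def p15_36_2_123 : pfC (piC [(nat_lit 35404596), (nat_lit 22827826), (nat_lit 14696761)] (nat_lit 6931473)) p15_36_2 (nat_lit 3) (nat_lit 123) (nat_lit 124) = true := by decide +kernel
def p15_36_2_124 : pfC (piC [(nat_lit 35404596), (nat_lit 22827826), (nat_lit 14696761)] (nat_lit 6931473)) p15_36_2 (nat_lit 3) (nat_lit 124) (nat_lit 125) = true := by decide +kernel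
def p15_36_2_125 : pfC (piC [(nat_lit 35404596), (nat_lit 22827826), (nat_lit 14696761)] (nat_lit 6931473)) p15_36_2 (nat_lit 3) (nat_lit 125) (nat_lit 126) = true := by decide +kernel
def p15_36_2_126 : pfC (piC [(nat_lit 35404596), (nat_lit 22827826), (nat_lit 14696761)] (nat_lit 6931473)) p15_36_2 (nat_lit 3) (nat_lit 126) (nat_lit 127) = true := by decide +kernel
def p15_36_2_127 : pfC (piC [(nat_lit 35404596), (nat_lit 22827826), (nat_lit 14696761)] (nat_lit 6931473)) p15_36_2 (nat_lit 3) (nat_lit 127) (nat_lit 128) = true := by decide +kernel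
def p15_36_2_128 : pfC (piC [(nat_lit 35404596), (nat_lit 22827826), (nat_lit 14696761)] (nat_lit 6931473)) p15_36_2 (nat_lit 3) (nat_lit 128) (nat_lit 129) = true := by decide +kernel
def p15_36_2_129 : pfC (piC [(nat_lit 35404596), (nat_lit 22827826), (nat_lit 14696761)] (nat_lit 6931473)) p15_36_2 (nat_lit 3) (nat_lit 129) (nat_lit 130) = true := by decide +kernel
def p15_36_2_130 : pfC (piC [(nat_lit 35404596), (nat_lit 22827826), (nat_lit 14696761)] (nat_lit 6931473)) p15_36_2 (nat_lit 3) (nat_lit 130) (nat_lit 131) = true := by decide +kernel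
def p15_36_2_131 : pfC (piC [(nat_lit 35404596), (nat_lit 22827826), (nat_lit 14696761)] (nat_lit 6931473)) p15_36_2 (nat_lit 3) (nat_lit 131) (nat_lit 132) = true := by decide +kernel
def p15_36_2_132 : pfC (piC [(nat_lit 35404596), (nat_lit 22827826), (nat_lit 14696761)] (nat_lit 6931473)) p15_36_2 (nat_lit 3) (nat_lit 132) (nat_lit 133) = true := by decide +kernel
def p15_36_2_133 : pfC (piC [(nat_lit 35404596), (nat_lit 22827826), (nat_lit 14696761)] (nat_lit 6931473)) p15_36_2 (nat_lit 3) (nat_lit 133) (nat_lit 134) = true := by decide +kernel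
def p15_36_2_134 : pfC (piC [(nat_lit 35404596), (nat_lit 22827826), (nat_lit 14696761)] (nat_lit 6931473)) p15_36_2 (nat_lit 3) (nat_lit 134) (nat_lit 135) = true := by decide +kernel
def p15_36_2_135 : pfC (piC [(nat_lit 35404596), (nat_lit 22827826), (nat_lit 14696761)] (nat_lit 6931473)) p15_36_2 (nat_lit 3) (nat_lit 135) (nat_lit 136) = true := by decide +kernel
def p15_36_2_136 : pfC (piC [(nat_lit 35404596), (nat_lit 22827826), (nat_lit 14696761)] (nat_lit 6931473)) p15_36_2 (nat_lit 3) (nat_lit 136) (nat_lit 137) = true := by decide +kernel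
def p15_36_2_137 : pfC (piC [(nat_lit 35404596), (nat_lit 22827826), (nat_lit 14696761)] (nat_lit 6931473)) p15_36_2 (nat_lit 3) (nat_lit 137) (nat_lit 138) = true := by decide +kernel
def p15_36_2_138 : pfC (piC [(nat_lit 35404596), (nat_lit 22827826), (nat_lit 14696761)] (nat_lit 6931473)) p15_36_2 (nat_lit 3) (nat_lit 138) (nat_lit 139) = true := by decide +kernel
def p15_36_2_139 : pfC (piC [(nat_lit 35404596), (nat_lit 22827826), (nat_lit 14696761)] (nat_lit 6931473)) p15_36_2 (nat_lit 3) (nat_lit 139) (nat_lit 140) = true := by decide +kernel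
def p15_36_2_140 : pfC (piC [(nat_lit 35404596), (nat_lit 22827826), (nat_lit 14696761)] (nat_lit 6931473)) p15_36_2 (nat_lit 3) (nat_lit 140) (nat_lit 141) = true := by decide +kernel
def p15_36_2_141 : pfC (piC [(nat_lit 35404596), (nat_lit 22827826), (nat_lit 14696761)] (nat_lit 6931473)) p15_36_2 (nat_lit 3) (nat_lit 141) (nat_lit 142) = true := by decide +kernel
def p15_36_2_142 : pfC (piC [(nat_lit 35404596), (nat_lit 22827826), (nat_lit 14696761)] (nat_lit 6931473)) p15_36_2 (nat_lit 3) (nat_lit 142) (nat_lit 143) = true := by decide +kernel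
def p15_36_2_143 : pfC (piC [(nat_lit 35404596), (nat_lit 22827826), (nat_lit 14696761)] (nat_lit 6931473)) p15_36_2 (nat_lit 3) (nat_lit 143) (nat_lit 144) = true := by decide +kernel
def p15_36_2_144 : pfC (piC [(nat_lit 35404596), (nat_lit 22827826), (nat_lit 14696761)] (nat_lit 6931473)) p15_36_2 (nat_lit 3) (nat_lit 144) (nat_lit 145) = true := by decide +kernel
def p15_36_2_145 : pfC (piC [(nat_lit 35404596), (nat_lit 22827826), (nat_lit 14696761)] (nat_lit 6931473)) p15_36_2 (nat_lit 3) (nat_lit 145) (nat_lit 146) = true := by decide +kernel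
def p15_36_2_146 : pfC (piC [(nat_lit 35404596), (nat_lit 22827826), (nat_lit 14696761)] (nat_lit 6931473)) p15_36_2 (nat_lit 3) (nat_lit 146) (nat_lit 147) = true := by decide +kernel
def p15_36_2_147 : pfC (piC [(nat_lit 35404596), (nat_lit 22827826), (nat_lit 14696761)] (nat_lit 6931473)) p15_36_2 (nat_lit 3) (nat_lit 147) (nat_lit 148) = true := by decide +kernel
def p15_36_2_148 : pfC (piC [(nat_lit 35404596), (nat_lit 22827826), (nat_lit 14696761)] (nat_lit 6931473)) p15_36_2 (nat_lit 3) (nat_lit 148) (nat_lit 149) = true := by decide +kernel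
def p15_36_2_149 : pfC (piC [(nat_lit 35404596), (nat_lit 22827826), (nat_lit 14696761)] (nat_lit 6931473)) p15_36_2 (nat_lit 3) (nat_lit 149) (nat_lit 150) = true := by decide +kernel
def p15_36_2_150 : pfC (piC [(nat_lit 35404596), (nat_lit 22827826), (nat_lit 14696761)] (nat_lit 6931473)) p15_36_2 (nat_lit 3) (nat_lit 150) (nat_lit 151) = true := by decide +kernel
def p15_36_2_151 : pfC (piC [(nat_lit 35404596), (nat_lit 22827826), (nat_lit 14696761)] (nat_lit 6931473)) p15_36_2 (nat_lit 3) (nat_lit 151) (nat_lit 152) = true := by decide +kernel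
def p15_36_2_152 : pfC (piC [(nat_lit 35404596), (nat_lit 22827826), (nat_lit 14696761)] (nat_lit 6931473)) p15_36_2 (nat_lit 3) (nat_lit 152) (nat_lit 153) = true := by decide +kernel
def p15_36_2_153 : pfC (piC [(nat_lit 35404596), (nat_lit 22827826), (nat_lit 14696761)] (nat_lit 6931473)) p15_36_2 (nat_lit 3) (nat_lit 153) (nat_lit 154) = true := by decide +kernel
def p15_36_2_154 : pfC (piC [(nat_lit 35404596), (nat_lit 22827826), (nat_lit 14696761)] (nat_lit 6931473)) p15_36_2 (nat_lit 3) (nat_lit 154) (nat_lit 155) = true := by decide +kernel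
def p15_36_2_155 : pfC (piC [(nat_lit 35404596), (nat_lit 22827826), (nat_lit 14696761)] (nat_lit 6931473)) p15_36_2 (nat_lit 3) (nat_lit 155) (nat_lit 156) = true := by decide +kernel
def p15_36_2_156 : pfC (piC [(nat_lit 35404596), (nat_lit 22827826), (nat_lit 14696761)] (nat_lit 6931473)) p15_36_2 (nat_lit 3) (nat_lit 156) (nat_lit 157) = true := by decide +kernel
def p15_36_2_157 : pfC (piC [(nat_lit 35404596), (nat_lit 22827826), (nat_lit 14696761)] (nat_lit 6931473)) p15_36_2 (nat_lit 3) (nat_lit 157) (nat_lit 158) = true := by decide +kernel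
def p15_36_2_158 : pfC (piC [(nat_lit 35404596), (nat_lit 22827826), (nat_lit 14696761)] (nat_lit 6931473)) p15_36_2 (nat_lit 3) (nat_lit 158) (nat_lit 159) = true := by decide +kernel
def p15_36_2_159 : pfC (piC [(nat_lit 35404596), (nat_lit 22827826), (nat_lit 14696761)] (nat_lit 6931473)) p15_36_2 (nat_lit 3) (nat_lit 159) (nat_lit 160) = true := by decide +kernel
def p15_36_2_160 : pfC (piC [(nat_lit 35404596), (nat_lit 22827826), (nat_lit 14696761)] (nat_lit 6931473)) p15_36_2 (nat_lit 3) (nat_lit 160) (nat_lit 161) = true := by decide +kernel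
def p15_36_2_161 : pfC (piC [(nat_lit 35404596), (nat_lit 22827826), (nat_lit 14696761)] (nat_lit 6931473)) p15_36_2 (nat_lit 3) (nat_lit 161) (nat_lit 162) = true := by decide +kernel
def p15_36_2_162 : pfC (piC [(nat_lit 35404596), (nat_lit 22827826), (nat_lit 14696761)] (nat_lit 6931473)) p15_36_2 (nat_lit 3) (nat_lit 162) (nat_lit 163) = true := by decide +kernel
def p15_36_2_163 : pfC (piC [(nat_lit 35404596), (nat_lit 22827826), (nat_lit 14696761)] (nat_lit 6931473)) p15_36_2 (nat_lit 3) (nat_lit 163) (nat_lit 164) = true := by decide +kernel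
def p15_36_2_164 : pfC (piC [(nat_lit 35404596), (nat_lit 22827826), (nat_lit 14696761)] (nat_lit 6931473)) p15_36_2 (nat_lit 3) (nat_lit 164) (nat_lit 165) = true := by decide +kernel
def p15_36_2_165 : pfC (piC [(nat_lit 35404596), (nat_lit 22827826), (nat_lit 14696761)] (nat_lit 6931473)) p15_36_2 (nat_lit 3) (nat_lit 165) (nat_lit 166) = true := by decide +kernel
def p15_36_2_166 : pfC (piC [(nat_lit 35404596), (nat_lit 22827826), (nat_lit 14696761)] (nat_lit 6931473)) p15_36_2 (nat_lit 3) (nat_lit 166) (nat_lit 167) = true := by decide +kernel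
def p15_36_2_167 : pfC (piC [(nat_lit 35404596), (nat_lit 22827826), (nat_lit 14696761)] (nat_lit 6931473)) p15_36_2 (nat_lit 3) (nat_lit 167) (nat_lit 168) = true := by decide +kernel
def p15_36_2_168 : pfC (piC [(nat_lit 35404596), (nat_lit 22827826), (nat_lit 14696761)] (nat_lit 6931473)) p15_36_2 (nat_lit 3) (nat_lit 168) (nat_lit 169) = true := by decide +kernel
def p15_36_2_169 : pfC (piC [(nat_lit 35404596), (nat_lit 22827826), (nat_lit 14696761)] (nat_lit 6931473)) p15_36_2 (nat_lit 3) (nat_lit 169) (nat_lit 170) = true := by decide +kernel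
def p15_36_2_170 : pfC (piC [(nat_lit 35404596), (nat_lit 22827826), (nat_lit 14696761)] (nat_lit 6931473)) p15_36_2 (nat_lit 3) (nat_lit 170) (nat_lit 171) = true := by decide +kernel
def p15_36_2_171 : pfC (piC [(nat_lit 35404596), (nat_lit 22827826), (nat_lit 14696761)] (nat_lit 6931473)) p15_36_2 (nat_lit 3) (nat_lit 171) (nat_lit 172) = true := by decide +kernel
def p15_36_2_172 : pfC (piC [(nat_lit 35404596), (nat_lit 22827826), (nat_lit 14696761)] (nat_lit 6931473)) p15_36_2 (nat_lit 3) (nat_lit 172) (nat_lit 173) = true := by decide +kernel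
def p15_36_2_173 : pfC (piC [(nat_lit 35404596), (nat_lit 22827826), (nat_lit 14696761)] (nat_lit 6931473)) p15_36_2 (nat_lit 3) (nat_lit 173) (nat_lit 174) = true := by decide +kernel
def p15_36_2_174 : pfC (piC [(nat_lit 35404596), (nat_lit 22827826), (nat_lit 14696761)] (nat_lit 6931473)) p15_36_2 (nat_lit 3) (nat_lit 174) (nat_lit 175) = true := by decide +kernel
def p15_36_2_175 : pfC (piC [(nat_lit 35404596), (nat_lit 22827826), (nat_lit 14696761)] (nat_lit 6931473)) p15_36_2 (nat_lit 3) (nat_lit 175) (nat_lit 176) = true := by decide +kernel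
def p15_36_2_176 : pfC (piC [(nat_lit 35404596), (nat_lit 22827826), (nat_lit 14696761)] (nat_lit 6931473)) p15_36_2 (nat_lit 3) (nat_lit 176) (nat_lit 177) = true := by decide +kernel
def p15_36_2_177 : pfC (piC [(nat_lit 35404596), (nat_lit 22827826), (nat_lit 14696761)] (nat_lit 6931473)) p15_36_2 (nat_lit 3) (nat_lit 177) (nat_lit 178) = true := by decide +kernel
def p15_36_2_178 : pfC (piC [(nat_lit 35404596), (nat_lit 22827826), (nat_lit 14696761)] (nat_lit 6931473)) p15_36_2 (nat_lit 3) (nat_lit 178) (nat_lit 179) = true := by decide +kernel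
def p15_36_2_179 : pfC (piC [(nat_lit 35404596), (nat_lit 22827826), (nat_lit 14696761)] (nat_lit 6931473)) p15_36_2 (nat_lit 3) (nat_lit 179) (nat_lit 180) = true := by decide +kernel
def p15_36_2_180 : pfC (piC [(nat_lit 35404596), (nat_lit 22827826), (nat_lit 14696761)] (nat_lit 6931473)) p15_36_2 (nat_lit 3) (nat_lit 180) (nat_lit 181) = true := by decide +kernel
def p15_36_2_181 : pfC (piC [(nat_lit 35404596), (nat_lit 22827826), (nat_lit 14696761)] (nat_lit 6931473)) p15_36_2 (nat_lit 3) (nat_lit 181) (nat_lit 182) = true := by decide +kernel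
def p15_36_2_182 : pfC (piC [(nat_lit 35404596), (nat_lit 22827826), (nat_lit 14696761)] (nat_lit 6931473)) p15_36_2 (nat_lit 3) (nat_lit 182) (nat_lit 183) = true := by decide +kernel
def p15_36_2_183 : pfC (piC [(nat_lit 35404596), (nat_lit 22827826), (nat_lit 14696761)] (nat_lit 6931473)) p15_36_2 (nat_lit 3) (nat_lit 183) (nat_lit 184) = true := by decide +kernel
def p15_36_2_184 : pfC (piC [(nat_lit 35404596), (nat_lit 22827826), (nat_lit 14696761)] (nat_lit 6931473)) p15_36_2 (nat_lit 3) (nat_lit 184) (nat_lit 185) = true := by decide +kernel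
def p15_36_2_185 : pfC (piC [(nat_lit 35404596), (nat_lit 22827826), (nat_lit 14696761)] (nat_lit 6931473)) p15_36_2 (nat_lit 3) (nat_lit 185) (nat_lit 186) = true := by decide +kernel
def p15_36_2_186 : pfC (piC [(nat_lit 35404596), (nat_lit 22827826), (nat_lit 14696761)] (nat_lit 6931473)) p15_36_2 (nat_lit 3) (nat_lit 186) (nat_lit 187) = true := by decide +kernel
def p15_36_2_187 : pfC (piC [(nat_lit 35404596), (nat_lit 22827826), (nat_lit 14696761)] (nat_lit 6931473)) p15_36_2 (nat_lit 3) (nat_lit 187) (nat_lit 188) = true := by decide +kernel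
def p15_36_2_188 : pfC (piC [(nat_lit 35404596), (nat_lit 22827826), (nat_lit 14696761)] (nat_lit 6931473)) p15_36_2 (nat_lit 3) (nat_lit 188) (nat_lit 189) = true := by decide +kernel
def p15_36_2_189 : pfC (piC [(nat_lit 35404596), (nat_lit 22827826), (nat_lit 14696761)] (nat_lit 6931473)) p15_36_2 (nat_lit 3) (nat_lit 189) (nat_lit 190) = true := by decide +kernel
def p15_36_2_190 : pfC (piC [(nat_lit 35404596), (nat_lit 22827826), (nat_lit 14696761)] (nat_lit 6931473)) p15_36_2 (nat_lit 3) (nat_lit 190) (nat_lit 191) = true := by decide +kernel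
def p15_36_2_191 : pfC (piC [(nat_lit 35404596), (nat_lit 22827826), (nat_lit 14696761)] (nat_lit 6931473)) p15_36_2 (nat_lit 3) (nat_lit 191) (nat_lit 192) = true := by decide +kernel
def p15_36_2_192 : pfC (piC [(nat_lit 35404596), (nat_lit 22827826), (nat_lit 14696761)] (nat_lit 6931473)) p15_36_2 (nat_lit 3) (nat_lit 192) (nat_lit 193) = true := by decide +kernel
def p15_36_2_193 : pfC (piC [(nat_lit 35404596), (nat_lit 22827826), (nat_lit 14696761)] (nat_lit 6931473)) p15_36_2 (nat_lit 3) (nat_lit 193) (nat_lit 194) = true := by decide +kernel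
def p15_36_2_194 : pfC (piC [(nat_lit 35404596), (nat_lit 22827826), (nat_lit 14696761)] (nat_lit 6931473)) p15_36_2 (nat_lit 3) (nat_lit 194) (nat_lit 195) = true := by decide +kernel
def p15_36_2_195 : pfC (piC [(nat_lit 35404596), (nat_lit 22827826), (nat_lit 14696761)] (nat_lit 6931473)) p15_36_2 (nat_lit 3) (nat_lit 195) (nat_lit 196) = true := by decide +kernel
def p15_36_2_196 : pfC (piC [(nat_lit 35404596), (nat_lit 22827826), (nat_lit 14696761)] (nat_lit 6931473)) p15_36_2 (nat_lit 3) (nat_lit 196) (nat_lit 197) = true := by decide +kernel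
def p15_36_2_197 : pfC (piC [(nat_lit 35404596), (nat_lit 22827826), (nat_lit 14696761)] (nat_lit 6931473)) p15_36_2 (nat_lit 3) (nat_lit 197) (nat_lit 198) = true := by decide +kernel
def p15_36_2_198 : pfC (piC [(nat_lit 35404596), (nat_lit 22827826), (nat_lit 14696761)] (nat_lit 6931473)) p15_36_2 (nat_lit 3) (nat_lit 198) (nat_lit 199) = true := by decide +kernel
def p15_36_2_199 : pfC (piC [(nat_lit 35404596), (nat_lit 22827826), (nat_lit 14696761)] (nat_lit 6931473)) p15_36_2 (nat_lit 3) (nat_lit 199) (nat_lit 200) = true := by decide +kernel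
def p15_36_2_200 : pfC (piC [(nat_lit 35404596), (nat_lit 22827826), (nat_lit 14696761)] (nat_lit 6931473)) p15_36_2 (nat_lit 3) (nat_lit 200) (nat_lit 201) = true := by decide +kernel
def p15_36_2_201 : pfC (piC [(nat_lit 35404596), (nat_lit 22827826), (nat_lit 14696761)] (nat_lit 6931473)) p15_36_2 (nat_lit 3) (nat_lit 201) (nat_lit 202) = true := by decide +kernel
def p15_36_2_202 : pfC (piC [(nat_lit 35404596), (nat_lit 22827826), (nat_lit 14696761)] (nat_lit 6931473)) p15_36_2 (nat_lit 3) (nat_lit 202) (nat_lit 203) = true := by decide +kernel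
def p15_36_2_203 : pfC (piC [(nat_lit 35404596), (nat_lit 22827826), (nat_lit 14696761)] (nat_lit 6931473)) p15_36_2 (nat_lit 3) (nat_lit 203) (nat_lit 204) = true := by decide +kernel
def p15_36_2_204 : pfC (piC [(nat_lit 35404596), (nat_lit 22827826), (nat_lit 14696761)] (nat_lit 6931473)) p15_36_2 (nat_lit 3) (nat_lit 204) (nat_lit 205) = true := by decide +kernel
def p15_36_2_205 : pfC (piC [(nat_lit 35404596), (nat_lit 22827826), (nat_lit 14696761)] (nat_lit 6931473)) p15_36_2 (nat_lit 3) (nat_lit 205) (nat_lit 206) = true := by decide +kernel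
def p15_36_2_206 : pfC (piC [(nat_lit 35404596), (nat_lit 22827826), (nat_lit 14696761)] (nat_lit 6931473)) p15_36_2 (nat_lit 3) (nat_lit 206) (nat_lit 207) = true := by decide +kernel
def p15_36_2_207 : pfC (piC [(nat_lit 35404596), (nat_lit 22827826), (nat_lit 14696761)] (nat_lit 6931473)) p15_36_2 (nat_lit 3) (nat_lit 207) (nat_lit 208) = true := by decide +kernel
def p15_36_2_208 : pfC (piC [(nat_lit 35404596), (nat_lit 22827826), (nat_lit 14696761)] (nat_lit 6931473)) p15_36_2 (nat_lit 3) (nat_lit 208) (nat_lit 209) = true := by decide +kernel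
def p15_36_2_209 : pfC (piC [(nat_lit 35404596), (nat_lit 22827826), (nat_lit 14696761)] (nat_lit 6931473)) p15_36_2 (nat_lit 3) (nat_lit 209) (nat_lit 210) = true := by decide +kernel
def p15_36_2_210 : pfC (piC [(nat_lit 35404596), (nat_lit 22827826), (nat_lit 14696761)] (nat_lit 6931473)) p15_36_2 (nat_lit 3) (nat_lit 210) (nat_lit 211) = true := by decide +kernel
def p15_36_2_211 : pfC (piC [(nat_lit 35404596), (nat_lit 22827826), (nat_lit 14696761)] (nat_lit 6931473)) p15_36_2 (nat_lit 3) (nat_lit 211) (nat_lit 212) = true := by decide +kernel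
def p15_36_2_212 : pfC (piC [(nat_lit 35404596), (nat_lit 22827826), (nat_lit 14696761)] (nat_lit 6931473)) p15_36_2 (nat_lit 3) (nat_lit 212) (nat_lit 213) = true := by decide +kernel
def p15_36_2_213 : pfC (piC [(nat_lit 35404596), (nat_lit 22827826), (nat_lit 14696761)] (nat_lit 6931473)) p15_36_2 (nat_lit 3) (nat_lit 213) (nat_lit 214) = true := by decide +kernel
def p15_36_2_214 : pfC (piC [(nat_lit 35404596), (nat_lit 22827826), (nat_lit 14696761)] (nat_lit 6931473)) p15_36_2 (nat_lit 3) (nat_lit 214) (nat_lit 215) = true := by decide +kernel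
def p15_36_2_215 : pfC (piC [(nat_lit 35404596), (nat_lit 22827826), (nat_lit 14696761)] (nat_lit 6931473)) p15_36_2 (nat_lit 3) (nat_lit 215) (nat_lit 216) = true := by decide +kernel
def p15_36_2_216 : pfC (piC [(nat_lit 35404596), (nat_lit 22827826), (nat_lit 14696761)] (nat_lit 6931473)) p15_36_2 (nat_lit 3) (nat_lit 216) (nat_lit 217) = true := by decide +kernel
theorem p15_36_2_T : PfS (PiF n15_36.reverse (nat_lit 6931473)) p15_36_2 (nat_lit 3) [] 0 :=
  pftab_of (los := [(nat_lit 35404596), (nat_lit 22827826), (nat_lit 14696761)]) (by decide +kernel) (hi := (nat_lit 217)) (PfP.trans (PfP.trans (PfP.trans (PfP.trans (PfP.trans (PfP.trans (PfP.trans (PfP.trans (PfP.trans (PfP.trans (PfP.trans (PfP.trans (PfP.trans (PfP.trans (PfP.trans (PfP.trans (PfP.trans (PfP.trans (PfP.trans (PfP.trans (PfP.trans (PfP.trans (PfP.trans (PfP.trans (PfP.trans (PfP.trans (PfP.trans (PfP.trans (PfP.trans (PfP.trans (PfP.trans (PfP.trans (PfP.trans (PfP.trans (PfP.trans (PfP.trans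 (PfP.trans (PfP.trans (PfP.trans (PfP.trans (PfP.trans (PfP.trans (PfP.trans (PfP.trans (PfP.trans (PfP.trans (PfP.trans (PfP.trans (PfP.trans (PfP.trans (PfP.trans (PfP.trans (PfP.trans (PfP.trans (PfP.trans (PfP.trans (PfP.trans (PfP.trans (PfP.trans (PfP.trans (PfP.trans (PfP.trans (PfP.trans (PfP.trans (PfP.trans (PfP.trans (PfP.trans (PfP.trans (PfP.trans (PfP.trans (PfP.trans (PfP.trans (PfP.trans (PfP.trans (PfP.trans (PfP.trans (PfP.trans (PfP.trans (PfP.trans (PfP.trans (PfP.trans (PfP.trans (PfP.trans (PfP.trans (PfP.trans (PfP.trans (PfP.trans (PfP.trans (PfP.trans (PfP.trans (PfP.trans (PfP.trans (PfP.trans (PfP.trans (PfP.trans (PfP.trans (PfP.trans (PfP.trans (PfP.trans (PfP.trans (PfP.trans (PfP.trans (PfP.trans (PfP.trans (PfP.trans (PfP.trans (PfP.trans (PfP.trans (PfP.trans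
 (PfP.trans (PfP.trans (PfP.trans (PfP.trans (PfP.trans (PfP.trans (PfP.trans (PfP.trans (PfP.trans (PfP.trans (PfP.trans (PfP.trans (PfP.trans (PfP.trans (PfP.trans (PfP.trans (PfP.trans (PfP.trans (PfP.trans (PfP.trans (PfP.trans (PfP.trans (PfP.trans (PfP.trans (PfP.trans (PfP.trans (PfP.trans (PfP.trans (PfP.trans (PfP.trans (PfP.trans (PfP.trans (PfP.trans (PfP.trans (PfP.trans (PfP.trans (PfP.trans (PfP.trans (PfP.trans (PfP.trans (PfP.trans (PfP.trans (PfP.trans (PfP.trans (PfP.trans (PfP.trans (PfP.trans (PfP.trans (PfP.trans (PfP.trans (PfP.trans (PfP.trans (PfP.trans (PfP.trans (PfP.trans (PfP.trans (PfP.trans (PfP.trans (PfP.trans (PfP.trans (PfP.trans (PfP.trans (PfP.trans (PfP.trans (PfP.trans (PfP.trans (PfP.trans (PfP.trans (PfP.trans (PfP.trans (PfP.trans (PfP.trans (PfP.trans (PfP.trans (PfP.trans (PfP.trans (PfP.trans (PfP.trans (PfP.trans (PfP.trans (PfP.trans (PfP.trans (PfP.trans (PfP.trans (PfP.trans (PfP.trans (PfP.trans (PfP.trans (PfP.trans (PfP.trans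 (PfP.trans (PfP.trans (PfP.trans (PfP.trans (PfP.trans (PfP.trans (PfP.trans (PfP.trans (PfP.trans (PfP.trans (PfP.trans (PfP.trans (PfP.trans (PfP.trans (PfP.trans (PfP.trans (PfP.trans (pfC_sound p15_36_2_0)
 (pfC_sound p15_36_2_1)) (pfC_sound p15_36_2_2)) (pfC_sound p15_36_2_3)) (pfC_sound p15_36_2_4)) (pfC_sound p15_36_2_5)) (pfC_sound p15_36_2_6)) (pfC_sound p15_36_2_7)) (pfC_sound p15_36_2_8)) (pfC_sound p15_36_2_9)) (pfC_sound p15_36_2_10)) (pfC_sound p15_36_2_11)) (pfC_sound p15_36_2_12)) (pfC_sound p15_36_2_13)) (pfC_sound p15_36_2_14)) (pfC_sound p15_36_2_15)) (pfC_sound p15_36_2_16)) (pfC_sound p15_36_2_17)) (pfC_sound p15_36_2_18)) (pfC_sound p15_36_2_19)) (pfC_sound p15_36_2_20)) (pfC_sound p15_36_2_21)) (pfC_sound p15_36_2_22)) (pfC_sound p15_36_2_23)) (pfC_sound p15_36_2_24)) (pfC_sound p15_36_2_25)) (pfC_sound p15_36_2_26)) (pfC_sound p15_36_2_27)) (pfC_sound p15_36_2_28)) (pfC_sound p15_36_2_29)) (pfC_sound p15_36_2_30)) (pfC_sound p15_36_2_31)) (pfC_sound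 p15_36_2_32)) (pfC_sound p15_36_2_33)) (pfC_sound p15_36_2_34)) (pfC_sound p15_36_2_35)) (pfC_sound p15_36_2_36)) (pfC_sound p15_36_2_37)) (pfC_sound p15_36_2_38)) (pfC_sound p15_36_2_39)) (pfC_sound p15_36_2_40)) (pfC_sound p15_36_2_41)) (pfC_sound p15_36_2_42)) (pfC_sound p15_36_2_43)) (pfC_sound p15_36_2_44)) (pfC_sound p15_36_2_45)) (pfC_sound p15_36_2_46)) (pfC_sound p15_36_2_47)) (pfC_sound p15_36_2_48))
 (pfC_sound p15_36_2_49)) (pfC_sound p15_36_2_50)) (pfC_sound p15_36_2_51)) (pfC_sound p15_36_2_52)) (pfC_sound p15_36_2_53)) (pfC_sound p15_36_2_54)) (pfC_sound p15_36_2_55)) (pfC_sound p15_36_2_56)) (pfC_sound p15_36_2_57)) (pfC_sound p15_36_2_58)) (pfC_sound p15_36_2_59)) (pfC_sound p15_36_2_60)) (pfC_sound p15_36_2_61)) (pfC_sound p15_36_2_62)) (pfC_sound p15_36_2_63)) (pfC_sound p15_36_2_64)) (pfC_sound p15_36_2_65)) (pfC_sound p15_36_2_66)) (pfC_sound p15_36_2_67)) (pfC_sound p15_36_2_68)) (pfC_sound p15_36_2_69)) (pfC_sound p15_36_2_70)) (pfC_sound p15_36_2_71))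 (pfC_sound p15_36_2_72)) (pfC_sound p15_36_2_73)) (pfC_sound p15_36_2_74)) (pfC_sound p15_36_2_75)) (pfC_sound p15_36_2_76)) (pfC_sound p15_36_2_77)) (pfC_sound p15_36_2_78)) (pfC_sound p15_36_2_79)) (pfC_sound p15_36_2_80)) (pfC_sound p15_36_2_81)) (pfC_sound p15_36_2_82)) (pfC_sound p15_36_2_83)) (pfC_sound p15_36_2_84)) (pfC_sound p15_36_2_85)) (pfC_sound p15_36_2_86)) (pfC_sound p15_36_2_87)) (pfC_sound p15_36_2_88)) (pfC_sound p15_36_2_89)) (pfC_sound p15_36_2_90)) (pfC_sound p15_36_2_91)) (pfC_sound p15_36_2_92)) (pfC_sound p15_36_2_93)) (pfC_sound p15_36_2_94)) (pfC_sound p15_36_2_95)) (pfC_sound p15_36_2_96))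
 (pfC_sound p15_36_2_97)) (pfC_sound p15_36_2_98)) (pfC_sound p15_36_2_99)) (pfC_sound p15_36_2_100)) (pfC_sound p15_36_2_101)) (pfC_sound p15_36_2_102)) (pfC_sound p15_36_2_103)) (pfC_sound p15_36_2_104)) (pfC_sound p15_36_2_105)) (pfC_sound p15_36_2_106)) (pfC_sound p15_36_2_107)) (pfC_sound p15_36_2_108)) (pfC_sound p15_36_2_109)) (pfC_sound p15_36_2_110)) (pfC_sound p15_36_2_111)) (pfC_sound p15_36_2_112)) (pfC_sound p15_36_2_113)) (pfC_sound p15_36_2_114)) (pfC_sound p15_36_2_115)) (pfC_sound p15_36_2_116)) (pfC_sound p15_36_2_117)) (pfC_sound p15_36_2_118)) (pfC_sound p15_36_2_119)) (pfC_sound p15_36_2_120)) (pfC_sound p15_36_2_121)) (pfC_sound p15_36_2_122)) (pfC_sound p15_36_2_123)) (pfC_sound p15_36_2_124)) (pfC_sound p15_36_2_125)) (pfC_sound p15_36_2_126)) (pfC_sound p15_36_2_127)) (pfC_sound p15_36_2_128)) (pfC_sound p15_36_2_129)) (pfC_sound p15_36_2_130)) (pfC_sound p15_36_2_131)) (pfC_sound p15_36_2_132)) (pfC_sound p15_36_2_133)) (pfC_sound p15_36_2_134))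 (pfC_sound p15_36_2_135)) (pfC_sound p15_36_2_136)) (pfC_sound p15_36_2_137)) (pfC_sound p15_36_2_138)) (pfC_sound p15_36_2_139)) (pfC_sound p15_36_2_140)) (pfC_sound p15_36_2_141)) (pfC_sound p15_36_2_142))
 (pfC_sound p15_36_2_143)) (pfC_sound p15_36_2_144)) (pfC_sound p15_36_2_145)) (pfC_sound p15_36_2_146)) (pfC_sound p15_36_2_147)) (pfC_sound p15_36_2_148)) (pfC_sound p15_36_2_149)) (pfC_sound p15_36_2_150)) (pfC_sound p15_36_2_151)) (pfC_sound p15_36_2_152)) (pfC_sound p15_36_2_153)) (pfC_sound p15_36_2_154)) (pfC_sound p15_36_2_155)) (pfC_sound p15_36_2_156)) (pfC_sound p15_36_2_157)) (pfC_sound p15_36_2_158)) (pfC_sound p15_36_2_159)) (pfC_sound p15_36_2_160)) (pfC_sound p15_36_2_161)) (pfC_sound p15_36_2_162)) (pfC_sound p15_36_2_163)) (pfC_sound p15_36_2_164)) (pfC_sound p15_36_2_165)) (pfC_sound p15_36_2_166)) (pfC_sound p15_36_2_167)) (pfC_sound p15_36_2_168)) (pfC_sound p15_36_2_169)) (pfC_sound p15_36_2_170)) (pfC_sound p15_36_2_171)) (pfC_sound p15_36_2_172))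 (pfC_sound p15_36_2_173)) (pfC_sound p15_36_2_174)) (pfC_sound p15_36_2_175)) (pfC_sound p15_36_2_176)) (pfC_sound p15_36_2_177)) (pfC_sound p15_36_2_178)) (pfC_sound p15_36_2_179)) (pfC_sound p15_36_2_180)) (pfC_sound p15_36_2_181)) (pfC_sound p15_36_2_182)) (pfC_sound p15_36_2_183)) (pfC_sound p15_36_2_184)) (pfC_sound p15_36_2_185)) (pfC_sound p15_36_2_186)) (pfC_sound p15_36_2_187)) (pfC_sound p15_36_2_188))
 (pfC_sound p15_36_2_189)) (pfC_sound p15_36_2_190)) (pfC_sound p15_36_2_191)) (pfC_sound p15_36_2_192)) (pfC_sound p15_36_2_193)) (pfC_sound p15_36_2_194)) (pfC_sound p15_36_2_195)) (pfC_sound p15_36_2_196)) (pfC_sound p15_36_2_197)) (pfC_sound p15_36_2_198)) (pfC_sound p15_36_2_199)) (pfC_sound p15_36_2_200)) (pfC_sound p15_36_2_201)) (pfC_sound p15_36_2_202)) (pfC_sound p15_36_2_203)) (pfC_sound p15_36_2_204)) (pfC_sound p15_36_2_205)) (pfC_sound p15_36_2_206)) (pfC_sound p15_36_2_207)) (pfC_sound p15_36_2_208)) (pfC_sound p15_36_2_209)) (pfC_sound p15_36_2_210))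 (pfC_sound p15_36_2_211)) (pfC_sound p15_36_2_212)) (pfC_sound p15_36_2_213)) (pfC_sound p15_36_2_214)) (pfC_sound p15_36_2_215)) (pfC_sound p15_36_2_216)) (by decide +kernel)

def z15_36_2 : zOK yB15_36 (nat_lit 2) (nat_lit 600) (nat_lit 682) (nat_lit 6931473) (nat_lit 6217573) = true := by decide +kernel
def g15_36_2 : gOK yB15_36.x P15_36 (nat_lit 1374) (q15_36 :: r15_36) (nat_lit 2) (nat_lit 600) (nat_lit 3) (nat_lit 682) (nat_lit 12712500) (nat_lit 12712500) (nat_lit 12712500) (nat_lit 12712500) [(nat_lit 800)] = true := by decide +kernel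
def v15_36_2 : ivC P15_36 s15_36 w15_36 n15_36 (nat_lit 3) (nat_lit 4660) (nat_lit 2) (nat_lit 600) f184_0_600 f192_0_600 (nat_lit 3) (nat_lit 682) f184_0_682 f192_0_682 (nat_lit 6931473) (nat_lit 6217573) p15_36_2 = true := by decide +kernel
end CB
end Pool.Agent.Lib.MP_6947cd_al
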