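import Pool.Agent.Lib.MP_6947cd_al.L.BoxDataB
import Pool.Agent.Lib.MP_6947cd_al.L.TeD1
import Pool.Agent.Lib.MP_6947cd_al.L.TeD2

/-!
Problem MP_6947cd_al (Chollet).  CASE B, rows `j`: boxes (generated).
-/

set_option autoImplicit false
set_option linter.defProp false
set_option maxRecDepth 20000

namespace Pool.Agent.Lib.MP_6947cd_al
namespace CB

open Ent Ent.Pk Fr Fr.WT CA

/-! box `yB15_37` -/

def P15_37 : BQ := ⟨(nat_lit 8), (nat_lit 8), (nat_lit 0), (nat_lit 4), (nat_lit 4), (nat_lit 960), (nat_lit 980), (nat_lit 90), [(nat_lit 180), (nat_lit 330), (nat_lit 650)], (nat_lit 153200000), (nat_lit 16000000), (nat_lit 16000000000)⟩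
def q15_37 : PC := ⟨(nat_lit 1000), [(nat_lit 90000), (nat_lit 180000), (nat_lit 330000), (nat_lit 650000)], (nat_lit 18446744078004518913000000), (nat_lit 15846800000000), (nat_lit 15846800000000), (nat_lit 10000000)⟩
def r15_37 : List PC := [⟨(nat_lit 1290), [(nat_lit 90457), (nat_lit 180369), (nat_lit 331093), (nat_lit 650275)], (nat_lit 18530953464717744798648443), (nat_lit 16282972403200), (nat_lit 16292393784000), (nat_lit 10050778)⟩, ⟨(nat_lit 4989), [(nat_lit 97521), (nat_lit 187104), (nat_lit 343254), (nat_lit 676974)], (nat_lit 19601971425875241078844826), (nat_lit 20580256677120), (nat_lit 20709849394400), (nat_lit 10835667)⟩]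
def s15_37 : List PB := [⟨(nat_lit 25800), (nat_lit 1447312000000), [(nat_lit 180369), (nat_lit 331093), (nat_lit 650275)], (nat_lit 18530953464717744798648443), (nat_lit 1142182879245824), (nat_lit 1142192300626624), (nat_lit 46400)⟩, ⟨(nat_lit 99780), (nat_lit 1560336000000), [(nat_lit 187104), (nat_lit 343254), (nat_lit 676974)], (nat_lit 19601971425875241078844826), (nat_lit 1146480163519744), (nat_lit 1146609756237024), (nat_lit 638240)⟩]
def n15_37 : List KN := [⟨(nat_lit 650), (nat_lit 330), (nat_lit 14024239), (nat_lit 9088189)⟩, ⟨(nat_lit 330), (nat_lit 180), (nat_lit 21715570), (nat_lit 14024239)⟩, ⟨(nat_lit 180), (nat_lit 90), (nat_lit 33242365), (nat_lit 21715570)⟩]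
def w15_37 : List ℕ := [(nat_lit 46400), (nat_lit 638240)]
def par15_37 : parC yB15_37 P15_37 s15_37 r15_37 q15_37 n15_37 w15_37 = true := by decide +kernel

def p15_37_0 : PF := (PF.cons (PF.cons (PF.cons (PF.leaf (nat_lit 1217957) (nat_lit 4439962) (nat_lit 62668850) (nat_lit 4439962) [(nat_lit 0), (nat_lit 0), (nat_lit 0)]) (PF.cons (PF.leaf (nat_lit 1506854) (nat_lit 528509) (nat_lit 62034081) (nat_lit 4546221) [(nat_lit 528509), (nat_lit 0), (nat_lit 0)]) (PF.cons (PF.leaf (nat_lit 1850635) (nat_lit 581639) (nat_lit 61288073) (nat_lit 4657460) [(nat_lit 581639), (nat_lit 0), (nat_lit 0)]) (PF.cons (PF.leaf (nat_lit 2240311) (nat_lit 629852) (nat_lit 60451770) (nat_lit 4767485) [(nat_lit 629852), (nat_lit 0), (nat_lit 0)]) (PF.cons (PF.leaf (nat_lit 2669194) (nat_lit 673791) (nat_lit 59541310) (nat_lit 4872335) [(nat_lit 673791), (nat_lit 0), (nat_lit 0)]) (PF.cons (PF.leaf (nat_lit 3131498) (nat_lit 713818) (nat_lit 58570244) (nat_lit 4969475) [(nat_lit 713818),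 (nat_lit 0), (nat_lit 0)]) (PF.cons (PF.leaf (nat_lit 3622043) (nat_lit 750171) (nat_lit 57550440) (nat_lit 5057343) [(nat_lit 750171), (nat_lit 0), (nat_lit 0)]) (PF.cons (PF.leaf (nat_lit 4136078) (nat_lit 783037) (nat_lit 56492490) (nat_lit 5135059) [(nat_lit 783037), (nat_lit 0), (nat_lit 0)]) (PF.cons (PF.leaf (nat_lit 4669245) (nat_lit 812585) (nat_lit 55405894) (nat_lit 5202231)
 [(nat_lit 812585), (nat_lit 0), (nat_lit 0)]) (PF.cons (PF.leaf (nat_lit 5217567) (nat_lit 838981) (nat_lit 54299162) (nat_lit 5258820) [(nat_lit 838981), (nat_lit 0), (nat_lit 0)]) (PF.cons (PF.leaf (nat_lit 5777395) (nat_lit 862389) (nat_lit 53179876) (nat_lit 5305038) [(nat_lit 862389), (nat_lit 0), (nat_lit 0)]) (PF.cons (PF.leaf (nat_lit 6345467) (nat_lit 882982) (nat_lit 52054734) (nat_lit 5341272) [(nat_lit 882982), (nat_lit 0), (nat_lit 0)]) (PF.cons (PF.leaf (nat_lit 6918839) (nat_lit 900931) (nat_lit 50929604) (nat_lit 5368034) [(nat_lit 900931), (nat_lit 0), (nat_lit 0)]) (PF.cons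 (PF.leaf (nat_lit 7494927) (nat_lit 916409) (nat_lit 49809571) (nat_lit 5385911) [(nat_lit 916409), (nat_lit 0), (nat_lit 0)]) (PF.cons (PF.leaf (nat_lit 8071446) (nat_lit 929591) (nat_lit 48698996) (nat_lit 5395536) [(nat_lit 929591), (nat_lit 0), (nat_lit 0)]) (PF.cons (PF.leaf (nat_lit 8646373) (nat_lit 940645) (nat_lit 47601569) (nat_lit 5397563) [(nat_lit 940645), (nat_lit 0), (nat_lit 0)]) (PF.cons (PF.leaf (nat_lit 9218015) (nat_lit 949737) (nat_lit 46520371) (nat_lit 5392647) [(nat_lit 949737), (nat_lit 0), (nat_lit 0)]) (PF.cons (PF.leaf (nat_lit 9784916) (nat_lit 957026) (nat_lit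
 45457937) (nat_lit 5381430) [(nat_lit 957026), (nat_lit 0), (nat_lit 0)]) (PF.cons PF.nil (PF.cons PF.nil (PF.cons PF.nil (PF.cons PF.nil PF.nil)))))))))))))))))))))) (PF.cons (PF.cons (PF.leaf (nat_lit 2145282) (nat_lit 2369277) (nat_lit 59946342) (nat_lit 4793192) [(nat_lit 0), (nat_lit 2369277), (nat_lit 0)]) (PF.cons (PF.leaf (nat_lit 2523355) (nat_lit 654689) (nat_lit 59122794) (nat_lit 4883757) [(nat_lit 654689), (nat_lit 2447572), (nat_lit 0)]) (PF.cons (PF.leaf (nat_lit 2942022) (nat_lit 696053) (nat_lit 58223510) (nat_lit 4970710) [(nat_lit 696053), (nat_lit 2522484), (nat_lit 0)]) (PF.cons (PF.leaf (nat_lit 3394183) (nat_lit 733453) (nat_lit 57264755) (nat_lit 5051345) [(nat_lit 733453), (nat_lit 2592350), (nat_lit 0)]) (PF.cons (PF.leaf (nat_lit 3874143) (nat_lit 767225) (nat_lit 56259630) (nat_lit 5124021) [(nat_lit 767225), (nat_lit 2656259), (nat_lit 0)]) (PF.cons (PF.leaf (nat_lit 4376967) (nat_lit 797609) (nat_lit 55219201) (nat_lit 5187807) [(nat_lit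 797609), (nat_lit 2713754), (nat_lit 0)]) (PF.cons (PF.leaf (nat_lit 4898259) (nat_lit 824805) (nat_lit 54153035) (nat_lit 5242269) [(nat_lit 824805), (nat_lit 2764674), (nat_lit 0)]) (PF.cons (PF.leaf (nat_lit
 5434084) (nat_lit 848995) (nat_lit 53069477) (nat_lit 5287318) [(nat_lit 848995), (nat_lit 2809049), (nat_lit 0)]) (PF.cons (PF.leaf (nat_lit 5980908) (nat_lit 870354) (nat_lit 51975816) (nat_lit 5323113) [(nat_lit 870354), (nat_lit 2847047), (nat_lit 0)]) (PF.cons (PF.leaf (nat_lit 6535579) (nat_lit 889056) (nat_lit 50878399) (nat_lit 5349983) [(nat_lit 889056), (nat_lit 2878923), (nat_lit 0)]) (PF.cons (PF.leaf (nat_lit 7095287) (nat_lit 905272) (nat_lit 49782716) (nat_lit 5368377) [(nat_lit 905272), (nat_lit 2904996), (nat_lit 0)]) (PF.cons (PF.leaf (nat_lit 7657552) (nat_lit 919172) (nat_lit 48693478) (nat_lit 5378816) [(nat_lit 919172), (nat_lit 2925618), (nat_lit 0)]) (PF.cons (PF.leaf (nat_lit 8220220) (nat_lit 930924) (nat_lit 47614687) (nat_lit 5381867)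 [(nat_lit 930924), (nat_lit 2941164), (nat_lit 0)]) (PF.cons (PF.leaf (nat_lit 8781389) (nat_lit 940690) (nat_lit 46549707) (nat_lit 5378116) [(nat_lit 940690), (nat_lit 2952016), (nat_lit 0)]) (PF.cons (PF.leaf (nat_lit 9339449) (nat_lit 948627) (nat_lit 45501324) (nat_lit 5368152) [(nat_lit 948627), (nat_lit 2958556), (nat_lit 0)]) (PF.cons (PF.leaf (nat_lit 9893016) (nat_lit 954886) (nat_lit 44471810) (nat_lit 5352555)
 [(nat_lit 954886), (nat_lit 2961155), (nat_lit 0)]) (PF.cons PF.nil (PF.cons PF.nil (PF.cons PF.nil (PF.cons PF.nil PF.nil)))))))))))))))))))) (PF.cons (PF.cons (PF.leaf (nat_lit 3213539) (nat_lit 2584959) (nat_lit 56887095) (nat_lit 5051799) [(nat_lit 0), (nat_lit 2584959), (nat_lit 0)]) (PF.cons (PF.leaf (nat_lit 3652103) (nat_lit 749322) (nat_lit 55952412) (nat_lit 5117516) [(nat_lit 749322), (nat_lit 2644780), (nat_lit 0)]) (PF.cons (PF.leaf (nat_lit 4119289) (nat_lit 780990) (nat_lit 54970916) (nat_lit 5176564) [(nat_lit 780990), (nat_lit 2699675),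 (nat_lit 0)]) (PF.cons (PF.leaf (nat_lit 4609430) (nat_lit 809287) (nat_lit 53954969) (nat_lit 5227914) [(nat_lit 809287), (nat_lit 2749033), (nat_lit 0)]) (PF.cons (PF.leaf (nat_lit 5117892) (nat_lit 834467) (nat_lit 52914688) (nat_lit 5271063) [(nat_lit 834467), (nat_lit 2792594), (nat_lit 0)]) (PF.cons (PF.leaf (nat_lit 5640665) (nat_lit 856746) (nat_lit 51858567) (nat_lit 5305868) [(nat_lit 856746), (nat_lit 2830321), (nat_lit 0)]) (PF.cons (PF.leaf (nat_lit 6174206) (nat_lit 876317) (nat_lit 50793827) (nat_lit 5332430) [(nat_lit 876317), (nat_lit 2862324), (nat_lit 0)]) (PF.cons (PF.leaf (nat_lit 6715434) (nat_lit 893362)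
 (nat_lit 49726630) (nat_lit 5351024) [(nat_lit 893362), (nat_lit 2888811), (nat_lit 0)]) (PF.cons (PF.leaf (nat_lit 7261607) (nat_lit 908055) (nat_lit 48662223) (nat_lit 5362037) [(nat_lit 908055), (nat_lit 2910055), (nat_lit 0)]) (PF.cons (PF.leaf (nat_lit 7810339) (nat_lit 920565) (nat_lit 47605055) (nat_lit 5365930) [(nat_lit 920565), (nat_lit 2926368), (nat_lit 0)]) (PF.cons (PF.leaf (nat_lit 8359540) (nat_lit 931057) (nat_lit 46558864) (nat_lit 5363209) [(nat_lit 931057), (nat_lit 2938084), (nat_lit 0)]) (PF.cons (PF.leaf (nat_lit 8907401) (nat_lit 939686) (nat_lit 45526766) (nat_lit 5354399) [(nat_lit 939686), (nat_lit 2945546), (nat_lit 0)]) (PF.cons (PF.leaf (nat_lit 9452381) (nat_lit 946605) (nat_lit 44511317) (nat_lit 5340030) [(nat_lit 946605), (nat_lit 2949100), (nat_lit 0)]) (PF.cons (PF.leaf (nat_lit 9993142) (nat_lit 951956) (nat_lit 43514590) (nat_lit 5320622) [(nat_lit 951956), (nat_lit 2949082), (nat_lit 0)]) (PF.cons (PF.leaf (nat_lit 10528583) (nat_lit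 955876) (nat_lit 42538225) (nat_lit 5296681) [(nat_lit 955876), (nat_lit 2945818), (nat_lit 0)]) (PF.cons PF.nil (PF.cons PF.nil (PF.cons PF.nil PF.nil)))))))))))))))))) (PF.cons (PF.cons (PF.leaf (nat_lit
 4359852) (nat_lit 2735395) (nat_lit 53686121) (nat_lit 5216505) [(nat_lit 0), (nat_lit 2735395), (nat_lit 0)]) (PF.cons (PF.leaf (nat_lit 4835340) (nat_lit 818249) (nat_lit 52701611) (nat_lit 5256755) [(nat_lit 818249), (nat_lit 2777398), (nat_lit 0)]) (PF.cons (PF.leaf (nat_lit 5329806) (nat_lit 841752) (nat_lit 51692432) (nat_lit 5289851) [(nat_lit 841752), (nat_lit 2814341), (nat_lit 0)]) (PF.cons (PF.leaf (nat_lit 5838811) (nat_lit 862409) (nat_lit 50667683) (nat_lit 5315579) [(nat_lit 862409), (nat_lit 2846107), (nat_lit 0)]) (PF.cons (PF.leaf (nat_lit 6358709) (nat_lit 880443) (nat_lit 49634810) (nat_lit 5333983) [(nat_lit 880443), (nat_lit 2872748), (nat_lit 0)]) (PF.cons (PF.leaf (nat_lit 6886365) (nat_lit 896052) (nat_lit 48599995) (nat_lit 5345280) [(nat_lit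 896052), (nat_lit 2894425), (nat_lit 0)]) (PF.cons (PF.leaf (nat_lit 7419058) (nat_lit 909418) (nat_lit 47568393) (nat_lit 5349800) [(nat_lit 909418), (nat_lit 2911368), (nat_lit 0)]) (PF.cons (PF.leaf (nat_lit 7954455) (nat_lit 920715) (nat_lit 46544307) (nat_lit 5347951) [(nat_lit 920715), (nat_lit 2923848), (nat_lit 0)]) (PF.cons (PF.leaf (nat_lit 8490498) (nat_lit 930103) (nat_lit 45531309) (nat_lit 5340179)
 [(nat_lit 930103), (nat_lit 2932164), (nat_lit 0)]) (PF.cons (PF.leaf (nat_lit 9025441) (nat_lit 937737) (nat_lit 44532341) (nat_lit 5326956) [(nat_lit 937737), (nat_lit 2936624), (nat_lit 0)]) (PF.cons (PF.leaf (nat_lit 9557775) (nat_lit 943763) (nat_lit 43549800) (nat_lit 5308757) [(nat_lit 943763), (nat_lit 2937539), (nat_lit 0)]) (PF.cons (PF.leaf (nat_lit 10086226) (nat_lit 948319) (nat_lit 42585607) (nat_lit 5286051) [(nat_lit 948319), (nat_lit 2935213), (nat_lit 0)]) (PF.cons (PF.leaf (nat_lit 10609709) (nat_lit 951534) (nat_lit 41641276) (nat_lit 5259294)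 [(nat_lit 951534), (nat_lit 2929943), (nat_lit 0)]) (PF.cons PF.nil (PF.cons PF.nil (PF.cons PF.nil PF.nil)))))))))))))))) (PF.cons (PF.cons (PF.leaf (nat_lit 5535929) (nat_lit 2830569) (nat_lit 50486823) (nat_lit 5299710) [(nat_lit 0), (nat_lit 2830569), (nat_lit 0)]) (PF.cons (PF.leaf (nat_lit 6030097) (nat_lit 866118) (nat_lit 49497307) (nat_lit 5317423) [(nat_lit 866118), (nat_lit 2856990), (nat_lit 0)]) (PF.cons (PF.leaf (nat_lit 6535807) (nat_lit 882864) (nat_lit 48499077) (nat_lit 5328642) [(nat_lit 882864), (nat_lit 2878840), (nat_lit 0)]) (PF.cons (PF.leaf (nat_lit 7049650) (nat_lit 897252) (nat_lit 47498601)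
 (nat_lit 5333529) [(nat_lit 897252), (nat_lit 2896230), (nat_lit 0)]) (PF.cons (PF.leaf (nat_lit 7568841) (nat_lit 909482) (nat_lit 46501131) (nat_lit 5332361) [(nat_lit 909482), (nat_lit 2909347), (nat_lit 0)]) (PF.cons (PF.leaf (nat_lit 8091016) (nat_lit 919730) (nat_lit 45510957) (nat_lit 5325492) [(nat_lit 919730), (nat_lit 2918427), (nat_lit 0)]) (PF.cons (PF.leaf (nat_lit 8614140) (nat_lit 928163) (nat_lit 44531583) (nat_lit 5313320) [(nat_lit 928163), (nat_lit 2923732), (nat_lit 0)]) (PF.cons (PF.leaf (nat_lit 9136473) (nat_lit 934932) (nat_lit 43565861) (nat_lit 5296264) [(nat_lit 934932), (nat_lit 2925538), (nat_lit 0)]) (PF.cons (PF.leaf (nat_lit 9656546) (nat_lit 940182) (nat_lit 42616090) (nat_lit 5274753) [(nat_lit 940182), (nat_lit 2924126), (nat_lit 0)]) (PF.cons (PF.leaf (nat_lit 10173101) (nat_lit 944046) (nat_lit 41684098) (nat_lit 5249208) [(nat_lit 944046), (nat_lit 2919772), (nat_lit 0)]) (PF.cons (PF.leaf (nat_lit 10685074) (nat_lit 946648) (nat_lit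 40771309) (nat_lit 5220040) [(nat_lit 946648), (nat_lit 2912744), (nat_lit 0)]) (PF.cons PF.nil (PF.cons PF.nil (PF.cons PF.nil PF.nil)))))))))))))) (PF.cons (PF.cons (PF.leaf (nat_lit 6707114) (nat_lit 2881060)
 (nat_lit 47386344) (nat_lit 5317165) [(nat_lit 0), (nat_lit 2881060), (nat_lit 0)]) (PF.cons (PF.leaf (nat_lit 7206615) (nat_lit 897066) (nat_lit 46422114) (nat_lit 5316451) [(nat_lit 897066), (nat_lit 2894636), (nat_lit 0)]) (PF.cons (PF.leaf (nat_lit 7712137) (nat_lit 908342) (nat_lit 45460007) (nat_lit 5310325) [(nat_lit 908342), (nat_lit 2904359), (nat_lit 0)]) (PF.cons (PF.leaf (nat_lit 8221111) (nat_lit 917703) (nat_lit 44504467) (nat_lit 5299094) [(nat_lit 917703), (nat_lit 2910428), (nat_lit 0)]) (PF.cons (PF.leaf (nat_lit 8731458) (nat_lit 925320) (nat_lit 43559051) (nat_lit 5283108) [(nat_lit 925320), (nat_lit 2913074), (nat_lit 0)]) (PF.cons (PF.leaf (nat_lit 9241434) (nat_lit 931348) (nat_lit 42626607) (nat_lit 5262744) [(nat_lit 931348), (nat_lit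 2912543), (nat_lit 0)]) (PF.cons (PF.leaf (nat_lit 9749546) (nat_lit 935931) (nat_lit 41709402) (nat_lit 5238385) [(nat_lit 935931), (nat_lit 2909087), (nat_lit 0)]) (PF.cons (PF.leaf (nat_lit 10254549) (nat_lit 939199) (nat_lit 40809220) (nat_lit 5210414) [(nat_lit 939199), (nat_lit 2902956), (nat_lit 0)]) (PF.cons (PF.leaf (nat_lit 10755380) (nat_lit 941274) (nat_lit 39927445) (nat_lit 5179200) [(nat_lit 941274), (nat_lit
 2894394), (nat_lit 0)]) (PF.cons (PF.leaf (nat_lit 11251170) (nat_lit 942268) (nat_lit 39065117) (nat_lit 5145100) [(nat_lit 942268), (nat_lit 2883635), (nat_lit 0)]) (PF.cons PF.nil (PF.cons PF.nil PF.nil)))))))))))) (PF.cons (PF.cons (PF.leaf (nat_lit 7850263) (nat_lit 2896723) (nat_lit 44444253) (nat_lit 5284219) [(nat_lit 0), (nat_lit 2896723), (nat_lit 0)]) (PF.cons (PF.leaf (nat_lit 8345817) (nat_lit 914706) (nat_lit 43524057) (nat_lit 5269223) [(nat_lit 914706), (nat_lit 2900137), (nat_lit 0)]) (PF.cons (PF.leaf (nat_lit 8843437) (nat_lit 921644)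 (nat_lit 42612899) (nat_lit 5249959) [(nat_lit 921644), (nat_lit 2900444), (nat_lit 0)]) (PF.cons (PF.leaf (nat_lit 9341197) (nat_lit 927050) (nat_lit 41713726) (nat_lit 5226761) [(nat_lit 927050), (nat_lit 2897862), (nat_lit 0)]) (PF.cons (PF.leaf (nat_lit 9837579) (nat_lit 931069) (nat_lit 40828850) (nat_lit 5199977) [(nat_lit 931069), (nat_lit 2892618), (nat_lit 0)]) (PF.cons (PF.leaf (nat_lit 10331305) (nat_lit 933832) (nat_lit 39960069) (nat_lit 5169951) [(nat_lit 933832), (nat_lit 2884938), (nat_lit 0)]) (PF.cons (PF.leaf (nat_lit 10821328) (nat_lit 935459) (nat_lit 39108763) (nat_lit 5137020) [(nat_lit 935459), (nat_lit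
 2875045), (nat_lit 0)]) (PF.cons (PF.leaf (nat_lit 11306751) (nat_lit 936060) (nat_lit 38275969) (nat_lit 5101507) [(nat_lit 936060), (nat_lit 2863151), (nat_lit 0)]) (PF.cons PF.nil (PF.cons PF.nil PF.nil)))))))))) (PF.cons (PF.cons (PF.leaf (nat_lit 8951141) (nat_lit 2886063) (nat_lit 41692133) (nat_lit 5214232) [(nat_lit 0), (nat_lit 2886063), (nat_lit 0)]) (PF.cons (PF.leaf (nat_lit 9436634) (nat_lit 922089) (nat_lit 40826243) (nat_lit 5188634) [(nat_lit 922089), (nat_lit 2881692), (nat_lit 0)]) (PF.cons (PF.leaf (nat_lit 9921424) (nat_lit 925644) (nat_lit 39973465) (nat_lit 5159807) [(nat_lit 925644), (nat_lit 2874893), (nat_lit 0)]) (PF.cons (PF.leaf (nat_lit 10404099) (nat_lit 927989) (nat_lit 39135677) (nat_lit 5128064) [(nat_lit 927989), (nat_lit 2865871), (nat_lit 0)]) (PF.cons (PF.leaf (nat_lit 10883554) (nat_lit 929244) (nat_lit 38314306) (nat_lit 5093712) [(nat_lit 929244), (nat_lit 2854830), (nat_lit 0)]) (PF.cons (PF.leaf (nat_lit 11358878) (nat_lit 929518)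 (nat_lit 37510416) (nat_lit 5057046) [(nat_lit 929518), (nat_lit 2841965), (nat_lit 0)]) (PF.cons PF.nil (PF.cons PF.nil PF.nil)))))))) (PF.cons (PF.cons (PF.leaf (nat_lit 10001965) (nat_lit 2856063) (nat_lit
 39142190) (nat_lit 5118116) [(nat_lit 0), (nat_lit 2856063), (nat_lit 0)]) (PF.cons (PF.leaf (nat_lit 10473601) (nat_lit 921707) (nat_lit 38335025) (nat_lit 5084965) [(nat_lit 921707), (nat_lit 2845889), (nat_lit 0)]) (PF.cons (PF.leaf (nat_lit 10942667) (nat_lit 922663) (nat_lit 37543081) (nat_lit 5049462) [(nat_lit 922663), (nat_lit 2833867), (nat_lit 0)]) (PF.cons (PF.leaf (nat_lit 11408120) (nat_lit 922673) (nat_lit 36767493) (nat_lit 5011879) [(nat_lit 922673), (nat_lit 2820177), (nat_lit 0)]) (PF.cons (PF.leaf (nat_lit 11869174) (nat_lit 921835) (nat_lit 36009078) (nat_lit 4972471) [(nat_lit 921835), (nat_lit 2804990), (nat_lit 0)]) (PF.cons PF.nil PF.nil)))))) (PF.cons (PF.cons (PF.leaf (nat_lit 10999385) (nat_lit 2812258) (nat_lit 36794062) (nat_lit 5004427)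 [(nat_lit 0), (nat_lit 2812258), (nat_lit 0)]) (PF.cons (PF.leaf (nat_lit 11455013) (nat_lit 915547) (nat_lit 36046219) (nat_lit 4966142) [(nat_lit 915547), (nat_lit 2797878), (nat_lit 0)]) (PF.cons (PF.leaf (nat_lit 11906856) (nat_lit 914533) (nat_lit 35314402) (nat_lit 4926215) [(nat_lit 914533), (nat_lit 2782125), (nat_lit 0)]) (PF.cons PF.nil PF.nil)))) (PF.cons (PF.cons (PF.leaf (nat_lit 11942947) (nat_lit
 2758933) (nat_lit 34639800) (nat_lit 4879676) [(nat_lit 0), (nat_lit 2758933), (nat_lit 0)]) (PF.cons PF.nil PF.nil)) (PF.cons PF.nil (PF.cons PF.nil (PF.cons PF.nil (PF.cons PF.nil PF.nil))))))))))))))) (PF.cons (PF.cons (PF.cons (PF.leaf (nat_lit 3058191) (nat_lit 5009339) (nat_lit 55615761) (nat_lit 5009339) [(nat_lit 0), (nat_lit 0), (nat_lit 6483712)]) (PF.cons (PF.leaf (nat_lit 3446495) (nat_lit 708472) (nat_lit 54798503) (nat_lit 5066677) [(nat_lit 708472), (nat_lit 0), (nat_lit 6535159)]) (PF.cons (PF.leaf (nat_lit 3870412) (nat_lit 744269) (nat_lit 53918615)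 (nat_lit 5119900) [(nat_lit 744269), (nat_lit 0), (nat_lit 6581758)]) (PF.cons (PF.leaf (nat_lit 4322581) (nat_lit 775731) (nat_lit 52992554) (nat_lit 5167318) [(nat_lit 775731), (nat_lit 0), (nat_lit 6621746)]) (PF.cons (PF.leaf (nat_lit 4797384) (nat_lit 803454) (nat_lit 52032892) (nat_lit 5207983) [(nat_lit 803454), (nat_lit 0), (nat_lit 6654117)]) (PF.cons (PF.leaf (nat_lit 5290183) (nat_lit 827856) (nat_lit 51049726) (nat_lit 5241430) [(nat_lit 827856), (nat_lit 0), (nat_lit 6678375)]) (PF.cons (PF.leaf (nat_lit 5797018) (nat_lit 849254) (nat_lit 50051389) (nat_lit 5267520) [(nat_lit 849254), (nat_lit 0),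
 (nat_lit 6694377)]) (PF.cons (PF.leaf (nat_lit 6314445) (nat_lit 867912) (nat_lit 49044858) (nat_lit 5286338) [(nat_lit 867912), (nat_lit 0), (nat_lit 6702229)]) (PF.cons (PF.leaf (nat_lit 6839486) (nat_lit 884058) (nat_lit 48036012) (nat_lit 5298120) [(nat_lit 884058), (nat_lit 0), (nat_lit 6702210)]) (PF.cons (PF.leaf (nat_lit 7369526) (nat_lit 897897) (nat_lit 47029805) (nat_lit 5303208) [(nat_lit 897897), (nat_lit 0), (nat_lit 6694718)]) (PF.cons (PF.leaf (nat_lit 7902257) (nat_lit 909617) (nat_lit 46030403) (nat_lit 5302006) [(nat_lit 909617), (nat_lit 0), (nat_lit 6680225)]) (PF.cons (PF.leaf (nat_lit 8435725) (nat_lit 919392) (nat_lit 45041282) (nat_lit 5294960) [(nat_lit 919392), (nat_lit 0), (nat_lit 6659248)]) (PF.cons (PF.leaf (nat_lit 8968189) (nat_lit 927385) (nat_lit 44065324) (nat_lit 5282532) [(nat_lit 927385), (nat_lit 0), (nat_lit 6632326)]) (PF.cons (PF.leaf (nat_lit 9498166) (nat_lit 933748) (nat_lit 43104886) (nat_lit 5265190) [(nat_lit 933748),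 (nat_lit 0), (nat_lit 6600004)]) (PF.cons (PF.leaf (nat_lit 10024431) (nat_lit 938623) (nat_lit 42161870) (nat_lit 5243394) [(nat_lit 938623), (nat_lit 0), (nat_lit 6562815)]) (PF.cons (PF.leaf (nat_lit 10545859)
 (nat_lit 942144) (nat_lit 41237783) (nat_lit 5217588) [(nat_lit 942144), (nat_lit 0), (nat_lit 6521277)]) (PF.cons PF.nil (PF.cons PF.nil (PF.cons PF.nil (PF.cons PF.nil PF.nil)))))))))))))))))))) (PF.cons (PF.cons (PF.leaf (nat_lit 4113893) (nat_lit 2683820) (nat_lit 52655816) (nat_lit 5157818) [(nat_lit 0), (nat_lit 2683820), (nat_lit 6611358)]) (PF.cons (PF.leaf (nat_lit 4550050) (nat_lit 784048) (nat_lit 51764148) (nat_lit 5194789) [(nat_lit 784048), (nat_lit 2725791), (nat_lit 6640035)]) (PF.cons (PF.leaf (nat_lit 5010337) (nat_lit 810354) (nat_lit 50836799) (nat_lit 5225979) [(nat_lit 810354), (nat_lit 2763266), (nat_lit 6662059)]) (PF.cons (PF.leaf (nat_lit 5489332) (nat_lit 833316) (nat_lit 49885181) (nat_lit 5250842) [(nat_lit 833316), (nat_lit 2795943),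 (nat_lit 6676895)]) (PF.cons (PF.leaf (nat_lit 5982755) (nat_lit 853312) (nat_lit 48918250) (nat_lit 5269184) [(nat_lit 853312), (nat_lit 2823762), (nat_lit 6684367)]) (PF.cons (PF.leaf (nat_lit 6487023) (nat_lit 870635) (nat_lit 47943241) (nat_lit 5281038) [(nat_lit 870635), (nat_lit 2846806), (nat_lit 6684549)]) (PF.cons (PF.leaf (nat_lit 6999077) (nat_lit 885531) (nat_lit 46966095) (nat_lit 5286595) [(nat_lit 885531),
 (nat_lit 2865249), (nat_lit 6677680)]) (PF.cons (PF.leaf (nat_lit 7516303) (nat_lit 898214) (nat_lit 45991722) (nat_lit 5286148) [(nat_lit 898214), (nat_lit 2879324), (nat_lit 6664114)]) (PF.cons (PF.leaf (nat_lit 8036411) (nat_lit 908874) (nat_lit 45024189) (nat_lit 5280055) [(nat_lit 908874), (nat_lit 2889294), (nat_lit 6644274)]) (PF.cons (PF.leaf (nat_lit 8557469) (nat_lit 917686) (nat_lit 44066850) (nat_lit 5268712) [(nat_lit 917686), (nat_lit 2895442), (nat_lit 6618629)]) (PF.cons (PF.leaf (nat_lit 9077781) (nat_lit 924809) (nat_lit 43122458) (nat_lit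 5252536) [(nat_lit 924809), (nat_lit 2898057), (nat_lit 6587666)]) (PF.cons (PF.leaf (nat_lit 9595913) (nat_lit 930392) (nat_lit 42193246) (nat_lit 5231948) [(nat_lit 930392), (nat_lit 2897428), (nat_lit 6551876)]) (PF.cons (PF.leaf (nat_lit 10110604) (nat_lit 934571) (nat_lit 41281003) (nat_lit 5207363) [(nat_lit 934571), (nat_lit 2893837), (nat_lit 6511746)]) (PF.cons (PF.leaf (nat_lit 10620858) (nat_lit 937476) (nat_lit 40387133) (nat_lit 5179185) [(nat_lit 937476), (nat_lit 2887556), (nat_lit 6467743)]) (PF.cons PF.nil (PF.cons PF.nil (PF.cons PF.nil (PF.cons PF.nil PF.nil)))))))))))))))))) (PF.cons (PF.cons (PF.leaf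
 (nat_lit 5220129) (nat_lit 2780055) (nat_lit 49653288) (nat_lit 5235361) [(nat_lit 0), (nat_lit 2780055), (nat_lit 6660051)]) (PF.cons (PF.leaf (nat_lit 5683680) (nat_lit 836719) (nat_lit 48737931) (nat_lit 5252633) [(nat_lit 836719), (nat_lit 2807443), (nat_lit 6666643)]) (PF.cons (PF.leaf (nat_lit 6162763) (nat_lit 855597) (nat_lit 47805721) (nat_lit 5264143) [(nat_lit 855597), (nat_lit 2830539), (nat_lit 6666673)]) (PF.cons (PF.leaf (nat_lit 6653327) (nat_lit 871823) (nat_lit 46864562) (nat_lit 5269874) [(nat_lit 871823), (nat_lit 2849363), (nat_lit 6660179)]) (PF.cons (PF.leaf (nat_lit 7152137) (nat_lit 885670) (nat_lit 45920714) (nat_lit 5269971) [(nat_lit 885670), (nat_lit 2864040), (nat_lit 6647363)]) (PF.cons (PF.leaf (nat_lit 7656484) (nat_lit 897371) (nat_lit 44979216) (nat_lit 5264681) [(nat_lit 897371), (nat_lit 2874759), (nat_lit 6628540)]) (PF.cons (PF.leaf (nat_lit 8164056) (nat_lit 907123) (nat_lit 44044159) (nat_lit 5254318) [(nat_lit 907123), (nat_lit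 2881752), (nat_lit 6604089)]) (PF.cons (PF.leaf (nat_lit 8672893) (nat_lit 915105) (nat_lit 43118869) (nat_lit 5239238) [(nat_lit 915105), (nat_lit 2885267), (nat_lit 6574434)]) (PF.cons (PF.leaf (nat_lit 9181315)
 (nat_lit 921476) (nat_lit 42206039) (nat_lit 5219813) [(nat_lit 921476), (nat_lit 2885566), (nat_lit 6540017)]) (PF.cons (PF.leaf (nat_lit 9687881) (nat_lit 926383) (nat_lit 41307836) (nat_lit 5196423) [(nat_lit 926383), (nat_lit 2882909), (nat_lit 6501283)]) (PF.cons (PF.leaf (nat_lit 10191399) (nat_lit 929960) (nat_lit 40425981) (nat_lit 5169446) [(nat_lit 929960), (nat_lit 2877553), (nat_lit 6458673)]) (PF.cons (PF.leaf (nat_lit 10690816) (nat_lit 932331) (nat_lit 39561816) (nat_lit 5139245) [(nat_lit 932331), (nat_lit 2869745), (nat_lit 6412613)]) (PF.cons (PF.leaf (nat_lit 11185280) (nat_lit 933610) (nat_lit 38716362) (nat_lit 5106171) [(nat_lit 933610), (nat_lit 2859722), (nat_lit 6363510)]) (PF.cons PF.nil (PF.cons PF.nil (PF.cons PF.nil PF.nil))))))))))))))))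 (PF.cons (PF.cons (PF.leaf (nat_lit 6338802) (nat_lit 2833495) (nat_lit 46713133) (nat_lit 5253097) [(nat_lit 0), (nat_lit 2833495), (nat_lit 6642096)]) (PF.cons (PF.leaf (nat_lit 6814753) (nat_lit 871553) (nat_lit 45808264) (nat_lit 5253479) [(nat_lit 871553), (nat_lit 2848555), (nat_lit 6629849)]) (PF.cons (PF.leaf (nat_lit 7299876) (nat_lit 884556) (nat_lit 44899316) (nat_lit 5248816) [(nat_lit 884556), (nat_lit
 2859881), (nat_lit 6611921)]) (PF.cons (PF.leaf (nat_lit 7791153) (nat_lit 895446) (nat_lit 43991691) (nat_lit 5239314) [(nat_lit 895446), (nat_lit 2867625), (nat_lit 6588589)]) (PF.cons (PF.leaf (nat_lit 8286163) (nat_lit 904439) (nat_lit 43089658) (nat_lit 5225250) [(nat_lit 904439), (nat_lit 2871983), (nat_lit 6560198)]) (PF.cons (PF.leaf (nat_lit 8782878) (nat_lit 911719) (nat_lit 42196621) (nat_lit 5206939) [(nat_lit 911719), (nat_lit 2873174), (nat_lit 6527132)]) (PF.cons (PF.leaf (nat_lit 9279588) (nat_lit 917450) (nat_lit 41315297) (nat_lit 5184717)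 [(nat_lit 917450), (nat_lit 2871433), (nat_lit 6489792)]) (PF.cons (PF.leaf (nat_lit 9774871) (nat_lit 921780) (nat_lit 40447843) (nat_lit 5158929) [(nat_lit 921780), (nat_lit 2866996), (nat_lit 6448585)]) (PF.cons (PF.leaf (nat_lit 10267479) (nat_lit 924842) (nat_lit 39595960) (nat_lit 5129914) [(nat_lit 924842), (nat_lit 2860095), (nat_lit 6403913)]) (PF.cons (PF.leaf (nat_lit 10756406) (nat_lit 926756) (nat_lit 38760965) (nat_lit 5098006) [(nat_lit 926756), (nat_lit 2850956), (nat_lit 6356164)]) (PF.cons (PF.leaf (nat_lit 11240785) (nat_lit 927633) (nat_lit 37943855) (nat_lit 5063522) [(nat_lit 927633), (nat_lit 2839797),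
 (nat_lit 6305708)]) (PF.cons PF.nil (PF.cons PF.nil (PF.cons PF.nil PF.nil)))))))))))))) (PF.cons (PF.cons (PF.leaf (nat_lit 7443713) (nat_lit 2853081) (nat_lit 43900948) (nat_lit 5223620) [(nat_lit 0), (nat_lit 2853081), (nat_lit 6571919)]) (PF.cons (PF.leaf (nat_lit 7921432) (nat_lit 892501) (nat_lit 43028265) (nat_lit 5210489) [(nat_lit 892501), (nat_lit 2858196), (nat_lit 6544772)]) (PF.cons (PF.leaf (nat_lit 8403718) (nat_lit 900881) (nat_lit 42159824) (nat_lit 5193242) [(nat_lit 900881), (nat_lit 2860231), (nat_lit 6513057)]) (PF.cons (PF.leaf (nat_lit 8888314) (nat_lit 907585) (nat_lit 41299242) (nat_lit 5172164) [(nat_lit 907585), (nat_lit 2859380), (nat_lit 6477126)]) (PF.cons (PF.leaf (nat_lit 9373438) (nat_lit 912786) (nat_lit 40449355) (nat_lit 5147558) [(nat_lit 912786), (nat_lit 2855851), (nat_lit 6437349)]) (PF.cons (PF.leaf (nat_lit 9857588) (nat_lit 916633) (nat_lit 39612380) (nat_lit 5119735) [(nat_lit 916633), (nat_lit 2849857), (nat_lit 6394098)])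 (PF.cons (PF.leaf (nat_lit 10339540) (nat_lit 919262) (nat_lit 38790047) (nat_lit 5089006) [(nat_lit 919262), (nat_lit 2841611), (nat_lit 6347740)]) (PF.cons (PF.leaf (nat_lit 10818236) (nat_lit 920791) (nat_lit
 37983687) (nat_lit 5055674) [(nat_lit 920791), (nat_lit 2831319), (nat_lit 6298632)]) (PF.cons (PF.leaf (nat_lit 11292804) (nat_lit 921330) (nat_lit 37194302) (nat_lit 5020029) [(nat_lit 921330), (nat_lit 2819180), (nat_lit 6247113)]) (PF.cons PF.nil (PF.cons PF.nil (PF.cons PF.nil PF.nil)))))))))))) (PF.cons (PF.cons (PF.leaf (nat_lit 8517868) (nat_lit 2846709) (nat_lit 41253576) (nat_lit 5158634) [(nat_lit 0), (nat_lit 2846709), (nat_lit 6463056)]) (PF.cons (PF.leaf (nat_lit 8990102) (nat_lit 902748) (nat_lit 40425717) (nat_lit 5135215) [(nat_lit 902748), (nat_lit 2844072), (nat_lit 6424767)]) (PF.cons (PF.leaf (nat_lit 9463626) (nat_lit 907525) (nat_lit 39607233) (nat_lit 5108601) [(nat_lit 907525), (nat_lit 2838985), (nat_lit 6382996)]) (PF.cons (PF.leaf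 (nat_lit 9936762) (nat_lit 910982) (nat_lit 38800489) (nat_lit 5079077) [(nat_lit 910982), (nat_lit 2831641), (nat_lit 6338091)]) (PF.cons (PF.leaf (nat_lit 10408205) (nat_lit 913256) (nat_lit 38007302) (nat_lit 5046927) [(nat_lit 913256), (nat_lit 2822232), (nat_lit 6290392)]) (PF.cons (PF.leaf (nat_lit 10876873) (nat_lit 914470) (nat_lit 37229059) (nat_lit 5012430) [(nat_lit 914470), (nat_lit 2810949), (nat_lit 6240225)])
 (PF.cons (PF.leaf (nat_lit 11341869) (nat_lit 914731) (nat_lit 36466799) (nat_lit 4975851) [(nat_lit 914731), (nat_lit 2797973), (nat_lit 6187905)]) (PF.cons (PF.leaf (nat_lit 11802450) (nat_lit 914138) (nat_lit 35721280) (nat_lit 4937444) [(nat_lit 914138), (nat_lit 2783478), (nat_lit 6133726)]) (PF.cons PF.nil (PF.cons PF.nil PF.nil)))))))))) (PF.cons (PF.cons (PF.leaf (nat_lit 9551078) (nat_lit 2820983) (nat_lit 38787839) (nat_lit 5068075) [(nat_lit 0), (nat_lit 2820983), (nat_lit 6326995)]) (PF.cons (PF.leaf (nat_lit 10013086) (nat_lit 904857)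 (nat_lit 38011139) (nat_lit 5037157) [(nat_lit 904857), (nat_lit 2812476), (nat_lit 6280797)]) (PF.cons (PF.leaf (nat_lit 10474103) (nat_lit 906856) (nat_lit 37246740) (nat_lit 5003855) [(nat_lit 906856), (nat_lit 2802072), (nat_lit 6232070)]) (PF.cons (PF.leaf (nat_lit 10932885) (nat_lit 907820) (nat_lit 36496133) (nat_lit 4968428) [(nat_lit 907820), (nat_lit 2789944), (nat_lit 6181120)]) (PF.cons (PF.leaf (nat_lit 11388484) (nat_lit 907861) (nat_lit 35760432) (nat_lit 4931121) [(nat_lit 907861), (nat_lit 2776262), (nat_lit 6128237)]) (PF.cons (PF.leaf (nat_lit 11840129) (nat_lit 907077) (nat_lit 35040448) (nat_lit 4892167) [(nat_lit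
 907077), (nat_lit 2761185), (nat_lit 6073695)]) (PF.cons PF.nil (PF.cons PF.nil PF.nil)))))))) (PF.cons (PF.cons (PF.leaf (nat_lit 10537974) (nat_lit 2781228) (nat_lit 36507323) (nat_lit 4959941) [(nat_lit 0), (nat_lit 2781228), (nat_lit 6172945)]) (PF.cons (PF.leaf (nat_lit 10986825) (nat_lit 900862) (nat_lit 35783930) (nat_lit 4923801) [(nat_lit 900862), (nat_lit 2768393), (nat_lit 6121463)]) (PF.cons (PF.leaf (nat_lit 11433147) (nat_lit 900740) (nat_lit 35074270) (nat_lit 4885954) [(nat_lit 900740), (nat_lit 2754124), (nat_lit 6068236)]) (PF.cons (PF.leaf (nat_lit 11876006) (nat_lit 899813) (nat_lit 34379240) (nat_lit 4846618) [(nat_lit 899813), (nat_lit 2738570), (nat_lit 6013520)]) (PF.cons PF.nil (PF.cons PF.nil PF.nil)))))) (PF.cons (PF.cons (PF.leaf (nat_lit 11476452) (nat_lit 2731623) (nat_lit 34407368) (nat_lit 4840447) [(nat_lit 0), (nat_lit 2731623), (nat_lit 6008010)]) (PF.cons (PF.leaf (nat_lit 11910507) (nat_lit 892360) (nat_lit 33736765) (nat_lit 4800880)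 [(nat_lit 892360), (nat_lit 2715688), (nat_lit 5953294)]) (PF.cons PF.nil (PF.cons PF.nil PF.nil)))) (PF.cons (PF.cons (PF.leaf (nat_lit 12366543) (nat_lit 2675382) (nat_lit 32478544) (nat_lit 4714302) [(nat_lit
 0), (nat_lit 2675382), (nat_lit 5837518)]) (PF.cons PF.nil PF.nil)) (PF.cons PF.nil (PF.cons PF.nil (PF.cons PF.nil PF.nil))))))))))))) (PF.cons (PF.cons (PF.cons (PF.leaf (nat_lit 4939532) (nat_lit 5169187) (nat_lit 48769762) (nat_lit 5169187) [(nat_lit 0), (nat_lit 0), (nat_lit 6584931)]) (PF.cons (PF.leaf (nat_lit 5368015) (nat_lit 802558) (nat_lit 47938384) (nat_lit 5186059) [(nat_lit 802558), (nat_lit 0), (nat_lit 6590905)]) (PF.cons (PF.leaf (nat_lit 5817206) (nat_lit 824593) (nat_lit 47079298) (nat_lit 5197951) [(nat_lit 824593), (nat_lit 0), (nat_lit 6591188)]) (PF.cons (PF.leaf (nat_lit 6281950) (nat_lit 843392) (nat_lit 46202781) (nat_lit 5204634) [(nat_lit 843392), (nat_lit 0), (nat_lit 6585609)]) (PF.cons (PF.leaf (nat_lit 6758326) (nat_lit 859407)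 (nat_lit 45316653) (nat_lit 5206102) [(nat_lit 859407), (nat_lit 0), (nat_lit 6574213)]) (PF.cons (PF.leaf (nat_lit 7243124) (nat_lit 872976) (nat_lit 44427057) (nat_lit 5202492) [(nat_lit 872976), (nat_lit 0), (nat_lit 6557189)]) (PF.cons (PF.leaf (nat_lit 7733658) (nat_lit 884372) (nat_lit 43538903) (nat_lit 5194032) [(nat_lit 884372), (nat_lit 0), (nat_lit 6534822)]) (PF.cons (PF.leaf (nat_lit 8227686) (nat_lit 893820)
 (nat_lit 42656151) (nat_lit 5181009) [(nat_lit 893820), (nat_lit 0), (nat_lit 6507454)]) (PF.cons (PF.leaf (nat_lit 8723279) (nat_lit 901517) (nat_lit 41782004) (nat_lit 5163745) [(nat_lit 901517), (nat_lit 0), (nat_lit 6475463)]) (PF.cons (PF.leaf (nat_lit 9218809) (nat_lit 907632) (nat_lit 40919050) (nat_lit 5142576) [(nat_lit 907632), (nat_lit 0), (nat_lit 6439245)]) (PF.cons (PF.leaf (nat_lit 9712886) (nat_lit 912320) (nat_lit 40069364) (nat_lit 5117847) [(nat_lit 912320), (nat_lit 0), (nat_lit 6399199)]) (PF.cons (PF.leaf (nat_lit 10204314) (nat_lit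 915717) (nat_lit 39234595) (nat_lit 5089896) [(nat_lit 915717), (nat_lit 0), (nat_lit 6355716)]) (PF.cons (PF.leaf (nat_lit 10692097) (nat_lit 917947) (nat_lit 38416030) (nat_lit 5059052) [(nat_lit 917947), (nat_lit 0), (nat_lit 6309178)]) (PF.cons (PF.leaf (nat_lit 11175410) (nat_lit 919125) (nat_lit 37614654) (nat_lit 5025631) [(nat_lit 919125), (nat_lit 0), (nat_lit 6259946)]) (PF.cons PF.nil (PF.cons PF.nil PF.nil)))))))))))))))) (PF.cons (PF.cons (PF.leaf (nat_lit 5999939) (nat_lit 2783226) (nat_lit 46004815) (nat_lit 5187402) [(nat_lit 0), (nat_lit 2783226), (nat_lit 6566684)]) (PF.cons (PF.leaf (nat_lit 6449195) (nat_lit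
 842929) (nat_lit 45165359) (nat_lit 5188964) [(nat_lit 842929), (nat_lit 2800076), (nat_lit 6555741)]) (PF.cons (PF.leaf (nat_lit 6911465) (nat_lit 858247) (nat_lit 44314110) (nat_lit 5185854) [(nat_lit 858247), (nat_lit 2813280), (nat_lit 6539536)]) (PF.cons (PF.leaf (nat_lit 7383033) (nat_lit 871107) (nat_lit 43457905) (nat_lit 5178173) [(nat_lit 871107), (nat_lit 2822937), (nat_lit 6518236)]) (PF.cons (PF.leaf (nat_lit 7861008) (nat_lit 881813) (nat_lit 42602027) (nat_lit 5166116) [(nat_lit 881813), (nat_lit 2829210), (nat_lit 6492102)]) (PF.cons (PF.leaf (nat_lit 8343007) (nat_lit 890609) (nat_lit 41750633) (nat_lit 5149936) [(nat_lit 890609), (nat_lit 2832299), (nat_lit 6461448)]) (PF.cons (PF.leaf (nat_lit 8827045) (nat_lit 897700) (nat_lit 40907021) (nat_lit 5129922) [(nat_lit 897700), (nat_lit 2832423), (nat_lit 6426622)]) (PF.cons (PF.leaf (nat_lit 9311440) (nat_lit 903261) (nat_lit 40073819) (nat_lit 5106381) [(nat_lit 903261), (nat_lit 2829807), (nat_lit 6387986)])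 (PF.cons (PF.leaf (nat_lit 9794785) (nat_lit 907448) (nat_lit 39253113) (nat_lit 5079623) [(nat_lit 907448), (nat_lit 2824676), (nat_lit 6345905)]) (PF.cons (PF.leaf (nat_lit 10275885) (nat_lit 910397)
 (nat_lit 38446546) (nat_lit 5049958) [(nat_lit 910397), (nat_lit 2817253), (nat_lit 6300740)]) (PF.cons (PF.leaf (nat_lit 10753737) (nat_lit 912230) (nat_lit 37655392) (nat_lit 5017687) [(nat_lit 912230), (nat_lit 2807749), (nat_lit 6252840)]) (PF.cons (PF.leaf (nat_lit 11227488) (nat_lit 913059) (nat_lit 36880624) (nat_lit 4983096) [(nat_lit 913059), (nat_lit 2796367), (nat_lit 6202536)]) (PF.cons PF.nil (PF.cons PF.nil PF.nil)))))))))))))) (PF.cons (PF.cons (PF.leaf (nat_lit 7062191) (nat_lit 2807409) (nat_lit 43331802) (nat_lit 5161570) [(nat_lit 0), (nat_lit 2807409), (nat_lit 6500310)]) (PF.cons (PF.leaf (nat_lit 7519699) (nat_lit 868133) (nat_lit 42510581) (nat_lit 5150390) [(nat_lit 868133), (nat_lit 2814436), (nat_lit 6475417)]) (PF.cons (PF.leaf (nat_lit 7984712)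 (nat_lit 878319) (nat_lit 41687912) (nat_lit 5135246) [(nat_lit 878319), (nat_lit 2818386), (nat_lit 6446121)]) (PF.cons (PF.leaf (nat_lit 8454500) (nat_lit 886602) (nat_lit 40868345) (nat_lit 5116364) [(nat_lit 886602), (nat_lit 2819428), (nat_lit 6412718)]) (PF.cons (PF.leaf (nat_lit 8926934) (nat_lit 893205) (nat_lit 40055408) (nat_lit 5094005) [(nat_lit 893205), (nat_lit 2817755), (nat_lit 6375532)]) (PF.cons
 (PF.leaf (nat_lit 9400269) (nat_lit 898314) (nat_lit 39251855) (nat_lit 5068450) [(nat_lit 898314), (nat_lit 2813569), (nat_lit 6334897)]) (PF.cons (PF.leaf (nat_lit 9873024) (nat_lit 902087) (nat_lit 38459846) (nat_lit 5039982) [(nat_lit 902087), (nat_lit 2807075), (nat_lit 6291154)]) (PF.cons (PF.leaf (nat_lit 10343987) (nat_lit 904663) (nat_lit 37681062) (nat_lit 5008884) [(nat_lit 904663), (nat_lit 2798477), (nat_lit 6244634)]) (PF.cons (PF.leaf (nat_lit 10812114) (nat_lit 906165) (nat_lit 36916804) (nat_lit 4975433) [(nat_lit 906165), (nat_lit 2787968),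 (nat_lit 6195658)]) (PF.cons (PF.leaf (nat_lit 11276549) (nat_lit 906702) (nat_lit 36168056) (nat_lit 4939891) [(nat_lit 906702), (nat_lit 2775737), (nat_lit 6144533)]) (PF.cons PF.nil (PF.cons PF.nil PF.nil)))))))))))) (PF.cons (PF.cons (PF.leaf (nat_lit 8106018) (nat_lit 2805760) (nat_lit 40795324) (nat_lit 5101735) [(nat_lit 0), (nat_lit 2805760), (nat_lit 6397235)]) (PF.cons (PF.leaf (nat_lit 8563121) (nat_lit 881831) (nat_lit 40008193) (nat_lit 5080575) [(nat_lit 881831), (nat_lit 2805012), (nat_lit 6361587)]) (PF.cons (PF.leaf (nat_lit 9023795) (nat_lit 888068) (nat_lit 39226149) (nat_lit 5056247) [(nat_lit 888068),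
 (nat_lit 2801771), (nat_lit 6322481)]) (PF.cons (PF.leaf (nat_lit 9486022) (nat_lit 892825) (nat_lit 38452192) (nat_lit 5029009) [(nat_lit 892825), (nat_lit 2796220), (nat_lit 6280237)]) (PF.cons (PF.leaf (nat_lit 9948254) (nat_lit 896269) (nat_lit 37688629) (nat_lit 4999122) [(nat_lit 896269), (nat_lit 2788546), (nat_lit 6235172)]) (PF.cons (PF.leaf (nat_lit 10409189) (nat_lit 898546) (nat_lit 36937239) (nat_lit 4966848) [(nat_lit 898546), (nat_lit 2778934), (nat_lit 6187594)]) (PF.cons (PF.leaf (nat_lit 10867761) (nat_lit 899780) (nat_lit 36199384) (nat_lit 4932442) [(nat_lit 899780), (nat_lit 2767564), (nat_lit 6137805)]) (PF.cons (PF.leaf (nat_lit 11323081) (nat_lit 900081) (nat_lit 35476091) (nat_lit 4896147) [(nat_lit 900081), (nat_lit 2754609), (nat_lit 6086086)]) (PF.cons PF.nil (PF.cons PF.nil PF.nil)))))))))) (PF.cons (PF.cons (PF.leaf (nat_lit 9118594) (nat_lit 2784611) (nat_lit 38418078) (nat_lit 5016862) [(nat_lit 0), (nat_lit 2784611), (nat_lit 6267712)])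 (PF.cons (PF.leaf (nat_lit 9569456) (nat_lit 886816) (nat_lit 37673763) (nat_lit 4988249) [(nat_lit 886816), (nat_lit 2777884), (nat_lit 6224222)]) (PF.cons (PF.leaf (nat_lit 10021115) (nat_lit 890019) (nat_lit
 36938467) (nat_lit 4957213) [(nat_lit 890019), (nat_lit 2769197), (nat_lit 6178150)]) (PF.cons (PF.leaf (nat_lit 10472076) (nat_lit 892070) (nat_lit 36214132) (nat_lit 4924001) [(nat_lit 892070), (nat_lit 2758721), (nat_lit 6129792)]) (PF.cons (PF.leaf (nat_lit 10921200) (nat_lit 893098) (nat_lit 35502230) (nat_lit 4888847) [(nat_lit 893098), (nat_lit 2746621), (nat_lit 6079427)]) (PF.cons (PF.leaf (nat_lit 11367549) (nat_lit 893217) (nat_lit 34803865) (nat_lit 4851979) [(nat_lit 893217), (nat_lit 2733058), (nat_lit 6027323)]) (PF.cons (PF.leaf (nat_lit 11810345) (nat_lit 892525) (nat_lit 34119850) (nat_lit 4813612) [(nat_lit 892525), (nat_lit 2718184), (nat_lit 5973730)]) (PF.cons PF.nil PF.nil)))))))) (PF.cons (PF.cons (PF.leaf (nat_lit 10092401) (nat_lit 2749125)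 (nat_lit 36208289) (nat_lit 4914399) [(nat_lit 0), (nat_lit 2749125), (nat_lit 6120248)]) (PF.cons (PF.leaf (nat_lit 10533234) (nat_lit 885250) (nat_lit 35510752) (nat_lit 4880467) [(nat_lit 885250), (nat_lit 2737922), (nat_lit 6071365)]) (PF.cons (PF.leaf (nat_lit 10972939) (nat_lit 886135) (nat_lit 34824415) (nat_lit 4844758) [(nat_lit 886135), (nat_lit 2725213), (nat_lit 6020649)]) (PF.cons (PF.leaf (nat_lit
 11410397) (nat_lit 886124) (nat_lit 34150501) (nat_lit 4807484) [(nat_lit 886124), (nat_lit 2711150), (nat_lit 5968351)]) (PF.cons (PF.leaf (nat_lit 11844782) (nat_lit 885319) (nat_lit 33489908) (nat_lit 4768846) [(nat_lit 885319), (nat_lit 2695872), (nat_lit 5914709)]) (PF.cons PF.nil PF.nil)))))) (PF.cons (PF.cons (PF.leaf (nat_lit 11023602) (nat_lit 2703404) (nat_lit 34164979) (nat_lit 4800266) [(nat_lit 0), (nat_lit 2703404), (nat_lit 5961569)]) (PF.cons (PF.leaf (nat_lit 11452079) (nat_lit 878814) (nat_lit 33515106) (nat_lit 4762741) [(nat_lit 878814), (nat_lit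 2688939), (nat_lit 5909257)]) (PF.cons (PF.leaf (nat_lit 11878116) (nat_lit 877940) (nat_lit 32877455) (nat_lit 4723968) [(nat_lit 877940), (nat_lit 2673344), (nat_lit 5855719)]) (PF.cons PF.nil PF.nil)))) (PF.cons (PF.cons (PF.leaf (nat_lit 11910858) (nat_lit 2650642) (nat_lit 32281643) (nat_lit 4679032) [(nat_lit 0), (nat_lit 2650642), (nat_lit 5796820)]) (PF.cons (PF.leaf (nat_lit 12325669) (nat_lit 868808) (nat_lit 31678407) (nat_lit 4639265) [(nat_lit 868808), (nat_lit 2633875), (nat_lit 5742601)]) PF.nil)) (PF.cons PF.nil (PF.cons PF.nil (PF.cons PF.nil PF.nil))))))))))) (PF.cons (PF.cons (PF.cons (PF.leaf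
 (nat_lit 6708959) (nat_lit 5097728) (nat_lit 42730544) (nat_lit 5097728) [(nat_lit 0), (nat_lit 0), (nat_lit 6426846)]) (PF.cons (PF.leaf (nat_lit 7143054) (nat_lit 840782) (nat_lit 41966304) (nat_lit 5088628) [(nat_lit 840782), (nat_lit 0), (nat_lit 6404365)]) (PF.cons (PF.leaf (nat_lit 7588292) (nat_lit 853343) (nat_lit 41193547) (nat_lit 5075708) [(nat_lit 853343), (nat_lit 0), (nat_lit 6377623)]) (PF.cons (PF.leaf (nat_lit 8041242) (nat_lit 863630) (nat_lit 40418198) (nat_lit 5059134) [(nat_lit 863630), (nat_lit 0), (nat_lit 6346863)]) (PF.cons (PF.leaf (nat_lit 8499297) (nat_lit 871960) (nat_lit 39644746) (nat_lit 5039124) [(nat_lit 871960), (nat_lit 0), (nat_lit 6312366)]) (PF.cons (PF.leaf (nat_lit 8960341) (nat_lit 878583) (nat_lit 38876663) (nat_lit 5015926) [(nat_lit 878583), (nat_lit 0), (nat_lit 6274435)]) (PF.cons (PF.leaf (nat_lit 9422628) (nat_lit 883701) (nat_lit 38116658) (nat_lit 4989799) [(nat_lit 883701), (nat_lit 0), (nat_lit 6233381)]) (PF.cons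 (PF.leaf (nat_lit 9884720) (nat_lit 887485) (nat_lit 37366853) (nat_lit 4961009) [(nat_lit 887485), (nat_lit 0), (nat_lit 6189516)]) (PF.cons (PF.leaf (nat_lit 10345389) (nat_lit 890082) (nat_lit 36628905) (nat_lit
 4929815) [(nat_lit 890082), (nat_lit 0), (nat_lit 6143144)]) (PF.cons (PF.leaf (nat_lit 10803616) (nat_lit 891618) (nat_lit 35904097) (nat_lit 4896471) [(nat_lit 891618), (nat_lit 0), (nat_lit 6094559)]) (PF.cons (PF.leaf (nat_lit 11258558) (nat_lit 892206) (nat_lit 35193408) (nat_lit 4861222) [(nat_lit 892206), (nat_lit 0), (nat_lit 6044039)]) (PF.cons PF.nil (PF.cons PF.nil (PF.cons PF.nil PF.nil)))))))))))))) (PF.cons (PF.cons (PF.leaf (nat_lit 7717847) (nat_lit 2762831) (nat_lit 40313395) (nat_lit 5043276) [(nat_lit 0), (nat_lit 2762831), (nat_lit 6329769)]) (PF.cons (PF.leaf (nat_lit 8157441) (nat_lit 858838) (nat_lit 39570609) (nat_lit 5024491) [(nat_lit 858838), (nat_lit 2764182), (nat_lit 6296896)]) (PF.cons (PF.leaf (nat_lit 8603327) (nat_lit 866886)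 (nat_lit 38827805) (nat_lit 5002553) [(nat_lit 866886), (nat_lit 2762972), (nat_lit 6260569)]) (PF.cons (PF.leaf (nat_lit 9053029) (nat_lit 873213) (nat_lit 38088856) (nat_lit 4977692) [(nat_lit 873213), (nat_lit 2759374), (nat_lit 6221083)]) (PF.cons (PF.leaf (nat_lit 9504644) (nat_lit 878040) (nat_lit 37356719) (nat_lit 4950151) [(nat_lit 878040), (nat_lit 2753572), (nat_lit 6178735)]) (PF.cons (PF.leaf (nat_lit 9956629)
 (nat_lit 881550) (nat_lit 36633669) (nat_lit 4920176) [(nat_lit 881550), (nat_lit 2745751), (nat_lit 6133820)]) (PF.cons (PF.leaf (nat_lit 10407692) (nat_lit 883894) (nat_lit 35921462) (nat_lit 4888009) [(nat_lit 883894), (nat_lit 2736090), (nat_lit 6086626)]) (PF.cons (PF.leaf (nat_lit 10856787) (nat_lit 885204) (nat_lit 35221448) (nat_lit 4853886) [(nat_lit 885204), (nat_lit 2724765), (nat_lit 6037427)]) (PF.cons (PF.leaf (nat_lit 11303017) (nat_lit 885591) (nat_lit 34534651) (nat_lit 4818032) [(nat_lit 885591), (nat_lit 2711940), (nat_lit 5986485)])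 (PF.cons PF.nil (PF.cons PF.nil (PF.cons PF.nil PF.nil)))))))))))) (PF.cons (PF.cons (PF.leaf (nat_lit 8706151) (nat_lit 2746680) (nat_lit 38030275) (nat_lit 4964281) [(nat_lit 0), (nat_lit 2746680), (nat_lit 6206964)]) (PF.cons (PF.leaf (nat_lit 9144025) (nat_lit 867260) (nat_lit 37320820) (nat_lit 4938072) [(nat_lit 867260), (nat_lit 2741887), (nat_lit 6166294)]) (PF.cons (PF.leaf (nat_lit 9584781) (nat_lit 871898) (nat_lit 36616599) (nat_lit 4909391) [(nat_lit 871898), (nat_lit 2735051), (nat_lit 6122974)]) (PF.cons (PF.leaf (nat_lit 10026590) (nat_lit 875216) (nat_lit 35920138) (nat_lit 4878471) [(nat_lit 875216), (nat_lit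
 2726341), (nat_lit 6077290)]) (PF.cons (PF.leaf (nat_lit 10468077) (nat_lit 877377) (nat_lit 35233359) (nat_lit 4845540) [(nat_lit 877377), (nat_lit 2715925), (nat_lit 6029516)]) (PF.cons (PF.leaf (nat_lit 10908103) (nat_lit 878518) (nat_lit 34557723) (nat_lit 4810821) [(nat_lit 878518), (nat_lit 2703965), (nat_lit 5979914)]) (PF.cons (PF.leaf (nat_lit 11345732) (nat_lit 878755) (nat_lit 33894331) (nat_lit 4774523) [(nat_lit 878755), (nat_lit 2690615), (nat_lit 5928731)]) (PF.cons (PF.leaf (nat_lit 11780187) (nat_lit 878190) (nat_lit 33244006) (nat_lit 4736845) [(nat_lit 878190), (nat_lit 2676019), (nat_lit 5876196)]) (PF.cons PF.nil (PF.cons PF.nil PF.nil)))))))))) (PF.cons (PF.cons (PF.leaf (nat_lit 9663902) (nat_lit 2715759) (nat_lit 35895156) (nat_lit 4867650) [(nat_lit 0), (nat_lit 2715759), (nat_lit 6066242)]) (PF.cons (PF.leaf (nat_lit 10095244) (nat_lit 868492) (nat_lit 35225237) (nat_lit 4836012) [(nat_lit 868492), (nat_lit 2706302), (nat_lit 6020054)]) (PF.cons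 (PF.leaf (nat_lit 10527071) (nat_lit 870542) (nat_lit 34563657) (nat_lit 4802515) [(nat_lit 870542), (nat_lit 2695255), (nat_lit 5971929)]) (PF.cons (PF.leaf (nat_lit 10958033) (nat_lit 871573) (nat_lit 33912045)
 (nat_lit 4767369) [(nat_lit 871573), (nat_lit 2682770), (nat_lit 5922121)]) (PF.cons (PF.leaf (nat_lit 11387114) (nat_lit 871710) (nat_lit 33271623) (nat_lit 4730775) [(nat_lit 871710), (nat_lit 2668990), (nat_lit 5870866)]) (PF.cons (PF.leaf (nat_lit 11813487) (nat_lit 871056) (nat_lit 32643296) (nat_lit 4692920) [(nat_lit 871056), (nat_lit 2654053), (nat_lit 5818384)]) (PF.cons PF.nil (PF.cons PF.nil PF.nil)))))))) (PF.cons (PF.cons (PF.leaf (nat_lit 10585366) (nat_lit 2674141) (nat_lit 33911358) (nat_lit 4759018) [(nat_lit 0), (nat_lit 2674141), (nat_lit 5913957)]) (PF.cons (PF.leaf (nat_lit 11007065) (nat_lit 864376) (nat_lit 33283508) (nat_lit 4723607) [(nat_lit 864376), (nat_lit 2661232), (nat_lit 5864130)]) (PF.cons (PF.leaf (nat_lit 11427590) (nat_lit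 864464) (nat_lit 32665687) (nat_lit 4686855) [(nat_lit 864464), (nat_lit 2647113), (nat_lit 5812963)]) (PF.cons (PF.leaf (nat_lit 11845921) (nat_lit 863764) (nat_lit 32058921) (nat_lit 4648941) [(nat_lit 863764), (nat_lit 2631911), (nat_lit 5760669)]) (PF.cons PF.nil (PF.cons PF.nil PF.nil)))))) (PF.cons (PF.cons (PF.leaf (nat_lit 11467715) (nat_lit 2625022) (nat_lit 32075658) (nat_lit 4642816) [(nat_lit 0), (nat_lit
 2625022), (nat_lit 5755075)]) (PF.cons (PF.leaf (nat_lit 11877862) (nat_lit 856317) (nat_lit 31490085) (nat_lit 4604957) [(nat_lit 856317), (nat_lit 2609630), (nat_lit 5703099)]) (PF.cons (PF.leaf (nat_lit 12285699) (nat_lit 854923) (nat_lit 30915308) (nat_lit 4566178) [(nat_lit 854923), (nat_lit 2593338), (nat_lit 5650262)]) (PF.cons PF.nil PF.nil)))) (PF.cons (PF.cons (PF.leaf (nat_lit 12310061) (nat_lit 2570874) (nat_lit 30381025) (nat_lit 4522444) [(nat_lit 0), (nat_lit 2570874), (nat_lit 5593365)]) (PF.cons PF.nil PF.nil)) (PF.cons PF.nil (PF.cons PF.nil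 (PF.cons PF.nil PF.nil)))))))))) (PF.cons (PF.cons (PF.cons (PF.leaf (nat_lit 8315928) (nat_lit 4910075) (nat_lit 37620863) (nat_lit 4910075) [(nat_lit 0), (nat_lit 0), (nat_lit 6144468)]) (PF.cons (PF.leaf (nat_lit 8738484) (nat_lit 845714) (nat_lit 36949570) (nat_lit 4886408) [(nat_lit 845714), (nat_lit 0), (nat_lit 6106779)]) (PF.cons (PF.leaf (nat_lit 9166445) (nat_lit 852127) (nat_lit 36278981) (nat_lit 4860200) [(nat_lit 852127), (nat_lit 0), (nat_lit 6066344)]) (PF.cons (PF.leaf (nat_lit 9597533) (nat_lit 856973) (nat_lit 35612426) (nat_lit 4831677) [(nat_lit 856973), (nat_lit 0), (nat_lit 6023446)]) (PF.cons (PF.leaf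
 (nat_lit 10030033) (nat_lit 860472) (nat_lit 34952419) (nat_lit 4801061) [(nat_lit 860472), (nat_lit 0), (nat_lit 5978360)]) (PF.cons (PF.leaf (nat_lit 10462565) (nat_lit 862797) (nat_lit 34300870) (nat_lit 4768571) [(nat_lit 862797), (nat_lit 0), (nat_lit 5931345)]) (PF.cons (PF.leaf (nat_lit 10893990) (nat_lit 864095) (nat_lit 33659240) (nat_lit 4734415) [(nat_lit 864095), (nat_lit 0), (nat_lit 5882646)]) (PF.cons (PF.leaf (nat_lit 11323370) (nat_lit 864487) (nat_lit 33028639) (nat_lit 4698791) [(nat_lit 864487), (nat_lit 0), (nat_lit 5832492)]) (PF.cons (PF.leaf (nat_lit 11749931) (nat_lit 864078) (nat_lit 32409899) (nat_lit 4661886) [(nat_lit 864078), (nat_lit 0), (nat_lit 5781099)]) (PF.cons PF.nil PF.nil)))))))))) (PF.cons (PF.cons (PF.leaf (nat_lit 9254055) (nat_lit 2680881) (nat_lit 35565558) (nat_lit 4819505) [(nat_lit 0), (nat_lit 2680881), (nat_lit 6010717)]) (PF.cons (PF.leaf (nat_lit 9674125) (nat_lit 850282) (nat_lit 34925521) (nat_lit 4790272) [(nat_lit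 850282), (nat_lit 2673324), (nat_lit 5967352)]) (PF.cons (PF.leaf (nat_lit 10096590) (nat_lit 853719) (nat_lit 34290501) (nat_lit 4759085) [(nat_lit 853719), (nat_lit 2664070), (nat_lit 5921929)]) (PF.cons (PF.leaf
 (nat_lit 10519779) (nat_lit 855968) (nat_lit 33662657) (nat_lit 4726153) [(nat_lit 855968), (nat_lit 2653277), (nat_lit 5874704)]) (PF.cons (PF.leaf (nat_lit 10942449) (nat_lit 857187) (nat_lit 33043618) (nat_lit 4691677) [(nat_lit 857187), (nat_lit 2641095), (nat_lit 5825918)]) (PF.cons (PF.leaf (nat_lit 11363585) (nat_lit 857504) (nat_lit 32434607) (nat_lit 4655847) [(nat_lit 857504), (nat_lit 2627665), (nat_lit 5775792)]) (PF.cons (PF.leaf (nat_lit 11782358) (nat_lit 857029) (nat_lit 31836542) (nat_lit 4618839) [(nat_lit 857029), (nat_lit 2613121), (nat_lit 5724533)]) (PF.cons PF.nil PF.nil)))))))) (PF.cons (PF.cons (PF.leaf (nat_lit 10162929) (nat_lit 2643655) (nat_lit 33644880) (nat_lit 4716557) [(nat_lit 0), (nat_lit 2643655), (nat_lit 5865015)]) (PF.cons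 (PF.leaf (nat_lit 10576450) (nat_lit 848841) (nat_lit 33040663) (nat_lit 4683353) [(nat_lit 848841), (nat_lit 2632417), (nat_lit 5817779)]) (PF.cons (PF.leaf (nat_lit 10990261) (nat_lit 850041) (nat_lit 32443984) (nat_lit 4648703) [(nat_lit 850041), (nat_lit 2619872), (nat_lit 5769074)]) (PF.cons (PF.leaf (nat_lit 11403120) (nat_lit 850333) (nat_lit 31856235) (nat_lit 4612791) [(nat_lit 850333), (nat_lit 2606154), (nat_lit
 5719119)]) (PF.cons (PF.leaf (nat_lit 11814121) (nat_lit 849832) (nat_lit 31278450) (nat_lit 4575788) [(nat_lit 849832), (nat_lit 2591390), (nat_lit 5668115)]) (PF.cons PF.nil PF.nil)))))) (PF.cons (PF.cons (PF.leaf (nat_lit 11038041) (nat_lit 2598393) (nat_lit 31859439) (nat_lit 4605543) [(nat_lit 0), (nat_lit 2598393), (nat_lit 5712162)]) (PF.cons (PF.leaf (nat_lit 11442393) (nat_lit 842972) (nat_lit 31292710) (nat_lit 4569669) [(nat_lit 842972), (nat_lit 2584465), (nat_lit 5662516)]) (PF.cons (PF.leaf (nat_lit 11845576) (nat_lit 842488) (nat_lit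 30734878) (nat_lit 4532772) [(nat_lit 842488), (nat_lit 2569548), (nat_lit 5611884)]) (PF.cons (PF.leaf (nat_lit 12246653) (nat_lit 841306) (nat_lit 30186821) (nat_lit 4495006) [(nat_lit 841306), (nat_lit 2553757), (nat_lit 5560448)]) PF.nil)))) (PF.cons (PF.cons (PF.leaf (nat_lit 11877222) (nat_lit 2547619) (nat_lit 30205059) (nat_lit 4489819) [(nat_lit 0), (nat_lit 2547619), (nat_lit 5555864)]) (PF.cons (PF.leaf (nat_lit 12270799) (nat_lit 833865) (nat_lit 29675686) (nat_lit 4452307) [(nat_lit 833865), (nat_lit 2531783), (nat_lit 5504954)]) PF.nil)) (PF.cons PF.nil (PF.cons PF.nil (PF.cons PF.nil PF.nil)))))))) (PF.cons (PF.cons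
 (PF.cons (PF.leaf (nat_lit 9757826) (nat_lit 4672699) (nat_lit 33363413) (nat_lit 4672699) [(nat_lit 0), (nat_lit 0), (nat_lit 5814539)]) (PF.cons (PF.leaf (nat_lit 10161454) (nat_lit 831917) (nat_lit 32784894) (nat_lit 4641823) [(nat_lit 831917), (nat_lit 0), (nat_lit 5770035)]) (PF.cons (PF.leaf (nat_lit 10567132) (nat_lit 834444) (nat_lit 32211002) (nat_lit 4609379) [(nat_lit 834444), (nat_lit 0), (nat_lit 5723908)]) (PF.cons (PF.leaf (nat_lit 10973316) (nat_lit 835896) (nat_lit 31643605) (nat_lit 4575559) [(nat_lit 835896), (nat_lit 0), (nat_lit 5676391)]) (PF.cons (PF.leaf (nat_lit 11378869) (nat_lit 836420) (nat_lit 31084104) (nat_lit 4540540) [(nat_lit 836420), (nat_lit 0), (nat_lit 5627697)]) (PF.cons (PF.leaf (nat_lit 11782877) (nat_lit 836140) (nat_lit 30533544) (nat_lit 4504484) [(nat_lit 836140), (nat_lit 0), (nat_lit 5578016)]) (PF.cons PF.nil (PF.cons PF.nil PF.nil)))))))) (PF.cons (PF.cons (PF.leaf (nat_lit 10622987) (nat_lit 2570590) (nat_lit 31631514)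 (nat_lit 4567073) [(nat_lit 0), (nat_lit 2570590), (nat_lit 5667926)]) (PF.cons (PF.leaf (nat_lit 11020212) (nat_lit 828578) (nat_lit 31085099) (nat_lit 4533282) [(nat_lit 828578), (nat_lit 2558237), (nat_lit
 5620723)]) (PF.cons (PF.leaf (nat_lit 11417607) (nat_lit 829150) (nat_lit 30545410) (nat_lit 4498352) [(nat_lit 829150), (nat_lit 2544794), (nat_lit 5572390)]) (PF.cons (PF.leaf (nat_lit 11814023) (nat_lit 828904) (nat_lit 30013651) (nat_lit 4462444) [(nat_lit 828904), (nat_lit 2530383), (nat_lit 5523123)]) (PF.cons (PF.leaf (nat_lit 12208630) (nat_lit 827949) (nat_lit 29490716) (nat_lit 4425708) [(nat_lit 827949), (nat_lit 2515115), (nat_lit 5473094)]) (PF.cons PF.nil PF.nil)))))) (PF.cons (PF.cons (PF.leaf (nat_lit 11456814) (nat_lit 2523397) (nat_lit 30019776) (nat_lit 4456161) [(nat_lit 0), (nat_lit 2523397), (nat_lit 5517215)]) (PF.cons (PF.leaf (nat_lit 11845379) (nat_lit 821524) (nat_lit 29506612) (nat_lit 4420493) [(nat_lit 821524), (nat_lit 2508924), (nat_lit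 5468466)]) (PF.cons (PF.leaf (nat_lit 12232811) (nat_lit 820633) (nat_lit 29001301) (nat_lit 4384036) [(nat_lit 820633), (nat_lit 2493634), (nat_lit 5418987)]) (PF.cons PF.nil PF.nil)))) (PF.cons (PF.cons (PF.leaf (nat_lit 12257585) (nat_lit 2472147) (nat_lit 28523785) (nat_lit 4342539) [(nat_lit 0), (nat_lit 2472147), (nat_lit 5365209)]) (PF.cons PF.nil PF.nil)) (PF.cons PF.nil (PF.cons PF.nil PF.nil)))))) (PF.cons
 (PF.cons (PF.cons (PF.leaf (nat_lit 11049949) (nat_lit 4421336) (nat_lit 29823845) (nat_lit 4421336) [(nat_lit 0), (nat_lit 0), (nat_lit 5477271)]) (PF.cons (PF.leaf (nat_lit 11432222) (nat_lit 808182) (nat_lit 29328230) (nat_lit 4387611) [(nat_lit 808182), (nat_lit 0), (nat_lit 5430798)]) (PF.cons (PF.leaf (nat_lit 11814610) (nat_lit 808290) (nat_lit 28838568) (nat_lit 4352978) [(nat_lit 808290), (nat_lit 0), (nat_lit 5383447)]) (PF.cons (PF.leaf (nat_lit 12196024) (nat_lit 807654) (nat_lit 28355917) (nat_lit 4317579) [(nat_lit 807654), (nat_lit 0), (nat_lit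 5335392)]) PF.nil)))) (PF.cons (PF.cons (PF.leaf (nat_lit 11846780) (nat_lit 2450103) (nat_lit 28364221) (nat_lit 4312137) [(nat_lit 0), (nat_lit 2450103), (nat_lit 5330391)]) (PF.cons (PF.leaf (nat_lit 12220909) (nat_lit 800351) (nat_lit 27898041) (nat_lit 4277108) [(nat_lit 800351), (nat_lit 2435414), (nat_lit 5282982)]) PF.nil)) (PF.cons PF.nil (PF.cons PF.nil PF.nil)))) (PF.cons (PF.cons (PF.cons (PF.leaf (nat_lit 12212042) (nat_lit 4174138) (nat_lit 26868737) (nat_lit 4174138) [(nat_lit 0), (nat_lit 0), (nat_lit 5152276)]) (PF.cons PF.nil PF.nil)) (PF.cons PF.nil PF.nil)) (PF.cons PF.nil (PF.cons PF.nil (PF.cons PF.nil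
 (PF.cons PF.nil PF.nil))))))))))))

def p15_37_0_0 : pfC (piC [(nat_lit 33242365), (nat_lit 21715570), (nat_lit 14024239)] (nat_lit 15324770)) p15_37_0 (nat_lit 3) (nat_lit 0) (nat_lit 1) = true := by decide +kernel
def p15_37_0_1 : pfC (piC [(nat_lit 33242365), (nat_lit 21715570), (nat_lit 14024239)] (nat_lit 15324770)) p15_37_0 (nat_lit 3) (nat_lit 1) (nat_lit 2) = true := by decide +kernel
def p15_37_0_2 : pfC (piC [(nat_lit 33242365), (nat_lit 21715570), (nat_lit 14024239)] (nat_lit 15324770)) p15_37_0 (nat_lit 3) (nat_lit 2) (nat_lit 3) = true := by decide +kernel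
def p15_37_0_3 : pfC (piC [(nat_lit 33242365), (nat_lit 21715570), (nat_lit 14024239)] (nat_lit 15324770)) p15_37_0 (nat_lit 3) (nat_lit 3) (nat_lit 4) = true := by decide +kernel
def p15_37_0_4 : pfC (piC [(nat_lit 33242365), (nat_lit 21715570), (nat_lit 14024239)] (nat_lit 15324770)) p15_37_0 (nat_lit 3) (nat_lit 4) (nat_lit 5) = true := by decide +kernel
def p15_37_0_5 : pfC (piC [(nat_lit 33242365), (nat_lit 21715570), (nat_lit 14024239)] (nat_lit 15324770)) p15_37_0 (nat_lit 3) (nat_lit 5) (nat_lit 6) = true := by decide +kernel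
def p15_37_0_6 : pfC (piC [(nat_lit 33242365), (nat_lit 21715570), (nat_lit 14024239)] (nat_lit 15324770)) p15_37_0 (nat_lit 3) (nat_lit 6) (nat_lit 7) = true := by decide +kernel
def p15_37_0_7 : pfC (piC [(nat_lit 33242365), (nat_lit 21715570), (nat_lit 14024239)] (nat_lit 15324770)) p15_37_0 (nat_lit 3) (nat_lit 7) (nat_lit 8) = true := by decide +kernel
def p15_37_0_8 : pfC (piC [(nat_lit 33242365), (nat_lit 21715570), (nat_lit 14024239)] (nat_lit 15324770)) p15_37_0 (nat_lit 3) (nat_lit 8) (nat_lit 9) = true := by decide +kernel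
def p15_37_0_9 : pfC (piC [(nat_lit 33242365), (nat_lit 21715570), (nat_lit 14024239)] (nat_lit 15324770)) p15_37_0 (nat_lit 3) (nat_lit 9) (nat_lit 10) = true := by decide +kernel
def p15_37_0_10 : pfC (piC [(nat_lit 33242365), (nat_lit 21715570), (nat_lit 14024239)] (nat_lit 15324770)) p15_37_0 (nat_lit 3) (nat_lit 10) (nat_lit 11) = true := by decide +kernel
def p15_37_0_11 : pfC (piC [(nat_lit 33242365), (nat_lit 21715570), (nat_lit 14024239)] (nat_lit 15324770)) p15_37_0 (nat_lit 3) (nat_lit 11) (nat_lit 12) = true := by decide +kernel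
def p15_37_0_12 : pfC (piC [(nat_lit 33242365), (nat_lit 21715570), (nat_lit 14024239)] (nat_lit 15324770)) p15_37_0 (nat_lit 3) (nat_lit 12) (nat_lit 13) = true := by decide +kernel
def p15_37_0_13 : pfC (piC [(nat_lit 33242365), (nat_lit 21715570), (nat_lit 14024239)] (nat_lit 15324770)) p15_37_0 (nat_lit 3) (nat_lit 13) (nat_lit 14) = true := by decide +kernel
def p15_37_0_14 : pfC (piC [(nat_lit 33242365), (nat_lit 21715570), (nat_lit 14024239)] (nat_lit 15324770)) p15_37_0 (nat_lit 3) (nat_lit 14) (nat_lit 15) = true := by decide +kernel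
def p15_37_0_15 : pfC (piC [(nat_lit 33242365), (nat_lit 21715570), (nat_lit 14024239)] (nat_lit 15324770)) p15_37_0 (nat_lit 3) (nat_lit 15) (nat_lit 16) = true := by decide +kernel
def p15_37_0_16 : pfC (piC [(nat_lit 33242365), (nat_lit 21715570), (nat_lit 14024239)] (nat_lit 15324770)) p15_37_0 (nat_lit 3) (nat_lit 16) (nat_lit 17) = true := by decide +kernel
def p15_37_0_17 : pfC (piC [(nat_lit 33242365), (nat_lit 21715570), (nat_lit 14024239)] (nat_lit 15324770)) p15_37_0 (nat_lit 3) (nat_lit 17) (nat_lit 18) = true := by decide +kernel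
def p15_37_0_18 : pfC (piC [(nat_lit 33242365), (nat_lit 21715570), (nat_lit 14024239)] (nat_lit 15324770)) p15_37_0 (nat_lit 3) (nat_lit 18) (nat_lit 19) = true := by decide +kernel
def p15_37_0_19 : pfC (piC [(nat_lit 33242365), (nat_lit 21715570), (nat_lit 14024239)] (nat_lit 15324770)) p15_37_0 (nat_lit 3) (nat_lit 19) (nat_lit 20) = true := by decide +kernel
def p15_37_0_20 : pfC (piC [(nat_lit 33242365), (nat_lit 21715570), (nat_lit 14024239)] (nat_lit 15324770)) p15_37_0 (nat_lit 3) (nat_lit 20) (nat_lit 21) = true := by decide +kernel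
def p15_37_0_21 : pfC (piC [(nat_lit 33242365), (nat_lit 21715570), (nat_lit 14024239)] (nat_lit 15324770)) p15_37_0 (nat_lit 3) (nat_lit 21) (nat_lit 22) = true := by decide +kernel
def p15_37_0_22 : pfC (piC [(nat_lit 33242365), (nat_lit 21715570), (nat_lit 14024239)] (nat_lit 15324770)) p15_37_0 (nat_lit 3) (nat_lit 22) (nat_lit 23) = true := by decide +kernel
def p15_37_0_23 : pfC (piC [(nat_lit 33242365), (nat_lit 21715570), (nat_lit 14024239)] (nat_lit 15324770)) p15_37_0 (nat_lit 3) (nat_lit 23) (nat_lit 24) = true := by decide +kernel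
def p15_37_0_24 : pfC (piC [(nat_lit 33242365), (nat_lit 21715570), (nat_lit 14024239)] (nat_lit 15324770)) p15_37_0 (nat_lit 3) (nat_lit 24) (nat_lit 25) = true := by decide +kernel
def p15_37_0_25 : pfC (piC [(nat_lit 33242365), (nat_lit 21715570), (nat_lit 14024239)] (nat_lit 15324770)) p15_37_0 (nat_lit 3) (nat_lit 25) (nat_lit 26) = true := by decide +kernel
def p15_37_0_26 : pfC (piC [(nat_lit 33242365), (nat_lit 21715570), (nat_lit 14024239)] (nat_lit 15324770)) p15_37_0 (nat_lit 3) (nat_lit 26) (nat_lit 27) = true := by decide +kernel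
def p15_37_0_27 : pfC (piC [(nat_lit 33242365), (nat_lit 21715570), (nat_lit 14024239)] (nat_lit 15324770)) p15_37_0 (nat_lit 3) (nat_lit 27) (nat_lit 28) = true := by decide +kernel
def p15_37_0_28 : pfC (piC [(nat_lit 33242365), (nat_lit 21715570), (nat_lit 14024239)] (nat_lit 15324770)) p15_37_0 (nat_lit 3) (nat_lit 28) (nat_lit 29) = true := by decide +kernel
def p15_37_0_29 : pfC (piC [(nat_lit 33242365), (nat_lit 21715570), (nat_lit 14024239)] (nat_lit 15324770)) p15_37_0 (nat_lit 3) (nat_lit 29) (nat_lit 30) = true := by decide +kernel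
def p15_37_0_30 : pfC (piC [(nat_lit 33242365), (nat_lit 21715570), (nat_lit 14024239)] (nat_lit 15324770)) p15_37_0 (nat_lit 3) (nat_lit 30) (nat_lit 31) = true := by decide +kernel
def p15_37_0_31 : pfC (piC [(nat_lit 33242365), (nat_lit 21715570), (nat_lit 14024239)] (nat_lit 15324770)) p15_37_0 (nat_lit 3) (nat_lit 31) (nat_lit 32) = true := by decide +kernel
def p15_37_0_32 : pfC (piC [(nat_lit 33242365), (nat_lit 21715570), (nat_lit 14024239)] (nat_lit 15324770)) p15_37_0 (nat_lit 3) (nat_lit 32) (nat_lit 33) = true := by decide +kernel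
def p15_37_0_33 : pfC (piC [(nat_lit 33242365), (nat_lit 21715570), (nat_lit 14024239)] (nat_lit 15324770)) p15_37_0 (nat_lit 3) (nat_lit 33) (nat_lit 34) = true := by decide +kernel
def p15_37_0_34 : pfC (piC [(nat_lit 33242365), (nat_lit 21715570), (nat_lit 14024239)] (nat_lit 15324770)) p15_37_0 (nat_lit 3) (nat_lit 34) (nat_lit 35) = true := by decide +kernel
def p15_37_0_35 : pfC (piC [(nat_lit 33242365), (nat_lit 21715570), (nat_lit 14024239)] (nat_lit 15324770)) p15_37_0 (nat_lit 3) (nat_lit 35) (nat_lit 36) = true := by decide +kernel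
def p15_37_0_36 : pfC (piC [(nat_lit 33242365), (nat_lit 21715570), (nat_lit 14024239)] (nat_lit 15324770)) p15_37_0 (nat_lit 3) (nat_lit 36) (nat_lit 37) = true := by decide +kernel
def p15_37_0_37 : pfC (piC [(nat_lit 33242365), (nat_lit 21715570), (nat_lit 14024239)] (nat_lit 15324770)) p15_37_0 (nat_lit 3) (nat_lit 37) (nat_lit 38) = true := by decide +kernel
def p15_37_0_38 : pfC (piC [(nat_lit 33242365), (nat_lit 21715570), (nat_lit 14024239)] (nat_lit 15324770)) p15_37_0 (nat_lit 3) (nat_lit 38) (nat_lit 39) = true := by decide +kernel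
def p15_37_0_39 : pfC (piC [(nat_lit 33242365), (nat_lit 21715570), (nat_lit 14024239)] (nat_lit 15324770)) p15_37_0 (nat_lit 3) (nat_lit 39) (nat_lit 40) = true := by decide +kernel
def p15_37_0_40 : pfC (piC [(nat_lit 33242365), (nat_lit 21715570), (nat_lit 14024239)] (nat_lit 15324770)) p15_37_0 (nat_lit 3) (nat_lit 40) (nat_lit 41) = true := by decide +kernel
def p15_37_0_41 : pfC (piC [(nat_lit 33242365), (nat_lit 21715570), (nat_lit 14024239)] (nat_lit 15324770)) p15_37_0 (nat_lit 3) (nat_lit 41) (nat_lit 42) = true := by decide +kernel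
def p15_37_0_42 : pfC (piC [(nat_lit 33242365), (nat_lit 21715570), (nat_lit 14024239)] (nat_lit 15324770)) p15_37_0 (nat_lit 3) (nat_lit 42) (nat_lit 43) = true := by decide +kernel
def p15_37_0_43 : pfC (piC [(nat_lit 33242365), (nat_lit 21715570), (nat_lit 14024239)] (nat_lit 15324770)) p15_37_0 (nat_lit 3) (nat_lit 43) (nat_lit 44) = true := by decide +kernel
def p15_37_0_44 : pfC (piC [(nat_lit 33242365), (nat_lit 21715570), (nat_lit 14024239)] (nat_lit 15324770)) p15_37_0 (nat_lit 3) (nat_lit 44) (nat_lit 45) = true := by decide +kernel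
def p15_37_0_45 : pfC (piC [(nat_lit 33242365), (nat_lit 21715570), (nat_lit 14024239)] (nat_lit 15324770)) p15_37_0 (nat_lit 3) (nat_lit 45) (nat_lit 46) = true := by decide +kernel
def p15_37_0_46 : pfC (piC [(nat_lit 33242365), (nat_lit 21715570), (nat_lit 14024239)] (nat_lit 15324770)) p15_37_0 (nat_lit 3) (nat_lit 46) (nat_lit 47) = true := by decide +kernel
def p15_37_0_47 : pfC (piC [(nat_lit 33242365), (nat_lit 21715570), (nat_lit 14024239)] (nat_lit 15324770)) p15_37_0 (nat_lit 3) (nat_lit 47) (nat_lit 48) = true := by decide +kernel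
def p15_37_0_48 : pfC (piC [(nat_lit 33242365), (nat_lit 21715570), (nat_lit 14024239)] (nat_lit 15324770)) p15_37_0 (nat_lit 3) (nat_lit 48) (nat_lit 49) = true := by decide +kernel
def p15_37_0_49 : pfC (piC [(nat_lit 33242365), (nat_lit 21715570), (nat_lit 14024239)] (nat_lit 15324770)) p15_37_0 (nat_lit 3) (nat_lit 49) (nat_lit 50) = true := by decide +kernel
def p15_37_0_50 : pfC (piC [(nat_lit 33242365), (nat_lit 21715570), (nat_lit 14024239)] (nat_lit 15324770)) p15_37_0 (nat_lit 3) (nat_lit 50) (nat_lit 51) = true := by decide +kernel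
def p15_37_0_51 : pfC (piC [(nat_lit 33242365), (nat_lit 21715570), (nat_lit 14024239)] (nat_lit 15324770)) p15_37_0 (nat_lit 3) (nat_lit 51) (nat_lit 52) = true := by decide +kernel
def p15_37_0_52 : pfC (piC [(nat_lit 33242365), (nat_lit 21715570), (nat_lit 14024239)] (nat_lit 15324770)) p15_37_0 (nat_lit 3) (nat_lit 52) (nat_lit 53) = true := by decide +kernel
def p15_37_0_53 : pfC (piC [(nat_lit 33242365), (nat_lit 21715570), (nat_lit 14024239)] (nat_lit 15324770)) p15_37_0 (nat_lit 3) (nat_lit 53) (nat_lit 54) = true := by decide +kernel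
def p15_37_0_54 : pfC (piC [(nat_lit 33242365), (nat_lit 21715570), (nat_lit 14024239)] (nat_lit 15324770)) p15_37_0 (nat_lit 3) (nat_lit 54) (nat_lit 55) = true := by decide +kernel
def p15_37_0_55 : pfC (piC [(nat_lit 33242365), (nat_lit 21715570), (nat_lit 14024239)] (nat_lit 15324770)) p15_37_0 (nat_lit 3) (nat_lit 55) (nat_lit 56) = true := by decide +kernel
def p15_37_0_56 : pfC (piC [(nat_lit 33242365), (nat_lit 21715570), (nat_lit 14024239)] (nat_lit 15324770)) p15_37_0 (nat_lit 3) (nat_lit 56) (nat_lit 57) = true := by decide +kernel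
def p15_37_0_57 : pfC (piC [(nat_lit 33242365), (nat_lit 21715570), (nat_lit 14024239)] (nat_lit 15324770)) p15_37_0 (nat_lit 3) (nat_lit 57) (nat_lit 58) = true := by decide +kernel
def p15_37_0_58 : pfC (piC [(nat_lit 33242365), (nat_lit 21715570), (nat_lit 14024239)] (nat_lit 15324770)) p15_37_0 (nat_lit 3) (nat_lit 58) (nat_lit 59) = true := by decide +kernel
def p15_37_0_59 : pfC (piC [(nat_lit 33242365), (nat_lit 21715570), (nat_lit 14024239)] (nat_lit 15324770)) p15_37_0 (nat_lit 3) (nat_lit 59) (nat_lit 60) = true := by decide +kernel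
def p15_37_0_60 : pfC (piC [(nat_lit 33242365), (nat_lit 21715570), (nat_lit 14024239)] (nat_lit 15324770)) p15_37_0 (nat_lit 3) (nat_lit 60) (nat_lit 61) = true := by decide +kernel
def p15_37_0_61 : pfC (piC [(nat_lit 33242365), (nat_lit 21715570), (nat_lit 14024239)] (nat_lit 15324770)) p15_37_0 (nat_lit 3) (nat_lit 61) (nat_lit 62) = true := by decide +kernel
def p15_37_0_62 : pfC (piC [(nat_lit 33242365), (nat_lit 21715570), (nat_lit 14024239)] (nat_lit 15324770)) p15_37_0 (nat_lit 3) (nat_lit 62) (nat_lit 63) = true := by decide +kernel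
def p15_37_0_63 : pfC (piC [(nat_lit 33242365), (nat_lit 21715570), (nat_lit 14024239)] (nat_lit 15324770)) p15_37_0 (nat_lit 3) (nat_lit 63) (nat_lit 64) = true := by decide +kernel
def p15_37_0_64 : pfC (piC [(nat_lit 33242365), (nat_lit 21715570), (nat_lit 14024239)] (nat_lit 15324770)) p15_37_0 (nat_lit 3) (nat_lit 64) (nat_lit 65) = true := by decide +kernel
def p15_37_0_65 : pfC (piC [(nat_lit 33242365), (nat_lit 21715570), (nat_lit 14024239)] (nat_lit 15324770)) p15_37_0 (nat_lit 3) (nat_lit 65) (nat_lit 66) = true := by decide +kernel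
def p15_37_0_66 : pfC (piC [(nat_lit 33242365), (nat_lit 21715570), (nat_lit 14024239)] (nat_lit 15324770)) p15_37_0 (nat_lit 3) (nat_lit 66) (nat_lit 67) = true := by decide +kernel
def p15_37_0_67 : pfC (piC [(nat_lit 33242365), (nat_lit 21715570), (nat_lit 14024239)] (nat_lit 15324770)) p15_37_0 (nat_lit 3) (nat_lit 67) (nat_lit 68) = true := by decide +kernel
def p15_37_0_68 : pfC (piC [(nat_lit 33242365), (nat_lit 21715570), (nat_lit 14024239)] (nat_lit 15324770)) p15_37_0 (nat_lit 3) (nat_lit 68) (nat_lit 69) = true := by decide +kernel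
def p15_37_0_69 : pfC (piC [(nat_lit 33242365), (nat_lit 21715570), (nat_lit 14024239)] (nat_lit 15324770)) p15_37_0 (nat_lit 3) (nat_lit 69) (nat_lit 70) = true := by decide +kernel
def p15_37_0_70 : pfC (piC [(nat_lit 33242365), (nat_lit 21715570), (nat_lit 14024239)] (nat_lit 15324770)) p15_37_0 (nat_lit 3) (nat_lit 70) (nat_lit 71) = true := by decide +kernel
def p15_37_0_71 : pfC (piC [(nat_lit 33242365), (nat_lit 21715570), (nat_lit 14024239)] (nat_lit 15324770)) p15_37_0 (nat_lit 3) (nat_lit 71) (nat_lit 72) = true := by decide +kernel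
def p15_37_0_72 : pfC (piC [(nat_lit 33242365), (nat_lit 21715570), (nat_lit 14024239)] (nat_lit 15324770)) p15_37_0 (nat_lit 3) (nat_lit 72) (nat_lit 73) = true := by decide +kernel
def p15_37_0_73 : pfC (piC [(nat_lit 33242365), (nat_lit 21715570), (nat_lit 14024239)] (nat_lit 15324770)) p15_37_0 (nat_lit 3) (nat_lit 73) (nat_lit 74) = true := by decide +kernel
def p15_37_0_74 : pfC (piC [(nat_lit 33242365), (nat_lit 21715570), (nat_lit 14024239)] (nat_lit 15324770)) p15_37_0 (nat_lit 3) (nat_lit 74) (nat_lit 75) = true := by decide +kernel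
def p15_37_0_75 : pfC (piC [(nat_lit 33242365), (nat_lit 21715570), (nat_lit 14024239)] (nat_lit 15324770)) p15_37_0 (nat_lit 3) (nat_lit 75) (nat_lit 76) = true := by decide +kernel
def p15_37_0_76 : pfC (piC [(nat_lit 33242365), (nat_lit 21715570), (nat_lit 14024239)] (nat_lit 15324770)) p15_37_0 (nat_lit 3) (nat_lit 76) (nat_lit 77) = true := by decide +kernel
def p15_37_0_77 : pfC (piC [(nat_lit 33242365), (nat_lit 21715570), (nat_lit 14024239)] (nat_lit 15324770)) p15_37_0 (nat_lit 3) (nat_lit 77) (nat_lit 78) = true := by decide +kernel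
def p15_37_0_78 : pfC (piC [(nat_lit 33242365), (nat_lit 21715570), (nat_lit 14024239)] (nat_lit 15324770)) p15_37_0 (nat_lit 3) (nat_lit 78) (nat_lit 79) = true := by decide +kernel
def p15_37_0_79 : pfC (piC [(nat_lit 33242365), (nat_lit 21715570), (nat_lit 14024239)] (nat_lit 15324770)) p15_37_0 (nat_lit 3) (nat_lit 79) (nat_lit 80) = true := by decide +kernel
def p15_37_0_80 : pfC (piC [(nat_lit 33242365), (nat_lit 21715570), (nat_lit 14024239)] (nat_lit 15324770)) p15_37_0 (nat_lit 3) (nat_lit 80) (nat_lit 81) = true := by decide +kernel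
def p15_37_0_81 : pfC (piC [(nat_lit 33242365), (nat_lit 21715570), (nat_lit 14024239)] (nat_lit 15324770)) p15_37_0 (nat_lit 3) (nat_lit 81) (nat_lit 82) = true := by decide +kernel
def p15_37_0_82 : pfC (piC [(nat_lit 33242365), (nat_lit 21715570), (nat_lit 14024239)] (nat_lit 15324770)) p15_37_0 (nat_lit 3) (nat_lit 82) (nat_lit 83) = true := by decide +kernel
def p15_37_0_83 : pfC (piC [(nat_lit 33242365), (nat_lit 21715570), (nat_lit 14024239)] (nat_lit 15324770)) p15_37_0 (nat_lit 3) (nat_lit 83) (nat_lit 84) = true := by decide +kernel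
def p15_37_0_84 : pfC (piC [(nat_lit 33242365), (nat_lit 21715570), (nat_lit 14024239)] (nat_lit 15324770)) p15_37_0 (nat_lit 3) (nat_lit 84) (nat_lit 85) = true := by decide +kernel
def p15_37_0_85 : pfC (piC [(nat_lit 33242365), (nat_lit 21715570), (nat_lit 14024239)] (nat_lit 15324770)) p15_37_0 (nat_lit 3) (nat_lit 85) (nat_lit 86) = true := by decide +kernel
def p15_37_0_86 : pfC (piC [(nat_lit 33242365), (nat_lit 21715570), (nat_lit 14024239)] (nat_lit 15324770)) p15_37_0 (nat_lit 3) (nat_lit 86) (nat_lit 87) = true := by decide +kernel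
def p15_37_0_87 : pfC (piC [(nat_lit 33242365), (nat_lit 21715570), (nat_lit 14024239)] (nat_lit 15324770)) p15_37_0 (nat_lit 3) (nat_lit 87) (nat_lit 88) = true := by decide +kernel
def p15_37_0_88 : pfC (piC [(nat_lit 33242365), (nat_lit 21715570), (nat_lit 14024239)] (nat_lit 15324770)) p15_37_0 (nat_lit 3) (nat_lit 88) (nat_lit 89) = true := by decide +kernel
def p15_37_0_89 : pfC (piC [(nat_lit 33242365), (nat_lit 21715570), (nat_lit 14024239)] (nat_lit 15324770)) p15_37_0 (nat_lit 3) (nat_lit 89) (nat_lit 90) = true := by decide +kernel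
def p15_37_0_90 : pfC (piC [(nat_lit 33242365), (nat_lit 21715570), (nat_lit 14024239)] (nat_lit 15324770)) p15_37_0 (nat_lit 3) (nat_lit 90) (nat_lit 91) = true := by decide +kernel
def p15_37_0_91 : pfC (piC [(nat_lit 33242365), (nat_lit 21715570), (nat_lit 14024239)] (nat_lit 15324770)) p15_37_0 (nat_lit 3) (nat_lit 91) (nat_lit 92) = true := by decide +kernel
def p15_37_0_92 : pfC (piC [(nat_lit 33242365), (nat_lit 21715570), (nat_lit 14024239)] (nat_lit 15324770)) p15_37_0 (nat_lit 3) (nat_lit 92) (nat_lit 93) = true := by decide +kernel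
def p15_37_0_93 : pfC (piC [(nat_lit 33242365), (nat_lit 21715570), (nat_lit 14024239)] (nat_lit 15324770)) p15_37_0 (nat_lit 3) (nat_lit 93) (nat_lit 94) = true := by decide +kernel
def p15_37_0_94 : pfC (piC [(nat_lit 33242365), (nat_lit 21715570), (nat_lit 14024239)] (nat_lit 15324770)) p15_37_0 (nat_lit 3) (nat_lit 94) (nat_lit 95) = true := by decide +kernel
def p15_37_0_95 : pfC (piC [(nat_lit 33242365), (nat_lit 21715570), (nat_lit 14024239)] (nat_lit 15324770)) p15_37_0 (nat_lit 3) (nat_lit 95) (nat_lit 96) = true := by decide +kernel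
def p15_37_0_96 : pfC (piC [(nat_lit 33242365), (nat_lit 21715570), (nat_lit 14024239)] (nat_lit 15324770)) p15_37_0 (nat_lit 3) (nat_lit 96) (nat_lit 97) = true := by decide +kernel
def p15_37_0_97 : pfC (piC [(nat_lit 33242365), (nat_lit 21715570), (nat_lit 14024239)] (nat_lit 15324770)) p15_37_0 (nat_lit 3) (nat_lit 97) (nat_lit 98) = true := by decide +kernel
def p15_37_0_98 : pfC (piC [(nat_lit 33242365), (nat_lit 21715570), (nat_lit 14024239)] (nat_lit 15324770)) p15_37_0 (nat_lit 3) (nat_lit 98) (nat_lit 99) = true := by decide +kernel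
def p15_37_0_99 : pfC (piC [(nat_lit 33242365), (nat_lit 21715570), (nat_lit 14024239)] (nat_lit 15324770)) p15_37_0 (nat_lit 3) (nat_lit 99) (nat_lit 100) = true := by decide +kernel
def p15_37_0_100 : pfC (piC [(nat_lit 33242365), (nat_lit 21715570), (nat_lit 14024239)] (nat_lit 15324770)) p15_37_0 (nat_lit 3) (nat_lit 100) (nat_lit 101) = true := by decide +kernel
def p15_37_0_101 : pfC (piC [(nat_lit 33242365), (nat_lit 21715570), (nat_lit 14024239)] (nat_lit 15324770)) p15_37_0 (nat_lit 3) (nat_lit 101) (nat_lit 102) = true := by decide +kernel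
def p15_37_0_102 : pfC (piC [(nat_lit 33242365), (nat_lit 21715570), (nat_lit 14024239)] (nat_lit 15324770)) p15_37_0 (nat_lit 3) (nat_lit 102) (nat_lit 103) = true := by decide +kernel
def p15_37_0_103 : pfC (piC [(nat_lit 33242365), (nat_lit 21715570), (nat_lit 14024239)] (nat_lit 15324770)) p15_37_0 (nat_lit 3) (nat_lit 103) (nat_lit 104) = true := by decide +kernel
def p15_37_0_104 : pfC (piC [(nat_lit 33242365), (nat_lit 21715570), (nat_lit 14024239)] (nat_lit 15324770)) p15_37_0 (nat_lit 3) (nat_lit 104) (nat_lit 105) = true := by decide +kernel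
def p15_37_0_105 : pfC (piC [(nat_lit 33242365), (nat_lit 21715570), (nat_lit 14024239)] (nat_lit 15324770)) p15_37_0 (nat_lit 3) (nat_lit 105) (nat_lit 106) = true := by decide +kernel
def p15_37_0_106 : pfC (piC [(nat_lit 33242365), (nat_lit 21715570), (nat_lit 14024239)] (nat_lit 15324770)) p15_37_0 (nat_lit 3) (nat_lit 106) (nat_lit 107) = true := by decide +kernel
def p15_37_0_107 : pfC (piC [(nat_lit 33242365), (nat_lit 21715570), (nat_lit 14024239)] (nat_lit 15324770)) p15_37_0 (nat_lit 3) (nat_lit 107) (nat_lit 108) = true := by decide +kernel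
def p15_37_0_108 : pfC (piC [(nat_lit 33242365), (nat_lit 21715570), (nat_lit 14024239)] (nat_lit 15324770)) p15_37_0 (nat_lit 3) (nat_lit 108) (nat_lit 109) = true := by decide +kernel
def p15_37_0_109 : pfC (piC [(nat_lit 33242365), (nat_lit 21715570), (nat_lit 14024239)] (nat_lit 15324770)) p15_37_0 (nat_lit 3) (nat_lit 109) (nat_lit 110) = true := by decide +kernel
def p15_37_0_110 : pfC (piC [(nat_lit 33242365), (nat_lit 21715570), (nat_lit 14024239)] (nat_lit 15324770)) p15_37_0 (nat_lit 3) (nat_lit 110) (nat_lit 111) = true := by decide +kernel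
def p15_37_0_111 : pfC (piC [(nat_lit 33242365), (nat_lit 21715570), (nat_lit 14024239)] (nat_lit 15324770)) p15_37_0 (nat_lit 3) (nat_lit 111) (nat_lit 112) = true := by decide +kernel
def p15_37_0_112 : pfC (piC [(nat_lit 33242365), (nat_lit 21715570), (nat_lit 14024239)] (nat_lit 15324770)) p15_37_0 (nat_lit 3) (nat_lit 112) (nat_lit 113) = true := by decide +kernel
def p15_37_0_113 : pfC (piC [(nat_lit 33242365), (nat_lit 21715570), (nat_lit 14024239)] (nat_lit 15324770)) p15_37_0 (nat_lit 3) (nat_lit 113) (nat_lit 114) = true := by decide +kernel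
def p15_37_0_114 : pfC (piC [(nat_lit 33242365), (nat_lit 21715570), (nat_lit 14024239)] (nat_lit 15324770)) p15_37_0 (nat_lit 3) (nat_lit 114) (nat_lit 115) = true := by decide +kernel
def p15_37_0_115 : pfC (piC [(nat_lit 33242365), (nat_lit 21715570), (nat_lit 14024239)] (nat_lit 15324770)) p15_37_0 (nat_lit 3) (nat_lit 115) (nat_lit 116) = true := by decide +kernel
def p15_37_0_116 : pfC (piC [(nat_lit 33242365), (nat_lit 21715570), (nat_lit 14024239)] (nat_lit 15324770)) p15_37_0 (nat_lit 3) (nat_lit 116) (nat_lit 117) = true := by decide +kernel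
def p15_37_0_117 : pfC (piC [(nat_lit 33242365), (nat_lit 21715570), (nat_lit 14024239)] (nat_lit 15324770)) p15_37_0 (nat_lit 3) (nat_lit 117) (nat_lit 118) = true := by decide +kernel
def p15_37_0_118 : pfC (piC [(nat_lit 33242365), (nat_lit 21715570), (nat_lit 14024239)] (nat_lit 15324770)) p15_37_0 (nat_lit 3) (nat_lit 118) (nat_lit 119) = true := by decide +kernel
def p15_37_0_119 : pfC (piC [(nat_lit 33242365), (nat_lit 21715570), (nat_lit 14024239)] (nat_lit 15324770)) p15_37_0 (nat_lit 3) (nat_lit 119) (nat_lit 120) = true := by decide +kernel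
def p15_37_0_120 : pfC (piC [(nat_lit 33242365), (nat_lit 21715570), (nat_lit 14024239)] (nat_lit 15324770)) p15_37_0 (nat_lit 3) (nat_lit 120) (nat_lit 121) = true := by decide +kernel
def p15_37_0_121 : pfC (piC [(nat_lit 33242365), (nat_lit 21715570), (nat_lit 14024239)] (nat_lit 15324770)) p15_37_0 (nat_lit 3) (nat_lit 121) (nat_lit 122) = true := by decide +kernel
def p15_37_0_122 : pfC (piC [(nat_lit 33242365), (nat_lit 21715570), (nat_lit 14024239)] (nat_lit 15324770)) p15_37_0 (nat_lit 3) (nat_lit 122) (nat_lit 123) = true := by decide +kernel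
def p15_37_0_123 : pfC (piC [(nat_lit 33242365), (nat_lit 21715570), (nat_lit 14024239)] (nat_lit 15324770)) p15_37_0 (nat_lit 3) (nat_lit 123) (nat_lit 124) = true := by decide +kernel
def p15_37_0_124 : pfC (piC [(nat_lit 33242365), (nat_lit 21715570), (nat_lit 14024239)] (nat_lit 15324770)) p15_37_0 (nat_lit 3) (nat_lit 124) (nat_lit 125) = true := by decide +kernel
def p15_37_0_125 : pfC (piC [(nat_lit 33242365), (nat_lit 21715570), (nat_lit 14024239)] (nat_lit 15324770)) p15_37_0 (nat_lit 3) (nat_lit 125) (nat_lit 126) = true := by decide +kernel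
def p15_37_0_126 : pfC (piC [(nat_lit 33242365), (nat_lit 21715570), (nat_lit 14024239)] (nat_lit 15324770)) p15_37_0 (nat_lit 3) (nat_lit 126) (nat_lit 127) = true := by decide +kernel
def p15_37_0_127 : pfC (piC [(nat_lit 33242365), (nat_lit 21715570), (nat_lit 14024239)] (nat_lit 15324770)) p15_37_0 (nat_lit 3) (nat_lit 127) (nat_lit 128) = true := by decide +kernel
def p15_37_0_128 : pfC (piC [(nat_lit 33242365), (nat_lit 21715570), (nat_lit 14024239)] (nat_lit 15324770)) p15_37_0 (nat_lit 3) (nat_lit 128) (nat_lit 129) = true := by decide +kernel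
def p15_37_0_129 : pfC (piC [(nat_lit 33242365), (nat_lit 21715570), (nat_lit 14024239)] (nat_lit 15324770)) p15_37_0 (nat_lit 3) (nat_lit 129) (nat_lit 130) = true := by decide +kernel
def p15_37_0_130 : pfC (piC [(nat_lit 33242365), (nat_lit 21715570), (nat_lit 14024239)] (nat_lit 15324770)) p15_37_0 (nat_lit 3) (nat_lit 130) (nat_lit 131) = true := by decide +kernel
def p15_37_0_131 : pfC (piC [(nat_lit 33242365), (nat_lit 21715570), (nat_lit 14024239)] (nat_lit 15324770)) p15_37_0 (nat_lit 3) (nat_lit 131) (nat_lit 132) = true := by decide +kernel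
def p15_37_0_132 : pfC (piC [(nat_lit 33242365), (nat_lit 21715570), (nat_lit 14024239)] (nat_lit 15324770)) p15_37_0 (nat_lit 3) (nat_lit 132) (nat_lit 133) = true := by decide +kernel
def p15_37_0_133 : pfC (piC [(nat_lit 33242365), (nat_lit 21715570), (nat_lit 14024239)] (nat_lit 15324770)) p15_37_0 (nat_lit 3) (nat_lit 133) (nat_lit 134) = true := by decide +kernel
def p15_37_0_134 : pfC (piC [(nat_lit 33242365), (nat_lit 21715570), (nat_lit 14024239)] (nat_lit 15324770)) p15_37_0 (nat_lit 3) (nat_lit 134) (nat_lit 135) = true := by decide +kernel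
def p15_37_0_135 : pfC (piC [(nat_lit 33242365), (nat_lit 21715570), (nat_lit 14024239)] (nat_lit 15324770)) p15_37_0 (nat_lit 3) (nat_lit 135) (nat_lit 136) = true := by decide +kernel
def p15_37_0_136 : pfC (piC [(nat_lit 33242365), (nat_lit 21715570), (nat_lit 14024239)] (nat_lit 15324770)) p15_37_0 (nat_lit 3) (nat_lit 136) (nat_lit 137) = true := by decide +kernel
def p15_37_0_137 : pfC (piC [(nat_lit 33242365), (nat_lit 21715570), (nat_lit 14024239)] (nat_lit 15324770)) p15_37_0 (nat_lit 3) (nat_lit 137) (nat_lit 138) = true := by decide +kernel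
def p15_37_0_138 : pfC (piC [(nat_lit 33242365), (nat_lit 21715570), (nat_lit 14024239)] (nat_lit 15324770)) p15_37_0 (nat_lit 3) (nat_lit 138) (nat_lit 139) = true := by decide +kernel
def p15_37_0_139 : pfC (piC [(nat_lit 33242365), (nat_lit 21715570), (nat_lit 14024239)] (nat_lit 15324770)) p15_37_0 (nat_lit 3) (nat_lit 139) (nat_lit 140) = true := by decide +kernel
def p15_37_0_140 : pfC (piC [(nat_lit 33242365), (nat_lit 21715570), (nat_lit 14024239)] (nat_lit 15324770)) p15_37_0 (nat_lit 3) (nat_lit 140) (nat_lit 141) = true := by decide +kernel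
def p15_37_0_141 : pfC (piC [(nat_lit 33242365), (nat_lit 21715570), (nat_lit 14024239)] (nat_lit 15324770)) p15_37_0 (nat_lit 3) (nat_lit 141) (nat_lit 142) = true := by decide +kernel
def p15_37_0_142 : pfC (piC [(nat_lit 33242365), (nat_lit 21715570), (nat_lit 14024239)] (nat_lit 15324770)) p15_37_0 (nat_lit 3) (nat_lit 142) (nat_lit 143) = true := by decide +kernel
def p15_37_0_143 : pfC (piC [(nat_lit 33242365), (nat_lit 21715570), (nat_lit 14024239)] (nat_lit 15324770)) p15_37_0 (nat_lit 3) (nat_lit 143) (nat_lit 144) = true := by decide +kernel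
def p15_37_0_144 : pfC (piC [(nat_lit 33242365), (nat_lit 21715570), (nat_lit 14024239)] (nat_lit 15324770)) p15_37_0 (nat_lit 3) (nat_lit 144) (nat_lit 145) = true := by decide +kernel
def p15_37_0_145 : pfC (piC [(nat_lit 33242365), (nat_lit 21715570), (nat_lit 14024239)] (nat_lit 15324770)) p15_37_0 (nat_lit 3) (nat_lit 145) (nat_lit 146) = true := by decide +kernel
def p15_37_0_146 : pfC (piC [(nat_lit 33242365), (nat_lit 21715570), (nat_lit 14024239)] (nat_lit 15324770)) p15_37_0 (nat_lit 3) (nat_lit 146) (nat_lit 147) = true := by decide +kernel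
def p15_37_0_147 : pfC (piC [(nat_lit 33242365), (nat_lit 21715570), (nat_lit 14024239)] (nat_lit 15324770)) p15_37_0 (nat_lit 3) (nat_lit 147) (nat_lit 148) = true := by decide +kernel
def p15_37_0_148 : pfC (piC [(nat_lit 33242365), (nat_lit 21715570), (nat_lit 14024239)] (nat_lit 15324770)) p15_37_0 (nat_lit 3) (nat_lit 148) (nat_lit 149) = true := by decide +kernel
def p15_37_0_149 : pfC (piC [(nat_lit 33242365), (nat_lit 21715570), (nat_lit 14024239)] (nat_lit 15324770)) p15_37_0 (nat_lit 3) (nat_lit 149) (nat_lit 150) = true := by decide +kernel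
def p15_37_0_150 : pfC (piC [(nat_lit 33242365), (nat_lit 21715570), (nat_lit 14024239)] (nat_lit 15324770)) p15_37_0 (nat_lit 3) (nat_lit 150) (nat_lit 151) = true := by decide +kernel
def p15_37_0_151 : pfC (piC [(nat_lit 33242365), (nat_lit 21715570), (nat_lit 14024239)] (nat_lit 15324770)) p15_37_0 (nat_lit 3) (nat_lit 151) (nat_lit 152) = true := by decide +kernel
def p15_37_0_152 : pfC (piC [(nat_lit 33242365), (nat_lit 21715570), (nat_lit 14024239)] (nat_lit 15324770)) p15_37_0 (nat_lit 3) (nat_lit 152) (nat_lit 153) = true := by decide +kernel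
def p15_37_0_153 : pfC (piC [(nat_lit 33242365), (nat_lit 21715570), (nat_lit 14024239)] (nat_lit 15324770)) p15_37_0 (nat_lit 3) (nat_lit 153) (nat_lit 154) = true := by decide +kernel
def p15_37_0_154 : pfC (piC [(nat_lit 33242365), (nat_lit 21715570), (nat_lit 14024239)] (nat_lit 15324770)) p15_37_0 (nat_lit 3) (nat_lit 154) (nat_lit 155) = true := by decide +kernel
def p15_37_0_155 : pfC (piC [(nat_lit 33242365), (nat_lit 21715570), (nat_lit 14024239)] (nat_lit 15324770)) p15_37_0 (nat_lit 3) (nat_lit 155) (nat_lit 156) = true := by decide +kernel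
def p15_37_0_156 : pfC (piC [(nat_lit 33242365), (nat_lit 21715570), (nat_lit 14024239)] (nat_lit 15324770)) p15_37_0 (nat_lit 3) (nat_lit 156) (nat_lit 157) = true := by decide +kernel
def p15_37_0_157 : pfC (piC [(nat_lit 33242365), (nat_lit 21715570), (nat_lit 14024239)] (nat_lit 15324770)) p15_37_0 (nat_lit 3) (nat_lit 157) (nat_lit 158) = true := by decide +kernel
def p15_37_0_158 : pfC (piC [(nat_lit 33242365), (nat_lit 21715570), (nat_lit 14024239)] (nat_lit 15324770)) p15_37_0 (nat_lit 3) (nat_lit 158) (nat_lit 159) = true := by decide +kernel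
def p15_37_0_159 : pfC (piC [(nat_lit 33242365), (nat_lit 21715570), (nat_lit 14024239)] (nat_lit 15324770)) p15_37_0 (nat_lit 3) (nat_lit 159) (nat_lit 160) = true := by decide +kernel
def p15_37_0_160 : pfC (piC [(nat_lit 33242365), (nat_lit 21715570), (nat_lit 14024239)] (nat_lit 15324770)) p15_37_0 (nat_lit 3) (nat_lit 160) (nat_lit 161) = true := by decide +kernel
def p15_37_0_161 : pfC (piC [(nat_lit 33242365), (nat_lit 21715570), (nat_lit 14024239)] (nat_lit 15324770)) p15_37_0 (nat_lit 3) (nat_lit 161) (nat_lit 162) = true := by decide +kernel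
def p15_37_0_162 : pfC (piC [(nat_lit 33242365), (nat_lit 21715570), (nat_lit 14024239)] (nat_lit 15324770)) p15_37_0 (nat_lit 3) (nat_lit 162) (nat_lit 163) = true := by decide +kernel
def p15_37_0_163 : pfC (piC [(nat_lit 33242365), (nat_lit 21715570), (nat_lit 14024239)] (nat_lit 15324770)) p15_37_0 (nat_lit 3) (nat_lit 163) (nat_lit 164) = true := by decide +kernel
def p15_37_0_164 : pfC (piC [(nat_lit 33242365), (nat_lit 21715570), (nat_lit 14024239)] (nat_lit 15324770)) p15_37_0 (nat_lit 3) (nat_lit 164) (nat_lit 165) = true := by decide +kernel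
def p15_37_0_165 : pfC (piC [(nat_lit 33242365), (nat_lit 21715570), (nat_lit 14024239)] (nat_lit 15324770)) p15_37_0 (nat_lit 3) (nat_lit 165) (nat_lit 166) = true := by decide +kernel
def p15_37_0_166 : pfC (piC [(nat_lit 33242365), (nat_lit 21715570), (nat_lit 14024239)] (nat_lit 15324770)) p15_37_0 (nat_lit 3) (nat_lit 166) (nat_lit 167) = true := by decide +kernel
def p15_37_0_167 : pfC (piC [(nat_lit 33242365), (nat_lit 21715570), (nat_lit 14024239)] (nat_lit 15324770)) p15_37_0 (nat_lit 3) (nat_lit 167) (nat_lit 168) = true := by decide +kernel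
def p15_37_0_168 : pfC (piC [(nat_lit 33242365), (nat_lit 21715570), (nat_lit 14024239)] (nat_lit 15324770)) p15_37_0 (nat_lit 3) (nat_lit 168) (nat_lit 169) = true := by decide +kernel
def p15_37_0_169 : pfC (piC [(nat_lit 33242365), (nat_lit 21715570), (nat_lit 14024239)] (nat_lit 15324770)) p15_37_0 (nat_lit 3) (nat_lit 169) (nat_lit 170) = true := by decide +kernel
def p15_37_0_170 : pfC (piC [(nat_lit 33242365), (nat_lit 21715570), (nat_lit 14024239)] (nat_lit 15324770)) p15_37_0 (nat_lit 3) (nat_lit 170) (nat_lit 171) = true := by decide +kernel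
def p15_37_0_171 : pfC (piC [(nat_lit 33242365), (nat_lit 21715570), (nat_lit 14024239)] (nat_lit 15324770)) p15_37_0 (nat_lit 3) (nat_lit 171) (nat_lit 172) = true := by decide +kernel
def p15_37_0_172 : pfC (piC [(nat_lit 33242365), (nat_lit 21715570), (nat_lit 14024239)] (nat_lit 15324770)) p15_37_0 (nat_lit 3) (nat_lit 172) (nat_lit 173) = true := by decide +kernel
def p15_37_0_173 : pfC (piC [(nat_lit 33242365), (nat_lit 21715570), (nat_lit 14024239)] (nat_lit 15324770)) p15_37_0 (nat_lit 3) (nat_lit 173) (nat_lit 174) = true := by decide +kernel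
def p15_37_0_174 : pfC (piC [(nat_lit 33242365), (nat_lit 21715570), (nat_lit 14024239)] (nat_lit 15324770)) p15_37_0 (nat_lit 3) (nat_lit 174) (nat_lit 175) = true := by decide +kernel
def p15_37_0_175 : pfC (piC [(nat_lit 33242365), (nat_lit 21715570), (nat_lit 14024239)] (nat_lit 15324770)) p15_37_0 (nat_lit 3) (nat_lit 175) (nat_lit 176) = true := by decide +kernel
def p15_37_0_176 : pfC (piC [(nat_lit 33242365), (nat_lit 21715570), (nat_lit 14024239)] (nat_lit 15324770)) p15_37_0 (nat_lit 3) (nat_lit 176) (nat_lit 177) = true := by decide +kernel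
def p15_37_0_177 : pfC (piC [(nat_lit 33242365), (nat_lit 21715570), (nat_lit 14024239)] (nat_lit 15324770)) p15_37_0 (nat_lit 3) (nat_lit 177) (nat_lit 178) = true := by decide +kernel
def p15_37_0_178 : pfC (piC [(nat_lit 33242365), (nat_lit 21715570), (nat_lit 14024239)] (nat_lit 15324770)) p15_37_0 (nat_lit 3) (nat_lit 178) (nat_lit 179) = true := by decide +kernel
def p15_37_0_179 : pfC (piC [(nat_lit 33242365), (nat_lit 21715570), (nat_lit 14024239)] (nat_lit 15324770)) p15_37_0 (nat_lit 3) (nat_lit 179) (nat_lit 180) = true := by decide +kernel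
def p15_37_0_180 : pfC (piC [(nat_lit 33242365), (nat_lit 21715570), (nat_lit 14024239)] (nat_lit 15324770)) p15_37_0 (nat_lit 3) (nat_lit 180) (nat_lit 181) = true := by decide +kernel
def p15_37_0_181 : pfC (piC [(nat_lit 33242365), (nat_lit 21715570), (nat_lit 14024239)] (nat_lit 15324770)) p15_37_0 (nat_lit 3) (nat_lit 181) (nat_lit 182) = true := by decide +kernel
def p15_37_0_182 : pfC (piC [(nat_lit 33242365), (nat_lit 21715570), (nat_lit 14024239)] (nat_lit 15324770)) p15_37_0 (nat_lit 3) (nat_lit 182) (nat_lit 183) = true := by decide +kernel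
def p15_37_0_183 : pfC (piC [(nat_lit 33242365), (nat_lit 21715570), (nat_lit 14024239)] (nat_lit 15324770)) p15_37_0 (nat_lit 3) (nat_lit 183) (nat_lit 184) = true := by decide +kernel
def p15_37_0_184 : pfC (piC [(nat_lit 33242365), (nat_lit 21715570), (nat_lit 14024239)] (nat_lit 15324770)) p15_37_0 (nat_lit 3) (nat_lit 184) (nat_lit 185) = true := by decide +kernel
def p15_37_0_185 : pfC (piC [(nat_lit 33242365), (nat_lit 21715570), (nat_lit 14024239)] (nat_lit 15324770)) p15_37_0 (nat_lit 3) (nat_lit 185) (nat_lit 186) = true := by decide +kernel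
def p15_37_0_186 : pfC (piC [(nat_lit 33242365), (nat_lit 21715570), (nat_lit 14024239)] (nat_lit 15324770)) p15_37_0 (nat_lit 3) (nat_lit 186) (nat_lit 187) = true := by decide +kernel
def p15_37_0_187 : pfC (piC [(nat_lit 33242365), (nat_lit 21715570), (nat_lit 14024239)] (nat_lit 15324770)) p15_37_0 (nat_lit 3) (nat_lit 187) (nat_lit 188) = true := by decide +kernel
def p15_37_0_188 : pfC (piC [(nat_lit 33242365), (nat_lit 21715570), (nat_lit 14024239)] (nat_lit 15324770)) p15_37_0 (nat_lit 3) (nat_lit 188) (nat_lit 189) = true := by decide +kernel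
def p15_37_0_189 : pfC (piC [(nat_lit 33242365), (nat_lit 21715570), (nat_lit 14024239)] (nat_lit 15324770)) p15_37_0 (nat_lit 3) (nat_lit 189) (nat_lit 190) = true := by decide +kernel
def p15_37_0_190 : pfC (piC [(nat_lit 33242365), (nat_lit 21715570), (nat_lit 14024239)] (nat_lit 15324770)) p15_37_0 (nat_lit 3) (nat_lit 190) (nat_lit 191) = true := by decide +kernel
def p15_37_0_191 : pfC (piC [(nat_lit 33242365), (nat_lit 21715570), (nat_lit 14024239)] (nat_lit 15324770)) p15_37_0 (nat_lit 3) (nat_lit 191) (nat_lit 192) = true := by decide +kernel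
def p15_37_0_192 : pfC (piC [(nat_lit 33242365), (nat_lit 21715570), (nat_lit 14024239)] (nat_lit 15324770)) p15_37_0 (nat_lit 3) (nat_lit 192) (nat_lit 193) = true := by decide +kernel
def p15_37_0_193 : pfC (piC [(nat_lit 33242365), (nat_lit 21715570), (nat_lit 14024239)] (nat_lit 15324770)) p15_37_0 (nat_lit 3) (nat_lit 193) (nat_lit 194) = true := by decide +kernel
def p15_37_0_194 : pfC (piC [(nat_lit 33242365), (nat_lit 21715570), (nat_lit 14024239)] (nat_lit 15324770)) p15_37_0 (nat_lit 3) (nat_lit 194) (nat_lit 195) = true := by decide +kernel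
def p15_37_0_195 : pfC (piC [(nat_lit 33242365), (nat_lit 21715570), (nat_lit 14024239)] (nat_lit 15324770)) p15_37_0 (nat_lit 3) (nat_lit 195) (nat_lit 196) = true := by decide +kernel
def p15_37_0_196 : pfC (piC [(nat_lit 33242365), (nat_lit 21715570), (nat_lit 14024239)] (nat_lit 15324770)) p15_37_0 (nat_lit 3) (nat_lit 196) (nat_lit 197) = true := by decide +kernel
def p15_37_0_197 : pfC (piC [(nat_lit 33242365), (nat_lit 21715570), (nat_lit 14024239)] (nat_lit 15324770)) p15_37_0 (nat_lit 3) (nat_lit 197) (nat_lit 198) = true := by decide +kernel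
def p15_37_0_198 : pfC (piC [(nat_lit 33242365), (nat_lit 21715570), (nat_lit 14024239)] (nat_lit 15324770)) p15_37_0 (nat_lit 3) (nat_lit 198) (nat_lit 199) = true := by decide +kernel
def p15_37_0_199 : pfC (piC [(nat_lit 33242365), (nat_lit 21715570), (nat_lit 14024239)] (nat_lit 15324770)) p15_37_0 (nat_lit 3) (nat_lit 199) (nat_lit 200) = true := by decide +kernel
def p15_37_0_200 : pfC (piC [(nat_lit 33242365), (nat_lit 21715570), (nat_lit 14024239)] (nat_lit 15324770)) p15_37_0 (nat_lit 3) (nat_lit 200) (nat_lit 201) = true := by decide +kernel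
def p15_37_0_201 : pfC (piC [(nat_lit 33242365), (nat_lit 21715570), (nat_lit 14024239)] (nat_lit 15324770)) p15_37_0 (nat_lit 3) (nat_lit 201) (nat_lit 202) = true := by decide +kernel
def p15_37_0_202 : pfC (piC [(nat_lit 33242365), (nat_lit 21715570), (nat_lit 14024239)] (nat_lit 15324770)) p15_37_0 (nat_lit 3) (nat_lit 202) (nat_lit 203) = true := by decide +kernel
def p15_37_0_203 : pfC (piC [(nat_lit 33242365), (nat_lit 21715570), (nat_lit 14024239)] (nat_lit 15324770)) p15_37_0 (nat_lit 3) (nat_lit 203) (nat_lit 204) = true := by decide +kernel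
def p15_37_0_204 : pfC (piC [(nat_lit 33242365), (nat_lit 21715570), (nat_lit 14024239)] (nat_lit 15324770)) p15_37_0 (nat_lit 3) (nat_lit 204) (nat_lit 205) = true := by decide +kernel
def p15_37_0_205 : pfC (piC [(nat_lit 33242365), (nat_lit 21715570), (nat_lit 14024239)] (nat_lit 15324770)) p15_37_0 (nat_lit 3) (nat_lit 205) (nat_lit 206) = true := by decide +kernel
def p15_37_0_206 : pfC (piC [(nat_lit 33242365), (nat_lit 21715570), (nat_lit 14024239)] (nat_lit 15324770)) p15_37_0 (nat_lit 3) (nat_lit 206) (nat_lit 207) = true := by decide +kernel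
def p15_37_0_207 : pfC (piC [(nat_lit 33242365), (nat_lit 21715570), (nat_lit 14024239)] (nat_lit 15324770)) p15_37_0 (nat_lit 3) (nat_lit 207) (nat_lit 208) = true := by decide +kernel
def p15_37_0_208 : pfC (piC [(nat_lit 33242365), (nat_lit 21715570), (nat_lit 14024239)] (nat_lit 15324770)) p15_37_0 (nat_lit 3) (nat_lit 208) (nat_lit 209) = true := by decide +kernel
def p15_37_0_209 : pfC (piC [(nat_lit 33242365), (nat_lit 21715570), (nat_lit 14024239)] (nat_lit 15324770)) p15_37_0 (nat_lit 3) (nat_lit 209) (nat_lit 210) = true := by decide +kernel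
def p15_37_0_210 : pfC (piC [(nat_lit 33242365), (nat_lit 21715570), (nat_lit 14024239)] (nat_lit 15324770)) p15_37_0 (nat_lit 3) (nat_lit 210) (nat_lit 211) = true := by decide +kernel
def p15_37_0_211 : pfC (piC [(nat_lit 33242365), (nat_lit 21715570), (nat_lit 14024239)] (nat_lit 15324770)) p15_37_0 (nat_lit 3) (nat_lit 211) (nat_lit 212) = true := by decide +kernel
def p15_37_0_212 : pfC (piC [(nat_lit 33242365), (nat_lit 21715570), (nat_lit 14024239)] (nat_lit 15324770)) p15_37_0 (nat_lit 3) (nat_lit 212) (nat_lit 213) = true := by decide +kernel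
def p15_37_0_213 : pfC (piC [(nat_lit 33242365), (nat_lit 21715570), (nat_lit 14024239)] (nat_lit 15324770)) p15_37_0 (nat_lit 3) (nat_lit 213) (nat_lit 214) = true := by decide +kernel
def p15_37_0_214 : pfC (piC [(nat_lit 33242365), (nat_lit 21715570), (nat_lit 14024239)] (nat_lit 15324770)) p15_37_0 (nat_lit 3) (nat_lit 214) (nat_lit 215) = true := by decide +kernel
def p15_37_0_215 : pfC (piC [(nat_lit 33242365), (nat_lit 21715570), (nat_lit 14024239)] (nat_lit 15324770)) p15_37_0 (nat_lit 3) (nat_lit 215) (nat_lit 216) = true := by decide +kernel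
def p15_37_0_216 : pfC (piC [(nat_lit 33242365), (nat_lit 21715570), (nat_lit 14024239)] (nat_lit 15324770)) p15_37_0 (nat_lit 3) (nat_lit 216) (nat_lit 217) = true := by decide +kernel
def p15_37_0_217 : pfC (piC [(nat_lit 33242365), (nat_lit 21715570), (nat_lit 14024239)] (nat_lit 15324770)) p15_37_0 (nat_lit 3) (nat_lit 217) (nat_lit 218) = true := by decide +kernel
def p15_37_0_218 : pfC (piC [(nat_lit 33242365), (nat_lit 21715570), (nat_lit 14024239)] (nat_lit 15324770)) p15_37_0 (nat_lit 3) (nat_lit 218) (nat_lit 219) = true := by decide +kernel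
def p15_37_0_219 : pfC (piC [(nat_lit 33242365), (nat_lit 21715570), (nat_lit 14024239)] (nat_lit 15324770)) p15_37_0 (nat_lit 3) (nat_lit 219) (nat_lit 220) = true := by decide +kernel
def p15_37_0_220 : pfC (piC [(nat_lit 33242365), (nat_lit 21715570), (nat_lit 14024239)] (nat_lit 15324770)) p15_37_0 (nat_lit 3) (nat_lit 220) (nat_lit 221) = true := by decide +kernel
def p15_37_0_221 : pfC (piC [(nat_lit 33242365), (nat_lit 21715570), (nat_lit 14024239)] (nat_lit 15324770)) p15_37_0 (nat_lit 3) (nat_lit 221) (nat_lit 222) = true := by decide +kernel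
def p15_37_0_222 : pfC (piC [(nat_lit 33242365), (nat_lit 21715570), (nat_lit 14024239)] (nat_lit 15324770)) p15_37_0 (nat_lit 3) (nat_lit 222) (nat_lit 223) = true := by decide +kernel
def p15_37_0_223 : pfC (piC [(nat_lit 33242365), (nat_lit 21715570), (nat_lit 14024239)] (nat_lit 15324770)) p15_37_0 (nat_lit 3) (nat_lit 223) (nat_lit 224) = true := by decide +kernel
def p15_37_0_224 : pfC (piC [(nat_lit 33242365), (nat_lit 21715570), (nat_lit 14024239)] (nat_lit 15324770)) p15_37_0 (nat_lit 3) (nat_lit 224) (nat_lit 225) = true := by decide +kernel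
def p15_37_0_225 : pfC (piC [(nat_lit 33242365), (nat_lit 21715570), (nat_lit 14024239)] (nat_lit 15324770)) p15_37_0 (nat_lit 3) (nat_lit 225) (nat_lit 226) = true := by decide +kernel
def p15_37_0_226 : pfC (piC [(nat_lit 33242365), (nat_lit 21715570), (nat_lit 14024239)] (nat_lit 15324770)) p15_37_0 (nat_lit 3) (nat_lit 226) (nat_lit 227) = true := by decide +kernel
def p15_37_0_227 : pfC (piC [(nat_lit 33242365), (nat_lit 21715570), (nat_lit 14024239)] (nat_lit 15324770)) p15_37_0 (nat_lit 3) (nat_lit 227) (nat_lit 228) = true := by decide +kernel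
def p15_37_0_228 : pfC (piC [(nat_lit 33242365), (nat_lit 21715570), (nat_lit 14024239)] (nat_lit 15324770)) p15_37_0 (nat_lit 3) (nat_lit 228) (nat_lit 229) = true := by decide +kernel
def p15_37_0_229 : pfC (piC [(nat_lit 33242365), (nat_lit 21715570), (nat_lit 14024239)] (nat_lit 15324770)) p15_37_0 (nat_lit 3) (nat_lit 229) (nat_lit 230) = true := by decide +kernel
def p15_37_0_230 : pfC (piC [(nat_lit 33242365), (nat_lit 21715570), (nat_lit 14024239)] (nat_lit 15324770)) p15_37_0 (nat_lit 3) (nat_lit 230) (nat_lit 231) = true := by decide +kernel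
def p15_37_0_231 : pfC (piC [(nat_lit 33242365), (nat_lit 21715570), (nat_lit 14024239)] (nat_lit 15324770)) p15_37_0 (nat_lit 3) (nat_lit 231) (nat_lit 232) = true := by decide +kernel
def p15_37_0_232 : pfC (piC [(nat_lit 33242365), (nat_lit 21715570), (nat_lit 14024239)] (nat_lit 15324770)) p15_37_0 (nat_lit 3) (nat_lit 232) (nat_lit 233) = true := by decide +kernel
def p15_37_0_233 : pfC (piC [(nat_lit 33242365), (nat_lit 21715570), (nat_lit 14024239)] (nat_lit 15324770)) p15_37_0 (nat_lit 3) (nat_lit 233) (nat_lit 234) = true := by decide +kernel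
def p15_37_0_234 : pfC (piC [(nat_lit 33242365), (nat_lit 21715570), (nat_lit 14024239)] (nat_lit 15324770)) p15_37_0 (nat_lit 3) (nat_lit 234) (nat_lit 235) = true := by decide +kernel
def p15_37_0_235 : pfC (piC [(nat_lit 33242365), (nat_lit 21715570), (nat_lit 14024239)] (nat_lit 15324770)) p15_37_0 (nat_lit 3) (nat_lit 235) (nat_lit 236) = true := by decide +kernel
def p15_37_0_236 : pfC (piC [(nat_lit 33242365), (nat_lit 21715570), (nat_lit 14024239)] (nat_lit 15324770)) p15_37_0 (nat_lit 3) (nat_lit 236) (nat_lit 237) = true := by decide +kernel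
def p15_37_0_237 : pfC (piC [(nat_lit 33242365), (nat_lit 21715570), (nat_lit 14024239)] (nat_lit 15324770)) p15_37_0 (nat_lit 3) (nat_lit 237) (nat_lit 238) = true := by decide +kernel
def p15_37_0_238 : pfC (piC [(nat_lit 33242365), (nat_lit 21715570), (nat_lit 14024239)] (nat_lit 15324770)) p15_37_0 (nat_lit 3) (nat_lit 238) (nat_lit 239) = true := by decide +kernel
def p15_37_0_239 : pfC (piC [(nat_lit 33242365), (nat_lit 21715570), (nat_lit 14024239)] (nat_lit 15324770)) p15_37_0 (nat_lit 3) (nat_lit 239) (nat_lit 240) = true := by decide +kernel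
def p15_37_0_240 : pfC (piC [(nat_lit 33242365), (nat_lit 21715570), (nat_lit 14024239)] (nat_lit 15324770)) p15_37_0 (nat_lit 3) (nat_lit 240) (nat_lit 241) = true := by decide +kernel
def p15_37_0_241 : pfC (piC [(nat_lit 33242365), (nat_lit 21715570), (nat_lit 14024239)] (nat_lit 15324770)) p15_37_0 (nat_lit 3) (nat_lit 241) (nat_lit 242) = true := by decide +kernel
def p15_37_0_242 : pfC (piC [(nat_lit 33242365), (nat_lit 21715570), (nat_lit 14024239)] (nat_lit 15324770)) p15_37_0 (nat_lit 3) (nat_lit 242) (nat_lit 243) = true := by decide +kernel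
def p15_37_0_243 : pfC (piC [(nat_lit 33242365), (nat_lit 21715570), (nat_lit 14024239)] (nat_lit 15324770)) p15_37_0 (nat_lit 3) (nat_lit 243) (nat_lit 244) = true := by decide +kernel
def p15_37_0_244 : pfC (piC [(nat_lit 33242365), (nat_lit 21715570), (nat_lit 14024239)] (nat_lit 15324770)) p15_37_0 (nat_lit 3) (nat_lit 244) (nat_lit 245) = true := by decide +kernel
def p15_37_0_245 : pfC (piC [(nat_lit 33242365), (nat_lit 21715570), (nat_lit 14024239)] (nat_lit 15324770)) p15_37_0 (nat_lit 3) (nat_lit 245) (nat_lit 246) = true := by decide +kernel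
def p15_37_0_246 : pfC (piC [(nat_lit 33242365), (nat_lit 21715570), (nat_lit 14024239)] (nat_lit 15324770)) p15_37_0 (nat_lit 3) (nat_lit 246) (nat_lit 247) = true := by decide +kernel
def p15_37_0_247 : pfC (piC [(nat_lit 33242365), (nat_lit 21715570), (nat_lit 14024239)] (nat_lit 15324770)) p15_37_0 (nat_lit 3) (nat_lit 247) (nat_lit 248) = true := by decide +kernel
def p15_37_0_248 : pfC (piC [(nat_lit 33242365), (nat_lit 21715570), (nat_lit 14024239)] (nat_lit 15324770)) p15_37_0 (nat_lit 3) (nat_lit 248) (nat_lit 249) = true := by decide +kernel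
def p15_37_0_249 : pfC (piC [(nat_lit 33242365), (nat_lit 21715570), (nat_lit 14024239)] (nat_lit 15324770)) p15_37_0 (nat_lit 3) (nat_lit 249) (nat_lit 250) = true := by decide +kernel
def p15_37_0_250 : pfC (piC [(nat_lit 33242365), (nat_lit 21715570), (nat_lit 14024239)] (nat_lit 15324770)) p15_37_0 (nat_lit 3) (nat_lit 250) (nat_lit 251) = true := by decide +kernel
def p15_37_0_251 : pfC (piC [(nat_lit 33242365), (nat_lit 21715570), (nat_lit 14024239)] (nat_lit 15324770)) p15_37_0 (nat_lit 3) (nat_lit 251) (nat_lit 252) = true := by decide +kernel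
def p15_37_0_252 : pfC (piC [(nat_lit 33242365), (nat_lit 21715570), (nat_lit 14024239)] (nat_lit 15324770)) p15_37_0 (nat_lit 3) (nat_lit 252) (nat_lit 253) = true := by decide +kernel
def p15_37_0_253 : pfC (piC [(nat_lit 33242365), (nat_lit 21715570), (nat_lit 14024239)] (nat_lit 15324770)) p15_37_0 (nat_lit 3) (nat_lit 253) (nat_lit 254) = true := by decide +kernel
def p15_37_0_254 : pfC (piC [(nat_lit 33242365), (nat_lit 21715570), (nat_lit 14024239)] (nat_lit 15324770)) p15_37_0 (nat_lit 3) (nat_lit 254) (nat_lit 255) = true := by decide +kernel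
def p15_37_0_255 : pfC (piC [(nat_lit 33242365), (nat_lit 21715570), (nat_lit 14024239)] (nat_lit 15324770)) p15_37_0 (nat_lit 3) (nat_lit 255) (nat_lit 256) = true := by decide +kernel
def p15_37_0_256 : pfC (piC [(nat_lit 33242365), (nat_lit 21715570), (nat_lit 14024239)] (nat_lit 15324770)) p15_37_0 (nat_lit 3) (nat_lit 256) (nat_lit 257) = true := by decide +kernel
def p15_37_0_257 : pfC (piC [(nat_lit 33242365), (nat_lit 21715570), (nat_lit 14024239)] (nat_lit 15324770)) p15_37_0 (nat_lit 3) (nat_lit 257) (nat_lit 258) = true := by decide +kernel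
def p15_37_0_258 : pfC (piC [(nat_lit 33242365), (nat_lit 21715570), (nat_lit 14024239)] (nat_lit 15324770)) p15_37_0 (nat_lit 3) (nat_lit 258) (nat_lit 259) = true := by decide +kernel
def p15_37_0_259 : pfC (piC [(nat_lit 33242365), (nat_lit 21715570), (nat_lit 14024239)] (nat_lit 15324770)) p15_37_0 (nat_lit 3) (nat_lit 259) (nat_lit 260) = true := by decide +kernel
def p15_37_0_260 : pfC (piC [(nat_lit 33242365), (nat_lit 21715570), (nat_lit 14024239)] (nat_lit 15324770)) p15_37_0 (nat_lit 3) (nat_lit 260) (nat_lit 261) = true := by decide +kernel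
def p15_37_0_261 : pfC (piC [(nat_lit 33242365), (nat_lit 21715570), (nat_lit 14024239)] (nat_lit 15324770)) p15_37_0 (nat_lit 3) (nat_lit 261) (nat_lit 262) = true := by decide +kernel
def p15_37_0_262 : pfC (piC [(nat_lit 33242365), (nat_lit 21715570), (nat_lit 14024239)] (nat_lit 15324770)) p15_37_0 (nat_lit 3) (nat_lit 262) (nat_lit 263) = true := by decide +kernel
def p15_37_0_263 : pfC (piC [(nat_lit 33242365), (nat_lit 21715570), (nat_lit 14024239)] (nat_lit 15324770)) p15_37_0 (nat_lit 3) (nat_lit 263) (nat_lit 264) = true := by decide +kernel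
def p15_37_0_264 : pfC (piC [(nat_lit 33242365), (nat_lit 21715570), (nat_lit 14024239)] (nat_lit 15324770)) p15_37_0 (nat_lit 3) (nat_lit 264) (nat_lit 265) = true := by decide +kernel
def p15_37_0_265 : pfC (piC [(nat_lit 33242365), (nat_lit 21715570), (nat_lit 14024239)] (nat_lit 15324770)) p15_37_0 (nat_lit 3) (nat_lit 265) (nat_lit 266) = true := by decide +kernel
def p15_37_0_266 : pfC (piC [(nat_lit 33242365), (nat_lit 21715570), (nat_lit 14024239)] (nat_lit 15324770)) p15_37_0 (nat_lit 3) (nat_lit 266) (nat_lit 267) = true := by decide +kernel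
def p15_37_0_267 : pfC (piC [(nat_lit 33242365), (nat_lit 21715570), (nat_lit 14024239)] (nat_lit 15324770)) p15_37_0 (nat_lit 3) (nat_lit 267) (nat_lit 268) = true := by decide +kernel
def p15_37_0_268 : pfC (piC [(nat_lit 33242365), (nat_lit 21715570), (nat_lit 14024239)] (nat_lit 15324770)) p15_37_0 (nat_lit 3) (nat_lit 268) (nat_lit 269) = true := by decide +kernel
def p15_37_0_269 : pfC (piC [(nat_lit 33242365), (nat_lit 21715570), (nat_lit 14024239)] (nat_lit 15324770)) p15_37_0 (nat_lit 3) (nat_lit 269) (nat_lit 270) = true := by decide +kernel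
def p15_37_0_270 : pfC (piC [(nat_lit 33242365), (nat_lit 21715570), (nat_lit 14024239)] (nat_lit 15324770)) p15_37_0 (nat_lit 3) (nat_lit 270) (nat_lit 271) = true := by decide +kernel
def p15_37_0_271 : pfC (piC [(nat_lit 33242365), (nat_lit 21715570), (nat_lit 14024239)] (nat_lit 15324770)) p15_37_0 (nat_lit 3) (nat_lit 271) (nat_lit 272) = true := by decide +kernel
def p15_37_0_272 : pfC (piC [(nat_lit 33242365), (nat_lit 21715570), (nat_lit 14024239)] (nat_lit 15324770)) p15_37_0 (nat_lit 3) (nat_lit 272) (nat_lit 273) = true := by decide +kernel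
def p15_37_0_273 : pfC (piC [(nat_lit 33242365), (nat_lit 21715570), (nat_lit 14024239)] (nat_lit 15324770)) p15_37_0 (nat_lit 3) (nat_lit 273) (nat_lit 274) = true := by decide +kernel
def p15_37_0_274 : pfC (piC [(nat_lit 33242365), (nat_lit 21715570), (nat_lit 14024239)] (nat_lit 15324770)) p15_37_0 (nat_lit 3) (nat_lit 274) (nat_lit 275) = true := by decide +kernel
def p15_37_0_275 : pfC (piC [(nat_lit 33242365), (nat_lit 21715570), (nat_lit 14024239)] (nat_lit 15324770)) p15_37_0 (nat_lit 3) (nat_lit 275) (nat_lit 276) = true := by decide +kernel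
def p15_37_0_276 : pfC (piC [(nat_lit 33242365), (nat_lit 21715570), (nat_lit 14024239)] (nat_lit 15324770)) p15_37_0 (nat_lit 3) (nat_lit 276) (nat_lit 277) = true := by decide +kernel
def p15_37_0_277 : pfC (piC [(nat_lit 33242365), (nat_lit 21715570), (nat_lit 14024239)] (nat_lit 15324770)) p15_37_0 (nat_lit 3) (nat_lit 277) (nat_lit 278) = true := by decide +kernel
def p15_37_0_278 : pfC (piC [(nat_lit 33242365), (nat_lit 21715570), (nat_lit 14024239)] (nat_lit 15324770)) p15_37_0 (nat_lit 3) (nat_lit 278) (nat_lit 279) = true := by decide +kernel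
def p15_37_0_279 : pfC (piC [(nat_lit 33242365), (nat_lit 21715570), (nat_lit 14024239)] (nat_lit 15324770)) p15_37_0 (nat_lit 3) (nat_lit 279) (nat_lit 280) = true := by decide +kernel
def p15_37_0_280 : pfC (piC [(nat_lit 33242365), (nat_lit 21715570), (nat_lit 14024239)] (nat_lit 15324770)) p15_37_0 (nat_lit 3) (nat_lit 280) (nat_lit 281) = true := by decide +kernel
def p15_37_0_281 : pfC (piC [(nat_lit 33242365), (nat_lit 21715570), (nat_lit 14024239)] (nat_lit 15324770)) p15_37_0 (nat_lit 3) (nat_lit 281) (nat_lit 282) = true := by decide +kernel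
def p15_37_0_282 : pfC (piC [(nat_lit 33242365), (nat_lit 21715570), (nat_lit 14024239)] (nat_lit 15324770)) p15_37_0 (nat_lit 3) (nat_lit 282) (nat_lit 283) = true := by decide +kernel
def p15_37_0_283 : pfC (piC [(nat_lit 33242365), (nat_lit 21715570), (nat_lit 14024239)] (nat_lit 15324770)) p15_37_0 (nat_lit 3) (nat_lit 283) (nat_lit 284) = true := by decide +kernel
def p15_37_0_284 : pfC (piC [(nat_lit 33242365), (nat_lit 21715570), (nat_lit 14024239)] (nat_lit 15324770)) p15_37_0 (nat_lit 3) (nat_lit 284) (nat_lit 285) = true := by decide +kernel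
def p15_37_0_285 : pfC (piC [(nat_lit 33242365), (nat_lit 21715570), (nat_lit 14024239)] (nat_lit 15324770)) p15_37_0 (nat_lit 3) (nat_lit 285) (nat_lit 286) = true := by decide +kernel
def p15_37_0_286 : pfC (piC [(nat_lit 33242365), (nat_lit 21715570), (nat_lit 14024239)] (nat_lit 15324770)) p15_37_0 (nat_lit 3) (nat_lit 286) (nat_lit 287) = true := by decide +kernel
def p15_37_0_287 : pfC (piC [(nat_lit 33242365), (nat_lit 21715570), (nat_lit 14024239)] (nat_lit 15324770)) p15_37_0 (nat_lit 3) (nat_lit 287) (nat_lit 288) = true := by decide +kernel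
def p15_37_0_288 : pfC (piC [(nat_lit 33242365), (nat_lit 21715570), (nat_lit 14024239)] (nat_lit 15324770)) p15_37_0 (nat_lit 3) (nat_lit 288) (nat_lit 289) = true := by decide +kernel
def p15_37_0_289 : pfC (piC [(nat_lit 33242365), (nat_lit 21715570), (nat_lit 14024239)] (nat_lit 15324770)) p15_37_0 (nat_lit 3) (nat_lit 289) (nat_lit 290) = true := by decide +kernel
def p15_37_0_290 : pfC (piC [(nat_lit 33242365), (nat_lit 21715570), (nat_lit 14024239)] (nat_lit 15324770)) p15_37_0 (nat_lit 3) (nat_lit 290) (nat_lit 291) = true := by decide +kernel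
def p15_37_0_291 : pfC (piC [(nat_lit 33242365), (nat_lit 21715570), (nat_lit 14024239)] (nat_lit 15324770)) p15_37_0 (nat_lit 3) (nat_lit 291) (nat_lit 292) = true := by decide +kernel
def p15_37_0_292 : pfC (piC [(nat_lit 33242365), (nat_lit 21715570), (nat_lit 14024239)] (nat_lit 15324770)) p15_37_0 (nat_lit 3) (nat_lit 292) (nat_lit 293) = true := by decide +kernel
def p15_37_0_293 : pfC (piC [(nat_lit 33242365), (nat_lit 21715570), (nat_lit 14024239)] (nat_lit 15324770)) p15_37_0 (nat_lit 3) (nat_lit 293) (nat_lit 294) = true := by decide +kernel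
def p15_37_0_294 : pfC (piC [(nat_lit 33242365), (nat_lit 21715570), (nat_lit 14024239)] (nat_lit 15324770)) p15_37_0 (nat_lit 3) (nat_lit 294) (nat_lit 295) = true := by decide +kernel
def p15_37_0_295 : pfC (piC [(nat_lit 33242365), (nat_lit 21715570), (nat_lit 14024239)] (nat_lit 15324770)) p15_37_0 (nat_lit 3) (nat_lit 295) (nat_lit 296) = true := by decide +kernel
def p15_37_0_296 : pfC (piC [(nat_lit 33242365), (nat_lit 21715570), (nat_lit 14024239)] (nat_lit 15324770)) p15_37_0 (nat_lit 3) (nat_lit 296) (nat_lit 297) = true := by decide +kernel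
def p15_37_0_297 : pfC (piC [(nat_lit 33242365), (nat_lit 21715570), (nat_lit 14024239)] (nat_lit 15324770)) p15_37_0 (nat_lit 3) (nat_lit 297) (nat_lit 298) = true := by decide +kernel
def p15_37_0_298 : pfC (piC [(nat_lit 33242365), (nat_lit 21715570), (nat_lit 14024239)] (nat_lit 15324770)) p15_37_0 (nat_lit 3) (nat_lit 298) (nat_lit 299) = true := by decide +kernel
def p15_37_0_299 : pfC (piC [(nat_lit 33242365), (nat_lit 21715570), (nat_lit 14024239)] (nat_lit 15324770)) p15_37_0 (nat_lit 3) (nat_lit 299) (nat_lit 300) = true := by decide +kernel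
def p15_37_0_300 : pfC (piC [(nat_lit 33242365), (nat_lit 21715570), (nat_lit 14024239)] (nat_lit 15324770)) p15_37_0 (nat_lit 3) (nat_lit 300) (nat_lit 301) = true := by decide +kernel
def p15_37_0_301 : pfC (piC [(nat_lit 33242365), (nat_lit 21715570), (nat_lit 14024239)] (nat_lit 15324770)) p15_37_0 (nat_lit 3) (nat_lit 301) (nat_lit 302) = true := by decide +kernel
def p15_37_0_302 : pfC (piC [(nat_lit 33242365), (nat_lit 21715570), (nat_lit 14024239)] (nat_lit 15324770)) p15_37_0 (nat_lit 3) (nat_lit 302) (nat_lit 303) = true := by decide +kernel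
def p15_37_0_303 : pfC (piC [(nat_lit 33242365), (nat_lit 21715570), (nat_lit 14024239)] (nat_lit 15324770)) p15_37_0 (nat_lit 3) (nat_lit 303) (nat_lit 304) = true := by decide +kernel
def p15_37_0_304 : pfC (piC [(nat_lit 33242365), (nat_lit 21715570), (nat_lit 14024239)] (nat_lit 15324770)) p15_37_0 (nat_lit 3) (nat_lit 304) (nat_lit 305) = true := by decide +kernel
def p15_37_0_305 : pfC (piC [(nat_lit 33242365), (nat_lit 21715570), (nat_lit 14024239)] (nat_lit 15324770)) p15_37_0 (nat_lit 3) (nat_lit 305) (nat_lit 306) = true := by decide +kernel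
def p15_37_0_306 : pfC (piC [(nat_lit 33242365), (nat_lit 21715570), (nat_lit 14024239)] (nat_lit 15324770)) p15_37_0 (nat_lit 3) (nat_lit 306) (nat_lit 307) = true := by decide +kernel
def p15_37_0_307 : pfC (piC [(nat_lit 33242365), (nat_lit 21715570), (nat_lit 14024239)] (nat_lit 15324770)) p15_37_0 (nat_lit 3) (nat_lit 307) (nat_lit 308) = true := by decide +kernel
def p15_37_0_308 : pfC (piC [(nat_lit 33242365), (nat_lit 21715570), (nat_lit 14024239)] (nat_lit 15324770)) p15_37_0 (nat_lit 3) (nat_lit 308) (nat_lit 309) = true := by decide +kernel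
def p15_37_0_309 : pfC (piC [(nat_lit 33242365), (nat_lit 21715570), (nat_lit 14024239)] (nat_lit 15324770)) p15_37_0 (nat_lit 3) (nat_lit 309) (nat_lit 310) = true := by decide +kernel
def p15_37_0_310 : pfC (piC [(nat_lit 33242365), (nat_lit 21715570), (nat_lit 14024239)] (nat_lit 15324770)) p15_37_0 (nat_lit 3) (nat_lit 310) (nat_lit 311) = true := by decide +kernel
def p15_37_0_311 : pfC (piC [(nat_lit 33242365), (nat_lit 21715570), (nat_lit 14024239)] (nat_lit 15324770)) p15_37_0 (nat_lit 3) (nat_lit 311) (nat_lit 312) = true := by decide +kernel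
def p15_37_0_312 : pfC (piC [(nat_lit 33242365), (nat_lit 21715570), (nat_lit 14024239)] (nat_lit 15324770)) p15_37_0 (nat_lit 3) (nat_lit 312) (nat_lit 313) = true := by decide +kernel
def p15_37_0_313 : pfC (piC [(nat_lit 33242365), (nat_lit 21715570), (nat_lit 14024239)] (nat_lit 15324770)) p15_37_0 (nat_lit 3) (nat_lit 313) (nat_lit 314) = true := by decide +kernel
def p15_37_0_314 : pfC (piC [(nat_lit 33242365), (nat_lit 21715570), (nat_lit 14024239)] (nat_lit 15324770)) p15_37_0 (nat_lit 3) (nat_lit 314) (nat_lit 315) = true := by decide +kernel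
def p15_37_0_315 : pfC (piC [(nat_lit 33242365), (nat_lit 21715570), (nat_lit 14024239)] (nat_lit 15324770)) p15_37_0 (nat_lit 3) (nat_lit 315) (nat_lit 316) = true := by decide +kernel
def p15_37_0_316 : pfC (piC [(nat_lit 33242365), (nat_lit 21715570), (nat_lit 14024239)] (nat_lit 15324770)) p15_37_0 (nat_lit 3) (nat_lit 316) (nat_lit 317) = true := by decide +kernel
def p15_37_0_317 : pfC (piC [(nat_lit 33242365), (nat_lit 21715570), (nat_lit 14024239)] (nat_lit 15324770)) p15_37_0 (nat_lit 3) (nat_lit 317) (nat_lit 318) = true := by decide +kernel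
def p15_37_0_318 : pfC (piC [(nat_lit 33242365), (nat_lit 21715570), (nat_lit 14024239)] (nat_lit 15324770)) p15_37_0 (nat_lit 3) (nat_lit 318) (nat_lit 319) = true := by decide +kernel
def p15_37_0_319 : pfC (piC [(nat_lit 33242365), (nat_lit 21715570), (nat_lit 14024239)] (nat_lit 15324770)) p15_37_0 (nat_lit 3) (nat_lit 319) (nat_lit 320) = true := by decide +kernel
def p15_37_0_320 : pfC (piC [(nat_lit 33242365), (nat_lit 21715570), (nat_lit 14024239)] (nat_lit 15324770)) p15_37_0 (nat_lit 3) (nat_lit 320) (nat_lit 321) = true := by decide +kernel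
def p15_37_0_321 : pfC (piC [(nat_lit 33242365), (nat_lit 21715570), (nat_lit 14024239)] (nat_lit 15324770)) p15_37_0 (nat_lit 3) (nat_lit 321) (nat_lit 322) = true := by decide +kernel
def p15_37_0_322 : pfC (piC [(nat_lit 33242365), (nat_lit 21715570), (nat_lit 14024239)] (nat_lit 15324770)) p15_37_0 (nat_lit 3) (nat_lit 322) (nat_lit 323) = true := by decide +kernel
def p15_37_0_323 : pfC (piC [(nat_lit 33242365), (nat_lit 21715570), (nat_lit 14024239)] (nat_lit 15324770)) p15_37_0 (nat_lit 3) (nat_lit 323) (nat_lit 324) = true := by decide +kernel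
def p15_37_0_324 : pfC (piC [(nat_lit 33242365), (nat_lit 21715570), (nat_lit 14024239)] (nat_lit 15324770)) p15_37_0 (nat_lit 3) (nat_lit 324) (nat_lit 325) = true := by decide +kernel
def p15_37_0_325 : pfC (piC [(nat_lit 33242365), (nat_lit 21715570), (nat_lit 14024239)] (nat_lit 15324770)) p15_37_0 (nat_lit 3) (nat_lit 325) (nat_lit 326) = true := by decide +kernel
def p15_37_0_326 : pfC (piC [(nat_lit 33242365), (nat_lit 21715570), (nat_lit 14024239)] (nat_lit 15324770)) p15_37_0 (nat_lit 3) (nat_lit 326) (nat_lit 327) = true := by decide +kernel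
def p15_37_0_327 : pfC (piC [(nat_lit 33242365), (nat_lit 21715570), (nat_lit 14024239)] (nat_lit 15324770)) p15_37_0 (nat_lit 3) (nat_lit 327) (nat_lit 328) = true := by decide +kernel
def p15_37_0_328 : pfC (piC [(nat_lit 33242365), (nat_lit 21715570), (nat_lit 14024239)] (nat_lit 15324770)) p15_37_0 (nat_lit 3) (nat_lit 328) (nat_lit 329) = true := by decide +kernel
def p15_37_0_329 : pfC (piC [(nat_lit 33242365), (nat_lit 21715570), (nat_lit 14024239)] (nat_lit 15324770)) p15_37_0 (nat_lit 3) (nat_lit 329) (nat_lit 330) = true := by decide +kernel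
def p15_37_0_330 : pfC (piC [(nat_lit 33242365), (nat_lit 21715570), (nat_lit 14024239)] (nat_lit 15324770)) p15_37_0 (nat_lit 3) (nat_lit 330) (nat_lit 331) = true := by decide +kernel
def p15_37_0_331 : pfC (piC [(nat_lit 33242365), (nat_lit 21715570), (nat_lit 14024239)] (nat_lit 15324770)) p15_37_0 (nat_lit 3) (nat_lit 331) (nat_lit 332) = true := by decide +kernel
def p15_37_0_332 : pfC (piC [(nat_lit 33242365), (nat_lit 21715570), (nat_lit 14024239)] (nat_lit 15324770)) p15_37_0 (nat_lit 3) (nat_lit 332) (nat_lit 333) = true := by decide +kernel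
def p15_37_0_333 : pfC (piC [(nat_lit 33242365), (nat_lit 21715570), (nat_lit 14024239)] (nat_lit 15324770)) p15_37_0 (nat_lit 3) (nat_lit 333) (nat_lit 334) = true := by decide +kernel
def p15_37_0_334 : pfC (piC [(nat_lit 33242365), (nat_lit 21715570), (nat_lit 14024239)] (nat_lit 15324770)) p15_37_0 (nat_lit 3) (nat_lit 334) (nat_lit 335) = true := by decide +kernel
def p15_37_0_335 : pfC (piC [(nat_lit 33242365), (nat_lit 21715570), (nat_lit 14024239)] (nat_lit 15324770)) p15_37_0 (nat_lit 3) (nat_lit 335) (nat_lit 336) = true := by decide +kernel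
def p15_37_0_336 : pfC (piC [(nat_lit 33242365), (nat_lit 21715570), (nat_lit 14024239)] (nat_lit 15324770)) p15_37_0 (nat_lit 3) (nat_lit 336) (nat_lit 337) = true := by decide +kernel
def p15_37_0_337 : pfC (piC [(nat_lit 33242365), (nat_lit 21715570), (nat_lit 14024239)] (nat_lit 15324770)) p15_37_0 (nat_lit 3) (nat_lit 337) (nat_lit 338) = true := by decide +kernel
def p15_37_0_338 : pfC (piC [(nat_lit 33242365), (nat_lit 21715570), (nat_lit 14024239)] (nat_lit 15324770)) p15_37_0 (nat_lit 3) (nat_lit 338) (nat_lit 339) = true := by decide +kernel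
def p15_37_0_339 : pfC (piC [(nat_lit 33242365), (nat_lit 21715570), (nat_lit 14024239)] (nat_lit 15324770)) p15_37_0 (nat_lit 3) (nat_lit 339) (nat_lit 340) = true := by decide +kernel
def p15_37_0_340 : pfC (piC [(nat_lit 33242365), (nat_lit 21715570), (nat_lit 14024239)] (nat_lit 15324770)) p15_37_0 (nat_lit 3) (nat_lit 340) (nat_lit 341) = true := by decide +kernel
def p15_37_0_341 : pfC (piC [(nat_lit 33242365), (nat_lit 21715570), (nat_lit 14024239)] (nat_lit 15324770)) p15_37_0 (nat_lit 3) (nat_lit 341) (nat_lit 342) = true := by decide +kernel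
theorem p15_37_0_T : PfS (PiF n15_37.reverse (nat_lit 15324770)) p15_37_0 (nat_lit 3) [] 0 :=
  pftab_of (los := [(nat_lit 33242365), (nat_lit 21715570), (nat_lit 14024239)]) (by decide +kernel) (hi := (nat_lit 342)) (PfP.trans (PfP.trans (PfP.trans (PfP.trans (PfP.trans (PfP.trans (PfP.trans (PfP.trans (PfP.trans (PfP.trans (PfP.trans (PfP.trans (PfP.trans (PfP.trans (PfP.trans (PfP.trans (PfP.trans (PfP.trans (PfP.trans (PfP.trans (PfP.trans (PfP.trans (PfP.trans (PfP.trans (PfP.trans (PfP.trans (PfP.trans (PfP.trans (PfP.trans (PfP.trans (PfP.trans (PfP.trans (PfP.trans (PfP.trans (PfP.trans (PfP.trans (PfP.trans (PfP.trans (PfP.trans (PfP.trans (PfP.trans (PfP.trans (PfP.trans (PfP.trans (PfP.trans (PfP.trans (PfP.trans (PfP.trans (PfP.trans (PfP.trans (PfP.trans (PfP.trans (PfP.trans (PfP.trans (PfP.trans (PfP.trans (PfP.trans (PfP.trans (PfP.trans (PfP.trans (PfP.trans (PfP.trans (PfP.trans (PfP.trans (PfP.trans (PfP.trans (PfP.trans (PfP.trans (PfP.trans (PfP.trans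 (PfP.trans (PfP.trans (PfP.trans (PfP.trans (PfP.trans (PfP.trans (PfP.trans (PfP.trans (PfP.trans (PfP.trans (PfP.trans (PfP.trans (PfP.trans (PfP.trans (PfP.trans (PfP.trans (PfP.trans (PfP.trans (PfP.trans (PfP.trans (PfP.trans (PfP.trans (PfP.trans (PfP.trans (PfP.trans (PfP.trans (PfP.trans (PfP.trans (PfP.trans (PfP.trans (PfP.trans (PfP.trans (PfP.trans (PfP.trans (PfP.trans (PfP.trans (PfP.trans (PfP.trans (PfP.trans
 (PfP.trans (PfP.trans (PfP.trans (PfP.trans (PfP.trans (PfP.trans (PfP.trans (PfP.trans (PfP.trans (PfP.trans (PfP.trans (PfP.trans (PfP.trans (PfP.trans (PfP.trans (PfP.trans (PfP.trans (PfP.trans (PfP.trans (PfP.trans (PfP.trans (PfP.trans (PfP.trans (PfP.trans (PfP.trans (PfP.trans (PfP.trans (PfP.trans (PfP.trans (PfP.trans (PfP.trans (PfP.trans (PfP.trans (PfP.trans (PfP.trans (PfP.trans (PfP.trans (PfP.trans (PfP.trans (PfP.trans (PfP.trans (PfP.trans (PfP.trans (PfP.trans (PfP.trans (PfP.trans (PfP.trans (PfP.trans (PfP.trans (PfP.trans (PfP.trans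 (PfP.trans (PfP.trans (PfP.trans (PfP.trans (PfP.trans (PfP.trans (PfP.trans (PfP.trans (PfP.trans (PfP.trans (PfP.trans (PfP.trans (PfP.trans (PfP.trans (PfP.trans (PfP.trans (PfP.trans (PfP.trans (PfP.trans (PfP.trans (PfP.trans (PfP.trans (PfP.trans (PfP.trans (PfP.trans (PfP.trans (PfP.trans (PfP.trans (PfP.trans (PfP.trans (PfP.trans (PfP.trans (PfP.trans (PfP.trans (PfP.trans (PfP.trans (PfP.trans (PfP.trans (PfP.trans (PfP.trans (PfP.trans (PfP.trans (PfP.trans (PfP.trans (PfP.trans (PfP.trans (PfP.trans (PfP.trans (PfP.trans (PfP.trans (PfP.trans (PfP.trans (PfP.trans (PfP.trans (PfP.trans (PfP.trans (PfP.trans (PfP.trans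
 (PfP.trans (PfP.trans (PfP.trans (PfP.trans (PfP.trans (PfP.trans (PfP.trans (PfP.trans (PfP.trans (PfP.trans (PfP.trans (PfP.trans (PfP.trans (PfP.trans (PfP.trans (PfP.trans (PfP.trans (PfP.trans (PfP.trans (PfP.trans (PfP.trans (PfP.trans (PfP.trans (PfP.trans (PfP.trans (PfP.trans (PfP.trans (PfP.trans (PfP.trans (PfP.trans (PfP.trans (PfP.trans (PfP.trans (PfP.trans (PfP.trans (PfP.trans (PfP.trans (PfP.trans (PfP.trans (PfP.trans (PfP.trans (PfP.trans (PfP.trans (PfP.trans (PfP.trans (PfP.trans (PfP.trans (PfP.trans (PfP.trans (PfP.trans (PfP.trans (PfP.trans (PfP.trans (PfP.trans (PfP.trans (PfP.trans (PfP.trans (PfP.trans (PfP.trans (PfP.trans (PfP.trans (PfP.trans (PfP.trans (PfP.trans (PfP.trans (PfP.trans (PfP.trans (PfP.trans (PfP.trans (PfP.trans (PfP.trans (PfP.trans (PfP.trans (PfP.trans (PfP.trans (PfP.trans (PfP.trans (PfP.trans (PfP.trans (PfP.trans (PfP.trans (PfP.trans (PfP.trans (PfP.trans (PfP.trans (PfP.trans (PfP.trans (PfP.trans (PfP.trans (PfP.trans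 (PfP.trans (PfP.trans (PfP.trans (PfP.trans (PfP.trans (PfP.trans (PfP.trans (PfP.trans (PfP.trans (PfP.trans (PfP.trans (PfP.trans (PfP.trans (PfP.trans (PfP.trans (PfP.trans (PfP.trans (PfP.trans (PfP.trans
 (PfP.trans (PfP.trans (PfP.trans (PfP.trans (PfP.trans (PfP.trans (PfP.trans (PfP.trans (PfP.trans (PfP.trans (PfP.trans (PfP.trans (PfP.trans (PfP.trans (pfC_sound p15_37_0_0) (pfC_sound p15_37_0_1)) (pfC_sound p15_37_0_2)) (pfC_sound p15_37_0_3)) (pfC_sound p15_37_0_4)) (pfC_sound p15_37_0_5)) (pfC_sound p15_37_0_6)) (pfC_sound p15_37_0_7)) (pfC_sound p15_37_0_8)) (pfC_sound p15_37_0_9)) (pfC_sound p15_37_0_10)) (pfC_sound p15_37_0_11)) (pfC_sound p15_37_0_12)) (pfC_sound p15_37_0_13)) (pfC_sound p15_37_0_14)) (pfC_sound p15_37_0_15)) (pfC_sound p15_37_0_16)) (pfC_sound p15_37_0_17)) (pfC_sound p15_37_0_18)) (pfC_sound p15_37_0_19)) (pfC_sound p15_37_0_20)) (pfC_sound p15_37_0_21)) (pfC_sound p15_37_0_22)) (pfC_sound p15_37_0_23)) (pfC_sound p15_37_0_24)) (pfC_sound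 p15_37_0_25)) (pfC_sound p15_37_0_26)) (pfC_sound p15_37_0_27)) (pfC_sound p15_37_0_28)) (pfC_sound p15_37_0_29)) (pfC_sound p15_37_0_30)) (pfC_sound p15_37_0_31)) (pfC_sound p15_37_0_32)) (pfC_sound p15_37_0_33)) (pfC_sound p15_37_0_34)) (pfC_sound p15_37_0_35)) (pfC_sound p15_37_0_36)) (pfC_sound p15_37_0_37)) (pfC_sound p15_37_0_38)) (pfC_sound p15_37_0_39)) (pfC_sound p15_37_0_40)) (pfC_sound p15_37_0_41))
 (pfC_sound p15_37_0_42)) (pfC_sound p15_37_0_43)) (pfC_sound p15_37_0_44)) (pfC_sound p15_37_0_45)) (pfC_sound p15_37_0_46)) (pfC_sound p15_37_0_47)) (pfC_sound p15_37_0_48)) (pfC_sound p15_37_0_49)) (pfC_sound p15_37_0_50)) (pfC_sound p15_37_0_51)) (pfC_sound p15_37_0_52)) (pfC_sound p15_37_0_53)) (pfC_sound p15_37_0_54)) (pfC_sound p15_37_0_55)) (pfC_sound p15_37_0_56)) (pfC_sound p15_37_0_57)) (pfC_sound p15_37_0_58)) (pfC_sound p15_37_0_59)) (pfC_sound p15_37_0_60)) (pfC_sound p15_37_0_61)) (pfC_sound p15_37_0_62)) (pfC_sound p15_37_0_63)) (pfC_sound p15_37_0_64))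 (pfC_sound p15_37_0_65)) (pfC_sound p15_37_0_66)) (pfC_sound p15_37_0_67)) (pfC_sound p15_37_0_68)) (pfC_sound p15_37_0_69)) (pfC_sound p15_37_0_70)) (pfC_sound p15_37_0_71)) (pfC_sound p15_37_0_72)) (pfC_sound p15_37_0_73)) (pfC_sound p15_37_0_74)) (pfC_sound p15_37_0_75)) (pfC_sound p15_37_0_76)) (pfC_sound p15_37_0_77)) (pfC_sound p15_37_0_78)) (pfC_sound p15_37_0_79)) (pfC_sound p15_37_0_80)) (pfC_sound p15_37_0_81)) (pfC_sound p15_37_0_82)) (pfC_sound p15_37_0_83)) (pfC_sound p15_37_0_84)) (pfC_sound p15_37_0_85)) (pfC_sound p15_37_0_86)) (pfC_sound p15_37_0_87)) (pfC_sound p15_37_0_88)) (pfC_sound p15_37_0_89))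
 (pfC_sound p15_37_0_90)) (pfC_sound p15_37_0_91)) (pfC_sound p15_37_0_92)) (pfC_sound p15_37_0_93)) (pfC_sound p15_37_0_94)) (pfC_sound p15_37_0_95)) (pfC_sound p15_37_0_96)) (pfC_sound p15_37_0_97)) (pfC_sound p15_37_0_98)) (pfC_sound p15_37_0_99)) (pfC_sound p15_37_0_100)) (pfC_sound p15_37_0_101)) (pfC_sound p15_37_0_102)) (pfC_sound p15_37_0_103)) (pfC_sound p15_37_0_104)) (pfC_sound p15_37_0_105)) (pfC_sound p15_37_0_106)) (pfC_sound p15_37_0_107)) (pfC_sound p15_37_0_108)) (pfC_sound p15_37_0_109)) (pfC_sound p15_37_0_110)) (pfC_sound p15_37_0_111)) (pfC_sound p15_37_0_112)) (pfC_sound p15_37_0_113)) (pfC_sound p15_37_0_114)) (pfC_sound p15_37_0_115)) (pfC_sound p15_37_0_116)) (pfC_sound p15_37_0_117)) (pfC_sound p15_37_0_118)) (pfC_sound p15_37_0_119)) (pfC_sound p15_37_0_120)) (pfC_sound p15_37_0_121)) (pfC_sound p15_37_0_122)) (pfC_sound p15_37_0_123)) (pfC_sound p15_37_0_124)) (pfC_sound p15_37_0_125)) (pfC_sound p15_37_0_126)) (pfC_sound p15_37_0_127)) (pfC_sound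 p15_37_0_128)) (pfC_sound p15_37_0_129)) (pfC_sound p15_37_0_130)) (pfC_sound p15_37_0_131)) (pfC_sound p15_37_0_132)) (pfC_sound p15_37_0_133)) (pfC_sound p15_37_0_134)) (pfC_sound p15_37_0_135)) (pfC_sound
 p15_37_0_136)) (pfC_sound p15_37_0_137)) (pfC_sound p15_37_0_138)) (pfC_sound p15_37_0_139)) (pfC_sound p15_37_0_140)) (pfC_sound p15_37_0_141)) (pfC_sound p15_37_0_142)) (pfC_sound p15_37_0_143)) (pfC_sound p15_37_0_144)) (pfC_sound p15_37_0_145)) (pfC_sound p15_37_0_146)) (pfC_sound p15_37_0_147)) (pfC_sound p15_37_0_148)) (pfC_sound p15_37_0_149)) (pfC_sound p15_37_0_150)) (pfC_sound p15_37_0_151)) (pfC_sound p15_37_0_152)) (pfC_sound p15_37_0_153)) (pfC_sound p15_37_0_154)) (pfC_sound p15_37_0_155)) (pfC_sound p15_37_0_156)) (pfC_sound p15_37_0_157)) (pfC_sound p15_37_0_158)) (pfC_sound p15_37_0_159)) (pfC_sound p15_37_0_160)) (pfC_sound p15_37_0_161)) (pfC_sound p15_37_0_162)) (pfC_sound p15_37_0_163)) (pfC_sound p15_37_0_164)) (pfC_sound p15_37_0_165)) (pfC_sound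 p15_37_0_166)) (pfC_sound p15_37_0_167)) (pfC_sound p15_37_0_168)) (pfC_sound p15_37_0_169)) (pfC_sound p15_37_0_170)) (pfC_sound p15_37_0_171)) (pfC_sound p15_37_0_172)) (pfC_sound p15_37_0_173)) (pfC_sound p15_37_0_174)) (pfC_sound p15_37_0_175)) (pfC_sound p15_37_0_176)) (pfC_sound p15_37_0_177)) (pfC_sound p15_37_0_178)) (pfC_sound p15_37_0_179)) (pfC_sound p15_37_0_180)) (pfC_sound p15_37_0_181)) (pfC_sound
 p15_37_0_182)) (pfC_sound p15_37_0_183)) (pfC_sound p15_37_0_184)) (pfC_sound p15_37_0_185)) (pfC_sound p15_37_0_186)) (pfC_sound p15_37_0_187)) (pfC_sound p15_37_0_188)) (pfC_sound p15_37_0_189)) (pfC_sound p15_37_0_190)) (pfC_sound p15_37_0_191)) (pfC_sound p15_37_0_192)) (pfC_sound p15_37_0_193)) (pfC_sound p15_37_0_194)) (pfC_sound p15_37_0_195)) (pfC_sound p15_37_0_196)) (pfC_sound p15_37_0_197)) (pfC_sound p15_37_0_198)) (pfC_sound p15_37_0_199)) (pfC_sound p15_37_0_200)) (pfC_sound p15_37_0_201)) (pfC_sound p15_37_0_202)) (pfC_sound p15_37_0_203)) (pfC_sound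 p15_37_0_204)) (pfC_sound p15_37_0_205)) (pfC_sound p15_37_0_206)) (pfC_sound p15_37_0_207)) (pfC_sound p15_37_0_208)) (pfC_sound p15_37_0_209)) (pfC_sound p15_37_0_210)) (pfC_sound p15_37_0_211)) (pfC_sound p15_37_0_212)) (pfC_sound p15_37_0_213)) (pfC_sound p15_37_0_214)) (pfC_sound p15_37_0_215)) (pfC_sound p15_37_0_216)) (pfC_sound p15_37_0_217)) (pfC_sound p15_37_0_218)) (pfC_sound p15_37_0_219)) (pfC_sound p15_37_0_220)) (pfC_sound p15_37_0_221)) (pfC_sound p15_37_0_222)) (pfC_sound p15_37_0_223)) (pfC_sound p15_37_0_224)) (pfC_sound p15_37_0_225)) (pfC_sound p15_37_0_226)) (pfC_sound p15_37_0_227)) (pfC_sound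
 p15_37_0_228)) (pfC_sound p15_37_0_229)) (pfC_sound p15_37_0_230)) (pfC_sound p15_37_0_231)) (pfC_sound p15_37_0_232)) (pfC_sound p15_37_0_233)) (pfC_sound p15_37_0_234)) (pfC_sound p15_37_0_235)) (pfC_sound p15_37_0_236)) (pfC_sound p15_37_0_237)) (pfC_sound p15_37_0_238)) (pfC_sound p15_37_0_239)) (pfC_sound p15_37_0_240)) (pfC_sound p15_37_0_241)) (pfC_sound p15_37_0_242)) (pfC_sound p15_37_0_243)) (pfC_sound p15_37_0_244)) (pfC_sound p15_37_0_245)) (pfC_sound p15_37_0_246)) (pfC_sound p15_37_0_247)) (pfC_sound p15_37_0_248)) (pfC_sound p15_37_0_249)) (pfC_sound p15_37_0_250)) (pfC_sound p15_37_0_251)) (pfC_sound p15_37_0_252)) (pfC_sound p15_37_0_253)) (pfC_sound p15_37_0_254)) (pfC_sound p15_37_0_255)) (pfC_sound p15_37_0_256)) (pfC_sound p15_37_0_257)) (pfC_sound p15_37_0_258)) (pfC_sound p15_37_0_259)) (pfC_sound p15_37_0_260)) (pfC_sound p15_37_0_261)) (pfC_sound p15_37_0_262)) (pfC_sound p15_37_0_263)) (pfC_sound p15_37_0_264)) (pfC_sound p15_37_0_265)) (pfC_sound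 p15_37_0_266)) (pfC_sound p15_37_0_267)) (pfC_sound p15_37_0_268)) (pfC_sound p15_37_0_269)) (pfC_sound p15_37_0_270)) (pfC_sound p15_37_0_271)) (pfC_sound p15_37_0_272)) (pfC_sound p15_37_0_273)) (pfC_sound
 p15_37_0_274)) (pfC_sound p15_37_0_275)) (pfC_sound p15_37_0_276)) (pfC_sound p15_37_0_277)) (pfC_sound p15_37_0_278)) (pfC_sound p15_37_0_279)) (pfC_sound p15_37_0_280)) (pfC_sound p15_37_0_281)) (pfC_sound p15_37_0_282)) (pfC_sound p15_37_0_283)) (pfC_sound p15_37_0_284)) (pfC_sound p15_37_0_285)) (pfC_sound p15_37_0_286)) (pfC_sound p15_37_0_287)) (pfC_sound p15_37_0_288)) (pfC_sound p15_37_0_289)) (pfC_sound p15_37_0_290)) (pfC_sound p15_37_0_291)) (pfC_sound p15_37_0_292)) (pfC_sound p15_37_0_293)) (pfC_sound p15_37_0_294)) (pfC_sound p15_37_0_295)) (pfC_sound p15_37_0_296)) (pfC_sound p15_37_0_297)) (pfC_sound p15_37_0_298)) (pfC_sound p15_37_0_299)) (pfC_sound p15_37_0_300)) (pfC_sound p15_37_0_301)) (pfC_sound p15_37_0_302)) (pfC_sound p15_37_0_303)) (pfC_sound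 p15_37_0_304)) (pfC_sound p15_37_0_305)) (pfC_sound p15_37_0_306)) (pfC_sound p15_37_0_307)) (pfC_sound p15_37_0_308)) (pfC_sound p15_37_0_309)) (pfC_sound p15_37_0_310)) (pfC_sound p15_37_0_311)) (pfC_sound p15_37_0_312)) (pfC_sound p15_37_0_313)) (pfC_sound p15_37_0_314)) (pfC_sound p15_37_0_315)) (pfC_sound p15_37_0_316)) (pfC_sound p15_37_0_317)) (pfC_sound p15_37_0_318)) (pfC_sound p15_37_0_319)) (pfC_sound
 p15_37_0_320)) (pfC_sound p15_37_0_321)) (pfC_sound p15_37_0_322)) (pfC_sound p15_37_0_323)) (pfC_sound p15_37_0_324)) (pfC_sound p15_37_0_325)) (pfC_sound p15_37_0_326)) (pfC_sound p15_37_0_327)) (pfC_sound p15_37_0_328)) (pfC_sound p15_37_0_329)) (pfC_sound p15_37_0_330)) (pfC_sound p15_37_0_331)) (pfC_sound p15_37_0_332)) (pfC_sound p15_37_0_333)) (pfC_sound p15_37_0_334)) (pfC_sound p15_37_0_335)) (pfC_sound p15_37_0_336)) (pfC_sound p15_37_0_337)) (pfC_sound p15_37_0_338)) (pfC_sound p15_37_0_339)) (pfC_sound p15_37_0_340)) (pfC_sound p15_37_0_341)) (by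 decide +kernel)

def z15_37_0 : zOK yB15_37 (nat_lit 0) (nat_lit 0) (nat_lit 400) (nat_lit 15324770) (nat_lit 11147418) = true := by decide +kernel
def g15_37_0 : gOK yB15_37.x P15_37 (nat_lit 1363) (q15_37 :: r15_37) (nat_lit 0) (nat_lit 0) (nat_lit 1) (nat_lit 400) (nat_lit 0) (nat_lit 11000000) (nat_lit 12712500) (nat_lit 12712500) [(nat_lit 800), (nat_lit 1600)] = true := by decide +kernel
def v15_37_0 : ivC P15_37 s15_37 w15_37 n15_37 (nat_lit 3) (nat_lit 5240) (nat_lit 0) (nat_lit 0) f192_0_0 f200_0_0 (nat_lit 1) (nat_lit 400) f192_0_400 f200_0_400 (nat_lit 15324770) (nat_lit 11147418) p15_37_0 = true := by decide +kernel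
def p15_37_1 : PF := (PF.cons (PF.cons (PF.cons (PF.leaf (nat_lit 2050299) (nat_lit 9584869) (nat_lit 57523943) (nat_lit 9584869) [(nat_lit 0), (nat_lit 0), (nat_lit 0)]) (PF.cons (PF.leaf (nat_lit 2350161) (nat_lit 577447) (nat_lit 56897586) (nat_lit 9633778) [(nat_lit 577447), (nat_lit 0), (nat_lit 0)]) (PF.cons (PF.leaf (nat_lit 2701655) (nat_lit 627779) (nat_lit 56171287) (nat_lit 9681967) [(nat_lit 627779), (nat_lit 0), (nat_lit 0)]) (PF.cons (PF.leaf (nat_lit 3094586) (nat_lit 671861) (nat_lit 55367742) (nat_lit 9725485) [(nat_lit 671861), (nat_lit 0), (nat_lit 0)]) (PF.cons (PF.leaf (nat_lit 3521632) (nat_lit 710838) (nat_lit 54503772) (nat_lit 9761684) [(nat_lit 710838), (nat_lit 0), (nat_lit 0)]) (PF.cons (PF.leaf (nat_lit 3976861) (nat_lit 745432) (nat_lit 53592810) (nat_lit 9788842) [(nat_lit 745432), (nat_lit 0), (nat_lit 0)]) (PF.cons (PF.leaf (nat_lit 4455243) (nat_lit 776143) (nat_lit 52646024) (nat_lit 9805928) [(nat_lit 776143), (nat_lit 0), (nat_lit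 0)]) (PF.cons (PF.leaf (nat_lit 4952368) (nat_lit 803352) (nat_lit 51672905) (nat_lit 9812439) [(nat_lit 803352), (nat_lit 0), (nat_lit 0)]) (PF.cons (PF.leaf (nat_lit 5464364) (nat_lit 827367) (nat_lit 50681606) (nat_lit 9808263)
 [(nat_lit 827367), (nat_lit 0), (nat_lit 0)]) (PF.cons (PF.leaf (nat_lit 5987813) (nat_lit 848452) (nat_lit 49679154) (nat_lit 9793585) [(nat_lit 848452), (nat_lit 0), (nat_lit 0)]) (PF.cons (PF.leaf (nat_lit 6519627) (nat_lit 866840) (nat_lit 48671604) (nat_lit 9768801) [(nat_lit 866840), (nat_lit 0), (nat_lit 0)]) (PF.cons (PF.leaf (nat_lit 7057132) (nat_lit 882745) (nat_lit 47664154) (nat_lit 9734460) [(nat_lit 882745), (nat_lit 0), (nat_lit 0)]) (PF.cons (PF.leaf (nat_lit 7597937) (nat_lit 896363) (nat_lit 46661241) (nat_lit 9691207) [(nat_lit 896363), (nat_lit 0), (nat_lit 0)]) (PF.cons (PF.leaf (nat_lit 8139950) (nat_lit 907880) (nat_lit 45666624) (nat_lit 9639747) [(nat_lit 907880), (nat_lit 0), (nat_lit 0)]) (PF.cons (PF.leaf (nat_lit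 8681354) (nat_lit 917467) (nat_lit 44683458) (nat_lit 9580814) [(nat_lit 917467), (nat_lit 0), (nat_lit 0)]) (PF.cons (PF.leaf (nat_lit 9220593) (nat_lit 925286) (nat_lit 43714360) (nat_lit 9515149) [(nat_lit 925286), (nat_lit 0), (nat_lit 0)]) (PF.cons PF.nil (PF.cons PF.nil (PF.cons PF.nil (PF.cons PF.nil PF.nil)))))))))))))))))))) (PF.cons (PF.cons (PF.leaf (nat_lit 2973210) (nat_lit 2480334) (nat_lit 54904592) (nat_lit 9723886) [(nat_lit
 0), (nat_lit 2480334), (nat_lit 0)]) (PF.cons (PF.leaf (nat_lit 3350669) (nat_lit 688334) (nat_lit 54126470) (nat_lit 9752598) [(nat_lit 688334), (nat_lit 2541409), (nat_lit 0)]) (PF.cons (PF.leaf (nat_lit 3764389) (nat_lit 725241) (nat_lit 53285202) (nat_lit 9774654) [(nat_lit 725241), (nat_lit 2598474), (nat_lit 0)]) (PF.cons (PF.leaf (nat_lit 4207110) (nat_lit 757759) (nat_lit 52396613) (nat_lit 9788445) [(nat_lit 757759), (nat_lit 2650477), (nat_lit 0)]) (PF.cons (PF.leaf (nat_lit 4673243) (nat_lit 786466) (nat_lit 51472948)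 (nat_lit 9793050) [(nat_lit 786466), (nat_lit 2696947), (nat_lit 0)]) (PF.cons (PF.leaf (nat_lit 5158152) (nat_lit 811778) (nat_lit 50524137) (nat_lit 9788040) [(nat_lit 811778), (nat_lit 2737742), (nat_lit 0)]) (PF.cons (PF.leaf (nat_lit 5657849) (nat_lit 834019) (nat_lit 49558436) (nat_lit 9773348) [(nat_lit 834019), (nat_lit 2772911), (nat_lit 0)]) (PF.cons (PF.leaf (nat_lit 6168873) (nat_lit 853459) (nat_lit 48582803) (nat_lit 9749172) [(nat_lit 853459), (nat_lit 2802620), (nat_lit 0)]) (PF.cons (PF.leaf (nat_lit 6688201) (nat_lit 870334) (nat_lit 47603126) (nat_lit 9715898) [(nat_lit 870334), (nat_lit 2827114), (nat_lit 0)]) (PF.cons (PF.leaf (nat_lit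
 7213168) (nat_lit 884854) (nat_lit 46624396) (nat_lit 9674042) [(nat_lit 884854), (nat_lit 2846680), (nat_lit 0)]) (PF.cons (PF.leaf (nat_lit 7741483) (nat_lit 897214) (nat_lit 45650827) (nat_lit 9624208) [(nat_lit 897214), (nat_lit 2861631), (nat_lit 0)]) (PF.cons (PF.leaf (nat_lit 8271090) (nat_lit 907592) (nat_lit 44685955) (nat_lit 9567048) [(nat_lit 907592), (nat_lit 2872295), (nat_lit 0)]) (PF.cons (PF.leaf (nat_lit 8800250) (nat_lit 916154) (nat_lit 43732726) (nat_lit 9503236) [(nat_lit 916154), (nat_lit 2879000), (nat_lit 0)]) (PF.cons (PF.leaf (nat_lit 9327450) (nat_lit 923055) (nat_lit 42793569) (nat_lit 9433450) [(nat_lit 923055), (nat_lit 2882070), (nat_lit 0)]) (PF.cons PF.nil (PF.cons PF.nil (PF.cons PF.nil (PF.cons PF.nil PF.nil)))))))))))))))))) (PF.cons (PF.cons (PF.leaf (nat_lit 4006288) (nat_lit 2637377) (nat_lit 52062597) (nat_lit 9771460) [(nat_lit 0), (nat_lit 2637377), (nat_lit 0)]) (PF.cons (PF.leaf (nat_lit 4433684) (nat_lit 767067) (nat_lit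 51204990) (nat_lit 9773551) [(nat_lit 767067), (nat_lit 2681601), (nat_lit 0)]) (PF.cons (PF.leaf (nat_lit 4885879) (nat_lit 794219) (nat_lit 50310669) (nat_lit 9767277) [(nat_lit 794219), (nat_lit 2721213), (nat_lit
 0)]) (PF.cons (PF.leaf (nat_lit 5357476) (nat_lit 817987) (nat_lit 49390767) (nat_lit 9752264) [(nat_lit 817987), (nat_lit 2755909), (nat_lit 0)]) (PF.cons (PF.leaf (nat_lit 5844199) (nat_lit 838744) (nat_lit 48454091) (nat_lit 9728473) [(nat_lit 838744), (nat_lit 2785634), (nat_lit 0)]) (PF.cons (PF.leaf (nat_lit 6342441) (nat_lit 856785) (nat_lit 47507810) (nat_lit 9696110) [(nat_lit 856785), (nat_lit 2810481), (nat_lit 0)]) (PF.cons (PF.leaf (nat_lit 6849131) (nat_lit 872359) (nat_lit 46557843) (nat_lit 9655546) [(nat_lit 872359), (nat_lit 2830633), (nat_lit 0)]) (PF.cons (PF.leaf (nat_lit 7361597) (nat_lit 885680) (nat_lit 45609114) (nat_lit 9607272) [(nat_lit 885680), (nat_lit 2846330), (nat_lit 0)]) (PF.cons (PF.leaf (nat_lit 7877558) (nat_lit 896944)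 (nat_lit 44665720) (nat_lit 9551847) [(nat_lit 896944), (nat_lit 2857844), (nat_lit 0)]) (PF.cons (PF.leaf (nat_lit 8395006) (nat_lit 906327) (nat_lit 43731062) (nat_lit 9489876) [(nat_lit 906327), (nat_lit 2865463), (nat_lit 0)]) (PF.cons (PF.leaf (nat_lit 8912231) (nat_lit 913992) (nat_lit 42807948) (nat_lit 9421981) [(nat_lit 913992), (nat_lit 2869481), (nat_lit 0)]) (PF.cons (PF.leaf (nat_lit 9427744) (nat_lit 920088)
 (nat_lit 41898673) (nat_lit 9348783) [(nat_lit 920088), (nat_lit 2870190), (nat_lit 0)]) (PF.cons PF.nil (PF.cons PF.nil (PF.cons PF.nil (PF.cons PF.nil PF.nil)))))))))))))))) (PF.cons (PF.cons (PF.leaf (nat_lit 5095431) (nat_lit 2739938) (nat_lit 49159171) (nat_lit 9729826) [(nat_lit 0), (nat_lit 2739938), (nat_lit 0)]) (PF.cons (PF.leaf (nat_lit 5552084) (nat_lit 822092) (nat_lit 48272979) (nat_lit 9706271) [(nat_lit 822092), (nat_lit 2769156), (nat_lit 0)]) (PF.cons (PF.leaf (nat_lit 6024899) (nat_lit 841661) (nat_lit 47368739) (nat_lit 9674722)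 [(nat_lit 841661), (nat_lit 2794009), (nat_lit 0)]) (PF.cons (PF.leaf (nat_lit 6509818) (nat_lit 858547) (nat_lit 46454236) (nat_lit 9635396) [(nat_lit 858547), (nat_lit 2814512), (nat_lit 0)]) (PF.cons (PF.leaf (nat_lit 7003595) (nat_lit 873024) (nat_lit 45535673) (nat_lit 9588655) [(nat_lit 873024), (nat_lit 2830794), (nat_lit 0)]) (PF.cons (PF.leaf (nat_lit 7503481) (nat_lit 885324) (nat_lit 44618078) (nat_lit 9534965) [(nat_lit 885324), (nat_lit 2843048), (nat_lit 0)]) (PF.cons (PF.leaf (nat_lit 8007157) (nat_lit 895646) (nat_lit 43705556) (nat_lit 9474852) [(nat_lit 895646), (nat_lit 2851507), (nat_lit 0)]) (PF.cons (PF.leaf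
 (nat_lit 8512615) (nat_lit 904170) (nat_lit 42801465) (nat_lit 9408879) [(nat_lit 904170), (nat_lit 2856424), (nat_lit 0)]) (PF.cons (PF.leaf (nat_lit 9018143) (nat_lit 911057) (nat_lit 41908543) (nat_lit 9337620) [(nat_lit 911057), (nat_lit 2858063), (nat_lit 0)]) (PF.cons (PF.leaf (nat_lit 9522277) (nat_lit 916454) (nat_lit 41029010) (nat_lit 9261648) [(nat_lit 916454), (nat_lit 2856686), (nat_lit 0)]) (PF.cons (PF.leaf (nat_lit 10023783) (nat_lit 920498) (nat_lit 40164642) (nat_lit 9181521) [(nat_lit 920498), (nat_lit 2852553), (nat_lit 0)]) (PF.cons PF.nil (PF.cons PF.nil (PF.cons PF.nil PF.nil)))))))))))))) (PF.cons (PF.cons (PF.leaf (nat_lit 6201717) (nat_lit 2798490) (nat_lit 46301837) (nat_lit 9613013) [(nat_lit 0), (nat_lit 2798490), (nat_lit 0)]) (PF.cons (PF.leaf (nat_lit 6672391) (nat_lit 858827) (nat_lit 45421631) (nat_lit 9567883) [(nat_lit 858827), (nat_lit 2815117), (nat_lit 0)]) (PF.cons (PF.leaf (nat_lit 7152806) (nat_lit 872416) (nat_lit 44536157)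 (nat_lit 9516004) [(nat_lit 872416), (nat_lit 2827954), (nat_lit 0)]) (PF.cons (PF.leaf (nat_lit 7639905) (nat_lit 883869) (nat_lit 43650778) (nat_lit 9457827) [(nat_lit 883869), (nat_lit 2837149), (nat_lit 0)])
 (PF.cons (PF.leaf (nat_lit 8131257) (nat_lit 893399) (nat_lit 42769759) (nat_lit 9393855) [(nat_lit 893399), (nat_lit 2842900), (nat_lit 0)]) (PF.cons (PF.leaf (nat_lit 8624808) (nat_lit 901193) (nat_lit 41896520) (nat_lit 9324616) [(nat_lit 901193), (nat_lit 2845427), (nat_lit 0)]) (PF.cons (PF.leaf (nat_lit 9118822) (nat_lit 907415) (nat_lit 41033810) (nat_lit 9250647) [(nat_lit 907415), (nat_lit 2844965), (nat_lit 0)]) (PF.cons (PF.leaf (nat_lit 9611824) (nat_lit 912213) (nat_lit 40183832) (nat_lit 9172478) [(nat_lit 912213), (nat_lit 2841751), (nat_lit 0)]) (PF.cons (PF.leaf (nat_lit 10102559) (nat_lit 915721) (nat_lit 39348334) (nat_lit 9090624) [(nat_lit 915721), (nat_lit 2836021), (nat_lit 0)]) (PF.cons PF.nil (PF.cons PF.nil (PF.cons PF.nil PF.nil))))))))))))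 (PF.cons (PF.cons (PF.leaf (nat_lit 7298161) (nat_lit 2822424) (nat_lit 43558438) (nat_lit 9438251) [(nat_lit 0), (nat_lit 2822424), (nat_lit 0)]) (PF.cons (PF.leaf (nat_lit 7771977) (nat_lit 881375) (nat_lit 42706419) (nat_lit 9376459) [(nat_lit 881375), (nat_lit 2828911), (nat_lit 0)]) (PF.cons (PF.leaf (nat_lit 8250842) (nat_lit 890263) (nat_lit 41857545) (nat_lit 9309397) [(nat_lit 890263), (nat_lit 2832268),
 (nat_lit 0)]) (PF.cons (PF.leaf (nat_lit 8732472) (nat_lit 897454) (nat_lit 41015433) (nat_lit 9237571) [(nat_lit 897454), (nat_lit 2832688), (nat_lit 0)]) (PF.cons (PF.leaf (nat_lit 9215059) (nat_lit 903121) (nat_lit 40182939) (nat_lit 9161488) [(nat_lit 903121), (nat_lit 2830379), (nat_lit 0)]) (PF.cons (PF.leaf (nat_lit 9697083) (nat_lit 907414) (nat_lit 39362314) (nat_lit 9081645) [(nat_lit 907414), (nat_lit 2825555), (nat_lit 0)]) (PF.cons (PF.leaf (nat_lit 10177276) (nat_lit 910468) (nat_lit 38555328) (nat_lit 8998524) [(nat_lit 910468), (nat_lit 2818429),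 (nat_lit 0)]) (PF.cons PF.nil (PF.cons PF.nil (PF.cons PF.nil PF.nil)))))))))) (PF.cons (PF.cons (PF.leaf (nat_lit 8367026) (nat_lit 2819828) (nat_lit 40967910) (nat_lit 9221929) [(nat_lit 0), (nat_lit 2819828), (nat_lit 0)]) (PF.cons (PF.leaf (nat_lit 8836481) (nat_lit 892997) (nat_lit 40157260) (nat_lit 9148148) [(nat_lit 892997), (nat_lit 2818401), (nat_lit 0)]) (PF.cons (PF.leaf (nat_lit 9307634) (nat_lit 898217) (nat_lit 39355013) (nat_lit 9070502) [(nat_lit 898217), (nat_lit 2814476), (nat_lit 0)]) (PF.cons (PF.leaf (nat_lit 9778774) (nat_lit 902099) (nat_lit 38563556) (nat_lit 8989467) [(nat_lit 902099), (nat_lit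
 2808248), (nat_lit 0)]) (PF.cons (PF.leaf (nat_lit 10248576) (nat_lit 904779) (nat_lit 37784738) (nat_lit 8905496) [(nat_lit 904779), (nat_lit 2799909), (nat_lit 0)]) (PF.cons (PF.leaf (nat_lit 10715931) (nat_lit 906381) (nat_lit 37019981) (nat_lit 8819018) [(nat_lit 906381), (nat_lit 2789650), (nat_lit 0)]) (PF.cons PF.nil (PF.cons PF.nil PF.nil)))))))) (PF.cons (PF.cons (PF.leaf (nat_lit 9397455) (nat_lit 2797402) (nat_lit 38549002) (nat_lit 8977990) [(nat_lit 0), (nat_lit 2797402), (nat_lit 0)]) (PF.cons (PF.leaf (nat_lit 9857592) (nat_lit 896298) (nat_lit 37786584) (nat_lit 8896209) [(nat_lit 896298), (nat_lit 2789960), (nat_lit 0)]) (PF.cons (PF.leaf (nat_lit 10317072) (nat_lit 898683) (nat_lit 37035630) (nat_lit 8811774) [(nat_lit 898683), (nat_lit 2780577), (nat_lit 0)]) (PF.cons (PF.leaf (nat_lit 10774620) (nat_lit 900018) (nat_lit 36297659) (nat_lit 8725093) [(nat_lit 900018), (nat_lit 2769428), (nat_lit 0)]) (PF.cons PF.nil (PF.cons PF.nil PF.nil)))))) (PF.cons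 (PF.cons (PF.leaf (nat_lit 10383497) (nat_lit 2760531) (nat_lit 36307015) (nat_lit 8717546) [(nat_lit 0), (nat_lit 2760531), (nat_lit 0)]) (PF.cons (PF.leaf (nat_lit 10831201) (nat_lit 893338) (nat_lit 35595458)
 (nat_lit 8630970) [(nat_lit 893338), (nat_lit 2748630), (nat_lit 0)]) (PF.cons PF.nil (PF.cons PF.nil PF.nil)))) (PF.cons (PF.cons (PF.leaf (nat_lit 11322581) (nat_lit 2713440) (nat_lit 34238770) (nat_lit 8449074) [(nat_lit 0), (nat_lit 2713440), (nat_lit 0)]) (PF.cons PF.nil PF.nil)) (PF.cons PF.nil (PF.cons PF.nil (PF.cons PF.nil PF.nil))))))))))))) (PF.cons (PF.cons (PF.cons (PF.leaf (nat_lit 3812242) (nat_lit 6467827) (nat_lit 50962957) (nat_lit 9678027) [(nat_lit 0), (nat_lit 0), (nat_lit 6467827)]) (PF.cons (PF.leaf (nat_lit 4193173) (nat_lit 723847) (nat_lit 50213928) (nat_lit 9676716) [(nat_lit 723847), (nat_lit 0), (nat_lit 6494320)]) (PF.cons (PF.leaf (nat_lit 4606233) (nat_lit 755920) (nat_lit 49412399) (nat_lit 9668540) [(nat_lit 755920), (nat_lit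 0), (nat_lit 6516032)]) (PF.cons (PF.leaf (nat_lit 5044140) (nat_lit 783484) (nat_lit 48573561) (nat_lit 9652851) [(nat_lit 783484), (nat_lit 0), (nat_lit 6531946)]) (PF.cons (PF.leaf (nat_lit 5501516) (nat_lit 807288) (nat_lit 47708725) (nat_lit 9629386) [(nat_lit 807288), (nat_lit 0), (nat_lit 6541549)]) (PF.cons (PF.leaf (nat_lit 5974027) (nat_lit 827853) (nat_lit 46826729) (nat_lit 9598157) [(nat_lit 827853), (nat_lit 0),
 (nat_lit 6544658)]) (PF.cons (PF.leaf (nat_lit 6458096) (nat_lit 845573) (nat_lit 45934681) (nat_lit 9559374) [(nat_lit 845573), (nat_lit 0), (nat_lit 6541319)]) (PF.cons (PF.leaf (nat_lit 6950670) (nat_lit 860759) (nat_lit 45038385) (nat_lit 9513385) [(nat_lit 860759), (nat_lit 0), (nat_lit 6531726)]) (PF.cons (PF.leaf (nat_lit 7449161) (nat_lit 873671) (nat_lit 44142626) (nat_lit 9460636) [(nat_lit 873671), (nat_lit 0), (nat_lit 6516180)]) (PF.cons (PF.leaf (nat_lit 7951307) (nat_lit 884531) (nat_lit 43251353) (nat_lit 9401630) [(nat_lit 884531),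 (nat_lit 0), (nat_lit 6495047)]) (PF.cons (PF.leaf (nat_lit 8455205) (nat_lit 893534) (nat_lit 42367830) (nat_lit 9336906) [(nat_lit 893534), (nat_lit 0), (nat_lit 6468731)]) (PF.cons (PF.leaf (nat_lit 8959171) (nat_lit 900854) (nat_lit 41494733) (nat_lit 9267017) [(nat_lit 900854), (nat_lit 0), (nat_lit 6437657)]) (PF.cons (PF.leaf (nat_lit 9461802) (nat_lit 906649) (nat_lit 40634247) (nat_lit 9192513) [(nat_lit 906649), (nat_lit 0), (nat_lit 6402257)]) (PF.cons PF.nil (PF.cons PF.nil (PF.cons PF.nil PF.nil)))))))))))))))) (PF.cons (PF.cons (PF.leaf (nat_lit 4822642) (nat_lit 2684234) (nat_lit 48280584) (nat_lit 9628461) [(nat_lit 0),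
 (nat_lit 2684234), (nat_lit 6515532)]) (PF.cons (PF.leaf (nat_lit 5244002) (nat_lit 787278) (nat_lit 47477429) (nat_lit 9605317) [(nat_lit 787278), (nat_lit 2715066), (nat_lit 6523720)]) (PF.cons (PF.leaf (nat_lit 5686666) (nat_lit 810090) (nat_lit 46645612) (nat_lit 9574956) [(nat_lit 810090), (nat_lit 2741765), (nat_lit 6526296)]) (PF.cons (PF.leaf (nat_lit 6145515) (nat_lit 829630) (nat_lit 45795196) (nat_lit 9537445) [(nat_lit 829630), (nat_lit 2764226), (nat_lit 6523053)]) (PF.cons (PF.leaf (nat_lit 6616599) (nat_lit 846343) (nat_lit 44933898) (nat_lit 9493019) [(nat_lit 846343), (nat_lit 2782514), (nat_lit 6514008)]) (PF.cons (PF.leaf (nat_lit 7096684) (nat_lit 860570) (nat_lit 44067821) (nat_lit 9442029) [(nat_lit 860570), (nat_lit 2796783), (nat_lit 6499328)]) (PF.cons (PF.leaf (nat_lit 7583079) (nat_lit 872584) (nat_lit 43201871) (nat_lit 9384907) [(nat_lit 872584), (nat_lit 2807244), (nat_lit 6479282)]) (PF.cons (PF.leaf (nat_lit 8073481) (nat_lit 882616) (nat_lit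 42340031) (nat_lit 9322133) [(nat_lit 882616), (nat_lit 2814133), (nat_lit 6454199)]) (PF.cons (PF.leaf (nat_lit 8565945) (nat_lit 890862) (nat_lit 41485542) (nat_lit 9254215) [(nat_lit 890862), (nat_lit
 2817704), (nat_lit 6424447)]) (PF.cons (PF.leaf (nat_lit 9058807) (nat_lit 897497) (nat_lit 40641039) (nat_lit 9181667) [(nat_lit 897497), (nat_lit 2818211), (nat_lit 6390414)]) (PF.cons (PF.leaf (nat_lit 9550634) (nat_lit 902676) (nat_lit 39808649) (nat_lit 9105001) [(nat_lit 902676), (nat_lit 2815906), (nat_lit 6352491)]) (PF.cons (PF.leaf (nat_lit 10040220) (nat_lit 906537) (nat_lit 38990077) (nat_lit 9024714) [(nat_lit 906537), (nat_lit 2811037), (nat_lit 6311067)]) (PF.cons PF.nil (PF.cons PF.nil PF.nil)))))))))))))) (PF.cons (PF.cons (PF.leaf (nat_lit 5870084) (nat_lit 2747394) (nat_lit 45597062) (nat_lit 9512710) [(nat_lit 0), (nat_lit 2747394), (nat_lit 6504250)]) (PF.cons (PF.leaf (nat_lit 6313820) (nat_lit 829787) (nat_lit 44781593) (nat_lit 9470053) [(nat_lit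 829787), (nat_lit 2765918), (nat_lit 6495542)]) (PF.cons (PF.leaf (nat_lit 6771121) (nat_lit 845743) (nat_lit 43953286) (nat_lit 9420992) [(nat_lit 845743), (nat_lit 2780727), (nat_lit 6481592)]) (PF.cons (PF.leaf (nat_lit 7238257) (nat_lit 859211) (nat_lit 43118895) (nat_lit 9365900) [(nat_lit 859211), (nat_lit 2791917), (nat_lit 6462546)]) (PF.cons (PF.leaf (nat_lit 7712328) (nat_lit 870495) (nat_lit 42283671)
 (nat_lit 9305207) [(nat_lit 870495), (nat_lit 2799653), (nat_lit 6438645)]) (PF.cons (PF.leaf (nat_lit 8190915) (nat_lit 879839) (nat_lit 41451770) (nat_lit 9239378) [(nat_lit 879839), (nat_lit 2804137), (nat_lit 6410190)]) (PF.cons (PF.leaf (nat_lit 8672002) (nat_lit 887450) (nat_lit 40626515) (nat_lit 9168898) [(nat_lit 887450), (nat_lit 2805589), (nat_lit 6377518)]) (PF.cons (PF.leaf (nat_lit 9153880) (nat_lit 893504) (nat_lit 39810566) (nat_lit 9094252) [(nat_lit 893504), (nat_lit 2804239), (nat_lit 6340983)]) (PF.cons (PF.leaf (nat_lit 9635121) (nat_lit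 898158) (nat_lit 39006054) (nat_lit 9015917) [(nat_lit 898158), (nat_lit 2800314), (nat_lit 6300945)]) (PF.cons (PF.leaf (nat_lit 10114477) (nat_lit 901549) (nat_lit 38214668) (nat_lit 8934359) [(nat_lit 901549), (nat_lit 2794039), (nat_lit 6257760)]) (PF.cons PF.nil (PF.cons PF.nil PF.nil)))))))))))) (PF.cons (PF.cons (PF.leaf (nat_lit 6923256) (nat_lit 2776224) (nat_lit 42991692) (nat_lit 9343861) [(nat_lit 0), (nat_lit 2776224), (nat_lit 6444585)]) (PF.cons (PF.leaf (nat_lit 7376608) (nat_lit 856726) (nat_lit 42190652) (nat_lit 9285532) [(nat_lit 856726), (nat_lit 2784683), (nat_lit 6421849)]) (PF.cons (PF.leaf (nat_lit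
 7837944) (nat_lit 867451) (nat_lit 41387158) (nat_lit 9222026) [(nat_lit 867451), (nat_lit 2790009), (nat_lit 6394695)]) (PF.cons (PF.leaf (nat_lit 8304515) (nat_lit 876250) (nat_lit 40585741) (nat_lit 9153809) [(nat_lit 876250), (nat_lit 2792369), (nat_lit 6363402)]) (PF.cons (PF.leaf (nat_lit 8774177) (nat_lit 883344) (nat_lit 39789929) (nat_lit 9081353) [(nat_lit 883344), (nat_lit 2791956), (nat_lit 6328283)]) (PF.cons (PF.leaf (nat_lit 9245140) (nat_lit 888919) (nat_lit 39002500) (nat_lit 9005123) [(nat_lit 888919), (nat_lit 2788973), (nat_lit 6289667)]) (PF.cons (PF.leaf (nat_lit 9715904) (nat_lit 893136) (nat_lit 38225646) (nat_lit 8925572) [(nat_lit 893136), (nat_lit 2783629), (nat_lit 6247884)]) (PF.cons (PF.leaf (nat_lit 10185232) (nat_lit 896134) (nat_lit 37461088) (nat_lit 8843136) [(nat_lit 896134), (nat_lit 2776126), (nat_lit 6203264)]) (PF.cons PF.nil (PF.cons PF.nil PF.nil)))))))))) (PF.cons (PF.cons (PF.leaf (nat_lit 7961169) (nat_lit 2778519) (nat_lit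 40511183) (nat_lit 9135763) [(nat_lit 0), (nat_lit 2778519), (nat_lit 6347786)]) (PF.cons (PF.leaf (nat_lit 8415246) (nat_lit 871881) (nat_lit 39740920) (nat_lit 9065793) [(nat_lit 871881), (nat_lit 2779015),
 (nat_lit 6314157)]) (PF.cons (PF.leaf (nat_lit 8873301) (nat_lit 878580) (nat_lit 38974834) (nat_lit 8991911) [(nat_lit 878580), (nat_lit 2776967), (nat_lit 6277033)]) (PF.cons (PF.leaf (nat_lit 9333296) (nat_lit 883779) (nat_lit 38215933) (nat_lit 8914576) [(nat_lit 883779), (nat_lit 2772560), (nat_lit 6236722)]) (PF.cons (PF.leaf (nat_lit 9793653) (nat_lit 887646) (nat_lit 37466546) (nat_lit 8834225) [(nat_lit 887646), (nat_lit 2765980), (nat_lit 6193535)]) (PF.cons (PF.leaf (nat_lit 10253047) (nat_lit 890324) (nat_lit 36728482) (nat_lit 8751273) [(nat_lit 890324), (nat_lit 2757413), (nat_lit 6147779)]) (PF.cons (PF.leaf (nat_lit 10710387) (nat_lit 891941) (nat_lit 36003138) (nat_lit 8666112) [(nat_lit 891941), (nat_lit 2747041), (nat_lit 6099748)]) (PF.cons PF.nil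 PF.nil)))))))) (PF.cons (PF.cons (PF.leaf (nat_lit 8970348) (nat_lit 2760767) (nat_lit 38180127) (nat_lit 8900840) [(nat_lit 0), (nat_lit 2760767), (nat_lit 6224008)]) (PF.cons (PF.leaf (nat_lit 9419103) (nat_lit 878107) (nat_lit 37449856) (nat_lit 8822853) [(nat_lit 878107), (nat_lit 2755126), (nat_lit 6182365)]) (PF.cons (PF.leaf (nat_lit 9868994) (nat_lit 881710) (nat_lit 36727810) (nat_lit 8742091) [(nat_lit
 881710), (nat_lit 2747479), (nat_lit 6138092)]) (PF.cons (PF.leaf (nat_lit 10318497) (nat_lit 884143) (nat_lit 36015952) (nat_lit 8658958) [(nat_lit 884143), (nat_lit 2737998), (nat_lit 6091475)]) (PF.cons (PF.leaf (nat_lit 10766462) (nat_lit 885536) (nat_lit 35315781) (nat_lit 8573832) [(nat_lit 885536), (nat_lit 2726851), (nat_lit 6042795)]) (PF.cons PF.nil PF.nil)))))) (PF.cons (PF.cons (PF.leaf (nat_lit 9942717) (nat_lit 2728223) (nat_lit 36008417) (nat_lit 8649341) [(nat_lit 0), (nat_lit 2728223), (nat_lit 6081713)]) (PF.cons (PF.leaf (nat_lit 10382176)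 (nat_lit 877608) (nat_lit 35322554) (nat_lit 8566344) [(nat_lit 877608), (nat_lit 2717968), (nat_lit 6034496)]) (PF.cons (PF.leaf (nat_lit 10820786) (nat_lit 878841) (nat_lit 34647212) (nat_lit 8481522) [(nat_lit 878841), (nat_lit 2706167), (nat_lit 5985389)]) (PF.cons PF.nil PF.nil)))) (PF.cons (PF.cons (PF.leaf (nat_lit 10873982) (nat_lit 2685055) (nat_lit 33996509) (nat_lit 8389284) [(nat_lit 0), (nat_lit 2685055), (nat_lit 5927632)]) (PF.cons (PF.leaf (nat_lit 11301659) (nat_lit 872094) (nat_lit 33356340) (nat_lit 8303652) [(nat_lit 872094), (nat_lit 2671417), (nat_lit 5876803)]) PF.nil)) (PF.cons PF.nil (PF.cons PF.nil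
 (PF.cons PF.nil PF.nil))))))))))) (PF.cons (PF.cons (PF.cons (PF.leaf (nat_lit 5573159) (nat_lit 6426591) (nat_lit 44846671) (nat_lit 9408958) [(nat_lit 0), (nat_lit 0), (nat_lit 6426591)]) (PF.cons (PF.leaf (nat_lit 5985334) (nat_lit 796059) (nat_lit 44104781) (nat_lit 9369287) [(nat_lit 796059), (nat_lit 0), (nat_lit 6419342)]) (PF.cons (PF.leaf (nat_lit 6416108) (nat_lit 815395) (nat_lit 43340055) (nat_lit 9323429) [(nat_lit 815395), (nat_lit 0), (nat_lit 6407268)]) (PF.cons (PF.leaf (nat_lit 6860627) (nat_lit 831607) (nat_lit 42561477) (nat_lit 9271716) [(nat_lit 831607), (nat_lit 0), (nat_lit 6390397)]) (PF.cons (PF.leaf (nat_lit 7315258) (nat_lit 845184) (nat_lit 41775779) (nat_lit 9214533) [(nat_lit 845184), (nat_lit 0), (nat_lit 6368881)]) (PF.cons (PF.leaf (nat_lit 7777086) (nat_lit 856488) (nat_lit 40988166) (nat_lit 9152301) [(nat_lit 856488), (nat_lit 0), (nat_lit 6342951)]) (PF.cons (PF.leaf (nat_lit 8243711) (nat_lit 865805) (nat_lit 40202739) (nat_lit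 9085459) [(nat_lit 865805), (nat_lit 0), (nat_lit 6312890)]) (PF.cons (PF.leaf (nat_lit 8713139) (nat_lit 873366) (nat_lit 39422764) (nat_lit 9014459) [(nat_lit 873366), (nat_lit 0), (nat_lit 6279012)]) (PF.cons
 (PF.leaf (nat_lit 9183685) (nat_lit 879366) (nat_lit 38650850) (nat_lit 8939748) [(nat_lit 879366), (nat_lit 0), (nat_lit 6241640)]) (PF.cons (PF.leaf (nat_lit 9653920) (nat_lit 883972) (nat_lit 37889083) (nat_lit 8861764) [(nat_lit 883972), (nat_lit 0), (nat_lit 6201106)]) (PF.cons (PF.leaf (nat_lit 10122665) (nat_lit 887330) (nat_lit 37139117) (nat_lit 8780928) [(nat_lit 887330), (nat_lit 0), (nat_lit 6157732)]) (PF.cons PF.nil (PF.cons PF.nil (PF.cons PF.nil PF.nil)))))))))))))) (PF.cons (PF.cons (PF.leaf (nat_lit 6576801) (nat_lit 2727268) (nat_lit 42392775) (nat_lit 9246671) [(nat_lit 0), (nat_lit 2727268), (nat_lit 6371048)]) (PF.cons (PF.leaf (nat_lit 7006470) (nat_lit 829016) (nat_lit 41648195) (nat_lit 9192163) [(nat_lit 829016), (nat_lit 2738023), (nat_lit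 6350706)]) (PF.cons (PF.leaf (nat_lit 7447755) (nat_lit 842159) (nat_lit 40894212) (nat_lit 9132487) [(nat_lit 842159), (nat_lit 2745602), (nat_lit 6326095)]) (PF.cons (PF.leaf (nat_lit 7897222) (nat_lit 853000) (nat_lit 40136690) (nat_lit 9068095) [(nat_lit 853000), (nat_lit 2750146), (nat_lit 6297440)]) (PF.cons (PF.leaf (nat_lit 8352236) (nat_lit 861854) (nat_lit 39380102) (nat_lit 8999438) [(nat_lit 861854),
 (nat_lit 2751838), (nat_lit 6265008)]) (PF.cons (PF.leaf (nat_lit 8810656) (nat_lit 868972) (nat_lit 38627927) (nat_lit 8926961) [(nat_lit 868972), (nat_lit 2750876), (nat_lit 6229092)]) (PF.cons (PF.leaf (nat_lit 9270717) (nat_lit 874559) (nat_lit 37882897) (nat_lit 8851098) [(nat_lit 874559), (nat_lit 2747466), (nat_lit 6189998)]) (PF.cons (PF.leaf (nat_lit 9730935) (nat_lit 878786) (nat_lit 37147165) (nat_lit 8772268) [(nat_lit 878786), (nat_lit 2741812), (nat_lit 6148031)]) (PF.cons (PF.leaf (nat_lit 10190067) (nat_lit 881801) (nat_lit 36422428) (nat_lit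 8690872) [(nat_lit 881801), (nat_lit 2734113), (nat_lit 6103493)]) (PF.cons PF.nil (PF.cons PF.nil (PF.cons PF.nil PF.nil)))))))))))) (PF.cons (PF.cons (PF.leaf (nat_lit 7579108) (nat_lit 2735145) (nat_lit 40030737) (nat_lit 9047237) [(nat_lit 0), (nat_lit 2735145), (nat_lit 6280273)]) (PF.cons (PF.leaf (nat_lit 8015413) (nat_lit 848638) (nat_lit 39304459) (nat_lit 8981340) [(nat_lit 848638), (nat_lit 2737786), (nat_lit 6249401)]) (PF.cons (PF.leaf (nat_lit 8458422) (nat_lit 857176) (nat_lit 38577328) (nat_lit 8911427) [(nat_lit 857176), (nat_lit 2737810), (nat_lit 6215041)]) (PF.cons (PF.leaf (nat_lit 8905637) (nat_lit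
 863969) (nat_lit 37853206) (nat_lit 8837956) [(nat_lit 863969), (nat_lit 2735392), (nat_lit 6177478)]) (PF.cons (PF.leaf (nat_lit 9355134) (nat_lit 869239) (nat_lit 37135057) (nat_lit 8761360) [(nat_lit 869239), (nat_lit 2730715), (nat_lit 6137003)]) (PF.cons (PF.leaf (nat_lit 9805345) (nat_lit 873169) (nat_lit 36425177) (nat_lit 8682048) [(nat_lit 873169), (nat_lit 2723966), (nat_lit 6093904)]) (PF.cons (PF.leaf (nat_lit 10254951) (nat_lit 875911) (nat_lit 35725352) (nat_lit 8600406) [(nat_lit 875911), (nat_lit 2715326), (nat_lit 6048464)]) (PF.cons (PF.leaf (nat_lit 10702883) (nat_lit 877598) (nat_lit 35036966) (nat_lit 8516793) [(nat_lit 877598), (nat_lit 2704972), (nat_lit 6000957)]) (PF.cons PF.nil (PF.cons PF.nil PF.nil)))))))))) (PF.cons (PF.cons (PF.leaf (nat_lit 8563372) (nat_lit 2722518) (nat_lit 37793181) (nat_lit 8821655) [(nat_lit 0), (nat_lit 2722518), (nat_lit 6163210)]) (PF.cons (PF.leaf (nat_lit 8998890) (nat_lit 858369) (nat_lit 37097524) (nat_lit 8747660)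 [(nat_lit 858369), (nat_lit 2718838), (nat_lit 6124372)]) (PF.cons (PF.leaf (nat_lit 9437637) (nat_lit 863424) (nat_lit 36406354) (nat_lit 8670731) [(nat_lit 863424), (nat_lit 2713067), (nat_lit 6082837)])
 (PF.cons (PF.leaf (nat_lit 9877761) (nat_lit 867141) (nat_lit 35722210) (nat_lit 8591279) [(nat_lit 867141), (nat_lit 2705375), (nat_lit 6038886)]) (PF.cons (PF.leaf (nat_lit 10317863) (nat_lit 869680) (nat_lit 35047031) (nat_lit 8509684) [(nat_lit 869680), (nat_lit 2695931), (nat_lit 5992789)]) (PF.cons (PF.leaf (nat_lit 10756786) (nat_lit 871181) (nat_lit 34382305) (nat_lit 8426297) [(nat_lit 871181), (nat_lit 2684897), (nat_lit 5944805)]) (PF.cons PF.nil (PF.cons PF.nil PF.nil)))))))) (PF.cons (PF.cons (PF.leaf (nat_lit 9519082) (nat_lit 2694615) (nat_lit 35695699) (nat_lit 8579356) [(nat_lit 0), (nat_lit 2694615), (nat_lit 6027646)]) (PF.cons (PF.leaf (nat_lit 9948822) (nat_lit 860711) (nat_lit 35037287) (nat_lit 8500095) [(nat_lit 860711), (nat_lit 2686124), (nat_lit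 5983109)]) (PF.cons (PF.leaf (nat_lit 10379335) (nat_lit 863120) (nat_lit 34386567) (nat_lit 8418828) [(nat_lit 863120), (nat_lit 2676001), (nat_lit 5936585)]) (PF.cons (PF.leaf (nat_lit 10809243) (nat_lit 864494) (nat_lit 33745188) (nat_lit 8335903) [(nat_lit 864494), (nat_lit 2664397), (nat_lit 5888322)]) (PF.cons PF.nil (PF.cons PF.nil PF.nil)))))) (PF.cons (PF.cons (PF.leaf (nat_lit 10440054) (nat_lit
 2655598) (nat_lit 33743003) (nat_lit 8327926) [(nat_lit 0), (nat_lit 2655598), (nat_lit 5879945)]) (PF.cons (PF.leaf (nat_lit 10860749) (nat_lit 857546) (nat_lit 33124744) (nat_lit 8245691) [(nat_lit 857546), (nat_lit 2643529), (nat_lit 5831591)]) (PF.cons PF.nil (PF.cons PF.nil PF.nil)))) (PF.cons (PF.cons (PF.leaf (nat_lit 11323082) (nat_lit 2608727) (nat_lit 31933038) (nat_lit 8073196) [(nat_lit 0), (nat_lit 2608727), (nat_lit 5725107)]) (PF.cons PF.nil PF.nil)) (PF.cons PF.nil (PF.cons PF.nil (PF.cons PF.nil PF.nil)))))))))) (PF.cons (PF.cons (PF.cons (PF.leaf (nat_lit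 7224019) (nat_lit 6210707) (nat_lit 39520959) (nat_lit 8955729) [(nat_lit 0), (nat_lit 0), (nat_lit 6210707)]) (PF.cons (PF.leaf (nat_lit 7639358) (nat_lit 822472) (nat_lit 38843668) (nat_lit 8894301) [(nat_lit 822472), (nat_lit 0), (nat_lit 6182790)]) (PF.cons (PF.leaf (nat_lit 8064834) (nat_lit 833408) (nat_lit 38159256) (nat_lit 8828660) [(nat_lit 833408), (nat_lit 0), (nat_lit 6151360)]) (PF.cons (PF.leaf (nat_lit 8497251) (nat_lit 842212) (nat_lit 37472832) (nat_lit 8759291) [(nat_lit 842212), (nat_lit 0), (nat_lit 6116684)]) (PF.cons (PF.leaf (nat_lit 8934217) (nat_lit 849204) (nat_lit 36788238) (nat_lit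
 8686641) [(nat_lit 849204), (nat_lit 0), (nat_lit 6079037)]) (PF.cons (PF.leaf (nat_lit 9373807) (nat_lit 854634) (nat_lit 36108418) (nat_lit 8611126) [(nat_lit 854634), (nat_lit 0), (nat_lit 6038699)]) (PF.cons (PF.leaf (nat_lit 9814440) (nat_lit 858699) (nat_lit 35435657) (nat_lit 8533133) [(nat_lit 858699), (nat_lit 0), (nat_lit 5995941)]) (PF.cons (PF.leaf (nat_lit 10254826) (nat_lit 861566) (nat_lit 34771732) (nat_lit 8453026) [(nat_lit 861566), (nat_lit 0), (nat_lit 5951029)]) (PF.cons (PF.leaf (nat_lit 10693876) (nat_lit 863373) (nat_lit 34118025) (nat_lit 8371139) [(nat_lit 863373), (nat_lit 0), (nat_lit 5904219)]) (PF.cons PF.nil PF.nil)))))))))) (PF.cons (PF.cons (PF.leaf (nat_lit 8178723) (nat_lit 2682275) (nat_lit 37384591) (nat_lit 8740002) [(nat_lit 0), (nat_lit 2682275), (nat_lit 6100647)]) (PF.cons (PF.leaf (nat_lit 8598668) (nat_lit 836597) (nat_lit 36726834) (nat_lit 8670285) [(nat_lit 836597), (nat_lit 2680777), (nat_lit 6064772)]) (PF.cons (PF.leaf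 (nat_lit 9024366) (nat_lit 843451) (nat_lit 36069095) (nat_lit 8597413) [(nat_lit 843451), (nat_lit 2677072), (nat_lit 6026109)]) (PF.cons (PF.leaf (nat_lit 9453528) (nat_lit 848716) (nat_lit 35414697) (nat_lit
 8521822) [(nat_lit 848716), (nat_lit 2671333), (nat_lit 5984936)]) (PF.cons (PF.leaf (nat_lit 9884411) (nat_lit 852612) (nat_lit 34766161) (nat_lit 8443908) [(nat_lit 852612), (nat_lit 2663733), (nat_lit 5941520)]) (PF.cons (PF.leaf (nat_lit 10315616) (nat_lit 855313) (nat_lit 34125419) (nat_lit 8364032) [(nat_lit 855313), (nat_lit 2654440), (nat_lit 5896118)]) (PF.cons (PF.leaf (nat_lit 10745978) (nat_lit 856966) (nat_lit 33493956) (nat_lit 8282523) [(nat_lit 856966), (nat_lit 2643616), (nat_lit 5848972)]) (PF.cons PF.nil PF.nil)))))))) (PF.cons (PF.cons (PF.leaf (nat_lit 9114192) (nat_lit 2659449) (nat_lit 35366491) (nat_lit 8507282) [(nat_lit 0), (nat_lit 2659449), (nat_lit 5972046)]) (PF.cons (PF.leaf (nat_lit 9532420) (nat_lit 842333) (nat_lit 34737787) (nat_lit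 8431970) [(nat_lit 842333), (nat_lit 2652880), (nat_lit 5930319)]) (PF.cons (PF.leaf (nat_lit 9953342) (nat_lit 846145) (nat_lit 34113490) (nat_lit 8354431) [(nat_lit 846145), (nat_lit 2644571), (nat_lit 5886485)]) (PF.cons (PF.leaf (nat_lit 10375260) (nat_lit 848751) (nat_lit 33495770) (nat_lit 8275034) [(nat_lit 848751), (nat_lit 2634679), (nat_lit 5840798)]) (PF.cons (PF.leaf (nat_lit 10796912) (nat_lit 850308)
 (nat_lit 32886272) (nat_lit 8194112) [(nat_lit 850308), (nat_lit 2623355), (nat_lit 5793494)]) (PF.cons PF.nil PF.nil)))))) (PF.cons (PF.cons (PF.leaf (nat_lit 10022004) (nat_lit 2624887) (nat_lit 33476620) (nat_lit 8264770) [(nat_lit 0), (nat_lit 2624887), (nat_lit 5830919)]) (PF.cons (PF.leaf (nat_lit 10434305) (nat_lit 841880) (nat_lit 32881879) (nat_lit 8186099) [(nat_lit 841880), (nat_lit 2614504), (nat_lit 5785146)]) (PF.cons (PF.leaf (nat_lit 10847139) (nat_lit 843402) (nat_lit 32294150) (nat_lit 8105969) [(nat_lit 843402), (nat_lit 2602775), (nat_lit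 5737853)]) (PF.cons PF.nil PF.nil)))) (PF.cons (PF.cons (PF.leaf (nat_lit 10897282) (nat_lit 2581916) (nat_lit 31716720) (nat_lit 8018128) [(nat_lit 0), (nat_lit 2581916), (nat_lit 5682100)]) (PF.cons (PF.leaf (nat_lit 11300910) (nat_lit 836855) (nat_lit 31157918) (nat_lit 7937870) [(nat_lit 836855), (nat_lit 2568728), (nat_lit 5633751)]) PF.nil)) (PF.cons PF.nil (PF.cons PF.nil (PF.cons PF.nil PF.nil)))))))) (PF.cons (PF.cons (PF.cons (PF.leaf (nat_lit 8730168) (nat_lit 5914633) (nat_lit 35017584) (nat_lit 8432696) [(nat_lit 0), (nat_lit 0), (nat_lit 5914633)]) (PF.cons (PF.leaf (nat_lit 9134622) (nat_lit 822015) (nat_lit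
 34421584) (nat_lit 8361635) [(nat_lit 822015), (nat_lit 0), (nat_lit 5875894)]) (PF.cons (PF.leaf (nat_lit 9544120) (nat_lit 827562) (nat_lit 33826036) (nat_lit 8288060) [(nat_lit 827562), (nat_lit 0), (nat_lit 5834897)]) (PF.cons (PF.leaf (nat_lit 9956531) (nat_lit 831654) (nat_lit 33233828) (nat_lit 8212382) [(nat_lit 831654), (nat_lit 0), (nat_lit 5791909)]) (PF.cons (PF.leaf (nat_lit 10370269) (nat_lit 834506) (nat_lit 32647130) (nat_lit 8134962) [(nat_lit 834506), (nat_lit 0), (nat_lit 5747173)]) (PF.cons (PF.leaf (nat_lit 10784069) (nat_lit 836285) (nat_lit 32067591) (nat_lit 8056117) [(nat_lit 836285), (nat_lit 0), (nat_lit 5700919)]) (PF.cons PF.nil (PF.cons PF.nil PF.nil)))))))) (PF.cons (PF.cons (PF.leaf (nat_lit 9621371) (nat_lit 2592680) (nat_lit 33195224) (nat_lit 8199518) [(nat_lit 0), (nat_lit 2592680), (nat_lit 5780347)]) (PF.cons (PF.leaf (nat_lit 10023564) (nat_lit 824801) (nat_lit 32626060) (nat_lit 8124634) [(nat_lit 824801), (nat_lit 2584139), (nat_lit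 5737294)]) (PF.cons (PF.leaf (nat_lit 10428054) (nat_lit 827663) (nat_lit 32061026) (nat_lit 8048037) [(nat_lit 827663), (nat_lit 2574132), (nat_lit 5692572)]) (PF.cons (PF.leaf (nat_lit 10833283) (nat_lit
 829433) (nat_lit 31501999) (nat_lit 7970062) [(nat_lit 829433), (nat_lit 2562804), (nat_lit 5646411)]) (PF.cons PF.nil (PF.cons PF.nil PF.nil)))))) (PF.cons (PF.cons (PF.leaf (nat_lit 10486178) (nat_lit 2553902) (nat_lit 31488678) (nat_lit 7961280) [(nat_lit 0), (nat_lit 2553902), (nat_lit 5637762)]) (PF.cons (PF.leaf (nat_lit 10882478) (nat_lit 822338) (nat_lit 30950113) (nat_lit 7884361) [(nat_lit 822338), (nat_lit 2542304), (nat_lit 5591847)]) (PF.cons (PF.leaf (nat_lit 11279156) (nat_lit 823198) (nat_lit 30417844) (nat_lit 7806373) [(nat_lit 823198), (nat_lit 2529581), (nat_lit 5544758)]) (PF.cons PF.nil PF.nil)))) (PF.cons (PF.cons (PF.leaf (nat_lit 11320630) (nat_lit 2508721) (nat_lit 29898041) (nat_lit 7722253) [(nat_lit 0), (nat_lit 2508721), (nat_lit 5490588)])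 (PF.cons PF.nil PF.nil)) (PF.cons PF.nil (PF.cons PF.nil PF.nil)))))) (PF.cons (PF.cons (PF.cons (PF.leaf (nat_lit 10091260) (nat_lit 5591892) (nat_lit 31246983) (nat_lit 7902366) [(nat_lit 0), (nat_lit 0), (nat_lit 5591892)]) (PF.cons (PF.leaf (nat_lit 10478586) (nat_lit 806474) (nat_lit 30730530) (nat_lit 7829013) [(nat_lit 806474), (nat_lit 0), (nat_lit 5548558)]) (PF.cons (PF.leaf (nat_lit 10867932) (nat_lit
 808608) (nat_lit 30217840) (nat_lit 7754324) [(nat_lit 808608), (nat_lit 0), (nat_lit 5503885)]) (PF.cons (PF.leaf (nat_lit 11257834) (nat_lit 809744) (nat_lit 29710555) (nat_lit 7678604) [(nat_lit 809744), (nat_lit 0), (nat_lit 5458083)]) PF.nil)))) (PF.cons (PF.cons (PF.leaf (nat_lit 10917313) (nat_lit 2483179) (nat_lit 29701856) (nat_lit 7671129) [(nat_lit 0), (nat_lit 2483179), (nat_lit 5450529)]) (PF.cons (PF.leaf (nat_lit 11298897) (nat_lit 802576) (nat_lit 29212781) (nat_lit 7596659) [(nat_lit 802576), (nat_lit 2470844), (nat_lit 5405190)]) PF.nil)) (PF.cons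 PF.nil (PF.cons PF.nil PF.nil)))) (PF.cons (PF.cons (PF.cons (PF.leaf (nat_lit 11320056) (nat_lit 5270551) (nat_lit 28090180) (nat_lit 7395325) [(nat_lit 0), (nat_lit 0), (nat_lit 5270551)]) (PF.cons PF.nil PF.nil)) (PF.cons PF.nil PF.nil)) (PF.cons PF.nil (PF.cons PF.nil (PF.cons PF.nil PF.nil))))))))))

def p15_37_1_0 : pfC (piC [(nat_lit 33242365), (nat_lit 21715570), (nat_lit 14024239)] (nat_lit 11147418)) p15_37_1 (nat_lit 3) (nat_lit 0) (nat_lit 1) = true := by decide +kernel
def p15_37_1_1 : pfC (piC [(nat_lit 33242365), (nat_lit 21715570), (nat_lit 14024239)] (nat_lit 11147418)) p15_37_1 (nat_lit 3) (nat_lit 1) (nat_lit 2) = true := by decide +kernel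
def p15_37_1_2 : pfC (piC [(nat_lit 33242365), (nat_lit 21715570), (nat_lit 14024239)] (nat_lit 11147418)) p15_37_1 (nat_lit 3) (nat_lit 2) (nat_lit 3) = true := by decide +kernel
def p15_37_1_3 : pfC (piC [(nat_lit 33242365), (nat_lit 21715570), (nat_lit 14024239)] (nat_lit 11147418)) p15_37_1 (nat_lit 3) (nat_lit 3) (nat_lit 4) = true := by decide +kernel
def p15_37_1_4 : pfC (piC [(nat_lit 33242365), (nat_lit 21715570), (nat_lit 14024239)] (nat_lit 11147418)) p15_37_1 (nat_lit 3) (nat_lit 4) (nat_lit 5) = true := by decide +kernel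
def p15_37_1_5 : pfC (piC [(nat_lit 33242365), (nat_lit 21715570), (nat_lit 14024239)] (nat_lit 11147418)) p15_37_1 (nat_lit 3) (nat_lit 5) (nat_lit 6) = true := by decide +kernel
def p15_37_1_6 : pfC (piC [(nat_lit 33242365), (nat_lit 21715570), (nat_lit 14024239)] (nat_lit 11147418)) p15_37_1 (nat_lit 3) (nat_lit 6) (nat_lit 7) = true := by decide +kernel
def p15_37_1_7 : pfC (piC [(nat_lit 33242365), (nat_lit 21715570), (nat_lit 14024239)] (nat_lit 11147418)) p15_37_1 (nat_lit 3) (nat_lit 7) (nat_lit 8) = true := by decide +kernel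
def p15_37_1_8 : pfC (piC [(nat_lit 33242365), (nat_lit 21715570), (nat_lit 14024239)] (nat_lit 11147418)) p15_37_1 (nat_lit 3) (nat_lit 8) (nat_lit 9) = true := by decide +kernel
def p15_37_1_9 : pfC (piC [(nat_lit 33242365), (nat_lit 21715570), (nat_lit 14024239)] (nat_lit 11147418)) p15_37_1 (nat_lit 3) (nat_lit 9) (nat_lit 10) = true := by decide +kernel
def p15_37_1_10 : pfC (piC [(nat_lit 33242365), (nat_lit 21715570), (nat_lit 14024239)] (nat_lit 11147418)) p15_37_1 (nat_lit 3) (nat_lit 10) (nat_lit 11) = true := by decide +kernel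
def p15_37_1_11 : pfC (piC [(nat_lit 33242365), (nat_lit 21715570), (nat_lit 14024239)] (nat_lit 11147418)) p15_37_1 (nat_lit 3) (nat_lit 11) (nat_lit 12) = true := by decide +kernel
def p15_37_1_12 : pfC (piC [(nat_lit 33242365), (nat_lit 21715570), (nat_lit 14024239)] (nat_lit 11147418)) p15_37_1 (nat_lit 3) (nat_lit 12) (nat_lit 13) = true := by decide +kernel
def p15_37_1_13 : pfC (piC [(nat_lit 33242365), (nat_lit 21715570), (nat_lit 14024239)] (nat_lit 11147418)) p15_37_1 (nat_lit 3) (nat_lit 13) (nat_lit 14) = true := by decide +kernel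
def p15_37_1_14 : pfC (piC [(nat_lit 33242365), (nat_lit 21715570), (nat_lit 14024239)] (nat_lit 11147418)) p15_37_1 (nat_lit 3) (nat_lit 14) (nat_lit 15) = true := by decide +kernel
def p15_37_1_15 : pfC (piC [(nat_lit 33242365), (nat_lit 21715570), (nat_lit 14024239)] (nat_lit 11147418)) p15_37_1 (nat_lit 3) (nat_lit 15) (nat_lit 16) = true := by decide +kernel
def p15_37_1_16 : pfC (piC [(nat_lit 33242365), (nat_lit 21715570), (nat_lit 14024239)] (nat_lit 11147418)) p15_37_1 (nat_lit 3) (nat_lit 16) (nat_lit 17) = true := by decide +kernel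
def p15_37_1_17 : pfC (piC [(nat_lit 33242365), (nat_lit 21715570), (nat_lit 14024239)] (nat_lit 11147418)) p15_37_1 (nat_lit 3) (nat_lit 17) (nat_lit 18) = true := by decide +kernel
def p15_37_1_18 : pfC (piC [(nat_lit 33242365), (nat_lit 21715570), (nat_lit 14024239)] (nat_lit 11147418)) p15_37_1 (nat_lit 3) (nat_lit 18) (nat_lit 19) = true := by decide +kernel
def p15_37_1_19 : pfC (piC [(nat_lit 33242365), (nat_lit 21715570), (nat_lit 14024239)] (nat_lit 11147418)) p15_37_1 (nat_lit 3) (nat_lit 19) (nat_lit 20) = true := by decide +kernel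
def p15_37_1_20 : pfC (piC [(nat_lit 33242365), (nat_lit 21715570), (nat_lit 14024239)] (nat_lit 11147418)) p15_37_1 (nat_lit 3) (nat_lit 20) (nat_lit 21) = true := by decide +kernel
def p15_37_1_21 : pfC (piC [(nat_lit 33242365), (nat_lit 21715570), (nat_lit 14024239)] (nat_lit 11147418)) p15_37_1 (nat_lit 3) (nat_lit 21) (nat_lit 22) = true := by decide +kernel
def p15_37_1_22 : pfC (piC [(nat_lit 33242365), (nat_lit 21715570), (nat_lit 14024239)] (nat_lit 11147418)) p15_37_1 (nat_lit 3) (nat_lit 22) (nat_lit 23) = true := by decide +kernel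
def p15_37_1_23 : pfC (piC [(nat_lit 33242365), (nat_lit 21715570), (nat_lit 14024239)] (nat_lit 11147418)) p15_37_1 (nat_lit 3) (nat_lit 23) (nat_lit 24) = true := by decide +kernel
def p15_37_1_24 : pfC (piC [(nat_lit 33242365), (nat_lit 21715570), (nat_lit 14024239)] (nat_lit 11147418)) p15_37_1 (nat_lit 3) (nat_lit 24) (nat_lit 25) = true := by decide +kernel
def p15_37_1_25 : pfC (piC [(nat_lit 33242365), (nat_lit 21715570), (nat_lit 14024239)] (nat_lit 11147418)) p15_37_1 (nat_lit 3) (nat_lit 25) (nat_lit 26) = true := by decide +kernel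
def p15_37_1_26 : pfC (piC [(nat_lit 33242365), (nat_lit 21715570), (nat_lit 14024239)] (nat_lit 11147418)) p15_37_1 (nat_lit 3) (nat_lit 26) (nat_lit 27) = true := by decide +kernel
def p15_37_1_27 : pfC (piC [(nat_lit 33242365), (nat_lit 21715570), (nat_lit 14024239)] (nat_lit 11147418)) p15_37_1 (nat_lit 3) (nat_lit 27) (nat_lit 28) = true := by decide +kernel
def p15_37_1_28 : pfC (piC [(nat_lit 33242365), (nat_lit 21715570), (nat_lit 14024239)] (nat_lit 11147418)) p15_37_1 (nat_lit 3) (nat_lit 28) (nat_lit 29) = true := by decide +kernel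
def p15_37_1_29 : pfC (piC [(nat_lit 33242365), (nat_lit 21715570), (nat_lit 14024239)] (nat_lit 11147418)) p15_37_1 (nat_lit 3) (nat_lit 29) (nat_lit 30) = true := by decide +kernel
def p15_37_1_30 : pfC (piC [(nat_lit 33242365), (nat_lit 21715570), (nat_lit 14024239)] (nat_lit 11147418)) p15_37_1 (nat_lit 3) (nat_lit 30) (nat_lit 31) = true := by decide +kernel
def p15_37_1_31 : pfC (piC [(nat_lit 33242365), (nat_lit 21715570), (nat_lit 14024239)] (nat_lit 11147418)) p15_37_1 (nat_lit 3) (nat_lit 31) (nat_lit 32) = true := by decide +kernel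
def p15_37_1_32 : pfC (piC [(nat_lit 33242365), (nat_lit 21715570), (nat_lit 14024239)] (nat_lit 11147418)) p15_37_1 (nat_lit 3) (nat_lit 32) (nat_lit 33) = true := by decide +kernel
def p15_37_1_33 : pfC (piC [(nat_lit 33242365), (nat_lit 21715570), (nat_lit 14024239)] (nat_lit 11147418)) p15_37_1 (nat_lit 3) (nat_lit 33) (nat_lit 34) = true := by decide +kernel
def p15_37_1_34 : pfC (piC [(nat_lit 33242365), (nat_lit 21715570), (nat_lit 14024239)] (nat_lit 11147418)) p15_37_1 (nat_lit 3) (nat_lit 34) (nat_lit 35) = true := by decide +kernel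
def p15_37_1_35 : pfC (piC [(nat_lit 33242365), (nat_lit 21715570), (nat_lit 14024239)] (nat_lit 11147418)) p15_37_1 (nat_lit 3) (nat_lit 35) (nat_lit 36) = true := by decide +kernel
def p15_37_1_36 : pfC (piC [(nat_lit 33242365), (nat_lit 21715570), (nat_lit 14024239)] (nat_lit 11147418)) p15_37_1 (nat_lit 3) (nat_lit 36) (nat_lit 37) = true := by decide +kernel
def p15_37_1_37 : pfC (piC [(nat_lit 33242365), (nat_lit 21715570), (nat_lit 14024239)] (nat_lit 11147418)) p15_37_1 (nat_lit 3) (nat_lit 37) (nat_lit 38) = true := by decide +kernel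
def p15_37_1_38 : pfC (piC [(nat_lit 33242365), (nat_lit 21715570), (nat_lit 14024239)] (nat_lit 11147418)) p15_37_1 (nat_lit 3) (nat_lit 38) (nat_lit 39) = true := by decide +kernel
def p15_37_1_39 : pfC (piC [(nat_lit 33242365), (nat_lit 21715570), (nat_lit 14024239)] (nat_lit 11147418)) p15_37_1 (nat_lit 3) (nat_lit 39) (nat_lit 40) = true := by decide +kernel
def p15_37_1_40 : pfC (piC [(nat_lit 33242365), (nat_lit 21715570), (nat_lit 14024239)] (nat_lit 11147418)) p15_37_1 (nat_lit 3) (nat_lit 40) (nat_lit 41) = true := by decide +kernel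
def p15_37_1_41 : pfC (piC [(nat_lit 33242365), (nat_lit 21715570), (nat_lit 14024239)] (nat_lit 11147418)) p15_37_1 (nat_lit 3) (nat_lit 41) (nat_lit 42) = true := by decide +kernel
def p15_37_1_42 : pfC (piC [(nat_lit 33242365), (nat_lit 21715570), (nat_lit 14024239)] (nat_lit 11147418)) p15_37_1 (nat_lit 3) (nat_lit 42) (nat_lit 43) = true := by decide +kernel
def p15_37_1_43 : pfC (piC [(nat_lit 33242365), (nat_lit 21715570), (nat_lit 14024239)] (nat_lit 11147418)) p15_37_1 (nat_lit 3) (nat_lit 43) (nat_lit 44) = true := by decide +kernel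
def p15_37_1_44 : pfC (piC [(nat_lit 33242365), (nat_lit 21715570), (nat_lit 14024239)] (nat_lit 11147418)) p15_37_1 (nat_lit 3) (nat_lit 44) (nat_lit 45) = true := by decide +kernel
def p15_37_1_45 : pfC (piC [(nat_lit 33242365), (nat_lit 21715570), (nat_lit 14024239)] (nat_lit 11147418)) p15_37_1 (nat_lit 3) (nat_lit 45) (nat_lit 46) = true := by decide +kernel
def p15_37_1_46 : pfC (piC [(nat_lit 33242365), (nat_lit 21715570), (nat_lit 14024239)] (nat_lit 11147418)) p15_37_1 (nat_lit 3) (nat_lit 46) (nat_lit 47) = true := by decide +kernel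
def p15_37_1_47 : pfC (piC [(nat_lit 33242365), (nat_lit 21715570), (nat_lit 14024239)] (nat_lit 11147418)) p15_37_1 (nat_lit 3) (nat_lit 47) (nat_lit 48) = true := by decide +kernel
def p15_37_1_48 : pfC (piC [(nat_lit 33242365), (nat_lit 21715570), (nat_lit 14024239)] (nat_lit 11147418)) p15_37_1 (nat_lit 3) (nat_lit 48) (nat_lit 49) = true := by decide +kernel
def p15_37_1_49 : pfC (piC [(nat_lit 33242365), (nat_lit 21715570), (nat_lit 14024239)] (nat_lit 11147418)) p15_37_1 (nat_lit 3) (nat_lit 49) (nat_lit 50) = true := by decide +kernel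
def p15_37_1_50 : pfC (piC [(nat_lit 33242365), (nat_lit 21715570), (nat_lit 14024239)] (nat_lit 11147418)) p15_37_1 (nat_lit 3) (nat_lit 50) (nat_lit 51) = true := by decide +kernel
def p15_37_1_51 : pfC (piC [(nat_lit 33242365), (nat_lit 21715570), (nat_lit 14024239)] (nat_lit 11147418)) p15_37_1 (nat_lit 3) (nat_lit 51) (nat_lit 52) = true := by decide +kernel
def p15_37_1_52 : pfC (piC [(nat_lit 33242365), (nat_lit 21715570), (nat_lit 14024239)] (nat_lit 11147418)) p15_37_1 (nat_lit 3) (nat_lit 52) (nat_lit 53) = true := by decide +kernel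
def p15_37_1_53 : pfC (piC [(nat_lit 33242365), (nat_lit 21715570), (nat_lit 14024239)] (nat_lit 11147418)) p15_37_1 (nat_lit 3) (nat_lit 53) (nat_lit 54) = true := by decide +kernel
def p15_37_1_54 : pfC (piC [(nat_lit 33242365), (nat_lit 21715570), (nat_lit 14024239)] (nat_lit 11147418)) p15_37_1 (nat_lit 3) (nat_lit 54) (nat_lit 55) = true := by decide +kernel
def p15_37_1_55 : pfC (piC [(nat_lit 33242365), (nat_lit 21715570), (nat_lit 14024239)] (nat_lit 11147418)) p15_37_1 (nat_lit 3) (nat_lit 55) (nat_lit 56) = true := by decide +kernel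
def p15_37_1_56 : pfC (piC [(nat_lit 33242365), (nat_lit 21715570), (nat_lit 14024239)] (nat_lit 11147418)) p15_37_1 (nat_lit 3) (nat_lit 56) (nat_lit 57) = true := by decide +kernel
def p15_37_1_57 : pfC (piC [(nat_lit 33242365), (nat_lit 21715570), (nat_lit 14024239)] (nat_lit 11147418)) p15_37_1 (nat_lit 3) (nat_lit 57) (nat_lit 58) = true := by decide +kernel
def p15_37_1_58 : pfC (piC [(nat_lit 33242365), (nat_lit 21715570), (nat_lit 14024239)] (nat_lit 11147418)) p15_37_1 (nat_lit 3) (nat_lit 58) (nat_lit 59) = true := by decide +kernel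
def p15_37_1_59 : pfC (piC [(nat_lit 33242365), (nat_lit 21715570), (nat_lit 14024239)] (nat_lit 11147418)) p15_37_1 (nat_lit 3) (nat_lit 59) (nat_lit 60) = true := by decide +kernel
def p15_37_1_60 : pfC (piC [(nat_lit 33242365), (nat_lit 21715570), (nat_lit 14024239)] (nat_lit 11147418)) p15_37_1 (nat_lit 3) (nat_lit 60) (nat_lit 61) = true := by decide +kernel
def p15_37_1_61 : pfC (piC [(nat_lit 33242365), (nat_lit 21715570), (nat_lit 14024239)] (nat_lit 11147418)) p15_37_1 (nat_lit 3) (nat_lit 61) (nat_lit 62) = true := by decide +kernel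
def p15_37_1_62 : pfC (piC [(nat_lit 33242365), (nat_lit 21715570), (nat_lit 14024239)] (nat_lit 11147418)) p15_37_1 (nat_lit 3) (nat_lit 62) (nat_lit 63) = true := by decide +kernel
def p15_37_1_63 : pfC (piC [(nat_lit 33242365), (nat_lit 21715570), (nat_lit 14024239)] (nat_lit 11147418)) p15_37_1 (nat_lit 3) (nat_lit 63) (nat_lit 64) = true := by decide +kernel
def p15_37_1_64 : pfC (piC [(nat_lit 33242365), (nat_lit 21715570), (nat_lit 14024239)] (nat_lit 11147418)) p15_37_1 (nat_lit 3) (nat_lit 64) (nat_lit 65) = true := by decide +kernel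
def p15_37_1_65 : pfC (piC [(nat_lit 33242365), (nat_lit 21715570), (nat_lit 14024239)] (nat_lit 11147418)) p15_37_1 (nat_lit 3) (nat_lit 65) (nat_lit 66) = true := by decide +kernel
def p15_37_1_66 : pfC (piC [(nat_lit 33242365), (nat_lit 21715570), (nat_lit 14024239)] (nat_lit 11147418)) p15_37_1 (nat_lit 3) (nat_lit 66) (nat_lit 67) = true := by decide +kernel
def p15_37_1_67 : pfC (piC [(nat_lit 33242365), (nat_lit 21715570), (nat_lit 14024239)] (nat_lit 11147418)) p15_37_1 (nat_lit 3) (nat_lit 67) (nat_lit 68) = true := by decide +kernel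
def p15_37_1_68 : pfC (piC [(nat_lit 33242365), (nat_lit 21715570), (nat_lit 14024239)] (nat_lit 11147418)) p15_37_1 (nat_lit 3) (nat_lit 68) (nat_lit 69) = true := by decide +kernel
def p15_37_1_69 : pfC (piC [(nat_lit 33242365), (nat_lit 21715570), (nat_lit 14024239)] (nat_lit 11147418)) p15_37_1 (nat_lit 3) (nat_lit 69) (nat_lit 70) = true := by decide +kernel
def p15_37_1_70 : pfC (piC [(nat_lit 33242365), (nat_lit 21715570), (nat_lit 14024239)] (nat_lit 11147418)) p15_37_1 (nat_lit 3) (nat_lit 70) (nat_lit 71) = true := by decide +kernel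
def p15_37_1_71 : pfC (piC [(nat_lit 33242365), (nat_lit 21715570), (nat_lit 14024239)] (nat_lit 11147418)) p15_37_1 (nat_lit 3) (nat_lit 71) (nat_lit 72) = true := by decide +kernel
def p15_37_1_72 : pfC (piC [(nat_lit 33242365), (nat_lit 21715570), (nat_lit 14024239)] (nat_lit 11147418)) p15_37_1 (nat_lit 3) (nat_lit 72) (nat_lit 73) = true := by decide +kernel
def p15_37_1_73 : pfC (piC [(nat_lit 33242365), (nat_lit 21715570), (nat_lit 14024239)] (nat_lit 11147418)) p15_37_1 (nat_lit 3) (nat_lit 73) (nat_lit 74) = true := by decide +kernel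
def p15_37_1_74 : pfC (piC [(nat_lit 33242365), (nat_lit 21715570), (nat_lit 14024239)] (nat_lit 11147418)) p15_37_1 (nat_lit 3) (nat_lit 74) (nat_lit 75) = true := by decide +kernel
def p15_37_1_75 : pfC (piC [(nat_lit 33242365), (nat_lit 21715570), (nat_lit 14024239)] (nat_lit 11147418)) p15_37_1 (nat_lit 3) (nat_lit 75) (nat_lit 76) = true := by decide +kernel
def p15_37_1_76 : pfC (piC [(nat_lit 33242365), (nat_lit 21715570), (nat_lit 14024239)] (nat_lit 11147418)) p15_37_1 (nat_lit 3) (nat_lit 76) (nat_lit 77) = true := by decide +kernel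
def p15_37_1_77 : pfC (piC [(nat_lit 33242365), (nat_lit 21715570), (nat_lit 14024239)] (nat_lit 11147418)) p15_37_1 (nat_lit 3) (nat_lit 77) (nat_lit 78) = true := by decide +kernel
def p15_37_1_78 : pfC (piC [(nat_lit 33242365), (nat_lit 21715570), (nat_lit 14024239)] (nat_lit 11147418)) p15_37_1 (nat_lit 3) (nat_lit 78) (nat_lit 79) = true := by decide +kernel
def p15_37_1_79 : pfC (piC [(nat_lit 33242365), (nat_lit 21715570), (nat_lit 14024239)] (nat_lit 11147418)) p15_37_1 (nat_lit 3) (nat_lit 79) (nat_lit 80) = true := by decide +kernel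
def p15_37_1_80 : pfC (piC [(nat_lit 33242365), (nat_lit 21715570), (nat_lit 14024239)] (nat_lit 11147418)) p15_37_1 (nat_lit 3) (nat_lit 80) (nat_lit 81) = true := by decide +kernel
def p15_37_1_81 : pfC (piC [(nat_lit 33242365), (nat_lit 21715570), (nat_lit 14024239)] (nat_lit 11147418)) p15_37_1 (nat_lit 3) (nat_lit 81) (nat_lit 82) = true := by decide +kernel
def p15_37_1_82 : pfC (piC [(nat_lit 33242365), (nat_lit 21715570), (nat_lit 14024239)] (nat_lit 11147418)) p15_37_1 (nat_lit 3) (nat_lit 82) (nat_lit 83) = true := by decide +kernel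
def p15_37_1_83 : pfC (piC [(nat_lit 33242365), (nat_lit 21715570), (nat_lit 14024239)] (nat_lit 11147418)) p15_37_1 (nat_lit 3) (nat_lit 83) (nat_lit 84) = true := by decide +kernel
def p15_37_1_84 : pfC (piC [(nat_lit 33242365), (nat_lit 21715570), (nat_lit 14024239)] (nat_lit 11147418)) p15_37_1 (nat_lit 3) (nat_lit 84) (nat_lit 85) = true := by decide +kernel
def p15_37_1_85 : pfC (piC [(nat_lit 33242365), (nat_lit 21715570), (nat_lit 14024239)] (nat_lit 11147418)) p15_37_1 (nat_lit 3) (nat_lit 85) (nat_lit 86) = true := by decide +kernel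
def p15_37_1_86 : pfC (piC [(nat_lit 33242365), (nat_lit 21715570), (nat_lit 14024239)] (nat_lit 11147418)) p15_37_1 (nat_lit 3) (nat_lit 86) (nat_lit 87) = true := by decide +kernel
def p15_37_1_87 : pfC (piC [(nat_lit 33242365), (nat_lit 21715570), (nat_lit 14024239)] (nat_lit 11147418)) p15_37_1 (nat_lit 3) (nat_lit 87) (nat_lit 88) = true := by decide +kernel
def p15_37_1_88 : pfC (piC [(nat_lit 33242365), (nat_lit 21715570), (nat_lit 14024239)] (nat_lit 11147418)) p15_37_1 (nat_lit 3) (nat_lit 88) (nat_lit 89) = true := by decide +kernel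
def p15_37_1_89 : pfC (piC [(nat_lit 33242365), (nat_lit 21715570), (nat_lit 14024239)] (nat_lit 11147418)) p15_37_1 (nat_lit 3) (nat_lit 89) (nat_lit 90) = true := by decide +kernel
def p15_37_1_90 : pfC (piC [(nat_lit 33242365), (nat_lit 21715570), (nat_lit 14024239)] (nat_lit 11147418)) p15_37_1 (nat_lit 3) (nat_lit 90) (nat_lit 91) = true := by decide +kernel
def p15_37_1_91 : pfC (piC [(nat_lit 33242365), (nat_lit 21715570), (nat_lit 14024239)] (nat_lit 11147418)) p15_37_1 (nat_lit 3) (nat_lit 91) (nat_lit 92) = true := by decide +kernel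
def p15_37_1_92 : pfC (piC [(nat_lit 33242365), (nat_lit 21715570), (nat_lit 14024239)] (nat_lit 11147418)) p15_37_1 (nat_lit 3) (nat_lit 92) (nat_lit 93) = true := by decide +kernel
def p15_37_1_93 : pfC (piC [(nat_lit 33242365), (nat_lit 21715570), (nat_lit 14024239)] (nat_lit 11147418)) p15_37_1 (nat_lit 3) (nat_lit 93) (nat_lit 94) = true := by decide +kernel
def p15_37_1_94 : pfC (piC [(nat_lit 33242365), (nat_lit 21715570), (nat_lit 14024239)] (nat_lit 11147418)) p15_37_1 (nat_lit 3) (nat_lit 94) (nat_lit 95) = true := by decide +kernel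
def p15_37_1_95 : pfC (piC [(nat_lit 33242365), (nat_lit 21715570), (nat_lit 14024239)] (nat_lit 11147418)) p15_37_1 (nat_lit 3) (nat_lit 95) (nat_lit 96) = true := by decide +kernel
def p15_37_1_96 : pfC (piC [(nat_lit 33242365), (nat_lit 21715570), (nat_lit 14024239)] (nat_lit 11147418)) p15_37_1 (nat_lit 3) (nat_lit 96) (nat_lit 97) = true := by decide +kernel
def p15_37_1_97 : pfC (piC [(nat_lit 33242365), (nat_lit 21715570), (nat_lit 14024239)] (nat_lit 11147418)) p15_37_1 (nat_lit 3) (nat_lit 97) (nat_lit 98) = true := by decide +kernel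
def p15_37_1_98 : pfC (piC [(nat_lit 33242365), (nat_lit 21715570), (nat_lit 14024239)] (nat_lit 11147418)) p15_37_1 (nat_lit 3) (nat_lit 98) (nat_lit 99) = true := by decide +kernel
def p15_37_1_99 : pfC (piC [(nat_lit 33242365), (nat_lit 21715570), (nat_lit 14024239)] (nat_lit 11147418)) p15_37_1 (nat_lit 3) (nat_lit 99) (nat_lit 100) = true := by decide +kernel
def p15_37_1_100 : pfC (piC [(nat_lit 33242365), (nat_lit 21715570), (nat_lit 14024239)] (nat_lit 11147418)) p15_37_1 (nat_lit 3) (nat_lit 100) (nat_lit 101) = true := by decide +kernel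
def p15_37_1_101 : pfC (piC [(nat_lit 33242365), (nat_lit 21715570), (nat_lit 14024239)] (nat_lit 11147418)) p15_37_1 (nat_lit 3) (nat_lit 101) (nat_lit 102) = true := by decide +kernel
def p15_37_1_102 : pfC (piC [(nat_lit 33242365), (nat_lit 21715570), (nat_lit 14024239)] (nat_lit 11147418)) p15_37_1 (nat_lit 3) (nat_lit 102) (nat_lit 103) = true := by decide +kernel
def p15_37_1_103 : pfC (piC [(nat_lit 33242365), (nat_lit 21715570), (nat_lit 14024239)] (nat_lit 11147418)) p15_37_1 (nat_lit 3) (nat_lit 103) (nat_lit 104) = true := by decide +kernel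
def p15_37_1_104 : pfC (piC [(nat_lit 33242365), (nat_lit 21715570), (nat_lit 14024239)] (nat_lit 11147418)) p15_37_1 (nat_lit 3) (nat_lit 104) (nat_lit 105) = true := by decide +kernel
def p15_37_1_105 : pfC (piC [(nat_lit 33242365), (nat_lit 21715570), (nat_lit 14024239)] (nat_lit 11147418)) p15_37_1 (nat_lit 3) (nat_lit 105) (nat_lit 106) = true := by decide +kernel
def p15_37_1_106 : pfC (piC [(nat_lit 33242365), (nat_lit 21715570), (nat_lit 14024239)] (nat_lit 11147418)) p15_37_1 (nat_lit 3) (nat_lit 106) (nat_lit 107) = true := by decide +kernel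
def p15_37_1_107 : pfC (piC [(nat_lit 33242365), (nat_lit 21715570), (nat_lit 14024239)] (nat_lit 11147418)) p15_37_1 (nat_lit 3) (nat_lit 107) (nat_lit 108) = true := by decide +kernel
def p15_37_1_108 : pfC (piC [(nat_lit 33242365), (nat_lit 21715570), (nat_lit 14024239)] (nat_lit 11147418)) p15_37_1 (nat_lit 3) (nat_lit 108) (nat_lit 109) = true := by decide +kernel
def p15_37_1_109 : pfC (piC [(nat_lit 33242365), (nat_lit 21715570), (nat_lit 14024239)] (nat_lit 11147418)) p15_37_1 (nat_lit 3) (nat_lit 109) (nat_lit 110) = true := by decide +kernel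
def p15_37_1_110 : pfC (piC [(nat_lit 33242365), (nat_lit 21715570), (nat_lit 14024239)] (nat_lit 11147418)) p15_37_1 (nat_lit 3) (nat_lit 110) (nat_lit 111) = true := by decide +kernel
def p15_37_1_111 : pfC (piC [(nat_lit 33242365), (nat_lit 21715570), (nat_lit 14024239)] (nat_lit 11147418)) p15_37_1 (nat_lit 3) (nat_lit 111) (nat_lit 112) = true := by decide +kernel
def p15_37_1_112 : pfC (piC [(nat_lit 33242365), (nat_lit 21715570), (nat_lit 14024239)] (nat_lit 11147418)) p15_37_1 (nat_lit 3) (nat_lit 112) (nat_lit 113) = true := by decide +kernel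
def p15_37_1_113 : pfC (piC [(nat_lit 33242365), (nat_lit 21715570), (nat_lit 14024239)] (nat_lit 11147418)) p15_37_1 (nat_lit 3) (nat_lit 113) (nat_lit 114) = true := by decide +kernel
def p15_37_1_114 : pfC (piC [(nat_lit 33242365), (nat_lit 21715570), (nat_lit 14024239)] (nat_lit 11147418)) p15_37_1 (nat_lit 3) (nat_lit 114) (nat_lit 115) = true := by decide +kernel
def p15_37_1_115 : pfC (piC [(nat_lit 33242365), (nat_lit 21715570), (nat_lit 14024239)] (nat_lit 11147418)) p15_37_1 (nat_lit 3) (nat_lit 115) (nat_lit 116) = true := by decide +kernel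
def p15_37_1_116 : pfC (piC [(nat_lit 33242365), (nat_lit 21715570), (nat_lit 14024239)] (nat_lit 11147418)) p15_37_1 (nat_lit 3) (nat_lit 116) (nat_lit 117) = true := by decide +kernel
def p15_37_1_117 : pfC (piC [(nat_lit 33242365), (nat_lit 21715570), (nat_lit 14024239)] (nat_lit 11147418)) p15_37_1 (nat_lit 3) (nat_lit 117) (nat_lit 118) = true := by decide +kernel
def p15_37_1_118 : pfC (piC [(nat_lit 33242365), (nat_lit 21715570), (nat_lit 14024239)] (nat_lit 11147418)) p15_37_1 (nat_lit 3) (nat_lit 118) (nat_lit 119) = true := by decide +kernel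
def p15_37_1_119 : pfC (piC [(nat_lit 33242365), (nat_lit 21715570), (nat_lit 14024239)] (nat_lit 11147418)) p15_37_1 (nat_lit 3) (nat_lit 119) (nat_lit 120) = true := by decide +kernel
def p15_37_1_120 : pfC (piC [(nat_lit 33242365), (nat_lit 21715570), (nat_lit 14024239)] (nat_lit 11147418)) p15_37_1 (nat_lit 3) (nat_lit 120) (nat_lit 121) = true := by decide +kernel
def p15_37_1_121 : pfC (piC [(nat_lit 33242365), (nat_lit 21715570), (nat_lit 14024239)] (nat_lit 11147418)) p15_37_1 (nat_lit 3) (nat_lit 121) (nat_lit 122) = true := by decide +kernel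
def p15_37_1_122 : pfC (piC [(nat_lit 33242365), (nat_lit 21715570), (nat_lit 14024239)] (nat_lit 11147418)) p15_37_1 (nat_lit 3) (nat_lit 122) (nat_lit 123) = true := by decide +kernel
def p15_37_1_123 : pfC (piC [(nat_lit 33242365), (nat_lit 21715570), (nat_lit 14024239)] (nat_lit 11147418)) p15_37_1 (nat_lit 3) (nat_lit 123) (nat_lit 124) = true := by decide +kernel
def p15_37_1_124 : pfC (piC [(nat_lit 33242365), (nat_lit 21715570), (nat_lit 14024239)] (nat_lit 11147418)) p15_37_1 (nat_lit 3) (nat_lit 124) (nat_lit 125) = true := by decide +kernel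
def p15_37_1_125 : pfC (piC [(nat_lit 33242365), (nat_lit 21715570), (nat_lit 14024239)] (nat_lit 11147418)) p15_37_1 (nat_lit 3) (nat_lit 125) (nat_lit 126) = true := by decide +kernel
def p15_37_1_126 : pfC (piC [(nat_lit 33242365), (nat_lit 21715570), (nat_lit 14024239)] (nat_lit 11147418)) p15_37_1 (nat_lit 3) (nat_lit 126) (nat_lit 127) = true := by decide +kernel
def p15_37_1_127 : pfC (piC [(nat_lit 33242365), (nat_lit 21715570), (nat_lit 14024239)] (nat_lit 11147418)) p15_37_1 (nat_lit 3) (nat_lit 127) (nat_lit 128) = true := by decide +kernel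
def p15_37_1_128 : pfC (piC [(nat_lit 33242365), (nat_lit 21715570), (nat_lit 14024239)] (nat_lit 11147418)) p15_37_1 (nat_lit 3) (nat_lit 128) (nat_lit 129) = true := by decide +kernel
def p15_37_1_129 : pfC (piC [(nat_lit 33242365), (nat_lit 21715570), (nat_lit 14024239)] (nat_lit 11147418)) p15_37_1 (nat_lit 3) (nat_lit 129) (nat_lit 130) = true := by decide +kernel
def p15_37_1_130 : pfC (piC [(nat_lit 33242365), (nat_lit 21715570), (nat_lit 14024239)] (nat_lit 11147418)) p15_37_1 (nat_lit 3) (nat_lit 130) (nat_lit 131) = true := by decide +kernel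
def p15_37_1_131 : pfC (piC [(nat_lit 33242365), (nat_lit 21715570), (nat_lit 14024239)] (nat_lit 11147418)) p15_37_1 (nat_lit 3) (nat_lit 131) (nat_lit 132) = true := by decide +kernel
def p15_37_1_132 : pfC (piC [(nat_lit 33242365), (nat_lit 21715570), (nat_lit 14024239)] (nat_lit 11147418)) p15_37_1 (nat_lit 3) (nat_lit 132) (nat_lit 133) = true := by decide +kernel
def p15_37_1_133 : pfC (piC [(nat_lit 33242365), (nat_lit 21715570), (nat_lit 14024239)] (nat_lit 11147418)) p15_37_1 (nat_lit 3) (nat_lit 133) (nat_lit 134) = true := by decide +kernel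
def p15_37_1_134 : pfC (piC [(nat_lit 33242365), (nat_lit 21715570), (nat_lit 14024239)] (nat_lit 11147418)) p15_37_1 (nat_lit 3) (nat_lit 134) (nat_lit 135) = true := by decide +kernel
def p15_37_1_135 : pfC (piC [(nat_lit 33242365), (nat_lit 21715570), (nat_lit 14024239)] (nat_lit 11147418)) p15_37_1 (nat_lit 3) (nat_lit 135) (nat_lit 136) = true := by decide +kernel
def p15_37_1_136 : pfC (piC [(nat_lit 33242365), (nat_lit 21715570), (nat_lit 14024239)] (nat_lit 11147418)) p15_37_1 (nat_lit 3) (nat_lit 136) (nat_lit 137) = true := by decide +kernel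
def p15_37_1_137 : pfC (piC [(nat_lit 33242365), (nat_lit 21715570), (nat_lit 14024239)] (nat_lit 11147418)) p15_37_1 (nat_lit 3) (nat_lit 137) (nat_lit 138) = true := by decide +kernel
def p15_37_1_138 : pfC (piC [(nat_lit 33242365), (nat_lit 21715570), (nat_lit 14024239)] (nat_lit 11147418)) p15_37_1 (nat_lit 3) (nat_lit 138) (nat_lit 139) = true := by decide +kernel
def p15_37_1_139 : pfC (piC [(nat_lit 33242365), (nat_lit 21715570), (nat_lit 14024239)] (nat_lit 11147418)) p15_37_1 (nat_lit 3) (nat_lit 139) (nat_lit 140) = true := by decide +kernel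
def p15_37_1_140 : pfC (piC [(nat_lit 33242365), (nat_lit 21715570), (nat_lit 14024239)] (nat_lit 11147418)) p15_37_1 (nat_lit 3) (nat_lit 140) (nat_lit 141) = true := by decide +kernel
def p15_37_1_141 : pfC (piC [(nat_lit 33242365), (nat_lit 21715570), (nat_lit 14024239)] (nat_lit 11147418)) p15_37_1 (nat_lit 3) (nat_lit 141) (nat_lit 142) = true := by decide +kernel
def p15_37_1_142 : pfC (piC [(nat_lit 33242365), (nat_lit 21715570), (nat_lit 14024239)] (nat_lit 11147418)) p15_37_1 (nat_lit 3) (nat_lit 142) (nat_lit 143) = true := by decide +kernel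
def p15_37_1_143 : pfC (piC [(nat_lit 33242365), (nat_lit 21715570), (nat_lit 14024239)] (nat_lit 11147418)) p15_37_1 (nat_lit 3) (nat_lit 143) (nat_lit 144) = true := by decide +kernel
def p15_37_1_144 : pfC (piC [(nat_lit 33242365), (nat_lit 21715570), (nat_lit 14024239)] (nat_lit 11147418)) p15_37_1 (nat_lit 3) (nat_lit 144) (nat_lit 145) = true := by decide +kernel
def p15_37_1_145 : pfC (piC [(nat_lit 33242365), (nat_lit 21715570), (nat_lit 14024239)] (nat_lit 11147418)) p15_37_1 (nat_lit 3) (nat_lit 145) (nat_lit 146) = true := by decide +kernel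
def p15_37_1_146 : pfC (piC [(nat_lit 33242365), (nat_lit 21715570), (nat_lit 14024239)] (nat_lit 11147418)) p15_37_1 (nat_lit 3) (nat_lit 146) (nat_lit 147) = true := by decide +kernel
def p15_37_1_147 : pfC (piC [(nat_lit 33242365), (nat_lit 21715570), (nat_lit 14024239)] (nat_lit 11147418)) p15_37_1 (nat_lit 3) (nat_lit 147) (nat_lit 148) = true := by decide +kernel
def p15_37_1_148 : pfC (piC [(nat_lit 33242365), (nat_lit 21715570), (nat_lit 14024239)] (nat_lit 11147418)) p15_37_1 (nat_lit 3) (nat_lit 148) (nat_lit 149) = true := by decide +kernel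
def p15_37_1_149 : pfC (piC [(nat_lit 33242365), (nat_lit 21715570), (nat_lit 14024239)] (nat_lit 11147418)) p15_37_1 (nat_lit 3) (nat_lit 149) (nat_lit 150) = true := by decide +kernel
def p15_37_1_150 : pfC (piC [(nat_lit 33242365), (nat_lit 21715570), (nat_lit 14024239)] (nat_lit 11147418)) p15_37_1 (nat_lit 3) (nat_lit 150) (nat_lit 151) = true := by decide +kernel
def p15_37_1_151 : pfC (piC [(nat_lit 33242365), (nat_lit 21715570), (nat_lit 14024239)] (nat_lit 11147418)) p15_37_1 (nat_lit 3) (nat_lit 151) (nat_lit 152) = true := by decide +kernel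
def p15_37_1_152 : pfC (piC [(nat_lit 33242365), (nat_lit 21715570), (nat_lit 14024239)] (nat_lit 11147418)) p15_37_1 (nat_lit 3) (nat_lit 152) (nat_lit 153) = true := by decide +kernel
def p15_37_1_153 : pfC (piC [(nat_lit 33242365), (nat_lit 21715570), (nat_lit 14024239)] (nat_lit 11147418)) p15_37_1 (nat_lit 3) (nat_lit 153) (nat_lit 154) = true := by decide +kernel
def p15_37_1_154 : pfC (piC [(nat_lit 33242365), (nat_lit 21715570), (nat_lit 14024239)] (nat_lit 11147418)) p15_37_1 (nat_lit 3) (nat_lit 154) (nat_lit 155) = true := by decide +kernel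
def p15_37_1_155 : pfC (piC [(nat_lit 33242365), (nat_lit 21715570), (nat_lit 14024239)] (nat_lit 11147418)) p15_37_1 (nat_lit 3) (nat_lit 155) (nat_lit 156) = true := by decide +kernel
def p15_37_1_156 : pfC (piC [(nat_lit 33242365), (nat_lit 21715570), (nat_lit 14024239)] (nat_lit 11147418)) p15_37_1 (nat_lit 3) (nat_lit 156) (nat_lit 157) = true := by decide +kernel
def p15_37_1_157 : pfC (piC [(nat_lit 33242365), (nat_lit 21715570), (nat_lit 14024239)] (nat_lit 11147418)) p15_37_1 (nat_lit 3) (nat_lit 157) (nat_lit 158) = true := by decide +kernel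
def p15_37_1_158 : pfC (piC [(nat_lit 33242365), (nat_lit 21715570), (nat_lit 14024239)] (nat_lit 11147418)) p15_37_1 (nat_lit 3) (nat_lit 158) (nat_lit 159) = true := by decide +kernel
def p15_37_1_159 : pfC (piC [(nat_lit 33242365), (nat_lit 21715570), (nat_lit 14024239)] (nat_lit 11147418)) p15_37_1 (nat_lit 3) (nat_lit 159) (nat_lit 160) = true := by decide +kernel
def p15_37_1_160 : pfC (piC [(nat_lit 33242365), (nat_lit 21715570), (nat_lit 14024239)] (nat_lit 11147418)) p15_37_1 (nat_lit 3) (nat_lit 160) (nat_lit 161) = true := by decide +kernel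
def p15_37_1_161 : pfC (piC [(nat_lit 33242365), (nat_lit 21715570), (nat_lit 14024239)] (nat_lit 11147418)) p15_37_1 (nat_lit 3) (nat_lit 161) (nat_lit 162) = true := by decide +kernel
def p15_37_1_162 : pfC (piC [(nat_lit 33242365), (nat_lit 21715570), (nat_lit 14024239)] (nat_lit 11147418)) p15_37_1 (nat_lit 3) (nat_lit 162) (nat_lit 163) = true := by decide +kernel
def p15_37_1_163 : pfC (piC [(nat_lit 33242365), (nat_lit 21715570), (nat_lit 14024239)] (nat_lit 11147418)) p15_37_1 (nat_lit 3) (nat_lit 163) (nat_lit 164) = true := by decide +kernel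
def p15_37_1_164 : pfC (piC [(nat_lit 33242365), (nat_lit 21715570), (nat_lit 14024239)] (nat_lit 11147418)) p15_37_1 (nat_lit 3) (nat_lit 164) (nat_lit 165) = true := by decide +kernel
def p15_37_1_165 : pfC (piC [(nat_lit 33242365), (nat_lit 21715570), (nat_lit 14024239)] (nat_lit 11147418)) p15_37_1 (nat_lit 3) (nat_lit 165) (nat_lit 166) = true := by decide +kernel
def p15_37_1_166 : pfC (piC [(nat_lit 33242365), (nat_lit 21715570), (nat_lit 14024239)] (nat_lit 11147418)) p15_37_1 (nat_lit 3) (nat_lit 166) (nat_lit 167) = true := by decide +kernel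
def p15_37_1_167 : pfC (piC [(nat_lit 33242365), (nat_lit 21715570), (nat_lit 14024239)] (nat_lit 11147418)) p15_37_1 (nat_lit 3) (nat_lit 167) (nat_lit 168) = true := by decide +kernel
def p15_37_1_168 : pfC (piC [(nat_lit 33242365), (nat_lit 21715570), (nat_lit 14024239)] (nat_lit 11147418)) p15_37_1 (nat_lit 3) (nat_lit 168) (nat_lit 169) = true := by decide +kernel
def p15_37_1_169 : pfC (piC [(nat_lit 33242365), (nat_lit 21715570), (nat_lit 14024239)] (nat_lit 11147418)) p15_37_1 (nat_lit 3) (nat_lit 169) (nat_lit 170) = true := by decide +kernel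
def p15_37_1_170 : pfC (piC [(nat_lit 33242365), (nat_lit 21715570), (nat_lit 14024239)] (nat_lit 11147418)) p15_37_1 (nat_lit 3) (nat_lit 170) (nat_lit 171) = true := by decide +kernel
def p15_37_1_171 : pfC (piC [(nat_lit 33242365), (nat_lit 21715570), (nat_lit 14024239)] (nat_lit 11147418)) p15_37_1 (nat_lit 3) (nat_lit 171) (nat_lit 172) = true := by decide +kernel
def p15_37_1_172 : pfC (piC [(nat_lit 33242365), (nat_lit 21715570), (nat_lit 14024239)] (nat_lit 11147418)) p15_37_1 (nat_lit 3) (nat_lit 172) (nat_lit 173) = true := by decide +kernel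
def p15_37_1_173 : pfC (piC [(nat_lit 33242365), (nat_lit 21715570), (nat_lit 14024239)] (nat_lit 11147418)) p15_37_1 (nat_lit 3) (nat_lit 173) (nat_lit 174) = true := by decide +kernel
def p15_37_1_174 : pfC (piC [(nat_lit 33242365), (nat_lit 21715570), (nat_lit 14024239)] (nat_lit 11147418)) p15_37_1 (nat_lit 3) (nat_lit 174) (nat_lit 175) = true := by decide +kernel
def p15_37_1_175 : pfC (piC [(nat_lit 33242365), (nat_lit 21715570), (nat_lit 14024239)] (nat_lit 11147418)) p15_37_1 (nat_lit 3) (nat_lit 175) (nat_lit 176) = true := by decide +kernel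
def p15_37_1_176 : pfC (piC [(nat_lit 33242365), (nat_lit 21715570), (nat_lit 14024239)] (nat_lit 11147418)) p15_37_1 (nat_lit 3) (nat_lit 176) (nat_lit 177) = true := by decide +kernel
def p15_37_1_177 : pfC (piC [(nat_lit 33242365), (nat_lit 21715570), (nat_lit 14024239)] (nat_lit 11147418)) p15_37_1 (nat_lit 3) (nat_lit 177) (nat_lit 178) = true := by decide +kernel
def p15_37_1_178 : pfC (piC [(nat_lit 33242365), (nat_lit 21715570), (nat_lit 14024239)] (nat_lit 11147418)) p15_37_1 (nat_lit 3) (nat_lit 178) (nat_lit 179) = true := by decide +kernel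
def p15_37_1_179 : pfC (piC [(nat_lit 33242365), (nat_lit 21715570), (nat_lit 14024239)] (nat_lit 11147418)) p15_37_1 (nat_lit 3) (nat_lit 179) (nat_lit 180) = true := by decide +kernel
def p15_37_1_180 : pfC (piC [(nat_lit 33242365), (nat_lit 21715570), (nat_lit 14024239)] (nat_lit 11147418)) p15_37_1 (nat_lit 3) (nat_lit 180) (nat_lit 181) = true := by decide +kernel
def p15_37_1_181 : pfC (piC [(nat_lit 33242365), (nat_lit 21715570), (nat_lit 14024239)] (nat_lit 11147418)) p15_37_1 (nat_lit 3) (nat_lit 181) (nat_lit 182) = true := by decide +kernel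
def p15_37_1_182 : pfC (piC [(nat_lit 33242365), (nat_lit 21715570), (nat_lit 14024239)] (nat_lit 11147418)) p15_37_1 (nat_lit 3) (nat_lit 182) (nat_lit 183) = true := by decide +kernel
def p15_37_1_183 : pfC (piC [(nat_lit 33242365), (nat_lit 21715570), (nat_lit 14024239)] (nat_lit 11147418)) p15_37_1 (nat_lit 3) (nat_lit 183) (nat_lit 184) = true := by decide +kernel
def p15_37_1_184 : pfC (piC [(nat_lit 33242365), (nat_lit 21715570), (nat_lit 14024239)] (nat_lit 11147418)) p15_37_1 (nat_lit 3) (nat_lit 184) (nat_lit 185) = true := by decide +kernel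
def p15_37_1_185 : pfC (piC [(nat_lit 33242365), (nat_lit 21715570), (nat_lit 14024239)] (nat_lit 11147418)) p15_37_1 (nat_lit 3) (nat_lit 185) (nat_lit 186) = true := by decide +kernel
def p15_37_1_186 : pfC (piC [(nat_lit 33242365), (nat_lit 21715570), (nat_lit 14024239)] (nat_lit 11147418)) p15_37_1 (nat_lit 3) (nat_lit 186) (nat_lit 187) = true := by decide +kernel
def p15_37_1_187 : pfC (piC [(nat_lit 33242365), (nat_lit 21715570), (nat_lit 14024239)] (nat_lit 11147418)) p15_37_1 (nat_lit 3) (nat_lit 187) (nat_lit 188) = true := by decide +kernel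
def p15_37_1_188 : pfC (piC [(nat_lit 33242365), (nat_lit 21715570), (nat_lit 14024239)] (nat_lit 11147418)) p15_37_1 (nat_lit 3) (nat_lit 188) (nat_lit 189) = true := by decide +kernel
def p15_37_1_189 : pfC (piC [(nat_lit 33242365), (nat_lit 21715570), (nat_lit 14024239)] (nat_lit 11147418)) p15_37_1 (nat_lit 3) (nat_lit 189) (nat_lit 190) = true := by decide +kernel
def p15_37_1_190 : pfC (piC [(nat_lit 33242365), (nat_lit 21715570), (nat_lit 14024239)] (nat_lit 11147418)) p15_37_1 (nat_lit 3) (nat_lit 190) (nat_lit 191) = true := by decide +kernel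
def p15_37_1_191 : pfC (piC [(nat_lit 33242365), (nat_lit 21715570), (nat_lit 14024239)] (nat_lit 11147418)) p15_37_1 (nat_lit 3) (nat_lit 191) (nat_lit 192) = true := by decide +kernel
def p15_37_1_192 : pfC (piC [(nat_lit 33242365), (nat_lit 21715570), (nat_lit 14024239)] (nat_lit 11147418)) p15_37_1 (nat_lit 3) (nat_lit 192) (nat_lit 193) = true := by decide +kernel
def p15_37_1_193 : pfC (piC [(nat_lit 33242365), (nat_lit 21715570), (nat_lit 14024239)] (nat_lit 11147418)) p15_37_1 (nat_lit 3) (nat_lit 193) (nat_lit 194) = true := by decide +kernel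
def p15_37_1_194 : pfC (piC [(nat_lit 33242365), (nat_lit 21715570), (nat_lit 14024239)] (nat_lit 11147418)) p15_37_1 (nat_lit 3) (nat_lit 194) (nat_lit 195) = true := by decide +kernel
def p15_37_1_195 : pfC (piC [(nat_lit 33242365), (nat_lit 21715570), (nat_lit 14024239)] (nat_lit 11147418)) p15_37_1 (nat_lit 3) (nat_lit 195) (nat_lit 196) = true := by decide +kernel
def p15_37_1_196 : pfC (piC [(nat_lit 33242365), (nat_lit 21715570), (nat_lit 14024239)] (nat_lit 11147418)) p15_37_1 (nat_lit 3) (nat_lit 196) (nat_lit 197) = true := by decide +kernel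
def p15_37_1_197 : pfC (piC [(nat_lit 33242365), (nat_lit 21715570), (nat_lit 14024239)] (nat_lit 11147418)) p15_37_1 (nat_lit 3) (nat_lit 197) (nat_lit 198) = true := by decide +kernel
def p15_37_1_198 : pfC (piC [(nat_lit 33242365), (nat_lit 21715570), (nat_lit 14024239)] (nat_lit 11147418)) p15_37_1 (nat_lit 3) (nat_lit 198) (nat_lit 199) = true := by decide +kernel
def p15_37_1_199 : pfC (piC [(nat_lit 33242365), (nat_lit 21715570), (nat_lit 14024239)] (nat_lit 11147418)) p15_37_1 (nat_lit 3) (nat_lit 199) (nat_lit 200) = true := by decide +kernel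
def p15_37_1_200 : pfC (piC [(nat_lit 33242365), (nat_lit 21715570), (nat_lit 14024239)] (nat_lit 11147418)) p15_37_1 (nat_lit 3) (nat_lit 200) (nat_lit 201) = true := by decide +kernel
def p15_37_1_201 : pfC (piC [(nat_lit 33242365), (nat_lit 21715570), (nat_lit 14024239)] (nat_lit 11147418)) p15_37_1 (nat_lit 3) (nat_lit 201) (nat_lit 202) = true := by decide +kernel
def p15_37_1_202 : pfC (piC [(nat_lit 33242365), (nat_lit 21715570), (nat_lit 14024239)] (nat_lit 11147418)) p15_37_1 (nat_lit 3) (nat_lit 202) (nat_lit 203) = true := by decide +kernel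
def p15_37_1_203 : pfC (piC [(nat_lit 33242365), (nat_lit 21715570), (nat_lit 14024239)] (nat_lit 11147418)) p15_37_1 (nat_lit 3) (nat_lit 203) (nat_lit 204) = true := by decide +kernel
def p15_37_1_204 : pfC (piC [(nat_lit 33242365), (nat_lit 21715570), (nat_lit 14024239)] (nat_lit 11147418)) p15_37_1 (nat_lit 3) (nat_lit 204) (nat_lit 205) = true := by decide +kernel
def p15_37_1_205 : pfC (piC [(nat_lit 33242365), (nat_lit 21715570), (nat_lit 14024239)] (nat_lit 11147418)) p15_37_1 (nat_lit 3) (nat_lit 205) (nat_lit 206) = true := by decide +kernel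
def p15_37_1_206 : pfC (piC [(nat_lit 33242365), (nat_lit 21715570), (nat_lit 14024239)] (nat_lit 11147418)) p15_37_1 (nat_lit 3) (nat_lit 206) (nat_lit 207) = true := by decide +kernel
def p15_37_1_207 : pfC (piC [(nat_lit 33242365), (nat_lit 21715570), (nat_lit 14024239)] (nat_lit 11147418)) p15_37_1 (nat_lit 3) (nat_lit 207) (nat_lit 208) = true := by decide +kernel
def p15_37_1_208 : pfC (piC [(nat_lit 33242365), (nat_lit 21715570), (nat_lit 14024239)] (nat_lit 11147418)) p15_37_1 (nat_lit 3) (nat_lit 208) (nat_lit 209) = true := by decide +kernel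
def p15_37_1_209 : pfC (piC [(nat_lit 33242365), (nat_lit 21715570), (nat_lit 14024239)] (nat_lit 11147418)) p15_37_1 (nat_lit 3) (nat_lit 209) (nat_lit 210) = true := by decide +kernel
def p15_37_1_210 : pfC (piC [(nat_lit 33242365), (nat_lit 21715570), (nat_lit 14024239)] (nat_lit 11147418)) p15_37_1 (nat_lit 3) (nat_lit 210) (nat_lit 211) = true := by decide +kernel
def p15_37_1_211 : pfC (piC [(nat_lit 33242365), (nat_lit 21715570), (nat_lit 14024239)] (nat_lit 11147418)) p15_37_1 (nat_lit 3) (nat_lit 211) (nat_lit 212) = true := by decide +kernel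
def p15_37_1_212 : pfC (piC [(nat_lit 33242365), (nat_lit 21715570), (nat_lit 14024239)] (nat_lit 11147418)) p15_37_1 (nat_lit 3) (nat_lit 212) (nat_lit 213) = true := by decide +kernel
def p15_37_1_213 : pfC (piC [(nat_lit 33242365), (nat_lit 21715570), (nat_lit 14024239)] (nat_lit 11147418)) p15_37_1 (nat_lit 3) (nat_lit 213) (nat_lit 214) = true := by decide +kernel
def p15_37_1_214 : pfC (piC [(nat_lit 33242365), (nat_lit 21715570), (nat_lit 14024239)] (nat_lit 11147418)) p15_37_1 (nat_lit 3) (nat_lit 214) (nat_lit 215) = true := by decide +kernel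
def p15_37_1_215 : pfC (piC [(nat_lit 33242365), (nat_lit 21715570), (nat_lit 14024239)] (nat_lit 11147418)) p15_37_1 (nat_lit 3) (nat_lit 215) (nat_lit 216) = true := by decide +kernel
def p15_37_1_216 : pfC (piC [(nat_lit 33242365), (nat_lit 21715570), (nat_lit 14024239)] (nat_lit 11147418)) p15_37_1 (nat_lit 3) (nat_lit 216) (nat_lit 217) = true := by decide +kernel
def p15_37_1_217 : pfC (piC [(nat_lit 33242365), (nat_lit 21715570), (nat_lit 14024239)] (nat_lit 11147418)) p15_37_1 (nat_lit 3) (nat_lit 217) (nat_lit 218) = true := by decide +kernel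
def p15_37_1_218 : pfC (piC [(nat_lit 33242365), (nat_lit 21715570), (nat_lit 14024239)] (nat_lit 11147418)) p15_37_1 (nat_lit 3) (nat_lit 218) (nat_lit 219) = true := by decide +kernel
def p15_37_1_219 : pfC (piC [(nat_lit 33242365), (nat_lit 21715570), (nat_lit 14024239)] (nat_lit 11147418)) p15_37_1 (nat_lit 3) (nat_lit 219) (nat_lit 220) = true := by decide +kernel
def p15_37_1_220 : pfC (piC [(nat_lit 33242365), (nat_lit 21715570), (nat_lit 14024239)] (nat_lit 11147418)) p15_37_1 (nat_lit 3) (nat_lit 220) (nat_lit 221) = true := by decide +kernel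
def p15_37_1_221 : pfC (piC [(nat_lit 33242365), (nat_lit 21715570), (nat_lit 14024239)] (nat_lit 11147418)) p15_37_1 (nat_lit 3) (nat_lit 221) (nat_lit 222) = true := by decide +kernel
def p15_37_1_222 : pfC (piC [(nat_lit 33242365), (nat_lit 21715570), (nat_lit 14024239)] (nat_lit 11147418)) p15_37_1 (nat_lit 3) (nat_lit 222) (nat_lit 223) = true := by decide +kernel
def p15_37_1_223 : pfC (piC [(nat_lit 33242365), (nat_lit 21715570), (nat_lit 14024239)] (nat_lit 11147418)) p15_37_1 (nat_lit 3) (nat_lit 223) (nat_lit 224) = true := by decide +kernel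
def p15_37_1_224 : pfC (piC [(nat_lit 33242365), (nat_lit 21715570), (nat_lit 14024239)] (nat_lit 11147418)) p15_37_1 (nat_lit 3) (nat_lit 224) (nat_lit 225) = true := by decide +kernel
def p15_37_1_225 : pfC (piC [(nat_lit 33242365), (nat_lit 21715570), (nat_lit 14024239)] (nat_lit 11147418)) p15_37_1 (nat_lit 3) (nat_lit 225) (nat_lit 226) = true := by decide +kernel
def p15_37_1_226 : pfC (piC [(nat_lit 33242365), (nat_lit 21715570), (nat_lit 14024239)] (nat_lit 11147418)) p15_37_1 (nat_lit 3) (nat_lit 226) (nat_lit 227) = true := by decide +kernel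
def p15_37_1_227 : pfC (piC [(nat_lit 33242365), (nat_lit 21715570), (nat_lit 14024239)] (nat_lit 11147418)) p15_37_1 (nat_lit 3) (nat_lit 227) (nat_lit 228) = true := by decide +kernel
def p15_37_1_228 : pfC (piC [(nat_lit 33242365), (nat_lit 21715570), (nat_lit 14024239)] (nat_lit 11147418)) p15_37_1 (nat_lit 3) (nat_lit 228) (nat_lit 229) = true := by decide +kernel
def p15_37_1_229 : pfC (piC [(nat_lit 33242365), (nat_lit 21715570), (nat_lit 14024239)] (nat_lit 11147418)) p15_37_1 (nat_lit 3) (nat_lit 229) (nat_lit 230) = true := by decide +kernel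
theorem p15_37_1_T : PfS (PiF n15_37.reverse (nat_lit 11147418)) p15_37_1 (nat_lit 3) [] 0 :=
  pftab_of (los := [(nat_lit 33242365), (nat_lit 21715570), (nat_lit 14024239)]) (by decide +kernel) (hi := (nat_lit 230)) (PfP.trans (PfP.trans (PfP.trans (PfP.trans (PfP.trans (PfP.trans (PfP.trans (PfP.trans (PfP.trans (PfP.trans (PfP.trans (PfP.trans (PfP.trans (PfP.trans (PfP.trans (PfP.trans (PfP.trans (PfP.trans (PfP.trans (PfP.trans (PfP.trans (PfP.trans (PfP.trans (PfP.trans (PfP.trans (PfP.trans (PfP.trans (PfP.trans (PfP.trans (PfP.trans (PfP.trans (PfP.trans (PfP.trans (PfP.trans (PfP.trans (PfP.trans (PfP.trans (PfP.trans (PfP.trans (PfP.trans (PfP.trans (PfP.trans (PfP.trans (PfP.trans (PfP.trans (PfP.trans (PfP.trans (PfP.trans (PfP.trans (PfP.trans (PfP.trans (PfP.trans (PfP.trans (PfP.trans (PfP.trans (PfP.trans (PfP.trans (PfP.trans (PfP.trans (PfP.trans (PfP.trans (PfP.trans (PfP.trans (PfP.trans (PfP.trans (PfP.trans (PfP.trans (PfP.trans (PfP.trans (PfP.trans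 (PfP.trans (PfP.trans (PfP.trans (PfP.trans (PfP.trans (PfP.trans (PfP.trans (PfP.trans (PfP.trans (PfP.trans (PfP.trans (PfP.trans (PfP.trans (PfP.trans (PfP.trans (PfP.trans (PfP.trans (PfP.trans (PfP.trans (PfP.trans (PfP.trans (PfP.trans (PfP.trans (PfP.trans (PfP.trans (PfP.trans (PfP.trans (PfP.trans (PfP.trans (PfP.trans (PfP.trans (PfP.trans (PfP.trans (PfP.trans (PfP.trans (PfP.trans (PfP.trans (PfP.trans (PfP.trans
 (PfP.trans (PfP.trans (PfP.trans (PfP.trans (PfP.trans (PfP.trans (PfP.trans (PfP.trans (PfP.trans (PfP.trans (PfP.trans (PfP.trans (PfP.trans (PfP.trans (PfP.trans (PfP.trans (PfP.trans (PfP.trans (PfP.trans (PfP.trans (PfP.trans (PfP.trans (PfP.trans (PfP.trans (PfP.trans (PfP.trans (PfP.trans (PfP.trans (PfP.trans (PfP.trans (PfP.trans (PfP.trans (PfP.trans (PfP.trans (PfP.trans (PfP.trans (PfP.trans (PfP.trans (PfP.trans (PfP.trans (PfP.trans (PfP.trans (PfP.trans (PfP.trans (PfP.trans (PfP.trans (PfP.trans (PfP.trans (PfP.trans (PfP.trans (PfP.trans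 (PfP.trans (PfP.trans (PfP.trans (PfP.trans (PfP.trans (PfP.trans (PfP.trans (PfP.trans (PfP.trans (PfP.trans (PfP.trans (PfP.trans (PfP.trans (PfP.trans (PfP.trans (PfP.trans (PfP.trans (PfP.trans (PfP.trans (PfP.trans (PfP.trans (PfP.trans (PfP.trans (PfP.trans (PfP.trans (PfP.trans (PfP.trans (PfP.trans (PfP.trans (PfP.trans (PfP.trans (PfP.trans (PfP.trans (PfP.trans (PfP.trans (PfP.trans (PfP.trans (PfP.trans (PfP.trans (PfP.trans (PfP.trans (PfP.trans (PfP.trans (PfP.trans (PfP.trans (PfP.trans (PfP.trans (PfP.trans (PfP.trans (PfP.trans (PfP.trans (PfP.trans (PfP.trans (PfP.trans (PfP.trans (PfP.trans (PfP.trans (PfP.trans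
 (PfP.trans (PfP.trans (PfP.trans (PfP.trans (PfP.trans (PfP.trans (PfP.trans (PfP.trans (PfP.trans (PfP.trans (PfP.trans (pfC_sound p15_37_1_0) (pfC_sound p15_37_1_1)) (pfC_sound p15_37_1_2)) (pfC_sound p15_37_1_3)) (pfC_sound p15_37_1_4)) (pfC_sound p15_37_1_5)) (pfC_sound p15_37_1_6)) (pfC_sound p15_37_1_7)) (pfC_sound p15_37_1_8)) (pfC_sound p15_37_1_9)) (pfC_sound p15_37_1_10)) (pfC_sound p15_37_1_11)) (pfC_sound p15_37_1_12)) (pfC_sound p15_37_1_13)) (pfC_sound p15_37_1_14)) (pfC_sound p15_37_1_15)) (pfC_sound p15_37_1_16)) (pfC_sound p15_37_1_17)) (pfC_sound p15_37_1_18)) (pfC_sound p15_37_1_19)) (pfC_sound p15_37_1_20)) (pfC_sound p15_37_1_21)) (pfC_sound p15_37_1_22)) (pfC_sound p15_37_1_23)) (pfC_sound p15_37_1_24)) (pfC_sound p15_37_1_25)) (pfC_sound p15_37_1_26)) (pfC_sound p15_37_1_27)) (pfC_sound p15_37_1_28)) (pfC_sound p15_37_1_29)) (pfC_sound p15_37_1_30)) (pfC_sound p15_37_1_31)) (pfC_sound p15_37_1_32)) (pfC_sound p15_37_1_33)) (pfC_sound p15_37_1_34))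 (pfC_sound p15_37_1_35)) (pfC_sound p15_37_1_36)) (pfC_sound p15_37_1_37)) (pfC_sound p15_37_1_38)) (pfC_sound p15_37_1_39)) (pfC_sound p15_37_1_40)) (pfC_sound p15_37_1_41)) (pfC_sound p15_37_1_42)) (pfC_sound
 p15_37_1_43)) (pfC_sound p15_37_1_44)) (pfC_sound p15_37_1_45)) (pfC_sound p15_37_1_46)) (pfC_sound p15_37_1_47)) (pfC_sound p15_37_1_48)) (pfC_sound p15_37_1_49)) (pfC_sound p15_37_1_50)) (pfC_sound p15_37_1_51)) (pfC_sound p15_37_1_52)) (pfC_sound p15_37_1_53)) (pfC_sound p15_37_1_54)) (pfC_sound p15_37_1_55)) (pfC_sound p15_37_1_56)) (pfC_sound p15_37_1_57)) (pfC_sound p15_37_1_58)) (pfC_sound p15_37_1_59)) (pfC_sound p15_37_1_60)) (pfC_sound p15_37_1_61)) (pfC_sound p15_37_1_62)) (pfC_sound p15_37_1_63)) (pfC_sound p15_37_1_64)) (pfC_sound p15_37_1_65)) (pfC_sound p15_37_1_66)) (pfC_sound p15_37_1_67)) (pfC_sound p15_37_1_68)) (pfC_sound p15_37_1_69)) (pfC_sound p15_37_1_70)) (pfC_sound p15_37_1_71)) (pfC_sound p15_37_1_72)) (pfC_sound p15_37_1_73)) (pfC_sound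 p15_37_1_74)) (pfC_sound p15_37_1_75)) (pfC_sound p15_37_1_76)) (pfC_sound p15_37_1_77)) (pfC_sound p15_37_1_78)) (pfC_sound p15_37_1_79)) (pfC_sound p15_37_1_80)) (pfC_sound p15_37_1_81)) (pfC_sound p15_37_1_82)) (pfC_sound p15_37_1_83)) (pfC_sound p15_37_1_84)) (pfC_sound p15_37_1_85)) (pfC_sound p15_37_1_86)) (pfC_sound p15_37_1_87)) (pfC_sound p15_37_1_88)) (pfC_sound p15_37_1_89)) (pfC_sound p15_37_1_90)) (pfC_sound
 p15_37_1_91)) (pfC_sound p15_37_1_92)) (pfC_sound p15_37_1_93)) (pfC_sound p15_37_1_94)) (pfC_sound p15_37_1_95)) (pfC_sound p15_37_1_96)) (pfC_sound p15_37_1_97)) (pfC_sound p15_37_1_98)) (pfC_sound p15_37_1_99)) (pfC_sound p15_37_1_100)) (pfC_sound p15_37_1_101)) (pfC_sound p15_37_1_102)) (pfC_sound p15_37_1_103)) (pfC_sound p15_37_1_104)) (pfC_sound p15_37_1_105)) (pfC_sound p15_37_1_106)) (pfC_sound p15_37_1_107)) (pfC_sound p15_37_1_108)) (pfC_sound p15_37_1_109)) (pfC_sound p15_37_1_110)) (pfC_sound p15_37_1_111)) (pfC_sound p15_37_1_112)) (pfC_sound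 p15_37_1_113)) (pfC_sound p15_37_1_114)) (pfC_sound p15_37_1_115)) (pfC_sound p15_37_1_116)) (pfC_sound p15_37_1_117)) (pfC_sound p15_37_1_118)) (pfC_sound p15_37_1_119)) (pfC_sound p15_37_1_120)) (pfC_sound p15_37_1_121)) (pfC_sound p15_37_1_122)) (pfC_sound p15_37_1_123)) (pfC_sound p15_37_1_124)) (pfC_sound p15_37_1_125)) (pfC_sound p15_37_1_126)) (pfC_sound p15_37_1_127)) (pfC_sound p15_37_1_128)) (pfC_sound p15_37_1_129)) (pfC_sound p15_37_1_130)) (pfC_sound p15_37_1_131)) (pfC_sound p15_37_1_132)) (pfC_sound p15_37_1_133)) (pfC_sound p15_37_1_134)) (pfC_sound p15_37_1_135)) (pfC_sound p15_37_1_136)) (pfC_sound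
 p15_37_1_137)) (pfC_sound p15_37_1_138)) (pfC_sound p15_37_1_139)) (pfC_sound p15_37_1_140)) (pfC_sound p15_37_1_141)) (pfC_sound p15_37_1_142)) (pfC_sound p15_37_1_143)) (pfC_sound p15_37_1_144)) (pfC_sound p15_37_1_145)) (pfC_sound p15_37_1_146)) (pfC_sound p15_37_1_147)) (pfC_sound p15_37_1_148)) (pfC_sound p15_37_1_149)) (pfC_sound p15_37_1_150)) (pfC_sound p15_37_1_151)) (pfC_sound p15_37_1_152)) (pfC_sound p15_37_1_153)) (pfC_sound p15_37_1_154)) (pfC_sound p15_37_1_155)) (pfC_sound p15_37_1_156)) (pfC_sound p15_37_1_157)) (pfC_sound p15_37_1_158)) (pfC_sound p15_37_1_159)) (pfC_sound p15_37_1_160)) (pfC_sound p15_37_1_161)) (pfC_sound p15_37_1_162)) (pfC_sound p15_37_1_163)) (pfC_sound p15_37_1_164)) (pfC_sound p15_37_1_165)) (pfC_sound p15_37_1_166)) (pfC_sound p15_37_1_167)) (pfC_sound p15_37_1_168)) (pfC_sound p15_37_1_169)) (pfC_sound p15_37_1_170)) (pfC_sound p15_37_1_171)) (pfC_sound p15_37_1_172)) (pfC_sound p15_37_1_173)) (pfC_sound p15_37_1_174)) (pfC_sound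 p15_37_1_175)) (pfC_sound p15_37_1_176)) (pfC_sound p15_37_1_177)) (pfC_sound p15_37_1_178)) (pfC_sound p15_37_1_179)) (pfC_sound p15_37_1_180)) (pfC_sound p15_37_1_181)) (pfC_sound p15_37_1_182)) (pfC_sound
 p15_37_1_183)) (pfC_sound p15_37_1_184)) (pfC_sound p15_37_1_185)) (pfC_sound p15_37_1_186)) (pfC_sound p15_37_1_187)) (pfC_sound p15_37_1_188)) (pfC_sound p15_37_1_189)) (pfC_sound p15_37_1_190)) (pfC_sound p15_37_1_191)) (pfC_sound p15_37_1_192)) (pfC_sound p15_37_1_193)) (pfC_sound p15_37_1_194)) (pfC_sound p15_37_1_195)) (pfC_sound p15_37_1_196)) (pfC_sound p15_37_1_197)) (pfC_sound p15_37_1_198)) (pfC_sound p15_37_1_199)) (pfC_sound p15_37_1_200)) (pfC_sound p15_37_1_201)) (pfC_sound p15_37_1_202)) (pfC_sound p15_37_1_203)) (pfC_sound p15_37_1_204)) (pfC_sound p15_37_1_205)) (pfC_sound p15_37_1_206)) (pfC_sound p15_37_1_207)) (pfC_sound p15_37_1_208)) (pfC_sound p15_37_1_209)) (pfC_sound p15_37_1_210)) (pfC_sound p15_37_1_211)) (pfC_sound p15_37_1_212)) (pfC_sound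 p15_37_1_213)) (pfC_sound p15_37_1_214)) (pfC_sound p15_37_1_215)) (pfC_sound p15_37_1_216)) (pfC_sound p15_37_1_217)) (pfC_sound p15_37_1_218)) (pfC_sound p15_37_1_219)) (pfC_sound p15_37_1_220)) (pfC_sound p15_37_1_221)) (pfC_sound p15_37_1_222)) (pfC_sound p15_37_1_223)) (pfC_sound p15_37_1_224)) (pfC_sound p15_37_1_225)) (pfC_sound p15_37_1_226)) (pfC_sound p15_37_1_227)) (pfC_sound p15_37_1_228)) (pfC_sound
 p15_37_1_229)) (by decide +kernel)

def z15_37_1 : zOK yB15_37 (nat_lit 1) (nat_lit 400) (nat_lit 601) (nat_lit 11147418) (nat_lit 6772740) = true := by decide +kernel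
def g15_37_1 : gOK yB15_37.x P15_37 (nat_lit 1363) (q15_37 :: r15_37) (nat_lit 1) (nat_lit 400) (nat_lit 2) (nat_lit 601) (nat_lit 11000000) (nat_lit 17884250) (nat_lit 12712500) (nat_lit 12712500) [(nat_lit 800), (nat_lit 1600)] = true := by decide +kernel
def v15_37_1 : ivC P15_37 s15_37 w15_37 n15_37 (nat_lit 3) (nat_lit 4840) (nat_lit 1) (nat_lit 400) f192_0_400 f200_0_400 (nat_lit 2) (nat_lit 601) f192_0_601 f200_0_601 (nat_lit 11147418) (nat_lit 6772740) p15_37_1 = true := by decide +kernel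
end CB
end Pool.Agent.Lib.MP_6947cd_al
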