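import Pool.Agent.Lib.MP_6947cd_al.L.BoxDataB
import Pool.Agent.Lib.MP_6947cd_al.L.TeD1
import Pool.Agent.Lib.MP_6947cd_al.L.TeD2

/-!
Problem MP_6947cd_al (Chollet).  CASE B, rows `j`: boxes (generated).
-/

set_option autoImplicit false
set_option linter.defProp false
set_option maxRecDepth 20000

namespace Pool.Agent.Lib.MP_6947cd_al
namespace CB

open Ent Ent.Pk Fr Fr.WT CA

/-! box `yB15_38` -/

def P15_38 : BQ := ⟨(nat_lit 8), (nat_lit 4), (nat_lit 4), (nat_lit 2), (nat_lit 6), (nat_lit 980), (nat_lit 990), (nat_lit 90), [(nat_lit 180), (nat_lit 330), (nat_lit 650)], (nat_lit 154912000), (nat_lit 16000000), (nat_lit 16000000000)⟩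
def q15_38 : PC := ⟨(nat_lit 1000), [(nat_lit 90000), (nat_lit 180000), (nat_lit 330000), (nat_lit 650000)], (nat_lit 18446744078004518913000000), (nat_lit 15845088000000), (nat_lit 15845088000000), (nat_lit 10000000)⟩
def r15_38 : List PC := [⟨(nat_lit 1300), [(nat_lit 90488), (nat_lit 180248), (nat_lit 330974), (nat_lit 649769)], (nat_lit 18530621423324658544887264), (nat_lit 16303708880000), (nat_lit 16308545168000), (nat_lit 10054223)⟩, ⟨(nat_lit 4878), [(nat_lit 97301), (nat_lit 185494), (nat_lit 368139), (nat_lit 620000)], (nat_lit 19475389868035119648816412), (nat_lit 20475773428800), (nat_lit 20538290511680), (nat_lit 11155728)⟩, ⟨(nat_lit 1250), [(nat_lit 90385), (nat_lit 180014), (nat_lit 344625), (nat_lit 620000)], (nat_lit 18513576631799425637761587), (nat_lit 16227421400000), (nat_lit 16231451640000), (nat_lit 10443182)⟩]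
def s15_38 : List PB := [⟨(nat_lit 26000), (nat_lit 1447808000000), [(nat_lit 180248), (nat_lit 330974), (nat_lit 649769)], (nat_lit 18530621423324658544887264), (nat_lit 1142203615722624), (nat_lit 1142208452010624), (nat_lit 48000)⟩, ⟨(nat_lit 97560), (nat_lit 1556816000000), [(nat_lit 185494), (nat_lit 368139), (nat_lit 620000)], (nat_lit 19475389868035119648816412), (nat_lit 1146375680271424), (nat_lit 1146438197354304), (nat_lit 620480)⟩, ⟨(nat_lit 25000), (nat_lit 1446160000000), [(nat_lit 180014), (nat_lit 344625), (nat_lit 620000)], (nat_lit 18513576631799425637761587), (nat_lit 1142127328242624), (nat_lit 1142131358482624), (nat_lit 40000)⟩]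
def n15_38 : List KN := [⟨(nat_lit 650), (nat_lit 330), (nat_lit 13167684), (nat_lit 9942524)⟩, ⟨(nat_lit 330), (nat_lit 180), (nat_lit 20402210), (nat_lit 13167684)⟩, ⟨(nat_lit 180), (nat_lit 90), (nat_lit 30365544), (nat_lit 20402210)⟩]
def w15_38 : List ℕ := [(nat_lit 48000), (nat_lit 620480), (nat_lit 40000)]
def par15_38 : parC yB15_38 P15_38 s15_38 r15_38 q15_38 n15_38 w15_38 = true := by decide +kernel

def p15_38_0 : PF := (PF.cons (PF.cons (PF.cons (PF.leaf (nat_lit 1363880) (nat_lit 5205167) (nat_lit 61903645) (nat_lit 5205167) [(nat_lit 0), (nat_lit 0), (nat_lit 0)]) (PF.cons (PF.leaf (nat_lit 1743331) (nat_lit 745516) (nat_lit 61025107) (nat_lit 5338189) [(nat_lit 745516), (nat_lit 0), (nat_lit 0)]) (PF.cons (PF.leaf (nat_lit 2192200) (nat_lit 818558) (nat_lit 60000368) (nat_lit 5471327) [(nat_lit 818558), (nat_lit 0), (nat_lit 0)]) (PF.cons (PF.leaf (nat_lit 2697366) (nat_lit 883331) (nat_lit 58862566) (nat_lit 5596253) [(nat_lit 883331), (nat_lit 0), (nat_lit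 0)]) (PF.cons (PF.leaf (nat_lit 3248359) (nat_lit 940702) (nat_lit 57637849) (nat_lit 5708154) [(nat_lit 940702), (nat_lit 0), (nat_lit 0)]) (PF.cons (PF.leaf (nat_lit 3836101) (nat_lit 991232) (nat_lit 56348218) (nat_lit 5804432) [(nat_lit 991232), (nat_lit 0), (nat_lit 0)]) (PF.cons (PF.leaf (nat_lit 4452545) (nat_lit 1035374) (nat_lit 55012621) (nat_lit 5883944) [(nat_lit 1035374), (nat_lit 0), (nat_lit 0)]) (PF.cons (PF.leaf (nat_lit 5090507) (nat_lit 1073549) (nat_lit 53647448) (nat_lit 5946516) [(nat_lit 1073549), (nat_lit 0), (nat_lit 0)]) (PF.cons (PF.leaf (nat_lit 5743664) (nat_lit 1106175) (nat_lit 52266791) (nat_lit 5992618)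
 [(nat_lit 1106175), (nat_lit 0), (nat_lit 0)]) (PF.cons (PF.leaf (nat_lit 6406469) (nat_lit 1133670) (nat_lit 50882641) (nat_lit 6023133) [(nat_lit 1133670), (nat_lit 0), (nat_lit 0)]) (PF.cons (PF.leaf (nat_lit 7074118) (nat_lit 1156456) (nat_lit 49505057) (nat_lit 6039195) [(nat_lit 1156456), (nat_lit 0), (nat_lit 0)]) (PF.cons (PF.leaf (nat_lit 7742528) (nat_lit 1174944) (nat_lit 48142347) (nat_lit 6042071) [(nat_lit 1174944), (nat_lit 0), (nat_lit 0)]) (PF.cons (PF.leaf (nat_lit 8408248) (nat_lit 1189539) (nat_lit 46801248) (nat_lit 6033086) [(nat_lit 1189539), (nat_lit 0), (nat_lit 0)]) (PF.cons (PF.leaf (nat_lit 9068435) (nat_lit 1200626) (nat_lit 45487107) (nat_lit 6013554) [(nat_lit 1200626), (nat_lit 0), (nat_lit 0)]) (PF.cons (PF.leaf (nat_lit 9720748) (nat_lit 1208571) (nat_lit 44204058) (nat_lit 5984750) [(nat_lit 1208571), (nat_lit 0), (nat_lit 0)]) (PF.cons (PF.leaf (nat_lit 10363314) (nat_lit 1213716) (nat_lit 42955192) (nat_lit 5947875) [(nat_lit 1213716),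 (nat_lit 0), (nat_lit 0)]) (PF.cons (PF.leaf (nat_lit 10994682) (nat_lit 1216378) (nat_lit 41742712) (nat_lit 5904049) [(nat_lit 1216378), (nat_lit 0), (nat_lit 0)]) (PF.cons (PF.leaf (nat_lit 11613710) (nat_lit
 1216849) (nat_lit 40568080) (nat_lit 5854296) [(nat_lit 1216849), (nat_lit 0), (nat_lit 0)]) (PF.cons PF.nil (PF.cons PF.nil (PF.cons PF.nil (PF.cons PF.nil PF.nil)))))))))))))))))))))) (PF.cons (PF.cons (PF.leaf (nat_lit 2417525) (nat_lit 2847484) (nat_lit 58687565) (nat_lit 5573762) [(nat_lit 0), (nat_lit 2847484), (nat_lit 0)]) (PF.cons (PF.leaf (nat_lit 2898896) (nat_lit 900749) (nat_lit 57590020) (nat_lit 5675315) [(nat_lit 900749), (nat_lit 2942727), (nat_lit 0)]) (PF.cons (PF.leaf (nat_lit 3428375) (nat_lit 954913) (nat_lit 56402325) (nat_lit 5766861) [(nat_lit 954913), (nat_lit 3029798), (nat_lit 0)]) (PF.cons (PF.leaf (nat_lit 3995599) (nat_lit 1002333) (nat_lit 55149534) (nat_lit 5845377) [(nat_lit 1002333), (nat_lit 3106900), (nat_lit 0)]) (PF.cons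 (PF.leaf (nat_lit 4592049) (nat_lit 1043567) (nat_lit 53851794) (nat_lit 5909431) [(nat_lit 1043567), (nat_lit 3173316), (nat_lit 0)]) (PF.cons (PF.leaf (nat_lit 5210410) (nat_lit 1079084) (nat_lit 52525806) (nat_lit 5958621) [(nat_lit 1079084), (nat_lit 3228965), (nat_lit 0)]) (PF.cons (PF.leaf (nat_lit 5844352) (nat_lit 1109316) (nat_lit 51185545) (nat_lit 5993211) [(nat_lit 1109316), (nat_lit 3274154), (nat_lit 0)])
 (PF.cons (PF.leaf (nat_lit 6488401) (nat_lit 1134686) (nat_lit 49842677) (nat_lit 6013896) [(nat_lit 1134686), (nat_lit 3309430), (nat_lit 0)]) (PF.cons (PF.leaf (nat_lit 7137854) (nat_lit 1155604) (nat_lit 48506864) (nat_lit 6021632) [(nat_lit 1155604), (nat_lit 3335480), (nat_lit 0)]) (PF.cons (PF.leaf (nat_lit 7788727) (nat_lit 1172468) (nat_lit 47186008) (nat_lit 6017522) [(nat_lit 1172468), (nat_lit 3353064), (nat_lit 0)]) (PF.cons (PF.leaf (nat_lit 8437657) (nat_lit 1185664) (nat_lit 45886468) (nat_lit 6002733) [(nat_lit 1185664), (nat_lit 3362969),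 (nat_lit 0)]) (PF.cons (PF.leaf (nat_lit 9081840) (nat_lit 1195557) (nat_lit 44613262) (nat_lit 5978436) [(nat_lit 1195557), (nat_lit 3365979), (nat_lit 0)]) (PF.cons (PF.leaf (nat_lit 9719017) (nat_lit 1202494) (nat_lit 43370250) (nat_lit 5945774) [(nat_lit 1202494), (nat_lit 3362852), (nat_lit 0)]) (PF.cons (PF.leaf (nat_lit 10347329) (nat_lit 1206797) (nat_lit 42160305) (nat_lit 5905829) [(nat_lit 1206797), (nat_lit 3354307), (nat_lit 0)]) (PF.cons (PF.leaf (nat_lit 10965323) (nat_lit 1208765) (nat_lit 40985464) (nat_lit 5859613) [(nat_lit 1208765), (nat_lit 3341015), (nat_lit 0)]) (PF.cons (PF.leaf (nat_lit 11571871) (nat_lit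
 1208672) (nat_lit 39847069) (nat_lit 5808055) [(nat_lit 1208672), (nat_lit 3323594), (nat_lit 0)]) (PF.cons (PF.leaf (nat_lit 12166131) (nat_lit 1206769) (nat_lit 38745883) (nat_lit 5752002) [(nat_lit 1206769), (nat_lit 3302611), (nat_lit 0)]) (PF.cons PF.nil (PF.cons PF.nil (PF.cons PF.nil PF.nil)))))))))))))))))))) (PF.cons (PF.cons (PF.leaf (nat_lit 3609060) (nat_lit 3070073) (nat_lit 55155722) (nat_lit 5812944) [(nat_lit 0), (nat_lit 3070073), (nat_lit 0)]) (PF.cons (PF.leaf (nat_lit 4152945) (nat_lit 1010168) (nat_lit 53950660) (nat_lit 5875450) [(nat_lit 1010168), (nat_lit 3136266), (nat_lit 0)]) (PF.cons (PF.leaf (nat_lit 4727851) (nat_lit 1049065) (nat_lit 52698280) (nat_lit 5925664) [(nat_lit 1049065), (nat_lit 3193368), (nat_lit 0)]) (PF.cons (PF.leaf (nat_lit 5325791) (nat_lit 1082376) (nat_lit 51416704) (nat_lit 5962923) [(nat_lit 1082376), (nat_lit 3241027), (nat_lit 0)]) (PF.cons (PF.leaf (nat_lit 5940186) (nat_lit 1110589) (nat_lit 50120444) (nat_lit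 5987283) [(nat_lit 1110589), (nat_lit 3279363), (nat_lit 0)]) (PF.cons (PF.leaf (nat_lit 6565473) (nat_lit 1134144) (nat_lit 48821274) (nat_lit 5999259) [(nat_lit 1134144), (nat_lit 3308779), (nat_lit 0)]) (PF.cons
 (PF.leaf (nat_lit 7196941) (nat_lit 1153455) (nat_lit 47528755) (nat_lit 5999642) [(nat_lit 1153455), (nat_lit 3329839), (nat_lit 0)]) (PF.cons (PF.leaf (nat_lit 7830625) (nat_lit 1168917) (nat_lit 46250602) (nat_lit 5989382) [(nat_lit 1168917), (nat_lit 3343202), (nat_lit 0)]) (PF.cons (PF.leaf (nat_lit 8463187) (nat_lit 1180902) (nat_lit 44992961) (nat_lit 5969505) [(nat_lit 1180902), (nat_lit 3349561), (nat_lit 0)]) (PF.cons (PF.leaf (nat_lit 9091873) (nat_lit 1189763) (nat_lit 43760650) (nat_lit 5941054) [(nat_lit 1189763), (nat_lit 3349618), (nat_lit 0)]) (PF.cons (PF.leaf (nat_lit 9714405) (nat_lit 1195829) (nat_lit 42557354) (nat_lit 5905051) [(nat_lit 1195829), (nat_lit 3344057), (nat_lit 0)]) (PF.cons (PF.leaf (nat_lit 10328972) (nat_lit 1199406)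 (nat_lit 41385804) (nat_lit 5862472) [(nat_lit 1199406), (nat_lit 3333530), (nat_lit 0)]) (PF.cons (PF.leaf (nat_lit 10934097) (nat_lit 1200779) (nat_lit 40247933) (nat_lit 5814232) [(nat_lit 1200779), (nat_lit 3318648), (nat_lit 0)]) (PF.cons (PF.leaf (nat_lit 11528643) (nat_lit 1200205) (nat_lit 39145008) (nat_lit 5761175) [(nat_lit 1200205), (nat_lit 3299977), (nat_lit 0)]) (PF.cons (PF.leaf (nat_lit 12111751) (nat_lit
 1197923) (nat_lit 38077750) (nat_lit 5704069) [(nat_lit 1197923), (nat_lit 3278035), (nat_lit 0)]) (PF.cons PF.nil (PF.cons PF.nil (PF.cons PF.nil PF.nil)))))))))))))))))) (PF.cons (PF.cons (PF.leaf (nat_lit 4862717) (nat_lit 3208268) (nat_lit 51550482) (nat_lit 5933526) [(nat_lit 0), (nat_lit 3208268), (nat_lit 0)]) (PF.cons (PF.leaf (nat_lit 5438771) (nat_lit 1083488) (nat_lit 50319085) (nat_lit 5960171) [(nat_lit 1083488), (nat_lit 3248689), (nat_lit 0)]) (PF.cons (PF.leaf (nat_lit 6032898) (nat_lit 1110064) (nat_lit 49070655) (nat_lit 5975470)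 [(nat_lit 1110064), (nat_lit 3280852), (nat_lit 0)]) (PF.cons (PF.leaf (nat_lit 6639135) (nat_lit 1132116) (nat_lit 47817672) (nat_lit 5979760) [(nat_lit 1132116), (nat_lit 3305010), (nat_lit 0)]) (PF.cons (PF.leaf (nat_lit 7252613) (nat_lit 1150080) (nat_lit 46569981) (nat_lit 5973677) [(nat_lit 1150080), (nat_lit 3321611), (nat_lit 0)]) (PF.cons (PF.leaf (nat_lit 7869278) (nat_lit 1164355) (nat_lit 45335368) (nat_lit 5958031) [(nat_lit 1164355), (nat_lit 3331211), (nat_lit 0)]) (PF.cons (PF.leaf (nat_lit 8485774) (nat_lit 1175311) (nat_lit 44119953) (nat_lit 5933720) [(nat_lit 1175311), (nat_lit 3334422), (nat_lit 0)]) (PF.cons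
 (PF.leaf (nat_lit 9099316) (nat_lit 1183292) (nat_lit 42928488) (nat_lit 5901671) [(nat_lit 1183292), (nat_lit 3331867), (nat_lit 0)]) (PF.cons (PF.leaf (nat_lit 9707620) (nat_lit 1188617) (nat_lit 41764585) (nat_lit 5862798) [(nat_lit 1188617), (nat_lit 3324163), (nat_lit 0)]) (PF.cons (PF.leaf (nat_lit 10308851) (nat_lit 1191578) (nat_lit 40630914) (nat_lit 5817983) [(nat_lit 1191578), (nat_lit 3311902), (nat_lit 0)]) (PF.cons (PF.leaf (nat_lit 10901522) (nat_lit 1192448) (nat_lit 39529359) (nat_lit 5768052) [(nat_lit 1192448), (nat_lit 3295639), (nat_lit 0)]) (PF.cons (PF.leaf (nat_lit 11484474) (nat_lit 1191472) (nat_lit 38461161) (nat_lit 5713772) [(nat_lit 1191472), (nat_lit 3275894), (nat_lit 0)]) (PF.cons (PF.leaf (nat_lit 12056814) (nat_lit 1188876) (nat_lit 37427033) (nat_lit 5655843) [(nat_lit 1188876), (nat_lit 3253141), (nat_lit 0)]) (PF.cons PF.nil (PF.cons PF.nil (PF.cons PF.nil PF.nil)))))))))))))))) (PF.cons (PF.cons (PF.leaf (nat_lit 6124484) (nat_lit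 3278967) (nat_lit 48034636) (nat_lit 5958308) [(nat_lit 0), (nat_lit 3278967), (nat_lit 0)]) (PF.cons (PF.leaf (nat_lit 6710940) (nat_lit 1128643) (nat_lit 46830650) (nat_lit 5955856) [(nat_lit 1128643), (nat_lit
 3298415), (nat_lit 0)]) (PF.cons (PF.leaf (nat_lit 7306148) (nat_lit 1145523) (nat_lit 45629484) (nat_lit 5944125) [(nat_lit 1145523), (nat_lit 3311039), (nat_lit 0)]) (PF.cons (PF.leaf (nat_lit 7905775) (nat_lit 1158827) (nat_lit 44439337) (nat_lit 5923796) [(nat_lit 1158827), (nat_lit 3317299), (nat_lit 0)]) (PF.cons (PF.leaf (nat_lit 8506330) (nat_lit 1168933) (nat_lit 43266528) (nat_lit 5895652) [(nat_lit 1168933), (nat_lit 3317724), (nat_lit 0)]) (PF.cons (PF.leaf (nat_lit 9104961) (nat_lit 1176183) (nat_lit 42115897) (nat_lit 5860514) [(nat_lit 1176183), (nat_lit 3312870), (nat_lit 0)]) (PF.cons (PF.leaf (nat_lit 9699327) (nat_lit 1180891) (nat_lit 40991099) (nat_lit 5819204) [(nat_lit 1180891), (nat_lit 3303290), (nat_lit 0)]) (PF.cons (PF.leaf (nat_lit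 10287549) (nat_lit 1183342) (nat_lit 39894820) (nat_lit 5772514) [(nat_lit 1183342), (nat_lit 3289520), (nat_lit 0)]) (PF.cons (PF.leaf (nat_lit 10868104) (nat_lit 1183797) (nat_lit 38828961) (nat_lit 5721196) [(nat_lit 1183797), (nat_lit 3272069), (nat_lit 0)]) (PF.cons (PF.leaf (nat_lit 11439795) (nat_lit 1182493) (nat_lit 37794783) (nat_lit 5665946) [(nat_lit 1182493), (nat_lit 3251411), (nat_lit 0)]) (PF.cons (PF.leaf
 (nat_lit 12001690) (nat_lit 1179645) (nat_lit 36793023) (nat_lit 5607405) [(nat_lit 1179645), (nat_lit 3227982), (nat_lit 0)]) (PF.cons (PF.leaf (nat_lit 12553116) (nat_lit 1175448) (nat_lit 35824000) (nat_lit 5546152) [(nat_lit 1175448), (nat_lit 3202182), (nat_lit 0)]) (PF.cons PF.nil (PF.cons PF.nil PF.nil)))))))))))))) (PF.cons (PF.cons (PF.leaf (nat_lit 7359010) (nat_lit 3298334) (nat_lit 44705831) (nat_lit 5911309) [(nat_lit 0), (nat_lit 3298334), (nat_lit 0)]) (PF.cons (PF.leaf (nat_lit 7941246) (nat_lit 1152356) (nat_lit 43561296) (nat_lit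 5886952) [(nat_lit 1152356), (nat_lit 3301641), (nat_lit 0)]) (PF.cons (PF.leaf (nat_lit 8525805) (nat_lit 1161793) (nat_lit 42431607) (nat_lit 5855532) [(nat_lit 1161793), (nat_lit 3299617), (nat_lit 0)]) (PF.cons (PF.leaf (nat_lit 9109603) (nat_lit 1168462) (nat_lit 41321893) (nat_lit 5817778) [(nat_lit 1168462), (nat_lit 3292750), (nat_lit 0)]) (PF.cons (PF.leaf (nat_lit 9690203) (nat_lit 1172676) (nat_lit 40235980) (nat_lit 5774427) [(nat_lit 1172676), (nat_lit 3281539), (nat_lit 0)]) (PF.cons (PF.leaf (nat_lit 10265637) (nat_lit 1174718) (nat_lit 39176667) (nat_lit 5726198) [(nat_lit 1174718), (nat_lit 3266470), (nat_lit 0)])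
 (PF.cons (PF.leaf (nat_lit 10834328) (nat_lit 1174844) (nat_lit 38145937) (nat_lit 5673771) [(nat_lit 1174844), (nat_lit 3248007), (nat_lit 0)]) (PF.cons (PF.leaf (nat_lit 11395023) (nat_lit 1173283) (nat_lit 37145118) (nat_lit 5617784) [(nat_lit 1173283), (nat_lit 3226585), (nat_lit 0)]) (PF.cons (PF.leaf (nat_lit 11946747) (nat_lit 1170243) (nat_lit 36175010) (nat_lit 5558822) [(nat_lit 1170243), (nat_lit 3202605), (nat_lit 0)]) (PF.cons (PF.leaf (nat_lit 12488766) (nat_lit 1165912) (nat_lit 35235993) (nat_lit 5497418) [(nat_lit 1165912), (nat_lit 3176437), (nat_lit 0)]) (PF.cons PF.nil (PF.cons PF.nil PF.nil)))))))))))) (PF.cons (PF.cons (PF.leaf (nat_lit 8545268) (nat_lit 3280225) (nat_lit 41613912) (nat_lit 5813549) [(nat_lit 0), (nat_lit 3280225), (nat_lit 0)]) (PF.cons (PF.leaf (nat_lit 9114076) (nat_lit 1160141) (nat_lit 40545363) (nat_lit 5773621) [(nat_lit 1160141), (nat_lit 3271614), (nat_lit 0)]) (PF.cons (PF.leaf (nat_lit 9680936) (nat_lit 1163985) (nat_lit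 39498232) (nat_lit 5728602) [(nat_lit 1163985), (nat_lit 3259000), (nat_lit 0)]) (PF.cons (PF.leaf (nat_lit 10243697) (nat_lit 1165721) (nat_lit 38475548) (nat_lit 5679143) [(nat_lit 1165721), (nat_lit 3242825),
 (nat_lit 0)]) (PF.cons (PF.leaf (nat_lit 10800685) (nat_lit 1165602) (nat_lit 37479452) (nat_lit 5625867) [(nat_lit 1165602), (nat_lit 3223513), (nat_lit 0)]) (PF.cons (PF.leaf (nat_lit 11350571) (nat_lit 1163854) (nat_lit 36511395) (nat_lit 5569358) [(nat_lit 1163854), (nat_lit 3201464), (nat_lit 0)]) (PF.cons (PF.leaf (nat_lit 11892325) (nat_lit 1160680) (nat_lit 35572279) (nat_lit 5510152) [(nat_lit 1160680), (nat_lit 3177049), (nat_lit 0)]) (PF.cons (PF.leaf (nat_lit 12425138) (nat_lit 1156263) (nat_lit 34662574) (nat_lit 5448740) [(nat_lit 1156263), (nat_lit 3150608), (nat_lit 0)]) (PF.cons PF.nil (PF.cons PF.nil PF.nil)))))))))) (PF.cons (PF.cons (PF.leaf (nat_lit 9672319) (nat_lit 3235746) (nat_lit 38776755) (nat_lit 5681834) [(nat_lit 0), (nat_lit 3235746),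 (nat_lit 0)]) (PF.cons (PF.leaf (nat_lit 10222328) (nat_lit 1156356) (nat_lit 37790491) (nat_lit 5631438) [(nat_lit 1156356), (nat_lit 3218646), (nat_lit 0)]) (PF.cons (PF.leaf (nat_lit 10767672) (nat_lit 1156076) (nat_lit 36828634) (nat_lit 5577556) [(nat_lit 1156076), (nat_lit 3198638), (nat_lit 0)]) (PF.cons (PF.leaf (nat_lit 11306857) (nat_lit 1154211) (nat_lit 35892822) (nat_lit 5520724) [(nat_lit 1154211),
 (nat_lit 3176090), (nat_lit 0)]) (PF.cons (PF.leaf (nat_lit 11838768) (nat_lit 1150961) (nat_lit 34984106) (nat_lit 5461439) [(nat_lit 1150961), (nat_lit 3151345), (nat_lit 0)]) (PF.cons (PF.leaf (nat_lit 12362523) (nat_lit 1146505) (nat_lit 34103076) (nat_lit 5400155) [(nat_lit 1146505), (nat_lit 3124721), (nat_lit 0)]) (PF.cons (PF.leaf (nat_lit 12877473) (nat_lit 1141003) (nat_lit 33249965) (nat_lit 5337282) [(nat_lit 1141003), (nat_lit 3096506), (nat_lit 0)]) (PF.cons PF.nil PF.nil)))))))) (PF.cons (PF.cons (PF.leaf (nat_lit 10735875) (nat_lit 3173420)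 (nat_lit 36192556) (nat_lit 5528891) [(nat_lit 0), (nat_lit 3173420), (nat_lit 0)]) (PF.cons (PF.leaf (nat_lit 11264310) (nat_lit 1144355) (nat_lit 35288575) (nat_lit 5471927) [(nat_lit 1144355), (nat_lit 3150494), (nat_lit 0)]) (PF.cons (PF.leaf (nat_lit 11786433) (nat_lit 1141086) (nat_lit 34409749) (nat_lit 5412719) [(nat_lit 1141086), (nat_lit 3125521), (nat_lit 0)]) (PF.cons (PF.leaf (nat_lit 12301222) (nat_lit 1136640) (nat_lit 33556828) (nat_lit 5351689) [(nat_lit 1136640), (nat_lit 3098796), (nat_lit 0)]) (PF.cons (PF.leaf (nat_lit 12807942) (nat_lit 1131172) (nat_lit 32730177) (nat_lit 5289219) [(nat_lit 1131172),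
 (nat_lit 3070590), (nat_lit 0)]) (PF.cons PF.nil PF.nil)))))) (PF.cons (PF.cons (PF.leaf (nat_lit 11735759) (nat_lit 3099595) (nat_lit 33848440) (nat_lit 5364014) [(nat_lit 0), (nat_lit 3099595), (nat_lit 0)]) (PF.cons (PF.leaf (nat_lit 12241531) (nat_lit 1126664) (nat_lit 33023142) (nat_lit 5303358) [(nat_lit 1126664), (nat_lit 3072849), (nat_lit 0)]) (PF.cons (PF.leaf (nat_lit 12740074) (nat_lit 1121271) (nat_lit 32222421) (nat_lit 5241390) [(nat_lit 1121271), (nat_lit 3044717), (nat_lit 0)]) (PF.cons PF.nil PF.nil)))) (PF.cons (PF.cons (PF.leaf (nat_lit 12674197) (nat_lit 3018894) (nat_lit 31726066) (nat_lit 5193798) [(nat_lit 0), (nat_lit 3018894), (nat_lit 0)]) (PF.cons (PF.leaf (nat_lit 13157276) (nat_lit 1105158) (nat_lit 30974010) (nat_lit 5131519) [(nat_lit 1105158), (nat_lit 2989812), (nat_lit 0)]) PF.nil)) (PF.cons PF.nil (PF.cons PF.nil (PF.cons PF.nil (PF.cons PF.nil PF.nil))))))))))))))) (PF.cons (PF.cons (PF.cons (PF.leaf (nat_lit 3197395) (nat_lit 5725080)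 (nat_lit 54884331) (nat_lit 5725080) [(nat_lit 0), (nat_lit 0), (nat_lit 6499401)]) (PF.cons (PF.leaf (nat_lit 3683208) (nat_lit 950173) (nat_lit 53812046) (nat_lit 5788654) [(nat_lit 950173), (nat_lit 0),
 (nat_lit 6557937)]) (PF.cons (PF.leaf (nat_lit 4210764) (nat_lit 996249) (nat_lit 52666917) (nat_lit 5842889) [(nat_lit 996249), (nat_lit 0), (nat_lit 6606505)]) (PF.cons (PF.leaf (nat_lit 4769872) (nat_lit 1035553) (nat_lit 51472929) (nat_lit 5885968) [(nat_lit 1035553), (nat_lit 0), (nat_lit 6643252)]) (PF.cons (PF.leaf (nat_lit 5352552) (nat_lit 1068939) (nat_lit 50248403) (nat_lit 5917189) [(nat_lit 1068939), (nat_lit 0), (nat_lit 6667463)]) (PF.cons (PF.leaf (nat_lit 5952217) (nat_lit 1097054) (nat_lit 49007847) (nat_lit 5936545) [(nat_lit 1097054), (nat_lit 0), (nat_lit 6679149)]) (PF.cons (PF.leaf (nat_lit 6563355) (nat_lit 1120439) (nat_lit 47762929) (nat_lit 5944469) [(nat_lit 1120439), (nat_lit 0), (nat_lit 6678780)]) (PF.cons (PF.leaf (nat_lit 7181297)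 (nat_lit 1139567) (nat_lit 46523063) (nat_lit 5941663) [(nat_lit 1139567), (nat_lit 0), (nat_lit 6667117)]) (PF.cons (PF.leaf (nat_lit 7802118) (nat_lit 1154866) (nat_lit 45295811) (nat_lit 5928985) [(nat_lit 1154866), (nat_lit 0), (nat_lit 6645083)]) (PF.cons (PF.leaf (nat_lit 8422545) (nat_lit 1166730) (nat_lit 44087187) (nat_lit 5907368) [(nat_lit 1166730), (nat_lit 0), (nat_lit 6613685)]) (PF.cons (PF.leaf (nat_lit
 9039820) (nat_lit 1175518) (nat_lit 42901902) (nat_lit 5877769) [(nat_lit 1175518), (nat_lit 0), (nat_lit 6573951)]) (PF.cons (PF.leaf (nat_lit 9651702) (nat_lit 1181565) (nat_lit 41743570) (nat_lit 5841127) [(nat_lit 1181565), (nat_lit 0), (nat_lit 6526892)]) (PF.cons (PF.leaf (nat_lit 10256368) (nat_lit 1185176) (nat_lit 40614880) (nat_lit 5798342) [(nat_lit 1185176), (nat_lit 0), (nat_lit 6473477)]) (PF.cons (PF.leaf (nat_lit 10852334) (nat_lit 1186629) (nat_lit 39517754) (nat_lit 5750261) [(nat_lit 1186629), (nat_lit 0), (nat_lit 6414614)]) (PF.cons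 (PF.leaf (nat_lit 11438465) (nat_lit 1186180) (nat_lit 38453474) (nat_lit 5697666) [(nat_lit 1186180), (nat_lit 0), (nat_lit 6351143)]) (PF.cons (PF.leaf (nat_lit 12013870) (nat_lit 1184060) (nat_lit 37422796) (nat_lit 5641273) [(nat_lit 1184060), (nat_lit 0), (nat_lit 6283830)]) (PF.cons PF.nil (PF.cons PF.nil (PF.cons PF.nil (PF.cons PF.nil PF.nil)))))))))))))))))))) (PF.cons (PF.cons (PF.leaf (nat_lit 4364280) (nat_lit 3135007) (nat_lit 51501845) (nat_lit 5856739) [(nat_lit 0), (nat_lit 3135007), (nat_lit 6615220)]) (PF.cons (PF.leaf (nat_lit 4899487) (nat_lit 1037025) (nat_lit 50361552) (nat_lit 5888673) [(nat_lit 1037025),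
 (nat_lit 3181160), (nat_lit 6640401)]) (PF.cons (PF.leaf (nat_lit 5460722) (nat_lit 1068957) (nat_lit 49186501) (nat_lit 5910340) [(nat_lit 1068957), (nat_lit 3219388), (nat_lit 6654667)]) (PF.cons (PF.leaf (nat_lit 6040592) (nat_lit 1095655) (nat_lit 47992810) (nat_lit 5921537) [(nat_lit 1095655), (nat_lit 3249648), (nat_lit 6657851)]) (PF.cons (PF.leaf (nat_lit 6633207) (nat_lit 1117719) (nat_lit 46792905) (nat_lit 5922539) [(nat_lit 1117719), (nat_lit 3272212), (nat_lit 6650275)]) (PF.cons (PF.leaf (nat_lit 7233718) (nat_lit 1135654) (nat_lit 45596535) (nat_lit 5913911) [(nat_lit 1135654), (nat_lit 3287530), (nat_lit 6632564)]) (PF.cons (PF.leaf (nat_lit 7838100) (nat_lit 1149896) (nat_lit 44411380) (nat_lit 5896386) [(nat_lit 1149896), (nat_lit 3296148), (nat_lit 6605516)]) (PF.cons (PF.leaf (nat_lit 8443012) (nat_lit 1160840) (nat_lit 43243472) (nat_lit 5870785) [(nat_lit 1160840), (nat_lit 3298653), (nat_lit 6570018)]) (PF.cons (PF.leaf (nat_lit 9045688) (nat_lit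 1168840) (nat_lit 42097490) (nat_lit 5837958) [(nat_lit 1168840), (nat_lit 3295646), (nat_lit 6526991)]) (PF.cons (PF.leaf (nat_lit 9643858) (nat_lit 1174221) (nat_lit 40977004) (nat_lit 5798750) [(nat_lit 1174221),
 (nat_lit 3287716), (nat_lit 6477344)]) (PF.cons (PF.leaf (nat_lit 10235669) (nat_lit 1177279) (nat_lit 39884665) (nat_lit 5753974) [(nat_lit 1177279), (nat_lit 3275425), (nat_lit 6421954)]) (PF.cons (PF.leaf (nat_lit 10819631) (nat_lit 1178281) (nat_lit 38822365) (nat_lit 5704400) [(nat_lit 1178281), (nat_lit 3259303), (nat_lit 6361645)]) (PF.cons (PF.leaf (nat_lit 11394575) (nat_lit 1177472) (nat_lit 37791374) (nat_lit 5650739) [(nat_lit 1177472), (nat_lit 3239844), (nat_lit 6297183)]) (PF.cons (PF.leaf (nat_lit 11959581) (nat_lit 1175073) (nat_lit 36792446) (nat_lit 5593645) [(nat_lit 1175073), (nat_lit 3217498), (nat_lit 6229267)]) (PF.cons (PF.leaf (nat_lit 12513942) (nat_lit 1171283) (nat_lit 35825925) (nat_lit 5533712) [(nat_lit 1171283), (nat_lit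 3192677), (nat_lit 6158531)]) (PF.cons PF.nil (PF.cons PF.nil (PF.cons PF.nil PF.nil)))))))))))))))))) (PF.cons (PF.cons (PF.leaf (nat_lit 5569774) (nat_lit 3220936) (nat_lit 48133733) (nat_lit 5897656) [(nat_lit 0), (nat_lit 3220936), (nat_lit 6635548)]) (PF.cons (PF.leaf (nat_lit 6128440) (nat_lit 1092552) (nat_lit 46991115) (nat_lit 5901679) [(nat_lit 1092552), (nat_lit 3246072), (nat_lit 6631320)]) (PF.cons (PF.leaf (nat_lit
 6701812) (nat_lit 1113620) (nat_lit 45838850) (nat_lit 5896620) [(nat_lit 1113620), (nat_lit 3264307), (nat_lit 6617486)]) (PF.cons (PF.leaf (nat_lit 7284555) (nat_lit 1130617) (nat_lit 44687548) (nat_lit 5882915) [(nat_lit 1130617), (nat_lit 3275975), (nat_lit 6594545)]) (PF.cons (PF.leaf (nat_lit 7872410) (nat_lit 1144011) (nat_lit 43545338) (nat_lit 5861184) [(nat_lit 1144011), (nat_lit 3281529), (nat_lit 6563184)]) (PF.cons (PF.leaf (nat_lit 8461889) (nat_lit 1154206) (nat_lit 42418479) (nat_lit 5832145) [(nat_lit 1154206), (nat_lit 3281485),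 (nat_lit 6524186)]) (PF.cons (PF.leaf (nat_lit 9050144) (nat_lit 1161560) (nat_lit 41311771) (nat_lit 5796556) [(nat_lit 1161560), (nat_lit 3276375), (nat_lit 6478373)]) (PF.cons (PF.leaf (nat_lit 9634840) (nat_lit 1166394) (nat_lit 40228846) (nat_lit 5755176) [(nat_lit 1166394), (nat_lit 3266731), (nat_lit 6426566)]) (PF.cons (PF.leaf (nat_lit 10214076) (nat_lit 1168998) (nat_lit 39172390) (nat_lit 5708741) [(nat_lit 1168998), (nat_lit 3253065), (nat_lit 6369561)]) (PF.cons (PF.leaf (nat_lit 10786326) (nat_lit 1169633) (nat_lit 38144326) (nat_lit 5657951) [(nat_lit 1169633), (nat_lit 3235864), (nat_lit 6308107)]) (PF.cons (PF.leaf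
 (nat_lit 11350377) (nat_lit 1168534) (nat_lit 37145950) (nat_lit 5603457) [(nat_lit 1168534), (nat_lit 3215580), (nat_lit 6242904)]) (PF.cons (PF.leaf (nat_lit 11905273) (nat_lit 1165914) (nat_lit 36178051) (nat_lit 5545855) [(nat_lit 1165914), (nat_lit 3192628), (nat_lit 6174591)]) (PF.cons (PF.leaf (nat_lit 12450281) (nat_lit 1161964) (nat_lit 35241010) (nat_lit 5485692) [(nat_lit 1161964), (nat_lit 3167390), (nat_lit 6103751)]) (PF.cons PF.nil (PF.cons PF.nil (PF.cons PF.nil PF.nil)))))))))))))))) (PF.cons (PF.cons (PF.leaf (nat_lit 6770942) (nat_lit 3254034) (nat_lit 44898914) (nat_lit 5867037) [(nat_lit 0), (nat_lit 3254034), (nat_lit 6580756)]) (PF.cons (PF.leaf (nat_lit 7335158) (nat_lit 1124462) (nat_lit 43794648) (nat_lit 5848956) [(nat_lit 1124462), (nat_lit 3262461), (nat_lit 6553360)]) (PF.cons (PF.leaf (nat_lit 7906143) (nat_lit 1137225) (nat_lit 42696462) (nat_lit 5823619) [(nat_lit 1137225), (nat_lit 3265311), (nat_lit 6518345)]) (PF.cons (PF.leaf (nat_lit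 8480076) (nat_lit 1146846) (nat_lit 41611137) (nat_lit 5791653) [(nat_lit 1146846), (nat_lit 3263025), (nat_lit 6476405)]) (PF.cons (PF.leaf (nat_lit 9053942) (nat_lit 1153697) (nat_lit 40543777) (nat_lit 5753734)
 [(nat_lit 1153697), (nat_lit 3256077), (nat_lit 6428278)]) (PF.cons (PF.leaf (nat_lit 9625286) (nat_lit 1158102) (nat_lit 39498202) (nat_lit 5710546) [(nat_lit 1158102), (nat_lit 3244946), (nat_lit 6374710)]) (PF.cons (PF.leaf (nat_lit 10192129) (nat_lit 1160350) (nat_lit 38477225) (nat_lit 5662760) [(nat_lit 1160350), (nat_lit 3230100), (nat_lit 6316421)]) (PF.cons (PF.leaf (nat_lit 10752878) (nat_lit 1160699) (nat_lit 37482859) (nat_lit 5611011) [(nat_lit 1160699), (nat_lit 3211982), (nat_lit 6254100)]) (PF.cons (PF.leaf (nat_lit 11306262) (nat_lit 1159377) (nat_lit 36516475) (nat_lit 5555895) [(nat_lit 1159377), (nat_lit 3191010), (nat_lit 6188386)]) (PF.cons (PF.leaf (nat_lit 11851280) (nat_lit 1156594) (nat_lit 35578929) (nat_lit 5497963) [(nat_lit 1156594),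 (nat_lit 3167568), (nat_lit 6119867)]) (PF.cons (PF.leaf (nat_lit 12387164) (nat_lit 1152532) (nat_lit 34670665) (nat_lit 5437714) [(nat_lit 1152532), (nat_lit 3142009), (nat_lit 6049078)]) (PF.cons PF.nil (PF.cons PF.nil (PF.cons PF.nil PF.nil)))))))))))))) (PF.cons (PF.cons (PF.leaf (nat_lit 7940574) (nat_lit 3247624) (nat_lit 41863232) (nat_lit 5783883) [(nat_lit 0), (nat_lit 3247624), (nat_lit 6471199)]) (PF.cons
 (PF.leaf (nat_lit 8498546) (nat_lit 1138763) (nat_lit 40820182) (nat_lit 5749473) [(nat_lit 1138763), (nat_lit 3243385), (nat_lit 6426849)]) (PF.cons (PF.leaf (nat_lit 9057874) (nat_lit 1145259) (nat_lit 39792414) (nat_lit 5709631) [(nat_lit 1145259), (nat_lit 3234847), (nat_lit 6376855)]) (PF.cons (PF.leaf (nat_lit 9615857) (nat_lit 1149355) (nat_lit 38784101) (nat_lit 5664978) [(nat_lit 1149355), (nat_lit 3222441), (nat_lit 6321897)]) (PF.cons (PF.leaf (nat_lit 10170379) (nat_lit 1151346) (nat_lit 37798291) (nat_lit 5616125) [(nat_lit 1151346), (nat_lit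 3206593), (nat_lit 6262637)]) (PF.cons (PF.leaf (nat_lit 10719750) (nat_lit 1151489) (nat_lit 36837160) (nat_lit 5563656) [(nat_lit 1151489), (nat_lit 3187710), (nat_lit 6199707)]) (PF.cons (PF.leaf (nat_lit 11262625) (nat_lit 1150012) (nat_lit 35902208) (nat_lit 5508118) [(nat_lit 1150012), (nat_lit 3166178), (nat_lit 6133695)]) (PF.cons (PF.leaf (nat_lit 11797934) (nat_lit 1147120) (nat_lit 34994394) (nat_lit 5450018) [(nat_lit 1147120), (nat_lit 3142352), (nat_lit 6065145)]) (PF.cons (PF.leaf (nat_lit 12324866) (nat_lit 1142992) (nat_lit 34114254) (nat_lit 5389817) [(nat_lit 1142992), (nat_lit 3116561), (nat_lit 5994551)])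
 (PF.cons PF.nil (PF.cons PF.nil (PF.cons PF.nil PF.nil)))))))))))) (PF.cons (PF.cons (PF.leaf (nat_lit 9062873) (nat_lit 3212762) (nat_lit 39056427) (nat_lit 5664357) [(nat_lit 0), (nat_lit 3212762), (nat_lit 6324215)]) (PF.cons (PF.leaf (nat_lit 9607251) (nat_lit 1140152) (nat_lit 38085470) (nat_lit 5618564) [(nat_lit 1140152), (nat_lit 3199280), (nat_lit 6268224)]) (PF.cons (PF.leaf (nat_lit 10149399) (nat_lit 1141986) (nat_lit 37134643) (nat_lit 5568915) [(nat_lit 1141986), (nat_lit 3182598), (nat_lit 6208287)]) (PF.cons (PF.leaf (nat_lit 10687419) (nat_lit 1142006) (nat_lit 36206385) (nat_lit 5515949) [(nat_lit 1142006), (nat_lit 3163093), (nat_lit 6144991)]) (PF.cons (PF.leaf (nat_lit 11219860) (nat_lit 1140442) (nat_lit 35302385) (nat_lit 5460174) [(nat_lit 1140442), (nat_lit 3141119), (nat_lit 6078883)]) (PF.cons (PF.leaf (nat_lit 11745574) (nat_lit 1137496) (nat_lit 34423751) (nat_lit 5402059) [(nat_lit 1137496), (nat_lit 3117010), (nat_lit 6010466)]) (PF.cons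 (PF.leaf (nat_lit 12263668) (nat_lit 1133348) (nat_lit 33571139) (nat_lit 5342032) [(nat_lit 1133348), (nat_lit 3091069), (nat_lit 5940200)]) (PF.cons (PF.leaf (nat_lit 12773445) (nat_lit 1128157) (nat_lit 32744851)
 (nat_lit 5280484) [(nat_lit 1128157), (nat_lit 3063575), (nat_lit 5868501)]) (PF.cons PF.nil (PF.cons PF.nil PF.nil)))))))))) (PF.cons (PF.cons (PF.leaf (nat_lit 10129876) (nat_lit 3158157) (nat_lit 36485254) (nat_lit 5521184) [(nat_lit 0), (nat_lit 3158157), (nat_lit 6153428)]) (PF.cons (PF.leaf (nat_lit 10656391) (nat_lit 1132247) (nat_lit 35589640) (nat_lit 5467938) [(nat_lit 1132247), (nat_lit 3138164), (nat_lit 6090001)]) (PF.cons (PF.leaf (nat_lit 11178385) (nat_lit 1130664) (nat_lit 34716214) (nat_lit 5412102) [(nat_lit 1130664), (nat_lit 3115863), (nat_lit 6023987)]) (PF.cons (PF.leaf (nat_lit 11694534) (nat_lit 1127722) (nat_lit 33866288) (nat_lit 5354116) [(nat_lit 1127722), (nat_lit 3091563), (nat_lit 5955859)]) (PF.cons (PF.leaf (nat_lit 12203853)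 (nat_lit 1123599) (nat_lit 33040675) (nat_lit 5294381) [(nat_lit 1123599), (nat_lit 3065551), (nat_lit 5886048)]) (PF.cons (PF.leaf (nat_lit 12705584) (nat_lit 1118455) (nat_lit 32239808) (nat_lit 5233260) [(nat_lit 1118455), (nat_lit 3038087), (nat_lit 5814942)]) (PF.cons PF.nil (PF.cons PF.nil PF.nil)))))))) (PF.cons (PF.cons (PF.leaf (nat_lit 11138708) (nat_lit 3090428) (nat_lit 34142854) (nat_lit 5363926) [(nat_lit 0),
 (nat_lit 3090428), (nat_lit 5969029)]) (PF.cons (PF.leaf (nat_lit 11645176) (nat_lit 1117791) (nat_lit 33321264) (nat_lit 5306208) [(nat_lit 1117791), (nat_lit 3066029), (nat_lit 5901341)]) (PF.cons (PF.leaf (nat_lit 12145719) (nat_lit 1113742) (nat_lit 32522202) (nat_lit 5246877) [(nat_lit 1113742), (nat_lit 3040020), (nat_lit 5832106)]) (PF.cons (PF.leaf (nat_lit 12639431) (nat_lit 1108684) (nat_lit 31746264) (nat_lit 5186275) [(nat_lit 1108684), (nat_lit 3012647), (nat_lit 5761691)]) (PF.cons PF.nil (PF.cons PF.nil PF.nil)))))) (PF.cons (PF.cons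 (PF.leaf (nat_lit 12089655) (nat_lit 3014483) (nat_lit 32015038) (nat_lit 5199526) [(nat_lit 0), (nat_lit 3014483), (nat_lit 5778376)]) (PF.cons (PF.leaf (nat_lit 12575243) (nat_lit 1098836) (nat_lit 31263612) (nat_lit 5139530) [(nat_lit 1098836), (nat_lit 2987260), (nat_lit 5708747)]) (PF.cons (PF.leaf (nat_lit 13054117) (nat_lit 1093040) (nat_lit 30534048) (nat_lit 5078650) [(nat_lit 1093040), (nat_lit 2958961), (nat_lit 5638341)]) (PF.cons PF.nil PF.nil)))) (PF.cons (PF.cons (PF.leaf (nat_lit 12984844) (nat_lit 2933890) (nat_lit 30084266) (nat_lit 5032896) [(nat_lit 0), (nat_lit 2933890), (nat_lit 5586631)]) (PF.cons PF.nil PF.nil))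
 (PF.cons PF.nil (PF.cons PF.nil (PF.cons PF.nil PF.nil))))))))))))) (PF.cons (PF.cons (PF.cons (PF.leaf (nat_lit 5060917) (nat_lit 5831930) (nat_lit 48136157) (nat_lit 5831930) [(nat_lit 0), (nat_lit 0), (nat_lit 6570362)]) (PF.cons (PF.leaf (nat_lit 5584101) (nat_lit 1050019) (nat_lit 47072031) (nat_lit 5841962) [(nat_lit 1050019), (nat_lit 0), (nat_lit 6572399)]) (PF.cons (PF.leaf (nat_lit 6129495) (nat_lit 1076412) (nat_lit 45981935) (nat_lit 5843391) [(nat_lit 1076412), (nat_lit 0), (nat_lit 6565330)]) (PF.cons (PF.leaf (nat_lit 6690255) (nat_lit 1097931) (nat_lit 44880104) (nat_lit 5836308) [(nat_lit 1097931), (nat_lit 0), (nat_lit 6549303)]) (PF.cons (PF.leaf (nat_lit 7261079) (nat_lit 1115242) (nat_lit 43777191) (nat_lit 5821111) [(nat_lit 1115242), (nat_lit 0), (nat_lit 6524770)]) (PF.cons (PF.leaf (nat_lit 7837688) (nat_lit 1128876) (nat_lit 42681334) (nat_lit 5798371) [(nat_lit 1128876), (nat_lit 0), (nat_lit 6492361)]) (PF.cons (PF.leaf (nat_lit 8416599)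 (nat_lit 1139278) (nat_lit 41598789) (nat_lit 5768755) [(nat_lit 1139278), (nat_lit 0), (nat_lit 6452798)]) (PF.cons (PF.leaf (nat_lit 8994952) (nat_lit 1146829) (nat_lit 40534356) (nat_lit 5732966) [(nat_lit 1146829),
 (nat_lit 0), (nat_lit 6406842)]) (PF.cons (PF.leaf (nat_lit 9570418) (nat_lit 1151863) (nat_lit 39491677) (nat_lit 5691714) [(nat_lit 1151863), (nat_lit 0), (nat_lit 6355257)]) (PF.cons (PF.leaf (nat_lit 10141064) (nat_lit 1154677) (nat_lit 38473461) (nat_lit 5645688) [(nat_lit 1154677), (nat_lit 0), (nat_lit 6298781)]) (PF.cons (PF.leaf (nat_lit 10705375) (nat_lit 1155537) (nat_lit 37481665) (nat_lit 5595542) [(nat_lit 1155537), (nat_lit 0), (nat_lit 6238116)]) (PF.cons (PF.leaf (nat_lit 11262100) (nat_lit 1154678) (nat_lit 36517632) (nat_lit 5541887) [(nat_lit 1154678), (nat_lit 0), (nat_lit 6173915)]) (PF.cons (PF.leaf (nat_lit 11810278) (nat_lit 1152312) (nat_lit 35582212) (nat_lit 5485286) [(nat_lit 1152312), (nat_lit 0), (nat_lit 6106779)]) (PF.cons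 (PF.leaf (nat_lit 12349140) (nat_lit 1148631) (nat_lit 34675849) (nat_lit 5426250) [(nat_lit 1148631), (nat_lit 0), (nat_lit 6037254)]) (PF.cons PF.nil (PF.cons PF.nil PF.nil)))))))))))))))) (PF.cons (PF.cons (PF.leaf (nat_lit 6216704) (nat_lit 3204111) (nat_lit 45023615) (nat_lit 5817181) [(nat_lit 0), (nat_lit 3204111), (nat_lit 6531952)]) (PF.cons (PF.leaf (nat_lit 6757215) (nat_lit 1091908) (nat_lit 43971219) (nat_lit
 5805379) [(nat_lit 1091908), (nat_lit 3217988), (nat_lit 6511158)]) (PF.cons (PF.leaf (nat_lit 7309948) (nat_lit 1108697) (nat_lit 42913787) (nat_lit 5786248) [(nat_lit 1108697), (nat_lit 3226061), (nat_lit 6482660)]) (PF.cons (PF.leaf (nat_lit 7870076) (nat_lit 1121810) (nat_lit 41860397) (nat_lit 5760271) [(nat_lit 1121810), (nat_lit 3228704), (nat_lit 6447003)]) (PF.cons (PF.leaf (nat_lit 8433837) (nat_lit 1131727) (nat_lit 40817843) (nat_lit 5728033) [(nat_lit 1131727), (nat_lit 3226357), (nat_lit 6404834)]) (PF.cons (PF.leaf (nat_lit 8998184)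 (nat_lit 1138847) (nat_lit 39791242) (nat_lit 5690166) [(nat_lit 1138847), (nat_lit 3219487), (nat_lit 6356839)]) (PF.cons (PF.leaf (nat_lit 9560665) (nat_lit 1143511) (nat_lit 38784438) (nat_lit 5647312) [(nat_lit 1143511), (nat_lit 3208563), (nat_lit 6303714)]) (PF.cons (PF.leaf (nat_lit 10119269) (nat_lit 1146018) (nat_lit 37800276) (nat_lit 5600098) [(nat_lit 1146018), (nat_lit 3194038), (nat_lit 6246133)]) (PF.cons (PF.leaf (nat_lit 10672398) (nat_lit 1146631) (nat_lit 36840812) (nat_lit 5549124) [(nat_lit 1146631), (nat_lit 3176342), (nat_lit 6184742)]) (PF.cons (PF.leaf (nat_lit 11218760) (nat_lit 1145581) (nat_lit 35907469)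
 (nat_lit 5494951) [(nat_lit 1145581), (nat_lit 3155878), (nat_lit 6120139)]) (PF.cons (PF.leaf (nat_lit 11757331) (nat_lit 1143077) (nat_lit 35001164) (nat_lit 5438096) [(nat_lit 1143077), (nat_lit 3133015), (nat_lit 6052878)]) (PF.cons (PF.leaf (nat_lit 12287301) (nat_lit 1139304) (nat_lit 34122409) (nat_lit 5379033) [(nat_lit 1139304), (nat_lit 3108094), (nat_lit 5983464)]) (PF.cons PF.nil (PF.cons PF.nil PF.nil)))))))))))))) (PF.cons (PF.cons (PF.leaf (nat_lit 7360608) (nat_lit 3210218) (nat_lit 42063770) (nat_lit 5748875) [(nat_lit 0), (nat_lit 3210218), (nat_lit 6437865)]) (PF.cons (PF.leaf (nat_lit 7903461) (nat_lit 1113857) (nat_lit 41054303) (nat_lit 5720191) [(nat_lit 1113857), (nat_lit 3210682), (nat_lit 6399547)]) (PF.cons (PF.leaf (nat_lit 8451673) (nat_lit 1123475) (nat_lit 40052464) (nat_lit 5685778) [(nat_lit 1123475), (nat_lit 3206546), (nat_lit 6355263)]) (PF.cons (PF.leaf (nat_lit 9001827) (nat_lit 1130310) (nat_lit 39063944) (nat_lit 5646209) [(nat_lit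 1130310), (nat_lit 3198222), (nat_lit 6305641)]) (PF.cons (PF.leaf (nat_lit 9551274) (nat_lit 1134721) (nat_lit 38092945) (nat_lit 5602068) [(nat_lit 1134721), (nat_lit 3186136), (nat_lit 6251319)]) (PF.cons
 (PF.leaf (nat_lit 10097872) (nat_lit 1137016) (nat_lit 37142552) (nat_lit 5553931) [(nat_lit 1137016), (nat_lit 3170700), (nat_lit 6192921)]) (PF.cons (PF.leaf (nat_lit 10639916) (nat_lit 1137460) (nat_lit 36214990) (nat_lit 5502349) [(nat_lit 1137460), (nat_lit 3152314), (nat_lit 6131041)]) (PF.cons (PF.leaf (nat_lit 11176036) (nat_lit 1136284) (nat_lit 35311812) (nat_lit 5447840) [(nat_lit 1136284), (nat_lit 3131348), (nat_lit 6066233)]) (PF.cons (PF.leaf (nat_lit 11705144) (nat_lit 1133695) (nat_lit 34434043) (nat_lit 5390883) [(nat_lit 1133695), (nat_lit 3108148), (nat_lit 5999011)]) (PF.cons (PF.leaf (nat_lit 12226378) (nat_lit 1129874) (nat_lit 33582282) (nat_lit 5331917) [(nat_lit 1129874), (nat_lit 3083030), (nat_lit 5929841)]) (PF.cons PF.nil (PF.cons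 PF.nil PF.nil)))))))))))) (PF.cons (PF.cons (PF.leaf (nat_lit 8471235) (nat_lit 3185725) (nat_lit 39301158) (nat_lit 5642094) [(nat_lit 0), (nat_lit 3185725), (nat_lit 6304191)]) (PF.cons (PF.leaf (nat_lit 9006721) (nat_lit 1121203) (nat_lit 38351237) (nat_lit 5601186) [(nat_lit 1121203), (nat_lit 3176167), (nat_lit 6253341)]) (PF.cons (PF.leaf (nat_lit 9542922) (nat_lit 1125488) (nat_lit 37416154) (nat_lit 5556061)
 [(nat_lit 1125488), (nat_lit 3163103), (nat_lit 6198155)]) (PF.cons (PF.leaf (nat_lit 10077427) (nat_lit 1127670) (nat_lit 36499374) (nat_lit 5507252) [(nat_lit 1127670), (nat_lit 3146915), (nat_lit 6139213)]) (PF.cons (PF.leaf (nat_lit 10608382) (nat_lit 1128025) (nat_lit 35603385) (nat_lit 5455271) [(nat_lit 1128025), (nat_lit 3127971), (nat_lit 6077070)]) (PF.cons (PF.leaf (nat_lit 11134309) (nat_lit 1126789) (nat_lit 34729930) (nat_lit 5400599) [(nat_lit 1126789), (nat_lit 3106615), (nat_lit 6012244)]) (PF.cons (PF.leaf (nat_lit 11654035) (nat_lit 1124168)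 (nat_lit 33880180) (nat_lit 5343682) [(nat_lit 1124168), (nat_lit 3083171), (nat_lit 5945211)]) (PF.cons (PF.leaf (nat_lit 12166639) (nat_lit 1120343) (nat_lit 33054857) (nat_lit 5284928) [(nat_lit 1120343), (nat_lit 3057933), (nat_lit 5876410)]) (PF.cons (PF.leaf (nat_lit 12671403) (nat_lit 1115473) (nat_lit 32254332) (nat_lit 5224708) [(nat_lit 1115473), (nat_lit 3031172), (nat_lit 5806232)]) (PF.cons PF.nil PF.nil)))))))))) (PF.cons (PF.cons (PF.leaf (nat_lit 9536429) (nat_lit 3139509) (nat_lit 36752883) (nat_lit 5509345) [(nat_lit 0), (nat_lit 3139509), (nat_lit 6144273)]) (PF.cons (PF.leaf (nat_lit 10058536) (nat_lit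
 1117968) (nat_lit 35869745) (nat_lit 5460108) [(nat_lit 1117968), (nat_lit 3122720), (nat_lit 6085055)]) (PF.cons (PF.leaf (nat_lit 10578284) (nat_lit 1118319) (nat_lit 35005131) (nat_lit 5407929) [(nat_lit 1118319), (nat_lit 3103344), (nat_lit 6022868)]) (PF.cons (PF.leaf (nat_lit 11093979) (nat_lit 1117091) (nat_lit 34161056) (nat_lit 5353259) [(nat_lit 1117091), (nat_lit 3081705), (nat_lit 5958201)]) (PF.cons (PF.leaf (nat_lit 11604335) (nat_lit 1114494) (nat_lit 33338890) (nat_lit 5296517) [(nat_lit 1114494), (nat_lit 3058104), (nat_lit 5891504)]) (PF.cons (PF.leaf (nat_lit 12108350) (nat_lit 1110710) (nat_lit 32539513) (nat_lit 5238085) [(nat_lit 1110710), (nat_lit 3032821), (nat_lit 5823188)]) (PF.cons (PF.leaf (nat_lit 12605221) (nat_lit 1105899) (nat_lit 31763424) (nat_lit 5178312) [(nat_lit 1105899), (nat_lit 3006108), (nat_lit 5753623)]) (PF.cons PF.nil PF.nil)))))))) (PF.cons (PF.cons (PF.leaf (nat_lit 10550230) (nat_lit 3078453) (nat_lit 34419288) (nat_lit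 5360346) [(nat_lit 0), (nat_lit 3078453), (nat_lit 5968454)]) (PF.cons (PF.leaf (nat_lit 11055480) (nat_lit 1107180) (nat_lit 33604380) (nat_lit 5305838) [(nat_lit 1107180), (nat_lit 3056633), (nat_lit 5904122)])
 (PF.cons (PF.leaf (nat_lit 11556399) (nat_lit 1104665) (nat_lit 32809463) (nat_lit 5249402) [(nat_lit 1104665), (nat_lit 3032962), (nat_lit 5837902)]) (PF.cons (PF.leaf (nat_lit 12051798) (nat_lit 1100969) (nat_lit 32035619) (nat_lit 5191398) [(nat_lit 1100969), (nat_lit 3007702), (nat_lit 5770185)]) (PF.cons (PF.leaf (nat_lit 12540796) (nat_lit 1096255) (nat_lit 31283506) (nat_lit 5132158) [(nat_lit 1096255), (nat_lit 2981095), (nat_lit 5701324)]) (PF.cons PF.nil PF.nil)))))) (PF.cons (PF.cons (PF.leaf (nat_lit 11510679) (nat_lit 3007752) (nat_lit 32291144) (nat_lit 5202341) [(nat_lit 0), (nat_lit 3007752), (nat_lit 5784406)]) (PF.cons (PF.leaf (nat_lit 11997298) (nat_lit 1091111) (nat_lit 31542516) (nat_lit 5144870) [(nat_lit 1091111), (nat_lit 2982585),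 (nat_lit 5717401)]) (PF.cons (PF.leaf (nat_lit 12478373) (nat_lit 1086535) (nat_lit 30813997) (nat_lit 5086246) [(nat_lit 1086535), (nat_lit 2956139), (nat_lit 5649331)]) (PF.cons (PF.leaf (nat_lit 12953066) (nat_lit 1081083) (nat_lit 30106078) (nat_lit 5026751) [(nat_lit 1081083), (nat_lit 2928622), (nat_lit 5580500)]) PF.nil)))) (PF.cons (PF.cons (PF.leaf (nat_lit 12418297) (nat_lit 2931239) (nat_lit 30354292) (nat_lit
 5040569) [(nat_lit 0), (nat_lit 2931239), (nat_lit 5597637)]) (PF.cons (PF.leaf (nat_lit 12885621) (nat_lit 1071449) (nat_lit 29668152) (nat_lit 4981826) [(nat_lit 1071449), (nat_lit 2903987), (nat_lit 5529735)]) PF.nil)) (PF.cons PF.nil (PF.cons PF.nil (PF.cons PF.nil PF.nil))))))))))) (PF.cons (PF.cons (PF.cons (PF.leaf (nat_lit 6810822) (nat_lit 5708207) (nat_lit 42204711) (nat_lit 5708207) [(nat_lit 0), (nat_lit 0), (nat_lit 6398631)]) (PF.cons (PF.leaf (nat_lit 7333230) (nat_lit 1084471) (nat_lit 41239247) (nat_lit 5685445) [(nat_lit 1084471),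 (nat_lit 0), (nat_lit 6366549)]) (PF.cons (PF.leaf (nat_lit 7865998) (nat_lit 1097915) (nat_lit 40271567) (nat_lit 5656715) [(nat_lit 1097915), (nat_lit 0), (nat_lit 6328233)]) (PF.cons (PF.leaf (nat_lit 8404733) (nat_lit 1108028) (nat_lit 39309494) (nat_lit 5622514) [(nat_lit 1108028), (nat_lit 0), (nat_lit 6284239)]) (PF.cons (PF.leaf (nat_lit 8946054) (nat_lit 1115286) (nat_lit 38358777) (nat_lit 5583386) [(nat_lit 1115286), (nat_lit 0), (nat_lit 6235167)]) (PF.cons (PF.leaf (nat_lit 9487281) (nat_lit 1120079) (nat_lit 37423673) (nat_lit 5539888) [(nat_lit 1120079), (nat_lit 0), (nat_lit 6181618)]) (PF.cons (PF.leaf (nat_lit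
 10026249) (nat_lit 1122728) (nat_lit 36507323) (nat_lit 5492566) [(nat_lit 1122728), (nat_lit 0), (nat_lit 6124184)]) (PF.cons (PF.leaf (nat_lit 10561231) (nat_lit 1123510) (nat_lit 35612011) (nat_lit 5441944) [(nat_lit 1123510), (nat_lit 0), (nat_lit 6063427)]) (PF.cons (PF.leaf (nat_lit 11090830) (nat_lit 1122665) (nat_lit 34739352) (nat_lit 5388515) [(nat_lit 1122665), (nat_lit 0), (nat_lit 5999873)]) (PF.cons (PF.leaf (nat_lit 11613943) (nat_lit 1120401) (nat_lit 33890437) (nat_lit 5332733) [(nat_lit 1120401), (nat_lit 0), (nat_lit 5934009)]) (PF.cons (PF.leaf (nat_lit 12129685) (nat_lit 1116902) (nat_lit 33065935) (nat_lit 5275018) [(nat_lit 1116902), (nat_lit 0), (nat_lit 5866277)]) (PF.cons PF.nil (PF.cons PF.nil (PF.cons PF.nil PF.nil)))))))))))))) (PF.cons (PF.cons (PF.leaf (nat_lit 7901483) (nat_lit 3154138) (nat_lit 39503596) (nat_lit 5614708) [(nat_lit 0), (nat_lit 3154138), (nat_lit 6278789)]) (PF.cons (PF.leaf (nat_lit 8424129) (nat_lit 1098904) (nat_lit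 38581882) (nat_lit 5578978) [(nat_lit 1098904), (nat_lit 3148870), (nat_lit 6233392)]) (PF.cons (PF.leaf (nat_lit 8951107) (nat_lit 1106105) (nat_lit 37668324) (nat_lit 5538681) [(nat_lit 1106105), (nat_lit 3139767),
 (nat_lit 6183276)]) (PF.cons (PF.leaf (nat_lit 9479343) (nat_lit 1110822) (nat_lit 36767764) (nat_lit 5494334) [(nat_lit 1110822), (nat_lit 3127216), (nat_lit 6129009)]) (PF.cons (PF.leaf (nat_lit 10006463) (nat_lit 1113400) (nat_lit 35883722) (nat_lit 5446448) [(nat_lit 1113400), (nat_lit 3111595), (nat_lit 6071148)]) (PF.cons (PF.leaf (nat_lit 10530587) (nat_lit 1114126) (nat_lit 35018745) (nat_lit 5395512) [(nat_lit 1114126), (nat_lit 3093265), (nat_lit 6010218)]) (PF.cons (PF.leaf (nat_lit 11050212) (nat_lit 1113246) (nat_lit 34174640) (nat_lit 5341984) [(nat_lit 1113246), (nat_lit 3072568), (nat_lit 5946713)]) (PF.cons (PF.leaf (nat_lit 11564145) (nat_lit 1110971) (nat_lit 33352642) (nat_lit 5286290) [(nat_lit 1110971), (nat_lit 3049817), (nat_lit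 5881088)]) (PF.cons (PF.leaf (nat_lit 12071428) (nat_lit 1107484) (nat_lit 32553541) (nat_lit 5228820) [(nat_lit 1107484), (nat_lit 3025301), (nat_lit 5813758)]) (PF.cons (PF.leaf (nat_lit 12571329) (nat_lit 1102946) (nat_lit 31777779) (nat_lit 5169929) [(nat_lit 1102946), (nat_lit 2999284), (nat_lit 5745101)]) (PF.cons PF.nil (PF.cons PF.nil PF.nil)))))))))))) (PF.cons (PF.cons (PF.leaf (nat_lit 8958658) (nat_lit 3117092) (nat_lit
 36990289) (nat_lit 5493051) [(nat_lit 0), (nat_lit 3117092), (nat_lit 6130429)]) (PF.cons (PF.leaf (nat_lit 9473377) (nat_lit 1101107) (nat_lit 36124670) (nat_lit 5448135) [(nat_lit 1101107), (nat_lit 3103821), (nat_lit 6075752)]) (PF.cons (PF.leaf (nat_lit 9988383) (nat_lit 1103721) (nat_lit 35272992) (nat_lit 5399915) [(nat_lit 1103721), (nat_lit 3087661), (nat_lit 6017713)]) (PF.cons (PF.leaf (nat_lit 10501507) (nat_lit 1104476) (nat_lit 34438184) (nat_lit 5348851) [(nat_lit 1104476), (nat_lit 3068950), (nat_lit 5956815)]) (PF.cons (PF.leaf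 (nat_lit 11011093) (nat_lit 1103628) (nat_lit 33622324) (nat_lit 5295379) [(nat_lit 1103628), (nat_lit 3048008), (nat_lit 5893525)]) (PF.cons (PF.leaf (nat_lit 11515832) (nat_lit 1101395) (nat_lit 32826844) (nat_lit 5239898) [(nat_lit 1101395), (nat_lit 3025131), (nat_lit 5828275)]) (PF.cons (PF.leaf (nat_lit 12014681) (nat_lit 1097964) (nat_lit 32052689) (nat_lit 5182777) [(nat_lit 1097964), (nat_lit 3000591), (nat_lit 5761457)]) (PF.cons (PF.leaf (nat_lit 12506843) (nat_lit 1093497) (nat_lit 31300425) (nat_lit 5124349) [(nat_lit 1093497), (nat_lit 2974638), (nat_lit 5693427)]) (PF.cons PF.nil (PF.cons PF.nil PF.nil)))))))))) (PF.cons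
 (PF.cons (PF.leaf (nat_lit 9972744) (nat_lit 3063367) (nat_lit 34674045) (nat_lit 5352983) [(nat_lit 0), (nat_lit 3063367), (nat_lit 5963894)]) (PF.cons (PF.leaf (nat_lit 10474514) (nat_lit 1094541) (nat_lit 33869419) (nat_lit 5301980) [(nat_lit 1094541), (nat_lit 3044391), (nat_lit 5903231)]) (PF.cons (PF.leaf (nat_lit 10973893) (nat_lit 1093799) (nat_lit 33081623) (nat_lit 5248714) [(nat_lit 1093799), (nat_lit 3023302), (nat_lit 5840322)]) (PF.cons (PF.leaf (nat_lit 11469350) (nat_lit 1091667) (nat_lit 32312358) (nat_lit 5193570) [(nat_lit 1091667), (nat_lit 3000379), (nat_lit 5775580)]) (PF.cons (PF.leaf (nat_lit 11959732) (nat_lit 1088338) (nat_lit 31562770) (nat_lit 5136898) [(nat_lit 1088338), (nat_lit 2975882), (nat_lit 5709381)]) (PF.cons (PF.leaf (nat_lit 12444142) (nat_lit 1083977) (nat_lit 30833580) (nat_lit 5079013) [(nat_lit 1083977), (nat_lit 2950046), (nat_lit 5642062)]) (PF.cons PF.nil (PF.cons PF.nil PF.nil)))))))) (PF.cons (PF.cons (PF.leaf (nat_lit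 10939161) (nat_lit 2998457) (nat_lit 32551686) (nat_lit 5201991) [(nat_lit 0), (nat_lit 2998457), (nat_lit 5787101)]) (PF.cons (PF.leaf (nat_lit 11425079) (nat_lit 1081770) (nat_lit 31808458) (nat_lit 5147307)
 [(nat_lit 1081770), (nat_lit 2975568), (nat_lit 5723001)]) (PF.cons (PF.leaf (nat_lit 11906880) (nat_lit 1078593) (nat_lit 31083151) (nat_lit 5091181) [(nat_lit 1078593), (nat_lit 2951178), (nat_lit 5657526)]) (PF.cons (PF.leaf (nat_lit 12383478) (nat_lit 1074380) (nat_lit 30376682) (nat_lit 5033919) [(nat_lit 1074380), (nat_lit 2925513), (nat_lit 5591004)]) (PF.cons (PF.leaf (nat_lit 12854086) (nat_lit 1069279) (nat_lit 29689602) (nat_lit 4975794) [(nat_lit 1069279), (nat_lit 2898778), (nat_lit 5523727)]) (PF.cons PF.nil PF.nil)))))) (PF.cons (PF.cons (PF.leaf (nat_lit 11856538) (nat_lit 2926478) (nat_lit 30613160) (nat_lit 5045618) [(nat_lit 0), (nat_lit 2926478), (nat_lit 5605880)]) (PF.cons (PF.leaf (nat_lit 12325121) (nat_lit 1064694) (nat_lit 29929150)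 (nat_lit 4989058) [(nat_lit 1064694), (nat_lit 2901037), (nat_lit 5540240)]) (PF.cons (PF.leaf (nat_lit 12788520) (nat_lit 1059774) (nat_lit 29263065) (nat_lit 4931681) [(nat_lit 1059774), (nat_lit 2874571), (nat_lit 5473886)]) (PF.cons PF.nil PF.nil)))) (PF.cons (PF.cons (PF.leaf (nat_lit 12725499) (nat_lit 2850459) (nat_lit 28845038) (nat_lit 4887850) [(nat_lit 0), (nat_lit 2850459), (nat_lit 5424389)]) (PF.cons PF.nil
 PF.nil)) (PF.cons PF.nil (PF.cons PF.nil (PF.cons PF.nil PF.nil)))))))))) (PF.cons (PF.cons (PF.cons (PF.leaf (nat_lit 8400384) (nat_lit 5471916) (nat_lit 37190898) (nat_lit 5471916) [(nat_lit 0), (nat_lit 0), (nat_lit 6111499)]) (PF.cons (PF.leaf (nat_lit 8904059) (nat_lit 1081077) (nat_lit 36349154) (nat_lit 5431664) [(nat_lit 1081077), (nat_lit 0), (nat_lit 6061728)]) (PF.cons (PF.leaf (nat_lit 9411331) (nat_lit 1086411) (nat_lit 35515505) (nat_lit 5387733) [(nat_lit 1086411), (nat_lit 0), (nat_lit 6008187)]) (PF.cons (PF.leaf (nat_lit 9919377)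 (nat_lit 1089511) (nat_lit 34694120) (nat_lit 5340593) [(nat_lit 1089511), (nat_lit 0), (nat_lit 5951390)]) (PF.cons (PF.leaf (nat_lit 10426073) (nat_lit 1090706) (nat_lit 33887998) (nat_lit 5290689) [(nat_lit 1090706), (nat_lit 0), (nat_lit 5891824)]) (PF.cons (PF.leaf (nat_lit 10929726) (nat_lit 1090267) (nat_lit 33099281) (nat_lit 5238442) [(nat_lit 1090267), (nat_lit 0), (nat_lit 5829937)]) (PF.cons (PF.leaf (nat_lit 11428999) (nat_lit 1088419) (nat_lit 32329473) (nat_lit 5184239) [(nat_lit 1088419), (nat_lit 0), (nat_lit 5766146)]) (PF.cons (PF.leaf (nat_lit 11922836) (nat_lit 1085355) (nat_lit 31579583) (nat_lit 5128433) [(nat_lit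
 1085355), (nat_lit 0), (nat_lit 5700827)]) (PF.cons (PF.leaf (nat_lit 12410385) (nat_lit 1081241) (nat_lit 30850244) (nat_lit 5071346) [(nat_lit 1081241), (nat_lit 0), (nat_lit 5634322)]) (PF.cons PF.nil PF.nil)))))))))) (PF.cons (PF.cons (PF.leaf (nat_lit 9409151) (nat_lit 3044791) (nat_lit 34902534) (nat_lit 5341500) [(nat_lit 0), (nat_lit 3044791), (nat_lit 5954996)]) (PF.cons (PF.leaf (nat_lit 9904708) (nat_lit 1079477) (nat_lit 34112636) (nat_lit 5294324) [(nat_lit 1079477), (nat_lit 3028973), (nat_lit 5898350)]) (PF.cons (PF.leaf (nat_lit 10400273) (nat_lit 1080827) (nat_lit 33335579) (nat_lit 5244533) [(nat_lit 1080827), (nat_lit 3010749), (nat_lit 5839073)]) (PF.cons (PF.leaf (nat_lit 10893869) (nat_lit 1080517) (nat_lit 32573881) (nat_lit 5192532) [(nat_lit 1080517), (nat_lit 2990420), (nat_lit 5777606)]) (PF.cons (PF.leaf (nat_lit 11384005) (nat_lit 1078787) (nat_lit 31829307) (nat_lit 5138690) [(nat_lit 1078787), (nat_lit 2968266), (nat_lit 5714349)]) (PF.cons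 (PF.leaf (nat_lit 11869500) (nat_lit 1075839) (nat_lit 31103066) (nat_lit 5083349) [(nat_lit 1075839), (nat_lit 2944543), (nat_lit 5649663)]) (PF.cons (PF.leaf (nat_lit 12349425) (nat_lit 1071843) (nat_lit
 30395943) (nat_lit 5026813) [(nat_lit 1071843), (nat_lit 2919485), (nat_lit 5583877)]) (PF.cons PF.nil PF.nil)))))))) (PF.cons (PF.cons (PF.leaf (nat_lit 10377341) (nat_lit 2986305) (nat_lit 32793378) (nat_lit 5198186) [(nat_lit 0), (nat_lit 2986305), (nat_lit 5786159)]) (PF.cons (PF.leaf (nat_lit 10860487) (nat_lit 1070533) (nat_lit 32058716) (nat_lit 5146576) [(nat_lit 1070533), (nat_lit 2965950), (nat_lit 5725271)]) (PF.cons (PF.leaf (nat_lit 11341277) (nat_lit 1068987) (nat_lit 31339229) (nat_lit 5093214) [(nat_lit 1068987), (nat_lit 2943849), (nat_lit 5662674)]) (PF.cons (PF.leaf (nat_lit 11818302) (nat_lit 1066205) (nat_lit 30636381) (nat_lit 5038430) [(nat_lit 1066205), (nat_lit 2920246), (nat_lit 5598722)]) (PF.cons (PF.leaf (nat_lit 12290525) (nat_lit 1062366)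 (nat_lit 29951152) (nat_lit 4982521) [(nat_lit 1062366), (nat_lit 2895368), (nat_lit 5533734)]) (PF.cons (PF.leaf (nat_lit 12757124) (nat_lit 1057621) (nat_lit 29284149) (nat_lit 4925752) [(nat_lit 1057621), (nat_lit 2869415), (nat_lit 5467992)]) PF.nil)))))) (PF.cons (PF.cons (PF.leaf (nat_lit 11301317) (nat_lit 2919375) (nat_lit 30858474) (nat_lit 5047797) [(nat_lit 0), (nat_lit 2919375), (nat_lit 5611103)])
 (PF.cons (PF.leaf (nat_lit 11769582) (nat_lit 1056434) (nat_lit 30178879) (nat_lit 4993667) [(nat_lit 1056434), (nat_lit 2895956), (nat_lit 5547990)]) (PF.cons (PF.leaf (nat_lit 12233954) (nat_lit 1052796) (nat_lit 29515308) (nat_lit 4938459) [(nat_lit 1052796), (nat_lit 2871307), (nat_lit 5483882)]) (PF.cons (PF.leaf (nat_lit 12693426) (nat_lit 1048240) (nat_lit 28868556) (nat_lit 4882434) [(nat_lit 1048240), (nat_lit 2845626), (nat_lit 5419055)]) PF.nil)))) (PF.cons (PF.cons (PF.leaf (nat_lit 12180099) (nat_lit 2847298) (nat_lit 29087815) (nat_lit 4894611)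 [(nat_lit 0), (nat_lit 2847298), (nat_lit 5434298)]) (PF.cons (PF.leaf (nat_lit 12632213) (nat_lit 1038788) (nat_lit 28461101) (nat_lit 4839391) [(nat_lit 1038788), (nat_lit 2821929), (nat_lit 5370453)]) PF.nil)) (PF.cons PF.nil (PF.cons PF.nil (PF.cons PF.nil PF.nil)))))))) (PF.cons (PF.cons (PF.cons (PF.leaf (nat_lit 9827921) (nat_lit 5190585) (nat_lit 33012126) (nat_lit 5190585) [(nat_lit 0), (nat_lit 0), (nat_lit 5781220)]) (PF.cons (PF.leaf (nat_lit 10305777) (nat_lit 1057022) (nat_lit 32289961) (nat_lit 5142372) [(nat_lit 1057022), (nat_lit 0), (nat_lit 5723891)]) (PF.cons (PF.leaf (nat_lit 10783471) (nat_lit 1057412)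
 (nat_lit 31579479) (nat_lit 5092071) [(nat_lit 1057412), (nat_lit 0), (nat_lit 5664487)]) (PF.cons (PF.leaf (nat_lit 11259172) (nat_lit 1056308) (nat_lit 30882874) (nat_lit 5040037) [(nat_lit 1056308), (nat_lit 0), (nat_lit 5603394)]) (PF.cons (PF.leaf (nat_lit 11731530) (nat_lit 1053936) (nat_lit 30201674) (nat_lit 4986592) [(nat_lit 1053936), (nat_lit 0), (nat_lit 5540959)]) (PF.cons (PF.leaf (nat_lit 12199464) (nat_lit 1050482) (nat_lit 29536917) (nat_lit 4932026) [(nat_lit 1050482), (nat_lit 0), (nat_lit 5477491)]) (PF.cons (PF.leaf (nat_lit 12662141) (nat_lit 1046102) (nat_lit 28889272) (nat_lit 4876599) [(nat_lit 1046102), (nat_lit 0), (nat_lit 5413265)]) (PF.cons PF.nil PF.nil)))))))) (PF.cons (PF.cons (PF.leaf (nat_lit 10754710) (nat_lit 2909651) (nat_lit 31087307) (nat_lit 5046821) [(nat_lit 0), (nat_lit 2909651), (nat_lit 5613006)]) (PF.cons (PF.leaf (nat_lit 11220754) (nat_lit 1046402) (nat_lit 30414923) (nat_lit 4995399) [(nat_lit 1046402), (nat_lit 2888497),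 (nat_lit 5552717)]) (PF.cons (PF.leaf (nat_lit 11684508) (nat_lit 1044267) (nat_lit 29756161) (nat_lit 4942613) [(nat_lit 1044267), (nat_lit 2865885), (nat_lit 5491123)]) (PF.cons (PF.leaf (nat_lit 12144672)
 (nat_lit 1041025) (nat_lit 29112302) (nat_lit 4888747) [(nat_lit 1041025), (nat_lit 2842032), (nat_lit 5428530)]) (PF.cons (PF.leaf (nat_lit 12600298) (nat_lit 1036840) (nat_lit 28484198) (nat_lit 4834057) [(nat_lit 1036840), (nat_lit 2817135), (nat_lit 5365211)]) (PF.cons PF.nil PF.nil)))))) (PF.cons (PF.cons (PF.leaf (nat_lit 11640466) (nat_lit 2841996) (nat_lit 29318721) (nat_lit 4898766) [(nat_lit 0), (nat_lit 2841996), (nat_lit 5441466)]) (PF.cons (PF.leaf (nat_lit 12092540) (nat_lit 1031453) (nat_lit 28695659) (nat_lit 4845677) [(nat_lit 1031453), (nat_lit 2818428), (nat_lit 5379832)]) (PF.cons (PF.leaf (nat_lit 12540945) (nat_lit 1027504) (nat_lit 28086910) (nat_lit 4791784) [(nat_lit 1027504), (nat_lit 2793844), (nat_lit 5317484)]) (PF.cons PF.nil PF.nil))))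 (PF.cons (PF.cons (PF.leaf (nat_lit 12484444) (nat_lit 2770632) (nat_lit 27696873) (nat_lit 4749756) [(nat_lit 0), (nat_lit 2770632), (nat_lit 5270056)]) (PF.cons PF.nil PF.nil)) (PF.cons PF.nil (PF.cons PF.nil PF.nil)))))) (PF.cons (PF.cons (PF.cons (PF.leaf (nat_lit 11108542) (nat_lit 4900040) (nat_lit 29535141) (nat_lit 4900040) [(nat_lit 0), (nat_lit 0), (nat_lit 5445605)]) (PF.cons (PF.leaf (nat_lit 11558817)
 (nat_lit 1022462) (nat_lit 28918207) (nat_lit 4849348) [(nat_lit 1022462), (nat_lit 0), (nat_lit 5386465)]) (PF.cons (PF.leaf (nat_lit 12006901) (nat_lit 1019901) (nat_lit 28313474) (nat_lit 4797585) [(nat_lit 1019901), (nat_lit 0), (nat_lit 5326324)]) (PF.cons (PF.leaf (nat_lit 12451574) (nat_lit 1016339) (nat_lit 27722076) (nat_lit 4745003) [(nat_lit 1016339), (nat_lit 0), (nat_lit 5265452)]) (PF.cons PF.nil (PF.cons PF.nil PF.nil)))))) (PF.cons (PF.cons (PF.leaf (nat_lit 11959682) (nat_lit 2766814) (nat_lit 27914258) (nat_lit 4755452) [(nat_lit 0), (nat_lit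 2766814), (nat_lit 5278714)]) (PF.cons (PF.leaf (nat_lit 12396848) (nat_lit 1007015) (nat_lit 27341497) (nat_lit 4703719) [(nat_lit 1007015), (nat_lit 2743368), (nat_lit 5218868)]) (PF.cons PF.nil (PF.cons PF.nil PF.nil)))) (PF.cons (PF.cons (PF.leaf (nat_lit 12772097) (nat_lit 2696717) (nat_lit 26424586) (nat_lit 4611215) [(nat_lit 0), (nat_lit 2696717), (nat_lit 5113262)]) (PF.cons PF.nil PF.nil)) (PF.cons PF.nil PF.nil)))) (PF.cons (PF.cons (PF.cons (PF.leaf (nat_lit 12261501) (nat_lit 4618106) (nat_lit 26629350) (nat_lit 4618106) [(nat_lit 0), (nat_lit 0), (nat_lit 5123050)]) (PF.cons (PF.leaf (nat_lit 12684881) (nat_lit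
 983240) (nat_lit 26101437) (nat_lit 4567924) [(nat_lit 983240), (nat_lit 0), (nat_lit 5065172)]) PF.nil)) (PF.cons PF.nil PF.nil)) (PF.cons PF.nil (PF.cons PF.nil (PF.cons PF.nil (PF.cons PF.nil PF.nil))))))))))))

def p15_38_0_0 : pfC (piC [(nat_lit 30365544), (nat_lit 20402210), (nat_lit 13167684)] (nat_lit 13823025)) p15_38_0 (nat_lit 3) (nat_lit 0) (nat_lit 1) = true := by decide +kernel
def p15_38_0_1 : pfC (piC [(nat_lit 30365544), (nat_lit 20402210), (nat_lit 13167684)] (nat_lit 13823025)) p15_38_0 (nat_lit 3) (nat_lit 1) (nat_lit 2) = true := by decide +kernel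
def p15_38_0_2 : pfC (piC [(nat_lit 30365544), (nat_lit 20402210), (nat_lit 13167684)] (nat_lit 13823025)) p15_38_0 (nat_lit 3) (nat_lit 2) (nat_lit 3) = true := by decide +kernel
def p15_38_0_3 : pfC (piC [(nat_lit 30365544), (nat_lit 20402210), (nat_lit 13167684)] (nat_lit 13823025)) p15_38_0 (nat_lit 3) (nat_lit 3) (nat_lit 4) = true := by decide +kernel
def p15_38_0_4 : pfC (piC [(nat_lit 30365544), (nat_lit 20402210), (nat_lit 13167684)] (nat_lit 13823025)) p15_38_0 (nat_lit 3) (nat_lit 4) (nat_lit 5) = true := by decide +kernel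
def p15_38_0_5 : pfC (piC [(nat_lit 30365544), (nat_lit 20402210), (nat_lit 13167684)] (nat_lit 13823025)) p15_38_0 (nat_lit 3) (nat_lit 5) (nat_lit 6) = true := by decide +kernel
def p15_38_0_6 : pfC (piC [(nat_lit 30365544), (nat_lit 20402210), (nat_lit 13167684)] (nat_lit 13823025)) p15_38_0 (nat_lit 3) (nat_lit 6) (nat_lit 7) = true := by decide +kernel
def p15_38_0_7 : pfC (piC [(nat_lit 30365544), (nat_lit 20402210), (nat_lit 13167684)] (nat_lit 13823025)) p15_38_0 (nat_lit 3) (nat_lit 7) (nat_lit 8) = true := by decide +kernel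
def p15_38_0_8 : pfC (piC [(nat_lit 30365544), (nat_lit 20402210), (nat_lit 13167684)] (nat_lit 13823025)) p15_38_0 (nat_lit 3) (nat_lit 8) (nat_lit 9) = true := by decide +kernel
def p15_38_0_9 : pfC (piC [(nat_lit 30365544), (nat_lit 20402210), (nat_lit 13167684)] (nat_lit 13823025)) p15_38_0 (nat_lit 3) (nat_lit 9) (nat_lit 10) = true := by decide +kernel
def p15_38_0_10 : pfC (piC [(nat_lit 30365544), (nat_lit 20402210), (nat_lit 13167684)] (nat_lit 13823025)) p15_38_0 (nat_lit 3) (nat_lit 10) (nat_lit 11) = true := by decide +kernel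
def p15_38_0_11 : pfC (piC [(nat_lit 30365544), (nat_lit 20402210), (nat_lit 13167684)] (nat_lit 13823025)) p15_38_0 (nat_lit 3) (nat_lit 11) (nat_lit 12) = true := by decide +kernel
def p15_38_0_12 : pfC (piC [(nat_lit 30365544), (nat_lit 20402210), (nat_lit 13167684)] (nat_lit 13823025)) p15_38_0 (nat_lit 3) (nat_lit 12) (nat_lit 13) = true := by decide +kernel
def p15_38_0_13 : pfC (piC [(nat_lit 30365544), (nat_lit 20402210), (nat_lit 13167684)] (nat_lit 13823025)) p15_38_0 (nat_lit 3) (nat_lit 13) (nat_lit 14) = true := by decide +kernel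
def p15_38_0_14 : pfC (piC [(nat_lit 30365544), (nat_lit 20402210), (nat_lit 13167684)] (nat_lit 13823025)) p15_38_0 (nat_lit 3) (nat_lit 14) (nat_lit 15) = true := by decide +kernel
def p15_38_0_15 : pfC (piC [(nat_lit 30365544), (nat_lit 20402210), (nat_lit 13167684)] (nat_lit 13823025)) p15_38_0 (nat_lit 3) (nat_lit 15) (nat_lit 16) = true := by decide +kernel
def p15_38_0_16 : pfC (piC [(nat_lit 30365544), (nat_lit 20402210), (nat_lit 13167684)] (nat_lit 13823025)) p15_38_0 (nat_lit 3) (nat_lit 16) (nat_lit 17) = true := by decide +kernel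
def p15_38_0_17 : pfC (piC [(nat_lit 30365544), (nat_lit 20402210), (nat_lit 13167684)] (nat_lit 13823025)) p15_38_0 (nat_lit 3) (nat_lit 17) (nat_lit 18) = true := by decide +kernel
def p15_38_0_18 : pfC (piC [(nat_lit 30365544), (nat_lit 20402210), (nat_lit 13167684)] (nat_lit 13823025)) p15_38_0 (nat_lit 3) (nat_lit 18) (nat_lit 19) = true := by decide +kernel
def p15_38_0_19 : pfC (piC [(nat_lit 30365544), (nat_lit 20402210), (nat_lit 13167684)] (nat_lit 13823025)) p15_38_0 (nat_lit 3) (nat_lit 19) (nat_lit 20) = true := by decide +kernel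
def p15_38_0_20 : pfC (piC [(nat_lit 30365544), (nat_lit 20402210), (nat_lit 13167684)] (nat_lit 13823025)) p15_38_0 (nat_lit 3) (nat_lit 20) (nat_lit 21) = true := by decide +kernel
def p15_38_0_21 : pfC (piC [(nat_lit 30365544), (nat_lit 20402210), (nat_lit 13167684)] (nat_lit 13823025)) p15_38_0 (nat_lit 3) (nat_lit 21) (nat_lit 22) = true := by decide +kernel
def p15_38_0_22 : pfC (piC [(nat_lit 30365544), (nat_lit 20402210), (nat_lit 13167684)] (nat_lit 13823025)) p15_38_0 (nat_lit 3) (nat_lit 22) (nat_lit 23) = true := by decide +kernel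
def p15_38_0_23 : pfC (piC [(nat_lit 30365544), (nat_lit 20402210), (nat_lit 13167684)] (nat_lit 13823025)) p15_38_0 (nat_lit 3) (nat_lit 23) (nat_lit 24) = true := by decide +kernel
def p15_38_0_24 : pfC (piC [(nat_lit 30365544), (nat_lit 20402210), (nat_lit 13167684)] (nat_lit 13823025)) p15_38_0 (nat_lit 3) (nat_lit 24) (nat_lit 25) = true := by decide +kernel
def p15_38_0_25 : pfC (piC [(nat_lit 30365544), (nat_lit 20402210), (nat_lit 13167684)] (nat_lit 13823025)) p15_38_0 (nat_lit 3) (nat_lit 25) (nat_lit 26) = true := by decide +kernel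
def p15_38_0_26 : pfC (piC [(nat_lit 30365544), (nat_lit 20402210), (nat_lit 13167684)] (nat_lit 13823025)) p15_38_0 (nat_lit 3) (nat_lit 26) (nat_lit 27) = true := by decide +kernel
def p15_38_0_27 : pfC (piC [(nat_lit 30365544), (nat_lit 20402210), (nat_lit 13167684)] (nat_lit 13823025)) p15_38_0 (nat_lit 3) (nat_lit 27) (nat_lit 28) = true := by decide +kernel
def p15_38_0_28 : pfC (piC [(nat_lit 30365544), (nat_lit 20402210), (nat_lit 13167684)] (nat_lit 13823025)) p15_38_0 (nat_lit 3) (nat_lit 28) (nat_lit 29) = true := by decide +kernel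
def p15_38_0_29 : pfC (piC [(nat_lit 30365544), (nat_lit 20402210), (nat_lit 13167684)] (nat_lit 13823025)) p15_38_0 (nat_lit 3) (nat_lit 29) (nat_lit 30) = true := by decide +kernel
def p15_38_0_30 : pfC (piC [(nat_lit 30365544), (nat_lit 20402210), (nat_lit 13167684)] (nat_lit 13823025)) p15_38_0 (nat_lit 3) (nat_lit 30) (nat_lit 31) = true := by decide +kernel
def p15_38_0_31 : pfC (piC [(nat_lit 30365544), (nat_lit 20402210), (nat_lit 13167684)] (nat_lit 13823025)) p15_38_0 (nat_lit 3) (nat_lit 31) (nat_lit 32) = true := by decide +kernel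
def p15_38_0_32 : pfC (piC [(nat_lit 30365544), (nat_lit 20402210), (nat_lit 13167684)] (nat_lit 13823025)) p15_38_0 (nat_lit 3) (nat_lit 32) (nat_lit 33) = true := by decide +kernel
def p15_38_0_33 : pfC (piC [(nat_lit 30365544), (nat_lit 20402210), (nat_lit 13167684)] (nat_lit 13823025)) p15_38_0 (nat_lit 3) (nat_lit 33) (nat_lit 34) = true := by decide +kernel
def p15_38_0_34 : pfC (piC [(nat_lit 30365544), (nat_lit 20402210), (nat_lit 13167684)] (nat_lit 13823025)) p15_38_0 (nat_lit 3) (nat_lit 34) (nat_lit 35) = true := by decide +kernel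
def p15_38_0_35 : pfC (piC [(nat_lit 30365544), (nat_lit 20402210), (nat_lit 13167684)] (nat_lit 13823025)) p15_38_0 (nat_lit 3) (nat_lit 35) (nat_lit 36) = true := by decide +kernel
def p15_38_0_36 : pfC (piC [(nat_lit 30365544), (nat_lit 20402210), (nat_lit 13167684)] (nat_lit 13823025)) p15_38_0 (nat_lit 3) (nat_lit 36) (nat_lit 37) = true := by decide +kernel
def p15_38_0_37 : pfC (piC [(nat_lit 30365544), (nat_lit 20402210), (nat_lit 13167684)] (nat_lit 13823025)) p15_38_0 (nat_lit 3) (nat_lit 37) (nat_lit 38) = true := by decide +kernel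
def p15_38_0_38 : pfC (piC [(nat_lit 30365544), (nat_lit 20402210), (nat_lit 13167684)] (nat_lit 13823025)) p15_38_0 (nat_lit 3) (nat_lit 38) (nat_lit 39) = true := by decide +kernel
def p15_38_0_39 : pfC (piC [(nat_lit 30365544), (nat_lit 20402210), (nat_lit 13167684)] (nat_lit 13823025)) p15_38_0 (nat_lit 3) (nat_lit 39) (nat_lit 40) = true := by decide +kernel
def p15_38_0_40 : pfC (piC [(nat_lit 30365544), (nat_lit 20402210), (nat_lit 13167684)] (nat_lit 13823025)) p15_38_0 (nat_lit 3) (nat_lit 40) (nat_lit 41) = true := by decide +kernel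
def p15_38_0_41 : pfC (piC [(nat_lit 30365544), (nat_lit 20402210), (nat_lit 13167684)] (nat_lit 13823025)) p15_38_0 (nat_lit 3) (nat_lit 41) (nat_lit 42) = true := by decide +kernel
def p15_38_0_42 : pfC (piC [(nat_lit 30365544), (nat_lit 20402210), (nat_lit 13167684)] (nat_lit 13823025)) p15_38_0 (nat_lit 3) (nat_lit 42) (nat_lit 43) = true := by decide +kernel
def p15_38_0_43 : pfC (piC [(nat_lit 30365544), (nat_lit 20402210), (nat_lit 13167684)] (nat_lit 13823025)) p15_38_0 (nat_lit 3) (nat_lit 43) (nat_lit 44) = true := by decide +kernel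
def p15_38_0_44 : pfC (piC [(nat_lit 30365544), (nat_lit 20402210), (nat_lit 13167684)] (nat_lit 13823025)) p15_38_0 (nat_lit 3) (nat_lit 44) (nat_lit 45) = true := by decide +kernel
def p15_38_0_45 : pfC (piC [(nat_lit 30365544), (nat_lit 20402210), (nat_lit 13167684)] (nat_lit 13823025)) p15_38_0 (nat_lit 3) (nat_lit 45) (nat_lit 46) = true := by decide +kernel
def p15_38_0_46 : pfC (piC [(nat_lit 30365544), (nat_lit 20402210), (nat_lit 13167684)] (nat_lit 13823025)) p15_38_0 (nat_lit 3) (nat_lit 46) (nat_lit 47) = true := by decide +kernel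
def p15_38_0_47 : pfC (piC [(nat_lit 30365544), (nat_lit 20402210), (nat_lit 13167684)] (nat_lit 13823025)) p15_38_0 (nat_lit 3) (nat_lit 47) (nat_lit 48) = true := by decide +kernel
def p15_38_0_48 : pfC (piC [(nat_lit 30365544), (nat_lit 20402210), (nat_lit 13167684)] (nat_lit 13823025)) p15_38_0 (nat_lit 3) (nat_lit 48) (nat_lit 49) = true := by decide +kernel
def p15_38_0_49 : pfC (piC [(nat_lit 30365544), (nat_lit 20402210), (nat_lit 13167684)] (nat_lit 13823025)) p15_38_0 (nat_lit 3) (nat_lit 49) (nat_lit 50) = true := by decide +kernel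
def p15_38_0_50 : pfC (piC [(nat_lit 30365544), (nat_lit 20402210), (nat_lit 13167684)] (nat_lit 13823025)) p15_38_0 (nat_lit 3) (nat_lit 50) (nat_lit 51) = true := by decide +kernel
def p15_38_0_51 : pfC (piC [(nat_lit 30365544), (nat_lit 20402210), (nat_lit 13167684)] (nat_lit 13823025)) p15_38_0 (nat_lit 3) (nat_lit 51) (nat_lit 52) = true := by decide +kernel
def p15_38_0_52 : pfC (piC [(nat_lit 30365544), (nat_lit 20402210), (nat_lit 13167684)] (nat_lit 13823025)) p15_38_0 (nat_lit 3) (nat_lit 52) (nat_lit 53) = true := by decide +kernel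
def p15_38_0_53 : pfC (piC [(nat_lit 30365544), (nat_lit 20402210), (nat_lit 13167684)] (nat_lit 13823025)) p15_38_0 (nat_lit 3) (nat_lit 53) (nat_lit 54) = true := by decide +kernel
def p15_38_0_54 : pfC (piC [(nat_lit 30365544), (nat_lit 20402210), (nat_lit 13167684)] (nat_lit 13823025)) p15_38_0 (nat_lit 3) (nat_lit 54) (nat_lit 55) = true := by decide +kernel
def p15_38_0_55 : pfC (piC [(nat_lit 30365544), (nat_lit 20402210), (nat_lit 13167684)] (nat_lit 13823025)) p15_38_0 (nat_lit 3) (nat_lit 55) (nat_lit 56) = true := by decide +kernel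
def p15_38_0_56 : pfC (piC [(nat_lit 30365544), (nat_lit 20402210), (nat_lit 13167684)] (nat_lit 13823025)) p15_38_0 (nat_lit 3) (nat_lit 56) (nat_lit 57) = true := by decide +kernel
def p15_38_0_57 : pfC (piC [(nat_lit 30365544), (nat_lit 20402210), (nat_lit 13167684)] (nat_lit 13823025)) p15_38_0 (nat_lit 3) (nat_lit 57) (nat_lit 58) = true := by decide +kernel
def p15_38_0_58 : pfC (piC [(nat_lit 30365544), (nat_lit 20402210), (nat_lit 13167684)] (nat_lit 13823025)) p15_38_0 (nat_lit 3) (nat_lit 58) (nat_lit 59) = true := by decide +kernel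
def p15_38_0_59 : pfC (piC [(nat_lit 30365544), (nat_lit 20402210), (nat_lit 13167684)] (nat_lit 13823025)) p15_38_0 (nat_lit 3) (nat_lit 59) (nat_lit 60) = true := by decide +kernel
def p15_38_0_60 : pfC (piC [(nat_lit 30365544), (nat_lit 20402210), (nat_lit 13167684)] (nat_lit 13823025)) p15_38_0 (nat_lit 3) (nat_lit 60) (nat_lit 61) = true := by decide +kernel
def p15_38_0_61 : pfC (piC [(nat_lit 30365544), (nat_lit 20402210), (nat_lit 13167684)] (nat_lit 13823025)) p15_38_0 (nat_lit 3) (nat_lit 61) (nat_lit 62) = true := by decide +kernel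
def p15_38_0_62 : pfC (piC [(nat_lit 30365544), (nat_lit 20402210), (nat_lit 13167684)] (nat_lit 13823025)) p15_38_0 (nat_lit 3) (nat_lit 62) (nat_lit 63) = true := by decide +kernel
def p15_38_0_63 : pfC (piC [(nat_lit 30365544), (nat_lit 20402210), (nat_lit 13167684)] (nat_lit 13823025)) p15_38_0 (nat_lit 3) (nat_lit 63) (nat_lit 64) = true := by decide +kernel
def p15_38_0_64 : pfC (piC [(nat_lit 30365544), (nat_lit 20402210), (nat_lit 13167684)] (nat_lit 13823025)) p15_38_0 (nat_lit 3) (nat_lit 64) (nat_lit 65) = true := by decide +kernel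
def p15_38_0_65 : pfC (piC [(nat_lit 30365544), (nat_lit 20402210), (nat_lit 13167684)] (nat_lit 13823025)) p15_38_0 (nat_lit 3) (nat_lit 65) (nat_lit 66) = true := by decide +kernel
def p15_38_0_66 : pfC (piC [(nat_lit 30365544), (nat_lit 20402210), (nat_lit 13167684)] (nat_lit 13823025)) p15_38_0 (nat_lit 3) (nat_lit 66) (nat_lit 67) = true := by decide +kernel
def p15_38_0_67 : pfC (piC [(nat_lit 30365544), (nat_lit 20402210), (nat_lit 13167684)] (nat_lit 13823025)) p15_38_0 (nat_lit 3) (nat_lit 67) (nat_lit 68) = true := by decide +kernel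
def p15_38_0_68 : pfC (piC [(nat_lit 30365544), (nat_lit 20402210), (nat_lit 13167684)] (nat_lit 13823025)) p15_38_0 (nat_lit 3) (nat_lit 68) (nat_lit 69) = true := by decide +kernel
def p15_38_0_69 : pfC (piC [(nat_lit 30365544), (nat_lit 20402210), (nat_lit 13167684)] (nat_lit 13823025)) p15_38_0 (nat_lit 3) (nat_lit 69) (nat_lit 70) = true := by decide +kernel
def p15_38_0_70 : pfC (piC [(nat_lit 30365544), (nat_lit 20402210), (nat_lit 13167684)] (nat_lit 13823025)) p15_38_0 (nat_lit 3) (nat_lit 70) (nat_lit 71) = true := by decide +kernel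
def p15_38_0_71 : pfC (piC [(nat_lit 30365544), (nat_lit 20402210), (nat_lit 13167684)] (nat_lit 13823025)) p15_38_0 (nat_lit 3) (nat_lit 71) (nat_lit 72) = true := by decide +kernel
def p15_38_0_72 : pfC (piC [(nat_lit 30365544), (nat_lit 20402210), (nat_lit 13167684)] (nat_lit 13823025)) p15_38_0 (nat_lit 3) (nat_lit 72) (nat_lit 73) = true := by decide +kernel
def p15_38_0_73 : pfC (piC [(nat_lit 30365544), (nat_lit 20402210), (nat_lit 13167684)] (nat_lit 13823025)) p15_38_0 (nat_lit 3) (nat_lit 73) (nat_lit 74) = true := by decide +kernel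
def p15_38_0_74 : pfC (piC [(nat_lit 30365544), (nat_lit 20402210), (nat_lit 13167684)] (nat_lit 13823025)) p15_38_0 (nat_lit 3) (nat_lit 74) (nat_lit 75) = true := by decide +kernel
def p15_38_0_75 : pfC (piC [(nat_lit 30365544), (nat_lit 20402210), (nat_lit 13167684)] (nat_lit 13823025)) p15_38_0 (nat_lit 3) (nat_lit 75) (nat_lit 76) = true := by decide +kernel
def p15_38_0_76 : pfC (piC [(nat_lit 30365544), (nat_lit 20402210), (nat_lit 13167684)] (nat_lit 13823025)) p15_38_0 (nat_lit 3) (nat_lit 76) (nat_lit 77) = true := by decide +kernel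
def p15_38_0_77 : pfC (piC [(nat_lit 30365544), (nat_lit 20402210), (nat_lit 13167684)] (nat_lit 13823025)) p15_38_0 (nat_lit 3) (nat_lit 77) (nat_lit 78) = true := by decide +kernel
def p15_38_0_78 : pfC (piC [(nat_lit 30365544), (nat_lit 20402210), (nat_lit 13167684)] (nat_lit 13823025)) p15_38_0 (nat_lit 3) (nat_lit 78) (nat_lit 79) = true := by decide +kernel
def p15_38_0_79 : pfC (piC [(nat_lit 30365544), (nat_lit 20402210), (nat_lit 13167684)] (nat_lit 13823025)) p15_38_0 (nat_lit 3) (nat_lit 79) (nat_lit 80) = true := by decide +kernel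
def p15_38_0_80 : pfC (piC [(nat_lit 30365544), (nat_lit 20402210), (nat_lit 13167684)] (nat_lit 13823025)) p15_38_0 (nat_lit 3) (nat_lit 80) (nat_lit 81) = true := by decide +kernel
def p15_38_0_81 : pfC (piC [(nat_lit 30365544), (nat_lit 20402210), (nat_lit 13167684)] (nat_lit 13823025)) p15_38_0 (nat_lit 3) (nat_lit 81) (nat_lit 82) = true := by decide +kernel
def p15_38_0_82 : pfC (piC [(nat_lit 30365544), (nat_lit 20402210), (nat_lit 13167684)] (nat_lit 13823025)) p15_38_0 (nat_lit 3) (nat_lit 82) (nat_lit 83) = true := by decide +kernel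
def p15_38_0_83 : pfC (piC [(nat_lit 30365544), (nat_lit 20402210), (nat_lit 13167684)] (nat_lit 13823025)) p15_38_0 (nat_lit 3) (nat_lit 83) (nat_lit 84) = true := by decide +kernel
def p15_38_0_84 : pfC (piC [(nat_lit 30365544), (nat_lit 20402210), (nat_lit 13167684)] (nat_lit 13823025)) p15_38_0 (nat_lit 3) (nat_lit 84) (nat_lit 85) = true := by decide +kernel
def p15_38_0_85 : pfC (piC [(nat_lit 30365544), (nat_lit 20402210), (nat_lit 13167684)] (nat_lit 13823025)) p15_38_0 (nat_lit 3) (nat_lit 85) (nat_lit 86) = true := by decide +kernel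
def p15_38_0_86 : pfC (piC [(nat_lit 30365544), (nat_lit 20402210), (nat_lit 13167684)] (nat_lit 13823025)) p15_38_0 (nat_lit 3) (nat_lit 86) (nat_lit 87) = true := by decide +kernel
def p15_38_0_87 : pfC (piC [(nat_lit 30365544), (nat_lit 20402210), (nat_lit 13167684)] (nat_lit 13823025)) p15_38_0 (nat_lit 3) (nat_lit 87) (nat_lit 88) = true := by decide +kernel
def p15_38_0_88 : pfC (piC [(nat_lit 30365544), (nat_lit 20402210), (nat_lit 13167684)] (nat_lit 13823025)) p15_38_0 (nat_lit 3) (nat_lit 88) (nat_lit 89) = true := by decide +kernel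
def p15_38_0_89 : pfC (piC [(nat_lit 30365544), (nat_lit 20402210), (nat_lit 13167684)] (nat_lit 13823025)) p15_38_0 (nat_lit 3) (nat_lit 89) (nat_lit 90) = true := by decide +kernel
def p15_38_0_90 : pfC (piC [(nat_lit 30365544), (nat_lit 20402210), (nat_lit 13167684)] (nat_lit 13823025)) p15_38_0 (nat_lit 3) (nat_lit 90) (nat_lit 91) = true := by decide +kernel
def p15_38_0_91 : pfC (piC [(nat_lit 30365544), (nat_lit 20402210), (nat_lit 13167684)] (nat_lit 13823025)) p15_38_0 (nat_lit 3) (nat_lit 91) (nat_lit 92) = true := by decide +kernel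
def p15_38_0_92 : pfC (piC [(nat_lit 30365544), (nat_lit 20402210), (nat_lit 13167684)] (nat_lit 13823025)) p15_38_0 (nat_lit 3) (nat_lit 92) (nat_lit 93) = true := by decide +kernel
def p15_38_0_93 : pfC (piC [(nat_lit 30365544), (nat_lit 20402210), (nat_lit 13167684)] (nat_lit 13823025)) p15_38_0 (nat_lit 3) (nat_lit 93) (nat_lit 94) = true := by decide +kernel
def p15_38_0_94 : pfC (piC [(nat_lit 30365544), (nat_lit 20402210), (nat_lit 13167684)] (nat_lit 13823025)) p15_38_0 (nat_lit 3) (nat_lit 94) (nat_lit 95) = true := by decide +kernel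
def p15_38_0_95 : pfC (piC [(nat_lit 30365544), (nat_lit 20402210), (nat_lit 13167684)] (nat_lit 13823025)) p15_38_0 (nat_lit 3) (nat_lit 95) (nat_lit 96) = true := by decide +kernel
def p15_38_0_96 : pfC (piC [(nat_lit 30365544), (nat_lit 20402210), (nat_lit 13167684)] (nat_lit 13823025)) p15_38_0 (nat_lit 3) (nat_lit 96) (nat_lit 97) = true := by decide +kernel
def p15_38_0_97 : pfC (piC [(nat_lit 30365544), (nat_lit 20402210), (nat_lit 13167684)] (nat_lit 13823025)) p15_38_0 (nat_lit 3) (nat_lit 97) (nat_lit 98) = true := by decide +kernel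
def p15_38_0_98 : pfC (piC [(nat_lit 30365544), (nat_lit 20402210), (nat_lit 13167684)] (nat_lit 13823025)) p15_38_0 (nat_lit 3) (nat_lit 98) (nat_lit 99) = true := by decide +kernel
def p15_38_0_99 : pfC (piC [(nat_lit 30365544), (nat_lit 20402210), (nat_lit 13167684)] (nat_lit 13823025)) p15_38_0 (nat_lit 3) (nat_lit 99) (nat_lit 100) = true := by decide +kernel
def p15_38_0_100 : pfC (piC [(nat_lit 30365544), (nat_lit 20402210), (nat_lit 13167684)] (nat_lit 13823025)) p15_38_0 (nat_lit 3) (nat_lit 100) (nat_lit 101) = true := by decide +kernel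
def p15_38_0_101 : pfC (piC [(nat_lit 30365544), (nat_lit 20402210), (nat_lit 13167684)] (nat_lit 13823025)) p15_38_0 (nat_lit 3) (nat_lit 101) (nat_lit 102) = true := by decide +kernel
def p15_38_0_102 : pfC (piC [(nat_lit 30365544), (nat_lit 20402210), (nat_lit 13167684)] (nat_lit 13823025)) p15_38_0 (nat_lit 3) (nat_lit 102) (nat_lit 103) = true := by decide +kernel
def p15_38_0_103 : pfC (piC [(nat_lit 30365544), (nat_lit 20402210), (nat_lit 13167684)] (nat_lit 13823025)) p15_38_0 (nat_lit 3) (nat_lit 103) (nat_lit 104) = true := by decide +kernel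
def p15_38_0_104 : pfC (piC [(nat_lit 30365544), (nat_lit 20402210), (nat_lit 13167684)] (nat_lit 13823025)) p15_38_0 (nat_lit 3) (nat_lit 104) (nat_lit 105) = true := by decide +kernel
def p15_38_0_105 : pfC (piC [(nat_lit 30365544), (nat_lit 20402210), (nat_lit 13167684)] (nat_lit 13823025)) p15_38_0 (nat_lit 3) (nat_lit 105) (nat_lit 106) = true := by decide +kernel
def p15_38_0_106 : pfC (piC [(nat_lit 30365544), (nat_lit 20402210), (nat_lit 13167684)] (nat_lit 13823025)) p15_38_0 (nat_lit 3) (nat_lit 106) (nat_lit 107) = true := by decide +kernel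
def p15_38_0_107 : pfC (piC [(nat_lit 30365544), (nat_lit 20402210), (nat_lit 13167684)] (nat_lit 13823025)) p15_38_0 (nat_lit 3) (nat_lit 107) (nat_lit 108) = true := by decide +kernel
def p15_38_0_108 : pfC (piC [(nat_lit 30365544), (nat_lit 20402210), (nat_lit 13167684)] (nat_lit 13823025)) p15_38_0 (nat_lit 3) (nat_lit 108) (nat_lit 109) = true := by decide +kernel
def p15_38_0_109 : pfC (piC [(nat_lit 30365544), (nat_lit 20402210), (nat_lit 13167684)] (nat_lit 13823025)) p15_38_0 (nat_lit 3) (nat_lit 109) (nat_lit 110) = true := by decide +kernel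
def p15_38_0_110 : pfC (piC [(nat_lit 30365544), (nat_lit 20402210), (nat_lit 13167684)] (nat_lit 13823025)) p15_38_0 (nat_lit 3) (nat_lit 110) (nat_lit 111) = true := by decide +kernel
def p15_38_0_111 : pfC (piC [(nat_lit 30365544), (nat_lit 20402210), (nat_lit 13167684)] (nat_lit 13823025)) p15_38_0 (nat_lit 3) (nat_lit 111) (nat_lit 112) = true := by decide +kernel
def p15_38_0_112 : pfC (piC [(nat_lit 30365544), (nat_lit 20402210), (nat_lit 13167684)] (nat_lit 13823025)) p15_38_0 (nat_lit 3) (nat_lit 112) (nat_lit 113) = true := by decide +kernel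
def p15_38_0_113 : pfC (piC [(nat_lit 30365544), (nat_lit 20402210), (nat_lit 13167684)] (nat_lit 13823025)) p15_38_0 (nat_lit 3) (nat_lit 113) (nat_lit 114) = true := by decide +kernel
def p15_38_0_114 : pfC (piC [(nat_lit 30365544), (nat_lit 20402210), (nat_lit 13167684)] (nat_lit 13823025)) p15_38_0 (nat_lit 3) (nat_lit 114) (nat_lit 115) = true := by decide +kernel
def p15_38_0_115 : pfC (piC [(nat_lit 30365544), (nat_lit 20402210), (nat_lit 13167684)] (nat_lit 13823025)) p15_38_0 (nat_lit 3) (nat_lit 115) (nat_lit 116) = true := by decide +kernel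
def p15_38_0_116 : pfC (piC [(nat_lit 30365544), (nat_lit 20402210), (nat_lit 13167684)] (nat_lit 13823025)) p15_38_0 (nat_lit 3) (nat_lit 116) (nat_lit 117) = true := by decide +kernel
def p15_38_0_117 : pfC (piC [(nat_lit 30365544), (nat_lit 20402210), (nat_lit 13167684)] (nat_lit 13823025)) p15_38_0 (nat_lit 3) (nat_lit 117) (nat_lit 118) = true := by decide +kernel
def p15_38_0_118 : pfC (piC [(nat_lit 30365544), (nat_lit 20402210), (nat_lit 13167684)] (nat_lit 13823025)) p15_38_0 (nat_lit 3) (nat_lit 118) (nat_lit 119) = true := by decide +kernel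
def p15_38_0_119 : pfC (piC [(nat_lit 30365544), (nat_lit 20402210), (nat_lit 13167684)] (nat_lit 13823025)) p15_38_0 (nat_lit 3) (nat_lit 119) (nat_lit 120) = true := by decide +kernel
def p15_38_0_120 : pfC (piC [(nat_lit 30365544), (nat_lit 20402210), (nat_lit 13167684)] (nat_lit 13823025)) p15_38_0 (nat_lit 3) (nat_lit 120) (nat_lit 121) = true := by decide +kernel
def p15_38_0_121 : pfC (piC [(nat_lit 30365544), (nat_lit 20402210), (nat_lit 13167684)] (nat_lit 13823025)) p15_38_0 (nat_lit 3) (nat_lit 121) (nat_lit 122) = true := by decide +kernel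
def p15_38_0_122 : pfC (piC [(nat_lit 30365544), (nat_lit 20402210), (nat_lit 13167684)] (nat_lit 13823025)) p15_38_0 (nat_lit 3) (nat_lit 122) (nat_lit 123) = true := by decide +kernel
def p15_38_0_123 : pfC (piC [(nat_lit 30365544), (nat_lit 20402210), (nat_lit 13167684)] (nat_lit 13823025)) p15_38_0 (nat_lit 3) (nat_lit 123) (nat_lit 124) = true := by decide +kernel
def p15_38_0_124 : pfC (piC [(nat_lit 30365544), (nat_lit 20402210), (nat_lit 13167684)] (nat_lit 13823025)) p15_38_0 (nat_lit 3) (nat_lit 124) (nat_lit 125) = true := by decide +kernel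
def p15_38_0_125 : pfC (piC [(nat_lit 30365544), (nat_lit 20402210), (nat_lit 13167684)] (nat_lit 13823025)) p15_38_0 (nat_lit 3) (nat_lit 125) (nat_lit 126) = true := by decide +kernel
def p15_38_0_126 : pfC (piC [(nat_lit 30365544), (nat_lit 20402210), (nat_lit 13167684)] (nat_lit 13823025)) p15_38_0 (nat_lit 3) (nat_lit 126) (nat_lit 127) = true := by decide +kernel
def p15_38_0_127 : pfC (piC [(nat_lit 30365544), (nat_lit 20402210), (nat_lit 13167684)] (nat_lit 13823025)) p15_38_0 (nat_lit 3) (nat_lit 127) (nat_lit 128) = true := by decide +kernel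
def p15_38_0_128 : pfC (piC [(nat_lit 30365544), (nat_lit 20402210), (nat_lit 13167684)] (nat_lit 13823025)) p15_38_0 (nat_lit 3) (nat_lit 128) (nat_lit 129) = true := by decide +kernel
def p15_38_0_129 : pfC (piC [(nat_lit 30365544), (nat_lit 20402210), (nat_lit 13167684)] (nat_lit 13823025)) p15_38_0 (nat_lit 3) (nat_lit 129) (nat_lit 130) = true := by decide +kernel
def p15_38_0_130 : pfC (piC [(nat_lit 30365544), (nat_lit 20402210), (nat_lit 13167684)] (nat_lit 13823025)) p15_38_0 (nat_lit 3) (nat_lit 130) (nat_lit 131) = true := by decide +kernel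
def p15_38_0_131 : pfC (piC [(nat_lit 30365544), (nat_lit 20402210), (nat_lit 13167684)] (nat_lit 13823025)) p15_38_0 (nat_lit 3) (nat_lit 131) (nat_lit 132) = true := by decide +kernel
def p15_38_0_132 : pfC (piC [(nat_lit 30365544), (nat_lit 20402210), (nat_lit 13167684)] (nat_lit 13823025)) p15_38_0 (nat_lit 3) (nat_lit 132) (nat_lit 133) = true := by decide +kernel
def p15_38_0_133 : pfC (piC [(nat_lit 30365544), (nat_lit 20402210), (nat_lit 13167684)] (nat_lit 13823025)) p15_38_0 (nat_lit 3) (nat_lit 133) (nat_lit 134) = true := by decide +kernel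
def p15_38_0_134 : pfC (piC [(nat_lit 30365544), (nat_lit 20402210), (nat_lit 13167684)] (nat_lit 13823025)) p15_38_0 (nat_lit 3) (nat_lit 134) (nat_lit 135) = true := by decide +kernel
def p15_38_0_135 : pfC (piC [(nat_lit 30365544), (nat_lit 20402210), (nat_lit 13167684)] (nat_lit 13823025)) p15_38_0 (nat_lit 3) (nat_lit 135) (nat_lit 136) = true := by decide +kernel
def p15_38_0_136 : pfC (piC [(nat_lit 30365544), (nat_lit 20402210), (nat_lit 13167684)] (nat_lit 13823025)) p15_38_0 (nat_lit 3) (nat_lit 136) (nat_lit 137) = true := by decide +kernel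
def p15_38_0_137 : pfC (piC [(nat_lit 30365544), (nat_lit 20402210), (nat_lit 13167684)] (nat_lit 13823025)) p15_38_0 (nat_lit 3) (nat_lit 137) (nat_lit 138) = true := by decide +kernel
def p15_38_0_138 : pfC (piC [(nat_lit 30365544), (nat_lit 20402210), (nat_lit 13167684)] (nat_lit 13823025)) p15_38_0 (nat_lit 3) (nat_lit 138) (nat_lit 139) = true := by decide +kernel
def p15_38_0_139 : pfC (piC [(nat_lit 30365544), (nat_lit 20402210), (nat_lit 13167684)] (nat_lit 13823025)) p15_38_0 (nat_lit 3) (nat_lit 139) (nat_lit 140) = true := by decide +kernel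
def p15_38_0_140 : pfC (piC [(nat_lit 30365544), (nat_lit 20402210), (nat_lit 13167684)] (nat_lit 13823025)) p15_38_0 (nat_lit 3) (nat_lit 140) (nat_lit 141) = true := by decide +kernel
def p15_38_0_141 : pfC (piC [(nat_lit 30365544), (nat_lit 20402210), (nat_lit 13167684)] (nat_lit 13823025)) p15_38_0 (nat_lit 3) (nat_lit 141) (nat_lit 142) = true := by decide +kernel
def p15_38_0_142 : pfC (piC [(nat_lit 30365544), (nat_lit 20402210), (nat_lit 13167684)] (nat_lit 13823025)) p15_38_0 (nat_lit 3) (nat_lit 142) (nat_lit 143) = true := by decide +kernel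
def p15_38_0_143 : pfC (piC [(nat_lit 30365544), (nat_lit 20402210), (nat_lit 13167684)] (nat_lit 13823025)) p15_38_0 (nat_lit 3) (nat_lit 143) (nat_lit 144) = true := by decide +kernel
def p15_38_0_144 : pfC (piC [(nat_lit 30365544), (nat_lit 20402210), (nat_lit 13167684)] (nat_lit 13823025)) p15_38_0 (nat_lit 3) (nat_lit 144) (nat_lit 145) = true := by decide +kernel
def p15_38_0_145 : pfC (piC [(nat_lit 30365544), (nat_lit 20402210), (nat_lit 13167684)] (nat_lit 13823025)) p15_38_0 (nat_lit 3) (nat_lit 145) (nat_lit 146) = true := by decide +kernel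
def p15_38_0_146 : pfC (piC [(nat_lit 30365544), (nat_lit 20402210), (nat_lit 13167684)] (nat_lit 13823025)) p15_38_0 (nat_lit 3) (nat_lit 146) (nat_lit 147) = true := by decide +kernel
def p15_38_0_147 : pfC (piC [(nat_lit 30365544), (nat_lit 20402210), (nat_lit 13167684)] (nat_lit 13823025)) p15_38_0 (nat_lit 3) (nat_lit 147) (nat_lit 148) = true := by decide +kernel
def p15_38_0_148 : pfC (piC [(nat_lit 30365544), (nat_lit 20402210), (nat_lit 13167684)] (nat_lit 13823025)) p15_38_0 (nat_lit 3) (nat_lit 148) (nat_lit 149) = true := by decide +kernel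
def p15_38_0_149 : pfC (piC [(nat_lit 30365544), (nat_lit 20402210), (nat_lit 13167684)] (nat_lit 13823025)) p15_38_0 (nat_lit 3) (nat_lit 149) (nat_lit 150) = true := by decide +kernel
def p15_38_0_150 : pfC (piC [(nat_lit 30365544), (nat_lit 20402210), (nat_lit 13167684)] (nat_lit 13823025)) p15_38_0 (nat_lit 3) (nat_lit 150) (nat_lit 151) = true := by decide +kernel
def p15_38_0_151 : pfC (piC [(nat_lit 30365544), (nat_lit 20402210), (nat_lit 13167684)] (nat_lit 13823025)) p15_38_0 (nat_lit 3) (nat_lit 151) (nat_lit 152) = true := by decide +kernel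
def p15_38_0_152 : pfC (piC [(nat_lit 30365544), (nat_lit 20402210), (nat_lit 13167684)] (nat_lit 13823025)) p15_38_0 (nat_lit 3) (nat_lit 152) (nat_lit 153) = true := by decide +kernel
def p15_38_0_153 : pfC (piC [(nat_lit 30365544), (nat_lit 20402210), (nat_lit 13167684)] (nat_lit 13823025)) p15_38_0 (nat_lit 3) (nat_lit 153) (nat_lit 154) = true := by decide +kernel
def p15_38_0_154 : pfC (piC [(nat_lit 30365544), (nat_lit 20402210), (nat_lit 13167684)] (nat_lit 13823025)) p15_38_0 (nat_lit 3) (nat_lit 154) (nat_lit 155) = true := by decide +kernel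
def p15_38_0_155 : pfC (piC [(nat_lit 30365544), (nat_lit 20402210), (nat_lit 13167684)] (nat_lit 13823025)) p15_38_0 (nat_lit 3) (nat_lit 155) (nat_lit 156) = true := by decide +kernel
def p15_38_0_156 : pfC (piC [(nat_lit 30365544), (nat_lit 20402210), (nat_lit 13167684)] (nat_lit 13823025)) p15_38_0 (nat_lit 3) (nat_lit 156) (nat_lit 157) = true := by decide +kernel
def p15_38_0_157 : pfC (piC [(nat_lit 30365544), (nat_lit 20402210), (nat_lit 13167684)] (nat_lit 13823025)) p15_38_0 (nat_lit 3) (nat_lit 157) (nat_lit 158) = true := by decide +kernel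
def p15_38_0_158 : pfC (piC [(nat_lit 30365544), (nat_lit 20402210), (nat_lit 13167684)] (nat_lit 13823025)) p15_38_0 (nat_lit 3) (nat_lit 158) (nat_lit 159) = true := by decide +kernel
def p15_38_0_159 : pfC (piC [(nat_lit 30365544), (nat_lit 20402210), (nat_lit 13167684)] (nat_lit 13823025)) p15_38_0 (nat_lit 3) (nat_lit 159) (nat_lit 160) = true := by decide +kernel
def p15_38_0_160 : pfC (piC [(nat_lit 30365544), (nat_lit 20402210), (nat_lit 13167684)] (nat_lit 13823025)) p15_38_0 (nat_lit 3) (nat_lit 160) (nat_lit 161) = true := by decide +kernel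
def p15_38_0_161 : pfC (piC [(nat_lit 30365544), (nat_lit 20402210), (nat_lit 13167684)] (nat_lit 13823025)) p15_38_0 (nat_lit 3) (nat_lit 161) (nat_lit 162) = true := by decide +kernel
def p15_38_0_162 : pfC (piC [(nat_lit 30365544), (nat_lit 20402210), (nat_lit 13167684)] (nat_lit 13823025)) p15_38_0 (nat_lit 3) (nat_lit 162) (nat_lit 163) = true := by decide +kernel
def p15_38_0_163 : pfC (piC [(nat_lit 30365544), (nat_lit 20402210), (nat_lit 13167684)] (nat_lit 13823025)) p15_38_0 (nat_lit 3) (nat_lit 163) (nat_lit 164) = true := by decide +kernel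
def p15_38_0_164 : pfC (piC [(nat_lit 30365544), (nat_lit 20402210), (nat_lit 13167684)] (nat_lit 13823025)) p15_38_0 (nat_lit 3) (nat_lit 164) (nat_lit 165) = true := by decide +kernel
def p15_38_0_165 : pfC (piC [(nat_lit 30365544), (nat_lit 20402210), (nat_lit 13167684)] (nat_lit 13823025)) p15_38_0 (nat_lit 3) (nat_lit 165) (nat_lit 166) = true := by decide +kernel
def p15_38_0_166 : pfC (piC [(nat_lit 30365544), (nat_lit 20402210), (nat_lit 13167684)] (nat_lit 13823025)) p15_38_0 (nat_lit 3) (nat_lit 166) (nat_lit 167) = true := by decide +kernel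
def p15_38_0_167 : pfC (piC [(nat_lit 30365544), (nat_lit 20402210), (nat_lit 13167684)] (nat_lit 13823025)) p15_38_0 (nat_lit 3) (nat_lit 167) (nat_lit 168) = true := by decide +kernel
def p15_38_0_168 : pfC (piC [(nat_lit 30365544), (nat_lit 20402210), (nat_lit 13167684)] (nat_lit 13823025)) p15_38_0 (nat_lit 3) (nat_lit 168) (nat_lit 169) = true := by decide +kernel
def p15_38_0_169 : pfC (piC [(nat_lit 30365544), (nat_lit 20402210), (nat_lit 13167684)] (nat_lit 13823025)) p15_38_0 (nat_lit 3) (nat_lit 169) (nat_lit 170) = true := by decide +kernel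
def p15_38_0_170 : pfC (piC [(nat_lit 30365544), (nat_lit 20402210), (nat_lit 13167684)] (nat_lit 13823025)) p15_38_0 (nat_lit 3) (nat_lit 170) (nat_lit 171) = true := by decide +kernel
def p15_38_0_171 : pfC (piC [(nat_lit 30365544), (nat_lit 20402210), (nat_lit 13167684)] (nat_lit 13823025)) p15_38_0 (nat_lit 3) (nat_lit 171) (nat_lit 172) = true := by decide +kernel
def p15_38_0_172 : pfC (piC [(nat_lit 30365544), (nat_lit 20402210), (nat_lit 13167684)] (nat_lit 13823025)) p15_38_0 (nat_lit 3) (nat_lit 172) (nat_lit 173) = true := by decide +kernel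
def p15_38_0_173 : pfC (piC [(nat_lit 30365544), (nat_lit 20402210), (nat_lit 13167684)] (nat_lit 13823025)) p15_38_0 (nat_lit 3) (nat_lit 173) (nat_lit 174) = true := by decide +kernel
def p15_38_0_174 : pfC (piC [(nat_lit 30365544), (nat_lit 20402210), (nat_lit 13167684)] (nat_lit 13823025)) p15_38_0 (nat_lit 3) (nat_lit 174) (nat_lit 175) = true := by decide +kernel
def p15_38_0_175 : pfC (piC [(nat_lit 30365544), (nat_lit 20402210), (nat_lit 13167684)] (nat_lit 13823025)) p15_38_0 (nat_lit 3) (nat_lit 175) (nat_lit 176) = true := by decide +kernel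
def p15_38_0_176 : pfC (piC [(nat_lit 30365544), (nat_lit 20402210), (nat_lit 13167684)] (nat_lit 13823025)) p15_38_0 (nat_lit 3) (nat_lit 176) (nat_lit 177) = true := by decide +kernel
def p15_38_0_177 : pfC (piC [(nat_lit 30365544), (nat_lit 20402210), (nat_lit 13167684)] (nat_lit 13823025)) p15_38_0 (nat_lit 3) (nat_lit 177) (nat_lit 178) = true := by decide +kernel
def p15_38_0_178 : pfC (piC [(nat_lit 30365544), (nat_lit 20402210), (nat_lit 13167684)] (nat_lit 13823025)) p15_38_0 (nat_lit 3) (nat_lit 178) (nat_lit 179) = true := by decide +kernel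
def p15_38_0_179 : pfC (piC [(nat_lit 30365544), (nat_lit 20402210), (nat_lit 13167684)] (nat_lit 13823025)) p15_38_0 (nat_lit 3) (nat_lit 179) (nat_lit 180) = true := by decide +kernel
def p15_38_0_180 : pfC (piC [(nat_lit 30365544), (nat_lit 20402210), (nat_lit 13167684)] (nat_lit 13823025)) p15_38_0 (nat_lit 3) (nat_lit 180) (nat_lit 181) = true := by decide +kernel
def p15_38_0_181 : pfC (piC [(nat_lit 30365544), (nat_lit 20402210), (nat_lit 13167684)] (nat_lit 13823025)) p15_38_0 (nat_lit 3) (nat_lit 181) (nat_lit 182) = true := by decide +kernel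
def p15_38_0_182 : pfC (piC [(nat_lit 30365544), (nat_lit 20402210), (nat_lit 13167684)] (nat_lit 13823025)) p15_38_0 (nat_lit 3) (nat_lit 182) (nat_lit 183) = true := by decide +kernel
def p15_38_0_183 : pfC (piC [(nat_lit 30365544), (nat_lit 20402210), (nat_lit 13167684)] (nat_lit 13823025)) p15_38_0 (nat_lit 3) (nat_lit 183) (nat_lit 184) = true := by decide +kernel
def p15_38_0_184 : pfC (piC [(nat_lit 30365544), (nat_lit 20402210), (nat_lit 13167684)] (nat_lit 13823025)) p15_38_0 (nat_lit 3) (nat_lit 184) (nat_lit 185) = true := by decide +kernel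
def p15_38_0_185 : pfC (piC [(nat_lit 30365544), (nat_lit 20402210), (nat_lit 13167684)] (nat_lit 13823025)) p15_38_0 (nat_lit 3) (nat_lit 185) (nat_lit 186) = true := by decide +kernel
def p15_38_0_186 : pfC (piC [(nat_lit 30365544), (nat_lit 20402210), (nat_lit 13167684)] (nat_lit 13823025)) p15_38_0 (nat_lit 3) (nat_lit 186) (nat_lit 187) = true := by decide +kernel
def p15_38_0_187 : pfC (piC [(nat_lit 30365544), (nat_lit 20402210), (nat_lit 13167684)] (nat_lit 13823025)) p15_38_0 (nat_lit 3) (nat_lit 187) (nat_lit 188) = true := by decide +kernel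
def p15_38_0_188 : pfC (piC [(nat_lit 30365544), (nat_lit 20402210), (nat_lit 13167684)] (nat_lit 13823025)) p15_38_0 (nat_lit 3) (nat_lit 188) (nat_lit 189) = true := by decide +kernel
def p15_38_0_189 : pfC (piC [(nat_lit 30365544), (nat_lit 20402210), (nat_lit 13167684)] (nat_lit 13823025)) p15_38_0 (nat_lit 3) (nat_lit 189) (nat_lit 190) = true := by decide +kernel
def p15_38_0_190 : pfC (piC [(nat_lit 30365544), (nat_lit 20402210), (nat_lit 13167684)] (nat_lit 13823025)) p15_38_0 (nat_lit 3) (nat_lit 190) (nat_lit 191) = true := by decide +kernel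
def p15_38_0_191 : pfC (piC [(nat_lit 30365544), (nat_lit 20402210), (nat_lit 13167684)] (nat_lit 13823025)) p15_38_0 (nat_lit 3) (nat_lit 191) (nat_lit 192) = true := by decide +kernel
def p15_38_0_192 : pfC (piC [(nat_lit 30365544), (nat_lit 20402210), (nat_lit 13167684)] (nat_lit 13823025)) p15_38_0 (nat_lit 3) (nat_lit 192) (nat_lit 193) = true := by decide +kernel
def p15_38_0_193 : pfC (piC [(nat_lit 30365544), (nat_lit 20402210), (nat_lit 13167684)] (nat_lit 13823025)) p15_38_0 (nat_lit 3) (nat_lit 193) (nat_lit 194) = true := by decide +kernel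
def p15_38_0_194 : pfC (piC [(nat_lit 30365544), (nat_lit 20402210), (nat_lit 13167684)] (nat_lit 13823025)) p15_38_0 (nat_lit 3) (nat_lit 194) (nat_lit 195) = true := by decide +kernel
def p15_38_0_195 : pfC (piC [(nat_lit 30365544), (nat_lit 20402210), (nat_lit 13167684)] (nat_lit 13823025)) p15_38_0 (nat_lit 3) (nat_lit 195) (nat_lit 196) = true := by decide +kernel
def p15_38_0_196 : pfC (piC [(nat_lit 30365544), (nat_lit 20402210), (nat_lit 13167684)] (nat_lit 13823025)) p15_38_0 (nat_lit 3) (nat_lit 196) (nat_lit 197) = true := by decide +kernel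
def p15_38_0_197 : pfC (piC [(nat_lit 30365544), (nat_lit 20402210), (nat_lit 13167684)] (nat_lit 13823025)) p15_38_0 (nat_lit 3) (nat_lit 197) (nat_lit 198) = true := by decide +kernel
def p15_38_0_198 : pfC (piC [(nat_lit 30365544), (nat_lit 20402210), (nat_lit 13167684)] (nat_lit 13823025)) p15_38_0 (nat_lit 3) (nat_lit 198) (nat_lit 199) = true := by decide +kernel
def p15_38_0_199 : pfC (piC [(nat_lit 30365544), (nat_lit 20402210), (nat_lit 13167684)] (nat_lit 13823025)) p15_38_0 (nat_lit 3) (nat_lit 199) (nat_lit 200) = true := by decide +kernel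
def p15_38_0_200 : pfC (piC [(nat_lit 30365544), (nat_lit 20402210), (nat_lit 13167684)] (nat_lit 13823025)) p15_38_0 (nat_lit 3) (nat_lit 200) (nat_lit 201) = true := by decide +kernel
def p15_38_0_201 : pfC (piC [(nat_lit 30365544), (nat_lit 20402210), (nat_lit 13167684)] (nat_lit 13823025)) p15_38_0 (nat_lit 3) (nat_lit 201) (nat_lit 202) = true := by decide +kernel
def p15_38_0_202 : pfC (piC [(nat_lit 30365544), (nat_lit 20402210), (nat_lit 13167684)] (nat_lit 13823025)) p15_38_0 (nat_lit 3) (nat_lit 202) (nat_lit 203) = true := by decide +kernel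
def p15_38_0_203 : pfC (piC [(nat_lit 30365544), (nat_lit 20402210), (nat_lit 13167684)] (nat_lit 13823025)) p15_38_0 (nat_lit 3) (nat_lit 203) (nat_lit 204) = true := by decide +kernel
def p15_38_0_204 : pfC (piC [(nat_lit 30365544), (nat_lit 20402210), (nat_lit 13167684)] (nat_lit 13823025)) p15_38_0 (nat_lit 3) (nat_lit 204) (nat_lit 205) = true := by decide +kernel
def p15_38_0_205 : pfC (piC [(nat_lit 30365544), (nat_lit 20402210), (nat_lit 13167684)] (nat_lit 13823025)) p15_38_0 (nat_lit 3) (nat_lit 205) (nat_lit 206) = true := by decide +kernel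
def p15_38_0_206 : pfC (piC [(nat_lit 30365544), (nat_lit 20402210), (nat_lit 13167684)] (nat_lit 13823025)) p15_38_0 (nat_lit 3) (nat_lit 206) (nat_lit 207) = true := by decide +kernel
def p15_38_0_207 : pfC (piC [(nat_lit 30365544), (nat_lit 20402210), (nat_lit 13167684)] (nat_lit 13823025)) p15_38_0 (nat_lit 3) (nat_lit 207) (nat_lit 208) = true := by decide +kernel
def p15_38_0_208 : pfC (piC [(nat_lit 30365544), (nat_lit 20402210), (nat_lit 13167684)] (nat_lit 13823025)) p15_38_0 (nat_lit 3) (nat_lit 208) (nat_lit 209) = true := by decide +kernel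
def p15_38_0_209 : pfC (piC [(nat_lit 30365544), (nat_lit 20402210), (nat_lit 13167684)] (nat_lit 13823025)) p15_38_0 (nat_lit 3) (nat_lit 209) (nat_lit 210) = true := by decide +kernel
def p15_38_0_210 : pfC (piC [(nat_lit 30365544), (nat_lit 20402210), (nat_lit 13167684)] (nat_lit 13823025)) p15_38_0 (nat_lit 3) (nat_lit 210) (nat_lit 211) = true := by decide +kernel
def p15_38_0_211 : pfC (piC [(nat_lit 30365544), (nat_lit 20402210), (nat_lit 13167684)] (nat_lit 13823025)) p15_38_0 (nat_lit 3) (nat_lit 211) (nat_lit 212) = true := by decide +kernel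
def p15_38_0_212 : pfC (piC [(nat_lit 30365544), (nat_lit 20402210), (nat_lit 13167684)] (nat_lit 13823025)) p15_38_0 (nat_lit 3) (nat_lit 212) (nat_lit 213) = true := by decide +kernel
def p15_38_0_213 : pfC (piC [(nat_lit 30365544), (nat_lit 20402210), (nat_lit 13167684)] (nat_lit 13823025)) p15_38_0 (nat_lit 3) (nat_lit 213) (nat_lit 214) = true := by decide +kernel
def p15_38_0_214 : pfC (piC [(nat_lit 30365544), (nat_lit 20402210), (nat_lit 13167684)] (nat_lit 13823025)) p15_38_0 (nat_lit 3) (nat_lit 214) (nat_lit 215) = true := by decide +kernel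
def p15_38_0_215 : pfC (piC [(nat_lit 30365544), (nat_lit 20402210), (nat_lit 13167684)] (nat_lit 13823025)) p15_38_0 (nat_lit 3) (nat_lit 215) (nat_lit 216) = true := by decide +kernel
def p15_38_0_216 : pfC (piC [(nat_lit 30365544), (nat_lit 20402210), (nat_lit 13167684)] (nat_lit 13823025)) p15_38_0 (nat_lit 3) (nat_lit 216) (nat_lit 217) = true := by decide +kernel
def p15_38_0_217 : pfC (piC [(nat_lit 30365544), (nat_lit 20402210), (nat_lit 13167684)] (nat_lit 13823025)) p15_38_0 (nat_lit 3) (nat_lit 217) (nat_lit 218) = true := by decide +kernel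
def p15_38_0_218 : pfC (piC [(nat_lit 30365544), (nat_lit 20402210), (nat_lit 13167684)] (nat_lit 13823025)) p15_38_0 (nat_lit 3) (nat_lit 218) (nat_lit 219) = true := by decide +kernel
def p15_38_0_219 : pfC (piC [(nat_lit 30365544), (nat_lit 20402210), (nat_lit 13167684)] (nat_lit 13823025)) p15_38_0 (nat_lit 3) (nat_lit 219) (nat_lit 220) = true := by decide +kernel
def p15_38_0_220 : pfC (piC [(nat_lit 30365544), (nat_lit 20402210), (nat_lit 13167684)] (nat_lit 13823025)) p15_38_0 (nat_lit 3) (nat_lit 220) (nat_lit 221) = true := by decide +kernel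
def p15_38_0_221 : pfC (piC [(nat_lit 30365544), (nat_lit 20402210), (nat_lit 13167684)] (nat_lit 13823025)) p15_38_0 (nat_lit 3) (nat_lit 221) (nat_lit 222) = true := by decide +kernel
def p15_38_0_222 : pfC (piC [(nat_lit 30365544), (nat_lit 20402210), (nat_lit 13167684)] (nat_lit 13823025)) p15_38_0 (nat_lit 3) (nat_lit 222) (nat_lit 223) = true := by decide +kernel
def p15_38_0_223 : pfC (piC [(nat_lit 30365544), (nat_lit 20402210), (nat_lit 13167684)] (nat_lit 13823025)) p15_38_0 (nat_lit 3) (nat_lit 223) (nat_lit 224) = true := by decide +kernel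
def p15_38_0_224 : pfC (piC [(nat_lit 30365544), (nat_lit 20402210), (nat_lit 13167684)] (nat_lit 13823025)) p15_38_0 (nat_lit 3) (nat_lit 224) (nat_lit 225) = true := by decide +kernel
def p15_38_0_225 : pfC (piC [(nat_lit 30365544), (nat_lit 20402210), (nat_lit 13167684)] (nat_lit 13823025)) p15_38_0 (nat_lit 3) (nat_lit 225) (nat_lit 226) = true := by decide +kernel
def p15_38_0_226 : pfC (piC [(nat_lit 30365544), (nat_lit 20402210), (nat_lit 13167684)] (nat_lit 13823025)) p15_38_0 (nat_lit 3) (nat_lit 226) (nat_lit 227) = true := by decide +kernel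
def p15_38_0_227 : pfC (piC [(nat_lit 30365544), (nat_lit 20402210), (nat_lit 13167684)] (nat_lit 13823025)) p15_38_0 (nat_lit 3) (nat_lit 227) (nat_lit 228) = true := by decide +kernel
def p15_38_0_228 : pfC (piC [(nat_lit 30365544), (nat_lit 20402210), (nat_lit 13167684)] (nat_lit 13823025)) p15_38_0 (nat_lit 3) (nat_lit 228) (nat_lit 229) = true := by decide +kernel
def p15_38_0_229 : pfC (piC [(nat_lit 30365544), (nat_lit 20402210), (nat_lit 13167684)] (nat_lit 13823025)) p15_38_0 (nat_lit 3) (nat_lit 229) (nat_lit 230) = true := by decide +kernel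
def p15_38_0_230 : pfC (piC [(nat_lit 30365544), (nat_lit 20402210), (nat_lit 13167684)] (nat_lit 13823025)) p15_38_0 (nat_lit 3) (nat_lit 230) (nat_lit 231) = true := by decide +kernel
def p15_38_0_231 : pfC (piC [(nat_lit 30365544), (nat_lit 20402210), (nat_lit 13167684)] (nat_lit 13823025)) p15_38_0 (nat_lit 3) (nat_lit 231) (nat_lit 232) = true := by decide +kernel
def p15_38_0_232 : pfC (piC [(nat_lit 30365544), (nat_lit 20402210), (nat_lit 13167684)] (nat_lit 13823025)) p15_38_0 (nat_lit 3) (nat_lit 232) (nat_lit 233) = true := by decide +kernel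
def p15_38_0_233 : pfC (piC [(nat_lit 30365544), (nat_lit 20402210), (nat_lit 13167684)] (nat_lit 13823025)) p15_38_0 (nat_lit 3) (nat_lit 233) (nat_lit 234) = true := by decide +kernel
def p15_38_0_234 : pfC (piC [(nat_lit 30365544), (nat_lit 20402210), (nat_lit 13167684)] (nat_lit 13823025)) p15_38_0 (nat_lit 3) (nat_lit 234) (nat_lit 235) = true := by decide +kernel
def p15_38_0_235 : pfC (piC [(nat_lit 30365544), (nat_lit 20402210), (nat_lit 13167684)] (nat_lit 13823025)) p15_38_0 (nat_lit 3) (nat_lit 235) (nat_lit 236) = true := by decide +kernel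
def p15_38_0_236 : pfC (piC [(nat_lit 30365544), (nat_lit 20402210), (nat_lit 13167684)] (nat_lit 13823025)) p15_38_0 (nat_lit 3) (nat_lit 236) (nat_lit 237) = true := by decide +kernel
def p15_38_0_237 : pfC (piC [(nat_lit 30365544), (nat_lit 20402210), (nat_lit 13167684)] (nat_lit 13823025)) p15_38_0 (nat_lit 3) (nat_lit 237) (nat_lit 238) = true := by decide +kernel
def p15_38_0_238 : pfC (piC [(nat_lit 30365544), (nat_lit 20402210), (nat_lit 13167684)] (nat_lit 13823025)) p15_38_0 (nat_lit 3) (nat_lit 238) (nat_lit 239) = true := by decide +kernel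
def p15_38_0_239 : pfC (piC [(nat_lit 30365544), (nat_lit 20402210), (nat_lit 13167684)] (nat_lit 13823025)) p15_38_0 (nat_lit 3) (nat_lit 239) (nat_lit 240) = true := by decide +kernel
def p15_38_0_240 : pfC (piC [(nat_lit 30365544), (nat_lit 20402210), (nat_lit 13167684)] (nat_lit 13823025)) p15_38_0 (nat_lit 3) (nat_lit 240) (nat_lit 241) = true := by decide +kernel
def p15_38_0_241 : pfC (piC [(nat_lit 30365544), (nat_lit 20402210), (nat_lit 13167684)] (nat_lit 13823025)) p15_38_0 (nat_lit 3) (nat_lit 241) (nat_lit 242) = true := by decide +kernel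
def p15_38_0_242 : pfC (piC [(nat_lit 30365544), (nat_lit 20402210), (nat_lit 13167684)] (nat_lit 13823025)) p15_38_0 (nat_lit 3) (nat_lit 242) (nat_lit 243) = true := by decide +kernel
def p15_38_0_243 : pfC (piC [(nat_lit 30365544), (nat_lit 20402210), (nat_lit 13167684)] (nat_lit 13823025)) p15_38_0 (nat_lit 3) (nat_lit 243) (nat_lit 244) = true := by decide +kernel
def p15_38_0_244 : pfC (piC [(nat_lit 30365544), (nat_lit 20402210), (nat_lit 13167684)] (nat_lit 13823025)) p15_38_0 (nat_lit 3) (nat_lit 244) (nat_lit 245) = true := by decide +kernel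
def p15_38_0_245 : pfC (piC [(nat_lit 30365544), (nat_lit 20402210), (nat_lit 13167684)] (nat_lit 13823025)) p15_38_0 (nat_lit 3) (nat_lit 245) (nat_lit 246) = true := by decide +kernel
def p15_38_0_246 : pfC (piC [(nat_lit 30365544), (nat_lit 20402210), (nat_lit 13167684)] (nat_lit 13823025)) p15_38_0 (nat_lit 3) (nat_lit 246) (nat_lit 247) = true := by decide +kernel
def p15_38_0_247 : pfC (piC [(nat_lit 30365544), (nat_lit 20402210), (nat_lit 13167684)] (nat_lit 13823025)) p15_38_0 (nat_lit 3) (nat_lit 247) (nat_lit 248) = true := by decide +kernel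
def p15_38_0_248 : pfC (piC [(nat_lit 30365544), (nat_lit 20402210), (nat_lit 13167684)] (nat_lit 13823025)) p15_38_0 (nat_lit 3) (nat_lit 248) (nat_lit 249) = true := by decide +kernel
def p15_38_0_249 : pfC (piC [(nat_lit 30365544), (nat_lit 20402210), (nat_lit 13167684)] (nat_lit 13823025)) p15_38_0 (nat_lit 3) (nat_lit 249) (nat_lit 250) = true := by decide +kernel
def p15_38_0_250 : pfC (piC [(nat_lit 30365544), (nat_lit 20402210), (nat_lit 13167684)] (nat_lit 13823025)) p15_38_0 (nat_lit 3) (nat_lit 250) (nat_lit 251) = true := by decide +kernel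
def p15_38_0_251 : pfC (piC [(nat_lit 30365544), (nat_lit 20402210), (nat_lit 13167684)] (nat_lit 13823025)) p15_38_0 (nat_lit 3) (nat_lit 251) (nat_lit 252) = true := by decide +kernel
def p15_38_0_252 : pfC (piC [(nat_lit 30365544), (nat_lit 20402210), (nat_lit 13167684)] (nat_lit 13823025)) p15_38_0 (nat_lit 3) (nat_lit 252) (nat_lit 253) = true := by decide +kernel
def p15_38_0_253 : pfC (piC [(nat_lit 30365544), (nat_lit 20402210), (nat_lit 13167684)] (nat_lit 13823025)) p15_38_0 (nat_lit 3) (nat_lit 253) (nat_lit 254) = true := by decide +kernel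
def p15_38_0_254 : pfC (piC [(nat_lit 30365544), (nat_lit 20402210), (nat_lit 13167684)] (nat_lit 13823025)) p15_38_0 (nat_lit 3) (nat_lit 254) (nat_lit 255) = true := by decide +kernel
def p15_38_0_255 : pfC (piC [(nat_lit 30365544), (nat_lit 20402210), (nat_lit 13167684)] (nat_lit 13823025)) p15_38_0 (nat_lit 3) (nat_lit 255) (nat_lit 256) = true := by decide +kernel
def p15_38_0_256 : pfC (piC [(nat_lit 30365544), (nat_lit 20402210), (nat_lit 13167684)] (nat_lit 13823025)) p15_38_0 (nat_lit 3) (nat_lit 256) (nat_lit 257) = true := by decide +kernel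
def p15_38_0_257 : pfC (piC [(nat_lit 30365544), (nat_lit 20402210), (nat_lit 13167684)] (nat_lit 13823025)) p15_38_0 (nat_lit 3) (nat_lit 257) (nat_lit 258) = true := by decide +kernel
def p15_38_0_258 : pfC (piC [(nat_lit 30365544), (nat_lit 20402210), (nat_lit 13167684)] (nat_lit 13823025)) p15_38_0 (nat_lit 3) (nat_lit 258) (nat_lit 259) = true := by decide +kernel
def p15_38_0_259 : pfC (piC [(nat_lit 30365544), (nat_lit 20402210), (nat_lit 13167684)] (nat_lit 13823025)) p15_38_0 (nat_lit 3) (nat_lit 259) (nat_lit 260) = true := by decide +kernel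
def p15_38_0_260 : pfC (piC [(nat_lit 30365544), (nat_lit 20402210), (nat_lit 13167684)] (nat_lit 13823025)) p15_38_0 (nat_lit 3) (nat_lit 260) (nat_lit 261) = true := by decide +kernel
def p15_38_0_261 : pfC (piC [(nat_lit 30365544), (nat_lit 20402210), (nat_lit 13167684)] (nat_lit 13823025)) p15_38_0 (nat_lit 3) (nat_lit 261) (nat_lit 262) = true := by decide +kernel
def p15_38_0_262 : pfC (piC [(nat_lit 30365544), (nat_lit 20402210), (nat_lit 13167684)] (nat_lit 13823025)) p15_38_0 (nat_lit 3) (nat_lit 262) (nat_lit 263) = true := by decide +kernel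
def p15_38_0_263 : pfC (piC [(nat_lit 30365544), (nat_lit 20402210), (nat_lit 13167684)] (nat_lit 13823025)) p15_38_0 (nat_lit 3) (nat_lit 263) (nat_lit 264) = true := by decide +kernel
def p15_38_0_264 : pfC (piC [(nat_lit 30365544), (nat_lit 20402210), (nat_lit 13167684)] (nat_lit 13823025)) p15_38_0 (nat_lit 3) (nat_lit 264) (nat_lit 265) = true := by decide +kernel
def p15_38_0_265 : pfC (piC [(nat_lit 30365544), (nat_lit 20402210), (nat_lit 13167684)] (nat_lit 13823025)) p15_38_0 (nat_lit 3) (nat_lit 265) (nat_lit 266) = true := by decide +kernel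
def p15_38_0_266 : pfC (piC [(nat_lit 30365544), (nat_lit 20402210), (nat_lit 13167684)] (nat_lit 13823025)) p15_38_0 (nat_lit 3) (nat_lit 266) (nat_lit 267) = true := by decide +kernel
def p15_38_0_267 : pfC (piC [(nat_lit 30365544), (nat_lit 20402210), (nat_lit 13167684)] (nat_lit 13823025)) p15_38_0 (nat_lit 3) (nat_lit 267) (nat_lit 268) = true := by decide +kernel
def p15_38_0_268 : pfC (piC [(nat_lit 30365544), (nat_lit 20402210), (nat_lit 13167684)] (nat_lit 13823025)) p15_38_0 (nat_lit 3) (nat_lit 268) (nat_lit 269) = true := by decide +kernel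
def p15_38_0_269 : pfC (piC [(nat_lit 30365544), (nat_lit 20402210), (nat_lit 13167684)] (nat_lit 13823025)) p15_38_0 (nat_lit 3) (nat_lit 269) (nat_lit 270) = true := by decide +kernel
def p15_38_0_270 : pfC (piC [(nat_lit 30365544), (nat_lit 20402210), (nat_lit 13167684)] (nat_lit 13823025)) p15_38_0 (nat_lit 3) (nat_lit 270) (nat_lit 271) = true := by decide +kernel
def p15_38_0_271 : pfC (piC [(nat_lit 30365544), (nat_lit 20402210), (nat_lit 13167684)] (nat_lit 13823025)) p15_38_0 (nat_lit 3) (nat_lit 271) (nat_lit 272) = true := by decide +kernel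
def p15_38_0_272 : pfC (piC [(nat_lit 30365544), (nat_lit 20402210), (nat_lit 13167684)] (nat_lit 13823025)) p15_38_0 (nat_lit 3) (nat_lit 272) (nat_lit 273) = true := by decide +kernel
def p15_38_0_273 : pfC (piC [(nat_lit 30365544), (nat_lit 20402210), (nat_lit 13167684)] (nat_lit 13823025)) p15_38_0 (nat_lit 3) (nat_lit 273) (nat_lit 274) = true := by decide +kernel
def p15_38_0_274 : pfC (piC [(nat_lit 30365544), (nat_lit 20402210), (nat_lit 13167684)] (nat_lit 13823025)) p15_38_0 (nat_lit 3) (nat_lit 274) (nat_lit 275) = true := by decide +kernel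
def p15_38_0_275 : pfC (piC [(nat_lit 30365544), (nat_lit 20402210), (nat_lit 13167684)] (nat_lit 13823025)) p15_38_0 (nat_lit 3) (nat_lit 275) (nat_lit 276) = true := by decide +kernel
def p15_38_0_276 : pfC (piC [(nat_lit 30365544), (nat_lit 20402210), (nat_lit 13167684)] (nat_lit 13823025)) p15_38_0 (nat_lit 3) (nat_lit 276) (nat_lit 277) = true := by decide +kernel
def p15_38_0_277 : pfC (piC [(nat_lit 30365544), (nat_lit 20402210), (nat_lit 13167684)] (nat_lit 13823025)) p15_38_0 (nat_lit 3) (nat_lit 277) (nat_lit 278) = true := by decide +kernel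
def p15_38_0_278 : pfC (piC [(nat_lit 30365544), (nat_lit 20402210), (nat_lit 13167684)] (nat_lit 13823025)) p15_38_0 (nat_lit 3) (nat_lit 278) (nat_lit 279) = true := by decide +kernel
def p15_38_0_279 : pfC (piC [(nat_lit 30365544), (nat_lit 20402210), (nat_lit 13167684)] (nat_lit 13823025)) p15_38_0 (nat_lit 3) (nat_lit 279) (nat_lit 280) = true := by decide +kernel
def p15_38_0_280 : pfC (piC [(nat_lit 30365544), (nat_lit 20402210), (nat_lit 13167684)] (nat_lit 13823025)) p15_38_0 (nat_lit 3) (nat_lit 280) (nat_lit 281) = true := by decide +kernel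
def p15_38_0_281 : pfC (piC [(nat_lit 30365544), (nat_lit 20402210), (nat_lit 13167684)] (nat_lit 13823025)) p15_38_0 (nat_lit 3) (nat_lit 281) (nat_lit 282) = true := by decide +kernel
def p15_38_0_282 : pfC (piC [(nat_lit 30365544), (nat_lit 20402210), (nat_lit 13167684)] (nat_lit 13823025)) p15_38_0 (nat_lit 3) (nat_lit 282) (nat_lit 283) = true := by decide +kernel
def p15_38_0_283 : pfC (piC [(nat_lit 30365544), (nat_lit 20402210), (nat_lit 13167684)] (nat_lit 13823025)) p15_38_0 (nat_lit 3) (nat_lit 283) (nat_lit 284) = true := by decide +kernel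
def p15_38_0_284 : pfC (piC [(nat_lit 30365544), (nat_lit 20402210), (nat_lit 13167684)] (nat_lit 13823025)) p15_38_0 (nat_lit 3) (nat_lit 284) (nat_lit 285) = true := by decide +kernel
def p15_38_0_285 : pfC (piC [(nat_lit 30365544), (nat_lit 20402210), (nat_lit 13167684)] (nat_lit 13823025)) p15_38_0 (nat_lit 3) (nat_lit 285) (nat_lit 286) = true := by decide +kernel
def p15_38_0_286 : pfC (piC [(nat_lit 30365544), (nat_lit 20402210), (nat_lit 13167684)] (nat_lit 13823025)) p15_38_0 (nat_lit 3) (nat_lit 286) (nat_lit 287) = true := by decide +kernel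
def p15_38_0_287 : pfC (piC [(nat_lit 30365544), (nat_lit 20402210), (nat_lit 13167684)] (nat_lit 13823025)) p15_38_0 (nat_lit 3) (nat_lit 287) (nat_lit 288) = true := by decide +kernel
def p15_38_0_288 : pfC (piC [(nat_lit 30365544), (nat_lit 20402210), (nat_lit 13167684)] (nat_lit 13823025)) p15_38_0 (nat_lit 3) (nat_lit 288) (nat_lit 289) = true := by decide +kernel
def p15_38_0_289 : pfC (piC [(nat_lit 30365544), (nat_lit 20402210), (nat_lit 13167684)] (nat_lit 13823025)) p15_38_0 (nat_lit 3) (nat_lit 289) (nat_lit 290) = true := by decide +kernel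
def p15_38_0_290 : pfC (piC [(nat_lit 30365544), (nat_lit 20402210), (nat_lit 13167684)] (nat_lit 13823025)) p15_38_0 (nat_lit 3) (nat_lit 290) (nat_lit 291) = true := by decide +kernel
def p15_38_0_291 : pfC (piC [(nat_lit 30365544), (nat_lit 20402210), (nat_lit 13167684)] (nat_lit 13823025)) p15_38_0 (nat_lit 3) (nat_lit 291) (nat_lit 292) = true := by decide +kernel
def p15_38_0_292 : pfC (piC [(nat_lit 30365544), (nat_lit 20402210), (nat_lit 13167684)] (nat_lit 13823025)) p15_38_0 (nat_lit 3) (nat_lit 292) (nat_lit 293) = true := by decide +kernel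
def p15_38_0_293 : pfC (piC [(nat_lit 30365544), (nat_lit 20402210), (nat_lit 13167684)] (nat_lit 13823025)) p15_38_0 (nat_lit 3) (nat_lit 293) (nat_lit 294) = true := by decide +kernel
def p15_38_0_294 : pfC (piC [(nat_lit 30365544), (nat_lit 20402210), (nat_lit 13167684)] (nat_lit 13823025)) p15_38_0 (nat_lit 3) (nat_lit 294) (nat_lit 295) = true := by decide +kernel
def p15_38_0_295 : pfC (piC [(nat_lit 30365544), (nat_lit 20402210), (nat_lit 13167684)] (nat_lit 13823025)) p15_38_0 (nat_lit 3) (nat_lit 295) (nat_lit 296) = true := by decide +kernel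
def p15_38_0_296 : pfC (piC [(nat_lit 30365544), (nat_lit 20402210), (nat_lit 13167684)] (nat_lit 13823025)) p15_38_0 (nat_lit 3) (nat_lit 296) (nat_lit 297) = true := by decide +kernel
def p15_38_0_297 : pfC (piC [(nat_lit 30365544), (nat_lit 20402210), (nat_lit 13167684)] (nat_lit 13823025)) p15_38_0 (nat_lit 3) (nat_lit 297) (nat_lit 298) = true := by decide +kernel
def p15_38_0_298 : pfC (piC [(nat_lit 30365544), (nat_lit 20402210), (nat_lit 13167684)] (nat_lit 13823025)) p15_38_0 (nat_lit 3) (nat_lit 298) (nat_lit 299) = true := by decide +kernel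
def p15_38_0_299 : pfC (piC [(nat_lit 30365544), (nat_lit 20402210), (nat_lit 13167684)] (nat_lit 13823025)) p15_38_0 (nat_lit 3) (nat_lit 299) (nat_lit 300) = true := by decide +kernel
def p15_38_0_300 : pfC (piC [(nat_lit 30365544), (nat_lit 20402210), (nat_lit 13167684)] (nat_lit 13823025)) p15_38_0 (nat_lit 3) (nat_lit 300) (nat_lit 301) = true := by decide +kernel
def p15_38_0_301 : pfC (piC [(nat_lit 30365544), (nat_lit 20402210), (nat_lit 13167684)] (nat_lit 13823025)) p15_38_0 (nat_lit 3) (nat_lit 301) (nat_lit 302) = true := by decide +kernel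
def p15_38_0_302 : pfC (piC [(nat_lit 30365544), (nat_lit 20402210), (nat_lit 13167684)] (nat_lit 13823025)) p15_38_0 (nat_lit 3) (nat_lit 302) (nat_lit 303) = true := by decide +kernel
def p15_38_0_303 : pfC (piC [(nat_lit 30365544), (nat_lit 20402210), (nat_lit 13167684)] (nat_lit 13823025)) p15_38_0 (nat_lit 3) (nat_lit 303) (nat_lit 304) = true := by decide +kernel
def p15_38_0_304 : pfC (piC [(nat_lit 30365544), (nat_lit 20402210), (nat_lit 13167684)] (nat_lit 13823025)) p15_38_0 (nat_lit 3) (nat_lit 304) (nat_lit 305) = true := by decide +kernel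
def p15_38_0_305 : pfC (piC [(nat_lit 30365544), (nat_lit 20402210), (nat_lit 13167684)] (nat_lit 13823025)) p15_38_0 (nat_lit 3) (nat_lit 305) (nat_lit 306) = true := by decide +kernel
def p15_38_0_306 : pfC (piC [(nat_lit 30365544), (nat_lit 20402210), (nat_lit 13167684)] (nat_lit 13823025)) p15_38_0 (nat_lit 3) (nat_lit 306) (nat_lit 307) = true := by decide +kernel
def p15_38_0_307 : pfC (piC [(nat_lit 30365544), (nat_lit 20402210), (nat_lit 13167684)] (nat_lit 13823025)) p15_38_0 (nat_lit 3) (nat_lit 307) (nat_lit 308) = true := by decide +kernel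
def p15_38_0_308 : pfC (piC [(nat_lit 30365544), (nat_lit 20402210), (nat_lit 13167684)] (nat_lit 13823025)) p15_38_0 (nat_lit 3) (nat_lit 308) (nat_lit 309) = true := by decide +kernel
def p15_38_0_309 : pfC (piC [(nat_lit 30365544), (nat_lit 20402210), (nat_lit 13167684)] (nat_lit 13823025)) p15_38_0 (nat_lit 3) (nat_lit 309) (nat_lit 310) = true := by decide +kernel
def p15_38_0_310 : pfC (piC [(nat_lit 30365544), (nat_lit 20402210), (nat_lit 13167684)] (nat_lit 13823025)) p15_38_0 (nat_lit 3) (nat_lit 310) (nat_lit 311) = true := by decide +kernel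
def p15_38_0_311 : pfC (piC [(nat_lit 30365544), (nat_lit 20402210), (nat_lit 13167684)] (nat_lit 13823025)) p15_38_0 (nat_lit 3) (nat_lit 311) (nat_lit 312) = true := by decide +kernel
def p15_38_0_312 : pfC (piC [(nat_lit 30365544), (nat_lit 20402210), (nat_lit 13167684)] (nat_lit 13823025)) p15_38_0 (nat_lit 3) (nat_lit 312) (nat_lit 313) = true := by decide +kernel
def p15_38_0_313 : pfC (piC [(nat_lit 30365544), (nat_lit 20402210), (nat_lit 13167684)] (nat_lit 13823025)) p15_38_0 (nat_lit 3) (nat_lit 313) (nat_lit 314) = true := by decide +kernel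
def p15_38_0_314 : pfC (piC [(nat_lit 30365544), (nat_lit 20402210), (nat_lit 13167684)] (nat_lit 13823025)) p15_38_0 (nat_lit 3) (nat_lit 314) (nat_lit 315) = true := by decide +kernel
def p15_38_0_315 : pfC (piC [(nat_lit 30365544), (nat_lit 20402210), (nat_lit 13167684)] (nat_lit 13823025)) p15_38_0 (nat_lit 3) (nat_lit 315) (nat_lit 316) = true := by decide +kernel
def p15_38_0_316 : pfC (piC [(nat_lit 30365544), (nat_lit 20402210), (nat_lit 13167684)] (nat_lit 13823025)) p15_38_0 (nat_lit 3) (nat_lit 316) (nat_lit 317) = true := by decide +kernel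
def p15_38_0_317 : pfC (piC [(nat_lit 30365544), (nat_lit 20402210), (nat_lit 13167684)] (nat_lit 13823025)) p15_38_0 (nat_lit 3) (nat_lit 317) (nat_lit 318) = true := by decide +kernel
def p15_38_0_318 : pfC (piC [(nat_lit 30365544), (nat_lit 20402210), (nat_lit 13167684)] (nat_lit 13823025)) p15_38_0 (nat_lit 3) (nat_lit 318) (nat_lit 319) = true := by decide +kernel
def p15_38_0_319 : pfC (piC [(nat_lit 30365544), (nat_lit 20402210), (nat_lit 13167684)] (nat_lit 13823025)) p15_38_0 (nat_lit 3) (nat_lit 319) (nat_lit 320) = true := by decide +kernel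
def p15_38_0_320 : pfC (piC [(nat_lit 30365544), (nat_lit 20402210), (nat_lit 13167684)] (nat_lit 13823025)) p15_38_0 (nat_lit 3) (nat_lit 320) (nat_lit 321) = true := by decide +kernel
def p15_38_0_321 : pfC (piC [(nat_lit 30365544), (nat_lit 20402210), (nat_lit 13167684)] (nat_lit 13823025)) p15_38_0 (nat_lit 3) (nat_lit 321) (nat_lit 322) = true := by decide +kernel
def p15_38_0_322 : pfC (piC [(nat_lit 30365544), (nat_lit 20402210), (nat_lit 13167684)] (nat_lit 13823025)) p15_38_0 (nat_lit 3) (nat_lit 322) (nat_lit 323) = true := by decide +kernel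
def p15_38_0_323 : pfC (piC [(nat_lit 30365544), (nat_lit 20402210), (nat_lit 13167684)] (nat_lit 13823025)) p15_38_0 (nat_lit 3) (nat_lit 323) (nat_lit 324) = true := by decide +kernel
def p15_38_0_324 : pfC (piC [(nat_lit 30365544), (nat_lit 20402210), (nat_lit 13167684)] (nat_lit 13823025)) p15_38_0 (nat_lit 3) (nat_lit 324) (nat_lit 325) = true := by decide +kernel
def p15_38_0_325 : pfC (piC [(nat_lit 30365544), (nat_lit 20402210), (nat_lit 13167684)] (nat_lit 13823025)) p15_38_0 (nat_lit 3) (nat_lit 325) (nat_lit 326) = true := by decide +kernel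
def p15_38_0_326 : pfC (piC [(nat_lit 30365544), (nat_lit 20402210), (nat_lit 13167684)] (nat_lit 13823025)) p15_38_0 (nat_lit 3) (nat_lit 326) (nat_lit 327) = true := by decide +kernel
def p15_38_0_327 : pfC (piC [(nat_lit 30365544), (nat_lit 20402210), (nat_lit 13167684)] (nat_lit 13823025)) p15_38_0 (nat_lit 3) (nat_lit 327) (nat_lit 328) = true := by decide +kernel
def p15_38_0_328 : pfC (piC [(nat_lit 30365544), (nat_lit 20402210), (nat_lit 13167684)] (nat_lit 13823025)) p15_38_0 (nat_lit 3) (nat_lit 328) (nat_lit 329) = true := by decide +kernel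
def p15_38_0_329 : pfC (piC [(nat_lit 30365544), (nat_lit 20402210), (nat_lit 13167684)] (nat_lit 13823025)) p15_38_0 (nat_lit 3) (nat_lit 329) (nat_lit 330) = true := by decide +kernel
def p15_38_0_330 : pfC (piC [(nat_lit 30365544), (nat_lit 20402210), (nat_lit 13167684)] (nat_lit 13823025)) p15_38_0 (nat_lit 3) (nat_lit 330) (nat_lit 331) = true := by decide +kernel
def p15_38_0_331 : pfC (piC [(nat_lit 30365544), (nat_lit 20402210), (nat_lit 13167684)] (nat_lit 13823025)) p15_38_0 (nat_lit 3) (nat_lit 331) (nat_lit 332) = true := by decide +kernel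
def p15_38_0_332 : pfC (piC [(nat_lit 30365544), (nat_lit 20402210), (nat_lit 13167684)] (nat_lit 13823025)) p15_38_0 (nat_lit 3) (nat_lit 332) (nat_lit 333) = true := by decide +kernel
def p15_38_0_333 : pfC (piC [(nat_lit 30365544), (nat_lit 20402210), (nat_lit 13167684)] (nat_lit 13823025)) p15_38_0 (nat_lit 3) (nat_lit 333) (nat_lit 334) = true := by decide +kernel
def p15_38_0_334 : pfC (piC [(nat_lit 30365544), (nat_lit 20402210), (nat_lit 13167684)] (nat_lit 13823025)) p15_38_0 (nat_lit 3) (nat_lit 334) (nat_lit 335) = true := by decide +kernel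
def p15_38_0_335 : pfC (piC [(nat_lit 30365544), (nat_lit 20402210), (nat_lit 13167684)] (nat_lit 13823025)) p15_38_0 (nat_lit 3) (nat_lit 335) (nat_lit 336) = true := by decide +kernel
def p15_38_0_336 : pfC (piC [(nat_lit 30365544), (nat_lit 20402210), (nat_lit 13167684)] (nat_lit 13823025)) p15_38_0 (nat_lit 3) (nat_lit 336) (nat_lit 337) = true := by decide +kernel
def p15_38_0_337 : pfC (piC [(nat_lit 30365544), (nat_lit 20402210), (nat_lit 13167684)] (nat_lit 13823025)) p15_38_0 (nat_lit 3) (nat_lit 337) (nat_lit 338) = true := by decide +kernel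
def p15_38_0_338 : pfC (piC [(nat_lit 30365544), (nat_lit 20402210), (nat_lit 13167684)] (nat_lit 13823025)) p15_38_0 (nat_lit 3) (nat_lit 338) (nat_lit 339) = true := by decide +kernel
def p15_38_0_339 : pfC (piC [(nat_lit 30365544), (nat_lit 20402210), (nat_lit 13167684)] (nat_lit 13823025)) p15_38_0 (nat_lit 3) (nat_lit 339) (nat_lit 340) = true := by decide +kernel
def p15_38_0_340 : pfC (piC [(nat_lit 30365544), (nat_lit 20402210), (nat_lit 13167684)] (nat_lit 13823025)) p15_38_0 (nat_lit 3) (nat_lit 340) (nat_lit 341) = true := by decide +kernel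
def p15_38_0_341 : pfC (piC [(nat_lit 30365544), (nat_lit 20402210), (nat_lit 13167684)] (nat_lit 13823025)) p15_38_0 (nat_lit 3) (nat_lit 341) (nat_lit 342) = true := by decide +kernel
def p15_38_0_342 : pfC (piC [(nat_lit 30365544), (nat_lit 20402210), (nat_lit 13167684)] (nat_lit 13823025)) p15_38_0 (nat_lit 3) (nat_lit 342) (nat_lit 343) = true := by decide +kernel
def p15_38_0_343 : pfC (piC [(nat_lit 30365544), (nat_lit 20402210), (nat_lit 13167684)] (nat_lit 13823025)) p15_38_0 (nat_lit 3) (nat_lit 343) (nat_lit 344) = true := by decide +kernel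
def p15_38_0_344 : pfC (piC [(nat_lit 30365544), (nat_lit 20402210), (nat_lit 13167684)] (nat_lit 13823025)) p15_38_0 (nat_lit 3) (nat_lit 344) (nat_lit 345) = true := by decide +kernel
def p15_38_0_345 : pfC (piC [(nat_lit 30365544), (nat_lit 20402210), (nat_lit 13167684)] (nat_lit 13823025)) p15_38_0 (nat_lit 3) (nat_lit 345) (nat_lit 346) = true := by decide +kernel
def p15_38_0_346 : pfC (piC [(nat_lit 30365544), (nat_lit 20402210), (nat_lit 13167684)] (nat_lit 13823025)) p15_38_0 (nat_lit 3) (nat_lit 346) (nat_lit 347) = true := by decide +kernel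
def p15_38_0_347 : pfC (piC [(nat_lit 30365544), (nat_lit 20402210), (nat_lit 13167684)] (nat_lit 13823025)) p15_38_0 (nat_lit 3) (nat_lit 347) (nat_lit 348) = true := by decide +kernel
def p15_38_0_348 : pfC (piC [(nat_lit 30365544), (nat_lit 20402210), (nat_lit 13167684)] (nat_lit 13823025)) p15_38_0 (nat_lit 3) (nat_lit 348) (nat_lit 349) = true := by decide +kernel
def p15_38_0_349 : pfC (piC [(nat_lit 30365544), (nat_lit 20402210), (nat_lit 13167684)] (nat_lit 13823025)) p15_38_0 (nat_lit 3) (nat_lit 349) (nat_lit 350) = true := by decide +kernel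
def p15_38_0_350 : pfC (piC [(nat_lit 30365544), (nat_lit 20402210), (nat_lit 13167684)] (nat_lit 13823025)) p15_38_0 (nat_lit 3) (nat_lit 350) (nat_lit 351) = true := by decide +kernel
def p15_38_0_351 : pfC (piC [(nat_lit 30365544), (nat_lit 20402210), (nat_lit 13167684)] (nat_lit 13823025)) p15_38_0 (nat_lit 3) (nat_lit 351) (nat_lit 352) = true := by decide +kernel
def p15_38_0_352 : pfC (piC [(nat_lit 30365544), (nat_lit 20402210), (nat_lit 13167684)] (nat_lit 13823025)) p15_38_0 (nat_lit 3) (nat_lit 352) (nat_lit 353) = true := by decide +kernel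
def p15_38_0_353 : pfC (piC [(nat_lit 30365544), (nat_lit 20402210), (nat_lit 13167684)] (nat_lit 13823025)) p15_38_0 (nat_lit 3) (nat_lit 353) (nat_lit 354) = true := by decide +kernel
def p15_38_0_354 : pfC (piC [(nat_lit 30365544), (nat_lit 20402210), (nat_lit 13167684)] (nat_lit 13823025)) p15_38_0 (nat_lit 3) (nat_lit 354) (nat_lit 355) = true := by decide +kernel
def p15_38_0_355 : pfC (piC [(nat_lit 30365544), (nat_lit 20402210), (nat_lit 13167684)] (nat_lit 13823025)) p15_38_0 (nat_lit 3) (nat_lit 355) (nat_lit 356) = true := by decide +kernel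
theorem p15_38_0_T : PfS (PiF n15_38.reverse (nat_lit 13823025)) p15_38_0 (nat_lit 3) [] 0 :=
  pftab_of (los := [(nat_lit 30365544), (nat_lit 20402210), (nat_lit 13167684)]) (by decide +kernel) (hi := (nat_lit 356)) (PfP.trans (PfP.trans (PfP.trans (PfP.trans (PfP.trans (PfP.trans (PfP.trans (PfP.trans (PfP.trans (PfP.trans (PfP.trans (PfP.trans (PfP.trans (PfP.trans (PfP.trans (PfP.trans (PfP.trans (PfP.trans (PfP.trans (PfP.trans (PfP.trans (PfP.trans (PfP.trans (PfP.trans (PfP.trans (PfP.trans (PfP.trans (PfP.trans (PfP.trans (PfP.trans (PfP.trans (PfP.trans (PfP.trans (PfP.trans (PfP.trans (PfP.trans (PfP.trans (PfP.trans (PfP.trans (PfP.trans (PfP.trans (PfP.trans (PfP.trans (PfP.trans (PfP.trans (PfP.trans (PfP.trans (PfP.trans (PfP.trans (PfP.trans (PfP.trans (PfP.trans (PfP.trans (PfP.trans (PfP.trans (PfP.trans (PfP.trans (PfP.trans (PfP.trans (PfP.trans (PfP.trans (PfP.trans (PfP.trans (PfP.trans (PfP.trans (PfP.trans (PfP.trans (PfP.trans (PfP.trans (PfP.trans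 (PfP.trans (PfP.trans (PfP.trans (PfP.trans (PfP.trans (PfP.trans (PfP.trans (PfP.trans (PfP.trans (PfP.trans (PfP.trans (PfP.trans (PfP.trans (PfP.trans (PfP.trans (PfP.trans (PfP.trans (PfP.trans (PfP.trans (PfP.trans (PfP.trans (PfP.trans (PfP.trans (PfP.trans (PfP.trans (PfP.trans (PfP.trans (PfP.trans (PfP.trans (PfP.trans (PfP.trans (PfP.trans (PfP.trans (PfP.trans (PfP.trans (PfP.trans (PfP.trans (PfP.trans (PfP.trans
 (PfP.trans (PfP.trans (PfP.trans (PfP.trans (PfP.trans (PfP.trans (PfP.trans (PfP.trans (PfP.trans (PfP.trans (PfP.trans (PfP.trans (PfP.trans (PfP.trans (PfP.trans (PfP.trans (PfP.trans (PfP.trans (PfP.trans (PfP.trans (PfP.trans (PfP.trans (PfP.trans (PfP.trans (PfP.trans (PfP.trans (PfP.trans (PfP.trans (PfP.trans (PfP.trans (PfP.trans (PfP.trans (PfP.trans (PfP.trans (PfP.trans (PfP.trans (PfP.trans (PfP.trans (PfP.trans (PfP.trans (PfP.trans (PfP.trans (PfP.trans (PfP.trans (PfP.trans (PfP.trans (PfP.trans (PfP.trans (PfP.trans (PfP.trans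 (PfP.trans (PfP.trans (PfP.trans (PfP.trans (PfP.trans (PfP.trans (PfP.trans (PfP.trans (PfP.trans (PfP.trans (PfP.trans (PfP.trans (PfP.trans (PfP.trans (PfP.trans (PfP.trans (PfP.trans (PfP.trans (PfP.trans (PfP.trans (PfP.trans (PfP.trans (PfP.trans (PfP.trans (PfP.trans (PfP.trans (PfP.trans (PfP.trans (PfP.trans (PfP.trans (PfP.trans (PfP.trans (PfP.trans (PfP.trans (PfP.trans (PfP.trans (PfP.trans (PfP.trans (PfP.trans (PfP.trans (PfP.trans (PfP.trans (PfP.trans (PfP.trans (PfP.trans (PfP.trans (PfP.trans (PfP.trans (PfP.trans (PfP.trans (PfP.trans (PfP.trans (PfP.trans (PfP.trans (PfP.trans (PfP.trans (PfP.trans (PfP.trans (PfP.trans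
 (PfP.trans (PfP.trans (PfP.trans (PfP.trans (PfP.trans (PfP.trans (PfP.trans (PfP.trans (PfP.trans (PfP.trans (PfP.trans (PfP.trans (PfP.trans (PfP.trans (PfP.trans (PfP.trans (PfP.trans (PfP.trans (PfP.trans (PfP.trans (PfP.trans (PfP.trans (PfP.trans (PfP.trans (PfP.trans (PfP.trans (PfP.trans (PfP.trans (PfP.trans (PfP.trans (PfP.trans (PfP.trans (PfP.trans (PfP.trans (PfP.trans (PfP.trans (PfP.trans (PfP.trans (PfP.trans (PfP.trans (PfP.trans (PfP.trans (PfP.trans (PfP.trans (PfP.trans (PfP.trans (PfP.trans (PfP.trans (PfP.trans (PfP.trans (PfP.trans (PfP.trans (PfP.trans (PfP.trans (PfP.trans (PfP.trans (PfP.trans (PfP.trans (PfP.trans (PfP.trans (PfP.trans (PfP.trans (PfP.trans (PfP.trans (PfP.trans (PfP.trans (PfP.trans (PfP.trans (PfP.trans (PfP.trans (PfP.trans (PfP.trans (PfP.trans (PfP.trans (PfP.trans (PfP.trans (PfP.trans (PfP.trans (PfP.trans (PfP.trans (PfP.trans (PfP.trans (PfP.trans (PfP.trans (PfP.trans (PfP.trans (PfP.trans (PfP.trans (PfP.trans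 (PfP.trans (PfP.trans (PfP.trans (PfP.trans (PfP.trans (PfP.trans (PfP.trans (PfP.trans (PfP.trans (PfP.trans (PfP.trans (PfP.trans (PfP.trans (PfP.trans (PfP.trans (PfP.trans (PfP.trans (PfP.trans (PfP.trans (PfP.trans
 (PfP.trans (PfP.trans (PfP.trans (PfP.trans (PfP.trans (PfP.trans (PfP.trans (PfP.trans (PfP.trans (PfP.trans (PfP.trans (PfP.trans (PfP.trans (PfP.trans (PfP.trans (PfP.trans (PfP.trans (PfP.trans (PfP.trans (PfP.trans (PfP.trans (PfP.trans (PfP.trans (PfP.trans (PfP.trans (PfP.trans (PfP.trans (PfP.trans (pfC_sound p15_38_0_0) (pfC_sound p15_38_0_1)) (pfC_sound p15_38_0_2)) (pfC_sound p15_38_0_3)) (pfC_sound p15_38_0_4)) (pfC_sound p15_38_0_5)) (pfC_sound p15_38_0_6)) (pfC_sound p15_38_0_7)) (pfC_sound p15_38_0_8)) (pfC_sound p15_38_0_9)) (pfC_sound p15_38_0_10)) (pfC_sound p15_38_0_11)) (pfC_sound p15_38_0_12)) (pfC_sound p15_38_0_13)) (pfC_sound p15_38_0_14)) (pfC_sound p15_38_0_15)) (pfC_sound p15_38_0_16)) (pfC_sound p15_38_0_17)) (pfC_sound p15_38_0_18))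 (pfC_sound p15_38_0_19)) (pfC_sound p15_38_0_20)) (pfC_sound p15_38_0_21)) (pfC_sound p15_38_0_22)) (pfC_sound p15_38_0_23)) (pfC_sound p15_38_0_24)) (pfC_sound p15_38_0_25)) (pfC_sound p15_38_0_26)) (pfC_sound p15_38_0_27)) (pfC_sound p15_38_0_28)) (pfC_sound p15_38_0_29)) (pfC_sound p15_38_0_30)) (pfC_sound p15_38_0_31)) (pfC_sound p15_38_0_32)) (pfC_sound p15_38_0_33)) (pfC_sound p15_38_0_34)) (pfC_sound p15_38_0_35))
 (pfC_sound p15_38_0_36)) (pfC_sound p15_38_0_37)) (pfC_sound p15_38_0_38)) (pfC_sound p15_38_0_39)) (pfC_sound p15_38_0_40)) (pfC_sound p15_38_0_41)) (pfC_sound p15_38_0_42)) (pfC_sound p15_38_0_43)) (pfC_sound p15_38_0_44)) (pfC_sound p15_38_0_45)) (pfC_sound p15_38_0_46)) (pfC_sound p15_38_0_47)) (pfC_sound p15_38_0_48)) (pfC_sound p15_38_0_49)) (pfC_sound p15_38_0_50)) (pfC_sound p15_38_0_51)) (pfC_sound p15_38_0_52)) (pfC_sound p15_38_0_53)) (pfC_sound p15_38_0_54)) (pfC_sound p15_38_0_55)) (pfC_sound p15_38_0_56)) (pfC_sound p15_38_0_57)) (pfC_sound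 p15_38_0_58)) (pfC_sound p15_38_0_59)) (pfC_sound p15_38_0_60)) (pfC_sound p15_38_0_61)) (pfC_sound p15_38_0_62)) (pfC_sound p15_38_0_63)) (pfC_sound p15_38_0_64)) (pfC_sound p15_38_0_65)) (pfC_sound p15_38_0_66)) (pfC_sound p15_38_0_67)) (pfC_sound p15_38_0_68)) (pfC_sound p15_38_0_69)) (pfC_sound p15_38_0_70)) (pfC_sound p15_38_0_71)) (pfC_sound p15_38_0_72)) (pfC_sound p15_38_0_73)) (pfC_sound p15_38_0_74)) (pfC_sound p15_38_0_75)) (pfC_sound p15_38_0_76)) (pfC_sound p15_38_0_77)) (pfC_sound p15_38_0_78)) (pfC_sound p15_38_0_79)) (pfC_sound p15_38_0_80)) (pfC_sound p15_38_0_81)) (pfC_sound p15_38_0_82)) (pfC_sound p15_38_0_83))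
 (pfC_sound p15_38_0_84)) (pfC_sound p15_38_0_85)) (pfC_sound p15_38_0_86)) (pfC_sound p15_38_0_87)) (pfC_sound p15_38_0_88)) (pfC_sound p15_38_0_89)) (pfC_sound p15_38_0_90)) (pfC_sound p15_38_0_91)) (pfC_sound p15_38_0_92)) (pfC_sound p15_38_0_93)) (pfC_sound p15_38_0_94)) (pfC_sound p15_38_0_95)) (pfC_sound p15_38_0_96)) (pfC_sound p15_38_0_97)) (pfC_sound p15_38_0_98)) (pfC_sound p15_38_0_99)) (pfC_sound p15_38_0_100)) (pfC_sound p15_38_0_101)) (pfC_sound p15_38_0_102)) (pfC_sound p15_38_0_103)) (pfC_sound p15_38_0_104)) (pfC_sound p15_38_0_105)) (pfC_sound p15_38_0_106)) (pfC_sound p15_38_0_107)) (pfC_sound p15_38_0_108)) (pfC_sound p15_38_0_109)) (pfC_sound p15_38_0_110)) (pfC_sound p15_38_0_111)) (pfC_sound p15_38_0_112)) (pfC_sound p15_38_0_113)) (pfC_sound p15_38_0_114)) (pfC_sound p15_38_0_115)) (pfC_sound p15_38_0_116)) (pfC_sound p15_38_0_117)) (pfC_sound p15_38_0_118)) (pfC_sound p15_38_0_119)) (pfC_sound p15_38_0_120)) (pfC_sound p15_38_0_121)) (pfC_sound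 p15_38_0_122)) (pfC_sound p15_38_0_123)) (pfC_sound p15_38_0_124)) (pfC_sound p15_38_0_125)) (pfC_sound p15_38_0_126)) (pfC_sound p15_38_0_127)) (pfC_sound p15_38_0_128)) (pfC_sound p15_38_0_129)) (pfC_sound
 p15_38_0_130)) (pfC_sound p15_38_0_131)) (pfC_sound p15_38_0_132)) (pfC_sound p15_38_0_133)) (pfC_sound p15_38_0_134)) (pfC_sound p15_38_0_135)) (pfC_sound p15_38_0_136)) (pfC_sound p15_38_0_137)) (pfC_sound p15_38_0_138)) (pfC_sound p15_38_0_139)) (pfC_sound p15_38_0_140)) (pfC_sound p15_38_0_141)) (pfC_sound p15_38_0_142)) (pfC_sound p15_38_0_143)) (pfC_sound p15_38_0_144)) (pfC_sound p15_38_0_145)) (pfC_sound p15_38_0_146)) (pfC_sound p15_38_0_147)) (pfC_sound p15_38_0_148)) (pfC_sound p15_38_0_149)) (pfC_sound p15_38_0_150)) (pfC_sound p15_38_0_151)) (pfC_sound p15_38_0_152)) (pfC_sound p15_38_0_153)) (pfC_sound p15_38_0_154)) (pfC_sound p15_38_0_155)) (pfC_sound p15_38_0_156)) (pfC_sound p15_38_0_157)) (pfC_sound p15_38_0_158)) (pfC_sound p15_38_0_159)) (pfC_sound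 p15_38_0_160)) (pfC_sound p15_38_0_161)) (pfC_sound p15_38_0_162)) (pfC_sound p15_38_0_163)) (pfC_sound p15_38_0_164)) (pfC_sound p15_38_0_165)) (pfC_sound p15_38_0_166)) (pfC_sound p15_38_0_167)) (pfC_sound p15_38_0_168)) (pfC_sound p15_38_0_169)) (pfC_sound p15_38_0_170)) (pfC_sound p15_38_0_171)) (pfC_sound p15_38_0_172)) (pfC_sound p15_38_0_173)) (pfC_sound p15_38_0_174)) (pfC_sound p15_38_0_175)) (pfC_sound
 p15_38_0_176)) (pfC_sound p15_38_0_177)) (pfC_sound p15_38_0_178)) (pfC_sound p15_38_0_179)) (pfC_sound p15_38_0_180)) (pfC_sound p15_38_0_181)) (pfC_sound p15_38_0_182)) (pfC_sound p15_38_0_183)) (pfC_sound p15_38_0_184)) (pfC_sound p15_38_0_185)) (pfC_sound p15_38_0_186)) (pfC_sound p15_38_0_187)) (pfC_sound p15_38_0_188)) (pfC_sound p15_38_0_189)) (pfC_sound p15_38_0_190)) (pfC_sound p15_38_0_191)) (pfC_sound p15_38_0_192)) (pfC_sound p15_38_0_193)) (pfC_sound p15_38_0_194)) (pfC_sound p15_38_0_195)) (pfC_sound p15_38_0_196)) (pfC_sound p15_38_0_197)) (pfC_sound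 p15_38_0_198)) (pfC_sound p15_38_0_199)) (pfC_sound p15_38_0_200)) (pfC_sound p15_38_0_201)) (pfC_sound p15_38_0_202)) (pfC_sound p15_38_0_203)) (pfC_sound p15_38_0_204)) (pfC_sound p15_38_0_205)) (pfC_sound p15_38_0_206)) (pfC_sound p15_38_0_207)) (pfC_sound p15_38_0_208)) (pfC_sound p15_38_0_209)) (pfC_sound p15_38_0_210)) (pfC_sound p15_38_0_211)) (pfC_sound p15_38_0_212)) (pfC_sound p15_38_0_213)) (pfC_sound p15_38_0_214)) (pfC_sound p15_38_0_215)) (pfC_sound p15_38_0_216)) (pfC_sound p15_38_0_217)) (pfC_sound p15_38_0_218)) (pfC_sound p15_38_0_219)) (pfC_sound p15_38_0_220)) (pfC_sound p15_38_0_221)) (pfC_sound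
 p15_38_0_222)) (pfC_sound p15_38_0_223)) (pfC_sound p15_38_0_224)) (pfC_sound p15_38_0_225)) (pfC_sound p15_38_0_226)) (pfC_sound p15_38_0_227)) (pfC_sound p15_38_0_228)) (pfC_sound p15_38_0_229)) (pfC_sound p15_38_0_230)) (pfC_sound p15_38_0_231)) (pfC_sound p15_38_0_232)) (pfC_sound p15_38_0_233)) (pfC_sound p15_38_0_234)) (pfC_sound p15_38_0_235)) (pfC_sound p15_38_0_236)) (pfC_sound p15_38_0_237)) (pfC_sound p15_38_0_238)) (pfC_sound p15_38_0_239)) (pfC_sound p15_38_0_240)) (pfC_sound p15_38_0_241)) (pfC_sound p15_38_0_242)) (pfC_sound p15_38_0_243)) (pfC_sound p15_38_0_244)) (pfC_sound p15_38_0_245)) (pfC_sound p15_38_0_246)) (pfC_sound p15_38_0_247)) (pfC_sound p15_38_0_248)) (pfC_sound p15_38_0_249)) (pfC_sound p15_38_0_250)) (pfC_sound p15_38_0_251)) (pfC_sound p15_38_0_252)) (pfC_sound p15_38_0_253)) (pfC_sound p15_38_0_254)) (pfC_sound p15_38_0_255)) (pfC_sound p15_38_0_256)) (pfC_sound p15_38_0_257)) (pfC_sound p15_38_0_258)) (pfC_sound p15_38_0_259)) (pfC_sound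 p15_38_0_260)) (pfC_sound p15_38_0_261)) (pfC_sound p15_38_0_262)) (pfC_sound p15_38_0_263)) (pfC_sound p15_38_0_264)) (pfC_sound p15_38_0_265)) (pfC_sound p15_38_0_266)) (pfC_sound p15_38_0_267)) (pfC_sound
 p15_38_0_268)) (pfC_sound p15_38_0_269)) (pfC_sound p15_38_0_270)) (pfC_sound p15_38_0_271)) (pfC_sound p15_38_0_272)) (pfC_sound p15_38_0_273)) (pfC_sound p15_38_0_274)) (pfC_sound p15_38_0_275)) (pfC_sound p15_38_0_276)) (pfC_sound p15_38_0_277)) (pfC_sound p15_38_0_278)) (pfC_sound p15_38_0_279)) (pfC_sound p15_38_0_280)) (pfC_sound p15_38_0_281)) (pfC_sound p15_38_0_282)) (pfC_sound p15_38_0_283)) (pfC_sound p15_38_0_284)) (pfC_sound p15_38_0_285)) (pfC_sound p15_38_0_286)) (pfC_sound p15_38_0_287)) (pfC_sound p15_38_0_288)) (pfC_sound p15_38_0_289)) (pfC_sound p15_38_0_290)) (pfC_sound p15_38_0_291)) (pfC_sound p15_38_0_292)) (pfC_sound p15_38_0_293)) (pfC_sound p15_38_0_294)) (pfC_sound p15_38_0_295)) (pfC_sound p15_38_0_296)) (pfC_sound p15_38_0_297)) (pfC_sound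 p15_38_0_298)) (pfC_sound p15_38_0_299)) (pfC_sound p15_38_0_300)) (pfC_sound p15_38_0_301)) (pfC_sound p15_38_0_302)) (pfC_sound p15_38_0_303)) (pfC_sound p15_38_0_304)) (pfC_sound p15_38_0_305)) (pfC_sound p15_38_0_306)) (pfC_sound p15_38_0_307)) (pfC_sound p15_38_0_308)) (pfC_sound p15_38_0_309)) (pfC_sound p15_38_0_310)) (pfC_sound p15_38_0_311)) (pfC_sound p15_38_0_312)) (pfC_sound p15_38_0_313)) (pfC_sound
 p15_38_0_314)) (pfC_sound p15_38_0_315)) (pfC_sound p15_38_0_316)) (pfC_sound p15_38_0_317)) (pfC_sound p15_38_0_318)) (pfC_sound p15_38_0_319)) (pfC_sound p15_38_0_320)) (pfC_sound p15_38_0_321)) (pfC_sound p15_38_0_322)) (pfC_sound p15_38_0_323)) (pfC_sound p15_38_0_324)) (pfC_sound p15_38_0_325)) (pfC_sound p15_38_0_326)) (pfC_sound p15_38_0_327)) (pfC_sound p15_38_0_328)) (pfC_sound p15_38_0_329)) (pfC_sound p15_38_0_330)) (pfC_sound p15_38_0_331)) (pfC_sound p15_38_0_332)) (pfC_sound p15_38_0_333)) (pfC_sound p15_38_0_334)) (pfC_sound p15_38_0_335)) (pfC_sound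 p15_38_0_336)) (pfC_sound p15_38_0_337)) (pfC_sound p15_38_0_338)) (pfC_sound p15_38_0_339)) (pfC_sound p15_38_0_340)) (pfC_sound p15_38_0_341)) (pfC_sound p15_38_0_342)) (pfC_sound p15_38_0_343)) (pfC_sound p15_38_0_344)) (pfC_sound p15_38_0_345)) (pfC_sound p15_38_0_346)) (pfC_sound p15_38_0_347)) (pfC_sound p15_38_0_348)) (pfC_sound p15_38_0_349)) (pfC_sound p15_38_0_350)) (pfC_sound p15_38_0_351)) (pfC_sound p15_38_0_352)) (pfC_sound p15_38_0_353)) (pfC_sound p15_38_0_354)) (pfC_sound p15_38_0_355)) (by decide +kernel)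

def z15_38_0 : zOK yB15_38 (nat_lit 0) (nat_lit 0) (nat_lit 400) (nat_lit 13823025) (nat_lit 10936249) = true := by decide +kernel
def g15_38_0 : gOK yB15_38.x P15_38 (nat_lit 1347) (q15_38 :: r15_38) (nat_lit 0) (nat_lit 0) (nat_lit 1) (nat_lit 400) (nat_lit 0) (nat_lit 11000000) (nat_lit 12712500) (nat_lit 12712500) [(nat_lit 800), (nat_lit 1600)] = true := by decide +kernel
def v15_38_0 : ivC P15_38 s15_38 w15_38 n15_38 (nat_lit 3) (nat_lit 5220) (nat_lit 0) (nat_lit 0) f192_0_0 f200_0_0 (nat_lit 1) (nat_lit 400) f192_0_400 f200_0_400 (nat_lit 13823025) (nat_lit 10936249) p15_38_0 = true := by decide +kernel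
def p15_38_1 : PF := (PF.cons (PF.cons (PF.cons (PF.leaf (nat_lit 1997682) (nat_lit 9195978) (nat_lit 57912834) (nat_lit 9195978) [(nat_lit 0), (nat_lit 0), (nat_lit 0)]) (PF.cons (PF.leaf (nat_lit 2384403) (nat_lit 790439) (nat_lit 57051238) (nat_lit 9267135) [(nat_lit 790439), (nat_lit 0), (nat_lit 0)]) (PF.cons (PF.leaf (nat_lit 2835912) (nat_lit 858416) (nat_lit 56058560) (nat_lit 9333418) [(nat_lit 858416), (nat_lit 0), (nat_lit 0)]) (PF.cons (PF.leaf (nat_lit 3338160) (nat_lit 916967) (nat_lit 54969050) (nat_lit 9388860) [(nat_lit 916967), (nat_lit 0), (nat_lit 0)]) (PF.cons (PF.leaf (nat_lit 3880516) (nat_lit 967582) (nat_lit 53808529) (nat_lit 9429953) [(nat_lit 967582), (nat_lit 0), (nat_lit 0)]) (PF.cons (PF.leaf (nat_lit 4454212) (nat_lit 1011245) (nat_lit 52597707) (nat_lit 9454878) [(nat_lit 1011245), (nat_lit 0), (nat_lit 0)]) (PF.cons (PF.leaf (nat_lit 5051778) (nat_lit 1048691) (nat_lit 51353661) (nat_lit 9463004) [(nat_lit 1048691), (nat_lit 0), (nat_lit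 0)]) (PF.cons (PF.leaf (nat_lit 5666796) (nat_lit 1080525) (nat_lit 50090613) (nat_lit 9454518) [(nat_lit 1080525), (nat_lit 0), (nat_lit 0)]) (PF.cons (PF.leaf (nat_lit 6293715) (nat_lit 1107279) (nat_lit 48820410) (nat_lit 9430164)
 [(nat_lit 1107279), (nat_lit 0), (nat_lit 0)]) (PF.cons (PF.leaf (nat_lit 6927759) (nat_lit 1129434) (nat_lit 47552860) (nat_lit 9391041) [(nat_lit 1129434), (nat_lit 0), (nat_lit 0)]) (PF.cons (PF.leaf (nat_lit 7564863) (nat_lit 1147434) (nat_lit 46296006) (nat_lit 9338456) [(nat_lit 1147434), (nat_lit 0), (nat_lit 0)]) (PF.cons (PF.leaf (nat_lit 8201595) (nat_lit 1161694) (nat_lit 45056353) (nat_lit 9273817) [(nat_lit 1161694), (nat_lit 0), (nat_lit 0)]) (PF.cons (PF.leaf (nat_lit 8835070) (nat_lit 1172598) (nat_lit 43839076) (nat_lit 9198556) [(nat_lit 1172598), (nat_lit 0), (nat_lit 0)]) (PF.cons (PF.leaf (nat_lit 9462913) (nat_lit 1180502) (nat_lit 42648208) (nat_lit 9114076) [(nat_lit 1180502), (nat_lit 0), (nat_lit 0)]) (PF.cons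 (PF.leaf (nat_lit 10083193) (nat_lit 1185735) (nat_lit 41486801) (nat_lit 9021715) [(nat_lit 1185735), (nat_lit 0), (nat_lit 0)]) (PF.cons (PF.leaf (nat_lit 10694345) (nat_lit 1188600) (nat_lit 40357084) (nat_lit 8922722) [(nat_lit 1188600), (nat_lit 0), (nat_lit 0)]) (PF.cons PF.nil (PF.cons PF.nil (PF.cons PF.nil (PF.cons PF.nil PF.nil)))))))))))))))))))) (PF.cons (PF.cons (PF.leaf (nat_lit 3039340) (nat_lit 2924280) (nat_lit 54818381) (nat_lit
 9366150) [(nat_lit 0), (nat_lit 2924280), (nat_lit 0)]) (PF.cons (PF.leaf (nat_lit 3515811) (nat_lit 927102) (nat_lit 53777887) (nat_lit 9403175) [(nat_lit 927102), (nat_lit 3000647), (nat_lit 0)]) (PF.cons (PF.leaf (nat_lit 4035533) (nat_lit 975352) (nat_lit 52661415) (nat_lit 9427830) [(nat_lit 975352), (nat_lit 3068862), (nat_lit 0)]) (PF.cons (PF.leaf (nat_lit 4588338) (nat_lit 1016708) (nat_lit 51492636) (nat_lit 9438230) [(nat_lit 1016708), (nat_lit 3127821), (nat_lit 0)]) (PF.cons (PF.leaf (nat_lit 5166172) (nat_lit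 1051998) (nat_lit 50289890) (nat_lit 9433677) [(nat_lit 1051998), (nat_lit 3177251), (nat_lit 0)]) (PF.cons (PF.leaf (nat_lit 5762327) (nat_lit 1081867) (nat_lit 49067871) (nat_lit 9414269) [(nat_lit 1081867), (nat_lit 3217335), (nat_lit 0)]) (PF.cons (PF.leaf (nat_lit 6371156) (nat_lit 1106859) (nat_lit 47838506) (nat_lit 9380634) [(nat_lit 1106859), (nat_lit 3248512), (nat_lit 0)]) (PF.cons (PF.leaf (nat_lit 6987863) (nat_lit 1127457) (nat_lit 46611503) (nat_lit 9333740) [(nat_lit 1127457), (nat_lit 3271368), (nat_lit 0)]) (PF.cons (PF.leaf (nat_lit 7608381) (nat_lit 1144096) (nat_lit 45394720) (nat_lit 9274754) [(nat_lit 1144096), (nat_lit 3286565), (nat_lit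
 0)]) (PF.cons (PF.leaf (nat_lit 8229297) (nat_lit 1157179) (nat_lit 44194460) (nat_lit 9204944) [(nat_lit 1157179), (nat_lit 3294794), (nat_lit 0)]) (PF.cons (PF.leaf (nat_lit 8847759) (nat_lit 1167075) (nat_lit 43015704) (nat_lit 9125601) [(nat_lit 1167075), (nat_lit 3296747), (nat_lit 0)]) (PF.cons (PF.leaf (nat_lit 9461406) (nat_lit 1174127) (nat_lit 41862313) (nat_lit 9037996) [(nat_lit 1174127), (nat_lit 3293096), (nat_lit 0)]) (PF.cons (PF.leaf (nat_lit 10068307) (nat_lit 1178648) (nat_lit 40737204) (nat_lit 8943342) [(nat_lit 1178648), (nat_lit 3284480), (nat_lit 0)]) (PF.cons (PF.leaf (nat_lit 10666919) (nat_lit 1180925) (nat_lit 39642499) (nat_lit 8842776) [(nat_lit 1180925), (nat_lit 3271499), (nat_lit 0)]) (PF.cons PF.nil (PF.cons PF.nil (PF.cons PF.nil (PF.cons PF.nil PF.nil)))))))))))))))))) (PF.cons (PF.cons (PF.leaf (nat_lit 4192677) (nat_lit 3092480) (nat_lit 51510416) (nat_lit 9413434) [(nat_lit 0), (nat_lit 3092480), (nat_lit 0)]) (PF.cons (PF.leaf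 (nat_lit 4722024) (nat_lit 1019491) (nat_lit 50392191) (nat_lit 9411231) [(nat_lit 1019491), (nat_lit 3142949), (nat_lit 0)]) (PF.cons (PF.leaf (nat_lit 5278698) (nat_lit 1053133) (nat_lit 49236371) (nat_lit 9395718)
 [(nat_lit 1053133), (nat_lit 3185227), (nat_lit 0)]) (PF.cons (PF.leaf (nat_lit 5855232) (nat_lit 1081429) (nat_lit 48059129) (nat_lit 9366901) [(nat_lit 1081429), (nat_lit 3219246), (nat_lit 0)]) (PF.cons (PF.leaf (nat_lit 6445631) (nat_lit 1104974) (nat_lit 46873061) (nat_lit 9325306) [(nat_lit 1104974), (nat_lit 3245273), (nat_lit 0)]) (PF.cons (PF.leaf (nat_lit 7044929) (nat_lit 1124271) (nat_lit 45688140) (nat_lit 9271785) [(nat_lit 1124271), (nat_lit 3263765), (nat_lit 0)]) (PF.cons (PF.leaf (nat_lit 7648974) (nat_lit 1139762) (nat_lit 44512295) (nat_lit 9207380) [(nat_lit 1139762), (nat_lit 3275281), (nat_lit 0)]) (PF.cons (PF.leaf (nat_lit 8254317) (nat_lit 1151846) (nat_lit 43351802) (nat_lit 9133236) [(nat_lit 1151846), (nat_lit 3280425), (nat_lit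 0)]) (PF.cons (PF.leaf (nat_lit 8858074) (nat_lit 1160885) (nat_lit 42211577) (nat_lit 9050520) [(nat_lit 1160885), (nat_lit 3279813), (nat_lit 0)]) (PF.cons (PF.leaf (nat_lit 9457883) (nat_lit 1167212) (nat_lit 41095411) (nat_lit 8960388) [(nat_lit 1167212), (nat_lit 3274050), (nat_lit 0)]) (PF.cons (PF.leaf (nat_lit 10051783) (nat_lit 1171127) (nat_lit 40006155) (nat_lit 8863943) [(nat_lit 1171127), (nat_lit 3263718),
 (nat_lit 0)]) (PF.cons (PF.leaf (nat_lit 10638234) (nat_lit 1172907) (nat_lit 38945883) (nat_lit 8762221) [(nat_lit 1172907), (nat_lit 3249362), (nat_lit 0)]) (PF.cons (PF.leaf (nat_lit 11215964) (nat_lit 1172802) (nat_lit 37916022) (nat_lit 8656177) [(nat_lit 1172802), (nat_lit 3231492), (nat_lit 0)]) (PF.cons PF.nil (PF.cons PF.nil (PF.cons PF.nil PF.nil)))))))))))))))) (PF.cons (PF.cons (PF.leaf (nat_lit 5391885) (nat_lit 3189362) (nat_lit 48190954) (nat_lit 9349771) [(nat_lit 0), (nat_lit 3189362), (nat_lit 0)]) (PF.cons (PF.leaf (nat_lit 5947397)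 (nat_lit 1079228) (nat_lit 47062873) (nat_lit 9313001) [(nat_lit 1079228), (nat_lit 3217903), (nat_lit 0)]) (PF.cons (PF.leaf (nat_lit 6518651) (nat_lit 1101656) (nat_lit 45922881) (nat_lit 9264699) [(nat_lit 1101656), (nat_lit 3239306), (nat_lit 0)]) (PF.cons (PF.leaf (nat_lit 7100205) (nat_lit 1119915) (nat_lit 44781749) (nat_lit 9205623) [(nat_lit 1119915), (nat_lit 3253897), (nat_lit 0)]) (PF.cons (PF.leaf (nat_lit 7687699) (nat_lit 1134471) (nat_lit 43647802) (nat_lit 9136716) [(nat_lit 1134471), (nat_lit 3262135), (nat_lit 0)]) (PF.cons (PF.leaf (nat_lit 8277541) (nat_lit 1145733) (nat_lit 42527505) (nat_lit 9059014) [(nat_lit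
 1145733), (nat_lit 3264542), (nat_lit 0)]) (PF.cons (PF.leaf (nat_lit 8866779) (nat_lit 1154062) (nat_lit 41425863) (nat_lit 8973583) [(nat_lit 1154062), (nat_lit 3261663), (nat_lit 0)]) (PF.cons (PF.leaf (nat_lit 9452992) (nat_lit 1159785) (nat_lit 40346701) (nat_lit 8881475) [(nat_lit 1159785), (nat_lit 3254044), (nat_lit 0)]) (PF.cons (PF.leaf (nat_lit 10034183) (nat_lit 1163198) (nat_lit 39292885) (nat_lit 8783699) [(nat_lit 1163198), (nat_lit 3242213), (nat_lit 0)]) (PF.cons (PF.leaf (nat_lit 10608768) (nat_lit 1164567) (nat_lit 38266499) (nat_lit 8681202) [(nat_lit 1164567), (nat_lit 3226668), (nat_lit 0)]) (PF.cons (PF.leaf (nat_lit 11175446) (nat_lit 1164134) (nat_lit 37268983) (nat_lit 8574861) [(nat_lit 1164134), (nat_lit 3207876), (nat_lit 0)]) (PF.cons PF.nil (PF.cons PF.nil (PF.cons PF.nil PF.nil)))))))))))))) (PF.cons (PF.cons (PF.leaf (nat_lit 6591995) (nat_lit 3230850) (nat_lit 44986202) (nat_lit 9199208) [(nat_lit 0), (nat_lit 3230850), (nat_lit 0)])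 (PF.cons (PF.leaf (nat_lit 7155050) (nat_lit 1114399) (nat_lit 43890942) (nat_lit 9135611) [(nat_lit 1114399), (nat_lit 3241964), (nat_lit 0)]) (PF.cons (PF.leaf (nat_lit 7725654) (nat_lit 1128244) (nat_lit 42800072)
 (nat_lit 9063071) [(nat_lit 1128244), (nat_lit 3247295), (nat_lit 0)]) (PF.cons (PF.leaf (nat_lit 8299889) (nat_lit 1138862) (nat_lit 41720541) (nat_lit 8982544) [(nat_lit 1138862), (nat_lit 3247284), (nat_lit 0)]) (PF.cons (PF.leaf (nat_lit 8874645) (nat_lit 1146628) (nat_lit 40657626) (nat_lit 8895010) [(nat_lit 1146628), (nat_lit 3242415), (nat_lit 0)]) (PF.cons (PF.leaf (nat_lit 9447393) (nat_lit 1151869) (nat_lit 39615317) (nat_lit 8801438) [(nat_lit 1151869), (nat_lit 3233176), (nat_lit 0)]) (PF.cons (PF.leaf (nat_lit 10016060) (nat_lit 1154880) (nat_lit 38596585) (nat_lit 8702757) [(nat_lit 1154880), (nat_lit 3220046), (nat_lit 0)]) (PF.cons (PF.leaf (nat_lit 10578996) (nat_lit 1155922) (nat_lit 37603587) (nat_lit 8599839) [(nat_lit 1155922), (nat_lit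 3203481), (nat_lit 0)]) (PF.cons (PF.leaf (nat_lit 11134858) (nat_lit 1155231) (nat_lit 36637826) (nat_lit 8493489) [(nat_lit 1155231), (nat_lit 3183911), (nat_lit 0)]) (PF.cons PF.nil (PF.cons PF.nil (PF.cons PF.nil PF.nil)))))))))))) (PF.cons (PF.cons (PF.leaf (nat_lit 7764131) (nat_lit 3230901) (nat_lit 41967631) (nat_lit 8986674) [(nat_lit 0), (nat_lit 3230901), (nat_lit 0)]) (PF.cons (PF.leaf (nat_lit 8322346) (nat_lit
 1131239) (nat_lit 40929681) (nat_lit 8904026) [(nat_lit 1131239), (nat_lit 3228773), (nat_lit 0)]) (PF.cons (PF.leaf (nat_lit 8882480) (nat_lit 1138593) (nat_lit 39905801) (nat_lit 8814974) [(nat_lit 1138593), (nat_lit 3222169), (nat_lit 0)]) (PF.cons (PF.leaf (nat_lit 9441754) (nat_lit 1143476) (nat_lit 38900310) (nat_lit 8720424) [(nat_lit 1143476), (nat_lit 3211529), (nat_lit 0)]) (PF.cons (PF.leaf (nat_lit 9997978) (nat_lit 1146185) (nat_lit 37916393) (nat_lit 8621237) [(nat_lit 1146185), (nat_lit 3197287), (nat_lit 0)]) (PF.cons (PF.leaf (nat_lit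 10549399) (nat_lit 1146984) (nat_lit 36956358) (nat_lit 8518226) [(nat_lit 1146984), (nat_lit 3179861), (nat_lit 0)]) (PF.cons (PF.leaf (nat_lit 11094608) (nat_lit 1146103) (nat_lit 36021820) (nat_lit 8412138) [(nat_lit 1146103), (nat_lit 3159646), (nat_lit 0)]) (PF.cons (PF.leaf (nat_lit 11632492) (nat_lit 1143752) (nat_lit 35113845) (nat_lit 8303655) [(nat_lit 1143752), (nat_lit 3137009), (nat_lit 0)]) (PF.cons PF.nil (PF.cons PF.nil PF.nil)))))))))) (PF.cons (PF.cons (PF.leaf (nat_lit 8891225) (nat_lit 3201008) (nat_lit 39169162) (nat_lit 8733600) [(nat_lit 0), (nat_lit 3201008), (nat_lit 0)]) (PF.cons (PF.leaf (nat_lit 9436790)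
 (nat_lit 1134604) (nat_lit 38200629) (nat_lit 8638537) [(nat_lit 1134604), (nat_lit 3189173), (nat_lit 0)]) (PF.cons (PF.leaf (nat_lit 9980522) (nat_lit 1137117) (nat_lit 37251384) (nat_lit 8539228) [(nat_lit 1137117), (nat_lit 3173994), (nat_lit 0)]) (PF.cons (PF.leaf (nat_lit 10520461) (nat_lit 1137756) (nat_lit 36323981) (nat_lit 8436436) [(nat_lit 1137756), (nat_lit 3155854), (nat_lit 0)]) (PF.cons (PF.leaf (nat_lit 11055100) (nat_lit 1136756) (nat_lit 35420214) (nat_lit 8330864) [(nat_lit 1136756), (nat_lit 3135118), (nat_lit 0)]) (PF.cons (PF.leaf (nat_lit 11583239) (nat_lit 1134323) (nat_lit 34541284) (nat_lit 8223148) [(nat_lit 1134323), (nat_lit 3112126), (nat_lit 0)]) (PF.cons PF.nil (PF.cons PF.nil PF.nil)))))))) (PF.cons (PF.cons (PF.leaf (nat_lit 9964386) (nat_lit 3150211) (nat_lit 36600543) (nat_lit 8456785) [(nat_lit 0), (nat_lit 3150211), (nat_lit 0)]) (PF.cons (PF.leaf (nat_lit 10492696) (nat_lit 1128236) (nat_lit 35705573) (nat_lit 8354515) [(nat_lit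 1128236), (nat_lit 3131498), (nat_lit 0)]) (PF.cons (PF.leaf (nat_lit 11016756) (nat_lit 1127188) (nat_lit 34832221) (nat_lit 8249701) [(nat_lit 1127188), (nat_lit 3110359), (nat_lit 0)]) (PF.cons (PF.leaf (nat_lit
 11535192) (nat_lit 1124732) (nat_lit 33981884) (nat_lit 8142949) [(nat_lit 1124732), (nat_lit 3087111), (nat_lit 0)]) (PF.cons PF.nil (PF.cons PF.nil PF.nil)))))) (PF.cons (PF.cons (PF.leaf (nat_lit 10980095) (nat_lit 3085391) (nat_lit 34257009) (nat_lit 8168668) [(nat_lit 0), (nat_lit 3085391), (nat_lit 0)]) (PF.cons (PF.leaf (nat_lit 11488721) (nat_lit 1114974) (nat_lit 33434911) (nat_lit 8063069) [(nat_lit 1114974), (nat_lit 3061982), (nat_lit 0)]) (PF.cons (PF.leaf (nat_lit 11991605) (nat_lit 1111345) (nat_lit 32634968) (nat_lit 7956207) [(nat_lit 1111345), (nat_lit 3036868), (nat_lit 0)]) (PF.cons PF.nil PF.nil)))) (PF.cons (PF.cons (PF.leaf (nat_lit 11938201) (nat_lit 3011660) (nat_lit 32125795) (nat_lit 7878076) [(nat_lit 0), (nat_lit 3011660), (nat_lit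 0)]) (PF.cons PF.nil PF.nil)) (PF.cons PF.nil (PF.cons PF.nil (PF.cons PF.nil PF.nil))))))))))))) (PF.cons (PF.cons (PF.cons (PF.leaf (nat_lit 3767248) (nat_lit 6477653) (nat_lit 51298185) (nat_lit 9332974) [(nat_lit 0), (nat_lit 0), (nat_lit 6477653)]) (PF.cons (PF.leaf (nat_lit 4243562) (nat_lit 961495) (nat_lit 50299725) (nat_lit 9335650) [(nat_lit 961495), (nat_lit 0), (nat_lit 6511941)]) (PF.cons (PF.leaf (nat_lit
 4757806) (nat_lit 1002784) (nat_lit 49239233) (nat_lit 9326870) [(nat_lit 1002784), (nat_lit 0), (nat_lit 6537140)]) (PF.cons (PF.leaf (nat_lit 5300116) (nat_lit 1037322) (nat_lit 48138812) (nat_lit 9305892) [(nat_lit 1037322), (nat_lit 0), (nat_lit 6552139)]) (PF.cons (PF.leaf (nat_lit 5862981) (nat_lit 1066137) (nat_lit 47014913) (nat_lit 9272702) [(nat_lit 1066137), (nat_lit 0), (nat_lit 6556646)]) (PF.cons (PF.leaf (nat_lit 6440349) (nat_lit 1089984) (nat_lit 45880251) (nat_lit 9227760) [(nat_lit 1089984), (nat_lit 0), (nat_lit 6550877)]) (PF.cons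 (PF.leaf (nat_lit 7027250) (nat_lit 1109465) (nat_lit 44744824) (nat_lit 9171832) [(nat_lit 1109465), (nat_lit 0), (nat_lit 6535362)]) (PF.cons (PF.leaf (nat_lit 7619539) (nat_lit 1125083) (nat_lit 43616543) (nat_lit 9105866) [(nat_lit 1125083), (nat_lit 0), (nat_lit 6510817)]) (PF.cons (PF.leaf (nat_lit 8213771) (nat_lit 1137274) (nat_lit 42501655) (nat_lit 9030903) [(nat_lit 1137274), (nat_lit 0), (nat_lit 6478055)]) (PF.cons (PF.leaf (nat_lit 8807086) (nat_lit 1146423) (nat_lit 41405049) (nat_lit 8948016) [(nat_lit 1146423), (nat_lit 0), (nat_lit 6437932)]) (PF.cons (PF.leaf (nat_lit 9397127) (nat_lit 1152874) (nat_lit 40330502)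
 (nat_lit 8858263) [(nat_lit 1152874), (nat_lit 0), (nat_lit 6391305)]) (PF.cons (PF.leaf (nat_lit 9981932) (nat_lit 1156934) (nat_lit 39280865) (nat_lit 8762662) [(nat_lit 1156934), (nat_lit 0), (nat_lit 6339001)]) (PF.cons (PF.leaf (nat_lit 10559939) (nat_lit 1158883) (nat_lit 38258230) (nat_lit 8662171) [(nat_lit 1158883), (nat_lit 0), (nat_lit 6281808)]) (PF.cons (PF.leaf (nat_lit 11129871) (nat_lit 1158970) (nat_lit 37264059) (nat_lit 8557674) [(nat_lit 1158970), (nat_lit 0), (nat_lit 6220458)]) (PF.cons PF.nil (PF.cons PF.nil PF.nil)))))))))))))))) (PF.cons (PF.cons (PF.leaf (nat_lit 4891028) (nat_lit 3121908) (nat_lit 48175133) (nat_lit 9284961) [(nat_lit 0), (nat_lit 3121908), (nat_lit 6526809)]) (PF.cons (PF.leaf (nat_lit 5409913) (nat_lit 1035311) (nat_lit 47127422) (nat_lit 9255961) [(nat_lit 1035311), (nat_lit 3156619), (nat_lit 6533497)]) (PF.cons (PF.leaf (nat_lit 5952104) (nat_lit 1063188) (nat_lit 46051450) (nat_lit 9215870) [(nat_lit 1063188), (nat_lit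 3184196), (nat_lit 6530918)]) (PF.cons (PF.leaf (nat_lit 6510684) (nat_lit 1086084) (nat_lit 44961534) (nat_lit 9165102) [(nat_lit 1086084), (nat_lit 3204773), (nat_lit 6519149)]) (PF.cons (PF.leaf (nat_lit 7080242)
 (nat_lit 1104663) (nat_lit 43868492) (nat_lit 9104353) [(nat_lit 1104663), (nat_lit 3218707), (nat_lit 6498606)]) (PF.cons (PF.leaf (nat_lit 7656404) (nat_lit 1119459) (nat_lit 42780658) (nat_lit 9034492) [(nat_lit 1119459), (nat_lit 3226466), (nat_lit 6469898)]) (PF.cons (PF.leaf (nat_lit 8235573) (nat_lit 1130922) (nat_lit 41704492) (nat_lit 8956470) [(nat_lit 1130922), (nat_lit 3228573), (nat_lit 6433743)]) (PF.cons (PF.leaf (nat_lit 8814798) (nat_lit 1139438) (nat_lit 40644995) (nat_lit 8871273) [(nat_lit 1139438), (nat_lit 3225565), (nat_lit 6390906)]) (PF.cons (PF.leaf (nat_lit 9391649) (nat_lit 1145351) (nat_lit 39605996) (nat_lit 8779870) [(nat_lit 1145351), (nat_lit 3217974), (nat_lit 6342159)]) (PF.cons (PF.leaf (nat_lit 9964135) (nat_lit 1148963)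 (nat_lit 38590377) (nat_lit 8683198) [(nat_lit 1148963), (nat_lit 3206311), (nat_lit 6288255)]) (PF.cons (PF.leaf (nat_lit 10530638) (nat_lit 1150545) (nat_lit 37600251) (nat_lit 8582136) [(nat_lit 1150545), (nat_lit 3191058), (nat_lit 6229912)]) (PF.cons (PF.leaf (nat_lit 11089853) (nat_lit 1150340) (nat_lit 36637101) (nat_lit 8477497) [(nat_lit 1150340), (nat_lit 3172665), (nat_lit 6167799)]) (PF.cons PF.nil (PF.cons PF.nil
 PF.nil)))))))))))))) (PF.cons (PF.cons (PF.leaf (nat_lit 6043367) (nat_lit 3178618) (nat_lit 45097521) (nat_lit 9153491) [(nat_lit 0), (nat_lit 3178618), (nat_lit 6500562)]) (PF.cons (PF.leaf (nat_lit 6581772) (nat_lit 1080777) (nat_lit 44055676) (nat_lit 9098025) [(nat_lit 1080777), (nat_lit 3195341), (nat_lit 6483649)]) (PF.cons (PF.leaf (nat_lit 7133257) (nat_lit 1098738) (nat_lit 43007012) (nat_lit 9033405) [(nat_lit 1098738), (nat_lit 3206054), (nat_lit 6458809)]) (PF.cons (PF.leaf (nat_lit 7692906) (nat_lit 1112933) (nat_lit 41960750) (nat_lit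 8960445) [(nat_lit 1112933), (nat_lit 3211126), (nat_lit 6426563)]) (PF.cons (PF.leaf (nat_lit 8256858) (nat_lit 1123842) (nat_lit 40923850) (nat_lit 8880036) [(nat_lit 1123842), (nat_lit 3211005), (nat_lit 6387545)]) (PF.cons (PF.leaf (nat_lit 8821984) (nat_lit 1131869) (nat_lit 39901600) (nat_lit 8793090) [(nat_lit 1131869), (nat_lit 3206165), (nat_lit 6342442)]) (PF.cons (PF.leaf (nat_lit 9385736) (nat_lit 1137361) (nat_lit 38898008) (nat_lit 8700507) [(nat_lit 1137361), (nat_lit 3197085), (nat_lit 6291954)]) (PF.cons (PF.leaf (nat_lit 9946047) (nat_lit 1140621) (nat_lit 37916072) (nat_lit 8603154) [(nat_lit 1140621), (nat_lit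
 3184233), (nat_lit 6236769)]) (PF.cons (PF.leaf (nat_lit 10501231) (nat_lit 1141917) (nat_lit 36957987) (nat_lit 8501843) [(nat_lit 1141917), (nat_lit 3168049), (nat_lit 6177542)]) (PF.cons (PF.leaf (nat_lit 11049933) (nat_lit 1141487) (nat_lit 36025303) (nat_lit 8397328) [(nat_lit 1141487), (nat_lit 3148950), (nat_lit 6114889)]) (PF.cons PF.nil (PF.cons PF.nil PF.nil)))))))))))) (PF.cons (PF.cons (PF.leaf (nat_lit 7187891) (nat_lit 3191643) (nat_lit 42158509) (nat_lit 8959190) [(nat_lit 0), (nat_lit 3191643), (nat_lit 6416181)]) (PF.cons (PF.leaf (nat_lit 7730234) (nat_lit 1105488) (nat_lit 41155355) (nat_lit 8883918) [(nat_lit 1105488), (nat_lit 3194350), (nat_lit 6380998)]) (PF.cons (PF.leaf (nat_lit 8278575) (nat_lit 1116034) (nat_lit 40158515) (nat_lit 8801770) [(nat_lit 1116034), (nat_lit 3192278), (nat_lit 6339622)]) (PF.cons (PF.leaf (nat_lit 8829418) (nat_lit 1123721) (nat_lit 39173821) (nat_lit 8713614) [(nat_lit 1123721), (nat_lit 3185844), (nat_lit 6292679)])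 (PF.cons (PF.leaf (nat_lit 9380030) (nat_lit 1128911) (nat_lit 38205614) (nat_lit 8620298) [(nat_lit 1128911), (nat_lit 3175481), (nat_lit 6240807)]) (PF.cons (PF.leaf (nat_lit 9928206) (nat_lit 1131917) (nat_lit
 37257116) (nat_lit 8522632) [(nat_lit 1131917), (nat_lit 3161612), (nat_lit 6184638)]) (PF.cons (PF.leaf (nat_lit 10472171) (nat_lit 1133007) (nat_lit 36330677) (nat_lit 8421376) [(nat_lit 1133007), (nat_lit 3144645), (nat_lit 6124776)]) (PF.cons (PF.leaf (nat_lit 11010493) (nat_lit 1132419) (nat_lit 35427962) (nat_lit 8317232) [(nat_lit 1132419), (nat_lit 3124963), (nat_lit 6061789)]) (PF.cons (PF.leaf (nat_lit 11542029) (nat_lit 1130363) (nat_lit 34550095) (nat_lit 8210841) [(nat_lit 1130363), (nat_lit 3102921), (nat_lit 5996203)]) (PF.cons PF.nil PF.nil)))))))))) (PF.cons (PF.cons (PF.leaf (nat_lit 8301867) (nat_lit 3172477) (nat_lit 39407024) (nat_lit 8721783) [(nat_lit 0), (nat_lit 3172477), (nat_lit 6290093)]) (PF.cons (PF.leaf (nat_lit 8837955) (nat_lit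 1114980) (nat_lit 38460455) (nat_lit 8632947) [(nat_lit 1114980), (nat_lit 3164677), (nat_lit 6241720)]) (PF.cons (PF.leaf (nat_lit 9375217) (nat_lit 1119998) (nat_lit 37527790) (nat_lit 8539330) [(nat_lit 1119998), (nat_lit 3153222), (nat_lit 6188806)]) (PF.cons (PF.leaf (nat_lit 9911181) (nat_lit 1122851) (nat_lit 36612611) (nat_lit 8441705) [(nat_lit 1122851), (nat_lit 3138501), (nat_lit 6131937)]) (PF.cons (PF.leaf
 (nat_lit 10443929) (nat_lit 1123818) (nat_lit 35717517) (nat_lit 8340792) [(nat_lit 1123818), (nat_lit 3120888), (nat_lit 6071675)]) (PF.cons (PF.leaf (nat_lit 10971926) (nat_lit 1123139) (nat_lit 34844352) (nat_lit 8237254) [(nat_lit 1123139), (nat_lit 3100740), (nat_lit 6008548)]) (PF.cons (PF.leaf (nat_lit 11493951) (nat_lit 1121024) (nat_lit 33994379) (nat_lit 8131693) [(nat_lit 1121024), (nat_lit 3078387), (nat_lit 5943046)]) (PF.cons PF.nil PF.nil)))))))) (PF.cons (PF.cons (PF.leaf (nat_lit 9372132) (nat_lit 3130355) (nat_lit 36863369) (nat_lit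 8457650) [(nat_lit 0), (nat_lit 3130355), (nat_lit 6136013)]) (PF.cons (PF.leaf (nat_lit 9895584) (nat_lit 1113412) (nat_lit 35981571) (nat_lit 8360416) [(nat_lit 1113412), (nat_lit 3114938), (nat_lit 6078720)]) (PF.cons (PF.leaf (nat_lit 10417002) (nat_lit 1114343) (nat_lit 35117652) (nat_lit 8260128) [(nat_lit 1114343), (nat_lit 3096812), (nat_lit 6018284)]) (PF.cons (PF.leaf (nat_lit 10934639) (nat_lit 1113643) (nat_lit 34273717) (nat_lit 8157423) [(nat_lit 1113643), (nat_lit 3076307), (nat_lit 5955203)]) (PF.cons (PF.leaf (nat_lit 11447167) (nat_lit 1111526) (nat_lit 33451220) (nat_lit 8052875) [(nat_lit 1111526), (nat_lit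
 3053735), (nat_lit 5889936)]) (PF.cons PF.nil PF.nil)))))) (PF.cons (PF.cons (PF.leaf (nat_lit 10392007) (nat_lit 3072439) (nat_lit 34530150) (nat_lit 8179394) [(nat_lit 0), (nat_lit 3072439), (nat_lit 5964628)]) (PF.cons (PF.leaf (nat_lit 10899078) (nat_lit 1103922) (nat_lit 33715252) (nat_lit 8077747) [(nat_lit 1103922), (nat_lit 3051685), (nat_lit 5901774)]) (PF.cons (PF.leaf (nat_lit 11402040) (nat_lit 1101863) (nat_lit 32919911) (nat_lit 7974390) [(nat_lit 1101863), (nat_lit 3028982), (nat_lit 5836889)]) (PF.cons PF.nil PF.nil)))) (PF.cons (PF.cons (PF.leaf (nat_lit 11359034) (nat_lit 3004138) (nat_lit 32399705) (nat_lit 7896229) [(nat_lit 0), (nat_lit 3004138), (nat_lit 5783911)]) (PF.cons (PF.leaf (nat_lit 11847751) (nat_lit 1088861) (nat_lit 31650236) (nat_lit 7793107) [(nat_lit 1088861), (nat_lit 2979796), (nat_lit 5718029)]) PF.nil)) (PF.cons PF.nil (PF.cons PF.nil (PF.cons PF.nil PF.nil))))))))))) (PF.cons (PF.cons (PF.cons (PF.leaf (nat_lit 5537099) (nat_lit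 6443152) (nat_lit 45122216) (nat_lit 9100290) [(nat_lit 0), (nat_lit 0), (nat_lit 6443152)]) (PF.cons (PF.leaf (nat_lit 6043410) (nat_lit 1040695) (nat_lit 44149535) (nat_lit 9053032) [(nat_lit 1040695), (nat_lit
 0), (nat_lit 6432774)]) (PF.cons (PF.leaf (nat_lit 6569907) (nat_lit 1063956) (nat_lit 43155189) (nat_lit 8996509) [(nat_lit 1063956), (nat_lit 0), (nat_lit 6414599)]) (PF.cons (PF.leaf (nat_lit 7110166) (nat_lit 1082589) (nat_lit 42151821) (nat_lit 8931375) [(nat_lit 1082589), (nat_lit 0), (nat_lit 6388923)]) (PF.cons (PF.leaf (nat_lit 7659282) (nat_lit 1097295) (nat_lit 41148756) (nat_lit 8858406) [(nat_lit 1097295), (nat_lit 0), (nat_lit 6356234)]) (PF.cons (PF.leaf (nat_lit 8213362) (nat_lit 1108618) (nat_lit 40153023) (nat_lit 8778439) [(nat_lit 1108618), (nat_lit 0), (nat_lit 6317129)]) (PF.cons (PF.leaf (nat_lit 8769244) (nat_lit 1117000) (nat_lit 39169963) (nat_lit 8692333) [(nat_lit 1117000), (nat_lit 0), (nat_lit 6272255)]) (PF.cons (PF.leaf (nat_lit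 9324367) (nat_lit 1122815) (nat_lit 38203630) (nat_lit 8600932) [(nat_lit 1122815), (nat_lit 0), (nat_lit 6222272)]) (PF.cons (PF.leaf (nat_lit 9876649) (nat_lit 1126379) (nat_lit 37257069) (nat_lit 8505048) [(nat_lit 1126379), (nat_lit 0), (nat_lit 6167827)]) (PF.cons (PF.leaf (nat_lit 10424384) (nat_lit 1127973) (nat_lit 36332527) (nat_lit 8405444) [(nat_lit 1127973), (nat_lit 0), (nat_lit 6109540)]) (PF.cons (PF.leaf
 (nat_lit 10966202) (nat_lit 1127839) (nat_lit 35431611) (nat_lit 8302828) [(nat_lit 1127839), (nat_lit 0), (nat_lit 6047990)]) (PF.cons PF.nil (PF.cons PF.nil (PF.cons PF.nil PF.nil)))))))))))))) (PF.cons (PF.cons (PF.leaf (nat_lit 6642636) (nat_lit 3146735) (nat_lit 42288553) (nat_lit 8924351) [(nat_lit 0), (nat_lit 3146735), (nat_lit 6374586)]) (PF.cons (PF.leaf (nat_lit 7163715) (nat_lit 1075143) (nat_lit 41330716) (nat_lit 8856805) [(nat_lit 1075143), (nat_lit 3154708), (nat_lit 6345719)]) (PF.cons (PF.leaf (nat_lit 7695865) (nat_lit 1089601) (nat_lit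 40369252) (nat_lit 8781936) [(nat_lit 1089601), (nat_lit 3157583), (nat_lit 6310418)]) (PF.cons (PF.leaf (nat_lit 8234618) (nat_lit 1100644) (nat_lit 39412113) (nat_lit 8700566) [(nat_lit 1100644), (nat_lit 3155749), (nat_lit 6269225)]) (PF.cons (PF.leaf (nat_lit 8776513) (nat_lit 1108753) (nat_lit 38465185) (nat_lit 8613519) [(nat_lit 1108753), (nat_lit 3149629), (nat_lit 6222732)]) (PF.cons (PF.leaf (nat_lit 9318782) (nat_lit 1114320) (nat_lit 37532866) (nat_lit 8521598) [(nat_lit 1114320), (nat_lit 3139655), (nat_lit 6171543)]) (PF.cons (PF.leaf (nat_lit 9859212) (nat_lit 1117675) (nat_lit 36618427) (nat_lit 8425568) [(nat_lit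
 1117675), (nat_lit 3126248), (nat_lit 6116258)]) (PF.cons (PF.leaf (nat_lit 10395990) (nat_lit 1119098) (nat_lit 35724274) (nat_lit 8326146) [(nat_lit 1119098), (nat_lit 3109807), (nat_lit 6057447)]) (PF.cons (PF.leaf (nat_lit 10927671) (nat_lit 1118834) (nat_lit 34852132) (nat_lit 8223995) [(nat_lit 1118834), (nat_lit 3090709), (nat_lit 5995651)]) (PF.cons (PF.leaf (nat_lit 11453091) (nat_lit 1117096) (nat_lit 34003189) (nat_lit 8119722) [(nat_lit 1117096), (nat_lit 3069299), (nat_lit 5931366)]) (PF.cons PF.nil (PF.cons PF.nil PF.nil)))))))))))) (PF.cons (PF.cons (PF.leaf (nat_lit 7735055) (nat_lit 3139269) (nat_lit 39601641) (nat_lit 8703297) [(nat_lit 0), (nat_lit 3139269), (nat_lit 6262668)]) (PF.cons (PF.leaf (nat_lit 8257653) (nat_lit 1091926) (nat_lit 38684294) (nat_lit 8621134) [(nat_lit 1091926), (nat_lit 3135878), (nat_lit 6219850)]) (PF.cons (PF.leaf (nat_lit 8785116) (nat_lit 1099925) (nat_lit 37774076) (nat_lit 8533642) [(nat_lit 1099925), (nat_lit 3128501),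 (nat_lit 6172120)]) (PF.cons (PF.leaf (nat_lit 9314293) (nat_lit 1105373) (nat_lit 36875944) (nat_lit 8441603) [(nat_lit 1105373), (nat_lit 3117527), (nat_lit 6120045)]) (PF.cons (PF.leaf (nat_lit 9842756)
 (nat_lit 1108617) (nat_lit 35993534) (nat_lit 8345756) [(nat_lit 1108617), (nat_lit 3103342), (nat_lit 6064183)]) (PF.cons (PF.leaf (nat_lit 10368553) (nat_lit 1109951) (nat_lit 35129501) (nat_lit 8246784) [(nat_lit 1109951), (nat_lit 3086316), (nat_lit 6005068)]) (PF.cons (PF.leaf (nat_lit 10890128) (nat_lit 1109622) (nat_lit 34285750) (nat_lit 8145316) [(nat_lit 1109622), (nat_lit 3066800), (nat_lit 5943205)]) (PF.cons (PF.leaf (nat_lit 11406233) (nat_lit 1107847) (nat_lit 33463604) (nat_lit 8041926) [(nat_lit 1107847), (nat_lit 3045116), (nat_lit 5879059)]) (PF.cons PF.nil (PF.cons PF.nil PF.nil)))))))))) (PF.cons (PF.cons (PF.leaf (nat_lit 8796086) (nat_lit 3106633) (nat_lit 37095239) (nat_lit 8452728) [(nat_lit 0), (nat_lit 3106633), (nat_lit 6120472)]) (PF.cons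 (PF.leaf (nat_lit 9311648) (nat_lit 1095949) (nat_lit 36231730) (nat_lit 8360980) [(nat_lit 1095949), (nat_lit 3094833), (nat_lit 6067826)]) (PF.cons (PF.leaf (nat_lit 9827880) (nat_lit 1099193) (nat_lit 35381436) (nat_lit 8265643) [(nat_lit 1099193), (nat_lit 3080017), (nat_lit 6011646)]) (PF.cons (PF.leaf (nat_lit 10342558) (nat_lit 1100523) (nat_lit 34547382) (nat_lit 8167384) [(nat_lit 1100523), (nat_lit 3062531),
 (nat_lit 5952440)]) (PF.cons (PF.leaf (nat_lit 10853969) (nat_lit 1100199) (nat_lit 33731733) (nat_lit 8066812) [(nat_lit 1100199), (nat_lit 3042700), (nat_lit 5890684)]) (PF.cons (PF.leaf (nat_lit 11360756) (nat_lit 1098442) (nat_lit 32936002) (nat_lit 7964474) [(nat_lit 1098442), (nat_lit 3020829), (nat_lit 5826817)]) (PF.cons PF.nil (PF.cons PF.nil PF.nil)))))))) (PF.cons (PF.cons (PF.leaf (nat_lit 9815339) (nat_lit 3056298) (nat_lit 34781054) (nat_lit 8185228) [(nat_lit 0), (nat_lit 3056298), (nat_lit 5958667)]) (PF.cons (PF.leaf (nat_lit 10318544)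 (nat_lit 1090798) (nat_lit 33977014) (nat_lit 8087950) [(nat_lit 1090798), (nat_lit 3038472), (nat_lit 5899580)]) (PF.cons (PF.leaf (nat_lit 10819629) (nat_lit 1090553) (nat_lit 33189305) (nat_lit 7988484) [(nat_lit 1090553), (nat_lit 3018427), (nat_lit 5838102)]) (PF.cons (PF.leaf (nat_lit 11317012) (nat_lit 1088873) (nat_lit 32419702) (nat_lit 7887367) [(nat_lit 1088873), (nat_lit 2996453), (nat_lit 5774653)]) (PF.cons PF.nil (PF.cons PF.nil PF.nil)))))) (PF.cons (PF.cons (PF.leaf (nat_lit 10787663) (nat_lit 2993990) (nat_lit 32657621) (nat_lit 7910314) [(nat_lit 0), (nat_lit 2993990), (nat_lit 5785461)]) (PF.cons (PF.leaf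
 (nat_lit 11275390) (nat_lit 1079128) (nat_lit 31913980) (nat_lit 7810590) [(nat_lit 1079128), (nat_lit 2971994), (nat_lit 5722569)]) (PF.cons (PF.leaf (nat_lit 11759187) (nat_lit 1076343) (nat_lit 31187926) (nat_lit 7709753) [(nat_lit 1076343), (nat_lit 2948415), (nat_lit 5658184)]) (PF.cons PF.nil PF.nil)))) (PF.cons (PF.cons (PF.leaf (nat_lit 11711293) (nat_lit 2924002) (nat_lit 30716073) (nat_lit 7634864) [(nat_lit 0), (nat_lit 2924002), (nat_lit 5606930)]) (PF.cons PF.nil PF.nil)) (PF.cons PF.nil (PF.cons PF.nil (PF.cons PF.nil PF.nil)))))))))) (PF.cons (PF.cons (PF.cons (PF.leaf (nat_lit 7196022) (nat_lit 6229373) (nat_lit 39743157) (nat_lit 8677534) [(nat_lit 0), (nat_lit 0), (nat_lit 6229373)]) (PF.cons (PF.leaf (nat_lit 7700079) (nat_lit 1064493) (nat_lit 38864449) (nat_lit 8602566) [(nat_lit 1064493), (nat_lit 0), (nat_lit 6192434)]) (PF.cons (PF.leaf (nat_lit 8213685) (nat_lit 1076185) (nat_lit 37984075) (nat_lit 8521686) [(nat_lit 1076185), (nat_lit 0),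 (nat_lit 6150226)]) (PF.cons (PF.leaf (nat_lit 8732726) (nat_lit 1084769) (nat_lit 37108944) (nat_lit 8435697) [(nat_lit 1084769), (nat_lit 0), (nat_lit 6103287)]) (PF.cons (PF.leaf (nat_lit 9254081) (nat_lit 1090717)
 (nat_lit 36244095) (nat_lit 8345355) [(nat_lit 1090717), (nat_lit 0), (nat_lit 6052163)]) (PF.cons (PF.leaf (nat_lit 9775282) (nat_lit 1094406) (nat_lit 35393235) (nat_lit 8251367) [(nat_lit 1094406), (nat_lit 0), (nat_lit 5997392)]) (PF.cons (PF.leaf (nat_lit 10294348) (nat_lit 1096146) (nat_lit 34559089) (nat_lit 8154388) [(nat_lit 1096146), (nat_lit 0), (nat_lit 5939485)]) (PF.cons (PF.leaf (nat_lit 10809703) (nat_lit 1096198) (nat_lit 33743628) (nat_lit 8055020) [(nat_lit 1096198), (nat_lit 0), (nat_lit 5878924)]) (PF.cons (PF.leaf (nat_lit 11320075) (nat_lit 1094785) (nat_lit 32948245) (nat_lit 7953808) [(nat_lit 1094785), (nat_lit 0), (nat_lit 5816157)]) (PF.cons PF.nil PF.nil)))))))))) (PF.cons (PF.cons (PF.leaf (nat_lit 8240119) (nat_lit 3078526)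 (nat_lit 37289489) (nat_lit 8441481) [(nat_lit 0), (nat_lit 3078526), (nat_lit 6099771)]) (PF.cons (PF.leaf (nat_lit 8744084) (nat_lit 1075244) (nat_lit 36450706) (nat_lit 8355734) [(nat_lit 1075244), (nat_lit 3070734), (nat_lit 6052130)]) (PF.cons (PF.leaf (nat_lit 9252079) (nat_lit 1081268) (nat_lit 35619207) (nat_lit 8265820) [(nat_lit 1081268), (nat_lit 3059585), (nat_lit 6000553)]) (PF.cons (PF.leaf (nat_lit 9761242) (nat_lit
 1084998) (nat_lit 34799260) (nat_lit 8172445) [(nat_lit 1084998), (nat_lit 3045440), (nat_lit 5945556)]) (PF.cons (PF.leaf (nat_lit 10269373) (nat_lit 1086766) (nat_lit 33993957) (nat_lit 8076255) [(nat_lit 1086766), (nat_lit 3028644), (nat_lit 5887629)]) (PF.cons (PF.leaf (nat_lit 10774739) (nat_lit 1086848) (nat_lit 33205527) (nat_lit 7977834) [(nat_lit 1086848), (nat_lit 3009524), (nat_lit 5827228)]) (PF.cons (PF.leaf (nat_lit 11275954) (nat_lit 1085472) (nat_lit 32435550) (nat_lit 7877708) [(nat_lit 1085472), (nat_lit 2988381), (nat_lit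 5764778)]) (PF.cons PF.nil PF.nil)))))))) (PF.cons (PF.cons (PF.leaf (nat_lit 9253033) (nat_lit 3036579) (nat_lit 35005060) (nat_lit 8185705) [(nat_lit 0), (nat_lit 3036579), (nat_lit 5948295)]) (PF.cons (PF.leaf (nat_lit 9749593) (nat_lit 1075197) (nat_lit 34216389) (nat_lit 8093264) [(nat_lit 1075197), (nat_lit 3021999), (nat_lit 5893320)]) (PF.cons (PF.leaf (nat_lit 10246483) (nat_lit 1077090) (nat_lit 33439991) (nat_lit 7998116) [(nat_lit 1077090), (nat_lit 3004904), (nat_lit 5835571)]) (PF.cons (PF.leaf (nat_lit 10741675) (nat_lit 1077275) (nat_lit 32678461) (nat_lit 7900841) [(nat_lit 1077275), (nat_lit 2985602), (nat_lit 5775492)])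
 (PF.cons (PF.leaf (nat_lit 11233630) (nat_lit 1075996) (nat_lit 31933635) (nat_lit 7801959) [(nat_lit 1075996), (nat_lit 2964380), (nat_lit 5713490)]) (PF.cons PF.nil PF.nil)))))) (PF.cons (PF.cons (PF.leaf (nat_lit 10226363) (nat_lit 2980916) (nat_lit 32896209) (nat_lit 7919937) [(nat_lit 0), (nat_lit 2980916), (nat_lit 5783305)]) (PF.cons (PF.leaf (nat_lit 10710993) (nat_lit 1067459) (nat_lit 32161612) (nat_lit 7824019) [(nat_lit 1067459), (nat_lit 2961527), (nat_lit 5723713)]) (PF.cons (PF.leaf (nat_lit 11193485) (nat_lit 1066341) (nat_lit 31441800) (nat_lit 7726544) [(nat_lit 1066341), (nat_lit 2940304), (nat_lit 5662290)]) (PF.cons (PF.leaf (nat_lit 11672403) (nat_lit 1063949) (nat_lit 30738299) (nat_lit 7627971) [(nat_lit 1063949), (nat_lit 2917499), (nat_lit 5599398)]) PF.nil)))) (PF.cons (PF.cons (PF.leaf (nat_lit 11156032) (nat_lit 2916153) (nat_lit 30959287) (nat_lit 7651423) [(nat_lit 0), (nat_lit 2916153), (nat_lit 5611163)]) (PF.cons (PF.leaf (nat_lit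 11626078) (nat_lit 1054298) (nat_lit 30279001) (nat_lit 7554439) [(nat_lit 1054298), (nat_lit 2893486), (nat_lit 5549042)]) PF.nil)) (PF.cons PF.nil (PF.cons PF.nil (PF.cons PF.nil PF.nil)))))))) (PF.cons (PF.cons
 (PF.cons (PF.leaf (nat_lit 8708724) (nat_lit 5933087) (nat_lit 35196208) (nat_lit 8180253) [(nat_lit 0), (nat_lit 0), (nat_lit 5933087)]) (PF.cons (PF.leaf (nat_lit 9195197) (nat_lit 1056541) (nat_lit 34428620) (nat_lit 8093198) [(nat_lit 1056541), (nat_lit 0), (nat_lit 5882613)]) (PF.cons (PF.leaf (nat_lit 9685090) (nat_lit 1061024) (nat_lit 33668096) (nat_lit 8002851) [(nat_lit 1061024), (nat_lit 0), (nat_lit 5828953)]) (PF.cons (PF.leaf (nat_lit 10175755) (nat_lit 1063430) (nat_lit 32918351) (nat_lit 7909856) [(nat_lit 1063430), (nat_lit 0), (nat_lit 5772578)]) (PF.cons (PF.leaf (nat_lit 10665200) (nat_lit 1064076) (nat_lit 32182049) (nat_lit 7814779) [(nat_lit 1064076), (nat_lit 0), (nat_lit 5713919)]) (PF.cons (PF.leaf (nat_lit 11151861) (nat_lit 1063221)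 (nat_lit 31461095) (nat_lit 7718125) [(nat_lit 1063221), (nat_lit 0), (nat_lit 5653371)]) (PF.cons PF.nil (PF.cons PF.nil PF.nil)))))))) (PF.cons (PF.cons (PF.leaf (nat_lit 9677877) (nat_lit 2964539) (nat_lit 33111310) (nat_lit 7924626) [(nat_lit 0), (nat_lit 2964539), (nat_lit 5777084)]) (PF.cons (PF.leaf (nat_lit 10156846) (nat_lit 1053467) (nat_lit 32389746) (nat_lit 7832982) [(nat_lit 1053467), (nat_lit 2948068),
 (nat_lit 5721137)]) (PF.cons (PF.leaf (nat_lit 10635916) (nat_lit 1054328) (nat_lit 31679417) (nat_lit 7739285) [(nat_lit 1054328), (nat_lit 2929480), (nat_lit 5662993)]) (PF.cons (PF.leaf (nat_lit 11113225) (nat_lit 1053653) (nat_lit 30982579) (nat_lit 7644047) [(nat_lit 1053653), (nat_lit 2909050), (nat_lit 5603043)]) (PF.cons (PF.leaf (nat_lit 11587374) (nat_lit 1051670) (nat_lit 30300817) (nat_lit 7547715) [(nat_lit 1051670), (nat_lit 2887032), (nat_lit 5541641)]) (PF.cons PF.nil PF.nil)))))) (PF.cons (PF.cons (PF.leaf (nat_lit 10609717) (nat_lit 2905619)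 (nat_lit 31185607) (nat_lit 7663916) [(nat_lit 0), (nat_lit 2905619), (nat_lit 5612012)]) (PF.cons (PF.leaf (nat_lit 11077256) (nat_lit 1043880) (nat_lit 30512932) (nat_lit 7570262) [(nat_lit 1043880), (nat_lit 2885282), (nat_lit 5552793)]) (PF.cons (PF.leaf (nat_lit 11542695) (nat_lit 1042118) (nat_lit 29853572) (nat_lit 7475513) [(nat_lit 1042118), (nat_lit 2863412), (nat_lit 5492166)]) (PF.cons PF.nil PF.nil)))) (PF.cons (PF.cons (PF.leaf (nat_lit 11500928) (nat_lit 2839777) (nat_lit 29414409) (nat_lit 7403683) [(nat_lit 0), (nat_lit 2839777), (nat_lit 5442846)]) (PF.cons PF.nil PF.nil)) (PF.cons PF.nil (PF.cons PF.nil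
 PF.nil)))))) (PF.cons (PF.cons (PF.cons (PF.leaf (nat_lit 10074909) (nat_lit 5609123) (nat_lit 31391318) (nat_lit 7671876) [(nat_lit 0), (nat_lit 0), (nat_lit 5609123)]) (PF.cons (PF.leaf (nat_lit 10537567) (nat_lit 1031284) (nat_lit 30729790) (nat_lit 7582010) [(nat_lit 1031284), (nat_lit 0), (nat_lit 5553145)]) (PF.cons (PF.leaf (nat_lit 11000186) (nat_lit 1031356) (nat_lit 30078455) (nat_lit 7490580) [(nat_lit 1031356), (nat_lit 0), (nat_lit 5495412)]) (PF.cons (PF.leaf (nat_lit 11461033) (nat_lit 1030036) (nat_lit 29439296) (nat_lit 7398041) [(nat_lit 1030036), (nat_lit 0), (nat_lit 5436272)]) PF.nil)))) (PF.cons (PF.cons (PF.leaf (nat_lit 10969106) (nat_lit 2831354) (nat_lit 29628786) (nat_lit 7418329) [(nat_lit 0), (nat_lit 2831354), (nat_lit 5446068)]) (PF.cons (PF.leaf (nat_lit 11420877) (nat_lit 1020399) (nat_lit 29011322) (nat_lit 7327501) [(nat_lit 1020399), (nat_lit 2810514), (nat_lit 5387814)]) PF.nil)) (PF.cons PF.nil (PF.cons PF.nil PF.nil)))) (PF.cons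 (PF.cons (PF.cons (PF.leaf (nat_lit 11307599) (nat_lit 5286208) (nat_lit 28207859) (nat_lit 7183699) [(nat_lit 0), (nat_lit 0), (nat_lit 5286208)]) (PF.cons PF.nil PF.nil)) (PF.cons PF.nil PF.nil)) (PF.cons PF.nil
 (PF.cons PF.nil (PF.cons PF.nil PF.nil))))))))))

def p15_38_1_0 : pfC (piC [(nat_lit 30365544), (nat_lit 20402210), (nat_lit 13167684)] (nat_lit 10936249)) p15_38_1 (nat_lit 3) (nat_lit 0) (nat_lit 1) = true := by decide +kernel
def p15_38_1_1 : pfC (piC [(nat_lit 30365544), (nat_lit 20402210), (nat_lit 13167684)] (nat_lit 10936249)) p15_38_1 (nat_lit 3) (nat_lit 1) (nat_lit 2) = true := by decide +kernel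
def p15_38_1_2 : pfC (piC [(nat_lit 30365544), (nat_lit 20402210), (nat_lit 13167684)] (nat_lit 10936249)) p15_38_1 (nat_lit 3) (nat_lit 2) (nat_lit 3) = true := by decide +kernel
def p15_38_1_3 : pfC (piC [(nat_lit 30365544), (nat_lit 20402210), (nat_lit 13167684)] (nat_lit 10936249)) p15_38_1 (nat_lit 3) (nat_lit 3) (nat_lit 4) = true := by decide +kernel
def p15_38_1_4 : pfC (piC [(nat_lit 30365544), (nat_lit 20402210), (nat_lit 13167684)] (nat_lit 10936249)) p15_38_1 (nat_lit 3) (nat_lit 4) (nat_lit 5) = true := by decide +kernel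
def p15_38_1_5 : pfC (piC [(nat_lit 30365544), (nat_lit 20402210), (nat_lit 13167684)] (nat_lit 10936249)) p15_38_1 (nat_lit 3) (nat_lit 5) (nat_lit 6) = true := by decide +kernel
def p15_38_1_6 : pfC (piC [(nat_lit 30365544), (nat_lit 20402210), (nat_lit 13167684)] (nat_lit 10936249)) p15_38_1 (nat_lit 3) (nat_lit 6) (nat_lit 7) = true := by decide +kernel
def p15_38_1_7 : pfC (piC [(nat_lit 30365544), (nat_lit 20402210), (nat_lit 13167684)] (nat_lit 10936249)) p15_38_1 (nat_lit 3) (nat_lit 7) (nat_lit 8) = true := by decide +kernel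
def p15_38_1_8 : pfC (piC [(nat_lit 30365544), (nat_lit 20402210), (nat_lit 13167684)] (nat_lit 10936249)) p15_38_1 (nat_lit 3) (nat_lit 8) (nat_lit 9) = true := by decide +kernel
def p15_38_1_9 : pfC (piC [(nat_lit 30365544), (nat_lit 20402210), (nat_lit 13167684)] (nat_lit 10936249)) p15_38_1 (nat_lit 3) (nat_lit 9) (nat_lit 10) = true := by decide +kernel
def p15_38_1_10 : pfC (piC [(nat_lit 30365544), (nat_lit 20402210), (nat_lit 13167684)] (nat_lit 10936249)) p15_38_1 (nat_lit 3) (nat_lit 10) (nat_lit 11) = true := by decide +kernel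
def p15_38_1_11 : pfC (piC [(nat_lit 30365544), (nat_lit 20402210), (nat_lit 13167684)] (nat_lit 10936249)) p15_38_1 (nat_lit 3) (nat_lit 11) (nat_lit 12) = true := by decide +kernel
def p15_38_1_12 : pfC (piC [(nat_lit 30365544), (nat_lit 20402210), (nat_lit 13167684)] (nat_lit 10936249)) p15_38_1 (nat_lit 3) (nat_lit 12) (nat_lit 13) = true := by decide +kernel
def p15_38_1_13 : pfC (piC [(nat_lit 30365544), (nat_lit 20402210), (nat_lit 13167684)] (nat_lit 10936249)) p15_38_1 (nat_lit 3) (nat_lit 13) (nat_lit 14) = true := by decide +kernel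
def p15_38_1_14 : pfC (piC [(nat_lit 30365544), (nat_lit 20402210), (nat_lit 13167684)] (nat_lit 10936249)) p15_38_1 (nat_lit 3) (nat_lit 14) (nat_lit 15) = true := by decide +kernel
def p15_38_1_15 : pfC (piC [(nat_lit 30365544), (nat_lit 20402210), (nat_lit 13167684)] (nat_lit 10936249)) p15_38_1 (nat_lit 3) (nat_lit 15) (nat_lit 16) = true := by decide +kernel
def p15_38_1_16 : pfC (piC [(nat_lit 30365544), (nat_lit 20402210), (nat_lit 13167684)] (nat_lit 10936249)) p15_38_1 (nat_lit 3) (nat_lit 16) (nat_lit 17) = true := by decide +kernel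
def p15_38_1_17 : pfC (piC [(nat_lit 30365544), (nat_lit 20402210), (nat_lit 13167684)] (nat_lit 10936249)) p15_38_1 (nat_lit 3) (nat_lit 17) (nat_lit 18) = true := by decide +kernel
def p15_38_1_18 : pfC (piC [(nat_lit 30365544), (nat_lit 20402210), (nat_lit 13167684)] (nat_lit 10936249)) p15_38_1 (nat_lit 3) (nat_lit 18) (nat_lit 19) = true := by decide +kernel
def p15_38_1_19 : pfC (piC [(nat_lit 30365544), (nat_lit 20402210), (nat_lit 13167684)] (nat_lit 10936249)) p15_38_1 (nat_lit 3) (nat_lit 19) (nat_lit 20) = true := by decide +kernel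
def p15_38_1_20 : pfC (piC [(nat_lit 30365544), (nat_lit 20402210), (nat_lit 13167684)] (nat_lit 10936249)) p15_38_1 (nat_lit 3) (nat_lit 20) (nat_lit 21) = true := by decide +kernel
def p15_38_1_21 : pfC (piC [(nat_lit 30365544), (nat_lit 20402210), (nat_lit 13167684)] (nat_lit 10936249)) p15_38_1 (nat_lit 3) (nat_lit 21) (nat_lit 22) = true := by decide +kernel
def p15_38_1_22 : pfC (piC [(nat_lit 30365544), (nat_lit 20402210), (nat_lit 13167684)] (nat_lit 10936249)) p15_38_1 (nat_lit 3) (nat_lit 22) (nat_lit 23) = true := by decide +kernel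
def p15_38_1_23 : pfC (piC [(nat_lit 30365544), (nat_lit 20402210), (nat_lit 13167684)] (nat_lit 10936249)) p15_38_1 (nat_lit 3) (nat_lit 23) (nat_lit 24) = true := by decide +kernel
def p15_38_1_24 : pfC (piC [(nat_lit 30365544), (nat_lit 20402210), (nat_lit 13167684)] (nat_lit 10936249)) p15_38_1 (nat_lit 3) (nat_lit 24) (nat_lit 25) = true := by decide +kernel
def p15_38_1_25 : pfC (piC [(nat_lit 30365544), (nat_lit 20402210), (nat_lit 13167684)] (nat_lit 10936249)) p15_38_1 (nat_lit 3) (nat_lit 25) (nat_lit 26) = true := by decide +kernel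
def p15_38_1_26 : pfC (piC [(nat_lit 30365544), (nat_lit 20402210), (nat_lit 13167684)] (nat_lit 10936249)) p15_38_1 (nat_lit 3) (nat_lit 26) (nat_lit 27) = true := by decide +kernel
def p15_38_1_27 : pfC (piC [(nat_lit 30365544), (nat_lit 20402210), (nat_lit 13167684)] (nat_lit 10936249)) p15_38_1 (nat_lit 3) (nat_lit 27) (nat_lit 28) = true := by decide +kernel
def p15_38_1_28 : pfC (piC [(nat_lit 30365544), (nat_lit 20402210), (nat_lit 13167684)] (nat_lit 10936249)) p15_38_1 (nat_lit 3) (nat_lit 28) (nat_lit 29) = true := by decide +kernel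
def p15_38_1_29 : pfC (piC [(nat_lit 30365544), (nat_lit 20402210), (nat_lit 13167684)] (nat_lit 10936249)) p15_38_1 (nat_lit 3) (nat_lit 29) (nat_lit 30) = true := by decide +kernel
def p15_38_1_30 : pfC (piC [(nat_lit 30365544), (nat_lit 20402210), (nat_lit 13167684)] (nat_lit 10936249)) p15_38_1 (nat_lit 3) (nat_lit 30) (nat_lit 31) = true := by decide +kernel
def p15_38_1_31 : pfC (piC [(nat_lit 30365544), (nat_lit 20402210), (nat_lit 13167684)] (nat_lit 10936249)) p15_38_1 (nat_lit 3) (nat_lit 31) (nat_lit 32) = true := by decide +kernel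
def p15_38_1_32 : pfC (piC [(nat_lit 30365544), (nat_lit 20402210), (nat_lit 13167684)] (nat_lit 10936249)) p15_38_1 (nat_lit 3) (nat_lit 32) (nat_lit 33) = true := by decide +kernel
def p15_38_1_33 : pfC (piC [(nat_lit 30365544), (nat_lit 20402210), (nat_lit 13167684)] (nat_lit 10936249)) p15_38_1 (nat_lit 3) (nat_lit 33) (nat_lit 34) = true := by decide +kernel
def p15_38_1_34 : pfC (piC [(nat_lit 30365544), (nat_lit 20402210), (nat_lit 13167684)] (nat_lit 10936249)) p15_38_1 (nat_lit 3) (nat_lit 34) (nat_lit 35) = true := by decide +kernel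
def p15_38_1_35 : pfC (piC [(nat_lit 30365544), (nat_lit 20402210), (nat_lit 13167684)] (nat_lit 10936249)) p15_38_1 (nat_lit 3) (nat_lit 35) (nat_lit 36) = true := by decide +kernel
def p15_38_1_36 : pfC (piC [(nat_lit 30365544), (nat_lit 20402210), (nat_lit 13167684)] (nat_lit 10936249)) p15_38_1 (nat_lit 3) (nat_lit 36) (nat_lit 37) = true := by decide +kernel
def p15_38_1_37 : pfC (piC [(nat_lit 30365544), (nat_lit 20402210), (nat_lit 13167684)] (nat_lit 10936249)) p15_38_1 (nat_lit 3) (nat_lit 37) (nat_lit 38) = true := by decide +kernel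
def p15_38_1_38 : pfC (piC [(nat_lit 30365544), (nat_lit 20402210), (nat_lit 13167684)] (nat_lit 10936249)) p15_38_1 (nat_lit 3) (nat_lit 38) (nat_lit 39) = true := by decide +kernel
def p15_38_1_39 : pfC (piC [(nat_lit 30365544), (nat_lit 20402210), (nat_lit 13167684)] (nat_lit 10936249)) p15_38_1 (nat_lit 3) (nat_lit 39) (nat_lit 40) = true := by decide +kernel
def p15_38_1_40 : pfC (piC [(nat_lit 30365544), (nat_lit 20402210), (nat_lit 13167684)] (nat_lit 10936249)) p15_38_1 (nat_lit 3) (nat_lit 40) (nat_lit 41) = true := by decide +kernel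
def p15_38_1_41 : pfC (piC [(nat_lit 30365544), (nat_lit 20402210), (nat_lit 13167684)] (nat_lit 10936249)) p15_38_1 (nat_lit 3) (nat_lit 41) (nat_lit 42) = true := by decide +kernel
def p15_38_1_42 : pfC (piC [(nat_lit 30365544), (nat_lit 20402210), (nat_lit 13167684)] (nat_lit 10936249)) p15_38_1 (nat_lit 3) (nat_lit 42) (nat_lit 43) = true := by decide +kernel
def p15_38_1_43 : pfC (piC [(nat_lit 30365544), (nat_lit 20402210), (nat_lit 13167684)] (nat_lit 10936249)) p15_38_1 (nat_lit 3) (nat_lit 43) (nat_lit 44) = true := by decide +kernel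
def p15_38_1_44 : pfC (piC [(nat_lit 30365544), (nat_lit 20402210), (nat_lit 13167684)] (nat_lit 10936249)) p15_38_1 (nat_lit 3) (nat_lit 44) (nat_lit 45) = true := by decide +kernel
def p15_38_1_45 : pfC (piC [(nat_lit 30365544), (nat_lit 20402210), (nat_lit 13167684)] (nat_lit 10936249)) p15_38_1 (nat_lit 3) (nat_lit 45) (nat_lit 46) = true := by decide +kernel
def p15_38_1_46 : pfC (piC [(nat_lit 30365544), (nat_lit 20402210), (nat_lit 13167684)] (nat_lit 10936249)) p15_38_1 (nat_lit 3) (nat_lit 46) (nat_lit 47) = true := by decide +kernel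
def p15_38_1_47 : pfC (piC [(nat_lit 30365544), (nat_lit 20402210), (nat_lit 13167684)] (nat_lit 10936249)) p15_38_1 (nat_lit 3) (nat_lit 47) (nat_lit 48) = true := by decide +kernel
def p15_38_1_48 : pfC (piC [(nat_lit 30365544), (nat_lit 20402210), (nat_lit 13167684)] (nat_lit 10936249)) p15_38_1 (nat_lit 3) (nat_lit 48) (nat_lit 49) = true := by decide +kernel
def p15_38_1_49 : pfC (piC [(nat_lit 30365544), (nat_lit 20402210), (nat_lit 13167684)] (nat_lit 10936249)) p15_38_1 (nat_lit 3) (nat_lit 49) (nat_lit 50) = true := by decide +kernel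
def p15_38_1_50 : pfC (piC [(nat_lit 30365544), (nat_lit 20402210), (nat_lit 13167684)] (nat_lit 10936249)) p15_38_1 (nat_lit 3) (nat_lit 50) (nat_lit 51) = true := by decide +kernel
def p15_38_1_51 : pfC (piC [(nat_lit 30365544), (nat_lit 20402210), (nat_lit 13167684)] (nat_lit 10936249)) p15_38_1 (nat_lit 3) (nat_lit 51) (nat_lit 52) = true := by decide +kernel
def p15_38_1_52 : pfC (piC [(nat_lit 30365544), (nat_lit 20402210), (nat_lit 13167684)] (nat_lit 10936249)) p15_38_1 (nat_lit 3) (nat_lit 52) (nat_lit 53) = true := by decide +kernel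
def p15_38_1_53 : pfC (piC [(nat_lit 30365544), (nat_lit 20402210), (nat_lit 13167684)] (nat_lit 10936249)) p15_38_1 (nat_lit 3) (nat_lit 53) (nat_lit 54) = true := by decide +kernel
def p15_38_1_54 : pfC (piC [(nat_lit 30365544), (nat_lit 20402210), (nat_lit 13167684)] (nat_lit 10936249)) p15_38_1 (nat_lit 3) (nat_lit 54) (nat_lit 55) = true := by decide +kernel
def p15_38_1_55 : pfC (piC [(nat_lit 30365544), (nat_lit 20402210), (nat_lit 13167684)] (nat_lit 10936249)) p15_38_1 (nat_lit 3) (nat_lit 55) (nat_lit 56) = true := by decide +kernel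
def p15_38_1_56 : pfC (piC [(nat_lit 30365544), (nat_lit 20402210), (nat_lit 13167684)] (nat_lit 10936249)) p15_38_1 (nat_lit 3) (nat_lit 56) (nat_lit 57) = true := by decide +kernel
def p15_38_1_57 : pfC (piC [(nat_lit 30365544), (nat_lit 20402210), (nat_lit 13167684)] (nat_lit 10936249)) p15_38_1 (nat_lit 3) (nat_lit 57) (nat_lit 58) = true := by decide +kernel
def p15_38_1_58 : pfC (piC [(nat_lit 30365544), (nat_lit 20402210), (nat_lit 13167684)] (nat_lit 10936249)) p15_38_1 (nat_lit 3) (nat_lit 58) (nat_lit 59) = true := by decide +kernel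
def p15_38_1_59 : pfC (piC [(nat_lit 30365544), (nat_lit 20402210), (nat_lit 13167684)] (nat_lit 10936249)) p15_38_1 (nat_lit 3) (nat_lit 59) (nat_lit 60) = true := by decide +kernel
def p15_38_1_60 : pfC (piC [(nat_lit 30365544), (nat_lit 20402210), (nat_lit 13167684)] (nat_lit 10936249)) p15_38_1 (nat_lit 3) (nat_lit 60) (nat_lit 61) = true := by decide +kernel
def p15_38_1_61 : pfC (piC [(nat_lit 30365544), (nat_lit 20402210), (nat_lit 13167684)] (nat_lit 10936249)) p15_38_1 (nat_lit 3) (nat_lit 61) (nat_lit 62) = true := by decide +kernel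
def p15_38_1_62 : pfC (piC [(nat_lit 30365544), (nat_lit 20402210), (nat_lit 13167684)] (nat_lit 10936249)) p15_38_1 (nat_lit 3) (nat_lit 62) (nat_lit 63) = true := by decide +kernel
def p15_38_1_63 : pfC (piC [(nat_lit 30365544), (nat_lit 20402210), (nat_lit 13167684)] (nat_lit 10936249)) p15_38_1 (nat_lit 3) (nat_lit 63) (nat_lit 64) = true := by decide +kernel
def p15_38_1_64 : pfC (piC [(nat_lit 30365544), (nat_lit 20402210), (nat_lit 13167684)] (nat_lit 10936249)) p15_38_1 (nat_lit 3) (nat_lit 64) (nat_lit 65) = true := by decide +kernel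
def p15_38_1_65 : pfC (piC [(nat_lit 30365544), (nat_lit 20402210), (nat_lit 13167684)] (nat_lit 10936249)) p15_38_1 (nat_lit 3) (nat_lit 65) (nat_lit 66) = true := by decide +kernel
def p15_38_1_66 : pfC (piC [(nat_lit 30365544), (nat_lit 20402210), (nat_lit 13167684)] (nat_lit 10936249)) p15_38_1 (nat_lit 3) (nat_lit 66) (nat_lit 67) = true := by decide +kernel
def p15_38_1_67 : pfC (piC [(nat_lit 30365544), (nat_lit 20402210), (nat_lit 13167684)] (nat_lit 10936249)) p15_38_1 (nat_lit 3) (nat_lit 67) (nat_lit 68) = true := by decide +kernel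
def p15_38_1_68 : pfC (piC [(nat_lit 30365544), (nat_lit 20402210), (nat_lit 13167684)] (nat_lit 10936249)) p15_38_1 (nat_lit 3) (nat_lit 68) (nat_lit 69) = true := by decide +kernel
def p15_38_1_69 : pfC (piC [(nat_lit 30365544), (nat_lit 20402210), (nat_lit 13167684)] (nat_lit 10936249)) p15_38_1 (nat_lit 3) (nat_lit 69) (nat_lit 70) = true := by decide +kernel
def p15_38_1_70 : pfC (piC [(nat_lit 30365544), (nat_lit 20402210), (nat_lit 13167684)] (nat_lit 10936249)) p15_38_1 (nat_lit 3) (nat_lit 70) (nat_lit 71) = true := by decide +kernel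
def p15_38_1_71 : pfC (piC [(nat_lit 30365544), (nat_lit 20402210), (nat_lit 13167684)] (nat_lit 10936249)) p15_38_1 (nat_lit 3) (nat_lit 71) (nat_lit 72) = true := by decide +kernel
def p15_38_1_72 : pfC (piC [(nat_lit 30365544), (nat_lit 20402210), (nat_lit 13167684)] (nat_lit 10936249)) p15_38_1 (nat_lit 3) (nat_lit 72) (nat_lit 73) = true := by decide +kernel
def p15_38_1_73 : pfC (piC [(nat_lit 30365544), (nat_lit 20402210), (nat_lit 13167684)] (nat_lit 10936249)) p15_38_1 (nat_lit 3) (nat_lit 73) (nat_lit 74) = true := by decide +kernel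
def p15_38_1_74 : pfC (piC [(nat_lit 30365544), (nat_lit 20402210), (nat_lit 13167684)] (nat_lit 10936249)) p15_38_1 (nat_lit 3) (nat_lit 74) (nat_lit 75) = true := by decide +kernel
def p15_38_1_75 : pfC (piC [(nat_lit 30365544), (nat_lit 20402210), (nat_lit 13167684)] (nat_lit 10936249)) p15_38_1 (nat_lit 3) (nat_lit 75) (nat_lit 76) = true := by decide +kernel
def p15_38_1_76 : pfC (piC [(nat_lit 30365544), (nat_lit 20402210), (nat_lit 13167684)] (nat_lit 10936249)) p15_38_1 (nat_lit 3) (nat_lit 76) (nat_lit 77) = true := by decide +kernel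
def p15_38_1_77 : pfC (piC [(nat_lit 30365544), (nat_lit 20402210), (nat_lit 13167684)] (nat_lit 10936249)) p15_38_1 (nat_lit 3) (nat_lit 77) (nat_lit 78) = true := by decide +kernel
def p15_38_1_78 : pfC (piC [(nat_lit 30365544), (nat_lit 20402210), (nat_lit 13167684)] (nat_lit 10936249)) p15_38_1 (nat_lit 3) (nat_lit 78) (nat_lit 79) = true := by decide +kernel
def p15_38_1_79 : pfC (piC [(nat_lit 30365544), (nat_lit 20402210), (nat_lit 13167684)] (nat_lit 10936249)) p15_38_1 (nat_lit 3) (nat_lit 79) (nat_lit 80) = true := by decide +kernel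
def p15_38_1_80 : pfC (piC [(nat_lit 30365544), (nat_lit 20402210), (nat_lit 13167684)] (nat_lit 10936249)) p15_38_1 (nat_lit 3) (nat_lit 80) (nat_lit 81) = true := by decide +kernel
def p15_38_1_81 : pfC (piC [(nat_lit 30365544), (nat_lit 20402210), (nat_lit 13167684)] (nat_lit 10936249)) p15_38_1 (nat_lit 3) (nat_lit 81) (nat_lit 82) = true := by decide +kernel
def p15_38_1_82 : pfC (piC [(nat_lit 30365544), (nat_lit 20402210), (nat_lit 13167684)] (nat_lit 10936249)) p15_38_1 (nat_lit 3) (nat_lit 82) (nat_lit 83) = true := by decide +kernel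
def p15_38_1_83 : pfC (piC [(nat_lit 30365544), (nat_lit 20402210), (nat_lit 13167684)] (nat_lit 10936249)) p15_38_1 (nat_lit 3) (nat_lit 83) (nat_lit 84) = true := by decide +kernel
def p15_38_1_84 : pfC (piC [(nat_lit 30365544), (nat_lit 20402210), (nat_lit 13167684)] (nat_lit 10936249)) p15_38_1 (nat_lit 3) (nat_lit 84) (nat_lit 85) = true := by decide +kernel
def p15_38_1_85 : pfC (piC [(nat_lit 30365544), (nat_lit 20402210), (nat_lit 13167684)] (nat_lit 10936249)) p15_38_1 (nat_lit 3) (nat_lit 85) (nat_lit 86) = true := by decide +kernel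
def p15_38_1_86 : pfC (piC [(nat_lit 30365544), (nat_lit 20402210), (nat_lit 13167684)] (nat_lit 10936249)) p15_38_1 (nat_lit 3) (nat_lit 86) (nat_lit 87) = true := by decide +kernel
def p15_38_1_87 : pfC (piC [(nat_lit 30365544), (nat_lit 20402210), (nat_lit 13167684)] (nat_lit 10936249)) p15_38_1 (nat_lit 3) (nat_lit 87) (nat_lit 88) = true := by decide +kernel
def p15_38_1_88 : pfC (piC [(nat_lit 30365544), (nat_lit 20402210), (nat_lit 13167684)] (nat_lit 10936249)) p15_38_1 (nat_lit 3) (nat_lit 88) (nat_lit 89) = true := by decide +kernel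
def p15_38_1_89 : pfC (piC [(nat_lit 30365544), (nat_lit 20402210), (nat_lit 13167684)] (nat_lit 10936249)) p15_38_1 (nat_lit 3) (nat_lit 89) (nat_lit 90) = true := by decide +kernel
def p15_38_1_90 : pfC (piC [(nat_lit 30365544), (nat_lit 20402210), (nat_lit 13167684)] (nat_lit 10936249)) p15_38_1 (nat_lit 3) (nat_lit 90) (nat_lit 91) = true := by decide +kernel
def p15_38_1_91 : pfC (piC [(nat_lit 30365544), (nat_lit 20402210), (nat_lit 13167684)] (nat_lit 10936249)) p15_38_1 (nat_lit 3) (nat_lit 91) (nat_lit 92) = true := by decide +kernel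
def p15_38_1_92 : pfC (piC [(nat_lit 30365544), (nat_lit 20402210), (nat_lit 13167684)] (nat_lit 10936249)) p15_38_1 (nat_lit 3) (nat_lit 92) (nat_lit 93) = true := by decide +kernel
def p15_38_1_93 : pfC (piC [(nat_lit 30365544), (nat_lit 20402210), (nat_lit 13167684)] (nat_lit 10936249)) p15_38_1 (nat_lit 3) (nat_lit 93) (nat_lit 94) = true := by decide +kernel
def p15_38_1_94 : pfC (piC [(nat_lit 30365544), (nat_lit 20402210), (nat_lit 13167684)] (nat_lit 10936249)) p15_38_1 (nat_lit 3) (nat_lit 94) (nat_lit 95) = true := by decide +kernel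
def p15_38_1_95 : pfC (piC [(nat_lit 30365544), (nat_lit 20402210), (nat_lit 13167684)] (nat_lit 10936249)) p15_38_1 (nat_lit 3) (nat_lit 95) (nat_lit 96) = true := by decide +kernel
def p15_38_1_96 : pfC (piC [(nat_lit 30365544), (nat_lit 20402210), (nat_lit 13167684)] (nat_lit 10936249)) p15_38_1 (nat_lit 3) (nat_lit 96) (nat_lit 97) = true := by decide +kernel
def p15_38_1_97 : pfC (piC [(nat_lit 30365544), (nat_lit 20402210), (nat_lit 13167684)] (nat_lit 10936249)) p15_38_1 (nat_lit 3) (nat_lit 97) (nat_lit 98) = true := by decide +kernel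
def p15_38_1_98 : pfC (piC [(nat_lit 30365544), (nat_lit 20402210), (nat_lit 13167684)] (nat_lit 10936249)) p15_38_1 (nat_lit 3) (nat_lit 98) (nat_lit 99) = true := by decide +kernel
def p15_38_1_99 : pfC (piC [(nat_lit 30365544), (nat_lit 20402210), (nat_lit 13167684)] (nat_lit 10936249)) p15_38_1 (nat_lit 3) (nat_lit 99) (nat_lit 100) = true := by decide +kernel
def p15_38_1_100 : pfC (piC [(nat_lit 30365544), (nat_lit 20402210), (nat_lit 13167684)] (nat_lit 10936249)) p15_38_1 (nat_lit 3) (nat_lit 100) (nat_lit 101) = true := by decide +kernel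
def p15_38_1_101 : pfC (piC [(nat_lit 30365544), (nat_lit 20402210), (nat_lit 13167684)] (nat_lit 10936249)) p15_38_1 (nat_lit 3) (nat_lit 101) (nat_lit 102) = true := by decide +kernel
def p15_38_1_102 : pfC (piC [(nat_lit 30365544), (nat_lit 20402210), (nat_lit 13167684)] (nat_lit 10936249)) p15_38_1 (nat_lit 3) (nat_lit 102) (nat_lit 103) = true := by decide +kernel
def p15_38_1_103 : pfC (piC [(nat_lit 30365544), (nat_lit 20402210), (nat_lit 13167684)] (nat_lit 10936249)) p15_38_1 (nat_lit 3) (nat_lit 103) (nat_lit 104) = true := by decide +kernel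
def p15_38_1_104 : pfC (piC [(nat_lit 30365544), (nat_lit 20402210), (nat_lit 13167684)] (nat_lit 10936249)) p15_38_1 (nat_lit 3) (nat_lit 104) (nat_lit 105) = true := by decide +kernel
def p15_38_1_105 : pfC (piC [(nat_lit 30365544), (nat_lit 20402210), (nat_lit 13167684)] (nat_lit 10936249)) p15_38_1 (nat_lit 3) (nat_lit 105) (nat_lit 106) = true := by decide +kernel
def p15_38_1_106 : pfC (piC [(nat_lit 30365544), (nat_lit 20402210), (nat_lit 13167684)] (nat_lit 10936249)) p15_38_1 (nat_lit 3) (nat_lit 106) (nat_lit 107) = true := by decide +kernel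
def p15_38_1_107 : pfC (piC [(nat_lit 30365544), (nat_lit 20402210), (nat_lit 13167684)] (nat_lit 10936249)) p15_38_1 (nat_lit 3) (nat_lit 107) (nat_lit 108) = true := by decide +kernel
def p15_38_1_108 : pfC (piC [(nat_lit 30365544), (nat_lit 20402210), (nat_lit 13167684)] (nat_lit 10936249)) p15_38_1 (nat_lit 3) (nat_lit 108) (nat_lit 109) = true := by decide +kernel
def p15_38_1_109 : pfC (piC [(nat_lit 30365544), (nat_lit 20402210), (nat_lit 13167684)] (nat_lit 10936249)) p15_38_1 (nat_lit 3) (nat_lit 109) (nat_lit 110) = true := by decide +kernel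
def p15_38_1_110 : pfC (piC [(nat_lit 30365544), (nat_lit 20402210), (nat_lit 13167684)] (nat_lit 10936249)) p15_38_1 (nat_lit 3) (nat_lit 110) (nat_lit 111) = true := by decide +kernel
def p15_38_1_111 : pfC (piC [(nat_lit 30365544), (nat_lit 20402210), (nat_lit 13167684)] (nat_lit 10936249)) p15_38_1 (nat_lit 3) (nat_lit 111) (nat_lit 112) = true := by decide +kernel
def p15_38_1_112 : pfC (piC [(nat_lit 30365544), (nat_lit 20402210), (nat_lit 13167684)] (nat_lit 10936249)) p15_38_1 (nat_lit 3) (nat_lit 112) (nat_lit 113) = true := by decide +kernel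
def p15_38_1_113 : pfC (piC [(nat_lit 30365544), (nat_lit 20402210), (nat_lit 13167684)] (nat_lit 10936249)) p15_38_1 (nat_lit 3) (nat_lit 113) (nat_lit 114) = true := by decide +kernel
def p15_38_1_114 : pfC (piC [(nat_lit 30365544), (nat_lit 20402210), (nat_lit 13167684)] (nat_lit 10936249)) p15_38_1 (nat_lit 3) (nat_lit 114) (nat_lit 115) = true := by decide +kernel
def p15_38_1_115 : pfC (piC [(nat_lit 30365544), (nat_lit 20402210), (nat_lit 13167684)] (nat_lit 10936249)) p15_38_1 (nat_lit 3) (nat_lit 115) (nat_lit 116) = true := by decide +kernel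
def p15_38_1_116 : pfC (piC [(nat_lit 30365544), (nat_lit 20402210), (nat_lit 13167684)] (nat_lit 10936249)) p15_38_1 (nat_lit 3) (nat_lit 116) (nat_lit 117) = true := by decide +kernel
def p15_38_1_117 : pfC (piC [(nat_lit 30365544), (nat_lit 20402210), (nat_lit 13167684)] (nat_lit 10936249)) p15_38_1 (nat_lit 3) (nat_lit 117) (nat_lit 118) = true := by decide +kernel
def p15_38_1_118 : pfC (piC [(nat_lit 30365544), (nat_lit 20402210), (nat_lit 13167684)] (nat_lit 10936249)) p15_38_1 (nat_lit 3) (nat_lit 118) (nat_lit 119) = true := by decide +kernel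
def p15_38_1_119 : pfC (piC [(nat_lit 30365544), (nat_lit 20402210), (nat_lit 13167684)] (nat_lit 10936249)) p15_38_1 (nat_lit 3) (nat_lit 119) (nat_lit 120) = true := by decide +kernel
def p15_38_1_120 : pfC (piC [(nat_lit 30365544), (nat_lit 20402210), (nat_lit 13167684)] (nat_lit 10936249)) p15_38_1 (nat_lit 3) (nat_lit 120) (nat_lit 121) = true := by decide +kernel
def p15_38_1_121 : pfC (piC [(nat_lit 30365544), (nat_lit 20402210), (nat_lit 13167684)] (nat_lit 10936249)) p15_38_1 (nat_lit 3) (nat_lit 121) (nat_lit 122) = true := by decide +kernel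
def p15_38_1_122 : pfC (piC [(nat_lit 30365544), (nat_lit 20402210), (nat_lit 13167684)] (nat_lit 10936249)) p15_38_1 (nat_lit 3) (nat_lit 122) (nat_lit 123) = true := by decide +kernel
def p15_38_1_123 : pfC (piC [(nat_lit 30365544), (nat_lit 20402210), (nat_lit 13167684)] (nat_lit 10936249)) p15_38_1 (nat_lit 3) (nat_lit 123) (nat_lit 124) = true := by decide +kernel
def p15_38_1_124 : pfC (piC [(nat_lit 30365544), (nat_lit 20402210), (nat_lit 13167684)] (nat_lit 10936249)) p15_38_1 (nat_lit 3) (nat_lit 124) (nat_lit 125) = true := by decide +kernel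
def p15_38_1_125 : pfC (piC [(nat_lit 30365544), (nat_lit 20402210), (nat_lit 13167684)] (nat_lit 10936249)) p15_38_1 (nat_lit 3) (nat_lit 125) (nat_lit 126) = true := by decide +kernel
def p15_38_1_126 : pfC (piC [(nat_lit 30365544), (nat_lit 20402210), (nat_lit 13167684)] (nat_lit 10936249)) p15_38_1 (nat_lit 3) (nat_lit 126) (nat_lit 127) = true := by decide +kernel
def p15_38_1_127 : pfC (piC [(nat_lit 30365544), (nat_lit 20402210), (nat_lit 13167684)] (nat_lit 10936249)) p15_38_1 (nat_lit 3) (nat_lit 127) (nat_lit 128) = true := by decide +kernel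
def p15_38_1_128 : pfC (piC [(nat_lit 30365544), (nat_lit 20402210), (nat_lit 13167684)] (nat_lit 10936249)) p15_38_1 (nat_lit 3) (nat_lit 128) (nat_lit 129) = true := by decide +kernel
def p15_38_1_129 : pfC (piC [(nat_lit 30365544), (nat_lit 20402210), (nat_lit 13167684)] (nat_lit 10936249)) p15_38_1 (nat_lit 3) (nat_lit 129) (nat_lit 130) = true := by decide +kernel
def p15_38_1_130 : pfC (piC [(nat_lit 30365544), (nat_lit 20402210), (nat_lit 13167684)] (nat_lit 10936249)) p15_38_1 (nat_lit 3) (nat_lit 130) (nat_lit 131) = true := by decide +kernel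
def p15_38_1_131 : pfC (piC [(nat_lit 30365544), (nat_lit 20402210), (nat_lit 13167684)] (nat_lit 10936249)) p15_38_1 (nat_lit 3) (nat_lit 131) (nat_lit 132) = true := by decide +kernel
def p15_38_1_132 : pfC (piC [(nat_lit 30365544), (nat_lit 20402210), (nat_lit 13167684)] (nat_lit 10936249)) p15_38_1 (nat_lit 3) (nat_lit 132) (nat_lit 133) = true := by decide +kernel
def p15_38_1_133 : pfC (piC [(nat_lit 30365544), (nat_lit 20402210), (nat_lit 13167684)] (nat_lit 10936249)) p15_38_1 (nat_lit 3) (nat_lit 133) (nat_lit 134) = true := by decide +kernel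
def p15_38_1_134 : pfC (piC [(nat_lit 30365544), (nat_lit 20402210), (nat_lit 13167684)] (nat_lit 10936249)) p15_38_1 (nat_lit 3) (nat_lit 134) (nat_lit 135) = true := by decide +kernel
def p15_38_1_135 : pfC (piC [(nat_lit 30365544), (nat_lit 20402210), (nat_lit 13167684)] (nat_lit 10936249)) p15_38_1 (nat_lit 3) (nat_lit 135) (nat_lit 136) = true := by decide +kernel
def p15_38_1_136 : pfC (piC [(nat_lit 30365544), (nat_lit 20402210), (nat_lit 13167684)] (nat_lit 10936249)) p15_38_1 (nat_lit 3) (nat_lit 136) (nat_lit 137) = true := by decide +kernel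
def p15_38_1_137 : pfC (piC [(nat_lit 30365544), (nat_lit 20402210), (nat_lit 13167684)] (nat_lit 10936249)) p15_38_1 (nat_lit 3) (nat_lit 137) (nat_lit 138) = true := by decide +kernel
def p15_38_1_138 : pfC (piC [(nat_lit 30365544), (nat_lit 20402210), (nat_lit 13167684)] (nat_lit 10936249)) p15_38_1 (nat_lit 3) (nat_lit 138) (nat_lit 139) = true := by decide +kernel
def p15_38_1_139 : pfC (piC [(nat_lit 30365544), (nat_lit 20402210), (nat_lit 13167684)] (nat_lit 10936249)) p15_38_1 (nat_lit 3) (nat_lit 139) (nat_lit 140) = true := by decide +kernel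
def p15_38_1_140 : pfC (piC [(nat_lit 30365544), (nat_lit 20402210), (nat_lit 13167684)] (nat_lit 10936249)) p15_38_1 (nat_lit 3) (nat_lit 140) (nat_lit 141) = true := by decide +kernel
def p15_38_1_141 : pfC (piC [(nat_lit 30365544), (nat_lit 20402210), (nat_lit 13167684)] (nat_lit 10936249)) p15_38_1 (nat_lit 3) (nat_lit 141) (nat_lit 142) = true := by decide +kernel
def p15_38_1_142 : pfC (piC [(nat_lit 30365544), (nat_lit 20402210), (nat_lit 13167684)] (nat_lit 10936249)) p15_38_1 (nat_lit 3) (nat_lit 142) (nat_lit 143) = true := by decide +kernel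
def p15_38_1_143 : pfC (piC [(nat_lit 30365544), (nat_lit 20402210), (nat_lit 13167684)] (nat_lit 10936249)) p15_38_1 (nat_lit 3) (nat_lit 143) (nat_lit 144) = true := by decide +kernel
def p15_38_1_144 : pfC (piC [(nat_lit 30365544), (nat_lit 20402210), (nat_lit 13167684)] (nat_lit 10936249)) p15_38_1 (nat_lit 3) (nat_lit 144) (nat_lit 145) = true := by decide +kernel
def p15_38_1_145 : pfC (piC [(nat_lit 30365544), (nat_lit 20402210), (nat_lit 13167684)] (nat_lit 10936249)) p15_38_1 (nat_lit 3) (nat_lit 145) (nat_lit 146) = true := by decide +kernel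
def p15_38_1_146 : pfC (piC [(nat_lit 30365544), (nat_lit 20402210), (nat_lit 13167684)] (nat_lit 10936249)) p15_38_1 (nat_lit 3) (nat_lit 146) (nat_lit 147) = true := by decide +kernel
def p15_38_1_147 : pfC (piC [(nat_lit 30365544), (nat_lit 20402210), (nat_lit 13167684)] (nat_lit 10936249)) p15_38_1 (nat_lit 3) (nat_lit 147) (nat_lit 148) = true := by decide +kernel
def p15_38_1_148 : pfC (piC [(nat_lit 30365544), (nat_lit 20402210), (nat_lit 13167684)] (nat_lit 10936249)) p15_38_1 (nat_lit 3) (nat_lit 148) (nat_lit 149) = true := by decide +kernel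
def p15_38_1_149 : pfC (piC [(nat_lit 30365544), (nat_lit 20402210), (nat_lit 13167684)] (nat_lit 10936249)) p15_38_1 (nat_lit 3) (nat_lit 149) (nat_lit 150) = true := by decide +kernel
def p15_38_1_150 : pfC (piC [(nat_lit 30365544), (nat_lit 20402210), (nat_lit 13167684)] (nat_lit 10936249)) p15_38_1 (nat_lit 3) (nat_lit 150) (nat_lit 151) = true := by decide +kernel
def p15_38_1_151 : pfC (piC [(nat_lit 30365544), (nat_lit 20402210), (nat_lit 13167684)] (nat_lit 10936249)) p15_38_1 (nat_lit 3) (nat_lit 151) (nat_lit 152) = true := by decide +kernel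
def p15_38_1_152 : pfC (piC [(nat_lit 30365544), (nat_lit 20402210), (nat_lit 13167684)] (nat_lit 10936249)) p15_38_1 (nat_lit 3) (nat_lit 152) (nat_lit 153) = true := by decide +kernel
def p15_38_1_153 : pfC (piC [(nat_lit 30365544), (nat_lit 20402210), (nat_lit 13167684)] (nat_lit 10936249)) p15_38_1 (nat_lit 3) (nat_lit 153) (nat_lit 154) = true := by decide +kernel
def p15_38_1_154 : pfC (piC [(nat_lit 30365544), (nat_lit 20402210), (nat_lit 13167684)] (nat_lit 10936249)) p15_38_1 (nat_lit 3) (nat_lit 154) (nat_lit 155) = true := by decide +kernel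
def p15_38_1_155 : pfC (piC [(nat_lit 30365544), (nat_lit 20402210), (nat_lit 13167684)] (nat_lit 10936249)) p15_38_1 (nat_lit 3) (nat_lit 155) (nat_lit 156) = true := by decide +kernel
def p15_38_1_156 : pfC (piC [(nat_lit 30365544), (nat_lit 20402210), (nat_lit 13167684)] (nat_lit 10936249)) p15_38_1 (nat_lit 3) (nat_lit 156) (nat_lit 157) = true := by decide +kernel
def p15_38_1_157 : pfC (piC [(nat_lit 30365544), (nat_lit 20402210), (nat_lit 13167684)] (nat_lit 10936249)) p15_38_1 (nat_lit 3) (nat_lit 157) (nat_lit 158) = true := by decide +kernel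
def p15_38_1_158 : pfC (piC [(nat_lit 30365544), (nat_lit 20402210), (nat_lit 13167684)] (nat_lit 10936249)) p15_38_1 (nat_lit 3) (nat_lit 158) (nat_lit 159) = true := by decide +kernel
def p15_38_1_159 : pfC (piC [(nat_lit 30365544), (nat_lit 20402210), (nat_lit 13167684)] (nat_lit 10936249)) p15_38_1 (nat_lit 3) (nat_lit 159) (nat_lit 160) = true := by decide +kernel
def p15_38_1_160 : pfC (piC [(nat_lit 30365544), (nat_lit 20402210), (nat_lit 13167684)] (nat_lit 10936249)) p15_38_1 (nat_lit 3) (nat_lit 160) (nat_lit 161) = true := by decide +kernel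
def p15_38_1_161 : pfC (piC [(nat_lit 30365544), (nat_lit 20402210), (nat_lit 13167684)] (nat_lit 10936249)) p15_38_1 (nat_lit 3) (nat_lit 161) (nat_lit 162) = true := by decide +kernel
def p15_38_1_162 : pfC (piC [(nat_lit 30365544), (nat_lit 20402210), (nat_lit 13167684)] (nat_lit 10936249)) p15_38_1 (nat_lit 3) (nat_lit 162) (nat_lit 163) = true := by decide +kernel
def p15_38_1_163 : pfC (piC [(nat_lit 30365544), (nat_lit 20402210), (nat_lit 13167684)] (nat_lit 10936249)) p15_38_1 (nat_lit 3) (nat_lit 163) (nat_lit 164) = true := by decide +kernel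
def p15_38_1_164 : pfC (piC [(nat_lit 30365544), (nat_lit 20402210), (nat_lit 13167684)] (nat_lit 10936249)) p15_38_1 (nat_lit 3) (nat_lit 164) (nat_lit 165) = true := by decide +kernel
def p15_38_1_165 : pfC (piC [(nat_lit 30365544), (nat_lit 20402210), (nat_lit 13167684)] (nat_lit 10936249)) p15_38_1 (nat_lit 3) (nat_lit 165) (nat_lit 166) = true := by decide +kernel
def p15_38_1_166 : pfC (piC [(nat_lit 30365544), (nat_lit 20402210), (nat_lit 13167684)] (nat_lit 10936249)) p15_38_1 (nat_lit 3) (nat_lit 166) (nat_lit 167) = true := by decide +kernel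
def p15_38_1_167 : pfC (piC [(nat_lit 30365544), (nat_lit 20402210), (nat_lit 13167684)] (nat_lit 10936249)) p15_38_1 (nat_lit 3) (nat_lit 167) (nat_lit 168) = true := by decide +kernel
def p15_38_1_168 : pfC (piC [(nat_lit 30365544), (nat_lit 20402210), (nat_lit 13167684)] (nat_lit 10936249)) p15_38_1 (nat_lit 3) (nat_lit 168) (nat_lit 169) = true := by decide +kernel
def p15_38_1_169 : pfC (piC [(nat_lit 30365544), (nat_lit 20402210), (nat_lit 13167684)] (nat_lit 10936249)) p15_38_1 (nat_lit 3) (nat_lit 169) (nat_lit 170) = true := by decide +kernel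
def p15_38_1_170 : pfC (piC [(nat_lit 30365544), (nat_lit 20402210), (nat_lit 13167684)] (nat_lit 10936249)) p15_38_1 (nat_lit 3) (nat_lit 170) (nat_lit 171) = true := by decide +kernel
def p15_38_1_171 : pfC (piC [(nat_lit 30365544), (nat_lit 20402210), (nat_lit 13167684)] (nat_lit 10936249)) p15_38_1 (nat_lit 3) (nat_lit 171) (nat_lit 172) = true := by decide +kernel
def p15_38_1_172 : pfC (piC [(nat_lit 30365544), (nat_lit 20402210), (nat_lit 13167684)] (nat_lit 10936249)) p15_38_1 (nat_lit 3) (nat_lit 172) (nat_lit 173) = true := by decide +kernel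
def p15_38_1_173 : pfC (piC [(nat_lit 30365544), (nat_lit 20402210), (nat_lit 13167684)] (nat_lit 10936249)) p15_38_1 (nat_lit 3) (nat_lit 173) (nat_lit 174) = true := by decide +kernel
def p15_38_1_174 : pfC (piC [(nat_lit 30365544), (nat_lit 20402210), (nat_lit 13167684)] (nat_lit 10936249)) p15_38_1 (nat_lit 3) (nat_lit 174) (nat_lit 175) = true := by decide +kernel
def p15_38_1_175 : pfC (piC [(nat_lit 30365544), (nat_lit 20402210), (nat_lit 13167684)] (nat_lit 10936249)) p15_38_1 (nat_lit 3) (nat_lit 175) (nat_lit 176) = true := by decide +kernel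
def p15_38_1_176 : pfC (piC [(nat_lit 30365544), (nat_lit 20402210), (nat_lit 13167684)] (nat_lit 10936249)) p15_38_1 (nat_lit 3) (nat_lit 176) (nat_lit 177) = true := by decide +kernel
def p15_38_1_177 : pfC (piC [(nat_lit 30365544), (nat_lit 20402210), (nat_lit 13167684)] (nat_lit 10936249)) p15_38_1 (nat_lit 3) (nat_lit 177) (nat_lit 178) = true := by decide +kernel
def p15_38_1_178 : pfC (piC [(nat_lit 30365544), (nat_lit 20402210), (nat_lit 13167684)] (nat_lit 10936249)) p15_38_1 (nat_lit 3) (nat_lit 178) (nat_lit 179) = true := by decide +kernel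
def p15_38_1_179 : pfC (piC [(nat_lit 30365544), (nat_lit 20402210), (nat_lit 13167684)] (nat_lit 10936249)) p15_38_1 (nat_lit 3) (nat_lit 179) (nat_lit 180) = true := by decide +kernel
def p15_38_1_180 : pfC (piC [(nat_lit 30365544), (nat_lit 20402210), (nat_lit 13167684)] (nat_lit 10936249)) p15_38_1 (nat_lit 3) (nat_lit 180) (nat_lit 181) = true := by decide +kernel
def p15_38_1_181 : pfC (piC [(nat_lit 30365544), (nat_lit 20402210), (nat_lit 13167684)] (nat_lit 10936249)) p15_38_1 (nat_lit 3) (nat_lit 181) (nat_lit 182) = true := by decide +kernel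
def p15_38_1_182 : pfC (piC [(nat_lit 30365544), (nat_lit 20402210), (nat_lit 13167684)] (nat_lit 10936249)) p15_38_1 (nat_lit 3) (nat_lit 182) (nat_lit 183) = true := by decide +kernel
def p15_38_1_183 : pfC (piC [(nat_lit 30365544), (nat_lit 20402210), (nat_lit 13167684)] (nat_lit 10936249)) p15_38_1 (nat_lit 3) (nat_lit 183) (nat_lit 184) = true := by decide +kernel
def p15_38_1_184 : pfC (piC [(nat_lit 30365544), (nat_lit 20402210), (nat_lit 13167684)] (nat_lit 10936249)) p15_38_1 (nat_lit 3) (nat_lit 184) (nat_lit 185) = true := by decide +kernel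
def p15_38_1_185 : pfC (piC [(nat_lit 30365544), (nat_lit 20402210), (nat_lit 13167684)] (nat_lit 10936249)) p15_38_1 (nat_lit 3) (nat_lit 185) (nat_lit 186) = true := by decide +kernel
def p15_38_1_186 : pfC (piC [(nat_lit 30365544), (nat_lit 20402210), (nat_lit 13167684)] (nat_lit 10936249)) p15_38_1 (nat_lit 3) (nat_lit 186) (nat_lit 187) = true := by decide +kernel
def p15_38_1_187 : pfC (piC [(nat_lit 30365544), (nat_lit 20402210), (nat_lit 13167684)] (nat_lit 10936249)) p15_38_1 (nat_lit 3) (nat_lit 187) (nat_lit 188) = true := by decide +kernel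
def p15_38_1_188 : pfC (piC [(nat_lit 30365544), (nat_lit 20402210), (nat_lit 13167684)] (nat_lit 10936249)) p15_38_1 (nat_lit 3) (nat_lit 188) (nat_lit 189) = true := by decide +kernel
def p15_38_1_189 : pfC (piC [(nat_lit 30365544), (nat_lit 20402210), (nat_lit 13167684)] (nat_lit 10936249)) p15_38_1 (nat_lit 3) (nat_lit 189) (nat_lit 190) = true := by decide +kernel
def p15_38_1_190 : pfC (piC [(nat_lit 30365544), (nat_lit 20402210), (nat_lit 13167684)] (nat_lit 10936249)) p15_38_1 (nat_lit 3) (nat_lit 190) (nat_lit 191) = true := by decide +kernel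
def p15_38_1_191 : pfC (piC [(nat_lit 30365544), (nat_lit 20402210), (nat_lit 13167684)] (nat_lit 10936249)) p15_38_1 (nat_lit 3) (nat_lit 191) (nat_lit 192) = true := by decide +kernel
def p15_38_1_192 : pfC (piC [(nat_lit 30365544), (nat_lit 20402210), (nat_lit 13167684)] (nat_lit 10936249)) p15_38_1 (nat_lit 3) (nat_lit 192) (nat_lit 193) = true := by decide +kernel
def p15_38_1_193 : pfC (piC [(nat_lit 30365544), (nat_lit 20402210), (nat_lit 13167684)] (nat_lit 10936249)) p15_38_1 (nat_lit 3) (nat_lit 193) (nat_lit 194) = true := by decide +kernel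
def p15_38_1_194 : pfC (piC [(nat_lit 30365544), (nat_lit 20402210), (nat_lit 13167684)] (nat_lit 10936249)) p15_38_1 (nat_lit 3) (nat_lit 194) (nat_lit 195) = true := by decide +kernel
def p15_38_1_195 : pfC (piC [(nat_lit 30365544), (nat_lit 20402210), (nat_lit 13167684)] (nat_lit 10936249)) p15_38_1 (nat_lit 3) (nat_lit 195) (nat_lit 196) = true := by decide +kernel
def p15_38_1_196 : pfC (piC [(nat_lit 30365544), (nat_lit 20402210), (nat_lit 13167684)] (nat_lit 10936249)) p15_38_1 (nat_lit 3) (nat_lit 196) (nat_lit 197) = true := by decide +kernel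
def p15_38_1_197 : pfC (piC [(nat_lit 30365544), (nat_lit 20402210), (nat_lit 13167684)] (nat_lit 10936249)) p15_38_1 (nat_lit 3) (nat_lit 197) (nat_lit 198) = true := by decide +kernel
def p15_38_1_198 : pfC (piC [(nat_lit 30365544), (nat_lit 20402210), (nat_lit 13167684)] (nat_lit 10936249)) p15_38_1 (nat_lit 3) (nat_lit 198) (nat_lit 199) = true := by decide +kernel
def p15_38_1_199 : pfC (piC [(nat_lit 30365544), (nat_lit 20402210), (nat_lit 13167684)] (nat_lit 10936249)) p15_38_1 (nat_lit 3) (nat_lit 199) (nat_lit 200) = true := by decide +kernel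
def p15_38_1_200 : pfC (piC [(nat_lit 30365544), (nat_lit 20402210), (nat_lit 13167684)] (nat_lit 10936249)) p15_38_1 (nat_lit 3) (nat_lit 200) (nat_lit 201) = true := by decide +kernel
def p15_38_1_201 : pfC (piC [(nat_lit 30365544), (nat_lit 20402210), (nat_lit 13167684)] (nat_lit 10936249)) p15_38_1 (nat_lit 3) (nat_lit 201) (nat_lit 202) = true := by decide +kernel
def p15_38_1_202 : pfC (piC [(nat_lit 30365544), (nat_lit 20402210), (nat_lit 13167684)] (nat_lit 10936249)) p15_38_1 (nat_lit 3) (nat_lit 202) (nat_lit 203) = true := by decide +kernel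
def p15_38_1_203 : pfC (piC [(nat_lit 30365544), (nat_lit 20402210), (nat_lit 13167684)] (nat_lit 10936249)) p15_38_1 (nat_lit 3) (nat_lit 203) (nat_lit 204) = true := by decide +kernel
def p15_38_1_204 : pfC (piC [(nat_lit 30365544), (nat_lit 20402210), (nat_lit 13167684)] (nat_lit 10936249)) p15_38_1 (nat_lit 3) (nat_lit 204) (nat_lit 205) = true := by decide +kernel
def p15_38_1_205 : pfC (piC [(nat_lit 30365544), (nat_lit 20402210), (nat_lit 13167684)] (nat_lit 10936249)) p15_38_1 (nat_lit 3) (nat_lit 205) (nat_lit 206) = true := by decide +kernel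
def p15_38_1_206 : pfC (piC [(nat_lit 30365544), (nat_lit 20402210), (nat_lit 13167684)] (nat_lit 10936249)) p15_38_1 (nat_lit 3) (nat_lit 206) (nat_lit 207) = true := by decide +kernel
def p15_38_1_207 : pfC (piC [(nat_lit 30365544), (nat_lit 20402210), (nat_lit 13167684)] (nat_lit 10936249)) p15_38_1 (nat_lit 3) (nat_lit 207) (nat_lit 208) = true := by decide +kernel
def p15_38_1_208 : pfC (piC [(nat_lit 30365544), (nat_lit 20402210), (nat_lit 13167684)] (nat_lit 10936249)) p15_38_1 (nat_lit 3) (nat_lit 208) (nat_lit 209) = true := by decide +kernel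
def p15_38_1_209 : pfC (piC [(nat_lit 30365544), (nat_lit 20402210), (nat_lit 13167684)] (nat_lit 10936249)) p15_38_1 (nat_lit 3) (nat_lit 209) (nat_lit 210) = true := by decide +kernel
def p15_38_1_210 : pfC (piC [(nat_lit 30365544), (nat_lit 20402210), (nat_lit 13167684)] (nat_lit 10936249)) p15_38_1 (nat_lit 3) (nat_lit 210) (nat_lit 211) = true := by decide +kernel
def p15_38_1_211 : pfC (piC [(nat_lit 30365544), (nat_lit 20402210), (nat_lit 13167684)] (nat_lit 10936249)) p15_38_1 (nat_lit 3) (nat_lit 211) (nat_lit 212) = true := by decide +kernel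
def p15_38_1_212 : pfC (piC [(nat_lit 30365544), (nat_lit 20402210), (nat_lit 13167684)] (nat_lit 10936249)) p15_38_1 (nat_lit 3) (nat_lit 212) (nat_lit 213) = true := by decide +kernel
def p15_38_1_213 : pfC (piC [(nat_lit 30365544), (nat_lit 20402210), (nat_lit 13167684)] (nat_lit 10936249)) p15_38_1 (nat_lit 3) (nat_lit 213) (nat_lit 214) = true := by decide +kernel
def p15_38_1_214 : pfC (piC [(nat_lit 30365544), (nat_lit 20402210), (nat_lit 13167684)] (nat_lit 10936249)) p15_38_1 (nat_lit 3) (nat_lit 214) (nat_lit 215) = true := by decide +kernel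
def p15_38_1_215 : pfC (piC [(nat_lit 30365544), (nat_lit 20402210), (nat_lit 13167684)] (nat_lit 10936249)) p15_38_1 (nat_lit 3) (nat_lit 215) (nat_lit 216) = true := by decide +kernel
def p15_38_1_216 : pfC (piC [(nat_lit 30365544), (nat_lit 20402210), (nat_lit 13167684)] (nat_lit 10936249)) p15_38_1 (nat_lit 3) (nat_lit 216) (nat_lit 217) = true := by decide +kernel
def p15_38_1_217 : pfC (piC [(nat_lit 30365544), (nat_lit 20402210), (nat_lit 13167684)] (nat_lit 10936249)) p15_38_1 (nat_lit 3) (nat_lit 217) (nat_lit 218) = true := by decide +kernel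
def p15_38_1_218 : pfC (piC [(nat_lit 30365544), (nat_lit 20402210), (nat_lit 13167684)] (nat_lit 10936249)) p15_38_1 (nat_lit 3) (nat_lit 218) (nat_lit 219) = true := by decide +kernel
def p15_38_1_219 : pfC (piC [(nat_lit 30365544), (nat_lit 20402210), (nat_lit 13167684)] (nat_lit 10936249)) p15_38_1 (nat_lit 3) (nat_lit 219) (nat_lit 220) = true := by decide +kernel
def p15_38_1_220 : pfC (piC [(nat_lit 30365544), (nat_lit 20402210), (nat_lit 13167684)] (nat_lit 10936249)) p15_38_1 (nat_lit 3) (nat_lit 220) (nat_lit 221) = true := by decide +kernel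
def p15_38_1_221 : pfC (piC [(nat_lit 30365544), (nat_lit 20402210), (nat_lit 13167684)] (nat_lit 10936249)) p15_38_1 (nat_lit 3) (nat_lit 221) (nat_lit 222) = true := by decide +kernel
def p15_38_1_222 : pfC (piC [(nat_lit 30365544), (nat_lit 20402210), (nat_lit 13167684)] (nat_lit 10936249)) p15_38_1 (nat_lit 3) (nat_lit 222) (nat_lit 223) = true := by decide +kernel
def p15_38_1_223 : pfC (piC [(nat_lit 30365544), (nat_lit 20402210), (nat_lit 13167684)] (nat_lit 10936249)) p15_38_1 (nat_lit 3) (nat_lit 223) (nat_lit 224) = true := by decide +kernel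
def p15_38_1_224 : pfC (piC [(nat_lit 30365544), (nat_lit 20402210), (nat_lit 13167684)] (nat_lit 10936249)) p15_38_1 (nat_lit 3) (nat_lit 224) (nat_lit 225) = true := by decide +kernel
def p15_38_1_225 : pfC (piC [(nat_lit 30365544), (nat_lit 20402210), (nat_lit 13167684)] (nat_lit 10936249)) p15_38_1 (nat_lit 3) (nat_lit 225) (nat_lit 226) = true := by decide +kernel
def p15_38_1_226 : pfC (piC [(nat_lit 30365544), (nat_lit 20402210), (nat_lit 13167684)] (nat_lit 10936249)) p15_38_1 (nat_lit 3) (nat_lit 226) (nat_lit 227) = true := by decide +kernel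
def p15_38_1_227 : pfC (piC [(nat_lit 30365544), (nat_lit 20402210), (nat_lit 13167684)] (nat_lit 10936249)) p15_38_1 (nat_lit 3) (nat_lit 227) (nat_lit 228) = true := by decide +kernel
def p15_38_1_228 : pfC (piC [(nat_lit 30365544), (nat_lit 20402210), (nat_lit 13167684)] (nat_lit 10936249)) p15_38_1 (nat_lit 3) (nat_lit 228) (nat_lit 229) = true := by decide +kernel
def p15_38_1_229 : pfC (piC [(nat_lit 30365544), (nat_lit 20402210), (nat_lit 13167684)] (nat_lit 10936249)) p15_38_1 (nat_lit 3) (nat_lit 229) (nat_lit 230) = true := by decide +kernel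
def p15_38_1_230 : pfC (piC [(nat_lit 30365544), (nat_lit 20402210), (nat_lit 13167684)] (nat_lit 10936249)) p15_38_1 (nat_lit 3) (nat_lit 230) (nat_lit 231) = true := by decide +kernel
def p15_38_1_231 : pfC (piC [(nat_lit 30365544), (nat_lit 20402210), (nat_lit 13167684)] (nat_lit 10936249)) p15_38_1 (nat_lit 3) (nat_lit 231) (nat_lit 232) = true := by decide +kernel
def p15_38_1_232 : pfC (piC [(nat_lit 30365544), (nat_lit 20402210), (nat_lit 13167684)] (nat_lit 10936249)) p15_38_1 (nat_lit 3) (nat_lit 232) (nat_lit 233) = true := by decide +kernel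
def p15_38_1_233 : pfC (piC [(nat_lit 30365544), (nat_lit 20402210), (nat_lit 13167684)] (nat_lit 10936249)) p15_38_1 (nat_lit 3) (nat_lit 233) (nat_lit 234) = true := by decide +kernel
def p15_38_1_234 : pfC (piC [(nat_lit 30365544), (nat_lit 20402210), (nat_lit 13167684)] (nat_lit 10936249)) p15_38_1 (nat_lit 3) (nat_lit 234) (nat_lit 235) = true := by decide +kernel
def p15_38_1_235 : pfC (piC [(nat_lit 30365544), (nat_lit 20402210), (nat_lit 13167684)] (nat_lit 10936249)) p15_38_1 (nat_lit 3) (nat_lit 235) (nat_lit 236) = true := by decide +kernel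
def p15_38_1_236 : pfC (piC [(nat_lit 30365544), (nat_lit 20402210), (nat_lit 13167684)] (nat_lit 10936249)) p15_38_1 (nat_lit 3) (nat_lit 236) (nat_lit 237) = true := by decide +kernel
def p15_38_1_237 : pfC (piC [(nat_lit 30365544), (nat_lit 20402210), (nat_lit 13167684)] (nat_lit 10936249)) p15_38_1 (nat_lit 3) (nat_lit 237) (nat_lit 238) = true := by decide +kernel
def p15_38_1_238 : pfC (piC [(nat_lit 30365544), (nat_lit 20402210), (nat_lit 13167684)] (nat_lit 10936249)) p15_38_1 (nat_lit 3) (nat_lit 238) (nat_lit 239) = true := by decide +kernel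
theorem p15_38_1_T : PfS (PiF n15_38.reverse (nat_lit 10936249)) p15_38_1 (nat_lit 3) [] 0 :=
  pftab_of (los := [(nat_lit 30365544), (nat_lit 20402210), (nat_lit 13167684)]) (by decide +kernel) (hi := (nat_lit 239)) (PfP.trans (PfP.trans (PfP.trans (PfP.trans (PfP.trans (PfP.trans (PfP.trans (PfP.trans (PfP.trans (PfP.trans (PfP.trans (PfP.trans (PfP.trans (PfP.trans (PfP.trans (PfP.trans (PfP.trans (PfP.trans (PfP.trans (PfP.trans (PfP.trans (PfP.trans (PfP.trans (PfP.trans (PfP.trans (PfP.trans (PfP.trans (PfP.trans (PfP.trans (PfP.trans (PfP.trans (PfP.trans (PfP.trans (PfP.trans (PfP.trans (PfP.trans (PfP.trans (PfP.trans (PfP.trans (PfP.trans (PfP.trans (PfP.trans (PfP.trans (PfP.trans (PfP.trans (PfP.trans (PfP.trans (PfP.trans (PfP.trans (PfP.trans (PfP.trans (PfP.trans (PfP.trans (PfP.trans (PfP.trans (PfP.trans (PfP.trans (PfP.trans (PfP.trans (PfP.trans (PfP.trans (PfP.trans (PfP.trans (PfP.trans (PfP.trans (PfP.trans (PfP.trans (PfP.trans (PfP.trans (PfP.trans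 (PfP.trans (PfP.trans (PfP.trans (PfP.trans (PfP.trans (PfP.trans (PfP.trans (PfP.trans (PfP.trans (PfP.trans (PfP.trans (PfP.trans (PfP.trans (PfP.trans (PfP.trans (PfP.trans (PfP.trans (PfP.trans (PfP.trans (PfP.trans (PfP.trans (PfP.trans (PfP.trans (PfP.trans (PfP.trans (PfP.trans (PfP.trans (PfP.trans (PfP.trans (PfP.trans (PfP.trans (PfP.trans (PfP.trans (PfP.trans (PfP.trans (PfP.trans (PfP.trans (PfP.trans (PfP.trans
 (PfP.trans (PfP.trans (PfP.trans (PfP.trans (PfP.trans (PfP.trans (PfP.trans (PfP.trans (PfP.trans (PfP.trans (PfP.trans (PfP.trans (PfP.trans (PfP.trans (PfP.trans (PfP.trans (PfP.trans (PfP.trans (PfP.trans (PfP.trans (PfP.trans (PfP.trans (PfP.trans (PfP.trans (PfP.trans (PfP.trans (PfP.trans (PfP.trans (PfP.trans (PfP.trans (PfP.trans (PfP.trans (PfP.trans (PfP.trans (PfP.trans (PfP.trans (PfP.trans (PfP.trans (PfP.trans (PfP.trans (PfP.trans (PfP.trans (PfP.trans (PfP.trans (PfP.trans (PfP.trans (PfP.trans (PfP.trans (PfP.trans (PfP.trans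 (PfP.trans (PfP.trans (PfP.trans (PfP.trans (PfP.trans (PfP.trans (PfP.trans (PfP.trans (PfP.trans (PfP.trans (PfP.trans (PfP.trans (PfP.trans (PfP.trans (PfP.trans (PfP.trans (PfP.trans (PfP.trans (PfP.trans (PfP.trans (PfP.trans (PfP.trans (PfP.trans (PfP.trans (PfP.trans (PfP.trans (PfP.trans (PfP.trans (PfP.trans (PfP.trans (PfP.trans (PfP.trans (PfP.trans (PfP.trans (PfP.trans (PfP.trans (PfP.trans (PfP.trans (PfP.trans (PfP.trans (PfP.trans (PfP.trans (PfP.trans (PfP.trans (PfP.trans (PfP.trans (PfP.trans (PfP.trans (PfP.trans (PfP.trans (PfP.trans (PfP.trans (PfP.trans (PfP.trans (PfP.trans (PfP.trans (PfP.trans (PfP.trans (PfP.trans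
 (PfP.trans (PfP.trans (PfP.trans (PfP.trans (PfP.trans (PfP.trans (PfP.trans (PfP.trans (PfP.trans (PfP.trans (PfP.trans (PfP.trans (PfP.trans (PfP.trans (PfP.trans (PfP.trans (PfP.trans (PfP.trans (PfP.trans (PfP.trans (pfC_sound p15_38_1_0) (pfC_sound p15_38_1_1)) (pfC_sound p15_38_1_2)) (pfC_sound p15_38_1_3)) (pfC_sound p15_38_1_4)) (pfC_sound p15_38_1_5)) (pfC_sound p15_38_1_6)) (pfC_sound p15_38_1_7)) (pfC_sound p15_38_1_8)) (pfC_sound p15_38_1_9)) (pfC_sound p15_38_1_10)) (pfC_sound p15_38_1_11)) (pfC_sound p15_38_1_12)) (pfC_sound p15_38_1_13)) (pfC_sound p15_38_1_14)) (pfC_sound p15_38_1_15)) (pfC_sound p15_38_1_16)) (pfC_sound p15_38_1_17)) (pfC_sound p15_38_1_18)) (pfC_sound p15_38_1_19)) (pfC_sound p15_38_1_20)) (pfC_sound p15_38_1_21)) (pfC_sound p15_38_1_22)) (pfC_sound p15_38_1_23)) (pfC_sound p15_38_1_24)) (pfC_sound p15_38_1_25)) (pfC_sound p15_38_1_26)) (pfC_sound p15_38_1_27)) (pfC_sound p15_38_1_28)) (pfC_sound p15_38_1_29)) (pfC_sound p15_38_1_30))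 (pfC_sound p15_38_1_31)) (pfC_sound p15_38_1_32)) (pfC_sound p15_38_1_33)) (pfC_sound p15_38_1_34)) (pfC_sound p15_38_1_35)) (pfC_sound p15_38_1_36)) (pfC_sound p15_38_1_37)) (pfC_sound p15_38_1_38)) (pfC_sound
 p15_38_1_39)) (pfC_sound p15_38_1_40)) (pfC_sound p15_38_1_41)) (pfC_sound p15_38_1_42)) (pfC_sound p15_38_1_43)) (pfC_sound p15_38_1_44)) (pfC_sound p15_38_1_45)) (pfC_sound p15_38_1_46)) (pfC_sound p15_38_1_47)) (pfC_sound p15_38_1_48)) (pfC_sound p15_38_1_49)) (pfC_sound p15_38_1_50)) (pfC_sound p15_38_1_51)) (pfC_sound p15_38_1_52)) (pfC_sound p15_38_1_53)) (pfC_sound p15_38_1_54)) (pfC_sound p15_38_1_55)) (pfC_sound p15_38_1_56)) (pfC_sound p15_38_1_57)) (pfC_sound p15_38_1_58)) (pfC_sound p15_38_1_59)) (pfC_sound p15_38_1_60)) (pfC_sound p15_38_1_61)) (pfC_sound p15_38_1_62)) (pfC_sound p15_38_1_63)) (pfC_sound p15_38_1_64)) (pfC_sound p15_38_1_65)) (pfC_sound p15_38_1_66)) (pfC_sound p15_38_1_67)) (pfC_sound p15_38_1_68)) (pfC_sound p15_38_1_69)) (pfC_sound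 p15_38_1_70)) (pfC_sound p15_38_1_71)) (pfC_sound p15_38_1_72)) (pfC_sound p15_38_1_73)) (pfC_sound p15_38_1_74)) (pfC_sound p15_38_1_75)) (pfC_sound p15_38_1_76)) (pfC_sound p15_38_1_77)) (pfC_sound p15_38_1_78)) (pfC_sound p15_38_1_79)) (pfC_sound p15_38_1_80)) (pfC_sound p15_38_1_81)) (pfC_sound p15_38_1_82)) (pfC_sound p15_38_1_83)) (pfC_sound p15_38_1_84)) (pfC_sound p15_38_1_85)) (pfC_sound p15_38_1_86)) (pfC_sound
 p15_38_1_87)) (pfC_sound p15_38_1_88)) (pfC_sound p15_38_1_89)) (pfC_sound p15_38_1_90)) (pfC_sound p15_38_1_91)) (pfC_sound p15_38_1_92)) (pfC_sound p15_38_1_93)) (pfC_sound p15_38_1_94)) (pfC_sound p15_38_1_95)) (pfC_sound p15_38_1_96)) (pfC_sound p15_38_1_97)) (pfC_sound p15_38_1_98)) (pfC_sound p15_38_1_99)) (pfC_sound p15_38_1_100)) (pfC_sound p15_38_1_101)) (pfC_sound p15_38_1_102)) (pfC_sound p15_38_1_103)) (pfC_sound p15_38_1_104)) (pfC_sound p15_38_1_105)) (pfC_sound p15_38_1_106)) (pfC_sound p15_38_1_107)) (pfC_sound p15_38_1_108)) (pfC_sound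 p15_38_1_109)) (pfC_sound p15_38_1_110)) (pfC_sound p15_38_1_111)) (pfC_sound p15_38_1_112)) (pfC_sound p15_38_1_113)) (pfC_sound p15_38_1_114)) (pfC_sound p15_38_1_115)) (pfC_sound p15_38_1_116)) (pfC_sound p15_38_1_117)) (pfC_sound p15_38_1_118)) (pfC_sound p15_38_1_119)) (pfC_sound p15_38_1_120)) (pfC_sound p15_38_1_121)) (pfC_sound p15_38_1_122)) (pfC_sound p15_38_1_123)) (pfC_sound p15_38_1_124)) (pfC_sound p15_38_1_125)) (pfC_sound p15_38_1_126)) (pfC_sound p15_38_1_127)) (pfC_sound p15_38_1_128)) (pfC_sound p15_38_1_129)) (pfC_sound p15_38_1_130)) (pfC_sound p15_38_1_131)) (pfC_sound p15_38_1_132)) (pfC_sound p15_38_1_133))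
 (pfC_sound p15_38_1_134)) (pfC_sound p15_38_1_135)) (pfC_sound p15_38_1_136)) (pfC_sound p15_38_1_137)) (pfC_sound p15_38_1_138)) (pfC_sound p15_38_1_139)) (pfC_sound p15_38_1_140)) (pfC_sound p15_38_1_141)) (pfC_sound p15_38_1_142)) (pfC_sound p15_38_1_143)) (pfC_sound p15_38_1_144)) (pfC_sound p15_38_1_145)) (pfC_sound p15_38_1_146)) (pfC_sound p15_38_1_147)) (pfC_sound p15_38_1_148)) (pfC_sound p15_38_1_149)) (pfC_sound p15_38_1_150)) (pfC_sound p15_38_1_151)) (pfC_sound p15_38_1_152)) (pfC_sound p15_38_1_153)) (pfC_sound p15_38_1_154)) (pfC_sound p15_38_1_155)) (pfC_sound p15_38_1_156)) (pfC_sound p15_38_1_157)) (pfC_sound p15_38_1_158)) (pfC_sound p15_38_1_159)) (pfC_sound p15_38_1_160)) (pfC_sound p15_38_1_161)) (pfC_sound p15_38_1_162)) (pfC_sound p15_38_1_163)) (pfC_sound p15_38_1_164)) (pfC_sound p15_38_1_165)) (pfC_sound p15_38_1_166)) (pfC_sound p15_38_1_167)) (pfC_sound p15_38_1_168)) (pfC_sound p15_38_1_169)) (pfC_sound p15_38_1_170)) (pfC_sound p15_38_1_171))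 (pfC_sound p15_38_1_172)) (pfC_sound p15_38_1_173)) (pfC_sound p15_38_1_174)) (pfC_sound p15_38_1_175)) (pfC_sound p15_38_1_176)) (pfC_sound p15_38_1_177)) (pfC_sound p15_38_1_178)) (pfC_sound p15_38_1_179))
 (pfC_sound p15_38_1_180)) (pfC_sound p15_38_1_181)) (pfC_sound p15_38_1_182)) (pfC_sound p15_38_1_183)) (pfC_sound p15_38_1_184)) (pfC_sound p15_38_1_185)) (pfC_sound p15_38_1_186)) (pfC_sound p15_38_1_187)) (pfC_sound p15_38_1_188)) (pfC_sound p15_38_1_189)) (pfC_sound p15_38_1_190)) (pfC_sound p15_38_1_191)) (pfC_sound p15_38_1_192)) (pfC_sound p15_38_1_193)) (pfC_sound p15_38_1_194)) (pfC_sound p15_38_1_195)) (pfC_sound p15_38_1_196)) (pfC_sound p15_38_1_197)) (pfC_sound p15_38_1_198)) (pfC_sound p15_38_1_199)) (pfC_sound p15_38_1_200)) (pfC_sound p15_38_1_201)) (pfC_sound p15_38_1_202)) (pfC_sound p15_38_1_203)) (pfC_sound p15_38_1_204)) (pfC_sound p15_38_1_205)) (pfC_sound p15_38_1_206)) (pfC_sound p15_38_1_207)) (pfC_sound p15_38_1_208)) (pfC_sound p15_38_1_209))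 (pfC_sound p15_38_1_210)) (pfC_sound p15_38_1_211)) (pfC_sound p15_38_1_212)) (pfC_sound p15_38_1_213)) (pfC_sound p15_38_1_214)) (pfC_sound p15_38_1_215)) (pfC_sound p15_38_1_216)) (pfC_sound p15_38_1_217)) (pfC_sound p15_38_1_218)) (pfC_sound p15_38_1_219)) (pfC_sound p15_38_1_220)) (pfC_sound p15_38_1_221)) (pfC_sound p15_38_1_222)) (pfC_sound p15_38_1_223)) (pfC_sound p15_38_1_224)) (pfC_sound p15_38_1_225))
 (pfC_sound p15_38_1_226)) (pfC_sound p15_38_1_227)) (pfC_sound p15_38_1_228)) (pfC_sound p15_38_1_229)) (pfC_sound p15_38_1_230)) (pfC_sound p15_38_1_231)) (pfC_sound p15_38_1_232)) (pfC_sound p15_38_1_233)) (pfC_sound p15_38_1_234)) (pfC_sound p15_38_1_235)) (pfC_sound p15_38_1_236)) (pfC_sound p15_38_1_237)) (pfC_sound p15_38_1_238)) (by decide +kernel)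

def z15_38_1 : zOK yB15_38 (nat_lit 1) (nat_lit 400) (nat_lit 601) (nat_lit 10936249) (nat_lit 7465481) = true := by decide +kernel
def g15_38_1 : gOK yB15_38.x P15_38 (nat_lit 1347) (q15_38 :: r15_38) (nat_lit 1) (nat_lit 400) (nat_lit 2) (nat_lit 601) (nat_lit 11000000) (nat_lit 17884250) (nat_lit 12712500) (nat_lit 12712500) [(nat_lit 800), (nat_lit 1600)] = true := by decide +kernel
def v15_38_1 : ivC P15_38 s15_38 w15_38 n15_38 (nat_lit 3) (nat_lit 4820) (nat_lit 1) (nat_lit 400) f192_0_400 f200_0_400 (nat_lit 2) (nat_lit 601) f192_0_601 f200_0_601 (nat_lit 10936249) (nat_lit 7465481) p15_38_1 = true := by decide +kernel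
end CB
end Pool.Agent.Lib.MP_6947cd_al
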