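import Pool.Agent.Lib.MP_6947cd_al.L.BoxDataB
import Pool.Agent.Lib.MP_6947cd_al.L.TeD1
import Pool.Agent.Lib.MP_6947cd_al.L.TeD2

/-!
Problem MP_6947cd_al (Chollet).  CASE B, rows `j`: boxes (generated).
-/

set_option autoImplicit false
set_option linter.defProp false
set_option maxRecDepth 20000

namespace Pool.Agent.Lib.MP_6947cd_al
namespace CB

open Ent Ent.Pk Fr Fr.WT CA

/-! box `yB15_39` -/

def P15_39 : BQ := ⟨(nat_lit 8), (nat_lit 2), (nat_lit 6), (nat_lit 0), (nat_lit 8), (nat_lit 990), (nat_lit 1000), (nat_lit 90), [(nat_lit 180), (nat_lit 330), (nat_lit 650)], (nat_lit 156560000), (nat_lit 16000000), (nat_lit 16000000000)⟩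
def q15_39 : PC := ⟨(nat_lit 1000), [(nat_lit 90000), (nat_lit 180000), (nat_lit 330000), (nat_lit 650000)], (nat_lit 18446744078004518913000000), (nat_lit 15843440000000), (nat_lit 15843440000000), (nat_lit 10000000)⟩
def r15_39 : List PC := [⟨(nat_lit 1378), [(nat_lit 90630), (nat_lit 180189), (nat_lit 330951), (nat_lit 648986)], (nat_lit 18537354484918065111711385), (nat_lit 16408079551680), (nat_lit 16414142732160), (nat_lit 10070000)⟩, ⟨(nat_lit 1238), [(nat_lit 90372), (nat_lit 179817), (nat_lit 331400), (nat_lit 642178)], (nat_lit 18502545478842591411650383), (nat_lit 16209635273280), (nat_lit 16213452831360), (nat_lit 10042425)⟩]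
def s15_39 : List PB := [⟨(nat_lit 27560), (nat_lit 1450080000000), [(nat_lit 180189), (nat_lit 330951), (nat_lit 648986)], (nat_lit 18537354484918065111711385), (nat_lit 1142307986394304), (nat_lit 1142314049574784), (nat_lit 60480)⟩, ⟨(nat_lit 24760), (nat_lit 1445952000000), [(nat_lit 179817), (nat_lit 331400), (nat_lit 642178)], (nat_lit 18502545478842591411650383), (nat_lit 1142109542115904), (nat_lit 1142113359673984), (nat_lit 38080)⟩]
def n15_39 : List KN := [⟨(nat_lit 650), (nat_lit 330), (nat_lit 12587812), (nat_lit 10584306)⟩, ⟨(nat_lit 330), (nat_lit 180), (nat_lit 19449108), (nat_lit 12587812)⟩, ⟨(nat_lit 180), (nat_lit 90), (nat_lit 28473124), (nat_lit 19449108)⟩]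
def w15_39 : List ℕ := [(nat_lit 60480), (nat_lit 38080)]
def par15_39 : parC yB15_39 P15_39 s15_39 r15_39 q15_39 n15_39 w15_39 = true := by decide +kernel

def p15_39_0 : PF := (PF.cons (PF.cons (PF.cons (PF.leaf (nat_lit 1482299) (nat_lit 5864733) (nat_lit 61244079) (nat_lit 5864733) [(nat_lit 0), (nat_lit 0), (nat_lit 0)]) (PF.cons (PF.leaf (nat_lit 1936844) (nat_lit 941371) (nat_lit 60152407) (nat_lit 6015034) [(nat_lit 941371), (nat_lit 0), (nat_lit 0)]) (PF.cons (PF.leaf (nat_lit 2471449) (nat_lit 1030571) (nat_lit 58888712) (nat_lit 6158958) [(nat_lit 1030571), (nat_lit 0), (nat_lit 0)]) (PF.cons (PF.leaf (nat_lit 3068744) (nat_lit 1107807) (nat_lit 57498598) (nat_lit 6286793) [(nat_lit 1107807), (nat_lit 0), (nat_lit 0)]) (PF.cons (PF.leaf (nat_lit 3714632) (nat_lit 1174263) (nat_lit 56018175) (nat_lit 6393582) [(nat_lit 1174263), (nat_lit 0), (nat_lit 0)]) (PF.cons (PF.leaf (nat_lit 4397013) (nat_lit 1230825) (nat_lit 54477393) (nat_lit 6477293) [(nat_lit 1230825),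 (nat_lit 0), (nat_lit 0)]) (PF.cons (PF.leaf (nat_lit 5105391) (nat_lit 1278289) (nat_lit 52901347) (nat_lit 6537728) [(nat_lit 1278289), (nat_lit 0), (nat_lit 0)]) (PF.cons (PF.leaf (nat_lit 5830739) (nat_lit 1317435) (nat_lit 51310939) (nat_lit 6575827) [(nat_lit 1317435), (nat_lit 0), (nat_lit 0)]) (PF.cons (PF.leaf (nat_lit 6565367) (nat_lit 1349033) (nat_lit 49723335) (nat_lit
 6593206) [(nat_lit 1349033), (nat_lit 0), (nat_lit 0)]) (PF.cons (PF.leaf (nat_lit 7302845) (nat_lit 1373844) (nat_lit 48152371) (nat_lit 6591840) [(nat_lit 1373844), (nat_lit 0), (nat_lit 0)]) (PF.cons (PF.leaf (nat_lit 8037872) (nat_lit 1392600) (nat_lit 46608951) (nat_lit 6573855) [(nat_lit 1392600), (nat_lit 0), (nat_lit 0)]) (PF.cons (PF.leaf (nat_lit 8766193) (nat_lit 1405998) (nat_lit 45101438) (nat_lit 6541387) [(nat_lit 1405998), (nat_lit 0), (nat_lit 0)]) (PF.cons (PF.leaf (nat_lit 9484405) (nat_lit 1414691) (nat_lit 43636031) (nat_lit 6496487) [(nat_lit 1414691), (nat_lit 0), (nat_lit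 0)]) (PF.cons (PF.leaf (nat_lit 10189893) (nat_lit 1419278) (nat_lit 42217117) (nat_lit 6441073) [(nat_lit 1419278), (nat_lit 0), (nat_lit 0)]) (PF.cons (PF.leaf (nat_lit 10880698) (nat_lit 1420309) (nat_lit 40847590) (nat_lit 6376896) [(nat_lit 1420309), (nat_lit 0), (nat_lit 0)]) (PF.cons (PF.leaf (nat_lit 11555379) (nat_lit 1418276) (nat_lit 39529133) (nat_lit 6305529) [(nat_lit 1418276), (nat_lit 0), (nat_lit 0)]) (PF.cons (PF.leaf (nat_lit 12212986) (nat_lit 1413623) (nat_lit 38262463) (nat_lit 6228367) [(nat_lit 1413623), (nat_lit 0), (nat_lit 0)]) (PF.cons (PF.leaf (nat_lit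
 12852890) (nat_lit 1406743) (nat_lit 37047541) (nat_lit 6146634) [(nat_lit 1406743), (nat_lit 0), (nat_lit 0)]) (PF.cons (PF.leaf (nat_lit 13474783) (nat_lit 1397982) (nat_lit 35883742) (nat_lit 6061392) [(nat_lit 1397982), (nat_lit 0), (nat_lit 0)]) (PF.cons PF.nil (PF.cons PF.nil (PF.cons PF.nil PF.nil)))))))))))))))))))))) (PF.cons (PF.cons (PF.leaf (nat_lit 2630360) (nat_lit 3235566) (nat_lit 57642174) (nat_lit 6231072) [(nat_lit 0), (nat_lit 3235566), (nat_lit 0)]) (PF.cons (PF.leaf (nat_lit 3193781) (nat_lit 1116470) (nat_lit 56317140) (nat_lit 6334255) [(nat_lit 1116470), (nat_lit 3340945), (nat_lit 0)]) (PF.cons (PF.leaf (nat_lit 3809475) (nat_lit 1179692) (nat_lit 54895653) (nat_lit 6420705) [(nat_lit 1179692), (nat_lit 3433069), (nat_lit 0)]) (PF.cons (PF.leaf (nat_lit 4464032) (nat_lit 1233267) (nat_lit 53411017) (nat_lit 6487631) [(nat_lit 1233267), (nat_lit 3510361), (nat_lit 0)]) (PF.cons (PF.leaf (nat_lit 5146449) (nat_lit 1278081) (nat_lit 51889602)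 (nat_lit 6534286) [(nat_lit 1278081), (nat_lit 3572599), (nat_lit 0)]) (PF.cons (PF.leaf (nat_lit 5847508) (nat_lit 1314935) (nat_lit 50352651) (nat_lit 6561167) [(nat_lit 1314935), (nat_lit 3620317), (nat_lit 0)])
 (PF.cons (PF.leaf (nat_lit 6559455) (nat_lit 1344593) (nat_lit 48817266) (nat_lit 6569512) [(nat_lit 1344593), (nat_lit 3654475), (nat_lit 0)]) (PF.cons (PF.leaf (nat_lit 7275847) (nat_lit 1367789) (nat_lit 47297058) (nat_lit 6560971) [(nat_lit 1367789), (nat_lit 3676257), (nat_lit 0)]) (PF.cons (PF.leaf (nat_lit 7991390) (nat_lit 1385227) (nat_lit 45802675) (nat_lit 6537382) [(nat_lit 1385227), (nat_lit 3686938), (nat_lit 0)]) (PF.cons (PF.leaf (nat_lit 8701785) (nat_lit 1397569) (nat_lit 44342251) (nat_lit 6500630) [(nat_lit 1397569), (nat_lit 3687808), (nat_lit 0)]) (PF.cons (PF.leaf (nat_lit 9403610) (nat_lit 1405434) (nat_lit 42921807) (nat_lit 6452552) [(nat_lit 1405434), (nat_lit 3680109), (nat_lit 0)]) (PF.cons (PF.leaf (nat_lit 10094191) (nat_lit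 1409391) (nat_lit 41545612) (nat_lit 6394875) [(nat_lit 1409391), (nat_lit 3665013), (nat_lit 0)]) (PF.cons (PF.leaf (nat_lit 10771516) (nat_lit 1409960) (nat_lit 40216496) (nat_lit 6329189) [(nat_lit 1409960), (nat_lit 3643596), (nat_lit 0)]) (PF.cons (PF.leaf (nat_lit 11434074) (nat_lit 1407608) (nat_lit 38936128) (nat_lit 6256931) [(nat_lit 1407608), (nat_lit 3616836), (nat_lit 0)]) (PF.cons (PF.leaf (nat_lit 12080813)
 (nat_lit 1402755) (nat_lit 37705250) (nat_lit 6179379) [(nat_lit 1402755), (nat_lit 3585607), (nat_lit 0)]) (PF.cons (PF.leaf (nat_lit 12711033) (nat_lit 1395772) (nat_lit 36523878) (nat_lit 6097658) [(nat_lit 1395772), (nat_lit 3550684), (nat_lit 0)]) (PF.cons (PF.leaf (nat_lit 13324330) (nat_lit 1386990) (nat_lit 35391465) (nat_lit 6012749) [(nat_lit 1386990), (nat_lit 3512750), (nat_lit 0)]) (PF.cons PF.nil (PF.cons PF.nil (PF.cons PF.nil PF.nil)))))))))))))))))))) (PF.cons (PF.cons (PF.leaf (nat_lit 3909298) (nat_lit 3454400) (nat_lit 53760922)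 (nat_lit 6439089) [(nat_lit 0), (nat_lit 3454400), (nat_lit 0)]) (PF.cons (PF.leaf (nat_lit 4533453) (nat_lit 1233017) (nat_lit 52342543) (nat_lit 6490815) [(nat_lit 1233017), (nat_lit 3521218), (nat_lit 0)]) (PF.cons (PF.leaf (nat_lit 5188577) (nat_lit 1275767) (nat_lit 50882220) (nat_lit 6525080) [(nat_lit 1275767), (nat_lit 3574988), (nat_lit 0)]) (PF.cons (PF.leaf (nat_lit 5864703) (nat_lit 1310777) (nat_lit 49402859) (nat_lit 6541929) [(nat_lit 1310777), (nat_lit 3615846), (nat_lit 0)]) (PF.cons (PF.leaf (nat_lit 6553753) (nat_lit 1338843) (nat_lit 47922268) (nat_lit 6542236) [(nat_lit 1338843), (nat_lit 3644466), (nat_lit 0)])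
 (PF.cons (PF.leaf (nat_lit 7249093) (nat_lit 1360703) (nat_lit 46454323) (nat_lit 6527344) [(nat_lit 1360703), (nat_lit 3661812), (nat_lit 0)]) (PF.cons (PF.leaf (nat_lit 7945317) (nat_lit 1377045) (nat_lit 45009742) (nat_lit 6498830) [(nat_lit 1377045), (nat_lit 3668982), (nat_lit 0)]) (PF.cons (PF.leaf (nat_lit 8638047) (nat_lit 1388511) (nat_lit 43596656) (nat_lit 6458349) [(nat_lit 1388511), (nat_lit 3667113), (nat_lit 0)]) (PF.cons (PF.leaf (nat_lit 9323778) (nat_lit 1395694) (nat_lit 42221070) (nat_lit 6407540) [(nat_lit 1395694), (nat_lit 3657322), (nat_lit 0)]) (PF.cons (PF.leaf (nat_lit 9999766) (nat_lit 1399139) (nat_lit 40887248) (nat_lit 6347960) [(nat_lit 1399139), (nat_lit 3640672), (nat_lit 0)]) (PF.cons (PF.leaf (nat_lit 10663901) (nat_lit 1399341) (nat_lit 39598042) (nat_lit 6281054) [(nat_lit 1399341), (nat_lit 3618149), (nat_lit 0)]) (PF.cons (PF.leaf (nat_lit 11314602) (nat_lit 1396746) (nat_lit 38355164) (nat_lit 6208132) [(nat_lit 1396746), (nat_lit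 3590651), (nat_lit 0)]) (PF.cons (PF.leaf (nat_lit 11950709) (nat_lit 1391753) (nat_lit 37159425) (nat_lit 6130368) [(nat_lit 1391753), (nat_lit 3558986), (nat_lit 0)]) (PF.cons (PF.leaf (nat_lit 12571454)
 (nat_lit 1384718) (nat_lit 36010928) (nat_lit 6048798) [(nat_lit 1384718), (nat_lit 3523874), (nat_lit 0)]) (PF.cons (PF.leaf (nat_lit 13176343) (nat_lit 1375954) (nat_lit 34909227) (nat_lit 5964329) [(nat_lit 1375954), (nat_lit 3485948), (nat_lit 0)]) (PF.cons PF.nil (PF.cons PF.nil (PF.cons PF.nil PF.nil)))))))))))))))))) (PF.cons (PF.cons (PF.leaf (nat_lit 5234502) (nat_lit 3574106) (nat_lit 49875986) (nat_lit 6510505) [(nat_lit 0), (nat_lit 3574106), (nat_lit 0)]) (PF.cons (PF.leaf (nat_lit 5884318) (nat_lit 1304917) (nat_lit 48459327) (nat_lit 6518426) [(nat_lit 1304917), (nat_lit 3608714), (nat_lit 0)]) (PF.cons (PF.leaf (nat_lit 6549781) (nat_lit 1331768) (nat_lit 47036662) (nat_lit 6511625) [(nat_lit 1331768), (nat_lit 3632329), (nat_lit 0)]) (PF.cons (PF.leaf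 (nat_lit 7223771) (nat_lit 1352582) (nat_lit 45622827) (nat_lit 6491156) [(nat_lit 1352582), (nat_lit 3645693), (nat_lit 0)]) (PF.cons (PF.leaf (nat_lit 7900611) (nat_lit 1368057) (nat_lit 44229036) (nat_lit 6458352) [(nat_lit 1368057), (nat_lit 3649730), (nat_lit 0)]) (PF.cons (PF.leaf (nat_lit 8575744) (nat_lit 1378828) (nat_lit 42863695) (nat_lit 6414661) [(nat_lit 1378828), (nat_lit 3645437), (nat_lit 0)])
 (PF.cons (PF.leaf (nat_lit 9245528) (nat_lit 1385475) (nat_lit 41532979) (nat_lit 6361541) [(nat_lit 1385475), (nat_lit 3633812), (nat_lit 0)]) (PF.cons (PF.leaf (nat_lit 9907105) (nat_lit 1388524) (nat_lit 40241279) (nat_lit 6300396) [(nat_lit 1388524), (nat_lit 3615820), (nat_lit 0)]) (PF.cons (PF.leaf (nat_lit 10558249) (nat_lit 1388453) (nat_lit 38991558) (nat_lit 6232538) [(nat_lit 1388453), (nat_lit 3592361), (nat_lit 0)]) (PF.cons (PF.leaf (nat_lit 11197276) (nat_lit 1385691) (nat_lit 37785641) (nat_lit 6159166) [(nat_lit 1385691), (nat_lit 3564261), (nat_lit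 0)]) (PF.cons (PF.leaf (nat_lit 11822951) (nat_lit 1380619) (nat_lit 36624450) (nat_lit 6081357) [(nat_lit 1380619), (nat_lit 3532270), (nat_lit 0)]) (PF.cons (PF.leaf (nat_lit 12434387) (nat_lit 1373579) (nat_lit 35508208) (nat_lit 6000068) [(nat_lit 1373579), (nat_lit 3497054), (nat_lit 0)]) (PF.cons (PF.leaf (nat_lit 13031008) (nat_lit 1364871) (nat_lit 34436591) (nat_lit 5916138) [(nat_lit 1364871), (nat_lit 3459206), (nat_lit 0)]) (PF.cons (PF.leaf (nat_lit 13612477) (nat_lit 1354762) (nat_lit 33408865) (nat_lit 5830297) [(nat_lit 1354762), (nat_lit 3419247), (nat_lit 0)]) (PF.cons PF.nil (PF.cons PF.nil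
 PF.nil)))))))))))))))) (PF.cons (PF.cons (PF.leaf (nat_lit 6549377) (nat_lit 3618203) (nat_lit 46158136) (nat_lit 6477862) [(nat_lit 0), (nat_lit 3618203), (nat_lit 0)]) (PF.cons (PF.leaf (nat_lit 7201236) (nat_lit 1343390) (nat_lit 44800841) (nat_lit 6452554) [(nat_lit 1343390), (nat_lit 3628006), (nat_lit 0)]) (PF.cons (PF.leaf (nat_lit 7858324) (nat_lit 1358243) (nat_lit 43459193) (nat_lit 6416066) [(nat_lit 1358243), (nat_lit 3629266), (nat_lit 0)]) (PF.cons (PF.leaf (nat_lit 8515706) (nat_lit 1368510) (nat_lit 42142247) (nat_lit 6369657) [(nat_lit 1368510), (nat_lit 3622844), (nat_lit 0)]) (PF.cons (PF.leaf (nat_lit 9169521) (nat_lit 1374770) (nat_lit 40856588) (nat_lit 6314624) [(nat_lit 1374770), (nat_lit 3609629), (nat_lit 0)]) (PF.cons (PF.leaf (nat_lit 9816733) (nat_lit 1377543) (nat_lit 39606890) (nat_lit 6252234) [(nat_lit 1377543), (nat_lit 3590493), (nat_lit 0)]) (PF.cons (PF.leaf (nat_lit 10454976) (nat_lit 1377293) (nat_lit 38396336) (nat_lit 6183679)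 [(nat_lit 1377293), (nat_lit 3566258), (nat_lit 0)]) (PF.cons (PF.leaf (nat_lit 11082448) (nat_lit 1374439) (nat_lit 37226933) (nat_lit 6110058) [(nat_lit 1374439), (nat_lit 3537687), (nat_lit 0)]) (PF.cons (PF.leaf
 (nat_lit 11697787) (nat_lit 1369348) (nat_lit 36099770) (nat_lit 6032363) [(nat_lit 1369348), (nat_lit 3505472), (nat_lit 0)]) (PF.cons (PF.leaf (nat_lit 12300023) (nat_lit 1362352) (nat_lit 35015223) (nat_lit 5951477) [(nat_lit 1362352), (nat_lit 3470234), (nat_lit 0)]) (PF.cons (PF.leaf (nat_lit 12888471) (nat_lit 1353740) (nat_lit 33973116) (nat_lit 5868180) [(nat_lit 1353740), (nat_lit 3432528), (nat_lit 0)]) (PF.cons (PF.leaf (nat_lit 13462700) (nat_lit 1343767) (nat_lit 32972857) (nat_lit 5783150) [(nat_lit 1343767), (nat_lit 3392840), (nat_lit 0)]) (PF.cons PF.nil (PF.cons PF.nil PF.nil)))))))))))))) (PF.cons (PF.cons (PF.leaf (nat_lit 7819711) (nat_lit 3607652) (nat_lit 42698506) (nat_lit 6372045) [(nat_lit 0), (nat_lit 3607652), (nat_lit 0)]) (PF.cons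 (PF.leaf (nat_lit 8458862) (nat_lit 1357525) (nat_lit 41430979) (nat_lit 6323396) [(nat_lit 1357525), (nat_lit 3599382), (nat_lit 0)]) (PF.cons (PF.leaf (nat_lit 9096479) (nat_lit 1363559) (nat_lit 40190815) (nat_lit 6266835) [(nat_lit 1363559), (nat_lit 3584808), (nat_lit 0)]) (PF.cons (PF.leaf (nat_lit 9729223) (nat_lit 1366180) (nat_lit 38983180) (nat_lit 6203506) [(nat_lit 1366180), (nat_lit 3564716), (nat_lit 0)])
 (PF.cons (PF.leaf (nat_lit 10354542) (nat_lit 1365851) (nat_lit 37811607) (nat_lit 6134500) [(nat_lit 1365851), (nat_lit 3539859), (nat_lit 0)]) (PF.cons (PF.leaf (nat_lit 10970472) (nat_lit 1362982) (nat_lit 36678377) (nat_lit 6060823) [(nat_lit 1362982), (nat_lit 3510940), (nat_lit 0)]) (PF.cons (PF.leaf (nat_lit 11575520) (nat_lit 1357935) (nat_lit 35584806) (nat_lit 5983392) [(nat_lit 1357935), (nat_lit 3478599), (nat_lit 0)]) (PF.cons (PF.leaf (nat_lit 12168594) (nat_lit 1351032) (nat_lit 34531464) (nat_lit 5903027) [(nat_lit 1351032), (nat_lit 3443419),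 (nat_lit 0)]) (PF.cons (PF.leaf (nat_lit 12748916) (nat_lit 1342553) (nat_lit 33518353) (nat_lit 5820452) [(nat_lit 1342553), (nat_lit 3405915), (nat_lit 0)]) (PF.cons (PF.leaf (nat_lit 13315966) (nat_lit 1332749) (nat_lit 32545040) (nat_lit 5736302) [(nat_lit 1332749), (nat_lit 3366545), (nat_lit 0)]) (PF.cons PF.nil (PF.cons PF.nil PF.nil)))))))))))) (PF.cons (PF.cons (PF.leaf (nat_lit 9027273) (nat_lit 3559372) (nat_lit 39534388) (nat_lit 6218192) [(nat_lit 0), (nat_lit 3559372), (nat_lit 0)]) (PF.cons (PF.leaf (nat_lit 9645217) (nat_lit 1354411) (nat_lit 38369124) (nat_lit 6154228) [(nat_lit 1354411), (nat_lit 3538508),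
 (nat_lit 0)]) (PF.cons (PF.leaf (nat_lit 10257444) (nat_lit 1354108) (nat_lit 37236524) (nat_lit 6085008) [(nat_lit 1354108), (nat_lit 3513177), (nat_lit 0)]) (PF.cons (PF.leaf (nat_lit 10861736) (nat_lit 1351307) (nat_lit 36139259) (nat_lit 6011464) [(nat_lit 1351307), (nat_lit 3484027), (nat_lit 0)]) (PF.cons (PF.leaf (nat_lit 11456451) (nat_lit 1346368) (nat_lit 35078946) (nat_lit 5934445) [(nat_lit 1346368), (nat_lit 3451657), (nat_lit 0)]) (PF.cons (PF.leaf (nat_lit 12040351) (nat_lit 1339608) (nat_lit 34056401) (nat_lit 5854715) [(nat_lit 1339608), (nat_lit 3416608), (nat_lit 0)]) (PF.cons (PF.leaf (nat_lit 12612545) (nat_lit 1331304) (nat_lit 33071837) (nat_lit 5772950) [(nat_lit 1331304), (nat_lit 3379365), (nat_lit 0)]) (PF.cons (PF.leaf (nat_lit 13172403) (nat_lit 1321699) (nat_lit 32125005) (nat_lit 5689744) [(nat_lit 1321699), (nat_lit 3340360), (nat_lit 0)]) (PF.cons (PF.leaf (nat_lit 13719519) (nat_lit 1311006) (nat_lit 31215314) (nat_lit 5605614) [(nat_lit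 1311006), (nat_lit 3299971), (nat_lit 0)]) (PF.cons PF.nil PF.nil)))))))))) (PF.cons (PF.cons (PF.leaf (nat_lit 10164295) (nat_lit 3486212) (nat_lit 36670131) (nat_lit 6035197) [(nat_lit 0), (nat_lit 3486212),
 (nat_lit 0)]) (PF.cons (PF.leaf (nat_lit 10756689) (nat_lit 1339392) (nat_lit 35608794) (nat_lit 5961974) [(nat_lit 1339392), (nat_lit 3456950), (nat_lit 0)]) (PF.cons (PF.leaf (nat_lit 11340923) (nat_lit 1334631) (nat_lit 34581532) (nat_lit 5885513) [(nat_lit 1334631), (nat_lit 3424643), (nat_lit 0)]) (PF.cons (PF.leaf (nat_lit 11915556) (nat_lit 1328069) (nat_lit 33589475) (nat_lit 5806530) [(nat_lit 1328069), (nat_lit 3389799), (nat_lit 0)]) (PF.cons (PF.leaf (nat_lit 12479555) (nat_lit 1319982) (nat_lit 32633088) (nat_lit 5725660) [(nat_lit 1319982), (nat_lit 3352876), (nat_lit 0)]) (PF.cons (PF.leaf (nat_lit 13032178) (nat_lit 1310610) (nat_lit 31712335) (nat_lit 5643464) [(nat_lit 1310610), (nat_lit 3314280), (nat_lit 0)]) (PF.cons (PF.leaf (nat_lit 13572929)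 (nat_lit 1300163) (nat_lit 30826809) (nat_lit 5560427) [(nat_lit 1300163), (nat_lit 3274370), (nat_lit 0)]) (PF.cons PF.nil PF.nil)))))))) (PF.cons (PF.cons (PF.leaf (nat_lit 11229384) (nat_lit 3397549) (nat_lit 34091841) (nat_lit 5836574) [(nat_lit 0), (nat_lit 3397549), (nat_lit 0)]) (PF.cons (PF.leaf (nat_lit 11794520) (nat_lit 1316396) (nat_lit 33130083) (nat_lit 5758453) [(nat_lit 1316396), (nat_lit 3362985),
 (nat_lit 0)]) (PF.cons (PF.leaf (nat_lit 12350190) (nat_lit 1308572) (nat_lit 32201594) (nat_lit 5678566) [(nat_lit 1308572), (nat_lit 3326438), (nat_lit 0)]) (PF.cons (PF.leaf (nat_lit 12895485) (nat_lit 1299469) (nat_lit 31306590) (nat_lit 5597444) [(nat_lit 1299469), (nat_lit 3288296), (nat_lit 0)]) (PF.cons (PF.leaf (nat_lit 13429784) (nat_lit 1289297) (nat_lit 30444874) (nat_lit 5515549) [(nat_lit 1289297), (nat_lit 3248899), (nat_lit 0)]) (PF.cons PF.nil PF.nil)))))) (PF.cons (PF.cons (PF.leaf (nat_lit 12224772) (nat_lit 3300040) (nat_lit 31776805) (nat_lit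 5631642) [(nat_lit 0), (nat_lit 3300040), (nat_lit 0)]) (PF.cons (PF.leaf (nat_lit 12762524) (nat_lit 1288261) (nat_lit 30907308) (nat_lit 5551663) [(nat_lit 1288261), (nat_lit 3262397), (nat_lit 0)]) (PF.cons (PF.leaf (nat_lit 13290246) (nat_lit 1278394) (nat_lit 30069113) (nat_lit 5470960) [(nat_lit 1278394), (nat_lit 3223549), (nat_lit 0)]) (PF.cons (PF.leaf (nat_lit 13807372) (nat_lit 1267636) (nat_lit 29261920) (nat_lit 5389917) [(nat_lit 1267636), (nat_lit 3183784), (nat_lit 0)]) PF.nil)))) (PF.cons (PF.cons (PF.leaf (nat_lit 13154562) (nat_lit 3198307) (nat_lit 29699104) (nat_lit 5426634) [(nat_lit 0), (nat_lit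
 3198307), (nat_lit 0)]) (PF.cons (PF.leaf (nat_lit 13665726) (nat_lit 1257011) (nat_lit 28913399) (nat_lit 5346855) [(nat_lit 1257011), (nat_lit 3159154), (nat_lit 0)]) PF.nil)) (PF.cons PF.nil (PF.cons PF.nil (PF.cons PF.nil (PF.cons PF.nil PF.nil))))))))))))))) (PF.cons (PF.cons (PF.cons (PF.leaf (nat_lit 3302384) (nat_lit 6333339) (nat_lit 54300562) (nat_lit 6333339) [(nat_lit 0), (nat_lit 0), (nat_lit 6474910)]) (PF.cons (PF.leaf (nat_lit 3865757) (nat_lit 1159321) (nat_lit 53015080) (nat_lit 6397052) [(nat_lit 1159321), (nat_lit 0), (nat_lit 6537358)]) (PF.cons (PF.leaf (nat_lit 4474486) (nat_lit 1212921) (nat_lit 51652370) (nat_lit 6445856) [(nat_lit 1212921), (nat_lit 0), (nat_lit 6584743)]) (PF.cons (PF.leaf (nat_lit 5115749) (nat_lit 1257234) (nat_lit 50243421) (nat_lit 6478189) [(nat_lit 1257234), (nat_lit 0), (nat_lit 6615499)]) (PF.cons (PF.leaf (nat_lit 5779463) (nat_lit 1293430) (nat_lit 48811653) (nat_lit 6493928) [(nat_lit 1293430), (nat_lit 0), (nat_lit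 6629509)]) (PF.cons (PF.leaf (nat_lit 6457442) (nat_lit 1322458) (nat_lit 47375202) (nat_lit 6493804) [(nat_lit 1322458), (nat_lit 0), (nat_lit 6627514)]) (PF.cons (PF.leaf (nat_lit 7142960) (nat_lit 1345142)
 (nat_lit 45948182) (nat_lit 6479030) [(nat_lit 1345142), (nat_lit 0), (nat_lit 6610745)]) (PF.cons (PF.leaf (nat_lit 7830531) (nat_lit 1362222) (nat_lit 44541500) (nat_lit 6451070) [(nat_lit 1362222), (nat_lit 0), (nat_lit 6580684)]) (PF.cons (PF.leaf (nat_lit 8515693) (nat_lit 1374369) (nat_lit 43163457) (nat_lit 6411484) [(nat_lit 1374369), (nat_lit 0), (nat_lit 6538912)]) (PF.cons (PF.leaf (nat_lit 9194875) (nat_lit 1382195) (nat_lit 41820222) (nat_lit 6361827) [(nat_lit 1382195), (nat_lit 0), (nat_lit 6487003)]) (PF.cons (PF.leaf (nat_lit 9865248) (nat_lit 1386253) (nat_lit 40516221) (nat_lit 6303589) [(nat_lit 1386253), (nat_lit 0), (nat_lit 6426466)]) (PF.cons (PF.leaf (nat_lit 10524623) (nat_lit 1387043) (nat_lit 39254468) (nat_lit 6238158) [(nat_lit 1387043),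 (nat_lit 0), (nat_lit 6358706)]) (PF.cons (PF.leaf (nat_lit 11171331) (nat_lit 1385014) (nat_lit 38036838) (nat_lit 6166797) [(nat_lit 1385014), (nat_lit 0), (nat_lit 6285001)]) (PF.cons (PF.leaf (nat_lit 11804172) (nat_lit 1380566) (nat_lit 36864299) (nat_lit 6090644) [(nat_lit 1380566), (nat_lit 0), (nat_lit 6206503)]) (PF.cons (PF.leaf (nat_lit 12422270) (nat_lit 1374055) (nat_lit 35737107) (nat_lit 6010704)
 [(nat_lit 1374055), (nat_lit 0), (nat_lit 6124229)]) (PF.cons (PF.leaf (nat_lit 13025078) (nat_lit 1365794) (nat_lit 34654965) (nat_lit 5927861) [(nat_lit 1365794), (nat_lit 0), (nat_lit 6039072)]) (PF.cons (PF.leaf (nat_lit 13612283) (nat_lit 1356060) (nat_lit 33617154) (nat_lit 5842885) [(nat_lit 1356060), (nat_lit 0), (nat_lit 5951809)]) (PF.cons PF.nil (PF.cons PF.nil (PF.cons PF.nil PF.nil)))))))))))))))))))) (PF.cons (PF.cons (PF.leaf (nat_lit 4550600) (nat_lit 3494235) (nat_lit 50595207) (nat_lit 6440732) [(nat_lit 0), (nat_lit 3494235), (nat_lit 6578637)])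 (PF.cons (PF.leaf (nat_lit 5162216) (nat_lit 1252093) (nat_lit 49254763) (nat_lit 6462515) [(nat_lit 1252093), (nat_lit 3540657), (nat_lit 6598782)]) (PF.cons (PF.leaf (nat_lit 5799897) (nat_lit 1287139) (nat_lit 47884696) (nat_lit 6469766) [(nat_lit 1287139), (nat_lit 3575818), (nat_lit 6604253)]) (PF.cons (PF.leaf (nat_lit 6454542) (nat_lit 1315094) (nat_lit 46505106) (nat_lit 6462875) [(nat_lit 1315094), (nat_lit 3600094), (nat_lit 6595453)]) (PF.cons (PF.leaf (nat_lit 7118964) (nat_lit 1336838) (nat_lit 45131103) (nat_lit 6442786) [(nat_lit 1336838), (nat_lit 3614223), (nat_lit 6573343)]) (PF.cons (PF.leaf (nat_lit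
 7787393) (nat_lit 1353131) (nat_lit 43774124) (nat_lit 6410735) [(nat_lit 1353131), (nat_lit 3619117), (nat_lit 6539176)]) (PF.cons (PF.leaf (nat_lit 8455180) (nat_lit 1364644) (nat_lit 42442768) (nat_lit 6368085) [(nat_lit 1364644), (nat_lit 3615757), (nat_lit 6494336)]) (PF.cons (PF.leaf (nat_lit 9118603) (nat_lit 1371977) (nat_lit 41143390) (nat_lit 6316224) [(nat_lit 1371977), (nat_lit 3605124), (nat_lit 6440227)]) (PF.cons (PF.leaf (nat_lit 9774718) (nat_lit 1375673) (nat_lit 39880555) (nat_lit 6256495) [(nat_lit 1375673), (nat_lit 3588164), (nat_lit 6378211)]) (PF.cons (PF.leaf (nat_lit 10421229) (nat_lit 1376214) (nat_lit 38657394) (nat_lit 6190160) [(nat_lit 1376214), (nat_lit 3565762), (nat_lit 6309565)]) (PF.cons (PF.leaf (nat_lit 11056382) (nat_lit 1374034) (nat_lit 37475895) (nat_lit 6118377) [(nat_lit 1374034), (nat_lit 3538730), (nat_lit 6235462)]) (PF.cons (PF.leaf (nat_lit 11678850) (nat_lit 1369519) (nat_lit 36337141) (nat_lit 6042192) [(nat_lit 1369519),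 (nat_lit 3507803), (nat_lit 6156959)]) (PF.cons (PF.leaf (nat_lit 12287697) (nat_lit 1363011) (nat_lit 35241505) (nat_lit 5962536) [(nat_lit 1363011), (nat_lit 3473640), (nat_lit 6074996)]) (PF.cons (PF.leaf
 (nat_lit 12882271) (nat_lit 1354811) (nat_lit 34188809) (nat_lit 5880226) [(nat_lit 1354811), (nat_lit 3436824), (nat_lit 5990403)]) (PF.cons (PF.leaf (nat_lit 13462174) (nat_lit 1345186) (nat_lit 33178455) (nat_lit 5795978) [(nat_lit 1345186), (nat_lit 3397871), (nat_lit 5903901)]) (PF.cons PF.nil (PF.cons PF.nil (PF.cons PF.nil PF.nil)))))))))))))))))) (PF.cons (PF.cons (PF.leaf (nat_lit 5825598) (nat_lit 3565869) (nat_lit 46960303) (nat_lit 6441720) [(nat_lit 0), (nat_lit 3565869), (nat_lit 6575049)]) (PF.cons (PF.leaf (nat_lit 6455448) (nat_lit 1306328) (nat_lit 45641668) (nat_lit 6428914) [(nat_lit 1306328), (nat_lit 3585794), (nat_lit 6560313)]) (PF.cons (PF.leaf (nat_lit 7097984) (nat_lit 1327459) (nat_lit 44323103) (nat_lit 6404217) [(nat_lit 1327459), (nat_lit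 3596495), (nat_lit 6533583)]) (PF.cons (PF.leaf (nat_lit 7746849) (nat_lit 1343211) (nat_lit 43017186) (nat_lit 6368656) [(nat_lit 1343211), (nat_lit 3598716), (nat_lit 6495902)]) (PF.cons (PF.leaf (nat_lit 8397065) (nat_lit 1354280) (nat_lit 41733184) (nat_lit 6323416) [(nat_lit 1354280), (nat_lit 3593306), (nat_lit 6448475)]) (PF.cons (PF.leaf (nat_lit 9044674) (nat_lit 1361272) (nat_lit 40477873) (nat_lit
 6269733) [(nat_lit 1361272), (nat_lit 3581142), (nat_lit 6392556)]) (PF.cons (PF.leaf (nat_lit 9686562) (nat_lit 1364724) (nat_lit 39256111) (nat_lit 6208820) [(nat_lit 1364724), (nat_lit 3563080), (nat_lit 6329374)]) (PF.cons (PF.leaf (nat_lit 10320282) (nat_lit 1365110) (nat_lit 38071251) (nat_lit 6141828) [(nat_lit 1365110), (nat_lit 3539931), (nat_lit 6260093)]) (PF.cons (PF.leaf (nat_lit 10943954) (nat_lit 1362855) (nat_lit 36925465) (nat_lit 6069819) [(nat_lit 1362855), (nat_lit 3512445), (nat_lit 6185789)]) (PF.cons (PF.leaf (nat_lit 11556150) (nat_lit 1358333)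 (nat_lit 35820003) (nat_lit 5993757) [(nat_lit 1358333), (nat_lit 3481304), (nat_lit 6107436)]) (PF.cons (PF.leaf (nat_lit 12155828) (nat_lit 1351876) (nat_lit 34755388) (nat_lit 5914502) [(nat_lit 1351876), (nat_lit 3447123), (nat_lit 6025907)]) (PF.cons (PF.leaf (nat_lit 12742252) (nat_lit 1343776) (nat_lit 33731587) (nat_lit 5832817) [(nat_lit 1343776), (nat_lit 3410448), (nat_lit 5941970)]) (PF.cons (PF.leaf (nat_lit 13314937) (nat_lit 1334290) (nat_lit 32748142) (nat_lit 5749366) [(nat_lit 1334290), (nat_lit 3371761), (nat_lit 5856298)]) (PF.cons PF.nil (PF.cons PF.nil (PF.cons PF.nil PF.nil))))))))))))))))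
 (PF.cons (PF.cons (PF.leaf (nat_lit 7081682) (nat_lit 3577323) (nat_lit 43521898) (nat_lit 6363402) [(nat_lit 0), (nat_lit 3577323), (nat_lit 6491542)]) (PF.cons (PF.leaf (nat_lit 7710110) (nat_lit 1332409) (nat_lit 42268990) (nat_lit 6324898) [(nat_lit 1332409), (nat_lit 3577196), (nat_lit 6450926)]) (PF.cons (PF.leaf (nat_lit 8342272) (nat_lit 1343245) (nat_lit 41033383) (nat_lit 6277528) [(nat_lit 1343245), (nat_lit 3570009), (nat_lit 6401383)]) (PF.cons (PF.leaf (nat_lit 8973807) (nat_lit 1350057) (nat_lit 39822602) (nat_lit 6222395) [(nat_lit 1350057), (nat_lit 3556537), (nat_lit 6344031)]) (PF.cons (PF.leaf (nat_lit 9601331) (nat_lit 1353390) (nat_lit 38641999) (nat_lit 6160597) [(nat_lit 1353390), (nat_lit 3537556), (nat_lit 6279985)]) (PF.cons (PF.leaf (nat_lit 10222210) (nat_lit 1353721) (nat_lit 37495281) (nat_lit 6093185) [(nat_lit 1353721), (nat_lit 3513809), (nat_lit 6210310)]) (PF.cons (PF.leaf (nat_lit 10834400) (nat_lit 1351468) (nat_lit 36384896) (nat_lit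 6021137) [(nat_lit 1351468), (nat_lit 3485989), (nat_lit 6135995)]) (PF.cons (PF.leaf (nat_lit 11436360) (nat_lit 1347002) (nat_lit 35312315) (nat_lit 5945344) [(nat_lit 1347002), (nat_lit 3454731), (nat_lit
 6057943)]) (PF.cons (PF.leaf (nat_lit 12026910) (nat_lit 1340644) (nat_lit 34278257) (nat_lit 5866605) [(nat_lit 1340644), (nat_lit 3420608), (nat_lit 5976962)]) (PF.cons (PF.leaf (nat_lit 12605223) (nat_lit 1332683) (nat_lit 33282861) (nat_lit 5785632) [(nat_lit 1332683), (nat_lit 3384133), (nat_lit 5893771)]) (PF.cons (PF.leaf (nat_lit 13170719) (nat_lit 1323367) (nat_lit 32325824) (nat_lit 5703045) [(nat_lit 1323367), (nat_lit 3345758), (nat_lit 5808996)]) (PF.cons PF.nil (PF.cons PF.nil (PF.cons PF.nil PF.nil)))))))))))))) (PF.cons (PF.cons (PF.leaf (nat_lit 8291941) (nat_lit 3545889) (nat_lit 40341739) (nat_lit 6230440) [(nat_lit 0), (nat_lit 3545889), (nat_lit 6353074)]) (PF.cons (PF.leaf (nat_lit 8906826) (nat_lit 1338291) (nat_lit 39176315) (nat_lit 6174225)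 [(nat_lit 1338291), (nat_lit 3531328), (nat_lit 6294666)]) (PF.cons (PF.leaf (nat_lit 9519670) (nat_lit 1341643) (nat_lit 38037206) (nat_lit 6111835) [(nat_lit 1341643), (nat_lit 3511607), (nat_lit 6230055)]) (PF.cons (PF.leaf (nat_lit 10127517) (nat_lit 1342025) (nat_lit 36928651) (nat_lit 6044235) [(nat_lit 1342025), (nat_lit 3487406), (nat_lit 6160222)]) (PF.cons (PF.leaf (nat_lit 10728126) (nat_lit 1339858)
 (nat_lit 35853484) (nat_lit 5972332) [(nat_lit 1339858), (nat_lit 3459369), (nat_lit 6086083)]) (PF.cons (PF.leaf (nat_lit 11319771) (nat_lit 1335511) (nat_lit 34813477) (nat_lit 5896951) [(nat_lit 1335511), (nat_lit 3428086), (nat_lit 6008476)]) (PF.cons (PF.leaf (nat_lit 11901168) (nat_lit 1329306) (nat_lit 33809592) (nat_lit 5818841) [(nat_lit 1329306), (nat_lit 3394095), (nat_lit 5928158)]) (PF.cons (PF.leaf (nat_lit 12471353) (nat_lit 1321523) (nat_lit 32842175) (nat_lit 5738664) [(nat_lit 1321523), (nat_lit 3357877), (nat_lit 5845797)]) (PF.cons (PF.leaf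 (nat_lit 13029651) (nat_lit 1312409) (nat_lit 31911102) (nat_lit 5657006) [(nat_lit 1312409), (nat_lit 3319861), (nat_lit 5761985)]) (PF.cons (PF.leaf (nat_lit 13575602) (nat_lit 1302178) (nat_lit 31015901) (nat_lit 5574374) [(nat_lit 1302178), (nat_lit 3280423), (nat_lit 5677235)]) (PF.cons PF.nil (PF.cons PF.nil PF.nil)))))))))))) (PF.cons (PF.cons (PF.leaf (nat_lit 9442368) (nat_lit 3485234) (nat_lit 37440547) (nat_lit 6062522) [(nat_lit 0), (nat_lit 3485234), (nat_lit 6179570)]) (PF.cons (PF.leaf (nat_lit 10036775) (nat_lit 1329992) (nat_lit 36370414) (nat_lit 5994970) [(nat_lit 1329992), (nat_lit 3460723), (nat_lit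
 6109818)]) (PF.cons (PF.leaf (nat_lit 10625556) (nat_lit 1328002) (nat_lit 35330455) (nat_lit 5923394) [(nat_lit 1328002), (nat_lit 3432583), (nat_lit 6036041)]) (PF.cons (PF.leaf (nat_lit 11206744) (nat_lit 1323845) (nat_lit 34322841) (nat_lit 5848570) [(nat_lit 1323845), (nat_lit 3401367), (nat_lit 5959026)]) (PF.cons (PF.leaf (nat_lit 11778873) (nat_lit 1317846) (nat_lit 33348842) (nat_lit 5771198) [(nat_lit 1317846), (nat_lit 3367580), (nat_lit 5879481)]) (PF.cons (PF.leaf (nat_lit 12340858) (nat_lit 1310285) (nat_lit 32409054) (nat_lit 5691903) [(nat_lit 1310285), (nat_lit 3331677), (nat_lit 5798037)]) (PF.cons (PF.leaf (nat_lit 12891908) (nat_lit 1301407) (nat_lit 31503564) (nat_lit 5611236) [(nat_lit 1301407), (nat_lit 3294063), (nat_lit 5715252)]) (PF.cons (PF.leaf (nat_lit 13431474) (nat_lit 1291424) (nat_lit 30632077) (nat_lit 5529677) [(nat_lit 1291424), (nat_lit 3255095), (nat_lit 5631611)]) (PF.cons PF.nil (PF.cons PF.nil PF.nil)))))))))) (PF.cons (PF.cons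 (PF.leaf (nat_lit 10527262) (nat_lit 3405622) (nat_lit 34814933) (nat_lit 5874299) [(nat_lit 0), (nat_lit 3405622), (nat_lit 5985844)]) (PF.cons (PF.leaf (nat_lit 11097664) (nat_lit 1311979) (nat_lit 33839692)
 (nat_lit 5800177) [(nat_lit 1311979), (nat_lit 3374565), (nat_lit 5909569)]) (PF.cons (PF.leaf (nat_lit 11660339) (nat_lit 1306247) (nat_lit 32895413) (nat_lit 5723656) [(nat_lit 1306247), (nat_lit 3341056), (nat_lit 5830912)]) (PF.cons (PF.leaf (nat_lit 12213986) (nat_lit 1298955) (nat_lit 31982998) (nat_lit 5645329) [(nat_lit 1298955), (nat_lit 3305524), (nat_lit 5750472)]) (PF.cons (PF.leaf (nat_lit 12757680) (nat_lit 1290349) (nat_lit 31102779) (nat_lit 5565718) [(nat_lit 1290349), (nat_lit 3268356), (nat_lit 5668779)]) (PF.cons (PF.leaf (nat_lit 13290764) (nat_lit 1280641) (nat_lit 30254668) (nat_lit 5485281) [(nat_lit 1280641), (nat_lit 3229893), (nat_lit 5586295)]) (PF.cons PF.nil (PF.cons PF.nil PF.nil)))))))) (PF.cons (PF.cons (PF.leaf (nat_lit 11545965)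 (nat_lit 3314507) (nat_lit 32448650) (nat_lit 5676187) [(nat_lit 0), (nat_lit 3314507), (nat_lit 5782420)]) (PF.cons (PF.leaf (nat_lit 12091001) (nat_lit 1287512) (nat_lit 31563462) (nat_lit 5598917) [(nat_lit 1287512), (nat_lit 3279406), (nat_lit 5703076)]) (PF.cons (PF.leaf (nat_lit 12627172) (nat_lit 1279219) (nat_lit 30708290) (nat_lit 5520430) [(nat_lit 1279219), (nat_lit 3242729), (nat_lit 5622544)]) (PF.cons
 (PF.leaf (nat_lit 13153643) (nat_lit 1269818) (nat_lit 29883283) (nat_lit 5441164) [(nat_lit 1269818), (nat_lit 3204805), (nat_lit 5541267)]) (PF.cons (PF.leaf (nat_lit 13669858) (nat_lit 1259497) (nat_lit 29088238) (nat_lit 5361502) [(nat_lit 1259497), (nat_lit 3165921), (nat_lit 5459630)]) (PF.cons PF.nil PF.nil)))))) (PF.cons (PF.cons (PF.leaf (nat_lit 12500689) (nat_lit 3217168) (nat_lit 30319601) (nat_lit 5475342) [(nat_lit 0), (nat_lit 3217168), (nat_lit 5576517)]) (PF.cons (PF.leaf (nat_lit 13020311) (nat_lit 1258939) (nat_lit 29517507) (nat_lit 5397302)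 [(nat_lit 1258939), (nat_lit 3179820), (nat_lit 5496501)]) (PF.cons (PF.leaf (nat_lit 13530569) (nat_lit 1248948) (nat_lit 28743587) (nat_lit 5318881) [(nat_lit 1248948), (nat_lit 3141538), (nat_lit 5416141)]) (PF.cons PF.nil PF.nil)))) (PF.cons (PF.cons (PF.leaf (nat_lit 13395139) (nat_lit 3117269) (nat_lit 28403931) (nat_lit 5276526) [(nat_lit 0), (nat_lit 3117269), (nat_lit 5372925)]) (PF.cons PF.nil PF.nil)) (PF.cons PF.nil (PF.cons PF.nil (PF.cons PF.nil PF.nil))))))))))))) (PF.cons (PF.cons (PF.cons (PF.leaf (nat_lit 5146447) (nat_lit 6392254) (nat_lit 47663289) (nat_lit 6392254) [(nat_lit 0), (nat_lit 0), (nat_lit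
 6526634)]) (PF.cons (PF.leaf (nat_lit 5743508) (nat_lit 1259905) (nat_lit 46407696) (nat_lit 6392038) [(nat_lit 1259905), (nat_lit 0), (nat_lit 6524585)]) (PF.cons (PF.leaf (nat_lit 6362836) (nat_lit 1288753) (nat_lit 45131083) (nat_lit 6379670) [(nat_lit 1288753), (nat_lit 0), (nat_lit 6510275)]) (PF.cons (PF.leaf (nat_lit 6996082) (nat_lit 1311105) (nat_lit 43851092) (nat_lit 6355754) [(nat_lit 1311105), (nat_lit 0), (nat_lit 6484324)]) (PF.cons (PF.leaf (nat_lit 7636808) (nat_lit 1327882) (nat_lit 42580631) (nat_lit 6321243) [(nat_lit 1327882), (nat_lit 0), (nat_lit 6447703)]) (PF.cons (PF.leaf (nat_lit 8279928) (nat_lit 1339843) (nat_lit 41329232) (nat_lit 6277263) [(nat_lit 1339843), (nat_lit 0), (nat_lit 6401550)]) (PF.cons (PF.leaf (nat_lit 8921391) (nat_lit 1347631) (nat_lit 40103902) (nat_lit 6224993) [(nat_lit 1347631), (nat_lit 0), (nat_lit 6347063)]) (PF.cons (PF.leaf (nat_lit 9557990) (nat_lit 1351808) (nat_lit 38909700) (nat_lit 6165602) [(nat_lit 1351808),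 (nat_lit 0), (nat_lit 6285425)]) (PF.cons (PF.leaf (nat_lit 10187217) (nat_lit 1352865) (nat_lit 37750166) (nat_lit 6100200) [(nat_lit 1352865), (nat_lit 0), (nat_lit 6217759)]) (PF.cons (PF.leaf (nat_lit
 10807105) (nat_lit 1351236) (nat_lit 36627647) (nat_lit 6029819) [(nat_lit 1351236), (nat_lit 0), (nat_lit 6145110)]) (PF.cons (PF.leaf (nat_lit 11416170) (nat_lit 1347300) (nat_lit 35543555) (nat_lit 5955396) [(nat_lit 1347300), (nat_lit 0), (nat_lit 6068426)]) (PF.cons (PF.leaf (nat_lit 12013290) (nat_lit 1341396) (nat_lit 34498566) (nat_lit 5877774) [(nat_lit 1341396), (nat_lit 0), (nat_lit 5988556)]) (PF.cons (PF.leaf (nat_lit 12597669) (nat_lit 1333817) (nat_lit 33492791) (nat_lit 5797696) [(nat_lit 1333817), (nat_lit 0), (nat_lit 5906256)]) (PF.cons (PF.leaf (nat_lit 13168776) (nat_lit 1324824) (nat_lit 32525903) (nat_lit 5715818) [(nat_lit 1324824), (nat_lit 0), (nat_lit 5822183)]) (PF.cons PF.nil (PF.cons PF.nil PF.nil)))))))))))))))) (PF.cons (PF.cons (PF.leaf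 (nat_lit 6371666) (nat_lit 3536596) (nat_lit 44285301) (nat_lit 6342720) [(nat_lit 0), (nat_lit 3536596), (nat_lit 6472097)]) (PF.cons (PF.leaf (nat_lit 6981642) (nat_lit 1300342) (nat_lit 43063084) (nat_lit 6315079) [(nat_lit 1300342), (nat_lit 3545449), (nat_lit 6442428)]) (PF.cons (PF.leaf (nat_lit 7602081) (nat_lit 1316954) (nat_lit 41844598) (nat_lit 6277765) [(nat_lit 1316954), (nat_lit 3546511), (nat_lit
 6403014)]) (PF.cons (PF.leaf (nat_lit 8227255) (nat_lit 1328748) (nat_lit 40640606) (nat_lit 6231757) [(nat_lit 1328748), (nat_lit 3540505), (nat_lit 6354849)]) (PF.cons (PF.leaf (nat_lit 8852738) (nat_lit 1336403) (nat_lit 39458871) (nat_lit 6178109) [(nat_lit 1336403), (nat_lit 3528208), (nat_lit 6299003)]) (PF.cons (PF.leaf (nat_lit 9475069) (nat_lit 1340497) (nat_lit 38304954) (nat_lit 6117880) [(nat_lit 1340497), (nat_lit 3510391), (nat_lit 6236550)]) (PF.cons (PF.leaf (nat_lit 10091521) (nat_lit 1341523) (nat_lit 37182751) (nat_lit 6052088) [(nat_lit 1341523),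 (nat_lit 3487791), (nat_lit 6168520)]) (PF.cons (PF.leaf (nat_lit 10699989) (nat_lit 1339914) (nat_lit 36094883) (nat_lit 5981682) [(nat_lit 1339914), (nat_lit 3461097), (nat_lit 6095875)]) (PF.cons (PF.leaf (nat_lit 11298835) (nat_lit 1336045) (nat_lit 35042984) (nat_lit 5907533) [(nat_lit 1336045), (nat_lit 3430938), (nat_lit 6019494)]) (PF.cons (PF.leaf (nat_lit 11886855) (nat_lit 1330249) (nat_lit 34027922) (nat_lit 5830422) [(nat_lit 1330249), (nat_lit 3397885), (nat_lit 5940168)]) (PF.cons (PF.leaf (nat_lit 12463136) (nat_lit 1322814) (nat_lit 33049977) (nat_lit 5751046) [(nat_lit 1322814), (nat_lit 3362444),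
 (nat_lit 5858601)]) (PF.cons (PF.leaf (nat_lit 13027047) (nat_lit 1313993) (nat_lit 32108974) (nat_lit 5670016) [(nat_lit 1313993), (nat_lit 3325068), (nat_lit 5775411)]) (PF.cons PF.nil (PF.cons PF.nil PF.nil)))))))))))))) (PF.cons (PF.cons (PF.leaf (nat_lit 7572843) (nat_lit 3524032) (nat_lit 41114707) (nat_lit 6232670) [(nat_lit 0), (nat_lit 3524032), (nat_lit 6356685)]) (PF.cons (PF.leaf (nat_lit 8179120) (nat_lit 1316906) (nat_lit 39959754) (nat_lit 6185082) [(nat_lit 1316906), (nat_lit 3516570), (nat_lit 6306963)]) (PF.cons (PF.leaf (nat_lit 8788069) (nat_lit 1324615) (nat_lit 38822469) (nat_lit 6130413) [(nat_lit 1324615), (nat_lit 3503226), (nat_lit 6250123)]) (PF.cons (PF.leaf (nat_lit 9395775) (nat_lit 1328765) (nat_lit 37709198) (nat_lit 6069632) [(nat_lit 1328765), (nat_lit 3484697), (nat_lit 6187145)]) (PF.cons (PF.leaf (nat_lit 9999247) (nat_lit 1329868) (nat_lit 36624373) (nat_lit 6003675) [(nat_lit 1329868), (nat_lit 3461664), (nat_lit 6118980)]) (PF.cons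 (PF.leaf (nat_lit 10596161) (nat_lit 1328363) (nat_lit 35571001) (nat_lit 5933424) [(nat_lit 1328363), (nat_lit 3434764), (nat_lit 6046521)]) (PF.cons (PF.leaf (nat_lit 11184732) (nat_lit 1324627) (nat_lit
 34551013) (nat_lit 5859688) [(nat_lit 1324627), (nat_lit 3404586), (nat_lit 5970586)]) (PF.cons (PF.leaf (nat_lit 11763596) (nat_lit 1318991) (nat_lit 33565518) (nat_lit 5783198) [(nat_lit 1318991), (nat_lit 3371664), (nat_lit 5891914)]) (PF.cons (PF.leaf (nat_lit 12331749) (nat_lit 1311739) (nat_lit 32614999) (nat_lit 5704606) [(nat_lit 1311739), (nat_lit 3336478), (nat_lit 5811166)]) (PF.cons (PF.leaf (nat_lit 12888456) (nat_lit 1303124) (nat_lit 31699458) (nat_lit 5624487) [(nat_lit 1303124), (nat_lit 3299453), (nat_lit 5728921)]) (PF.cons (PF.leaf (nat_lit 13433213) (nat_lit 1293361) (nat_lit 30818538) (nat_lit 5543345) [(nat_lit 1293361), (nat_lit 3260967), (nat_lit 5645687)]) (PF.cons PF.nil PF.nil)))))))))))) (PF.cons (PF.cons (PF.leaf (nat_lit 8728417) (nat_lit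 3477651) (nat_lit 38193171) (nat_lit 6081885) [(nat_lit 0), (nat_lit 3477651), (nat_lit 6200400)]) (PF.cons (PF.leaf (nat_lit 9320862) (nat_lit 1316567) (nat_lit 37121259) (nat_lit 6020842) [(nat_lit 1316567), (nat_lit 3458585), (nat_lit 6137194)]) (PF.cons (PF.leaf (nat_lit 9910963) (nat_lit 1317868) (nat_lit 36074098) (nat_lit 5954949) [(nat_lit 1317868), (nat_lit 3435257), (nat_lit 6069127)]) (PF.cons (PF.leaf
 (nat_lit 10496072) (nat_lit 1316559) (nat_lit 35055237) (nat_lit 5885032) [(nat_lit 1316559), (nat_lit 3408263), (nat_lit 5997036)]) (PF.cons (PF.leaf (nat_lit 11074191) (nat_lit 1313027) (nat_lit 34067004) (nat_lit 5811849) [(nat_lit 1313027), (nat_lit 3378156), (nat_lit 5921689)]) (PF.cons (PF.leaf (nat_lit 11643795) (nat_lit 1307606) (nat_lit 33110813) (nat_lit 5736088) [(nat_lit 1307606), (nat_lit 3345437), (nat_lit 5843782)]) (PF.cons (PF.leaf (nat_lit 12203739) (nat_lit 1300583) (nat_lit 32187391) (nat_lit 5658364) [(nat_lit 1300583), (nat_lit 3310561),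 (nat_lit 5763936)]) (PF.cons (PF.leaf (nat_lit 12753181) (nat_lit 1292206) (nat_lit 31296950) (nat_lit 5579220) [(nat_lit 1292206), (nat_lit 3273932), (nat_lit 5682700)]) (PF.cons (PF.leaf (nat_lit 13291520) (nat_lit 1282692) (nat_lit 30439306) (nat_lit 5499132) [(nat_lit 1282692), (nat_lit 3235908), (nat_lit 5600555)]) (PF.cons PF.nil PF.nil)))))))))) (PF.cons (PF.cons (PF.leaf (nat_lit 9827398) (nat_lit 3408560) (nat_lit 35530835) (nat_lit 5905878) [(nat_lit 0), (nat_lit 3408560), (nat_lit 6018928)]) (PF.cons (PF.leaf (nat_lit 10400236) (nat_lit 1304467) (nat_lit 34546726) (nat_lit 5836480) [(nat_lit 1304467), (nat_lit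
 3381587), (nat_lit 5947394)]) (PF.cons (PF.leaf (nat_lit 10967612) (nat_lit 1301220) (nat_lit 33590251) (nat_lit 5763994) [(nat_lit 1301220), (nat_lit 3351640), (nat_lit 5872782)]) (PF.cons (PF.leaf (nat_lit 11527749) (nat_lit 1296076) (nat_lit 32663219) (nat_lit 5689073) [(nat_lit 1296076), (nat_lit 3319197), (nat_lit 5795751)]) (PF.cons (PF.leaf (nat_lit 12079335) (nat_lit 1289328) (nat_lit 31766659) (nat_lit 5612301) [(nat_lit 1289328), (nat_lit 3284687), (nat_lit 5716893)]) (PF.cons (PF.leaf (nat_lit 12621399) (nat_lit 1281227) (nat_lit 30901025) (nat_lit 5534196) [(nat_lit 1281227), (nat_lit 3248497), (nat_lit 5636731)]) (PF.cons (PF.leaf (nat_lit 13153225) (nat_lit 1271990) (nat_lit 30066335) (nat_lit 5455209) [(nat_lit 1271990), (nat_lit 3210968), (nat_lit 5555722)]) (PF.cons PF.nil PF.nil)))))))) (PF.cons (PF.cons (PF.leaf (nat_lit 10865516) (nat_lit 3325022) (nat_lit 33119958) (nat_lit 5716089) [(nat_lit 0), (nat_lit 3325022), (nat_lit 5823826)]) (PF.cons (PF.leaf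 (nat_lit 11415819) (nat_lit 1284373) (nat_lit 32222090) (nat_lit 5642124) [(nat_lit 1284373), (nat_lit 3292928), (nat_lit 5747791)]) (PF.cons (PF.leaf (nat_lit 11958815) (nat_lit 1277954) (nat_lit 31352267)
 (nat_lit 5566393) [(nat_lit 1277954), (nat_lit 3258843), (nat_lit 5670012)]) (PF.cons (PF.leaf (nat_lit 12493324) (nat_lit 1270171) (nat_lit 30511233) (nat_lit 5489393) [(nat_lit 1270171), (nat_lit 3223137), (nat_lit 5590991)]) (PF.cons (PF.leaf (nat_lit 13018504) (nat_lit 1261244) (nat_lit 29699243) (nat_lit 5411558) [(nat_lit 1261244), (nat_lit 3186139), (nat_lit 5511168)]) (PF.cons (PF.leaf (nat_lit 13533762) (nat_lit 1251364) (nat_lit 28916187) (nat_lit 5333267) [(nat_lit 1251364), (nat_lit 3148136), (nat_lit 5430926)]) PF.nil)))))) (PF.cons (PF.cons (PF.leaf (nat_lit 11842563) (nat_lit 3233012) (nat_lit 30943622) (nat_lit 5520605) [(nat_lit 0), (nat_lit 3233012), (nat_lit 5623255)]) (PF.cons (PF.leaf (nat_lit 12369214) (nat_lit 1259017) (nat_lit 30127085) (nat_lit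 5444782) [(nat_lit 1259017), (nat_lit 3197837), (nat_lit 5545449)]) (PF.cons (PF.leaf (nat_lit 12887554) (nat_lit 1250436) (nat_lit 29337617) (nat_lit 5368151) [(nat_lit 1250436), (nat_lit 3161405), (nat_lit 5466867)]) (PF.cons (PF.leaf (nat_lit 13396811) (nat_lit 1240887) (nat_lit 28575333) (nat_lit 5291081) [(nat_lit 1240887), (nat_lit 3123995), (nat_lit 5387881)]) PF.nil)))) (PF.cons (PF.cons (PF.leaf (nat_lit
 12760654) (nat_lit 3136752) (nat_lit 28981013) (nat_lit 5324959) [(nat_lit 0), (nat_lit 3136752), (nat_lit 5422787)]) (PF.cons (PF.leaf (nat_lit 13263649) (nat_lit 1230362) (nat_lit 28239353) (nat_lit 5249152) [(nat_lit 1230362), (nat_lit 3099963), (nat_lit 5345099)]) PF.nil)) (PF.cons PF.nil (PF.cons PF.nil (PF.cons PF.nil PF.nil))))))))))) (PF.cons (PF.cons (PF.cons (PF.leaf (nat_lit 6877924) (nat_lit 6223992) (nat_lit 41836890) (nat_lit 6223992) [(nat_lit 0), (nat_lit 0), (nat_lit 6349310)]) (PF.cons (PF.leaf (nat_lit 7468548) (nat_lit 1289043) (nat_lit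 40706574) (nat_lit 6185858) [(nat_lit 1289043), (nat_lit 0), (nat_lit 6309112)]) (PF.cons (PF.leaf (nat_lit 8067953) (nat_lit 1302068) (nat_lit 39582062) (nat_lit 6139799) [(nat_lit 1302068), (nat_lit 0), (nat_lit 6260937)]) (PF.cons (PF.leaf (nat_lit 8670927) (nat_lit 1310753) (nat_lit 38472654) (nat_lit 6086734) [(nat_lit 1310753), (nat_lit 0), (nat_lit 6205721)]) (PF.cons (PF.leaf (nat_lit 9273505) (nat_lit 1315757) (nat_lit 37384939) (nat_lit 6027599) [(nat_lit 1315757), (nat_lit 0), (nat_lit 6144414)]) (PF.cons (PF.leaf (nat_lit 9872598) (nat_lit 1317623) (nat_lit 36323555) (nat_lit 5963310) [(nat_lit 1317623), (nat_lit 0),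
 (nat_lit 6077942)]) (PF.cons (PF.leaf (nat_lit 10465816) (nat_lit 1316809) (nat_lit 35291696) (nat_lit 5894727) [(nat_lit 1316809), (nat_lit 0), (nat_lit 6007177)]) (PF.cons (PF.leaf (nat_lit 11051297) (nat_lit 1313707) (nat_lit 34291456) (nat_lit 5822642) [(nat_lit 1313707), (nat_lit 0), (nat_lit 5932920)]) (PF.cons (PF.leaf (nat_lit 11627618) (nat_lit 1308655) (nat_lit 33324097) (nat_lit 5747774) [(nat_lit 1308655), (nat_lit 0), (nat_lit 5855898)]) (PF.cons (PF.leaf (nat_lit 12193711) (nat_lit 1301948) (nat_lit 32390239) (nat_lit 5670764) [(nat_lit 1301948), (nat_lit 0), (nat_lit 5776758)]) (PF.cons (PF.leaf (nat_lit 12748796) (nat_lit 1293839) (nat_lit 31490012) (nat_lit 5592181) [(nat_lit 1293839), (nat_lit 0), (nat_lit 5696074)]) (PF.cons (PF.leaf (nat_lit 13292325) (nat_lit 1284551) (nat_lit 30623174) (nat_lit 5512522) [(nat_lit 1284551), (nat_lit 0), (nat_lit 5614348)]) (PF.cons PF.nil (PF.cons PF.nil PF.nil)))))))))))))) (PF.cons (PF.cons (PF.leaf (nat_lit 8028206)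 (nat_lit 3462542) (nat_lit 38917056) (nat_lit 6092363) [(nat_lit 0), (nat_lit 3462542), (nat_lit 6212283)]) (PF.cons (PF.leaf (nat_lit 8613675) (nat_lit 1298285) (nat_lit 37852647) (nat_lit 6038693) [(nat_lit
 1298285), (nat_lit 3449692), (nat_lit 6156497)]) (PF.cons (PF.leaf (nat_lit 9201049) (nat_lit 1303552) (nat_lit 36805502) (nat_lit 5979327) [(nat_lit 1303552), (nat_lit 3431899), (nat_lit 6094992)]) (PF.cons (PF.leaf (nat_lit 9786789) (nat_lit 1305647) (nat_lit 35781051) (nat_lit 5915118) [(nat_lit 1305647), (nat_lit 3409795), (nat_lit 6028635)]) (PF.cons (PF.leaf (nat_lit 10368207) (nat_lit 1305051) (nat_lit 34783029) (nat_lit 5846873) [(nat_lit 1305051), (nat_lit 3383976), (nat_lit 5958242)]) (PF.cons (PF.leaf (nat_lit 10943233) (nat_lit 1302167) (nat_lit 33813926) (nat_lit 5775338) [(nat_lit 1302167), (nat_lit 3354996), (nat_lit 5884570)]) (PF.cons (PF.leaf (nat_lit 11510290) (nat_lit 1297341) (nat_lit 32875306) (nat_lit 5701189) [(nat_lit 1297341), (nat_lit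 3323359), (nat_lit 5808302)]) (PF.cons (PF.leaf (nat_lit 12068167) (nat_lit 1290868) (nat_lit 31968031) (nat_lit 5625033) [(nat_lit 1290868), (nat_lit 3289519), (nat_lit 5730050)]) (PF.cons (PF.leaf (nat_lit 12615966) (nat_lit 1283001) (nat_lit 31092433) (nat_lit 5547408) [(nat_lit 1283001), (nat_lit 3253881), (nat_lit 5650358)]) (PF.cons (PF.leaf (nat_lit 13153047) (nat_lit 1273964) (nat_lit 30248444) (nat_lit 5468783)
 [(nat_lit 1273964), (nat_lit 3216802), (nat_lit 5569700)]) (PF.cons PF.nil (PF.cons PF.nil PF.nil)))))))))))) (PF.cons (PF.cons (PF.leaf (nat_lit 9134003) (nat_lit 3405611) (nat_lit 36232157) (nat_lit 5930475) [(nat_lit 0), (nat_lit 3405611), (nat_lit 6044985)]) (PF.cons (PF.leaf (nat_lit 9705694) (nat_lit 1293265) (nat_lit 35245283) (nat_lit 5866581) [(nat_lit 1293265), (nat_lit 3383369), (nat_lit 5978981)]) (PF.cons (PF.leaf (nat_lit 10274878) (nat_lit 1292995) (nat_lit 34281365) (nat_lit 5798857) [(nat_lit 1292995), (nat_lit 3357577), (nat_lit 5909147)])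 (PF.cons (PF.leaf (nat_lit 10839155) (nat_lit 1290413) (nat_lit 33343426) (nat_lit 5728013) [(nat_lit 1290413), (nat_lit 3328760), (nat_lit 5836203)]) (PF.cons (PF.leaf (nat_lit 11396720) (nat_lit 1285875) (nat_lit 32433422) (nat_lit 5654693) [(nat_lit 1285875), (nat_lit 3297397), (nat_lit 5760800)]) (PF.cons (PF.leaf (nat_lit 11946217) (nat_lit 1279684) (nat_lit 31552513) (nat_lit 5579475) [(nat_lit 1279684), (nat_lit 3263919), (nat_lit 5683521)]) (PF.cons (PF.leaf (nat_lit 12486611) (nat_lit 1272098) (nat_lit 30701272) (nat_lit 5502869) [(nat_lit 1272098), (nat_lit 3228713), (nat_lit 5604884)]) (PF.cons (PF.leaf (nat_lit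
 13017149) (nat_lit 1263340) (nat_lit 29879827) (nat_lit 5425327) [(nat_lit 1263340), (nat_lit 3192121), (nat_lit 5525343)]) (PF.cons PF.nil (PF.cons PF.nil PF.nil)))))))))) (PF.cons (PF.cons (PF.leaf (nat_lit 10186508) (nat_lit 3330979) (nat_lit 33785701) (nat_lit 5750634) [(nat_lit 0), (nat_lit 3330979), (nat_lit 5859845)]) (PF.cons (PF.leaf (nat_lit 10739521) (nat_lit 1278406) (nat_lit 32879167) (nat_lit 5680632) [(nat_lit 1278406), (nat_lit 3302419), (nat_lit 5787782)]) (PF.cons (PF.leaf (nat_lit 11287277) (nat_lit 1274229) (nat_lit 31997806) (nat_lit 5608256) [(nat_lit 1274229), (nat_lit 3271402), (nat_lit 5713361)]) (PF.cons (PF.leaf (nat_lit 11828149) (nat_lit 1268375) (nat_lit 31143157) (nat_lit 5534062) [(nat_lit 1268375), (nat_lit 3238343), (nat_lit 5637145)]) (PF.cons (PF.leaf (nat_lit 12360952) (nat_lit 1261112) (nat_lit 30316083) (nat_lit 5458543) [(nat_lit 1261112), (nat_lit 3203614), (nat_lit 5559631)]) (PF.cons (PF.leaf (nat_lit 12884805) (nat_lit 1252666)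 (nat_lit 29516944) (nat_lit 5382132) [(nat_lit 1252666), (nat_lit 3167544), (nat_lit 5481256)]) (PF.cons (PF.leaf (nat_lit 13399067) (nat_lit 1243233) (nat_lit 28745726) (nat_lit 5305206) [(nat_lit 1243233),
 (nat_lit 3130424), (nat_lit 5402402)]) (PF.cons PF.nil PF.nil)))))))) (PF.cons (PF.cons (PF.leaf (nat_lit 11182439) (nat_lit 3245353) (nat_lit 31567732) (nat_lit 5561835) [(nat_lit 0), (nat_lit 3245353), (nat_lit 5665944)]) (PF.cons (PF.leaf (nat_lit 11714295) (nat_lit 1256914) (nat_lit 30739378) (nat_lit 5488761) [(nat_lit 1256914), (nat_lit 3212774), (nat_lit 5590886)]) (PF.cons (PF.leaf (nat_lit 12239251) (nat_lit 1250022) (nat_lit 29936384) (nat_lit 5414401) [(nat_lit 1250022), (nat_lit 3178569), (nat_lit 5514567)]) (PF.cons (PF.leaf (nat_lit 12756221) (nat_lit 1241926) (nat_lit 29159389) (nat_lit 5339174) [(nat_lit 1241926), (nat_lit 3143057), (nat_lit 5437412)]) (PF.cons (PF.leaf (nat_lit 13264434) (nat_lit 1232826) (nat_lit 28408599) (nat_lit 5263448) [(nat_lit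 1232826), (nat_lit 3106520), (nat_lit 5359792)]) (PF.cons PF.nil PF.nil)))))) (PF.cons (PF.cons (PF.leaf (nat_lit 12121860) (nat_lit 3153560) (nat_lit 29561639) (nat_lit 5370405) [(nat_lit 0), (nat_lit 3153560), (nat_lit 5469655)]) (PF.cons (PF.leaf (nat_lit 12631619) (nat_lit 1231098) (nat_lit 28806722) (nat_lit 5296422) [(nat_lit 1231098), (nat_lit 3118645), (nat_lit 5393781)]) (PF.cons (PF.leaf (nat_lit 13133573)
 (nat_lit 1222365) (nat_lit 28076224) (nat_lit 5221938) [(nat_lit 1222365), (nat_lit 3082720), (nat_lit 5317438)]) (PF.cons PF.nil PF.nil)))) (PF.cons (PF.cons (PF.leaf (nat_lit 13006756) (nat_lit 3059007) (nat_lit 27748200) (nat_lit 5180645) [(nat_lit 0), (nat_lit 3059007), (nat_lit 5275307)]) (PF.cons PF.nil PF.nil)) (PF.cons PF.nil (PF.cons PF.nil (PF.cons PF.nil PF.nil)))))))))) (PF.cons (PF.cons (PF.cons (PF.leaf (nat_lit 8452339) (nat_lit 5947178) (nat_lit 36909253) (nat_lit 5947178) [(nat_lit 0), (nat_lit 0), (nat_lit 6063095)]) (PF.cons (PF.leaf (nat_lit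 9018319) (nat_lit 1277576) (nat_lit 35927754) (nat_lit 5889622) [(nat_lit 1277576), (nat_lit 0), (nat_lit 6003464)]) (PF.cons (PF.leaf (nat_lit 9585657) (nat_lit 1280929) (nat_lit 34962681) (nat_lit 5827447) [(nat_lit 1280929), (nat_lit 0), (nat_lit 5939205)]) (PF.cons (PF.leaf (nat_lit 10151116) (nat_lit 1281435) (nat_lit 34018740) (nat_lit 5761413) [(nat_lit 1281435), (nat_lit 0), (nat_lit 5871087)]) (PF.cons (PF.leaf (nat_lit 10712261) (nat_lit 1279546) (nat_lit 33099125) (nat_lit 5692220) [(nat_lit 1279546), (nat_lit 0), (nat_lit 5799820)]) (PF.cons (PF.leaf (nat_lit 11267233) (nat_lit 1275635) (nat_lit 32205943)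
 (nat_lit 5620504) [(nat_lit 1275635), (nat_lit 0), (nat_lit 5726046)]) (PF.cons (PF.leaf (nat_lit 11814601) (nat_lit 1270016) (nat_lit 31340491) (nat_lit 5546838) [(nat_lit 1270016), (nat_lit 0), (nat_lit 5650345)]) (PF.cons (PF.leaf (nat_lit 12353294) (nat_lit 1262956) (nat_lit 30503462) (nat_lit 5471730) [(nat_lit 1262956), (nat_lit 0), (nat_lit 5573230)]) (PF.cons (PF.leaf (nat_lit 12882505) (nat_lit 1254685) (nat_lit 29695094) (nat_lit 5395626) [(nat_lit 1254685), (nat_lit 0), (nat_lit 5495151)]) (PF.cons PF.nil (PF.cons PF.nil (PF.cons PF.nil PF.nil)))))))))))) (PF.cons (PF.cons (PF.leaf (nat_lit 9512766) (nat_lit 3331673) (nat_lit 34439384) (nat_lit 5779031) [(nat_lit 0), (nat_lit 3331673), (nat_lit 5889680)]) (PF.cons (PF.leaf (nat_lit 10065240) (nat_lit 1269046) (nat_lit 33529524) (nat_lit 5713713) [(nat_lit 1269046), (nat_lit 3307247), (nat_lit 5822320)]) (PF.cons (PF.leaf (nat_lit 10615138) (nat_lit 1267575) (nat_lit 32640763) (nat_lit 5645354) [(nat_lit 1267575),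 (nat_lit 3279841), (nat_lit 5751925)]) (PF.cons (PF.leaf (nat_lit 11160262) (nat_lit 1264039) (nat_lit 31775720) (nat_lit 5574570) [(nat_lit 1264039), (nat_lit 3249918), (nat_lit 5679121)]) (PF.cons (PF.leaf
 (nat_lit 11698976) (nat_lit 1258767) (nat_lit 30936067) (nat_lit 5501913) [(nat_lit 1258767), (nat_lit 3217896), (nat_lit 5604466)]) (PF.cons (PF.leaf (nat_lit 12230039) (nat_lit 1252036) (nat_lit 30122784) (nat_lit 5427873) [(nat_lit 1252036), (nat_lit 3184151), (nat_lit 5528455)]) (PF.cons (PF.leaf (nat_lit 12752526) (nat_lit 1244081) (nat_lit 29336338) (nat_lit 5352881) [(nat_lit 1244081), (nat_lit 3149013), (nat_lit 5451523)]) (PF.cons (PF.leaf (nat_lit 13265749) (nat_lit 1235101) (nat_lit 28576814) (nat_lit 5277313) [(nat_lit 1235101), (nat_lit 3112778), (nat_lit 5374049)]) (PF.cons PF.nil (PF.cons PF.nil PF.nil)))))))))) (PF.cons (PF.cons (PF.leaf (nat_lit 10523120) (nat_lit 3253632) (nat_lit 32187510) (nat_lit 5598372) [(nat_lit 0), (nat_lit 3253632), (nat_lit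 5703916)]) (PF.cons (PF.leaf (nat_lit 11057857) (nat_lit 1252216) (nat_lit 31350851) (nat_lit 5528644) [(nat_lit 1252216), (nat_lit 3224130), (nat_lit 5632209)]) (PF.cons (PF.leaf (nat_lit 11587559) (nat_lit 1247357) (nat_lit 30537050) (nat_lit 5457091) [(nat_lit 1247357), (nat_lit 3192584), (nat_lit 5558696)]) (PF.cons (PF.leaf (nat_lit 12110731) (nat_lit 1241005) (nat_lit 29747445) (nat_lit 5384191) [(nat_lit
 1241005), (nat_lit 3159356), (nat_lit 5483861)]) (PF.cons (PF.leaf (nat_lit 12626287) (nat_lit 1233404) (nat_lit 28982775) (nat_lit 5310364) [(nat_lit 1233404), (nat_lit 3124769), (nat_lit 5408129)]) (PF.cons (PF.leaf (nat_lit 13133417) (nat_lit 1224760) (nat_lit 28243343) (nat_lit 5235975) [(nat_lit 1224760), (nat_lit 3089107), (nat_lit 5331868)]) (PF.cons PF.nil (PF.cons PF.nil PF.nil)))))))) (PF.cons (PF.cons (PF.leaf (nat_lit 11480816) (nat_lit 3167250) (nat_lit 30142780) (nat_lit 5412328) [(nat_lit 0), (nat_lit 3167250), (nat_lit 5512988)]) (PF.cons (PF.leaf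 (nat_lit 11995674) (nat_lit 1229836) (nat_lit 29376912) (nat_lit 5340647) [(nat_lit 1229836), (nat_lit 3134590), (nat_lit 5439410)]) (PF.cons (PF.leaf (nat_lit 12504019) (nat_lit 1222634) (nat_lit 28633968) (nat_lit 5268043) [(nat_lit 1222634), (nat_lit 3100592), (nat_lit 5364938)]) (PF.cons (PF.leaf (nat_lit 13004839) (nat_lit 1214360) (nat_lit 27914508) (nat_lit 5194878) [(nat_lit 1214360), (nat_lit 3065535), (nat_lit 5289935)]) (PF.cons PF.nil (PF.cons PF.nil PF.nil)))))) (PF.cons (PF.cons (PF.leaf (nat_lit 12386072) (nat_lit 3076464) (nat_lit 28289430) (nat_lit 5225882) [(nat_lit 0), (nat_lit 3076464), (nat_lit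
 5321911)]) (PF.cons (PF.leaf (nat_lit 12880237) (nat_lit 1203879) (nat_lit 27589909) (nat_lit 5153988) [(nat_lit 1203879), (nat_lit 3042043), (nat_lit 5248215)]) (PF.cons PF.nil (PF.cons PF.nil PF.nil)))) (PF.cons (PF.cons (PF.leaf (nat_lit 13240717) (nat_lit 2984043) (nat_lit 26609936) (nat_lit 5042399) [(nat_lit 0), (nat_lit 2984043), (nat_lit 5134065)]) (PF.cons PF.nil PF.nil)) (PF.cons PF.nil (PF.cons PF.nil PF.nil)))))))) (PF.cons (PF.cons (PF.cons (PF.leaf (nat_lit 9868111) (nat_lit 5629475) (nat_lit 32797216) (nat_lit 5629475) [(nat_lit 0), (nat_lit 0), (nat_lit 5736424)]) (PF.cons (PF.leaf (nat_lit 10402755) (nat_lit 1244390) (nat_lit 31956955) (nat_lit 5563759) [(nat_lit 1244390), (nat_lit 0), (nat_lit 5668741)]) (PF.cons (PF.leaf (nat_lit 10934824) (nat_lit 1242003) (nat_lit 31135976) (nat_lit 5495616) [(nat_lit 1242003), (nat_lit 0), (nat_lit 5598642)]) (PF.cons (PF.leaf (nat_lit 11462279) (nat_lit 1237757) (nat_lit 30336575) (nat_lit 5425585) [(nat_lit 1237757),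 (nat_lit 0), (nat_lit 5526675)]) (PF.cons (PF.leaf (nat_lit 11983628) (nat_lit 1231960) (nat_lit 29560212) (nat_lit 5354144) [(nat_lit 1231960), (nat_lit 0), (nat_lit 5453323)]) (PF.cons (PF.leaf (nat_lit
 12497731) (nat_lit 1224864) (nat_lit 28807730) (nat_lit 5281712) [(nat_lit 1224864), (nat_lit 0), (nat_lit 5379009)]) (PF.cons (PF.leaf (nat_lit 13003739) (nat_lit 1216684) (nat_lit 28079528) (nat_lit 5208657) [(nat_lit 1216684), (nat_lit 0), (nat_lit 5304103)]) (PF.cons PF.nil PF.nil)))))))) (PF.cons (PF.cons (PF.leaf (nat_lit 10840082) (nat_lit 3177304) (nat_lit 30720528) (nat_lit 5450120) [(nat_lit 0), (nat_lit 3177304), (nat_lit 5552171)]) (PF.cons (PF.leaf (nat_lit 11357917) (nat_lit 1226187) (nat_lit 29946806) (nat_lit 5381283) [(nat_lit 1226187), (nat_lit 3147341), (nat_lit 5481438)]) (PF.cons (PF.leaf (nat_lit 11870946) (nat_lit 1220837) (nat_lit 29193806) (nat_lit 5311043) [(nat_lit 1220837), (nat_lit 3115662), (nat_lit 5409325)]) (PF.cons (PF.leaf (nat_lit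 12377784) (nat_lit 1214147) (nat_lit 28462708) (nat_lit 5239817) [(nat_lit 1214147), (nat_lit 3082587), (nat_lit 5336251)]) (PF.cons (PF.leaf (nat_lit 12877427) (nat_lit 1206341) (nat_lit 27754165) (nat_lit 5167965) [(nat_lit 1206341), (nat_lit 3048401), (nat_lit 5262582)]) (PF.cons PF.nil PF.nil)))))) (PF.cons (PF.cons (PF.leaf (nat_lit 11762958) (nat_lit 3091132) (nat_lit 28831460) (nat_lit 5268025) [(nat_lit 0),
 (nat_lit 3091132), (nat_lit 5365412)]) (PF.cons (PF.leaf (nat_lit 12262094) (nat_lit 1203302) (nat_lit 28121829) (nat_lit 5198071) [(nat_lit 1203302), (nat_lit 3058683), (nat_lit 5293648)]) (PF.cons (PF.leaf (nat_lit 12755078) (nat_lit 1195911) (nat_lit 27432925) (nat_lit 5127472) [(nat_lit 1195911), (nat_lit 3025126), (nat_lit 5221267)]) (PF.cons PF.nil PF.nil)))) (PF.cons (PF.cons (PF.leaf (nat_lit 12637029) (nat_lit 3001904) (nat_lit 27115365) (nat_lit 5087140) [(nat_lit 0), (nat_lit 3001904), (nat_lit 5180118)]) (PF.cons (PF.leaf (nat_lit 13116747) (nat_lit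 1177435) (nat_lit 26465738) (nat_lit 5017484) [(nat_lit 1177435), (nat_lit 2968142), (nat_lit 5108745)]) PF.nil)) (PF.cons PF.nil (PF.cons PF.nil PF.nil)))))) (PF.cons (PF.cons (PF.cons (PF.leaf (nat_lit 11139779) (nat_lit 5306515) (nat_lit 29370815) (nat_lit 5306515) [(nat_lit 0), (nat_lit 0), (nat_lit 5405246)]) (PF.cons (PF.leaf (nat_lit 11641926) (nat_lit 1200520) (nat_lit 28653823) (nat_lit 5238993) [(nat_lit 1200520), (nat_lit 0), (nat_lit 5335912)]) (PF.cons (PF.leaf (nat_lit 12139503) (nat_lit 1194827) (nat_lit 27955602) (nat_lit 5170396) [(nat_lit 1194827), (nat_lit 0), (nat_lit 5265526)]) (PF.cons (PF.leaf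
 (nat_lit 12631210) (nat_lit 1187922) (nat_lit 27277211) (nat_lit 5101089) [(nat_lit 1187922), (nat_lit 0), (nat_lit 5194457)]) (PF.cons PF.nil (PF.cons PF.nil PF.nil)))))) (PF.cons (PF.cons (PF.leaf (nat_lit 12030794) (nat_lit 3017261) (nat_lit 27621777) (nat_lit 5129152) [(nat_lit 0), (nat_lit 3017261), (nat_lit 5223436)]) (PF.cons (PF.leaf (nat_lit 12515336) (nat_lit 1177417) (nat_lit 26962840) (nat_lit 5061138) [(nat_lit 1177417), (nat_lit 2985233), (nat_lit 5153697)]) (PF.cons (PF.leaf (nat_lit 12994067) (nat_lit 1169932) (nat_lit 26322657) (nat_lit 4992691) [(nat_lit 1169932), (nat_lit 2952280), (nat_lit 5083552)]) (PF.cons PF.nil PF.nil)))) (PF.cons (PF.cons (PF.leaf (nat_lit 12876267) (nat_lit 2929970) (nat_lit 26029251) (nat_lit 4954154) [(nat_lit 0), (nat_lit 2929970), (nat_lit 5044244)]) (PF.cons PF.nil PF.nil)) (PF.cons PF.nil PF.nil)))) (PF.cons (PF.cons (PF.cons (PF.leaf (nat_lit 12285949) (nat_lit 4995775) (nat_lit 26503197) (nat_lit 4995775) [(nat_lit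 0), (nat_lit 0), (nat_lit 5087119)]) (PF.cons (PF.leaf (nat_lit 12756893) (nat_lit 1152252) (nat_lit 25890040) (nat_lit 4929827) [(nat_lit 1152252), (nat_lit 0), (nat_lit 5019527)]) PF.nil)) (PF.cons PF.nil PF.nil))
 (PF.cons PF.nil (PF.cons PF.nil (PF.cons PF.nil (PF.cons PF.nil PF.nil))))))))))))

def p15_39_0_0 : pfC (piC [(nat_lit 28473124), (nat_lit 19449108), (nat_lit 12587812)] (nat_lit 12729658)) p15_39_0 (nat_lit 3) (nat_lit 0) (nat_lit 1) = true := by decide +kernel
def p15_39_0_1 : pfC (piC [(nat_lit 28473124), (nat_lit 19449108), (nat_lit 12587812)] (nat_lit 12729658)) p15_39_0 (nat_lit 3) (nat_lit 1) (nat_lit 2) = true := by decide +kernel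
def p15_39_0_2 : pfC (piC [(nat_lit 28473124), (nat_lit 19449108), (nat_lit 12587812)] (nat_lit 12729658)) p15_39_0 (nat_lit 3) (nat_lit 2) (nat_lit 3) = true := by decide +kernel
def p15_39_0_3 : pfC (piC [(nat_lit 28473124), (nat_lit 19449108), (nat_lit 12587812)] (nat_lit 12729658)) p15_39_0 (nat_lit 3) (nat_lit 3) (nat_lit 4) = true := by decide +kernel
def p15_39_0_4 : pfC (piC [(nat_lit 28473124), (nat_lit 19449108), (nat_lit 12587812)] (nat_lit 12729658)) p15_39_0 (nat_lit 3) (nat_lit 4) (nat_lit 5) = true := by decide +kernel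
def p15_39_0_5 : pfC (piC [(nat_lit 28473124), (nat_lit 19449108), (nat_lit 12587812)] (nat_lit 12729658)) p15_39_0 (nat_lit 3) (nat_lit 5) (nat_lit 6) = true := by decide +kernel
def p15_39_0_6 : pfC (piC [(nat_lit 28473124), (nat_lit 19449108), (nat_lit 12587812)] (nat_lit 12729658)) p15_39_0 (nat_lit 3) (nat_lit 6) (nat_lit 7) = true := by decide +kernel
def p15_39_0_7 : pfC (piC [(nat_lit 28473124), (nat_lit 19449108), (nat_lit 12587812)] (nat_lit 12729658)) p15_39_0 (nat_lit 3) (nat_lit 7) (nat_lit 8) = true := by decide +kernel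
def p15_39_0_8 : pfC (piC [(nat_lit 28473124), (nat_lit 19449108), (nat_lit 12587812)] (nat_lit 12729658)) p15_39_0 (nat_lit 3) (nat_lit 8) (nat_lit 9) = true := by decide +kernel
def p15_39_0_9 : pfC (piC [(nat_lit 28473124), (nat_lit 19449108), (nat_lit 12587812)] (nat_lit 12729658)) p15_39_0 (nat_lit 3) (nat_lit 9) (nat_lit 10) = true := by decide +kernel
def p15_39_0_10 : pfC (piC [(nat_lit 28473124), (nat_lit 19449108), (nat_lit 12587812)] (nat_lit 12729658)) p15_39_0 (nat_lit 3) (nat_lit 10) (nat_lit 11) = true := by decide +kernel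
def p15_39_0_11 : pfC (piC [(nat_lit 28473124), (nat_lit 19449108), (nat_lit 12587812)] (nat_lit 12729658)) p15_39_0 (nat_lit 3) (nat_lit 11) (nat_lit 12) = true := by decide +kernel
def p15_39_0_12 : pfC (piC [(nat_lit 28473124), (nat_lit 19449108), (nat_lit 12587812)] (nat_lit 12729658)) p15_39_0 (nat_lit 3) (nat_lit 12) (nat_lit 13) = true := by decide +kernel
def p15_39_0_13 : pfC (piC [(nat_lit 28473124), (nat_lit 19449108), (nat_lit 12587812)] (nat_lit 12729658)) p15_39_0 (nat_lit 3) (nat_lit 13) (nat_lit 14) = true := by decide +kernel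
def p15_39_0_14 : pfC (piC [(nat_lit 28473124), (nat_lit 19449108), (nat_lit 12587812)] (nat_lit 12729658)) p15_39_0 (nat_lit 3) (nat_lit 14) (nat_lit 15) = true := by decide +kernel
def p15_39_0_15 : pfC (piC [(nat_lit 28473124), (nat_lit 19449108), (nat_lit 12587812)] (nat_lit 12729658)) p15_39_0 (nat_lit 3) (nat_lit 15) (nat_lit 16) = true := by decide +kernel
def p15_39_0_16 : pfC (piC [(nat_lit 28473124), (nat_lit 19449108), (nat_lit 12587812)] (nat_lit 12729658)) p15_39_0 (nat_lit 3) (nat_lit 16) (nat_lit 17) = true := by decide +kernel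
def p15_39_0_17 : pfC (piC [(nat_lit 28473124), (nat_lit 19449108), (nat_lit 12587812)] (nat_lit 12729658)) p15_39_0 (nat_lit 3) (nat_lit 17) (nat_lit 18) = true := by decide +kernel
def p15_39_0_18 : pfC (piC [(nat_lit 28473124), (nat_lit 19449108), (nat_lit 12587812)] (nat_lit 12729658)) p15_39_0 (nat_lit 3) (nat_lit 18) (nat_lit 19) = true := by decide +kernel
def p15_39_0_19 : pfC (piC [(nat_lit 28473124), (nat_lit 19449108), (nat_lit 12587812)] (nat_lit 12729658)) p15_39_0 (nat_lit 3) (nat_lit 19) (nat_lit 20) = true := by decide +kernel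
def p15_39_0_20 : pfC (piC [(nat_lit 28473124), (nat_lit 19449108), (nat_lit 12587812)] (nat_lit 12729658)) p15_39_0 (nat_lit 3) (nat_lit 20) (nat_lit 21) = true := by decide +kernel
def p15_39_0_21 : pfC (piC [(nat_lit 28473124), (nat_lit 19449108), (nat_lit 12587812)] (nat_lit 12729658)) p15_39_0 (nat_lit 3) (nat_lit 21) (nat_lit 22) = true := by decide +kernel
def p15_39_0_22 : pfC (piC [(nat_lit 28473124), (nat_lit 19449108), (nat_lit 12587812)] (nat_lit 12729658)) p15_39_0 (nat_lit 3) (nat_lit 22) (nat_lit 23) = true := by decide +kernel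
def p15_39_0_23 : pfC (piC [(nat_lit 28473124), (nat_lit 19449108), (nat_lit 12587812)] (nat_lit 12729658)) p15_39_0 (nat_lit 3) (nat_lit 23) (nat_lit 24) = true := by decide +kernel
def p15_39_0_24 : pfC (piC [(nat_lit 28473124), (nat_lit 19449108), (nat_lit 12587812)] (nat_lit 12729658)) p15_39_0 (nat_lit 3) (nat_lit 24) (nat_lit 25) = true := by decide +kernel
def p15_39_0_25 : pfC (piC [(nat_lit 28473124), (nat_lit 19449108), (nat_lit 12587812)] (nat_lit 12729658)) p15_39_0 (nat_lit 3) (nat_lit 25) (nat_lit 26) = true := by decide +kernel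
def p15_39_0_26 : pfC (piC [(nat_lit 28473124), (nat_lit 19449108), (nat_lit 12587812)] (nat_lit 12729658)) p15_39_0 (nat_lit 3) (nat_lit 26) (nat_lit 27) = true := by decide +kernel
def p15_39_0_27 : pfC (piC [(nat_lit 28473124), (nat_lit 19449108), (nat_lit 12587812)] (nat_lit 12729658)) p15_39_0 (nat_lit 3) (nat_lit 27) (nat_lit 28) = true := by decide +kernel
def p15_39_0_28 : pfC (piC [(nat_lit 28473124), (nat_lit 19449108), (nat_lit 12587812)] (nat_lit 12729658)) p15_39_0 (nat_lit 3) (nat_lit 28) (nat_lit 29) = true := by decide +kernel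
def p15_39_0_29 : pfC (piC [(nat_lit 28473124), (nat_lit 19449108), (nat_lit 12587812)] (nat_lit 12729658)) p15_39_0 (nat_lit 3) (nat_lit 29) (nat_lit 30) = true := by decide +kernel
def p15_39_0_30 : pfC (piC [(nat_lit 28473124), (nat_lit 19449108), (nat_lit 12587812)] (nat_lit 12729658)) p15_39_0 (nat_lit 3) (nat_lit 30) (nat_lit 31) = true := by decide +kernel
def p15_39_0_31 : pfC (piC [(nat_lit 28473124), (nat_lit 19449108), (nat_lit 12587812)] (nat_lit 12729658)) p15_39_0 (nat_lit 3) (nat_lit 31) (nat_lit 32) = true := by decide +kernel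
def p15_39_0_32 : pfC (piC [(nat_lit 28473124), (nat_lit 19449108), (nat_lit 12587812)] (nat_lit 12729658)) p15_39_0 (nat_lit 3) (nat_lit 32) (nat_lit 33) = true := by decide +kernel
def p15_39_0_33 : pfC (piC [(nat_lit 28473124), (nat_lit 19449108), (nat_lit 12587812)] (nat_lit 12729658)) p15_39_0 (nat_lit 3) (nat_lit 33) (nat_lit 34) = true := by decide +kernel
def p15_39_0_34 : pfC (piC [(nat_lit 28473124), (nat_lit 19449108), (nat_lit 12587812)] (nat_lit 12729658)) p15_39_0 (nat_lit 3) (nat_lit 34) (nat_lit 35) = true := by decide +kernel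
def p15_39_0_35 : pfC (piC [(nat_lit 28473124), (nat_lit 19449108), (nat_lit 12587812)] (nat_lit 12729658)) p15_39_0 (nat_lit 3) (nat_lit 35) (nat_lit 36) = true := by decide +kernel
def p15_39_0_36 : pfC (piC [(nat_lit 28473124), (nat_lit 19449108), (nat_lit 12587812)] (nat_lit 12729658)) p15_39_0 (nat_lit 3) (nat_lit 36) (nat_lit 37) = true := by decide +kernel
def p15_39_0_37 : pfC (piC [(nat_lit 28473124), (nat_lit 19449108), (nat_lit 12587812)] (nat_lit 12729658)) p15_39_0 (nat_lit 3) (nat_lit 37) (nat_lit 38) = true := by decide +kernel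
def p15_39_0_38 : pfC (piC [(nat_lit 28473124), (nat_lit 19449108), (nat_lit 12587812)] (nat_lit 12729658)) p15_39_0 (nat_lit 3) (nat_lit 38) (nat_lit 39) = true := by decide +kernel
def p15_39_0_39 : pfC (piC [(nat_lit 28473124), (nat_lit 19449108), (nat_lit 12587812)] (nat_lit 12729658)) p15_39_0 (nat_lit 3) (nat_lit 39) (nat_lit 40) = true := by decide +kernel
def p15_39_0_40 : pfC (piC [(nat_lit 28473124), (nat_lit 19449108), (nat_lit 12587812)] (nat_lit 12729658)) p15_39_0 (nat_lit 3) (nat_lit 40) (nat_lit 41) = true := by decide +kernel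
def p15_39_0_41 : pfC (piC [(nat_lit 28473124), (nat_lit 19449108), (nat_lit 12587812)] (nat_lit 12729658)) p15_39_0 (nat_lit 3) (nat_lit 41) (nat_lit 42) = true := by decide +kernel
def p15_39_0_42 : pfC (piC [(nat_lit 28473124), (nat_lit 19449108), (nat_lit 12587812)] (nat_lit 12729658)) p15_39_0 (nat_lit 3) (nat_lit 42) (nat_lit 43) = true := by decide +kernel
def p15_39_0_43 : pfC (piC [(nat_lit 28473124), (nat_lit 19449108), (nat_lit 12587812)] (nat_lit 12729658)) p15_39_0 (nat_lit 3) (nat_lit 43) (nat_lit 44) = true := by decide +kernel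
def p15_39_0_44 : pfC (piC [(nat_lit 28473124), (nat_lit 19449108), (nat_lit 12587812)] (nat_lit 12729658)) p15_39_0 (nat_lit 3) (nat_lit 44) (nat_lit 45) = true := by decide +kernel
def p15_39_0_45 : pfC (piC [(nat_lit 28473124), (nat_lit 19449108), (nat_lit 12587812)] (nat_lit 12729658)) p15_39_0 (nat_lit 3) (nat_lit 45) (nat_lit 46) = true := by decide +kernel
def p15_39_0_46 : pfC (piC [(nat_lit 28473124), (nat_lit 19449108), (nat_lit 12587812)] (nat_lit 12729658)) p15_39_0 (nat_lit 3) (nat_lit 46) (nat_lit 47) = true := by decide +kernel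
def p15_39_0_47 : pfC (piC [(nat_lit 28473124), (nat_lit 19449108), (nat_lit 12587812)] (nat_lit 12729658)) p15_39_0 (nat_lit 3) (nat_lit 47) (nat_lit 48) = true := by decide +kernel
def p15_39_0_48 : pfC (piC [(nat_lit 28473124), (nat_lit 19449108), (nat_lit 12587812)] (nat_lit 12729658)) p15_39_0 (nat_lit 3) (nat_lit 48) (nat_lit 49) = true := by decide +kernel
def p15_39_0_49 : pfC (piC [(nat_lit 28473124), (nat_lit 19449108), (nat_lit 12587812)] (nat_lit 12729658)) p15_39_0 (nat_lit 3) (nat_lit 49) (nat_lit 50) = true := by decide +kernel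
def p15_39_0_50 : pfC (piC [(nat_lit 28473124), (nat_lit 19449108), (nat_lit 12587812)] (nat_lit 12729658)) p15_39_0 (nat_lit 3) (nat_lit 50) (nat_lit 51) = true := by decide +kernel
def p15_39_0_51 : pfC (piC [(nat_lit 28473124), (nat_lit 19449108), (nat_lit 12587812)] (nat_lit 12729658)) p15_39_0 (nat_lit 3) (nat_lit 51) (nat_lit 52) = true := by decide +kernel
def p15_39_0_52 : pfC (piC [(nat_lit 28473124), (nat_lit 19449108), (nat_lit 12587812)] (nat_lit 12729658)) p15_39_0 (nat_lit 3) (nat_lit 52) (nat_lit 53) = true := by decide +kernel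
def p15_39_0_53 : pfC (piC [(nat_lit 28473124), (nat_lit 19449108), (nat_lit 12587812)] (nat_lit 12729658)) p15_39_0 (nat_lit 3) (nat_lit 53) (nat_lit 54) = true := by decide +kernel
def p15_39_0_54 : pfC (piC [(nat_lit 28473124), (nat_lit 19449108), (nat_lit 12587812)] (nat_lit 12729658)) p15_39_0 (nat_lit 3) (nat_lit 54) (nat_lit 55) = true := by decide +kernel
def p15_39_0_55 : pfC (piC [(nat_lit 28473124), (nat_lit 19449108), (nat_lit 12587812)] (nat_lit 12729658)) p15_39_0 (nat_lit 3) (nat_lit 55) (nat_lit 56) = true := by decide +kernel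
def p15_39_0_56 : pfC (piC [(nat_lit 28473124), (nat_lit 19449108), (nat_lit 12587812)] (nat_lit 12729658)) p15_39_0 (nat_lit 3) (nat_lit 56) (nat_lit 57) = true := by decide +kernel
def p15_39_0_57 : pfC (piC [(nat_lit 28473124), (nat_lit 19449108), (nat_lit 12587812)] (nat_lit 12729658)) p15_39_0 (nat_lit 3) (nat_lit 57) (nat_lit 58) = true := by decide +kernel
def p15_39_0_58 : pfC (piC [(nat_lit 28473124), (nat_lit 19449108), (nat_lit 12587812)] (nat_lit 12729658)) p15_39_0 (nat_lit 3) (nat_lit 58) (nat_lit 59) = true := by decide +kernel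
def p15_39_0_59 : pfC (piC [(nat_lit 28473124), (nat_lit 19449108), (nat_lit 12587812)] (nat_lit 12729658)) p15_39_0 (nat_lit 3) (nat_lit 59) (nat_lit 60) = true := by decide +kernel
def p15_39_0_60 : pfC (piC [(nat_lit 28473124), (nat_lit 19449108), (nat_lit 12587812)] (nat_lit 12729658)) p15_39_0 (nat_lit 3) (nat_lit 60) (nat_lit 61) = true := by decide +kernel
def p15_39_0_61 : pfC (piC [(nat_lit 28473124), (nat_lit 19449108), (nat_lit 12587812)] (nat_lit 12729658)) p15_39_0 (nat_lit 3) (nat_lit 61) (nat_lit 62) = true := by decide +kernel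
def p15_39_0_62 : pfC (piC [(nat_lit 28473124), (nat_lit 19449108), (nat_lit 12587812)] (nat_lit 12729658)) p15_39_0 (nat_lit 3) (nat_lit 62) (nat_lit 63) = true := by decide +kernel
def p15_39_0_63 : pfC (piC [(nat_lit 28473124), (nat_lit 19449108), (nat_lit 12587812)] (nat_lit 12729658)) p15_39_0 (nat_lit 3) (nat_lit 63) (nat_lit 64) = true := by decide +kernel
def p15_39_0_64 : pfC (piC [(nat_lit 28473124), (nat_lit 19449108), (nat_lit 12587812)] (nat_lit 12729658)) p15_39_0 (nat_lit 3) (nat_lit 64) (nat_lit 65) = true := by decide +kernel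
def p15_39_0_65 : pfC (piC [(nat_lit 28473124), (nat_lit 19449108), (nat_lit 12587812)] (nat_lit 12729658)) p15_39_0 (nat_lit 3) (nat_lit 65) (nat_lit 66) = true := by decide +kernel
def p15_39_0_66 : pfC (piC [(nat_lit 28473124), (nat_lit 19449108), (nat_lit 12587812)] (nat_lit 12729658)) p15_39_0 (nat_lit 3) (nat_lit 66) (nat_lit 67) = true := by decide +kernel
def p15_39_0_67 : pfC (piC [(nat_lit 28473124), (nat_lit 19449108), (nat_lit 12587812)] (nat_lit 12729658)) p15_39_0 (nat_lit 3) (nat_lit 67) (nat_lit 68) = true := by decide +kernel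
def p15_39_0_68 : pfC (piC [(nat_lit 28473124), (nat_lit 19449108), (nat_lit 12587812)] (nat_lit 12729658)) p15_39_0 (nat_lit 3) (nat_lit 68) (nat_lit 69) = true := by decide +kernel
def p15_39_0_69 : pfC (piC [(nat_lit 28473124), (nat_lit 19449108), (nat_lit 12587812)] (nat_lit 12729658)) p15_39_0 (nat_lit 3) (nat_lit 69) (nat_lit 70) = true := by decide +kernel
def p15_39_0_70 : pfC (piC [(nat_lit 28473124), (nat_lit 19449108), (nat_lit 12587812)] (nat_lit 12729658)) p15_39_0 (nat_lit 3) (nat_lit 70) (nat_lit 71) = true := by decide +kernel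
def p15_39_0_71 : pfC (piC [(nat_lit 28473124), (nat_lit 19449108), (nat_lit 12587812)] (nat_lit 12729658)) p15_39_0 (nat_lit 3) (nat_lit 71) (nat_lit 72) = true := by decide +kernel
def p15_39_0_72 : pfC (piC [(nat_lit 28473124), (nat_lit 19449108), (nat_lit 12587812)] (nat_lit 12729658)) p15_39_0 (nat_lit 3) (nat_lit 72) (nat_lit 73) = true := by decide +kernel
def p15_39_0_73 : pfC (piC [(nat_lit 28473124), (nat_lit 19449108), (nat_lit 12587812)] (nat_lit 12729658)) p15_39_0 (nat_lit 3) (nat_lit 73) (nat_lit 74) = true := by decide +kernel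
def p15_39_0_74 : pfC (piC [(nat_lit 28473124), (nat_lit 19449108), (nat_lit 12587812)] (nat_lit 12729658)) p15_39_0 (nat_lit 3) (nat_lit 74) (nat_lit 75) = true := by decide +kernel
def p15_39_0_75 : pfC (piC [(nat_lit 28473124), (nat_lit 19449108), (nat_lit 12587812)] (nat_lit 12729658)) p15_39_0 (nat_lit 3) (nat_lit 75) (nat_lit 76) = true := by decide +kernel
def p15_39_0_76 : pfC (piC [(nat_lit 28473124), (nat_lit 19449108), (nat_lit 12587812)] (nat_lit 12729658)) p15_39_0 (nat_lit 3) (nat_lit 76) (nat_lit 77) = true := by decide +kernel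
def p15_39_0_77 : pfC (piC [(nat_lit 28473124), (nat_lit 19449108), (nat_lit 12587812)] (nat_lit 12729658)) p15_39_0 (nat_lit 3) (nat_lit 77) (nat_lit 78) = true := by decide +kernel
def p15_39_0_78 : pfC (piC [(nat_lit 28473124), (nat_lit 19449108), (nat_lit 12587812)] (nat_lit 12729658)) p15_39_0 (nat_lit 3) (nat_lit 78) (nat_lit 79) = true := by decide +kernel
def p15_39_0_79 : pfC (piC [(nat_lit 28473124), (nat_lit 19449108), (nat_lit 12587812)] (nat_lit 12729658)) p15_39_0 (nat_lit 3) (nat_lit 79) (nat_lit 80) = true := by decide +kernel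
def p15_39_0_80 : pfC (piC [(nat_lit 28473124), (nat_lit 19449108), (nat_lit 12587812)] (nat_lit 12729658)) p15_39_0 (nat_lit 3) (nat_lit 80) (nat_lit 81) = true := by decide +kernel
def p15_39_0_81 : pfC (piC [(nat_lit 28473124), (nat_lit 19449108), (nat_lit 12587812)] (nat_lit 12729658)) p15_39_0 (nat_lit 3) (nat_lit 81) (nat_lit 82) = true := by decide +kernel
def p15_39_0_82 : pfC (piC [(nat_lit 28473124), (nat_lit 19449108), (nat_lit 12587812)] (nat_lit 12729658)) p15_39_0 (nat_lit 3) (nat_lit 82) (nat_lit 83) = true := by decide +kernel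
def p15_39_0_83 : pfC (piC [(nat_lit 28473124), (nat_lit 19449108), (nat_lit 12587812)] (nat_lit 12729658)) p15_39_0 (nat_lit 3) (nat_lit 83) (nat_lit 84) = true := by decide +kernel
def p15_39_0_84 : pfC (piC [(nat_lit 28473124), (nat_lit 19449108), (nat_lit 12587812)] (nat_lit 12729658)) p15_39_0 (nat_lit 3) (nat_lit 84) (nat_lit 85) = true := by decide +kernel
def p15_39_0_85 : pfC (piC [(nat_lit 28473124), (nat_lit 19449108), (nat_lit 12587812)] (nat_lit 12729658)) p15_39_0 (nat_lit 3) (nat_lit 85) (nat_lit 86) = true := by decide +kernel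
def p15_39_0_86 : pfC (piC [(nat_lit 28473124), (nat_lit 19449108), (nat_lit 12587812)] (nat_lit 12729658)) p15_39_0 (nat_lit 3) (nat_lit 86) (nat_lit 87) = true := by decide +kernel
def p15_39_0_87 : pfC (piC [(nat_lit 28473124), (nat_lit 19449108), (nat_lit 12587812)] (nat_lit 12729658)) p15_39_0 (nat_lit 3) (nat_lit 87) (nat_lit 88) = true := by decide +kernel
def p15_39_0_88 : pfC (piC [(nat_lit 28473124), (nat_lit 19449108), (nat_lit 12587812)] (nat_lit 12729658)) p15_39_0 (nat_lit 3) (nat_lit 88) (nat_lit 89) = true := by decide +kernel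
def p15_39_0_89 : pfC (piC [(nat_lit 28473124), (nat_lit 19449108), (nat_lit 12587812)] (nat_lit 12729658)) p15_39_0 (nat_lit 3) (nat_lit 89) (nat_lit 90) = true := by decide +kernel
def p15_39_0_90 : pfC (piC [(nat_lit 28473124), (nat_lit 19449108), (nat_lit 12587812)] (nat_lit 12729658)) p15_39_0 (nat_lit 3) (nat_lit 90) (nat_lit 91) = true := by decide +kernel
def p15_39_0_91 : pfC (piC [(nat_lit 28473124), (nat_lit 19449108), (nat_lit 12587812)] (nat_lit 12729658)) p15_39_0 (nat_lit 3) (nat_lit 91) (nat_lit 92) = true := by decide +kernel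
def p15_39_0_92 : pfC (piC [(nat_lit 28473124), (nat_lit 19449108), (nat_lit 12587812)] (nat_lit 12729658)) p15_39_0 (nat_lit 3) (nat_lit 92) (nat_lit 93) = true := by decide +kernel
def p15_39_0_93 : pfC (piC [(nat_lit 28473124), (nat_lit 19449108), (nat_lit 12587812)] (nat_lit 12729658)) p15_39_0 (nat_lit 3) (nat_lit 93) (nat_lit 94) = true := by decide +kernel
def p15_39_0_94 : pfC (piC [(nat_lit 28473124), (nat_lit 19449108), (nat_lit 12587812)] (nat_lit 12729658)) p15_39_0 (nat_lit 3) (nat_lit 94) (nat_lit 95) = true := by decide +kernel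
def p15_39_0_95 : pfC (piC [(nat_lit 28473124), (nat_lit 19449108), (nat_lit 12587812)] (nat_lit 12729658)) p15_39_0 (nat_lit 3) (nat_lit 95) (nat_lit 96) = true := by decide +kernel
def p15_39_0_96 : pfC (piC [(nat_lit 28473124), (nat_lit 19449108), (nat_lit 12587812)] (nat_lit 12729658)) p15_39_0 (nat_lit 3) (nat_lit 96) (nat_lit 97) = true := by decide +kernel
def p15_39_0_97 : pfC (piC [(nat_lit 28473124), (nat_lit 19449108), (nat_lit 12587812)] (nat_lit 12729658)) p15_39_0 (nat_lit 3) (nat_lit 97) (nat_lit 98) = true := by decide +kernel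
def p15_39_0_98 : pfC (piC [(nat_lit 28473124), (nat_lit 19449108), (nat_lit 12587812)] (nat_lit 12729658)) p15_39_0 (nat_lit 3) (nat_lit 98) (nat_lit 99) = true := by decide +kernel
def p15_39_0_99 : pfC (piC [(nat_lit 28473124), (nat_lit 19449108), (nat_lit 12587812)] (nat_lit 12729658)) p15_39_0 (nat_lit 3) (nat_lit 99) (nat_lit 100) = true := by decide +kernel
def p15_39_0_100 : pfC (piC [(nat_lit 28473124), (nat_lit 19449108), (nat_lit 12587812)] (nat_lit 12729658)) p15_39_0 (nat_lit 3) (nat_lit 100) (nat_lit 101) = true := by decide +kernel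
def p15_39_0_101 : pfC (piC [(nat_lit 28473124), (nat_lit 19449108), (nat_lit 12587812)] (nat_lit 12729658)) p15_39_0 (nat_lit 3) (nat_lit 101) (nat_lit 102) = true := by decide +kernel
def p15_39_0_102 : pfC (piC [(nat_lit 28473124), (nat_lit 19449108), (nat_lit 12587812)] (nat_lit 12729658)) p15_39_0 (nat_lit 3) (nat_lit 102) (nat_lit 103) = true := by decide +kernel
def p15_39_0_103 : pfC (piC [(nat_lit 28473124), (nat_lit 19449108), (nat_lit 12587812)] (nat_lit 12729658)) p15_39_0 (nat_lit 3) (nat_lit 103) (nat_lit 104) = true := by decide +kernel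
def p15_39_0_104 : pfC (piC [(nat_lit 28473124), (nat_lit 19449108), (nat_lit 12587812)] (nat_lit 12729658)) p15_39_0 (nat_lit 3) (nat_lit 104) (nat_lit 105) = true := by decide +kernel
def p15_39_0_105 : pfC (piC [(nat_lit 28473124), (nat_lit 19449108), (nat_lit 12587812)] (nat_lit 12729658)) p15_39_0 (nat_lit 3) (nat_lit 105) (nat_lit 106) = true := by decide +kernel
def p15_39_0_106 : pfC (piC [(nat_lit 28473124), (nat_lit 19449108), (nat_lit 12587812)] (nat_lit 12729658)) p15_39_0 (nat_lit 3) (nat_lit 106) (nat_lit 107) = true := by decide +kernel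
def p15_39_0_107 : pfC (piC [(nat_lit 28473124), (nat_lit 19449108), (nat_lit 12587812)] (nat_lit 12729658)) p15_39_0 (nat_lit 3) (nat_lit 107) (nat_lit 108) = true := by decide +kernel
def p15_39_0_108 : pfC (piC [(nat_lit 28473124), (nat_lit 19449108), (nat_lit 12587812)] (nat_lit 12729658)) p15_39_0 (nat_lit 3) (nat_lit 108) (nat_lit 109) = true := by decide +kernel
def p15_39_0_109 : pfC (piC [(nat_lit 28473124), (nat_lit 19449108), (nat_lit 12587812)] (nat_lit 12729658)) p15_39_0 (nat_lit 3) (nat_lit 109) (nat_lit 110) = true := by decide +kernel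
def p15_39_0_110 : pfC (piC [(nat_lit 28473124), (nat_lit 19449108), (nat_lit 12587812)] (nat_lit 12729658)) p15_39_0 (nat_lit 3) (nat_lit 110) (nat_lit 111) = true := by decide +kernel
def p15_39_0_111 : pfC (piC [(nat_lit 28473124), (nat_lit 19449108), (nat_lit 12587812)] (nat_lit 12729658)) p15_39_0 (nat_lit 3) (nat_lit 111) (nat_lit 112) = true := by decide +kernel
def p15_39_0_112 : pfC (piC [(nat_lit 28473124), (nat_lit 19449108), (nat_lit 12587812)] (nat_lit 12729658)) p15_39_0 (nat_lit 3) (nat_lit 112) (nat_lit 113) = true := by decide +kernel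
def p15_39_0_113 : pfC (piC [(nat_lit 28473124), (nat_lit 19449108), (nat_lit 12587812)] (nat_lit 12729658)) p15_39_0 (nat_lit 3) (nat_lit 113) (nat_lit 114) = true := by decide +kernel
def p15_39_0_114 : pfC (piC [(nat_lit 28473124), (nat_lit 19449108), (nat_lit 12587812)] (nat_lit 12729658)) p15_39_0 (nat_lit 3) (nat_lit 114) (nat_lit 115) = true := by decide +kernel
def p15_39_0_115 : pfC (piC [(nat_lit 28473124), (nat_lit 19449108), (nat_lit 12587812)] (nat_lit 12729658)) p15_39_0 (nat_lit 3) (nat_lit 115) (nat_lit 116) = true := by decide +kernel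
def p15_39_0_116 : pfC (piC [(nat_lit 28473124), (nat_lit 19449108), (nat_lit 12587812)] (nat_lit 12729658)) p15_39_0 (nat_lit 3) (nat_lit 116) (nat_lit 117) = true := by decide +kernel
def p15_39_0_117 : pfC (piC [(nat_lit 28473124), (nat_lit 19449108), (nat_lit 12587812)] (nat_lit 12729658)) p15_39_0 (nat_lit 3) (nat_lit 117) (nat_lit 118) = true := by decide +kernel
def p15_39_0_118 : pfC (piC [(nat_lit 28473124), (nat_lit 19449108), (nat_lit 12587812)] (nat_lit 12729658)) p15_39_0 (nat_lit 3) (nat_lit 118) (nat_lit 119) = true := by decide +kernel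
def p15_39_0_119 : pfC (piC [(nat_lit 28473124), (nat_lit 19449108), (nat_lit 12587812)] (nat_lit 12729658)) p15_39_0 (nat_lit 3) (nat_lit 119) (nat_lit 120) = true := by decide +kernel
def p15_39_0_120 : pfC (piC [(nat_lit 28473124), (nat_lit 19449108), (nat_lit 12587812)] (nat_lit 12729658)) p15_39_0 (nat_lit 3) (nat_lit 120) (nat_lit 121) = true := by decide +kernel
def p15_39_0_121 : pfC (piC [(nat_lit 28473124), (nat_lit 19449108), (nat_lit 12587812)] (nat_lit 12729658)) p15_39_0 (nat_lit 3) (nat_lit 121) (nat_lit 122) = true := by decide +kernel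
def p15_39_0_122 : pfC (piC [(nat_lit 28473124), (nat_lit 19449108), (nat_lit 12587812)] (nat_lit 12729658)) p15_39_0 (nat_lit 3) (nat_lit 122) (nat_lit 123) = true := by decide +kernel
def p15_39_0_123 : pfC (piC [(nat_lit 28473124), (nat_lit 19449108), (nat_lit 12587812)] (nat_lit 12729658)) p15_39_0 (nat_lit 3) (nat_lit 123) (nat_lit 124) = true := by decide +kernel
def p15_39_0_124 : pfC (piC [(nat_lit 28473124), (nat_lit 19449108), (nat_lit 12587812)] (nat_lit 12729658)) p15_39_0 (nat_lit 3) (nat_lit 124) (nat_lit 125) = true := by decide +kernel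
def p15_39_0_125 : pfC (piC [(nat_lit 28473124), (nat_lit 19449108), (nat_lit 12587812)] (nat_lit 12729658)) p15_39_0 (nat_lit 3) (nat_lit 125) (nat_lit 126) = true := by decide +kernel
def p15_39_0_126 : pfC (piC [(nat_lit 28473124), (nat_lit 19449108), (nat_lit 12587812)] (nat_lit 12729658)) p15_39_0 (nat_lit 3) (nat_lit 126) (nat_lit 127) = true := by decide +kernel
def p15_39_0_127 : pfC (piC [(nat_lit 28473124), (nat_lit 19449108), (nat_lit 12587812)] (nat_lit 12729658)) p15_39_0 (nat_lit 3) (nat_lit 127) (nat_lit 128) = true := by decide +kernel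
def p15_39_0_128 : pfC (piC [(nat_lit 28473124), (nat_lit 19449108), (nat_lit 12587812)] (nat_lit 12729658)) p15_39_0 (nat_lit 3) (nat_lit 128) (nat_lit 129) = true := by decide +kernel
def p15_39_0_129 : pfC (piC [(nat_lit 28473124), (nat_lit 19449108), (nat_lit 12587812)] (nat_lit 12729658)) p15_39_0 (nat_lit 3) (nat_lit 129) (nat_lit 130) = true := by decide +kernel
def p15_39_0_130 : pfC (piC [(nat_lit 28473124), (nat_lit 19449108), (nat_lit 12587812)] (nat_lit 12729658)) p15_39_0 (nat_lit 3) (nat_lit 130) (nat_lit 131) = true := by decide +kernel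
def p15_39_0_131 : pfC (piC [(nat_lit 28473124), (nat_lit 19449108), (nat_lit 12587812)] (nat_lit 12729658)) p15_39_0 (nat_lit 3) (nat_lit 131) (nat_lit 132) = true := by decide +kernel
def p15_39_0_132 : pfC (piC [(nat_lit 28473124), (nat_lit 19449108), (nat_lit 12587812)] (nat_lit 12729658)) p15_39_0 (nat_lit 3) (nat_lit 132) (nat_lit 133) = true := by decide +kernel
def p15_39_0_133 : pfC (piC [(nat_lit 28473124), (nat_lit 19449108), (nat_lit 12587812)] (nat_lit 12729658)) p15_39_0 (nat_lit 3) (nat_lit 133) (nat_lit 134) = true := by decide +kernel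
def p15_39_0_134 : pfC (piC [(nat_lit 28473124), (nat_lit 19449108), (nat_lit 12587812)] (nat_lit 12729658)) p15_39_0 (nat_lit 3) (nat_lit 134) (nat_lit 135) = true := by decide +kernel
def p15_39_0_135 : pfC (piC [(nat_lit 28473124), (nat_lit 19449108), (nat_lit 12587812)] (nat_lit 12729658)) p15_39_0 (nat_lit 3) (nat_lit 135) (nat_lit 136) = true := by decide +kernel
def p15_39_0_136 : pfC (piC [(nat_lit 28473124), (nat_lit 19449108), (nat_lit 12587812)] (nat_lit 12729658)) p15_39_0 (nat_lit 3) (nat_lit 136) (nat_lit 137) = true := by decide +kernel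
def p15_39_0_137 : pfC (piC [(nat_lit 28473124), (nat_lit 19449108), (nat_lit 12587812)] (nat_lit 12729658)) p15_39_0 (nat_lit 3) (nat_lit 137) (nat_lit 138) = true := by decide +kernel
def p15_39_0_138 : pfC (piC [(nat_lit 28473124), (nat_lit 19449108), (nat_lit 12587812)] (nat_lit 12729658)) p15_39_0 (nat_lit 3) (nat_lit 138) (nat_lit 139) = true := by decide +kernel
def p15_39_0_139 : pfC (piC [(nat_lit 28473124), (nat_lit 19449108), (nat_lit 12587812)] (nat_lit 12729658)) p15_39_0 (nat_lit 3) (nat_lit 139) (nat_lit 140) = true := by decide +kernel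
def p15_39_0_140 : pfC (piC [(nat_lit 28473124), (nat_lit 19449108), (nat_lit 12587812)] (nat_lit 12729658)) p15_39_0 (nat_lit 3) (nat_lit 140) (nat_lit 141) = true := by decide +kernel
def p15_39_0_141 : pfC (piC [(nat_lit 28473124), (nat_lit 19449108), (nat_lit 12587812)] (nat_lit 12729658)) p15_39_0 (nat_lit 3) (nat_lit 141) (nat_lit 142) = true := by decide +kernel
def p15_39_0_142 : pfC (piC [(nat_lit 28473124), (nat_lit 19449108), (nat_lit 12587812)] (nat_lit 12729658)) p15_39_0 (nat_lit 3) (nat_lit 142) (nat_lit 143) = true := by decide +kernel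
def p15_39_0_143 : pfC (piC [(nat_lit 28473124), (nat_lit 19449108), (nat_lit 12587812)] (nat_lit 12729658)) p15_39_0 (nat_lit 3) (nat_lit 143) (nat_lit 144) = true := by decide +kernel
def p15_39_0_144 : pfC (piC [(nat_lit 28473124), (nat_lit 19449108), (nat_lit 12587812)] (nat_lit 12729658)) p15_39_0 (nat_lit 3) (nat_lit 144) (nat_lit 145) = true := by decide +kernel
def p15_39_0_145 : pfC (piC [(nat_lit 28473124), (nat_lit 19449108), (nat_lit 12587812)] (nat_lit 12729658)) p15_39_0 (nat_lit 3) (nat_lit 145) (nat_lit 146) = true := by decide +kernel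
def p15_39_0_146 : pfC (piC [(nat_lit 28473124), (nat_lit 19449108), (nat_lit 12587812)] (nat_lit 12729658)) p15_39_0 (nat_lit 3) (nat_lit 146) (nat_lit 147) = true := by decide +kernel
def p15_39_0_147 : pfC (piC [(nat_lit 28473124), (nat_lit 19449108), (nat_lit 12587812)] (nat_lit 12729658)) p15_39_0 (nat_lit 3) (nat_lit 147) (nat_lit 148) = true := by decide +kernel
def p15_39_0_148 : pfC (piC [(nat_lit 28473124), (nat_lit 19449108), (nat_lit 12587812)] (nat_lit 12729658)) p15_39_0 (nat_lit 3) (nat_lit 148) (nat_lit 149) = true := by decide +kernel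
def p15_39_0_149 : pfC (piC [(nat_lit 28473124), (nat_lit 19449108), (nat_lit 12587812)] (nat_lit 12729658)) p15_39_0 (nat_lit 3) (nat_lit 149) (nat_lit 150) = true := by decide +kernel
def p15_39_0_150 : pfC (piC [(nat_lit 28473124), (nat_lit 19449108), (nat_lit 12587812)] (nat_lit 12729658)) p15_39_0 (nat_lit 3) (nat_lit 150) (nat_lit 151) = true := by decide +kernel
def p15_39_0_151 : pfC (piC [(nat_lit 28473124), (nat_lit 19449108), (nat_lit 12587812)] (nat_lit 12729658)) p15_39_0 (nat_lit 3) (nat_lit 151) (nat_lit 152) = true := by decide +kernel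
def p15_39_0_152 : pfC (piC [(nat_lit 28473124), (nat_lit 19449108), (nat_lit 12587812)] (nat_lit 12729658)) p15_39_0 (nat_lit 3) (nat_lit 152) (nat_lit 153) = true := by decide +kernel
def p15_39_0_153 : pfC (piC [(nat_lit 28473124), (nat_lit 19449108), (nat_lit 12587812)] (nat_lit 12729658)) p15_39_0 (nat_lit 3) (nat_lit 153) (nat_lit 154) = true := by decide +kernel
def p15_39_0_154 : pfC (piC [(nat_lit 28473124), (nat_lit 19449108), (nat_lit 12587812)] (nat_lit 12729658)) p15_39_0 (nat_lit 3) (nat_lit 154) (nat_lit 155) = true := by decide +kernel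
def p15_39_0_155 : pfC (piC [(nat_lit 28473124), (nat_lit 19449108), (nat_lit 12587812)] (nat_lit 12729658)) p15_39_0 (nat_lit 3) (nat_lit 155) (nat_lit 156) = true := by decide +kernel
def p15_39_0_156 : pfC (piC [(nat_lit 28473124), (nat_lit 19449108), (nat_lit 12587812)] (nat_lit 12729658)) p15_39_0 (nat_lit 3) (nat_lit 156) (nat_lit 157) = true := by decide +kernel
def p15_39_0_157 : pfC (piC [(nat_lit 28473124), (nat_lit 19449108), (nat_lit 12587812)] (nat_lit 12729658)) p15_39_0 (nat_lit 3) (nat_lit 157) (nat_lit 158) = true := by decide +kernel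
def p15_39_0_158 : pfC (piC [(nat_lit 28473124), (nat_lit 19449108), (nat_lit 12587812)] (nat_lit 12729658)) p15_39_0 (nat_lit 3) (nat_lit 158) (nat_lit 159) = true := by decide +kernel
def p15_39_0_159 : pfC (piC [(nat_lit 28473124), (nat_lit 19449108), (nat_lit 12587812)] (nat_lit 12729658)) p15_39_0 (nat_lit 3) (nat_lit 159) (nat_lit 160) = true := by decide +kernel
def p15_39_0_160 : pfC (piC [(nat_lit 28473124), (nat_lit 19449108), (nat_lit 12587812)] (nat_lit 12729658)) p15_39_0 (nat_lit 3) (nat_lit 160) (nat_lit 161) = true := by decide +kernel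
def p15_39_0_161 : pfC (piC [(nat_lit 28473124), (nat_lit 19449108), (nat_lit 12587812)] (nat_lit 12729658)) p15_39_0 (nat_lit 3) (nat_lit 161) (nat_lit 162) = true := by decide +kernel
def p15_39_0_162 : pfC (piC [(nat_lit 28473124), (nat_lit 19449108), (nat_lit 12587812)] (nat_lit 12729658)) p15_39_0 (nat_lit 3) (nat_lit 162) (nat_lit 163) = true := by decide +kernel
def p15_39_0_163 : pfC (piC [(nat_lit 28473124), (nat_lit 19449108), (nat_lit 12587812)] (nat_lit 12729658)) p15_39_0 (nat_lit 3) (nat_lit 163) (nat_lit 164) = true := by decide +kernel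
def p15_39_0_164 : pfC (piC [(nat_lit 28473124), (nat_lit 19449108), (nat_lit 12587812)] (nat_lit 12729658)) p15_39_0 (nat_lit 3) (nat_lit 164) (nat_lit 165) = true := by decide +kernel
def p15_39_0_165 : pfC (piC [(nat_lit 28473124), (nat_lit 19449108), (nat_lit 12587812)] (nat_lit 12729658)) p15_39_0 (nat_lit 3) (nat_lit 165) (nat_lit 166) = true := by decide +kernel
def p15_39_0_166 : pfC (piC [(nat_lit 28473124), (nat_lit 19449108), (nat_lit 12587812)] (nat_lit 12729658)) p15_39_0 (nat_lit 3) (nat_lit 166) (nat_lit 167) = true := by decide +kernel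
def p15_39_0_167 : pfC (piC [(nat_lit 28473124), (nat_lit 19449108), (nat_lit 12587812)] (nat_lit 12729658)) p15_39_0 (nat_lit 3) (nat_lit 167) (nat_lit 168) = true := by decide +kernel
def p15_39_0_168 : pfC (piC [(nat_lit 28473124), (nat_lit 19449108), (nat_lit 12587812)] (nat_lit 12729658)) p15_39_0 (nat_lit 3) (nat_lit 168) (nat_lit 169) = true := by decide +kernel
def p15_39_0_169 : pfC (piC [(nat_lit 28473124), (nat_lit 19449108), (nat_lit 12587812)] (nat_lit 12729658)) p15_39_0 (nat_lit 3) (nat_lit 169) (nat_lit 170) = true := by decide +kernel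
def p15_39_0_170 : pfC (piC [(nat_lit 28473124), (nat_lit 19449108), (nat_lit 12587812)] (nat_lit 12729658)) p15_39_0 (nat_lit 3) (nat_lit 170) (nat_lit 171) = true := by decide +kernel
def p15_39_0_171 : pfC (piC [(nat_lit 28473124), (nat_lit 19449108), (nat_lit 12587812)] (nat_lit 12729658)) p15_39_0 (nat_lit 3) (nat_lit 171) (nat_lit 172) = true := by decide +kernel
def p15_39_0_172 : pfC (piC [(nat_lit 28473124), (nat_lit 19449108), (nat_lit 12587812)] (nat_lit 12729658)) p15_39_0 (nat_lit 3) (nat_lit 172) (nat_lit 173) = true := by decide +kernel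
def p15_39_0_173 : pfC (piC [(nat_lit 28473124), (nat_lit 19449108), (nat_lit 12587812)] (nat_lit 12729658)) p15_39_0 (nat_lit 3) (nat_lit 173) (nat_lit 174) = true := by decide +kernel
def p15_39_0_174 : pfC (piC [(nat_lit 28473124), (nat_lit 19449108), (nat_lit 12587812)] (nat_lit 12729658)) p15_39_0 (nat_lit 3) (nat_lit 174) (nat_lit 175) = true := by decide +kernel
def p15_39_0_175 : pfC (piC [(nat_lit 28473124), (nat_lit 19449108), (nat_lit 12587812)] (nat_lit 12729658)) p15_39_0 (nat_lit 3) (nat_lit 175) (nat_lit 176) = true := by decide +kernel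
def p15_39_0_176 : pfC (piC [(nat_lit 28473124), (nat_lit 19449108), (nat_lit 12587812)] (nat_lit 12729658)) p15_39_0 (nat_lit 3) (nat_lit 176) (nat_lit 177) = true := by decide +kernel
def p15_39_0_177 : pfC (piC [(nat_lit 28473124), (nat_lit 19449108), (nat_lit 12587812)] (nat_lit 12729658)) p15_39_0 (nat_lit 3) (nat_lit 177) (nat_lit 178) = true := by decide +kernel
def p15_39_0_178 : pfC (piC [(nat_lit 28473124), (nat_lit 19449108), (nat_lit 12587812)] (nat_lit 12729658)) p15_39_0 (nat_lit 3) (nat_lit 178) (nat_lit 179) = true := by decide +kernel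
def p15_39_0_179 : pfC (piC [(nat_lit 28473124), (nat_lit 19449108), (nat_lit 12587812)] (nat_lit 12729658)) p15_39_0 (nat_lit 3) (nat_lit 179) (nat_lit 180) = true := by decide +kernel
def p15_39_0_180 : pfC (piC [(nat_lit 28473124), (nat_lit 19449108), (nat_lit 12587812)] (nat_lit 12729658)) p15_39_0 (nat_lit 3) (nat_lit 180) (nat_lit 181) = true := by decide +kernel
def p15_39_0_181 : pfC (piC [(nat_lit 28473124), (nat_lit 19449108), (nat_lit 12587812)] (nat_lit 12729658)) p15_39_0 (nat_lit 3) (nat_lit 181) (nat_lit 182) = true := by decide +kernel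
def p15_39_0_182 : pfC (piC [(nat_lit 28473124), (nat_lit 19449108), (nat_lit 12587812)] (nat_lit 12729658)) p15_39_0 (nat_lit 3) (nat_lit 182) (nat_lit 183) = true := by decide +kernel
def p15_39_0_183 : pfC (piC [(nat_lit 28473124), (nat_lit 19449108), (nat_lit 12587812)] (nat_lit 12729658)) p15_39_0 (nat_lit 3) (nat_lit 183) (nat_lit 184) = true := by decide +kernel
def p15_39_0_184 : pfC (piC [(nat_lit 28473124), (nat_lit 19449108), (nat_lit 12587812)] (nat_lit 12729658)) p15_39_0 (nat_lit 3) (nat_lit 184) (nat_lit 185) = true := by decide +kernel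
def p15_39_0_185 : pfC (piC [(nat_lit 28473124), (nat_lit 19449108), (nat_lit 12587812)] (nat_lit 12729658)) p15_39_0 (nat_lit 3) (nat_lit 185) (nat_lit 186) = true := by decide +kernel
def p15_39_0_186 : pfC (piC [(nat_lit 28473124), (nat_lit 19449108), (nat_lit 12587812)] (nat_lit 12729658)) p15_39_0 (nat_lit 3) (nat_lit 186) (nat_lit 187) = true := by decide +kernel
def p15_39_0_187 : pfC (piC [(nat_lit 28473124), (nat_lit 19449108), (nat_lit 12587812)] (nat_lit 12729658)) p15_39_0 (nat_lit 3) (nat_lit 187) (nat_lit 188) = true := by decide +kernel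
def p15_39_0_188 : pfC (piC [(nat_lit 28473124), (nat_lit 19449108), (nat_lit 12587812)] (nat_lit 12729658)) p15_39_0 (nat_lit 3) (nat_lit 188) (nat_lit 189) = true := by decide +kernel
def p15_39_0_189 : pfC (piC [(nat_lit 28473124), (nat_lit 19449108), (nat_lit 12587812)] (nat_lit 12729658)) p15_39_0 (nat_lit 3) (nat_lit 189) (nat_lit 190) = true := by decide +kernel
def p15_39_0_190 : pfC (piC [(nat_lit 28473124), (nat_lit 19449108), (nat_lit 12587812)] (nat_lit 12729658)) p15_39_0 (nat_lit 3) (nat_lit 190) (nat_lit 191) = true := by decide +kernel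
def p15_39_0_191 : pfC (piC [(nat_lit 28473124), (nat_lit 19449108), (nat_lit 12587812)] (nat_lit 12729658)) p15_39_0 (nat_lit 3) (nat_lit 191) (nat_lit 192) = true := by decide +kernel
def p15_39_0_192 : pfC (piC [(nat_lit 28473124), (nat_lit 19449108), (nat_lit 12587812)] (nat_lit 12729658)) p15_39_0 (nat_lit 3) (nat_lit 192) (nat_lit 193) = true := by decide +kernel
def p15_39_0_193 : pfC (piC [(nat_lit 28473124), (nat_lit 19449108), (nat_lit 12587812)] (nat_lit 12729658)) p15_39_0 (nat_lit 3) (nat_lit 193) (nat_lit 194) = true := by decide +kernel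
def p15_39_0_194 : pfC (piC [(nat_lit 28473124), (nat_lit 19449108), (nat_lit 12587812)] (nat_lit 12729658)) p15_39_0 (nat_lit 3) (nat_lit 194) (nat_lit 195) = true := by decide +kernel
def p15_39_0_195 : pfC (piC [(nat_lit 28473124), (nat_lit 19449108), (nat_lit 12587812)] (nat_lit 12729658)) p15_39_0 (nat_lit 3) (nat_lit 195) (nat_lit 196) = true := by decide +kernel
def p15_39_0_196 : pfC (piC [(nat_lit 28473124), (nat_lit 19449108), (nat_lit 12587812)] (nat_lit 12729658)) p15_39_0 (nat_lit 3) (nat_lit 196) (nat_lit 197) = true := by decide +kernel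
def p15_39_0_197 : pfC (piC [(nat_lit 28473124), (nat_lit 19449108), (nat_lit 12587812)] (nat_lit 12729658)) p15_39_0 (nat_lit 3) (nat_lit 197) (nat_lit 198) = true := by decide +kernel
def p15_39_0_198 : pfC (piC [(nat_lit 28473124), (nat_lit 19449108), (nat_lit 12587812)] (nat_lit 12729658)) p15_39_0 (nat_lit 3) (nat_lit 198) (nat_lit 199) = true := by decide +kernel
def p15_39_0_199 : pfC (piC [(nat_lit 28473124), (nat_lit 19449108), (nat_lit 12587812)] (nat_lit 12729658)) p15_39_0 (nat_lit 3) (nat_lit 199) (nat_lit 200) = true := by decide +kernel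
def p15_39_0_200 : pfC (piC [(nat_lit 28473124), (nat_lit 19449108), (nat_lit 12587812)] (nat_lit 12729658)) p15_39_0 (nat_lit 3) (nat_lit 200) (nat_lit 201) = true := by decide +kernel
def p15_39_0_201 : pfC (piC [(nat_lit 28473124), (nat_lit 19449108), (nat_lit 12587812)] (nat_lit 12729658)) p15_39_0 (nat_lit 3) (nat_lit 201) (nat_lit 202) = true := by decide +kernel
def p15_39_0_202 : pfC (piC [(nat_lit 28473124), (nat_lit 19449108), (nat_lit 12587812)] (nat_lit 12729658)) p15_39_0 (nat_lit 3) (nat_lit 202) (nat_lit 203) = true := by decide +kernel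
def p15_39_0_203 : pfC (piC [(nat_lit 28473124), (nat_lit 19449108), (nat_lit 12587812)] (nat_lit 12729658)) p15_39_0 (nat_lit 3) (nat_lit 203) (nat_lit 204) = true := by decide +kernel
def p15_39_0_204 : pfC (piC [(nat_lit 28473124), (nat_lit 19449108), (nat_lit 12587812)] (nat_lit 12729658)) p15_39_0 (nat_lit 3) (nat_lit 204) (nat_lit 205) = true := by decide +kernel
def p15_39_0_205 : pfC (piC [(nat_lit 28473124), (nat_lit 19449108), (nat_lit 12587812)] (nat_lit 12729658)) p15_39_0 (nat_lit 3) (nat_lit 205) (nat_lit 206) = true := by decide +kernel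
def p15_39_0_206 : pfC (piC [(nat_lit 28473124), (nat_lit 19449108), (nat_lit 12587812)] (nat_lit 12729658)) p15_39_0 (nat_lit 3) (nat_lit 206) (nat_lit 207) = true := by decide +kernel
def p15_39_0_207 : pfC (piC [(nat_lit 28473124), (nat_lit 19449108), (nat_lit 12587812)] (nat_lit 12729658)) p15_39_0 (nat_lit 3) (nat_lit 207) (nat_lit 208) = true := by decide +kernel
def p15_39_0_208 : pfC (piC [(nat_lit 28473124), (nat_lit 19449108), (nat_lit 12587812)] (nat_lit 12729658)) p15_39_0 (nat_lit 3) (nat_lit 208) (nat_lit 209) = true := by decide +kernel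
def p15_39_0_209 : pfC (piC [(nat_lit 28473124), (nat_lit 19449108), (nat_lit 12587812)] (nat_lit 12729658)) p15_39_0 (nat_lit 3) (nat_lit 209) (nat_lit 210) = true := by decide +kernel
def p15_39_0_210 : pfC (piC [(nat_lit 28473124), (nat_lit 19449108), (nat_lit 12587812)] (nat_lit 12729658)) p15_39_0 (nat_lit 3) (nat_lit 210) (nat_lit 211) = true := by decide +kernel
def p15_39_0_211 : pfC (piC [(nat_lit 28473124), (nat_lit 19449108), (nat_lit 12587812)] (nat_lit 12729658)) p15_39_0 (nat_lit 3) (nat_lit 211) (nat_lit 212) = true := by decide +kernel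
def p15_39_0_212 : pfC (piC [(nat_lit 28473124), (nat_lit 19449108), (nat_lit 12587812)] (nat_lit 12729658)) p15_39_0 (nat_lit 3) (nat_lit 212) (nat_lit 213) = true := by decide +kernel
def p15_39_0_213 : pfC (piC [(nat_lit 28473124), (nat_lit 19449108), (nat_lit 12587812)] (nat_lit 12729658)) p15_39_0 (nat_lit 3) (nat_lit 213) (nat_lit 214) = true := by decide +kernel
def p15_39_0_214 : pfC (piC [(nat_lit 28473124), (nat_lit 19449108), (nat_lit 12587812)] (nat_lit 12729658)) p15_39_0 (nat_lit 3) (nat_lit 214) (nat_lit 215) = true := by decide +kernel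
def p15_39_0_215 : pfC (piC [(nat_lit 28473124), (nat_lit 19449108), (nat_lit 12587812)] (nat_lit 12729658)) p15_39_0 (nat_lit 3) (nat_lit 215) (nat_lit 216) = true := by decide +kernel
def p15_39_0_216 : pfC (piC [(nat_lit 28473124), (nat_lit 19449108), (nat_lit 12587812)] (nat_lit 12729658)) p15_39_0 (nat_lit 3) (nat_lit 216) (nat_lit 217) = true := by decide +kernel
def p15_39_0_217 : pfC (piC [(nat_lit 28473124), (nat_lit 19449108), (nat_lit 12587812)] (nat_lit 12729658)) p15_39_0 (nat_lit 3) (nat_lit 217) (nat_lit 218) = true := by decide +kernel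
def p15_39_0_218 : pfC (piC [(nat_lit 28473124), (nat_lit 19449108), (nat_lit 12587812)] (nat_lit 12729658)) p15_39_0 (nat_lit 3) (nat_lit 218) (nat_lit 219) = true := by decide +kernel
def p15_39_0_219 : pfC (piC [(nat_lit 28473124), (nat_lit 19449108), (nat_lit 12587812)] (nat_lit 12729658)) p15_39_0 (nat_lit 3) (nat_lit 219) (nat_lit 220) = true := by decide +kernel
def p15_39_0_220 : pfC (piC [(nat_lit 28473124), (nat_lit 19449108), (nat_lit 12587812)] (nat_lit 12729658)) p15_39_0 (nat_lit 3) (nat_lit 220) (nat_lit 221) = true := by decide +kernel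
def p15_39_0_221 : pfC (piC [(nat_lit 28473124), (nat_lit 19449108), (nat_lit 12587812)] (nat_lit 12729658)) p15_39_0 (nat_lit 3) (nat_lit 221) (nat_lit 222) = true := by decide +kernel
def p15_39_0_222 : pfC (piC [(nat_lit 28473124), (nat_lit 19449108), (nat_lit 12587812)] (nat_lit 12729658)) p15_39_0 (nat_lit 3) (nat_lit 222) (nat_lit 223) = true := by decide +kernel
def p15_39_0_223 : pfC (piC [(nat_lit 28473124), (nat_lit 19449108), (nat_lit 12587812)] (nat_lit 12729658)) p15_39_0 (nat_lit 3) (nat_lit 223) (nat_lit 224) = true := by decide +kernel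
def p15_39_0_224 : pfC (piC [(nat_lit 28473124), (nat_lit 19449108), (nat_lit 12587812)] (nat_lit 12729658)) p15_39_0 (nat_lit 3) (nat_lit 224) (nat_lit 225) = true := by decide +kernel
def p15_39_0_225 : pfC (piC [(nat_lit 28473124), (nat_lit 19449108), (nat_lit 12587812)] (nat_lit 12729658)) p15_39_0 (nat_lit 3) (nat_lit 225) (nat_lit 226) = true := by decide +kernel
def p15_39_0_226 : pfC (piC [(nat_lit 28473124), (nat_lit 19449108), (nat_lit 12587812)] (nat_lit 12729658)) p15_39_0 (nat_lit 3) (nat_lit 226) (nat_lit 227) = true := by decide +kernel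
def p15_39_0_227 : pfC (piC [(nat_lit 28473124), (nat_lit 19449108), (nat_lit 12587812)] (nat_lit 12729658)) p15_39_0 (nat_lit 3) (nat_lit 227) (nat_lit 228) = true := by decide +kernel
def p15_39_0_228 : pfC (piC [(nat_lit 28473124), (nat_lit 19449108), (nat_lit 12587812)] (nat_lit 12729658)) p15_39_0 (nat_lit 3) (nat_lit 228) (nat_lit 229) = true := by decide +kernel
def p15_39_0_229 : pfC (piC [(nat_lit 28473124), (nat_lit 19449108), (nat_lit 12587812)] (nat_lit 12729658)) p15_39_0 (nat_lit 3) (nat_lit 229) (nat_lit 230) = true := by decide +kernel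
def p15_39_0_230 : pfC (piC [(nat_lit 28473124), (nat_lit 19449108), (nat_lit 12587812)] (nat_lit 12729658)) p15_39_0 (nat_lit 3) (nat_lit 230) (nat_lit 231) = true := by decide +kernel
def p15_39_0_231 : pfC (piC [(nat_lit 28473124), (nat_lit 19449108), (nat_lit 12587812)] (nat_lit 12729658)) p15_39_0 (nat_lit 3) (nat_lit 231) (nat_lit 232) = true := by decide +kernel
def p15_39_0_232 : pfC (piC [(nat_lit 28473124), (nat_lit 19449108), (nat_lit 12587812)] (nat_lit 12729658)) p15_39_0 (nat_lit 3) (nat_lit 232) (nat_lit 233) = true := by decide +kernel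
def p15_39_0_233 : pfC (piC [(nat_lit 28473124), (nat_lit 19449108), (nat_lit 12587812)] (nat_lit 12729658)) p15_39_0 (nat_lit 3) (nat_lit 233) (nat_lit 234) = true := by decide +kernel
def p15_39_0_234 : pfC (piC [(nat_lit 28473124), (nat_lit 19449108), (nat_lit 12587812)] (nat_lit 12729658)) p15_39_0 (nat_lit 3) (nat_lit 234) (nat_lit 235) = true := by decide +kernel
def p15_39_0_235 : pfC (piC [(nat_lit 28473124), (nat_lit 19449108), (nat_lit 12587812)] (nat_lit 12729658)) p15_39_0 (nat_lit 3) (nat_lit 235) (nat_lit 236) = true := by decide +kernel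
def p15_39_0_236 : pfC (piC [(nat_lit 28473124), (nat_lit 19449108), (nat_lit 12587812)] (nat_lit 12729658)) p15_39_0 (nat_lit 3) (nat_lit 236) (nat_lit 237) = true := by decide +kernel
def p15_39_0_237 : pfC (piC [(nat_lit 28473124), (nat_lit 19449108), (nat_lit 12587812)] (nat_lit 12729658)) p15_39_0 (nat_lit 3) (nat_lit 237) (nat_lit 238) = true := by decide +kernel
def p15_39_0_238 : pfC (piC [(nat_lit 28473124), (nat_lit 19449108), (nat_lit 12587812)] (nat_lit 12729658)) p15_39_0 (nat_lit 3) (nat_lit 238) (nat_lit 239) = true := by decide +kernel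
def p15_39_0_239 : pfC (piC [(nat_lit 28473124), (nat_lit 19449108), (nat_lit 12587812)] (nat_lit 12729658)) p15_39_0 (nat_lit 3) (nat_lit 239) (nat_lit 240) = true := by decide +kernel
def p15_39_0_240 : pfC (piC [(nat_lit 28473124), (nat_lit 19449108), (nat_lit 12587812)] (nat_lit 12729658)) p15_39_0 (nat_lit 3) (nat_lit 240) (nat_lit 241) = true := by decide +kernel
def p15_39_0_241 : pfC (piC [(nat_lit 28473124), (nat_lit 19449108), (nat_lit 12587812)] (nat_lit 12729658)) p15_39_0 (nat_lit 3) (nat_lit 241) (nat_lit 242) = true := by decide +kernel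
def p15_39_0_242 : pfC (piC [(nat_lit 28473124), (nat_lit 19449108), (nat_lit 12587812)] (nat_lit 12729658)) p15_39_0 (nat_lit 3) (nat_lit 242) (nat_lit 243) = true := by decide +kernel
def p15_39_0_243 : pfC (piC [(nat_lit 28473124), (nat_lit 19449108), (nat_lit 12587812)] (nat_lit 12729658)) p15_39_0 (nat_lit 3) (nat_lit 243) (nat_lit 244) = true := by decide +kernel
def p15_39_0_244 : pfC (piC [(nat_lit 28473124), (nat_lit 19449108), (nat_lit 12587812)] (nat_lit 12729658)) p15_39_0 (nat_lit 3) (nat_lit 244) (nat_lit 245) = true := by decide +kernel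
def p15_39_0_245 : pfC (piC [(nat_lit 28473124), (nat_lit 19449108), (nat_lit 12587812)] (nat_lit 12729658)) p15_39_0 (nat_lit 3) (nat_lit 245) (nat_lit 246) = true := by decide +kernel
def p15_39_0_246 : pfC (piC [(nat_lit 28473124), (nat_lit 19449108), (nat_lit 12587812)] (nat_lit 12729658)) p15_39_0 (nat_lit 3) (nat_lit 246) (nat_lit 247) = true := by decide +kernel
def p15_39_0_247 : pfC (piC [(nat_lit 28473124), (nat_lit 19449108), (nat_lit 12587812)] (nat_lit 12729658)) p15_39_0 (nat_lit 3) (nat_lit 247) (nat_lit 248) = true := by decide +kernel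
def p15_39_0_248 : pfC (piC [(nat_lit 28473124), (nat_lit 19449108), (nat_lit 12587812)] (nat_lit 12729658)) p15_39_0 (nat_lit 3) (nat_lit 248) (nat_lit 249) = true := by decide +kernel
def p15_39_0_249 : pfC (piC [(nat_lit 28473124), (nat_lit 19449108), (nat_lit 12587812)] (nat_lit 12729658)) p15_39_0 (nat_lit 3) (nat_lit 249) (nat_lit 250) = true := by decide +kernel
def p15_39_0_250 : pfC (piC [(nat_lit 28473124), (nat_lit 19449108), (nat_lit 12587812)] (nat_lit 12729658)) p15_39_0 (nat_lit 3) (nat_lit 250) (nat_lit 251) = true := by decide +kernel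
def p15_39_0_251 : pfC (piC [(nat_lit 28473124), (nat_lit 19449108), (nat_lit 12587812)] (nat_lit 12729658)) p15_39_0 (nat_lit 3) (nat_lit 251) (nat_lit 252) = true := by decide +kernel
def p15_39_0_252 : pfC (piC [(nat_lit 28473124), (nat_lit 19449108), (nat_lit 12587812)] (nat_lit 12729658)) p15_39_0 (nat_lit 3) (nat_lit 252) (nat_lit 253) = true := by decide +kernel
def p15_39_0_253 : pfC (piC [(nat_lit 28473124), (nat_lit 19449108), (nat_lit 12587812)] (nat_lit 12729658)) p15_39_0 (nat_lit 3) (nat_lit 253) (nat_lit 254) = true := by decide +kernel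
def p15_39_0_254 : pfC (piC [(nat_lit 28473124), (nat_lit 19449108), (nat_lit 12587812)] (nat_lit 12729658)) p15_39_0 (nat_lit 3) (nat_lit 254) (nat_lit 255) = true := by decide +kernel
def p15_39_0_255 : pfC (piC [(nat_lit 28473124), (nat_lit 19449108), (nat_lit 12587812)] (nat_lit 12729658)) p15_39_0 (nat_lit 3) (nat_lit 255) (nat_lit 256) = true := by decide +kernel
def p15_39_0_256 : pfC (piC [(nat_lit 28473124), (nat_lit 19449108), (nat_lit 12587812)] (nat_lit 12729658)) p15_39_0 (nat_lit 3) (nat_lit 256) (nat_lit 257) = true := by decide +kernel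
def p15_39_0_257 : pfC (piC [(nat_lit 28473124), (nat_lit 19449108), (nat_lit 12587812)] (nat_lit 12729658)) p15_39_0 (nat_lit 3) (nat_lit 257) (nat_lit 258) = true := by decide +kernel
def p15_39_0_258 : pfC (piC [(nat_lit 28473124), (nat_lit 19449108), (nat_lit 12587812)] (nat_lit 12729658)) p15_39_0 (nat_lit 3) (nat_lit 258) (nat_lit 259) = true := by decide +kernel
def p15_39_0_259 : pfC (piC [(nat_lit 28473124), (nat_lit 19449108), (nat_lit 12587812)] (nat_lit 12729658)) p15_39_0 (nat_lit 3) (nat_lit 259) (nat_lit 260) = true := by decide +kernel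
def p15_39_0_260 : pfC (piC [(nat_lit 28473124), (nat_lit 19449108), (nat_lit 12587812)] (nat_lit 12729658)) p15_39_0 (nat_lit 3) (nat_lit 260) (nat_lit 261) = true := by decide +kernel
def p15_39_0_261 : pfC (piC [(nat_lit 28473124), (nat_lit 19449108), (nat_lit 12587812)] (nat_lit 12729658)) p15_39_0 (nat_lit 3) (nat_lit 261) (nat_lit 262) = true := by decide +kernel
def p15_39_0_262 : pfC (piC [(nat_lit 28473124), (nat_lit 19449108), (nat_lit 12587812)] (nat_lit 12729658)) p15_39_0 (nat_lit 3) (nat_lit 262) (nat_lit 263) = true := by decide +kernel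
def p15_39_0_263 : pfC (piC [(nat_lit 28473124), (nat_lit 19449108), (nat_lit 12587812)] (nat_lit 12729658)) p15_39_0 (nat_lit 3) (nat_lit 263) (nat_lit 264) = true := by decide +kernel
def p15_39_0_264 : pfC (piC [(nat_lit 28473124), (nat_lit 19449108), (nat_lit 12587812)] (nat_lit 12729658)) p15_39_0 (nat_lit 3) (nat_lit 264) (nat_lit 265) = true := by decide +kernel
def p15_39_0_265 : pfC (piC [(nat_lit 28473124), (nat_lit 19449108), (nat_lit 12587812)] (nat_lit 12729658)) p15_39_0 (nat_lit 3) (nat_lit 265) (nat_lit 266) = true := by decide +kernel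
def p15_39_0_266 : pfC (piC [(nat_lit 28473124), (nat_lit 19449108), (nat_lit 12587812)] (nat_lit 12729658)) p15_39_0 (nat_lit 3) (nat_lit 266) (nat_lit 267) = true := by decide +kernel
def p15_39_0_267 : pfC (piC [(nat_lit 28473124), (nat_lit 19449108), (nat_lit 12587812)] (nat_lit 12729658)) p15_39_0 (nat_lit 3) (nat_lit 267) (nat_lit 268) = true := by decide +kernel
def p15_39_0_268 : pfC (piC [(nat_lit 28473124), (nat_lit 19449108), (nat_lit 12587812)] (nat_lit 12729658)) p15_39_0 (nat_lit 3) (nat_lit 268) (nat_lit 269) = true := by decide +kernel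
def p15_39_0_269 : pfC (piC [(nat_lit 28473124), (nat_lit 19449108), (nat_lit 12587812)] (nat_lit 12729658)) p15_39_0 (nat_lit 3) (nat_lit 269) (nat_lit 270) = true := by decide +kernel
def p15_39_0_270 : pfC (piC [(nat_lit 28473124), (nat_lit 19449108), (nat_lit 12587812)] (nat_lit 12729658)) p15_39_0 (nat_lit 3) (nat_lit 270) (nat_lit 271) = true := by decide +kernel
def p15_39_0_271 : pfC (piC [(nat_lit 28473124), (nat_lit 19449108), (nat_lit 12587812)] (nat_lit 12729658)) p15_39_0 (nat_lit 3) (nat_lit 271) (nat_lit 272) = true := by decide +kernel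
def p15_39_0_272 : pfC (piC [(nat_lit 28473124), (nat_lit 19449108), (nat_lit 12587812)] (nat_lit 12729658)) p15_39_0 (nat_lit 3) (nat_lit 272) (nat_lit 273) = true := by decide +kernel
def p15_39_0_273 : pfC (piC [(nat_lit 28473124), (nat_lit 19449108), (nat_lit 12587812)] (nat_lit 12729658)) p15_39_0 (nat_lit 3) (nat_lit 273) (nat_lit 274) = true := by decide +kernel
def p15_39_0_274 : pfC (piC [(nat_lit 28473124), (nat_lit 19449108), (nat_lit 12587812)] (nat_lit 12729658)) p15_39_0 (nat_lit 3) (nat_lit 274) (nat_lit 275) = true := by decide +kernel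
def p15_39_0_275 : pfC (piC [(nat_lit 28473124), (nat_lit 19449108), (nat_lit 12587812)] (nat_lit 12729658)) p15_39_0 (nat_lit 3) (nat_lit 275) (nat_lit 276) = true := by decide +kernel
def p15_39_0_276 : pfC (piC [(nat_lit 28473124), (nat_lit 19449108), (nat_lit 12587812)] (nat_lit 12729658)) p15_39_0 (nat_lit 3) (nat_lit 276) (nat_lit 277) = true := by decide +kernel
def p15_39_0_277 : pfC (piC [(nat_lit 28473124), (nat_lit 19449108), (nat_lit 12587812)] (nat_lit 12729658)) p15_39_0 (nat_lit 3) (nat_lit 277) (nat_lit 278) = true := by decide +kernel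
def p15_39_0_278 : pfC (piC [(nat_lit 28473124), (nat_lit 19449108), (nat_lit 12587812)] (nat_lit 12729658)) p15_39_0 (nat_lit 3) (nat_lit 278) (nat_lit 279) = true := by decide +kernel
def p15_39_0_279 : pfC (piC [(nat_lit 28473124), (nat_lit 19449108), (nat_lit 12587812)] (nat_lit 12729658)) p15_39_0 (nat_lit 3) (nat_lit 279) (nat_lit 280) = true := by decide +kernel
def p15_39_0_280 : pfC (piC [(nat_lit 28473124), (nat_lit 19449108), (nat_lit 12587812)] (nat_lit 12729658)) p15_39_0 (nat_lit 3) (nat_lit 280) (nat_lit 281) = true := by decide +kernel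
def p15_39_0_281 : pfC (piC [(nat_lit 28473124), (nat_lit 19449108), (nat_lit 12587812)] (nat_lit 12729658)) p15_39_0 (nat_lit 3) (nat_lit 281) (nat_lit 282) = true := by decide +kernel
def p15_39_0_282 : pfC (piC [(nat_lit 28473124), (nat_lit 19449108), (nat_lit 12587812)] (nat_lit 12729658)) p15_39_0 (nat_lit 3) (nat_lit 282) (nat_lit 283) = true := by decide +kernel
def p15_39_0_283 : pfC (piC [(nat_lit 28473124), (nat_lit 19449108), (nat_lit 12587812)] (nat_lit 12729658)) p15_39_0 (nat_lit 3) (nat_lit 283) (nat_lit 284) = true := by decide +kernel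
def p15_39_0_284 : pfC (piC [(nat_lit 28473124), (nat_lit 19449108), (nat_lit 12587812)] (nat_lit 12729658)) p15_39_0 (nat_lit 3) (nat_lit 284) (nat_lit 285) = true := by decide +kernel
def p15_39_0_285 : pfC (piC [(nat_lit 28473124), (nat_lit 19449108), (nat_lit 12587812)] (nat_lit 12729658)) p15_39_0 (nat_lit 3) (nat_lit 285) (nat_lit 286) = true := by decide +kernel
def p15_39_0_286 : pfC (piC [(nat_lit 28473124), (nat_lit 19449108), (nat_lit 12587812)] (nat_lit 12729658)) p15_39_0 (nat_lit 3) (nat_lit 286) (nat_lit 287) = true := by decide +kernel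
def p15_39_0_287 : pfC (piC [(nat_lit 28473124), (nat_lit 19449108), (nat_lit 12587812)] (nat_lit 12729658)) p15_39_0 (nat_lit 3) (nat_lit 287) (nat_lit 288) = true := by decide +kernel
def p15_39_0_288 : pfC (piC [(nat_lit 28473124), (nat_lit 19449108), (nat_lit 12587812)] (nat_lit 12729658)) p15_39_0 (nat_lit 3) (nat_lit 288) (nat_lit 289) = true := by decide +kernel
def p15_39_0_289 : pfC (piC [(nat_lit 28473124), (nat_lit 19449108), (nat_lit 12587812)] (nat_lit 12729658)) p15_39_0 (nat_lit 3) (nat_lit 289) (nat_lit 290) = true := by decide +kernel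
def p15_39_0_290 : pfC (piC [(nat_lit 28473124), (nat_lit 19449108), (nat_lit 12587812)] (nat_lit 12729658)) p15_39_0 (nat_lit 3) (nat_lit 290) (nat_lit 291) = true := by decide +kernel
def p15_39_0_291 : pfC (piC [(nat_lit 28473124), (nat_lit 19449108), (nat_lit 12587812)] (nat_lit 12729658)) p15_39_0 (nat_lit 3) (nat_lit 291) (nat_lit 292) = true := by decide +kernel
def p15_39_0_292 : pfC (piC [(nat_lit 28473124), (nat_lit 19449108), (nat_lit 12587812)] (nat_lit 12729658)) p15_39_0 (nat_lit 3) (nat_lit 292) (nat_lit 293) = true := by decide +kernel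
def p15_39_0_293 : pfC (piC [(nat_lit 28473124), (nat_lit 19449108), (nat_lit 12587812)] (nat_lit 12729658)) p15_39_0 (nat_lit 3) (nat_lit 293) (nat_lit 294) = true := by decide +kernel
def p15_39_0_294 : pfC (piC [(nat_lit 28473124), (nat_lit 19449108), (nat_lit 12587812)] (nat_lit 12729658)) p15_39_0 (nat_lit 3) (nat_lit 294) (nat_lit 295) = true := by decide +kernel
def p15_39_0_295 : pfC (piC [(nat_lit 28473124), (nat_lit 19449108), (nat_lit 12587812)] (nat_lit 12729658)) p15_39_0 (nat_lit 3) (nat_lit 295) (nat_lit 296) = true := by decide +kernel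
def p15_39_0_296 : pfC (piC [(nat_lit 28473124), (nat_lit 19449108), (nat_lit 12587812)] (nat_lit 12729658)) p15_39_0 (nat_lit 3) (nat_lit 296) (nat_lit 297) = true := by decide +kernel
def p15_39_0_297 : pfC (piC [(nat_lit 28473124), (nat_lit 19449108), (nat_lit 12587812)] (nat_lit 12729658)) p15_39_0 (nat_lit 3) (nat_lit 297) (nat_lit 298) = true := by decide +kernel
def p15_39_0_298 : pfC (piC [(nat_lit 28473124), (nat_lit 19449108), (nat_lit 12587812)] (nat_lit 12729658)) p15_39_0 (nat_lit 3) (nat_lit 298) (nat_lit 299) = true := by decide +kernel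
def p15_39_0_299 : pfC (piC [(nat_lit 28473124), (nat_lit 19449108), (nat_lit 12587812)] (nat_lit 12729658)) p15_39_0 (nat_lit 3) (nat_lit 299) (nat_lit 300) = true := by decide +kernel
def p15_39_0_300 : pfC (piC [(nat_lit 28473124), (nat_lit 19449108), (nat_lit 12587812)] (nat_lit 12729658)) p15_39_0 (nat_lit 3) (nat_lit 300) (nat_lit 301) = true := by decide +kernel
def p15_39_0_301 : pfC (piC [(nat_lit 28473124), (nat_lit 19449108), (nat_lit 12587812)] (nat_lit 12729658)) p15_39_0 (nat_lit 3) (nat_lit 301) (nat_lit 302) = true := by decide +kernel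
def p15_39_0_302 : pfC (piC [(nat_lit 28473124), (nat_lit 19449108), (nat_lit 12587812)] (nat_lit 12729658)) p15_39_0 (nat_lit 3) (nat_lit 302) (nat_lit 303) = true := by decide +kernel
def p15_39_0_303 : pfC (piC [(nat_lit 28473124), (nat_lit 19449108), (nat_lit 12587812)] (nat_lit 12729658)) p15_39_0 (nat_lit 3) (nat_lit 303) (nat_lit 304) = true := by decide +kernel
def p15_39_0_304 : pfC (piC [(nat_lit 28473124), (nat_lit 19449108), (nat_lit 12587812)] (nat_lit 12729658)) p15_39_0 (nat_lit 3) (nat_lit 304) (nat_lit 305) = true := by decide +kernel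
def p15_39_0_305 : pfC (piC [(nat_lit 28473124), (nat_lit 19449108), (nat_lit 12587812)] (nat_lit 12729658)) p15_39_0 (nat_lit 3) (nat_lit 305) (nat_lit 306) = true := by decide +kernel
def p15_39_0_306 : pfC (piC [(nat_lit 28473124), (nat_lit 19449108), (nat_lit 12587812)] (nat_lit 12729658)) p15_39_0 (nat_lit 3) (nat_lit 306) (nat_lit 307) = true := by decide +kernel
def p15_39_0_307 : pfC (piC [(nat_lit 28473124), (nat_lit 19449108), (nat_lit 12587812)] (nat_lit 12729658)) p15_39_0 (nat_lit 3) (nat_lit 307) (nat_lit 308) = true := by decide +kernel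
def p15_39_0_308 : pfC (piC [(nat_lit 28473124), (nat_lit 19449108), (nat_lit 12587812)] (nat_lit 12729658)) p15_39_0 (nat_lit 3) (nat_lit 308) (nat_lit 309) = true := by decide +kernel
def p15_39_0_309 : pfC (piC [(nat_lit 28473124), (nat_lit 19449108), (nat_lit 12587812)] (nat_lit 12729658)) p15_39_0 (nat_lit 3) (nat_lit 309) (nat_lit 310) = true := by decide +kernel
def p15_39_0_310 : pfC (piC [(nat_lit 28473124), (nat_lit 19449108), (nat_lit 12587812)] (nat_lit 12729658)) p15_39_0 (nat_lit 3) (nat_lit 310) (nat_lit 311) = true := by decide +kernel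
def p15_39_0_311 : pfC (piC [(nat_lit 28473124), (nat_lit 19449108), (nat_lit 12587812)] (nat_lit 12729658)) p15_39_0 (nat_lit 3) (nat_lit 311) (nat_lit 312) = true := by decide +kernel
def p15_39_0_312 : pfC (piC [(nat_lit 28473124), (nat_lit 19449108), (nat_lit 12587812)] (nat_lit 12729658)) p15_39_0 (nat_lit 3) (nat_lit 312) (nat_lit 313) = true := by decide +kernel
def p15_39_0_313 : pfC (piC [(nat_lit 28473124), (nat_lit 19449108), (nat_lit 12587812)] (nat_lit 12729658)) p15_39_0 (nat_lit 3) (nat_lit 313) (nat_lit 314) = true := by decide +kernel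
def p15_39_0_314 : pfC (piC [(nat_lit 28473124), (nat_lit 19449108), (nat_lit 12587812)] (nat_lit 12729658)) p15_39_0 (nat_lit 3) (nat_lit 314) (nat_lit 315) = true := by decide +kernel
def p15_39_0_315 : pfC (piC [(nat_lit 28473124), (nat_lit 19449108), (nat_lit 12587812)] (nat_lit 12729658)) p15_39_0 (nat_lit 3) (nat_lit 315) (nat_lit 316) = true := by decide +kernel
def p15_39_0_316 : pfC (piC [(nat_lit 28473124), (nat_lit 19449108), (nat_lit 12587812)] (nat_lit 12729658)) p15_39_0 (nat_lit 3) (nat_lit 316) (nat_lit 317) = true := by decide +kernel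
def p15_39_0_317 : pfC (piC [(nat_lit 28473124), (nat_lit 19449108), (nat_lit 12587812)] (nat_lit 12729658)) p15_39_0 (nat_lit 3) (nat_lit 317) (nat_lit 318) = true := by decide +kernel
def p15_39_0_318 : pfC (piC [(nat_lit 28473124), (nat_lit 19449108), (nat_lit 12587812)] (nat_lit 12729658)) p15_39_0 (nat_lit 3) (nat_lit 318) (nat_lit 319) = true := by decide +kernel
def p15_39_0_319 : pfC (piC [(nat_lit 28473124), (nat_lit 19449108), (nat_lit 12587812)] (nat_lit 12729658)) p15_39_0 (nat_lit 3) (nat_lit 319) (nat_lit 320) = true := by decide +kernel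
def p15_39_0_320 : pfC (piC [(nat_lit 28473124), (nat_lit 19449108), (nat_lit 12587812)] (nat_lit 12729658)) p15_39_0 (nat_lit 3) (nat_lit 320) (nat_lit 321) = true := by decide +kernel
def p15_39_0_321 : pfC (piC [(nat_lit 28473124), (nat_lit 19449108), (nat_lit 12587812)] (nat_lit 12729658)) p15_39_0 (nat_lit 3) (nat_lit 321) (nat_lit 322) = true := by decide +kernel
def p15_39_0_322 : pfC (piC [(nat_lit 28473124), (nat_lit 19449108), (nat_lit 12587812)] (nat_lit 12729658)) p15_39_0 (nat_lit 3) (nat_lit 322) (nat_lit 323) = true := by decide +kernel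
def p15_39_0_323 : pfC (piC [(nat_lit 28473124), (nat_lit 19449108), (nat_lit 12587812)] (nat_lit 12729658)) p15_39_0 (nat_lit 3) (nat_lit 323) (nat_lit 324) = true := by decide +kernel
def p15_39_0_324 : pfC (piC [(nat_lit 28473124), (nat_lit 19449108), (nat_lit 12587812)] (nat_lit 12729658)) p15_39_0 (nat_lit 3) (nat_lit 324) (nat_lit 325) = true := by decide +kernel
def p15_39_0_325 : pfC (piC [(nat_lit 28473124), (nat_lit 19449108), (nat_lit 12587812)] (nat_lit 12729658)) p15_39_0 (nat_lit 3) (nat_lit 325) (nat_lit 326) = true := by decide +kernel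
def p15_39_0_326 : pfC (piC [(nat_lit 28473124), (nat_lit 19449108), (nat_lit 12587812)] (nat_lit 12729658)) p15_39_0 (nat_lit 3) (nat_lit 326) (nat_lit 327) = true := by decide +kernel
def p15_39_0_327 : pfC (piC [(nat_lit 28473124), (nat_lit 19449108), (nat_lit 12587812)] (nat_lit 12729658)) p15_39_0 (nat_lit 3) (nat_lit 327) (nat_lit 328) = true := by decide +kernel
def p15_39_0_328 : pfC (piC [(nat_lit 28473124), (nat_lit 19449108), (nat_lit 12587812)] (nat_lit 12729658)) p15_39_0 (nat_lit 3) (nat_lit 328) (nat_lit 329) = true := by decide +kernel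
def p15_39_0_329 : pfC (piC [(nat_lit 28473124), (nat_lit 19449108), (nat_lit 12587812)] (nat_lit 12729658)) p15_39_0 (nat_lit 3) (nat_lit 329) (nat_lit 330) = true := by decide +kernel
def p15_39_0_330 : pfC (piC [(nat_lit 28473124), (nat_lit 19449108), (nat_lit 12587812)] (nat_lit 12729658)) p15_39_0 (nat_lit 3) (nat_lit 330) (nat_lit 331) = true := by decide +kernel
def p15_39_0_331 : pfC (piC [(nat_lit 28473124), (nat_lit 19449108), (nat_lit 12587812)] (nat_lit 12729658)) p15_39_0 (nat_lit 3) (nat_lit 331) (nat_lit 332) = true := by decide +kernel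
def p15_39_0_332 : pfC (piC [(nat_lit 28473124), (nat_lit 19449108), (nat_lit 12587812)] (nat_lit 12729658)) p15_39_0 (nat_lit 3) (nat_lit 332) (nat_lit 333) = true := by decide +kernel
def p15_39_0_333 : pfC (piC [(nat_lit 28473124), (nat_lit 19449108), (nat_lit 12587812)] (nat_lit 12729658)) p15_39_0 (nat_lit 3) (nat_lit 333) (nat_lit 334) = true := by decide +kernel
def p15_39_0_334 : pfC (piC [(nat_lit 28473124), (nat_lit 19449108), (nat_lit 12587812)] (nat_lit 12729658)) p15_39_0 (nat_lit 3) (nat_lit 334) (nat_lit 335) = true := by decide +kernel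
def p15_39_0_335 : pfC (piC [(nat_lit 28473124), (nat_lit 19449108), (nat_lit 12587812)] (nat_lit 12729658)) p15_39_0 (nat_lit 3) (nat_lit 335) (nat_lit 336) = true := by decide +kernel
def p15_39_0_336 : pfC (piC [(nat_lit 28473124), (nat_lit 19449108), (nat_lit 12587812)] (nat_lit 12729658)) p15_39_0 (nat_lit 3) (nat_lit 336) (nat_lit 337) = true := by decide +kernel
def p15_39_0_337 : pfC (piC [(nat_lit 28473124), (nat_lit 19449108), (nat_lit 12587812)] (nat_lit 12729658)) p15_39_0 (nat_lit 3) (nat_lit 337) (nat_lit 338) = true := by decide +kernel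
def p15_39_0_338 : pfC (piC [(nat_lit 28473124), (nat_lit 19449108), (nat_lit 12587812)] (nat_lit 12729658)) p15_39_0 (nat_lit 3) (nat_lit 338) (nat_lit 339) = true := by decide +kernel
def p15_39_0_339 : pfC (piC [(nat_lit 28473124), (nat_lit 19449108), (nat_lit 12587812)] (nat_lit 12729658)) p15_39_0 (nat_lit 3) (nat_lit 339) (nat_lit 340) = true := by decide +kernel
def p15_39_0_340 : pfC (piC [(nat_lit 28473124), (nat_lit 19449108), (nat_lit 12587812)] (nat_lit 12729658)) p15_39_0 (nat_lit 3) (nat_lit 340) (nat_lit 341) = true := by decide +kernel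
def p15_39_0_341 : pfC (piC [(nat_lit 28473124), (nat_lit 19449108), (nat_lit 12587812)] (nat_lit 12729658)) p15_39_0 (nat_lit 3) (nat_lit 341) (nat_lit 342) = true := by decide +kernel
def p15_39_0_342 : pfC (piC [(nat_lit 28473124), (nat_lit 19449108), (nat_lit 12587812)] (nat_lit 12729658)) p15_39_0 (nat_lit 3) (nat_lit 342) (nat_lit 343) = true := by decide +kernel
def p15_39_0_343 : pfC (piC [(nat_lit 28473124), (nat_lit 19449108), (nat_lit 12587812)] (nat_lit 12729658)) p15_39_0 (nat_lit 3) (nat_lit 343) (nat_lit 344) = true := by decide +kernel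
def p15_39_0_344 : pfC (piC [(nat_lit 28473124), (nat_lit 19449108), (nat_lit 12587812)] (nat_lit 12729658)) p15_39_0 (nat_lit 3) (nat_lit 344) (nat_lit 345) = true := by decide +kernel
def p15_39_0_345 : pfC (piC [(nat_lit 28473124), (nat_lit 19449108), (nat_lit 12587812)] (nat_lit 12729658)) p15_39_0 (nat_lit 3) (nat_lit 345) (nat_lit 346) = true := by decide +kernel
def p15_39_0_346 : pfC (piC [(nat_lit 28473124), (nat_lit 19449108), (nat_lit 12587812)] (nat_lit 12729658)) p15_39_0 (nat_lit 3) (nat_lit 346) (nat_lit 347) = true := by decide +kernel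
def p15_39_0_347 : pfC (piC [(nat_lit 28473124), (nat_lit 19449108), (nat_lit 12587812)] (nat_lit 12729658)) p15_39_0 (nat_lit 3) (nat_lit 347) (nat_lit 348) = true := by decide +kernel
def p15_39_0_348 : pfC (piC [(nat_lit 28473124), (nat_lit 19449108), (nat_lit 12587812)] (nat_lit 12729658)) p15_39_0 (nat_lit 3) (nat_lit 348) (nat_lit 349) = true := by decide +kernel
def p15_39_0_349 : pfC (piC [(nat_lit 28473124), (nat_lit 19449108), (nat_lit 12587812)] (nat_lit 12729658)) p15_39_0 (nat_lit 3) (nat_lit 349) (nat_lit 350) = true := by decide +kernel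
def p15_39_0_350 : pfC (piC [(nat_lit 28473124), (nat_lit 19449108), (nat_lit 12587812)] (nat_lit 12729658)) p15_39_0 (nat_lit 3) (nat_lit 350) (nat_lit 351) = true := by decide +kernel
def p15_39_0_351 : pfC (piC [(nat_lit 28473124), (nat_lit 19449108), (nat_lit 12587812)] (nat_lit 12729658)) p15_39_0 (nat_lit 3) (nat_lit 351) (nat_lit 352) = true := by decide +kernel
def p15_39_0_352 : pfC (piC [(nat_lit 28473124), (nat_lit 19449108), (nat_lit 12587812)] (nat_lit 12729658)) p15_39_0 (nat_lit 3) (nat_lit 352) (nat_lit 353) = true := by decide +kernel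
def p15_39_0_353 : pfC (piC [(nat_lit 28473124), (nat_lit 19449108), (nat_lit 12587812)] (nat_lit 12729658)) p15_39_0 (nat_lit 3) (nat_lit 353) (nat_lit 354) = true := by decide +kernel
def p15_39_0_354 : pfC (piC [(nat_lit 28473124), (nat_lit 19449108), (nat_lit 12587812)] (nat_lit 12729658)) p15_39_0 (nat_lit 3) (nat_lit 354) (nat_lit 355) = true := by decide +kernel
def p15_39_0_355 : pfC (piC [(nat_lit 28473124), (nat_lit 19449108), (nat_lit 12587812)] (nat_lit 12729658)) p15_39_0 (nat_lit 3) (nat_lit 355) (nat_lit 356) = true := by decide +kernel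
def p15_39_0_356 : pfC (piC [(nat_lit 28473124), (nat_lit 19449108), (nat_lit 12587812)] (nat_lit 12729658)) p15_39_0 (nat_lit 3) (nat_lit 356) (nat_lit 357) = true := by decide +kernel
def p15_39_0_357 : pfC (piC [(nat_lit 28473124), (nat_lit 19449108), (nat_lit 12587812)] (nat_lit 12729658)) p15_39_0 (nat_lit 3) (nat_lit 357) (nat_lit 358) = true := by decide +kernel
def p15_39_0_358 : pfC (piC [(nat_lit 28473124), (nat_lit 19449108), (nat_lit 12587812)] (nat_lit 12729658)) p15_39_0 (nat_lit 3) (nat_lit 358) (nat_lit 359) = true := by decide +kernel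
def p15_39_0_359 : pfC (piC [(nat_lit 28473124), (nat_lit 19449108), (nat_lit 12587812)] (nat_lit 12729658)) p15_39_0 (nat_lit 3) (nat_lit 359) (nat_lit 360) = true := by decide +kernel
def p15_39_0_360 : pfC (piC [(nat_lit 28473124), (nat_lit 19449108), (nat_lit 12587812)] (nat_lit 12729658)) p15_39_0 (nat_lit 3) (nat_lit 360) (nat_lit 361) = true := by decide +kernel
def p15_39_0_361 : pfC (piC [(nat_lit 28473124), (nat_lit 19449108), (nat_lit 12587812)] (nat_lit 12729658)) p15_39_0 (nat_lit 3) (nat_lit 361) (nat_lit 362) = true := by decide +kernel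
def p15_39_0_362 : pfC (piC [(nat_lit 28473124), (nat_lit 19449108), (nat_lit 12587812)] (nat_lit 12729658)) p15_39_0 (nat_lit 3) (nat_lit 362) (nat_lit 363) = true := by decide +kernel
def p15_39_0_363 : pfC (piC [(nat_lit 28473124), (nat_lit 19449108), (nat_lit 12587812)] (nat_lit 12729658)) p15_39_0 (nat_lit 3) (nat_lit 363) (nat_lit 364) = true := by decide +kernel
def p15_39_0_364 : pfC (piC [(nat_lit 28473124), (nat_lit 19449108), (nat_lit 12587812)] (nat_lit 12729658)) p15_39_0 (nat_lit 3) (nat_lit 364) (nat_lit 365) = true := by decide +kernel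
def p15_39_0_365 : pfC (piC [(nat_lit 28473124), (nat_lit 19449108), (nat_lit 12587812)] (nat_lit 12729658)) p15_39_0 (nat_lit 3) (nat_lit 365) (nat_lit 366) = true := by decide +kernel
def p15_39_0_366 : pfC (piC [(nat_lit 28473124), (nat_lit 19449108), (nat_lit 12587812)] (nat_lit 12729658)) p15_39_0 (nat_lit 3) (nat_lit 366) (nat_lit 367) = true := by decide +kernel
def p15_39_0_367 : pfC (piC [(nat_lit 28473124), (nat_lit 19449108), (nat_lit 12587812)] (nat_lit 12729658)) p15_39_0 (nat_lit 3) (nat_lit 367) (nat_lit 368) = true := by decide +kernel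
def p15_39_0_368 : pfC (piC [(nat_lit 28473124), (nat_lit 19449108), (nat_lit 12587812)] (nat_lit 12729658)) p15_39_0 (nat_lit 3) (nat_lit 368) (nat_lit 369) = true := by decide +kernel
def p15_39_0_369 : pfC (piC [(nat_lit 28473124), (nat_lit 19449108), (nat_lit 12587812)] (nat_lit 12729658)) p15_39_0 (nat_lit 3) (nat_lit 369) (nat_lit 370) = true := by decide +kernel
def p15_39_0_370 : pfC (piC [(nat_lit 28473124), (nat_lit 19449108), (nat_lit 12587812)] (nat_lit 12729658)) p15_39_0 (nat_lit 3) (nat_lit 370) (nat_lit 371) = true := by decide +kernel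
theorem p15_39_0_T : PfS (PiF n15_39.reverse (nat_lit 12729658)) p15_39_0 (nat_lit 3) [] 0 :=
  pftab_of (los := [(nat_lit 28473124), (nat_lit 19449108), (nat_lit 12587812)]) (by decide +kernel) (hi := (nat_lit 371)) (PfP.trans (PfP.trans (PfP.trans (PfP.trans (PfP.trans (PfP.trans (PfP.trans (PfP.trans (PfP.trans (PfP.trans (PfP.trans (PfP.trans (PfP.trans (PfP.trans (PfP.trans (PfP.trans (PfP.trans (PfP.trans (PfP.trans (PfP.trans (PfP.trans (PfP.trans (PfP.trans (PfP.trans (PfP.trans (PfP.trans (PfP.trans (PfP.trans (PfP.trans (PfP.trans (PfP.trans (PfP.trans (PfP.trans (PfP.trans (PfP.trans (PfP.trans (PfP.trans (PfP.trans (PfP.trans (PfP.trans (PfP.trans (PfP.trans (PfP.trans (PfP.trans (PfP.trans (PfP.trans (PfP.trans (PfP.trans (PfP.trans (PfP.trans (PfP.trans (PfP.trans (PfP.trans (PfP.trans (PfP.trans (PfP.trans (PfP.trans (PfP.trans (PfP.trans (PfP.trans (PfP.trans (PfP.trans (PfP.trans (PfP.trans (PfP.trans (PfP.trans (PfP.trans (PfP.trans (PfP.trans (PfP.trans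 (PfP.trans (PfP.trans (PfP.trans (PfP.trans (PfP.trans (PfP.trans (PfP.trans (PfP.trans (PfP.trans (PfP.trans (PfP.trans (PfP.trans (PfP.trans (PfP.trans (PfP.trans (PfP.trans (PfP.trans (PfP.trans (PfP.trans (PfP.trans (PfP.trans (PfP.trans (PfP.trans (PfP.trans (PfP.trans (PfP.trans (PfP.trans (PfP.trans (PfP.trans (PfP.trans (PfP.trans (PfP.trans (PfP.trans (PfP.trans (PfP.trans (PfP.trans (PfP.trans (PfP.trans (PfP.trans
 (PfP.trans (PfP.trans (PfP.trans (PfP.trans (PfP.trans (PfP.trans (PfP.trans (PfP.trans (PfP.trans (PfP.trans (PfP.trans (PfP.trans (PfP.trans (PfP.trans (PfP.trans (PfP.trans (PfP.trans (PfP.trans (PfP.trans (PfP.trans (PfP.trans (PfP.trans (PfP.trans (PfP.trans (PfP.trans (PfP.trans (PfP.trans (PfP.trans (PfP.trans (PfP.trans (PfP.trans (PfP.trans (PfP.trans (PfP.trans (PfP.trans (PfP.trans (PfP.trans (PfP.trans (PfP.trans (PfP.trans (PfP.trans (PfP.trans (PfP.trans (PfP.trans (PfP.trans (PfP.trans (PfP.trans (PfP.trans (PfP.trans (PfP.trans (PfP.trans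 (PfP.trans (PfP.trans (PfP.trans (PfP.trans (PfP.trans (PfP.trans (PfP.trans (PfP.trans (PfP.trans (PfP.trans (PfP.trans (PfP.trans (PfP.trans (PfP.trans (PfP.trans (PfP.trans (PfP.trans (PfP.trans (PfP.trans (PfP.trans (PfP.trans (PfP.trans (PfP.trans (PfP.trans (PfP.trans (PfP.trans (PfP.trans (PfP.trans (PfP.trans (PfP.trans (PfP.trans (PfP.trans (PfP.trans (PfP.trans (PfP.trans (PfP.trans (PfP.trans (PfP.trans (PfP.trans (PfP.trans (PfP.trans (PfP.trans (PfP.trans (PfP.trans (PfP.trans (PfP.trans (PfP.trans (PfP.trans (PfP.trans (PfP.trans (PfP.trans (PfP.trans (PfP.trans (PfP.trans (PfP.trans (PfP.trans (PfP.trans (PfP.trans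
 (PfP.trans (PfP.trans (PfP.trans (PfP.trans (PfP.trans (PfP.trans (PfP.trans (PfP.trans (PfP.trans (PfP.trans (PfP.trans (PfP.trans (PfP.trans (PfP.trans (PfP.trans (PfP.trans (PfP.trans (PfP.trans (PfP.trans (PfP.trans (PfP.trans (PfP.trans (PfP.trans (PfP.trans (PfP.trans (PfP.trans (PfP.trans (PfP.trans (PfP.trans (PfP.trans (PfP.trans (PfP.trans (PfP.trans (PfP.trans (PfP.trans (PfP.trans (PfP.trans (PfP.trans (PfP.trans (PfP.trans (PfP.trans (PfP.trans (PfP.trans (PfP.trans (PfP.trans (PfP.trans (PfP.trans (PfP.trans (PfP.trans (PfP.trans (PfP.trans (PfP.trans (PfP.trans (PfP.trans (PfP.trans (PfP.trans (PfP.trans (PfP.trans (PfP.trans (PfP.trans (PfP.trans (PfP.trans (PfP.trans (PfP.trans (PfP.trans (PfP.trans (PfP.trans (PfP.trans (PfP.trans (PfP.trans (PfP.trans (PfP.trans (PfP.trans (PfP.trans (PfP.trans (PfP.trans (PfP.trans (PfP.trans (PfP.trans (PfP.trans (PfP.trans (PfP.trans (PfP.trans (PfP.trans (PfP.trans (PfP.trans (PfP.trans (PfP.trans (PfP.trans (PfP.trans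 (PfP.trans (PfP.trans (PfP.trans (PfP.trans (PfP.trans (PfP.trans (PfP.trans (PfP.trans (PfP.trans (PfP.trans (PfP.trans (PfP.trans (PfP.trans (PfP.trans (PfP.trans (PfP.trans (PfP.trans (PfP.trans (PfP.trans
 (PfP.trans (PfP.trans (PfP.trans (PfP.trans (PfP.trans (PfP.trans (PfP.trans (PfP.trans (PfP.trans (PfP.trans (PfP.trans (PfP.trans (PfP.trans (PfP.trans (PfP.trans (PfP.trans (PfP.trans (PfP.trans (PfP.trans (PfP.trans (PfP.trans (PfP.trans (PfP.trans (PfP.trans (PfP.trans (PfP.trans (PfP.trans (PfP.trans (PfP.trans (PfP.trans (PfP.trans (PfP.trans (PfP.trans (PfP.trans (PfP.trans (PfP.trans (PfP.trans (PfP.trans (PfP.trans (PfP.trans (PfP.trans (PfP.trans (PfP.trans (pfC_sound p15_39_0_0) (pfC_sound p15_39_0_1)) (pfC_sound p15_39_0_2)) (pfC_sound p15_39_0_3)) (pfC_sound p15_39_0_4)) (pfC_sound p15_39_0_5)) (pfC_sound p15_39_0_6)) (pfC_sound p15_39_0_7)) (pfC_sound p15_39_0_8)) (pfC_sound p15_39_0_9)) (pfC_sound p15_39_0_10)) (pfC_sound p15_39_0_11)) (pfC_sound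 p15_39_0_12)) (pfC_sound p15_39_0_13)) (pfC_sound p15_39_0_14)) (pfC_sound p15_39_0_15)) (pfC_sound p15_39_0_16)) (pfC_sound p15_39_0_17)) (pfC_sound p15_39_0_18)) (pfC_sound p15_39_0_19)) (pfC_sound p15_39_0_20)) (pfC_sound p15_39_0_21)) (pfC_sound p15_39_0_22)) (pfC_sound p15_39_0_23)) (pfC_sound p15_39_0_24)) (pfC_sound p15_39_0_25)) (pfC_sound p15_39_0_26)) (pfC_sound p15_39_0_27)) (pfC_sound p15_39_0_28)) (pfC_sound
 p15_39_0_29)) (pfC_sound p15_39_0_30)) (pfC_sound p15_39_0_31)) (pfC_sound p15_39_0_32)) (pfC_sound p15_39_0_33)) (pfC_sound p15_39_0_34)) (pfC_sound p15_39_0_35)) (pfC_sound p15_39_0_36)) (pfC_sound p15_39_0_37)) (pfC_sound p15_39_0_38)) (pfC_sound p15_39_0_39)) (pfC_sound p15_39_0_40)) (pfC_sound p15_39_0_41)) (pfC_sound p15_39_0_42)) (pfC_sound p15_39_0_43)) (pfC_sound p15_39_0_44)) (pfC_sound p15_39_0_45)) (pfC_sound p15_39_0_46)) (pfC_sound p15_39_0_47)) (pfC_sound p15_39_0_48)) (pfC_sound p15_39_0_49)) (pfC_sound p15_39_0_50)) (pfC_sound p15_39_0_51))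 (pfC_sound p15_39_0_52)) (pfC_sound p15_39_0_53)) (pfC_sound p15_39_0_54)) (pfC_sound p15_39_0_55)) (pfC_sound p15_39_0_56)) (pfC_sound p15_39_0_57)) (pfC_sound p15_39_0_58)) (pfC_sound p15_39_0_59)) (pfC_sound p15_39_0_60)) (pfC_sound p15_39_0_61)) (pfC_sound p15_39_0_62)) (pfC_sound p15_39_0_63)) (pfC_sound p15_39_0_64)) (pfC_sound p15_39_0_65)) (pfC_sound p15_39_0_66)) (pfC_sound p15_39_0_67)) (pfC_sound p15_39_0_68)) (pfC_sound p15_39_0_69)) (pfC_sound p15_39_0_70)) (pfC_sound p15_39_0_71)) (pfC_sound p15_39_0_72)) (pfC_sound p15_39_0_73)) (pfC_sound p15_39_0_74)) (pfC_sound p15_39_0_75)) (pfC_sound p15_39_0_76)) (pfC_sound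
 p15_39_0_77)) (pfC_sound p15_39_0_78)) (pfC_sound p15_39_0_79)) (pfC_sound p15_39_0_80)) (pfC_sound p15_39_0_81)) (pfC_sound p15_39_0_82)) (pfC_sound p15_39_0_83)) (pfC_sound p15_39_0_84)) (pfC_sound p15_39_0_85)) (pfC_sound p15_39_0_86)) (pfC_sound p15_39_0_87)) (pfC_sound p15_39_0_88)) (pfC_sound p15_39_0_89)) (pfC_sound p15_39_0_90)) (pfC_sound p15_39_0_91)) (pfC_sound p15_39_0_92)) (pfC_sound p15_39_0_93)) (pfC_sound p15_39_0_94)) (pfC_sound p15_39_0_95)) (pfC_sound p15_39_0_96)) (pfC_sound p15_39_0_97)) (pfC_sound p15_39_0_98)) (pfC_sound p15_39_0_99)) (pfC_sound p15_39_0_100)) (pfC_sound p15_39_0_101)) (pfC_sound p15_39_0_102)) (pfC_sound p15_39_0_103)) (pfC_sound p15_39_0_104)) (pfC_sound p15_39_0_105)) (pfC_sound p15_39_0_106)) (pfC_sound p15_39_0_107)) (pfC_sound p15_39_0_108)) (pfC_sound p15_39_0_109)) (pfC_sound p15_39_0_110)) (pfC_sound p15_39_0_111)) (pfC_sound p15_39_0_112)) (pfC_sound p15_39_0_113)) (pfC_sound p15_39_0_114)) (pfC_sound p15_39_0_115))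 (pfC_sound p15_39_0_116)) (pfC_sound p15_39_0_117)) (pfC_sound p15_39_0_118)) (pfC_sound p15_39_0_119)) (pfC_sound p15_39_0_120)) (pfC_sound p15_39_0_121)) (pfC_sound p15_39_0_122)) (pfC_sound p15_39_0_123)) (pfC_sound
 p15_39_0_124)) (pfC_sound p15_39_0_125)) (pfC_sound p15_39_0_126)) (pfC_sound p15_39_0_127)) (pfC_sound p15_39_0_128)) (pfC_sound p15_39_0_129)) (pfC_sound p15_39_0_130)) (pfC_sound p15_39_0_131)) (pfC_sound p15_39_0_132)) (pfC_sound p15_39_0_133)) (pfC_sound p15_39_0_134)) (pfC_sound p15_39_0_135)) (pfC_sound p15_39_0_136)) (pfC_sound p15_39_0_137)) (pfC_sound p15_39_0_138)) (pfC_sound p15_39_0_139)) (pfC_sound p15_39_0_140)) (pfC_sound p15_39_0_141)) (pfC_sound p15_39_0_142)) (pfC_sound p15_39_0_143)) (pfC_sound p15_39_0_144)) (pfC_sound p15_39_0_145)) (pfC_sound p15_39_0_146)) (pfC_sound p15_39_0_147)) (pfC_sound p15_39_0_148)) (pfC_sound p15_39_0_149)) (pfC_sound p15_39_0_150)) (pfC_sound p15_39_0_151)) (pfC_sound p15_39_0_152)) (pfC_sound p15_39_0_153))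 (pfC_sound p15_39_0_154)) (pfC_sound p15_39_0_155)) (pfC_sound p15_39_0_156)) (pfC_sound p15_39_0_157)) (pfC_sound p15_39_0_158)) (pfC_sound p15_39_0_159)) (pfC_sound p15_39_0_160)) (pfC_sound p15_39_0_161)) (pfC_sound p15_39_0_162)) (pfC_sound p15_39_0_163)) (pfC_sound p15_39_0_164)) (pfC_sound p15_39_0_165)) (pfC_sound p15_39_0_166)) (pfC_sound p15_39_0_167)) (pfC_sound p15_39_0_168)) (pfC_sound p15_39_0_169)) (pfC_sound
 p15_39_0_170)) (pfC_sound p15_39_0_171)) (pfC_sound p15_39_0_172)) (pfC_sound p15_39_0_173)) (pfC_sound p15_39_0_174)) (pfC_sound p15_39_0_175)) (pfC_sound p15_39_0_176)) (pfC_sound p15_39_0_177)) (pfC_sound p15_39_0_178)) (pfC_sound p15_39_0_179)) (pfC_sound p15_39_0_180)) (pfC_sound p15_39_0_181)) (pfC_sound p15_39_0_182)) (pfC_sound p15_39_0_183)) (pfC_sound p15_39_0_184)) (pfC_sound p15_39_0_185)) (pfC_sound p15_39_0_186)) (pfC_sound p15_39_0_187)) (pfC_sound p15_39_0_188)) (pfC_sound p15_39_0_189)) (pfC_sound p15_39_0_190)) (pfC_sound p15_39_0_191))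 (pfC_sound p15_39_0_192)) (pfC_sound p15_39_0_193)) (pfC_sound p15_39_0_194)) (pfC_sound p15_39_0_195)) (pfC_sound p15_39_0_196)) (pfC_sound p15_39_0_197)) (pfC_sound p15_39_0_198)) (pfC_sound p15_39_0_199)) (pfC_sound p15_39_0_200)) (pfC_sound p15_39_0_201)) (pfC_sound p15_39_0_202)) (pfC_sound p15_39_0_203)) (pfC_sound p15_39_0_204)) (pfC_sound p15_39_0_205)) (pfC_sound p15_39_0_206)) (pfC_sound p15_39_0_207)) (pfC_sound p15_39_0_208)) (pfC_sound p15_39_0_209)) (pfC_sound p15_39_0_210)) (pfC_sound p15_39_0_211)) (pfC_sound p15_39_0_212)) (pfC_sound p15_39_0_213)) (pfC_sound p15_39_0_214)) (pfC_sound p15_39_0_215)) (pfC_sound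
 p15_39_0_216)) (pfC_sound p15_39_0_217)) (pfC_sound p15_39_0_218)) (pfC_sound p15_39_0_219)) (pfC_sound p15_39_0_220)) (pfC_sound p15_39_0_221)) (pfC_sound p15_39_0_222)) (pfC_sound p15_39_0_223)) (pfC_sound p15_39_0_224)) (pfC_sound p15_39_0_225)) (pfC_sound p15_39_0_226)) (pfC_sound p15_39_0_227)) (pfC_sound p15_39_0_228)) (pfC_sound p15_39_0_229)) (pfC_sound p15_39_0_230)) (pfC_sound p15_39_0_231)) (pfC_sound p15_39_0_232)) (pfC_sound p15_39_0_233)) (pfC_sound p15_39_0_234)) (pfC_sound p15_39_0_235)) (pfC_sound p15_39_0_236)) (pfC_sound p15_39_0_237)) (pfC_sound p15_39_0_238)) (pfC_sound p15_39_0_239)) (pfC_sound p15_39_0_240)) (pfC_sound p15_39_0_241)) (pfC_sound p15_39_0_242)) (pfC_sound p15_39_0_243)) (pfC_sound p15_39_0_244)) (pfC_sound p15_39_0_245)) (pfC_sound p15_39_0_246)) (pfC_sound p15_39_0_247)) (pfC_sound p15_39_0_248)) (pfC_sound p15_39_0_249)) (pfC_sound p15_39_0_250)) (pfC_sound p15_39_0_251)) (pfC_sound p15_39_0_252)) (pfC_sound p15_39_0_253)) (pfC_sound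 p15_39_0_254)) (pfC_sound p15_39_0_255)) (pfC_sound p15_39_0_256)) (pfC_sound p15_39_0_257)) (pfC_sound p15_39_0_258)) (pfC_sound p15_39_0_259)) (pfC_sound p15_39_0_260)) (pfC_sound p15_39_0_261)) (pfC_sound
 p15_39_0_262)) (pfC_sound p15_39_0_263)) (pfC_sound p15_39_0_264)) (pfC_sound p15_39_0_265)) (pfC_sound p15_39_0_266)) (pfC_sound p15_39_0_267)) (pfC_sound p15_39_0_268)) (pfC_sound p15_39_0_269)) (pfC_sound p15_39_0_270)) (pfC_sound p15_39_0_271)) (pfC_sound p15_39_0_272)) (pfC_sound p15_39_0_273)) (pfC_sound p15_39_0_274)) (pfC_sound p15_39_0_275)) (pfC_sound p15_39_0_276)) (pfC_sound p15_39_0_277)) (pfC_sound p15_39_0_278)) (pfC_sound p15_39_0_279)) (pfC_sound p15_39_0_280)) (pfC_sound p15_39_0_281)) (pfC_sound p15_39_0_282)) (pfC_sound p15_39_0_283)) (pfC_sound p15_39_0_284)) (pfC_sound p15_39_0_285)) (pfC_sound p15_39_0_286)) (pfC_sound p15_39_0_287)) (pfC_sound p15_39_0_288)) (pfC_sound p15_39_0_289)) (pfC_sound p15_39_0_290)) (pfC_sound p15_39_0_291)) (pfC_sound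 p15_39_0_292)) (pfC_sound p15_39_0_293)) (pfC_sound p15_39_0_294)) (pfC_sound p15_39_0_295)) (pfC_sound p15_39_0_296)) (pfC_sound p15_39_0_297)) (pfC_sound p15_39_0_298)) (pfC_sound p15_39_0_299)) (pfC_sound p15_39_0_300)) (pfC_sound p15_39_0_301)) (pfC_sound p15_39_0_302)) (pfC_sound p15_39_0_303)) (pfC_sound p15_39_0_304)) (pfC_sound p15_39_0_305)) (pfC_sound p15_39_0_306)) (pfC_sound p15_39_0_307)) (pfC_sound
 p15_39_0_308)) (pfC_sound p15_39_0_309)) (pfC_sound p15_39_0_310)) (pfC_sound p15_39_0_311)) (pfC_sound p15_39_0_312)) (pfC_sound p15_39_0_313)) (pfC_sound p15_39_0_314)) (pfC_sound p15_39_0_315)) (pfC_sound p15_39_0_316)) (pfC_sound p15_39_0_317)) (pfC_sound p15_39_0_318)) (pfC_sound p15_39_0_319)) (pfC_sound p15_39_0_320)) (pfC_sound p15_39_0_321)) (pfC_sound p15_39_0_322)) (pfC_sound p15_39_0_323)) (pfC_sound p15_39_0_324)) (pfC_sound p15_39_0_325)) (pfC_sound p15_39_0_326)) (pfC_sound p15_39_0_327)) (pfC_sound p15_39_0_328)) (pfC_sound p15_39_0_329)) (pfC_sound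 p15_39_0_330)) (pfC_sound p15_39_0_331)) (pfC_sound p15_39_0_332)) (pfC_sound p15_39_0_333)) (pfC_sound p15_39_0_334)) (pfC_sound p15_39_0_335)) (pfC_sound p15_39_0_336)) (pfC_sound p15_39_0_337)) (pfC_sound p15_39_0_338)) (pfC_sound p15_39_0_339)) (pfC_sound p15_39_0_340)) (pfC_sound p15_39_0_341)) (pfC_sound p15_39_0_342)) (pfC_sound p15_39_0_343)) (pfC_sound p15_39_0_344)) (pfC_sound p15_39_0_345)) (pfC_sound p15_39_0_346)) (pfC_sound p15_39_0_347)) (pfC_sound p15_39_0_348)) (pfC_sound p15_39_0_349)) (pfC_sound p15_39_0_350)) (pfC_sound p15_39_0_351)) (pfC_sound p15_39_0_352)) (pfC_sound p15_39_0_353)) (pfC_sound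
 p15_39_0_354)) (pfC_sound p15_39_0_355)) (pfC_sound p15_39_0_356)) (pfC_sound p15_39_0_357)) (pfC_sound p15_39_0_358)) (pfC_sound p15_39_0_359)) (pfC_sound p15_39_0_360)) (pfC_sound p15_39_0_361)) (pfC_sound p15_39_0_362)) (pfC_sound p15_39_0_363)) (pfC_sound p15_39_0_364)) (pfC_sound p15_39_0_365)) (pfC_sound p15_39_0_366)) (pfC_sound p15_39_0_367)) (pfC_sound p15_39_0_368)) (pfC_sound p15_39_0_369)) (pfC_sound p15_39_0_370)) (by decide +kernel)

def z15_39_0 : zOK yB15_39 (nat_lit 0) (nat_lit 0) (nat_lit 400) (nat_lit 12729658) (nat_lit 10729447) = true := by decide +kernel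
def g15_39_0 : gOK yB15_39.x P15_39 (nat_lit 1341) (q15_39 :: r15_39) (nat_lit 0) (nat_lit 0) (nat_lit 1) (nat_lit 400) (nat_lit 0) (nat_lit 11000000) (nat_lit 12712500) (nat_lit 12712500) [(nat_lit 800), (nat_lit 1600)] = true := by decide +kernel
def v15_39_0 : ivC P15_39 s15_39 w15_39 n15_39 (nat_lit 3) (nat_lit 5210) (nat_lit 0) (nat_lit 0) f192_0_0 f200_0_0 (nat_lit 1) (nat_lit 400) f192_0_400 f200_0_400 (nat_lit 12729658) (nat_lit 10729447) p15_39_0 = true := by decide +kernel
def p15_39_1 : PF := (PF.cons (PF.cons (PF.cons (PF.leaf (nat_lit 1966150) (nat_lit 8967787) (nat_lit 58141025) (nat_lit 8967787) [(nat_lit 0), (nat_lit 0), (nat_lit 0)]) (PF.cons (PF.leaf (nat_lit 2424789) (nat_lit 979029) (nat_lit 57072008) (nat_lit 9057774) [(nat_lit 979029), (nat_lit 0), (nat_lit 0)]) (PF.cons (PF.leaf (nat_lit 2958405) (nat_lit 1061989) (nat_lit 55847437) (nat_lit 9137396) [(nat_lit 1061989), (nat_lit 0), (nat_lit 0)]) (PF.cons (PF.leaf (nat_lit 3549118) (nat_lit 1132175)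 (nat_lit 54513108) (nat_lit 9199178) [(nat_lit 1132175), (nat_lit 0), (nat_lit 0)]) (PF.cons (PF.leaf (nat_lit 4183061) (nat_lit 1191412) (nat_lit 53103804) (nat_lit 9239357) [(nat_lit 1191412), (nat_lit 0), (nat_lit 0)]) (PF.cons (PF.leaf (nat_lit 4848778) (nat_lit 1240989) (nat_lit 51647264) (nat_lit 9256603) [(nat_lit 1240989), (nat_lit 0), (nat_lit 0)]) (PF.cons (PF.leaf (nat_lit 5536621) (nat_lit 1281946) (nat_lit 50165963) (nat_lit 9251173) [(nat_lit 1281946), (nat_lit 0), (nat_lit 0)]) (PF.cons (PF.leaf (nat_lit 6238448) (nat_lit 1315196) (nat_lit 48678109) (nat_lit 9224325) [(nat_lit 1315196), (nat_lit 0), (nat_lit 0)]) (PF.cons (PF.leaf (nat_lit 6947444) (nat_lit 1341573) (nat_lit 47198315) (nat_lit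
 9177907) [(nat_lit 1341573), (nat_lit 0), (nat_lit 0)]) (PF.cons (PF.leaf (nat_lit 7657958) (nat_lit 1361845) (nat_lit 45738134) (nat_lit 9114068) [(nat_lit 1361845), (nat_lit 0), (nat_lit 0)]) (PF.cons (PF.leaf (nat_lit 8365367) (nat_lit 1376724) (nat_lit 44306511) (nat_lit 9035060) [(nat_lit 1376724), (nat_lit 0), (nat_lit 0)]) (PF.cons (PF.leaf (nat_lit 9065964) (nat_lit 1386864) (nat_lit 42910195) (nat_lit 8943109) [(nat_lit 1386864), (nat_lit 0), (nat_lit 0)]) (PF.cons (PF.leaf (nat_lit 9756794) (nat_lit 1392865) (nat_lit 41554103) (nat_lit 8840327) [(nat_lit 1392865), (nat_lit 0), (nat_lit 0)]) (PF.cons (PF.leaf (nat_lit 10435606) (nat_lit 1395269) (nat_lit 40241634) (nat_lit 8728670) [(nat_lit 1395269), (nat_lit 0), (nat_lit 0)]) (PF.cons (PF.leaf (nat_lit 11100669) (nat_lit 1394567) (nat_lit 38974959) (nat_lit 8609906) [(nat_lit 1394567), (nat_lit 0), (nat_lit 0)]) (PF.cons (PF.leaf (nat_lit 11750748) (nat_lit 1391196) (nat_lit 37755256) (nat_lit 8485610) [(nat_lit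 1391196), (nat_lit 0), (nat_lit 0)]) (PF.cons PF.nil (PF.cons PF.nil (PF.cons PF.nil (PF.cons PF.nil PF.nil)))))))))))))))))))) (PF.cons (PF.cons (PF.leaf (nat_lit 3099104) (nat_lit 3286213) (nat_lit 54663828)
 (nat_lit 9158770) [(nat_lit 0), (nat_lit 3286213), (nat_lit 0)]) (PF.cons (PF.leaf (nat_lit 3655367) (nat_lit 1135226) (nat_lit 53399565) (nat_lit 9200565) [(nat_lit 1135226), (nat_lit 3373454), (nat_lit 0)]) (PF.cons (PF.leaf (nat_lit 4259300) (nat_lit 1192156) (nat_lit 52052437) (nat_lit 9224034) [(nat_lit 1192156), (nat_lit 3448028), (nat_lit 0)]) (PF.cons (PF.leaf (nat_lit 4897946) (nat_lit 1239564) (nat_lit 50653646) (nat_lit 9227461) [(nat_lit 1239564), (nat_lit 3509011), (nat_lit 0)]) (PF.cons (PF.leaf (nat_lit 5560988) (nat_lit 1278586) (nat_lit 49227159) (nat_lit 9210771) [(nat_lit 1278586), (nat_lit 3556536), (nat_lit 0)]) (PF.cons (PF.leaf (nat_lit 6239962) (nat_lit 1310164) (nat_lit 47791781) (nat_lit 9174911) [(nat_lit 1310164), (nat_lit 3591297),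 (nat_lit 0)]) (PF.cons (PF.leaf (nat_lit 6927876) (nat_lit 1335130) (nat_lit 46362316) (nat_lit 9121433) [(nat_lit 1335130), (nat_lit 3614280), (nat_lit 0)]) (PF.cons (PF.leaf (nat_lit 7618983) (nat_lit 1354238) (nat_lit 44950327) (nat_lit 9052210) [(nat_lit 1354238), (nat_lit 3626608), (nat_lit 0)]) (PF.cons (PF.leaf (nat_lit 8308572) (nat_lit 1368176) (nat_lit 43564709) (nat_lit 8969244) [(nat_lit 1368176), (nat_lit
 3629444), (nat_lit 0)]) (PF.cons (PF.leaf (nat_lit 8992881) (nat_lit 1377576) (nat_lit 42212153) (nat_lit 8874532) [(nat_lit 1377576), (nat_lit 3623934), (nat_lit 0)]) (PF.cons (PF.leaf (nat_lit 9668891) (nat_lit 1383012) (nat_lit 40897535) (nat_lit 8769988) [(nat_lit 1383012), (nat_lit 3611167), (nat_lit 0)]) (PF.cons (PF.leaf (nat_lit 10334252) (nat_lit 1385001) (nat_lit 39624245) (nat_lit 8657389) [(nat_lit 1385001), (nat_lit 3592158), (nat_lit 0)]) (PF.cons (PF.leaf (nat_lit 10987187) (nat_lit 1384013) (nat_lit 38394472) (nat_lit 8538353) [(nat_lit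 1384013), (nat_lit 3567831), (nat_lit 0)]) (PF.cons (PF.leaf (nat_lit 11626372) (nat_lit 1380463) (nat_lit 37209437) (nat_lit 8414326) [(nat_lit 1380463), (nat_lit 3539024), (nat_lit 0)]) (PF.cons (PF.leaf (nat_lit 12250848) (nat_lit 1374724) (nat_lit 36069603) (nat_lit 8286583) [(nat_lit 1374724), (nat_lit 3506482), (nat_lit 0)]) (PF.cons PF.nil (PF.cons PF.nil (PF.cons PF.nil PF.nil)))))))))))))))))) (PF.cons (PF.cons (PF.leaf (nat_lit 4341856) (nat_lit 3458199) (nat_lit 50992577) (nat_lit 9199835) [(nat_lit 0), (nat_lit 3458199), (nat_lit 0)]) (PF.cons (PF.leaf (nat_lit 4950880) (nat_lit 1235820) (nat_lit 49660041) (nat_lit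
 9191235) [(nat_lit 1235820), (nat_lit 3510857), (nat_lit 0)]) (PF.cons (PF.leaf (nat_lit 5587753) (nat_lit 1273437) (nat_lit 48293666) (nat_lit 9164799) [(nat_lit 1273437), (nat_lit 3551736), (nat_lit 0)]) (PF.cons (PF.leaf (nat_lit 6243151) (nat_lit 1303737) (nat_lit 46914063) (nat_lit 9121188) [(nat_lit 1303737), (nat_lit 3581173), (nat_lit 0)]) (PF.cons (PF.leaf (nat_lit 6909657) (nat_lit 1327596) (nat_lit 45536916) (nat_lit 9061690) [(nat_lit 1327596), (nat_lit 3599909), (nat_lit 0)]) (PF.cons (PF.leaf (nat_lit 7581262) (nat_lit 1345778) (nat_lit 44174228) (nat_lit 8987935) [(nat_lit 1345778), (nat_lit 3608878), (nat_lit 0)]) (PF.cons (PF.leaf (nat_lit 8253095) (nat_lit 1358966) (nat_lit 42835123) (nat_lit 8901701) [(nat_lit 1358966), (nat_lit 3609094), (nat_lit 0)]) (PF.cons (PF.leaf (nat_lit 8921248) (nat_lit 1367777) (nat_lit 41526425) (nat_lit 8804785) [(nat_lit 1367777), (nat_lit 3601578), (nat_lit 0)]) (PF.cons (PF.leaf (nat_lit 9582614) (nat_lit 1372769)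 (nat_lit 40253101) (nat_lit 8698922) [(nat_lit 1372769), (nat_lit 3587317), (nat_lit 0)]) (PF.cons (PF.leaf (nat_lit 10234732) (nat_lit 1374441) (nat_lit 39018625) (nat_lit 8585735) [(nat_lit 1374441), (nat_lit
 3567238), (nat_lit 0)]) (PF.cons (PF.leaf (nat_lit 10875732) (nat_lit 1373244) (nat_lit 37825269) (nat_lit 8466705) [(nat_lit 1373244), (nat_lit 3542194), (nat_lit 0)]) (PF.cons (PF.leaf (nat_lit 11504189) (nat_lit 1369580) (nat_lit 36674351) (nat_lit 8343162) [(nat_lit 1369580), (nat_lit 3512957), (nat_lit 0)]) (PF.cons (PF.leaf (nat_lit 12119085) (nat_lit 1363804) (nat_lit 35566429) (nat_lit 8216283) [(nat_lit 1363804), (nat_lit 3480222), (nat_lit 0)]) (PF.cons PF.nil (PF.cons PF.nil (PF.cons PF.nil PF.nil)))))))))))))))) (PF.cons (PF.cons (PF.leaf (nat_lit 5619438) (nat_lit 3544373) (nat_lit 47362232) (nat_lit 9113459) [(nat_lit 0), (nat_lit 3544373), (nat_lit 0)]) (PF.cons (PF.leaf (nat_lit 6249827) (nat_lit 1295848) (nat_lit 46042684) (nat_lit 9063338) [(nat_lit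 1295848), (nat_lit 3568980), (nat_lit 0)]) (PF.cons (PF.leaf (nat_lit 6894157) (nat_lit 1318935) (nat_lit 44720419) (nat_lit 8998833) [(nat_lit 1318935), (nat_lit 3583896), (nat_lit 0)]) (PF.cons (PF.leaf (nat_lit 7545865) (nat_lit 1336446) (nat_lit 43408501) (nat_lit 8921368) [(nat_lit 1336446), (nat_lit 3589867), (nat_lit 0)]) (PF.cons (PF.leaf (nat_lit 8199770) (nat_lit 1349081) (nat_lit 42116658) (nat_lit 8832530)
 [(nat_lit 1349081), (nat_lit 3587765), (nat_lit 0)]) (PF.cons (PF.leaf (nat_lit 8851742) (nat_lit 1357460) (nat_lit 40852084) (nat_lit 8733943) [(nat_lit 1357460), (nat_lit 3578493), (nat_lit 0)]) (PF.cons (PF.leaf (nat_lit 9498500) (nat_lit 1362131) (nat_lit 39620002) (nat_lit 8627187) [(nat_lit 1362131), (nat_lit 3562944), (nat_lit 0)]) (PF.cons (PF.leaf (nat_lit 10137469) (nat_lit 1363586) (nat_lit 38424074) (nat_lit 8513747) [(nat_lit 1363586), (nat_lit 3541962), (nat_lit 0)]) (PF.cons (PF.leaf (nat_lit 10766639) (nat_lit 1362260) (nat_lit 37266736)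 (nat_lit 8394986) [(nat_lit 1362260), (nat_lit 3516335), (nat_lit 0)]) (PF.cons (PF.leaf (nat_lit 11384493) (nat_lit 1358544) (nat_lit 36149448) (nat_lit 8272133) [(nat_lit 1358544), (nat_lit 3486777), (nat_lit 0)]) (PF.cons (PF.leaf (nat_lit 11989908) (nat_lit 1352782) (nat_lit 35072908) (nat_lit 8146276) [(nat_lit 1352782), (nat_lit 3453934), (nat_lit 0)]) (PF.cons PF.nil (PF.cons PF.nil (PF.cons PF.nil PF.nil)))))))))))))) (PF.cons (PF.cons (PF.leaf (nat_lit 6883072) (nat_lit 3566328) (nat_lit 43910566) (nat_lit 8932931) [(nat_lit 0), (nat_lit 3566328), (nat_lit 0)]) (PF.cons (PF.leaf (nat_lit 7514029) (nat_lit 1326192) (nat_lit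
 42651465) (nat_lit 8852575) [(nat_lit 1326192), (nat_lit 3569645), (nat_lit 0)]) (PF.cons (PF.leaf (nat_lit 8149548) (nat_lit 1338492) (nat_lit 41407998) (nat_lit 8761787) [(nat_lit 1338492), (nat_lit 3565510), (nat_lit 0)]) (PF.cons (PF.leaf (nat_lit 8785094) (nat_lit 1346604) (nat_lit 40188065) (nat_lit 8662050) [(nat_lit 1346604), (nat_lit 3554720), (nat_lit 0)]) (PF.cons (PF.leaf (nat_lit 9417139) (nat_lit 1351086) (nat_lit 38997346) (nat_lit 8554813) [(nat_lit 1351086), (nat_lit 3538077), (nat_lit 0)]) (PF.cons (PF.leaf (nat_lit 10042919) (nat_lit 1352424) (nat_lit 37839834) (nat_lit 8441445) [(nat_lit 1352424), (nat_lit 3516351), (nat_lit 0)]) (PF.cons (PF.leaf (nat_lit 10660281) (nat_lit 1351052) (nat_lit 36718215) (nat_lit 8323209) [(nat_lit 1351052), (nat_lit 3490269), (nat_lit 0)]) (PF.cons (PF.leaf (nat_lit 11267579) (nat_lit 1347348) (nat_lit 35634156) (nat_lit 8201241) [(nat_lit 1347348), (nat_lit 3460493), (nat_lit 0)]) (PF.cons (PF.leaf (nat_lit 11863565)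 (nat_lit 1341652) (nat_lit 34588536) (nat_lit 8076557) [(nat_lit 1341652), (nat_lit 3427625), (nat_lit 0)]) (PF.cons (PF.leaf (nat_lit 12447339) (nat_lit 1334258) (nat_lit 33581624) (nat_lit 7950047) [(nat_lit
 1334258), (nat_lit 3392204), (nat_lit 0)]) (PF.cons PF.nil (PF.cons PF.nil PF.nil)))))))))))) (PF.cons (PF.cons (PF.leaf (nat_lit 8103586) (nat_lit 3542364) (nat_lit 40707519) (nat_lit 8689469) [(nat_lit 0), (nat_lit 3542364), (nat_lit 0)]) (PF.cons (PF.leaf (nat_lit 8722151) (nat_lit 1335173) (nat_lit 39533105) (nat_lit 8589106) [(nat_lit 1335173), (nat_lit 3530285), (nat_lit 0)]) (PF.cons (PF.leaf (nat_lit 9339188) (nat_lit 1339606) (nat_lit 38384120) (nat_lit 8481800) [(nat_lit 1339606), (nat_lit 3512735), (nat_lit 0)]) (PF.cons (PF.leaf (nat_lit 9951610) (nat_lit 1340939) (nat_lit 37265067) (nat_lit 8368828) [(nat_lit 1340939), (nat_lit 3490419), (nat_lit 0)]) (PF.cons (PF.leaf (nat_lit 10557072) (nat_lit 1339605) (nat_lit 36178998) (nat_lit 8251366) [(nat_lit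 1339605), (nat_lit 3464005), (nat_lit 0)]) (PF.cons (PF.leaf (nat_lit 11153757) (nat_lit 1335983) (nat_lit 35127867) (nat_lit 8130479) [(nat_lit 1335983), (nat_lit 3434109), (nat_lit 0)]) (PF.cons (PF.leaf (nat_lit 11740304) (nat_lit 1330405) (nat_lit 34112787) (nat_lit 8007116) [(nat_lit 1330405), (nat_lit 3401295), (nat_lit 0)]) (PF.cons (PF.leaf (nat_lit 12315685) (nat_lit 1323162) (nat_lit 33134221) (nat_lit 7882112)
 [(nat_lit 1323162), (nat_lit 3366067), (nat_lit 0)]) (PF.cons PF.nil (PF.cons PF.nil PF.nil)))))))))) (PF.cons (PF.cons (PF.leaf (nat_lit 9265449) (nat_lit 3486926) (nat_lit 37779134) (nat_lit 8408118) [(nat_lit 0), (nat_lit 3486926), (nat_lit 0)]) (PF.cons (PF.leaf (nat_lit 9864119) (nat_lit 1329100) (nat_lit 36698820) (nat_lit 8295870) [(nat_lit 1329100), (nat_lit 3464170), (nat_lit 0)]) (PF.cons (PF.leaf (nat_lit 10457455) (nat_lit 1327898) (nat_lit 35648304) (nat_lit 8179437) [(nat_lit 1327898), (nat_lit 3437545), (nat_lit 0)]) (PF.cons (PF.leaf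 (nat_lit 11043392) (nat_lit 1324429) (nat_lit 34629928) (nat_lit 8059825) [(nat_lit 1324429), (nat_lit 3407628), (nat_lit 0)]) (PF.cons (PF.leaf (nat_lit 11620398) (nat_lit 1319027) (nat_lit 33645102) (nat_lit 7937931) [(nat_lit 1319027), (nat_lit 3374944), (nat_lit 0)]) (PF.cons (PF.leaf (nat_lit 12187328) (nat_lit 1311981) (nat_lit 32694533) (nat_lit 7814544) [(nat_lit 1311981), (nat_lit 3339970), (nat_lit 0)]) (PF.cons PF.nil (PF.cons PF.nil PF.nil)))))))) (PF.cons (PF.cons (PF.leaf (nat_lit 10362007) (nat_lit 3410883) (nat_lit 35125251) (nat_lit 8107374) [(nat_lit 0), (nat_lit 3410883), (nat_lit 0)]) (PF.cons (PF.leaf (nat_lit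
 10936887) (nat_lit 1312666) (nat_lit 34139617) (nat_lit 7989239) [(nat_lit 1312666), (nat_lit 3381041), (nat_lit 0)]) (PF.cons (PF.leaf (nat_lit 11504177) (nat_lit 1307501) (nat_lit 33184881) (nat_lit 7868968) [(nat_lit 1307501), (nat_lit 3348565), (nat_lit 0)]) (PF.cons (PF.leaf (nat_lit 12062520) (nat_lit 1300701) (nat_lit 32262051) (nat_lit 7747313) [(nat_lit 1300701), (nat_lit 3313906), (nat_lit 0)]) (PF.cons PF.nil (PF.cons PF.nil PF.nil)))))) (PF.cons (PF.cons (PF.leaf (nat_lit 11392044) (nat_lit 3322146) (nat_lit 32731461) (nat_lit 7800179) [(nat_lit 0), (nat_lit 3322146), (nat_lit 0)]) (PF.cons (PF.leaf (nat_lit 11941540) (nat_lit 1289301) (nat_lit 31836224) (nat_lit 7680378) [(nat_lit 1289301), (nat_lit 3287863), (nat_lit 0)]) (PF.cons (PF.leaf (nat_lit 12482216) (nat_lit 1281411) (nat_lit 30971120) (nat_lit 7559897) [(nat_lit 1281411), (nat_lit 3251871), (nat_lit 0)]) (PF.cons PF.nil PF.nil)))) (PF.cons (PF.cons (PF.leaf (nat_lit 12357469) (nat_lit 3226332)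 (nat_lit 30576621) (nat_lit 7495203) [(nat_lit 0), (nat_lit 3226332), (nat_lit 0)]) (PF.cons PF.nil PF.nil)) (PF.cons PF.nil (PF.cons PF.nil (PF.cons PF.nil PF.nil))))))))))))) (PF.cons (PF.cons (PF.cons (PF.leaf
 (nat_lit 3734956) (nat_lit 6452135) (nat_lit 51525558) (nat_lit 9131118) [(nat_lit 0), (nat_lit 0), (nat_lit 6452135)]) (PF.cons (PF.leaf (nat_lit 4288204) (nat_lit 1166619) (nat_lit 50312305) (nat_lit 9136950) [(nat_lit 1166619), (nat_lit 0), (nat_lit 6492937)]) (PF.cons (PF.leaf (nat_lit 4883193) (nat_lit 1215129) (nat_lit 49032014) (nat_lit 9126450) [(nat_lit 1215129), (nat_lit 0), (nat_lit 6520087)]) (PF.cons (PF.leaf (nat_lit 5507597) (nat_lit 1254568) (nat_lit 47713390) (nat_lit 9099064) [(nat_lit 1254568), (nat_lit 0), (nat_lit 6532652)]) (PF.cons (PF.leaf (nat_lit 6151945) (nat_lit 1286265) (nat_lit 46377643) (nat_lit 9055296) [(nat_lit 1286265), (nat_lit 0), (nat_lit 6530811)]) (PF.cons (PF.leaf (nat_lit 6808672) (nat_lit 1311253) (nat_lit 45040874)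 (nat_lit 8996290) [(nat_lit 1311253), (nat_lit 0), (nat_lit 6515379)]) (PF.cons (PF.leaf (nat_lit 7471662) (nat_lit 1330391) (nat_lit 43715395) (nat_lit 8923545) [(nat_lit 1330391), (nat_lit 0), (nat_lit 6487524)]) (PF.cons (PF.leaf (nat_lit 8135947) (nat_lit 1344418) (nat_lit 42410580) (nat_lit 8838723) [(nat_lit 1344418), (nat_lit 0), (nat_lit 6448577)]) (PF.cons (PF.leaf (nat_lit 8797544) (nat_lit 1353987) (nat_lit
 41133466) (nat_lit 8743521) [(nat_lit 1353987), (nat_lit 0), (nat_lit 6399923)]) (PF.cons (PF.leaf (nat_lit 9453243) (nat_lit 1359676) (nat_lit 39889216) (nat_lit 8639592) [(nat_lit 1359676), (nat_lit 0), (nat_lit 6342917)]) (PF.cons (PF.leaf (nat_lit 10100542) (nat_lit 1361999) (nat_lit 38681485) (nat_lit 8528487) [(nat_lit 1361999), (nat_lit 0), (nat_lit 6278847)]) (PF.cons (PF.leaf (nat_lit 10737464) (nat_lit 1361414) (nat_lit 37512717) (nat_lit 8411633) [(nat_lit 1361414), (nat_lit 0), (nat_lit 6208902)]) (PF.cons (PF.leaf (nat_lit 11362532) (nat_lit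 1358328) (nat_lit 36384391) (nat_lit 8290313) [(nat_lit 1358328), (nat_lit 0), (nat_lit 6134162)]) (PF.cons (PF.leaf (nat_lit 11974651) (nat_lit 1353101) (nat_lit 35297224) (nat_lit 8165669) [(nat_lit 1353101), (nat_lit 0), (nat_lit 6055594)]) (PF.cons PF.nil (PF.cons PF.nil PF.nil)))))))))))))))) (PF.cons (PF.cons (PF.leaf (nat_lit 4944806) (nat_lit 3474231) (nat_lit 48050410) (nat_lit 9082070) [(nat_lit 0), (nat_lit 3474231), (nat_lit 6502100)]) (PF.cons (PF.leaf (nat_lit 5540569) (nat_lit 1247010) (nat_lit 46797968) (nat_lit 9047026) [(nat_lit 1247010), (nat_lit 3510113), (nat_lit 6506693)]) (PF.cons (PF.leaf (nat_lit 6160073)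
 (nat_lit 1278048) (nat_lit 45521216) (nat_lit 8997186) [(nat_lit 1278048), (nat_lit 3535799), (nat_lit 6498514)]) (PF.cons (PF.leaf (nat_lit 6794772) (nat_lit 1302381) (nat_lit 44238263) (nat_lit 8933503) [(nat_lit 1302381), (nat_lit 3551790), (nat_lit 6478109)]) (PF.cons (PF.leaf (nat_lit 7438027) (nat_lit 1320935) (nat_lit 42962504) (nat_lit 8857292) [(nat_lit 1320935), (nat_lit 3558847), (nat_lit 6446427)]) (PF.cons (PF.leaf (nat_lit 8084539) (nat_lit 1334474) (nat_lit 41703934) (nat_lit 8770044) [(nat_lit 1334474), (nat_lit 3557845), (nat_lit 6404617)]) (PF.cons (PF.leaf (nat_lit 8730088) (nat_lit 1343657) (nat_lit 40469976) (nat_lit 8673296) [(nat_lit 1343657), (nat_lit 3549686), (nat_lit 6353905)]) (PF.cons (PF.leaf (nat_lit 9371317) (nat_lit 1349061) (nat_lit 39266054) (nat_lit 8568557) [(nat_lit 1349061), (nat_lit 3535256), (nat_lit 6295515)]) (PF.cons (PF.leaf (nat_lit 10005551) (nat_lit 1351191) (nat_lit 38096018) (nat_lit 8457253) [(nat_lit 1351191), (nat_lit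 3515392), (nat_lit 6230616)]) (PF.cons (PF.leaf (nat_lit 10630732) (nat_lit 1350496) (nat_lit 36962475) (nat_lit 8340696) [(nat_lit 1350496), (nat_lit 3490873), (nat_lit 6160299)]) (PF.cons (PF.leaf (nat_lit
 11245264) (nat_lit 1347371) (nat_lit 35867052) (nat_lit 8220075) [(nat_lit 1347371), (nat_lit 3462408), (nat_lit 6085559)]) (PF.cons (PF.leaf (nat_lit 11847944) (nat_lit 1342167) (nat_lit 34810598) (nat_lit 8096449) [(nat_lit 1342167), (nat_lit 3430636), (nat_lit 6007291)]) (PF.cons PF.nil (PF.cons PF.nil PF.nil)))))))))))))) (PF.cons (PF.cons (PF.leaf (nat_lit 6174298) (nat_lit 3521537) (nat_lit 44667475) (nat_lit 8935140) [(nat_lit 0), (nat_lit 3521537), (nat_lit 6463121)]) (PF.cons (PF.leaf (nat_lit 6785467) (nat_lit 1292281) (nat_lit 43441870) (nat_lit 8867770) [(nat_lit 1292281), (nat_lit 3534215), (nat_lit 6438459)]) (PF.cons (PF.leaf (nat_lit 7408125) (nat_lit 1310545) (nat_lit 42217888) (nat_lit 8788885) [(nat_lit 1310545), (nat_lit 3538706), (nat_lit 6403535)])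 (PF.cons (PF.leaf (nat_lit 8036368) (nat_lit 1323816) (nat_lit 41006698) (nat_lit 8699841) [(nat_lit 1323816), (nat_lit 3535741), (nat_lit 6359339)]) (PF.cons (PF.leaf (nat_lit 8665602) (nat_lit 1332783) (nat_lit 39816435) (nat_lit 8602051) [(nat_lit 1332783), (nat_lit 3526116), (nat_lit 6306957)]) (PF.cons (PF.leaf (nat_lit 9292210) (nat_lit 1338033) (nat_lit 38652990) (nat_lit 8496903) [(nat_lit 1338033),
 (nat_lit 3510629), (nat_lit 6247492)]) (PF.cons (PF.leaf (nat_lit 9913344) (nat_lit 1340074) (nat_lit 37520543) (nat_lit 8385713) [(nat_lit 1340074), (nat_lit 3490048), (nat_lit 6182013)]) (PF.cons (PF.leaf (nat_lit 10526776) (nat_lit 1339350) (nat_lit 36421956) (nat_lit 8269701) [(nat_lit 1339350), (nat_lit 3465090), (nat_lit 6111522)]) (PF.cons (PF.leaf (nat_lit 11130782) (nat_lit 1336251) (nat_lit 35359058) (nat_lit 8149971) [(nat_lit 1336251), (nat_lit 3436415), (nat_lit 6036938)]) (PF.cons (PF.leaf (nat_lit 11724071) (nat_lit 1331120) (nat_lit 34332880) (nat_lit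 8027509) [(nat_lit 1331120), (nat_lit 3404620), (nat_lit 5959093)]) (PF.cons (PF.leaf (nat_lit 12305667) (nat_lit 1324258) (nat_lit 33343830) (nat_lit 7903185) [(nat_lit 1324258), (nat_lit 3370240), (nat_lit 5878726)]) (PF.cons PF.nil PF.nil)))))))))))) (PF.cons (PF.cons (PF.leaf (nat_lit 7383510) (nat_lit 3517424) (nat_lit 41479369) (nat_lit 8718296) [(nat_lit 0), (nat_lit 3517424), (nat_lit 6358872)]) (PF.cons (PF.leaf (nat_lit 7992544) (nat_lit 1312383) (nat_lit 40317259) (nat_lit 8628107) [(nat_lit 1312383), (nat_lit 3512765), (nat_lit 6312767)]) (PF.cons (PF.leaf (nat_lit 8604918) (nat_lit 1321324) (nat_lit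
 39171593) (nat_lit 8529783) [(nat_lit 1321324), (nat_lit 3501896), (nat_lit 6259097)]) (PF.cons (PF.leaf (nat_lit 9216579) (nat_lit 1326564) (nat_lit 38049021) (nat_lit 8424625) [(nat_lit 1326564), (nat_lit 3485535), (nat_lit 6198864)]) (PF.cons (PF.leaf (nat_lit 9824412) (nat_lit 1328626) (nat_lit 36954233) (nat_lit 8313864) [(nat_lit 1328626), (nat_lit 3464385), (nat_lit 6133049)]) (PF.cons (PF.leaf (nat_lit 10425984) (nat_lit 1327960) (nat_lit 35890459) (nat_lit 8198641) [(nat_lit 1327960), (nat_lit 3439110), (nat_lit 6062577)]) (PF.cons (PF.leaf (nat_lit 11019420) (nat_lit 1324956) (nat_lit 34859813) (nat_lit 8079991) [(nat_lit 1324956), (nat_lit 3410322), (nat_lit 5988301)]) (PF.cons (PF.leaf (nat_lit 11603278) (nat_lit 1319953) (nat_lit 33863554) (nat_lit 7958839) [(nat_lit 1319953), (nat_lit 3378583), (nat_lit 5910997)]) (PF.cons (PF.leaf (nat_lit 12176487) (nat_lit 1313248) (nat_lit 32902285) (nat_lit 7836002) [(nat_lit 1313248), (nat_lit 3344393), (nat_lit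 5831356)]) (PF.cons PF.nil PF.nil)))))))))) (PF.cons (PF.cons (PF.leaf (nat_lit 8549100) (nat_lit 3477033) (nat_lit 38533923) (nat_lit 8456441) [(nat_lit 0), (nat_lit 3477033), (nat_lit 6210312)]) (PF.cons (PF.leaf
 (nat_lit 9145192) (nat_lit 1314609) (nat_lit 37452969) (nat_lit 8351688) [(nat_lit 1314609), (nat_lit 3459980), (nat_lit 6149623)]) (PF.cons (PF.leaf (nat_lit 9739350) (nat_lit 1316817) (nat_lit 36396148) (nat_lit 8241678) [(nat_lit 1316817), (nat_lit 3438408), (nat_lit 6083717)]) (PF.cons (PF.leaf (nat_lit 10328823) (nat_lit 1316304) (nat_lit 35367216) (nat_lit 8127492) [(nat_lit 1316304), (nat_lit 3412933), (nat_lit 6013456)]) (PF.cons (PF.leaf (nat_lit 10911524) (nat_lit 1313468) (nat_lit 34368671) (nat_lit 8010112) [(nat_lit 1313468), (nat_lit 3384129), (nat_lit 5939640)]) (PF.cons (PF.leaf (nat_lit 11485852) (nat_lit 1308650) (nat_lit 33402070) (nat_lit 7890415) [(nat_lit 1308650), (nat_lit 3352520), (nat_lit 5862994)]) (PF.cons (PF.leaf (nat_lit 12050598)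 (nat_lit 1302148) (nat_lit 32468253) (nat_lit 7769174) [(nat_lit 1302148), (nat_lit 3318581), (nat_lit 5784170)]) (PF.cons PF.nil PF.nil)))))))) (PF.cons (PF.cons (PF.leaf (nat_lit 9658896) (nat_lit 3412108) (nat_lit 35845188) (nat_lit 8169093) [(nat_lit 0), (nat_lit 3412108), (nat_lit 6033987)]) (PF.cons (PF.leaf (nat_lit 10235814) (nat_lit 1304348) (nat_lit 34851352) (nat_lit 8056205) [(nat_lit 1304348), (nat_lit
 3386553), (nat_lit 5964137)]) (PF.cons (PF.leaf (nat_lit 10807500) (nat_lit 1301762) (nat_lit 33884921) (nat_lit 7940294) [(nat_lit 1301762), (nat_lit 3357827), (nat_lit 5890934)]) (PF.cons (PF.leaf (nat_lit 11372106) (nat_lit 1297193) (nat_lit 32947835) (nat_lit 7822203) [(nat_lit 1297193), (nat_lit 3326425), (nat_lit 5815066)]) (PF.cons (PF.leaf (nat_lit 11928255) (nat_lit 1290942) (nat_lit 32041234) (nat_lit 7702671) [(nat_lit 1290942), (nat_lit 3292796), (nat_lit 5737150)]) (PF.cons PF.nil PF.nil)))))) (PF.cons (PF.cons (PF.leaf (nat_lit 10707884) (nat_lit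 3331404) (nat_lit 33407756) (nat_lit 7870480) [(nat_lit 0), (nat_lit 3331404), (nat_lit 5842150)]) (PF.cons (PF.leaf (nat_lit 11262407) (nat_lit 1285555) (nat_lit 32500196) (nat_lit 7754155) [(nat_lit 1285555), (nat_lit 3300286), (nat_lit 5767185)]) (PF.cons (PF.leaf (nat_lit 11809736) (nat_lit 1279612) (nat_lit 31620685) (nat_lit 7636453) [(nat_lit 1279612), (nat_lit 3267029), (nat_lit 5690272)]) (PF.cons (PF.leaf (nat_lit 12348635) (nat_lit 1272239) (nat_lit 30770051) (nat_lit 7518001) [(nat_lit 1272239), (nat_lit 3232017), (nat_lit 5611935)]) PF.nil)))) (PF.cons (PF.cons (PF.leaf (nat_lit 11695428) (nat_lit 3241262)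
 (nat_lit 31206005) (nat_lit 7570465) [(nat_lit 0), (nat_lit 3241262), (nat_lit 5643502)]) (PF.cons (PF.leaf (nat_lit 12226260) (nat_lit 1261105) (nat_lit 30380210) (nat_lit 7453983) [(nat_lit 1261105), (nat_lit 3206741), (nat_lit 5566323)]) PF.nil)) (PF.cons PF.nil (PF.cons PF.nil (PF.cons PF.nil PF.nil))))))))))) (PF.cons (PF.cons (PF.cons (PF.leaf (nat_lit 5506458) (nat_lit 6425565) (nat_lit 45335248) (nat_lit 8922432) [(nat_lit 0), (nat_lit 0), (nat_lit 6425565)]) (PF.cons (PF.leaf (nat_lit 6087632) (nat_lit 1249226) (nat_lit 44165539) (nat_lit 8868686) [(nat_lit 1249226), (nat_lit 0), (nat_lit 6412679)]) (PF.cons (PF.leaf (nat_lit 6689331) (nat_lit 1274942) (nat_lit 42978215) (nat_lit 8802615) [(nat_lit 1274942), (nat_lit 0), (nat_lit 6389048)]) (PF.cons (PF.leaf (nat_lit 7303683) (nat_lit 1294508) (nat_lit 41789217) (nat_lit 8725333) [(nat_lit 1294508), (nat_lit 0), (nat_lit 6355367)]) (PF.cons (PF.leaf (nat_lit 7924693) (nat_lit 1308866) (nat_lit 40610067) (nat_lit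 8638128) [(nat_lit 1308866), (nat_lit 0), (nat_lit 6312574)]) (PF.cons (PF.leaf (nat_lit 8547651) (nat_lit 1318770) (nat_lit 39449186) (nat_lit 8542349) [(nat_lit 1318770), (nat_lit 0), (nat_lit 6261712)])
 (PF.cons (PF.leaf (nat_lit 9168855) (nat_lit 1324847) (nat_lit 38312701) (nat_lit 8439329) [(nat_lit 1324847), (nat_lit 0), (nat_lit 6203848)]) (PF.cons (PF.leaf (nat_lit 9785357) (nat_lit 1327632) (nat_lit 37205003) (nat_lit 8330341) [(nat_lit 1327632), (nat_lit 0), (nat_lit 6140018)]) (PF.cons (PF.leaf (nat_lit 10394868) (nat_lit 1327589) (nat_lit 36129137) (nat_lit 8216564) [(nat_lit 1327589), (nat_lit 0), (nat_lit 6071198)]) (PF.cons (PF.leaf (nat_lit 10995598) (nat_lit 1325118) (nat_lit 35087105) (nat_lit 8099072) [(nat_lit 1325118), (nat_lit 0), (nat_lit 5998286)]) (PF.cons (PF.leaf (nat_lit 11586171) (nat_lit 1320570) (nat_lit 34080090) (nat_lit 7978827) [(nat_lit 1320570), (nat_lit 0), (nat_lit 5922096)]) (PF.cons (PF.leaf (nat_lit 12165574) (nat_lit 1314252)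 (nat_lit 33108644) (nat_lit 7856679) [(nat_lit 1314252), (nat_lit 0), (nat_lit 5843355)]) (PF.cons PF.nil (PF.cons PF.nil PF.nil)))))))))))))) (PF.cons (PF.cons (PF.leaf (nat_lit 6688978) (nat_lit 3482626) (nat_lit 42197591) (nat_lit 8734153) [(nat_lit 0), (nat_lit 3482626), (nat_lit 6347220)]) (PF.cons (PF.leaf (nat_lit 7281241) (nat_lit 1282909) (nat_lit 41062384) (nat_lit 8655205) [(nat_lit 1282909), (nat_lit
 3486280), (nat_lit 6311016)]) (PF.cons (PF.leaf (nat_lit 7883128) (nat_lit 1297338) (nat_lit 39931376) (nat_lit 8566981) [(nat_lit 1297338), (nat_lit 3482969), (nat_lit 6266404)]) (PF.cons (PF.leaf (nat_lit 8489277) (nat_lit 1307272) (nat_lit 38814205) (nat_lit 8470755) [(nat_lit 1307272), (nat_lit 3473397), (nat_lit 6214318)]) (PF.cons (PF.leaf (nat_lit 9095580) (nat_lit 1313380) (nat_lit 37717762) (nat_lit 8367781) [(nat_lit 1313380), (nat_lit 3458288), (nat_lit 6155729)]) (PF.cons (PF.leaf (nat_lit 9698827) (nat_lit 1316216) (nat_lit 36646951) (nat_lit 8259252)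 [(nat_lit 1316216), (nat_lit 3438349), (nat_lit 6091588)]) (PF.cons (PF.leaf (nat_lit 10296511) (nat_lit 1316251) (nat_lit 35605184) (nat_lit 8146276) [(nat_lit 1316251), (nat_lit 3414244), (nat_lit 6022799)]) (PF.cons (PF.leaf (nat_lit 10886683) (nat_lit 1313888) (nat_lit 34594746) (nat_lit 8029863) [(nat_lit 1313888), (nat_lit 3386587), (nat_lit 5950198)]) (PF.cons (PF.leaf (nat_lit 11467838) (nat_lit 1309477) (nat_lit 33617048) (nat_lit 7910916) [(nat_lit 1309477), (nat_lit 3355937), (nat_lit 5874543)]) (PF.cons (PF.leaf (nat_lit 12038850) (nat_lit 1303323) (nat_lit 32672834) (nat_lit 7790235) [(nat_lit 1303323),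
 (nat_lit 3322795), (nat_lit 5796517)]) (PF.cons PF.nil (PF.cons PF.nil PF.nil)))))))))))) (PF.cons (PF.cons (PF.leaf (nat_lit 7847477) (nat_lit 3459316) (nat_lit 39258039) (nat_lit 8494253) [(nat_lit 0), (nat_lit 3459316), (nat_lit 6218943)]) (PF.cons (PF.leaf (nat_lit 8435817) (nat_lit 1295105) (nat_lit 38186049) (nat_lit 8398106) [(nat_lit 1295105), (nat_lit 3448757), (nat_lit 6166017)]) (PF.cons (PF.leaf (nat_lit 9026614) (nat_lit 1301414) (nat_lit 37130422) (nat_lit 8295582) [(nat_lit 1301414), (nat_lit 3432983), (nat_lit 6107005)]) (PF.cons (PF.leaf (nat_lit 9616207) (nat_lit 1304428) (nat_lit 36096831) (nat_lit 8187827) [(nat_lit 1304428), (nat_lit 3412639), (nat_lit 6042794)]) (PF.cons (PF.leaf (nat_lit 10201805) (nat_lit 1304638) (nat_lit 35089219) (nat_lit 8075896) [(nat_lit 1304638), (nat_lit 3388345), (nat_lit 5974225)]) (PF.cons (PF.leaf (nat_lit 10781247) (nat_lit 1302459) (nat_lit 34110250) (nat_lit 7960747) [(nat_lit 1302459), (nat_lit 3360676), (nat_lit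 5902082)]) (PF.cons (PF.leaf (nat_lit 11352880) (nat_lit 1298244) (nat_lit 33161631) (nat_lit 7843241) [(nat_lit 1298244), (nat_lit 3330157), (nat_lit 5827078)]) (PF.cons (PF.leaf (nat_lit 11915422) (nat_lit
 1292299) (nat_lit 32244341) (nat_lit 7724136) [(nat_lit 1292299), (nat_lit 3297263), (nat_lit 5749855)]) (PF.cons PF.nil (PF.cons PF.nil PF.nil)))))))))) (PF.cons (PF.cons (PF.leaf (nat_lit 8962941) (nat_lit 3407209) (nat_lit 36549259) (nat_lit 8222650) [(nat_lit 0), (nat_lit 3407209), (nat_lit 6057637)]) (PF.cons (PF.leaf (nat_lit 9538199) (nat_lit 1292220) (nat_lit 35553555) (nat_lit 8116004) [(nat_lit 1292220), (nat_lit 3386607), (nat_lit 5993604)]) (PF.cons (PF.leaf (nat_lit 10111284) (nat_lit 1292716) (nat_lit 34580377) (nat_lit 8005373) [(nat_lit 1292716), (nat_lit 3362242), (nat_lit 5925450)]) (PF.cons (PF.leaf (nat_lit 10679710) (nat_lit 1290805) (nat_lit 33632914) (nat_lit 7891685) [(nat_lit 1290805), (nat_lit 3334654), (nat_lit 5853916)]) (PF.cons (PF.leaf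 (nat_lit 11241599) (nat_lit 1286850) (nat_lit 32713255) (nat_lit 7775768) [(nat_lit 1286850), (nat_lit 3304341), (nat_lit 5779681)]) (PF.cons (PF.leaf (nat_lit 11795529) (nat_lit 1281165) (nat_lit 31822672) (nat_lit 7658350) [(nat_lit 1281165), (nat_lit 3271753), (nat_lit 5703351)]) (PF.cons PF.nil (PF.cons PF.nil PF.nil)))))))) (PF.cons (PF.cons (PF.leaf (nat_lit 10025637) (nat_lit 3335916) (nat_lit 34077649) (nat_lit
 7934633) [(nat_lit 0), (nat_lit 3335916), (nat_lit 5876432)]) (PF.cons (PF.leaf (nat_lit 10582543) (nat_lit 1278889) (nat_lit 33161939) (nat_lit 7822618) [(nat_lit 1278889), (nat_lit 3308507), (nat_lit 5805668)]) (PF.cons (PF.leaf (nat_lit 11134378) (nat_lit 1275269) (nat_lit 32271271) (nat_lit 7708448) [(nat_lit 1275269), (nat_lit 3278476), (nat_lit 5732324)]) (PF.cons (PF.leaf (nat_lit 11679454) (nat_lit 1269899) (nat_lit 31407290) (nat_lit 7592836) [(nat_lit 1269899), (nat_lit 3246255), (nat_lit 5656982)]) (PF.cons (PF.leaf (nat_lit 12216536) (nat_lit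 1263054) (nat_lit 30570943) (nat_lit 7476402) [(nat_lit 1263054), (nat_lit 3212230), (nat_lit 5580163)]) (PF.cons PF.nil PF.nil)))))) (PF.cons (PF.cons (PF.leaf (nat_lit 11031706) (nat_lit 3252544) (nat_lit 31834946) (nat_lit 7641214) [(nat_lit 0), (nat_lit 3252544), (nat_lit 5684965)]) (PF.cons (PF.leaf (nat_lit 11567544) (nat_lit 1258475) (nat_lit 30997602) (nat_lit 7527540) [(nat_lit 1258475), (nat_lit 3220753), (nat_lit 5610713)]) (PF.cons (PF.leaf (nat_lit 12096569) (nat_lit 1251984) (nat_lit 30185667) (nat_lit 7413048) [(nat_lit 1251984), (nat_lit 3187212), (nat_lit 5535034)]) (PF.cons PF.nil PF.nil)))) (PF.cons (PF.cons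
 (PF.leaf (nat_lit 11980875) (nat_lit 3162219) (nat_lit 29805453) (nat_lit 7349952) [(nat_lit 0), (nat_lit 3162219), (nat_lit 5490044)]) (PF.cons PF.nil PF.nil)) (PF.cons PF.nil (PF.cons PF.nil (PF.cons PF.nil PF.nil)))))))))) (PF.cons (PF.cons (PF.cons (PF.leaf (nat_lit 7168067) (nat_lit 6217323) (nat_lit 39936497) (nat_lit 8520344) [(nat_lit 0), (nat_lit 0), (nat_lit 6217323)]) (PF.cons (PF.leaf (nat_lit 7742035) (nat_lit 1269381) (nat_lit 38886358) (nat_lit 8433951) [(nat_lit 1269381), (nat_lit 0), (nat_lit 6173040)]) (PF.cons (PF.leaf (nat_lit 8324198) (nat_lit 1280745) (nat_lit 37841836) (nat_lit 8340033) [(nat_lit 1280745), (nat_lit 0), (nat_lit 6121817)]) (PF.cons (PF.leaf (nat_lit 8909644) (nat_lit 1288042) (nat_lit 36811322) (nat_lit 8239776) [(nat_lit 1288042), (nat_lit 0), (nat_lit 6064529)]) (PF.cons (PF.leaf (nat_lit 9494660) (nat_lit 1291915) (nat_lit 35800727) (nat_lit 8134298) [(nat_lit 1291915), (nat_lit 0), (nat_lit 6002041)]) (PF.cons (PF.leaf (nat_lit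 10076370) (nat_lit 1292886) (nat_lit 34814195) (nat_lit 8024631) [(nat_lit 1292886), (nat_lit 0), (nat_lit 5935183)]) (PF.cons (PF.leaf (nat_lit 10652545) (nat_lit 1291392) (nat_lit 33854567) (nat_lit 7911716)
 [(nat_lit 1291392), (nat_lit 0), (nat_lit 5864724)]) (PF.cons (PF.leaf (nat_lit 11221451) (nat_lit 1287801) (nat_lit 32923704) (nat_lit 7796395) [(nat_lit 1287801), (nat_lit 0), (nat_lit 5791366)]) (PF.cons (PF.leaf (nat_lit 11781769) (nat_lit 1282429) (nat_lit 32022726) (nat_lit 7679417) [(nat_lit 1282429), (nat_lit 0), (nat_lit 5715744)]) (PF.cons PF.nil (PF.cons PF.nil (PF.cons PF.nil PF.nil)))))))))))) (PF.cons (PF.cons (PF.leaf (nat_lit 8279556) (nat_lit 3395269) (nat_lit 37227499) (nat_lit 8266905) [(nat_lit 0), (nat_lit 3395269), (nat_lit 6073045)]) (PF.cons (PF.leaf (nat_lit 8848455) (nat_lit 1275464) (nat_lit 36238344) (nat_lit 8167578) [(nat_lit 1275464), (nat_lit 3380379), (nat_lit 6015681)]) (PF.cons (PF.leaf (nat_lit 9419164) (nat_lit 1279705) (nat_lit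 35264946) (nat_lit 8063226) [(nat_lit 1279705), (nat_lit 3361071), (nat_lit 5953386)]) (PF.cons (PF.leaf (nat_lit 9988347) (nat_lit 1280990) (nat_lit 34312210) (nat_lit 7954861) [(nat_lit 1280990), (nat_lit 3337931), (nat_lit 5886945)]) (PF.cons (PF.leaf (nat_lit 10553484) (nat_lit 1279783) (nat_lit 33383499) (nat_lit 7843398) [(nat_lit 1279783), (nat_lit 3311507), (nat_lit 5817091)]) (PF.cons (PF.leaf (nat_lit
 11112633) (nat_lit 1276465) (nat_lit 32481057) (nat_lit 7729649) [(nat_lit 1276465), (nat_lit 3282301), (nat_lit 5744492)]) (PF.cons (PF.leaf (nat_lit 11664308) (nat_lit 1271360) (nat_lit 31606294) (nat_lit 7614336) [(nat_lit 1271360), (nat_lit 3250766), (nat_lit 5669749)]) (PF.cons PF.nil (PF.cons PF.nil (PF.cons PF.nil PF.nil)))))))))) (PF.cons (PF.cons (PF.leaf (nat_lit 9349248) (nat_lit 3334954) (nat_lit 34734418) (nat_lit 7991650) [(nat_lit 0), (nat_lit 3334954), (nat_lit 5904278)]) (PF.cons (PF.leaf (nat_lit 9905181) (nat_lit 1268721) (nat_lit 33816095)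 (nat_lit 7884866) [(nat_lit 1268721), (nat_lit 3311872), (nat_lit 5838461)]) (PF.cons (PF.leaf (nat_lit 10458816) (nat_lit 1267901) (nat_lit 32918573) (nat_lit 7775064) [(nat_lit 1267901), (nat_lit 3285629), (nat_lit 5769370)]) (PF.cons (PF.leaf (nat_lit 11007881) (nat_lit 1264933) (nat_lit 32044605) (nat_lit 7663045) [(nat_lit 1264933), (nat_lit 3256704), (nat_lit 5697650)]) (PF.cons (PF.leaf (nat_lit 11550672) (nat_lit 1260154) (nat_lit 31195971) (nat_lit 7549515) [(nat_lit 1260154), (nat_lit 3225532), (nat_lit 5623881)]) (PF.cons (PF.leaf (nat_lit 12085899) (nat_lit 1253849) (nat_lit 30373738) (nat_lit 7435088) [(nat_lit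
 1253849), (nat_lit 3192502), (nat_lit 5548577)]) (PF.cons PF.nil (PF.cons PF.nil PF.nil)))))))) (PF.cons (PF.cons (PF.leaf (nat_lit 10369193) (nat_lit 3259597) (nat_lit 32458863) (nat_lit 7706629) [(nat_lit 0), (nat_lit 3259597), (nat_lit 5721508)]) (PF.cons (PF.leaf (nat_lit 10907637) (nat_lit 1253167) (nat_lit 31613619) (nat_lit 7596516) [(nat_lit 1253167), (nat_lit 3231035), (nat_lit 5650801)]) (PF.cons (PF.leaf (nat_lit 11441198) (nat_lit 1248781) (nat_lit 30791169) (nat_lit 7484899) [(nat_lit 1248781), (nat_lit 3200288), (nat_lit 5578104)]) (PF.cons (PF.leaf (nat_lit 11968328) (nat_lit 1242838) (nat_lit 29992934) (nat_lit 7372387) [(nat_lit 1242838), (nat_lit 3167735), (nat_lit 5503921)]) (PF.cons PF.nil (PF.cons PF.nil PF.nil)))))) (PF.cons (PF.cons (PF.leaf (nat_lit 11336356) (nat_lit 3175012) (nat_lit 30391218) (nat_lit 7420418) [(nat_lit 0), (nat_lit 3175012), (nat_lit 5532375)]) (PF.cons (PF.leaf (nat_lit 11854973) (nat_lit 1231685) (nat_lit 29617043) (nat_lit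 7309931) [(nat_lit 1231685), (nat_lit 3142989), (nat_lit 5459397)]) (PF.cons PF.nil (PF.cons PF.nil PF.nil)))) (PF.cons (PF.cons (PF.leaf (nat_lit 12250685) (nat_lit 3085378) (nat_lit 28516371) (nat_lit 7138840)
 [(nat_lit 0), (nat_lit 3085378), (nat_lit 5342236)]) (PF.cons PF.nil PF.nil)) (PF.cons PF.nil (PF.cons PF.nil PF.nil)))))))) (PF.cons (PF.cons (PF.cons (PF.leaf (nat_lit 8683674) (nat_lit 5924784) (nat_lit 35369256) (nat_lit 8040417) [(nat_lit 0), (nat_lit 0), (nat_lit 5924784)]) (PF.cons (PF.leaf (nat_lit 9234339) (nat_lit 1254275) (nat_lit 34455730) (nat_lit 7939894) [(nat_lit 1254275), (nat_lit 0), (nat_lit 5864728)]) (PF.cons (PF.leaf (nat_lit 9786348) (nat_lit 1256884) (nat_lit 33557069) (nat_lit 7835388) [(nat_lit 1256884), (nat_lit 0), (nat_lit 5800646)]) (PF.cons (PF.leaf (nat_lit 10336630) (nat_lit 1256827) (nat_lit 32677561) (nat_lit 7727802) [(nat_lit 1256827), (nat_lit 0), (nat_lit 5733241)]) (PF.cons (PF.leaf (nat_lit 10882887) (nat_lit 1254537)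 (nat_lit 31820118) (nat_lit 7617933) [(nat_lit 1254537), (nat_lit 0), (nat_lit 5663153)]) (PF.cons (PF.leaf (nat_lit 11423362) (nat_lit 1250368) (nat_lit 30986660) (nat_lit 7506478) [(nat_lit 1250368), (nat_lit 0), (nat_lit 5590957)]) (PF.cons (PF.leaf (nat_lit 11956701) (nat_lit 1244619) (nat_lit 30178380) (nat_lit 7394049) [(nat_lit 1244619), (nat_lit 0), (nat_lit 5517166)]) (PF.cons PF.nil PF.nil)))))))) (PF.cons (PF.cons
 (PF.leaf (nat_lit 9711491) (nat_lit 3261743) (nat_lit 33071825) (nat_lit 7765777) [(nat_lit 0), (nat_lit 3261743), (nat_lit 5752366)]) (PF.cons (PF.leaf (nat_lit 10249481) (nat_lit 1244634) (nat_lit 32223550) (nat_lit 7660078) [(nat_lit 1244634), (nat_lit 3236981), (nat_lit 5685892)]) (PF.cons (PF.leaf (nat_lit 10785120) (nat_lit 1242803) (nat_lit 31394353) (nat_lit 7552095) [(nat_lit 1242803), (nat_lit 3209544), (nat_lit 5616803)]) (PF.cons (PF.leaf (nat_lit 11316314) (nat_lit 1239041) (nat_lit 30586640) (nat_lit 7442530) [(nat_lit 1239041), (nat_lit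 3179857), (nat_lit 5545664)]) (PF.cons (PF.leaf (nat_lit 11841511) (nat_lit 1233662) (nat_lit 29801956) (nat_lit 7331990) [(nat_lit 1233662), (nat_lit 3148304), (nat_lit 5472977)]) (PF.cons PF.nil PF.nil)))))) (PF.cons (PF.cons (PF.leaf (nat_lit 10692492) (nat_lit 3184023) (nat_lit 30973016) (nat_lit 7486229) [(nat_lit 0), (nat_lit 3184023), (nat_lit 5570379)]) (PF.cons (PF.leaf (nat_lit 11213853) (nat_lit 1227501) (nat_lit 30191306) (nat_lit 7378705) [(nat_lit 1227501), (nat_lit 3154827), (nat_lit 5500411)]) (PF.cons (PF.leaf (nat_lit 11730535) (nat_lit 1222555) (nat_lit 29430297) (nat_lit 7270164) [(nat_lit 1222555), (nat_lit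
 3123798), (nat_lit 5428910)]) (PF.cons PF.nil PF.nil)))) (PF.cons (PF.cons (PF.leaf (nat_lit 11624220) (nat_lit 3099283) (nat_lit 29062791) (nat_lit 7208496) [(nat_lit 0), (nat_lit 3099283), (nat_lit 5384918)]) (PF.cons PF.nil PF.nil)) (PF.cons PF.nil (PF.cons PF.nil PF.nil)))))) (PF.cons (PF.cons (PF.cons (PF.leaf (nat_lit 10052601) (nat_lit 5603341) (nat_lit 31545588) (nat_lit 7546515) [(nat_lit 0), (nat_lit 0), (nat_lit 5603341)]) (PF.cons (PF.leaf (nat_lit 10573891) (nat_lit 1220338) (nat_lit 30760649) (nat_lit 7442738) [(nat_lit 1220338), (nat_lit 0), (nat_lit 5537017)]) (PF.cons (PF.leaf (nat_lit 11092836) (nat_lit 1217732) (nat_lit 29993130) (nat_lit 7337239) [(nat_lit 1217732), (nat_lit 0), (nat_lit 5468595)]) (PF.cons (PF.leaf (nat_lit 11607485) (nat_lit 1213380) (nat_lit 29245160) (nat_lit 7230638) [(nat_lit 1213380), (nat_lit 0), (nat_lit 5398574)]) (PF.cons PF.nil (PF.cons PF.nil PF.nil)))))) (PF.cons (PF.cons (PF.leaf (nat_lit 10997983) (nat_lit 3109791)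 (nat_lit 29606059) (nat_lit 7274072) [(nat_lit 0), (nat_lit 3109791), (nat_lit 5423777)]) (PF.cons (PF.leaf (nat_lit 11503490) (nat_lit 1202116) (nat_lit 28881658) (nat_lit 7169575) [(nat_lit 1202116), (nat_lit
 3080348), (nat_lit 5355022)]) (PF.cons PF.nil (PF.cons PF.nil PF.nil)))) (PF.cons (PF.cons (PF.leaf (nat_lit 11897296) (nat_lit 3025660) (nat_lit 27837525) (nat_lit 7005563) [(nat_lit 0), (nat_lit 3025660), (nat_lit 5242880)]) (PF.cons PF.nil PF.nil)) (PF.cons PF.nil PF.nil)))) (PF.cons (PF.cons (PF.cons (PF.leaf (nat_lit 11287734) (nat_lit 5282134) (nat_lit 28345562) (nat_lit 7070444) [(nat_lit 0), (nat_lit 0), (nat_lit 5282134)]) (PF.cons (PF.leaf (nat_lit 11778477) (nat_lit 1177170) (nat_lit 27672908) (nat_lit 6969238) [(nat_lit 1177170), (nat_lit 0), (nat_lit 5214916)]) PF.nil)) (PF.cons PF.nil PF.nil)) (PF.cons PF.nil (PF.cons PF.nil (PF.cons PF.nil PF.nil))))))))))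

def p15_39_1_0 : pfC (piC [(nat_lit 28473124), (nat_lit 19449108), (nat_lit 12587812)] (nat_lit 10729447)) p15_39_1 (nat_lit 3) (nat_lit 0) (nat_lit 1) = true := by decide +kernel
def p15_39_1_1 : pfC (piC [(nat_lit 28473124), (nat_lit 19449108), (nat_lit 12587812)] (nat_lit 10729447)) p15_39_1 (nat_lit 3) (nat_lit 1) (nat_lit 2) = true := by decide +kernel
def p15_39_1_2 : pfC (piC [(nat_lit 28473124), (nat_lit 19449108), (nat_lit 12587812)] (nat_lit 10729447)) p15_39_1 (nat_lit 3) (nat_lit 2) (nat_lit 3) = true := by decide +kernel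
def p15_39_1_3 : pfC (piC [(nat_lit 28473124), (nat_lit 19449108), (nat_lit 12587812)] (nat_lit 10729447)) p15_39_1 (nat_lit 3) (nat_lit 3) (nat_lit 4) = true := by decide +kernel
def p15_39_1_4 : pfC (piC [(nat_lit 28473124), (nat_lit 19449108), (nat_lit 12587812)] (nat_lit 10729447)) p15_39_1 (nat_lit 3) (nat_lit 4) (nat_lit 5) = true := by decide +kernel
def p15_39_1_5 : pfC (piC [(nat_lit 28473124), (nat_lit 19449108), (nat_lit 12587812)] (nat_lit 10729447)) p15_39_1 (nat_lit 3) (nat_lit 5) (nat_lit 6) = true := by decide +kernel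
def p15_39_1_6 : pfC (piC [(nat_lit 28473124), (nat_lit 19449108), (nat_lit 12587812)] (nat_lit 10729447)) p15_39_1 (nat_lit 3) (nat_lit 6) (nat_lit 7) = true := by decide +kernel
def p15_39_1_7 : pfC (piC [(nat_lit 28473124), (nat_lit 19449108), (nat_lit 12587812)] (nat_lit 10729447)) p15_39_1 (nat_lit 3) (nat_lit 7) (nat_lit 8) = true := by decide +kernel
def p15_39_1_8 : pfC (piC [(nat_lit 28473124), (nat_lit 19449108), (nat_lit 12587812)] (nat_lit 10729447)) p15_39_1 (nat_lit 3) (nat_lit 8) (nat_lit 9) = true := by decide +kernel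
def p15_39_1_9 : pfC (piC [(nat_lit 28473124), (nat_lit 19449108), (nat_lit 12587812)] (nat_lit 10729447)) p15_39_1 (nat_lit 3) (nat_lit 9) (nat_lit 10) = true := by decide +kernel
def p15_39_1_10 : pfC (piC [(nat_lit 28473124), (nat_lit 19449108), (nat_lit 12587812)] (nat_lit 10729447)) p15_39_1 (nat_lit 3) (nat_lit 10) (nat_lit 11) = true := by decide +kernel
def p15_39_1_11 : pfC (piC [(nat_lit 28473124), (nat_lit 19449108), (nat_lit 12587812)] (nat_lit 10729447)) p15_39_1 (nat_lit 3) (nat_lit 11) (nat_lit 12) = true := by decide +kernel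
def p15_39_1_12 : pfC (piC [(nat_lit 28473124), (nat_lit 19449108), (nat_lit 12587812)] (nat_lit 10729447)) p15_39_1 (nat_lit 3) (nat_lit 12) (nat_lit 13) = true := by decide +kernel
def p15_39_1_13 : pfC (piC [(nat_lit 28473124), (nat_lit 19449108), (nat_lit 12587812)] (nat_lit 10729447)) p15_39_1 (nat_lit 3) (nat_lit 13) (nat_lit 14) = true := by decide +kernel
def p15_39_1_14 : pfC (piC [(nat_lit 28473124), (nat_lit 19449108), (nat_lit 12587812)] (nat_lit 10729447)) p15_39_1 (nat_lit 3) (nat_lit 14) (nat_lit 15) = true := by decide +kernel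
def p15_39_1_15 : pfC (piC [(nat_lit 28473124), (nat_lit 19449108), (nat_lit 12587812)] (nat_lit 10729447)) p15_39_1 (nat_lit 3) (nat_lit 15) (nat_lit 16) = true := by decide +kernel
def p15_39_1_16 : pfC (piC [(nat_lit 28473124), (nat_lit 19449108), (nat_lit 12587812)] (nat_lit 10729447)) p15_39_1 (nat_lit 3) (nat_lit 16) (nat_lit 17) = true := by decide +kernel
def p15_39_1_17 : pfC (piC [(nat_lit 28473124), (nat_lit 19449108), (nat_lit 12587812)] (nat_lit 10729447)) p15_39_1 (nat_lit 3) (nat_lit 17) (nat_lit 18) = true := by decide +kernel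
def p15_39_1_18 : pfC (piC [(nat_lit 28473124), (nat_lit 19449108), (nat_lit 12587812)] (nat_lit 10729447)) p15_39_1 (nat_lit 3) (nat_lit 18) (nat_lit 19) = true := by decide +kernel
def p15_39_1_19 : pfC (piC [(nat_lit 28473124), (nat_lit 19449108), (nat_lit 12587812)] (nat_lit 10729447)) p15_39_1 (nat_lit 3) (nat_lit 19) (nat_lit 20) = true := by decide +kernel
def p15_39_1_20 : pfC (piC [(nat_lit 28473124), (nat_lit 19449108), (nat_lit 12587812)] (nat_lit 10729447)) p15_39_1 (nat_lit 3) (nat_lit 20) (nat_lit 21) = true := by decide +kernel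
def p15_39_1_21 : pfC (piC [(nat_lit 28473124), (nat_lit 19449108), (nat_lit 12587812)] (nat_lit 10729447)) p15_39_1 (nat_lit 3) (nat_lit 21) (nat_lit 22) = true := by decide +kernel
def p15_39_1_22 : pfC (piC [(nat_lit 28473124), (nat_lit 19449108), (nat_lit 12587812)] (nat_lit 10729447)) p15_39_1 (nat_lit 3) (nat_lit 22) (nat_lit 23) = true := by decide +kernel
def p15_39_1_23 : pfC (piC [(nat_lit 28473124), (nat_lit 19449108), (nat_lit 12587812)] (nat_lit 10729447)) p15_39_1 (nat_lit 3) (nat_lit 23) (nat_lit 24) = true := by decide +kernel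
def p15_39_1_24 : pfC (piC [(nat_lit 28473124), (nat_lit 19449108), (nat_lit 12587812)] (nat_lit 10729447)) p15_39_1 (nat_lit 3) (nat_lit 24) (nat_lit 25) = true := by decide +kernel
def p15_39_1_25 : pfC (piC [(nat_lit 28473124), (nat_lit 19449108), (nat_lit 12587812)] (nat_lit 10729447)) p15_39_1 (nat_lit 3) (nat_lit 25) (nat_lit 26) = true := by decide +kernel
def p15_39_1_26 : pfC (piC [(nat_lit 28473124), (nat_lit 19449108), (nat_lit 12587812)] (nat_lit 10729447)) p15_39_1 (nat_lit 3) (nat_lit 26) (nat_lit 27) = true := by decide +kernel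
def p15_39_1_27 : pfC (piC [(nat_lit 28473124), (nat_lit 19449108), (nat_lit 12587812)] (nat_lit 10729447)) p15_39_1 (nat_lit 3) (nat_lit 27) (nat_lit 28) = true := by decide +kernel
def p15_39_1_28 : pfC (piC [(nat_lit 28473124), (nat_lit 19449108), (nat_lit 12587812)] (nat_lit 10729447)) p15_39_1 (nat_lit 3) (nat_lit 28) (nat_lit 29) = true := by decide +kernel
def p15_39_1_29 : pfC (piC [(nat_lit 28473124), (nat_lit 19449108), (nat_lit 12587812)] (nat_lit 10729447)) p15_39_1 (nat_lit 3) (nat_lit 29) (nat_lit 30) = true := by decide +kernel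
def p15_39_1_30 : pfC (piC [(nat_lit 28473124), (nat_lit 19449108), (nat_lit 12587812)] (nat_lit 10729447)) p15_39_1 (nat_lit 3) (nat_lit 30) (nat_lit 31) = true := by decide +kernel
def p15_39_1_31 : pfC (piC [(nat_lit 28473124), (nat_lit 19449108), (nat_lit 12587812)] (nat_lit 10729447)) p15_39_1 (nat_lit 3) (nat_lit 31) (nat_lit 32) = true := by decide +kernel
def p15_39_1_32 : pfC (piC [(nat_lit 28473124), (nat_lit 19449108), (nat_lit 12587812)] (nat_lit 10729447)) p15_39_1 (nat_lit 3) (nat_lit 32) (nat_lit 33) = true := by decide +kernel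
def p15_39_1_33 : pfC (piC [(nat_lit 28473124), (nat_lit 19449108), (nat_lit 12587812)] (nat_lit 10729447)) p15_39_1 (nat_lit 3) (nat_lit 33) (nat_lit 34) = true := by decide +kernel
def p15_39_1_34 : pfC (piC [(nat_lit 28473124), (nat_lit 19449108), (nat_lit 12587812)] (nat_lit 10729447)) p15_39_1 (nat_lit 3) (nat_lit 34) (nat_lit 35) = true := by decide +kernel
def p15_39_1_35 : pfC (piC [(nat_lit 28473124), (nat_lit 19449108), (nat_lit 12587812)] (nat_lit 10729447)) p15_39_1 (nat_lit 3) (nat_lit 35) (nat_lit 36) = true := by decide +kernel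
def p15_39_1_36 : pfC (piC [(nat_lit 28473124), (nat_lit 19449108), (nat_lit 12587812)] (nat_lit 10729447)) p15_39_1 (nat_lit 3) (nat_lit 36) (nat_lit 37) = true := by decide +kernel
def p15_39_1_37 : pfC (piC [(nat_lit 28473124), (nat_lit 19449108), (nat_lit 12587812)] (nat_lit 10729447)) p15_39_1 (nat_lit 3) (nat_lit 37) (nat_lit 38) = true := by decide +kernel
def p15_39_1_38 : pfC (piC [(nat_lit 28473124), (nat_lit 19449108), (nat_lit 12587812)] (nat_lit 10729447)) p15_39_1 (nat_lit 3) (nat_lit 38) (nat_lit 39) = true := by decide +kernel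
def p15_39_1_39 : pfC (piC [(nat_lit 28473124), (nat_lit 19449108), (nat_lit 12587812)] (nat_lit 10729447)) p15_39_1 (nat_lit 3) (nat_lit 39) (nat_lit 40) = true := by decide +kernel
def p15_39_1_40 : pfC (piC [(nat_lit 28473124), (nat_lit 19449108), (nat_lit 12587812)] (nat_lit 10729447)) p15_39_1 (nat_lit 3) (nat_lit 40) (nat_lit 41) = true := by decide +kernel
def p15_39_1_41 : pfC (piC [(nat_lit 28473124), (nat_lit 19449108), (nat_lit 12587812)] (nat_lit 10729447)) p15_39_1 (nat_lit 3) (nat_lit 41) (nat_lit 42) = true := by decide +kernel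
def p15_39_1_42 : pfC (piC [(nat_lit 28473124), (nat_lit 19449108), (nat_lit 12587812)] (nat_lit 10729447)) p15_39_1 (nat_lit 3) (nat_lit 42) (nat_lit 43) = true := by decide +kernel
def p15_39_1_43 : pfC (piC [(nat_lit 28473124), (nat_lit 19449108), (nat_lit 12587812)] (nat_lit 10729447)) p15_39_1 (nat_lit 3) (nat_lit 43) (nat_lit 44) = true := by decide +kernel
def p15_39_1_44 : pfC (piC [(nat_lit 28473124), (nat_lit 19449108), (nat_lit 12587812)] (nat_lit 10729447)) p15_39_1 (nat_lit 3) (nat_lit 44) (nat_lit 45) = true := by decide +kernel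
def p15_39_1_45 : pfC (piC [(nat_lit 28473124), (nat_lit 19449108), (nat_lit 12587812)] (nat_lit 10729447)) p15_39_1 (nat_lit 3) (nat_lit 45) (nat_lit 46) = true := by decide +kernel
def p15_39_1_46 : pfC (piC [(nat_lit 28473124), (nat_lit 19449108), (nat_lit 12587812)] (nat_lit 10729447)) p15_39_1 (nat_lit 3) (nat_lit 46) (nat_lit 47) = true := by decide +kernel
def p15_39_1_47 : pfC (piC [(nat_lit 28473124), (nat_lit 19449108), (nat_lit 12587812)] (nat_lit 10729447)) p15_39_1 (nat_lit 3) (nat_lit 47) (nat_lit 48) = true := by decide +kernel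
def p15_39_1_48 : pfC (piC [(nat_lit 28473124), (nat_lit 19449108), (nat_lit 12587812)] (nat_lit 10729447)) p15_39_1 (nat_lit 3) (nat_lit 48) (nat_lit 49) = true := by decide +kernel
def p15_39_1_49 : pfC (piC [(nat_lit 28473124), (nat_lit 19449108), (nat_lit 12587812)] (nat_lit 10729447)) p15_39_1 (nat_lit 3) (nat_lit 49) (nat_lit 50) = true := by decide +kernel
def p15_39_1_50 : pfC (piC [(nat_lit 28473124), (nat_lit 19449108), (nat_lit 12587812)] (nat_lit 10729447)) p15_39_1 (nat_lit 3) (nat_lit 50) (nat_lit 51) = true := by decide +kernel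
def p15_39_1_51 : pfC (piC [(nat_lit 28473124), (nat_lit 19449108), (nat_lit 12587812)] (nat_lit 10729447)) p15_39_1 (nat_lit 3) (nat_lit 51) (nat_lit 52) = true := by decide +kernel
def p15_39_1_52 : pfC (piC [(nat_lit 28473124), (nat_lit 19449108), (nat_lit 12587812)] (nat_lit 10729447)) p15_39_1 (nat_lit 3) (nat_lit 52) (nat_lit 53) = true := by decide +kernel
def p15_39_1_53 : pfC (piC [(nat_lit 28473124), (nat_lit 19449108), (nat_lit 12587812)] (nat_lit 10729447)) p15_39_1 (nat_lit 3) (nat_lit 53) (nat_lit 54) = true := by decide +kernel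
def p15_39_1_54 : pfC (piC [(nat_lit 28473124), (nat_lit 19449108), (nat_lit 12587812)] (nat_lit 10729447)) p15_39_1 (nat_lit 3) (nat_lit 54) (nat_lit 55) = true := by decide +kernel
def p15_39_1_55 : pfC (piC [(nat_lit 28473124), (nat_lit 19449108), (nat_lit 12587812)] (nat_lit 10729447)) p15_39_1 (nat_lit 3) (nat_lit 55) (nat_lit 56) = true := by decide +kernel
def p15_39_1_56 : pfC (piC [(nat_lit 28473124), (nat_lit 19449108), (nat_lit 12587812)] (nat_lit 10729447)) p15_39_1 (nat_lit 3) (nat_lit 56) (nat_lit 57) = true := by decide +kernel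
def p15_39_1_57 : pfC (piC [(nat_lit 28473124), (nat_lit 19449108), (nat_lit 12587812)] (nat_lit 10729447)) p15_39_1 (nat_lit 3) (nat_lit 57) (nat_lit 58) = true := by decide +kernel
def p15_39_1_58 : pfC (piC [(nat_lit 28473124), (nat_lit 19449108), (nat_lit 12587812)] (nat_lit 10729447)) p15_39_1 (nat_lit 3) (nat_lit 58) (nat_lit 59) = true := by decide +kernel
def p15_39_1_59 : pfC (piC [(nat_lit 28473124), (nat_lit 19449108), (nat_lit 12587812)] (nat_lit 10729447)) p15_39_1 (nat_lit 3) (nat_lit 59) (nat_lit 60) = true := by decide +kernel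
def p15_39_1_60 : pfC (piC [(nat_lit 28473124), (nat_lit 19449108), (nat_lit 12587812)] (nat_lit 10729447)) p15_39_1 (nat_lit 3) (nat_lit 60) (nat_lit 61) = true := by decide +kernel
def p15_39_1_61 : pfC (piC [(nat_lit 28473124), (nat_lit 19449108), (nat_lit 12587812)] (nat_lit 10729447)) p15_39_1 (nat_lit 3) (nat_lit 61) (nat_lit 62) = true := by decide +kernel
def p15_39_1_62 : pfC (piC [(nat_lit 28473124), (nat_lit 19449108), (nat_lit 12587812)] (nat_lit 10729447)) p15_39_1 (nat_lit 3) (nat_lit 62) (nat_lit 63) = true := by decide +kernel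
def p15_39_1_63 : pfC (piC [(nat_lit 28473124), (nat_lit 19449108), (nat_lit 12587812)] (nat_lit 10729447)) p15_39_1 (nat_lit 3) (nat_lit 63) (nat_lit 64) = true := by decide +kernel
def p15_39_1_64 : pfC (piC [(nat_lit 28473124), (nat_lit 19449108), (nat_lit 12587812)] (nat_lit 10729447)) p15_39_1 (nat_lit 3) (nat_lit 64) (nat_lit 65) = true := by decide +kernel
def p15_39_1_65 : pfC (piC [(nat_lit 28473124), (nat_lit 19449108), (nat_lit 12587812)] (nat_lit 10729447)) p15_39_1 (nat_lit 3) (nat_lit 65) (nat_lit 66) = true := by decide +kernel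
def p15_39_1_66 : pfC (piC [(nat_lit 28473124), (nat_lit 19449108), (nat_lit 12587812)] (nat_lit 10729447)) p15_39_1 (nat_lit 3) (nat_lit 66) (nat_lit 67) = true := by decide +kernel
def p15_39_1_67 : pfC (piC [(nat_lit 28473124), (nat_lit 19449108), (nat_lit 12587812)] (nat_lit 10729447)) p15_39_1 (nat_lit 3) (nat_lit 67) (nat_lit 68) = true := by decide +kernel
def p15_39_1_68 : pfC (piC [(nat_lit 28473124), (nat_lit 19449108), (nat_lit 12587812)] (nat_lit 10729447)) p15_39_1 (nat_lit 3) (nat_lit 68) (nat_lit 69) = true := by decide +kernel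
def p15_39_1_69 : pfC (piC [(nat_lit 28473124), (nat_lit 19449108), (nat_lit 12587812)] (nat_lit 10729447)) p15_39_1 (nat_lit 3) (nat_lit 69) (nat_lit 70) = true := by decide +kernel
def p15_39_1_70 : pfC (piC [(nat_lit 28473124), (nat_lit 19449108), (nat_lit 12587812)] (nat_lit 10729447)) p15_39_1 (nat_lit 3) (nat_lit 70) (nat_lit 71) = true := by decide +kernel
def p15_39_1_71 : pfC (piC [(nat_lit 28473124), (nat_lit 19449108), (nat_lit 12587812)] (nat_lit 10729447)) p15_39_1 (nat_lit 3) (nat_lit 71) (nat_lit 72) = true := by decide +kernel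
def p15_39_1_72 : pfC (piC [(nat_lit 28473124), (nat_lit 19449108), (nat_lit 12587812)] (nat_lit 10729447)) p15_39_1 (nat_lit 3) (nat_lit 72) (nat_lit 73) = true := by decide +kernel
def p15_39_1_73 : pfC (piC [(nat_lit 28473124), (nat_lit 19449108), (nat_lit 12587812)] (nat_lit 10729447)) p15_39_1 (nat_lit 3) (nat_lit 73) (nat_lit 74) = true := by decide +kernel
def p15_39_1_74 : pfC (piC [(nat_lit 28473124), (nat_lit 19449108), (nat_lit 12587812)] (nat_lit 10729447)) p15_39_1 (nat_lit 3) (nat_lit 74) (nat_lit 75) = true := by decide +kernel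
def p15_39_1_75 : pfC (piC [(nat_lit 28473124), (nat_lit 19449108), (nat_lit 12587812)] (nat_lit 10729447)) p15_39_1 (nat_lit 3) (nat_lit 75) (nat_lit 76) = true := by decide +kernel
def p15_39_1_76 : pfC (piC [(nat_lit 28473124), (nat_lit 19449108), (nat_lit 12587812)] (nat_lit 10729447)) p15_39_1 (nat_lit 3) (nat_lit 76) (nat_lit 77) = true := by decide +kernel
def p15_39_1_77 : pfC (piC [(nat_lit 28473124), (nat_lit 19449108), (nat_lit 12587812)] (nat_lit 10729447)) p15_39_1 (nat_lit 3) (nat_lit 77) (nat_lit 78) = true := by decide +kernel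
def p15_39_1_78 : pfC (piC [(nat_lit 28473124), (nat_lit 19449108), (nat_lit 12587812)] (nat_lit 10729447)) p15_39_1 (nat_lit 3) (nat_lit 78) (nat_lit 79) = true := by decide +kernel
def p15_39_1_79 : pfC (piC [(nat_lit 28473124), (nat_lit 19449108), (nat_lit 12587812)] (nat_lit 10729447)) p15_39_1 (nat_lit 3) (nat_lit 79) (nat_lit 80) = true := by decide +kernel
def p15_39_1_80 : pfC (piC [(nat_lit 28473124), (nat_lit 19449108), (nat_lit 12587812)] (nat_lit 10729447)) p15_39_1 (nat_lit 3) (nat_lit 80) (nat_lit 81) = true := by decide +kernel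
def p15_39_1_81 : pfC (piC [(nat_lit 28473124), (nat_lit 19449108), (nat_lit 12587812)] (nat_lit 10729447)) p15_39_1 (nat_lit 3) (nat_lit 81) (nat_lit 82) = true := by decide +kernel
def p15_39_1_82 : pfC (piC [(nat_lit 28473124), (nat_lit 19449108), (nat_lit 12587812)] (nat_lit 10729447)) p15_39_1 (nat_lit 3) (nat_lit 82) (nat_lit 83) = true := by decide +kernel
def p15_39_1_83 : pfC (piC [(nat_lit 28473124), (nat_lit 19449108), (nat_lit 12587812)] (nat_lit 10729447)) p15_39_1 (nat_lit 3) (nat_lit 83) (nat_lit 84) = true := by decide +kernel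
def p15_39_1_84 : pfC (piC [(nat_lit 28473124), (nat_lit 19449108), (nat_lit 12587812)] (nat_lit 10729447)) p15_39_1 (nat_lit 3) (nat_lit 84) (nat_lit 85) = true := by decide +kernel
def p15_39_1_85 : pfC (piC [(nat_lit 28473124), (nat_lit 19449108), (nat_lit 12587812)] (nat_lit 10729447)) p15_39_1 (nat_lit 3) (nat_lit 85) (nat_lit 86) = true := by decide +kernel
def p15_39_1_86 : pfC (piC [(nat_lit 28473124), (nat_lit 19449108), (nat_lit 12587812)] (nat_lit 10729447)) p15_39_1 (nat_lit 3) (nat_lit 86) (nat_lit 87) = true := by decide +kernel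
def p15_39_1_87 : pfC (piC [(nat_lit 28473124), (nat_lit 19449108), (nat_lit 12587812)] (nat_lit 10729447)) p15_39_1 (nat_lit 3) (nat_lit 87) (nat_lit 88) = true := by decide +kernel
def p15_39_1_88 : pfC (piC [(nat_lit 28473124), (nat_lit 19449108), (nat_lit 12587812)] (nat_lit 10729447)) p15_39_1 (nat_lit 3) (nat_lit 88) (nat_lit 89) = true := by decide +kernel
def p15_39_1_89 : pfC (piC [(nat_lit 28473124), (nat_lit 19449108), (nat_lit 12587812)] (nat_lit 10729447)) p15_39_1 (nat_lit 3) (nat_lit 89) (nat_lit 90) = true := by decide +kernel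
def p15_39_1_90 : pfC (piC [(nat_lit 28473124), (nat_lit 19449108), (nat_lit 12587812)] (nat_lit 10729447)) p15_39_1 (nat_lit 3) (nat_lit 90) (nat_lit 91) = true := by decide +kernel
def p15_39_1_91 : pfC (piC [(nat_lit 28473124), (nat_lit 19449108), (nat_lit 12587812)] (nat_lit 10729447)) p15_39_1 (nat_lit 3) (nat_lit 91) (nat_lit 92) = true := by decide +kernel
def p15_39_1_92 : pfC (piC [(nat_lit 28473124), (nat_lit 19449108), (nat_lit 12587812)] (nat_lit 10729447)) p15_39_1 (nat_lit 3) (nat_lit 92) (nat_lit 93) = true := by decide +kernel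
def p15_39_1_93 : pfC (piC [(nat_lit 28473124), (nat_lit 19449108), (nat_lit 12587812)] (nat_lit 10729447)) p15_39_1 (nat_lit 3) (nat_lit 93) (nat_lit 94) = true := by decide +kernel
def p15_39_1_94 : pfC (piC [(nat_lit 28473124), (nat_lit 19449108), (nat_lit 12587812)] (nat_lit 10729447)) p15_39_1 (nat_lit 3) (nat_lit 94) (nat_lit 95) = true := by decide +kernel
def p15_39_1_95 : pfC (piC [(nat_lit 28473124), (nat_lit 19449108), (nat_lit 12587812)] (nat_lit 10729447)) p15_39_1 (nat_lit 3) (nat_lit 95) (nat_lit 96) = true := by decide +kernel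
def p15_39_1_96 : pfC (piC [(nat_lit 28473124), (nat_lit 19449108), (nat_lit 12587812)] (nat_lit 10729447)) p15_39_1 (nat_lit 3) (nat_lit 96) (nat_lit 97) = true := by decide +kernel
def p15_39_1_97 : pfC (piC [(nat_lit 28473124), (nat_lit 19449108), (nat_lit 12587812)] (nat_lit 10729447)) p15_39_1 (nat_lit 3) (nat_lit 97) (nat_lit 98) = true := by decide +kernel
def p15_39_1_98 : pfC (piC [(nat_lit 28473124), (nat_lit 19449108), (nat_lit 12587812)] (nat_lit 10729447)) p15_39_1 (nat_lit 3) (nat_lit 98) (nat_lit 99) = true := by decide +kernel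
def p15_39_1_99 : pfC (piC [(nat_lit 28473124), (nat_lit 19449108), (nat_lit 12587812)] (nat_lit 10729447)) p15_39_1 (nat_lit 3) (nat_lit 99) (nat_lit 100) = true := by decide +kernel
def p15_39_1_100 : pfC (piC [(nat_lit 28473124), (nat_lit 19449108), (nat_lit 12587812)] (nat_lit 10729447)) p15_39_1 (nat_lit 3) (nat_lit 100) (nat_lit 101) = true := by decide +kernel
def p15_39_1_101 : pfC (piC [(nat_lit 28473124), (nat_lit 19449108), (nat_lit 12587812)] (nat_lit 10729447)) p15_39_1 (nat_lit 3) (nat_lit 101) (nat_lit 102) = true := by decide +kernel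
def p15_39_1_102 : pfC (piC [(nat_lit 28473124), (nat_lit 19449108), (nat_lit 12587812)] (nat_lit 10729447)) p15_39_1 (nat_lit 3) (nat_lit 102) (nat_lit 103) = true := by decide +kernel
def p15_39_1_103 : pfC (piC [(nat_lit 28473124), (nat_lit 19449108), (nat_lit 12587812)] (nat_lit 10729447)) p15_39_1 (nat_lit 3) (nat_lit 103) (nat_lit 104) = true := by decide +kernel
def p15_39_1_104 : pfC (piC [(nat_lit 28473124), (nat_lit 19449108), (nat_lit 12587812)] (nat_lit 10729447)) p15_39_1 (nat_lit 3) (nat_lit 104) (nat_lit 105) = true := by decide +kernel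
def p15_39_1_105 : pfC (piC [(nat_lit 28473124), (nat_lit 19449108), (nat_lit 12587812)] (nat_lit 10729447)) p15_39_1 (nat_lit 3) (nat_lit 105) (nat_lit 106) = true := by decide +kernel
def p15_39_1_106 : pfC (piC [(nat_lit 28473124), (nat_lit 19449108), (nat_lit 12587812)] (nat_lit 10729447)) p15_39_1 (nat_lit 3) (nat_lit 106) (nat_lit 107) = true := by decide +kernel
def p15_39_1_107 : pfC (piC [(nat_lit 28473124), (nat_lit 19449108), (nat_lit 12587812)] (nat_lit 10729447)) p15_39_1 (nat_lit 3) (nat_lit 107) (nat_lit 108) = true := by decide +kernel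
def p15_39_1_108 : pfC (piC [(nat_lit 28473124), (nat_lit 19449108), (nat_lit 12587812)] (nat_lit 10729447)) p15_39_1 (nat_lit 3) (nat_lit 108) (nat_lit 109) = true := by decide +kernel
def p15_39_1_109 : pfC (piC [(nat_lit 28473124), (nat_lit 19449108), (nat_lit 12587812)] (nat_lit 10729447)) p15_39_1 (nat_lit 3) (nat_lit 109) (nat_lit 110) = true := by decide +kernel
def p15_39_1_110 : pfC (piC [(nat_lit 28473124), (nat_lit 19449108), (nat_lit 12587812)] (nat_lit 10729447)) p15_39_1 (nat_lit 3) (nat_lit 110) (nat_lit 111) = true := by decide +kernel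
def p15_39_1_111 : pfC (piC [(nat_lit 28473124), (nat_lit 19449108), (nat_lit 12587812)] (nat_lit 10729447)) p15_39_1 (nat_lit 3) (nat_lit 111) (nat_lit 112) = true := by decide +kernel
def p15_39_1_112 : pfC (piC [(nat_lit 28473124), (nat_lit 19449108), (nat_lit 12587812)] (nat_lit 10729447)) p15_39_1 (nat_lit 3) (nat_lit 112) (nat_lit 113) = true := by decide +kernel
def p15_39_1_113 : pfC (piC [(nat_lit 28473124), (nat_lit 19449108), (nat_lit 12587812)] (nat_lit 10729447)) p15_39_1 (nat_lit 3) (nat_lit 113) (nat_lit 114) = true := by decide +kernel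
def p15_39_1_114 : pfC (piC [(nat_lit 28473124), (nat_lit 19449108), (nat_lit 12587812)] (nat_lit 10729447)) p15_39_1 (nat_lit 3) (nat_lit 114) (nat_lit 115) = true := by decide +kernel
def p15_39_1_115 : pfC (piC [(nat_lit 28473124), (nat_lit 19449108), (nat_lit 12587812)] (nat_lit 10729447)) p15_39_1 (nat_lit 3) (nat_lit 115) (nat_lit 116) = true := by decide +kernel
def p15_39_1_116 : pfC (piC [(nat_lit 28473124), (nat_lit 19449108), (nat_lit 12587812)] (nat_lit 10729447)) p15_39_1 (nat_lit 3) (nat_lit 116) (nat_lit 117) = true := by decide +kernel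
def p15_39_1_117 : pfC (piC [(nat_lit 28473124), (nat_lit 19449108), (nat_lit 12587812)] (nat_lit 10729447)) p15_39_1 (nat_lit 3) (nat_lit 117) (nat_lit 118) = true := by decide +kernel
def p15_39_1_118 : pfC (piC [(nat_lit 28473124), (nat_lit 19449108), (nat_lit 12587812)] (nat_lit 10729447)) p15_39_1 (nat_lit 3) (nat_lit 118) (nat_lit 119) = true := by decide +kernel
def p15_39_1_119 : pfC (piC [(nat_lit 28473124), (nat_lit 19449108), (nat_lit 12587812)] (nat_lit 10729447)) p15_39_1 (nat_lit 3) (nat_lit 119) (nat_lit 120) = true := by decide +kernel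
def p15_39_1_120 : pfC (piC [(nat_lit 28473124), (nat_lit 19449108), (nat_lit 12587812)] (nat_lit 10729447)) p15_39_1 (nat_lit 3) (nat_lit 120) (nat_lit 121) = true := by decide +kernel
def p15_39_1_121 : pfC (piC [(nat_lit 28473124), (nat_lit 19449108), (nat_lit 12587812)] (nat_lit 10729447)) p15_39_1 (nat_lit 3) (nat_lit 121) (nat_lit 122) = true := by decide +kernel
def p15_39_1_122 : pfC (piC [(nat_lit 28473124), (nat_lit 19449108), (nat_lit 12587812)] (nat_lit 10729447)) p15_39_1 (nat_lit 3) (nat_lit 122) (nat_lit 123) = true := by decide +kernel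
def p15_39_1_123 : pfC (piC [(nat_lit 28473124), (nat_lit 19449108), (nat_lit 12587812)] (nat_lit 10729447)) p15_39_1 (nat_lit 3) (nat_lit 123) (nat_lit 124) = true := by decide +kernel
def p15_39_1_124 : pfC (piC [(nat_lit 28473124), (nat_lit 19449108), (nat_lit 12587812)] (nat_lit 10729447)) p15_39_1 (nat_lit 3) (nat_lit 124) (nat_lit 125) = true := by decide +kernel
def p15_39_1_125 : pfC (piC [(nat_lit 28473124), (nat_lit 19449108), (nat_lit 12587812)] (nat_lit 10729447)) p15_39_1 (nat_lit 3) (nat_lit 125) (nat_lit 126) = true := by decide +kernel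
def p15_39_1_126 : pfC (piC [(nat_lit 28473124), (nat_lit 19449108), (nat_lit 12587812)] (nat_lit 10729447)) p15_39_1 (nat_lit 3) (nat_lit 126) (nat_lit 127) = true := by decide +kernel
def p15_39_1_127 : pfC (piC [(nat_lit 28473124), (nat_lit 19449108), (nat_lit 12587812)] (nat_lit 10729447)) p15_39_1 (nat_lit 3) (nat_lit 127) (nat_lit 128) = true := by decide +kernel
def p15_39_1_128 : pfC (piC [(nat_lit 28473124), (nat_lit 19449108), (nat_lit 12587812)] (nat_lit 10729447)) p15_39_1 (nat_lit 3) (nat_lit 128) (nat_lit 129) = true := by decide +kernel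
def p15_39_1_129 : pfC (piC [(nat_lit 28473124), (nat_lit 19449108), (nat_lit 12587812)] (nat_lit 10729447)) p15_39_1 (nat_lit 3) (nat_lit 129) (nat_lit 130) = true := by decide +kernel
def p15_39_1_130 : pfC (piC [(nat_lit 28473124), (nat_lit 19449108), (nat_lit 12587812)] (nat_lit 10729447)) p15_39_1 (nat_lit 3) (nat_lit 130) (nat_lit 131) = true := by decide +kernel
def p15_39_1_131 : pfC (piC [(nat_lit 28473124), (nat_lit 19449108), (nat_lit 12587812)] (nat_lit 10729447)) p15_39_1 (nat_lit 3) (nat_lit 131) (nat_lit 132) = true := by decide +kernel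
def p15_39_1_132 : pfC (piC [(nat_lit 28473124), (nat_lit 19449108), (nat_lit 12587812)] (nat_lit 10729447)) p15_39_1 (nat_lit 3) (nat_lit 132) (nat_lit 133) = true := by decide +kernel
def p15_39_1_133 : pfC (piC [(nat_lit 28473124), (nat_lit 19449108), (nat_lit 12587812)] (nat_lit 10729447)) p15_39_1 (nat_lit 3) (nat_lit 133) (nat_lit 134) = true := by decide +kernel
def p15_39_1_134 : pfC (piC [(nat_lit 28473124), (nat_lit 19449108), (nat_lit 12587812)] (nat_lit 10729447)) p15_39_1 (nat_lit 3) (nat_lit 134) (nat_lit 135) = true := by decide +kernel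
def p15_39_1_135 : pfC (piC [(nat_lit 28473124), (nat_lit 19449108), (nat_lit 12587812)] (nat_lit 10729447)) p15_39_1 (nat_lit 3) (nat_lit 135) (nat_lit 136) = true := by decide +kernel
def p15_39_1_136 : pfC (piC [(nat_lit 28473124), (nat_lit 19449108), (nat_lit 12587812)] (nat_lit 10729447)) p15_39_1 (nat_lit 3) (nat_lit 136) (nat_lit 137) = true := by decide +kernel
def p15_39_1_137 : pfC (piC [(nat_lit 28473124), (nat_lit 19449108), (nat_lit 12587812)] (nat_lit 10729447)) p15_39_1 (nat_lit 3) (nat_lit 137) (nat_lit 138) = true := by decide +kernel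
def p15_39_1_138 : pfC (piC [(nat_lit 28473124), (nat_lit 19449108), (nat_lit 12587812)] (nat_lit 10729447)) p15_39_1 (nat_lit 3) (nat_lit 138) (nat_lit 139) = true := by decide +kernel
def p15_39_1_139 : pfC (piC [(nat_lit 28473124), (nat_lit 19449108), (nat_lit 12587812)] (nat_lit 10729447)) p15_39_1 (nat_lit 3) (nat_lit 139) (nat_lit 140) = true := by decide +kernel
def p15_39_1_140 : pfC (piC [(nat_lit 28473124), (nat_lit 19449108), (nat_lit 12587812)] (nat_lit 10729447)) p15_39_1 (nat_lit 3) (nat_lit 140) (nat_lit 141) = true := by decide +kernel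
def p15_39_1_141 : pfC (piC [(nat_lit 28473124), (nat_lit 19449108), (nat_lit 12587812)] (nat_lit 10729447)) p15_39_1 (nat_lit 3) (nat_lit 141) (nat_lit 142) = true := by decide +kernel
def p15_39_1_142 : pfC (piC [(nat_lit 28473124), (nat_lit 19449108), (nat_lit 12587812)] (nat_lit 10729447)) p15_39_1 (nat_lit 3) (nat_lit 142) (nat_lit 143) = true := by decide +kernel
def p15_39_1_143 : pfC (piC [(nat_lit 28473124), (nat_lit 19449108), (nat_lit 12587812)] (nat_lit 10729447)) p15_39_1 (nat_lit 3) (nat_lit 143) (nat_lit 144) = true := by decide +kernel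
def p15_39_1_144 : pfC (piC [(nat_lit 28473124), (nat_lit 19449108), (nat_lit 12587812)] (nat_lit 10729447)) p15_39_1 (nat_lit 3) (nat_lit 144) (nat_lit 145) = true := by decide +kernel
def p15_39_1_145 : pfC (piC [(nat_lit 28473124), (nat_lit 19449108), (nat_lit 12587812)] (nat_lit 10729447)) p15_39_1 (nat_lit 3) (nat_lit 145) (nat_lit 146) = true := by decide +kernel
def p15_39_1_146 : pfC (piC [(nat_lit 28473124), (nat_lit 19449108), (nat_lit 12587812)] (nat_lit 10729447)) p15_39_1 (nat_lit 3) (nat_lit 146) (nat_lit 147) = true := by decide +kernel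
def p15_39_1_147 : pfC (piC [(nat_lit 28473124), (nat_lit 19449108), (nat_lit 12587812)] (nat_lit 10729447)) p15_39_1 (nat_lit 3) (nat_lit 147) (nat_lit 148) = true := by decide +kernel
def p15_39_1_148 : pfC (piC [(nat_lit 28473124), (nat_lit 19449108), (nat_lit 12587812)] (nat_lit 10729447)) p15_39_1 (nat_lit 3) (nat_lit 148) (nat_lit 149) = true := by decide +kernel
def p15_39_1_149 : pfC (piC [(nat_lit 28473124), (nat_lit 19449108), (nat_lit 12587812)] (nat_lit 10729447)) p15_39_1 (nat_lit 3) (nat_lit 149) (nat_lit 150) = true := by decide +kernel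
def p15_39_1_150 : pfC (piC [(nat_lit 28473124), (nat_lit 19449108), (nat_lit 12587812)] (nat_lit 10729447)) p15_39_1 (nat_lit 3) (nat_lit 150) (nat_lit 151) = true := by decide +kernel
def p15_39_1_151 : pfC (piC [(nat_lit 28473124), (nat_lit 19449108), (nat_lit 12587812)] (nat_lit 10729447)) p15_39_1 (nat_lit 3) (nat_lit 151) (nat_lit 152) = true := by decide +kernel
def p15_39_1_152 : pfC (piC [(nat_lit 28473124), (nat_lit 19449108), (nat_lit 12587812)] (nat_lit 10729447)) p15_39_1 (nat_lit 3) (nat_lit 152) (nat_lit 153) = true := by decide +kernel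
def p15_39_1_153 : pfC (piC [(nat_lit 28473124), (nat_lit 19449108), (nat_lit 12587812)] (nat_lit 10729447)) p15_39_1 (nat_lit 3) (nat_lit 153) (nat_lit 154) = true := by decide +kernel
def p15_39_1_154 : pfC (piC [(nat_lit 28473124), (nat_lit 19449108), (nat_lit 12587812)] (nat_lit 10729447)) p15_39_1 (nat_lit 3) (nat_lit 154) (nat_lit 155) = true := by decide +kernel
def p15_39_1_155 : pfC (piC [(nat_lit 28473124), (nat_lit 19449108), (nat_lit 12587812)] (nat_lit 10729447)) p15_39_1 (nat_lit 3) (nat_lit 155) (nat_lit 156) = true := by decide +kernel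
def p15_39_1_156 : pfC (piC [(nat_lit 28473124), (nat_lit 19449108), (nat_lit 12587812)] (nat_lit 10729447)) p15_39_1 (nat_lit 3) (nat_lit 156) (nat_lit 157) = true := by decide +kernel
def p15_39_1_157 : pfC (piC [(nat_lit 28473124), (nat_lit 19449108), (nat_lit 12587812)] (nat_lit 10729447)) p15_39_1 (nat_lit 3) (nat_lit 157) (nat_lit 158) = true := by decide +kernel
def p15_39_1_158 : pfC (piC [(nat_lit 28473124), (nat_lit 19449108), (nat_lit 12587812)] (nat_lit 10729447)) p15_39_1 (nat_lit 3) (nat_lit 158) (nat_lit 159) = true := by decide +kernel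
def p15_39_1_159 : pfC (piC [(nat_lit 28473124), (nat_lit 19449108), (nat_lit 12587812)] (nat_lit 10729447)) p15_39_1 (nat_lit 3) (nat_lit 159) (nat_lit 160) = true := by decide +kernel
def p15_39_1_160 : pfC (piC [(nat_lit 28473124), (nat_lit 19449108), (nat_lit 12587812)] (nat_lit 10729447)) p15_39_1 (nat_lit 3) (nat_lit 160) (nat_lit 161) = true := by decide +kernel
def p15_39_1_161 : pfC (piC [(nat_lit 28473124), (nat_lit 19449108), (nat_lit 12587812)] (nat_lit 10729447)) p15_39_1 (nat_lit 3) (nat_lit 161) (nat_lit 162) = true := by decide +kernel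
def p15_39_1_162 : pfC (piC [(nat_lit 28473124), (nat_lit 19449108), (nat_lit 12587812)] (nat_lit 10729447)) p15_39_1 (nat_lit 3) (nat_lit 162) (nat_lit 163) = true := by decide +kernel
def p15_39_1_163 : pfC (piC [(nat_lit 28473124), (nat_lit 19449108), (nat_lit 12587812)] (nat_lit 10729447)) p15_39_1 (nat_lit 3) (nat_lit 163) (nat_lit 164) = true := by decide +kernel
def p15_39_1_164 : pfC (piC [(nat_lit 28473124), (nat_lit 19449108), (nat_lit 12587812)] (nat_lit 10729447)) p15_39_1 (nat_lit 3) (nat_lit 164) (nat_lit 165) = true := by decide +kernel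
def p15_39_1_165 : pfC (piC [(nat_lit 28473124), (nat_lit 19449108), (nat_lit 12587812)] (nat_lit 10729447)) p15_39_1 (nat_lit 3) (nat_lit 165) (nat_lit 166) = true := by decide +kernel
def p15_39_1_166 : pfC (piC [(nat_lit 28473124), (nat_lit 19449108), (nat_lit 12587812)] (nat_lit 10729447)) p15_39_1 (nat_lit 3) (nat_lit 166) (nat_lit 167) = true := by decide +kernel
def p15_39_1_167 : pfC (piC [(nat_lit 28473124), (nat_lit 19449108), (nat_lit 12587812)] (nat_lit 10729447)) p15_39_1 (nat_lit 3) (nat_lit 167) (nat_lit 168) = true := by decide +kernel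
def p15_39_1_168 : pfC (piC [(nat_lit 28473124), (nat_lit 19449108), (nat_lit 12587812)] (nat_lit 10729447)) p15_39_1 (nat_lit 3) (nat_lit 168) (nat_lit 169) = true := by decide +kernel
def p15_39_1_169 : pfC (piC [(nat_lit 28473124), (nat_lit 19449108), (nat_lit 12587812)] (nat_lit 10729447)) p15_39_1 (nat_lit 3) (nat_lit 169) (nat_lit 170) = true := by decide +kernel
def p15_39_1_170 : pfC (piC [(nat_lit 28473124), (nat_lit 19449108), (nat_lit 12587812)] (nat_lit 10729447)) p15_39_1 (nat_lit 3) (nat_lit 170) (nat_lit 171) = true := by decide +kernel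
def p15_39_1_171 : pfC (piC [(nat_lit 28473124), (nat_lit 19449108), (nat_lit 12587812)] (nat_lit 10729447)) p15_39_1 (nat_lit 3) (nat_lit 171) (nat_lit 172) = true := by decide +kernel
def p15_39_1_172 : pfC (piC [(nat_lit 28473124), (nat_lit 19449108), (nat_lit 12587812)] (nat_lit 10729447)) p15_39_1 (nat_lit 3) (nat_lit 172) (nat_lit 173) = true := by decide +kernel
def p15_39_1_173 : pfC (piC [(nat_lit 28473124), (nat_lit 19449108), (nat_lit 12587812)] (nat_lit 10729447)) p15_39_1 (nat_lit 3) (nat_lit 173) (nat_lit 174) = true := by decide +kernel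
def p15_39_1_174 : pfC (piC [(nat_lit 28473124), (nat_lit 19449108), (nat_lit 12587812)] (nat_lit 10729447)) p15_39_1 (nat_lit 3) (nat_lit 174) (nat_lit 175) = true := by decide +kernel
def p15_39_1_175 : pfC (piC [(nat_lit 28473124), (nat_lit 19449108), (nat_lit 12587812)] (nat_lit 10729447)) p15_39_1 (nat_lit 3) (nat_lit 175) (nat_lit 176) = true := by decide +kernel
def p15_39_1_176 : pfC (piC [(nat_lit 28473124), (nat_lit 19449108), (nat_lit 12587812)] (nat_lit 10729447)) p15_39_1 (nat_lit 3) (nat_lit 176) (nat_lit 177) = true := by decide +kernel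
def p15_39_1_177 : pfC (piC [(nat_lit 28473124), (nat_lit 19449108), (nat_lit 12587812)] (nat_lit 10729447)) p15_39_1 (nat_lit 3) (nat_lit 177) (nat_lit 178) = true := by decide +kernel
def p15_39_1_178 : pfC (piC [(nat_lit 28473124), (nat_lit 19449108), (nat_lit 12587812)] (nat_lit 10729447)) p15_39_1 (nat_lit 3) (nat_lit 178) (nat_lit 179) = true := by decide +kernel
def p15_39_1_179 : pfC (piC [(nat_lit 28473124), (nat_lit 19449108), (nat_lit 12587812)] (nat_lit 10729447)) p15_39_1 (nat_lit 3) (nat_lit 179) (nat_lit 180) = true := by decide +kernel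
def p15_39_1_180 : pfC (piC [(nat_lit 28473124), (nat_lit 19449108), (nat_lit 12587812)] (nat_lit 10729447)) p15_39_1 (nat_lit 3) (nat_lit 180) (nat_lit 181) = true := by decide +kernel
def p15_39_1_181 : pfC (piC [(nat_lit 28473124), (nat_lit 19449108), (nat_lit 12587812)] (nat_lit 10729447)) p15_39_1 (nat_lit 3) (nat_lit 181) (nat_lit 182) = true := by decide +kernel
def p15_39_1_182 : pfC (piC [(nat_lit 28473124), (nat_lit 19449108), (nat_lit 12587812)] (nat_lit 10729447)) p15_39_1 (nat_lit 3) (nat_lit 182) (nat_lit 183) = true := by decide +kernel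
def p15_39_1_183 : pfC (piC [(nat_lit 28473124), (nat_lit 19449108), (nat_lit 12587812)] (nat_lit 10729447)) p15_39_1 (nat_lit 3) (nat_lit 183) (nat_lit 184) = true := by decide +kernel
def p15_39_1_184 : pfC (piC [(nat_lit 28473124), (nat_lit 19449108), (nat_lit 12587812)] (nat_lit 10729447)) p15_39_1 (nat_lit 3) (nat_lit 184) (nat_lit 185) = true := by decide +kernel
def p15_39_1_185 : pfC (piC [(nat_lit 28473124), (nat_lit 19449108), (nat_lit 12587812)] (nat_lit 10729447)) p15_39_1 (nat_lit 3) (nat_lit 185) (nat_lit 186) = true := by decide +kernel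
def p15_39_1_186 : pfC (piC [(nat_lit 28473124), (nat_lit 19449108), (nat_lit 12587812)] (nat_lit 10729447)) p15_39_1 (nat_lit 3) (nat_lit 186) (nat_lit 187) = true := by decide +kernel
def p15_39_1_187 : pfC (piC [(nat_lit 28473124), (nat_lit 19449108), (nat_lit 12587812)] (nat_lit 10729447)) p15_39_1 (nat_lit 3) (nat_lit 187) (nat_lit 188) = true := by decide +kernel
def p15_39_1_188 : pfC (piC [(nat_lit 28473124), (nat_lit 19449108), (nat_lit 12587812)] (nat_lit 10729447)) p15_39_1 (nat_lit 3) (nat_lit 188) (nat_lit 189) = true := by decide +kernel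
def p15_39_1_189 : pfC (piC [(nat_lit 28473124), (nat_lit 19449108), (nat_lit 12587812)] (nat_lit 10729447)) p15_39_1 (nat_lit 3) (nat_lit 189) (nat_lit 190) = true := by decide +kernel
def p15_39_1_190 : pfC (piC [(nat_lit 28473124), (nat_lit 19449108), (nat_lit 12587812)] (nat_lit 10729447)) p15_39_1 (nat_lit 3) (nat_lit 190) (nat_lit 191) = true := by decide +kernel
def p15_39_1_191 : pfC (piC [(nat_lit 28473124), (nat_lit 19449108), (nat_lit 12587812)] (nat_lit 10729447)) p15_39_1 (nat_lit 3) (nat_lit 191) (nat_lit 192) = true := by decide +kernel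
def p15_39_1_192 : pfC (piC [(nat_lit 28473124), (nat_lit 19449108), (nat_lit 12587812)] (nat_lit 10729447)) p15_39_1 (nat_lit 3) (nat_lit 192) (nat_lit 193) = true := by decide +kernel
def p15_39_1_193 : pfC (piC [(nat_lit 28473124), (nat_lit 19449108), (nat_lit 12587812)] (nat_lit 10729447)) p15_39_1 (nat_lit 3) (nat_lit 193) (nat_lit 194) = true := by decide +kernel
def p15_39_1_194 : pfC (piC [(nat_lit 28473124), (nat_lit 19449108), (nat_lit 12587812)] (nat_lit 10729447)) p15_39_1 (nat_lit 3) (nat_lit 194) (nat_lit 195) = true := by decide +kernel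
def p15_39_1_195 : pfC (piC [(nat_lit 28473124), (nat_lit 19449108), (nat_lit 12587812)] (nat_lit 10729447)) p15_39_1 (nat_lit 3) (nat_lit 195) (nat_lit 196) = true := by decide +kernel
def p15_39_1_196 : pfC (piC [(nat_lit 28473124), (nat_lit 19449108), (nat_lit 12587812)] (nat_lit 10729447)) p15_39_1 (nat_lit 3) (nat_lit 196) (nat_lit 197) = true := by decide +kernel
def p15_39_1_197 : pfC (piC [(nat_lit 28473124), (nat_lit 19449108), (nat_lit 12587812)] (nat_lit 10729447)) p15_39_1 (nat_lit 3) (nat_lit 197) (nat_lit 198) = true := by decide +kernel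
def p15_39_1_198 : pfC (piC [(nat_lit 28473124), (nat_lit 19449108), (nat_lit 12587812)] (nat_lit 10729447)) p15_39_1 (nat_lit 3) (nat_lit 198) (nat_lit 199) = true := by decide +kernel
def p15_39_1_199 : pfC (piC [(nat_lit 28473124), (nat_lit 19449108), (nat_lit 12587812)] (nat_lit 10729447)) p15_39_1 (nat_lit 3) (nat_lit 199) (nat_lit 200) = true := by decide +kernel
def p15_39_1_200 : pfC (piC [(nat_lit 28473124), (nat_lit 19449108), (nat_lit 12587812)] (nat_lit 10729447)) p15_39_1 (nat_lit 3) (nat_lit 200) (nat_lit 201) = true := by decide +kernel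
def p15_39_1_201 : pfC (piC [(nat_lit 28473124), (nat_lit 19449108), (nat_lit 12587812)] (nat_lit 10729447)) p15_39_1 (nat_lit 3) (nat_lit 201) (nat_lit 202) = true := by decide +kernel
def p15_39_1_202 : pfC (piC [(nat_lit 28473124), (nat_lit 19449108), (nat_lit 12587812)] (nat_lit 10729447)) p15_39_1 (nat_lit 3) (nat_lit 202) (nat_lit 203) = true := by decide +kernel
def p15_39_1_203 : pfC (piC [(nat_lit 28473124), (nat_lit 19449108), (nat_lit 12587812)] (nat_lit 10729447)) p15_39_1 (nat_lit 3) (nat_lit 203) (nat_lit 204) = true := by decide +kernel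
def p15_39_1_204 : pfC (piC [(nat_lit 28473124), (nat_lit 19449108), (nat_lit 12587812)] (nat_lit 10729447)) p15_39_1 (nat_lit 3) (nat_lit 204) (nat_lit 205) = true := by decide +kernel
def p15_39_1_205 : pfC (piC [(nat_lit 28473124), (nat_lit 19449108), (nat_lit 12587812)] (nat_lit 10729447)) p15_39_1 (nat_lit 3) (nat_lit 205) (nat_lit 206) = true := by decide +kernel
def p15_39_1_206 : pfC (piC [(nat_lit 28473124), (nat_lit 19449108), (nat_lit 12587812)] (nat_lit 10729447)) p15_39_1 (nat_lit 3) (nat_lit 206) (nat_lit 207) = true := by decide +kernel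
def p15_39_1_207 : pfC (piC [(nat_lit 28473124), (nat_lit 19449108), (nat_lit 12587812)] (nat_lit 10729447)) p15_39_1 (nat_lit 3) (nat_lit 207) (nat_lit 208) = true := by decide +kernel
def p15_39_1_208 : pfC (piC [(nat_lit 28473124), (nat_lit 19449108), (nat_lit 12587812)] (nat_lit 10729447)) p15_39_1 (nat_lit 3) (nat_lit 208) (nat_lit 209) = true := by decide +kernel
def p15_39_1_209 : pfC (piC [(nat_lit 28473124), (nat_lit 19449108), (nat_lit 12587812)] (nat_lit 10729447)) p15_39_1 (nat_lit 3) (nat_lit 209) (nat_lit 210) = true := by decide +kernel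
def p15_39_1_210 : pfC (piC [(nat_lit 28473124), (nat_lit 19449108), (nat_lit 12587812)] (nat_lit 10729447)) p15_39_1 (nat_lit 3) (nat_lit 210) (nat_lit 211) = true := by decide +kernel
def p15_39_1_211 : pfC (piC [(nat_lit 28473124), (nat_lit 19449108), (nat_lit 12587812)] (nat_lit 10729447)) p15_39_1 (nat_lit 3) (nat_lit 211) (nat_lit 212) = true := by decide +kernel
def p15_39_1_212 : pfC (piC [(nat_lit 28473124), (nat_lit 19449108), (nat_lit 12587812)] (nat_lit 10729447)) p15_39_1 (nat_lit 3) (nat_lit 212) (nat_lit 213) = true := by decide +kernel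
def p15_39_1_213 : pfC (piC [(nat_lit 28473124), (nat_lit 19449108), (nat_lit 12587812)] (nat_lit 10729447)) p15_39_1 (nat_lit 3) (nat_lit 213) (nat_lit 214) = true := by decide +kernel
def p15_39_1_214 : pfC (piC [(nat_lit 28473124), (nat_lit 19449108), (nat_lit 12587812)] (nat_lit 10729447)) p15_39_1 (nat_lit 3) (nat_lit 214) (nat_lit 215) = true := by decide +kernel
def p15_39_1_215 : pfC (piC [(nat_lit 28473124), (nat_lit 19449108), (nat_lit 12587812)] (nat_lit 10729447)) p15_39_1 (nat_lit 3) (nat_lit 215) (nat_lit 216) = true := by decide +kernel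
def p15_39_1_216 : pfC (piC [(nat_lit 28473124), (nat_lit 19449108), (nat_lit 12587812)] (nat_lit 10729447)) p15_39_1 (nat_lit 3) (nat_lit 216) (nat_lit 217) = true := by decide +kernel
def p15_39_1_217 : pfC (piC [(nat_lit 28473124), (nat_lit 19449108), (nat_lit 12587812)] (nat_lit 10729447)) p15_39_1 (nat_lit 3) (nat_lit 217) (nat_lit 218) = true := by decide +kernel
def p15_39_1_218 : pfC (piC [(nat_lit 28473124), (nat_lit 19449108), (nat_lit 12587812)] (nat_lit 10729447)) p15_39_1 (nat_lit 3) (nat_lit 218) (nat_lit 219) = true := by decide +kernel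
def p15_39_1_219 : pfC (piC [(nat_lit 28473124), (nat_lit 19449108), (nat_lit 12587812)] (nat_lit 10729447)) p15_39_1 (nat_lit 3) (nat_lit 219) (nat_lit 220) = true := by decide +kernel
def p15_39_1_220 : pfC (piC [(nat_lit 28473124), (nat_lit 19449108), (nat_lit 12587812)] (nat_lit 10729447)) p15_39_1 (nat_lit 3) (nat_lit 220) (nat_lit 221) = true := by decide +kernel
def p15_39_1_221 : pfC (piC [(nat_lit 28473124), (nat_lit 19449108), (nat_lit 12587812)] (nat_lit 10729447)) p15_39_1 (nat_lit 3) (nat_lit 221) (nat_lit 222) = true := by decide +kernel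
def p15_39_1_222 : pfC (piC [(nat_lit 28473124), (nat_lit 19449108), (nat_lit 12587812)] (nat_lit 10729447)) p15_39_1 (nat_lit 3) (nat_lit 222) (nat_lit 223) = true := by decide +kernel
def p15_39_1_223 : pfC (piC [(nat_lit 28473124), (nat_lit 19449108), (nat_lit 12587812)] (nat_lit 10729447)) p15_39_1 (nat_lit 3) (nat_lit 223) (nat_lit 224) = true := by decide +kernel
def p15_39_1_224 : pfC (piC [(nat_lit 28473124), (nat_lit 19449108), (nat_lit 12587812)] (nat_lit 10729447)) p15_39_1 (nat_lit 3) (nat_lit 224) (nat_lit 225) = true := by decide +kernel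
def p15_39_1_225 : pfC (piC [(nat_lit 28473124), (nat_lit 19449108), (nat_lit 12587812)] (nat_lit 10729447)) p15_39_1 (nat_lit 3) (nat_lit 225) (nat_lit 226) = true := by decide +kernel
def p15_39_1_226 : pfC (piC [(nat_lit 28473124), (nat_lit 19449108), (nat_lit 12587812)] (nat_lit 10729447)) p15_39_1 (nat_lit 3) (nat_lit 226) (nat_lit 227) = true := by decide +kernel
def p15_39_1_227 : pfC (piC [(nat_lit 28473124), (nat_lit 19449108), (nat_lit 12587812)] (nat_lit 10729447)) p15_39_1 (nat_lit 3) (nat_lit 227) (nat_lit 228) = true := by decide +kernel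
def p15_39_1_228 : pfC (piC [(nat_lit 28473124), (nat_lit 19449108), (nat_lit 12587812)] (nat_lit 10729447)) p15_39_1 (nat_lit 3) (nat_lit 228) (nat_lit 229) = true := by decide +kernel
def p15_39_1_229 : pfC (piC [(nat_lit 28473124), (nat_lit 19449108), (nat_lit 12587812)] (nat_lit 10729447)) p15_39_1 (nat_lit 3) (nat_lit 229) (nat_lit 230) = true := by decide +kernel
def p15_39_1_230 : pfC (piC [(nat_lit 28473124), (nat_lit 19449108), (nat_lit 12587812)] (nat_lit 10729447)) p15_39_1 (nat_lit 3) (nat_lit 230) (nat_lit 231) = true := by decide +kernel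
def p15_39_1_231 : pfC (piC [(nat_lit 28473124), (nat_lit 19449108), (nat_lit 12587812)] (nat_lit 10729447)) p15_39_1 (nat_lit 3) (nat_lit 231) (nat_lit 232) = true := by decide +kernel
def p15_39_1_232 : pfC (piC [(nat_lit 28473124), (nat_lit 19449108), (nat_lit 12587812)] (nat_lit 10729447)) p15_39_1 (nat_lit 3) (nat_lit 232) (nat_lit 233) = true := by decide +kernel
def p15_39_1_233 : pfC (piC [(nat_lit 28473124), (nat_lit 19449108), (nat_lit 12587812)] (nat_lit 10729447)) p15_39_1 (nat_lit 3) (nat_lit 233) (nat_lit 234) = true := by decide +kernel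
def p15_39_1_234 : pfC (piC [(nat_lit 28473124), (nat_lit 19449108), (nat_lit 12587812)] (nat_lit 10729447)) p15_39_1 (nat_lit 3) (nat_lit 234) (nat_lit 235) = true := by decide +kernel
def p15_39_1_235 : pfC (piC [(nat_lit 28473124), (nat_lit 19449108), (nat_lit 12587812)] (nat_lit 10729447)) p15_39_1 (nat_lit 3) (nat_lit 235) (nat_lit 236) = true := by decide +kernel
def p15_39_1_236 : pfC (piC [(nat_lit 28473124), (nat_lit 19449108), (nat_lit 12587812)] (nat_lit 10729447)) p15_39_1 (nat_lit 3) (nat_lit 236) (nat_lit 237) = true := by decide +kernel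
def p15_39_1_237 : pfC (piC [(nat_lit 28473124), (nat_lit 19449108), (nat_lit 12587812)] (nat_lit 10729447)) p15_39_1 (nat_lit 3) (nat_lit 237) (nat_lit 238) = true := by decide +kernel
def p15_39_1_238 : pfC (piC [(nat_lit 28473124), (nat_lit 19449108), (nat_lit 12587812)] (nat_lit 10729447)) p15_39_1 (nat_lit 3) (nat_lit 238) (nat_lit 239) = true := by decide +kernel
def p15_39_1_239 : pfC (piC [(nat_lit 28473124), (nat_lit 19449108), (nat_lit 12587812)] (nat_lit 10729447)) p15_39_1 (nat_lit 3) (nat_lit 239) (nat_lit 240) = true := by decide +kernel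
def p15_39_1_240 : pfC (piC [(nat_lit 28473124), (nat_lit 19449108), (nat_lit 12587812)] (nat_lit 10729447)) p15_39_1 (nat_lit 3) (nat_lit 240) (nat_lit 241) = true := by decide +kernel
def p15_39_1_241 : pfC (piC [(nat_lit 28473124), (nat_lit 19449108), (nat_lit 12587812)] (nat_lit 10729447)) p15_39_1 (nat_lit 3) (nat_lit 241) (nat_lit 242) = true := by decide +kernel
def p15_39_1_242 : pfC (piC [(nat_lit 28473124), (nat_lit 19449108), (nat_lit 12587812)] (nat_lit 10729447)) p15_39_1 (nat_lit 3) (nat_lit 242) (nat_lit 243) = true := by decide +kernel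
def p15_39_1_243 : pfC (piC [(nat_lit 28473124), (nat_lit 19449108), (nat_lit 12587812)] (nat_lit 10729447)) p15_39_1 (nat_lit 3) (nat_lit 243) (nat_lit 244) = true := by decide +kernel
def p15_39_1_244 : pfC (piC [(nat_lit 28473124), (nat_lit 19449108), (nat_lit 12587812)] (nat_lit 10729447)) p15_39_1 (nat_lit 3) (nat_lit 244) (nat_lit 245) = true := by decide +kernel
def p15_39_1_245 : pfC (piC [(nat_lit 28473124), (nat_lit 19449108), (nat_lit 12587812)] (nat_lit 10729447)) p15_39_1 (nat_lit 3) (nat_lit 245) (nat_lit 246) = true := by decide +kernel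
def p15_39_1_246 : pfC (piC [(nat_lit 28473124), (nat_lit 19449108), (nat_lit 12587812)] (nat_lit 10729447)) p15_39_1 (nat_lit 3) (nat_lit 246) (nat_lit 247) = true := by decide +kernel
def p15_39_1_247 : pfC (piC [(nat_lit 28473124), (nat_lit 19449108), (nat_lit 12587812)] (nat_lit 10729447)) p15_39_1 (nat_lit 3) (nat_lit 247) (nat_lit 248) = true := by decide +kernel
def p15_39_1_248 : pfC (piC [(nat_lit 28473124), (nat_lit 19449108), (nat_lit 12587812)] (nat_lit 10729447)) p15_39_1 (nat_lit 3) (nat_lit 248) (nat_lit 249) = true := by decide +kernel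
def p15_39_1_249 : pfC (piC [(nat_lit 28473124), (nat_lit 19449108), (nat_lit 12587812)] (nat_lit 10729447)) p15_39_1 (nat_lit 3) (nat_lit 249) (nat_lit 250) = true := by decide +kernel
theorem p15_39_1_T : PfS (PiF n15_39.reverse (nat_lit 10729447)) p15_39_1 (nat_lit 3) [] 0 :=
  pftab_of (los := [(nat_lit 28473124), (nat_lit 19449108), (nat_lit 12587812)]) (by decide +kernel) (hi := (nat_lit 250)) (PfP.trans (PfP.trans (PfP.trans (PfP.trans (PfP.trans (PfP.trans (PfP.trans (PfP.trans (PfP.trans (PfP.trans (PfP.trans (PfP.trans (PfP.trans (PfP.trans (PfP.trans (PfP.trans (PfP.trans (PfP.trans (PfP.trans (PfP.trans (PfP.trans (PfP.trans (PfP.trans (PfP.trans (PfP.trans (PfP.trans (PfP.trans (PfP.trans (PfP.trans (PfP.trans (PfP.trans (PfP.trans (PfP.trans (PfP.trans (PfP.trans (PfP.trans (PfP.trans (PfP.trans (PfP.trans (PfP.trans (PfP.trans (PfP.trans (PfP.trans (PfP.trans (PfP.trans (PfP.trans (PfP.trans (PfP.trans (PfP.trans (PfP.trans (PfP.trans (PfP.trans (PfP.trans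 (PfP.trans (PfP.trans (PfP.trans (PfP.trans (PfP.trans (PfP.trans (PfP.trans (PfP.trans (PfP.trans (PfP.trans (PfP.trans (PfP.trans (PfP.trans (PfP.trans (PfP.trans (PfP.trans (PfP.trans (PfP.trans (PfP.trans (PfP.trans (PfP.trans (PfP.trans (PfP.trans (PfP.trans (PfP.trans (PfP.trans (PfP.trans (PfP.trans (PfP.trans (PfP.trans (PfP.trans (PfP.trans (PfP.trans (PfP.trans (PfP.trans (PfP.trans (PfP.trans (PfP.trans (PfP.trans (PfP.trans (PfP.trans (PfP.trans (PfP.trans (PfP.trans (PfP.trans (PfP.trans (PfP.trans (PfP.trans (PfP.trans (PfP.trans (PfP.trans (PfP.trans (PfP.trans (PfP.trans (PfP.trans (PfP.trans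
 (PfP.trans (PfP.trans (PfP.trans (PfP.trans (PfP.trans (PfP.trans (PfP.trans (PfP.trans (PfP.trans (PfP.trans (PfP.trans (PfP.trans (PfP.trans (PfP.trans (PfP.trans (PfP.trans (PfP.trans (PfP.trans (PfP.trans (PfP.trans (PfP.trans (PfP.trans (PfP.trans (PfP.trans (PfP.trans (PfP.trans (PfP.trans (PfP.trans (PfP.trans (PfP.trans (PfP.trans (PfP.trans (PfP.trans (PfP.trans (PfP.trans (PfP.trans (PfP.trans (PfP.trans (PfP.trans (PfP.trans (PfP.trans (PfP.trans (PfP.trans (PfP.trans (PfP.trans (PfP.trans (PfP.trans (PfP.trans (PfP.trans (PfP.trans (PfP.trans (PfP.trans (PfP.trans (PfP.trans (PfP.trans (PfP.trans (PfP.trans (PfP.trans (PfP.trans (PfP.trans (PfP.trans (PfP.trans (PfP.trans (PfP.trans (PfP.trans (PfP.trans (PfP.trans (PfP.trans (PfP.trans (PfP.trans (PfP.trans (PfP.trans (PfP.trans (PfP.trans (PfP.trans (PfP.trans (PfP.trans (PfP.trans (PfP.trans (PfP.trans (PfP.trans (PfP.trans (PfP.trans (PfP.trans (PfP.trans (PfP.trans (PfP.trans (PfP.trans (PfP.trans (PfP.trans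 (PfP.trans (PfP.trans (PfP.trans (PfP.trans (PfP.trans (PfP.trans (PfP.trans (PfP.trans (PfP.trans (PfP.trans (PfP.trans (PfP.trans (PfP.trans (PfP.trans (PfP.trans (PfP.trans (PfP.trans (PfP.trans (PfP.trans
 (PfP.trans (PfP.trans (PfP.trans (PfP.trans (PfP.trans (PfP.trans (PfP.trans (PfP.trans (PfP.trans (PfP.trans (PfP.trans (PfP.trans (PfP.trans (PfP.trans (PfP.trans (PfP.trans (PfP.trans (PfP.trans (PfP.trans (PfP.trans (PfP.trans (PfP.trans (PfP.trans (PfP.trans (PfP.trans (PfP.trans (PfP.trans (PfP.trans (PfP.trans (PfP.trans (PfP.trans (pfC_sound p15_39_1_0) (pfC_sound p15_39_1_1)) (pfC_sound p15_39_1_2)) (pfC_sound p15_39_1_3)) (pfC_sound p15_39_1_4)) (pfC_sound p15_39_1_5)) (pfC_sound p15_39_1_6)) (pfC_sound p15_39_1_7)) (pfC_sound p15_39_1_8)) (pfC_sound p15_39_1_9)) (pfC_sound p15_39_1_10)) (pfC_sound p15_39_1_11)) (pfC_sound p15_39_1_12)) (pfC_sound p15_39_1_13)) (pfC_sound p15_39_1_14)) (pfC_sound p15_39_1_15)) (pfC_sound p15_39_1_16)) (pfC_sound p15_39_1_17))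 (pfC_sound p15_39_1_18)) (pfC_sound p15_39_1_19)) (pfC_sound p15_39_1_20)) (pfC_sound p15_39_1_21)) (pfC_sound p15_39_1_22)) (pfC_sound p15_39_1_23)) (pfC_sound p15_39_1_24)) (pfC_sound p15_39_1_25)) (pfC_sound p15_39_1_26)) (pfC_sound p15_39_1_27)) (pfC_sound p15_39_1_28)) (pfC_sound p15_39_1_29)) (pfC_sound p15_39_1_30)) (pfC_sound p15_39_1_31)) (pfC_sound p15_39_1_32)) (pfC_sound p15_39_1_33)) (pfC_sound
 p15_39_1_34)) (pfC_sound p15_39_1_35)) (pfC_sound p15_39_1_36)) (pfC_sound p15_39_1_37)) (pfC_sound p15_39_1_38)) (pfC_sound p15_39_1_39)) (pfC_sound p15_39_1_40)) (pfC_sound p15_39_1_41)) (pfC_sound p15_39_1_42)) (pfC_sound p15_39_1_43)) (pfC_sound p15_39_1_44)) (pfC_sound p15_39_1_45)) (pfC_sound p15_39_1_46)) (pfC_sound p15_39_1_47)) (pfC_sound p15_39_1_48)) (pfC_sound p15_39_1_49)) (pfC_sound p15_39_1_50)) (pfC_sound p15_39_1_51)) (pfC_sound p15_39_1_52)) (pfC_sound p15_39_1_53)) (pfC_sound p15_39_1_54)) (pfC_sound p15_39_1_55)) (pfC_sound p15_39_1_56)) (pfC_sound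 p15_39_1_57)) (pfC_sound p15_39_1_58)) (pfC_sound p15_39_1_59)) (pfC_sound p15_39_1_60)) (pfC_sound p15_39_1_61)) (pfC_sound p15_39_1_62)) (pfC_sound p15_39_1_63)) (pfC_sound p15_39_1_64)) (pfC_sound p15_39_1_65)) (pfC_sound p15_39_1_66)) (pfC_sound p15_39_1_67)) (pfC_sound p15_39_1_68)) (pfC_sound p15_39_1_69)) (pfC_sound p15_39_1_70)) (pfC_sound p15_39_1_71)) (pfC_sound p15_39_1_72)) (pfC_sound p15_39_1_73)) (pfC_sound p15_39_1_74)) (pfC_sound p15_39_1_75)) (pfC_sound p15_39_1_76)) (pfC_sound p15_39_1_77)) (pfC_sound p15_39_1_78)) (pfC_sound p15_39_1_79)) (pfC_sound p15_39_1_80)) (pfC_sound p15_39_1_81)) (pfC_sound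
 p15_39_1_82)) (pfC_sound p15_39_1_83)) (pfC_sound p15_39_1_84)) (pfC_sound p15_39_1_85)) (pfC_sound p15_39_1_86)) (pfC_sound p15_39_1_87)) (pfC_sound p15_39_1_88)) (pfC_sound p15_39_1_89)) (pfC_sound p15_39_1_90)) (pfC_sound p15_39_1_91)) (pfC_sound p15_39_1_92)) (pfC_sound p15_39_1_93)) (pfC_sound p15_39_1_94)) (pfC_sound p15_39_1_95)) (pfC_sound p15_39_1_96)) (pfC_sound p15_39_1_97)) (pfC_sound p15_39_1_98)) (pfC_sound p15_39_1_99)) (pfC_sound p15_39_1_100)) (pfC_sound p15_39_1_101)) (pfC_sound p15_39_1_102)) (pfC_sound p15_39_1_103)) (pfC_sound p15_39_1_104)) (pfC_sound p15_39_1_105)) (pfC_sound p15_39_1_106)) (pfC_sound p15_39_1_107)) (pfC_sound p15_39_1_108)) (pfC_sound p15_39_1_109)) (pfC_sound p15_39_1_110)) (pfC_sound p15_39_1_111)) (pfC_sound p15_39_1_112)) (pfC_sound p15_39_1_113)) (pfC_sound p15_39_1_114)) (pfC_sound p15_39_1_115)) (pfC_sound p15_39_1_116)) (pfC_sound p15_39_1_117)) (pfC_sound p15_39_1_118)) (pfC_sound p15_39_1_119)) (pfC_sound p15_39_1_120))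 (pfC_sound p15_39_1_121)) (pfC_sound p15_39_1_122)) (pfC_sound p15_39_1_123)) (pfC_sound p15_39_1_124)) (pfC_sound p15_39_1_125)) (pfC_sound p15_39_1_126)) (pfC_sound p15_39_1_127)) (pfC_sound p15_39_1_128))
 (pfC_sound p15_39_1_129)) (pfC_sound p15_39_1_130)) (pfC_sound p15_39_1_131)) (pfC_sound p15_39_1_132)) (pfC_sound p15_39_1_133)) (pfC_sound p15_39_1_134)) (pfC_sound p15_39_1_135)) (pfC_sound p15_39_1_136)) (pfC_sound p15_39_1_137)) (pfC_sound p15_39_1_138)) (pfC_sound p15_39_1_139)) (pfC_sound p15_39_1_140)) (pfC_sound p15_39_1_141)) (pfC_sound p15_39_1_142)) (pfC_sound p15_39_1_143)) (pfC_sound p15_39_1_144)) (pfC_sound p15_39_1_145)) (pfC_sound p15_39_1_146)) (pfC_sound p15_39_1_147)) (pfC_sound p15_39_1_148)) (pfC_sound p15_39_1_149)) (pfC_sound p15_39_1_150)) (pfC_sound p15_39_1_151)) (pfC_sound p15_39_1_152)) (pfC_sound p15_39_1_153)) (pfC_sound p15_39_1_154)) (pfC_sound p15_39_1_155)) (pfC_sound p15_39_1_156)) (pfC_sound p15_39_1_157)) (pfC_sound p15_39_1_158))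 (pfC_sound p15_39_1_159)) (pfC_sound p15_39_1_160)) (pfC_sound p15_39_1_161)) (pfC_sound p15_39_1_162)) (pfC_sound p15_39_1_163)) (pfC_sound p15_39_1_164)) (pfC_sound p15_39_1_165)) (pfC_sound p15_39_1_166)) (pfC_sound p15_39_1_167)) (pfC_sound p15_39_1_168)) (pfC_sound p15_39_1_169)) (pfC_sound p15_39_1_170)) (pfC_sound p15_39_1_171)) (pfC_sound p15_39_1_172)) (pfC_sound p15_39_1_173)) (pfC_sound p15_39_1_174))
 (pfC_sound p15_39_1_175)) (pfC_sound p15_39_1_176)) (pfC_sound p15_39_1_177)) (pfC_sound p15_39_1_178)) (pfC_sound p15_39_1_179)) (pfC_sound p15_39_1_180)) (pfC_sound p15_39_1_181)) (pfC_sound p15_39_1_182)) (pfC_sound p15_39_1_183)) (pfC_sound p15_39_1_184)) (pfC_sound p15_39_1_185)) (pfC_sound p15_39_1_186)) (pfC_sound p15_39_1_187)) (pfC_sound p15_39_1_188)) (pfC_sound p15_39_1_189)) (pfC_sound p15_39_1_190)) (pfC_sound p15_39_1_191)) (pfC_sound p15_39_1_192)) (pfC_sound p15_39_1_193)) (pfC_sound p15_39_1_194)) (pfC_sound p15_39_1_195)) (pfC_sound p15_39_1_196))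 (pfC_sound p15_39_1_197)) (pfC_sound p15_39_1_198)) (pfC_sound p15_39_1_199)) (pfC_sound p15_39_1_200)) (pfC_sound p15_39_1_201)) (pfC_sound p15_39_1_202)) (pfC_sound p15_39_1_203)) (pfC_sound p15_39_1_204)) (pfC_sound p15_39_1_205)) (pfC_sound p15_39_1_206)) (pfC_sound p15_39_1_207)) (pfC_sound p15_39_1_208)) (pfC_sound p15_39_1_209)) (pfC_sound p15_39_1_210)) (pfC_sound p15_39_1_211)) (pfC_sound p15_39_1_212)) (pfC_sound p15_39_1_213)) (pfC_sound p15_39_1_214)) (pfC_sound p15_39_1_215)) (pfC_sound p15_39_1_216)) (pfC_sound p15_39_1_217)) (pfC_sound p15_39_1_218)) (pfC_sound p15_39_1_219)) (pfC_sound p15_39_1_220))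
 (pfC_sound p15_39_1_221)) (pfC_sound p15_39_1_222)) (pfC_sound p15_39_1_223)) (pfC_sound p15_39_1_224)) (pfC_sound p15_39_1_225)) (pfC_sound p15_39_1_226)) (pfC_sound p15_39_1_227)) (pfC_sound p15_39_1_228)) (pfC_sound p15_39_1_229)) (pfC_sound p15_39_1_230)) (pfC_sound p15_39_1_231)) (pfC_sound p15_39_1_232)) (pfC_sound p15_39_1_233)) (pfC_sound p15_39_1_234)) (pfC_sound p15_39_1_235)) (pfC_sound p15_39_1_236)) (pfC_sound p15_39_1_237)) (pfC_sound p15_39_1_238)) (pfC_sound p15_39_1_239)) (pfC_sound p15_39_1_240)) (pfC_sound p15_39_1_241)) (pfC_sound p15_39_1_242)) (pfC_sound p15_39_1_243)) (pfC_sound p15_39_1_244)) (pfC_sound p15_39_1_245)) (pfC_sound p15_39_1_246)) (pfC_sound p15_39_1_247)) (pfC_sound p15_39_1_248)) (pfC_sound p15_39_1_249)) (by decide +kernel)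

def z15_39_1 : zOK yB15_39 (nat_lit 1) (nat_lit 400) (nat_lit 601) (nat_lit 10729447) (nat_lit 7962881) = true := by decide +kernel
def g15_39_1 : gOK yB15_39.x P15_39 (nat_lit 1341) (q15_39 :: r15_39) (nat_lit 1) (nat_lit 400) (nat_lit 2) (nat_lit 601) (nat_lit 11000000) (nat_lit 17884250) (nat_lit 12712500) (nat_lit 12712500) [(nat_lit 800), (nat_lit 1600)] = true := by decide +kernel
def v15_39_1 : ivC P15_39 s15_39 w15_39 n15_39 (nat_lit 3) (nat_lit 4810) (nat_lit 1) (nat_lit 400) f192_0_400 f200_0_400 (nat_lit 2) (nat_lit 601) f192_0_601 f200_0_601 (nat_lit 10729447) (nat_lit 7962881) p15_39_1 = true := by decide +kernel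
end CB
end Pool.Agent.Lib.MP_6947cd_al
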