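import Pool.Agent.Lib.MP_6947cd_al.L.BoxDataB
import Pool.Agent.Lib.MP_6947cd_al.L.TeD1

/-!
Problem MP_6947cd_al (Chollet).  CASE B, rows `j`: boxes (generated).
-/

set_option autoImplicit false
set_option linter.defProp false
set_option maxRecDepth 20000

namespace Pool.Agent.Lib.MP_6947cd_al
namespace CB

open Ent Ent.Pk Fr Fr.WT CA

/-! box `yB12_17` -/

def P12_17 : BQ := ⟨(nat_lit 8), (nat_lit 8), (nat_lit 0), (nat_lit 4), (nat_lit 4), (nat_lit 880), (nat_lit 900), (nat_lit 90), [(nat_lit 180), (nat_lit 330), (nat_lit 650)], (nat_lit 134496000), (nat_lit 16000000), (nat_lit 16000000000)⟩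
def q12_17 : PC := ⟨(nat_lit 1000), [(nat_lit 90000), (nat_lit 180000), (nat_lit 330000), (nat_lit 650000)], (nat_lit 79228162532711081671548469249000000), (nat_lit 15865504000000), (nat_lit 15865504000000), (nat_lit 10000000)⟩
def r12_17 : List PC := [⟨(nat_lit 1339), [(nat_lit 90542), (nat_lit 180875), (nat_lit 331453), (nat_lit 652046)], (nat_lit 79601089493773102405869737085979242), (nat_lit 16359843540160), (nat_lit 16371323002240), (nat_lit 10060223)⟩]
def s12_17 : List PB := [⟨(nat_lit 26780), (nat_lit 1448672000000), [(nat_lit 180875), (nat_lit 331453), (nat_lit 652046)], (nat_lit 79601089493773102405869737085979242), (nat_lit 1142259750382784), (nat_lit 1142271229844864), (nat_lit 54240)⟩]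
def n12_17 : List KN := [⟨(nat_lit 650), (nat_lit 330), (nat_lit 16296408), (nat_lit 6991654)⟩, ⟨(nat_lit 330), (nat_lit 180), (nat_lit 25257288), (nat_lit 16296408)⟩, ⟨(nat_lit 180), (nat_lit 90), (nat_lit 40745421), (nat_lit 25257288)⟩]
def w12_17 : List ℕ := [(nat_lit 54240)]
def par12_17 : parC yB12_17 P12_17 s12_17 r12_17 q12_17 n12_17 w12_17 = true := by decide +kernel

def p12_17_0 : PF := (PF.cons (PF.cons (PF.cons (PF.leaf (nat_lit 713315) (nat_lit 2167984) (nat_lit 64940828) (nat_lit 2167984) [(nat_lit 0), (nat_lit 0), (nat_lit 0)]) (PF.cons (PF.leaf (nat_lit 842079) (nat_lit 199786) (nat_lit 64688813) (nat_lit 2220213) [(nat_lit 199786), (nat_lit 0), (nat_lit 0)]) (PF.cons (PF.leaf (nat_lit 999646) (nat_lit 220951) (nat_lit 64388721) (nat_lit 2278189) [(nat_lit 220951), (nat_lit 0), (nat_lit 0)]) (PF.cons (PF.leaf (nat_lit 1180488) (nat_lit 240830) (nat_lit 64046817) (nat_lit 2339503) [(nat_lit 240830), (nat_lit 0), (nat_lit 0)]) (PF.cons (PF.leaf (nat_lit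 1382311) (nat_lit 259706) (nat_lit 63667485) (nat_lit 2402499) [(nat_lit 259706), (nat_lit 0), (nat_lit 0)]) (PF.cons (PF.leaf (nat_lit 1603658) (nat_lit 277731) (nat_lit 63254173) (nat_lit 2465983) [(nat_lit 277731), (nat_lit 0), (nat_lit 0)]) (PF.cons (PF.leaf (nat_lit 1843207) (nat_lit 294987) (nat_lit 62809815) (nat_lit 2529073) [(nat_lit 294987), (nat_lit 0), (nat_lit 0)]) (PF.cons (PF.leaf (nat_lit 2099566) (nat_lit 311523) (nat_lit 62337037) (nat_lit 2591110) [(nat_lit 311523), (nat_lit 0), (nat_lit 0)]) (PF.cons (PF.leaf (nat_lit 2371557) (nat_lit 327368) (nat_lit 61838270) (nat_lit 2651591) [(nat_lit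
 327368), (nat_lit 0), (nat_lit 0)]) (PF.cons (PF.leaf (nat_lit 2658141) (nat_lit 342540) (nat_lit 61315807) (nat_lit 2710139) [(nat_lit 342540), (nat_lit 0), (nat_lit 0)]) (PF.cons (PF.leaf (nat_lit 2958135) (nat_lit 357050) (nat_lit 60771838) (nat_lit 2766466) [(nat_lit 357050), (nat_lit 0), (nat_lit 0)]) (PF.cons (PF.leaf (nat_lit 3270436) (nat_lit 370907) (nat_lit 60208463) (nat_lit 2820362) [(nat_lit 370907), (nat_lit 0), (nat_lit 0)]) (PF.cons (PF.leaf (nat_lit 3593969) (nat_lit 384119) (nat_lit 59627702) (nat_lit 2871671) [(nat_lit 384119), (nat_lit 0), (nat_lit 0)]) (PF.cons (PF.leaf (nat_lit 3927812) (nat_lit 396694) (nat_lit 59031499) (nat_lit 2920287) [(nat_lit 396694), (nat_lit 0), (nat_lit 0)]) (PF.cons (PF.leaf (nat_lit 4270825) (nat_lit 408639) (nat_lit 58421721) (nat_lit 2966141) [(nat_lit 408639), (nat_lit 0), (nat_lit 0)]) (PF.cons PF.nil (PF.cons PF.nil (PF.cons PF.nil PF.nil)))))))))))))))))) (PF.cons (PF.cons (PF.leaf (nat_lit 1336797) (nat_lit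 1376383) (nat_lit 63296594) (nat_lit 2435834) [(nat_lit 0), (nat_lit 1376383), (nat_lit 0)]) (PF.cons (PF.leaf (nat_lit 1522269) (nat_lit 266363) (nat_lit 62934629) (nat_lit 2489026) [(nat_lit 266363), (nat_lit 1418793),
 (nat_lit 0)]) (PF.cons (PF.leaf (nat_lit 1731170) (nat_lit 284466) (nat_lit 62533584) (nat_lit 2544095) [(nat_lit 284466), (nat_lit 1462199), (nat_lit 0)]) (PF.cons (PF.leaf (nat_lit 1959673) (nat_lit 301592) (nat_lit 62098547) (nat_lit 2599779) [(nat_lit 301592), (nat_lit 1505708), (nat_lit 0)]) (PF.cons (PF.leaf (nat_lit 2205964) (nat_lit 317878) (nat_lit 61633390) (nat_lit 2655185) [(nat_lit 317878), (nat_lit 1548723), (nat_lit 0)]) (PF.cons (PF.leaf (nat_lit 2468518) (nat_lit 333401) (nat_lit 61141311) (nat_lit 2709662) [(nat_lit 333401), (nat_lit 1590830), (nat_lit 0)]) (PF.cons (PF.leaf (nat_lit 2745980) (nat_lit 348209) (nat_lit 60625092) (nat_lit 2762726) [(nat_lit 348209), (nat_lit 1631733), (nat_lit 0)]) (PF.cons (PF.leaf (nat_lit 3037098)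 (nat_lit 362333) (nat_lit 60087242) (nat_lit 2814016) [(nat_lit 362333), (nat_lit 1671221), (nat_lit 0)]) (PF.cons (PF.leaf (nat_lit 3340681) (nat_lit 375792) (nat_lit 59530069) (nat_lit 2863261) [(nat_lit 375792), (nat_lit 1709138), (nat_lit 0)]) (PF.cons (PF.leaf (nat_lit 3655709) (nat_lit 388604) (nat_lit 58955731) (nat_lit 2910264) [(nat_lit 388604), (nat_lit 1745376), (nat_lit 0)]) (PF.cons (PF.leaf (nat_lit 3981009) (nat_lit
 400781) (nat_lit 58366256) (nat_lit 2954881) [(nat_lit 400781), (nat_lit 1779860), (nat_lit 0)]) (PF.cons (PF.leaf (nat_lit 4315688) (nat_lit 412335) (nat_lit 57763560) (nat_lit 2997015) [(nat_lit 412335), (nat_lit 1812541), (nat_lit 0)]) (PF.cons (PF.leaf (nat_lit 4658677) (nat_lit 423279) (nat_lit 57149454) (nat_lit 3036607) [(nat_lit 423279), (nat_lit 1843393), (nat_lit 0)]) (PF.cons PF.nil (PF.cons PF.nil (PF.cons PF.nil PF.nil)))))))))))))))) (PF.cons (PF.cons (PF.leaf (nat_lit 2091256) (nat_lit 1552371) (nat_lit 61335431) (nat_lit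 2668637) [(nat_lit 0), (nat_lit 1552371), (nat_lit 0)]) (PF.cons (PF.leaf (nat_lit 2322380) (nat_lit 322447) (nat_lit 60888413) (nat_lit 2716974) [(nat_lit 322447), (nat_lit 1590488), (nat_lit 0)]) (PF.cons (PF.leaf (nat_lit 2572500) (nat_lit 337954) (nat_lit 60410937) (nat_lit 2765238) [(nat_lit 337954), (nat_lit 1628363), (nat_lit 0)]) (PF.cons (PF.leaf (nat_lit 2838682) (nat_lit 352621) (nat_lit 59907146) (nat_lit 2812743) [(nat_lit 352621), (nat_lit 1665529), (nat_lit 0)]) (PF.cons (PF.leaf (nat_lit 3119296) (nat_lit 366526) (nat_lit 59380381) (nat_lit 2858998) [(nat_lit 366526), (nat_lit 1701663), (nat_lit 0)]) (PF.cons (PF.leaf (nat_lit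
 3412994) (nat_lit 379720) (nat_lit 58833486) (nat_lit 2903646) [(nat_lit 379720), (nat_lit 1736538), (nat_lit 0)]) (PF.cons (PF.leaf (nat_lit 3718453) (nat_lit 392238) (nat_lit 58268966) (nat_lit 2946423) [(nat_lit 392238), (nat_lit 1769995), (nat_lit 0)]) (PF.cons (PF.leaf (nat_lit 4034595) (nat_lit 404106) (nat_lit 57689082) (nat_lit 2987141) [(nat_lit 404106), (nat_lit 1801920), (nat_lit 0)]) (PF.cons (PF.leaf (nat_lit 4360271) (nat_lit 415345) (nat_lit 57095906) (nat_lit 3025667) [(nat_lit 415345), (nat_lit 1832239), (nat_lit 0)]) (PF.cons (PF.leaf (nat_lit 4694477) (nat_lit 425972) (nat_lit 56491349) (nat_lit 3061911) [(nat_lit 425972), (nat_lit 1860901), (nat_lit 0)]) (PF.cons (PF.leaf (nat_lit 5036330) (nat_lit 436003) (nat_lit 55877189) (nat_lit 3095818) [(nat_lit 436003), (nat_lit 1887882), (nat_lit 0)]) (PF.cons (PF.leaf (nat_lit 5384850) (nat_lit 445456) (nat_lit 55255080) (nat_lit 3127362) [(nat_lit 445456), (nat_lit 1913173), (nat_lit 0)]) (PF.cons PF.nil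 (PF.cons PF.nil PF.nil)))))))))))))) (PF.cons (PF.cons (PF.leaf (nat_lit 2942683) (nat_lit 1698307) (nat_lit 59152987) (nat_lit 2860903) [(nat_lit 0), (nat_lit 1698307), (nat_lit 0)]) (PF.cons (PF.leaf (nat_lit
 3209188) (nat_lit 369382) (nat_lit 58644785) (nat_lit 2901932) [(nat_lit 369382), (nat_lit 1730904), (nat_lit 0)]) (PF.cons (PF.leaf (nat_lit 3490782) (nat_lit 382515) (nat_lit 58113926) (nat_lit 2941906) [(nat_lit 382515), (nat_lit 1762649), (nat_lit 0)]) (PF.cons (PF.leaf (nat_lit 3785148) (nat_lit 394894) (nat_lit 57563789) (nat_lit 2980455) [(nat_lit 394894), (nat_lit 1793295), (nat_lit 0)]) (PF.cons (PF.leaf (nat_lit 4090829) (nat_lit 406574) (nat_lit 56997194) (nat_lit 3017314) [(nat_lit 406574), (nat_lit 1822668), (nat_lit 0)]) (PF.cons (PF.leaf (nat_lit 4406589) (nat_lit 417595) (nat_lit 56416582) (nat_lit 3052297) [(nat_lit 417595), (nat_lit 1850652), (nat_lit 0)]) (PF.cons (PF.leaf (nat_lit 4731358) (nat_lit 427986) (nat_lit 55824112) (nat_lit 3085276)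 [(nat_lit 427986), (nat_lit 1877168), (nat_lit 0)]) (PF.cons (PF.leaf (nat_lit 5064041) (nat_lit 437773) (nat_lit 55221731) (nat_lit 3116166) [(nat_lit 437773), (nat_lit 1902168), (nat_lit 0)]) (PF.cons (PF.leaf (nat_lit 5403699) (nat_lit 446977) (nat_lit 54611206) (nat_lit 3144916) [(nat_lit 446977), (nat_lit 1925624), (nat_lit 0)]) (PF.cons (PF.leaf (nat_lit 5749450) (nat_lit 455618) (nat_lit 53994157) (nat_lit 3171504)
 [(nat_lit 455618), (nat_lit 1947528), (nat_lit 0)]) (PF.cons PF.nil (PF.cons PF.nil PF.nil)))))))))))) (PF.cons (PF.cons (PF.leaf (nat_lit 3860569) (nat_lit 1815577) (nat_lit 56833756) (nat_lit 3012746) [(nat_lit 0), (nat_lit 1815577), (nat_lit 0)]) (PF.cons (PF.leaf (nat_lit 4153119) (nat_lit 408009) (nat_lit 56285811) (nat_lit 3045689) [(nat_lit 408009), (nat_lit 1842325), (nat_lit 0)]) (PF.cons (PF.leaf (nat_lit 4457425) (nat_lit 418957) (nat_lit 55721959) (nat_lit 3077132) [(nat_lit 418957), (nat_lit 1867951), (nat_lit 0)]) (PF.cons (PF.leaf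 (nat_lit 4771483) (nat_lit 429226) (nat_lit 55144937) (nat_lit 3106885) [(nat_lit 429226), (nat_lit 1892327), (nat_lit 0)]) (PF.cons (PF.leaf (nat_lit 5094103) (nat_lit 438859) (nat_lit 54557069) (nat_lit 3134817) [(nat_lit 438859), (nat_lit 1915372), (nat_lit 0)]) (PF.cons (PF.leaf (nat_lit 5424204) (nat_lit 447890) (nat_lit 53960383) (nat_lit 3160847) [(nat_lit 447890), (nat_lit 1937032), (nat_lit 0)]) (PF.cons (PF.leaf (nat_lit 5760813) (nat_lit 456347) (nat_lit 53356676) (nat_lit 3184925) [(nat_lit 456347), (nat_lit 1957281), (nat_lit 0)]) (PF.cons (PF.leaf (nat_lit 6103045) (nat_lit 464254) (nat_lit 52747559) (nat_lit 3207031)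
 [(nat_lit 464254), (nat_lit 1976109), (nat_lit 0)]) (PF.cons PF.nil (PF.cons PF.nil PF.nil)))))))))) (PF.cons (PF.cons (PF.leaf (nat_lit 4818635) (nat_lit 1906550) (nat_lit 54449111) (nat_lit 3126950) [(nat_lit 0), (nat_lit 1906550), (nat_lit 0)]) (PF.cons (PF.leaf (nat_lit 5129154) (nat_lit 439135) (nat_lit 53879615) (nat_lit 3151938) [(nat_lit 439135), (nat_lit 1927624), (nat_lit 0)]) (PF.cons (PF.leaf (nat_lit 5448524) (nat_lit 448100) (nat_lit 53299824) (nat_lit 3175288) [(nat_lit 448100), (nat_lit 1947499), (nat_lit 0)]) (PF.cons (PF.leaf (nat_lit 5775095) (nat_lit 456458) (nat_lit 52711922) (nat_lit 3196915) [(nat_lit 456458), (nat_lit 1966119), (nat_lit 0)]) (PF.cons (PF.leaf (nat_lit 6107856) (nat_lit 464247) (nat_lit 52117783) (nat_lit 3216769) [(nat_lit 464247), (nat_lit 1983453), (nat_lit 0)]) (PF.cons (PF.leaf (nat_lit 6445890) (nat_lit 471496) (nat_lit 51519048) (nat_lit 3234831) [(nat_lit 471496), (nat_lit 1999490), (nat_lit 0)]) (PF.cons (PF.leaf (nat_lit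 6788371) (nat_lit 478231) (nat_lit 50917163) (nat_lit 3251098) [(nat_lit 478231), (nat_lit 2014231), (nat_lit 0)]) (PF.cons PF.nil PF.nil)))))))) (PF.cons (PF.cons (PF.leaf (nat_lit 5795249) (nat_lit 1974139)
 (nat_lit 52056386) (nat_lit 3207591) [(nat_lit 0), (nat_lit 1974139), (nat_lit 0)]) (PF.cons (PF.leaf (nat_lit 6116954) (nat_lit 463599) (nat_lit 51480010) (nat_lit 3225239) [(nat_lit 463599), (nat_lit 1989993), (nat_lit 0)]) (PF.cons (PF.leaf (nat_lit 6445112) (nat_lit 470797) (nat_lit 50897834) (nat_lit 3241285) [(nat_lit 470797), (nat_lit 2004682), (nat_lit 0)]) (PF.cons (PF.leaf (nat_lit 6778328) (nat_lit 477460) (nat_lit 50311575) (nat_lit 3255706) [(nat_lit 477460), (nat_lit 2018191), (nat_lit 0)]) (PF.cons (PF.leaf (nat_lit 7115750) (nat_lit 483620) (nat_lit 49722713) (nat_lit 3268500) [(nat_lit 483620), (nat_lit 2030519), (nat_lit 0)]) (PF.cons PF.nil PF.nil)))))) (PF.cons (PF.cons (PF.leaf (nat_lit 6773371) (nat_lit 2021461) (nat_lit 49699352) (nat_lit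 3259231) [(nat_lit 0), (nat_lit 2021461), (nat_lit 0)]) (PF.cons (PF.leaf (nat_lit 7100783) (nat_lit 482253) (nat_lit 49127379) (nat_lit 3270384) [(nat_lit 482253), (nat_lit 2032684), (nat_lit 0)]) (PF.cons (PF.leaf (nat_lit 7432700) (nat_lit 487904) (nat_lit 48553088) (nat_lit 3280066) [(nat_lit 487904), (nat_lit 2042835), (nat_lit 0)]) (PF.cons PF.nil PF.nil)))) (PF.cons (PF.cons (PF.leaf (nat_lit 7740126) (nat_lit
 2051589) (nat_lit 47409671) (nat_lit 3286423) [(nat_lit 0), (nat_lit 2051589), (nat_lit 0)]) (PF.cons (PF.leaf (nat_lit 8068975) (nat_lit 495924) (nat_lit 46850382) (nat_lit 3292004) [(nat_lit 495924), (nat_lit 2058812), (nat_lit 0)]) PF.nil)) (PF.cons PF.nil (PF.cons PF.nil (PF.cons PF.nil (PF.cons PF.nil PF.nil))))))))))))) (PF.cons (PF.cons (PF.cons (PF.leaf (nat_lit 2527763) (nat_lit 2777477) (nat_lit 58042797) (nat_lit 2777477) [(nat_lit 0), (nat_lit 0), (nat_lit 6288538)]) (PF.cons (PF.leaf (nat_lit 2734358) (nat_lit 318693) (nat_lit 57651309)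 (nat_lit 2813824) [(nat_lit 318693), (nat_lit 0), (nat_lit 6324985)]) (PF.cons (PF.leaf (nat_lit 2962723) (nat_lit 335825) (nat_lit 57224105) (nat_lit 2850902) [(nat_lit 335825), (nat_lit 0), (nat_lit 6362153)]) (PF.cons (PF.leaf (nat_lit 3208762) (nat_lit 351472) (nat_lit 56767509) (nat_lit 2887853) [(nat_lit 351472), (nat_lit 0), (nat_lit 6399031)]) (PF.cons (PF.leaf (nat_lit 3470205) (nat_lit 365908) (nat_lit 56286202) (nat_lit 2924093) [(nat_lit 365908), (nat_lit 0), (nat_lit 6434883)]) (PF.cons (PF.leaf (nat_lit 3745231) (nat_lit 379310) (nat_lit 55783890) (nat_lit 2959211) [(nat_lit 379310), (nat_lit 0), (nat_lit 6469158)])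
 (PF.cons (PF.leaf (nat_lit 4032295) (nat_lit 391801) (nat_lit 55263647) (nat_lit 2992917) [(nat_lit 391801), (nat_lit 0), (nat_lit 6501440)]) (PF.cons (PF.leaf (nat_lit 4330139) (nat_lit 403469) (nat_lit 54728106) (nat_lit 3025002) [(nat_lit 403469), (nat_lit 0), (nat_lit 6531416)]) (PF.cons (PF.leaf (nat_lit 4637526) (nat_lit 414382) (nat_lit 54179575) (nat_lit 3055320) [(nat_lit 414382), (nat_lit 0), (nat_lit 6558856)]) (PF.cons (PF.leaf (nat_lit 4953398) (nat_lit 424593) (nat_lit 53620106) (nat_lit 3083775) [(nat_lit 424593), (nat_lit 0), (nat_lit 6583593)]) (PF.cons (PF.leaf (nat_lit 5276773) (nat_lit 434144) (nat_lit 53051548) (nat_lit 3110303) [(nat_lit 434144), (nat_lit 0), (nat_lit 6605517)]) (PF.cons (PF.leaf (nat_lit 5606794) (nat_lit 443073) (nat_lit 52475575) (nat_lit 3134872) [(nat_lit 443073), (nat_lit 0), (nat_lit 6624559)]) (PF.cons (PF.leaf (nat_lit 5942548) (nat_lit 451411) (nat_lit 51893713) (nat_lit 3157470) [(nat_lit 451411), (nat_lit 0), (nat_lit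 6640688)]) (PF.cons (PF.leaf (nat_lit 6283274) (nat_lit 459188) (nat_lit 51307357) (nat_lit 3178106) [(nat_lit 459188), (nat_lit 0), (nat_lit 6653904)]) (PF.cons PF.nil (PF.cons PF.nil PF.nil)))))))))))))))) (PF.cons
 (PF.cons (PF.leaf (nat_lit 3315079) (nat_lit 1733906) (nat_lit 56008052) (nat_lit 2925922) [(nat_lit 0), (nat_lit 1733906), (nat_lit 6440932)]) (PF.cons (PF.leaf (nat_lit 3558938) (nat_lit 365766) (nat_lit 55553419) (nat_lit 2957388) [(nat_lit 365766), (nat_lit 1761455), (nat_lit 6470782)]) (PF.cons (PF.leaf (nat_lit 3819493) (nat_lit 379523) (nat_lit 55073374) (nat_lit 2988348) [(nat_lit 379523), (nat_lit 1788397), (nat_lit 6499645)]) (PF.cons (PF.leaf (nat_lit 4093718) (nat_lit 392192) (nat_lit 54572457) (nat_lit 3018363) [(nat_lit 392192), (nat_lit 1814431), (nat_lit 6526982)]) (PF.cons (PF.leaf (nat_lit 4379905) (nat_lit 403925) (nat_lit 54054209) (nat_lit 3047131) [(nat_lit 403925), (nat_lit 1839364), (nat_lit 6552405)]) (PF.cons (PF.leaf (nat_lit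 4676524) (nat_lit 414828) (nat_lit 53521523) (nat_lit 3074441) [(nat_lit 414828), (nat_lit 1863073), (nat_lit 6575631)]) (PF.cons (PF.leaf (nat_lit 4982328) (nat_lit 424979) (nat_lit 52976847) (nat_lit 3100149) [(nat_lit 424979), (nat_lit 1885480), (nat_lit 6596459)]) (PF.cons (PF.leaf (nat_lit 5296225) (nat_lit 434437) (nat_lit 52422300) (nat_lit 3124159) [(nat_lit 434437), (nat_lit 1906539), (nat_lit 6614749)]) (PF.cons (PF.leaf
 (nat_lit 5617183) (nat_lit 443251) (nat_lit 51859747) (nat_lit 3146411) [(nat_lit 443251), (nat_lit 1926228), (nat_lit 6630414)]) (PF.cons (PF.leaf (nat_lit 5944293) (nat_lit 451460) (nat_lit 51290847) (nat_lit 3166872) [(nat_lit 451460), (nat_lit 1944540), (nat_lit 6643403)]) (PF.cons (PF.leaf (nat_lit 6276724) (nat_lit 459100) (nat_lit 50717091) (nat_lit 3185533) [(nat_lit 459100), (nat_lit 1961482), (nat_lit 6653702)]) (PF.cons (PF.leaf (nat_lit 6613697) (nat_lit 466199) (nat_lit 50139822) (nat_lit 3202402) [(nat_lit 466199), (nat_lit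 1977073), (nat_lit 6661319)]) (PF.cons PF.nil (PF.cons PF.nil PF.nil)))))))))))))) (PF.cons (PF.cons (PF.leaf (nat_lit 4168313) (nat_lit 1831743) (nat_lit 53853334) (nat_lit 3042596) [(nat_lit 0), (nat_lit 1831743), (nat_lit 6549394)]) (PF.cons (PF.leaf (nat_lit 4439259) (nat_lit 403108) (nat_lit 53358934) (nat_lit 3067928) [(nat_lit 403108), (nat_lit 1854270), (nat_lit 6570299)]) (PF.cons (PF.leaf (nat_lit 4722943) (nat_lit 414227) (nat_lit 52847012) (nat_lit 3092186) [(nat_lit 414227), (nat_lit 1875875), (nat_lit 6589409)]) (PF.cons (PF.leaf (nat_lit 5017064) (nat_lit 424484) (nat_lit 52320927) (nat_lit 3115151) [(nat_lit 424484), (nat_lit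
 1896410), (nat_lit 6606460)]) (PF.cons (PF.leaf (nat_lit 5320204) (nat_lit 433976) (nat_lit 51783391) (nat_lit 3136673) [(nat_lit 433976), (nat_lit 1915785), (nat_lit 6621268)]) (PF.cons (PF.leaf (nat_lit 5631189) (nat_lit 442776) (nat_lit 51236668) (nat_lit 3156656) [(nat_lit 442776), (nat_lit 1933946), (nat_lit 6633715)]) (PF.cons (PF.leaf (nat_lit 5948916) (nat_lit 450937) (nat_lit 50682693) (nat_lit 3175038) [(nat_lit 450937), (nat_lit 1950863), (nat_lit 6643726)]) (PF.cons (PF.leaf (nat_lit 6272459) (nat_lit 458506) (nat_lit 50123151) (nat_lit 3191790) [(nat_lit 458506), (nat_lit 1966528), (nat_lit 6651268)]) (PF.cons (PF.leaf (nat_lit 6601018) (nat_lit 465520) (nat_lit 49559525) (nat_lit 3206901) [(nat_lit 465520), (nat_lit 1980944), (nat_lit 6656334)]) (PF.cons (PF.leaf (nat_lit 6933799) (nat_lit 472012) (nat_lit 48993132) (nat_lit 3220377) [(nat_lit 472012), (nat_lit 1994125), (nat_lit 6658943)]) (PF.cons PF.nil (PF.cons PF.nil PF.nil)))))))))))) (PF.cons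 (PF.cons (PF.leaf (nat_lit 5062174) (nat_lit 1906661) (nat_lit 51646172) (nat_lit 3128977) [(nat_lit 0), (nat_lit 1906661), (nat_lit 6613678)]) (PF.cons (PF.leaf (nat_lit 5351949) (nat_lit 432559) (nat_lit 51130212)
 (nat_lit 3147990) [(nat_lit 432559), (nat_lit 1924305), (nat_lit 6625134)]) (PF.cons (PF.leaf (nat_lit 5651336) (nat_lit 441497) (nat_lit 50602812) (nat_lit 3165717) [(nat_lit 441497), (nat_lit 1940925), (nat_lit 6634510)]) (PF.cons (PF.leaf (nat_lit 5958482) (nat_lit 449729) (nat_lit 50066497) (nat_lit 3182057) [(nat_lit 449729), (nat_lit 1956456), (nat_lit 6641700)]) (PF.cons (PF.leaf (nat_lit 6272243) (nat_lit 457320) (nat_lit 49523349) (nat_lit 3196947) [(nat_lit 457320), (nat_lit 1970864), (nat_lit 6646641)]) (PF.cons (PF.leaf (nat_lit 6591635) (nat_lit 464324) (nat_lit 48975125) (nat_lit 3210354) [(nat_lit 464324), (nat_lit 1984133), (nat_lit 6649310)]) (PF.cons (PF.leaf (nat_lit 6915786) (nat_lit 470782) (nat_lit 48423341) (nat_lit 3222269) [(nat_lit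 470782), (nat_lit 1996265), (nat_lit 6649710)]) (PF.cons (PF.leaf (nat_lit 7243914) (nat_lit 476732) (nat_lit 47869316) (nat_lit 3232697) [(nat_lit 476732), (nat_lit 2007269), (nat_lit 6647863)]) (PF.cons PF.nil (PF.cons PF.nil PF.nil)))))))))) (PF.cons (PF.cons (PF.leaf (nat_lit 5976517) (nat_lit 1961410) (nat_lit 49437819) (nat_lit 3188025) [(nat_lit 0), (nat_lit 1961410), (nat_lit 6637323)]) (PF.cons (PF.leaf (nat_lit
 6278475) (nat_lit 455399) (nat_lit 48914282) (nat_lit 3201077) [(nat_lit 455399), (nat_lit 1974557), (nat_lit 6639823)]) (PF.cons (PF.leaf (nat_lit 6587528) (nat_lit 462502) (nat_lit 48383962) (nat_lit 3212821) [(nat_lit 462502), (nat_lit 1986692), (nat_lit 6640252)]) (PF.cons (PF.leaf (nat_lit 6902144) (nat_lit 469014) (nat_lit 47848764) (nat_lit 3223222) [(nat_lit 469014), (nat_lit 1997796), (nat_lit 6638594)]) (PF.cons (PF.leaf (nat_lit 7221388) (nat_lit 474985) (nat_lit 47310281) (nat_lit 3232269) [(nat_lit 474985), (nat_lit 2007865), (nat_lit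 6634857)]) (PF.cons (PF.leaf (nat_lit 7544508) (nat_lit 480456) (nat_lit 46769866) (nat_lit 3239964) [(nat_lit 480456), (nat_lit 2016908), (nat_lit 6629069)]) (PF.cons (PF.leaf (nat_lit 7870749) (nat_lit 485461) (nat_lit 46228689) (nat_lit 3246324) [(nat_lit 485461), (nat_lit 2024939), (nat_lit 6621273)]) (PF.cons PF.nil PF.nil)))))))) (PF.cons (PF.cons (PF.leaf (nat_lit 6895613) (nat_lit 1998767) (nat_lit 47266139) (nat_lit 3223281) [(nat_lit 0), (nat_lit 1998767), (nat_lit 6625557)]) (PF.cons (PF.leaf (nat_lit 7204444) (nat_lit 472666) (nat_lit 46745489) (nat_lit 3230988) [(nat_lit 472666), (nat_lit 2007916), (nat_lit 6620086)])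
 (PF.cons (PF.leaf (nat_lit 7518355) (nat_lit 478215) (nat_lit 46221569) (nat_lit 3237467) [(nat_lit 478215), (nat_lit 2016127), (nat_lit 6612709)]) (PF.cons (PF.leaf (nat_lit 7836049) (nat_lit 483268) (nat_lit 45695814) (nat_lit 3242719) [(nat_lit 483268), (nat_lit 2023402), (nat_lit 6603459)]) (PF.cons (PF.leaf (nat_lit 8156838) (nat_lit 487862) (nat_lit 45169435) (nat_lit 3246759) [(nat_lit 487862), (nat_lit 2029757), (nat_lit 6592382)]) (PF.cons PF.nil PF.nil)))))) (PF.cons (PF.cons (PF.leaf (nat_lit 7807547) (nat_lit 2021392) (nat_lit 45157974) (nat_lit 3238375) [(nat_lit 0), (nat_lit 2021392), (nat_lit 6584110)]) (PF.cons (PF.leaf (nat_lit 8119110) (nat_lit 485243) (nat_lit 44647785) (nat_lit 3241452) [(nat_lit 485243), (nat_lit 2027081), (nat_lit 6571844)]) (PF.cons (PF.leaf (nat_lit 8434130) (nat_lit 489481) (nat_lit 44136924) (nat_lit 3243428) [(nat_lit 489481), (nat_lit 2031930), (nat_lit 6557911)]) (PF.cons PF.nil PF.nil)))) (PF.cons (PF.cons (PF.leaf (nat_lit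 8703578) (nat_lit 2031741) (nat_lit 43131318) (nat_lit 3236751) [(nat_lit 0), (nat_lit 2031741), (nat_lit 6518555)]) (PF.cons (PF.leaf (nat_lit 9014692) (nat_lit 493901) (nat_lit 42636841) (nat_lit 3235918)
 [(nat_lit 493901), (nat_lit 2034494), (nat_lit 6500690)]) PF.nil)) (PF.cons PF.nil (PF.cons PF.nil (PF.cons PF.nil PF.nil))))))))))) (PF.cons (PF.cons (PF.cons (PF.leaf (nat_lit 4444117) (nat_lit 3045071) (nat_lit 51022127) (nat_lit 3045071) [(nat_lit 0), (nat_lit 0), (nat_lit 6520806)]) (PF.cons (PF.leaf (nat_lit 4691086) (nat_lit 391295) (nat_lit 50588730) (nat_lit 3064807) [(nat_lit 391295), (nat_lit 0), (nat_lit 6531989)]) (PF.cons (PF.leaf (nat_lit 4952874) (nat_lit 403472) (nat_lit 50134299) (nat_lit 3083829) [(nat_lit 403472), (nat_lit 0), (nat_lit 6541869)]) (PF.cons (PF.leaf (nat_lit 5226448) (nat_lit 414435) (nat_lit 49663272) (nat_lit 3101868) [(nat_lit 414435), (nat_lit 0), (nat_lit 6550182)]) (PF.cons (PF.leaf (nat_lit 5510024) (nat_lit 424384) (nat_lit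 49179035) (nat_lit 3118745) [(nat_lit 424384), (nat_lit 0), (nat_lit 6556746)]) (PF.cons (PF.leaf (nat_lit 5802152) (nat_lit 433459) (nat_lit 48684286) (nat_lit 3134348) [(nat_lit 433459), (nat_lit 0), (nat_lit 6561440)]) (PF.cons (PF.leaf (nat_lit 6101618) (nat_lit 441764) (nat_lit 48181246) (nat_lit 3148606) [(nat_lit 441764), (nat_lit 0), (nat_lit 6564187)]) (PF.cons (PF.leaf (nat_lit 6407373) (nat_lit 449378)
 (nat_lit 47671790) (nat_lit 3161479) [(nat_lit 449378), (nat_lit 0), (nat_lit 6564945)]) (PF.cons (PF.leaf (nat_lit 6718508) (nat_lit 456367) (nat_lit 47157523) (nat_lit 3172950) [(nat_lit 456367), (nat_lit 0), (nat_lit 6563700)]) (PF.cons (PF.leaf (nat_lit 7034198) (nat_lit 462781) (nat_lit 46639840) (nat_lit 3183019) [(nat_lit 462781), (nat_lit 0), (nat_lit 6560458)]) (PF.cons (PF.leaf (nat_lit 7353713) (nat_lit 468666) (nat_lit 46119962) (nat_lit 3191701) [(nat_lit 468666), (nat_lit 0), (nat_lit 6555244)]) (PF.cons PF.nil (PF.cons PF.nil (PF.cons PF.nil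 PF.nil)))))))))))))) (PF.cons (PF.cons (PF.leaf (nat_lit 5275345) (nat_lit 1892952) (nat_lit 49008384) (nat_lit 3111029) [(nat_lit 0), (nat_lit 1892952), (nat_lit 6548223)]) (PF.cons (PF.leaf (nat_lit 5543564) (nat_lit 421183) (nat_lit 48549126) (nat_lit 3125693) [(nat_lit 421183), (nat_lit 1908294), (nat_lit 6552257)]) (PF.cons (PF.leaf (nat_lit 5822753) (nat_lit 430669) (nat_lit 48076123) (nat_lit 3139344) [(nat_lit 430669), (nat_lit 1922730), (nat_lit 6554638)]) (PF.cons (PF.leaf (nat_lit 6110679) (nat_lit 439253) (nat_lit 47592488) (nat_lit 3151858) [(nat_lit 439253), (nat_lit 1936181), (nat_lit 6555262)]) (PF.cons (PF.leaf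
 (nat_lit 6405973) (nat_lit 447057) (nat_lit 47100680) (nat_lit 3163160) [(nat_lit 447057), (nat_lit 1948607), (nat_lit 6554066)]) (PF.cons (PF.leaf (nat_lit 6707501) (nat_lit 454172) (nat_lit 46602702) (nat_lit 3173207) [(nat_lit 454172), (nat_lit 1959994), (nat_lit 6551022)]) (PF.cons (PF.leaf (nat_lit 7014288) (nat_lit 460668) (nat_lit 46100230) (nat_lit 3181982) [(nat_lit 460668), (nat_lit 1970340), (nat_lit 6546123)]) (PF.cons (PF.leaf (nat_lit 7325474) (nat_lit 466601) (nat_lit 45594687) (nat_lit 3189482) [(nat_lit 466601), (nat_lit 1979658), (nat_lit 6539386)]) (PF.cons (PF.leaf (nat_lit 7640377) (nat_lit 472018) (nat_lit 45087298) (nat_lit 3195719) [(nat_lit 472018), (nat_lit 1987967), (nat_lit 6530838)]) (PF.cons PF.nil (PF.cons PF.nil (PF.cons PF.nil PF.nil)))))))))))) (PF.cons (PF.cons (PF.leaf (nat_lit 6131152) (nat_lit 1938796) (nat_lit 46988554) (nat_lit 3154256) [(nat_lit 0), (nat_lit 1938796), (nat_lit 6544204)]) (PF.cons (PF.leaf (nat_lit 6413404)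 (nat_lit 443833) (nat_lit 46518310) (nat_lit 3163994) [(nat_lit 443833), (nat_lit 1950114), (nat_lit 6541223)]) (PF.cons (PF.leaf (nat_lit 6703749) (nat_lit 451234) (nat_lit 46039577) (nat_lit 3172643) [(nat_lit 451234),
 (nat_lit 1960522), (nat_lit 6536539)]) (PF.cons (PF.leaf (nat_lit 7000420) (nat_lit 457931) (nat_lit 45554597) (nat_lit 3180159) [(nat_lit 457931), (nat_lit 1969996), (nat_lit 6530134)]) (PF.cons (PF.leaf (nat_lit 7302391) (nat_lit 464006) (nat_lit 45065180) (nat_lit 3186519) [(nat_lit 464006), (nat_lit 1978530), (nat_lit 6522012)]) (PF.cons (PF.leaf (nat_lit 7608742) (nat_lit 469523) (nat_lit 44572824) (nat_lit 3191721) [(nat_lit 469523), (nat_lit 1986130), (nat_lit 6512195)]) (PF.cons (PF.leaf (nat_lit 7918673) (nat_lit 474531) (nat_lit 44078793) (nat_lit 3195773) [(nat_lit 474531), (nat_lit 1992811), (nat_lit 6500716)]) (PF.cons (PF.leaf (nat_lit 8231566) (nat_lit 479074) (nat_lit 43584164) (nat_lit 3198696) [(nat_lit 479074), (nat_lit 1998595),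 (nat_lit 6487619)]) (PF.cons PF.nil (PF.cons PF.nil PF.nil)))))))))) (PF.cons (PF.cons (PF.leaf (nat_lit 6995930) (nat_lit 1969191) (nat_lit 44998894) (nat_lit 3177578) [(nat_lit 0), (nat_lit 1969191), (nat_lit 6512383)]) (PF.cons (PF.leaf (nat_lit 7286685) (nat_lit 460729) (nat_lit 44528333) (nat_lit 3182832) [(nat_lit 460729), (nat_lit 1976945), (nat_lit 6503040)]) (PF.cons (PF.leaf (nat_lit 7583302) (nat_lit 466456) (nat_lit
 44053108) (nat_lit 3187037) [(nat_lit 466456), (nat_lit 1983850), (nat_lit 6492101)]) (PF.cons (PF.leaf (nat_lit 7884400) (nat_lit 471619) (nat_lit 43574854) (nat_lit 3190189) [(nat_lit 471619), (nat_lit 1989906), (nat_lit 6479594)]) (PF.cons (PF.leaf (nat_lit 8189118) (nat_lit 476276) (nat_lit 43094913) (nat_lit 3192295) [(nat_lit 476276), (nat_lit 1995126), (nat_lit 6465559)]) (PF.cons (PF.leaf (nat_lit 8496739) (nat_lit 480473) (nat_lit 42614406) (nat_lit 3193372) [(nat_lit 480473), (nat_lit 1999527), (nat_lit 6450041)]) (PF.cons PF.nil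 (PF.cons PF.nil PF.nil)))))))) (PF.cons (PF.cons (PF.leaf (nat_lit 7858001) (nat_lit 1986596) (nat_lit 43064362) (nat_lit 3183962) [(nat_lit 0), (nat_lit 1986596), (nat_lit 6457051)]) (PF.cons (PF.leaf (nat_lit 8153000) (nat_lit 472952) (nat_lit 42601042) (nat_lit 3185293) [(nat_lit 472952), (nat_lit 1991269), (nat_lit 6442222)]) (PF.cons (PF.leaf (nat_lit 8452171) (nat_lit 477313) (nat_lit 42135831) (nat_lit 3185672) [(nat_lit 477313), (nat_lit 1995180), (nat_lit 6425979)]) (PF.cons (PF.leaf (nat_lit 8754305) (nat_lit 481215) (nat_lit 41669930) (nat_lit 3185112) [(nat_lit 481215), (nat_lit 1998344), (nat_lit 6408373)]) (PF.cons PF.nil (PF.cons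
 PF.nil PF.nil)))))) (PF.cons (PF.cons (PF.leaf (nat_lit 8708775) (nat_lit 1993211) (nat_lit 41201455) (nat_lit 3176249) [(nat_lit 0), (nat_lit 1993211), (nat_lit 6382524)]) (PF.cons (PF.leaf (nat_lit 9004788) (nat_lit 481353) (nat_lit 40750584) (nat_lit 3174245) [(nat_lit 481353), (nat_lit 1995270), (nat_lit 6363138)]) (PF.cons (PF.leaf (nat_lit 9303628) (nat_lit 484591) (nat_lit 40299812) (nat_lit 3171406) [(nat_lit 484591), (nat_lit 1996662), (nat_lit 6342549)]) (PF.cons PF.nil PF.nil)))) (PF.cons (PF.cons (PF.leaf (nat_lit 9542113) (nat_lit 1990974) (nat_lit 39420317) (nat_lit 3157029) [(nat_lit 0), (nat_lit 1990974), (nat_lit 6292810)]) (PF.cons PF.nil PF.nil)) (PF.cons PF.nil (PF.cons PF.nil (PF.cons PF.nil PF.nil)))))))))) (PF.cons (PF.cons (PF.cons (PF.leaf (nat_lit 6269534) (nat_lit 3109913) (nat_lit 44696580) (nat_lit 3109913) [(nat_lit 0), (nat_lit 0), (nat_lit 6434106)]) (PF.cons (PF.leaf (nat_lit 6531317) (nat_lit 428920) (nat_lit 44279955) (nat_lit 3117338)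 [(nat_lit 428920), (nat_lit 0), (nat_lit 6427532)]) (PF.cons (PF.leaf (nat_lit 6802741) (nat_lit 437097) (nat_lit 43852323) (nat_lit 3123841) [(nat_lit 437097), (nat_lit 0), (nat_lit 6419484)]) (PF.cons (PF.leaf
 (nat_lit 7081632) (nat_lit 444369) (nat_lit 43416478) (nat_lit 3129362) [(nat_lit 444369), (nat_lit 0), (nat_lit 6409954)]) (PF.cons (PF.leaf (nat_lit 7366690) (nat_lit 450873) (nat_lit 42974591) (nat_lit 3133871) [(nat_lit 450873), (nat_lit 0), (nat_lit 6398951)]) (PF.cons (PF.leaf (nat_lit 7656853) (nat_lit 456710) (nat_lit 42528404) (nat_lit 3137359) [(nat_lit 456710), (nat_lit 0), (nat_lit 6386498)]) (PF.cons (PF.leaf (nat_lit 7951253) (nat_lit 461959) (nat_lit 42079347) (nat_lit 3139830) [(nat_lit 461959), (nat_lit 0), (nat_lit 6372625)]) (PF.cons (PF.leaf (nat_lit 8249085) (nat_lit 466682) (nat_lit 41628617) (nat_lit 3141300) [(nat_lit 466682), (nat_lit 0), (nat_lit 6357373)]) (PF.cons (PF.leaf (nat_lit 8549764) (nat_lit 470929) (nat_lit 41177228) (nat_lit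 3141790) [(nat_lit 470929), (nat_lit 0), (nat_lit 6340786)]) (PF.cons PF.nil PF.nil)))))))))) (PF.cons (PF.cons (PF.leaf (nat_lit 7082680) (nat_lit 1934297) (nat_lit 42884132) (nat_lit 3124768) [(nat_lit 0), (nat_lit 1934297), (nat_lit 6388538)]) (PF.cons (PF.leaf (nat_lit 7355268) (nat_lit 446536) (nat_lit 42462435) (nat_lit 3128349) [(nat_lit 446536), (nat_lit 1941220), (nat_lit 6376757)]) (PF.cons (PF.leaf (nat_lit
 7634861) (nat_lit 452756) (nat_lit 42034208) (nat_lit 3131012) [(nat_lit 452756), (nat_lit 1947347), (nat_lit 6363577)]) (PF.cons (PF.leaf (nat_lit 7919763) (nat_lit 458294) (nat_lit 41601409) (nat_lit 3132746) [(nat_lit 458294), (nat_lit 1952674), (nat_lit 6349033)]) (PF.cons (PF.leaf (nat_lit 8209037) (nat_lit 463238) (nat_lit 41165598) (nat_lit 3133553) [(nat_lit 463238), (nat_lit 1957213), (nat_lit 6333164)]) (PF.cons (PF.leaf (nat_lit 8501823) (nat_lit 467657) (nat_lit 40728047) (nat_lit 3133446) [(nat_lit 467657), (nat_lit 1960983), (nat_lit 6316016)])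 (PF.cons (PF.leaf (nat_lit 8797439) (nat_lit 471606) (nat_lit 40289811) (nat_lit 3132445) [(nat_lit 471606), (nat_lit 1964005), (nat_lit 6297636)]) (PF.cons PF.nil PF.nil)))))))) (PF.cons (PF.cons (PF.leaf (nat_lit 7898175) (nat_lit 1948346) (nat_lit 41114893) (nat_lit 3125081) [(nat_lit 0), (nat_lit 1948346), (nat_lit 6324048)]) (PF.cons (PF.leaf (nat_lit 8176904) (nat_lit 459150) (nat_lit 40696353) (nat_lit 3125265) [(nat_lit 459150), (nat_lit 1952432), (nat_lit 6307725)]) (PF.cons (PF.leaf (nat_lit 8460655) (nat_lit 463853) (nat_lit 40274433) (nat_lit 3124601) [(nat_lit 463853), (nat_lit 1955802), (nat_lit 6290155)])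
 (PF.cons (PF.leaf (nat_lit 8748104) (nat_lit 468022) (nat_lit 39850535) (nat_lit 3123100) [(nat_lit 468022), (nat_lit 1958470), (nat_lit 6271389)]) (PF.cons (PF.leaf (nat_lit 9038477) (nat_lit 471721) (nat_lit 39425792) (nat_lit 3120782) [(nat_lit 471721), (nat_lit 1960454), (nat_lit 6251481)]) (PF.cons PF.nil PF.nil)))))) (PF.cons (PF.cons (PF.leaf (nat_lit 8707081) (nat_lit 1952622) (nat_lit 39405586) (nat_lit 3113266) [(nat_lit 0), (nat_lit 1952622), (nat_lit 6244031)]) (PF.cons (PF.leaf (nat_lit 8988456) (nat_lit 467820) (nat_lit 38995795) (nat_lit 3110541) [(nat_lit 467820), (nat_lit 1954308), (nat_lit 6223910)]) (PF.cons (PF.leaf (nat_lit 9273357) (nat_lit 471315) (nat_lit 38584852) (nat_lit 3107064) [(nat_lit 471315), (nat_lit 1955367), (nat_lit 6202720)]) (PF.cons (PF.leaf (nat_lit 9560675) (nat_lit 474386) (nat_lit 38173772) (nat_lit 3102859) [(nat_lit 474386), (nat_lit 1955821), (nat_lit 6180519)]) PF.nil)))) (PF.cons (PF.cons (PF.leaf (nat_lit 9502991)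 (nat_lit 1948912) (nat_lit 37766519) (nat_lit 3091526) [(nat_lit 0), (nat_lit 1948912), (nat_lit 6151705)]) (PF.cons (PF.leaf (nat_lit 9784387) (nat_lit 473332) (nat_lit 37369186) (nat_lit 3086368) [(nat_lit 473332),
 (nat_lit 1948594), (nat_lit 6128515)]) PF.nil)) (PF.cons PF.nil (PF.cons PF.nil (PF.cons PF.nil PF.nil)))))))) (PF.cons (PF.cons (PF.cons (PF.leaf (nat_lit 7933747) (nat_lit 3063081) (nat_lit 39295442) (nat_lit 3063081) [(nat_lit 0), (nat_lit 0), (nat_lit 6187572)]) (PF.cons (PF.leaf (nat_lit 8195946) (nat_lit 443759) (nat_lit 38920009) (nat_lit 3062601) [(nat_lit 443759), (nat_lit 0), (nat_lit 6170610)]) (PF.cons (PF.leaf (nat_lit 8464331) (nat_lit 449067) (nat_lit 38539373) (nat_lit 3061344) [(nat_lit 449067), (nat_lit 0), (nat_lit 6152490)]) (PF.cons (PF.leaf (nat_lit 8737323) (nat_lit 453721) (nat_lit 38155238) (nat_lit 3059318) [(nat_lit 453721), (nat_lit 0), (nat_lit 6133272)]) (PF.cons (PF.leaf (nat_lit 9013965) (nat_lit 457813) (nat_lit 37768944)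 (nat_lit 3056540) [(nat_lit 457813), (nat_lit 0), (nat_lit 6113018)]) (PF.cons (PF.leaf (nat_lit 9293559) (nat_lit 461415) (nat_lit 37381574) (nat_lit 3053032) [(nat_lit 461415), (nat_lit 0), (nat_lit 6091782)]) (PF.cons PF.nil (PF.cons PF.nil PF.nil)))))))) (PF.cons (PF.cons (PF.leaf (nat_lit 8702884) (nat_lit 1910517) (nat_lit 37730519) (nat_lit 3048744) [(nat_lit 0), (nat_lit 1910517), (nat_lit 6104757)]) (PF.cons (PF.leaf
 (nat_lit 8969676) (nat_lit 453272) (nat_lit 37359669) (nat_lit 3045662) [(nat_lit 453272), (nat_lit 1912109), (nat_lit 6084525)]) (PF.cons (PF.leaf (nat_lit 9240880) (nat_lit 457201) (nat_lit 36986235) (nat_lit 3041884) [(nat_lit 457201), (nat_lit 1913091), (nat_lit 6063299)]) (PF.cons (PF.leaf (nat_lit 9515241) (nat_lit 460631) (nat_lit 36611422) (nat_lit 3037433) [(nat_lit 460631), (nat_lit 1913485), (nat_lit 6041144)]) (PF.cons (PF.leaf (nat_lit 9792031) (nat_lit 463622) (nat_lit 36236192) (nat_lit 3032333) [(nat_lit 463622), (nat_lit 1913314),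 (nat_lit 6018120)]) (PF.cons PF.nil PF.nil)))))) (PF.cons (PF.cons (PF.leaf (nat_lit 9463565) (nat_lit 1906201) (nat_lit 36223730) (nat_lit 3025652) [(nat_lit 0), (nat_lit 1906201), (nat_lit 6011756)]) (PF.cons (PF.leaf (nat_lit 9732005) (nat_lit 459418) (nat_lit 35861722) (nat_lit 3020383) [(nat_lit 459418), (nat_lit 1905897), (nat_lit 5988873)]) (PF.cons (PF.leaf (nat_lit 10003539) (nat_lit 462274) (nat_lit 35498954) (nat_lit 3014512) [(nat_lit 462274), (nat_lit 1905071), (nat_lit 5965163)]) (PF.cons PF.nil PF.nil)))) (PF.cons (PF.cons (PF.leaf (nat_lit 10210827) (nat_lit 1895901) (nat_lit 34781694) (nat_lit 2995518) [(nat_lit 0),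
 (nat_lit 1895901), (nat_lit 5910974)]) (PF.cons PF.nil PF.nil)) (PF.cons PF.nil (PF.cons PF.nil PF.nil)))))) (PF.cons (PF.cons (PF.cons (PF.leaf (nat_lit 9426747) (nat_lit 2959832) (nat_lit 34780601) (nat_lit 2959832) [(nat_lit 0), (nat_lit 0), (nat_lit 5873675)]) (PF.cons (PF.leaf (nat_lit 9682104) (nat_lit 444782) (nat_lit 34452033) (nat_lit 2954678) [(nat_lit 444782), (nat_lit 0), (nat_lit 5851463)]) (PF.cons (PF.leaf (nat_lit 9941441) (nat_lit 448122) (nat_lit 34121392) (nat_lit 2948946) [(nat_lit 448122), (nat_lit 0), (nat_lit 5828445)]) (PF.cons (PF.leaf (nat_lit 10203525) (nat_lit 450992) (nat_lit 33789716) (nat_lit 2942664) [(nat_lit 450992), (nat_lit 0), (nat_lit 5804691)]) (PF.cons PF.nil (PF.cons PF.nil PF.nil)))))) (PF.cons (PF.cons (PF.leaf (nat_lit 10144158) (nat_lit 1853177) (nat_lit 33451114) (nat_lit 2929965) [(nat_lit 0), (nat_lit 1853177), (nat_lit 5774911)]) (PF.cons (PF.leaf (nat_lit 10400536) (nat_lit 449122) (nat_lit 33130835) (nat_lit 2923143)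 [(nat_lit 449122), (nat_lit 1851554), (nat_lit 5750831)]) (PF.cons PF.nil (PF.cons PF.nil PF.nil)))) (PF.cons (PF.cons (PF.leaf (nat_lit 10848394) (nat_lit 1838751) (nat_lit 32179518) (nat_lit 2895058) [(nat_lit 0),
 (nat_lit 1838751), (nat_lit 5671346)]) (PF.cons PF.nil PF.nil)) (PF.cons PF.nil PF.nil)))) (PF.cons (PF.cons (PF.cons (PF.leaf (nat_lit 10762137) (nat_lit 2831586) (nat_lit 31026060) (nat_lit 2831586) [(nat_lit 0), (nat_lit 0), (nat_lit 5541860)]) (PF.cons (PF.leaf (nat_lit 11007376) (nat_lit 437814) (nat_lit 30741845) (nat_lit 2823863) [(nat_lit 437814), (nat_lit 0), (nat_lit 5517548)]) PF.nil)) (PF.cons PF.nil PF.nil)) (PF.cons PF.nil (PF.cons PF.nil (PF.cons PF.nil (PF.cons PF.nil (PF.cons PF.nil PF.nil))))))))))))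

def p12_17_0_0 : pfC (piC [(nat_lit 40745421), (nat_lit 25257288), (nat_lit 16296408)] (nat_lit 22633645)) p12_17_0 (nat_lit 3) (nat_lit 0) (nat_lit 1) = true := by decide +kernel
def p12_17_0_1 : pfC (piC [(nat_lit 40745421), (nat_lit 25257288), (nat_lit 16296408)] (nat_lit 22633645)) p12_17_0 (nat_lit 3) (nat_lit 1) (nat_lit 2) = true := by decide +kernel
def p12_17_0_2 : pfC (piC [(nat_lit 40745421), (nat_lit 25257288), (nat_lit 16296408)] (nat_lit 22633645)) p12_17_0 (nat_lit 3) (nat_lit 2) (nat_lit 3) = true := by decide +kernel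
def p12_17_0_3 : pfC (piC [(nat_lit 40745421), (nat_lit 25257288), (nat_lit 16296408)] (nat_lit 22633645)) p12_17_0 (nat_lit 3) (nat_lit 3) (nat_lit 4) = true := by decide +kernel
def p12_17_0_4 : pfC (piC [(nat_lit 40745421), (nat_lit 25257288), (nat_lit 16296408)] (nat_lit 22633645)) p12_17_0 (nat_lit 3) (nat_lit 4) (nat_lit 5) = true := by decide +kernel
def p12_17_0_5 : pfC (piC [(nat_lit 40745421), (nat_lit 25257288), (nat_lit 16296408)] (nat_lit 22633645)) p12_17_0 (nat_lit 3) (nat_lit 5) (nat_lit 6) = true := by decide +kernel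
def p12_17_0_6 : pfC (piC [(nat_lit 40745421), (nat_lit 25257288), (nat_lit 16296408)] (nat_lit 22633645)) p12_17_0 (nat_lit 3) (nat_lit 6) (nat_lit 7) = true := by decide +kernel
def p12_17_0_7 : pfC (piC [(nat_lit 40745421), (nat_lit 25257288), (nat_lit 16296408)] (nat_lit 22633645)) p12_17_0 (nat_lit 3) (nat_lit 7) (nat_lit 8) = true := by decide +kernel
def p12_17_0_8 : pfC (piC [(nat_lit 40745421), (nat_lit 25257288), (nat_lit 16296408)] (nat_lit 22633645)) p12_17_0 (nat_lit 3) (nat_lit 8) (nat_lit 9) = true := by decide +kernel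
def p12_17_0_9 : pfC (piC [(nat_lit 40745421), (nat_lit 25257288), (nat_lit 16296408)] (nat_lit 22633645)) p12_17_0 (nat_lit 3) (nat_lit 9) (nat_lit 10) = true := by decide +kernel
def p12_17_0_10 : pfC (piC [(nat_lit 40745421), (nat_lit 25257288), (nat_lit 16296408)] (nat_lit 22633645)) p12_17_0 (nat_lit 3) (nat_lit 10) (nat_lit 11) = true := by decide +kernel
def p12_17_0_11 : pfC (piC [(nat_lit 40745421), (nat_lit 25257288), (nat_lit 16296408)] (nat_lit 22633645)) p12_17_0 (nat_lit 3) (nat_lit 11) (nat_lit 12) = true := by decide +kernel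
def p12_17_0_12 : pfC (piC [(nat_lit 40745421), (nat_lit 25257288), (nat_lit 16296408)] (nat_lit 22633645)) p12_17_0 (nat_lit 3) (nat_lit 12) (nat_lit 13) = true := by decide +kernel
def p12_17_0_13 : pfC (piC [(nat_lit 40745421), (nat_lit 25257288), (nat_lit 16296408)] (nat_lit 22633645)) p12_17_0 (nat_lit 3) (nat_lit 13) (nat_lit 14) = true := by decide +kernel
def p12_17_0_14 : pfC (piC [(nat_lit 40745421), (nat_lit 25257288), (nat_lit 16296408)] (nat_lit 22633645)) p12_17_0 (nat_lit 3) (nat_lit 14) (nat_lit 15) = true := by decide +kernel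
def p12_17_0_15 : pfC (piC [(nat_lit 40745421), (nat_lit 25257288), (nat_lit 16296408)] (nat_lit 22633645)) p12_17_0 (nat_lit 3) (nat_lit 15) (nat_lit 16) = true := by decide +kernel
def p12_17_0_16 : pfC (piC [(nat_lit 40745421), (nat_lit 25257288), (nat_lit 16296408)] (nat_lit 22633645)) p12_17_0 (nat_lit 3) (nat_lit 16) (nat_lit 17) = true := by decide +kernel
def p12_17_0_17 : pfC (piC [(nat_lit 40745421), (nat_lit 25257288), (nat_lit 16296408)] (nat_lit 22633645)) p12_17_0 (nat_lit 3) (nat_lit 17) (nat_lit 18) = true := by decide +kernel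
def p12_17_0_18 : pfC (piC [(nat_lit 40745421), (nat_lit 25257288), (nat_lit 16296408)] (nat_lit 22633645)) p12_17_0 (nat_lit 3) (nat_lit 18) (nat_lit 19) = true := by decide +kernel
def p12_17_0_19 : pfC (piC [(nat_lit 40745421), (nat_lit 25257288), (nat_lit 16296408)] (nat_lit 22633645)) p12_17_0 (nat_lit 3) (nat_lit 19) (nat_lit 20) = true := by decide +kernel
def p12_17_0_20 : pfC (piC [(nat_lit 40745421), (nat_lit 25257288), (nat_lit 16296408)] (nat_lit 22633645)) p12_17_0 (nat_lit 3) (nat_lit 20) (nat_lit 21) = true := by decide +kernel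
def p12_17_0_21 : pfC (piC [(nat_lit 40745421), (nat_lit 25257288), (nat_lit 16296408)] (nat_lit 22633645)) p12_17_0 (nat_lit 3) (nat_lit 21) (nat_lit 22) = true := by decide +kernel
def p12_17_0_22 : pfC (piC [(nat_lit 40745421), (nat_lit 25257288), (nat_lit 16296408)] (nat_lit 22633645)) p12_17_0 (nat_lit 3) (nat_lit 22) (nat_lit 23) = true := by decide +kernel
def p12_17_0_23 : pfC (piC [(nat_lit 40745421), (nat_lit 25257288), (nat_lit 16296408)] (nat_lit 22633645)) p12_17_0 (nat_lit 3) (nat_lit 23) (nat_lit 24) = true := by decide +kernel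
def p12_17_0_24 : pfC (piC [(nat_lit 40745421), (nat_lit 25257288), (nat_lit 16296408)] (nat_lit 22633645)) p12_17_0 (nat_lit 3) (nat_lit 24) (nat_lit 25) = true := by decide +kernel
def p12_17_0_25 : pfC (piC [(nat_lit 40745421), (nat_lit 25257288), (nat_lit 16296408)] (nat_lit 22633645)) p12_17_0 (nat_lit 3) (nat_lit 25) (nat_lit 26) = true := by decide +kernel
def p12_17_0_26 : pfC (piC [(nat_lit 40745421), (nat_lit 25257288), (nat_lit 16296408)] (nat_lit 22633645)) p12_17_0 (nat_lit 3) (nat_lit 26) (nat_lit 27) = true := by decide +kernel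
def p12_17_0_27 : pfC (piC [(nat_lit 40745421), (nat_lit 25257288), (nat_lit 16296408)] (nat_lit 22633645)) p12_17_0 (nat_lit 3) (nat_lit 27) (nat_lit 28) = true := by decide +kernel
def p12_17_0_28 : pfC (piC [(nat_lit 40745421), (nat_lit 25257288), (nat_lit 16296408)] (nat_lit 22633645)) p12_17_0 (nat_lit 3) (nat_lit 28) (nat_lit 29) = true := by decide +kernel
def p12_17_0_29 : pfC (piC [(nat_lit 40745421), (nat_lit 25257288), (nat_lit 16296408)] (nat_lit 22633645)) p12_17_0 (nat_lit 3) (nat_lit 29) (nat_lit 30) = true := by decide +kernel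
def p12_17_0_30 : pfC (piC [(nat_lit 40745421), (nat_lit 25257288), (nat_lit 16296408)] (nat_lit 22633645)) p12_17_0 (nat_lit 3) (nat_lit 30) (nat_lit 31) = true := by decide +kernel
def p12_17_0_31 : pfC (piC [(nat_lit 40745421), (nat_lit 25257288), (nat_lit 16296408)] (nat_lit 22633645)) p12_17_0 (nat_lit 3) (nat_lit 31) (nat_lit 32) = true := by decide +kernel
def p12_17_0_32 : pfC (piC [(nat_lit 40745421), (nat_lit 25257288), (nat_lit 16296408)] (nat_lit 22633645)) p12_17_0 (nat_lit 3) (nat_lit 32) (nat_lit 33) = true := by decide +kernel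
def p12_17_0_33 : pfC (piC [(nat_lit 40745421), (nat_lit 25257288), (nat_lit 16296408)] (nat_lit 22633645)) p12_17_0 (nat_lit 3) (nat_lit 33) (nat_lit 34) = true := by decide +kernel
def p12_17_0_34 : pfC (piC [(nat_lit 40745421), (nat_lit 25257288), (nat_lit 16296408)] (nat_lit 22633645)) p12_17_0 (nat_lit 3) (nat_lit 34) (nat_lit 35) = true := by decide +kernel
def p12_17_0_35 : pfC (piC [(nat_lit 40745421), (nat_lit 25257288), (nat_lit 16296408)] (nat_lit 22633645)) p12_17_0 (nat_lit 3) (nat_lit 35) (nat_lit 36) = true := by decide +kernel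
def p12_17_0_36 : pfC (piC [(nat_lit 40745421), (nat_lit 25257288), (nat_lit 16296408)] (nat_lit 22633645)) p12_17_0 (nat_lit 3) (nat_lit 36) (nat_lit 37) = true := by decide +kernel
def p12_17_0_37 : pfC (piC [(nat_lit 40745421), (nat_lit 25257288), (nat_lit 16296408)] (nat_lit 22633645)) p12_17_0 (nat_lit 3) (nat_lit 37) (nat_lit 38) = true := by decide +kernel
def p12_17_0_38 : pfC (piC [(nat_lit 40745421), (nat_lit 25257288), (nat_lit 16296408)] (nat_lit 22633645)) p12_17_0 (nat_lit 3) (nat_lit 38) (nat_lit 39) = true := by decide +kernel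
def p12_17_0_39 : pfC (piC [(nat_lit 40745421), (nat_lit 25257288), (nat_lit 16296408)] (nat_lit 22633645)) p12_17_0 (nat_lit 3) (nat_lit 39) (nat_lit 40) = true := by decide +kernel
def p12_17_0_40 : pfC (piC [(nat_lit 40745421), (nat_lit 25257288), (nat_lit 16296408)] (nat_lit 22633645)) p12_17_0 (nat_lit 3) (nat_lit 40) (nat_lit 41) = true := by decide +kernel
def p12_17_0_41 : pfC (piC [(nat_lit 40745421), (nat_lit 25257288), (nat_lit 16296408)] (nat_lit 22633645)) p12_17_0 (nat_lit 3) (nat_lit 41) (nat_lit 42) = true := by decide +kernel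
def p12_17_0_42 : pfC (piC [(nat_lit 40745421), (nat_lit 25257288), (nat_lit 16296408)] (nat_lit 22633645)) p12_17_0 (nat_lit 3) (nat_lit 42) (nat_lit 43) = true := by decide +kernel
def p12_17_0_43 : pfC (piC [(nat_lit 40745421), (nat_lit 25257288), (nat_lit 16296408)] (nat_lit 22633645)) p12_17_0 (nat_lit 3) (nat_lit 43) (nat_lit 44) = true := by decide +kernel
def p12_17_0_44 : pfC (piC [(nat_lit 40745421), (nat_lit 25257288), (nat_lit 16296408)] (nat_lit 22633645)) p12_17_0 (nat_lit 3) (nat_lit 44) (nat_lit 45) = true := by decide +kernel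
def p12_17_0_45 : pfC (piC [(nat_lit 40745421), (nat_lit 25257288), (nat_lit 16296408)] (nat_lit 22633645)) p12_17_0 (nat_lit 3) (nat_lit 45) (nat_lit 46) = true := by decide +kernel
def p12_17_0_46 : pfC (piC [(nat_lit 40745421), (nat_lit 25257288), (nat_lit 16296408)] (nat_lit 22633645)) p12_17_0 (nat_lit 3) (nat_lit 46) (nat_lit 47) = true := by decide +kernel
def p12_17_0_47 : pfC (piC [(nat_lit 40745421), (nat_lit 25257288), (nat_lit 16296408)] (nat_lit 22633645)) p12_17_0 (nat_lit 3) (nat_lit 47) (nat_lit 48) = true := by decide +kernel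
def p12_17_0_48 : pfC (piC [(nat_lit 40745421), (nat_lit 25257288), (nat_lit 16296408)] (nat_lit 22633645)) p12_17_0 (nat_lit 3) (nat_lit 48) (nat_lit 49) = true := by decide +kernel
def p12_17_0_49 : pfC (piC [(nat_lit 40745421), (nat_lit 25257288), (nat_lit 16296408)] (nat_lit 22633645)) p12_17_0 (nat_lit 3) (nat_lit 49) (nat_lit 50) = true := by decide +kernel
def p12_17_0_50 : pfC (piC [(nat_lit 40745421), (nat_lit 25257288), (nat_lit 16296408)] (nat_lit 22633645)) p12_17_0 (nat_lit 3) (nat_lit 50) (nat_lit 51) = true := by decide +kernel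
def p12_17_0_51 : pfC (piC [(nat_lit 40745421), (nat_lit 25257288), (nat_lit 16296408)] (nat_lit 22633645)) p12_17_0 (nat_lit 3) (nat_lit 51) (nat_lit 52) = true := by decide +kernel
def p12_17_0_52 : pfC (piC [(nat_lit 40745421), (nat_lit 25257288), (nat_lit 16296408)] (nat_lit 22633645)) p12_17_0 (nat_lit 3) (nat_lit 52) (nat_lit 53) = true := by decide +kernel
def p12_17_0_53 : pfC (piC [(nat_lit 40745421), (nat_lit 25257288), (nat_lit 16296408)] (nat_lit 22633645)) p12_17_0 (nat_lit 3) (nat_lit 53) (nat_lit 54) = true := by decide +kernel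
def p12_17_0_54 : pfC (piC [(nat_lit 40745421), (nat_lit 25257288), (nat_lit 16296408)] (nat_lit 22633645)) p12_17_0 (nat_lit 3) (nat_lit 54) (nat_lit 55) = true := by decide +kernel
def p12_17_0_55 : pfC (piC [(nat_lit 40745421), (nat_lit 25257288), (nat_lit 16296408)] (nat_lit 22633645)) p12_17_0 (nat_lit 3) (nat_lit 55) (nat_lit 56) = true := by decide +kernel
def p12_17_0_56 : pfC (piC [(nat_lit 40745421), (nat_lit 25257288), (nat_lit 16296408)] (nat_lit 22633645)) p12_17_0 (nat_lit 3) (nat_lit 56) (nat_lit 57) = true := by decide +kernel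
def p12_17_0_57 : pfC (piC [(nat_lit 40745421), (nat_lit 25257288), (nat_lit 16296408)] (nat_lit 22633645)) p12_17_0 (nat_lit 3) (nat_lit 57) (nat_lit 58) = true := by decide +kernel
def p12_17_0_58 : pfC (piC [(nat_lit 40745421), (nat_lit 25257288), (nat_lit 16296408)] (nat_lit 22633645)) p12_17_0 (nat_lit 3) (nat_lit 58) (nat_lit 59) = true := by decide +kernel
def p12_17_0_59 : pfC (piC [(nat_lit 40745421), (nat_lit 25257288), (nat_lit 16296408)] (nat_lit 22633645)) p12_17_0 (nat_lit 3) (nat_lit 59) (nat_lit 60) = true := by decide +kernel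
def p12_17_0_60 : pfC (piC [(nat_lit 40745421), (nat_lit 25257288), (nat_lit 16296408)] (nat_lit 22633645)) p12_17_0 (nat_lit 3) (nat_lit 60) (nat_lit 61) = true := by decide +kernel
def p12_17_0_61 : pfC (piC [(nat_lit 40745421), (nat_lit 25257288), (nat_lit 16296408)] (nat_lit 22633645)) p12_17_0 (nat_lit 3) (nat_lit 61) (nat_lit 62) = true := by decide +kernel
def p12_17_0_62 : pfC (piC [(nat_lit 40745421), (nat_lit 25257288), (nat_lit 16296408)] (nat_lit 22633645)) p12_17_0 (nat_lit 3) (nat_lit 62) (nat_lit 63) = true := by decide +kernel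
def p12_17_0_63 : pfC (piC [(nat_lit 40745421), (nat_lit 25257288), (nat_lit 16296408)] (nat_lit 22633645)) p12_17_0 (nat_lit 3) (nat_lit 63) (nat_lit 64) = true := by decide +kernel
def p12_17_0_64 : pfC (piC [(nat_lit 40745421), (nat_lit 25257288), (nat_lit 16296408)] (nat_lit 22633645)) p12_17_0 (nat_lit 3) (nat_lit 64) (nat_lit 65) = true := by decide +kernel
def p12_17_0_65 : pfC (piC [(nat_lit 40745421), (nat_lit 25257288), (nat_lit 16296408)] (nat_lit 22633645)) p12_17_0 (nat_lit 3) (nat_lit 65) (nat_lit 66) = true := by decide +kernel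
def p12_17_0_66 : pfC (piC [(nat_lit 40745421), (nat_lit 25257288), (nat_lit 16296408)] (nat_lit 22633645)) p12_17_0 (nat_lit 3) (nat_lit 66) (nat_lit 67) = true := by decide +kernel
def p12_17_0_67 : pfC (piC [(nat_lit 40745421), (nat_lit 25257288), (nat_lit 16296408)] (nat_lit 22633645)) p12_17_0 (nat_lit 3) (nat_lit 67) (nat_lit 68) = true := by decide +kernel
def p12_17_0_68 : pfC (piC [(nat_lit 40745421), (nat_lit 25257288), (nat_lit 16296408)] (nat_lit 22633645)) p12_17_0 (nat_lit 3) (nat_lit 68) (nat_lit 69) = true := by decide +kernel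
def p12_17_0_69 : pfC (piC [(nat_lit 40745421), (nat_lit 25257288), (nat_lit 16296408)] (nat_lit 22633645)) p12_17_0 (nat_lit 3) (nat_lit 69) (nat_lit 70) = true := by decide +kernel
def p12_17_0_70 : pfC (piC [(nat_lit 40745421), (nat_lit 25257288), (nat_lit 16296408)] (nat_lit 22633645)) p12_17_0 (nat_lit 3) (nat_lit 70) (nat_lit 71) = true := by decide +kernel
def p12_17_0_71 : pfC (piC [(nat_lit 40745421), (nat_lit 25257288), (nat_lit 16296408)] (nat_lit 22633645)) p12_17_0 (nat_lit 3) (nat_lit 71) (nat_lit 72) = true := by decide +kernel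
def p12_17_0_72 : pfC (piC [(nat_lit 40745421), (nat_lit 25257288), (nat_lit 16296408)] (nat_lit 22633645)) p12_17_0 (nat_lit 3) (nat_lit 72) (nat_lit 73) = true := by decide +kernel
def p12_17_0_73 : pfC (piC [(nat_lit 40745421), (nat_lit 25257288), (nat_lit 16296408)] (nat_lit 22633645)) p12_17_0 (nat_lit 3) (nat_lit 73) (nat_lit 74) = true := by decide +kernel
def p12_17_0_74 : pfC (piC [(nat_lit 40745421), (nat_lit 25257288), (nat_lit 16296408)] (nat_lit 22633645)) p12_17_0 (nat_lit 3) (nat_lit 74) (nat_lit 75) = true := by decide +kernel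
def p12_17_0_75 : pfC (piC [(nat_lit 40745421), (nat_lit 25257288), (nat_lit 16296408)] (nat_lit 22633645)) p12_17_0 (nat_lit 3) (nat_lit 75) (nat_lit 76) = true := by decide +kernel
def p12_17_0_76 : pfC (piC [(nat_lit 40745421), (nat_lit 25257288), (nat_lit 16296408)] (nat_lit 22633645)) p12_17_0 (nat_lit 3) (nat_lit 76) (nat_lit 77) = true := by decide +kernel
def p12_17_0_77 : pfC (piC [(nat_lit 40745421), (nat_lit 25257288), (nat_lit 16296408)] (nat_lit 22633645)) p12_17_0 (nat_lit 3) (nat_lit 77) (nat_lit 78) = true := by decide +kernel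
def p12_17_0_78 : pfC (piC [(nat_lit 40745421), (nat_lit 25257288), (nat_lit 16296408)] (nat_lit 22633645)) p12_17_0 (nat_lit 3) (nat_lit 78) (nat_lit 79) = true := by decide +kernel
def p12_17_0_79 : pfC (piC [(nat_lit 40745421), (nat_lit 25257288), (nat_lit 16296408)] (nat_lit 22633645)) p12_17_0 (nat_lit 3) (nat_lit 79) (nat_lit 80) = true := by decide +kernel
def p12_17_0_80 : pfC (piC [(nat_lit 40745421), (nat_lit 25257288), (nat_lit 16296408)] (nat_lit 22633645)) p12_17_0 (nat_lit 3) (nat_lit 80) (nat_lit 81) = true := by decide +kernel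
def p12_17_0_81 : pfC (piC [(nat_lit 40745421), (nat_lit 25257288), (nat_lit 16296408)] (nat_lit 22633645)) p12_17_0 (nat_lit 3) (nat_lit 81) (nat_lit 82) = true := by decide +kernel
def p12_17_0_82 : pfC (piC [(nat_lit 40745421), (nat_lit 25257288), (nat_lit 16296408)] (nat_lit 22633645)) p12_17_0 (nat_lit 3) (nat_lit 82) (nat_lit 83) = true := by decide +kernel
def p12_17_0_83 : pfC (piC [(nat_lit 40745421), (nat_lit 25257288), (nat_lit 16296408)] (nat_lit 22633645)) p12_17_0 (nat_lit 3) (nat_lit 83) (nat_lit 84) = true := by decide +kernel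
def p12_17_0_84 : pfC (piC [(nat_lit 40745421), (nat_lit 25257288), (nat_lit 16296408)] (nat_lit 22633645)) p12_17_0 (nat_lit 3) (nat_lit 84) (nat_lit 85) = true := by decide +kernel
def p12_17_0_85 : pfC (piC [(nat_lit 40745421), (nat_lit 25257288), (nat_lit 16296408)] (nat_lit 22633645)) p12_17_0 (nat_lit 3) (nat_lit 85) (nat_lit 86) = true := by decide +kernel
def p12_17_0_86 : pfC (piC [(nat_lit 40745421), (nat_lit 25257288), (nat_lit 16296408)] (nat_lit 22633645)) p12_17_0 (nat_lit 3) (nat_lit 86) (nat_lit 87) = true := by decide +kernel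
def p12_17_0_87 : pfC (piC [(nat_lit 40745421), (nat_lit 25257288), (nat_lit 16296408)] (nat_lit 22633645)) p12_17_0 (nat_lit 3) (nat_lit 87) (nat_lit 88) = true := by decide +kernel
def p12_17_0_88 : pfC (piC [(nat_lit 40745421), (nat_lit 25257288), (nat_lit 16296408)] (nat_lit 22633645)) p12_17_0 (nat_lit 3) (nat_lit 88) (nat_lit 89) = true := by decide +kernel
def p12_17_0_89 : pfC (piC [(nat_lit 40745421), (nat_lit 25257288), (nat_lit 16296408)] (nat_lit 22633645)) p12_17_0 (nat_lit 3) (nat_lit 89) (nat_lit 90) = true := by decide +kernel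
def p12_17_0_90 : pfC (piC [(nat_lit 40745421), (nat_lit 25257288), (nat_lit 16296408)] (nat_lit 22633645)) p12_17_0 (nat_lit 3) (nat_lit 90) (nat_lit 91) = true := by decide +kernel
def p12_17_0_91 : pfC (piC [(nat_lit 40745421), (nat_lit 25257288), (nat_lit 16296408)] (nat_lit 22633645)) p12_17_0 (nat_lit 3) (nat_lit 91) (nat_lit 92) = true := by decide +kernel
def p12_17_0_92 : pfC (piC [(nat_lit 40745421), (nat_lit 25257288), (nat_lit 16296408)] (nat_lit 22633645)) p12_17_0 (nat_lit 3) (nat_lit 92) (nat_lit 93) = true := by decide +kernel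
def p12_17_0_93 : pfC (piC [(nat_lit 40745421), (nat_lit 25257288), (nat_lit 16296408)] (nat_lit 22633645)) p12_17_0 (nat_lit 3) (nat_lit 93) (nat_lit 94) = true := by decide +kernel
def p12_17_0_94 : pfC (piC [(nat_lit 40745421), (nat_lit 25257288), (nat_lit 16296408)] (nat_lit 22633645)) p12_17_0 (nat_lit 3) (nat_lit 94) (nat_lit 95) = true := by decide +kernel
def p12_17_0_95 : pfC (piC [(nat_lit 40745421), (nat_lit 25257288), (nat_lit 16296408)] (nat_lit 22633645)) p12_17_0 (nat_lit 3) (nat_lit 95) (nat_lit 96) = true := by decide +kernel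
def p12_17_0_96 : pfC (piC [(nat_lit 40745421), (nat_lit 25257288), (nat_lit 16296408)] (nat_lit 22633645)) p12_17_0 (nat_lit 3) (nat_lit 96) (nat_lit 97) = true := by decide +kernel
def p12_17_0_97 : pfC (piC [(nat_lit 40745421), (nat_lit 25257288), (nat_lit 16296408)] (nat_lit 22633645)) p12_17_0 (nat_lit 3) (nat_lit 97) (nat_lit 98) = true := by decide +kernel
def p12_17_0_98 : pfC (piC [(nat_lit 40745421), (nat_lit 25257288), (nat_lit 16296408)] (nat_lit 22633645)) p12_17_0 (nat_lit 3) (nat_lit 98) (nat_lit 99) = true := by decide +kernel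
def p12_17_0_99 : pfC (piC [(nat_lit 40745421), (nat_lit 25257288), (nat_lit 16296408)] (nat_lit 22633645)) p12_17_0 (nat_lit 3) (nat_lit 99) (nat_lit 100) = true := by decide +kernel
def p12_17_0_100 : pfC (piC [(nat_lit 40745421), (nat_lit 25257288), (nat_lit 16296408)] (nat_lit 22633645)) p12_17_0 (nat_lit 3) (nat_lit 100) (nat_lit 101) = true := by decide +kernel
def p12_17_0_101 : pfC (piC [(nat_lit 40745421), (nat_lit 25257288), (nat_lit 16296408)] (nat_lit 22633645)) p12_17_0 (nat_lit 3) (nat_lit 101) (nat_lit 102) = true := by decide +kernel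
def p12_17_0_102 : pfC (piC [(nat_lit 40745421), (nat_lit 25257288), (nat_lit 16296408)] (nat_lit 22633645)) p12_17_0 (nat_lit 3) (nat_lit 102) (nat_lit 103) = true := by decide +kernel
def p12_17_0_103 : pfC (piC [(nat_lit 40745421), (nat_lit 25257288), (nat_lit 16296408)] (nat_lit 22633645)) p12_17_0 (nat_lit 3) (nat_lit 103) (nat_lit 104) = true := by decide +kernel
def p12_17_0_104 : pfC (piC [(nat_lit 40745421), (nat_lit 25257288), (nat_lit 16296408)] (nat_lit 22633645)) p12_17_0 (nat_lit 3) (nat_lit 104) (nat_lit 105) = true := by decide +kernel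
def p12_17_0_105 : pfC (piC [(nat_lit 40745421), (nat_lit 25257288), (nat_lit 16296408)] (nat_lit 22633645)) p12_17_0 (nat_lit 3) (nat_lit 105) (nat_lit 106) = true := by decide +kernel
def p12_17_0_106 : pfC (piC [(nat_lit 40745421), (nat_lit 25257288), (nat_lit 16296408)] (nat_lit 22633645)) p12_17_0 (nat_lit 3) (nat_lit 106) (nat_lit 107) = true := by decide +kernel
def p12_17_0_107 : pfC (piC [(nat_lit 40745421), (nat_lit 25257288), (nat_lit 16296408)] (nat_lit 22633645)) p12_17_0 (nat_lit 3) (nat_lit 107) (nat_lit 108) = true := by decide +kernel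
def p12_17_0_108 : pfC (piC [(nat_lit 40745421), (nat_lit 25257288), (nat_lit 16296408)] (nat_lit 22633645)) p12_17_0 (nat_lit 3) (nat_lit 108) (nat_lit 109) = true := by decide +kernel
def p12_17_0_109 : pfC (piC [(nat_lit 40745421), (nat_lit 25257288), (nat_lit 16296408)] (nat_lit 22633645)) p12_17_0 (nat_lit 3) (nat_lit 109) (nat_lit 110) = true := by decide +kernel
def p12_17_0_110 : pfC (piC [(nat_lit 40745421), (nat_lit 25257288), (nat_lit 16296408)] (nat_lit 22633645)) p12_17_0 (nat_lit 3) (nat_lit 110) (nat_lit 111) = true := by decide +kernel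
def p12_17_0_111 : pfC (piC [(nat_lit 40745421), (nat_lit 25257288), (nat_lit 16296408)] (nat_lit 22633645)) p12_17_0 (nat_lit 3) (nat_lit 111) (nat_lit 112) = true := by decide +kernel
def p12_17_0_112 : pfC (piC [(nat_lit 40745421), (nat_lit 25257288), (nat_lit 16296408)] (nat_lit 22633645)) p12_17_0 (nat_lit 3) (nat_lit 112) (nat_lit 113) = true := by decide +kernel
def p12_17_0_113 : pfC (piC [(nat_lit 40745421), (nat_lit 25257288), (nat_lit 16296408)] (nat_lit 22633645)) p12_17_0 (nat_lit 3) (nat_lit 113) (nat_lit 114) = true := by decide +kernel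
def p12_17_0_114 : pfC (piC [(nat_lit 40745421), (nat_lit 25257288), (nat_lit 16296408)] (nat_lit 22633645)) p12_17_0 (nat_lit 3) (nat_lit 114) (nat_lit 115) = true := by decide +kernel
def p12_17_0_115 : pfC (piC [(nat_lit 40745421), (nat_lit 25257288), (nat_lit 16296408)] (nat_lit 22633645)) p12_17_0 (nat_lit 3) (nat_lit 115) (nat_lit 116) = true := by decide +kernel
def p12_17_0_116 : pfC (piC [(nat_lit 40745421), (nat_lit 25257288), (nat_lit 16296408)] (nat_lit 22633645)) p12_17_0 (nat_lit 3) (nat_lit 116) (nat_lit 117) = true := by decide +kernel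
def p12_17_0_117 : pfC (piC [(nat_lit 40745421), (nat_lit 25257288), (nat_lit 16296408)] (nat_lit 22633645)) p12_17_0 (nat_lit 3) (nat_lit 117) (nat_lit 118) = true := by decide +kernel
def p12_17_0_118 : pfC (piC [(nat_lit 40745421), (nat_lit 25257288), (nat_lit 16296408)] (nat_lit 22633645)) p12_17_0 (nat_lit 3) (nat_lit 118) (nat_lit 119) = true := by decide +kernel
def p12_17_0_119 : pfC (piC [(nat_lit 40745421), (nat_lit 25257288), (nat_lit 16296408)] (nat_lit 22633645)) p12_17_0 (nat_lit 3) (nat_lit 119) (nat_lit 120) = true := by decide +kernel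
def p12_17_0_120 : pfC (piC [(nat_lit 40745421), (nat_lit 25257288), (nat_lit 16296408)] (nat_lit 22633645)) p12_17_0 (nat_lit 3) (nat_lit 120) (nat_lit 121) = true := by decide +kernel
def p12_17_0_121 : pfC (piC [(nat_lit 40745421), (nat_lit 25257288), (nat_lit 16296408)] (nat_lit 22633645)) p12_17_0 (nat_lit 3) (nat_lit 121) (nat_lit 122) = true := by decide +kernel
def p12_17_0_122 : pfC (piC [(nat_lit 40745421), (nat_lit 25257288), (nat_lit 16296408)] (nat_lit 22633645)) p12_17_0 (nat_lit 3) (nat_lit 122) (nat_lit 123) = true := by decide +kernel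
def p12_17_0_123 : pfC (piC [(nat_lit 40745421), (nat_lit 25257288), (nat_lit 16296408)] (nat_lit 22633645)) p12_17_0 (nat_lit 3) (nat_lit 123) (nat_lit 124) = true := by decide +kernel
def p12_17_0_124 : pfC (piC [(nat_lit 40745421), (nat_lit 25257288), (nat_lit 16296408)] (nat_lit 22633645)) p12_17_0 (nat_lit 3) (nat_lit 124) (nat_lit 125) = true := by decide +kernel
def p12_17_0_125 : pfC (piC [(nat_lit 40745421), (nat_lit 25257288), (nat_lit 16296408)] (nat_lit 22633645)) p12_17_0 (nat_lit 3) (nat_lit 125) (nat_lit 126) = true := by decide +kernel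
def p12_17_0_126 : pfC (piC [(nat_lit 40745421), (nat_lit 25257288), (nat_lit 16296408)] (nat_lit 22633645)) p12_17_0 (nat_lit 3) (nat_lit 126) (nat_lit 127) = true := by decide +kernel
def p12_17_0_127 : pfC (piC [(nat_lit 40745421), (nat_lit 25257288), (nat_lit 16296408)] (nat_lit 22633645)) p12_17_0 (nat_lit 3) (nat_lit 127) (nat_lit 128) = true := by decide +kernel
def p12_17_0_128 : pfC (piC [(nat_lit 40745421), (nat_lit 25257288), (nat_lit 16296408)] (nat_lit 22633645)) p12_17_0 (nat_lit 3) (nat_lit 128) (nat_lit 129) = true := by decide +kernel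
def p12_17_0_129 : pfC (piC [(nat_lit 40745421), (nat_lit 25257288), (nat_lit 16296408)] (nat_lit 22633645)) p12_17_0 (nat_lit 3) (nat_lit 129) (nat_lit 130) = true := by decide +kernel
def p12_17_0_130 : pfC (piC [(nat_lit 40745421), (nat_lit 25257288), (nat_lit 16296408)] (nat_lit 22633645)) p12_17_0 (nat_lit 3) (nat_lit 130) (nat_lit 131) = true := by decide +kernel
def p12_17_0_131 : pfC (piC [(nat_lit 40745421), (nat_lit 25257288), (nat_lit 16296408)] (nat_lit 22633645)) p12_17_0 (nat_lit 3) (nat_lit 131) (nat_lit 132) = true := by decide +kernel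
def p12_17_0_132 : pfC (piC [(nat_lit 40745421), (nat_lit 25257288), (nat_lit 16296408)] (nat_lit 22633645)) p12_17_0 (nat_lit 3) (nat_lit 132) (nat_lit 133) = true := by decide +kernel
def p12_17_0_133 : pfC (piC [(nat_lit 40745421), (nat_lit 25257288), (nat_lit 16296408)] (nat_lit 22633645)) p12_17_0 (nat_lit 3) (nat_lit 133) (nat_lit 134) = true := by decide +kernel
def p12_17_0_134 : pfC (piC [(nat_lit 40745421), (nat_lit 25257288), (nat_lit 16296408)] (nat_lit 22633645)) p12_17_0 (nat_lit 3) (nat_lit 134) (nat_lit 135) = true := by decide +kernel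
def p12_17_0_135 : pfC (piC [(nat_lit 40745421), (nat_lit 25257288), (nat_lit 16296408)] (nat_lit 22633645)) p12_17_0 (nat_lit 3) (nat_lit 135) (nat_lit 136) = true := by decide +kernel
def p12_17_0_136 : pfC (piC [(nat_lit 40745421), (nat_lit 25257288), (nat_lit 16296408)] (nat_lit 22633645)) p12_17_0 (nat_lit 3) (nat_lit 136) (nat_lit 137) = true := by decide +kernel
def p12_17_0_137 : pfC (piC [(nat_lit 40745421), (nat_lit 25257288), (nat_lit 16296408)] (nat_lit 22633645)) p12_17_0 (nat_lit 3) (nat_lit 137) (nat_lit 138) = true := by decide +kernel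
def p12_17_0_138 : pfC (piC [(nat_lit 40745421), (nat_lit 25257288), (nat_lit 16296408)] (nat_lit 22633645)) p12_17_0 (nat_lit 3) (nat_lit 138) (nat_lit 139) = true := by decide +kernel
def p12_17_0_139 : pfC (piC [(nat_lit 40745421), (nat_lit 25257288), (nat_lit 16296408)] (nat_lit 22633645)) p12_17_0 (nat_lit 3) (nat_lit 139) (nat_lit 140) = true := by decide +kernel
def p12_17_0_140 : pfC (piC [(nat_lit 40745421), (nat_lit 25257288), (nat_lit 16296408)] (nat_lit 22633645)) p12_17_0 (nat_lit 3) (nat_lit 140) (nat_lit 141) = true := by decide +kernel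
def p12_17_0_141 : pfC (piC [(nat_lit 40745421), (nat_lit 25257288), (nat_lit 16296408)] (nat_lit 22633645)) p12_17_0 (nat_lit 3) (nat_lit 141) (nat_lit 142) = true := by decide +kernel
def p12_17_0_142 : pfC (piC [(nat_lit 40745421), (nat_lit 25257288), (nat_lit 16296408)] (nat_lit 22633645)) p12_17_0 (nat_lit 3) (nat_lit 142) (nat_lit 143) = true := by decide +kernel
def p12_17_0_143 : pfC (piC [(nat_lit 40745421), (nat_lit 25257288), (nat_lit 16296408)] (nat_lit 22633645)) p12_17_0 (nat_lit 3) (nat_lit 143) (nat_lit 144) = true := by decide +kernel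
def p12_17_0_144 : pfC (piC [(nat_lit 40745421), (nat_lit 25257288), (nat_lit 16296408)] (nat_lit 22633645)) p12_17_0 (nat_lit 3) (nat_lit 144) (nat_lit 145) = true := by decide +kernel
def p12_17_0_145 : pfC (piC [(nat_lit 40745421), (nat_lit 25257288), (nat_lit 16296408)] (nat_lit 22633645)) p12_17_0 (nat_lit 3) (nat_lit 145) (nat_lit 146) = true := by decide +kernel
def p12_17_0_146 : pfC (piC [(nat_lit 40745421), (nat_lit 25257288), (nat_lit 16296408)] (nat_lit 22633645)) p12_17_0 (nat_lit 3) (nat_lit 146) (nat_lit 147) = true := by decide +kernel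
def p12_17_0_147 : pfC (piC [(nat_lit 40745421), (nat_lit 25257288), (nat_lit 16296408)] (nat_lit 22633645)) p12_17_0 (nat_lit 3) (nat_lit 147) (nat_lit 148) = true := by decide +kernel
def p12_17_0_148 : pfC (piC [(nat_lit 40745421), (nat_lit 25257288), (nat_lit 16296408)] (nat_lit 22633645)) p12_17_0 (nat_lit 3) (nat_lit 148) (nat_lit 149) = true := by decide +kernel
def p12_17_0_149 : pfC (piC [(nat_lit 40745421), (nat_lit 25257288), (nat_lit 16296408)] (nat_lit 22633645)) p12_17_0 (nat_lit 3) (nat_lit 149) (nat_lit 150) = true := by decide +kernel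
def p12_17_0_150 : pfC (piC [(nat_lit 40745421), (nat_lit 25257288), (nat_lit 16296408)] (nat_lit 22633645)) p12_17_0 (nat_lit 3) (nat_lit 150) (nat_lit 151) = true := by decide +kernel
def p12_17_0_151 : pfC (piC [(nat_lit 40745421), (nat_lit 25257288), (nat_lit 16296408)] (nat_lit 22633645)) p12_17_0 (nat_lit 3) (nat_lit 151) (nat_lit 152) = true := by decide +kernel
def p12_17_0_152 : pfC (piC [(nat_lit 40745421), (nat_lit 25257288), (nat_lit 16296408)] (nat_lit 22633645)) p12_17_0 (nat_lit 3) (nat_lit 152) (nat_lit 153) = true := by decide +kernel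
def p12_17_0_153 : pfC (piC [(nat_lit 40745421), (nat_lit 25257288), (nat_lit 16296408)] (nat_lit 22633645)) p12_17_0 (nat_lit 3) (nat_lit 153) (nat_lit 154) = true := by decide +kernel
def p12_17_0_154 : pfC (piC [(nat_lit 40745421), (nat_lit 25257288), (nat_lit 16296408)] (nat_lit 22633645)) p12_17_0 (nat_lit 3) (nat_lit 154) (nat_lit 155) = true := by decide +kernel
def p12_17_0_155 : pfC (piC [(nat_lit 40745421), (nat_lit 25257288), (nat_lit 16296408)] (nat_lit 22633645)) p12_17_0 (nat_lit 3) (nat_lit 155) (nat_lit 156) = true := by decide +kernel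
def p12_17_0_156 : pfC (piC [(nat_lit 40745421), (nat_lit 25257288), (nat_lit 16296408)] (nat_lit 22633645)) p12_17_0 (nat_lit 3) (nat_lit 156) (nat_lit 157) = true := by decide +kernel
def p12_17_0_157 : pfC (piC [(nat_lit 40745421), (nat_lit 25257288), (nat_lit 16296408)] (nat_lit 22633645)) p12_17_0 (nat_lit 3) (nat_lit 157) (nat_lit 158) = true := by decide +kernel
def p12_17_0_158 : pfC (piC [(nat_lit 40745421), (nat_lit 25257288), (nat_lit 16296408)] (nat_lit 22633645)) p12_17_0 (nat_lit 3) (nat_lit 158) (nat_lit 159) = true := by decide +kernel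
def p12_17_0_159 : pfC (piC [(nat_lit 40745421), (nat_lit 25257288), (nat_lit 16296408)] (nat_lit 22633645)) p12_17_0 (nat_lit 3) (nat_lit 159) (nat_lit 160) = true := by decide +kernel
def p12_17_0_160 : pfC (piC [(nat_lit 40745421), (nat_lit 25257288), (nat_lit 16296408)] (nat_lit 22633645)) p12_17_0 (nat_lit 3) (nat_lit 160) (nat_lit 161) = true := by decide +kernel
def p12_17_0_161 : pfC (piC [(nat_lit 40745421), (nat_lit 25257288), (nat_lit 16296408)] (nat_lit 22633645)) p12_17_0 (nat_lit 3) (nat_lit 161) (nat_lit 162) = true := by decide +kernel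
def p12_17_0_162 : pfC (piC [(nat_lit 40745421), (nat_lit 25257288), (nat_lit 16296408)] (nat_lit 22633645)) p12_17_0 (nat_lit 3) (nat_lit 162) (nat_lit 163) = true := by decide +kernel
def p12_17_0_163 : pfC (piC [(nat_lit 40745421), (nat_lit 25257288), (nat_lit 16296408)] (nat_lit 22633645)) p12_17_0 (nat_lit 3) (nat_lit 163) (nat_lit 164) = true := by decide +kernel
def p12_17_0_164 : pfC (piC [(nat_lit 40745421), (nat_lit 25257288), (nat_lit 16296408)] (nat_lit 22633645)) p12_17_0 (nat_lit 3) (nat_lit 164) (nat_lit 165) = true := by decide +kernel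
def p12_17_0_165 : pfC (piC [(nat_lit 40745421), (nat_lit 25257288), (nat_lit 16296408)] (nat_lit 22633645)) p12_17_0 (nat_lit 3) (nat_lit 165) (nat_lit 166) = true := by decide +kernel
def p12_17_0_166 : pfC (piC [(nat_lit 40745421), (nat_lit 25257288), (nat_lit 16296408)] (nat_lit 22633645)) p12_17_0 (nat_lit 3) (nat_lit 166) (nat_lit 167) = true := by decide +kernel
def p12_17_0_167 : pfC (piC [(nat_lit 40745421), (nat_lit 25257288), (nat_lit 16296408)] (nat_lit 22633645)) p12_17_0 (nat_lit 3) (nat_lit 167) (nat_lit 168) = true := by decide +kernel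
def p12_17_0_168 : pfC (piC [(nat_lit 40745421), (nat_lit 25257288), (nat_lit 16296408)] (nat_lit 22633645)) p12_17_0 (nat_lit 3) (nat_lit 168) (nat_lit 169) = true := by decide +kernel
def p12_17_0_169 : pfC (piC [(nat_lit 40745421), (nat_lit 25257288), (nat_lit 16296408)] (nat_lit 22633645)) p12_17_0 (nat_lit 3) (nat_lit 169) (nat_lit 170) = true := by decide +kernel
def p12_17_0_170 : pfC (piC [(nat_lit 40745421), (nat_lit 25257288), (nat_lit 16296408)] (nat_lit 22633645)) p12_17_0 (nat_lit 3) (nat_lit 170) (nat_lit 171) = true := by decide +kernel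
def p12_17_0_171 : pfC (piC [(nat_lit 40745421), (nat_lit 25257288), (nat_lit 16296408)] (nat_lit 22633645)) p12_17_0 (nat_lit 3) (nat_lit 171) (nat_lit 172) = true := by decide +kernel
def p12_17_0_172 : pfC (piC [(nat_lit 40745421), (nat_lit 25257288), (nat_lit 16296408)] (nat_lit 22633645)) p12_17_0 (nat_lit 3) (nat_lit 172) (nat_lit 173) = true := by decide +kernel
def p12_17_0_173 : pfC (piC [(nat_lit 40745421), (nat_lit 25257288), (nat_lit 16296408)] (nat_lit 22633645)) p12_17_0 (nat_lit 3) (nat_lit 173) (nat_lit 174) = true := by decide +kernel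
def p12_17_0_174 : pfC (piC [(nat_lit 40745421), (nat_lit 25257288), (nat_lit 16296408)] (nat_lit 22633645)) p12_17_0 (nat_lit 3) (nat_lit 174) (nat_lit 175) = true := by decide +kernel
def p12_17_0_175 : pfC (piC [(nat_lit 40745421), (nat_lit 25257288), (nat_lit 16296408)] (nat_lit 22633645)) p12_17_0 (nat_lit 3) (nat_lit 175) (nat_lit 176) = true := by decide +kernel
def p12_17_0_176 : pfC (piC [(nat_lit 40745421), (nat_lit 25257288), (nat_lit 16296408)] (nat_lit 22633645)) p12_17_0 (nat_lit 3) (nat_lit 176) (nat_lit 177) = true := by decide +kernel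
def p12_17_0_177 : pfC (piC [(nat_lit 40745421), (nat_lit 25257288), (nat_lit 16296408)] (nat_lit 22633645)) p12_17_0 (nat_lit 3) (nat_lit 177) (nat_lit 178) = true := by decide +kernel
def p12_17_0_178 : pfC (piC [(nat_lit 40745421), (nat_lit 25257288), (nat_lit 16296408)] (nat_lit 22633645)) p12_17_0 (nat_lit 3) (nat_lit 178) (nat_lit 179) = true := by decide +kernel
def p12_17_0_179 : pfC (piC [(nat_lit 40745421), (nat_lit 25257288), (nat_lit 16296408)] (nat_lit 22633645)) p12_17_0 (nat_lit 3) (nat_lit 179) (nat_lit 180) = true := by decide +kernel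
def p12_17_0_180 : pfC (piC [(nat_lit 40745421), (nat_lit 25257288), (nat_lit 16296408)] (nat_lit 22633645)) p12_17_0 (nat_lit 3) (nat_lit 180) (nat_lit 181) = true := by decide +kernel
def p12_17_0_181 : pfC (piC [(nat_lit 40745421), (nat_lit 25257288), (nat_lit 16296408)] (nat_lit 22633645)) p12_17_0 (nat_lit 3) (nat_lit 181) (nat_lit 182) = true := by decide +kernel
def p12_17_0_182 : pfC (piC [(nat_lit 40745421), (nat_lit 25257288), (nat_lit 16296408)] (nat_lit 22633645)) p12_17_0 (nat_lit 3) (nat_lit 182) (nat_lit 183) = true := by decide +kernel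
def p12_17_0_183 : pfC (piC [(nat_lit 40745421), (nat_lit 25257288), (nat_lit 16296408)] (nat_lit 22633645)) p12_17_0 (nat_lit 3) (nat_lit 183) (nat_lit 184) = true := by decide +kernel
def p12_17_0_184 : pfC (piC [(nat_lit 40745421), (nat_lit 25257288), (nat_lit 16296408)] (nat_lit 22633645)) p12_17_0 (nat_lit 3) (nat_lit 184) (nat_lit 185) = true := by decide +kernel
def p12_17_0_185 : pfC (piC [(nat_lit 40745421), (nat_lit 25257288), (nat_lit 16296408)] (nat_lit 22633645)) p12_17_0 (nat_lit 3) (nat_lit 185) (nat_lit 186) = true := by decide +kernel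
def p12_17_0_186 : pfC (piC [(nat_lit 40745421), (nat_lit 25257288), (nat_lit 16296408)] (nat_lit 22633645)) p12_17_0 (nat_lit 3) (nat_lit 186) (nat_lit 187) = true := by decide +kernel
def p12_17_0_187 : pfC (piC [(nat_lit 40745421), (nat_lit 25257288), (nat_lit 16296408)] (nat_lit 22633645)) p12_17_0 (nat_lit 3) (nat_lit 187) (nat_lit 188) = true := by decide +kernel
def p12_17_0_188 : pfC (piC [(nat_lit 40745421), (nat_lit 25257288), (nat_lit 16296408)] (nat_lit 22633645)) p12_17_0 (nat_lit 3) (nat_lit 188) (nat_lit 189) = true := by decide +kernel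
def p12_17_0_189 : pfC (piC [(nat_lit 40745421), (nat_lit 25257288), (nat_lit 16296408)] (nat_lit 22633645)) p12_17_0 (nat_lit 3) (nat_lit 189) (nat_lit 190) = true := by decide +kernel
def p12_17_0_190 : pfC (piC [(nat_lit 40745421), (nat_lit 25257288), (nat_lit 16296408)] (nat_lit 22633645)) p12_17_0 (nat_lit 3) (nat_lit 190) (nat_lit 191) = true := by decide +kernel
def p12_17_0_191 : pfC (piC [(nat_lit 40745421), (nat_lit 25257288), (nat_lit 16296408)] (nat_lit 22633645)) p12_17_0 (nat_lit 3) (nat_lit 191) (nat_lit 192) = true := by decide +kernel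
def p12_17_0_192 : pfC (piC [(nat_lit 40745421), (nat_lit 25257288), (nat_lit 16296408)] (nat_lit 22633645)) p12_17_0 (nat_lit 3) (nat_lit 192) (nat_lit 193) = true := by decide +kernel
def p12_17_0_193 : pfC (piC [(nat_lit 40745421), (nat_lit 25257288), (nat_lit 16296408)] (nat_lit 22633645)) p12_17_0 (nat_lit 3) (nat_lit 193) (nat_lit 194) = true := by decide +kernel
def p12_17_0_194 : pfC (piC [(nat_lit 40745421), (nat_lit 25257288), (nat_lit 16296408)] (nat_lit 22633645)) p12_17_0 (nat_lit 3) (nat_lit 194) (nat_lit 195) = true := by decide +kernel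
def p12_17_0_195 : pfC (piC [(nat_lit 40745421), (nat_lit 25257288), (nat_lit 16296408)] (nat_lit 22633645)) p12_17_0 (nat_lit 3) (nat_lit 195) (nat_lit 196) = true := by decide +kernel
def p12_17_0_196 : pfC (piC [(nat_lit 40745421), (nat_lit 25257288), (nat_lit 16296408)] (nat_lit 22633645)) p12_17_0 (nat_lit 3) (nat_lit 196) (nat_lit 197) = true := by decide +kernel
def p12_17_0_197 : pfC (piC [(nat_lit 40745421), (nat_lit 25257288), (nat_lit 16296408)] (nat_lit 22633645)) p12_17_0 (nat_lit 3) (nat_lit 197) (nat_lit 198) = true := by decide +kernel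
def p12_17_0_198 : pfC (piC [(nat_lit 40745421), (nat_lit 25257288), (nat_lit 16296408)] (nat_lit 22633645)) p12_17_0 (nat_lit 3) (nat_lit 198) (nat_lit 199) = true := by decide +kernel
def p12_17_0_199 : pfC (piC [(nat_lit 40745421), (nat_lit 25257288), (nat_lit 16296408)] (nat_lit 22633645)) p12_17_0 (nat_lit 3) (nat_lit 199) (nat_lit 200) = true := by decide +kernel
def p12_17_0_200 : pfC (piC [(nat_lit 40745421), (nat_lit 25257288), (nat_lit 16296408)] (nat_lit 22633645)) p12_17_0 (nat_lit 3) (nat_lit 200) (nat_lit 201) = true := by decide +kernel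
def p12_17_0_201 : pfC (piC [(nat_lit 40745421), (nat_lit 25257288), (nat_lit 16296408)] (nat_lit 22633645)) p12_17_0 (nat_lit 3) (nat_lit 201) (nat_lit 202) = true := by decide +kernel
def p12_17_0_202 : pfC (piC [(nat_lit 40745421), (nat_lit 25257288), (nat_lit 16296408)] (nat_lit 22633645)) p12_17_0 (nat_lit 3) (nat_lit 202) (nat_lit 203) = true := by decide +kernel
def p12_17_0_203 : pfC (piC [(nat_lit 40745421), (nat_lit 25257288), (nat_lit 16296408)] (nat_lit 22633645)) p12_17_0 (nat_lit 3) (nat_lit 203) (nat_lit 204) = true := by decide +kernel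
def p12_17_0_204 : pfC (piC [(nat_lit 40745421), (nat_lit 25257288), (nat_lit 16296408)] (nat_lit 22633645)) p12_17_0 (nat_lit 3) (nat_lit 204) (nat_lit 205) = true := by decide +kernel
def p12_17_0_205 : pfC (piC [(nat_lit 40745421), (nat_lit 25257288), (nat_lit 16296408)] (nat_lit 22633645)) p12_17_0 (nat_lit 3) (nat_lit 205) (nat_lit 206) = true := by decide +kernel
def p12_17_0_206 : pfC (piC [(nat_lit 40745421), (nat_lit 25257288), (nat_lit 16296408)] (nat_lit 22633645)) p12_17_0 (nat_lit 3) (nat_lit 206) (nat_lit 207) = true := by decide +kernel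
def p12_17_0_207 : pfC (piC [(nat_lit 40745421), (nat_lit 25257288), (nat_lit 16296408)] (nat_lit 22633645)) p12_17_0 (nat_lit 3) (nat_lit 207) (nat_lit 208) = true := by decide +kernel
def p12_17_0_208 : pfC (piC [(nat_lit 40745421), (nat_lit 25257288), (nat_lit 16296408)] (nat_lit 22633645)) p12_17_0 (nat_lit 3) (nat_lit 208) (nat_lit 209) = true := by decide +kernel
def p12_17_0_209 : pfC (piC [(nat_lit 40745421), (nat_lit 25257288), (nat_lit 16296408)] (nat_lit 22633645)) p12_17_0 (nat_lit 3) (nat_lit 209) (nat_lit 210) = true := by decide +kernel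
def p12_17_0_210 : pfC (piC [(nat_lit 40745421), (nat_lit 25257288), (nat_lit 16296408)] (nat_lit 22633645)) p12_17_0 (nat_lit 3) (nat_lit 210) (nat_lit 211) = true := by decide +kernel
def p12_17_0_211 : pfC (piC [(nat_lit 40745421), (nat_lit 25257288), (nat_lit 16296408)] (nat_lit 22633645)) p12_17_0 (nat_lit 3) (nat_lit 211) (nat_lit 212) = true := by decide +kernel
def p12_17_0_212 : pfC (piC [(nat_lit 40745421), (nat_lit 25257288), (nat_lit 16296408)] (nat_lit 22633645)) p12_17_0 (nat_lit 3) (nat_lit 212) (nat_lit 213) = true := by decide +kernel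
def p12_17_0_213 : pfC (piC [(nat_lit 40745421), (nat_lit 25257288), (nat_lit 16296408)] (nat_lit 22633645)) p12_17_0 (nat_lit 3) (nat_lit 213) (nat_lit 214) = true := by decide +kernel
def p12_17_0_214 : pfC (piC [(nat_lit 40745421), (nat_lit 25257288), (nat_lit 16296408)] (nat_lit 22633645)) p12_17_0 (nat_lit 3) (nat_lit 214) (nat_lit 215) = true := by decide +kernel
def p12_17_0_215 : pfC (piC [(nat_lit 40745421), (nat_lit 25257288), (nat_lit 16296408)] (nat_lit 22633645)) p12_17_0 (nat_lit 3) (nat_lit 215) (nat_lit 216) = true := by decide +kernel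
def p12_17_0_216 : pfC (piC [(nat_lit 40745421), (nat_lit 25257288), (nat_lit 16296408)] (nat_lit 22633645)) p12_17_0 (nat_lit 3) (nat_lit 216) (nat_lit 217) = true := by decide +kernel
def p12_17_0_217 : pfC (piC [(nat_lit 40745421), (nat_lit 25257288), (nat_lit 16296408)] (nat_lit 22633645)) p12_17_0 (nat_lit 3) (nat_lit 217) (nat_lit 218) = true := by decide +kernel
def p12_17_0_218 : pfC (piC [(nat_lit 40745421), (nat_lit 25257288), (nat_lit 16296408)] (nat_lit 22633645)) p12_17_0 (nat_lit 3) (nat_lit 218) (nat_lit 219) = true := by decide +kernel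
def p12_17_0_219 : pfC (piC [(nat_lit 40745421), (nat_lit 25257288), (nat_lit 16296408)] (nat_lit 22633645)) p12_17_0 (nat_lit 3) (nat_lit 219) (nat_lit 220) = true := by decide +kernel
def p12_17_0_220 : pfC (piC [(nat_lit 40745421), (nat_lit 25257288), (nat_lit 16296408)] (nat_lit 22633645)) p12_17_0 (nat_lit 3) (nat_lit 220) (nat_lit 221) = true := by decide +kernel
def p12_17_0_221 : pfC (piC [(nat_lit 40745421), (nat_lit 25257288), (nat_lit 16296408)] (nat_lit 22633645)) p12_17_0 (nat_lit 3) (nat_lit 221) (nat_lit 222) = true := by decide +kernel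
def p12_17_0_222 : pfC (piC [(nat_lit 40745421), (nat_lit 25257288), (nat_lit 16296408)] (nat_lit 22633645)) p12_17_0 (nat_lit 3) (nat_lit 222) (nat_lit 223) = true := by decide +kernel
def p12_17_0_223 : pfC (piC [(nat_lit 40745421), (nat_lit 25257288), (nat_lit 16296408)] (nat_lit 22633645)) p12_17_0 (nat_lit 3) (nat_lit 223) (nat_lit 224) = true := by decide +kernel
def p12_17_0_224 : pfC (piC [(nat_lit 40745421), (nat_lit 25257288), (nat_lit 16296408)] (nat_lit 22633645)) p12_17_0 (nat_lit 3) (nat_lit 224) (nat_lit 225) = true := by decide +kernel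
def p12_17_0_225 : pfC (piC [(nat_lit 40745421), (nat_lit 25257288), (nat_lit 16296408)] (nat_lit 22633645)) p12_17_0 (nat_lit 3) (nat_lit 225) (nat_lit 226) = true := by decide +kernel
def p12_17_0_226 : pfC (piC [(nat_lit 40745421), (nat_lit 25257288), (nat_lit 16296408)] (nat_lit 22633645)) p12_17_0 (nat_lit 3) (nat_lit 226) (nat_lit 227) = true := by decide +kernel
def p12_17_0_227 : pfC (piC [(nat_lit 40745421), (nat_lit 25257288), (nat_lit 16296408)] (nat_lit 22633645)) p12_17_0 (nat_lit 3) (nat_lit 227) (nat_lit 228) = true := by decide +kernel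
def p12_17_0_228 : pfC (piC [(nat_lit 40745421), (nat_lit 25257288), (nat_lit 16296408)] (nat_lit 22633645)) p12_17_0 (nat_lit 3) (nat_lit 228) (nat_lit 229) = true := by decide +kernel
theorem p12_17_0_T : PfS (PiF n12_17.reverse (nat_lit 22633645)) p12_17_0 (nat_lit 3) [] 0 :=
  pftab_of (los := [(nat_lit 40745421), (nat_lit 25257288), (nat_lit 16296408)]) (by decide +kernel) (hi := (nat_lit 229)) (PfP.trans (PfP.trans (PfP.trans (PfP.trans (PfP.trans (PfP.trans (PfP.trans (PfP.trans (PfP.trans (PfP.trans (PfP.trans (PfP.trans (PfP.trans (PfP.trans (PfP.trans (PfP.trans (PfP.trans (PfP.trans (PfP.trans (PfP.trans (PfP.trans (PfP.trans (PfP.trans (PfP.trans (PfP.trans (PfP.trans (PfP.trans (PfP.trans (PfP.trans (PfP.trans (PfP.trans (PfP.trans (PfP.trans (PfP.trans (PfP.trans (PfP.trans (PfP.trans (PfP.trans (PfP.trans (PfP.trans (PfP.trans (PfP.trans (PfP.trans (PfP.trans (PfP.trans (PfP.trans (PfP.trans (PfP.trans (PfP.trans (PfP.trans (PfP.trans (PfP.trans (PfP.trans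 (PfP.trans (PfP.trans (PfP.trans (PfP.trans (PfP.trans (PfP.trans (PfP.trans (PfP.trans (PfP.trans (PfP.trans (PfP.trans (PfP.trans (PfP.trans (PfP.trans (PfP.trans (PfP.trans (PfP.trans (PfP.trans (PfP.trans (PfP.trans (PfP.trans (PfP.trans (PfP.trans (PfP.trans (PfP.trans (PfP.trans (PfP.trans (PfP.trans (PfP.trans (PfP.trans (PfP.trans (PfP.trans (PfP.trans (PfP.trans (PfP.trans (PfP.trans (PfP.trans (PfP.trans (PfP.trans (PfP.trans (PfP.trans (PfP.trans (PfP.trans (PfP.trans (PfP.trans (PfP.trans (PfP.trans (PfP.trans (PfP.trans (PfP.trans (PfP.trans (PfP.trans (PfP.trans (PfP.trans (PfP.trans (PfP.trans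
 (PfP.trans (PfP.trans (PfP.trans (PfP.trans (PfP.trans (PfP.trans (PfP.trans (PfP.trans (PfP.trans (PfP.trans (PfP.trans (PfP.trans (PfP.trans (PfP.trans (PfP.trans (PfP.trans (PfP.trans (PfP.trans (PfP.trans (PfP.trans (PfP.trans (PfP.trans (PfP.trans (PfP.trans (PfP.trans (PfP.trans (PfP.trans (PfP.trans (PfP.trans (PfP.trans (PfP.trans (PfP.trans (PfP.trans (PfP.trans (PfP.trans (PfP.trans (PfP.trans (PfP.trans (PfP.trans (PfP.trans (PfP.trans (PfP.trans (PfP.trans (PfP.trans (PfP.trans (PfP.trans (PfP.trans (PfP.trans (PfP.trans (PfP.trans (PfP.trans (PfP.trans (PfP.trans (PfP.trans (PfP.trans (PfP.trans (PfP.trans (PfP.trans (PfP.trans (PfP.trans (PfP.trans (PfP.trans (PfP.trans (PfP.trans (PfP.trans (PfP.trans (PfP.trans (PfP.trans (PfP.trans (PfP.trans (PfP.trans (PfP.trans (PfP.trans (PfP.trans (PfP.trans (PfP.trans (PfP.trans (PfP.trans (PfP.trans (PfP.trans (PfP.trans (PfP.trans (PfP.trans (PfP.trans (PfP.trans (PfP.trans (PfP.trans (PfP.trans (PfP.trans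 (PfP.trans (PfP.trans (PfP.trans (PfP.trans (PfP.trans (PfP.trans (PfP.trans (PfP.trans (PfP.trans (PfP.trans (PfP.trans (PfP.trans (PfP.trans (PfP.trans (PfP.trans (PfP.trans (PfP.trans (PfP.trans (PfP.trans (PfP.trans
 (PfP.trans (PfP.trans (PfP.trans (PfP.trans (PfP.trans (PfP.trans (PfP.trans (PfP.trans (PfP.trans (PfP.trans (pfC_sound p12_17_0_0) (pfC_sound p12_17_0_1)) (pfC_sound p12_17_0_2)) (pfC_sound p12_17_0_3)) (pfC_sound p12_17_0_4)) (pfC_sound p12_17_0_5)) (pfC_sound p12_17_0_6)) (pfC_sound p12_17_0_7)) (pfC_sound p12_17_0_8)) (pfC_sound p12_17_0_9)) (pfC_sound p12_17_0_10)) (pfC_sound p12_17_0_11)) (pfC_sound p12_17_0_12)) (pfC_sound p12_17_0_13)) (pfC_sound p12_17_0_14)) (pfC_sound p12_17_0_15)) (pfC_sound p12_17_0_16)) (pfC_sound p12_17_0_17)) (pfC_sound p12_17_0_18)) (pfC_sound p12_17_0_19)) (pfC_sound p12_17_0_20)) (pfC_sound p12_17_0_21)) (pfC_sound p12_17_0_22)) (pfC_sound p12_17_0_23)) (pfC_sound p12_17_0_24)) (pfC_sound p12_17_0_25)) (pfC_sound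 p12_17_0_26)) (pfC_sound p12_17_0_27)) (pfC_sound p12_17_0_28)) (pfC_sound p12_17_0_29)) (pfC_sound p12_17_0_30)) (pfC_sound p12_17_0_31)) (pfC_sound p12_17_0_32)) (pfC_sound p12_17_0_33)) (pfC_sound p12_17_0_34)) (pfC_sound p12_17_0_35)) (pfC_sound p12_17_0_36)) (pfC_sound p12_17_0_37)) (pfC_sound p12_17_0_38)) (pfC_sound p12_17_0_39)) (pfC_sound p12_17_0_40)) (pfC_sound p12_17_0_41)) (pfC_sound p12_17_0_42)) (pfC_sound p12_17_0_43))
 (pfC_sound p12_17_0_44)) (pfC_sound p12_17_0_45)) (pfC_sound p12_17_0_46)) (pfC_sound p12_17_0_47)) (pfC_sound p12_17_0_48)) (pfC_sound p12_17_0_49)) (pfC_sound p12_17_0_50)) (pfC_sound p12_17_0_51)) (pfC_sound p12_17_0_52)) (pfC_sound p12_17_0_53)) (pfC_sound p12_17_0_54)) (pfC_sound p12_17_0_55)) (pfC_sound p12_17_0_56)) (pfC_sound p12_17_0_57)) (pfC_sound p12_17_0_58)) (pfC_sound p12_17_0_59)) (pfC_sound p12_17_0_60)) (pfC_sound p12_17_0_61)) (pfC_sound p12_17_0_62)) (pfC_sound p12_17_0_63)) (pfC_sound p12_17_0_64)) (pfC_sound p12_17_0_65))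 (pfC_sound p12_17_0_66)) (pfC_sound p12_17_0_67)) (pfC_sound p12_17_0_68)) (pfC_sound p12_17_0_69)) (pfC_sound p12_17_0_70)) (pfC_sound p12_17_0_71)) (pfC_sound p12_17_0_72)) (pfC_sound p12_17_0_73)) (pfC_sound p12_17_0_74)) (pfC_sound p12_17_0_75)) (pfC_sound p12_17_0_76)) (pfC_sound p12_17_0_77)) (pfC_sound p12_17_0_78)) (pfC_sound p12_17_0_79)) (pfC_sound p12_17_0_80)) (pfC_sound p12_17_0_81)) (pfC_sound p12_17_0_82)) (pfC_sound p12_17_0_83)) (pfC_sound p12_17_0_84)) (pfC_sound p12_17_0_85)) (pfC_sound p12_17_0_86)) (pfC_sound p12_17_0_87)) (pfC_sound p12_17_0_88)) (pfC_sound p12_17_0_89)) (pfC_sound p12_17_0_90)) (pfC_sound p12_17_0_91))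
 (pfC_sound p12_17_0_92)) (pfC_sound p12_17_0_93)) (pfC_sound p12_17_0_94)) (pfC_sound p12_17_0_95)) (pfC_sound p12_17_0_96)) (pfC_sound p12_17_0_97)) (pfC_sound p12_17_0_98)) (pfC_sound p12_17_0_99)) (pfC_sound p12_17_0_100)) (pfC_sound p12_17_0_101)) (pfC_sound p12_17_0_102)) (pfC_sound p12_17_0_103)) (pfC_sound p12_17_0_104)) (pfC_sound p12_17_0_105)) (pfC_sound p12_17_0_106)) (pfC_sound p12_17_0_107)) (pfC_sound p12_17_0_108)) (pfC_sound p12_17_0_109)) (pfC_sound p12_17_0_110)) (pfC_sound p12_17_0_111)) (pfC_sound p12_17_0_112)) (pfC_sound p12_17_0_113)) (pfC_sound p12_17_0_114)) (pfC_sound p12_17_0_115)) (pfC_sound p12_17_0_116)) (pfC_sound p12_17_0_117)) (pfC_sound p12_17_0_118)) (pfC_sound p12_17_0_119)) (pfC_sound p12_17_0_120)) (pfC_sound p12_17_0_121)) (pfC_sound p12_17_0_122)) (pfC_sound p12_17_0_123)) (pfC_sound p12_17_0_124)) (pfC_sound p12_17_0_125)) (pfC_sound p12_17_0_126)) (pfC_sound p12_17_0_127)) (pfC_sound p12_17_0_128)) (pfC_sound p12_17_0_129))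 (pfC_sound p12_17_0_130)) (pfC_sound p12_17_0_131)) (pfC_sound p12_17_0_132)) (pfC_sound p12_17_0_133)) (pfC_sound p12_17_0_134)) (pfC_sound p12_17_0_135)) (pfC_sound p12_17_0_136)) (pfC_sound p12_17_0_137)) (pfC_sound
 p12_17_0_138)) (pfC_sound p12_17_0_139)) (pfC_sound p12_17_0_140)) (pfC_sound p12_17_0_141)) (pfC_sound p12_17_0_142)) (pfC_sound p12_17_0_143)) (pfC_sound p12_17_0_144)) (pfC_sound p12_17_0_145)) (pfC_sound p12_17_0_146)) (pfC_sound p12_17_0_147)) (pfC_sound p12_17_0_148)) (pfC_sound p12_17_0_149)) (pfC_sound p12_17_0_150)) (pfC_sound p12_17_0_151)) (pfC_sound p12_17_0_152)) (pfC_sound p12_17_0_153)) (pfC_sound p12_17_0_154)) (pfC_sound p12_17_0_155)) (pfC_sound p12_17_0_156)) (pfC_sound p12_17_0_157)) (pfC_sound p12_17_0_158)) (pfC_sound p12_17_0_159)) (pfC_sound p12_17_0_160)) (pfC_sound p12_17_0_161)) (pfC_sound p12_17_0_162)) (pfC_sound p12_17_0_163)) (pfC_sound p12_17_0_164)) (pfC_sound p12_17_0_165)) (pfC_sound p12_17_0_166)) (pfC_sound p12_17_0_167))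 (pfC_sound p12_17_0_168)) (pfC_sound p12_17_0_169)) (pfC_sound p12_17_0_170)) (pfC_sound p12_17_0_171)) (pfC_sound p12_17_0_172)) (pfC_sound p12_17_0_173)) (pfC_sound p12_17_0_174)) (pfC_sound p12_17_0_175)) (pfC_sound p12_17_0_176)) (pfC_sound p12_17_0_177)) (pfC_sound p12_17_0_178)) (pfC_sound p12_17_0_179)) (pfC_sound p12_17_0_180)) (pfC_sound p12_17_0_181)) (pfC_sound p12_17_0_182)) (pfC_sound p12_17_0_183)) (pfC_sound
 p12_17_0_184)) (pfC_sound p12_17_0_185)) (pfC_sound p12_17_0_186)) (pfC_sound p12_17_0_187)) (pfC_sound p12_17_0_188)) (pfC_sound p12_17_0_189)) (pfC_sound p12_17_0_190)) (pfC_sound p12_17_0_191)) (pfC_sound p12_17_0_192)) (pfC_sound p12_17_0_193)) (pfC_sound p12_17_0_194)) (pfC_sound p12_17_0_195)) (pfC_sound p12_17_0_196)) (pfC_sound p12_17_0_197)) (pfC_sound p12_17_0_198)) (pfC_sound p12_17_0_199)) (pfC_sound p12_17_0_200)) (pfC_sound p12_17_0_201)) (pfC_sound p12_17_0_202)) (pfC_sound p12_17_0_203)) (pfC_sound p12_17_0_204)) (pfC_sound p12_17_0_205))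 (pfC_sound p12_17_0_206)) (pfC_sound p12_17_0_207)) (pfC_sound p12_17_0_208)) (pfC_sound p12_17_0_209)) (pfC_sound p12_17_0_210)) (pfC_sound p12_17_0_211)) (pfC_sound p12_17_0_212)) (pfC_sound p12_17_0_213)) (pfC_sound p12_17_0_214)) (pfC_sound p12_17_0_215)) (pfC_sound p12_17_0_216)) (pfC_sound p12_17_0_217)) (pfC_sound p12_17_0_218)) (pfC_sound p12_17_0_219)) (pfC_sound p12_17_0_220)) (pfC_sound p12_17_0_221)) (pfC_sound p12_17_0_222)) (pfC_sound p12_17_0_223)) (pfC_sound p12_17_0_224)) (pfC_sound p12_17_0_225)) (pfC_sound p12_17_0_226)) (pfC_sound p12_17_0_227)) (pfC_sound p12_17_0_228)) (by decide +kernel)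

def z12_17_0 : zOK yB12_17 (nat_lit 0) (nat_lit 0) (nat_lit 400) (nat_lit 22633645) (nat_lit 11363143) = true := by decide +kernel
def g12_17_0 : gOK yB12_17.x P12_17 (nat_lit 1396) (q12_17 :: r12_17) (nat_lit 0) (nat_lit 0) (nat_lit 1) (nat_lit 400) (nat_lit 0) (nat_lit 11000000) (nat_lit 12712500) (nat_lit 12712500) [(nat_lit 800), (nat_lit 1600)] = true := by decide +kernel
def v12_17_0 : ivC P12_17 s12_17 w12_17 n12_17 (nat_lit 3) (nat_lit 5320) (nat_lit 0) (nat_lit 0) f176_0_0 f184_0_0 (nat_lit 1) (nat_lit 400) f176_0_400 f184_0_400 (nat_lit 22633645) (nat_lit 11363143) p12_17_0 = true := by decide +kernel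
def p12_17_1 : PF := (PF.cons (PF.cons (PF.cons (PF.leaf (nat_lit 1944575) (nat_lit 8813696) (nat_lit 58295116) (nat_lit 8813696) [(nat_lit 0), (nat_lit 0), (nat_lit 0)]) (PF.cons (PF.leaf (nat_lit 2094334) (nat_lit 249502) (nat_lit 58018358) (nat_lit 8840951) [(nat_lit 249502), (nat_lit 0), (nat_lit 0)]) (PF.cons (PF.leaf (nat_lit 2272802) (nat_lit 271949) (nat_lit 57693882) (nat_lit 8871032) [(nat_lit 271949), (nat_lit 0), (nat_lit 0)]) (PF.cons (PF.leaf (nat_lit 2473799) (nat_lit 292077) (nat_lit 57330108) (nat_lit 8902471) [(nat_lit 292077), (nat_lit 0), (nat_lit 0)]) (PF.cons (PF.leaf (nat_lit 2694424) (nat_lit 310414) (nat_lit 56932987) (nat_lit 8934166) [(nat_lit 310414), (nat_lit 0), (nat_lit 0)]) (PF.cons (PF.leaf (nat_lit 2932403) (nat_lit 327290) (nat_lit 56507109) (nat_lit 8965251) [(nat_lit 327290), (nat_lit 0), (nat_lit 0)]) (PF.cons (PF.leaf (nat_lit 3185876) (nat_lit 342925) (nat_lit 56056225) (nat_lit 8995035) [(nat_lit 342925), (nat_lit 0), (nat_lit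 0)]) (PF.cons (PF.leaf (nat_lit 3453253) (nat_lit 357475) (nat_lit 55583519) (nat_lit 9022964) [(nat_lit 357475), (nat_lit 0), (nat_lit 0)]) (PF.cons (PF.leaf (nat_lit 3733121) (nat_lit 371055) (nat_lit 55091767) (nat_lit 9048599)
 [(nat_lit 371055), (nat_lit 0), (nat_lit 0)]) (PF.cons (PF.leaf (nat_lit 4024204) (nat_lit 383753) (nat_lit 54583434) (nat_lit 9071592) [(nat_lit 383753), (nat_lit 0), (nat_lit 0)]) (PF.cons (PF.leaf (nat_lit 4325443) (nat_lit 395639) (nat_lit 54060739) (nat_lit 9091677) [(nat_lit 395639), (nat_lit 0), (nat_lit 0)]) (PF.cons (PF.leaf (nat_lit 4635702) (nat_lit 406768) (nat_lit 53525698) (nat_lit 9108655) [(nat_lit 406768), (nat_lit 0), (nat_lit 0)]) (PF.cons (PF.leaf (nat_lit 4954019) (nat_lit 417189) (nat_lit 52980154) (nat_lit 9122387) [(nat_lit 417189), (nat_lit 0), (nat_lit 0)]) (PF.cons PF.nil (PF.cons PF.nil (PF.cons PF.nil PF.nil)))))))))))))))) (PF.cons (PF.cons (PF.leaf (nat_lit 2611216) (nat_lit 1587417) (nat_lit 56572577) (nat_lit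 8948818) [(nat_lit 0), (nat_lit 1587417), (nat_lit 0)]) (PF.cons (PF.leaf (nat_lit 2811475) (nat_lit 311369) (nat_lit 56203383) (nat_lit 8973854) [(nat_lit 311369), (nat_lit 1620205), (nat_lit 0)]) (PF.cons (PF.leaf (nat_lit 3033367) (nat_lit 328705) (nat_lit 55799525) (nat_lit 8998863) [(nat_lit 328705), (nat_lit 1653012), (nat_lit 0)]) (PF.cons (PF.leaf (nat_lit 3272875) (nat_lit 344541) (nat_lit 55366979) (nat_lit 9023005) [(nat_lit
 344541), (nat_lit 1685203), (nat_lit 0)]) (PF.cons (PF.leaf (nat_lit 3527733) (nat_lit 359140) (nat_lit 54910210) (nat_lit 9045645) [(nat_lit 359140), (nat_lit 1716396), (nat_lit 0)]) (PF.cons (PF.leaf (nat_lit 3796209) (nat_lit 372674) (nat_lit 54432781) (nat_lit 9066300) [(nat_lit 372674), (nat_lit 1746355), (nat_lit 0)]) (PF.cons (PF.leaf (nat_lit 4076729) (nat_lit 385268) (nat_lit 53937667) (nat_lit 9084596) [(nat_lit 385268), (nat_lit 1774937), (nat_lit 0)]) (PF.cons (PF.leaf (nat_lit 4367993) (nat_lit 397012) (nat_lit 53427425)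 (nat_lit 9100251) [(nat_lit 397012), (nat_lit 1802051), (nat_lit 0)]) (PF.cons (PF.leaf (nat_lit 4668799) (nat_lit 407976) (nat_lit 52904301) (nat_lit 9113053) [(nat_lit 407976), (nat_lit 1827650), (nat_lit 0)]) (PF.cons (PF.leaf (nat_lit 4978122) (nat_lit 418217) (nat_lit 52370294) (nat_lit 9122853) [(nat_lit 418217), (nat_lit 1851710), (nat_lit 0)]) (PF.cons (PF.leaf (nat_lit 5294966) (nat_lit 427782) (nat_lit 51827206) (nat_lit 9129554) [(nat_lit 427782), (nat_lit 1874228), (nat_lit 0)]) (PF.cons (PF.leaf (nat_lit 5618424) (nat_lit 436711) (nat_lit 51276669) (nat_lit 9133101) [(nat_lit 436711), (nat_lit 1895213), (nat_lit 0)]) (PF.cons PF.nil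
 (PF.cons PF.nil PF.nil)))))))))))))) (PF.cons (PF.cons (PF.leaf (nat_lit 3376537) (nat_lit 1711851) (nat_lit 54638601) (nat_lit 9046507) [(nat_lit 0), (nat_lit 1711851), (nat_lit 0)]) (PF.cons (PF.leaf (nat_lit 3614081) (nat_lit 359066) (nat_lit 54206923) (nat_lit 9063874) [(nat_lit 359066), (nat_lit 1739473), (nat_lit 0)]) (PF.cons (PF.leaf (nat_lit 3868275) (nat_lit 372903) (nat_lit 53750501) (nat_lit 9079665) [(nat_lit 372903), (nat_lit 1766419), (nat_lit 0)]) (PF.cons (PF.leaf (nat_lit 4136114) (nat_lit 385639) (nat_lit 53273671) (nat_lit 9093437) [(nat_lit 385639), (nat_lit 1792393), (nat_lit 0)]) (PF.cons (PF.leaf (nat_lit 4415841) (nat_lit 397422) (nat_lit 52779830) (nat_lit 9104864) [(nat_lit 397422), (nat_lit 1817213), (nat_lit 0)]) (PF.cons (PF.leaf (nat_lit 4706007) (nat_lit 408360) (nat_lit 52271768) (nat_lit 9113709) [(nat_lit 408360), (nat_lit 1840766), (nat_lit 0)]) (PF.cons (PF.leaf (nat_lit 5005389) (nat_lit 418531) (nat_lit 51751847) (nat_lit 9119805)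 [(nat_lit 418531), (nat_lit 1862984), (nat_lit 0)]) (PF.cons (PF.leaf (nat_lit 5312844) (nat_lit 427998) (nat_lit 51222118) (nat_lit 9123039) [(nat_lit 427998), (nat_lit 1883831), (nat_lit 0)]) (PF.cons (PF.leaf
 (nat_lit 5627391) (nat_lit 436811) (nat_lit 50684386) (nat_lit 9123344) [(nat_lit 436811), (nat_lit 1903294), (nat_lit 0)]) (PF.cons (PF.leaf (nat_lit 5948124) (nat_lit 445012) (nat_lit 50140261) (nat_lit 9120693) [(nat_lit 445012), (nat_lit 1921374), (nat_lit 0)]) (PF.cons PF.nil (PF.cons PF.nil PF.nil)))))))))))) (PF.cons (PF.cons (PF.leaf (nat_lit 4208425) (nat_lit 1809225) (nat_lit 52583042) (nat_lit 9098094) [(nat_lit 0), (nat_lit 1809225), (nat_lit 0)]) (PF.cons (PF.leaf (nat_lit 4473143) (nat_lit 396580) (nat_lit 52111852) (nat_lit 9105496) [(nat_lit 396580), (nat_lit 1831627), (nat_lit 0)]) (PF.cons (PF.leaf (nat_lit 4750573) (nat_lit 407715) (nat_lit 51623539) (nat_lit 9110610) [(nat_lit 407715), (nat_lit 1853077), (nat_lit 0)]) (PF.cons (PF.leaf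 (nat_lit 5038441) (nat_lit 417981) (nat_lit 51121323) (nat_lit 9113235) [(nat_lit 417981), (nat_lit 1873436), (nat_lit 0)]) (PF.cons (PF.leaf (nat_lit 5335318) (nat_lit 427476) (nat_lit 50607810) (nat_lit 9113236) [(nat_lit 427476), (nat_lit 1892619), (nat_lit 0)]) (PF.cons (PF.leaf (nat_lit 5640031) (nat_lit 436272) (nat_lit 50085180) (nat_lit 9110530) [(nat_lit 436272), (nat_lit 1910580), (nat_lit 0)]) (PF.cons (PF.leaf
 (nat_lit 5951535) (nat_lit 444424) (nat_lit 49555299) (nat_lit 9105078) [(nat_lit 444424), (nat_lit 1927295), (nat_lit 0)]) (PF.cons (PF.leaf (nat_lit 6268907) (nat_lit 451980) (nat_lit 49019793) (nat_lit 9096869) [(nat_lit 451980), (nat_lit 1942760), (nat_lit 0)]) (PF.cons PF.nil (PF.cons PF.nil PF.nil)))))))))) (PF.cons (PF.cons (PF.leaf (nat_lit 5081787) (nat_lit 1883244) (nat_lit 50472800) (nat_lit 9103035) [(nat_lit 0), (nat_lit 1883244), (nat_lit 0)]) (PF.cons (PF.leaf (nat_lit 5365508) (nat_lit 426016) (nat_lit 49979855) (nat_lit 9100063)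 [(nat_lit 426016), (nat_lit 1900719), (nat_lit 0)]) (PF.cons (PF.leaf (nat_lit 5658839) (nat_lit 434946) (nat_lit 49475656) (nat_lit 9094599) [(nat_lit 434946), (nat_lit 1917165), (nat_lit 0)]) (PF.cons (PF.leaf (nat_lit 5959942) (nat_lit 443167) (nat_lit 48962626) (nat_lit 9086585) [(nat_lit 443167), (nat_lit 1932524), (nat_lit 0)]) (PF.cons (PF.leaf (nat_lit 6267690) (nat_lit 450747) (nat_lit 48442766) (nat_lit 9076002) [(nat_lit 450747), (nat_lit 1946763), (nat_lit 0)]) (PF.cons (PF.leaf (nat_lit 6581103) (nat_lit 457738) (nat_lit 47917771) (nat_lit 9062857) [(nat_lit 457738), (nat_lit 1959873), (nat_lit 0)]) (PF.cons (PF.leaf (nat_lit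
 6899353) (nat_lit 464183) (nat_lit 47389099) (nat_lit 9047183) [(nat_lit 464183), (nat_lit 1971856), (nat_lit 0)]) (PF.cons PF.nil PF.nil)))))))) (PF.cons (PF.cons (PF.leaf (nat_lit 5976798) (nat_lit 1937152) (nat_lit 48357971) (nat_lit 9065077) [(nat_lit 0), (nat_lit 1937152), (nat_lit 0)]) (PF.cons (PF.leaf (nat_lit 6272937) (nat_lit 448794) (nat_lit 47856830) (nat_lit 9052379) [(nat_lit 448794), (nat_lit 1950161), (nat_lit 0)]) (PF.cons (PF.leaf (nat_lit 6576222) (nat_lit 455885) (nat_lit 47348924) (nat_lit 9037275) [(nat_lit 455885), (nat_lit 1962168), (nat_lit 0)]) (PF.cons (PF.leaf (nat_lit 6885119) (nat_lit 462387) (nat_lit 46836085) (nat_lit 9019792) [(nat_lit 462387), (nat_lit 1973154), (nat_lit 0)]) (PF.cons (PF.leaf (nat_lit 7198720) (nat_lit 468348) (nat_lit 46319843) (nat_lit 8999972) [(nat_lit 468348), (nat_lit 1983120), (nat_lit 0)]) (PF.cons PF.nil PF.nil)))))) (PF.cons (PF.cons (PF.leaf (nat_lit 6878016) (nat_lit 1973925) (nat_lit 46275292) (nat_lit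 8989964) [(nat_lit 0), (nat_lit 1973925), (nat_lit 0)]) (PF.cons (PF.leaf (nat_lit 7181364) (nat_lit 466016) (nat_lit 45776079) (nat_lit 8968713) [(nat_lit 466016), (nat_lit 1983000), (nat_lit 0)]) (PF.cons (PF.leaf
 (nat_lit 7489870) (nat_lit 471561) (nat_lit 45273488) (nat_lit 8945297) [(nat_lit 471561), (nat_lit 1991150), (nat_lit 0)]) (PF.cons PF.nil PF.nil)))) (PF.cons (PF.cons (PF.leaf (nat_lit 7773724) (nat_lit 1996282) (nat_lit 44250760) (nat_lit 8884072) [(nat_lit 0), (nat_lit 1996282), (nat_lit 0)]) (PF.cons (PF.leaf (nat_lit 8080200) (nat_lit 478595) (nat_lit 43760805) (nat_lit 8855642) [(nat_lit 478595), (nat_lit 2001967), (nat_lit 0)]) PF.nil)) (PF.cons PF.nil (PF.cons PF.nil (PF.cons PF.nil PF.nil))))))))))) (PF.cons (PF.cons (PF.cons (PF.leaf (nat_lit 3706739) (nat_lit 6398771) (nat_lit 51714484) (nat_lit 8995556) [(nat_lit 0), (nat_lit 0), (nat_lit 6398771)]) (PF.cons (PF.leaf (nat_lit 3916850) (nat_lit 343832) (nat_lit 51349025) (nat_lit 9001264)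 [(nat_lit 343832), (nat_lit 0), (nat_lit 6414689)]) (PF.cons (PF.leaf (nat_lit 4147014) (nat_lit 359899) (nat_lit 50953070) (nat_lit 9005731) [(nat_lit 359899), (nat_lit 0), (nat_lit 6430212)]) (PF.cons (PF.leaf (nat_lit 4393003) (nat_lit 374185) (nat_lit 50532864) (nat_lit 9008577) [(nat_lit 374185), (nat_lit 0), (nat_lit 6444816)]) (PF.cons (PF.leaf (nat_lit 4652375) (nat_lit 387046) (nat_lit 50092971) (nat_lit 9009528) [(nat_lit
 387046), (nat_lit 0), (nat_lit 6458126)]) (PF.cons (PF.leaf (nat_lit 4923227) (nat_lit 398723) (nat_lit 49636934) (nat_lit 9008386) [(nat_lit 398723), (nat_lit 0), (nat_lit 6469874)]) (PF.cons (PF.leaf (nat_lit 5204026) (nat_lit 409385) (nat_lit 49167620) (nat_lit 9005009) [(nat_lit 409385), (nat_lit 0), (nat_lit 6479868)]) (PF.cons (PF.leaf (nat_lit 5493526) (nat_lit 419158) (nat_lit 48687424) (nat_lit 8999305) [(nat_lit 419158), (nat_lit 0), (nat_lit 6487972)]) (PF.cons (PF.leaf (nat_lit 5790536) (nat_lit 428139) (nat_lit 48198384) (nat_lit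 8991215) [(nat_lit 428139), (nat_lit 0), (nat_lit 6494098)]) (PF.cons (PF.leaf (nat_lit 6094083) (nat_lit 436403) (nat_lit 47702266) (nat_lit 8980717) [(nat_lit 436403), (nat_lit 0), (nat_lit 6498192)]) (PF.cons (PF.leaf (nat_lit 6403290) (nat_lit 444015) (nat_lit 47200616) (nat_lit 8967812) [(nat_lit 444015), (nat_lit 0), (nat_lit 6500228)]) (PF.cons PF.nil (PF.cons PF.nil (PF.cons PF.nil PF.nil)))))))))))))) (PF.cons (PF.cons (PF.leaf (nat_lit 4472971) (nat_lit 1802670) (nat_lit 49853739) (nat_lit 8999405) [(nat_lit 0), (nat_lit 1802670), (nat_lit 6452996)]) (PF.cons (PF.leaf (nat_lit 4714113) (nat_lit 383871) (nat_lit 49441712) (nat_lit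
 8997599) [(nat_lit 383871), (nat_lit 1822619), (nat_lit 6463010)]) (PF.cons (PF.leaf (nat_lit 4970058) (nat_lit 396136) (nat_lit 49009138) (nat_lit 8993872) [(nat_lit 396136), (nat_lit 1841753), (nat_lit 6471775)]) (PF.cons (PF.leaf (nat_lit 5237792) (nat_lit 407183) (nat_lit 48560256) (nat_lit 8988072) [(nat_lit 407183), (nat_lit 1859891), (nat_lit 6479043)]) (PF.cons (PF.leaf (nat_lit 5515557) (nat_lit 417206) (nat_lit 48098311) (nat_lit 8980095) [(nat_lit 417206), (nat_lit 1876933), (nat_lit 6484643)]) (PF.cons (PF.leaf (nat_lit 5801945) (nat_lit 426348) (nat_lit 47625900) (nat_lit 8969882) [(nat_lit 426348), (nat_lit 1892827), (nat_lit 6488461)]) (PF.cons (PF.leaf (nat_lit 6095703) (nat_lit 434711) (nat_lit 47145166) (nat_lit 8957402) [(nat_lit 434711), (nat_lit 1907552), (nat_lit 6490424)]) (PF.cons (PF.leaf (nat_lit 6395806) (nat_lit 442376) (nat_lit 46657923) (nat_lit 8942652) [(nat_lit 442376), (nat_lit 1921107), (nat_lit 6490493)]) (PF.cons (PF.leaf (nat_lit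 6701349) (nat_lit 449409) (nat_lit 46165727) (nat_lit 8925650) [(nat_lit 449409), (nat_lit 1933504), (nat_lit 6488653)]) (PF.cons PF.nil (PF.cons PF.nil (PF.cons PF.nil PF.nil)))))))))))) (PF.cons (PF.cons (PF.leaf
 (nat_lit 5285744) (nat_lit 1867061) (nat_lit 47931168) (nat_lit 8967670) [(nat_lit 0), (nat_lit 1867061), (nat_lit 6475850)]) (PF.cons (PF.leaf (nat_lit 5548363) (nat_lit 414052) (nat_lit 47492937) (nat_lit 8957744) [(nat_lit 414052), (nat_lit 1882494), (nat_lit 6479088)]) (PF.cons (PF.leaf (nat_lit 5821980) (nat_lit 423587) (nat_lit 47041186) (nat_lit 8945693) [(nat_lit 423587), (nat_lit 1897005), (nat_lit 6480747)]) (PF.cons (PF.leaf (nat_lit 6104364) (nat_lit 432218) (nat_lit 46578901) (nat_lit 8931489) [(nat_lit 432218), (nat_lit 1910519), (nat_lit 6480727)]) (PF.cons (PF.leaf (nat_lit 6394167) (nat_lit 440066) (nat_lit 46108445) (nat_lit 8915128) [(nat_lit 440066), (nat_lit 1923000), (nat_lit 6478972)]) (PF.cons (PF.leaf (nat_lit 6690265) (nat_lit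 447222) (nat_lit 45631750) (nat_lit 8896629) [(nat_lit 447222), (nat_lit 1934435), (nat_lit 6475452)]) (PF.cons (PF.leaf (nat_lit 6991693) (nat_lit 453755) (nat_lit 45150433) (nat_lit 8876023) [(nat_lit 453755), (nat_lit 1944828), (nat_lit 6470165)]) (PF.cons (PF.leaf (nat_lit 7297612) (nat_lit 459723) (nat_lit 44665872) (nat_lit 8853360) [(nat_lit 459723), (nat_lit 1954194), (nat_lit 6463123)]) (PF.cons PF.nil (PF.cons PF.nil
 PF.nil)))))))))) (PF.cons (PF.cons (PF.leaf (nat_lit 6124372) (nat_lit 1913030) (nat_lit 45998015) (nat_lit 8902699) [(nat_lit 0), (nat_lit 1913030), (nat_lit 6469007)]) (PF.cons (PF.leaf (nat_lit 6401310) (nat_lit 436871) (nat_lit 45548091) (nat_lit 8885028) [(nat_lit 436871), (nat_lit 1924410), (nat_lit 6465590)]) (PF.cons (PF.leaf (nat_lit 6686399) (nat_lit 444305) (nat_lit 45089726) (nat_lit 8865293) [(nat_lit 444305), (nat_lit 1934879), (nat_lit 6460545)]) (PF.cons (PF.leaf (nat_lit 6977878) (nat_lit 451035) (nat_lit 44625074) (nat_lit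 8843532) [(nat_lit 451035), (nat_lit 1944414), (nat_lit 6453854)]) (PF.cons (PF.leaf (nat_lit 7274695) (nat_lit 457144) (nat_lit 44155880) (nat_lit 8819797) [(nat_lit 457144), (nat_lit 1953011), (nat_lit 6445524)]) (PF.cons (PF.leaf (nat_lit 7575987) (nat_lit 462693) (nat_lit 43683590) (nat_lit 8794145) [(nat_lit 462693), (nat_lit 1960678), (nat_lit 6435574)]) (PF.cons PF.nil (PF.cons PF.nil PF.nil)))))))) (PF.cons (PF.cons (PF.leaf (nat_lit 6973377) (nat_lit 1943566) (nat_lit 44089960) (nat_lit 8808713) [(nat_lit 0), (nat_lit 1943566), (nat_lit 6435872)]) (PF.cons (PF.leaf (nat_lit 7259151) (nat_lit 453895) (nat_lit 43638750) (nat_lit 8784167)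
 [(nat_lit 453895), (nat_lit 1951397), (nat_lit 6426410)]) (PF.cons (PF.leaf (nat_lit 7550878) (nat_lit 459652) (nat_lit 43182799) (nat_lit 8757754) [(nat_lit 459652), (nat_lit 1958383), (nat_lit 6415420)]) (PF.cons (PF.leaf (nat_lit 7847126) (nat_lit 464847) (nat_lit 42723684) (nat_lit 8729548) [(nat_lit 464847), (nat_lit 1964527), (nat_lit 6402929)]) (PF.cons PF.nil (PF.cons PF.nil PF.nil)))))) (PF.cons (PF.cons (PF.leaf (nat_lit 7821172) (nat_lit 1961238) (nat_lit 42231547) (nat_lit 8690601) [(nat_lit 0), (nat_lit 1961238), (nat_lit 6380469)]) (PF.cons (PF.leaf (nat_lit 8111552) (nat_lit 466248) (nat_lit 41786433) (nat_lit 8660252) [(nat_lit 466248), (nat_lit 1966018), (nat_lit 6365783)]) (PF.cons (PF.leaf (nat_lit 8406201) (nat_lit 470642) (nat_lit 41339268) (nat_lit 8628295) [(nat_lit 470642), (nat_lit 1970044), (nat_lit 6349741)]) (PF.cons PF.nil PF.nil)))) (PF.cons (PF.cons (PF.leaf (nat_lit 8659201) (nat_lit 1968275) (nat_lit 40439066) (nat_lit 8553246) [(nat_lit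 0), (nat_lit 1968275), (nat_lit 6306849)]) (PF.cons PF.nil PF.nil)) (PF.cons PF.nil (PF.cons PF.nil (PF.cons PF.nil PF.nil)))))))))) (PF.cons (PF.cons (PF.cons (PF.leaf (nat_lit 5475069) (nat_lit 6381921) (nat_lit
 45538814) (nat_lit 8806154) [(nat_lit 0), (nat_lit 0), (nat_lit 6381921)]) (PF.cons (PF.leaf (nat_lit 5714553) (nat_lit 397203) (nat_lit 45158053) (nat_lit 8792145) [(nat_lit 397203), (nat_lit 0), (nat_lit 6380705)]) (PF.cons (PF.leaf (nat_lit 5967316) (nat_lit 408108) (nat_lit 44760163) (nat_lit 8776148) [(nat_lit 408108), (nat_lit 0), (nat_lit 6378141)]) (PF.cons (PF.leaf (nat_lit 6230427) (nat_lit 417747) (nat_lit 44349082) (nat_lit 8758193) [(nat_lit 417747), (nat_lit 0), (nat_lit 6374146)]) (PF.cons (PF.leaf (nat_lit 6502168) (nat_lit 426345) (nat_lit 43927773) (nat_lit 8738313) [(nat_lit 426345), (nat_lit 0), (nat_lit 6368671)]) (PF.cons (PF.leaf (nat_lit 6781086) (nat_lit 434062) (nat_lit 43498567) (nat_lit 8716549) [(nat_lit 434062), (nat_lit 0),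 (nat_lit 6361691)]) (PF.cons (PF.leaf (nat_lit 7066113) (nat_lit 441017) (nat_lit 43063354) (nat_lit 8692947) [(nat_lit 441017), (nat_lit 0), (nat_lit 6353203)]) (PF.cons (PF.leaf (nat_lit 7356261) (nat_lit 447301) (nat_lit 42623699) (nat_lit 8667563) [(nat_lit 447301), (nat_lit 0), (nat_lit 6343219)]) (PF.cons (PF.leaf (nat_lit 7650694) (nat_lit 452987) (nat_lit 42180927) (nat_lit 8640457) [(nat_lit 452987), (nat_lit 0), (nat_lit
 6331764)]) (PF.cons PF.nil PF.nil)))))))))) (PF.cons (PF.cons (PF.leaf (nat_lit 6258071) (nat_lit 1881663) (nat_lit 43788201) (nat_lit 8723626) [(nat_lit 0), (nat_lit 1881663), (nat_lit 6357660)]) (PF.cons (PF.leaf (nat_lit 6514967) (nat_lit 421716) (nat_lit 43389734) (nat_lit 8703164) [(nat_lit 421716), (nat_lit 1892110), (nat_lit 6351042)]) (PF.cons (PF.leaf (nat_lit 6781545) (nat_lit 429963) (nat_lit 42980385) (nat_lit 8680800) [(nat_lit 429963), (nat_lit 1901697), (nat_lit 6343001)]) (PF.cons (PF.leaf (nat_lit 7055648) (nat_lit 437304)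 (nat_lit 42562837) (nat_lit 8656607) [(nat_lit 437304), (nat_lit 1910392), (nat_lit 6333531)]) (PF.cons (PF.leaf (nat_lit 7335988) (nat_lit 443876) (nat_lit 42139183) (nat_lit 8630655) [(nat_lit 443876), (nat_lit 1918187), (nat_lit 6322640)]) (PF.cons (PF.leaf (nat_lit 7621497) (nat_lit 449778) (nat_lit 41711105) (nat_lit 8603016) [(nat_lit 449778), (nat_lit 1925092), (nat_lit 6310352)]) (PF.cons (PF.leaf (nat_lit 7911346) (nat_lit 455090) (nat_lit 41279988) (nat_lit 8573761) [(nat_lit 455090), (nat_lit 1931126), (nat_lit 6296695)]) (PF.cons PF.nil PF.nil)))))))) (PF.cons (PF.cons (PF.leaf (nat_lit 7057108) (nat_lit 1908295) (nat_lit 42049898)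
 (nat_lit 8617893) [(nat_lit 0), (nat_lit 1908295), (nat_lit 6312215)]) (PF.cons (PF.leaf (nat_lit 7325119) (nat_lit 439604) (nat_lit 41645499) (nat_lit 8591687) [(nat_lit 439604), (nat_lit 1915410), (nat_lit 6300600)]) (PF.cons (PF.leaf (nat_lit 7600212) (nat_lit 445881) (nat_lit 41234553) (nat_lit 8563773) [(nat_lit 445881), (nat_lit 1921726), (nat_lit 6287635)]) (PF.cons (PF.leaf (nat_lit 7880697) (nat_lit 451477) (nat_lit 40818947) (nat_lit 8534244) [(nat_lit 451477), (nat_lit 1927241), (nat_lit 6273352)]) (PF.cons (PF.leaf (nat_lit 8165597) (nat_lit 456479) (nat_lit 40400188) (nat_lit 8503187) [(nat_lit 456479), (nat_lit 1931968), (nat_lit 6257791)]) (PF.cons PF.nil PF.nil)))))) (PF.cons (PF.cons (PF.leaf (nat_lit 7859858) (nat_lit 1923022) (nat_lit 40349547) (nat_lit 8492845) [(nat_lit 0), (nat_lit 1923022), (nat_lit 6248676)]) (PF.cons (PF.leaf (nat_lit 8134353) (nat_lit 452451) (nat_lit 39947287) (nat_lit 8461782) [(nat_lit 452451), (nat_lit 1927298), (nat_lit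 6232697)]) (PF.cons (PF.leaf (nat_lit 8413951) (nat_lit 457206) (nat_lit 39541541) (nat_lit 8429252) [(nat_lit 457206), (nat_lit 1930860), (nat_lit 6215512)]) (PF.cons (PF.leaf (nat_lit 8697333) (nat_lit 461429)
 (nat_lit 39133662) (nat_lit 8395353) [(nat_lit 461429), (nat_lit 1933721), (nat_lit 6197170)]) PF.nil)))) (PF.cons (PF.cons (PF.leaf (nat_lit 8657384) (nat_lit 1928009) (nat_lit 38703828) (nat_lit 8352415) [(nat_lit 0), (nat_lit 1928009), (nat_lit 6170266)]) (PF.cons (PF.leaf (nat_lit 8934872) (nat_lit 461340) (nat_lit 38309217) (nat_lit 8317416) [(nat_lit 461340), (nat_lit 1929894), (nat_lit 6150629)]) PF.nil)) (PF.cons PF.nil (PF.cons PF.nil (PF.cons PF.nil PF.nil)))))))) (PF.cons (PF.cons (PF.cons (PF.leaf (nat_lit 7136010) (nat_lit 6182301) (nat_lit 40140647) (nat_lit 8421260) [(nat_lit 0), (nat_lit 0), (nat_lit 6182301)]) (PF.cons (PF.leaf (nat_lit 7385378) (nat_lit 422901) (nat_lit 39782409) (nat_lit 8394733) [(nat_lit 422901), (nat_lit 0), (nat_lit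 6169589)]) (PF.cons (PF.leaf (nat_lit 7643433) (nat_lit 430109) (nat_lit 39415232) (nat_lit 8366524) [(nat_lit 430109), (nat_lit 0), (nat_lit 6155612)]) (PF.cons (PF.leaf (nat_lit 7908061) (nat_lit 436430) (nat_lit 39041498) (nat_lit 8336763) [(nat_lit 436430), (nat_lit 0), (nat_lit 6140419)]) (PF.cons (PF.leaf (nat_lit 8178028) (nat_lit 442008) (nat_lit 38663039) (nat_lit 8305562) [(nat_lit 442008), (nat_lit 0), (nat_lit
 6124059)]) (PF.cons (PF.leaf (nat_lit 8452412) (nat_lit 446948) (nat_lit 38281311) (nat_lit 8273018) [(nat_lit 446948), (nat_lit 0), (nat_lit 6106580)]) (PF.cons PF.nil (PF.cons PF.nil PF.nil)))))))) (PF.cons (PF.cons (PF.leaf (nat_lit 7895041) (nat_lit 1882287) (nat_lit 38591191) (nat_lit 8293399) [(nat_lit 0), (nat_lit 1882287), (nat_lit 6113978)]) (PF.cons (PF.leaf (nat_lit 8153332) (nat_lit 437098) (nat_lit 38230231) (nat_lit 8262594) [(nat_lit 437098), (nat_lit 1886416), (nat_lit 6097490)]) (PF.cons (PF.leaf (nat_lit 8417888) (nat_lit 442475)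 (nat_lit 37864027) (nat_lit 8230366) [(nat_lit 442475), (nat_lit 1889842), (nat_lit 6079874)]) (PF.cons (PF.leaf (nat_lit 8687095) (nat_lit 447199) (nat_lit 37494225) (nat_lit 8196834) [(nat_lit 447199), (nat_lit 1892581), (nat_lit 6061191)]) (PF.cons PF.nil (PF.cons PF.nil PF.nil)))))) (PF.cons (PF.cons (PF.leaf (nat_lit 8653894) (nat_lit 1886343) (nat_lit 37083549) (nat_lit 8152860) [(nat_lit 0), (nat_lit 1886343), (nat_lit 6033238)]) (PF.cons (PF.leaf (nat_lit 8917082) (nat_lit 446891) (nat_lit 36726238) (nat_lit 8118605) [(nat_lit 446891), (nat_lit 1888178), (nat_lit 6013573)]) (PF.cons (PF.leaf (nat_lit 9184785) (nat_lit 450884)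
 (nat_lit 36366235) (nat_lit 8083179) [(nat_lit 450884), (nat_lit 1889404), (nat_lit 5992939)]) (PF.cons PF.nil PF.nil)))) (PF.cons (PF.cons (PF.leaf (nat_lit 9405462) (nat_lit 1882944) (nat_lit 35629362) (nat_lit 8002741) [(nat_lit 0), (nat_lit 1882944), (nat_lit 5942625)]) (PF.cons PF.nil PF.nil)) (PF.cons PF.nil (PF.cons PF.nil PF.nil)))))) (PF.cons (PF.cons (PF.cons (PF.leaf (nat_lit 8652400) (nat_lit 5896752) (nat_lit 35566142) (nat_lit 7955660) [(nat_lit 0), (nat_lit 0), (nat_lit 5896752)]) (PF.cons (PF.leaf (nat_lit 8900841) (nat_lit 431263) (nat_lit 35244657) (nat_lit 7922737) [(nat_lit 431263), (nat_lit 0), (nat_lit 5877538)]) (PF.cons (PF.leaf (nat_lit 9154965) (nat_lit 435932) (nat_lit 34918849) (nat_lit 7888612) [(nat_lit 435932), (nat_lit 0), (nat_lit 5857371)]) (PF.cons (PF.leaf (nat_lit 9413172) (nat_lit 439978) (nat_lit 34590154) (nat_lit 7853418) [(nat_lit 439978), (nat_lit 0), (nat_lit 5836326)]) PF.nil)))) (PF.cons (PF.cons (PF.leaf (nat_lit 9370683)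 (nat_lit 1840421) (nat_lit 34230550) (nat_lit 7809209) [(nat_lit 0), (nat_lit 1840421), (nat_lit 5807157)]) (PF.cons (PF.leaf (nat_lit 9622976) (nat_lit 438803) (nat_lit 33913202) (nat_lit 7773812) [(nat_lit 438803),
 (nat_lit 1840580), (nat_lit 5785603)]) PF.nil)) (PF.cons PF.nil (PF.cons PF.nil PF.nil)))) (PF.cons (PF.cons (PF.cons (PF.leaf (nat_lit 10022832) (nat_lit 5580772) (nat_lit 31731562) (nat_lit 7473388) [(nat_lit 0), (nat_lit 0), (nat_lit 5580772)]) (PF.cons PF.nil PF.nil)) (PF.cons PF.nil PF.nil)) (PF.cons PF.nil (PF.cons PF.nil (PF.cons PF.nil (PF.cons PF.nil PF.nil))))))))))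

def p12_17_1_0 : pfC (piC [(nat_lit 40745421), (nat_lit 25257288), (nat_lit 16296408)] (nat_lit 11363143)) p12_17_1 (nat_lit 3) (nat_lit 0) (nat_lit 1) = true := by decide +kernel
def p12_17_1_1 : pfC (piC [(nat_lit 40745421), (nat_lit 25257288), (nat_lit 16296408)] (nat_lit 11363143)) p12_17_1 (nat_lit 3) (nat_lit 1) (nat_lit 2) = true := by decide +kernel
def p12_17_1_2 : pfC (piC [(nat_lit 40745421), (nat_lit 25257288), (nat_lit 16296408)] (nat_lit 11363143)) p12_17_1 (nat_lit 3) (nat_lit 2) (nat_lit 3) = true := by decide +kernel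
def p12_17_1_3 : pfC (piC [(nat_lit 40745421), (nat_lit 25257288), (nat_lit 16296408)] (nat_lit 11363143)) p12_17_1 (nat_lit 3) (nat_lit 3) (nat_lit 4) = true := by decide +kernel
def p12_17_1_4 : pfC (piC [(nat_lit 40745421), (nat_lit 25257288), (nat_lit 16296408)] (nat_lit 11363143)) p12_17_1 (nat_lit 3) (nat_lit 4) (nat_lit 5) = true := by decide +kernel
def p12_17_1_5 : pfC (piC [(nat_lit 40745421), (nat_lit 25257288), (nat_lit 16296408)] (nat_lit 11363143)) p12_17_1 (nat_lit 3) (nat_lit 5) (nat_lit 6) = true := by decide +kernel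
def p12_17_1_6 : pfC (piC [(nat_lit 40745421), (nat_lit 25257288), (nat_lit 16296408)] (nat_lit 11363143)) p12_17_1 (nat_lit 3) (nat_lit 6) (nat_lit 7) = true := by decide +kernel
def p12_17_1_7 : pfC (piC [(nat_lit 40745421), (nat_lit 25257288), (nat_lit 16296408)] (nat_lit 11363143)) p12_17_1 (nat_lit 3) (nat_lit 7) (nat_lit 8) = true := by decide +kernel
def p12_17_1_8 : pfC (piC [(nat_lit 40745421), (nat_lit 25257288), (nat_lit 16296408)] (nat_lit 11363143)) p12_17_1 (nat_lit 3) (nat_lit 8) (nat_lit 9) = true := by decide +kernel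
def p12_17_1_9 : pfC (piC [(nat_lit 40745421), (nat_lit 25257288), (nat_lit 16296408)] (nat_lit 11363143)) p12_17_1 (nat_lit 3) (nat_lit 9) (nat_lit 10) = true := by decide +kernel
def p12_17_1_10 : pfC (piC [(nat_lit 40745421), (nat_lit 25257288), (nat_lit 16296408)] (nat_lit 11363143)) p12_17_1 (nat_lit 3) (nat_lit 10) (nat_lit 11) = true := by decide +kernel
def p12_17_1_11 : pfC (piC [(nat_lit 40745421), (nat_lit 25257288), (nat_lit 16296408)] (nat_lit 11363143)) p12_17_1 (nat_lit 3) (nat_lit 11) (nat_lit 12) = true := by decide +kernel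
def p12_17_1_12 : pfC (piC [(nat_lit 40745421), (nat_lit 25257288), (nat_lit 16296408)] (nat_lit 11363143)) p12_17_1 (nat_lit 3) (nat_lit 12) (nat_lit 13) = true := by decide +kernel
def p12_17_1_13 : pfC (piC [(nat_lit 40745421), (nat_lit 25257288), (nat_lit 16296408)] (nat_lit 11363143)) p12_17_1 (nat_lit 3) (nat_lit 13) (nat_lit 14) = true := by decide +kernel
def p12_17_1_14 : pfC (piC [(nat_lit 40745421), (nat_lit 25257288), (nat_lit 16296408)] (nat_lit 11363143)) p12_17_1 (nat_lit 3) (nat_lit 14) (nat_lit 15) = true := by decide +kernel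
def p12_17_1_15 : pfC (piC [(nat_lit 40745421), (nat_lit 25257288), (nat_lit 16296408)] (nat_lit 11363143)) p12_17_1 (nat_lit 3) (nat_lit 15) (nat_lit 16) = true := by decide +kernel
def p12_17_1_16 : pfC (piC [(nat_lit 40745421), (nat_lit 25257288), (nat_lit 16296408)] (nat_lit 11363143)) p12_17_1 (nat_lit 3) (nat_lit 16) (nat_lit 17) = true := by decide +kernel
def p12_17_1_17 : pfC (piC [(nat_lit 40745421), (nat_lit 25257288), (nat_lit 16296408)] (nat_lit 11363143)) p12_17_1 (nat_lit 3) (nat_lit 17) (nat_lit 18) = true := by decide +kernel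
def p12_17_1_18 : pfC (piC [(nat_lit 40745421), (nat_lit 25257288), (nat_lit 16296408)] (nat_lit 11363143)) p12_17_1 (nat_lit 3) (nat_lit 18) (nat_lit 19) = true := by decide +kernel
def p12_17_1_19 : pfC (piC [(nat_lit 40745421), (nat_lit 25257288), (nat_lit 16296408)] (nat_lit 11363143)) p12_17_1 (nat_lit 3) (nat_lit 19) (nat_lit 20) = true := by decide +kernel
def p12_17_1_20 : pfC (piC [(nat_lit 40745421), (nat_lit 25257288), (nat_lit 16296408)] (nat_lit 11363143)) p12_17_1 (nat_lit 3) (nat_lit 20) (nat_lit 21) = true := by decide +kernel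
def p12_17_1_21 : pfC (piC [(nat_lit 40745421), (nat_lit 25257288), (nat_lit 16296408)] (nat_lit 11363143)) p12_17_1 (nat_lit 3) (nat_lit 21) (nat_lit 22) = true := by decide +kernel
def p12_17_1_22 : pfC (piC [(nat_lit 40745421), (nat_lit 25257288), (nat_lit 16296408)] (nat_lit 11363143)) p12_17_1 (nat_lit 3) (nat_lit 22) (nat_lit 23) = true := by decide +kernel
def p12_17_1_23 : pfC (piC [(nat_lit 40745421), (nat_lit 25257288), (nat_lit 16296408)] (nat_lit 11363143)) p12_17_1 (nat_lit 3) (nat_lit 23) (nat_lit 24) = true := by decide +kernel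
def p12_17_1_24 : pfC (piC [(nat_lit 40745421), (nat_lit 25257288), (nat_lit 16296408)] (nat_lit 11363143)) p12_17_1 (nat_lit 3) (nat_lit 24) (nat_lit 25) = true := by decide +kernel
def p12_17_1_25 : pfC (piC [(nat_lit 40745421), (nat_lit 25257288), (nat_lit 16296408)] (nat_lit 11363143)) p12_17_1 (nat_lit 3) (nat_lit 25) (nat_lit 26) = true := by decide +kernel
def p12_17_1_26 : pfC (piC [(nat_lit 40745421), (nat_lit 25257288), (nat_lit 16296408)] (nat_lit 11363143)) p12_17_1 (nat_lit 3) (nat_lit 26) (nat_lit 27) = true := by decide +kernel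
def p12_17_1_27 : pfC (piC [(nat_lit 40745421), (nat_lit 25257288), (nat_lit 16296408)] (nat_lit 11363143)) p12_17_1 (nat_lit 3) (nat_lit 27) (nat_lit 28) = true := by decide +kernel
def p12_17_1_28 : pfC (piC [(nat_lit 40745421), (nat_lit 25257288), (nat_lit 16296408)] (nat_lit 11363143)) p12_17_1 (nat_lit 3) (nat_lit 28) (nat_lit 29) = true := by decide +kernel
def p12_17_1_29 : pfC (piC [(nat_lit 40745421), (nat_lit 25257288), (nat_lit 16296408)] (nat_lit 11363143)) p12_17_1 (nat_lit 3) (nat_lit 29) (nat_lit 30) = true := by decide +kernel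
def p12_17_1_30 : pfC (piC [(nat_lit 40745421), (nat_lit 25257288), (nat_lit 16296408)] (nat_lit 11363143)) p12_17_1 (nat_lit 3) (nat_lit 30) (nat_lit 31) = true := by decide +kernel
def p12_17_1_31 : pfC (piC [(nat_lit 40745421), (nat_lit 25257288), (nat_lit 16296408)] (nat_lit 11363143)) p12_17_1 (nat_lit 3) (nat_lit 31) (nat_lit 32) = true := by decide +kernel
def p12_17_1_32 : pfC (piC [(nat_lit 40745421), (nat_lit 25257288), (nat_lit 16296408)] (nat_lit 11363143)) p12_17_1 (nat_lit 3) (nat_lit 32) (nat_lit 33) = true := by decide +kernel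
def p12_17_1_33 : pfC (piC [(nat_lit 40745421), (nat_lit 25257288), (nat_lit 16296408)] (nat_lit 11363143)) p12_17_1 (nat_lit 3) (nat_lit 33) (nat_lit 34) = true := by decide +kernel
def p12_17_1_34 : pfC (piC [(nat_lit 40745421), (nat_lit 25257288), (nat_lit 16296408)] (nat_lit 11363143)) p12_17_1 (nat_lit 3) (nat_lit 34) (nat_lit 35) = true := by decide +kernel
def p12_17_1_35 : pfC (piC [(nat_lit 40745421), (nat_lit 25257288), (nat_lit 16296408)] (nat_lit 11363143)) p12_17_1 (nat_lit 3) (nat_lit 35) (nat_lit 36) = true := by decide +kernel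
def p12_17_1_36 : pfC (piC [(nat_lit 40745421), (nat_lit 25257288), (nat_lit 16296408)] (nat_lit 11363143)) p12_17_1 (nat_lit 3) (nat_lit 36) (nat_lit 37) = true := by decide +kernel
def p12_17_1_37 : pfC (piC [(nat_lit 40745421), (nat_lit 25257288), (nat_lit 16296408)] (nat_lit 11363143)) p12_17_1 (nat_lit 3) (nat_lit 37) (nat_lit 38) = true := by decide +kernel
def p12_17_1_38 : pfC (piC [(nat_lit 40745421), (nat_lit 25257288), (nat_lit 16296408)] (nat_lit 11363143)) p12_17_1 (nat_lit 3) (nat_lit 38) (nat_lit 39) = true := by decide +kernel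
def p12_17_1_39 : pfC (piC [(nat_lit 40745421), (nat_lit 25257288), (nat_lit 16296408)] (nat_lit 11363143)) p12_17_1 (nat_lit 3) (nat_lit 39) (nat_lit 40) = true := by decide +kernel
def p12_17_1_40 : pfC (piC [(nat_lit 40745421), (nat_lit 25257288), (nat_lit 16296408)] (nat_lit 11363143)) p12_17_1 (nat_lit 3) (nat_lit 40) (nat_lit 41) = true := by decide +kernel
def p12_17_1_41 : pfC (piC [(nat_lit 40745421), (nat_lit 25257288), (nat_lit 16296408)] (nat_lit 11363143)) p12_17_1 (nat_lit 3) (nat_lit 41) (nat_lit 42) = true := by decide +kernel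
def p12_17_1_42 : pfC (piC [(nat_lit 40745421), (nat_lit 25257288), (nat_lit 16296408)] (nat_lit 11363143)) p12_17_1 (nat_lit 3) (nat_lit 42) (nat_lit 43) = true := by decide +kernel
def p12_17_1_43 : pfC (piC [(nat_lit 40745421), (nat_lit 25257288), (nat_lit 16296408)] (nat_lit 11363143)) p12_17_1 (nat_lit 3) (nat_lit 43) (nat_lit 44) = true := by decide +kernel
def p12_17_1_44 : pfC (piC [(nat_lit 40745421), (nat_lit 25257288), (nat_lit 16296408)] (nat_lit 11363143)) p12_17_1 (nat_lit 3) (nat_lit 44) (nat_lit 45) = true := by decide +kernel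
def p12_17_1_45 : pfC (piC [(nat_lit 40745421), (nat_lit 25257288), (nat_lit 16296408)] (nat_lit 11363143)) p12_17_1 (nat_lit 3) (nat_lit 45) (nat_lit 46) = true := by decide +kernel
def p12_17_1_46 : pfC (piC [(nat_lit 40745421), (nat_lit 25257288), (nat_lit 16296408)] (nat_lit 11363143)) p12_17_1 (nat_lit 3) (nat_lit 46) (nat_lit 47) = true := by decide +kernel
def p12_17_1_47 : pfC (piC [(nat_lit 40745421), (nat_lit 25257288), (nat_lit 16296408)] (nat_lit 11363143)) p12_17_1 (nat_lit 3) (nat_lit 47) (nat_lit 48) = true := by decide +kernel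
def p12_17_1_48 : pfC (piC [(nat_lit 40745421), (nat_lit 25257288), (nat_lit 16296408)] (nat_lit 11363143)) p12_17_1 (nat_lit 3) (nat_lit 48) (nat_lit 49) = true := by decide +kernel
def p12_17_1_49 : pfC (piC [(nat_lit 40745421), (nat_lit 25257288), (nat_lit 16296408)] (nat_lit 11363143)) p12_17_1 (nat_lit 3) (nat_lit 49) (nat_lit 50) = true := by decide +kernel
def p12_17_1_50 : pfC (piC [(nat_lit 40745421), (nat_lit 25257288), (nat_lit 16296408)] (nat_lit 11363143)) p12_17_1 (nat_lit 3) (nat_lit 50) (nat_lit 51) = true := by decide +kernel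
def p12_17_1_51 : pfC (piC [(nat_lit 40745421), (nat_lit 25257288), (nat_lit 16296408)] (nat_lit 11363143)) p12_17_1 (nat_lit 3) (nat_lit 51) (nat_lit 52) = true := by decide +kernel
def p12_17_1_52 : pfC (piC [(nat_lit 40745421), (nat_lit 25257288), (nat_lit 16296408)] (nat_lit 11363143)) p12_17_1 (nat_lit 3) (nat_lit 52) (nat_lit 53) = true := by decide +kernel
def p12_17_1_53 : pfC (piC [(nat_lit 40745421), (nat_lit 25257288), (nat_lit 16296408)] (nat_lit 11363143)) p12_17_1 (nat_lit 3) (nat_lit 53) (nat_lit 54) = true := by decide +kernel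
def p12_17_1_54 : pfC (piC [(nat_lit 40745421), (nat_lit 25257288), (nat_lit 16296408)] (nat_lit 11363143)) p12_17_1 (nat_lit 3) (nat_lit 54) (nat_lit 55) = true := by decide +kernel
def p12_17_1_55 : pfC (piC [(nat_lit 40745421), (nat_lit 25257288), (nat_lit 16296408)] (nat_lit 11363143)) p12_17_1 (nat_lit 3) (nat_lit 55) (nat_lit 56) = true := by decide +kernel
def p12_17_1_56 : pfC (piC [(nat_lit 40745421), (nat_lit 25257288), (nat_lit 16296408)] (nat_lit 11363143)) p12_17_1 (nat_lit 3) (nat_lit 56) (nat_lit 57) = true := by decide +kernel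
def p12_17_1_57 : pfC (piC [(nat_lit 40745421), (nat_lit 25257288), (nat_lit 16296408)] (nat_lit 11363143)) p12_17_1 (nat_lit 3) (nat_lit 57) (nat_lit 58) = true := by decide +kernel
def p12_17_1_58 : pfC (piC [(nat_lit 40745421), (nat_lit 25257288), (nat_lit 16296408)] (nat_lit 11363143)) p12_17_1 (nat_lit 3) (nat_lit 58) (nat_lit 59) = true := by decide +kernel
def p12_17_1_59 : pfC (piC [(nat_lit 40745421), (nat_lit 25257288), (nat_lit 16296408)] (nat_lit 11363143)) p12_17_1 (nat_lit 3) (nat_lit 59) (nat_lit 60) = true := by decide +kernel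
def p12_17_1_60 : pfC (piC [(nat_lit 40745421), (nat_lit 25257288), (nat_lit 16296408)] (nat_lit 11363143)) p12_17_1 (nat_lit 3) (nat_lit 60) (nat_lit 61) = true := by decide +kernel
def p12_17_1_61 : pfC (piC [(nat_lit 40745421), (nat_lit 25257288), (nat_lit 16296408)] (nat_lit 11363143)) p12_17_1 (nat_lit 3) (nat_lit 61) (nat_lit 62) = true := by decide +kernel
def p12_17_1_62 : pfC (piC [(nat_lit 40745421), (nat_lit 25257288), (nat_lit 16296408)] (nat_lit 11363143)) p12_17_1 (nat_lit 3) (nat_lit 62) (nat_lit 63) = true := by decide +kernel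
def p12_17_1_63 : pfC (piC [(nat_lit 40745421), (nat_lit 25257288), (nat_lit 16296408)] (nat_lit 11363143)) p12_17_1 (nat_lit 3) (nat_lit 63) (nat_lit 64) = true := by decide +kernel
def p12_17_1_64 : pfC (piC [(nat_lit 40745421), (nat_lit 25257288), (nat_lit 16296408)] (nat_lit 11363143)) p12_17_1 (nat_lit 3) (nat_lit 64) (nat_lit 65) = true := by decide +kernel
def p12_17_1_65 : pfC (piC [(nat_lit 40745421), (nat_lit 25257288), (nat_lit 16296408)] (nat_lit 11363143)) p12_17_1 (nat_lit 3) (nat_lit 65) (nat_lit 66) = true := by decide +kernel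
def p12_17_1_66 : pfC (piC [(nat_lit 40745421), (nat_lit 25257288), (nat_lit 16296408)] (nat_lit 11363143)) p12_17_1 (nat_lit 3) (nat_lit 66) (nat_lit 67) = true := by decide +kernel
def p12_17_1_67 : pfC (piC [(nat_lit 40745421), (nat_lit 25257288), (nat_lit 16296408)] (nat_lit 11363143)) p12_17_1 (nat_lit 3) (nat_lit 67) (nat_lit 68) = true := by decide +kernel
def p12_17_1_68 : pfC (piC [(nat_lit 40745421), (nat_lit 25257288), (nat_lit 16296408)] (nat_lit 11363143)) p12_17_1 (nat_lit 3) (nat_lit 68) (nat_lit 69) = true := by decide +kernel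
def p12_17_1_69 : pfC (piC [(nat_lit 40745421), (nat_lit 25257288), (nat_lit 16296408)] (nat_lit 11363143)) p12_17_1 (nat_lit 3) (nat_lit 69) (nat_lit 70) = true := by decide +kernel
def p12_17_1_70 : pfC (piC [(nat_lit 40745421), (nat_lit 25257288), (nat_lit 16296408)] (nat_lit 11363143)) p12_17_1 (nat_lit 3) (nat_lit 70) (nat_lit 71) = true := by decide +kernel
def p12_17_1_71 : pfC (piC [(nat_lit 40745421), (nat_lit 25257288), (nat_lit 16296408)] (nat_lit 11363143)) p12_17_1 (nat_lit 3) (nat_lit 71) (nat_lit 72) = true := by decide +kernel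
def p12_17_1_72 : pfC (piC [(nat_lit 40745421), (nat_lit 25257288), (nat_lit 16296408)] (nat_lit 11363143)) p12_17_1 (nat_lit 3) (nat_lit 72) (nat_lit 73) = true := by decide +kernel
def p12_17_1_73 : pfC (piC [(nat_lit 40745421), (nat_lit 25257288), (nat_lit 16296408)] (nat_lit 11363143)) p12_17_1 (nat_lit 3) (nat_lit 73) (nat_lit 74) = true := by decide +kernel
def p12_17_1_74 : pfC (piC [(nat_lit 40745421), (nat_lit 25257288), (nat_lit 16296408)] (nat_lit 11363143)) p12_17_1 (nat_lit 3) (nat_lit 74) (nat_lit 75) = true := by decide +kernel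
def p12_17_1_75 : pfC (piC [(nat_lit 40745421), (nat_lit 25257288), (nat_lit 16296408)] (nat_lit 11363143)) p12_17_1 (nat_lit 3) (nat_lit 75) (nat_lit 76) = true := by decide +kernel
def p12_17_1_76 : pfC (piC [(nat_lit 40745421), (nat_lit 25257288), (nat_lit 16296408)] (nat_lit 11363143)) p12_17_1 (nat_lit 3) (nat_lit 76) (nat_lit 77) = true := by decide +kernel
def p12_17_1_77 : pfC (piC [(nat_lit 40745421), (nat_lit 25257288), (nat_lit 16296408)] (nat_lit 11363143)) p12_17_1 (nat_lit 3) (nat_lit 77) (nat_lit 78) = true := by decide +kernel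
def p12_17_1_78 : pfC (piC [(nat_lit 40745421), (nat_lit 25257288), (nat_lit 16296408)] (nat_lit 11363143)) p12_17_1 (nat_lit 3) (nat_lit 78) (nat_lit 79) = true := by decide +kernel
def p12_17_1_79 : pfC (piC [(nat_lit 40745421), (nat_lit 25257288), (nat_lit 16296408)] (nat_lit 11363143)) p12_17_1 (nat_lit 3) (nat_lit 79) (nat_lit 80) = true := by decide +kernel
def p12_17_1_80 : pfC (piC [(nat_lit 40745421), (nat_lit 25257288), (nat_lit 16296408)] (nat_lit 11363143)) p12_17_1 (nat_lit 3) (nat_lit 80) (nat_lit 81) = true := by decide +kernel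
def p12_17_1_81 : pfC (piC [(nat_lit 40745421), (nat_lit 25257288), (nat_lit 16296408)] (nat_lit 11363143)) p12_17_1 (nat_lit 3) (nat_lit 81) (nat_lit 82) = true := by decide +kernel
def p12_17_1_82 : pfC (piC [(nat_lit 40745421), (nat_lit 25257288), (nat_lit 16296408)] (nat_lit 11363143)) p12_17_1 (nat_lit 3) (nat_lit 82) (nat_lit 83) = true := by decide +kernel
def p12_17_1_83 : pfC (piC [(nat_lit 40745421), (nat_lit 25257288), (nat_lit 16296408)] (nat_lit 11363143)) p12_17_1 (nat_lit 3) (nat_lit 83) (nat_lit 84) = true := by decide +kernel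
def p12_17_1_84 : pfC (piC [(nat_lit 40745421), (nat_lit 25257288), (nat_lit 16296408)] (nat_lit 11363143)) p12_17_1 (nat_lit 3) (nat_lit 84) (nat_lit 85) = true := by decide +kernel
def p12_17_1_85 : pfC (piC [(nat_lit 40745421), (nat_lit 25257288), (nat_lit 16296408)] (nat_lit 11363143)) p12_17_1 (nat_lit 3) (nat_lit 85) (nat_lit 86) = true := by decide +kernel
def p12_17_1_86 : pfC (piC [(nat_lit 40745421), (nat_lit 25257288), (nat_lit 16296408)] (nat_lit 11363143)) p12_17_1 (nat_lit 3) (nat_lit 86) (nat_lit 87) = true := by decide +kernel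
def p12_17_1_87 : pfC (piC [(nat_lit 40745421), (nat_lit 25257288), (nat_lit 16296408)] (nat_lit 11363143)) p12_17_1 (nat_lit 3) (nat_lit 87) (nat_lit 88) = true := by decide +kernel
def p12_17_1_88 : pfC (piC [(nat_lit 40745421), (nat_lit 25257288), (nat_lit 16296408)] (nat_lit 11363143)) p12_17_1 (nat_lit 3) (nat_lit 88) (nat_lit 89) = true := by decide +kernel
def p12_17_1_89 : pfC (piC [(nat_lit 40745421), (nat_lit 25257288), (nat_lit 16296408)] (nat_lit 11363143)) p12_17_1 (nat_lit 3) (nat_lit 89) (nat_lit 90) = true := by decide +kernel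
def p12_17_1_90 : pfC (piC [(nat_lit 40745421), (nat_lit 25257288), (nat_lit 16296408)] (nat_lit 11363143)) p12_17_1 (nat_lit 3) (nat_lit 90) (nat_lit 91) = true := by decide +kernel
def p12_17_1_91 : pfC (piC [(nat_lit 40745421), (nat_lit 25257288), (nat_lit 16296408)] (nat_lit 11363143)) p12_17_1 (nat_lit 3) (nat_lit 91) (nat_lit 92) = true := by decide +kernel
def p12_17_1_92 : pfC (piC [(nat_lit 40745421), (nat_lit 25257288), (nat_lit 16296408)] (nat_lit 11363143)) p12_17_1 (nat_lit 3) (nat_lit 92) (nat_lit 93) = true := by decide +kernel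
def p12_17_1_93 : pfC (piC [(nat_lit 40745421), (nat_lit 25257288), (nat_lit 16296408)] (nat_lit 11363143)) p12_17_1 (nat_lit 3) (nat_lit 93) (nat_lit 94) = true := by decide +kernel
def p12_17_1_94 : pfC (piC [(nat_lit 40745421), (nat_lit 25257288), (nat_lit 16296408)] (nat_lit 11363143)) p12_17_1 (nat_lit 3) (nat_lit 94) (nat_lit 95) = true := by decide +kernel
def p12_17_1_95 : pfC (piC [(nat_lit 40745421), (nat_lit 25257288), (nat_lit 16296408)] (nat_lit 11363143)) p12_17_1 (nat_lit 3) (nat_lit 95) (nat_lit 96) = true := by decide +kernel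
def p12_17_1_96 : pfC (piC [(nat_lit 40745421), (nat_lit 25257288), (nat_lit 16296408)] (nat_lit 11363143)) p12_17_1 (nat_lit 3) (nat_lit 96) (nat_lit 97) = true := by decide +kernel
def p12_17_1_97 : pfC (piC [(nat_lit 40745421), (nat_lit 25257288), (nat_lit 16296408)] (nat_lit 11363143)) p12_17_1 (nat_lit 3) (nat_lit 97) (nat_lit 98) = true := by decide +kernel
def p12_17_1_98 : pfC (piC [(nat_lit 40745421), (nat_lit 25257288), (nat_lit 16296408)] (nat_lit 11363143)) p12_17_1 (nat_lit 3) (nat_lit 98) (nat_lit 99) = true := by decide +kernel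
def p12_17_1_99 : pfC (piC [(nat_lit 40745421), (nat_lit 25257288), (nat_lit 16296408)] (nat_lit 11363143)) p12_17_1 (nat_lit 3) (nat_lit 99) (nat_lit 100) = true := by decide +kernel
def p12_17_1_100 : pfC (piC [(nat_lit 40745421), (nat_lit 25257288), (nat_lit 16296408)] (nat_lit 11363143)) p12_17_1 (nat_lit 3) (nat_lit 100) (nat_lit 101) = true := by decide +kernel
def p12_17_1_101 : pfC (piC [(nat_lit 40745421), (nat_lit 25257288), (nat_lit 16296408)] (nat_lit 11363143)) p12_17_1 (nat_lit 3) (nat_lit 101) (nat_lit 102) = true := by decide +kernel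
def p12_17_1_102 : pfC (piC [(nat_lit 40745421), (nat_lit 25257288), (nat_lit 16296408)] (nat_lit 11363143)) p12_17_1 (nat_lit 3) (nat_lit 102) (nat_lit 103) = true := by decide +kernel
def p12_17_1_103 : pfC (piC [(nat_lit 40745421), (nat_lit 25257288), (nat_lit 16296408)] (nat_lit 11363143)) p12_17_1 (nat_lit 3) (nat_lit 103) (nat_lit 104) = true := by decide +kernel
def p12_17_1_104 : pfC (piC [(nat_lit 40745421), (nat_lit 25257288), (nat_lit 16296408)] (nat_lit 11363143)) p12_17_1 (nat_lit 3) (nat_lit 104) (nat_lit 105) = true := by decide +kernel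
def p12_17_1_105 : pfC (piC [(nat_lit 40745421), (nat_lit 25257288), (nat_lit 16296408)] (nat_lit 11363143)) p12_17_1 (nat_lit 3) (nat_lit 105) (nat_lit 106) = true := by decide +kernel
def p12_17_1_106 : pfC (piC [(nat_lit 40745421), (nat_lit 25257288), (nat_lit 16296408)] (nat_lit 11363143)) p12_17_1 (nat_lit 3) (nat_lit 106) (nat_lit 107) = true := by decide +kernel
def p12_17_1_107 : pfC (piC [(nat_lit 40745421), (nat_lit 25257288), (nat_lit 16296408)] (nat_lit 11363143)) p12_17_1 (nat_lit 3) (nat_lit 107) (nat_lit 108) = true := by decide +kernel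
def p12_17_1_108 : pfC (piC [(nat_lit 40745421), (nat_lit 25257288), (nat_lit 16296408)] (nat_lit 11363143)) p12_17_1 (nat_lit 3) (nat_lit 108) (nat_lit 109) = true := by decide +kernel
def p12_17_1_109 : pfC (piC [(nat_lit 40745421), (nat_lit 25257288), (nat_lit 16296408)] (nat_lit 11363143)) p12_17_1 (nat_lit 3) (nat_lit 109) (nat_lit 110) = true := by decide +kernel
def p12_17_1_110 : pfC (piC [(nat_lit 40745421), (nat_lit 25257288), (nat_lit 16296408)] (nat_lit 11363143)) p12_17_1 (nat_lit 3) (nat_lit 110) (nat_lit 111) = true := by decide +kernel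
def p12_17_1_111 : pfC (piC [(nat_lit 40745421), (nat_lit 25257288), (nat_lit 16296408)] (nat_lit 11363143)) p12_17_1 (nat_lit 3) (nat_lit 111) (nat_lit 112) = true := by decide +kernel
def p12_17_1_112 : pfC (piC [(nat_lit 40745421), (nat_lit 25257288), (nat_lit 16296408)] (nat_lit 11363143)) p12_17_1 (nat_lit 3) (nat_lit 112) (nat_lit 113) = true := by decide +kernel
def p12_17_1_113 : pfC (piC [(nat_lit 40745421), (nat_lit 25257288), (nat_lit 16296408)] (nat_lit 11363143)) p12_17_1 (nat_lit 3) (nat_lit 113) (nat_lit 114) = true := by decide +kernel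
def p12_17_1_114 : pfC (piC [(nat_lit 40745421), (nat_lit 25257288), (nat_lit 16296408)] (nat_lit 11363143)) p12_17_1 (nat_lit 3) (nat_lit 114) (nat_lit 115) = true := by decide +kernel
def p12_17_1_115 : pfC (piC [(nat_lit 40745421), (nat_lit 25257288), (nat_lit 16296408)] (nat_lit 11363143)) p12_17_1 (nat_lit 3) (nat_lit 115) (nat_lit 116) = true := by decide +kernel
def p12_17_1_116 : pfC (piC [(nat_lit 40745421), (nat_lit 25257288), (nat_lit 16296408)] (nat_lit 11363143)) p12_17_1 (nat_lit 3) (nat_lit 116) (nat_lit 117) = true := by decide +kernel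
def p12_17_1_117 : pfC (piC [(nat_lit 40745421), (nat_lit 25257288), (nat_lit 16296408)] (nat_lit 11363143)) p12_17_1 (nat_lit 3) (nat_lit 117) (nat_lit 118) = true := by decide +kernel
def p12_17_1_118 : pfC (piC [(nat_lit 40745421), (nat_lit 25257288), (nat_lit 16296408)] (nat_lit 11363143)) p12_17_1 (nat_lit 3) (nat_lit 118) (nat_lit 119) = true := by decide +kernel
def p12_17_1_119 : pfC (piC [(nat_lit 40745421), (nat_lit 25257288), (nat_lit 16296408)] (nat_lit 11363143)) p12_17_1 (nat_lit 3) (nat_lit 119) (nat_lit 120) = true := by decide +kernel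
def p12_17_1_120 : pfC (piC [(nat_lit 40745421), (nat_lit 25257288), (nat_lit 16296408)] (nat_lit 11363143)) p12_17_1 (nat_lit 3) (nat_lit 120) (nat_lit 121) = true := by decide +kernel
def p12_17_1_121 : pfC (piC [(nat_lit 40745421), (nat_lit 25257288), (nat_lit 16296408)] (nat_lit 11363143)) p12_17_1 (nat_lit 3) (nat_lit 121) (nat_lit 122) = true := by decide +kernel
def p12_17_1_122 : pfC (piC [(nat_lit 40745421), (nat_lit 25257288), (nat_lit 16296408)] (nat_lit 11363143)) p12_17_1 (nat_lit 3) (nat_lit 122) (nat_lit 123) = true := by decide +kernel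
def p12_17_1_123 : pfC (piC [(nat_lit 40745421), (nat_lit 25257288), (nat_lit 16296408)] (nat_lit 11363143)) p12_17_1 (nat_lit 3) (nat_lit 123) (nat_lit 124) = true := by decide +kernel
def p12_17_1_124 : pfC (piC [(nat_lit 40745421), (nat_lit 25257288), (nat_lit 16296408)] (nat_lit 11363143)) p12_17_1 (nat_lit 3) (nat_lit 124) (nat_lit 125) = true := by decide +kernel
def p12_17_1_125 : pfC (piC [(nat_lit 40745421), (nat_lit 25257288), (nat_lit 16296408)] (nat_lit 11363143)) p12_17_1 (nat_lit 3) (nat_lit 125) (nat_lit 126) = true := by decide +kernel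
def p12_17_1_126 : pfC (piC [(nat_lit 40745421), (nat_lit 25257288), (nat_lit 16296408)] (nat_lit 11363143)) p12_17_1 (nat_lit 3) (nat_lit 126) (nat_lit 127) = true := by decide +kernel
def p12_17_1_127 : pfC (piC [(nat_lit 40745421), (nat_lit 25257288), (nat_lit 16296408)] (nat_lit 11363143)) p12_17_1 (nat_lit 3) (nat_lit 127) (nat_lit 128) = true := by decide +kernel
def p12_17_1_128 : pfC (piC [(nat_lit 40745421), (nat_lit 25257288), (nat_lit 16296408)] (nat_lit 11363143)) p12_17_1 (nat_lit 3) (nat_lit 128) (nat_lit 129) = true := by decide +kernel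
def p12_17_1_129 : pfC (piC [(nat_lit 40745421), (nat_lit 25257288), (nat_lit 16296408)] (nat_lit 11363143)) p12_17_1 (nat_lit 3) (nat_lit 129) (nat_lit 130) = true := by decide +kernel
def p12_17_1_130 : pfC (piC [(nat_lit 40745421), (nat_lit 25257288), (nat_lit 16296408)] (nat_lit 11363143)) p12_17_1 (nat_lit 3) (nat_lit 130) (nat_lit 131) = true := by decide +kernel
def p12_17_1_131 : pfC (piC [(nat_lit 40745421), (nat_lit 25257288), (nat_lit 16296408)] (nat_lit 11363143)) p12_17_1 (nat_lit 3) (nat_lit 131) (nat_lit 132) = true := by decide +kernel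
def p12_17_1_132 : pfC (piC [(nat_lit 40745421), (nat_lit 25257288), (nat_lit 16296408)] (nat_lit 11363143)) p12_17_1 (nat_lit 3) (nat_lit 132) (nat_lit 133) = true := by decide +kernel
def p12_17_1_133 : pfC (piC [(nat_lit 40745421), (nat_lit 25257288), (nat_lit 16296408)] (nat_lit 11363143)) p12_17_1 (nat_lit 3) (nat_lit 133) (nat_lit 134) = true := by decide +kernel
def p12_17_1_134 : pfC (piC [(nat_lit 40745421), (nat_lit 25257288), (nat_lit 16296408)] (nat_lit 11363143)) p12_17_1 (nat_lit 3) (nat_lit 134) (nat_lit 135) = true := by decide +kernel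
def p12_17_1_135 : pfC (piC [(nat_lit 40745421), (nat_lit 25257288), (nat_lit 16296408)] (nat_lit 11363143)) p12_17_1 (nat_lit 3) (nat_lit 135) (nat_lit 136) = true := by decide +kernel
def p12_17_1_136 : pfC (piC [(nat_lit 40745421), (nat_lit 25257288), (nat_lit 16296408)] (nat_lit 11363143)) p12_17_1 (nat_lit 3) (nat_lit 136) (nat_lit 137) = true := by decide +kernel
def p12_17_1_137 : pfC (piC [(nat_lit 40745421), (nat_lit 25257288), (nat_lit 16296408)] (nat_lit 11363143)) p12_17_1 (nat_lit 3) (nat_lit 137) (nat_lit 138) = true := by decide +kernel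
def p12_17_1_138 : pfC (piC [(nat_lit 40745421), (nat_lit 25257288), (nat_lit 16296408)] (nat_lit 11363143)) p12_17_1 (nat_lit 3) (nat_lit 138) (nat_lit 139) = true := by decide +kernel
def p12_17_1_139 : pfC (piC [(nat_lit 40745421), (nat_lit 25257288), (nat_lit 16296408)] (nat_lit 11363143)) p12_17_1 (nat_lit 3) (nat_lit 139) (nat_lit 140) = true := by decide +kernel
def p12_17_1_140 : pfC (piC [(nat_lit 40745421), (nat_lit 25257288), (nat_lit 16296408)] (nat_lit 11363143)) p12_17_1 (nat_lit 3) (nat_lit 140) (nat_lit 141) = true := by decide +kernel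
def p12_17_1_141 : pfC (piC [(nat_lit 40745421), (nat_lit 25257288), (nat_lit 16296408)] (nat_lit 11363143)) p12_17_1 (nat_lit 3) (nat_lit 141) (nat_lit 142) = true := by decide +kernel
def p12_17_1_142 : pfC (piC [(nat_lit 40745421), (nat_lit 25257288), (nat_lit 16296408)] (nat_lit 11363143)) p12_17_1 (nat_lit 3) (nat_lit 142) (nat_lit 143) = true := by decide +kernel
def p12_17_1_143 : pfC (piC [(nat_lit 40745421), (nat_lit 25257288), (nat_lit 16296408)] (nat_lit 11363143)) p12_17_1 (nat_lit 3) (nat_lit 143) (nat_lit 144) = true := by decide +kernel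
def p12_17_1_144 : pfC (piC [(nat_lit 40745421), (nat_lit 25257288), (nat_lit 16296408)] (nat_lit 11363143)) p12_17_1 (nat_lit 3) (nat_lit 144) (nat_lit 145) = true := by decide +kernel
def p12_17_1_145 : pfC (piC [(nat_lit 40745421), (nat_lit 25257288), (nat_lit 16296408)] (nat_lit 11363143)) p12_17_1 (nat_lit 3) (nat_lit 145) (nat_lit 146) = true := by decide +kernel
def p12_17_1_146 : pfC (piC [(nat_lit 40745421), (nat_lit 25257288), (nat_lit 16296408)] (nat_lit 11363143)) p12_17_1 (nat_lit 3) (nat_lit 146) (nat_lit 147) = true := by decide +kernel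
def p12_17_1_147 : pfC (piC [(nat_lit 40745421), (nat_lit 25257288), (nat_lit 16296408)] (nat_lit 11363143)) p12_17_1 (nat_lit 3) (nat_lit 147) (nat_lit 148) = true := by decide +kernel
def p12_17_1_148 : pfC (piC [(nat_lit 40745421), (nat_lit 25257288), (nat_lit 16296408)] (nat_lit 11363143)) p12_17_1 (nat_lit 3) (nat_lit 148) (nat_lit 149) = true := by decide +kernel
def p12_17_1_149 : pfC (piC [(nat_lit 40745421), (nat_lit 25257288), (nat_lit 16296408)] (nat_lit 11363143)) p12_17_1 (nat_lit 3) (nat_lit 149) (nat_lit 150) = true := by decide +kernel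
theorem p12_17_1_T : PfS (PiF n12_17.reverse (nat_lit 11363143)) p12_17_1 (nat_lit 3) [] 0 :=
  pftab_of (los := [(nat_lit 40745421), (nat_lit 25257288), (nat_lit 16296408)]) (by decide +kernel) (hi := (nat_lit 150)) (PfP.trans (PfP.trans (PfP.trans (PfP.trans (PfP.trans (PfP.trans (PfP.trans (PfP.trans (PfP.trans (PfP.trans (PfP.trans (PfP.trans (PfP.trans (PfP.trans (PfP.trans (PfP.trans (PfP.trans (PfP.trans (PfP.trans (PfP.trans (PfP.trans (PfP.trans (PfP.trans (PfP.trans (PfP.trans (PfP.trans (PfP.trans (PfP.trans (PfP.trans (PfP.trans (PfP.trans (PfP.trans (PfP.trans (PfP.trans (PfP.trans (PfP.trans (PfP.trans (PfP.trans (PfP.trans (PfP.trans (PfP.trans (PfP.trans (PfP.trans (PfP.trans (PfP.trans (PfP.trans (PfP.trans (PfP.trans (PfP.trans (PfP.trans (PfP.trans (PfP.trans (PfP.trans (PfP.trans (PfP.trans (PfP.trans (PfP.trans (PfP.trans (PfP.trans (PfP.trans (PfP.trans (PfP.trans (PfP.trans (PfP.trans (PfP.trans (PfP.trans (PfP.trans (PfP.trans (PfP.trans (PfP.trans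 (PfP.trans (PfP.trans (PfP.trans (PfP.trans (PfP.trans (PfP.trans (PfP.trans (PfP.trans (PfP.trans (PfP.trans (PfP.trans (PfP.trans (PfP.trans (PfP.trans (PfP.trans (PfP.trans (PfP.trans (PfP.trans (PfP.trans (PfP.trans (PfP.trans (PfP.trans (PfP.trans (PfP.trans (PfP.trans (PfP.trans (PfP.trans (PfP.trans (PfP.trans (PfP.trans (PfP.trans (PfP.trans (PfP.trans (PfP.trans (PfP.trans (PfP.trans (PfP.trans (PfP.trans (PfP.trans
 (PfP.trans (PfP.trans (PfP.trans (PfP.trans (PfP.trans (PfP.trans (PfP.trans (PfP.trans (PfP.trans (PfP.trans (PfP.trans (PfP.trans (PfP.trans (PfP.trans (PfP.trans (PfP.trans (PfP.trans (PfP.trans (PfP.trans (PfP.trans (PfP.trans (PfP.trans (PfP.trans (PfP.trans (PfP.trans (PfP.trans (PfP.trans (PfP.trans (PfP.trans (PfP.trans (PfP.trans (PfP.trans (PfP.trans (PfP.trans (PfP.trans (PfP.trans (PfP.trans (PfP.trans (PfP.trans (PfP.trans (pfC_sound p12_17_1_0) (pfC_sound p12_17_1_1)) (pfC_sound p12_17_1_2)) (pfC_sound p12_17_1_3)) (pfC_sound p12_17_1_4))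 (pfC_sound p12_17_1_5)) (pfC_sound p12_17_1_6)) (pfC_sound p12_17_1_7)) (pfC_sound p12_17_1_8)) (pfC_sound p12_17_1_9)) (pfC_sound p12_17_1_10)) (pfC_sound p12_17_1_11)) (pfC_sound p12_17_1_12)) (pfC_sound p12_17_1_13)) (pfC_sound p12_17_1_14)) (pfC_sound p12_17_1_15)) (pfC_sound p12_17_1_16)) (pfC_sound p12_17_1_17)) (pfC_sound p12_17_1_18)) (pfC_sound p12_17_1_19)) (pfC_sound p12_17_1_20)) (pfC_sound p12_17_1_21)) (pfC_sound p12_17_1_22)) (pfC_sound p12_17_1_23)) (pfC_sound p12_17_1_24)) (pfC_sound p12_17_1_25)) (pfC_sound p12_17_1_26)) (pfC_sound p12_17_1_27)) (pfC_sound p12_17_1_28)) (pfC_sound p12_17_1_29)) (pfC_sound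
 p12_17_1_30)) (pfC_sound p12_17_1_31)) (pfC_sound p12_17_1_32)) (pfC_sound p12_17_1_33)) (pfC_sound p12_17_1_34)) (pfC_sound p12_17_1_35)) (pfC_sound p12_17_1_36)) (pfC_sound p12_17_1_37)) (pfC_sound p12_17_1_38)) (pfC_sound p12_17_1_39)) (pfC_sound p12_17_1_40)) (pfC_sound p12_17_1_41)) (pfC_sound p12_17_1_42)) (pfC_sound p12_17_1_43)) (pfC_sound p12_17_1_44)) (pfC_sound p12_17_1_45)) (pfC_sound p12_17_1_46)) (pfC_sound p12_17_1_47)) (pfC_sound p12_17_1_48)) (pfC_sound p12_17_1_49)) (pfC_sound p12_17_1_50)) (pfC_sound p12_17_1_51)) (pfC_sound p12_17_1_52)) (pfC_sound p12_17_1_53)) (pfC_sound p12_17_1_54)) (pfC_sound p12_17_1_55)) (pfC_sound p12_17_1_56)) (pfC_sound p12_17_1_57)) (pfC_sound p12_17_1_58)) (pfC_sound p12_17_1_59)) (pfC_sound p12_17_1_60)) (pfC_sound p12_17_1_61)) (pfC_sound p12_17_1_62)) (pfC_sound p12_17_1_63)) (pfC_sound p12_17_1_64)) (pfC_sound p12_17_1_65)) (pfC_sound p12_17_1_66)) (pfC_sound p12_17_1_67)) (pfC_sound p12_17_1_68)) (pfC_sound p12_17_1_69))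 (pfC_sound p12_17_1_70)) (pfC_sound p12_17_1_71)) (pfC_sound p12_17_1_72)) (pfC_sound p12_17_1_73)) (pfC_sound p12_17_1_74)) (pfC_sound p12_17_1_75)) (pfC_sound p12_17_1_76)) (pfC_sound p12_17_1_77)) (pfC_sound
 p12_17_1_78)) (pfC_sound p12_17_1_79)) (pfC_sound p12_17_1_80)) (pfC_sound p12_17_1_81)) (pfC_sound p12_17_1_82)) (pfC_sound p12_17_1_83)) (pfC_sound p12_17_1_84)) (pfC_sound p12_17_1_85)) (pfC_sound p12_17_1_86)) (pfC_sound p12_17_1_87)) (pfC_sound p12_17_1_88)) (pfC_sound p12_17_1_89)) (pfC_sound p12_17_1_90)) (pfC_sound p12_17_1_91)) (pfC_sound p12_17_1_92)) (pfC_sound p12_17_1_93)) (pfC_sound p12_17_1_94)) (pfC_sound p12_17_1_95)) (pfC_sound p12_17_1_96)) (pfC_sound p12_17_1_97)) (pfC_sound p12_17_1_98)) (pfC_sound p12_17_1_99)) (pfC_sound p12_17_1_100)) (pfC_sound p12_17_1_101)) (pfC_sound p12_17_1_102)) (pfC_sound p12_17_1_103)) (pfC_sound p12_17_1_104)) (pfC_sound p12_17_1_105)) (pfC_sound p12_17_1_106)) (pfC_sound p12_17_1_107)) (pfC_sound p12_17_1_108))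 (pfC_sound p12_17_1_109)) (pfC_sound p12_17_1_110)) (pfC_sound p12_17_1_111)) (pfC_sound p12_17_1_112)) (pfC_sound p12_17_1_113)) (pfC_sound p12_17_1_114)) (pfC_sound p12_17_1_115)) (pfC_sound p12_17_1_116)) (pfC_sound p12_17_1_117)) (pfC_sound p12_17_1_118)) (pfC_sound p12_17_1_119)) (pfC_sound p12_17_1_120)) (pfC_sound p12_17_1_121)) (pfC_sound p12_17_1_122)) (pfC_sound p12_17_1_123)) (pfC_sound p12_17_1_124)) (pfC_sound
 p12_17_1_125)) (pfC_sound p12_17_1_126)) (pfC_sound p12_17_1_127)) (pfC_sound p12_17_1_128)) (pfC_sound p12_17_1_129)) (pfC_sound p12_17_1_130)) (pfC_sound p12_17_1_131)) (pfC_sound p12_17_1_132)) (pfC_sound p12_17_1_133)) (pfC_sound p12_17_1_134)) (pfC_sound p12_17_1_135)) (pfC_sound p12_17_1_136)) (pfC_sound p12_17_1_137)) (pfC_sound p12_17_1_138)) (pfC_sound p12_17_1_139)) (pfC_sound p12_17_1_140)) (pfC_sound p12_17_1_141)) (pfC_sound p12_17_1_142)) (pfC_sound p12_17_1_143)) (pfC_sound p12_17_1_144)) (pfC_sound p12_17_1_145)) (pfC_sound p12_17_1_146))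 (pfC_sound p12_17_1_147)) (pfC_sound p12_17_1_148)) (pfC_sound p12_17_1_149)) (by decide +kernel)

def z12_17_1 : zOK yB12_17 (nat_lit 1) (nat_lit 400) (nat_lit 600) (nat_lit 11363143) (nat_lit 7528973) = true := by decide +kernel
def g12_17_1 : gOK yB12_17.x P12_17 (nat_lit 1396) (q12_17 :: r12_17) (nat_lit 1) (nat_lit 400) (nat_lit 2) (nat_lit 600) (nat_lit 11000000) (nat_lit 17850000) (nat_lit 12712500) (nat_lit 12712500) [(nat_lit 800), (nat_lit 1600)] = true := by decide +kernel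
def v12_17_1 : ivC P12_17 s12_17 w12_17 n12_17 (nat_lit 3) (nat_lit 4920) (nat_lit 1) (nat_lit 400) f176_0_400 f184_0_400 (nat_lit 2) (nat_lit 600) f176_0_600 f184_0_600 (nat_lit 11363143) (nat_lit 7528973) p12_17_1 = true := by decide +kernel
def p12_17_2 : PF := (PF.cons (PF.cons (PF.cons (PF.leaf (nat_lit 2498273) (nat_lit 13385617) (nat_lit 53723195) (nat_lit 13385617) [(nat_lit 0), (nat_lit 0), (nat_lit 0)]) (PF.cons (PF.leaf (nat_lit 2647214) (nat_lit 254493) (nat_lit 53469268) (nat_lit 13385051) [(nat_lit 254493), (nat_lit 0), (nat_lit 0)]) (PF.cons (PF.leaf (nat_lit 2824003) (nat_lit 276767) (nat_lit 53172180) (nat_lit 13383097) [(nat_lit 276767), (nat_lit 0), (nat_lit 0)]) (PF.cons (PF.leaf (nat_lit 3022656) (nat_lit 296546) (nat_lit 52839856) (nat_lit 13379317) [(nat_lit 296546), (nat_lit 0), (nat_lit 0)]) (PF.cons (PF.leaf (nat_lit 3239957) (nat_lit 314389) (nat_lit 52477912) (nat_lit 13373341) [(nat_lit 314389), (nat_lit 0), (nat_lit 0)]) (PF.cons (PF.leaf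 (nat_lit 3473608) (nat_lit 330655) (nat_lit 52090671) (nat_lit 13364862) [(nat_lit 330655), (nat_lit 0), (nat_lit 0)]) (PF.cons (PF.leaf (nat_lit 3721694) (nat_lit 345588) (nat_lit 51681652) (nat_lit 13353627) [(nat_lit 345588), (nat_lit 0), (nat_lit 0)]) (PF.cons (PF.leaf (nat_lit 3982577) (nat_lit 359364) (nat_lit 51253819) (nat_lit 13339440) [(nat_lit 359364), (nat_lit 0), (nat_lit 0)]) (PF.cons (PF.leaf (nat_lit 4254941) (nat_lit 372115) (nat_lit 50809735) (nat_lit
 13322150) [(nat_lit 372115), (nat_lit 0), (nat_lit 0)]) (PF.cons (PF.leaf (nat_lit 4537445) (nat_lit 383945) (nat_lit 50351651) (nat_lit 13301649) [(nat_lit 383945), (nat_lit 0), (nat_lit 0)]) (PF.cons (PF.leaf (nat_lit 4829076) (nat_lit 394936) (nat_lit 49881574) (nat_lit 13277871) [(nat_lit 394936), (nat_lit 0), (nat_lit 0)]) (PF.cons (PF.leaf (nat_lit 5128757) (nat_lit 405156) (nat_lit 49401306) (nat_lit 13250784) [(nat_lit 405156), (nat_lit 0), (nat_lit 0)]) (PF.cons (PF.leaf (nat_lit 5435571)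 (nat_lit 414662) (nat_lit 48912477) (nat_lit 13220385) [(nat_lit 414662), (nat_lit 0), (nat_lit 0)]) (PF.cons (PF.leaf (nat_lit 5748676) (nat_lit 423503) (nat_lit 48416567) (nat_lit 13186700) [(nat_lit 423503), (nat_lit 0), (nat_lit 0)]) (PF.cons PF.nil (PF.cons PF.nil PF.nil)))))))))))))))) (PF.cons (PF.cons (PF.leaf (nat_lit 3148347) (nat_lit 1597395) (nat_lit 52153354) (nat_lit 13358062) [(nat_lit 0), (nat_lit 1597395), (nat_lit 0)]) (PF.cons (PF.leaf (nat_lit 3344932) (nat_lit 314048) (nat_lit 51818231) (nat_lit 13349283) [(nat_lit 314048), (nat_lit 1627250), (nat_lit 0)]) (PF.cons (PF.leaf (nat_lit 3562210) (nat_lit 330824) (nat_lit 51452357) (nat_lit 13337950) [(nat_lit 330824),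
 (nat_lit 1656856), (nat_lit 0)]) (PF.cons (PF.leaf (nat_lit 3796129) (nat_lit 346007) (nat_lit 51061268) (nat_lit 13323868) [(nat_lit 346007), (nat_lit 1685651), (nat_lit 0)]) (PF.cons (PF.leaf (nat_lit 4044397) (nat_lit 359882) (nat_lit 50649087) (nat_lit 13306878) [(nat_lit 359882), (nat_lit 1713315), (nat_lit 0)]) (PF.cons (PF.leaf (nat_lit 4305302) (nat_lit 372640) (nat_lit 50219089) (nat_lit 13286856) [(nat_lit 372640), (nat_lit 1739663), (nat_lit 0)]) (PF.cons (PF.leaf (nat_lit 4577236) (nat_lit 384418) (nat_lit 49773985) (nat_lit 13263719) [(nat_lit 384418), (nat_lit 1764594), (nat_lit 0)]) (PF.cons (PF.leaf (nat_lit 4859009) (nat_lit 395321) (nat_lit 49316088) (nat_lit 13237414) [(nat_lit 395321), (nat_lit 1788058), (nat_lit 0)]) (PF.cons (PF.leaf (nat_lit 5149404) (nat_lit 405430) (nat_lit 48847407) (nat_lit 13207921) [(nat_lit 405430), (nat_lit 1810038), (nat_lit 0)]) (PF.cons (PF.leaf (nat_lit 5447424) (nat_lit 414811) (nat_lit 48369720) (nat_lit 13175248)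 [(nat_lit 414811), (nat_lit 1830538), (nat_lit 0)]) (PF.cons (PF.leaf (nat_lit 5752156) (nat_lit 423520) (nat_lit 47884606) (nat_lit 13139426) [(nat_lit 423520), (nat_lit 1849577), (nat_lit 0)]) (PF.cons (PF.leaf
 (nat_lit 6062762) (nat_lit 431603) (nat_lit 47393486) (nat_lit 13100507) [(nat_lit 431603), (nat_lit 1867184), (nat_lit 0)]) (PF.cons PF.nil (PF.cons PF.nil PF.nil)))))))))))))) (PF.cons (PF.cons (PF.leaf (nat_lit 3887198) (nat_lit 1706862) (nat_lit 50407334) (nat_lit 13287754) [(nat_lit 0), (nat_lit 1706862), (nat_lit 0)]) (PF.cons (PF.leaf (nat_lit 4118189) (nat_lit 358705) (nat_lit 50018873) (nat_lit 13268608) [(nat_lit 358705), (nat_lit 1731312), (nat_lit 0)]) (PF.cons (PF.leaf (nat_lit 4364876) (nat_lit 371823) (nat_lit 49608808) (nat_lit 13246403) [(nat_lit 371823), (nat_lit 1754977), (nat_lit 0)]) (PF.cons (PF.leaf (nat_lit 4624250) (nat_lit 383799) (nat_lit 49181083) (nat_lit 13221104) [(nat_lit 383799), (nat_lit 1777613), (nat_lit 0)]) (PF.cons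 (PF.leaf (nat_lit 4894662) (nat_lit 394797) (nat_lit 48738769) (nat_lit 13192693) [(nat_lit 394797), (nat_lit 1799080), (nat_lit 0)]) (PF.cons (PF.leaf (nat_lit 5174636) (nat_lit 404934) (nat_lit 48284368) (nat_lit 13161174) [(nat_lit 404934), (nat_lit 1819298), (nat_lit 0)]) (PF.cons (PF.leaf (nat_lit 5462985) (nat_lit 414299) (nat_lit 47819985) (nat_lit 13126571) [(nat_lit 414299), (nat_lit 1838228), (nat_lit 0)]) (PF.cons
 (PF.leaf (nat_lit 5758655) (nat_lit 422962) (nat_lit 47347431) (nat_lit 13088925) [(nat_lit 422962), (nat_lit 1855857), (nat_lit 0)]) (PF.cons (PF.leaf (nat_lit 6060713) (nat_lit 430980) (nat_lit 46868286) (nat_lit 13048297) [(nat_lit 430980), (nat_lit 1872191), (nat_lit 0)]) (PF.cons (PF.leaf (nat_lit 6368317) (nat_lit 438401) (nat_lit 46383947) (nat_lit 13004764) [(nat_lit 438401), (nat_lit 1887246), (nat_lit 0)]) (PF.cons (PF.leaf (nat_lit 6680690) (nat_lit 445264) (nat_lit 45895655) (nat_lit 12958412) [(nat_lit 445264), (nat_lit 1901048),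 (nat_lit 0)]) (PF.cons PF.nil PF.nil)))))))))))) (PF.cons (PF.cons (PF.leaf (nat_lit 4684337) (nat_lit 1790107) (nat_lit 48565387) (nat_lit 13173102) [(nat_lit 0), (nat_lit 1790107), (nat_lit 0)]) (PF.cons (PF.leaf (nat_lit 4939978) (nat_lit 393071) (nat_lit 48144114) (nat_lit 13143187) [(nat_lit 393071), (nat_lit 1809479), (nat_lit 0)]) (PF.cons (PF.leaf (nat_lit 5207549) (nat_lit 403460) (nat_lit 47708061) (nat_lit 13110147) [(nat_lit 403460), (nat_lit 1827894), (nat_lit 0)]) (PF.cons (PF.leaf (nat_lit 5484727) (nat_lit 412973) (nat_lit 47260105) (nat_lit 13074050) [(nat_lit 412973), (nat_lit 1845245), (nat_lit 0)]) (PF.cons (PF.leaf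
 (nat_lit 5770195) (nat_lit 421716) (nat_lit 46802560) (nat_lit 13034964) [(nat_lit 421716), (nat_lit 1861474), (nat_lit 0)]) (PF.cons (PF.leaf (nat_lit 6062819) (nat_lit 429767) (nat_lit 46337344) (nat_lit 12992968) [(nat_lit 429767), (nat_lit 1876554), (nat_lit 0)]) (PF.cons (PF.leaf (nat_lit 6361620) (nat_lit 437188) (nat_lit 45866091) (nat_lit 12948150) [(nat_lit 437188), (nat_lit 1890480), (nat_lit 0)]) (PF.cons (PF.leaf (nat_lit 6665729) (nat_lit 444030) (nat_lit 45390212) (nat_lit 12900606) [(nat_lit 444030), (nat_lit 1903260), (nat_lit 0)]) (PF.cons (PF.leaf (nat_lit 6974354) (nat_lit 450336) (nat_lit 44910940) (nat_lit 12850441) [(nat_lit 450336), (nat_lit 1914912), (nat_lit 0)]) (PF.cons PF.nil PF.nil)))))))))) (PF.cons (PF.cons (PF.leaf (nat_lit 5516991) (nat_lit 1851735) (nat_lit 46684755) (nat_lit 13017113) [(nat_lit 0), (nat_lit 1851735), (nat_lit 0)]) (PF.cons (PF.leaf (nat_lit 5789738) (nat_lit 419582) (nat_lit 46245999) (nat_lit 12977108) [(nat_lit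 419582), (nat_lit 1866530), (nat_lit 0)]) (PF.cons (PF.leaf (nat_lit 6071444) (nat_lit 427816) (nat_lit 45797592) (nat_lit 12934185) [(nat_lit 427816), (nat_lit 1880350), (nat_lit 0)]) (PF.cons (PF.leaf (nat_lit 6360309)
 (nat_lit 435352) (nat_lit 45341669) (nat_lit 12888462) [(nat_lit 435352), (nat_lit 1893156), (nat_lit 0)]) (PF.cons (PF.leaf (nat_lit 6655256) (nat_lit 442262) (nat_lit 44879979) (nat_lit 12840058) [(nat_lit 442262), (nat_lit 1904931), (nat_lit 0)]) (PF.cons (PF.leaf (nat_lit 6955420) (nat_lit 448603) (nat_lit 44413996) (nat_lit 12789091) [(nat_lit 448603), (nat_lit 1915677), (nat_lit 0)]) (PF.cons (PF.leaf (nat_lit 7259973) (nat_lit 454422) (nat_lit 43944979) (nat_lit 12735681) [(nat_lit 454422), (nat_lit 1925404), (nat_lit 0)]) (PF.cons PF.nil PF.nil)))))))) (PF.cons (PF.cons (PF.leaf (nat_lit 6367706) (nat_lit 1895346) (nat_lit 44806843) (nat_lit 12825236) [(nat_lit 0), (nat_lit 1895346), (nat_lit 0)]) (PF.cons (PF.leaf (nat_lit 6651582) (nat_lit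 439820) (nat_lit 44362008) (nat_lit 12776409) [(nat_lit 439820), (nat_lit 1906114), (nat_lit 0)]) (PF.cons (PF.leaf (nat_lit 6942125) (nat_lit 446301) (nat_lit 43911376) (nat_lit 12725011) [(nat_lit 446301), (nat_lit 1915964), (nat_lit 0)]) (PF.cons (PF.leaf (nat_lit 7237853) (nat_lit 452214) (nat_lit 43456542) (nat_lit 12671187) [(nat_lit 452214), (nat_lit 1924888), (nat_lit 0)]) (PF.cons (PF.leaf (nat_lit 7537903) (nat_lit 457610)
 (nat_lit 42998833) (nat_lit 12615074) [(nat_lit 457610), (nat_lit 1932892), (nat_lit 0)]) (PF.cons (PF.leaf (nat_lit 7841585) (nat_lit 462534) (nat_lit 42539373) (nat_lit 12556808) [(nat_lit 462534), (nat_lit 1939992), (nat_lit 0)]) PF.nil)))))) (PF.cons (PF.cons (PF.leaf (nat_lit 7223123) (nat_lit 1923945) (nat_lit 42961232) (nat_lit 12603907) [(nat_lit 0), (nat_lit 1923945), (nat_lit 0)]) (PF.cons (PF.leaf (nat_lit 7513481) (nat_lit 454942) (nat_lit 42518677) (nat_lit 12547772) [(nat_lit 454942), (nat_lit 1931236), (nat_lit 0)]) (PF.cons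 (PF.leaf (nat_lit 7808682) (nat_lit 459979) (nat_lit 42073199) (nat_lit 12489473) [(nat_lit 459979), (nat_lit 1937696), (nat_lit 0)]) (PF.cons (PF.leaf (nat_lit 8107480) (nat_lit 464547) (nat_lit 41625993) (nat_lit 12429159) [(nat_lit 464547), (nat_lit 1943336), (nat_lit 0)]) PF.nil)))) (PF.cons (PF.cons (PF.leaf (nat_lit 8073188) (nat_lit 1940103) (nat_lit 41168452) (nat_lit 12359638) [(nat_lit 0), (nat_lit 1940103), (nat_lit 0)]) (PF.cons (PF.leaf (nat_lit 8366393) (nat_lit 465861) (nat_lit 40734160) (nat_lit 12297741) [(nat_lit 465861), (nat_lit 1944435), (nat_lit 0)]) PF.nil)) (PF.cons PF.nil (PF.cons PF.nil (PF.cons PF.nil PF.nil)))))))))))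
 (PF.cons (PF.cons (PF.cons (PF.leaf (nat_lit 4171168) (nat_lit 6256395) (nat_lit 47819526) (nat_lit 13032891) [(nat_lit 0), (nat_lit 0), (nat_lit 6256395)]) (PF.cons (PF.leaf (nat_lit 4375200) (nat_lit 340773) (nat_lit 47492470) (nat_lit 13009036) [(nat_lit 340773), (nat_lit 0), (nat_lit 6266532)]) (PF.cons (PF.leaf (nat_lit 4598389) (nat_lit 356227) (nat_lit 47138461) (nat_lit 12981854) [(nat_lit 356227), (nat_lit 0), (nat_lit 6276041)]) (PF.cons (PF.leaf (nat_lit 4836553) (nat_lit 369875) (nat_lit 46763125) (nat_lit 12951521) [(nat_lit 369875), (nat_lit 0), (nat_lit 6284539)]) (PF.cons (PF.leaf (nat_lit 5087293) (nat_lit 382082) (nat_lit 46370561) (nat_lit 12918157) [(nat_lit 382082), (nat_lit 0), (nat_lit 6291762)]) (PF.cons (PF.leaf (nat_lit 5348774) (nat_lit 393096) (nat_lit 45963941) (nat_lit 12881864) [(nat_lit 393096), (nat_lit 0), (nat_lit 6297522)]) (PF.cons (PF.leaf (nat_lit 5619559) (nat_lit 403094) (nat_lit 45545820) (nat_lit 12842735) [(nat_lit 403094),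 (nat_lit 0), (nat_lit 6301689)]) (PF.cons (PF.leaf (nat_lit 5898322) (nat_lit 412207) (nat_lit 45118319) (nat_lit 12800860) [(nat_lit 412207), (nat_lit 0), (nat_lit 6304179)]) (PF.cons (PF.leaf (nat_lit 6184016)
 (nat_lit 420537) (nat_lit 44683236) (nat_lit 12756335) [(nat_lit 420537), (nat_lit 0), (nat_lit 6304941)]) (PF.cons (PF.leaf (nat_lit 6475702) (nat_lit 428165) (nat_lit 44242117) (nat_lit 12709258) [(nat_lit 428165), (nat_lit 0), (nat_lit 6303948)]) (PF.cons (PF.leaf (nat_lit 6772546) (nat_lit 435157) (nat_lit 43796310) (nat_lit 12659731) [(nat_lit 435157), (nat_lit 0), (nat_lit 6301199)]) (PF.cons (PF.leaf (nat_lit 7073797) (nat_lit 441567) (nat_lit 43346998) (nat_lit 12607862) [(nat_lit 441567), (nat_lit 0), (nat_lit 6296705)]) (PF.cons PF.nil (PF.cons PF.nil PF.nil)))))))))))))) (PF.cons (PF.cons (PF.leaf (nat_lit 4906101) (nat_lit 1772817) (nat_lit 46159554) (nat_lit 12892333) [(nat_lit 0), (nat_lit 1772817), (nat_lit 6284107)]) (PF.cons (PF.leaf (nat_lit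 5139063) (nat_lit 378281) (nat_lit 45792272) (nat_lit 12858866) [(nat_lit 378281), (nat_lit 1790528), (nat_lit 6288864)]) (PF.cons (PF.leaf (nat_lit 5386029) (nat_lit 389919) (nat_lit 45406944) (nat_lit 12822245) [(nat_lit 389919), (nat_lit 1807395), (nat_lit 6292388)]) (PF.cons (PF.leaf (nat_lit 5644099) (nat_lit 400337) (nat_lit 45007353) (nat_lit 12782663) [(nat_lit 400337), (nat_lit 1823267), (nat_lit 6294514)]) (PF.cons
 (PF.leaf (nat_lit 5911580) (nat_lit 409738) (nat_lit 44596382) (nat_lit 12740272) [(nat_lit 409738), (nat_lit 1838072), (nat_lit 6295132)]) (PF.cons (PF.leaf (nat_lit 6187043) (nat_lit 418264) (nat_lit 44176330) (nat_lit 12695208) [(nat_lit 418264), (nat_lit 1851778), (nat_lit 6294172)]) (PF.cons (PF.leaf (nat_lit 6469356) (nat_lit 426026) (nat_lit 43749084) (nat_lit 12647598) [(nat_lit 426026), (nat_lit 1864378), (nat_lit 6291595)]) (PF.cons (PF.leaf (nat_lit 6757525) (nat_lit 433106) (nat_lit 43316232) (nat_lit 12597561) [(nat_lit 433106),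 (nat_lit 1875885), (nat_lit 6287388)]) (PF.cons (PF.leaf (nat_lit 7050730) (nat_lit 439573) (nat_lit 42879131) (nat_lit 12545220) [(nat_lit 439573), (nat_lit 1886320), (nat_lit 6281554)]) (PF.cons (PF.leaf (nat_lit 7348184) (nat_lit 445482) (nat_lit 42438955) (nat_lit 12490692) [(nat_lit 445482), (nat_lit 1895711), (nat_lit 6274112)]) (PF.cons PF.nil (PF.cons PF.nil PF.nil)))))))))))) (PF.cons (PF.cons (PF.leaf (nat_lit 5682845) (nat_lit 1827872) (nat_lit 44449842) (nat_lit 12717930) [(nat_lit 0), (nat_lit 1827872), (nat_lit 6285294)]) (PF.cons (PF.leaf (nat_lit 5935640) (nat_lit 406115) (nat_lit 44060196) (nat_lit 12675698) [(nat_lit 406115),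
 (nat_lit 1841301), (nat_lit 6284199)]) (PF.cons (PF.leaf (nat_lit 6198840) (nat_lit 415068) (nat_lit 43658701) (nat_lit 12630633) [(nat_lit 415068), (nat_lit 1853835), (nat_lit 6281670)]) (PF.cons (PF.leaf (nat_lit 6470258) (nat_lit 423130) (nat_lit 43247999) (nat_lit 12582929) [(nat_lit 423130), (nat_lit 1865419), (nat_lit 6277652)]) (PF.cons (PF.leaf (nat_lit 6748602) (nat_lit 430424) (nat_lit 42830172) (nat_lit 12532754) [(nat_lit 430424), (nat_lit 1876032), (nat_lit 6272121)]) (PF.cons (PF.leaf (nat_lit 7032806) (nat_lit 437044) (nat_lit 42406913) (nat_lit 12480257) [(nat_lit 437044), (nat_lit 1885673), (nat_lit 6265071)]) (PF.cons (PF.leaf (nat_lit 7321955) (nat_lit 443063) (nat_lit 41979635) (nat_lit 12425577) [(nat_lit 443063), (nat_lit 1894353), (nat_lit 6256512)]) (PF.cons (PF.leaf (nat_lit 7615270) (nat_lit 448538) (nat_lit 41549535) (nat_lit 12368847) [(nat_lit 448538), (nat_lit 1902094), (nat_lit 6246470)]) (PF.cons PF.nil (PF.cons PF.nil PF.nil))))))))))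 (PF.cons (PF.cons (PF.leaf (nat_lit 6482548) (nat_lit 1866086) (nat_lit 42733985) (nat_lit 12514576) [(nat_lit 0), (nat_lit 1866086), (nat_lit 6261989)]) (PF.cons (PF.leaf (nat_lit 6748551) (nat_lit 426901) (nat_lit
 42334467) (nat_lit 12464796) [(nat_lit 426901), (nat_lit 1875784), (nat_lit 6255295)]) (PF.cons (PF.leaf (nat_lit 7022243) (nat_lit 433826) (nat_lit 41927526) (nat_lit 12412576) [(nat_lit 433826), (nat_lit 1884627), (nat_lit 6247173)]) (PF.cons (PF.leaf (nat_lit 7301961) (nat_lit 440069) (nat_lit 41515053) (nat_lit 12358103) [(nat_lit 440069), (nat_lit 1892605), (nat_lit 6237630)]) (PF.cons (PF.leaf (nat_lit 7586683) (nat_lit 445710) (nat_lit 41098577) (nat_lit 12301543) [(nat_lit 445710), (nat_lit 1899721), (nat_lit 6226684)]) (PF.cons (PF.leaf (nat_lit 7875564) (nat_lit 450815) (nat_lit 40679357) (nat_lit 12243045) [(nat_lit 450815), (nat_lit 1905989), (nat_lit 6214364)]) (PF.cons PF.nil (PF.cons PF.nil PF.nil)))))))) (PF.cons (PF.cons (PF.leaf (nat_lit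 7291374) (nat_lit 1890501) (nat_lit 41041726) (nat_lit 12287745) [(nat_lit 0), (nat_lit 1890501), (nat_lit 6217336)]) (PF.cons (PF.leaf (nat_lit 7565541) (nat_lit 442250) (nat_lit 40641172) (nat_lit 12231776) [(nat_lit 442250), (nat_lit 1896995), (nat_lit 6205633)]) (PF.cons (PF.leaf (nat_lit 7845391) (nat_lit 447584) (nat_lit 40236392) (nat_lit 12173779) [(nat_lit 447584), (nat_lit 1902714), (nat_lit 6192615)]) (PF.cons (PF.leaf
 (nat_lit 8129509) (nat_lit 452379) (nat_lit 39828764) (nat_lit 12113927) [(nat_lit 452379), (nat_lit 1907666), (nat_lit 6178319)]) (PF.cons (PF.leaf (nat_lit 8417111) (nat_lit 456691) (nat_lit 39419419) (nat_lit 12052375) [(nat_lit 456691), (nat_lit 1911866), (nat_lit 6162784)]) (PF.cons PF.nil PF.nil)))))) (PF.cons (PF.cons (PF.leaf (nat_lit 8099065) (nat_lit 1903585) (nat_lit 39393222) (nat_lit 12042868) [(nat_lit 0), (nat_lit 1903585), (nat_lit 6154794)]) (PF.cons (PF.leaf (nat_lit 8377594) (nat_lit 453284) (nat_lit 38997848) (nat_lit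 11982060) [(nat_lit 453284), (nat_lit 1907362), (nat_lit 6138804)]) (PF.cons (PF.leaf (nat_lit 8660193) (nat_lit 457341) (nat_lit 38600562) (nat_lit 11919622) [(nat_lit 457341), (nat_lit 1910456), (nat_lit 6121660)]) (PF.cons PF.nil PF.nil)))) (PF.cons (PF.cons (PF.leaf (nat_lit 8898069) (nat_lit 1907397) (nat_lit 37801728) (nat_lit 11784967) [(nat_lit 0), (nat_lit 1907397), (nat_lit 6077732)]) (PF.cons PF.nil PF.nil)) (PF.cons PF.nil (PF.cons PF.nil (PF.cons PF.nil PF.nil)))))))))) (PF.cons (PF.cons (PF.cons (PF.leaf (nat_lit 5840953) (nat_lit 6179654) (nat_lit 42344933) (nat_lit 12404569) [(nat_lit 0), (nat_lit 0), (nat_lit 6179654)]) (PF.cons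
 (PF.leaf (nat_lit 6071783) (nat_lit 388444) (nat_lit 42006257) (nat_lit 12362741) [(nat_lit 388444), (nat_lit 0), (nat_lit 6175684)]) (PF.cons (PF.leaf (nat_lit 6315303) (nat_lit 398826) (nat_lit 41652410) (nat_lit 12317879) [(nat_lit 398826), (nat_lit 0), (nat_lit 6170435)]) (PF.cons (PF.leaf (nat_lit 6568635) (nat_lit 407961) (nat_lit 41286882) (nat_lit 12270306) [(nat_lit 407961), (nat_lit 0), (nat_lit 6163869)]) (PF.cons (PF.leaf (nat_lit 6830106) (nat_lit 416076) (nat_lit 40912296) (nat_lit 12220272) [(nat_lit 416076), (nat_lit 0), (nat_lit 6155968)]) (PF.cons (PF.leaf (nat_lit 7098388) (nat_lit 423331) (nat_lit 40530707) (nat_lit 12167984) [(nat_lit 423331), (nat_lit 0), (nat_lit 6146732)]) (PF.cons (PF.leaf (nat_lit 7372391) (nat_lit 429844) (nat_lit 40143777) (nat_lit 12113618) [(nat_lit 429844), (nat_lit 0), (nat_lit 6136174)]) (PF.cons (PF.leaf (nat_lit 7651201) (nat_lit 435709) (nat_lit 39752882) (nat_lit 12057334) [(nat_lit 435709), (nat_lit 0), (nat_lit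 6124316)]) (PF.cons (PF.leaf (nat_lit 7934027) (nat_lit 440997) (nat_lit 39359178) (nat_lit 11999275) [(nat_lit 440997), (nat_lit 0), (nat_lit 6111189)]) (PF.cons PF.nil (PF.cons PF.nil (PF.cons PF.nil
 PF.nil)))))))))))) (PF.cons (PF.cons (PF.leaf (nat_lit 6589741) (nat_lit 1831579) (nat_lit 40789858) (nat_lit 12197721) [(nat_lit 0), (nat_lit 1831579), (nat_lit 6144826)]) (PF.cons (PF.leaf (nat_lit 6836941) (nat_lit 411256) (nat_lit 40435559) (nat_lit 12148904) [(nat_lit 411256), (nat_lit 1840755), (nat_lit 6136168)]) (PF.cons (PF.leaf (nat_lit 7093385) (nat_lit 419054) (nat_lit 40071581) (nat_lit 12097573) [(nat_lit 419054), (nat_lit 1849109), (nat_lit 6126220)]) (PF.cons (PF.leaf (nat_lit 7356940) (nat_lit 425969) (nat_lit 39700295) (nat_lit 12043992) [(nat_lit 425969), (nat_lit 1856619), (nat_lit 6114998)]) (PF.cons (PF.leaf (nat_lit 7626436) (nat_lit 432137) (nat_lit 39323543) (nat_lit 11988375) [(nat_lit 432137), (nat_lit 1863288), (nat_lit 6102527)]) (PF.cons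 (PF.leaf (nat_lit 7900838) (nat_lit 437659) (nat_lit 38942806) (nat_lit 11930906) [(nat_lit 437659), (nat_lit 1869129), (nat_lit 6088837)]) (PF.cons (PF.leaf (nat_lit 8179298) (nat_lit 442612) (nat_lit 38559297) (nat_lit 11871744) [(nat_lit 442612), (nat_lit 1874167), (nat_lit 6073965)]) (PF.cons PF.nil (PF.cons PF.nil (PF.cons PF.nil PF.nil)))))))))) (PF.cons (PF.cons (PF.leaf (nat_lit 7353385) (nat_lit 1853612)
 (nat_lit 39245606) (nat_lit 11971200) [(nat_lit 0), (nat_lit 1853612), (nat_lit 6092390)]) (PF.cons (PF.leaf (nat_lit 7611064) (nat_lit 427757) (nat_lit 38885879) (nat_lit 11916775) [(nat_lit 427757), (nat_lit 1859720), (nat_lit 6079479)]) (PF.cons (PF.leaf (nat_lit 7875504) (nat_lit 433665) (nat_lit 38520265) (nat_lit 11860309) [(nat_lit 433665), (nat_lit 1865081), (nat_lit 6065372)]) (PF.cons (PF.leaf (nat_lit 8145105) (nat_lit 438914) (nat_lit 38150427) (nat_lit 11802020) [(nat_lit 438914), (nat_lit 1869699), (nat_lit 6050111)]) (PF.cons (PF.leaf (nat_lit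 8418908) (nat_lit 443592) (nat_lit 37777688) (nat_lit 11742093) [(nat_lit 443592), (nat_lit 1873590), (nat_lit 6033740)]) (PF.cons (PF.leaf (nat_lit 8696144) (nat_lit 447767) (nat_lit 37403129) (nat_lit 11680687) [(nat_lit 447767), (nat_lit 1876775), (nat_lit 6016303)]) (PF.cons PF.nil (PF.cons PF.nil PF.nil)))))))) (PF.cons (PF.cons (PF.leaf (nat_lit 8120680) (nat_lit 1864947) (nat_lit 37733908) (nat_lit 11729859) [(nat_lit 0), (nat_lit 1864947), (nat_lit 6025100)]) (PF.cons (PF.leaf (nat_lit 8384532) (nat_lit 439523) (nat_lit 37375704) (nat_lit 11671114) [(nat_lit 439523), (nat_lit 1868478), (nat_lit 6008517)]) (PF.cons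
 (PF.leaf (nat_lit 8653336) (nat_lit 443985) (nat_lit 37014281) (nat_lit 11610748) [(nat_lit 443985), (nat_lit 1871349), (nat_lit 5990880)]) (PF.cons (PF.leaf (nat_lit 8925735) (nat_lit 447938) (nat_lit 36650832) (nat_lit 11548944) [(nat_lit 447938), (nat_lit 1873579), (nat_lit 5972241)]) (PF.cons PF.nil (PF.cons PF.nil PF.nil)))))) (PF.cons (PF.cons (PF.leaf (nat_lit 8883545) (nat_lit 1867624) (nat_lit 36268824) (nat_lit 11478070) [(nat_lit 0), (nat_lit 1867624), (nat_lit 5945709)]) (PF.cons (PF.leaf (nat_lit 9150368) (nat_lit 447611) (nat_lit 35916879) (nat_lit 11416158) [(nat_lit 447611), (nat_lit 1869004), (nat_lit 5926073)]) (PF.cons PF.nil (PF.cons PF.nil PF.nil)))) (PF.cons (PF.cons (PF.leaf (nat_lit 9636157) (nat_lit 1863301) (nat_lit 34859117) (nat_lit 11219638) [(nat_lit 0), (nat_lit 1863301), (nat_lit 5856774)]) (PF.cons PF.nil PF.nil)) (PF.cons PF.nil (PF.cons PF.nil PF.nil)))))))) (PF.cons (PF.cons (PF.cons (PF.leaf (nat_lit 7414580) (nat_lit 5964121)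 (nat_lit 37559897) (nat_lit 11656550) [(nat_lit 0), (nat_lit 0), (nat_lit 5964121)]) (PF.cons (PF.leaf (nat_lit 7654777) (nat_lit 411151) (nat_lit 37240444) (nat_lit 11604872) [(nat_lit 411151), (nat_lit 0), (nat_lit
 5950781)]) (PF.cons (PF.leaf (nat_lit 7903333) (nat_lit 418013) (nat_lit 36912939) (nat_lit 11550976) [(nat_lit 418013), (nat_lit 0), (nat_lit 5936289)]) (PF.cons (PF.leaf (nat_lit 8158169) (nat_lit 424015) (nat_lit 36579490) (nat_lit 11495159) [(nat_lit 424015), (nat_lit 0), (nat_lit 5920705)]) (PF.cons (PF.leaf (nat_lit 8418160) (nat_lit 429299) (nat_lit 36241716) (nat_lit 11437655) [(nat_lit 429299), (nat_lit 0), (nat_lit 5904081)]) (PF.cons (PF.leaf (nat_lit 8682318) (nat_lit 433968) (nat_lit 35900905) (nat_lit 11378659) [(nat_lit 433968), (nat_lit 0), (nat_lit 5886468)]) (PF.cons (PF.leaf (nat_lit 8949948) (nat_lit 438103) (nat_lit 35558103) (nat_lit 11318335) [(nat_lit 438103), (nat_lit 0), (nat_lit 5867917)]) (PF.cons PF.nil PF.nil)))))))) (PF.cons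 (PF.cons (PF.leaf (nat_lit 8142147) (nat_lit 1824569) (nat_lit 36178744) (nat_lit 11422057) [(nat_lit 0), (nat_lit 1824569), (nat_lit 5894480)]) (PF.cons (PF.leaf (nat_lit 8390897) (nat_lit 424415) (nat_lit 35856425) (nat_lit 11366196) [(nat_lit 424415), (nat_lit 1828137), (nat_lit 5877879)]) (PF.cons (PF.leaf (nat_lit 8645731) (nat_lit 429523) (nat_lit 35529304) (nat_lit 11308613) [(nat_lit 429523), (nat_lit 1831048), (nat_lit
 5860266)]) (PF.cons (PF.leaf (nat_lit 8905019) (nat_lit 434000) (nat_lit 35198839) (nat_lit 11249536) [(nat_lit 434000), (nat_lit 1833318), (nat_lit 5841705)]) (PF.cons (PF.leaf (nat_lit 9167961) (nat_lit 437937) (nat_lit 34866177) (nat_lit 11189154) [(nat_lit 437937), (nat_lit 1834970), (nat_lit 5822252)]) (PF.cons PF.nil PF.nil)))))) (PF.cons (PF.cons (PF.leaf (nat_lit 8870053) (nat_lit 1826984) (nat_lit 34832720) (nat_lit 11178612) [(nat_lit 0), (nat_lit 1826984), (nat_lit 5814504)]) (PF.cons (PF.leaf (nat_lit 9123604) (nat_lit 433528)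 (nat_lit 34513097) (nat_lit 11119729) [(nat_lit 433528), (nat_lit 1828453), (nat_lit 5795183)]) (PF.cons (PF.leaf (nat_lit 9381580) (nat_lit 437319) (nat_lit 34190921) (nat_lit 11059531) [(nat_lit 437319), (nat_lit 1829356), (nat_lit 5775002)]) (PF.cons PF.nil PF.nil)))) (PF.cons (PF.cons (PF.leaf (nat_lit 9591750) (nat_lit 1822698) (nat_lit 33531904) (nat_lit 10929680) [(nat_lit 0), (nat_lit 1822698), (nat_lit 5726377)]) (PF.cons (PF.leaf (nat_lit 9847365) (nat_lit 439473) (nat_lit 33218681) (nat_lit 10868753) [(nat_lit 439473), (nat_lit 1822440), (nat_lit 5704860)]) PF.nil)) (PF.cons PF.nil (PF.cons PF.nil PF.nil)))))) (PF.cons (PF.cons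
 (PF.cons (PF.leaf (nat_lit 8860538) (nat_lit 5684680) (nat_lit 33483221) (nat_lit 10886869) [(nat_lit 0), (nat_lit 0), (nat_lit 5684680)]) (PF.cons (PF.leaf (nat_lit 9100303) (nat_lit 418384) (nat_lit 33194771) (nat_lit 10831516) [(nat_lit 418384), (nat_lit 0), (nat_lit 5666035)]) (PF.cons (PF.leaf (nat_lit 9345590) (nat_lit 422854) (nat_lit 32902308) (nat_lit 10774693) [(nat_lit 422854), (nat_lit 0), (nat_lit 5646525)]) (PF.cons (PF.leaf (nat_lit 9594867) (nat_lit 426724) (nat_lit 32607110) (nat_lit 10716627) [(nat_lit 426724), (nat_lit 0), (nat_lit 5626224)]) (PF.cons PF.nil (PF.cons PF.nil PF.nil)))))) (PF.cons (PF.cons (PF.leaf (nat_lit 9551871) (nat_lit 1781936) (nat_lit 32284816) (nat_lit 10648584) [(nat_lit 0), (nat_lit 1781936), (nat_lit 5598368)]) (PF.cons (PF.leaf (nat_lit 9795479) (nat_lit 425513) (nat_lit 31999483) (nat_lit 10591108) [(nat_lit 425513), (nat_lit 1781970), (nat_lit 5577684)]) (PF.cons PF.nil (PF.cons PF.nil PF.nil)))) (PF.cons (PF.cons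 (PF.leaf (nat_lit 10236135) (nat_lit 1773030) (nat_lit 31128293) (nat_lit 10408007) [(nat_lit 0), (nat_lit 1773030), (nat_lit 5506612)]) (PF.cons PF.nil PF.nil)) (PF.cons PF.nil PF.nil)))) (PF.cons (PF.cons (PF.cons
 (PF.leaf (nat_lit 10176478) (nat_lit 5384272) (nat_lit 30040487) (nat_lit 10146964) [(nat_lit 0), (nat_lit 0), (nat_lit 5384272)]) (PF.cons (PF.leaf (nat_lit 10410625) (nat_lit 416304) (nat_lit 29785247) (nat_lit 10091749) [(nat_lit 416304), (nat_lit 0), (nat_lit 5363102)]) PF.nil)) (PF.cons PF.nil PF.nil)) (PF.cons PF.nil (PF.cons PF.nil (PF.cons PF.nil (PF.cons PF.nil PF.nil))))))))))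

def p12_17_2_0 : pfC (piC [(nat_lit 40745421), (nat_lit 25257288), (nat_lit 16296408)] (nat_lit 7528973)) p12_17_2 (nat_lit 3) (nat_lit 0) (nat_lit 1) = true := by decide +kernel
def p12_17_2_1 : pfC (piC [(nat_lit 40745421), (nat_lit 25257288), (nat_lit 16296408)] (nat_lit 7528973)) p12_17_2 (nat_lit 3) (nat_lit 1) (nat_lit 2) = true := by decide +kernel
def p12_17_2_2 : pfC (piC [(nat_lit 40745421), (nat_lit 25257288), (nat_lit 16296408)] (nat_lit 7528973)) p12_17_2 (nat_lit 3) (nat_lit 2) (nat_lit 3) = true := by decide +kernel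
def p12_17_2_3 : pfC (piC [(nat_lit 40745421), (nat_lit 25257288), (nat_lit 16296408)] (nat_lit 7528973)) p12_17_2 (nat_lit 3) (nat_lit 3) (nat_lit 4) = true := by decide +kernel
def p12_17_2_4 : pfC (piC [(nat_lit 40745421), (nat_lit 25257288), (nat_lit 16296408)] (nat_lit 7528973)) p12_17_2 (nat_lit 3) (nat_lit 4) (nat_lit 5) = true := by decide +kernel
def p12_17_2_5 : pfC (piC [(nat_lit 40745421), (nat_lit 25257288), (nat_lit 16296408)] (nat_lit 7528973)) p12_17_2 (nat_lit 3) (nat_lit 5) (nat_lit 6) = true := by decide +kernel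
def p12_17_2_6 : pfC (piC [(nat_lit 40745421), (nat_lit 25257288), (nat_lit 16296408)] (nat_lit 7528973)) p12_17_2 (nat_lit 3) (nat_lit 6) (nat_lit 7) = true := by decide +kernel
def p12_17_2_7 : pfC (piC [(nat_lit 40745421), (nat_lit 25257288), (nat_lit 16296408)] (nat_lit 7528973)) p12_17_2 (nat_lit 3) (nat_lit 7) (nat_lit 8) = true := by decide +kernel
def p12_17_2_8 : pfC (piC [(nat_lit 40745421), (nat_lit 25257288), (nat_lit 16296408)] (nat_lit 7528973)) p12_17_2 (nat_lit 3) (nat_lit 8) (nat_lit 9) = true := by decide +kernel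
def p12_17_2_9 : pfC (piC [(nat_lit 40745421), (nat_lit 25257288), (nat_lit 16296408)] (nat_lit 7528973)) p12_17_2 (nat_lit 3) (nat_lit 9) (nat_lit 10) = true := by decide +kernel
def p12_17_2_10 : pfC (piC [(nat_lit 40745421), (nat_lit 25257288), (nat_lit 16296408)] (nat_lit 7528973)) p12_17_2 (nat_lit 3) (nat_lit 10) (nat_lit 11) = true := by decide +kernel
def p12_17_2_11 : pfC (piC [(nat_lit 40745421), (nat_lit 25257288), (nat_lit 16296408)] (nat_lit 7528973)) p12_17_2 (nat_lit 3) (nat_lit 11) (nat_lit 12) = true := by decide +kernel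
def p12_17_2_12 : pfC (piC [(nat_lit 40745421), (nat_lit 25257288), (nat_lit 16296408)] (nat_lit 7528973)) p12_17_2 (nat_lit 3) (nat_lit 12) (nat_lit 13) = true := by decide +kernel
def p12_17_2_13 : pfC (piC [(nat_lit 40745421), (nat_lit 25257288), (nat_lit 16296408)] (nat_lit 7528973)) p12_17_2 (nat_lit 3) (nat_lit 13) (nat_lit 14) = true := by decide +kernel
def p12_17_2_14 : pfC (piC [(nat_lit 40745421), (nat_lit 25257288), (nat_lit 16296408)] (nat_lit 7528973)) p12_17_2 (nat_lit 3) (nat_lit 14) (nat_lit 15) = true := by decide +kernel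
def p12_17_2_15 : pfC (piC [(nat_lit 40745421), (nat_lit 25257288), (nat_lit 16296408)] (nat_lit 7528973)) p12_17_2 (nat_lit 3) (nat_lit 15) (nat_lit 16) = true := by decide +kernel
def p12_17_2_16 : pfC (piC [(nat_lit 40745421), (nat_lit 25257288), (nat_lit 16296408)] (nat_lit 7528973)) p12_17_2 (nat_lit 3) (nat_lit 16) (nat_lit 17) = true := by decide +kernel
def p12_17_2_17 : pfC (piC [(nat_lit 40745421), (nat_lit 25257288), (nat_lit 16296408)] (nat_lit 7528973)) p12_17_2 (nat_lit 3) (nat_lit 17) (nat_lit 18) = true := by decide +kernel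
def p12_17_2_18 : pfC (piC [(nat_lit 40745421), (nat_lit 25257288), (nat_lit 16296408)] (nat_lit 7528973)) p12_17_2 (nat_lit 3) (nat_lit 18) (nat_lit 19) = true := by decide +kernel
def p12_17_2_19 : pfC (piC [(nat_lit 40745421), (nat_lit 25257288), (nat_lit 16296408)] (nat_lit 7528973)) p12_17_2 (nat_lit 3) (nat_lit 19) (nat_lit 20) = true := by decide +kernel
def p12_17_2_20 : pfC (piC [(nat_lit 40745421), (nat_lit 25257288), (nat_lit 16296408)] (nat_lit 7528973)) p12_17_2 (nat_lit 3) (nat_lit 20) (nat_lit 21) = true := by decide +kernel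
def p12_17_2_21 : pfC (piC [(nat_lit 40745421), (nat_lit 25257288), (nat_lit 16296408)] (nat_lit 7528973)) p12_17_2 (nat_lit 3) (nat_lit 21) (nat_lit 22) = true := by decide +kernel
def p12_17_2_22 : pfC (piC [(nat_lit 40745421), (nat_lit 25257288), (nat_lit 16296408)] (nat_lit 7528973)) p12_17_2 (nat_lit 3) (nat_lit 22) (nat_lit 23) = true := by decide +kernel
def p12_17_2_23 : pfC (piC [(nat_lit 40745421), (nat_lit 25257288), (nat_lit 16296408)] (nat_lit 7528973)) p12_17_2 (nat_lit 3) (nat_lit 23) (nat_lit 24) = true := by decide +kernel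
def p12_17_2_24 : pfC (piC [(nat_lit 40745421), (nat_lit 25257288), (nat_lit 16296408)] (nat_lit 7528973)) p12_17_2 (nat_lit 3) (nat_lit 24) (nat_lit 25) = true := by decide +kernel
def p12_17_2_25 : pfC (piC [(nat_lit 40745421), (nat_lit 25257288), (nat_lit 16296408)] (nat_lit 7528973)) p12_17_2 (nat_lit 3) (nat_lit 25) (nat_lit 26) = true := by decide +kernel
def p12_17_2_26 : pfC (piC [(nat_lit 40745421), (nat_lit 25257288), (nat_lit 16296408)] (nat_lit 7528973)) p12_17_2 (nat_lit 3) (nat_lit 26) (nat_lit 27) = true := by decide +kernel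
def p12_17_2_27 : pfC (piC [(nat_lit 40745421), (nat_lit 25257288), (nat_lit 16296408)] (nat_lit 7528973)) p12_17_2 (nat_lit 3) (nat_lit 27) (nat_lit 28) = true := by decide +kernel
def p12_17_2_28 : pfC (piC [(nat_lit 40745421), (nat_lit 25257288), (nat_lit 16296408)] (nat_lit 7528973)) p12_17_2 (nat_lit 3) (nat_lit 28) (nat_lit 29) = true := by decide +kernel
def p12_17_2_29 : pfC (piC [(nat_lit 40745421), (nat_lit 25257288), (nat_lit 16296408)] (nat_lit 7528973)) p12_17_2 (nat_lit 3) (nat_lit 29) (nat_lit 30) = true := by decide +kernel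
def p12_17_2_30 : pfC (piC [(nat_lit 40745421), (nat_lit 25257288), (nat_lit 16296408)] (nat_lit 7528973)) p12_17_2 (nat_lit 3) (nat_lit 30) (nat_lit 31) = true := by decide +kernel
def p12_17_2_31 : pfC (piC [(nat_lit 40745421), (nat_lit 25257288), (nat_lit 16296408)] (nat_lit 7528973)) p12_17_2 (nat_lit 3) (nat_lit 31) (nat_lit 32) = true := by decide +kernel
def p12_17_2_32 : pfC (piC [(nat_lit 40745421), (nat_lit 25257288), (nat_lit 16296408)] (nat_lit 7528973)) p12_17_2 (nat_lit 3) (nat_lit 32) (nat_lit 33) = true := by decide +kernel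
def p12_17_2_33 : pfC (piC [(nat_lit 40745421), (nat_lit 25257288), (nat_lit 16296408)] (nat_lit 7528973)) p12_17_2 (nat_lit 3) (nat_lit 33) (nat_lit 34) = true := by decide +kernel
def p12_17_2_34 : pfC (piC [(nat_lit 40745421), (nat_lit 25257288), (nat_lit 16296408)] (nat_lit 7528973)) p12_17_2 (nat_lit 3) (nat_lit 34) (nat_lit 35) = true := by decide +kernel
def p12_17_2_35 : pfC (piC [(nat_lit 40745421), (nat_lit 25257288), (nat_lit 16296408)] (nat_lit 7528973)) p12_17_2 (nat_lit 3) (nat_lit 35) (nat_lit 36) = true := by decide +kernel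
def p12_17_2_36 : pfC (piC [(nat_lit 40745421), (nat_lit 25257288), (nat_lit 16296408)] (nat_lit 7528973)) p12_17_2 (nat_lit 3) (nat_lit 36) (nat_lit 37) = true := by decide +kernel
def p12_17_2_37 : pfC (piC [(nat_lit 40745421), (nat_lit 25257288), (nat_lit 16296408)] (nat_lit 7528973)) p12_17_2 (nat_lit 3) (nat_lit 37) (nat_lit 38) = true := by decide +kernel
def p12_17_2_38 : pfC (piC [(nat_lit 40745421), (nat_lit 25257288), (nat_lit 16296408)] (nat_lit 7528973)) p12_17_2 (nat_lit 3) (nat_lit 38) (nat_lit 39) = true := by decide +kernel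
def p12_17_2_39 : pfC (piC [(nat_lit 40745421), (nat_lit 25257288), (nat_lit 16296408)] (nat_lit 7528973)) p12_17_2 (nat_lit 3) (nat_lit 39) (nat_lit 40) = true := by decide +kernel
def p12_17_2_40 : pfC (piC [(nat_lit 40745421), (nat_lit 25257288), (nat_lit 16296408)] (nat_lit 7528973)) p12_17_2 (nat_lit 3) (nat_lit 40) (nat_lit 41) = true := by decide +kernel
def p12_17_2_41 : pfC (piC [(nat_lit 40745421), (nat_lit 25257288), (nat_lit 16296408)] (nat_lit 7528973)) p12_17_2 (nat_lit 3) (nat_lit 41) (nat_lit 42) = true := by decide +kernel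
def p12_17_2_42 : pfC (piC [(nat_lit 40745421), (nat_lit 25257288), (nat_lit 16296408)] (nat_lit 7528973)) p12_17_2 (nat_lit 3) (nat_lit 42) (nat_lit 43) = true := by decide +kernel
def p12_17_2_43 : pfC (piC [(nat_lit 40745421), (nat_lit 25257288), (nat_lit 16296408)] (nat_lit 7528973)) p12_17_2 (nat_lit 3) (nat_lit 43) (nat_lit 44) = true := by decide +kernel
def p12_17_2_44 : pfC (piC [(nat_lit 40745421), (nat_lit 25257288), (nat_lit 16296408)] (nat_lit 7528973)) p12_17_2 (nat_lit 3) (nat_lit 44) (nat_lit 45) = true := by decide +kernel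
def p12_17_2_45 : pfC (piC [(nat_lit 40745421), (nat_lit 25257288), (nat_lit 16296408)] (nat_lit 7528973)) p12_17_2 (nat_lit 3) (nat_lit 45) (nat_lit 46) = true := by decide +kernel
def p12_17_2_46 : pfC (piC [(nat_lit 40745421), (nat_lit 25257288), (nat_lit 16296408)] (nat_lit 7528973)) p12_17_2 (nat_lit 3) (nat_lit 46) (nat_lit 47) = true := by decide +kernel
def p12_17_2_47 : pfC (piC [(nat_lit 40745421), (nat_lit 25257288), (nat_lit 16296408)] (nat_lit 7528973)) p12_17_2 (nat_lit 3) (nat_lit 47) (nat_lit 48) = true := by decide +kernel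
def p12_17_2_48 : pfC (piC [(nat_lit 40745421), (nat_lit 25257288), (nat_lit 16296408)] (nat_lit 7528973)) p12_17_2 (nat_lit 3) (nat_lit 48) (nat_lit 49) = true := by decide +kernel
def p12_17_2_49 : pfC (piC [(nat_lit 40745421), (nat_lit 25257288), (nat_lit 16296408)] (nat_lit 7528973)) p12_17_2 (nat_lit 3) (nat_lit 49) (nat_lit 50) = true := by decide +kernel
def p12_17_2_50 : pfC (piC [(nat_lit 40745421), (nat_lit 25257288), (nat_lit 16296408)] (nat_lit 7528973)) p12_17_2 (nat_lit 3) (nat_lit 50) (nat_lit 51) = true := by decide +kernel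
def p12_17_2_51 : pfC (piC [(nat_lit 40745421), (nat_lit 25257288), (nat_lit 16296408)] (nat_lit 7528973)) p12_17_2 (nat_lit 3) (nat_lit 51) (nat_lit 52) = true := by decide +kernel
def p12_17_2_52 : pfC (piC [(nat_lit 40745421), (nat_lit 25257288), (nat_lit 16296408)] (nat_lit 7528973)) p12_17_2 (nat_lit 3) (nat_lit 52) (nat_lit 53) = true := by decide +kernel
def p12_17_2_53 : pfC (piC [(nat_lit 40745421), (nat_lit 25257288), (nat_lit 16296408)] (nat_lit 7528973)) p12_17_2 (nat_lit 3) (nat_lit 53) (nat_lit 54) = true := by decide +kernel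
def p12_17_2_54 : pfC (piC [(nat_lit 40745421), (nat_lit 25257288), (nat_lit 16296408)] (nat_lit 7528973)) p12_17_2 (nat_lit 3) (nat_lit 54) (nat_lit 55) = true := by decide +kernel
def p12_17_2_55 : pfC (piC [(nat_lit 40745421), (nat_lit 25257288), (nat_lit 16296408)] (nat_lit 7528973)) p12_17_2 (nat_lit 3) (nat_lit 55) (nat_lit 56) = true := by decide +kernel
def p12_17_2_56 : pfC (piC [(nat_lit 40745421), (nat_lit 25257288), (nat_lit 16296408)] (nat_lit 7528973)) p12_17_2 (nat_lit 3) (nat_lit 56) (nat_lit 57) = true := by decide +kernel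
def p12_17_2_57 : pfC (piC [(nat_lit 40745421), (nat_lit 25257288), (nat_lit 16296408)] (nat_lit 7528973)) p12_17_2 (nat_lit 3) (nat_lit 57) (nat_lit 58) = true := by decide +kernel
def p12_17_2_58 : pfC (piC [(nat_lit 40745421), (nat_lit 25257288), (nat_lit 16296408)] (nat_lit 7528973)) p12_17_2 (nat_lit 3) (nat_lit 58) (nat_lit 59) = true := by decide +kernel
def p12_17_2_59 : pfC (piC [(nat_lit 40745421), (nat_lit 25257288), (nat_lit 16296408)] (nat_lit 7528973)) p12_17_2 (nat_lit 3) (nat_lit 59) (nat_lit 60) = true := by decide +kernel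
def p12_17_2_60 : pfC (piC [(nat_lit 40745421), (nat_lit 25257288), (nat_lit 16296408)] (nat_lit 7528973)) p12_17_2 (nat_lit 3) (nat_lit 60) (nat_lit 61) = true := by decide +kernel
def p12_17_2_61 : pfC (piC [(nat_lit 40745421), (nat_lit 25257288), (nat_lit 16296408)] (nat_lit 7528973)) p12_17_2 (nat_lit 3) (nat_lit 61) (nat_lit 62) = true := by decide +kernel
def p12_17_2_62 : pfC (piC [(nat_lit 40745421), (nat_lit 25257288), (nat_lit 16296408)] (nat_lit 7528973)) p12_17_2 (nat_lit 3) (nat_lit 62) (nat_lit 63) = true := by decide +kernel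
def p12_17_2_63 : pfC (piC [(nat_lit 40745421), (nat_lit 25257288), (nat_lit 16296408)] (nat_lit 7528973)) p12_17_2 (nat_lit 3) (nat_lit 63) (nat_lit 64) = true := by decide +kernel
def p12_17_2_64 : pfC (piC [(nat_lit 40745421), (nat_lit 25257288), (nat_lit 16296408)] (nat_lit 7528973)) p12_17_2 (nat_lit 3) (nat_lit 64) (nat_lit 65) = true := by decide +kernel
def p12_17_2_65 : pfC (piC [(nat_lit 40745421), (nat_lit 25257288), (nat_lit 16296408)] (nat_lit 7528973)) p12_17_2 (nat_lit 3) (nat_lit 65) (nat_lit 66) = true := by decide +kernel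
def p12_17_2_66 : pfC (piC [(nat_lit 40745421), (nat_lit 25257288), (nat_lit 16296408)] (nat_lit 7528973)) p12_17_2 (nat_lit 3) (nat_lit 66) (nat_lit 67) = true := by decide +kernel
def p12_17_2_67 : pfC (piC [(nat_lit 40745421), (nat_lit 25257288), (nat_lit 16296408)] (nat_lit 7528973)) p12_17_2 (nat_lit 3) (nat_lit 67) (nat_lit 68) = true := by decide +kernel
def p12_17_2_68 : pfC (piC [(nat_lit 40745421), (nat_lit 25257288), (nat_lit 16296408)] (nat_lit 7528973)) p12_17_2 (nat_lit 3) (nat_lit 68) (nat_lit 69) = true := by decide +kernel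
def p12_17_2_69 : pfC (piC [(nat_lit 40745421), (nat_lit 25257288), (nat_lit 16296408)] (nat_lit 7528973)) p12_17_2 (nat_lit 3) (nat_lit 69) (nat_lit 70) = true := by decide +kernel
def p12_17_2_70 : pfC (piC [(nat_lit 40745421), (nat_lit 25257288), (nat_lit 16296408)] (nat_lit 7528973)) p12_17_2 (nat_lit 3) (nat_lit 70) (nat_lit 71) = true := by decide +kernel
def p12_17_2_71 : pfC (piC [(nat_lit 40745421), (nat_lit 25257288), (nat_lit 16296408)] (nat_lit 7528973)) p12_17_2 (nat_lit 3) (nat_lit 71) (nat_lit 72) = true := by decide +kernel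
def p12_17_2_72 : pfC (piC [(nat_lit 40745421), (nat_lit 25257288), (nat_lit 16296408)] (nat_lit 7528973)) p12_17_2 (nat_lit 3) (nat_lit 72) (nat_lit 73) = true := by decide +kernel
def p12_17_2_73 : pfC (piC [(nat_lit 40745421), (nat_lit 25257288), (nat_lit 16296408)] (nat_lit 7528973)) p12_17_2 (nat_lit 3) (nat_lit 73) (nat_lit 74) = true := by decide +kernel
def p12_17_2_74 : pfC (piC [(nat_lit 40745421), (nat_lit 25257288), (nat_lit 16296408)] (nat_lit 7528973)) p12_17_2 (nat_lit 3) (nat_lit 74) (nat_lit 75) = true := by decide +kernel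
def p12_17_2_75 : pfC (piC [(nat_lit 40745421), (nat_lit 25257288), (nat_lit 16296408)] (nat_lit 7528973)) p12_17_2 (nat_lit 3) (nat_lit 75) (nat_lit 76) = true := by decide +kernel
def p12_17_2_76 : pfC (piC [(nat_lit 40745421), (nat_lit 25257288), (nat_lit 16296408)] (nat_lit 7528973)) p12_17_2 (nat_lit 3) (nat_lit 76) (nat_lit 77) = true := by decide +kernel
def p12_17_2_77 : pfC (piC [(nat_lit 40745421), (nat_lit 25257288), (nat_lit 16296408)] (nat_lit 7528973)) p12_17_2 (nat_lit 3) (nat_lit 77) (nat_lit 78) = true := by decide +kernel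
def p12_17_2_78 : pfC (piC [(nat_lit 40745421), (nat_lit 25257288), (nat_lit 16296408)] (nat_lit 7528973)) p12_17_2 (nat_lit 3) (nat_lit 78) (nat_lit 79) = true := by decide +kernel
def p12_17_2_79 : pfC (piC [(nat_lit 40745421), (nat_lit 25257288), (nat_lit 16296408)] (nat_lit 7528973)) p12_17_2 (nat_lit 3) (nat_lit 79) (nat_lit 80) = true := by decide +kernel
def p12_17_2_80 : pfC (piC [(nat_lit 40745421), (nat_lit 25257288), (nat_lit 16296408)] (nat_lit 7528973)) p12_17_2 (nat_lit 3) (nat_lit 80) (nat_lit 81) = true := by decide +kernel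
def p12_17_2_81 : pfC (piC [(nat_lit 40745421), (nat_lit 25257288), (nat_lit 16296408)] (nat_lit 7528973)) p12_17_2 (nat_lit 3) (nat_lit 81) (nat_lit 82) = true := by decide +kernel
def p12_17_2_82 : pfC (piC [(nat_lit 40745421), (nat_lit 25257288), (nat_lit 16296408)] (nat_lit 7528973)) p12_17_2 (nat_lit 3) (nat_lit 82) (nat_lit 83) = true := by decide +kernel
def p12_17_2_83 : pfC (piC [(nat_lit 40745421), (nat_lit 25257288), (nat_lit 16296408)] (nat_lit 7528973)) p12_17_2 (nat_lit 3) (nat_lit 83) (nat_lit 84) = true := by decide +kernel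
def p12_17_2_84 : pfC (piC [(nat_lit 40745421), (nat_lit 25257288), (nat_lit 16296408)] (nat_lit 7528973)) p12_17_2 (nat_lit 3) (nat_lit 84) (nat_lit 85) = true := by decide +kernel
def p12_17_2_85 : pfC (piC [(nat_lit 40745421), (nat_lit 25257288), (nat_lit 16296408)] (nat_lit 7528973)) p12_17_2 (nat_lit 3) (nat_lit 85) (nat_lit 86) = true := by decide +kernel
def p12_17_2_86 : pfC (piC [(nat_lit 40745421), (nat_lit 25257288), (nat_lit 16296408)] (nat_lit 7528973)) p12_17_2 (nat_lit 3) (nat_lit 86) (nat_lit 87) = true := by decide +kernel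
def p12_17_2_87 : pfC (piC [(nat_lit 40745421), (nat_lit 25257288), (nat_lit 16296408)] (nat_lit 7528973)) p12_17_2 (nat_lit 3) (nat_lit 87) (nat_lit 88) = true := by decide +kernel
def p12_17_2_88 : pfC (piC [(nat_lit 40745421), (nat_lit 25257288), (nat_lit 16296408)] (nat_lit 7528973)) p12_17_2 (nat_lit 3) (nat_lit 88) (nat_lit 89) = true := by decide +kernel
def p12_17_2_89 : pfC (piC [(nat_lit 40745421), (nat_lit 25257288), (nat_lit 16296408)] (nat_lit 7528973)) p12_17_2 (nat_lit 3) (nat_lit 89) (nat_lit 90) = true := by decide +kernel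
def p12_17_2_90 : pfC (piC [(nat_lit 40745421), (nat_lit 25257288), (nat_lit 16296408)] (nat_lit 7528973)) p12_17_2 (nat_lit 3) (nat_lit 90) (nat_lit 91) = true := by decide +kernel
def p12_17_2_91 : pfC (piC [(nat_lit 40745421), (nat_lit 25257288), (nat_lit 16296408)] (nat_lit 7528973)) p12_17_2 (nat_lit 3) (nat_lit 91) (nat_lit 92) = true := by decide +kernel
def p12_17_2_92 : pfC (piC [(nat_lit 40745421), (nat_lit 25257288), (nat_lit 16296408)] (nat_lit 7528973)) p12_17_2 (nat_lit 3) (nat_lit 92) (nat_lit 93) = true := by decide +kernel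
def p12_17_2_93 : pfC (piC [(nat_lit 40745421), (nat_lit 25257288), (nat_lit 16296408)] (nat_lit 7528973)) p12_17_2 (nat_lit 3) (nat_lit 93) (nat_lit 94) = true := by decide +kernel
def p12_17_2_94 : pfC (piC [(nat_lit 40745421), (nat_lit 25257288), (nat_lit 16296408)] (nat_lit 7528973)) p12_17_2 (nat_lit 3) (nat_lit 94) (nat_lit 95) = true := by decide +kernel
def p12_17_2_95 : pfC (piC [(nat_lit 40745421), (nat_lit 25257288), (nat_lit 16296408)] (nat_lit 7528973)) p12_17_2 (nat_lit 3) (nat_lit 95) (nat_lit 96) = true := by decide +kernel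
def p12_17_2_96 : pfC (piC [(nat_lit 40745421), (nat_lit 25257288), (nat_lit 16296408)] (nat_lit 7528973)) p12_17_2 (nat_lit 3) (nat_lit 96) (nat_lit 97) = true := by decide +kernel
def p12_17_2_97 : pfC (piC [(nat_lit 40745421), (nat_lit 25257288), (nat_lit 16296408)] (nat_lit 7528973)) p12_17_2 (nat_lit 3) (nat_lit 97) (nat_lit 98) = true := by decide +kernel
def p12_17_2_98 : pfC (piC [(nat_lit 40745421), (nat_lit 25257288), (nat_lit 16296408)] (nat_lit 7528973)) p12_17_2 (nat_lit 3) (nat_lit 98) (nat_lit 99) = true := by decide +kernel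
def p12_17_2_99 : pfC (piC [(nat_lit 40745421), (nat_lit 25257288), (nat_lit 16296408)] (nat_lit 7528973)) p12_17_2 (nat_lit 3) (nat_lit 99) (nat_lit 100) = true := by decide +kernel
def p12_17_2_100 : pfC (piC [(nat_lit 40745421), (nat_lit 25257288), (nat_lit 16296408)] (nat_lit 7528973)) p12_17_2 (nat_lit 3) (nat_lit 100) (nat_lit 101) = true := by decide +kernel
def p12_17_2_101 : pfC (piC [(nat_lit 40745421), (nat_lit 25257288), (nat_lit 16296408)] (nat_lit 7528973)) p12_17_2 (nat_lit 3) (nat_lit 101) (nat_lit 102) = true := by decide +kernel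
def p12_17_2_102 : pfC (piC [(nat_lit 40745421), (nat_lit 25257288), (nat_lit 16296408)] (nat_lit 7528973)) p12_17_2 (nat_lit 3) (nat_lit 102) (nat_lit 103) = true := by decide +kernel
def p12_17_2_103 : pfC (piC [(nat_lit 40745421), (nat_lit 25257288), (nat_lit 16296408)] (nat_lit 7528973)) p12_17_2 (nat_lit 3) (nat_lit 103) (nat_lit 104) = true := by decide +kernel
def p12_17_2_104 : pfC (piC [(nat_lit 40745421), (nat_lit 25257288), (nat_lit 16296408)] (nat_lit 7528973)) p12_17_2 (nat_lit 3) (nat_lit 104) (nat_lit 105) = true := by decide +kernel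
def p12_17_2_105 : pfC (piC [(nat_lit 40745421), (nat_lit 25257288), (nat_lit 16296408)] (nat_lit 7528973)) p12_17_2 (nat_lit 3) (nat_lit 105) (nat_lit 106) = true := by decide +kernel
def p12_17_2_106 : pfC (piC [(nat_lit 40745421), (nat_lit 25257288), (nat_lit 16296408)] (nat_lit 7528973)) p12_17_2 (nat_lit 3) (nat_lit 106) (nat_lit 107) = true := by decide +kernel
def p12_17_2_107 : pfC (piC [(nat_lit 40745421), (nat_lit 25257288), (nat_lit 16296408)] (nat_lit 7528973)) p12_17_2 (nat_lit 3) (nat_lit 107) (nat_lit 108) = true := by decide +kernel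
def p12_17_2_108 : pfC (piC [(nat_lit 40745421), (nat_lit 25257288), (nat_lit 16296408)] (nat_lit 7528973)) p12_17_2 (nat_lit 3) (nat_lit 108) (nat_lit 109) = true := by decide +kernel
def p12_17_2_109 : pfC (piC [(nat_lit 40745421), (nat_lit 25257288), (nat_lit 16296408)] (nat_lit 7528973)) p12_17_2 (nat_lit 3) (nat_lit 109) (nat_lit 110) = true := by decide +kernel
def p12_17_2_110 : pfC (piC [(nat_lit 40745421), (nat_lit 25257288), (nat_lit 16296408)] (nat_lit 7528973)) p12_17_2 (nat_lit 3) (nat_lit 110) (nat_lit 111) = true := by decide +kernel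
def p12_17_2_111 : pfC (piC [(nat_lit 40745421), (nat_lit 25257288), (nat_lit 16296408)] (nat_lit 7528973)) p12_17_2 (nat_lit 3) (nat_lit 111) (nat_lit 112) = true := by decide +kernel
def p12_17_2_112 : pfC (piC [(nat_lit 40745421), (nat_lit 25257288), (nat_lit 16296408)] (nat_lit 7528973)) p12_17_2 (nat_lit 3) (nat_lit 112) (nat_lit 113) = true := by decide +kernel
def p12_17_2_113 : pfC (piC [(nat_lit 40745421), (nat_lit 25257288), (nat_lit 16296408)] (nat_lit 7528973)) p12_17_2 (nat_lit 3) (nat_lit 113) (nat_lit 114) = true := by decide +kernel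
def p12_17_2_114 : pfC (piC [(nat_lit 40745421), (nat_lit 25257288), (nat_lit 16296408)] (nat_lit 7528973)) p12_17_2 (nat_lit 3) (nat_lit 114) (nat_lit 115) = true := by decide +kernel
def p12_17_2_115 : pfC (piC [(nat_lit 40745421), (nat_lit 25257288), (nat_lit 16296408)] (nat_lit 7528973)) p12_17_2 (nat_lit 3) (nat_lit 115) (nat_lit 116) = true := by decide +kernel
def p12_17_2_116 : pfC (piC [(nat_lit 40745421), (nat_lit 25257288), (nat_lit 16296408)] (nat_lit 7528973)) p12_17_2 (nat_lit 3) (nat_lit 116) (nat_lit 117) = true := by decide +kernel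
def p12_17_2_117 : pfC (piC [(nat_lit 40745421), (nat_lit 25257288), (nat_lit 16296408)] (nat_lit 7528973)) p12_17_2 (nat_lit 3) (nat_lit 117) (nat_lit 118) = true := by decide +kernel
def p12_17_2_118 : pfC (piC [(nat_lit 40745421), (nat_lit 25257288), (nat_lit 16296408)] (nat_lit 7528973)) p12_17_2 (nat_lit 3) (nat_lit 118) (nat_lit 119) = true := by decide +kernel
def p12_17_2_119 : pfC (piC [(nat_lit 40745421), (nat_lit 25257288), (nat_lit 16296408)] (nat_lit 7528973)) p12_17_2 (nat_lit 3) (nat_lit 119) (nat_lit 120) = true := by decide +kernel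
def p12_17_2_120 : pfC (piC [(nat_lit 40745421), (nat_lit 25257288), (nat_lit 16296408)] (nat_lit 7528973)) p12_17_2 (nat_lit 3) (nat_lit 120) (nat_lit 121) = true := by decide +kernel
def p12_17_2_121 : pfC (piC [(nat_lit 40745421), (nat_lit 25257288), (nat_lit 16296408)] (nat_lit 7528973)) p12_17_2 (nat_lit 3) (nat_lit 121) (nat_lit 122) = true := by decide +kernel
def p12_17_2_122 : pfC (piC [(nat_lit 40745421), (nat_lit 25257288), (nat_lit 16296408)] (nat_lit 7528973)) p12_17_2 (nat_lit 3) (nat_lit 122) (nat_lit 123) = true := by decide +kernel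
def p12_17_2_123 : pfC (piC [(nat_lit 40745421), (nat_lit 25257288), (nat_lit 16296408)] (nat_lit 7528973)) p12_17_2 (nat_lit 3) (nat_lit 123) (nat_lit 124) = true := by decide +kernel
def p12_17_2_124 : pfC (piC [(nat_lit 40745421), (nat_lit 25257288), (nat_lit 16296408)] (nat_lit 7528973)) p12_17_2 (nat_lit 3) (nat_lit 124) (nat_lit 125) = true := by decide +kernel
def p12_17_2_125 : pfC (piC [(nat_lit 40745421), (nat_lit 25257288), (nat_lit 16296408)] (nat_lit 7528973)) p12_17_2 (nat_lit 3) (nat_lit 125) (nat_lit 126) = true := by decide +kernel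
def p12_17_2_126 : pfC (piC [(nat_lit 40745421), (nat_lit 25257288), (nat_lit 16296408)] (nat_lit 7528973)) p12_17_2 (nat_lit 3) (nat_lit 126) (nat_lit 127) = true := by decide +kernel
def p12_17_2_127 : pfC (piC [(nat_lit 40745421), (nat_lit 25257288), (nat_lit 16296408)] (nat_lit 7528973)) p12_17_2 (nat_lit 3) (nat_lit 127) (nat_lit 128) = true := by decide +kernel
def p12_17_2_128 : pfC (piC [(nat_lit 40745421), (nat_lit 25257288), (nat_lit 16296408)] (nat_lit 7528973)) p12_17_2 (nat_lit 3) (nat_lit 128) (nat_lit 129) = true := by decide +kernel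
def p12_17_2_129 : pfC (piC [(nat_lit 40745421), (nat_lit 25257288), (nat_lit 16296408)] (nat_lit 7528973)) p12_17_2 (nat_lit 3) (nat_lit 129) (nat_lit 130) = true := by decide +kernel
def p12_17_2_130 : pfC (piC [(nat_lit 40745421), (nat_lit 25257288), (nat_lit 16296408)] (nat_lit 7528973)) p12_17_2 (nat_lit 3) (nat_lit 130) (nat_lit 131) = true := by decide +kernel
def p12_17_2_131 : pfC (piC [(nat_lit 40745421), (nat_lit 25257288), (nat_lit 16296408)] (nat_lit 7528973)) p12_17_2 (nat_lit 3) (nat_lit 131) (nat_lit 132) = true := by decide +kernel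
def p12_17_2_132 : pfC (piC [(nat_lit 40745421), (nat_lit 25257288), (nat_lit 16296408)] (nat_lit 7528973)) p12_17_2 (nat_lit 3) (nat_lit 132) (nat_lit 133) = true := by decide +kernel
def p12_17_2_133 : pfC (piC [(nat_lit 40745421), (nat_lit 25257288), (nat_lit 16296408)] (nat_lit 7528973)) p12_17_2 (nat_lit 3) (nat_lit 133) (nat_lit 134) = true := by decide +kernel
def p12_17_2_134 : pfC (piC [(nat_lit 40745421), (nat_lit 25257288), (nat_lit 16296408)] (nat_lit 7528973)) p12_17_2 (nat_lit 3) (nat_lit 134) (nat_lit 135) = true := by decide +kernel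
def p12_17_2_135 : pfC (piC [(nat_lit 40745421), (nat_lit 25257288), (nat_lit 16296408)] (nat_lit 7528973)) p12_17_2 (nat_lit 3) (nat_lit 135) (nat_lit 136) = true := by decide +kernel
def p12_17_2_136 : pfC (piC [(nat_lit 40745421), (nat_lit 25257288), (nat_lit 16296408)] (nat_lit 7528973)) p12_17_2 (nat_lit 3) (nat_lit 136) (nat_lit 137) = true := by decide +kernel
def p12_17_2_137 : pfC (piC [(nat_lit 40745421), (nat_lit 25257288), (nat_lit 16296408)] (nat_lit 7528973)) p12_17_2 (nat_lit 3) (nat_lit 137) (nat_lit 138) = true := by decide +kernel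
def p12_17_2_138 : pfC (piC [(nat_lit 40745421), (nat_lit 25257288), (nat_lit 16296408)] (nat_lit 7528973)) p12_17_2 (nat_lit 3) (nat_lit 138) (nat_lit 139) = true := by decide +kernel
def p12_17_2_139 : pfC (piC [(nat_lit 40745421), (nat_lit 25257288), (nat_lit 16296408)] (nat_lit 7528973)) p12_17_2 (nat_lit 3) (nat_lit 139) (nat_lit 140) = true := by decide +kernel
def p12_17_2_140 : pfC (piC [(nat_lit 40745421), (nat_lit 25257288), (nat_lit 16296408)] (nat_lit 7528973)) p12_17_2 (nat_lit 3) (nat_lit 140) (nat_lit 141) = true := by decide +kernel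
def p12_17_2_141 : pfC (piC [(nat_lit 40745421), (nat_lit 25257288), (nat_lit 16296408)] (nat_lit 7528973)) p12_17_2 (nat_lit 3) (nat_lit 141) (nat_lit 142) = true := by decide +kernel
def p12_17_2_142 : pfC (piC [(nat_lit 40745421), (nat_lit 25257288), (nat_lit 16296408)] (nat_lit 7528973)) p12_17_2 (nat_lit 3) (nat_lit 142) (nat_lit 143) = true := by decide +kernel
def p12_17_2_143 : pfC (piC [(nat_lit 40745421), (nat_lit 25257288), (nat_lit 16296408)] (nat_lit 7528973)) p12_17_2 (nat_lit 3) (nat_lit 143) (nat_lit 144) = true := by decide +kernel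
def p12_17_2_144 : pfC (piC [(nat_lit 40745421), (nat_lit 25257288), (nat_lit 16296408)] (nat_lit 7528973)) p12_17_2 (nat_lit 3) (nat_lit 144) (nat_lit 145) = true := by decide +kernel
def p12_17_2_145 : pfC (piC [(nat_lit 40745421), (nat_lit 25257288), (nat_lit 16296408)] (nat_lit 7528973)) p12_17_2 (nat_lit 3) (nat_lit 145) (nat_lit 146) = true := by decide +kernel
def p12_17_2_146 : pfC (piC [(nat_lit 40745421), (nat_lit 25257288), (nat_lit 16296408)] (nat_lit 7528973)) p12_17_2 (nat_lit 3) (nat_lit 146) (nat_lit 147) = true := by decide +kernel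
def p12_17_2_147 : pfC (piC [(nat_lit 40745421), (nat_lit 25257288), (nat_lit 16296408)] (nat_lit 7528973)) p12_17_2 (nat_lit 3) (nat_lit 147) (nat_lit 148) = true := by decide +kernel
def p12_17_2_148 : pfC (piC [(nat_lit 40745421), (nat_lit 25257288), (nat_lit 16296408)] (nat_lit 7528973)) p12_17_2 (nat_lit 3) (nat_lit 148) (nat_lit 149) = true := by decide +kernel
def p12_17_2_149 : pfC (piC [(nat_lit 40745421), (nat_lit 25257288), (nat_lit 16296408)] (nat_lit 7528973)) p12_17_2 (nat_lit 3) (nat_lit 149) (nat_lit 150) = true := by decide +kernel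
def p12_17_2_150 : pfC (piC [(nat_lit 40745421), (nat_lit 25257288), (nat_lit 16296408)] (nat_lit 7528973)) p12_17_2 (nat_lit 3) (nat_lit 150) (nat_lit 151) = true := by decide +kernel
def p12_17_2_151 : pfC (piC [(nat_lit 40745421), (nat_lit 25257288), (nat_lit 16296408)] (nat_lit 7528973)) p12_17_2 (nat_lit 3) (nat_lit 151) (nat_lit 152) = true := by decide +kernel
def p12_17_2_152 : pfC (piC [(nat_lit 40745421), (nat_lit 25257288), (nat_lit 16296408)] (nat_lit 7528973)) p12_17_2 (nat_lit 3) (nat_lit 152) (nat_lit 153) = true := by decide +kernel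
def p12_17_2_153 : pfC (piC [(nat_lit 40745421), (nat_lit 25257288), (nat_lit 16296408)] (nat_lit 7528973)) p12_17_2 (nat_lit 3) (nat_lit 153) (nat_lit 154) = true := by decide +kernel
def p12_17_2_154 : pfC (piC [(nat_lit 40745421), (nat_lit 25257288), (nat_lit 16296408)] (nat_lit 7528973)) p12_17_2 (nat_lit 3) (nat_lit 154) (nat_lit 155) = true := by decide +kernel
def p12_17_2_155 : pfC (piC [(nat_lit 40745421), (nat_lit 25257288), (nat_lit 16296408)] (nat_lit 7528973)) p12_17_2 (nat_lit 3) (nat_lit 155) (nat_lit 156) = true := by decide +kernel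
def p12_17_2_156 : pfC (piC [(nat_lit 40745421), (nat_lit 25257288), (nat_lit 16296408)] (nat_lit 7528973)) p12_17_2 (nat_lit 3) (nat_lit 156) (nat_lit 157) = true := by decide +kernel
def p12_17_2_157 : pfC (piC [(nat_lit 40745421), (nat_lit 25257288), (nat_lit 16296408)] (nat_lit 7528973)) p12_17_2 (nat_lit 3) (nat_lit 157) (nat_lit 158) = true := by decide +kernel
def p12_17_2_158 : pfC (piC [(nat_lit 40745421), (nat_lit 25257288), (nat_lit 16296408)] (nat_lit 7528973)) p12_17_2 (nat_lit 3) (nat_lit 158) (nat_lit 159) = true := by decide +kernel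
def p12_17_2_159 : pfC (piC [(nat_lit 40745421), (nat_lit 25257288), (nat_lit 16296408)] (nat_lit 7528973)) p12_17_2 (nat_lit 3) (nat_lit 159) (nat_lit 160) = true := by decide +kernel
def p12_17_2_160 : pfC (piC [(nat_lit 40745421), (nat_lit 25257288), (nat_lit 16296408)] (nat_lit 7528973)) p12_17_2 (nat_lit 3) (nat_lit 160) (nat_lit 161) = true := by decide +kernel
def p12_17_2_161 : pfC (piC [(nat_lit 40745421), (nat_lit 25257288), (nat_lit 16296408)] (nat_lit 7528973)) p12_17_2 (nat_lit 3) (nat_lit 161) (nat_lit 162) = true := by decide +kernel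
def p12_17_2_162 : pfC (piC [(nat_lit 40745421), (nat_lit 25257288), (nat_lit 16296408)] (nat_lit 7528973)) p12_17_2 (nat_lit 3) (nat_lit 162) (nat_lit 163) = true := by decide +kernel
def p12_17_2_163 : pfC (piC [(nat_lit 40745421), (nat_lit 25257288), (nat_lit 16296408)] (nat_lit 7528973)) p12_17_2 (nat_lit 3) (nat_lit 163) (nat_lit 164) = true := by decide +kernel
def p12_17_2_164 : pfC (piC [(nat_lit 40745421), (nat_lit 25257288), (nat_lit 16296408)] (nat_lit 7528973)) p12_17_2 (nat_lit 3) (nat_lit 164) (nat_lit 165) = true := by decide +kernel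
theorem p12_17_2_T : PfS (PiF n12_17.reverse (nat_lit 7528973)) p12_17_2 (nat_lit 3) [] 0 :=
  pftab_of (los := [(nat_lit 40745421), (nat_lit 25257288), (nat_lit 16296408)]) (by decide +kernel) (hi := (nat_lit 165)) (PfP.trans (PfP.trans (PfP.trans (PfP.trans (PfP.trans (PfP.trans (PfP.trans (PfP.trans (PfP.trans (PfP.trans (PfP.trans (PfP.trans (PfP.trans (PfP.trans (PfP.trans (PfP.trans (PfP.trans (PfP.trans (PfP.trans (PfP.trans (PfP.trans (PfP.trans (PfP.trans (PfP.trans (PfP.trans (PfP.trans (PfP.trans (PfP.trans (PfP.trans (PfP.trans (PfP.trans (PfP.trans (PfP.trans (PfP.trans (PfP.trans (PfP.trans (PfP.trans (PfP.trans (PfP.trans (PfP.trans (PfP.trans (PfP.trans (PfP.trans (PfP.trans (PfP.trans (PfP.trans (PfP.trans (PfP.trans (PfP.trans (PfP.trans (PfP.trans (PfP.trans (PfP.trans (PfP.trans (PfP.trans (PfP.trans (PfP.trans (PfP.trans (PfP.trans (PfP.trans (PfP.trans (PfP.trans (PfP.trans (PfP.trans (PfP.trans (PfP.trans (PfP.trans (PfP.trans (PfP.trans (PfP.trans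 (PfP.trans (PfP.trans (PfP.trans (PfP.trans (PfP.trans (PfP.trans (PfP.trans (PfP.trans (PfP.trans (PfP.trans (PfP.trans (PfP.trans (PfP.trans (PfP.trans (PfP.trans (PfP.trans (PfP.trans (PfP.trans (PfP.trans (PfP.trans (PfP.trans (PfP.trans (PfP.trans (PfP.trans (PfP.trans (PfP.trans (PfP.trans (PfP.trans (PfP.trans (PfP.trans (PfP.trans (PfP.trans (PfP.trans (PfP.trans (PfP.trans (PfP.trans (PfP.trans (PfP.trans (PfP.trans
 (PfP.trans (PfP.trans (PfP.trans (PfP.trans (PfP.trans (PfP.trans (PfP.trans (PfP.trans (PfP.trans (PfP.trans (PfP.trans (PfP.trans (PfP.trans (PfP.trans (PfP.trans (PfP.trans (PfP.trans (PfP.trans (PfP.trans (PfP.trans (PfP.trans (PfP.trans (PfP.trans (PfP.trans (PfP.trans (PfP.trans (PfP.trans (PfP.trans (PfP.trans (PfP.trans (PfP.trans (PfP.trans (PfP.trans (PfP.trans (PfP.trans (PfP.trans (PfP.trans (PfP.trans (PfP.trans (PfP.trans (PfP.trans (PfP.trans (PfP.trans (PfP.trans (PfP.trans (PfP.trans (PfP.trans (PfP.trans (PfP.trans (PfP.trans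 (PfP.trans (PfP.trans (PfP.trans (PfP.trans (PfP.trans (pfC_sound p12_17_2_0) (pfC_sound p12_17_2_1)) (pfC_sound p12_17_2_2)) (pfC_sound p12_17_2_3)) (pfC_sound p12_17_2_4)) (pfC_sound p12_17_2_5)) (pfC_sound p12_17_2_6)) (pfC_sound p12_17_2_7)) (pfC_sound p12_17_2_8)) (pfC_sound p12_17_2_9)) (pfC_sound p12_17_2_10)) (pfC_sound p12_17_2_11)) (pfC_sound p12_17_2_12)) (pfC_sound p12_17_2_13)) (pfC_sound p12_17_2_14)) (pfC_sound p12_17_2_15)) (pfC_sound p12_17_2_16)) (pfC_sound p12_17_2_17)) (pfC_sound p12_17_2_18)) (pfC_sound p12_17_2_19)) (pfC_sound p12_17_2_20)) (pfC_sound p12_17_2_21)) (pfC_sound p12_17_2_22)) (pfC_sound p12_17_2_23))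
 (pfC_sound p12_17_2_24)) (pfC_sound p12_17_2_25)) (pfC_sound p12_17_2_26)) (pfC_sound p12_17_2_27)) (pfC_sound p12_17_2_28)) (pfC_sound p12_17_2_29)) (pfC_sound p12_17_2_30)) (pfC_sound p12_17_2_31)) (pfC_sound p12_17_2_32)) (pfC_sound p12_17_2_33)) (pfC_sound p12_17_2_34)) (pfC_sound p12_17_2_35)) (pfC_sound p12_17_2_36)) (pfC_sound p12_17_2_37)) (pfC_sound p12_17_2_38)) (pfC_sound p12_17_2_39)) (pfC_sound p12_17_2_40)) (pfC_sound p12_17_2_41)) (pfC_sound p12_17_2_42)) (pfC_sound p12_17_2_43)) (pfC_sound p12_17_2_44)) (pfC_sound p12_17_2_45)) (pfC_sound p12_17_2_46)) (pfC_sound p12_17_2_47)) (pfC_sound p12_17_2_48)) (pfC_sound p12_17_2_49)) (pfC_sound p12_17_2_50)) (pfC_sound p12_17_2_51)) (pfC_sound p12_17_2_52)) (pfC_sound p12_17_2_53)) (pfC_sound p12_17_2_54)) (pfC_sound p12_17_2_55)) (pfC_sound p12_17_2_56)) (pfC_sound p12_17_2_57)) (pfC_sound p12_17_2_58)) (pfC_sound p12_17_2_59)) (pfC_sound p12_17_2_60)) (pfC_sound p12_17_2_61)) (pfC_sound p12_17_2_62)) (pfC_sound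 p12_17_2_63)) (pfC_sound p12_17_2_64)) (pfC_sound p12_17_2_65)) (pfC_sound p12_17_2_66)) (pfC_sound p12_17_2_67)) (pfC_sound p12_17_2_68)) (pfC_sound p12_17_2_69)) (pfC_sound p12_17_2_70)) (pfC_sound p12_17_2_71))
 (pfC_sound p12_17_2_72)) (pfC_sound p12_17_2_73)) (pfC_sound p12_17_2_74)) (pfC_sound p12_17_2_75)) (pfC_sound p12_17_2_76)) (pfC_sound p12_17_2_77)) (pfC_sound p12_17_2_78)) (pfC_sound p12_17_2_79)) (pfC_sound p12_17_2_80)) (pfC_sound p12_17_2_81)) (pfC_sound p12_17_2_82)) (pfC_sound p12_17_2_83)) (pfC_sound p12_17_2_84)) (pfC_sound p12_17_2_85)) (pfC_sound p12_17_2_86)) (pfC_sound p12_17_2_87)) (pfC_sound p12_17_2_88)) (pfC_sound p12_17_2_89)) (pfC_sound p12_17_2_90)) (pfC_sound p12_17_2_91)) (pfC_sound p12_17_2_92)) (pfC_sound p12_17_2_93)) (pfC_sound p12_17_2_94)) (pfC_sound p12_17_2_95)) (pfC_sound p12_17_2_96)) (pfC_sound p12_17_2_97)) (pfC_sound p12_17_2_98)) (pfC_sound p12_17_2_99)) (pfC_sound p12_17_2_100)) (pfC_sound p12_17_2_101)) (pfC_sound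 p12_17_2_102)) (pfC_sound p12_17_2_103)) (pfC_sound p12_17_2_104)) (pfC_sound p12_17_2_105)) (pfC_sound p12_17_2_106)) (pfC_sound p12_17_2_107)) (pfC_sound p12_17_2_108)) (pfC_sound p12_17_2_109)) (pfC_sound p12_17_2_110)) (pfC_sound p12_17_2_111)) (pfC_sound p12_17_2_112)) (pfC_sound p12_17_2_113)) (pfC_sound p12_17_2_114)) (pfC_sound p12_17_2_115)) (pfC_sound p12_17_2_116)) (pfC_sound p12_17_2_117)) (pfC_sound p12_17_2_118))
 (pfC_sound p12_17_2_119)) (pfC_sound p12_17_2_120)) (pfC_sound p12_17_2_121)) (pfC_sound p12_17_2_122)) (pfC_sound p12_17_2_123)) (pfC_sound p12_17_2_124)) (pfC_sound p12_17_2_125)) (pfC_sound p12_17_2_126)) (pfC_sound p12_17_2_127)) (pfC_sound p12_17_2_128)) (pfC_sound p12_17_2_129)) (pfC_sound p12_17_2_130)) (pfC_sound p12_17_2_131)) (pfC_sound p12_17_2_132)) (pfC_sound p12_17_2_133)) (pfC_sound p12_17_2_134)) (pfC_sound p12_17_2_135)) (pfC_sound p12_17_2_136)) (pfC_sound p12_17_2_137)) (pfC_sound p12_17_2_138)) (pfC_sound p12_17_2_139))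 (pfC_sound p12_17_2_140)) (pfC_sound p12_17_2_141)) (pfC_sound p12_17_2_142)) (pfC_sound p12_17_2_143)) (pfC_sound p12_17_2_144)) (pfC_sound p12_17_2_145)) (pfC_sound p12_17_2_146)) (pfC_sound p12_17_2_147)) (pfC_sound p12_17_2_148)) (pfC_sound p12_17_2_149)) (pfC_sound p12_17_2_150)) (pfC_sound p12_17_2_151)) (pfC_sound p12_17_2_152)) (pfC_sound p12_17_2_153)) (pfC_sound p12_17_2_154)) (pfC_sound p12_17_2_155)) (pfC_sound p12_17_2_156)) (pfC_sound p12_17_2_157)) (pfC_sound p12_17_2_158)) (pfC_sound p12_17_2_159)) (pfC_sound p12_17_2_160)) (pfC_sound p12_17_2_161)) (pfC_sound p12_17_2_162)) (pfC_sound p12_17_2_163)) (pfC_sound p12_17_2_164)) (by decide +kernel)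

def z12_17_2 : zOK yB12_17 (nat_lit 2) (nat_lit 600) (nat_lit 743) (nat_lit 7528973) (nat_lit 6367670) = true := by decide +kernel
def g12_17_2 : gOK yB12_17.x P12_17 (nat_lit 1396) (q12_17 :: r12_17) (nat_lit 2) (nat_lit 600) (nat_lit 3) (nat_lit 743) (nat_lit 12712500) (nat_lit 12712500) (nat_lit 12712500) (nat_lit 12712500) [(nat_lit 800)] = true := by decide +kernel
def v12_17_2 : ivC P12_17 s12_17 w12_17 n12_17 (nat_lit 3) (nat_lit 4720) (nat_lit 2) (nat_lit 600) f176_0_600 f184_0_600 (nat_lit 3) (nat_lit 743) f176_0_743 f184_0_743 (nat_lit 7528973) (nat_lit 6367670) p12_17_2 = true := by decide +kernel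
end CB
end Pool.Agent.Lib.MP_6947cd_al
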