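import Pool.Agent.Lib.MP_6947cd_al.L.BoxDataB
import Pool.Agent.Lib.MP_6947cd_al.L.TeD1

/-!
Problem MP_6947cd_al (Chollet).  CASE B, rows `j`: boxes (generated).
-/

set_option autoImplicit false
set_option linter.defProp false
set_option maxRecDepth 20000

namespace Pool.Agent.Lib.MP_6947cd_al
namespace CB

open Ent Ent.Pk Fr Fr.WT CA

/-! box `yB12_18` -/

def P12_18 : BQ := ⟨(nat_lit 8), (nat_lit 4), (nat_lit 4), (nat_lit 0), (nat_lit 8), (nat_lit 900), (nat_lit 920), (nat_lit 90), [(nat_lit 180), (nat_lit 330), (nat_lit 650)], (nat_lit 138880000), (nat_lit 16000000), (nat_lit 16000000000)⟩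
def q12_18 : PC := ⟨(nat_lit 1000), [(nat_lit 90000), (nat_lit 180000), (nat_lit 330000), (nat_lit 650000)], (nat_lit 79228162532711081671548469249000000), (nat_lit 15861120000000), (nat_lit 15861120000000), (nat_lit 10000000)⟩
def r12_18 : List PC := [⟨(nat_lit 1352), [(nat_lit 90547), (nat_lit 180827), (nat_lit 331124), (nat_lit 651608)], (nat_lit 79554582562375827287153266027088478), (nat_lit 16369176120320), (nat_lit 16380970992640), (nat_lit 10060778)⟩]
def s12_18 : List PB := [⟨(nat_lit 27040), (nat_lit 1448752000000), [(nat_lit 180827), (nat_lit 331124), (nat_lit 651608)], (nat_lit 79554582562375827287153266027088478), (nat_lit 1142269082962944), (nat_lit 1142280877835264), (nat_lit 56320)⟩]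
def n12_18 : List KN := [⟨(nat_lit 650), (nat_lit 330), (nat_lit 15702173), (nat_lit 7360548)⟩, ⟨(nat_lit 330), (nat_lit 180), (nat_lit 24534081), (nat_lit 15702173)⟩, ⟨(nat_lit 180), (nat_lit 90), (nat_lit 38632330), (nat_lit 24534081)⟩]
def w12_18 : List ℕ := [(nat_lit 56320)]
def par12_18 : parC yB12_18 P12_18 s12_18 r12_18 q12_18 n12_18 w12_18 = true := by decide +kernel

def p12_18_0 : PF := (PF.cons (PF.cons (PF.cons (PF.leaf (nat_lit 751612) (nat_lit 2320772) (nat_lit 64788040) (nat_lit 2320772) [(nat_lit 0), (nat_lit 0), (nat_lit 0)]) (PF.cons (PF.leaf (nat_lit 909148) (nat_lit 251701) (nat_lit 64472207) (nat_lit 2384904) [(nat_lit 251701), (nat_lit 0), (nat_lit 0)]) (PF.cons (PF.leaf (nat_lit 1100421) (nat_lit 278751) (nat_lit 64096075) (nat_lit 2455235) [(nat_lit 278751), (nat_lit 0), (nat_lit 0)]) (PF.cons (PF.leaf (nat_lit 1319816) (nat_lit 304133) (nat_lit 63667739) (nat_lit 2528672) [(nat_lit 304133), (nat_lit 0), (nat_lit 0)]) (PF.cons (PF.leaf (nat_lit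 1564797) (nat_lit 328161) (nat_lit 63193039) (nat_lit 2603127) [(nat_lit 328161), (nat_lit 0), (nat_lit 0)]) (PF.cons (PF.leaf (nat_lit 1833176) (nat_lit 350993) (nat_lit 62676710) (nat_lit 2677133) [(nat_lit 350993), (nat_lit 0), (nat_lit 0)]) (PF.cons (PF.leaf (nat_lit 2123108) (nat_lit 372714) (nat_lit 62122885) (nat_lit 2749640) [(nat_lit 372714), (nat_lit 0), (nat_lit 0)]) (PF.cons (PF.leaf (nat_lit 2432724) (nat_lit 393371) (nat_lit 61535332) (nat_lit 2819883) [(nat_lit 393371), (nat_lit 0), (nat_lit 0)]) (PF.cons (PF.leaf (nat_lit 2760351) (nat_lit 412991) (nat_lit 60917572) (nat_lit 2887308) [(nat_lit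
 412991), (nat_lit 0), (nat_lit 0)]) (PF.cons (PF.leaf (nat_lit 3104317) (nat_lit 431594) (nat_lit 60272939) (nat_lit 2951518) [(nat_lit 431594), (nat_lit 0), (nat_lit 0)]) (PF.cons (PF.leaf (nat_lit 3463046) (nat_lit 449196) (nat_lit 59604611) (nat_lit 3012235) [(nat_lit 449196), (nat_lit 0), (nat_lit 0)]) (PF.cons (PF.leaf (nat_lit 3835008) (nat_lit 465811) (nat_lit 58915616) (nat_lit 3069274) [(nat_lit 465811), (nat_lit 0), (nat_lit 0)]) (PF.cons (PF.leaf (nat_lit 4218719) (nat_lit 481454) (nat_lit 58208840) (nat_lit 3122523) [(nat_lit 481454), (nat_lit 0), (nat_lit 0)]) (PF.cons (PF.leaf (nat_lit 4612750) (nat_lit 496143) (nat_lit 57487025) (nat_lit 3171928) [(nat_lit 496143), (nat_lit 0), (nat_lit 0)]) (PF.cons (PF.leaf (nat_lit 5015717) (nat_lit 509897) (nat_lit 56752764) (nat_lit 3217482) [(nat_lit 509897), (nat_lit 0), (nat_lit 0)]) (PF.cons (PF.leaf (nat_lit 5426336) (nat_lit 522739) (nat_lit 56008503) (nat_lit 3259215) [(nat_lit 522739), (nat_lit 0), (nat_lit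 0)]) (PF.cons PF.nil (PF.cons PF.nil (PF.cons PF.nil (PF.cons PF.nil PF.nil)))))))))))))))))))) (PF.cons (PF.cons (PF.leaf (nat_lit 1432265) (nat_lit 1545090) (nat_lit 62952062) (nat_lit 2611659) [(nat_lit 0),
 (nat_lit 1545090), (nat_lit 0)]) (PF.cons (PF.leaf (nat_lit 1654749) (nat_lit 331481) (nat_lit 62506028) (nat_lit 2674725) [(nat_lit 331481), (nat_lit 1596576), (nat_lit 0)]) (PF.cons (PF.leaf (nat_lit 1904553) (nat_lit 354378) (nat_lit 62012125) (nat_lit 2739236) [(nat_lit 354378), (nat_lit 1648693), (nat_lit 0)]) (PF.cons (PF.leaf (nat_lit 2177675) (nat_lit 375948) (nat_lit 61477011) (nat_lit 2803628) [(nat_lit 375948), (nat_lit 1700327), (nat_lit 0)]) (PF.cons (PF.leaf (nat_lit 2471798) (nat_lit 396337) (nat_lit 60905886) (nat_lit 2866820) [(nat_lit 396337), (nat_lit 1750754), (nat_lit 0)]) (PF.cons (PF.leaf (nat_lit 2784798) (nat_lit 415629) (nat_lit 60303136) (nat_lit 2928047) [(nat_lit 415629), (nat_lit 1799481), (nat_lit 0)]) (PF.cons (PF.leaf (nat_lit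 3114844) (nat_lit 433874) (nat_lit 59672633) (nat_lit 2986761) [(nat_lit 433874), (nat_lit 1846172), (nat_lit 0)]) (PF.cons (PF.leaf (nat_lit 3460247) (nat_lit 451106) (nat_lit 59017897) (nat_lit 3042573) [(nat_lit 451106), (nat_lit 1890596), (nat_lit 0)]) (PF.cons (PF.leaf (nat_lit 3819345) (nat_lit 467353) (nat_lit 58342173) (nat_lit 3095215) [(nat_lit 467353), (nat_lit 1932599), (nat_lit 0)]) (PF.cons (PF.leaf (nat_lit
 4190613) (nat_lit 482637) (nat_lit 57648485) (nat_lit 3144508) [(nat_lit 482637), (nat_lit 1972085), (nat_lit 0)]) (PF.cons (PF.leaf (nat_lit 4572634) (nat_lit 496980) (nat_lit 56939656) (nat_lit 3190345) [(nat_lit 496980), (nat_lit 2009004), (nat_lit 0)]) (PF.cons (PF.leaf (nat_lit 4963995) (nat_lit 510406) (nat_lit 56218326) (nat_lit 3232676) [(nat_lit 510406), (nat_lit 2043339), (nat_lit 0)]) (PF.cons (PF.leaf (nat_lit 5363383) (nat_lit 522938) (nat_lit 55486958) (nat_lit 3271495) [(nat_lit 522938), (nat_lit 2075099), (nat_lit 0)]) (PF.cons (PF.leaf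 (nat_lit 5769607) (nat_lit 534600) (nat_lit 54747848) (nat_lit 3306833) [(nat_lit 534600), (nat_lit 2104318), (nat_lit 0)]) (PF.cons PF.nil (PF.cons PF.nil (PF.cons PF.nil (PF.cons PF.nil PF.nil)))))))))))))))))) (PF.cons (PF.cons (PF.leaf (nat_lit 2251396) (nat_lit 1737230) (nat_lit 60776146) (nat_lit 2858205) [(nat_lit 0), (nat_lit 1737230), (nat_lit 0)]) (PF.cons (PF.leaf (nat_lit 2524940) (nat_lit 397572) (nat_lit 60233037) (nat_lit 2913674) [(nat_lit 397572), (nat_lit 1782263), (nat_lit 0)]) (PF.cons (PF.leaf (nat_lit 2820243) (nat_lit 416875) (nat_lit 59653822) (nat_lit 2968311) [(nat_lit 416875), (nat_lit 1826463), (nat_lit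
 0)]) (PF.cons (PF.leaf (nat_lit 3134172) (nat_lit 435004) (nat_lit 59043956) (nat_lit 3021303) [(nat_lit 435004), (nat_lit 1869269), (nat_lit 0)]) (PF.cons (PF.leaf (nat_lit 3464560) (nat_lit 452049) (nat_lit 58407913) (nat_lit 3072087) [(nat_lit 452049), (nat_lit 1910307), (nat_lit 0)]) (PF.cons (PF.leaf (nat_lit 3809556) (nat_lit 468068) (nat_lit 57749545) (nat_lit 3120272) [(nat_lit 468068), (nat_lit 1949327), (nat_lit 0)]) (PF.cons (PF.leaf (nat_lit 4167453) (nat_lit 483104) (nat_lit 57072265) (nat_lit 3165592) [(nat_lit 483104), (nat_lit 1986164), (nat_lit 0)]) (PF.cons (PF.leaf (nat_lit 4536742) (nat_lit 497193) (nat_lit 56379155) (nat_lit 3207871) [(nat_lit 497193), (nat_lit 2020717), (nat_lit 0)]) (PF.cons (PF.leaf (nat_lit 4915932) (nat_lit 510365) (nat_lit 55673024) (nat_lit 3247006) [(nat_lit 510365), (nat_lit 2052929), (nat_lit 0)]) (PF.cons (PF.leaf (nat_lit 5303665) (nat_lit 522649) (nat_lit 54956450) (nat_lit 3282948) [(nat_lit 522649), (nat_lit 2082782),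 (nat_lit 0)]) (PF.cons (PF.leaf (nat_lit 5698715) (nat_lit 534075) (nat_lit 54231799) (nat_lit 3315693) [(nat_lit 534075), (nat_lit 2110281), (nat_lit 0)]) (PF.cons (PF.leaf (nat_lit 6099880) (nat_lit 544670)
 (nat_lit 53501248) (nat_lit 3345269) [(nat_lit 544670), (nat_lit 2135457), (nat_lit 0)]) (PF.cons PF.nil (PF.cons PF.nil (PF.cons PF.nil (PF.cons PF.nil PF.nil)))))))))))))))) (PF.cons (PF.cons (PF.leaf (nat_lit 3169022) (nat_lit 1892521) (nat_lit 58375443) (nat_lit 3055804) [(nat_lit 0), (nat_lit 1892521), (nat_lit 0)]) (PF.cons (PF.leaf (nat_lit 3480785) (nat_lit 451709) (nat_lit 57766239) (nat_lit 3101222) [(nat_lit 451709), (nat_lit 1929880), (nat_lit 0)]) (PF.cons (PF.leaf (nat_lit 3809396) (nat_lit 467727) (nat_lit 57131370) (nat_lit 3144756) [(nat_lit 467727), (nat_lit 1965743), (nat_lit 0)]) (PF.cons (PF.leaf (nat_lit 4152242) (nat_lit 482685) (nat_lit 56475265) (nat_lit 3185995) [(nat_lit 482685), (nat_lit 1999831), (nat_lit 0)]) (PF.cons (PF.leaf (nat_lit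 4507515) (nat_lit 496649) (nat_lit 55801652) (nat_lit 3224665) [(nat_lit 496649), (nat_lit 2031964), (nat_lit 0)]) (PF.cons (PF.leaf (nat_lit 4873560) (nat_lit 509672) (nat_lit 55113766) (nat_lit 3260589) [(nat_lit 509672), (nat_lit 2062032), (nat_lit 0)]) (PF.cons (PF.leaf (nat_lit 5248891) (nat_lit 521793) (nat_lit 54414469) (nat_lit 3293664) [(nat_lit 521793), (nat_lit 2089972), (nat_lit 0)]) (PF.cons (PF.leaf
 (nat_lit 5632175) (nat_lit 533051) (nat_lit 53706326) (nat_lit 3323839) [(nat_lit 533051), (nat_lit 2115761), (nat_lit 0)]) (PF.cons (PF.leaf (nat_lit 6022173) (nat_lit 543480) (nat_lit 52991647) (nat_lit 3351110) [(nat_lit 543480), (nat_lit 2139403), (nat_lit 0)]) (PF.cons (PF.leaf (nat_lit 6417726) (nat_lit 553113) (nat_lit 52272523) (nat_lit 3375502) [(nat_lit 553113), (nat_lit 2160922), (nat_lit 0)]) (PF.cons (PF.leaf (nat_lit 6817779) (nat_lit 561981) (nat_lit 51550847) (nat_lit 3397065) [(nat_lit 561981), (nat_lit 2180362), (nat_lit 0)]) (PF.cons PF.nil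 (PF.cons PF.nil (PF.cons PF.nil PF.nil)))))))))))))) (PF.cons (PF.cons (PF.leaf (nat_lit 4150023) (nat_lit 2013360) (nat_lit 55849323) (nat_lit 3206046) [(nat_lit 0), (nat_lit 2013360), (nat_lit 0)]) (PF.cons (PF.leaf (nat_lit 4488588) (nat_lit 495126) (nat_lit 55200999) (nat_lit 3240952) [(nat_lit 495126), (nat_lit 2042933), (nat_lit 0)]) (PF.cons (PF.leaf (nat_lit 4839770) (nat_lit 508158) (nat_lit 54535810) (nat_lit 3273583) [(nat_lit 508158), (nat_lit 2070775), (nat_lit 0)]) (PF.cons (PF.leaf (nat_lit 5201400) (nat_lit 520240) (nat_lit 53857291) (nat_lit 3303752) [(nat_lit 520240), (nat_lit 2096761), (nat_lit 0)])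
 (PF.cons (PF.leaf (nat_lit 5571925) (nat_lit 531428) (nat_lit 53168453) (nat_lit 3331351) [(nat_lit 531428), (nat_lit 2120823), (nat_lit 0)]) (PF.cons (PF.leaf (nat_lit 5949982) (nat_lit 541770) (nat_lit 52471912) (nat_lit 3356327) [(nat_lit 541770), (nat_lit 2142930), (nat_lit 0)]) (PF.cons (PF.leaf (nat_lit 6334303) (nat_lit 551306) (nat_lit 51769974) (nat_lit 3378671) [(nat_lit 551306), (nat_lit 2163082), (nat_lit 0)]) (PF.cons (PF.leaf (nat_lit 6723762) (nat_lit 560074) (nat_lit 51064684) (nat_lit 3398404) [(nat_lit 560074), (nat_lit 2181300), (nat_lit 0)]) (PF.cons (PF.leaf (nat_lit 7117328) (nat_lit 568110) (nat_lit 50357867) (nat_lit 3415575) [(nat_lit 568110), (nat_lit 2197621), (nat_lit 0)]) (PF.cons PF.nil (PF.cons PF.nil (PF.cons PF.nil PF.nil)))))))))))) (PF.cons (PF.cons (PF.leaf (nat_lit 5165027) (nat_lit 2103286) (nat_lit 53279012) (nat_lit 3313367) [(nat_lit 0), (nat_lit 2103286), (nat_lit 0)]) (PF.cons (PF.leaf (nat_lit 5520756) (nat_lit 529042) (nat_lit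 52613636) (nat_lit 3338332) [(nat_lit 529042), (nat_lit 2125560), (nat_lit 0)]) (PF.cons (PF.leaf (nat_lit 5885551) (nat_lit 539413) (nat_lit 51938477) (nat_lit 3360992) [(nat_lit 539413), (nat_lit 2146103),
 (nat_lit 0)]) (PF.cons (PF.leaf (nat_lit 6257636) (nat_lit 548945) (nat_lit 51256301) (nat_lit 3381288) [(nat_lit 548945), (nat_lit 2164877), (nat_lit 0)]) (PF.cons (PF.leaf (nat_lit 6635710) (nat_lit 557688) (nat_lit 50569472) (nat_lit 3399206) [(nat_lit 557688), (nat_lit 2181875), (nat_lit 0)]) (PF.cons (PF.leaf (nat_lit 7018639) (nat_lit 565687) (nat_lit 49880038) (nat_lit 3414764) [(nat_lit 565687), (nat_lit 2197114), (nat_lit 0)]) (PF.cons (PF.leaf (nat_lit 7405390) (nat_lit 572980) (nat_lit 49189794) (nat_lit 3428001) [(nat_lit 572980), (nat_lit 2210627), (nat_lit 0)]) (PF.cons PF.nil (PF.cons PF.nil (PF.cons PF.nil PF.nil)))))))))) (PF.cons (PF.cons (PF.leaf (nat_lit 6190696) (nat_lit 2166369) (nat_lit 50727176) (nat_lit 3383417) [(nat_lit 0), (nat_lit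 2166369), (nat_lit 0)]) (PF.cons (PF.leaf (nat_lit 6555784) (nat_lit 554701) (nat_lit 50061816) (nat_lit 3399512) [(nat_lit 554701), (nat_lit 2182130), (nat_lit 0)]) (PF.cons (PF.leaf (nat_lit 6927063) (nat_lit 562749) (nat_lit 49392142) (nat_lit 3413464) [(nat_lit 562749), (nat_lit 2196284), (nat_lit 0)]) (PF.cons (PF.leaf (nat_lit 7303058) (nat_lit 570068) (nat_lit 48720274) (nat_lit 3425285) [(nat_lit 570068), (nat_lit
 2208841), (nat_lit 0)]) (PF.cons (PF.leaf (nat_lit 7682716) (nat_lit 576702) (nat_lit 48048019) (nat_lit 3435009) [(nat_lit 576702), (nat_lit 2219828), (nat_lit 0)]) (PF.cons (PF.leaf (nat_lit 8065119) (nat_lit 582692) (nat_lit 47376938) (nat_lit 3442691) [(nat_lit 582692), (nat_lit 2229286), (nat_lit 0)]) (PF.cons PF.nil (PF.cons PF.nil PF.nil)))))))) (PF.cons (PF.cons (PF.leaf (nat_lit 7209364) (nat_lit 2206760) (nat_lit 48239373) (nat_lit 3422114) [(nat_lit 0), (nat_lit 2206760), (nat_lit 0)]) (PF.cons (PF.leaf (nat_lit 7577730) (nat_lit 573321)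 (nat_lit 47586539) (nat_lit 3430602) [(nat_lit 573321), (nat_lit 2216907), (nat_lit 0)]) (PF.cons (PF.leaf (nat_lit 7950012) (nat_lit 579379) (nat_lit 46933454) (nat_lit 3437199) [(nat_lit 579379), (nat_lit 2225628), (nat_lit 0)]) (PF.cons (PF.leaf (nat_lit 8324981) (nat_lit 584811) (nat_lit 46281707) (nat_lit 3441950) [(nat_lit 584811), (nat_lit 2232960), (nat_lit 0)]) (PF.cons PF.nil (PF.cons PF.nil PF.nil)))))) (PF.cons (PF.cons (PF.leaf (nat_lit 8208304) (nat_lit 2228389) (nat_lit 45846590) (nat_lit 3435104) [(nat_lit 0), (nat_lit 2228389), (nat_lit 0)]) (PF.cons (PF.leaf (nat_lit 8575384) (nat_lit 586045) (nat_lit 45214941)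
 (nat_lit 3437259) [(nat_lit 586045), (nat_lit 2233820), (nat_lit 0)]) (PF.cons (PF.leaf (nat_lit 8944599) (nat_lit 590423) (nat_lit 44585941) (nat_lit 3437801) [(nat_lit 590423), (nat_lit 2238028), (nat_lit 0)]) (PF.cons PF.nil PF.nil)))) (PF.cons (PF.cons (PF.leaf (nat_lit 9178848) (nat_lit 2234799) (nat_lit 43568142) (nat_lit 3427473) [(nat_lit 0), (nat_lit 2234799), (nat_lit 0)]) (PF.cons PF.nil PF.nil)) (PF.cons PF.nil (PF.cons PF.nil (PF.cons PF.nil PF.nil))))))))))))) (PF.cons (PF.cons (PF.cons (PF.leaf (nat_lit 2590365) (nat_lit 2938426) (nat_lit 57752934) (nat_lit 2938426) [(nat_lit 0), (nat_lit 0), (nat_lit 6417451)]) (PF.cons (PF.leaf (nat_lit 2833651) (nat_lit 388982) (nat_lit 57279222) (nat_lit 2981272) [(nat_lit 388982), (nat_lit 0), (nat_lit 6459334)]) (PF.cons (PF.leaf (nat_lit 3101889) (nat_lit 410022) (nat_lit 56763107) (nat_lit 3024371) [(nat_lit 410022), (nat_lit 0), (nat_lit 6501288)]) (PF.cons (PF.leaf (nat_lit 3390628) (nat_lit 429164) (nat_lit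 56212573) (nat_lit 3066680) [(nat_lit 429164), (nat_lit 0), (nat_lit 6542063)]) (PF.cons (PF.leaf (nat_lit 3697058) (nat_lit 446730) (nat_lit 55633606) (nat_lit 3107511) [(nat_lit 446730), (nat_lit 0), (nat_lit
 6580770)]) (PF.cons (PF.leaf (nat_lit 4018888) (nat_lit 462929) (nat_lit 55031000) (nat_lit 3146397) [(nat_lit 462929), (nat_lit 0), (nat_lit 6616769)]) (PF.cons (PF.leaf (nat_lit 4354163) (nat_lit 477904) (nat_lit 54408760) (nat_lit 3183024) [(nat_lit 477904), (nat_lit 0), (nat_lit 6649598)]) (PF.cons (PF.leaf (nat_lit 4701164) (nat_lit 491764) (nat_lit 53770335) (nat_lit 3217185) [(nat_lit 491764), (nat_lit 0), (nat_lit 6678938)]) (PF.cons (PF.leaf (nat_lit 5058377) (nat_lit 504591) (nat_lit 53118749) (nat_lit 3248752) [(nat_lit 504591), (nat_lit 0), (nat_lit 6704575)]) (PF.cons (PF.leaf (nat_lit 5424383) (nat_lit 516454) (nat_lit 52456687) (nat_lit 3277653) [(nat_lit 516454), (nat_lit 0), (nat_lit 6726382)]) (PF.cons (PF.leaf (nat_lit 5797940) (nat_lit 527409)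 (nat_lit 51786554) (nat_lit 3303864) [(nat_lit 527409), (nat_lit 0), (nat_lit 6744300)]) (PF.cons (PF.leaf (nat_lit 6177841) (nat_lit 537507) (nat_lit 51110510) (nat_lit 3327395) [(nat_lit 537507), (nat_lit 0), (nat_lit 6758328)]) (PF.cons (PF.leaf (nat_lit 6563017) (nat_lit 546793) (nat_lit 50430506) (nat_lit 3348280) [(nat_lit 546793), (nat_lit 0), (nat_lit 6768505)]) (PF.cons (PF.leaf (nat_lit 6952477) (nat_lit 555309)
 (nat_lit 49748300) (nat_lit 3366576) [(nat_lit 555309), (nat_lit 0), (nat_lit 6774908)]) (PF.cons PF.nil (PF.cons PF.nil (PF.cons PF.nil (PF.cons PF.nil PF.nil)))))))))))))))))) (PF.cons (PF.cons (PF.leaf (nat_lit 3434125) (nat_lit 1911546) (nat_lit 55530552) (nat_lit 3094584) [(nat_lit 0), (nat_lit 1911546), (nat_lit 6572128)]) (PF.cons (PF.leaf (nat_lit 3718431) (nat_lit 443347) (nat_lit 54986925) (nat_lit 3130376) [(nat_lit 443347), (nat_lit 1943664), (nat_lit 6604499)]) (PF.cons (PF.leaf (nat_lit 4021525) (nat_lit 460050) (nat_lit 54414085) (nat_lit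 3165015) [(nat_lit 460050), (nat_lit 1974636), (nat_lit 6634974)]) (PF.cons (PF.leaf (nat_lit 4340142) (nat_lit 475329) (nat_lit 53817780) (nat_lit 3197998) [(nat_lit 475329), (nat_lit 2004117), (nat_lit 6662927)]) (PF.cons (PF.leaf (nat_lit 4672055) (nat_lit 489365) (nat_lit 53202530) (nat_lit 3228989) [(nat_lit 489365), (nat_lit 2031899), (nat_lit 6687930)]) (PF.cons (PF.leaf (nat_lit 5015419) (nat_lit 502286) (nat_lit 52572055) (nat_lit 3257774) [(nat_lit 502286), (nat_lit 2057858), (nat_lit 6709691)]) (PF.cons (PF.leaf (nat_lit 5368589) (nat_lit 514187) (nat_lit 51929510) (nat_lit 3284220) [(nat_lit 514187), (nat_lit 2081929),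
 (nat_lit 6728027)]) (PF.cons (PF.leaf (nat_lit 5730159) (nat_lit 525145) (nat_lit 51277624) (nat_lit 3308252) [(nat_lit 525145), (nat_lit 2104084), (nat_lit 6742833)]) (PF.cons (PF.leaf (nat_lit 6098838) (nat_lit 535222) (nat_lit 50618790) (nat_lit 3329844) [(nat_lit 535222), (nat_lit 2124327), (nat_lit 6754070)]) (PF.cons (PF.leaf (nat_lit 6473455) (nat_lit 544473) (nat_lit 49955123) (nat_lit 3349000) [(nat_lit 544473), (nat_lit 2142678), (nat_lit 6761747)]) (PF.cons (PF.leaf (nat_lit 6852956) (nat_lit 552946) (nat_lit 49288505) (nat_lit 3365754) [(nat_lit 552946), (nat_lit 2159177), (nat_lit 6765912)]) (PF.cons (PF.leaf (nat_lit 7236374) (nat_lit 560684) (nat_lit 48620612) (nat_lit 3380155) [(nat_lit 560684), (nat_lit 2173873), (nat_lit 6766647)]) (PF.cons PF.nil (PF.cons PF.nil (PF.cons PF.nil (PF.cons PF.nil PF.nil)))))))))))))))) (PF.cons (PF.cons (PF.leaf (nat_lit 4343827) (nat_lit 2014219) (nat_lit 53192699) (nat_lit 3212927) [(nat_lit 0), (nat_lit 2014219),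 (nat_lit 6674746)]) (PF.cons (PF.leaf (nat_lit 4656923) (nat_lit 485664) (nat_lit 52607988) (nat_lit 3240528) [(nat_lit 485664), (nat_lit 2039634), (nat_lit 6695363)]) (PF.cons (PF.leaf (nat_lit 4983996) (nat_lit
 498932) (nat_lit 52004082) (nat_lit 3266405) [(nat_lit 498932), (nat_lit 2063594), (nat_lit 6713271)]) (PF.cons (PF.leaf (nat_lit 5322536) (nat_lit 511057) (nat_lit 51385217) (nat_lit 3290326) [(nat_lit 511057), (nat_lit 2085950), (nat_lit 6728195)]) (PF.cons (PF.leaf (nat_lit 5670740) (nat_lit 522159) (nat_lit 50754826) (nat_lit 3312149) [(nat_lit 522159), (nat_lit 2106615), (nat_lit 6739969)]) (PF.cons (PF.leaf (nat_lit 6027099) (nat_lit 532325) (nat_lit 50115780) (nat_lit 3331794) [(nat_lit 532325), (nat_lit 2125552), (nat_lit 6748505)]) (PF.cons (PF.leaf (nat_lit 6390315) (nat_lit 541628) (nat_lit 49470527) (nat_lit 3349230) [(nat_lit 541628), (nat_lit 2142755), (nat_lit 6753776)]) (PF.cons (PF.leaf (nat_lit 6759174) (nat_lit 550127) (nat_lit 48821187)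 (nat_lit 3364457) [(nat_lit 550127), (nat_lit 2158237), (nat_lit 6755799)]) (PF.cons (PF.leaf (nat_lit 7132632) (nat_lit 557875) (nat_lit 48169611) (nat_lit 3377504) [(nat_lit 557875), (nat_lit 2172032), (nat_lit 6754627)]) (PF.cons (PF.leaf (nat_lit 7509727) (nat_lit 564917) (nat_lit 47517427) (nat_lit 3388416) [(nat_lit 564917), (nat_lit 2184183), (nat_lit 6750342)]) (PF.cons (PF.leaf (nat_lit 7889635) (nat_lit 571296)
 (nat_lit 46866068) (nat_lit 3397253) [(nat_lit 571296), (nat_lit 2194742), (nat_lit 6743044)]) (PF.cons PF.nil (PF.cons PF.nil (PF.cons PF.nil PF.nil)))))))))))))) (PF.cons (PF.cons (PF.leaf (nat_lit 5291027) (nat_lit 2089845) (nat_lit 50816294) (nat_lit 3296130) [(nat_lit 0), (nat_lit 2089845), (nat_lit 6726852)]) (PF.cons (PF.leaf (nat_lit 5623129) (nat_lit 518199) (nat_lit 50212517) (nat_lit 3315655) [(nat_lit 518199), (nat_lit 2108927), (nat_lit 6735658)]) (PF.cons (PF.leaf (nat_lit 5965394) (nat_lit 528627) (nat_lit 49597139) (nat_lit 3333310)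 [(nat_lit 528627), (nat_lit 2126508), (nat_lit 6741580)]) (PF.cons (PF.leaf (nat_lit 6315808) (nat_lit 538113) (nat_lit 48973311) (nat_lit 3349009) [(nat_lit 538113), (nat_lit 2142537), (nat_lit 6744538)]) (PF.cons (PF.leaf (nat_lit 6672955) (nat_lit 546742) (nat_lit 48343627) (nat_lit 3362712) [(nat_lit 546742), (nat_lit 2156995), (nat_lit 6744515)]) (PF.cons (PF.leaf (nat_lit 7035610) (nat_lit 554581) (nat_lit 47710275) (nat_lit 3374417) [(nat_lit 554581), (nat_lit 2169892), (nat_lit 6741533)]) (PF.cons (PF.leaf (nat_lit 7402703) (nat_lit 561689) (nat_lit 47075124) (nat_lit 3384146) [(nat_lit 561689), (nat_lit 2181253), (nat_lit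
 6735648)]) (PF.cons (PF.leaf (nat_lit 7773266) (nat_lit 568114) (nat_lit 46439787) (nat_lit 3391939) [(nat_lit 568114), (nat_lit 2191115), (nat_lit 6726941)]) (PF.cons (PF.leaf (nat_lit 8146440) (nat_lit 573901) (nat_lit 45805664) (nat_lit 3397852) [(nat_lit 573901), (nat_lit 2199525), (nat_lit 6715510)]) (PF.cons PF.nil (PF.cons PF.nil (PF.cons PF.nil PF.nil)))))))))))) (PF.cons (PF.cons (PF.leaf (nat_lit 6253566) (nat_lit 2142091) (nat_lit 48458125) (nat_lit 3348393) [(nat_lit 0), (nat_lit 2142091), (nat_lit 6733929)]) (PF.cons (PF.leaf (nat_lit 6596916) (nat_lit 542612) (nat_lit 47851716) (nat_lit 3360551) [(nat_lit 542612), (nat_lit 2155491), (nat_lit 6731966)]) (PF.cons (PF.leaf (nat_lit 6947406) (nat_lit 550666) (nat_lit 47239383) (nat_lit 3370912) [(nat_lit 550666), (nat_lit 2167476), (nat_lit 6727278)]) (PF.cons (PF.leaf (nat_lit 7303405) (nat_lit 557934) (nat_lit 46623463) (nat_lit 3379467) [(nat_lit 557934), (nat_lit 2178045), (nat_lit 6719896)]) (PF.cons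 (PF.leaf (nat_lit 7663782) (nat_lit 564482) (nat_lit 46005903) (nat_lit 3386233) [(nat_lit 564482), (nat_lit 2187217), (nat_lit 6709875)]) (PF.cons (PF.leaf (nat_lit 8027579) (nat_lit 570365) (nat_lit 45388344) (nat_lit
 3391245) [(nat_lit 570365), (nat_lit 2195025), (nat_lit 6697296)]) (PF.cons (PF.leaf (nat_lit 8393907) (nat_lit 575629) (nat_lit 44772187) (nat_lit 3394554) [(nat_lit 575629), (nat_lit 2201509), (nat_lit 6682254)]) (PF.cons PF.nil (PF.cons PF.nil (PF.cons PF.nil PF.nil)))))))))) (PF.cons (PF.cons (PF.leaf (nat_lit 7214661) (nat_lit 2174581) (nat_lit 46158564) (nat_lit 3374384) [(nat_lit 0), (nat_lit 2174581), (nat_lit 6702957)]) (PF.cons (PF.leaf (nat_lit 7563240) (nat_lit 560271) (nat_lit 45561378) (nat_lit 3380132) [(nat_lit 560271), (nat_lit 2183058), (nat_lit 6691736)]) (PF.cons (PF.leaf (nat_lit 7916582) (nat_lit 566339) (nat_lit 44962419) (nat_lit 3384261) [(nat_lit 566339), (nat_lit 2190267), (nat_lit 6678114)]) (PF.cons (PF.leaf (nat_lit 8273357)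 (nat_lit 571751) (nat_lit 44363414) (nat_lit 3386802) [(nat_lit 571751), (nat_lit 2196234), (nat_lit 6662170)]) (PF.cons (PF.leaf (nat_lit 8632690) (nat_lit 576560) (nat_lit 43765803) (nat_lit 3387799) [(nat_lit 576560), (nat_lit 2200994), (nat_lit 6643996)]) (PF.cons (PF.leaf (nat_lit 8993770) (nat_lit 580810) (nat_lit 43170801) (nat_lit 3387305) [(nat_lit 580810), (nat_lit 2204591), (nat_lit 6623696)]) (PF.cons PF.nil (PF.cons
 PF.nil PF.nil)))))))) (PF.cons (PF.cons (PF.leaf (nat_lit 8162051) (nat_lit 2190709) (nat_lit 43944794) (nat_lit 3378675) [(nat_lit 0), (nat_lit 2190709), (nat_lit 6641085)]) (PF.cons (PF.leaf (nat_lit 8511287) (nat_lit 572344) (nat_lit 43365013) (nat_lit 3379027) [(nat_lit 572344), (nat_lit 2195030), (nat_lit 6622242)]) (PF.cons (PF.leaf (nat_lit 8863457) (nat_lit 576760) (nat_lit 42786421) (nat_lit 3377979) [(nat_lit 576760), (nat_lit 2198252), (nat_lit 6601375)]) (PF.cons (PF.leaf (nat_lit 9217446) (nat_lit 580630) (nat_lit 42210279) (nat_lit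 3375580) [(nat_lit 580630), (nat_lit 2200412), (nat_lit 6578584)]) (PF.cons PF.nil (PF.cons PF.nil PF.nil)))))) (PF.cons (PF.cons (PF.leaf (nat_lit 9087149) (nat_lit 2193525) (nat_lit 41833726) (nat_lit 3365446) [(nat_lit 0), (nat_lit 2193525), (nat_lit 6554959)]) (PF.cons (PF.leaf (nat_lit 9433675) (nat_lit 579836) (nat_lit 41276684) (nat_lit 3361372) [(nat_lit 579836), (nat_lit 2194409), (nat_lit 6530055)]) (PF.cons PF.nil (PF.cons PF.nil PF.nil)))) (PF.cons (PF.cons (PF.leaf (nat_lit 9984260) (nat_lit 2185685) (nat_lit 39834550) (nat_lit 3338367) [(nat_lit 0), (nat_lit 2185685), (nat_lit 6450411)]) (PF.cons PF.nil PF.nil)) (PF.cons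
 PF.nil (PF.cons PF.nil PF.nil))))))))))) (PF.cons (PF.cons (PF.cons (PF.leaf (nat_lit 4519722) (nat_lit 3199641) (nat_lit 50654083) (nat_lit 3199641) [(nat_lit 0), (nat_lit 0), (nat_lit 6627544)]) (PF.cons (PF.leaf (nat_lit 4805237) (nat_lit 469745) (nat_lit 50139716) (nat_lit 3221805) [(nat_lit 469745), (nat_lit 0), (nat_lit 6638772)]) (PF.cons (PF.leaf (nat_lit 5107188) (nat_lit 484234) (nat_lit 49601687) (nat_lit 3242712) [(nat_lit 484234), (nat_lit 0), (nat_lit 6647971)]) (PF.cons (PF.leaf (nat_lit 5422291) (nat_lit 497186) (nat_lit 49045497) (nat_lit 3262061) [(nat_lit 497186), (nat_lit 0), (nat_lit 6654846)]) (PF.cons (PF.leaf (nat_lit 5748368) (nat_lit 508840) (nat_lit 48475360) (nat_lit 3279670) [(nat_lit 508840), (nat_lit 0), (nat_lit 6659210)]) (PF.cons (PF.leaf (nat_lit 6083619) (nat_lit 519365) (nat_lit 47894646) (nat_lit 3295432) [(nat_lit 519365), (nat_lit 0), (nat_lit 6660954)]) (PF.cons (PF.leaf (nat_lit 6426540) (nat_lit 528888) (nat_lit 47306129)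 (nat_lit 3309297) [(nat_lit 528888), (nat_lit 0), (nat_lit 6660028)]) (PF.cons (PF.leaf (nat_lit 6775839) (nat_lit 537509) (nat_lit 46712143) (nat_lit 3321250) [(nat_lit 537509), (nat_lit 0), (nat_lit 6656427)]) (PF.cons
 (PF.leaf (nat_lit 7130381) (nat_lit 545308) (nat_lit 46114681) (nat_lit 3331304) [(nat_lit 545308), (nat_lit 0), (nat_lit 6650180)]) (PF.cons (PF.leaf (nat_lit 7489161) (nat_lit 552352) (nat_lit 45515457) (nat_lit 3339493) [(nat_lit 552352), (nat_lit 0), (nat_lit 6641343)]) (PF.cons (PF.leaf (nat_lit 7851279) (nat_lit 558700) (nat_lit 44915962) (nat_lit 3345865) [(nat_lit 558700), (nat_lit 0), (nat_lit 6629989)]) (PF.cons (PF.leaf (nat_lit 8215926) (nat_lit 564401) (nat_lit 44317493) (nat_lit 3350477) [(nat_lit 564401), (nat_lit 0), (nat_lit 6616211)]) (PF.cons PF.nil (PF.cons PF.nil PF.nil)))))))))))))) (PF.cons (PF.cons (PF.leaf (nat_lit 5400962) (nat_lit 2066041) (nat_lit 48482697) (nat_lit 3264931) [(nat_lit 0), (nat_lit 2066041), (nat_lit 6647571)])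 (PF.cons (PF.leaf (nat_lit 5708749) (nat_lit 503059) (nat_lit 47942967) (nat_lit 3280467) [(nat_lit 503059), (nat_lit 2083012), (nat_lit 6649653)]) (PF.cons (PF.leaf (nat_lit 6028403) (nat_lit 514166) (nat_lit 47388566) (nat_lit 3294475) [(nat_lit 514166), (nat_lit 2098637), (nat_lit 6649399)]) (PF.cons (PF.leaf (nat_lit 6357495) (nat_lit 524117) (nat_lit 46823337) (nat_lit 3306837) [(nat_lit 524117), (nat_lit 2112848), (nat_lit
 6646718)]) (PF.cons (PF.leaf (nat_lit 6694371) (nat_lit 533058) (nat_lit 46250318) (nat_lit 3317491) [(nat_lit 533058), (nat_lit 2125619), (nat_lit 6641574)]) (PF.cons (PF.leaf (nat_lit 7037613) (nat_lit 541103) (nat_lit 45671981) (nat_lit 3326416) [(nat_lit 541103), (nat_lit 2136953), (nat_lit 6633970)]) (PF.cons (PF.leaf (nat_lit 7386040) (nat_lit 548340) (nat_lit 45090387) (nat_lit 3333622) [(nat_lit 548340), (nat_lit 2146875), (nat_lit 6623942)]) (PF.cons (PF.leaf (nat_lit 7738641) (nat_lit 554841) (nat_lit 44507275) (nat_lit 3339134)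 [(nat_lit 554841), (nat_lit 2155419), (nat_lit 6611547)]) (PF.cons (PF.leaf (nat_lit 8094485) (nat_lit 560665) (nat_lit 43924132) (nat_lit 3342996) [(nat_lit 560665), (nat_lit 2162630), (nat_lit 6596863)]) (PF.cons (PF.leaf (nat_lit 8452763) (nat_lit 565867) (nat_lit 43342233) (nat_lit 3345261) [(nat_lit 565867), (nat_lit 2168557), (nat_lit 6579977)]) (PF.cons PF.nil (PF.cons PF.nil PF.nil)))))))))))) (PF.cons (PF.cons (PF.leaf (nat_lit 6303831) (nat_lit 2110827) (nat_lit 46319130) (nat_lit 3304054) [(nat_lit 0), (nat_lit 2110827), (nat_lit 6631986)]) (PF.cons (PF.leaf (nat_lit 6625500) (nat_lit 527640) (nat_lit 45771592) (nat_lit 3313373)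
 [(nat_lit 527640), (nat_lit 2122673), (nat_lit 6625430)]) (PF.cons (PF.leaf (nat_lit 6955617) (nat_lit 536113) (nat_lit 45215780) (nat_lit 3321158) [(nat_lit 536113), (nat_lit 2133231), (nat_lit 6616592)]) (PF.cons (PF.leaf (nat_lit 7292295) (nat_lit 543678) (nat_lit 44654433) (nat_lit 3327383) [(nat_lit 543678), (nat_lit 2142493), (nat_lit 6605487)]) (PF.cons (PF.leaf (nat_lit 7634244) (nat_lit 550436) (nat_lit 44089759) (nat_lit 3332048) [(nat_lit 550436), (nat_lit 2150473), (nat_lit 6592155)]) (PF.cons (PF.leaf (nat_lit 7980367) (nat_lit 556467) (nat_lit 43523577) (nat_lit 3335177) [(nat_lit 556467), (nat_lit 2157199), (nat_lit 6576660)]) (PF.cons (PF.leaf (nat_lit 8329755) (nat_lit 561837) (nat_lit 42957409) (nat_lit 3336807) [(nat_lit 561837), (nat_lit 2162709), (nat_lit 6559077)]) (PF.cons (PF.leaf (nat_lit 8681550) (nat_lit 566600) (nat_lit 42392542) (nat_lit 3336985) [(nat_lit 566600), (nat_lit 2167046), (nat_lit 6539494)]) (PF.cons PF.nil (PF.cons PF.nil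 PF.nil)))))))))) (PF.cons (PF.cons (PF.leaf (nat_lit 7211344) (nat_lit 2137883) (nat_lit 44202814) (nat_lit 3320770) [(nat_lit 0), (nat_lit 2137883), (nat_lit 6585788)]) (PF.cons (PF.leaf (nat_lit 7540559) (nat_lit
 545301) (nat_lit 43659744) (nat_lit 3324593) [(nat_lit 545301), (nat_lit 2145287), (nat_lit 6571656)]) (PF.cons (PF.leaf (nat_lit 7875606) (nat_lit 551665) (nat_lit 43112957) (nat_lit 3327002) [(nat_lit 551665), (nat_lit 2151527), (nat_lit 6555469)]) (PF.cons (PF.leaf (nat_lit 8214983) (nat_lit 557300) (nat_lit 42564424) (nat_lit 3328016) [(nat_lit 557300), (nat_lit 2156625), (nat_lit 6537295)]) (PF.cons (PF.leaf (nat_lit 8557696) (nat_lit 562280) (nat_lit 42015754) (nat_lit 3327667) [(nat_lit 562280), (nat_lit 2160614), (nat_lit 6517213)]) (PF.cons (PF.leaf (nat_lit 8902885) (nat_lit 566665) (nat_lit 41468277) (nat_lit 3325998) [(nat_lit 566665), (nat_lit 2163531), (nat_lit 6495308)]) (PF.cons (PF.leaf (nat_lit 9249808) (nat_lit 570505) (nat_lit 40923110)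 (nat_lit 3323060) [(nat_lit 570505), (nat_lit 2165420), (nat_lit 6471675)]) (PF.cons PF.nil PF.nil)))))))) (PF.cons (PF.cons (PF.leaf (nat_lit 8111128) (nat_lit 2150301) (nat_lit 42159831) (nat_lit 3318858) [(nat_lit 0), (nat_lit 2150301), (nat_lit 6514458)]) (PF.cons (PF.leaf (nat_lit 8443118) (nat_lit 557397) (nat_lit 41629620) (nat_lit 3318003) [(nat_lit 557397), (nat_lit 2153947), (nat_lit 6494000)]) (PF.cons (PF.leaf
 (nat_lit 8778931) (nat_lit 562052) (nat_lit 41098908) (nat_lit 3315907) [(nat_lit 562052), (nat_lit 2156578), (nat_lit 6471788)]) (PF.cons (PF.leaf (nat_lit 9117367) (nat_lit 566115) (nat_lit 40569117) (nat_lit 3312610) [(nat_lit 566115), (nat_lit 2158229), (nat_lit 6447908)]) (PF.cons (PF.leaf (nat_lit 9457638) (nat_lit 569643) (nat_lit 40041416) (nat_lit 3308156) [(nat_lit 569643), (nat_lit 2158940), (nat_lit 6422453)]) (PF.cons PF.nil PF.nil)))))) (PF.cons (PF.cons (PF.leaf (nat_lit 8994383) (nat_lit 2150810) (nat_lit 40206418) (nat_lit 3301823)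 [(nat_lit 0), (nat_lit 2150810), (nat_lit 6423259)]) (PF.cons (PF.leaf (nat_lit 9325594) (nat_lit 565000) (nat_lit 39694578) (nat_lit 3297097) [(nat_lit 565000), (nat_lit 2151337), (nat_lit 6397725)]) (PF.cons (PF.leaf (nat_lit 9659115) (nat_lit 568265) (nat_lit 39184464) (nat_lit 3291316) [(nat_lit 568265), (nat_lit 2151001), (nat_lit 6370747)]) (PF.cons PF.nil PF.nil)))) (PF.cons (PF.cons (PF.leaf (nat_lit 9855092) (nat_lit 2141767) (nat_lit 38351614) (nat_lit 3272769) [(nat_lit 0), (nat_lit 2141767), (nat_lit 6316911)]) (PF.cons (PF.leaf (nat_lit 10182946) (nat_lit 568980) (nat_lit 37861533) (nat_lit 3264911) [(nat_lit 568980),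
 (nat_lit 2139749), (nat_lit 6287445)]) PF.nil)) (PF.cons PF.nil (PF.cons PF.nil (PF.cons PF.nil PF.nil)))))))))) (PF.cons (PF.cons (PF.cons (PF.leaf (nat_lit 6349344) (nat_lit 3252480) (nat_lit 44298757) (nat_lit 3252480) [(nat_lit 0), (nat_lit 0), (nat_lit 6519191)]) (PF.cons (PF.leaf (nat_lit 6648514) (nat_lit 509570) (nat_lit 43810417) (nat_lit 3259854) [(nat_lit 509570), (nat_lit 0), (nat_lit 6509656)]) (PF.cons (PF.leaf (nat_lit 6957988) (nat_lit 518984) (nat_lit 43310558) (nat_lit 3265895) [(nat_lit 518984), (nat_lit 0), (nat_lit 6498130)]) (PF.cons (PF.leaf (nat_lit 7275433) (nat_lit 527262) (nat_lit 42802584) (nat_lit 3270556) [(nat_lit 527262), (nat_lit 0), (nat_lit 6484628)]) (PF.cons (PF.leaf (nat_lit 7599291) (nat_lit 534570) (nat_lit 42289136) (nat_lit 3273824) [(nat_lit 534570), (nat_lit 0), (nat_lit 6469189)]) (PF.cons (PF.leaf (nat_lit 7928286) (nat_lit 541033) (nat_lit 41772330) (nat_lit 3275713) [(nat_lit 541033), (nat_lit 0), (nat_lit 6451867)])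 (PF.cons (PF.leaf (nat_lit 8261354) (nat_lit 546746) (nat_lit 41253893) (nat_lit 3276251) [(nat_lit 546746), (nat_lit 0), (nat_lit 6432728)]) (PF.cons (PF.leaf (nat_lit 8597590) (nat_lit 551789) (nat_lit 40735261)
 (nat_lit 3275478) [(nat_lit 551789), (nat_lit 0), (nat_lit 6411849)]) (PF.cons (PF.leaf (nat_lit 8936170) (nat_lit 556224) (nat_lit 40217638) (nat_lit 3273443) [(nat_lit 556224), (nat_lit 0), (nat_lit 6389311)]) (PF.cons PF.nil (PF.cons PF.nil (PF.cons PF.nil PF.nil)))))))))))) (PF.cons (PF.cons (PF.leaf (nat_lit 7205327) (nat_lit 2097483) (nat_lit 42360862) (nat_lit 3262701) [(nat_lit 0), (nat_lit 2097483), (nat_lit 6462588)]) (PF.cons (PF.leaf (nat_lit 7514984) (nat_lit 528323) (nat_lit 41870739) (nat_lit 3265268) [(nat_lit 528323), (nat_lit 2104333), (nat_lit 6446715)]) (PF.cons (PF.leaf (nat_lit 7831856) (nat_lit 535319) (nat_lit 41374457) (nat_lit 3266571) [(nat_lit 535319), (nat_lit 2110081), (nat_lit 6429021)]) (PF.cons (PF.leaf (nat_lit 8154168)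 (nat_lit 541453) (nat_lit 40874378) (nat_lit 3266618) [(nat_lit 541453), (nat_lit 2114744), (nat_lit 6409570)]) (PF.cons (PF.leaf (nat_lit 8480746) (nat_lit 546834) (nat_lit 40372380) (nat_lit 3265434) [(nat_lit 546834), (nat_lit 2118352), (nat_lit 6388435)]) (PF.cons (PF.leaf (nat_lit 8810623) (nat_lit 551547) (nat_lit 39869982) (nat_lit 3263055) [(nat_lit 551547), (nat_lit 2120943), (nat_lit 6365697)]) (PF.cons (PF.leaf (nat_lit
 9142945) (nat_lit 555662) (nat_lit 39368437) (nat_lit 3259523) [(nat_lit 555662), (nat_lit 2122561), (nat_lit 6341438)]) (PF.cons (PF.leaf (nat_lit 9477026) (nat_lit 559236) (nat_lit 38868786) (nat_lit 3254888) [(nat_lit 559236), (nat_lit 2123249), (nat_lit 6315744)]) (PF.cons PF.nil (PF.cons PF.nil PF.nil)))))))))) (PF.cons (PF.cons (PF.leaf (nat_lit 8059955) (nat_lit 2107725) (nat_lit 40481012) (nat_lit 3256612) [(nat_lit 0), (nat_lit 2107725), (nat_lit 6385245)]) (PF.cons (PF.leaf (nat_lit 8374809) (nat_lit 541162) (nat_lit 39998432)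 (nat_lit 3255040) [(nat_lit 541162), (nat_lit 2111073), (nat_lit 6364010)]) (PF.cons (PF.leaf (nat_lit 8694576) (nat_lit 546281) (nat_lit 39513392) (nat_lit 3252341) [(nat_lit 546281), (nat_lit 2113457), (nat_lit 6341200)]) (PF.cons (PF.leaf (nat_lit 9017883) (nat_lit 550727) (nat_lit 39027562) (nat_lit 3248549) [(nat_lit 550727), (nat_lit 2114909), (nat_lit 6316900)]) (PF.cons (PF.leaf (nat_lit 9343812) (nat_lit 554575) (nat_lit 38542283) (nat_lit 3243702) [(nat_lit 554575), (nat_lit 2115467), (nat_lit 6291196)]) (PF.cons (PF.leaf (nat_lit 9671616) (nat_lit 557887) (nat_lit 38058653) (nat_lit 3237846) [(nat_lit 557887), (nat_lit 2115173), (nat_lit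
 6264176)]) (PF.cons PF.nil (PF.cons PF.nil PF.nil)))))))) (PF.cons (PF.cons (PF.leaf (nat_lit 8903794) (nat_lit 2107019) (nat_lit 38676366) (nat_lit 3237221) [(nat_lit 0), (nat_lit 2107019), (nat_lit 6291388)]) (PF.cons (PF.leaf (nat_lit 9219958) (nat_lit 549365) (nat_lit 38207445) (nat_lit 3232195) [(nat_lit 549365), (nat_lit 2107462), (nat_lit 6265806)]) (PF.cons (PF.leaf (nat_lit 9539314) (nat_lit 552999) (nat_lit 37738614) (nat_lit 3226201) [(nat_lit 552999), (nat_lit 2107082), (nat_lit 6238917)]) (PF.cons (PF.leaf (nat_lit 9860737) (nat_lit 556097) (nat_lit 37271062) (nat_lit 3219280) [(nat_lit 556097), (nat_lit 2105916), (nat_lit 6210808)]) (PF.cons PF.nil (PF.cons PF.nil PF.nil)))))) (PF.cons (PF.cons (PF.leaf (nat_lit 9730304) (nat_lit 2097545) (nat_lit 36956753) (nat_lit 3207215) [(nat_lit 0), (nat_lit 2097545), (nat_lit 6184887)]) (PF.cons (PF.leaf (nat_lit 10044927) (nat_lit 553896) (nat_lit 36505345) (nat_lit 3199374) [(nat_lit 553896), (nat_lit 2095613),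 (nat_lit 6155914)]) (PF.cons (PF.leaf (nat_lit 10361439) (nat_lit 556343) (nat_lit 36055763) (nat_lit 3190723) [(nat_lit 556343), (nat_lit 2092990), (nat_lit 6125892)]) (PF.cons PF.nil PF.nil)))) (PF.cons (PF.cons
 (PF.leaf (nat_lit 10535091) (nat_lit 2081135) (nat_lit 35326878) (nat_lit 3168910) [(nat_lit 0), (nat_lit 2081135), (nat_lit 6069115)]) (PF.cons PF.nil PF.nil)) (PF.cons PF.nil (PF.cons PF.nil PF.nil)))))))) (PF.cons (PF.cons (PF.cons (PF.leaf (nat_lit 8012543) (nat_lit 3192596) (nat_lit 38897605) (nat_lit 3192596) [(nat_lit 0), (nat_lit 0), (nat_lit 6254652)]) (PF.cons (PF.leaf (nat_lit 8309832) (nat_lit 523442) (nat_lit 38461285) (nat_lit 3190724) [(nat_lit 523442), (nat_lit 0), (nat_lit 6233340)]) (PF.cons (PF.leaf (nat_lit 8613450) (nat_lit 529312) (nat_lit 38020177) (nat_lit 3187801) [(nat_lit 529312), (nat_lit 0), (nat_lit 6210552)]) (PF.cons (PF.leaf (nat_lit 8921701) (nat_lit 534368) (nat_lit 37576322) (nat_lit 3183856) [(nat_lit 534368), (nat_lit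 0), (nat_lit 6186381)]) (PF.cons (PF.leaf (nat_lit 9233504) (nat_lit 538724) (nat_lit 37131319) (nat_lit 3178925) [(nat_lit 538724), (nat_lit 0), (nat_lit 6160917)]) (PF.cons (PF.leaf (nat_lit 9547991) (nat_lit 542467) (nat_lit 36686448) (nat_lit 3173050) [(nat_lit 542467), (nat_lit 0), (nat_lit 6134244)]) (PF.cons (PF.leaf (nat_lit 9864399) (nat_lit 545666) (nat_lit 36242754) (nat_lit 3166277) [(nat_lit 545666), (nat_lit 0),
 (nat_lit 6106445)]) (PF.cons PF.nil PF.nil)))))))) (PF.cons (PF.cons (PF.leaf (nat_lit 8818268) (nat_lit 2062363) (nat_lit 37234058) (nat_lit 3172061) [(nat_lit 0), (nat_lit 2062363), (nat_lit 6160082)]) (PF.cons (PF.leaf (nat_lit 9119257) (nat_lit 532811) (nat_lit 36806238) (nat_lit 3167034) [(nat_lit 532811), (nat_lit 2062970), (nat_lit 6134939)]) (PF.cons (PF.leaf (nat_lit 9424512) (nat_lit 537003) (nat_lit 36376678) (nat_lit 3161096) [(nat_lit 537003), (nat_lit 2062770), (nat_lit 6108565)]) (PF.cons (PF.leaf (nat_lit 9732722) (nat_lit 540571)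 (nat_lit 35946800) (nat_lit 3154286) [(nat_lit 540571), (nat_lit 2061798), (nat_lit 6081052)]) (PF.cons (PF.leaf (nat_lit 10043102) (nat_lit 543592) (nat_lit 35517738) (nat_lit 3146648) [(nat_lit 543592), (nat_lit 2060097), (nat_lit 6052489)]) (PF.cons PF.nil PF.nil)))))) (PF.cons (PF.cons (PF.leaf (nat_lit 9611940) (nat_lit 2053142) (nat_lit 35641592) (nat_lit 3141950) [(nat_lit 0), (nat_lit 2053142), (nat_lit 6054746)]) (PF.cons (PF.leaf (nat_lit 9913355) (nat_lit 538270) (nat_lit 35226880) (nat_lit 3134337) [(nat_lit 538270), (nat_lit 2051470), (nat_lit 6026595)]) (PF.cons (PF.leaf (nat_lit 10217537) (nat_lit 541158) (nat_lit 34812495)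
 (nat_lit 3125955) [(nat_lit 541158), (nat_lit 2049121), (nat_lit 5997450)]) (PF.cons PF.nil PF.nil)))) (PF.cons (PF.cons (PF.leaf (nat_lit 10388499) (nat_lit 2037383) (nat_lit 34126297) (nat_lit 3104329) [(nat_lit 0), (nat_lit 2037383), (nat_lit 5941508)]) (PF.cons (PF.leaf (nat_lit 10687997) (nat_lit 540680) (nat_lit 33727503) (nat_lit 3094641) [(nat_lit 540680), (nat_lit 2033872), (nat_lit 5911092)]) PF.nil)) (PF.cons PF.nil (PF.cons PF.nil PF.nil)))))) (PF.cons (PF.cons (PF.cons (PF.leaf (nat_lit 9501931) (nat_lit 3077108) (nat_lit 34398161) (nat_lit 3077108) [(nat_lit 0), (nat_lit 0), (nat_lit 5926708)]) (PF.cons (PF.leaf (nat_lit 9789838) (nat_lit 521944) (nat_lit 34018618) (nat_lit 3069911) [(nat_lit 521944), (nat_lit 0), (nat_lit 5899667)]) (PF.cons (PF.leaf (nat_lit 10081564) (nat_lit 525435) (nat_lit 33637752) (nat_lit 3061965) [(nat_lit 525435), (nat_lit 0), (nat_lit 5871644)]) (PF.cons (PF.leaf (nat_lit 10375836) (nat_lit 528347) (nat_lit 33256784) (nat_lit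 3053313) [(nat_lit 528347), (nat_lit 0), (nat_lit 5842734)]) (PF.cons PF.nil (PF.cons PF.nil PF.nil)))))) (PF.cons (PF.cons (PF.leaf (nat_lit 10250872) (nat_lit 1993915) (nat_lit 32990681) (nat_lit 3040669) [(nat_lit
 0), (nat_lit 1993915), (nat_lit 5816709)]) (PF.cons (PF.leaf (nat_lit 10538706) (nat_lit 525454) (nat_lit 32623121) (nat_lit 3031507) [(nat_lit 525454), (nat_lit 1990861), (nat_lit 5787573)]) (PF.cons (PF.leaf (nat_lit 10828989) (nat_lit 527788) (nat_lit 32255949) (nat_lit 3021724) [(nat_lit 527788), (nat_lit 1987239), (nat_lit 5757664)]) (PF.cons PF.nil PF.nil)))) (PF.cons (PF.cons (PF.leaf (nat_lit 10983420) (nat_lit 1974309) (nat_lit 31651650) (nat_lit 2998879) [(nat_lit 0), (nat_lit 1974309), (nat_lit 5701932)]) (PF.cons PF.nil PF.nil)) (PF.cons PF.nil PF.nil)))) (PF.cons (PF.cons (PF.cons (PF.leaf (nat_lit 10832656) (nat_lit 2938011) (nat_lit 30665733) (nat_lit 2938011) [(nat_lit 0), (nat_lit 0), (nat_lit 5584178)]) (PF.cons (PF.leaf (nat_lit 11108006)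 (nat_lit 511775) (nat_lit 30338883) (nat_lit 2927983) [(nat_lit 511775), (nat_lit 0), (nat_lit 5555028)]) PF.nil)) (PF.cons PF.nil PF.nil)) (PF.cons PF.nil (PF.cons PF.nil (PF.cons PF.nil (PF.cons PF.nil (PF.cons PF.nil PF.nil))))))))))))

def p12_18_0_0 : pfC (piC [(nat_lit 38632330), (nat_lit 24534081), (nat_lit 15702173)] (nat_lit 21803676)) p12_18_0 (nat_lit 3) (nat_lit 0) (nat_lit 1) = true := by decide +kernel
def p12_18_0_1 : pfC (piC [(nat_lit 38632330), (nat_lit 24534081), (nat_lit 15702173)] (nat_lit 21803676)) p12_18_0 (nat_lit 3) (nat_lit 1) (nat_lit 2) = true := by decide +kernel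
def p12_18_0_2 : pfC (piC [(nat_lit 38632330), (nat_lit 24534081), (nat_lit 15702173)] (nat_lit 21803676)) p12_18_0 (nat_lit 3) (nat_lit 2) (nat_lit 3) = true := by decide +kernel
def p12_18_0_3 : pfC (piC [(nat_lit 38632330), (nat_lit 24534081), (nat_lit 15702173)] (nat_lit 21803676)) p12_18_0 (nat_lit 3) (nat_lit 3) (nat_lit 4) = true := by decide +kernel
def p12_18_0_4 : pfC (piC [(nat_lit 38632330), (nat_lit 24534081), (nat_lit 15702173)] (nat_lit 21803676)) p12_18_0 (nat_lit 3) (nat_lit 4) (nat_lit 5) = true := by decide +kernel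
def p12_18_0_5 : pfC (piC [(nat_lit 38632330), (nat_lit 24534081), (nat_lit 15702173)] (nat_lit 21803676)) p12_18_0 (nat_lit 3) (nat_lit 5) (nat_lit 6) = true := by decide +kernel
def p12_18_0_6 : pfC (piC [(nat_lit 38632330), (nat_lit 24534081), (nat_lit 15702173)] (nat_lit 21803676)) p12_18_0 (nat_lit 3) (nat_lit 6) (nat_lit 7) = true := by decide +kernel
def p12_18_0_7 : pfC (piC [(nat_lit 38632330), (nat_lit 24534081), (nat_lit 15702173)] (nat_lit 21803676)) p12_18_0 (nat_lit 3) (nat_lit 7) (nat_lit 8) = true := by decide +kernel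
def p12_18_0_8 : pfC (piC [(nat_lit 38632330), (nat_lit 24534081), (nat_lit 15702173)] (nat_lit 21803676)) p12_18_0 (nat_lit 3) (nat_lit 8) (nat_lit 9) = true := by decide +kernel
def p12_18_0_9 : pfC (piC [(nat_lit 38632330), (nat_lit 24534081), (nat_lit 15702173)] (nat_lit 21803676)) p12_18_0 (nat_lit 3) (nat_lit 9) (nat_lit 10) = true := by decide +kernel
def p12_18_0_10 : pfC (piC [(nat_lit 38632330), (nat_lit 24534081), (nat_lit 15702173)] (nat_lit 21803676)) p12_18_0 (nat_lit 3) (nat_lit 10) (nat_lit 11) = true := by decide +kernel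
def p12_18_0_11 : pfC (piC [(nat_lit 38632330), (nat_lit 24534081), (nat_lit 15702173)] (nat_lit 21803676)) p12_18_0 (nat_lit 3) (nat_lit 11) (nat_lit 12) = true := by decide +kernel
def p12_18_0_12 : pfC (piC [(nat_lit 38632330), (nat_lit 24534081), (nat_lit 15702173)] (nat_lit 21803676)) p12_18_0 (nat_lit 3) (nat_lit 12) (nat_lit 13) = true := by decide +kernel
def p12_18_0_13 : pfC (piC [(nat_lit 38632330), (nat_lit 24534081), (nat_lit 15702173)] (nat_lit 21803676)) p12_18_0 (nat_lit 3) (nat_lit 13) (nat_lit 14) = true := by decide +kernel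
def p12_18_0_14 : pfC (piC [(nat_lit 38632330), (nat_lit 24534081), (nat_lit 15702173)] (nat_lit 21803676)) p12_18_0 (nat_lit 3) (nat_lit 14) (nat_lit 15) = true := by decide +kernel
def p12_18_0_15 : pfC (piC [(nat_lit 38632330), (nat_lit 24534081), (nat_lit 15702173)] (nat_lit 21803676)) p12_18_0 (nat_lit 3) (nat_lit 15) (nat_lit 16) = true := by decide +kernel
def p12_18_0_16 : pfC (piC [(nat_lit 38632330), (nat_lit 24534081), (nat_lit 15702173)] (nat_lit 21803676)) p12_18_0 (nat_lit 3) (nat_lit 16) (nat_lit 17) = true := by decide +kernel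
def p12_18_0_17 : pfC (piC [(nat_lit 38632330), (nat_lit 24534081), (nat_lit 15702173)] (nat_lit 21803676)) p12_18_0 (nat_lit 3) (nat_lit 17) (nat_lit 18) = true := by decide +kernel
def p12_18_0_18 : pfC (piC [(nat_lit 38632330), (nat_lit 24534081), (nat_lit 15702173)] (nat_lit 21803676)) p12_18_0 (nat_lit 3) (nat_lit 18) (nat_lit 19) = true := by decide +kernel
def p12_18_0_19 : pfC (piC [(nat_lit 38632330), (nat_lit 24534081), (nat_lit 15702173)] (nat_lit 21803676)) p12_18_0 (nat_lit 3) (nat_lit 19) (nat_lit 20) = true := by decide +kernel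
def p12_18_0_20 : pfC (piC [(nat_lit 38632330), (nat_lit 24534081), (nat_lit 15702173)] (nat_lit 21803676)) p12_18_0 (nat_lit 3) (nat_lit 20) (nat_lit 21) = true := by decide +kernel
def p12_18_0_21 : pfC (piC [(nat_lit 38632330), (nat_lit 24534081), (nat_lit 15702173)] (nat_lit 21803676)) p12_18_0 (nat_lit 3) (nat_lit 21) (nat_lit 22) = true := by decide +kernel
def p12_18_0_22 : pfC (piC [(nat_lit 38632330), (nat_lit 24534081), (nat_lit 15702173)] (nat_lit 21803676)) p12_18_0 (nat_lit 3) (nat_lit 22) (nat_lit 23) = true := by decide +kernel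
def p12_18_0_23 : pfC (piC [(nat_lit 38632330), (nat_lit 24534081), (nat_lit 15702173)] (nat_lit 21803676)) p12_18_0 (nat_lit 3) (nat_lit 23) (nat_lit 24) = true := by decide +kernel
def p12_18_0_24 : pfC (piC [(nat_lit 38632330), (nat_lit 24534081), (nat_lit 15702173)] (nat_lit 21803676)) p12_18_0 (nat_lit 3) (nat_lit 24) (nat_lit 25) = true := by decide +kernel
def p12_18_0_25 : pfC (piC [(nat_lit 38632330), (nat_lit 24534081), (nat_lit 15702173)] (nat_lit 21803676)) p12_18_0 (nat_lit 3) (nat_lit 25) (nat_lit 26) = true := by decide +kernel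
def p12_18_0_26 : pfC (piC [(nat_lit 38632330), (nat_lit 24534081), (nat_lit 15702173)] (nat_lit 21803676)) p12_18_0 (nat_lit 3) (nat_lit 26) (nat_lit 27) = true := by decide +kernel
def p12_18_0_27 : pfC (piC [(nat_lit 38632330), (nat_lit 24534081), (nat_lit 15702173)] (nat_lit 21803676)) p12_18_0 (nat_lit 3) (nat_lit 27) (nat_lit 28) = true := by decide +kernel
def p12_18_0_28 : pfC (piC [(nat_lit 38632330), (nat_lit 24534081), (nat_lit 15702173)] (nat_lit 21803676)) p12_18_0 (nat_lit 3) (nat_lit 28) (nat_lit 29) = true := by decide +kernel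
def p12_18_0_29 : pfC (piC [(nat_lit 38632330), (nat_lit 24534081), (nat_lit 15702173)] (nat_lit 21803676)) p12_18_0 (nat_lit 3) (nat_lit 29) (nat_lit 30) = true := by decide +kernel
def p12_18_0_30 : pfC (piC [(nat_lit 38632330), (nat_lit 24534081), (nat_lit 15702173)] (nat_lit 21803676)) p12_18_0 (nat_lit 3) (nat_lit 30) (nat_lit 31) = true := by decide +kernel
def p12_18_0_31 : pfC (piC [(nat_lit 38632330), (nat_lit 24534081), (nat_lit 15702173)] (nat_lit 21803676)) p12_18_0 (nat_lit 3) (nat_lit 31) (nat_lit 32) = true := by decide +kernel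
def p12_18_0_32 : pfC (piC [(nat_lit 38632330), (nat_lit 24534081), (nat_lit 15702173)] (nat_lit 21803676)) p12_18_0 (nat_lit 3) (nat_lit 32) (nat_lit 33) = true := by decide +kernel
def p12_18_0_33 : pfC (piC [(nat_lit 38632330), (nat_lit 24534081), (nat_lit 15702173)] (nat_lit 21803676)) p12_18_0 (nat_lit 3) (nat_lit 33) (nat_lit 34) = true := by decide +kernel
def p12_18_0_34 : pfC (piC [(nat_lit 38632330), (nat_lit 24534081), (nat_lit 15702173)] (nat_lit 21803676)) p12_18_0 (nat_lit 3) (nat_lit 34) (nat_lit 35) = true := by decide +kernel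
def p12_18_0_35 : pfC (piC [(nat_lit 38632330), (nat_lit 24534081), (nat_lit 15702173)] (nat_lit 21803676)) p12_18_0 (nat_lit 3) (nat_lit 35) (nat_lit 36) = true := by decide +kernel
def p12_18_0_36 : pfC (piC [(nat_lit 38632330), (nat_lit 24534081), (nat_lit 15702173)] (nat_lit 21803676)) p12_18_0 (nat_lit 3) (nat_lit 36) (nat_lit 37) = true := by decide +kernel
def p12_18_0_37 : pfC (piC [(nat_lit 38632330), (nat_lit 24534081), (nat_lit 15702173)] (nat_lit 21803676)) p12_18_0 (nat_lit 3) (nat_lit 37) (nat_lit 38) = true := by decide +kernel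
def p12_18_0_38 : pfC (piC [(nat_lit 38632330), (nat_lit 24534081), (nat_lit 15702173)] (nat_lit 21803676)) p12_18_0 (nat_lit 3) (nat_lit 38) (nat_lit 39) = true := by decide +kernel
def p12_18_0_39 : pfC (piC [(nat_lit 38632330), (nat_lit 24534081), (nat_lit 15702173)] (nat_lit 21803676)) p12_18_0 (nat_lit 3) (nat_lit 39) (nat_lit 40) = true := by decide +kernel
def p12_18_0_40 : pfC (piC [(nat_lit 38632330), (nat_lit 24534081), (nat_lit 15702173)] (nat_lit 21803676)) p12_18_0 (nat_lit 3) (nat_lit 40) (nat_lit 41) = true := by decide +kernel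
def p12_18_0_41 : pfC (piC [(nat_lit 38632330), (nat_lit 24534081), (nat_lit 15702173)] (nat_lit 21803676)) p12_18_0 (nat_lit 3) (nat_lit 41) (nat_lit 42) = true := by decide +kernel
def p12_18_0_42 : pfC (piC [(nat_lit 38632330), (nat_lit 24534081), (nat_lit 15702173)] (nat_lit 21803676)) p12_18_0 (nat_lit 3) (nat_lit 42) (nat_lit 43) = true := by decide +kernel
def p12_18_0_43 : pfC (piC [(nat_lit 38632330), (nat_lit 24534081), (nat_lit 15702173)] (nat_lit 21803676)) p12_18_0 (nat_lit 3) (nat_lit 43) (nat_lit 44) = true := by decide +kernel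
def p12_18_0_44 : pfC (piC [(nat_lit 38632330), (nat_lit 24534081), (nat_lit 15702173)] (nat_lit 21803676)) p12_18_0 (nat_lit 3) (nat_lit 44) (nat_lit 45) = true := by decide +kernel
def p12_18_0_45 : pfC (piC [(nat_lit 38632330), (nat_lit 24534081), (nat_lit 15702173)] (nat_lit 21803676)) p12_18_0 (nat_lit 3) (nat_lit 45) (nat_lit 46) = true := by decide +kernel
def p12_18_0_46 : pfC (piC [(nat_lit 38632330), (nat_lit 24534081), (nat_lit 15702173)] (nat_lit 21803676)) p12_18_0 (nat_lit 3) (nat_lit 46) (nat_lit 47) = true := by decide +kernel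
def p12_18_0_47 : pfC (piC [(nat_lit 38632330), (nat_lit 24534081), (nat_lit 15702173)] (nat_lit 21803676)) p12_18_0 (nat_lit 3) (nat_lit 47) (nat_lit 48) = true := by decide +kernel
def p12_18_0_48 : pfC (piC [(nat_lit 38632330), (nat_lit 24534081), (nat_lit 15702173)] (nat_lit 21803676)) p12_18_0 (nat_lit 3) (nat_lit 48) (nat_lit 49) = true := by decide +kernel
def p12_18_0_49 : pfC (piC [(nat_lit 38632330), (nat_lit 24534081), (nat_lit 15702173)] (nat_lit 21803676)) p12_18_0 (nat_lit 3) (nat_lit 49) (nat_lit 50) = true := by decide +kernel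
def p12_18_0_50 : pfC (piC [(nat_lit 38632330), (nat_lit 24534081), (nat_lit 15702173)] (nat_lit 21803676)) p12_18_0 (nat_lit 3) (nat_lit 50) (nat_lit 51) = true := by decide +kernel
def p12_18_0_51 : pfC (piC [(nat_lit 38632330), (nat_lit 24534081), (nat_lit 15702173)] (nat_lit 21803676)) p12_18_0 (nat_lit 3) (nat_lit 51) (nat_lit 52) = true := by decide +kernel
def p12_18_0_52 : pfC (piC [(nat_lit 38632330), (nat_lit 24534081), (nat_lit 15702173)] (nat_lit 21803676)) p12_18_0 (nat_lit 3) (nat_lit 52) (nat_lit 53) = true := by decide +kernel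
def p12_18_0_53 : pfC (piC [(nat_lit 38632330), (nat_lit 24534081), (nat_lit 15702173)] (nat_lit 21803676)) p12_18_0 (nat_lit 3) (nat_lit 53) (nat_lit 54) = true := by decide +kernel
def p12_18_0_54 : pfC (piC [(nat_lit 38632330), (nat_lit 24534081), (nat_lit 15702173)] (nat_lit 21803676)) p12_18_0 (nat_lit 3) (nat_lit 54) (nat_lit 55) = true := by decide +kernel
def p12_18_0_55 : pfC (piC [(nat_lit 38632330), (nat_lit 24534081), (nat_lit 15702173)] (nat_lit 21803676)) p12_18_0 (nat_lit 3) (nat_lit 55) (nat_lit 56) = true := by decide +kernel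
def p12_18_0_56 : pfC (piC [(nat_lit 38632330), (nat_lit 24534081), (nat_lit 15702173)] (nat_lit 21803676)) p12_18_0 (nat_lit 3) (nat_lit 56) (nat_lit 57) = true := by decide +kernel
def p12_18_0_57 : pfC (piC [(nat_lit 38632330), (nat_lit 24534081), (nat_lit 15702173)] (nat_lit 21803676)) p12_18_0 (nat_lit 3) (nat_lit 57) (nat_lit 58) = true := by decide +kernel
def p12_18_0_58 : pfC (piC [(nat_lit 38632330), (nat_lit 24534081), (nat_lit 15702173)] (nat_lit 21803676)) p12_18_0 (nat_lit 3) (nat_lit 58) (nat_lit 59) = true := by decide +kernel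
def p12_18_0_59 : pfC (piC [(nat_lit 38632330), (nat_lit 24534081), (nat_lit 15702173)] (nat_lit 21803676)) p12_18_0 (nat_lit 3) (nat_lit 59) (nat_lit 60) = true := by decide +kernel
def p12_18_0_60 : pfC (piC [(nat_lit 38632330), (nat_lit 24534081), (nat_lit 15702173)] (nat_lit 21803676)) p12_18_0 (nat_lit 3) (nat_lit 60) (nat_lit 61) = true := by decide +kernel
def p12_18_0_61 : pfC (piC [(nat_lit 38632330), (nat_lit 24534081), (nat_lit 15702173)] (nat_lit 21803676)) p12_18_0 (nat_lit 3) (nat_lit 61) (nat_lit 62) = true := by decide +kernel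
def p12_18_0_62 : pfC (piC [(nat_lit 38632330), (nat_lit 24534081), (nat_lit 15702173)] (nat_lit 21803676)) p12_18_0 (nat_lit 3) (nat_lit 62) (nat_lit 63) = true := by decide +kernel
def p12_18_0_63 : pfC (piC [(nat_lit 38632330), (nat_lit 24534081), (nat_lit 15702173)] (nat_lit 21803676)) p12_18_0 (nat_lit 3) (nat_lit 63) (nat_lit 64) = true := by decide +kernel
def p12_18_0_64 : pfC (piC [(nat_lit 38632330), (nat_lit 24534081), (nat_lit 15702173)] (nat_lit 21803676)) p12_18_0 (nat_lit 3) (nat_lit 64) (nat_lit 65) = true := by decide +kernel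
def p12_18_0_65 : pfC (piC [(nat_lit 38632330), (nat_lit 24534081), (nat_lit 15702173)] (nat_lit 21803676)) p12_18_0 (nat_lit 3) (nat_lit 65) (nat_lit 66) = true := by decide +kernel
def p12_18_0_66 : pfC (piC [(nat_lit 38632330), (nat_lit 24534081), (nat_lit 15702173)] (nat_lit 21803676)) p12_18_0 (nat_lit 3) (nat_lit 66) (nat_lit 67) = true := by decide +kernel
def p12_18_0_67 : pfC (piC [(nat_lit 38632330), (nat_lit 24534081), (nat_lit 15702173)] (nat_lit 21803676)) p12_18_0 (nat_lit 3) (nat_lit 67) (nat_lit 68) = true := by decide +kernel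
def p12_18_0_68 : pfC (piC [(nat_lit 38632330), (nat_lit 24534081), (nat_lit 15702173)] (nat_lit 21803676)) p12_18_0 (nat_lit 3) (nat_lit 68) (nat_lit 69) = true := by decide +kernel
def p12_18_0_69 : pfC (piC [(nat_lit 38632330), (nat_lit 24534081), (nat_lit 15702173)] (nat_lit 21803676)) p12_18_0 (nat_lit 3) (nat_lit 69) (nat_lit 70) = true := by decide +kernel
def p12_18_0_70 : pfC (piC [(nat_lit 38632330), (nat_lit 24534081), (nat_lit 15702173)] (nat_lit 21803676)) p12_18_0 (nat_lit 3) (nat_lit 70) (nat_lit 71) = true := by decide +kernel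
def p12_18_0_71 : pfC (piC [(nat_lit 38632330), (nat_lit 24534081), (nat_lit 15702173)] (nat_lit 21803676)) p12_18_0 (nat_lit 3) (nat_lit 71) (nat_lit 72) = true := by decide +kernel
def p12_18_0_72 : pfC (piC [(nat_lit 38632330), (nat_lit 24534081), (nat_lit 15702173)] (nat_lit 21803676)) p12_18_0 (nat_lit 3) (nat_lit 72) (nat_lit 73) = true := by decide +kernel
def p12_18_0_73 : pfC (piC [(nat_lit 38632330), (nat_lit 24534081), (nat_lit 15702173)] (nat_lit 21803676)) p12_18_0 (nat_lit 3) (nat_lit 73) (nat_lit 74) = true := by decide +kernel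
def p12_18_0_74 : pfC (piC [(nat_lit 38632330), (nat_lit 24534081), (nat_lit 15702173)] (nat_lit 21803676)) p12_18_0 (nat_lit 3) (nat_lit 74) (nat_lit 75) = true := by decide +kernel
def p12_18_0_75 : pfC (piC [(nat_lit 38632330), (nat_lit 24534081), (nat_lit 15702173)] (nat_lit 21803676)) p12_18_0 (nat_lit 3) (nat_lit 75) (nat_lit 76) = true := by decide +kernel
def p12_18_0_76 : pfC (piC [(nat_lit 38632330), (nat_lit 24534081), (nat_lit 15702173)] (nat_lit 21803676)) p12_18_0 (nat_lit 3) (nat_lit 76) (nat_lit 77) = true := by decide +kernel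
def p12_18_0_77 : pfC (piC [(nat_lit 38632330), (nat_lit 24534081), (nat_lit 15702173)] (nat_lit 21803676)) p12_18_0 (nat_lit 3) (nat_lit 77) (nat_lit 78) = true := by decide +kernel
def p12_18_0_78 : pfC (piC [(nat_lit 38632330), (nat_lit 24534081), (nat_lit 15702173)] (nat_lit 21803676)) p12_18_0 (nat_lit 3) (nat_lit 78) (nat_lit 79) = true := by decide +kernel
def p12_18_0_79 : pfC (piC [(nat_lit 38632330), (nat_lit 24534081), (nat_lit 15702173)] (nat_lit 21803676)) p12_18_0 (nat_lit 3) (nat_lit 79) (nat_lit 80) = true := by decide +kernel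
def p12_18_0_80 : pfC (piC [(nat_lit 38632330), (nat_lit 24534081), (nat_lit 15702173)] (nat_lit 21803676)) p12_18_0 (nat_lit 3) (nat_lit 80) (nat_lit 81) = true := by decide +kernel
def p12_18_0_81 : pfC (piC [(nat_lit 38632330), (nat_lit 24534081), (nat_lit 15702173)] (nat_lit 21803676)) p12_18_0 (nat_lit 3) (nat_lit 81) (nat_lit 82) = true := by decide +kernel
def p12_18_0_82 : pfC (piC [(nat_lit 38632330), (nat_lit 24534081), (nat_lit 15702173)] (nat_lit 21803676)) p12_18_0 (nat_lit 3) (nat_lit 82) (nat_lit 83) = true := by decide +kernel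
def p12_18_0_83 : pfC (piC [(nat_lit 38632330), (nat_lit 24534081), (nat_lit 15702173)] (nat_lit 21803676)) p12_18_0 (nat_lit 3) (nat_lit 83) (nat_lit 84) = true := by decide +kernel
def p12_18_0_84 : pfC (piC [(nat_lit 38632330), (nat_lit 24534081), (nat_lit 15702173)] (nat_lit 21803676)) p12_18_0 (nat_lit 3) (nat_lit 84) (nat_lit 85) = true := by decide +kernel
def p12_18_0_85 : pfC (piC [(nat_lit 38632330), (nat_lit 24534081), (nat_lit 15702173)] (nat_lit 21803676)) p12_18_0 (nat_lit 3) (nat_lit 85) (nat_lit 86) = true := by decide +kernel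
def p12_18_0_86 : pfC (piC [(nat_lit 38632330), (nat_lit 24534081), (nat_lit 15702173)] (nat_lit 21803676)) p12_18_0 (nat_lit 3) (nat_lit 86) (nat_lit 87) = true := by decide +kernel
def p12_18_0_87 : pfC (piC [(nat_lit 38632330), (nat_lit 24534081), (nat_lit 15702173)] (nat_lit 21803676)) p12_18_0 (nat_lit 3) (nat_lit 87) (nat_lit 88) = true := by decide +kernel
def p12_18_0_88 : pfC (piC [(nat_lit 38632330), (nat_lit 24534081), (nat_lit 15702173)] (nat_lit 21803676)) p12_18_0 (nat_lit 3) (nat_lit 88) (nat_lit 89) = true := by decide +kernel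
def p12_18_0_89 : pfC (piC [(nat_lit 38632330), (nat_lit 24534081), (nat_lit 15702173)] (nat_lit 21803676)) p12_18_0 (nat_lit 3) (nat_lit 89) (nat_lit 90) = true := by decide +kernel
def p12_18_0_90 : pfC (piC [(nat_lit 38632330), (nat_lit 24534081), (nat_lit 15702173)] (nat_lit 21803676)) p12_18_0 (nat_lit 3) (nat_lit 90) (nat_lit 91) = true := by decide +kernel
def p12_18_0_91 : pfC (piC [(nat_lit 38632330), (nat_lit 24534081), (nat_lit 15702173)] (nat_lit 21803676)) p12_18_0 (nat_lit 3) (nat_lit 91) (nat_lit 92) = true := by decide +kernel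
def p12_18_0_92 : pfC (piC [(nat_lit 38632330), (nat_lit 24534081), (nat_lit 15702173)] (nat_lit 21803676)) p12_18_0 (nat_lit 3) (nat_lit 92) (nat_lit 93) = true := by decide +kernel
def p12_18_0_93 : pfC (piC [(nat_lit 38632330), (nat_lit 24534081), (nat_lit 15702173)] (nat_lit 21803676)) p12_18_0 (nat_lit 3) (nat_lit 93) (nat_lit 94) = true := by decide +kernel
def p12_18_0_94 : pfC (piC [(nat_lit 38632330), (nat_lit 24534081), (nat_lit 15702173)] (nat_lit 21803676)) p12_18_0 (nat_lit 3) (nat_lit 94) (nat_lit 95) = true := by decide +kernel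
def p12_18_0_95 : pfC (piC [(nat_lit 38632330), (nat_lit 24534081), (nat_lit 15702173)] (nat_lit 21803676)) p12_18_0 (nat_lit 3) (nat_lit 95) (nat_lit 96) = true := by decide +kernel
def p12_18_0_96 : pfC (piC [(nat_lit 38632330), (nat_lit 24534081), (nat_lit 15702173)] (nat_lit 21803676)) p12_18_0 (nat_lit 3) (nat_lit 96) (nat_lit 97) = true := by decide +kernel
def p12_18_0_97 : pfC (piC [(nat_lit 38632330), (nat_lit 24534081), (nat_lit 15702173)] (nat_lit 21803676)) p12_18_0 (nat_lit 3) (nat_lit 97) (nat_lit 98) = true := by decide +kernel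
def p12_18_0_98 : pfC (piC [(nat_lit 38632330), (nat_lit 24534081), (nat_lit 15702173)] (nat_lit 21803676)) p12_18_0 (nat_lit 3) (nat_lit 98) (nat_lit 99) = true := by decide +kernel
def p12_18_0_99 : pfC (piC [(nat_lit 38632330), (nat_lit 24534081), (nat_lit 15702173)] (nat_lit 21803676)) p12_18_0 (nat_lit 3) (nat_lit 99) (nat_lit 100) = true := by decide +kernel
def p12_18_0_100 : pfC (piC [(nat_lit 38632330), (nat_lit 24534081), (nat_lit 15702173)] (nat_lit 21803676)) p12_18_0 (nat_lit 3) (nat_lit 100) (nat_lit 101) = true := by decide +kernel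
def p12_18_0_101 : pfC (piC [(nat_lit 38632330), (nat_lit 24534081), (nat_lit 15702173)] (nat_lit 21803676)) p12_18_0 (nat_lit 3) (nat_lit 101) (nat_lit 102) = true := by decide +kernel
def p12_18_0_102 : pfC (piC [(nat_lit 38632330), (nat_lit 24534081), (nat_lit 15702173)] (nat_lit 21803676)) p12_18_0 (nat_lit 3) (nat_lit 102) (nat_lit 103) = true := by decide +kernel
def p12_18_0_103 : pfC (piC [(nat_lit 38632330), (nat_lit 24534081), (nat_lit 15702173)] (nat_lit 21803676)) p12_18_0 (nat_lit 3) (nat_lit 103) (nat_lit 104) = true := by decide +kernel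
def p12_18_0_104 : pfC (piC [(nat_lit 38632330), (nat_lit 24534081), (nat_lit 15702173)] (nat_lit 21803676)) p12_18_0 (nat_lit 3) (nat_lit 104) (nat_lit 105) = true := by decide +kernel
def p12_18_0_105 : pfC (piC [(nat_lit 38632330), (nat_lit 24534081), (nat_lit 15702173)] (nat_lit 21803676)) p12_18_0 (nat_lit 3) (nat_lit 105) (nat_lit 106) = true := by decide +kernel
def p12_18_0_106 : pfC (piC [(nat_lit 38632330), (nat_lit 24534081), (nat_lit 15702173)] (nat_lit 21803676)) p12_18_0 (nat_lit 3) (nat_lit 106) (nat_lit 107) = true := by decide +kernel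
def p12_18_0_107 : pfC (piC [(nat_lit 38632330), (nat_lit 24534081), (nat_lit 15702173)] (nat_lit 21803676)) p12_18_0 (nat_lit 3) (nat_lit 107) (nat_lit 108) = true := by decide +kernel
def p12_18_0_108 : pfC (piC [(nat_lit 38632330), (nat_lit 24534081), (nat_lit 15702173)] (nat_lit 21803676)) p12_18_0 (nat_lit 3) (nat_lit 108) (nat_lit 109) = true := by decide +kernel
def p12_18_0_109 : pfC (piC [(nat_lit 38632330), (nat_lit 24534081), (nat_lit 15702173)] (nat_lit 21803676)) p12_18_0 (nat_lit 3) (nat_lit 109) (nat_lit 110) = true := by decide +kernel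
def p12_18_0_110 : pfC (piC [(nat_lit 38632330), (nat_lit 24534081), (nat_lit 15702173)] (nat_lit 21803676)) p12_18_0 (nat_lit 3) (nat_lit 110) (nat_lit 111) = true := by decide +kernel
def p12_18_0_111 : pfC (piC [(nat_lit 38632330), (nat_lit 24534081), (nat_lit 15702173)] (nat_lit 21803676)) p12_18_0 (nat_lit 3) (nat_lit 111) (nat_lit 112) = true := by decide +kernel
def p12_18_0_112 : pfC (piC [(nat_lit 38632330), (nat_lit 24534081), (nat_lit 15702173)] (nat_lit 21803676)) p12_18_0 (nat_lit 3) (nat_lit 112) (nat_lit 113) = true := by decide +kernel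
def p12_18_0_113 : pfC (piC [(nat_lit 38632330), (nat_lit 24534081), (nat_lit 15702173)] (nat_lit 21803676)) p12_18_0 (nat_lit 3) (nat_lit 113) (nat_lit 114) = true := by decide +kernel
def p12_18_0_114 : pfC (piC [(nat_lit 38632330), (nat_lit 24534081), (nat_lit 15702173)] (nat_lit 21803676)) p12_18_0 (nat_lit 3) (nat_lit 114) (nat_lit 115) = true := by decide +kernel
def p12_18_0_115 : pfC (piC [(nat_lit 38632330), (nat_lit 24534081), (nat_lit 15702173)] (nat_lit 21803676)) p12_18_0 (nat_lit 3) (nat_lit 115) (nat_lit 116) = true := by decide +kernel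
def p12_18_0_116 : pfC (piC [(nat_lit 38632330), (nat_lit 24534081), (nat_lit 15702173)] (nat_lit 21803676)) p12_18_0 (nat_lit 3) (nat_lit 116) (nat_lit 117) = true := by decide +kernel
def p12_18_0_117 : pfC (piC [(nat_lit 38632330), (nat_lit 24534081), (nat_lit 15702173)] (nat_lit 21803676)) p12_18_0 (nat_lit 3) (nat_lit 117) (nat_lit 118) = true := by decide +kernel
def p12_18_0_118 : pfC (piC [(nat_lit 38632330), (nat_lit 24534081), (nat_lit 15702173)] (nat_lit 21803676)) p12_18_0 (nat_lit 3) (nat_lit 118) (nat_lit 119) = true := by decide +kernel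
def p12_18_0_119 : pfC (piC [(nat_lit 38632330), (nat_lit 24534081), (nat_lit 15702173)] (nat_lit 21803676)) p12_18_0 (nat_lit 3) (nat_lit 119) (nat_lit 120) = true := by decide +kernel
def p12_18_0_120 : pfC (piC [(nat_lit 38632330), (nat_lit 24534081), (nat_lit 15702173)] (nat_lit 21803676)) p12_18_0 (nat_lit 3) (nat_lit 120) (nat_lit 121) = true := by decide +kernel
def p12_18_0_121 : pfC (piC [(nat_lit 38632330), (nat_lit 24534081), (nat_lit 15702173)] (nat_lit 21803676)) p12_18_0 (nat_lit 3) (nat_lit 121) (nat_lit 122) = true := by decide +kernel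
def p12_18_0_122 : pfC (piC [(nat_lit 38632330), (nat_lit 24534081), (nat_lit 15702173)] (nat_lit 21803676)) p12_18_0 (nat_lit 3) (nat_lit 122) (nat_lit 123) = true := by decide +kernel
def p12_18_0_123 : pfC (piC [(nat_lit 38632330), (nat_lit 24534081), (nat_lit 15702173)] (nat_lit 21803676)) p12_18_0 (nat_lit 3) (nat_lit 123) (nat_lit 124) = true := by decide +kernel
def p12_18_0_124 : pfC (piC [(nat_lit 38632330), (nat_lit 24534081), (nat_lit 15702173)] (nat_lit 21803676)) p12_18_0 (nat_lit 3) (nat_lit 124) (nat_lit 125) = true := by decide +kernel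
def p12_18_0_125 : pfC (piC [(nat_lit 38632330), (nat_lit 24534081), (nat_lit 15702173)] (nat_lit 21803676)) p12_18_0 (nat_lit 3) (nat_lit 125) (nat_lit 126) = true := by decide +kernel
def p12_18_0_126 : pfC (piC [(nat_lit 38632330), (nat_lit 24534081), (nat_lit 15702173)] (nat_lit 21803676)) p12_18_0 (nat_lit 3) (nat_lit 126) (nat_lit 127) = true := by decide +kernel
def p12_18_0_127 : pfC (piC [(nat_lit 38632330), (nat_lit 24534081), (nat_lit 15702173)] (nat_lit 21803676)) p12_18_0 (nat_lit 3) (nat_lit 127) (nat_lit 128) = true := by decide +kernel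
def p12_18_0_128 : pfC (piC [(nat_lit 38632330), (nat_lit 24534081), (nat_lit 15702173)] (nat_lit 21803676)) p12_18_0 (nat_lit 3) (nat_lit 128) (nat_lit 129) = true := by decide +kernel
def p12_18_0_129 : pfC (piC [(nat_lit 38632330), (nat_lit 24534081), (nat_lit 15702173)] (nat_lit 21803676)) p12_18_0 (nat_lit 3) (nat_lit 129) (nat_lit 130) = true := by decide +kernel
def p12_18_0_130 : pfC (piC [(nat_lit 38632330), (nat_lit 24534081), (nat_lit 15702173)] (nat_lit 21803676)) p12_18_0 (nat_lit 3) (nat_lit 130) (nat_lit 131) = true := by decide +kernel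
def p12_18_0_131 : pfC (piC [(nat_lit 38632330), (nat_lit 24534081), (nat_lit 15702173)] (nat_lit 21803676)) p12_18_0 (nat_lit 3) (nat_lit 131) (nat_lit 132) = true := by decide +kernel
def p12_18_0_132 : pfC (piC [(nat_lit 38632330), (nat_lit 24534081), (nat_lit 15702173)] (nat_lit 21803676)) p12_18_0 (nat_lit 3) (nat_lit 132) (nat_lit 133) = true := by decide +kernel
def p12_18_0_133 : pfC (piC [(nat_lit 38632330), (nat_lit 24534081), (nat_lit 15702173)] (nat_lit 21803676)) p12_18_0 (nat_lit 3) (nat_lit 133) (nat_lit 134) = true := by decide +kernel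
def p12_18_0_134 : pfC (piC [(nat_lit 38632330), (nat_lit 24534081), (nat_lit 15702173)] (nat_lit 21803676)) p12_18_0 (nat_lit 3) (nat_lit 134) (nat_lit 135) = true := by decide +kernel
def p12_18_0_135 : pfC (piC [(nat_lit 38632330), (nat_lit 24534081), (nat_lit 15702173)] (nat_lit 21803676)) p12_18_0 (nat_lit 3) (nat_lit 135) (nat_lit 136) = true := by decide +kernel
def p12_18_0_136 : pfC (piC [(nat_lit 38632330), (nat_lit 24534081), (nat_lit 15702173)] (nat_lit 21803676)) p12_18_0 (nat_lit 3) (nat_lit 136) (nat_lit 137) = true := by decide +kernel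
def p12_18_0_137 : pfC (piC [(nat_lit 38632330), (nat_lit 24534081), (nat_lit 15702173)] (nat_lit 21803676)) p12_18_0 (nat_lit 3) (nat_lit 137) (nat_lit 138) = true := by decide +kernel
def p12_18_0_138 : pfC (piC [(nat_lit 38632330), (nat_lit 24534081), (nat_lit 15702173)] (nat_lit 21803676)) p12_18_0 (nat_lit 3) (nat_lit 138) (nat_lit 139) = true := by decide +kernel
def p12_18_0_139 : pfC (piC [(nat_lit 38632330), (nat_lit 24534081), (nat_lit 15702173)] (nat_lit 21803676)) p12_18_0 (nat_lit 3) (nat_lit 139) (nat_lit 140) = true := by decide +kernel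
def p12_18_0_140 : pfC (piC [(nat_lit 38632330), (nat_lit 24534081), (nat_lit 15702173)] (nat_lit 21803676)) p12_18_0 (nat_lit 3) (nat_lit 140) (nat_lit 141) = true := by decide +kernel
def p12_18_0_141 : pfC (piC [(nat_lit 38632330), (nat_lit 24534081), (nat_lit 15702173)] (nat_lit 21803676)) p12_18_0 (nat_lit 3) (nat_lit 141) (nat_lit 142) = true := by decide +kernel
def p12_18_0_142 : pfC (piC [(nat_lit 38632330), (nat_lit 24534081), (nat_lit 15702173)] (nat_lit 21803676)) p12_18_0 (nat_lit 3) (nat_lit 142) (nat_lit 143) = true := by decide +kernel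
def p12_18_0_143 : pfC (piC [(nat_lit 38632330), (nat_lit 24534081), (nat_lit 15702173)] (nat_lit 21803676)) p12_18_0 (nat_lit 3) (nat_lit 143) (nat_lit 144) = true := by decide +kernel
def p12_18_0_144 : pfC (piC [(nat_lit 38632330), (nat_lit 24534081), (nat_lit 15702173)] (nat_lit 21803676)) p12_18_0 (nat_lit 3) (nat_lit 144) (nat_lit 145) = true := by decide +kernel
def p12_18_0_145 : pfC (piC [(nat_lit 38632330), (nat_lit 24534081), (nat_lit 15702173)] (nat_lit 21803676)) p12_18_0 (nat_lit 3) (nat_lit 145) (nat_lit 146) = true := by decide +kernel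
def p12_18_0_146 : pfC (piC [(nat_lit 38632330), (nat_lit 24534081), (nat_lit 15702173)] (nat_lit 21803676)) p12_18_0 (nat_lit 3) (nat_lit 146) (nat_lit 147) = true := by decide +kernel
def p12_18_0_147 : pfC (piC [(nat_lit 38632330), (nat_lit 24534081), (nat_lit 15702173)] (nat_lit 21803676)) p12_18_0 (nat_lit 3) (nat_lit 147) (nat_lit 148) = true := by decide +kernel
def p12_18_0_148 : pfC (piC [(nat_lit 38632330), (nat_lit 24534081), (nat_lit 15702173)] (nat_lit 21803676)) p12_18_0 (nat_lit 3) (nat_lit 148) (nat_lit 149) = true := by decide +kernel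
def p12_18_0_149 : pfC (piC [(nat_lit 38632330), (nat_lit 24534081), (nat_lit 15702173)] (nat_lit 21803676)) p12_18_0 (nat_lit 3) (nat_lit 149) (nat_lit 150) = true := by decide +kernel
def p12_18_0_150 : pfC (piC [(nat_lit 38632330), (nat_lit 24534081), (nat_lit 15702173)] (nat_lit 21803676)) p12_18_0 (nat_lit 3) (nat_lit 150) (nat_lit 151) = true := by decide +kernel
def p12_18_0_151 : pfC (piC [(nat_lit 38632330), (nat_lit 24534081), (nat_lit 15702173)] (nat_lit 21803676)) p12_18_0 (nat_lit 3) (nat_lit 151) (nat_lit 152) = true := by decide +kernel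
def p12_18_0_152 : pfC (piC [(nat_lit 38632330), (nat_lit 24534081), (nat_lit 15702173)] (nat_lit 21803676)) p12_18_0 (nat_lit 3) (nat_lit 152) (nat_lit 153) = true := by decide +kernel
def p12_18_0_153 : pfC (piC [(nat_lit 38632330), (nat_lit 24534081), (nat_lit 15702173)] (nat_lit 21803676)) p12_18_0 (nat_lit 3) (nat_lit 153) (nat_lit 154) = true := by decide +kernel
def p12_18_0_154 : pfC (piC [(nat_lit 38632330), (nat_lit 24534081), (nat_lit 15702173)] (nat_lit 21803676)) p12_18_0 (nat_lit 3) (nat_lit 154) (nat_lit 155) = true := by decide +kernel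
def p12_18_0_155 : pfC (piC [(nat_lit 38632330), (nat_lit 24534081), (nat_lit 15702173)] (nat_lit 21803676)) p12_18_0 (nat_lit 3) (nat_lit 155) (nat_lit 156) = true := by decide +kernel
def p12_18_0_156 : pfC (piC [(nat_lit 38632330), (nat_lit 24534081), (nat_lit 15702173)] (nat_lit 21803676)) p12_18_0 (nat_lit 3) (nat_lit 156) (nat_lit 157) = true := by decide +kernel
def p12_18_0_157 : pfC (piC [(nat_lit 38632330), (nat_lit 24534081), (nat_lit 15702173)] (nat_lit 21803676)) p12_18_0 (nat_lit 3) (nat_lit 157) (nat_lit 158) = true := by decide +kernel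
def p12_18_0_158 : pfC (piC [(nat_lit 38632330), (nat_lit 24534081), (nat_lit 15702173)] (nat_lit 21803676)) p12_18_0 (nat_lit 3) (nat_lit 158) (nat_lit 159) = true := by decide +kernel
def p12_18_0_159 : pfC (piC [(nat_lit 38632330), (nat_lit 24534081), (nat_lit 15702173)] (nat_lit 21803676)) p12_18_0 (nat_lit 3) (nat_lit 159) (nat_lit 160) = true := by decide +kernel
def p12_18_0_160 : pfC (piC [(nat_lit 38632330), (nat_lit 24534081), (nat_lit 15702173)] (nat_lit 21803676)) p12_18_0 (nat_lit 3) (nat_lit 160) (nat_lit 161) = true := by decide +kernel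
def p12_18_0_161 : pfC (piC [(nat_lit 38632330), (nat_lit 24534081), (nat_lit 15702173)] (nat_lit 21803676)) p12_18_0 (nat_lit 3) (nat_lit 161) (nat_lit 162) = true := by decide +kernel
def p12_18_0_162 : pfC (piC [(nat_lit 38632330), (nat_lit 24534081), (nat_lit 15702173)] (nat_lit 21803676)) p12_18_0 (nat_lit 3) (nat_lit 162) (nat_lit 163) = true := by decide +kernel
def p12_18_0_163 : pfC (piC [(nat_lit 38632330), (nat_lit 24534081), (nat_lit 15702173)] (nat_lit 21803676)) p12_18_0 (nat_lit 3) (nat_lit 163) (nat_lit 164) = true := by decide +kernel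
def p12_18_0_164 : pfC (piC [(nat_lit 38632330), (nat_lit 24534081), (nat_lit 15702173)] (nat_lit 21803676)) p12_18_0 (nat_lit 3) (nat_lit 164) (nat_lit 165) = true := by decide +kernel
def p12_18_0_165 : pfC (piC [(nat_lit 38632330), (nat_lit 24534081), (nat_lit 15702173)] (nat_lit 21803676)) p12_18_0 (nat_lit 3) (nat_lit 165) (nat_lit 166) = true := by decide +kernel
def p12_18_0_166 : pfC (piC [(nat_lit 38632330), (nat_lit 24534081), (nat_lit 15702173)] (nat_lit 21803676)) p12_18_0 (nat_lit 3) (nat_lit 166) (nat_lit 167) = true := by decide +kernel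
def p12_18_0_167 : pfC (piC [(nat_lit 38632330), (nat_lit 24534081), (nat_lit 15702173)] (nat_lit 21803676)) p12_18_0 (nat_lit 3) (nat_lit 167) (nat_lit 168) = true := by decide +kernel
def p12_18_0_168 : pfC (piC [(nat_lit 38632330), (nat_lit 24534081), (nat_lit 15702173)] (nat_lit 21803676)) p12_18_0 (nat_lit 3) (nat_lit 168) (nat_lit 169) = true := by decide +kernel
def p12_18_0_169 : pfC (piC [(nat_lit 38632330), (nat_lit 24534081), (nat_lit 15702173)] (nat_lit 21803676)) p12_18_0 (nat_lit 3) (nat_lit 169) (nat_lit 170) = true := by decide +kernel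
def p12_18_0_170 : pfC (piC [(nat_lit 38632330), (nat_lit 24534081), (nat_lit 15702173)] (nat_lit 21803676)) p12_18_0 (nat_lit 3) (nat_lit 170) (nat_lit 171) = true := by decide +kernel
def p12_18_0_171 : pfC (piC [(nat_lit 38632330), (nat_lit 24534081), (nat_lit 15702173)] (nat_lit 21803676)) p12_18_0 (nat_lit 3) (nat_lit 171) (nat_lit 172) = true := by decide +kernel
def p12_18_0_172 : pfC (piC [(nat_lit 38632330), (nat_lit 24534081), (nat_lit 15702173)] (nat_lit 21803676)) p12_18_0 (nat_lit 3) (nat_lit 172) (nat_lit 173) = true := by decide +kernel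
def p12_18_0_173 : pfC (piC [(nat_lit 38632330), (nat_lit 24534081), (nat_lit 15702173)] (nat_lit 21803676)) p12_18_0 (nat_lit 3) (nat_lit 173) (nat_lit 174) = true := by decide +kernel
def p12_18_0_174 : pfC (piC [(nat_lit 38632330), (nat_lit 24534081), (nat_lit 15702173)] (nat_lit 21803676)) p12_18_0 (nat_lit 3) (nat_lit 174) (nat_lit 175) = true := by decide +kernel
def p12_18_0_175 : pfC (piC [(nat_lit 38632330), (nat_lit 24534081), (nat_lit 15702173)] (nat_lit 21803676)) p12_18_0 (nat_lit 3) (nat_lit 175) (nat_lit 176) = true := by decide +kernel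
def p12_18_0_176 : pfC (piC [(nat_lit 38632330), (nat_lit 24534081), (nat_lit 15702173)] (nat_lit 21803676)) p12_18_0 (nat_lit 3) (nat_lit 176) (nat_lit 177) = true := by decide +kernel
def p12_18_0_177 : pfC (piC [(nat_lit 38632330), (nat_lit 24534081), (nat_lit 15702173)] (nat_lit 21803676)) p12_18_0 (nat_lit 3) (nat_lit 177) (nat_lit 178) = true := by decide +kernel
def p12_18_0_178 : pfC (piC [(nat_lit 38632330), (nat_lit 24534081), (nat_lit 15702173)] (nat_lit 21803676)) p12_18_0 (nat_lit 3) (nat_lit 178) (nat_lit 179) = true := by decide +kernel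
def p12_18_0_179 : pfC (piC [(nat_lit 38632330), (nat_lit 24534081), (nat_lit 15702173)] (nat_lit 21803676)) p12_18_0 (nat_lit 3) (nat_lit 179) (nat_lit 180) = true := by decide +kernel
def p12_18_0_180 : pfC (piC [(nat_lit 38632330), (nat_lit 24534081), (nat_lit 15702173)] (nat_lit 21803676)) p12_18_0 (nat_lit 3) (nat_lit 180) (nat_lit 181) = true := by decide +kernel
def p12_18_0_181 : pfC (piC [(nat_lit 38632330), (nat_lit 24534081), (nat_lit 15702173)] (nat_lit 21803676)) p12_18_0 (nat_lit 3) (nat_lit 181) (nat_lit 182) = true := by decide +kernel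
def p12_18_0_182 : pfC (piC [(nat_lit 38632330), (nat_lit 24534081), (nat_lit 15702173)] (nat_lit 21803676)) p12_18_0 (nat_lit 3) (nat_lit 182) (nat_lit 183) = true := by decide +kernel
def p12_18_0_183 : pfC (piC [(nat_lit 38632330), (nat_lit 24534081), (nat_lit 15702173)] (nat_lit 21803676)) p12_18_0 (nat_lit 3) (nat_lit 183) (nat_lit 184) = true := by decide +kernel
def p12_18_0_184 : pfC (piC [(nat_lit 38632330), (nat_lit 24534081), (nat_lit 15702173)] (nat_lit 21803676)) p12_18_0 (nat_lit 3) (nat_lit 184) (nat_lit 185) = true := by decide +kernel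
def p12_18_0_185 : pfC (piC [(nat_lit 38632330), (nat_lit 24534081), (nat_lit 15702173)] (nat_lit 21803676)) p12_18_0 (nat_lit 3) (nat_lit 185) (nat_lit 186) = true := by decide +kernel
def p12_18_0_186 : pfC (piC [(nat_lit 38632330), (nat_lit 24534081), (nat_lit 15702173)] (nat_lit 21803676)) p12_18_0 (nat_lit 3) (nat_lit 186) (nat_lit 187) = true := by decide +kernel
def p12_18_0_187 : pfC (piC [(nat_lit 38632330), (nat_lit 24534081), (nat_lit 15702173)] (nat_lit 21803676)) p12_18_0 (nat_lit 3) (nat_lit 187) (nat_lit 188) = true := by decide +kernel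
def p12_18_0_188 : pfC (piC [(nat_lit 38632330), (nat_lit 24534081), (nat_lit 15702173)] (nat_lit 21803676)) p12_18_0 (nat_lit 3) (nat_lit 188) (nat_lit 189) = true := by decide +kernel
def p12_18_0_189 : pfC (piC [(nat_lit 38632330), (nat_lit 24534081), (nat_lit 15702173)] (nat_lit 21803676)) p12_18_0 (nat_lit 3) (nat_lit 189) (nat_lit 190) = true := by decide +kernel
def p12_18_0_190 : pfC (piC [(nat_lit 38632330), (nat_lit 24534081), (nat_lit 15702173)] (nat_lit 21803676)) p12_18_0 (nat_lit 3) (nat_lit 190) (nat_lit 191) = true := by decide +kernel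
def p12_18_0_191 : pfC (piC [(nat_lit 38632330), (nat_lit 24534081), (nat_lit 15702173)] (nat_lit 21803676)) p12_18_0 (nat_lit 3) (nat_lit 191) (nat_lit 192) = true := by decide +kernel
def p12_18_0_192 : pfC (piC [(nat_lit 38632330), (nat_lit 24534081), (nat_lit 15702173)] (nat_lit 21803676)) p12_18_0 (nat_lit 3) (nat_lit 192) (nat_lit 193) = true := by decide +kernel
def p12_18_0_193 : pfC (piC [(nat_lit 38632330), (nat_lit 24534081), (nat_lit 15702173)] (nat_lit 21803676)) p12_18_0 (nat_lit 3) (nat_lit 193) (nat_lit 194) = true := by decide +kernel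
def p12_18_0_194 : pfC (piC [(nat_lit 38632330), (nat_lit 24534081), (nat_lit 15702173)] (nat_lit 21803676)) p12_18_0 (nat_lit 3) (nat_lit 194) (nat_lit 195) = true := by decide +kernel
def p12_18_0_195 : pfC (piC [(nat_lit 38632330), (nat_lit 24534081), (nat_lit 15702173)] (nat_lit 21803676)) p12_18_0 (nat_lit 3) (nat_lit 195) (nat_lit 196) = true := by decide +kernel
def p12_18_0_196 : pfC (piC [(nat_lit 38632330), (nat_lit 24534081), (nat_lit 15702173)] (nat_lit 21803676)) p12_18_0 (nat_lit 3) (nat_lit 196) (nat_lit 197) = true := by decide +kernel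
def p12_18_0_197 : pfC (piC [(nat_lit 38632330), (nat_lit 24534081), (nat_lit 15702173)] (nat_lit 21803676)) p12_18_0 (nat_lit 3) (nat_lit 197) (nat_lit 198) = true := by decide +kernel
def p12_18_0_198 : pfC (piC [(nat_lit 38632330), (nat_lit 24534081), (nat_lit 15702173)] (nat_lit 21803676)) p12_18_0 (nat_lit 3) (nat_lit 198) (nat_lit 199) = true := by decide +kernel
def p12_18_0_199 : pfC (piC [(nat_lit 38632330), (nat_lit 24534081), (nat_lit 15702173)] (nat_lit 21803676)) p12_18_0 (nat_lit 3) (nat_lit 199) (nat_lit 200) = true := by decide +kernel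
def p12_18_0_200 : pfC (piC [(nat_lit 38632330), (nat_lit 24534081), (nat_lit 15702173)] (nat_lit 21803676)) p12_18_0 (nat_lit 3) (nat_lit 200) (nat_lit 201) = true := by decide +kernel
def p12_18_0_201 : pfC (piC [(nat_lit 38632330), (nat_lit 24534081), (nat_lit 15702173)] (nat_lit 21803676)) p12_18_0 (nat_lit 3) (nat_lit 201) (nat_lit 202) = true := by decide +kernel
def p12_18_0_202 : pfC (piC [(nat_lit 38632330), (nat_lit 24534081), (nat_lit 15702173)] (nat_lit 21803676)) p12_18_0 (nat_lit 3) (nat_lit 202) (nat_lit 203) = true := by decide +kernel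
def p12_18_0_203 : pfC (piC [(nat_lit 38632330), (nat_lit 24534081), (nat_lit 15702173)] (nat_lit 21803676)) p12_18_0 (nat_lit 3) (nat_lit 203) (nat_lit 204) = true := by decide +kernel
def p12_18_0_204 : pfC (piC [(nat_lit 38632330), (nat_lit 24534081), (nat_lit 15702173)] (nat_lit 21803676)) p12_18_0 (nat_lit 3) (nat_lit 204) (nat_lit 205) = true := by decide +kernel
def p12_18_0_205 : pfC (piC [(nat_lit 38632330), (nat_lit 24534081), (nat_lit 15702173)] (nat_lit 21803676)) p12_18_0 (nat_lit 3) (nat_lit 205) (nat_lit 206) = true := by decide +kernel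
def p12_18_0_206 : pfC (piC [(nat_lit 38632330), (nat_lit 24534081), (nat_lit 15702173)] (nat_lit 21803676)) p12_18_0 (nat_lit 3) (nat_lit 206) (nat_lit 207) = true := by decide +kernel
def p12_18_0_207 : pfC (piC [(nat_lit 38632330), (nat_lit 24534081), (nat_lit 15702173)] (nat_lit 21803676)) p12_18_0 (nat_lit 3) (nat_lit 207) (nat_lit 208) = true := by decide +kernel
def p12_18_0_208 : pfC (piC [(nat_lit 38632330), (nat_lit 24534081), (nat_lit 15702173)] (nat_lit 21803676)) p12_18_0 (nat_lit 3) (nat_lit 208) (nat_lit 209) = true := by decide +kernel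
def p12_18_0_209 : pfC (piC [(nat_lit 38632330), (nat_lit 24534081), (nat_lit 15702173)] (nat_lit 21803676)) p12_18_0 (nat_lit 3) (nat_lit 209) (nat_lit 210) = true := by decide +kernel
def p12_18_0_210 : pfC (piC [(nat_lit 38632330), (nat_lit 24534081), (nat_lit 15702173)] (nat_lit 21803676)) p12_18_0 (nat_lit 3) (nat_lit 210) (nat_lit 211) = true := by decide +kernel
def p12_18_0_211 : pfC (piC [(nat_lit 38632330), (nat_lit 24534081), (nat_lit 15702173)] (nat_lit 21803676)) p12_18_0 (nat_lit 3) (nat_lit 211) (nat_lit 212) = true := by decide +kernel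
def p12_18_0_212 : pfC (piC [(nat_lit 38632330), (nat_lit 24534081), (nat_lit 15702173)] (nat_lit 21803676)) p12_18_0 (nat_lit 3) (nat_lit 212) (nat_lit 213) = true := by decide +kernel
def p12_18_0_213 : pfC (piC [(nat_lit 38632330), (nat_lit 24534081), (nat_lit 15702173)] (nat_lit 21803676)) p12_18_0 (nat_lit 3) (nat_lit 213) (nat_lit 214) = true := by decide +kernel
def p12_18_0_214 : pfC (piC [(nat_lit 38632330), (nat_lit 24534081), (nat_lit 15702173)] (nat_lit 21803676)) p12_18_0 (nat_lit 3) (nat_lit 214) (nat_lit 215) = true := by decide +kernel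
def p12_18_0_215 : pfC (piC [(nat_lit 38632330), (nat_lit 24534081), (nat_lit 15702173)] (nat_lit 21803676)) p12_18_0 (nat_lit 3) (nat_lit 215) (nat_lit 216) = true := by decide +kernel
def p12_18_0_216 : pfC (piC [(nat_lit 38632330), (nat_lit 24534081), (nat_lit 15702173)] (nat_lit 21803676)) p12_18_0 (nat_lit 3) (nat_lit 216) (nat_lit 217) = true := by decide +kernel
def p12_18_0_217 : pfC (piC [(nat_lit 38632330), (nat_lit 24534081), (nat_lit 15702173)] (nat_lit 21803676)) p12_18_0 (nat_lit 3) (nat_lit 217) (nat_lit 218) = true := by decide +kernel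
def p12_18_0_218 : pfC (piC [(nat_lit 38632330), (nat_lit 24534081), (nat_lit 15702173)] (nat_lit 21803676)) p12_18_0 (nat_lit 3) (nat_lit 218) (nat_lit 219) = true := by decide +kernel
def p12_18_0_219 : pfC (piC [(nat_lit 38632330), (nat_lit 24534081), (nat_lit 15702173)] (nat_lit 21803676)) p12_18_0 (nat_lit 3) (nat_lit 219) (nat_lit 220) = true := by decide +kernel
def p12_18_0_220 : pfC (piC [(nat_lit 38632330), (nat_lit 24534081), (nat_lit 15702173)] (nat_lit 21803676)) p12_18_0 (nat_lit 3) (nat_lit 220) (nat_lit 221) = true := by decide +kernel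
def p12_18_0_221 : pfC (piC [(nat_lit 38632330), (nat_lit 24534081), (nat_lit 15702173)] (nat_lit 21803676)) p12_18_0 (nat_lit 3) (nat_lit 221) (nat_lit 222) = true := by decide +kernel
def p12_18_0_222 : pfC (piC [(nat_lit 38632330), (nat_lit 24534081), (nat_lit 15702173)] (nat_lit 21803676)) p12_18_0 (nat_lit 3) (nat_lit 222) (nat_lit 223) = true := by decide +kernel
def p12_18_0_223 : pfC (piC [(nat_lit 38632330), (nat_lit 24534081), (nat_lit 15702173)] (nat_lit 21803676)) p12_18_0 (nat_lit 3) (nat_lit 223) (nat_lit 224) = true := by decide +kernel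
def p12_18_0_224 : pfC (piC [(nat_lit 38632330), (nat_lit 24534081), (nat_lit 15702173)] (nat_lit 21803676)) p12_18_0 (nat_lit 3) (nat_lit 224) (nat_lit 225) = true := by decide +kernel
def p12_18_0_225 : pfC (piC [(nat_lit 38632330), (nat_lit 24534081), (nat_lit 15702173)] (nat_lit 21803676)) p12_18_0 (nat_lit 3) (nat_lit 225) (nat_lit 226) = true := by decide +kernel
def p12_18_0_226 : pfC (piC [(nat_lit 38632330), (nat_lit 24534081), (nat_lit 15702173)] (nat_lit 21803676)) p12_18_0 (nat_lit 3) (nat_lit 226) (nat_lit 227) = true := by decide +kernel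
def p12_18_0_227 : pfC (piC [(nat_lit 38632330), (nat_lit 24534081), (nat_lit 15702173)] (nat_lit 21803676)) p12_18_0 (nat_lit 3) (nat_lit 227) (nat_lit 228) = true := by decide +kernel
def p12_18_0_228 : pfC (piC [(nat_lit 38632330), (nat_lit 24534081), (nat_lit 15702173)] (nat_lit 21803676)) p12_18_0 (nat_lit 3) (nat_lit 228) (nat_lit 229) = true := by decide +kernel
def p12_18_0_229 : pfC (piC [(nat_lit 38632330), (nat_lit 24534081), (nat_lit 15702173)] (nat_lit 21803676)) p12_18_0 (nat_lit 3) (nat_lit 229) (nat_lit 230) = true := by decide +kernel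
def p12_18_0_230 : pfC (piC [(nat_lit 38632330), (nat_lit 24534081), (nat_lit 15702173)] (nat_lit 21803676)) p12_18_0 (nat_lit 3) (nat_lit 230) (nat_lit 231) = true := by decide +kernel
def p12_18_0_231 : pfC (piC [(nat_lit 38632330), (nat_lit 24534081), (nat_lit 15702173)] (nat_lit 21803676)) p12_18_0 (nat_lit 3) (nat_lit 231) (nat_lit 232) = true := by decide +kernel
def p12_18_0_232 : pfC (piC [(nat_lit 38632330), (nat_lit 24534081), (nat_lit 15702173)] (nat_lit 21803676)) p12_18_0 (nat_lit 3) (nat_lit 232) (nat_lit 233) = true := by decide +kernel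
def p12_18_0_233 : pfC (piC [(nat_lit 38632330), (nat_lit 24534081), (nat_lit 15702173)] (nat_lit 21803676)) p12_18_0 (nat_lit 3) (nat_lit 233) (nat_lit 234) = true := by decide +kernel
def p12_18_0_234 : pfC (piC [(nat_lit 38632330), (nat_lit 24534081), (nat_lit 15702173)] (nat_lit 21803676)) p12_18_0 (nat_lit 3) (nat_lit 234) (nat_lit 235) = true := by decide +kernel
def p12_18_0_235 : pfC (piC [(nat_lit 38632330), (nat_lit 24534081), (nat_lit 15702173)] (nat_lit 21803676)) p12_18_0 (nat_lit 3) (nat_lit 235) (nat_lit 236) = true := by decide +kernel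
def p12_18_0_236 : pfC (piC [(nat_lit 38632330), (nat_lit 24534081), (nat_lit 15702173)] (nat_lit 21803676)) p12_18_0 (nat_lit 3) (nat_lit 236) (nat_lit 237) = true := by decide +kernel
def p12_18_0_237 : pfC (piC [(nat_lit 38632330), (nat_lit 24534081), (nat_lit 15702173)] (nat_lit 21803676)) p12_18_0 (nat_lit 3) (nat_lit 237) (nat_lit 238) = true := by decide +kernel
def p12_18_0_238 : pfC (piC [(nat_lit 38632330), (nat_lit 24534081), (nat_lit 15702173)] (nat_lit 21803676)) p12_18_0 (nat_lit 3) (nat_lit 238) (nat_lit 239) = true := by decide +kernel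
def p12_18_0_239 : pfC (piC [(nat_lit 38632330), (nat_lit 24534081), (nat_lit 15702173)] (nat_lit 21803676)) p12_18_0 (nat_lit 3) (nat_lit 239) (nat_lit 240) = true := by decide +kernel
def p12_18_0_240 : pfC (piC [(nat_lit 38632330), (nat_lit 24534081), (nat_lit 15702173)] (nat_lit 21803676)) p12_18_0 (nat_lit 3) (nat_lit 240) (nat_lit 241) = true := by decide +kernel
def p12_18_0_241 : pfC (piC [(nat_lit 38632330), (nat_lit 24534081), (nat_lit 15702173)] (nat_lit 21803676)) p12_18_0 (nat_lit 3) (nat_lit 241) (nat_lit 242) = true := by decide +kernel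
def p12_18_0_242 : pfC (piC [(nat_lit 38632330), (nat_lit 24534081), (nat_lit 15702173)] (nat_lit 21803676)) p12_18_0 (nat_lit 3) (nat_lit 242) (nat_lit 243) = true := by decide +kernel
def p12_18_0_243 : pfC (piC [(nat_lit 38632330), (nat_lit 24534081), (nat_lit 15702173)] (nat_lit 21803676)) p12_18_0 (nat_lit 3) (nat_lit 243) (nat_lit 244) = true := by decide +kernel
def p12_18_0_244 : pfC (piC [(nat_lit 38632330), (nat_lit 24534081), (nat_lit 15702173)] (nat_lit 21803676)) p12_18_0 (nat_lit 3) (nat_lit 244) (nat_lit 245) = true := by decide +kernel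
def p12_18_0_245 : pfC (piC [(nat_lit 38632330), (nat_lit 24534081), (nat_lit 15702173)] (nat_lit 21803676)) p12_18_0 (nat_lit 3) (nat_lit 245) (nat_lit 246) = true := by decide +kernel
def p12_18_0_246 : pfC (piC [(nat_lit 38632330), (nat_lit 24534081), (nat_lit 15702173)] (nat_lit 21803676)) p12_18_0 (nat_lit 3) (nat_lit 246) (nat_lit 247) = true := by decide +kernel
def p12_18_0_247 : pfC (piC [(nat_lit 38632330), (nat_lit 24534081), (nat_lit 15702173)] (nat_lit 21803676)) p12_18_0 (nat_lit 3) (nat_lit 247) (nat_lit 248) = true := by decide +kernel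
def p12_18_0_248 : pfC (piC [(nat_lit 38632330), (nat_lit 24534081), (nat_lit 15702173)] (nat_lit 21803676)) p12_18_0 (nat_lit 3) (nat_lit 248) (nat_lit 249) = true := by decide +kernel
def p12_18_0_249 : pfC (piC [(nat_lit 38632330), (nat_lit 24534081), (nat_lit 15702173)] (nat_lit 21803676)) p12_18_0 (nat_lit 3) (nat_lit 249) (nat_lit 250) = true := by decide +kernel
def p12_18_0_250 : pfC (piC [(nat_lit 38632330), (nat_lit 24534081), (nat_lit 15702173)] (nat_lit 21803676)) p12_18_0 (nat_lit 3) (nat_lit 250) (nat_lit 251) = true := by decide +kernel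
def p12_18_0_251 : pfC (piC [(nat_lit 38632330), (nat_lit 24534081), (nat_lit 15702173)] (nat_lit 21803676)) p12_18_0 (nat_lit 3) (nat_lit 251) (nat_lit 252) = true := by decide +kernel
def p12_18_0_252 : pfC (piC [(nat_lit 38632330), (nat_lit 24534081), (nat_lit 15702173)] (nat_lit 21803676)) p12_18_0 (nat_lit 3) (nat_lit 252) (nat_lit 253) = true := by decide +kernel
def p12_18_0_253 : pfC (piC [(nat_lit 38632330), (nat_lit 24534081), (nat_lit 15702173)] (nat_lit 21803676)) p12_18_0 (nat_lit 3) (nat_lit 253) (nat_lit 254) = true := by decide +kernel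
theorem p12_18_0_T : PfS (PiF n12_18.reverse (nat_lit 21803676)) p12_18_0 (nat_lit 3) [] 0 :=
  pftab_of (los := [(nat_lit 38632330), (nat_lit 24534081), (nat_lit 15702173)]) (by decide +kernel) (hi := (nat_lit 254)) (PfP.trans (PfP.trans (PfP.trans (PfP.trans (PfP.trans (PfP.trans (PfP.trans (PfP.trans (PfP.trans (PfP.trans (PfP.trans (PfP.trans (PfP.trans (PfP.trans (PfP.trans (PfP.trans (PfP.trans (PfP.trans (PfP.trans (PfP.trans (PfP.trans (PfP.trans (PfP.trans (PfP.trans (PfP.trans (PfP.trans (PfP.trans (PfP.trans (PfP.trans (PfP.trans (PfP.trans (PfP.trans (PfP.trans (PfP.trans (PfP.trans (PfP.trans (PfP.trans (PfP.trans (PfP.trans (PfP.trans (PfP.trans (PfP.trans (PfP.trans (PfP.trans (PfP.trans (PfP.trans (PfP.trans (PfP.trans (PfP.trans (PfP.trans (PfP.trans (PfP.trans (PfP.trans (PfP.trans (PfP.trans (PfP.trans (PfP.trans (PfP.trans (PfP.trans (PfP.trans (PfP.trans (PfP.trans (PfP.trans (PfP.trans (PfP.trans (PfP.trans (PfP.trans (PfP.trans (PfP.trans (PfP.trans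 (PfP.trans (PfP.trans (PfP.trans (PfP.trans (PfP.trans (PfP.trans (PfP.trans (PfP.trans (PfP.trans (PfP.trans (PfP.trans (PfP.trans (PfP.trans (PfP.trans (PfP.trans (PfP.trans (PfP.trans (PfP.trans (PfP.trans (PfP.trans (PfP.trans (PfP.trans (PfP.trans (PfP.trans (PfP.trans (PfP.trans (PfP.trans (PfP.trans (PfP.trans (PfP.trans (PfP.trans (PfP.trans (PfP.trans (PfP.trans (PfP.trans (PfP.trans (PfP.trans (PfP.trans (PfP.trans
 (PfP.trans (PfP.trans (PfP.trans (PfP.trans (PfP.trans (PfP.trans (PfP.trans (PfP.trans (PfP.trans (PfP.trans (PfP.trans (PfP.trans (PfP.trans (PfP.trans (PfP.trans (PfP.trans (PfP.trans (PfP.trans (PfP.trans (PfP.trans (PfP.trans (PfP.trans (PfP.trans (PfP.trans (PfP.trans (PfP.trans (PfP.trans (PfP.trans (PfP.trans (PfP.trans (PfP.trans (PfP.trans (PfP.trans (PfP.trans (PfP.trans (PfP.trans (PfP.trans (PfP.trans (PfP.trans (PfP.trans (PfP.trans (PfP.trans (PfP.trans (PfP.trans (PfP.trans (PfP.trans (PfP.trans (PfP.trans (PfP.trans (PfP.trans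 (PfP.trans (PfP.trans (PfP.trans (PfP.trans (PfP.trans (PfP.trans (PfP.trans (PfP.trans (PfP.trans (PfP.trans (PfP.trans (PfP.trans (PfP.trans (PfP.trans (PfP.trans (PfP.trans (PfP.trans (PfP.trans (PfP.trans (PfP.trans (PfP.trans (PfP.trans (PfP.trans (PfP.trans (PfP.trans (PfP.trans (PfP.trans (PfP.trans (PfP.trans (PfP.trans (PfP.trans (PfP.trans (PfP.trans (PfP.trans (PfP.trans (PfP.trans (PfP.trans (PfP.trans (PfP.trans (PfP.trans (PfP.trans (PfP.trans (PfP.trans (PfP.trans (PfP.trans (PfP.trans (PfP.trans (PfP.trans (PfP.trans (PfP.trans (PfP.trans (PfP.trans (PfP.trans (PfP.trans (PfP.trans (PfP.trans (PfP.trans (PfP.trans (PfP.trans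
 (PfP.trans (PfP.trans (PfP.trans (PfP.trans (PfP.trans (PfP.trans (PfP.trans (PfP.trans (PfP.trans (PfP.trans (PfP.trans (PfP.trans (PfP.trans (PfP.trans (PfP.trans (PfP.trans (PfP.trans (PfP.trans (PfP.trans (PfP.trans (PfP.trans (PfP.trans (PfP.trans (PfP.trans (PfP.trans (PfP.trans (PfP.trans (PfP.trans (PfP.trans (PfP.trans (PfP.trans (PfP.trans (PfP.trans (PfP.trans (PfP.trans (pfC_sound p12_18_0_0) (pfC_sound p12_18_0_1)) (pfC_sound p12_18_0_2)) (pfC_sound p12_18_0_3)) (pfC_sound p12_18_0_4)) (pfC_sound p12_18_0_5)) (pfC_sound p12_18_0_6)) (pfC_sound p12_18_0_7)) (pfC_sound p12_18_0_8)) (pfC_sound p12_18_0_9)) (pfC_sound p12_18_0_10)) (pfC_sound p12_18_0_11)) (pfC_sound p12_18_0_12)) (pfC_sound p12_18_0_13)) (pfC_sound p12_18_0_14)) (pfC_sound p12_18_0_15)) (pfC_sound p12_18_0_16)) (pfC_sound p12_18_0_17)) (pfC_sound p12_18_0_18)) (pfC_sound p12_18_0_19)) (pfC_sound p12_18_0_20)) (pfC_sound p12_18_0_21)) (pfC_sound p12_18_0_22)) (pfC_sound p12_18_0_23)) (pfC_sound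 p12_18_0_24)) (pfC_sound p12_18_0_25)) (pfC_sound p12_18_0_26)) (pfC_sound p12_18_0_27)) (pfC_sound p12_18_0_28)) (pfC_sound p12_18_0_29)) (pfC_sound p12_18_0_30)) (pfC_sound p12_18_0_31)) (pfC_sound p12_18_0_32))
 (pfC_sound p12_18_0_33)) (pfC_sound p12_18_0_34)) (pfC_sound p12_18_0_35)) (pfC_sound p12_18_0_36)) (pfC_sound p12_18_0_37)) (pfC_sound p12_18_0_38)) (pfC_sound p12_18_0_39)) (pfC_sound p12_18_0_40)) (pfC_sound p12_18_0_41)) (pfC_sound p12_18_0_42)) (pfC_sound p12_18_0_43)) (pfC_sound p12_18_0_44)) (pfC_sound p12_18_0_45)) (pfC_sound p12_18_0_46)) (pfC_sound p12_18_0_47)) (pfC_sound p12_18_0_48)) (pfC_sound p12_18_0_49)) (pfC_sound p12_18_0_50)) (pfC_sound p12_18_0_51)) (pfC_sound p12_18_0_52)) (pfC_sound p12_18_0_53)) (pfC_sound p12_18_0_54)) (pfC_sound p12_18_0_55)) (pfC_sound p12_18_0_56)) (pfC_sound p12_18_0_57)) (pfC_sound p12_18_0_58)) (pfC_sound p12_18_0_59)) (pfC_sound p12_18_0_60)) (pfC_sound p12_18_0_61)) (pfC_sound p12_18_0_62)) (pfC_sound p12_18_0_63))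 (pfC_sound p12_18_0_64)) (pfC_sound p12_18_0_65)) (pfC_sound p12_18_0_66)) (pfC_sound p12_18_0_67)) (pfC_sound p12_18_0_68)) (pfC_sound p12_18_0_69)) (pfC_sound p12_18_0_70)) (pfC_sound p12_18_0_71)) (pfC_sound p12_18_0_72)) (pfC_sound p12_18_0_73)) (pfC_sound p12_18_0_74)) (pfC_sound p12_18_0_75)) (pfC_sound p12_18_0_76)) (pfC_sound p12_18_0_77)) (pfC_sound p12_18_0_78)) (pfC_sound p12_18_0_79)) (pfC_sound p12_18_0_80))
 (pfC_sound p12_18_0_81)) (pfC_sound p12_18_0_82)) (pfC_sound p12_18_0_83)) (pfC_sound p12_18_0_84)) (pfC_sound p12_18_0_85)) (pfC_sound p12_18_0_86)) (pfC_sound p12_18_0_87)) (pfC_sound p12_18_0_88)) (pfC_sound p12_18_0_89)) (pfC_sound p12_18_0_90)) (pfC_sound p12_18_0_91)) (pfC_sound p12_18_0_92)) (pfC_sound p12_18_0_93)) (pfC_sound p12_18_0_94)) (pfC_sound p12_18_0_95)) (pfC_sound p12_18_0_96)) (pfC_sound p12_18_0_97)) (pfC_sound p12_18_0_98)) (pfC_sound p12_18_0_99)) (pfC_sound p12_18_0_100)) (pfC_sound p12_18_0_101)) (pfC_sound p12_18_0_102))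 (pfC_sound p12_18_0_103)) (pfC_sound p12_18_0_104)) (pfC_sound p12_18_0_105)) (pfC_sound p12_18_0_106)) (pfC_sound p12_18_0_107)) (pfC_sound p12_18_0_108)) (pfC_sound p12_18_0_109)) (pfC_sound p12_18_0_110)) (pfC_sound p12_18_0_111)) (pfC_sound p12_18_0_112)) (pfC_sound p12_18_0_113)) (pfC_sound p12_18_0_114)) (pfC_sound p12_18_0_115)) (pfC_sound p12_18_0_116)) (pfC_sound p12_18_0_117)) (pfC_sound p12_18_0_118)) (pfC_sound p12_18_0_119)) (pfC_sound p12_18_0_120)) (pfC_sound p12_18_0_121)) (pfC_sound p12_18_0_122)) (pfC_sound p12_18_0_123)) (pfC_sound p12_18_0_124)) (pfC_sound p12_18_0_125)) (pfC_sound p12_18_0_126)) (pfC_sound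
 p12_18_0_127)) (pfC_sound p12_18_0_128)) (pfC_sound p12_18_0_129)) (pfC_sound p12_18_0_130)) (pfC_sound p12_18_0_131)) (pfC_sound p12_18_0_132)) (pfC_sound p12_18_0_133)) (pfC_sound p12_18_0_134)) (pfC_sound p12_18_0_135)) (pfC_sound p12_18_0_136)) (pfC_sound p12_18_0_137)) (pfC_sound p12_18_0_138)) (pfC_sound p12_18_0_139)) (pfC_sound p12_18_0_140)) (pfC_sound p12_18_0_141)) (pfC_sound p12_18_0_142)) (pfC_sound p12_18_0_143)) (pfC_sound p12_18_0_144)) (pfC_sound p12_18_0_145)) (pfC_sound p12_18_0_146)) (pfC_sound p12_18_0_147)) (pfC_sound p12_18_0_148)) (pfC_sound p12_18_0_149)) (pfC_sound p12_18_0_150)) (pfC_sound p12_18_0_151)) (pfC_sound p12_18_0_152)) (pfC_sound p12_18_0_153)) (pfC_sound p12_18_0_154)) (pfC_sound p12_18_0_155)) (pfC_sound p12_18_0_156)) (pfC_sound p12_18_0_157)) (pfC_sound p12_18_0_158)) (pfC_sound p12_18_0_159)) (pfC_sound p12_18_0_160)) (pfC_sound p12_18_0_161)) (pfC_sound p12_18_0_162)) (pfC_sound p12_18_0_163)) (pfC_sound p12_18_0_164)) (pfC_sound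 p12_18_0_165)) (pfC_sound p12_18_0_166)) (pfC_sound p12_18_0_167)) (pfC_sound p12_18_0_168)) (pfC_sound p12_18_0_169)) (pfC_sound p12_18_0_170)) (pfC_sound p12_18_0_171)) (pfC_sound p12_18_0_172)) (pfC_sound
 p12_18_0_173)) (pfC_sound p12_18_0_174)) (pfC_sound p12_18_0_175)) (pfC_sound p12_18_0_176)) (pfC_sound p12_18_0_177)) (pfC_sound p12_18_0_178)) (pfC_sound p12_18_0_179)) (pfC_sound p12_18_0_180)) (pfC_sound p12_18_0_181)) (pfC_sound p12_18_0_182)) (pfC_sound p12_18_0_183)) (pfC_sound p12_18_0_184)) (pfC_sound p12_18_0_185)) (pfC_sound p12_18_0_186)) (pfC_sound p12_18_0_187)) (pfC_sound p12_18_0_188)) (pfC_sound p12_18_0_189)) (pfC_sound p12_18_0_190)) (pfC_sound p12_18_0_191)) (pfC_sound p12_18_0_192)) (pfC_sound p12_18_0_193)) (pfC_sound p12_18_0_194)) (pfC_sound p12_18_0_195)) (pfC_sound p12_18_0_196)) (pfC_sound p12_18_0_197)) (pfC_sound p12_18_0_198)) (pfC_sound p12_18_0_199)) (pfC_sound p12_18_0_200)) (pfC_sound p12_18_0_201)) (pfC_sound p12_18_0_202)) (pfC_sound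 p12_18_0_203)) (pfC_sound p12_18_0_204)) (pfC_sound p12_18_0_205)) (pfC_sound p12_18_0_206)) (pfC_sound p12_18_0_207)) (pfC_sound p12_18_0_208)) (pfC_sound p12_18_0_209)) (pfC_sound p12_18_0_210)) (pfC_sound p12_18_0_211)) (pfC_sound p12_18_0_212)) (pfC_sound p12_18_0_213)) (pfC_sound p12_18_0_214)) (pfC_sound p12_18_0_215)) (pfC_sound p12_18_0_216)) (pfC_sound p12_18_0_217)) (pfC_sound p12_18_0_218)) (pfC_sound
 p12_18_0_219)) (pfC_sound p12_18_0_220)) (pfC_sound p12_18_0_221)) (pfC_sound p12_18_0_222)) (pfC_sound p12_18_0_223)) (pfC_sound p12_18_0_224)) (pfC_sound p12_18_0_225)) (pfC_sound p12_18_0_226)) (pfC_sound p12_18_0_227)) (pfC_sound p12_18_0_228)) (pfC_sound p12_18_0_229)) (pfC_sound p12_18_0_230)) (pfC_sound p12_18_0_231)) (pfC_sound p12_18_0_232)) (pfC_sound p12_18_0_233)) (pfC_sound p12_18_0_234)) (pfC_sound p12_18_0_235)) (pfC_sound p12_18_0_236)) (pfC_sound p12_18_0_237)) (pfC_sound p12_18_0_238)) (pfC_sound p12_18_0_239)) (pfC_sound p12_18_0_240)) (pfC_sound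 p12_18_0_241)) (pfC_sound p12_18_0_242)) (pfC_sound p12_18_0_243)) (pfC_sound p12_18_0_244)) (pfC_sound p12_18_0_245)) (pfC_sound p12_18_0_246)) (pfC_sound p12_18_0_247)) (pfC_sound p12_18_0_248)) (pfC_sound p12_18_0_249)) (pfC_sound p12_18_0_250)) (pfC_sound p12_18_0_251)) (pfC_sound p12_18_0_252)) (pfC_sound p12_18_0_253)) (by decide +kernel)

def z12_18_0 : zOK yB12_18 (nat_lit 0) (nat_lit 0) (nat_lit 400) (nat_lit 21803676) (nat_lit 11488537) = true := by decide +kernel
def g12_18_0 : gOK yB12_18.x P12_18 (nat_lit 1387) (q12_18 :: r12_18) (nat_lit 0) (nat_lit 0) (nat_lit 1) (nat_lit 400) (nat_lit 0) (nat_lit 11000000) (nat_lit 12712500) (nat_lit 12712500) [(nat_lit 800), (nat_lit 1600)] = true := by decide +kernel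
def v12_18_0 : ivC P12_18 s12_18 w12_18 n12_18 (nat_lit 3) (nat_lit 5300) (nat_lit 0) (nat_lit 0) f176_0_0 f184_0_0 (nat_lit 1) (nat_lit 400) f176_0_400 f184_0_400 (nat_lit 21803676) (nat_lit 11488537) p12_18_0 = true := by decide +kernel
def p12_18_1 : PF := (PF.cons (PF.cons (PF.cons (PF.leaf (nat_lit 1931080) (nat_lit 8718136) (nat_lit 58390676) (nat_lit 8718136) [(nat_lit 0), (nat_lit 0), (nat_lit 0)]) (PF.cons (PF.leaf (nat_lit 2110734) (nat_lit 308619) (nat_lit 58048006) (nat_lit 8752187) [(nat_lit 308619), (nat_lit 0), (nat_lit 0)]) (PF.cons (PF.leaf (nat_lit 2323602) (nat_lit 336342) (nat_lit 57646935) (nat_lit 8789192) [(nat_lit 336342), (nat_lit 0), (nat_lit 0)]) (PF.cons (PF.leaf (nat_lit 2563188) (nat_lit 361141) (nat_lit 57198221) (nat_lit 8827165) [(nat_lit 361141), (nat_lit 0), (nat_lit 0)]) (PF.cons (PF.leaf (nat_lit 2825823) (nat_lit 383656) (nat_lit 56709556) (nat_lit 8864632) [(nat_lit 383656), (nat_lit 0), (nat_lit 0)]) (PF.cons (PF.leaf (nat_lit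 3108691) (nat_lit 404282) (nat_lit 56186941) (nat_lit 8900461) [(nat_lit 404282), (nat_lit 0), (nat_lit 0)]) (PF.cons (PF.leaf (nat_lit 3409356) (nat_lit 423285) (nat_lit 55635321) (nat_lit 8933780) [(nat_lit 423285), (nat_lit 0), (nat_lit 0)]) (PF.cons (PF.leaf (nat_lit 3725793) (nat_lit 440852) (nat_lit 55058923) (nat_lit 8963919) [(nat_lit 440852), (nat_lit 0), (nat_lit 0)]) (PF.cons (PF.leaf (nat_lit 4056198) (nat_lit 457124) (nat_lit 54461444) (nat_lit 8990375)
 [(nat_lit 457124), (nat_lit 0), (nat_lit 0)]) (PF.cons (PF.leaf (nat_lit 4398921) (nat_lit 472206) (nat_lit 53846176) (nat_lit 9012780) [(nat_lit 472206), (nat_lit 0), (nat_lit 0)]) (PF.cons (PF.leaf (nat_lit 4752448) (nat_lit 486185) (nat_lit 53216074) (nat_lit 9030881) [(nat_lit 486185), (nat_lit 0), (nat_lit 0)]) (PF.cons (PF.leaf (nat_lit 5115377) (nat_lit 499134) (nat_lit 52573813) (nat_lit 9044518) [(nat_lit 499134), (nat_lit 0), (nat_lit 0)]) (PF.cons (PF.leaf (nat_lit 5486498) (nat_lit 511114)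 (nat_lit 51921822) (nat_lit 9053612) [(nat_lit 511114), (nat_lit 0), (nat_lit 0)]) (PF.cons (PF.leaf (nat_lit 5864548) (nat_lit 522181) (nat_lit 51262311) (nat_lit 9058147) [(nat_lit 522181), (nat_lit 0), (nat_lit 0)]) (PF.cons PF.nil (PF.cons PF.nil PF.nil)))))))))))))))) (PF.cons (PF.cons (PF.leaf (nat_lit 2650404) (nat_lit 1754274) (nat_lit 56488177) (nat_lit 8866360) [(nat_lit 0), (nat_lit 1754274), (nat_lit 0)]) (PF.cons (PF.leaf (nat_lit 2886965) (nat_lit 380833) (nat_lit 56038476) (nat_lit 8896022) [(nat_lit 380833), (nat_lit 1793480), (nat_lit 0)]) (PF.cons (PF.leaf (nat_lit 3148421) (nat_lit 402132) (nat_lit 55547334) (nat_lit 8924979) [(nat_lit 402132), (nat_lit 1832234),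
 (nat_lit 0)]) (PF.cons (PF.leaf (nat_lit 3430367) (nat_lit 421503) (nat_lit 55022369) (nat_lit 8952146) [(nat_lit 421503), (nat_lit 1869786), (nat_lit 0)]) (PF.cons (PF.leaf (nat_lit 3730020) (nat_lit 439259) (nat_lit 54469341) (nat_lit 8976731) [(nat_lit 439259), (nat_lit 1905700), (nat_lit 0)]) (PF.cons (PF.leaf (nat_lit 4045102) (nat_lit 455609) (nat_lit 53892896) (nat_lit 8998151) [(nat_lit 455609), (nat_lit 1939720), (nat_lit 0)]) (PF.cons (PF.leaf (nat_lit 4373663) (nat_lit 470699) (nat_lit 53296934) (nat_lit 9015981) [(nat_lit 470699), (nat_lit 1971697), (nat_lit 0)]) (PF.cons (PF.leaf (nat_lit 4713993) (nat_lit 484644) (nat_lit 52684821) (nat_lit 9029927) [(nat_lit 484644), (nat_lit 2001554), (nat_lit 0)]) (PF.cons (PF.leaf (nat_lit 5064563) (nat_lit 497530) (nat_lit 52059513) (nat_lit 9039793) [(nat_lit 497530), (nat_lit 2029260), (nat_lit 0)]) (PF.cons (PF.leaf (nat_lit 5424003) (nat_lit 509432) (nat_lit 51423635) (nat_lit 9045470) [(nat_lit 509432), (nat_lit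 2054817), (nat_lit 0)]) (PF.cons (PF.leaf (nat_lit 5791036) (nat_lit 520410) (nat_lit 50779536) (nat_lit 9046917) [(nat_lit 520410), (nat_lit 2078249), (nat_lit 0)]) (PF.cons (PF.leaf (nat_lit 6164494) (nat_lit
 530521) (nat_lit 50129330) (nat_lit 9044148) [(nat_lit 530521), (nat_lit 2099599), (nat_lit 0)]) (PF.cons PF.nil (PF.cons PF.nil PF.nil)))))))))))))) (PF.cons (PF.cons (PF.leaf (nat_lit 3473109) (nat_lit 1888574) (nat_lit 54363747) (nat_lit 8967916) [(nat_lit 0), (nat_lit 1888574), (nat_lit 0)]) (PF.cons (PF.leaf (nat_lit 3750874) (nat_lit 435895) (nat_lit 53844422) (nat_lit 8986894) [(nat_lit 435895), (nat_lit 1920800), (nat_lit 0)]) (PF.cons (PF.leaf (nat_lit 4047409) (nat_lit 452708) (nat_lit 53296445) (nat_lit 9003334) [(nat_lit 452708), (nat_lit 1951807), (nat_lit 0)]) (PF.cons (PF.leaf (nat_lit 4359467) (nat_lit 468078) (nat_lit 52725344) (nat_lit 9016705) [(nat_lit 468078), (nat_lit 1981263), (nat_lit 0)]) (PF.cons (PF.leaf (nat_lit 4684837) (nat_lit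 482185) (nat_lit 52135489) (nat_lit 9026640) [(nat_lit 482185), (nat_lit 2008971), (nat_lit 0)]) (PF.cons (PF.leaf (nat_lit 5021705) (nat_lit 495158) (nat_lit 51530484) (nat_lit 9032893) [(nat_lit 495158), (nat_lit 2034821), (nat_lit 0)]) (PF.cons (PF.leaf (nat_lit 5368419) (nat_lit 507096) (nat_lit 50913395) (nat_lit 9035316) [(nat_lit 507096), (nat_lit 2058759), (nat_lit 0)]) (PF.cons (PF.leaf (nat_lit 5723617) (nat_lit
 518080) (nat_lit 50286876) (nat_lit 9033835) [(nat_lit 518080), (nat_lit 2080769), (nat_lit 0)]) (PF.cons (PF.leaf (nat_lit 6085988) (nat_lit 528174) (nat_lit 49653255) (nat_lit 9028436) [(nat_lit 528174), (nat_lit 2100863), (nat_lit 0)]) (PF.cons (PF.leaf (nat_lit 6454384) (nat_lit 537435) (nat_lit 49014592) (nat_lit 9019155) [(nat_lit 537435), (nat_lit 2119071), (nat_lit 0)]) (PF.cons (PF.leaf (nat_lit 6827770) (nat_lit 545915) (nat_lit 48372719) (nat_lit 9006066) [(nat_lit 545915), (nat_lit 2135437), (nat_lit 0)]) (PF.cons PF.nil PF.nil))))))))))))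 (PF.cons (PF.cons (PF.leaf (nat_lit 4362770) (nat_lit 1990987) (nat_lit 52121048) (nat_lit 9014800) [(nat_lit 0), (nat_lit 1990987), (nat_lit 0)]) (PF.cons (PF.leaf (nat_lit 4669540) (nat_lit 478448) (nat_lit 51560493) (nat_lit 9020867) [(nat_lit 478448), (nat_lit 2016334), (nat_lit 0)]) (PF.cons (PF.leaf (nat_lit 4990315) (nat_lit 491758) (nat_lit 50981014) (nat_lit 9023674) [(nat_lit 491758), (nat_lit 2040202), (nat_lit 0)]) (PF.cons (PF.leaf (nat_lit 5322569) (nat_lit 503916) (nat_lit 50386698) (nat_lit 9023018) [(nat_lit 503916), (nat_lit 2062449), (nat_lit 0)]) (PF.cons (PF.leaf (nat_lit 5664545) (nat_lit 515042) (nat_lit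
 49780867) (nat_lit 9018782) [(nat_lit 515042), (nat_lit 2082998), (nat_lit 0)]) (PF.cons (PF.leaf (nat_lit 6014767) (nat_lit 525227) (nat_lit 49166299) (nat_lit 9010922) [(nat_lit 525227), (nat_lit 2101818), (nat_lit 0)]) (PF.cons (PF.leaf (nat_lit 6371902) (nat_lit 534544) (nat_lit 48545372) (nat_lit 8999446) [(nat_lit 534544), (nat_lit 2118909), (nat_lit 0)]) (PF.cons (PF.leaf (nat_lit 6734788) (nat_lit 543055) (nat_lit 47920143) (nat_lit 8984405) [(nat_lit 543055), (nat_lit 2134291), (nat_lit 0)]) (PF.cons (PF.leaf (nat_lit 7102381) (nat_lit 550813) (nat_lit 47292413) (nat_lit 8965883) [(nat_lit 550813), (nat_lit 2148001), (nat_lit 0)]) (PF.cons PF.nil PF.nil)))))))))) (PF.cons (PF.cons (PF.leaf (nat_lit 5291158) (nat_lit 2066044) (nat_lit 49836305) (nat_lit 9008331) [(nat_lit 0), (nat_lit 2066044), (nat_lit 0)]) (PF.cons (PF.leaf (nat_lit 5617231) (nat_lit 511049) (nat_lit 49256066) (nat_lit 9001548) [(nat_lit 511049), (nat_lit 2085036), (nat_lit 0)]) (PF.cons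 (PF.leaf (nat_lit 5953524) (nat_lit 521495) (nat_lit 48664274) (nat_lit 8991424) [(nat_lit 521495), (nat_lit 2102530), (nat_lit 0)]) (PF.cons (PF.leaf (nat_lit 6298033) (nat_lit 530997) (nat_lit 48063970) (nat_lit
 8977938) [(nat_lit 530997), (nat_lit 2118477), (nat_lit 0)]) (PF.cons (PF.leaf (nat_lit 6649362) (nat_lit 539640) (nat_lit 47457668) (nat_lit 8961117) [(nat_lit 539640), (nat_lit 2132866), (nat_lit 0)]) (PF.cons (PF.leaf (nat_lit 7006301) (nat_lit 547494) (nat_lit 46847486) (nat_lit 8941025) [(nat_lit 547494), (nat_lit 2145707), (nat_lit 0)]) (PF.cons (PF.leaf (nat_lit 7367788) (nat_lit 554617) (nat_lit 46235239) (nat_lit 8917754) [(nat_lit 554617), (nat_lit 2157028), (nat_lit 0)]) (PF.cons PF.nil PF.nil)))))))) (PF.cons (PF.cons (PF.leaf (nat_lit 6236388) (nat_lit 2117844) (nat_lit 47565221) (nat_lit 8954370) [(nat_lit 0), (nat_lit 2117844), (nat_lit 0)]) (PF.cons (PF.leaf (nat_lit 6574094) (nat_lit 535495) (nat_lit 46981321) (nat_lit 8935984) [(nat_lit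 535495), (nat_lit 2131202), (nat_lit 0)]) (PF.cons (PF.leaf (nat_lit 6919033) (nat_lit 543565) (nat_lit 46391374) (nat_lit 8914513) [(nat_lit 543565), (nat_lit 2143158), (nat_lit 0)]) (PF.cons (PF.leaf (nat_lit 7269580) (nat_lit 550851) (nat_lit 45797645) (nat_lit 8890036) [(nat_lit 550851), (nat_lit 2153715), (nat_lit 0)]) (PF.cons (PF.leaf (nat_lit 7624620) (nat_lit 557420) (nat_lit 45202017) (nat_lit 8862652) [(nat_lit 557420),
 (nat_lit 2162891), (nat_lit 0)]) (PF.cons PF.nil PF.nil)))))) (PF.cons (PF.cons (PF.leaf (nat_lit 7181887) (nat_lit 2150165) (nat_lit 45347227) (nat_lit 8860591) [(nat_lit 0), (nat_lit 2150165), (nat_lit 0)]) (PF.cons (PF.leaf (nat_lit 7525272) (nat_lit 553212) (nat_lit 44771219) (nat_lit 8832356) [(nat_lit 553212), (nat_lit 2158670), (nat_lit 0)]) (PF.cons (PF.leaf (nat_lit 7873538) (nat_lit 559305) (nat_lit 44193199) (nat_lit 8801452) [(nat_lit 559305), (nat_lit 2165924), (nat_lit 0)]) (PF.cons (PF.leaf (nat_lit 8225352) (nat_lit 564747)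 (nat_lit 43614844) (nat_lit 8768001) [(nat_lit 564747), (nat_lit 2171954), (nat_lit 0)]) PF.nil)))) (PF.cons (PF.cons (PF.leaf (nat_lit 8115494) (nat_lit 2166424) (nat_lit 43208905) (nat_lit 8734934) [(nat_lit 0), (nat_lit 2166424), (nat_lit 0)]) (PF.cons (PF.leaf (nat_lit 8460028) (nat_lit 565390) (nat_lit 42648789) (nat_lit 8698727) [(nat_lit 565390), (nat_lit 2170843), (nat_lit 0)]) PF.nil)) (PF.cons PF.nil (PF.cons PF.nil (PF.cons PF.nil PF.nil))))))))))) (PF.cons (PF.cons (PF.cons (PF.leaf (nat_lit 3713546) (nat_lit 6510353) (nat_lit 51691132) (nat_lit 8907327) [(nat_lit 0), (nat_lit 0), (nat_lit 6510353)]) (PF.cons (PF.leaf (nat_lit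
 3959330) (nat_lit 416251) (nat_lit 51249653) (nat_lit 8914247) [(nat_lit 416251), (nat_lit 0), (nat_lit 6528661)]) (PF.cons (PF.leaf (nat_lit 4227830) (nat_lit 435580) (nat_lit 50772409) (nat_lit 8919254) [(nat_lit 435580), (nat_lit 0), (nat_lit 6545986)]) (PF.cons (PF.leaf (nat_lit 4514399) (nat_lit 452686) (nat_lit 50267220) (nat_lit 8921857) [(nat_lit 452686), (nat_lit 0), (nat_lit 6561675)]) (PF.cons (PF.leaf (nat_lit 4816099) (nat_lit 467995) (nat_lit 49739832) (nat_lit 8921713) [(nat_lit 467995), (nat_lit 0), (nat_lit 6575282)]) (PF.cons (PF.leaf (nat_lit 5130602) (nat_lit 481796) (nat_lit 49194731) (nat_lit 8918594) [(nat_lit 481796), (nat_lit 0), (nat_lit 6586502)]) (PF.cons (PF.leaf (nat_lit 5456026) (nat_lit 494294) (nat_lit 48635558) (nat_lit 8912354) [(nat_lit 494294), (nat_lit 0), (nat_lit 6595134)]) (PF.cons (PF.leaf (nat_lit 5790713) (nat_lit 505641) (nat_lit 48065352) (nat_lit 8902916) [(nat_lit 505641), (nat_lit 0), (nat_lit 6601055)]) (PF.cons (PF.leaf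 (nat_lit 6133265) (nat_lit 515957) (nat_lit 47486700) (nat_lit 8890255) [(nat_lit 515957), (nat_lit 0), (nat_lit 6604201)]) (PF.cons (PF.leaf (nat_lit 6482479) (nat_lit 525337) (nat_lit 46901832) (nat_lit 8874390)
 [(nat_lit 525337), (nat_lit 0), (nat_lit 6604556)]) (PF.cons (PF.leaf (nat_lit 6837205) (nat_lit 533860) (nat_lit 46312691) (nat_lit 8855373) [(nat_lit 533860), (nat_lit 0), (nat_lit 6602139)]) (PF.cons (PF.leaf (nat_lit 7196467) (nat_lit 541595) (nat_lit 45720978) (nat_lit 8833285) [(nat_lit 541595), (nat_lit 0), (nat_lit 6596998)]) (PF.cons PF.nil (PF.cons PF.nil PF.nil)))))))))))))) (PF.cons (PF.cons (PF.leaf (nat_lit 4531701) (nat_lit 1973915) (nat_lit 49660749) (nat_lit 8910146) [(nat_lit 0), (nat_lit 1973915), (nat_lit 6564001)]) (PF.cons (PF.leaf (nat_lit 4811306) (nat_lit 461736) (nat_lit 49168640) (nat_lit 8907292) [(nat_lit 461736), (nat_lit 1996876), (nat_lit 6574267)]) (PF.cons (PF.leaf (nat_lit 5107368) (nat_lit 476353) (nat_lit 48653229) (nat_lit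 8901748) [(nat_lit 476353), (nat_lit 2018543), (nat_lit 6582584)]) (PF.cons (PF.leaf (nat_lit 5416635) (nat_lit 489423) (nat_lit 48119811) (nat_lit 8893338) [(nat_lit 489423), (nat_lit 2038721), (nat_lit 6588671)]) (PF.cons (PF.leaf (nat_lit 5736955) (nat_lit 501182) (nat_lit 47572459) (nat_lit 8881958) [(nat_lit 501182), (nat_lit 2057317), (nat_lit 6592347)]) (PF.cons (PF.leaf (nat_lit 6066536) (nat_lit 511801) (nat_lit
 47014437) (nat_lit 8867565) [(nat_lit 511801), (nat_lit 2074293), (nat_lit 6593509)]) (PF.cons (PF.leaf (nat_lit 6403886) (nat_lit 521408) (nat_lit 46448443) (nat_lit 8850160) [(nat_lit 521408), (nat_lit 2089648), (nat_lit 6592108)]) (PF.cons (PF.leaf (nat_lit 6747724) (nat_lit 530105) (nat_lit 45876749) (nat_lit 8829783) [(nat_lit 530105), (nat_lit 2103405), (nat_lit 6588138)]) (PF.cons (PF.leaf (nat_lit 7096920) (nat_lit 537973) (nat_lit 45301298) (nat_lit 8806498) [(nat_lit 537973), (nat_lit 2115600), (nat_lit 6581627)]) (PF.cons (PF.leaf (nat_lit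 7450481) (nat_lit 545082) (nat_lit 44723766) (nat_lit 8780395) [(nat_lit 545082), (nat_lit 2126283), (nat_lit 6572627)]) (PF.cons PF.nil (PF.cons PF.nil PF.nil)))))))))))) (PF.cons (PF.cons (PF.leaf (nat_lit 5395946) (nat_lit 2040455) (nat_lit 47575454) (nat_lit 8871723) [(nat_lit 0), (nat_lit 2040455), (nat_lit 6580724)]) (PF.cons (PF.leaf (nat_lit 5698160) (nat_lit 495430) (nat_lit 47057270) (nat_lit 8858691) [(nat_lit 495430), (nat_lit 2057585), (nat_lit 6582250)]) (PF.cons (PF.leaf (nat_lit 6012307) (nat_lit 506618) (nat_lit 46524514) (nat_lit 8842819) [(nat_lit 506618), (nat_lit 2073355), (nat_lit 6581530)]) (PF.cons (PF.leaf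
 (nat_lit 6335983) (nat_lit 516646) (nat_lit 45980897) (nat_lit 8824097) [(nat_lit 516646), (nat_lit 2087700), (nat_lit 6578478)]) (PF.cons (PF.leaf (nat_lit 6667514) (nat_lit 525660) (nat_lit 45429360) (nat_lit 8802554) [(nat_lit 525660), (nat_lit 2100600), (nat_lit 6573057)]) (PF.cons (PF.leaf (nat_lit 7005526) (nat_lit 533773) (nat_lit 44872305) (nat_lit 8778247) [(nat_lit 533773), (nat_lit 2112061), (nat_lit 6565271)]) (PF.cons (PF.leaf (nat_lit 7348837) (nat_lit 541074) (nat_lit 44311736) (nat_lit 8751254) [(nat_lit 541074), (nat_lit 2122110), (nat_lit 6555154)]) (PF.cons (PF.leaf (nat_lit 7696428) (nat_lit 547637) (nat_lit 43749347) (nat_lit 8721673) [(nat_lit 547637), (nat_lit 2130785), (nat_lit 6542761)]) (PF.cons PF.nil (PF.cons PF.nil PF.nil)))))))))) (PF.cons (PF.cons (PF.leaf (nat_lit 6283321) (nat_lit 2085623) (nat_lit 45492660) (nat_lit 8795802) [(nat_lit 0), (nat_lit 2085623), (nat_lit 6563481)]) (PF.cons (PF.leaf (nat_lit 6599806) (nat_lit 520264) (nat_lit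 44965621) (nat_lit 8773368) [(nat_lit 520264), (nat_lit 2097606), (nat_lit 6556737)]) (PF.cons (PF.leaf (nat_lit 6924832) (nat_lit 528800) (nat_lit 44430232) (nat_lit 8748271) [(nat_lit 528800), (nat_lit 2108303),
 (nat_lit 6547797)]) (PF.cons (PF.leaf (nat_lit 7256517) (nat_lit 536428) (nat_lit 43889145) (nat_lit 8720590) [(nat_lit 536428), (nat_lit 2117706), (nat_lit 6536672)]) (PF.cons (PF.leaf (nat_lit 7593581) (nat_lit 543247) (nat_lit 43344503) (nat_lit 8690417) [(nat_lit 543247), (nat_lit 2125831), (nat_lit 6523404)]) (PF.cons (PF.leaf (nat_lit 7934942) (nat_lit 549339) (nat_lit 42798075) (nat_lit 8657860) [(nat_lit 549339), (nat_lit 2132708), (nat_lit 6508051)]) (PF.cons PF.nil (PF.cons PF.nil PF.nil)))))))) (PF.cons (PF.cons (PF.leaf (nat_lit 7176925) (nat_lit 2113097) (nat_lit 43451372) (nat_lit 8688057) [(nat_lit 0), (nat_lit 2113097), (nat_lit 6516994)]) (PF.cons (PF.leaf (nat_lit 7501379) (nat_lit 538140) (nat_lit 42927528) (nat_lit 8657534) [(nat_lit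 538140), (nat_lit 2120656), (nat_lit 6502982)]) (PF.cons (PF.leaf (nat_lit 7831777) (nat_lit 544563) (nat_lit 42399776) (nat_lit 8624681) [(nat_lit 544563), (nat_lit 2127059), (nat_lit 6486989)]) (PF.cons (PF.leaf (nat_lit 8166618) (nat_lit 550258) (nat_lit 41870030) (nat_lit 8589616) [(nat_lit 550258), (nat_lit 2132328), (nat_lit 6469077)]) (PF.cons (PF.leaf (nat_lit 8504904) (nat_lit 555299) (nat_lit 41339854) (nat_lit 8552459)
 [(nat_lit 555299), (nat_lit 2136494), (nat_lit 6449322)]) (PF.cons PF.nil PF.nil)))))) (PF.cons (PF.cons (PF.leaf (nat_lit 8064415) (nat_lit 2126054) (nat_lit 41477430) (nat_lit 8554659) [(nat_lit 0), (nat_lit 2126054), (nat_lit 6446451)]) (PF.cons (PF.leaf (nat_lit 8392085) (nat_lit 550450) (nat_lit 40965044) (nat_lit 8517528) [(nat_lit 550450), (nat_lit 2129886), (nat_lit 6426356)]) (PF.cons (PF.leaf (nat_lit 8723698) (nat_lit 555166) (nat_lit 40451895) (nat_lit 8478456) [(nat_lit 555166), (nat_lit 2132712), (nat_lit 6404564)]) (PF.cons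 PF.nil PF.nil)))) (PF.cons (PF.cons (PF.leaf (nat_lit 8936964) (nat_lit 2127235) (nat_lit 39587050) (nat_lit 8401508) [(nat_lit 0), (nat_lit 2127235), (nat_lit 6356841)]) (PF.cons PF.nil PF.nil)) (PF.cons PF.nil (PF.cons PF.nil (PF.cons PF.nil PF.nil)))))))))) (PF.cons (PF.cons (PF.cons (PF.leaf (nat_lit 5497058) (nat_lit 6482124) (nat_lit 45427736) (nat_lit 8716827) [(nat_lit 0), (nat_lit 0), (nat_lit 6482124)]) (PF.cons (PF.leaf (nat_lit 5773300) (nat_lit 475056) (nat_lit 44974533) (nat_lit 8700133) [(nat_lit 475056), (nat_lit 0), (nat_lit 6479544)]) (PF.cons (PF.leaf (nat_lit 6064184) (nat_lit 487840) (nat_lit 44502192) (nat_lit 8680838)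
 [(nat_lit 487840), (nat_lit 0), (nat_lit 6475050)]) (PF.cons (PF.leaf (nat_lit 6366479) (nat_lit 499049) (nat_lit 44015572) (nat_lit 8658981) [(nat_lit 499049), (nat_lit 0), (nat_lit 6468555)]) (PF.cons (PF.leaf (nat_lit 6678126) (nat_lit 508954) (nat_lit 43518336) (nat_lit 8634617) [(nat_lit 508954), (nat_lit 0), (nat_lit 6460020)]) (PF.cons (PF.leaf (nat_lit 6997422) (nat_lit 517748) (nat_lit 43013364) (nat_lit 8607815) [(nat_lit 517748), (nat_lit 0), (nat_lit 6449444)]) (PF.cons (PF.leaf (nat_lit 7323000) (nat_lit 525577) (nat_lit 42502986) (nat_lit 8578659) [(nat_lit 525577), (nat_lit 0), (nat_lit 6436852)]) (PF.cons (PF.leaf (nat_lit 7653685) (nat_lit 532552) (nat_lit 41989128) (nat_lit 8547241) [(nat_lit 532552), (nat_lit 0), (nat_lit 6422287)]) (PF.cons (PF.leaf (nat_lit 7988493) (nat_lit 538765) (nat_lit 41473405) (nat_lit 8513664) [(nat_lit 538765), (nat_lit 0), (nat_lit 6405809)]) (PF.cons PF.nil (PF.cons PF.nil (PF.cons PF.nil PF.nil)))))))))))) (PF.cons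 (PF.cons (PF.leaf (nat_lit 6327002) (nat_lit 2047876) (nat_lit 43533709) (nat_lit 8626548) [(nat_lit 0), (nat_lit 2047876), (nat_lit 6450338)]) (PF.cons (PF.leaf (nat_lit 6621369) (nat_lit 501997) (nat_lit 43063834)
 (nat_lit 8601951) [(nat_lit 501997), (nat_lit 2059166), (nat_lit 6440931)]) (PF.cons (PF.leaf (nat_lit 6926115) (nat_lit 511515) (nat_lit 42582451) (nat_lit 8574915) [(nat_lit 511515), (nat_lit 2069231), (nat_lit 6429592)]) (PF.cons (PF.leaf (nat_lit 7238928) (nat_lit 519894) (nat_lit 42092855) (nat_lit 8545546) [(nat_lit 519894), (nat_lit 2078054), (nat_lit 6416336)]) (PF.cons (PF.leaf (nat_lit 7558262) (nat_lit 527300) (nat_lit 41597610) (nat_lit 8513950) [(nat_lit 527300), (nat_lit 2085647), (nat_lit 6401201)]) (PF.cons (PF.leaf (nat_lit 7882848) (nat_lit 533856) (nat_lit 41098773) (nat_lit 8480236) [(nat_lit 533856), (nat_lit 2092042), (nat_lit 6384238)]) (PF.cons (PF.leaf (nat_lit 8211616) (nat_lit 539660) (nat_lit 40598029) (nat_lit 8444515) [(nat_lit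 539660), (nat_lit 2097277), (nat_lit 6365512)]) (PF.cons PF.nil (PF.cons PF.nil (PF.cons PF.nil PF.nil)))))))))) (PF.cons (PF.cons (PF.leaf (nat_lit 7170401) (nat_lit 2072542) (nat_lit 41664425) (nat_lit 8510313) [(nat_lit 0), (nat_lit 2072542), (nat_lit 6394494)]) (PF.cons (PF.leaf (nat_lit 7475645) (nat_lit 521103) (nat_lit 41191638) (nat_lit 8478850) [(nat_lit 521103), (nat_lit 2079652), (nat_lit 6378958)]) (PF.cons (PF.leaf
 (nat_lit 7788208) (nat_lit 528186) (nat_lit 40712571) (nat_lit 8445250) [(nat_lit 528186), (nat_lit 2085656), (nat_lit 6361651)]) (PF.cons (PF.leaf (nat_lit 8106317) (nat_lit 534407) (nat_lit 40229519) (nat_lit 8409644) [(nat_lit 534407), (nat_lit 2090575), (nat_lit 6342638)]) (PF.cons (PF.leaf (nat_lit 8428796) (nat_lit 539873) (nat_lit 39744306) (nat_lit 8372156) [(nat_lit 539873), (nat_lit 2094439), (nat_lit 6321988)]) (PF.cons (PF.leaf (nat_lit 8754701) (nat_lit 544670) (nat_lit 39258416) (nat_lit 8332910) [(nat_lit 544670), (nat_lit 2097286),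 (nat_lit 6299779)]) (PF.cons PF.nil (PF.cons PF.nil PF.nil)))))))) (PF.cons (PF.cons (PF.leaf (nat_lit 8013902) (nat_lit 2083652) (nat_lit 39847542) (nat_lit 8373037) [(nat_lit 0), (nat_lit 2083652), (nat_lit 6318637)]) (PF.cons (PF.leaf (nat_lit 8324750) (nat_lit 534249) (nat_lit 39381054) (nat_lit 8335929) [(nat_lit 534249), (nat_lit 2087256), (nat_lit 6297904)]) (PF.cons (PF.leaf (nat_lit 8640621) (nat_lit 539449) (nat_lit 38911907) (nat_lit 8297033) [(nat_lit 539449), (nat_lit 2089899), (nat_lit 6275638)]) (PF.cons (PF.leaf (nat_lit 8960144) (nat_lit 543975) (nat_lit 38441725) (nat_lit 8256483) [(nat_lit 543975), (nat_lit 2091611),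
 (nat_lit 6251920)]) (PF.cons PF.nil (PF.cons PF.nil PF.nil)))))) (PF.cons (PF.cons (PF.leaf (nat_lit 8848032) (nat_lit 2083837) (nat_lit 38100316) (nat_lit 8219528) [(nat_lit 0), (nat_lit 2083837), (nat_lit 6226809)]) (PF.cons (PF.leaf (nat_lit 9160589) (nat_lit 542741) (nat_lit 37646203) (nat_lit 8177990) [(nat_lit 542741), (nat_lit 2084543), (nat_lit 6201852)]) (PF.cons PF.nil (PF.cons PF.nil PF.nil)))) (PF.cons (PF.cons (PF.leaf (nat_lit 9666169) (nat_lit 2075289) (nat_lit 36432795) (nat_lit 8054139) [(nat_lit 0), (nat_lit 2075289), (nat_lit 6122714)]) (PF.cons PF.nil PF.nil)) (PF.cons PF.nil (PF.cons PF.nil PF.nil)))))))) (PF.cons (PF.cons (PF.cons (PF.leaf (nat_lit 7167568) (nat_lit 6268300) (nat_lit 39974630) (nat_lit 8329279) [(nat_lit 0), (nat_lit 0), (nat_lit 6268300)]) (PF.cons (PF.leaf (nat_lit 7452555) (nat_lit 501716) (nat_lit 39552574) (nat_lit 8298040) [(nat_lit 501716), (nat_lit 0), (nat_lit 6252160)]) (PF.cons (PF.leaf (nat_lit 7746748) (nat_lit 509911)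 (nat_lit 39121198) (nat_lit 8264712) [(nat_lit 509911), (nat_lit 0), (nat_lit 6234359)]) (PF.cons (PF.leaf (nat_lit 8047919) (nat_lit 517009) (nat_lit 38683398) (nat_lit 8229461) [(nat_lit 517009), (nat_lit 0),
 (nat_lit 6214974)]) (PF.cons (PF.leaf (nat_lit 8354618) (nat_lit 523182) (nat_lit 38241399) (nat_lit 8192435) [(nat_lit 523182), (nat_lit 0), (nat_lit 6194083)]) (PF.cons (PF.leaf (nat_lit 8665707) (nat_lit 528559) (nat_lit 37796962) (nat_lit 8153767) [(nat_lit 528559), (nat_lit 0), (nat_lit 6171761)]) (PF.cons (PF.leaf (nat_lit 8980193) (nat_lit 533242) (nat_lit 37351512) (nat_lit 8113580) [(nat_lit 533242), (nat_lit 0), (nat_lit 6148089)]) (PF.cons PF.nil PF.nil)))))))) (PF.cons (PF.cons (PF.leaf (nat_lit 7967743) (nat_lit 2039483) (nat_lit 38308892) (nat_lit 8191283) [(nat_lit 0), (nat_lit 2039483), (nat_lit 6189717)]) (PF.cons (PF.leaf (nat_lit 8261301) (nat_lit 516573) (nat_lit 37887038) (nat_lit 8155004) [(nat_lit 516573), (nat_lit 2043199), (nat_lit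 6168999)]) (PF.cons (PF.leaf (nat_lit 8561257) (nat_lit 522540) (nat_lit 37460270) (nat_lit 8116987) [(nat_lit 522540), (nat_lit 2045962), (nat_lit 6146836)]) (PF.cons (PF.leaf (nat_lit 8865965) (nat_lit 527694) (nat_lit 37030572) (nat_lit 8077390) [(nat_lit 527694), (nat_lit 2047806), (nat_lit 6123320)]) (PF.cons (PF.leaf (nat_lit 9174320) (nat_lit 532145) (nat_lit 36599504) (nat_lit 8036349) [(nat_lit 532145), (nat_lit
 2048771), (nat_lit 6098535)]) (PF.cons PF.nil PF.nil)))))) (PF.cons (PF.cons (PF.leaf (nat_lit 8764556) (nat_lit 2039616) (nat_lit 36697587) (nat_lit 8039568) [(nat_lit 0), (nat_lit 2039616), (nat_lit 6097474)]) (PF.cons (PF.leaf (nat_lit 9062161) (nat_lit 526288) (nat_lit 36283126) (nat_lit 7999328) [(nat_lit 526288), (nat_lit 2040523), (nat_lit 6073007)]) (PF.cons (PF.leaf (nat_lit 9364135) (nat_lit 530569) (nat_lit 35866741) (nat_lit 7957692) [(nat_lit 530569), (nat_lit 2040620), (nat_lit 6047332)]) (PF.cons PF.nil PF.nil)))) (PF.cons (PF.cons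 (PF.leaf (nat_lit 9550508) (nat_lit 2031432) (nat_lit 35152562) (nat_lit 7877844) [(nat_lit 0), (nat_lit 2031432), (nat_lit 5994703)]) (PF.cons (PF.leaf (nat_lit 9848887) (nat_lit 532065) (nat_lit 34750101) (nat_lit 7834638) [(nat_lit 532065), (nat_lit 2030052), (nat_lit 5967283)]) PF.nil)) (PF.cons PF.nil (PF.cons PF.nil PF.nil)))))) (PF.cons (PF.cons (PF.cons (PF.leaf (nat_lit 8689225) (nat_lit 5969221) (nat_lit 35369931) (nat_lit 7861994) [(nat_lit 0), (nat_lit 0), (nat_lit 5969221)]) (PF.cons (PF.leaf (nat_lit 8971246) (nat_lit 508662) (nat_lit 34994004) (nat_lit 7823550) [(nat_lit 508662), (nat_lit 0), (nat_lit 5945648)]) (PF.cons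
 (PF.leaf (nat_lit 9259000) (nat_lit 513762) (nat_lit 34614091) (nat_lit 7783672) [(nat_lit 513762), (nat_lit 0), (nat_lit 5920880)]) (PF.cons (PF.leaf (nat_lit 9550898) (nat_lit 518097) (nat_lit 34231913) (nat_lit 7742526) [(nat_lit 518097), (nat_lit 0), (nat_lit 5895020)]) (PF.cons PF.nil (PF.cons PF.nil PF.nil)))))) (PF.cons (PF.cons (PF.leaf (nat_lit 9443339) (nat_lit 1987414) (nat_lit 33941092) (nat_lit 7705122) [(nat_lit 0), (nat_lit 1987414), (nat_lit 5868795)]) (PF.cons (PF.leaf (nat_lit 9728379) (nat_lit 515866) (nat_lit 33572621) (nat_lit 7663881) [(nat_lit 515866), (nat_lit 1986485), (nat_lit 5842489)]) (PF.cons (PF.leaf (nat_lit 10017329) (nat_lit 519448) (nat_lit 33202668) (nat_lit 7621525) [(nat_lit 519448), (nat_lit 1984866), (nat_lit 5815213)]) (PF.cons PF.nil PF.nil)))) (PF.cons (PF.cons (PF.leaf (nat_lit 10186101) (nat_lit 1973815) (nat_lit 32572785) (nat_lit 7542346) [(nat_lit 0), (nat_lit 1973815), (nat_lit 5761512)]) (PF.cons PF.nil PF.nil)) (PF.cons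 PF.nil PF.nil)))) (PF.cons (PF.cons (PF.cons (PF.leaf (nat_lit 10062056) (nat_lit 5641561) (nat_lit 31521500) (nat_lit 7379504) [(nat_lit 0), (nat_lit 0), (nat_lit 5641561)]) (PF.cons (PF.leaf (nat_lit 10335334)
 (nat_lit 504036) (nat_lit 31193164) (nat_lit 7338552) [(nat_lit 504036), (nat_lit 0), (nat_lit 5614611)]) PF.nil)) (PF.cons PF.nil PF.nil)) (PF.cons PF.nil (PF.cons PF.nil (PF.cons PF.nil (PF.cons PF.nil PF.nil))))))))))

def p12_18_1_0 : pfC (piC [(nat_lit 38632330), (nat_lit 24534081), (nat_lit 15702173)] (nat_lit 11488537)) p12_18_1 (nat_lit 3) (nat_lit 0) (nat_lit 1) = true := by decide +kernel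
def p12_18_1_1 : pfC (piC [(nat_lit 38632330), (nat_lit 24534081), (nat_lit 15702173)] (nat_lit 11488537)) p12_18_1 (nat_lit 3) (nat_lit 1) (nat_lit 2) = true := by decide +kernel
def p12_18_1_2 : pfC (piC [(nat_lit 38632330), (nat_lit 24534081), (nat_lit 15702173)] (nat_lit 11488537)) p12_18_1 (nat_lit 3) (nat_lit 2) (nat_lit 3) = true := by decide +kernel
def p12_18_1_3 : pfC (piC [(nat_lit 38632330), (nat_lit 24534081), (nat_lit 15702173)] (nat_lit 11488537)) p12_18_1 (nat_lit 3) (nat_lit 3) (nat_lit 4) = true := by decide +kernel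
def p12_18_1_4 : pfC (piC [(nat_lit 38632330), (nat_lit 24534081), (nat_lit 15702173)] (nat_lit 11488537)) p12_18_1 (nat_lit 3) (nat_lit 4) (nat_lit 5) = true := by decide +kernel
def p12_18_1_5 : pfC (piC [(nat_lit 38632330), (nat_lit 24534081), (nat_lit 15702173)] (nat_lit 11488537)) p12_18_1 (nat_lit 3) (nat_lit 5) (nat_lit 6) = true := by decide +kernel
def p12_18_1_6 : pfC (piC [(nat_lit 38632330), (nat_lit 24534081), (nat_lit 15702173)] (nat_lit 11488537)) p12_18_1 (nat_lit 3) (nat_lit 6) (nat_lit 7) = true := by decide +kernel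
def p12_18_1_7 : pfC (piC [(nat_lit 38632330), (nat_lit 24534081), (nat_lit 15702173)] (nat_lit 11488537)) p12_18_1 (nat_lit 3) (nat_lit 7) (nat_lit 8) = true := by decide +kernel
def p12_18_1_8 : pfC (piC [(nat_lit 38632330), (nat_lit 24534081), (nat_lit 15702173)] (nat_lit 11488537)) p12_18_1 (nat_lit 3) (nat_lit 8) (nat_lit 9) = true := by decide +kernel
def p12_18_1_9 : pfC (piC [(nat_lit 38632330), (nat_lit 24534081), (nat_lit 15702173)] (nat_lit 11488537)) p12_18_1 (nat_lit 3) (nat_lit 9) (nat_lit 10) = true := by decide +kernel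
def p12_18_1_10 : pfC (piC [(nat_lit 38632330), (nat_lit 24534081), (nat_lit 15702173)] (nat_lit 11488537)) p12_18_1 (nat_lit 3) (nat_lit 10) (nat_lit 11) = true := by decide +kernel
def p12_18_1_11 : pfC (piC [(nat_lit 38632330), (nat_lit 24534081), (nat_lit 15702173)] (nat_lit 11488537)) p12_18_1 (nat_lit 3) (nat_lit 11) (nat_lit 12) = true := by decide +kernel
def p12_18_1_12 : pfC (piC [(nat_lit 38632330), (nat_lit 24534081), (nat_lit 15702173)] (nat_lit 11488537)) p12_18_1 (nat_lit 3) (nat_lit 12) (nat_lit 13) = true := by decide +kernel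
def p12_18_1_13 : pfC (piC [(nat_lit 38632330), (nat_lit 24534081), (nat_lit 15702173)] (nat_lit 11488537)) p12_18_1 (nat_lit 3) (nat_lit 13) (nat_lit 14) = true := by decide +kernel
def p12_18_1_14 : pfC (piC [(nat_lit 38632330), (nat_lit 24534081), (nat_lit 15702173)] (nat_lit 11488537)) p12_18_1 (nat_lit 3) (nat_lit 14) (nat_lit 15) = true := by decide +kernel
def p12_18_1_15 : pfC (piC [(nat_lit 38632330), (nat_lit 24534081), (nat_lit 15702173)] (nat_lit 11488537)) p12_18_1 (nat_lit 3) (nat_lit 15) (nat_lit 16) = true := by decide +kernel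
def p12_18_1_16 : pfC (piC [(nat_lit 38632330), (nat_lit 24534081), (nat_lit 15702173)] (nat_lit 11488537)) p12_18_1 (nat_lit 3) (nat_lit 16) (nat_lit 17) = true := by decide +kernel
def p12_18_1_17 : pfC (piC [(nat_lit 38632330), (nat_lit 24534081), (nat_lit 15702173)] (nat_lit 11488537)) p12_18_1 (nat_lit 3) (nat_lit 17) (nat_lit 18) = true := by decide +kernel
def p12_18_1_18 : pfC (piC [(nat_lit 38632330), (nat_lit 24534081), (nat_lit 15702173)] (nat_lit 11488537)) p12_18_1 (nat_lit 3) (nat_lit 18) (nat_lit 19) = true := by decide +kernel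
def p12_18_1_19 : pfC (piC [(nat_lit 38632330), (nat_lit 24534081), (nat_lit 15702173)] (nat_lit 11488537)) p12_18_1 (nat_lit 3) (nat_lit 19) (nat_lit 20) = true := by decide +kernel
def p12_18_1_20 : pfC (piC [(nat_lit 38632330), (nat_lit 24534081), (nat_lit 15702173)] (nat_lit 11488537)) p12_18_1 (nat_lit 3) (nat_lit 20) (nat_lit 21) = true := by decide +kernel
def p12_18_1_21 : pfC (piC [(nat_lit 38632330), (nat_lit 24534081), (nat_lit 15702173)] (nat_lit 11488537)) p12_18_1 (nat_lit 3) (nat_lit 21) (nat_lit 22) = true := by decide +kernel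
def p12_18_1_22 : pfC (piC [(nat_lit 38632330), (nat_lit 24534081), (nat_lit 15702173)] (nat_lit 11488537)) p12_18_1 (nat_lit 3) (nat_lit 22) (nat_lit 23) = true := by decide +kernel
def p12_18_1_23 : pfC (piC [(nat_lit 38632330), (nat_lit 24534081), (nat_lit 15702173)] (nat_lit 11488537)) p12_18_1 (nat_lit 3) (nat_lit 23) (nat_lit 24) = true := by decide +kernel
def p12_18_1_24 : pfC (piC [(nat_lit 38632330), (nat_lit 24534081), (nat_lit 15702173)] (nat_lit 11488537)) p12_18_1 (nat_lit 3) (nat_lit 24) (nat_lit 25) = true := by decide +kernel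
def p12_18_1_25 : pfC (piC [(nat_lit 38632330), (nat_lit 24534081), (nat_lit 15702173)] (nat_lit 11488537)) p12_18_1 (nat_lit 3) (nat_lit 25) (nat_lit 26) = true := by decide +kernel
def p12_18_1_26 : pfC (piC [(nat_lit 38632330), (nat_lit 24534081), (nat_lit 15702173)] (nat_lit 11488537)) p12_18_1 (nat_lit 3) (nat_lit 26) (nat_lit 27) = true := by decide +kernel
def p12_18_1_27 : pfC (piC [(nat_lit 38632330), (nat_lit 24534081), (nat_lit 15702173)] (nat_lit 11488537)) p12_18_1 (nat_lit 3) (nat_lit 27) (nat_lit 28) = true := by decide +kernel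
def p12_18_1_28 : pfC (piC [(nat_lit 38632330), (nat_lit 24534081), (nat_lit 15702173)] (nat_lit 11488537)) p12_18_1 (nat_lit 3) (nat_lit 28) (nat_lit 29) = true := by decide +kernel
def p12_18_1_29 : pfC (piC [(nat_lit 38632330), (nat_lit 24534081), (nat_lit 15702173)] (nat_lit 11488537)) p12_18_1 (nat_lit 3) (nat_lit 29) (nat_lit 30) = true := by decide +kernel
def p12_18_1_30 : pfC (piC [(nat_lit 38632330), (nat_lit 24534081), (nat_lit 15702173)] (nat_lit 11488537)) p12_18_1 (nat_lit 3) (nat_lit 30) (nat_lit 31) = true := by decide +kernel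
def p12_18_1_31 : pfC (piC [(nat_lit 38632330), (nat_lit 24534081), (nat_lit 15702173)] (nat_lit 11488537)) p12_18_1 (nat_lit 3) (nat_lit 31) (nat_lit 32) = true := by decide +kernel
def p12_18_1_32 : pfC (piC [(nat_lit 38632330), (nat_lit 24534081), (nat_lit 15702173)] (nat_lit 11488537)) p12_18_1 (nat_lit 3) (nat_lit 32) (nat_lit 33) = true := by decide +kernel
def p12_18_1_33 : pfC (piC [(nat_lit 38632330), (nat_lit 24534081), (nat_lit 15702173)] (nat_lit 11488537)) p12_18_1 (nat_lit 3) (nat_lit 33) (nat_lit 34) = true := by decide +kernel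
def p12_18_1_34 : pfC (piC [(nat_lit 38632330), (nat_lit 24534081), (nat_lit 15702173)] (nat_lit 11488537)) p12_18_1 (nat_lit 3) (nat_lit 34) (nat_lit 35) = true := by decide +kernel
def p12_18_1_35 : pfC (piC [(nat_lit 38632330), (nat_lit 24534081), (nat_lit 15702173)] (nat_lit 11488537)) p12_18_1 (nat_lit 3) (nat_lit 35) (nat_lit 36) = true := by decide +kernel
def p12_18_1_36 : pfC (piC [(nat_lit 38632330), (nat_lit 24534081), (nat_lit 15702173)] (nat_lit 11488537)) p12_18_1 (nat_lit 3) (nat_lit 36) (nat_lit 37) = true := by decide +kernel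
def p12_18_1_37 : pfC (piC [(nat_lit 38632330), (nat_lit 24534081), (nat_lit 15702173)] (nat_lit 11488537)) p12_18_1 (nat_lit 3) (nat_lit 37) (nat_lit 38) = true := by decide +kernel
def p12_18_1_38 : pfC (piC [(nat_lit 38632330), (nat_lit 24534081), (nat_lit 15702173)] (nat_lit 11488537)) p12_18_1 (nat_lit 3) (nat_lit 38) (nat_lit 39) = true := by decide +kernel
def p12_18_1_39 : pfC (piC [(nat_lit 38632330), (nat_lit 24534081), (nat_lit 15702173)] (nat_lit 11488537)) p12_18_1 (nat_lit 3) (nat_lit 39) (nat_lit 40) = true := by decide +kernel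
def p12_18_1_40 : pfC (piC [(nat_lit 38632330), (nat_lit 24534081), (nat_lit 15702173)] (nat_lit 11488537)) p12_18_1 (nat_lit 3) (nat_lit 40) (nat_lit 41) = true := by decide +kernel
def p12_18_1_41 : pfC (piC [(nat_lit 38632330), (nat_lit 24534081), (nat_lit 15702173)] (nat_lit 11488537)) p12_18_1 (nat_lit 3) (nat_lit 41) (nat_lit 42) = true := by decide +kernel
def p12_18_1_42 : pfC (piC [(nat_lit 38632330), (nat_lit 24534081), (nat_lit 15702173)] (nat_lit 11488537)) p12_18_1 (nat_lit 3) (nat_lit 42) (nat_lit 43) = true := by decide +kernel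
def p12_18_1_43 : pfC (piC [(nat_lit 38632330), (nat_lit 24534081), (nat_lit 15702173)] (nat_lit 11488537)) p12_18_1 (nat_lit 3) (nat_lit 43) (nat_lit 44) = true := by decide +kernel
def p12_18_1_44 : pfC (piC [(nat_lit 38632330), (nat_lit 24534081), (nat_lit 15702173)] (nat_lit 11488537)) p12_18_1 (nat_lit 3) (nat_lit 44) (nat_lit 45) = true := by decide +kernel
def p12_18_1_45 : pfC (piC [(nat_lit 38632330), (nat_lit 24534081), (nat_lit 15702173)] (nat_lit 11488537)) p12_18_1 (nat_lit 3) (nat_lit 45) (nat_lit 46) = true := by decide +kernel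
def p12_18_1_46 : pfC (piC [(nat_lit 38632330), (nat_lit 24534081), (nat_lit 15702173)] (nat_lit 11488537)) p12_18_1 (nat_lit 3) (nat_lit 46) (nat_lit 47) = true := by decide +kernel
def p12_18_1_47 : pfC (piC [(nat_lit 38632330), (nat_lit 24534081), (nat_lit 15702173)] (nat_lit 11488537)) p12_18_1 (nat_lit 3) (nat_lit 47) (nat_lit 48) = true := by decide +kernel
def p12_18_1_48 : pfC (piC [(nat_lit 38632330), (nat_lit 24534081), (nat_lit 15702173)] (nat_lit 11488537)) p12_18_1 (nat_lit 3) (nat_lit 48) (nat_lit 49) = true := by decide +kernel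
def p12_18_1_49 : pfC (piC [(nat_lit 38632330), (nat_lit 24534081), (nat_lit 15702173)] (nat_lit 11488537)) p12_18_1 (nat_lit 3) (nat_lit 49) (nat_lit 50) = true := by decide +kernel
def p12_18_1_50 : pfC (piC [(nat_lit 38632330), (nat_lit 24534081), (nat_lit 15702173)] (nat_lit 11488537)) p12_18_1 (nat_lit 3) (nat_lit 50) (nat_lit 51) = true := by decide +kernel
def p12_18_1_51 : pfC (piC [(nat_lit 38632330), (nat_lit 24534081), (nat_lit 15702173)] (nat_lit 11488537)) p12_18_1 (nat_lit 3) (nat_lit 51) (nat_lit 52) = true := by decide +kernel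
def p12_18_1_52 : pfC (piC [(nat_lit 38632330), (nat_lit 24534081), (nat_lit 15702173)] (nat_lit 11488537)) p12_18_1 (nat_lit 3) (nat_lit 52) (nat_lit 53) = true := by decide +kernel
def p12_18_1_53 : pfC (piC [(nat_lit 38632330), (nat_lit 24534081), (nat_lit 15702173)] (nat_lit 11488537)) p12_18_1 (nat_lit 3) (nat_lit 53) (nat_lit 54) = true := by decide +kernel
def p12_18_1_54 : pfC (piC [(nat_lit 38632330), (nat_lit 24534081), (nat_lit 15702173)] (nat_lit 11488537)) p12_18_1 (nat_lit 3) (nat_lit 54) (nat_lit 55) = true := by decide +kernel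
def p12_18_1_55 : pfC (piC [(nat_lit 38632330), (nat_lit 24534081), (nat_lit 15702173)] (nat_lit 11488537)) p12_18_1 (nat_lit 3) (nat_lit 55) (nat_lit 56) = true := by decide +kernel
def p12_18_1_56 : pfC (piC [(nat_lit 38632330), (nat_lit 24534081), (nat_lit 15702173)] (nat_lit 11488537)) p12_18_1 (nat_lit 3) (nat_lit 56) (nat_lit 57) = true := by decide +kernel
def p12_18_1_57 : pfC (piC [(nat_lit 38632330), (nat_lit 24534081), (nat_lit 15702173)] (nat_lit 11488537)) p12_18_1 (nat_lit 3) (nat_lit 57) (nat_lit 58) = true := by decide +kernel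
def p12_18_1_58 : pfC (piC [(nat_lit 38632330), (nat_lit 24534081), (nat_lit 15702173)] (nat_lit 11488537)) p12_18_1 (nat_lit 3) (nat_lit 58) (nat_lit 59) = true := by decide +kernel
def p12_18_1_59 : pfC (piC [(nat_lit 38632330), (nat_lit 24534081), (nat_lit 15702173)] (nat_lit 11488537)) p12_18_1 (nat_lit 3) (nat_lit 59) (nat_lit 60) = true := by decide +kernel
def p12_18_1_60 : pfC (piC [(nat_lit 38632330), (nat_lit 24534081), (nat_lit 15702173)] (nat_lit 11488537)) p12_18_1 (nat_lit 3) (nat_lit 60) (nat_lit 61) = true := by decide +kernel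
def p12_18_1_61 : pfC (piC [(nat_lit 38632330), (nat_lit 24534081), (nat_lit 15702173)] (nat_lit 11488537)) p12_18_1 (nat_lit 3) (nat_lit 61) (nat_lit 62) = true := by decide +kernel
def p12_18_1_62 : pfC (piC [(nat_lit 38632330), (nat_lit 24534081), (nat_lit 15702173)] (nat_lit 11488537)) p12_18_1 (nat_lit 3) (nat_lit 62) (nat_lit 63) = true := by decide +kernel
def p12_18_1_63 : pfC (piC [(nat_lit 38632330), (nat_lit 24534081), (nat_lit 15702173)] (nat_lit 11488537)) p12_18_1 (nat_lit 3) (nat_lit 63) (nat_lit 64) = true := by decide +kernel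
def p12_18_1_64 : pfC (piC [(nat_lit 38632330), (nat_lit 24534081), (nat_lit 15702173)] (nat_lit 11488537)) p12_18_1 (nat_lit 3) (nat_lit 64) (nat_lit 65) = true := by decide +kernel
def p12_18_1_65 : pfC (piC [(nat_lit 38632330), (nat_lit 24534081), (nat_lit 15702173)] (nat_lit 11488537)) p12_18_1 (nat_lit 3) (nat_lit 65) (nat_lit 66) = true := by decide +kernel
def p12_18_1_66 : pfC (piC [(nat_lit 38632330), (nat_lit 24534081), (nat_lit 15702173)] (nat_lit 11488537)) p12_18_1 (nat_lit 3) (nat_lit 66) (nat_lit 67) = true := by decide +kernel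
def p12_18_1_67 : pfC (piC [(nat_lit 38632330), (nat_lit 24534081), (nat_lit 15702173)] (nat_lit 11488537)) p12_18_1 (nat_lit 3) (nat_lit 67) (nat_lit 68) = true := by decide +kernel
def p12_18_1_68 : pfC (piC [(nat_lit 38632330), (nat_lit 24534081), (nat_lit 15702173)] (nat_lit 11488537)) p12_18_1 (nat_lit 3) (nat_lit 68) (nat_lit 69) = true := by decide +kernel
def p12_18_1_69 : pfC (piC [(nat_lit 38632330), (nat_lit 24534081), (nat_lit 15702173)] (nat_lit 11488537)) p12_18_1 (nat_lit 3) (nat_lit 69) (nat_lit 70) = true := by decide +kernel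
def p12_18_1_70 : pfC (piC [(nat_lit 38632330), (nat_lit 24534081), (nat_lit 15702173)] (nat_lit 11488537)) p12_18_1 (nat_lit 3) (nat_lit 70) (nat_lit 71) = true := by decide +kernel
def p12_18_1_71 : pfC (piC [(nat_lit 38632330), (nat_lit 24534081), (nat_lit 15702173)] (nat_lit 11488537)) p12_18_1 (nat_lit 3) (nat_lit 71) (nat_lit 72) = true := by decide +kernel
def p12_18_1_72 : pfC (piC [(nat_lit 38632330), (nat_lit 24534081), (nat_lit 15702173)] (nat_lit 11488537)) p12_18_1 (nat_lit 3) (nat_lit 72) (nat_lit 73) = true := by decide +kernel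
def p12_18_1_73 : pfC (piC [(nat_lit 38632330), (nat_lit 24534081), (nat_lit 15702173)] (nat_lit 11488537)) p12_18_1 (nat_lit 3) (nat_lit 73) (nat_lit 74) = true := by decide +kernel
def p12_18_1_74 : pfC (piC [(nat_lit 38632330), (nat_lit 24534081), (nat_lit 15702173)] (nat_lit 11488537)) p12_18_1 (nat_lit 3) (nat_lit 74) (nat_lit 75) = true := by decide +kernel
def p12_18_1_75 : pfC (piC [(nat_lit 38632330), (nat_lit 24534081), (nat_lit 15702173)] (nat_lit 11488537)) p12_18_1 (nat_lit 3) (nat_lit 75) (nat_lit 76) = true := by decide +kernel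
def p12_18_1_76 : pfC (piC [(nat_lit 38632330), (nat_lit 24534081), (nat_lit 15702173)] (nat_lit 11488537)) p12_18_1 (nat_lit 3) (nat_lit 76) (nat_lit 77) = true := by decide +kernel
def p12_18_1_77 : pfC (piC [(nat_lit 38632330), (nat_lit 24534081), (nat_lit 15702173)] (nat_lit 11488537)) p12_18_1 (nat_lit 3) (nat_lit 77) (nat_lit 78) = true := by decide +kernel
def p12_18_1_78 : pfC (piC [(nat_lit 38632330), (nat_lit 24534081), (nat_lit 15702173)] (nat_lit 11488537)) p12_18_1 (nat_lit 3) (nat_lit 78) (nat_lit 79) = true := by decide +kernel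
def p12_18_1_79 : pfC (piC [(nat_lit 38632330), (nat_lit 24534081), (nat_lit 15702173)] (nat_lit 11488537)) p12_18_1 (nat_lit 3) (nat_lit 79) (nat_lit 80) = true := by decide +kernel
def p12_18_1_80 : pfC (piC [(nat_lit 38632330), (nat_lit 24534081), (nat_lit 15702173)] (nat_lit 11488537)) p12_18_1 (nat_lit 3) (nat_lit 80) (nat_lit 81) = true := by decide +kernel
def p12_18_1_81 : pfC (piC [(nat_lit 38632330), (nat_lit 24534081), (nat_lit 15702173)] (nat_lit 11488537)) p12_18_1 (nat_lit 3) (nat_lit 81) (nat_lit 82) = true := by decide +kernel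
def p12_18_1_82 : pfC (piC [(nat_lit 38632330), (nat_lit 24534081), (nat_lit 15702173)] (nat_lit 11488537)) p12_18_1 (nat_lit 3) (nat_lit 82) (nat_lit 83) = true := by decide +kernel
def p12_18_1_83 : pfC (piC [(nat_lit 38632330), (nat_lit 24534081), (nat_lit 15702173)] (nat_lit 11488537)) p12_18_1 (nat_lit 3) (nat_lit 83) (nat_lit 84) = true := by decide +kernel
def p12_18_1_84 : pfC (piC [(nat_lit 38632330), (nat_lit 24534081), (nat_lit 15702173)] (nat_lit 11488537)) p12_18_1 (nat_lit 3) (nat_lit 84) (nat_lit 85) = true := by decide +kernel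
def p12_18_1_85 : pfC (piC [(nat_lit 38632330), (nat_lit 24534081), (nat_lit 15702173)] (nat_lit 11488537)) p12_18_1 (nat_lit 3) (nat_lit 85) (nat_lit 86) = true := by decide +kernel
def p12_18_1_86 : pfC (piC [(nat_lit 38632330), (nat_lit 24534081), (nat_lit 15702173)] (nat_lit 11488537)) p12_18_1 (nat_lit 3) (nat_lit 86) (nat_lit 87) = true := by decide +kernel
def p12_18_1_87 : pfC (piC [(nat_lit 38632330), (nat_lit 24534081), (nat_lit 15702173)] (nat_lit 11488537)) p12_18_1 (nat_lit 3) (nat_lit 87) (nat_lit 88) = true := by decide +kernel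
def p12_18_1_88 : pfC (piC [(nat_lit 38632330), (nat_lit 24534081), (nat_lit 15702173)] (nat_lit 11488537)) p12_18_1 (nat_lit 3) (nat_lit 88) (nat_lit 89) = true := by decide +kernel
def p12_18_1_89 : pfC (piC [(nat_lit 38632330), (nat_lit 24534081), (nat_lit 15702173)] (nat_lit 11488537)) p12_18_1 (nat_lit 3) (nat_lit 89) (nat_lit 90) = true := by decide +kernel
def p12_18_1_90 : pfC (piC [(nat_lit 38632330), (nat_lit 24534081), (nat_lit 15702173)] (nat_lit 11488537)) p12_18_1 (nat_lit 3) (nat_lit 90) (nat_lit 91) = true := by decide +kernel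
def p12_18_1_91 : pfC (piC [(nat_lit 38632330), (nat_lit 24534081), (nat_lit 15702173)] (nat_lit 11488537)) p12_18_1 (nat_lit 3) (nat_lit 91) (nat_lit 92) = true := by decide +kernel
def p12_18_1_92 : pfC (piC [(nat_lit 38632330), (nat_lit 24534081), (nat_lit 15702173)] (nat_lit 11488537)) p12_18_1 (nat_lit 3) (nat_lit 92) (nat_lit 93) = true := by decide +kernel
def p12_18_1_93 : pfC (piC [(nat_lit 38632330), (nat_lit 24534081), (nat_lit 15702173)] (nat_lit 11488537)) p12_18_1 (nat_lit 3) (nat_lit 93) (nat_lit 94) = true := by decide +kernel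
def p12_18_1_94 : pfC (piC [(nat_lit 38632330), (nat_lit 24534081), (nat_lit 15702173)] (nat_lit 11488537)) p12_18_1 (nat_lit 3) (nat_lit 94) (nat_lit 95) = true := by decide +kernel
def p12_18_1_95 : pfC (piC [(nat_lit 38632330), (nat_lit 24534081), (nat_lit 15702173)] (nat_lit 11488537)) p12_18_1 (nat_lit 3) (nat_lit 95) (nat_lit 96) = true := by decide +kernel
def p12_18_1_96 : pfC (piC [(nat_lit 38632330), (nat_lit 24534081), (nat_lit 15702173)] (nat_lit 11488537)) p12_18_1 (nat_lit 3) (nat_lit 96) (nat_lit 97) = true := by decide +kernel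
def p12_18_1_97 : pfC (piC [(nat_lit 38632330), (nat_lit 24534081), (nat_lit 15702173)] (nat_lit 11488537)) p12_18_1 (nat_lit 3) (nat_lit 97) (nat_lit 98) = true := by decide +kernel
def p12_18_1_98 : pfC (piC [(nat_lit 38632330), (nat_lit 24534081), (nat_lit 15702173)] (nat_lit 11488537)) p12_18_1 (nat_lit 3) (nat_lit 98) (nat_lit 99) = true := by decide +kernel
def p12_18_1_99 : pfC (piC [(nat_lit 38632330), (nat_lit 24534081), (nat_lit 15702173)] (nat_lit 11488537)) p12_18_1 (nat_lit 3) (nat_lit 99) (nat_lit 100) = true := by decide +kernel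
def p12_18_1_100 : pfC (piC [(nat_lit 38632330), (nat_lit 24534081), (nat_lit 15702173)] (nat_lit 11488537)) p12_18_1 (nat_lit 3) (nat_lit 100) (nat_lit 101) = true := by decide +kernel
def p12_18_1_101 : pfC (piC [(nat_lit 38632330), (nat_lit 24534081), (nat_lit 15702173)] (nat_lit 11488537)) p12_18_1 (nat_lit 3) (nat_lit 101) (nat_lit 102) = true := by decide +kernel
def p12_18_1_102 : pfC (piC [(nat_lit 38632330), (nat_lit 24534081), (nat_lit 15702173)] (nat_lit 11488537)) p12_18_1 (nat_lit 3) (nat_lit 102) (nat_lit 103) = true := by decide +kernel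
def p12_18_1_103 : pfC (piC [(nat_lit 38632330), (nat_lit 24534081), (nat_lit 15702173)] (nat_lit 11488537)) p12_18_1 (nat_lit 3) (nat_lit 103) (nat_lit 104) = true := by decide +kernel
def p12_18_1_104 : pfC (piC [(nat_lit 38632330), (nat_lit 24534081), (nat_lit 15702173)] (nat_lit 11488537)) p12_18_1 (nat_lit 3) (nat_lit 104) (nat_lit 105) = true := by decide +kernel
def p12_18_1_105 : pfC (piC [(nat_lit 38632330), (nat_lit 24534081), (nat_lit 15702173)] (nat_lit 11488537)) p12_18_1 (nat_lit 3) (nat_lit 105) (nat_lit 106) = true := by decide +kernel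
def p12_18_1_106 : pfC (piC [(nat_lit 38632330), (nat_lit 24534081), (nat_lit 15702173)] (nat_lit 11488537)) p12_18_1 (nat_lit 3) (nat_lit 106) (nat_lit 107) = true := by decide +kernel
def p12_18_1_107 : pfC (piC [(nat_lit 38632330), (nat_lit 24534081), (nat_lit 15702173)] (nat_lit 11488537)) p12_18_1 (nat_lit 3) (nat_lit 107) (nat_lit 108) = true := by decide +kernel
def p12_18_1_108 : pfC (piC [(nat_lit 38632330), (nat_lit 24534081), (nat_lit 15702173)] (nat_lit 11488537)) p12_18_1 (nat_lit 3) (nat_lit 108) (nat_lit 109) = true := by decide +kernel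
def p12_18_1_109 : pfC (piC [(nat_lit 38632330), (nat_lit 24534081), (nat_lit 15702173)] (nat_lit 11488537)) p12_18_1 (nat_lit 3) (nat_lit 109) (nat_lit 110) = true := by decide +kernel
def p12_18_1_110 : pfC (piC [(nat_lit 38632330), (nat_lit 24534081), (nat_lit 15702173)] (nat_lit 11488537)) p12_18_1 (nat_lit 3) (nat_lit 110) (nat_lit 111) = true := by decide +kernel
def p12_18_1_111 : pfC (piC [(nat_lit 38632330), (nat_lit 24534081), (nat_lit 15702173)] (nat_lit 11488537)) p12_18_1 (nat_lit 3) (nat_lit 111) (nat_lit 112) = true := by decide +kernel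
def p12_18_1_112 : pfC (piC [(nat_lit 38632330), (nat_lit 24534081), (nat_lit 15702173)] (nat_lit 11488537)) p12_18_1 (nat_lit 3) (nat_lit 112) (nat_lit 113) = true := by decide +kernel
def p12_18_1_113 : pfC (piC [(nat_lit 38632330), (nat_lit 24534081), (nat_lit 15702173)] (nat_lit 11488537)) p12_18_1 (nat_lit 3) (nat_lit 113) (nat_lit 114) = true := by decide +kernel
def p12_18_1_114 : pfC (piC [(nat_lit 38632330), (nat_lit 24534081), (nat_lit 15702173)] (nat_lit 11488537)) p12_18_1 (nat_lit 3) (nat_lit 114) (nat_lit 115) = true := by decide +kernel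
def p12_18_1_115 : pfC (piC [(nat_lit 38632330), (nat_lit 24534081), (nat_lit 15702173)] (nat_lit 11488537)) p12_18_1 (nat_lit 3) (nat_lit 115) (nat_lit 116) = true := by decide +kernel
def p12_18_1_116 : pfC (piC [(nat_lit 38632330), (nat_lit 24534081), (nat_lit 15702173)] (nat_lit 11488537)) p12_18_1 (nat_lit 3) (nat_lit 116) (nat_lit 117) = true := by decide +kernel
def p12_18_1_117 : pfC (piC [(nat_lit 38632330), (nat_lit 24534081), (nat_lit 15702173)] (nat_lit 11488537)) p12_18_1 (nat_lit 3) (nat_lit 117) (nat_lit 118) = true := by decide +kernel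
def p12_18_1_118 : pfC (piC [(nat_lit 38632330), (nat_lit 24534081), (nat_lit 15702173)] (nat_lit 11488537)) p12_18_1 (nat_lit 3) (nat_lit 118) (nat_lit 119) = true := by decide +kernel
def p12_18_1_119 : pfC (piC [(nat_lit 38632330), (nat_lit 24534081), (nat_lit 15702173)] (nat_lit 11488537)) p12_18_1 (nat_lit 3) (nat_lit 119) (nat_lit 120) = true := by decide +kernel
def p12_18_1_120 : pfC (piC [(nat_lit 38632330), (nat_lit 24534081), (nat_lit 15702173)] (nat_lit 11488537)) p12_18_1 (nat_lit 3) (nat_lit 120) (nat_lit 121) = true := by decide +kernel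
def p12_18_1_121 : pfC (piC [(nat_lit 38632330), (nat_lit 24534081), (nat_lit 15702173)] (nat_lit 11488537)) p12_18_1 (nat_lit 3) (nat_lit 121) (nat_lit 122) = true := by decide +kernel
def p12_18_1_122 : pfC (piC [(nat_lit 38632330), (nat_lit 24534081), (nat_lit 15702173)] (nat_lit 11488537)) p12_18_1 (nat_lit 3) (nat_lit 122) (nat_lit 123) = true := by decide +kernel
def p12_18_1_123 : pfC (piC [(nat_lit 38632330), (nat_lit 24534081), (nat_lit 15702173)] (nat_lit 11488537)) p12_18_1 (nat_lit 3) (nat_lit 123) (nat_lit 124) = true := by decide +kernel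
def p12_18_1_124 : pfC (piC [(nat_lit 38632330), (nat_lit 24534081), (nat_lit 15702173)] (nat_lit 11488537)) p12_18_1 (nat_lit 3) (nat_lit 124) (nat_lit 125) = true := by decide +kernel
def p12_18_1_125 : pfC (piC [(nat_lit 38632330), (nat_lit 24534081), (nat_lit 15702173)] (nat_lit 11488537)) p12_18_1 (nat_lit 3) (nat_lit 125) (nat_lit 126) = true := by decide +kernel
def p12_18_1_126 : pfC (piC [(nat_lit 38632330), (nat_lit 24534081), (nat_lit 15702173)] (nat_lit 11488537)) p12_18_1 (nat_lit 3) (nat_lit 126) (nat_lit 127) = true := by decide +kernel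
def p12_18_1_127 : pfC (piC [(nat_lit 38632330), (nat_lit 24534081), (nat_lit 15702173)] (nat_lit 11488537)) p12_18_1 (nat_lit 3) (nat_lit 127) (nat_lit 128) = true := by decide +kernel
def p12_18_1_128 : pfC (piC [(nat_lit 38632330), (nat_lit 24534081), (nat_lit 15702173)] (nat_lit 11488537)) p12_18_1 (nat_lit 3) (nat_lit 128) (nat_lit 129) = true := by decide +kernel
def p12_18_1_129 : pfC (piC [(nat_lit 38632330), (nat_lit 24534081), (nat_lit 15702173)] (nat_lit 11488537)) p12_18_1 (nat_lit 3) (nat_lit 129) (nat_lit 130) = true := by decide +kernel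
def p12_18_1_130 : pfC (piC [(nat_lit 38632330), (nat_lit 24534081), (nat_lit 15702173)] (nat_lit 11488537)) p12_18_1 (nat_lit 3) (nat_lit 130) (nat_lit 131) = true := by decide +kernel
def p12_18_1_131 : pfC (piC [(nat_lit 38632330), (nat_lit 24534081), (nat_lit 15702173)] (nat_lit 11488537)) p12_18_1 (nat_lit 3) (nat_lit 131) (nat_lit 132) = true := by decide +kernel
def p12_18_1_132 : pfC (piC [(nat_lit 38632330), (nat_lit 24534081), (nat_lit 15702173)] (nat_lit 11488537)) p12_18_1 (nat_lit 3) (nat_lit 132) (nat_lit 133) = true := by decide +kernel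
def p12_18_1_133 : pfC (piC [(nat_lit 38632330), (nat_lit 24534081), (nat_lit 15702173)] (nat_lit 11488537)) p12_18_1 (nat_lit 3) (nat_lit 133) (nat_lit 134) = true := by decide +kernel
def p12_18_1_134 : pfC (piC [(nat_lit 38632330), (nat_lit 24534081), (nat_lit 15702173)] (nat_lit 11488537)) p12_18_1 (nat_lit 3) (nat_lit 134) (nat_lit 135) = true := by decide +kernel
def p12_18_1_135 : pfC (piC [(nat_lit 38632330), (nat_lit 24534081), (nat_lit 15702173)] (nat_lit 11488537)) p12_18_1 (nat_lit 3) (nat_lit 135) (nat_lit 136) = true := by decide +kernel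
def p12_18_1_136 : pfC (piC [(nat_lit 38632330), (nat_lit 24534081), (nat_lit 15702173)] (nat_lit 11488537)) p12_18_1 (nat_lit 3) (nat_lit 136) (nat_lit 137) = true := by decide +kernel
def p12_18_1_137 : pfC (piC [(nat_lit 38632330), (nat_lit 24534081), (nat_lit 15702173)] (nat_lit 11488537)) p12_18_1 (nat_lit 3) (nat_lit 137) (nat_lit 138) = true := by decide +kernel
def p12_18_1_138 : pfC (piC [(nat_lit 38632330), (nat_lit 24534081), (nat_lit 15702173)] (nat_lit 11488537)) p12_18_1 (nat_lit 3) (nat_lit 138) (nat_lit 139) = true := by decide +kernel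
def p12_18_1_139 : pfC (piC [(nat_lit 38632330), (nat_lit 24534081), (nat_lit 15702173)] (nat_lit 11488537)) p12_18_1 (nat_lit 3) (nat_lit 139) (nat_lit 140) = true := by decide +kernel
def p12_18_1_140 : pfC (piC [(nat_lit 38632330), (nat_lit 24534081), (nat_lit 15702173)] (nat_lit 11488537)) p12_18_1 (nat_lit 3) (nat_lit 140) (nat_lit 141) = true := by decide +kernel
def p12_18_1_141 : pfC (piC [(nat_lit 38632330), (nat_lit 24534081), (nat_lit 15702173)] (nat_lit 11488537)) p12_18_1 (nat_lit 3) (nat_lit 141) (nat_lit 142) = true := by decide +kernel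
def p12_18_1_142 : pfC (piC [(nat_lit 38632330), (nat_lit 24534081), (nat_lit 15702173)] (nat_lit 11488537)) p12_18_1 (nat_lit 3) (nat_lit 142) (nat_lit 143) = true := by decide +kernel
def p12_18_1_143 : pfC (piC [(nat_lit 38632330), (nat_lit 24534081), (nat_lit 15702173)] (nat_lit 11488537)) p12_18_1 (nat_lit 3) (nat_lit 143) (nat_lit 144) = true := by decide +kernel
def p12_18_1_144 : pfC (piC [(nat_lit 38632330), (nat_lit 24534081), (nat_lit 15702173)] (nat_lit 11488537)) p12_18_1 (nat_lit 3) (nat_lit 144) (nat_lit 145) = true := by decide +kernel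
def p12_18_1_145 : pfC (piC [(nat_lit 38632330), (nat_lit 24534081), (nat_lit 15702173)] (nat_lit 11488537)) p12_18_1 (nat_lit 3) (nat_lit 145) (nat_lit 146) = true := by decide +kernel
def p12_18_1_146 : pfC (piC [(nat_lit 38632330), (nat_lit 24534081), (nat_lit 15702173)] (nat_lit 11488537)) p12_18_1 (nat_lit 3) (nat_lit 146) (nat_lit 147) = true := by decide +kernel
def p12_18_1_147 : pfC (piC [(nat_lit 38632330), (nat_lit 24534081), (nat_lit 15702173)] (nat_lit 11488537)) p12_18_1 (nat_lit 3) (nat_lit 147) (nat_lit 148) = true := by decide +kernel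
def p12_18_1_148 : pfC (piC [(nat_lit 38632330), (nat_lit 24534081), (nat_lit 15702173)] (nat_lit 11488537)) p12_18_1 (nat_lit 3) (nat_lit 148) (nat_lit 149) = true := by decide +kernel
def p12_18_1_149 : pfC (piC [(nat_lit 38632330), (nat_lit 24534081), (nat_lit 15702173)] (nat_lit 11488537)) p12_18_1 (nat_lit 3) (nat_lit 149) (nat_lit 150) = true := by decide +kernel
def p12_18_1_150 : pfC (piC [(nat_lit 38632330), (nat_lit 24534081), (nat_lit 15702173)] (nat_lit 11488537)) p12_18_1 (nat_lit 3) (nat_lit 150) (nat_lit 151) = true := by decide +kernel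
def p12_18_1_151 : pfC (piC [(nat_lit 38632330), (nat_lit 24534081), (nat_lit 15702173)] (nat_lit 11488537)) p12_18_1 (nat_lit 3) (nat_lit 151) (nat_lit 152) = true := by decide +kernel
def p12_18_1_152 : pfC (piC [(nat_lit 38632330), (nat_lit 24534081), (nat_lit 15702173)] (nat_lit 11488537)) p12_18_1 (nat_lit 3) (nat_lit 152) (nat_lit 153) = true := by decide +kernel
def p12_18_1_153 : pfC (piC [(nat_lit 38632330), (nat_lit 24534081), (nat_lit 15702173)] (nat_lit 11488537)) p12_18_1 (nat_lit 3) (nat_lit 153) (nat_lit 154) = true := by decide +kernel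
def p12_18_1_154 : pfC (piC [(nat_lit 38632330), (nat_lit 24534081), (nat_lit 15702173)] (nat_lit 11488537)) p12_18_1 (nat_lit 3) (nat_lit 154) (nat_lit 155) = true := by decide +kernel
def p12_18_1_155 : pfC (piC [(nat_lit 38632330), (nat_lit 24534081), (nat_lit 15702173)] (nat_lit 11488537)) p12_18_1 (nat_lit 3) (nat_lit 155) (nat_lit 156) = true := by decide +kernel
def p12_18_1_156 : pfC (piC [(nat_lit 38632330), (nat_lit 24534081), (nat_lit 15702173)] (nat_lit 11488537)) p12_18_1 (nat_lit 3) (nat_lit 156) (nat_lit 157) = true := by decide +kernel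
def p12_18_1_157 : pfC (piC [(nat_lit 38632330), (nat_lit 24534081), (nat_lit 15702173)] (nat_lit 11488537)) p12_18_1 (nat_lit 3) (nat_lit 157) (nat_lit 158) = true := by decide +kernel
def p12_18_1_158 : pfC (piC [(nat_lit 38632330), (nat_lit 24534081), (nat_lit 15702173)] (nat_lit 11488537)) p12_18_1 (nat_lit 3) (nat_lit 158) (nat_lit 159) = true := by decide +kernel
def p12_18_1_159 : pfC (piC [(nat_lit 38632330), (nat_lit 24534081), (nat_lit 15702173)] (nat_lit 11488537)) p12_18_1 (nat_lit 3) (nat_lit 159) (nat_lit 160) = true := by decide +kernel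
def p12_18_1_160 : pfC (piC [(nat_lit 38632330), (nat_lit 24534081), (nat_lit 15702173)] (nat_lit 11488537)) p12_18_1 (nat_lit 3) (nat_lit 160) (nat_lit 161) = true := by decide +kernel
def p12_18_1_161 : pfC (piC [(nat_lit 38632330), (nat_lit 24534081), (nat_lit 15702173)] (nat_lit 11488537)) p12_18_1 (nat_lit 3) (nat_lit 161) (nat_lit 162) = true := by decide +kernel
def p12_18_1_162 : pfC (piC [(nat_lit 38632330), (nat_lit 24534081), (nat_lit 15702173)] (nat_lit 11488537)) p12_18_1 (nat_lit 3) (nat_lit 162) (nat_lit 163) = true := by decide +kernel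
def p12_18_1_163 : pfC (piC [(nat_lit 38632330), (nat_lit 24534081), (nat_lit 15702173)] (nat_lit 11488537)) p12_18_1 (nat_lit 3) (nat_lit 163) (nat_lit 164) = true := by decide +kernel
def p12_18_1_164 : pfC (piC [(nat_lit 38632330), (nat_lit 24534081), (nat_lit 15702173)] (nat_lit 11488537)) p12_18_1 (nat_lit 3) (nat_lit 164) (nat_lit 165) = true := by decide +kernel
theorem p12_18_1_T : PfS (PiF n12_18.reverse (nat_lit 11488537)) p12_18_1 (nat_lit 3) [] 0 :=
  pftab_of (los := [(nat_lit 38632330), (nat_lit 24534081), (nat_lit 15702173)]) (by decide +kernel) (hi := (nat_lit 165)) (PfP.trans (PfP.trans (PfP.trans (PfP.trans (PfP.trans (PfP.trans (PfP.trans (PfP.trans (PfP.trans (PfP.trans (PfP.trans (PfP.trans (PfP.trans (PfP.trans (PfP.trans (PfP.trans (PfP.trans (PfP.trans (PfP.trans (PfP.trans (PfP.trans (PfP.trans (PfP.trans (PfP.trans (PfP.trans (PfP.trans (PfP.trans (PfP.trans (PfP.trans (PfP.trans (PfP.trans (PfP.trans (PfP.trans (PfP.trans (PfP.trans (PfP.trans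 (PfP.trans (PfP.trans (PfP.trans (PfP.trans (PfP.trans (PfP.trans (PfP.trans (PfP.trans (PfP.trans (PfP.trans (PfP.trans (PfP.trans (PfP.trans (PfP.trans (PfP.trans (PfP.trans (PfP.trans (PfP.trans (PfP.trans (PfP.trans (PfP.trans (PfP.trans (PfP.trans (PfP.trans (PfP.trans (PfP.trans (PfP.trans (PfP.trans (PfP.trans (PfP.trans (PfP.trans (PfP.trans (PfP.trans (PfP.trans (PfP.trans (PfP.trans (PfP.trans (PfP.trans (PfP.trans (PfP.trans (PfP.trans (PfP.trans (PfP.trans (PfP.trans (PfP.trans (PfP.trans (PfP.trans (PfP.trans (PfP.trans (PfP.trans (PfP.trans (PfP.trans (PfP.trans (PfP.trans (PfP.trans (PfP.trans (PfP.trans (PfP.trans (PfP.trans (PfP.trans (PfP.trans (PfP.trans (PfP.trans (PfP.trans (PfP.trans (PfP.trans (PfP.trans (PfP.trans (PfP.trans (PfP.trans (PfP.trans (PfP.trans (PfP.trans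
 (PfP.trans (PfP.trans (PfP.trans (PfP.trans (PfP.trans (PfP.trans (PfP.trans (PfP.trans (PfP.trans (PfP.trans (PfP.trans (PfP.trans (PfP.trans (PfP.trans (PfP.trans (PfP.trans (PfP.trans (PfP.trans (PfP.trans (PfP.trans (PfP.trans (PfP.trans (PfP.trans (PfP.trans (PfP.trans (PfP.trans (PfP.trans (PfP.trans (PfP.trans (PfP.trans (PfP.trans (PfP.trans (PfP.trans (PfP.trans (PfP.trans (PfP.trans (PfP.trans (PfP.trans (PfP.trans (PfP.trans (PfP.trans (PfP.trans (PfP.trans (PfP.trans (PfP.trans (PfP.trans (PfP.trans (PfP.trans (PfP.trans (PfP.trans (PfP.trans (PfP.trans (PfP.trans (PfP.trans (PfP.trans (pfC_sound p12_18_1_0) (pfC_sound p12_18_1_1)) (pfC_sound p12_18_1_2)) (pfC_sound p12_18_1_3)) (pfC_sound p12_18_1_4)) (pfC_sound p12_18_1_5)) (pfC_sound p12_18_1_6)) (pfC_sound p12_18_1_7)) (pfC_sound p12_18_1_8)) (pfC_sound p12_18_1_9)) (pfC_sound p12_18_1_10)) (pfC_sound p12_18_1_11)) (pfC_sound p12_18_1_12)) (pfC_sound p12_18_1_13)) (pfC_sound p12_18_1_14)) (pfC_sound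 p12_18_1_15)) (pfC_sound p12_18_1_16)) (pfC_sound p12_18_1_17)) (pfC_sound p12_18_1_18)) (pfC_sound p12_18_1_19)) (pfC_sound p12_18_1_20)) (pfC_sound p12_18_1_21)) (pfC_sound p12_18_1_22)) (pfC_sound p12_18_1_23))
 (pfC_sound p12_18_1_24)) (pfC_sound p12_18_1_25)) (pfC_sound p12_18_1_26)) (pfC_sound p12_18_1_27)) (pfC_sound p12_18_1_28)) (pfC_sound p12_18_1_29)) (pfC_sound p12_18_1_30)) (pfC_sound p12_18_1_31)) (pfC_sound p12_18_1_32)) (pfC_sound p12_18_1_33)) (pfC_sound p12_18_1_34)) (pfC_sound p12_18_1_35)) (pfC_sound p12_18_1_36)) (pfC_sound p12_18_1_37)) (pfC_sound p12_18_1_38)) (pfC_sound p12_18_1_39)) (pfC_sound p12_18_1_40)) (pfC_sound p12_18_1_41)) (pfC_sound p12_18_1_42)) (pfC_sound p12_18_1_43)) (pfC_sound p12_18_1_44)) (pfC_sound p12_18_1_45)) (pfC_sound p12_18_1_46)) (pfC_sound p12_18_1_47)) (pfC_sound p12_18_1_48)) (pfC_sound p12_18_1_49)) (pfC_sound p12_18_1_50)) (pfC_sound p12_18_1_51)) (pfC_sound p12_18_1_52)) (pfC_sound p12_18_1_53)) (pfC_sound p12_18_1_54))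 (pfC_sound p12_18_1_55)) (pfC_sound p12_18_1_56)) (pfC_sound p12_18_1_57)) (pfC_sound p12_18_1_58)) (pfC_sound p12_18_1_59)) (pfC_sound p12_18_1_60)) (pfC_sound p12_18_1_61)) (pfC_sound p12_18_1_62)) (pfC_sound p12_18_1_63)) (pfC_sound p12_18_1_64)) (pfC_sound p12_18_1_65)) (pfC_sound p12_18_1_66)) (pfC_sound p12_18_1_67)) (pfC_sound p12_18_1_68)) (pfC_sound p12_18_1_69)) (pfC_sound p12_18_1_70)) (pfC_sound p12_18_1_71))
 (pfC_sound p12_18_1_72)) (pfC_sound p12_18_1_73)) (pfC_sound p12_18_1_74)) (pfC_sound p12_18_1_75)) (pfC_sound p12_18_1_76)) (pfC_sound p12_18_1_77)) (pfC_sound p12_18_1_78)) (pfC_sound p12_18_1_79)) (pfC_sound p12_18_1_80)) (pfC_sound p12_18_1_81)) (pfC_sound p12_18_1_82)) (pfC_sound p12_18_1_83)) (pfC_sound p12_18_1_84)) (pfC_sound p12_18_1_85)) (pfC_sound p12_18_1_86)) (pfC_sound p12_18_1_87)) (pfC_sound p12_18_1_88)) (pfC_sound p12_18_1_89)) (pfC_sound p12_18_1_90)) (pfC_sound p12_18_1_91)) (pfC_sound p12_18_1_92)) (pfC_sound p12_18_1_93)) (pfC_sound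 p12_18_1_94)) (pfC_sound p12_18_1_95)) (pfC_sound p12_18_1_96)) (pfC_sound p12_18_1_97)) (pfC_sound p12_18_1_98)) (pfC_sound p12_18_1_99)) (pfC_sound p12_18_1_100)) (pfC_sound p12_18_1_101)) (pfC_sound p12_18_1_102)) (pfC_sound p12_18_1_103)) (pfC_sound p12_18_1_104)) (pfC_sound p12_18_1_105)) (pfC_sound p12_18_1_106)) (pfC_sound p12_18_1_107)) (pfC_sound p12_18_1_108)) (pfC_sound p12_18_1_109)) (pfC_sound p12_18_1_110)) (pfC_sound p12_18_1_111)) (pfC_sound p12_18_1_112)) (pfC_sound p12_18_1_113)) (pfC_sound p12_18_1_114)) (pfC_sound p12_18_1_115)) (pfC_sound p12_18_1_116)) (pfC_sound p12_18_1_117)) (pfC_sound p12_18_1_118))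
 (pfC_sound p12_18_1_119)) (pfC_sound p12_18_1_120)) (pfC_sound p12_18_1_121)) (pfC_sound p12_18_1_122)) (pfC_sound p12_18_1_123)) (pfC_sound p12_18_1_124)) (pfC_sound p12_18_1_125)) (pfC_sound p12_18_1_126)) (pfC_sound p12_18_1_127)) (pfC_sound p12_18_1_128)) (pfC_sound p12_18_1_129)) (pfC_sound p12_18_1_130)) (pfC_sound p12_18_1_131)) (pfC_sound p12_18_1_132)) (pfC_sound p12_18_1_133)) (pfC_sound p12_18_1_134)) (pfC_sound p12_18_1_135)) (pfC_sound p12_18_1_136)) (pfC_sound p12_18_1_137)) (pfC_sound p12_18_1_138)) (pfC_sound p12_18_1_139)) (pfC_sound p12_18_1_140)) (pfC_sound p12_18_1_141)) (pfC_sound p12_18_1_142)) (pfC_sound p12_18_1_143)) (pfC_sound p12_18_1_144)) (pfC_sound p12_18_1_145)) (pfC_sound p12_18_1_146)) (pfC_sound p12_18_1_147)) (pfC_sound p12_18_1_148)) (pfC_sound p12_18_1_149)) (pfC_sound p12_18_1_150)) (pfC_sound p12_18_1_151)) (pfC_sound p12_18_1_152)) (pfC_sound p12_18_1_153)) (pfC_sound p12_18_1_154)) (pfC_sound p12_18_1_155)) (pfC_sound p12_18_1_156))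 (pfC_sound p12_18_1_157)) (pfC_sound p12_18_1_158)) (pfC_sound p12_18_1_159)) (pfC_sound p12_18_1_160)) (pfC_sound p12_18_1_161)) (pfC_sound p12_18_1_162)) (pfC_sound p12_18_1_163)) (pfC_sound p12_18_1_164)) (by decide +kernel)

def z12_18_1 : zOK yB12_18 (nat_lit 1) (nat_lit 400) (nat_lit 600) (nat_lit 11488537) (nat_lit 7528973) = true := by decide +kernel
def g12_18_1 : gOK yB12_18.x P12_18 (nat_lit 1387) (q12_18 :: r12_18) (nat_lit 1) (nat_lit 400) (nat_lit 2) (nat_lit 600) (nat_lit 11000000) (nat_lit 17850000) (nat_lit 12712500) (nat_lit 12712500) [(nat_lit 800), (nat_lit 1600)] = true := by decide +kernel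
def v12_18_1 : ivC P12_18 s12_18 w12_18 n12_18 (nat_lit 3) (nat_lit 4900) (nat_lit 1) (nat_lit 400) f176_0_400 f184_0_400 (nat_lit 2) (nat_lit 600) f176_0_600 f184_0_600 (nat_lit 11488537) (nat_lit 7528973) p12_18_1 = true := by decide +kernel
def p12_18_2 : PF := (PF.cons (PF.cons (PF.cons (PF.leaf (nat_lit 2451038) (nat_lit 12936246) (nat_lit 54172566) (nat_lit 12936246) [(nat_lit 0), (nat_lit 0), (nat_lit 0)]) (PF.cons (PF.leaf (nat_lit 2629818) (nat_lit 314894) (nat_lit 53855145) (nat_lit 12938772) [(nat_lit 314894), (nat_lit 0), (nat_lit 0)]) (PF.cons (PF.leaf (nat_lit 2840836) (nat_lit 342283) (nat_lit 53484547) (nat_lit 12939699) [(nat_lit 342283), (nat_lit 0), (nat_lit 0)]) (PF.cons (PF.leaf (nat_lit 3077566) (nat_lit 366511) (nat_lit 53071016) (nat_lit 12938262) [(nat_lit 366511), (nat_lit 0), (nat_lit 0)]) (PF.cons (PF.leaf (nat_lit 3336183) (nat_lit 388270) (nat_lit 52621877) (nat_lit 12933853) [(nat_lit 388270), (nat_lit 0), (nat_lit 0)]) (PF.cons (PF.leaf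 (nat_lit 3613704) (nat_lit 407999) (nat_lit 52142819) (nat_lit 12925993) [(nat_lit 407999), (nat_lit 0), (nat_lit 0)]) (PF.cons (PF.leaf (nat_lit 3907767) (nat_lit 426000) (nat_lit 51638495) (nat_lit 12914316) [(nat_lit 426000), (nat_lit 0), (nat_lit 0)]) (PF.cons (PF.leaf (nat_lit 4216283) (nat_lit 442488) (nat_lit 51112842) (nat_lit 12898552) [(nat_lit 442488), (nat_lit 0), (nat_lit 0)]) (PF.cons (PF.leaf (nat_lit 4537468) (nat_lit 457628) (nat_lit 50569266) (nat_lit
 12878516) [(nat_lit 457628), (nat_lit 0), (nat_lit 0)]) (PF.cons (PF.leaf (nat_lit 4869762) (nat_lit 471550) (nat_lit 50010757) (nat_lit 12854100) [(nat_lit 471550), (nat_lit 0), (nat_lit 0)]) (PF.cons (PF.leaf (nat_lit 5211684) (nat_lit 484358) (nat_lit 49439971) (nat_lit 12825257) [(nat_lit 484358), (nat_lit 0), (nat_lit 0)]) (PF.cons (PF.leaf (nat_lit 5561969) (nat_lit 496139) (nat_lit 48859283) (nat_lit 12792000) [(nat_lit 496139), (nat_lit 0), (nat_lit 0)]) (PF.cons (PF.leaf (nat_lit 5919385) (nat_lit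 506967) (nat_lit 48270821) (nat_lit 12754384) [(nat_lit 506967), (nat_lit 0), (nat_lit 0)]) (PF.cons (PF.leaf (nat_lit 6282896) (nat_lit 516907) (nat_lit 47676505) (nat_lit 12712506) [(nat_lit 516907), (nat_lit 0), (nat_lit 0)]) (PF.cons (PF.leaf (nat_lit 6651483) (nat_lit 526018) (nat_lit 47078063) (nat_lit 12666495) [(nat_lit 526018), (nat_lit 0), (nat_lit 0)]) (PF.cons PF.nil (PF.cons PF.nil (PF.cons PF.nil PF.nil)))))))))))))))))) (PF.cons (PF.cons (PF.leaf (nat_lit 3153606) (nat_lit 1765496) (nat_lit 52422443) (nat_lit 12920873) [(nat_lit 0), (nat_lit 1765496), (nat_lit 0)]) (PF.cons (PF.leaf (nat_lit 3385991) (nat_lit 384072) (nat_lit 52010552) (nat_lit 12913164) [(nat_lit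
 384072), (nat_lit 1801022), (nat_lit 0)]) (PF.cons (PF.leaf (nat_lit 3642119) (nat_lit 404576) (nat_lit 51561707) (nat_lit 12902155) [(nat_lit 404576), (nat_lit 1835796), (nat_lit 0)]) (PF.cons (PF.leaf (nat_lit 3917536) (nat_lit 423040) (nat_lit 51083016) (nat_lit 12887504) [(nat_lit 423040), (nat_lit 1869171), (nat_lit 0)]) (PF.cons (PF.leaf (nat_lit 4209459) (nat_lit 439807) (nat_lit 50579830) (nat_lit 12868958) [(nat_lit 439807), (nat_lit 1900794), (nat_lit 0)]) (PF.cons (PF.leaf (nat_lit 4515628) (nat_lit 455112) (nat_lit 50056427) (nat_lit 12846342) [(nat_lit 455112), (nat_lit 1930479), (nat_lit 0)]) (PF.cons (PF.leaf (nat_lit 4834130) (nat_lit 469126) (nat_lit 49516368) (nat_lit 12819551) [(nat_lit 469126), (nat_lit 1958136), (nat_lit 0)]) (PF.cons (PF.leaf (nat_lit 5163301) (nat_lit 481977) (nat_lit 48962690) (nat_lit 12788543) [(nat_lit 481977), (nat_lit 1983735), (nat_lit 0)]) (PF.cons (PF.leaf (nat_lit 5501727) (nat_lit 493771) (nat_lit 48398033) (nat_lit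 12753325) [(nat_lit 493771), (nat_lit 2007284), (nat_lit 0)]) (PF.cons (PF.leaf (nat_lit 5848065) (nat_lit 504591) (nat_lit 47824717) (nat_lit 12713950) [(nat_lit 504591), (nat_lit 2028817), (nat_lit 0)]) (PF.cons
 (PF.leaf (nat_lit 6201147) (nat_lit 514512) (nat_lit 47244799) (nat_lit 12670507) [(nat_lit 514512), (nat_lit 2048382), (nat_lit 0)]) (PF.cons (PF.leaf (nat_lit 6559912) (nat_lit 523595) (nat_lit 46660107) (nat_lit 12623118) [(nat_lit 523595), (nat_lit 2066041), (nat_lit 0)]) (PF.cons (PF.leaf (nat_lit 6923390) (nat_lit 531895) (nat_lit 46072276) (nat_lit 12571927) [(nat_lit 531895), (nat_lit 2081861), (nat_lit 0)]) (PF.cons PF.nil (PF.cons PF.nil (PF.cons PF.nil PF.nil)))))))))))))))) (PF.cons (PF.cons (PF.leaf (nat_lit 3949124) (nat_lit 1883084) (nat_lit 50487177) (nat_lit 12855465) [(nat_lit 0), (nat_lit 1883084), (nat_lit 0)]) (PF.cons (PF.leaf (nat_lit 4219474) (nat_lit 435382) (nat_lit 50015695) (nat_lit 12834770) [(nat_lit 435382), (nat_lit 1911482),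 (nat_lit 0)]) (PF.cons (PF.leaf (nat_lit 4507465) (nat_lit 451242) (nat_lit 49519081) (nat_lit 12810101) [(nat_lit 451242), (nat_lit 1938572), (nat_lit 0)]) (PF.cons (PF.leaf (nat_lit 4809880) (nat_lit 465619) (nat_lit 49002388) (nat_lit 12781388) [(nat_lit 465619), (nat_lit 1964088), (nat_lit 0)]) (PF.cons (PF.leaf (nat_lit 5124609) (nat_lit 478713) (nat_lit 48469577) (nat_lit 12748605) [(nat_lit 478713), (nat_lit 1987887),
 (nat_lit 0)]) (PF.cons (PF.leaf (nat_lit 5449824) (nat_lit 490668) (nat_lit 47923892) (nat_lit 12711770) [(nat_lit 490668), (nat_lit 2009903), (nat_lit 0)]) (PF.cons (PF.leaf (nat_lit 5784043) (nat_lit 501596) (nat_lit 47368061) (nat_lit 12670939) [(nat_lit 501596), (nat_lit 2030115), (nat_lit 0)]) (PF.cons (PF.leaf (nat_lit 6125897) (nat_lit 511587) (nat_lit 46804426) (nat_lit 12626203) [(nat_lit 511587), (nat_lit 2048534), (nat_lit 0)]) (PF.cons (PF.leaf (nat_lit 6474205) (nat_lit 520715) (nat_lit 46235023) (nat_lit 12577678) [(nat_lit 520715),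 (nat_lit 2065192), (nat_lit 0)]) (PF.cons (PF.leaf (nat_lit 6827909) (nat_lit 529044) (nat_lit 45661638) (nat_lit 12525504) [(nat_lit 529044), (nat_lit 2080134), (nat_lit 0)]) (PF.cons (PF.leaf (nat_lit 7186050) (nat_lit 536629) (nat_lit 45085845) (nat_lit 12469841) [(nat_lit 536629), (nat_lit 2093416), (nat_lit 0)]) (PF.cons PF.nil (PF.cons PF.nil (PF.cons PF.nil PF.nil)))))))))))))) (PF.cons (PF.cons (PF.leaf (nat_lit 4803260) (nat_lit 1970195) (nat_lit 48459484) (nat_lit 12738741) [(nat_lit 0), (nat_lit 1970195), (nat_lit 0)]) (PF.cons (PF.leaf (nat_lit 5099917) (nat_lit 474204) (nat_lit 47953802) (nat_lit 12704768) [(nat_lit 474204),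
 (nat_lit 1992012), (nat_lit 0)]) (PF.cons (PF.leaf (nat_lit 5409656) (nat_lit 486570) (nat_lit 47431711) (nat_lit 12666799) [(nat_lit 486570), (nat_lit 2012386), (nat_lit 0)]) (PF.cons (PF.leaf (nat_lit 5729989) (nat_lit 497788) (nat_lit 46896879) (nat_lit 12624921) [(nat_lit 497788), (nat_lit 2031215), (nat_lit 0)]) (PF.cons (PF.leaf (nat_lit 6059270) (nat_lit 507986) (nat_lit 46352261) (nat_lit 12579239) [(nat_lit 507986), (nat_lit 2048454), (nat_lit 0)]) (PF.cons (PF.leaf (nat_lit 6396069) (nat_lit 517265) (nat_lit 45800312) (nat_lit 12529881) [(nat_lit 517265), (nat_lit 2064096), (nat_lit 0)]) (PF.cons (PF.leaf (nat_lit 6739161) (nat_lit 525706) (nat_lit 45243112) (nat_lit 12476990) [(nat_lit 525706), (nat_lit 2078157), (nat_lit 0)]) (PF.cons (PF.leaf (nat_lit 7087455) (nat_lit 533374) (nat_lit 44682449) (nat_lit 12420724) [(nat_lit 533374), (nat_lit 2090671), (nat_lit 0)]) (PF.cons (PF.leaf (nat_lit 7439990) (nat_lit 540329) (nat_lit 44119877) (nat_lit 12361254)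 [(nat_lit 540329), (nat_lit 2101682), (nat_lit 0)]) (PF.cons PF.nil (PF.cons PF.nil (PF.cons PF.nil PF.nil)))))))))))) (PF.cons (PF.cons (PF.leaf (nat_lit 5690492) (nat_lit 2032245) (nat_lit 46404661) (nat_lit
 12575167) [(nat_lit 0), (nat_lit 2032245), (nat_lit 0)]) (PF.cons (PF.leaf (nat_lit 6004528) (nat_lit 503462) (nat_lit 45883408) (nat_lit 12529045) [(nat_lit 503462), (nat_lit 2048223), (nat_lit 0)]) (PF.cons (PF.leaf (nat_lit 6328082) (nat_lit 513061) (nat_lit 45352202) (nat_lit 12479270) [(nat_lit 513061), (nat_lit 2062803), (nat_lit 0)]) (PF.cons (PF.leaf (nat_lit 6659225) (nat_lit 521741) (nat_lit 44813734) (nat_lit 12426011) [(nat_lit 521741), (nat_lit 2075960), (nat_lit 0)]) (PF.cons (PF.leaf (nat_lit 6996636) (nat_lit 529591) (nat_lit 44270211) (nat_lit 12369442) [(nat_lit 529591), (nat_lit 2087697), (nat_lit 0)]) (PF.cons (PF.leaf (nat_lit 7339191) (nat_lit 536687) (nat_lit 43723481) (nat_lit 12309739) [(nat_lit 536687), (nat_lit 2098038), (nat_lit 0)])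 (PF.cons (PF.leaf (nat_lit 7685898) (nat_lit 543090) (nat_lit 43175115) (nat_lit 12247086) [(nat_lit 543090), (nat_lit 2107016), (nat_lit 0)]) (PF.cons (PF.leaf (nat_lit 8035866) (nat_lit 548852) (nat_lit 42626464) (nat_lit 12181667) [(nat_lit 548852), (nat_lit 2114677), (nat_lit 0)]) (PF.cons PF.nil (PF.cons PF.nil PF.nil)))))))))) (PF.cons (PF.cons (PF.leaf (nat_lit 6591564) (nat_lit 2073595) (nat_lit 44368863) (nat_lit
 12371971) [(nat_lit 0), (nat_lit 2073595), (nat_lit 0)]) (PF.cons (PF.leaf (nat_lit 6916049) (nat_lit 525105) (nat_lit 43845559) (nat_lit 12315518) [(nat_lit 525105), (nat_lit 2084525), (nat_lit 0)]) (PF.cons (PF.leaf (nat_lit 7247274) (nat_lit 532462) (nat_lit 43317048) (nat_lit 12255931) [(nat_lit 532462), (nat_lit 2094181), (nat_lit 0)]) (PF.cons (PF.leaf (nat_lit 7583718) (nat_lit 539069) (nat_lit 42785312) (nat_lit 12193414) [(nat_lit 539069), (nat_lit 2102575), (nat_lit 0)]) (PF.cons (PF.leaf (nat_lit 7924327) (nat_lit 544995) (nat_lit 42251994)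 (nat_lit 12128163) [(nat_lit 544995), (nat_lit 2109734), (nat_lit 0)]) (PF.cons (PF.leaf (nat_lit 8268192) (nat_lit 550297) (nat_lit 41718475) (nat_lit 12060372) [(nat_lit 550297), (nat_lit 2115695), (nat_lit 0)]) (PF.cons PF.nil (PF.cons PF.nil PF.nil)))))))) (PF.cons (PF.cons (PF.leaf (nat_lit 7492088) (nat_lit 2097931) (nat_lit 42383967) (nat_lit 12137254) [(nat_lit 0), (nat_lit 2097931), (nat_lit 0)]) (PF.cons (PF.leaf (nat_lit 7821687) (nat_lit 540592) (nat_lit 41868201) (nat_lit 12072515) [(nat_lit 540592), (nat_lit 2104583), (nat_lit 0)]) (PF.cons (PF.leaf (nat_lit 8155904) (nat_lit 546114) (nat_lit 41350673) (nat_lit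
 12005218) [(nat_lit 546114), (nat_lit 2110115), (nat_lit 0)]) (PF.cons (PF.leaf (nat_lit 8493452) (nat_lit 551021) (nat_lit 40832841) (nat_lit 11935569) [(nat_lit 551021), (nat_lit 2114556), (nat_lit 0)]) (PF.cons PF.nil (PF.cons PF.nil PF.nil)))))) (PF.cons (PF.cons (PF.leaf (nat_lit 8381566) (nat_lit 2108407) (nat_lit 40471063) (nat_lit 11878895) [(nat_lit 0), (nat_lit 2108407), (nat_lit 0)]) (PF.cons (PF.leaf (nat_lit 8712266) (nat_lit 551080) (nat_lit 39969413) (nat_lit 11807871) [(nat_lit 551080), (nat_lit 2111492), (nat_lit 0)]) (PF.cons (PF.leaf (nat_lit 9045890) (nat_lit 555097) (nat_lit 39468455) (nat_lit 11734850) [(nat_lit 555097), (nat_lit 2113615), (nat_lit 0)]) (PF.cons PF.nil PF.nil)))) (PF.cons (PF.cons (PF.leaf (nat_lit 9252556) (nat_lit 2107708) (nat_lit 38643162) (nat_lit 11603985) [(nat_lit 0), (nat_lit 2107708), (nat_lit 0)]) (PF.cons PF.nil PF.nil)) (PF.cons PF.nil (PF.cons PF.nil PF.nil))))))))))) (PF.cons (PF.cons (PF.cons (PF.leaf (nat_lit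 4150024) (nat_lit 6380217) (nat_lit 48100259) (nat_lit 12628335) [(nat_lit 0), (nat_lit 0), (nat_lit 6380217)]) (PF.cons (PF.leaf (nat_lit 4389179) (nat_lit 413127) (nat_lit 47701202) (nat_lit 12602605) [(nat_lit
 413127), (nat_lit 0), (nat_lit 6391877)]) (PF.cons (PF.leaf (nat_lit 4649991) (nat_lit 431669) (nat_lit 47270295) (nat_lit 12572819) [(nat_lit 431669), (nat_lit 0), (nat_lit 6402358)]) (PF.cons (PF.leaf (nat_lit 4927918) (nat_lit 447956) (nat_lit 46814645) (nat_lit 12539113) [(nat_lit 447956), (nat_lit 0), (nat_lit 6411186)]) (PF.cons (PF.leaf (nat_lit 5220065) (nat_lit 462429) (nat_lit 46339459) (nat_lit 12501594) [(nat_lit 462429), (nat_lit 0), (nat_lit 6418041)]) (PF.cons (PF.leaf (nat_lit 5524160) (nat_lit 475389) (nat_lit 45848776) (nat_lit 12460368) [(nat_lit 475389), (nat_lit 0), (nat_lit 6422717)]) (PF.cons (PF.leaf (nat_lit 5838384) (nat_lit 487053) (nat_lit 45345859) (nat_lit 12415547) [(nat_lit 487053), (nat_lit 0), (nat_lit 6425084)]) (PF.cons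 (PF.leaf (nat_lit 6161162) (nat_lit 497581) (nat_lit 44833415) (nat_lit 12367256) [(nat_lit 497581), (nat_lit 0), (nat_lit 6425072)]) (PF.cons (PF.leaf (nat_lit 6491170) (nat_lit 507099) (nat_lit 44313729) (nat_lit 12315630) [(nat_lit 507099), (nat_lit 0), (nat_lit 6422655)]) (PF.cons (PF.leaf (nat_lit 6827253) (nat_lit 515709) (nat_lit 43788764) (nat_lit 12260818) [(nat_lit 515709), (nat_lit 0), (nat_lit 6417845)]) (PF.cons
 (PF.leaf (nat_lit 7168381) (nat_lit 523494) (nat_lit 43260215) (nat_lit 12202975) [(nat_lit 523494), (nat_lit 0), (nat_lit 6410676)]) (PF.cons (PF.leaf (nat_lit 7513635) (nat_lit 530525) (nat_lit 42729560) (nat_lit 12142266) [(nat_lit 530525), (nat_lit 0), (nat_lit 6401207)]) (PF.cons PF.nil (PF.cons PF.nil PF.nil)))))))))))))) (PF.cons (PF.cons (PF.leaf (nat_lit 4936835) (nat_lit 1944022) (nat_lit 46270835) (nat_lit 12487439) [(nat_lit 0), (nat_lit 1944022), (nat_lit 6406515)]) (PF.cons (PF.leaf (nat_lit 5207499) (nat_lit 455613) (nat_lit 45827825)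 (nat_lit 12450117) [(nat_lit 455613), (nat_lit 1964330), (nat_lit 6410926)]) (PF.cons (PF.leaf (nat_lit 5493764) (nat_lit 469444) (nat_lit 45364201) (nat_lit 12408905) [(nat_lit 469444), (nat_lit 1983333), (nat_lit 6413483)]) (PF.cons (PF.leaf (nat_lit 5792438) (nat_lit 481731) (nat_lit 44884724) (nat_lit 12364010) [(nat_lit 481731), (nat_lit 2000883), (nat_lit 6414000)]) (PF.cons (PF.leaf (nat_lit 6101451) (nat_lit 492719) (nat_lit 44393038) (nat_lit 12315613) [(nat_lit 492719), (nat_lit 2016917), (nat_lit 6412367)]) (PF.cons (PF.leaf (nat_lit 6419082) (nat_lit 502585) (nat_lit 43892049) (nat_lit 12263885) [(nat_lit 502585), (nat_lit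
 2031420), (nat_lit 6408528)]) (PF.cons (PF.leaf (nat_lit 6743922) (nat_lit 511465) (nat_lit 43384144) (nat_lit 12208997) [(nat_lit 511465), (nat_lit 2044410), (nat_lit 6402470)]) (PF.cons (PF.leaf (nat_lit 7074749) (nat_lit 519462) (nat_lit 42871325) (nat_lit 12151117) [(nat_lit 519462), (nat_lit 2055923), (nat_lit 6394208)]) (PF.cons (PF.leaf (nat_lit 7410511) (nat_lit 526663) (nat_lit 42355292) (nat_lit 12090420) [(nat_lit 526663), (nat_lit 2066005), (nat_lit 6383785)]) (PF.cons (PF.leaf (nat_lit 7750276) (nat_lit 533140) (nat_lit 41837504) (nat_lit 12027077) [(nat_lit 533140), (nat_lit 2074711), (nat_lit 6371258)]) (PF.cons PF.nil (PF.cons PF.nil PF.nil)))))))))))) (PF.cons (PF.cons (PF.leaf (nat_lit 5765057) (nat_lit 2000566) (nat_lit 44398014) (nat_lit 12308144) [(nat_lit 0), (nat_lit 2000566), (nat_lit 6401521)]) (PF.cons (PF.leaf (nat_lit 6056637) (nat_lit 486598) (nat_lit 43932714) (nat_lit 12260328) [(nat_lit 486598), (nat_lit 2015389), (nat_lit 6398391)])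 (PF.cons (PF.leaf (nat_lit 6359497) (nat_lit 497077) (nat_lit 43454546) (nat_lit 12209036) [(nat_lit 497077), (nat_lit 2028914), (nat_lit 6393247)]) (PF.cons (PF.leaf (nat_lit 6671281) (nat_lit 506415) (nat_lit
 42966816) (nat_lit 12154504) [(nat_lit 506415), (nat_lit 2041097), (nat_lit 6386049)]) (PF.cons (PF.leaf (nat_lit 6990421) (nat_lit 514767) (nat_lit 42472132) (nat_lit 12096945) [(nat_lit 514767), (nat_lit 2051934), (nat_lit 6376796)]) (PF.cons (PF.leaf (nat_lit 7315610) (nat_lit 522248) (nat_lit 41972613) (nat_lit 12036557) [(nat_lit 522248), (nat_lit 2061446), (nat_lit 6365509)]) (PF.cons (PF.leaf (nat_lit 7645737) (nat_lit 528949) (nat_lit 41470018) (nat_lit 11973530) [(nat_lit 528949), (nat_lit 2069666), (nat_lit 6352236)]) (PF.cons (PF.leaf (nat_lit 7979836) (nat_lit 534945) (nat_lit 40965830) (nat_lit 11908051) [(nat_lit 534945), (nat_lit 2076639), (nat_lit 6337035)]) (PF.cons (PF.leaf (nat_lit 8317053) (nat_lit 540299) (nat_lit 40461312) (nat_lit 11840299)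 [(nat_lit 540299), (nat_lit 2082413), (nat_lit 6319978)]) (PF.cons PF.nil PF.nil)))))))))) (PF.cons (PF.cons (PF.leaf (nat_lit 6613785) (nat_lit 2037670) (nat_lit 42530905) (nat_lit 12096522) [(nat_lit 0), (nat_lit 2037670), (nat_lit 6368372)]) (PF.cons (PF.leaf (nat_lit 6918550) (nat_lit 509152) (nat_lit 42058225) (nat_lit 12039823) [(nat_lit 509152), (nat_lit 2047782), (nat_lit 6358263)]) (PF.cons (PF.leaf (nat_lit
 7231393) (nat_lit 517087) (nat_lit 41578131) (nat_lit 11980175) [(nat_lit 517087), (nat_lit 2056698), (nat_lit 6346235)]) (PF.cons (PF.leaf (nat_lit 7550485) (nat_lit 524143) (nat_lit 41092972) (nat_lit 11917816) [(nat_lit 524143), (nat_lit 2064423), (nat_lit 6332322)]) (PF.cons (PF.leaf (nat_lit 7874655) (nat_lit 530424) (nat_lit 40604635) (nat_lit 11852961) [(nat_lit 530424), (nat_lit 2070981), (nat_lit 6316575)]) (PF.cons (PF.leaf (nat_lit 8202863) (nat_lit 536010) (nat_lit 40114674) (nat_lit 11785812) [(nat_lit 536010), (nat_lit 2076405), (nat_lit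 6299055)]) (PF.cons (PF.leaf (nat_lit 8534222) (nat_lit 540968) (nat_lit 39624387) (nat_lit 11716558) [(nat_lit 540968), (nat_lit 2080739), (nat_lit 6279836)]) (PF.cons PF.nil PF.nil)))))))) (PF.cons (PF.cons (PF.leaf (nat_lit 7467887) (nat_lit 2058997) (nat_lit 40702208) (nat_lit 11859296) [(nat_lit 0), (nat_lit 2058997), (nat_lit 6311319)]) (PF.cons (PF.leaf (nat_lit 7780061) (nat_lit 525210) (nat_lit 40232446) (nat_lit 11795492) [(nat_lit 525210), (nat_lit 2065127), (nat_lit 6295154)]) (PF.cons (PF.leaf (nat_lit 8097884) (nat_lit 531149) (nat_lit 39759137) (nat_lit 11729289) [(nat_lit 531149), (nat_lit 2070200), (nat_lit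
 6277284)]) (PF.cons (PF.leaf (nat_lit 8419933) (nat_lit 536393) (nat_lit 39283968) (nat_lit 11660911) [(nat_lit 536393), (nat_lit 2074243), (nat_lit 6257775)]) (PF.cons (PF.leaf (nat_lit 8745256) (nat_lit 541016) (nat_lit 38808315) (nat_lit 11590563) [(nat_lit 541016), (nat_lit 2077291), (nat_lit 6236702)]) (PF.cons PF.nil PF.nil)))))) (PF.cons (PF.cons (PF.leaf (nat_lit 8316387) (nat_lit 2067546) (nat_lit 38933281) (nat_lit 11603008) [(nat_lit 0), (nat_lit 2067546), (nat_lit 6234789)]) (PF.cons (PF.leaf (nat_lit 8631643) (nat_lit 536143) (nat_lit 38473450) (nat_lit 11533825) [(nat_lit 536143), (nat_lit 2070358), (nat_lit 6213599)]) (PF.cons (PF.leaf (nat_lit 8950698) (nat_lit 540489) (nat_lit 38012800) (nat_lit 11462768) [(nat_lit 540489), (nat_lit 2072261), (nat_lit 6190959)]) (PF.cons (PF.leaf (nat_lit 9272408) (nat_lit 544276) (nat_lit 37552554) (nat_lit 11390039) [(nat_lit 544276), (nat_lit 2073288), (nat_lit 6166948)]) PF.nil)))) (PF.cons (PF.cons (PF.leaf (nat_lit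 9151450) (nat_lit 2065816) (nat_lit 37237402) (nat_lit 11333565) [(nat_lit 0), (nat_lit 2065816), (nat_lit 6142943)]) (PF.cons (PF.leaf (nat_lit 9466566) (nat_lit 542991) (nat_lit 36792129) (nat_lit 11260570)
 [(nat_lit 542991), (nat_lit 2065898), (nat_lit 6117730)]) PF.nil)) (PF.cons PF.nil (PF.cons PF.nil (PF.cons PF.nil PF.nil)))))))))) (PF.cons (PF.cons (PF.cons (PF.leaf (nat_lit 5841156) (nat_lit 6294092) (nat_lit 42490108) (nat_lit 12030520) [(nat_lit 0), (nat_lit 0), (nat_lit 6294092)]) (PF.cons (PF.leaf (nat_lit 6108110) (nat_lit 465549) (nat_lit 42082940) (nat_lit 11983478) [(nat_lit 465549), (nat_lit 0), (nat_lit 6288422)]) (PF.cons (PF.leaf (nat_lit 6389042) (nat_lit 477701) (nat_lit 41658671) (nat_lit 11932811) [(nat_lit 477701), (nat_lit 0), (nat_lit 6280963)]) (PF.cons (PF.leaf (nat_lit 6680810) (nat_lit 488305) (nat_lit 41221648) (nat_lit 11878886) [(nat_lit 488305), (nat_lit 0), (nat_lit 6271681)]) (PF.cons (PF.leaf (nat_lit 6981410) (nat_lit 497632)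 (nat_lit 40775138) (nat_lit 11821998) [(nat_lit 497632), (nat_lit 0), (nat_lit 6260574)]) (PF.cons (PF.leaf (nat_lit 7289244) (nat_lit 505877) (nat_lit 40321701) (nat_lit 11762396) [(nat_lit 505877), (nat_lit 0), (nat_lit 6247663)]) (PF.cons (PF.leaf (nat_lit 7603005) (nat_lit 513188) (nat_lit 39863402) (nat_lit 11700303) [(nat_lit 513188), (nat_lit 0), (nat_lit 6232988)]) (PF.cons (PF.leaf (nat_lit 7921579) (nat_lit 519676)
 (nat_lit 39401945) (nat_lit 11635923) [(nat_lit 519676), (nat_lit 0), (nat_lit 6216603)]) (PF.cons (PF.leaf (nat_lit 8244020) (nat_lit 525434) (nat_lit 38938750) (nat_lit 11569446) [(nat_lit 525434), (nat_lit 0), (nat_lit 6198569)]) (PF.cons (PF.leaf (nat_lit 8569517) (nat_lit 530535) (nat_lit 38475022) (nat_lit 11501051) [(nat_lit 530535), (nat_lit 0), (nat_lit 6178958)]) (PF.cons PF.nil (PF.cons PF.nil PF.nil)))))))))))) (PF.cons (PF.cons (PF.leaf (nat_lit 6637222) (nat_lit 1997666) (nat_lit 40790738) (nat_lit 11817116) [(nat_lit 0), (nat_lit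 1997666), (nat_lit 6251645)]) (PF.cons (PF.leaf (nat_lit 6921222) (nat_lit 490565) (nat_lit 40368760) (nat_lit 11761894) [(nat_lit 490565), (nat_lit 2007506), (nat_lit 6240043)]) (PF.cons (PF.leaf (nat_lit 7215141) (nat_lit 499552) (nat_lit 39936445) (nat_lit 11703679) [(nat_lit 499552), (nat_lit 2016183), (nat_lit 6226700)]) (PF.cons (PF.leaf (nat_lit 7516727) (nat_lit 507431) (nat_lit 39496727) (nat_lit 11642786) [(nat_lit 507431), (nat_lit 2023695), (nat_lit 6211655)]) (PF.cons (PF.leaf (nat_lit 7824504) (nat_lit 514367) (nat_lit 39051885) (nat_lit 11579476) [(nat_lit 514367), (nat_lit 2030062), (nat_lit 6194958)]) (PF.cons (PF.leaf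
 (nat_lit 8137270) (nat_lit 520485) (nat_lit 38603742) (nat_lit 11513979) [(nat_lit 520485), (nat_lit 2035321), (nat_lit 6176670)]) (PF.cons (PF.leaf (nat_lit 8454007) (nat_lit 525882) (nat_lit 38153786) (nat_lit 11446501) [(nat_lit 525882), (nat_lit 2039515), (nat_lit 6156857)]) (PF.cons (PF.leaf (nat_lit 8773859) (nat_lit 530635) (nat_lit 37703257) (nat_lit 11377229) [(nat_lit 530635), (nat_lit 2042692), (nat_lit 6135591)]) (PF.cons PF.nil (PF.cons PF.nil PF.nil)))))))))) (PF.cons (PF.cons (PF.leaf (nat_lit 7445773) (nat_lit 2017585) (nat_lit 39113478) (nat_lit 11581988) [(nat_lit 0), (nat_lit 2017585), (nat_lit 6189087)]) (PF.cons (PF.leaf (nat_lit 7740068) (nat_lit 508142) (nat_lit 38688700) (nat_lit 11520300) [(nat_lit 508142), (nat_lit 2023586), (nat_lit 6172248)]) (PF.cons (PF.leaf (nat_lit 8041369) (nat_lit 514800) (nat_lit 38258193) (nat_lit 11456212) [(nat_lit 514800), (nat_lit 2028559), (nat_lit 6153844)]) (PF.cons (PF.leaf (nat_lit 8347978) (nat_lit 520625)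 (nat_lit 37823998) (nat_lit 11389993) [(nat_lit 520625), (nat_lit 2032527), (nat_lit 6133945)]) (PF.cons (PF.leaf (nat_lit 8658773) (nat_lit 525727) (nat_lit 37387732) (nat_lit 11321872) [(nat_lit 525727), (nat_lit
 2035525), (nat_lit 6112623)]) (PF.cons (PF.leaf (nat_lit 8972830) (nat_lit 530190) (nat_lit 36950710) (nat_lit 11252053) [(nat_lit 530190), (nat_lit 2037594), (nat_lit 6089953)]) (PF.cons PF.nil (PF.cons PF.nil PF.nil)))))))) (PF.cons (PF.cons (PF.leaf (nat_lit 8254639) (nat_lit 2025335) (nat_lit 37481944) (nat_lit 11330882) [(nat_lit 0), (nat_lit 2025335), (nat_lit 6109990)]) (PF.cons (PF.leaf (nat_lit 8554323) (nat_lit 520135) (nat_lit 37062360) (nat_lit 11264331) [(nat_lit 520135), (nat_lit 2028156), (nat_lit 6088757)]) (PF.cons (PF.leaf (nat_lit 8858876) (nat_lit 525009) (nat_lit 36640234) (nat_lit 11195915) [(nat_lit 525009), (nat_lit 2030092), (nat_lit 6066182)]) (PF.cons (PF.leaf (nat_lit 9166933) (nat_lit 529238) (nat_lit 36217010) (nat_lit 11125861)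 [(nat_lit 529238), (nat_lit 2031177), (nat_lit 6042346)]) (PF.cons (PF.leaf (nat_lit 9477656) (nat_lit 532898) (nat_lit 35793851) (nat_lit 11054366) [(nat_lit 532898), (nat_lit 2031447), (nat_lit 6017328)]) (PF.cons PF.nil PF.nil)))))) (PF.cons (PF.cons (PF.leaf (nat_lit 9055223) (nat_lit 2023369) (nat_lit 35910789) (nat_lit 11068925) [(nat_lit 0), (nat_lit 2023369), (nat_lit 6017809)]) (PF.cons (PF.leaf (nat_lit 9356699)
 (nat_lit 527811) (nat_lit 35501674) (nat_lit 10998940) [(nat_lit 527811), (nat_lit 2023581), (nat_lit 5993029)]) (PF.cons (PF.leaf (nat_lit 9661420) (nat_lit 531287) (nat_lit 35092224) (nat_lit 10927555) [(nat_lit 531287), (nat_lit 2023044), (nat_lit 5967139)]) (PF.cons PF.nil PF.nil)))) (PF.cons (PF.cons (PF.leaf (nat_lit 9841502) (nat_lit 2013683) (nat_lit 34408559) (nat_lit 10800513) [(nat_lit 0), (nat_lit 2013683), (nat_lit 5915661)]) (PF.cons PF.nil PF.nil)) (PF.cons PF.nil (PF.cons PF.nil PF.nil)))))))) (PF.cons (PF.cons (PF.cons (PF.leaf (nat_lit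 7430061) (nat_lit 6065076) (nat_lit 37607280) (nat_lit 11306304) [(nat_lit 0), (nat_lit 0), (nat_lit 6065076)]) (PF.cons (PF.leaf (nat_lit 7705313) (nat_lit 488962) (nat_lit 37227255) (nat_lit 11247830) [(nat_lit 488962), (nat_lit 0), (nat_lit 6048255)]) (PF.cons (PF.leaf (nat_lit 7989442) (nat_lit 496759) (nat_lit 36838736) (nat_lit 11186778) [(nat_lit 496759), (nat_lit 0), (nat_lit 6029926)]) (PF.cons (PF.leaf (nat_lit 8280270) (nat_lit 503492) (nat_lit 36444311) (nat_lit 11123496) [(nat_lit 503492), (nat_lit 0), (nat_lit 6010175)]) (PF.cons (PF.leaf (nat_lit 8576413) (nat_lit 509333) (nat_lit 36045964) (nat_lit 11058264)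
 [(nat_lit 509333), (nat_lit 0), (nat_lit 5989083)]) (PF.cons (PF.leaf (nat_lit 8876756) (nat_lit 514408) (nat_lit 35645266) (nat_lit 10991321) [(nat_lit 514408), (nat_lit 0), (nat_lit 5966728)]) (PF.cons (PF.leaf (nat_lit 9180402) (nat_lit 518816) (nat_lit 35243487) (nat_lit 10922869) [(nat_lit 518816), (nat_lit 0), (nat_lit 5943186)]) (PF.cons PF.nil PF.nil)))))))) (PF.cons (PF.cons (PF.leaf (nat_lit 8199370) (nat_lit 1981876) (nat_lit 36108052) (nat_lit 11063019) [(nat_lit 0), (nat_lit 1981876), (nat_lit 5985288)]) (PF.cons (PF.leaf (nat_lit 8482894) (nat_lit 502810) (nat_lit 35727701) (nat_lit 10999819) [(nat_lit 502810), (nat_lit 1984984), (nat_lit 5964498)]) (PF.cons (PF.leaf (nat_lit 8772629) (nat_lit 508475) (nat_lit 35342768) (nat_lit 10934642) [(nat_lit 508475), (nat_lit 1987203), (nat_lit 5942415)]) (PF.cons (PF.leaf (nat_lit 9066934) (nat_lit 513356) (nat_lit 34955027) (nat_lit 10867763) [(nat_lit 513356), (nat_lit 1988567), (nat_lit 5919128)]) (PF.cons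 (PF.leaf (nat_lit 9364801) (nat_lit 517563) (nat_lit 34565871) (nat_lit 10799410) [(nat_lit 517563), (nat_lit 1989116), (nat_lit 5894720)]) (PF.cons PF.nil PF.nil)))))) (PF.cons (PF.cons (PF.leaf (nat_lit 8966037)
 (nat_lit 1980428) (nat_lit 34655532) (nat_lit 10810224) [(nat_lit 0), (nat_lit 1980428), (nat_lit 5894066)]) (PF.cons (PF.leaf (nat_lit 9253586) (nat_lit 511817) (nat_lit 34281193) (nat_lit 10743703) [(nat_lit 511817), (nat_lit 1980966), (nat_lit 5870055)]) (PF.cons (PF.leaf (nat_lit 9545410) (nat_lit 515880) (nat_lit 33904931) (nat_lit 10675703) [(nat_lit 515880), (nat_lit 1980753), (nat_lit 5844970)]) (PF.cons (PF.leaf (nat_lit 9840249) (nat_lit 519343) (nat_lit 33527990) (nat_lit 10606445) [(nat_lit 519343), (nat_lit 1979827), (nat_lit 5818897)]) PF.nil)))) (PF.cons (PF.cons (PF.leaf (nat_lit 9723122) (nat_lit 1971499) (nat_lit 33260072) (nat_lit 10551913) [(nat_lit 0), (nat_lit 1971499), (nat_lit 5794109)]) (PF.cons (PF.leaf (nat_lit 10011640) (nat_lit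 517143) (nat_lit 32895825) (nat_lit 10483248) [(nat_lit 517143), (nat_lit 1969955), (nat_lit 5767576)]) PF.nil)) (PF.cons PF.nil (PF.cons PF.nil PF.nil)))))) (PF.cons (PF.cons (PF.cons (PF.leaf (nat_lit 8886122) (nat_lit 5771874) (nat_lit 33463993) (nat_lit 10557320) [(nat_lit 0), (nat_lit 0), (nat_lit 5771874)]) (PF.cons (PF.leaf (nat_lit 9159030) (nat_lit 494739) (nat_lit 33123585) (nat_lit 10494715) [(nat_lit 494739),
 (nat_lit 0), (nat_lit 5748943)]) (PF.cons (PF.leaf (nat_lit 9437536) (nat_lit 499624) (nat_lit 32779398) (nat_lit 10430457) [(nat_lit 499624), (nat_lit 0), (nat_lit 5724927)]) (PF.cons (PF.leaf (nat_lit 9720091) (nat_lit 503770) (nat_lit 32432980) (nat_lit 10364815) [(nat_lit 503770), (nat_lit 0), (nat_lit 5699926)]) (PF.cons (PF.leaf (nat_lit 10005702) (nat_lit 507288) (nat_lit 32085535) (nat_lit 10298011) [(nat_lit 507288), (nat_lit 0), (nat_lit 5674028)]) (PF.cons PF.nil PF.nil)))))) (PF.cons (PF.cons (PF.leaf (nat_lit 9613998) (nat_lit 1929292)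 (nat_lit 32170130) (nat_lit 10309981) [(nat_lit 0), (nat_lit 1929292), (nat_lit 5674852)]) (PF.cons (PF.leaf (nat_lit 9890016) (nat_lit 501532) (nat_lit 31835787) (nat_lit 10245109) [(nat_lit 501532), (nat_lit 1928256), (nat_lit 5649532)]) (PF.cons (PF.leaf (nat_lit 10169870) (nat_lit 504967) (nat_lit 31499911) (nat_lit 10179042) [(nat_lit 504967), (nat_lit 1926575), (nat_lit 5623336)]) (PF.cons PF.nil PF.nil)))) (PF.cons (PF.cons (PF.leaf (nat_lit 10331815) (nat_lit 1915811) (nat_lit 30928380) (nat_lit 10060546) [(nat_lit 0), (nat_lit 1915811), (nat_lit 5572065)]) (PF.cons PF.nil PF.nil)) (PF.cons PF.nil PF.nil)))) (PF.cons (PF.cons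
 (PF.cons (PF.leaf (nat_lit 10208350) (nat_lit 5459002) (nat_lit 29977427) (nat_lit 9836374) [(nat_lit 0), (nat_lit 0), (nat_lit 5459002)]) (PF.cons (PF.leaf (nat_lit 10473498) (nat_lit 490122) (nat_lit 29678091) (nat_lit 9774050) [(nat_lit 490122), (nat_lit 0), (nat_lit 5433309)]) PF.nil)) (PF.cons PF.nil PF.nil)) (PF.cons PF.nil (PF.cons PF.nil (PF.cons PF.nil (PF.cons PF.nil PF.nil))))))))))

def p12_18_2_0 : pfC (piC [(nat_lit 38632330), (nat_lit 24534081), (nat_lit 15702173)] (nat_lit 7528973)) p12_18_2 (nat_lit 3) (nat_lit 0) (nat_lit 1) = true := by decide +kernel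
def p12_18_2_1 : pfC (piC [(nat_lit 38632330), (nat_lit 24534081), (nat_lit 15702173)] (nat_lit 7528973)) p12_18_2 (nat_lit 3) (nat_lit 1) (nat_lit 2) = true := by decide +kernel
def p12_18_2_2 : pfC (piC [(nat_lit 38632330), (nat_lit 24534081), (nat_lit 15702173)] (nat_lit 7528973)) p12_18_2 (nat_lit 3) (nat_lit 2) (nat_lit 3) = true := by decide +kernel
def p12_18_2_3 : pfC (piC [(nat_lit 38632330), (nat_lit 24534081), (nat_lit 15702173)] (nat_lit 7528973)) p12_18_2 (nat_lit 3) (nat_lit 3) (nat_lit 4) = true := by decide +kernel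
def p12_18_2_4 : pfC (piC [(nat_lit 38632330), (nat_lit 24534081), (nat_lit 15702173)] (nat_lit 7528973)) p12_18_2 (nat_lit 3) (nat_lit 4) (nat_lit 5) = true := by decide +kernel
def p12_18_2_5 : pfC (piC [(nat_lit 38632330), (nat_lit 24534081), (nat_lit 15702173)] (nat_lit 7528973)) p12_18_2 (nat_lit 3) (nat_lit 5) (nat_lit 6) = true := by decide +kernel
def p12_18_2_6 : pfC (piC [(nat_lit 38632330), (nat_lit 24534081), (nat_lit 15702173)] (nat_lit 7528973)) p12_18_2 (nat_lit 3) (nat_lit 6) (nat_lit 7) = true := by decide +kernel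
def p12_18_2_7 : pfC (piC [(nat_lit 38632330), (nat_lit 24534081), (nat_lit 15702173)] (nat_lit 7528973)) p12_18_2 (nat_lit 3) (nat_lit 7) (nat_lit 8) = true := by decide +kernel
def p12_18_2_8 : pfC (piC [(nat_lit 38632330), (nat_lit 24534081), (nat_lit 15702173)] (nat_lit 7528973)) p12_18_2 (nat_lit 3) (nat_lit 8) (nat_lit 9) = true := by decide +kernel
def p12_18_2_9 : pfC (piC [(nat_lit 38632330), (nat_lit 24534081), (nat_lit 15702173)] (nat_lit 7528973)) p12_18_2 (nat_lit 3) (nat_lit 9) (nat_lit 10) = true := by decide +kernel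
def p12_18_2_10 : pfC (piC [(nat_lit 38632330), (nat_lit 24534081), (nat_lit 15702173)] (nat_lit 7528973)) p12_18_2 (nat_lit 3) (nat_lit 10) (nat_lit 11) = true := by decide +kernel
def p12_18_2_11 : pfC (piC [(nat_lit 38632330), (nat_lit 24534081), (nat_lit 15702173)] (nat_lit 7528973)) p12_18_2 (nat_lit 3) (nat_lit 11) (nat_lit 12) = true := by decide +kernel
def p12_18_2_12 : pfC (piC [(nat_lit 38632330), (nat_lit 24534081), (nat_lit 15702173)] (nat_lit 7528973)) p12_18_2 (nat_lit 3) (nat_lit 12) (nat_lit 13) = true := by decide +kernel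
def p12_18_2_13 : pfC (piC [(nat_lit 38632330), (nat_lit 24534081), (nat_lit 15702173)] (nat_lit 7528973)) p12_18_2 (nat_lit 3) (nat_lit 13) (nat_lit 14) = true := by decide +kernel
def p12_18_2_14 : pfC (piC [(nat_lit 38632330), (nat_lit 24534081), (nat_lit 15702173)] (nat_lit 7528973)) p12_18_2 (nat_lit 3) (nat_lit 14) (nat_lit 15) = true := by decide +kernel
def p12_18_2_15 : pfC (piC [(nat_lit 38632330), (nat_lit 24534081), (nat_lit 15702173)] (nat_lit 7528973)) p12_18_2 (nat_lit 3) (nat_lit 15) (nat_lit 16) = true := by decide +kernel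
def p12_18_2_16 : pfC (piC [(nat_lit 38632330), (nat_lit 24534081), (nat_lit 15702173)] (nat_lit 7528973)) p12_18_2 (nat_lit 3) (nat_lit 16) (nat_lit 17) = true := by decide +kernel
def p12_18_2_17 : pfC (piC [(nat_lit 38632330), (nat_lit 24534081), (nat_lit 15702173)] (nat_lit 7528973)) p12_18_2 (nat_lit 3) (nat_lit 17) (nat_lit 18) = true := by decide +kernel
def p12_18_2_18 : pfC (piC [(nat_lit 38632330), (nat_lit 24534081), (nat_lit 15702173)] (nat_lit 7528973)) p12_18_2 (nat_lit 3) (nat_lit 18) (nat_lit 19) = true := by decide +kernel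
def p12_18_2_19 : pfC (piC [(nat_lit 38632330), (nat_lit 24534081), (nat_lit 15702173)] (nat_lit 7528973)) p12_18_2 (nat_lit 3) (nat_lit 19) (nat_lit 20) = true := by decide +kernel
def p12_18_2_20 : pfC (piC [(nat_lit 38632330), (nat_lit 24534081), (nat_lit 15702173)] (nat_lit 7528973)) p12_18_2 (nat_lit 3) (nat_lit 20) (nat_lit 21) = true := by decide +kernel
def p12_18_2_21 : pfC (piC [(nat_lit 38632330), (nat_lit 24534081), (nat_lit 15702173)] (nat_lit 7528973)) p12_18_2 (nat_lit 3) (nat_lit 21) (nat_lit 22) = true := by decide +kernel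
def p12_18_2_22 : pfC (piC [(nat_lit 38632330), (nat_lit 24534081), (nat_lit 15702173)] (nat_lit 7528973)) p12_18_2 (nat_lit 3) (nat_lit 22) (nat_lit 23) = true := by decide +kernel
def p12_18_2_23 : pfC (piC [(nat_lit 38632330), (nat_lit 24534081), (nat_lit 15702173)] (nat_lit 7528973)) p12_18_2 (nat_lit 3) (nat_lit 23) (nat_lit 24) = true := by decide +kernel
def p12_18_2_24 : pfC (piC [(nat_lit 38632330), (nat_lit 24534081), (nat_lit 15702173)] (nat_lit 7528973)) p12_18_2 (nat_lit 3) (nat_lit 24) (nat_lit 25) = true := by decide +kernel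
def p12_18_2_25 : pfC (piC [(nat_lit 38632330), (nat_lit 24534081), (nat_lit 15702173)] (nat_lit 7528973)) p12_18_2 (nat_lit 3) (nat_lit 25) (nat_lit 26) = true := by decide +kernel
def p12_18_2_26 : pfC (piC [(nat_lit 38632330), (nat_lit 24534081), (nat_lit 15702173)] (nat_lit 7528973)) p12_18_2 (nat_lit 3) (nat_lit 26) (nat_lit 27) = true := by decide +kernel
def p12_18_2_27 : pfC (piC [(nat_lit 38632330), (nat_lit 24534081), (nat_lit 15702173)] (nat_lit 7528973)) p12_18_2 (nat_lit 3) (nat_lit 27) (nat_lit 28) = true := by decide +kernel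
def p12_18_2_28 : pfC (piC [(nat_lit 38632330), (nat_lit 24534081), (nat_lit 15702173)] (nat_lit 7528973)) p12_18_2 (nat_lit 3) (nat_lit 28) (nat_lit 29) = true := by decide +kernel
def p12_18_2_29 : pfC (piC [(nat_lit 38632330), (nat_lit 24534081), (nat_lit 15702173)] (nat_lit 7528973)) p12_18_2 (nat_lit 3) (nat_lit 29) (nat_lit 30) = true := by decide +kernel
def p12_18_2_30 : pfC (piC [(nat_lit 38632330), (nat_lit 24534081), (nat_lit 15702173)] (nat_lit 7528973)) p12_18_2 (nat_lit 3) (nat_lit 30) (nat_lit 31) = true := by decide +kernel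
def p12_18_2_31 : pfC (piC [(nat_lit 38632330), (nat_lit 24534081), (nat_lit 15702173)] (nat_lit 7528973)) p12_18_2 (nat_lit 3) (nat_lit 31) (nat_lit 32) = true := by decide +kernel
def p12_18_2_32 : pfC (piC [(nat_lit 38632330), (nat_lit 24534081), (nat_lit 15702173)] (nat_lit 7528973)) p12_18_2 (nat_lit 3) (nat_lit 32) (nat_lit 33) = true := by decide +kernel
def p12_18_2_33 : pfC (piC [(nat_lit 38632330), (nat_lit 24534081), (nat_lit 15702173)] (nat_lit 7528973)) p12_18_2 (nat_lit 3) (nat_lit 33) (nat_lit 34) = true := by decide +kernel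
def p12_18_2_34 : pfC (piC [(nat_lit 38632330), (nat_lit 24534081), (nat_lit 15702173)] (nat_lit 7528973)) p12_18_2 (nat_lit 3) (nat_lit 34) (nat_lit 35) = true := by decide +kernel
def p12_18_2_35 : pfC (piC [(nat_lit 38632330), (nat_lit 24534081), (nat_lit 15702173)] (nat_lit 7528973)) p12_18_2 (nat_lit 3) (nat_lit 35) (nat_lit 36) = true := by decide +kernel
def p12_18_2_36 : pfC (piC [(nat_lit 38632330), (nat_lit 24534081), (nat_lit 15702173)] (nat_lit 7528973)) p12_18_2 (nat_lit 3) (nat_lit 36) (nat_lit 37) = true := by decide +kernel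
def p12_18_2_37 : pfC (piC [(nat_lit 38632330), (nat_lit 24534081), (nat_lit 15702173)] (nat_lit 7528973)) p12_18_2 (nat_lit 3) (nat_lit 37) (nat_lit 38) = true := by decide +kernel
def p12_18_2_38 : pfC (piC [(nat_lit 38632330), (nat_lit 24534081), (nat_lit 15702173)] (nat_lit 7528973)) p12_18_2 (nat_lit 3) (nat_lit 38) (nat_lit 39) = true := by decide +kernel
def p12_18_2_39 : pfC (piC [(nat_lit 38632330), (nat_lit 24534081), (nat_lit 15702173)] (nat_lit 7528973)) p12_18_2 (nat_lit 3) (nat_lit 39) (nat_lit 40) = true := by decide +kernel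
def p12_18_2_40 : pfC (piC [(nat_lit 38632330), (nat_lit 24534081), (nat_lit 15702173)] (nat_lit 7528973)) p12_18_2 (nat_lit 3) (nat_lit 40) (nat_lit 41) = true := by decide +kernel
def p12_18_2_41 : pfC (piC [(nat_lit 38632330), (nat_lit 24534081), (nat_lit 15702173)] (nat_lit 7528973)) p12_18_2 (nat_lit 3) (nat_lit 41) (nat_lit 42) = true := by decide +kernel
def p12_18_2_42 : pfC (piC [(nat_lit 38632330), (nat_lit 24534081), (nat_lit 15702173)] (nat_lit 7528973)) p12_18_2 (nat_lit 3) (nat_lit 42) (nat_lit 43) = true := by decide +kernel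
def p12_18_2_43 : pfC (piC [(nat_lit 38632330), (nat_lit 24534081), (nat_lit 15702173)] (nat_lit 7528973)) p12_18_2 (nat_lit 3) (nat_lit 43) (nat_lit 44) = true := by decide +kernel
def p12_18_2_44 : pfC (piC [(nat_lit 38632330), (nat_lit 24534081), (nat_lit 15702173)] (nat_lit 7528973)) p12_18_2 (nat_lit 3) (nat_lit 44) (nat_lit 45) = true := by decide +kernel
def p12_18_2_45 : pfC (piC [(nat_lit 38632330), (nat_lit 24534081), (nat_lit 15702173)] (nat_lit 7528973)) p12_18_2 (nat_lit 3) (nat_lit 45) (nat_lit 46) = true := by decide +kernel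
def p12_18_2_46 : pfC (piC [(nat_lit 38632330), (nat_lit 24534081), (nat_lit 15702173)] (nat_lit 7528973)) p12_18_2 (nat_lit 3) (nat_lit 46) (nat_lit 47) = true := by decide +kernel
def p12_18_2_47 : pfC (piC [(nat_lit 38632330), (nat_lit 24534081), (nat_lit 15702173)] (nat_lit 7528973)) p12_18_2 (nat_lit 3) (nat_lit 47) (nat_lit 48) = true := by decide +kernel
def p12_18_2_48 : pfC (piC [(nat_lit 38632330), (nat_lit 24534081), (nat_lit 15702173)] (nat_lit 7528973)) p12_18_2 (nat_lit 3) (nat_lit 48) (nat_lit 49) = true := by decide +kernel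
def p12_18_2_49 : pfC (piC [(nat_lit 38632330), (nat_lit 24534081), (nat_lit 15702173)] (nat_lit 7528973)) p12_18_2 (nat_lit 3) (nat_lit 49) (nat_lit 50) = true := by decide +kernel
def p12_18_2_50 : pfC (piC [(nat_lit 38632330), (nat_lit 24534081), (nat_lit 15702173)] (nat_lit 7528973)) p12_18_2 (nat_lit 3) (nat_lit 50) (nat_lit 51) = true := by decide +kernel
def p12_18_2_51 : pfC (piC [(nat_lit 38632330), (nat_lit 24534081), (nat_lit 15702173)] (nat_lit 7528973)) p12_18_2 (nat_lit 3) (nat_lit 51) (nat_lit 52) = true := by decide +kernel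
def p12_18_2_52 : pfC (piC [(nat_lit 38632330), (nat_lit 24534081), (nat_lit 15702173)] (nat_lit 7528973)) p12_18_2 (nat_lit 3) (nat_lit 52) (nat_lit 53) = true := by decide +kernel
def p12_18_2_53 : pfC (piC [(nat_lit 38632330), (nat_lit 24534081), (nat_lit 15702173)] (nat_lit 7528973)) p12_18_2 (nat_lit 3) (nat_lit 53) (nat_lit 54) = true := by decide +kernel
def p12_18_2_54 : pfC (piC [(nat_lit 38632330), (nat_lit 24534081), (nat_lit 15702173)] (nat_lit 7528973)) p12_18_2 (nat_lit 3) (nat_lit 54) (nat_lit 55) = true := by decide +kernel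
def p12_18_2_55 : pfC (piC [(nat_lit 38632330), (nat_lit 24534081), (nat_lit 15702173)] (nat_lit 7528973)) p12_18_2 (nat_lit 3) (nat_lit 55) (nat_lit 56) = true := by decide +kernel
def p12_18_2_56 : pfC (piC [(nat_lit 38632330), (nat_lit 24534081), (nat_lit 15702173)] (nat_lit 7528973)) p12_18_2 (nat_lit 3) (nat_lit 56) (nat_lit 57) = true := by decide +kernel
def p12_18_2_57 : pfC (piC [(nat_lit 38632330), (nat_lit 24534081), (nat_lit 15702173)] (nat_lit 7528973)) p12_18_2 (nat_lit 3) (nat_lit 57) (nat_lit 58) = true := by decide +kernel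
def p12_18_2_58 : pfC (piC [(nat_lit 38632330), (nat_lit 24534081), (nat_lit 15702173)] (nat_lit 7528973)) p12_18_2 (nat_lit 3) (nat_lit 58) (nat_lit 59) = true := by decide +kernel
def p12_18_2_59 : pfC (piC [(nat_lit 38632330), (nat_lit 24534081), (nat_lit 15702173)] (nat_lit 7528973)) p12_18_2 (nat_lit 3) (nat_lit 59) (nat_lit 60) = true := by decide +kernel
def p12_18_2_60 : pfC (piC [(nat_lit 38632330), (nat_lit 24534081), (nat_lit 15702173)] (nat_lit 7528973)) p12_18_2 (nat_lit 3) (nat_lit 60) (nat_lit 61) = true := by decide +kernel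
def p12_18_2_61 : pfC (piC [(nat_lit 38632330), (nat_lit 24534081), (nat_lit 15702173)] (nat_lit 7528973)) p12_18_2 (nat_lit 3) (nat_lit 61) (nat_lit 62) = true := by decide +kernel
def p12_18_2_62 : pfC (piC [(nat_lit 38632330), (nat_lit 24534081), (nat_lit 15702173)] (nat_lit 7528973)) p12_18_2 (nat_lit 3) (nat_lit 62) (nat_lit 63) = true := by decide +kernel
def p12_18_2_63 : pfC (piC [(nat_lit 38632330), (nat_lit 24534081), (nat_lit 15702173)] (nat_lit 7528973)) p12_18_2 (nat_lit 3) (nat_lit 63) (nat_lit 64) = true := by decide +kernel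
def p12_18_2_64 : pfC (piC [(nat_lit 38632330), (nat_lit 24534081), (nat_lit 15702173)] (nat_lit 7528973)) p12_18_2 (nat_lit 3) (nat_lit 64) (nat_lit 65) = true := by decide +kernel
def p12_18_2_65 : pfC (piC [(nat_lit 38632330), (nat_lit 24534081), (nat_lit 15702173)] (nat_lit 7528973)) p12_18_2 (nat_lit 3) (nat_lit 65) (nat_lit 66) = true := by decide +kernel
def p12_18_2_66 : pfC (piC [(nat_lit 38632330), (nat_lit 24534081), (nat_lit 15702173)] (nat_lit 7528973)) p12_18_2 (nat_lit 3) (nat_lit 66) (nat_lit 67) = true := by decide +kernel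
def p12_18_2_67 : pfC (piC [(nat_lit 38632330), (nat_lit 24534081), (nat_lit 15702173)] (nat_lit 7528973)) p12_18_2 (nat_lit 3) (nat_lit 67) (nat_lit 68) = true := by decide +kernel
def p12_18_2_68 : pfC (piC [(nat_lit 38632330), (nat_lit 24534081), (nat_lit 15702173)] (nat_lit 7528973)) p12_18_2 (nat_lit 3) (nat_lit 68) (nat_lit 69) = true := by decide +kernel
def p12_18_2_69 : pfC (piC [(nat_lit 38632330), (nat_lit 24534081), (nat_lit 15702173)] (nat_lit 7528973)) p12_18_2 (nat_lit 3) (nat_lit 69) (nat_lit 70) = true := by decide +kernel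
def p12_18_2_70 : pfC (piC [(nat_lit 38632330), (nat_lit 24534081), (nat_lit 15702173)] (nat_lit 7528973)) p12_18_2 (nat_lit 3) (nat_lit 70) (nat_lit 71) = true := by decide +kernel
def p12_18_2_71 : pfC (piC [(nat_lit 38632330), (nat_lit 24534081), (nat_lit 15702173)] (nat_lit 7528973)) p12_18_2 (nat_lit 3) (nat_lit 71) (nat_lit 72) = true := by decide +kernel
def p12_18_2_72 : pfC (piC [(nat_lit 38632330), (nat_lit 24534081), (nat_lit 15702173)] (nat_lit 7528973)) p12_18_2 (nat_lit 3) (nat_lit 72) (nat_lit 73) = true := by decide +kernel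
def p12_18_2_73 : pfC (piC [(nat_lit 38632330), (nat_lit 24534081), (nat_lit 15702173)] (nat_lit 7528973)) p12_18_2 (nat_lit 3) (nat_lit 73) (nat_lit 74) = true := by decide +kernel
def p12_18_2_74 : pfC (piC [(nat_lit 38632330), (nat_lit 24534081), (nat_lit 15702173)] (nat_lit 7528973)) p12_18_2 (nat_lit 3) (nat_lit 74) (nat_lit 75) = true := by decide +kernel
def p12_18_2_75 : pfC (piC [(nat_lit 38632330), (nat_lit 24534081), (nat_lit 15702173)] (nat_lit 7528973)) p12_18_2 (nat_lit 3) (nat_lit 75) (nat_lit 76) = true := by decide +kernel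
def p12_18_2_76 : pfC (piC [(nat_lit 38632330), (nat_lit 24534081), (nat_lit 15702173)] (nat_lit 7528973)) p12_18_2 (nat_lit 3) (nat_lit 76) (nat_lit 77) = true := by decide +kernel
def p12_18_2_77 : pfC (piC [(nat_lit 38632330), (nat_lit 24534081), (nat_lit 15702173)] (nat_lit 7528973)) p12_18_2 (nat_lit 3) (nat_lit 77) (nat_lit 78) = true := by decide +kernel
def p12_18_2_78 : pfC (piC [(nat_lit 38632330), (nat_lit 24534081), (nat_lit 15702173)] (nat_lit 7528973)) p12_18_2 (nat_lit 3) (nat_lit 78) (nat_lit 79) = true := by decide +kernel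
def p12_18_2_79 : pfC (piC [(nat_lit 38632330), (nat_lit 24534081), (nat_lit 15702173)] (nat_lit 7528973)) p12_18_2 (nat_lit 3) (nat_lit 79) (nat_lit 80) = true := by decide +kernel
def p12_18_2_80 : pfC (piC [(nat_lit 38632330), (nat_lit 24534081), (nat_lit 15702173)] (nat_lit 7528973)) p12_18_2 (nat_lit 3) (nat_lit 80) (nat_lit 81) = true := by decide +kernel
def p12_18_2_81 : pfC (piC [(nat_lit 38632330), (nat_lit 24534081), (nat_lit 15702173)] (nat_lit 7528973)) p12_18_2 (nat_lit 3) (nat_lit 81) (nat_lit 82) = true := by decide +kernel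
def p12_18_2_82 : pfC (piC [(nat_lit 38632330), (nat_lit 24534081), (nat_lit 15702173)] (nat_lit 7528973)) p12_18_2 (nat_lit 3) (nat_lit 82) (nat_lit 83) = true := by decide +kernel
def p12_18_2_83 : pfC (piC [(nat_lit 38632330), (nat_lit 24534081), (nat_lit 15702173)] (nat_lit 7528973)) p12_18_2 (nat_lit 3) (nat_lit 83) (nat_lit 84) = true := by decide +kernel
def p12_18_2_84 : pfC (piC [(nat_lit 38632330), (nat_lit 24534081), (nat_lit 15702173)] (nat_lit 7528973)) p12_18_2 (nat_lit 3) (nat_lit 84) (nat_lit 85) = true := by decide +kernel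
def p12_18_2_85 : pfC (piC [(nat_lit 38632330), (nat_lit 24534081), (nat_lit 15702173)] (nat_lit 7528973)) p12_18_2 (nat_lit 3) (nat_lit 85) (nat_lit 86) = true := by decide +kernel
def p12_18_2_86 : pfC (piC [(nat_lit 38632330), (nat_lit 24534081), (nat_lit 15702173)] (nat_lit 7528973)) p12_18_2 (nat_lit 3) (nat_lit 86) (nat_lit 87) = true := by decide +kernel
def p12_18_2_87 : pfC (piC [(nat_lit 38632330), (nat_lit 24534081), (nat_lit 15702173)] (nat_lit 7528973)) p12_18_2 (nat_lit 3) (nat_lit 87) (nat_lit 88) = true := by decide +kernel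
def p12_18_2_88 : pfC (piC [(nat_lit 38632330), (nat_lit 24534081), (nat_lit 15702173)] (nat_lit 7528973)) p12_18_2 (nat_lit 3) (nat_lit 88) (nat_lit 89) = true := by decide +kernel
def p12_18_2_89 : pfC (piC [(nat_lit 38632330), (nat_lit 24534081), (nat_lit 15702173)] (nat_lit 7528973)) p12_18_2 (nat_lit 3) (nat_lit 89) (nat_lit 90) = true := by decide +kernel
def p12_18_2_90 : pfC (piC [(nat_lit 38632330), (nat_lit 24534081), (nat_lit 15702173)] (nat_lit 7528973)) p12_18_2 (nat_lit 3) (nat_lit 90) (nat_lit 91) = true := by decide +kernel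
def p12_18_2_91 : pfC (piC [(nat_lit 38632330), (nat_lit 24534081), (nat_lit 15702173)] (nat_lit 7528973)) p12_18_2 (nat_lit 3) (nat_lit 91) (nat_lit 92) = true := by decide +kernel
def p12_18_2_92 : pfC (piC [(nat_lit 38632330), (nat_lit 24534081), (nat_lit 15702173)] (nat_lit 7528973)) p12_18_2 (nat_lit 3) (nat_lit 92) (nat_lit 93) = true := by decide +kernel
def p12_18_2_93 : pfC (piC [(nat_lit 38632330), (nat_lit 24534081), (nat_lit 15702173)] (nat_lit 7528973)) p12_18_2 (nat_lit 3) (nat_lit 93) (nat_lit 94) = true := by decide +kernel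
def p12_18_2_94 : pfC (piC [(nat_lit 38632330), (nat_lit 24534081), (nat_lit 15702173)] (nat_lit 7528973)) p12_18_2 (nat_lit 3) (nat_lit 94) (nat_lit 95) = true := by decide +kernel
def p12_18_2_95 : pfC (piC [(nat_lit 38632330), (nat_lit 24534081), (nat_lit 15702173)] (nat_lit 7528973)) p12_18_2 (nat_lit 3) (nat_lit 95) (nat_lit 96) = true := by decide +kernel
def p12_18_2_96 : pfC (piC [(nat_lit 38632330), (nat_lit 24534081), (nat_lit 15702173)] (nat_lit 7528973)) p12_18_2 (nat_lit 3) (nat_lit 96) (nat_lit 97) = true := by decide +kernel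
def p12_18_2_97 : pfC (piC [(nat_lit 38632330), (nat_lit 24534081), (nat_lit 15702173)] (nat_lit 7528973)) p12_18_2 (nat_lit 3) (nat_lit 97) (nat_lit 98) = true := by decide +kernel
def p12_18_2_98 : pfC (piC [(nat_lit 38632330), (nat_lit 24534081), (nat_lit 15702173)] (nat_lit 7528973)) p12_18_2 (nat_lit 3) (nat_lit 98) (nat_lit 99) = true := by decide +kernel
def p12_18_2_99 : pfC (piC [(nat_lit 38632330), (nat_lit 24534081), (nat_lit 15702173)] (nat_lit 7528973)) p12_18_2 (nat_lit 3) (nat_lit 99) (nat_lit 100) = true := by decide +kernel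
def p12_18_2_100 : pfC (piC [(nat_lit 38632330), (nat_lit 24534081), (nat_lit 15702173)] (nat_lit 7528973)) p12_18_2 (nat_lit 3) (nat_lit 100) (nat_lit 101) = true := by decide +kernel
def p12_18_2_101 : pfC (piC [(nat_lit 38632330), (nat_lit 24534081), (nat_lit 15702173)] (nat_lit 7528973)) p12_18_2 (nat_lit 3) (nat_lit 101) (nat_lit 102) = true := by decide +kernel
def p12_18_2_102 : pfC (piC [(nat_lit 38632330), (nat_lit 24534081), (nat_lit 15702173)] (nat_lit 7528973)) p12_18_2 (nat_lit 3) (nat_lit 102) (nat_lit 103) = true := by decide +kernel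
def p12_18_2_103 : pfC (piC [(nat_lit 38632330), (nat_lit 24534081), (nat_lit 15702173)] (nat_lit 7528973)) p12_18_2 (nat_lit 3) (nat_lit 103) (nat_lit 104) = true := by decide +kernel
def p12_18_2_104 : pfC (piC [(nat_lit 38632330), (nat_lit 24534081), (nat_lit 15702173)] (nat_lit 7528973)) p12_18_2 (nat_lit 3) (nat_lit 104) (nat_lit 105) = true := by decide +kernel
def p12_18_2_105 : pfC (piC [(nat_lit 38632330), (nat_lit 24534081), (nat_lit 15702173)] (nat_lit 7528973)) p12_18_2 (nat_lit 3) (nat_lit 105) (nat_lit 106) = true := by decide +kernel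
def p12_18_2_106 : pfC (piC [(nat_lit 38632330), (nat_lit 24534081), (nat_lit 15702173)] (nat_lit 7528973)) p12_18_2 (nat_lit 3) (nat_lit 106) (nat_lit 107) = true := by decide +kernel
def p12_18_2_107 : pfC (piC [(nat_lit 38632330), (nat_lit 24534081), (nat_lit 15702173)] (nat_lit 7528973)) p12_18_2 (nat_lit 3) (nat_lit 107) (nat_lit 108) = true := by decide +kernel
def p12_18_2_108 : pfC (piC [(nat_lit 38632330), (nat_lit 24534081), (nat_lit 15702173)] (nat_lit 7528973)) p12_18_2 (nat_lit 3) (nat_lit 108) (nat_lit 109) = true := by decide +kernel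
def p12_18_2_109 : pfC (piC [(nat_lit 38632330), (nat_lit 24534081), (nat_lit 15702173)] (nat_lit 7528973)) p12_18_2 (nat_lit 3) (nat_lit 109) (nat_lit 110) = true := by decide +kernel
def p12_18_2_110 : pfC (piC [(nat_lit 38632330), (nat_lit 24534081), (nat_lit 15702173)] (nat_lit 7528973)) p12_18_2 (nat_lit 3) (nat_lit 110) (nat_lit 111) = true := by decide +kernel
def p12_18_2_111 : pfC (piC [(nat_lit 38632330), (nat_lit 24534081), (nat_lit 15702173)] (nat_lit 7528973)) p12_18_2 (nat_lit 3) (nat_lit 111) (nat_lit 112) = true := by decide +kernel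
def p12_18_2_112 : pfC (piC [(nat_lit 38632330), (nat_lit 24534081), (nat_lit 15702173)] (nat_lit 7528973)) p12_18_2 (nat_lit 3) (nat_lit 112) (nat_lit 113) = true := by decide +kernel
def p12_18_2_113 : pfC (piC [(nat_lit 38632330), (nat_lit 24534081), (nat_lit 15702173)] (nat_lit 7528973)) p12_18_2 (nat_lit 3) (nat_lit 113) (nat_lit 114) = true := by decide +kernel
def p12_18_2_114 : pfC (piC [(nat_lit 38632330), (nat_lit 24534081), (nat_lit 15702173)] (nat_lit 7528973)) p12_18_2 (nat_lit 3) (nat_lit 114) (nat_lit 115) = true := by decide +kernel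
def p12_18_2_115 : pfC (piC [(nat_lit 38632330), (nat_lit 24534081), (nat_lit 15702173)] (nat_lit 7528973)) p12_18_2 (nat_lit 3) (nat_lit 115) (nat_lit 116) = true := by decide +kernel
def p12_18_2_116 : pfC (piC [(nat_lit 38632330), (nat_lit 24534081), (nat_lit 15702173)] (nat_lit 7528973)) p12_18_2 (nat_lit 3) (nat_lit 116) (nat_lit 117) = true := by decide +kernel
def p12_18_2_117 : pfC (piC [(nat_lit 38632330), (nat_lit 24534081), (nat_lit 15702173)] (nat_lit 7528973)) p12_18_2 (nat_lit 3) (nat_lit 117) (nat_lit 118) = true := by decide +kernel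
def p12_18_2_118 : pfC (piC [(nat_lit 38632330), (nat_lit 24534081), (nat_lit 15702173)] (nat_lit 7528973)) p12_18_2 (nat_lit 3) (nat_lit 118) (nat_lit 119) = true := by decide +kernel
def p12_18_2_119 : pfC (piC [(nat_lit 38632330), (nat_lit 24534081), (nat_lit 15702173)] (nat_lit 7528973)) p12_18_2 (nat_lit 3) (nat_lit 119) (nat_lit 120) = true := by decide +kernel
def p12_18_2_120 : pfC (piC [(nat_lit 38632330), (nat_lit 24534081), (nat_lit 15702173)] (nat_lit 7528973)) p12_18_2 (nat_lit 3) (nat_lit 120) (nat_lit 121) = true := by decide +kernel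
def p12_18_2_121 : pfC (piC [(nat_lit 38632330), (nat_lit 24534081), (nat_lit 15702173)] (nat_lit 7528973)) p12_18_2 (nat_lit 3) (nat_lit 121) (nat_lit 122) = true := by decide +kernel
def p12_18_2_122 : pfC (piC [(nat_lit 38632330), (nat_lit 24534081), (nat_lit 15702173)] (nat_lit 7528973)) p12_18_2 (nat_lit 3) (nat_lit 122) (nat_lit 123) = true := by decide +kernel
def p12_18_2_123 : pfC (piC [(nat_lit 38632330), (nat_lit 24534081), (nat_lit 15702173)] (nat_lit 7528973)) p12_18_2 (nat_lit 3) (nat_lit 123) (nat_lit 124) = true := by decide +kernel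
def p12_18_2_124 : pfC (piC [(nat_lit 38632330), (nat_lit 24534081), (nat_lit 15702173)] (nat_lit 7528973)) p12_18_2 (nat_lit 3) (nat_lit 124) (nat_lit 125) = true := by decide +kernel
def p12_18_2_125 : pfC (piC [(nat_lit 38632330), (nat_lit 24534081), (nat_lit 15702173)] (nat_lit 7528973)) p12_18_2 (nat_lit 3) (nat_lit 125) (nat_lit 126) = true := by decide +kernel
def p12_18_2_126 : pfC (piC [(nat_lit 38632330), (nat_lit 24534081), (nat_lit 15702173)] (nat_lit 7528973)) p12_18_2 (nat_lit 3) (nat_lit 126) (nat_lit 127) = true := by decide +kernel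
def p12_18_2_127 : pfC (piC [(nat_lit 38632330), (nat_lit 24534081), (nat_lit 15702173)] (nat_lit 7528973)) p12_18_2 (nat_lit 3) (nat_lit 127) (nat_lit 128) = true := by decide +kernel
def p12_18_2_128 : pfC (piC [(nat_lit 38632330), (nat_lit 24534081), (nat_lit 15702173)] (nat_lit 7528973)) p12_18_2 (nat_lit 3) (nat_lit 128) (nat_lit 129) = true := by decide +kernel
def p12_18_2_129 : pfC (piC [(nat_lit 38632330), (nat_lit 24534081), (nat_lit 15702173)] (nat_lit 7528973)) p12_18_2 (nat_lit 3) (nat_lit 129) (nat_lit 130) = true := by decide +kernel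
def p12_18_2_130 : pfC (piC [(nat_lit 38632330), (nat_lit 24534081), (nat_lit 15702173)] (nat_lit 7528973)) p12_18_2 (nat_lit 3) (nat_lit 130) (nat_lit 131) = true := by decide +kernel
def p12_18_2_131 : pfC (piC [(nat_lit 38632330), (nat_lit 24534081), (nat_lit 15702173)] (nat_lit 7528973)) p12_18_2 (nat_lit 3) (nat_lit 131) (nat_lit 132) = true := by decide +kernel
def p12_18_2_132 : pfC (piC [(nat_lit 38632330), (nat_lit 24534081), (nat_lit 15702173)] (nat_lit 7528973)) p12_18_2 (nat_lit 3) (nat_lit 132) (nat_lit 133) = true := by decide +kernel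
def p12_18_2_133 : pfC (piC [(nat_lit 38632330), (nat_lit 24534081), (nat_lit 15702173)] (nat_lit 7528973)) p12_18_2 (nat_lit 3) (nat_lit 133) (nat_lit 134) = true := by decide +kernel
def p12_18_2_134 : pfC (piC [(nat_lit 38632330), (nat_lit 24534081), (nat_lit 15702173)] (nat_lit 7528973)) p12_18_2 (nat_lit 3) (nat_lit 134) (nat_lit 135) = true := by decide +kernel
def p12_18_2_135 : pfC (piC [(nat_lit 38632330), (nat_lit 24534081), (nat_lit 15702173)] (nat_lit 7528973)) p12_18_2 (nat_lit 3) (nat_lit 135) (nat_lit 136) = true := by decide +kernel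
def p12_18_2_136 : pfC (piC [(nat_lit 38632330), (nat_lit 24534081), (nat_lit 15702173)] (nat_lit 7528973)) p12_18_2 (nat_lit 3) (nat_lit 136) (nat_lit 137) = true := by decide +kernel
def p12_18_2_137 : pfC (piC [(nat_lit 38632330), (nat_lit 24534081), (nat_lit 15702173)] (nat_lit 7528973)) p12_18_2 (nat_lit 3) (nat_lit 137) (nat_lit 138) = true := by decide +kernel
def p12_18_2_138 : pfC (piC [(nat_lit 38632330), (nat_lit 24534081), (nat_lit 15702173)] (nat_lit 7528973)) p12_18_2 (nat_lit 3) (nat_lit 138) (nat_lit 139) = true := by decide +kernel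
def p12_18_2_139 : pfC (piC [(nat_lit 38632330), (nat_lit 24534081), (nat_lit 15702173)] (nat_lit 7528973)) p12_18_2 (nat_lit 3) (nat_lit 139) (nat_lit 140) = true := by decide +kernel
def p12_18_2_140 : pfC (piC [(nat_lit 38632330), (nat_lit 24534081), (nat_lit 15702173)] (nat_lit 7528973)) p12_18_2 (nat_lit 3) (nat_lit 140) (nat_lit 141) = true := by decide +kernel
def p12_18_2_141 : pfC (piC [(nat_lit 38632330), (nat_lit 24534081), (nat_lit 15702173)] (nat_lit 7528973)) p12_18_2 (nat_lit 3) (nat_lit 141) (nat_lit 142) = true := by decide +kernel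
def p12_18_2_142 : pfC (piC [(nat_lit 38632330), (nat_lit 24534081), (nat_lit 15702173)] (nat_lit 7528973)) p12_18_2 (nat_lit 3) (nat_lit 142) (nat_lit 143) = true := by decide +kernel
def p12_18_2_143 : pfC (piC [(nat_lit 38632330), (nat_lit 24534081), (nat_lit 15702173)] (nat_lit 7528973)) p12_18_2 (nat_lit 3) (nat_lit 143) (nat_lit 144) = true := by decide +kernel
def p12_18_2_144 : pfC (piC [(nat_lit 38632330), (nat_lit 24534081), (nat_lit 15702173)] (nat_lit 7528973)) p12_18_2 (nat_lit 3) (nat_lit 144) (nat_lit 145) = true := by decide +kernel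
def p12_18_2_145 : pfC (piC [(nat_lit 38632330), (nat_lit 24534081), (nat_lit 15702173)] (nat_lit 7528973)) p12_18_2 (nat_lit 3) (nat_lit 145) (nat_lit 146) = true := by decide +kernel
def p12_18_2_146 : pfC (piC [(nat_lit 38632330), (nat_lit 24534081), (nat_lit 15702173)] (nat_lit 7528973)) p12_18_2 (nat_lit 3) (nat_lit 146) (nat_lit 147) = true := by decide +kernel
def p12_18_2_147 : pfC (piC [(nat_lit 38632330), (nat_lit 24534081), (nat_lit 15702173)] (nat_lit 7528973)) p12_18_2 (nat_lit 3) (nat_lit 147) (nat_lit 148) = true := by decide +kernel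
def p12_18_2_148 : pfC (piC [(nat_lit 38632330), (nat_lit 24534081), (nat_lit 15702173)] (nat_lit 7528973)) p12_18_2 (nat_lit 3) (nat_lit 148) (nat_lit 149) = true := by decide +kernel
def p12_18_2_149 : pfC (piC [(nat_lit 38632330), (nat_lit 24534081), (nat_lit 15702173)] (nat_lit 7528973)) p12_18_2 (nat_lit 3) (nat_lit 149) (nat_lit 150) = true := by decide +kernel
def p12_18_2_150 : pfC (piC [(nat_lit 38632330), (nat_lit 24534081), (nat_lit 15702173)] (nat_lit 7528973)) p12_18_2 (nat_lit 3) (nat_lit 150) (nat_lit 151) = true := by decide +kernel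
def p12_18_2_151 : pfC (piC [(nat_lit 38632330), (nat_lit 24534081), (nat_lit 15702173)] (nat_lit 7528973)) p12_18_2 (nat_lit 3) (nat_lit 151) (nat_lit 152) = true := by decide +kernel
def p12_18_2_152 : pfC (piC [(nat_lit 38632330), (nat_lit 24534081), (nat_lit 15702173)] (nat_lit 7528973)) p12_18_2 (nat_lit 3) (nat_lit 152) (nat_lit 153) = true := by decide +kernel
def p12_18_2_153 : pfC (piC [(nat_lit 38632330), (nat_lit 24534081), (nat_lit 15702173)] (nat_lit 7528973)) p12_18_2 (nat_lit 3) (nat_lit 153) (nat_lit 154) = true := by decide +kernel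
def p12_18_2_154 : pfC (piC [(nat_lit 38632330), (nat_lit 24534081), (nat_lit 15702173)] (nat_lit 7528973)) p12_18_2 (nat_lit 3) (nat_lit 154) (nat_lit 155) = true := by decide +kernel
def p12_18_2_155 : pfC (piC [(nat_lit 38632330), (nat_lit 24534081), (nat_lit 15702173)] (nat_lit 7528973)) p12_18_2 (nat_lit 3) (nat_lit 155) (nat_lit 156) = true := by decide +kernel
def p12_18_2_156 : pfC (piC [(nat_lit 38632330), (nat_lit 24534081), (nat_lit 15702173)] (nat_lit 7528973)) p12_18_2 (nat_lit 3) (nat_lit 156) (nat_lit 157) = true := by decide +kernel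
def p12_18_2_157 : pfC (piC [(nat_lit 38632330), (nat_lit 24534081), (nat_lit 15702173)] (nat_lit 7528973)) p12_18_2 (nat_lit 3) (nat_lit 157) (nat_lit 158) = true := by decide +kernel
def p12_18_2_158 : pfC (piC [(nat_lit 38632330), (nat_lit 24534081), (nat_lit 15702173)] (nat_lit 7528973)) p12_18_2 (nat_lit 3) (nat_lit 158) (nat_lit 159) = true := by decide +kernel
def p12_18_2_159 : pfC (piC [(nat_lit 38632330), (nat_lit 24534081), (nat_lit 15702173)] (nat_lit 7528973)) p12_18_2 (nat_lit 3) (nat_lit 159) (nat_lit 160) = true := by decide +kernel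
def p12_18_2_160 : pfC (piC [(nat_lit 38632330), (nat_lit 24534081), (nat_lit 15702173)] (nat_lit 7528973)) p12_18_2 (nat_lit 3) (nat_lit 160) (nat_lit 161) = true := by decide +kernel
def p12_18_2_161 : pfC (piC [(nat_lit 38632330), (nat_lit 24534081), (nat_lit 15702173)] (nat_lit 7528973)) p12_18_2 (nat_lit 3) (nat_lit 161) (nat_lit 162) = true := by decide +kernel
def p12_18_2_162 : pfC (piC [(nat_lit 38632330), (nat_lit 24534081), (nat_lit 15702173)] (nat_lit 7528973)) p12_18_2 (nat_lit 3) (nat_lit 162) (nat_lit 163) = true := by decide +kernel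
def p12_18_2_163 : pfC (piC [(nat_lit 38632330), (nat_lit 24534081), (nat_lit 15702173)] (nat_lit 7528973)) p12_18_2 (nat_lit 3) (nat_lit 163) (nat_lit 164) = true := by decide +kernel
def p12_18_2_164 : pfC (piC [(nat_lit 38632330), (nat_lit 24534081), (nat_lit 15702173)] (nat_lit 7528973)) p12_18_2 (nat_lit 3) (nat_lit 164) (nat_lit 165) = true := by decide +kernel
def p12_18_2_165 : pfC (piC [(nat_lit 38632330), (nat_lit 24534081), (nat_lit 15702173)] (nat_lit 7528973)) p12_18_2 (nat_lit 3) (nat_lit 165) (nat_lit 166) = true := by decide +kernel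
def p12_18_2_166 : pfC (piC [(nat_lit 38632330), (nat_lit 24534081), (nat_lit 15702173)] (nat_lit 7528973)) p12_18_2 (nat_lit 3) (nat_lit 166) (nat_lit 167) = true := by decide +kernel
def p12_18_2_167 : pfC (piC [(nat_lit 38632330), (nat_lit 24534081), (nat_lit 15702173)] (nat_lit 7528973)) p12_18_2 (nat_lit 3) (nat_lit 167) (nat_lit 168) = true := by decide +kernel
def p12_18_2_168 : pfC (piC [(nat_lit 38632330), (nat_lit 24534081), (nat_lit 15702173)] (nat_lit 7528973)) p12_18_2 (nat_lit 3) (nat_lit 168) (nat_lit 169) = true := by decide +kernel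
def p12_18_2_169 : pfC (piC [(nat_lit 38632330), (nat_lit 24534081), (nat_lit 15702173)] (nat_lit 7528973)) p12_18_2 (nat_lit 3) (nat_lit 169) (nat_lit 170) = true := by decide +kernel
def p12_18_2_170 : pfC (piC [(nat_lit 38632330), (nat_lit 24534081), (nat_lit 15702173)] (nat_lit 7528973)) p12_18_2 (nat_lit 3) (nat_lit 170) (nat_lit 171) = true := by decide +kernel
def p12_18_2_171 : pfC (piC [(nat_lit 38632330), (nat_lit 24534081), (nat_lit 15702173)] (nat_lit 7528973)) p12_18_2 (nat_lit 3) (nat_lit 171) (nat_lit 172) = true := by decide +kernel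
def p12_18_2_172 : pfC (piC [(nat_lit 38632330), (nat_lit 24534081), (nat_lit 15702173)] (nat_lit 7528973)) p12_18_2 (nat_lit 3) (nat_lit 172) (nat_lit 173) = true := by decide +kernel
def p12_18_2_173 : pfC (piC [(nat_lit 38632330), (nat_lit 24534081), (nat_lit 15702173)] (nat_lit 7528973)) p12_18_2 (nat_lit 3) (nat_lit 173) (nat_lit 174) = true := by decide +kernel
def p12_18_2_174 : pfC (piC [(nat_lit 38632330), (nat_lit 24534081), (nat_lit 15702173)] (nat_lit 7528973)) p12_18_2 (nat_lit 3) (nat_lit 174) (nat_lit 175) = true := by decide +kernel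
def p12_18_2_175 : pfC (piC [(nat_lit 38632330), (nat_lit 24534081), (nat_lit 15702173)] (nat_lit 7528973)) p12_18_2 (nat_lit 3) (nat_lit 175) (nat_lit 176) = true := by decide +kernel
def p12_18_2_176 : pfC (piC [(nat_lit 38632330), (nat_lit 24534081), (nat_lit 15702173)] (nat_lit 7528973)) p12_18_2 (nat_lit 3) (nat_lit 176) (nat_lit 177) = true := by decide +kernel
def p12_18_2_177 : pfC (piC [(nat_lit 38632330), (nat_lit 24534081), (nat_lit 15702173)] (nat_lit 7528973)) p12_18_2 (nat_lit 3) (nat_lit 177) (nat_lit 178) = true := by decide +kernel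
def p12_18_2_178 : pfC (piC [(nat_lit 38632330), (nat_lit 24534081), (nat_lit 15702173)] (nat_lit 7528973)) p12_18_2 (nat_lit 3) (nat_lit 178) (nat_lit 179) = true := by decide +kernel
def p12_18_2_179 : pfC (piC [(nat_lit 38632330), (nat_lit 24534081), (nat_lit 15702173)] (nat_lit 7528973)) p12_18_2 (nat_lit 3) (nat_lit 179) (nat_lit 180) = true := by decide +kernel
def p12_18_2_180 : pfC (piC [(nat_lit 38632330), (nat_lit 24534081), (nat_lit 15702173)] (nat_lit 7528973)) p12_18_2 (nat_lit 3) (nat_lit 180) (nat_lit 181) = true := by decide +kernel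
theorem p12_18_2_T : PfS (PiF n12_18.reverse (nat_lit 7528973)) p12_18_2 (nat_lit 3) [] 0 :=
  pftab_of (los := [(nat_lit 38632330), (nat_lit 24534081), (nat_lit 15702173)]) (by decide +kernel) (hi := (nat_lit 181)) (PfP.trans (PfP.trans (PfP.trans (PfP.trans (PfP.trans (PfP.trans (PfP.trans (PfP.trans (PfP.trans (PfP.trans (PfP.trans (PfP.trans (PfP.trans (PfP.trans (PfP.trans (PfP.trans (PfP.trans (PfP.trans (PfP.trans (PfP.trans (PfP.trans (PfP.trans (PfP.trans (PfP.trans (PfP.trans (PfP.trans (PfP.trans (PfP.trans (PfP.trans (PfP.trans (PfP.trans (PfP.trans (PfP.trans (PfP.trans (PfP.trans (PfP.trans (PfP.trans (PfP.trans (PfP.trans (PfP.trans (PfP.trans (PfP.trans (PfP.trans (PfP.trans (PfP.trans (PfP.trans (PfP.trans (PfP.trans (PfP.trans (PfP.trans (PfP.trans (PfP.trans (PfP.trans (PfP.trans (PfP.trans (PfP.trans (PfP.trans (PfP.trans (PfP.trans (PfP.trans (PfP.trans (PfP.trans (PfP.trans (PfP.trans (PfP.trans (PfP.trans (PfP.trans (PfP.trans (PfP.trans (PfP.trans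 (PfP.trans (PfP.trans (PfP.trans (PfP.trans (PfP.trans (PfP.trans (PfP.trans (PfP.trans (PfP.trans (PfP.trans (PfP.trans (PfP.trans (PfP.trans (PfP.trans (PfP.trans (PfP.trans (PfP.trans (PfP.trans (PfP.trans (PfP.trans (PfP.trans (PfP.trans (PfP.trans (PfP.trans (PfP.trans (PfP.trans (PfP.trans (PfP.trans (PfP.trans (PfP.trans (PfP.trans (PfP.trans (PfP.trans (PfP.trans (PfP.trans (PfP.trans (PfP.trans (PfP.trans (PfP.trans
 (PfP.trans (PfP.trans (PfP.trans (PfP.trans (PfP.trans (PfP.trans (PfP.trans (PfP.trans (PfP.trans (PfP.trans (PfP.trans (PfP.trans (PfP.trans (PfP.trans (PfP.trans (PfP.trans (PfP.trans (PfP.trans (PfP.trans (PfP.trans (PfP.trans (PfP.trans (PfP.trans (PfP.trans (PfP.trans (PfP.trans (PfP.trans (PfP.trans (PfP.trans (PfP.trans (PfP.trans (PfP.trans (PfP.trans (PfP.trans (PfP.trans (PfP.trans (PfP.trans (PfP.trans (PfP.trans (PfP.trans (PfP.trans (PfP.trans (PfP.trans (PfP.trans (PfP.trans (PfP.trans (PfP.trans (PfP.trans (PfP.trans (PfP.trans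 (PfP.trans (PfP.trans (PfP.trans (PfP.trans (PfP.trans (PfP.trans (PfP.trans (PfP.trans (PfP.trans (PfP.trans (PfP.trans (PfP.trans (PfP.trans (PfP.trans (PfP.trans (PfP.trans (PfP.trans (PfP.trans (PfP.trans (PfP.trans (PfP.trans (pfC_sound p12_18_2_0) (pfC_sound p12_18_2_1)) (pfC_sound p12_18_2_2)) (pfC_sound p12_18_2_3)) (pfC_sound p12_18_2_4)) (pfC_sound p12_18_2_5)) (pfC_sound p12_18_2_6)) (pfC_sound p12_18_2_7)) (pfC_sound p12_18_2_8)) (pfC_sound p12_18_2_9)) (pfC_sound p12_18_2_10)) (pfC_sound p12_18_2_11)) (pfC_sound p12_18_2_12)) (pfC_sound p12_18_2_13)) (pfC_sound p12_18_2_14)) (pfC_sound p12_18_2_15)) (pfC_sound p12_18_2_16))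
 (pfC_sound p12_18_2_17)) (pfC_sound p12_18_2_18)) (pfC_sound p12_18_2_19)) (pfC_sound p12_18_2_20)) (pfC_sound p12_18_2_21)) (pfC_sound p12_18_2_22)) (pfC_sound p12_18_2_23)) (pfC_sound p12_18_2_24)) (pfC_sound p12_18_2_25)) (pfC_sound p12_18_2_26)) (pfC_sound p12_18_2_27)) (pfC_sound p12_18_2_28)) (pfC_sound p12_18_2_29)) (pfC_sound p12_18_2_30)) (pfC_sound p12_18_2_31)) (pfC_sound p12_18_2_32)) (pfC_sound p12_18_2_33)) (pfC_sound p12_18_2_34)) (pfC_sound p12_18_2_35)) (pfC_sound p12_18_2_36)) (pfC_sound p12_18_2_37)) (pfC_sound p12_18_2_38)) (pfC_sound p12_18_2_39)) (pfC_sound p12_18_2_40)) (pfC_sound p12_18_2_41)) (pfC_sound p12_18_2_42)) (pfC_sound p12_18_2_43)) (pfC_sound p12_18_2_44)) (pfC_sound p12_18_2_45)) (pfC_sound p12_18_2_46)) (pfC_sound p12_18_2_47)) (pfC_sound p12_18_2_48)) (pfC_sound p12_18_2_49)) (pfC_sound p12_18_2_50)) (pfC_sound p12_18_2_51)) (pfC_sound p12_18_2_52)) (pfC_sound p12_18_2_53)) (pfC_sound p12_18_2_54)) (pfC_sound p12_18_2_55)) (pfC_sound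 p12_18_2_56)) (pfC_sound p12_18_2_57)) (pfC_sound p12_18_2_58)) (pfC_sound p12_18_2_59)) (pfC_sound p12_18_2_60)) (pfC_sound p12_18_2_61)) (pfC_sound p12_18_2_62)) (pfC_sound p12_18_2_63)) (pfC_sound p12_18_2_64))
 (pfC_sound p12_18_2_65)) (pfC_sound p12_18_2_66)) (pfC_sound p12_18_2_67)) (pfC_sound p12_18_2_68)) (pfC_sound p12_18_2_69)) (pfC_sound p12_18_2_70)) (pfC_sound p12_18_2_71)) (pfC_sound p12_18_2_72)) (pfC_sound p12_18_2_73)) (pfC_sound p12_18_2_74)) (pfC_sound p12_18_2_75)) (pfC_sound p12_18_2_76)) (pfC_sound p12_18_2_77)) (pfC_sound p12_18_2_78)) (pfC_sound p12_18_2_79)) (pfC_sound p12_18_2_80)) (pfC_sound p12_18_2_81)) (pfC_sound p12_18_2_82)) (pfC_sound p12_18_2_83)) (pfC_sound p12_18_2_84)) (pfC_sound p12_18_2_85)) (pfC_sound p12_18_2_86)) (pfC_sound p12_18_2_87)) (pfC_sound p12_18_2_88)) (pfC_sound p12_18_2_89)) (pfC_sound p12_18_2_90)) (pfC_sound p12_18_2_91)) (pfC_sound p12_18_2_92)) (pfC_sound p12_18_2_93)) (pfC_sound p12_18_2_94)) (pfC_sound p12_18_2_95))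 (pfC_sound p12_18_2_96)) (pfC_sound p12_18_2_97)) (pfC_sound p12_18_2_98)) (pfC_sound p12_18_2_99)) (pfC_sound p12_18_2_100)) (pfC_sound p12_18_2_101)) (pfC_sound p12_18_2_102)) (pfC_sound p12_18_2_103)) (pfC_sound p12_18_2_104)) (pfC_sound p12_18_2_105)) (pfC_sound p12_18_2_106)) (pfC_sound p12_18_2_107)) (pfC_sound p12_18_2_108)) (pfC_sound p12_18_2_109)) (pfC_sound p12_18_2_110)) (pfC_sound p12_18_2_111)) (pfC_sound
 p12_18_2_112)) (pfC_sound p12_18_2_113)) (pfC_sound p12_18_2_114)) (pfC_sound p12_18_2_115)) (pfC_sound p12_18_2_116)) (pfC_sound p12_18_2_117)) (pfC_sound p12_18_2_118)) (pfC_sound p12_18_2_119)) (pfC_sound p12_18_2_120)) (pfC_sound p12_18_2_121)) (pfC_sound p12_18_2_122)) (pfC_sound p12_18_2_123)) (pfC_sound p12_18_2_124)) (pfC_sound p12_18_2_125)) (pfC_sound p12_18_2_126)) (pfC_sound p12_18_2_127)) (pfC_sound p12_18_2_128)) (pfC_sound p12_18_2_129)) (pfC_sound p12_18_2_130)) (pfC_sound p12_18_2_131)) (pfC_sound p12_18_2_132)) (pfC_sound p12_18_2_133))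 (pfC_sound p12_18_2_134)) (pfC_sound p12_18_2_135)) (pfC_sound p12_18_2_136)) (pfC_sound p12_18_2_137)) (pfC_sound p12_18_2_138)) (pfC_sound p12_18_2_139)) (pfC_sound p12_18_2_140)) (pfC_sound p12_18_2_141)) (pfC_sound p12_18_2_142)) (pfC_sound p12_18_2_143)) (pfC_sound p12_18_2_144)) (pfC_sound p12_18_2_145)) (pfC_sound p12_18_2_146)) (pfC_sound p12_18_2_147)) (pfC_sound p12_18_2_148)) (pfC_sound p12_18_2_149)) (pfC_sound p12_18_2_150)) (pfC_sound p12_18_2_151)) (pfC_sound p12_18_2_152)) (pfC_sound p12_18_2_153)) (pfC_sound p12_18_2_154)) (pfC_sound p12_18_2_155)) (pfC_sound p12_18_2_156)) (pfC_sound p12_18_2_157)) (pfC_sound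
 p12_18_2_158)) (pfC_sound p12_18_2_159)) (pfC_sound p12_18_2_160)) (pfC_sound p12_18_2_161)) (pfC_sound p12_18_2_162)) (pfC_sound p12_18_2_163)) (pfC_sound p12_18_2_164)) (pfC_sound p12_18_2_165)) (pfC_sound p12_18_2_166)) (pfC_sound p12_18_2_167)) (pfC_sound p12_18_2_168)) (pfC_sound p12_18_2_169)) (pfC_sound p12_18_2_170)) (pfC_sound p12_18_2_171)) (pfC_sound p12_18_2_172)) (pfC_sound p12_18_2_173)) (pfC_sound p12_18_2_174)) (pfC_sound p12_18_2_175)) (pfC_sound p12_18_2_176)) (pfC_sound p12_18_2_177)) (pfC_sound p12_18_2_178)) (pfC_sound p12_18_2_179)) (pfC_sound p12_18_2_180)) (by decide +kernel)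

def z12_18_2 : zOK yB12_18 (nat_lit 2) (nat_lit 600) (nat_lit 743) (nat_lit 7528973) (nat_lit 6792444) = true := by decide +kernel
def g12_18_2 : gOK yB12_18.x P12_18 (nat_lit 1387) (q12_18 :: r12_18) (nat_lit 2) (nat_lit 600) (nat_lit 3) (nat_lit 743) (nat_lit 12712500) (nat_lit 12712500) (nat_lit 12712500) (nat_lit 12712500) [(nat_lit 800)] = true := by decide +kernel
def v12_18_2 : ivC P12_18 s12_18 w12_18 n12_18 (nat_lit 3) (nat_lit 4700) (nat_lit 2) (nat_lit 600) f176_0_600 f184_0_600 (nat_lit 3) (nat_lit 743) f176_0_743 f184_0_743 (nat_lit 7528973) (nat_lit 6792444) p12_18_2 = true := by decide +kernel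
end CB
end Pool.Agent.Lib.MP_6947cd_al
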