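import Pool.Agent.Lib.MP_6947cd_al.L.BoxDataB
import Pool.Agent.Lib.MP_6947cd_al.L.TeD1
import Pool.Agent.Lib.MP_6947cd_al.L.TeD2

/-!
Problem MP_6947cd_al (Chollet).  CASE B, rows `j`: boxes (generated).
-/

set_option autoImplicit false
set_option linter.defProp false
set_option maxRecDepth 20000

namespace Pool.Agent.Lib.MP_6947cd_al
namespace CB

open Ent Ent.Pk Fr Fr.WT CA

/-! box `yB12_19` -/

def P12_19 : BQ := ⟨(nat_lit 8), (nat_lit 8), (nat_lit 0), (nat_lit 4), (nat_lit 4), (nat_lit 920), (nat_lit 940), (nat_lit 90), [(nat_lit 180), (nat_lit 330), (nat_lit 650)], (nat_lit 143024000), (nat_lit 16000000), (nat_lit 16000000000)⟩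
def q12_19 : PC := ⟨(nat_lit 1000), [(nat_lit 90000), (nat_lit 180000), (nat_lit 330000), (nat_lit 650000)], (nat_lit 79228162532711081671548469249000000), (nat_lit 15856976000000), (nat_lit 15856976000000), (nat_lit 10000000)⟩
def r12_19 : List PC := [⟨(nat_lit 1360), [(nat_lit 90554), (nat_lit 180720), (nat_lit 330954), (nat_lit 651193)], (nat_lit 79581520137621435343154460312422949), (nat_lit 16375174515200), (nat_lit 16387112460800), (nat_lit 10061556)⟩]
def s12_19 : List PB := [⟨(nat_lit 27200), (nat_lit 1448864000000), [(nat_lit 180720), (nat_lit 330954), (nat_lit 651193)], (nat_lit 79581520137621435343154460312422949), (nat_lit 1142275081357824), (nat_lit 1142287019303424), (nat_lit 57600)⟩]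
def n12_19 : List KN := [⟨(nat_lit 650), (nat_lit 330), (nat_lit 15232604), (nat_lit 7830720)⟩, ⟨(nat_lit 330), (nat_lit 180), (nat_lit 23751559), (nat_lit 15232604)⟩, ⟨(nat_lit 180), (nat_lit 90), (nat_lit 37297016), (nat_lit 23751559)⟩]
def w12_19 : List ℕ := [(nat_lit 57600)]
def par12_19 : parC yB12_19 P12_19 s12_19 r12_19 q12_19 n12_19 w12_19 = true := by decide +kernel

def p12_19_0 : PF := (PF.cons (PF.cons (PF.cons (PF.leaf (nat_lit 789836) (nat_lit 2476453) (nat_lit 64632359) (nat_lit 2476453) [(nat_lit 0), (nat_lit 0), (nat_lit 0)]) (PF.cons (PF.leaf (nat_lit 972696) (nat_lit 299907) (nat_lit 64257834) (nat_lit 2551071) [(nat_lit 299907), (nat_lit 0), (nat_lit 0)]) (PF.cons (PF.leaf (nat_lit 1193774) (nat_lit 332383) (nat_lit 63811984) (nat_lit 2632061) [(nat_lit 332383), (nat_lit 0), (nat_lit 0)]) (PF.cons (PF.leaf (nat_lit 1447408) (nat_lit 362785) (nat_lit 63304753) (nat_lit 2715702) [(nat_lit 362785), (nat_lit 0), (nat_lit 0)]) (PF.cons (PF.leaf (nat_lit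 1730335) (nat_lit 391446) (nat_lit 62743497) (nat_lit 2799530) [(nat_lit 391446), (nat_lit 0), (nat_lit 0)]) (PF.cons (PF.leaf (nat_lit 2039867) (nat_lit 418530) (nat_lit 62134311) (nat_lit 2881849) [(nat_lit 418530), (nat_lit 0), (nat_lit 0)]) (PF.cons (PF.leaf (nat_lit 2373483) (nat_lit 444123) (nat_lit 61482598) (nat_lit 2961475) [(nat_lit 444123), (nat_lit 0), (nat_lit 0)]) (PF.cons (PF.leaf (nat_lit 2728856) (nat_lit 468272) (nat_lit 60793323) (nat_lit 3037580) [(nat_lit 468272), (nat_lit 0), (nat_lit 0)]) (PF.cons (PF.leaf (nat_lit 3103750) (nat_lit 491010) (nat_lit 60071138) (nat_lit 3109588) [(nat_lit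
 491010), (nat_lit 0), (nat_lit 0)]) (PF.cons (PF.leaf (nat_lit 3496076) (nat_lit 512362) (nat_lit 59320433) (nat_lit 3177116) [(nat_lit 512362), (nat_lit 0), (nat_lit 0)]) (PF.cons (PF.leaf (nat_lit 3903700) (nat_lit 532352) (nat_lit 58545364) (nat_lit 3239921) [(nat_lit 532352), (nat_lit 0), (nat_lit 0)]) (PF.cons (PF.leaf (nat_lit 4324749) (nat_lit 551007) (nat_lit 57749855) (nat_lit 3297870) [(nat_lit 551007), (nat_lit 0), (nat_lit 0)]) (PF.cons (PF.leaf (nat_lit 4757285) (nat_lit 568357) (nat_lit 56937600) (nat_lit 3350919) [(nat_lit 568357), (nat_lit 0), (nat_lit 0)]) (PF.cons (PF.leaf (nat_lit 5199550) (nat_lit 584435) (nat_lit 56112059) (nat_lit 3399089) [(nat_lit 584435), (nat_lit 0), (nat_lit 0)]) (PF.cons (PF.leaf (nat_lit 5649867) (nat_lit 599278) (nat_lit 55276455) (nat_lit 3442452) [(nat_lit 599278), (nat_lit 0), (nat_lit 0)]) (PF.cons (PF.leaf (nat_lit 6106690) (nat_lit 612927) (nat_lit 54433771) (nat_lit 3481124) [(nat_lit 612927), (nat_lit 0), (nat_lit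 0)]) (PF.cons PF.nil (PF.cons PF.nil (PF.cons PF.nil (PF.cons PF.nil PF.nil)))))))))))))))))))) (PF.cons (PF.cons (PF.leaf (nat_lit 1528860) (nat_lit 1723913) (nat_lit 62594726) (nat_lit 2790172) [(nat_lit 0),
 (nat_lit 1723913), (nat_lit 0)]) (PF.cons (PF.leaf (nat_lit 1783822) (nat_lit 391870) (nat_lit 62072303) (nat_lit 2861294) [(nat_lit 391870), (nat_lit 1783344), (nat_lit 0)]) (PF.cons (PF.leaf (nat_lit 2069509) (nat_lit 419029) (nat_lit 61494572) (nat_lit 2933255) [(nat_lit 419029), (nat_lit 1842926), (nat_lit 0)]) (PF.cons (PF.leaf (nat_lit 2381534) (nat_lit 444477) (nat_lit 60869793) (nat_lit 3004237) [(nat_lit 444477), (nat_lit 1901348), (nat_lit 0)]) (PF.cons (PF.leaf (nat_lit 2716943) (nat_lit 468373) (nat_lit 60204534) (nat_lit 3073013) [(nat_lit 468373), (nat_lit 1957770), (nat_lit 0)]) (PF.cons (PF.leaf (nat_lit 3073133) (nat_lit 490807) (nat_lit 59504396) (nat_lit 3138739) [(nat_lit 490807), (nat_lit 2011641), (nat_lit 0)]) (PF.cons (PF.leaf (nat_lit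 3447783) (nat_lit 511836) (nat_lit 58774357) (nat_lit 3200839) [(nat_lit 511836), (nat_lit 2062597), (nat_lit 0)]) (PF.cons (PF.leaf (nat_lit 3838658) (nat_lit 531505) (nat_lit 58018938) (nat_lit 3258927) [(nat_lit 531505), (nat_lit 2110407), (nat_lit 0)]) (PF.cons (PF.leaf (nat_lit 4243757) (nat_lit 549852) (nat_lit 57242295) (nat_lit 3312762) [(nat_lit 549852), (nat_lit 2154936), (nat_lit 0)]) (PF.cons (PF.leaf (nat_lit
 4661129) (nat_lit 566912) (nat_lit 56448267) (nat_lit 3362214) [(nat_lit 566912), (nat_lit 2196117), (nat_lit 0)]) (PF.cons (PF.leaf (nat_lit 5088966) (nat_lit 582723) (nat_lit 55640404) (nat_lit 3407232) [(nat_lit 582723), (nat_lit 2233941), (nat_lit 0)]) (PF.cons (PF.leaf (nat_lit 5525571) (nat_lit 597323) (nat_lit 54821981) (nat_lit 3447833) [(nat_lit 597323), (nat_lit 2268435), (nat_lit 0)]) (PF.cons (PF.leaf (nat_lit 5969401) (nat_lit 610754) (nat_lit 53996013) (nat_lit 3484084) [(nat_lit 610754), (nat_lit 2299663), (nat_lit 0)]) (PF.cons (PF.leaf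 (nat_lit 6418912) (nat_lit 623057) (nat_lit 53165261) (nat_lit 3516090) [(nat_lit 623057), (nat_lit 2327709), (nat_lit 0)]) (PF.cons (PF.leaf (nat_lit 6872816) (nat_lit 634278) (nat_lit 52332243) (nat_lit 3543985) [(nat_lit 634278), (nat_lit 2352679), (nat_lit 0)]) (PF.cons PF.nil (PF.cons PF.nil (PF.cons PF.nil PF.nil)))))))))))))))))) (PF.cons (PF.cons (PF.leaf (nat_lit 2412933) (nat_lit 1931577) (nat_lit 60196634) (nat_lit 3049022) [(nat_lit 0), (nat_lit 1931577), (nat_lit 0)]) (PF.cons (PF.leaf (nat_lit 2723147) (nat_lit 466708) (nat_lit 59568133) (nat_lit 3109603) [(nat_lit 466708), (nat_lit 1982183), (nat_lit 0)]) (PF.cons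
 (PF.leaf (nat_lit 3057332) (nat_lit 489210) (nat_lit 58899307) (nat_lit 3168508) [(nat_lit 489210), (nat_lit 2031288), (nat_lit 0)]) (PF.cons (PF.leaf (nat_lit 3411918) (nat_lit 510181) (nat_lit 58196918) (nat_lit 3224835) [(nat_lit 510181), (nat_lit 2078257), (nat_lit 0)]) (PF.cons (PF.leaf (nat_lit 3784270) (nat_lit 529723) (nat_lit 57466560) (nat_lit 3277986) [(nat_lit 529723), (nat_lit 2122684), (nat_lit 0)]) (PF.cons (PF.leaf (nat_lit 4172080) (nat_lit 547910) (nat_lit 56713064) (nat_lit 3327566) [(nat_lit 547910), (nat_lit 2164315), (nat_lit 0)]) (PF.cons (PF.leaf (nat_lit 4573251) (nat_lit 564797) (nat_lit 55940706) (nat_lit 3373329) [(nat_lit 564797), (nat_lit 2202996), (nat_lit 0)]) (PF.cons (PF.leaf (nat_lit 4985864) (nat_lit 580434) (nat_lit 55153326) (nat_lit 3415142) [(nat_lit 580434), (nat_lit 2238652), (nat_lit 0)]) (PF.cons (PF.leaf (nat_lit 5408138) (nat_lit 594867) (nat_lit 54354393) (nat_lit 3452951) [(nat_lit 594867), (nat_lit 2271264), (nat_lit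 0)]) (PF.cons (PF.leaf (nat_lit 5838416) (nat_lit 608142) (nat_lit 53547057) (nat_lit 3486768) [(nat_lit 608142), (nat_lit 2300853), (nat_lit 0)]) (PF.cons (PF.leaf (nat_lit 6275191) (nat_lit 620304) (nat_lit 52734170)
 (nat_lit 3516653) [(nat_lit 620304), (nat_lit 2327473), (nat_lit 0)]) (PF.cons (PF.leaf (nat_lit 6717058) (nat_lit 631399) (nat_lit 51918316) (nat_lit 3542700) [(nat_lit 631399), (nat_lit 2351202), (nat_lit 0)]) (PF.cons (PF.leaf (nat_lit 7162751) (nat_lit 641473) (nat_lit 51101823) (nat_lit 3565034) [(nat_lit 641473), (nat_lit 2372134), (nat_lit 0)]) (PF.cons PF.nil (PF.cons PF.nil (PF.cons PF.nil PF.nil)))))))))))))))) (PF.cons (PF.cons (PF.leaf (nat_lit 3395624) (nat_lit 2094719) (nat_lit 57574897) (nat_lit 3249756) [(nat_lit 0), (nat_lit 2094719), (nat_lit 0)]) (PF.cons (PF.leaf (nat_lit 3745662) (nat_lit 526635) (nat_lit 56878500) (nat_lit 3297521) [(nat_lit 526635), (nat_lit 2135385), (nat_lit 0)]) (PF.cons (PF.leaf (nat_lit 4113708) (nat_lit 544909)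 (nat_lit 56154798) (nat_lit 3342561) [(nat_lit 544909), (nat_lit 2173877), (nat_lit 0)]) (PF.cons (PF.leaf (nat_lit 4496832) (nat_lit 561806) (nat_lit 55409218) (nat_lit 3384456) [(nat_lit 561806), (nat_lit 2209905), (nat_lit 0)]) (PF.cons (PF.leaf (nat_lit 4892797) (nat_lit 577409) (nat_lit 54646330) (nat_lit 3422949) [(nat_lit 577409), (nat_lit 2243298), (nat_lit 0)]) (PF.cons (PF.leaf (nat_lit 5299612) (nat_lit 591784)
 (nat_lit 53870093) (nat_lit 3457895) [(nat_lit 591784), (nat_lit 2273966), (nat_lit 0)]) (PF.cons (PF.leaf (nat_lit 5715487) (nat_lit 604991) (nat_lit 53083983) (nat_lit 3489236) [(nat_lit 604991), (nat_lit 2301880), (nat_lit 0)]) (PF.cons (PF.leaf (nat_lit 6138824) (nat_lit 617083) (nat_lit 52291088) (nat_lit 3516976) [(nat_lit 617083), (nat_lit 2327054), (nat_lit 0)]) (PF.cons (PF.leaf (nat_lit 6568118) (nat_lit 628111) (nat_lit 51494154) (nat_lit 3541166) [(nat_lit 628111), (nat_lit 2349532), (nat_lit 0)]) (PF.cons (PF.leaf (nat_lit 7002025) (nat_lit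 638125) (nat_lit 50695632) (nat_lit 3561893) [(nat_lit 638125), (nat_lit 2369385), (nat_lit 0)]) (PF.cons (PF.leaf (nat_lit 7439331) (nat_lit 647173) (nat_lit 49897706) (nat_lit 3579269) [(nat_lit 647173), (nat_lit 2386700), (nat_lit 0)]) (PF.cons PF.nil (PF.cons PF.nil (PF.cons PF.nil PF.nil)))))))))))))) (PF.cons (PF.cons (PF.leaf (nat_lit 4437115) (nat_lit 2217111) (nat_lit 54844473) (nat_lit 3395895) [(nat_lit 0), (nat_lit 2217111), (nat_lit 0)]) (PF.cons (PF.leaf (nat_lit 4813591) (nat_lit 573384) (nat_lit 54112383) (nat_lit 3430846) [(nat_lit 573384), (nat_lit 2248049), (nat_lit 0)]) (PF.cons (PF.leaf (nat_lit 5203053)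
 (nat_lit 587876) (nat_lit 53363651) (nat_lit 3462789) [(nat_lit 587876), (nat_lit 2276654), (nat_lit 0)]) (PF.cons (PF.leaf (nat_lit 5603084) (nat_lit 601148) (nat_lit 52602524) (nat_lit 3491567) [(nat_lit 601148), (nat_lit 2302818), (nat_lit 0)]) (PF.cons (PF.leaf (nat_lit 6011817) (nat_lit 613274) (nat_lit 51832604) (nat_lit 3517112) [(nat_lit 613274), (nat_lit 2326499), (nat_lit 0)]) (PF.cons (PF.leaf (nat_lit 6427635) (nat_lit 624318) (nat_lit 51056996) (nat_lit 3539416) [(nat_lit 624318), (nat_lit 2347701), (nat_lit 0)]) (PF.cons (PF.leaf (nat_lit 6849050) (nat_lit 634339) (nat_lit 50278409) (nat_lit 3558522) [(nat_lit 634339), (nat_lit 2366461), (nat_lit 0)]) (PF.cons (PF.leaf (nat_lit 7274746) (nat_lit 643390) (nat_lit 49499212) (nat_lit 3574507) [(nat_lit 643390), (nat_lit 2382839), (nat_lit 0)]) (PF.cons (PF.leaf (nat_lit 7703537) (nat_lit 651524) (nat_lit 48721489) (nat_lit 3587470) [(nat_lit 651524), (nat_lit 2396915), (nat_lit 0)]) (PF.cons (PF.leaf (nat_lit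 8134342) (nat_lit 658789) (nat_lit 47947065) (nat_lit 3597532) [(nat_lit 658789), (nat_lit 2408778), (nat_lit 0)]) (PF.cons PF.nil (PF.cons PF.nil PF.nil)))))))))))) (PF.cons (PF.cons (PF.leaf (nat_lit 5505158)
 (nat_lit 2303784) (nat_lit 52096000) (nat_lit 3493887) [(nat_lit 0), (nat_lit 2303784), (nat_lit 0)]) (PF.cons (PF.leaf (nat_lit 5897129) (nat_lit 608683) (nat_lit 51353578) (nat_lit 3517135) [(nat_lit 608683), (nat_lit 2325883), (nat_lit 0)]) (PF.cons (PF.leaf (nat_lit 6297967) (nat_lit 619871) (nat_lit 50602810) (nat_lit 3537493) [(nat_lit 619871), (nat_lit 2345753), (nat_lit 0)]) (PF.cons (PF.leaf (nat_lit 6705707) (nat_lit 629997) (nat_lit 49846936) (nat_lit 3554944) [(nat_lit 629997), (nat_lit 2363387), (nat_lit 0)]) (PF.cons (PF.leaf (nat_lit 7118861) (nat_lit 639131) (nat_lit 49088702) (nat_lit 3569520) [(nat_lit 639131), (nat_lit 2378812), (nat_lit 0)]) (PF.cons (PF.leaf (nat_lit 7536095) (nat_lit 647332) (nat_lit 48330460) (nat_lit 3581286) [(nat_lit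 647332), (nat_lit 2392081), (nat_lit 0)]) (PF.cons (PF.leaf (nat_lit 7956238) (nat_lit 654655) (nat_lit 47574240) (nat_lit 3590331) [(nat_lit 654655), (nat_lit 2403261), (nat_lit 0)]) (PF.cons (PF.leaf (nat_lit 8378253) (nat_lit 661153) (nat_lit 46821795) (nat_lit 3596764) [(nat_lit 661153), (nat_lit 2412436), (nat_lit 0)]) (PF.cons PF.nil (PF.cons PF.nil PF.nil)))))))))) (PF.cons (PF.cons (PF.leaf (nat_lit 6575077) (nat_lit
 2360208) (nat_lit 49396365) (nat_lit 3551194) [(nat_lit 0), (nat_lit 2360208), (nat_lit 0)]) (PF.cons (PF.leaf (nat_lit 6973964) (nat_lit 634250) (nat_lit 48662377) (nat_lit 3564325) [(nat_lit 634250), (nat_lit 2374643), (nat_lit 0)]) (PF.cons (PF.leaf (nat_lit 7378469) (nat_lit 642613) (nat_lit 47926207) (nat_lit 3574874) [(nat_lit 642613), (nat_lit 2387083), (nat_lit 0)]) (PF.cons (PF.leaf (nat_lit 7787007) (nat_lit 650070) (nat_lit 47190264) (nat_lit 3582897) [(nat_lit 650070), (nat_lit 2397573), (nat_lit 0)]) (PF.cons (PF.leaf (nat_lit 8198387)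 (nat_lit 656682) (nat_lit 46456582) (nat_lit 3588472) [(nat_lit 656682), (nat_lit 2406171), (nat_lit 0)]) (PF.cons (PF.leaf (nat_lit 8611564) (nat_lit 662504) (nat_lit 45726887) (nat_lit 3591696) [(nat_lit 662504), (nat_lit 2412950), (nat_lit 0)]) (PF.cons PF.nil (PF.cons PF.nil PF.nil)))))))) (PF.cons (PF.cons (PF.leaf (nat_lit 7629004) (nat_lit 2391717) (nat_lit 46791571) (nat_lit 3575220) [(nat_lit 0), (nat_lit 2391717), (nat_lit 0)]) (PF.cons (PF.leaf (nat_lit 8028368) (nat_lit 651712) (nat_lit 46079064) (nat_lit 3579933) [(nat_lit 651712), (nat_lit 2399728), (nat_lit 0)]) (PF.cons (PF.leaf (nat_lit 8430853) (nat_lit 657707)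
 (nat_lit 45368754) (nat_lit 3582444) [(nat_lit 657707), (nat_lit 2406028), (nat_lit 0)]) (PF.cons (PF.leaf (nat_lit 8835169) (nat_lit 662940) (nat_lit 44662389) (nat_lit 3582840) [(nat_lit 662940), (nat_lit 2410680), (nat_lit 0)]) (PF.cons (PF.leaf (nat_lit 9240409) (nat_lit 667463) (nat_lit 43961435) (nat_lit 3581217) [(nat_lit 667463), (nat_lit 2413757), (nat_lit 0)]) (PF.cons PF.nil PF.nil)))))) (PF.cons (PF.cons (PF.leaf (nat_lit 8654733) (nat_lit 2403177) (nat_lit 44310657) (nat_lit 3572737) [(nat_lit 0), (nat_lit 2403177), (nat_lit 0)]) (PF.cons (PF.leaf (nat_lit 9049926) (nat_lit 662544) (nat_lit 43628069) (nat_lit 3570649) [(nat_lit 662544), (nat_lit 2405943), (nat_lit 0)]) (PF.cons (PF.leaf (nat_lit 9446359) (nat_lit 666584) (nat_lit 42950641) (nat_lit 3566745) [(nat_lit 666584), (nat_lit 2407282), (nat_lit 0)]) (PF.cons PF.nil PF.nil)))) (PF.cons (PF.cons (PF.leaf (nat_lit 9644495) (nat_lit 2398830) (nat_lit 41969709) (nat_lit 3549633) [(nat_lit 0), (nat_lit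 2398830), (nat_lit 0)]) (PF.cons PF.nil PF.nil)) (PF.cons PF.nil (PF.cons PF.nil (PF.cons PF.nil PF.nil))))))))))))) (PF.cons (PF.cons (PF.cons (PF.leaf (nat_lit 2631075) (nat_lit 3097319) (nat_lit 57584160) (nat_lit
 3097319) [(nat_lit 0), (nat_lit 0), (nat_lit 6427333)]) (PF.cons (PF.leaf (nat_lit 2905608) (nat_lit 451385) (nat_lit 57037544) (nat_lit 3145798) [(nat_lit 451385), (nat_lit 0), (nat_lit 6474083)]) (PF.cons (PF.leaf (nat_lit 3207847) (nat_lit 475886) (nat_lit 56442882) (nat_lit 3193973) [(nat_lit 475886), (nat_lit 0), (nat_lit 6520183)]) (PF.cons (PF.leaf (nat_lit 3532901) (nat_lit 498088) (nat_lit 55809735) (nat_lit 3240638) [(nat_lit 498088), (nat_lit 0), (nat_lit 6564173)]) (PF.cons (PF.leaf (nat_lit 3877444) (nat_lit 518351) (nat_lit 55145342) (nat_lit 3285020) [(nat_lit 518351), (nat_lit 0), (nat_lit 6605043)]) (PF.cons (PF.leaf (nat_lit 4238700) (nat_lit 536911) (nat_lit 54455543) (nat_lit 3326616) [(nat_lit 536911), (nat_lit 0), (nat_lit 6642094)])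 (PF.cons (PF.leaf (nat_lit 4614318) (nat_lit 553935) (nat_lit 53745242) (nat_lit 3365104) [(nat_lit 553935), (nat_lit 0), (nat_lit 6674855)]) (PF.cons (PF.leaf (nat_lit 5002217) (nat_lit 569547) (nat_lit 53018660) (nat_lit 3400294) [(nat_lit 569547), (nat_lit 0), (nat_lit 6703024)]) (PF.cons (PF.leaf (nat_lit 5400531) (nat_lit 583849) (nat_lit 52279493) (nat_lit 3432090) [(nat_lit 583849), (nat_lit 0), (nat_lit 6726435)])
 (PF.cons (PF.leaf (nat_lit 5807558) (nat_lit 596924) (nat_lit 51531009) (nat_lit 3460462) [(nat_lit 596924), (nat_lit 0), (nat_lit 6745021)]) (PF.cons (PF.leaf (nat_lit 6221794) (nat_lit 608846) (nat_lit 50776110) (nat_lit 3485435) [(nat_lit 608846), (nat_lit 0), (nat_lit 6758800)]) (PF.cons (PF.leaf (nat_lit 6641802) (nat_lit 619682) (nat_lit 50017380) (nat_lit 3507071) [(nat_lit 619682), (nat_lit 0), (nat_lit 6767850)]) (PF.cons (PF.leaf (nat_lit 7066309) (nat_lit 629494) (nat_lit 49257122) (nat_lit 3525462) [(nat_lit 629494), (nat_lit 0), (nat_lit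 6772297)]) (PF.cons (PF.leaf (nat_lit 7494151) (nat_lit 638338) (nat_lit 48497386) (nat_lit 3540720) [(nat_lit 638338), (nat_lit 0), (nat_lit 6772304)]) (PF.cons (PF.leaf (nat_lit 7924277) (nat_lit 646270) (nat_lit 47739990) (nat_lit 3552974) [(nat_lit 646270), (nat_lit 0), (nat_lit 6768060)]) (PF.cons PF.nil (PF.cons PF.nil (PF.cons PF.nil PF.nil)))))))))))))))))) (PF.cons (PF.cons (PF.leaf (nat_lit 3531839) (nat_lit 2095194) (nat_lit 55165285) (nat_lit 3261735) [(nat_lit 0), (nat_lit 2095194), (nat_lit 6586597)]) (PF.cons (PF.leaf (nat_lit 3850410) (nat_lit 512291) (nat_lit 54543680) (nat_lit 3300861) [(nat_lit 512291), (nat_lit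
 2131103), (nat_lit 6620876)]) (PF.cons (PF.leaf (nat_lit 4189473) (nat_lit 531497) (nat_lit 53890013) (nat_lit 3338151) [(nat_lit 531497), (nat_lit 2165298), (nat_lit 6652354)]) (PF.cons (PF.leaf (nat_lit 4545402) (nat_lit 548947) (nat_lit 53211170) (nat_lit 3373052) [(nat_lit 548947), (nat_lit 2197399), (nat_lit 6680349)]) (PF.cons (PF.leaf (nat_lit 4915527) (nat_lit 564846) (nat_lit 52512599) (nat_lit 3405217) [(nat_lit 564846), (nat_lit 2227189), (nat_lit 6704418)]) (PF.cons (PF.leaf (nat_lit 5297652) (nat_lit 579346) (nat_lit 51798793) (nat_lit 3434443) [(nat_lit 579346), (nat_lit 2254554), (nat_lit 6724290)]) (PF.cons (PF.leaf (nat_lit 5689815) (nat_lit 592560) (nat_lit 51073560) (nat_lit 3460620) [(nat_lit 592560), (nat_lit 2279446), (nat_lit 6739820)]) (PF.cons (PF.leaf (nat_lit 6090297) (nat_lit 604584) (nat_lit 50340180) (nat_lit 3483713) [(nat_lit 604584), (nat_lit 2301867), (nat_lit 6750961)]) (PF.cons (PF.leaf (nat_lit 6497580) (nat_lit 615496) (nat_lit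 49601510) (nat_lit 3503738) [(nat_lit 615496), (nat_lit 2321850), (nat_lit 6757738)]) (PF.cons (PF.leaf (nat_lit 6910281) (nat_lit 625368) (nat_lit 48860057) (nat_lit 3520747) [(nat_lit 625368), (nat_lit 2339455),
 (nat_lit 6760233)]) (PF.cons (PF.leaf (nat_lit 7327146) (nat_lit 634263) (nat_lit 48118021) (nat_lit 3534822) [(nat_lit 634263), (nat_lit 2354757), (nat_lit 6758572)]) (PF.cons (PF.leaf (nat_lit 7747053) (nat_lit 642241) (nat_lit 47377340) (nat_lit 3546066) [(nat_lit 642241), (nat_lit 2367843), (nat_lit 6752911)]) (PF.cons (PF.leaf (nat_lit 8168975) (nat_lit 649355) (nat_lit 46639713) (nat_lit 3554596) [(nat_lit 649355), (nat_lit 2378809), (nat_lit 6743429)]) (PF.cons PF.nil (PF.cons PF.nil (PF.cons PF.nil PF.nil)))))))))))))))) (PF.cons (PF.cons (PF.leaf (nat_lit 4498082) (nat_lit 2202428) (nat_lit 52637255) (nat_lit 3381536) [(nat_lit 0), (nat_lit 2202428), (nat_lit 6685164)]) (PF.cons (PF.leaf (nat_lit 4846460) (nat_lit 558756) (nat_lit 51974893) (nat_lit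 3410380) [(nat_lit 558756), (nat_lit 2229885), (nat_lit 6705012)]) (PF.cons (PF.leaf (nat_lit 5209683) (nat_lit 573735) (nat_lit 51292496) (nat_lit 3436849) [(nat_lit 573735), (nat_lit 2255346), (nat_lit 6721302)]) (PF.cons (PF.leaf (nat_lit 5584931) (nat_lit 587294) (nat_lit 50595110) (nat_lit 3460715) [(nat_lit 587294), (nat_lit 2278662), (nat_lit 6733777)]) (PF.cons (PF.leaf (nat_lit 5970116) (nat_lit 599573) (nat_lit
 49886823) (nat_lit 3481857) [(nat_lit 599573), (nat_lit 2299765), (nat_lit 6742305)]) (PF.cons (PF.leaf (nat_lit 6363437) (nat_lit 610681) (nat_lit 49171046) (nat_lit 3500226) [(nat_lit 610681), (nat_lit 2318641), (nat_lit 6746850)]) (PF.cons (PF.leaf (nat_lit 6763320) (nat_lit 620707) (nat_lit 48450672) (nat_lit 3515829) [(nat_lit 620707), (nat_lit 2335311), (nat_lit 6747442)]) (PF.cons (PF.leaf (nat_lit 7168387) (nat_lit 629728) (nat_lit 47728188) (nat_lit 3528711) [(nat_lit 629728), (nat_lit 2349824), (nat_lit 6744163)]) (PF.cons (PF.leaf (nat_lit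 7577406) (nat_lit 637812) (nat_lit 47005743) (nat_lit 3538942) [(nat_lit 637812), (nat_lit 2362244), (nat_lit 6737136)]) (PF.cons (PF.leaf (nat_lit 7989275) (nat_lit 645020) (nat_lit 46285200) (nat_lit 3546617) [(nat_lit 645020), (nat_lit 2372652), (nat_lit 6726509)]) (PF.cons (PF.leaf (nat_lit 8402996) (nat_lit 651407) (nat_lit 45568179) (nat_lit 3551839) [(nat_lit 651407), (nat_lit 2381132), (nat_lit 6712451)]) (PF.cons PF.nil (PF.cons PF.nil (PF.cons PF.nil PF.nil)))))))))))))) (PF.cons (PF.cons (PF.leaf (nat_lit 5498015) (nat_lit 2277990) (nat_lit 50087154) (nat_lit 3460887) [(nat_lit 0), (nat_lit 2277990), (nat_lit 6726800)])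
 (PF.cons (PF.leaf (nat_lit 5864945) (nat_lit 593523) (nat_lit 49409654) (nat_lit 3479945) [(nat_lit 593523), (nat_lit 2297652), (nat_lit 6732733)]) (PF.cons (PF.leaf (nat_lit 6242270) (nat_lit 605018) (nat_lit 48721076) (nat_lit 3496580) [(nat_lit 605018), (nat_lit 2315344), (nat_lit 6735085)]) (PF.cons (PF.leaf (nat_lit 6627785) (nat_lit 615343) (nat_lit 48025119) (nat_lit 3510731) [(nat_lit 615343), (nat_lit 2331035), (nat_lit 6733825)]) (PF.cons (PF.leaf (nat_lit 7019823) (nat_lit 624602) (nat_lit 47324821) (nat_lit 3522393) [(nat_lit 624602), (nat_lit 2344733), (nat_lit 6728986)]) (PF.cons (PF.leaf (nat_lit 7416958) (nat_lit 632880) (nat_lit 46622724) (nat_lit 3531601) [(nat_lit 632880), (nat_lit 2356477), (nat_lit 6720651)]) (PF.cons (PF.leaf (nat_lit 7817938) (nat_lit 640252) (nat_lit 45920979) (nat_lit 3538417) [(nat_lit 640252), (nat_lit 2366321), (nat_lit 6708936)]) (PF.cons (PF.leaf (nat_lit 8221658) (nat_lit 646782) (nat_lit 45221424) (nat_lit 3542924) [(nat_lit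 646782), (nat_lit 2374335), (nat_lit 6693981)]) (PF.cons (PF.leaf (nat_lit 8627167) (nat_lit 652527) (nat_lit 44525628) (nat_lit 3545218) [(nat_lit 652527), (nat_lit 2380598), (nat_lit 6675947)]) (PF.cons
 (PF.leaf (nat_lit 9033570) (nat_lit 657542) (nat_lit 43834941) (nat_lit 3545403) [(nat_lit 657542), (nat_lit 2385194), (nat_lit 6655005)]) (PF.cons PF.nil (PF.cons PF.nil PF.nil)))))))))))) (PF.cons (PF.cons (PF.leaf (nat_lit 6507474) (nat_lit 2326679) (nat_lit 47577385) (nat_lit 3505483) [(nat_lit 0), (nat_lit 2326679), (nat_lit 6719227)]) (PF.cons (PF.leaf (nat_lit 6884232) (nat_lit 618677) (nat_lit 46903305) (nat_lit 3515878) [(nat_lit 618677), (nat_lit 2339512), (nat_lit 6712901)]) (PF.cons (PF.leaf (nat_lit 7267921) (nat_lit 627286) (nat_lit 46224670) (nat_lit 3524037) [(nat_lit 627286), (nat_lit 2350549), (nat_lit 6703331)]) (PF.cons (PF.leaf (nat_lit 7656789) (nat_lit 634927) (nat_lit 45544177) (nat_lit 3529986) [(nat_lit 634927), (nat_lit 2359816), (nat_lit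 6690598)]) (PF.cons (PF.leaf (nat_lit 8049532) (nat_lit 641682) (nat_lit 44864048) (nat_lit 3533776) [(nat_lit 641682), (nat_lit 2367360), (nat_lit 6674815)]) (PF.cons (PF.leaf (nat_lit 8445023) (nat_lit 647620) (nat_lit 44186143) (nat_lit 3535482) [(nat_lit 647620), (nat_lit 2373241), (nat_lit 6656115)]) (PF.cons (PF.leaf (nat_lit 8842287) (nat_lit 652803) (nat_lit 43512027) (nat_lit 3535189) [(nat_lit 652803),
 (nat_lit 2377531), (nat_lit 6634649)]) (PF.cons (PF.leaf (nat_lit 9240454) (nat_lit 657286) (nat_lit 42843021) (nat_lit 3532992) [(nat_lit 657286), (nat_lit 2380303), (nat_lit 6610576)]) (PF.cons PF.nil (PF.cons PF.nil PF.nil)))))))))) (PF.cons (PF.cons (PF.leaf (nat_lit 7508746) (nat_lit 2353143) (nat_lit 45150465) (nat_lit 3521305) [(nat_lit 0), (nat_lit 2353143), (nat_lit 6671325)]) (PF.cons (PF.leaf (nat_lit 7888738) (nat_lit 635957) (nat_lit 44492669) (nat_lit 3524372) [(nat_lit 635957), (nat_lit 2360201), (nat_lit 6654803)]) (PF.cons (PF.leaf (nat_lit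 8273006) (nat_lit 642187) (nat_lit 43834939) (nat_lit 3525491) [(nat_lit 642187), (nat_lit 2365697), (nat_lit 6635520)]) (PF.cons (PF.leaf (nat_lit 8660137) (nat_lit 647617) (nat_lit 43179217) (nat_lit 3524728) [(nat_lit 647617), (nat_lit 2369681), (nat_lit 6613605)]) (PF.cons (PF.leaf (nat_lit 9049125) (nat_lit 652313) (nat_lit 42527107) (nat_lit 3522158) [(nat_lit 652313), (nat_lit 2372217), (nat_lit 6589201)]) (PF.cons (PF.leaf (nat_lit 9439091) (nat_lit 656334) (nat_lit 41879941) (nat_lit 3517869) [(nat_lit 656334), (nat_lit 2373374), (nat_lit 6562458)]) (PF.cons PF.nil (PF.cons PF.nil PF.nil)))))))) (PF.cons (PF.cons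
 (PF.leaf (nat_lit 8489400) (nat_lit 2361628) (nat_lit 42833346) (nat_lit 3513981) [(nat_lit 0), (nat_lit 2361628), (nat_lit 6591711)]) (PF.cons (PF.leaf (nat_lit 8867788) (nat_lit 646842) (nat_lit 42200259) (nat_lit 3511051) [(nat_lit 646842), (nat_lit 2363931), (nat_lit 6567067)]) (PF.cons (PF.leaf (nat_lit 9248438) (nat_lit 651125) (nat_lit 41570401) (nat_lit 3506487) [(nat_lit 651125), (nat_lit 2364916), (nat_lit 6540175)]) (PF.cons (PF.leaf (nat_lit 9630203) (nat_lit 654749) (nat_lit 40945154) (nat_lit 3500369) [(nat_lit 654749), (nat_lit 2364643), (nat_lit 6511177)]) (PF.cons (PF.leaf (nat_lit 10012326) (nat_lit 657769) (nat_lit 40325652) (nat_lit 3492779) [(nat_lit 657769), (nat_lit 2363180), (nat_lit 6480220)]) (PF.cons PF.nil PF.nil)))))) (PF.cons (PF.cons (PF.leaf (nat_lit 9441179) (nat_lit 2355854) (nat_lit 40641264) (nat_lit 3488496) [(nat_lit 0), (nat_lit 2355854), (nat_lit 6488070)]) (PF.cons (PF.leaf (nat_lit 9814519) (nat_lit 652587) (nat_lit 40037971)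 (nat_lit 3480787) [(nat_lit 652587), (nat_lit 2354324), (nat_lit 6457197)]) (PF.cons (PF.leaf (nat_lit 10188599) (nat_lit 655288) (nat_lit 39439981) (nat_lit 3471745) [(nat_lit 655288), (nat_lit 2351707), (nat_lit
 6424559)]) (PF.cons PF.nil PF.nil)))) (PF.cons (PF.cons (PF.leaf (nat_lit 10358986) (nat_lit 2338977) (nat_lit 38580981) (nat_lit 3449093) [(nat_lit 0), (nat_lit 2338977), (nat_lit 6366921)]) (PF.cons PF.nil PF.nil)) (PF.cons PF.nil (PF.cons PF.nil PF.nil))))))))))) (PF.cons (PF.cons (PF.cons (PF.leaf (nat_lit 4557644) (nat_lit 3354321) (nat_lit 50499730) (nat_lit 3354321) [(nat_lit 0), (nat_lit 0), (nat_lit 6627380)]) (PF.cons (PF.leaf (nat_lit 4875720) (nat_lit 538440) (nat_lit 49913523) (nat_lit 3378502) [(nat_lit 538440), (nat_lit 0), (nat_lit 6639173)]) (PF.cons (PF.leaf (nat_lit 5211590) (nat_lit 554919) (nat_lit 49301635) (nat_lit 3400863) [(nat_lit 554919), (nat_lit 0), (nat_lit 6648237)]) (PF.cons (PF.leaf (nat_lit 5561644) (nat_lit 569552) (nat_lit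 48670567) (nat_lit 3421082) [(nat_lit 569552), (nat_lit 0), (nat_lit 6654252)]) (PF.cons (PF.leaf (nat_lit 5923316) (nat_lit 582612) (nat_lit 48025312) (nat_lit 3438979) [(nat_lit 582612), (nat_lit 0), (nat_lit 6657035)]) (PF.cons (PF.leaf (nat_lit 6294517) (nat_lit 594295) (nat_lit 47369863) (nat_lit 3454466) [(nat_lit 594295), (nat_lit 0), (nat_lit 6656502)]) (PF.cons (PF.leaf (nat_lit 6673471) (nat_lit 604751) (nat_lit
 46707506) (nat_lit 3467517) [(nat_lit 604751), (nat_lit 0), (nat_lit 6652640)]) (PF.cons (PF.leaf (nat_lit 7058662) (nat_lit 614098) (nat_lit 46040992) (nat_lit 3478153) [(nat_lit 614098), (nat_lit 0), (nat_lit 6645489)]) (PF.cons (PF.leaf (nat_lit 7448764) (nat_lit 622434) (nat_lit 45372655) (nat_lit 3486423) [(nat_lit 622434), (nat_lit 0), (nat_lit 6635130)]) (PF.cons (PF.leaf (nat_lit 7842604) (nat_lit 629841) (nat_lit 44704488) (nat_lit 3492398) [(nat_lit 629841), (nat_lit 0), (nat_lit 6621674)]) (PF.cons (PF.leaf (nat_lit 8239144) (nat_lit 636393)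 (nat_lit 44038205) (nat_lit 3496166) [(nat_lit 636393), (nat_lit 0), (nat_lit 6605250)]) (PF.cons (PF.leaf (nat_lit 8637449) (nat_lit 642154) (nat_lit 43375278) (nat_lit 3497826) [(nat_lit 642154), (nat_lit 0), (nat_lit 6586007)]) (PF.cons PF.nil (PF.cons PF.nil PF.nil)))))))))))))) (PF.cons (PF.cons (PF.leaf (nat_lit 5490453) (nat_lit 2245320) (nat_lit 48156770) (nat_lit 3419530) [(nat_lit 0), (nat_lit 2245320), (nat_lit 6643595)]) (PF.cons (PF.leaf (nat_lit 5831434) (nat_lit 574728) (nat_lit 47546610) (nat_lit 3435474) [(nat_lit 574728), (nat_lit 2263427), (nat_lit 6644286)]) (PF.cons (PF.leaf (nat_lit 6184936) (nat_lit 587148)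
 (nat_lit 46921375) (nat_lit 3449377) [(nat_lit 587148), (nat_lit 2279747), (nat_lit 6642007)]) (PF.cons (PF.leaf (nat_lit 6548296) (nat_lit 598167) (nat_lit 46285578) (nat_lit 3461131) [(nat_lit 598167), (nat_lit 2294223), (nat_lit 6636688)]) (PF.cons (PF.leaf (nat_lit 6919569) (nat_lit 607956) (nat_lit 45642784) (nat_lit 3470699) [(nat_lit 607956), (nat_lit 2306849), (nat_lit 6628326)]) (PF.cons (PF.leaf (nat_lit 7297133) (nat_lit 616649) (nat_lit 44995888) (nat_lit 3478088) [(nat_lit 616649), (nat_lit 2317652), (nat_lit 6616967)]) (PF.cons (PF.leaf (nat_lit 7679603) (nat_lit 624352) (nat_lit 44347287) (nat_lit 3483338) [(nat_lit 624352), (nat_lit 2326682), (nat_lit 6602694)]) (PF.cons (PF.leaf (nat_lit 8065782) (nat_lit 631154) (nat_lit 43698992) (nat_lit 3486513) [(nat_lit 631154), (nat_lit 2334001), (nat_lit 6585613)]) (PF.cons (PF.leaf (nat_lit 8454627) (nat_lit 637129) (nat_lit 43052702) (nat_lit 3487690) [(nat_lit 637129), (nat_lit 2339682), (nat_lit 6565851)])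 (PF.cons (PF.leaf (nat_lit 8845215) (nat_lit 642344) (nat_lit 42409859) (nat_lit 3486957) [(nat_lit 642344), (nat_lit 2343803), (nat_lit 6543547)]) (PF.cons (PF.leaf (nat_lit 9236700) (nat_lit 646856) (nat_lit
 41771690) (nat_lit 3484411) [(nat_lit 646856), (nat_lit 2346444), (nat_lit 6518848)]) (PF.cons PF.nil PF.nil)))))))))))) (PF.cons (PF.cons (PF.leaf (nat_lit 6441578) (nat_lit 2288817) (nat_lit 45837366) (nat_lit 3454619) [(nat_lit 0), (nat_lit 2288817), (nat_lit 6619595)]) (PF.cons (PF.leaf (nat_lit 6795931) (nat_lit 600750) (nat_lit 45223398) (nat_lit 3463056) [(nat_lit 600750), (nat_lit 2300674), (nat_lit 6610129)]) (PF.cons (PF.leaf (nat_lit 7158876) (nat_lit 610003) (nat_lit 44601788) (nat_lit 3469531) [(nat_lit 610003), (nat_lit 2310873), (nat_lit 6597869)]) (PF.cons (PF.leaf (nat_lit 7528366) (nat_lit 618154) (nat_lit 43975720) (nat_lit 3474041) [(nat_lit 618154), (nat_lit 2319425), (nat_lit 6582868)]) (PF.cons (PF.leaf (nat_lit 7902914) (nat_lit 625322)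 (nat_lit 43347746) (nat_lit 3476618) [(nat_lit 625322), (nat_lit 2326367), (nat_lit 6565211)]) (PF.cons (PF.leaf (nat_lit 8281259) (nat_lit 631603) (nat_lit 42719958) (nat_lit 3477316) [(nat_lit 631603), (nat_lit 2331754), (nat_lit 6545005)]) (PF.cons (PF.leaf (nat_lit 8662326) (nat_lit 637080) (nat_lit 42094086) (nat_lit 3476205) [(nat_lit 637080), (nat_lit 2335647), (nat_lit 6522371)]) (PF.cons (PF.leaf (nat_lit 9045182)
 (nat_lit 641820) (nat_lit 41471581) (nat_lit 3473364) [(nat_lit 641820), (nat_lit 2338118), (nat_lit 6497443)]) (PF.cons (PF.leaf (nat_lit 9428988) (nat_lit 645884) (nat_lit 40853657) (nat_lit 3468879) [(nat_lit 645884), (nat_lit 2339240), (nat_lit 6470359)]) (PF.cons PF.nil PF.nil)))))))))) (PF.cons (PF.cons (PF.leaf (nat_lit 7392567) (nat_lit 2311994) (nat_lit 43584418) (nat_lit 3464481) [(nat_lit 0), (nat_lit 2311994), (nat_lit 6561965)]) (PF.cons (PF.leaf (nat_lit 7753212) (nat_lit 618683) (nat_lit 42980355) (nat_lit 3466451) [(nat_lit 618683),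 (nat_lit 2318539), (nat_lit 6543852)]) (PF.cons (PF.leaf (nat_lit 8119483) (nat_lit 625413) (nat_lit 42373831) (nat_lit 3466672) [(nat_lit 625413), (nat_lit 2323623), (nat_lit 6523305)]) (PF.cons (PF.leaf (nat_lit 8489774) (nat_lit 631260) (nat_lit 41767103) (nat_lit 3465189) [(nat_lit 631260), (nat_lit 2327290), (nat_lit 6500432)]) (PF.cons (PF.leaf (nat_lit 8862950) (nat_lit 636313) (nat_lit 41161992) (nat_lit 3462065) [(nat_lit 636313), (nat_lit 2329597), (nat_lit 6475354)]) (PF.cons (PF.leaf (nat_lit 9238030) (nat_lit 640646) (nat_lit 40559996) (nat_lit 3457372) [(nat_lit 640646), (nat_lit 2330604), (nat_lit 6448198)]) (PF.cons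
 (PF.leaf (nat_lit 9614177) (nat_lit 644323) (nat_lit 39962349) (nat_lit 3451189) [(nat_lit 644323), (nat_lit 2330379), (nat_lit 6419097)]) (PF.cons PF.nil PF.nil)))))))) (PF.cons (PF.cons (PF.leaf (nat_lit 8330353) (nat_lit 2318711) (nat_lit 41425062) (nat_lit 3453860) [(nat_lit 0), (nat_lit 2318711), (nat_lit 6477521)]) (PF.cons (PF.leaf (nat_lit 8692079) (nat_lit 630180) (nat_lit 40839922) (nat_lit 3450468) [(nat_lit 630180), (nat_lit 2320856), (nat_lit 6452408)]) (PF.cons (PF.leaf (nat_lit 9057198) (nat_lit 634885) (nat_lit 40255873) (nat_lit 3445584) [(nat_lit 634885), (nat_lit 2321757), (nat_lit 6425278)]) (PF.cons (PF.leaf (nat_lit 9424423) (nat_lit 638877) (nat_lit 39674510) (nat_lit 3439273) [(nat_lit 638877), (nat_lit 2321470), (nat_lit 6396257)]) (PF.cons (PF.leaf (nat_lit 9792903) (nat_lit 642224) (nat_lit 39097125) (nat_lit 3431609) [(nat_lit 642224), (nat_lit 2320056), (nat_lit 6365475)]) (PF.cons PF.nil PF.nil)))))) (PF.cons (PF.cons (PF.leaf (nat_lit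 9246006) (nat_lit 2312328) (nat_lit 39375014) (nat_lit 3427037) [(nat_lit 0), (nat_lit 2312328), (nat_lit 6372560)]) (PF.cons (PF.leaf (nat_lit 9605046) (nat_lit 636557) (nat_lit 38814398) (nat_lit 3419323) [(nat_lit
 636557), (nat_lit 2310902), (nat_lit 6342009)]) (PF.cons (PF.leaf (nat_lit 9965802) (nat_lit 639634) (nat_lit 38257242) (nat_lit 3410376) [(nat_lit 639634), (nat_lit 2308443), (nat_lit 6309852)]) (PF.cons (PF.leaf (nat_lit 10327252) (nat_lit 642134) (nat_lit 37704668) (nat_lit 3400266) [(nat_lit 642134), (nat_lit 2305009), (nat_lit 6276214)]) PF.nil)))) (PF.cons (PF.cons (PF.leaf (nat_lit 10133716) (nat_lit 2295693) (nat_lit 37441864) (nat_lit 3387700) [(nat_lit 0), (nat_lit 2295693), (nat_lit 6252542)]) (PF.cons (PF.leaf (nat_lit 10487410) (nat_lit 638875) (nat_lit 36908919) (nat_lit 3376590) [(nat_lit 638875), (nat_lit 2291424), (nat_lit 6217939)]) PF.nil)) (PF.cons PF.nil (PF.cons PF.nil (PF.cons PF.nil PF.nil)))))))))) (PF.cons (PF.cons (PF.cons (PF.leaf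 (nat_lit 6382763) (nat_lit 3399371) (nat_lit 44167270) (nat_lit 3399371) [(nat_lit 0), (nat_lit 0), (nat_lit 6514057)]) (PF.cons (PF.leaf (nat_lit 6713542) (nat_lit 580000) (nat_lit 43614489) (nat_lit 3406527) [(nat_lit 580000), (nat_lit 0), (nat_lit 6502598)]) (PF.cons (PF.leaf (nat_lit 7055143) (nat_lit 590433) (nat_lit 43050017) (nat_lit 3411937) [(nat_lit 590433), (nat_lit 0), (nat_lit 6488663)]) (PF.cons (PF.leaf (nat_lit
 7405013) (nat_lit 599510) (nat_lit 42477828) (nat_lit 3415571) [(nat_lit 599510), (nat_lit 0), (nat_lit 6472293)]) (PF.cons (PF.leaf (nat_lit 7761368) (nat_lit 607425) (nat_lit 41900999) (nat_lit 3417438) [(nat_lit 607425), (nat_lit 0), (nat_lit 6453557)]) (PF.cons (PF.leaf (nat_lit 8122731) (nat_lit 614323) (nat_lit 41321985) (nat_lit 3417579) [(nat_lit 614323), (nat_lit 0), (nat_lit 6432544)]) (PF.cons (PF.leaf (nat_lit 8487897) (nat_lit 620317) (nat_lit 40742780) (nat_lit 3416049) [(nat_lit 620317), (nat_lit 0), (nat_lit 6409359)]) (PF.cons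 (PF.leaf (nat_lit 8855795) (nat_lit 625502) (nat_lit 40165028) (nat_lit 3412918) [(nat_lit 625502), (nat_lit 0), (nat_lit 6384116)]) (PF.cons (PF.leaf (nat_lit 9225505) (nat_lit 629955) (nat_lit 39590096) (nat_lit 3408263) [(nat_lit 629955), (nat_lit 0), (nat_lit 6356936)]) (PF.cons (PF.leaf (nat_lit 9596283) (nat_lit 633743) (nat_lit 39019124) (nat_lit 3402164) [(nat_lit 633743), (nat_lit 0), (nat_lit 6327944)]) (PF.cons PF.nil (PF.cons PF.nil PF.nil)))))))))))) (PF.cons (PF.cons (PF.leaf (nat_lit 7284183) (nat_lit 2268448) (nat_lit 42085692) (nat_lit 3405217) [(nat_lit 0), (nat_lit 2268448), (nat_lit 6449817)]) (PF.cons (PF.leaf (nat_lit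
 7624913) (nat_lit 599617) (nat_lit 41534988) (nat_lit 3406576) [(nat_lit 599617), (nat_lit 2274899), (nat_lit 6430910)]) (PF.cons (PF.leaf (nat_lit 7972939) (nat_lit 607183) (nat_lit 40978774) (nat_lit 3406334) [(nat_lit 607183), (nat_lit 2279947), (nat_lit 6409796)]) (PF.cons (PF.leaf (nat_lit 8326352) (nat_lit 613716) (nat_lit 40419781) (nat_lit 3404522) [(nat_lit 613716), (nat_lit 2283631), (nat_lit 6386576)]) (PF.cons (PF.leaf (nat_lit 8683829) (nat_lit 619346) (nat_lit 39860166) (nat_lit 3401189) [(nat_lit 619346), (nat_lit 2286001), (nat_lit 6361357)]) (PF.cons (PF.leaf (nat_lit 9044231) (nat_lit 624173) (nat_lit 39301665) (nat_lit 3396398) [(nat_lit 624173), (nat_lit 2287119), (nat_lit 6334254)]) (PF.cons (PF.leaf (nat_lit 9406613) (nat_lit 628281) (nat_lit 38745695) (nat_lit 3390219) [(nat_lit 628281), (nat_lit 2287048), (nat_lit 6305387)]) (PF.cons (PF.leaf (nat_lit 9770163) (nat_lit 631740) (nat_lit 38193423) (nat_lit 3382726) [(nat_lit 631740), (nat_lit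 2285854), (nat_lit 6274875)]) (PF.cons PF.nil (PF.cons PF.nil PF.nil)))))))))) (PF.cons (PF.cons (PF.leaf (nat_lit 8180141) (nat_lit 2274521) (nat_lit 40079162) (nat_lit 3392643) [(nat_lit 0), (nat_lit 2274521), (nat_lit
 6362654)]) (PF.cons (PF.leaf (nat_lit 8524931) (nat_lit 612382) (nat_lit 39540876) (nat_lit 3389127) [(nat_lit 612382), (nat_lit 2276798), (nat_lit 6337609)]) (PF.cons (PF.leaf (nat_lit 8874438) (nat_lit 617728) (nat_lit 39001262) (nat_lit 3384222) [(nat_lit 617728), (nat_lit 2277873), (nat_lit 6310708)]) (PF.cons (PF.leaf (nat_lit 9227174) (nat_lit 622267) (nat_lit 38462221) (nat_lit 3377984) [(nat_lit 622267), (nat_lit 2277799), (nat_lit 6282068)]) (PF.cons (PF.leaf (nat_lit 9582146) (nat_lit 626091) (nat_lit 37925269) (nat_lit 3370479) [(nat_lit 626091), (nat_lit 2276634), (nat_lit 6251810)]) (PF.cons (PF.leaf (nat_lit 9938465) (nat_lit 629274) (nat_lit 37391633) (nat_lit 3361774) [(nat_lit 629274), (nat_lit 2274438), (nat_lit 6220051)]) (PF.cons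 PF.nil (PF.cons PF.nil PF.nil)))))))) (PF.cons (PF.cons (PF.leaf (nat_lit 9060684) (nat_lit 2268287) (nat_lit 38165286) (nat_lit 3365389) [(nat_lit 0), (nat_lit 2268287), (nat_lit 6257758)]) (PF.cons (PF.leaf (nat_lit 9405299) (nat_lit 619821) (nat_lit 37645940) (nat_lit 3357901) [(nat_lit 619821), (nat_lit 2267165), (nat_lit 6227883)]) (PF.cons (PF.leaf (nat_lit 9752710) (nat_lit 623421) (nat_lit 37128070) (nat_lit 3349250) [(nat_lit
 623421), (nat_lit 2265039), (nat_lit 6196509)]) (PF.cons (PF.leaf (nat_lit 10101748) (nat_lit 626382) (nat_lit 36613003) (nat_lit 3339501) [(nat_lit 626382), (nat_lit 2261964), (nat_lit 6163755)]) (PF.cons (PF.leaf (nat_lit 10451632) (nat_lit 628771) (nat_lit 36101806) (nat_lit 3328720) [(nat_lit 628771), (nat_lit 2257997), (nat_lit 6129735)]) (PF.cons PF.nil PF.nil)))))) (PF.cons (PF.cons (PF.leaf (nat_lit 9919152) (nat_lit 2252400) (nat_lit 36353251) (nat_lit 3326716) [(nat_lit 0), (nat_lit 2252400), (nat_lit 6139747)]) (PF.cons (PF.leaf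 (nat_lit 10260568) (nat_lit 623091) (nat_lit 35856712) (nat_lit 3316076) [(nat_lit 623091), (nat_lit 2248559), (nat_lit 6106231)]) (PF.cons (PF.leaf (nat_lit 10603345) (nat_lit 625309) (nat_lit 35363487) (nat_lit 3304488) [(nat_lit 625309), (nat_lit 2243893), (nat_lit 6071547)]) (PF.cons PF.nil PF.nil)))) (PF.cons (PF.cons (PF.leaf (nat_lit 10751304) (nat_lit 2229063) (nat_lit 34646497) (nat_lit 3279383) [(nat_lit 0), (nat_lit 2229063), (nat_lit 6012538)]) (PF.cons PF.nil PF.nil)) (PF.cons PF.nil (PF.cons PF.nil PF.nil)))))))) (PF.cons (PF.cons (PF.cons (PF.leaf (nat_lit 8041416) (nat_lit 3330463) (nat_lit 38788702) (nat_lit 3330463) [(nat_lit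
 0), (nat_lit 0), (nat_lit 6247411)]) (PF.cons (PF.leaf (nat_lit 8368488) (nat_lit 593135) (nat_lit 38296825) (nat_lit 3327138) [(nat_lit 593135), (nat_lit 0), (nat_lit 6222928)]) (PF.cons (PF.leaf (nat_lit 8701917) (nat_lit 599417) (nat_lit 37800779) (nat_lit 3322491) [(nat_lit 599417), (nat_lit 0), (nat_lit 6196676)]) (PF.cons (PF.leaf (nat_lit 9039905) (nat_lit 604736) (nat_lit 37302915) (nat_lit 3316573) [(nat_lit 604736), (nat_lit 0), (nat_lit 6168778)]) (PF.cons (PF.leaf (nat_lit 9381246) (nat_lit 609221) (nat_lit 36805068) (nat_lit 3309442) [(nat_lit 609221), (nat_lit 0), (nat_lit 6139353)]) (PF.cons (PF.leaf (nat_lit 9724910) (nat_lit 612978) (nat_lit 36308697) (nat_lit 3301163) [(nat_lit 612978), (nat_lit 0), (nat_lit 6108514)]) (PF.cons (PF.leaf (nat_lit 10070075) (nat_lit 616088) (nat_lit 35814979) (nat_lit 3291803) [(nat_lit 616088), (nat_lit 0), (nat_lit 6076374)]) (PF.cons PF.nil (PF.cons PF.nil (PF.cons PF.nil PF.nil)))))))))) (PF.cons (PF.cons (PF.leaf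 (nat_lit 8886966) (nat_lit 2223686) (nat_lit 37006378) (nat_lit 3303600) [(nat_lit 0), (nat_lit 2223686), (nat_lit 6143786)]) (PF.cons (PF.leaf (nat_lit 9216688) (nat_lit 602176) (nat_lit 36527361) (nat_lit 3296555)
 [(nat_lit 602176), (nat_lit 2223071), (nat_lit 6114911)]) (PF.cons (PF.leaf (nat_lit 9550470) (nat_lit 606490) (nat_lit 36047608) (nat_lit 3288390) [(nat_lit 606490), (nat_lit 2221454), (nat_lit 6084594)]) (PF.cons (PF.leaf (nat_lit 9886944) (nat_lit 610065) (nat_lit 35568739) (nat_lit 3279165) [(nat_lit 610065), (nat_lit 2218892), (nat_lit 6052954)]) (PF.cons (PF.leaf (nat_lit 10225183) (nat_lit 612991) (nat_lit 35092030) (nat_lit 3268945) [(nat_lit 612991), (nat_lit 2215443), (nat_lit 6020106)]) (PF.cons (PF.leaf (nat_lit 10564432) (nat_lit 615342) (nat_lit 34618506) (nat_lit 3257794) [(nat_lit 615342), (nat_lit 2211162), (nat_lit 5986158)]) (PF.cons PF.nil (PF.cons PF.nil PF.nil)))))))) (PF.cons (PF.cons (PF.leaf (nat_lit 9716423) (nat_lit 2209041) (nat_lit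 35310425) (nat_lit 3266135) [(nat_lit 0), (nat_lit 2209041), (nat_lit 6028542)]) (PF.cons (PF.leaf (nat_lit 10045247) (nat_lit 606748) (nat_lit 34849148) (nat_lit 3256110) [(nat_lit 606748), (nat_lit 2205764), (nat_lit 5996318)]) (PF.cons (PF.leaf (nat_lit 10376452) (nat_lit 609540) (nat_lit 34389404) (nat_lit 3245162) [(nat_lit 609540), (nat_lit 2201663), (nat_lit 5962959)]) (PF.cons (PF.leaf (nat_lit 10708956) (nat_lit
 611753) (nat_lit 33932317) (nat_lit 3233354) [(nat_lit 611753), (nat_lit 2196790), (nat_lit 5928574)]) (PF.cons PF.nil (PF.cons PF.nil PF.nil)))))) (PF.cons (PF.cons (PF.leaf (nat_lit 10524634) (nat_lit 2187202) (nat_lit 33706254) (nat_lit 3220574) [(nat_lit 0), (nat_lit 2187202), (nat_lit 5905094)]) (PF.cons (PF.leaf (nat_lit 10850056) (nat_lit 607872) (nat_lit 33265502) (nat_lit 3208221) [(nat_lit 607872), (nat_lit 2181821), (nat_lit 5870438)]) (PF.cons PF.nil (PF.cons PF.nil PF.nil)))) (PF.cons (PF.cons (PF.leaf (nat_lit 11308380) (nat_lit 2159889)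 (nat_lit 32195109) (nat_lit 3169003) [(nat_lit 0), (nat_lit 2159889), (nat_lit 5776285)]) (PF.cons PF.nil PF.nil)) (PF.cons PF.nil PF.nil)))))) (PF.cons (PF.cons (PF.cons (PF.leaf (nat_lit 9526804) (nat_lit 3205896) (nat_lit 34308646) (nat_lit 3205896) [(nat_lit 0), (nat_lit 0), (nat_lit 5918853)]) (PF.cons (PF.leaf (nat_lit 9842421) (nat_lit 589637) (nat_lit 33881909) (nat_lit 3196631) [(nat_lit 589637), (nat_lit 0), (nat_lit 5888127)]) (PF.cons (PF.leaf (nat_lit 10161647) (nat_lit 593173) (nat_lit 33454732) (nat_lit 3186447) [(nat_lit 593173), (nat_lit 0), (nat_lit 5856257)]) (PF.cons (PF.leaf (nat_lit 10483162) (nat_lit 596027)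
 (nat_lit 33028506) (nat_lit 3175409) [(nat_lit 596027), (nat_lit 0), (nat_lit 5823362)]) (PF.cons (PF.leaf (nat_lit 10806139) (nat_lit 598290) (nat_lit 32604323) (nat_lit 3163576) [(nat_lit 598290), (nat_lit 0), (nat_lit 5789550)]) (PF.cons PF.nil PF.nil)))))) (PF.cons (PF.cons (PF.leaf (nat_lit 10310781) (nat_lit 2145500) (nat_lit 32802979) (nat_lit 3162439) [(nat_lit 0), (nat_lit 2145500), (nat_lit 5799578)]) (PF.cons (PF.leaf (nat_lit 10625116) (nat_lit 592173) (nat_lit 32392304) (nat_lit 3150908) [(nat_lit 592173), (nat_lit 2140819), (nat_lit 5766521)]) (PF.cons (PF.leaf (nat_lit 10941545) (nat_lit 594367) (nat_lit 31983065) (nat_lit 3138632) [(nat_lit 594367), (nat_lit 2135451), (nat_lit 5732585)]) (PF.cons PF.nil PF.nil)))) (PF.cons (PF.cons (PF.leaf (nat_lit 11074692) (nat_lit 2120069) (nat_lit 31378611) (nat_lit 3113213) [(nat_lit 0), (nat_lit 2120069), (nat_lit 5675369)]) (PF.cons (PF.leaf (nat_lit 11385603) (nat_lit 591813) (nat_lit 30986091) (nat_lit 3099941)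 [(nat_lit 591813), (nat_lit 2113735), (nat_lit 5640699)]) PF.nil)) (PF.cons PF.nil PF.nil)))) (PF.cons (PF.cons (PF.cons (PF.leaf (nat_lit 10854184) (nat_lit 3058195) (nat_lit 30591987) (nat_lit 3058195) [(nat_lit
 0), (nat_lit 0), (nat_lit 5576438)]) (PF.cons (PF.leaf (nat_lit 11155238) (nat_lit 576880) (nat_lit 30225161) (nat_lit 3045841) [(nat_lit 576880), (nat_lit 0), (nat_lit 5543488)]) (PF.cons (PF.leaf (nat_lit 11458195) (nat_lit 578625) (nat_lit 29859610) (nat_lit 3032877) [(nat_lit 578625), (nat_lit 0), (nat_lit 5509845)]) (PF.cons PF.nil PF.nil)))) (PF.cons (PF.cons (PF.leaf (nat_lit 11578840) (nat_lit 2053058) (nat_lit 29322584) (nat_lit 3007399) [(nat_lit 0), (nat_lit 2053058), (nat_lit 5454295)]) (PF.cons PF.nil PF.nil)) PF.nil)) (PF.cons PF.nil (PF.cons PF.nil (PF.cons PF.nil (PF.cons PF.nil (PF.cons PF.nil PF.nil))))))))))))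

def p12_19_0_0 : pfC (piC [(nat_lit 37297016), (nat_lit 23751559), (nat_lit 15232604)] (nat_lit 20874739)) p12_19_0 (nat_lit 3) (nat_lit 0) (nat_lit 1) = true := by decide +kernel
def p12_19_0_1 : pfC (piC [(nat_lit 37297016), (nat_lit 23751559), (nat_lit 15232604)] (nat_lit 20874739)) p12_19_0 (nat_lit 3) (nat_lit 1) (nat_lit 2) = true := by decide +kernel
def p12_19_0_2 : pfC (piC [(nat_lit 37297016), (nat_lit 23751559), (nat_lit 15232604)] (nat_lit 20874739)) p12_19_0 (nat_lit 3) (nat_lit 2) (nat_lit 3) = true := by decide +kernel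
def p12_19_0_3 : pfC (piC [(nat_lit 37297016), (nat_lit 23751559), (nat_lit 15232604)] (nat_lit 20874739)) p12_19_0 (nat_lit 3) (nat_lit 3) (nat_lit 4) = true := by decide +kernel
def p12_19_0_4 : pfC (piC [(nat_lit 37297016), (nat_lit 23751559), (nat_lit 15232604)] (nat_lit 20874739)) p12_19_0 (nat_lit 3) (nat_lit 4) (nat_lit 5) = true := by decide +kernel
def p12_19_0_5 : pfC (piC [(nat_lit 37297016), (nat_lit 23751559), (nat_lit 15232604)] (nat_lit 20874739)) p12_19_0 (nat_lit 3) (nat_lit 5) (nat_lit 6) = true := by decide +kernel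
def p12_19_0_6 : pfC (piC [(nat_lit 37297016), (nat_lit 23751559), (nat_lit 15232604)] (nat_lit 20874739)) p12_19_0 (nat_lit 3) (nat_lit 6) (nat_lit 7) = true := by decide +kernel
def p12_19_0_7 : pfC (piC [(nat_lit 37297016), (nat_lit 23751559), (nat_lit 15232604)] (nat_lit 20874739)) p12_19_0 (nat_lit 3) (nat_lit 7) (nat_lit 8) = true := by decide +kernel
def p12_19_0_8 : pfC (piC [(nat_lit 37297016), (nat_lit 23751559), (nat_lit 15232604)] (nat_lit 20874739)) p12_19_0 (nat_lit 3) (nat_lit 8) (nat_lit 9) = true := by decide +kernel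
def p12_19_0_9 : pfC (piC [(nat_lit 37297016), (nat_lit 23751559), (nat_lit 15232604)] (nat_lit 20874739)) p12_19_0 (nat_lit 3) (nat_lit 9) (nat_lit 10) = true := by decide +kernel
def p12_19_0_10 : pfC (piC [(nat_lit 37297016), (nat_lit 23751559), (nat_lit 15232604)] (nat_lit 20874739)) p12_19_0 (nat_lit 3) (nat_lit 10) (nat_lit 11) = true := by decide +kernel
def p12_19_0_11 : pfC (piC [(nat_lit 37297016), (nat_lit 23751559), (nat_lit 15232604)] (nat_lit 20874739)) p12_19_0 (nat_lit 3) (nat_lit 11) (nat_lit 12) = true := by decide +kernel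
def p12_19_0_12 : pfC (piC [(nat_lit 37297016), (nat_lit 23751559), (nat_lit 15232604)] (nat_lit 20874739)) p12_19_0 (nat_lit 3) (nat_lit 12) (nat_lit 13) = true := by decide +kernel
def p12_19_0_13 : pfC (piC [(nat_lit 37297016), (nat_lit 23751559), (nat_lit 15232604)] (nat_lit 20874739)) p12_19_0 (nat_lit 3) (nat_lit 13) (nat_lit 14) = true := by decide +kernel
def p12_19_0_14 : pfC (piC [(nat_lit 37297016), (nat_lit 23751559), (nat_lit 15232604)] (nat_lit 20874739)) p12_19_0 (nat_lit 3) (nat_lit 14) (nat_lit 15) = true := by decide +kernel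
def p12_19_0_15 : pfC (piC [(nat_lit 37297016), (nat_lit 23751559), (nat_lit 15232604)] (nat_lit 20874739)) p12_19_0 (nat_lit 3) (nat_lit 15) (nat_lit 16) = true := by decide +kernel
def p12_19_0_16 : pfC (piC [(nat_lit 37297016), (nat_lit 23751559), (nat_lit 15232604)] (nat_lit 20874739)) p12_19_0 (nat_lit 3) (nat_lit 16) (nat_lit 17) = true := by decide +kernel
def p12_19_0_17 : pfC (piC [(nat_lit 37297016), (nat_lit 23751559), (nat_lit 15232604)] (nat_lit 20874739)) p12_19_0 (nat_lit 3) (nat_lit 17) (nat_lit 18) = true := by decide +kernel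
def p12_19_0_18 : pfC (piC [(nat_lit 37297016), (nat_lit 23751559), (nat_lit 15232604)] (nat_lit 20874739)) p12_19_0 (nat_lit 3) (nat_lit 18) (nat_lit 19) = true := by decide +kernel
def p12_19_0_19 : pfC (piC [(nat_lit 37297016), (nat_lit 23751559), (nat_lit 15232604)] (nat_lit 20874739)) p12_19_0 (nat_lit 3) (nat_lit 19) (nat_lit 20) = true := by decide +kernel
def p12_19_0_20 : pfC (piC [(nat_lit 37297016), (nat_lit 23751559), (nat_lit 15232604)] (nat_lit 20874739)) p12_19_0 (nat_lit 3) (nat_lit 20) (nat_lit 21) = true := by decide +kernel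
def p12_19_0_21 : pfC (piC [(nat_lit 37297016), (nat_lit 23751559), (nat_lit 15232604)] (nat_lit 20874739)) p12_19_0 (nat_lit 3) (nat_lit 21) (nat_lit 22) = true := by decide +kernel
def p12_19_0_22 : pfC (piC [(nat_lit 37297016), (nat_lit 23751559), (nat_lit 15232604)] (nat_lit 20874739)) p12_19_0 (nat_lit 3) (nat_lit 22) (nat_lit 23) = true := by decide +kernel
def p12_19_0_23 : pfC (piC [(nat_lit 37297016), (nat_lit 23751559), (nat_lit 15232604)] (nat_lit 20874739)) p12_19_0 (nat_lit 3) (nat_lit 23) (nat_lit 24) = true := by decide +kernel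
def p12_19_0_24 : pfC (piC [(nat_lit 37297016), (nat_lit 23751559), (nat_lit 15232604)] (nat_lit 20874739)) p12_19_0 (nat_lit 3) (nat_lit 24) (nat_lit 25) = true := by decide +kernel
def p12_19_0_25 : pfC (piC [(nat_lit 37297016), (nat_lit 23751559), (nat_lit 15232604)] (nat_lit 20874739)) p12_19_0 (nat_lit 3) (nat_lit 25) (nat_lit 26) = true := by decide +kernel
def p12_19_0_26 : pfC (piC [(nat_lit 37297016), (nat_lit 23751559), (nat_lit 15232604)] (nat_lit 20874739)) p12_19_0 (nat_lit 3) (nat_lit 26) (nat_lit 27) = true := by decide +kernel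
def p12_19_0_27 : pfC (piC [(nat_lit 37297016), (nat_lit 23751559), (nat_lit 15232604)] (nat_lit 20874739)) p12_19_0 (nat_lit 3) (nat_lit 27) (nat_lit 28) = true := by decide +kernel
def p12_19_0_28 : pfC (piC [(nat_lit 37297016), (nat_lit 23751559), (nat_lit 15232604)] (nat_lit 20874739)) p12_19_0 (nat_lit 3) (nat_lit 28) (nat_lit 29) = true := by decide +kernel
def p12_19_0_29 : pfC (piC [(nat_lit 37297016), (nat_lit 23751559), (nat_lit 15232604)] (nat_lit 20874739)) p12_19_0 (nat_lit 3) (nat_lit 29) (nat_lit 30) = true := by decide +kernel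
def p12_19_0_30 : pfC (piC [(nat_lit 37297016), (nat_lit 23751559), (nat_lit 15232604)] (nat_lit 20874739)) p12_19_0 (nat_lit 3) (nat_lit 30) (nat_lit 31) = true := by decide +kernel
def p12_19_0_31 : pfC (piC [(nat_lit 37297016), (nat_lit 23751559), (nat_lit 15232604)] (nat_lit 20874739)) p12_19_0 (nat_lit 3) (nat_lit 31) (nat_lit 32) = true := by decide +kernel
def p12_19_0_32 : pfC (piC [(nat_lit 37297016), (nat_lit 23751559), (nat_lit 15232604)] (nat_lit 20874739)) p12_19_0 (nat_lit 3) (nat_lit 32) (nat_lit 33) = true := by decide +kernel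
def p12_19_0_33 : pfC (piC [(nat_lit 37297016), (nat_lit 23751559), (nat_lit 15232604)] (nat_lit 20874739)) p12_19_0 (nat_lit 3) (nat_lit 33) (nat_lit 34) = true := by decide +kernel
def p12_19_0_34 : pfC (piC [(nat_lit 37297016), (nat_lit 23751559), (nat_lit 15232604)] (nat_lit 20874739)) p12_19_0 (nat_lit 3) (nat_lit 34) (nat_lit 35) = true := by decide +kernel
def p12_19_0_35 : pfC (piC [(nat_lit 37297016), (nat_lit 23751559), (nat_lit 15232604)] (nat_lit 20874739)) p12_19_0 (nat_lit 3) (nat_lit 35) (nat_lit 36) = true := by decide +kernel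
def p12_19_0_36 : pfC (piC [(nat_lit 37297016), (nat_lit 23751559), (nat_lit 15232604)] (nat_lit 20874739)) p12_19_0 (nat_lit 3) (nat_lit 36) (nat_lit 37) = true := by decide +kernel
def p12_19_0_37 : pfC (piC [(nat_lit 37297016), (nat_lit 23751559), (nat_lit 15232604)] (nat_lit 20874739)) p12_19_0 (nat_lit 3) (nat_lit 37) (nat_lit 38) = true := by decide +kernel
def p12_19_0_38 : pfC (piC [(nat_lit 37297016), (nat_lit 23751559), (nat_lit 15232604)] (nat_lit 20874739)) p12_19_0 (nat_lit 3) (nat_lit 38) (nat_lit 39) = true := by decide +kernel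
def p12_19_0_39 : pfC (piC [(nat_lit 37297016), (nat_lit 23751559), (nat_lit 15232604)] (nat_lit 20874739)) p12_19_0 (nat_lit 3) (nat_lit 39) (nat_lit 40) = true := by decide +kernel
def p12_19_0_40 : pfC (piC [(nat_lit 37297016), (nat_lit 23751559), (nat_lit 15232604)] (nat_lit 20874739)) p12_19_0 (nat_lit 3) (nat_lit 40) (nat_lit 41) = true := by decide +kernel
def p12_19_0_41 : pfC (piC [(nat_lit 37297016), (nat_lit 23751559), (nat_lit 15232604)] (nat_lit 20874739)) p12_19_0 (nat_lit 3) (nat_lit 41) (nat_lit 42) = true := by decide +kernel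
def p12_19_0_42 : pfC (piC [(nat_lit 37297016), (nat_lit 23751559), (nat_lit 15232604)] (nat_lit 20874739)) p12_19_0 (nat_lit 3) (nat_lit 42) (nat_lit 43) = true := by decide +kernel
def p12_19_0_43 : pfC (piC [(nat_lit 37297016), (nat_lit 23751559), (nat_lit 15232604)] (nat_lit 20874739)) p12_19_0 (nat_lit 3) (nat_lit 43) (nat_lit 44) = true := by decide +kernel
def p12_19_0_44 : pfC (piC [(nat_lit 37297016), (nat_lit 23751559), (nat_lit 15232604)] (nat_lit 20874739)) p12_19_0 (nat_lit 3) (nat_lit 44) (nat_lit 45) = true := by decide +kernel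
def p12_19_0_45 : pfC (piC [(nat_lit 37297016), (nat_lit 23751559), (nat_lit 15232604)] (nat_lit 20874739)) p12_19_0 (nat_lit 3) (nat_lit 45) (nat_lit 46) = true := by decide +kernel
def p12_19_0_46 : pfC (piC [(nat_lit 37297016), (nat_lit 23751559), (nat_lit 15232604)] (nat_lit 20874739)) p12_19_0 (nat_lit 3) (nat_lit 46) (nat_lit 47) = true := by decide +kernel
def p12_19_0_47 : pfC (piC [(nat_lit 37297016), (nat_lit 23751559), (nat_lit 15232604)] (nat_lit 20874739)) p12_19_0 (nat_lit 3) (nat_lit 47) (nat_lit 48) = true := by decide +kernel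
def p12_19_0_48 : pfC (piC [(nat_lit 37297016), (nat_lit 23751559), (nat_lit 15232604)] (nat_lit 20874739)) p12_19_0 (nat_lit 3) (nat_lit 48) (nat_lit 49) = true := by decide +kernel
def p12_19_0_49 : pfC (piC [(nat_lit 37297016), (nat_lit 23751559), (nat_lit 15232604)] (nat_lit 20874739)) p12_19_0 (nat_lit 3) (nat_lit 49) (nat_lit 50) = true := by decide +kernel
def p12_19_0_50 : pfC (piC [(nat_lit 37297016), (nat_lit 23751559), (nat_lit 15232604)] (nat_lit 20874739)) p12_19_0 (nat_lit 3) (nat_lit 50) (nat_lit 51) = true := by decide +kernel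
def p12_19_0_51 : pfC (piC [(nat_lit 37297016), (nat_lit 23751559), (nat_lit 15232604)] (nat_lit 20874739)) p12_19_0 (nat_lit 3) (nat_lit 51) (nat_lit 52) = true := by decide +kernel
def p12_19_0_52 : pfC (piC [(nat_lit 37297016), (nat_lit 23751559), (nat_lit 15232604)] (nat_lit 20874739)) p12_19_0 (nat_lit 3) (nat_lit 52) (nat_lit 53) = true := by decide +kernel
def p12_19_0_53 : pfC (piC [(nat_lit 37297016), (nat_lit 23751559), (nat_lit 15232604)] (nat_lit 20874739)) p12_19_0 (nat_lit 3) (nat_lit 53) (nat_lit 54) = true := by decide +kernel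
def p12_19_0_54 : pfC (piC [(nat_lit 37297016), (nat_lit 23751559), (nat_lit 15232604)] (nat_lit 20874739)) p12_19_0 (nat_lit 3) (nat_lit 54) (nat_lit 55) = true := by decide +kernel
def p12_19_0_55 : pfC (piC [(nat_lit 37297016), (nat_lit 23751559), (nat_lit 15232604)] (nat_lit 20874739)) p12_19_0 (nat_lit 3) (nat_lit 55) (nat_lit 56) = true := by decide +kernel
def p12_19_0_56 : pfC (piC [(nat_lit 37297016), (nat_lit 23751559), (nat_lit 15232604)] (nat_lit 20874739)) p12_19_0 (nat_lit 3) (nat_lit 56) (nat_lit 57) = true := by decide +kernel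
def p12_19_0_57 : pfC (piC [(nat_lit 37297016), (nat_lit 23751559), (nat_lit 15232604)] (nat_lit 20874739)) p12_19_0 (nat_lit 3) (nat_lit 57) (nat_lit 58) = true := by decide +kernel
def p12_19_0_58 : pfC (piC [(nat_lit 37297016), (nat_lit 23751559), (nat_lit 15232604)] (nat_lit 20874739)) p12_19_0 (nat_lit 3) (nat_lit 58) (nat_lit 59) = true := by decide +kernel
def p12_19_0_59 : pfC (piC [(nat_lit 37297016), (nat_lit 23751559), (nat_lit 15232604)] (nat_lit 20874739)) p12_19_0 (nat_lit 3) (nat_lit 59) (nat_lit 60) = true := by decide +kernel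
def p12_19_0_60 : pfC (piC [(nat_lit 37297016), (nat_lit 23751559), (nat_lit 15232604)] (nat_lit 20874739)) p12_19_0 (nat_lit 3) (nat_lit 60) (nat_lit 61) = true := by decide +kernel
def p12_19_0_61 : pfC (piC [(nat_lit 37297016), (nat_lit 23751559), (nat_lit 15232604)] (nat_lit 20874739)) p12_19_0 (nat_lit 3) (nat_lit 61) (nat_lit 62) = true := by decide +kernel
def p12_19_0_62 : pfC (piC [(nat_lit 37297016), (nat_lit 23751559), (nat_lit 15232604)] (nat_lit 20874739)) p12_19_0 (nat_lit 3) (nat_lit 62) (nat_lit 63) = true := by decide +kernel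
def p12_19_0_63 : pfC (piC [(nat_lit 37297016), (nat_lit 23751559), (nat_lit 15232604)] (nat_lit 20874739)) p12_19_0 (nat_lit 3) (nat_lit 63) (nat_lit 64) = true := by decide +kernel
def p12_19_0_64 : pfC (piC [(nat_lit 37297016), (nat_lit 23751559), (nat_lit 15232604)] (nat_lit 20874739)) p12_19_0 (nat_lit 3) (nat_lit 64) (nat_lit 65) = true := by decide +kernel
def p12_19_0_65 : pfC (piC [(nat_lit 37297016), (nat_lit 23751559), (nat_lit 15232604)] (nat_lit 20874739)) p12_19_0 (nat_lit 3) (nat_lit 65) (nat_lit 66) = true := by decide +kernel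
def p12_19_0_66 : pfC (piC [(nat_lit 37297016), (nat_lit 23751559), (nat_lit 15232604)] (nat_lit 20874739)) p12_19_0 (nat_lit 3) (nat_lit 66) (nat_lit 67) = true := by decide +kernel
def p12_19_0_67 : pfC (piC [(nat_lit 37297016), (nat_lit 23751559), (nat_lit 15232604)] (nat_lit 20874739)) p12_19_0 (nat_lit 3) (nat_lit 67) (nat_lit 68) = true := by decide +kernel
def p12_19_0_68 : pfC (piC [(nat_lit 37297016), (nat_lit 23751559), (nat_lit 15232604)] (nat_lit 20874739)) p12_19_0 (nat_lit 3) (nat_lit 68) (nat_lit 69) = true := by decide +kernel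
def p12_19_0_69 : pfC (piC [(nat_lit 37297016), (nat_lit 23751559), (nat_lit 15232604)] (nat_lit 20874739)) p12_19_0 (nat_lit 3) (nat_lit 69) (nat_lit 70) = true := by decide +kernel
def p12_19_0_70 : pfC (piC [(nat_lit 37297016), (nat_lit 23751559), (nat_lit 15232604)] (nat_lit 20874739)) p12_19_0 (nat_lit 3) (nat_lit 70) (nat_lit 71) = true := by decide +kernel
def p12_19_0_71 : pfC (piC [(nat_lit 37297016), (nat_lit 23751559), (nat_lit 15232604)] (nat_lit 20874739)) p12_19_0 (nat_lit 3) (nat_lit 71) (nat_lit 72) = true := by decide +kernel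
def p12_19_0_72 : pfC (piC [(nat_lit 37297016), (nat_lit 23751559), (nat_lit 15232604)] (nat_lit 20874739)) p12_19_0 (nat_lit 3) (nat_lit 72) (nat_lit 73) = true := by decide +kernel
def p12_19_0_73 : pfC (piC [(nat_lit 37297016), (nat_lit 23751559), (nat_lit 15232604)] (nat_lit 20874739)) p12_19_0 (nat_lit 3) (nat_lit 73) (nat_lit 74) = true := by decide +kernel
def p12_19_0_74 : pfC (piC [(nat_lit 37297016), (nat_lit 23751559), (nat_lit 15232604)] (nat_lit 20874739)) p12_19_0 (nat_lit 3) (nat_lit 74) (nat_lit 75) = true := by decide +kernel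
def p12_19_0_75 : pfC (piC [(nat_lit 37297016), (nat_lit 23751559), (nat_lit 15232604)] (nat_lit 20874739)) p12_19_0 (nat_lit 3) (nat_lit 75) (nat_lit 76) = true := by decide +kernel
def p12_19_0_76 : pfC (piC [(nat_lit 37297016), (nat_lit 23751559), (nat_lit 15232604)] (nat_lit 20874739)) p12_19_0 (nat_lit 3) (nat_lit 76) (nat_lit 77) = true := by decide +kernel
def p12_19_0_77 : pfC (piC [(nat_lit 37297016), (nat_lit 23751559), (nat_lit 15232604)] (nat_lit 20874739)) p12_19_0 (nat_lit 3) (nat_lit 77) (nat_lit 78) = true := by decide +kernel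
def p12_19_0_78 : pfC (piC [(nat_lit 37297016), (nat_lit 23751559), (nat_lit 15232604)] (nat_lit 20874739)) p12_19_0 (nat_lit 3) (nat_lit 78) (nat_lit 79) = true := by decide +kernel
def p12_19_0_79 : pfC (piC [(nat_lit 37297016), (nat_lit 23751559), (nat_lit 15232604)] (nat_lit 20874739)) p12_19_0 (nat_lit 3) (nat_lit 79) (nat_lit 80) = true := by decide +kernel
def p12_19_0_80 : pfC (piC [(nat_lit 37297016), (nat_lit 23751559), (nat_lit 15232604)] (nat_lit 20874739)) p12_19_0 (nat_lit 3) (nat_lit 80) (nat_lit 81) = true := by decide +kernel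
def p12_19_0_81 : pfC (piC [(nat_lit 37297016), (nat_lit 23751559), (nat_lit 15232604)] (nat_lit 20874739)) p12_19_0 (nat_lit 3) (nat_lit 81) (nat_lit 82) = true := by decide +kernel
def p12_19_0_82 : pfC (piC [(nat_lit 37297016), (nat_lit 23751559), (nat_lit 15232604)] (nat_lit 20874739)) p12_19_0 (nat_lit 3) (nat_lit 82) (nat_lit 83) = true := by decide +kernel
def p12_19_0_83 : pfC (piC [(nat_lit 37297016), (nat_lit 23751559), (nat_lit 15232604)] (nat_lit 20874739)) p12_19_0 (nat_lit 3) (nat_lit 83) (nat_lit 84) = true := by decide +kernel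
def p12_19_0_84 : pfC (piC [(nat_lit 37297016), (nat_lit 23751559), (nat_lit 15232604)] (nat_lit 20874739)) p12_19_0 (nat_lit 3) (nat_lit 84) (nat_lit 85) = true := by decide +kernel
def p12_19_0_85 : pfC (piC [(nat_lit 37297016), (nat_lit 23751559), (nat_lit 15232604)] (nat_lit 20874739)) p12_19_0 (nat_lit 3) (nat_lit 85) (nat_lit 86) = true := by decide +kernel
def p12_19_0_86 : pfC (piC [(nat_lit 37297016), (nat_lit 23751559), (nat_lit 15232604)] (nat_lit 20874739)) p12_19_0 (nat_lit 3) (nat_lit 86) (nat_lit 87) = true := by decide +kernel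
def p12_19_0_87 : pfC (piC [(nat_lit 37297016), (nat_lit 23751559), (nat_lit 15232604)] (nat_lit 20874739)) p12_19_0 (nat_lit 3) (nat_lit 87) (nat_lit 88) = true := by decide +kernel
def p12_19_0_88 : pfC (piC [(nat_lit 37297016), (nat_lit 23751559), (nat_lit 15232604)] (nat_lit 20874739)) p12_19_0 (nat_lit 3) (nat_lit 88) (nat_lit 89) = true := by decide +kernel
def p12_19_0_89 : pfC (piC [(nat_lit 37297016), (nat_lit 23751559), (nat_lit 15232604)] (nat_lit 20874739)) p12_19_0 (nat_lit 3) (nat_lit 89) (nat_lit 90) = true := by decide +kernel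
def p12_19_0_90 : pfC (piC [(nat_lit 37297016), (nat_lit 23751559), (nat_lit 15232604)] (nat_lit 20874739)) p12_19_0 (nat_lit 3) (nat_lit 90) (nat_lit 91) = true := by decide +kernel
def p12_19_0_91 : pfC (piC [(nat_lit 37297016), (nat_lit 23751559), (nat_lit 15232604)] (nat_lit 20874739)) p12_19_0 (nat_lit 3) (nat_lit 91) (nat_lit 92) = true := by decide +kernel
def p12_19_0_92 : pfC (piC [(nat_lit 37297016), (nat_lit 23751559), (nat_lit 15232604)] (nat_lit 20874739)) p12_19_0 (nat_lit 3) (nat_lit 92) (nat_lit 93) = true := by decide +kernel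
def p12_19_0_93 : pfC (piC [(nat_lit 37297016), (nat_lit 23751559), (nat_lit 15232604)] (nat_lit 20874739)) p12_19_0 (nat_lit 3) (nat_lit 93) (nat_lit 94) = true := by decide +kernel
def p12_19_0_94 : pfC (piC [(nat_lit 37297016), (nat_lit 23751559), (nat_lit 15232604)] (nat_lit 20874739)) p12_19_0 (nat_lit 3) (nat_lit 94) (nat_lit 95) = true := by decide +kernel
def p12_19_0_95 : pfC (piC [(nat_lit 37297016), (nat_lit 23751559), (nat_lit 15232604)] (nat_lit 20874739)) p12_19_0 (nat_lit 3) (nat_lit 95) (nat_lit 96) = true := by decide +kernel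
def p12_19_0_96 : pfC (piC [(nat_lit 37297016), (nat_lit 23751559), (nat_lit 15232604)] (nat_lit 20874739)) p12_19_0 (nat_lit 3) (nat_lit 96) (nat_lit 97) = true := by decide +kernel
def p12_19_0_97 : pfC (piC [(nat_lit 37297016), (nat_lit 23751559), (nat_lit 15232604)] (nat_lit 20874739)) p12_19_0 (nat_lit 3) (nat_lit 97) (nat_lit 98) = true := by decide +kernel
def p12_19_0_98 : pfC (piC [(nat_lit 37297016), (nat_lit 23751559), (nat_lit 15232604)] (nat_lit 20874739)) p12_19_0 (nat_lit 3) (nat_lit 98) (nat_lit 99) = true := by decide +kernel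
def p12_19_0_99 : pfC (piC [(nat_lit 37297016), (nat_lit 23751559), (nat_lit 15232604)] (nat_lit 20874739)) p12_19_0 (nat_lit 3) (nat_lit 99) (nat_lit 100) = true := by decide +kernel
def p12_19_0_100 : pfC (piC [(nat_lit 37297016), (nat_lit 23751559), (nat_lit 15232604)] (nat_lit 20874739)) p12_19_0 (nat_lit 3) (nat_lit 100) (nat_lit 101) = true := by decide +kernel
def p12_19_0_101 : pfC (piC [(nat_lit 37297016), (nat_lit 23751559), (nat_lit 15232604)] (nat_lit 20874739)) p12_19_0 (nat_lit 3) (nat_lit 101) (nat_lit 102) = true := by decide +kernel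
def p12_19_0_102 : pfC (piC [(nat_lit 37297016), (nat_lit 23751559), (nat_lit 15232604)] (nat_lit 20874739)) p12_19_0 (nat_lit 3) (nat_lit 102) (nat_lit 103) = true := by decide +kernel
def p12_19_0_103 : pfC (piC [(nat_lit 37297016), (nat_lit 23751559), (nat_lit 15232604)] (nat_lit 20874739)) p12_19_0 (nat_lit 3) (nat_lit 103) (nat_lit 104) = true := by decide +kernel
def p12_19_0_104 : pfC (piC [(nat_lit 37297016), (nat_lit 23751559), (nat_lit 15232604)] (nat_lit 20874739)) p12_19_0 (nat_lit 3) (nat_lit 104) (nat_lit 105) = true := by decide +kernel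
def p12_19_0_105 : pfC (piC [(nat_lit 37297016), (nat_lit 23751559), (nat_lit 15232604)] (nat_lit 20874739)) p12_19_0 (nat_lit 3) (nat_lit 105) (nat_lit 106) = true := by decide +kernel
def p12_19_0_106 : pfC (piC [(nat_lit 37297016), (nat_lit 23751559), (nat_lit 15232604)] (nat_lit 20874739)) p12_19_0 (nat_lit 3) (nat_lit 106) (nat_lit 107) = true := by decide +kernel
def p12_19_0_107 : pfC (piC [(nat_lit 37297016), (nat_lit 23751559), (nat_lit 15232604)] (nat_lit 20874739)) p12_19_0 (nat_lit 3) (nat_lit 107) (nat_lit 108) = true := by decide +kernel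
def p12_19_0_108 : pfC (piC [(nat_lit 37297016), (nat_lit 23751559), (nat_lit 15232604)] (nat_lit 20874739)) p12_19_0 (nat_lit 3) (nat_lit 108) (nat_lit 109) = true := by decide +kernel
def p12_19_0_109 : pfC (piC [(nat_lit 37297016), (nat_lit 23751559), (nat_lit 15232604)] (nat_lit 20874739)) p12_19_0 (nat_lit 3) (nat_lit 109) (nat_lit 110) = true := by decide +kernel
def p12_19_0_110 : pfC (piC [(nat_lit 37297016), (nat_lit 23751559), (nat_lit 15232604)] (nat_lit 20874739)) p12_19_0 (nat_lit 3) (nat_lit 110) (nat_lit 111) = true := by decide +kernel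
def p12_19_0_111 : pfC (piC [(nat_lit 37297016), (nat_lit 23751559), (nat_lit 15232604)] (nat_lit 20874739)) p12_19_0 (nat_lit 3) (nat_lit 111) (nat_lit 112) = true := by decide +kernel
def p12_19_0_112 : pfC (piC [(nat_lit 37297016), (nat_lit 23751559), (nat_lit 15232604)] (nat_lit 20874739)) p12_19_0 (nat_lit 3) (nat_lit 112) (nat_lit 113) = true := by decide +kernel
def p12_19_0_113 : pfC (piC [(nat_lit 37297016), (nat_lit 23751559), (nat_lit 15232604)] (nat_lit 20874739)) p12_19_0 (nat_lit 3) (nat_lit 113) (nat_lit 114) = true := by decide +kernel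
def p12_19_0_114 : pfC (piC [(nat_lit 37297016), (nat_lit 23751559), (nat_lit 15232604)] (nat_lit 20874739)) p12_19_0 (nat_lit 3) (nat_lit 114) (nat_lit 115) = true := by decide +kernel
def p12_19_0_115 : pfC (piC [(nat_lit 37297016), (nat_lit 23751559), (nat_lit 15232604)] (nat_lit 20874739)) p12_19_0 (nat_lit 3) (nat_lit 115) (nat_lit 116) = true := by decide +kernel
def p12_19_0_116 : pfC (piC [(nat_lit 37297016), (nat_lit 23751559), (nat_lit 15232604)] (nat_lit 20874739)) p12_19_0 (nat_lit 3) (nat_lit 116) (nat_lit 117) = true := by decide +kernel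
def p12_19_0_117 : pfC (piC [(nat_lit 37297016), (nat_lit 23751559), (nat_lit 15232604)] (nat_lit 20874739)) p12_19_0 (nat_lit 3) (nat_lit 117) (nat_lit 118) = true := by decide +kernel
def p12_19_0_118 : pfC (piC [(nat_lit 37297016), (nat_lit 23751559), (nat_lit 15232604)] (nat_lit 20874739)) p12_19_0 (nat_lit 3) (nat_lit 118) (nat_lit 119) = true := by decide +kernel
def p12_19_0_119 : pfC (piC [(nat_lit 37297016), (nat_lit 23751559), (nat_lit 15232604)] (nat_lit 20874739)) p12_19_0 (nat_lit 3) (nat_lit 119) (nat_lit 120) = true := by decide +kernel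
def p12_19_0_120 : pfC (piC [(nat_lit 37297016), (nat_lit 23751559), (nat_lit 15232604)] (nat_lit 20874739)) p12_19_0 (nat_lit 3) (nat_lit 120) (nat_lit 121) = true := by decide +kernel
def p12_19_0_121 : pfC (piC [(nat_lit 37297016), (nat_lit 23751559), (nat_lit 15232604)] (nat_lit 20874739)) p12_19_0 (nat_lit 3) (nat_lit 121) (nat_lit 122) = true := by decide +kernel
def p12_19_0_122 : pfC (piC [(nat_lit 37297016), (nat_lit 23751559), (nat_lit 15232604)] (nat_lit 20874739)) p12_19_0 (nat_lit 3) (nat_lit 122) (nat_lit 123) = true := by decide +kernel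
def p12_19_0_123 : pfC (piC [(nat_lit 37297016), (nat_lit 23751559), (nat_lit 15232604)] (nat_lit 20874739)) p12_19_0 (nat_lit 3) (nat_lit 123) (nat_lit 124) = true := by decide +kernel
def p12_19_0_124 : pfC (piC [(nat_lit 37297016), (nat_lit 23751559), (nat_lit 15232604)] (nat_lit 20874739)) p12_19_0 (nat_lit 3) (nat_lit 124) (nat_lit 125) = true := by decide +kernel
def p12_19_0_125 : pfC (piC [(nat_lit 37297016), (nat_lit 23751559), (nat_lit 15232604)] (nat_lit 20874739)) p12_19_0 (nat_lit 3) (nat_lit 125) (nat_lit 126) = true := by decide +kernel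
def p12_19_0_126 : pfC (piC [(nat_lit 37297016), (nat_lit 23751559), (nat_lit 15232604)] (nat_lit 20874739)) p12_19_0 (nat_lit 3) (nat_lit 126) (nat_lit 127) = true := by decide +kernel
def p12_19_0_127 : pfC (piC [(nat_lit 37297016), (nat_lit 23751559), (nat_lit 15232604)] (nat_lit 20874739)) p12_19_0 (nat_lit 3) (nat_lit 127) (nat_lit 128) = true := by decide +kernel
def p12_19_0_128 : pfC (piC [(nat_lit 37297016), (nat_lit 23751559), (nat_lit 15232604)] (nat_lit 20874739)) p12_19_0 (nat_lit 3) (nat_lit 128) (nat_lit 129) = true := by decide +kernel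
def p12_19_0_129 : pfC (piC [(nat_lit 37297016), (nat_lit 23751559), (nat_lit 15232604)] (nat_lit 20874739)) p12_19_0 (nat_lit 3) (nat_lit 129) (nat_lit 130) = true := by decide +kernel
def p12_19_0_130 : pfC (piC [(nat_lit 37297016), (nat_lit 23751559), (nat_lit 15232604)] (nat_lit 20874739)) p12_19_0 (nat_lit 3) (nat_lit 130) (nat_lit 131) = true := by decide +kernel
def p12_19_0_131 : pfC (piC [(nat_lit 37297016), (nat_lit 23751559), (nat_lit 15232604)] (nat_lit 20874739)) p12_19_0 (nat_lit 3) (nat_lit 131) (nat_lit 132) = true := by decide +kernel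
def p12_19_0_132 : pfC (piC [(nat_lit 37297016), (nat_lit 23751559), (nat_lit 15232604)] (nat_lit 20874739)) p12_19_0 (nat_lit 3) (nat_lit 132) (nat_lit 133) = true := by decide +kernel
def p12_19_0_133 : pfC (piC [(nat_lit 37297016), (nat_lit 23751559), (nat_lit 15232604)] (nat_lit 20874739)) p12_19_0 (nat_lit 3) (nat_lit 133) (nat_lit 134) = true := by decide +kernel
def p12_19_0_134 : pfC (piC [(nat_lit 37297016), (nat_lit 23751559), (nat_lit 15232604)] (nat_lit 20874739)) p12_19_0 (nat_lit 3) (nat_lit 134) (nat_lit 135) = true := by decide +kernel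
def p12_19_0_135 : pfC (piC [(nat_lit 37297016), (nat_lit 23751559), (nat_lit 15232604)] (nat_lit 20874739)) p12_19_0 (nat_lit 3) (nat_lit 135) (nat_lit 136) = true := by decide +kernel
def p12_19_0_136 : pfC (piC [(nat_lit 37297016), (nat_lit 23751559), (nat_lit 15232604)] (nat_lit 20874739)) p12_19_0 (nat_lit 3) (nat_lit 136) (nat_lit 137) = true := by decide +kernel
def p12_19_0_137 : pfC (piC [(nat_lit 37297016), (nat_lit 23751559), (nat_lit 15232604)] (nat_lit 20874739)) p12_19_0 (nat_lit 3) (nat_lit 137) (nat_lit 138) = true := by decide +kernel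
def p12_19_0_138 : pfC (piC [(nat_lit 37297016), (nat_lit 23751559), (nat_lit 15232604)] (nat_lit 20874739)) p12_19_0 (nat_lit 3) (nat_lit 138) (nat_lit 139) = true := by decide +kernel
def p12_19_0_139 : pfC (piC [(nat_lit 37297016), (nat_lit 23751559), (nat_lit 15232604)] (nat_lit 20874739)) p12_19_0 (nat_lit 3) (nat_lit 139) (nat_lit 140) = true := by decide +kernel
def p12_19_0_140 : pfC (piC [(nat_lit 37297016), (nat_lit 23751559), (nat_lit 15232604)] (nat_lit 20874739)) p12_19_0 (nat_lit 3) (nat_lit 140) (nat_lit 141) = true := by decide +kernel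
def p12_19_0_141 : pfC (piC [(nat_lit 37297016), (nat_lit 23751559), (nat_lit 15232604)] (nat_lit 20874739)) p12_19_0 (nat_lit 3) (nat_lit 141) (nat_lit 142) = true := by decide +kernel
def p12_19_0_142 : pfC (piC [(nat_lit 37297016), (nat_lit 23751559), (nat_lit 15232604)] (nat_lit 20874739)) p12_19_0 (nat_lit 3) (nat_lit 142) (nat_lit 143) = true := by decide +kernel
def p12_19_0_143 : pfC (piC [(nat_lit 37297016), (nat_lit 23751559), (nat_lit 15232604)] (nat_lit 20874739)) p12_19_0 (nat_lit 3) (nat_lit 143) (nat_lit 144) = true := by decide +kernel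
def p12_19_0_144 : pfC (piC [(nat_lit 37297016), (nat_lit 23751559), (nat_lit 15232604)] (nat_lit 20874739)) p12_19_0 (nat_lit 3) (nat_lit 144) (nat_lit 145) = true := by decide +kernel
def p12_19_0_145 : pfC (piC [(nat_lit 37297016), (nat_lit 23751559), (nat_lit 15232604)] (nat_lit 20874739)) p12_19_0 (nat_lit 3) (nat_lit 145) (nat_lit 146) = true := by decide +kernel
def p12_19_0_146 : pfC (piC [(nat_lit 37297016), (nat_lit 23751559), (nat_lit 15232604)] (nat_lit 20874739)) p12_19_0 (nat_lit 3) (nat_lit 146) (nat_lit 147) = true := by decide +kernel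
def p12_19_0_147 : pfC (piC [(nat_lit 37297016), (nat_lit 23751559), (nat_lit 15232604)] (nat_lit 20874739)) p12_19_0 (nat_lit 3) (nat_lit 147) (nat_lit 148) = true := by decide +kernel
def p12_19_0_148 : pfC (piC [(nat_lit 37297016), (nat_lit 23751559), (nat_lit 15232604)] (nat_lit 20874739)) p12_19_0 (nat_lit 3) (nat_lit 148) (nat_lit 149) = true := by decide +kernel
def p12_19_0_149 : pfC (piC [(nat_lit 37297016), (nat_lit 23751559), (nat_lit 15232604)] (nat_lit 20874739)) p12_19_0 (nat_lit 3) (nat_lit 149) (nat_lit 150) = true := by decide +kernel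
def p12_19_0_150 : pfC (piC [(nat_lit 37297016), (nat_lit 23751559), (nat_lit 15232604)] (nat_lit 20874739)) p12_19_0 (nat_lit 3) (nat_lit 150) (nat_lit 151) = true := by decide +kernel
def p12_19_0_151 : pfC (piC [(nat_lit 37297016), (nat_lit 23751559), (nat_lit 15232604)] (nat_lit 20874739)) p12_19_0 (nat_lit 3) (nat_lit 151) (nat_lit 152) = true := by decide +kernel
def p12_19_0_152 : pfC (piC [(nat_lit 37297016), (nat_lit 23751559), (nat_lit 15232604)] (nat_lit 20874739)) p12_19_0 (nat_lit 3) (nat_lit 152) (nat_lit 153) = true := by decide +kernel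
def p12_19_0_153 : pfC (piC [(nat_lit 37297016), (nat_lit 23751559), (nat_lit 15232604)] (nat_lit 20874739)) p12_19_0 (nat_lit 3) (nat_lit 153) (nat_lit 154) = true := by decide +kernel
def p12_19_0_154 : pfC (piC [(nat_lit 37297016), (nat_lit 23751559), (nat_lit 15232604)] (nat_lit 20874739)) p12_19_0 (nat_lit 3) (nat_lit 154) (nat_lit 155) = true := by decide +kernel
def p12_19_0_155 : pfC (piC [(nat_lit 37297016), (nat_lit 23751559), (nat_lit 15232604)] (nat_lit 20874739)) p12_19_0 (nat_lit 3) (nat_lit 155) (nat_lit 156) = true := by decide +kernel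
def p12_19_0_156 : pfC (piC [(nat_lit 37297016), (nat_lit 23751559), (nat_lit 15232604)] (nat_lit 20874739)) p12_19_0 (nat_lit 3) (nat_lit 156) (nat_lit 157) = true := by decide +kernel
def p12_19_0_157 : pfC (piC [(nat_lit 37297016), (nat_lit 23751559), (nat_lit 15232604)] (nat_lit 20874739)) p12_19_0 (nat_lit 3) (nat_lit 157) (nat_lit 158) = true := by decide +kernel
def p12_19_0_158 : pfC (piC [(nat_lit 37297016), (nat_lit 23751559), (nat_lit 15232604)] (nat_lit 20874739)) p12_19_0 (nat_lit 3) (nat_lit 158) (nat_lit 159) = true := by decide +kernel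
def p12_19_0_159 : pfC (piC [(nat_lit 37297016), (nat_lit 23751559), (nat_lit 15232604)] (nat_lit 20874739)) p12_19_0 (nat_lit 3) (nat_lit 159) (nat_lit 160) = true := by decide +kernel
def p12_19_0_160 : pfC (piC [(nat_lit 37297016), (nat_lit 23751559), (nat_lit 15232604)] (nat_lit 20874739)) p12_19_0 (nat_lit 3) (nat_lit 160) (nat_lit 161) = true := by decide +kernel
def p12_19_0_161 : pfC (piC [(nat_lit 37297016), (nat_lit 23751559), (nat_lit 15232604)] (nat_lit 20874739)) p12_19_0 (nat_lit 3) (nat_lit 161) (nat_lit 162) = true := by decide +kernel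
def p12_19_0_162 : pfC (piC [(nat_lit 37297016), (nat_lit 23751559), (nat_lit 15232604)] (nat_lit 20874739)) p12_19_0 (nat_lit 3) (nat_lit 162) (nat_lit 163) = true := by decide +kernel
def p12_19_0_163 : pfC (piC [(nat_lit 37297016), (nat_lit 23751559), (nat_lit 15232604)] (nat_lit 20874739)) p12_19_0 (nat_lit 3) (nat_lit 163) (nat_lit 164) = true := by decide +kernel
def p12_19_0_164 : pfC (piC [(nat_lit 37297016), (nat_lit 23751559), (nat_lit 15232604)] (nat_lit 20874739)) p12_19_0 (nat_lit 3) (nat_lit 164) (nat_lit 165) = true := by decide +kernel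
def p12_19_0_165 : pfC (piC [(nat_lit 37297016), (nat_lit 23751559), (nat_lit 15232604)] (nat_lit 20874739)) p12_19_0 (nat_lit 3) (nat_lit 165) (nat_lit 166) = true := by decide +kernel
def p12_19_0_166 : pfC (piC [(nat_lit 37297016), (nat_lit 23751559), (nat_lit 15232604)] (nat_lit 20874739)) p12_19_0 (nat_lit 3) (nat_lit 166) (nat_lit 167) = true := by decide +kernel
def p12_19_0_167 : pfC (piC [(nat_lit 37297016), (nat_lit 23751559), (nat_lit 15232604)] (nat_lit 20874739)) p12_19_0 (nat_lit 3) (nat_lit 167) (nat_lit 168) = true := by decide +kernel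
def p12_19_0_168 : pfC (piC [(nat_lit 37297016), (nat_lit 23751559), (nat_lit 15232604)] (nat_lit 20874739)) p12_19_0 (nat_lit 3) (nat_lit 168) (nat_lit 169) = true := by decide +kernel
def p12_19_0_169 : pfC (piC [(nat_lit 37297016), (nat_lit 23751559), (nat_lit 15232604)] (nat_lit 20874739)) p12_19_0 (nat_lit 3) (nat_lit 169) (nat_lit 170) = true := by decide +kernel
def p12_19_0_170 : pfC (piC [(nat_lit 37297016), (nat_lit 23751559), (nat_lit 15232604)] (nat_lit 20874739)) p12_19_0 (nat_lit 3) (nat_lit 170) (nat_lit 171) = true := by decide +kernel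
def p12_19_0_171 : pfC (piC [(nat_lit 37297016), (nat_lit 23751559), (nat_lit 15232604)] (nat_lit 20874739)) p12_19_0 (nat_lit 3) (nat_lit 171) (nat_lit 172) = true := by decide +kernel
def p12_19_0_172 : pfC (piC [(nat_lit 37297016), (nat_lit 23751559), (nat_lit 15232604)] (nat_lit 20874739)) p12_19_0 (nat_lit 3) (nat_lit 172) (nat_lit 173) = true := by decide +kernel
def p12_19_0_173 : pfC (piC [(nat_lit 37297016), (nat_lit 23751559), (nat_lit 15232604)] (nat_lit 20874739)) p12_19_0 (nat_lit 3) (nat_lit 173) (nat_lit 174) = true := by decide +kernel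
def p12_19_0_174 : pfC (piC [(nat_lit 37297016), (nat_lit 23751559), (nat_lit 15232604)] (nat_lit 20874739)) p12_19_0 (nat_lit 3) (nat_lit 174) (nat_lit 175) = true := by decide +kernel
def p12_19_0_175 : pfC (piC [(nat_lit 37297016), (nat_lit 23751559), (nat_lit 15232604)] (nat_lit 20874739)) p12_19_0 (nat_lit 3) (nat_lit 175) (nat_lit 176) = true := by decide +kernel
def p12_19_0_176 : pfC (piC [(nat_lit 37297016), (nat_lit 23751559), (nat_lit 15232604)] (nat_lit 20874739)) p12_19_0 (nat_lit 3) (nat_lit 176) (nat_lit 177) = true := by decide +kernel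
def p12_19_0_177 : pfC (piC [(nat_lit 37297016), (nat_lit 23751559), (nat_lit 15232604)] (nat_lit 20874739)) p12_19_0 (nat_lit 3) (nat_lit 177) (nat_lit 178) = true := by decide +kernel
def p12_19_0_178 : pfC (piC [(nat_lit 37297016), (nat_lit 23751559), (nat_lit 15232604)] (nat_lit 20874739)) p12_19_0 (nat_lit 3) (nat_lit 178) (nat_lit 179) = true := by decide +kernel
def p12_19_0_179 : pfC (piC [(nat_lit 37297016), (nat_lit 23751559), (nat_lit 15232604)] (nat_lit 20874739)) p12_19_0 (nat_lit 3) (nat_lit 179) (nat_lit 180) = true := by decide +kernel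
def p12_19_0_180 : pfC (piC [(nat_lit 37297016), (nat_lit 23751559), (nat_lit 15232604)] (nat_lit 20874739)) p12_19_0 (nat_lit 3) (nat_lit 180) (nat_lit 181) = true := by decide +kernel
def p12_19_0_181 : pfC (piC [(nat_lit 37297016), (nat_lit 23751559), (nat_lit 15232604)] (nat_lit 20874739)) p12_19_0 (nat_lit 3) (nat_lit 181) (nat_lit 182) = true := by decide +kernel
def p12_19_0_182 : pfC (piC [(nat_lit 37297016), (nat_lit 23751559), (nat_lit 15232604)] (nat_lit 20874739)) p12_19_0 (nat_lit 3) (nat_lit 182) (nat_lit 183) = true := by decide +kernel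
def p12_19_0_183 : pfC (piC [(nat_lit 37297016), (nat_lit 23751559), (nat_lit 15232604)] (nat_lit 20874739)) p12_19_0 (nat_lit 3) (nat_lit 183) (nat_lit 184) = true := by decide +kernel
def p12_19_0_184 : pfC (piC [(nat_lit 37297016), (nat_lit 23751559), (nat_lit 15232604)] (nat_lit 20874739)) p12_19_0 (nat_lit 3) (nat_lit 184) (nat_lit 185) = true := by decide +kernel
def p12_19_0_185 : pfC (piC [(nat_lit 37297016), (nat_lit 23751559), (nat_lit 15232604)] (nat_lit 20874739)) p12_19_0 (nat_lit 3) (nat_lit 185) (nat_lit 186) = true := by decide +kernel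
def p12_19_0_186 : pfC (piC [(nat_lit 37297016), (nat_lit 23751559), (nat_lit 15232604)] (nat_lit 20874739)) p12_19_0 (nat_lit 3) (nat_lit 186) (nat_lit 187) = true := by decide +kernel
def p12_19_0_187 : pfC (piC [(nat_lit 37297016), (nat_lit 23751559), (nat_lit 15232604)] (nat_lit 20874739)) p12_19_0 (nat_lit 3) (nat_lit 187) (nat_lit 188) = true := by decide +kernel
def p12_19_0_188 : pfC (piC [(nat_lit 37297016), (nat_lit 23751559), (nat_lit 15232604)] (nat_lit 20874739)) p12_19_0 (nat_lit 3) (nat_lit 188) (nat_lit 189) = true := by decide +kernel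
def p12_19_0_189 : pfC (piC [(nat_lit 37297016), (nat_lit 23751559), (nat_lit 15232604)] (nat_lit 20874739)) p12_19_0 (nat_lit 3) (nat_lit 189) (nat_lit 190) = true := by decide +kernel
def p12_19_0_190 : pfC (piC [(nat_lit 37297016), (nat_lit 23751559), (nat_lit 15232604)] (nat_lit 20874739)) p12_19_0 (nat_lit 3) (nat_lit 190) (nat_lit 191) = true := by decide +kernel
def p12_19_0_191 : pfC (piC [(nat_lit 37297016), (nat_lit 23751559), (nat_lit 15232604)] (nat_lit 20874739)) p12_19_0 (nat_lit 3) (nat_lit 191) (nat_lit 192) = true := by decide +kernel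
def p12_19_0_192 : pfC (piC [(nat_lit 37297016), (nat_lit 23751559), (nat_lit 15232604)] (nat_lit 20874739)) p12_19_0 (nat_lit 3) (nat_lit 192) (nat_lit 193) = true := by decide +kernel
def p12_19_0_193 : pfC (piC [(nat_lit 37297016), (nat_lit 23751559), (nat_lit 15232604)] (nat_lit 20874739)) p12_19_0 (nat_lit 3) (nat_lit 193) (nat_lit 194) = true := by decide +kernel
def p12_19_0_194 : pfC (piC [(nat_lit 37297016), (nat_lit 23751559), (nat_lit 15232604)] (nat_lit 20874739)) p12_19_0 (nat_lit 3) (nat_lit 194) (nat_lit 195) = true := by decide +kernel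
def p12_19_0_195 : pfC (piC [(nat_lit 37297016), (nat_lit 23751559), (nat_lit 15232604)] (nat_lit 20874739)) p12_19_0 (nat_lit 3) (nat_lit 195) (nat_lit 196) = true := by decide +kernel
def p12_19_0_196 : pfC (piC [(nat_lit 37297016), (nat_lit 23751559), (nat_lit 15232604)] (nat_lit 20874739)) p12_19_0 (nat_lit 3) (nat_lit 196) (nat_lit 197) = true := by decide +kernel
def p12_19_0_197 : pfC (piC [(nat_lit 37297016), (nat_lit 23751559), (nat_lit 15232604)] (nat_lit 20874739)) p12_19_0 (nat_lit 3) (nat_lit 197) (nat_lit 198) = true := by decide +kernel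
def p12_19_0_198 : pfC (piC [(nat_lit 37297016), (nat_lit 23751559), (nat_lit 15232604)] (nat_lit 20874739)) p12_19_0 (nat_lit 3) (nat_lit 198) (nat_lit 199) = true := by decide +kernel
def p12_19_0_199 : pfC (piC [(nat_lit 37297016), (nat_lit 23751559), (nat_lit 15232604)] (nat_lit 20874739)) p12_19_0 (nat_lit 3) (nat_lit 199) (nat_lit 200) = true := by decide +kernel
def p12_19_0_200 : pfC (piC [(nat_lit 37297016), (nat_lit 23751559), (nat_lit 15232604)] (nat_lit 20874739)) p12_19_0 (nat_lit 3) (nat_lit 200) (nat_lit 201) = true := by decide +kernel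
def p12_19_0_201 : pfC (piC [(nat_lit 37297016), (nat_lit 23751559), (nat_lit 15232604)] (nat_lit 20874739)) p12_19_0 (nat_lit 3) (nat_lit 201) (nat_lit 202) = true := by decide +kernel
def p12_19_0_202 : pfC (piC [(nat_lit 37297016), (nat_lit 23751559), (nat_lit 15232604)] (nat_lit 20874739)) p12_19_0 (nat_lit 3) (nat_lit 202) (nat_lit 203) = true := by decide +kernel
def p12_19_0_203 : pfC (piC [(nat_lit 37297016), (nat_lit 23751559), (nat_lit 15232604)] (nat_lit 20874739)) p12_19_0 (nat_lit 3) (nat_lit 203) (nat_lit 204) = true := by decide +kernel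
def p12_19_0_204 : pfC (piC [(nat_lit 37297016), (nat_lit 23751559), (nat_lit 15232604)] (nat_lit 20874739)) p12_19_0 (nat_lit 3) (nat_lit 204) (nat_lit 205) = true := by decide +kernel
def p12_19_0_205 : pfC (piC [(nat_lit 37297016), (nat_lit 23751559), (nat_lit 15232604)] (nat_lit 20874739)) p12_19_0 (nat_lit 3) (nat_lit 205) (nat_lit 206) = true := by decide +kernel
def p12_19_0_206 : pfC (piC [(nat_lit 37297016), (nat_lit 23751559), (nat_lit 15232604)] (nat_lit 20874739)) p12_19_0 (nat_lit 3) (nat_lit 206) (nat_lit 207) = true := by decide +kernel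
def p12_19_0_207 : pfC (piC [(nat_lit 37297016), (nat_lit 23751559), (nat_lit 15232604)] (nat_lit 20874739)) p12_19_0 (nat_lit 3) (nat_lit 207) (nat_lit 208) = true := by decide +kernel
def p12_19_0_208 : pfC (piC [(nat_lit 37297016), (nat_lit 23751559), (nat_lit 15232604)] (nat_lit 20874739)) p12_19_0 (nat_lit 3) (nat_lit 208) (nat_lit 209) = true := by decide +kernel
def p12_19_0_209 : pfC (piC [(nat_lit 37297016), (nat_lit 23751559), (nat_lit 15232604)] (nat_lit 20874739)) p12_19_0 (nat_lit 3) (nat_lit 209) (nat_lit 210) = true := by decide +kernel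
def p12_19_0_210 : pfC (piC [(nat_lit 37297016), (nat_lit 23751559), (nat_lit 15232604)] (nat_lit 20874739)) p12_19_0 (nat_lit 3) (nat_lit 210) (nat_lit 211) = true := by decide +kernel
def p12_19_0_211 : pfC (piC [(nat_lit 37297016), (nat_lit 23751559), (nat_lit 15232604)] (nat_lit 20874739)) p12_19_0 (nat_lit 3) (nat_lit 211) (nat_lit 212) = true := by decide +kernel
def p12_19_0_212 : pfC (piC [(nat_lit 37297016), (nat_lit 23751559), (nat_lit 15232604)] (nat_lit 20874739)) p12_19_0 (nat_lit 3) (nat_lit 212) (nat_lit 213) = true := by decide +kernel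
def p12_19_0_213 : pfC (piC [(nat_lit 37297016), (nat_lit 23751559), (nat_lit 15232604)] (nat_lit 20874739)) p12_19_0 (nat_lit 3) (nat_lit 213) (nat_lit 214) = true := by decide +kernel
def p12_19_0_214 : pfC (piC [(nat_lit 37297016), (nat_lit 23751559), (nat_lit 15232604)] (nat_lit 20874739)) p12_19_0 (nat_lit 3) (nat_lit 214) (nat_lit 215) = true := by decide +kernel
def p12_19_0_215 : pfC (piC [(nat_lit 37297016), (nat_lit 23751559), (nat_lit 15232604)] (nat_lit 20874739)) p12_19_0 (nat_lit 3) (nat_lit 215) (nat_lit 216) = true := by decide +kernel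
def p12_19_0_216 : pfC (piC [(nat_lit 37297016), (nat_lit 23751559), (nat_lit 15232604)] (nat_lit 20874739)) p12_19_0 (nat_lit 3) (nat_lit 216) (nat_lit 217) = true := by decide +kernel
def p12_19_0_217 : pfC (piC [(nat_lit 37297016), (nat_lit 23751559), (nat_lit 15232604)] (nat_lit 20874739)) p12_19_0 (nat_lit 3) (nat_lit 217) (nat_lit 218) = true := by decide +kernel
def p12_19_0_218 : pfC (piC [(nat_lit 37297016), (nat_lit 23751559), (nat_lit 15232604)] (nat_lit 20874739)) p12_19_0 (nat_lit 3) (nat_lit 218) (nat_lit 219) = true := by decide +kernel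
def p12_19_0_219 : pfC (piC [(nat_lit 37297016), (nat_lit 23751559), (nat_lit 15232604)] (nat_lit 20874739)) p12_19_0 (nat_lit 3) (nat_lit 219) (nat_lit 220) = true := by decide +kernel
def p12_19_0_220 : pfC (piC [(nat_lit 37297016), (nat_lit 23751559), (nat_lit 15232604)] (nat_lit 20874739)) p12_19_0 (nat_lit 3) (nat_lit 220) (nat_lit 221) = true := by decide +kernel
def p12_19_0_221 : pfC (piC [(nat_lit 37297016), (nat_lit 23751559), (nat_lit 15232604)] (nat_lit 20874739)) p12_19_0 (nat_lit 3) (nat_lit 221) (nat_lit 222) = true := by decide +kernel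
def p12_19_0_222 : pfC (piC [(nat_lit 37297016), (nat_lit 23751559), (nat_lit 15232604)] (nat_lit 20874739)) p12_19_0 (nat_lit 3) (nat_lit 222) (nat_lit 223) = true := by decide +kernel
def p12_19_0_223 : pfC (piC [(nat_lit 37297016), (nat_lit 23751559), (nat_lit 15232604)] (nat_lit 20874739)) p12_19_0 (nat_lit 3) (nat_lit 223) (nat_lit 224) = true := by decide +kernel
def p12_19_0_224 : pfC (piC [(nat_lit 37297016), (nat_lit 23751559), (nat_lit 15232604)] (nat_lit 20874739)) p12_19_0 (nat_lit 3) (nat_lit 224) (nat_lit 225) = true := by decide +kernel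
def p12_19_0_225 : pfC (piC [(nat_lit 37297016), (nat_lit 23751559), (nat_lit 15232604)] (nat_lit 20874739)) p12_19_0 (nat_lit 3) (nat_lit 225) (nat_lit 226) = true := by decide +kernel
def p12_19_0_226 : pfC (piC [(nat_lit 37297016), (nat_lit 23751559), (nat_lit 15232604)] (nat_lit 20874739)) p12_19_0 (nat_lit 3) (nat_lit 226) (nat_lit 227) = true := by decide +kernel
def p12_19_0_227 : pfC (piC [(nat_lit 37297016), (nat_lit 23751559), (nat_lit 15232604)] (nat_lit 20874739)) p12_19_0 (nat_lit 3) (nat_lit 227) (nat_lit 228) = true := by decide +kernel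
def p12_19_0_228 : pfC (piC [(nat_lit 37297016), (nat_lit 23751559), (nat_lit 15232604)] (nat_lit 20874739)) p12_19_0 (nat_lit 3) (nat_lit 228) (nat_lit 229) = true := by decide +kernel
def p12_19_0_229 : pfC (piC [(nat_lit 37297016), (nat_lit 23751559), (nat_lit 15232604)] (nat_lit 20874739)) p12_19_0 (nat_lit 3) (nat_lit 229) (nat_lit 230) = true := by decide +kernel
def p12_19_0_230 : pfC (piC [(nat_lit 37297016), (nat_lit 23751559), (nat_lit 15232604)] (nat_lit 20874739)) p12_19_0 (nat_lit 3) (nat_lit 230) (nat_lit 231) = true := by decide +kernel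
def p12_19_0_231 : pfC (piC [(nat_lit 37297016), (nat_lit 23751559), (nat_lit 15232604)] (nat_lit 20874739)) p12_19_0 (nat_lit 3) (nat_lit 231) (nat_lit 232) = true := by decide +kernel
def p12_19_0_232 : pfC (piC [(nat_lit 37297016), (nat_lit 23751559), (nat_lit 15232604)] (nat_lit 20874739)) p12_19_0 (nat_lit 3) (nat_lit 232) (nat_lit 233) = true := by decide +kernel
def p12_19_0_233 : pfC (piC [(nat_lit 37297016), (nat_lit 23751559), (nat_lit 15232604)] (nat_lit 20874739)) p12_19_0 (nat_lit 3) (nat_lit 233) (nat_lit 234) = true := by decide +kernel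
def p12_19_0_234 : pfC (piC [(nat_lit 37297016), (nat_lit 23751559), (nat_lit 15232604)] (nat_lit 20874739)) p12_19_0 (nat_lit 3) (nat_lit 234) (nat_lit 235) = true := by decide +kernel
def p12_19_0_235 : pfC (piC [(nat_lit 37297016), (nat_lit 23751559), (nat_lit 15232604)] (nat_lit 20874739)) p12_19_0 (nat_lit 3) (nat_lit 235) (nat_lit 236) = true := by decide +kernel
def p12_19_0_236 : pfC (piC [(nat_lit 37297016), (nat_lit 23751559), (nat_lit 15232604)] (nat_lit 20874739)) p12_19_0 (nat_lit 3) (nat_lit 236) (nat_lit 237) = true := by decide +kernel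
def p12_19_0_237 : pfC (piC [(nat_lit 37297016), (nat_lit 23751559), (nat_lit 15232604)] (nat_lit 20874739)) p12_19_0 (nat_lit 3) (nat_lit 237) (nat_lit 238) = true := by decide +kernel
def p12_19_0_238 : pfC (piC [(nat_lit 37297016), (nat_lit 23751559), (nat_lit 15232604)] (nat_lit 20874739)) p12_19_0 (nat_lit 3) (nat_lit 238) (nat_lit 239) = true := by decide +kernel
def p12_19_0_239 : pfC (piC [(nat_lit 37297016), (nat_lit 23751559), (nat_lit 15232604)] (nat_lit 20874739)) p12_19_0 (nat_lit 3) (nat_lit 239) (nat_lit 240) = true := by decide +kernel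
def p12_19_0_240 : pfC (piC [(nat_lit 37297016), (nat_lit 23751559), (nat_lit 15232604)] (nat_lit 20874739)) p12_19_0 (nat_lit 3) (nat_lit 240) (nat_lit 241) = true := by decide +kernel
def p12_19_0_241 : pfC (piC [(nat_lit 37297016), (nat_lit 23751559), (nat_lit 15232604)] (nat_lit 20874739)) p12_19_0 (nat_lit 3) (nat_lit 241) (nat_lit 242) = true := by decide +kernel
def p12_19_0_242 : pfC (piC [(nat_lit 37297016), (nat_lit 23751559), (nat_lit 15232604)] (nat_lit 20874739)) p12_19_0 (nat_lit 3) (nat_lit 242) (nat_lit 243) = true := by decide +kernel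
def p12_19_0_243 : pfC (piC [(nat_lit 37297016), (nat_lit 23751559), (nat_lit 15232604)] (nat_lit 20874739)) p12_19_0 (nat_lit 3) (nat_lit 243) (nat_lit 244) = true := by decide +kernel
def p12_19_0_244 : pfC (piC [(nat_lit 37297016), (nat_lit 23751559), (nat_lit 15232604)] (nat_lit 20874739)) p12_19_0 (nat_lit 3) (nat_lit 244) (nat_lit 245) = true := by decide +kernel
def p12_19_0_245 : pfC (piC [(nat_lit 37297016), (nat_lit 23751559), (nat_lit 15232604)] (nat_lit 20874739)) p12_19_0 (nat_lit 3) (nat_lit 245) (nat_lit 246) = true := by decide +kernel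
def p12_19_0_246 : pfC (piC [(nat_lit 37297016), (nat_lit 23751559), (nat_lit 15232604)] (nat_lit 20874739)) p12_19_0 (nat_lit 3) (nat_lit 246) (nat_lit 247) = true := by decide +kernel
def p12_19_0_247 : pfC (piC [(nat_lit 37297016), (nat_lit 23751559), (nat_lit 15232604)] (nat_lit 20874739)) p12_19_0 (nat_lit 3) (nat_lit 247) (nat_lit 248) = true := by decide +kernel
def p12_19_0_248 : pfC (piC [(nat_lit 37297016), (nat_lit 23751559), (nat_lit 15232604)] (nat_lit 20874739)) p12_19_0 (nat_lit 3) (nat_lit 248) (nat_lit 249) = true := by decide +kernel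
def p12_19_0_249 : pfC (piC [(nat_lit 37297016), (nat_lit 23751559), (nat_lit 15232604)] (nat_lit 20874739)) p12_19_0 (nat_lit 3) (nat_lit 249) (nat_lit 250) = true := by decide +kernel
def p12_19_0_250 : pfC (piC [(nat_lit 37297016), (nat_lit 23751559), (nat_lit 15232604)] (nat_lit 20874739)) p12_19_0 (nat_lit 3) (nat_lit 250) (nat_lit 251) = true := by decide +kernel
def p12_19_0_251 : pfC (piC [(nat_lit 37297016), (nat_lit 23751559), (nat_lit 15232604)] (nat_lit 20874739)) p12_19_0 (nat_lit 3) (nat_lit 251) (nat_lit 252) = true := by decide +kernel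
def p12_19_0_252 : pfC (piC [(nat_lit 37297016), (nat_lit 23751559), (nat_lit 15232604)] (nat_lit 20874739)) p12_19_0 (nat_lit 3) (nat_lit 252) (nat_lit 253) = true := by decide +kernel
def p12_19_0_253 : pfC (piC [(nat_lit 37297016), (nat_lit 23751559), (nat_lit 15232604)] (nat_lit 20874739)) p12_19_0 (nat_lit 3) (nat_lit 253) (nat_lit 254) = true := by decide +kernel
def p12_19_0_254 : pfC (piC [(nat_lit 37297016), (nat_lit 23751559), (nat_lit 15232604)] (nat_lit 20874739)) p12_19_0 (nat_lit 3) (nat_lit 254) (nat_lit 255) = true := by decide +kernel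
def p12_19_0_255 : pfC (piC [(nat_lit 37297016), (nat_lit 23751559), (nat_lit 15232604)] (nat_lit 20874739)) p12_19_0 (nat_lit 3) (nat_lit 255) (nat_lit 256) = true := by decide +kernel
def p12_19_0_256 : pfC (piC [(nat_lit 37297016), (nat_lit 23751559), (nat_lit 15232604)] (nat_lit 20874739)) p12_19_0 (nat_lit 3) (nat_lit 256) (nat_lit 257) = true := by decide +kernel
def p12_19_0_257 : pfC (piC [(nat_lit 37297016), (nat_lit 23751559), (nat_lit 15232604)] (nat_lit 20874739)) p12_19_0 (nat_lit 3) (nat_lit 257) (nat_lit 258) = true := by decide +kernel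
def p12_19_0_258 : pfC (piC [(nat_lit 37297016), (nat_lit 23751559), (nat_lit 15232604)] (nat_lit 20874739)) p12_19_0 (nat_lit 3) (nat_lit 258) (nat_lit 259) = true := by decide +kernel
def p12_19_0_259 : pfC (piC [(nat_lit 37297016), (nat_lit 23751559), (nat_lit 15232604)] (nat_lit 20874739)) p12_19_0 (nat_lit 3) (nat_lit 259) (nat_lit 260) = true := by decide +kernel
def p12_19_0_260 : pfC (piC [(nat_lit 37297016), (nat_lit 23751559), (nat_lit 15232604)] (nat_lit 20874739)) p12_19_0 (nat_lit 3) (nat_lit 260) (nat_lit 261) = true := by decide +kernel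
def p12_19_0_261 : pfC (piC [(nat_lit 37297016), (nat_lit 23751559), (nat_lit 15232604)] (nat_lit 20874739)) p12_19_0 (nat_lit 3) (nat_lit 261) (nat_lit 262) = true := by decide +kernel
def p12_19_0_262 : pfC (piC [(nat_lit 37297016), (nat_lit 23751559), (nat_lit 15232604)] (nat_lit 20874739)) p12_19_0 (nat_lit 3) (nat_lit 262) (nat_lit 263) = true := by decide +kernel
def p12_19_0_263 : pfC (piC [(nat_lit 37297016), (nat_lit 23751559), (nat_lit 15232604)] (nat_lit 20874739)) p12_19_0 (nat_lit 3) (nat_lit 263) (nat_lit 264) = true := by decide +kernel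
def p12_19_0_264 : pfC (piC [(nat_lit 37297016), (nat_lit 23751559), (nat_lit 15232604)] (nat_lit 20874739)) p12_19_0 (nat_lit 3) (nat_lit 264) (nat_lit 265) = true := by decide +kernel
def p12_19_0_265 : pfC (piC [(nat_lit 37297016), (nat_lit 23751559), (nat_lit 15232604)] (nat_lit 20874739)) p12_19_0 (nat_lit 3) (nat_lit 265) (nat_lit 266) = true := by decide +kernel
def p12_19_0_266 : pfC (piC [(nat_lit 37297016), (nat_lit 23751559), (nat_lit 15232604)] (nat_lit 20874739)) p12_19_0 (nat_lit 3) (nat_lit 266) (nat_lit 267) = true := by decide +kernel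
def p12_19_0_267 : pfC (piC [(nat_lit 37297016), (nat_lit 23751559), (nat_lit 15232604)] (nat_lit 20874739)) p12_19_0 (nat_lit 3) (nat_lit 267) (nat_lit 268) = true := by decide +kernel
def p12_19_0_268 : pfC (piC [(nat_lit 37297016), (nat_lit 23751559), (nat_lit 15232604)] (nat_lit 20874739)) p12_19_0 (nat_lit 3) (nat_lit 268) (nat_lit 269) = true := by decide +kernel
def p12_19_0_269 : pfC (piC [(nat_lit 37297016), (nat_lit 23751559), (nat_lit 15232604)] (nat_lit 20874739)) p12_19_0 (nat_lit 3) (nat_lit 269) (nat_lit 270) = true := by decide +kernel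
def p12_19_0_270 : pfC (piC [(nat_lit 37297016), (nat_lit 23751559), (nat_lit 15232604)] (nat_lit 20874739)) p12_19_0 (nat_lit 3) (nat_lit 270) (nat_lit 271) = true := by decide +kernel
def p12_19_0_271 : pfC (piC [(nat_lit 37297016), (nat_lit 23751559), (nat_lit 15232604)] (nat_lit 20874739)) p12_19_0 (nat_lit 3) (nat_lit 271) (nat_lit 272) = true := by decide +kernel
def p12_19_0_272 : pfC (piC [(nat_lit 37297016), (nat_lit 23751559), (nat_lit 15232604)] (nat_lit 20874739)) p12_19_0 (nat_lit 3) (nat_lit 272) (nat_lit 273) = true := by decide +kernel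
def p12_19_0_273 : pfC (piC [(nat_lit 37297016), (nat_lit 23751559), (nat_lit 15232604)] (nat_lit 20874739)) p12_19_0 (nat_lit 3) (nat_lit 273) (nat_lit 274) = true := by decide +kernel
def p12_19_0_274 : pfC (piC [(nat_lit 37297016), (nat_lit 23751559), (nat_lit 15232604)] (nat_lit 20874739)) p12_19_0 (nat_lit 3) (nat_lit 274) (nat_lit 275) = true := by decide +kernel
def p12_19_0_275 : pfC (piC [(nat_lit 37297016), (nat_lit 23751559), (nat_lit 15232604)] (nat_lit 20874739)) p12_19_0 (nat_lit 3) (nat_lit 275) (nat_lit 276) = true := by decide +kernel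
def p12_19_0_276 : pfC (piC [(nat_lit 37297016), (nat_lit 23751559), (nat_lit 15232604)] (nat_lit 20874739)) p12_19_0 (nat_lit 3) (nat_lit 276) (nat_lit 277) = true := by decide +kernel
theorem p12_19_0_T : PfS (PiF n12_19.reverse (nat_lit 20874739)) p12_19_0 (nat_lit 3) [] 0 :=
  pftab_of (los := [(nat_lit 37297016), (nat_lit 23751559), (nat_lit 15232604)]) (by decide +kernel) (hi := (nat_lit 277)) (PfP.trans (PfP.trans (PfP.trans (PfP.trans (PfP.trans (PfP.trans (PfP.trans (PfP.trans (PfP.trans (PfP.trans (PfP.trans (PfP.trans (PfP.trans (PfP.trans (PfP.trans (PfP.trans (PfP.trans (PfP.trans (PfP.trans (PfP.trans (PfP.trans (PfP.trans (PfP.trans (PfP.trans (PfP.trans (PfP.trans (PfP.trans (PfP.trans (PfP.trans (PfP.trans (PfP.trans (PfP.trans (PfP.trans (PfP.trans (PfP.trans (PfP.trans (PfP.trans (PfP.trans (PfP.trans (PfP.trans (PfP.trans (PfP.trans (PfP.trans (PfP.trans (PfP.trans (PfP.trans (PfP.trans (PfP.trans (PfP.trans (PfP.trans (PfP.trans (PfP.trans (PfP.trans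 (PfP.trans (PfP.trans (PfP.trans (PfP.trans (PfP.trans (PfP.trans (PfP.trans (PfP.trans (PfP.trans (PfP.trans (PfP.trans (PfP.trans (PfP.trans (PfP.trans (PfP.trans (PfP.trans (PfP.trans (PfP.trans (PfP.trans (PfP.trans (PfP.trans (PfP.trans (PfP.trans (PfP.trans (PfP.trans (PfP.trans (PfP.trans (PfP.trans (PfP.trans (PfP.trans (PfP.trans (PfP.trans (PfP.trans (PfP.trans (PfP.trans (PfP.trans (PfP.trans (PfP.trans (PfP.trans (PfP.trans (PfP.trans (PfP.trans (PfP.trans (PfP.trans (PfP.trans (PfP.trans (PfP.trans (PfP.trans (PfP.trans (PfP.trans (PfP.trans (PfP.trans (PfP.trans (PfP.trans (PfP.trans (PfP.trans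
 (PfP.trans (PfP.trans (PfP.trans (PfP.trans (PfP.trans (PfP.trans (PfP.trans (PfP.trans (PfP.trans (PfP.trans (PfP.trans (PfP.trans (PfP.trans (PfP.trans (PfP.trans (PfP.trans (PfP.trans (PfP.trans (PfP.trans (PfP.trans (PfP.trans (PfP.trans (PfP.trans (PfP.trans (PfP.trans (PfP.trans (PfP.trans (PfP.trans (PfP.trans (PfP.trans (PfP.trans (PfP.trans (PfP.trans (PfP.trans (PfP.trans (PfP.trans (PfP.trans (PfP.trans (PfP.trans (PfP.trans (PfP.trans (PfP.trans (PfP.trans (PfP.trans (PfP.trans (PfP.trans (PfP.trans (PfP.trans (PfP.trans (PfP.trans (PfP.trans (PfP.trans (PfP.trans (PfP.trans (PfP.trans (PfP.trans (PfP.trans (PfP.trans (PfP.trans (PfP.trans (PfP.trans (PfP.trans (PfP.trans (PfP.trans (PfP.trans (PfP.trans (PfP.trans (PfP.trans (PfP.trans (PfP.trans (PfP.trans (PfP.trans (PfP.trans (PfP.trans (PfP.trans (PfP.trans (PfP.trans (PfP.trans (PfP.trans (PfP.trans (PfP.trans (PfP.trans (PfP.trans (PfP.trans (PfP.trans (PfP.trans (PfP.trans (PfP.trans (PfP.trans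 (PfP.trans (PfP.trans (PfP.trans (PfP.trans (PfP.trans (PfP.trans (PfP.trans (PfP.trans (PfP.trans (PfP.trans (PfP.trans (PfP.trans (PfP.trans (PfP.trans (PfP.trans (PfP.trans (PfP.trans (PfP.trans (PfP.trans (PfP.trans
 (PfP.trans (PfP.trans (PfP.trans (PfP.trans (PfP.trans (PfP.trans (PfP.trans (PfP.trans (PfP.trans (PfP.trans (PfP.trans (PfP.trans (PfP.trans (PfP.trans (PfP.trans (PfP.trans (PfP.trans (PfP.trans (PfP.trans (PfP.trans (PfP.trans (PfP.trans (PfP.trans (PfP.trans (PfP.trans (PfP.trans (PfP.trans (PfP.trans (PfP.trans (PfP.trans (PfP.trans (PfP.trans (PfP.trans (PfP.trans (PfP.trans (PfP.trans (PfP.trans (PfP.trans (PfP.trans (PfP.trans (PfP.trans (PfP.trans (PfP.trans (PfP.trans (PfP.trans (PfP.trans (PfP.trans (PfP.trans (PfP.trans (PfP.trans (PfP.trans (PfP.trans (PfP.trans (PfP.trans (PfP.trans (PfP.trans (PfP.trans (PfP.trans (pfC_sound p12_19_0_0) (pfC_sound p12_19_0_1)) (pfC_sound p12_19_0_2)) (pfC_sound p12_19_0_3)) (pfC_sound p12_19_0_4)) (pfC_sound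 p12_19_0_5)) (pfC_sound p12_19_0_6)) (pfC_sound p12_19_0_7)) (pfC_sound p12_19_0_8)) (pfC_sound p12_19_0_9)) (pfC_sound p12_19_0_10)) (pfC_sound p12_19_0_11)) (pfC_sound p12_19_0_12)) (pfC_sound p12_19_0_13)) (pfC_sound p12_19_0_14)) (pfC_sound p12_19_0_15)) (pfC_sound p12_19_0_16)) (pfC_sound p12_19_0_17)) (pfC_sound p12_19_0_18)) (pfC_sound p12_19_0_19)) (pfC_sound p12_19_0_20)) (pfC_sound p12_19_0_21)) (pfC_sound
 p12_19_0_22)) (pfC_sound p12_19_0_23)) (pfC_sound p12_19_0_24)) (pfC_sound p12_19_0_25)) (pfC_sound p12_19_0_26)) (pfC_sound p12_19_0_27)) (pfC_sound p12_19_0_28)) (pfC_sound p12_19_0_29)) (pfC_sound p12_19_0_30)) (pfC_sound p12_19_0_31)) (pfC_sound p12_19_0_32)) (pfC_sound p12_19_0_33)) (pfC_sound p12_19_0_34)) (pfC_sound p12_19_0_35)) (pfC_sound p12_19_0_36)) (pfC_sound p12_19_0_37)) (pfC_sound p12_19_0_38)) (pfC_sound p12_19_0_39)) (pfC_sound p12_19_0_40)) (pfC_sound p12_19_0_41)) (pfC_sound p12_19_0_42)) (pfC_sound p12_19_0_43)) (pfC_sound p12_19_0_44))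 (pfC_sound p12_19_0_45)) (pfC_sound p12_19_0_46)) (pfC_sound p12_19_0_47)) (pfC_sound p12_19_0_48)) (pfC_sound p12_19_0_49)) (pfC_sound p12_19_0_50)) (pfC_sound p12_19_0_51)) (pfC_sound p12_19_0_52)) (pfC_sound p12_19_0_53)) (pfC_sound p12_19_0_54)) (pfC_sound p12_19_0_55)) (pfC_sound p12_19_0_56)) (pfC_sound p12_19_0_57)) (pfC_sound p12_19_0_58)) (pfC_sound p12_19_0_59)) (pfC_sound p12_19_0_60)) (pfC_sound p12_19_0_61)) (pfC_sound p12_19_0_62)) (pfC_sound p12_19_0_63)) (pfC_sound p12_19_0_64)) (pfC_sound p12_19_0_65)) (pfC_sound p12_19_0_66)) (pfC_sound p12_19_0_67)) (pfC_sound p12_19_0_68)) (pfC_sound p12_19_0_69)) (pfC_sound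
 p12_19_0_70)) (pfC_sound p12_19_0_71)) (pfC_sound p12_19_0_72)) (pfC_sound p12_19_0_73)) (pfC_sound p12_19_0_74)) (pfC_sound p12_19_0_75)) (pfC_sound p12_19_0_76)) (pfC_sound p12_19_0_77)) (pfC_sound p12_19_0_78)) (pfC_sound p12_19_0_79)) (pfC_sound p12_19_0_80)) (pfC_sound p12_19_0_81)) (pfC_sound p12_19_0_82)) (pfC_sound p12_19_0_83)) (pfC_sound p12_19_0_84)) (pfC_sound p12_19_0_85)) (pfC_sound p12_19_0_86)) (pfC_sound p12_19_0_87)) (pfC_sound p12_19_0_88)) (pfC_sound p12_19_0_89)) (pfC_sound p12_19_0_90)) (pfC_sound p12_19_0_91)) (pfC_sound p12_19_0_92)) (pfC_sound p12_19_0_93)) (pfC_sound p12_19_0_94)) (pfC_sound p12_19_0_95)) (pfC_sound p12_19_0_96)) (pfC_sound p12_19_0_97)) (pfC_sound p12_19_0_98)) (pfC_sound p12_19_0_99)) (pfC_sound p12_19_0_100)) (pfC_sound p12_19_0_101)) (pfC_sound p12_19_0_102)) (pfC_sound p12_19_0_103)) (pfC_sound p12_19_0_104)) (pfC_sound p12_19_0_105)) (pfC_sound p12_19_0_106)) (pfC_sound p12_19_0_107)) (pfC_sound p12_19_0_108)) (pfC_sound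 p12_19_0_109)) (pfC_sound p12_19_0_110)) (pfC_sound p12_19_0_111)) (pfC_sound p12_19_0_112)) (pfC_sound p12_19_0_113)) (pfC_sound p12_19_0_114)) (pfC_sound p12_19_0_115)) (pfC_sound p12_19_0_116)) (pfC_sound
 p12_19_0_117)) (pfC_sound p12_19_0_118)) (pfC_sound p12_19_0_119)) (pfC_sound p12_19_0_120)) (pfC_sound p12_19_0_121)) (pfC_sound p12_19_0_122)) (pfC_sound p12_19_0_123)) (pfC_sound p12_19_0_124)) (pfC_sound p12_19_0_125)) (pfC_sound p12_19_0_126)) (pfC_sound p12_19_0_127)) (pfC_sound p12_19_0_128)) (pfC_sound p12_19_0_129)) (pfC_sound p12_19_0_130)) (pfC_sound p12_19_0_131)) (pfC_sound p12_19_0_132)) (pfC_sound p12_19_0_133)) (pfC_sound p12_19_0_134)) (pfC_sound p12_19_0_135)) (pfC_sound p12_19_0_136)) (pfC_sound p12_19_0_137)) (pfC_sound p12_19_0_138)) (pfC_sound p12_19_0_139)) (pfC_sound p12_19_0_140)) (pfC_sound p12_19_0_141)) (pfC_sound p12_19_0_142)) (pfC_sound p12_19_0_143)) (pfC_sound p12_19_0_144)) (pfC_sound p12_19_0_145)) (pfC_sound p12_19_0_146)) (pfC_sound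 p12_19_0_147)) (pfC_sound p12_19_0_148)) (pfC_sound p12_19_0_149)) (pfC_sound p12_19_0_150)) (pfC_sound p12_19_0_151)) (pfC_sound p12_19_0_152)) (pfC_sound p12_19_0_153)) (pfC_sound p12_19_0_154)) (pfC_sound p12_19_0_155)) (pfC_sound p12_19_0_156)) (pfC_sound p12_19_0_157)) (pfC_sound p12_19_0_158)) (pfC_sound p12_19_0_159)) (pfC_sound p12_19_0_160)) (pfC_sound p12_19_0_161)) (pfC_sound p12_19_0_162)) (pfC_sound
 p12_19_0_163)) (pfC_sound p12_19_0_164)) (pfC_sound p12_19_0_165)) (pfC_sound p12_19_0_166)) (pfC_sound p12_19_0_167)) (pfC_sound p12_19_0_168)) (pfC_sound p12_19_0_169)) (pfC_sound p12_19_0_170)) (pfC_sound p12_19_0_171)) (pfC_sound p12_19_0_172)) (pfC_sound p12_19_0_173)) (pfC_sound p12_19_0_174)) (pfC_sound p12_19_0_175)) (pfC_sound p12_19_0_176)) (pfC_sound p12_19_0_177)) (pfC_sound p12_19_0_178)) (pfC_sound p12_19_0_179)) (pfC_sound p12_19_0_180)) (pfC_sound p12_19_0_181)) (pfC_sound p12_19_0_182)) (pfC_sound p12_19_0_183)) (pfC_sound p12_19_0_184)) (pfC_sound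 p12_19_0_185)) (pfC_sound p12_19_0_186)) (pfC_sound p12_19_0_187)) (pfC_sound p12_19_0_188)) (pfC_sound p12_19_0_189)) (pfC_sound p12_19_0_190)) (pfC_sound p12_19_0_191)) (pfC_sound p12_19_0_192)) (pfC_sound p12_19_0_193)) (pfC_sound p12_19_0_194)) (pfC_sound p12_19_0_195)) (pfC_sound p12_19_0_196)) (pfC_sound p12_19_0_197)) (pfC_sound p12_19_0_198)) (pfC_sound p12_19_0_199)) (pfC_sound p12_19_0_200)) (pfC_sound p12_19_0_201)) (pfC_sound p12_19_0_202)) (pfC_sound p12_19_0_203)) (pfC_sound p12_19_0_204)) (pfC_sound p12_19_0_205)) (pfC_sound p12_19_0_206)) (pfC_sound p12_19_0_207)) (pfC_sound p12_19_0_208)) (pfC_sound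
 p12_19_0_209)) (pfC_sound p12_19_0_210)) (pfC_sound p12_19_0_211)) (pfC_sound p12_19_0_212)) (pfC_sound p12_19_0_213)) (pfC_sound p12_19_0_214)) (pfC_sound p12_19_0_215)) (pfC_sound p12_19_0_216)) (pfC_sound p12_19_0_217)) (pfC_sound p12_19_0_218)) (pfC_sound p12_19_0_219)) (pfC_sound p12_19_0_220)) (pfC_sound p12_19_0_221)) (pfC_sound p12_19_0_222)) (pfC_sound p12_19_0_223)) (pfC_sound p12_19_0_224)) (pfC_sound p12_19_0_225)) (pfC_sound p12_19_0_226)) (pfC_sound p12_19_0_227)) (pfC_sound p12_19_0_228)) (pfC_sound p12_19_0_229)) (pfC_sound p12_19_0_230)) (pfC_sound p12_19_0_231)) (pfC_sound p12_19_0_232)) (pfC_sound p12_19_0_233)) (pfC_sound p12_19_0_234)) (pfC_sound p12_19_0_235)) (pfC_sound p12_19_0_236)) (pfC_sound p12_19_0_237)) (pfC_sound p12_19_0_238)) (pfC_sound p12_19_0_239)) (pfC_sound p12_19_0_240)) (pfC_sound p12_19_0_241)) (pfC_sound p12_19_0_242)) (pfC_sound p12_19_0_243)) (pfC_sound p12_19_0_244)) (pfC_sound p12_19_0_245)) (pfC_sound p12_19_0_246)) (pfC_sound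 p12_19_0_247)) (pfC_sound p12_19_0_248)) (pfC_sound p12_19_0_249)) (pfC_sound p12_19_0_250)) (pfC_sound p12_19_0_251)) (pfC_sound p12_19_0_252)) (pfC_sound p12_19_0_253)) (pfC_sound p12_19_0_254)) (pfC_sound
 p12_19_0_255)) (pfC_sound p12_19_0_256)) (pfC_sound p12_19_0_257)) (pfC_sound p12_19_0_258)) (pfC_sound p12_19_0_259)) (pfC_sound p12_19_0_260)) (pfC_sound p12_19_0_261)) (pfC_sound p12_19_0_262)) (pfC_sound p12_19_0_263)) (pfC_sound p12_19_0_264)) (pfC_sound p12_19_0_265)) (pfC_sound p12_19_0_266)) (pfC_sound p12_19_0_267)) (pfC_sound p12_19_0_268)) (pfC_sound p12_19_0_269)) (pfC_sound p12_19_0_270)) (pfC_sound p12_19_0_271)) (pfC_sound p12_19_0_272)) (pfC_sound p12_19_0_273)) (pfC_sound p12_19_0_274)) (pfC_sound p12_19_0_275)) (pfC_sound p12_19_0_276)) (by decide +kernel)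

def z12_19_0 : zOK yB12_19 (nat_lit 0) (nat_lit 0) (nat_lit 400) (nat_lit 20874739) (nat_lit 11744142) = true := by decide +kernel
def g12_19_0 : gOK yB12_19.x P12_19 (nat_lit 1377) (q12_19 :: r12_19) (nat_lit 0) (nat_lit 0) (nat_lit 1) (nat_lit 400) (nat_lit 0) (nat_lit 11000000) (nat_lit 12712500) (nat_lit 12712500) [(nat_lit 800), (nat_lit 1600)] = true := by decide +kernel
def v12_19_0 : ivC P12_19 s12_19 w12_19 n12_19 (nat_lit 3) (nat_lit 5280) (nat_lit 0) (nat_lit 0) f184_0_0 f192_0_0 (nat_lit 1) (nat_lit 400) f184_0_400 f192_0_400 (nat_lit 20874739) (nat_lit 11744142) p12_19_0 = true := by decide +kernel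
def p12_19_1 : PF := (PF.cons (PF.cons (PF.cons (PF.leaf (nat_lit 1910474) (nat_lit 8573441) (nat_lit 58535371) (nat_lit 8573441) [(nat_lit 0), (nat_lit 0), (nat_lit 0)]) (PF.cons (PF.leaf (nat_lit 2115828) (nat_lit 361495) (nat_lit 58133132) (nat_lit 8614184) [(nat_lit 361495), (nat_lit 0), (nat_lit 0)]) (PF.cons (PF.leaf (nat_lit 2358413) (nat_lit 393948) (nat_lit 57663022) (nat_lit 8657892) [(nat_lit 393948), (nat_lit 0), (nat_lit 0)]) (PF.cons (PF.leaf (nat_lit 2631273) (nat_lit 422915) (nat_lit 57138013) (nat_lit 8702054) [(nat_lit 422915), (nat_lit 0), (nat_lit 0)]) (PF.cons (PF.leaf (nat_lit 2930069) (nat_lit 449126) (nat_lit 56567470) (nat_lit 8744837) [(nat_lit 449126), (nat_lit 0), (nat_lit 0)]) (PF.cons (PF.leaf (nat_lit 3251380) (nat_lit 473035) (nat_lit 55958763) (nat_lit 8784873) [(nat_lit 473035), (nat_lit 0), (nat_lit 0)]) (PF.cons (PF.leaf (nat_lit 3592332) (nat_lit 494944) (nat_lit 55318006) (nat_lit 8821139) [(nat_lit 494944), (nat_lit 0), (nat_lit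 0)]) (PF.cons (PF.leaf (nat_lit 3950405) (nat_lit 515068) (nat_lit 54650443) (nat_lit 8852889) [(nat_lit 515068), (nat_lit 0), (nat_lit 0)]) (PF.cons (PF.leaf (nat_lit 4323417) (nat_lit 533568) (nat_lit 53960673) (nat_lit 8879594)
 [(nat_lit 533568), (nat_lit 0), (nat_lit 0)]) (PF.cons (PF.leaf (nat_lit 4709322) (nat_lit 550570) (nat_lit 53252777) (nat_lit 8900904) [(nat_lit 550570), (nat_lit 0), (nat_lit 0)]) (PF.cons (PF.leaf (nat_lit 5106278) (nat_lit 566178) (nat_lit 52530412) (nat_lit 8916615) [(nat_lit 566178), (nat_lit 0), (nat_lit 0)]) (PF.cons (PF.leaf (nat_lit 5512604) (nat_lit 580482) (nat_lit 51796866) (nat_lit 8926640) [(nat_lit 580482), (nat_lit 0), (nat_lit 0)]) (PF.cons (PF.leaf (nat_lit 5926761) (nat_lit 593560) (nat_lit 51055100) (nat_lit 8930988) [(nat_lit 593560), (nat_lit 0), (nat_lit 0)]) (PF.cons (PF.leaf (nat_lit 6347261) (nat_lit 605483) (nat_lit 50307782) (nat_lit 8929743) [(nat_lit 605483), (nat_lit 0), (nat_lit 0)]) (PF.cons (PF.leaf (nat_lit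 6772864) (nat_lit 616318) (nat_lit 49557312) (nat_lit 8923048) [(nat_lit 616318), (nat_lit 0), (nat_lit 0)]) (PF.cons PF.nil (PF.cons PF.nil (PF.cons PF.nil PF.nil)))))))))))))))))) (PF.cons (PF.cons (PF.leaf (nat_lit 2683470) (nat_lit 1928787) (nat_lit 56443069) (nat_lit 8736955) [(nat_lit 0), (nat_lit 1928787), (nat_lit 0)]) (PF.cons (PF.leaf (nat_lit 2951306) (nat_lit 443198) (nat_lit 55921146) (nat_lit 8770876) [(nat_lit 443198), (nat_lit
 1973590), (nat_lit 0)]) (PF.cons (PF.leaf (nat_lit 3246800) (nat_lit 467972) (nat_lit 55352087) (nat_lit 8803337) [(nat_lit 467972), (nat_lit 2017443), (nat_lit 0)]) (PF.cons (PF.leaf (nat_lit 3565111) (nat_lit 490402) (nat_lit 54745082) (nat_lit 8833034) [(nat_lit 490402), (nat_lit 2059488), (nat_lit 0)]) (PF.cons (PF.leaf (nat_lit 3902940) (nat_lit 510845) (nat_lit 54107147) (nat_lit 8859046) [(nat_lit 510845), (nat_lit 2099237), (nat_lit 0)]) (PF.cons (PF.leaf (nat_lit 4257515) (nat_lit 529540) (nat_lit 53443970) (nat_lit 8880724)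 [(nat_lit 529540), (nat_lit 2136417), (nat_lit 0)]) (PF.cons (PF.leaf (nat_lit 4626493) (nat_lit 546659) (nat_lit 52760343) (nat_lit 8897628) [(nat_lit 546659), (nat_lit 2170883), (nat_lit 0)]) (PF.cons (PF.leaf (nat_lit 5007814) (nat_lit 562337) (nat_lit 52060397) (nat_lit 8909482) [(nat_lit 562337), (nat_lit 2202572), (nat_lit 0)]) (PF.cons (PF.leaf (nat_lit 5399613) (nat_lit 576680) (nat_lit 51347753) (nat_lit 8916139) [(nat_lit 576680), (nat_lit 2231479), (nat_lit 0)]) (PF.cons (PF.leaf (nat_lit 5800189) (nat_lit 589778) (nat_lit 50625609) (nat_lit 8917555) [(nat_lit 589778), (nat_lit 2257637), (nat_lit 0)]) (PF.cons (PF.leaf (nat_lit 6208094)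
 (nat_lit 601713) (nat_lit 49896803) (nat_lit 8913770) [(nat_lit 601713), (nat_lit 2281106), (nat_lit 0)]) (PF.cons (PF.leaf (nat_lit 6621856) (nat_lit 612553) (nat_lit 49163866) (nat_lit 8904886) [(nat_lit 612553), (nat_lit 2301967), (nat_lit 0)]) (PF.cons (PF.leaf (nat_lit 7040246) (nat_lit 622366) (nat_lit 48429048) (nat_lit 8891057) [(nat_lit 622366), (nat_lit 2320312), (nat_lit 0)]) (PF.cons PF.nil (PF.cons PF.nil (PF.cons PF.nil PF.nil)))))))))))))))) (PF.cons (PF.cons (PF.leaf (nat_lit 3564143) (nat_lit 2072883) (nat_lit 54119632) (nat_lit 8843413) [(nat_lit 0), (nat_lit 2072883), (nat_lit 0)]) (PF.cons (PF.leaf (nat_lit 3876222) (nat_lit 504739) (nat_lit 53522884) (nat_lit 8863551) [(nat_lit 504739), (nat_lit 2108818), (nat_lit 0)]) (PF.cons (PF.leaf (nat_lit 4208785) (nat_lit 524054) (nat_lit 52894572) (nat_lit 8880188) [(nat_lit 524054), (nat_lit 2142971), (nat_lit 0)]) (PF.cons (PF.leaf (nat_lit 4558236) (nat_lit 541587) (nat_lit 52241357) (nat_lit 8892737)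 [(nat_lit 541587), (nat_lit 2174977), (nat_lit 0)]) (PF.cons (PF.leaf (nat_lit 4921930) (nat_lit 557549) (nat_lit 51568529) (nat_lit 8900818) [(nat_lit 557549), (nat_lit 2204633), (nat_lit 0)]) (PF.cons (PF.leaf
 (nat_lit 5297663) (nat_lit 572092) (nat_lit 50880459) (nat_lit 8904206) [(nat_lit 572092), (nat_lit 2231842), (nat_lit 0)]) (PF.cons (PF.leaf (nat_lit 5683527) (nat_lit 585336) (nat_lit 50180856) (nat_lit 8902796) [(nat_lit 585336), (nat_lit 2256568), (nat_lit 0)]) (PF.cons (PF.leaf (nat_lit 6077793) (nat_lit 597380) (nat_lit 49472921) (nat_lit 8896577) [(nat_lit 597380), (nat_lit 2278826), (nat_lit 0)]) (PF.cons (PF.leaf (nat_lit 6478981) (nat_lit 608305) (nat_lit 48759441) (nat_lit 8885608) [(nat_lit 608305), (nat_lit 2298658), (nat_lit 0)]) (PF.cons (PF.leaf (nat_lit 6885698) (nat_lit 618187) (nat_lit 48042862) (nat_lit 8870004) [(nat_lit 618187), (nat_lit 2316129), (nat_lit 0)]) (PF.cons (PF.leaf (nat_lit 7296712) (nat_lit 627091) (nat_lit 47325332) (nat_lit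 8849923) [(nat_lit 627091), (nat_lit 2331320), (nat_lit 0)]) (PF.cons PF.nil (PF.cons PF.nil (PF.cons PF.nil PF.nil)))))))))))))) (PF.cons (PF.cons (PF.leaf (nat_lit 4511395) (nat_lit 2179611) (nat_lit 51683975) (nat_lit 8886004) [(nat_lit 0), (nat_lit 2179611), (nat_lit 0)]) (PF.cons (PF.leaf (nat_lit 4853542) (nat_lit 551398) (nat_lit 51046132) (nat_lit 8890397) [(nat_lit 551398), (nat_lit 2206961), (nat_lit 0)])
 (PF.cons (PF.leaf (nat_lit 5210573) (nat_lit 566418) (nat_lit 50388445) (nat_lit 8890631) [(nat_lit 566418), (nat_lit 2232299), (nat_lit 0)]) (PF.cons (PF.leaf (nat_lit 5579682) (nat_lit 580008) (nat_lit 49715803) (nat_lit 8886520) [(nat_lit 580008), (nat_lit 2255488), (nat_lit 0)]) (PF.cons (PF.leaf (nat_lit 5958813) (nat_lit 592311) (nat_lit 49032174) (nat_lit 8877992) [(nat_lit 592311), (nat_lit 2276466), (nat_lit 0)]) (PF.cons (PF.leaf (nat_lit 6346171) (nat_lit 603438) (nat_lit 48340876) (nat_lit 8865058) [(nat_lit 603438), (nat_lit 2295228), (nat_lit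 0)]) (PF.cons (PF.leaf (nat_lit 6740206) (nat_lit 613481) (nat_lit 47644727) (nat_lit 8847793) [(nat_lit 613481), (nat_lit 2311800), (nat_lit 0)]) (PF.cons (PF.leaf (nat_lit 7139554) (nat_lit 622519) (nat_lit 46946147) (nat_lit 8826320) [(nat_lit 622519), (nat_lit 2326237), (nat_lit 0)]) (PF.cons (PF.leaf (nat_lit 7542994) (nat_lit 630620) (nat_lit 46247232) (nat_lit 8800798) [(nat_lit 630620), (nat_lit 2338605), (nat_lit 0)]) (PF.cons PF.nil (PF.cons PF.nil (PF.cons PF.nil PF.nil)))))))))))) (PF.cons (PF.cons (PF.leaf (nat_lit 5493709) (nat_lit 2254544) (nat_lit 49222229) (nat_lit 8868405) [(nat_lit 0), (nat_lit 2254544),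
 (nat_lit 0)]) (PF.cons (PF.leaf (nat_lit 5854768) (nat_lit 586220) (nat_lit 48568387) (nat_lit 8857736) [(nat_lit 586220), (nat_lit 2274117), (nat_lit 0)]) (PF.cons (PF.leaf (nat_lit 6226302) (nat_lit 597737) (nat_lit 47903419) (nat_lit 8842996) [(nat_lit 597737), (nat_lit 2291730), (nat_lit 0)]) (PF.cons (PF.leaf (nat_lit 6606129) (nat_lit 608083) (nat_lit 47230914) (nat_lit 8824215) [(nat_lit 608083), (nat_lit 2307357), (nat_lit 0)]) (PF.cons (PF.leaf (nat_lit 6992590) (nat_lit 617364) (nat_lit 46553824) (nat_lit 8801484) [(nat_lit 617364), (nat_lit 2321011), (nat_lit 0)]) (PF.cons (PF.leaf (nat_lit 7384276) (nat_lit 625666) (nat_lit 45874621) (nat_lit 8774930) [(nat_lit 625666), (nat_lit 2332732), (nat_lit 0)]) (PF.cons (PF.leaf (nat_lit 7779949) (nat_lit 633063) (nat_lit 45195402) (nat_lit 8744714) [(nat_lit 633063), (nat_lit 2342578), (nat_lit 0)]) (PF.cons (PF.leaf (nat_lit 8178518) (nat_lit 639622) (nat_lit 44517958) (nat_lit 8711019) [(nat_lit 639622), (nat_lit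 2350619), (nat_lit 0)]) (PF.cons PF.nil (PF.cons PF.nil PF.nil)))))))))) (PF.cons (PF.cons (PF.leaf (nat_lit 6487203) (nat_lit 2302852) (nat_lit 46795603) (nat_lit 8798945) [(nat_lit 0), (nat_lit 2302852), (nat_lit
 0)]) (PF.cons (PF.leaf (nat_lit 6858540) (nat_lit 611423) (nat_lit 46143893) (nat_lit 8775140) [(nat_lit 611423), (nat_lit 2315671), (nat_lit 0)]) (PF.cons (PF.leaf (nat_lit 7236926) (nat_lit 620059) (nat_lit 45487408) (nat_lit 8747717) [(nat_lit 620059), (nat_lit 2326713), (nat_lit 0)]) (PF.cons (PF.leaf (nat_lit 7620617) (nat_lit 627730) (nat_lit 44828770) (nat_lit 8716813) [(nat_lit 627730), (nat_lit 2336007), (nat_lit 0)]) (PF.cons (PF.leaf (nat_lit 8008323) (nat_lit 634518) (nat_lit 44170144) (nat_lit 8682589) [(nat_lit 634518), (nat_lit 2343601), (nat_lit 0)]) (PF.cons (PF.leaf (nat_lit 8398925) (nat_lit 640493) (nat_lit 43513340) (nat_lit 8645224) [(nat_lit 640493), (nat_lit 2349555), (nat_lit 0)]) (PF.cons PF.nil (PF.cons PF.nil PF.nil)))))))) (PF.cons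 (PF.cons (PF.leaf (nat_lit 7474340) (nat_lit 2329282) (nat_lit 44445709) (nat_lit 8687410) [(nat_lit 0), (nat_lit 2329282), (nat_lit 0)]) (PF.cons (PF.leaf (nat_lit 7849418) (nat_lit 628796) (nat_lit 43808710) (nat_lit 8652835) [(nat_lit 628796), (nat_lit 2336411), (nat_lit 0)]) (PF.cons (PF.leaf (nat_lit 8228910) (nat_lit 635066) (nat_lit 43171446) (nat_lit 8615235) [(nat_lit 635066), (nat_lit 2341999), (nat_lit 0)])
 (PF.cons (PF.leaf (nat_lit 8611414) (nat_lit 640541) (nat_lit 42535812) (nat_lit 8574790) [(nat_lit 640541), (nat_lit 2346097), (nat_lit 0)]) (PF.cons PF.nil (PF.cons PF.nil PF.nil)))))) (PF.cons (PF.cons (PF.leaf (nat_lit 8442740) (nat_lit 2338061) (nat_lit 42199017) (nat_lit 8543368) [(nat_lit 0), (nat_lit 2338061), (nat_lit 0)]) (PF.cons (PF.leaf (nat_lit 8816747) (nat_lit 639833) (nat_lit 41585008) (nat_lit 8500384) [(nat_lit 639833), (nat_lit 2340512), (nat_lit 0)]) (PF.cons (PF.leaf (nat_lit 9193152) (nat_lit 644169) (nat_lit 40973836) (nat_lit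 8454989) [(nat_lit 644169), (nat_lit 2341663), (nat_lit 0)]) (PF.cons PF.nil PF.nil)))) (PF.cons (PF.cons (PF.leaf (nat_lit 9384088) (nat_lit 2332847) (nat_lit 40070667) (nat_lit 8375364) [(nat_lit 0), (nat_lit 2332847), (nat_lit 0)]) (PF.cons PF.nil PF.nil)) (PF.cons PF.nil (PF.cons PF.nil PF.nil))))))))))) (PF.cons (PF.cons (PF.cons (PF.leaf (nat_lit 3695581) (nat_lit 6512626) (nat_lit 51817755) (nat_lit 8778430) [(nat_lit 0), (nat_lit 0), (nat_lit 6512626)]) (PF.cons (PF.leaf (nat_lit 3971721) (nat_lit 479936) (nat_lit 51307850) (nat_lit 8787304) [(nat_lit 479936), (nat_lit 0), (nat_lit 6533721)]) (PF.cons (PF.leaf (nat_lit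
 4272880) (nat_lit 502142) (nat_lit 50757680) (nat_lit 8793609) [(nat_lit 502142), (nat_lit 0), (nat_lit 6553237)]) (PF.cons (PF.leaf (nat_lit 4593971) (nat_lit 521711) (nat_lit 50176547) (nat_lit 8796734) [(nat_lit 521711), (nat_lit 0), (nat_lit 6570396)]) (PF.cons (PF.leaf (nat_lit 4931566) (nat_lit 539130) (nat_lit 49571324) (nat_lit 8796277) [(nat_lit 539130), (nat_lit 0), (nat_lit 6584689)]) (PF.cons (PF.leaf (nat_lit 5282950) (nat_lit 554729) (nat_lit 48947390) (nat_lit 8791984) [(nat_lit 554729), (nat_lit 0), (nat_lit 6595788)]) (PF.cons (PF.leaf (nat_lit 5645868) (nat_lit 568746) (nat_lit 48309121) (nat_lit 8783719) [(nat_lit 568746), (nat_lit 0), (nat_lit 6603495)]) (PF.cons (PF.leaf (nat_lit 6018375) (nat_lit 581357) (nat_lit 47660166) (nat_lit 8771433) [(nat_lit 581357), (nat_lit 0), (nat_lit 6607712)]) (PF.cons (PF.leaf (nat_lit 6398854) (nat_lit 592703) (nat_lit 47003621) (nat_lit 8755146) [(nat_lit 592703), (nat_lit 0), (nat_lit 6608417)]) (PF.cons (PF.leaf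 (nat_lit 6785791) (nat_lit 602899) (nat_lit 46342142) (nat_lit 8734932) [(nat_lit 602899), (nat_lit 0), (nat_lit 6605640)]) (PF.cons (PF.leaf (nat_lit 7177896) (nat_lit 612042) (nat_lit 45678025) (nat_lit 8710905)
 [(nat_lit 612042), (nat_lit 0), (nat_lit 6599458)]) (PF.cons (PF.leaf (nat_lit 7574007) (nat_lit 620214) (nat_lit 45013264) (nat_lit 8683213) [(nat_lit 620214), (nat_lit 0), (nat_lit 6589976)]) (PF.cons PF.nil (PF.cons PF.nil PF.nil)))))))))))))) (PF.cons (PF.cons (PF.leaf (nat_lit 4567005) (nat_lit 2151892) (nat_lit 49604671) (nat_lit 8783267) [(nat_lit 0), (nat_lit 2151892), (nat_lit 6568981)]) (PF.cons (PF.leaf (nat_lit 4879233) (nat_lit 530354) (nat_lit 49041204) (nat_lit 8780066) [(nat_lit 530354), (nat_lit 2177330), (nat_lit 6579857)]) (PF.cons (PF.leaf (nat_lit 5209297) (nat_lit 546971) (nat_lit 48452344) (nat_lit 8773435) [(nat_lit 546971), (nat_lit 2200987), (nat_lit 6588102)]) (PF.cons (PF.leaf (nat_lit 5553620) (nat_lit 561727) (nat_lit 47844379)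 (nat_lit 8763178) [(nat_lit 561727), (nat_lit 2222663), (nat_lit 6593408)]) (PF.cons (PF.leaf (nat_lit 5909656) (nat_lit 574895) (nat_lit 47222156) (nat_lit 8749203) [(nat_lit 574895), (nat_lit 2242269), (nat_lit 6595600)]) (PF.cons (PF.leaf (nat_lit 6275328) (nat_lit 586674) (nat_lit 46589564) (nat_lit 8731494) [(nat_lit 586674), (nat_lit 2259787), (nat_lit 6594594)]) (PF.cons (PF.leaf (nat_lit 6648872) (nat_lit 597215)
 (nat_lit 45949807) (nat_lit 8710094) [(nat_lit 597215), (nat_lit 2275239), (nat_lit 6590379)]) (PF.cons (PF.leaf (nat_lit 7028793) (nat_lit 606639) (nat_lit 45305575) (nat_lit 8685093) [(nat_lit 606639), (nat_lit 2288673), (nat_lit 6582991)]) (PF.cons (PF.leaf (nat_lit 7413755) (nat_lit 615047) (nat_lit 44659151) (nat_lit 8656613) [(nat_lit 615047), (nat_lit 2300156), (nat_lit 6572509)]) (PF.cons (PF.leaf (nat_lit 7802583) (nat_lit 622523) (nat_lit 44012490) (nat_lit 8624803) [(nat_lit 622523), (nat_lit 2309767), (nat_lit 6559036)]) (PF.cons PF.nil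 (PF.cons PF.nil PF.nil)))))))))))) (PF.cons (PF.cons (PF.leaf (nat_lit 5483746) (nat_lit 2220472) (nat_lit 47345175) (nat_lit 8740427) [(nat_lit 0), (nat_lit 2220472), (nat_lit 6582265)]) (PF.cons (PF.leaf (nat_lit 5819260) (nat_lit 567010) (nat_lit 46756848) (nat_lit 8725022) [(nat_lit 567010), (nat_lit 2238725), (nat_lit 6582480)]) (PF.cons (PF.leaf (nat_lit 6167379) (nat_lit 579520) (nat_lit 46153462) (nat_lit 8706115) [(nat_lit 579520), (nat_lit 2255181), (nat_lit 6579829)]) (PF.cons (PF.leaf (nat_lit 6525457) (nat_lit 590622) (nat_lit 45539399) (nat_lit 8683723) [(nat_lit 590622), (nat_lit 2269788), (nat_lit 6574244)]) (PF.cons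
 (PF.leaf (nat_lit 6891560) (nat_lit 600489) (nat_lit 44918125) (nat_lit 8657914) [(nat_lit 600489), (nat_lit 2282545), (nat_lit 6565722)]) (PF.cons (PF.leaf (nat_lit 7264080) (nat_lit 609256) (nat_lit 44292461) (nat_lit 8628794) [(nat_lit 609256), (nat_lit 2293483), (nat_lit 6554305)]) (PF.cons (PF.leaf (nat_lit 7641645) (nat_lit 617031) (nat_lit 43664750) (nat_lit 8596492) [(nat_lit 617031), (nat_lit 2302654), (nat_lit 6540072)]) (PF.cons (PF.leaf (nat_lit 8023059) (nat_lit 623902) (nat_lit 43036956) (nat_lit 8561162) [(nat_lit 623902), (nat_lit 2310125), (nat_lit 6523127)]) (PF.cons (PF.leaf (nat_lit 8407278) (nat_lit 629946) (nat_lit 42410746) (nat_lit 8522967) [(nat_lit 629946), (nat_lit 2315968), (nat_lit 6503589)]) (PF.cons PF.nil PF.nil)))))))))) (PF.cons (PF.cons (PF.leaf (nat_lit 6420383) (nat_lit 2264313) (nat_lit 45103511) (nat_lit 8655353) [(nat_lit 0), (nat_lit 2264313), (nat_lit 6557006)]) (PF.cons (PF.leaf (nat_lit 6769704) (nat_lit 593291) (nat_lit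 44510122) (nat_lit 8628995) [(nat_lit 593291), (nat_lit 2276317), (nat_lit 6547452)]) (PF.cons (PF.leaf (nat_lit 7127727) (nat_lit 602617) (nat_lit 43908932) (nat_lit 8599448) [(nat_lit 602617), (nat_lit 2286666),
 (nat_lit 6535197)]) (PF.cons (PF.leaf (nat_lit 7492414) (nat_lit 610839) (nat_lit 43303038) (nat_lit 8566836) [(nat_lit 610839), (nat_lit 2295376), (nat_lit 6520292)]) (PF.cons (PF.leaf (nat_lit 7862288) (nat_lit 618077) (nat_lit 42694927) (nat_lit 8531301) [(nat_lit 618077), (nat_lit 2302485), (nat_lit 6502816)]) (PF.cons (PF.leaf (nat_lit 8236102) (nat_lit 624430) (nat_lit 42086642) (nat_lit 8492999) [(nat_lit 624430), (nat_lit 2308048), (nat_lit 6482874)]) (PF.cons (PF.leaf (nat_lit 8612772) (nat_lit 629978) (nat_lit 41479877) (nat_lit 8452095) [(nat_lit 629978), (nat_lit 2312130), (nat_lit 6460580)]) (PF.cons PF.nil PF.nil)))))))) (PF.cons (PF.cons (PF.leaf (nat_lit 7358544) (nat_lit 2287941) (nat_lit 42922148) (nat_lit 8535434) [(nat_lit 0), (nat_lit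 2287941), (nat_lit 6499466)]) (PF.cons (PF.leaf (nat_lit 7714621) (nat_lit 611457) (nat_lit 42337191) (nat_lit 8499925) [(nat_lit 611457), (nat_lit 2294665), (nat_lit 6481578)]) (PF.cons (PF.leaf (nat_lit 8076453) (nat_lit 618257) (nat_lit 41749506) (nat_lit 8461707) [(nat_lit 618257), (nat_lit 2299938), (nat_lit 6461331)]) (PF.cons (PF.leaf (nat_lit 8442439) (nat_lit 624176) (nat_lit 41161289) (nat_lit 8420943) [(nat_lit
 624176), (nat_lit 2303805), (nat_lit 6438829)]) (PF.cons (PF.leaf (nat_lit 8811439) (nat_lit 629302) (nat_lit 40574324) (nat_lit 8377803) [(nat_lit 629302), (nat_lit 2306321), (nat_lit 6414188)]) (PF.cons PF.nil PF.nil)))))) (PF.cons (PF.cons (PF.leaf (nat_lit 8285168) (nat_lit 2295270) (nat_lit 40828036) (nat_lit 8388292) [(nat_lit 0), (nat_lit 2295270), (nat_lit 6416133)]) (PF.cons (PF.leaf (nat_lit 8642808) (nat_lit 623196) (nat_lit 40260427) (nat_lit 8345544) [(nat_lit 623196), (nat_lit 2297633), (nat_lit 6391479)]) (PF.cons (PF.leaf (nat_lit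 9003964) (nat_lit 627975) (nat_lit 39693577) (nat_lit 8300605) [(nat_lit 627975), (nat_lit 2298762), (nat_lit 6364866)]) (PF.cons (PF.leaf (nat_lit 9367381) (nat_lit 632043) (nat_lit 39129046) (nat_lit 8253647) [(nat_lit 632043), (nat_lit 2298714), (nat_lit 6336415)]) PF.nil)))) (PF.cons (PF.cons (PF.leaf (nat_lit 9191265) (nat_lit 2289648) (nat_lit 38836964) (nat_lit 8220945) [(nat_lit 0), (nat_lit 2289648), (nat_lit 6313010)]) (PF.cons (PF.leaf (nat_lit 9546681) (nat_lit 629833) (nat_lit 38292286) (nat_lit 8172749) [(nat_lit 629833), (nat_lit 2288476), (nat_lit 6283085)]) PF.nil)) (PF.cons PF.nil (PF.cons PF.nil (PF.cons PF.nil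
 PF.nil)))))))))) (PF.cons (PF.cons (PF.cons (PF.leaf (nat_lit 5482397) (nat_lit 6487352) (nat_lit 45532852) (nat_lit 8601256) [(nat_lit 0), (nat_lit 0), (nat_lit 6487352)]) (PF.cons (PF.leaf (nat_lit 5789948) (nat_lit 543294) (nat_lit 45013777) (nat_lit 8583097) [(nat_lit 543294), (nat_lit 0), (nat_lit 6484321)]) (PF.cons (PF.leaf (nat_lit 6113247) (nat_lit 557698) (nat_lit 44473997) (nat_lit 8561755) [(nat_lit 557698), (nat_lit 0), (nat_lit 6478832)]) (PF.cons (PF.leaf (nat_lit 6448798) (nat_lit 570235) (nat_lit 43919242) (nat_lit 8537275) [(nat_lit 570235), (nat_lit 0), (nat_lit 6470794)]) (PF.cons (PF.leaf (nat_lit 6794180) (nat_lit 581218) (nat_lit 43353839) (nat_lit 8509733) [(nat_lit 581218), (nat_lit 0), (nat_lit 6460182)]) (PF.cons (PF.leaf (nat_lit 7147479) (nat_lit 590871) (nat_lit 42781182) (nat_lit 8479229) [(nat_lit 590871), (nat_lit 0), (nat_lit 6447021)]) (PF.cons (PF.leaf (nat_lit 7507071) (nat_lit 599363) (nat_lit 42204014) (nat_lit 8445884) [(nat_lit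 599363), (nat_lit 0), (nat_lit 6431366)]) (PF.cons (PF.leaf (nat_lit 7871609) (nat_lit 606827) (nat_lit 41624588) (nat_lit 8409834) [(nat_lit 606827), (nat_lit 0), (nat_lit 6413299)]) (PF.cons (PF.leaf (nat_lit
 8239929) (nat_lit 613369) (nat_lit 41044784) (nat_lit 8371227) [(nat_lit 613369), (nat_lit 0), (nat_lit 6392920)]) (PF.cons (PF.leaf (nat_lit 8611046) (nat_lit 619081) (nat_lit 40466179) (nat_lit 8330218) [(nat_lit 619081), (nat_lit 0), (nat_lit 6370342)]) (PF.cons PF.nil (PF.cons PF.nil PF.nil)))))))))))) (PF.cons (PF.cons (PF.leaf (nat_lit 6361510) (nat_lit 2221867) (nat_lit 43478355) (nat_lit 8505839) [(nat_lit 0), (nat_lit 2221867), (nat_lit 6451375)]) (PF.cons (PF.leaf (nat_lit 6687573) (nat_lit 572354) (nat_lit 42944350) (nat_lit 8478301) [(nat_lit 572354), (nat_lit 2233638), (nat_lit 6440084)]) (PF.cons (PF.leaf (nat_lit 7024554) (nat_lit 582902) (nat_lit 42398592) (nat_lit 8447826) [(nat_lit 582902), (nat_lit 2243821), (nat_lit 6426383)]) (PF.cons (PF.leaf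 (nat_lit 7369918) (nat_lit 592091) (nat_lit 41844943) (nat_lit 8414549) [(nat_lit 592091), (nat_lit 2252417), (nat_lit 6410313)]) (PF.cons (PF.leaf (nat_lit 7721893) (nat_lit 600113) (nat_lit 41286404) (nat_lit 8378615) [(nat_lit 600113), (nat_lit 2259459), (nat_lit 6391940)]) (PF.cons (PF.leaf (nat_lit 8079012) (nat_lit 607113) (nat_lit 40725373) (nat_lit 8340173) [(nat_lit 607113), (nat_lit 2265000), (nat_lit
 6371350)]) (PF.cons (PF.leaf (nat_lit 8440051) (nat_lit 613207) (nat_lit 40163803) (nat_lit 8299376) [(nat_lit 613207), (nat_lit 2269103), (nat_lit 6348643)]) (PF.cons (PF.leaf (nat_lit 8803978) (nat_lit 618488) (nat_lit 39603308) (nat_lit 8256380) [(nat_lit 618488), (nat_lit 2271839), (nat_lit 6323931)]) (PF.cons PF.nil (PF.cons PF.nil PF.nil)))))))))) (PF.cons (PF.cons (PF.leaf (nat_lit 7251136) (nat_lit 2244294) (nat_lit 41463059) (nat_lit 8381127) [(nat_lit 0), (nat_lit 2244294), (nat_lit 6388018)]) (PF.cons (PF.leaf (nat_lit 7587579) (nat_lit 592336) (nat_lit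 40929823) (nat_lit 8345619) [(nat_lit 592336), (nat_lit 2251018), (nat_lit 6369498)]) (PF.cons (PF.leaf (nat_lit 7931436) (nat_lit 600001) (nat_lit 40390885) (nat_lit 8307589) [(nat_lit 600001), (nat_lit 2256338), (nat_lit 6348828)]) (PF.cons (PF.leaf (nat_lit 8280807) (nat_lit 606632) (nat_lit 39848908) (nat_lit 8267206) [(nat_lit 606632), (nat_lit 2260295), (nat_lit 6326105)]) (PF.cons (PF.leaf (nat_lit 8634357) (nat_lit 612357) (nat_lit 39306001) (nat_lit 8224634) [(nat_lit 612357), (nat_lit 2262941), (nat_lit 6301432)]) (PF.cons (PF.leaf (nat_lit 8990978) (nat_lit 617279) (nat_lit 38763862) (nat_lit 8180038)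
 [(nat_lit 617279), (nat_lit 2264336), (nat_lit 6274920)]) (PF.cons PF.nil (PF.cons PF.nil PF.nil)))))))) (PF.cons (PF.cons (PF.leaf (nat_lit 8136801) (nat_lit 2251255) (nat_lit 39516851) (nat_lit 8233273) [(nat_lit 0), (nat_lit 2251255), (nat_lit 6302459)]) (PF.cons (PF.leaf (nat_lit 8477740) (nat_lit 605428) (nat_lit 38994627) (nat_lit 8191381) [(nat_lit 605428), (nat_lit 2253810), (nat_lit 6277971)]) (PF.cons (PF.leaf (nat_lit 8823522) (nat_lit 610866) (nat_lit 38470810) (nat_lit 8147428) [(nat_lit 610866), (nat_lit 2255166), (nat_lit 6251669)]) (PF.cons (PF.leaf (nat_lit 9172667) (nat_lit 615498) (nat_lit 37947260) (nat_lit 8101587) [(nat_lit 615498), (nat_lit 2255377), (nat_lit 6223669)]) (PF.cons (PF.leaf (nat_lit 9524159) (nat_lit 619414) (nat_lit 37425461) (nat_lit 8054022) [(nat_lit 619414), (nat_lit 2254500), (nat_lit 6194085)]) (PF.cons PF.nil PF.nil)))))) (PF.cons (PF.cons (PF.leaf (nat_lit 9008494) (nat_lit 2245955) (nat_lit 37657497) (nat_lit 8068119)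 [(nat_lit 0), (nat_lit 2245955), (nat_lit 6199686)]) (PF.cons (PF.leaf (nat_lit 9349682) (nat_lit 613181) (nat_lit 37152790) (nat_lit 8021372) [(nat_lit 613181), (nat_lit 2245123), (nat_lit 6170487)]) (PF.cons (PF.leaf
 (nat_lit 9693797) (nat_lit 616871) (nat_lit 36649258) (nat_lit 7973011) [(nat_lit 616871), (nat_lit 2243290), (nat_lit 6139819)]) (PF.cons PF.nil PF.nil)))) (PF.cons (PF.cons (PF.leaf (nat_lit 9859457) (nat_lit 2231049) (nat_lit 35894475) (nat_lit 7890813) [(nat_lit 0), (nat_lit 2231049), (nat_lit 6084139)]) (PF.cons PF.nil PF.nil)) (PF.cons PF.nil (PF.cons PF.nil PF.nil)))))))) (PF.cons (PF.cons (PF.cons (PF.leaf (nat_lit 7155963) (nat_lit 6274594) (nat_lit 40060028) (nat_lit 8225001) [(nat_lit 0), (nat_lit 0), (nat_lit 6274594)]) (PF.cons (PF.leaf (nat_lit 7471349) (nat_lit 570895) (nat_lit 39579156) (nat_lit 8190379) [(nat_lit 570895), (nat_lit 0), (nat_lit 6256127)]) (PF.cons (PF.leaf (nat_lit 7796359) (nat_lit 579900) (nat_lit 39088848) (nat_lit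 8153285) [(nat_lit 579900), (nat_lit 0), (nat_lit 6235625)]) (PF.cons (PF.leaf (nat_lit 8128594) (nat_lit 587609) (nat_lit 38592491) (nat_lit 8113918) [(nat_lit 587609), (nat_lit 0), (nat_lit 6213191)]) (PF.cons (PF.leaf (nat_lit 8466406) (nat_lit 594221) (nat_lit 38092676) (nat_lit 8072459) [(nat_lit 594221), (nat_lit 0), (nat_lit 6188931)]) (PF.cons (PF.leaf (nat_lit 8808455) (nat_lit 599887) (nat_lit 37591449) (nat_lit 8029076)
 [(nat_lit 599887), (nat_lit 0), (nat_lit 6162950)]) (PF.cons (PF.leaf (nat_lit 9153636) (nat_lit 604725) (nat_lit 37090455) (nat_lit 7983929) [(nat_lit 604725), (nat_lit 0), (nat_lit 6135359)]) (PF.cons PF.nil PF.nil)))))))) (PF.cons (PF.cons (PF.leaf (nat_lit 8000198) (nat_lit 2205953) (nat_lit 38258724) (nat_lit 8078552) [(nat_lit 0), (nat_lit 2205953), (nat_lit 6188527)]) (PF.cons (PF.leaf (nat_lit 8323624) (nat_lit 586206) (nat_lit 37781509) (nat_lit 8038100) [(nat_lit 586206), (nat_lit 2208989), (nat_lit 6164668)]) (PF.cons (PF.leaf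 (nat_lit 8653514) (nat_lit 592598) (nat_lit 37299938) (nat_lit 7995623) [(nat_lit 592598), (nat_lit 2210828), (nat_lit 6139075)]) (PF.cons (PF.leaf (nat_lit 8988083) (nat_lit 598025) (nat_lit 36816307) (nat_lit 7951312) [(nat_lit 598025), (nat_lit 2211521), (nat_lit 6111865)]) (PF.cons (PF.leaf (nat_lit 9326120) (nat_lit 602618) (nat_lit 36332413) (nat_lit 7905337) [(nat_lit 602618), (nat_lit 2211127), (nat_lit 6083153)]) (PF.cons (PF.leaf (nat_lit 9666608) (nat_lit 606479) (nat_lit 35849690) (nat_lit 7857859) [(nat_lit 606479), (nat_lit 2209710), (nat_lit 6053052)]) PF.nil)))))) (PF.cons (PF.cons (PF.leaf (nat_lit 8837470) (nat_lit 2201705)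
 (nat_lit 36526759) (nat_lit 7916945) [(nat_lit 0), (nat_lit 2201705), (nat_lit 6087232)]) (PF.cons (PF.leaf (nat_lit 9163927) (nat_lit 595613) (nat_lit 36061158) (nat_lit 7872022) [(nat_lit 595613), (nat_lit 2201410), (nat_lit 6059065)]) (PF.cons (PF.leaf (nat_lit 9494568) (nat_lit 600029) (nat_lit 35594584) (nat_lit 7825504) [(nat_lit 600029), (nat_lit 2200114), (nat_lit 6029478)]) (PF.cons (PF.leaf (nat_lit 9828009) (nat_lit 603704) (nat_lit 35128624) (nat_lit 7777560) [(nat_lit 603704), (nat_lit 2197871), (nat_lit 5998590)]) PF.nil)))) (PF.cons (PF.cons (PF.leaf (nat_lit 9659858) (nat_lit 2188129) (nat_lit 34876147) (nat_lit 7744648) [(nat_lit 0), (nat_lit 2188129), (nat_lit 5974542)]) (PF.cons (PF.leaf (nat_lit 9985792) (nat_lit 600526) (nat_lit 34427062) (nat_lit 7696482) [(nat_lit 600526), (nat_lit 2185168), (nat_lit 5943078)]) PF.nil)) (PF.cons PF.nil (PF.cons PF.nil PF.nil)))))) (PF.cons (PF.cons (PF.cons (PF.leaf (nat_lit 8680140) (nat_lit 5975617) (nat_lit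 35439018) (nat_lit 7767323) [(nat_lit 0), (nat_lit 0), (nat_lit 5975617)]) (PF.cons (PF.leaf (nat_lit 8990910) (nat_lit 576800) (nat_lit 35012256) (nat_lit 7724610) [(nat_lit 576800), (nat_lit 0), (nat_lit 5948786)])
 (PF.cons (PF.leaf (nat_lit 9307437) (nat_lit 582207) (nat_lit 34582021) (nat_lit 7680243) [(nat_lit 582207), (nat_lit 0), (nat_lit 5920533)]) (PF.cons (PF.leaf (nat_lit 9628025) (nat_lit 586713) (nat_lit 34150304) (nat_lit 7634421) [(nat_lit 586713), (nat_lit 0), (nat_lit 5890987)]) (PF.cons (PF.leaf (nat_lit 9951554) (nat_lit 590447) (nat_lit 33718649) (nat_lit 7587312) [(nat_lit 590447), (nat_lit 0), (nat_lit 5860264)]) (PF.cons PF.nil PF.nil)))))) (PF.cons (PF.cons (PF.leaf (nat_lit 9473371) (nat_lit 2145012) (nat_lit 33897217) (nat_lit 7600809) [(nat_lit 0), (nat_lit 2145012), (nat_lit 5866443)]) (PF.cons (PF.leaf (nat_lit 9786225) (nat_lit 583511) (nat_lit 33481677) (nat_lit 7554950) [(nat_lit 583511), (nat_lit 2142779), (nat_lit 5836473)]) (PF.cons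 (PF.leaf (nat_lit 10102767) (nat_lit 587150) (nat_lit 33065492) (nat_lit 7507831) [(nat_lit 587150), (nat_lit 2139697), (nat_lit 5805372)]) (PF.cons PF.nil PF.nil)))) (PF.cons (PF.cons (PF.leaf (nat_lit 10251665) (nat_lit 2126105) (nat_lit 32429260) (nat_lit 7428000) [(nat_lit 0), (nat_lit 2126105), (nat_lit 5749835)]) (PF.cons PF.nil PF.nil)) (PF.cons PF.nil PF.nil)))) (PF.cons (PF.cons (PF.cons (PF.leaf (nat_lit 10054951)
 (nat_lit 5647621) (nat_lit 31577651) (nat_lit 7293055) [(nat_lit 0), (nat_lit 0), (nat_lit 5647621)]) (PF.cons (PF.leaf (nat_lit 10355113) (nat_lit 570113) (nat_lit 31205912) (nat_lit 7247549) [(nat_lit 570113), (nat_lit 0), (nat_lit 5617047)]) (PF.cons PF.nil (PF.cons PF.nil PF.nil)))) (PF.cons (PF.cons (PF.leaf (nat_lit 10793766) (nat_lit 2062612) (nat_lit 30268315) (nat_lit 7123696) [(nat_lit 0), (nat_lit 2062612), (nat_lit 5530837)]) (PF.cons PF.nil PF.nil)) PF.nil)) (PF.cons PF.nil (PF.cons PF.nil (PF.cons PF.nil (PF.cons PF.nil PF.nil))))))))))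

def p12_19_1_0 : pfC (piC [(nat_lit 37297016), (nat_lit 23751559), (nat_lit 15232604)] (nat_lit 11744142)) p12_19_1 (nat_lit 3) (nat_lit 0) (nat_lit 1) = true := by decide +kernel
def p12_19_1_1 : pfC (piC [(nat_lit 37297016), (nat_lit 23751559), (nat_lit 15232604)] (nat_lit 11744142)) p12_19_1 (nat_lit 3) (nat_lit 1) (nat_lit 2) = true := by decide +kernel
def p12_19_1_2 : pfC (piC [(nat_lit 37297016), (nat_lit 23751559), (nat_lit 15232604)] (nat_lit 11744142)) p12_19_1 (nat_lit 3) (nat_lit 2) (nat_lit 3) = true := by decide +kernel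
def p12_19_1_3 : pfC (piC [(nat_lit 37297016), (nat_lit 23751559), (nat_lit 15232604)] (nat_lit 11744142)) p12_19_1 (nat_lit 3) (nat_lit 3) (nat_lit 4) = true := by decide +kernel
def p12_19_1_4 : pfC (piC [(nat_lit 37297016), (nat_lit 23751559), (nat_lit 15232604)] (nat_lit 11744142)) p12_19_1 (nat_lit 3) (nat_lit 4) (nat_lit 5) = true := by decide +kernel
def p12_19_1_5 : pfC (piC [(nat_lit 37297016), (nat_lit 23751559), (nat_lit 15232604)] (nat_lit 11744142)) p12_19_1 (nat_lit 3) (nat_lit 5) (nat_lit 6) = true := by decide +kernel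
def p12_19_1_6 : pfC (piC [(nat_lit 37297016), (nat_lit 23751559), (nat_lit 15232604)] (nat_lit 11744142)) p12_19_1 (nat_lit 3) (nat_lit 6) (nat_lit 7) = true := by decide +kernel
def p12_19_1_7 : pfC (piC [(nat_lit 37297016), (nat_lit 23751559), (nat_lit 15232604)] (nat_lit 11744142)) p12_19_1 (nat_lit 3) (nat_lit 7) (nat_lit 8) = true := by decide +kernel
def p12_19_1_8 : pfC (piC [(nat_lit 37297016), (nat_lit 23751559), (nat_lit 15232604)] (nat_lit 11744142)) p12_19_1 (nat_lit 3) (nat_lit 8) (nat_lit 9) = true := by decide +kernel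
def p12_19_1_9 : pfC (piC [(nat_lit 37297016), (nat_lit 23751559), (nat_lit 15232604)] (nat_lit 11744142)) p12_19_1 (nat_lit 3) (nat_lit 9) (nat_lit 10) = true := by decide +kernel
def p12_19_1_10 : pfC (piC [(nat_lit 37297016), (nat_lit 23751559), (nat_lit 15232604)] (nat_lit 11744142)) p12_19_1 (nat_lit 3) (nat_lit 10) (nat_lit 11) = true := by decide +kernel
def p12_19_1_11 : pfC (piC [(nat_lit 37297016), (nat_lit 23751559), (nat_lit 15232604)] (nat_lit 11744142)) p12_19_1 (nat_lit 3) (nat_lit 11) (nat_lit 12) = true := by decide +kernel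
def p12_19_1_12 : pfC (piC [(nat_lit 37297016), (nat_lit 23751559), (nat_lit 15232604)] (nat_lit 11744142)) p12_19_1 (nat_lit 3) (nat_lit 12) (nat_lit 13) = true := by decide +kernel
def p12_19_1_13 : pfC (piC [(nat_lit 37297016), (nat_lit 23751559), (nat_lit 15232604)] (nat_lit 11744142)) p12_19_1 (nat_lit 3) (nat_lit 13) (nat_lit 14) = true := by decide +kernel
def p12_19_1_14 : pfC (piC [(nat_lit 37297016), (nat_lit 23751559), (nat_lit 15232604)] (nat_lit 11744142)) p12_19_1 (nat_lit 3) (nat_lit 14) (nat_lit 15) = true := by decide +kernel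
def p12_19_1_15 : pfC (piC [(nat_lit 37297016), (nat_lit 23751559), (nat_lit 15232604)] (nat_lit 11744142)) p12_19_1 (nat_lit 3) (nat_lit 15) (nat_lit 16) = true := by decide +kernel
def p12_19_1_16 : pfC (piC [(nat_lit 37297016), (nat_lit 23751559), (nat_lit 15232604)] (nat_lit 11744142)) p12_19_1 (nat_lit 3) (nat_lit 16) (nat_lit 17) = true := by decide +kernel
def p12_19_1_17 : pfC (piC [(nat_lit 37297016), (nat_lit 23751559), (nat_lit 15232604)] (nat_lit 11744142)) p12_19_1 (nat_lit 3) (nat_lit 17) (nat_lit 18) = true := by decide +kernel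
def p12_19_1_18 : pfC (piC [(nat_lit 37297016), (nat_lit 23751559), (nat_lit 15232604)] (nat_lit 11744142)) p12_19_1 (nat_lit 3) (nat_lit 18) (nat_lit 19) = true := by decide +kernel
def p12_19_1_19 : pfC (piC [(nat_lit 37297016), (nat_lit 23751559), (nat_lit 15232604)] (nat_lit 11744142)) p12_19_1 (nat_lit 3) (nat_lit 19) (nat_lit 20) = true := by decide +kernel
def p12_19_1_20 : pfC (piC [(nat_lit 37297016), (nat_lit 23751559), (nat_lit 15232604)] (nat_lit 11744142)) p12_19_1 (nat_lit 3) (nat_lit 20) (nat_lit 21) = true := by decide +kernel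
def p12_19_1_21 : pfC (piC [(nat_lit 37297016), (nat_lit 23751559), (nat_lit 15232604)] (nat_lit 11744142)) p12_19_1 (nat_lit 3) (nat_lit 21) (nat_lit 22) = true := by decide +kernel
def p12_19_1_22 : pfC (piC [(nat_lit 37297016), (nat_lit 23751559), (nat_lit 15232604)] (nat_lit 11744142)) p12_19_1 (nat_lit 3) (nat_lit 22) (nat_lit 23) = true := by decide +kernel
def p12_19_1_23 : pfC (piC [(nat_lit 37297016), (nat_lit 23751559), (nat_lit 15232604)] (nat_lit 11744142)) p12_19_1 (nat_lit 3) (nat_lit 23) (nat_lit 24) = true := by decide +kernel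
def p12_19_1_24 : pfC (piC [(nat_lit 37297016), (nat_lit 23751559), (nat_lit 15232604)] (nat_lit 11744142)) p12_19_1 (nat_lit 3) (nat_lit 24) (nat_lit 25) = true := by decide +kernel
def p12_19_1_25 : pfC (piC [(nat_lit 37297016), (nat_lit 23751559), (nat_lit 15232604)] (nat_lit 11744142)) p12_19_1 (nat_lit 3) (nat_lit 25) (nat_lit 26) = true := by decide +kernel
def p12_19_1_26 : pfC (piC [(nat_lit 37297016), (nat_lit 23751559), (nat_lit 15232604)] (nat_lit 11744142)) p12_19_1 (nat_lit 3) (nat_lit 26) (nat_lit 27) = true := by decide +kernel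
def p12_19_1_27 : pfC (piC [(nat_lit 37297016), (nat_lit 23751559), (nat_lit 15232604)] (nat_lit 11744142)) p12_19_1 (nat_lit 3) (nat_lit 27) (nat_lit 28) = true := by decide +kernel
def p12_19_1_28 : pfC (piC [(nat_lit 37297016), (nat_lit 23751559), (nat_lit 15232604)] (nat_lit 11744142)) p12_19_1 (nat_lit 3) (nat_lit 28) (nat_lit 29) = true := by decide +kernel
def p12_19_1_29 : pfC (piC [(nat_lit 37297016), (nat_lit 23751559), (nat_lit 15232604)] (nat_lit 11744142)) p12_19_1 (nat_lit 3) (nat_lit 29) (nat_lit 30) = true := by decide +kernel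
def p12_19_1_30 : pfC (piC [(nat_lit 37297016), (nat_lit 23751559), (nat_lit 15232604)] (nat_lit 11744142)) p12_19_1 (nat_lit 3) (nat_lit 30) (nat_lit 31) = true := by decide +kernel
def p12_19_1_31 : pfC (piC [(nat_lit 37297016), (nat_lit 23751559), (nat_lit 15232604)] (nat_lit 11744142)) p12_19_1 (nat_lit 3) (nat_lit 31) (nat_lit 32) = true := by decide +kernel
def p12_19_1_32 : pfC (piC [(nat_lit 37297016), (nat_lit 23751559), (nat_lit 15232604)] (nat_lit 11744142)) p12_19_1 (nat_lit 3) (nat_lit 32) (nat_lit 33) = true := by decide +kernel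
def p12_19_1_33 : pfC (piC [(nat_lit 37297016), (nat_lit 23751559), (nat_lit 15232604)] (nat_lit 11744142)) p12_19_1 (nat_lit 3) (nat_lit 33) (nat_lit 34) = true := by decide +kernel
def p12_19_1_34 : pfC (piC [(nat_lit 37297016), (nat_lit 23751559), (nat_lit 15232604)] (nat_lit 11744142)) p12_19_1 (nat_lit 3) (nat_lit 34) (nat_lit 35) = true := by decide +kernel
def p12_19_1_35 : pfC (piC [(nat_lit 37297016), (nat_lit 23751559), (nat_lit 15232604)] (nat_lit 11744142)) p12_19_1 (nat_lit 3) (nat_lit 35) (nat_lit 36) = true := by decide +kernel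
def p12_19_1_36 : pfC (piC [(nat_lit 37297016), (nat_lit 23751559), (nat_lit 15232604)] (nat_lit 11744142)) p12_19_1 (nat_lit 3) (nat_lit 36) (nat_lit 37) = true := by decide +kernel
def p12_19_1_37 : pfC (piC [(nat_lit 37297016), (nat_lit 23751559), (nat_lit 15232604)] (nat_lit 11744142)) p12_19_1 (nat_lit 3) (nat_lit 37) (nat_lit 38) = true := by decide +kernel
def p12_19_1_38 : pfC (piC [(nat_lit 37297016), (nat_lit 23751559), (nat_lit 15232604)] (nat_lit 11744142)) p12_19_1 (nat_lit 3) (nat_lit 38) (nat_lit 39) = true := by decide +kernel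
def p12_19_1_39 : pfC (piC [(nat_lit 37297016), (nat_lit 23751559), (nat_lit 15232604)] (nat_lit 11744142)) p12_19_1 (nat_lit 3) (nat_lit 39) (nat_lit 40) = true := by decide +kernel
def p12_19_1_40 : pfC (piC [(nat_lit 37297016), (nat_lit 23751559), (nat_lit 15232604)] (nat_lit 11744142)) p12_19_1 (nat_lit 3) (nat_lit 40) (nat_lit 41) = true := by decide +kernel
def p12_19_1_41 : pfC (piC [(nat_lit 37297016), (nat_lit 23751559), (nat_lit 15232604)] (nat_lit 11744142)) p12_19_1 (nat_lit 3) (nat_lit 41) (nat_lit 42) = true := by decide +kernel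
def p12_19_1_42 : pfC (piC [(nat_lit 37297016), (nat_lit 23751559), (nat_lit 15232604)] (nat_lit 11744142)) p12_19_1 (nat_lit 3) (nat_lit 42) (nat_lit 43) = true := by decide +kernel
def p12_19_1_43 : pfC (piC [(nat_lit 37297016), (nat_lit 23751559), (nat_lit 15232604)] (nat_lit 11744142)) p12_19_1 (nat_lit 3) (nat_lit 43) (nat_lit 44) = true := by decide +kernel
def p12_19_1_44 : pfC (piC [(nat_lit 37297016), (nat_lit 23751559), (nat_lit 15232604)] (nat_lit 11744142)) p12_19_1 (nat_lit 3) (nat_lit 44) (nat_lit 45) = true := by decide +kernel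
def p12_19_1_45 : pfC (piC [(nat_lit 37297016), (nat_lit 23751559), (nat_lit 15232604)] (nat_lit 11744142)) p12_19_1 (nat_lit 3) (nat_lit 45) (nat_lit 46) = true := by decide +kernel
def p12_19_1_46 : pfC (piC [(nat_lit 37297016), (nat_lit 23751559), (nat_lit 15232604)] (nat_lit 11744142)) p12_19_1 (nat_lit 3) (nat_lit 46) (nat_lit 47) = true := by decide +kernel
def p12_19_1_47 : pfC (piC [(nat_lit 37297016), (nat_lit 23751559), (nat_lit 15232604)] (nat_lit 11744142)) p12_19_1 (nat_lit 3) (nat_lit 47) (nat_lit 48) = true := by decide +kernel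
def p12_19_1_48 : pfC (piC [(nat_lit 37297016), (nat_lit 23751559), (nat_lit 15232604)] (nat_lit 11744142)) p12_19_1 (nat_lit 3) (nat_lit 48) (nat_lit 49) = true := by decide +kernel
def p12_19_1_49 : pfC (piC [(nat_lit 37297016), (nat_lit 23751559), (nat_lit 15232604)] (nat_lit 11744142)) p12_19_1 (nat_lit 3) (nat_lit 49) (nat_lit 50) = true := by decide +kernel
def p12_19_1_50 : pfC (piC [(nat_lit 37297016), (nat_lit 23751559), (nat_lit 15232604)] (nat_lit 11744142)) p12_19_1 (nat_lit 3) (nat_lit 50) (nat_lit 51) = true := by decide +kernel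
def p12_19_1_51 : pfC (piC [(nat_lit 37297016), (nat_lit 23751559), (nat_lit 15232604)] (nat_lit 11744142)) p12_19_1 (nat_lit 3) (nat_lit 51) (nat_lit 52) = true := by decide +kernel
def p12_19_1_52 : pfC (piC [(nat_lit 37297016), (nat_lit 23751559), (nat_lit 15232604)] (nat_lit 11744142)) p12_19_1 (nat_lit 3) (nat_lit 52) (nat_lit 53) = true := by decide +kernel
def p12_19_1_53 : pfC (piC [(nat_lit 37297016), (nat_lit 23751559), (nat_lit 15232604)] (nat_lit 11744142)) p12_19_1 (nat_lit 3) (nat_lit 53) (nat_lit 54) = true := by decide +kernel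
def p12_19_1_54 : pfC (piC [(nat_lit 37297016), (nat_lit 23751559), (nat_lit 15232604)] (nat_lit 11744142)) p12_19_1 (nat_lit 3) (nat_lit 54) (nat_lit 55) = true := by decide +kernel
def p12_19_1_55 : pfC (piC [(nat_lit 37297016), (nat_lit 23751559), (nat_lit 15232604)] (nat_lit 11744142)) p12_19_1 (nat_lit 3) (nat_lit 55) (nat_lit 56) = true := by decide +kernel
def p12_19_1_56 : pfC (piC [(nat_lit 37297016), (nat_lit 23751559), (nat_lit 15232604)] (nat_lit 11744142)) p12_19_1 (nat_lit 3) (nat_lit 56) (nat_lit 57) = true := by decide +kernel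
def p12_19_1_57 : pfC (piC [(nat_lit 37297016), (nat_lit 23751559), (nat_lit 15232604)] (nat_lit 11744142)) p12_19_1 (nat_lit 3) (nat_lit 57) (nat_lit 58) = true := by decide +kernel
def p12_19_1_58 : pfC (piC [(nat_lit 37297016), (nat_lit 23751559), (nat_lit 15232604)] (nat_lit 11744142)) p12_19_1 (nat_lit 3) (nat_lit 58) (nat_lit 59) = true := by decide +kernel
def p12_19_1_59 : pfC (piC [(nat_lit 37297016), (nat_lit 23751559), (nat_lit 15232604)] (nat_lit 11744142)) p12_19_1 (nat_lit 3) (nat_lit 59) (nat_lit 60) = true := by decide +kernel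
def p12_19_1_60 : pfC (piC [(nat_lit 37297016), (nat_lit 23751559), (nat_lit 15232604)] (nat_lit 11744142)) p12_19_1 (nat_lit 3) (nat_lit 60) (nat_lit 61) = true := by decide +kernel
def p12_19_1_61 : pfC (piC [(nat_lit 37297016), (nat_lit 23751559), (nat_lit 15232604)] (nat_lit 11744142)) p12_19_1 (nat_lit 3) (nat_lit 61) (nat_lit 62) = true := by decide +kernel
def p12_19_1_62 : pfC (piC [(nat_lit 37297016), (nat_lit 23751559), (nat_lit 15232604)] (nat_lit 11744142)) p12_19_1 (nat_lit 3) (nat_lit 62) (nat_lit 63) = true := by decide +kernel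
def p12_19_1_63 : pfC (piC [(nat_lit 37297016), (nat_lit 23751559), (nat_lit 15232604)] (nat_lit 11744142)) p12_19_1 (nat_lit 3) (nat_lit 63) (nat_lit 64) = true := by decide +kernel
def p12_19_1_64 : pfC (piC [(nat_lit 37297016), (nat_lit 23751559), (nat_lit 15232604)] (nat_lit 11744142)) p12_19_1 (nat_lit 3) (nat_lit 64) (nat_lit 65) = true := by decide +kernel
def p12_19_1_65 : pfC (piC [(nat_lit 37297016), (nat_lit 23751559), (nat_lit 15232604)] (nat_lit 11744142)) p12_19_1 (nat_lit 3) (nat_lit 65) (nat_lit 66) = true := by decide +kernel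
def p12_19_1_66 : pfC (piC [(nat_lit 37297016), (nat_lit 23751559), (nat_lit 15232604)] (nat_lit 11744142)) p12_19_1 (nat_lit 3) (nat_lit 66) (nat_lit 67) = true := by decide +kernel
def p12_19_1_67 : pfC (piC [(nat_lit 37297016), (nat_lit 23751559), (nat_lit 15232604)] (nat_lit 11744142)) p12_19_1 (nat_lit 3) (nat_lit 67) (nat_lit 68) = true := by decide +kernel
def p12_19_1_68 : pfC (piC [(nat_lit 37297016), (nat_lit 23751559), (nat_lit 15232604)] (nat_lit 11744142)) p12_19_1 (nat_lit 3) (nat_lit 68) (nat_lit 69) = true := by decide +kernel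
def p12_19_1_69 : pfC (piC [(nat_lit 37297016), (nat_lit 23751559), (nat_lit 15232604)] (nat_lit 11744142)) p12_19_1 (nat_lit 3) (nat_lit 69) (nat_lit 70) = true := by decide +kernel
def p12_19_1_70 : pfC (piC [(nat_lit 37297016), (nat_lit 23751559), (nat_lit 15232604)] (nat_lit 11744142)) p12_19_1 (nat_lit 3) (nat_lit 70) (nat_lit 71) = true := by decide +kernel
def p12_19_1_71 : pfC (piC [(nat_lit 37297016), (nat_lit 23751559), (nat_lit 15232604)] (nat_lit 11744142)) p12_19_1 (nat_lit 3) (nat_lit 71) (nat_lit 72) = true := by decide +kernel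
def p12_19_1_72 : pfC (piC [(nat_lit 37297016), (nat_lit 23751559), (nat_lit 15232604)] (nat_lit 11744142)) p12_19_1 (nat_lit 3) (nat_lit 72) (nat_lit 73) = true := by decide +kernel
def p12_19_1_73 : pfC (piC [(nat_lit 37297016), (nat_lit 23751559), (nat_lit 15232604)] (nat_lit 11744142)) p12_19_1 (nat_lit 3) (nat_lit 73) (nat_lit 74) = true := by decide +kernel
def p12_19_1_74 : pfC (piC [(nat_lit 37297016), (nat_lit 23751559), (nat_lit 15232604)] (nat_lit 11744142)) p12_19_1 (nat_lit 3) (nat_lit 74) (nat_lit 75) = true := by decide +kernel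
def p12_19_1_75 : pfC (piC [(nat_lit 37297016), (nat_lit 23751559), (nat_lit 15232604)] (nat_lit 11744142)) p12_19_1 (nat_lit 3) (nat_lit 75) (nat_lit 76) = true := by decide +kernel
def p12_19_1_76 : pfC (piC [(nat_lit 37297016), (nat_lit 23751559), (nat_lit 15232604)] (nat_lit 11744142)) p12_19_1 (nat_lit 3) (nat_lit 76) (nat_lit 77) = true := by decide +kernel
def p12_19_1_77 : pfC (piC [(nat_lit 37297016), (nat_lit 23751559), (nat_lit 15232604)] (nat_lit 11744142)) p12_19_1 (nat_lit 3) (nat_lit 77) (nat_lit 78) = true := by decide +kernel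
def p12_19_1_78 : pfC (piC [(nat_lit 37297016), (nat_lit 23751559), (nat_lit 15232604)] (nat_lit 11744142)) p12_19_1 (nat_lit 3) (nat_lit 78) (nat_lit 79) = true := by decide +kernel
def p12_19_1_79 : pfC (piC [(nat_lit 37297016), (nat_lit 23751559), (nat_lit 15232604)] (nat_lit 11744142)) p12_19_1 (nat_lit 3) (nat_lit 79) (nat_lit 80) = true := by decide +kernel
def p12_19_1_80 : pfC (piC [(nat_lit 37297016), (nat_lit 23751559), (nat_lit 15232604)] (nat_lit 11744142)) p12_19_1 (nat_lit 3) (nat_lit 80) (nat_lit 81) = true := by decide +kernel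
def p12_19_1_81 : pfC (piC [(nat_lit 37297016), (nat_lit 23751559), (nat_lit 15232604)] (nat_lit 11744142)) p12_19_1 (nat_lit 3) (nat_lit 81) (nat_lit 82) = true := by decide +kernel
def p12_19_1_82 : pfC (piC [(nat_lit 37297016), (nat_lit 23751559), (nat_lit 15232604)] (nat_lit 11744142)) p12_19_1 (nat_lit 3) (nat_lit 82) (nat_lit 83) = true := by decide +kernel
def p12_19_1_83 : pfC (piC [(nat_lit 37297016), (nat_lit 23751559), (nat_lit 15232604)] (nat_lit 11744142)) p12_19_1 (nat_lit 3) (nat_lit 83) (nat_lit 84) = true := by decide +kernel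
def p12_19_1_84 : pfC (piC [(nat_lit 37297016), (nat_lit 23751559), (nat_lit 15232604)] (nat_lit 11744142)) p12_19_1 (nat_lit 3) (nat_lit 84) (nat_lit 85) = true := by decide +kernel
def p12_19_1_85 : pfC (piC [(nat_lit 37297016), (nat_lit 23751559), (nat_lit 15232604)] (nat_lit 11744142)) p12_19_1 (nat_lit 3) (nat_lit 85) (nat_lit 86) = true := by decide +kernel
def p12_19_1_86 : pfC (piC [(nat_lit 37297016), (nat_lit 23751559), (nat_lit 15232604)] (nat_lit 11744142)) p12_19_1 (nat_lit 3) (nat_lit 86) (nat_lit 87) = true := by decide +kernel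
def p12_19_1_87 : pfC (piC [(nat_lit 37297016), (nat_lit 23751559), (nat_lit 15232604)] (nat_lit 11744142)) p12_19_1 (nat_lit 3) (nat_lit 87) (nat_lit 88) = true := by decide +kernel
def p12_19_1_88 : pfC (piC [(nat_lit 37297016), (nat_lit 23751559), (nat_lit 15232604)] (nat_lit 11744142)) p12_19_1 (nat_lit 3) (nat_lit 88) (nat_lit 89) = true := by decide +kernel
def p12_19_1_89 : pfC (piC [(nat_lit 37297016), (nat_lit 23751559), (nat_lit 15232604)] (nat_lit 11744142)) p12_19_1 (nat_lit 3) (nat_lit 89) (nat_lit 90) = true := by decide +kernel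
def p12_19_1_90 : pfC (piC [(nat_lit 37297016), (nat_lit 23751559), (nat_lit 15232604)] (nat_lit 11744142)) p12_19_1 (nat_lit 3) (nat_lit 90) (nat_lit 91) = true := by decide +kernel
def p12_19_1_91 : pfC (piC [(nat_lit 37297016), (nat_lit 23751559), (nat_lit 15232604)] (nat_lit 11744142)) p12_19_1 (nat_lit 3) (nat_lit 91) (nat_lit 92) = true := by decide +kernel
def p12_19_1_92 : pfC (piC [(nat_lit 37297016), (nat_lit 23751559), (nat_lit 15232604)] (nat_lit 11744142)) p12_19_1 (nat_lit 3) (nat_lit 92) (nat_lit 93) = true := by decide +kernel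
def p12_19_1_93 : pfC (piC [(nat_lit 37297016), (nat_lit 23751559), (nat_lit 15232604)] (nat_lit 11744142)) p12_19_1 (nat_lit 3) (nat_lit 93) (nat_lit 94) = true := by decide +kernel
def p12_19_1_94 : pfC (piC [(nat_lit 37297016), (nat_lit 23751559), (nat_lit 15232604)] (nat_lit 11744142)) p12_19_1 (nat_lit 3) (nat_lit 94) (nat_lit 95) = true := by decide +kernel
def p12_19_1_95 : pfC (piC [(nat_lit 37297016), (nat_lit 23751559), (nat_lit 15232604)] (nat_lit 11744142)) p12_19_1 (nat_lit 3) (nat_lit 95) (nat_lit 96) = true := by decide +kernel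
def p12_19_1_96 : pfC (piC [(nat_lit 37297016), (nat_lit 23751559), (nat_lit 15232604)] (nat_lit 11744142)) p12_19_1 (nat_lit 3) (nat_lit 96) (nat_lit 97) = true := by decide +kernel
def p12_19_1_97 : pfC (piC [(nat_lit 37297016), (nat_lit 23751559), (nat_lit 15232604)] (nat_lit 11744142)) p12_19_1 (nat_lit 3) (nat_lit 97) (nat_lit 98) = true := by decide +kernel
def p12_19_1_98 : pfC (piC [(nat_lit 37297016), (nat_lit 23751559), (nat_lit 15232604)] (nat_lit 11744142)) p12_19_1 (nat_lit 3) (nat_lit 98) (nat_lit 99) = true := by decide +kernel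
def p12_19_1_99 : pfC (piC [(nat_lit 37297016), (nat_lit 23751559), (nat_lit 15232604)] (nat_lit 11744142)) p12_19_1 (nat_lit 3) (nat_lit 99) (nat_lit 100) = true := by decide +kernel
def p12_19_1_100 : pfC (piC [(nat_lit 37297016), (nat_lit 23751559), (nat_lit 15232604)] (nat_lit 11744142)) p12_19_1 (nat_lit 3) (nat_lit 100) (nat_lit 101) = true := by decide +kernel
def p12_19_1_101 : pfC (piC [(nat_lit 37297016), (nat_lit 23751559), (nat_lit 15232604)] (nat_lit 11744142)) p12_19_1 (nat_lit 3) (nat_lit 101) (nat_lit 102) = true := by decide +kernel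
def p12_19_1_102 : pfC (piC [(nat_lit 37297016), (nat_lit 23751559), (nat_lit 15232604)] (nat_lit 11744142)) p12_19_1 (nat_lit 3) (nat_lit 102) (nat_lit 103) = true := by decide +kernel
def p12_19_1_103 : pfC (piC [(nat_lit 37297016), (nat_lit 23751559), (nat_lit 15232604)] (nat_lit 11744142)) p12_19_1 (nat_lit 3) (nat_lit 103) (nat_lit 104) = true := by decide +kernel
def p12_19_1_104 : pfC (piC [(nat_lit 37297016), (nat_lit 23751559), (nat_lit 15232604)] (nat_lit 11744142)) p12_19_1 (nat_lit 3) (nat_lit 104) (nat_lit 105) = true := by decide +kernel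
def p12_19_1_105 : pfC (piC [(nat_lit 37297016), (nat_lit 23751559), (nat_lit 15232604)] (nat_lit 11744142)) p12_19_1 (nat_lit 3) (nat_lit 105) (nat_lit 106) = true := by decide +kernel
def p12_19_1_106 : pfC (piC [(nat_lit 37297016), (nat_lit 23751559), (nat_lit 15232604)] (nat_lit 11744142)) p12_19_1 (nat_lit 3) (nat_lit 106) (nat_lit 107) = true := by decide +kernel
def p12_19_1_107 : pfC (piC [(nat_lit 37297016), (nat_lit 23751559), (nat_lit 15232604)] (nat_lit 11744142)) p12_19_1 (nat_lit 3) (nat_lit 107) (nat_lit 108) = true := by decide +kernel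
def p12_19_1_108 : pfC (piC [(nat_lit 37297016), (nat_lit 23751559), (nat_lit 15232604)] (nat_lit 11744142)) p12_19_1 (nat_lit 3) (nat_lit 108) (nat_lit 109) = true := by decide +kernel
def p12_19_1_109 : pfC (piC [(nat_lit 37297016), (nat_lit 23751559), (nat_lit 15232604)] (nat_lit 11744142)) p12_19_1 (nat_lit 3) (nat_lit 109) (nat_lit 110) = true := by decide +kernel
def p12_19_1_110 : pfC (piC [(nat_lit 37297016), (nat_lit 23751559), (nat_lit 15232604)] (nat_lit 11744142)) p12_19_1 (nat_lit 3) (nat_lit 110) (nat_lit 111) = true := by decide +kernel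
def p12_19_1_111 : pfC (piC [(nat_lit 37297016), (nat_lit 23751559), (nat_lit 15232604)] (nat_lit 11744142)) p12_19_1 (nat_lit 3) (nat_lit 111) (nat_lit 112) = true := by decide +kernel
def p12_19_1_112 : pfC (piC [(nat_lit 37297016), (nat_lit 23751559), (nat_lit 15232604)] (nat_lit 11744142)) p12_19_1 (nat_lit 3) (nat_lit 112) (nat_lit 113) = true := by decide +kernel
def p12_19_1_113 : pfC (piC [(nat_lit 37297016), (nat_lit 23751559), (nat_lit 15232604)] (nat_lit 11744142)) p12_19_1 (nat_lit 3) (nat_lit 113) (nat_lit 114) = true := by decide +kernel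
def p12_19_1_114 : pfC (piC [(nat_lit 37297016), (nat_lit 23751559), (nat_lit 15232604)] (nat_lit 11744142)) p12_19_1 (nat_lit 3) (nat_lit 114) (nat_lit 115) = true := by decide +kernel
def p12_19_1_115 : pfC (piC [(nat_lit 37297016), (nat_lit 23751559), (nat_lit 15232604)] (nat_lit 11744142)) p12_19_1 (nat_lit 3) (nat_lit 115) (nat_lit 116) = true := by decide +kernel
def p12_19_1_116 : pfC (piC [(nat_lit 37297016), (nat_lit 23751559), (nat_lit 15232604)] (nat_lit 11744142)) p12_19_1 (nat_lit 3) (nat_lit 116) (nat_lit 117) = true := by decide +kernel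
def p12_19_1_117 : pfC (piC [(nat_lit 37297016), (nat_lit 23751559), (nat_lit 15232604)] (nat_lit 11744142)) p12_19_1 (nat_lit 3) (nat_lit 117) (nat_lit 118) = true := by decide +kernel
def p12_19_1_118 : pfC (piC [(nat_lit 37297016), (nat_lit 23751559), (nat_lit 15232604)] (nat_lit 11744142)) p12_19_1 (nat_lit 3) (nat_lit 118) (nat_lit 119) = true := by decide +kernel
def p12_19_1_119 : pfC (piC [(nat_lit 37297016), (nat_lit 23751559), (nat_lit 15232604)] (nat_lit 11744142)) p12_19_1 (nat_lit 3) (nat_lit 119) (nat_lit 120) = true := by decide +kernel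
def p12_19_1_120 : pfC (piC [(nat_lit 37297016), (nat_lit 23751559), (nat_lit 15232604)] (nat_lit 11744142)) p12_19_1 (nat_lit 3) (nat_lit 120) (nat_lit 121) = true := by decide +kernel
def p12_19_1_121 : pfC (piC [(nat_lit 37297016), (nat_lit 23751559), (nat_lit 15232604)] (nat_lit 11744142)) p12_19_1 (nat_lit 3) (nat_lit 121) (nat_lit 122) = true := by decide +kernel
def p12_19_1_122 : pfC (piC [(nat_lit 37297016), (nat_lit 23751559), (nat_lit 15232604)] (nat_lit 11744142)) p12_19_1 (nat_lit 3) (nat_lit 122) (nat_lit 123) = true := by decide +kernel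
def p12_19_1_123 : pfC (piC [(nat_lit 37297016), (nat_lit 23751559), (nat_lit 15232604)] (nat_lit 11744142)) p12_19_1 (nat_lit 3) (nat_lit 123) (nat_lit 124) = true := by decide +kernel
def p12_19_1_124 : pfC (piC [(nat_lit 37297016), (nat_lit 23751559), (nat_lit 15232604)] (nat_lit 11744142)) p12_19_1 (nat_lit 3) (nat_lit 124) (nat_lit 125) = true := by decide +kernel
def p12_19_1_125 : pfC (piC [(nat_lit 37297016), (nat_lit 23751559), (nat_lit 15232604)] (nat_lit 11744142)) p12_19_1 (nat_lit 3) (nat_lit 125) (nat_lit 126) = true := by decide +kernel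
def p12_19_1_126 : pfC (piC [(nat_lit 37297016), (nat_lit 23751559), (nat_lit 15232604)] (nat_lit 11744142)) p12_19_1 (nat_lit 3) (nat_lit 126) (nat_lit 127) = true := by decide +kernel
def p12_19_1_127 : pfC (piC [(nat_lit 37297016), (nat_lit 23751559), (nat_lit 15232604)] (nat_lit 11744142)) p12_19_1 (nat_lit 3) (nat_lit 127) (nat_lit 128) = true := by decide +kernel
def p12_19_1_128 : pfC (piC [(nat_lit 37297016), (nat_lit 23751559), (nat_lit 15232604)] (nat_lit 11744142)) p12_19_1 (nat_lit 3) (nat_lit 128) (nat_lit 129) = true := by decide +kernel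
def p12_19_1_129 : pfC (piC [(nat_lit 37297016), (nat_lit 23751559), (nat_lit 15232604)] (nat_lit 11744142)) p12_19_1 (nat_lit 3) (nat_lit 129) (nat_lit 130) = true := by decide +kernel
def p12_19_1_130 : pfC (piC [(nat_lit 37297016), (nat_lit 23751559), (nat_lit 15232604)] (nat_lit 11744142)) p12_19_1 (nat_lit 3) (nat_lit 130) (nat_lit 131) = true := by decide +kernel
def p12_19_1_131 : pfC (piC [(nat_lit 37297016), (nat_lit 23751559), (nat_lit 15232604)] (nat_lit 11744142)) p12_19_1 (nat_lit 3) (nat_lit 131) (nat_lit 132) = true := by decide +kernel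
def p12_19_1_132 : pfC (piC [(nat_lit 37297016), (nat_lit 23751559), (nat_lit 15232604)] (nat_lit 11744142)) p12_19_1 (nat_lit 3) (nat_lit 132) (nat_lit 133) = true := by decide +kernel
def p12_19_1_133 : pfC (piC [(nat_lit 37297016), (nat_lit 23751559), (nat_lit 15232604)] (nat_lit 11744142)) p12_19_1 (nat_lit 3) (nat_lit 133) (nat_lit 134) = true := by decide +kernel
def p12_19_1_134 : pfC (piC [(nat_lit 37297016), (nat_lit 23751559), (nat_lit 15232604)] (nat_lit 11744142)) p12_19_1 (nat_lit 3) (nat_lit 134) (nat_lit 135) = true := by decide +kernel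
def p12_19_1_135 : pfC (piC [(nat_lit 37297016), (nat_lit 23751559), (nat_lit 15232604)] (nat_lit 11744142)) p12_19_1 (nat_lit 3) (nat_lit 135) (nat_lit 136) = true := by decide +kernel
def p12_19_1_136 : pfC (piC [(nat_lit 37297016), (nat_lit 23751559), (nat_lit 15232604)] (nat_lit 11744142)) p12_19_1 (nat_lit 3) (nat_lit 136) (nat_lit 137) = true := by decide +kernel
def p12_19_1_137 : pfC (piC [(nat_lit 37297016), (nat_lit 23751559), (nat_lit 15232604)] (nat_lit 11744142)) p12_19_1 (nat_lit 3) (nat_lit 137) (nat_lit 138) = true := by decide +kernel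
def p12_19_1_138 : pfC (piC [(nat_lit 37297016), (nat_lit 23751559), (nat_lit 15232604)] (nat_lit 11744142)) p12_19_1 (nat_lit 3) (nat_lit 138) (nat_lit 139) = true := by decide +kernel
def p12_19_1_139 : pfC (piC [(nat_lit 37297016), (nat_lit 23751559), (nat_lit 15232604)] (nat_lit 11744142)) p12_19_1 (nat_lit 3) (nat_lit 139) (nat_lit 140) = true := by decide +kernel
def p12_19_1_140 : pfC (piC [(nat_lit 37297016), (nat_lit 23751559), (nat_lit 15232604)] (nat_lit 11744142)) p12_19_1 (nat_lit 3) (nat_lit 140) (nat_lit 141) = true := by decide +kernel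
def p12_19_1_141 : pfC (piC [(nat_lit 37297016), (nat_lit 23751559), (nat_lit 15232604)] (nat_lit 11744142)) p12_19_1 (nat_lit 3) (nat_lit 141) (nat_lit 142) = true := by decide +kernel
def p12_19_1_142 : pfC (piC [(nat_lit 37297016), (nat_lit 23751559), (nat_lit 15232604)] (nat_lit 11744142)) p12_19_1 (nat_lit 3) (nat_lit 142) (nat_lit 143) = true := by decide +kernel
def p12_19_1_143 : pfC (piC [(nat_lit 37297016), (nat_lit 23751559), (nat_lit 15232604)] (nat_lit 11744142)) p12_19_1 (nat_lit 3) (nat_lit 143) (nat_lit 144) = true := by decide +kernel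
def p12_19_1_144 : pfC (piC [(nat_lit 37297016), (nat_lit 23751559), (nat_lit 15232604)] (nat_lit 11744142)) p12_19_1 (nat_lit 3) (nat_lit 144) (nat_lit 145) = true := by decide +kernel
def p12_19_1_145 : pfC (piC [(nat_lit 37297016), (nat_lit 23751559), (nat_lit 15232604)] (nat_lit 11744142)) p12_19_1 (nat_lit 3) (nat_lit 145) (nat_lit 146) = true := by decide +kernel
def p12_19_1_146 : pfC (piC [(nat_lit 37297016), (nat_lit 23751559), (nat_lit 15232604)] (nat_lit 11744142)) p12_19_1 (nat_lit 3) (nat_lit 146) (nat_lit 147) = true := by decide +kernel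
def p12_19_1_147 : pfC (piC [(nat_lit 37297016), (nat_lit 23751559), (nat_lit 15232604)] (nat_lit 11744142)) p12_19_1 (nat_lit 3) (nat_lit 147) (nat_lit 148) = true := by decide +kernel
def p12_19_1_148 : pfC (piC [(nat_lit 37297016), (nat_lit 23751559), (nat_lit 15232604)] (nat_lit 11744142)) p12_19_1 (nat_lit 3) (nat_lit 148) (nat_lit 149) = true := by decide +kernel
def p12_19_1_149 : pfC (piC [(nat_lit 37297016), (nat_lit 23751559), (nat_lit 15232604)] (nat_lit 11744142)) p12_19_1 (nat_lit 3) (nat_lit 149) (nat_lit 150) = true := by decide +kernel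
def p12_19_1_150 : pfC (piC [(nat_lit 37297016), (nat_lit 23751559), (nat_lit 15232604)] (nat_lit 11744142)) p12_19_1 (nat_lit 3) (nat_lit 150) (nat_lit 151) = true := by decide +kernel
def p12_19_1_151 : pfC (piC [(nat_lit 37297016), (nat_lit 23751559), (nat_lit 15232604)] (nat_lit 11744142)) p12_19_1 (nat_lit 3) (nat_lit 151) (nat_lit 152) = true := by decide +kernel
def p12_19_1_152 : pfC (piC [(nat_lit 37297016), (nat_lit 23751559), (nat_lit 15232604)] (nat_lit 11744142)) p12_19_1 (nat_lit 3) (nat_lit 152) (nat_lit 153) = true := by decide +kernel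
def p12_19_1_153 : pfC (piC [(nat_lit 37297016), (nat_lit 23751559), (nat_lit 15232604)] (nat_lit 11744142)) p12_19_1 (nat_lit 3) (nat_lit 153) (nat_lit 154) = true := by decide +kernel
def p12_19_1_154 : pfC (piC [(nat_lit 37297016), (nat_lit 23751559), (nat_lit 15232604)] (nat_lit 11744142)) p12_19_1 (nat_lit 3) (nat_lit 154) (nat_lit 155) = true := by decide +kernel
def p12_19_1_155 : pfC (piC [(nat_lit 37297016), (nat_lit 23751559), (nat_lit 15232604)] (nat_lit 11744142)) p12_19_1 (nat_lit 3) (nat_lit 155) (nat_lit 156) = true := by decide +kernel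
def p12_19_1_156 : pfC (piC [(nat_lit 37297016), (nat_lit 23751559), (nat_lit 15232604)] (nat_lit 11744142)) p12_19_1 (nat_lit 3) (nat_lit 156) (nat_lit 157) = true := by decide +kernel
def p12_19_1_157 : pfC (piC [(nat_lit 37297016), (nat_lit 23751559), (nat_lit 15232604)] (nat_lit 11744142)) p12_19_1 (nat_lit 3) (nat_lit 157) (nat_lit 158) = true := by decide +kernel
def p12_19_1_158 : pfC (piC [(nat_lit 37297016), (nat_lit 23751559), (nat_lit 15232604)] (nat_lit 11744142)) p12_19_1 (nat_lit 3) (nat_lit 158) (nat_lit 159) = true := by decide +kernel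
def p12_19_1_159 : pfC (piC [(nat_lit 37297016), (nat_lit 23751559), (nat_lit 15232604)] (nat_lit 11744142)) p12_19_1 (nat_lit 3) (nat_lit 159) (nat_lit 160) = true := by decide +kernel
def p12_19_1_160 : pfC (piC [(nat_lit 37297016), (nat_lit 23751559), (nat_lit 15232604)] (nat_lit 11744142)) p12_19_1 (nat_lit 3) (nat_lit 160) (nat_lit 161) = true := by decide +kernel
def p12_19_1_161 : pfC (piC [(nat_lit 37297016), (nat_lit 23751559), (nat_lit 15232604)] (nat_lit 11744142)) p12_19_1 (nat_lit 3) (nat_lit 161) (nat_lit 162) = true := by decide +kernel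
def p12_19_1_162 : pfC (piC [(nat_lit 37297016), (nat_lit 23751559), (nat_lit 15232604)] (nat_lit 11744142)) p12_19_1 (nat_lit 3) (nat_lit 162) (nat_lit 163) = true := by decide +kernel
def p12_19_1_163 : pfC (piC [(nat_lit 37297016), (nat_lit 23751559), (nat_lit 15232604)] (nat_lit 11744142)) p12_19_1 (nat_lit 3) (nat_lit 163) (nat_lit 164) = true := by decide +kernel
def p12_19_1_164 : pfC (piC [(nat_lit 37297016), (nat_lit 23751559), (nat_lit 15232604)] (nat_lit 11744142)) p12_19_1 (nat_lit 3) (nat_lit 164) (nat_lit 165) = true := by decide +kernel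
def p12_19_1_165 : pfC (piC [(nat_lit 37297016), (nat_lit 23751559), (nat_lit 15232604)] (nat_lit 11744142)) p12_19_1 (nat_lit 3) (nat_lit 165) (nat_lit 166) = true := by decide +kernel
def p12_19_1_166 : pfC (piC [(nat_lit 37297016), (nat_lit 23751559), (nat_lit 15232604)] (nat_lit 11744142)) p12_19_1 (nat_lit 3) (nat_lit 166) (nat_lit 167) = true := by decide +kernel
def p12_19_1_167 : pfC (piC [(nat_lit 37297016), (nat_lit 23751559), (nat_lit 15232604)] (nat_lit 11744142)) p12_19_1 (nat_lit 3) (nat_lit 167) (nat_lit 168) = true := by decide +kernel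
def p12_19_1_168 : pfC (piC [(nat_lit 37297016), (nat_lit 23751559), (nat_lit 15232604)] (nat_lit 11744142)) p12_19_1 (nat_lit 3) (nat_lit 168) (nat_lit 169) = true := by decide +kernel
def p12_19_1_169 : pfC (piC [(nat_lit 37297016), (nat_lit 23751559), (nat_lit 15232604)] (nat_lit 11744142)) p12_19_1 (nat_lit 3) (nat_lit 169) (nat_lit 170) = true := by decide +kernel
def p12_19_1_170 : pfC (piC [(nat_lit 37297016), (nat_lit 23751559), (nat_lit 15232604)] (nat_lit 11744142)) p12_19_1 (nat_lit 3) (nat_lit 170) (nat_lit 171) = true := by decide +kernel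
def p12_19_1_171 : pfC (piC [(nat_lit 37297016), (nat_lit 23751559), (nat_lit 15232604)] (nat_lit 11744142)) p12_19_1 (nat_lit 3) (nat_lit 171) (nat_lit 172) = true := by decide +kernel
def p12_19_1_172 : pfC (piC [(nat_lit 37297016), (nat_lit 23751559), (nat_lit 15232604)] (nat_lit 11744142)) p12_19_1 (nat_lit 3) (nat_lit 172) (nat_lit 173) = true := by decide +kernel
def p12_19_1_173 : pfC (piC [(nat_lit 37297016), (nat_lit 23751559), (nat_lit 15232604)] (nat_lit 11744142)) p12_19_1 (nat_lit 3) (nat_lit 173) (nat_lit 174) = true := by decide +kernel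
def p12_19_1_174 : pfC (piC [(nat_lit 37297016), (nat_lit 23751559), (nat_lit 15232604)] (nat_lit 11744142)) p12_19_1 (nat_lit 3) (nat_lit 174) (nat_lit 175) = true := by decide +kernel
def p12_19_1_175 : pfC (piC [(nat_lit 37297016), (nat_lit 23751559), (nat_lit 15232604)] (nat_lit 11744142)) p12_19_1 (nat_lit 3) (nat_lit 175) (nat_lit 176) = true := by decide +kernel
def p12_19_1_176 : pfC (piC [(nat_lit 37297016), (nat_lit 23751559), (nat_lit 15232604)] (nat_lit 11744142)) p12_19_1 (nat_lit 3) (nat_lit 176) (nat_lit 177) = true := by decide +kernel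
def p12_19_1_177 : pfC (piC [(nat_lit 37297016), (nat_lit 23751559), (nat_lit 15232604)] (nat_lit 11744142)) p12_19_1 (nat_lit 3) (nat_lit 177) (nat_lit 178) = true := by decide +kernel
def p12_19_1_178 : pfC (piC [(nat_lit 37297016), (nat_lit 23751559), (nat_lit 15232604)] (nat_lit 11744142)) p12_19_1 (nat_lit 3) (nat_lit 178) (nat_lit 179) = true := by decide +kernel
def p12_19_1_179 : pfC (piC [(nat_lit 37297016), (nat_lit 23751559), (nat_lit 15232604)] (nat_lit 11744142)) p12_19_1 (nat_lit 3) (nat_lit 179) (nat_lit 180) = true := by decide +kernel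
def p12_19_1_180 : pfC (piC [(nat_lit 37297016), (nat_lit 23751559), (nat_lit 15232604)] (nat_lit 11744142)) p12_19_1 (nat_lit 3) (nat_lit 180) (nat_lit 181) = true := by decide +kernel
def p12_19_1_181 : pfC (piC [(nat_lit 37297016), (nat_lit 23751559), (nat_lit 15232604)] (nat_lit 11744142)) p12_19_1 (nat_lit 3) (nat_lit 181) (nat_lit 182) = true := by decide +kernel
def p12_19_1_182 : pfC (piC [(nat_lit 37297016), (nat_lit 23751559), (nat_lit 15232604)] (nat_lit 11744142)) p12_19_1 (nat_lit 3) (nat_lit 182) (nat_lit 183) = true := by decide +kernel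
theorem p12_19_1_T : PfS (PiF n12_19.reverse (nat_lit 11744142)) p12_19_1 (nat_lit 3) [] 0 :=
  pftab_of (los := [(nat_lit 37297016), (nat_lit 23751559), (nat_lit 15232604)]) (by decide +kernel) (hi := (nat_lit 183)) (PfP.trans (PfP.trans (PfP.trans (PfP.trans (PfP.trans (PfP.trans (PfP.trans (PfP.trans (PfP.trans (PfP.trans (PfP.trans (PfP.trans (PfP.trans (PfP.trans (PfP.trans (PfP.trans (PfP.trans (PfP.trans (PfP.trans (PfP.trans (PfP.trans (PfP.trans (PfP.trans (PfP.trans (PfP.trans (PfP.trans (PfP.trans (PfP.trans (PfP.trans (PfP.trans (PfP.trans (PfP.trans (PfP.trans (PfP.trans (PfP.trans (PfP.trans (PfP.trans (PfP.trans (PfP.trans (PfP.trans (PfP.trans (PfP.trans (PfP.trans (PfP.trans (PfP.trans (PfP.trans (PfP.trans (PfP.trans (PfP.trans (PfP.trans (PfP.trans (PfP.trans (PfP.trans (PfP.trans (PfP.trans (PfP.trans (PfP.trans (PfP.trans (PfP.trans (PfP.trans (PfP.trans (PfP.trans (PfP.trans (PfP.trans (PfP.trans (PfP.trans (PfP.trans (PfP.trans (PfP.trans (PfP.trans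 (PfP.trans (PfP.trans (PfP.trans (PfP.trans (PfP.trans (PfP.trans (PfP.trans (PfP.trans (PfP.trans (PfP.trans (PfP.trans (PfP.trans (PfP.trans (PfP.trans (PfP.trans (PfP.trans (PfP.trans (PfP.trans (PfP.trans (PfP.trans (PfP.trans (PfP.trans (PfP.trans (PfP.trans (PfP.trans (PfP.trans (PfP.trans (PfP.trans (PfP.trans (PfP.trans (PfP.trans (PfP.trans (PfP.trans (PfP.trans (PfP.trans (PfP.trans (PfP.trans (PfP.trans (PfP.trans
 (PfP.trans (PfP.trans (PfP.trans (PfP.trans (PfP.trans (PfP.trans (PfP.trans (PfP.trans (PfP.trans (PfP.trans (PfP.trans (PfP.trans (PfP.trans (PfP.trans (PfP.trans (PfP.trans (PfP.trans (PfP.trans (PfP.trans (PfP.trans (PfP.trans (PfP.trans (PfP.trans (PfP.trans (PfP.trans (PfP.trans (PfP.trans (PfP.trans (PfP.trans (PfP.trans (PfP.trans (PfP.trans (PfP.trans (PfP.trans (PfP.trans (PfP.trans (PfP.trans (PfP.trans (PfP.trans (PfP.trans (PfP.trans (PfP.trans (PfP.trans (PfP.trans (PfP.trans (PfP.trans (PfP.trans (PfP.trans (PfP.trans (PfP.trans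 (PfP.trans (PfP.trans (PfP.trans (PfP.trans (PfP.trans (PfP.trans (PfP.trans (PfP.trans (PfP.trans (PfP.trans (PfP.trans (PfP.trans (PfP.trans (PfP.trans (PfP.trans (PfP.trans (PfP.trans (PfP.trans (PfP.trans (PfP.trans (PfP.trans (PfP.trans (PfP.trans (pfC_sound p12_19_1_0) (pfC_sound p12_19_1_1)) (pfC_sound p12_19_1_2)) (pfC_sound p12_19_1_3)) (pfC_sound p12_19_1_4)) (pfC_sound p12_19_1_5)) (pfC_sound p12_19_1_6)) (pfC_sound p12_19_1_7)) (pfC_sound p12_19_1_8)) (pfC_sound p12_19_1_9)) (pfC_sound p12_19_1_10)) (pfC_sound p12_19_1_11)) (pfC_sound p12_19_1_12)) (pfC_sound p12_19_1_13)) (pfC_sound p12_19_1_14)) (pfC_sound p12_19_1_15))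
 (pfC_sound p12_19_1_16)) (pfC_sound p12_19_1_17)) (pfC_sound p12_19_1_18)) (pfC_sound p12_19_1_19)) (pfC_sound p12_19_1_20)) (pfC_sound p12_19_1_21)) (pfC_sound p12_19_1_22)) (pfC_sound p12_19_1_23)) (pfC_sound p12_19_1_24)) (pfC_sound p12_19_1_25)) (pfC_sound p12_19_1_26)) (pfC_sound p12_19_1_27)) (pfC_sound p12_19_1_28)) (pfC_sound p12_19_1_29)) (pfC_sound p12_19_1_30)) (pfC_sound p12_19_1_31)) (pfC_sound p12_19_1_32)) (pfC_sound p12_19_1_33)) (pfC_sound p12_19_1_34)) (pfC_sound p12_19_1_35)) (pfC_sound p12_19_1_36)) (pfC_sound p12_19_1_37)) (pfC_sound p12_19_1_38)) (pfC_sound p12_19_1_39)) (pfC_sound p12_19_1_40)) (pfC_sound p12_19_1_41)) (pfC_sound p12_19_1_42)) (pfC_sound p12_19_1_43)) (pfC_sound p12_19_1_44)) (pfC_sound p12_19_1_45)) (pfC_sound p12_19_1_46)) (pfC_sound p12_19_1_47)) (pfC_sound p12_19_1_48)) (pfC_sound p12_19_1_49)) (pfC_sound p12_19_1_50)) (pfC_sound p12_19_1_51)) (pfC_sound p12_19_1_52)) (pfC_sound p12_19_1_53)) (pfC_sound p12_19_1_54)) (pfC_sound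 p12_19_1_55)) (pfC_sound p12_19_1_56)) (pfC_sound p12_19_1_57)) (pfC_sound p12_19_1_58)) (pfC_sound p12_19_1_59)) (pfC_sound p12_19_1_60)) (pfC_sound p12_19_1_61)) (pfC_sound p12_19_1_62)) (pfC_sound p12_19_1_63))
 (pfC_sound p12_19_1_64)) (pfC_sound p12_19_1_65)) (pfC_sound p12_19_1_66)) (pfC_sound p12_19_1_67)) (pfC_sound p12_19_1_68)) (pfC_sound p12_19_1_69)) (pfC_sound p12_19_1_70)) (pfC_sound p12_19_1_71)) (pfC_sound p12_19_1_72)) (pfC_sound p12_19_1_73)) (pfC_sound p12_19_1_74)) (pfC_sound p12_19_1_75)) (pfC_sound p12_19_1_76)) (pfC_sound p12_19_1_77)) (pfC_sound p12_19_1_78)) (pfC_sound p12_19_1_79)) (pfC_sound p12_19_1_80)) (pfC_sound p12_19_1_81)) (pfC_sound p12_19_1_82)) (pfC_sound p12_19_1_83)) (pfC_sound p12_19_1_84)) (pfC_sound p12_19_1_85)) (pfC_sound p12_19_1_86)) (pfC_sound p12_19_1_87)) (pfC_sound p12_19_1_88)) (pfC_sound p12_19_1_89)) (pfC_sound p12_19_1_90)) (pfC_sound p12_19_1_91)) (pfC_sound p12_19_1_92)) (pfC_sound p12_19_1_93)) (pfC_sound p12_19_1_94))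 (pfC_sound p12_19_1_95)) (pfC_sound p12_19_1_96)) (pfC_sound p12_19_1_97)) (pfC_sound p12_19_1_98)) (pfC_sound p12_19_1_99)) (pfC_sound p12_19_1_100)) (pfC_sound p12_19_1_101)) (pfC_sound p12_19_1_102)) (pfC_sound p12_19_1_103)) (pfC_sound p12_19_1_104)) (pfC_sound p12_19_1_105)) (pfC_sound p12_19_1_106)) (pfC_sound p12_19_1_107)) (pfC_sound p12_19_1_108)) (pfC_sound p12_19_1_109)) (pfC_sound p12_19_1_110)) (pfC_sound
 p12_19_1_111)) (pfC_sound p12_19_1_112)) (pfC_sound p12_19_1_113)) (pfC_sound p12_19_1_114)) (pfC_sound p12_19_1_115)) (pfC_sound p12_19_1_116)) (pfC_sound p12_19_1_117)) (pfC_sound p12_19_1_118)) (pfC_sound p12_19_1_119)) (pfC_sound p12_19_1_120)) (pfC_sound p12_19_1_121)) (pfC_sound p12_19_1_122)) (pfC_sound p12_19_1_123)) (pfC_sound p12_19_1_124)) (pfC_sound p12_19_1_125)) (pfC_sound p12_19_1_126)) (pfC_sound p12_19_1_127)) (pfC_sound p12_19_1_128)) (pfC_sound p12_19_1_129)) (pfC_sound p12_19_1_130)) (pfC_sound p12_19_1_131)) (pfC_sound p12_19_1_132))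 (pfC_sound p12_19_1_133)) (pfC_sound p12_19_1_134)) (pfC_sound p12_19_1_135)) (pfC_sound p12_19_1_136)) (pfC_sound p12_19_1_137)) (pfC_sound p12_19_1_138)) (pfC_sound p12_19_1_139)) (pfC_sound p12_19_1_140)) (pfC_sound p12_19_1_141)) (pfC_sound p12_19_1_142)) (pfC_sound p12_19_1_143)) (pfC_sound p12_19_1_144)) (pfC_sound p12_19_1_145)) (pfC_sound p12_19_1_146)) (pfC_sound p12_19_1_147)) (pfC_sound p12_19_1_148)) (pfC_sound p12_19_1_149)) (pfC_sound p12_19_1_150)) (pfC_sound p12_19_1_151)) (pfC_sound p12_19_1_152)) (pfC_sound p12_19_1_153)) (pfC_sound p12_19_1_154)) (pfC_sound p12_19_1_155)) (pfC_sound p12_19_1_156)) (pfC_sound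
 p12_19_1_157)) (pfC_sound p12_19_1_158)) (pfC_sound p12_19_1_159)) (pfC_sound p12_19_1_160)) (pfC_sound p12_19_1_161)) (pfC_sound p12_19_1_162)) (pfC_sound p12_19_1_163)) (pfC_sound p12_19_1_164)) (pfC_sound p12_19_1_165)) (pfC_sound p12_19_1_166)) (pfC_sound p12_19_1_167)) (pfC_sound p12_19_1_168)) (pfC_sound p12_19_1_169)) (pfC_sound p12_19_1_170)) (pfC_sound p12_19_1_171)) (pfC_sound p12_19_1_172)) (pfC_sound p12_19_1_173)) (pfC_sound p12_19_1_174)) (pfC_sound p12_19_1_175)) (pfC_sound p12_19_1_176)) (pfC_sound p12_19_1_177)) (pfC_sound p12_19_1_178)) (pfC_sound p12_19_1_179)) (pfC_sound p12_19_1_180)) (pfC_sound p12_19_1_181)) (pfC_sound p12_19_1_182)) (by decide +kernel)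

def z12_19_1 : zOK yB12_19 (nat_lit 1) (nat_lit 400) (nat_lit 600) (nat_lit 11744142) (nat_lit 7465481) = true := by decide +kernel
def g12_19_1 : gOK yB12_19.x P12_19 (nat_lit 1377) (q12_19 :: r12_19) (nat_lit 1) (nat_lit 400) (nat_lit 2) (nat_lit 600) (nat_lit 11000000) (nat_lit 17850000) (nat_lit 12712500) (nat_lit 12712500) [(nat_lit 800), (nat_lit 1600)] = true := by decide +kernel
def v12_19_1 : ivC P12_19 s12_19 w12_19 n12_19 (nat_lit 3) (nat_lit 4880) (nat_lit 1) (nat_lit 400) f184_0_400 f192_0_400 (nat_lit 2) (nat_lit 600) f184_0_600 f192_0_600 (nat_lit 11744142) (nat_lit 7465481) p12_19_1 = true := by decide +kernel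
def p12_19_2 : PF := (PF.cons (PF.cons (PF.cons (PF.leaf (nat_lit 2404005) (nat_lit 12501831) (nat_lit 54606981) (nat_lit 12501831) [(nat_lit 0), (nat_lit 0), (nat_lit 0)]) (PF.cons (PF.leaf (nat_lit 2608563) (nat_lit 369090) (nat_lit 54231280) (nat_lit 12508442) [(nat_lit 369090), (nat_lit 0), (nat_lit 0)]) (PF.cons (PF.leaf (nat_lit 2849242) (nat_lit 401039) (nat_lit 53793432) (nat_lit 12513302) [(nat_lit 401039), (nat_lit 0), (nat_lit 0)]) (PF.cons (PF.leaf (nat_lit 3118974) (nat_lit 429210) (nat_lit 53305907) (nat_lit 12515272) [(nat_lit 429210), (nat_lit 0), (nat_lit 0)]) (PF.cons (PF.leaf (nat_lit 3413206) (nat_lit 454409) (nat_lit 52777690) (nat_lit 12513485) [(nat_lit 454409), (nat_lit 0), (nat_lit 0)]) (PF.cons (PF.leaf (nat_lit 3728450) (nat_lit 477145) (nat_lit 52215800) (nat_lit 12507286) [(nat_lit 477145), (nat_lit 0), (nat_lit 0)]) (PF.cons (PF.leaf (nat_lit 4061809) (nat_lit 497768) (nat_lit 51626001) (nat_lit 12496197) [(nat_lit 497768), (nat_lit 0),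 (nat_lit 0)]) (PF.cons (PF.leaf (nat_lit 4410832) (nat_lit 516534) (nat_lit 51013177) (nat_lit 12479893) [(nat_lit 516534), (nat_lit 0), (nat_lit 0)]) (PF.cons (PF.leaf (nat_lit 4773343) (nat_lit 533635) (nat_lit 50381551) (nat_lit
 12458176) [(nat_lit 533635), (nat_lit 0), (nat_lit 0)]) (PF.cons (PF.leaf (nat_lit 5147408) (nat_lit 549225) (nat_lit 49734823) (nat_lit 12430957) [(nat_lit 549225), (nat_lit 0), (nat_lit 0)]) (PF.cons (PF.leaf (nat_lit 5531310) (nat_lit 563431) (nat_lit 49076263) (nat_lit 12398238) [(nat_lit 563431), (nat_lit 0), (nat_lit 0)]) (PF.cons (PF.leaf (nat_lit 5923471) (nat_lit 576358) (nat_lit 48408773) (nat_lit 12360095) [(nat_lit 576358), (nat_lit 0), (nat_lit 0)]) (PF.cons (PF.leaf (nat_lit 6322446) (nat_lit 588100) (nat_lit 47734939) (nat_lit 12316665) [(nat_lit 588100), (nat_lit 0), (nat_lit 0)]) (PF.cons (PF.leaf (nat_lit 6726957) (nat_lit 598739) (nat_lit 47057064) (nat_lit 12268132) [(nat_lit 598739), (nat_lit 0), (nat_lit 0)]) (PF.cons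 (PF.leaf (nat_lit 7135830) (nat_lit 608349) (nat_lit 46377201) (nat_lit 12214721) [(nat_lit 608349), (nat_lit 0), (nat_lit 0)]) (PF.cons PF.nil (PF.cons PF.nil (PF.cons PF.nil PF.nil)))))))))))))))))) (PF.cons (PF.cons (PF.leaf (nat_lit 3160020) (nat_lit 1941516) (nat_lit 52666919) (nat_lit 12500377) [(nat_lit 0), (nat_lit 1941516), (nat_lit 0)]) (PF.cons (PF.leaf (nat_lit 3423344) (nat_lit 447025) (nat_lit 52185236) (nat_lit 12494650) [(nat_lit
 447025), (nat_lit 1981900), (nat_lit 0)]) (PF.cons (PF.leaf (nat_lit 3712985) (nat_lit 470778) (nat_lit 51661339) (nat_lit 12484899) [(nat_lit 470778), (nat_lit 2021018), (nat_lit 0)]) (PF.cons (PF.leaf (nat_lit 4024075) (nat_lit 492060) (nat_lit 51103857) (nat_lit 12470628) [(nat_lit 492060), (nat_lit 2058144), (nat_lit 0)]) (PF.cons (PF.leaf (nat_lit 4353297) (nat_lit 511271) (nat_lit 50519331) (nat_lit 12451497) [(nat_lit 511271), (nat_lit 2092899), (nat_lit 0)]) (PF.cons (PF.leaf (nat_lit 4697949) (nat_lit 528683) (nat_lit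 49913009) (nat_lit 12427291) [(nat_lit 528683), (nat_lit 2125095), (nat_lit 0)]) (PF.cons (PF.leaf (nat_lit 5055751) (nat_lit 544497) (nat_lit 49289265) (nat_lit 12397903) [(nat_lit 544497), (nat_lit 2154656), (nat_lit 0)]) (PF.cons (PF.leaf (nat_lit 5424721) (nat_lit 558870) (nat_lit 48651825) (nat_lit 12363315) [(nat_lit 558870), (nat_lit 2181576), (nat_lit 0)]) (PF.cons (PF.leaf (nat_lit 5803105) (nat_lit 571927) (nat_lit 48003918) (nat_lit 12323584) [(nat_lit 571927), (nat_lit 2205893), (nat_lit 0)]) (PF.cons (PF.leaf (nat_lit 6189355) (nat_lit 583772) (nat_lit 47348363) (nat_lit 12278826) [(nat_lit 583772), (nat_lit 2227671), (nat_lit 0)]) (PF.cons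
 (PF.leaf (nat_lit 6582053) (nat_lit 594497) (nat_lit 46687639) (nat_lit 12229205) [(nat_lit 594497), (nat_lit 2246994), (nat_lit 0)]) (PF.cons (PF.leaf (nat_lit 6979928) (nat_lit 604181) (nat_lit 46023932) (nat_lit 12174926) [(nat_lit 604181), (nat_lit 2263961), (nat_lit 0)]) (PF.cons (PF.leaf (nat_lit 7381839) (nat_lit 612895) (nat_lit 45359170) (nat_lit 12116218) [(nat_lit 612895), (nat_lit 2278673), (nat_lit 0)]) (PF.cons PF.nil (PF.cons PF.nil (PF.cons PF.nil PF.nil)))))))))))))))) (PF.cons (PF.cons (PF.leaf (nat_lit 4012691) (nat_lit 2066940) (nat_lit 50534474) (nat_lit 12440456) [(nat_lit 0), (nat_lit 2066940), (nat_lit 0)]) (PF.cons (PF.leaf (nat_lit 4316716) (nat_lit 504133) (nat_lit 49988701) (nat_lit 12419094) [(nat_lit 504133), (nat_lit 2098441), (nat_lit 0)]) (PF.cons (PF.leaf (nat_lit 4639972) (nat_lit 522287) (nat_lit 49415138) (nat_lit 12392892) [(nat_lit 522287), (nat_lit 2128103), (nat_lit 0)]) (PF.cons (PF.leaf (nat_lit 4978907) (nat_lit 538626) (nat_lit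 48819898) (nat_lit 12361751) [(nat_lit 538626), (nat_lit 2155642), (nat_lit 0)]) (PF.cons (PF.leaf (nat_lit 5330985) (nat_lit 553382) (nat_lit 48207787) (nat_lit 12325652) [(nat_lit 553382), (nat_lit 2180921),
 (nat_lit 0)]) (PF.cons (PF.leaf (nat_lit 5694075) (nat_lit 566729) (nat_lit 47582743) (nat_lit 12284641) [(nat_lit 566729), (nat_lit 2203890), (nat_lit 0)]) (PF.cons (PF.leaf (nat_lit 6066365) (nat_lit 578801) (nat_lit 46948072) (nat_lit 12238824) [(nat_lit 578801), (nat_lit 2224553), (nat_lit 0)]) (PF.cons (PF.leaf (nat_lit 6446247) (nat_lit 589709) (nat_lit 46306597) (nat_lit 12188351) [(nat_lit 589709), (nat_lit 2242948), (nat_lit 0)]) (PF.cons (PF.leaf (nat_lit 6832356) (nat_lit 599545) (nat_lit 45660757) (nat_lit 12133410) [(nat_lit 599545), (nat_lit 2259140), (nat_lit 0)]) (PF.cons (PF.leaf (nat_lit 7223397) (nat_lit 608390) (nat_lit 45012670) (nat_lit 12074217) [(nat_lit 608390), (nat_lit 2273206), (nat_lit 0)]) (PF.cons (PF.leaf (nat_lit 7618250) (nat_lit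 616314) (nat_lit 44364187) (nat_lit 12011007) [(nat_lit 616314), (nat_lit 2285235), (nat_lit 0)]) (PF.cons PF.nil (PF.cons PF.nil (PF.cons PF.nil PF.nil)))))))))))))) (PF.cons (PF.cons (PF.leaf (nat_lit 4923531) (nat_lit 2157095) (nat_lit 48315988) (nat_lit 12321536) [(nat_lit 0), (nat_lit 2157095), (nat_lit 0)]) (PF.cons (PF.leaf (nat_lit 5254824) (nat_lit 546547) (nat_lit 47736292) (nat_lit 12284489) [(nat_lit 546547),
 (nat_lit 2180494), (nat_lit 0)]) (PF.cons (PF.leaf (nat_lit 5600002) (nat_lit 560461) (nat_lit 47139330) (nat_lit 12242657) [(nat_lit 560461), (nat_lit 2201967), (nat_lit 0)]) (PF.cons (PF.leaf (nat_lit 5956343) (nat_lit 572962) (nat_lit 46529502) (nat_lit 12196161) [(nat_lit 572962), (nat_lit 2221420), (nat_lit 0)]) (PF.cons (PF.leaf (nat_lit 6321904) (nat_lit 584203) (nat_lit 45910353) (nat_lit 12145157) [(nat_lit 584203), (nat_lit 2238829), (nat_lit 0)]) (PF.cons (PF.leaf (nat_lit 6694986) (nat_lit 594307) (nat_lit 45284814) (nat_lit 12089828) [(nat_lit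 594307), (nat_lit 2254211), (nat_lit 0)]) (PF.cons (PF.leaf (nat_lit 7074149) (nat_lit 603372) (nat_lit 44655359) (nat_lit 12030385) [(nat_lit 603372), (nat_lit 2267610), (nat_lit 0)]) (PF.cons (PF.leaf (nat_lit 7458130) (nat_lit 611484) (nat_lit 44024098) (nat_lit 11967055) [(nat_lit 611484), (nat_lit 2279089), (nat_lit 0)]) (PF.cons (PF.leaf (nat_lit 7845800) (nat_lit 618714) (nat_lit 43392843) (nat_lit 11900079) [(nat_lit 618714), (nat_lit 2288723), (nat_lit 0)]) (PF.cons (PF.leaf (nat_lit 8236163) (nat_lit 625129) (nat_lit 42763156) (nat_lit 11829708) [(nat_lit 625129), (nat_lit 2296595), (nat_lit 0)]) (PF.cons PF.nil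
 (PF.cons PF.nil PF.nil)))))))))))) (PF.cons (PF.cons (PF.leaf (nat_lit 5864165) (nat_lit 2218393) (nat_lit 46085219) (nat_lit 12150021) [(nat_lit 0), (nat_lit 2218393), (nat_lit 0)]) (PF.cons (PF.leaf (nat_lit 6212487) (nat_lit 577693) (nat_lit 45493318) (nat_lit 12098975) [(nat_lit 577693), (nat_lit 2234706), (nat_lit 0)]) (PF.cons (PF.leaf (nat_lit 6570574) (nat_lit 588252) (nat_lit 44891804) (nat_lit 12043657) [(nat_lit 588252), (nat_lit 2249211), (nat_lit 0)]) (PF.cons (PF.leaf (nat_lit 6936319) (nat_lit 597679) (nat_lit 44283864) (nat_lit 11984293) [(nat_lit 597679), (nat_lit 2261903), (nat_lit 0)]) (PF.cons (PF.leaf (nat_lit 7308193) (nat_lit 606086) (nat_lit 43672101) (nat_lit 11921119) [(nat_lit 606086), (nat_lit 2272811), (nat_lit 0)]) (PF.cons (PF.leaf (nat_lit 7684875) (nat_lit 613564) (nat_lit 43058679) (nat_lit 11854377) [(nat_lit 613564), (nat_lit 2281983), (nat_lit 0)]) (PF.cons (PF.leaf (nat_lit 8065220) (nat_lit 620190) (nat_lit 42445423) (nat_lit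 11784315) [(nat_lit 620190), (nat_lit 2289482), (nat_lit 0)]) (PF.cons (PF.leaf (nat_lit 8448220) (nat_lit 626032) (nat_lit 41833883) (nat_lit 11711182) [(nat_lit 626032), (nat_lit 2295380), (nat_lit 0)]) (PF.cons PF.nil
 (PF.cons PF.nil PF.nil)))))))))) (PF.cons (PF.cons (PF.leaf (nat_lit 6813577) (nat_lit 2256124) (nat_lit 43892920) (nat_lit 11935271) [(nat_lit 0), (nat_lit 2256124), (nat_lit 0)]) (PF.cons (PF.leaf (nat_lit 7171136) (nat_lit 599919) (nat_lit 43304150) (nat_lit 11872663) [(nat_lit 599919), (nat_lit 2266415), (nat_lit 0)]) (PF.cons (PF.leaf (nat_lit 7535298) (nat_lit 607777) (nat_lit 42711263) (nat_lit 11806489) [(nat_lit 607777), (nat_lit 2275101), (nat_lit 0)]) (PF.cons (PF.leaf (nat_lit 7904398) (nat_lit 614717) (nat_lit 42116565) (nat_lit 11737013) [(nat_lit 614717), (nat_lit 2282216), (nat_lit 0)]) (PF.cons (PF.leaf (nat_lit 8277236) (nat_lit 620823) (nat_lit 41521954) (nat_lit 11664493) [(nat_lit 620823), (nat_lit 2287814), (nat_lit 0)]) (PF.cons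 (PF.leaf (nat_lit 8652786) (nat_lit 626168) (nat_lit 40929009) (nat_lit 11589181) [(nat_lit 626168), (nat_lit 2291955), (nat_lit 0)]) (PF.cons PF.nil (PF.cons PF.nil PF.nil)))))))) (PF.cons (PF.cons (PF.leaf (nat_lit 7756495) (nat_lit 2274794) (nat_lit 41772784) (nat_lit 11687259) [(nat_lit 0), (nat_lit 2274794), (nat_lit 0)]) (PF.cons (PF.leaf (nat_lit 8117443) (nat_lit 615013) (nat_lit 41197630) (nat_lit 11615688) [(nat_lit
 615013), (nat_lit 2280080), (nat_lit 0)]) (PF.cons (PF.leaf (nat_lit 8482565) (nat_lit 620683) (nat_lit 40622231) (nat_lit 11541296) [(nat_lit 620683), (nat_lit 2283986), (nat_lit 0)]) (PF.cons (PF.leaf (nat_lit 8850547) (nat_lit 625604) (nat_lit 40048248) (nat_lit 11464343) [(nat_lit 625604), (nat_lit 2286567), (nat_lit 0)]) (PF.cons (PF.leaf (nat_lit 9220438) (nat_lit 629844) (nat_lit 39477050) (nat_lit 11385081) [(nat_lit 629844), (nat_lit 2287883), (nat_lit 0)]) (PF.cons PF.nil PF.nil)))))) (PF.cons (PF.cons (PF.leaf (nat_lit 8682165) (nat_lit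 2278237) (nat_lit 39745838) (nat_lit 11415312) [(nat_lit 0), (nat_lit 2278237), (nat_lit 0)]) (PF.cons (PF.leaf (nat_lit 9042188) (nat_lit 624396) (nat_lit 39191145) (nat_lit 11337220) [(nat_lit 624396), (nat_lit 2279435), (nat_lit 0)]) (PF.cons (PF.leaf (nat_lit 9404549) (nat_lit 628294) (nat_lit 38638864) (nat_lit 11257005) [(nat_lit 628294), (nat_lit 2279478), (nat_lit 0)]) (PF.cons PF.nil PF.nil)))) (PF.cons (PF.cons (PF.leaf (nat_lit 9583320) (nat_lit 2269674) (nat_lit 37823872) (nat_lit 11127540) [(nat_lit 0), (nat_lit 2269674), (nat_lit 0)]) (PF.cons PF.nil PF.nil)) (PF.cons PF.nil (PF.cons PF.nil PF.nil))))))))))) (PF.cons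
 (PF.cons (PF.cons (PF.leaf (nat_lit 4111753) (nat_lit 6397659) (nat_lit 48463987) (nat_lit 12247166) [(nat_lit 0), (nat_lit 0), (nat_lit 6397659)]) (PF.cons (PF.leaf (nat_lit 4380955) (nat_lit 477074) (nat_lit 47999141) (nat_lit 12221254) [(nat_lit 477074), (nat_lit 0), (nat_lit 6411342)]) (PF.cons (PF.leaf (nat_lit 4674003) (nat_lit 498329) (nat_lit 47498224) (nat_lit 12190635) [(nat_lit 498329), (nat_lit 0), (nat_lit 6423294)]) (PF.cons (PF.leaf (nat_lit 4985915) (nat_lit 516908) (nat_lit 46969757) (nat_lit 12155383) [(nat_lit 516908), (nat_lit 0), (nat_lit 6432946)]) (PF.cons (PF.leaf (nat_lit 5313310) (nat_lit 533323) (nat_lit 46420005) (nat_lit 12115578) [(nat_lit 533323), (nat_lit 0), (nat_lit 6439934)]) (PF.cons (PF.leaf (nat_lit 5653550) (nat_lit 547921) (nat_lit 45853843) (nat_lit 12071324) [(nat_lit 547921), (nat_lit 0), (nat_lit 6444037)]) (PF.cons (PF.leaf (nat_lit 6004495) (nat_lit 560952) (nat_lit 45275207) (nat_lit 12022756) [(nat_lit 560952), (nat_lit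 0), (nat_lit 6445136)]) (PF.cons (PF.leaf (nat_lit 6364275) (nat_lit 572604) (nat_lit 44687359) (nat_lit 11970034) [(nat_lit 572604), (nat_lit 0), (nat_lit 6443187)]) (PF.cons (PF.leaf (nat_lit 6731363) (nat_lit
 583028) (nat_lit 44093044) (nat_lit 11913341) [(nat_lit 583028), (nat_lit 0), (nat_lit 6438202)]) (PF.cons (PF.leaf (nat_lit 7104355) (nat_lit 592343) (nat_lit 43494603) (nat_lit 11852881) [(nat_lit 592343), (nat_lit 0), (nat_lit 6430234)]) (PF.cons (PF.leaf (nat_lit 7482048) (nat_lit 600652) (nat_lit 42894048) (nat_lit 11788870) [(nat_lit 600652), (nat_lit 0), (nat_lit 6419369)]) (PF.cons (PF.leaf (nat_lit 7863361) (nat_lit 608040) (nat_lit 42293114) (nat_lit 11721536) [(nat_lit 608040), (nat_lit 0), (nat_lit 6405714)]) (PF.cons PF.nil (PF.cons PF.nil PF.nil)))))))))))))) (PF.cons (PF.cons (PF.leaf (nat_lit 4951586) (nat_lit 2122245) (nat_lit 46453202) (nat_lit 12107931) [(nat_lit 0), (nat_lit 2122245), (nat_lit 6425432)]) (PF.cons (PF.leaf (nat_lit 5254394)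 (nat_lit 524029) (nat_lit 45941762) (nat_lit 12068442) [(nat_lit 524029), (nat_lit 2144621), (nat_lit 6429957)]) (PF.cons (PF.leaf (nat_lit 5574095) (nat_lit 539716) (nat_lit 45407735) (nat_lit 12024388) [(nat_lit 539716), (nat_lit 2165234), (nat_lit 6432022)]) (PF.cons (PF.leaf (nat_lit 5907199) (nat_lit 553550) (nat_lit 44856813) (nat_lit 11975984) [(nat_lit 553550), (nat_lit 2183936), (nat_lit 6431426)]) (PF.cons (PF.leaf
 (nat_lit 6251251) (nat_lit 565818) (nat_lit 44293356) (nat_lit 11923437) [(nat_lit 565818), (nat_lit 2200676), (nat_lit 6428068)]) (PF.cons (PF.leaf (nat_lit 6604277) (nat_lit 576727) (nat_lit 43720844) (nat_lit 11866956) [(nat_lit 576727), (nat_lit 2215462), (nat_lit 6421913)]) (PF.cons (PF.leaf (nat_lit 6964603) (nat_lit 586435) (nat_lit 43142125) (nat_lit 11806757) [(nat_lit 586435), (nat_lit 2228337), (nat_lit 6412982)]) (PF.cons (PF.leaf (nat_lit 7330810) (nat_lit 595068) (nat_lit 42559576) (nat_lit 11743063) [(nat_lit 595068), (nat_lit 2239361),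 (nat_lit 6401331)]) (PF.cons (PF.leaf (nat_lit 7701669) (nat_lit 602731) (nat_lit 41975205) (nat_lit 11676104) [(nat_lit 602731), (nat_lit 2248609), (nat_lit 6387043)]) (PF.cons (PF.leaf (nat_lit 8076090) (nat_lit 609510) (nat_lit 41390720) (nat_lit 11606110) [(nat_lit 609510), (nat_lit 2256164), (nat_lit 6370222)]) (PF.cons (PF.leaf (nat_lit 8453113) (nat_lit 615481) (nat_lit 40807583) (nat_lit 11533315) [(nat_lit 615481), (nat_lit 2262110), (nat_lit 6350987)]) (PF.cons PF.nil PF.nil)))))))))))) (PF.cons (PF.cons (PF.leaf (nat_lit 5832044) (nat_lit 2179981) (nat_lit 44407261) (nat_lit 11924969) [(nat_lit 0), (nat_lit 2179981),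
 (nat_lit 6416619)]) (PF.cons (PF.leaf (nat_lit 6156389) (nat_lit 557633) (nat_lit 43874652) (nat_lit 11873286) [(nat_lit 557633), (nat_lit 2195649), (nat_lit 6411941)]) (PF.cons (PF.leaf (nat_lit 6492646) (nat_lit 569323) (nat_lit 43328674) (nat_lit 11817551) [(nat_lit 569323), (nat_lit 2209616), (nat_lit 6404705)]) (PF.cons (PF.leaf (nat_lit 6838246) (nat_lit 579637) (nat_lit 42773251) (nat_lit 11758039) [(nat_lit 579637), (nat_lit 2221857), (nat_lit 6394893)]) (PF.cons (PF.leaf (nat_lit 7191362) (nat_lit 588755) (nat_lit 42211473) (nat_lit 11695009) [(nat_lit 588755), (nat_lit 2232388), (nat_lit 6382532)]) (PF.cons (PF.leaf (nat_lit 7550473) (nat_lit 596813) (nat_lit 41645844) (nat_lit 11628712) [(nat_lit 596813), (nat_lit 2241252), (nat_lit 6367681)]) (PF.cons (PF.leaf (nat_lit 7914291) (nat_lit 603923) (nat_lit 41078431) (nat_lit 11559391) [(nat_lit 603923), (nat_lit 2248510), (nat_lit 6350424)]) (PF.cons (PF.leaf (nat_lit 8281702) (nat_lit 610177) (nat_lit 40510962)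 (nat_lit 11487285) [(nat_lit 610177), (nat_lit 2254230), (nat_lit 6330864)]) (PF.cons (PF.leaf (nat_lit 8651725) (nat_lit 615650) (nat_lit 39944893) (nat_lit 11412629) [(nat_lit 615650), (nat_lit 2258487),
 (nat_lit 6309113)]) (PF.cons PF.nil PF.nil)))))))))) (PF.cons (PF.cons (PF.leaf (nat_lit 6730013) (nat_lit 2215332) (nat_lit 42381275) (nat_lit 11705826) [(nat_lit 0), (nat_lit 2215332), (nat_lit 6375713)]) (PF.cons (PF.leaf (nat_lit 7067113) (nat_lit 581414) (nat_lit 41844710) (nat_lit 11644007) [(nat_lit 581414), (nat_lit 2225306), (nat_lit 6362761)]) (PF.cons (PF.leaf (nat_lit 7412468) (nat_lit 590066) (nat_lit 41301171) (nat_lit 11578802) [(nat_lit 590066), (nat_lit 2233751), (nat_lit 6347451)]) (PF.cons (PF.leaf (nat_lit 7764091) (nat_lit 597654) (nat_lit 40753413) (nat_lit 11510500) [(nat_lit 597654), (nat_lit 2240694), (nat_lit 6329850)]) (PF.cons (PF.leaf (nat_lit 8120615) (nat_lit 604302) (nat_lit 40203645) (nat_lit 11439368) [(nat_lit 604302), (nat_lit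 2246180), (nat_lit 6310044)]) (PF.cons (PF.leaf (nat_lit 8480856) (nat_lit 610108) (nat_lit 39653669) (nat_lit 11365658) [(nat_lit 610108), (nat_lit 2250268), (nat_lit 6288134)]) (PF.cons (PF.leaf (nat_lit 8843800) (nat_lit 615154) (nat_lit 39104977) (nat_lit 11289610) [(nat_lit 615154), (nat_lit 2253022), (nat_lit 6264231)]) (PF.cons PF.nil PF.nil)))))))) (PF.cons (PF.cons (PF.leaf (nat_lit 7629030) (nat_lit 2232716)
 (nat_lit 40410948) (nat_lit 11458735) [(nat_lit 0), (nat_lit 2232716), (nat_lit 6308264)]) (PF.cons (PF.leaf (nat_lit 7972438) (nat_lit 597651) (nat_lit 39882014) (nat_lit 11389009) [(nat_lit 597651), (nat_lit 2237951), (nat_lit 6288334)]) (PF.cons (PF.leaf (nat_lit 8321345) (nat_lit 603927) (nat_lit 39350544) (nat_lit 11316590) [(nat_lit 603927), (nat_lit 2241863), (nat_lit 6266367)]) (PF.cons (PF.leaf (nat_lit 8674210) (nat_lit 609363) (nat_lit 38818492) (nat_lit 11241752) [(nat_lit 609363), (nat_lit 2244502), (nat_lit 6242468)]) (PF.cons (PF.leaf (nat_lit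 9029956) (nat_lit 614048) (nat_lit 38287434) (nat_lit 11164746) [(nat_lit 614048), (nat_lit 2245923), (nat_lit 6216744)]) (PF.cons (PF.leaf (nat_lit 9387701) (nat_lit 618056) (nat_lit 37758665) (nat_lit 11085806) [(nat_lit 618056), (nat_lit 2246186), (nat_lit 6189310)]) PF.nil)))))) (PF.cons (PF.cons (PF.leaf (nat_lit 8517456) (nat_lit 2235774) (nat_lit 38518615) (nat_lit 11191524) [(nat_lit 0), (nat_lit 2235774), (nat_lit 6219799)]) (PF.cons (PF.leaf (nat_lit 8862435) (nat_lit 607986) (nat_lit 38004917) (nat_lit 11116011) [(nat_lit 607986), (nat_lit 2237130), (nat_lit 6194245)]) (PF.cons (PF.leaf (nat_lit 9210828) (nat_lit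
 612378) (nat_lit 37491734) (nat_lit 11038455) [(nat_lit 612378), (nat_lit 2237371), (nat_lit 6167009)]) (PF.cons (PF.leaf (nat_lit 9561428) (nat_lit 616099) (nat_lit 36980450) (nat_lit 10959100) [(nat_lit 616099), (nat_lit 2236551), (nat_lit 6138206)]) PF.nil)))) (PF.cons (PF.cons (PF.leaf (nat_lit 9387268) (nat_lit 2227528) (nat_lit 36717219) (nat_lit 10911089) [(nat_lit 0), (nat_lit 2227528), (nat_lit 6115335)]) (PF.cons (PF.leaf (nat_lit 9730356) (nat_lit 613672) (nat_lit 36223522) (nat_lit 10831665) [(nat_lit 613672), (nat_lit 2225754), (nat_lit 6085423)]) PF.nil)) (PF.cons PF.nil (PF.cons PF.nil (PF.cons PF.nil PF.nil)))))))))) (PF.cons (PF.cons (PF.cons (PF.leaf (nat_lit 5811903) (nat_lit 6315478) (nat_lit 42785408) (nat_lit 11692448) [(nat_lit 0), (nat_lit 0), (nat_lit 6315478)]) (PF.cons (PF.leaf (nat_lit 6109755) (nat_lit 533474) (nat_lit 42315206) (nat_lit 11642161) [(nat_lit 533474), (nat_lit 0), (nat_lit 6308985)]) (PF.cons (PF.leaf (nat_lit 6422630) (nat_lit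 547144) (nat_lit 41826384) (nat_lit 11587713) [(nat_lit 547144), (nat_lit 0), (nat_lit 6300213)]) (PF.cons (PF.leaf (nat_lit 6747152) (nat_lit 558981) (nat_lit 41324106) (nat_lit 11529502) [(nat_lit 558981),
 (nat_lit 0), (nat_lit 6289129)]) (PF.cons (PF.leaf (nat_lit 7080981) (nat_lit 569299) (nat_lit 40812255) (nat_lit 11467857) [(nat_lit 569299), (nat_lit 0), (nat_lit 6275750)]) (PF.cons (PF.leaf (nat_lit 7422273) (nat_lit 578325) (nat_lit 40293872) (nat_lit 11403069) [(nat_lit 578325), (nat_lit 0), (nat_lit 6260120)]) (PF.cons (PF.leaf (nat_lit 7769509) (nat_lit 586230) (nat_lit 39771400) (nat_lit 11335405) [(nat_lit 586230), (nat_lit 0), (nat_lit 6242311)]) (PF.cons (PF.leaf (nat_lit 8121410) (nat_lit 593148) (nat_lit 39246842) (nat_lit 11265112) [(nat_lit 593148), (nat_lit 0), (nat_lit 6222409)]) (PF.cons (PF.leaf (nat_lit 8476876) (nat_lit 599187) (nat_lit 38721862) (nat_lit 11192429) [(nat_lit 599187), (nat_lit 0), (nat_lit 6200512)]) (PF.cons (PF.leaf (nat_lit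 8834971) (nat_lit 604436) (nat_lit 38197855) (nat_lit 11117578) [(nat_lit 604436), (nat_lit 0), (nat_lit 6176727)]) (PF.cons PF.nil (PF.cons PF.nil PF.nil)))))))))))) (PF.cons (PF.cons (PF.leaf (nat_lit 6657062) (nat_lit 2171519) (nat_lit 40926974) (nat_lit 11473782) [(nat_lit 0), (nat_lit 2171519), (nat_lit 6268268)]) (PF.cons (PF.leaf (nat_lit 6972341) (nat_lit 560376) (nat_lit 40443500) (nat_lit 11414102) [(nat_lit
 560376), (nat_lit 2181656), (nat_lit 6254588)]) (PF.cons (PF.leaf (nat_lit 7298035) (nat_lit 570319) (nat_lit 39949394) (nat_lit 11350998) [(nat_lit 570319), (nat_lit 2190294), (nat_lit 6238743)]) (PF.cons (PF.leaf (nat_lit 7631709) (nat_lit 578941) (nat_lit 39448118) (nat_lit 11284827) [(nat_lit 578941), (nat_lit 2197449), (nat_lit 6220795)]) (PF.cons (PF.leaf (nat_lit 7971667) (nat_lit 586436) (nat_lit 38942357) (nat_lit 11215895) [(nat_lit 586436), (nat_lit 2203164), (nat_lit 6200824)]) (PF.cons (PF.leaf (nat_lit 8316520) (nat_lit 592949) (nat_lit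 38434248) (nat_lit 11144476) [(nat_lit 592949), (nat_lit 2207497), (nat_lit 6178920)]) (PF.cons (PF.leaf (nat_lit 8665101) (nat_lit 598596) (nat_lit 37925529) (nat_lit 11070820) [(nat_lit 598596), (nat_lit 2210513), (nat_lit 6155184)]) (PF.cons (PF.leaf (nat_lit 9016442) (nat_lit 603471) (nat_lit 37417633) (nat_lit 10995158) [(nat_lit 603471), (nat_lit 2212283), (nat_lit 6129719)]) (PF.cons PF.nil (PF.cons PF.nil PF.nil)))))))))) (PF.cons (PF.cons (PF.leaf (nat_lit 7511942) (nat_lit 2188909) (nat_lit 39104054) (nat_lit 11230798) [(nat_lit 0), (nat_lit 2188909), (nat_lit 6198070)]) (PF.cons (PF.leaf (nat_lit 7837040) (nat_lit 578686)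
 (nat_lit 38621085) (nat_lit 11163798) [(nat_lit 578686), (nat_lit 2194425), (nat_lit 6178196)]) (PF.cons (PF.leaf (nat_lit 8169259) (nat_lit 585877) (nat_lit 38132852) (nat_lit 11094087) [(nat_lit 585877), (nat_lit 2198639), (nat_lit 6156419)]) (PF.cons (PF.leaf (nat_lit 8506758) (nat_lit 592074) (nat_lit 37641738) (nat_lit 11021977) [(nat_lit 592074), (nat_lit 2201595), (nat_lit 6132841)]) (PF.cons (PF.leaf (nat_lit 8848257) (nat_lit 597403) (nat_lit 37149626) (nat_lit 10947741) [(nat_lit 597403), (nat_lit 2203350), (nat_lit 6107565)]) (PF.cons (PF.leaf (nat_lit 9192732) (nat_lit 601967) (nat_lit 36658030) (nat_lit 10871624) [(nat_lit 601967), (nat_lit 2203963), (nat_lit 6080697)]) (PF.cons (PF.leaf (nat_lit 9539247) (nat_lit 605847) (nat_lit 36168191) (nat_lit 10793849) [(nat_lit 605847), (nat_lit 2203498), (nat_lit 6052344)]) (PF.cons PF.nil PF.nil)))))))) (PF.cons (PF.cons (PF.leaf (nat_lit 8363342) (nat_lit 2192447) (nat_lit 37342259) (nat_lit 10970342) [(nat_lit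 0), (nat_lit 2192447), (nat_lit 6109434)]) (PF.cons (PF.leaf (nat_lit 8692817) (nat_lit 590557) (nat_lit 36868737) (nat_lit 10897968) [(nat_lit 590557), (nat_lit 2194188), (nat_lit 6084492)]) (PF.cons (PF.leaf
 (nat_lit 9026976) (nat_lit 595644) (nat_lit 36393591) (nat_lit 10823529) [(nat_lit 595644), (nat_lit 2194828), (nat_lit 6057959)]) (PF.cons (PF.leaf (nat_lit 9364409) (nat_lit 599961) (nat_lit 35918485) (nat_lit 10747292) [(nat_lit 599961), (nat_lit 2194419), (nat_lit 6029946)]) (PF.cons (PF.leaf (nat_lit 9704139) (nat_lit 603597) (nat_lit 35444748) (nat_lit 10669493) [(nat_lit 603597), (nat_lit 2193019), (nat_lit 6000561)]) (PF.cons PF.nil PF.nil)))))) (PF.cons (PF.cons (PF.leaf (nat_lit 9202152) (nat_lit 2185093) (nat_lit 35656727) (nat_lit 10698459) [(nat_lit 0), (nat_lit 2185093), (nat_lit 6006624)]) (PF.cons (PF.leaf (nat_lit 9532056) (nat_lit 597482) (nat_lit 35198333) (nat_lit 10622426) [(nat_lit 597482), (nat_lit 2183787), (nat_lit 5977709)]) (PF.cons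 (PF.leaf (nat_lit 9864855) (nat_lit 600929) (nat_lit 34740773) (nat_lit 10544889) [(nat_lit 600929), (nat_lit 2181566), (nat_lit 5947511)]) (PF.cons PF.nil PF.nil)))) (PF.cons (PF.cons (PF.leaf (nat_lit 10022195) (nat_lit 2169249) (nat_lit 34055541) (nat_lit 10420239) [(nat_lit 0), (nat_lit 2169249), (nat_lit 5893393)]) (PF.cons PF.nil PF.nil)) (PF.cons PF.nil (PF.cons PF.nil PF.nil)))))))) (PF.cons (PF.cons (PF.cons (PF.leaf
 (nat_lit 7408541) (nat_lit 6086947) (nat_lit 37844566) (nat_lit 11003404) [(nat_lit 0), (nat_lit 0), (nat_lit 6086947)]) (PF.cons (PF.leaf (nat_lit 7713821) (nat_lit 557565) (nat_lit 37408229) (nat_lit 10940046) [(nat_lit 557565), (nat_lit 0), (nat_lit 6067656)]) (PF.cons (PF.leaf (nat_lit 8028372) (nat_lit 566123) (nat_lit 36963220) (nat_lit 10873781) [(nat_lit 566123), (nat_lit 0), (nat_lit 6046521)]) (PF.cons (PF.leaf (nat_lit 8349854) (nat_lit 573424) (nat_lit 36512583) (nat_lit 10805000) [(nat_lit 573424), (nat_lit 0), (nat_lit 6023652)])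 (PF.cons (PF.leaf (nat_lit 8676716) (nat_lit 579666) (nat_lit 36058649) (nat_lit 10734027) [(nat_lit 579666), (nat_lit 0), (nat_lit 5999156)]) (PF.cons (PF.leaf (nat_lit 9007670) (nat_lit 585000) (nat_lit 35603254) (nat_lit 10661136) [(nat_lit 585000), (nat_lit 0), (nat_lit 5973140)]) (PF.cons (PF.leaf (nat_lit 9341647) (nat_lit 589540) (nat_lit 35147871) (nat_lit 10586571) [(nat_lit 589540), (nat_lit 0), (nat_lit 5945708)]) (PF.cons PF.nil (PF.cons PF.nil (PF.cons PF.nil PF.nil)))))))))) (PF.cons (PF.cons (PF.leaf (nat_lit 8221990) (nat_lit 2148122) (nat_lit 36210855) (nat_lit 10751613) [(nat_lit 0), (nat_lit 2148122), (nat_lit 5999407)])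
 (PF.cons (PF.leaf (nat_lit 8535042) (nat_lit 571776) (nat_lit 35777286) (nat_lit 10682953) [(nat_lit 571776), (nat_lit 2150495), (nat_lit 5975433)]) (PF.cons (PF.leaf (nat_lit 8854367) (nat_lit 577836) (nat_lit 35339585) (nat_lit 10612091) [(nat_lit 577836), (nat_lit 2151750), (nat_lit 5949904)]) (PF.cons (PF.leaf (nat_lit 9178227) (nat_lit 582966) (nat_lit 34899818) (nat_lit 10539340) [(nat_lit 582966), (nat_lit 2151941), (nat_lit 5922937)]) (PF.cons (PF.leaf (nat_lit 9505458) (nat_lit 587296) (nat_lit 34459603) (nat_lit 10464967) [(nat_lit 587296), (nat_lit 2151128), (nat_lit 5894642)]) (PF.cons (PF.leaf (nat_lit 9835107) (nat_lit 590927) (nat_lit 34020227) (nat_lit 10389203) [(nat_lit 590927), (nat_lit 2149371), (nat_lit 5865124)]) (PF.cons PF.nil (PF.cons PF.nil PF.nil)))))))) (PF.cons (PF.cons (PF.leaf (nat_lit 9029394) (nat_lit 2142267) (nat_lit 34637629) (nat_lit 10489420) [(nat_lit 0), (nat_lit 2142267), (nat_lit 5899075)]) (PF.cons (PF.leaf (nat_lit 9345526)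 (nat_lit 580439) (nat_lit 34213885) (nat_lit 10417128) [(nat_lit 580439), (nat_lit 2141595), (nat_lit 5871389)]) (PF.cons (PF.leaf (nat_lit 9665766) (nat_lit 584622) (nat_lit 33789038) (nat_lit 10343222) [(nat_lit
 584622), (nat_lit 2139994), (nat_lit 5842439)]) (PF.cons (PF.leaf (nat_lit 9988759) (nat_lit 588095) (nat_lit 33364519) (nat_lit 10267956) [(nat_lit 588095), (nat_lit 2137519), (nat_lit 5812336)]) (PF.cons PF.nil (PF.cons PF.nil PF.nil)))))) (PF.cons (PF.cons (PF.leaf (nat_lit 9823415) (nat_lit 2128033) (nat_lit 33135434) (nat_lit 10221485) [(nat_lit 0), (nat_lit 2128033), (nat_lit 5789264)]) (PF.cons (PF.leaf (nat_lit 10139289) (nat_lit 584903) (nat_lit 32725887) (nat_lit 10146954) [(nat_lit 584903), (nat_lit 2124934), (nat_lit 5758755)]) (PF.cons PF.nil (PF.cons PF.nil PF.nil)))) (PF.cons (PF.cons (PF.leaf (nat_lit 10599157) (nat_lit 2107346) (nat_lit 31709419) (nat_lit 9951591) [(nat_lit 0), (nat_lit 2107346), (nat_lit 5672804)]) (PF.cons PF.nil PF.nil))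 (PF.cons PF.nil PF.nil)))))) (PF.cons (PF.cons (PF.cons (PF.leaf (nat_lit 8870714) (nat_lit 5792576) (nat_lit 33654931) (nat_lit 10283576) [(nat_lit 0), (nat_lit 0), (nat_lit 5792576)]) (PF.cons (PF.leaf (nat_lit 9172059) (nat_lit 562209) (nat_lit 33265729) (nat_lit 10215423) [(nat_lit 562209), (nat_lit 0), (nat_lit 5766362)]) (PF.cons (PF.leaf (nat_lit 9479038) (nat_lit 567383) (nat_lit 32873163) (nat_lit 10145451) [(nat_lit
 567383), (nat_lit 0), (nat_lit 5738857)]) (PF.cons (PF.leaf (nat_lit 9789981) (nat_lit 571687) (nat_lit 32479036) (nat_lit 10073966) [(nat_lit 571687), (nat_lit 0), (nat_lit 5710187)]) (PF.cons (PF.leaf (nat_lit 10103834) (nat_lit 575250) (nat_lit 32084744) (nat_lit 10001221) [(nat_lit 575250), (nat_lit 0), (nat_lit 5680461)]) (PF.cons PF.nil PF.nil)))))) (PF.cons (PF.cons (PF.leaf (nat_lit 9637883) (nat_lit 2086679) (nat_lit 32248855) (nat_lit 10026575) [(nat_lit 0), (nat_lit 2086679), (nat_lit 5686675)]) (PF.cons (PF.leaf (nat_lit 9941450) (nat_lit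 568494) (nat_lit 31869122) (nat_lit 9955984) [(nat_lit 568494), (nat_lit 2084346), (nat_lit 5657716)]) (PF.cons (PF.leaf (nat_lit 10248668) (nat_lit 571981) (nat_lit 31488582) (nat_lit 9884106) [(nat_lit 571981), (nat_lit 2081222), (nat_lit 5627734)]) (PF.cons PF.nil PF.nil)))) (PF.cons (PF.cons (PF.leaf (nat_lit 10391581) (nat_lit 2067977) (nat_lit 30907243) (nat_lit 9767511) [(nat_lit 0), (nat_lit 2067977), (nat_lit 5574525)]) (PF.cons (PF.leaf (nat_lit 10694458) (nat_lit 571172) (nat_lit 30540441) (nat_lit 9695624) [(nat_lit 571172), (nat_lit 2063686), (nat_lit 5543550)]) PF.nil)) (PF.cons PF.nil PF.nil)))) (PF.cons (PF.cons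
 (PF.cons (PF.leaf (nat_lit 10197595) (nat_lit 5477889) (nat_lit 30132210) (nat_lit 9587154) [(nat_lit 0), (nat_lit 0), (nat_lit 5477889)]) (PF.cons (PF.leaf (nat_lit 10489386) (nat_lit 555523) (nat_lit 29791083) (nat_lit 9519181) [(nat_lit 555523), (nat_lit 0), (nat_lit 5448604)]) (PF.cons PF.nil (PF.cons PF.nil PF.nil)))) (PF.cons (PF.cons (PF.leaf (nat_lit 10914944) (nat_lit 2007089) (nat_lit 28930474) (nat_lit 9339583) [(nat_lit 0), (nat_lit 2007089), (nat_lit 5366333)]) (PF.cons PF.nil PF.nil)) PF.nil)) (PF.cons PF.nil (PF.cons PF.nil (PF.cons PF.nil (PF.cons PF.nil PF.nil))))))))))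

def p12_19_2_0 : pfC (piC [(nat_lit 37297016), (nat_lit 23751559), (nat_lit 15232604)] (nat_lit 7465481)) p12_19_2 (nat_lit 3) (nat_lit 0) (nat_lit 1) = true := by decide +kernel
def p12_19_2_1 : pfC (piC [(nat_lit 37297016), (nat_lit 23751559), (nat_lit 15232604)] (nat_lit 7465481)) p12_19_2 (nat_lit 3) (nat_lit 1) (nat_lit 2) = true := by decide +kernel
def p12_19_2_2 : pfC (piC [(nat_lit 37297016), (nat_lit 23751559), (nat_lit 15232604)] (nat_lit 7465481)) p12_19_2 (nat_lit 3) (nat_lit 2) (nat_lit 3) = true := by decide +kernel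
def p12_19_2_3 : pfC (piC [(nat_lit 37297016), (nat_lit 23751559), (nat_lit 15232604)] (nat_lit 7465481)) p12_19_2 (nat_lit 3) (nat_lit 3) (nat_lit 4) = true := by decide +kernel
def p12_19_2_4 : pfC (piC [(nat_lit 37297016), (nat_lit 23751559), (nat_lit 15232604)] (nat_lit 7465481)) p12_19_2 (nat_lit 3) (nat_lit 4) (nat_lit 5) = true := by decide +kernel
def p12_19_2_5 : pfC (piC [(nat_lit 37297016), (nat_lit 23751559), (nat_lit 15232604)] (nat_lit 7465481)) p12_19_2 (nat_lit 3) (nat_lit 5) (nat_lit 6) = true := by decide +kernel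
def p12_19_2_6 : pfC (piC [(nat_lit 37297016), (nat_lit 23751559), (nat_lit 15232604)] (nat_lit 7465481)) p12_19_2 (nat_lit 3) (nat_lit 6) (nat_lit 7) = true := by decide +kernel
def p12_19_2_7 : pfC (piC [(nat_lit 37297016), (nat_lit 23751559), (nat_lit 15232604)] (nat_lit 7465481)) p12_19_2 (nat_lit 3) (nat_lit 7) (nat_lit 8) = true := by decide +kernel
def p12_19_2_8 : pfC (piC [(nat_lit 37297016), (nat_lit 23751559), (nat_lit 15232604)] (nat_lit 7465481)) p12_19_2 (nat_lit 3) (nat_lit 8) (nat_lit 9) = true := by decide +kernel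
def p12_19_2_9 : pfC (piC [(nat_lit 37297016), (nat_lit 23751559), (nat_lit 15232604)] (nat_lit 7465481)) p12_19_2 (nat_lit 3) (nat_lit 9) (nat_lit 10) = true := by decide +kernel
def p12_19_2_10 : pfC (piC [(nat_lit 37297016), (nat_lit 23751559), (nat_lit 15232604)] (nat_lit 7465481)) p12_19_2 (nat_lit 3) (nat_lit 10) (nat_lit 11) = true := by decide +kernel
def p12_19_2_11 : pfC (piC [(nat_lit 37297016), (nat_lit 23751559), (nat_lit 15232604)] (nat_lit 7465481)) p12_19_2 (nat_lit 3) (nat_lit 11) (nat_lit 12) = true := by decide +kernel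
def p12_19_2_12 : pfC (piC [(nat_lit 37297016), (nat_lit 23751559), (nat_lit 15232604)] (nat_lit 7465481)) p12_19_2 (nat_lit 3) (nat_lit 12) (nat_lit 13) = true := by decide +kernel
def p12_19_2_13 : pfC (piC [(nat_lit 37297016), (nat_lit 23751559), (nat_lit 15232604)] (nat_lit 7465481)) p12_19_2 (nat_lit 3) (nat_lit 13) (nat_lit 14) = true := by decide +kernel
def p12_19_2_14 : pfC (piC [(nat_lit 37297016), (nat_lit 23751559), (nat_lit 15232604)] (nat_lit 7465481)) p12_19_2 (nat_lit 3) (nat_lit 14) (nat_lit 15) = true := by decide +kernel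
def p12_19_2_15 : pfC (piC [(nat_lit 37297016), (nat_lit 23751559), (nat_lit 15232604)] (nat_lit 7465481)) p12_19_2 (nat_lit 3) (nat_lit 15) (nat_lit 16) = true := by decide +kernel
def p12_19_2_16 : pfC (piC [(nat_lit 37297016), (nat_lit 23751559), (nat_lit 15232604)] (nat_lit 7465481)) p12_19_2 (nat_lit 3) (nat_lit 16) (nat_lit 17) = true := by decide +kernel
def p12_19_2_17 : pfC (piC [(nat_lit 37297016), (nat_lit 23751559), (nat_lit 15232604)] (nat_lit 7465481)) p12_19_2 (nat_lit 3) (nat_lit 17) (nat_lit 18) = true := by decide +kernel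
def p12_19_2_18 : pfC (piC [(nat_lit 37297016), (nat_lit 23751559), (nat_lit 15232604)] (nat_lit 7465481)) p12_19_2 (nat_lit 3) (nat_lit 18) (nat_lit 19) = true := by decide +kernel
def p12_19_2_19 : pfC (piC [(nat_lit 37297016), (nat_lit 23751559), (nat_lit 15232604)] (nat_lit 7465481)) p12_19_2 (nat_lit 3) (nat_lit 19) (nat_lit 20) = true := by decide +kernel
def p12_19_2_20 : pfC (piC [(nat_lit 37297016), (nat_lit 23751559), (nat_lit 15232604)] (nat_lit 7465481)) p12_19_2 (nat_lit 3) (nat_lit 20) (nat_lit 21) = true := by decide +kernel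
def p12_19_2_21 : pfC (piC [(nat_lit 37297016), (nat_lit 23751559), (nat_lit 15232604)] (nat_lit 7465481)) p12_19_2 (nat_lit 3) (nat_lit 21) (nat_lit 22) = true := by decide +kernel
def p12_19_2_22 : pfC (piC [(nat_lit 37297016), (nat_lit 23751559), (nat_lit 15232604)] (nat_lit 7465481)) p12_19_2 (nat_lit 3) (nat_lit 22) (nat_lit 23) = true := by decide +kernel
def p12_19_2_23 : pfC (piC [(nat_lit 37297016), (nat_lit 23751559), (nat_lit 15232604)] (nat_lit 7465481)) p12_19_2 (nat_lit 3) (nat_lit 23) (nat_lit 24) = true := by decide +kernel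
def p12_19_2_24 : pfC (piC [(nat_lit 37297016), (nat_lit 23751559), (nat_lit 15232604)] (nat_lit 7465481)) p12_19_2 (nat_lit 3) (nat_lit 24) (nat_lit 25) = true := by decide +kernel
def p12_19_2_25 : pfC (piC [(nat_lit 37297016), (nat_lit 23751559), (nat_lit 15232604)] (nat_lit 7465481)) p12_19_2 (nat_lit 3) (nat_lit 25) (nat_lit 26) = true := by decide +kernel
def p12_19_2_26 : pfC (piC [(nat_lit 37297016), (nat_lit 23751559), (nat_lit 15232604)] (nat_lit 7465481)) p12_19_2 (nat_lit 3) (nat_lit 26) (nat_lit 27) = true := by decide +kernel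
def p12_19_2_27 : pfC (piC [(nat_lit 37297016), (nat_lit 23751559), (nat_lit 15232604)] (nat_lit 7465481)) p12_19_2 (nat_lit 3) (nat_lit 27) (nat_lit 28) = true := by decide +kernel
def p12_19_2_28 : pfC (piC [(nat_lit 37297016), (nat_lit 23751559), (nat_lit 15232604)] (nat_lit 7465481)) p12_19_2 (nat_lit 3) (nat_lit 28) (nat_lit 29) = true := by decide +kernel
def p12_19_2_29 : pfC (piC [(nat_lit 37297016), (nat_lit 23751559), (nat_lit 15232604)] (nat_lit 7465481)) p12_19_2 (nat_lit 3) (nat_lit 29) (nat_lit 30) = true := by decide +kernel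
def p12_19_2_30 : pfC (piC [(nat_lit 37297016), (nat_lit 23751559), (nat_lit 15232604)] (nat_lit 7465481)) p12_19_2 (nat_lit 3) (nat_lit 30) (nat_lit 31) = true := by decide +kernel
def p12_19_2_31 : pfC (piC [(nat_lit 37297016), (nat_lit 23751559), (nat_lit 15232604)] (nat_lit 7465481)) p12_19_2 (nat_lit 3) (nat_lit 31) (nat_lit 32) = true := by decide +kernel
def p12_19_2_32 : pfC (piC [(nat_lit 37297016), (nat_lit 23751559), (nat_lit 15232604)] (nat_lit 7465481)) p12_19_2 (nat_lit 3) (nat_lit 32) (nat_lit 33) = true := by decide +kernel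
def p12_19_2_33 : pfC (piC [(nat_lit 37297016), (nat_lit 23751559), (nat_lit 15232604)] (nat_lit 7465481)) p12_19_2 (nat_lit 3) (nat_lit 33) (nat_lit 34) = true := by decide +kernel
def p12_19_2_34 : pfC (piC [(nat_lit 37297016), (nat_lit 23751559), (nat_lit 15232604)] (nat_lit 7465481)) p12_19_2 (nat_lit 3) (nat_lit 34) (nat_lit 35) = true := by decide +kernel
def p12_19_2_35 : pfC (piC [(nat_lit 37297016), (nat_lit 23751559), (nat_lit 15232604)] (nat_lit 7465481)) p12_19_2 (nat_lit 3) (nat_lit 35) (nat_lit 36) = true := by decide +kernel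
def p12_19_2_36 : pfC (piC [(nat_lit 37297016), (nat_lit 23751559), (nat_lit 15232604)] (nat_lit 7465481)) p12_19_2 (nat_lit 3) (nat_lit 36) (nat_lit 37) = true := by decide +kernel
def p12_19_2_37 : pfC (piC [(nat_lit 37297016), (nat_lit 23751559), (nat_lit 15232604)] (nat_lit 7465481)) p12_19_2 (nat_lit 3) (nat_lit 37) (nat_lit 38) = true := by decide +kernel
def p12_19_2_38 : pfC (piC [(nat_lit 37297016), (nat_lit 23751559), (nat_lit 15232604)] (nat_lit 7465481)) p12_19_2 (nat_lit 3) (nat_lit 38) (nat_lit 39) = true := by decide +kernel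
def p12_19_2_39 : pfC (piC [(nat_lit 37297016), (nat_lit 23751559), (nat_lit 15232604)] (nat_lit 7465481)) p12_19_2 (nat_lit 3) (nat_lit 39) (nat_lit 40) = true := by decide +kernel
def p12_19_2_40 : pfC (piC [(nat_lit 37297016), (nat_lit 23751559), (nat_lit 15232604)] (nat_lit 7465481)) p12_19_2 (nat_lit 3) (nat_lit 40) (nat_lit 41) = true := by decide +kernel
def p12_19_2_41 : pfC (piC [(nat_lit 37297016), (nat_lit 23751559), (nat_lit 15232604)] (nat_lit 7465481)) p12_19_2 (nat_lit 3) (nat_lit 41) (nat_lit 42) = true := by decide +kernel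
def p12_19_2_42 : pfC (piC [(nat_lit 37297016), (nat_lit 23751559), (nat_lit 15232604)] (nat_lit 7465481)) p12_19_2 (nat_lit 3) (nat_lit 42) (nat_lit 43) = true := by decide +kernel
def p12_19_2_43 : pfC (piC [(nat_lit 37297016), (nat_lit 23751559), (nat_lit 15232604)] (nat_lit 7465481)) p12_19_2 (nat_lit 3) (nat_lit 43) (nat_lit 44) = true := by decide +kernel
def p12_19_2_44 : pfC (piC [(nat_lit 37297016), (nat_lit 23751559), (nat_lit 15232604)] (nat_lit 7465481)) p12_19_2 (nat_lit 3) (nat_lit 44) (nat_lit 45) = true := by decide +kernel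
def p12_19_2_45 : pfC (piC [(nat_lit 37297016), (nat_lit 23751559), (nat_lit 15232604)] (nat_lit 7465481)) p12_19_2 (nat_lit 3) (nat_lit 45) (nat_lit 46) = true := by decide +kernel
def p12_19_2_46 : pfC (piC [(nat_lit 37297016), (nat_lit 23751559), (nat_lit 15232604)] (nat_lit 7465481)) p12_19_2 (nat_lit 3) (nat_lit 46) (nat_lit 47) = true := by decide +kernel
def p12_19_2_47 : pfC (piC [(nat_lit 37297016), (nat_lit 23751559), (nat_lit 15232604)] (nat_lit 7465481)) p12_19_2 (nat_lit 3) (nat_lit 47) (nat_lit 48) = true := by decide +kernel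
def p12_19_2_48 : pfC (piC [(nat_lit 37297016), (nat_lit 23751559), (nat_lit 15232604)] (nat_lit 7465481)) p12_19_2 (nat_lit 3) (nat_lit 48) (nat_lit 49) = true := by decide +kernel
def p12_19_2_49 : pfC (piC [(nat_lit 37297016), (nat_lit 23751559), (nat_lit 15232604)] (nat_lit 7465481)) p12_19_2 (nat_lit 3) (nat_lit 49) (nat_lit 50) = true := by decide +kernel
def p12_19_2_50 : pfC (piC [(nat_lit 37297016), (nat_lit 23751559), (nat_lit 15232604)] (nat_lit 7465481)) p12_19_2 (nat_lit 3) (nat_lit 50) (nat_lit 51) = true := by decide +kernel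
def p12_19_2_51 : pfC (piC [(nat_lit 37297016), (nat_lit 23751559), (nat_lit 15232604)] (nat_lit 7465481)) p12_19_2 (nat_lit 3) (nat_lit 51) (nat_lit 52) = true := by decide +kernel
def p12_19_2_52 : pfC (piC [(nat_lit 37297016), (nat_lit 23751559), (nat_lit 15232604)] (nat_lit 7465481)) p12_19_2 (nat_lit 3) (nat_lit 52) (nat_lit 53) = true := by decide +kernel
def p12_19_2_53 : pfC (piC [(nat_lit 37297016), (nat_lit 23751559), (nat_lit 15232604)] (nat_lit 7465481)) p12_19_2 (nat_lit 3) (nat_lit 53) (nat_lit 54) = true := by decide +kernel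
def p12_19_2_54 : pfC (piC [(nat_lit 37297016), (nat_lit 23751559), (nat_lit 15232604)] (nat_lit 7465481)) p12_19_2 (nat_lit 3) (nat_lit 54) (nat_lit 55) = true := by decide +kernel
def p12_19_2_55 : pfC (piC [(nat_lit 37297016), (nat_lit 23751559), (nat_lit 15232604)] (nat_lit 7465481)) p12_19_2 (nat_lit 3) (nat_lit 55) (nat_lit 56) = true := by decide +kernel
def p12_19_2_56 : pfC (piC [(nat_lit 37297016), (nat_lit 23751559), (nat_lit 15232604)] (nat_lit 7465481)) p12_19_2 (nat_lit 3) (nat_lit 56) (nat_lit 57) = true := by decide +kernel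
def p12_19_2_57 : pfC (piC [(nat_lit 37297016), (nat_lit 23751559), (nat_lit 15232604)] (nat_lit 7465481)) p12_19_2 (nat_lit 3) (nat_lit 57) (nat_lit 58) = true := by decide +kernel
def p12_19_2_58 : pfC (piC [(nat_lit 37297016), (nat_lit 23751559), (nat_lit 15232604)] (nat_lit 7465481)) p12_19_2 (nat_lit 3) (nat_lit 58) (nat_lit 59) = true := by decide +kernel
def p12_19_2_59 : pfC (piC [(nat_lit 37297016), (nat_lit 23751559), (nat_lit 15232604)] (nat_lit 7465481)) p12_19_2 (nat_lit 3) (nat_lit 59) (nat_lit 60) = true := by decide +kernel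
def p12_19_2_60 : pfC (piC [(nat_lit 37297016), (nat_lit 23751559), (nat_lit 15232604)] (nat_lit 7465481)) p12_19_2 (nat_lit 3) (nat_lit 60) (nat_lit 61) = true := by decide +kernel
def p12_19_2_61 : pfC (piC [(nat_lit 37297016), (nat_lit 23751559), (nat_lit 15232604)] (nat_lit 7465481)) p12_19_2 (nat_lit 3) (nat_lit 61) (nat_lit 62) = true := by decide +kernel
def p12_19_2_62 : pfC (piC [(nat_lit 37297016), (nat_lit 23751559), (nat_lit 15232604)] (nat_lit 7465481)) p12_19_2 (nat_lit 3) (nat_lit 62) (nat_lit 63) = true := by decide +kernel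
def p12_19_2_63 : pfC (piC [(nat_lit 37297016), (nat_lit 23751559), (nat_lit 15232604)] (nat_lit 7465481)) p12_19_2 (nat_lit 3) (nat_lit 63) (nat_lit 64) = true := by decide +kernel
def p12_19_2_64 : pfC (piC [(nat_lit 37297016), (nat_lit 23751559), (nat_lit 15232604)] (nat_lit 7465481)) p12_19_2 (nat_lit 3) (nat_lit 64) (nat_lit 65) = true := by decide +kernel
def p12_19_2_65 : pfC (piC [(nat_lit 37297016), (nat_lit 23751559), (nat_lit 15232604)] (nat_lit 7465481)) p12_19_2 (nat_lit 3) (nat_lit 65) (nat_lit 66) = true := by decide +kernel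
def p12_19_2_66 : pfC (piC [(nat_lit 37297016), (nat_lit 23751559), (nat_lit 15232604)] (nat_lit 7465481)) p12_19_2 (nat_lit 3) (nat_lit 66) (nat_lit 67) = true := by decide +kernel
def p12_19_2_67 : pfC (piC [(nat_lit 37297016), (nat_lit 23751559), (nat_lit 15232604)] (nat_lit 7465481)) p12_19_2 (nat_lit 3) (nat_lit 67) (nat_lit 68) = true := by decide +kernel
def p12_19_2_68 : pfC (piC [(nat_lit 37297016), (nat_lit 23751559), (nat_lit 15232604)] (nat_lit 7465481)) p12_19_2 (nat_lit 3) (nat_lit 68) (nat_lit 69) = true := by decide +kernel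
def p12_19_2_69 : pfC (piC [(nat_lit 37297016), (nat_lit 23751559), (nat_lit 15232604)] (nat_lit 7465481)) p12_19_2 (nat_lit 3) (nat_lit 69) (nat_lit 70) = true := by decide +kernel
def p12_19_2_70 : pfC (piC [(nat_lit 37297016), (nat_lit 23751559), (nat_lit 15232604)] (nat_lit 7465481)) p12_19_2 (nat_lit 3) (nat_lit 70) (nat_lit 71) = true := by decide +kernel
def p12_19_2_71 : pfC (piC [(nat_lit 37297016), (nat_lit 23751559), (nat_lit 15232604)] (nat_lit 7465481)) p12_19_2 (nat_lit 3) (nat_lit 71) (nat_lit 72) = true := by decide +kernel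
def p12_19_2_72 : pfC (piC [(nat_lit 37297016), (nat_lit 23751559), (nat_lit 15232604)] (nat_lit 7465481)) p12_19_2 (nat_lit 3) (nat_lit 72) (nat_lit 73) = true := by decide +kernel
def p12_19_2_73 : pfC (piC [(nat_lit 37297016), (nat_lit 23751559), (nat_lit 15232604)] (nat_lit 7465481)) p12_19_2 (nat_lit 3) (nat_lit 73) (nat_lit 74) = true := by decide +kernel
def p12_19_2_74 : pfC (piC [(nat_lit 37297016), (nat_lit 23751559), (nat_lit 15232604)] (nat_lit 7465481)) p12_19_2 (nat_lit 3) (nat_lit 74) (nat_lit 75) = true := by decide +kernel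
def p12_19_2_75 : pfC (piC [(nat_lit 37297016), (nat_lit 23751559), (nat_lit 15232604)] (nat_lit 7465481)) p12_19_2 (nat_lit 3) (nat_lit 75) (nat_lit 76) = true := by decide +kernel
def p12_19_2_76 : pfC (piC [(nat_lit 37297016), (nat_lit 23751559), (nat_lit 15232604)] (nat_lit 7465481)) p12_19_2 (nat_lit 3) (nat_lit 76) (nat_lit 77) = true := by decide +kernel
def p12_19_2_77 : pfC (piC [(nat_lit 37297016), (nat_lit 23751559), (nat_lit 15232604)] (nat_lit 7465481)) p12_19_2 (nat_lit 3) (nat_lit 77) (nat_lit 78) = true := by decide +kernel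
def p12_19_2_78 : pfC (piC [(nat_lit 37297016), (nat_lit 23751559), (nat_lit 15232604)] (nat_lit 7465481)) p12_19_2 (nat_lit 3) (nat_lit 78) (nat_lit 79) = true := by decide +kernel
def p12_19_2_79 : pfC (piC [(nat_lit 37297016), (nat_lit 23751559), (nat_lit 15232604)] (nat_lit 7465481)) p12_19_2 (nat_lit 3) (nat_lit 79) (nat_lit 80) = true := by decide +kernel
def p12_19_2_80 : pfC (piC [(nat_lit 37297016), (nat_lit 23751559), (nat_lit 15232604)] (nat_lit 7465481)) p12_19_2 (nat_lit 3) (nat_lit 80) (nat_lit 81) = true := by decide +kernel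
def p12_19_2_81 : pfC (piC [(nat_lit 37297016), (nat_lit 23751559), (nat_lit 15232604)] (nat_lit 7465481)) p12_19_2 (nat_lit 3) (nat_lit 81) (nat_lit 82) = true := by decide +kernel
def p12_19_2_82 : pfC (piC [(nat_lit 37297016), (nat_lit 23751559), (nat_lit 15232604)] (nat_lit 7465481)) p12_19_2 (nat_lit 3) (nat_lit 82) (nat_lit 83) = true := by decide +kernel
def p12_19_2_83 : pfC (piC [(nat_lit 37297016), (nat_lit 23751559), (nat_lit 15232604)] (nat_lit 7465481)) p12_19_2 (nat_lit 3) (nat_lit 83) (nat_lit 84) = true := by decide +kernel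
def p12_19_2_84 : pfC (piC [(nat_lit 37297016), (nat_lit 23751559), (nat_lit 15232604)] (nat_lit 7465481)) p12_19_2 (nat_lit 3) (nat_lit 84) (nat_lit 85) = true := by decide +kernel
def p12_19_2_85 : pfC (piC [(nat_lit 37297016), (nat_lit 23751559), (nat_lit 15232604)] (nat_lit 7465481)) p12_19_2 (nat_lit 3) (nat_lit 85) (nat_lit 86) = true := by decide +kernel
def p12_19_2_86 : pfC (piC [(nat_lit 37297016), (nat_lit 23751559), (nat_lit 15232604)] (nat_lit 7465481)) p12_19_2 (nat_lit 3) (nat_lit 86) (nat_lit 87) = true := by decide +kernel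
def p12_19_2_87 : pfC (piC [(nat_lit 37297016), (nat_lit 23751559), (nat_lit 15232604)] (nat_lit 7465481)) p12_19_2 (nat_lit 3) (nat_lit 87) (nat_lit 88) = true := by decide +kernel
def p12_19_2_88 : pfC (piC [(nat_lit 37297016), (nat_lit 23751559), (nat_lit 15232604)] (nat_lit 7465481)) p12_19_2 (nat_lit 3) (nat_lit 88) (nat_lit 89) = true := by decide +kernel
def p12_19_2_89 : pfC (piC [(nat_lit 37297016), (nat_lit 23751559), (nat_lit 15232604)] (nat_lit 7465481)) p12_19_2 (nat_lit 3) (nat_lit 89) (nat_lit 90) = true := by decide +kernel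
def p12_19_2_90 : pfC (piC [(nat_lit 37297016), (nat_lit 23751559), (nat_lit 15232604)] (nat_lit 7465481)) p12_19_2 (nat_lit 3) (nat_lit 90) (nat_lit 91) = true := by decide +kernel
def p12_19_2_91 : pfC (piC [(nat_lit 37297016), (nat_lit 23751559), (nat_lit 15232604)] (nat_lit 7465481)) p12_19_2 (nat_lit 3) (nat_lit 91) (nat_lit 92) = true := by decide +kernel
def p12_19_2_92 : pfC (piC [(nat_lit 37297016), (nat_lit 23751559), (nat_lit 15232604)] (nat_lit 7465481)) p12_19_2 (nat_lit 3) (nat_lit 92) (nat_lit 93) = true := by decide +kernel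
def p12_19_2_93 : pfC (piC [(nat_lit 37297016), (nat_lit 23751559), (nat_lit 15232604)] (nat_lit 7465481)) p12_19_2 (nat_lit 3) (nat_lit 93) (nat_lit 94) = true := by decide +kernel
def p12_19_2_94 : pfC (piC [(nat_lit 37297016), (nat_lit 23751559), (nat_lit 15232604)] (nat_lit 7465481)) p12_19_2 (nat_lit 3) (nat_lit 94) (nat_lit 95) = true := by decide +kernel
def p12_19_2_95 : pfC (piC [(nat_lit 37297016), (nat_lit 23751559), (nat_lit 15232604)] (nat_lit 7465481)) p12_19_2 (nat_lit 3) (nat_lit 95) (nat_lit 96) = true := by decide +kernel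
def p12_19_2_96 : pfC (piC [(nat_lit 37297016), (nat_lit 23751559), (nat_lit 15232604)] (nat_lit 7465481)) p12_19_2 (nat_lit 3) (nat_lit 96) (nat_lit 97) = true := by decide +kernel
def p12_19_2_97 : pfC (piC [(nat_lit 37297016), (nat_lit 23751559), (nat_lit 15232604)] (nat_lit 7465481)) p12_19_2 (nat_lit 3) (nat_lit 97) (nat_lit 98) = true := by decide +kernel
def p12_19_2_98 : pfC (piC [(nat_lit 37297016), (nat_lit 23751559), (nat_lit 15232604)] (nat_lit 7465481)) p12_19_2 (nat_lit 3) (nat_lit 98) (nat_lit 99) = true := by decide +kernel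
def p12_19_2_99 : pfC (piC [(nat_lit 37297016), (nat_lit 23751559), (nat_lit 15232604)] (nat_lit 7465481)) p12_19_2 (nat_lit 3) (nat_lit 99) (nat_lit 100) = true := by decide +kernel
def p12_19_2_100 : pfC (piC [(nat_lit 37297016), (nat_lit 23751559), (nat_lit 15232604)] (nat_lit 7465481)) p12_19_2 (nat_lit 3) (nat_lit 100) (nat_lit 101) = true := by decide +kernel
def p12_19_2_101 : pfC (piC [(nat_lit 37297016), (nat_lit 23751559), (nat_lit 15232604)] (nat_lit 7465481)) p12_19_2 (nat_lit 3) (nat_lit 101) (nat_lit 102) = true := by decide +kernel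
def p12_19_2_102 : pfC (piC [(nat_lit 37297016), (nat_lit 23751559), (nat_lit 15232604)] (nat_lit 7465481)) p12_19_2 (nat_lit 3) (nat_lit 102) (nat_lit 103) = true := by decide +kernel
def p12_19_2_103 : pfC (piC [(nat_lit 37297016), (nat_lit 23751559), (nat_lit 15232604)] (nat_lit 7465481)) p12_19_2 (nat_lit 3) (nat_lit 103) (nat_lit 104) = true := by decide +kernel
def p12_19_2_104 : pfC (piC [(nat_lit 37297016), (nat_lit 23751559), (nat_lit 15232604)] (nat_lit 7465481)) p12_19_2 (nat_lit 3) (nat_lit 104) (nat_lit 105) = true := by decide +kernel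
def p12_19_2_105 : pfC (piC [(nat_lit 37297016), (nat_lit 23751559), (nat_lit 15232604)] (nat_lit 7465481)) p12_19_2 (nat_lit 3) (nat_lit 105) (nat_lit 106) = true := by decide +kernel
def p12_19_2_106 : pfC (piC [(nat_lit 37297016), (nat_lit 23751559), (nat_lit 15232604)] (nat_lit 7465481)) p12_19_2 (nat_lit 3) (nat_lit 106) (nat_lit 107) = true := by decide +kernel
def p12_19_2_107 : pfC (piC [(nat_lit 37297016), (nat_lit 23751559), (nat_lit 15232604)] (nat_lit 7465481)) p12_19_2 (nat_lit 3) (nat_lit 107) (nat_lit 108) = true := by decide +kernel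
def p12_19_2_108 : pfC (piC [(nat_lit 37297016), (nat_lit 23751559), (nat_lit 15232604)] (nat_lit 7465481)) p12_19_2 (nat_lit 3) (nat_lit 108) (nat_lit 109) = true := by decide +kernel
def p12_19_2_109 : pfC (piC [(nat_lit 37297016), (nat_lit 23751559), (nat_lit 15232604)] (nat_lit 7465481)) p12_19_2 (nat_lit 3) (nat_lit 109) (nat_lit 110) = true := by decide +kernel
def p12_19_2_110 : pfC (piC [(nat_lit 37297016), (nat_lit 23751559), (nat_lit 15232604)] (nat_lit 7465481)) p12_19_2 (nat_lit 3) (nat_lit 110) (nat_lit 111) = true := by decide +kernel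
def p12_19_2_111 : pfC (piC [(nat_lit 37297016), (nat_lit 23751559), (nat_lit 15232604)] (nat_lit 7465481)) p12_19_2 (nat_lit 3) (nat_lit 111) (nat_lit 112) = true := by decide +kernel
def p12_19_2_112 : pfC (piC [(nat_lit 37297016), (nat_lit 23751559), (nat_lit 15232604)] (nat_lit 7465481)) p12_19_2 (nat_lit 3) (nat_lit 112) (nat_lit 113) = true := by decide +kernel
def p12_19_2_113 : pfC (piC [(nat_lit 37297016), (nat_lit 23751559), (nat_lit 15232604)] (nat_lit 7465481)) p12_19_2 (nat_lit 3) (nat_lit 113) (nat_lit 114) = true := by decide +kernel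
def p12_19_2_114 : pfC (piC [(nat_lit 37297016), (nat_lit 23751559), (nat_lit 15232604)] (nat_lit 7465481)) p12_19_2 (nat_lit 3) (nat_lit 114) (nat_lit 115) = true := by decide +kernel
def p12_19_2_115 : pfC (piC [(nat_lit 37297016), (nat_lit 23751559), (nat_lit 15232604)] (nat_lit 7465481)) p12_19_2 (nat_lit 3) (nat_lit 115) (nat_lit 116) = true := by decide +kernel
def p12_19_2_116 : pfC (piC [(nat_lit 37297016), (nat_lit 23751559), (nat_lit 15232604)] (nat_lit 7465481)) p12_19_2 (nat_lit 3) (nat_lit 116) (nat_lit 117) = true := by decide +kernel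
def p12_19_2_117 : pfC (piC [(nat_lit 37297016), (nat_lit 23751559), (nat_lit 15232604)] (nat_lit 7465481)) p12_19_2 (nat_lit 3) (nat_lit 117) (nat_lit 118) = true := by decide +kernel
def p12_19_2_118 : pfC (piC [(nat_lit 37297016), (nat_lit 23751559), (nat_lit 15232604)] (nat_lit 7465481)) p12_19_2 (nat_lit 3) (nat_lit 118) (nat_lit 119) = true := by decide +kernel
def p12_19_2_119 : pfC (piC [(nat_lit 37297016), (nat_lit 23751559), (nat_lit 15232604)] (nat_lit 7465481)) p12_19_2 (nat_lit 3) (nat_lit 119) (nat_lit 120) = true := by decide +kernel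
def p12_19_2_120 : pfC (piC [(nat_lit 37297016), (nat_lit 23751559), (nat_lit 15232604)] (nat_lit 7465481)) p12_19_2 (nat_lit 3) (nat_lit 120) (nat_lit 121) = true := by decide +kernel
def p12_19_2_121 : pfC (piC [(nat_lit 37297016), (nat_lit 23751559), (nat_lit 15232604)] (nat_lit 7465481)) p12_19_2 (nat_lit 3) (nat_lit 121) (nat_lit 122) = true := by decide +kernel
def p12_19_2_122 : pfC (piC [(nat_lit 37297016), (nat_lit 23751559), (nat_lit 15232604)] (nat_lit 7465481)) p12_19_2 (nat_lit 3) (nat_lit 122) (nat_lit 123) = true := by decide +kernel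
def p12_19_2_123 : pfC (piC [(nat_lit 37297016), (nat_lit 23751559), (nat_lit 15232604)] (nat_lit 7465481)) p12_19_2 (nat_lit 3) (nat_lit 123) (nat_lit 124) = true := by decide +kernel
def p12_19_2_124 : pfC (piC [(nat_lit 37297016), (nat_lit 23751559), (nat_lit 15232604)] (nat_lit 7465481)) p12_19_2 (nat_lit 3) (nat_lit 124) (nat_lit 125) = true := by decide +kernel
def p12_19_2_125 : pfC (piC [(nat_lit 37297016), (nat_lit 23751559), (nat_lit 15232604)] (nat_lit 7465481)) p12_19_2 (nat_lit 3) (nat_lit 125) (nat_lit 126) = true := by decide +kernel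
def p12_19_2_126 : pfC (piC [(nat_lit 37297016), (nat_lit 23751559), (nat_lit 15232604)] (nat_lit 7465481)) p12_19_2 (nat_lit 3) (nat_lit 126) (nat_lit 127) = true := by decide +kernel
def p12_19_2_127 : pfC (piC [(nat_lit 37297016), (nat_lit 23751559), (nat_lit 15232604)] (nat_lit 7465481)) p12_19_2 (nat_lit 3) (nat_lit 127) (nat_lit 128) = true := by decide +kernel
def p12_19_2_128 : pfC (piC [(nat_lit 37297016), (nat_lit 23751559), (nat_lit 15232604)] (nat_lit 7465481)) p12_19_2 (nat_lit 3) (nat_lit 128) (nat_lit 129) = true := by decide +kernel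
def p12_19_2_129 : pfC (piC [(nat_lit 37297016), (nat_lit 23751559), (nat_lit 15232604)] (nat_lit 7465481)) p12_19_2 (nat_lit 3) (nat_lit 129) (nat_lit 130) = true := by decide +kernel
def p12_19_2_130 : pfC (piC [(nat_lit 37297016), (nat_lit 23751559), (nat_lit 15232604)] (nat_lit 7465481)) p12_19_2 (nat_lit 3) (nat_lit 130) (nat_lit 131) = true := by decide +kernel
def p12_19_2_131 : pfC (piC [(nat_lit 37297016), (nat_lit 23751559), (nat_lit 15232604)] (nat_lit 7465481)) p12_19_2 (nat_lit 3) (nat_lit 131) (nat_lit 132) = true := by decide +kernel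
def p12_19_2_132 : pfC (piC [(nat_lit 37297016), (nat_lit 23751559), (nat_lit 15232604)] (nat_lit 7465481)) p12_19_2 (nat_lit 3) (nat_lit 132) (nat_lit 133) = true := by decide +kernel
def p12_19_2_133 : pfC (piC [(nat_lit 37297016), (nat_lit 23751559), (nat_lit 15232604)] (nat_lit 7465481)) p12_19_2 (nat_lit 3) (nat_lit 133) (nat_lit 134) = true := by decide +kernel
def p12_19_2_134 : pfC (piC [(nat_lit 37297016), (nat_lit 23751559), (nat_lit 15232604)] (nat_lit 7465481)) p12_19_2 (nat_lit 3) (nat_lit 134) (nat_lit 135) = true := by decide +kernel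
def p12_19_2_135 : pfC (piC [(nat_lit 37297016), (nat_lit 23751559), (nat_lit 15232604)] (nat_lit 7465481)) p12_19_2 (nat_lit 3) (nat_lit 135) (nat_lit 136) = true := by decide +kernel
def p12_19_2_136 : pfC (piC [(nat_lit 37297016), (nat_lit 23751559), (nat_lit 15232604)] (nat_lit 7465481)) p12_19_2 (nat_lit 3) (nat_lit 136) (nat_lit 137) = true := by decide +kernel
def p12_19_2_137 : pfC (piC [(nat_lit 37297016), (nat_lit 23751559), (nat_lit 15232604)] (nat_lit 7465481)) p12_19_2 (nat_lit 3) (nat_lit 137) (nat_lit 138) = true := by decide +kernel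
def p12_19_2_138 : pfC (piC [(nat_lit 37297016), (nat_lit 23751559), (nat_lit 15232604)] (nat_lit 7465481)) p12_19_2 (nat_lit 3) (nat_lit 138) (nat_lit 139) = true := by decide +kernel
def p12_19_2_139 : pfC (piC [(nat_lit 37297016), (nat_lit 23751559), (nat_lit 15232604)] (nat_lit 7465481)) p12_19_2 (nat_lit 3) (nat_lit 139) (nat_lit 140) = true := by decide +kernel
def p12_19_2_140 : pfC (piC [(nat_lit 37297016), (nat_lit 23751559), (nat_lit 15232604)] (nat_lit 7465481)) p12_19_2 (nat_lit 3) (nat_lit 140) (nat_lit 141) = true := by decide +kernel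
def p12_19_2_141 : pfC (piC [(nat_lit 37297016), (nat_lit 23751559), (nat_lit 15232604)] (nat_lit 7465481)) p12_19_2 (nat_lit 3) (nat_lit 141) (nat_lit 142) = true := by decide +kernel
def p12_19_2_142 : pfC (piC [(nat_lit 37297016), (nat_lit 23751559), (nat_lit 15232604)] (nat_lit 7465481)) p12_19_2 (nat_lit 3) (nat_lit 142) (nat_lit 143) = true := by decide +kernel
def p12_19_2_143 : pfC (piC [(nat_lit 37297016), (nat_lit 23751559), (nat_lit 15232604)] (nat_lit 7465481)) p12_19_2 (nat_lit 3) (nat_lit 143) (nat_lit 144) = true := by decide +kernel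
def p12_19_2_144 : pfC (piC [(nat_lit 37297016), (nat_lit 23751559), (nat_lit 15232604)] (nat_lit 7465481)) p12_19_2 (nat_lit 3) (nat_lit 144) (nat_lit 145) = true := by decide +kernel
def p12_19_2_145 : pfC (piC [(nat_lit 37297016), (nat_lit 23751559), (nat_lit 15232604)] (nat_lit 7465481)) p12_19_2 (nat_lit 3) (nat_lit 145) (nat_lit 146) = true := by decide +kernel
def p12_19_2_146 : pfC (piC [(nat_lit 37297016), (nat_lit 23751559), (nat_lit 15232604)] (nat_lit 7465481)) p12_19_2 (nat_lit 3) (nat_lit 146) (nat_lit 147) = true := by decide +kernel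
def p12_19_2_147 : pfC (piC [(nat_lit 37297016), (nat_lit 23751559), (nat_lit 15232604)] (nat_lit 7465481)) p12_19_2 (nat_lit 3) (nat_lit 147) (nat_lit 148) = true := by decide +kernel
def p12_19_2_148 : pfC (piC [(nat_lit 37297016), (nat_lit 23751559), (nat_lit 15232604)] (nat_lit 7465481)) p12_19_2 (nat_lit 3) (nat_lit 148) (nat_lit 149) = true := by decide +kernel
def p12_19_2_149 : pfC (piC [(nat_lit 37297016), (nat_lit 23751559), (nat_lit 15232604)] (nat_lit 7465481)) p12_19_2 (nat_lit 3) (nat_lit 149) (nat_lit 150) = true := by decide +kernel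
def p12_19_2_150 : pfC (piC [(nat_lit 37297016), (nat_lit 23751559), (nat_lit 15232604)] (nat_lit 7465481)) p12_19_2 (nat_lit 3) (nat_lit 150) (nat_lit 151) = true := by decide +kernel
def p12_19_2_151 : pfC (piC [(nat_lit 37297016), (nat_lit 23751559), (nat_lit 15232604)] (nat_lit 7465481)) p12_19_2 (nat_lit 3) (nat_lit 151) (nat_lit 152) = true := by decide +kernel
def p12_19_2_152 : pfC (piC [(nat_lit 37297016), (nat_lit 23751559), (nat_lit 15232604)] (nat_lit 7465481)) p12_19_2 (nat_lit 3) (nat_lit 152) (nat_lit 153) = true := by decide +kernel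
def p12_19_2_153 : pfC (piC [(nat_lit 37297016), (nat_lit 23751559), (nat_lit 15232604)] (nat_lit 7465481)) p12_19_2 (nat_lit 3) (nat_lit 153) (nat_lit 154) = true := by decide +kernel
def p12_19_2_154 : pfC (piC [(nat_lit 37297016), (nat_lit 23751559), (nat_lit 15232604)] (nat_lit 7465481)) p12_19_2 (nat_lit 3) (nat_lit 154) (nat_lit 155) = true := by decide +kernel
def p12_19_2_155 : pfC (piC [(nat_lit 37297016), (nat_lit 23751559), (nat_lit 15232604)] (nat_lit 7465481)) p12_19_2 (nat_lit 3) (nat_lit 155) (nat_lit 156) = true := by decide +kernel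
def p12_19_2_156 : pfC (piC [(nat_lit 37297016), (nat_lit 23751559), (nat_lit 15232604)] (nat_lit 7465481)) p12_19_2 (nat_lit 3) (nat_lit 156) (nat_lit 157) = true := by decide +kernel
def p12_19_2_157 : pfC (piC [(nat_lit 37297016), (nat_lit 23751559), (nat_lit 15232604)] (nat_lit 7465481)) p12_19_2 (nat_lit 3) (nat_lit 157) (nat_lit 158) = true := by decide +kernel
def p12_19_2_158 : pfC (piC [(nat_lit 37297016), (nat_lit 23751559), (nat_lit 15232604)] (nat_lit 7465481)) p12_19_2 (nat_lit 3) (nat_lit 158) (nat_lit 159) = true := by decide +kernel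
def p12_19_2_159 : pfC (piC [(nat_lit 37297016), (nat_lit 23751559), (nat_lit 15232604)] (nat_lit 7465481)) p12_19_2 (nat_lit 3) (nat_lit 159) (nat_lit 160) = true := by decide +kernel
def p12_19_2_160 : pfC (piC [(nat_lit 37297016), (nat_lit 23751559), (nat_lit 15232604)] (nat_lit 7465481)) p12_19_2 (nat_lit 3) (nat_lit 160) (nat_lit 161) = true := by decide +kernel
def p12_19_2_161 : pfC (piC [(nat_lit 37297016), (nat_lit 23751559), (nat_lit 15232604)] (nat_lit 7465481)) p12_19_2 (nat_lit 3) (nat_lit 161) (nat_lit 162) = true := by decide +kernel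
def p12_19_2_162 : pfC (piC [(nat_lit 37297016), (nat_lit 23751559), (nat_lit 15232604)] (nat_lit 7465481)) p12_19_2 (nat_lit 3) (nat_lit 162) (nat_lit 163) = true := by decide +kernel
def p12_19_2_163 : pfC (piC [(nat_lit 37297016), (nat_lit 23751559), (nat_lit 15232604)] (nat_lit 7465481)) p12_19_2 (nat_lit 3) (nat_lit 163) (nat_lit 164) = true := by decide +kernel
def p12_19_2_164 : pfC (piC [(nat_lit 37297016), (nat_lit 23751559), (nat_lit 15232604)] (nat_lit 7465481)) p12_19_2 (nat_lit 3) (nat_lit 164) (nat_lit 165) = true := by decide +kernel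
def p12_19_2_165 : pfC (piC [(nat_lit 37297016), (nat_lit 23751559), (nat_lit 15232604)] (nat_lit 7465481)) p12_19_2 (nat_lit 3) (nat_lit 165) (nat_lit 166) = true := by decide +kernel
def p12_19_2_166 : pfC (piC [(nat_lit 37297016), (nat_lit 23751559), (nat_lit 15232604)] (nat_lit 7465481)) p12_19_2 (nat_lit 3) (nat_lit 166) (nat_lit 167) = true := by decide +kernel
def p12_19_2_167 : pfC (piC [(nat_lit 37297016), (nat_lit 23751559), (nat_lit 15232604)] (nat_lit 7465481)) p12_19_2 (nat_lit 3) (nat_lit 167) (nat_lit 168) = true := by decide +kernel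
def p12_19_2_168 : pfC (piC [(nat_lit 37297016), (nat_lit 23751559), (nat_lit 15232604)] (nat_lit 7465481)) p12_19_2 (nat_lit 3) (nat_lit 168) (nat_lit 169) = true := by decide +kernel
def p12_19_2_169 : pfC (piC [(nat_lit 37297016), (nat_lit 23751559), (nat_lit 15232604)] (nat_lit 7465481)) p12_19_2 (nat_lit 3) (nat_lit 169) (nat_lit 170) = true := by decide +kernel
def p12_19_2_170 : pfC (piC [(nat_lit 37297016), (nat_lit 23751559), (nat_lit 15232604)] (nat_lit 7465481)) p12_19_2 (nat_lit 3) (nat_lit 170) (nat_lit 171) = true := by decide +kernel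
def p12_19_2_171 : pfC (piC [(nat_lit 37297016), (nat_lit 23751559), (nat_lit 15232604)] (nat_lit 7465481)) p12_19_2 (nat_lit 3) (nat_lit 171) (nat_lit 172) = true := by decide +kernel
def p12_19_2_172 : pfC (piC [(nat_lit 37297016), (nat_lit 23751559), (nat_lit 15232604)] (nat_lit 7465481)) p12_19_2 (nat_lit 3) (nat_lit 172) (nat_lit 173) = true := by decide +kernel
def p12_19_2_173 : pfC (piC [(nat_lit 37297016), (nat_lit 23751559), (nat_lit 15232604)] (nat_lit 7465481)) p12_19_2 (nat_lit 3) (nat_lit 173) (nat_lit 174) = true := by decide +kernel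
def p12_19_2_174 : pfC (piC [(nat_lit 37297016), (nat_lit 23751559), (nat_lit 15232604)] (nat_lit 7465481)) p12_19_2 (nat_lit 3) (nat_lit 174) (nat_lit 175) = true := by decide +kernel
def p12_19_2_175 : pfC (piC [(nat_lit 37297016), (nat_lit 23751559), (nat_lit 15232604)] (nat_lit 7465481)) p12_19_2 (nat_lit 3) (nat_lit 175) (nat_lit 176) = true := by decide +kernel
def p12_19_2_176 : pfC (piC [(nat_lit 37297016), (nat_lit 23751559), (nat_lit 15232604)] (nat_lit 7465481)) p12_19_2 (nat_lit 3) (nat_lit 176) (nat_lit 177) = true := by decide +kernel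
def p12_19_2_177 : pfC (piC [(nat_lit 37297016), (nat_lit 23751559), (nat_lit 15232604)] (nat_lit 7465481)) p12_19_2 (nat_lit 3) (nat_lit 177) (nat_lit 178) = true := by decide +kernel
def p12_19_2_178 : pfC (piC [(nat_lit 37297016), (nat_lit 23751559), (nat_lit 15232604)] (nat_lit 7465481)) p12_19_2 (nat_lit 3) (nat_lit 178) (nat_lit 179) = true := by decide +kernel
def p12_19_2_179 : pfC (piC [(nat_lit 37297016), (nat_lit 23751559), (nat_lit 15232604)] (nat_lit 7465481)) p12_19_2 (nat_lit 3) (nat_lit 179) (nat_lit 180) = true := by decide +kernel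
def p12_19_2_180 : pfC (piC [(nat_lit 37297016), (nat_lit 23751559), (nat_lit 15232604)] (nat_lit 7465481)) p12_19_2 (nat_lit 3) (nat_lit 180) (nat_lit 181) = true := by decide +kernel
def p12_19_2_181 : pfC (piC [(nat_lit 37297016), (nat_lit 23751559), (nat_lit 15232604)] (nat_lit 7465481)) p12_19_2 (nat_lit 3) (nat_lit 181) (nat_lit 182) = true := by decide +kernel
def p12_19_2_182 : pfC (piC [(nat_lit 37297016), (nat_lit 23751559), (nat_lit 15232604)] (nat_lit 7465481)) p12_19_2 (nat_lit 3) (nat_lit 182) (nat_lit 183) = true := by decide +kernel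
def p12_19_2_183 : pfC (piC [(nat_lit 37297016), (nat_lit 23751559), (nat_lit 15232604)] (nat_lit 7465481)) p12_19_2 (nat_lit 3) (nat_lit 183) (nat_lit 184) = true := by decide +kernel
def p12_19_2_184 : pfC (piC [(nat_lit 37297016), (nat_lit 23751559), (nat_lit 15232604)] (nat_lit 7465481)) p12_19_2 (nat_lit 3) (nat_lit 184) (nat_lit 185) = true := by decide +kernel
def p12_19_2_185 : pfC (piC [(nat_lit 37297016), (nat_lit 23751559), (nat_lit 15232604)] (nat_lit 7465481)) p12_19_2 (nat_lit 3) (nat_lit 185) (nat_lit 186) = true := by decide +kernel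
def p12_19_2_186 : pfC (piC [(nat_lit 37297016), (nat_lit 23751559), (nat_lit 15232604)] (nat_lit 7465481)) p12_19_2 (nat_lit 3) (nat_lit 186) (nat_lit 187) = true := by decide +kernel
def p12_19_2_187 : pfC (piC [(nat_lit 37297016), (nat_lit 23751559), (nat_lit 15232604)] (nat_lit 7465481)) p12_19_2 (nat_lit 3) (nat_lit 187) (nat_lit 188) = true := by decide +kernel
def p12_19_2_188 : pfC (piC [(nat_lit 37297016), (nat_lit 23751559), (nat_lit 15232604)] (nat_lit 7465481)) p12_19_2 (nat_lit 3) (nat_lit 188) (nat_lit 189) = true := by decide +kernel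
def p12_19_2_189 : pfC (piC [(nat_lit 37297016), (nat_lit 23751559), (nat_lit 15232604)] (nat_lit 7465481)) p12_19_2 (nat_lit 3) (nat_lit 189) (nat_lit 190) = true := by decide +kernel
theorem p12_19_2_T : PfS (PiF n12_19.reverse (nat_lit 7465481)) p12_19_2 (nat_lit 3) [] 0 :=
  pftab_of (los := [(nat_lit 37297016), (nat_lit 23751559), (nat_lit 15232604)]) (by decide +kernel) (hi := (nat_lit 190)) (PfP.trans (PfP.trans (PfP.trans (PfP.trans (PfP.trans (PfP.trans (PfP.trans (PfP.trans (PfP.trans (PfP.trans (PfP.trans (PfP.trans (PfP.trans (PfP.trans (PfP.trans (PfP.trans (PfP.trans (PfP.trans (PfP.trans (PfP.trans (PfP.trans (PfP.trans (PfP.trans (PfP.trans (PfP.trans (PfP.trans (PfP.trans (PfP.trans (PfP.trans (PfP.trans (PfP.trans (PfP.trans (PfP.trans (PfP.trans (PfP.trans (PfP.trans (PfP.trans (PfP.trans (PfP.trans (PfP.trans (PfP.trans (PfP.trans (PfP.trans (PfP.trans (PfP.trans (PfP.trans (PfP.trans (PfP.trans (PfP.trans (PfP.trans (PfP.trans (PfP.trans (PfP.trans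 (PfP.trans (PfP.trans (PfP.trans (PfP.trans (PfP.trans (PfP.trans (PfP.trans (PfP.trans (PfP.trans (PfP.trans (PfP.trans (PfP.trans (PfP.trans (PfP.trans (PfP.trans (PfP.trans (PfP.trans (PfP.trans (PfP.trans (PfP.trans (PfP.trans (PfP.trans (PfP.trans (PfP.trans (PfP.trans (PfP.trans (PfP.trans (PfP.trans (PfP.trans (PfP.trans (PfP.trans (PfP.trans (PfP.trans (PfP.trans (PfP.trans (PfP.trans (PfP.trans (PfP.trans (PfP.trans (PfP.trans (PfP.trans (PfP.trans (PfP.trans (PfP.trans (PfP.trans (PfP.trans (PfP.trans (PfP.trans (PfP.trans (PfP.trans (PfP.trans (PfP.trans (PfP.trans (PfP.trans (PfP.trans (PfP.trans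
 (PfP.trans (PfP.trans (PfP.trans (PfP.trans (PfP.trans (PfP.trans (PfP.trans (PfP.trans (PfP.trans (PfP.trans (PfP.trans (PfP.trans (PfP.trans (PfP.trans (PfP.trans (PfP.trans (PfP.trans (PfP.trans (PfP.trans (PfP.trans (PfP.trans (PfP.trans (PfP.trans (PfP.trans (PfP.trans (PfP.trans (PfP.trans (PfP.trans (PfP.trans (PfP.trans (PfP.trans (PfP.trans (PfP.trans (PfP.trans (PfP.trans (PfP.trans (PfP.trans (PfP.trans (PfP.trans (PfP.trans (PfP.trans (PfP.trans (PfP.trans (PfP.trans (PfP.trans (PfP.trans (PfP.trans (PfP.trans (PfP.trans (PfP.trans (PfP.trans (PfP.trans (PfP.trans (PfP.trans (PfP.trans (PfP.trans (PfP.trans (PfP.trans (PfP.trans (PfP.trans (PfP.trans (PfP.trans (PfP.trans (PfP.trans (PfP.trans (PfP.trans (PfP.trans (PfP.trans (PfP.trans (PfP.trans (PfP.trans (PfP.trans (PfP.trans (PfP.trans (PfP.trans (PfP.trans (PfP.trans (PfP.trans (PfP.trans (PfP.trans (pfC_sound p12_19_2_0) (pfC_sound p12_19_2_1)) (pfC_sound p12_19_2_2)) (pfC_sound p12_19_2_3)) (pfC_sound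 p12_19_2_4)) (pfC_sound p12_19_2_5)) (pfC_sound p12_19_2_6)) (pfC_sound p12_19_2_7)) (pfC_sound p12_19_2_8)) (pfC_sound p12_19_2_9)) (pfC_sound p12_19_2_10)) (pfC_sound p12_19_2_11)) (pfC_sound p12_19_2_12))
 (pfC_sound p12_19_2_13)) (pfC_sound p12_19_2_14)) (pfC_sound p12_19_2_15)) (pfC_sound p12_19_2_16)) (pfC_sound p12_19_2_17)) (pfC_sound p12_19_2_18)) (pfC_sound p12_19_2_19)) (pfC_sound p12_19_2_20)) (pfC_sound p12_19_2_21)) (pfC_sound p12_19_2_22)) (pfC_sound p12_19_2_23)) (pfC_sound p12_19_2_24)) (pfC_sound p12_19_2_25)) (pfC_sound p12_19_2_26)) (pfC_sound p12_19_2_27)) (pfC_sound p12_19_2_28)) (pfC_sound p12_19_2_29)) (pfC_sound p12_19_2_30)) (pfC_sound p12_19_2_31)) (pfC_sound p12_19_2_32)) (pfC_sound p12_19_2_33)) (pfC_sound p12_19_2_34)) (pfC_sound p12_19_2_35)) (pfC_sound p12_19_2_36)) (pfC_sound p12_19_2_37)) (pfC_sound p12_19_2_38)) (pfC_sound p12_19_2_39)) (pfC_sound p12_19_2_40)) (pfC_sound p12_19_2_41)) (pfC_sound p12_19_2_42)) (pfC_sound p12_19_2_43))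 (pfC_sound p12_19_2_44)) (pfC_sound p12_19_2_45)) (pfC_sound p12_19_2_46)) (pfC_sound p12_19_2_47)) (pfC_sound p12_19_2_48)) (pfC_sound p12_19_2_49)) (pfC_sound p12_19_2_50)) (pfC_sound p12_19_2_51)) (pfC_sound p12_19_2_52)) (pfC_sound p12_19_2_53)) (pfC_sound p12_19_2_54)) (pfC_sound p12_19_2_55)) (pfC_sound p12_19_2_56)) (pfC_sound p12_19_2_57)) (pfC_sound p12_19_2_58)) (pfC_sound p12_19_2_59)) (pfC_sound p12_19_2_60))
 (pfC_sound p12_19_2_61)) (pfC_sound p12_19_2_62)) (pfC_sound p12_19_2_63)) (pfC_sound p12_19_2_64)) (pfC_sound p12_19_2_65)) (pfC_sound p12_19_2_66)) (pfC_sound p12_19_2_67)) (pfC_sound p12_19_2_68)) (pfC_sound p12_19_2_69)) (pfC_sound p12_19_2_70)) (pfC_sound p12_19_2_71)) (pfC_sound p12_19_2_72)) (pfC_sound p12_19_2_73)) (pfC_sound p12_19_2_74)) (pfC_sound p12_19_2_75)) (pfC_sound p12_19_2_76)) (pfC_sound p12_19_2_77)) (pfC_sound p12_19_2_78)) (pfC_sound p12_19_2_79)) (pfC_sound p12_19_2_80)) (pfC_sound p12_19_2_81)) (pfC_sound p12_19_2_82)) (pfC_sound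 p12_19_2_83)) (pfC_sound p12_19_2_84)) (pfC_sound p12_19_2_85)) (pfC_sound p12_19_2_86)) (pfC_sound p12_19_2_87)) (pfC_sound p12_19_2_88)) (pfC_sound p12_19_2_89)) (pfC_sound p12_19_2_90)) (pfC_sound p12_19_2_91)) (pfC_sound p12_19_2_92)) (pfC_sound p12_19_2_93)) (pfC_sound p12_19_2_94)) (pfC_sound p12_19_2_95)) (pfC_sound p12_19_2_96)) (pfC_sound p12_19_2_97)) (pfC_sound p12_19_2_98)) (pfC_sound p12_19_2_99)) (pfC_sound p12_19_2_100)) (pfC_sound p12_19_2_101)) (pfC_sound p12_19_2_102)) (pfC_sound p12_19_2_103)) (pfC_sound p12_19_2_104)) (pfC_sound p12_19_2_105)) (pfC_sound p12_19_2_106)) (pfC_sound p12_19_2_107)) (pfC_sound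
 p12_19_2_108)) (pfC_sound p12_19_2_109)) (pfC_sound p12_19_2_110)) (pfC_sound p12_19_2_111)) (pfC_sound p12_19_2_112)) (pfC_sound p12_19_2_113)) (pfC_sound p12_19_2_114)) (pfC_sound p12_19_2_115)) (pfC_sound p12_19_2_116)) (pfC_sound p12_19_2_117)) (pfC_sound p12_19_2_118)) (pfC_sound p12_19_2_119)) (pfC_sound p12_19_2_120)) (pfC_sound p12_19_2_121)) (pfC_sound p12_19_2_122)) (pfC_sound p12_19_2_123)) (pfC_sound p12_19_2_124)) (pfC_sound p12_19_2_125)) (pfC_sound p12_19_2_126)) (pfC_sound p12_19_2_127)) (pfC_sound p12_19_2_128)) (pfC_sound p12_19_2_129)) (pfC_sound p12_19_2_130)) (pfC_sound p12_19_2_131)) (pfC_sound p12_19_2_132)) (pfC_sound p12_19_2_133)) (pfC_sound p12_19_2_134)) (pfC_sound p12_19_2_135)) (pfC_sound p12_19_2_136)) (pfC_sound p12_19_2_137)) (pfC_sound p12_19_2_138)) (pfC_sound p12_19_2_139)) (pfC_sound p12_19_2_140)) (pfC_sound p12_19_2_141)) (pfC_sound p12_19_2_142)) (pfC_sound p12_19_2_143)) (pfC_sound p12_19_2_144)) (pfC_sound p12_19_2_145)) (pfC_sound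 p12_19_2_146)) (pfC_sound p12_19_2_147)) (pfC_sound p12_19_2_148)) (pfC_sound p12_19_2_149)) (pfC_sound p12_19_2_150)) (pfC_sound p12_19_2_151)) (pfC_sound p12_19_2_152)) (pfC_sound p12_19_2_153)) (pfC_sound
 p12_19_2_154)) (pfC_sound p12_19_2_155)) (pfC_sound p12_19_2_156)) (pfC_sound p12_19_2_157)) (pfC_sound p12_19_2_158)) (pfC_sound p12_19_2_159)) (pfC_sound p12_19_2_160)) (pfC_sound p12_19_2_161)) (pfC_sound p12_19_2_162)) (pfC_sound p12_19_2_163)) (pfC_sound p12_19_2_164)) (pfC_sound p12_19_2_165)) (pfC_sound p12_19_2_166)) (pfC_sound p12_19_2_167)) (pfC_sound p12_19_2_168)) (pfC_sound p12_19_2_169)) (pfC_sound p12_19_2_170)) (pfC_sound p12_19_2_171)) (pfC_sound p12_19_2_172)) (pfC_sound p12_19_2_173)) (pfC_sound p12_19_2_174)) (pfC_sound p12_19_2_175)) (pfC_sound p12_19_2_176)) (pfC_sound p12_19_2_177)) (pfC_sound p12_19_2_178)) (pfC_sound p12_19_2_179)) (pfC_sound p12_19_2_180)) (pfC_sound p12_19_2_181)) (pfC_sound p12_19_2_182)) (pfC_sound p12_19_2_183)) (pfC_sound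 p12_19_2_184)) (pfC_sound p12_19_2_185)) (pfC_sound p12_19_2_186)) (pfC_sound p12_19_2_187)) (pfC_sound p12_19_2_188)) (pfC_sound p12_19_2_189)) (by decide +kernel)

def z12_19_2 : zOK yB12_19 (nat_lit 2) (nat_lit 600) (nat_lit 682) (nat_lit 7465481) (nat_lit 7277388) = true := by decide +kernel
def g12_19_2 : gOK yB12_19.x P12_19 (nat_lit 1377) (q12_19 :: r12_19) (nat_lit 2) (nat_lit 600) (nat_lit 3) (nat_lit 682) (nat_lit 12712500) (nat_lit 12712500) (nat_lit 12712500) (nat_lit 12712500) [(nat_lit 800)] = true := by decide +kernel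
def v12_19_2 : ivC P12_19 s12_19 w12_19 n12_19 (nat_lit 3) (nat_lit 4680) (nat_lit 2) (nat_lit 600) f184_0_600 f192_0_600 (nat_lit 3) (nat_lit 682) f184_0_682 f192_0_682 (nat_lit 7465481) (nat_lit 7277388) p12_19_2 = true := by decide +kernel
end CB
end Pool.Agent.Lib.MP_6947cd_al
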