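import Pool.Agent.Lib.MP_6947cd_al.L.BoxDataB
import Pool.Agent.Lib.MP_6947cd_al.L.ReZ
import Pool.Agent.Lib.MP_6947cd_al.L.TeC1
import Pool.Agent.Lib.MP_6947cd_al.L.TeC2
import Pool.Agent.Lib.MP_6947cd_al.L.TeC3
import Pool.Agent.Lib.MP_6947cd_al.L.TeC4
import Pool.Agent.Lib.MP_6947cd_al.L.TeC5
import Pool.Agent.Lib.MP_6947cd_al.L.TeC6
import Pool.Agent.Lib.MP_6947cd_al.L.TeC7
import Pool.Agent.Lib.MP_6947cd_al.L.TeC8
import Pool.Agent.Lib.MP_6947cd_al.L.TeC9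
import Pool.Agent.Lib.MP_6947cd_al.L.TeC10
import Pool.Agent.Lib.MP_6947cd_al.L.TeC11
import Pool.Agent.Lib.MP_6947cd_al.L.TeC12
import Pool.Agent.Lib.MP_6947cd_al.L.TeC13
import Pool.Agent.Lib.MP_6947cd_al.L.TeC14
import Pool.Agent.Lib.MP_6947cd_al.L.TeC15
import Pool.Agent.Lib.MP_6947cd_al.L.TeC16
import Pool.Agent.Lib.MP_6947cd_al.L.TeC17
import Pool.Agent.Lib.MP_6947cd_al.L.TeX1
import Pool.Agent.Lib.MP_6947cd_al.L.TeX2
import Pool.Agent.Lib.MP_6947cd_al.L.TeX3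
import Pool.Agent.Lib.MP_6947cd_al.L.TeX4
import Pool.Agent.Lib.MP_6947cd_al.L.TeX5
import Pool.Agent.Lib.MP_6947cd_al.L.TeX6
import Pool.Agent.Lib.MP_6947cd_al.L.TeX7
import Pool.Agent.Lib.MP_6947cd_al.L.TeX8
import Pool.Agent.Lib.MP_6947cd_al.L.TeX9
import Pool.Agent.Lib.MP_6947cd_al.L.TeX10
import Pool.Agent.Lib.MP_6947cd_al.L.TeX11
import Pool.Agent.Lib.MP_6947cd_al.L.TeX12
import Pool.Agent.Lib.MP_6947cd_al.L.TeX13
import Pool.Agent.Lib.MP_6947cd_al.L.TeX14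
import Pool.Agent.Lib.MP_6947cd_al.L.TeX15
import Pool.Agent.Lib.MP_6947cd_al.L.TeX16
import Pool.Agent.Lib.MP_6947cd_al.L.TeX17
import Pool.Agent.Lib.MP_6947cd_al.L.TeX18
import Pool.Agent.Lib.MP_6947cd_al.L.TeX19
import Pool.Agent.Lib.MP_6947cd_al.L.TeX20
import Pool.Agent.Lib.MP_6947cd_al.L.TeX21
import Pool.Agent.Lib.MP_6947cd_al.L.TeX22
import Pool.Agent.Lib.MP_6947cd_al.L.TeX23
import Pool.Agent.Lib.MP_6947cd_al.L.TeX24
import Pool.Agent.Lib.MP_6947cd_al.L.TeX25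
import Pool.Agent.Lib.MP_6947cd_al.L.TeX26
import Pool.Agent.Lib.MP_6947cd_al.L.TeX27
import Pool.Agent.Lib.MP_6947cd_al.L.TeX28
import Pool.Agent.Lib.MP_6947cd_al.L.TeX29
import Pool.Agent.Lib.MP_6947cd_al.L.TeX30
import Pool.Agent.Lib.MP_6947cd_al.L.TeX31
import Pool.Agent.Lib.MP_6947cd_al.L.TeX32
import Pool.Agent.Lib.MP_6947cd_al.L.TeX33
import Pool.Agent.Lib.MP_6947cd_al.L.TeX34
import Pool.Agent.Lib.MP_6947cd_al.L.TeX35
import Pool.Agent.Lib.MP_6947cd_al.L.TeX36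
import Pool.Agent.Lib.MP_6947cd_al.L.TeX37
import Pool.Agent.Lib.MP_6947cd_al.L.TeX38
import Pool.Agent.Lib.MP_6947cd_al.L.TeX39
import Pool.Agent.Lib.MP_6947cd_al.L.TeX40
import Pool.Agent.Lib.MP_6947cd_al.L.TeX41
import Pool.Agent.Lib.MP_6947cd_al.L.TeX42
import Pool.Agent.Lib.MP_6947cd_al.L.TeX43
import Pool.Agent.Lib.MP_6947cd_al.L.TeX44
import Pool.Agent.Lib.MP_6947cd_al.L.TeX45
import Pool.Agent.Lib.MP_6947cd_al.L.TeX46
import Pool.Agent.Lib.MP_6947cd_al.L.TeX47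
import Pool.Agent.Lib.MP_6947cd_al.L.TeX48
import Pool.Agent.Lib.MP_6947cd_al.L.TeX49
import Pool.Agent.Lib.MP_6947cd_al.L.TeX50
import Pool.Agent.Lib.MP_6947cd_al.L.TeX51
import Pool.Agent.Lib.MP_6947cd_al.L.TeX52
import Pool.Agent.Lib.MP_6947cd_al.L.TeX53
import Pool.Agent.Lib.MP_6947cd_al.L.TeX54
import Pool.Agent.Lib.MP_6947cd_al.L.TeX55
import Pool.Agent.Lib.MP_6947cd_al.L.TeX56
import Pool.Agent.Lib.MP_6947cd_al.L.TeX57
import Pool.Agent.Lib.MP_6947cd_al.L.TeX58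
import Pool.Agent.Lib.MP_6947cd_al.L.TeX59
import Pool.Agent.Lib.MP_6947cd_al.L.TeX60
import Pool.Agent.Lib.MP_6947cd_al.L.TeX61
import Pool.Agent.Lib.MP_6947cd_al.L.TeX62
import Pool.Agent.Lib.MP_6947cd_al.L.TeX63

/-!
Problem MP_6947cd_al (Chollet).  CASE B, rows `j`: (III) of all boxes, second entry in `[3/10, 2/5]` (generated).
-/

set_option autoImplicit false
set_option linter.defProp false
set_option maxRecDepth 20000

namespace Pool.Agent.Lib.MP_6947cd_al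
namespace CB

open Ent Ent.Pk Fr Fr.WT CA

theorem f176_0_0_T : FS ((176 : ℕ) / 200 : ℝ) ((0 : ℕ) / 1000 : ℝ) ((90 : ℕ) / 1000 : ℝ) f176_0_0 (kR [(nat_lit 180), (nat_lit 330), (nat_lit 650)].reverse) 0 0 :=
  ftab_of_E RE.rowE_sound (by decide +kernel : ftOK (nat_lit 176) (nat_lit 0) (nat_lit 90) [(nat_lit 180), (nat_lit 330), (nat_lit 650)] (nat_lit 1880) [((nat_lit 1), (nat_lit 1)), ((nat_lit 176), (nat_lit 200)), ((nat_lit 90), (nat_lit 1000)), ((nat_lit 180), (nat_lit 1000)), ((nat_lit 330), (nat_lit 1000)), ((nat_lit 650), (nat_lit 1000))] [(nat_lit 1), (nat_lit 1)] (nat_lit 3) = true)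
  (FtP.trans (FtP.trans (FtP.trans (FtP.trans (FtP.trans (FtP.trans (FtP.trans (FtP.trans (FtP.trans (FtP.trans (FtP.trans (FtP.trans (FtP.trans (FtP.trans (FtP.trans (FtP.trans (FtP.trans (FtP.trans (FtP.trans (FtP.trans (FtP.trans (FtP.trans (FtP.trans (FtP.trans (FtP.trans (FtP.trans (FtP.trans (FtP.trans (FtP.trans (FtP.trans (FtP.trans (FtP.trans (FtP.trans (FtP.trans (FtP.trans (FtP.trans (FtP.trans (FtP.trans (FtP.trans (FtP.trans (FtP.trans (FtP.trans (FtP.trans (FtP.trans (FtP.trans (FtP.trans (FtP.trans (FtP.trans (FtP.trans (FtP.trans (FtP.trans (FtP.trans (FtP.trans (FtP.trans (FtP.trans (FtP.trans (FtP.trans (FtP.trans (FtP.trans (FtP.trans (FtP.trans (FtP.trans (FtP.trans (FtP.trans (ftC_sound f176_0_0_0) (ftC_sound f176_0_0_1)) (ftC_sound f176_0_0_2)) (ftC_sound f176_0_0_3)) (ftC_sound f176_0_0_4)) (ftC_sound f176_0_0_5)) (ftC_sound f176_0_0_6)) (ftC_sound f176_0_0_7)) (ftC_sound f176_0_0_8))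 (ftC_sound f176_0_0_9)) (ftC_sound f176_0_0_10)) (ftC_sound f176_0_0_11)) (ftC_sound f176_0_0_12)) (ftC_sound f176_0_0_13)) (ftC_sound f176_0_0_14)) (ftC_sound f176_0_0_15)) (ftC_sound f176_0_0_16)) (ftC_sound f176_0_0_17)) (ftC_sound f176_0_0_18)) (ftC_sound f176_0_0_19))
 (ftC_sound f176_0_0_20)) (ftC_sound f176_0_0_21)) (ftC_sound f176_0_0_22)) (ftC_sound f176_0_0_23)) (ftC_sound f176_0_0_24)) (ftC_sound f176_0_0_25)) (ftC_sound f176_0_0_26)) (ftC_sound f176_0_0_27)) (ftC_sound f176_0_0_28)) (ftC_sound f176_0_0_29)) (ftC_sound f176_0_0_30)) (ftC_sound f176_0_0_31)) (ftC_sound f176_0_0_32)) (ftC_sound f176_0_0_33)) (ftC_sound f176_0_0_34)) (ftC_sound f176_0_0_35)) (ftC_sound f176_0_0_36)) (ftC_sound f176_0_0_37)) (ftC_sound f176_0_0_38)) (ftC_sound f176_0_0_39)) (ftC_sound f176_0_0_40)) (ftC_sound f176_0_0_41)) (ftC_sound f176_0_0_42)) (ftC_sound f176_0_0_43)) (ftC_sound f176_0_0_44)) (ftC_sound f176_0_0_45))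 (ftC_sound f176_0_0_46)) (ftC_sound f176_0_0_47)) (ftC_sound f176_0_0_48)) (ftC_sound f176_0_0_49)) (ftC_sound f176_0_0_50)) (ftC_sound f176_0_0_51)) (ftC_sound f176_0_0_52)) (ftC_sound f176_0_0_53)) (ftC_sound f176_0_0_54)) (ftC_sound f176_0_0_55)) (ftC_sound f176_0_0_56)) (ftC_sound f176_0_0_57)) (ftC_sound f176_0_0_58)) (ftC_sound f176_0_0_59)) (ftC_sound f176_0_0_60)) (ftC_sound f176_0_0_61)) (ftC_sound f176_0_0_62)) (ftC_sound f176_0_0_63)) (ftC_sound f176_0_0_64)) (by decide +kernel)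

theorem f176_0_400_T : FS ((176 : ℕ) / 200 : ℝ) ((400 : ℕ) / 1000 : ℝ) ((90 : ℕ) / 1000 : ℝ) f176_0_400 (kR [(nat_lit 180), (nat_lit 330), (nat_lit 650)].reverse) 0 0 :=
  ftab_of_E RE.rowE_sound (by decide +kernel : ftOK (nat_lit 176) (nat_lit 400) (nat_lit 90) [(nat_lit 180), (nat_lit 330), (nat_lit 650)] (nat_lit 2280) [((nat_lit 1), (nat_lit 1)), ((nat_lit 176), (nat_lit 200)), ((nat_lit 400), (nat_lit 1000)), ((nat_lit 90), (nat_lit 1000)), ((nat_lit 180), (nat_lit 1000)), ((nat_lit 330), (nat_lit 1000)), ((nat_lit 650), (nat_lit 1000))] [(nat_lit 1), (nat_lit 1), (nat_lit 1)] (nat_lit 3) = true)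
  (FtP.trans (FtP.trans (FtP.trans (FtP.trans (FtP.trans (FtP.trans (FtP.trans (FtP.trans (FtP.trans (FtP.trans (FtP.trans (FtP.trans (FtP.trans (FtP.trans (FtP.trans (FtP.trans (FtP.trans (FtP.trans (FtP.trans (FtP.trans (FtP.trans (FtP.trans (FtP.trans (FtP.trans (FtP.trans (FtP.trans (FtP.trans (FtP.trans (FtP.trans (FtP.trans (FtP.trans (FtP.trans (FtP.trans (FtP.trans (FtP.trans (FtP.trans (FtP.trans (FtP.trans (FtP.trans (FtP.trans (FtP.trans (FtP.trans (FtP.trans (FtP.trans (FtP.trans (FtP.trans (FtP.trans (FtP.trans (FtP.trans (FtP.trans (FtP.trans (FtP.trans (FtP.trans (FtP.trans (FtP.trans (FtP.trans (FtP.trans (FtP.trans (FtP.trans (FtP.trans (FtP.trans (FtP.trans (FtP.trans (FtP.trans (ftC_sound f176_0_400_0) (ftC_sound f176_0_400_1)) (ftC_sound f176_0_400_2)) (ftC_sound f176_0_400_3)) (ftC_sound f176_0_400_4)) (ftC_sound f176_0_400_5)) (ftC_sound f176_0_400_6)) (ftC_sound f176_0_400_7)) (ftC_sound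 f176_0_400_8)) (ftC_sound f176_0_400_9)) (ftC_sound f176_0_400_10)) (ftC_sound f176_0_400_11)) (ftC_sound f176_0_400_12)) (ftC_sound f176_0_400_13)) (ftC_sound f176_0_400_14)) (ftC_sound f176_0_400_15)) (ftC_sound f176_0_400_16)) (ftC_sound f176_0_400_17)) (ftC_sound
 f176_0_400_18)) (ftC_sound f176_0_400_19)) (ftC_sound f176_0_400_20)) (ftC_sound f176_0_400_21)) (ftC_sound f176_0_400_22)) (ftC_sound f176_0_400_23)) (ftC_sound f176_0_400_24)) (ftC_sound f176_0_400_25)) (ftC_sound f176_0_400_26)) (ftC_sound f176_0_400_27)) (ftC_sound f176_0_400_28)) (ftC_sound f176_0_400_29)) (ftC_sound f176_0_400_30)) (ftC_sound f176_0_400_31)) (ftC_sound f176_0_400_32)) (ftC_sound f176_0_400_33)) (ftC_sound f176_0_400_34)) (ftC_sound f176_0_400_35)) (ftC_sound f176_0_400_36)) (ftC_sound f176_0_400_37)) (ftC_sound f176_0_400_38)) (ftC_sound f176_0_400_39)) (ftC_sound f176_0_400_40)) (ftC_sound f176_0_400_41)) (ftC_sound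 f176_0_400_42)) (ftC_sound f176_0_400_43)) (ftC_sound f176_0_400_44)) (ftC_sound f176_0_400_45)) (ftC_sound f176_0_400_46)) (ftC_sound f176_0_400_47)) (ftC_sound f176_0_400_48)) (ftC_sound f176_0_400_49)) (ftC_sound f176_0_400_50)) (ftC_sound f176_0_400_51)) (ftC_sound f176_0_400_52)) (ftC_sound f176_0_400_53)) (ftC_sound f176_0_400_54)) (ftC_sound f176_0_400_55)) (ftC_sound f176_0_400_56)) (ftC_sound f176_0_400_57)) (ftC_sound f176_0_400_58)) (ftC_sound f176_0_400_59)) (ftC_sound f176_0_400_60)) (ftC_sound f176_0_400_61)) (ftC_sound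
 f176_0_400_62)) (ftC_sound f176_0_400_63)) (ftC_sound f176_0_400_64)) (by decide +kernel)

theorem f176_0_600_T : FS ((176 : ℕ) / 200 : ℝ) ((600 : ℕ) / 1000 : ℝ) ((90 : ℕ) / 1000 : ℝ) f176_0_600 (kR [(nat_lit 180), (nat_lit 330), (nat_lit 650)].reverse) 0 0 :=
  ftab_of_E RE.rowE_sound (by decide +kernel : ftOK (nat_lit 176) (nat_lit 600) (nat_lit 90) [(nat_lit 180), (nat_lit 330), (nat_lit 650)] (nat_lit 2480) [((nat_lit 1), (nat_lit 1)), ((nat_lit 176), (nat_lit 200)), ((nat_lit 600), (nat_lit 1000)), ((nat_lit 90), (nat_lit 1000)), ((nat_lit 180), (nat_lit 1000)), ((nat_lit 330), (nat_lit 1000)), ((nat_lit 650), (nat_lit 1000))] [(nat_lit 1), (nat_lit 1), (nat_lit 1)] (nat_lit 3) = true)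
  (FtP.trans (FtP.trans (FtP.trans (FtP.trans (FtP.trans (FtP.trans (FtP.trans (FtP.trans (FtP.trans (FtP.trans (FtP.trans (FtP.trans (FtP.trans (FtP.trans (FtP.trans (FtP.trans (FtP.trans (FtP.trans (FtP.trans (FtP.trans (FtP.trans (FtP.trans (FtP.trans (FtP.trans (FtP.trans (FtP.trans (FtP.trans (FtP.trans (FtP.trans (FtP.trans (FtP.trans (FtP.trans (FtP.trans (FtP.trans (FtP.trans (FtP.trans (FtP.trans (FtP.trans (FtP.trans (FtP.trans (ftC_sound f176_0_600_0) (ftC_sound f176_0_600_1)) (ftC_sound f176_0_600_2)) (ftC_sound f176_0_600_3)) (ftC_sound f176_0_600_4)) (ftC_sound f176_0_600_5)) (ftC_sound f176_0_600_6)) (ftC_sound f176_0_600_7)) (ftC_sound f176_0_600_8)) (ftC_sound f176_0_600_9)) (ftC_sound f176_0_600_10)) (ftC_sound f176_0_600_11)) (ftC_sound f176_0_600_12)) (ftC_sound f176_0_600_13)) (ftC_sound f176_0_600_14)) (ftC_sound f176_0_600_15)) (ftC_sound f176_0_600_16)) (ftC_sound f176_0_600_17))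 (ftC_sound f176_0_600_18)) (ftC_sound f176_0_600_19)) (ftC_sound f176_0_600_20)) (ftC_sound f176_0_600_21)) (ftC_sound f176_0_600_22)) (ftC_sound f176_0_600_23)) (ftC_sound f176_0_600_24)) (ftC_sound f176_0_600_25)) (ftC_sound f176_0_600_26)) (ftC_sound f176_0_600_27)) (ftC_sound
 f176_0_600_28)) (ftC_sound f176_0_600_29)) (ftC_sound f176_0_600_30)) (ftC_sound f176_0_600_31)) (ftC_sound f176_0_600_32)) (ftC_sound f176_0_600_33)) (ftC_sound f176_0_600_34)) (ftC_sound f176_0_600_35)) (ftC_sound f176_0_600_36)) (ftC_sound f176_0_600_37)) (ftC_sound f176_0_600_38)) (ftC_sound f176_0_600_39)) (ftC_sound f176_0_600_40)) (by decide +kernel)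

theorem f176_0_743_T : FS ((176 : ℕ) / 200 : ℝ) ((743 : ℕ) / 1000 : ℝ) ((90 : ℕ) / 1000 : ℝ) f176_0_743 (kR [(nat_lit 180), (nat_lit 330), (nat_lit 650)].reverse) 0 0 :=
  ftab_of_E RE.rowE_sound (by decide +kernel : ftOK (nat_lit 176) (nat_lit 743) (nat_lit 90) [(nat_lit 180), (nat_lit 330), (nat_lit 650)] (nat_lit 2623) [((nat_lit 1), (nat_lit 1)), ((nat_lit 176), (nat_lit 200)), ((nat_lit 743), (nat_lit 1000)), ((nat_lit 90), (nat_lit 1000)), ((nat_lit 180), (nat_lit 1000)), ((nat_lit 330), (nat_lit 1000)), ((nat_lit 650), (nat_lit 1000))] [(nat_lit 1), (nat_lit 1), (nat_lit 1)] (nat_lit 3) = true)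
  (FtP.trans (FtP.trans (FtP.trans (FtP.trans (FtP.trans (FtP.trans (FtP.trans (FtP.trans (FtP.trans (FtP.trans (FtP.trans (FtP.trans (FtP.trans (FtP.trans (FtP.trans (FtP.trans (FtP.trans (FtP.trans (FtP.trans (FtP.trans (FtP.trans (FtP.trans (FtP.trans (FtP.trans (FtP.trans (FtP.trans (FtP.trans (FtP.trans (FtP.trans (FtP.trans (FtP.trans (FtP.trans (FtP.trans (FtP.trans (FtP.trans (FtP.trans (FtP.trans (FtP.trans (FtP.trans (ftC_sound f176_0_743_0) (ftC_sound f176_0_743_1)) (ftC_sound f176_0_743_2)) (ftC_sound f176_0_743_3)) (ftC_sound f176_0_743_4)) (ftC_sound f176_0_743_5)) (ftC_sound f176_0_743_6)) (ftC_sound f176_0_743_7)) (ftC_sound f176_0_743_8)) (ftC_sound f176_0_743_9)) (ftC_sound f176_0_743_10)) (ftC_sound f176_0_743_11)) (ftC_sound f176_0_743_12)) (ftC_sound f176_0_743_13)) (ftC_sound f176_0_743_14)) (ftC_sound f176_0_743_15)) (ftC_sound f176_0_743_16)) (ftC_sound f176_0_743_17)) (ftC_sound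 f176_0_743_18)) (ftC_sound f176_0_743_19)) (ftC_sound f176_0_743_20)) (ftC_sound f176_0_743_21)) (ftC_sound f176_0_743_22)) (ftC_sound f176_0_743_23)) (ftC_sound f176_0_743_24)) (ftC_sound f176_0_743_25)) (ftC_sound f176_0_743_26)) (ftC_sound f176_0_743_27)) (ftC_sound
 f176_0_743_28)) (ftC_sound f176_0_743_29)) (ftC_sound f176_0_743_30)) (ftC_sound f176_0_743_31)) (ftC_sound f176_0_743_32)) (ftC_sound f176_0_743_33)) (ftC_sound f176_0_743_34)) (ftC_sound f176_0_743_35)) (ftC_sound f176_0_743_36)) (ftC_sound f176_0_743_37)) (ftC_sound f176_0_743_38)) (ftC_sound f176_0_743_39)) (by decide +kernel)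

theorem f184_0_0_T : FS ((184 : ℕ) / 200 : ℝ) ((0 : ℕ) / 1000 : ℝ) ((90 : ℕ) / 1000 : ℝ) f184_0_0 (kR [(nat_lit 180), (nat_lit 330), (nat_lit 650)].reverse) 0 0 :=
  ftab_of_E RE.rowE_sound (by decide +kernel : ftOK (nat_lit 184) (nat_lit 0) (nat_lit 90) [(nat_lit 180), (nat_lit 330), (nat_lit 650)] (nat_lit 1920) [((nat_lit 1), (nat_lit 1)), ((nat_lit 184), (nat_lit 200)), ((nat_lit 90), (nat_lit 1000)), ((nat_lit 180), (nat_lit 1000)), ((nat_lit 330), (nat_lit 1000)), ((nat_lit 650), (nat_lit 1000))] [(nat_lit 1), (nat_lit 1)] (nat_lit 3) = true)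
  (FtP.trans (FtP.trans (FtP.trans (FtP.trans (FtP.trans (FtP.trans (FtP.trans (FtP.trans (FtP.trans (FtP.trans (FtP.trans (FtP.trans (FtP.trans (FtP.trans (FtP.trans (FtP.trans (FtP.trans (FtP.trans (FtP.trans (FtP.trans (FtP.trans (FtP.trans (FtP.trans (FtP.trans (FtP.trans (FtP.trans (FtP.trans (FtP.trans (FtP.trans (FtP.trans (FtP.trans (FtP.trans (FtP.trans (FtP.trans (FtP.trans (FtP.trans (FtP.trans (FtP.trans (FtP.trans (FtP.trans (FtP.trans (FtP.trans (FtP.trans (FtP.trans (FtP.trans (FtP.trans (FtP.trans (FtP.trans (FtP.trans (FtP.trans (FtP.trans (FtP.trans (FtP.trans (FtP.trans (FtP.trans (FtP.trans (FtP.trans (FtP.trans (FtP.trans (FtP.trans (FtP.trans (FtP.trans (FtP.trans (FtP.trans (FtP.trans (FtP.trans (FtP.trans (FtP.trans (FtP.trans (FtP.trans (FtP.trans (FtP.trans (FtP.trans (FtP.trans (ftC_sound f184_0_0_0) (ftC_sound f184_0_0_1)) (ftC_sound f184_0_0_2)) (ftC_sound f184_0_0_3)) (ftC_sound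 f184_0_0_4)) (ftC_sound f184_0_0_5)) (ftC_sound f184_0_0_6)) (ftC_sound f184_0_0_7)) (ftC_sound f184_0_0_8)) (ftC_sound f184_0_0_9)) (ftC_sound f184_0_0_10)) (ftC_sound f184_0_0_11)) (ftC_sound f184_0_0_12)) (ftC_sound f184_0_0_13)) (ftC_sound f184_0_0_14)) (ftC_sound
 f184_0_0_15)) (ftC_sound f184_0_0_16)) (ftC_sound f184_0_0_17)) (ftC_sound f184_0_0_18)) (ftC_sound f184_0_0_19)) (ftC_sound f184_0_0_20)) (ftC_sound f184_0_0_21)) (ftC_sound f184_0_0_22)) (ftC_sound f184_0_0_23)) (ftC_sound f184_0_0_24)) (ftC_sound f184_0_0_25)) (ftC_sound f184_0_0_26)) (ftC_sound f184_0_0_27)) (ftC_sound f184_0_0_28)) (ftC_sound f184_0_0_29)) (ftC_sound f184_0_0_30)) (ftC_sound f184_0_0_31)) (ftC_sound f184_0_0_32)) (ftC_sound f184_0_0_33)) (ftC_sound f184_0_0_34)) (ftC_sound f184_0_0_35)) (ftC_sound f184_0_0_36)) (ftC_sound f184_0_0_37)) (ftC_sound f184_0_0_38)) (ftC_sound f184_0_0_39)) (ftC_sound f184_0_0_40)) (ftC_sound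 f184_0_0_41)) (ftC_sound f184_0_0_42)) (ftC_sound f184_0_0_43)) (ftC_sound f184_0_0_44)) (ftC_sound f184_0_0_45)) (ftC_sound f184_0_0_46)) (ftC_sound f184_0_0_47)) (ftC_sound f184_0_0_48)) (ftC_sound f184_0_0_49)) (ftC_sound f184_0_0_50)) (ftC_sound f184_0_0_51)) (ftC_sound f184_0_0_52)) (ftC_sound f184_0_0_53)) (ftC_sound f184_0_0_54)) (ftC_sound f184_0_0_55)) (ftC_sound f184_0_0_56)) (ftC_sound f184_0_0_57)) (ftC_sound f184_0_0_58)) (ftC_sound f184_0_0_59)) (ftC_sound f184_0_0_60)) (ftC_sound f184_0_0_61)) (ftC_sound f184_0_0_62)) (ftC_sound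
 f184_0_0_63)) (ftC_sound f184_0_0_64)) (ftC_sound f184_0_0_65)) (ftC_sound f184_0_0_66)) (ftC_sound f184_0_0_67)) (ftC_sound f184_0_0_68)) (ftC_sound f184_0_0_69)) (ftC_sound f184_0_0_70)) (ftC_sound f184_0_0_71)) (ftC_sound f184_0_0_72)) (ftC_sound f184_0_0_73)) (ftC_sound f184_0_0_74)) (by decide +kernel)

theorem f184_0_400_T : FS ((184 : ℕ) / 200 : ℝ) ((400 : ℕ) / 1000 : ℝ) ((90 : ℕ) / 1000 : ℝ) f184_0_400 (kR [(nat_lit 180), (nat_lit 330), (nat_lit 650)].reverse) 0 0 :=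
  ftab_of_E RE.rowE_sound (by decide +kernel : ftOK (nat_lit 184) (nat_lit 400) (nat_lit 90) [(nat_lit 180), (nat_lit 330), (nat_lit 650)] (nat_lit 2320) [((nat_lit 1), (nat_lit 1)), ((nat_lit 184), (nat_lit 200)), ((nat_lit 400), (nat_lit 1000)), ((nat_lit 90), (nat_lit 1000)), ((nat_lit 180), (nat_lit 1000)), ((nat_lit 330), (nat_lit 1000)), ((nat_lit 650), (nat_lit 1000))] [(nat_lit 1), (nat_lit 1), (nat_lit 1)] (nat_lit 3) = true)
  (FtP.trans (FtP.trans (FtP.trans (FtP.trans (FtP.trans (FtP.trans (FtP.trans (FtP.trans (FtP.trans (FtP.trans (FtP.trans (FtP.trans (FtP.trans (FtP.trans (FtP.trans (FtP.trans (FtP.trans (FtP.trans (FtP.trans (FtP.trans (FtP.trans (FtP.trans (FtP.trans (FtP.trans (FtP.trans (FtP.trans (FtP.trans (FtP.trans (FtP.trans (FtP.trans (FtP.trans (FtP.trans (FtP.trans (FtP.trans (FtP.trans (FtP.trans (FtP.trans (FtP.trans (FtP.trans (FtP.trans (FtP.trans (FtP.trans (FtP.trans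 (FtP.trans (FtP.trans (FtP.trans (FtP.trans (FtP.trans (FtP.trans (FtP.trans (FtP.trans (FtP.trans (FtP.trans (FtP.trans (FtP.trans (FtP.trans (FtP.trans (FtP.trans (FtP.trans (FtP.trans (FtP.trans (FtP.trans (FtP.trans (FtP.trans (FtP.trans (FtP.trans (FtP.trans (FtP.trans (FtP.trans (FtP.trans (FtP.trans (FtP.trans (FtP.trans (FtP.trans (ftC_sound f184_0_400_0) (ftC_sound f184_0_400_1)) (ftC_sound f184_0_400_2)) (ftC_sound f184_0_400_3)) (ftC_sound f184_0_400_4)) (ftC_sound f184_0_400_5)) (ftC_sound f184_0_400_6)) (ftC_sound f184_0_400_7)) (ftC_sound f184_0_400_8)) (ftC_sound f184_0_400_9)) (ftC_sound f184_0_400_10)) (ftC_sound f184_0_400_11)) (ftC_sound f184_0_400_12)) (ftC_sound f184_0_400_13)) (ftC_sound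
 f184_0_400_14)) (ftC_sound f184_0_400_15)) (ftC_sound f184_0_400_16)) (ftC_sound f184_0_400_17)) (ftC_sound f184_0_400_18)) (ftC_sound f184_0_400_19)) (ftC_sound f184_0_400_20)) (ftC_sound f184_0_400_21)) (ftC_sound f184_0_400_22)) (ftC_sound f184_0_400_23)) (ftC_sound f184_0_400_24)) (ftC_sound f184_0_400_25)) (ftC_sound f184_0_400_26)) (ftC_sound f184_0_400_27)) (ftC_sound f184_0_400_28)) (ftC_sound f184_0_400_29)) (ftC_sound f184_0_400_30)) (ftC_sound f184_0_400_31)) (ftC_sound f184_0_400_32)) (ftC_sound f184_0_400_33)) (ftC_sound f184_0_400_34)) (ftC_sound f184_0_400_35)) (ftC_sound f184_0_400_36)) (ftC_sound f184_0_400_37)) (ftC_sound f184_0_400_38)) (ftC_sound f184_0_400_39)) (ftC_sound f184_0_400_40)) (ftC_sound f184_0_400_41)) (ftC_sound f184_0_400_42)) (ftC_sound f184_0_400_43)) (ftC_sound f184_0_400_44)) (ftC_sound f184_0_400_45)) (ftC_sound f184_0_400_46)) (ftC_sound f184_0_400_47)) (ftC_sound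 f184_0_400_48)) (ftC_sound f184_0_400_49)) (ftC_sound f184_0_400_50)) (ftC_sound f184_0_400_51)) (ftC_sound f184_0_400_52)) (ftC_sound f184_0_400_53)) (ftC_sound f184_0_400_54)) (ftC_sound f184_0_400_55)) (ftC_sound f184_0_400_56)) (ftC_sound f184_0_400_57)) (ftC_sound
 f184_0_400_58)) (ftC_sound f184_0_400_59)) (ftC_sound f184_0_400_60)) (ftC_sound f184_0_400_61)) (ftC_sound f184_0_400_62)) (ftC_sound f184_0_400_63)) (ftC_sound f184_0_400_64)) (ftC_sound f184_0_400_65)) (ftC_sound f184_0_400_66)) (ftC_sound f184_0_400_67)) (ftC_sound f184_0_400_68)) (ftC_sound f184_0_400_69)) (ftC_sound f184_0_400_70)) (ftC_sound f184_0_400_71)) (ftC_sound f184_0_400_72)) (ftC_sound f184_0_400_73)) (ftC_sound f184_0_400_74)) (by decide +kernel)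

theorem f184_0_600_T : FS ((184 : ℕ) / 200 : ℝ) ((600 : ℕ) / 1000 : ℝ) ((90 : ℕ) / 1000 : ℝ) f184_0_600 (kR [(nat_lit 180), (nat_lit 330), (nat_lit 650)].reverse) 0 0 :=
  ftab_of_E RE.rowE_sound (by decide +kernel : ftOK (nat_lit 184) (nat_lit 600) (nat_lit 90) [(nat_lit 180), (nat_lit 330), (nat_lit 650)] (nat_lit 2520) [((nat_lit 1), (nat_lit 1)), ((nat_lit 184), (nat_lit 200)), ((nat_lit 600), (nat_lit 1000)), ((nat_lit 90), (nat_lit 1000)), ((nat_lit 180), (nat_lit 1000)), ((nat_lit 330), (nat_lit 1000)), ((nat_lit 650), (nat_lit 1000))] [(nat_lit 1), (nat_lit 1), (nat_lit 1)] (nat_lit 3) = true)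
  (FtP.trans (FtP.trans (FtP.trans (FtP.trans (FtP.trans (FtP.trans (FtP.trans (FtP.trans (FtP.trans (FtP.trans (FtP.trans (FtP.trans (FtP.trans (FtP.trans (FtP.trans (FtP.trans (FtP.trans (FtP.trans (FtP.trans (FtP.trans (FtP.trans (FtP.trans (FtP.trans (FtP.trans (FtP.trans (FtP.trans (FtP.trans (FtP.trans (FtP.trans (FtP.trans (FtP.trans (FtP.trans (FtP.trans (FtP.trans (FtP.trans (FtP.trans (FtP.trans (FtP.trans (FtP.trans (FtP.trans (FtP.trans (FtP.trans (FtP.trans (FtP.trans (FtP.trans (FtP.trans (ftC_sound f184_0_600_0) (ftC_sound f184_0_600_1)) (ftC_sound f184_0_600_2)) (ftC_sound f184_0_600_3)) (ftC_sound f184_0_600_4)) (ftC_sound f184_0_600_5)) (ftC_sound f184_0_600_6)) (ftC_sound f184_0_600_7)) (ftC_sound f184_0_600_8)) (ftC_sound f184_0_600_9)) (ftC_sound f184_0_600_10)) (ftC_sound f184_0_600_11)) (ftC_sound f184_0_600_12)) (ftC_sound f184_0_600_13)) (ftC_sound f184_0_600_14)) (ftC_sound f184_0_600_15))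 (ftC_sound f184_0_600_16)) (ftC_sound f184_0_600_17)) (ftC_sound f184_0_600_18)) (ftC_sound f184_0_600_19)) (ftC_sound f184_0_600_20)) (ftC_sound f184_0_600_21)) (ftC_sound f184_0_600_22)) (ftC_sound f184_0_600_23)) (ftC_sound f184_0_600_24)) (ftC_sound f184_0_600_25))
 (ftC_sound f184_0_600_26)) (ftC_sound f184_0_600_27)) (ftC_sound f184_0_600_28)) (ftC_sound f184_0_600_29)) (ftC_sound f184_0_600_30)) (ftC_sound f184_0_600_31)) (ftC_sound f184_0_600_32)) (ftC_sound f184_0_600_33)) (ftC_sound f184_0_600_34)) (ftC_sound f184_0_600_35)) (ftC_sound f184_0_600_36)) (ftC_sound f184_0_600_37)) (ftC_sound f184_0_600_38)) (ftC_sound f184_0_600_39)) (ftC_sound f184_0_600_40)) (ftC_sound f184_0_600_41)) (ftC_sound f184_0_600_42)) (ftC_sound f184_0_600_43)) (ftC_sound f184_0_600_44)) (ftC_sound f184_0_600_45)) (ftC_sound f184_0_600_46)) (by decide +kernel)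

theorem f184_0_682_T : FS ((184 : ℕ) / 200 : ℝ) ((682 : ℕ) / 1000 : ℝ) ((90 : ℕ) / 1000 : ℝ) f184_0_682 (kR [(nat_lit 180), (nat_lit 330), (nat_lit 650)].reverse) 0 0 :=
  ftab_of_E RE.rowE_sound (by decide +kernel : ftOK (nat_lit 184) (nat_lit 682) (nat_lit 90) [(nat_lit 180), (nat_lit 330), (nat_lit 650)] (nat_lit 2602) [((nat_lit 1), (nat_lit 1)), ((nat_lit 184), (nat_lit 200)), ((nat_lit 682), (nat_lit 1000)), ((nat_lit 90), (nat_lit 1000)), ((nat_lit 180), (nat_lit 1000)), ((nat_lit 330), (nat_lit 1000)), ((nat_lit 650), (nat_lit 1000))] [(nat_lit 1), (nat_lit 1), (nat_lit 1)] (nat_lit 3) = true)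
  (FtP.trans (FtP.trans (FtP.trans (FtP.trans (FtP.trans (FtP.trans (FtP.trans (FtP.trans (FtP.trans (FtP.trans (FtP.trans (FtP.trans (FtP.trans (FtP.trans (FtP.trans (FtP.trans (FtP.trans (FtP.trans (FtP.trans (FtP.trans (FtP.trans (FtP.trans (FtP.trans (FtP.trans (FtP.trans (FtP.trans (FtP.trans (FtP.trans (FtP.trans (FtP.trans (FtP.trans (FtP.trans (FtP.trans (FtP.trans (FtP.trans (FtP.trans (FtP.trans (FtP.trans (FtP.trans (FtP.trans (FtP.trans (FtP.trans (FtP.trans (FtP.trans (FtP.trans (ftC_sound f184_0_682_0) (ftC_sound f184_0_682_1)) (ftC_sound f184_0_682_2)) (ftC_sound f184_0_682_3)) (ftC_sound f184_0_682_4)) (ftC_sound f184_0_682_5)) (ftC_sound f184_0_682_6)) (ftC_sound f184_0_682_7)) (ftC_sound f184_0_682_8)) (ftC_sound f184_0_682_9)) (ftC_sound f184_0_682_10)) (ftC_sound f184_0_682_11)) (ftC_sound f184_0_682_12)) (ftC_sound f184_0_682_13)) (ftC_sound f184_0_682_14)) (ftC_sound f184_0_682_15))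 (ftC_sound f184_0_682_16)) (ftC_sound f184_0_682_17)) (ftC_sound f184_0_682_18)) (ftC_sound f184_0_682_19)) (ftC_sound f184_0_682_20)) (ftC_sound f184_0_682_21)) (ftC_sound f184_0_682_22)) (ftC_sound f184_0_682_23)) (ftC_sound f184_0_682_24)) (ftC_sound f184_0_682_25)) (ftC_sound
 f184_0_682_26)) (ftC_sound f184_0_682_27)) (ftC_sound f184_0_682_28)) (ftC_sound f184_0_682_29)) (ftC_sound f184_0_682_30)) (ftC_sound f184_0_682_31)) (ftC_sound f184_0_682_32)) (ftC_sound f184_0_682_33)) (ftC_sound f184_0_682_34)) (ftC_sound f184_0_682_35)) (ftC_sound f184_0_682_36)) (ftC_sound f184_0_682_37)) (ftC_sound f184_0_682_38)) (ftC_sound f184_0_682_39)) (ftC_sound f184_0_682_40)) (ftC_sound f184_0_682_41)) (ftC_sound f184_0_682_42)) (ftC_sound f184_0_682_43)) (ftC_sound f184_0_682_44)) (ftC_sound f184_0_682_45)) (by decide +kernel)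

theorem f184_0_743_T : FS ((184 : ℕ) / 200 : ℝ) ((743 : ℕ) / 1000 : ℝ) ((90 : ℕ) / 1000 : ℝ) f184_0_743 (kR [(nat_lit 180), (nat_lit 330), (nat_lit 650)].reverse) 0 0 :=
  ftab_of_E RE.rowE_sound (by decide +kernel : ftOK (nat_lit 184) (nat_lit 743) (nat_lit 90) [(nat_lit 180), (nat_lit 330), (nat_lit 650)] (nat_lit 2663) [((nat_lit 1), (nat_lit 1)), ((nat_lit 184), (nat_lit 200)), ((nat_lit 743), (nat_lit 1000)), ((nat_lit 90), (nat_lit 1000)), ((nat_lit 180), (nat_lit 1000)), ((nat_lit 330), (nat_lit 1000)), ((nat_lit 650), (nat_lit 1000))] [(nat_lit 1), (nat_lit 1), (nat_lit 1)] (nat_lit 3) = true)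
  (FtP.trans (FtP.trans (FtP.trans (FtP.trans (FtP.trans (FtP.trans (FtP.trans (FtP.trans (FtP.trans (FtP.trans (FtP.trans (FtP.trans (FtP.trans (FtP.trans (FtP.trans (FtP.trans (FtP.trans (FtP.trans (FtP.trans (FtP.trans (FtP.trans (FtP.trans (FtP.trans (FtP.trans (FtP.trans (FtP.trans (FtP.trans (FtP.trans (FtP.trans (FtP.trans (FtP.trans (FtP.trans (FtP.trans (FtP.trans (FtP.trans (FtP.trans (FtP.trans (FtP.trans (FtP.trans (ftC_sound f184_0_743_0) (ftC_sound f184_0_743_1)) (ftC_sound f184_0_743_2)) (ftC_sound f184_0_743_3)) (ftC_sound f184_0_743_4)) (ftC_sound f184_0_743_5)) (ftC_sound f184_0_743_6)) (ftC_sound f184_0_743_7)) (ftC_sound f184_0_743_8)) (ftC_sound f184_0_743_9)) (ftC_sound f184_0_743_10)) (ftC_sound f184_0_743_11)) (ftC_sound f184_0_743_12)) (ftC_sound f184_0_743_13)) (ftC_sound f184_0_743_14)) (ftC_sound f184_0_743_15)) (ftC_sound f184_0_743_16)) (ftC_sound f184_0_743_17)) (ftC_sound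 f184_0_743_18)) (ftC_sound f184_0_743_19)) (ftC_sound f184_0_743_20)) (ftC_sound f184_0_743_21)) (ftC_sound f184_0_743_22)) (ftC_sound f184_0_743_23)) (ftC_sound f184_0_743_24)) (ftC_sound f184_0_743_25)) (ftC_sound f184_0_743_26)) (ftC_sound f184_0_743_27)) (ftC_sound
 f184_0_743_28)) (ftC_sound f184_0_743_29)) (ftC_sound f184_0_743_30)) (ftC_sound f184_0_743_31)) (ftC_sound f184_0_743_32)) (ftC_sound f184_0_743_33)) (ftC_sound f184_0_743_34)) (ftC_sound f184_0_743_35)) (ftC_sound f184_0_743_36)) (ftC_sound f184_0_743_37)) (ftC_sound f184_0_743_38)) (ftC_sound f184_0_743_39)) (by decide +kernel)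

theorem f192_0_0_T : FS ((192 : ℕ) / 200 : ℝ) ((0 : ℕ) / 1000 : ℝ) ((90 : ℕ) / 1000 : ℝ) f192_0_0 (kR [(nat_lit 180), (nat_lit 330), (nat_lit 650)].reverse) 0 0 :=
  ftab_of_E RE.rowE_sound (by decide +kernel : ftOK (nat_lit 192) (nat_lit 0) (nat_lit 90) [(nat_lit 180), (nat_lit 330), (nat_lit 650)] (nat_lit 1960) [((nat_lit 1), (nat_lit 1)), ((nat_lit 192), (nat_lit 200)), ((nat_lit 90), (nat_lit 1000)), ((nat_lit 180), (nat_lit 1000)), ((nat_lit 330), (nat_lit 1000)), ((nat_lit 650), (nat_lit 1000))] [(nat_lit 1), (nat_lit 1)] (nat_lit 3) = true)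
  (FtP.trans (FtP.trans (FtP.trans (FtP.trans (FtP.trans (FtP.trans (FtP.trans (FtP.trans (FtP.trans (FtP.trans (FtP.trans (FtP.trans (FtP.trans (FtP.trans (FtP.trans (FtP.trans (FtP.trans (FtP.trans (FtP.trans (FtP.trans (FtP.trans (FtP.trans (FtP.trans (FtP.trans (FtP.trans (FtP.trans (FtP.trans (FtP.trans (FtP.trans (FtP.trans (FtP.trans (FtP.trans (FtP.trans (FtP.trans (FtP.trans (FtP.trans (FtP.trans (FtP.trans (FtP.trans (FtP.trans (FtP.trans (FtP.trans (FtP.trans (FtP.trans (FtP.trans (FtP.trans (FtP.trans (FtP.trans (FtP.trans (FtP.trans (FtP.trans (FtP.trans (FtP.trans (FtP.trans (FtP.trans (FtP.trans (FtP.trans (FtP.trans (FtP.trans (FtP.trans (FtP.trans (FtP.trans (FtP.trans (FtP.trans (FtP.trans (FtP.trans (FtP.trans (FtP.trans (FtP.trans (FtP.trans (FtP.trans (FtP.trans (FtP.trans (FtP.trans (FtP.trans (FtP.trans (FtP.trans (FtP.trans (FtP.trans (FtP.trans (FtP.trans (FtP.trans (FtP.trans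 (FtP.trans (FtP.trans (FtP.trans (ftC_sound f192_0_0_0) (ftC_sound f192_0_0_1)) (ftC_sound f192_0_0_2)) (ftC_sound f192_0_0_3)) (ftC_sound f192_0_0_4)) (ftC_sound f192_0_0_5)) (ftC_sound f192_0_0_6)) (ftC_sound f192_0_0_7)) (ftC_sound f192_0_0_8)) (ftC_sound f192_0_0_9)) (ftC_sound
 f192_0_0_10)) (ftC_sound f192_0_0_11)) (ftC_sound f192_0_0_12)) (ftC_sound f192_0_0_13)) (ftC_sound f192_0_0_14)) (ftC_sound f192_0_0_15)) (ftC_sound f192_0_0_16)) (ftC_sound f192_0_0_17)) (ftC_sound f192_0_0_18)) (ftC_sound f192_0_0_19)) (ftC_sound f192_0_0_20)) (ftC_sound f192_0_0_21)) (ftC_sound f192_0_0_22)) (ftC_sound f192_0_0_23)) (ftC_sound f192_0_0_24)) (ftC_sound f192_0_0_25)) (ftC_sound f192_0_0_26)) (ftC_sound f192_0_0_27)) (ftC_sound f192_0_0_28)) (ftC_sound f192_0_0_29)) (ftC_sound f192_0_0_30)) (ftC_sound f192_0_0_31)) (ftC_sound f192_0_0_32)) (ftC_sound f192_0_0_33)) (ftC_sound f192_0_0_34)) (ftC_sound f192_0_0_35))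 (ftC_sound f192_0_0_36)) (ftC_sound f192_0_0_37)) (ftC_sound f192_0_0_38)) (ftC_sound f192_0_0_39)) (ftC_sound f192_0_0_40)) (ftC_sound f192_0_0_41)) (ftC_sound f192_0_0_42)) (ftC_sound f192_0_0_43)) (ftC_sound f192_0_0_44)) (ftC_sound f192_0_0_45)) (ftC_sound f192_0_0_46)) (ftC_sound f192_0_0_47)) (ftC_sound f192_0_0_48)) (ftC_sound f192_0_0_49)) (ftC_sound f192_0_0_50)) (ftC_sound f192_0_0_51)) (ftC_sound f192_0_0_52)) (ftC_sound f192_0_0_53)) (ftC_sound f192_0_0_54)) (ftC_sound f192_0_0_55)) (ftC_sound f192_0_0_56)) (ftC_sound f192_0_0_57)) (ftC_sound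
 f192_0_0_58)) (ftC_sound f192_0_0_59)) (ftC_sound f192_0_0_60)) (ftC_sound f192_0_0_61)) (ftC_sound f192_0_0_62)) (ftC_sound f192_0_0_63)) (ftC_sound f192_0_0_64)) (ftC_sound f192_0_0_65)) (ftC_sound f192_0_0_66)) (ftC_sound f192_0_0_67)) (ftC_sound f192_0_0_68)) (ftC_sound f192_0_0_69)) (ftC_sound f192_0_0_70)) (ftC_sound f192_0_0_71)) (ftC_sound f192_0_0_72)) (ftC_sound f192_0_0_73)) (ftC_sound f192_0_0_74)) (ftC_sound f192_0_0_75)) (ftC_sound f192_0_0_76)) (ftC_sound f192_0_0_77)) (ftC_sound f192_0_0_78)) (ftC_sound f192_0_0_79)) (ftC_sound f192_0_0_80)) (ftC_sound f192_0_0_81)) (ftC_sound f192_0_0_82)) (ftC_sound f192_0_0_83)) (ftC_sound f192_0_0_84)) (ftC_sound f192_0_0_85)) (ftC_sound f192_0_0_86)) (by decide +kernel)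

theorem f192_0_400_T : FS ((192 : ℕ) / 200 : ℝ) ((400 : ℕ) / 1000 : ℝ) ((90 : ℕ) / 1000 : ℝ) f192_0_400 (kR [(nat_lit 180), (nat_lit 330), (nat_lit 650)].reverse) 0 0 :=
  ftab_of_E RE.rowE_sound (by decide +kernel : ftOK (nat_lit 192) (nat_lit 400) (nat_lit 90) [(nat_lit 180), (nat_lit 330), (nat_lit 650)] (nat_lit 2360) [((nat_lit 1), (nat_lit 1)), ((nat_lit 192), (nat_lit 200)), ((nat_lit 400), (nat_lit 1000)), ((nat_lit 90), (nat_lit 1000)), ((nat_lit 180), (nat_lit 1000)), ((nat_lit 330), (nat_lit 1000)), ((nat_lit 650), (nat_lit 1000))] [(nat_lit 1), (nat_lit 1), (nat_lit 1)] (nat_lit 3) = true)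
  (FtP.trans (FtP.trans (FtP.trans (FtP.trans (FtP.trans (FtP.trans (FtP.trans (FtP.trans (FtP.trans (FtP.trans (FtP.trans (FtP.trans (FtP.trans (FtP.trans (FtP.trans (FtP.trans (FtP.trans (FtP.trans (FtP.trans (FtP.trans (FtP.trans (FtP.trans (FtP.trans (FtP.trans (FtP.trans (FtP.trans (FtP.trans (FtP.trans (FtP.trans (FtP.trans (FtP.trans (FtP.trans (FtP.trans (FtP.trans (FtP.trans (FtP.trans (FtP.trans (FtP.trans (FtP.trans (FtP.trans (FtP.trans (FtP.trans (FtP.trans (FtP.trans (FtP.trans (FtP.trans (FtP.trans (FtP.trans (FtP.trans (FtP.trans (FtP.trans (FtP.trans (FtP.trans (FtP.trans (FtP.trans (FtP.trans (FtP.trans (FtP.trans (FtP.trans (FtP.trans (FtP.trans (FtP.trans (FtP.trans (FtP.trans (FtP.trans (FtP.trans (FtP.trans (FtP.trans (FtP.trans (FtP.trans (FtP.trans (FtP.trans (FtP.trans (FtP.trans (FtP.trans (FtP.trans (FtP.trans (FtP.trans (FtP.trans (FtP.trans (FtP.trans (FtP.trans (FtP.trans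 (FtP.trans (FtP.trans (FtP.trans (ftC_sound f192_0_400_0) (ftC_sound f192_0_400_1)) (ftC_sound f192_0_400_2)) (ftC_sound f192_0_400_3)) (ftC_sound f192_0_400_4)) (ftC_sound f192_0_400_5)) (ftC_sound f192_0_400_6)) (ftC_sound f192_0_400_7)) (ftC_sound f192_0_400_8)) (ftC_sound
 f192_0_400_9)) (ftC_sound f192_0_400_10)) (ftC_sound f192_0_400_11)) (ftC_sound f192_0_400_12)) (ftC_sound f192_0_400_13)) (ftC_sound f192_0_400_14)) (ftC_sound f192_0_400_15)) (ftC_sound f192_0_400_16)) (ftC_sound f192_0_400_17)) (ftC_sound f192_0_400_18)) (ftC_sound f192_0_400_19)) (ftC_sound f192_0_400_20)) (ftC_sound f192_0_400_21)) (ftC_sound f192_0_400_22)) (ftC_sound f192_0_400_23)) (ftC_sound f192_0_400_24)) (ftC_sound f192_0_400_25)) (ftC_sound f192_0_400_26)) (ftC_sound f192_0_400_27)) (ftC_sound f192_0_400_28)) (ftC_sound f192_0_400_29)) (ftC_sound f192_0_400_30)) (ftC_sound f192_0_400_31)) (ftC_sound f192_0_400_32))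 (ftC_sound f192_0_400_33)) (ftC_sound f192_0_400_34)) (ftC_sound f192_0_400_35)) (ftC_sound f192_0_400_36)) (ftC_sound f192_0_400_37)) (ftC_sound f192_0_400_38)) (ftC_sound f192_0_400_39)) (ftC_sound f192_0_400_40)) (ftC_sound f192_0_400_41)) (ftC_sound f192_0_400_42)) (ftC_sound f192_0_400_43)) (ftC_sound f192_0_400_44)) (ftC_sound f192_0_400_45)) (ftC_sound f192_0_400_46)) (ftC_sound f192_0_400_47)) (ftC_sound f192_0_400_48)) (ftC_sound f192_0_400_49)) (ftC_sound f192_0_400_50)) (ftC_sound f192_0_400_51)) (ftC_sound f192_0_400_52)) (ftC_sound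
 f192_0_400_53)) (ftC_sound f192_0_400_54)) (ftC_sound f192_0_400_55)) (ftC_sound f192_0_400_56)) (ftC_sound f192_0_400_57)) (ftC_sound f192_0_400_58)) (ftC_sound f192_0_400_59)) (ftC_sound f192_0_400_60)) (ftC_sound f192_0_400_61)) (ftC_sound f192_0_400_62)) (ftC_sound f192_0_400_63)) (ftC_sound f192_0_400_64)) (ftC_sound f192_0_400_65)) (ftC_sound f192_0_400_66)) (ftC_sound f192_0_400_67)) (ftC_sound f192_0_400_68)) (ftC_sound f192_0_400_69)) (ftC_sound f192_0_400_70)) (ftC_sound f192_0_400_71)) (ftC_sound f192_0_400_72)) (ftC_sound f192_0_400_73)) (ftC_sound f192_0_400_74)) (ftC_sound f192_0_400_75)) (ftC_sound f192_0_400_76)) (ftC_sound f192_0_400_77)) (ftC_sound f192_0_400_78)) (ftC_sound f192_0_400_79)) (ftC_sound f192_0_400_80)) (ftC_sound f192_0_400_81)) (ftC_sound f192_0_400_82)) (ftC_sound f192_0_400_83)) (ftC_sound f192_0_400_84)) (ftC_sound f192_0_400_85)) (ftC_sound f192_0_400_86)) (by decide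 +kernel)

theorem f192_0_600_T : FS ((192 : ℕ) / 200 : ℝ) ((600 : ℕ) / 1000 : ℝ) ((90 : ℕ) / 1000 : ℝ) f192_0_600 (kR [(nat_lit 180), (nat_lit 330), (nat_lit 650)].reverse) 0 0 :=
  ftab_of_E RE.rowE_sound (by decide +kernel : ftOK (nat_lit 192) (nat_lit 600) (nat_lit 90) [(nat_lit 180), (nat_lit 330), (nat_lit 650)] (nat_lit 2560) [((nat_lit 1), (nat_lit 1)), ((nat_lit 192), (nat_lit 200)), ((nat_lit 600), (nat_lit 1000)), ((nat_lit 90), (nat_lit 1000)), ((nat_lit 180), (nat_lit 1000)), ((nat_lit 330), (nat_lit 1000)), ((nat_lit 650), (nat_lit 1000))] [(nat_lit 1), (nat_lit 1), (nat_lit 1)] (nat_lit 3) = true)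
  (FtP.trans (FtP.trans (FtP.trans (FtP.trans (FtP.trans (FtP.trans (FtP.trans (FtP.trans (FtP.trans (FtP.trans (FtP.trans (FtP.trans (FtP.trans (FtP.trans (FtP.trans (FtP.trans (FtP.trans (FtP.trans (FtP.trans (FtP.trans (FtP.trans (FtP.trans (FtP.trans (FtP.trans (FtP.trans (FtP.trans (FtP.trans (FtP.trans (FtP.trans (FtP.trans (FtP.trans (FtP.trans (FtP.trans (FtP.trans (FtP.trans (FtP.trans (FtP.trans (FtP.trans (FtP.trans (FtP.trans (FtP.trans (FtP.trans (FtP.trans (FtP.trans (FtP.trans (FtP.trans (ftC_sound f192_0_600_0) (ftC_sound f192_0_600_1)) (ftC_sound f192_0_600_2)) (ftC_sound f192_0_600_3)) (ftC_sound f192_0_600_4)) (ftC_sound f192_0_600_5)) (ftC_sound f192_0_600_6)) (ftC_sound f192_0_600_7)) (ftC_sound f192_0_600_8)) (ftC_sound f192_0_600_9)) (ftC_sound f192_0_600_10)) (ftC_sound f192_0_600_11)) (ftC_sound f192_0_600_12)) (ftC_sound f192_0_600_13)) (ftC_sound f192_0_600_14)) (ftC_sound f192_0_600_15))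 (ftC_sound f192_0_600_16)) (ftC_sound f192_0_600_17)) (ftC_sound f192_0_600_18)) (ftC_sound f192_0_600_19)) (ftC_sound f192_0_600_20)) (ftC_sound f192_0_600_21)) (ftC_sound f192_0_600_22)) (ftC_sound f192_0_600_23)) (ftC_sound f192_0_600_24)) (ftC_sound f192_0_600_25))
 (ftC_sound f192_0_600_26)) (ftC_sound f192_0_600_27)) (ftC_sound f192_0_600_28)) (ftC_sound f192_0_600_29)) (ftC_sound f192_0_600_30)) (ftC_sound f192_0_600_31)) (ftC_sound f192_0_600_32)) (ftC_sound f192_0_600_33)) (ftC_sound f192_0_600_34)) (ftC_sound f192_0_600_35)) (ftC_sound f192_0_600_36)) (ftC_sound f192_0_600_37)) (ftC_sound f192_0_600_38)) (ftC_sound f192_0_600_39)) (ftC_sound f192_0_600_40)) (ftC_sound f192_0_600_41)) (ftC_sound f192_0_600_42)) (ftC_sound f192_0_600_43)) (ftC_sound f192_0_600_44)) (ftC_sound f192_0_600_45)) (ftC_sound f192_0_600_46)) (by decide +kernel)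

theorem f192_0_601_T : FS ((192 : ℕ) / 200 : ℝ) ((601 : ℕ) / 1000 : ℝ) ((90 : ℕ) / 1000 : ℝ) f192_0_601 (kR [(nat_lit 180), (nat_lit 330), (nat_lit 650)].reverse) 0 0 :=
  ftab_of_E RE.rowE_sound (by decide +kernel : ftOK (nat_lit 192) (nat_lit 601) (nat_lit 90) [(nat_lit 180), (nat_lit 330), (nat_lit 650)] (nat_lit 2561) [((nat_lit 1), (nat_lit 1)), ((nat_lit 192), (nat_lit 200)), ((nat_lit 601), (nat_lit 1000)), ((nat_lit 90), (nat_lit 1000)), ((nat_lit 180), (nat_lit 1000)), ((nat_lit 330), (nat_lit 1000)), ((nat_lit 650), (nat_lit 1000))] [(nat_lit 1), (nat_lit 1), (nat_lit 1)] (nat_lit 3) = true)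
  (FtP.trans (FtP.trans (FtP.trans (FtP.trans (FtP.trans (FtP.trans (FtP.trans (FtP.trans (FtP.trans (FtP.trans (FtP.trans (FtP.trans (FtP.trans (FtP.trans (FtP.trans (FtP.trans (FtP.trans (FtP.trans (FtP.trans (FtP.trans (FtP.trans (FtP.trans (FtP.trans (FtP.trans (FtP.trans (FtP.trans (FtP.trans (FtP.trans (FtP.trans (FtP.trans (FtP.trans (FtP.trans (FtP.trans (FtP.trans (FtP.trans (FtP.trans (FtP.trans (FtP.trans (FtP.trans (FtP.trans (FtP.trans (FtP.trans (FtP.trans (FtP.trans (FtP.trans (FtP.trans (FtP.trans (FtP.trans (FtP.trans (FtP.trans (FtP.trans (FtP.trans (FtP.trans (FtP.trans (FtP.trans (FtP.trans (ftC_sound f192_0_601_0) (ftC_sound f192_0_601_1)) (ftC_sound f192_0_601_2)) (ftC_sound f192_0_601_3)) (ftC_sound f192_0_601_4)) (ftC_sound f192_0_601_5)) (ftC_sound f192_0_601_6)) (ftC_sound f192_0_601_7)) (ftC_sound f192_0_601_8)) (ftC_sound f192_0_601_9)) (ftC_sound f192_0_601_10)) (ftC_sound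 f192_0_601_11)) (ftC_sound f192_0_601_12)) (ftC_sound f192_0_601_13)) (ftC_sound f192_0_601_14)) (ftC_sound f192_0_601_15)) (ftC_sound f192_0_601_16)) (ftC_sound f192_0_601_17)) (ftC_sound f192_0_601_18)) (ftC_sound f192_0_601_19)) (ftC_sound f192_0_601_20)) (ftC_sound f192_0_601_21))
 (ftC_sound f192_0_601_22)) (ftC_sound f192_0_601_23)) (ftC_sound f192_0_601_24)) (ftC_sound f192_0_601_25)) (ftC_sound f192_0_601_26)) (ftC_sound f192_0_601_27)) (ftC_sound f192_0_601_28)) (ftC_sound f192_0_601_29)) (ftC_sound f192_0_601_30)) (ftC_sound f192_0_601_31)) (ftC_sound f192_0_601_32)) (ftC_sound f192_0_601_33)) (ftC_sound f192_0_601_34)) (ftC_sound f192_0_601_35)) (ftC_sound f192_0_601_36)) (ftC_sound f192_0_601_37)) (ftC_sound f192_0_601_38)) (ftC_sound f192_0_601_39)) (ftC_sound f192_0_601_40)) (ftC_sound f192_0_601_41)) (ftC_sound f192_0_601_42)) (ftC_sound f192_0_601_43)) (ftC_sound f192_0_601_44)) (ftC_sound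 f192_0_601_45)) (ftC_sound f192_0_601_46)) (ftC_sound f192_0_601_47)) (ftC_sound f192_0_601_48)) (ftC_sound f192_0_601_49)) (ftC_sound f192_0_601_50)) (ftC_sound f192_0_601_51)) (ftC_sound f192_0_601_52)) (ftC_sound f192_0_601_53)) (ftC_sound f192_0_601_54)) (ftC_sound f192_0_601_55)) (ftC_sound f192_0_601_56)) (by decide +kernel)

theorem f192_0_682_T : FS ((192 : ℕ) / 200 : ℝ) ((682 : ℕ) / 1000 : ℝ) ((90 : ℕ) / 1000 : ℝ) f192_0_682 (kR [(nat_lit 180), (nat_lit 330), (nat_lit 650)].reverse) 0 0 :=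
  ftab_of_E RE.rowE_sound (by decide +kernel : ftOK (nat_lit 192) (nat_lit 682) (nat_lit 90) [(nat_lit 180), (nat_lit 330), (nat_lit 650)] (nat_lit 2642) [((nat_lit 1), (nat_lit 1)), ((nat_lit 192), (nat_lit 200)), ((nat_lit 682), (nat_lit 1000)), ((nat_lit 90), (nat_lit 1000)), ((nat_lit 180), (nat_lit 1000)), ((nat_lit 330), (nat_lit 1000)), ((nat_lit 650), (nat_lit 1000))] [(nat_lit 1), (nat_lit 1), (nat_lit 1)] (nat_lit 3) = true)
  (FtP.trans (FtP.trans (FtP.trans (FtP.trans (FtP.trans (FtP.trans (FtP.trans (FtP.trans (FtP.trans (FtP.trans (FtP.trans (FtP.trans (FtP.trans (FtP.trans (FtP.trans (FtP.trans (FtP.trans (FtP.trans (FtP.trans (FtP.trans (FtP.trans (FtP.trans (FtP.trans (FtP.trans (FtP.trans (FtP.trans (FtP.trans (FtP.trans (FtP.trans (FtP.trans (FtP.trans (FtP.trans (FtP.trans (FtP.trans (FtP.trans (FtP.trans (FtP.trans (FtP.trans (FtP.trans (FtP.trans (FtP.trans (FtP.trans (FtP.trans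 (FtP.trans (FtP.trans (ftC_sound f192_0_682_0) (ftC_sound f192_0_682_1)) (ftC_sound f192_0_682_2)) (ftC_sound f192_0_682_3)) (ftC_sound f192_0_682_4)) (ftC_sound f192_0_682_5)) (ftC_sound f192_0_682_6)) (ftC_sound f192_0_682_7)) (ftC_sound f192_0_682_8)) (ftC_sound f192_0_682_9)) (ftC_sound f192_0_682_10)) (ftC_sound f192_0_682_11)) (ftC_sound f192_0_682_12)) (ftC_sound f192_0_682_13)) (ftC_sound f192_0_682_14)) (ftC_sound f192_0_682_15)) (ftC_sound f192_0_682_16)) (ftC_sound f192_0_682_17)) (ftC_sound f192_0_682_18)) (ftC_sound f192_0_682_19)) (ftC_sound f192_0_682_20)) (ftC_sound f192_0_682_21)) (ftC_sound f192_0_682_22)) (ftC_sound f192_0_682_23)) (ftC_sound f192_0_682_24)) (ftC_sound f192_0_682_25)) (ftC_sound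
 f192_0_682_26)) (ftC_sound f192_0_682_27)) (ftC_sound f192_0_682_28)) (ftC_sound f192_0_682_29)) (ftC_sound f192_0_682_30)) (ftC_sound f192_0_682_31)) (ftC_sound f192_0_682_32)) (ftC_sound f192_0_682_33)) (ftC_sound f192_0_682_34)) (ftC_sound f192_0_682_35)) (ftC_sound f192_0_682_36)) (ftC_sound f192_0_682_37)) (ftC_sound f192_0_682_38)) (ftC_sound f192_0_682_39)) (ftC_sound f192_0_682_40)) (ftC_sound f192_0_682_41)) (ftC_sound f192_0_682_42)) (ftC_sound f192_0_682_43)) (ftC_sound f192_0_682_44)) (ftC_sound f192_0_682_45)) (by decide +kernel)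

theorem f200_0_0_T : FS ((200 : ℕ) / 200 : ℝ) ((0 : ℕ) / 1000 : ℝ) ((90 : ℕ) / 1000 : ℝ) f200_0_0 (kR [(nat_lit 180), (nat_lit 330), (nat_lit 650)].reverse) 0 0 :=
  ftab_of_E RE.rowE_sound (by decide +kernel : ftOK (nat_lit 200) (nat_lit 0) (nat_lit 90) [(nat_lit 180), (nat_lit 330), (nat_lit 650)] (nat_lit 2000) [((nat_lit 1), (nat_lit 1)), ((nat_lit 200), (nat_lit 200)), ((nat_lit 90), (nat_lit 1000)), ((nat_lit 180), (nat_lit 1000)), ((nat_lit 330), (nat_lit 1000)), ((nat_lit 650), (nat_lit 1000))] [(nat_lit 1), (nat_lit 1)] (nat_lit 3) = true)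
  (FtP.trans (FtP.trans (FtP.trans (FtP.trans (FtP.trans (FtP.trans (FtP.trans (FtP.trans (FtP.trans (FtP.trans (FtP.trans (FtP.trans (FtP.trans (FtP.trans (FtP.trans (FtP.trans (FtP.trans (FtP.trans (FtP.trans (FtP.trans (FtP.trans (FtP.trans (FtP.trans (FtP.trans (FtP.trans (FtP.trans (FtP.trans (FtP.trans (FtP.trans (FtP.trans (FtP.trans (FtP.trans (FtP.trans (FtP.trans (FtP.trans (FtP.trans (FtP.trans (FtP.trans (FtP.trans (FtP.trans (FtP.trans (FtP.trans (FtP.trans (FtP.trans (FtP.trans (FtP.trans (FtP.trans (FtP.trans (FtP.trans (FtP.trans (FtP.trans (FtP.trans (FtP.trans (FtP.trans (FtP.trans (FtP.trans (FtP.trans (FtP.trans (FtP.trans (FtP.trans (FtP.trans (FtP.trans (FtP.trans (FtP.trans (FtP.trans (FtP.trans (FtP.trans (FtP.trans (FtP.trans (FtP.trans (FtP.trans (FtP.trans (FtP.trans (FtP.trans (FtP.trans (FtP.trans (FtP.trans (FtP.trans (FtP.trans (FtP.trans (FtP.trans (FtP.trans (FtP.trans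 (FtP.trans (FtP.trans (FtP.trans (ftC_sound f200_0_0_0) (ftC_sound f200_0_0_1)) (ftC_sound f200_0_0_2)) (ftC_sound f200_0_0_3)) (ftC_sound f200_0_0_4)) (ftC_sound f200_0_0_5)) (ftC_sound f200_0_0_6)) (ftC_sound f200_0_0_7)) (ftC_sound f200_0_0_8)) (ftC_sound f200_0_0_9)) (ftC_sound
 f200_0_0_10)) (ftC_sound f200_0_0_11)) (ftC_sound f200_0_0_12)) (ftC_sound f200_0_0_13)) (ftC_sound f200_0_0_14)) (ftC_sound f200_0_0_15)) (ftC_sound f200_0_0_16)) (ftC_sound f200_0_0_17)) (ftC_sound f200_0_0_18)) (ftC_sound f200_0_0_19)) (ftC_sound f200_0_0_20)) (ftC_sound f200_0_0_21)) (ftC_sound f200_0_0_22)) (ftC_sound f200_0_0_23)) (ftC_sound f200_0_0_24)) (ftC_sound f200_0_0_25)) (ftC_sound f200_0_0_26)) (ftC_sound f200_0_0_27)) (ftC_sound f200_0_0_28)) (ftC_sound f200_0_0_29)) (ftC_sound f200_0_0_30)) (ftC_sound f200_0_0_31)) (ftC_sound f200_0_0_32)) (ftC_sound f200_0_0_33)) (ftC_sound f200_0_0_34)) (ftC_sound f200_0_0_35))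 (ftC_sound f200_0_0_36)) (ftC_sound f200_0_0_37)) (ftC_sound f200_0_0_38)) (ftC_sound f200_0_0_39)) (ftC_sound f200_0_0_40)) (ftC_sound f200_0_0_41)) (ftC_sound f200_0_0_42)) (ftC_sound f200_0_0_43)) (ftC_sound f200_0_0_44)) (ftC_sound f200_0_0_45)) (ftC_sound f200_0_0_46)) (ftC_sound f200_0_0_47)) (ftC_sound f200_0_0_48)) (ftC_sound f200_0_0_49)) (ftC_sound f200_0_0_50)) (ftC_sound f200_0_0_51)) (ftC_sound f200_0_0_52)) (ftC_sound f200_0_0_53)) (ftC_sound f200_0_0_54)) (ftC_sound f200_0_0_55)) (ftC_sound f200_0_0_56)) (ftC_sound f200_0_0_57)) (ftC_sound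
 f200_0_0_58)) (ftC_sound f200_0_0_59)) (ftC_sound f200_0_0_60)) (ftC_sound f200_0_0_61)) (ftC_sound f200_0_0_62)) (ftC_sound f200_0_0_63)) (ftC_sound f200_0_0_64)) (ftC_sound f200_0_0_65)) (ftC_sound f200_0_0_66)) (ftC_sound f200_0_0_67)) (ftC_sound f200_0_0_68)) (ftC_sound f200_0_0_69)) (ftC_sound f200_0_0_70)) (ftC_sound f200_0_0_71)) (ftC_sound f200_0_0_72)) (ftC_sound f200_0_0_73)) (ftC_sound f200_0_0_74)) (ftC_sound f200_0_0_75)) (ftC_sound f200_0_0_76)) (ftC_sound f200_0_0_77)) (ftC_sound f200_0_0_78)) (ftC_sound f200_0_0_79)) (ftC_sound f200_0_0_80)) (ftC_sound f200_0_0_81)) (ftC_sound f200_0_0_82)) (ftC_sound f200_0_0_83)) (ftC_sound f200_0_0_84)) (ftC_sound f200_0_0_85)) (ftC_sound f200_0_0_86)) (by decide +kernel)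

theorem f200_0_400_T : FS ((200 : ℕ) / 200 : ℝ) ((400 : ℕ) / 1000 : ℝ) ((90 : ℕ) / 1000 : ℝ) f200_0_400 (kR [(nat_lit 180), (nat_lit 330), (nat_lit 650)].reverse) 0 0 :=
  ftab_of_E RE.rowE_sound (by decide +kernel : ftOK (nat_lit 200) (nat_lit 400) (nat_lit 90) [(nat_lit 180), (nat_lit 330), (nat_lit 650)] (nat_lit 2400) [((nat_lit 1), (nat_lit 1)), ((nat_lit 200), (nat_lit 200)), ((nat_lit 400), (nat_lit 1000)), ((nat_lit 90), (nat_lit 1000)), ((nat_lit 180), (nat_lit 1000)), ((nat_lit 330), (nat_lit 1000)), ((nat_lit 650), (nat_lit 1000))] [(nat_lit 1), (nat_lit 1), (nat_lit 1)] (nat_lit 3) = true)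
  (FtP.trans (FtP.trans (FtP.trans (FtP.trans (FtP.trans (FtP.trans (FtP.trans (FtP.trans (FtP.trans (FtP.trans (FtP.trans (FtP.trans (FtP.trans (FtP.trans (FtP.trans (FtP.trans (FtP.trans (FtP.trans (FtP.trans (FtP.trans (FtP.trans (FtP.trans (FtP.trans (FtP.trans (FtP.trans (FtP.trans (FtP.trans (FtP.trans (FtP.trans (FtP.trans (FtP.trans (FtP.trans (FtP.trans (FtP.trans (FtP.trans (FtP.trans (FtP.trans (FtP.trans (FtP.trans (FtP.trans (FtP.trans (FtP.trans (FtP.trans (FtP.trans (FtP.trans (FtP.trans (FtP.trans (FtP.trans (FtP.trans (FtP.trans (FtP.trans (FtP.trans (FtP.trans (FtP.trans (FtP.trans (FtP.trans (FtP.trans (FtP.trans (FtP.trans (FtP.trans (FtP.trans (FtP.trans (FtP.trans (FtP.trans (FtP.trans (FtP.trans (FtP.trans (FtP.trans (FtP.trans (FtP.trans (FtP.trans (FtP.trans (FtP.trans (FtP.trans (FtP.trans (FtP.trans (FtP.trans (FtP.trans (FtP.trans (FtP.trans (FtP.trans (FtP.trans (FtP.trans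 (FtP.trans (FtP.trans (FtP.trans (ftC_sound f200_0_400_0) (ftC_sound f200_0_400_1)) (ftC_sound f200_0_400_2)) (ftC_sound f200_0_400_3)) (ftC_sound f200_0_400_4)) (ftC_sound f200_0_400_5)) (ftC_sound f200_0_400_6)) (ftC_sound f200_0_400_7)) (ftC_sound f200_0_400_8)) (ftC_sound
 f200_0_400_9)) (ftC_sound f200_0_400_10)) (ftC_sound f200_0_400_11)) (ftC_sound f200_0_400_12)) (ftC_sound f200_0_400_13)) (ftC_sound f200_0_400_14)) (ftC_sound f200_0_400_15)) (ftC_sound f200_0_400_16)) (ftC_sound f200_0_400_17)) (ftC_sound f200_0_400_18)) (ftC_sound f200_0_400_19)) (ftC_sound f200_0_400_20)) (ftC_sound f200_0_400_21)) (ftC_sound f200_0_400_22)) (ftC_sound f200_0_400_23)) (ftC_sound f200_0_400_24)) (ftC_sound f200_0_400_25)) (ftC_sound f200_0_400_26)) (ftC_sound f200_0_400_27)) (ftC_sound f200_0_400_28)) (ftC_sound f200_0_400_29)) (ftC_sound f200_0_400_30)) (ftC_sound f200_0_400_31)) (ftC_sound f200_0_400_32))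 (ftC_sound f200_0_400_33)) (ftC_sound f200_0_400_34)) (ftC_sound f200_0_400_35)) (ftC_sound f200_0_400_36)) (ftC_sound f200_0_400_37)) (ftC_sound f200_0_400_38)) (ftC_sound f200_0_400_39)) (ftC_sound f200_0_400_40)) (ftC_sound f200_0_400_41)) (ftC_sound f200_0_400_42)) (ftC_sound f200_0_400_43)) (ftC_sound f200_0_400_44)) (ftC_sound f200_0_400_45)) (ftC_sound f200_0_400_46)) (ftC_sound f200_0_400_47)) (ftC_sound f200_0_400_48)) (ftC_sound f200_0_400_49)) (ftC_sound f200_0_400_50)) (ftC_sound f200_0_400_51)) (ftC_sound f200_0_400_52)) (ftC_sound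
 f200_0_400_53)) (ftC_sound f200_0_400_54)) (ftC_sound f200_0_400_55)) (ftC_sound f200_0_400_56)) (ftC_sound f200_0_400_57)) (ftC_sound f200_0_400_58)) (ftC_sound f200_0_400_59)) (ftC_sound f200_0_400_60)) (ftC_sound f200_0_400_61)) (ftC_sound f200_0_400_62)) (ftC_sound f200_0_400_63)) (ftC_sound f200_0_400_64)) (ftC_sound f200_0_400_65)) (ftC_sound f200_0_400_66)) (ftC_sound f200_0_400_67)) (ftC_sound f200_0_400_68)) (ftC_sound f200_0_400_69)) (ftC_sound f200_0_400_70)) (ftC_sound f200_0_400_71)) (ftC_sound f200_0_400_72)) (ftC_sound f200_0_400_73)) (ftC_sound f200_0_400_74)) (ftC_sound f200_0_400_75)) (ftC_sound f200_0_400_76)) (ftC_sound f200_0_400_77)) (ftC_sound f200_0_400_78)) (ftC_sound f200_0_400_79)) (ftC_sound f200_0_400_80)) (ftC_sound f200_0_400_81)) (ftC_sound f200_0_400_82)) (ftC_sound f200_0_400_83)) (ftC_sound f200_0_400_84)) (ftC_sound f200_0_400_85)) (ftC_sound f200_0_400_86)) (by decide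 +kernel)

theorem f200_0_601_T : FS ((200 : ℕ) / 200 : ℝ) ((601 : ℕ) / 1000 : ℝ) ((90 : ℕ) / 1000 : ℝ) f200_0_601 (kR [(nat_lit 180), (nat_lit 330), (nat_lit 650)].reverse) 0 0 :=
  ftab_of_E RE.rowE_sound (by decide +kernel : ftOK (nat_lit 200) (nat_lit 601) (nat_lit 90) [(nat_lit 180), (nat_lit 330), (nat_lit 650)] (nat_lit 2601) [((nat_lit 1), (nat_lit 1)), ((nat_lit 200), (nat_lit 200)), ((nat_lit 601), (nat_lit 1000)), ((nat_lit 90), (nat_lit 1000)), ((nat_lit 180), (nat_lit 1000)), ((nat_lit 330), (nat_lit 1000)), ((nat_lit 650), (nat_lit 1000))] [(nat_lit 1), (nat_lit 1), (nat_lit 1)] (nat_lit 3) = true)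
  (FtP.trans (FtP.trans (FtP.trans (FtP.trans (FtP.trans (FtP.trans (FtP.trans (FtP.trans (FtP.trans (FtP.trans (FtP.trans (FtP.trans (FtP.trans (FtP.trans (FtP.trans (FtP.trans (FtP.trans (FtP.trans (FtP.trans (FtP.trans (FtP.trans (FtP.trans (FtP.trans (FtP.trans (FtP.trans (FtP.trans (FtP.trans (FtP.trans (FtP.trans (FtP.trans (FtP.trans (FtP.trans (FtP.trans (FtP.trans (FtP.trans (FtP.trans (FtP.trans (FtP.trans (FtP.trans (FtP.trans (FtP.trans (FtP.trans (FtP.trans (FtP.trans (FtP.trans (FtP.trans (FtP.trans (FtP.trans (FtP.trans (FtP.trans (FtP.trans (FtP.trans (FtP.trans (FtP.trans (FtP.trans (FtP.trans (ftC_sound f200_0_601_0) (ftC_sound f200_0_601_1)) (ftC_sound f200_0_601_2)) (ftC_sound f200_0_601_3)) (ftC_sound f200_0_601_4)) (ftC_sound f200_0_601_5)) (ftC_sound f200_0_601_6)) (ftC_sound f200_0_601_7)) (ftC_sound f200_0_601_8)) (ftC_sound f200_0_601_9)) (ftC_sound f200_0_601_10)) (ftC_sound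 f200_0_601_11)) (ftC_sound f200_0_601_12)) (ftC_sound f200_0_601_13)) (ftC_sound f200_0_601_14)) (ftC_sound f200_0_601_15)) (ftC_sound f200_0_601_16)) (ftC_sound f200_0_601_17)) (ftC_sound f200_0_601_18)) (ftC_sound f200_0_601_19)) (ftC_sound f200_0_601_20)) (ftC_sound f200_0_601_21))
 (ftC_sound f200_0_601_22)) (ftC_sound f200_0_601_23)) (ftC_sound f200_0_601_24)) (ftC_sound f200_0_601_25)) (ftC_sound f200_0_601_26)) (ftC_sound f200_0_601_27)) (ftC_sound f200_0_601_28)) (ftC_sound f200_0_601_29)) (ftC_sound f200_0_601_30)) (ftC_sound f200_0_601_31)) (ftC_sound f200_0_601_32)) (ftC_sound f200_0_601_33)) (ftC_sound f200_0_601_34)) (ftC_sound f200_0_601_35)) (ftC_sound f200_0_601_36)) (ftC_sound f200_0_601_37)) (ftC_sound f200_0_601_38)) (ftC_sound f200_0_601_39)) (ftC_sound f200_0_601_40)) (ftC_sound f200_0_601_41)) (ftC_sound f200_0_601_42)) (ftC_sound f200_0_601_43)) (ftC_sound f200_0_601_44)) (ftC_sound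 f200_0_601_45)) (ftC_sound f200_0_601_46)) (ftC_sound f200_0_601_47)) (ftC_sound f200_0_601_48)) (ftC_sound f200_0_601_49)) (ftC_sound f200_0_601_50)) (ftC_sound f200_0_601_51)) (ftC_sound f200_0_601_52)) (ftC_sound f200_0_601_53)) (ftC_sound f200_0_601_54)) (ftC_sound f200_0_601_55)) (ftC_sound f200_0_601_56)) (by decide +kernel)

theorem f104_1_0_T : FS ((104 : ℕ) / 200 : ℝ) ((0 : ℕ) / 1000 : ℝ) ((120 : ℕ) / 1000 : ℝ) f104_1_0 (kR [(nat_lit 200), (nat_lit 300), (nat_lit 450), (nat_lit 800)].reverse) 0 0 :=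
  ftab_of_E RE.rowE_sound (by decide +kernel : ftOK (nat_lit 104) (nat_lit 0) (nat_lit 120) [(nat_lit 200), (nat_lit 300), (nat_lit 450), (nat_lit 800)] (nat_lit 1520) [((nat_lit 1), (nat_lit 1)), ((nat_lit 104), (nat_lit 200)), ((nat_lit 120), (nat_lit 1000)), ((nat_lit 200), (nat_lit 1000)), ((nat_lit 300), (nat_lit 1000)), ((nat_lit 450), (nat_lit 1000)), ((nat_lit 800), (nat_lit 1000))] [(nat_lit 1), (nat_lit 1)] (nat_lit 4) = true)
  (FtP.trans (FtP.trans (FtP.trans (FtP.trans (FtP.trans (ftC_sound f104_1_0_0) (ftC_sound f104_1_0_1)) (ftC_sound f104_1_0_2)) (ftC_sound f104_1_0_3)) (ftC_sound f104_1_0_4)) (ftC_sound f104_1_0_5)) (by decide +kernel)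

theorem f104_1_400_T : FS ((104 : ℕ) / 200 : ℝ) ((400 : ℕ) / 1000 : ℝ) ((120 : ℕ) / 1000 : ℝ) f104_1_400 (kR [(nat_lit 200), (nat_lit 300), (nat_lit 450), (nat_lit 800)].reverse) 0 0 :=
  ftab_of_E RE.rowE_sound (by decide +kernel : ftOK (nat_lit 104) (nat_lit 400) (nat_lit 120) [(nat_lit 200), (nat_lit 300), (nat_lit 450), (nat_lit 800)] (nat_lit 1920) [((nat_lit 1), (nat_lit 1)), ((nat_lit 104), (nat_lit 200)), ((nat_lit 400), (nat_lit 1000)), ((nat_lit 120), (nat_lit 1000)), ((nat_lit 200), (nat_lit 1000)), ((nat_lit 300), (nat_lit 1000)), ((nat_lit 450), (nat_lit 1000)), ((nat_lit 800), (nat_lit 1000))] [(nat_lit 1), (nat_lit 1), (nat_lit 1)] (nat_lit 4) = true)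
  (FtP.trans (FtP.trans (FtP.trans (FtP.trans (FtP.trans (ftC_sound f104_1_400_0) (ftC_sound f104_1_400_1)) (ftC_sound f104_1_400_2)) (ftC_sound f104_1_400_3)) (ftC_sound f104_1_400_4)) (ftC_sound f104_1_400_5)) (by decide +kernel)

theorem f104_1_600_T : FS ((104 : ℕ) / 200 : ℝ) ((600 : ℕ) / 1000 : ℝ) ((120 : ℕ) / 1000 : ℝ) f104_1_600 (kR [(nat_lit 200), (nat_lit 300), (nat_lit 450), (nat_lit 800)].reverse) 0 0 :=
  ftab_of_E RE.rowE_sound (by decide +kernel : ftOK (nat_lit 104) (nat_lit 600) (nat_lit 120) [(nat_lit 200), (nat_lit 300), (nat_lit 450), (nat_lit 800)] (nat_lit 2120) [((nat_lit 1), (nat_lit 1)), ((nat_lit 104), (nat_lit 200)), ((nat_lit 600), (nat_lit 1000)), ((nat_lit 120), (nat_lit 1000)), ((nat_lit 200), (nat_lit 1000)), ((nat_lit 300), (nat_lit 1000)), ((nat_lit 450), (nat_lit 1000)), ((nat_lit 800), (nat_lit 1000))] [(nat_lit 1), (nat_lit 1), (nat_lit 1)] (nat_lit 4) = true)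
  (FtP.trans (FtP.trans (ftC_sound f104_1_600_0) (ftC_sound f104_1_600_1)) (ftC_sound f104_1_600_2)) (by decide +kernel)

theorem f104_1_750_T : FS ((104 : ℕ) / 200 : ℝ) ((750 : ℕ) / 1000 : ℝ) ((120 : ℕ) / 1000 : ℝ) f104_1_750 (kR [(nat_lit 200), (nat_lit 300), (nat_lit 450), (nat_lit 800)].reverse) 0 0 :=
  ftab_of_E RE.rowE_sound (by decide +kernel : ftOK (nat_lit 104) (nat_lit 750) (nat_lit 120) [(nat_lit 200), (nat_lit 300), (nat_lit 450), (nat_lit 800)] (nat_lit 2270) [((nat_lit 1), (nat_lit 1)), ((nat_lit 104), (nat_lit 200)), ((nat_lit 750), (nat_lit 1000)), ((nat_lit 120), (nat_lit 1000)), ((nat_lit 200), (nat_lit 1000)), ((nat_lit 300), (nat_lit 1000)), ((nat_lit 450), (nat_lit 1000)), ((nat_lit 800), (nat_lit 1000))] [(nat_lit 1), (nat_lit 1), (nat_lit 1)] (nat_lit 4) = true)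
  (FtP.trans (FtP.trans (FtP.trans (FtP.trans (FtP.trans (ftC_sound f104_1_750_0) (ftC_sound f104_1_750_1)) (ftC_sound f104_1_750_2)) (ftC_sound f104_1_750_3)) (ftC_sound f104_1_750_4)) (ftC_sound f104_1_750_5)) (by decide +kernel)

theorem f104_1_986_T : FS ((104 : ℕ) / 200 : ℝ) ((986 : ℕ) / 1000 : ℝ) ((120 : ℕ) / 1000 : ℝ) f104_1_986 (kR [(nat_lit 200), (nat_lit 300), (nat_lit 450), (nat_lit 800)].reverse) 0 0 :=
  ftab_of_E RE.rowE_sound (by decide +kernel : ftOK (nat_lit 104) (nat_lit 986) (nat_lit 120) [(nat_lit 200), (nat_lit 300), (nat_lit 450), (nat_lit 800)] (nat_lit 2506) [((nat_lit 1), (nat_lit 1)), ((nat_lit 104), (nat_lit 200)), ((nat_lit 986), (nat_lit 1000)), ((nat_lit 120), (nat_lit 1000)), ((nat_lit 200), (nat_lit 1000)), ((nat_lit 300), (nat_lit 1000)), ((nat_lit 450), (nat_lit 1000)), ((nat_lit 800), (nat_lit 1000))] [(nat_lit 1), (nat_lit 1), (nat_lit 1)] (nat_lit 4) = true)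
  (FtP.trans (FtP.trans (FtP.trans (FtP.trans (FtP.trans (ftC_sound f104_1_986_0) (ftC_sound f104_1_986_1)) (ftC_sound f104_1_986_2)) (ftC_sound f104_1_986_3)) (ftC_sound f104_1_986_4)) (ftC_sound f104_1_986_5)) (by decide +kernel)

theorem f112_1_0_T : FS ((112 : ℕ) / 200 : ℝ) ((0 : ℕ) / 1000 : ℝ) ((120 : ℕ) / 1000 : ℝ) f112_1_0 (kR [(nat_lit 200), (nat_lit 300), (nat_lit 450), (nat_lit 800)].reverse) 0 0 :=
  ftab_of_E RE.rowE_sound (by decide +kernel : ftOK (nat_lit 112) (nat_lit 0) (nat_lit 120) [(nat_lit 200), (nat_lit 300), (nat_lit 450), (nat_lit 800)] (nat_lit 1560) [((nat_lit 1), (nat_lit 1)), ((nat_lit 112), (nat_lit 200)), ((nat_lit 120), (nat_lit 1000)), ((nat_lit 200), (nat_lit 1000)), ((nat_lit 300), (nat_lit 1000)), ((nat_lit 450), (nat_lit 1000)), ((nat_lit 800), (nat_lit 1000))] [(nat_lit 1), (nat_lit 1)] (nat_lit 4) = true)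
  (FtP.trans (FtP.trans (FtP.trans (FtP.trans (FtP.trans (FtP.trans (FtP.trans (ftC_sound f112_1_0_0) (ftC_sound f112_1_0_1)) (ftC_sound f112_1_0_2)) (ftC_sound f112_1_0_3)) (ftC_sound f112_1_0_4)) (ftC_sound f112_1_0_5)) (ftC_sound f112_1_0_6)) (ftC_sound f112_1_0_7)) (by decide +kernel)

theorem f112_1_400_T : FS ((112 : ℕ) / 200 : ℝ) ((400 : ℕ) / 1000 : ℝ) ((120 : ℕ) / 1000 : ℝ) f112_1_400 (kR [(nat_lit 200), (nat_lit 300), (nat_lit 450), (nat_lit 800)].reverse) 0 0 :=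
  ftab_of_E RE.rowE_sound (by decide +kernel : ftOK (nat_lit 112) (nat_lit 400) (nat_lit 120) [(nat_lit 200), (nat_lit 300), (nat_lit 450), (nat_lit 800)] (nat_lit 1960) [((nat_lit 1), (nat_lit 1)), ((nat_lit 112), (nat_lit 200)), ((nat_lit 400), (nat_lit 1000)), ((nat_lit 120), (nat_lit 1000)), ((nat_lit 200), (nat_lit 1000)), ((nat_lit 300), (nat_lit 1000)), ((nat_lit 450), (nat_lit 1000)), ((nat_lit 800), (nat_lit 1000))] [(nat_lit 1), (nat_lit 1), (nat_lit 1)] (nat_lit 4) = true)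
  (FtP.trans (FtP.trans (FtP.trans (FtP.trans (FtP.trans (FtP.trans (FtP.trans (ftC_sound f112_1_400_0) (ftC_sound f112_1_400_1)) (ftC_sound f112_1_400_2)) (ftC_sound f112_1_400_3)) (ftC_sound f112_1_400_4)) (ftC_sound f112_1_400_5)) (ftC_sound f112_1_400_6)) (ftC_sound f112_1_400_7)) (by decide +kernel)

theorem f112_1_600_T : FS ((112 : ℕ) / 200 : ℝ) ((600 : ℕ) / 1000 : ℝ) ((120 : ℕ) / 1000 : ℝ) f112_1_600 (kR [(nat_lit 200), (nat_lit 300), (nat_lit 450), (nat_lit 800)].reverse) 0 0 :=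
  ftab_of_E RE.rowE_sound (by decide +kernel : ftOK (nat_lit 112) (nat_lit 600) (nat_lit 120) [(nat_lit 200), (nat_lit 300), (nat_lit 450), (nat_lit 800)] (nat_lit 2160) [((nat_lit 1), (nat_lit 1)), ((nat_lit 112), (nat_lit 200)), ((nat_lit 600), (nat_lit 1000)), ((nat_lit 120), (nat_lit 1000)), ((nat_lit 200), (nat_lit 1000)), ((nat_lit 300), (nat_lit 1000)), ((nat_lit 450), (nat_lit 1000)), ((nat_lit 800), (nat_lit 1000))] [(nat_lit 1), (nat_lit 1), (nat_lit 1)] (nat_lit 4) = true)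
  (FtP.trans (FtP.trans (FtP.trans (ftC_sound f112_1_600_0) (ftC_sound f112_1_600_1)) (ftC_sound f112_1_600_2)) (ftC_sound f112_1_600_3)) (by decide +kernel)

theorem f112_1_750_T : FS ((112 : ℕ) / 200 : ℝ) ((750 : ℕ) / 1000 : ℝ) ((120 : ℕ) / 1000 : ℝ) f112_1_750 (kR [(nat_lit 200), (nat_lit 300), (nat_lit 450), (nat_lit 800)].reverse) 0 0 :=
  ftab_of_E RE.rowE_sound (by decide +kernel : ftOK (nat_lit 112) (nat_lit 750) (nat_lit 120) [(nat_lit 200), (nat_lit 300), (nat_lit 450), (nat_lit 800)] (nat_lit 2310) [((nat_lit 1), (nat_lit 1)), ((nat_lit 112), (nat_lit 200)), ((nat_lit 750), (nat_lit 1000)), ((nat_lit 120), (nat_lit 1000)), ((nat_lit 200), (nat_lit 1000)), ((nat_lit 300), (nat_lit 1000)), ((nat_lit 450), (nat_lit 1000)), ((nat_lit 800), (nat_lit 1000))] [(nat_lit 1), (nat_lit 1), (nat_lit 1)] (nat_lit 4) = true)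
  (FtP.trans (FtP.trans (FtP.trans (FtP.trans (FtP.trans (FtP.trans (ftC_sound f112_1_750_0) (ftC_sound f112_1_750_1)) (ftC_sound f112_1_750_2)) (ftC_sound f112_1_750_3)) (ftC_sound f112_1_750_4)) (ftC_sound f112_1_750_5)) (ftC_sound f112_1_750_6)) (by decide +kernel)

theorem f112_1_975_T : FS ((112 : ℕ) / 200 : ℝ) ((975 : ℕ) / 1000 : ℝ) ((120 : ℕ) / 1000 : ℝ) f112_1_975 (kR [(nat_lit 200), (nat_lit 300), (nat_lit 450), (nat_lit 800)].reverse) 0 0 :=
  ftab_of_E RE.rowE_sound (by decide +kernel : ftOK (nat_lit 112) (nat_lit 975) (nat_lit 120) [(nat_lit 200), (nat_lit 300), (nat_lit 450), (nat_lit 800)] (nat_lit 2535) [((nat_lit 1), (nat_lit 1)), ((nat_lit 112), (nat_lit 200)), ((nat_lit 975), (nat_lit 1000)), ((nat_lit 120), (nat_lit 1000)), ((nat_lit 200), (nat_lit 1000)), ((nat_lit 300), (nat_lit 1000)), ((nat_lit 450), (nat_lit 1000)), ((nat_lit 800), (nat_lit 1000))] [(nat_lit 1), (nat_lit 1), (nat_lit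 1)] (nat_lit 4) = true)
  (FtP.trans (FtP.trans (FtP.trans (FtP.trans (FtP.trans (FtP.trans (ftC_sound f112_1_975_0) (ftC_sound f112_1_975_1)) (ftC_sound f112_1_975_2)) (ftC_sound f112_1_975_3)) (ftC_sound f112_1_975_4)) (ftC_sound f112_1_975_5)) (ftC_sound f112_1_975_6)) (by decide +kernel)

theorem f112_1_986_T : FS ((112 : ℕ) / 200 : ℝ) ((986 : ℕ) / 1000 : ℝ) ((120 : ℕ) / 1000 : ℝ) f112_1_986 (kR [(nat_lit 200), (nat_lit 300), (nat_lit 450), (nat_lit 800)].reverse) 0 0 :=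
  ftab_of_E RE.rowE_sound (by decide +kernel : ftOK (nat_lit 112) (nat_lit 986) (nat_lit 120) [(nat_lit 200), (nat_lit 300), (nat_lit 450), (nat_lit 800)] (nat_lit 2546) [((nat_lit 1), (nat_lit 1)), ((nat_lit 112), (nat_lit 200)), ((nat_lit 986), (nat_lit 1000)), ((nat_lit 120), (nat_lit 1000)), ((nat_lit 200), (nat_lit 1000)), ((nat_lit 300), (nat_lit 1000)), ((nat_lit 450), (nat_lit 1000)), ((nat_lit 800), (nat_lit 1000))] [(nat_lit 1), (nat_lit 1), (nat_lit 1)] (nat_lit 4) = true)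
  (FtP.trans (FtP.trans (FtP.trans (FtP.trans (FtP.trans (ftC_sound f112_1_986_0) (ftC_sound f112_1_986_1)) (ftC_sound f112_1_986_2)) (ftC_sound f112_1_986_3)) (ftC_sound f112_1_986_4)) (ftC_sound f112_1_986_5)) (by decide +kernel)

theorem f120_1_0_T : FS ((120 : ℕ) / 200 : ℝ) ((0 : ℕ) / 1000 : ℝ) ((120 : ℕ) / 1000 : ℝ) f120_1_0 (kR [(nat_lit 200), (nat_lit 300), (nat_lit 450), (nat_lit 800)].reverse) 0 0 :=
  ftab_of_E RE.rowE_sound (by decide +kernel : ftOK (nat_lit 120) (nat_lit 0) (nat_lit 120) [(nat_lit 200), (nat_lit 300), (nat_lit 450), (nat_lit 800)] (nat_lit 1600) [((nat_lit 1), (nat_lit 1)), ((nat_lit 120), (nat_lit 200)), ((nat_lit 120), (nat_lit 1000)), ((nat_lit 200), (nat_lit 1000)), ((nat_lit 300), (nat_lit 1000)), ((nat_lit 450), (nat_lit 1000)), ((nat_lit 800), (nat_lit 1000))] [(nat_lit 1), (nat_lit 1)] (nat_lit 4) = true)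
  (FtP.trans (FtP.trans (FtP.trans (FtP.trans (FtP.trans (FtP.trans (FtP.trans (FtP.trans (FtP.trans (FtP.trans (FtP.trans (FtP.trans (ftC_sound f120_1_0_0) (ftC_sound f120_1_0_1)) (ftC_sound f120_1_0_2)) (ftC_sound f120_1_0_3)) (ftC_sound f120_1_0_4)) (ftC_sound f120_1_0_5)) (ftC_sound f120_1_0_6)) (ftC_sound f120_1_0_7)) (ftC_sound f120_1_0_8)) (ftC_sound f120_1_0_9)) (ftC_sound f120_1_0_10)) (ftC_sound f120_1_0_11)) (ftC_sound f120_1_0_12)) (by decide +kernel)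

theorem f120_1_400_T : FS ((120 : ℕ) / 200 : ℝ) ((400 : ℕ) / 1000 : ℝ) ((120 : ℕ) / 1000 : ℝ) f120_1_400 (kR [(nat_lit 200), (nat_lit 300), (nat_lit 450), (nat_lit 800)].reverse) 0 0 :=
  ftab_of_E RE.rowE_sound (by decide +kernel : ftOK (nat_lit 120) (nat_lit 400) (nat_lit 120) [(nat_lit 200), (nat_lit 300), (nat_lit 450), (nat_lit 800)] (nat_lit 2000) [((nat_lit 1), (nat_lit 1)), ((nat_lit 120), (nat_lit 200)), ((nat_lit 400), (nat_lit 1000)), ((nat_lit 120), (nat_lit 1000)), ((nat_lit 200), (nat_lit 1000)), ((nat_lit 300), (nat_lit 1000)), ((nat_lit 450), (nat_lit 1000)), ((nat_lit 800), (nat_lit 1000))] [(nat_lit 1), (nat_lit 1), (nat_lit 1)] (nat_lit 4) = true)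
  (FtP.trans (FtP.trans (FtP.trans (FtP.trans (FtP.trans (FtP.trans (FtP.trans (FtP.trans (FtP.trans (FtP.trans (FtP.trans (FtP.trans (ftC_sound f120_1_400_0) (ftC_sound f120_1_400_1)) (ftC_sound f120_1_400_2)) (ftC_sound f120_1_400_3)) (ftC_sound f120_1_400_4)) (ftC_sound f120_1_400_5)) (ftC_sound f120_1_400_6)) (ftC_sound f120_1_400_7)) (ftC_sound f120_1_400_8)) (ftC_sound f120_1_400_9)) (ftC_sound f120_1_400_10)) (ftC_sound f120_1_400_11)) (ftC_sound f120_1_400_12)) (by decide +kernel)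

theorem f120_1_600_T : FS ((120 : ℕ) / 200 : ℝ) ((600 : ℕ) / 1000 : ℝ) ((120 : ℕ) / 1000 : ℝ) f120_1_600 (kR [(nat_lit 200), (nat_lit 300), (nat_lit 450), (nat_lit 800)].reverse) 0 0 :=
  ftab_of_E RE.rowE_sound (by decide +kernel : ftOK (nat_lit 120) (nat_lit 600) (nat_lit 120) [(nat_lit 200), (nat_lit 300), (nat_lit 450), (nat_lit 800)] (nat_lit 2200) [((nat_lit 1), (nat_lit 1)), ((nat_lit 120), (nat_lit 200)), ((nat_lit 600), (nat_lit 1000)), ((nat_lit 120), (nat_lit 1000)), ((nat_lit 200), (nat_lit 1000)), ((nat_lit 300), (nat_lit 1000)), ((nat_lit 450), (nat_lit 1000)), ((nat_lit 800), (nat_lit 1000))] [(nat_lit 1), (nat_lit 1), (nat_lit 1)] (nat_lit 4) = true)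
  (FtP.trans (FtP.trans (FtP.trans (FtP.trans (FtP.trans (FtP.trans (ftC_sound f120_1_600_0) (ftC_sound f120_1_600_1)) (ftC_sound f120_1_600_2)) (ftC_sound f120_1_600_3)) (ftC_sound f120_1_600_4)) (ftC_sound f120_1_600_5)) (ftC_sound f120_1_600_6)) (by decide +kernel)

theorem f120_1_750_T : FS ((120 : ℕ) / 200 : ℝ) ((750 : ℕ) / 1000 : ℝ) ((120 : ℕ) / 1000 : ℝ) f120_1_750 (kR [(nat_lit 200), (nat_lit 300), (nat_lit 450), (nat_lit 800)].reverse) 0 0 :=
  ftab_of_E RE.rowE_sound (by decide +kernel : ftOK (nat_lit 120) (nat_lit 750) (nat_lit 120) [(nat_lit 200), (nat_lit 300), (nat_lit 450), (nat_lit 800)] (nat_lit 2350) [((nat_lit 1), (nat_lit 1)), ((nat_lit 120), (nat_lit 200)), ((nat_lit 750), (nat_lit 1000)), ((nat_lit 120), (nat_lit 1000)), ((nat_lit 200), (nat_lit 1000)), ((nat_lit 300), (nat_lit 1000)), ((nat_lit 450), (nat_lit 1000)), ((nat_lit 800), (nat_lit 1000))] [(nat_lit 1), (nat_lit 1), (nat_lit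 1)] (nat_lit 4) = true)
  (FtP.trans (FtP.trans (FtP.trans (FtP.trans (FtP.trans (FtP.trans (FtP.trans (FtP.trans (ftC_sound f120_1_750_0) (ftC_sound f120_1_750_1)) (ftC_sound f120_1_750_2)) (ftC_sound f120_1_750_3)) (ftC_sound f120_1_750_4)) (ftC_sound f120_1_750_5)) (ftC_sound f120_1_750_6)) (ftC_sound f120_1_750_7)) (ftC_sound f120_1_750_8)) (by decide +kernel)

theorem f120_1_960_T : FS ((120 : ℕ) / 200 : ℝ) ((960 : ℕ) / 1000 : ℝ) ((120 : ℕ) / 1000 : ℝ) f120_1_960 (kR [(nat_lit 200), (nat_lit 300), (nat_lit 450), (nat_lit 800)].reverse) 0 0 :=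
  ftab_of_E RE.rowE_sound (by decide +kernel : ftOK (nat_lit 120) (nat_lit 960) (nat_lit 120) [(nat_lit 200), (nat_lit 300), (nat_lit 450), (nat_lit 800)] (nat_lit 2560) [((nat_lit 1), (nat_lit 1)), ((nat_lit 120), (nat_lit 200)), ((nat_lit 960), (nat_lit 1000)), ((nat_lit 120), (nat_lit 1000)), ((nat_lit 200), (nat_lit 1000)), ((nat_lit 300), (nat_lit 1000)), ((nat_lit 450), (nat_lit 1000)), ((nat_lit 800), (nat_lit 1000))] [(nat_lit 1), (nat_lit 1), (nat_lit 1)] (nat_lit 4) = true)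
  (FtP.trans (FtP.trans (FtP.trans (FtP.trans (FtP.trans (FtP.trans (FtP.trans (FtP.trans (ftC_sound f120_1_960_0) (ftC_sound f120_1_960_1)) (ftC_sound f120_1_960_2)) (ftC_sound f120_1_960_3)) (ftC_sound f120_1_960_4)) (ftC_sound f120_1_960_5)) (ftC_sound f120_1_960_6)) (ftC_sound f120_1_960_7)) (ftC_sound f120_1_960_8)) (by decide +kernel)

theorem f120_1_975_T : FS ((120 : ℕ) / 200 : ℝ) ((975 : ℕ) / 1000 : ℝ) ((120 : ℕ) / 1000 : ℝ) f120_1_975 (kR [(nat_lit 200), (nat_lit 300), (nat_lit 450), (nat_lit 800)].reverse) 0 0 :=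
  ftab_of_E RE.rowE_sound (by decide +kernel : ftOK (nat_lit 120) (nat_lit 975) (nat_lit 120) [(nat_lit 200), (nat_lit 300), (nat_lit 450), (nat_lit 800)] (nat_lit 2575) [((nat_lit 1), (nat_lit 1)), ((nat_lit 120), (nat_lit 200)), ((nat_lit 975), (nat_lit 1000)), ((nat_lit 120), (nat_lit 1000)), ((nat_lit 200), (nat_lit 1000)), ((nat_lit 300), (nat_lit 1000)), ((nat_lit 450), (nat_lit 1000)), ((nat_lit 800), (nat_lit 1000))] [(nat_lit 1), (nat_lit 1), (nat_lit 1)] (nat_lit 4) = true)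
  (FtP.trans (FtP.trans (FtP.trans (FtP.trans (FtP.trans (FtP.trans (ftC_sound f120_1_975_0) (ftC_sound f120_1_975_1)) (ftC_sound f120_1_975_2)) (ftC_sound f120_1_975_3)) (ftC_sound f120_1_975_4)) (ftC_sound f120_1_975_5)) (ftC_sound f120_1_975_6)) (by decide +kernel)

theorem f128_1_0_T : FS ((128 : ℕ) / 200 : ℝ) ((0 : ℕ) / 1000 : ℝ) ((120 : ℕ) / 1000 : ℝ) f128_1_0 (kR [(nat_lit 200), (nat_lit 300), (nat_lit 450), (nat_lit 800)].reverse) 0 0 :=
  ftab_of_E RE.rowE_sound (by decide +kernel : ftOK (nat_lit 128) (nat_lit 0) (nat_lit 120) [(nat_lit 200), (nat_lit 300), (nat_lit 450), (nat_lit 800)] (nat_lit 1640) [((nat_lit 1), (nat_lit 1)), ((nat_lit 128), (nat_lit 200)), ((nat_lit 120), (nat_lit 1000)), ((nat_lit 200), (nat_lit 1000)), ((nat_lit 300), (nat_lit 1000)), ((nat_lit 450), (nat_lit 1000)), ((nat_lit 800), (nat_lit 1000))] [(nat_lit 1), (nat_lit 1)] (nat_lit 4) = true)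
  (FtP.trans (FtP.trans (FtP.trans (FtP.trans (FtP.trans (FtP.trans (FtP.trans (FtP.trans (FtP.trans (FtP.trans (FtP.trans (FtP.trans (FtP.trans (FtP.trans (FtP.trans (FtP.trans (FtP.trans (FtP.trans (FtP.trans (ftC_sound f128_1_0_0) (ftC_sound f128_1_0_1)) (ftC_sound f128_1_0_2)) (ftC_sound f128_1_0_3)) (ftC_sound f128_1_0_4)) (ftC_sound f128_1_0_5)) (ftC_sound f128_1_0_6)) (ftC_sound f128_1_0_7)) (ftC_sound f128_1_0_8)) (ftC_sound f128_1_0_9)) (ftC_sound f128_1_0_10)) (ftC_sound f128_1_0_11)) (ftC_sound f128_1_0_12)) (ftC_sound f128_1_0_13)) (ftC_sound f128_1_0_14)) (ftC_sound f128_1_0_15)) (ftC_sound f128_1_0_16)) (ftC_sound f128_1_0_17)) (ftC_sound f128_1_0_18)) (ftC_sound f128_1_0_19)) (by decide +kernel)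

theorem f128_1_400_T : FS ((128 : ℕ) / 200 : ℝ) ((400 : ℕ) / 1000 : ℝ) ((120 : ℕ) / 1000 : ℝ) f128_1_400 (kR [(nat_lit 200), (nat_lit 300), (nat_lit 450), (nat_lit 800)].reverse) 0 0 :=
  ftab_of_E RE.rowE_sound (by decide +kernel : ftOK (nat_lit 128) (nat_lit 400) (nat_lit 120) [(nat_lit 200), (nat_lit 300), (nat_lit 450), (nat_lit 800)] (nat_lit 2040) [((nat_lit 1), (nat_lit 1)), ((nat_lit 128), (nat_lit 200)), ((nat_lit 400), (nat_lit 1000)), ((nat_lit 120), (nat_lit 1000)), ((nat_lit 200), (nat_lit 1000)), ((nat_lit 300), (nat_lit 1000)), ((nat_lit 450), (nat_lit 1000)), ((nat_lit 800), (nat_lit 1000))] [(nat_lit 1), (nat_lit 1), (nat_lit 1)] (nat_lit 4) = true)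
  (FtP.trans (FtP.trans (FtP.trans (FtP.trans (FtP.trans (FtP.trans (FtP.trans (FtP.trans (FtP.trans (FtP.trans (FtP.trans (FtP.trans (FtP.trans (FtP.trans (FtP.trans (FtP.trans (FtP.trans (FtP.trans (FtP.trans (ftC_sound f128_1_400_0) (ftC_sound f128_1_400_1)) (ftC_sound f128_1_400_2)) (ftC_sound f128_1_400_3)) (ftC_sound f128_1_400_4)) (ftC_sound f128_1_400_5)) (ftC_sound f128_1_400_6)) (ftC_sound f128_1_400_7)) (ftC_sound f128_1_400_8)) (ftC_sound f128_1_400_9)) (ftC_sound f128_1_400_10)) (ftC_sound f128_1_400_11)) (ftC_sound f128_1_400_12)) (ftC_sound f128_1_400_13)) (ftC_sound f128_1_400_14)) (ftC_sound f128_1_400_15)) (ftC_sound f128_1_400_16)) (ftC_sound f128_1_400_17)) (ftC_sound f128_1_400_18)) (ftC_sound f128_1_400_19)) (by decide +kernel)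

theorem f128_1_600_T : FS ((128 : ℕ) / 200 : ℝ) ((600 : ℕ) / 1000 : ℝ) ((120 : ℕ) / 1000 : ℝ) f128_1_600 (kR [(nat_lit 200), (nat_lit 300), (nat_lit 450), (nat_lit 800)].reverse) 0 0 :=
  ftab_of_E RE.rowE_sound (by decide +kernel : ftOK (nat_lit 128) (nat_lit 600) (nat_lit 120) [(nat_lit 200), (nat_lit 300), (nat_lit 450), (nat_lit 800)] (nat_lit 2240) [((nat_lit 1), (nat_lit 1)), ((nat_lit 128), (nat_lit 200)), ((nat_lit 600), (nat_lit 1000)), ((nat_lit 120), (nat_lit 1000)), ((nat_lit 200), (nat_lit 1000)), ((nat_lit 300), (nat_lit 1000)), ((nat_lit 450), (nat_lit 1000)), ((nat_lit 800), (nat_lit 1000))] [(nat_lit 1), (nat_lit 1), (nat_lit 1)] (nat_lit 4) = true)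
  (FtP.trans (FtP.trans (FtP.trans (FtP.trans (FtP.trans (FtP.trans (FtP.trans (FtP.trans (FtP.trans (ftC_sound f128_1_600_0) (ftC_sound f128_1_600_1)) (ftC_sound f128_1_600_2)) (ftC_sound f128_1_600_3)) (ftC_sound f128_1_600_4)) (ftC_sound f128_1_600_5)) (ftC_sound f128_1_600_6)) (ftC_sound f128_1_600_7)) (ftC_sound f128_1_600_8)) (ftC_sound f128_1_600_9)) (by decide +kernel)

theorem f128_1_750_T : FS ((128 : ℕ) / 200 : ℝ) ((750 : ℕ) / 1000 : ℝ) ((120 : ℕ) / 1000 : ℝ) f128_1_750 (kR [(nat_lit 200), (nat_lit 300), (nat_lit 450), (nat_lit 800)].reverse) 0 0 :=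
  ftab_of_E RE.rowE_sound (by decide +kernel : ftOK (nat_lit 128) (nat_lit 750) (nat_lit 120) [(nat_lit 200), (nat_lit 300), (nat_lit 450), (nat_lit 800)] (nat_lit 2390) [((nat_lit 1), (nat_lit 1)), ((nat_lit 128), (nat_lit 200)), ((nat_lit 750), (nat_lit 1000)), ((nat_lit 120), (nat_lit 1000)), ((nat_lit 200), (nat_lit 1000)), ((nat_lit 300), (nat_lit 1000)), ((nat_lit 450), (nat_lit 1000)), ((nat_lit 800), (nat_lit 1000))] [(nat_lit 1), (nat_lit 1), (nat_lit 1)] (nat_lit 4) = true)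
  (FtP.trans (FtP.trans (FtP.trans (FtP.trans (FtP.trans (FtP.trans (FtP.trans (FtP.trans (FtP.trans (FtP.trans (FtP.trans (FtP.trans (ftC_sound f128_1_750_0) (ftC_sound f128_1_750_1)) (ftC_sound f128_1_750_2)) (ftC_sound f128_1_750_3)) (ftC_sound f128_1_750_4)) (ftC_sound f128_1_750_5)) (ftC_sound f128_1_750_6)) (ftC_sound f128_1_750_7)) (ftC_sound f128_1_750_8)) (ftC_sound f128_1_750_9)) (ftC_sound f128_1_750_10)) (ftC_sound f128_1_750_11)) (ftC_sound f128_1_750_12)) (by decide +kernel)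

theorem f128_1_943_T : FS ((128 : ℕ) / 200 : ℝ) ((943 : ℕ) / 1000 : ℝ) ((120 : ℕ) / 1000 : ℝ) f128_1_943 (kR [(nat_lit 200), (nat_lit 300), (nat_lit 450), (nat_lit 800)].reverse) 0 0 :=
  ftab_of_E RE.rowE_sound (by decide +kernel : ftOK (nat_lit 128) (nat_lit 943) (nat_lit 120) [(nat_lit 200), (nat_lit 300), (nat_lit 450), (nat_lit 800)] (nat_lit 2583) [((nat_lit 1), (nat_lit 1)), ((nat_lit 128), (nat_lit 200)), ((nat_lit 943), (nat_lit 1000)), ((nat_lit 120), (nat_lit 1000)), ((nat_lit 200), (nat_lit 1000)), ((nat_lit 300), (nat_lit 1000)), ((nat_lit 450), (nat_lit 1000)), ((nat_lit 800), (nat_lit 1000))] [(nat_lit 1), (nat_lit 1), (nat_lit 1)] (nat_lit 4) = true)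
  (FtP.trans (FtP.trans (FtP.trans (FtP.trans (FtP.trans (FtP.trans (FtP.trans (FtP.trans (FtP.trans (FtP.trans (FtP.trans (FtP.trans (ftC_sound f128_1_943_0) (ftC_sound f128_1_943_1)) (ftC_sound f128_1_943_2)) (ftC_sound f128_1_943_3)) (ftC_sound f128_1_943_4)) (ftC_sound f128_1_943_5)) (ftC_sound f128_1_943_6)) (ftC_sound f128_1_943_7)) (ftC_sound f128_1_943_8)) (ftC_sound f128_1_943_9)) (ftC_sound f128_1_943_10)) (ftC_sound f128_1_943_11)) (ftC_sound f128_1_943_12)) (by decide +kernel)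

theorem f128_1_960_T : FS ((128 : ℕ) / 200 : ℝ) ((960 : ℕ) / 1000 : ℝ) ((120 : ℕ) / 1000 : ℝ) f128_1_960 (kR [(nat_lit 200), (nat_lit 300), (nat_lit 450), (nat_lit 800)].reverse) 0 0 :=
  ftab_of_E RE.rowE_sound (by decide +kernel : ftOK (nat_lit 128) (nat_lit 960) (nat_lit 120) [(nat_lit 200), (nat_lit 300), (nat_lit 450), (nat_lit 800)] (nat_lit 2600) [((nat_lit 1), (nat_lit 1)), ((nat_lit 128), (nat_lit 200)), ((nat_lit 960), (nat_lit 1000)), ((nat_lit 120), (nat_lit 1000)), ((nat_lit 200), (nat_lit 1000)), ((nat_lit 300), (nat_lit 1000)), ((nat_lit 450), (nat_lit 1000)), ((nat_lit 800), (nat_lit 1000))] [(nat_lit 1), (nat_lit 1), (nat_lit 1)] (nat_lit 4) = true)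
  (FtP.trans (FtP.trans (FtP.trans (FtP.trans (FtP.trans (FtP.trans (FtP.trans (FtP.trans (ftC_sound f128_1_960_0) (ftC_sound f128_1_960_1)) (ftC_sound f128_1_960_2)) (ftC_sound f128_1_960_3)) (ftC_sound f128_1_960_4)) (ftC_sound f128_1_960_5)) (ftC_sound f128_1_960_6)) (ftC_sound f128_1_960_7)) (ftC_sound f128_1_960_8)) (by decide +kernel)

theorem f136_1_0_T : FS ((136 : ℕ) / 200 : ℝ) ((0 : ℕ) / 1000 : ℝ) ((120 : ℕ) / 1000 : ℝ) f136_1_0 (kR [(nat_lit 200), (nat_lit 300), (nat_lit 450), (nat_lit 800)].reverse) 0 0 :=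
  ftab_of_E RE.rowE_sound (by decide +kernel : ftOK (nat_lit 136) (nat_lit 0) (nat_lit 120) [(nat_lit 200), (nat_lit 300), (nat_lit 450), (nat_lit 800)] (nat_lit 1680) [((nat_lit 1), (nat_lit 1)), ((nat_lit 136), (nat_lit 200)), ((nat_lit 120), (nat_lit 1000)), ((nat_lit 200), (nat_lit 1000)), ((nat_lit 300), (nat_lit 1000)), ((nat_lit 450), (nat_lit 1000)), ((nat_lit 800), (nat_lit 1000))] [(nat_lit 1), (nat_lit 1)] (nat_lit 4) = true)
  (FtP.trans (FtP.trans (FtP.trans (FtP.trans (FtP.trans (FtP.trans (FtP.trans (FtP.trans (FtP.trans (FtP.trans (FtP.trans (FtP.trans (FtP.trans (FtP.trans (FtP.trans (FtP.trans (FtP.trans (FtP.trans (FtP.trans (FtP.trans (FtP.trans (FtP.trans (FtP.trans (FtP.trans (FtP.trans (FtP.trans (FtP.trans (FtP.trans (FtP.trans (FtP.trans (ftC_sound f136_1_0_0) (ftC_sound f136_1_0_1)) (ftC_sound f136_1_0_2)) (ftC_sound f136_1_0_3)) (ftC_sound f136_1_0_4)) (ftC_sound f136_1_0_5))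 (ftC_sound f136_1_0_6)) (ftC_sound f136_1_0_7)) (ftC_sound f136_1_0_8)) (ftC_sound f136_1_0_9)) (ftC_sound f136_1_0_10)) (ftC_sound f136_1_0_11)) (ftC_sound f136_1_0_12)) (ftC_sound f136_1_0_13)) (ftC_sound f136_1_0_14)) (ftC_sound f136_1_0_15)) (ftC_sound f136_1_0_16)) (ftC_sound f136_1_0_17)) (ftC_sound f136_1_0_18)) (ftC_sound f136_1_0_19)) (ftC_sound f136_1_0_20)) (ftC_sound f136_1_0_21)) (ftC_sound f136_1_0_22)) (ftC_sound f136_1_0_23)) (ftC_sound f136_1_0_24)) (ftC_sound f136_1_0_25)) (ftC_sound f136_1_0_26)) (ftC_sound f136_1_0_27)) (ftC_sound f136_1_0_28)) (ftC_sound f136_1_0_29)) (ftC_sound f136_1_0_30)) (by decide +kernel)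

theorem f136_1_400_T : FS ((136 : ℕ) / 200 : ℝ) ((400 : ℕ) / 1000 : ℝ) ((120 : ℕ) / 1000 : ℝ) f136_1_400 (kR [(nat_lit 200), (nat_lit 300), (nat_lit 450), (nat_lit 800)].reverse) 0 0 :=
  ftab_of_E RE.rowE_sound (by decide +kernel : ftOK (nat_lit 136) (nat_lit 400) (nat_lit 120) [(nat_lit 200), (nat_lit 300), (nat_lit 450), (nat_lit 800)] (nat_lit 2080) [((nat_lit 1), (nat_lit 1)), ((nat_lit 136), (nat_lit 200)), ((nat_lit 400), (nat_lit 1000)), ((nat_lit 120), (nat_lit 1000)), ((nat_lit 200), (nat_lit 1000)), ((nat_lit 300), (nat_lit 1000)), ((nat_lit 450), (nat_lit 1000)), ((nat_lit 800), (nat_lit 1000))] [(nat_lit 1), (nat_lit 1), (nat_lit 1)] (nat_lit 4) = true)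
  (FtP.trans (FtP.trans (FtP.trans (FtP.trans (FtP.trans (FtP.trans (FtP.trans (FtP.trans (FtP.trans (FtP.trans (FtP.trans (FtP.trans (FtP.trans (FtP.trans (FtP.trans (FtP.trans (FtP.trans (FtP.trans (FtP.trans (FtP.trans (FtP.trans (FtP.trans (FtP.trans (FtP.trans (FtP.trans (FtP.trans (FtP.trans (FtP.trans (FtP.trans (FtP.trans (ftC_sound f136_1_400_0) (ftC_sound f136_1_400_1)) (ftC_sound f136_1_400_2)) (ftC_sound f136_1_400_3)) (ftC_sound f136_1_400_4)) (ftC_sound f136_1_400_5)) (ftC_sound f136_1_400_6)) (ftC_sound f136_1_400_7)) (ftC_sound f136_1_400_8)) (ftC_sound f136_1_400_9)) (ftC_sound f136_1_400_10)) (ftC_sound f136_1_400_11)) (ftC_sound f136_1_400_12)) (ftC_sound f136_1_400_13)) (ftC_sound f136_1_400_14)) (ftC_sound f136_1_400_15)) (ftC_sound f136_1_400_16)) (ftC_sound f136_1_400_17)) (ftC_sound f136_1_400_18)) (ftC_sound f136_1_400_19)) (ftC_sound f136_1_400_20)) (ftC_sound f136_1_400_21))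 (ftC_sound f136_1_400_22)) (ftC_sound f136_1_400_23)) (ftC_sound f136_1_400_24)) (ftC_sound f136_1_400_25)) (ftC_sound f136_1_400_26)) (ftC_sound f136_1_400_27)) (ftC_sound f136_1_400_28)) (ftC_sound f136_1_400_29)) (ftC_sound f136_1_400_30)) (by decide +kernel)

theorem f136_1_600_T : FS ((136 : ℕ) / 200 : ℝ) ((600 : ℕ) / 1000 : ℝ) ((120 : ℕ) / 1000 : ℝ) f136_1_600 (kR [(nat_lit 200), (nat_lit 300), (nat_lit 450), (nat_lit 800)].reverse) 0 0 :=
  ftab_of_E RE.rowE_sound (by decide +kernel : ftOK (nat_lit 136) (nat_lit 600) (nat_lit 120) [(nat_lit 200), (nat_lit 300), (nat_lit 450), (nat_lit 800)] (nat_lit 2280) [((nat_lit 1), (nat_lit 1)), ((nat_lit 136), (nat_lit 200)), ((nat_lit 600), (nat_lit 1000)), ((nat_lit 120), (nat_lit 1000)), ((nat_lit 200), (nat_lit 1000)), ((nat_lit 300), (nat_lit 1000)), ((nat_lit 450), (nat_lit 1000)), ((nat_lit 800), (nat_lit 1000))] [(nat_lit 1), (nat_lit 1), (nat_lit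 1)] (nat_lit 4) = true)
  (FtP.trans (FtP.trans (FtP.trans (FtP.trans (FtP.trans (FtP.trans (FtP.trans (FtP.trans (FtP.trans (FtP.trans (FtP.trans (FtP.trans (FtP.trans (FtP.trans (FtP.trans (FtP.trans (ftC_sound f136_1_600_0) (ftC_sound f136_1_600_1)) (ftC_sound f136_1_600_2)) (ftC_sound f136_1_600_3)) (ftC_sound f136_1_600_4)) (ftC_sound f136_1_600_5)) (ftC_sound f136_1_600_6)) (ftC_sound f136_1_600_7)) (ftC_sound f136_1_600_8)) (ftC_sound f136_1_600_9)) (ftC_sound f136_1_600_10)) (ftC_sound f136_1_600_11)) (ftC_sound f136_1_600_12)) (ftC_sound f136_1_600_13)) (ftC_sound f136_1_600_14)) (ftC_sound f136_1_600_15)) (ftC_sound f136_1_600_16)) (by decide +kernel)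

theorem f136_1_750_T : FS ((136 : ℕ) / 200 : ℝ) ((750 : ℕ) / 1000 : ℝ) ((120 : ℕ) / 1000 : ℝ) f136_1_750 (kR [(nat_lit 200), (nat_lit 300), (nat_lit 450), (nat_lit 800)].reverse) 0 0 :=
  ftab_of_E RE.rowE_sound (by decide +kernel : ftOK (nat_lit 136) (nat_lit 750) (nat_lit 120) [(nat_lit 200), (nat_lit 300), (nat_lit 450), (nat_lit 800)] (nat_lit 2430) [((nat_lit 1), (nat_lit 1)), ((nat_lit 136), (nat_lit 200)), ((nat_lit 750), (nat_lit 1000)), ((nat_lit 120), (nat_lit 1000)), ((nat_lit 200), (nat_lit 1000)), ((nat_lit 300), (nat_lit 1000)), ((nat_lit 450), (nat_lit 1000)), ((nat_lit 800), (nat_lit 1000))] [(nat_lit 1), (nat_lit 1), (nat_lit 1)] (nat_lit 4) = true)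
  (FtP.trans (FtP.trans (FtP.trans (FtP.trans (FtP.trans (FtP.trans (FtP.trans (FtP.trans (FtP.trans (FtP.trans (FtP.trans (FtP.trans (FtP.trans (FtP.trans (FtP.trans (FtP.trans (FtP.trans (FtP.trans (ftC_sound f136_1_750_0) (ftC_sound f136_1_750_1)) (ftC_sound f136_1_750_2)) (ftC_sound f136_1_750_3)) (ftC_sound f136_1_750_4)) (ftC_sound f136_1_750_5)) (ftC_sound f136_1_750_6)) (ftC_sound f136_1_750_7)) (ftC_sound f136_1_750_8)) (ftC_sound f136_1_750_9)) (ftC_sound f136_1_750_10)) (ftC_sound f136_1_750_11)) (ftC_sound f136_1_750_12)) (ftC_sound f136_1_750_13)) (ftC_sound f136_1_750_14)) (ftC_sound f136_1_750_15)) (ftC_sound f136_1_750_16)) (ftC_sound f136_1_750_17)) (ftC_sound f136_1_750_18)) (by decide +kernel)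

theorem f136_1_922_T : FS ((136 : ℕ) / 200 : ℝ) ((922 : ℕ) / 1000 : ℝ) ((120 : ℕ) / 1000 : ℝ) f136_1_922 (kR [(nat_lit 200), (nat_lit 300), (nat_lit 450), (nat_lit 800)].reverse) 0 0 :=
  ftab_of_E RE.rowE_sound (by decide +kernel : ftOK (nat_lit 136) (nat_lit 922) (nat_lit 120) [(nat_lit 200), (nat_lit 300), (nat_lit 450), (nat_lit 800)] (nat_lit 2602) [((nat_lit 1), (nat_lit 1)), ((nat_lit 136), (nat_lit 200)), ((nat_lit 922), (nat_lit 1000)), ((nat_lit 120), (nat_lit 1000)), ((nat_lit 200), (nat_lit 1000)), ((nat_lit 300), (nat_lit 1000)), ((nat_lit 450), (nat_lit 1000)), ((nat_lit 800), (nat_lit 1000))] [(nat_lit 1), (nat_lit 1), (nat_lit 1)] (nat_lit 4) = true)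
  (FtP.trans (FtP.trans (FtP.trans (FtP.trans (FtP.trans (FtP.trans (FtP.trans (FtP.trans (FtP.trans (FtP.trans (FtP.trans (FtP.trans (FtP.trans (FtP.trans (FtP.trans (FtP.trans (FtP.trans (FtP.trans (ftC_sound f136_1_922_0) (ftC_sound f136_1_922_1)) (ftC_sound f136_1_922_2)) (ftC_sound f136_1_922_3)) (ftC_sound f136_1_922_4)) (ftC_sound f136_1_922_5)) (ftC_sound f136_1_922_6)) (ftC_sound f136_1_922_7)) (ftC_sound f136_1_922_8)) (ftC_sound f136_1_922_9)) (ftC_sound f136_1_922_10)) (ftC_sound f136_1_922_11)) (ftC_sound f136_1_922_12)) (ftC_sound f136_1_922_13)) (ftC_sound f136_1_922_14)) (ftC_sound f136_1_922_15)) (ftC_sound f136_1_922_16)) (ftC_sound f136_1_922_17)) (ftC_sound f136_1_922_18)) (by decide +kernel)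

theorem f136_1_943_T : FS ((136 : ℕ) / 200 : ℝ) ((943 : ℕ) / 1000 : ℝ) ((120 : ℕ) / 1000 : ℝ) f136_1_943 (kR [(nat_lit 200), (nat_lit 300), (nat_lit 450), (nat_lit 800)].reverse) 0 0 :=
  ftab_of_E RE.rowE_sound (by decide +kernel : ftOK (nat_lit 136) (nat_lit 943) (nat_lit 120) [(nat_lit 200), (nat_lit 300), (nat_lit 450), (nat_lit 800)] (nat_lit 2623) [((nat_lit 1), (nat_lit 1)), ((nat_lit 136), (nat_lit 200)), ((nat_lit 943), (nat_lit 1000)), ((nat_lit 120), (nat_lit 1000)), ((nat_lit 200), (nat_lit 1000)), ((nat_lit 300), (nat_lit 1000)), ((nat_lit 450), (nat_lit 1000)), ((nat_lit 800), (nat_lit 1000))] [(nat_lit 1), (nat_lit 1), (nat_lit 1)] (nat_lit 4) = true)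
  (FtP.trans (FtP.trans (FtP.trans (FtP.trans (FtP.trans (FtP.trans (FtP.trans (FtP.trans (FtP.trans (FtP.trans (FtP.trans (FtP.trans (ftC_sound f136_1_943_0) (ftC_sound f136_1_943_1)) (ftC_sound f136_1_943_2)) (ftC_sound f136_1_943_3)) (ftC_sound f136_1_943_4)) (ftC_sound f136_1_943_5)) (ftC_sound f136_1_943_6)) (ftC_sound f136_1_943_7)) (ftC_sound f136_1_943_8)) (ftC_sound f136_1_943_9)) (ftC_sound f136_1_943_10)) (ftC_sound f136_1_943_11)) (ftC_sound f136_1_943_12)) (by decide +kernel)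

theorem f144_1_0_T : FS ((144 : ℕ) / 200 : ℝ) ((0 : ℕ) / 1000 : ℝ) ((120 : ℕ) / 1000 : ℝ) f144_1_0 (kR [(nat_lit 200), (nat_lit 300), (nat_lit 450), (nat_lit 800)].reverse) 0 0 :=
  ftab_of_E RE.rowE_sound (by decide +kernel : ftOK (nat_lit 144) (nat_lit 0) (nat_lit 120) [(nat_lit 200), (nat_lit 300), (nat_lit 450), (nat_lit 800)] (nat_lit 1720) [((nat_lit 1), (nat_lit 1)), ((nat_lit 144), (nat_lit 200)), ((nat_lit 120), (nat_lit 1000)), ((nat_lit 200), (nat_lit 1000)), ((nat_lit 300), (nat_lit 1000)), ((nat_lit 450), (nat_lit 1000)), ((nat_lit 800), (nat_lit 1000))] [(nat_lit 1), (nat_lit 1)] (nat_lit 4) = true)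
  (FtP.trans (FtP.trans (FtP.trans (FtP.trans (FtP.trans (FtP.trans (FtP.trans (FtP.trans (FtP.trans (FtP.trans (FtP.trans (FtP.trans (FtP.trans (FtP.trans (FtP.trans (FtP.trans (FtP.trans (FtP.trans (FtP.trans (FtP.trans (FtP.trans (FtP.trans (FtP.trans (FtP.trans (FtP.trans (FtP.trans (FtP.trans (FtP.trans (FtP.trans (FtP.trans (FtP.trans (FtP.trans (FtP.trans (FtP.trans (FtP.trans (FtP.trans (FtP.trans (FtP.trans (FtP.trans (FtP.trans (FtP.trans (FtP.trans (ftC_sound f144_1_0_0) (ftC_sound f144_1_0_1)) (ftC_sound f144_1_0_2)) (ftC_sound f144_1_0_3)) (ftC_sound f144_1_0_4)) (ftC_sound f144_1_0_5)) (ftC_sound f144_1_0_6)) (ftC_sound f144_1_0_7)) (ftC_sound f144_1_0_8)) (ftC_sound f144_1_0_9)) (ftC_sound f144_1_0_10)) (ftC_sound f144_1_0_11)) (ftC_sound f144_1_0_12)) (ftC_sound f144_1_0_13)) (ftC_sound f144_1_0_14)) (ftC_sound f144_1_0_15)) (ftC_sound f144_1_0_16)) (ftC_sound f144_1_0_17)) (ftC_sound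 f144_1_0_18)) (ftC_sound f144_1_0_19)) (ftC_sound f144_1_0_20)) (ftC_sound f144_1_0_21)) (ftC_sound f144_1_0_22)) (ftC_sound f144_1_0_23)) (ftC_sound f144_1_0_24)) (ftC_sound f144_1_0_25)) (ftC_sound f144_1_0_26)) (ftC_sound f144_1_0_27)) (ftC_sound f144_1_0_28)) (ftC_sound
 f144_1_0_29)) (ftC_sound f144_1_0_30)) (ftC_sound f144_1_0_31)) (ftC_sound f144_1_0_32)) (ftC_sound f144_1_0_33)) (ftC_sound f144_1_0_34)) (ftC_sound f144_1_0_35)) (ftC_sound f144_1_0_36)) (ftC_sound f144_1_0_37)) (ftC_sound f144_1_0_38)) (ftC_sound f144_1_0_39)) (ftC_sound f144_1_0_40)) (ftC_sound f144_1_0_41)) (ftC_sound f144_1_0_42)) (by decide +kernel)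

theorem f144_1_400_T : FS ((144 : ℕ) / 200 : ℝ) ((400 : ℕ) / 1000 : ℝ) ((120 : ℕ) / 1000 : ℝ) f144_1_400 (kR [(nat_lit 200), (nat_lit 300), (nat_lit 450), (nat_lit 800)].reverse) 0 0 :=
  ftab_of_E RE.rowE_sound (by decide +kernel : ftOK (nat_lit 144) (nat_lit 400) (nat_lit 120) [(nat_lit 200), (nat_lit 300), (nat_lit 450), (nat_lit 800)] (nat_lit 2120) [((nat_lit 1), (nat_lit 1)), ((nat_lit 144), (nat_lit 200)), ((nat_lit 400), (nat_lit 1000)), ((nat_lit 120), (nat_lit 1000)), ((nat_lit 200), (nat_lit 1000)), ((nat_lit 300), (nat_lit 1000)), ((nat_lit 450), (nat_lit 1000)), ((nat_lit 800), (nat_lit 1000))] [(nat_lit 1), (nat_lit 1), (nat_lit 1)] (nat_lit 4) = true)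
  (FtP.trans (FtP.trans (FtP.trans (FtP.trans (FtP.trans (FtP.trans (FtP.trans (FtP.trans (FtP.trans (FtP.trans (FtP.trans (FtP.trans (FtP.trans (FtP.trans (FtP.trans (FtP.trans (FtP.trans (FtP.trans (FtP.trans (FtP.trans (FtP.trans (FtP.trans (FtP.trans (FtP.trans (FtP.trans (FtP.trans (FtP.trans (FtP.trans (FtP.trans (FtP.trans (FtP.trans (FtP.trans (FtP.trans (FtP.trans (FtP.trans (FtP.trans (FtP.trans (FtP.trans (FtP.trans (FtP.trans (FtP.trans (FtP.trans (ftC_sound f144_1_400_0) (ftC_sound f144_1_400_1)) (ftC_sound f144_1_400_2)) (ftC_sound f144_1_400_3)) (ftC_sound f144_1_400_4)) (ftC_sound f144_1_400_5)) (ftC_sound f144_1_400_6)) (ftC_sound f144_1_400_7)) (ftC_sound f144_1_400_8)) (ftC_sound f144_1_400_9)) (ftC_sound f144_1_400_10)) (ftC_sound f144_1_400_11)) (ftC_sound f144_1_400_12)) (ftC_sound f144_1_400_13)) (ftC_sound f144_1_400_14)) (ftC_sound f144_1_400_15)) (ftC_sound f144_1_400_16)) (ftC_sound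 f144_1_400_17)) (ftC_sound f144_1_400_18)) (ftC_sound f144_1_400_19)) (ftC_sound f144_1_400_20)) (ftC_sound f144_1_400_21)) (ftC_sound f144_1_400_22)) (ftC_sound f144_1_400_23)) (ftC_sound f144_1_400_24)) (ftC_sound f144_1_400_25)) (ftC_sound f144_1_400_26)) (ftC_sound
 f144_1_400_27)) (ftC_sound f144_1_400_28)) (ftC_sound f144_1_400_29)) (ftC_sound f144_1_400_30)) (ftC_sound f144_1_400_31)) (ftC_sound f144_1_400_32)) (ftC_sound f144_1_400_33)) (ftC_sound f144_1_400_34)) (ftC_sound f144_1_400_35)) (ftC_sound f144_1_400_36)) (ftC_sound f144_1_400_37)) (ftC_sound f144_1_400_38)) (ftC_sound f144_1_400_39)) (ftC_sound f144_1_400_40)) (ftC_sound f144_1_400_41)) (ftC_sound f144_1_400_42)) (by decide +kernel)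

theorem f144_1_600_T : FS ((144 : ℕ) / 200 : ℝ) ((600 : ℕ) / 1000 : ℝ) ((120 : ℕ) / 1000 : ℝ) f144_1_600 (kR [(nat_lit 200), (nat_lit 300), (nat_lit 450), (nat_lit 800)].reverse) 0 0 :=
  ftab_of_E RE.rowE_sound (by decide +kernel : ftOK (nat_lit 144) (nat_lit 600) (nat_lit 120) [(nat_lit 200), (nat_lit 300), (nat_lit 450), (nat_lit 800)] (nat_lit 2320) [((nat_lit 1), (nat_lit 1)), ((nat_lit 144), (nat_lit 200)), ((nat_lit 600), (nat_lit 1000)), ((nat_lit 120), (nat_lit 1000)), ((nat_lit 200), (nat_lit 1000)), ((nat_lit 300), (nat_lit 1000)), ((nat_lit 450), (nat_lit 1000)), ((nat_lit 800), (nat_lit 1000))] [(nat_lit 1), (nat_lit 1), (nat_lit 1)] (nat_lit 4) = true)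
  (FtP.trans (FtP.trans (FtP.trans (FtP.trans (FtP.trans (FtP.trans (FtP.trans (FtP.trans (FtP.trans (FtP.trans (FtP.trans (FtP.trans (FtP.trans (FtP.trans (FtP.trans (FtP.trans (FtP.trans (FtP.trans (FtP.trans (FtP.trans (FtP.trans (FtP.trans (FtP.trans (ftC_sound f144_1_600_0) (ftC_sound f144_1_600_1)) (ftC_sound f144_1_600_2)) (ftC_sound f144_1_600_3)) (ftC_sound f144_1_600_4)) (ftC_sound f144_1_600_5)) (ftC_sound f144_1_600_6)) (ftC_sound f144_1_600_7)) (ftC_sound f144_1_600_8)) (ftC_sound f144_1_600_9)) (ftC_sound f144_1_600_10)) (ftC_sound f144_1_600_11)) (ftC_sound f144_1_600_12)) (ftC_sound f144_1_600_13)) (ftC_sound f144_1_600_14)) (ftC_sound f144_1_600_15)) (ftC_sound f144_1_600_16)) (ftC_sound f144_1_600_17)) (ftC_sound f144_1_600_18)) (ftC_sound f144_1_600_19)) (ftC_sound f144_1_600_20)) (ftC_sound f144_1_600_21)) (ftC_sound f144_1_600_22)) (ftC_sound f144_1_600_23)) (by decide +kernel)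

theorem f144_1_750_T : FS ((144 : ℕ) / 200 : ℝ) ((750 : ℕ) / 1000 : ℝ) ((120 : ℕ) / 1000 : ℝ) f144_1_750 (kR [(nat_lit 200), (nat_lit 300), (nat_lit 450), (nat_lit 800)].reverse) 0 0 :=
  ftab_of_E RE.rowE_sound (by decide +kernel : ftOK (nat_lit 144) (nat_lit 750) (nat_lit 120) [(nat_lit 200), (nat_lit 300), (nat_lit 450), (nat_lit 800)] (nat_lit 2470) [((nat_lit 1), (nat_lit 1)), ((nat_lit 144), (nat_lit 200)), ((nat_lit 750), (nat_lit 1000)), ((nat_lit 120), (nat_lit 1000)), ((nat_lit 200), (nat_lit 1000)), ((nat_lit 300), (nat_lit 1000)), ((nat_lit 450), (nat_lit 1000)), ((nat_lit 800), (nat_lit 1000))] [(nat_lit 1), (nat_lit 1), (nat_lit 1)] (nat_lit 4) = true)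
  (FtP.trans (FtP.trans (FtP.trans (FtP.trans (FtP.trans (FtP.trans (FtP.trans (FtP.trans (FtP.trans (FtP.trans (FtP.trans (FtP.trans (FtP.trans (FtP.trans (FtP.trans (FtP.trans (FtP.trans (FtP.trans (FtP.trans (FtP.trans (FtP.trans (FtP.trans (FtP.trans (FtP.trans (FtP.trans (FtP.trans (ftC_sound f144_1_750_0) (ftC_sound f144_1_750_1)) (ftC_sound f144_1_750_2)) (ftC_sound f144_1_750_3)) (ftC_sound f144_1_750_4)) (ftC_sound f144_1_750_5)) (ftC_sound f144_1_750_6)) (ftC_sound f144_1_750_7)) (ftC_sound f144_1_750_8)) (ftC_sound f144_1_750_9)) (ftC_sound f144_1_750_10)) (ftC_sound f144_1_750_11)) (ftC_sound f144_1_750_12)) (ftC_sound f144_1_750_13)) (ftC_sound f144_1_750_14)) (ftC_sound f144_1_750_15)) (ftC_sound f144_1_750_16)) (ftC_sound f144_1_750_17)) (ftC_sound f144_1_750_18)) (ftC_sound f144_1_750_19)) (ftC_sound f144_1_750_20)) (ftC_sound f144_1_750_21)) (ftC_sound f144_1_750_22)) (ftC_sound f144_1_750_23))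 (ftC_sound f144_1_750_24)) (ftC_sound f144_1_750_25)) (ftC_sound f144_1_750_26)) (by decide +kernel)

theorem f144_1_896_T : FS ((144 : ℕ) / 200 : ℝ) ((896 : ℕ) / 1000 : ℝ) ((120 : ℕ) / 1000 : ℝ) f144_1_896 (kR [(nat_lit 200), (nat_lit 300), (nat_lit 450), (nat_lit 800)].reverse) 0 0 :=
  ftab_of_E RE.rowE_sound (by decide +kernel : ftOK (nat_lit 144) (nat_lit 896) (nat_lit 120) [(nat_lit 200), (nat_lit 300), (nat_lit 450), (nat_lit 800)] (nat_lit 2616) [((nat_lit 1), (nat_lit 1)), ((nat_lit 144), (nat_lit 200)), ((nat_lit 896), (nat_lit 1000)), ((nat_lit 120), (nat_lit 1000)), ((nat_lit 200), (nat_lit 1000)), ((nat_lit 300), (nat_lit 1000)), ((nat_lit 450), (nat_lit 1000)), ((nat_lit 800), (nat_lit 1000))] [(nat_lit 1), (nat_lit 1), (nat_lit 1)] (nat_lit 4) = true)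
  (FtP.trans (FtP.trans (FtP.trans (FtP.trans (FtP.trans (FtP.trans (FtP.trans (FtP.trans (FtP.trans (FtP.trans (FtP.trans (FtP.trans (FtP.trans (FtP.trans (FtP.trans (FtP.trans (FtP.trans (FtP.trans (FtP.trans (FtP.trans (FtP.trans (FtP.trans (FtP.trans (FtP.trans (FtP.trans (FtP.trans (ftC_sound f144_1_896_0) (ftC_sound f144_1_896_1)) (ftC_sound f144_1_896_2)) (ftC_sound f144_1_896_3)) (ftC_sound f144_1_896_4)) (ftC_sound f144_1_896_5)) (ftC_sound f144_1_896_6)) (ftC_sound f144_1_896_7)) (ftC_sound f144_1_896_8)) (ftC_sound f144_1_896_9)) (ftC_sound f144_1_896_10)) (ftC_sound f144_1_896_11)) (ftC_sound f144_1_896_12)) (ftC_sound f144_1_896_13)) (ftC_sound f144_1_896_14)) (ftC_sound f144_1_896_15)) (ftC_sound f144_1_896_16)) (ftC_sound f144_1_896_17)) (ftC_sound f144_1_896_18)) (ftC_sound f144_1_896_19)) (ftC_sound f144_1_896_20)) (ftC_sound f144_1_896_21)) (ftC_sound f144_1_896_22)) (ftC_sound f144_1_896_23))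 (ftC_sound f144_1_896_24)) (ftC_sound f144_1_896_25)) (ftC_sound f144_1_896_26)) (by decide +kernel)

theorem f144_1_922_T : FS ((144 : ℕ) / 200 : ℝ) ((922 : ℕ) / 1000 : ℝ) ((120 : ℕ) / 1000 : ℝ) f144_1_922 (kR [(nat_lit 200), (nat_lit 300), (nat_lit 450), (nat_lit 800)].reverse) 0 0 :=
  ftab_of_E RE.rowE_sound (by decide +kernel : ftOK (nat_lit 144) (nat_lit 922) (nat_lit 120) [(nat_lit 200), (nat_lit 300), (nat_lit 450), (nat_lit 800)] (nat_lit 2642) [((nat_lit 1), (nat_lit 1)), ((nat_lit 144), (nat_lit 200)), ((nat_lit 922), (nat_lit 1000)), ((nat_lit 120), (nat_lit 1000)), ((nat_lit 200), (nat_lit 1000)), ((nat_lit 300), (nat_lit 1000)), ((nat_lit 450), (nat_lit 1000)), ((nat_lit 800), (nat_lit 1000))] [(nat_lit 1), (nat_lit 1), (nat_lit 1)] (nat_lit 4) = true)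
  (FtP.trans (FtP.trans (FtP.trans (FtP.trans (FtP.trans (FtP.trans (FtP.trans (FtP.trans (FtP.trans (FtP.trans (FtP.trans (FtP.trans (FtP.trans (FtP.trans (FtP.trans (FtP.trans (FtP.trans (FtP.trans (ftC_sound f144_1_922_0) (ftC_sound f144_1_922_1)) (ftC_sound f144_1_922_2)) (ftC_sound f144_1_922_3)) (ftC_sound f144_1_922_4)) (ftC_sound f144_1_922_5)) (ftC_sound f144_1_922_6)) (ftC_sound f144_1_922_7)) (ftC_sound f144_1_922_8)) (ftC_sound f144_1_922_9)) (ftC_sound f144_1_922_10)) (ftC_sound f144_1_922_11)) (ftC_sound f144_1_922_12)) (ftC_sound f144_1_922_13)) (ftC_sound f144_1_922_14)) (ftC_sound f144_1_922_15)) (ftC_sound f144_1_922_16)) (ftC_sound f144_1_922_17)) (ftC_sound f144_1_922_18)) (by decide +kernel)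

theorem f152_1_0_T : FS ((152 : ℕ) / 200 : ℝ) ((0 : ℕ) / 1000 : ℝ) ((120 : ℕ) / 1000 : ℝ) f152_1_0 (kR [(nat_lit 200), (nat_lit 300), (nat_lit 450), (nat_lit 800)].reverse) 0 0 :=
  ftab_of_E RE.rowE_sound (by decide +kernel : ftOK (nat_lit 152) (nat_lit 0) (nat_lit 120) [(nat_lit 200), (nat_lit 300), (nat_lit 450), (nat_lit 800)] (nat_lit 1760) [((nat_lit 1), (nat_lit 1)), ((nat_lit 152), (nat_lit 200)), ((nat_lit 120), (nat_lit 1000)), ((nat_lit 200), (nat_lit 1000)), ((nat_lit 300), (nat_lit 1000)), ((nat_lit 450), (nat_lit 1000)), ((nat_lit 800), (nat_lit 1000))] [(nat_lit 1), (nat_lit 1)] (nat_lit 4) = true)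
  (FtP.trans (FtP.trans (FtP.trans (FtP.trans (FtP.trans (FtP.trans (FtP.trans (FtP.trans (FtP.trans (FtP.trans (FtP.trans (FtP.trans (FtP.trans (FtP.trans (FtP.trans (FtP.trans (FtP.trans (FtP.trans (FtP.trans (FtP.trans (FtP.trans (FtP.trans (FtP.trans (FtP.trans (FtP.trans (FtP.trans (FtP.trans (FtP.trans (FtP.trans (FtP.trans (FtP.trans (FtP.trans (FtP.trans (FtP.trans (FtP.trans (FtP.trans (FtP.trans (FtP.trans (FtP.trans (FtP.trans (FtP.trans (FtP.trans (FtP.trans (FtP.trans (FtP.trans (FtP.trans (FtP.trans (FtP.trans (FtP.trans (FtP.trans (FtP.trans (FtP.trans (FtP.trans (FtP.trans (FtP.trans (FtP.trans (FtP.trans (FtP.trans (FtP.trans (FtP.trans (FtP.trans (FtP.trans (ftC_sound f152_1_0_0) (ftC_sound f152_1_0_1)) (ftC_sound f152_1_0_2)) (ftC_sound f152_1_0_3)) (ftC_sound f152_1_0_4)) (ftC_sound f152_1_0_5)) (ftC_sound f152_1_0_6)) (ftC_sound f152_1_0_7)) (ftC_sound f152_1_0_8)) (ftC_sound f152_1_0_9))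 (ftC_sound f152_1_0_10)) (ftC_sound f152_1_0_11)) (ftC_sound f152_1_0_12)) (ftC_sound f152_1_0_13)) (ftC_sound f152_1_0_14)) (ftC_sound f152_1_0_15)) (ftC_sound f152_1_0_16)) (ftC_sound f152_1_0_17)) (ftC_sound f152_1_0_18)) (ftC_sound f152_1_0_19)) (ftC_sound f152_1_0_20))
 (ftC_sound f152_1_0_21)) (ftC_sound f152_1_0_22)) (ftC_sound f152_1_0_23)) (ftC_sound f152_1_0_24)) (ftC_sound f152_1_0_25)) (ftC_sound f152_1_0_26)) (ftC_sound f152_1_0_27)) (ftC_sound f152_1_0_28)) (ftC_sound f152_1_0_29)) (ftC_sound f152_1_0_30)) (ftC_sound f152_1_0_31)) (ftC_sound f152_1_0_32)) (ftC_sound f152_1_0_33)) (ftC_sound f152_1_0_34)) (ftC_sound f152_1_0_35)) (ftC_sound f152_1_0_36)) (ftC_sound f152_1_0_37)) (ftC_sound f152_1_0_38)) (ftC_sound f152_1_0_39)) (ftC_sound f152_1_0_40)) (ftC_sound f152_1_0_41)) (ftC_sound f152_1_0_42)) (ftC_sound f152_1_0_43)) (ftC_sound f152_1_0_44)) (ftC_sound f152_1_0_45)) (ftC_sound f152_1_0_46))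 (ftC_sound f152_1_0_47)) (ftC_sound f152_1_0_48)) (ftC_sound f152_1_0_49)) (ftC_sound f152_1_0_50)) (ftC_sound f152_1_0_51)) (ftC_sound f152_1_0_52)) (ftC_sound f152_1_0_53)) (ftC_sound f152_1_0_54)) (ftC_sound f152_1_0_55)) (ftC_sound f152_1_0_56)) (ftC_sound f152_1_0_57)) (ftC_sound f152_1_0_58)) (ftC_sound f152_1_0_59)) (ftC_sound f152_1_0_60)) (ftC_sound f152_1_0_61)) (ftC_sound f152_1_0_62)) (by decide +kernel)

theorem f152_1_400_T : FS ((152 : ℕ) / 200 : ℝ) ((400 : ℕ) / 1000 : ℝ) ((120 : ℕ) / 1000 : ℝ) f152_1_400 (kR [(nat_lit 200), (nat_lit 300), (nat_lit 450), (nat_lit 800)].reverse) 0 0 :=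
  ftab_of_E RE.rowE_sound (by decide +kernel : ftOK (nat_lit 152) (nat_lit 400) (nat_lit 120) [(nat_lit 200), (nat_lit 300), (nat_lit 450), (nat_lit 800)] (nat_lit 2160) [((nat_lit 1), (nat_lit 1)), ((nat_lit 152), (nat_lit 200)), ((nat_lit 400), (nat_lit 1000)), ((nat_lit 120), (nat_lit 1000)), ((nat_lit 200), (nat_lit 1000)), ((nat_lit 300), (nat_lit 1000)), ((nat_lit 450), (nat_lit 1000)), ((nat_lit 800), (nat_lit 1000))] [(nat_lit 1), (nat_lit 1), (nat_lit 1)] (nat_lit 4) = true)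
  (FtP.trans (FtP.trans (FtP.trans (FtP.trans (FtP.trans (FtP.trans (FtP.trans (FtP.trans (FtP.trans (FtP.trans (FtP.trans (FtP.trans (FtP.trans (FtP.trans (FtP.trans (FtP.trans (FtP.trans (FtP.trans (FtP.trans (FtP.trans (FtP.trans (FtP.trans (FtP.trans (FtP.trans (FtP.trans (FtP.trans (FtP.trans (FtP.trans (FtP.trans (FtP.trans (FtP.trans (FtP.trans (FtP.trans (FtP.trans (FtP.trans (FtP.trans (FtP.trans (FtP.trans (FtP.trans (FtP.trans (FtP.trans (FtP.trans (FtP.trans (FtP.trans (FtP.trans (FtP.trans (FtP.trans (FtP.trans (FtP.trans (FtP.trans (FtP.trans (FtP.trans (FtP.trans (FtP.trans (FtP.trans (FtP.trans (FtP.trans (FtP.trans (FtP.trans (FtP.trans (FtP.trans (FtP.trans (ftC_sound f152_1_400_0) (ftC_sound f152_1_400_1)) (ftC_sound f152_1_400_2)) (ftC_sound f152_1_400_3)) (ftC_sound f152_1_400_4)) (ftC_sound f152_1_400_5)) (ftC_sound f152_1_400_6)) (ftC_sound f152_1_400_7)) (ftC_sound f152_1_400_8))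 (ftC_sound f152_1_400_9)) (ftC_sound f152_1_400_10)) (ftC_sound f152_1_400_11)) (ftC_sound f152_1_400_12)) (ftC_sound f152_1_400_13)) (ftC_sound f152_1_400_14)) (ftC_sound f152_1_400_15)) (ftC_sound f152_1_400_16)) (ftC_sound f152_1_400_17)) (ftC_sound f152_1_400_18)) (ftC_sound
 f152_1_400_19)) (ftC_sound f152_1_400_20)) (ftC_sound f152_1_400_21)) (ftC_sound f152_1_400_22)) (ftC_sound f152_1_400_23)) (ftC_sound f152_1_400_24)) (ftC_sound f152_1_400_25)) (ftC_sound f152_1_400_26)) (ftC_sound f152_1_400_27)) (ftC_sound f152_1_400_28)) (ftC_sound f152_1_400_29)) (ftC_sound f152_1_400_30)) (ftC_sound f152_1_400_31)) (ftC_sound f152_1_400_32)) (ftC_sound f152_1_400_33)) (ftC_sound f152_1_400_34)) (ftC_sound f152_1_400_35)) (ftC_sound f152_1_400_36)) (ftC_sound f152_1_400_37)) (ftC_sound f152_1_400_38)) (ftC_sound f152_1_400_39)) (ftC_sound f152_1_400_40)) (ftC_sound f152_1_400_41)) (ftC_sound f152_1_400_42))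 (ftC_sound f152_1_400_43)) (ftC_sound f152_1_400_44)) (ftC_sound f152_1_400_45)) (ftC_sound f152_1_400_46)) (ftC_sound f152_1_400_47)) (ftC_sound f152_1_400_48)) (ftC_sound f152_1_400_49)) (ftC_sound f152_1_400_50)) (ftC_sound f152_1_400_51)) (ftC_sound f152_1_400_52)) (ftC_sound f152_1_400_53)) (ftC_sound f152_1_400_54)) (ftC_sound f152_1_400_55)) (ftC_sound f152_1_400_56)) (ftC_sound f152_1_400_57)) (ftC_sound f152_1_400_58)) (ftC_sound f152_1_400_59)) (ftC_sound f152_1_400_60)) (ftC_sound f152_1_400_61)) (ftC_sound f152_1_400_62)) (by decide +kernel)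

theorem f152_1_600_T : FS ((152 : ℕ) / 200 : ℝ) ((600 : ℕ) / 1000 : ℝ) ((120 : ℕ) / 1000 : ℝ) f152_1_600 (kR [(nat_lit 200), (nat_lit 300), (nat_lit 450), (nat_lit 800)].reverse) 0 0 :=
  ftab_of_E RE.rowE_sound (by decide +kernel : ftOK (nat_lit 152) (nat_lit 600) (nat_lit 120) [(nat_lit 200), (nat_lit 300), (nat_lit 450), (nat_lit 800)] (nat_lit 2360) [((nat_lit 1), (nat_lit 1)), ((nat_lit 152), (nat_lit 200)), ((nat_lit 600), (nat_lit 1000)), ((nat_lit 120), (nat_lit 1000)), ((nat_lit 200), (nat_lit 1000)), ((nat_lit 300), (nat_lit 1000)), ((nat_lit 450), (nat_lit 1000)), ((nat_lit 800), (nat_lit 1000))] [(nat_lit 1), (nat_lit 1), (nat_lit 1)] (nat_lit 4) = true)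
  (FtP.trans (FtP.trans (FtP.trans (FtP.trans (FtP.trans (FtP.trans (FtP.trans (FtP.trans (FtP.trans (FtP.trans (FtP.trans (FtP.trans (FtP.trans (FtP.trans (FtP.trans (FtP.trans (FtP.trans (FtP.trans (FtP.trans (FtP.trans (FtP.trans (FtP.trans (FtP.trans (FtP.trans (FtP.trans (FtP.trans (FtP.trans (FtP.trans (FtP.trans (FtP.trans (FtP.trans (FtP.trans (ftC_sound f152_1_600_0) (ftC_sound f152_1_600_1)) (ftC_sound f152_1_600_2)) (ftC_sound f152_1_600_3)) (ftC_sound f152_1_600_4)) (ftC_sound f152_1_600_5)) (ftC_sound f152_1_600_6)) (ftC_sound f152_1_600_7)) (ftC_sound f152_1_600_8)) (ftC_sound f152_1_600_9)) (ftC_sound f152_1_600_10)) (ftC_sound f152_1_600_11)) (ftC_sound f152_1_600_12)) (ftC_sound f152_1_600_13)) (ftC_sound f152_1_600_14)) (ftC_sound f152_1_600_15)) (ftC_sound f152_1_600_16)) (ftC_sound f152_1_600_17)) (ftC_sound f152_1_600_18)) (ftC_sound f152_1_600_19)) (ftC_sound f152_1_600_20)) (ftC_sound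 f152_1_600_21)) (ftC_sound f152_1_600_22)) (ftC_sound f152_1_600_23)) (ftC_sound f152_1_600_24)) (ftC_sound f152_1_600_25)) (ftC_sound f152_1_600_26)) (ftC_sound f152_1_600_27)) (ftC_sound f152_1_600_28)) (ftC_sound f152_1_600_29)) (ftC_sound f152_1_600_30)) (ftC_sound
 f152_1_600_31)) (ftC_sound f152_1_600_32)) (by decide +kernel)

theorem f152_1_750_T : FS ((152 : ℕ) / 200 : ℝ) ((750 : ℕ) / 1000 : ℝ) ((120 : ℕ) / 1000 : ℝ) f152_1_750 (kR [(nat_lit 200), (nat_lit 300), (nat_lit 450), (nat_lit 800)].reverse) 0 0 :=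
  ftab_of_E RE.rowE_sound (by decide +kernel : ftOK (nat_lit 152) (nat_lit 750) (nat_lit 120) [(nat_lit 200), (nat_lit 300), (nat_lit 450), (nat_lit 800)] (nat_lit 2510) [((nat_lit 1), (nat_lit 1)), ((nat_lit 152), (nat_lit 200)), ((nat_lit 750), (nat_lit 1000)), ((nat_lit 120), (nat_lit 1000)), ((nat_lit 200), (nat_lit 1000)), ((nat_lit 300), (nat_lit 1000)), ((nat_lit 450), (nat_lit 1000)), ((nat_lit 800), (nat_lit 1000))] [(nat_lit 1), (nat_lit 1), (nat_lit 1)] (nat_lit 4) = true)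
  (FtP.trans (FtP.trans (FtP.trans (FtP.trans (FtP.trans (FtP.trans (FtP.trans (FtP.trans (FtP.trans (FtP.trans (FtP.trans (FtP.trans (FtP.trans (FtP.trans (FtP.trans (FtP.trans (FtP.trans (FtP.trans (FtP.trans (FtP.trans (FtP.trans (FtP.trans (FtP.trans (FtP.trans (FtP.trans (FtP.trans (FtP.trans (FtP.trans (FtP.trans (FtP.trans (FtP.trans (FtP.trans (FtP.trans (FtP.trans (FtP.trans (FtP.trans (FtP.trans (ftC_sound f152_1_750_0) (ftC_sound f152_1_750_1)) (ftC_sound f152_1_750_2)) (ftC_sound f152_1_750_3)) (ftC_sound f152_1_750_4)) (ftC_sound f152_1_750_5)) (ftC_sound f152_1_750_6)) (ftC_sound f152_1_750_7)) (ftC_sound f152_1_750_8)) (ftC_sound f152_1_750_9)) (ftC_sound f152_1_750_10)) (ftC_sound f152_1_750_11)) (ftC_sound f152_1_750_12)) (ftC_sound f152_1_750_13)) (ftC_sound f152_1_750_14)) (ftC_sound f152_1_750_15)) (ftC_sound f152_1_750_16)) (ftC_sound f152_1_750_17)) (ftC_sound f152_1_750_18)) (ftC_sound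 f152_1_750_19)) (ftC_sound f152_1_750_20)) (ftC_sound f152_1_750_21)) (ftC_sound f152_1_750_22)) (ftC_sound f152_1_750_23)) (ftC_sound f152_1_750_24)) (ftC_sound f152_1_750_25)) (ftC_sound f152_1_750_26)) (ftC_sound f152_1_750_27)) (ftC_sound f152_1_750_28)) (ftC_sound
 f152_1_750_29)) (ftC_sound f152_1_750_30)) (ftC_sound f152_1_750_31)) (ftC_sound f152_1_750_32)) (ftC_sound f152_1_750_33)) (ftC_sound f152_1_750_34)) (ftC_sound f152_1_750_35)) (ftC_sound f152_1_750_36)) (ftC_sound f152_1_750_37)) (by decide +kernel)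

theorem f152_1_849_T : FS ((152 : ℕ) / 200 : ℝ) ((849 : ℕ) / 1000 : ℝ) ((120 : ℕ) / 1000 : ℝ) f152_1_849 (kR [(nat_lit 200), (nat_lit 300), (nat_lit 450), (nat_lit 800)].reverse) 0 0 :=
  ftab_of_E RE.rowE_sound (by decide +kernel : ftOK (nat_lit 152) (nat_lit 849) (nat_lit 120) [(nat_lit 200), (nat_lit 300), (nat_lit 450), (nat_lit 800)] (nat_lit 2609) [((nat_lit 1), (nat_lit 1)), ((nat_lit 152), (nat_lit 200)), ((nat_lit 849), (nat_lit 1000)), ((nat_lit 120), (nat_lit 1000)), ((nat_lit 200), (nat_lit 1000)), ((nat_lit 300), (nat_lit 1000)), ((nat_lit 450), (nat_lit 1000)), ((nat_lit 800), (nat_lit 1000))] [(nat_lit 1), (nat_lit 1), (nat_lit 1)] (nat_lit 4) = true)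
  (FtP.trans (FtP.trans (FtP.trans (FtP.trans (FtP.trans (FtP.trans (FtP.trans (FtP.trans (FtP.trans (FtP.trans (FtP.trans (FtP.trans (FtP.trans (FtP.trans (FtP.trans (FtP.trans (FtP.trans (FtP.trans (FtP.trans (FtP.trans (FtP.trans (FtP.trans (FtP.trans (FtP.trans (FtP.trans (FtP.trans (ftC_sound f152_1_849_0) (ftC_sound f152_1_849_1)) (ftC_sound f152_1_849_2)) (ftC_sound f152_1_849_3)) (ftC_sound f152_1_849_4)) (ftC_sound f152_1_849_5)) (ftC_sound f152_1_849_6)) (ftC_sound f152_1_849_7)) (ftC_sound f152_1_849_8)) (ftC_sound f152_1_849_9)) (ftC_sound f152_1_849_10)) (ftC_sound f152_1_849_11)) (ftC_sound f152_1_849_12)) (ftC_sound f152_1_849_13)) (ftC_sound f152_1_849_14)) (ftC_sound f152_1_849_15)) (ftC_sound f152_1_849_16)) (ftC_sound f152_1_849_17)) (ftC_sound f152_1_849_18)) (ftC_sound f152_1_849_19)) (ftC_sound f152_1_849_20)) (ftC_sound f152_1_849_21)) (ftC_sound f152_1_849_22)) (ftC_sound f152_1_849_23))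 (ftC_sound f152_1_849_24)) (ftC_sound f152_1_849_25)) (ftC_sound f152_1_849_26)) (by decide +kernel)

theorem f152_1_867_T : FS ((152 : ℕ) / 200 : ℝ) ((867 : ℕ) / 1000 : ℝ) ((120 : ℕ) / 1000 : ℝ) f152_1_867 (kR [(nat_lit 200), (nat_lit 300), (nat_lit 450), (nat_lit 800)].reverse) 0 0 :=
  ftab_of_E RE.rowE_sound (by decide +kernel : ftOK (nat_lit 152) (nat_lit 867) (nat_lit 120) [(nat_lit 200), (nat_lit 300), (nat_lit 450), (nat_lit 800)] (nat_lit 2627) [((nat_lit 1), (nat_lit 1)), ((nat_lit 152), (nat_lit 200)), ((nat_lit 867), (nat_lit 1000)), ((nat_lit 120), (nat_lit 1000)), ((nat_lit 200), (nat_lit 1000)), ((nat_lit 300), (nat_lit 1000)), ((nat_lit 450), (nat_lit 1000)), ((nat_lit 800), (nat_lit 1000))] [(nat_lit 1), (nat_lit 1), (nat_lit 1)] (nat_lit 4) = true)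
  (FtP.trans (FtP.trans (FtP.trans (FtP.trans (FtP.trans (FtP.trans (FtP.trans (FtP.trans (FtP.trans (FtP.trans (FtP.trans (FtP.trans (FtP.trans (FtP.trans (FtP.trans (FtP.trans (FtP.trans (FtP.trans (FtP.trans (FtP.trans (FtP.trans (FtP.trans (FtP.trans (FtP.trans (FtP.trans (FtP.trans (FtP.trans (FtP.trans (FtP.trans (FtP.trans (FtP.trans (FtP.trans (FtP.trans (FtP.trans (FtP.trans (FtP.trans (FtP.trans (ftC_sound f152_1_867_0) (ftC_sound f152_1_867_1)) (ftC_sound f152_1_867_2)) (ftC_sound f152_1_867_3)) (ftC_sound f152_1_867_4)) (ftC_sound f152_1_867_5)) (ftC_sound f152_1_867_6)) (ftC_sound f152_1_867_7)) (ftC_sound f152_1_867_8)) (ftC_sound f152_1_867_9)) (ftC_sound f152_1_867_10)) (ftC_sound f152_1_867_11)) (ftC_sound f152_1_867_12)) (ftC_sound f152_1_867_13)) (ftC_sound f152_1_867_14)) (ftC_sound f152_1_867_15)) (ftC_sound f152_1_867_16)) (ftC_sound f152_1_867_17)) (ftC_sound f152_1_867_18)) (ftC_sound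 f152_1_867_19)) (ftC_sound f152_1_867_20)) (ftC_sound f152_1_867_21)) (ftC_sound f152_1_867_22)) (ftC_sound f152_1_867_23)) (ftC_sound f152_1_867_24)) (ftC_sound f152_1_867_25)) (ftC_sound f152_1_867_26)) (ftC_sound f152_1_867_27)) (ftC_sound f152_1_867_28)) (ftC_sound
 f152_1_867_29)) (ftC_sound f152_1_867_30)) (ftC_sound f152_1_867_31)) (ftC_sound f152_1_867_32)) (ftC_sound f152_1_867_33)) (ftC_sound f152_1_867_34)) (ftC_sound f152_1_867_35)) (ftC_sound f152_1_867_36)) (ftC_sound f152_1_867_37)) (by decide +kernel)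

theorem f152_1_896_T : FS ((152 : ℕ) / 200 : ℝ) ((896 : ℕ) / 1000 : ℝ) ((120 : ℕ) / 1000 : ℝ) f152_1_896 (kR [(nat_lit 200), (nat_lit 300), (nat_lit 450), (nat_lit 800)].reverse) 0 0 :=
  ftab_of_E RE.rowE_sound (by decide +kernel : ftOK (nat_lit 152) (nat_lit 896) (nat_lit 120) [(nat_lit 200), (nat_lit 300), (nat_lit 450), (nat_lit 800)] (nat_lit 2656) [((nat_lit 1), (nat_lit 1)), ((nat_lit 152), (nat_lit 200)), ((nat_lit 896), (nat_lit 1000)), ((nat_lit 120), (nat_lit 1000)), ((nat_lit 200), (nat_lit 1000)), ((nat_lit 300), (nat_lit 1000)), ((nat_lit 450), (nat_lit 1000)), ((nat_lit 800), (nat_lit 1000))] [(nat_lit 1), (nat_lit 1), (nat_lit 1)] (nat_lit 4) = true)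
  (FtP.trans (FtP.trans (FtP.trans (FtP.trans (FtP.trans (FtP.trans (FtP.trans (FtP.trans (FtP.trans (FtP.trans (FtP.trans (FtP.trans (FtP.trans (FtP.trans (FtP.trans (FtP.trans (FtP.trans (FtP.trans (FtP.trans (FtP.trans (FtP.trans (FtP.trans (FtP.trans (FtP.trans (FtP.trans (FtP.trans (ftC_sound f152_1_896_0) (ftC_sound f152_1_896_1)) (ftC_sound f152_1_896_2)) (ftC_sound f152_1_896_3)) (ftC_sound f152_1_896_4)) (ftC_sound f152_1_896_5)) (ftC_sound f152_1_896_6)) (ftC_sound f152_1_896_7)) (ftC_sound f152_1_896_8)) (ftC_sound f152_1_896_9)) (ftC_sound f152_1_896_10)) (ftC_sound f152_1_896_11)) (ftC_sound f152_1_896_12)) (ftC_sound f152_1_896_13)) (ftC_sound f152_1_896_14)) (ftC_sound f152_1_896_15)) (ftC_sound f152_1_896_16)) (ftC_sound f152_1_896_17)) (ftC_sound f152_1_896_18)) (ftC_sound f152_1_896_19)) (ftC_sound f152_1_896_20)) (ftC_sound f152_1_896_21)) (ftC_sound f152_1_896_22)) (ftC_sound f152_1_896_23))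 (ftC_sound f152_1_896_24)) (ftC_sound f152_1_896_25)) (ftC_sound f152_1_896_26)) (by decide +kernel)

theorem f160_1_0_T : FS ((160 : ℕ) / 200 : ℝ) ((0 : ℕ) / 1000 : ℝ) ((120 : ℕ) / 1000 : ℝ) f160_1_0 (kR [(nat_lit 200), (nat_lit 300), (nat_lit 450), (nat_lit 800)].reverse) 0 0 :=
  ftab_of_E RE.rowE_sound (by decide +kernel : ftOK (nat_lit 160) (nat_lit 0) (nat_lit 120) [(nat_lit 200), (nat_lit 300), (nat_lit 450), (nat_lit 800)] (nat_lit 1800) [((nat_lit 1), (nat_lit 1)), ((nat_lit 160), (nat_lit 200)), ((nat_lit 120), (nat_lit 1000)), ((nat_lit 200), (nat_lit 1000)), ((nat_lit 300), (nat_lit 1000)), ((nat_lit 450), (nat_lit 1000)), ((nat_lit 800), (nat_lit 1000))] [(nat_lit 1), (nat_lit 1)] (nat_lit 4) = true)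
  (FtP.trans (FtP.trans (FtP.trans (FtP.trans (FtP.trans (FtP.trans (FtP.trans (FtP.trans (FtP.trans (FtP.trans (FtP.trans (FtP.trans (FtP.trans (FtP.trans (FtP.trans (FtP.trans (FtP.trans (FtP.trans (FtP.trans (FtP.trans (FtP.trans (FtP.trans (FtP.trans (FtP.trans (FtP.trans (FtP.trans (FtP.trans (FtP.trans (FtP.trans (FtP.trans (FtP.trans (FtP.trans (FtP.trans (FtP.trans (FtP.trans (FtP.trans (FtP.trans (FtP.trans (FtP.trans (FtP.trans (FtP.trans (FtP.trans (FtP.trans (FtP.trans (FtP.trans (FtP.trans (FtP.trans (FtP.trans (FtP.trans (FtP.trans (FtP.trans (FtP.trans (FtP.trans (FtP.trans (FtP.trans (FtP.trans (FtP.trans (FtP.trans (FtP.trans (FtP.trans (FtP.trans (FtP.trans (FtP.trans (FtP.trans (FtP.trans (FtP.trans (FtP.trans (FtP.trans (FtP.trans (FtP.trans (FtP.trans (FtP.trans (FtP.trans (FtP.trans (FtP.trans (FtP.trans (FtP.trans (FtP.trans (ftC_sound f160_1_0_0) (ftC_sound f160_1_0_1)) (ftC_sound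 f160_1_0_2)) (ftC_sound f160_1_0_3)) (ftC_sound f160_1_0_4)) (ftC_sound f160_1_0_5)) (ftC_sound f160_1_0_6)) (ftC_sound f160_1_0_7)) (ftC_sound f160_1_0_8)) (ftC_sound f160_1_0_9)) (ftC_sound f160_1_0_10)) (ftC_sound f160_1_0_11)) (ftC_sound f160_1_0_12)) (ftC_sound f160_1_0_13))
 (ftC_sound f160_1_0_14)) (ftC_sound f160_1_0_15)) (ftC_sound f160_1_0_16)) (ftC_sound f160_1_0_17)) (ftC_sound f160_1_0_18)) (ftC_sound f160_1_0_19)) (ftC_sound f160_1_0_20)) (ftC_sound f160_1_0_21)) (ftC_sound f160_1_0_22)) (ftC_sound f160_1_0_23)) (ftC_sound f160_1_0_24)) (ftC_sound f160_1_0_25)) (ftC_sound f160_1_0_26)) (ftC_sound f160_1_0_27)) (ftC_sound f160_1_0_28)) (ftC_sound f160_1_0_29)) (ftC_sound f160_1_0_30)) (ftC_sound f160_1_0_31)) (ftC_sound f160_1_0_32)) (ftC_sound f160_1_0_33)) (ftC_sound f160_1_0_34)) (ftC_sound f160_1_0_35)) (ftC_sound f160_1_0_36)) (ftC_sound f160_1_0_37)) (ftC_sound f160_1_0_38)) (ftC_sound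 f160_1_0_39)) (ftC_sound f160_1_0_40)) (ftC_sound f160_1_0_41)) (ftC_sound f160_1_0_42)) (ftC_sound f160_1_0_43)) (ftC_sound f160_1_0_44)) (ftC_sound f160_1_0_45)) (ftC_sound f160_1_0_46)) (ftC_sound f160_1_0_47)) (ftC_sound f160_1_0_48)) (ftC_sound f160_1_0_49)) (ftC_sound f160_1_0_50)) (ftC_sound f160_1_0_51)) (ftC_sound f160_1_0_52)) (ftC_sound f160_1_0_53)) (ftC_sound f160_1_0_54)) (ftC_sound f160_1_0_55)) (ftC_sound f160_1_0_56)) (ftC_sound f160_1_0_57)) (ftC_sound f160_1_0_58)) (ftC_sound f160_1_0_59)) (ftC_sound f160_1_0_60)) (ftC_sound f160_1_0_61))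
 (ftC_sound f160_1_0_62)) (ftC_sound f160_1_0_63)) (ftC_sound f160_1_0_64)) (ftC_sound f160_1_0_65)) (ftC_sound f160_1_0_66)) (ftC_sound f160_1_0_67)) (ftC_sound f160_1_0_68)) (ftC_sound f160_1_0_69)) (ftC_sound f160_1_0_70)) (ftC_sound f160_1_0_71)) (ftC_sound f160_1_0_72)) (ftC_sound f160_1_0_73)) (ftC_sound f160_1_0_74)) (ftC_sound f160_1_0_75)) (ftC_sound f160_1_0_76)) (ftC_sound f160_1_0_77)) (ftC_sound f160_1_0_78)) (by decide +kernel)

theorem f160_1_400_T : FS ((160 : ℕ) / 200 : ℝ) ((400 : ℕ) / 1000 : ℝ) ((120 : ℕ) / 1000 : ℝ) f160_1_400 (kR [(nat_lit 200), (nat_lit 300), (nat_lit 450), (nat_lit 800)].reverse) 0 0 :=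
  ftab_of_E RE.rowE_sound (by decide +kernel : ftOK (nat_lit 160) (nat_lit 400) (nat_lit 120) [(nat_lit 200), (nat_lit 300), (nat_lit 450), (nat_lit 800)] (nat_lit 2200) [((nat_lit 1), (nat_lit 1)), ((nat_lit 160), (nat_lit 200)), ((nat_lit 400), (nat_lit 1000)), ((nat_lit 120), (nat_lit 1000)), ((nat_lit 200), (nat_lit 1000)), ((nat_lit 300), (nat_lit 1000)), ((nat_lit 450), (nat_lit 1000)), ((nat_lit 800), (nat_lit 1000))] [(nat_lit 1), (nat_lit 1), (nat_lit 1)] (nat_lit 4) = true)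
  (FtP.trans (FtP.trans (FtP.trans (FtP.trans (FtP.trans (FtP.trans (FtP.trans (FtP.trans (FtP.trans (FtP.trans (FtP.trans (FtP.trans (FtP.trans (FtP.trans (FtP.trans (FtP.trans (FtP.trans (FtP.trans (FtP.trans (FtP.trans (FtP.trans (FtP.trans (FtP.trans (FtP.trans (FtP.trans (FtP.trans (FtP.trans (FtP.trans (FtP.trans (FtP.trans (FtP.trans (FtP.trans (FtP.trans (FtP.trans (FtP.trans (FtP.trans (FtP.trans (FtP.trans (FtP.trans (FtP.trans (FtP.trans (FtP.trans (FtP.trans (FtP.trans (FtP.trans (FtP.trans (FtP.trans (FtP.trans (FtP.trans (FtP.trans (FtP.trans (FtP.trans (FtP.trans (FtP.trans (FtP.trans (FtP.trans (FtP.trans (FtP.trans (FtP.trans (FtP.trans (FtP.trans (FtP.trans (FtP.trans (FtP.trans (FtP.trans (FtP.trans (FtP.trans (FtP.trans (FtP.trans (FtP.trans (FtP.trans (FtP.trans (FtP.trans (FtP.trans (FtP.trans (FtP.trans (FtP.trans (FtP.trans (ftC_sound f160_1_400_0) (ftC_sound f160_1_400_1)) (ftC_sound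 f160_1_400_2)) (ftC_sound f160_1_400_3)) (ftC_sound f160_1_400_4)) (ftC_sound f160_1_400_5)) (ftC_sound f160_1_400_6)) (ftC_sound f160_1_400_7)) (ftC_sound f160_1_400_8)) (ftC_sound f160_1_400_9)) (ftC_sound f160_1_400_10)) (ftC_sound f160_1_400_11)) (ftC_sound f160_1_400_12))
 (ftC_sound f160_1_400_13)) (ftC_sound f160_1_400_14)) (ftC_sound f160_1_400_15)) (ftC_sound f160_1_400_16)) (ftC_sound f160_1_400_17)) (ftC_sound f160_1_400_18)) (ftC_sound f160_1_400_19)) (ftC_sound f160_1_400_20)) (ftC_sound f160_1_400_21)) (ftC_sound f160_1_400_22)) (ftC_sound f160_1_400_23)) (ftC_sound f160_1_400_24)) (ftC_sound f160_1_400_25)) (ftC_sound f160_1_400_26)) (ftC_sound f160_1_400_27)) (ftC_sound f160_1_400_28)) (ftC_sound f160_1_400_29)) (ftC_sound f160_1_400_30)) (ftC_sound f160_1_400_31)) (ftC_sound f160_1_400_32)) (ftC_sound f160_1_400_33)) (ftC_sound f160_1_400_34)) (ftC_sound f160_1_400_35)) (ftC_sound f160_1_400_36))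 (ftC_sound f160_1_400_37)) (ftC_sound f160_1_400_38)) (ftC_sound f160_1_400_39)) (ftC_sound f160_1_400_40)) (ftC_sound f160_1_400_41)) (ftC_sound f160_1_400_42)) (ftC_sound f160_1_400_43)) (ftC_sound f160_1_400_44)) (ftC_sound f160_1_400_45)) (ftC_sound f160_1_400_46)) (ftC_sound f160_1_400_47)) (ftC_sound f160_1_400_48)) (ftC_sound f160_1_400_49)) (ftC_sound f160_1_400_50)) (ftC_sound f160_1_400_51)) (ftC_sound f160_1_400_52)) (ftC_sound f160_1_400_53)) (ftC_sound f160_1_400_54)) (ftC_sound f160_1_400_55)) (ftC_sound f160_1_400_56)) (ftC_sound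
 f160_1_400_57)) (ftC_sound f160_1_400_58)) (ftC_sound f160_1_400_59)) (ftC_sound f160_1_400_60)) (ftC_sound f160_1_400_61)) (ftC_sound f160_1_400_62)) (ftC_sound f160_1_400_63)) (ftC_sound f160_1_400_64)) (ftC_sound f160_1_400_65)) (ftC_sound f160_1_400_66)) (ftC_sound f160_1_400_67)) (ftC_sound f160_1_400_68)) (ftC_sound f160_1_400_69)) (ftC_sound f160_1_400_70)) (ftC_sound f160_1_400_71)) (ftC_sound f160_1_400_72)) (ftC_sound f160_1_400_73)) (ftC_sound f160_1_400_74)) (ftC_sound f160_1_400_75)) (ftC_sound f160_1_400_76)) (ftC_sound f160_1_400_77)) (ftC_sound f160_1_400_78)) (by decide +kernel)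

theorem f160_1_600_T : FS ((160 : ℕ) / 200 : ℝ) ((600 : ℕ) / 1000 : ℝ) ((120 : ℕ) / 1000 : ℝ) f160_1_600 (kR [(nat_lit 200), (nat_lit 300), (nat_lit 450), (nat_lit 800)].reverse) 0 0 :=
  ftab_of_E RE.rowE_sound (by decide +kernel : ftOK (nat_lit 160) (nat_lit 600) (nat_lit 120) [(nat_lit 200), (nat_lit 300), (nat_lit 450), (nat_lit 800)] (nat_lit 2400) [((nat_lit 1), (nat_lit 1)), ((nat_lit 160), (nat_lit 200)), ((nat_lit 600), (nat_lit 1000)), ((nat_lit 120), (nat_lit 1000)), ((nat_lit 200), (nat_lit 1000)), ((nat_lit 300), (nat_lit 1000)), ((nat_lit 450), (nat_lit 1000)), ((nat_lit 800), (nat_lit 1000))] [(nat_lit 1), (nat_lit 1), (nat_lit 1)] (nat_lit 4) = true)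
  (FtP.trans (FtP.trans (FtP.trans (FtP.trans (FtP.trans (FtP.trans (FtP.trans (FtP.trans (FtP.trans (FtP.trans (FtP.trans (FtP.trans (FtP.trans (FtP.trans (FtP.trans (FtP.trans (FtP.trans (FtP.trans (FtP.trans (FtP.trans (FtP.trans (FtP.trans (FtP.trans (FtP.trans (FtP.trans (FtP.trans (FtP.trans (FtP.trans (FtP.trans (FtP.trans (FtP.trans (FtP.trans (FtP.trans (FtP.trans (FtP.trans (FtP.trans (FtP.trans (FtP.trans (FtP.trans (FtP.trans (FtP.trans (FtP.trans (ftC_sound f160_1_600_0) (ftC_sound f160_1_600_1)) (ftC_sound f160_1_600_2)) (ftC_sound f160_1_600_3)) (ftC_sound f160_1_600_4)) (ftC_sound f160_1_600_5)) (ftC_sound f160_1_600_6)) (ftC_sound f160_1_600_7)) (ftC_sound f160_1_600_8)) (ftC_sound f160_1_600_9)) (ftC_sound f160_1_600_10)) (ftC_sound f160_1_600_11)) (ftC_sound f160_1_600_12)) (ftC_sound f160_1_600_13)) (ftC_sound f160_1_600_14)) (ftC_sound f160_1_600_15)) (ftC_sound f160_1_600_16)) (ftC_sound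 f160_1_600_17)) (ftC_sound f160_1_600_18)) (ftC_sound f160_1_600_19)) (ftC_sound f160_1_600_20)) (ftC_sound f160_1_600_21)) (ftC_sound f160_1_600_22)) (ftC_sound f160_1_600_23)) (ftC_sound f160_1_600_24)) (ftC_sound f160_1_600_25)) (ftC_sound f160_1_600_26)) (ftC_sound
 f160_1_600_27)) (ftC_sound f160_1_600_28)) (ftC_sound f160_1_600_29)) (ftC_sound f160_1_600_30)) (ftC_sound f160_1_600_31)) (ftC_sound f160_1_600_32)) (ftC_sound f160_1_600_33)) (ftC_sound f160_1_600_34)) (ftC_sound f160_1_600_35)) (ftC_sound f160_1_600_36)) (ftC_sound f160_1_600_37)) (ftC_sound f160_1_600_38)) (ftC_sound f160_1_600_39)) (ftC_sound f160_1_600_40)) (ftC_sound f160_1_600_41)) (ftC_sound f160_1_600_42)) (by decide +kernel)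

theorem f160_1_750_T : FS ((160 : ℕ) / 200 : ℝ) ((750 : ℕ) / 1000 : ℝ) ((120 : ℕ) / 1000 : ℝ) f160_1_750 (kR [(nat_lit 200), (nat_lit 300), (nat_lit 450), (nat_lit 800)].reverse) 0 0 :=
  ftab_of_E RE.rowE_sound (by decide +kernel : ftOK (nat_lit 160) (nat_lit 750) (nat_lit 120) [(nat_lit 200), (nat_lit 300), (nat_lit 450), (nat_lit 800)] (nat_lit 2550) [((nat_lit 1), (nat_lit 1)), ((nat_lit 160), (nat_lit 200)), ((nat_lit 750), (nat_lit 1000)), ((nat_lit 120), (nat_lit 1000)), ((nat_lit 200), (nat_lit 1000)), ((nat_lit 300), (nat_lit 1000)), ((nat_lit 450), (nat_lit 1000)), ((nat_lit 800), (nat_lit 1000))] [(nat_lit 1), (nat_lit 1), (nat_lit 1)] (nat_lit 4) = true)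
  (FtP.trans (FtP.trans (FtP.trans (FtP.trans (FtP.trans (FtP.trans (FtP.trans (FtP.trans (FtP.trans (FtP.trans (FtP.trans (FtP.trans (FtP.trans (FtP.trans (FtP.trans (FtP.trans (FtP.trans (FtP.trans (FtP.trans (FtP.trans (FtP.trans (FtP.trans (FtP.trans (FtP.trans (FtP.trans (FtP.trans (FtP.trans (FtP.trans (FtP.trans (FtP.trans (FtP.trans (FtP.trans (FtP.trans (FtP.trans (FtP.trans (FtP.trans (FtP.trans (FtP.trans (FtP.trans (FtP.trans (FtP.trans (FtP.trans (FtP.trans (ftC_sound f160_1_750_0) (ftC_sound f160_1_750_1)) (ftC_sound f160_1_750_2)) (ftC_sound f160_1_750_3)) (ftC_sound f160_1_750_4)) (ftC_sound f160_1_750_5)) (ftC_sound f160_1_750_6)) (ftC_sound f160_1_750_7)) (ftC_sound f160_1_750_8)) (ftC_sound f160_1_750_9)) (ftC_sound f160_1_750_10)) (ftC_sound f160_1_750_11)) (ftC_sound f160_1_750_12)) (ftC_sound f160_1_750_13)) (ftC_sound f160_1_750_14)) (ftC_sound f160_1_750_15)) (ftC_sound f160_1_750_16))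 (ftC_sound f160_1_750_17)) (ftC_sound f160_1_750_18)) (ftC_sound f160_1_750_19)) (ftC_sound f160_1_750_20)) (ftC_sound f160_1_750_21)) (ftC_sound f160_1_750_22)) (ftC_sound f160_1_750_23)) (ftC_sound f160_1_750_24)) (ftC_sound f160_1_750_25)) (ftC_sound f160_1_750_26))
 (ftC_sound f160_1_750_27)) (ftC_sound f160_1_750_28)) (ftC_sound f160_1_750_29)) (ftC_sound f160_1_750_30)) (ftC_sound f160_1_750_31)) (ftC_sound f160_1_750_32)) (ftC_sound f160_1_750_33)) (ftC_sound f160_1_750_34)) (ftC_sound f160_1_750_35)) (ftC_sound f160_1_750_36)) (ftC_sound f160_1_750_37)) (ftC_sound f160_1_750_38)) (ftC_sound f160_1_750_39)) (ftC_sound f160_1_750_40)) (ftC_sound f160_1_750_41)) (ftC_sound f160_1_750_42)) (ftC_sound f160_1_750_43)) (by decide +kernel)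

theorem f160_1_813_T : FS ((160 : ℕ) / 200 : ℝ) ((813 : ℕ) / 1000 : ℝ) ((120 : ℕ) / 1000 : ℝ) f160_1_813 (kR [(nat_lit 200), (nat_lit 300), (nat_lit 450), (nat_lit 800)].reverse) 0 0 :=
  ftab_of_E RE.rowE_sound (by decide +kernel : ftOK (nat_lit 160) (nat_lit 813) (nat_lit 120) [(nat_lit 200), (nat_lit 300), (nat_lit 450), (nat_lit 800)] (nat_lit 2613) [((nat_lit 1), (nat_lit 1)), ((nat_lit 160), (nat_lit 200)), ((nat_lit 813), (nat_lit 1000)), ((nat_lit 120), (nat_lit 1000)), ((nat_lit 200), (nat_lit 1000)), ((nat_lit 300), (nat_lit 1000)), ((nat_lit 450), (nat_lit 1000)), ((nat_lit 800), (nat_lit 1000))] [(nat_lit 1), (nat_lit 1), (nat_lit 1)] (nat_lit 4) = true)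
  (FtP.trans (FtP.trans (FtP.trans (FtP.trans (FtP.trans (FtP.trans (FtP.trans (FtP.trans (FtP.trans (FtP.trans (FtP.trans (FtP.trans (FtP.trans (FtP.trans (FtP.trans (FtP.trans (FtP.trans (FtP.trans (FtP.trans (FtP.trans (FtP.trans (FtP.trans (FtP.trans (FtP.trans (FtP.trans (FtP.trans (FtP.trans (FtP.trans (FtP.trans (FtP.trans (FtP.trans (FtP.trans (FtP.trans (FtP.trans (FtP.trans (FtP.trans (ftC_sound f160_1_813_0) (ftC_sound f160_1_813_1)) (ftC_sound f160_1_813_2)) (ftC_sound f160_1_813_3)) (ftC_sound f160_1_813_4)) (ftC_sound f160_1_813_5)) (ftC_sound f160_1_813_6)) (ftC_sound f160_1_813_7)) (ftC_sound f160_1_813_8)) (ftC_sound f160_1_813_9)) (ftC_sound f160_1_813_10)) (ftC_sound f160_1_813_11)) (ftC_sound f160_1_813_12)) (ftC_sound f160_1_813_13)) (ftC_sound f160_1_813_14)) (ftC_sound f160_1_813_15)) (ftC_sound f160_1_813_16)) (ftC_sound f160_1_813_17)) (ftC_sound f160_1_813_18)) (ftC_sound f160_1_813_19))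 (ftC_sound f160_1_813_20)) (ftC_sound f160_1_813_21)) (ftC_sound f160_1_813_22)) (ftC_sound f160_1_813_23)) (ftC_sound f160_1_813_24)) (ftC_sound f160_1_813_25)) (ftC_sound f160_1_813_26)) (ftC_sound f160_1_813_27)) (ftC_sound f160_1_813_28)) (ftC_sound f160_1_813_29))
 (ftC_sound f160_1_813_30)) (ftC_sound f160_1_813_31)) (ftC_sound f160_1_813_32)) (ftC_sound f160_1_813_33)) (ftC_sound f160_1_813_34)) (ftC_sound f160_1_813_35)) (ftC_sound f160_1_813_36)) (by decide +kernel)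

theorem f160_1_832_T : FS ((160 : ℕ) / 200 : ℝ) ((832 : ℕ) / 1000 : ℝ) ((120 : ℕ) / 1000 : ℝ) f160_1_832 (kR [(nat_lit 200), (nat_lit 300), (nat_lit 450), (nat_lit 800)].reverse) 0 0 :=
  ftab_of_E RE.rowE_sound (by decide +kernel : ftOK (nat_lit 160) (nat_lit 832) (nat_lit 120) [(nat_lit 200), (nat_lit 300), (nat_lit 450), (nat_lit 800)] (nat_lit 2632) [((nat_lit 1), (nat_lit 1)), ((nat_lit 160), (nat_lit 200)), ((nat_lit 832), (nat_lit 1000)), ((nat_lit 120), (nat_lit 1000)), ((nat_lit 200), (nat_lit 1000)), ((nat_lit 300), (nat_lit 1000)), ((nat_lit 450), (nat_lit 1000)), ((nat_lit 800), (nat_lit 1000))] [(nat_lit 1), (nat_lit 1), (nat_lit 1)] (nat_lit 4) = true)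
  (FtP.trans (FtP.trans (FtP.trans (FtP.trans (FtP.trans (FtP.trans (FtP.trans (FtP.trans (FtP.trans (FtP.trans (FtP.trans (FtP.trans (FtP.trans (FtP.trans (FtP.trans (FtP.trans (FtP.trans (FtP.trans (FtP.trans (FtP.trans (FtP.trans (FtP.trans (FtP.trans (FtP.trans (FtP.trans (FtP.trans (FtP.trans (FtP.trans (FtP.trans (FtP.trans (FtP.trans (FtP.trans (FtP.trans (FtP.trans (FtP.trans (FtP.trans (FtP.trans (FtP.trans (FtP.trans (FtP.trans (FtP.trans (FtP.trans (FtP.trans (ftC_sound f160_1_832_0) (ftC_sound f160_1_832_1)) (ftC_sound f160_1_832_2)) (ftC_sound f160_1_832_3)) (ftC_sound f160_1_832_4)) (ftC_sound f160_1_832_5)) (ftC_sound f160_1_832_6)) (ftC_sound f160_1_832_7)) (ftC_sound f160_1_832_8)) (ftC_sound f160_1_832_9)) (ftC_sound f160_1_832_10)) (ftC_sound f160_1_832_11)) (ftC_sound f160_1_832_12)) (ftC_sound f160_1_832_13)) (ftC_sound f160_1_832_14)) (ftC_sound f160_1_832_15)) (ftC_sound f160_1_832_16))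 (ftC_sound f160_1_832_17)) (ftC_sound f160_1_832_18)) (ftC_sound f160_1_832_19)) (ftC_sound f160_1_832_20)) (ftC_sound f160_1_832_21)) (ftC_sound f160_1_832_22)) (ftC_sound f160_1_832_23)) (ftC_sound f160_1_832_24)) (ftC_sound f160_1_832_25)) (ftC_sound f160_1_832_26))
 (ftC_sound f160_1_832_27)) (ftC_sound f160_1_832_28)) (ftC_sound f160_1_832_29)) (ftC_sound f160_1_832_30)) (ftC_sound f160_1_832_31)) (ftC_sound f160_1_832_32)) (ftC_sound f160_1_832_33)) (ftC_sound f160_1_832_34)) (ftC_sound f160_1_832_35)) (ftC_sound f160_1_832_36)) (ftC_sound f160_1_832_37)) (ftC_sound f160_1_832_38)) (ftC_sound f160_1_832_39)) (ftC_sound f160_1_832_40)) (ftC_sound f160_1_832_41)) (ftC_sound f160_1_832_42)) (ftC_sound f160_1_832_43)) (by decide +kernel)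

theorem f160_1_849_T : FS ((160 : ℕ) / 200 : ℝ) ((849 : ℕ) / 1000 : ℝ) ((120 : ℕ) / 1000 : ℝ) f160_1_849 (kR [(nat_lit 200), (nat_lit 300), (nat_lit 450), (nat_lit 800)].reverse) 0 0 :=
  ftab_of_E RE.rowE_sound (by decide +kernel : ftOK (nat_lit 160) (nat_lit 849) (nat_lit 120) [(nat_lit 200), (nat_lit 300), (nat_lit 450), (nat_lit 800)] (nat_lit 2649) [((nat_lit 1), (nat_lit 1)), ((nat_lit 160), (nat_lit 200)), ((nat_lit 849), (nat_lit 1000)), ((nat_lit 120), (nat_lit 1000)), ((nat_lit 200), (nat_lit 1000)), ((nat_lit 300), (nat_lit 1000)), ((nat_lit 450), (nat_lit 1000)), ((nat_lit 800), (nat_lit 1000))] [(nat_lit 1), (nat_lit 1), (nat_lit 1)] (nat_lit 4) = true)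
  (FtP.trans (FtP.trans (FtP.trans (FtP.trans (FtP.trans (FtP.trans (FtP.trans (FtP.trans (FtP.trans (FtP.trans (FtP.trans (FtP.trans (FtP.trans (FtP.trans (FtP.trans (FtP.trans (FtP.trans (FtP.trans (FtP.trans (FtP.trans (FtP.trans (FtP.trans (FtP.trans (FtP.trans (FtP.trans (FtP.trans (ftC_sound f160_1_849_0) (ftC_sound f160_1_849_1)) (ftC_sound f160_1_849_2)) (ftC_sound f160_1_849_3)) (ftC_sound f160_1_849_4)) (ftC_sound f160_1_849_5)) (ftC_sound f160_1_849_6)) (ftC_sound f160_1_849_7)) (ftC_sound f160_1_849_8)) (ftC_sound f160_1_849_9)) (ftC_sound f160_1_849_10)) (ftC_sound f160_1_849_11)) (ftC_sound f160_1_849_12)) (ftC_sound f160_1_849_13)) (ftC_sound f160_1_849_14)) (ftC_sound f160_1_849_15)) (ftC_sound f160_1_849_16)) (ftC_sound f160_1_849_17)) (ftC_sound f160_1_849_18)) (ftC_sound f160_1_849_19)) (ftC_sound f160_1_849_20)) (ftC_sound f160_1_849_21)) (ftC_sound f160_1_849_22)) (ftC_sound f160_1_849_23))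 (ftC_sound f160_1_849_24)) (ftC_sound f160_1_849_25)) (ftC_sound f160_1_849_26)) (by decide +kernel)

theorem f160_1_867_T : FS ((160 : ℕ) / 200 : ℝ) ((867 : ℕ) / 1000 : ℝ) ((120 : ℕ) / 1000 : ℝ) f160_1_867 (kR [(nat_lit 200), (nat_lit 300), (nat_lit 450), (nat_lit 800)].reverse) 0 0 :=
  ftab_of_E RE.rowE_sound (by decide +kernel : ftOK (nat_lit 160) (nat_lit 867) (nat_lit 120) [(nat_lit 200), (nat_lit 300), (nat_lit 450), (nat_lit 800)] (nat_lit 2667) [((nat_lit 1), (nat_lit 1)), ((nat_lit 160), (nat_lit 200)), ((nat_lit 867), (nat_lit 1000)), ((nat_lit 120), (nat_lit 1000)), ((nat_lit 200), (nat_lit 1000)), ((nat_lit 300), (nat_lit 1000)), ((nat_lit 450), (nat_lit 1000)), ((nat_lit 800), (nat_lit 1000))] [(nat_lit 1), (nat_lit 1), (nat_lit 1)] (nat_lit 4) = true)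
  (FtP.trans (FtP.trans (FtP.trans (FtP.trans (FtP.trans (FtP.trans (FtP.trans (FtP.trans (FtP.trans (FtP.trans (FtP.trans (FtP.trans (FtP.trans (FtP.trans (FtP.trans (FtP.trans (FtP.trans (FtP.trans (FtP.trans (FtP.trans (FtP.trans (FtP.trans (FtP.trans (FtP.trans (FtP.trans (FtP.trans (FtP.trans (FtP.trans (FtP.trans (FtP.trans (FtP.trans (FtP.trans (FtP.trans (FtP.trans (FtP.trans (FtP.trans (FtP.trans (ftC_sound f160_1_867_0) (ftC_sound f160_1_867_1)) (ftC_sound f160_1_867_2)) (ftC_sound f160_1_867_3)) (ftC_sound f160_1_867_4)) (ftC_sound f160_1_867_5)) (ftC_sound f160_1_867_6)) (ftC_sound f160_1_867_7)) (ftC_sound f160_1_867_8)) (ftC_sound f160_1_867_9)) (ftC_sound f160_1_867_10)) (ftC_sound f160_1_867_11)) (ftC_sound f160_1_867_12)) (ftC_sound f160_1_867_13)) (ftC_sound f160_1_867_14)) (ftC_sound f160_1_867_15)) (ftC_sound f160_1_867_16)) (ftC_sound f160_1_867_17)) (ftC_sound f160_1_867_18)) (ftC_sound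 f160_1_867_19)) (ftC_sound f160_1_867_20)) (ftC_sound f160_1_867_21)) (ftC_sound f160_1_867_22)) (ftC_sound f160_1_867_23)) (ftC_sound f160_1_867_24)) (ftC_sound f160_1_867_25)) (ftC_sound f160_1_867_26)) (ftC_sound f160_1_867_27)) (ftC_sound f160_1_867_28)) (ftC_sound
 f160_1_867_29)) (ftC_sound f160_1_867_30)) (ftC_sound f160_1_867_31)) (ftC_sound f160_1_867_32)) (ftC_sound f160_1_867_33)) (ftC_sound f160_1_867_34)) (ftC_sound f160_1_867_35)) (ftC_sound f160_1_867_36)) (ftC_sound f160_1_867_37)) (by decide +kernel)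

theorem f168_1_0_T : FS ((168 : ℕ) / 200 : ℝ) ((0 : ℕ) / 1000 : ℝ) ((120 : ℕ) / 1000 : ℝ) f168_1_0 (kR [(nat_lit 200), (nat_lit 300), (nat_lit 450), (nat_lit 800)].reverse) 0 0 :=
  ftab_of_E RE.rowE_sound (by decide +kernel : ftOK (nat_lit 168) (nat_lit 0) (nat_lit 120) [(nat_lit 200), (nat_lit 300), (nat_lit 450), (nat_lit 800)] (nat_lit 1840) [((nat_lit 1), (nat_lit 1)), ((nat_lit 168), (nat_lit 200)), ((nat_lit 120), (nat_lit 1000)), ((nat_lit 200), (nat_lit 1000)), ((nat_lit 300), (nat_lit 1000)), ((nat_lit 450), (nat_lit 1000)), ((nat_lit 800), (nat_lit 1000))] [(nat_lit 1), (nat_lit 1)] (nat_lit 4) = true)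
  (FtP.trans (FtP.trans (FtP.trans (FtP.trans (FtP.trans (FtP.trans (FtP.trans (FtP.trans (FtP.trans (FtP.trans (FtP.trans (FtP.trans (FtP.trans (FtP.trans (FtP.trans (FtP.trans (FtP.trans (FtP.trans (FtP.trans (FtP.trans (FtP.trans (FtP.trans (FtP.trans (FtP.trans (FtP.trans (FtP.trans (FtP.trans (FtP.trans (FtP.trans (FtP.trans (FtP.trans (FtP.trans (FtP.trans (FtP.trans (FtP.trans (FtP.trans (FtP.trans (FtP.trans (FtP.trans (FtP.trans (FtP.trans (FtP.trans (FtP.trans (FtP.trans (FtP.trans (FtP.trans (FtP.trans (FtP.trans (FtP.trans (FtP.trans (FtP.trans (FtP.trans (FtP.trans (FtP.trans (FtP.trans (FtP.trans (FtP.trans (FtP.trans (FtP.trans (FtP.trans (FtP.trans (FtP.trans (FtP.trans (FtP.trans (FtP.trans (FtP.trans (FtP.trans (FtP.trans (FtP.trans (FtP.trans (FtP.trans (FtP.trans (FtP.trans (FtP.trans (FtP.trans (FtP.trans (FtP.trans (FtP.trans (FtP.trans (FtP.trans (FtP.trans (FtP.trans (FtP.trans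 (FtP.trans (FtP.trans (FtP.trans (FtP.trans (FtP.trans (FtP.trans (FtP.trans (FtP.trans (FtP.trans (FtP.trans (FtP.trans (FtP.trans (FtP.trans (FtP.trans (FtP.trans (FtP.trans (FtP.trans (ftC_sound f168_1_0_0) (ftC_sound f168_1_0_1)) (ftC_sound f168_1_0_2)) (ftC_sound f168_1_0_3))
 (ftC_sound f168_1_0_4)) (ftC_sound f168_1_0_5)) (ftC_sound f168_1_0_6)) (ftC_sound f168_1_0_7)) (ftC_sound f168_1_0_8)) (ftC_sound f168_1_0_9)) (ftC_sound f168_1_0_10)) (ftC_sound f168_1_0_11)) (ftC_sound f168_1_0_12)) (ftC_sound f168_1_0_13)) (ftC_sound f168_1_0_14)) (ftC_sound f168_1_0_15)) (ftC_sound f168_1_0_16)) (ftC_sound f168_1_0_17)) (ftC_sound f168_1_0_18)) (ftC_sound f168_1_0_19)) (ftC_sound f168_1_0_20)) (ftC_sound f168_1_0_21)) (ftC_sound f168_1_0_22)) (ftC_sound f168_1_0_23)) (ftC_sound f168_1_0_24)) (ftC_sound f168_1_0_25)) (ftC_sound f168_1_0_26)) (ftC_sound f168_1_0_27)) (ftC_sound f168_1_0_28)) (ftC_sound f168_1_0_29))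 (ftC_sound f168_1_0_30)) (ftC_sound f168_1_0_31)) (ftC_sound f168_1_0_32)) (ftC_sound f168_1_0_33)) (ftC_sound f168_1_0_34)) (ftC_sound f168_1_0_35)) (ftC_sound f168_1_0_36)) (ftC_sound f168_1_0_37)) (ftC_sound f168_1_0_38)) (ftC_sound f168_1_0_39)) (ftC_sound f168_1_0_40)) (ftC_sound f168_1_0_41)) (ftC_sound f168_1_0_42)) (ftC_sound f168_1_0_43)) (ftC_sound f168_1_0_44)) (ftC_sound f168_1_0_45)) (ftC_sound f168_1_0_46)) (ftC_sound f168_1_0_47)) (ftC_sound f168_1_0_48)) (ftC_sound f168_1_0_49)) (ftC_sound f168_1_0_50)) (ftC_sound f168_1_0_51))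
 (ftC_sound f168_1_0_52)) (ftC_sound f168_1_0_53)) (ftC_sound f168_1_0_54)) (ftC_sound f168_1_0_55)) (ftC_sound f168_1_0_56)) (ftC_sound f168_1_0_57)) (ftC_sound f168_1_0_58)) (ftC_sound f168_1_0_59)) (ftC_sound f168_1_0_60)) (ftC_sound f168_1_0_61)) (ftC_sound f168_1_0_62)) (ftC_sound f168_1_0_63)) (ftC_sound f168_1_0_64)) (ftC_sound f168_1_0_65)) (ftC_sound f168_1_0_66)) (ftC_sound f168_1_0_67)) (ftC_sound f168_1_0_68)) (ftC_sound f168_1_0_69)) (ftC_sound f168_1_0_70)) (ftC_sound f168_1_0_71)) (ftC_sound f168_1_0_72)) (ftC_sound f168_1_0_73)) (ftC_sound f168_1_0_74)) (ftC_sound f168_1_0_75)) (ftC_sound f168_1_0_76)) (ftC_sound f168_1_0_77)) (ftC_sound f168_1_0_78)) (ftC_sound f168_1_0_79)) (ftC_sound f168_1_0_80)) (ftC_sound f168_1_0_81)) (ftC_sound f168_1_0_82)) (ftC_sound f168_1_0_83)) (ftC_sound f168_1_0_84)) (ftC_sound f168_1_0_85)) (ftC_sound f168_1_0_86)) (ftC_sound f168_1_0_87)) (ftC_sound f168_1_0_88))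 (ftC_sound f168_1_0_89)) (ftC_sound f168_1_0_90)) (ftC_sound f168_1_0_91)) (ftC_sound f168_1_0_92)) (ftC_sound f168_1_0_93)) (ftC_sound f168_1_0_94)) (ftC_sound f168_1_0_95)) (ftC_sound f168_1_0_96)) (ftC_sound f168_1_0_97)) (ftC_sound f168_1_0_98)) (ftC_sound f168_1_0_99))
 (ftC_sound f168_1_0_100)) (by decide +kernel)

theorem f168_1_400_T : FS ((168 : ℕ) / 200 : ℝ) ((400 : ℕ) / 1000 : ℝ) ((120 : ℕ) / 1000 : ℝ) f168_1_400 (kR [(nat_lit 200), (nat_lit 300), (nat_lit 450), (nat_lit 800)].reverse) 0 0 :=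
  ftab_of_E RE.rowE_sound (by decide +kernel : ftOK (nat_lit 168) (nat_lit 400) (nat_lit 120) [(nat_lit 200), (nat_lit 300), (nat_lit 450), (nat_lit 800)] (nat_lit 2240) [((nat_lit 1), (nat_lit 1)), ((nat_lit 168), (nat_lit 200)), ((nat_lit 400), (nat_lit 1000)), ((nat_lit 120), (nat_lit 1000)), ((nat_lit 200), (nat_lit 1000)), ((nat_lit 300), (nat_lit 1000)), ((nat_lit 450), (nat_lit 1000)), ((nat_lit 800), (nat_lit 1000))] [(nat_lit 1), (nat_lit 1), (nat_lit 1)] (nat_lit 4) = true)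
  (FtP.trans (FtP.trans (FtP.trans (FtP.trans (FtP.trans (FtP.trans (FtP.trans (FtP.trans (FtP.trans (FtP.trans (FtP.trans (FtP.trans (FtP.trans (FtP.trans (FtP.trans (FtP.trans (FtP.trans (FtP.trans (FtP.trans (FtP.trans (FtP.trans (FtP.trans (FtP.trans (FtP.trans (FtP.trans (FtP.trans (FtP.trans (FtP.trans (FtP.trans (FtP.trans (FtP.trans (FtP.trans (FtP.trans (FtP.trans (FtP.trans (FtP.trans (FtP.trans (FtP.trans (FtP.trans (FtP.trans (FtP.trans (FtP.trans (FtP.trans (FtP.trans (FtP.trans (FtP.trans (FtP.trans (FtP.trans (FtP.trans (FtP.trans (FtP.trans (FtP.trans (FtP.trans (FtP.trans (FtP.trans (FtP.trans (FtP.trans (FtP.trans (FtP.trans (FtP.trans (FtP.trans (FtP.trans (FtP.trans (FtP.trans (FtP.trans (FtP.trans (FtP.trans (FtP.trans (FtP.trans (FtP.trans (FtP.trans (FtP.trans (FtP.trans (FtP.trans (FtP.trans (FtP.trans (FtP.trans (FtP.trans (FtP.trans (FtP.trans (FtP.trans (FtP.trans (FtP.trans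 (FtP.trans (FtP.trans (FtP.trans (FtP.trans (FtP.trans (FtP.trans (FtP.trans (FtP.trans (FtP.trans (FtP.trans (FtP.trans (FtP.trans (FtP.trans (FtP.trans (FtP.trans (FtP.trans (FtP.trans (ftC_sound f168_1_400_0) (ftC_sound f168_1_400_1)) (ftC_sound f168_1_400_2)) (ftC_sound
 f168_1_400_3)) (ftC_sound f168_1_400_4)) (ftC_sound f168_1_400_5)) (ftC_sound f168_1_400_6)) (ftC_sound f168_1_400_7)) (ftC_sound f168_1_400_8)) (ftC_sound f168_1_400_9)) (ftC_sound f168_1_400_10)) (ftC_sound f168_1_400_11)) (ftC_sound f168_1_400_12)) (ftC_sound f168_1_400_13)) (ftC_sound f168_1_400_14)) (ftC_sound f168_1_400_15)) (ftC_sound f168_1_400_16)) (ftC_sound f168_1_400_17)) (ftC_sound f168_1_400_18)) (ftC_sound f168_1_400_19)) (ftC_sound f168_1_400_20)) (ftC_sound f168_1_400_21)) (ftC_sound f168_1_400_22)) (ftC_sound f168_1_400_23)) (ftC_sound f168_1_400_24)) (ftC_sound f168_1_400_25)) (ftC_sound f168_1_400_26)) (ftC_sound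 f168_1_400_27)) (ftC_sound f168_1_400_28)) (ftC_sound f168_1_400_29)) (ftC_sound f168_1_400_30)) (ftC_sound f168_1_400_31)) (ftC_sound f168_1_400_32)) (ftC_sound f168_1_400_33)) (ftC_sound f168_1_400_34)) (ftC_sound f168_1_400_35)) (ftC_sound f168_1_400_36)) (ftC_sound f168_1_400_37)) (ftC_sound f168_1_400_38)) (ftC_sound f168_1_400_39)) (ftC_sound f168_1_400_40)) (ftC_sound f168_1_400_41)) (ftC_sound f168_1_400_42)) (ftC_sound f168_1_400_43)) (ftC_sound f168_1_400_44)) (ftC_sound f168_1_400_45)) (ftC_sound f168_1_400_46)) (ftC_sound f168_1_400_47))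
 (ftC_sound f168_1_400_48)) (ftC_sound f168_1_400_49)) (ftC_sound f168_1_400_50)) (ftC_sound f168_1_400_51)) (ftC_sound f168_1_400_52)) (ftC_sound f168_1_400_53)) (ftC_sound f168_1_400_54)) (ftC_sound f168_1_400_55)) (ftC_sound f168_1_400_56)) (ftC_sound f168_1_400_57)) (ftC_sound f168_1_400_58)) (ftC_sound f168_1_400_59)) (ftC_sound f168_1_400_60)) (ftC_sound f168_1_400_61)) (ftC_sound f168_1_400_62)) (ftC_sound f168_1_400_63)) (ftC_sound f168_1_400_64)) (ftC_sound f168_1_400_65)) (ftC_sound f168_1_400_66)) (ftC_sound f168_1_400_67)) (ftC_sound f168_1_400_68)) (ftC_sound f168_1_400_69)) (ftC_sound f168_1_400_70)) (ftC_sound f168_1_400_71)) (ftC_sound f168_1_400_72)) (ftC_sound f168_1_400_73)) (ftC_sound f168_1_400_74)) (ftC_sound f168_1_400_75)) (ftC_sound f168_1_400_76)) (ftC_sound f168_1_400_77)) (ftC_sound f168_1_400_78)) (ftC_sound f168_1_400_79)) (ftC_sound f168_1_400_80)) (ftC_sound f168_1_400_81))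 (ftC_sound f168_1_400_82)) (ftC_sound f168_1_400_83)) (ftC_sound f168_1_400_84)) (ftC_sound f168_1_400_85)) (ftC_sound f168_1_400_86)) (ftC_sound f168_1_400_87)) (ftC_sound f168_1_400_88)) (ftC_sound f168_1_400_89)) (ftC_sound f168_1_400_90)) (ftC_sound f168_1_400_91)) (ftC_sound
 f168_1_400_92)) (ftC_sound f168_1_400_93)) (ftC_sound f168_1_400_94)) (ftC_sound f168_1_400_95)) (ftC_sound f168_1_400_96)) (ftC_sound f168_1_400_97)) (ftC_sound f168_1_400_98)) (ftC_sound f168_1_400_99)) (ftC_sound f168_1_400_100)) (by decide +kernel)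

theorem f168_1_600_T : FS ((168 : ℕ) / 200 : ℝ) ((600 : ℕ) / 1000 : ℝ) ((120 : ℕ) / 1000 : ℝ) f168_1_600 (kR [(nat_lit 200), (nat_lit 300), (nat_lit 450), (nat_lit 800)].reverse) 0 0 :=
  ftab_of_E RE.rowE_sound (by decide +kernel : ftOK (nat_lit 168) (nat_lit 600) (nat_lit 120) [(nat_lit 200), (nat_lit 300), (nat_lit 450), (nat_lit 800)] (nat_lit 2440) [((nat_lit 1), (nat_lit 1)), ((nat_lit 168), (nat_lit 200)), ((nat_lit 600), (nat_lit 1000)), ((nat_lit 120), (nat_lit 1000)), ((nat_lit 200), (nat_lit 1000)), ((nat_lit 300), (nat_lit 1000)), ((nat_lit 450), (nat_lit 1000)), ((nat_lit 800), (nat_lit 1000))] [(nat_lit 1), (nat_lit 1), (nat_lit 1)] (nat_lit 4) = true)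
  (FtP.trans (FtP.trans (FtP.trans (FtP.trans (FtP.trans (FtP.trans (FtP.trans (FtP.trans (FtP.trans (FtP.trans (FtP.trans (FtP.trans (FtP.trans (FtP.trans (FtP.trans (FtP.trans (FtP.trans (FtP.trans (FtP.trans (FtP.trans (FtP.trans (FtP.trans (FtP.trans (FtP.trans (FtP.trans (FtP.trans (FtP.trans (FtP.trans (FtP.trans (FtP.trans (FtP.trans (FtP.trans (FtP.trans (FtP.trans (FtP.trans (FtP.trans (FtP.trans (FtP.trans (FtP.trans (FtP.trans (FtP.trans (FtP.trans (FtP.trans (FtP.trans (FtP.trans (FtP.trans (FtP.trans (FtP.trans (FtP.trans (FtP.trans (FtP.trans (FtP.trans (FtP.trans (ftC_sound f168_1_600_0) (ftC_sound f168_1_600_1)) (ftC_sound f168_1_600_2)) (ftC_sound f168_1_600_3)) (ftC_sound f168_1_600_4)) (ftC_sound f168_1_600_5)) (ftC_sound f168_1_600_6)) (ftC_sound f168_1_600_7)) (ftC_sound f168_1_600_8)) (ftC_sound f168_1_600_9)) (ftC_sound f168_1_600_10)) (ftC_sound f168_1_600_11)) (ftC_sound f168_1_600_12))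 (ftC_sound f168_1_600_13)) (ftC_sound f168_1_600_14)) (ftC_sound f168_1_600_15)) (ftC_sound f168_1_600_16)) (ftC_sound f168_1_600_17)) (ftC_sound f168_1_600_18)) (ftC_sound f168_1_600_19)) (ftC_sound f168_1_600_20)) (ftC_sound f168_1_600_21)) (ftC_sound f168_1_600_22))
 (ftC_sound f168_1_600_23)) (ftC_sound f168_1_600_24)) (ftC_sound f168_1_600_25)) (ftC_sound f168_1_600_26)) (ftC_sound f168_1_600_27)) (ftC_sound f168_1_600_28)) (ftC_sound f168_1_600_29)) (ftC_sound f168_1_600_30)) (ftC_sound f168_1_600_31)) (ftC_sound f168_1_600_32)) (ftC_sound f168_1_600_33)) (ftC_sound f168_1_600_34)) (ftC_sound f168_1_600_35)) (ftC_sound f168_1_600_36)) (ftC_sound f168_1_600_37)) (ftC_sound f168_1_600_38)) (ftC_sound f168_1_600_39)) (ftC_sound f168_1_600_40)) (ftC_sound f168_1_600_41)) (ftC_sound f168_1_600_42)) (ftC_sound f168_1_600_43)) (ftC_sound f168_1_600_44)) (ftC_sound f168_1_600_45)) (ftC_sound f168_1_600_46))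 (ftC_sound f168_1_600_47)) (ftC_sound f168_1_600_48)) (ftC_sound f168_1_600_49)) (ftC_sound f168_1_600_50)) (ftC_sound f168_1_600_51)) (ftC_sound f168_1_600_52)) (ftC_sound f168_1_600_53)) (by decide +kernel)

theorem f168_1_750_T : FS ((168 : ℕ) / 200 : ℝ) ((750 : ℕ) / 1000 : ℝ) ((120 : ℕ) / 1000 : ℝ) f168_1_750 (kR [(nat_lit 200), (nat_lit 300), (nat_lit 450), (nat_lit 800)].reverse) 0 0 :=
  ftab_of_E RE.rowE_sound (by decide +kernel : ftOK (nat_lit 168) (nat_lit 750) (nat_lit 120) [(nat_lit 200), (nat_lit 300), (nat_lit 450), (nat_lit 800)] (nat_lit 2590) [((nat_lit 1), (nat_lit 1)), ((nat_lit 168), (nat_lit 200)), ((nat_lit 750), (nat_lit 1000)), ((nat_lit 120), (nat_lit 1000)), ((nat_lit 200), (nat_lit 1000)), ((nat_lit 300), (nat_lit 1000)), ((nat_lit 450), (nat_lit 1000)), ((nat_lit 800), (nat_lit 1000))] [(nat_lit 1), (nat_lit 1), (nat_lit 1)] (nat_lit 4) = true)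
  (FtP.trans (FtP.trans (FtP.trans (FtP.trans (FtP.trans (FtP.trans (FtP.trans (FtP.trans (FtP.trans (FtP.trans (FtP.trans (FtP.trans (FtP.trans (FtP.trans (FtP.trans (FtP.trans (FtP.trans (FtP.trans (FtP.trans (FtP.trans (FtP.trans (FtP.trans (FtP.trans (FtP.trans (FtP.trans (FtP.trans (FtP.trans (FtP.trans (FtP.trans (FtP.trans (FtP.trans (FtP.trans (FtP.trans (FtP.trans (FtP.trans (FtP.trans (FtP.trans (FtP.trans (FtP.trans (FtP.trans (FtP.trans (FtP.trans (FtP.trans (FtP.trans (FtP.trans (FtP.trans (FtP.trans (FtP.trans (FtP.trans (FtP.trans (FtP.trans (FtP.trans (FtP.trans (FtP.trans (ftC_sound f168_1_750_0) (ftC_sound f168_1_750_1)) (ftC_sound f168_1_750_2)) (ftC_sound f168_1_750_3)) (ftC_sound f168_1_750_4)) (ftC_sound f168_1_750_5)) (ftC_sound f168_1_750_6)) (ftC_sound f168_1_750_7)) (ftC_sound f168_1_750_8)) (ftC_sound f168_1_750_9)) (ftC_sound f168_1_750_10)) (ftC_sound f168_1_750_11)) (ftC_sound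 f168_1_750_12)) (ftC_sound f168_1_750_13)) (ftC_sound f168_1_750_14)) (ftC_sound f168_1_750_15)) (ftC_sound f168_1_750_16)) (ftC_sound f168_1_750_17)) (ftC_sound f168_1_750_18)) (ftC_sound f168_1_750_19)) (ftC_sound f168_1_750_20)) (ftC_sound f168_1_750_21)) (ftC_sound
 f168_1_750_22)) (ftC_sound f168_1_750_23)) (ftC_sound f168_1_750_24)) (ftC_sound f168_1_750_25)) (ftC_sound f168_1_750_26)) (ftC_sound f168_1_750_27)) (ftC_sound f168_1_750_28)) (ftC_sound f168_1_750_29)) (ftC_sound f168_1_750_30)) (ftC_sound f168_1_750_31)) (ftC_sound f168_1_750_32)) (ftC_sound f168_1_750_33)) (ftC_sound f168_1_750_34)) (ftC_sound f168_1_750_35)) (ftC_sound f168_1_750_36)) (ftC_sound f168_1_750_37)) (ftC_sound f168_1_750_38)) (ftC_sound f168_1_750_39)) (ftC_sound f168_1_750_40)) (ftC_sound f168_1_750_41)) (ftC_sound f168_1_750_42)) (ftC_sound f168_1_750_43)) (ftC_sound f168_1_750_44)) (ftC_sound f168_1_750_45)) (ftC_sound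 f168_1_750_46)) (ftC_sound f168_1_750_47)) (ftC_sound f168_1_750_48)) (ftC_sound f168_1_750_49)) (ftC_sound f168_1_750_50)) (ftC_sound f168_1_750_51)) (ftC_sound f168_1_750_52)) (ftC_sound f168_1_750_53)) (ftC_sound f168_1_750_54)) (by decide +kernel)

theorem f168_1_770_T : FS ((168 : ℕ) / 200 : ℝ) ((770 : ℕ) / 1000 : ℝ) ((120 : ℕ) / 1000 : ℝ) f168_1_770 (kR [(nat_lit 200), (nat_lit 300), (nat_lit 450), (nat_lit 800)].reverse) 0 0 :=
  ftab_of_E RE.rowE_sound (by decide +kernel : ftOK (nat_lit 168) (nat_lit 770) (nat_lit 120) [(nat_lit 200), (nat_lit 300), (nat_lit 450), (nat_lit 800)] (nat_lit 2610) [((nat_lit 1), (nat_lit 1)), ((nat_lit 168), (nat_lit 200)), ((nat_lit 770), (nat_lit 1000)), ((nat_lit 120), (nat_lit 1000)), ((nat_lit 200), (nat_lit 1000)), ((nat_lit 300), (nat_lit 1000)), ((nat_lit 450), (nat_lit 1000)), ((nat_lit 800), (nat_lit 1000))] [(nat_lit 1), (nat_lit 1), (nat_lit 1)] (nat_lit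 4) = true)
  (FtP.trans (FtP.trans (FtP.trans (FtP.trans (FtP.trans (FtP.trans (FtP.trans (FtP.trans (FtP.trans (FtP.trans (FtP.trans (FtP.trans (FtP.trans (FtP.trans (FtP.trans (FtP.trans (FtP.trans (FtP.trans (FtP.trans (FtP.trans (FtP.trans (FtP.trans (FtP.trans (FtP.trans (FtP.trans (FtP.trans (FtP.trans (FtP.trans (FtP.trans (FtP.trans (FtP.trans (FtP.trans (FtP.trans (FtP.trans (FtP.trans (FtP.trans (FtP.trans (FtP.trans (FtP.trans (FtP.trans (FtP.trans (FtP.trans (FtP.trans (FtP.trans (FtP.trans (FtP.trans (FtP.trans (FtP.trans (FtP.trans (ftC_sound f168_1_770_0) (ftC_sound f168_1_770_1)) (ftC_sound f168_1_770_2)) (ftC_sound f168_1_770_3)) (ftC_sound f168_1_770_4)) (ftC_sound f168_1_770_5)) (ftC_sound f168_1_770_6)) (ftC_sound f168_1_770_7)) (ftC_sound f168_1_770_8)) (ftC_sound f168_1_770_9)) (ftC_sound f168_1_770_10)) (ftC_sound f168_1_770_11)) (ftC_sound f168_1_770_12)) (ftC_sound f168_1_770_13))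 (ftC_sound f168_1_770_14)) (ftC_sound f168_1_770_15)) (ftC_sound f168_1_770_16)) (ftC_sound f168_1_770_17)) (ftC_sound f168_1_770_18)) (ftC_sound f168_1_770_19)) (ftC_sound f168_1_770_20)) (ftC_sound f168_1_770_21)) (ftC_sound f168_1_770_22)) (ftC_sound f168_1_770_23)) (ftC_sound
 f168_1_770_24)) (ftC_sound f168_1_770_25)) (ftC_sound f168_1_770_26)) (ftC_sound f168_1_770_27)) (ftC_sound f168_1_770_28)) (ftC_sound f168_1_770_29)) (ftC_sound f168_1_770_30)) (ftC_sound f168_1_770_31)) (ftC_sound f168_1_770_32)) (ftC_sound f168_1_770_33)) (ftC_sound f168_1_770_34)) (ftC_sound f168_1_770_35)) (ftC_sound f168_1_770_36)) (ftC_sound f168_1_770_37)) (ftC_sound f168_1_770_38)) (ftC_sound f168_1_770_39)) (ftC_sound f168_1_770_40)) (ftC_sound f168_1_770_41)) (ftC_sound f168_1_770_42)) (ftC_sound f168_1_770_43)) (ftC_sound f168_1_770_44)) (ftC_sound f168_1_770_45)) (ftC_sound f168_1_770_46)) (ftC_sound f168_1_770_47))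 (ftC_sound f168_1_770_48)) (ftC_sound f168_1_770_49)) (by decide +kernel)

theorem f168_1_792_T : FS ((168 : ℕ) / 200 : ℝ) ((792 : ℕ) / 1000 : ℝ) ((120 : ℕ) / 1000 : ℝ) f168_1_792 (kR [(nat_lit 200), (nat_lit 300), (nat_lit 450), (nat_lit 800)].reverse) 0 0 :=
  ftab_of_E RE.rowE_sound (by decide +kernel : ftOK (nat_lit 168) (nat_lit 792) (nat_lit 120) [(nat_lit 200), (nat_lit 300), (nat_lit 450), (nat_lit 800)] (nat_lit 2632) [((nat_lit 1), (nat_lit 1)), ((nat_lit 168), (nat_lit 200)), ((nat_lit 792), (nat_lit 1000)), ((nat_lit 120), (nat_lit 1000)), ((nat_lit 200), (nat_lit 1000)), ((nat_lit 300), (nat_lit 1000)), ((nat_lit 450), (nat_lit 1000)), ((nat_lit 800), (nat_lit 1000))] [(nat_lit 1), (nat_lit 1), (nat_lit 1)] (nat_lit 4) = true)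
  (FtP.trans (FtP.trans (FtP.trans (FtP.trans (FtP.trans (FtP.trans (FtP.trans (FtP.trans (FtP.trans (FtP.trans (FtP.trans (FtP.trans (FtP.trans (FtP.trans (FtP.trans (FtP.trans (FtP.trans (FtP.trans (FtP.trans (FtP.trans (FtP.trans (FtP.trans (FtP.trans (FtP.trans (FtP.trans (FtP.trans (FtP.trans (FtP.trans (FtP.trans (FtP.trans (FtP.trans (FtP.trans (FtP.trans (FtP.trans (FtP.trans (FtP.trans (FtP.trans (FtP.trans (FtP.trans (FtP.trans (FtP.trans (FtP.trans (FtP.trans (FtP.trans (FtP.trans (FtP.trans (FtP.trans (FtP.trans (FtP.trans (FtP.trans (FtP.trans (FtP.trans (FtP.trans (FtP.trans (ftC_sound f168_1_792_0) (ftC_sound f168_1_792_1)) (ftC_sound f168_1_792_2)) (ftC_sound f168_1_792_3)) (ftC_sound f168_1_792_4)) (ftC_sound f168_1_792_5)) (ftC_sound f168_1_792_6)) (ftC_sound f168_1_792_7)) (ftC_sound f168_1_792_8)) (ftC_sound f168_1_792_9)) (ftC_sound f168_1_792_10)) (ftC_sound f168_1_792_11)) (ftC_sound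 f168_1_792_12)) (ftC_sound f168_1_792_13)) (ftC_sound f168_1_792_14)) (ftC_sound f168_1_792_15)) (ftC_sound f168_1_792_16)) (ftC_sound f168_1_792_17)) (ftC_sound f168_1_792_18)) (ftC_sound f168_1_792_19)) (ftC_sound f168_1_792_20)) (ftC_sound f168_1_792_21)) (ftC_sound
 f168_1_792_22)) (ftC_sound f168_1_792_23)) (ftC_sound f168_1_792_24)) (ftC_sound f168_1_792_25)) (ftC_sound f168_1_792_26)) (ftC_sound f168_1_792_27)) (ftC_sound f168_1_792_28)) (ftC_sound f168_1_792_29)) (ftC_sound f168_1_792_30)) (ftC_sound f168_1_792_31)) (ftC_sound f168_1_792_32)) (ftC_sound f168_1_792_33)) (ftC_sound f168_1_792_34)) (ftC_sound f168_1_792_35)) (ftC_sound f168_1_792_36)) (ftC_sound f168_1_792_37)) (ftC_sound f168_1_792_38)) (ftC_sound f168_1_792_39)) (ftC_sound f168_1_792_40)) (ftC_sound f168_1_792_41)) (ftC_sound f168_1_792_42)) (ftC_sound f168_1_792_43)) (ftC_sound f168_1_792_44)) (ftC_sound f168_1_792_45)) (ftC_sound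 f168_1_792_46)) (ftC_sound f168_1_792_47)) (ftC_sound f168_1_792_48)) (ftC_sound f168_1_792_49)) (ftC_sound f168_1_792_50)) (ftC_sound f168_1_792_51)) (ftC_sound f168_1_792_52)) (ftC_sound f168_1_792_53)) (ftC_sound f168_1_792_54)) (by decide +kernel)

theorem f168_1_813_T : FS ((168 : ℕ) / 200 : ℝ) ((813 : ℕ) / 1000 : ℝ) ((120 : ℕ) / 1000 : ℝ) f168_1_813 (kR [(nat_lit 200), (nat_lit 300), (nat_lit 450), (nat_lit 800)].reverse) 0 0 :=
  ftab_of_E RE.rowE_sound (by decide +kernel : ftOK (nat_lit 168) (nat_lit 813) (nat_lit 120) [(nat_lit 200), (nat_lit 300), (nat_lit 450), (nat_lit 800)] (nat_lit 2653) [((nat_lit 1), (nat_lit 1)), ((nat_lit 168), (nat_lit 200)), ((nat_lit 813), (nat_lit 1000)), ((nat_lit 120), (nat_lit 1000)), ((nat_lit 200), (nat_lit 1000)), ((nat_lit 300), (nat_lit 1000)), ((nat_lit 450), (nat_lit 1000)), ((nat_lit 800), (nat_lit 1000))] [(nat_lit 1), (nat_lit 1), (nat_lit 1)] (nat_lit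 4) = true)
  (FtP.trans (FtP.trans (FtP.trans (FtP.trans (FtP.trans (FtP.trans (FtP.trans (FtP.trans (FtP.trans (FtP.trans (FtP.trans (FtP.trans (FtP.trans (FtP.trans (FtP.trans (FtP.trans (FtP.trans (FtP.trans (FtP.trans (FtP.trans (FtP.trans (FtP.trans (FtP.trans (FtP.trans (FtP.trans (FtP.trans (FtP.trans (FtP.trans (FtP.trans (FtP.trans (FtP.trans (FtP.trans (FtP.trans (FtP.trans (FtP.trans (FtP.trans (ftC_sound f168_1_813_0) (ftC_sound f168_1_813_1)) (ftC_sound f168_1_813_2)) (ftC_sound f168_1_813_3)) (ftC_sound f168_1_813_4)) (ftC_sound f168_1_813_5)) (ftC_sound f168_1_813_6)) (ftC_sound f168_1_813_7)) (ftC_sound f168_1_813_8)) (ftC_sound f168_1_813_9)) (ftC_sound f168_1_813_10)) (ftC_sound f168_1_813_11)) (ftC_sound f168_1_813_12)) (ftC_sound f168_1_813_13)) (ftC_sound f168_1_813_14)) (ftC_sound f168_1_813_15)) (ftC_sound f168_1_813_16)) (ftC_sound f168_1_813_17)) (ftC_sound f168_1_813_18)) (ftC_sound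 f168_1_813_19)) (ftC_sound f168_1_813_20)) (ftC_sound f168_1_813_21)) (ftC_sound f168_1_813_22)) (ftC_sound f168_1_813_23)) (ftC_sound f168_1_813_24)) (ftC_sound f168_1_813_25)) (ftC_sound f168_1_813_26)) (ftC_sound f168_1_813_27)) (ftC_sound f168_1_813_28)) (ftC_sound f168_1_813_29))
 (ftC_sound f168_1_813_30)) (ftC_sound f168_1_813_31)) (ftC_sound f168_1_813_32)) (ftC_sound f168_1_813_33)) (ftC_sound f168_1_813_34)) (ftC_sound f168_1_813_35)) (ftC_sound f168_1_813_36)) (by decide +kernel)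

theorem f168_1_832_T : FS ((168 : ℕ) / 200 : ℝ) ((832 : ℕ) / 1000 : ℝ) ((120 : ℕ) / 1000 : ℝ) f168_1_832 (kR [(nat_lit 200), (nat_lit 300), (nat_lit 450), (nat_lit 800)].reverse) 0 0 :=
  ftab_of_E RE.rowE_sound (by decide +kernel : ftOK (nat_lit 168) (nat_lit 832) (nat_lit 120) [(nat_lit 200), (nat_lit 300), (nat_lit 450), (nat_lit 800)] (nat_lit 2672) [((nat_lit 1), (nat_lit 1)), ((nat_lit 168), (nat_lit 200)), ((nat_lit 832), (nat_lit 1000)), ((nat_lit 120), (nat_lit 1000)), ((nat_lit 200), (nat_lit 1000)), ((nat_lit 300), (nat_lit 1000)), ((nat_lit 450), (nat_lit 1000)), ((nat_lit 800), (nat_lit 1000))] [(nat_lit 1), (nat_lit 1), (nat_lit 1)] (nat_lit 4) = true)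
  (FtP.trans (FtP.trans (FtP.trans (FtP.trans (FtP.trans (FtP.trans (FtP.trans (FtP.trans (FtP.trans (FtP.trans (FtP.trans (FtP.trans (FtP.trans (FtP.trans (FtP.trans (FtP.trans (FtP.trans (FtP.trans (FtP.trans (FtP.trans (FtP.trans (FtP.trans (FtP.trans (FtP.trans (FtP.trans (FtP.trans (FtP.trans (FtP.trans (FtP.trans (FtP.trans (FtP.trans (FtP.trans (FtP.trans (FtP.trans (FtP.trans (FtP.trans (FtP.trans (FtP.trans (FtP.trans (FtP.trans (FtP.trans (FtP.trans (FtP.trans (ftC_sound f168_1_832_0) (ftC_sound f168_1_832_1)) (ftC_sound f168_1_832_2)) (ftC_sound f168_1_832_3)) (ftC_sound f168_1_832_4)) (ftC_sound f168_1_832_5)) (ftC_sound f168_1_832_6)) (ftC_sound f168_1_832_7)) (ftC_sound f168_1_832_8)) (ftC_sound f168_1_832_9)) (ftC_sound f168_1_832_10)) (ftC_sound f168_1_832_11)) (ftC_sound f168_1_832_12)) (ftC_sound f168_1_832_13)) (ftC_sound f168_1_832_14)) (ftC_sound f168_1_832_15)) (ftC_sound f168_1_832_16))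 (ftC_sound f168_1_832_17)) (ftC_sound f168_1_832_18)) (ftC_sound f168_1_832_19)) (ftC_sound f168_1_832_20)) (ftC_sound f168_1_832_21)) (ftC_sound f168_1_832_22)) (ftC_sound f168_1_832_23)) (ftC_sound f168_1_832_24)) (ftC_sound f168_1_832_25)) (ftC_sound f168_1_832_26))
 (ftC_sound f168_1_832_27)) (ftC_sound f168_1_832_28)) (ftC_sound f168_1_832_29)) (ftC_sound f168_1_832_30)) (ftC_sound f168_1_832_31)) (ftC_sound f168_1_832_32)) (ftC_sound f168_1_832_33)) (ftC_sound f168_1_832_34)) (ftC_sound f168_1_832_35)) (ftC_sound f168_1_832_36)) (ftC_sound f168_1_832_37)) (ftC_sound f168_1_832_38)) (ftC_sound f168_1_832_39)) (ftC_sound f168_1_832_40)) (ftC_sound f168_1_832_41)) (ftC_sound f168_1_832_42)) (ftC_sound f168_1_832_43)) (by decide +kernel)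

theorem f176_1_0_T : FS ((176 : ℕ) / 200 : ℝ) ((0 : ℕ) / 1000 : ℝ) ((120 : ℕ) / 1000 : ℝ) f176_1_0 (kR [(nat_lit 200), (nat_lit 300), (nat_lit 450), (nat_lit 800)].reverse) 0 0 :=
  ftab_of_E RE.rowE_sound (by decide +kernel : ftOK (nat_lit 176) (nat_lit 0) (nat_lit 120) [(nat_lit 200), (nat_lit 300), (nat_lit 450), (nat_lit 800)] (nat_lit 1880) [((nat_lit 1), (nat_lit 1)), ((nat_lit 176), (nat_lit 200)), ((nat_lit 120), (nat_lit 1000)), ((nat_lit 200), (nat_lit 1000)), ((nat_lit 300), (nat_lit 1000)), ((nat_lit 450), (nat_lit 1000)), ((nat_lit 800), (nat_lit 1000))] [(nat_lit 1), (nat_lit 1)] (nat_lit 4) = true)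
  (FtP.trans (FtP.trans (FtP.trans (FtP.trans (FtP.trans (FtP.trans (FtP.trans (FtP.trans (FtP.trans (FtP.trans (FtP.trans (FtP.trans (FtP.trans (FtP.trans (FtP.trans (FtP.trans (FtP.trans (FtP.trans (FtP.trans (FtP.trans (FtP.trans (FtP.trans (FtP.trans (FtP.trans (FtP.trans (FtP.trans (FtP.trans (FtP.trans (FtP.trans (FtP.trans (FtP.trans (FtP.trans (FtP.trans (FtP.trans (FtP.trans (FtP.trans (FtP.trans (FtP.trans (FtP.trans (FtP.trans (FtP.trans (FtP.trans (FtP.trans (FtP.trans (FtP.trans (FtP.trans (FtP.trans (FtP.trans (FtP.trans (FtP.trans (FtP.trans (FtP.trans (FtP.trans (FtP.trans (FtP.trans (FtP.trans (FtP.trans (FtP.trans (FtP.trans (FtP.trans (FtP.trans (FtP.trans (FtP.trans (FtP.trans (FtP.trans (FtP.trans (FtP.trans (FtP.trans (FtP.trans (FtP.trans (FtP.trans (FtP.trans (FtP.trans (FtP.trans (FtP.trans (FtP.trans (FtP.trans (FtP.trans (FtP.trans (FtP.trans (FtP.trans (FtP.trans (FtP.trans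 (FtP.trans (FtP.trans (FtP.trans (FtP.trans (FtP.trans (FtP.trans (FtP.trans (FtP.trans (FtP.trans (FtP.trans (FtP.trans (FtP.trans (FtP.trans (FtP.trans (FtP.trans (FtP.trans (FtP.trans (ftC_sound f176_1_0_0) (ftC_sound f176_1_0_1)) (ftC_sound f176_1_0_2)) (ftC_sound f176_1_0_3))
 (ftC_sound f176_1_0_4)) (ftC_sound f176_1_0_5)) (ftC_sound f176_1_0_6)) (ftC_sound f176_1_0_7)) (ftC_sound f176_1_0_8)) (ftC_sound f176_1_0_9)) (ftC_sound f176_1_0_10)) (ftC_sound f176_1_0_11)) (ftC_sound f176_1_0_12)) (ftC_sound f176_1_0_13)) (ftC_sound f176_1_0_14)) (ftC_sound f176_1_0_15)) (ftC_sound f176_1_0_16)) (ftC_sound f176_1_0_17)) (ftC_sound f176_1_0_18)) (ftC_sound f176_1_0_19)) (ftC_sound f176_1_0_20)) (ftC_sound f176_1_0_21)) (ftC_sound f176_1_0_22)) (ftC_sound f176_1_0_23)) (ftC_sound f176_1_0_24)) (ftC_sound f176_1_0_25)) (ftC_sound f176_1_0_26)) (ftC_sound f176_1_0_27)) (ftC_sound f176_1_0_28)) (ftC_sound f176_1_0_29))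 (ftC_sound f176_1_0_30)) (ftC_sound f176_1_0_31)) (ftC_sound f176_1_0_32)) (ftC_sound f176_1_0_33)) (ftC_sound f176_1_0_34)) (ftC_sound f176_1_0_35)) (ftC_sound f176_1_0_36)) (ftC_sound f176_1_0_37)) (ftC_sound f176_1_0_38)) (ftC_sound f176_1_0_39)) (ftC_sound f176_1_0_40)) (ftC_sound f176_1_0_41)) (ftC_sound f176_1_0_42)) (ftC_sound f176_1_0_43)) (ftC_sound f176_1_0_44)) (ftC_sound f176_1_0_45)) (ftC_sound f176_1_0_46)) (ftC_sound f176_1_0_47)) (ftC_sound f176_1_0_48)) (ftC_sound f176_1_0_49)) (ftC_sound f176_1_0_50)) (ftC_sound f176_1_0_51))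
 (ftC_sound f176_1_0_52)) (ftC_sound f176_1_0_53)) (ftC_sound f176_1_0_54)) (ftC_sound f176_1_0_55)) (ftC_sound f176_1_0_56)) (ftC_sound f176_1_0_57)) (ftC_sound f176_1_0_58)) (ftC_sound f176_1_0_59)) (ftC_sound f176_1_0_60)) (ftC_sound f176_1_0_61)) (ftC_sound f176_1_0_62)) (ftC_sound f176_1_0_63)) (ftC_sound f176_1_0_64)) (ftC_sound f176_1_0_65)) (ftC_sound f176_1_0_66)) (ftC_sound f176_1_0_67)) (ftC_sound f176_1_0_68)) (ftC_sound f176_1_0_69)) (ftC_sound f176_1_0_70)) (ftC_sound f176_1_0_71)) (ftC_sound f176_1_0_72)) (ftC_sound f176_1_0_73)) (ftC_sound f176_1_0_74)) (ftC_sound f176_1_0_75)) (ftC_sound f176_1_0_76)) (ftC_sound f176_1_0_77)) (ftC_sound f176_1_0_78)) (ftC_sound f176_1_0_79)) (ftC_sound f176_1_0_80)) (ftC_sound f176_1_0_81)) (ftC_sound f176_1_0_82)) (ftC_sound f176_1_0_83)) (ftC_sound f176_1_0_84)) (ftC_sound f176_1_0_85)) (ftC_sound f176_1_0_86)) (ftC_sound f176_1_0_87)) (ftC_sound f176_1_0_88))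 (ftC_sound f176_1_0_89)) (ftC_sound f176_1_0_90)) (ftC_sound f176_1_0_91)) (ftC_sound f176_1_0_92)) (ftC_sound f176_1_0_93)) (ftC_sound f176_1_0_94)) (ftC_sound f176_1_0_95)) (ftC_sound f176_1_0_96)) (ftC_sound f176_1_0_97)) (ftC_sound f176_1_0_98)) (ftC_sound f176_1_0_99))
 (ftC_sound f176_1_0_100)) (by decide +kernel)

theorem f176_1_400_T : FS ((176 : ℕ) / 200 : ℝ) ((400 : ℕ) / 1000 : ℝ) ((120 : ℕ) / 1000 : ℝ) f176_1_400 (kR [(nat_lit 200), (nat_lit 300), (nat_lit 450), (nat_lit 800)].reverse) 0 0 :=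
  ftab_of_E RE.rowE_sound (by decide +kernel : ftOK (nat_lit 176) (nat_lit 400) (nat_lit 120) [(nat_lit 200), (nat_lit 300), (nat_lit 450), (nat_lit 800)] (nat_lit 2280) [((nat_lit 1), (nat_lit 1)), ((nat_lit 176), (nat_lit 200)), ((nat_lit 400), (nat_lit 1000)), ((nat_lit 120), (nat_lit 1000)), ((nat_lit 200), (nat_lit 1000)), ((nat_lit 300), (nat_lit 1000)), ((nat_lit 450), (nat_lit 1000)), ((nat_lit 800), (nat_lit 1000))] [(nat_lit 1), (nat_lit 1), (nat_lit 1)] (nat_lit 4) = true)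
  (FtP.trans (FtP.trans (FtP.trans (FtP.trans (FtP.trans (FtP.trans (FtP.trans (FtP.trans (FtP.trans (FtP.trans (FtP.trans (FtP.trans (FtP.trans (FtP.trans (FtP.trans (FtP.trans (FtP.trans (FtP.trans (FtP.trans (FtP.trans (FtP.trans (FtP.trans (FtP.trans (FtP.trans (FtP.trans (FtP.trans (FtP.trans (FtP.trans (FtP.trans (FtP.trans (FtP.trans (FtP.trans (FtP.trans (FtP.trans (FtP.trans (FtP.trans (FtP.trans (FtP.trans (FtP.trans (FtP.trans (FtP.trans (FtP.trans (FtP.trans (FtP.trans (FtP.trans (FtP.trans (FtP.trans (FtP.trans (FtP.trans (FtP.trans (FtP.trans (FtP.trans (FtP.trans (FtP.trans (FtP.trans (FtP.trans (FtP.trans (FtP.trans (FtP.trans (FtP.trans (FtP.trans (FtP.trans (FtP.trans (FtP.trans (FtP.trans (FtP.trans (FtP.trans (FtP.trans (FtP.trans (FtP.trans (FtP.trans (FtP.trans (FtP.trans (FtP.trans (FtP.trans (FtP.trans (FtP.trans (FtP.trans (FtP.trans (FtP.trans (FtP.trans (FtP.trans (FtP.trans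 (FtP.trans (FtP.trans (FtP.trans (FtP.trans (FtP.trans (FtP.trans (FtP.trans (FtP.trans (FtP.trans (FtP.trans (FtP.trans (FtP.trans (FtP.trans (FtP.trans (FtP.trans (FtP.trans (FtP.trans (ftC_sound f176_1_400_0) (ftC_sound f176_1_400_1)) (ftC_sound f176_1_400_2)) (ftC_sound
 f176_1_400_3)) (ftC_sound f176_1_400_4)) (ftC_sound f176_1_400_5)) (ftC_sound f176_1_400_6)) (ftC_sound f176_1_400_7)) (ftC_sound f176_1_400_8)) (ftC_sound f176_1_400_9)) (ftC_sound f176_1_400_10)) (ftC_sound f176_1_400_11)) (ftC_sound f176_1_400_12)) (ftC_sound f176_1_400_13)) (ftC_sound f176_1_400_14)) (ftC_sound f176_1_400_15)) (ftC_sound f176_1_400_16)) (ftC_sound f176_1_400_17)) (ftC_sound f176_1_400_18)) (ftC_sound f176_1_400_19)) (ftC_sound f176_1_400_20)) (ftC_sound f176_1_400_21)) (ftC_sound f176_1_400_22)) (ftC_sound f176_1_400_23)) (ftC_sound f176_1_400_24)) (ftC_sound f176_1_400_25)) (ftC_sound f176_1_400_26)) (ftC_sound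 f176_1_400_27)) (ftC_sound f176_1_400_28)) (ftC_sound f176_1_400_29)) (ftC_sound f176_1_400_30)) (ftC_sound f176_1_400_31)) (ftC_sound f176_1_400_32)) (ftC_sound f176_1_400_33)) (ftC_sound f176_1_400_34)) (ftC_sound f176_1_400_35)) (ftC_sound f176_1_400_36)) (ftC_sound f176_1_400_37)) (ftC_sound f176_1_400_38)) (ftC_sound f176_1_400_39)) (ftC_sound f176_1_400_40)) (ftC_sound f176_1_400_41)) (ftC_sound f176_1_400_42)) (ftC_sound f176_1_400_43)) (ftC_sound f176_1_400_44)) (ftC_sound f176_1_400_45)) (ftC_sound f176_1_400_46)) (ftC_sound f176_1_400_47))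
 (ftC_sound f176_1_400_48)) (ftC_sound f176_1_400_49)) (ftC_sound f176_1_400_50)) (ftC_sound f176_1_400_51)) (ftC_sound f176_1_400_52)) (ftC_sound f176_1_400_53)) (ftC_sound f176_1_400_54)) (ftC_sound f176_1_400_55)) (ftC_sound f176_1_400_56)) (ftC_sound f176_1_400_57)) (ftC_sound f176_1_400_58)) (ftC_sound f176_1_400_59)) (ftC_sound f176_1_400_60)) (ftC_sound f176_1_400_61)) (ftC_sound f176_1_400_62)) (ftC_sound f176_1_400_63)) (ftC_sound f176_1_400_64)) (ftC_sound f176_1_400_65)) (ftC_sound f176_1_400_66)) (ftC_sound f176_1_400_67)) (ftC_sound f176_1_400_68)) (ftC_sound f176_1_400_69)) (ftC_sound f176_1_400_70)) (ftC_sound f176_1_400_71)) (ftC_sound f176_1_400_72)) (ftC_sound f176_1_400_73)) (ftC_sound f176_1_400_74)) (ftC_sound f176_1_400_75)) (ftC_sound f176_1_400_76)) (ftC_sound f176_1_400_77)) (ftC_sound f176_1_400_78)) (ftC_sound f176_1_400_79)) (ftC_sound f176_1_400_80)) (ftC_sound f176_1_400_81))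 (ftC_sound f176_1_400_82)) (ftC_sound f176_1_400_83)) (ftC_sound f176_1_400_84)) (ftC_sound f176_1_400_85)) (ftC_sound f176_1_400_86)) (ftC_sound f176_1_400_87)) (ftC_sound f176_1_400_88)) (ftC_sound f176_1_400_89)) (ftC_sound f176_1_400_90)) (ftC_sound f176_1_400_91)) (ftC_sound
 f176_1_400_92)) (ftC_sound f176_1_400_93)) (ftC_sound f176_1_400_94)) (ftC_sound f176_1_400_95)) (ftC_sound f176_1_400_96)) (ftC_sound f176_1_400_97)) (ftC_sound f176_1_400_98)) (ftC_sound f176_1_400_99)) (ftC_sound f176_1_400_100)) (by decide +kernel)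

theorem f176_1_600_T : FS ((176 : ℕ) / 200 : ℝ) ((600 : ℕ) / 1000 : ℝ) ((120 : ℕ) / 1000 : ℝ) f176_1_600 (kR [(nat_lit 200), (nat_lit 300), (nat_lit 450), (nat_lit 800)].reverse) 0 0 :=
  ftab_of_E RE.rowE_sound (by decide +kernel : ftOK (nat_lit 176) (nat_lit 600) (nat_lit 120) [(nat_lit 200), (nat_lit 300), (nat_lit 450), (nat_lit 800)] (nat_lit 2480) [((nat_lit 1), (nat_lit 1)), ((nat_lit 176), (nat_lit 200)), ((nat_lit 600), (nat_lit 1000)), ((nat_lit 120), (nat_lit 1000)), ((nat_lit 200), (nat_lit 1000)), ((nat_lit 300), (nat_lit 1000)), ((nat_lit 450), (nat_lit 1000)), ((nat_lit 800), (nat_lit 1000))] [(nat_lit 1), (nat_lit 1), (nat_lit 1)] (nat_lit 4) = true)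
  (FtP.trans (FtP.trans (FtP.trans (FtP.trans (FtP.trans (FtP.trans (FtP.trans (FtP.trans (FtP.trans (FtP.trans (FtP.trans (FtP.trans (FtP.trans (FtP.trans (FtP.trans (FtP.trans (FtP.trans (FtP.trans (FtP.trans (FtP.trans (FtP.trans (FtP.trans (FtP.trans (FtP.trans (FtP.trans (FtP.trans (FtP.trans (FtP.trans (FtP.trans (FtP.trans (FtP.trans (FtP.trans (FtP.trans (FtP.trans (FtP.trans (FtP.trans (FtP.trans (FtP.trans (FtP.trans (FtP.trans (FtP.trans (FtP.trans (FtP.trans (FtP.trans (FtP.trans (FtP.trans (FtP.trans (FtP.trans (FtP.trans (FtP.trans (FtP.trans (FtP.trans (FtP.trans (ftC_sound f176_1_600_0) (ftC_sound f176_1_600_1)) (ftC_sound f176_1_600_2)) (ftC_sound f176_1_600_3)) (ftC_sound f176_1_600_4)) (ftC_sound f176_1_600_5)) (ftC_sound f176_1_600_6)) (ftC_sound f176_1_600_7)) (ftC_sound f176_1_600_8)) (ftC_sound f176_1_600_9)) (ftC_sound f176_1_600_10)) (ftC_sound f176_1_600_11)) (ftC_sound f176_1_600_12))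 (ftC_sound f176_1_600_13)) (ftC_sound f176_1_600_14)) (ftC_sound f176_1_600_15)) (ftC_sound f176_1_600_16)) (ftC_sound f176_1_600_17)) (ftC_sound f176_1_600_18)) (ftC_sound f176_1_600_19)) (ftC_sound f176_1_600_20)) (ftC_sound f176_1_600_21)) (ftC_sound f176_1_600_22))
 (ftC_sound f176_1_600_23)) (ftC_sound f176_1_600_24)) (ftC_sound f176_1_600_25)) (ftC_sound f176_1_600_26)) (ftC_sound f176_1_600_27)) (ftC_sound f176_1_600_28)) (ftC_sound f176_1_600_29)) (ftC_sound f176_1_600_30)) (ftC_sound f176_1_600_31)) (ftC_sound f176_1_600_32)) (ftC_sound f176_1_600_33)) (ftC_sound f176_1_600_34)) (ftC_sound f176_1_600_35)) (ftC_sound f176_1_600_36)) (ftC_sound f176_1_600_37)) (ftC_sound f176_1_600_38)) (ftC_sound f176_1_600_39)) (ftC_sound f176_1_600_40)) (ftC_sound f176_1_600_41)) (ftC_sound f176_1_600_42)) (ftC_sound f176_1_600_43)) (ftC_sound f176_1_600_44)) (ftC_sound f176_1_600_45)) (ftC_sound f176_1_600_46))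 (ftC_sound f176_1_600_47)) (ftC_sound f176_1_600_48)) (ftC_sound f176_1_600_49)) (ftC_sound f176_1_600_50)) (ftC_sound f176_1_600_51)) (ftC_sound f176_1_600_52)) (ftC_sound f176_1_600_53)) (by decide +kernel)

theorem f176_1_750_T : FS ((176 : ℕ) / 200 : ℝ) ((750 : ℕ) / 1000 : ℝ) ((120 : ℕ) / 1000 : ℝ) f176_1_750 (kR [(nat_lit 200), (nat_lit 300), (nat_lit 450), (nat_lit 800)].reverse) 0 0 :=
  ftab_of_E RE.rowE_sound (by decide +kernel : ftOK (nat_lit 176) (nat_lit 750) (nat_lit 120) [(nat_lit 200), (nat_lit 300), (nat_lit 450), (nat_lit 800)] (nat_lit 2630) [((nat_lit 1), (nat_lit 1)), ((nat_lit 176), (nat_lit 200)), ((nat_lit 750), (nat_lit 1000)), ((nat_lit 120), (nat_lit 1000)), ((nat_lit 200), (nat_lit 1000)), ((nat_lit 300), (nat_lit 1000)), ((nat_lit 450), (nat_lit 1000)), ((nat_lit 800), (nat_lit 1000))] [(nat_lit 1), (nat_lit 1), (nat_lit 1)] (nat_lit 4) = true)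
  (FtP.trans (FtP.trans (FtP.trans (FtP.trans (FtP.trans (FtP.trans (FtP.trans (FtP.trans (FtP.trans (FtP.trans (FtP.trans (FtP.trans (FtP.trans (FtP.trans (FtP.trans (FtP.trans (FtP.trans (FtP.trans (FtP.trans (FtP.trans (FtP.trans (FtP.trans (FtP.trans (FtP.trans (FtP.trans (FtP.trans (FtP.trans (FtP.trans (FtP.trans (FtP.trans (FtP.trans (FtP.trans (FtP.trans (FtP.trans (FtP.trans (FtP.trans (FtP.trans (FtP.trans (FtP.trans (FtP.trans (FtP.trans (FtP.trans (FtP.trans (FtP.trans (FtP.trans (FtP.trans (FtP.trans (FtP.trans (FtP.trans (FtP.trans (FtP.trans (FtP.trans (FtP.trans (FtP.trans (ftC_sound f176_1_750_0) (ftC_sound f176_1_750_1)) (ftC_sound f176_1_750_2)) (ftC_sound f176_1_750_3)) (ftC_sound f176_1_750_4)) (ftC_sound f176_1_750_5)) (ftC_sound f176_1_750_6)) (ftC_sound f176_1_750_7)) (ftC_sound f176_1_750_8)) (ftC_sound f176_1_750_9)) (ftC_sound f176_1_750_10)) (ftC_sound f176_1_750_11)) (ftC_sound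 f176_1_750_12)) (ftC_sound f176_1_750_13)) (ftC_sound f176_1_750_14)) (ftC_sound f176_1_750_15)) (ftC_sound f176_1_750_16)) (ftC_sound f176_1_750_17)) (ftC_sound f176_1_750_18)) (ftC_sound f176_1_750_19)) (ftC_sound f176_1_750_20)) (ftC_sound f176_1_750_21)) (ftC_sound
 f176_1_750_22)) (ftC_sound f176_1_750_23)) (ftC_sound f176_1_750_24)) (ftC_sound f176_1_750_25)) (ftC_sound f176_1_750_26)) (ftC_sound f176_1_750_27)) (ftC_sound f176_1_750_28)) (ftC_sound f176_1_750_29)) (ftC_sound f176_1_750_30)) (ftC_sound f176_1_750_31)) (ftC_sound f176_1_750_32)) (ftC_sound f176_1_750_33)) (ftC_sound f176_1_750_34)) (ftC_sound f176_1_750_35)) (ftC_sound f176_1_750_36)) (ftC_sound f176_1_750_37)) (ftC_sound f176_1_750_38)) (ftC_sound f176_1_750_39)) (ftC_sound f176_1_750_40)) (ftC_sound f176_1_750_41)) (ftC_sound f176_1_750_42)) (ftC_sound f176_1_750_43)) (ftC_sound f176_1_750_44)) (ftC_sound f176_1_750_45)) (ftC_sound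 f176_1_750_46)) (ftC_sound f176_1_750_47)) (ftC_sound f176_1_750_48)) (ftC_sound f176_1_750_49)) (ftC_sound f176_1_750_50)) (ftC_sound f176_1_750_51)) (ftC_sound f176_1_750_52)) (ftC_sound f176_1_750_53)) (ftC_sound f176_1_750_54)) (by decide +kernel)

theorem f176_1_770_T : FS ((176 : ℕ) / 200 : ℝ) ((770 : ℕ) / 1000 : ℝ) ((120 : ℕ) / 1000 : ℝ) f176_1_770 (kR [(nat_lit 200), (nat_lit 300), (nat_lit 450), (nat_lit 800)].reverse) 0 0 :=
  ftab_of_E RE.rowE_sound (by decide +kernel : ftOK (nat_lit 176) (nat_lit 770) (nat_lit 120) [(nat_lit 200), (nat_lit 300), (nat_lit 450), (nat_lit 800)] (nat_lit 2650) [((nat_lit 1), (nat_lit 1)), ((nat_lit 176), (nat_lit 200)), ((nat_lit 770), (nat_lit 1000)), ((nat_lit 120), (nat_lit 1000)), ((nat_lit 200), (nat_lit 1000)), ((nat_lit 300), (nat_lit 1000)), ((nat_lit 450), (nat_lit 1000)), ((nat_lit 800), (nat_lit 1000))] [(nat_lit 1), (nat_lit 1), (nat_lit 1)] (nat_lit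 4) = true)
  (FtP.trans (FtP.trans (FtP.trans (FtP.trans (FtP.trans (FtP.trans (FtP.trans (FtP.trans (FtP.trans (FtP.trans (FtP.trans (FtP.trans (FtP.trans (FtP.trans (FtP.trans (FtP.trans (FtP.trans (FtP.trans (FtP.trans (FtP.trans (FtP.trans (FtP.trans (FtP.trans (FtP.trans (FtP.trans (FtP.trans (FtP.trans (FtP.trans (FtP.trans (FtP.trans (FtP.trans (FtP.trans (FtP.trans (FtP.trans (FtP.trans (FtP.trans (FtP.trans (FtP.trans (FtP.trans (FtP.trans (FtP.trans (FtP.trans (FtP.trans (FtP.trans (FtP.trans (FtP.trans (FtP.trans (FtP.trans (FtP.trans (ftC_sound f176_1_770_0) (ftC_sound f176_1_770_1)) (ftC_sound f176_1_770_2)) (ftC_sound f176_1_770_3)) (ftC_sound f176_1_770_4)) (ftC_sound f176_1_770_5)) (ftC_sound f176_1_770_6)) (ftC_sound f176_1_770_7)) (ftC_sound f176_1_770_8)) (ftC_sound f176_1_770_9)) (ftC_sound f176_1_770_10)) (ftC_sound f176_1_770_11)) (ftC_sound f176_1_770_12)) (ftC_sound f176_1_770_13))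 (ftC_sound f176_1_770_14)) (ftC_sound f176_1_770_15)) (ftC_sound f176_1_770_16)) (ftC_sound f176_1_770_17)) (ftC_sound f176_1_770_18)) (ftC_sound f176_1_770_19)) (ftC_sound f176_1_770_20)) (ftC_sound f176_1_770_21)) (ftC_sound f176_1_770_22)) (ftC_sound f176_1_770_23)) (ftC_sound
 f176_1_770_24)) (ftC_sound f176_1_770_25)) (ftC_sound f176_1_770_26)) (ftC_sound f176_1_770_27)) (ftC_sound f176_1_770_28)) (ftC_sound f176_1_770_29)) (ftC_sound f176_1_770_30)) (ftC_sound f176_1_770_31)) (ftC_sound f176_1_770_32)) (ftC_sound f176_1_770_33)) (ftC_sound f176_1_770_34)) (ftC_sound f176_1_770_35)) (ftC_sound f176_1_770_36)) (ftC_sound f176_1_770_37)) (ftC_sound f176_1_770_38)) (ftC_sound f176_1_770_39)) (ftC_sound f176_1_770_40)) (ftC_sound f176_1_770_41)) (ftC_sound f176_1_770_42)) (ftC_sound f176_1_770_43)) (ftC_sound f176_1_770_44)) (ftC_sound f176_1_770_45)) (ftC_sound f176_1_770_46)) (ftC_sound f176_1_770_47))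 (ftC_sound f176_1_770_48)) (ftC_sound f176_1_770_49)) (by decide +kernel)

theorem f176_1_792_T : FS ((176 : ℕ) / 200 : ℝ) ((792 : ℕ) / 1000 : ℝ) ((120 : ℕ) / 1000 : ℝ) f176_1_792 (kR [(nat_lit 200), (nat_lit 300), (nat_lit 450), (nat_lit 800)].reverse) 0 0 :=
  ftab_of_E RE.rowE_sound (by decide +kernel : ftOK (nat_lit 176) (nat_lit 792) (nat_lit 120) [(nat_lit 200), (nat_lit 300), (nat_lit 450), (nat_lit 800)] (nat_lit 2672) [((nat_lit 1), (nat_lit 1)), ((nat_lit 176), (nat_lit 200)), ((nat_lit 792), (nat_lit 1000)), ((nat_lit 120), (nat_lit 1000)), ((nat_lit 200), (nat_lit 1000)), ((nat_lit 300), (nat_lit 1000)), ((nat_lit 450), (nat_lit 1000)), ((nat_lit 800), (nat_lit 1000))] [(nat_lit 1), (nat_lit 1), (nat_lit 1)] (nat_lit 4) = true)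
  (FtP.trans (FtP.trans (FtP.trans (FtP.trans (FtP.trans (FtP.trans (FtP.trans (FtP.trans (FtP.trans (FtP.trans (FtP.trans (FtP.trans (FtP.trans (FtP.trans (FtP.trans (FtP.trans (FtP.trans (FtP.trans (FtP.trans (FtP.trans (FtP.trans (FtP.trans (FtP.trans (FtP.trans (FtP.trans (FtP.trans (FtP.trans (FtP.trans (FtP.trans (FtP.trans (FtP.trans (FtP.trans (FtP.trans (FtP.trans (FtP.trans (FtP.trans (FtP.trans (FtP.trans (FtP.trans (FtP.trans (FtP.trans (FtP.trans (FtP.trans (FtP.trans (FtP.trans (FtP.trans (FtP.trans (FtP.trans (FtP.trans (FtP.trans (FtP.trans (FtP.trans (FtP.trans (FtP.trans (ftC_sound f176_1_792_0) (ftC_sound f176_1_792_1)) (ftC_sound f176_1_792_2)) (ftC_sound f176_1_792_3)) (ftC_sound f176_1_792_4)) (ftC_sound f176_1_792_5)) (ftC_sound f176_1_792_6)) (ftC_sound f176_1_792_7)) (ftC_sound f176_1_792_8)) (ftC_sound f176_1_792_9)) (ftC_sound f176_1_792_10)) (ftC_sound f176_1_792_11)) (ftC_sound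 f176_1_792_12)) (ftC_sound f176_1_792_13)) (ftC_sound f176_1_792_14)) (ftC_sound f176_1_792_15)) (ftC_sound f176_1_792_16)) (ftC_sound f176_1_792_17)) (ftC_sound f176_1_792_18)) (ftC_sound f176_1_792_19)) (ftC_sound f176_1_792_20)) (ftC_sound f176_1_792_21)) (ftC_sound
 f176_1_792_22)) (ftC_sound f176_1_792_23)) (ftC_sound f176_1_792_24)) (ftC_sound f176_1_792_25)) (ftC_sound f176_1_792_26)) (ftC_sound f176_1_792_27)) (ftC_sound f176_1_792_28)) (ftC_sound f176_1_792_29)) (ftC_sound f176_1_792_30)) (ftC_sound f176_1_792_31)) (ftC_sound f176_1_792_32)) (ftC_sound f176_1_792_33)) (ftC_sound f176_1_792_34)) (ftC_sound f176_1_792_35)) (ftC_sound f176_1_792_36)) (ftC_sound f176_1_792_37)) (ftC_sound f176_1_792_38)) (ftC_sound f176_1_792_39)) (ftC_sound f176_1_792_40)) (ftC_sound f176_1_792_41)) (ftC_sound f176_1_792_42)) (ftC_sound f176_1_792_43)) (ftC_sound f176_1_792_44)) (ftC_sound f176_1_792_45)) (ftC_sound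 f176_1_792_46)) (ftC_sound f176_1_792_47)) (ftC_sound f176_1_792_48)) (ftC_sound f176_1_792_49)) (ftC_sound f176_1_792_50)) (ftC_sound f176_1_792_51)) (ftC_sound f176_1_792_52)) (ftC_sound f176_1_792_53)) (ftC_sound f176_1_792_54)) (by decide +kernel)

theorem i12_0_0 : IvP yB12_0 (nat_lit 0) :=
  iv_sound par12_0 z12_0_0 rfl (by decide +kernel) f104_1_0_T f112_1_0_T f104_1_400_T f112_1_400_T p12_0_0_T v12_0_0 g12_0_0

theorem i12_0_1 : IvP yB12_0 (nat_lit 1) :=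
  iv_sound par12_0 z12_0_1 rfl (by decide +kernel) f104_1_400_T f112_1_400_T f104_1_600_T f112_1_600_T p12_0_1_T v12_0_1 g12_0_1

theorem i12_0_2 : IvP yB12_0 (nat_lit 2) :=
  iv_sound par12_0 z12_0_2 rfl (by decide +kernel) f104_1_600_T f112_1_600_T f104_1_750_T f112_1_750_T p12_0_2_T v12_0_2 g12_0_2

theorem i12_0_3 : IvP yB12_0 (nat_lit 3) :=
  iv_sound par12_0 z12_0_3 rfl (by decide +kernel) f104_1_750_T f112_1_750_T f104_1_986_T f112_1_986_T p12_0_3_T v12_0_3 g12_0_3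

theorem III_12_0 : PropIIIB yB12_0 := III_of par12_0 (n := 3) rfl ⟨⟨⟨⟨trivial, i12_0_0⟩, i12_0_1⟩, i12_0_2⟩, i12_0_3⟩

theorem i12_1_0 : IvP yB12_1 (nat_lit 0) :=
  iv_sound par12_1 z12_1_0 rfl (by decide +kernel) f112_1_0_T f120_1_0_T f112_1_400_T f120_1_400_T p12_1_0_T v12_1_0 g12_1_0

theorem i12_1_1 : IvP yB12_1 (nat_lit 1) :=
  iv_sound par12_1 z12_1_1 rfl (by decide +kernel) f112_1_400_T f120_1_400_T f112_1_600_T f120_1_600_T p12_1_1_T v12_1_1 g12_1_1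

theorem i12_1_2 : IvP yB12_1 (nat_lit 2) :=
  iv_sound par12_1 z12_1_2 rfl (by decide +kernel) f112_1_600_T f120_1_600_T f112_1_750_T f120_1_750_T p12_1_2_T v12_1_2 g12_1_2

theorem i12_1_3 : IvP yB12_1 (nat_lit 3) :=
  iv_sound par12_1 z12_1_3 rfl (by decide +kernel) f112_1_750_T f120_1_750_T f112_1_975_T f120_1_975_T p12_1_3_T v12_1_3 g12_1_3

theorem III_12_1 : PropIIIB yB12_1 := III_of par12_1 (n := 3) rfl ⟨⟨⟨⟨trivial, i12_1_0⟩, i12_1_1⟩, i12_1_2⟩, i12_1_3⟩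

theorem i12_2_0 : IvP yB12_2 (nat_lit 0) :=
  iv_sound par12_2 z12_2_0 rfl (by decide +kernel) f112_1_0_T f120_1_0_T f112_1_400_T f120_1_400_T p12_2_0_T v12_2_0 g12_2_0

theorem i12_2_1 : IvP yB12_2 (nat_lit 1) :=
  iv_sound par12_2 z12_2_1 rfl (by decide +kernel) f112_1_400_T f120_1_400_T f112_1_600_T f120_1_600_T p12_2_1_T v12_2_1 g12_2_1

theorem i12_2_2 : IvP yB12_2 (nat_lit 2) :=
  iv_sound par12_2 z12_2_2 rfl (by decide +kernel) f112_1_600_T f120_1_600_T f112_1_750_T f120_1_750_T p12_2_2_T v12_2_2 g12_2_2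

theorem i12_2_3 : IvP yB12_2 (nat_lit 3) :=
  iv_sound par12_2 z12_2_3 rfl (by decide +kernel) f112_1_750_T f120_1_750_T f112_1_975_T f120_1_975_T p12_2_3_T v12_2_3 g12_2_3

theorem III_12_2 : PropIIIB yB12_2 := III_of par12_2 (n := 3) rfl ⟨⟨⟨⟨trivial, i12_2_0⟩, i12_2_1⟩, i12_2_2⟩, i12_2_3⟩

theorem i12_3_0 : IvP yB12_3 (nat_lit 0) :=
  iv_sound par12_3 z12_3_0 rfl (by decide +kernel) f120_1_0_T f128_1_0_T f120_1_400_T f128_1_400_T p12_3_0_T v12_3_0 g12_3_0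

theorem i12_3_1 : IvP yB12_3 (nat_lit 1) :=
  iv_sound par12_3 z12_3_1 rfl (by decide +kernel) f120_1_400_T f128_1_400_T f120_1_600_T f128_1_600_T p12_3_1_T v12_3_1 g12_3_1

theorem i12_3_2 : IvP yB12_3 (nat_lit 2) :=
  iv_sound par12_3 z12_3_2 rfl (by decide +kernel) f120_1_600_T f128_1_600_T f120_1_750_T f128_1_750_T p12_3_2_T v12_3_2 g12_3_2

theorem i12_3_3 : IvP yB12_3 (nat_lit 3) :=
  iv_sound par12_3 z12_3_3 rfl (by decide +kernel) f120_1_750_T f128_1_750_T f120_1_960_T f128_1_960_T p12_3_3_T v12_3_3 g12_3_3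

theorem III_12_3 : PropIIIB yB12_3 := III_of par12_3 (n := 3) rfl ⟨⟨⟨⟨trivial, i12_3_0⟩, i12_3_1⟩, i12_3_2⟩, i12_3_3⟩

theorem i12_4_0 : IvP yB12_4 (nat_lit 0) :=
  iv_sound par12_4 z12_4_0 rfl (by decide +kernel) f120_1_0_T f128_1_0_T f120_1_400_T f128_1_400_T p12_4_0_T v12_4_0 g12_4_0

theorem i12_4_1 : IvP yB12_4 (nat_lit 1) :=
  iv_sound par12_4 z12_4_1 rfl (by decide +kernel) f120_1_400_T f128_1_400_T f120_1_600_T f128_1_600_T p12_4_1_T v12_4_1 g12_4_1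

theorem i12_4_2 : IvP yB12_4 (nat_lit 2) :=
  iv_sound par12_4 z12_4_2 rfl (by decide +kernel) f120_1_600_T f128_1_600_T f120_1_750_T f128_1_750_T p12_4_2_T v12_4_2 g12_4_2

theorem i12_4_3 : IvP yB12_4 (nat_lit 3) :=
  iv_sound par12_4 z12_4_3 rfl (by decide +kernel) f120_1_750_T f128_1_750_T f120_1_960_T f128_1_960_T p12_4_3_T v12_4_3 g12_4_3

theorem III_12_4 : PropIIIB yB12_4 := III_of par12_4 (n := 3) rfl ⟨⟨⟨⟨trivial, i12_4_0⟩, i12_4_1⟩, i12_4_2⟩, i12_4_3⟩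

theorem i12_5_0 : IvP yB12_5 (nat_lit 0) :=
  iv_sound par12_5 z12_5_0 rfl (by decide +kernel) f128_1_0_T f136_1_0_T f128_1_400_T f136_1_400_T p12_5_0_T v12_5_0 g12_5_0

theorem i12_5_1 : IvP yB12_5 (nat_lit 1) :=
  iv_sound par12_5 z12_5_1 rfl (by decide +kernel) f128_1_400_T f136_1_400_T f128_1_600_T f136_1_600_T p12_5_1_T v12_5_1 g12_5_1

theorem i12_5_2 : IvP yB12_5 (nat_lit 2) :=
  iv_sound par12_5 z12_5_2 rfl (by decide +kernel) f128_1_600_T f136_1_600_T f128_1_750_T f136_1_750_T p12_5_2_T v12_5_2 g12_5_2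

theorem i12_5_3 : IvP yB12_5 (nat_lit 3) :=
  iv_sound par12_5 z12_5_3 rfl (by decide +kernel) f128_1_750_T f136_1_750_T f128_1_943_T f136_1_943_T p12_5_3_T v12_5_3 g12_5_3

theorem III_12_5 : PropIIIB yB12_5 := III_of par12_5 (n := 3) rfl ⟨⟨⟨⟨trivial, i12_5_0⟩, i12_5_1⟩, i12_5_2⟩, i12_5_3⟩

theorem i12_6_0 : IvP yB12_6 (nat_lit 0) :=
  iv_sound par12_6 z12_6_0 rfl (by decide +kernel) f128_1_0_T f136_1_0_T f128_1_400_T f136_1_400_T p12_6_0_T v12_6_0 g12_6_0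

theorem i12_6_1 : IvP yB12_6 (nat_lit 1) :=
  iv_sound par12_6 z12_6_1 rfl (by decide +kernel) f128_1_400_T f136_1_400_T f128_1_600_T f136_1_600_T p12_6_1_T v12_6_1 g12_6_1

theorem i12_6_2 : IvP yB12_6 (nat_lit 2) :=
  iv_sound par12_6 z12_6_2 rfl (by decide +kernel) f128_1_600_T f136_1_600_T f128_1_750_T f136_1_750_T p12_6_2_T v12_6_2 g12_6_2

theorem i12_6_3 : IvP yB12_6 (nat_lit 3) :=
  iv_sound par12_6 z12_6_3 rfl (by decide +kernel) f128_1_750_T f136_1_750_T f128_1_943_T f136_1_943_T p12_6_3_T v12_6_3 g12_6_3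

theorem III_12_6 : PropIIIB yB12_6 := III_of par12_6 (n := 3) rfl ⟨⟨⟨⟨trivial, i12_6_0⟩, i12_6_1⟩, i12_6_2⟩, i12_6_3⟩

theorem i12_7_0 : IvP yB12_7 (nat_lit 0) :=
  iv_sound par12_7 z12_7_0 rfl (by decide +kernel) f136_1_0_T f144_1_0_T f136_1_400_T f144_1_400_T p12_7_0_T v12_7_0 g12_7_0

theorem i12_7_1 : IvP yB12_7 (nat_lit 1) :=
  iv_sound par12_7 z12_7_1 rfl (by decide +kernel) f136_1_400_T f144_1_400_T f136_1_600_T f144_1_600_T p12_7_1_T v12_7_1 g12_7_1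

theorem i12_7_2 : IvP yB12_7 (nat_lit 2) :=
  iv_sound par12_7 z12_7_2 rfl (by decide +kernel) f136_1_600_T f144_1_600_T f136_1_750_T f144_1_750_T p12_7_2_T v12_7_2 g12_7_2

theorem i12_7_3 : IvP yB12_7 (nat_lit 3) :=
  iv_sound par12_7 z12_7_3 rfl (by decide +kernel) f136_1_750_T f144_1_750_T f136_1_922_T f144_1_922_T p12_7_3_T v12_7_3 g12_7_3

theorem III_12_7 : PropIIIB yB12_7 := III_of par12_7 (n := 3) rfl ⟨⟨⟨⟨trivial, i12_7_0⟩, i12_7_1⟩, i12_7_2⟩, i12_7_3⟩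

theorem i12_8_0 : IvP yB12_8 (nat_lit 0) :=
  iv_sound par12_8 z12_8_0 rfl (by decide +kernel) f136_1_0_T f144_1_0_T f136_1_400_T f144_1_400_T p12_8_0_T v12_8_0 g12_8_0

theorem i12_8_1 : IvP yB12_8 (nat_lit 1) :=
  iv_sound par12_8 z12_8_1 rfl (by decide +kernel) f136_1_400_T f144_1_400_T f136_1_600_T f144_1_600_T p12_8_1_T v12_8_1 g12_8_1

theorem i12_8_2 : IvP yB12_8 (nat_lit 2) :=
  iv_sound par12_8 z12_8_2 rfl (by decide +kernel) f136_1_600_T f144_1_600_T f136_1_750_T f144_1_750_T p12_8_2_T v12_8_2 g12_8_2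

theorem i12_8_3 : IvP yB12_8 (nat_lit 3) :=
  iv_sound par12_8 z12_8_3 rfl (by decide +kernel) f136_1_750_T f144_1_750_T f136_1_922_T f144_1_922_T p12_8_3_T v12_8_3 g12_8_3

theorem III_12_8 : PropIIIB yB12_8 := III_of par12_8 (n := 3) rfl ⟨⟨⟨⟨trivial, i12_8_0⟩, i12_8_1⟩, i12_8_2⟩, i12_8_3⟩

theorem i12_9_0 : IvP yB12_9 (nat_lit 0) :=
  iv_sound par12_9 z12_9_0 rfl (by decide +kernel) f144_1_0_T f152_1_0_T f144_1_400_T f152_1_400_T p12_9_0_T v12_9_0 g12_9_0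

theorem i12_9_1 : IvP yB12_9 (nat_lit 1) :=
  iv_sound par12_9 z12_9_1 rfl (by decide +kernel) f144_1_400_T f152_1_400_T f144_1_600_T f152_1_600_T p12_9_1_T v12_9_1 g12_9_1

theorem i12_9_2 : IvP yB12_9 (nat_lit 2) :=
  iv_sound par12_9 z12_9_2 rfl (by decide +kernel) f144_1_600_T f152_1_600_T f144_1_750_T f152_1_750_T p12_9_2_T v12_9_2 g12_9_2

theorem i12_9_3 : IvP yB12_9 (nat_lit 3) :=
  iv_sound par12_9 z12_9_3 rfl (by decide +kernel) f144_1_750_T f152_1_750_T f144_1_896_T f152_1_896_T p12_9_3_T v12_9_3 g12_9_3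

theorem III_12_9 : PropIIIB yB12_9 := III_of par12_9 (n := 3) rfl ⟨⟨⟨⟨trivial, i12_9_0⟩, i12_9_1⟩, i12_9_2⟩, i12_9_3⟩

theorem i12_10_0 : IvP yB12_10 (nat_lit 0) :=
  iv_sound par12_10 z12_10_0 rfl (by decide +kernel) f144_1_0_T f152_1_0_T f144_1_400_T f152_1_400_T p12_10_0_T v12_10_0 g12_10_0

theorem i12_10_1 : IvP yB12_10 (nat_lit 1) :=
  iv_sound par12_10 z12_10_1 rfl (by decide +kernel) f144_1_400_T f152_1_400_T f144_1_600_T f152_1_600_T p12_10_1_T v12_10_1 g12_10_1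

theorem i12_10_2 : IvP yB12_10 (nat_lit 2) :=
  iv_sound par12_10 z12_10_2 rfl (by decide +kernel) f144_1_600_T f152_1_600_T f144_1_750_T f152_1_750_T p12_10_2_T v12_10_2 g12_10_2

theorem i12_10_3 : IvP yB12_10 (nat_lit 3) :=
  iv_sound par12_10 z12_10_3 rfl (by decide +kernel) f144_1_750_T f152_1_750_T f144_1_896_T f152_1_896_T p12_10_3_T v12_10_3 g12_10_3

theorem III_12_10 : PropIIIB yB12_10 := III_of par12_10 (n := 3) rfl ⟨⟨⟨⟨trivial, i12_10_0⟩, i12_10_1⟩, i12_10_2⟩, i12_10_3⟩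

theorem i12_11_0 : IvP yB12_11 (nat_lit 0) :=
  iv_sound par12_11 z12_11_0 rfl (by decide +kernel) f152_1_0_T f160_1_0_T f152_1_400_T f160_1_400_T p12_11_0_T v12_11_0 g12_11_0

theorem i12_11_1 : IvP yB12_11 (nat_lit 1) :=
  iv_sound par12_11 z12_11_1 rfl (by decide +kernel) f152_1_400_T f160_1_400_T f152_1_600_T f160_1_600_T p12_11_1_T v12_11_1 g12_11_1

theorem i12_11_2 : IvP yB12_11 (nat_lit 2) :=
  iv_sound par12_11 z12_11_2 rfl (by decide +kernel) f152_1_600_T f160_1_600_T f152_1_750_T f160_1_750_T p12_11_2_T v12_11_2 g12_11_2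

theorem i12_11_3 : IvP yB12_11 (nat_lit 3) :=
  iv_sound par12_11 z12_11_3 rfl (by decide +kernel) f152_1_750_T f160_1_750_T f152_1_867_T f160_1_867_T p12_11_3_T v12_11_3 g12_11_3

theorem III_12_11 : PropIIIB yB12_11 := III_of par12_11 (n := 3) rfl ⟨⟨⟨⟨trivial, i12_11_0⟩, i12_11_1⟩, i12_11_2⟩, i12_11_3⟩

theorem i12_12_0 : IvP yB12_12 (nat_lit 0) :=
  iv_sound par12_12 z12_12_0 rfl (by decide +kernel) f152_1_0_T f160_1_0_T f152_1_400_T f160_1_400_T p12_12_0_T v12_12_0 g12_12_0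

theorem i12_12_1 : IvP yB12_12 (nat_lit 1) :=
  iv_sound par12_12 z12_12_1 rfl (by decide +kernel) f152_1_400_T f160_1_400_T f152_1_600_T f160_1_600_T p12_12_1_T v12_12_1 g12_12_1

theorem i12_12_2 : IvP yB12_12 (nat_lit 2) :=
  iv_sound par12_12 z12_12_2 rfl (by decide +kernel) f152_1_600_T f160_1_600_T f152_1_750_T f160_1_750_T p12_12_2_T v12_12_2 g12_12_2

theorem i12_12_3 : IvP yB12_12 (nat_lit 3) :=
  iv_sound par12_12 z12_12_3 rfl (by decide +kernel) f152_1_750_T f160_1_750_T f152_1_867_T f160_1_867_T p12_12_3_T v12_12_3 g12_12_3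

theorem III_12_12 : PropIIIB yB12_12 := III_of par12_12 (n := 3) rfl ⟨⟨⟨⟨trivial, i12_12_0⟩, i12_12_1⟩, i12_12_2⟩, i12_12_3⟩

theorem i12_13_0 : IvP yB12_13 (nat_lit 0) :=
  iv_sound par12_13 z12_13_0 rfl (by decide +kernel) f160_1_0_T f168_1_0_T f160_1_400_T f168_1_400_T p12_13_0_T v12_13_0 g12_13_0

theorem i12_13_1 : IvP yB12_13 (nat_lit 1) :=
  iv_sound par12_13 z12_13_1 rfl (by decide +kernel) f160_1_400_T f168_1_400_T f160_1_600_T f168_1_600_T p12_13_1_T v12_13_1 g12_13_1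

theorem i12_13_2 : IvP yB12_13 (nat_lit 2) :=
  iv_sound par12_13 z12_13_2 rfl (by decide +kernel) f160_1_600_T f168_1_600_T f160_1_750_T f168_1_750_T p12_13_2_T v12_13_2 g12_13_2

theorem i12_13_3 : IvP yB12_13 (nat_lit 3) :=
  iv_sound par12_13 z12_13_3 rfl (by decide +kernel) f160_1_750_T f168_1_750_T f160_1_832_T f168_1_832_T p12_13_3_T v12_13_3 g12_13_3

theorem III_12_13 : PropIIIB yB12_13 := III_of par12_13 (n := 3) rfl ⟨⟨⟨⟨trivial, i12_13_0⟩, i12_13_1⟩, i12_13_2⟩, i12_13_3⟩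

theorem i12_14_0 : IvP yB12_14 (nat_lit 0) :=
  iv_sound par12_14 z12_14_0 rfl (by decide +kernel) f160_1_0_T f168_1_0_T f160_1_400_T f168_1_400_T p12_14_0_T v12_14_0 g12_14_0

theorem i12_14_1 : IvP yB12_14 (nat_lit 1) :=
  iv_sound par12_14 z12_14_1 rfl (by decide +kernel) f160_1_400_T f168_1_400_T f160_1_600_T f168_1_600_T p12_14_1_T v12_14_1 g12_14_1

theorem i12_14_2 : IvP yB12_14 (nat_lit 2) :=
  iv_sound par12_14 z12_14_2 rfl (by decide +kernel) f160_1_600_T f168_1_600_T f160_1_750_T f168_1_750_T p12_14_2_T v12_14_2 g12_14_2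

theorem i12_14_3 : IvP yB12_14 (nat_lit 3) :=
  iv_sound par12_14 z12_14_3 rfl (by decide +kernel) f160_1_750_T f168_1_750_T f160_1_832_T f168_1_832_T p12_14_3_T v12_14_3 g12_14_3

theorem III_12_14 : PropIIIB yB12_14 := III_of par12_14 (n := 3) rfl ⟨⟨⟨⟨trivial, i12_14_0⟩, i12_14_1⟩, i12_14_2⟩, i12_14_3⟩

theorem i12_15_0 : IvP yB12_15 (nat_lit 0) :=
  iv_sound par12_15 z12_15_0 rfl (by decide +kernel) f168_1_0_T f176_1_0_T f168_1_400_T f176_1_400_T p12_15_0_T v12_15_0 g12_15_0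

theorem i12_15_1 : IvP yB12_15 (nat_lit 1) :=
  iv_sound par12_15 z12_15_1 rfl (by decide +kernel) f168_1_400_T f176_1_400_T f168_1_600_T f176_1_600_T p12_15_1_T v12_15_1 g12_15_1

theorem i12_15_2 : IvP yB12_15 (nat_lit 2) :=
  iv_sound par12_15 z12_15_2 rfl (by decide +kernel) f168_1_600_T f176_1_600_T f168_1_750_T f176_1_750_T p12_15_2_T v12_15_2 g12_15_2

theorem i12_15_3 : IvP yB12_15 (nat_lit 3) :=
  iv_sound par12_15 z12_15_3 rfl (by decide +kernel) f168_1_750_T f176_1_750_T f168_1_792_T f176_1_792_T p12_15_3_T v12_15_3 g12_15_3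

theorem III_12_15 : PropIIIB yB12_15 := III_of par12_15 (n := 3) rfl ⟨⟨⟨⟨trivial, i12_15_0⟩, i12_15_1⟩, i12_15_2⟩, i12_15_3⟩

theorem i12_16_0 : IvP yB12_16 (nat_lit 0) :=
  iv_sound par12_16 z12_16_0 rfl (by decide +kernel) f168_1_0_T f176_1_0_T f168_1_400_T f176_1_400_T p12_16_0_T v12_16_0 g12_16_0

theorem i12_16_1 : IvP yB12_16 (nat_lit 1) :=
  iv_sound par12_16 z12_16_1 rfl (by decide +kernel) f168_1_400_T f176_1_400_T f168_1_600_T f176_1_600_T p12_16_1_T v12_16_1 g12_16_1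

theorem i12_16_2 : IvP yB12_16 (nat_lit 2) :=
  iv_sound par12_16 z12_16_2 rfl (by decide +kernel) f168_1_600_T f176_1_600_T f168_1_750_T f176_1_750_T p12_16_2_T v12_16_2 g12_16_2

theorem i12_16_3 : IvP yB12_16 (nat_lit 3) :=
  iv_sound par12_16 z12_16_3 rfl (by decide +kernel) f168_1_750_T f176_1_750_T f168_1_792_T f176_1_792_T p12_16_3_T v12_16_3 g12_16_3

theorem III_12_16 : PropIIIB yB12_16 := III_of par12_16 (n := 3) rfl ⟨⟨⟨⟨trivial, i12_16_0⟩, i12_16_1⟩, i12_16_2⟩, i12_16_3⟩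

theorem i12_17_0 : IvP yB12_17 (nat_lit 0) :=
  iv_sound par12_17 z12_17_0 rfl (by decide +kernel) f176_0_0_T f184_0_0_T f176_0_400_T f184_0_400_T p12_17_0_T v12_17_0 g12_17_0

theorem i12_17_1 : IvP yB12_17 (nat_lit 1) :=
  iv_sound par12_17 z12_17_1 rfl (by decide +kernel) f176_0_400_T f184_0_400_T f176_0_600_T f184_0_600_T p12_17_1_T v12_17_1 g12_17_1

theorem i12_17_2 : IvP yB12_17 (nat_lit 2) :=
  iv_sound par12_17 z12_17_2 rfl (by decide +kernel) f176_0_600_T f184_0_600_T f176_0_743_T f184_0_743_T p12_17_2_T v12_17_2 g12_17_2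

theorem III_12_17 : PropIIIB yB12_17 := III_of par12_17 (n := 2) rfl ⟨⟨⟨trivial, i12_17_0⟩, i12_17_1⟩, i12_17_2⟩

theorem i12_18_0 : IvP yB12_18 (nat_lit 0) :=
  iv_sound par12_18 z12_18_0 rfl (by decide +kernel) f176_0_0_T f184_0_0_T f176_0_400_T f184_0_400_T p12_18_0_T v12_18_0 g12_18_0

theorem i12_18_1 : IvP yB12_18 (nat_lit 1) :=
  iv_sound par12_18 z12_18_1 rfl (by decide +kernel) f176_0_400_T f184_0_400_T f176_0_600_T f184_0_600_T p12_18_1_T v12_18_1 g12_18_1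

theorem i12_18_2 : IvP yB12_18 (nat_lit 2) :=
  iv_sound par12_18 z12_18_2 rfl (by decide +kernel) f176_0_600_T f184_0_600_T f176_0_743_T f184_0_743_T p12_18_2_T v12_18_2 g12_18_2

theorem III_12_18 : PropIIIB yB12_18 := III_of par12_18 (n := 2) rfl ⟨⟨⟨trivial, i12_18_0⟩, i12_18_1⟩, i12_18_2⟩

theorem i12_19_0 : IvP yB12_19 (nat_lit 0) :=
  iv_sound par12_19 z12_19_0 rfl (by decide +kernel) f184_0_0_T f192_0_0_T f184_0_400_T f192_0_400_T p12_19_0_T v12_19_0 g12_19_0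

theorem i12_19_1 : IvP yB12_19 (nat_lit 1) :=
  iv_sound par12_19 z12_19_1 rfl (by decide +kernel) f184_0_400_T f192_0_400_T f184_0_600_T f192_0_600_T p12_19_1_T v12_19_1 g12_19_1

theorem i12_19_2 : IvP yB12_19 (nat_lit 2) :=
  iv_sound par12_19 z12_19_2 rfl (by decide +kernel) f184_0_600_T f192_0_600_T f184_0_682_T f192_0_682_T p12_19_2_T v12_19_2 g12_19_2

theorem III_12_19 : PropIIIB yB12_19 := III_of par12_19 (n := 2) rfl ⟨⟨⟨trivial, i12_19_0⟩, i12_19_1⟩, i12_19_2⟩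

theorem i12_20_0 : IvP yB12_20 (nat_lit 0) :=
  iv_sound par12_20 z12_20_0 rfl (by decide +kernel) f184_0_0_T f192_0_0_T f184_0_400_T f192_0_400_T p12_20_0_T v12_20_0 g12_20_0

theorem i12_20_1 : IvP yB12_20 (nat_lit 1) :=
  iv_sound par12_20 z12_20_1 rfl (by decide +kernel) f184_0_400_T f192_0_400_T f184_0_600_T f192_0_600_T p12_20_1_T v12_20_1 g12_20_1

theorem i12_20_2 : IvP yB12_20 (nat_lit 2) :=
  iv_sound par12_20 z12_20_2 rfl (by decide +kernel) f184_0_600_T f192_0_600_T f184_0_682_T f192_0_682_T p12_20_2_T v12_20_2 g12_20_2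

theorem III_12_20 : PropIIIB yB12_20 := III_of par12_20 (n := 2) rfl ⟨⟨⟨trivial, i12_20_0⟩, i12_20_1⟩, i12_20_2⟩

theorem i12_21_0 : IvP yB12_21 (nat_lit 0) :=
  iv_sound par12_21 z12_21_0 rfl (by decide +kernel) f192_0_0_T f200_0_0_T f192_0_400_T f200_0_400_T p12_21_0_T v12_21_0 g12_21_0

theorem i12_21_1 : IvP yB12_21 (nat_lit 1) :=
  iv_sound par12_21 z12_21_1 rfl (by decide +kernel) f192_0_400_T f200_0_400_T f192_0_601_T f200_0_601_T p12_21_1_T v12_21_1 g12_21_1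

theorem III_12_21 : PropIIIB yB12_21 := III_of par12_21 (n := 1) rfl ⟨⟨trivial, i12_21_0⟩, i12_21_1⟩

theorem i12_22_0 : IvP yB12_22 (nat_lit 0) :=
  iv_sound par12_22 z12_22_0 rfl (by decide +kernel) f192_0_0_T f200_0_0_T f192_0_400_T f200_0_400_T p12_22_0_T v12_22_0 g12_22_0

theorem i12_22_1 : IvP yB12_22 (nat_lit 1) :=
  iv_sound par12_22 z12_22_1 rfl (by decide +kernel) f192_0_400_T f200_0_400_T f192_0_601_T f200_0_601_T p12_22_1_T v12_22_1 g12_22_1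

theorem III_12_22 : PropIIIB yB12_22 := III_of par12_22 (n := 1) rfl ⟨⟨trivial, i12_22_0⟩, i12_22_1⟩

theorem i13_0_0 : IvP yB13_0 (nat_lit 0) :=
  iv_sound par13_0 z13_0_0 rfl (by decide +kernel) f104_1_0_T f112_1_0_T f104_1_400_T f112_1_400_T p13_0_0_T v13_0_0 g13_0_0

theorem i13_0_1 : IvP yB13_0 (nat_lit 1) :=
  iv_sound par13_0 z13_0_1 rfl (by decide +kernel) f104_1_400_T f112_1_400_T f104_1_600_T f112_1_600_T p13_0_1_T v13_0_1 g13_0_1

theorem i13_0_2 : IvP yB13_0 (nat_lit 2) :=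
  iv_sound par13_0 z13_0_2 rfl (by decide +kernel) f104_1_600_T f112_1_600_T f104_1_750_T f112_1_750_T p13_0_2_T v13_0_2 g13_0_2

theorem i13_0_3 : IvP yB13_0 (nat_lit 3) :=
  iv_sound par13_0 z13_0_3 rfl (by decide +kernel) f104_1_750_T f112_1_750_T f104_1_986_T f112_1_986_T p13_0_3_T v13_0_3 g13_0_3

theorem III_13_0 : PropIIIB yB13_0 := III_of par13_0 (n := 3) rfl ⟨⟨⟨⟨trivial, i13_0_0⟩, i13_0_1⟩, i13_0_2⟩, i13_0_3⟩

theorem i13_1_0 : IvP yB13_1 (nat_lit 0) :=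
  iv_sound par13_1 z13_1_0 rfl (by decide +kernel) f112_1_0_T f120_1_0_T f112_1_400_T f120_1_400_T p13_1_0_T v13_1_0 g13_1_0

theorem i13_1_1 : IvP yB13_1 (nat_lit 1) :=
  iv_sound par13_1 z13_1_1 rfl (by decide +kernel) f112_1_400_T f120_1_400_T f112_1_600_T f120_1_600_T p13_1_1_T v13_1_1 g13_1_1

theorem i13_1_2 : IvP yB13_1 (nat_lit 2) :=
  iv_sound par13_1 z13_1_2 rfl (by decide +kernel) f112_1_600_T f120_1_600_T f112_1_750_T f120_1_750_T p13_1_2_T v13_1_2 g13_1_2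

theorem i13_1_3 : IvP yB13_1 (nat_lit 3) :=
  iv_sound par13_1 z13_1_3 rfl (by decide +kernel) f112_1_750_T f120_1_750_T f112_1_975_T f120_1_975_T p13_1_3_T v13_1_3 g13_1_3

theorem III_13_1 : PropIIIB yB13_1 := III_of par13_1 (n := 3) rfl ⟨⟨⟨⟨trivial, i13_1_0⟩, i13_1_1⟩, i13_1_2⟩, i13_1_3⟩

theorem i13_2_0 : IvP yB13_2 (nat_lit 0) :=
  iv_sound par13_2 z13_2_0 rfl (by decide +kernel) f112_1_0_T f120_1_0_T f112_1_400_T f120_1_400_T p13_2_0_T v13_2_0 g13_2_0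

theorem i13_2_1 : IvP yB13_2 (nat_lit 1) :=
  iv_sound par13_2 z13_2_1 rfl (by decide +kernel) f112_1_400_T f120_1_400_T f112_1_600_T f120_1_600_T p13_2_1_T v13_2_1 g13_2_1

theorem i13_2_2 : IvP yB13_2 (nat_lit 2) :=
  iv_sound par13_2 z13_2_2 rfl (by decide +kernel) f112_1_600_T f120_1_600_T f112_1_750_T f120_1_750_T p13_2_2_T v13_2_2 g13_2_2

theorem i13_2_3 : IvP yB13_2 (nat_lit 3) :=
  iv_sound par13_2 z13_2_3 rfl (by decide +kernel) f112_1_750_T f120_1_750_T f112_1_975_T f120_1_975_T p13_2_3_T v13_2_3 g13_2_3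

theorem III_13_2 : PropIIIB yB13_2 := III_of par13_2 (n := 3) rfl ⟨⟨⟨⟨trivial, i13_2_0⟩, i13_2_1⟩, i13_2_2⟩, i13_2_3⟩

theorem i13_3_0 : IvP yB13_3 (nat_lit 0) :=
  iv_sound par13_3 z13_3_0 rfl (by decide +kernel) f120_1_0_T f128_1_0_T f120_1_400_T f128_1_400_T p13_3_0_T v13_3_0 g13_3_0

theorem i13_3_1 : IvP yB13_3 (nat_lit 1) :=
  iv_sound par13_3 z13_3_1 rfl (by decide +kernel) f120_1_400_T f128_1_400_T f120_1_600_T f128_1_600_T p13_3_1_T v13_3_1 g13_3_1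

theorem i13_3_2 : IvP yB13_3 (nat_lit 2) :=
  iv_sound par13_3 z13_3_2 rfl (by decide +kernel) f120_1_600_T f128_1_600_T f120_1_750_T f128_1_750_T p13_3_2_T v13_3_2 g13_3_2

theorem i13_3_3 : IvP yB13_3 (nat_lit 3) :=
  iv_sound par13_3 z13_3_3 rfl (by decide +kernel) f120_1_750_T f128_1_750_T f120_1_960_T f128_1_960_T p13_3_3_T v13_3_3 g13_3_3

theorem III_13_3 : PropIIIB yB13_3 := III_of par13_3 (n := 3) rfl ⟨⟨⟨⟨trivial, i13_3_0⟩, i13_3_1⟩, i13_3_2⟩, i13_3_3⟩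

theorem i13_4_0 : IvP yB13_4 (nat_lit 0) :=
  iv_sound par13_4 z13_4_0 rfl (by decide +kernel) f120_1_0_T f128_1_0_T f120_1_400_T f128_1_400_T p13_4_0_T v13_4_0 g13_4_0

theorem i13_4_1 : IvP yB13_4 (nat_lit 1) :=
  iv_sound par13_4 z13_4_1 rfl (by decide +kernel) f120_1_400_T f128_1_400_T f120_1_600_T f128_1_600_T p13_4_1_T v13_4_1 g13_4_1

theorem i13_4_2 : IvP yB13_4 (nat_lit 2) :=
  iv_sound par13_4 z13_4_2 rfl (by decide +kernel) f120_1_600_T f128_1_600_T f120_1_750_T f128_1_750_T p13_4_2_T v13_4_2 g13_4_2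

theorem i13_4_3 : IvP yB13_4 (nat_lit 3) :=
  iv_sound par13_4 z13_4_3 rfl (by decide +kernel) f120_1_750_T f128_1_750_T f120_1_960_T f128_1_960_T p13_4_3_T v13_4_3 g13_4_3

theorem III_13_4 : PropIIIB yB13_4 := III_of par13_4 (n := 3) rfl ⟨⟨⟨⟨trivial, i13_4_0⟩, i13_4_1⟩, i13_4_2⟩, i13_4_3⟩

theorem i13_5_0 : IvP yB13_5 (nat_lit 0) :=
  iv_sound par13_5 z13_5_0 rfl (by decide +kernel) f128_1_0_T f136_1_0_T f128_1_400_T f136_1_400_T p13_5_0_T v13_5_0 g13_5_0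

theorem i13_5_1 : IvP yB13_5 (nat_lit 1) :=
  iv_sound par13_5 z13_5_1 rfl (by decide +kernel) f128_1_400_T f136_1_400_T f128_1_600_T f136_1_600_T p13_5_1_T v13_5_1 g13_5_1

theorem i13_5_2 : IvP yB13_5 (nat_lit 2) :=
  iv_sound par13_5 z13_5_2 rfl (by decide +kernel) f128_1_600_T f136_1_600_T f128_1_750_T f136_1_750_T p13_5_2_T v13_5_2 g13_5_2

theorem i13_5_3 : IvP yB13_5 (nat_lit 3) :=
  iv_sound par13_5 z13_5_3 rfl (by decide +kernel) f128_1_750_T f136_1_750_T f128_1_943_T f136_1_943_T p13_5_3_T v13_5_3 g13_5_3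

theorem III_13_5 : PropIIIB yB13_5 := III_of par13_5 (n := 3) rfl ⟨⟨⟨⟨trivial, i13_5_0⟩, i13_5_1⟩, i13_5_2⟩, i13_5_3⟩

theorem i13_6_0 : IvP yB13_6 (nat_lit 0) :=
  iv_sound par13_6 z13_6_0 rfl (by decide +kernel) f128_1_0_T f136_1_0_T f128_1_400_T f136_1_400_T p13_6_0_T v13_6_0 g13_6_0

theorem i13_6_1 : IvP yB13_6 (nat_lit 1) :=
  iv_sound par13_6 z13_6_1 rfl (by decide +kernel) f128_1_400_T f136_1_400_T f128_1_600_T f136_1_600_T p13_6_1_T v13_6_1 g13_6_1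

theorem i13_6_2 : IvP yB13_6 (nat_lit 2) :=
  iv_sound par13_6 z13_6_2 rfl (by decide +kernel) f128_1_600_T f136_1_600_T f128_1_750_T f136_1_750_T p13_6_2_T v13_6_2 g13_6_2

theorem i13_6_3 : IvP yB13_6 (nat_lit 3) :=
  iv_sound par13_6 z13_6_3 rfl (by decide +kernel) f128_1_750_T f136_1_750_T f128_1_943_T f136_1_943_T p13_6_3_T v13_6_3 g13_6_3

theorem III_13_6 : PropIIIB yB13_6 := III_of par13_6 (n := 3) rfl ⟨⟨⟨⟨trivial, i13_6_0⟩, i13_6_1⟩, i13_6_2⟩, i13_6_3⟩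

theorem i13_7_0 : IvP yB13_7 (nat_lit 0) :=
  iv_sound par13_7 z13_7_0 rfl (by decide +kernel) f136_1_0_T f144_1_0_T f136_1_400_T f144_1_400_T p13_7_0_T v13_7_0 g13_7_0

theorem i13_7_1 : IvP yB13_7 (nat_lit 1) :=
  iv_sound par13_7 z13_7_1 rfl (by decide +kernel) f136_1_400_T f144_1_400_T f136_1_600_T f144_1_600_T p13_7_1_T v13_7_1 g13_7_1

theorem i13_7_2 : IvP yB13_7 (nat_lit 2) :=
  iv_sound par13_7 z13_7_2 rfl (by decide +kernel) f136_1_600_T f144_1_600_T f136_1_750_T f144_1_750_T p13_7_2_T v13_7_2 g13_7_2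

theorem i13_7_3 : IvP yB13_7 (nat_lit 3) :=
  iv_sound par13_7 z13_7_3 rfl (by decide +kernel) f136_1_750_T f144_1_750_T f136_1_922_T f144_1_922_T p13_7_3_T v13_7_3 g13_7_3

theorem III_13_7 : PropIIIB yB13_7 := III_of par13_7 (n := 3) rfl ⟨⟨⟨⟨trivial, i13_7_0⟩, i13_7_1⟩, i13_7_2⟩, i13_7_3⟩

theorem i13_8_0 : IvP yB13_8 (nat_lit 0) :=
  iv_sound par13_8 z13_8_0 rfl (by decide +kernel) f136_1_0_T f144_1_0_T f136_1_400_T f144_1_400_T p13_8_0_T v13_8_0 g13_8_0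

theorem i13_8_1 : IvP yB13_8 (nat_lit 1) :=
  iv_sound par13_8 z13_8_1 rfl (by decide +kernel) f136_1_400_T f144_1_400_T f136_1_600_T f144_1_600_T p13_8_1_T v13_8_1 g13_8_1

theorem i13_8_2 : IvP yB13_8 (nat_lit 2) :=
  iv_sound par13_8 z13_8_2 rfl (by decide +kernel) f136_1_600_T f144_1_600_T f136_1_750_T f144_1_750_T p13_8_2_T v13_8_2 g13_8_2

theorem i13_8_3 : IvP yB13_8 (nat_lit 3) :=
  iv_sound par13_8 z13_8_3 rfl (by decide +kernel) f136_1_750_T f144_1_750_T f136_1_922_T f144_1_922_T p13_8_3_T v13_8_3 g13_8_3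

theorem III_13_8 : PropIIIB yB13_8 := III_of par13_8 (n := 3) rfl ⟨⟨⟨⟨trivial, i13_8_0⟩, i13_8_1⟩, i13_8_2⟩, i13_8_3⟩

theorem i13_9_0 : IvP yB13_9 (nat_lit 0) :=
  iv_sound par13_9 z13_9_0 rfl (by decide +kernel) f144_1_0_T f152_1_0_T f144_1_400_T f152_1_400_T p13_9_0_T v13_9_0 g13_9_0

theorem i13_9_1 : IvP yB13_9 (nat_lit 1) :=
  iv_sound par13_9 z13_9_1 rfl (by decide +kernel) f144_1_400_T f152_1_400_T f144_1_600_T f152_1_600_T p13_9_1_T v13_9_1 g13_9_1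

theorem i13_9_2 : IvP yB13_9 (nat_lit 2) :=
  iv_sound par13_9 z13_9_2 rfl (by decide +kernel) f144_1_600_T f152_1_600_T f144_1_750_T f152_1_750_T p13_9_2_T v13_9_2 g13_9_2

theorem i13_9_3 : IvP yB13_9 (nat_lit 3) :=
  iv_sound par13_9 z13_9_3 rfl (by decide +kernel) f144_1_750_T f152_1_750_T f144_1_896_T f152_1_896_T p13_9_3_T v13_9_3 g13_9_3

theorem III_13_9 : PropIIIB yB13_9 := III_of par13_9 (n := 3) rfl ⟨⟨⟨⟨trivial, i13_9_0⟩, i13_9_1⟩, i13_9_2⟩, i13_9_3⟩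

theorem i13_10_0 : IvP yB13_10 (nat_lit 0) :=
  iv_sound par13_10 z13_10_0 rfl (by decide +kernel) f144_1_0_T f152_1_0_T f144_1_400_T f152_1_400_T p13_10_0_T v13_10_0 g13_10_0

theorem i13_10_1 : IvP yB13_10 (nat_lit 1) :=
  iv_sound par13_10 z13_10_1 rfl (by decide +kernel) f144_1_400_T f152_1_400_T f144_1_600_T f152_1_600_T p13_10_1_T v13_10_1 g13_10_1

theorem i13_10_2 : IvP yB13_10 (nat_lit 2) :=
  iv_sound par13_10 z13_10_2 rfl (by decide +kernel) f144_1_600_T f152_1_600_T f144_1_750_T f152_1_750_T p13_10_2_T v13_10_2 g13_10_2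

theorem i13_10_3 : IvP yB13_10 (nat_lit 3) :=
  iv_sound par13_10 z13_10_3 rfl (by decide +kernel) f144_1_750_T f152_1_750_T f144_1_896_T f152_1_896_T p13_10_3_T v13_10_3 g13_10_3

theorem III_13_10 : PropIIIB yB13_10 := III_of par13_10 (n := 3) rfl ⟨⟨⟨⟨trivial, i13_10_0⟩, i13_10_1⟩, i13_10_2⟩, i13_10_3⟩

theorem i13_11_0 : IvP yB13_11 (nat_lit 0) :=
  iv_sound par13_11 z13_11_0 rfl (by decide +kernel) f152_1_0_T f160_1_0_T f152_1_400_T f160_1_400_T p13_11_0_T v13_11_0 g13_11_0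

theorem i13_11_1 : IvP yB13_11 (nat_lit 1) :=
  iv_sound par13_11 z13_11_1 rfl (by decide +kernel) f152_1_400_T f160_1_400_T f152_1_600_T f160_1_600_T p13_11_1_T v13_11_1 g13_11_1

theorem i13_11_2 : IvP yB13_11 (nat_lit 2) :=
  iv_sound par13_11 z13_11_2 rfl (by decide +kernel) f152_1_600_T f160_1_600_T f152_1_750_T f160_1_750_T p13_11_2_T v13_11_2 g13_11_2

theorem i13_11_3 : IvP yB13_11 (nat_lit 3) :=
  iv_sound par13_11 z13_11_3 rfl (by decide +kernel) f152_1_750_T f160_1_750_T f152_1_867_T f160_1_867_T p13_11_3_T v13_11_3 g13_11_3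

theorem III_13_11 : PropIIIB yB13_11 := III_of par13_11 (n := 3) rfl ⟨⟨⟨⟨trivial, i13_11_0⟩, i13_11_1⟩, i13_11_2⟩, i13_11_3⟩

theorem i13_12_0 : IvP yB13_12 (nat_lit 0) :=
  iv_sound par13_12 z13_12_0 rfl (by decide +kernel) f152_1_0_T f160_1_0_T f152_1_400_T f160_1_400_T p13_12_0_T v13_12_0 g13_12_0

theorem i13_12_1 : IvP yB13_12 (nat_lit 1) :=
  iv_sound par13_12 z13_12_1 rfl (by decide +kernel) f152_1_400_T f160_1_400_T f152_1_600_T f160_1_600_T p13_12_1_T v13_12_1 g13_12_1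

theorem i13_12_2 : IvP yB13_12 (nat_lit 2) :=
  iv_sound par13_12 z13_12_2 rfl (by decide +kernel) f152_1_600_T f160_1_600_T f152_1_750_T f160_1_750_T p13_12_2_T v13_12_2 g13_12_2

theorem i13_12_3 : IvP yB13_12 (nat_lit 3) :=
  iv_sound par13_12 z13_12_3 rfl (by decide +kernel) f152_1_750_T f160_1_750_T f152_1_867_T f160_1_867_T p13_12_3_T v13_12_3 g13_12_3

theorem III_13_12 : PropIIIB yB13_12 := III_of par13_12 (n := 3) rfl ⟨⟨⟨⟨trivial, i13_12_0⟩, i13_12_1⟩, i13_12_2⟩, i13_12_3⟩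

theorem i13_13_0 : IvP yB13_13 (nat_lit 0) :=
  iv_sound par13_13 z13_13_0 rfl (by decide +kernel) f160_1_0_T f168_1_0_T f160_1_400_T f168_1_400_T p13_13_0_T v13_13_0 g13_13_0

theorem i13_13_1 : IvP yB13_13 (nat_lit 1) :=
  iv_sound par13_13 z13_13_1 rfl (by decide +kernel) f160_1_400_T f168_1_400_T f160_1_600_T f168_1_600_T p13_13_1_T v13_13_1 g13_13_1

theorem i13_13_2 : IvP yB13_13 (nat_lit 2) :=
  iv_sound par13_13 z13_13_2 rfl (by decide +kernel) f160_1_600_T f168_1_600_T f160_1_750_T f168_1_750_T p13_13_2_T v13_13_2 g13_13_2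

theorem i13_13_3 : IvP yB13_13 (nat_lit 3) :=
  iv_sound par13_13 z13_13_3 rfl (by decide +kernel) f160_1_750_T f168_1_750_T f160_1_832_T f168_1_832_T p13_13_3_T v13_13_3 g13_13_3

theorem III_13_13 : PropIIIB yB13_13 := III_of par13_13 (n := 3) rfl ⟨⟨⟨⟨trivial, i13_13_0⟩, i13_13_1⟩, i13_13_2⟩, i13_13_3⟩

theorem i13_14_0 : IvP yB13_14 (nat_lit 0) :=
  iv_sound par13_14 z13_14_0 rfl (by decide +kernel) f160_1_0_T f168_1_0_T f160_1_400_T f168_1_400_T p13_14_0_T v13_14_0 g13_14_0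

theorem i13_14_1 : IvP yB13_14 (nat_lit 1) :=
  iv_sound par13_14 z13_14_1 rfl (by decide +kernel) f160_1_400_T f168_1_400_T f160_1_600_T f168_1_600_T p13_14_1_T v13_14_1 g13_14_1

theorem i13_14_2 : IvP yB13_14 (nat_lit 2) :=
  iv_sound par13_14 z13_14_2 rfl (by decide +kernel) f160_1_600_T f168_1_600_T f160_1_750_T f168_1_750_T p13_14_2_T v13_14_2 g13_14_2

theorem i13_14_3 : IvP yB13_14 (nat_lit 3) :=
  iv_sound par13_14 z13_14_3 rfl (by decide +kernel) f160_1_750_T f168_1_750_T f160_1_832_T f168_1_832_T p13_14_3_T v13_14_3 g13_14_3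

theorem III_13_14 : PropIIIB yB13_14 := III_of par13_14 (n := 3) rfl ⟨⟨⟨⟨trivial, i13_14_0⟩, i13_14_1⟩, i13_14_2⟩, i13_14_3⟩

theorem i13_15_0 : IvP yB13_15 (nat_lit 0) :=
  iv_sound par13_15 z13_15_0 rfl (by decide +kernel) f168_1_0_T f176_1_0_T f168_1_400_T f176_1_400_T p13_15_0_T v13_15_0 g13_15_0

theorem i13_15_1 : IvP yB13_15 (nat_lit 1) :=
  iv_sound par13_15 z13_15_1 rfl (by decide +kernel) f168_1_400_T f176_1_400_T f168_1_600_T f176_1_600_T p13_15_1_T v13_15_1 g13_15_1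

theorem i13_15_2 : IvP yB13_15 (nat_lit 2) :=
  iv_sound par13_15 z13_15_2 rfl (by decide +kernel) f168_1_600_T f176_1_600_T f168_1_750_T f176_1_750_T p13_15_2_T v13_15_2 g13_15_2

theorem i13_15_3 : IvP yB13_15 (nat_lit 3) :=
  iv_sound par13_15 z13_15_3 rfl (by decide +kernel) f168_1_750_T f176_1_750_T f168_1_792_T f176_1_792_T p13_15_3_T v13_15_3 g13_15_3

theorem III_13_15 : PropIIIB yB13_15 := III_of par13_15 (n := 3) rfl ⟨⟨⟨⟨trivial, i13_15_0⟩, i13_15_1⟩, i13_15_2⟩, i13_15_3⟩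

theorem i13_16_0 : IvP yB13_16 (nat_lit 0) :=
  iv_sound par13_16 z13_16_0 rfl (by decide +kernel) f168_1_0_T f176_1_0_T f168_1_400_T f176_1_400_T p13_16_0_T v13_16_0 g13_16_0

theorem i13_16_1 : IvP yB13_16 (nat_lit 1) :=
  iv_sound par13_16 z13_16_1 rfl (by decide +kernel) f168_1_400_T f176_1_400_T f168_1_600_T f176_1_600_T p13_16_1_T v13_16_1 g13_16_1

theorem i13_16_2 : IvP yB13_16 (nat_lit 2) :=
  iv_sound par13_16 z13_16_2 rfl (by decide +kernel) f168_1_600_T f176_1_600_T f168_1_750_T f176_1_750_T p13_16_2_T v13_16_2 g13_16_2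

theorem i13_16_3 : IvP yB13_16 (nat_lit 3) :=
  iv_sound par13_16 z13_16_3 rfl (by decide +kernel) f168_1_750_T f176_1_750_T f168_1_792_T f176_1_792_T p13_16_3_T v13_16_3 g13_16_3

theorem III_13_16 : PropIIIB yB13_16 := III_of par13_16 (n := 3) rfl ⟨⟨⟨⟨trivial, i13_16_0⟩, i13_16_1⟩, i13_16_2⟩, i13_16_3⟩

theorem i13_17_0 : IvP yB13_17 (nat_lit 0) :=
  iv_sound par13_17 z13_17_0 rfl (by decide +kernel) f176_0_0_T f184_0_0_T f176_0_400_T f184_0_400_T p13_17_0_T v13_17_0 g13_17_0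

theorem i13_17_1 : IvP yB13_17 (nat_lit 1) :=
  iv_sound par13_17 z13_17_1 rfl (by decide +kernel) f176_0_400_T f184_0_400_T f176_0_600_T f184_0_600_T p13_17_1_T v13_17_1 g13_17_1

theorem i13_17_2 : IvP yB13_17 (nat_lit 2) :=
  iv_sound par13_17 z13_17_2 rfl (by decide +kernel) f176_0_600_T f184_0_600_T f176_0_743_T f184_0_743_T p13_17_2_T v13_17_2 g13_17_2

theorem III_13_17 : PropIIIB yB13_17 := III_of par13_17 (n := 2) rfl ⟨⟨⟨trivial, i13_17_0⟩, i13_17_1⟩, i13_17_2⟩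

theorem i13_18_0 : IvP yB13_18 (nat_lit 0) :=
  iv_sound par13_18 z13_18_0 rfl (by decide +kernel) f176_0_0_T f184_0_0_T f176_0_400_T f184_0_400_T p13_18_0_T v13_18_0 g13_18_0

theorem i13_18_1 : IvP yB13_18 (nat_lit 1) :=
  iv_sound par13_18 z13_18_1 rfl (by decide +kernel) f176_0_400_T f184_0_400_T f176_0_600_T f184_0_600_T p13_18_1_T v13_18_1 g13_18_1

theorem i13_18_2 : IvP yB13_18 (nat_lit 2) :=
  iv_sound par13_18 z13_18_2 rfl (by decide +kernel) f176_0_600_T f184_0_600_T f176_0_743_T f184_0_743_T p13_18_2_T v13_18_2 g13_18_2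

theorem III_13_18 : PropIIIB yB13_18 := III_of par13_18 (n := 2) rfl ⟨⟨⟨trivial, i13_18_0⟩, i13_18_1⟩, i13_18_2⟩

theorem i13_19_0 : IvP yB13_19 (nat_lit 0) :=
  iv_sound par13_19 z13_19_0 rfl (by decide +kernel) f184_0_0_T f192_0_0_T f184_0_400_T f192_0_400_T p13_19_0_T v13_19_0 g13_19_0

theorem i13_19_1 : IvP yB13_19 (nat_lit 1) :=
  iv_sound par13_19 z13_19_1 rfl (by decide +kernel) f184_0_400_T f192_0_400_T f184_0_600_T f192_0_600_T p13_19_1_T v13_19_1 g13_19_1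

theorem i13_19_2 : IvP yB13_19 (nat_lit 2) :=
  iv_sound par13_19 z13_19_2 rfl (by decide +kernel) f184_0_600_T f192_0_600_T f184_0_682_T f192_0_682_T p13_19_2_T v13_19_2 g13_19_2

theorem III_13_19 : PropIIIB yB13_19 := III_of par13_19 (n := 2) rfl ⟨⟨⟨trivial, i13_19_0⟩, i13_19_1⟩, i13_19_2⟩

theorem i13_20_0 : IvP yB13_20 (nat_lit 0) :=
  iv_sound par13_20 z13_20_0 rfl (by decide +kernel) f184_0_0_T f192_0_0_T f184_0_400_T f192_0_400_T p13_20_0_T v13_20_0 g13_20_0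

theorem i13_20_1 : IvP yB13_20 (nat_lit 1) :=
  iv_sound par13_20 z13_20_1 rfl (by decide +kernel) f184_0_400_T f192_0_400_T f184_0_600_T f192_0_600_T p13_20_1_T v13_20_1 g13_20_1

theorem i13_20_2 : IvP yB13_20 (nat_lit 2) :=
  iv_sound par13_20 z13_20_2 rfl (by decide +kernel) f184_0_600_T f192_0_600_T f184_0_682_T f192_0_682_T p13_20_2_T v13_20_2 g13_20_2

theorem III_13_20 : PropIIIB yB13_20 := III_of par13_20 (n := 2) rfl ⟨⟨⟨trivial, i13_20_0⟩, i13_20_1⟩, i13_20_2⟩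

theorem i13_21_0 : IvP yB13_21 (nat_lit 0) :=
  iv_sound par13_21 z13_21_0 rfl (by decide +kernel) f192_0_0_T f200_0_0_T f192_0_400_T f200_0_400_T p13_21_0_T v13_21_0 g13_21_0

theorem i13_21_1 : IvP yB13_21 (nat_lit 1) :=
  iv_sound par13_21 z13_21_1 rfl (by decide +kernel) f192_0_400_T f200_0_400_T f192_0_601_T f200_0_601_T p13_21_1_T v13_21_1 g13_21_1

theorem III_13_21 : PropIIIB yB13_21 := III_of par13_21 (n := 1) rfl ⟨⟨trivial, i13_21_0⟩, i13_21_1⟩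

theorem i13_22_0 : IvP yB13_22 (nat_lit 0) :=
  iv_sound par13_22 z13_22_0 rfl (by decide +kernel) f192_0_0_T f200_0_0_T f192_0_400_T f200_0_400_T p13_22_0_T v13_22_0 g13_22_0

theorem i13_22_1 : IvP yB13_22 (nat_lit 1) :=
  iv_sound par13_22 z13_22_1 rfl (by decide +kernel) f192_0_400_T f200_0_400_T f192_0_601_T f200_0_601_T p13_22_1_T v13_22_1 g13_22_1

theorem III_13_22 : PropIIIB yB13_22 := III_of par13_22 (n := 1) rfl ⟨⟨trivial, i13_22_0⟩, i13_22_1⟩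

theorem i14_0_0 : IvP yB14_0 (nat_lit 0) :=
  iv_sound par14_0 z14_0_0 rfl (by decide +kernel) f104_1_0_T f112_1_0_T f104_1_400_T f112_1_400_T p14_0_0_T v14_0_0 g14_0_0

theorem i14_0_1 : IvP yB14_0 (nat_lit 1) :=
  iv_sound par14_0 z14_0_1 rfl (by decide +kernel) f104_1_400_T f112_1_400_T f104_1_600_T f112_1_600_T p14_0_1_T v14_0_1 g14_0_1

theorem i14_0_2 : IvP yB14_0 (nat_lit 2) :=
  iv_sound par14_0 z14_0_2 rfl (by decide +kernel) f104_1_600_T f112_1_600_T f104_1_750_T f112_1_750_T p14_0_2_T v14_0_2 g14_0_2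

theorem i14_0_3 : IvP yB14_0 (nat_lit 3) :=
  iv_sound par14_0 z14_0_3 rfl (by decide +kernel) f104_1_750_T f112_1_750_T f104_1_986_T f112_1_986_T p14_0_3_T v14_0_3 g14_0_3

theorem III_14_0 : PropIIIB yB14_0 := III_of par14_0 (n := 3) rfl ⟨⟨⟨⟨trivial, i14_0_0⟩, i14_0_1⟩, i14_0_2⟩, i14_0_3⟩

theorem i14_1_0 : IvP yB14_1 (nat_lit 0) :=
  iv_sound par14_1 z14_1_0 rfl (by decide +kernel) f112_1_0_T f120_1_0_T f112_1_400_T f120_1_400_T p14_1_0_T v14_1_0 g14_1_0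

theorem i14_1_1 : IvP yB14_1 (nat_lit 1) :=
  iv_sound par14_1 z14_1_1 rfl (by decide +kernel) f112_1_400_T f120_1_400_T f112_1_600_T f120_1_600_T p14_1_1_T v14_1_1 g14_1_1

theorem i14_1_2 : IvP yB14_1 (nat_lit 2) :=
  iv_sound par14_1 z14_1_2 rfl (by decide +kernel) f112_1_600_T f120_1_600_T f112_1_750_T f120_1_750_T p14_1_2_T v14_1_2 g14_1_2

theorem i14_1_3 : IvP yB14_1 (nat_lit 3) :=
  iv_sound par14_1 z14_1_3 rfl (by decide +kernel) f112_1_750_T f120_1_750_T f112_1_975_T f120_1_975_T p14_1_3_T v14_1_3 g14_1_3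

theorem III_14_1 : PropIIIB yB14_1 := III_of par14_1 (n := 3) rfl ⟨⟨⟨⟨trivial, i14_1_0⟩, i14_1_1⟩, i14_1_2⟩, i14_1_3⟩

theorem i14_2_0 : IvP yB14_2 (nat_lit 0) :=
  iv_sound par14_2 z14_2_0 rfl (by decide +kernel) f112_1_0_T f120_1_0_T f112_1_400_T f120_1_400_T p14_2_0_T v14_2_0 g14_2_0

theorem i14_2_1 : IvP yB14_2 (nat_lit 1) :=
  iv_sound par14_2 z14_2_1 rfl (by decide +kernel) f112_1_400_T f120_1_400_T f112_1_600_T f120_1_600_T p14_2_1_T v14_2_1 g14_2_1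

theorem i14_2_2 : IvP yB14_2 (nat_lit 2) :=
  iv_sound par14_2 z14_2_2 rfl (by decide +kernel) f112_1_600_T f120_1_600_T f112_1_750_T f120_1_750_T p14_2_2_T v14_2_2 g14_2_2

theorem i14_2_3 : IvP yB14_2 (nat_lit 3) :=
  iv_sound par14_2 z14_2_3 rfl (by decide +kernel) f112_1_750_T f120_1_750_T f112_1_975_T f120_1_975_T p14_2_3_T v14_2_3 g14_2_3

theorem III_14_2 : PropIIIB yB14_2 := III_of par14_2 (n := 3) rfl ⟨⟨⟨⟨trivial, i14_2_0⟩, i14_2_1⟩, i14_2_2⟩, i14_2_3⟩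

theorem i14_3_0 : IvP yB14_3 (nat_lit 0) :=
  iv_sound par14_3 z14_3_0 rfl (by decide +kernel) f120_1_0_T f128_1_0_T f120_1_400_T f128_1_400_T p14_3_0_T v14_3_0 g14_3_0

theorem i14_3_1 : IvP yB14_3 (nat_lit 1) :=
  iv_sound par14_3 z14_3_1 rfl (by decide +kernel) f120_1_400_T f128_1_400_T f120_1_600_T f128_1_600_T p14_3_1_T v14_3_1 g14_3_1

theorem i14_3_2 : IvP yB14_3 (nat_lit 2) :=
  iv_sound par14_3 z14_3_2 rfl (by decide +kernel) f120_1_600_T f128_1_600_T f120_1_750_T f128_1_750_T p14_3_2_T v14_3_2 g14_3_2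

theorem i14_3_3 : IvP yB14_3 (nat_lit 3) :=
  iv_sound par14_3 z14_3_3 rfl (by decide +kernel) f120_1_750_T f128_1_750_T f120_1_960_T f128_1_960_T p14_3_3_T v14_3_3 g14_3_3

theorem III_14_3 : PropIIIB yB14_3 := III_of par14_3 (n := 3) rfl ⟨⟨⟨⟨trivial, i14_3_0⟩, i14_3_1⟩, i14_3_2⟩, i14_3_3⟩

theorem i14_4_0 : IvP yB14_4 (nat_lit 0) :=
  iv_sound par14_4 z14_4_0 rfl (by decide +kernel) f120_1_0_T f128_1_0_T f120_1_400_T f128_1_400_T p14_4_0_T v14_4_0 g14_4_0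

theorem i14_4_1 : IvP yB14_4 (nat_lit 1) :=
  iv_sound par14_4 z14_4_1 rfl (by decide +kernel) f120_1_400_T f128_1_400_T f120_1_600_T f128_1_600_T p14_4_1_T v14_4_1 g14_4_1

theorem i14_4_2 : IvP yB14_4 (nat_lit 2) :=
  iv_sound par14_4 z14_4_2 rfl (by decide +kernel) f120_1_600_T f128_1_600_T f120_1_750_T f128_1_750_T p14_4_2_T v14_4_2 g14_4_2

theorem i14_4_3 : IvP yB14_4 (nat_lit 3) :=
  iv_sound par14_4 z14_4_3 rfl (by decide +kernel) f120_1_750_T f128_1_750_T f120_1_960_T f128_1_960_T p14_4_3_T v14_4_3 g14_4_3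

theorem III_14_4 : PropIIIB yB14_4 := III_of par14_4 (n := 3) rfl ⟨⟨⟨⟨trivial, i14_4_0⟩, i14_4_1⟩, i14_4_2⟩, i14_4_3⟩

theorem i14_5_0 : IvP yB14_5 (nat_lit 0) :=
  iv_sound par14_5 z14_5_0 rfl (by decide +kernel) f128_1_0_T f136_1_0_T f128_1_400_T f136_1_400_T p14_5_0_T v14_5_0 g14_5_0

theorem i14_5_1 : IvP yB14_5 (nat_lit 1) :=
  iv_sound par14_5 z14_5_1 rfl (by decide +kernel) f128_1_400_T f136_1_400_T f128_1_600_T f136_1_600_T p14_5_1_T v14_5_1 g14_5_1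

theorem i14_5_2 : IvP yB14_5 (nat_lit 2) :=
  iv_sound par14_5 z14_5_2 rfl (by decide +kernel) f128_1_600_T f136_1_600_T f128_1_750_T f136_1_750_T p14_5_2_T v14_5_2 g14_5_2

theorem i14_5_3 : IvP yB14_5 (nat_lit 3) :=
  iv_sound par14_5 z14_5_3 rfl (by decide +kernel) f128_1_750_T f136_1_750_T f128_1_943_T f136_1_943_T p14_5_3_T v14_5_3 g14_5_3

theorem III_14_5 : PropIIIB yB14_5 := III_of par14_5 (n := 3) rfl ⟨⟨⟨⟨trivial, i14_5_0⟩, i14_5_1⟩, i14_5_2⟩, i14_5_3⟩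

theorem i14_6_0 : IvP yB14_6 (nat_lit 0) :=
  iv_sound par14_6 z14_6_0 rfl (by decide +kernel) f128_1_0_T f136_1_0_T f128_1_400_T f136_1_400_T p14_6_0_T v14_6_0 g14_6_0

theorem i14_6_1 : IvP yB14_6 (nat_lit 1) :=
  iv_sound par14_6 z14_6_1 rfl (by decide +kernel) f128_1_400_T f136_1_400_T f128_1_600_T f136_1_600_T p14_6_1_T v14_6_1 g14_6_1

theorem i14_6_2 : IvP yB14_6 (nat_lit 2) :=
  iv_sound par14_6 z14_6_2 rfl (by decide +kernel) f128_1_600_T f136_1_600_T f128_1_750_T f136_1_750_T p14_6_2_T v14_6_2 g14_6_2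

theorem i14_6_3 : IvP yB14_6 (nat_lit 3) :=
  iv_sound par14_6 z14_6_3 rfl (by decide +kernel) f128_1_750_T f136_1_750_T f128_1_943_T f136_1_943_T p14_6_3_T v14_6_3 g14_6_3

theorem III_14_6 : PropIIIB yB14_6 := III_of par14_6 (n := 3) rfl ⟨⟨⟨⟨trivial, i14_6_0⟩, i14_6_1⟩, i14_6_2⟩, i14_6_3⟩

theorem i14_7_0 : IvP yB14_7 (nat_lit 0) :=
  iv_sound par14_7 z14_7_0 rfl (by decide +kernel) f136_1_0_T f144_1_0_T f136_1_400_T f144_1_400_T p14_7_0_T v14_7_0 g14_7_0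

theorem i14_7_1 : IvP yB14_7 (nat_lit 1) :=
  iv_sound par14_7 z14_7_1 rfl (by decide +kernel) f136_1_400_T f144_1_400_T f136_1_600_T f144_1_600_T p14_7_1_T v14_7_1 g14_7_1

theorem i14_7_2 : IvP yB14_7 (nat_lit 2) :=
  iv_sound par14_7 z14_7_2 rfl (by decide +kernel) f136_1_600_T f144_1_600_T f136_1_750_T f144_1_750_T p14_7_2_T v14_7_2 g14_7_2

theorem i14_7_3 : IvP yB14_7 (nat_lit 3) :=
  iv_sound par14_7 z14_7_3 rfl (by decide +kernel) f136_1_750_T f144_1_750_T f136_1_922_T f144_1_922_T p14_7_3_T v14_7_3 g14_7_3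

theorem III_14_7 : PropIIIB yB14_7 := III_of par14_7 (n := 3) rfl ⟨⟨⟨⟨trivial, i14_7_0⟩, i14_7_1⟩, i14_7_2⟩, i14_7_3⟩

theorem i14_8_0 : IvP yB14_8 (nat_lit 0) :=
  iv_sound par14_8 z14_8_0 rfl (by decide +kernel) f136_1_0_T f144_1_0_T f136_1_400_T f144_1_400_T p14_8_0_T v14_8_0 g14_8_0

theorem i14_8_1 : IvP yB14_8 (nat_lit 1) :=
  iv_sound par14_8 z14_8_1 rfl (by decide +kernel) f136_1_400_T f144_1_400_T f136_1_600_T f144_1_600_T p14_8_1_T v14_8_1 g14_8_1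

theorem i14_8_2 : IvP yB14_8 (nat_lit 2) :=
  iv_sound par14_8 z14_8_2 rfl (by decide +kernel) f136_1_600_T f144_1_600_T f136_1_750_T f144_1_750_T p14_8_2_T v14_8_2 g14_8_2

theorem i14_8_3 : IvP yB14_8 (nat_lit 3) :=
  iv_sound par14_8 z14_8_3 rfl (by decide +kernel) f136_1_750_T f144_1_750_T f136_1_922_T f144_1_922_T p14_8_3_T v14_8_3 g14_8_3

theorem III_14_8 : PropIIIB yB14_8 := III_of par14_8 (n := 3) rfl ⟨⟨⟨⟨trivial, i14_8_0⟩, i14_8_1⟩, i14_8_2⟩, i14_8_3⟩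

theorem i14_9_0 : IvP yB14_9 (nat_lit 0) :=
  iv_sound par14_9 z14_9_0 rfl (by decide +kernel) f144_1_0_T f152_1_0_T f144_1_400_T f152_1_400_T p14_9_0_T v14_9_0 g14_9_0

theorem i14_9_1 : IvP yB14_9 (nat_lit 1) :=
  iv_sound par14_9 z14_9_1 rfl (by decide +kernel) f144_1_400_T f152_1_400_T f144_1_600_T f152_1_600_T p14_9_1_T v14_9_1 g14_9_1

theorem i14_9_2 : IvP yB14_9 (nat_lit 2) :=
  iv_sound par14_9 z14_9_2 rfl (by decide +kernel) f144_1_600_T f152_1_600_T f144_1_750_T f152_1_750_T p14_9_2_T v14_9_2 g14_9_2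

theorem i14_9_3 : IvP yB14_9 (nat_lit 3) :=
  iv_sound par14_9 z14_9_3 rfl (by decide +kernel) f144_1_750_T f152_1_750_T f144_1_896_T f152_1_896_T p14_9_3_T v14_9_3 g14_9_3

theorem III_14_9 : PropIIIB yB14_9 := III_of par14_9 (n := 3) rfl ⟨⟨⟨⟨trivial, i14_9_0⟩, i14_9_1⟩, i14_9_2⟩, i14_9_3⟩

theorem i14_10_0 : IvP yB14_10 (nat_lit 0) :=
  iv_sound par14_10 z14_10_0 rfl (by decide +kernel) f144_1_0_T f152_1_0_T f144_1_400_T f152_1_400_T p14_10_0_T v14_10_0 g14_10_0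

theorem i14_10_1 : IvP yB14_10 (nat_lit 1) :=
  iv_sound par14_10 z14_10_1 rfl (by decide +kernel) f144_1_400_T f152_1_400_T f144_1_600_T f152_1_600_T p14_10_1_T v14_10_1 g14_10_1

theorem i14_10_2 : IvP yB14_10 (nat_lit 2) :=
  iv_sound par14_10 z14_10_2 rfl (by decide +kernel) f144_1_600_T f152_1_600_T f144_1_750_T f152_1_750_T p14_10_2_T v14_10_2 g14_10_2

theorem i14_10_3 : IvP yB14_10 (nat_lit 3) :=
  iv_sound par14_10 z14_10_3 rfl (by decide +kernel) f144_1_750_T f152_1_750_T f144_1_896_T f152_1_896_T p14_10_3_T v14_10_3 g14_10_3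

theorem III_14_10 : PropIIIB yB14_10 := III_of par14_10 (n := 3) rfl ⟨⟨⟨⟨trivial, i14_10_0⟩, i14_10_1⟩, i14_10_2⟩, i14_10_3⟩

theorem i14_11_0 : IvP yB14_11 (nat_lit 0) :=
  iv_sound par14_11 z14_11_0 rfl (by decide +kernel) f152_1_0_T f160_1_0_T f152_1_400_T f160_1_400_T p14_11_0_T v14_11_0 g14_11_0

theorem i14_11_1 : IvP yB14_11 (nat_lit 1) :=
  iv_sound par14_11 z14_11_1 rfl (by decide +kernel) f152_1_400_T f160_1_400_T f152_1_600_T f160_1_600_T p14_11_1_T v14_11_1 g14_11_1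

theorem i14_11_2 : IvP yB14_11 (nat_lit 2) :=
  iv_sound par14_11 z14_11_2 rfl (by decide +kernel) f152_1_600_T f160_1_600_T f152_1_750_T f160_1_750_T p14_11_2_T v14_11_2 g14_11_2

theorem i14_11_3 : IvP yB14_11 (nat_lit 3) :=
  iv_sound par14_11 z14_11_3 rfl (by decide +kernel) f152_1_750_T f160_1_750_T f152_1_849_T f160_1_849_T p14_11_3_T v14_11_3 g14_11_3

theorem III_14_11 : PropIIIB yB14_11 := III_of par14_11 (n := 3) rfl ⟨⟨⟨⟨trivial, i14_11_0⟩, i14_11_1⟩, i14_11_2⟩, i14_11_3⟩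

theorem i14_12_0 : IvP yB14_12 (nat_lit 0) :=
  iv_sound par14_12 z14_12_0 rfl (by decide +kernel) f152_1_0_T f160_1_0_T f152_1_400_T f160_1_400_T p14_12_0_T v14_12_0 g14_12_0

theorem i14_12_1 : IvP yB14_12 (nat_lit 1) :=
  iv_sound par14_12 z14_12_1 rfl (by decide +kernel) f152_1_400_T f160_1_400_T f152_1_600_T f160_1_600_T p14_12_1_T v14_12_1 g14_12_1

theorem i14_12_2 : IvP yB14_12 (nat_lit 2) :=
  iv_sound par14_12 z14_12_2 rfl (by decide +kernel) f152_1_600_T f160_1_600_T f152_1_750_T f160_1_750_T p14_12_2_T v14_12_2 g14_12_2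

theorem i14_12_3 : IvP yB14_12 (nat_lit 3) :=
  iv_sound par14_12 z14_12_3 rfl (by decide +kernel) f152_1_750_T f160_1_750_T f152_1_867_T f160_1_867_T p14_12_3_T v14_12_3 g14_12_3

theorem III_14_12 : PropIIIB yB14_12 := III_of par14_12 (n := 3) rfl ⟨⟨⟨⟨trivial, i14_12_0⟩, i14_12_1⟩, i14_12_2⟩, i14_12_3⟩

theorem i14_13_0 : IvP yB14_13 (nat_lit 0) :=
  iv_sound par14_13 z14_13_0 rfl (by decide +kernel) f160_1_0_T f168_1_0_T f160_1_400_T f168_1_400_T p14_13_0_T v14_13_0 g14_13_0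

theorem i14_13_1 : IvP yB14_13 (nat_lit 1) :=
  iv_sound par14_13 z14_13_1 rfl (by decide +kernel) f160_1_400_T f168_1_400_T f160_1_600_T f168_1_600_T p14_13_1_T v14_13_1 g14_13_1

theorem i14_13_2 : IvP yB14_13 (nat_lit 2) :=
  iv_sound par14_13 z14_13_2 rfl (by decide +kernel) f160_1_600_T f168_1_600_T f160_1_750_T f168_1_750_T p14_13_2_T v14_13_2 g14_13_2

theorem i14_13_3 : IvP yB14_13 (nat_lit 3) :=
  iv_sound par14_13 z14_13_3 rfl (by decide +kernel) f160_1_750_T f168_1_750_T f160_1_813_T f168_1_813_T p14_13_3_T v14_13_3 g14_13_3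

theorem III_14_13 : PropIIIB yB14_13 := III_of par14_13 (n := 3) rfl ⟨⟨⟨⟨trivial, i14_13_0⟩, i14_13_1⟩, i14_13_2⟩, i14_13_3⟩

theorem i14_14_0 : IvP yB14_14 (nat_lit 0) :=
  iv_sound par14_14 z14_14_0 rfl (by decide +kernel) f160_1_0_T f168_1_0_T f160_1_400_T f168_1_400_T p14_14_0_T v14_14_0 g14_14_0

theorem i14_14_1 : IvP yB14_14 (nat_lit 1) :=
  iv_sound par14_14 z14_14_1 rfl (by decide +kernel) f160_1_400_T f168_1_400_T f160_1_600_T f168_1_600_T p14_14_1_T v14_14_1 g14_14_1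

theorem i14_14_2 : IvP yB14_14 (nat_lit 2) :=
  iv_sound par14_14 z14_14_2 rfl (by decide +kernel) f160_1_600_T f168_1_600_T f160_1_750_T f168_1_750_T p14_14_2_T v14_14_2 g14_14_2

theorem i14_14_3 : IvP yB14_14 (nat_lit 3) :=
  iv_sound par14_14 z14_14_3 rfl (by decide +kernel) f160_1_750_T f168_1_750_T f160_1_832_T f168_1_832_T p14_14_3_T v14_14_3 g14_14_3

theorem III_14_14 : PropIIIB yB14_14 := III_of par14_14 (n := 3) rfl ⟨⟨⟨⟨trivial, i14_14_0⟩, i14_14_1⟩, i14_14_2⟩, i14_14_3⟩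

theorem i14_15_0 : IvP yB14_15 (nat_lit 0) :=
  iv_sound par14_15 z14_15_0 rfl (by decide +kernel) f168_1_0_T f176_1_0_T f168_1_400_T f176_1_400_T p14_15_0_T v14_15_0 g14_15_0

theorem i14_15_1 : IvP yB14_15 (nat_lit 1) :=
  iv_sound par14_15 z14_15_1 rfl (by decide +kernel) f168_1_400_T f176_1_400_T f168_1_600_T f176_1_600_T p14_15_1_T v14_15_1 g14_15_1

theorem i14_15_2 : IvP yB14_15 (nat_lit 2) :=
  iv_sound par14_15 z14_15_2 rfl (by decide +kernel) f168_1_600_T f176_1_600_T f168_1_750_T f176_1_750_T p14_15_2_T v14_15_2 g14_15_2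

theorem i14_15_3 : IvP yB14_15 (nat_lit 3) :=
  iv_sound par14_15 z14_15_3 rfl (by decide +kernel) f168_1_750_T f176_1_750_T f168_1_792_T f176_1_792_T p14_15_3_T v14_15_3 g14_15_3

theorem III_14_15 : PropIIIB yB14_15 := III_of par14_15 (n := 3) rfl ⟨⟨⟨⟨trivial, i14_15_0⟩, i14_15_1⟩, i14_15_2⟩, i14_15_3⟩

theorem i14_16_0 : IvP yB14_16 (nat_lit 0) :=
  iv_sound par14_16 z14_16_0 rfl (by decide +kernel) f168_1_0_T f176_1_0_T f168_1_400_T f176_1_400_T p14_16_0_T v14_16_0 g14_16_0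

theorem i14_16_1 : IvP yB14_16 (nat_lit 1) :=
  iv_sound par14_16 z14_16_1 rfl (by decide +kernel) f168_1_400_T f176_1_400_T f168_1_600_T f176_1_600_T p14_16_1_T v14_16_1 g14_16_1

theorem i14_16_2 : IvP yB14_16 (nat_lit 2) :=
  iv_sound par14_16 z14_16_2 rfl (by decide +kernel) f168_1_600_T f176_1_600_T f168_1_770_T f176_1_770_T p14_16_2_T v14_16_2 g14_16_2

theorem III_14_16 : PropIIIB yB14_16 := III_of par14_16 (n := 2) rfl ⟨⟨⟨trivial, i14_16_0⟩, i14_16_1⟩, i14_16_2⟩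

theorem i14_17_0 : IvP yB14_17 (nat_lit 0) :=
  iv_sound par14_17 z14_17_0 rfl (by decide +kernel) f176_0_0_T f184_0_0_T f176_0_400_T f184_0_400_T p14_17_0_T v14_17_0 g14_17_0

theorem i14_17_1 : IvP yB14_17 (nat_lit 1) :=
  iv_sound par14_17 z14_17_1 rfl (by decide +kernel) f176_0_400_T f184_0_400_T f176_0_600_T f184_0_600_T p14_17_1_T v14_17_1 g14_17_1

theorem i14_17_2 : IvP yB14_17 (nat_lit 2) :=
  iv_sound par14_17 z14_17_2 rfl (by decide +kernel) f176_0_600_T f184_0_600_T f176_0_743_T f184_0_743_T p14_17_2_T v14_17_2 g14_17_2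

theorem III_14_17 : PropIIIB yB14_17 := III_of par14_17 (n := 2) rfl ⟨⟨⟨trivial, i14_17_0⟩, i14_17_1⟩, i14_17_2⟩

theorem i14_18_0 : IvP yB14_18 (nat_lit 0) :=
  iv_sound par14_18 z14_18_0 rfl (by decide +kernel) f176_0_0_T f184_0_0_T f176_0_400_T f184_0_400_T p14_18_0_T v14_18_0 g14_18_0

theorem i14_18_1 : IvP yB14_18 (nat_lit 1) :=
  iv_sound par14_18 z14_18_1 rfl (by decide +kernel) f176_0_400_T f184_0_400_T f176_0_600_T f184_0_600_T p14_18_1_T v14_18_1 g14_18_1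

theorem i14_18_2 : IvP yB14_18 (nat_lit 2) :=
  iv_sound par14_18 z14_18_2 rfl (by decide +kernel) f176_0_600_T f184_0_600_T f176_0_743_T f184_0_743_T p14_18_2_T v14_18_2 g14_18_2

theorem III_14_18 : PropIIIB yB14_18 := III_of par14_18 (n := 2) rfl ⟨⟨⟨trivial, i14_18_0⟩, i14_18_1⟩, i14_18_2⟩

theorem i14_19_0 : IvP yB14_19 (nat_lit 0) :=
  iv_sound par14_19 z14_19_0 rfl (by decide +kernel) f184_0_0_T f192_0_0_T f184_0_400_T f192_0_400_T p14_19_0_T v14_19_0 g14_19_0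

theorem i14_19_1 : IvP yB14_19 (nat_lit 1) :=
  iv_sound par14_19 z14_19_1 rfl (by decide +kernel) f184_0_400_T f192_0_400_T f184_0_600_T f192_0_600_T p14_19_1_T v14_19_1 g14_19_1

theorem i14_19_2 : IvP yB14_19 (nat_lit 2) :=
  iv_sound par14_19 z14_19_2 rfl (by decide +kernel) f184_0_600_T f192_0_600_T f184_0_682_T f192_0_682_T p14_19_2_T v14_19_2 g14_19_2

theorem III_14_19 : PropIIIB yB14_19 := III_of par14_19 (n := 2) rfl ⟨⟨⟨trivial, i14_19_0⟩, i14_19_1⟩, i14_19_2⟩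

theorem i14_20_0 : IvP yB14_20 (nat_lit 0) :=
  iv_sound par14_20 z14_20_0 rfl (by decide +kernel) f184_0_0_T f192_0_0_T f184_0_400_T f192_0_400_T p14_20_0_T v14_20_0 g14_20_0

theorem i14_20_1 : IvP yB14_20 (nat_lit 1) :=
  iv_sound par14_20 z14_20_1 rfl (by decide +kernel) f184_0_400_T f192_0_400_T f184_0_600_T f192_0_600_T p14_20_1_T v14_20_1 g14_20_1

theorem i14_20_2 : IvP yB14_20 (nat_lit 2) :=
  iv_sound par14_20 z14_20_2 rfl (by decide +kernel) f184_0_600_T f192_0_600_T f184_0_682_T f192_0_682_T p14_20_2_T v14_20_2 g14_20_2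

theorem III_14_20 : PropIIIB yB14_20 := III_of par14_20 (n := 2) rfl ⟨⟨⟨trivial, i14_20_0⟩, i14_20_1⟩, i14_20_2⟩

theorem i14_21_0 : IvP yB14_21 (nat_lit 0) :=
  iv_sound par14_21 z14_21_0 rfl (by decide +kernel) f192_0_0_T f200_0_0_T f192_0_400_T f200_0_400_T p14_21_0_T v14_21_0 g14_21_0

theorem i14_21_1 : IvP yB14_21 (nat_lit 1) :=
  iv_sound par14_21 z14_21_1 rfl (by decide +kernel) f192_0_400_T f200_0_400_T f192_0_601_T f200_0_601_T p14_21_1_T v14_21_1 g14_21_1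

theorem III_14_21 : PropIIIB yB14_21 := III_of par14_21 (n := 1) rfl ⟨⟨trivial, i14_21_0⟩, i14_21_1⟩

theorem i14_22_0 : IvP yB14_22 (nat_lit 0) :=
  iv_sound par14_22 z14_22_0 rfl (by decide +kernel) f192_0_0_T f200_0_0_T f192_0_400_T f200_0_400_T p14_22_0_T v14_22_0 g14_22_0

theorem i14_22_1 : IvP yB14_22 (nat_lit 1) :=
  iv_sound par14_22 z14_22_1 rfl (by decide +kernel) f192_0_400_T f200_0_400_T f192_0_601_T f200_0_601_T p14_22_1_T v14_22_1 g14_22_1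

theorem III_14_22 : PropIIIB yB14_22 := III_of par14_22 (n := 1) rfl ⟨⟨trivial, i14_22_0⟩, i14_22_1⟩

theorem i14_23_0 : IvP yB14_23 (nat_lit 0) :=
  iv_sound par14_23 z14_23_0 rfl (by decide +kernel) f192_0_0_T f200_0_0_T f192_0_400_T f200_0_400_T p14_23_0_T v14_23_0 g14_23_0

theorem i14_23_1 : IvP yB14_23 (nat_lit 1) :=
  iv_sound par14_23 z14_23_1 rfl (by decide +kernel) f192_0_400_T f200_0_400_T f192_0_601_T f200_0_601_T p14_23_1_T v14_23_1 g14_23_1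

theorem III_14_23 : PropIIIB yB14_23 := III_of par14_23 (n := 1) rfl ⟨⟨trivial, i14_23_0⟩, i14_23_1⟩

theorem i15_0_0 : IvP yB15_0 (nat_lit 0) :=
  iv_sound par15_0 z15_0_0 rfl (by decide +kernel) f104_1_0_T f112_1_0_T f104_1_400_T f112_1_400_T p15_0_0_T v15_0_0 g15_0_0

theorem i15_0_1 : IvP yB15_0 (nat_lit 1) :=
  iv_sound par15_0 z15_0_1 rfl (by decide +kernel) f104_1_400_T f112_1_400_T f104_1_600_T f112_1_600_T p15_0_1_T v15_0_1 g15_0_1

theorem i15_0_2 : IvP yB15_0 (nat_lit 2) :=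
  iv_sound par15_0 z15_0_2 rfl (by decide +kernel) f104_1_600_T f112_1_600_T f104_1_750_T f112_1_750_T p15_0_2_T v15_0_2 g15_0_2

theorem i15_0_3 : IvP yB15_0 (nat_lit 3) :=
  iv_sound par15_0 z15_0_3 rfl (by decide +kernel) f104_1_750_T f112_1_750_T f104_1_986_T f112_1_986_T p15_0_3_T v15_0_3 g15_0_3

theorem III_15_0 : PropIIIB yB15_0 := III_of par15_0 (n := 3) rfl ⟨⟨⟨⟨trivial, i15_0_0⟩, i15_0_1⟩, i15_0_2⟩, i15_0_3⟩

theorem i15_1_0 : IvP yB15_1 (nat_lit 0) :=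
  iv_sound par15_1 z15_1_0 rfl (by decide +kernel) f112_1_0_T f120_1_0_T f112_1_400_T f120_1_400_T p15_1_0_T v15_1_0 g15_1_0

theorem i15_1_1 : IvP yB15_1 (nat_lit 1) :=
  iv_sound par15_1 z15_1_1 rfl (by decide +kernel) f112_1_400_T f120_1_400_T f112_1_600_T f120_1_600_T p15_1_1_T v15_1_1 g15_1_1

theorem i15_1_2 : IvP yB15_1 (nat_lit 2) :=
  iv_sound par15_1 z15_1_2 rfl (by decide +kernel) f112_1_600_T f120_1_600_T f112_1_750_T f120_1_750_T p15_1_2_T v15_1_2 g15_1_2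

theorem i15_1_3 : IvP yB15_1 (nat_lit 3) :=
  iv_sound par15_1 z15_1_3 rfl (by decide +kernel) f112_1_750_T f120_1_750_T f112_1_975_T f120_1_975_T p15_1_3_T v15_1_3 g15_1_3

theorem III_15_1 : PropIIIB yB15_1 := III_of par15_1 (n := 3) rfl ⟨⟨⟨⟨trivial, i15_1_0⟩, i15_1_1⟩, i15_1_2⟩, i15_1_3⟩

theorem i15_2_0 : IvP yB15_2 (nat_lit 0) :=
  iv_sound par15_2 z15_2_0 rfl (by decide +kernel) f112_1_0_T f120_1_0_T f112_1_400_T f120_1_400_T p15_2_0_T v15_2_0 g15_2_0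

theorem i15_2_1 : IvP yB15_2 (nat_lit 1) :=
  iv_sound par15_2 z15_2_1 rfl (by decide +kernel) f112_1_400_T f120_1_400_T f112_1_600_T f120_1_600_T p15_2_1_T v15_2_1 g15_2_1

theorem i15_2_2 : IvP yB15_2 (nat_lit 2) :=
  iv_sound par15_2 z15_2_2 rfl (by decide +kernel) f112_1_600_T f120_1_600_T f112_1_750_T f120_1_750_T p15_2_2_T v15_2_2 g15_2_2

theorem i15_2_3 : IvP yB15_2 (nat_lit 3) :=
  iv_sound par15_2 z15_2_3 rfl (by decide +kernel) f112_1_750_T f120_1_750_T f112_1_975_T f120_1_975_T p15_2_3_T v15_2_3 g15_2_3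

theorem III_15_2 : PropIIIB yB15_2 := III_of par15_2 (n := 3) rfl ⟨⟨⟨⟨trivial, i15_2_0⟩, i15_2_1⟩, i15_2_2⟩, i15_2_3⟩

theorem i15_3_0 : IvP yB15_3 (nat_lit 0) :=
  iv_sound par15_3 z15_3_0 rfl (by decide +kernel) f120_1_0_T f128_1_0_T f120_1_400_T f128_1_400_T p15_3_0_T v15_3_0 g15_3_0

theorem i15_3_1 : IvP yB15_3 (nat_lit 1) :=
  iv_sound par15_3 z15_3_1 rfl (by decide +kernel) f120_1_400_T f128_1_400_T f120_1_600_T f128_1_600_T p15_3_1_T v15_3_1 g15_3_1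

theorem i15_3_2 : IvP yB15_3 (nat_lit 2) :=
  iv_sound par15_3 z15_3_2 rfl (by decide +kernel) f120_1_600_T f128_1_600_T f120_1_750_T f128_1_750_T p15_3_2_T v15_3_2 g15_3_2

theorem i15_3_3 : IvP yB15_3 (nat_lit 3) :=
  iv_sound par15_3 z15_3_3 rfl (by decide +kernel) f120_1_750_T f128_1_750_T f120_1_960_T f128_1_960_T p15_3_3_T v15_3_3 g15_3_3

theorem III_15_3 : PropIIIB yB15_3 := III_of par15_3 (n := 3) rfl ⟨⟨⟨⟨trivial, i15_3_0⟩, i15_3_1⟩, i15_3_2⟩, i15_3_3⟩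

theorem i15_4_0 : IvP yB15_4 (nat_lit 0) :=
  iv_sound par15_4 z15_4_0 rfl (by decide +kernel) f120_1_0_T f128_1_0_T f120_1_400_T f128_1_400_T p15_4_0_T v15_4_0 g15_4_0

theorem i15_4_1 : IvP yB15_4 (nat_lit 1) :=
  iv_sound par15_4 z15_4_1 rfl (by decide +kernel) f120_1_400_T f128_1_400_T f120_1_600_T f128_1_600_T p15_4_1_T v15_4_1 g15_4_1

theorem i15_4_2 : IvP yB15_4 (nat_lit 2) :=
  iv_sound par15_4 z15_4_2 rfl (by decide +kernel) f120_1_600_T f128_1_600_T f120_1_750_T f128_1_750_T p15_4_2_T v15_4_2 g15_4_2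

theorem i15_4_3 : IvP yB15_4 (nat_lit 3) :=
  iv_sound par15_4 z15_4_3 rfl (by decide +kernel) f120_1_750_T f128_1_750_T f120_1_960_T f128_1_960_T p15_4_3_T v15_4_3 g15_4_3

theorem III_15_4 : PropIIIB yB15_4 := III_of par15_4 (n := 3) rfl ⟨⟨⟨⟨trivial, i15_4_0⟩, i15_4_1⟩, i15_4_2⟩, i15_4_3⟩

theorem i15_5_0 : IvP yB15_5 (nat_lit 0) :=
  iv_sound par15_5 z15_5_0 rfl (by decide +kernel) f128_1_0_T f136_1_0_T f128_1_400_T f136_1_400_T p15_5_0_T v15_5_0 g15_5_0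

theorem i15_5_1 : IvP yB15_5 (nat_lit 1) :=
  iv_sound par15_5 z15_5_1 rfl (by decide +kernel) f128_1_400_T f136_1_400_T f128_1_600_T f136_1_600_T p15_5_1_T v15_5_1 g15_5_1

theorem i15_5_2 : IvP yB15_5 (nat_lit 2) :=
  iv_sound par15_5 z15_5_2 rfl (by decide +kernel) f128_1_600_T f136_1_600_T f128_1_750_T f136_1_750_T p15_5_2_T v15_5_2 g15_5_2

theorem i15_5_3 : IvP yB15_5 (nat_lit 3) :=
  iv_sound par15_5 z15_5_3 rfl (by decide +kernel) f128_1_750_T f136_1_750_T f128_1_943_T f136_1_943_T p15_5_3_T v15_5_3 g15_5_3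

theorem III_15_5 : PropIIIB yB15_5 := III_of par15_5 (n := 3) rfl ⟨⟨⟨⟨trivial, i15_5_0⟩, i15_5_1⟩, i15_5_2⟩, i15_5_3⟩

theorem i15_6_0 : IvP yB15_6 (nat_lit 0) :=
  iv_sound par15_6 z15_6_0 rfl (by decide +kernel) f128_1_0_T f136_1_0_T f128_1_400_T f136_1_400_T p15_6_0_T v15_6_0 g15_6_0

theorem i15_6_1 : IvP yB15_6 (nat_lit 1) :=
  iv_sound par15_6 z15_6_1 rfl (by decide +kernel) f128_1_400_T f136_1_400_T f128_1_600_T f136_1_600_T p15_6_1_T v15_6_1 g15_6_1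

theorem i15_6_2 : IvP yB15_6 (nat_lit 2) :=
  iv_sound par15_6 z15_6_2 rfl (by decide +kernel) f128_1_600_T f136_1_600_T f128_1_750_T f136_1_750_T p15_6_2_T v15_6_2 g15_6_2

theorem i15_6_3 : IvP yB15_6 (nat_lit 3) :=
  iv_sound par15_6 z15_6_3 rfl (by decide +kernel) f128_1_750_T f136_1_750_T f128_1_943_T f136_1_943_T p15_6_3_T v15_6_3 g15_6_3

theorem III_15_6 : PropIIIB yB15_6 := III_of par15_6 (n := 3) rfl ⟨⟨⟨⟨trivial, i15_6_0⟩, i15_6_1⟩, i15_6_2⟩, i15_6_3⟩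

theorem i15_7_0 : IvP yB15_7 (nat_lit 0) :=
  iv_sound par15_7 z15_7_0 rfl (by decide +kernel) f128_1_0_T f136_1_0_T f128_1_400_T f136_1_400_T p15_7_0_T v15_7_0 g15_7_0

theorem i15_7_1 : IvP yB15_7 (nat_lit 1) :=
  iv_sound par15_7 z15_7_1 rfl (by decide +kernel) f128_1_400_T f136_1_400_T f128_1_600_T f136_1_600_T p15_7_1_T v15_7_1 g15_7_1

theorem i15_7_2 : IvP yB15_7 (nat_lit 2) :=
  iv_sound par15_7 z15_7_2 rfl (by decide +kernel) f128_1_600_T f136_1_600_T f128_1_750_T f136_1_750_T p15_7_2_T v15_7_2 g15_7_2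

theorem i15_7_3 : IvP yB15_7 (nat_lit 3) :=
  iv_sound par15_7 z15_7_3 rfl (by decide +kernel) f128_1_750_T f136_1_750_T f128_1_943_T f136_1_943_T p15_7_3_T v15_7_3 g15_7_3

theorem III_15_7 : PropIIIB yB15_7 := III_of par15_7 (n := 3) rfl ⟨⟨⟨⟨trivial, i15_7_0⟩, i15_7_1⟩, i15_7_2⟩, i15_7_3⟩

theorem i15_8_0 : IvP yB15_8 (nat_lit 0) :=
  iv_sound par15_8 z15_8_0 rfl (by decide +kernel) f136_1_0_T f144_1_0_T f136_1_400_T f144_1_400_T p15_8_0_T v15_8_0 g15_8_0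

theorem i15_8_1 : IvP yB15_8 (nat_lit 1) :=
  iv_sound par15_8 z15_8_1 rfl (by decide +kernel) f136_1_400_T f144_1_400_T f136_1_600_T f144_1_600_T p15_8_1_T v15_8_1 g15_8_1

theorem i15_8_2 : IvP yB15_8 (nat_lit 2) :=
  iv_sound par15_8 z15_8_2 rfl (by decide +kernel) f136_1_600_T f144_1_600_T f136_1_750_T f144_1_750_T p15_8_2_T v15_8_2 g15_8_2

theorem i15_8_3 : IvP yB15_8 (nat_lit 3) :=
  iv_sound par15_8 z15_8_3 rfl (by decide +kernel) f136_1_750_T f144_1_750_T f136_1_922_T f144_1_922_T p15_8_3_T v15_8_3 g15_8_3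

theorem III_15_8 : PropIIIB yB15_8 := III_of par15_8 (n := 3) rfl ⟨⟨⟨⟨trivial, i15_8_0⟩, i15_8_1⟩, i15_8_2⟩, i15_8_3⟩

theorem i15_9_0 : IvP yB15_9 (nat_lit 0) :=
  iv_sound par15_9 z15_9_0 rfl (by decide +kernel) f136_1_0_T f144_1_0_T f136_1_400_T f144_1_400_T p15_9_0_T v15_9_0 g15_9_0

theorem i15_9_1 : IvP yB15_9 (nat_lit 1) :=
  iv_sound par15_9 z15_9_1 rfl (by decide +kernel) f136_1_400_T f144_1_400_T f136_1_600_T f144_1_600_T p15_9_1_T v15_9_1 g15_9_1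

theorem i15_9_2 : IvP yB15_9 (nat_lit 2) :=
  iv_sound par15_9 z15_9_2 rfl (by decide +kernel) f136_1_600_T f144_1_600_T f136_1_750_T f144_1_750_T p15_9_2_T v15_9_2 g15_9_2

theorem i15_9_3 : IvP yB15_9 (nat_lit 3) :=
  iv_sound par15_9 z15_9_3 rfl (by decide +kernel) f136_1_750_T f144_1_750_T f136_1_922_T f144_1_922_T p15_9_3_T v15_9_3 g15_9_3

theorem III_15_9 : PropIIIB yB15_9 := III_of par15_9 (n := 3) rfl ⟨⟨⟨⟨trivial, i15_9_0⟩, i15_9_1⟩, i15_9_2⟩, i15_9_3⟩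

theorem i15_10_0 : IvP yB15_10 (nat_lit 0) :=
  iv_sound par15_10 z15_10_0 rfl (by decide +kernel) f136_1_0_T f144_1_0_T f136_1_400_T f144_1_400_T p15_10_0_T v15_10_0 g15_10_0

theorem i15_10_1 : IvP yB15_10 (nat_lit 1) :=
  iv_sound par15_10 z15_10_1 rfl (by decide +kernel) f136_1_400_T f144_1_400_T f136_1_600_T f144_1_600_T p15_10_1_T v15_10_1 g15_10_1

theorem i15_10_2 : IvP yB15_10 (nat_lit 2) :=
  iv_sound par15_10 z15_10_2 rfl (by decide +kernel) f136_1_600_T f144_1_600_T f136_1_750_T f144_1_750_T p15_10_2_T v15_10_2 g15_10_2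

theorem i15_10_3 : IvP yB15_10 (nat_lit 3) :=
  iv_sound par15_10 z15_10_3 rfl (by decide +kernel) f136_1_750_T f144_1_750_T f136_1_922_T f144_1_922_T p15_10_3_T v15_10_3 g15_10_3

theorem III_15_10 : PropIIIB yB15_10 := III_of par15_10 (n := 3) rfl ⟨⟨⟨⟨trivial, i15_10_0⟩, i15_10_1⟩, i15_10_2⟩, i15_10_3⟩

theorem i15_11_0 : IvP yB15_11 (nat_lit 0) :=
  iv_sound par15_11 z15_11_0 rfl (by decide +kernel) f136_1_0_T f144_1_0_T f136_1_400_T f144_1_400_T p15_11_0_T v15_11_0 g15_11_0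

theorem i15_11_1 : IvP yB15_11 (nat_lit 1) :=
  iv_sound par15_11 z15_11_1 rfl (by decide +kernel) f136_1_400_T f144_1_400_T f136_1_600_T f144_1_600_T p15_11_1_T v15_11_1 g15_11_1

theorem i15_11_2 : IvP yB15_11 (nat_lit 2) :=
  iv_sound par15_11 z15_11_2 rfl (by decide +kernel) f136_1_600_T f144_1_600_T f136_1_750_T f144_1_750_T p15_11_2_T v15_11_2 g15_11_2

theorem i15_11_3 : IvP yB15_11 (nat_lit 3) :=
  iv_sound par15_11 z15_11_3 rfl (by decide +kernel) f136_1_750_T f144_1_750_T f136_1_922_T f144_1_922_T p15_11_3_T v15_11_3 g15_11_3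

theorem III_15_11 : PropIIIB yB15_11 := III_of par15_11 (n := 3) rfl ⟨⟨⟨⟨trivial, i15_11_0⟩, i15_11_1⟩, i15_11_2⟩, i15_11_3⟩

theorem i15_12_0 : IvP yB15_12 (nat_lit 0) :=
  iv_sound par15_12 z15_12_0 rfl (by decide +kernel) f144_1_0_T f152_1_0_T f144_1_400_T f152_1_400_T p15_12_0_T v15_12_0 g15_12_0

theorem i15_12_1 : IvP yB15_12 (nat_lit 1) :=
  iv_sound par15_12 z15_12_1 rfl (by decide +kernel) f144_1_400_T f152_1_400_T f144_1_600_T f152_1_600_T p15_12_1_T v15_12_1 g15_12_1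

theorem i15_12_2 : IvP yB15_12 (nat_lit 2) :=
  iv_sound par15_12 z15_12_2 rfl (by decide +kernel) f144_1_600_T f152_1_600_T f144_1_750_T f152_1_750_T p15_12_2_T v15_12_2 g15_12_2

theorem i15_12_3 : IvP yB15_12 (nat_lit 3) :=
  iv_sound par15_12 z15_12_3 rfl (by decide +kernel) f144_1_750_T f152_1_750_T f144_1_896_T f152_1_896_T p15_12_3_T v15_12_3 g15_12_3

theorem III_15_12 : PropIIIB yB15_12 := III_of par15_12 (n := 3) rfl ⟨⟨⟨⟨trivial, i15_12_0⟩, i15_12_1⟩, i15_12_2⟩, i15_12_3⟩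

theorem i15_13_0 : IvP yB15_13 (nat_lit 0) :=
  iv_sound par15_13 z15_13_0 rfl (by decide +kernel) f144_1_0_T f152_1_0_T f144_1_400_T f152_1_400_T p15_13_0_T v15_13_0 g15_13_0

theorem i15_13_1 : IvP yB15_13 (nat_lit 1) :=
  iv_sound par15_13 z15_13_1 rfl (by decide +kernel) f144_1_400_T f152_1_400_T f144_1_600_T f152_1_600_T p15_13_1_T v15_13_1 g15_13_1

theorem i15_13_2 : IvP yB15_13 (nat_lit 2) :=
  iv_sound par15_13 z15_13_2 rfl (by decide +kernel) f144_1_600_T f152_1_600_T f144_1_750_T f152_1_750_T p15_13_2_T v15_13_2 g15_13_2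

theorem i15_13_3 : IvP yB15_13 (nat_lit 3) :=
  iv_sound par15_13 z15_13_3 rfl (by decide +kernel) f144_1_750_T f152_1_750_T f144_1_896_T f152_1_896_T p15_13_3_T v15_13_3 g15_13_3

theorem III_15_13 : PropIIIB yB15_13 := III_of par15_13 (n := 3) rfl ⟨⟨⟨⟨trivial, i15_13_0⟩, i15_13_1⟩, i15_13_2⟩, i15_13_3⟩

theorem i15_14_0 : IvP yB15_14 (nat_lit 0) :=
  iv_sound par15_14 z15_14_0 rfl (by decide +kernel) f144_1_0_T f152_1_0_T f144_1_400_T f152_1_400_T p15_14_0_T v15_14_0 g15_14_0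

theorem i15_14_1 : IvP yB15_14 (nat_lit 1) :=
  iv_sound par15_14 z15_14_1 rfl (by decide +kernel) f144_1_400_T f152_1_400_T f144_1_600_T f152_1_600_T p15_14_1_T v15_14_1 g15_14_1

theorem i15_14_2 : IvP yB15_14 (nat_lit 2) :=
  iv_sound par15_14 z15_14_2 rfl (by decide +kernel) f144_1_600_T f152_1_600_T f144_1_750_T f152_1_750_T p15_14_2_T v15_14_2 g15_14_2

theorem i15_14_3 : IvP yB15_14 (nat_lit 3) :=
  iv_sound par15_14 z15_14_3 rfl (by decide +kernel) f144_1_750_T f152_1_750_T f144_1_896_T f152_1_896_T p15_14_3_T v15_14_3 g15_14_3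

theorem III_15_14 : PropIIIB yB15_14 := III_of par15_14 (n := 3) rfl ⟨⟨⟨⟨trivial, i15_14_0⟩, i15_14_1⟩, i15_14_2⟩, i15_14_3⟩

theorem i15_15_0 : IvP yB15_15 (nat_lit 0) :=
  iv_sound par15_15 z15_15_0 rfl (by decide +kernel) f144_1_0_T f152_1_0_T f144_1_400_T f152_1_400_T p15_15_0_T v15_15_0 g15_15_0

theorem i15_15_1 : IvP yB15_15 (nat_lit 1) :=
  iv_sound par15_15 z15_15_1 rfl (by decide +kernel) f144_1_400_T f152_1_400_T f144_1_600_T f152_1_600_T p15_15_1_T v15_15_1 g15_15_1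

theorem i15_15_2 : IvP yB15_15 (nat_lit 2) :=
  iv_sound par15_15 z15_15_2 rfl (by decide +kernel) f144_1_600_T f152_1_600_T f144_1_750_T f152_1_750_T p15_15_2_T v15_15_2 g15_15_2

theorem i15_15_3 : IvP yB15_15 (nat_lit 3) :=
  iv_sound par15_15 z15_15_3 rfl (by decide +kernel) f144_1_750_T f152_1_750_T f144_1_896_T f152_1_896_T p15_15_3_T v15_15_3 g15_15_3

theorem III_15_15 : PropIIIB yB15_15 := III_of par15_15 (n := 3) rfl ⟨⟨⟨⟨trivial, i15_15_0⟩, i15_15_1⟩, i15_15_2⟩, i15_15_3⟩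

theorem i15_16_0 : IvP yB15_16 (nat_lit 0) :=
  iv_sound par15_16 z15_16_0 rfl (by decide +kernel) f152_1_0_T f160_1_0_T f152_1_400_T f160_1_400_T p15_16_0_T v15_16_0 g15_16_0

theorem i15_16_1 : IvP yB15_16 (nat_lit 1) :=
  iv_sound par15_16 z15_16_1 rfl (by decide +kernel) f152_1_400_T f160_1_400_T f152_1_600_T f160_1_600_T p15_16_1_T v15_16_1 g15_16_1

theorem i15_16_2 : IvP yB15_16 (nat_lit 2) :=
  iv_sound par15_16 z15_16_2 rfl (by decide +kernel) f152_1_600_T f160_1_600_T f152_1_750_T f160_1_750_T p15_16_2_T v15_16_2 g15_16_2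

theorem i15_16_3 : IvP yB15_16 (nat_lit 3) :=
  iv_sound par15_16 z15_16_3 rfl (by decide +kernel) f152_1_750_T f160_1_750_T f152_1_867_T f160_1_867_T p15_16_3_T v15_16_3 g15_16_3

theorem III_15_16 : PropIIIB yB15_16 := III_of par15_16 (n := 3) rfl ⟨⟨⟨⟨trivial, i15_16_0⟩, i15_16_1⟩, i15_16_2⟩, i15_16_3⟩

theorem i15_17_0 : IvP yB15_17 (nat_lit 0) :=
  iv_sound par15_17 z15_17_0 rfl (by decide +kernel) f152_1_0_T f160_1_0_T f152_1_400_T f160_1_400_T p15_17_0_T v15_17_0 g15_17_0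

theorem i15_17_1 : IvP yB15_17 (nat_lit 1) :=
  iv_sound par15_17 z15_17_1 rfl (by decide +kernel) f152_1_400_T f160_1_400_T f152_1_600_T f160_1_600_T p15_17_1_T v15_17_1 g15_17_1

theorem i15_17_2 : IvP yB15_17 (nat_lit 2) :=
  iv_sound par15_17 z15_17_2 rfl (by decide +kernel) f152_1_600_T f160_1_600_T f152_1_750_T f160_1_750_T p15_17_2_T v15_17_2 g15_17_2

theorem i15_17_3 : IvP yB15_17 (nat_lit 3) :=
  iv_sound par15_17 z15_17_3 rfl (by decide +kernel) f152_1_750_T f160_1_750_T f152_1_867_T f160_1_867_T p15_17_3_T v15_17_3 g15_17_3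

theorem III_15_17 : PropIIIB yB15_17 := III_of par15_17 (n := 3) rfl ⟨⟨⟨⟨trivial, i15_17_0⟩, i15_17_1⟩, i15_17_2⟩, i15_17_3⟩

theorem i15_18_0 : IvP yB15_18 (nat_lit 0) :=
  iv_sound par15_18 z15_18_0 rfl (by decide +kernel) f152_1_0_T f160_1_0_T f152_1_400_T f160_1_400_T p15_18_0_T v15_18_0 g15_18_0

theorem i15_18_1 : IvP yB15_18 (nat_lit 1) :=
  iv_sound par15_18 z15_18_1 rfl (by decide +kernel) f152_1_400_T f160_1_400_T f152_1_600_T f160_1_600_T p15_18_1_T v15_18_1 g15_18_1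

theorem i15_18_2 : IvP yB15_18 (nat_lit 2) :=
  iv_sound par15_18 z15_18_2 rfl (by decide +kernel) f152_1_600_T f160_1_600_T f152_1_750_T f160_1_750_T p15_18_2_T v15_18_2 g15_18_2

theorem i15_18_3 : IvP yB15_18 (nat_lit 3) :=
  iv_sound par15_18 z15_18_3 rfl (by decide +kernel) f152_1_750_T f160_1_750_T f152_1_867_T f160_1_867_T p15_18_3_T v15_18_3 g15_18_3

theorem III_15_18 : PropIIIB yB15_18 := III_of par15_18 (n := 3) rfl ⟨⟨⟨⟨trivial, i15_18_0⟩, i15_18_1⟩, i15_18_2⟩, i15_18_3⟩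

theorem i15_19_0 : IvP yB15_19 (nat_lit 0) :=
  iv_sound par15_19 z15_19_0 rfl (by decide +kernel) f152_1_0_T f160_1_0_T f152_1_400_T f160_1_400_T p15_19_0_T v15_19_0 g15_19_0

theorem i15_19_1 : IvP yB15_19 (nat_lit 1) :=
  iv_sound par15_19 z15_19_1 rfl (by decide +kernel) f152_1_400_T f160_1_400_T f152_1_600_T f160_1_600_T p15_19_1_T v15_19_1 g15_19_1

theorem i15_19_2 : IvP yB15_19 (nat_lit 2) :=
  iv_sound par15_19 z15_19_2 rfl (by decide +kernel) f152_1_600_T f160_1_600_T f152_1_750_T f160_1_750_T p15_19_2_T v15_19_2 g15_19_2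

theorem i15_19_3 : IvP yB15_19 (nat_lit 3) :=
  iv_sound par15_19 z15_19_3 rfl (by decide +kernel) f152_1_750_T f160_1_750_T f152_1_867_T f160_1_867_T p15_19_3_T v15_19_3 g15_19_3

theorem III_15_19 : PropIIIB yB15_19 := III_of par15_19 (n := 3) rfl ⟨⟨⟨⟨trivial, i15_19_0⟩, i15_19_1⟩, i15_19_2⟩, i15_19_3⟩

theorem i15_20_0 : IvP yB15_20 (nat_lit 0) :=
  iv_sound par15_20 z15_20_0 rfl (by decide +kernel) f152_1_0_T f160_1_0_T f152_1_400_T f160_1_400_T p15_20_0_T v15_20_0 g15_20_0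

theorem i15_20_1 : IvP yB15_20 (nat_lit 1) :=
  iv_sound par15_20 z15_20_1 rfl (by decide +kernel) f152_1_400_T f160_1_400_T f152_1_600_T f160_1_600_T p15_20_1_T v15_20_1 g15_20_1

theorem i15_20_2 : IvP yB15_20 (nat_lit 2) :=
  iv_sound par15_20 z15_20_2 rfl (by decide +kernel) f152_1_600_T f160_1_600_T f152_1_750_T f160_1_750_T p15_20_2_T v15_20_2 g15_20_2

theorem i15_20_3 : IvP yB15_20 (nat_lit 3) :=
  iv_sound par15_20 z15_20_3 rfl (by decide +kernel) f152_1_750_T f160_1_750_T f152_1_867_T f160_1_867_T p15_20_3_T v15_20_3 g15_20_3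

theorem III_15_20 : PropIIIB yB15_20 := III_of par15_20 (n := 3) rfl ⟨⟨⟨⟨trivial, i15_20_0⟩, i15_20_1⟩, i15_20_2⟩, i15_20_3⟩

theorem i15_21_0 : IvP yB15_21 (nat_lit 0) :=
  iv_sound par15_21 z15_21_0 rfl (by decide +kernel) f160_1_0_T f168_1_0_T f160_1_400_T f168_1_400_T p15_21_0_T v15_21_0 g15_21_0

theorem i15_21_1 : IvP yB15_21 (nat_lit 1) :=
  iv_sound par15_21 z15_21_1 rfl (by decide +kernel) f160_1_400_T f168_1_400_T f160_1_600_T f168_1_600_T p15_21_1_T v15_21_1 g15_21_1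

theorem i15_21_2 : IvP yB15_21 (nat_lit 2) :=
  iv_sound par15_21 z15_21_2 rfl (by decide +kernel) f160_1_600_T f168_1_600_T f160_1_750_T f168_1_750_T p15_21_2_T v15_21_2 g15_21_2

theorem i15_21_3 : IvP yB15_21 (nat_lit 3) :=
  iv_sound par15_21 z15_21_3 rfl (by decide +kernel) f160_1_750_T f168_1_750_T f160_1_832_T f168_1_832_T p15_21_3_T v15_21_3 g15_21_3

theorem III_15_21 : PropIIIB yB15_21 := III_of par15_21 (n := 3) rfl ⟨⟨⟨⟨trivial, i15_21_0⟩, i15_21_1⟩, i15_21_2⟩, i15_21_3⟩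

theorem i15_22_0 : IvP yB15_22 (nat_lit 0) :=
  iv_sound par15_22 z15_22_0 rfl (by decide +kernel) f160_1_0_T f168_1_0_T f160_1_400_T f168_1_400_T p15_22_0_T v15_22_0 g15_22_0

theorem i15_22_1 : IvP yB15_22 (nat_lit 1) :=
  iv_sound par15_22 z15_22_1 rfl (by decide +kernel) f160_1_400_T f168_1_400_T f160_1_600_T f168_1_600_T p15_22_1_T v15_22_1 g15_22_1

theorem i15_22_2 : IvP yB15_22 (nat_lit 2) :=
  iv_sound par15_22 z15_22_2 rfl (by decide +kernel) f160_1_600_T f168_1_600_T f160_1_750_T f168_1_750_T p15_22_2_T v15_22_2 g15_22_2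

theorem i15_22_3 : IvP yB15_22 (nat_lit 3) :=
  iv_sound par15_22 z15_22_3 rfl (by decide +kernel) f160_1_750_T f168_1_750_T f160_1_832_T f168_1_832_T p15_22_3_T v15_22_3 g15_22_3

theorem III_15_22 : PropIIIB yB15_22 := III_of par15_22 (n := 3) rfl ⟨⟨⟨⟨trivial, i15_22_0⟩, i15_22_1⟩, i15_22_2⟩, i15_22_3⟩

theorem i15_23_0 : IvP yB15_23 (nat_lit 0) :=
  iv_sound par15_23 z15_23_0 rfl (by decide +kernel) f160_1_0_T f168_1_0_T f160_1_400_T f168_1_400_T p15_23_0_T v15_23_0 g15_23_0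

theorem i15_23_1 : IvP yB15_23 (nat_lit 1) :=
  iv_sound par15_23 z15_23_1 rfl (by decide +kernel) f160_1_400_T f168_1_400_T f160_1_600_T f168_1_600_T p15_23_1_T v15_23_1 g15_23_1

theorem i15_23_2 : IvP yB15_23 (nat_lit 2) :=
  iv_sound par15_23 z15_23_2 rfl (by decide +kernel) f160_1_600_T f168_1_600_T f160_1_750_T f168_1_750_T p15_23_2_T v15_23_2 g15_23_2

theorem i15_23_3 : IvP yB15_23 (nat_lit 3) :=
  iv_sound par15_23 z15_23_3 rfl (by decide +kernel) f160_1_750_T f168_1_750_T f160_1_832_T f168_1_832_T p15_23_3_T v15_23_3 g15_23_3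

theorem III_15_23 : PropIIIB yB15_23 := III_of par15_23 (n := 3) rfl ⟨⟨⟨⟨trivial, i15_23_0⟩, i15_23_1⟩, i15_23_2⟩, i15_23_3⟩

theorem i15_24_0 : IvP yB15_24 (nat_lit 0) :=
  iv_sound par15_24 z15_24_0 rfl (by decide +kernel) f160_1_0_T f168_1_0_T f160_1_400_T f168_1_400_T p15_24_0_T v15_24_0 g15_24_0

theorem i15_24_1 : IvP yB15_24 (nat_lit 1) :=
  iv_sound par15_24 z15_24_1 rfl (by decide +kernel) f160_1_400_T f168_1_400_T f160_1_600_T f168_1_600_T p15_24_1_T v15_24_1 g15_24_1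

theorem i15_24_2 : IvP yB15_24 (nat_lit 2) :=
  iv_sound par15_24 z15_24_2 rfl (by decide +kernel) f160_1_600_T f168_1_600_T f160_1_750_T f168_1_750_T p15_24_2_T v15_24_2 g15_24_2

theorem i15_24_3 : IvP yB15_24 (nat_lit 3) :=
  iv_sound par15_24 z15_24_3 rfl (by decide +kernel) f160_1_750_T f168_1_750_T f160_1_832_T f168_1_832_T p15_24_3_T v15_24_3 g15_24_3

theorem III_15_24 : PropIIIB yB15_24 := III_of par15_24 (n := 3) rfl ⟨⟨⟨⟨trivial, i15_24_0⟩, i15_24_1⟩, i15_24_2⟩, i15_24_3⟩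

theorem i15_25_0 : IvP yB15_25 (nat_lit 0) :=
  iv_sound par15_25 z15_25_0 rfl (by decide +kernel) f160_1_0_T f168_1_0_T f160_1_400_T f168_1_400_T p15_25_0_T v15_25_0 g15_25_0

theorem i15_25_1 : IvP yB15_25 (nat_lit 1) :=
  iv_sound par15_25 z15_25_1 rfl (by decide +kernel) f160_1_400_T f168_1_400_T f160_1_600_T f168_1_600_T p15_25_1_T v15_25_1 g15_25_1

theorem i15_25_2 : IvP yB15_25 (nat_lit 2) :=
  iv_sound par15_25 z15_25_2 rfl (by decide +kernel) f160_1_600_T f168_1_600_T f160_1_750_T f168_1_750_T p15_25_2_T v15_25_2 g15_25_2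

theorem i15_25_3 : IvP yB15_25 (nat_lit 3) :=
  iv_sound par15_25 z15_25_3 rfl (by decide +kernel) f160_1_750_T f168_1_750_T f160_1_832_T f168_1_832_T p15_25_3_T v15_25_3 g15_25_3

theorem III_15_25 : PropIIIB yB15_25 := III_of par15_25 (n := 3) rfl ⟨⟨⟨⟨trivial, i15_25_0⟩, i15_25_1⟩, i15_25_2⟩, i15_25_3⟩

theorem i15_26_0 : IvP yB15_26 (nat_lit 0) :=
  iv_sound par15_26 z15_26_0 rfl (by decide +kernel) f160_1_0_T f168_1_0_T f160_1_400_T f168_1_400_T p15_26_0_T v15_26_0 g15_26_0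

theorem i15_26_1 : IvP yB15_26 (nat_lit 1) :=
  iv_sound par15_26 z15_26_1 rfl (by decide +kernel) f160_1_400_T f168_1_400_T f160_1_600_T f168_1_600_T p15_26_1_T v15_26_1 g15_26_1

theorem i15_26_2 : IvP yB15_26 (nat_lit 2) :=
  iv_sound par15_26 z15_26_2 rfl (by decide +kernel) f160_1_600_T f168_1_600_T f160_1_750_T f168_1_750_T p15_26_2_T v15_26_2 g15_26_2

theorem i15_26_3 : IvP yB15_26 (nat_lit 3) :=
  iv_sound par15_26 z15_26_3 rfl (by decide +kernel) f160_1_750_T f168_1_750_T f160_1_832_T f168_1_832_T p15_26_3_T v15_26_3 g15_26_3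

theorem III_15_26 : PropIIIB yB15_26 := III_of par15_26 (n := 3) rfl ⟨⟨⟨⟨trivial, i15_26_0⟩, i15_26_1⟩, i15_26_2⟩, i15_26_3⟩

theorem i15_27_0 : IvP yB15_27 (nat_lit 0) :=
  iv_sound par15_27 z15_27_0 rfl (by decide +kernel) f168_1_0_T f176_1_0_T f168_1_400_T f176_1_400_T p15_27_0_T v15_27_0 g15_27_0

theorem i15_27_1 : IvP yB15_27 (nat_lit 1) :=
  iv_sound par15_27 z15_27_1 rfl (by decide +kernel) f168_1_400_T f176_1_400_T f168_1_600_T f176_1_600_T p15_27_1_T v15_27_1 g15_27_1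

theorem i15_27_2 : IvP yB15_27 (nat_lit 2) :=
  iv_sound par15_27 z15_27_2 rfl (by decide +kernel) f168_1_600_T f176_1_600_T f168_1_750_T f176_1_750_T p15_27_2_T v15_27_2 g15_27_2

theorem i15_27_3 : IvP yB15_27 (nat_lit 3) :=
  iv_sound par15_27 z15_27_3 rfl (by decide +kernel) f168_1_750_T f176_1_750_T f168_1_792_T f176_1_792_T p15_27_3_T v15_27_3 g15_27_3

theorem III_15_27 : PropIIIB yB15_27 := III_of par15_27 (n := 3) rfl ⟨⟨⟨⟨trivial, i15_27_0⟩, i15_27_1⟩, i15_27_2⟩, i15_27_3⟩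

theorem i15_28_0 : IvP yB15_28 (nat_lit 0) :=
  iv_sound par15_28 z15_28_0 rfl (by decide +kernel) f168_1_0_T f176_1_0_T f168_1_400_T f176_1_400_T p15_28_0_T v15_28_0 g15_28_0

theorem i15_28_1 : IvP yB15_28 (nat_lit 1) :=
  iv_sound par15_28 z15_28_1 rfl (by decide +kernel) f168_1_400_T f176_1_400_T f168_1_600_T f176_1_600_T p15_28_1_T v15_28_1 g15_28_1

theorem i15_28_2 : IvP yB15_28 (nat_lit 2) :=
  iv_sound par15_28 z15_28_2 rfl (by decide +kernel) f168_1_600_T f176_1_600_T f168_1_750_T f176_1_750_T p15_28_2_T v15_28_2 g15_28_2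

theorem i15_28_3 : IvP yB15_28 (nat_lit 3) :=
  iv_sound par15_28 z15_28_3 rfl (by decide +kernel) f168_1_750_T f176_1_750_T f168_1_792_T f176_1_792_T p15_28_3_T v15_28_3 g15_28_3

theorem III_15_28 : PropIIIB yB15_28 := III_of par15_28 (n := 3) rfl ⟨⟨⟨⟨trivial, i15_28_0⟩, i15_28_1⟩, i15_28_2⟩, i15_28_3⟩

theorem i15_29_0 : IvP yB15_29 (nat_lit 0) :=
  iv_sound par15_29 z15_29_0 rfl (by decide +kernel) f168_1_0_T f176_1_0_T f168_1_400_T f176_1_400_T p15_29_0_T v15_29_0 g15_29_0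

theorem i15_29_1 : IvP yB15_29 (nat_lit 1) :=
  iv_sound par15_29 z15_29_1 rfl (by decide +kernel) f168_1_400_T f176_1_400_T f168_1_600_T f176_1_600_T p15_29_1_T v15_29_1 g15_29_1

theorem i15_29_2 : IvP yB15_29 (nat_lit 2) :=
  iv_sound par15_29 z15_29_2 rfl (by decide +kernel) f168_1_600_T f176_1_600_T f168_1_750_T f176_1_750_T p15_29_2_T v15_29_2 g15_29_2

theorem i15_29_3 : IvP yB15_29 (nat_lit 3) :=
  iv_sound par15_29 z15_29_3 rfl (by decide +kernel) f168_1_750_T f176_1_750_T f168_1_792_T f176_1_792_T p15_29_3_T v15_29_3 g15_29_3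

theorem III_15_29 : PropIIIB yB15_29 := III_of par15_29 (n := 3) rfl ⟨⟨⟨⟨trivial, i15_29_0⟩, i15_29_1⟩, i15_29_2⟩, i15_29_3⟩

theorem i15_30_0 : IvP yB15_30 (nat_lit 0) :=
  iv_sound par15_30 z15_30_0 rfl (by decide +kernel) f168_1_0_T f176_1_0_T f168_1_400_T f176_1_400_T p15_30_0_T v15_30_0 g15_30_0

theorem i15_30_1 : IvP yB15_30 (nat_lit 1) :=
  iv_sound par15_30 z15_30_1 rfl (by decide +kernel) f168_1_400_T f176_1_400_T f168_1_600_T f176_1_600_T p15_30_1_T v15_30_1 g15_30_1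

theorem i15_30_2 : IvP yB15_30 (nat_lit 2) :=
  iv_sound par15_30 z15_30_2 rfl (by decide +kernel) f168_1_600_T f176_1_600_T f168_1_750_T f176_1_750_T p15_30_2_T v15_30_2 g15_30_2

theorem i15_30_3 : IvP yB15_30 (nat_lit 3) :=
  iv_sound par15_30 z15_30_3 rfl (by decide +kernel) f168_1_750_T f176_1_750_T f168_1_792_T f176_1_792_T p15_30_3_T v15_30_3 g15_30_3

theorem III_15_30 : PropIIIB yB15_30 := III_of par15_30 (n := 3) rfl ⟨⟨⟨⟨trivial, i15_30_0⟩, i15_30_1⟩, i15_30_2⟩, i15_30_3⟩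

theorem i15_31_0 : IvP yB15_31 (nat_lit 0) :=
  iv_sound par15_31 z15_31_0 rfl (by decide +kernel) f168_1_0_T f176_1_0_T f168_1_400_T f176_1_400_T p15_31_0_T v15_31_0 g15_31_0

theorem i15_31_1 : IvP yB15_31 (nat_lit 1) :=
  iv_sound par15_31 z15_31_1 rfl (by decide +kernel) f168_1_400_T f176_1_400_T f168_1_600_T f176_1_600_T p15_31_1_T v15_31_1 g15_31_1

theorem i15_31_2 : IvP yB15_31 (nat_lit 2) :=
  iv_sound par15_31 z15_31_2 rfl (by decide +kernel) f168_1_600_T f176_1_600_T f168_1_750_T f176_1_750_T p15_31_2_T v15_31_2 g15_31_2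

theorem i15_31_3 : IvP yB15_31 (nat_lit 3) :=
  iv_sound par15_31 z15_31_3 rfl (by decide +kernel) f168_1_750_T f176_1_750_T f168_1_792_T f176_1_792_T p15_31_3_T v15_31_3 g15_31_3

theorem III_15_31 : PropIIIB yB15_31 := III_of par15_31 (n := 3) rfl ⟨⟨⟨⟨trivial, i15_31_0⟩, i15_31_1⟩, i15_31_2⟩, i15_31_3⟩

theorem i15_32_0 : IvP yB15_32 (nat_lit 0) :=
  iv_sound par15_32 z15_32_0 rfl (by decide +kernel) f168_1_0_T f176_1_0_T f168_1_400_T f176_1_400_T p15_32_0_T v15_32_0 g15_32_0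

theorem i15_32_1 : IvP yB15_32 (nat_lit 1) :=
  iv_sound par15_32 z15_32_1 rfl (by decide +kernel) f168_1_400_T f176_1_400_T f168_1_600_T f176_1_600_T p15_32_1_T v15_32_1 g15_32_1

theorem i15_32_2 : IvP yB15_32 (nat_lit 2) :=
  iv_sound par15_32 z15_32_2 rfl (by decide +kernel) f168_1_600_T f176_1_600_T f168_1_750_T f176_1_750_T p15_32_2_T v15_32_2 g15_32_2

theorem i15_32_3 : IvP yB15_32 (nat_lit 3) :=
  iv_sound par15_32 z15_32_3 rfl (by decide +kernel) f168_1_750_T f176_1_750_T f168_1_792_T f176_1_792_T p15_32_3_T v15_32_3 g15_32_3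

theorem III_15_32 : PropIIIB yB15_32 := III_of par15_32 (n := 3) rfl ⟨⟨⟨⟨trivial, i15_32_0⟩, i15_32_1⟩, i15_32_2⟩, i15_32_3⟩

theorem i15_33_0 : IvP yB15_33 (nat_lit 0) :=
  iv_sound par15_33 z15_33_0 rfl (by decide +kernel) f176_0_0_T f184_0_0_T f176_0_400_T f184_0_400_T p15_33_0_T v15_33_0 g15_33_0

theorem i15_33_1 : IvP yB15_33 (nat_lit 1) :=
  iv_sound par15_33 z15_33_1 rfl (by decide +kernel) f176_0_400_T f184_0_400_T f176_0_600_T f184_0_600_T p15_33_1_T v15_33_1 g15_33_1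

theorem i15_33_2 : IvP yB15_33 (nat_lit 2) :=
  iv_sound par15_33 z15_33_2 rfl (by decide +kernel) f176_0_600_T f184_0_600_T f176_0_743_T f184_0_743_T p15_33_2_T v15_33_2 g15_33_2

theorem III_15_33 : PropIIIB yB15_33 := III_of par15_33 (n := 2) rfl ⟨⟨⟨trivial, i15_33_0⟩, i15_33_1⟩, i15_33_2⟩

theorem i15_34_0 : IvP yB15_34 (nat_lit 0) :=
  iv_sound par15_34 z15_34_0 rfl (by decide +kernel) f176_0_0_T f184_0_0_T f176_0_400_T f184_0_400_T p15_34_0_T v15_34_0 g15_34_0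

theorem i15_34_1 : IvP yB15_34 (nat_lit 1) :=
  iv_sound par15_34 z15_34_1 rfl (by decide +kernel) f176_0_400_T f184_0_400_T f176_0_600_T f184_0_600_T p15_34_1_T v15_34_1 g15_34_1

theorem i15_34_2 : IvP yB15_34 (nat_lit 2) :=
  iv_sound par15_34 z15_34_2 rfl (by decide +kernel) f176_0_600_T f184_0_600_T f176_0_743_T f184_0_743_T p15_34_2_T v15_34_2 g15_34_2

theorem III_15_34 : PropIIIB yB15_34 := III_of par15_34 (n := 2) rfl ⟨⟨⟨trivial, i15_34_0⟩, i15_34_1⟩, i15_34_2⟩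

theorem i15_35_0 : IvP yB15_35 (nat_lit 0) :=
  iv_sound par15_35 z15_35_0 rfl (by decide +kernel) f184_0_0_T f192_0_0_T f184_0_400_T f192_0_400_T p15_35_0_T v15_35_0 g15_35_0

theorem i15_35_1 : IvP yB15_35 (nat_lit 1) :=
  iv_sound par15_35 z15_35_1 rfl (by decide +kernel) f184_0_400_T f192_0_400_T f184_0_600_T f192_0_600_T p15_35_1_T v15_35_1 g15_35_1

theorem i15_35_2 : IvP yB15_35 (nat_lit 2) :=
  iv_sound par15_35 z15_35_2 rfl (by decide +kernel) f184_0_600_T f192_0_600_T f184_0_682_T f192_0_682_T p15_35_2_T v15_35_2 g15_35_2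

theorem III_15_35 : PropIIIB yB15_35 := III_of par15_35 (n := 2) rfl ⟨⟨⟨trivial, i15_35_0⟩, i15_35_1⟩, i15_35_2⟩

theorem i15_36_0 : IvP yB15_36 (nat_lit 0) :=
  iv_sound par15_36 z15_36_0 rfl (by decide +kernel) f184_0_0_T f192_0_0_T f184_0_400_T f192_0_400_T p15_36_0_T v15_36_0 g15_36_0

theorem i15_36_1 : IvP yB15_36 (nat_lit 1) :=
  iv_sound par15_36 z15_36_1 rfl (by decide +kernel) f184_0_400_T f192_0_400_T f184_0_600_T f192_0_600_T p15_36_1_T v15_36_1 g15_36_1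

theorem i15_36_2 : IvP yB15_36 (nat_lit 2) :=
  iv_sound par15_36 z15_36_2 rfl (by decide +kernel) f184_0_600_T f192_0_600_T f184_0_682_T f192_0_682_T p15_36_2_T v15_36_2 g15_36_2

theorem III_15_36 : PropIIIB yB15_36 := III_of par15_36 (n := 2) rfl ⟨⟨⟨trivial, i15_36_0⟩, i15_36_1⟩, i15_36_2⟩

theorem i15_37_0 : IvP yB15_37 (nat_lit 0) :=
  iv_sound par15_37 z15_37_0 rfl (by decide +kernel) f192_0_0_T f200_0_0_T f192_0_400_T f200_0_400_T p15_37_0_T v15_37_0 g15_37_0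

theorem i15_37_1 : IvP yB15_37 (nat_lit 1) :=
  iv_sound par15_37 z15_37_1 rfl (by decide +kernel) f192_0_400_T f200_0_400_T f192_0_601_T f200_0_601_T p15_37_1_T v15_37_1 g15_37_1

theorem III_15_37 : PropIIIB yB15_37 := III_of par15_37 (n := 1) rfl ⟨⟨trivial, i15_37_0⟩, i15_37_1⟩

theorem i15_38_0 : IvP yB15_38 (nat_lit 0) :=
  iv_sound par15_38 z15_38_0 rfl (by decide +kernel) f192_0_0_T f200_0_0_T f192_0_400_T f200_0_400_T p15_38_0_T v15_38_0 g15_38_0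

theorem i15_38_1 : IvP yB15_38 (nat_lit 1) :=
  iv_sound par15_38 z15_38_1 rfl (by decide +kernel) f192_0_400_T f200_0_400_T f192_0_601_T f200_0_601_T p15_38_1_T v15_38_1 g15_38_1

theorem III_15_38 : PropIIIB yB15_38 := III_of par15_38 (n := 1) rfl ⟨⟨trivial, i15_38_0⟩, i15_38_1⟩

theorem i15_39_0 : IvP yB15_39 (nat_lit 0) :=
  iv_sound par15_39 z15_39_0 rfl (by decide +kernel) f192_0_0_T f200_0_0_T f192_0_400_T f200_0_400_T p15_39_0_T v15_39_0 g15_39_0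

theorem i15_39_1 : IvP yB15_39 (nat_lit 1) :=
  iv_sound par15_39 z15_39_1 rfl (by decide +kernel) f192_0_400_T f200_0_400_T f192_0_601_T f200_0_601_T p15_39_1_T v15_39_1 g15_39_1

theorem III_15_39 : PropIIIB yB15_39 := III_of par15_39 (n := 1) rfl ⟨⟨trivial, i15_39_0⟩, i15_39_1⟩

theorem III_box12 : ∀ y ∈ box12, PropIIIB y := by
  intro y hy
  simp only [box12, List.mem_cons, List.not_mem_nil, or_false] at hy
  rcases hy with rfl | rfl | rfl | rfl | rfl | rfl | rfl | rfl | rfl | rfl | rfl | rfl | rfl | rfl | rfl | rfl | rfl | rfl | rfl | rfl | rfl | rfl | rfl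
  · exact III_12_0
  · exact III_12_1
  · exact III_12_2
  · exact III_12_3
  · exact III_12_4
  · exact III_12_5
  · exact III_12_6
  · exact III_12_7
  · exact III_12_8
  · exact III_12_9
  · exact III_12_10
  · exact III_12_11
  · exact III_12_12
  · exact III_12_13
  · exact III_12_14
  · exact III_12_15
  · exact III_12_16
  · exact III_12_17
  · exact III_12_18
  · exact III_12_19
  · exact III_12_20
  · exact III_12_21
  · exact III_12_22

theorem III_box13 : ∀ y ∈ box13, PropIIIB y := by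
  intro y hy
  simp only [box13, List.mem_cons, List.not_mem_nil, or_false] at hy
  rcases hy with rfl | rfl | rfl | rfl | rfl | rfl | rfl | rfl | rfl | rfl | rfl | rfl | rfl | rfl | rfl | rfl | rfl | rfl | rfl | rfl | rfl | rfl | rfl
  · exact III_13_0
  · exact III_13_1
  · exact III_13_2
  · exact III_13_3
  · exact III_13_4
  · exact III_13_5
  · exact III_13_6
  · exact III_13_7
  · exact III_13_8
  · exact III_13_9
  · exact III_13_10
  · exact III_13_11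
  · exact III_13_12
  · exact III_13_13
  · exact III_13_14
  · exact III_13_15
  · exact III_13_16
  · exact III_13_17
  · exact III_13_18
  · exact III_13_19
  · exact III_13_20
  · exact III_13_21
  · exact III_13_22

theorem III_box14 : ∀ y ∈ box14, PropIIIB y := by
  intro y hy
  simp only [box14, List.mem_cons, List.not_mem_nil, or_false] at hy
  rcases hy with rfl | rfl | rfl | rfl | rfl | rfl | rfl | rfl | rfl | rfl | rfl | rfl | rfl | rfl | rfl | rfl | rfl | rfl | rfl | rfl | rfl | rfl | rfl | rfl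
  · exact III_14_0
  · exact III_14_1
  · exact III_14_2
  · exact III_14_3
  · exact III_14_4
  · exact III_14_5
  · exact III_14_6
  · exact III_14_7
  · exact III_14_8
  · exact III_14_9
  · exact III_14_10
  · exact III_14_11
  · exact III_14_12
  · exact III_14_13
  · exact III_14_14
  · exact III_14_15
  · exact III_14_16
  · exact III_14_17
  · exact III_14_18
  · exact III_14_19
  · exact III_14_20
  · exact III_14_21
  · exact III_14_22
  · exact III_14_23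

theorem III_box15 : ∀ y ∈ box15, PropIIIB y := by
  intro y hy
  simp only [box15, List.mem_cons, List.not_mem_nil, or_false] at hy
  rcases hy with rfl | rfl | rfl | rfl | rfl | rfl | rfl | rfl | rfl | rfl | rfl | rfl | rfl | rfl | rfl | rfl | rfl | rfl | rfl | rfl | rfl | rfl | rfl | rfl | rfl | rfl | rfl | rfl | rfl | rfl | rfl | rfl | rfl | rfl | rfl | rfl | rfl | rfl | rfl | rfl
  · exact III_15_0
  · exact III_15_1
  · exact III_15_2
  · exact III_15_3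
  · exact III_15_4
  · exact III_15_5
  · exact III_15_6
  · exact III_15_7
  · exact III_15_8
  · exact III_15_9
  · exact III_15_10
  · exact III_15_11
  · exact III_15_12
  · exact III_15_13
  · exact III_15_14
  · exact III_15_15
  · exact III_15_16
  · exact III_15_17
  · exact III_15_18
  · exact III_15_19
  · exact III_15_20
  · exact III_15_21
  · exact III_15_22
  · exact III_15_23
  · exact III_15_24
  · exact III_15_25
  · exact III_15_26
  · exact III_15_27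
  · exact III_15_28
  · exact III_15_29
  · exact III_15_30
  · exact III_15_31
  · exact III_15_32
  · exact III_15_33
  · exact III_15_34
  · exact III_15_35
  · exact III_15_36
  · exact III_15_37
  · exact III_15_38
  · exact III_15_39


end CB
end Pool.Agent.Lib.MP_6947cd_al
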