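import Pool.Agent.Lib.MP_6947cd_al.L.GlueBF
import Pool.Agent.Lib.MP_6947cd_al.L.TeF
import Pool.Agent.Lib.MP_6947cd_al.L.UB
import Pool.Agent.Lib.MP_6947cd_al.L.IB12
import Pool.Agent.Lib.MP_6947cd_al.L.IB13
import Pool.Agent.Lib.MP_6947cd_al.L.IB14
import Pool.Agent.Lib.MP_6947cd_al.L.IB15

/-!
Problem MP_6947cd_al (Chollet).  CASE B, second entry in `[3/10, 2/5]`, rests at most `3/10`: complete.
-/

set_option autoImplicit false

namespace Pool.Agent.Lib.MP_6947cd_al
namespace Fr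
namespace LL

/-- CASE B, second entry in `[3/10, 2/5]`. -/
theorem specBI_low_all : SpecBI What (3 / 10) (2 / 5) :=
  specBI_low IB.allIB12 IB.allIB13 IB.allIB14 IB.allIB15 CB.U_box12 CB.U_box13 CB.U_box14 CB.U_box15
    CB.III_box12 CB.III_box13 CB.III_box14 CB.III_box15

end LL
end Fr
end Pool.Agent.Lib.MP_6947cd_al
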