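import Pool.Agent.Lib.MP_6947cd_al.L.SpecAF
import Pool.Agent.Lib.MP_6947cd_al.L.SpecW
import Pool.Agent.Lib.MP_6947cd_al.L.SpecBLow
import Pool.Agent.Lib.MP_6947cd_al.L.Cap
import Pool.Agent.Lib.MP_6947cd_al.L.Light
import Pool.Agent.Lib.MP_6947cd_al.L.Split
import Pool.Agent.Lib.MP_6947cd_al.Y.Fin

/-!
Problem MP_6947cd_al (Chollet).  THE LAST STEP: everything from the middle part of case B and from case C.
-/

set_option autoImplicit false
open scoped Matrix ComplexOrder
open Matrix Finset

namespace Pool.Agent.Lib.MP_6947cd_al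
namespace Fr
namespace LL

/-- CHOLLET'S INEQUALITY from case B with the second entry in `[2/5, 17/20]` and case C. -/
theorem chollet_of_BC (hB : SpecBI What (2 / 5) (17 / 20)) (h1 : SpecChi What) (h2 : SpecClo What) :
    ∀ n : ℕ, ∀ A B : Matrix (Fin n) (Fin n) ℂ, A.PosSemidef → B.PosSemidef →
      (A ⊙ B).permanent ≤ A.permanent * B.permanent := by
  intro n A B hA hB'
  exact chollet_of_parts What specW specCap specLight specA (17 / 20) B1.specBI_high
    (specBI_glue What specBI_low_all hB) h1 h2 n A B hA hB'

/-- CHOLLET'S INEQUALITY from case B with the second entry in `[2/5, 17/20]` and case C, one statement for case C. -/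
theorem chollet_of_BC' (hB : SpecBI What (2 / 5) (17 / 20)) (h1 : SpecC What) :
    ∀ n : ℕ, ∀ A B : Matrix (Fin n) (Fin n) ℂ, A.PosSemidef → B.PosSemidef →
      (A ⊙ B).permanent ≤ A.permanent * B.permanent := by
  intro n A B hA hB'
  exact chollet_of_specs What specW specCap specLight specA (specB_of_BI What
    (specBI_glue What (specBI_glue What specBI_low_all hB) B1.specBI_high)) h1 n A B hA hB'

end LL
end Fr
end Pool.Agent.Lib.MP_6947cd_al
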