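import Pool.Agent.Lib.MP_6947cd_al.L.PtP
import Pool.Agent.Lib.MP_6947cd_al.L.Cell
import Pool.Agent.Lib.Interval.Fast

/-!
Problem MP_6947cd_al (Chollet).  Tables of concentrated rows: special entries, `z / w` entries `w / 40` and one
entry `(z mod w) / 40`; theory.
-/

set_option autoImplicit false
open Finset

namespace Pool.Agent.Lib.MP_6947cd_al
namespace Fr
namespace TZ

open Ent Ent.Pk IA.F

/-! ### concentration -/

/-- CONCENTRATION: entries in `[0, m]` with sum between `q m` and `(q + 1) m`. -/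
theorem conc (S M : Multiset ℝ) (hS1 : 1 ∈ S) (hS : ∀ z ∈ S, 0 ≤ z ∧ z ≤ 1) (m : ℝ) (hm0 : 0 < m)
    (hm1 : m ≤ 1) (hM : ∀ z ∈ M, 0 ≤ z ∧ z ≤ m) (q : ℕ) (h1 : (q : ℝ) * m ≤ M.sum)
    (h2 : M.sum ≤ ((q : ℝ) + 1) * m) :
    FM (S + M) ≤ FM (S + ((M.sum - q * m) ::ₘ Multiset.replicate q m)) := by
  obtain ⟨n0, n, r, g1, g2, g3, g4, g5⟩ := piece 0 m le_rfl hm0 hm1 M S hS1 hS hM
  have hz : FM (S + (Multiset.replicate n0 0 + Multiset.replicate n m + r))
      = FM (S + (Multiset.replicate n m + r)) := by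
    rw [show S + (Multiset.replicate n0 0 + Multiset.replicate n m + r)
      = Multiset.replicate n0 0 + (S + (Multiset.replicate n m + r)) by abel, FM_zero_add]
  refine g5.trans ?_
  rw [hz]
  rw [mul_zero, zero_add] at g4
  rcases Nat.lt_or_ge 0 r.card with hr | hr
  · obtain ⟨x, rfl⟩ := Multiset.card_eq_one.mp (le_antisymm g1 hr)
    have hx := g2 x (Multiset.mem_singleton_self x)
    rw [Multiset.sum_singleton] at g4
    have hn : n = q := by
      have a1 : (q : ℝ) * m < ((n : ℝ) + 1) * m := by linarith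
      have a2 : (n : ℝ) * m < ((q : ℝ) + 1) * m := by linarith
      have a3 := lt_of_mul_lt_mul_right a1 hm0.le
      have a4 := lt_of_mul_lt_mul_right a2 hm0.le
      have a5 : q < n + 1 := by exact_mod_cast a3
      have a6 : n < q + 1 := by exact_mod_cast a4
      omega
    have hx2 : M.sum - q * m = x := by rw [← g4, hn]; ring
    rw [hx2, hn]
    refine le_of_eq ?_
    congr 1
    rw [add_comm (Multiset.replicate q m), Multiset.singleton_add]
  · have hr0 : r = 0 := Multiset.card_eq_zero.mp (Nat.le_zero.mp hr)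
    rw [hr0, Multiset.sum_zero, add_zero] at g4
    rw [hr0, add_zero]
    have a1 : (q : ℝ) * m ≤ (n : ℝ) * m := by linarith
    have a2 : (n : ℝ) * m ≤ ((q : ℝ) + 1) * m := by linarith
    have a3 := le_of_mul_le_mul_right a1 hm0
    have a4 := le_of_mul_le_mul_right a2 hm0
    have a5 : q ≤ n := by exact_mod_cast a3
    have a6 : n ≤ q + 1 := by exact_mod_cast a4
    rcases Nat.lt_or_ge q n with hlt | hge
    · have hn : n = q + 1 := by omega
      have hx2 : M.sum - q * m = m := by rw [← g4, hn]; push_cast; ring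
      rw [hx2, hn, Multiset.replicate_succ]
    · have hn : n = q := le_antisymm hge a5
      have hx2 : M.sum - q * m = 0 := by rw [← g4, hn]; ring
      rw [hx2, hn]
      refine le_of_eq ?_
      rw [show S + ((0 : ℝ) ::ₘ Multiset.replicate q m) = 0 ::ₘ (S + Multiset.replicate q m) by
        rw [Multiset.add_cons], FM_zero_cons]

/-- the node `z`: total `z / 40` -/
noncomputable def nd (w z : ℕ) : Multiset ℝ := (((z % w : ℕ) : ℝ) / 40) ::ₘ Multiset.replicate (z / w) ((w : ℝ) / 40)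

lemma nd_mem (w z : ℕ) (hw : 0 < w) (hw' : w ≤ 40) : ∀ x ∈ nd w z, 0 ≤ x ∧ x ≤ 1 := by
  intro x hx
  have hwR : (w : ℝ) ≤ 40 := by exact_mod_cast hw'
  rw [nd, Multiset.mem_cons] at hx
  rcases hx with rfl | hx
  · have : ((z % w : ℕ) : ℝ) < w := by exact_mod_cast Nat.mod_lt z hw
    exact ⟨by positivity, by linarith⟩
  · rw [Multiset.eq_of_mem_replicate hx]
    exact ⟨by positivity, by linarith⟩

/-- CHORD between two nodes. -/
theorem chord (S M : Multiset ℝ) (hS1 : 1 ∈ S) (hS : ∀ z ∈ S, 0 ≤ z ∧ z ≤ 1) (w : ℕ) (hw : 0 < w) (hw' : w ≤ 40)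
    (hM : ∀ z ∈ M, 0 ≤ z ∧ z ≤ (w : ℝ) / 40) (z : ℕ) (h1 : (z : ℝ) / 40 ≤ M.sum)
    (h2 : M.sum ≤ ((z : ℝ) + 1) / 40) :
    FM (S + M) ≤ ((z : ℝ) + 1 - 40 * M.sum) * FM (S + nd w z) + (40 * M.sum - z) * FM (S + nd w (z + 1)) := by
  set q := z / w with hq
  set r := z % w with hr
  have hz : w * q + r = z := Nat.div_add_mod z w
  have hrw : r < w := Nat.mod_lt z hw
  have hzR : (w : ℝ) * q + r = z := by exact_mod_cast hz
  have hwR : (0 : ℝ) < w := by exact_mod_cast hw
  have hwR' : (w : ℝ) ≤ 40 := by exact_mod_cast hw'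
  have hrR : (r : ℝ) + 1 ≤ w := by exact_mod_cast hrw
  have hr0 : (0 : ℝ) ≤ r := Nat.cast_nonneg r
  have hc := conc S M hS1 hS ((w : ℝ) / 40) (by positivity) (by linarith) hM q (by linarith) (by linarith)
  refine hc.trans ?_
  set ρ := M.sum - q * ((w : ℝ) / 40) with hρ
  have hcv := FM_convexOn (S + Multiset.replicate q ((w : ℝ) / 40)) (Multiset.mem_add.mpr (Or.inl hS1)) (by
    intro x hx
    rcases Multiset.mem_add.mp hx with hx | hx
    · exact hS x hx
    · rw [Multiset.eq_of_mem_replicate hx]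
      exact ⟨by positivity, by linarith⟩)
  have hch := hcv.2 (show (r : ℝ) / 40 ∈ Set.Icc (0 : ℝ) 1 from ⟨by positivity, by linarith⟩)
    (show ((r : ℝ) + 1) / 40 ∈ Set.Icc (0 : ℝ) 1 from ⟨by positivity, by linarith⟩)
    (show 0 ≤ (z : ℝ) + 1 - 40 * M.sum by linarith) (show 0 ≤ 40 * M.sum - z by linarith) (by ring)
  simp only [smul_eq_mul] at hch
  have e1 : ((z : ℝ) + 1 - 40 * M.sum) * ((r : ℝ) / 40) + (40 * M.sum - z) * (((r : ℝ) + 1) / 40) = ρ := by
    rw [hρ, ← hzR]; ring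
  rw [e1] at hch
  have e2 : ∀ x : ℝ, x ::ₘ (S + Multiset.replicate q ((w : ℝ) / 40))
      = S + (x ::ₘ Multiset.replicate q ((w : ℝ) / 40)) := fun x => by
    rw [Multiset.add_cons]
  rw [e2, e2, e2] at hch
  refine hch.trans (le_of_eq ?_)
  have n0 : S + nd w z = S + (((r : ℝ) / 40) ::ₘ Multiset.replicate q ((w : ℝ) / 40)) := rfl
  have n1 : FM (S + nd w (z + 1)) = FM (S + ((((r : ℝ) + 1) / 40) ::ₘ Multiset.replicate q ((w : ℝ) / 40))) := by
    rcases Nat.lt_or_ge (r + 1) w with h | h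
    · have a1 : (z + 1) / w = q := by
        rw [Nat.div_eq_iff hw]
        rw [← hz]
        constructor
        · rw [mul_comm]; omega
        · rw [mul_comm]; omega
      have a2 : (z + 1) % w = r + 1 := by
        have := Nat.div_add_mod (z + 1) w
        rw [a1] at this
        omega
      unfold nd
      rw [a1, a2]
      push_cast
      rfl
    · have hrw' : r + 1 = w := by omega
      have hz' : z + 1 = w * (q + 1) := by rw [mul_add, mul_one, ← hz]; omega
      have a1 : (z + 1) / w = q + 1 := by rw [hz', Nat.mul_div_cancel_left _ hw]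
      have a2 : (z + 1) % w = 0 := by rw [hz', Nat.mul_mod_right]
      unfold nd
      rw [a1, a2, Nat.cast_zero, zero_div, Multiset.add_cons, FM_zero_cons]
      have a3 : ((r : ℝ) + 1) / 40 = (w : ℝ) / 40 := by
        rw [← hrw']; push_cast; ring
      rw [a3, Multiset.replicate_succ]
  rw [n0, n1]

/-- linear interpolation in one special entry -/
theorem lin_le (S : Multiset ℝ) (hS1 : 1 ∈ S) (hS : ∀ z ∈ S, 0 ≤ z ∧ z ≤ 1) (N k : ℕ) (hN : 0 < N) (hk : k + 1 ≤ N)
    (x A B : ℝ) (h1 : (k : ℝ) / N ≤ x) (h2 : x ≤ ((k : ℝ) + 1) / N) (hA : FM (((k : ℝ) / N) ::ₘ S) ≤ A)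
    (hB : FM ((((k : ℝ) + 1) / N) ::ₘ S) ≤ B) :
    FM (x ::ₘ S) ≤ ((k : ℝ) + 1 - N * x) * A + (N * x - k) * B := by
  have hNR : (0 : ℝ) < N := by exact_mod_cast hN
  have hkR : (k : ℝ) + 1 ≤ N := by exact_mod_cast hk
  rw [div_le_iff₀ hNR] at h1
  rw [le_div_iff₀ hNR] at h2
  have hcv := FM_convexOn S hS1 hS
  have hch := hcv.2 (show (k : ℝ) / N ∈ Set.Icc (0 : ℝ) 1 from ⟨by positivity, by
      rw [div_le_one hNR]; linarith⟩)
    (show ((k : ℝ) + 1) / N ∈ Set.Icc (0 : ℝ) 1 from ⟨by positivity, by rw [div_le_one hNR]; exact hkR⟩)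
    (show 0 ≤ (k : ℝ) + 1 - N * x by linarith) (show 0 ≤ N * x - k by linarith) (by ring)
  simp only [smul_eq_mul] at hch
  have e1 : ((k : ℝ) + 1 - N * x) * ((k : ℝ) / N) + (N * x - k) * (((k : ℝ) + 1) / N) = x := by
    field_simp
    ring
  rw [e1] at hch
  have v1 := mul_le_mul_of_nonneg_left hA (show 0 ≤ (k : ℝ) + 1 - N * x by linarith)
  have v2 := mul_le_mul_of_nonneg_left hB (show 0 ≤ N * x - k by linarith)
  linarith

/-! ### the check of a table -/

/-- decode `nt` numbers of 26 bits -/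
noncomputable def dg (nt : ℕ) : ℕ → (List ℕ → Bool) → Bool :=
  @Nat.rec (fun _ => ℕ → (List ℕ → Bool) → Bool) (fun _ k => k [])
    (fun _ ih bx k => fn (Nat.mod bx (nat_lit 67108864)) fun x => fn (Nat.shiftRight bx (nat_lit 26)) fun bx' =>
      ih bx' fun l => k (x :: l)) nt

theorem dg_get (nt : ℕ) : ∀ (bx : ℕ) (k : List ℕ → Bool), dg nt bx k = true → ∃ l, k l = true := by
  induction nt with
  | zero => intro bx k h; exact ⟨[], h⟩
  | succ nt ih =>
    intro bx k h
    have h' : (fn (Nat.mod bx 67108864) fun x => fn (Nat.shiftRight bx 26) fun bx' =>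
      dg nt bx' fun l => k (x :: l)) = true := h
    rw [fn_eq, fn_eq] at h'
    obtain ⟨l, hl⟩ := ih _ _ h'
    exact ⟨_, hl⟩

/-- the check of `cnt` nodes from `z` on; special entries `sp` with multiplicities `on`; `nt` types, `sh = 26 nt` -/
noncomputable def lz (w nt sh : ℕ) (sp : List (ℕ × ℕ)) (on : List ℕ) (cnt : ℕ) : ℕ → ℕ → ℕ → Bool :=
  @Nat.rec (fun _ => ℕ → ℕ → ℕ → Bool) (fun _ _ _ => true)
    (fun _ ih bx bv z =>
      fn (Nat.mod z w) fun r => fn (Nat.div z w) fun q =>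
      fn (@Nat.rec (fun _ => ℕ) w (fun n _ => Nat.succ n) r) fun r' =>
      fn (@Nat.rec (fun _ => ℕ) (nat_lit 0) (fun _ _ => (nat_lit 1)) r) fun m' =>
      fn (Nat.mod bv (nat_lit 16777216)) fun V =>
      cond (dg nt bx fun X => rowOK (sp ++ [(r', (nat_lit 40)), (w, (nat_lit 40))]) (on ++ [m', q]) X V)
        (fn (Nat.shiftRight bx sh) fun bx => fn (Nat.shiftRight bv (nat_lit 24)) fun bv =>
          fn (Nat.succ z) fun z => ih bx bv z) false) cnt

theorem lz_sound (w nt sh : ℕ) (sp : List (ℕ × ℕ)) (on : List ℕ) (S : Multiset ℝ)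
    (hmk : ∀ (m' q : ℕ) (r' m : ℝ), mk (on ++ [m', q]) ((sp.map fun u : ℕ × ℕ => (u.1 : ℝ) / (u.2 : ℝ)) ++ [r', m])
      = S + (Multiset.replicate m' r' + Multiset.replicate q m)) (cnt : ℕ) :
    ∀ (bx bv z : ℕ), lz w nt sh sp on cnt bx bv z = true → ∀ j < cnt,
    FM (S + nd w (z + j)) ≤ ((bv >>> (24 * j) % 16777216 : ℕ) : ℝ) / 10000000 := by
  induction cnt with
  | zero => intro bx bv z _ j hj; omega
  | succ cnt ih =>
    intro bx bv z h j hj
    have h' : (fn (Nat.mod z w) fun r => fn (Nat.div z w) fun q =>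
      fn (@Nat.rec (fun _ => ℕ) w (fun n _ => Nat.succ n) r) fun r' =>
      fn (@Nat.rec (fun _ => ℕ) 0 (fun _ _ => 1) r) fun m' =>
      fn (Nat.mod bv 16777216) fun V =>
      cond (dg nt bx fun X => rowOK (sp ++ [(r', 40), (w, 40)]) (on ++ [m', q]) X V)
        (fn (Nat.shiftRight bx sh) fun bx => fn (Nat.shiftRight bv 24) fun bv =>
          fn (Nat.succ z) fun z => lz w nt sh sp on cnt bx bv z) false) = true := h
    simp only [fn_eq] at h'
    obtain ⟨h1, h2⟩ := IA.cond_and h'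
    rcases Nat.eq_zero_or_pos j with rfl | hj0
    · obtain ⟨X, h3⟩ := dg_get _ _ _ h1
      have h4 := row_sound _ _ _ _ h3
      rw [List.map_append] at h4
      simp only [List.map_cons, List.map_nil] at h4
      rw [hmk] at h4
      have e10 : (10 : ℝ) ^ 7 = 10000000 := by norm_num
      rw [e10] at h4
      refine le_trans (le_of_eq ?_) h4
      rw [Nat.add_zero]
      rcases Nat.eq_zero_or_pos (z % w) with hr | hr
      · have e1 : Nat.mod z w = 0 := hr
        rw [e1]
        show FM (S + nd w z) = FM (S + (Multiset.replicate 0 _ + _))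
        unfold nd
        rw [hr, Nat.cast_zero, zero_div, Multiset.add_cons, FM_zero_cons, Multiset.replicate_zero, zero_add]
        rfl
      · obtain ⟨r, hr'⟩ := Nat.exists_eq_succ_of_ne_zero hr.ne'
        have e1 : Nat.mod z w = r.succ := hr'
        rw [e1]
        show FM (S + nd w z) = FM (S + (Multiset.replicate 1 ((r.succ : ℕ) / ((40 : ℕ) : ℝ)) + _))
        unfold nd
        rw [hr', Multiset.replicate_one, Multiset.singleton_add]
        rfl
    · have h3 := ih _ _ _ h2 (j - 1) (by omega)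
      have e1 : Nat.succ z + (j - 1) = z + j := by omega
      have e2 : Nat.shiftRight bv 24 >>> (24 * (j - 1)) = bv >>> (24 * j) := by
        show bv >>> 24 >>> (24 * (j - 1)) = bv >>> (24 * j)
        rw [← Nat.shiftRight_add]
        congr 1
        omega
      rw [e1, e2] at h3
      exact h3

/-- the entry number `z` of a packed list -/
def gt (v z : ℕ) : ℕ := Nat.mod (Nat.shiftRight v (Nat.mul (nat_lit 24) z)) (nat_lit 16777216)

/-- `t z k / 10^7` bounds the node `z` of the rows with second entry `k/100` -/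
def Tab2 (t : ℕ → ℕ → ℕ) (cnt : ℕ → ℕ) (w k0 k1 : ℕ) : Prop := ∀ z k : ℕ, k0 ≤ k → k ≤ k1 → z < cnt k →
  FM ((1 ::ₘ ((k : ℝ) / 100) ::ₘ 0) + nd w z) ≤ (t z k : ℝ) / 10000000

/-- the check of a table -/
noncomputable def tz2OK (w : ℕ) (ns : List ℕ) : List ℕ → List ℕ → ℕ → Bool :=
  @List.rec ℕ (fun _ => List ℕ → List ℕ → ℕ → Bool) (fun _ _ _ => true)
    (fun n _ ih xs vs k => @List.rec ℕ (fun _ => Bool) false (fun x xs' _ =>
      @List.rec ℕ (fun _ => Bool) false (fun v vs' _ =>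
        cond (lz w (nat_lit 4) (nat_lit 104) [((nat_lit 1), (nat_lit 1)), (k, (nat_lit 100))]
          [(nat_lit 1), (nat_lit 1)] n x v (nat_lit 0)) (fn (Nat.succ k) fun k => ih xs' vs' k) false) vs) xs) ns

theorem tz2OK_get (w : ℕ) (ns : List ℕ) : ∀ (xs vs : List ℕ) (k : ℕ), tz2OK w ns xs vs k = true →
    ∀ j < ns.length, ∃ x, lz w 4 104 [(1, 1), (k + j, 100)] [1, 1] (ns.getD j 0) x (vs.getD j 0) 0 = true := by
  induction ns with
  | nil => intro xs vs k _ j hj; simp at hj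
  | cons n ns ih =>
    intro xs vs k h j hj
    cases xs with
    | nil => exact absurd (show false = true from h) (by simp)
    | cons x xs =>
      cases vs with
      | nil => exact absurd (show false = true from h) (by simp)
      | cons v vs =>
        obtain ⟨h1, h2⟩ := IA.cond_and (show cond (lz w 4 104 [(1, 1), (k, 100)] [1, 1] n x v 0)
          (fn (Nat.succ k) fun k => tz2OK w ns xs vs k) false = true from h)
        rw [fn_eq] at h2
        cases j with
        | zero => exact ⟨x, h1⟩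
        | succ j =>
          obtain ⟨y, hy⟩ := ih xs vs (k + 1) h2 j (by simpa using hj)
          refine ⟨y, ?_⟩
          have e : k + (j + 1) = k + 1 + j := by ring
          rw [e]
          simpa using hy

theorem mk2 (k : ℕ) (m' q : ℕ) (r' m : ℝ) :
    mk ([1, 1] ++ [m', q]) (([(1, 1), (k, 100)].map fun u : ℕ × ℕ => (u.1 : ℝ) / (u.2 : ℝ)) ++ [r', m])
      = (1 ::ₘ ((k : ℝ) / 100) ::ₘ 0) + (Multiset.replicate m' r' + Multiset.replicate q m) := by
  simp only [List.map_cons, List.map_nil, List.cons_append, List.nil_append, Ent.mk_cons, Ent.mk_nil, add_zero,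
    Nat.cast_one, div_one, Multiset.replicate_one]
  rw [← add_assoc]
  rfl

theorem tz2_sound (w : ℕ) (ns xs vs : List ℕ) (k0 k1 : ℕ) (h : tz2OK w ns xs vs k0 = true)
    (hl : Nat.ble (Nat.sub (Nat.add k1 1) k0) ns.length = true) :
    Tab2 (fun z k => gt (vs.getD (k - k0) 0) z) (fun k => ns.getD (k - k0) 0) w k0 k1 := by
  intro z k hk hk' hz
  rw [Nat.ble_eq] at hl
  have hl' : k1 + 1 - k0 ≤ ns.length := hl
  obtain ⟨x, hx⟩ := tz2OK_get w ns xs vs k0 h (k - k0) (by omega)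
  have e : k0 + (k - k0) = k := by omega
  rw [e] at hx
  have h1 := lz_sound w 4 104 _ _ (1 ::ₘ ((k : ℝ) / 100) ::ₘ 0) (mk2 k) _ _ _ _ hx z hz
  rw [Nat.zero_add] at h1
  exact h1

/-- `t z k q / 10^7` bounds the node `z` of the rows with second entry `k/100` and third entry `q/40` -/
def Tab3 (t : ℕ → ℕ → ℕ → ℕ) (cnt : ℕ → ℕ) (w k0 k1 q0 q1 : ℕ) : Prop := ∀ z k q : ℕ, k0 ≤ k → k ≤ k1 →
  q0 ≤ q → q ≤ q1 → z < cnt k → FM ((1 ::ₘ ((k : ℝ) / 100) ::ₘ ((q : ℝ) / 40) ::ₘ 0) + nd w z) ≤ (t z k q : ℝ) / 10000000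

/-- the check of a table for one value `q` -/
noncomputable def tz3OK (w q : ℕ) (ns : List ℕ) : List ℕ → List ℕ → ℕ → Bool :=
  @List.rec ℕ (fun _ => List ℕ → List ℕ → ℕ → Bool) (fun _ _ _ => true)
    (fun n _ ih xs vs k => @List.rec ℕ (fun _ => Bool) false (fun x xs' _ =>
      @List.rec ℕ (fun _ => Bool) false (fun v vs' _ =>
        cond (lz w (nat_lit 5) (nat_lit 130) [((nat_lit 1), (nat_lit 1)), (k, (nat_lit 100)), (q, (nat_lit 40))]
          [(nat_lit 1), (nat_lit 1), (nat_lit 1)] n x v (nat_lit 0)) (fn (Nat.succ k) fun k => ih xs' vs' k) false)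
        vs) xs) ns

theorem tz3OK_get (w q : ℕ) (ns : List ℕ) : ∀ (xs vs : List ℕ) (k : ℕ), tz3OK w q ns xs vs k = true →
    ∀ j < ns.length, ∃ x, lz w 5 130 [(1, 1), (k + j, 100), (q, 40)] [1, 1, 1] (ns.getD j 0) x (vs.getD j 0) 0
      = true := by
  induction ns with
  | nil => intro xs vs k _ j hj; simp at hj
  | cons n ns ih =>
    intro xs vs k h j hj
    cases xs with
    | nil => exact absurd (show false = true from h) (by simp)
    | cons x xs =>
      cases vs with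
      | nil => exact absurd (show false = true from h) (by simp)
      | cons v vs =>
        obtain ⟨h1, h2⟩ := IA.cond_and (show cond (lz w 5 130 [(1, 1), (k, 100), (q, 40)] [1, 1, 1] n x v 0)
          (fn (Nat.succ k) fun k => tz3OK w q ns xs vs k) false = true from h)
        rw [fn_eq] at h2
        cases j with
        | zero => exact ⟨x, h1⟩
        | succ j =>
          obtain ⟨y, hy⟩ := ih xs vs (k + 1) h2 j (by simpa using hj)
          refine ⟨y, ?_⟩
          have e : k + (j + 1) = k + 1 + j := by ring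
          rw [e]
          simpa using hy

theorem mk3 (k q3 : ℕ) (m' q : ℕ) (r' m : ℝ) :
    mk ([1, 1, 1] ++ [m', q]) (([(1, 1), (k, 100), (q3, 40)].map fun u : ℕ × ℕ => (u.1 : ℝ) / (u.2 : ℝ)) ++ [r', m])
      = (1 ::ₘ ((k : ℝ) / 100) ::ₘ ((q3 : ℝ) / 40) ::ₘ 0) + (Multiset.replicate m' r' + Multiset.replicate q m) := by
  simp only [List.map_cons, List.map_nil, List.cons_append, List.nil_append, Ent.mk_cons, Ent.mk_nil, add_zero,
    Nat.cast_one, div_one, Multiset.replicate_one]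
  rw [← add_assoc, ← add_assoc]
  rfl

theorem tz3_sound (w q : ℕ) (ns xs vs : List ℕ) (k0 k1 : ℕ) (h : tz3OK w q ns xs vs k0 = true)
    (hl : Nat.ble (Nat.sub (Nat.add k1 1) k0) ns.length = true) (z k : ℕ) (hk : k0 ≤ k) (hk' : k ≤ k1)
    (hz : z < ns.getD (k - k0) 0) :
    FM ((1 ::ₘ ((k : ℝ) / 100) ::ₘ ((q : ℝ) / 40) ::ₘ 0) + nd w z)
      ≤ (gt (vs.getD (k - k0) 0) z : ℝ) / 10000000 := by
  rw [Nat.ble_eq] at hl
  have hl' : k1 + 1 - k0 ≤ ns.length := hl
  obtain ⟨x, hx⟩ := tz3OK_get w q ns xs vs k0 h (k - k0) (by omega)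
  have e : k0 + (k - k0) = k := by omega
  rw [e] at hx
  have h1 := lz_sound w 5 130 _ _ (1 ::ₘ ((k : ℝ) / 100) ::ₘ ((q : ℝ) / 40) ::ₘ 0) (mk3 k q) _ _ _ _ hx z hz
  rw [Nat.zero_add] at h1
  exact h1

/-- the sum of the entries outside a set -/
lemma sum_compl {κ : Type} [Fintype κ] [DecidableEq κ] (b : κ → ℝ) (S : Finset κ) :
    (Sᶜ.val.map b).sum = ∑ c ∈ Sᶜ, b c := rfl

/-- the row as a multiset -/
lemma F_split {κ : Type} [Fintype κ] [DecidableEq κ] (b : κ → ℝ) (S : Finset κ) :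
    F b = FM (S.val.map b + Sᶜ.val.map b) := by
  rw [F_eq_FM]
  congr 1
  have h1 : (Finset.univ : Finset κ) = S.disjUnion Sᶜ disjoint_compl_right := by
    rw [Finset.disjUnion_eq_union, Finset.union_compl]
  conv_lhs => rw [h1]
  rw [← Multiset.map_add]
  rfl

end TZ
end Fr
end Pool.Agent.Lib.MP_6947cd_al
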