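import Pool.Agent.Lib.MP_6947cd_al.L.RowI
import Pool.Agent.Lib.MP_6947cd_al.L.Light

/-!
Problem MP_6947cd_al (Chollet).  Rows with one entry `h` in `(3/10, 1]`, all others at most `3/10` and sum of
these at least `6/5` are not bad.
-/

set_option autoImplicit false
open Finset

namespace Pool.Agent.Lib.MP_6947cd_al
namespace Fr
namespace ZC

open Ent RT RI IA.F WT

/-! ### the patterns -/

def q4 : List (List (ℕ × List ℕ)) :=
  [[(10, [1, 0, 0]), (8, [1, 0, 1]), (6, [1, 0, 2]), (4, [1, 0, 3]), (2, [1, 0, 4]),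
    (2, [1, 1, 0]), (4, [1, 1, 1]), (6, [1, 1, 2]), (8, [1, 1, 3]), (10, [1, 1, 4])],
  [(10, [0, 1, 0]), (8, [0, 1, 1]), (6, [0, 1, 2]), (4, [0, 1, 3]), (2, [0, 1, 4]),
    (2, [1, 1, 0]), (4, [1, 1, 1]), (6, [1, 1, 2]), (8, [1, 1, 3]), (10, [1, 1, 4])],
  [(10, [0, 0, 1]), (6, [0, 0, 2]), (3, [0, 0, 3]), (1, [0, 0, 4]), (2, [0, 1, 1]),
    (3, [0, 1, 2]), (3, [0, 1, 3]), (2, [0, 1, 4]), (2, [1, 0, 1]), (3, [1, 0, 2]), (3, [1, 0, 3]),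
    (2, [1, 0, 4]), (1, [1, 1, 1]), (3, [1, 1, 2]), (6, [1, 1, 3]), (10, [1, 1, 4])]]

def q5 : List (List (ℕ × List ℕ)) :=
  [[(30, [1, 0, 0]), (25, [1, 0, 1]), (20, [1, 0, 2]), (15, [1, 0, 3]), (10, [1, 0, 4]),
    (5, [1, 0, 5]), (5, [1, 1, 0]), (10, [1, 1, 1]), (15, [1, 1, 2]), (20, [1, 1, 3]),
    (25, [1, 1, 4]), (30, [1, 1, 5])],
  [(30, [0, 1, 0]), (25, [0, 1, 1]), (20, [0, 1, 2]), (15, [0, 1, 3]), (10, [0, 1, 4]),
    (5, [0, 1, 5]), (5, [1, 1, 0]), (10, [1, 1, 1]), (15, [1, 1, 2]), (20, [1, 1, 3]),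
    (25, [1, 1, 4]), (30, [1, 1, 5])],
  [(30, [0, 0, 1]), (20, [0, 0, 2]), (12, [0, 0, 3]), (6, [0, 0, 4]), (2, [0, 0, 5]),
    (5, [0, 1, 1]), (8, [0, 1, 2]), (9, [0, 1, 3]), (8, [0, 1, 4]), (5, [0, 1, 5]), (5, [1, 0, 1]),
    (8, [1, 0, 2]), (9, [1, 0, 3]), (8, [1, 0, 4]), (5, [1, 0, 5]), (2, [1, 1, 1]), (6, [1, 1, 2]),
    (12, [1, 1, 3]), (20, [1, 1, 4]), (30, [1, 1, 5])]]

def q6 : List (List (ℕ × List ℕ)) :=
  [[(21, [1, 0, 0]), (18, [1, 0, 1]), (15, [1, 0, 2]), (12, [1, 0, 3]), (9, [1, 0, 4]),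
    (6, [1, 0, 5]), (3, [1, 0, 6]), (3, [1, 1, 0]), (6, [1, 1, 1]), (9, [1, 1, 2]),
    (12, [1, 1, 3]), (15, [1, 1, 4]), (18, [1, 1, 5]), (21, [1, 1, 6])],
  [(21, [0, 1, 0]), (18, [0, 1, 1]), (15, [0, 1, 2]), (12, [0, 1, 3]), (9, [0, 1, 4]),
    (6, [0, 1, 5]), (3, [0, 1, 6]), (3, [1, 1, 0]), (6, [1, 1, 1]), (9, [1, 1, 2]),
    (12, [1, 1, 3]), (15, [1, 1, 4]), (18, [1, 1, 5]), (21, [1, 1, 6])],
  [(21, [0, 0, 1]), (15, [0, 0, 2]), (10, [0, 0, 3]), (6, [0, 0, 4]), (3, [0, 0, 5]),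
    (1, [0, 0, 6]), (3, [0, 1, 1]), (5, [0, 1, 2]), (6, [0, 1, 3]), (6, [0, 1, 4]), (5, [0, 1, 5]),
    (3, [0, 1, 6]), (3, [1, 0, 1]), (5, [1, 0, 2]), (6, [1, 0, 3]), (6, [1, 0, 4]), (5, [1, 0, 5]),
    (3, [1, 0, 6]), (1, [1, 1, 1]), (3, [1, 1, 2]), (6, [1, 1, 3]), (10, [1, 1, 4]),
    (15, [1, 1, 5]), (21, [1, 1, 6])]]

def q7 : List (List (ℕ × List ℕ)) :=
  [[(56, [1, 0, 0]), (49, [1, 0, 1]), (42, [1, 0, 2]), (35, [1, 0, 3]), (28, [1, 0, 4]),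
    (21, [1, 0, 5]), (14, [1, 0, 6]), (7, [1, 0, 7]), (7, [1, 1, 0]), (14, [1, 1, 1]),
    (21, [1, 1, 2]), (28, [1, 1, 3]), (35, [1, 1, 4]), (42, [1, 1, 5]), (49, [1, 1, 6]),
    (56, [1, 1, 7])],
  [(56, [0, 1, 0]), (49, [0, 1, 1]), (42, [0, 1, 2]), (35, [0, 1, 3]), (28, [0, 1, 4]),
    (21, [0, 1, 5]), (14, [0, 1, 6]), (7, [0, 1, 7]), (7, [1, 1, 0]), (14, [1, 1, 1]),
    (21, [1, 1, 2]), (28, [1, 1, 3]), (35, [1, 1, 4]), (42, [1, 1, 5]), (49, [1, 1, 6]),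
    (56, [1, 1, 7])],
  [(56, [0, 0, 1]), (42, [0, 0, 2]), (30, [0, 0, 3]), (20, [0, 0, 4]), (12, [0, 0, 5]),
    (6, [0, 0, 6]), (2, [0, 0, 7]), (7, [0, 1, 1]), (12, [0, 1, 2]), (15, [0, 1, 3]),
    (16, [0, 1, 4]), (15, [0, 1, 5]), (12, [0, 1, 6]), (7, [0, 1, 7]), (7, [1, 0, 1]),
    (12, [1, 0, 2]), (15, [1, 0, 3]), (16, [1, 0, 4]), (15, [1, 0, 5]), (12, [1, 0, 6]),
    (7, [1, 0, 7]), (2, [1, 1, 1]), (6, [1, 1, 2]), (12, [1, 1, 3]), (20, [1, 1, 4]),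
    (30, [1, 1, 5]), (42, [1, 1, 6]), (56, [1, 1, 7])]]

def q8 : List (List (ℕ × List ℕ)) :=
  [[(36, [1, 0, 0]), (32, [1, 0, 1]), (28, [1, 0, 2]), (24, [1, 0, 3]), (20, [1, 0, 4]),
    (16, [1, 0, 5]), (12, [1, 0, 6]), (8, [1, 0, 7]), (4, [1, 0, 8]), (4, [1, 1, 0]),
    (8, [1, 1, 1]), (12, [1, 1, 2]), (16, [1, 1, 3]), (20, [1, 1, 4]), (24, [1, 1, 5]),
    (28, [1, 1, 6]), (32, [1, 1, 7]), (36, [1, 1, 8])],
  [(36, [0, 1, 0]), (32, [0, 1, 1]), (28, [0, 1, 2]), (24, [0, 1, 3]), (20, [0, 1, 4]),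
    (16, [0, 1, 5]), (12, [0, 1, 6]), (8, [0, 1, 7]), (4, [0, 1, 8]), (4, [1, 1, 0]),
    (8, [1, 1, 1]), (12, [1, 1, 2]), (16, [1, 1, 3]), (20, [1, 1, 4]), (24, [1, 1, 5]),
    (28, [1, 1, 6]), (32, [1, 1, 7]), (36, [1, 1, 8])],
  [(36, [0, 0, 1]), (28, [0, 0, 2]), (21, [0, 0, 3]), (15, [0, 0, 4]), (10, [0, 0, 5]),
    (6, [0, 0, 6]), (3, [0, 0, 7]), (1, [0, 0, 8]), (4, [0, 1, 1]), (7, [0, 1, 2]), (9, [0, 1, 3]),
    (10, [0, 1, 4]), (10, [0, 1, 5]), (9, [0, 1, 6]), (7, [0, 1, 7]), (4, [0, 1, 8]),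
    (4, [1, 0, 1]), (7, [1, 0, 2]), (9, [1, 0, 3]), (10, [1, 0, 4]), (10, [1, 0, 5]),
    (9, [1, 0, 6]), (7, [1, 0, 7]), (4, [1, 0, 8]), (1, [1, 1, 1]), (3, [1, 1, 2]), (6, [1, 1, 3]),
    (10, [1, 1, 4]), (15, [1, 1, 5]), (21, [1, 1, 6]), (28, [1, 1, 7]), (36, [1, 1, 8])]]

def q9 : List (List (ℕ × List ℕ)) :=
  [[(90, [1, 0, 0]), (81, [1, 0, 1]), (72, [1, 0, 2]), (63, [1, 0, 3]), (54, [1, 0, 4]),
    (45, [1, 0, 5]), (36, [1, 0, 6]), (27, [1, 0, 7]), (18, [1, 0, 8]), (9, [1, 0, 9]),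
    (9, [1, 1, 0]), (18, [1, 1, 1]), (27, [1, 1, 2]), (36, [1, 1, 3]), (45, [1, 1, 4]),
    (54, [1, 1, 5]), (63, [1, 1, 6]), (72, [1, 1, 7]), (81, [1, 1, 8]), (90, [1, 1, 9])],
  [(90, [0, 1, 0]), (81, [0, 1, 1]), (72, [0, 1, 2]), (63, [0, 1, 3]), (54, [0, 1, 4]),
    (45, [0, 1, 5]), (36, [0, 1, 6]), (27, [0, 1, 7]), (18, [0, 1, 8]), (9, [0, 1, 9]),
    (9, [1, 1, 0]), (18, [1, 1, 1]), (27, [1, 1, 2]), (36, [1, 1, 3]), (45, [1, 1, 4]),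
    (54, [1, 1, 5]), (63, [1, 1, 6]), (72, [1, 1, 7]), (81, [1, 1, 8]), (90, [1, 1, 9])],
  [(90, [0, 0, 1]), (72, [0, 0, 2]), (56, [0, 0, 3]), (42, [0, 0, 4]), (30, [0, 0, 5]),
    (20, [0, 0, 6]), (12, [0, 0, 7]), (6, [0, 0, 8]), (2, [0, 0, 9]), (9, [0, 1, 1]),
    (16, [0, 1, 2]), (21, [0, 1, 3]), (24, [0, 1, 4]), (25, [0, 1, 5]), (24, [0, 1, 6]),
    (21, [0, 1, 7]), (16, [0, 1, 8]), (9, [0, 1, 9]), (9, [1, 0, 1]), (16, [1, 0, 2]),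
    (21, [1, 0, 3]), (24, [1, 0, 4]), (25, [1, 0, 5]), (24, [1, 0, 6]), (21, [1, 0, 7]),
    (16, [1, 0, 8]), (9, [1, 0, 9]), (2, [1, 1, 1]), (6, [1, 1, 2]), (12, [1, 1, 3]),
    (20, [1, 1, 4]), (30, [1, 1, 5]), (42, [1, 1, 6]), (56, [1, 1, 7]), (72, [1, 1, 8]),
    (90, [1, 1, 9])]]

def q10 : List (List (ℕ × List ℕ)) :=
  [[(55, [1, 0, 0]), (50, [1, 0, 1]), (45, [1, 0, 2]), (40, [1, 0, 3]), (35, [1, 0, 4]),
    (30, [1, 0, 5]), (25, [1, 0, 6]), (20, [1, 0, 7]), (15, [1, 0, 8]), (10, [1, 0, 9]),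
    (5, [1, 0, 10]), (5, [1, 1, 0]), (10, [1, 1, 1]), (15, [1, 1, 2]), (20, [1, 1, 3]),
    (25, [1, 1, 4]), (30, [1, 1, 5]), (35, [1, 1, 6]), (40, [1, 1, 7]), (45, [1, 1, 8]),
    (50, [1, 1, 9]), (55, [1, 1, 10])],
  [(55, [0, 1, 0]), (50, [0, 1, 1]), (45, [0, 1, 2]), (40, [0, 1, 3]), (35, [0, 1, 4]),
    (30, [0, 1, 5]), (25, [0, 1, 6]), (20, [0, 1, 7]), (15, [0, 1, 8]), (10, [0, 1, 9]),
    (5, [0, 1, 10]), (5, [1, 1, 0]), (10, [1, 1, 1]), (15, [1, 1, 2]), (20, [1, 1, 3]),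
    (25, [1, 1, 4]), (30, [1, 1, 5]), (35, [1, 1, 6]), (40, [1, 1, 7]), (45, [1, 1, 8]),
    (50, [1, 1, 9]), (55, [1, 1, 10])],
  [(55, [0, 0, 1]), (45, [0, 0, 2]), (36, [0, 0, 3]), (28, [0, 0, 4]), (21, [0, 0, 5]),
    (15, [0, 0, 6]), (10, [0, 0, 7]), (6, [0, 0, 8]), (3, [0, 0, 9]), (1, [0, 0, 10]),
    (5, [0, 1, 1]), (9, [0, 1, 2]), (12, [0, 1, 3]), (14, [0, 1, 4]), (15, [0, 1, 5]),
    (15, [0, 1, 6]), (14, [0, 1, 7]), (12, [0, 1, 8]), (9, [0, 1, 9]), (5, [0, 1, 10]),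
    (5, [1, 0, 1]), (9, [1, 0, 2]), (12, [1, 0, 3]), (14, [1, 0, 4]), (15, [1, 0, 5]),
    (15, [1, 0, 6]), (14, [1, 0, 7]), (12, [1, 0, 8]), (9, [1, 0, 9]), (5, [1, 0, 10]),
    (1, [1, 1, 1]), (3, [1, 1, 2]), (6, [1, 1, 3]), (10, [1, 1, 4]), (15, [1, 1, 5]),
    (21, [1, 1, 6]), (28, [1, 1, 7]), (36, [1, 1, 8]), (45, [1, 1, 9]), (55, [1, 1, 10])]]

def q11 : List (List (ℕ × List ℕ)) :=
  [[(132, [1, 0, 0]), (121, [1, 0, 1]), (110, [1, 0, 2]), (99, [1, 0, 3]), (88, [1, 0, 4]),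
    (77, [1, 0, 5]), (66, [1, 0, 6]), (55, [1, 0, 7]), (44, [1, 0, 8]), (33, [1, 0, 9]),
    (22, [1, 0, 10]), (11, [1, 0, 11]), (11, [1, 1, 0]), (22, [1, 1, 1]), (33, [1, 1, 2]),
    (44, [1, 1, 3]), (55, [1, 1, 4]), (66, [1, 1, 5]), (77, [1, 1, 6]), (88, [1, 1, 7]),
    (99, [1, 1, 8]), (110, [1, 1, 9]), (121, [1, 1, 10]), (132, [1, 1, 11])],
  [(132, [0, 1, 0]), (121, [0, 1, 1]), (110, [0, 1, 2]), (99, [0, 1, 3]), (88, [0, 1, 4]),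
    (77, [0, 1, 5]), (66, [0, 1, 6]), (55, [0, 1, 7]), (44, [0, 1, 8]), (33, [0, 1, 9]),
    (22, [0, 1, 10]), (11, [0, 1, 11]), (11, [1, 1, 0]), (22, [1, 1, 1]), (33, [1, 1, 2]),
    (44, [1, 1, 3]), (55, [1, 1, 4]), (66, [1, 1, 5]), (77, [1, 1, 6]), (88, [1, 1, 7]),
    (99, [1, 1, 8]), (110, [1, 1, 9]), (121, [1, 1, 10]), (132, [1, 1, 11])],
  [(132, [0, 0, 1]), (110, [0, 0, 2]), (90, [0, 0, 3]), (72, [0, 0, 4]), (56, [0, 0, 5]),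
    (42, [0, 0, 6]), (30, [0, 0, 7]), (20, [0, 0, 8]), (12, [0, 0, 9]), (6, [0, 0, 10]),
    (2, [0, 0, 11]), (11, [0, 1, 1]), (20, [0, 1, 2]), (27, [0, 1, 3]), (32, [0, 1, 4]),
    (35, [0, 1, 5]), (36, [0, 1, 6]), (35, [0, 1, 7]), (32, [0, 1, 8]), (27, [0, 1, 9]),
    (20, [0, 1, 10]), (11, [0, 1, 11]), (11, [1, 0, 1]), (20, [1, 0, 2]), (27, [1, 0, 3]),
    (32, [1, 0, 4]), (35, [1, 0, 5]), (36, [1, 0, 6]), (35, [1, 0, 7]), (32, [1, 0, 8]),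
    (27, [1, 0, 9]), (20, [1, 0, 10]), (11, [1, 0, 11]), (2, [1, 1, 1]), (6, [1, 1, 2]),
    (12, [1, 1, 3]), (20, [1, 1, 4]), (30, [1, 1, 5]), (42, [1, 1, 6]), (56, [1, 1, 7]),
    (72, [1, 1, 8]), (90, [1, 1, 9]), (110, [1, 1, 10]), (132, [1, 1, 11])]]

def q12 : List (List (ℕ × List ℕ)) :=
  [[(78, [1, 0, 0]), (72, [1, 0, 1]), (66, [1, 0, 2]), (60, [1, 0, 3]), (54, [1, 0, 4]),
    (48, [1, 0, 5]), (42, [1, 0, 6]), (36, [1, 0, 7]), (30, [1, 0, 8]), (24, [1, 0, 9]),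
    (18, [1, 0, 10]), (12, [1, 0, 11]), (6, [1, 0, 12]), (6, [1, 1, 0]), (12, [1, 1, 1]),
    (18, [1, 1, 2]), (24, [1, 1, 3]), (30, [1, 1, 4]), (36, [1, 1, 5]), (42, [1, 1, 6]),
    (48, [1, 1, 7]), (54, [1, 1, 8]), (60, [1, 1, 9]), (66, [1, 1, 10]), (72, [1, 1, 11]),
    (78, [1, 1, 12])],
  [(78, [0, 1, 0]), (72, [0, 1, 1]), (66, [0, 1, 2]), (60, [0, 1, 3]), (54, [0, 1, 4]),
    (48, [0, 1, 5]), (42, [0, 1, 6]), (36, [0, 1, 7]), (30, [0, 1, 8]), (24, [0, 1, 9]),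
    (18, [0, 1, 10]), (12, [0, 1, 11]), (6, [0, 1, 12]), (6, [1, 1, 0]), (12, [1, 1, 1]),
    (18, [1, 1, 2]), (24, [1, 1, 3]), (30, [1, 1, 4]), (36, [1, 1, 5]), (42, [1, 1, 6]),
    (48, [1, 1, 7]), (54, [1, 1, 8]), (60, [1, 1, 9]), (66, [1, 1, 10]), (72, [1, 1, 11]),
    (78, [1, 1, 12])],
  [(78, [0, 0, 1]), (66, [0, 0, 2]), (55, [0, 0, 3]), (45, [0, 0, 4]), (36, [0, 0, 5]),
    (28, [0, 0, 6]), (21, [0, 0, 7]), (15, [0, 0, 8]), (10, [0, 0, 9]), (6, [0, 0, 10]),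
    (3, [0, 0, 11]), (1, [0, 0, 12]), (6, [0, 1, 1]), (11, [0, 1, 2]), (15, [0, 1, 3]),
    (18, [0, 1, 4]), (20, [0, 1, 5]), (21, [0, 1, 6]), (21, [0, 1, 7]), (20, [0, 1, 8]),
    (18, [0, 1, 9]), (15, [0, 1, 10]), (11, [0, 1, 11]), (6, [0, 1, 12]), (6, [1, 0, 1]),
    (11, [1, 0, 2]), (15, [1, 0, 3]), (18, [1, 0, 4]), (20, [1, 0, 5]), (21, [1, 0, 6]),
    (21, [1, 0, 7]), (20, [1, 0, 8]), (18, [1, 0, 9]), (15, [1, 0, 10]), (11, [1, 0, 11]),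
    (6, [1, 0, 12]), (1, [1, 1, 1]), (3, [1, 1, 2]), (6, [1, 1, 3]), (10, [1, 1, 4]),
    (15, [1, 1, 5]), (21, [1, 1, 6]), (28, [1, 1, 7]), (36, [1, 1, 8]), (45, [1, 1, 9]),
    (55, [1, 1, 10]), (66, [1, 1, 11]), (78, [1, 1, 12])]]

def q13 : List (List (ℕ × List ℕ)) :=
  [[(182, [1, 0, 0]), (169, [1, 0, 1]), (156, [1, 0, 2]), (143, [1, 0, 3]), (130, [1, 0, 4]),
    (117, [1, 0, 5]), (104, [1, 0, 6]), (91, [1, 0, 7]), (78, [1, 0, 8]), (65, [1, 0, 9]),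
    (52, [1, 0, 10]), (39, [1, 0, 11]), (26, [1, 0, 12]), (13, [1, 0, 13]), (13, [1, 1, 0]),
    (26, [1, 1, 1]), (39, [1, 1, 2]), (52, [1, 1, 3]), (65, [1, 1, 4]), (78, [1, 1, 5]),
    (91, [1, 1, 6]), (104, [1, 1, 7]), (117, [1, 1, 8]), (130, [1, 1, 9]), (143, [1, 1, 10]),
    (156, [1, 1, 11]), (169, [1, 1, 12]), (182, [1, 1, 13])],
  [(182, [0, 1, 0]), (169, [0, 1, 1]), (156, [0, 1, 2]), (143, [0, 1, 3]), (130, [0, 1, 4]),
    (117, [0, 1, 5]), (104, [0, 1, 6]), (91, [0, 1, 7]), (78, [0, 1, 8]), (65, [0, 1, 9]),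
    (52, [0, 1, 10]), (39, [0, 1, 11]), (26, [0, 1, 12]), (13, [0, 1, 13]), (13, [1, 1, 0]),
    (26, [1, 1, 1]), (39, [1, 1, 2]), (52, [1, 1, 3]), (65, [1, 1, 4]), (78, [1, 1, 5]),
    (91, [1, 1, 6]), (104, [1, 1, 7]), (117, [1, 1, 8]), (130, [1, 1, 9]), (143, [1, 1, 10]),
    (156, [1, 1, 11]), (169, [1, 1, 12]), (182, [1, 1, 13])],
  [(182, [0, 0, 1]), (156, [0, 0, 2]), (132, [0, 0, 3]), (110, [0, 0, 4]), (90, [0, 0, 5]),
    (72, [0, 0, 6]), (56, [0, 0, 7]), (42, [0, 0, 8]), (30, [0, 0, 9]), (20, [0, 0, 10]),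
    (12, [0, 0, 11]), (6, [0, 0, 12]), (2, [0, 0, 13]), (13, [0, 1, 1]), (24, [0, 1, 2]),
    (33, [0, 1, 3]), (40, [0, 1, 4]), (45, [0, 1, 5]), (48, [0, 1, 6]), (49, [0, 1, 7]),
    (48, [0, 1, 8]), (45, [0, 1, 9]), (40, [0, 1, 10]), (33, [0, 1, 11]), (24, [0, 1, 12]),
    (13, [0, 1, 13]), (13, [1, 0, 1]), (24, [1, 0, 2]), (33, [1, 0, 3]), (40, [1, 0, 4]),
    (45, [1, 0, 5]), (48, [1, 0, 6]), (49, [1, 0, 7]), (48, [1, 0, 8]), (45, [1, 0, 9]),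
    (40, [1, 0, 10]), (33, [1, 0, 11]), (24, [1, 0, 12]), (13, [1, 0, 13]), (2, [1, 1, 1]),
    (6, [1, 1, 2]), (12, [1, 1, 3]), (20, [1, 1, 4]), (30, [1, 1, 5]), (42, [1, 1, 6]),
    (56, [1, 1, 7]), (72, [1, 1, 8]), (90, [1, 1, 9]), (110, [1, 1, 10]), (132, [1, 1, 11]),
    (156, [1, 1, 12]), (182, [1, 1, 13])]]

def q14 : List (List (ℕ × List ℕ)) :=
  [[(105, [1, 0, 0]), (98, [1, 0, 1]), (91, [1, 0, 2]), (84, [1, 0, 3]), (77, [1, 0, 4]),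
    (70, [1, 0, 5]), (63, [1, 0, 6]), (56, [1, 0, 7]), (49, [1, 0, 8]), (42, [1, 0, 9]),
    (35, [1, 0, 10]), (28, [1, 0, 11]), (21, [1, 0, 12]), (14, [1, 0, 13]), (7, [1, 0, 14]),
    (7, [1, 1, 0]), (14, [1, 1, 1]), (21, [1, 1, 2]), (28, [1, 1, 3]), (35, [1, 1, 4]),
    (42, [1, 1, 5]), (49, [1, 1, 6]), (56, [1, 1, 7]), (63, [1, 1, 8]), (70, [1, 1, 9]),
    (77, [1, 1, 10]), (84, [1, 1, 11]), (91, [1, 1, 12]), (98, [1, 1, 13]), (105, [1, 1, 14])],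
  [(105, [0, 1, 0]), (98, [0, 1, 1]), (91, [0, 1, 2]), (84, [0, 1, 3]), (77, [0, 1, 4]),
    (70, [0, 1, 5]), (63, [0, 1, 6]), (56, [0, 1, 7]), (49, [0, 1, 8]), (42, [0, 1, 9]),
    (35, [0, 1, 10]), (28, [0, 1, 11]), (21, [0, 1, 12]), (14, [0, 1, 13]), (7, [0, 1, 14]),
    (7, [1, 1, 0]), (14, [1, 1, 1]), (21, [1, 1, 2]), (28, [1, 1, 3]), (35, [1, 1, 4]),
    (42, [1, 1, 5]), (49, [1, 1, 6]), (56, [1, 1, 7]), (63, [1, 1, 8]), (70, [1, 1, 9]),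
    (77, [1, 1, 10]), (84, [1, 1, 11]), (91, [1, 1, 12]), (98, [1, 1, 13]), (105, [1, 1, 14])],
  [(105, [0, 0, 1]), (91, [0, 0, 2]), (78, [0, 0, 3]), (66, [0, 0, 4]), (55, [0, 0, 5]),
    (45, [0, 0, 6]), (36, [0, 0, 7]), (28, [0, 0, 8]), (21, [0, 0, 9]), (15, [0, 0, 10]),
    (10, [0, 0, 11]), (6, [0, 0, 12]), (3, [0, 0, 13]), (1, [0, 0, 14]), (7, [0, 1, 1]),
    (13, [0, 1, 2]), (18, [0, 1, 3]), (22, [0, 1, 4]), (25, [0, 1, 5]), (27, [0, 1, 6]),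
    (28, [0, 1, 7]), (28, [0, 1, 8]), (27, [0, 1, 9]), (25, [0, 1, 10]), (22, [0, 1, 11]),
    (18, [0, 1, 12]), (13, [0, 1, 13]), (7, [0, 1, 14]), (7, [1, 0, 1]), (13, [1, 0, 2]),
    (18, [1, 0, 3]), (22, [1, 0, 4]), (25, [1, 0, 5]), (27, [1, 0, 6]), (28, [1, 0, 7]),
    (28, [1, 0, 8]), (27, [1, 0, 9]), (25, [1, 0, 10]), (22, [1, 0, 11]), (18, [1, 0, 12]),
    (13, [1, 0, 13]), (7, [1, 0, 14]), (1, [1, 1, 1]), (3, [1, 1, 2]), (6, [1, 1, 3]),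
    (10, [1, 1, 4]), (15, [1, 1, 5]), (21, [1, 1, 6]), (28, [1, 1, 7]), (36, [1, 1, 8]),
    (45, [1, 1, 9]), (55, [1, 1, 10]), (66, [1, 1, 11]), (78, [1, 1, 12]), (91, [1, 1, 13]),
    (105, [1, 1, 14])]]

def q15 : List (List (ℕ × List ℕ)) :=
  [[(240, [1, 0, 0]), (225, [1, 0, 1]), (210, [1, 0, 2]), (195, [1, 0, 3]), (180, [1, 0, 4]),
    (165, [1, 0, 5]), (150, [1, 0, 6]), (135, [1, 0, 7]), (120, [1, 0, 8]), (105, [1, 0, 9]),
    (90, [1, 0, 10]), (75, [1, 0, 11]), (60, [1, 0, 12]), (45, [1, 0, 13]), (30, [1, 0, 14]),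
    (15, [1, 0, 15]), (15, [1, 1, 0]), (30, [1, 1, 1]), (45, [1, 1, 2]), (60, [1, 1, 3]),
    (75, [1, 1, 4]), (90, [1, 1, 5]), (105, [1, 1, 6]), (120, [1, 1, 7]), (135, [1, 1, 8]),
    (150, [1, 1, 9]), (165, [1, 1, 10]), (180, [1, 1, 11]), (195, [1, 1, 12]), (210, [1, 1, 13]),
    (225, [1, 1, 14]), (240, [1, 1, 15])],
  [(240, [0, 1, 0]), (225, [0, 1, 1]), (210, [0, 1, 2]), (195, [0, 1, 3]), (180, [0, 1, 4]),
    (165, [0, 1, 5]), (150, [0, 1, 6]), (135, [0, 1, 7]), (120, [0, 1, 8]), (105, [0, 1, 9]),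
    (90, [0, 1, 10]), (75, [0, 1, 11]), (60, [0, 1, 12]), (45, [0, 1, 13]), (30, [0, 1, 14]),
    (15, [0, 1, 15]), (15, [1, 1, 0]), (30, [1, 1, 1]), (45, [1, 1, 2]), (60, [1, 1, 3]),
    (75, [1, 1, 4]), (90, [1, 1, 5]), (105, [1, 1, 6]), (120, [1, 1, 7]), (135, [1, 1, 8]),
    (150, [1, 1, 9]), (165, [1, 1, 10]), (180, [1, 1, 11]), (195, [1, 1, 12]), (210, [1, 1, 13]),
    (225, [1, 1, 14]), (240, [1, 1, 15])],
  [(240, [0, 0, 1]), (210, [0, 0, 2]), (182, [0, 0, 3]), (156, [0, 0, 4]), (132, [0, 0, 5]),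
    (110, [0, 0, 6]), (90, [0, 0, 7]), (72, [0, 0, 8]), (56, [0, 0, 9]), (42, [0, 0, 10]),
    (30, [0, 0, 11]), (20, [0, 0, 12]), (12, [0, 0, 13]), (6, [0, 0, 14]), (2, [0, 0, 15]),
    (15, [0, 1, 1]), (28, [0, 1, 2]), (39, [0, 1, 3]), (48, [0, 1, 4]), (55, [0, 1, 5]),
    (60, [0, 1, 6]), (63, [0, 1, 7]), (64, [0, 1, 8]), (63, [0, 1, 9]), (60, [0, 1, 10]),
    (55, [0, 1, 11]), (48, [0, 1, 12]), (39, [0, 1, 13]), (28, [0, 1, 14]), (15, [0, 1, 15]),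
    (15, [1, 0, 1]), (28, [1, 0, 2]), (39, [1, 0, 3]), (48, [1, 0, 4]), (55, [1, 0, 5]),
    (60, [1, 0, 6]), (63, [1, 0, 7]), (64, [1, 0, 8]), (63, [1, 0, 9]), (60, [1, 0, 10]),
    (55, [1, 0, 11]), (48, [1, 0, 12]), (39, [1, 0, 13]), (28, [1, 0, 14]), (15, [1, 0, 15]),
    (2, [1, 1, 1]), (6, [1, 1, 2]), (12, [1, 1, 3]), (20, [1, 1, 4]), (30, [1, 1, 5]),
    (42, [1, 1, 6]), (56, [1, 1, 7]), (72, [1, 1, 8]), (90, [1, 1, 9]), (110, [1, 1, 10]),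
    (132, [1, 1, 11]), (156, [1, 1, 12]), (182, [1, 1, 13]), (210, [1, 1, 14]), (240, [1, 1, 15])]]

def q16 : List (List (ℕ × List ℕ)) :=
  [[(136, [1, 0, 0]), (128, [1, 0, 1]), (120, [1, 0, 2]), (112, [1, 0, 3]), (104, [1, 0, 4]),
    (96, [1, 0, 5]), (88, [1, 0, 6]), (80, [1, 0, 7]), (72, [1, 0, 8]), (64, [1, 0, 9]),
    (56, [1, 0, 10]), (48, [1, 0, 11]), (40, [1, 0, 12]), (32, [1, 0, 13]), (24, [1, 0, 14]),
    (16, [1, 0, 15]), (8, [1, 0, 16]), (8, [1, 1, 0]), (16, [1, 1, 1]), (24, [1, 1, 2]),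
    (32, [1, 1, 3]), (40, [1, 1, 4]), (48, [1, 1, 5]), (56, [1, 1, 6]), (64, [1, 1, 7]),
    (72, [1, 1, 8]), (80, [1, 1, 9]), (88, [1, 1, 10]), (96, [1, 1, 11]), (104, [1, 1, 12]),
    (112, [1, 1, 13]), (120, [1, 1, 14]), (128, [1, 1, 15]), (136, [1, 1, 16])],
  [(136, [0, 1, 0]), (128, [0, 1, 1]), (120, [0, 1, 2]), (112, [0, 1, 3]), (104, [0, 1, 4]),
    (96, [0, 1, 5]), (88, [0, 1, 6]), (80, [0, 1, 7]), (72, [0, 1, 8]), (64, [0, 1, 9]),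
    (56, [0, 1, 10]), (48, [0, 1, 11]), (40, [0, 1, 12]), (32, [0, 1, 13]), (24, [0, 1, 14]),
    (16, [0, 1, 15]), (8, [0, 1, 16]), (8, [1, 1, 0]), (16, [1, 1, 1]), (24, [1, 1, 2]),
    (32, [1, 1, 3]), (40, [1, 1, 4]), (48, [1, 1, 5]), (56, [1, 1, 6]), (64, [1, 1, 7]),
    (72, [1, 1, 8]), (80, [1, 1, 9]), (88, [1, 1, 10]), (96, [1, 1, 11]), (104, [1, 1, 12]),
    (112, [1, 1, 13]), (120, [1, 1, 14]), (128, [1, 1, 15]), (136, [1, 1, 16])],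
  [(136, [0, 0, 1]), (120, [0, 0, 2]), (105, [0, 0, 3]), (91, [0, 0, 4]), (78, [0, 0, 5]),
    (66, [0, 0, 6]), (55, [0, 0, 7]), (45, [0, 0, 8]), (36, [0, 0, 9]), (28, [0, 0, 10]),
    (21, [0, 0, 11]), (15, [0, 0, 12]), (10, [0, 0, 13]), (6, [0, 0, 14]), (3, [0, 0, 15]),
    (1, [0, 0, 16]), (8, [0, 1, 1]), (15, [0, 1, 2]), (21, [0, 1, 3]), (26, [0, 1, 4]),
    (30, [0, 1, 5]), (33, [0, 1, 6]), (35, [0, 1, 7]), (36, [0, 1, 8]), (36, [0, 1, 9]),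
    (35, [0, 1, 10]), (33, [0, 1, 11]), (30, [0, 1, 12]), (26, [0, 1, 13]), (21, [0, 1, 14]),
    (15, [0, 1, 15]), (8, [0, 1, 16]), (8, [1, 0, 1]), (15, [1, 0, 2]), (21, [1, 0, 3]),
    (26, [1, 0, 4]), (30, [1, 0, 5]), (33, [1, 0, 6]), (35, [1, 0, 7]), (36, [1, 0, 8]),
    (36, [1, 0, 9]), (35, [1, 0, 10]), (33, [1, 0, 11]), (30, [1, 0, 12]), (26, [1, 0, 13]),
    (21, [1, 0, 14]), (15, [1, 0, 15]), (8, [1, 0, 16]), (1, [1, 1, 1]), (3, [1, 1, 2]),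
    (6, [1, 1, 3]), (10, [1, 1, 4]), (15, [1, 1, 5]), (21, [1, 1, 6]), (28, [1, 1, 7]),
    (36, [1, 1, 8]), (45, [1, 1, 9]), (55, [1, 1, 10]), (66, [1, 1, 11]), (78, [1, 1, 12]),
    (91, [1, 1, 13]), (105, [1, 1, 14]), (120, [1, 1, 15]), (136, [1, 1, 16])]]

def q17 : List (List (ℕ × List ℕ)) :=
  [[(306, [1, 0, 0]), (289, [1, 0, 1]), (272, [1, 0, 2]), (255, [1, 0, 3]), (238, [1, 0, 4]),
    (221, [1, 0, 5]), (204, [1, 0, 6]), (187, [1, 0, 7]), (170, [1, 0, 8]), (153, [1, 0, 9]),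
    (136, [1, 0, 10]), (119, [1, 0, 11]), (102, [1, 0, 12]), (85, [1, 0, 13]), (68, [1, 0, 14]),
    (51, [1, 0, 15]), (34, [1, 0, 16]), (17, [1, 0, 17]), (17, [1, 1, 0]), (34, [1, 1, 1]),
    (51, [1, 1, 2]), (68, [1, 1, 3]), (85, [1, 1, 4]), (102, [1, 1, 5]), (119, [1, 1, 6]),
    (136, [1, 1, 7]), (153, [1, 1, 8]), (170, [1, 1, 9]), (187, [1, 1, 10]), (204, [1, 1, 11]),
    (221, [1, 1, 12]), (238, [1, 1, 13]), (255, [1, 1, 14]), (272, [1, 1, 15]), (289, [1, 1, 16]),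
    (306, [1, 1, 17])],
  [(306, [0, 1, 0]), (289, [0, 1, 1]), (272, [0, 1, 2]), (255, [0, 1, 3]), (238, [0, 1, 4]),
    (221, [0, 1, 5]), (204, [0, 1, 6]), (187, [0, 1, 7]), (170, [0, 1, 8]), (153, [0, 1, 9]),
    (136, [0, 1, 10]), (119, [0, 1, 11]), (102, [0, 1, 12]), (85, [0, 1, 13]), (68, [0, 1, 14]),
    (51, [0, 1, 15]), (34, [0, 1, 16]), (17, [0, 1, 17]), (17, [1, 1, 0]), (34, [1, 1, 1]),
    (51, [1, 1, 2]), (68, [1, 1, 3]), (85, [1, 1, 4]), (102, [1, 1, 5]), (119, [1, 1, 6]),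
    (136, [1, 1, 7]), (153, [1, 1, 8]), (170, [1, 1, 9]), (187, [1, 1, 10]), (204, [1, 1, 11]),
    (221, [1, 1, 12]), (238, [1, 1, 13]), (255, [1, 1, 14]), (272, [1, 1, 15]), (289, [1, 1, 16]),
    (306, [1, 1, 17])],
  [(306, [0, 0, 1]), (272, [0, 0, 2]), (240, [0, 0, 3]), (210, [0, 0, 4]), (182, [0, 0, 5]),
    (156, [0, 0, 6]), (132, [0, 0, 7]), (110, [0, 0, 8]), (90, [0, 0, 9]), (72, [0, 0, 10]),
    (56, [0, 0, 11]), (42, [0, 0, 12]), (30, [0, 0, 13]), (20, [0, 0, 14]), (12, [0, 0, 15]),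
    (6, [0, 0, 16]), (2, [0, 0, 17]), (17, [0, 1, 1]), (32, [0, 1, 2]), (45, [0, 1, 3]),
    (56, [0, 1, 4]), (65, [0, 1, 5]), (72, [0, 1, 6]), (77, [0, 1, 7]), (80, [0, 1, 8]),
    (81, [0, 1, 9]), (80, [0, 1, 10]), (77, [0, 1, 11]), (72, [0, 1, 12]), (65, [0, 1, 13]),
    (56, [0, 1, 14]), (45, [0, 1, 15]), (32, [0, 1, 16]), (17, [0, 1, 17]), (17, [1, 0, 1]),
    (32, [1, 0, 2]), (45, [1, 0, 3]), (56, [1, 0, 4]), (65, [1, 0, 5]), (72, [1, 0, 6]),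
    (77, [1, 0, 7]), (80, [1, 0, 8]), (81, [1, 0, 9]), (80, [1, 0, 10]), (77, [1, 0, 11]),
    (72, [1, 0, 12]), (65, [1, 0, 13]), (56, [1, 0, 14]), (45, [1, 0, 15]), (32, [1, 0, 16]),
    (17, [1, 0, 17]), (2, [1, 1, 1]), (6, [1, 1, 2]), (12, [1, 1, 3]), (20, [1, 1, 4]),
    (30, [1, 1, 5]), (42, [1, 1, 6]), (56, [1, 1, 7]), (72, [1, 1, 8]), (90, [1, 1, 9]),
    (110, [1, 1, 10]), (132, [1, 1, 11]), (156, [1, 1, 12]), (182, [1, 1, 13]), (210, [1, 1, 14]),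
    (240, [1, 1, 15]), (272, [1, 1, 16]), (306, [1, 1, 17])]]

def q18 : List (List (ℕ × List ℕ)) :=
  [[(171, [1, 0, 0]), (162, [1, 0, 1]), (153, [1, 0, 2]), (144, [1, 0, 3]), (135, [1, 0, 4]),
    (126, [1, 0, 5]), (117, [1, 0, 6]), (108, [1, 0, 7]), (99, [1, 0, 8]), (90, [1, 0, 9]),
    (81, [1, 0, 10]), (72, [1, 0, 11]), (63, [1, 0, 12]), (54, [1, 0, 13]), (45, [1, 0, 14]),
    (36, [1, 0, 15]), (27, [1, 0, 16]), (18, [1, 0, 17]), (9, [1, 0, 18]), (9, [1, 1, 0]),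
    (18, [1, 1, 1]), (27, [1, 1, 2]), (36, [1, 1, 3]), (45, [1, 1, 4]), (54, [1, 1, 5]),
    (63, [1, 1, 6]), (72, [1, 1, 7]), (81, [1, 1, 8]), (90, [1, 1, 9]), (99, [1, 1, 10]),
    (108, [1, 1, 11]), (117, [1, 1, 12]), (126, [1, 1, 13]), (135, [1, 1, 14]), (144, [1, 1, 15]),
    (153, [1, 1, 16]), (162, [1, 1, 17]), (171, [1, 1, 18])],
  [(171, [0, 1, 0]), (162, [0, 1, 1]), (153, [0, 1, 2]), (144, [0, 1, 3]), (135, [0, 1, 4]),
    (126, [0, 1, 5]), (117, [0, 1, 6]), (108, [0, 1, 7]), (99, [0, 1, 8]), (90, [0, 1, 9]),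
    (81, [0, 1, 10]), (72, [0, 1, 11]), (63, [0, 1, 12]), (54, [0, 1, 13]), (45, [0, 1, 14]),
    (36, [0, 1, 15]), (27, [0, 1, 16]), (18, [0, 1, 17]), (9, [0, 1, 18]), (9, [1, 1, 0]),
    (18, [1, 1, 1]), (27, [1, 1, 2]), (36, [1, 1, 3]), (45, [1, 1, 4]), (54, [1, 1, 5]),
    (63, [1, 1, 6]), (72, [1, 1, 7]), (81, [1, 1, 8]), (90, [1, 1, 9]), (99, [1, 1, 10]),
    (108, [1, 1, 11]), (117, [1, 1, 12]), (126, [1, 1, 13]), (135, [1, 1, 14]), (144, [1, 1, 15]),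
    (153, [1, 1, 16]), (162, [1, 1, 17]), (171, [1, 1, 18])],
  [(171, [0, 0, 1]), (153, [0, 0, 2]), (136, [0, 0, 3]), (120, [0, 0, 4]), (105, [0, 0, 5]),
    (91, [0, 0, 6]), (78, [0, 0, 7]), (66, [0, 0, 8]), (55, [0, 0, 9]), (45, [0, 0, 10]),
    (36, [0, 0, 11]), (28, [0, 0, 12]), (21, [0, 0, 13]), (15, [0, 0, 14]), (10, [0, 0, 15]),
    (6, [0, 0, 16]), (3, [0, 0, 17]), (1, [0, 0, 18]), (9, [0, 1, 1]), (17, [0, 1, 2]),
    (24, [0, 1, 3]), (30, [0, 1, 4]), (35, [0, 1, 5]), (39, [0, 1, 6]), (42, [0, 1, 7]),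
    (44, [0, 1, 8]), (45, [0, 1, 9]), (45, [0, 1, 10]), (44, [0, 1, 11]), (42, [0, 1, 12]),
    (39, [0, 1, 13]), (35, [0, 1, 14]), (30, [0, 1, 15]), (24, [0, 1, 16]), (17, [0, 1, 17]),
    (9, [0, 1, 18]), (9, [1, 0, 1]), (17, [1, 0, 2]), (24, [1, 0, 3]), (30, [1, 0, 4]),
    (35, [1, 0, 5]), (39, [1, 0, 6]), (42, [1, 0, 7]), (44, [1, 0, 8]), (45, [1, 0, 9]),
    (45, [1, 0, 10]), (44, [1, 0, 11]), (42, [1, 0, 12]), (39, [1, 0, 13]), (35, [1, 0, 14]),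
    (30, [1, 0, 15]), (24, [1, 0, 16]), (17, [1, 0, 17]), (9, [1, 0, 18]), (1, [1, 1, 1]),
    (3, [1, 1, 2]), (6, [1, 1, 3]), (10, [1, 1, 4]), (15, [1, 1, 5]), (21, [1, 1, 6]),
    (28, [1, 1, 7]), (36, [1, 1, 8]), (45, [1, 1, 9]), (55, [1, 1, 10]), (66, [1, 1, 11]),
    (78, [1, 1, 12]), (91, [1, 1, 13]), (105, [1, 1, 14]), (120, [1, 1, 15]), (136, [1, 1, 16]),
    (153, [1, 1, 17]), (171, [1, 1, 18])]]

def q19 : List (List (ℕ × List ℕ)) :=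
  [[(380, [1, 0, 0]), (361, [1, 0, 1]), (342, [1, 0, 2]), (323, [1, 0, 3]), (304, [1, 0, 4]),
    (285, [1, 0, 5]), (266, [1, 0, 6]), (247, [1, 0, 7]), (228, [1, 0, 8]), (209, [1, 0, 9]),
    (190, [1, 0, 10]), (171, [1, 0, 11]), (152, [1, 0, 12]), (133, [1, 0, 13]), (114, [1, 0, 14]),
    (95, [1, 0, 15]), (76, [1, 0, 16]), (57, [1, 0, 17]), (38, [1, 0, 18]), (19, [1, 0, 19]),
    (19, [1, 1, 0]), (38, [1, 1, 1]), (57, [1, 1, 2]), (76, [1, 1, 3]), (95, [1, 1, 4]),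
    (114, [1, 1, 5]), (133, [1, 1, 6]), (152, [1, 1, 7]), (171, [1, 1, 8]), (190, [1, 1, 9]),
    (209, [1, 1, 10]), (228, [1, 1, 11]), (247, [1, 1, 12]), (266, [1, 1, 13]), (285, [1, 1, 14]),
    (304, [1, 1, 15]), (323, [1, 1, 16]), (342, [1, 1, 17]), (361, [1, 1, 18]), (380, [1, 1, 19])],
  [(380, [0, 1, 0]), (361, [0, 1, 1]), (342, [0, 1, 2]), (323, [0, 1, 3]), (304, [0, 1, 4]),
    (285, [0, 1, 5]), (266, [0, 1, 6]), (247, [0, 1, 7]), (228, [0, 1, 8]), (209, [0, 1, 9]),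
    (190, [0, 1, 10]), (171, [0, 1, 11]), (152, [0, 1, 12]), (133, [0, 1, 13]), (114, [0, 1, 14]),
    (95, [0, 1, 15]), (76, [0, 1, 16]), (57, [0, 1, 17]), (38, [0, 1, 18]), (19, [0, 1, 19]),
    (19, [1, 1, 0]), (38, [1, 1, 1]), (57, [1, 1, 2]), (76, [1, 1, 3]), (95, [1, 1, 4]),
    (114, [1, 1, 5]), (133, [1, 1, 6]), (152, [1, 1, 7]), (171, [1, 1, 8]), (190, [1, 1, 9]),
    (209, [1, 1, 10]), (228, [1, 1, 11]), (247, [1, 1, 12]), (266, [1, 1, 13]), (285, [1, 1, 14]),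
    (304, [1, 1, 15]), (323, [1, 1, 16]), (342, [1, 1, 17]), (361, [1, 1, 18]), (380, [1, 1, 19])],
  [(380, [0, 0, 1]), (342, [0, 0, 2]), (306, [0, 0, 3]), (272, [0, 0, 4]), (240, [0, 0, 5]),
    (210, [0, 0, 6]), (182, [0, 0, 7]), (156, [0, 0, 8]), (132, [0, 0, 9]), (110, [0, 0, 10]),
    (90, [0, 0, 11]), (72, [0, 0, 12]), (56, [0, 0, 13]), (42, [0, 0, 14]), (30, [0, 0, 15]),
    (20, [0, 0, 16]), (12, [0, 0, 17]), (6, [0, 0, 18]), (2, [0, 0, 19]), (19, [0, 1, 1]),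
    (36, [0, 1, 2]), (51, [0, 1, 3]), (64, [0, 1, 4]), (75, [0, 1, 5]), (84, [0, 1, 6]),
    (91, [0, 1, 7]), (96, [0, 1, 8]), (99, [0, 1, 9]), (100, [0, 1, 10]), (99, [0, 1, 11]),
    (96, [0, 1, 12]), (91, [0, 1, 13]), (84, [0, 1, 14]), (75, [0, 1, 15]), (64, [0, 1, 16]),
    (51, [0, 1, 17]), (36, [0, 1, 18]), (19, [0, 1, 19]), (19, [1, 0, 1]), (36, [1, 0, 2]),
    (51, [1, 0, 3]), (64, [1, 0, 4]), (75, [1, 0, 5]), (84, [1, 0, 6]), (91, [1, 0, 7]),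
    (96, [1, 0, 8]), (99, [1, 0, 9]), (100, [1, 0, 10]), (99, [1, 0, 11]), (96, [1, 0, 12]),
    (91, [1, 0, 13]), (84, [1, 0, 14]), (75, [1, 0, 15]), (64, [1, 0, 16]), (51, [1, 0, 17]),
    (36, [1, 0, 18]), (19, [1, 0, 19]), (2, [1, 1, 1]), (6, [1, 1, 2]), (12, [1, 1, 3]),
    (20, [1, 1, 4]), (30, [1, 1, 5]), (42, [1, 1, 6]), (56, [1, 1, 7]), (72, [1, 1, 8]),
    (90, [1, 1, 9]), (110, [1, 1, 10]), (132, [1, 1, 11]), (156, [1, 1, 12]), (182, [1, 1, 13]),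
    (210, [1, 1, 14]), (240, [1, 1, 15]), (272, [1, 1, 16]), (306, [1, 1, 17]), (342, [1, 1, 18]),
    (380, [1, 1, 19])]]

def q20 : List (List (ℕ × List ℕ)) :=
  [[(210, [1, 0, 0]), (200, [1, 0, 1]), (190, [1, 0, 2]), (180, [1, 0, 3]), (170, [1, 0, 4]),
    (160, [1, 0, 5]), (150, [1, 0, 6]), (140, [1, 0, 7]), (130, [1, 0, 8]), (120, [1, 0, 9]),
    (110, [1, 0, 10]), (100, [1, 0, 11]), (90, [1, 0, 12]), (80, [1, 0, 13]), (70, [1, 0, 14]),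
    (60, [1, 0, 15]), (50, [1, 0, 16]), (40, [1, 0, 17]), (30, [1, 0, 18]), (20, [1, 0, 19]),
    (10, [1, 0, 20]), (10, [1, 1, 0]), (20, [1, 1, 1]), (30, [1, 1, 2]), (40, [1, 1, 3]),
    (50, [1, 1, 4]), (60, [1, 1, 5]), (70, [1, 1, 6]), (80, [1, 1, 7]), (90, [1, 1, 8]),
    (100, [1, 1, 9]), (110, [1, 1, 10]), (120, [1, 1, 11]), (130, [1, 1, 12]), (140, [1, 1, 13]),
    (150, [1, 1, 14]), (160, [1, 1, 15]), (170, [1, 1, 16]), (180, [1, 1, 17]), (190, [1, 1, 18]),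
    (200, [1, 1, 19]), (210, [1, 1, 20])],
  [(210, [0, 1, 0]), (200, [0, 1, 1]), (190, [0, 1, 2]), (180, [0, 1, 3]), (170, [0, 1, 4]),
    (160, [0, 1, 5]), (150, [0, 1, 6]), (140, [0, 1, 7]), (130, [0, 1, 8]), (120, [0, 1, 9]),
    (110, [0, 1, 10]), (100, [0, 1, 11]), (90, [0, 1, 12]), (80, [0, 1, 13]), (70, [0, 1, 14]),
    (60, [0, 1, 15]), (50, [0, 1, 16]), (40, [0, 1, 17]), (30, [0, 1, 18]), (20, [0, 1, 19]),
    (10, [0, 1, 20]), (10, [1, 1, 0]), (20, [1, 1, 1]), (30, [1, 1, 2]), (40, [1, 1, 3]),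
    (50, [1, 1, 4]), (60, [1, 1, 5]), (70, [1, 1, 6]), (80, [1, 1, 7]), (90, [1, 1, 8]),
    (100, [1, 1, 9]), (110, [1, 1, 10]), (120, [1, 1, 11]), (130, [1, 1, 12]), (140, [1, 1, 13]),
    (150, [1, 1, 14]), (160, [1, 1, 15]), (170, [1, 1, 16]), (180, [1, 1, 17]), (190, [1, 1, 18]),
    (200, [1, 1, 19]), (210, [1, 1, 20])],
  [(210, [0, 0, 1]), (190, [0, 0, 2]), (171, [0, 0, 3]), (153, [0, 0, 4]), (136, [0, 0, 5]),
    (120, [0, 0, 6]), (105, [0, 0, 7]), (91, [0, 0, 8]), (78, [0, 0, 9]), (66, [0, 0, 10]),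
    (55, [0, 0, 11]), (45, [0, 0, 12]), (36, [0, 0, 13]), (28, [0, 0, 14]), (21, [0, 0, 15]),
    (15, [0, 0, 16]), (10, [0, 0, 17]), (6, [0, 0, 18]), (3, [0, 0, 19]), (1, [0, 0, 20]),
    (10, [0, 1, 1]), (19, [0, 1, 2]), (27, [0, 1, 3]), (34, [0, 1, 4]), (40, [0, 1, 5]),
    (45, [0, 1, 6]), (49, [0, 1, 7]), (52, [0, 1, 8]), (54, [0, 1, 9]), (55, [0, 1, 10]),
    (55, [0, 1, 11]), (54, [0, 1, 12]), (52, [0, 1, 13]), (49, [0, 1, 14]), (45, [0, 1, 15]),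
    (40, [0, 1, 16]), (34, [0, 1, 17]), (27, [0, 1, 18]), (19, [0, 1, 19]), (10, [0, 1, 20]),
    (10, [1, 0, 1]), (19, [1, 0, 2]), (27, [1, 0, 3]), (34, [1, 0, 4]), (40, [1, 0, 5]),
    (45, [1, 0, 6]), (49, [1, 0, 7]), (52, [1, 0, 8]), (54, [1, 0, 9]), (55, [1, 0, 10]),
    (55, [1, 0, 11]), (54, [1, 0, 12]), (52, [1, 0, 13]), (49, [1, 0, 14]), (45, [1, 0, 15]),
    (40, [1, 0, 16]), (34, [1, 0, 17]), (27, [1, 0, 18]), (19, [1, 0, 19]), (10, [1, 0, 20]),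
    (1, [1, 1, 1]), (3, [1, 1, 2]), (6, [1, 1, 3]), (10, [1, 1, 4]), (15, [1, 1, 5]),
    (21, [1, 1, 6]), (28, [1, 1, 7]), (36, [1, 1, 8]), (45, [1, 1, 9]), (55, [1, 1, 10]),
    (66, [1, 1, 11]), (78, [1, 1, 12]), (91, [1, 1, 13]), (105, [1, 1, 14]), (120, [1, 1, 15]),
    (136, [1, 1, 16]), (153, [1, 1, 17]), (171, [1, 1, 18]), (190, [1, 1, 19]), (210, [1, 1, 20])]]

def q21 : List (List (ℕ × List ℕ)) :=
  [[(462, [1, 0, 0]), (441, [1, 0, 1]), (420, [1, 0, 2]), (399, [1, 0, 3]), (378, [1, 0, 4]),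
    (357, [1, 0, 5]), (336, [1, 0, 6]), (315, [1, 0, 7]), (294, [1, 0, 8]), (273, [1, 0, 9]),
    (252, [1, 0, 10]), (231, [1, 0, 11]), (210, [1, 0, 12]), (189, [1, 0, 13]), (168, [1, 0, 14]),
    (147, [1, 0, 15]), (126, [1, 0, 16]), (105, [1, 0, 17]), (84, [1, 0, 18]), (63, [1, 0, 19]),
    (42, [1, 0, 20]), (21, [1, 0, 21]), (21, [1, 1, 0]), (42, [1, 1, 1]), (63, [1, 1, 2]),
    (84, [1, 1, 3]), (105, [1, 1, 4]), (126, [1, 1, 5]), (147, [1, 1, 6]), (168, [1, 1, 7]),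
    (189, [1, 1, 8]), (210, [1, 1, 9]), (231, [1, 1, 10]), (252, [1, 1, 11]), (273, [1, 1, 12]),
    (294, [1, 1, 13]), (315, [1, 1, 14]), (336, [1, 1, 15]), (357, [1, 1, 16]), (378, [1, 1, 17]),
    (399, [1, 1, 18]), (420, [1, 1, 19]), (441, [1, 1, 20]), (462, [1, 1, 21])],
  [(462, [0, 1, 0]), (441, [0, 1, 1]), (420, [0, 1, 2]), (399, [0, 1, 3]), (378, [0, 1, 4]),
    (357, [0, 1, 5]), (336, [0, 1, 6]), (315, [0, 1, 7]), (294, [0, 1, 8]), (273, [0, 1, 9]),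
    (252, [0, 1, 10]), (231, [0, 1, 11]), (210, [0, 1, 12]), (189, [0, 1, 13]), (168, [0, 1, 14]),
    (147, [0, 1, 15]), (126, [0, 1, 16]), (105, [0, 1, 17]), (84, [0, 1, 18]), (63, [0, 1, 19]),
    (42, [0, 1, 20]), (21, [0, 1, 21]), (21, [1, 1, 0]), (42, [1, 1, 1]), (63, [1, 1, 2]),
    (84, [1, 1, 3]), (105, [1, 1, 4]), (126, [1, 1, 5]), (147, [1, 1, 6]), (168, [1, 1, 7]),
    (189, [1, 1, 8]), (210, [1, 1, 9]), (231, [1, 1, 10]), (252, [1, 1, 11]), (273, [1, 1, 12]),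
    (294, [1, 1, 13]), (315, [1, 1, 14]), (336, [1, 1, 15]), (357, [1, 1, 16]), (378, [1, 1, 17]),
    (399, [1, 1, 18]), (420, [1, 1, 19]), (441, [1, 1, 20]), (462, [1, 1, 21])],
  [(462, [0, 0, 1]), (420, [0, 0, 2]), (380, [0, 0, 3]), (342, [0, 0, 4]), (306, [0, 0, 5]),
    (272, [0, 0, 6]), (240, [0, 0, 7]), (210, [0, 0, 8]), (182, [0, 0, 9]), (156, [0, 0, 10]),
    (132, [0, 0, 11]), (110, [0, 0, 12]), (90, [0, 0, 13]), (72, [0, 0, 14]), (56, [0, 0, 15]),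
    (42, [0, 0, 16]), (30, [0, 0, 17]), (20, [0, 0, 18]), (12, [0, 0, 19]), (6, [0, 0, 20]),
    (2, [0, 0, 21]), (21, [0, 1, 1]), (40, [0, 1, 2]), (57, [0, 1, 3]), (72, [0, 1, 4]),
    (85, [0, 1, 5]), (96, [0, 1, 6]), (105, [0, 1, 7]), (112, [0, 1, 8]), (117, [0, 1, 9]),
    (120, [0, 1, 10]), (121, [0, 1, 11]), (120, [0, 1, 12]), (117, [0, 1, 13]), (112, [0, 1, 14]),
    (105, [0, 1, 15]), (96, [0, 1, 16]), (85, [0, 1, 17]), (72, [0, 1, 18]), (57, [0, 1, 19]),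
    (40, [0, 1, 20]), (21, [0, 1, 21]), (21, [1, 0, 1]), (40, [1, 0, 2]), (57, [1, 0, 3]),
    (72, [1, 0, 4]), (85, [1, 0, 5]), (96, [1, 0, 6]), (105, [1, 0, 7]), (112, [1, 0, 8]),
    (117, [1, 0, 9]), (120, [1, 0, 10]), (121, [1, 0, 11]), (120, [1, 0, 12]), (117, [1, 0, 13]),
    (112, [1, 0, 14]), (105, [1, 0, 15]), (96, [1, 0, 16]), (85, [1, 0, 17]), (72, [1, 0, 18]),
    (57, [1, 0, 19]), (40, [1, 0, 20]), (21, [1, 0, 21]), (2, [1, 1, 1]), (6, [1, 1, 2]),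
    (12, [1, 1, 3]), (20, [1, 1, 4]), (30, [1, 1, 5]), (42, [1, 1, 6]), (56, [1, 1, 7]),
    (72, [1, 1, 8]), (90, [1, 1, 9]), (110, [1, 1, 10]), (132, [1, 1, 11]), (156, [1, 1, 12]),
    (182, [1, 1, 13]), (210, [1, 1, 14]), (240, [1, 1, 15]), (272, [1, 1, 16]), (306, [1, 1, 17]),
    (342, [1, 1, 18]), (380, [1, 1, 19]), (420, [1, 1, 20]), (462, [1, 1, 21])]]

theorem q4O : patOK [1, 1, 4] 60 q4 = true := patOK_of_patN _ _ _ (by decide +kernel)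

theorem q5O : patOK [1, 1, 5] 210 q5 = true := patOK_of_patN _ _ _ (by decide +kernel)

theorem q6O : patOK [1, 1, 6] 168 q6 = true := patOK_of_patN _ _ _ (by decide +kernel)

theorem q7O : patOK [1, 1, 7] 504 q7 = true := patOK_of_patN _ _ _ (by decide +kernel)

theorem q8O : patOK [1, 1, 8] 360 q8 = true := patOK_of_patN _ _ _ (by decide +kernel)

theorem q9O : patOK [1, 1, 9] 990 q9 = true := patOK_of_patN _ _ _ (by decide +kernel)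

theorem q10O : patOK [1, 1, 10] 660 q10 = true := patOK_of_patN _ _ _ (by decide +kernel)

theorem q11O : patOK [1, 1, 11] 1716 q11 = true := patOK_of_patN _ _ _ (by decide +kernel)

theorem q12O : patOK [1, 1, 12] 1092 q12 = true := patOK_of_patN _ _ _ (by decide +kernel)

theorem q13O : patOK [1, 1, 13] 2730 q13 = true := patOK_of_patN _ _ _ (by decide +kernel)

theorem q14O : patOK [1, 1, 14] 1680 q14 = true := patOK_of_patN _ _ _ (by decide +kernel)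

theorem q15O : patOK [1, 1, 15] 4080 q15 = true := patOK_of_patN _ _ _ (by decide +kernel)

theorem q16O : patOK [1, 1, 16] 2448 q16 = true := patOK_of_patN _ _ _ (by decide +kernel)

theorem q17O : patOK [1, 1, 17] 5814 q17 = true := patOK_of_patN _ _ _ (by decide +kernel)

theorem q18O : patOK [1, 1, 18] 3420 q18 = true := patOK_of_patN _ _ _ (by decide +kernel)

theorem q19O : patOK [1, 1, 19] 7980 q19 = true := patOK_of_patN _ _ _ (by decide +kernel)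

theorem q20O : patOK [1, 1, 20] 4620 q20 = true := patOK_of_patN _ _ _ (by decide +kernel)

theorem q21O : patOK [1, 1, 21] 10626 q21 = true := patOK_of_patN _ _ _ (by decide +kernel)

/-! ### the rows `(1; 3/10, (3/10)^n)` and `(1; 1, (3/10)^n)` -/

theorem r4O : ndsOK 60 [1, 1, 4] q4 3 10 [(152006, 152006, 13550427, 3038330)] 15 = true := by decide +kernel

theorem s4O : ndsOK 60 [1, 1, 4] q4 3 10 [(1000000, 172615, 17234912, 5443521)] 50 = true := by decide +kernel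

theorem r5O : ndsOK 210 [1, 1, 5] q5 3 10 [(162209, 162209, 14501084, 3716384)] 15 = true := by decide +kernel

theorem s5O : ndsOK 210 [1, 1, 5] q5 3 10 [(1000000, 179972, 18145791, 5958536)] 50 = true := by decide +kernel

theorem r6O : ndsOK 168 [1, 1, 6] q6 3 10 [(171016, 171016, 15485567, 4373234)] 15 = true := by decide +kernel

theorem s6O : ndsOK 168 [1, 1, 6] q6 3 10 [(1000000, 186448, 19088199, 6464853)] 50 = true := by decide +kernel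

theorem r7O : ndsOK 504 [1, 1, 7] q7 3 10 [(178682, 178682, 16495089, 5004777)] 15 = true := by decide +kernel

theorem s7O : ndsOK 504 [1, 1, 7] q7 3 10 [(1000000, 192196, 20055635, 6959251)] 50 = true := by decide +kernel

theorem r8O : ndsOK 360 [1, 1, 8] q8 3 10 [(185409, 185409, 17523484, 5609569)] 15 = true := by decide +kernel

theorem s8O : ndsOK 360 [1, 1, 8] q8 3 10 [(1000000, 197332, 21043203, 7439926)] 50 = true := by decide +kernel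

theorem r9O : ndsOK 990 [1, 1, 9] q9 3 10 [(191357, 191357, 18566353, 6187659)] 15 = true := by decide +kernel

theorem s9O : ndsOK 990 [1, 1, 9] q9 3 10 [(1000000, 201950, 22047163, 7905989)] 50 = true := by decide +kernel

theorem r10O : ndsOK 660 [1, 1, 10] q10 3 10 [(196653, 196653, 19620479, 6739888)] 15 = true := by decide +kernel

theorem s10O : ndsOK 660 [1, 1, 10] q10 3 10 [(1000000, 206127, 23064560, 8357122)] 50 = true := by decide +kernel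

theorem r11O : ndsOK 1716 [1, 1, 11] q11 3 10 [(201400, 201400, 20683512, 7267518)] 15 = true := by decide +kernel

theorem s11O : ndsOK 1716 [1, 1, 11] q11 3 10 [(1000000, 209923, 24093147, 8793424)] 50 = true := by decide +kernel

theorem r12O : ndsOK 1092 [1, 1, 12] q12 3 10 [(205679, 205679, 21753625, 7771954)] 15 = true := by decide +kernel

theorem s12O : ndsOK 1092 [1, 1, 12] q12 3 10 [(1000000, 213389, 25131093, 9215208)] 50 = true := by decide +kernel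

theorem r13O : ndsOK 2730 [1, 1, 13] q13 3 10 [(209558, 209558, 22829511, 8254690)] 15 = true := by decide +kernel

theorem s13O : ndsOK 2730 [1, 1, 13] q13 3 10 [(1000000, 216567, 26176939, 9622938)] 50 = true := by decide +kernel

theorem r14O : ndsOK 1680 [1, 1, 14] q14 3 10 [(213091, 213091, 23910073, 8717148)] 15 = true := by decide +kernel

theorem s14O : ndsOK 1680 [1, 1, 14] q14 3 10 [(1000000, 219493, 27229471, 10017148)] 50 = true := by decide +kernel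

theorem r15O : ndsOK 4080 [1, 1, 15] q15 3 10 [(216324, 216324, 24994527, 9160718)] 15 = true := by decide +kernel

theorem s15O : ndsOK 4080 [1, 1, 15] q15 3 10 [(1000000, 222196, 28287769, 10398445)] 50 = true := by decide +kernel

theorem r16O : ndsOK 2448 [1, 1, 16] q16 3 10 [(219294, 219294, 26082177, 9586672)] 15 = true := by decide +kernel

theorem s16O : ndsOK 2448 [1, 1, 16] q16 3 10 [(1000000, 224701, 29351017, 10767422)] 50 = true := by decide +kernel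

theorem r17O : ndsOK 5814 [1, 1, 17] q17 3 10 [(222033, 222033, 27172522, 9996212)] 15 = true := by decide +kernel

theorem s17O : ndsOK 5814 [1, 1, 17] q17 3 10 [(1000000, 227029, 30418532, 11124670)] 50 = true := by decide +kernel

theorem r18O : ndsOK 3420 [1, 1, 18] q18 3 10 [(224568, 224568, 28265161, 10390449)] 15 = true := by decide +kernel

theorem s18O : ndsOK 3420 [1, 1, 18] q18 3 10 [(1000000, 229200, 31489788, 11470783)] 50 = true := by decide +kernel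

theorem r19O : ndsOK 7980 [1, 1, 19] q19 3 10 [(226922, 226922, 29359744, 10770394)] 15 = true := by decide +kernel

theorem s19O : ndsOK 7980 [1, 1, 19] q19 3 10 [(1000000, 231229, 32564321, 11806322)] 50 = true := by decide +kernel

theorem r20O : ndsOK 4620 [1, 1, 20] q20 3 10 [(229113, 229113, 30455956, 11136965)] 15 = true := by decide +kernel

theorem s20O : ndsOK 4620 [1, 1, 20] q20 3 10 [(1000000, 233130, 33641732, 12131823)] 50 = true := by decide +kernel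

theorem r21O : ndsOK 10626 [1, 1, 21] q21 3 10 [(231160, 231160, 31553588, 11491023)] 15 = true := by decide +kernel

theorem s21O : ndsOK 10626 [1, 1, 21] q21 3 10 [(1000000, 234916, 34721675, 12447791)] 50 = true := by decide +kernel

/-- values over `10^7` at `h = 3/10`, `4 ≤ n ≤ 21` -/
def v0 (n : ℕ) : ℕ := List.getD
  [3038330, 3716384, 4373234, 5004777, 5609569, 6187659, 6739888, 7267518, 7771954, 8254690,
    8717148, 9160718, 9586672, 9996212, 10390449, 10770394, 11136965, 11491023] (n - 4) 0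

/-- values over `10^7` at `h = 1`, `4 ≤ n ≤ 21` -/
def v1 (n : ℕ) : ℕ := List.getD
  [5443521, 5958536, 6464853, 6959251, 7439926, 7905989, 8357122, 8793424, 9215208, 9622938,
    10017148, 10398445, 10767422, 11124670, 11470783, 11806322, 12131823, 12447791] (n - 4) 0

/-- lines below the table -/
def ln : List (ℕ × ℕ) :=
  [(3711098, 258922), (4416676, 247790), (5096178, 237590), (5749940, 228220), (6378810, 219586),
    (6983888, 211607), (7566382, 204212), (8127560, 197338), (8668655, 190931), (9190842, 184946),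
    (9695247, 179341), (10182941, 174080), (10656490, 169132), (11123461, 164469),
    (11575302, 160068), (12012950, 155906), (12437260, 151963)]

variable {κ : Type} [Fintype κ] [DecidableEq κ]

theorem F_v0 (n : ℕ) (hn : 4 ≤ n) (hn' : n ≤ 21) (b : κ → ℝ) (i j : κ) (hij : i ≠ j)
    (hi : b i = 1) (hj0 : 0 ≤ b j) (hj : b j ≤ 3 / 10) (U : Finset κ)
    (hU : Disjoint ({i, j} : Finset κ) U) (hc : U.card = n) :
    F (hub b {i, j} U (3 / 10)) ≤ (v0 n : ℝ) / 10000000 := by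
  have hj' : b j ≤ ((15 + 0 : ℕ) : ℝ) / 50 := by norm_num; linarith
  interval_cases n
  · simpa [v0] using nds_sound 4 _ q4 3 10 (by norm_num) _ 15 q4O r4O b i j hij hi hj0 U hU hc 0 (by simp) hj'
  · simpa [v0] using nds_sound 5 _ q5 3 10 (by norm_num) _ 15 q5O r5O b i j hij hi hj0 U hU hc 0 (by simp) hj'
  · simpa [v0] using nds_sound 6 _ q6 3 10 (by norm_num) _ 15 q6O r6O b i j hij hi hj0 U hU hc 0 (by simp) hj'
  · simpa [v0] using nds_sound 7 _ q7 3 10 (by norm_num) _ 15 q7O r7O b i j hij hi hj0 U hU hc 0 (by simp) hj'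
  · simpa [v0] using nds_sound 8 _ q8 3 10 (by norm_num) _ 15 q8O r8O b i j hij hi hj0 U hU hc 0 (by simp) hj'
  · simpa [v0] using nds_sound 9 _ q9 3 10 (by norm_num) _ 15 q9O r9O b i j hij hi hj0 U hU hc 0 (by simp) hj'
  · simpa [v0] using nds_sound 10 _ q10 3 10 (by norm_num) _ 15 q10O r10O b i j hij hi hj0 U hU hc 0 (by simp) hj'
  · simpa [v0] using nds_sound 11 _ q11 3 10 (by norm_num) _ 15 q11O r11O b i j hij hi hj0 U hU hc 0 (by simp) hj'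
  · simpa [v0] using nds_sound 12 _ q12 3 10 (by norm_num) _ 15 q12O r12O b i j hij hi hj0 U hU hc 0 (by simp) hj'
  · simpa [v0] using nds_sound 13 _ q13 3 10 (by norm_num) _ 15 q13O r13O b i j hij hi hj0 U hU hc 0 (by simp) hj'
  · simpa [v0] using nds_sound 14 _ q14 3 10 (by norm_num) _ 15 q14O r14O b i j hij hi hj0 U hU hc 0 (by simp) hj'
  · simpa [v0] using nds_sound 15 _ q15 3 10 (by norm_num) _ 15 q15O r15O b i j hij hi hj0 U hU hc 0 (by simp) hj'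
  · simpa [v0] using nds_sound 16 _ q16 3 10 (by norm_num) _ 15 q16O r16O b i j hij hi hj0 U hU hc 0 (by simp) hj'
  · simpa [v0] using nds_sound 17 _ q17 3 10 (by norm_num) _ 15 q17O r17O b i j hij hi hj0 U hU hc 0 (by simp) hj'
  · simpa [v0] using nds_sound 18 _ q18 3 10 (by norm_num) _ 15 q18O r18O b i j hij hi hj0 U hU hc 0 (by simp) hj'
  · simpa [v0] using nds_sound 19 _ q19 3 10 (by norm_num) _ 15 q19O r19O b i j hij hi hj0 U hU hc 0 (by simp) hj'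
  · simpa [v0] using nds_sound 20 _ q20 3 10 (by norm_num) _ 15 q20O r20O b i j hij hi hj0 U hU hc 0 (by simp) hj'
  · simpa [v0] using nds_sound 21 _ q21 3 10 (by norm_num) _ 15 q21O r21O b i j hij hi hj0 U hU hc 0 (by simp) hj'

theorem F_v1 (n : ℕ) (hn : 4 ≤ n) (hn' : n ≤ 21) (b : κ → ℝ) (i j : κ) (hij : i ≠ j)
    (hi : b i = 1) (hj0 : 0 ≤ b j) (hj : b j ≤ 1) (U : Finset κ)
    (hU : Disjoint ({i, j} : Finset κ) U) (hc : U.card = n) :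
    F (hub b {i, j} U (3 / 10)) ≤ (v1 n : ℝ) / 10000000 := by
  have hj' : b j ≤ ((50 + 0 : ℕ) : ℝ) / 50 := by norm_num; linarith
  interval_cases n
  · simpa [v1] using nds_sound 4 _ q4 3 10 (by norm_num) _ 50 q4O s4O b i j hij hi hj0 U hU hc 0 (by simp) hj'
  · simpa [v1] using nds_sound 5 _ q5 3 10 (by norm_num) _ 50 q5O s5O b i j hij hi hj0 U hU hc 0 (by simp) hj'
  · simpa [v1] using nds_sound 6 _ q6 3 10 (by norm_num) _ 50 q6O s6O b i j hij hi hj0 U hU hc 0 (by simp) hj'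
  · simpa [v1] using nds_sound 7 _ q7 3 10 (by norm_num) _ 50 q7O s7O b i j hij hi hj0 U hU hc 0 (by simp) hj'
  · simpa [v1] using nds_sound 8 _ q8 3 10 (by norm_num) _ 50 q8O s8O b i j hij hi hj0 U hU hc 0 (by simp) hj'
  · simpa [v1] using nds_sound 9 _ q9 3 10 (by norm_num) _ 50 q9O s9O b i j hij hi hj0 U hU hc 0 (by simp) hj'
  · simpa [v1] using nds_sound 10 _ q10 3 10 (by norm_num) _ 50 q10O s10O b i j hij hi hj0 U hU hc 0 (by simp) hj'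
  · simpa [v1] using nds_sound 11 _ q11 3 10 (by norm_num) _ 50 q11O s11O b i j hij hi hj0 U hU hc 0 (by simp) hj'
  · simpa [v1] using nds_sound 12 _ q12 3 10 (by norm_num) _ 50 q12O s12O b i j hij hi hj0 U hU hc 0 (by simp) hj'
  · simpa [v1] using nds_sound 13 _ q13 3 10 (by norm_num) _ 50 q13O s13O b i j hij hi hj0 U hU hc 0 (by simp) hj'
  · simpa [v1] using nds_sound 14 _ q14 3 10 (by norm_num) _ 50 q14O s14O b i j hij hi hj0 U hU hc 0 (by simp) hj'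
  · simpa [v1] using nds_sound 15 _ q15 3 10 (by norm_num) _ 50 q15O s15O b i j hij hi hj0 U hU hc 0 (by simp) hj'
  · simpa [v1] using nds_sound 16 _ q16 3 10 (by norm_num) _ 50 q16O s16O b i j hij hi hj0 U hU hc 0 (by simp) hj'
  · simpa [v1] using nds_sound 17 _ q17 3 10 (by norm_num) _ 50 q17O s17O b i j hij hi hj0 U hU hc 0 (by simp) hj'
  · simpa [v1] using nds_sound 18 _ q18 3 10 (by norm_num) _ 50 q18O s18O b i j hij hi hj0 U hU hc 0 (by simp) hj'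
  · simpa [v1] using nds_sound 19 _ q19 3 10 (by norm_num) _ 50 q19O s19O b i j hij hi hj0 U hU hc 0 (by simp) hj'
  · simpa [v1] using nds_sound 20 _ q20 3 10 (by norm_num) _ 50 q20O s20O b i j hij hi hj0 U hU hc 0 (by simp) hj'
  · simpa [v1] using nds_sound 21 _ q21 3 10 (by norm_num) _ 50 q21O s21O b i j hij hi hj0 U hU hc 0 (by simp) hj'

/-- interpolation in `h` -/
theorem F_v (n : ℕ) (hn : 4 ≤ n) (hn' : n ≤ 21) (b : κ → ℝ) (i j : κ) (hij : i ≠ j) (hi : b i = 1)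
    (h1 : 3 / 10 ≤ b j) (h2 : b j ≤ 1) (U : Finset κ)
    (hU : Disjoint ({i, j} : Finset κ) U) (hc : U.card = n) :
    F (hub b {i, j} U (3 / 10)) ≤ ((1 - (b j - 3 / 10) / (7 / 10)) * v0 n
      + (b j - 3 / 10) / (7 / 10) * v1 n) / 10000000 := by
  set B := hub b {i, j} U (3 / 10) with hB
  have hBi : B i = 1 := by rw [hB]; unfold hub; rw [if_pos (by simp), hi]
  have hB0 : ∀ c, 0 ≤ B c := by
    intro c
    rw [hB]; unfold hub
    split_ifs with h3 h4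
    · rcases Finset.mem_insert.mp h3 with h5 | h5
      · rw [h5, hi]; exact zero_le_one
      · rw [Finset.mem_singleton.mp h5]; exact le_trans (by positivity) h1
    · norm_num
    · exact le_rfl
  have hB1 : ∀ c, B c ≤ 1 := by
    intro c
    rw [hB]; unfold hub
    split_ifs with h3 h4
    · rcases Finset.mem_insert.mp h3 with h5 | h5
      · rw [h5, hi]
      · rw [Finset.mem_singleton.mp h5]; linarith
    · norm_num
    · exact zero_le_one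
  have hcv := F_convexOn B hB0 hB1 i j hij hBi
  have hupd : ∀ x, Function.update B j x = hub (Function.update b j x) {i, j} U (3 / 10) := by
    intro x
    funext c
    by_cases hcj : c = j
    · subst hcj
      rw [Function.update_self]
      unfold hub
      rw [if_pos (by simp), Function.update_self]
    · rw [Function.update_of_ne hcj, hB]
      unfold hub
      rw [Function.update_of_ne hcj]
  have hv0 : F (Function.update B j (3 / 10)) ≤ (v0 n : ℝ) / 10000000 := by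
    rw [hupd]
    refine F_v0 n hn hn' _ i j hij ?_ ?_ ?_ U hU hc
    · rw [Function.update_of_ne hij, hi]
    · rw [Function.update_self]; norm_num
    · rw [Function.update_self]
  have hv1 : F (Function.update B j 1) ≤ (v1 n : ℝ) / 10000000 := by
    rw [hupd]
    refine F_v1 n hn hn' _ i j hij ?_ ?_ ?_ U hU hc
    · rw [Function.update_of_ne hij, hi]
    · rw [Function.update_self]; norm_num
    · rw [Function.update_self]
  set u : ℝ := (b j - 3 / 10) / (7 / 10) with hu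
  have hu0 : 0 ≤ u := div_nonneg (by linarith) (by norm_num)
  have hu1 : u ≤ 1 := by rw [hu, div_le_one (by norm_num)]; linarith
  have hch := hcv.2 (show (3 / 10 : ℝ) ∈ Set.Icc (0 : ℝ) 1 from ⟨by norm_num, by norm_num⟩)
    (show (1 : ℝ) ∈ Set.Icc (0 : ℝ) 1 from ⟨by norm_num, by norm_num⟩)
    (show 0 ≤ 1 - u by linarith) hu0 (by ring)
  simp only [smul_eq_mul] at hch
  have e1 : (1 - u) * (3 / 10) + u * 1 = b j := by
    rw [hu]; ring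
  have e2 : Function.update B j (b j) = B := by
    rw [hupd, Function.update_eq_self]
  rw [e1, e2] at hch
  have w1 := mul_le_mul_of_nonneg_left hv0 (show 0 ≤ 1 - u by linarith)
  have w2 := mul_le_mul_of_nonneg_left hv1 hu0
  have e3 : ((1 - u) * v0 n + u * v1 n) / 10000000
      = (1 - u) * ((v0 n : ℝ) / 10000000) + u * ((v1 n : ℝ) / 10000000) := by ring
  rw [e3]
  linarith

/-- the bound of the row function on one cell -/
theorem F_le_bil (n : ℕ) (hn : 4 ≤ n) (hn' : n ≤ 20) (b : κ → ℝ) (hb0 : ∀ c, 0 ≤ b c) (hb1 : ∀ c, b c ≤ 1)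
    (i j : κ) (hij : i ≠ j) (hi : b i = 1) (h1 : 3 / 10 ≤ b j) (hm : ∀ c, c ≠ i → c ≠ j → b c ≤ 3 / 10)
    (hn1 : (n : ℝ) * (3 / 10) ≤ ∑ c ∈ ({i, j} : Finset κ)ᶜ, b c)
    (hn2 : ∑ c ∈ ({i, j} : Finset κ)ᶜ, b c ≤ ((n : ℝ) + 1) * (3 / 10)) :
    F b ≤ bil (v0 n) (v0 (n + 1)) (v1 n) (v1 (n + 1)) ((b j - 3 / 10) / (7 / 10))
      ((∑ c ∈ ({i, j} : Finset κ)ᶜ, b c) / (3 / 10) - n) / 10000000 := by
  set L : ℕ → ℝ := fun q => if 4 ≤ q ∧ q ≤ 21 then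
    ((1 - (b j - 3 / 10) / (7 / 10)) * v0 q + (b j - 3 / 10) / (7 / 10) * v1 q) / 10000000
      else Lone (q + 1) with hL
  have h := F_le_chord b hb0 hb1 i hi {i, j} (by simp) (3 / 10) (by norm_num) (by norm_num) (fun c hc => by
      rw [Finset.mem_insert, not_or, Finset.mem_singleton] at hc
      exact hm c hc.1 hc.2) L (fun U hU => by
      rw [hL]
      simp only
      split_ifs with h5
      · exact F_v U.card h5.1 h5.2 b i j hij hi h1 (hb1 j) U hU rfl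
      · exact F_hub_ones (3 / 10) (by norm_num) (by norm_num) b i j hij hi (hb0 j) (hb1 j) U hU) n hn1 hn2
  rw [hL] at h
  simp only at h
  rw [if_pos ⟨by omega, by omega⟩, if_pos ⟨by omega, by omega⟩] at h
  refine h.trans (le_of_eq ?_)
  unfold bil
  ring

/-- the line is below `What` -/
theorem cline_le (i0 m P sl : ℕ) (h : lnOK sl m P (p7.drop i0) = true) (s : ℝ) (hs0 : 6 / 5 < s)
    (h1 : ((60 + 5 * i0 : ℕ) : ℝ) / 50 < s) (h2 : s ≤ ((60 + 5 * (i0 + m) : ℕ) : ℝ) / 50) :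
    (P + sl * ((50 * s - (60 + 5 * i0)) / 5)) / 10000000 ≤ What s := by
  push_cast at h1 h2
  set y : ℝ := (50 * s - (60 + 5 * i0)) / 5 with hy
  have hy0 : 0 < y := div_pos (by linarith) (by norm_num)
  have hym : y ≤ m := by rw [hy, div_le_iff₀ (by norm_num)]; linarith
  obtain ⟨x, hx, hs1, hs2⟩ : ∃ x < m, (x : ℝ) < y ∧ y ≤ (x : ℝ) + 1 := by
    have hc : 0 < ⌈y⌉₊ := Nat.ceil_pos.mpr hy0
    have hle : y ≤ (⌈y⌉₊ : ℝ) := Nat.le_ceil _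
    have hlt : (⌈y⌉₊ : ℝ) < y + 1 := Nat.ceil_lt_add_one hy0.le
    refine ⟨⌈y⌉₊ - 1, ?_, ?_, ?_⟩
    · have h3 : ⌈y⌉₊ ≤ m := Nat.ceil_le.mpr hym
      omega
    · push_cast [Nat.cast_sub (Nat.succ_le_of_lt hc)]
      linarith
    · push_cast [Nat.cast_sub (Nat.succ_le_of_lt hc)]
      linarith
  obtain ⟨hl, h3, h4⟩ := lnOK_sound sl m P _ h x hx
  rw [List.getElem_drop] at h3 h4
  have hl' : i0 + x < p7.length := by
    rw [List.length_drop] at hl; omega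
  have es : 50 * s = 5 * y + (60 + 5 * i0) := by rw [hy]; ring
  have hf := What_coarse (i0 + x) hl' s hs0 (by push_cast; linarith) (by push_cast; linarith)
  refine le_trans ?_ hf
  have h3R : (P : ℝ) + x * sl ≤ (p7[i0 + x].1 : ℝ) := by exact_mod_cast h3
  have h4R : (P : ℝ) + (x + 1) * sl ≤ (p7[i0 + x].2 : ℝ) := by exact_mod_cast h4
  unfold lin
  rw [es]
  push_cast
  have b1 := mul_le_mul_of_nonneg_left h3R (show 0 ≤ (x : ℝ) + 1 - y by linarith)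
  have b2 := mul_le_mul_of_nonneg_left h4R (show 0 ≤ y - (x : ℝ) by linarith)
  rw [div_le_div_iff₀ (by norm_num) (by norm_num)]
  nlinarith

/-- the check of a list of cells, from the index `n` on -/
noncomputable def zcOK (l : List (ℕ × ℕ)) : ℕ → Bool :=
  @List.rec (ℕ × ℕ) (fun _ => ℕ → Bool) (fun _ => true)
    (fun c _ ih n => cond (lnOK c.2 10 c.1 (p7.drop (3 * n - 9))) (cond (Nat.ble (v0 n) c.1)
      (cond (Nat.ble (v0 (Nat.succ n)) (c.1 + 3 * c.2)) (cond (Nat.ble (v1 n) (c.1 + 7 * c.2))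
        (cond (Nat.ble (v1 (Nat.succ n)) (c.1 + 10 * c.2)) (ih (Nat.succ n)) false) false) false) false) false) l

theorem zcOK_get (l : List (ℕ × ℕ)) (n : ℕ) (h : zcOK l n = true) (q : ℕ) (hq : q < l.length) :
    lnOK l[q].2 10 l[q].1 (p7.drop (3 * (n + q) - 9)) = true ∧ v0 (n + q) ≤ l[q].1 ∧
      v0 (n + q + 1) ≤ l[q].1 + 3 * l[q].2 ∧ v1 (n + q) ≤ l[q].1 + 7 * l[q].2 ∧
      v1 (n + q + 1) ≤ l[q].1 + 10 * l[q].2 := by
  induction l generalizing n q with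
  | nil => simp at hq
  | cons c l ih =>
    obtain ⟨h1, h2⟩ := IA.cond_and (show cond (lnOK c.2 10 c.1 (p7.drop (3 * n - 9))) (cond (Nat.ble (v0 n) c.1)
      (cond (Nat.ble (v0 (Nat.succ n)) (c.1 + 3 * c.2)) (cond (Nat.ble (v1 n) (c.1 + 7 * c.2))
        (cond (Nat.ble (v1 (Nat.succ n)) (c.1 + 10 * c.2)) (zcOK l (Nat.succ n)) false) false) false) false)
          false = true from h)
    obtain ⟨h3, h2⟩ := IA.cond_and h2
    obtain ⟨h4, h2⟩ := IA.cond_and h2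
    obtain ⟨h5, h2⟩ := IA.cond_and h2
    obtain ⟨h6, h2⟩ := IA.cond_and h2
    rw [Nat.ble_eq] at h3 h4 h5 h6
    cases q with
    | zero => exact ⟨h1, h3, h4, h5, h6⟩
    | succ q =>
      have h7 := ih (n + 1) h2 q (by simpa using hq)
      have e : n + (q + 1) = n + 1 + q := by ring
      rw [e]
      exact h7

theorem zcO : zcOK ln 4 = true := by decide +kernel

theorem ln_len : ln.length = 17 := by decide +kernel

/-- the sum of the others is the sum of the second entry and the rest -/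
theorem sum_split (b : κ → ℝ) (i j : κ) (hij : i ≠ j) :
    ∑ c ∈ univ.erase i, b c = b j + ∑ c ∈ ({i, j} : Finset κ)ᶜ, b c := by
  have hj : j ∈ univ.erase i := Finset.mem_erase.mpr ⟨hij.symm, Finset.mem_univ _⟩
  rw [← Finset.add_sum_erase _ _ hj]
  congr 1
  refine Finset.sum_congr ?_ fun _ _ => rfl
  ext c
  simp only [Finset.mem_erase, Finset.mem_univ, and_true, Finset.mem_compl, Finset.mem_insert,
    Finset.mem_singleton, not_or]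
  exact ⟨fun h => ⟨h.2, h.1⟩, fun h => ⟨h.2, h.1⟩⟩

/-- THE COARSE REGION. -/
theorem F_le_What_coarse (b : κ → ℝ) (hb0 : ∀ c, 0 ≤ b c) (hb1 : ∀ c, b c ≤ 1)
    (i j : κ) (hij : i ≠ j) (hi : b i = 1) (h1 : 3 / 10 < b j) (hm : ∀ c, c ≠ i → c ≠ j → b c ≤ 3 / 10)
    (hS : 6 / 5 ≤ ∑ c ∈ ({i, j} : Finset κ)ᶜ, b c) :
    F b ≤ What (b j + ∑ c ∈ ({i, j} : Finset κ)ᶜ, b c) := by
  rcases le_or_gt (31 / 5) (b j + ∑ c ∈ ({i, j} : Finset κ)ᶜ, b c) with ht | ht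
  · have := F_tail b hb0 hb1 i hi (by rw [sum_split b i j hij]; exact ht)
    rw [sum_split b i j hij] at this
    exact this.trans ((LL.wh_tail _ ht).trans (What_six _ (by linarith)))
  set S := ∑ c ∈ ({i, j} : Finset κ)ᶜ, b c with hSd
  -- the cell
  obtain ⟨n, hn4, hn20, hn1, hn2⟩ : ∃ n : ℕ, 4 ≤ n ∧ n ≤ 20 ∧ (n : ℝ) * (3 / 10) ≤ S ∧
      S ≤ ((n : ℝ) + 1) * (3 / 10) := by
    have hS0 : 0 ≤ S / (3 / 10) := div_nonneg (by linarith) (by norm_num)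
    have h3 := Nat.floor_le hS0
    have h4 := Nat.lt_floor_add_one (S / (3 / 10))
    rw [le_div_iff₀ (by norm_num)] at h3
    rw [div_lt_iff₀ (by norm_num)] at h4
    refine ⟨⌊S / (3 / 10)⌋₊, ?_, ?_, h3, h4.le⟩
    · refine Nat.le_floor ?_
      rw [le_div_iff₀ (by norm_num)]
      push_cast
      linarith
    · have h5 : ((⌊S / (3 / 10)⌋₊ : ℕ) : ℝ) * (3 / 10) < 6 := by linarith
      have h6 : ((⌊S / (3 / 10)⌋₊ : ℕ) : ℝ) < 21 := by linarith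
      have h7 : ⌊S / (3 / 10)⌋₊ < 21 := by exact_mod_cast h6
      omega
  have hF := F_le_bil n hn4 hn20 b hb0 hb1 i j hij hi h1.le hm hn1 hn2
  rw [← hSd] at hF
  have hq : n - 4 < ln.length := by rw [ln_len]; omega
  obtain ⟨g1, g2, g3, g4, g5⟩ := zcOK_get ln 4 zcO (n - 4) hq
  have e4 : 4 + (n - 4) = n := by omega
  rw [e4] at g1 g2 g3 g4 g5
  generalize ln[n - 4].1 = P at g1 g2 g3 g4 g5
  generalize ln[n - 4].2 = sl at g1 g2 g3 g4 g5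
  have hi0 : ((3 * n - 9 : ℕ) : ℝ) = 3 * n - 9 := by
    push_cast [Nat.cast_sub (show 9 ≤ 3 * n by omega)]
    ring
  have hW := cline_le (3 * n - 9) 10 P sl g1 (b j + S) (by linarith)
    (by push_cast; rw [hi0]; linarith) (by push_cast; rw [hi0]; linarith [hb1 j])
  rw [hi0] at hW
  refine hF.trans (le_trans ?_ hW)
  set u : ℝ := (b j - 3 / 10) / (7 / 10) with hu
  set v : ℝ := S / (3 / 10) - n with hv
  have hu0 : 0 ≤ u := div_nonneg (by linarith) (by norm_num)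
  have hu1 : u ≤ 1 := by rw [hu, div_le_one (by norm_num)]; linarith [hb1 j]
  have hv0 : 0 ≤ v := by
    rw [hv, sub_nonneg, le_div_iff₀ (by norm_num)]; exact hn1
  have hv1 : v ≤ 1 := by
    rw [hv, sub_le_iff_le_add, div_le_iff₀ (by norm_num)]; linarith
  have ebj : b j = 3 / 10 + 7 / 10 * u := by rw [hu]; ring
  have eS : S = 3 / 10 * (n + v) := by rw [hv]; ring
  refine div_le_div_of_nonneg_right ?_ (by norm_num)
  have g2R : (v0 n : ℝ) - P ≤ 0 := by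
    have : (v0 n : ℝ) ≤ P := by exact_mod_cast g2
    linarith
  have g3R : (v0 (n + 1) : ℝ) - (P + 3 * sl) ≤ 0 := by
    have : (v0 (n + 1) : ℝ) ≤ P + 3 * sl := by exact_mod_cast g3
    linarith
  have g4R : (v1 n : ℝ) - (P + 7 * sl) ≤ 0 := by
    have : (v1 n : ℝ) ≤ P + 7 * sl := by exact_mod_cast g4
    linarith
  have g5R : (v1 (n + 1) : ℝ) - (P + 10 * sl) ≤ 0 := by
    have : (v1 (n + 1) : ℝ) ≤ P + 10 * sl := by exact_mod_cast g5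
    linarith
  have := bil_nonpos _ _ _ _ u v hu0 hu1 hv0 hv1 g2R g3R g4R g5R
  rw [bil_sub] at this
  have e5 : bil (P : ℝ) (P + 3 * sl) (P + 7 * sl) (P + 10 * sl) u v
      = P + sl * ((50 * (b j + S) - (60 + 5 * (3 * (n : ℝ) - 9))) / 5) := by
    rw [ebj, eS]
    unfold bil
    ring
  rw [← e5]
  linarith

end ZC
end Fr
end Pool.Agent.Lib.MP_6947cd_al
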