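import Pool.Agent.Lib.MP_6947cd_al.L.WConc
import Pool.Agent.Lib.MP_6947cd_al.L.TabZ0
import Pool.Agent.Lib.MP_6947cd_al.L.ZoneC

/-!
Problem MP_6947cd_al (Chollet).  NODES: if the row function is at most the CONCAVE bound `Wc` at the nodes
(concentrated rows), then it is at most `Wc` everywhere between the nodes, since it is convex in every entry.
-/

set_option autoImplicit false
open Finset

namespace Pool.Agent.Lib.MP_6947cd_al
namespace Fr
namespace NW

open Ent Ent.Pk WT TZ IA.F

/-- the row `(1, S)` is below the concave bound -/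
def P (S : Multiset ℝ) : Prop := FM (1 ::ₘ S) ≤ Wc S.sum

theorem P_zero (S : Multiset ℝ) (h : P S) : P (0 ::ₘ S) := by
  unfold P at *
  rw [Multiset.cons_swap, FM_zero_cons, Multiset.sum_cons, zero_add]
  exact h

theorem P_zero' (S : Multiset ℝ) (h : P (0 ::ₘ S)) : P S := by
  unfold P at *
  rw [Multiset.cons_swap, FM_zero_cons, Multiset.sum_cons, zero_add] at h
  exact h

/-- CONVEXITY in one entry -/
theorem cvxS (S : Multiset ℝ) (hS : ∀ z ∈ S, 0 ≤ z ∧ z ≤ 1) (a b x : ℝ) (ha0 : 0 ≤ a) (hb1 : b ≤ 1)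
    (h1 : a ≤ x) (h2 : x ≤ b) (ha : P (a ::ₘ S)) (hb : P (b ::ₘ S)) : P (x ::ₘ S) := by
  rcases eq_or_lt_of_le (h1.trans h2) with hab | hab
  · have : x = a := le_antisymm (by linarith) h1
    rw [this]; exact ha
  unfold P at *
  rw [Multiset.cons_swap, Multiset.sum_cons] at ha hb ⊢
  have hpos : 0 < b - a := by linarith
  set θ : ℝ := (x - a) / (b - a) with hθ
  have hθ0 : 0 ≤ θ := div_nonneg (by linarith) hpos.le
  have hθ1 : θ ≤ 1 := (div_le_one hpos).mpr (by linarith)
  have hx : (1 - θ) * a + θ * b = x := by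
    have : θ * (b - a) = x - a := by rw [hθ, div_mul_cancel₀ _ hpos.ne']
    linarith
  have hcv := FM_convexOn (1 ::ₘ S) (Multiset.mem_cons_self _ _) (by
    intro z hz
    rcases Multiset.mem_cons.mp hz with rfl | hz
    · exact ⟨zero_le_one, le_rfl⟩
    · exact hS z hz)
  have c1 := hcv.2 (show a ∈ Set.Icc (0 : ℝ) 1 from ⟨ha0, by linarith⟩)
    (show b ∈ Set.Icc (0 : ℝ) 1 from ⟨by linarith, hb1⟩) (show 0 ≤ 1 - θ by linarith) hθ0 (by ring)
  have c2 := Wc_concave.2 (Set.mem_univ (a + S.sum)) (Set.mem_univ (b + S.sum)) (show 0 ≤ 1 - θ by linarith) hθ0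
    (by ring)
  simp only [smul_eq_mul] at c1 c2
  rw [hx] at c1
  have e : (1 - θ) * (a + S.sum) + θ * (b + S.sum) = x + S.sum := by rw [← hx]; ring
  rw [e] at c2
  have v1 := mul_le_mul_of_nonneg_left ha (show 0 ≤ 1 - θ by linarith)
  have v2 := mul_le_mul_of_nonneg_left hb hθ0
  linarith

/-- THE STEP between the nodes `z` and `z + d`. -/
theorem step (S M : Multiset ℝ) (hS : ∀ z ∈ S, 0 ≤ z ∧ z ≤ 1) (w : ℕ) (hw : 0 < w) (hw' : w ≤ 40)
    (hM : ∀ z ∈ M, 0 ≤ z ∧ z ≤ (w : ℝ) / 40) (z d : ℕ) (hd : 0 < d) (hr : z % w + d ≤ w)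
    (h1 : (z : ℝ) / 40 ≤ M.sum) (h2 : M.sum ≤ ((z : ℝ) + d) / 40)
    (n1 : P (S + nd w z)) (n2 : P (S + nd w (z + d))) : P (S + M) := by
  set q := z / w with hq
  set r := z % w with hrr
  have hz : w * q + r = z := Nat.div_add_mod z w
  have hzR : (w : ℝ) * q + r = z := by exact_mod_cast hz
  have hwR : (0 : ℝ) < w := by exact_mod_cast hw
  have hwR' : (w : ℝ) ≤ 40 := by exact_mod_cast hw'
  have hrR : (r : ℝ) + d ≤ w := by exact_mod_cast hr
  have hdR : (0 : ℝ) < d := by exact_mod_cast hd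
  have hr0 : (0 : ℝ) ≤ r := Nat.cast_nonneg r
  have hc := conc (1 ::ₘ S) M (Multiset.mem_cons_self _ _) (by
    intro x hx
    rcases Multiset.mem_cons.mp hx with rfl | hx
    · exact ⟨zero_le_one, le_rfl⟩
    · exact hS x hx) ((w : ℝ) / 40) (by positivity) (by linarith) hM q (by linarith) (by linarith)
  set ρ := M.sum - q * ((w : ℝ) / 40) with hρ
  have hmem : ∀ x ∈ S + Multiset.replicate q ((w : ℝ) / 40), 0 ≤ x ∧ x ≤ 1 := by
    intro x hx
    rcases Multiset.mem_add.mp hx with hx | hx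
    · exact hS x hx
    · rw [Multiset.eq_of_mem_replicate hx]
      exact ⟨by positivity, by linarith⟩
  have e2 : ∀ x : ℝ, S + (x ::ₘ Multiset.replicate q ((w : ℝ) / 40))
      = x ::ₘ (S + Multiset.replicate q ((w : ℝ) / 40)) := fun x => by rw [Multiset.add_cons]
  have k1 : P ((r : ℝ) / 40 ::ₘ (S + Multiset.replicate q ((w : ℝ) / 40))) := by
    rw [← e2]; exact n1
  have k2 : P (((r : ℝ) + d) / 40 ::ₘ (S + Multiset.replicate q ((w : ℝ) / 40))) := by
    rcases Nat.lt_or_ge (r + d) w with h | h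
    · have a1 : (z + d) / w = q := by
        rw [Nat.div_eq_iff hw]
        rw [← hz]
        constructor
        · rw [mul_comm]; omega
        · rw [mul_comm]; omega
      have a2 : (z + d) % w = r + d := by
        have := Nat.div_add_mod (z + d) w
        rw [a1] at this
        omega
      have e3 : nd w (z + d) = (((r : ℝ) + d) / 40) ::ₘ Multiset.replicate q ((w : ℝ) / 40) := by
        unfold nd
        rw [a1, a2]
        push_cast
        rfl
      rw [e3, e2] at n2
      exact n2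
    · have hrw' : r + d = w := by omega
      have hz' : z + d = w * (q + 1) := by rw [mul_add, mul_one, ← hz]; omega
      have a1 : (z + d) / w = q + 1 := by rw [hz', Nat.mul_div_cancel_left _ hw]
      have a2 : (z + d) % w = 0 := by rw [hz', Nat.mul_mod_right]
      have e3 : nd w (z + d) = 0 ::ₘ Multiset.replicate (q + 1) ((w : ℝ) / 40) := by
        unfold nd
        rw [a1, a2, Nat.cast_zero, zero_div]
      rw [e3, Multiset.add_cons] at n2
      have n3 := P_zero' _ n2
      rw [Multiset.replicate_succ, Multiset.add_cons] at n3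
      have e4 : ((r : ℝ) + d) / 40 = (w : ℝ) / 40 := by
        rw [← hrw']; push_cast; ring
      rw [e4]
      exact n3
  have k3 := cvxS _ hmem ((r : ℝ) / 40) (((r : ℝ) + d) / 40) ρ (by positivity) (by linarith)
    (by rw [hρ]; linarith) (by rw [hρ]; linarith) k1 k2
  unfold P at k3 ⊢
  rw [Multiset.cons_add, Multiset.cons_add] at hc
  refine (le_trans (le_of_eq ?_) (hc.trans (le_of_eq ?_))).trans (k3.trans (le_of_eq ?_))
  · rfl
  · rw [e2]
  · rw [Multiset.sum_cons, Multiset.sum_add, Multiset.sum_add, Multiset.sum_replicate, nsmul_eq_mul, hρ]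
    congr 1
    ring

/-! ### the check of nodes -/

/-- the check of `cnt` nodes `z, z + d, ..`; `T = 1000` times the total of the special entries plus `25 z` -/
noncomputable def lq (w nt sh : ℕ) (sp : List (ℕ × ℕ)) (on : List ℕ) (d cnt : ℕ) : ℕ → ℕ → ℕ → ℕ → Bool :=
  @Nat.rec (fun _ => ℕ → ℕ → ℕ → ℕ → Bool) (fun _ _ _ _ => true)
    (fun _ ih bx bv z T =>
      fn (Nat.mod z w) fun r => fn (Nat.div z w) fun q =>
      fn (@Nat.rec (fun _ => ℕ) w (fun n _ => Nat.succ n) r) fun r' =>
      fn (@Nat.rec (fun _ => ℕ) (nat_lit 0) (fun _ _ => (nat_lit 1)) r) fun m' =>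
      fn (Nat.mod bv (nat_lit 16777216)) fun V =>
      cond (Nat.ble 300 T) (cond (Nat.ble T 7399) (cond (Nat.ble (Nat.mul 20 V) (w20 T))
      (cond (dg nt bx fun X => rowOK (sp ++ [(r', (nat_lit 40)), (w, (nat_lit 40))]) (on ++ [m', q]) X V)
        (fn (Nat.shiftRight bx sh) fun bx => fn (Nat.shiftRight bv (nat_lit 24)) fun bv =>
          fn (Nat.add z d) fun z => fn (Nat.add T (Nat.mul 25 d)) fun T => ih bx bv z T) false) false) false) false) cnt

theorem lq_sound (w nt sh : ℕ) (sp : List (ℕ × ℕ)) (on : List ℕ) (S : Multiset ℝ) (d : ℕ)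
    (hmk : ∀ (m' q : ℕ) (r' m : ℝ), mk (on ++ [m', q]) ((sp.map fun u : ℕ × ℕ => (u.1 : ℝ) / (u.2 : ℝ)) ++ [r', m])
      = (1 ::ₘ S) + (Multiset.replicate m' r' + Multiset.replicate q m)) (hw : 0 < w) (cnt : ℕ) :
    ∀ (bx bv z T : ℕ), lq w nt sh sp on d cnt bx bv z T = true → (T : ℝ) / 1000 = S.sum + (z : ℝ) / 40 → ∀ j < cnt,
    P (S + nd w (z + d * j)) := by
  induction cnt with
  | zero => intro bx bv z T _ _ j hj; omega
  | succ cnt ih =>
    intro bx bv z T h hT j hj
    have h' : (fn (Nat.mod z w) fun r => fn (Nat.div z w) fun q =>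
      fn (@Nat.rec (fun _ => ℕ) w (fun n _ => Nat.succ n) r) fun r' =>
      fn (@Nat.rec (fun _ => ℕ) 0 (fun _ _ => 1) r) fun m' =>
      fn (Nat.mod bv 16777216) fun V =>
      cond (Nat.ble 300 T) (cond (Nat.ble T 7399) (cond (Nat.ble (Nat.mul 20 V) (w20 T))
      (cond (dg nt bx fun X => rowOK (sp ++ [(r', 40), (w, 40)]) (on ++ [m', q]) X V)
        (fn (Nat.shiftRight bx sh) fun bx => fn (Nat.shiftRight bv 24) fun bv =>
          fn (Nat.add z d) fun z => fn (Nat.add T (Nat.mul 25 d)) fun T => lq w nt sh sp on d cnt bx bv z T)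
            false) false) false) false) = true := h
    simp only [fn_eq] at h'
    obtain ⟨g1, h'⟩ := IA.cond_and h'
    obtain ⟨g2, h'⟩ := IA.cond_and h'
    obtain ⟨g3, h'⟩ := IA.cond_and h'
    obtain ⟨h1, h2⟩ := IA.cond_and h'
    rw [Nat.ble_eq] at g1 g2 g3
    rcases Nat.eq_zero_or_pos j with rfl | hj0
    · obtain ⟨X, h3⟩ := dg_get _ _ _ h1
      have h4 := row_sound _ _ _ _ h3
      rw [List.map_append] at h4
      simp only [List.map_cons, List.map_nil] at h4
      rw [hmk] at h4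
      have e10 : (10 : ℝ) ^ 7 = 10000000 := by norm_num
      rw [e10] at h4
      rw [Nat.mul_zero, Nat.add_zero]
      unfold P
      have hle : FM (1 ::ₘ (S + nd w z)) ≤ ((Nat.mod bv 16777216 : ℕ) : ℝ) / 10000000 := by
        refine le_trans (le_of_eq ?_) h4
        rcases Nat.eq_zero_or_pos (z % w) with hr | hr
        · have e1 : Nat.mod z w = 0 := hr
          rw [e1]
          show FM (1 ::ₘ (S + nd w z)) = FM ((1 ::ₘ S) + (Multiset.replicate 0 _ + _))
          unfold nd
          rw [hr, Nat.cast_zero, zero_div, Multiset.add_cons, Multiset.cons_swap, FM_zero_cons,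
            Multiset.replicate_zero, zero_add, Multiset.cons_add]
          rfl
        · obtain ⟨r, hr'⟩ := Nat.exists_eq_succ_of_ne_zero hr.ne'
          have e1 : Nat.mod z w = r.succ := hr'
          rw [e1]
          show FM (1 ::ₘ (S + nd w z)) = FM ((1 ::ₘ S) + (Multiset.replicate 1 ((r.succ : ℕ) / ((40 : ℕ) : ℝ)) + _))
          unfold nd
          rw [hr', Multiset.replicate_one, Multiset.singleton_add, Multiset.cons_add]
          rfl
      have hs : (S + nd w z).sum = (T : ℝ) / 1000 := by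
        rw [Multiset.sum_add, hT]
        congr 1
        unfold nd
        rw [Multiset.sum_cons, Multiset.sum_replicate, nsmul_eq_mul]
        have : (w : ℝ) * ((z / w : ℕ) : ℝ) + ((z % w : ℕ) : ℝ) = z := by exact_mod_cast Nat.div_add_mod z w
        linarith
      rw [hs]
      have h6 := w20_le T g1 (by omega)
      have g3R : (20 : ℝ) * ((Nat.mod bv 16777216 : ℕ) : ℝ) ≤ (w20 T : ℝ) := by
        have : 20 * (Nat.mod bv 16777216) ≤ w20 T := g3
        exact_mod_cast this
      refine hle.trans (le_trans ?_ h6)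
      rw [div_le_div_iff₀ (by norm_num) (by norm_num)]
      linarith
    · have h3 := ih _ _ _ _ h2 (by
        show (((T + 25 * d : ℕ)) : ℝ) / 1000 = S.sum + ((z + d : ℕ) : ℝ) / 40
        push_cast
        linarith) (j - 1) (by omega)
      have e1 : Nat.add z d + d * (j - 1) = z + d * j := by
        obtain ⟨p, rfl⟩ : ∃ p, j = p + 1 := ⟨j - 1, by omega⟩
        show z + d + d * (p + 1 - 1) = z + d * (p + 1)
        rw [Nat.add_sub_cancel]
        ring
      rw [e1] at h3
      exact h3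

end NW
end Fr
end Pool.Agent.Lib.MP_6947cd_al
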