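import Pool.Agent.Lib.MP_6947cd_al.L.BoxA

/-!
Problem MP_6947cd_al (Chollet).  CASE A, (II): the pair inequalities of a box from the certificates of
`L/PairQ.lean`.
-/

set_option autoImplicit false
open Finset

namespace Pool.Agent.Lib.MP_6947cd_al
namespace CA

open Ent Fr
open Fr.PQ (R Bx Nm QCert Pc Ty chkQ chkQ_sound Geo)

/-- certificate of a piece; `two`: the piece is cut at `9/20` -/
inductive PCt where
  | one (n : Nm) (C : QCert)
  | two (n : Nm) (C : QCert) (n' : Nm) (C' : QCert)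

/-- the parameters of one payment function: type, weight, cost `A/1000 (s - z/40)`, range of `s` -/
structure Par where
  ty : ℕ
  w : ℕ
  A : ℤ
  z : ℕ
  sa : R
  sb : R

/-- one piece of `L/PairQ` -/
def pc (p : Par) (dv : Bool) (ka kb ba sl : R) : Pc :=
  ⟨cond (Nat.beq p.ty 1) .std (.sq 0 1), dv, ⟨Int.ofNat p.w, 1000⟩, ⟨p.A, 1000⟩, p.sa, p.sb, ka, kb, ba, sl⟩

/-- value at the left end, shifted -/
def bav (p : Par) (b0 : ℤ) : ℤ := 2 * b0 - 5 * p.A * Int.ofNat p.z

def pcchk (p : Par) (B : Bx) (dv : Bool) (k0 : ℕ) (b0 : ℤ) (k : ℕ) (b : ℤ) : PCt → Bool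
  | .one n C => chkQ (pc p dv ⟨Int.ofNat k0, 1000⟩ ⟨Int.ofNat k, 1000⟩ ⟨bav p b0, 200000⟩
      ⟨b - b0, 100 * (k - k0)⟩) B n C
  | .two n C n' C' => Nat.ble k0 450 && (Nat.ble 450 k &&
      (chkQ (pc p dv ⟨Int.ofNat k0, 1000⟩ ⟨9, 20⟩ ⟨bav p b0, 200000⟩ ⟨b - b0, 100 * (k - k0)⟩) B n C &&
      chkQ (pc p false ⟨9, 20⟩ ⟨Int.ofNat k, 1000⟩
        ⟨bav p b0 * Int.ofNat (k - k0) + 2 * (b - b0) * Int.ofNat (450 - k0), 200000 * (k - k0)⟩
        ⟨b - b0, 100 * (k - k0)⟩) B n' C'))

def chkPl (p : Par) (B : Bx) : Bool → ℕ → ℤ → List ℕ → List ℤ → List PCt → Bool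
  | dv, k0, b0, k :: ks, b :: bs, c :: cs =>
      Nat.blt k0 k && (pcchk p B dv k0 b0 k b c && chkPl p B false k b ks bs cs)
  | _, _, _, [], [], [] => true
  | _, _, _, _, _, _ => false

/-- the left side -/
noncomputable def costP (p : Par) (s t u : ℝ) : ℝ :=
  (p.w : ℝ) / 1000 * (omg s + omg t - omg (min u (max s t))
    - if p.ty = 1 then gtr (3 / 20) (9 / 20) u else 0) - (p.A : ℝ) / 1000 * (s - (p.z : ℝ) / 40)

section

variable {p : Par} {B : Bx} {h s t e u : ℝ}

lemma pc_goal {dv : Bool} {ka kb ba sl : R} (hg : PQ.Goal (pc p dv ka kb ba sl) s t u) :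
    costP p s t u ≤ ba.r + sl.r * (t - ka.r) + (p.A : ℝ) / 1000 * ((p.z : ℝ) / 40) := by
  unfold PQ.Goal at hg
  have e1 : (pc p dv ka kb ba sl).w.r = (p.w : ℝ) / 1000 := by
    unfold pc R.r; push_cast; rfl
  have e2 : (pc p dv ka kb ba sl).A.r = (p.A : ℝ) / 1000 := by
    unfold pc R.r; push_cast; rfl
  have e3 : PQ.Gv (pc p dv ka kb ba sl).ty u = if p.ty = 1 then gtr (3 / 20) (9 / 20) u else 0 := by
    unfold pc
    by_cases hty : p.ty = 1
    · have hb : Nat.beq p.ty 1 = true := by rw [hty]; rfl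
      rw [if_pos hty, hb]
      rfl
    · have hb : Nat.beq p.ty 1 = false := by
        cases hc : Nat.beq p.ty 1 with
        | false => rfl
        | true => exact absurd (Nat.eq_of_beq_eq_true hc) hty
      rw [if_neg hty, hb]
      simp [PQ.Gv]
  rw [e1, e2, e3] at hg
  unfold costP
  have e4 : (pc p dv ka kb ba sl).ba.r = ba.r := rfl
  have e5 : (pc p dv ka kb ba sl).sl.r = sl.r := rfl
  have e6 : (pc p dv ka kb ba sl).ka.r = ka.r := rfl
  rw [e4, e5, e6] at hg
  linarith

lemma bav_r (p : Par) (b0 : ℤ) :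
    (⟨bav p b0, 200000⟩ : R).r + (p.A : ℝ) / 1000 * ((p.z : ℝ) / 40) = (b0 : ℝ) / 100000 := by
  have i1 : ((Int.ofNat p.z : ℤ) : ℝ) = (p.z : ℝ) := by simp
  unfold R.r bav
  simp only [Int.cast_sub, Int.cast_mul, i1]
  push_cast
  ring

/-- one piece -/
lemma pcchk_sound (hB : B.ok = true) (g : Geo h s t e u) (h0 : (B.H0 : ℝ) / 1000000 ≤ h)
    (h1 : h ≤ (B.H1 : ℝ) / 1000000) (hs0 : p.sa.r ≤ s) (hs1 : s ≤ p.sb.r) {dv : Bool} {k0 k : ℕ}
    {b0 b : ℤ} {c : PCt} (hk : k0 < k) (hc : pcchk p B dv k0 b0 k b c = true)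
    (ht0 : (k0 : ℝ) / 1000 ≤ t) (ht1 : t ≤ (k : ℝ) / 1000) :
    costP p s t u ≤ (b0 : ℝ) / 100000 + ((b : ℝ) / 100000 - (b0 : ℝ) / 100000)
      / ((k : ℝ) / 1000 - (k0 : ℝ) / 1000) * (t - (k0 : ℝ) / 1000) := by
  have hkr : (k0 : ℝ) < k := by exact_mod_cast hk
  have hsub : ((k - k0 : ℕ) : ℝ) = (k : ℝ) - k0 := Nat.cast_sub hk.le
  have hne : (k : ℝ) - k0 ≠ 0 := ne_of_gt (by linarith)
  have esl : (⟨b - b0, 100 * (k - k0)⟩ : R).r = ((b : ℝ) / 100000 - (b0 : ℝ) / 100000)
      / ((k : ℝ) / 1000 - (k0 : ℝ) / 1000) := by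
    unfold R.r
    push_cast
    rw [hsub]
    field_simp
    ring
  have ek0 : (⟨Int.ofNat k0, 1000⟩ : R).r = (k0 : ℝ) / 1000 := by unfold R.r; push_cast; rfl
  have ek : (⟨Int.ofNat k, 1000⟩ : R).r = (k : ℝ) / 1000 := by unfold R.r; push_cast; rfl
  have e9 : (⟨9, 20⟩ : R).r = 9 / 20 := by unfold R.r; push_cast; rfl
  have eb := bav_r p b0
  cases c with
  | one n C =>
    have h5 := pc_goal (chkQ_sound hB hc g h0 h1 hs0 hs1 (ek0.le.trans ht0) (ht1.trans ek.ge))
    rw [esl, ek0] at h5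
    linarith
  | two n C n' C' =>
    simp only [pcchk, Bool.and_eq_true] at hc
    obtain ⟨c1, c2, c3, c4⟩ := hc
    have d1 : k0 ≤ 450 := Nat.le_of_ble_eq_true c1
    rcases le_total t (9 / 20) with ht | ht
    · have h5 := pc_goal (chkQ_sound hB c3 g h0 h1 hs0 hs1 (ek0.le.trans ht0) (ht.trans e9.ge))
      rw [esl, ek0] at h5
      linarith
    · have h5 := pc_goal (chkQ_sound hB c4 g h0 h1 hs0 hs1 (e9.le.trans ht) (ht1.trans ek.ge))
      have hs2 : ((450 - k0 : ℕ) : ℝ) = 450 - (k0 : ℝ) := by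
        rw [Nat.cast_sub d1]; norm_num
      have e10 : (⟨bav p b0 * Int.ofNat (k - k0) + 2 * (b - b0) * Int.ofNat (450 - k0),
          200000 * (k - k0)⟩ : R).r = (⟨bav p b0, 200000⟩ : R).r
            + (⟨b - b0, 100 * (k - k0)⟩ : R).r * (9 / 20 - (k0 : ℝ) / 1000) := by
        have i1 : ((Int.ofNat (k - k0) : ℤ) : ℝ) = (k : ℝ) - k0 := by
          rw [← hsub]; simp
        have i2 : ((Int.ofNat (450 - k0) : ℤ) : ℝ) = 450 - (k0 : ℝ) := by
          rw [← hs2]; simp
        unfold R.r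
        simp only [Int.cast_add, Int.cast_mul, Int.cast_sub, i1, i2, Nat.cast_mul, hsub]
        push_cast
        field_simp
        ring
      rw [e10, e9, esl] at h5
      have e11 : ∀ q : ℝ, q * (9 / 20 - (k0 : ℝ) / 1000) + q * (t - 9 / 20)
          = q * (t - (k0 : ℝ) / 1000) := by
        intro q; ring
      have e12 := e11 (((b : ℝ) / 100000 - (b0 : ℝ) / 100000) / ((k : ℝ) / 1000 - (k0 : ℝ) / 1000))
      linarith

lemma chkPl_sound (hB : B.ok = true) (g : Geo h s t e u) (h0 : (B.H0 : ℝ) / 1000000 ≤ h)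
    (h1 : h ≤ (B.H1 : ℝ) / 1000000) (hs0 : p.sa.r ≤ s) (hs1 : s ≤ p.sb.r) :
    ∀ (ks : List ℕ) (bs : List ℤ) (cs : List PCt) (dv : Bool) (k0 : ℕ) (b0 : ℤ),
      chkPl p B dv k0 b0 ks bs cs = true → ks ≠ [] → (k0 : ℝ) / 1000 ≤ t →
      t ≤ ((ks.getLastD 0 : ℕ) : ℝ) / 1000 →
      costP p s t u ≤ pl ((k0 : ℝ) / 1000) ((b0 : ℝ) / 100000) (kR ks) (vR bs) t := by
  intro ks
  induction ks with
  | nil => intro _ _ _ _ _ _ h; exact absurd rfl h
  | cons k ks ih =>
    intro bs cs dv k0 b0 hc _ ht0 ht1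
    cases bs with
    | nil => simp [chkPl] at hc
    | cons b bs =>
      cases cs with
      | nil => simp [chkPl] at hc
      | cons c cs =>
        simp only [chkPl, Bool.and_eq_true] at hc
        obtain ⟨c1, c2, c3⟩ := hc
        have hk : k0 < k := Nat.le_of_ble_eq_true c1
        show costP p s t u ≤ pl ((k0 : ℝ) / 1000) ((b0 : ℝ) / 100000) ((k : ℝ) / 1000 :: kR ks)
          ((b : ℝ) / 100000 :: vR bs) t
        rw [pl_cons]
        split_ifs with hle
        · exact pcchk_sound hB g h0 h1 hs0 hs1 hk c2 ht0 hle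
        · have hlt := (not_le.mp hle).le
          have hne : ks ≠ [] := by
            rintro rfl
            simp only [List.getLastD_cons, List.getLastD_nil] at ht1
            exact hle ht1
          refine ih bs cs false k b c3 hne hlt ?_
          cases ks with
          | nil => exact absurd rfl hne
          | cons k' ks' =>
            simpa [List.getLastD_cons] using ht1

end

/-- the certificates of a class: rests and special vertex -/
structure CCt where
  rs : List PCt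
  sp : List PCt

/-- the parameters of the rests and of the special vertex -/
def parR (x : Box) (c : Cl) : Par := ⟨c.ty, c.w, Int.ofNat c.a, 0, ⟨0, 1⟩, ⟨Int.ofNat x.so, 200⟩⟩
def parS (x : Box) (c : Cl) : Par :=
  ⟨c.ty, c.w, c.a2, x.slo, ⟨Int.ofNat x.slo, 40⟩, ⟨Int.ofNat x.shi, 40⟩⟩

def chkSp (x : Box) (B : Bx) (c : Cl) (C : List PCt) : Bool :=
  match x.q, c.s with
  | [], _ => true
  | q0 :: q, s0 :: s => Nat.beq q0 0 && chkPl (parS x c) B false 0 s0 q s C
  | _, _ => false

def chkCls (x : Box) (B : Bx) : List Cl → List CCt → Bool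
  | c :: cs, C :: Cs => chkPl (parR x c) B true 0 0 x.k c.b C.rs && (chkSp x B c C.sp && chkCls x B cs Cs)
  | [], [] => true
  | _, _ => false

/-- THE CHECK of (II) for a box -/
def chkII (x : Box) (B : Bx) (C : List CCt) : Bool :=
  B.ok && (Nat.ble B.H0 (5000 * x.H0) && (Nat.ble (5000 * x.H1) B.H1 && (Nat.blt 0 (x.k.length) &&
    (Nat.blt 1 (x.q.length) || Nat.beq x.q.length 0) && chkCls x B x.cls C)))

lemma chkCls_mem {x : Box} {B : Bx} : ∀ (l : List Cl) (Cs : List CCt), chkCls x B l Cs = true →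
    ∀ c ∈ l, ∃ C : CCt, chkPl (parR x c) B true 0 0 x.k c.b C.rs = true ∧ chkSp x B c C.sp = true := by
  intro l
  induction l with
  | nil => intro _ _ c hc; exact absurd hc List.not_mem_nil
  | cons c0 l ih =>
    intro Cs hC c hc
    cases Cs with
    | nil => simp [chkCls] at hC
    | cons C Cs =>
      simp only [chkCls, Bool.and_eq_true] at hC
      obtain ⟨c1, c2, c3⟩ := hC
      rcases List.mem_cons.mp hc with rfl | hc
      · exact ⟨C, c1, c2⟩
      · exact ih Cs c3 c hc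

theorem propII_of {x : Box} {B : Bx} {C : List CCt} (hc : chkII x B C = true) : PropII x := by
  unfold chkII at hc
  simp only [Bool.and_eq_true, Bool.or_eq_true] at hc
  obtain ⟨hB, b0, b1, ⟨hk, hq⟩, hcl⟩ := hc
  have B0 : (B.H0 : ℝ) ≤ 5000 * x.H0 := by exact_mod_cast Nat.le_of_ble_eq_true b0
  have B1 : 5000 * (x.H1 : ℝ) ≤ B.H1 := by exact_mod_cast Nat.le_of_ble_eq_true b1
  intro c hcm h s t e u hH0 hH1 g
  obtain ⟨C, c1, c2⟩ := chkCls_mem x.cls _ hcl c hcm
  have k0 : (B.H0 : ℝ) / 1000000 ≤ h := by linarith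
  have k1 : h ≤ (B.H1 : ℝ) / 1000000 := by linarith
  constructor
  · intro hs ht
    have hkne : x.k ≠ [] := by
      rintro h0
      rw [h0] at hk
      exact absurd hk (by decide)
    have h5 := chkPl_sound (p := parR x c) hB g k0 k1
      (by unfold parR R.r; simpa using g.s0) (by unfold parR R.r; simpa using hs)
      x.k c.b C.rs true 0 0 c1 hkne (by simpa using g.t0) ht
    have e1 : costP (parR x c) s t u = cost c s t u - (c.a : ℝ) / 1000 * s := by
      unfold costP cost parR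
      simp
    rw [e1] at h5
    unfold phR
    simpa using h5
  · intro hqne hs0 hs1 ht
    unfold chkSp at c2
    cases hxq : x.q with
    | nil => exact absurd hxq hqne
    | cons q0 q =>
      cases hcs : c.s with
      | nil => rw [hxq, hcs] at c2; simp at c2
      | cons s0 sv =>
        rw [hxq, hcs] at c2
        simp only [Bool.and_eq_true] at c2
        obtain ⟨c3, c4⟩ := c2
        have hqn : q ≠ [] := by
          rintro rfl
          rw [hxq] at hq
          rcases hq with hq | hq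
          · exact absurd hq (by simp [Nat.blt])
          · exact absurd hq (by simp)
        rw [hxq] at ht
        have hl : (q0 :: q).getLastD 0 = q.getLastD 0 := by
          cases q with
          | nil => exact absurd rfl hqn
          | cons q1 q => simp [List.getLastD_cons]
        rw [hl] at ht
        have h5 := chkPl_sound (p := parS x c) hB g k0 k1
          (by unfold parS R.r; simpa using hs0) (by unfold parS R.r; simpa using hs1)
          q sv C.sp false 0 s0 c4 hqn (by simpa using g.t0) ht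
        have e1 : costP (parS x c) s t u
            = cost c s t u - (c.a2 : ℝ) / 1000 * (s - (x.slo : ℝ) / 40) := by
          unfold costP cost parS
          rfl
        rw [e1] at h5
        unfold psR
        rw [hxq, hcs]
        simpa using h5

end CA
end Pool.Agent.Lib.MP_6947cd_al
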