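import Pool.Agent.Lib.MP_6947cd_al.L.PairA
import Pool.Agent.Lib.MP_6947cd_al.L.BoxData

/-!
Problem MP_6947cd_al (Chollet).  CASE A, (II): certificates (generated).
-/

set_option autoImplicit false
set_option maxRecDepth 100000

namespace Pool.Agent.Lib.MP_6947cd_al
namespace CA

theorem cQ9 : chkII xQ9 ⟨585000, 590000, 766484, 764855, 768117, 642259, 644208, 640316, 644204, 640312⟩
 [⟨[.one ⟨8000000, 107, 4328000, 34095, 0, 0, 0, 20000, 0, 420000⟩ ⟨20000, (.aff 3162278 316228), (.pol),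
 (.pol), (.pol), (.aff 0 3240371 308607), (.sy 220000 (.aff 0 5983628 167123) (.aff 150000 27575360 26201)),
 (.pol), (.sy 210000 (.pol) (.pol)), (.pol)⟩, .one ⟨8000000, 107, 4328000, -115437, 62803, 0, 0, 20000,
 420000, 569000⟩ ⟨0, .pol, .pol, .pol, .pol, (.aff 1500000 4972424 50278), .pol, (.pol), (.pol), .pol⟩], [.one
 ⟨8000000, 107, 208000, 0, 10160, 0, 250000, 300000, 0, 300000⟩ ⟨0, .pol, .pol, .pol, .pol, (.sx 275000 (.sx
 262500 (.sx 256250 (.sx 253125 (.sy 150000 (.sy 75000 (.aff 650000 164542 744491) (.aff 1000000 0 0)) (.aff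
 1000000 0 0)) (.sy 150000 (.sy 75000 (.aff 650000 133892 914917) (.aff 1000000 0 0)) (.aff 1000000 0 0)))
 (.sy 150000 (.aff 631000 189980 716713) (.aff 1000000 0 0))) (.aff 725000 111465 678465)) (.sy 150000 (.aff
 750000 127689 489471) (.aff 1000000 0 0))), .pol, (.pol), (.pol), .pol⟩, .two ⟨8000000, 107, 208000, -273600,
 92240, 0, 250000, 300000, 300000, 450000⟩ ⟨0, .pol, .pol, .pol, .pol, (.aff 1000000 0 0), .pol, (.pol),
 (.pol), .pol⟩ ⟨8000000, 107, 208000, -273600, 92240, 0, 250000, 300000, 450000, 550000⟩ ⟨0, .pol, .pol, .pol,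
 .pol, (.aff 1000000 0 0), .pol, (.pol), (.pol), .pol⟩, .one ⟨8000000, 107, 208000, 83600, -104220, 0, 250000,
 300000, 550000, 750000⟩ ⟨0, .pol, .pol, .pol, .pol, (.aff 1000000 0 0), .pol, (.aff 1000000 0 0), (.pol),
 .pol⟩, .one ⟨8000000, 107, 208000, 123508, -134152, 0, 250000, 300000, 750000, 921000⟩ ⟨0, .pol, .pol, .pol,
 .pol, (.aff 1000000 0 0), .pol, (.aff 1000000 0 0), (.pol), .pol⟩]⟩, ⟨[.one ⟨4000000, 0, 772000, 19523, 0, 0,
 0, 20000, 0, 420000⟩ ⟨20000, (.pol), (.pol), (.pol), (.pol), (.pol), (.pol), (.pol), (.pol), (.pol)⟩, .one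
 ⟨4000000, 0, 772000, -131007, 63222, 0, 0, 20000, 420000, 569000⟩ ⟨0, .pol, .pol, .pol, .pol, (.sy 494500
 (.sx 10000 (.sy 457250 (.pol) (.sx 5000 (.sy 475875 (.pol) (.sx 2500 (.inf 19701523 50758) (.pol))) (.pol)))
 (.pol)) (.sx 10000 (.sy 531750 (.sx 5000 (.inf 14326549 69801) (.sy 513125 (.sx 7500 (.sy 503812 (.pol) (.inf
 9019699 110869)) (.pol)) (.sx 7500 (.inf 9142757 109377) (.sy 522437 (.pol) (.inf 7761396 128843))))) (.inf
 10491664 95314)) (.sy 531750 (.pol) (.sx 15000 (.sy 550375 (.sx 12500 (.inf 6935016 144196) (.pol)) (.inf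
 6691413 149446)) (.pol))))), .pol, (.pol), (.sy 494500 (.sx 10000 (.sy 457250 (.pol) (.sx 5000 (.sy 475875
 (.pol) (.sx 2500 (.inf 19701523 50758) (.pol))) (.pol))) (.pol)) (.sx 10000 (.sy 531750 (.sx 5000 (.inf
 14326549 69801) (.sy 513125 (.sx 7500 (.sy 503812 (.pol) (.inf 9019699 110869)) (.pol)) (.sx 7500 (.inf
 9142757 109377) (.sy 522437 (.pol) (.inf 7761396 128843))))) (.inf 10491664 95314)) (.sy 531750 (.pol) (.sx
 15000 (.sy 550375 (.sx 12500 (.inf 6935016 144196) (.pol)) (.inf 6691413 149446)) (.pol))))), .pol⟩], [.one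
 ⟨4000000, 0, 0, 133, 200, 0, 250000, 300000, 0, 300000⟩ ⟨0, .pol, .pol, .pol, .pol, (.pol), .pol, (.pol),
 (.pol), .pol⟩, .one ⟨4000000, 0, 0, 480, 96, 0, 250000, 300000, 300000, 550000⟩ ⟨0, .pol, .pol, .pol, .pol,
 (.pol), .pol, (.pol), (.pol), .pol⟩, .one ⟨4000000, 0, 0, 400, 140, 0, 250000, 300000, 550000, 750000⟩ ⟨0,
 .pol, .pol, .pol, .pol, (.pol), .pol, (.pol), (.pol), .pol⟩, .one ⟨4000000, 0, 0, 467, 89, 0, 250000, 300000,
 750000, 921000⟩ ⟨0, .pol, .pol, .pol, .pol, (.pol), .pol, (.pol), (.pol), .pol⟩]⟩, ⟨[.one ⟨8000000, 173,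
 2288000, 61333, 0, 0, 0, 20000, 0, 420000⟩ ⟨10000, (.aff 3162278 316228), (.pol), (.pol), (.pol), (.aff
 125000 3273951 233854), (.sy 215000 (.aff 0 4743417 210819) (.sy 317500 (.aff 0 7297260 137038) (.aff 200000
 10737804 59603))), (.pol), (.sy 210000 (.sy 105000 (.sy 52500 (.pol) (.pol)) (.pol)) (.pol)), (.pol)⟩, .one
 ⟨8000000, 173, 2288000, -372081, 182033, 0, 0, 20000, 420000, 569000⟩ ⟨0, .pol, .pol, .pol, .pol, (.aff
 2000000 12146665 82328), .pol, (.pol), (.pol), .pol⟩], [.one ⟨8000000, 173, 176000, 0, 60000, 0, 250000,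
 300000, 0, 300000⟩ ⟨0, .pol, .pol, .pol, .pol, (.sy 150000 (.sy 75000 (.aff 750000 65480 954490) (.aff
 1000000 0 0)) (.aff 1000000 0 0)), .pol, (.pol), (.sy 150000 (.pol) (.pol)), .pol⟩, .two ⟨8000000, 173,
 176000, -457920, 197376, 0, 250000, 300000, 300000, 450000⟩ ⟨0, .pol, .pol, .pol, .pol, (.aff 1000000 0 0),
 .pol, (.pol), (.pol), .pol⟩ ⟨8000000, 173, 176000, -457920, 197376, 0, 250000, 300000, 450000, 550000⟩ ⟨0,
 .pol, .pol, .pol, .pol, (.aff 1000000 0 0), .pol, (.pol), (.pol), .pol⟩, .one ⟨8000000, 173, 176000, 135200,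
 -128840, 0, 250000, 300000, 550000, 750000⟩ ⟨0, .pol, .pol, .pol, .pol, (.aff 1000000 0 0), .pol, (.aff
 1000000 0 0), (.pol), .pol⟩, .one ⟨8000000, 173, 176000, 197894, -175862, 0, 250000, 300000, 750000, 921000⟩
 ⟨0, .pol, .pol, .pol, .pol, (.aff 1000000 0 0), .pol, (.aff 1000000 0 0), (.pol), .pol⟩]⟩, ⟨[.one ⟨4000000,
 171, 2028000, 61428, 0, 0, 0, 20000, 0, 420000⟩ ⟨20000, (.aff 3162278 316228), (.pol), (.pol), (.pol), (.aff
 0 3240371 308607), (.sx 10000 (.sy 220000 (.aff 0 4898980 204125) (.sy 320000 (.aff 0 7348470 136083) (.aff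
 200000 9732421 65760))) (.aff 125000 3670831 208570)), (.pol), (.sy 210000 (.sy 105000 (.pol) (.pol))
 (.pol)), (.pol)⟩, .one ⟨4000000, 171, 2028000, -346309, 171249, 0, 0, 20000, 420000, 569000⟩ ⟨0, .pol, .pol,
 .pol, .pol, (.aff 2000000 9944848 100555), .pol, (.pol), (.pol), .pol⟩], [.one ⟨4000000, 171, 116000, 0,
 76560, 0, 250000, 300000, 0, 300000⟩ ⟨0, .pol, .pol, .pol, .pol, (.sy 150000 (.sy 75000 (.aff 750000 65480
 954490) (.aff 1000000 0 0)) (.aff 1000000 0 0)), .pol, (.pol), (.sy 150000 (.pol) (.pol)), .pol⟩, .two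
 ⟨4000000, 171, 116000, -465120, 216096, 0, 250000, 300000, 300000, 450000⟩ ⟨0, .pol, .pol, .pol, .pol, (.aff
 1000000 0 0), .pol, (.pol), (.pol), .pol⟩ ⟨4000000, 171, 116000, -465120, 216096, 0, 250000, 300000, 450000,
 550000⟩ ⟨0, .pol, .pol, .pol, .pol, (.aff 1000000 0 0), .pol, (.pol), (.pol), .pol⟩, .one ⟨4000000, 171,
 116000, 148000, -121120, 0, 250000, 300000, 550000, 750000⟩ ⟨0, .pol, .pol, .pol, .pol, (.aff 1000000 0 0),
 .pol, (.aff 1000000 0 0), (.pol), .pol⟩, .one ⟨4000000, 171, 116000, 189941, -152577, 0, 250000, 300000,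
 750000, 921000⟩ ⟨0, .pol, .pol, .pol, .pol, (.aff 1000000 0 0), .pol, (.aff 1000000 0 0), (.pol), .pol⟩]⟩,
 ⟨[.one ⟨2040000, 51, 204000, 81794, 0, 0, 0, 20000, 0, 420000⟩ ⟨20000, (.aff 1414214 707107), (.pol), (.pol),
 (.pol), (.aff 0 3240371 308607), (.aff 0 4690416 213201), (.pol), (.sy 210000 (.sy 105000 (.pol) (.pol))
 (.pol)), (.pol)⟩, .one ⟨2040000, 51, 204000, 7256, 31305, 0, 0, 20000, 420000, 569000⟩ ⟨0, .pol, .pol, .pol,
 .pol, (.aff 1500000 3516035 71103), .pol, (.pol), (.pol), .pol⟩], [.one ⟨2040000, 51, 108120, 18360, 4263, 0,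
 250000, 300000, 0, 300000⟩ ⟨0, .pol, .pol, .pol, .pol, (.aff 1000000 0 0), .pol, (.pol), (.pol), .pol⟩, .one
 ⟨2040000, 51, 108120, 39004, -1930, 0, 250000, 300000, 300000, 550000⟩ ⟨0, .pol, .pol, .pol, .pol, (.aff
 1000000 0 0), .pol, (.pol), (.pol), .pol⟩, .one ⟨2040000, 51, 108120, 50592, -8303, 0, 250000, 300000,
 550000, 750000⟩ ⟨0, .pol, .pol, .pol, .pol, (.aff 1000000 0 0), .pol, (.pol), (.pol), .pol⟩, .one ⟨2040000,
 51, 108120, 58694, -14380, 0, 250000, 300000, 750000, 921000⟩ ⟨0, .pol, .pol, .pol, .pol, (.aff 1000000 0 0),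
 .pol, (.pol), (.pol), .pol⟩]⟩] = true := by decide +kernel

theorem II_xQ9 : PropII xQ9 := propII_of cQ9

theorem cQ10 : chkII xQ10 ⟨590000, 595000, 769739, 768117, 771365, 638354, 640316, 636400, 640312, 636396⟩
 [⟨[.one ⟨8000000, 107, 4352000, 34857, 0, 0, 0, 25000, 0, 420000⟩ ⟨25000, (.aff 3162278 316228), (.pol),
 (.pol), (.pol), (.pol), (.sy 222500 (.aff 0 5434900 183997) (.aff 150000 30183644 23937)), (.pol), (.pol),
 (.pol)⟩, .one ⟨8000000, 107, 4352000, -193289, 95821, 0, 0, 25000, 420000, 569000⟩ ⟨0, .pol, .pol, .pol,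
 .pol, (.aff 1900000 9777877 82841), .pol, (.pol), (.pol), .pol⟩], [.one ⟨8000000, 107, 184000, 0, 15600, 0,
 250000, 300000, 0, 300000⟩ ⟨0, .pol, .pol, .pol, .pol, (.sx 275000 (.sx 262500 (.sx 256250 (.sx 253125 (.sy
 150000 (.sy 75000 (.aff 650000 148884 822789) (.aff 1000000 0 0)) (.aff 1000000 0 0)) (.sy 150000 (.sy 75000
 (.aff 650000 163535 749076) (.aff 1000000 0 0)) (.aff 1000000 0 0))) (.aff 725000 105844 714495)) (.sy 150000
 (.sy 75000 (.aff 750000 93386 669266) (.aff 1000000 0 0)) (.aff 1000000 0 0))) (.sy 150000 (.aff 675000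
 151859 695547) (.aff 1000000 0 0))), .pol, (.pol), (.pol), .pol⟩, .two ⟨8000000, 107, 184000, -271040, 96912,
 0, 250000, 300000, 300000, 450000⟩ ⟨0, .pol, .pol, .pol, .pol, (.aff 1000000 0 0), .pol, (.pol), (.pol),
 .pol⟩ ⟨8000000, 107, 184000, -271040, 96912, 0, 250000, 300000, 450000, 550000⟩ ⟨0, .pol, .pol, .pol, .pol,
 (.aff 1000000 0 0), .pol, (.pol), (.pol), .pol⟩, .one ⟨8000000, 107, 184000, 84800, -98800, 0, 250000,
 300000, 550000, 750000⟩ ⟨0, .pol, .pol, .pol, .pol, (.aff 1000000 0 0), .pol, (.aff 1000000 0 0), (.pol),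
 .pol⟩, .one ⟨8000000, 107, 184000, 125380, -129236, 0, 250000, 300000, 750000, 921000⟩ ⟨0, .pol, .pol, .pol,
 .pol, (.aff 1000000 0 0), .pol, (.aff 1000000 0 0), (.pol), .pol⟩]⟩, ⟨[.one ⟨4000000, 0, 772000, 19523, 0, 0,
 0, 25000, 0, 420000⟩ ⟨25000, (.pol), (.pol), (.pol), (.pol), (.pol), (.pol), (.pol), (.pol), (.pol)⟩, .one
 ⟨4000000, 0, 772000, -139329, 66718, 0, 0, 25000, 420000, 569000⟩ ⟨0, .pol, .pol, .pol, .pol, (.sy 494500
 (.sx 12500 (.sy 457250 (.pol) (.sx 6250 (.sy 475875 (.pol) (.sx 3125 (.inf 17621578 56749) (.pol))) (.pol)))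
 (.pol)) (.sx 12500 (.sy 531750 (.sx 6250 (.inf 10251244 97550) (.sy 513125 (.pol) (.sx 9375 (.inf 8177531
 122287) (.sy 522437 (.pol) (.inf 6942004 144051))))) (.inf 9384029 106565)) (.sy 531750 (.pol) (.sx 18750
 (.sy 550375 (.sx 15625 (.sy 541062 (.pol) (.inf 6229499 160527)) (.pol)) (.inf 5984982 167085)) (.pol))))),
 .pol, (.pol), (.sy 494500 (.sx 12500 (.sy 457250 (.pol) (.sx 6250 (.sy 475875 (.pol) (.sx 3125 (.inf 17621578
 56749) (.pol))) (.pol))) (.pol)) (.sx 12500 (.sy 531750 (.sx 6250 (.inf 10251244 97550) (.sy 513125 (.pol)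
 (.sx 9375 (.inf 8177531 122287) (.sy 522437 (.pol) (.inf 6942004 144051))))) (.inf 9384029 106565)) (.sy
 531750 (.pol) (.sx 18750 (.sy 550375 (.sx 15625 (.sy 541062 (.pol) (.inf 6229499 160527)) (.pol)) (.inf
 5984982 167085)) (.pol))))), .pol⟩], [.one ⟨4000000, 0, 0, 133, 200, 0, 250000, 300000, 0, 300000⟩ ⟨0, .pol,
 .pol, .pol, .pol, (.pol), .pol, (.pol), (.pol), .pol⟩, .one ⟨4000000, 0, 0, 480, 96, 0, 250000, 300000,
 300000, 550000⟩ ⟨0, .pol, .pol, .pol, .pol, (.pol), .pol, (.pol), (.pol), .pol⟩, .one ⟨4000000, 0, 0, 400,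
 140, 0, 250000, 300000, 550000, 750000⟩ ⟨0, .pol, .pol, .pol, .pol, (.pol), .pol, (.pol), (.pol), .pol⟩, .one
 ⟨4000000, 0, 0, 467, 89, 0, 250000, 300000, 750000, 921000⟩ ⟨0, .pol, .pol, .pol, .pol, (.pol), .pol, (.pol),
 (.pol), .pol⟩]⟩, ⟨[.one ⟨4000000, 89, 1432000, 31333, 0, 0, 0, 25000, 0, 420000⟩ ⟨25000, (.aff 3162278
 316228), (.pol), (.pol), (.pol), (.aff 0 2898276 345033), (.sx 12500 (.sx 6250 (.sy 222500 (.aff 0 6292854
 158911) (.sy 321250 (.aff 0 9327380 107212) (.aff 200000 13616854 47001))) (.aff 125000 4262727 179610))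
 (.aff 0 3444803 290293)), (.pol), (.sy 210000 (.pol) (.pol)), (.pol)⟩, .one ⟨4000000, 89, 1432000, -226041,
 108096, 0, 0, 25000, 420000, 569000⟩ ⟨0, .pol, .pol, .pol, .pol, (.aff 2300000 14123600 119658), .pol,
 (.pol), (.pol), .pol⟩], [.one ⟨4000000, 89, 88000, 0, 31240, 0, 250000, 300000, 0, 300000⟩ ⟨0, .pol, .pol,
 .pol, .pol, (.sy 150000 (.sy 75000 (.aff 750000 72367 863654) (.aff 1000000 0 0)) (.aff 1000000 0 0)), .pol,
 (.pol), (.sy 150000 (.pol) (.pol)), .pol⟩, .two ⟨4000000, 89, 88000, -234240, 101512, 0, 250000, 300000,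
 300000, 450000⟩ ⟨0, .pol, .pol, .pol, .pol, (.aff 1000000 0 0), .pol, (.pol), (.pol), .pol⟩ ⟨4000000, 89,
 88000, -234240, 101512, 0, 250000, 300000, 450000, 550000⟩ ⟨0, .pol, .pol, .pol, .pol, (.aff 1000000 0 0),
 .pol, (.pol), (.pol), .pol⟩, .one ⟨4000000, 89, 88000, 71400, -66590, 0, 250000, 300000, 550000, 750000⟩ ⟨0,
 .pol, .pol, .pol, .pol, (.aff 1000000 0 0), .pol, (.aff 1000000 0 0), (.pol), .pol⟩, .one ⟨4000000, 89,
 88000, 101988, -89532, 0, 250000, 300000, 750000, 921000⟩ ⟨0, .pol, .pol, .pol, .pol, (.aff 1000000 0 0),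
 .pol, (.aff 1000000 0 0), (.pol), .pol⟩]⟩, ⟨[.one ⟨8000000, 341, 4152000, 124761, 0, 0, 0, 25000, 0, 420000⟩
 ⟨12500, (.aff 3162278 316228), (.pol), (.pol), (.pol), (.aff 250000 2509981 224106), (.sx 6250 (.sy 216250
 (.aff 0 6049794 165295) (.sy 318125 (.aff 0 9246622 108148) (.aff 225000 10777356 55731))) (.sy 216250 (.aff
 0 3492850 286300) (.aff 250000 4368925 128751))), (.pol), (.sy 210000 (.sy 105000 (.pol) (.pol)) (.pol)),
 (.pol)⟩, .one ⟨8000000, 341, 4152000, -747920, 366526, 0, 0, 25000, 420000, 569000⟩ ⟨0, .pol, .pol, .pol,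
 .pol, (.aff 2000000 8894943 112424), .pol, (.pol), (.pol), .pol⟩], [.one ⟨8000000, 341, 296000, 0, 131760, 0,
 250000, 300000, 0, 300000⟩ ⟨0, .pol, .pol, .pol, .pol, (.sy 150000 (.sy 75000 (.aff 750000 65480 954490)
 (.aff 1000000 0 0)) (.aff 1000000 0 0)), .pol, (.pol), (.sy 150000 (.pol) (.pol)), .pol⟩, .two ⟨8000000, 341,
 296000, -907200, 403920, 0, 250000, 300000, 300000, 450000⟩ ⟨0, .pol, .pol, .pol, .pol, (.aff 1000000 0 0),
 .pol, (.pol), (.pol), .pol⟩ ⟨8000000, 341, 296000, -907200, 403920, 0, 250000, 300000, 450000, 550000⟩ ⟨0,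
 .pol, .pol, .pol, .pol, (.aff 1000000 0 0), .pol, (.pol), (.pol), .pol⟩, .one ⟨8000000, 341, 296000, 283200,
 -250800, 0, 250000, 300000, 550000, 750000⟩ ⟨0, .pol, .pol, .pol, .pol, (.aff 1000000 0 0), .pol, (.aff
 1000000 0 0), (.pol), .pol⟩, .one ⟨8000000, 341, 296000, 384093, -326471, 0, 250000, 300000, 750000, 921000⟩
 ⟨0, .pol, .pol, .pol, .pol, (.aff 1000000 0 0), .pol, (.aff 1000000 0 0), (.pol), .pol⟩]⟩, ⟨[.one ⟨2040000,
 51, 204000, 81842, 0, 0, 0, 25000, 0, 420000⟩ ⟨25000, (.aff 1414214 707107), (.pol), (.pol), (.pol), (.aff 0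
 2898276 345033), (.aff 0 4219005 237023), (.pol), (.sy 210000 (.pol) (.pol)), (.pol)⟩, .one ⟨2040000, 51,
 204000, 7256, 31326, 0, 0, 25000, 420000, 569000⟩ ⟨0, .pol, .pol, .pol, .pol, (.aff 1500000 3144838 79496),
 .pol, (.pol), (.pol), .pol⟩], [.one ⟨2040000, 51, 108120, 18564, 4100, 0, 250000, 300000, 0, 300000⟩ ⟨0,
 .pol, .pol, .pol, .pol, (.aff 1000000 0 0), .pol, (.pol), (.pol), .pol⟩, .one ⟨2040000, 51, 108120, 39576,
 -2204, 0, 250000, 300000, 300000, 550000⟩ ⟨0, .pol, .pol, .pol, .pol, (.aff 1000000 0 0), .pol, (.pol),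
 (.pol), .pol⟩, .one ⟨2040000, 51, 108120, 51204, -8599, 0, 250000, 300000, 550000, 750000⟩ ⟨0, .pol, .pol,
 .pol, .pol, (.aff 1000000 0 0), .pol, (.pol), (.pol), .pol⟩, .one ⟨2040000, 51, 108120, 59529, -14843, 0,
 250000, 300000, 750000, 921000⟩ ⟨0, .pol, .pol, .pol, .pol, (.aff 1000000 0 0), .pol, (.pol), (.pol),
 .pol⟩]⟩] = true := by decide +kernel

theorem II_xQ10 : PropII xQ10 := propII_of cQ10

theorem cQ11 : chkII xQ11 ⟨595000, 600000, 772980, 771365, 774599, 634426, 636400, 632459, 636396, 632455⟩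
 [⟨[.one ⟨4000000, 54, 2172000, 18095, 0, 0, 0, 25000, 0, 420000⟩ ⟨25000, (.aff 3162278 316228), (.pol),
 (.pol), (.pol), (.pol), (.sy 222500 (.aff 0 5434900 183997) (.aff 150000 30183644 23937)), (.pol), (.pol),
 (.pol)⟩, .one ⟨4000000, 54, 2172000, -141477, 67020, 0, 0, 25000, 420000, 569000⟩ ⟨0, .pol, .pol, .pol, .pol,
 (.aff 2800000 23885451 135648), .pol, (.pol), (.pol), .pol⟩], [.one ⟨4000000, 54, 92000, 0, 7800, 0, 250000,
 300000, 0, 300000⟩ ⟨0, .pol, .pol, .pol, .pol, (.sx 275000 (.sx 262500 (.sx 256250 (.sx 253125 (.sy 150000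
 (.sy 75000 (.aff 675000 131507 803190) (.aff 1000000 0 0)) (.aff 1000000 0 0)) (.sy 150000 (.sy 75000 (.aff
 750000 78301 798202) (.aff 1000000 0 0)) (.aff 1000000 0 0))) (.sy 150000 (.sy 75000 (.aff 750000 77363
 807880) (.aff 1000000 0 0)) (.aff 1000000 0 0))) (.sy 150000 (.aff 675000 141391 747042) (.aff 1000000 0 0)))
 (.sy 150000 (.aff 650000 166466 735887) (.aff 1000000 0 0))), .pol, (.pol), (.sy 150000 (.pol) (.pol)),
 .pol⟩, .two ⟨4000000, 54, 92000, -135360, 48408, 0, 250000, 300000, 300000, 450000⟩ ⟨0, .pol, .pol, .pol,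
 .pol, (.aff 1000000 0 0), .pol, (.pol), (.pol), .pol⟩ ⟨4000000, 54, 92000, -135360, 48408, 0, 250000, 300000,
 450000, 550000⟩ ⟨0, .pol, .pol, .pol, .pol, (.aff 1000000 0 0), .pol, (.pol), (.pol), .pol⟩, .one ⟨4000000,
 54, 92000, 43400, -49910, 0, 250000, 300000, 550000, 750000⟩ ⟨0, .pol, .pol, .pol, .pol, (.aff 1000000 0 0),
 .pol, (.aff 1000000 0 0), (.pol), .pol⟩, .one ⟨4000000, 54, 92000, 64093, -65431, 0, 250000, 300000, 750000,
 921000⟩ ⟨0, .pol, .pol, .pol, .pol, (.aff 1000000 0 0), .pol, (.aff 1000000 0 0), (.pol), .pol⟩]⟩, ⟨[.one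
 ⟨4000000, 0, 772000, 19523, 0, 0, 0, 25000, 0, 420000⟩ ⟨25000, (.pol), (.pol), (.pol), (.pol), (.pol),
 (.pol), (.pol), (.pol), (.pol)⟩, .one ⟨4000000, 0, 772000, -148188, 70438, 0, 0, 25000, 420000, 569000⟩ ⟨0,
 .pol, .pol, .pol, .pol, (.sy 494500 (.sx 12500 (.sy 457250 (.pol) (.sx 6250 (.sy 475875 (.sx 3125 (.sy 466562
 (.pol) (.inf 17366055 57584)) (.pol)) (.sx 3125 (.inf 17621578 56749) (.sy 485187 (.pol) (.inf 10222522
 97824)))) (.pol))) (.pol)) (.sx 12500 (.sy 531750 (.sx 6250 (.inf 12814055 78040) (.sy 513125 (.sx 9375 (.sy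
 503812 (.pol) (.inf 8067464 123955)) (.pol)) (.sx 9375 (.inf 8177531 122287) (.sy 522437 (.pol) (.inf 6942004
 144051))))) (.inf 9384029 106565)) (.sy 531750 (.pol) (.sx 18750 (.sy 550375 (.sx 15625 (.inf 6202867 161216)
 (.pol)) (.inf 5984982 167085)) (.pol))))), .pol, (.pol), (.sy 494500 (.sx 12500 (.sy 457250 (.pol) (.sx 6250
 (.sy 475875 (.sx 3125 (.sy 466562 (.pol) (.inf 17366055 57584)) (.pol)) (.sx 3125 (.inf 17621578 56749) (.sy
 485187 (.pol) (.inf 10222522 97824)))) (.pol))) (.pol)) (.sx 12500 (.sy 531750 (.sx 6250 (.inf 12814055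
 78040) (.sy 513125 (.sx 9375 (.sy 503812 (.pol) (.inf 8067464 123955)) (.pol)) (.sx 9375 (.inf 8177531
 122287) (.sy 522437 (.pol) (.inf 6942004 144051))))) (.inf 9384029 106565)) (.sy 531750 (.pol) (.sx 18750
 (.sy 550375 (.sx 15625 (.inf 6202867 161216) (.pol)) (.inf 5984982 167085)) (.pol))))), .pol⟩], [.one
 ⟨4000000, 0, 0, 133, 200, 0, 250000, 300000, 0, 300000⟩ ⟨0, .pol, .pol, .pol, .pol, (.pol), .pol, (.pol),
 (.pol), .pol⟩, .one ⟨4000000, 0, 0, 480, 96, 0, 250000, 300000, 300000, 550000⟩ ⟨0, .pol, .pol, .pol, .pol,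
 (.pol), .pol, (.pol), (.pol), .pol⟩, .one ⟨4000000, 0, 0, 400, 140, 0, 250000, 300000, 550000, 750000⟩ ⟨0,
 .pol, .pol, .pol, .pol, (.pol), .pol, (.pol), (.pol), .pol⟩, .one ⟨4000000, 0, 0, 467, 89, 0, 250000, 300000,
 750000, 921000⟩ ⟨0, .pol, .pol, .pol, .pol, (.pol), .pol, (.pol), (.pol), .pol⟩]⟩, ⟨[.one ⟨4000000, 102,
 1784000, 36190, 0, 0, 0, 25000, 0, 420000⟩ ⟨12500, (.aff 3162278 316228), (.pol), (.pol), (.pol), (.aff 0
 3346641 298808), (.sx 6250 (.sy 216250 (.aff 0 6049794 165295) (.sy 318125 (.aff 0 9246622 108148) (.aff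
 200000 15017196 42618))) (.aff 125000 4202430 182187)), (.pol), (.sy 210000 (.sy 105000 (.pol) (.pol))
 (.pol)), (.pol)⟩, .one ⟨4000000, 102, 1784000, -296108, 139565, 0, 0, 25000, 420000, 569000⟩ ⟨0, .pol, .pol,
 .pol, .pol, (.aff 2500000 16296461 138067), .pol, (.pol), (.pol), .pol⟩], [.one ⟨4000000, 102, 88000, 0,
 38960, 0, 250000, 300000, 0, 300000⟩ ⟨0, .pol, .pol, .pol, .pol, (.sy 150000 (.sy 75000 (.aff 750000 65480
 954490) (.aff 1000000 0 0)) (.aff 1000000 0 0)), .pol, (.pol), (.sy 150000 (.pol) (.pol)), .pol⟩, .two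
 ⟨4000000, 102, 88000, -268000, 119360, 0, 250000, 300000, 300000, 450000⟩ ⟨0, .pol, .pol, .pol, .pol, (.aff
 1000000 0 0), .pol, (.pol), (.pol), .pol⟩ ⟨4000000, 102, 88000, -268000, 119360, 0, 250000, 300000, 450000,
 550000⟩ ⟨0, .pol, .pol, .pol, .pol, (.aff 1000000 0 0), .pol, (.pol), (.pol), .pol⟩, .one ⟨4000000, 102,
 88000, 86200, -75450, 0, 250000, 300000, 550000, 750000⟩ ⟨0, .pol, .pol, .pol, .pol, (.aff 1000000 0 0),
 .pol, (.aff 1000000 0 0), (.pol), .pol⟩, .one ⟨4000000, 102, 88000, 116725, -98344, 0, 250000, 300000,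
 750000, 921000⟩ ⟨0, .pol, .pol, .pol, .pol, (.aff 1000000 0 0), .pol, (.aff 1000000 0 0), (.pol), .pol⟩]⟩,
 ⟨[.one ⟨8000000, 341, 4200000, 127238, 0, 0, 0, 25000, 0, 420000⟩ ⟨25000, (.aff 3162278 316228), (.pol),
 (.pol), (.pol), (.aff 0 2898276 345033), (.sx 12500 (.sx 6250 (.sy 222500 (.aff 0 6292854 158911) (.sy 321250
 (.aff 0 9327380 107212) (.aff 225000 10800146 55613))) (.sy 222500 (.aff 0 3633181 275241) (.aff 250000
 4390331 128123))) (.aff 250000 2583603 217720)), (.pol), (.sy 210000 (.pol) (.pol)), (.pol)⟩, .one ⟨8000000,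
 341, 4200000, -834900, 404097, 0, 0, 25000, 420000, 569000⟩ ⟨0, .pol, .pol, .pol, .pol, (.aff 2100000 9784437
 123666), .pol, (.pol), (.pol), .pol⟩], [.one ⟨8000000, 341, 288000, 0, 131920, 0, 250000, 300000, 0, 300000⟩
 ⟨0, .pol, .pol, .pol, .pol, (.sy 150000 (.sy 75000 (.aff 750000 65480 954490) (.aff 1000000 0 0)) (.aff
 1000000 0 0)), .pol, (.pol), (.sy 150000 (.pol) (.pol)), .pol⟩, .two ⟨8000000, 341, 288000, -898560, 401488,
 0, 250000, 300000, 300000, 450000⟩ ⟨0, .pol, .pol, .pol, .pol, (.aff 1000000 0 0), .pol, (.pol), (.pol),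
 .pol⟩ ⟨8000000, 341, 288000, -898560, 401488, 0, 250000, 300000, 450000, 550000⟩ ⟨0, .pol, .pol, .pol, .pol,
 (.aff 1000000 0 0), .pol, (.pol), (.pol), .pol⟩, .one ⟨8000000, 341, 288000, 289200, -251780, 0, 250000,
 300000, 550000, 750000⟩ ⟨0, .pol, .pol, .pol, .pol, (.aff 1000000 0 0), .pol, (.aff 1000000 0 0), (.pol),
 .pol⟩, .one ⟨8000000, 341, 288000, 390175, -327512, 0, 250000, 300000, 750000, 921000⟩ ⟨0, .pol, .pol, .pol,
 .pol, (.aff 1000000 0 0), .pol, (.aff 1000000 0 0), (.pol), .pol⟩]⟩, ⟨[.one ⟨2040000, 51, 204000, 81891, 0,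
 0, 0, 25000, 0, 420000⟩ ⟨25000, (.aff 1414214 707107), (.pol), (.pol), (.pol), (.aff 0 2898276 345033), (.aff
 0 4219005 237023), (.pol), (.sy 210000 (.pol) (.pol)), (.pol)⟩, .one ⟨2040000, 51, 204000, 4655, 32439, 0, 0,
 25000, 420000, 569000⟩ ⟨0, .pol, .pol, .pol, .pol, (.aff 1500000 3144838 79496), .pol, (.pol), (.pol),
 .pol⟩], [.one ⟨2040000, 51, 108120, 18768, 3957, 0, 250000, 300000, 0, 300000⟩ ⟨0, .pol, .pol, .pol, .pol,
 (.aff 1000000 0 0), .pol, (.pol), (.pol), .pol⟩, .one ⟨2040000, 51, 108120, 39984, -2408, 0, 250000, 300000,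
 300000, 550000⟩ ⟨0, .pol, .pol, .pol, .pol, (.aff 1000000 0 0), .pol, (.pol), (.pol), .pol⟩, .one ⟨2040000,
 51, 108120, 52020, -9027, 0, 250000, 300000, 550000, 750000⟩ ⟨0, .pol, .pol, .pol, .pol, (.aff 1000000 0 0),
 .pol, (.pol), (.pol), .pol⟩, .one ⟨2040000, 51, 108120, 60245, -15197, 0, 250000, 300000, 750000, 921000⟩ ⟨0,
 .pol, .pol, .pol, .pol, (.aff 1000000 0 0), .pol, (.pol), (.pol), .pol⟩]⟩] = true := by decide +kernel

theorem II_xQ11 : PropII xQ11 := propII_of cQ11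

theorem cQ12 : chkII xQ12 ⟨600000, 605000, 776207, 774599, 777820, 630473, 632459, 628494, 632455, 628490⟩
 [⟨[.one ⟨4000000, 54, 2132000, 18600, 0, 0, 0, 30000, 0, 400000⟩ ⟨30000, (.aff 3162278 316228), (.pol),
 (.pol), (.pol), (.pol), (.sy 215000 (.aff 0 6029138 165862) (.aff 150000 26957650 26802)), (.pol), (.pol),
 (.pol)⟩, .one ⟨4000000, 54, 2132000, -22703, 16521, 0, 0, 30000, 400000, 585000⟩ ⟨0, .pol, .pol, .pol, .pol,
 (.aff 1000000 0 0), .pol, (.pol), (.pol), .pol⟩], [.one ⟨4000000, 54, 104000, 0, 4560, 0, 250000, 300000, 0,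
 300000⟩ ⟨0, .pol, .pol, .pol, .pol, (.sx 275000 (.sx 262500 (.sx 256250 (.sy 150000 (.sy 75000 (.aff 750000
 78301 798202) (.aff 1000000 0 0)) (.aff 1000000 0 0)) (.sy 150000 (.aff 675000 143517 735976) (.aff 1000000 0
 0))) (.sy 150000 (.aff 700000 141761 634872) (.aff 1000000 0 0))) (.sy 150000 (.aff 750000 127689 489471)
 (.aff 1000000 0 0))), .pol, (.pol), (.pol), .pol⟩, .two ⟨4000000, 54, 104000, -134240, 44832, 0, 250000,
 300000, 300000, 450000⟩ ⟨0, .pol, .pol, .pol, .pol, (.aff 1000000 0 0), .pol, (.pol), (.pol), .pol⟩ ⟨4000000,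
 54, 104000, -134240, 44832, 0, 250000, 300000, 450000, 550000⟩ ⟨0, .pol, .pol, .pol, .pol, (.aff 1000000 0
 0), .pol, (.pol), (.pol), .pol⟩, .one ⟨4000000, 54, 104000, 44000, -53200, 0, 250000, 300000, 550000, 750000⟩
 ⟨0, .pol, .pol, .pol, .pol, (.aff 1000000 0 0), .pol, (.aff 1000000 0 0), (.pol), .pol⟩, .one ⟨4000000, 54,
 104000, 64905, -68880, 0, 250000, 300000, 750000, 909000⟩ ⟨0, .pol, .pol, .pol, .pol, (.aff 1000000 0 0),
 .pol, (.aff 1000000 0 0), (.pol), .pol⟩]⟩, ⟨[.one ⟨4000000, 0, 772000, 20500, 0, 0, 0, 30000, 0, 400000⟩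
 ⟨30000, (.pol), (.pol), (.pol), (.pol), (.pol), (.pol), (.pol), (.pol), (.pol)⟩, .one ⟨4000000, 0, 772000,
 -130163, 60264, 0, 0, 30000, 400000, 585000⟩ ⟨0, .pol, .pol, .pol, .pol, (.sy 492500 (.sx 15000 (.sy 446250
 (.pol) (.sx 7500 (.sy 469375 (.sx 3750 (.sx 1875 (.inf 22098266 45253) (.pol)) (.pol)) (.sx 3750 (.inf
 16015618 62440) (.sy 480937 (.pol) (.sx 5625 (.inf 10189862 98137) (.pol))))) (.pol))) (.pol)) (.sx 15000
 (.sy 538750 (.sx 7500 (.inf 9380832 106601) (.sy 515625 (.sx 11250 (.sy 504062 (.pol) (.sx 9375 (.inf 7773410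
 128644) (.pol))) (.pol)) (.sx 11250 (.inf 7498889 133354) (.sy 527187 (.pol) (.inf 6372372 156928))))) (.inf
 8655442 115535)) (.sy 538750 (.pol) (.sx 22500 (.sy 561875 (.sx 18750 (.inf 5710614 175113) (.pol)) (.inf
 5530221 180825)) (.pol))))), .pol, (.pol), (.sy 492500 (.sx 15000 (.sy 446250 (.pol) (.sx 7500 (.sy 469375
 (.sx 3750 (.sx 1875 (.inf 22098266 45253) (.pol)) (.pol)) (.sx 3750 (.inf 16015618 62440) (.sy 480937 (.pol)
 (.sx 5625 (.inf 10189862 98137) (.pol))))) (.pol))) (.pol)) (.sx 15000 (.sy 538750 (.sx 7500 (.inf 9380832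
 106601) (.sy 515625 (.sx 11250 (.sy 504062 (.pol) (.sx 9375 (.inf 7773410 128644) (.pol))) (.pol)) (.sx 11250
 (.inf 7498889 133354) (.sy 527187 (.pol) (.inf 6372372 156928))))) (.inf 8655442 115535)) (.sy 538750 (.pol)
 (.sx 22500 (.sy 561875 (.sx 18750 (.inf 5710614 175113) (.pol)) (.inf 5530221 180825)) (.pol))))), .pol⟩],
 [.one ⟨4000000, 0, 0, 133, 200, 0, 250000, 300000, 0, 300000⟩ ⟨0, .pol, .pol, .pol, .pol, (.pol), .pol,
 (.pol), (.pol), .pol⟩, .one ⟨4000000, 0, 0, 480, 96, 0, 250000, 300000, 300000, 550000⟩ ⟨0, .pol, .pol, .pol,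
 .pol, (.pol), .pol, (.pol), (.pol), .pol⟩, .one ⟨4000000, 0, 0, 400, 140, 0, 250000, 300000, 550000, 750000⟩
 ⟨0, .pol, .pol, .pol, .pol, (.pol), .pol, (.pol), (.pol), .pol⟩, .one ⟨4000000, 0, 0, 503, 62, 0, 250000,
 300000, 750000, 909000⟩ ⟨0, .pol, .pol, .pol, .pol, (.pol), .pol, (.pol), (.pol), .pol⟩]⟩, ⟨[.one ⟨4000000,
 146, 2132000, 54200, 0, 0, 0, 30000, 0, 400000⟩ ⟨15000, (.aff 3162278 316228), (.pol), (.pol), (.pol), (.aff
 0 2981424 335411), (.sx 7500 (.sx 3750 (.sy 207500 (.aff 0 7702814 129823) (.sy 303750 (.aff 0 11676187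
 85645) (.aff 200000 12689359 50436))) (.sy 207500 (.aff 0 4447222 224860) (.aff 200000 5878776 108867)))
 (.aff 125000 3757863 203740)), (.pol), (.sy 200000 (.sy 100000 (.pol) (.pol)) (.pol)), (.pol)⟩, .one
 ⟨4000000, 146, 2132000, -288000, 136880, 0, 0, 30000, 400000, 585000⟩ ⟨0, .pol, .pol, .pol, .pol, (.aff
 1900000 13288982 60953), .pol, (.pol), (.pol), .pol⟩], [.one ⟨4000000, 146, 72000, 0, 71240, 0, 250000,
 300000, 0, 300000⟩ ⟨0, .pol, .pol, .pol, .pol, (.sy 150000 (.sy 75000 (.aff 750000 65480 954490) (.aff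
 1000000 0 0)) (.aff 1000000 0 0)), .pol, (.pol), (.sy 150000 (.pol) (.pol)), .pol⟩, .two ⟨4000000, 146,
 72000, -391680, 188744, 0, 250000, 300000, 300000, 450000⟩ ⟨0, .pol, .pol, .pol, .pol, (.aff 1000000 0 0),
 .pol, (.pol), (.pol), .pol⟩ ⟨4000000, 146, 72000, -391680, 188744, 0, 250000, 300000, 450000, 550000⟩ ⟨0,
 .pol, .pol, .pol, .pol, (.aff 1000000 0 0), .pol, (.aff 1000000 0 0), (.pol), .pol⟩, .one ⟨4000000, 146,
 72000, 138600, -102910, 0, 250000, 300000, 550000, 750000⟩ ⟨0, .pol, .pol, .pol, .pol, (.aff 1000000 0 0),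
 .pol, (.aff 1000000 0 0), (.pol), .pol⟩, .one ⟨4000000, 146, 72000, 169308, -125942, 0, 250000, 300000,
 750000, 909000⟩ ⟨0, .pol, .pol, .pol, .pol, (.aff 1000000 0 0), .pol, (.aff 1000000 0 0), (.pol), .pol⟩]⟩,
 ⟨[.one ⟨8000000, 411, 4488000, 160600, 0, 0, 0, 30000, 0, 400000⟩ ⟨15000, (.aff 3162278 316228), (.pol),
 (.pol), (.pol), (.aff 250000 2236068 251558), (.sx 7500 (.sy 207500 (.aff 0 5446712 183598) (.sy 303750 (.aff
 0 8256311 121120) (.aff 225000 9606515 62523))) (.sy 207500 (.aff 0 3144661 318000) (.aff 250000 3897115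
 144338))), (.pol), (.sy 200000 (.sy 100000 (.pol) (.pol)) (.pol)), (.pol)⟩, .one ⟨8000000, 411, 4488000,
 -750703, 364521, 0, 0, 30000, 400000, 585000⟩ ⟨0, .pol, .pol, .pol, .pol, (.aff 1800000 9671198 66176), .pol,
 (.pol), (.pol), .pol⟩], [.one ⟨8000000, 411, 440000, 0, 129280, 0, 250000, 300000, 0, 300000⟩ ⟨0, .pol, .pol,
 .pol, .pol, (.sy 150000 (.sy 75000 (.aff 750000 65480 954490) (.aff 1000000 0 0)) (.aff 1000000 0 0)), .pol,
 (.pol), (.sy 150000 (.pol) (.pol)), .pol⟩, .two ⟨8000000, 411, 440000, -1056000, 446080, 0, 250000, 300000,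
 300000, 450000⟩ ⟨0, .pol, .pol, .pol, .pol, (.aff 1000000 0 0), .pol, (.pol), (.pol), .pol⟩ ⟨8000000, 411,
 440000, -1056000, 446080, 0, 250000, 300000, 450000, 550000⟩ ⟨0, .pol, .pol, .pol, .pol, (.aff 1000000 0 0),
 .pol, (.pol), (.pol), .pol⟩, .one ⟨8000000, 411, 440000, 333200, -317980, 0, 250000, 300000, 550000, 750000⟩
 ⟨0, .pol, .pol, .pol, .pol, (.aff 1000000 0 0), .pol, (.aff 1000000 0 0), (.pol), .pol⟩, .one ⟨8000000, 411,
 440000, 491572, -436760, 0, 250000, 300000, 750000, 909000⟩ ⟨0, .pol, .pol, .pol, .pol, (.aff 1000000 0 0),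
 .pol, (.aff 1000000 0 0), (.pol), .pol⟩]⟩, ⟨[.one ⟨2040000, 51, 204000, 82671, 0, 0, 0, 30000, 0, 400000⟩
 ⟨30000, (.aff 1414214 707107), (.pol), (.pol), (.pol), (.aff 0 2581989 387299), (.aff 0 3785939 264136),
 (.pol), (.sy 200000 (.pol) (.pol)), (.pol)⟩, .one ⟨2040000, 51, 204000, 9703, 29186, 0, 0, 30000, 400000,
 585000⟩ ⟨0, .pol, .pol, .pol, .pol, (.aff 1500000 2865019 87260), .pol, (.pol), (.pol), .pol⟩], [.one
 ⟨2040000, 51, 108120, 18904, 3814, 0, 250000, 300000, 0, 300000⟩ ⟨0, .pol, .pol, .pol, .pol, (.aff 1000000 0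
 0), .pol, (.pol), (.pol), .pol⟩, .one ⟨2040000, 51, 108120, 40473, -2657, 0, 250000, 300000, 300000, 550000⟩
 ⟨0, .pol, .pol, .pol, .pol, (.aff 1000000 0 0), .pol, (.pol), (.pol), .pol⟩, .one ⟨2040000, 51, 108120,
 52734, -9400, 0, 250000, 300000, 550000, 750000⟩ ⟨0, .pol, .pol, .pol, .pol, (.aff 1000000 0 0), .pol,
 (.pol), (.pol), .pol⟩, .one ⟨2040000, 51, 108120, 61071, -15653, 0, 250000, 300000, 750000, 909000⟩ ⟨0, .pol,
 .pol, .pol, .pol, (.aff 1000000 0 0), .pol, (.pol), (.pol), .pol⟩]⟩] = true := by decide +kernel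

theorem II_xQ12 : PropII xQ12 := propII_of cQ12

theorem cQ13 : chkII xQ13 ⟨605000, 610000, 779421, 777820, 781027, 626495, 628494, 624503, 628490, 624499⟩
 [⟨[.one ⟨8000000, 109, 4128000, 38600, 0, 0, 0, 35000, 0, 400000⟩ ⟨35000, (.aff 3162278 316228), (.pol),
 (.pol), (.pol), (.pol), (.sy 217500 (.aff 0 5666691 176470) (.aff 150000 25008610 28891)), (.pol), (.pol),
 (.pol)⟩, .one ⟨8000000, 109, 4128000, -10379, 19591, 0, 0, 35000, 400000, 585000⟩ ⟨0, .pol, .pol, .pol, .pol,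
 (.aff 1000000 0 0), .pol, (.pol), (.pol), .pol⟩], [.one ⟨8000000, 109, 176000, 0, 17280, 0, 250000, 300000,
 0, 300000⟩ ⟨0, .pol, .pol, .pol, .pol, (.sx 275000 (.sx 262500 (.sy 150000 (.aff 725000 100341 753680) (.aff
 1000000 0 0)) (.sy 150000 (.sy 75000 (.aff 750000 93386 669266) (.aff 1000000 0 0)) (.aff 1000000 0 0))) (.sy
 150000 (.aff 700000 122810 732840) (.aff 1000000 0 0))), .pol, (.pol), (.sy 150000 (.pol) (.pol)), .pol⟩,
 .two ⟨8000000, 109, 176000, -268800, 97920, 0, 250000, 300000, 300000, 450000⟩ ⟨0, .pol, .pol, .pol, .pol,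
 (.aff 1000000 0 0), .pol, (.pol), (.pol), .pol⟩ ⟨8000000, 109, 176000, -268800, 97920, 0, 250000, 300000,
 450000, 550000⟩ ⟨0, .pol, .pol, .pol, .pol, (.aff 1000000 0 0), .pol, (.pol), (.pol), .pol⟩, .one ⟨8000000,
 109, 176000, 90000, -99420, 0, 250000, 300000, 550000, 750000⟩ ⟨0, .pol, .pol, .pol, .pol, (.aff 1000000 0
 0), .pol, (.aff 1000000 0 0), (.pol), .pol⟩, .one ⟨8000000, 109, 176000, 132830, -131543, 0, 250000, 300000,
 750000, 909000⟩ ⟨0, .pol, .pol, .pol, .pol, (.aff 1000000 0 0), .pol, (.aff 1000000 0 0), (.pol), .pol⟩]⟩,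
 ⟨[.one ⟨4000000, 0, 572000, 17300, 0, 0, 0, 35000, 0, 400000⟩ ⟨35000, (.pol), (.pol), (.pol), (.pol), (.pol),
 (.pol), (.pol), (.pol), (.pol)⟩, .one ⟨4000000, 0, 572000, -72217, 35806, 0, 0, 35000, 400000, 585000⟩ ⟨0,
 .pol, .pol, .pol, .pol, (.sx 17500 (.sy 492500 (.pol) (.sx 8750 (.inf 8877581 112644) (.sy 538750 (.pol)
 (.inf 6542899 152838)))) (.pol)), .pol, (.pol), (.sx 17500 (.sy 492500 (.pol) (.sx 8750 (.inf 8877581 112644)
 (.sy 538750 (.pol) (.inf 6542899 152838)))) (.pol)), .pol⟩], [.one ⟨4000000, 0, 0, 133, 200, 0, 250000,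
 300000, 0, 300000⟩ ⟨0, .pol, .pol, .pol, .pol, (.pol), .pol, (.pol), (.pol), .pol⟩, .one ⟨4000000, 0, 0, 480,
 96, 0, 250000, 300000, 300000, 550000⟩ ⟨0, .pol, .pol, .pol, .pol, (.pol), .pol, (.pol), (.pol), .pol⟩, .one
 ⟨4000000, 0, 0, 400, 140, 0, 250000, 300000, 550000, 750000⟩ ⟨0, .pol, .pol, .pol, .pol, (.pol), .pol,
 (.pol), (.pol), .pol⟩, .one ⟨4000000, 0, 0, 503, 62, 0, 250000, 300000, 750000, 909000⟩ ⟨0, .pol, .pol, .pol,
 .pol, (.pol), .pol, (.pol), (.pol), .pol⟩]⟩, ⟨[.one ⟨8000000, 291, 4272000, 110600, 0, 0, 0, 35000, 0,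
 400000⟩ ⟨35000, (.aff 3162278 316228), (.pol), (.pol), (.pol), (.aff 0 2390458 418330), (.sx 17500 (.sx 8750
 (.sx 4375 (.sy 217500 (.aff 0 7596992 131632) (.sy 308750 (.aff 0 10967485 91179) (.aff 238000 13716000
 42334))) (.sy 217500 (.aff 0 4386126 227992) (.aff 250000 5144346 109344))) (.aff 250000 3053102 184239))
 (.aff 0 2878492 347405)), (.pol), (.sy 200000 (.pol) (.pol)), (.pol)⟩, .one ⟨8000000, 291, 4272000, -630487,
 296434, 0, 0, 35000, 400000, 585000⟩ ⟨0, .pol, .pol, .pol, .pol, (.aff 2100000 13606268 88930), .pol, (.pol),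
 (.pol), .pol⟩], [.one ⟨8000000, 291, 224000, 0, 116000, 0, 250000, 300000, 0, 300000⟩ ⟨0, .pol, .pol, .pol,
 .pol, (.sy 150000 (.sy 75000 (.aff 757000 62075 951253) (.aff 1000000 0 0)) (.aff 1000000 0 0)), .pol,
 (.pol), (.sy 150000 (.pol) (.pol)), .pol⟩, .two ⟨8000000, 291, 224000, -756160, 342848, 0, 250000, 300000,
 300000, 450000⟩ ⟨0, .pol, .pol, .pol, .pol, (.aff 1000000 0 0), .pol, (.pol), (.pol), .pol⟩ ⟨8000000, 291,
 224000, -756160, 342848, 0, 250000, 300000, 450000, 550000⟩ ⟨0, .pol, .pol, .pol, .pol, (.aff 1000000 0 0),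
 .pol, (.pol), (.pol), .pol⟩, .one ⟨8000000, 291, 224000, 259600, -215820, 0, 250000, 300000, 550000, 750000⟩
 ⟨0, .pol, .pol, .pol, .pol, (.aff 1000000 0 0), .pol, (.aff 1000000 0 0), (.pol), .pol⟩, .one ⟨8000000, 291,
 224000, 342641, -278102, 0, 250000, 300000, 750000, 909000⟩ ⟨0, .pol, .pol, .pol, .pol, (.aff 1000000 0 0),
 .pol, (.aff 1000000 0 0), (.pol), .pol⟩]⟩, ⟨[.one ⟨8000000, 491, 2952000, 231200, 0, 0, 0, 35000, 0, 400000⟩
 ⟨35000, (.aff 2000000 500000), (.pol), (.pol), (.pol), (.aff 250000 1792843 313748), (.sx 17500 (.sy 217500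
 (.aff 0 3798496 263263) (.sy 308750 (.aff 125000 4798275 159563) (.aff 250000 4772971 117852))) (.sy 217500
 (.aff 0 2193063 455984) (.aff 250000 2572173 218687))), (.pol), (.sy 200000 (.sy 100000 (.pol) (.pol))
 (.pol)), (.pol)⟩, .one ⟨8000000, 491, 2952000, -969082, 480112, 0, 0, 35000, 400000, 585000⟩ ⟨0, .pol, .pol,
 .pol, .pol, (.aff 2000000 6479523 154333), .pol, (.pol), (.pol), .pol⟩], [.one ⟨8000000, 491, 32000, 0,
 299280, 0, 250000, 300000, 0, 300000⟩ ⟨0, .pol, .pol, .pol, .pol, (.sy 150000 (.sy 75000 (.sx 275000 (.aff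
 1000000 0 0) (.sx 287500 (.aff 1000000 0 0) (.sx 293750 (.aff 750000 89803 695968) (.sy 37500 (.aff 756000
 60719 980517) (.aff 1000000 0 0))))) (.aff 1000000 0 0)) (.aff 1000000 0 0)), .pol, (.pol), (.sy 150000
 (.pol) (.pol)), .pol⟩, .two ⟨8000000, 491, 32000, -1316160, 694128, 0, 250000, 300000, 300000, 450000⟩ ⟨0,
 .pol, .pol, .pol, .pol, (.aff 1000000 0 0), .pol, (.pol), (.pol), .pol⟩ ⟨8000000, 491, 32000, -1316160,
 694128, 0, 250000, 300000, 450000, 550000⟩ ⟨0, .pol, .pol, .pol, .pol, (.aff 1000000 0 0), .pol, (.aff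
 1000000 0 0), (.pol), .pol⟩, .one ⟨8000000, 491, 32000, 486400, -297280, 0, 250000, 300000, 550000, 750000⟩
 ⟨0, .pol, .pol, .pol, .pol, (.aff 1000000 0 0), .pol, (.aff 1000000 0 0), (.pol), .pol⟩, .one ⟨8000000, 491,
 32000, 577106, -365311, 0, 250000, 300000, 750000, 909000⟩ ⟨0, .pol, .pol, .pol, .pol, (.aff 1000000 0 0),
 .pol, (.aff 1000000 0 0), (.pol), .pol⟩]⟩, ⟨[.one ⟨2016000, 63, 252000, 86788, 0, 0, 0, 35000, 0, 400000⟩
 ⟨35000, (.aff 1414214 707107), (.pol), (.pol), (.pol), (.aff 250000 1792843 313748), (.sy 217500 (.aff 0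
 2685943 372309) (.aff 375000 3712612 105216)), (.pol), (.sy 200000 (.pol) (.pol)), (.pol)⟩, .one ⟨2016000,
 63, 252000, 48057, 15492, 0, 0, 35000, 400000, 585000⟩ ⟨0, .pol, .pol, .pol, .pol, (.aff 1500000 2652493
 94251), .pol, (.pol), (.pol), .pol⟩], [.one ⟨2016000, 63, 60480, 21235, 25260, 0, 250000, 300000, 0, 300000⟩
 ⟨0, .pol, .pol, .pol, .pol, (.aff 1000000 0 0), .pol, (.pol), (.pol), .pol⟩, .one ⟨2016000, 63, 60480, 47174,
 17478, 0, 250000, 300000, 300000, 550000⟩ ⟨0, .pol, .pol, .pol, .pol, (.aff 1000000 0 0), .pol, (.pol),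
 (.pol), .pol⟩, .one ⟨2016000, 63, 60480, 62596, 8996, 0, 250000, 300000, 550000, 750000⟩ ⟨0, .pol, .pol,
 .pol, .pol, (.aff 1000000 0 0), .pol, (.pol), (.pol), .pol⟩, .one ⟨2016000, 63, 60480, 74046, 408, 0, 250000,
 300000, 750000, 909000⟩ ⟨0, .pol, .pol, .pol, .pol, (.aff 1000000 0 0), .pol, (.pol), (.pol), .pol⟩]⟩] = true
 := by decide +kernel

theorem II_xQ13 : PropII xQ13 := propII_of cQ13

theorem cQ14 : chkII xQ14 ⟨610000, 615000, 782622, 781027, 784221, 622492, 624504, 620487, 624499, 620483⟩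
 [⟨[.one ⟨8000000, 439, 4104000, 183200, 0, 0, 0, 35000, 0, 400000⟩ ⟨35000, (.aff 3162278 316228), (.pol),
 (.pol), (.pol), (.aff 0 2390458 418330), (.sx 17500 (.sy 217500 (.aff 0 5371885 186155) (.sy 308750 (.aff 0
 7755183 128947) (.aff 263000 8101565 67045))) (.aff 250000 2158869 260554)), (.pol), (.sy 200000 (.pol)
 (.pol)), (.pol)⟩, .one ⟨8000000, 439, 4104000, -659028, 336890, 0, 0, 35000, 400000, 585000⟩ ⟨0, .pol, .pol,
 .pol, .pol, (.aff 1500000 3751191 66646), .pol, (.pol), (.pol), .pol⟩], [.one ⟨8000000, 439, 160000, 0,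
 226240, 0, 250000, 300000, 0, 300000⟩ ⟨0, .pol, .pol, .pol, .pol, (.sy 150000 (.sy 75000 (.aff 775000 56058
 903083) (.aff 1000000 0 0)) (.aff 1000000 0 0)), .pol, (.pol), (.sy 150000 (.pol) (.pol)), .pol⟩, .two
 ⟨8000000, 439, 160000, -1167360, 576448, 0, 250000, 300000, 300000, 450000⟩ ⟨0, .pol, .pol, .pol, .pol, (.aff
 1000000 0 0), .pol, (.pol), (.pol), .pol⟩ ⟨8000000, 439, 160000, -1167360, 576448, 0, 250000, 300000, 450000,
 550000⟩ ⟨0, .pol, .pol, .pol, .pol, (.aff 1000000 0 0), .pol, (.aff 1000000 0 0), (.pol), .pol⟩, .one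
 ⟨8000000, 439, 160000, 440800, -308040, 0, 250000, 300000, 550000, 750000⟩ ⟨0, .pol, .pol, .pol, .pol, (.aff
 1000000 0 0), .pol, (.aff 1000000 0 0), (.pol), .pol⟩, .one ⟨8000000, 439, 160000, 523270, -369893, 0,
 250000, 300000, 750000, 909000⟩ ⟨0, .pol, .pol, .pol, .pol, (.aff 1000000 0 0), .pol, (.aff 1000000 0 0),
 (.pol), .pol⟩]⟩, ⟨[.one ⟨4000000, 0, 572000, 17300, 0, 0, 0, 35000, 0, 400000⟩ ⟨35000, (.pol), (.pol),
 (.pol), (.pol), (.pol), (.pol), (.pol), (.pol), (.pol)⟩, .one ⟨4000000, 0, 572000, -78487, 38314, 0, 0,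
 35000, 400000, 585000⟩ ⟨0, .pol, .pol, .pol, .pol, (.sx 17500 (.sy 492500 (.sx 8750 (.sy 446250 (.pol) (.sx
 4375 (.sy 469375 (.pol) (.inf 14827581 67442)) (.pol))) (.pol)) (.sx 8750 (.inf 11096976 90115) (.sy 538750
 (.pol) (.inf 6542899 152838)))) (.pol)), .pol, (.pol), (.sx 17500 (.sy 492500 (.sx 8750 (.sy 446250 (.pol)
 (.sx 4375 (.sy 469375 (.pol) (.inf 14827581 67442)) (.pol))) (.pol)) (.sx 8750 (.inf 11096976 90115) (.sy
 538750 (.pol) (.inf 6542899 152838)))) (.pol)), .pol⟩], [.one ⟨4000000, 0, 0, 133, 200, 0, 250000, 300000, 0,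
 300000⟩ ⟨0, .pol, .pol, .pol, .pol, (.pol), .pol, (.pol), (.pol), .pol⟩, .one ⟨4000000, 0, 0, 480, 96, 0,
 250000, 300000, 300000, 550000⟩ ⟨0, .pol, .pol, .pol, .pol, (.pol), .pol, (.pol), (.pol), .pol⟩, .one
 ⟨4000000, 0, 0, 400, 140, 0, 250000, 300000, 550000, 750000⟩ ⟨0, .pol, .pol, .pol, .pol, (.pol), .pol,
 (.pol), (.pol), .pol⟩, .one ⟨4000000, 0, 0, 503, 62, 0, 250000, 300000, 750000, 909000⟩ ⟨0, .pol, .pol, .pol,
 .pol, (.pol), .pol, (.pol), (.pol), .pol⟩]⟩, ⟨[.one ⟨2400000, 87, 1262400, 33720, 0, 0, 0, 35000, 0, 400000⟩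
 ⟨35000, (.aff 3162278 316228), (.pol), (.pol), (.pol), (.aff 0 2390458 418330), (.sx 17500 (.sx 8750 (.sx
 4375 (.sy 217500 (.aff 0 7596992 131632) (.sy 308750 (.aff 0 10967485 91179) (.aff 225000 12622482 47584)))
 (.sy 217500 (.aff 0 4386126 227992) (.aff 250000 5144346 109344))) (.aff 250000 3053102 184239)) (.aff 0
 2878492 347405)), (.pol), (.sy 200000 (.pol) (.pol)), (.pol)⟩, .one ⟨2400000, 87, 1262400, -201730, 94179, 0,
 0, 35000, 400000, 585000⟩ ⟨0, .pol, .pol, .pol, .pol, (.aff 2200000 13430684 107218), .pol, (.pol), (.pol),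
 .pol⟩], [.one ⟨2400000, 87, 40800, 0, 42120, 0, 250000, 300000, 0, 300000⟩ ⟨0, .pol, .pol, .pol, .pol, (.sy
 150000 (.sy 75000 (.aff 775000 56058 903083) (.aff 1000000 0 0)) (.aff 1000000 0 0)), .pol, (.pol), (.sy
 150000 (.pol) (.pol)), .pol⟩, .two ⟨2400000, 87, 40800, -229248, 110894, 0, 250000, 300000, 300000, 450000⟩
 ⟨0, .pol, .pol, .pol, .pol, (.aff 1000000 0 0), .pol, (.pol), (.pol), .pol⟩ ⟨2400000, 87, 40800, -229248,
 110894, 0, 250000, 300000, 450000, 550000⟩ ⟨0, .pol, .pol, .pol, .pol, (.aff 1000000 0 0), .pol, (.aff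
 1000000 0 0), (.pol), .pol⟩, .one ⟨2400000, 87, 40800, 85080, -61986, 0, 250000, 300000, 550000, 750000⟩ ⟨0,
 .pol, .pol, .pol, .pol, (.aff 1000000 0 0), .pol, (.aff 1000000 0 0), (.pol), .pol⟩, .one ⟨2400000, 87,
 40800, 103849, -76063, 0, 250000, 300000, 750000, 909000⟩ ⟨0, .pol, .pol, .pol, .pol, (.aff 1000000 0 0),
 .pol, (.aff 1000000 0 0), (.pol), .pol⟩]⟩, ⟨[.one ⟨8000000, 491, 2952000, 234800, 0, 0, 0, 35000, 0, 400000⟩
 ⟨35000, (.aff 2000000 500000), (.pol), (.pol), (.pol), (.aff 250000 1792843 313748), (.sx 17500 (.sy 217500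
 (.aff 0 3798496 263263) (.sy 308750 (.aff 125000 4798275 159563) (.aff 250000 4772971 117852))) (.sy 217500
 (.aff 0 2193063 455984) (.aff 250000 2572173 218687))), (.pol), (.sy 200000 (.sy 100000 (.pol) (.pol))
 (.pol)), (.pol)⟩, .one ⟨8000000, 491, 2952000, -1019244, 501617, 0, 0, 35000, 400000, 585000⟩ ⟨0, .pol, .pol,
 .pol, .pol, (.aff 2000000 6479523 154333), .pol, (.pol), (.pol), .pol⟩], [.one ⟨8000000, 491, 32000, 0,
 297040, 0, 250000, 300000, 0, 300000⟩ ⟨0, .pol, .pol, .pol, .pol, (.sy 150000 (.sy 75000 (.aff 775000 56058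
 903083) (.aff 1000000 0 0)) (.aff 1000000 0 0)), .pol, (.pol), (.sy 150000 (.pol) (.pol)), .pol⟩, .two
 ⟨8000000, 491, 32000, -1305920, 688816, 0, 250000, 300000, 300000, 450000⟩ ⟨0, .pol, .pol, .pol, .pol, (.aff
 1000000 0 0), .pol, (.pol), (.pol), .pol⟩ ⟨8000000, 491, 32000, -1305920, 688816, 0, 250000, 300000, 450000,
 550000⟩ ⟨0, .pol, .pol, .pol, .pol, (.aff 1000000 0 0), .pol, (.aff 1000000 0 0), (.pol), .pol⟩, .one
 ⟨8000000, 491, 32000, 493200, -300700, 0, 250000, 300000, 550000, 750000⟩ ⟨0, .pol, .pol, .pol, .pol, (.aff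
 1000000 0 0), .pol, (.aff 1000000 0 0), (.pol), .pol⟩, .one ⟨8000000, 491, 32000, 585157, -369668, 0, 250000,
 300000, 750000, 909000⟩ ⟨0, .pol, .pol, .pol, .pol, (.aff 1000000 0 0), .pol, (.aff 1000000 0 0), (.pol),
 .pol⟩]⟩, ⟨[.one ⟨2016000, 63, 252000, 86788, 0, 0, 0, 35000, 0, 400000⟩ ⟨35000, (.aff 1414214 707107),
 (.pol), (.pol), (.pol), (.aff 250000 1792843 313748), (.sy 217500 (.aff 0 2685943 372309) (.aff 375000
 3712612 105216)), (.pol), (.sy 200000 (.pol) (.pol)), (.pol)⟩, .one ⟨2016000, 63, 252000, 45550, 16495, 0, 0,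
 35000, 400000, 585000⟩ ⟨0, .pol, .pol, .pol, .pol, (.aff 1500000 2652493 94251), .pol, (.pol), (.pol),
 .pol⟩], [.one ⟨2016000, 63, 60480, 21504, 25058, 0, 250000, 300000, 0, 300000⟩ ⟨0, .pol, .pol, .pol, .pol,
 (.aff 1000000 0 0), .pol, (.pol), (.pol), .pol⟩, .one ⟨2016000, 63, 60480, 47819, 17164, 0, 250000, 300000,
 300000, 550000⟩ ⟨0, .pol, .pol, .pol, .pol, (.aff 1000000 0 0), .pol, (.pol), (.pol), .pol⟩, .one ⟨2016000,
 63, 60480, 63403, 8593, 0, 250000, 300000, 550000, 750000⟩ ⟨0, .pol, .pol, .pol, .pol, (.aff 1000000 0 0),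
 .pol, (.pol), (.pol), .pol⟩, .one ⟨2016000, 63, 60480, 75187, -246, 0, 250000, 300000, 750000, 909000⟩ ⟨0,
 .pol, .pol, .pol, .pol, (.aff 1000000 0 0), .pol, (.pol), (.pol), .pol⟩]⟩] = true := by decide +kernel

theorem II_xQ14 : PropII xQ14 := propII_of cQ14

theorem cQ15 : chkII xQ15 ⟨615000, 620000, 785810, 784221, 787403, 618463, 620487, 616445, 620483, 616441⟩
 [⟨[.one ⟨4000000, 219, 1980000, 93600, 0, 0, 0, 40000, 0, 400000⟩ ⟨20000, (.aff 3162278 316228), (.pol),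
 (.pol), (.pol), (.aff 250000 1936492 290474), (.sy 210000 (.aff 0 4795832 208515) (.sy 305000 (.aff 0 7176351
 139347) (.aff 250000 7691566 73133))), (.pol), (.sy 200000 (.sy 100000 (.pol) (.pol)) (.pol)), (.pol)⟩, .one
 ⟨4000000, 219, 1980000, -372325, 186369, 0, 0, 40000, 400000, 585000⟩ ⟨0, .pol, .pol, .pol, .pol, (.aff
 1500000 3508918 71248), .pol, (.pol), (.pol), .pol⟩], [.one ⟨4000000, 219, 92000, 0, 107760, 0, 250000,
 300000, 0, 300000⟩ ⟨0, .pol, .pol, .pol, .pol, (.sy 150000 (.sy 75000 (.sx 275000 (.aff 1000000 0 0) (.sx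
 287500 (.aff 1000000 0 0) (.sy 37500 (.aff 775000 51712 978980) (.aff 1000000 0 0)))) (.aff 1000000 0 0))
 (.aff 1000000 0 0)), .pol, (.pol), (.sy 150000 (.pol) (.pol)), .pol⟩, .two ⟨4000000, 219, 92000, -573120,
 279696, 0, 250000, 300000, 300000, 450000⟩ ⟨0, .pol, .pol, .pol, .pol, (.aff 1000000 0 0), .pol, (.pol),
 (.pol), .pol⟩ ⟨4000000, 219, 92000, -573120, 279696, 0, 250000, 300000, 450000, 550000⟩ ⟨0, .pol, .pol, .pol,
 .pol, (.aff 1000000 0 0), .pol, (.aff 1000000 0 0), (.pol), .pol⟩, .one ⟨4000000, 219, 92000, 219200,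
 -156080, 0, 250000, 300000, 550000, 750000⟩ ⟨0, .pol, .pol, .pol, .pol, (.aff 1000000 0 0), .pol, (.aff
 1000000 0 0), (.pol), .pol⟩, .one ⟨4000000, 219, 92000, 264402, -189982, 0, 250000, 300000, 750000, 909000⟩
 ⟨0, .pol, .pol, .pol, .pol, (.aff 1000000 0 0), .pol, (.aff 1000000 0 0), (.pol), .pol⟩]⟩, ⟨[.one ⟨4000000,
 0, 572000, 17300, 0, 0, 0, 40000, 0, 400000⟩ ⟨40000, (.pol), (.pol), (.pol), (.pol), (.pol), (.pol), (.pol),
 (.pol), (.pol)⟩, .one ⟨4000000, 0, 572000, -84973, 40909, 0, 0, 40000, 400000, 585000⟩ ⟨0, .pol, .pol, .pol,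
 .pol, (.sx 20000 (.sy 492500 (.sx 10000 (.sy 446250 (.pol) (.sx 5000 (.sy 469375 (.pol) (.inf 13869932
 72099)) (.pol))) (.pol)) (.sx 10000 (.inf 8304216 120421) (.sy 538750 (.pol) (.inf 6120322 163391))))
 (.pol)), .pol, (.pol), (.sx 20000 (.sy 492500 (.sx 10000 (.sy 446250 (.pol) (.sx 5000 (.sy 469375 (.pol)
 (.inf 13869932 72099)) (.pol))) (.pol)) (.sx 10000 (.inf 8304216 120421) (.sy 538750 (.pol) (.inf 6120322
 163391)))) (.pol)), .pol⟩], [.one ⟨4000000, 0, 0, 133, 200, 0, 250000, 300000, 0, 300000⟩ ⟨0, .pol, .pol,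
 .pol, .pol, (.pol), .pol, (.pol), (.pol), .pol⟩, .one ⟨4000000, 0, 0, 480, 96, 0, 250000, 300000, 300000,
 550000⟩ ⟨0, .pol, .pol, .pol, .pol, (.pol), .pol, (.pol), (.pol), .pol⟩, .one ⟨4000000, 0, 0, 400, 140, 0,
 250000, 300000, 550000, 750000⟩ ⟨0, .pol, .pol, .pol, .pol, (.pol), .pol, (.pol), (.pol), .pol⟩, .one
 ⟨4000000, 0, 0, 503, 62, 0, 250000, 300000, 750000, 909000⟩ ⟨0, .pol, .pol, .pol, .pol, (.pol), .pol, (.pol),
 (.pol), .pol⟩]⟩, ⟨[.one ⟨8000000, 289, 4064000, 114800, 0, 0, 0, 40000, 0, 400000⟩ ⟨10000, (.aff 3162278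
 316228), (.pol), (.pol), (.pol), (.aff 250000 2121321 265165), (.sx 5000 (.sy 205000 (.aff 0 6557439 152499)
 (.sy 302500 (.aff 0 10074721 99259) (.aff 238000 12773448 45458))) (.sy 205000 (.aff 0 3785939 264136) (.aff
 250000 4763140 118095))), (.pol), (.sy 200000 (.sy 100000 (.pol) (.pol)) (.pol)), (.pol)⟩, .one ⟨8000000,
 289, 4064000, -721298, 334438, 0, 0, 40000, 400000, 585000⟩ ⟨0, .pol, .pol, .pol, .pol, (.aff 2400000
 12000244 163331), .pol, (.pol), (.pol), .pol⟩], [.one ⟨8000000, 289, 72000, 0, 157120, 0, 250000, 300000, 0,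
 300000⟩ ⟨0, .pol, .pol, .pol, .pol, (.sy 150000 (.sy 75000 (.sx 275000 (.aff 1000000 0 0) (.sx 287500 (.aff
 1000000 0 0) (.sy 37500 (.aff 775000 51712 978980) (.aff 1000000 0 0)))) (.aff 1000000 0 0)) (.aff 1000000 0
 0)), .pol, (.pol), (.sy 150000 (.pol) (.pol)), .pol⟩, .two ⟨8000000, 289, 72000, -759680, 385024, 0, 250000,
 300000, 300000, 450000⟩ ⟨0, .pol, .pol, .pol, .pol, (.aff 1000000 0 0), .pol, (.pol), (.pol), .pol⟩ ⟨8000000,
 289, 72000, -759680, 385024, 0, 250000, 300000, 450000, 550000⟩ ⟨0, .pol, .pol, .pol, .pol, (.aff 1000000 0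
 0), .pol, (.aff 1000000 0 0), (.pol), .pol⟩, .one ⟨8000000, 289, 72000, 294800, -194940, 0, 250000, 300000,
 550000, 750000⟩ ⟨0, .pol, .pol, .pol, .pol, (.aff 1000000 0 0), .pol, (.aff 1000000 0 0), (.pol), .pol⟩, .one
 ⟨8000000, 289, 72000, 349182, -235727, 0, 250000, 300000, 750000, 909000⟩ ⟨0, .pol, .pol, .pol, .pol, (.aff
 1000000 0 0), .pol, (.aff 1000000 0 0), (.pol), .pol⟩]⟩, ⟨[.one ⟨3200000, 198, 499200, 167520, 0, 0, 0,
 40000, 0, 400000⟩ ⟨40000, (.aff 1414214 707107), (.aff 707107 1414214), (.pol), (.pol), (.sy 200000 (.sy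
 100000 (.aff 0 1118034 894428) (.aff 0 1936492 516398)) (.aff 1000000 0 0)), (.sy 220000 (.aff 0 1631219
 613039) (.aff 500000 1968502 127001)), (.pol), (.sy 200000 (.sy 100000 (.pol) (.pol)) (.pol)), (.pol)⟩, .one
 ⟨3200000, 198, 499200, -498682, 266480, 0, 0, 40000, 400000, 585000⟩ ⟨0, .pol, .pol, .pol, .pol, (.aff
 2000000 4962359 201518), .pol, (.pol), (.pol), .pol⟩], [.one ⟨3200000, 198, 41600, 0, 109888, 0, 250000,
 300000, 0, 300000⟩ ⟨0, .pol, .pol, .pol, .pol, (.sy 150000 (.sy 75000 (.sx 275000 (.aff 1000000 0 0) (.sx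
 287500 (.aff 1000000 0 0) (.sy 37500 (.aff 775000 51712 978980) (.aff 1000000 0 0)))) (.aff 1000000 0 0))
 (.aff 1000000 0 0)), .pol, (.pol), (.sy 150000 (.pol) (.pol)), .pol⟩, .two ⟨3200000, 198, 41600, -521088,
 266214, 0, 250000, 300000, 300000, 450000⟩ ⟨0, .pol, .pol, .pol, .pol, (.aff 1000000 0 0), .pol, (.pol),
 (.pol), .pol⟩ ⟨3200000, 198, 41600, -521088, 266214, 0, 250000, 300000, 450000, 550000⟩ ⟨0, .pol, .pol, .pol,
 .pol, (.aff 1000000 0 0), .pol, (.aff 1000000 0 0), (.pol), .pol⟩, .one ⟨3200000, 198, 41600, 201760,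
 -131352, 0, 250000, 300000, 550000, 750000⟩ ⟨0, .pol, .pol, .pol, .pol, (.aff 1000000 0 0), .pol, (.aff
 1000000 0 0), (.pol), .pol⟩, .one ⟨3200000, 198, 41600, 238893, -159202, 0, 250000, 300000, 750000, 909000⟩
 ⟨0, .pol, .pol, .pol, .pol, (.aff 1000000 0 0), .pol, (.aff 1000000 0 0), (.pol), .pol⟩]⟩, ⟨[.one ⟨2016000,
 63, 252000, 86788, 0, 0, 0, 40000, 0, 400000⟩ ⟨40000, (.aff 1414214 707107), (.pol), (.pol), (.pol), (.aff
 250000 1677051 335411), (.sy 220000 (.aff 0 2549510 392233) (.aff 475000 3570254 77201)), (.pol), (.sy 200000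
 (.pol) (.pol)), (.pol)⟩, .one ⟨2016000, 63, 252000, 43044, 17497, 0, 0, 40000, 400000, 585000⟩ ⟨0, .pol,
 .pol, .pol, .pol, (.aff 1500000 3508918 71248), .pol, (.pol), (.pol), .pol⟩], [.one ⟨2016000, 63, 60480,
 21705, 24877, 0, 250000, 300000, 0, 300000⟩ ⟨0, .pol, .pol, .pol, .pol, (.aff 1000000 0 0), .pol, (.pol),
 (.pol), .pol⟩, .one ⟨2016000, 63, 60480, 48464, 16849, 0, 250000, 300000, 300000, 550000⟩ ⟨0, .pol, .pol,
 .pol, .pol, (.aff 1000000 0 0), .pol, (.pol), (.pol), .pol⟩, .one ⟨2016000, 63, 60480, 64310, 8134, 0,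
 250000, 300000, 550000, 750000⟩ ⟨0, .pol, .pol, .pol, .pol, (.aff 1000000 0 0), .pol, (.pol), (.pol), .pol⟩,
 .one ⟨2016000, 63, 60480, 76075, -690, 0, 250000, 300000, 750000, 909000⟩ ⟨0, .pol, .pol, .pol, .pol, (.aff
 1000000 0 0), .pol, (.pol), (.pol), .pol⟩]⟩] = true := by decide +kernel

theorem II_xQ15 : PropII xQ15 := propII_of cQ15

theorem cQ16 : chkII xQ16 ⟨620000, 625000, 788985, 787403, 790572, 614407, 616445, 612376, 616441, 612372⟩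
 [⟨[.one ⟨2008000, 753, 4437680, 365033, 0, 0, 0, 45000, 0, 380000⟩ ⟨22500, (.aff 2000000 500000), (.pol),
 (.pol), (.pol), (.sy 190000 (.aff 0 1677741 596040) (.aff 500000 1452967 172062)), (.sy 201250 (.aff 0
 4459697 224231) (.sy 290625 (.aff 50000 4698820 192070) (.aff 275000 5064916 103778))), (.pol), (.sy 190000
 (.sy 95000 (.pol) (.pol)) (.pol)), (.pol)⟩, .one ⟨2008000, 753, 4437680, -1426292, 680703, 0, 0, 45000,
 380000, 610000⟩ ⟨0, .pol, .pol, .pol, .pol, (.sy 495000 (.aff 1825000 6283848 108314) (.aff 1900000 6307139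
 128426)), .pol, (.pol), (.pol), .pol⟩], [.one ⟨2008000, 753, 188752, 0, 405053, 0, 250000, 300000, 0, 300000⟩
 ⟨0, .pol, .pol, .pol, .pol, (.sy 150000 (.sy 75000 (.sy 37500 (.sx 275000 (.aff 1000000 0 0) (.aff 775000
 52567 963057)) (.aff 1000000 0 0)) (.aff 1000000 0 0)) (.aff 1000000 0 0)), .pol, (.pol), (.sy 150000 (.pol)
 (.pol)), .pol⟩, .two ⟨2008000, 753, 188752, -1968965, 995743, 0, 250000, 300000, 300000, 450000⟩ ⟨0, .pol,
 .pol, .pol, .pol, (.aff 1000000 0 0), .pol, (.pol), (.pol), .pol⟩ ⟨2008000, 753, 188752, -1968965, 995743, 0,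
 250000, 300000, 450000, 550000⟩ ⟨0, .pol, .pol, .pol, .pol, (.aff 1000000 0 0), .pol, (.aff 1000000 0 0),
 (.pol), .pol⟩, .one ⟨2008000, 753, 188752, 776794, -514425, 0, 250000, 300000, 550000, 750000⟩ ⟨0, .pol,
 .pol, .pol, .pol, (.aff 1000000 0 0), .pol, (.aff 1000000 0 0), (.pol), .pol⟩, .one ⟨2008000, 753, 188752,
 919582, -621515, 0, 250000, 300000, 750000, 897000⟩ ⟨0, .pol, .pol, .pol, .pol, (.aff 1000000 0 0), .pol,
 (.aff 1000000 0 0), (.pol), .pol⟩]⟩, ⟨[.one ⟨4000000, 0, 572000, 18210, 0, 0, 0, 45000, 0, 380000⟩ ⟨45000,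
 (.pol), (.pol), (.pol), (.pol), (.pol), (.pol), (.pol), (.pol), (.pol)⟩, .one ⟨4000000, 0, 572000, -78087,
 36593, 0, 0, 45000, 380000, 610000⟩ ⟨0, .pol, .pol, .pol, .pol, (.sx 22500 (.sy 495000 (.sx 11250 (.sy 437500
 (.pol) (.sx 5625 (.sy 466250 (.pol) (.inf 13072448 76497)) (.pol))) (.pol)) (.sx 11250 (.inf 7928570 126127)
 (.sy 552500 (.sx 16875 (.sy 523750 (.pol) (.inf 6186006 161656)) (.pol)) (.inf 5868939 170389)))) (.pol)),
 .pol, (.pol), (.sx 22500 (.sy 495000 (.sx 11250 (.sy 437500 (.pol) (.sx 5625 (.sy 466250 (.pol) (.inf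
 13072448 76497)) (.pol))) (.pol)) (.sx 11250 (.inf 7928570 126127) (.sy 552500 (.sx 16875 (.sy 523750 (.pol)
 (.inf 6186006 161656)) (.pol)) (.inf 5868939 170389)))) (.pol)), .pol⟩], [.one ⟨4000000, 0, 0, 133, 200, 0,
 250000, 300000, 0, 300000⟩ ⟨0, .pol, .pol, .pol, .pol, (.pol), .pol, (.pol), (.pol), .pol⟩, .one ⟨4000000, 0,
 0, 480, 96, 0, 250000, 300000, 300000, 550000⟩ ⟨0, .pol, .pol, .pol, .pol, (.pol), .pol, (.pol), (.pol),
 .pol⟩, .one ⟨4000000, 0, 0, 400, 140, 0, 250000, 300000, 550000, 750000⟩ ⟨0, .pol, .pol, .pol, .pol, (.pol),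
 .pol, (.pol), (.pol), .pol⟩, .one ⟨4000000, 0, 0, 272, 235, 0, 250000, 300000, 750000, 897000⟩ ⟨0, .pol,
 .pol, .pol, .pol, (.pol), .pol, (.pol), (.pol), .pol⟩]⟩, ⟨[.one ⟨3000000, 111, 1449000, 45315, 0, 0, 0,
 45000, 0, 380000⟩ ⟨4500, (.aff 3162278 316228), (.pol), (.pol), (.pol), (.sy 190000 (.aff 0 2548672 392362)
 (.aff 250000 4939166 113886)), (.sy 192250 (.aff 0 6612279 151234) (.sy 286125 (.aff 0 10310459 96989) (.aff
 200000 11269839 56789))), (.pol), (.sy 190000 (.sx 24750 (.sy 95000 (.sy 47500 (.pol) (.pol)) (.pol)) (.pol))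
 (.pol)), (.pol)⟩, .one ⟨3000000, 111, 1449000, -205827, 95433, 0, 0, 45000, 380000, 610000⟩ ⟨0, .pol, .pol,
 .pol, .pol, (.sy 495000 (.aff 1900000 12490818 64848) (.aff 3000000 9910713 403604)), .pol, (.pol), (.pol),
 .pol⟩], [.one ⟨3000000, 111, 0, 0, 68160, 0, 250000, 300000, 0, 300000⟩ ⟨0, .pol, .pol, .pol, .pol, (.sy
 150000 (.sy 75000 (.sy 37500 (.aff 751000 65019 953583) (.aff 1000000 0 0)) (.aff 1000000 0 0)) (.aff 1000000
 0 0)), .pol, (.pol), (.sy 150000 (.pol) (.pol)), .pol⟩, .two ⟨3000000, 111, 0, -289680, 155064, 0, 250000,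
 300000, 300000, 450000⟩ ⟨0, .pol, .pol, .pol, .pol, (.aff 1000000 0 0), .pol, (.pol), (.pol), .pol⟩ ⟨3000000,
 111, 0, -289680, 155064, 0, 250000, 300000, 450000, 550000⟩ ⟨0, .pol, .pol, .pol, .pol, (.aff 1000000 0 0),
 .pol, (.aff 1000000 0 0), (.pol), .pol⟩, .one ⟨3000000, 111, 0, 114750, -67373, 0, 250000, 300000, 550000,
 750000⟩ ⟨0, .pol, .pol, .pol, .pol, (.aff 1000000 0 0), .pol, (.aff 1000000 0 0), (.pol), .pol⟩, .one
 ⟨3000000, 111, 0, 135918, -83249, 0, 250000, 300000, 750000, 897000⟩ ⟨0, .pol, .pol, .pol, .pol, (.aff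
 1000000 0 0), .pol, (.aff 1000000 0 0), (.pol), .pol⟩]⟩, ⟨[.one ⟨3200000, 198, 499200, 173052, 0, 0, 0,
 45000, 0, 380000⟩ ⟨45000, (.aff 1414214 707107), (.aff 707107 1414214), (.pol), (.pol), (.sy 190000 (.sy
 95000 (.aff 0 1027403 973328) (.aff 0 1779514 561952)) (.aff 1000000 0 0)), (.sy 212500 (.aff 0 1691482
 591198) (.aff 500000 1814296 137795)), (.pol), (.sy 190000 (.sy 95000 (.pol) (.pol)) (.pol)), (.pol)⟩, .one
 ⟨3200000, 198, 499200, -448974, 236370, 0, 0, 45000, 380000, 610000⟩ ⟨0, .pol, .pol, .pol, .pol, (.aff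
 2000000 4690416 213201), .pol, (.pol), (.pol), .pol⟩], [.one ⟨3200000, 198, 41600, 0, 109024, 0, 250000,
 300000, 0, 300000⟩ ⟨0, .pol, .pol, .pol, .pol, (.sy 150000 (.sy 75000 (.sy 37500 (.sx 275000 (.aff 1000000 0
 0) (.aff 775000 55262 916091)) (.aff 1000000 0 0)) (.aff 1000000 0 0)) (.aff 1000000 0 0)), .pol, (.pol),
 (.sy 150000 (.pol) (.pol)), .pol⟩, .two ⟨3200000, 198, 41600, -517248, 264198, 0, 250000, 300000, 300000,
 450000⟩ ⟨0, .pol, .pol, .pol, .pol, (.aff 1000000 0 0), .pol, (.pol), (.pol), .pol⟩ ⟨3200000, 198, 41600,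
 -517248, 264198, 0, 250000, 300000, 450000, 550000⟩ ⟨0, .pol, .pol, .pol, .pol, (.aff 1000000 0 0), .pol,
 (.aff 1000000 0 0), (.pol), .pol⟩, .one ⟨3200000, 198, 41600, 204640, -132840, 0, 250000, 300000, 550000,
 750000⟩ ⟨0, .pol, .pol, .pol, .pol, (.aff 1000000 0 0), .pol, (.aff 1000000 0 0), (.pol), .pol⟩, .one
 ⟨3200000, 198, 41600, 242068, -160912, 0, 250000, 300000, 750000, 897000⟩ ⟨0, .pol, .pol, .pol, .pol, (.aff
 1000000 0 0), .pol, (.aff 1000000 0 0), (.pol), .pol⟩]⟩, ⟨[.one ⟨2016000, 63, 252000, 87006, 0, 0, 0, 45000,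
 0, 380000⟩ ⟨45000, (.aff 1414214 707107), (.pol), (.pol), (.pol), (.aff 500000 1027403 243332), (.sy 212500
 (.aff 0 2392117 418040) (.aff 375000 3207251 121795)), (.pol), (.sy 190000 (.pol) (.pol)), (.pol)⟩, .one
 ⟨2016000, 63, 252000, 48208, 14743, 0, 0, 45000, 380000, 610000⟩ ⟨0, .pol, .pol, .pol, .pol, (.aff 1500000
 3316625 75378), .pol, (.pol), (.pol), .pol⟩], [.one ⟨2016000, 63, 60480, 21907, 24696, 0, 250000, 300000, 0,
 300000⟩ ⟨0, .pol, .pol, .pol, .pol, (.aff 1000000 0 0), .pol, (.pol), (.pol), .pol⟩, .one ⟨2016000, 63,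
 60480, 49109, 16535, 0, 250000, 300000, 300000, 550000⟩ ⟨0, .pol, .pol, .pol, .pol, (.aff 1000000 0 0), .pol,
 (.pol), (.pol), .pol⟩, .one ⟨2016000, 63, 60480, 65116, 7731, 0, 250000, 300000, 550000, 750000⟩ ⟨0, .pol,
 .pol, .pol, .pol, (.aff 1000000 0 0), .pol, (.pol), (.pol), .pol⟩, .one ⟨2016000, 63, 60480, 77074, -1237, 0,
 250000, 300000, 750000, 897000⟩ ⟨0, .pol, .pol, .pol, .pol, (.aff 1000000 0 0), .pol, (.pol), (.pol),
 .pol⟩]⟩] = true := by decide +kernel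

theorem II_xQ16 : PropII xQ16 := propII_of cQ16

theorem cQ17 : chkII xQ17 ⟨625000, 630000, 792147, 790571, 793727, 610324, 612376, 608280, 612372, 608276⟩
 [⟨[.one ⟨2008000, 753, 4228848, 376447, 0, 0, 0, 50000, 0, 380000⟩ ⟨50000, (.aff 3162278 316228), (.pol),
 (.pol), (.pol), (.aff 500000 974680 256495), (.sx 25000 (.sy 215000 (.aff 0 4604346 217187) (.sx 12500 (.sy
 297500 (.aff 138000 4506648 164878) (.aff 250000 4508326 124770)) (.sy 297500 (.aff 175000 3340996 203720)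
 (.aff 1000000 0 0)))) (.sy 215000 (.aff 0 1879717 531995) (.aff 1000000 0 0))), (.pol), (.sy 190000 (.pol)
 (.pol)), (.pol)⟩, .one ⟨2008000, 753, 4228848, -1464094, 699405, 0, 0, 50000, 380000, 610000⟩ ⟨0, .pol, .pol,
 .pol, .pol, (.sy 495000 (.sy 437500 (.aff 1900000 6286014 128858) (.aff 2000000 6107373 163737)) (.aff
 1900000 5983478 135373)), .pol, (.pol), (.pol), .pol⟩], [.one ⟨2008000, 753, 154616, 0, 410354, 0, 250000,
 300000, 0, 300000⟩ ⟨0, .pol, .pol, .pol, .pol, (.sy 150000 (.sy 75000 (.sy 37500 (.sx 275000 (.aff 1000000 0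
 0) (.aff 800000 40218 994580)) (.aff 1000000 0 0)) (.aff 1000000 0 0)) (.aff 1000000 0 0)), .pol, (.pol),
 (.sy 150000 (.pol) (.pol)), .pol⟩, .two ⟨2008000, 753, 154616, -1947520, 994610, 0, 250000, 300000, 300000,
 450000⟩ ⟨0, .pol, .pol, .pol, .pol, (.aff 1000000 0 0), .pol, (.pol), (.pol), .pol⟩ ⟨2008000, 753, 154616,
 -1947520, 994610, 0, 250000, 300000, 450000, 550000⟩ ⟨0, .pol, .pol, .pol, .pol, (.aff 1000000 0 0), .pol,
 (.aff 1000000 0 0), (.pol), .pol⟩, .one ⟨2008000, 753, 154616, 787236, -509505, 0, 250000, 300000, 550000,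
 750000⟩ ⟨0, .pol, .pol, .pol, .pol, (.aff 1000000 0 0), .pol, (.aff 1000000 0 0), (.pol), .pol⟩, .one
 ⟨2008000, 753, 154616, 931329, -617575, 0, 250000, 300000, 750000, 897000⟩ ⟨0, .pol, .pol, .pol, .pol, (.aff
 1000000 0 0), .pol, (.aff 1000000 0 0), (.pol), .pol⟩]⟩, ⟨[.one ⟨4000000, 0, 572000, 18210, 0, 0, 0, 50000,
 0, 380000⟩ ⟨50000, (.pol), (.pol), (.pol), (.pol), (.pol), (.pol), (.pol), (.pol), (.pol)⟩, .one ⟨4000000, 0,
 572000, -84174, 38906, 0, 0, 50000, 380000, 610000⟩ ⟨0, .pol, .pol, .pol, .pol, (.sx 25000 (.sy 495000 (.sx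
 12500 (.sy 437500 (.pol) (.sx 6250 (.sy 466250 (.sx 3125 (.inf 17005882 58804) (.pol)) (.inf 12401613 80635))
 (.pol))) (.pol)) (.sx 12500 (.inf 7521702 132949) (.sy 552500 (.sx 18750 (.sy 523750 (.pol) (.inf 5868561
 170400)) (.pol)) (.inf 5567765 179606)))) (.pol)), .pol, (.pol), (.sx 25000 (.sy 495000 (.sx 12500 (.sy
 437500 (.pol) (.sx 6250 (.sy 466250 (.sx 3125 (.inf 17005882 58804) (.pol)) (.inf 12401613 80635)) (.pol)))
 (.pol)) (.sx 12500 (.inf 7521702 132949) (.sy 552500 (.sx 18750 (.sy 523750 (.pol) (.inf 5868561 170400))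
 (.pol)) (.inf 5567765 179606)))) (.pol)), .pol⟩], [.one ⟨4000000, 0, 0, 133, 200, 0, 250000, 300000, 0,
 300000⟩ ⟨0, .pol, .pol, .pol, .pol, (.pol), .pol, (.pol), (.pol), .pol⟩, .one ⟨4000000, 0, 0, 480, 96, 0,
 250000, 300000, 300000, 550000⟩ ⟨0, .pol, .pol, .pol, .pol, (.pol), .pol, (.pol), (.pol), .pol⟩, .one
 ⟨4000000, 0, 0, 400, 140, 0, 250000, 300000, 550000, 750000⟩ ⟨0, .pol, .pol, .pol, .pol, (.pol), .pol,
 (.pol), (.pol), .pol⟩, .one ⟨4000000, 0, 0, 272, 235, 0, 250000, 300000, 750000, 897000⟩ ⟨0, .pol, .pol,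
 .pol, .pol, (.pol), .pol, (.pol), (.pol), .pol⟩]⟩, ⟨[.one ⟨3200000, 118, 1536000, 49094, 0, 0, 0, 50000, 0,
 380000⟩ ⟨25000, (.aff 3162278 316228), (.pol), (.pol), (.pol), (.aff 0 2250926 444262), (.sx 12500 (.sx 6250
 (.sy 202500 (.aff 0 6033242 165749) (.sy 291250 (.aff 0 8888195 112509) (.aff 238000 11740507 49457))) (.aff
 125000 5441072 140713)) (.aff 0 3286336 304291)), (.pol), (.sy 190000 (.pol) (.pol)), (.pol)⟩, .one ⟨3200000,
 118, 1536000, -230679, 106313, 0, 0, 50000, 380000, 610000⟩ ⟨0, .pol, .pol, .pol, .pol, (.aff 2000000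
 11466326 87212), .pol, (.pol), (.pol), .pol⟩], [.one ⟨3200000, 118, 54400, 0, 55360, 0, 250000, 300000, 0,
 300000⟩ ⟨0, .pol, .pol, .pol, .pol, (.sy 150000 (.sy 75000 (.sy 37500 (.sx 275000 (.aff 1000000 0 0) (.aff
 800000 42280 946074)) (.aff 1000000 0 0)) (.aff 1000000 0 0)) (.aff 1000000 0 0)), .pol, (.pol), (.sy 150000
 (.pol) (.pol)), .pol⟩, .two ⟨3200000, 118, 54400, -301568, 145830, 0, 250000, 300000, 300000, 450000⟩ ⟨0,
 .pol, .pol, .pol, .pol, (.aff 1000000 0 0), .pol, (.pol), (.pol), .pol⟩ ⟨3200000, 118, 54400, -301568,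
 145830, 0, 250000, 300000, 450000, 550000⟩ ⟨0, .pol, .pol, .pol, .pol, (.aff 1000000 0 0), .pol, (.pol),
 (.pol), .pol⟩, .one ⟨3200000, 118, 54400, 119840, -85944, 0, 250000, 300000, 550000, 750000⟩ ⟨0, .pol, .pol,
 .pol, .pol, (.aff 1000000 0 0), .pol, (.aff 1000000 0 0), (.pol), .pol⟩, .one ⟨3200000, 118, 54400, 146285,
 -105779, 0, 250000, 300000, 750000, 897000⟩ ⟨0, .pol, .pol, .pol, .pol, (.aff 1000000 0 0), .pol, (.aff
 1000000 0 0), (.pol), .pol⟩]⟩, ⟨[.one ⟨3200000, 198, 499200, 177600, 0, 0, 0, 50000, 0, 380000⟩ ⟨50000, (.aff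
 1414214 707107), (.aff 707107 1414214), (.pol), (.pol), (.sy 190000 (.sy 95000 (.aff 0 974680 1025978) (.aff
 0 1688195 592349)) (.aff 1000000 0 0)), (.sy 215000 (.aff 0 1627883 614295) (.aff 500000 1724819 144943)),
 (.pol), (.sy 190000 (.pol) (.pol)), (.pol)⟩, .one ⟨3200000, 198, 499200, -460383, 242433, 0, 0, 50000,
 380000, 610000⟩ ⟨0, .pol, .pol, .pol, .pol, (.aff 2000000 4449720 224734), .pol, (.pol), (.pol), .pol⟩],
 [.one ⟨3200000, 198, 41600, 0, 107712, 0, 250000, 300000, 0, 300000⟩ ⟨0, .pol, .pol, .pol, .pol, (.sy 150000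
 (.sy 75000 (.sy 37500 (.sx 275000 (.aff 1000000 0 0) (.aff 800000 42280 946074)) (.aff 1000000 0 0)) (.aff
 1000000 0 0)) (.aff 1000000 0 0)), .pol, (.pol), (.sy 150000 (.pol) (.pol)), .pol⟩, .two ⟨3200000, 198,
 41600, -511488, 261158, 0, 250000, 300000, 300000, 450000⟩ ⟨0, .pol, .pol, .pol, .pol, (.aff 1000000 0 0),
 .pol, (.pol), (.pol), .pol⟩ ⟨3200000, 198, 41600, -511488, 261158, 0, 250000, 300000, 450000, 550000⟩ ⟨0,
 .pol, .pol, .pol, .pol, (.aff 1000000 0 0), .pol, (.aff 1000000 0 0), (.pol), .pol⟩, .one ⟨3200000, 198,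
 41600, 207200, -134120, 0, 250000, 300000, 550000, 750000⟩ ⟨0, .pol, .pol, .pol, .pol, (.aff 1000000 0 0),
 .pol, (.aff 1000000 0 0), (.pol), .pol⟩, .one ⟨3200000, 198, 41600, 245115, -162557, 0, 250000, 300000,
 750000, 897000⟩ ⟨0, .pol, .pol, .pol, .pol, (.aff 1000000 0 0), .pol, (.aff 1000000 0 0), (.pol), .pol⟩]⟩,
 ⟨[.one ⟨2016000, 63, 252000, 87059, 0, 0, 0, 50000, 0, 380000⟩ ⟨50000, (.aff 1414214 707107), (.pol), (.pol),
 (.pol), (.aff 500000 974680 256495), (.sy 215000 (.aff 0 2302173 434373) (.aff 375000 3724152 104890)),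
 (.pol), (.sy 190000 (.pol) (.pol)), (.pol)⟩, .one ⟨2016000, 63, 252000, 45491, 15795, 0, 0, 50000, 380000,
 610000⟩ ⟨0, .pol, .pol, .pol, .pol, (.aff 1900000 5663568 143020), .pol, (.pol), (.pol), .pol⟩], [.one
 ⟨2016000, 63, 60480, 22108, 24514, 0, 250000, 300000, 0, 300000⟩ ⟨0, .pol, .pol, .pol, .pol, (.aff 1000000 0
 0), .pol, (.pol), (.pol), .pol⟩, .one ⟨2016000, 63, 60480, 49674, 16244, 0, 250000, 300000, 300000, 550000⟩
 ⟨0, .pol, .pol, .pol, .pol, (.aff 1000000 0 0), .pol, (.pol), (.pol), .pol⟩, .one ⟨2016000, 63, 60480, 66124,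
 7197, 0, 250000, 300000, 550000, 750000⟩ ⟨0, .pol, .pol, .pol, .pol, (.aff 1000000 0 0), .pol, (.pol),
 (.pol), .pol⟩, .one ⟨2016000, 63, 60480, 78034, -1735, 0, 250000, 300000, 750000, 897000⟩ ⟨0, .pol, .pol,
 .pol, .pol, (.aff 1000000 0 0), .pol, (.pol), (.pol), .pol⟩]⟩] = true := by decide +kernel

theorem II_xQ17 : PropII xQ17 := propII_of cQ17

theorem cQ18 : chkII xQ18 ⟨630000, 635000, 795297, 793727, 796871, 606214, 608280, 604156, 608276, 604152⟩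
 [⟨[.one ⟨2008000, 753, 3877448, 394043, 0, 0, 0, 55000, 0, 380000⟩ ⟨55000, (.aff 2000000 500000), (.pol),
 (.pol), (.pol), (.aff 500000 929321 269014), (.sy 217500 (.aff 0 3844819 260091) (.sx 27500 (.sx 13750 (.sy
 298750 (.aff 163000 4240209 165221) (.aff 500000 3512964 71165)) (.sy 298750 (.aff 200000 3100264 206435)
 (.aff 1000000 0 0))) (.aff 1000000 0 0))), (.pol), (.sy 190000 (.pol) (.pol)), (.pol)⟩, .one ⟨2008000, 753,
 3877448, -1498318, 719097, 0, 0, 55000, 380000, 610000⟩ ⟨0, .pol, .pol, .pol, .pol, (.sy 495000 (.aff 2000000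
 5640761 177282) (.aff 2100000 6022148 200925)), .pol, (.pol), (.pol), .pol⟩], [.one ⟨2008000, 753, 297184, 0,
 364190, 0, 250000, 300000, 0, 300000⟩ ⟨0, .pol, .pol, .pol, .pol, (.sy 150000 (.sy 75000 (.sy 37500 (.aff
 800000 43763 914015) (.aff 1000000 0 0)) (.aff 1000000 0 0)) (.aff 1000000 0 0)), .pol, (.pol), (.sy 150000
 (.pol) (.pol)), .pol⟩, .two ⟨2008000, 753, 297184, -1921335, 940591, 0, 250000, 300000, 300000, 450000⟩ ⟨0,
 .pol, .pol, .pol, .pol, (.aff 1000000 0 0), .pol, (.pol), (.pol), .pol⟩ ⟨2008000, 753, 297184, -1921335,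
 940591, 0, 250000, 300000, 450000, 550000⟩ ⟨0, .pol, .pol, .pol, .pol, (.aff 1000000 0 0), .pol, (.aff
 1000000 0 0), (.pol), .pol⟩, .one ⟨2008000, 753, 297184, 784023, -547356, 0, 250000, 300000, 550000, 750000⟩
 ⟨0, .pol, .pol, .pol, .pol, (.aff 1000000 0 0), .pol, (.aff 1000000 0 0), (.pol), .pol⟩, .one ⟨2008000, 753,
 297184, 942803, -666441, 0, 250000, 300000, 750000, 897000⟩ ⟨0, .pol, .pol, .pol, .pol, (.aff 1000000 0 0),
 .pol, (.aff 1000000 0 0), (.pol), .pol⟩]⟩, ⟨[.one ⟨4000000, 0, 772000, 21578, 0, 0, 0, 55000, 0, 380000⟩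
 ⟨55000, (.pol), (.pol), (.pol), (.pol), (.pol), (.pol), (.pol), (.pol), (.pol)⟩, .one ⟨4000000, 0, 772000,
 -153218, 66422, 0, 0, 55000, 380000, 610000⟩ ⟨0, .pol, .pol, .pol, .pol, (.sx 27500 (.sy 495000 (.sx 13750
 (.sy 437500 (.sx 6875 (.sy 408750 (.pol) (.sx 3437 (.sy 423125 (.pol) (.sx 1718 (.inf 22381821 44680)
 (.pol))) (.pol))) (.pol)) (.sx 6875 (.sy 466250 (.sx 3437 (.inf 16215652 61669) (.sy 451875 (.sx 5156 (.sy
 444687 (.pol) (.inf 10214516 97900)) (.pol)) (.inf 7548653 132474))) (.inf 11824474 84571)) (.sy 466250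
 (.pol) (.sx 10312 (.sy 480625 (.sx 8593 (.inf 7824008 127812) (.sy 473437 (.pol) (.inf 7103952 140767)))
 (.inf 7534275 132727)) (.sy 480625 (.pol) (.sx 12031 (.inf 6608011 151332) (.sy 487812 (.pol) (.inf 6174267
 161963)))))))) (.pol)) (.sx 13750 (.inf 7171662 139438) (.sy 552500 (.sx 20625 (.sy 523750 (.sx 17187 (.sy
 509375 (.sx 15468 (.inf 5863038 170561) (.pol)) (.inf 5778796 173047)) (.sy 509375 (.pol) (.sx 18906 (.inf
 5350138 186912) (.pol)))) (.inf 5595453 178717)) (.sy 523750 (.pol) (.sx 24062 (.sy 538125 (.sx 22343 (.inf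
 4971234 201158) (.pol)) (.inf 4940230 202420)) (.pol)))) (.inf 5308656 188372)))) (.sy 495000 (.pol) (.sx
 41250 (.sy 552500 (.pol) (.sx 34375 (.sy 581250 (.sx 30937 (.inf 4404684 227032) (.pol)) (.inf 4387770
 227907)) (.sy 581250 (.pol) (.inf 3968888 251960)))) (.pol)))), .pol, (.pol), (.sx 27500 (.sy 495000 (.sx
 13750 (.sy 437500 (.sx 6875 (.sy 408750 (.pol) (.sx 3437 (.sy 423125 (.pol) (.sx 1718 (.inf 22381821 44680)
 (.pol))) (.pol))) (.pol)) (.sx 6875 (.sy 466250 (.sx 3437 (.inf 16215652 61669) (.sy 451875 (.sx 5156 (.sy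
 444687 (.pol) (.inf 10214516 97900)) (.pol)) (.inf 7548653 132474))) (.inf 11824474 84571)) (.sy 466250
 (.pol) (.sx 10312 (.sy 480625 (.sx 8593 (.inf 7824008 127812) (.sy 473437 (.pol) (.inf 7103952 140767)))
 (.inf 7534275 132727)) (.sy 480625 (.pol) (.sx 12031 (.inf 6608011 151332) (.sy 487812 (.pol) (.inf 6174267
 161963)))))))) (.pol)) (.sx 13750 (.inf 7171662 139438) (.sy 552500 (.sx 20625 (.sy 523750 (.sx 17187 (.sy
 509375 (.sx 15468 (.inf 5863038 170561) (.pol)) (.inf 5778796 173047)) (.sy 509375 (.pol) (.sx 18906 (.inf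
 5350138 186912) (.pol)))) (.inf 5595453 178717)) (.sy 523750 (.pol) (.sx 24062 (.sy 538125 (.sx 22343 (.inf
 4971234 201158) (.pol)) (.inf 4940230 202420)) (.pol)))) (.inf 5308656 188372)))) (.sy 495000 (.pol) (.sx
 41250 (.sy 552500 (.pol) (.sx 34375 (.sy 581250 (.sx 30937 (.inf 4404684 227032) (.pol)) (.inf 4387770
 227907)) (.sy 581250 (.pol) (.inf 3968888 251960)))) (.pol)))), .pol⟩], [.one ⟨4000000, 0, 0, 133, 200, 0,
 250000, 300000, 0, 300000⟩ ⟨0, .pol, .pol, .pol, .pol, (.pol), .pol, (.pol), (.pol), .pol⟩, .one ⟨4000000, 0,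
 0, 480, 96, 0, 250000, 300000, 300000, 550000⟩ ⟨0, .pol, .pol, .pol, .pol, (.pol), .pol, (.pol), (.pol),
 .pol⟩, .one ⟨4000000, 0, 0, 400, 140, 0, 250000, 300000, 550000, 750000⟩ ⟨0, .pol, .pol, .pol, .pol, (.pol),
 .pol, (.pol), (.pol), .pol⟩, .one ⟨4000000, 0, 0, 272, 235, 0, 250000, 300000, 750000, 897000⟩ ⟨0, .pol,
 .pol, .pol, .pol, (.pol), .pol, (.pol), (.pol), .pol⟩]⟩, ⟨[.one ⟨3200000, 118, 1497600, 50273, 0, 0, 0,
 55000, 0, 380000⟩ ⟨27500, (.aff 3162278 316228), (.pol), (.pol), (.pol), (.aff 0 2146174 465946), (.sx 13750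
 (.sx 6875 (.sy 203750 (.aff 0 5799687 172424) (.sy 291875 (.aff 0 8490637 117777) (.aff 225000 10834893
 55435))) (.aff 125000 5203846 147127)) (.aff 0 3143054 318162)), (.pol), (.sy 190000 (.pol) (.pol)), (.pol)⟩,
 .one ⟨3200000, 118, 1497600, -247096, 113000, 0, 0, 55000, 380000, 610000⟩ ⟨0, .pol, .pol, .pol, .pol, (.aff
 2150000 11376177 116252), .pol, (.pol), (.pol), .pol⟩], [.one ⟨3200000, 118, 51200, 0, 55776, 0, 250000,
 300000, 0, 300000⟩ ⟨0, .pol, .pol, .pol, .pol, (.sy 150000 (.sy 75000 (.sy 37500 (.aff 775000 54412 930402)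
 (.aff 1000000 0 0)) (.aff 1000000 0 0)) (.aff 1000000 0 0)), .pol, (.pol), (.sy 150000 (.pol) (.pol)), .pol⟩,
 .two ⟨3200000, 118, 51200, -299520, 145632, 0, 250000, 300000, 300000, 450000⟩ ⟨0, .pol, .pol, .pol, .pol,
 (.aff 1000000 0 0), .pol, (.pol), (.pol), .pol⟩ ⟨3200000, 118, 51200, -299520, 145632, 0, 250000, 300000,
 450000, 550000⟩ ⟨0, .pol, .pol, .pol, .pol, (.aff 1000000 0 0), .pol, (.aff 1000000 0 0), (.pol), .pol⟩, .one
 ⟨3200000, 118, 51200, 122080, -86248, 0, 250000, 300000, 550000, 750000⟩ ⟨0, .pol, .pol, .pol, .pol, (.aff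
 1000000 0 0), .pol, (.aff 1000000 0 0), (.pol), .pol⟩, .one ⟨3200000, 118, 51200, 148027, -105709, 0, 250000,
 300000, 750000, 897000⟩ ⟨0, .pol, .pol, .pol, .pol, (.aff 1000000 0 0), .pol, (.aff 1000000 0 0), (.pol),
 .pol⟩]⟩, ⟨[.one ⟨4000000, 202, 732000, 134736, 0, 0, 0, 55000, 0, 380000⟩ ⟨55000, (.aff 2000000 500000),
 (.pol), (.pol), (.pol), (.sy 190000 (.aff 0 1314258 760886) (.aff 1000000 0 0)), (.sy 217500 (.aff 0 2225881
 449261) (.aff 250000 2472003 227549)), (.pol), (.sy 190000 (.pol) (.pol)), (.pol)⟩, .one ⟨4000000, 202,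
 732000, -413566, 208354, 0, 0, 55000, 380000, 610000⟩ ⟨0, .pol, .pol, .pol, .pol, (.aff 2000000 4242641
 235703), .pol, (.pol), (.pol), .pol⟩], [.one ⟨4000000, 202, 104000, 0, 90520, 0, 250000, 300000, 0, 300000⟩
 ⟨0, .pol, .pol, .pol, .pol, (.sy 150000 (.sy 75000 (.sy 37500 (.aff 775000 51758 978110) (.aff 1000000 0 0))
 (.aff 1000000 0 0)) (.aff 1000000 0 0)), .pol, (.pol), (.sy 150000 (.pol) (.pol)), .pol⟩, .two ⟨4000000, 202,
 104000, -509760, 243448, 0, 250000, 300000, 300000, 450000⟩ ⟨0, .pol, .pol, .pol, .pol, (.aff 1000000 0 0),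
 .pol, (.pol), (.pol), .pol⟩ ⟨4000000, 202, 104000, -509760, 243448, 0, 250000, 300000, 450000, 550000⟩ ⟨0,
 .pol, .pol, .pol, .pol, (.aff 1000000 0 0), .pol, (.pol), (.pol), .pol⟩, .one ⟨4000000, 202, 104000, 204600,
 -149450, 0, 250000, 300000, 550000, 750000⟩ ⟨0, .pol, .pol, .pol, .pol, (.aff 1000000 0 0), .pol, (.aff
 1000000 0 0), (.pol), .pol⟩, .one ⟨4000000, 202, 104000, 253333, -186000, 0, 250000, 300000, 750000, 897000⟩
 ⟨0, .pol, .pol, .pol, .pol, (.aff 1000000 0 0), .pol, (.aff 1000000 0 0), (.pol), .pol⟩]⟩, ⟨[.one ⟨2040000,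
 51, 204000, 83586, 0, 0, 0, 55000, 0, 380000⟩ ⟨55000, (.aff 1414214 707107), (.pol), (.pol), (.pol), (.aff 0
 1858641 538028), (.aff 0 2812311 355580), (.pol), (.sy 190000 (.pol) (.pol)), (.pol)⟩, .one ⟨2040000, 51,
 204000, 4878, 29909, 0, 0, 55000, 380000, 610000⟩ ⟨0, .pol, .pol, .pol, .pol, (.aff 2000000 6000000 166667),
 .pol, (.pol), (.pol), .pol⟩], [.one ⟨2040000, 51, 108120, 19924, 2937, 0, 250000, 300000, 0, 300000⟩ ⟨0,
 .pol, .pol, .pol, .pol, (.aff 1000000 0 0), .pol, (.pol), (.pol), .pol⟩, .one ⟨2040000, 51, 108120, 43411,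
 -4109, 0, 250000, 300000, 300000, 550000⟩ ⟨0, .pol, .pol, .pol, .pol, (.aff 1000000 0 0), .pol, (.pol),
 (.pol), .pol⟩, .one ⟨2040000, 51, 108120, 56916, -11537, 0, 250000, 300000, 550000, 750000⟩ ⟨0, .pol, .pol,
 .pol, .pol, (.aff 1000000 0 0), .pol, (.pol), (.pol), .pol⟩, .one ⟨2040000, 51, 108120, 65640, -18080, 0,
 250000, 300000, 750000, 897000⟩ ⟨0, .pol, .pol, .pol, .pol, (.aff 1000000 0 0), .pol, (.pol), (.pol),
 .pol⟩]⟩] = true := by decide +kernel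

theorem II_xQ18 : PropII xQ18 := propII_of cQ18

theorem cQ19 : chkII xQ19 ⟨635000, 640000, 798434, 796871, 800002, 602076, 604156, 600004, 604152, 600000⟩
 [⟨[.one ⟨2008000, 753, 4030056, 394413, 0, 0, 0, 60000, 0, 380000⟩ ⟨1500, (.aff 2000000 500000), (.pol),
 (.pol), (.pol), (.sx 30750 (.sy 190000 (.aff 0 3283313 304571) (.sx 16125 (.sy 285000 (.aff 137000 4369540
 170446) (.aff 250000 4606887 122100)) (.aff 250000 2846800 197591))) (.sy 190000 (.aff 0 1446950 691109)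
 (.aff 1000000 0 0))), (.sy 190750 (.aff 0 4393351 227617) (.aff 0 19506410 51266)), (.pol), (.sy 190000 (.sy
 95000 (.sy 47500 (.sx 30750 (.sy 23750 (.sx 16125 (.sy 11875 (.sx 8812 (.sy 5937 (.pol) (.sx 5156 (.pol)
 (.pol))) (.pol)) (.sx 8812 (.pol) (.pol))) (.pol)) (.sx 16125 (.pol) (.pol))) (.pol)) (.sx 30750 (.pol)
 (.pol))) (.pol)) (.pol)), (.pol)⟩, .one ⟨2008000, 753, 4030056, -1574622, 748233, 0, 0, 60000, 380000,
 610000⟩ ⟨0, .pol, .pol, .pol, .pol, (.sy 495000 (.aff 2000000 5400618 185164) (.aff 1900000 5462143 148294)),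
 .pol, (.pol), (.pol), .pol⟩], [.one ⟨2008000, 753, 297184, 0, 359271, 0, 250000, 300000, 0, 300000⟩ ⟨0, .pol,
 .pol, .pol, .pol, (.sy 150000 (.sy 75000 (.sy 37500 (.sy 18750 (.aff 875000 18092 863642) (.aff 1000000 0 0))
 (.aff 1000000 0 0)) (.aff 1000000 0 0)) (.aff 1000000 0 0)), .pol, (.pol), (.sy 150000 (.pol) (.pol)), .pol⟩,
 .two ⟨2008000, 753, 297184, -1898524, 928828, 0, 250000, 300000, 300000, 450000⟩ ⟨0, .pol, .pol, .pol, .pol,
 (.aff 1000000 0 0), .pol, (.pol), (.pol), .pol⟩ ⟨2008000, 753, 297184, -1898524, 928828, 0, 250000, 300000,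
 450000, 550000⟩ ⟨0, .pol, .pol, .pol, .pol, (.aff 1000000 0 0), .pol, (.aff 1000000 0 0), (.pol), .pol⟩, .one
 ⟨2008000, 753, 297184, 792658, -551322, 0, 250000, 300000, 550000, 750000⟩ ⟨0, .pol, .pol, .pol, .pol, (.aff
 1000000 0 0), .pol, (.aff 1000000 0 0), (.pol), .pol⟩, .one ⟨2008000, 753, 297184, 954004, -672332, 0,
 250000, 300000, 750000, 897000⟩ ⟨0, .pol, .pol, .pol, .pol, (.aff 1000000 0 0), .pol, (.aff 1000000 0 0),
 (.pol), .pol⟩]⟩, ⟨[.one ⟨4000000, 0, 772000, 21578, 0, 0, 0, 60000, 0, 380000⟩ ⟨60000, (.pol), (.pol),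
 (.pol), (.pol), (.pol), (.pol), (.pol), (.pol), (.pol)⟩, .one ⟨4000000, 0, 772000, -162261, 69859, 0, 0,
 60000, 380000, 610000⟩ ⟨0, .pol, .pol, .pol, .pol, (.sx 30000 (.sy 495000 (.sx 15000 (.sy 437500 (.sx 7500
 (.sy 408750 (.pol) (.sx 3750 (.sx 1875 (.inf 16995686 58839) (.pol)) (.pol))) (.pol)) (.sx 7500 (.sy 466250
 (.sx 3750 (.inf 15524175 64416) (.sy 451875 (.sx 5625 (.sy 444687 (.pol) (.inf 9779227 102258)) (.pol)) (.inf
 9033887 110695))) (.inf 11321072 88331)) (.sy 466250 (.sx 11250 (.sy 451875 (.pol) (.sx 9375 (.sy 459062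
 (.pol) (.sx 8437 (.inf 7619752 131238) (.pol))) (.pol))) (.pol)) (.sx 11250 (.sy 480625 (.sx 9375 (.inf
 7490736 133499) (.sy 473437 (.pol) (.inf 6801291 147031))) (.inf 7213414 138631)) (.sy 480625 (.pol) (.sx
 13125 (.inf 6326583 158064) (.sy 487812 (.pol) (.inf 5911382 169166)))))))) (.pol)) (.sx 15000 (.inf 6866344
 145638) (.sy 552500 (.sx 22500 (.sy 523750 (.sx 18750 (.sy 509375 (.sx 16875 (.inf 5613360 178147) (.pol))
 (.inf 5532731 180743)) (.sy 509375 (.pol) (.sx 20625 (.inf 5122314 195225) (.pol)))) (.inf 5357239 186664))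
 (.sy 523750 (.pol) (.sx 26250 (.sy 538125 (.sx 24375 (.inf 4759552 210104) (.pol)) (.inf 4729884 211422))
 (.pol)))) (.inf 5082651 196748)))) (.sy 495000 (.pol) (.sx 45000 (.sy 552500 (.pol) (.sx 37500 (.sy 581250
 (.sx 33750 (.inf 4217146 237128) (.pol)) (.inf 4200970 238041)) (.sy 581250 (.pol) (.inf 3799921 263164))))
 (.pol)))), .pol, (.pol), (.sx 30000 (.sy 495000 (.sx 15000 (.sy 437500 (.sx 7500 (.sy 408750 (.pol) (.sx 3750
 (.sx 1875 (.inf 16995686 58839) (.pol)) (.pol))) (.pol)) (.sx 7500 (.sy 466250 (.sx 3750 (.inf 15524175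
 64416) (.sy 451875 (.sx 5625 (.sy 444687 (.pol) (.inf 9779227 102258)) (.pol)) (.inf 9033887 110695))) (.inf
 11321072 88331)) (.sy 466250 (.sx 11250 (.sy 451875 (.pol) (.sx 9375 (.sy 459062 (.pol) (.sx 8437 (.inf
 7619752 131238) (.pol))) (.pol))) (.pol)) (.sx 11250 (.sy 480625 (.sx 9375 (.inf 7490736 133499) (.sy 473437
 (.pol) (.inf 6801291 147031))) (.inf 7213414 138631)) (.sy 480625 (.pol) (.sx 13125 (.inf 6326583 158064)
 (.sy 487812 (.pol) (.inf 5911382 169166)))))))) (.pol)) (.sx 15000 (.inf 6866344 145638) (.sy 552500 (.sx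
 22500 (.sy 523750 (.sx 18750 (.sy 509375 (.sx 16875 (.inf 5613360 178147) (.pol)) (.inf 5532731 180743)) (.sy
 509375 (.pol) (.sx 20625 (.inf 5122314 195225) (.pol)))) (.inf 5357239 186664)) (.sy 523750 (.pol) (.sx 26250
 (.sy 538125 (.sx 24375 (.inf 4759552 210104) (.pol)) (.inf 4729884 211422)) (.pol)))) (.inf 5082651
 196748)))) (.sy 495000 (.pol) (.sx 45000 (.sy 552500 (.pol) (.sx 37500 (.sy 581250 (.sx 33750 (.inf 4217146
 237128) (.pol)) (.inf 4200970 238041)) (.sy 581250 (.pol) (.inf 3799921 263164)))) (.pol)))), .pol⟩], [.one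
 ⟨4000000, 0, 0, 133, 200, 0, 250000, 300000, 0, 300000⟩ ⟨0, .pol, .pol, .pol, .pol, (.pol), .pol, (.pol),
 (.pol), .pol⟩, .one ⟨4000000, 0, 0, 480, 96, 0, 250000, 300000, 300000, 550000⟩ ⟨0, .pol, .pol, .pol, .pol,
 (.pol), .pol, (.pol), (.pol), .pol⟩, .one ⟨4000000, 0, 0, 400, 140, 0, 250000, 300000, 550000, 750000⟩ ⟨0,
 .pol, .pol, .pol, .pol, (.pol), .pol, (.pol), (.pol), .pol⟩, .one ⟨4000000, 0, 0, 272, 235, 0, 250000,
 300000, 750000, 897000⟩ ⟨0, .pol, .pol, .pol, .pol, (.pol), .pol, (.pol), (.pol), .pol⟩]⟩, ⟨[.one ⟨4000000,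
 147, 1832000, 63894, 0, 0, 0, 60000, 0, 380000⟩ ⟨30000, (.aff 3162278 316228), (.pol), (.pol), (.pol), (.aff
 0 2054805 486665), (.sx 15000 (.sx 7500 (.sx 3750 (.sy 205000 (.aff 0 7916229 126323) (.sy 292500 (.aff 0
 11518102 86820) (.aff 225000 10378444 57873))) (.sy 205000 (.aff 0 4570437 218798) (.aff 225000 5588605
 107474))) (.aff 125000 4997563 153200)) (.aff 0 3018462 331295)), (.pol), (.sy 190000 (.pol) (.pol)),
 (.pol)⟩, .one ⟨4000000, 147, 1832000, -337914, 152686, 0, 0, 60000, 380000, 610000⟩ ⟨0, .pol, .pol, .pol,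
 .pol, (.aff 2400000 11997833 163363), .pol, (.pol), (.pol), .pol⟩], [.one ⟨4000000, 147, 92000, 0, 60080, 0,
 250000, 300000, 0, 300000⟩ ⟨0, .pol, .pol, .pol, .pol, (.sy 150000 (.sy 75000 (.sy 37500 (.sy 18750 (.aff
 875000 23080 676994) (.aff 1000000 0 0)) (.aff 1000000 0 0)) (.aff 1000000 0 0)) (.aff 1000000 0 0)), .pol,
 (.pol), (.sy 150000 (.pol) (.pol)), .pol⟩, .two ⟨4000000, 147, 92000, -363200, 169040, 0, 250000, 300000,
 300000, 450000⟩ ⟨0, .pol, .pol, .pol, .pol, (.aff 1000000 0 0), .pol, (.pol), (.pol), .pol⟩ ⟨4000000, 147,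
 92000, -363200, 169040, 0, 250000, 300000, 450000, 550000⟩ ⟨0, .pol, .pol, .pol, .pol, (.aff 1000000 0 0),
 .pol, (.pol), (.pol), .pol⟩, .one ⟨4000000, 147, 92000, 146800, -111460, 0, 250000, 300000, 550000, 750000⟩
 ⟨0, .pol, .pol, .pol, .pol, (.aff 1000000 0 0), .pol, (.aff 1000000 0 0), (.pol), .pol⟩, .one ⟨4000000, 147,
 92000, 186666, -141360, 0, 250000, 300000, 750000, 897000⟩ ⟨0, .pol, .pol, .pol, .pol, (.aff 1000000 0 0),
 .pol, (.aff 1000000 0 0), (.pol), .pol⟩]⟩, ⟨[.one ⟨4000000, 202, 732000, 136105, 0, 0, 0, 60000, 0, 380000⟩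
 ⟨60000, (.aff 2000000 500000), (.pol), (.pol), (.pol), (.aff 250000 1092707 514777), (.sy 220000 (.aff 0
 2638532 378999) (.aff 250000 2371709 237171)), (.pol), (.sy 190000 (.pol) (.pol)), (.pol)⟩, .one ⟨4000000,
 202, 732000, -424696, 213104, 0, 0, 60000, 380000, 610000⟩ ⟨0, .pol, .pol, .pol, .pol, (.aff 2000000 4062020
 246183), .pol, (.pol), (.pol), .pol⟩], [.one ⟨4000000, 202, 104000, 0, 89200, 0, 250000, 300000, 0, 300000⟩
 ⟨0, .pol, .pol, .pol, .pol, (.sy 150000 (.sy 75000 (.sy 37500 (.sy 18750 (.aff 875000 22098 707078) (.aff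
 1000000 0 0)) (.aff 1000000 0 0)) (.aff 1000000 0 0)) (.aff 1000000 0 0)), .pol, (.pol), (.sy 150000 (.pol)
 (.pol)), .pol⟩, .two ⟨4000000, 202, 104000, -503680, 240304, 0, 250000, 300000, 300000, 450000⟩ ⟨0, .pol,
 .pol, .pol, .pol, (.aff 1000000 0 0), .pol, (.pol), (.pol), .pol⟩ ⟨4000000, 202, 104000, -503680, 240304, 0,
 250000, 300000, 450000, 550000⟩ ⟨0, .pol, .pol, .pol, .pol, (.aff 1000000 0 0), .pol, (.pol), (.pol), .pol⟩,
 .one ⟨4000000, 202, 104000, 207000, -150570, 0, 250000, 300000, 550000, 750000⟩ ⟨0, .pol, .pol, .pol, .pol,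
 (.aff 1000000 0 0), .pol, (.aff 1000000 0 0), (.pol), .pol⟩, .one ⟨4000000, 202, 104000, 256326, -187565, 0,
 250000, 300000, 750000, 897000⟩ ⟨0, .pol, .pol, .pol, .pol, (.aff 1000000 0 0), .pol, (.aff 1000000 0 0),
 (.pol), .pol⟩]⟩, ⟨[.one ⟨2040000, 51, 204000, 83586, 0, 0, 0, 60000, 0, 380000⟩ ⟨60000, (.aff 1414214
 707107), (.pol), (.pol), (.pol), (.aff 0 1779514 561952), (.aff 0 2708013 369275), (.pol), (.sy 190000 (.pol)
 (.pol)), (.pol)⟩, .one ⟨2040000, 51, 204000, 3281, 30515, 0, 0, 60000, 380000, 610000⟩ ⟨0, .pol, .pol, .pol,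
 .pol, (.aff 2000000 5744563 174078), .pol, (.pol), (.pol), .pol⟩], [.one ⟨2040000, 51, 108120, 20128, 2774,
 0, 250000, 300000, 0, 300000⟩ ⟨0, .pol, .pol, .pol, .pol, (.aff 1000000 0 0), .pol, (.pol), (.pol), .pol⟩,
 .one ⟨2040000, 51, 108120, 43900, -4358, 0, 250000, 300000, 300000, 550000⟩ ⟨0, .pol, .pol, .pol, .pol, (.aff
 1000000 0 0), .pol, (.pol), (.pol), .pol⟩, .one ⟨2040000, 51, 108120, 57630, -11909, 0, 250000, 300000,
 550000, 750000⟩ ⟨0, .pol, .pol, .pol, .pol, (.aff 1000000 0 0), .pol, (.pol), (.pol), .pol⟩, .one ⟨2040000,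
 51, 108120, 66473, -18542, 0, 250000, 300000, 750000, 897000⟩ ⟨0, .pol, .pol, .pol, .pol, (.aff 1000000 0 0),
 .pol, (.pol), (.pol), .pol⟩]⟩] = true := by decide +kernel

theorem II_xQ19 : PropII xQ19 := propII_of cQ19

theorem cQ20 : chkII xQ20 ⟨640000, 645000, 801559, 800002, 803121, 597909, 600004, 595823, 600000, 595818⟩
 [⟨[.one ⟨2008000, 753, 3556168, 418166, 0, 0, 0, 65000, 0, 360000⟩ ⟨65000, (.aff 2000000 500000), (.pol),
 (.pol), (.pol), (.aff 500000 832051 300463), (.sy 212500 (.aff 0 3569018 280190) (.sy 286250 (.sy 249375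
 (.aff 50000 3581329 252002) (.sx 32500 (.aff 163000 3685536 190087) (.aff 1000000 0 0))) (.aff 250000 3696148
 152186))), (.pol), (.sy 180000 (.pol) (.pol)), (.pol)⟩, .one ⟨2008000, 753, 3556168, -1320560, 625941, 0, 0,
 65000, 360000, 628000⟩ ⟨0, .pol, .pol, .pol, .pol, (.sy 494000 (.aff 1800000 5008829 127775) (.aff 1900000
 5288071 153175)), .pol, (.pol), (.pol), .pol⟩], [.one ⟨2008000, 753, 801192, 0, 203209, 0, 250000, 300000, 0,
 300000⟩ ⟨0, .pol, .pol, .pol, .pol, (.sy 150000 (.sy 75000 (.sy 37500 (.sy 18750 (.aff 875000 14813 1054817)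
 (.aff 1000000 0 0)) (.aff 1000000 0 0)) (.aff 1000000 0 0)) (.aff 1000000 0 0)), .pol, (.pol), (.sy 150000
 (.pol) (.pol)), .pol⟩, .two ⟨2008000, 753, 801192, -1775153, 735755, 0, 250000, 300000, 300000, 450000⟩ ⟨0,
 .pol, .pol, .pol, .pol, (.aff 1000000 0 0), .pol, (.pol), (.pol), .pol⟩ ⟨2008000, 753, 801192, -1775153,
 735755, 0, 250000, 300000, 450000, 550000⟩ ⟨0, .pol, .pol, .pol, .pol, (.aff 1000000 0 0), .pol, (.pol),
 (.pol), .pol⟩, .one ⟨2008000, 753, 801192, 677599, -613259, 0, 250000, 300000, 550000, 750000⟩ ⟨0, .pol,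
 .pol, .pol, .pol, (.aff 1000000 0 0), .pol, (.aff 1000000 0 0), (.pol), .pol⟩, .one ⟨2008000, 753, 801192,
 987666, -845809, 0, 250000, 300000, 750000, 884000⟩ ⟨0, .pol, .pol, .pol, .pol, (.aff 1000000 0 0), .pol,
 (.aff 1000000 0 0), (.pol), .pol⟩]⟩, ⟨[.one ⟨4000000, 0, 732000, 9222, 0, 0, 0, 65000, 0, 360000⟩ ⟨65000,
 (.pol), (.pol), (.pol), (.pol), (.pol), (.pol), (.pol), (.pol), (.pol)⟩, .one ⟨4000000, 0, 732000, -78806,
 31690, 0, 0, 65000, 360000, 628000⟩ ⟨0, .pol, .pol, .pol, .pol, (.sx 32500 (.sx 16250 (.sy 494000 (.sx 8125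
 (.sy 427000 (.sx 4062 (.sy 393500 (.pol) (.sx 2031 (.sy 410250 (.sx 1015 (.inf 28140219 35537) (.pol)) (.inf
 20303580 49253)) (.sy 410250 (.pol) (.sx 3046 (.sy 418625 (.pol) (.inf 12905812 77485)) (.pol))))) (.pol))
 (.sx 4062 (.inf 12046194 83014) (.sy 460500 (.sx 6093 (.sy 443750 (.sx 5077 (.sy 435375 (.pol) (.inf 9807899
 101959)) (.pol)) (.inf 9436356 105974)) (.sy 443750 (.pol) (.sx 7109 (.inf 8276075 120831) (.pol)))) (.inf
 8849925 112996)))) (.sy 427000 (.pol) (.sx 12187 (.sy 460500 (.pol) (.sx 10156 (.inf 7225835 138393) (.pol)))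
 (.pol)))) (.inf 6647522 150432)) (.sy 494000 (.pol) (.sx 24375 (.sy 561000 (.sy 527500 (.pol) (.inf 5176278
 193190)) (.inf 5409963 184845)) (.pol)))) (.pol)), .pol, (.pol), (.sx 32500 (.sx 16250 (.sy 494000 (.sx 8125
 (.sy 427000 (.sx 4062 (.sy 393500 (.pol) (.sx 2031 (.sy 410250 (.sx 1015 (.inf 28140219 35537) (.pol)) (.inf
 20303580 49253)) (.sy 410250 (.pol) (.sx 3046 (.sy 418625 (.pol) (.inf 12905812 77485)) (.pol))))) (.pol))
 (.sx 4062 (.inf 12046194 83014) (.sy 460500 (.sx 6093 (.sy 443750 (.sx 5077 (.sy 435375 (.pol) (.inf 9807899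
 101959)) (.pol)) (.inf 9436356 105974)) (.sy 443750 (.pol) (.sx 7109 (.inf 8276075 120831) (.pol)))) (.inf
 8849925 112996)))) (.sy 427000 (.pol) (.sx 12187 (.sy 460500 (.pol) (.sx 10156 (.inf 7225835 138393) (.pol)))
 (.pol)))) (.inf 6647522 150432)) (.sy 494000 (.pol) (.sx 24375 (.sy 561000 (.sy 527500 (.pol) (.inf 5176278
 193190)) (.inf 5409963 184845)) (.pol)))) (.pol)), .pol⟩], [.one ⟨4000000, 0, 0, 133, 200, 0, 250000, 300000,
 0, 300000⟩ ⟨0, .pol, .pol, .pol, .pol, (.pol), .pol, (.pol), (.pol), .pol⟩, .one ⟨4000000, 0, 0, 480, 96, 0,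
 250000, 300000, 300000, 550000⟩ ⟨0, .pol, .pol, .pol, .pol, (.pol), .pol, (.pol), (.pol), .pol⟩, .one
 ⟨4000000, 0, 0, 400, 140, 0, 250000, 300000, 550000, 750000⟩ ⟨0, .pol, .pol, .pol, .pol, (.pol), .pol,
 (.pol), (.pol), .pol⟩, .one ⟨4000000, 0, 0, 298, 216, 0, 250000, 300000, 750000, 884000⟩ ⟨0, .pol, .pol,
 .pol, .pol, (.pol), .pol, (.pol), (.pol), .pol⟩]⟩, ⟨[.one ⟨8000000, 269, 1072000, 162888, 0, 0, 0, 65000, 0,
 360000⟩ ⟨65000, (.aff 2000000 500000), (.pol), (.pol), (.pol), (.aff 250000 1248076 450694), (.sx 32500 (.sy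
 212500 (.aff 0 2922065 342224) (.sx 16250 (.aff 200000 3193901 200382) (.aff 213000 2810290 220394))) (.sy
 212500 (.aff 125000 1617067 473466) (.aff 1000000 0 0))), (.pol), (.sy 180000 (.pol) (.pol)), (.pol)⟩, .one
 ⟨8000000, 269, 1072000, -462986, 225314, 0, 0, 65000, 360000, 628000⟩ ⟨0, .pol, .pol, .pol, .pol, (.sy 494000
 (.aff 1900000 4613492 175572) (.aff 2000000 4154701 240692)), .pol, (.pol), (.pol), .pol⟩], [.one ⟨8000000,
 269, 264000, 0, 79520, 0, 250000, 300000, 0, 300000⟩ ⟨0, .pol, .pol, .pol, .pol, (.sy 150000 (.sy 75000 (.sy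
 37500 (.sy 18750 (.aff 875000 18092 863642) (.aff 1000000 0 0)) (.aff 1000000 0 0)) (.aff 1000000 0 0)) (.aff
 1000000 0 0)), .pol, (.pol), (.sy 150000 (.pol) (.pol)), .pol⟩, .two ⟨8000000, 269, 264000, -637120, 270656,
 0, 250000, 300000, 300000, 450000⟩ ⟨0, .pol, .pol, .pol, .pol, (.aff 1000000 0 0), .pol, (.pol), (.pol),
 .pol⟩ ⟨8000000, 269, 264000, -637120, 270656, 0, 250000, 300000, 450000, 550000⟩ ⟨0, .pol, .pol, .pol, .pol,
 (.aff 1000000 0 0), .pol, (.pol), (.pol), .pol⟩, .one ⟨8000000, 269, 264000, 247600, -215940, 0, 250000,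
 300000, 550000, 750000⟩ ⟨0, .pol, .pol, .pol, .pol, (.aff 1000000 0 0), .pol, (.aff 1000000 0 0), (.pol),
 .pol⟩, .one ⟨8000000, 269, 264000, 345671, -289494, 0, 250000, 300000, 750000, 884000⟩ ⟨0, .pol, .pol, .pol,
 .pol, (.aff 1000000 0 0), .pol, (.aff 1000000 0 0), (.pol), .pol⟩]⟩, ⟨[.one ⟨8000000, 313, 3560000, 140222,
 0, 0, 0, 65000, 0, 360000⟩ ⟨32500, (.aff 3162278 316228), (.pol), (.pol), (.pol), (.aff 0 1921538 520417),
 (.sx 16250 (.sx 8125 (.sy 196250 (.aff 0 5306020 188466) (.sy 278125 (.aff 0 7640983 130874) (.aff 200000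
 10026427 63832))) (.aff 125000 3846327 199054)) (.aff 0 2837479 352426)), (.pol), (.sy 180000 (.pol) (.pol)),
 (.pol)⟩, .one ⟨8000000, 313, 3560000, -551045, 248856, 0, 0, 65000, 360000, 628000⟩ ⟨0, .pol, .pol, .pol,
 .pol, (.sy 494000 (.aff 1913000 11087587 75181) (.aff 3000000 8309402 481383)), .pol, (.pol), (.pol), .pol⟩],
 [.one ⟨8000000, 313, 152000, 0, 139040, 0, 250000, 300000, 0, 300000⟩ ⟨0, .pol, .pol, .pol, .pol, (.sy 150000
 (.sy 75000 (.sy 37500 (.sy 18750 (.aff 875000 18092 863642) (.aff 1000000 0 0)) (.aff 1000000 0 0)) (.aff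
 1000000 0 0)) (.aff 1000000 0 0)), .pol, (.pol), (.sy 150000 (.pol) (.pol)), .pol⟩, .two ⟨8000000, 313,
 152000, -772800, 370880, 0, 250000, 300000, 300000, 450000⟩ ⟨0, .pol, .pol, .pol, .pol, (.aff 1000000 0 0),
 .pol, (.pol), (.pol), .pol⟩ ⟨8000000, 313, 152000, -772800, 370880, 0, 250000, 300000, 450000, 550000⟩ ⟨0,
 .pol, .pol, .pol, .pol, (.aff 1000000 0 0), .pol, (.pol), (.pol), .pol⟩, .one ⟨8000000, 313, 152000, 326800,
 -233900, 0, 250000, 300000, 550000, 750000⟩ ⟨0, .pol, .pol, .pol, .pol, (.aff 1000000 0 0), .pol, (.aff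
 1000000 0 0), (.pol), .pol⟩, .one ⟨8000000, 313, 152000, 402388, -290592, 0, 250000, 300000, 750000, 884000⟩
 ⟨0, .pol, .pol, .pol, .pol, (.aff 1000000 0 0), .pol, (.aff 1000000 0 0), (.pol), .pol⟩]⟩, ⟨[.one ⟨2040000,
 51, 204000, 84490, 0, 0, 0, 65000, 0, 360000⟩ ⟨65000, (.aff 1414214 707107), (.pol), (.pol), (.pol), (.aff 0
 1664101 600926), (.aff 0 2557042 391077), (.pol), (.pol), (.pol)⟩, .one ⟨2040000, 51, 204000, 6850, 27950, 0,
 0, 65000, 360000, 628000⟩ ⟨0, .pol, .pol, .pol, .pol, (.aff 2000000 5513620 181370), .pol, (.pol), (.pol),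
 .pol⟩], [.one ⟨2040000, 51, 108120, 20196, 2652, 0, 250000, 300000, 0, 300000⟩ ⟨0, .pol, .pol, .pol, .pol,
 (.aff 1000000 0 0), .pol, (.pol), (.pol), .pol⟩, .one ⟨2040000, 51, 108120, 44472, -4631, 0, 250000, 300000,
 300000, 550000⟩ ⟨0, .pol, .pol, .pol, .pol, (.aff 1000000 0 0), .pol, (.pol), (.pol), .pol⟩, .one ⟨2040000,
 51, 108120, 58344, -12261, 0, 250000, 300000, 550000, 750000⟩ ⟨0, .pol, .pol, .pol, .pol, (.aff 1000000 0 0),
 .pol, (.pol), (.pol), .pol⟩, .one ⟨2040000, 51, 108120, 66985, -18742, 0, 250000, 300000, 750000, 884000⟩ ⟨0,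
 .pol, .pol, .pol, .pol, (.aff 1000000 0 0), .pol, (.pol), (.pol), .pol⟩]⟩] = true := by decide +kernel

theorem II_xQ20 : PropII xQ20 := propII_of cQ20

theorem cQ21 : chkII xQ21 ⟨645000, 650000, 804672, 803121, 806228, 593713, 595823, 591612, 595818, 591607⟩
 [⟨[.one ⟨2008000, 753, 3666608, 418221, 0, 0, 0, 70000, 0, 360000⟩ ⟨70000, (.aff 3162278 316228), (.pol),
 (.pol), (.pol), (.aff 500000 801784 311805), (.sx 35000 (.sx 17500 (.sx 8750 (.sx 4375 (.sy 215000 (.aff 0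
 8071113 123899) (.aff 125000 10031202 76325)) (.sy 215000 (.aff 0 4659859 214599) (.sy 287500 (.aff 125000
 5414102 141414) (.aff 1000000 0 0)))) (.sy 215000 (.aff 0 3295018 303489) (.sy 287500 (.aff 175000 3989209
 170617) (.aff 1000000 0 0)))) (.sy 215000 (.aff 0 2552310 391802) (.aff 250000 2718981 206879))) (.aff 250000
 1517753 370614)), (.pol), (.sy 180000 (.pol) (.pol)), (.pol)⟩, .one ⟨2008000, 753, 3666608, -1381999, 648079,
 0, 0, 70000, 360000, 628000⟩ ⟨0, .pol, .pol, .pol, .pol, (.sy 494000 (.aff 1900000 5429957 149173) (.aff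
 2000000 5661903 176620)), .pol, (.pol), (.pol), .pol⟩], [.one ⟨2008000, 753, 755008, 0, 213651, 0, 250000,
 300000, 0, 300000⟩ ⟨0, .pol, .pol, .pol, .pol, (.sy 150000 (.sy 75000 (.sy 37500 (.sy 18750 (.aff 875000
 22573 692199) (.aff 1000000 0 0)) (.aff 1000000 0 0)) (.aff 1000000 0 0)) (.aff 1000000 0 0)), .pol, (.pol),
 (.sy 150000 (.pol) (.pol)), .pol⟩, .two ⟨2008000, 753, 755008, -1767603, 743931, 0, 250000, 300000, 300000,
 450000⟩ ⟨0, .pol, .pol, .pol, .pol, (.aff 1000000 0 0), .pol, (.pol), (.pol), .pol⟩ ⟨2008000, 753, 755008,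
 -1767603, 743931, 0, 250000, 300000, 450000, 550000⟩ ⟨0, .pol, .pol, .pol, .pol, (.aff 1000000 0 0), .pol,
 (.pol), (.pol), .pol⟩, .one ⟨2008000, 753, 755008, 695370, -610704, 0, 250000, 300000, 550000, 750000⟩ ⟨0,
 .pol, .pol, .pol, .pol, (.aff 1000000 0 0), .pol, (.aff 1000000 0 0), (.pol), .pol⟩, .one ⟨2008000, 753,
 755008, 976577, -821609, 0, 250000, 300000, 750000, 884000⟩ ⟨0, .pol, .pol, .pol, .pol, (.aff 1000000 0 0),
 .pol, (.aff 1000000 0 0), (.pol), .pol⟩]⟩, ⟨[.one ⟨4000000, 0, 732000, 9222, 0, 0, 0, 70000, 0, 360000⟩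
 ⟨70000, (.pol), (.pol), (.pol), (.pol), (.pol), (.pol), (.pol), (.pol), (.pol)⟩, .one ⟨4000000, 0, 732000,
 -87015, 34645, 0, 0, 70000, 360000, 628000⟩ ⟨0, .pol, .pol, .pol, .pol, (.sx 35000 (.sx 17500 (.sy 494000
 (.sx 8750 (.sy 427000 (.sx 4375 (.sy 393500 (.pol) (.sx 2187 (.sy 410250 (.sx 1093 (.inf 27117548 36877) (.sy
 401875 (.pol) (.inf 15735282 63552))) (.inf 19566052 51109)) (.sy 410250 (.pol) (.sx 3281 (.sy 418625 (.sx
 2734 (.inf 12978301 77052) (.pol)) (.inf 12435827 80413)) (.sy 418625 (.pol) (.sx 3828 (.inf 10906482 91689)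
 (.pol))))))) (.pol)) (.sx 4375 (.inf 14509111 68923) (.sy 460500 (.sx 6562 (.sy 443750 (.sx 5468 (.sy 435375
 (.sx 4921 (.inf 9631636 103825) (.pol)) (.inf 9450648 105813)) (.pol)) (.inf 9092748 109978)) (.sy 443750
 (.pol) (.sx 7656 (.inf 7974896 125394) (.pol)))) (.inf 8527826 117264)))) (.sy 427000 (.pol) (.sx 13125 (.sy
 460500 (.pol) (.sx 10937 (.inf 6963029 143616) (.sy 477250 (.pol) (.inf 6353305 157399)))) (.pol)))) (.inf
 6405712 156111)) (.sy 494000 (.pol) (.sx 26250 (.sy 561000 (.sy 527500 (.pol) (.inf 4987986 200482)) (.inf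
 5213171 191822)) (.sy 561000 (.pol) (.inf 4405933 226967))))) (.pol)), .pol, (.pol), (.sx 35000 (.sx 17500
 (.sy 494000 (.sx 8750 (.sy 427000 (.sx 4375 (.sy 393500 (.pol) (.sx 2187 (.sy 410250 (.sx 1093 (.inf 27117548
 36877) (.sy 401875 (.pol) (.inf 15735282 63552))) (.inf 19566052 51109)) (.sy 410250 (.pol) (.sx 3281 (.sy
 418625 (.sx 2734 (.inf 12978301 77052) (.pol)) (.inf 12435827 80413)) (.sy 418625 (.pol) (.sx 3828 (.inf
 10906482 91689) (.pol))))))) (.pol)) (.sx 4375 (.inf 14509111 68923) (.sy 460500 (.sx 6562 (.sy 443750 (.sx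
 5468 (.sy 435375 (.sx 4921 (.inf 9631636 103825) (.pol)) (.inf 9450648 105813)) (.pol)) (.inf 9092748
 109978)) (.sy 443750 (.pol) (.sx 7656 (.inf 7974896 125394) (.pol)))) (.inf 8527826 117264)))) (.sy 427000
 (.pol) (.sx 13125 (.sy 460500 (.pol) (.sx 10937 (.inf 6963029 143616) (.sy 477250 (.pol) (.inf 6353305
 157399)))) (.pol)))) (.inf 6405712 156111)) (.sy 494000 (.pol) (.sx 26250 (.sy 561000 (.sy 527500 (.pol)
 (.inf 4987986 200482)) (.inf 5213171 191822)) (.sy 561000 (.pol) (.inf 4405933 226967))))) (.pol)), .pol⟩],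
 [.one ⟨4000000, 0, 0, 133, 200, 0, 250000, 300000, 0, 300000⟩ ⟨0, .pol, .pol, .pol, .pol, (.pol), .pol,
 (.pol), (.pol), .pol⟩, .one ⟨4000000, 0, 0, 480, 96, 0, 250000, 300000, 300000, 550000⟩ ⟨0, .pol, .pol, .pol,
 .pol, (.pol), .pol, (.pol), (.pol), .pol⟩, .one ⟨4000000, 0, 0, 400, 140, 0, 250000, 300000, 550000, 750000⟩
 ⟨0, .pol, .pol, .pol, .pol, (.pol), .pol, (.pol), (.pol), .pol⟩, .one ⟨4000000, 0, 0, 298, 216, 0, 250000,
 300000, 750000, 884000⟩ ⟨0, .pol, .pol, .pol, .pol, (.pol), .pol, (.pol), (.pol), .pol⟩]⟩, ⟨[.one ⟨8000000,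
 269, 1072000, 164888, 0, 0, 0, 70000, 0, 360000⟩ ⟨70000, (.aff 2000000 500000), (.pol), (.pol), (.pol), (.aff
 250000 1202676 467708), (.sy 215000 (.aff 0 2853570 350439) (.sx 35000 (.sy 287500 (.aff 188000 3076735
 214300) (.aff 1000000 0 0)) (.aff 1000000 0 0))), (.pol), (.sy 180000 (.pol) (.pol)), (.pol)⟩, .one ⟨8000000,
 269, 1072000, -481195, 232589, 0, 0, 70000, 360000, 628000⟩ ⟨0, .pol, .pol, .pol, .pol, (.sy 494000 (.aff
 2000000 4939636 202445) (.aff 2000000 4003570 249778)), .pol, (.pol), (.pol), .pol⟩], [.one ⟨8000000, 269,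
 264000, 0, 78320, 0, 250000, 300000, 0, 300000⟩ ⟨0, .pol, .pol, .pol, .pol, (.sy 150000 (.sy 75000 (.sy 37500
 (.sy 18750 (.aff 875000 23080 676994) (.aff 1000000 0 0)) (.aff 1000000 0 0)) (.aff 1000000 0 0)) (.aff
 1000000 0 0)), .pol, (.pol), (.sy 150000 (.pol) (.pol)), .pol⟩, .two ⟨8000000, 269, 264000, -631360, 267728,
 0, 250000, 300000, 300000, 450000⟩ ⟨0, .pol, .pol, .pol, .pol, (.aff 1000000 0 0), .pol, (.pol), (.pol),
 .pol⟩ ⟨8000000, 269, 264000, -631360, 267728, 0, 250000, 300000, 450000, 550000⟩ ⟨0, .pol, .pol, .pol, .pol,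
 (.aff 1000000 0 0), .pol, (.pol), (.pol), .pol⟩, .one ⟨8000000, 269, 264000, 250800, -217460, 0, 250000,
 300000, 550000, 750000⟩ ⟨0, .pol, .pol, .pol, .pol, (.aff 1000000 0 0), .pol, (.aff 1000000 0 0), (.pol),
 .pol⟩, .one ⟨8000000, 269, 264000, 349850, -291749, 0, 250000, 300000, 750000, 884000⟩ ⟨0, .pol, .pol, .pol,
 .pol, (.aff 1000000 0 0), .pol, (.aff 1000000 0 0), (.pol), .pol⟩]⟩, ⟨[.one ⟨2080000, 78, 892320, 35417, 0,
 0, 0, 70000, 0, 360000⟩ ⟨70000, (.aff 3162278 316228), (.pol), (.pol), (.pol), (.pol), (.sx 35000 (.sx 17500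
 (.sx 8750 (.sx 4375 (.sy 215000 (.aff 0 8071113 123899) (.sy 287500 (.aff 0 10717143 93309) (.aff 275000
 10247385 51294))) (.sy 215000 (.aff 0 4659859 214599) (.aff 250000 4964158 113313))) (.aff 250000 3035505
 185307)) (.aff 0 2861901 349419)) (.aff 0 2023670 494152)), (.pol), (.pol), (.pol)⟩, .one ⟨2080000, 78,
 892320, -146066, 65334, 0, 0, 70000, 360000, 628000⟩ ⟨0, .pol, .pol, .pol, .pol, (.aff 2050000 10686246
 103171), .pol, (.pol), (.pol), .pol⟩], [.one ⟨2080000, 78, 66560, 0, 25688, 0, 250000, 300000, 0, 300000⟩ ⟨0,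
 .pol, .pol, .pol, .pol, (.sy 150000 (.sy 75000 (.sy 37500 (.sy 18750 (.aff 875000 23080 676994) (.aff 1000000
 0 0)) (.aff 1000000 0 0)) (.aff 1000000 0 0)) (.aff 1000000 0 0)), .pol, (.pol), (.sy 150000 (.pol) (.pol)),
 .pol⟩, .two ⟨2080000, 78, 66560, -185037, 81199, 0, 250000, 300000, 300000, 450000⟩ ⟨0, .pol, .pol, .pol,
 .pol, (.aff 1000000 0 0), .pol, (.pol), (.pol), .pol⟩ ⟨2080000, 78, 66560, -185037, 81199, 0, 250000, 300000,
 450000, 550000⟩ ⟨0, .pol, .pol, .pol, .pol, (.aff 1000000 0 0), .pol, (.pol), (.pol), .pol⟩, .one ⟨2080000,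
 78, 66560, 75192, -61927, 0, 250000, 300000, 550000, 750000⟩ ⟨0, .pol, .pol, .pol, .pol, (.aff 1000000 0 0),
 .pol, (.aff 1000000 0 0), (.pol), .pol⟩, .one ⟨2080000, 78, 66560, 101205, -81438, 0, 250000, 300000, 750000,
 884000⟩ ⟨0, .pol, .pol, .pol, .pol, (.aff 1000000 0 0), .pol, (.aff 1000000 0 0), (.pol), .pol⟩]⟩, ⟨[.one
 ⟨2040000, 51, 204000, 84490, 0, 0, 0, 70000, 0, 360000⟩ ⟨70000, (.aff 1414214 707107), (.pol), (.pol),
 (.pol), (.aff 0 1603568 623610), (.aff 0 2478479 403474), (.pol), (.pol), (.pol)⟩, .one ⟨2040000, 51, 204000,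
 5252, 28525, 0, 0, 70000, 360000, 628000⟩ ⟨0, .pol, .pol, .pol, .pol, (.aff 3000000 7513797 532355), .pol,
 (.pol), (.pol), .pol⟩], [.one ⟨2040000, 51, 108120, 20468, 2488, 0, 250000, 300000, 0, 300000⟩ ⟨0, .pol,
 .pol, .pol, .pol, (.aff 1000000 0 0), .pol, (.pol), (.pol), .pol⟩, .one ⟨2040000, 51, 108120, 44880, -4835,
 0, 250000, 300000, 300000, 550000⟩ ⟨0, .pol, .pol, .pol, .pol, (.aff 1000000 0 0), .pol, (.pol), (.pol),
 .pol⟩, .one ⟨2040000, 51, 108120, 59058, -12633, 0, 250000, 300000, 550000, 750000⟩ ⟨0, .pol, .pol, .pol,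
 .pol, (.aff 1000000 0 0), .pol, (.pol), (.pol), .pol⟩, .one ⟨2040000, 51, 108120, 67746, -19149, 0, 250000,
 300000, 750000, 884000⟩ ⟨0, .pol, .pol, .pol, .pol, (.aff 1000000 0 0), .pol, (.pol), (.pol), .pol⟩]⟩] = true
 := by decide +kernel

theorem II_xQ21 : PropII xQ21 := propII_of cQ21

theorem cQ22 : chkII xQ22 ⟨650000, 655000, 807773, 806228, 809323, 589487, 591612, 587371, 591607, 587367⟩
 [⟨[.one ⟨2008000, 753, 3313200, 441090, 0, 0, 0, 75000, 0, 360000⟩ ⟨75000, (.aff 2000000 500000), (.pol),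
 (.pol), (.pol), (.aff 500000 774597 322749), (.sy 217500 (.aff 50000 3240633 278495) (.sx 37500 (.sy 288750
 (.sx 18750 (.aff 175000 3500179 194455) (.aff 500000 1643168 152146)) (.aff 500000 2079664 120212)) (.aff
 1000000 0 0))), (.pol), (.sy 180000 (.pol) (.pol)), (.pol)⟩, .one ⟨2008000, 753, 3313200, -1446210, 679428,
 0, 0, 75000, 360000, 628000⟩ ⟨0, .pol, .pol, .pol, .pol, (.sy 494000 (.sy 427000 (.aff 2050000 5316068
 207391) (.aff 2000000 4955805 201784)) (.aff 1900000 4922926 164537)), .pol, (.pol), (.pol), .pol⟩], [.one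
 ⟨2008000, 753, 732920, 0, 215378, 0, 250000, 300000, 0, 300000⟩ ⟨0, .pol, .pol, .pol, .pol, (.sy 150000 (.sy
 75000 (.sy 37500 (.sy 18750 (.aff 875000 18092 863642) (.aff 1000000 0 0)) (.aff 1000000 0 0)) (.aff 1000000
 0 0)) (.aff 1000000 0 0)), .pol, (.pol), (.sy 150000 (.pol) (.pol)), .pol⟩, .two ⟨2008000, 753, 732920,
 -1749290, 740164, 0, 250000, 300000, 300000, 450000⟩ ⟨0, .pol, .pol, .pol, .pol, (.aff 1000000 0 0), .pol,
 (.pol), (.pol), .pol⟩ ⟨2008000, 753, 732920, -1749290, 740164, 0, 250000, 300000, 450000, 550000⟩ ⟨0, .pol,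
 .pol, .pol, .pol, (.aff 1000000 0 0), .pol, (.pol), (.pol), .pol⟩, .one ⟨2008000, 753, 732920, 709426,
 -612129, 0, 250000, 300000, 550000, 750000⟩ ⟨0, .pol, .pol, .pol, .pol, (.aff 1000000 0 0), .pol, (.aff
 1000000 0 0), (.pol), .pol⟩, .one ⟨2008000, 753, 732920, 987216, -820472, 0, 250000, 300000, 750000, 884000⟩
 ⟨0, .pol, .pol, .pol, .pol, (.aff 1000000 0 0), .pol, (.aff 1000000 0 0), (.pol), .pol⟩]⟩, ⟨[.one ⟨4000000,
 0, 808000, 7777, 0, 0, 0, 75000, 0, 360000⟩ ⟨75000, (.pol), (.pol), (.pol), (.pol), (.pol), (.pol), (.pol),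
 (.pol), (.pol)⟩, .one ⟨4000000, 0, 808000, -94030, 36650, 0, 0, 75000, 360000, 628000⟩ ⟨0, .pol, .pol, .pol,
 .pol, (.sx 37500 (.sx 18750 (.sy 494000 (.sx 9375 (.sy 427000 (.sx 4687 (.sy 393500 (.sx 2343 (.sy 376750
 (.pol) (.sx 1171 (.sy 385125 (.pol) (.inf 20628883 48476)) (.pol))) (.pol)) (.sx 2343 (.sy 410250 (.sx 1171
 (.inf 26198839 38170) (.sy 401875 (.sx 1757 (.inf 16481641 60674) (.pol)) (.inf 15202345 65780))) (.inf
 18903466 52901)) (.sy 410250 (.sx 3515 (.sy 401875 (.pol) (.sx 2929 (.sy 406062 (.pol) (.inf 12443439 80364))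
 (.pol))) (.pol)) (.sx 3515 (.inf 11955092 83647) (.sy 418625 (.pol) (.inf 10153810 98486)))))) (.pol)) (.sx
 4687 (.inf 14017881 71338) (.sy 460500 (.sx 7031 (.sy 443750 (.sx 5859 (.inf 9086631 110052) (.sy 435375
 (.pol) (.inf 8258456 121089))) (.inf 8784510 113837)) (.sy 443750 (.pol) (.sx 8203 (.inf 7704373 129797) (.sy
 452125 (.pol) (.inf 7205456 138784))))) (.inf 8238809 121377)))) (.sy 427000 (.pol) (.sx 14062 (.sy 460500
 (.pol) (.sx 11718 (.inf 6726960 148656) (.sy 477250 (.pol) (.inf 6137961 162921)))) (.pol)))) (.inf 6188506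
 161590)) (.sy 494000 (.pol) (.sx 28125 (.sy 561000 (.sy 527500 (.pol) (.inf 4818852 207519)) (.inf 5036401
 198555)) (.pol)))) (.pol)), .pol, (.pol), (.sx 37500 (.sx 18750 (.sy 494000 (.sx 9375 (.sy 427000 (.sx 4687
 (.sy 393500 (.sx 2343 (.sy 376750 (.pol) (.sx 1171 (.sy 385125 (.pol) (.inf 20628883 48476)) (.pol))) (.pol))
 (.sx 2343 (.sy 410250 (.sx 1171 (.inf 26198839 38170) (.sy 401875 (.sx 1757 (.inf 16481641 60674) (.pol))
 (.inf 15202345 65780))) (.inf 18903466 52901)) (.sy 410250 (.sx 3515 (.sy 401875 (.pol) (.sx 2929 (.sy 406062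
 (.pol) (.inf 12443439 80364)) (.pol))) (.pol)) (.sx 3515 (.inf 11955092 83647) (.sy 418625 (.pol) (.inf
 10153810 98486)))))) (.pol)) (.sx 4687 (.inf 14017881 71338) (.sy 460500 (.sx 7031 (.sy 443750 (.sx 5859
 (.inf 9086631 110052) (.sy 435375 (.pol) (.inf 8258456 121089))) (.inf 8784510 113837)) (.sy 443750 (.pol)
 (.sx 8203 (.inf 7704373 129797) (.sy 452125 (.pol) (.inf 7205456 138784))))) (.inf 8238809 121377)))) (.sy
 427000 (.pol) (.sx 14062 (.sy 460500 (.pol) (.sx 11718 (.inf 6726960 148656) (.sy 477250 (.pol) (.inf 6137961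
 162921)))) (.pol)))) (.inf 6188506 161590)) (.sy 494000 (.pol) (.sx 28125 (.sy 561000 (.sy 527500 (.pol)
 (.inf 4818852 207519)) (.inf 5036401 198555)) (.pol)))) (.pol)), .pol⟩], [.one ⟨4000000, 0, 0, 133, 200, 0,
 250000, 300000, 0, 300000⟩ ⟨0, .pol, .pol, .pol, .pol, (.pol), .pol, (.pol), (.pol), .pol⟩, .one ⟨4000000, 0,
 0, 480, 96, 0, 250000, 300000, 300000, 550000⟩ ⟨0, .pol, .pol, .pol, .pol, (.pol), .pol, (.pol), (.pol),
 .pol⟩, .one ⟨4000000, 0, 0, 400, 140, 0, 250000, 300000, 550000, 750000⟩ ⟨0, .pol, .pol, .pol, .pol, (.pol),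
 .pol, (.pol), (.pol), .pol⟩, .one ⟨4000000, 0, 0, 298, 216, 0, 250000, 300000, 750000, 884000⟩ ⟨0, .pol,
 .pol, .pol, .pol, (.pol), .pol, (.pol), (.pol), .pol⟩]⟩, ⟨[.one ⟨2080000, 78, 865280, 36111, 0, 0, 0, 75000,
 0, 360000⟩ ⟨18750, (.aff 3162278 316228), (.pol), (.pol), (.pol), (.aff 0 2342161 426957), (.sx 9375 (.sx
 4687 (.sy 189375 (.aff 0 6663688 150068) (.sy 274687 (.aff 0 9950400 100499) (.aff 225000 9966978 60262)))
 (.sy 189375 (.aff 0 3847146 259933) (.aff 250000 4687834 119992))) (.aff 125000 3517457 217665)), (.pol),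
 (.sy 180000 (.sy 90000 (.pol) (.pol)) (.pol)), (.pol)⟩, .one ⟨2080000, 78, 865280, -168263, 73574, 0, 0,
 75000, 360000, 628000⟩ ⟨0, .pol, .pol, .pol, .pol, (.sx 37500 (.sy 494000 (.sy 427000 (.aff 2200000 11598072
 124159) (.aff 2200000 10272339 140183)) (.aff 3000000 10939836 365637)) (.aff 1000000 0 0)), .pol, (.aff
 3000000 7582436 527535), (.pol), .pol⟩], [.one ⟨2080000, 78, 58240, 0, 27684, 0, 250000, 300000, 0, 300000⟩
 ⟨0, .pol, .pol, .pol, .pol, (.sy 150000 (.sy 75000 (.sy 37500 (.sy 18750 (.aff 875000 23080 676994) (.aff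
 1000000 0 0)) (.aff 1000000 0 0)) (.aff 1000000 0 0)) (.aff 1000000 0 0)), .pol, (.pol), (.sy 150000 (.pol)
 (.pol)), .pol⟩, .two ⟨2080000, 78, 58240, -184372, 82996, 0, 250000, 300000, 300000, 450000⟩ ⟨0, .pol, .pol,
 .pol, .pol, (.aff 1000000 0 0), .pol, (.pol), (.pol), .pol⟩ ⟨2080000, 78, 58240, -184372, 82996, 0, 250000,
 300000, 450000, 550000⟩ ⟨0, .pol, .pol, .pol, .pol, (.aff 1000000 0 0), .pol, (.pol), (.pol), .pol⟩, .one
 ⟨2080000, 78, 58240, 78104, -61366, 0, 250000, 300000, 550000, 750000⟩ ⟨0, .pol, .pol, .pol, .pol, (.aff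
 1000000 0 0), .pol, (.aff 1000000 0 0), (.pol), .pol⟩, .one ⟨2080000, 78, 58240, 102447, -79624, 0, 250000,
 300000, 750000, 884000⟩ ⟨0, .pol, .pol, .pol, .pol, (.aff 1000000 0 0), .pol, (.aff 1000000 0 0), (.pol),
 .pol⟩]⟩, ⟨[.one ⟨4000000, 202, 732000, 140444, 0, 0, 0, 75000, 0, 360000⟩ ⟨75000, (.aff 2000000 500000),
 (.pol), (.pol), (.pol), (.aff 250000 1161896 484123), (.sy 217500 (.aff 0 2286591 437333) (.aff 375000
 2452678 159265)), (.pol), (.sy 180000 (.pol) (.pol)), (.pol)⟩, .one ⟨4000000, 202, 732000, -395224, 192840,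
 0, 0, 75000, 360000, 628000⟩ ⟨0, .pol, .pol, .pol, .pol, (.aff 2000000 4433092 225577), .pol, (.pol), (.pol),
 .pol⟩], [.one ⟨4000000, 202, 104000, 0, 85680, 0, 250000, 300000, 0, 300000⟩ ⟨0, .pol, .pol, .pol, .pol, (.sy
 150000 (.sy 75000 (.sy 37500 (.sy 18750 (.aff 875000 22098 707078) (.aff 1000000 0 0)) (.aff 1000000 0 0))
 (.aff 1000000 0 0)) (.aff 1000000 0 0)), .pol, (.pol), (.sy 150000 (.pol) (.pol)), .pol⟩, .two ⟨4000000, 202,
 104000, -487040, 231792, 0, 250000, 300000, 300000, 450000⟩ ⟨0, .pol, .pol, .pol, .pol, (.aff 1000000 0 0),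
 .pol, (.pol), (.pol), .pol⟩ ⟨4000000, 202, 104000, -487040, 231792, 0, 250000, 300000, 450000, 550000⟩ ⟨0,
 .pol, .pol, .pol, .pol, (.aff 1000000 0 0), .pol, (.pol), (.pol), .pol⟩, .one ⟨4000000, 202, 104000, 213800,
 -153670, 0, 250000, 300000, 550000, 750000⟩ ⟨0, .pol, .pol, .pol, .pol, (.aff 1000000 0 0), .pol, (.aff
 1000000 0 0), (.pol), .pol⟩, .one ⟨4000000, 202, 104000, 265373, -192350, 0, 250000, 300000, 750000, 884000⟩
 ⟨0, .pol, .pol, .pol, .pol, (.aff 1000000 0 0), .pol, (.aff 1000000 0 0), (.pol), .pol⟩]⟩, ⟨[.one ⟨2040000,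
 51, 204000, 84546, 0, 0, 0, 75000, 0, 360000⟩ ⟨75000, (.aff 1414214 707107), (.pol), (.pol), (.pol), (.aff 0
 1549194 645497), (.aff 0 2408319 415228), (.pol), (.pol), (.pol)⟩, .one ⟨2040000, 51, 204000, 3577, 29148, 0,
 0, 75000, 360000, 628000⟩ ⟨0, .pol, .pol, .pol, .pol, (.aff 3000000 7259018 551039), .pol, (.pol), (.pol),
 .pol⟩], [.one ⟨2040000, 51, 108120, 20604, 2346, 0, 250000, 300000, 0, 300000⟩ ⟨0, .pol, .pol, .pol, .pol,
 (.aff 1000000 0 0), .pol, (.pol), (.pol), .pol⟩, .one ⟨2040000, 51, 108120, 45451, -5109, 0, 250000, 300000,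
 300000, 550000⟩ ⟨0, .pol, .pol, .pol, .pol, (.aff 1000000 0 0), .pol, (.pol), (.pol), .pol⟩, .one ⟨2040000,
 51, 108120, 59670, -12929, 0, 250000, 300000, 550000, 750000⟩ ⟨0, .pol, .pol, .pol, .pol, (.aff 1000000 0 0),
 .pol, (.pol), (.pol), .pol⟩, .one ⟨2040000, 51, 108120, 68507, -19557, 0, 250000, 300000, 750000, 884000⟩ ⟨0,
 .pol, .pol, .pol, .pol, (.aff 1000000 0 0), .pol, (.pol), (.pol), .pol⟩]⟩] = true := by decide +kernel

theorem II_xQ22 : PropII xQ22 := propII_of cQ22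

theorem cQ23 : chkII xQ23 ⟨655000, 660000, 810862, 809323, 812406, 585231, 587371, 583100, 587367, 583095⟩
 [⟨[.one ⟨2008000, 753, 3367416, 442931, 0, 0, 0, 80000, 0, 360000⟩ ⟨80000, (.aff 3162278 316228), (.pol),
 (.pol), (.pol), (.aff 500000 750000 333334), (.sy 220000 (.aff 0 3344950 298959) (.sy 290000 (.sy 255000 (.sy
 237500 (.sy 228750 (.aff 0 3349441 298558) (.sy 233125 (.sy 230937 (.aff 13000 3345941 291150) (.sx 40000
 (.aff 244000 3641622 156946) (.aff 0 1966516 508514))) (.sx 40000 (.aff 250000 3638177 154611) (.aff 0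
 1980373 504956)))) (.sx 40000 (.aff 263000 3657259 148519) (.aff 1000000 0 0))) (.aff 200000 3430856 186543))
 (.aff 1000000 0 0))), (.pol), (.sy 180000 (.pol) (.pol)), (.pol)⟩, .one ⟨2008000, 753, 3367416, -1506675,
 701858, 0, 0, 80000, 360000, 628000⟩ ⟨0, .pol, .pol, .pol, .pol, (.sy 494000 (.sy 427000 (.aff 2100000
 4879217 247991) (.aff 2000000 4798438 208402)) (.aff 1925000 4899009 174653)), .pol, (.pol), (.pol), .pol⟩],
 [.one ⟨2008000, 753, 797176, 0, 191201, 0, 250000, 300000, 0, 300000⟩ ⟨0, .pol, .pol, .pol, .pol, (.sy 150000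
 (.sy 75000 (.sy 37500 (.sy 18750 (.aff 875000 14813 1054817) (.aff 1000000 0 0)) (.aff 1000000 0 0)) (.aff
 1000000 0 0)) (.aff 1000000 0 0)), .pol, (.pol), (.sy 150000 (.pol) (.pol)), .pol⟩, .two ⟨2008000, 753,
 797176, -1713628, 705289, 0, 250000, 300000, 300000, 450000⟩ ⟨0, .pol, .pol, .pol, .pol, (.aff 1000000 0 0),
 .pol, (.pol), (.pol), .pol⟩ ⟨2008000, 753, 797176, -1713628, 705289, 0, 250000, 300000, 450000, 550000⟩ ⟨0,
 .pol, .pol, .pol, .pol, (.aff 1000000 0 0), .pol, (.pol), (.pol), .pol⟩, .one ⟨2008000, 753, 797176, 702398,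
 -623525, 0, 250000, 300000, 550000, 750000⟩ ⟨0, .pol, .pol, .pol, .pol, (.aff 1000000 0 0), .pol, (.aff
 1000000 0 0), (.pol), .pol⟩, .one ⟨2008000, 753, 797176, 1018385, -860515, 0, 250000, 300000, 750000, 884000⟩
 ⟨0, .pol, .pol, .pol, .pol, (.aff 1000000 0 0), .pol, (.aff 1000000 0 0), (.pol), .pol⟩]⟩, ⟨[.one ⟨4000000,
 0, 580000, 8333, 0, 0, 0, 80000, 0, 360000⟩ ⟨80000, (.pol), (.pol), (.pol), (.pol), (.pol), (.pol), (.pol),
 (.pol), (.pol)⟩, .one ⟨4000000, 0, 580000, -65374, 26534, 0, 0, 80000, 360000, 628000⟩ ⟨0, .pol, .pol, .pol,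
 .pol, (.sx 40000 (.sx 20000 (.sy 494000 (.sx 10000 (.sy 427000 (.sx 5000 (.sy 393500 (.pol) (.sx 2500 (.sx
 1250 (.inf 25620305 39032) (.inf 11833512 84506)) (.pol))) (.pol)) (.sx 5000 (.inf 13572031 73681) (.sy
 460500 (.sy 443750 (.pol) (.inf 6211388 160995)) (.inf 7977051 125360)))) (.pol)) (.inf 5991995 166890)) (.sy
 494000 (.pol) (.sy 561000 (.pol) (.inf 4451592 224639)))) (.pol)), .pol, (.pol), (.sx 40000 (.sx 20000 (.sy
 494000 (.sx 10000 (.sy 427000 (.sx 5000 (.sy 393500 (.pol) (.sx 2500 (.sx 1250 (.inf 25620305 39032) (.inf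
 11833512 84506)) (.pol))) (.pol)) (.sx 5000 (.inf 13572031 73681) (.sy 460500 (.sy 443750 (.pol) (.inf
 6211388 160995)) (.inf 7977051 125360)))) (.pol)) (.inf 5991995 166890)) (.sy 494000 (.pol) (.sy 561000
 (.pol) (.inf 4451592 224639)))) (.pol)), .pol⟩], [.one ⟨4000000, 0, 4000, 266, -840, 0, 250000, 300000, 0,
 300000⟩ ⟨0, .pol, .pol, .pol, .pol, (.pol), .pol, (.pol), (.pol), .pol⟩, .one ⟨4000000, 0, 4000, 320, -856,
 0, 250000, 300000, 300000, 550000⟩ ⟨0, .pol, .pol, .pol, .pol, (.pol), .pol, (.pol), (.pol), .pol⟩, .one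
 ⟨4000000, 0, 4000, 400, -900, 0, 250000, 300000, 550000, 750000⟩ ⟨0, .pol, .pol, .pol, .pol, (.pol), .pol,
 (.pol), (.pol), .pol⟩, .one ⟨4000000, 0, 4000, 597, -1048, 0, 250000, 300000, 750000, 884000⟩ ⟨0, .pol, .pol,
 .pol, .pol, (.pol), .pol, (.pol), (.pol), .pol⟩]⟩, ⟨[.one ⟨8000000, 299, 3216000, 141111, 0, 0, 0, 80000, 0,
 360000⟩ ⟨40000, (.aff 3162278 316228), (.pol), (.pol), (.pol), (.aff 0 1732051 577351), (.sx 20000 (.sx 10000
 (.sy 200000 (.aff 0 4898980 204125) (.sy 280000 (.aff 0 9797959 102063) (.aff 250000 9377687 59983))) (.aff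
 250000 2738613 205396)) (.aff 0 2581989 387299)), (.pol), (.sy 180000 (.pol) (.pol)), (.pol)⟩, .one ⟨8000000,
 299, 3216000, -653433, 286035, 0, 0, 80000, 360000, 628000⟩ ⟨0, .pol, .pol, .pol, .pol, (.aff 2388000
 10551474 182586), .pol, (.aff 3000000 7341662 544836), (.pol), .pol⟩], [.one ⟨8000000, 299, 72000, 0, 149520,
 0, 250000, 300000, 0, 300000⟩ ⟨0, .pol, .pol, .pol, .pol, (.sy 150000 (.sy 75000 (.sy 37500 (.sy 18750 (.aff
 875000 18092 863642) (.aff 1000000 0 0)) (.aff 1000000 0 0)) (.aff 1000000 0 0)) (.aff 1000000 0 0)), .pol,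
 (.pol), (.sy 150000 (.pol) (.pol)), .pol⟩, .two ⟨8000000, 299, 72000, -725760, 367248, 0, 250000, 300000,
 300000, 450000⟩ ⟨0, .pol, .pol, .pol, .pol, (.aff 1000000 0 0), .pol, (.pol), (.pol), .pol⟩ ⟨8000000, 299,
 72000, -725760, 367248, 0, 250000, 300000, 450000, 550000⟩ ⟨0, .pol, .pol, .pol, .pol, (.aff 1000000 0 0),
 .pol, (.aff 1000000 0 0), (.pol), .pol⟩, .one ⟨8000000, 299, 72000, 338000, -217820, 0, 250000, 300000,
 550000, 750000⟩ ⟨0, .pol, .pol, .pol, .pol, (.aff 1000000 0 0), .pol, (.aff 1000000 0 0), (.pol), .pol⟩, .one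
 ⟨8000000, 299, 72000, 397014, -262082, 0, 250000, 300000, 750000, 884000⟩ ⟨0, .pol, .pol, .pol, .pol, (.aff
 1000000 0 0), .pol, (.aff 1000000 0 0), (.pol), .pol⟩]⟩, ⟨[.one ⟨3200000, 198, 499200, 190222, 0, 0, 0,
 80000, 0, 360000⟩ ⟨80000, (.aff 1414214 707107), (.aff 707107 1414214), (.pol), (.pol), (.sy 180000 (.sy
 90000 (.aff 0 750000 1333334) (.aff 250000 974279 577351)) (.aff 1000000 0 0)), (.sy 220000 (.aff 75000
 1391224 615016) (.aff 1000000 0 0)), (.pol), (.sy 180000 (.pol) (.pol)), (.pol)⟩, .one ⟨3200000, 198, 499200,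
 -452777, 231479, 0, 0, 80000, 360000, 628000⟩ ⟨0, .pol, .pol, .pol, .pol, (.aff 2000000 3514257 284556),
 .pol, (.pol), (.pol), .pol⟩], [.one ⟨3200000, 198, 41600, 0, 100768, 0, 250000, 300000, 0, 300000⟩ ⟨0, .pol,
 .pol, .pol, .pol, (.sy 150000 (.sy 75000 (.sy 37500 (.sy 18750 (.aff 875000 18092 863642) (.aff 1000000 0 0))
 (.aff 1000000 0 0)) (.aff 1000000 0 0)) (.aff 1000000 0 0)), .pol, (.pol), (.sy 150000 (.pol) (.pol)), .pol⟩,
 .two ⟨3200000, 198, 41600, -481024, 245075, 0, 250000, 300000, 300000, 450000⟩ ⟨0, .pol, .pol, .pol, .pol,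
 (.aff 1000000 0 0), .pol, (.pol), (.pol), .pol⟩ ⟨3200000, 198, 41600, -481024, 245075, 0, 250000, 300000,
 450000, 550000⟩ ⟨0, .pol, .pol, .pol, .pol, (.aff 1000000 0 0), .pol, (.aff 1000000 0 0), (.pol), .pol⟩, .one
 ⟨3200000, 198, 41600, 223520, -142424, 0, 250000, 300000, 550000, 750000⟩ ⟨0, .pol, .pol, .pol, .pol, (.aff
 1000000 0 0), .pol, (.aff 1000000 0 0), (.pol), .pol⟩, .one ⟨3200000, 198, 41600, 262686, -171799, 0, 250000,
 300000, 750000, 884000⟩ ⟨0, .pol, .pol, .pol, .pol, (.aff 1000000 0 0), .pol, (.aff 1000000 0 0), (.pol),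
 .pol⟩]⟩, ⟨[.one ⟨2016000, 63, 252000, 87360, 0, 0, 0, 80000, 0, 360000⟩ ⟨80000, (.aff 1414214 707107),
 (.pol), (.pol), (.pol), (.aff 0 1500000 666667), (.sy 220000 (.aff 0 2738613 365149) (.aff 500000 2325482
 107505)), (.pol), (.sy 180000 (.pol) (.pol)), (.pol)⟩, .one ⟨2016000, 63, 252000, 38589, 17557, 0, 0, 80000,
 360000, 628000⟩ ⟨0, .pol, .pol, .pol, .pol, (.aff 2000000 4969910 201211), .pol, (.pol), (.pol), .pol⟩],
 [.one ⟨2016000, 63, 60480, 23520, 23385, 0, 250000, 300000, 0, 300000⟩ ⟨0, .pol, .pol, .pol, .pol, (.aff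
 1000000 0 0), .pol, (.pol), (.pol), .pol⟩, .one ⟨2016000, 63, 60480, 53383, 14426, 0, 250000, 300000, 300000,
 550000⟩ ⟨0, .pol, .pol, .pol, .pol, (.aff 1000000 0 0), .pol, (.pol), (.pol), .pol⟩, .one ⟨2016000, 63,
 60480, 71265, 4591, 0, 250000, 300000, 550000, 750000⟩ ⟨0, .pol, .pol, .pol, .pol, (.aff 1000000 0 0), .pol,
 (.pol), (.pol), .pol⟩, .one ⟨2016000, 63, 60480, 83648, -4697, 0, 250000, 300000, 750000, 884000⟩ ⟨0, .pol,
 .pol, .pol, .pol, (.aff 1000000 0 0), .pol, (.pol), (.pol), .pol⟩]⟩] = true := by decide +kernel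

theorem II_xQ23 : PropII xQ23 := propII_of cQ23

theorem cQ24 : chkII xQ24 ⟨660000, 665000, 813940, 812406, 815477, 580944, 583100, 578796, 583095, 578791⟩
 [⟨[.one ⟨8000000, 2999, 13000000, 1808705, 0, 0, 0, 85000, 0, 340000⟩ ⟨85000, (.aff 3162278 316228), (.pol),
 (.pol), (.pol), (.aff 500000 707107 353554), (.sx 42500 (.sx 21250 (.sy 212500 (.aff 0 3741658 267262) (.sy
 276250 (.sy 244375 (.aff 125000 3312697 231119) (.aff 250000 3712311 151523)) (.aff 500000 2692583 92848)))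
 (.sy 212500 (.aff 125000 2529071 302730) (.aff 1000000 0 0))) (.aff 250000 1369307 410792)), (.pol), (.sy
 170000 (.pol) (.pol)), (.pol)⟩, .one ⟨8000000, 2999, 13000000, -5063842, 2336665, 0, 0, 85000, 340000,
 642000⟩ ⟨0, .pol, .pol, .pol, .pol, (.sy 491000 (.sy 415500 (.sx 42500 (.aff 1500000 2981315 83856) (.aff
 1000000 0 0)) (.sy 453250 (.sy 434375 (.sx 42500 (.aff 1600000 3794455 94876) (.aff 1000000 0 0)) (.sy 443812
 (.sx 42500 (.aff 1600000 4711121 76415) (.aff 1000000 0 0)) (.aff 2159000 5324763 252271))) (.aff 2100000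
 5184916 233370))) (.aff 2000000 5163219 193678)), .pol, (.pol), (.pol), .pol⟩], [.one ⟨8000000, 2999,
 3224000, 0, 732400, 0, 250000, 300000, 0, 300000⟩ ⟨0, .pol, .pol, .pol, .pol, (.aff 1000000 0 0), .pol,
 (.pol), (.sy 150000 (.pol) (.pol)), .pol⟩, .two ⟨8000000, 2999, 3224000, -6744640, 2755792, 0, 250000,
 300000, 300000, 450000⟩ ⟨0, .pol, .pol, .pol, .pol, (.aff 1000000 0 0), .pol, (.pol), (.pol), .pol⟩ ⟨8000000,
 2999, 3224000, -6744640, 2755792, 0, 250000, 300000, 450000, 550000⟩ ⟨0, .pol, .pol, .pol, .pol, (.aff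
 1000000 0 0), .pol, (.pol), (.pol), .pol⟩, .one ⟨8000000, 2999, 3224000, 2830000, -2510260, 0, 250000,
 300000, 550000, 750000⟩ ⟨0, .pol, .pol, .pol, .pol, (.aff 1000000 0 0), .pol, (.aff 1000000 0 0), (.pol),
 .pol⟩, .one ⟨8000000, 2999, 3224000, 4095867, -3459661, 0, 250000, 300000, 750000, 871000⟩ ⟨0, .pol, .pol,
 .pol, .pol, (.aff 1000000 0 0), .pol, (.aff 1000000 0 0), (.pol), .pol⟩]⟩, ⟨[.one ⟨4000000, 0, 772000, 24117,
 0, 0, 0, 85000, 0, 340000⟩ ⟨85000, (.pol), (.pol), (.pol), (.pol), (.pol), (.pol), (.pol), (.pol), (.pol)⟩,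
 .one ⟨4000000, 0, 772000, -144239, 57241, 0, 0, 85000, 340000, 642000⟩ ⟨0, .pol, .pol, .pol, .pol, (.sx 42500
 (.sy 491000 (.sx 21250 (.sy 415500 (.sx 10625 (.sy 377750 (.pol) (.sx 5312 (.sy 396625 (.pol) (.sx 2656 (.inf
 17486280 57188) (.sy 406062 (.pol) (.sx 3984 (.inf 11123364 89901) (.pol))))) (.pol))) (.pol)) (.sx 10625
 (.sy 453250 (.sx 5312 (.inf 10230771 97745) (.sy 434375 (.sx 7968 (.sy 424937 (.pol) (.sx 6640 (.inf 8479206
 117936) (.sy 429656 (.pol) (.inf 7690761 130027)))) (.pol)) (.sx 7968 (.inf 8175527 122317) (.sy 443812 (.sx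
 9296 (.inf 7132189 140210) (.pol)) (.inf 6946028 143968))))) (.inf 9427120 106077)) (.sy 453250 (.pol) (.sx
 15937 (.sy 472125 (.sx 13281 (.inf 6221648 160730) (.sy 462687 (.pol) (.sx 14609 (.inf 5789458 172728)
 (.pol)))) (.inf 6021587 166070)) (.sy 472125 (.pol) (.sx 18593 (.sy 481562 (.pol) (.inf 5307138 188426))
 (.pol))))))) (.pol)) (.sx 21250 (.inf 5841515 171189) (.sy 566500 (.sx 31875 (.sy 528750 (.sx 26562 (.sy
 509875 (.pol) (.inf 4660805 214556)) (.pol)) (.inf 4540537 220239)) (.pol)) (.inf 4353948 229677)))) (.sy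
 491000 (.pol) (.sx 63750 (.sy 566500 (.pol) (.sy 604250 (.pol) (.inf 3424823 291986))) (.pol)))), .pol,
 (.pol), (.sx 42500 (.sy 491000 (.sx 21250 (.sy 415500 (.sx 10625 (.sy 377750 (.pol) (.sx 5312 (.sy 396625
 (.pol) (.sx 2656 (.inf 17486280 57188) (.sy 406062 (.pol) (.sx 3984 (.inf 11123364 89901) (.pol))))) (.pol)))
 (.pol)) (.sx 10625 (.sy 453250 (.sx 5312 (.inf 10230771 97745) (.sy 434375 (.sx 7968 (.sy 424937 (.pol) (.sx
 6640 (.inf 8479206 117936) (.sy 429656 (.pol) (.inf 7690761 130027)))) (.pol)) (.sx 7968 (.inf 8175527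
 122317) (.sy 443812 (.sx 9296 (.inf 7132189 140210) (.pol)) (.inf 6946028 143968))))) (.inf 9427120 106077))
 (.sy 453250 (.pol) (.sx 15937 (.sy 472125 (.sx 13281 (.inf 6221648 160730) (.sy 462687 (.pol) (.sx 14609
 (.inf 5789458 172728) (.pol)))) (.inf 6021587 166070)) (.sy 472125 (.pol) (.sx 18593 (.sy 481562 (.pol) (.inf
 5307138 188426)) (.pol))))))) (.pol)) (.sx 21250 (.inf 5841515 171189) (.sy 566500 (.sx 31875 (.sy 528750
 (.sx 26562 (.sy 509875 (.pol) (.inf 4660805 214556)) (.pol)) (.inf 4540537 220239)) (.pol)) (.inf 4353948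
 229677)))) (.sy 491000 (.pol) (.sx 63750 (.sy 566500 (.pol) (.sy 604250 (.pol) (.inf 3424823 291986)))
 (.pol)))), .pol⟩], [.one ⟨4000000, 0, 0, 133, 200, 0, 250000, 300000, 0, 300000⟩ ⟨0, .pol, .pol, .pol, .pol,
 (.pol), .pol, (.pol), (.pol), .pol⟩, .one ⟨4000000, 0, 0, 480, 96, 0, 250000, 300000, 300000, 550000⟩ ⟨0,
 .pol, .pol, .pol, .pol, (.pol), .pol, (.pol), (.pol), .pol⟩, .one ⟨4000000, 0, 0, 400, 140, 0, 250000,
 300000, 550000, 750000⟩ ⟨0, .pol, .pol, .pol, .pol, (.pol), .pol, (.pol), (.pol), .pol⟩, .one ⟨4000000, 0, 0,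
 330, 192, 0, 250000, 300000, 750000, 871000⟩ ⟨0, .pol, .pol, .pol, .pol, (.pol), .pol, (.pol), (.pol),
 .pol⟩]⟩, ⟨[.one ⟨8000000, 233, 2536000, 112000, 0, 0, 0, 85000, 0, 340000⟩ ⟨21250, (.aff 3162278 316228),
 (.pol), (.pol), (.pol), (.aff 0 2138090 467708), (.sx 10625 (.sx 5312 (.sy 180625 (.aff 0 6164705 162214)
 (.sy 260312 (.aff 0 9110858 109760) (.aff 250000 9738222 57763))) (.sy 180625 (.aff 0 3559082 280972) (.aff
 250000 4286675 131221))) (.aff 250000 2524877 222784)), (.pol), (.sy 170000 (.pol) (.pol)), (.pol)⟩, .one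
 ⟨8000000, 233, 2536000, -389140, 170387, 0, 0, 85000, 340000, 642000⟩ ⟨0, .pol, .pol, .pol, .pol, (.sy 491000
 (.aff 1919000 10639716 79379) (.aff 3000000 10326437 387356)), .pol, (.pol), (.pol), .pol⟩], [.one ⟨8000000,
 233, 208000, 0, 69920, 0, 250000, 300000, 0, 300000⟩ ⟨0, .pol, .pol, .pol, .pol, (.aff 1000000 0 0), .pol,
 (.pol), (.sy 150000 (.pol) (.pol)), .pol⟩, .two ⟨8000000, 233, 208000, -531200, 229280, 0, 250000, 300000,
 300000, 450000⟩ ⟨0, .pol, .pol, .pol, .pol, (.aff 1000000 0 0), .pol, (.pol), (.pol), .pol⟩ ⟨8000000, 233,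
 208000, -531200, 229280, 0, 250000, 300000, 450000, 550000⟩ ⟨0, .pol, .pol, .pol, .pol, (.aff 1000000 0 0),
 .pol, (.pol), (.pol), .pol⟩, .one ⟨8000000, 233, 208000, 230400, -189600, 0, 250000, 300000, 550000, 750000⟩
 ⟨0, .pol, .pol, .pol, .pol, (.aff 1000000 0 0), .pol, (.aff 1000000 0 0), (.pol), .pol⟩, .one ⟨8000000, 233,
 208000, 312727, -251346, 0, 250000, 300000, 750000, 871000⟩ ⟨0, .pol, .pol, .pol, .pol, (.aff 1000000 0 0),
 .pol, (.aff 1000000 0 0), (.pol), .pol⟩]⟩, ⟨[.one ⟨3000000, 123, 1167000, 61147, 0, 0, 0, 85000, 0, 340000⟩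
 ⟨85000, (.aff 3162278 316228), (.pol), (.pol), (.pol), (.pol), (.sy 212500 (.aff 0 4820874 207432) (.aff
 175000 8085747 84176)), (.pol), (.pol), (.pol)⟩, .one ⟨3000000, 123, 1167000, -210795, 92460, 0, 0, 85000,
 340000, 642000⟩ ⟨0, .pol, .pol, .pol, .pol, (.sx 42500 (.sy 491000 (.sy 415500 (.aff 1900000 9778157 82838)
 (.aff 2100000 8775180 137889)) (.aff 2000000 7301894 136951)) (.aff 1000000 0 0)), .pol, (.pol), (.pol),
 .pol⟩], [.one ⟨3000000, 123, 42000, 0, 57210, 0, 250000, 300000, 0, 300000⟩ ⟨0, .pol, .pol, .pol, .pol, (.aff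
 1000000 0 0), .pol, (.pol), (.sy 150000 (.pol) (.pol)), .pol⟩, .two ⟨3000000, 123, 42000, -294120, 145446, 0,
 250000, 300000, 300000, 450000⟩ ⟨0, .pol, .pol, .pol, .pol, (.aff 1000000 0 0), .pol, (.pol), (.pol), .pol⟩
 ⟨3000000, 123, 42000, -294120, 145446, 0, 250000, 300000, 450000, 550000⟩ ⟨0, .pol, .pol, .pol, .pol, (.aff
 1000000 0 0), .pol, (.pol), (.pol), .pol⟩, .one ⟨3000000, 123, 42000, 138300, -92385, 0, 250000, 300000,
 550000, 750000⟩ ⟨0, .pol, .pol, .pol, .pol, (.aff 1000000 0 0), .pol, (.aff 1000000 0 0), (.pol), .pol⟩, .one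
 ⟨3000000, 123, 42000, 165123, -112503, 0, 250000, 300000, 750000, 871000⟩ ⟨0, .pol, .pol, .pol, .pol, (.aff
 1000000 0 0), .pol, (.aff 1000000 0 0), (.pol), .pol⟩]⟩, ⟨[.one ⟨2040000, 51, 204000, 85500, 0, 0, 0, 85000,
 0, 340000⟩ ⟨85000, (.aff 1414214 707107), (.pol), (.pol), (.pol), (.aff 0 1414214 707107), (.aff 0 2236068
 447214), (.pol), (.pol), (.pol)⟩, .one ⟨2040000, 51, 204000, 6079, 27002, 0, 0, 85000, 340000, 642000⟩ ⟨0,
 .pol, .pol, .pol, .pol, (.aff 3000000 6797924 588415), .pol, (.pol), (.pol), .pol⟩], [.one ⟨2040000, 51,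
 108120, 21080, 2019, 0, 250000, 300000, 0, 300000⟩ ⟨0, .pol, .pol, .pol, .pol, (.aff 1000000 0 0), .pol,
 (.pol), (.pol), .pol⟩, .one ⟨2040000, 51, 108120, 46348, -5562, 0, 250000, 300000, 300000, 550000⟩ ⟨0, .pol,
 .pol, .pol, .pol, (.aff 1000000 0 0), .pol, (.pol), (.pol), .pol⟩, .one ⟨2040000, 51, 108120, 61098, -13674,
 0, 250000, 300000, 550000, 750000⟩ ⟨0, .pol, .pol, .pol, .pol, (.aff 1000000 0 0), .pol, (.pol), (.pol),
 .pol⟩, .one ⟨2040000, 51, 108120, 69798, -20199, 0, 250000, 300000, 750000, 871000⟩ ⟨0, .pol, .pol, .pol,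
 .pol, (.aff 1000000 0 0), .pol, (.pol), (.pol), .pol⟩]⟩] = true := by decide +kernel

theorem II_xQ24 : PropII xQ24 := propII_of cQ24

theorem cQ25 : chkII xQ25 ⟨665000, 670000, 817005, 815477, 818537, 576624, 578796, 574461, 578791, 574456⟩
 [⟨[.one ⟨8000000, 2983, 13104000, 1808235, 0, 0, 0, 90000, 0, 340000⟩ ⟨90000, (.aff 3162278 316228), (.pol),
 (.pol), (.pol), (.aff 1000000 0 0), (.sy 215000 (.aff 0 3260318 306719) (.sx 45000 (.sy 277500 (.aff 185000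
 3450167 192520) (.aff 1000000 0 0)) (.aff 1000000 0 0))), (.pol), (.pol), (.pol)⟩, .one ⟨8000000, 2983,
 13104000, -5135100, 2360733, 0, 0, 90000, 340000, 642000⟩ ⟨0, .pol, .pol, .pol, .pol, (.sy 491000 (.aff
 1900000 4723846 171471) (.aff 2000000 5017747 199293)), .pol, (.pol), (.pol), .pol⟩], [.one ⟨8000000, 2983,
 776000, 0, 1439280, 0, 250000, 300000, 0, 300000⟩ ⟨0, .pol, .pol, .pol, .pol, (.aff 1000000 0 0), .pol,
 (.pol), (.sy 150000 (.pol) (.pol)), .pol⟩, .two ⟨8000000, 2983, 776000, -7108160, 3571728, 0, 250000, 300000,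
 300000, 450000⟩ ⟨0, .pol, .pol, .pol, .pol, (.aff 1000000 0 0), .pol, (.pol), (.pol), .pol⟩ ⟨8000000, 2983,
 776000, -7108160, 3571728, 0, 250000, 300000, 450000, 550000⟩ ⟨0, .pol, .pol, .pol, .pol, (.aff 1000000 0 0),
 .pol, (.aff 1000000 0 0), (.pol), .pol⟩, .one ⟨8000000, 2983, 776000, 3441600, -2230640, 0, 250000, 300000,
 550000, 750000⟩ ⟨0, .pol, .pol, .pol, .pol, (.aff 1000000 0 0), .pol, (.aff 1000000 0 0), (.pol), .pol⟩, .one
 ⟨8000000, 2983, 776000, 4037024, -2677209, 0, 250000, 300000, 750000, 871000⟩ ⟨0, .pol, .pol, .pol, .pol,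
 (.aff 1000000 0 0), .pol, (.aff 1000000 0 0), (.pol), .pol⟩]⟩, ⟨[.one ⟨4000000, 0, 772000, 24117, 0, 0, 0,
 90000, 0, 340000⟩ ⟨90000, (.pol), (.pol), (.pol), (.pol), (.pol), (.pol), (.pol), (.pol), (.pol)⟩, .one
 ⟨4000000, 0, 772000, -152716, 60123, 0, 0, 90000, 340000, 642000⟩ ⟨0, .pol, .pol, .pol, .pol, (.sx 45000 (.sy
 491000 (.sx 22500 (.sy 415500 (.sx 11250 (.sy 377750 (.pol) (.sx 5625 (.sy 396625 (.sx 2812 (.sy 387187
 (.pol) (.inf 13356366 74871)) (.pol)) (.sx 2812 (.inf 16994320 58844) (.sy 406062 (.pol) (.sx 4218 (.inf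
 10810419 92504) (.sy 410781 (.pol) (.inf 9162208 109144)))))) (.pol))) (.pol)) (.sx 11250 (.sy 453250 (.sx
 5625 (.inf 12427568 80467) (.sy 434375 (.sx 8437 (.sy 424937 (.sx 7031 (.sy 420218 (.pol) (.inf 8171842
 122372)) (.pol)) (.inf 7817213 127923)) (.pol)) (.sx 8437 (.inf 7944951 125867) (.sy 443812 (.sx 9843 (.inf
 6931152 144277) (.sy 439093 (.pol) (.inf 6469755 154566))) (.inf 6750275 148143))))) (.inf 9161514 109153))
 (.sy 453250 (.sx 16875 (.sy 434375 (.pol) (.sx 14062 (.sy 443812 (.pol) (.sx 12656 (.sy 448531 (.pol) (.inf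
 6141820 162819)) (.pol))) (.pol))) (.pol)) (.sx 16875 (.sy 472125 (.sx 14062 (.inf 6046383 165389) (.sy
 462687 (.pol) (.inf 5496966 181919))) (.inf 5851876 170886)) (.sy 472125 (.pol) (.sx 19687 (.sy 481562 (.sx
 18281 (.inf 5208387 191999) (.pol)) (.inf 5157553 193891)) (.pol))))))) (.pol)) (.sx 22500 (.inf 5676932
 176152) (.sy 566500 (.sx 33750 (.sy 528750 (.sx 28125 (.sy 509875 (.sx 25312 (.sy 500437 (.pol) (.inf 4596840
 217541)) (.pol)) (.inf 4529465 220777)) (.pol)) (.inf 4412609 226624)) (.sy 528750 (.pol) (.sy 547625 (.pol)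
 (.inf 3761333 265864)))) (.inf 4231277 236336)))) (.sy 491000 (.pol) (.sx 67500 (.sy 566500 (.pol) (.sy
 604250 (.pol) (.inf 3328330 300451))) (.pol)))), .pol, (.pol), (.sx 45000 (.sy 491000 (.sx 22500 (.sy 415500
 (.sx 11250 (.sy 377750 (.pol) (.sx 5625 (.sy 396625 (.sx 2812 (.sy 387187 (.pol) (.inf 13356366 74871))
 (.pol)) (.sx 2812 (.inf 16994320 58844) (.sy 406062 (.pol) (.sx 4218 (.inf 10810419 92504) (.sy 410781 (.pol)
 (.inf 9162208 109144)))))) (.pol))) (.pol)) (.sx 11250 (.sy 453250 (.sx 5625 (.inf 12427568 80467) (.sy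
 434375 (.sx 8437 (.sy 424937 (.sx 7031 (.sy 420218 (.pol) (.inf 8171842 122372)) (.pol)) (.inf 7817213
 127923)) (.pol)) (.sx 8437 (.inf 7944951 125867) (.sy 443812 (.sx 9843 (.inf 6931152 144277) (.sy 439093
 (.pol) (.inf 6469755 154566))) (.inf 6750275 148143))))) (.inf 9161514 109153)) (.sy 453250 (.sx 16875 (.sy
 434375 (.pol) (.sx 14062 (.sy 443812 (.pol) (.sx 12656 (.sy 448531 (.pol) (.inf 6141820 162819)) (.pol)))
 (.pol))) (.pol)) (.sx 16875 (.sy 472125 (.sx 14062 (.inf 6046383 165389) (.sy 462687 (.pol) (.inf 5496966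
 181919))) (.inf 5851876 170886)) (.sy 472125 (.pol) (.sx 19687 (.sy 481562 (.sx 18281 (.inf 5208387 191999)
 (.pol)) (.inf 5157553 193891)) (.pol))))))) (.pol)) (.sx 22500 (.inf 5676932 176152) (.sy 566500 (.sx 33750
 (.sy 528750 (.sx 28125 (.sy 509875 (.sx 25312 (.sy 500437 (.pol) (.inf 4596840 217541)) (.pol)) (.inf 4529465
 220777)) (.pol)) (.inf 4412609 226624)) (.sy 528750 (.pol) (.sy 547625 (.pol) (.inf 3761333 265864)))) (.inf
 4231277 236336)))) (.sy 491000 (.pol) (.sx 67500 (.sy 566500 (.pol) (.sy 604250 (.pol) (.inf 3328330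
 300451))) (.pol)))), .pol⟩], [.one ⟨4000000, 0, 0, 133, 200, 0, 250000, 300000, 0, 300000⟩ ⟨0, .pol, .pol,
 .pol, .pol, (.pol), .pol, (.pol), (.pol), .pol⟩, .one ⟨4000000, 0, 0, 480, 96, 0, 250000, 300000, 300000,
 550000⟩ ⟨0, .pol, .pol, .pol, .pol, (.pol), .pol, (.pol), (.pol), .pol⟩, .one ⟨4000000, 0, 0, 400, 140, 0,
 250000, 300000, 550000, 750000⟩ ⟨0, .pol, .pol, .pol, .pol, (.pol), .pol, (.pol), (.pol), .pol⟩, .one
 ⟨4000000, 0, 0, 330, 192, 0, 250000, 300000, 750000, 871000⟩ ⟨0, .pol, .pol, .pol, .pol, (.pol), .pol,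
 (.pol), (.pol), .pol⟩]⟩, ⟨[.one ⟨8000000, 261, 3072000, 125411, 0, 0, 0, 90000, 0, 340000⟩ ⟨90000, (.aff
 3162278 316228), (.pol), (.pol), (.pol), (.pol), (.sx 45000 (.sx 22500 (.sx 11250 (.sx 5625 (.sy 215000 (.aff
 0 7363575 135804) (.sy 277500 (.aff 0 9357113 106871) (.aff 250000 11113056 50617))) (.aff 125000 5909761
 129553)) (.aff 0 3910101 255748)) (.aff 0 2523960 396203)) (.aff 0 1784709 560316)), (.pol), (.pol), (.pol)⟩,
 .one ⟨8000000, 261, 3072000, -480530, 206020, 0, 0, 90000, 340000, 642000⟩ ⟨0, .pol, .pol, .pol, .pol, (.sy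
 491000 (.aff 2100000 11626580 104072) (.aff 3000000 10035493 398586)), .pol, (.aff 3000000 6966587 574170),
 (.pol), .pol⟩], [.one ⟨8000000, 261, 240000, 0, 74560, 0, 250000, 300000, 0, 300000⟩ ⟨0, .pol, .pol, .pol,
 .pol, (.aff 1000000 0 0), .pol, (.pol), (.sy 150000 (.pol) (.pol)), .pol⟩, .two ⟨8000000, 261, 240000,
 -585920, 250336, 0, 250000, 300000, 300000, 450000⟩ ⟨0, .pol, .pol, .pol, .pol, (.aff 1000000 0 0), .pol,
 (.pol), (.pol), .pol⟩ ⟨8000000, 261, 240000, -585920, 250336, 0, 250000, 300000, 450000, 550000⟩ ⟨0, .pol,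
 .pol, .pol, .pol, (.aff 1000000 0 0), .pol, (.pol), (.pol), .pol⟩, .one ⟨8000000, 261, 240000, 258800,
 -214260, 0, 250000, 300000, 550000, 750000⟩ ⟨0, .pol, .pol, .pol, .pol, (.aff 1000000 0 0), .pol, (.aff
 1000000 0 0), (.pol), .pol⟩, .one ⟨8000000, 261, 240000, 353719, -285450, 0, 250000, 300000, 750000, 871000⟩
 ⟨0, .pol, .pol, .pol, .pol, (.aff 1000000 0 0), .pol, (.aff 1000000 0 0), (.pol), .pol⟩]⟩, ⟨[.one ⟨2400000,
 93, 914400, 45670, 0, 0, 0, 90000, 0, 340000⟩ ⟨22500, (.aff 3162278 316228), (.pol), (.pol), (.pol), (.aff 0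
 2077850 481267), (.sx 11250 (.sy 181250 (.aff 0 6018491 166155) (.sy 260625 (.aff 0 8863158 112827) (.aff
 225000 8418930 71343))) (.aff 250000 2275648 247183)), (.pol), (.sy 170000 (.pol) (.pol)), (.pol)⟩, .one
 ⟨2400000, 93, 914400, -169987, 73323, 0, 0, 90000, 340000, 642000⟩ ⟨0, .pol, .pol, .pol, .pol, (.sx 45000
 (.sy 491000 (.sy 415500 (.aff 2050000 10031423 109905) (.aff 2200000 9303210 154786)) (.aff 3000000 10035493
 398586)) (.aff 1000000 0 0)), .pol, (.aff 3000000 6966587 574170), (.pol), .pol⟩], [.one ⟨2400000, 93, 91200,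
 0, 24840, 0, 250000, 300000, 0, 300000⟩ ⟨0, .pol, .pol, .pol, .pol, (.aff 1000000 0 0), .pol, (.pol), (.sy
 150000 (.pol) (.pol)), .pol⟩, .two ⟨2400000, 93, 91200, -207744, 87163, 0, 250000, 300000, 300000, 450000⟩
 ⟨0, .pol, .pol, .pol, .pol, (.aff 1000000 0 0), .pol, (.pol), (.pol), .pol⟩ ⟨2400000, 93, 91200, -207744,
 87163, 0, 250000, 300000, 450000, 550000⟩ ⟨0, .pol, .pol, .pol, .pol, (.aff 1000000 0 0), .pol, (.pol),
 (.pol), .pol⟩, .one ⟨2400000, 93, 91200, 90840, -77058, 0, 250000, 300000, 550000, 750000⟩ ⟨0, .pol, .pol,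
 .pol, .pol, (.aff 1000000 0 0), .pol, (.aff 1000000 0 0), (.pol), .pol⟩, .one ⟨2400000, 93, 91200, 125950,
 -103391, 0, 250000, 300000, 750000, 871000⟩ ⟨0, .pol, .pol, .pol, .pol, (.aff 1000000 0 0), .pol, (.aff
 1000000 0 0), (.pol), .pol⟩]⟩, ⟨[.one ⟨2040000, 51, 204000, 85500, 0, 0, 0, 90000, 0, 340000⟩ ⟨90000, (.aff
 1414214 707107), (.pol), (.pol), (.pol), (.aff 0 1374369 727607), (.aff 0 2185813 457496), (.pol), (.pol),
 (.pol)⟩, .one ⟨2040000, 51, 204000, 4390, 27577, 0, 0, 90000, 340000, 642000⟩ ⟨0, .pol, .pol, .pol, .pol,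
 (.aff 3000000 6606395 605474), .pol, (.pol), (.pol), .pol⟩], [.one ⟨2040000, 51, 108120, 21284, 1876, 0,
 250000, 300000, 0, 300000⟩ ⟨0, .pol, .pol, .pol, .pol, (.aff 1000000 0 0), .pol, (.pol), (.pol), .pol⟩, .one
 ⟨2040000, 51, 108120, 46838, -5790, 0, 250000, 300000, 300000, 550000⟩ ⟨0, .pol, .pol, .pol, .pol, (.aff
 1000000 0 0), .pol, (.pol), (.pol), .pol⟩, .one ⟨2040000, 51, 108120, 61710, -13969, 0, 250000, 300000,
 550000, 750000⟩ ⟨0, .pol, .pol, .pol, .pol, (.aff 1000000 0 0), .pol, (.pol), (.pol), .pol⟩, .one ⟨2040000,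
 51, 108120, 70472, -20541, 0, 250000, 300000, 750000, 871000⟩ ⟨0, .pol, .pol, .pol, .pol, (.aff 1000000 0 0),
 .pol, (.pol), (.pol), .pol⟩]⟩] = true := by decide +kernel

theorem II_xQ25 : PropII xQ25 := propII_of cQ25

theorem cQ26 : chkII xQ26 ⟨670000, 675000, 820060, 818537, 821586, 572272, 574461, 570092, 574456, 570087⟩
 [⟨[.one ⟨4000000, 1471, 6388000, 903647, 0, 0, 0, 95000, 0, 340000⟩ ⟨95000, (.aff 3162278 316228), (.pol),
 (.pol), (.pol), (.aff 1000000 0 0), (.sx 47500 (.sy 217500 (.aff 10000 3249369 301628) (.sy 278750 (.aff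
 232000 3510587 168013) (.aff 1000000 0 0))) (.aff 500000 873590 286176)), (.pol), (.pol), (.pol)⟩, .one
 ⟨4000000, 1471, 6388000, -2723312, 1233165, 0, 0, 95000, 340000, 642000⟩ ⟨0, .pol, .pol, .pol, .pol, (.sy
 491000 (.aff 1950000 4853290 185957) (.aff 2000000 4883916 204754)), .pol, (.pol), (.pol), .pol⟩], [.one
 ⟨4000000, 1471, 404000, 0, 694640, 0, 250000, 300000, 0, 300000⟩ ⟨0, .pol, .pol, .pol, .pol, (.aff 1000000 0
 0), .pol, (.pol), (.sy 150000 (.pol) (.pol)), .pol⟩, .two ⟨4000000, 1471, 404000, -3459680, 1732544, 0,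
 250000, 300000, 300000, 450000⟩ ⟨0, .pol, .pol, .pol, .pol, (.aff 1000000 0 0), .pol, (.pol), (.pol), .pol⟩
 ⟨4000000, 1471, 404000, -3459680, 1732544, 0, 250000, 300000, 450000, 550000⟩ ⟨0, .pol, .pol, .pol, .pol,
 (.aff 1000000 0 0), .pol, (.aff 1000000 0 0), (.pol), .pol⟩, .one ⟨4000000, 1471, 404000, 1707800, -1109570,
 0, 250000, 300000, 550000, 750000⟩ ⟨0, .pol, .pol, .pol, .pol, (.aff 1000000 0 0), .pol, (.aff 1000000 0 0),
 (.pol), .pol⟩, .one ⟨4000000, 1471, 404000, 2011239, -1337150, 0, 250000, 300000, 750000, 871000⟩ ⟨0, .pol,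
 .pol, .pol, .pol, (.aff 1000000 0 0), .pol, (.aff 1000000 0 0), (.pol), .pol⟩]⟩, ⟨[.one ⟨4000000, 0, 772000,
 24117, 0, 0, 0, 95000, 0, 340000⟩ ⟨95000, (.pol), (.pol), (.pol), (.pol), (.pol), (.pol), (.pol), (.pol),
 (.pol)⟩, .one ⟨4000000, 0, 772000, -161722, 63185, 0, 0, 95000, 340000, 642000⟩ ⟨0, .pol, .pol, .pol, .pol,
 (.sx 47500 (.sy 491000 (.sx 23750 (.sy 415500 (.sx 11875 (.sy 377750 (.pol) (.sx 5937 (.sy 396625 (.sx 2968
 (.sy 387187 (.pol) (.inf 16250773 61536)) (.pol)) (.sx 2968 (.inf 16541676 60454) (.sy 406062 (.sx 4452 (.inf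
 10400906 96146) (.pol)) (.inf 9605130 104112)))) (.pol))) (.pol)) (.sx 11875 (.sy 453250 (.sx 5937 (.inf
 12096616 82668) (.sy 434375 (.sx 8906 (.sy 424937 (.sx 7421 (.inf 7931985 126072) (.pol)) (.inf 7608773
 131428)) (.sy 424937 (.pol) (.sx 10390 (.sy 429656 (.pol) (.inf 6691617 149441)) (.pol)))) (.sx 8906 (.inf
 7733106 129315) (.sy 443812 (.sx 10390 (.inf 6746211 148232) (.sy 439093 (.pol) (.inf 6297174 158802))) (.inf
 6570192 152203))))) (.inf 8917163 112144)) (.sy 453250 (.sx 17812 (.sy 434375 (.pol) (.sx 14843 (.sy 443812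
 (.pol) (.sx 13359 (.inf 5962360 167719) (.pol))) (.pol))) (.pol)) (.sx 17812 (.sy 472125 (.sx 14843 (.inf
 5885142 169920) (.sy 462687 (.sx 16327 (.sy 457968 (.pol) (.inf 5434757 184001)) (.pol)) (.inf 5350413
 186902))) (.inf 5695846 175567)) (.sy 472125 (.pol) (.sx 20781 (.inf 4995594 200177) (.sy 481562 (.pol) (.inf
 4673341 213980)))))))) (.pol)) (.sx 23750 (.inf 5525520 180979) (.sy 566500 (.sx 35625 (.sy 528750 (.sx 29687
 (.sy 509875 (.sx 26718 (.inf 4453300 224553) (.pol)) (.inf 4408678 226826)) (.pol)) (.inf 4294918 232834))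
 (.sy 528750 (.pol) (.sy 547625 (.pol) (.inf 3661012 273149)))) (.inf 4118423 242812)))) (.sy 491000 (.pol)
 (.sx 71250 (.sy 566500 (.pol) (.sy 604250 (.pol) (.inf 3239559 308684))) (.pol)))), .pol, (.pol), (.sx 47500
 (.sy 491000 (.sx 23750 (.sy 415500 (.sx 11875 (.sy 377750 (.pol) (.sx 5937 (.sy 396625 (.sx 2968 (.sy 387187
 (.pol) (.inf 16250773 61536)) (.pol)) (.sx 2968 (.inf 16541676 60454) (.sy 406062 (.sx 4452 (.inf 10400906
 96146) (.pol)) (.inf 9605130 104112)))) (.pol))) (.pol)) (.sx 11875 (.sy 453250 (.sx 5937 (.inf 12096616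
 82668) (.sy 434375 (.sx 8906 (.sy 424937 (.sx 7421 (.inf 7931985 126072) (.pol)) (.inf 7608773 131428)) (.sy
 424937 (.pol) (.sx 10390 (.sy 429656 (.pol) (.inf 6691617 149441)) (.pol)))) (.sx 8906 (.inf 7733106 129315)
 (.sy 443812 (.sx 10390 (.inf 6746211 148232) (.sy 439093 (.pol) (.inf 6297174 158802))) (.inf 6570192
 152203))))) (.inf 8917163 112144)) (.sy 453250 (.sx 17812 (.sy 434375 (.pol) (.sx 14843 (.sy 443812 (.pol)
 (.sx 13359 (.inf 5962360 167719) (.pol))) (.pol))) (.pol)) (.sx 17812 (.sy 472125 (.sx 14843 (.inf 5885142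
 169920) (.sy 462687 (.sx 16327 (.sy 457968 (.pol) (.inf 5434757 184001)) (.pol)) (.inf 5350413 186902)))
 (.inf 5695846 175567)) (.sy 472125 (.pol) (.sx 20781 (.inf 4995594 200177) (.sy 481562 (.pol) (.inf 4673341
 213980)))))))) (.pol)) (.sx 23750 (.inf 5525520 180979) (.sy 566500 (.sx 35625 (.sy 528750 (.sx 29687 (.sy
 509875 (.sx 26718 (.inf 4453300 224553) (.pol)) (.inf 4408678 226826)) (.pol)) (.inf 4294918 232834)) (.sy
 528750 (.pol) (.sy 547625 (.pol) (.inf 3661012 273149)))) (.inf 4118423 242812)))) (.sy 491000 (.pol) (.sx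
 71250 (.sy 566500 (.pol) (.sy 604250 (.pol) (.inf 3239559 308684))) (.pol)))), .pol⟩], [.one ⟨4000000, 0, 0,
 133, 200, 0, 250000, 300000, 0, 300000⟩ ⟨0, .pol, .pol, .pol, .pol, (.pol), .pol, (.pol), (.pol), .pol⟩, .one
 ⟨4000000, 0, 0, 480, 96, 0, 250000, 300000, 300000, 550000⟩ ⟨0, .pol, .pol, .pol, .pol, (.pol), .pol, (.pol),
 (.pol), .pol⟩, .one ⟨4000000, 0, 0, 400, 140, 0, 250000, 300000, 550000, 750000⟩ ⟨0, .pol, .pol, .pol, .pol,
 (.pol), .pol, (.pol), (.pol), .pol⟩, .one ⟨4000000, 0, 0, 330, 192, 0, 250000, 300000, 750000, 871000⟩ ⟨0,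
 .pol, .pol, .pol, .pol, (.pol), .pol, (.pol), (.pol), .pol⟩]⟩, ⟨[.one ⟨3000000, 99, 1092000, 48617, 0, 0, 0,
 95000, 0, 340000⟩ ⟨9500, (.aff 3162278 316228), (.pol), (.pol), (.pol), (.aff 200000 2533958 252570), (.sy
 174750 (.aff 0 4403946 227070) (.sy 257375 (.aff 0 9538013 104844) (.aff 250000 10272991 54756))), (.pol),
 (.sy 170000 (.sx 52250 (.sy 85000 (.pol) (.pol)) (.pol)) (.pol)), (.pol)⟩, .one ⟨3000000, 99, 1092000,
 -204736, 86139, 0, 0, 95000, 340000, 642000⟩ ⟨0, .pol, .pol, .pol, .pol, (.sx 47500 (.sy 491000 (.sy 415500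
 (.aff 2325000 11720168 149796) (.aff 3000000 12356120 323727)) (.aff 3000000 9767832 409508)) (.aff 1000000 0
 0)), .pol, (.aff 3000000 6780778 589903), (.pol), .pol⟩], [.one ⟨3000000, 99, 42000, 0, 42390, 0, 250000,
 300000, 0, 300000⟩ ⟨0, .pol, .pol, .pol, .pol, (.aff 1000000 0 0), .pol, (.pol), (.sy 150000 (.pol) (.pol)),
 .pol⟩, .two ⟨3000000, 99, 42000, -229320, 111186, 0, 250000, 300000, 300000, 450000⟩ ⟨0, .pol, .pol, .pol,
 .pol, (.aff 1000000 0 0), .pol, (.pol), (.pol), .pol⟩ ⟨3000000, 99, 42000, -229320, 111186, 0, 250000,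
 300000, 450000, 550000⟩ ⟨0, .pol, .pol, .pol, .pol, (.aff 1000000 0 0), .pol, (.pol), (.pol), .pol⟩, .one
 ⟨3000000, 99, 42000, 111600, -76320, 0, 250000, 300000, 550000, 750000⟩ ⟨0, .pol, .pol, .pol, .pol, (.aff
 1000000 0 0), .pol, (.aff 1000000 0 0), (.pol), .pol⟩, .one ⟨3000000, 99, 42000, 135619, -94335, 0, 250000,
 300000, 750000, 871000⟩ ⟨0, .pol, .pol, .pol, .pol, (.aff 1000000 0 0), .pol, (.aff 1000000 0 0), (.pol),
 .pol⟩]⟩, ⟨[.one ⟨4000000, 153, 1468000, 76705, 0, 0, 0, 95000, 0, 340000⟩ ⟨23750, (.aff 3162278 316228),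
 (.pol), (.pol), (.pol), (.aff 0 2022431 494455), (.sx 11875 (.sx 5937 (.sy 181875 (.aff 0 5885108 169921)
 (.sy 260937 (.aff 0 8636270 115791) (.aff 250000 8339148 67453))) (.sy 181875 (.aff 0 3397674 294319) (.aff
 250000 4059647 138559))) (.aff 250000 2396544 234713)), (.pol), (.sy 170000 (.pol) (.pol)), (.pol)⟩, .one
 ⟨4000000, 153, 1468000, -292186, 125423, 0, 0, 95000, 340000, 642000⟩ ⟨0, .pol, .pol, .pol, .pol, (.aff
 2207000 9393978 155084), .pol, (.aff 3000000 6780778 589903), (.pol), .pol⟩], [.one ⟨4000000, 153, 100000, 0,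
 55000, 0, 250000, 300000, 0, 300000⟩ ⟨0, .pol, .pol, .pol, .pol, (.aff 1000000 0 0), .pol, (.pol), (.sy
 150000 (.pol) (.pol)), .pol⟩, .two ⟨4000000, 153, 100000, -347680, 159304, 0, 250000, 300000, 300000, 450000⟩
 ⟨0, .pol, .pol, .pol, .pol, (.aff 1000000 0 0), .pol, (.pol), (.pol), .pol⟩ ⟨4000000, 153, 100000, -347680,
 159304, 0, 250000, 300000, 450000, 550000⟩ ⟨0, .pol, .pol, .pol, .pol, (.aff 1000000 0 0), .pol, (.pol),
 (.pol), .pol⟩, .one ⟨4000000, 153, 100000, 163600, -121900, 0, 250000, 300000, 550000, 750000⟩ ⟨0, .pol,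
 .pol, .pol, .pol, (.aff 1000000 0 0), .pol, (.aff 1000000 0 0), (.pol), .pol⟩, .one ⟨4000000, 153, 100000,
 209586, -156391, 0, 250000, 300000, 750000, 871000⟩ ⟨0, .pol, .pol, .pol, .pol, (.aff 1000000 0 0), .pol,
 (.aff 1000000 0 0), (.pol), .pol⟩]⟩, ⟨[.one ⟨2040000, 51, 204000, 85500, 0, 0, 0, 95000, 0, 340000⟩ ⟨95000,
 (.aff 1414214 707107), (.pol), (.pol), (.pol), (.pol), (.aff 0 2139848 467323), (.pol), (.pol), (.pol)⟩, .one
 ⟨2040000, 51, 204000, 2701, 28151, 0, 0, 95000, 340000, 642000⟩ ⟨0, .pol, .pol, .pol, .pol, (.aff 3100000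
 6751702 653169), .pol, (.pol), (.pol), .pol⟩], [.one ⟨2040000, 51, 108120, 21420, 1734, 0, 250000, 300000, 0,
 300000⟩ ⟨0, .pol, .pol, .pol, .pol, (.aff 1000000 0 0), .pol, (.pol), (.pol), .pol⟩, .one ⟨2040000, 51,
 108120, 47328, -6039, 0, 250000, 300000, 300000, 550000⟩ ⟨0, .pol, .pol, .pol, .pol, (.aff 1000000 0 0),
 .pol, (.pol), (.pol), .pol⟩, .one ⟨2040000, 51, 108120, 62424, -14342, 0, 250000, 300000, 550000, 750000⟩ ⟨0,
 .pol, .pol, .pol, .pol, (.aff 1000000 0 0), .pol, (.pol), (.pol), .pol⟩, .one ⟨2040000, 51, 108120, 71147,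
 -20884, 0, 250000, 300000, 750000, 871000⟩ ⟨0, .pol, .pol, .pol, .pol, (.aff 1000000 0 0), .pol, (.pol),
 (.pol), .pol⟩]⟩] = true := by decide +kernel

theorem II_xQ26 : PropII xQ26 := propII_of cQ26

theorem cQ27 : chkII xQ27 ⟨675000, 680000, 823102, 821586, 824623, 567887, 570092, 565690, 570087, 565685⟩
 [⟨[.one ⟨8000000, 2879, 12216000, 1805647, 0, 0, 0, 100000, 0, 340000⟩ ⟨100000, (.aff 3162278 316228),
 (.pol), (.pol), (.pol), (.aff 1000000 0 0), (.sx 50000 (.sx 25000 (.sy 220000 (.aff 72000 3258442 264294)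
 (.aff 275000 3431327 153185)) (.sy 220000 (.aff 125000 1979899 386700) (.aff 1000000 0 0))) (.aff 1000000 0
 0)), (.pol), (.pol), (.pol)⟩, .one ⟨8000000, 2879, 12216000, -5596822, 2516839, 0, 0, 100000, 340000, 642000⟩
 ⟨0, .pol, .pol, .pol, .pol, (.sy 491000 (.sx 50000 (.aff 2000000 4979371 200829) (.aff 1000000 0 0)) (.sy
 566500 (.aff 2050000 4828859 228315) (.aff 3000000 5676854 704616))), .pol, (.aff 2000000 4673329 213981),
 (.pol), .pol⟩], [.one ⟨8000000, 2879, -280000, 0, 1663280, 0, 250000, 300000, 0, 300000⟩ ⟨0, .pol, .pol,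
 .pol, .pol, (.aff 1000000 0 0), .pol, (.pol), (.sy 150000 (.pol) (.pol)), .pol⟩, .two ⟨8000000, 2879,
 -280000, -6712320, 3676976, 0, 250000, 300000, 300000, 450000⟩ ⟨0, .pol, .pol, .pol, .pol, (.aff 1000000 0
 0), .pol, (.pol), (.pol), .pol⟩ ⟨8000000, 2879, -280000, -6712320, 3676976, 0, 250000, 300000, 450000,
 550000⟩ ⟨0, .pol, .pol, .pol, .pol, (.aff 1000000 0 0), .pol, (.aff 1000000 0 0), (.pol), .pol⟩, .one
 ⟨8000000, 2879, -280000, 3403600, -1886780, 0, 250000, 300000, 550000, 750000⟩ ⟨0, .pol, .pol, .pol, .pol,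
 (.aff 1000000 0 0), .pol, (.aff 1000000 0 0), (.pol), .pol⟩, .one ⟨8000000, 2879, -280000, 3975537, -2315733,
 0, 250000, 300000, 750000, 871000⟩ ⟨0, .pol, .pol, .pol, .pol, (.aff 1000000 0 0), .pol, (.aff 1000000 0 0),
 (.pol), .pol⟩]⟩, ⟨[.one ⟨4000000, 0, 772000, 24117, 0, 0, 0, 100000, 0, 340000⟩ ⟨100000, (.pol), (.pol),
 (.pol), (.pol), (.pol), (.pol), (.pol), (.pol), (.pol)⟩, .one ⟨4000000, 0, 772000, -171126, 66382, 0, 0,
 100000, 340000, 642000⟩ ⟨0, .pol, .pol, .pol, .pol, (.sx 50000 (.sy 491000 (.sx 25000 (.sy 415500 (.sx 12500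
 (.sy 377750 (.pol) (.sx 6250 (.sy 396625 (.sx 3125 (.sy 387187 (.pol) (.inf 15837293 63143)) (.pol)) (.sx
 3125 (.inf 16120795 62032) (.sy 406062 (.sx 4687 (.inf 10136593 98653) (.pol)) (.inf 9361265 106824))))
 (.pol))) (.pol)) (.sx 12500 (.sy 453250 (.sx 6250 (.inf 11789827 84819) (.sy 434375 (.sx 9375 (.sy 424937
 (.sx 7812 (.inf 7730882 129352) (.sy 420218 (.pol) (.inf 7012424 142605))) (.inf 7415927 134845)) (.sy 424937
 (.pol) (.sx 10937 (.sy 429656 (.pol) (.inf 6522113 153325)) (.pol)))) (.inf 5504326 181676))) (.inf 8691376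
 115057)) (.sy 453250 (.sx 18750 (.sy 434375 (.pol) (.sx 15625 (.sy 443812 (.pol) (.sx 14062 (.inf 5811402
 172076) (.sy 448531 (.pol) (.inf 5511470 181440)))) (.pol))) (.pol)) (.sx 18750 (.sy 472125 (.sx 15625 (.inf
 5736046 174337) (.sy 462687 (.sx 17187 (.inf 5283436 189271) (.pol)) (.inf 5214838 191761))) (.inf 5551577
 180129)) (.sy 472125 (.pol) (.sx 21875 (.inf 4869055 205379) (.sy 481562 (.pol) (.inf 4554997 219540))))))))
 (.pol)) (.sx 25000 (.inf 5385611 185680) (.sy 566500 (.sx 37500 (.sy 528750 (.sx 31250 (.sy 509875 (.sx 28125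
 (.inf 4340507 230388) (.pol)) (.inf 4297028 232719)) (.pol)) (.inf 4186168 238882)) (.sy 528750 (.pol) (.sx
 43750 (.sy 547625 (.pol) (.inf 3703014 270051)) (.pol)))) (.inf 4014142 249120)))) (.sy 491000 (.pol) (.sx
 75000 (.sy 566500 (.pol) (.sy 604250 (.pol) (.inf 3157531 316704))) (.pol)))), .pol, (.pol), (.sx 50000 (.sy
 491000 (.sx 25000 (.sy 415500 (.sx 12500 (.sy 377750 (.pol) (.sx 6250 (.sy 396625 (.sx 3125 (.sy 387187
 (.pol) (.inf 15837293 63143)) (.pol)) (.sx 3125 (.inf 16120795 62032) (.sy 406062 (.sx 4687 (.inf 10136593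
 98653) (.pol)) (.inf 9361265 106824)))) (.pol))) (.pol)) (.sx 12500 (.sy 453250 (.sx 6250 (.inf 11789827
 84819) (.sy 434375 (.sx 9375 (.sy 424937 (.sx 7812 (.inf 7730882 129352) (.sy 420218 (.pol) (.inf 7012424
 142605))) (.inf 7415927 134845)) (.sy 424937 (.pol) (.sx 10937 (.sy 429656 (.pol) (.inf 6522113 153325))
 (.pol)))) (.inf 5504326 181676))) (.inf 8691376 115057)) (.sy 453250 (.sx 18750 (.sy 434375 (.pol) (.sx 15625
 (.sy 443812 (.pol) (.sx 14062 (.inf 5811402 172076) (.sy 448531 (.pol) (.inf 5511470 181440)))) (.pol)))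
 (.pol)) (.sx 18750 (.sy 472125 (.sx 15625 (.inf 5736046 174337) (.sy 462687 (.sx 17187 (.inf 5283436 189271)
 (.pol)) (.inf 5214838 191761))) (.inf 5551577 180129)) (.sy 472125 (.pol) (.sx 21875 (.inf 4869055 205379)
 (.sy 481562 (.pol) (.inf 4554997 219540)))))))) (.pol)) (.sx 25000 (.inf 5385611 185680) (.sy 566500 (.sx
 37500 (.sy 528750 (.sx 31250 (.sy 509875 (.sx 28125 (.inf 4340507 230388) (.pol)) (.inf 4297028 232719))
 (.pol)) (.inf 4186168 238882)) (.sy 528750 (.pol) (.sx 43750 (.sy 547625 (.pol) (.inf 3703014 270051))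
 (.pol)))) (.inf 4014142 249120)))) (.sy 491000 (.pol) (.sx 75000 (.sy 566500 (.pol) (.sy 604250 (.pol) (.inf
 3157531 316704))) (.pol)))), .pol⟩], [.one ⟨4000000, 0, 0, 133, 200, 0, 250000, 300000, 0, 300000⟩ ⟨0, .pol,
 .pol, .pol, .pol, (.pol), .pol, (.pol), (.pol), .pol⟩, .one ⟨4000000, 0, 0, 480, 96, 0, 250000, 300000,
 300000, 550000⟩ ⟨0, .pol, .pol, .pol, .pol, (.pol), .pol, (.pol), (.pol), .pol⟩, .one ⟨4000000, 0, 0, 400,
 140, 0, 250000, 300000, 550000, 750000⟩ ⟨0, .pol, .pol, .pol, .pol, (.pol), .pol, (.pol), (.pol), .pol⟩, .one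
 ⟨4000000, 0, 0, 330, 192, 0, 250000, 300000, 750000, 871000⟩ ⟨0, .pol, .pol, .pol, .pol, (.pol), .pol,
 (.pol), (.pol), .pol⟩]⟩, ⟨[.one ⟨8000000, 263, 2784000, 131529, 0, 0, 0, 100000, 0, 340000⟩ ⟨25000, (.aff
 3162278 316228), (.pol), (.pol), (.pol), (.aff 0 1649243 606339), (.sx 12500 (.sx 6250 (.sy 182500 (.aff 0
 5761945 173553) (.sy 261250 (.aff 0 8426150 118679) (.aff 250000 9413137 59757))) (.sy 182500 (.aff 0 3326660
 300602) (.aff 250000 3959167 142076))) (.aff 250000 2339872 240398)), (.pol), (.sy 170000 (.pol) (.pol)),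
 (.pol)⟩, .one ⟨8000000, 263, 2784000, -560000, 235120, 0, 0, 100000, 340000, 642000⟩ ⟨0, .pol, .pol, .pol,
 .pol, (.sy 491000 (.aff 2400000 10399687 188468) (.aff 3000000 9520505 420146)), .pol, (.aff 3000000 6609085
 605228), (.pol), .pol⟩], [.one ⟨8000000, 263, 24000, 0, 137360, 0, 250000, 300000, 0, 300000⟩ ⟨0, .pol, .pol,
 .pol, .pol, (.aff 1000000 0 0), .pol, (.pol), (.sy 150000 (.pol) (.pol)), .pol⟩, .two ⟨8000000, 263, 24000,
 -611840, 320912, 0, 250000, 300000, 300000, 450000⟩ ⟨0, .pol, .pol, .pol, .pol, (.aff 1000000 0 0), .pol,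
 (.pol), (.pol), .pol⟩ ⟨8000000, 263, 24000, -611840, 320912, 0, 250000, 300000, 450000, 550000⟩ ⟨0, .pol,
 .pol, .pol, .pol, (.aff 1000000 0 0), .pol, (.aff 1000000 0 0), (.pol), .pol⟩, .one ⟨8000000, 263, 24000,
 311600, -186980, 0, 250000, 300000, 550000, 750000⟩ ⟨0, .pol, .pol, .pol, .pol, (.aff 1000000 0 0), .pol,
 (.aff 1000000 0 0), (.pol), .pol⟩, .one ⟨8000000, 263, 24000, 364297, -226504, 0, 250000, 300000, 750000,
 871000⟩ ⟨0, .pol, .pol, .pol, .pol, (.aff 1000000 0 0), .pol, (.aff 1000000 0 0), (.pol), .pol⟩]⟩, ⟨[.one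
 ⟨3200000, 126, 1126400, 64564, 0, 0, 0, 100000, 0, 340000⟩ ⟨25000, (.aff 3162278 316228), (.pol), (.pol),
 (.pol), (.aff 500000 824622 303170), (.sx 12500 (.sx 6250 (.sy 182500 (.aff 0 5761945 173553) (.sy 261250
 (.aff 0 8426150 118679) (.aff 250000 8129770 69191))) (.sy 182500 (.aff 0 3326660 300602) (.aff 250000
 3959167 142076))) (.aff 250000 2339872 240398)), (.pol), (.sy 170000 (.pol) (.pol)), (.pol)⟩, .one ⟨3200000,
 126, 1126400, -259179, 110072, 0, 0, 100000, 340000, 642000⟩ ⟨0, .pol, .pol, .pol, .pol, (.sy 491000 (.aff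
 2250000 9285435 168275) (.aff 3000000 9520505 420146)), .pol, (.aff 3000000 6609085 605228), (.pol), .pol⟩],
 [.one ⟨3200000, 126, 76800, 0, 46176, 0, 250000, 300000, 0, 300000⟩ ⟨0, .pol, .pol, .pol, .pol, (.aff 1000000
 0 0), .pol, (.pol), (.sy 150000 (.pol) (.pol)), .pol⟩, .two ⟨3200000, 126, 76800, -283648, 131270, 0, 250000,
 300000, 300000, 450000⟩ ⟨0, .pol, .pol, .pol, .pol, (.aff 1000000 0 0), .pol, (.pol), (.pol), .pol⟩ ⟨3200000,
 126, 76800, -283648, 131270, 0, 250000, 300000, 450000, 550000⟩ ⟨0, .pol, .pol, .pol, .pol, (.aff 1000000 0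
 0), .pol, (.pol), (.pol), .pol⟩, .one ⟨3200000, 126, 76800, 137440, -100328, 0, 250000, 300000, 550000,
 750000⟩ ⟨0, .pol, .pol, .pol, .pol, (.aff 1000000 0 0), .pol, (.aff 1000000 0 0), (.pol), .pol⟩, .one
 ⟨3200000, 126, 76800, 174280, -127959, 0, 250000, 300000, 750000, 871000⟩ ⟨0, .pol, .pol, .pol, .pol, (.aff
 1000000 0 0), .pol, (.aff 1000000 0 0), (.pol), .pol⟩]⟩, ⟨[.one ⟨2040000, 51, 204000, 85500, 0, 0, 0, 100000,
 0, 340000⟩ ⟨100000, (.aff 1414214 707107), (.pol), (.pol), (.pol), (.pol), (.aff 0 2097618 476732), (.pol),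
 (.pol), (.pol)⟩, .one ⟨2040000, 51, 204000, 945, 28748, 0, 0, 100000, 340000, 642000⟩ ⟨0, .pol, .pol, .pol,
 .pol, (.aff 3100000 8037740 548662), .pol, (.pol), (.pol), .pol⟩], [.one ⟨2040000, 51, 108120, 21624, 1591,
 0, 250000, 300000, 0, 300000⟩ ⟨0, .pol, .pol, .pol, .pol, (.aff 1000000 0 0), .pol, (.pol), (.pol), .pol⟩,
 .one ⟨2040000, 51, 108120, 47817, -6267, 0, 250000, 300000, 300000, 550000⟩ ⟨0, .pol, .pol, .pol, .pol, (.aff
 1000000 0 0), .pol, (.pol), (.pol), .pol⟩, .one ⟨2040000, 51, 108120, 63036, -14637, 0, 250000, 300000,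
 550000, 750000⟩ ⟨0, .pol, .pol, .pol, .pol, (.aff 1000000 0 0), .pol, (.pol), (.pol), .pol⟩, .one ⟨2040000,
 51, 108120, 71821, -21227, 0, 250000, 300000, 750000, 871000⟩ ⟨0, .pol, .pol, .pol, .pol, (.aff 1000000 0 0),
 .pol, (.pol), (.pol), .pol⟩]⟩] = true := by decide +kernel

theorem II_xQ27 : PropII xQ27 := propII_of cQ27

theorem cQ28 : chkII xQ28 ⟨680000, 685000, 826134, 824623, 827649, 563467, 565690, 561253, 565685, 561248⟩
 [⟨[.one ⟨8000000, 2821, 11680000, 1804500, 0, 0, 0, 110000, 0, 320000⟩ ⟨110000, (.aff 3162278 316228),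
 (.pol), (.pol), (.pol), (.aff 1000000 0 0), (.sx 55000 (.sx 27500 (.sx 13750 (.sy 215000 (.aff 0 3969582
 251916) (.aff 250000 3308049 170040)) (.sy 215000 (.aff 88000 3099165 268377) (.aff 1000000 0 0))) (.aff
 250000 1755602 320403)) (.aff 1000000 0 0)), (.pol), (.pol), (.pol)⟩, .one ⟨8000000, 2821, 11680000,
 -4586359, 2045074, 0, 0, 110000, 320000, 666000⟩ ⟨0, .pol, .pol, .pol, .pol, (.sy 493000 (.sy 406500 (.sx
 55000 (.aff 1900000 4625876 175102) (.aff 1000000 0 0)) (.sx 55000 (.aff 2000000 4939445 202452) (.aff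
 1000000 0 0))) (.aff 2000000 4590505 217841)), .pol, (.aff 2000000 4504544 221999), (.pol), .pol⟩], [.one
 ⟨8000000, 2821, 1048000, 0, 1215600, 0, 250000, 300000, 0, 300000⟩ ⟨0, .pol, .pol, .pol, .pol, (.aff 1000000
 0 0), .pol, (.pol), (.sy 150000 (.pol) (.pol)), .pol⟩, .two ⟨8000000, 2821, 1048000, -7331200, 3414960, 0,
 250000, 300000, 300000, 450000⟩ ⟨0, .pol, .pol, .pol, .pol, (.aff 1000000 0 0), .pol, (.pol), (.pol), .pol⟩
 ⟨8000000, 2821, 1048000, -7331200, 3414960, 0, 250000, 300000, 450000, 500000⟩ ⟨0, .pol, .pol, .pol, .pol,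
 (.aff 1000000 0 0), .pol, (.pol), (.pol), .pol⟩, .one ⟨8000000, 2821, 1048000, 1665200, -1083240, 0, 250000,
 300000, 500000, 700000⟩ ⟨0, .pol, .pol, .pol, .pol, (.aff 1000000 0 0), .pol, (.aff 1000000 0 0), (.pol),
 .pol⟩, .one ⟨8000000, 2821, 1048000, 3841025, -2606318, 0, 250000, 300000, 700000, 856000⟩ ⟨0, .pol, .pol,
 .pol, .pol, (.aff 1000000 0 0), .pol, (.aff 1000000 0 0), (.pol), .pol⟩]⟩, ⟨[.one ⟨4000000, 0, 572000, 21500,
 0, 0, 0, 110000, 0, 320000⟩ ⟨110000, (.pol), (.pol), (.pol), (.pol), (.pol), (.pol), (.pol), (.pol), (.pol)⟩,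
 .one ⟨4000000, 0, 572000, -96879, 37881, 0, 0, 110000, 320000, 666000⟩ ⟨0, .pol, .pol, .pol, .pol, (.sx 55000
 (.sy 493000 (.sx 27500 (.sy 406500 (.sx 13750 (.sy 363250 (.pol) (.sx 6875 (.sy 384875 (.pol) (.sx 3437 (.inf
 15174047 65902) (.pol))) (.pol))) (.pol)) (.sx 13750 (.sy 449750 (.sx 6875 (.inf 11159994 89606) (.sy 428125
 (.pol) (.sx 10312 (.inf 7146877 139922) (.pol)))) (.inf 8280317 120769)) (.sy 449750 (.pol) (.sx 20625 (.sy
 471375 (.pol) (.inf 5296655 188799)) (.pol))))) (.pol)) (.sx 27500 (.inf 5193563 192547) (.sy 579500 (.sx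
 41250 (.sy 536250 (.pol) (.inf 4028535 248230)) (.pol)) (.inf 3885482 257369)))) (.pol)), .pol, (.pol), (.sx
 55000 (.sy 493000 (.sx 27500 (.sy 406500 (.sx 13750 (.sy 363250 (.pol) (.sx 6875 (.sy 384875 (.pol) (.sx 3437
 (.inf 15174047 65902) (.pol))) (.pol))) (.pol)) (.sx 13750 (.sy 449750 (.sx 6875 (.inf 11159994 89606) (.sy
 428125 (.pol) (.sx 10312 (.inf 7146877 139922) (.pol)))) (.inf 8280317 120769)) (.sy 449750 (.pol) (.sx 20625
 (.sy 471375 (.pol) (.inf 5296655 188799)) (.pol))))) (.pol)) (.sx 27500 (.inf 5193563 192547) (.sy 579500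
 (.sx 41250 (.sy 536250 (.pol) (.inf 4028535 248230)) (.pol)) (.inf 3885482 257369)))) (.pol)), .pol⟩], [.one
 ⟨4000000, 0, 0, 133, 200, 0, 250000, 300000, 0, 300000⟩ ⟨0, .pol, .pol, .pol, .pol, (.pol), .pol, (.pol),
 (.pol), .pol⟩, .one ⟨4000000, 0, 0, 400, 120, 0, 250000, 300000, 300000, 500000⟩ ⟨0, .pol, .pol, .pol, .pol,
 (.pol), .pol, (.pol), (.pol), .pol⟩, .one ⟨4000000, 0, 0, 400, 120, 0, 250000, 300000, 500000, 700000⟩ ⟨0,
 .pol, .pol, .pol, .pol, (.pol), .pol, (.pol), (.pol), .pol⟩, .one ⟨4000000, 0, 0, 512, 41, 0, 250000, 300000,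
 700000, 856000⟩ ⟨0, .pol, .pol, .pol, .pol, (.pol), .pol, (.pol), (.pol), .pol⟩]⟩, ⟨[.one ⟨4000000, 142,
 1344000, 76875, 0, 0, 0, 110000, 0, 320000⟩ ⟨110000, (.aff 3162278 316228), (.pol), (.pol), (.pol), (.pol),
 (.aff 100000 7947565 101919), (.pol), (.pol), (.pol)⟩, .one ⟨4000000, 142, 1344000, -245203, 103064, 0, 0,
 110000, 320000, 666000⟩ ⟨0, .pol, .pol, .pol, .pol, (.sx 55000 (.sy 493000 (.sx 27500 (.sy 406500 (.aff
 2000000 9811939 101917) (.aff 2900000 10866454 332216)) (.aff 1000000 0 0)) (.aff 2000000 6491954 154037))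
 (.aff 1000000 0 0)), .pol, (.aff 3000000 6370387 627906), (.pol), .pol⟩], [.one ⟨4000000, 142, 24000, 0,
 69960, 0, 250000, 300000, 0, 300000⟩ ⟨0, .pol, .pol, .pol, .pol, (.aff 1000000 0 0), .pol, (.pol), (.sy
 150000 (.pol) (.pol)), .pol⟩, .two ⟨4000000, 142, 24000, -375600, 182640, 0, 250000, 300000, 300000, 450000⟩
 ⟨0, .pol, .pol, .pol, .pol, (.aff 1000000 0 0), .pol, (.pol), (.pol), .pol⟩ ⟨4000000, 142, 24000, -375600,
 182640, 0, 250000, 300000, 450000, 500000⟩ ⟨0, .pol, .pol, .pol, .pol, (.aff 1000000 0 0), .pol, (.pol),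
 (.pol), .pol⟩, .one ⟨4000000, 142, 24000, 91600, -50960, 0, 250000, 300000, 500000, 700000⟩ ⟨0, .pol, .pol,
 .pol, .pol, (.aff 1000000 0 0), .pol, (.aff 1000000 0 0), (.pol), .pol⟩, .one ⟨4000000, 142, 24000, 193589,
 -122353, 0, 250000, 300000, 700000, 856000⟩ ⟨0, .pol, .pol, .pol, .pol, (.aff 1000000 0 0), .pol, (.aff
 1000000 0 0), (.pol), .pol⟩]⟩, ⟨[.one ⟨4000000, 251, 1276000, 159875, 0, 0, 0, 110000, 0, 320000⟩ ⟨110000,
 (.aff 3162278 316228), (.pol), (.pol), (.pol), (.aff 0 1206046 829156), (.sy 215000 (.aff 0 3626421 275754)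
 (.aff 250000 3489592 161194)), (.pol), (.pol), (.pol)⟩, .one ⟨4000000, 251, 1276000, -438729, 191553, 0, 0,
 110000, 320000, 666000⟩ ⟨0, .pol, .pol, .pol, .pol, (.sy 493000 (.sy 406500 (.sx 55000 (.aff 2000000 5680427
 176044) (.aff 1000000 0 0)) (.sx 55000 (.aff 2000000 5719187 174851) (.aff 1000000 0 0))) (.aff 3000000
 6491954 616148)), .pol, (.aff 3000000 6370387 627906), (.pol), .pol⟩], [.one ⟨4000000, 251, 108000, 0,
 103840, 0, 250000, 300000, 0, 300000⟩ ⟨0, .pol, .pol, .pol, .pol, (.aff 1000000 0 0), .pol, (.pol), (.sy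
 150000 (.pol) (.pol)), .pol⟩, .two ⟨4000000, 251, 108000, -647800, 298180, 0, 250000, 300000, 300000, 450000⟩
 ⟨0, .pol, .pol, .pol, .pol, (.aff 1000000 0 0), .pol, (.pol), (.pol), .pol⟩ ⟨4000000, 251, 108000, -647800,
 298180, 0, 250000, 300000, 450000, 500000⟩ ⟨0, .pol, .pol, .pol, .pol, (.aff 1000000 0 0), .pol, (.pol),
 (.pol), .pol⟩, .one ⟨4000000, 251, 108000, 144800, -98120, 0, 250000, 300000, 500000, 700000⟩ ⟨0, .pol, .pol,
 .pol, .pol, (.aff 1000000 0 0), .pol, (.aff 1000000 0 0), (.pol), .pol⟩, .one ⟨4000000, 251, 108000, 342051,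
 -236196, 0, 250000, 300000, 700000, 856000⟩ ⟨0, .pol, .pol, .pol, .pol, (.aff 1000000 0 0), .pol, (.aff
 1000000 0 0), (.pol), .pol⟩]⟩, ⟨[.one ⟨2016000, 63, 252000, 87759, 0, 0, 0, 110000, 0, 320000⟩ ⟨110000, (.aff
 1414214 707107), (.pol), (.pol), (.pol), (.aff 0 1206046 829156), (.aff 175000 5133842 132577), (.pol),
 (.pol), (.pol)⟩, .one ⟨2016000, 63, 252000, 44282, 13912, 0, 0, 110000, 320000, 666000⟩ ⟨0, .pol, .pol, .pol,
 .pol, (.aff 1800000 4137196 154695), .pol, (.pol), (.pol), .pol⟩], [.one ⟨2016000, 63, 60480, 24864, 22417,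
 0, 250000, 300000, 0, 300000⟩ ⟨0, .pol, .pol, .pol, .pol, (.aff 1000000 0 0), .pol, (.pol), (.sy 150000
 (.pol) (.pol)), .pol⟩, .one ⟨2016000, 63, 60480, 54129, 13638, 0, 250000, 300000, 300000, 500000⟩ ⟨0, .pol,
 .pol, .pol, .pol, (.aff 1000000 0 0), .pol, (.pol), (.pol), .pol⟩, .one ⟨2016000, 63, 60480, 71366, 5019, 0,
 250000, 300000, 500000, 700000⟩ ⟨0, .pol, .pol, .pol, .pol, (.aff 1000000 0 0), .pol, (.pol), (.pol), .pol⟩,
 .one ⟨2016000, 63, 60480, 85938, -5181, 0, 250000, 300000, 700000, 856000⟩ ⟨0, .pol, .pol, .pol, .pol, (.aff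
 1000000 0 0), .pol, (.pol), (.pol), .pol⟩]⟩] = true := by decide +kernel

theorem II_xQ28 : PropII xQ28 := propII_of cQ28

theorem cQ29 : chkII xQ29 ⟨685000, 690000, 829155, 827649, 830664, 559013, 561254, 556781, 561248, 556776⟩
 [⟨[.one ⟨3000000, 159, 951000, 90750, 0, 0, 0, 115000, 0, 320000⟩ ⟨115000, (.aff 3162278 316228), (.pol),
 (.pol), (.pol), (.aff 0 1179536 847791), (.sx 57500 (.sx 28750 (.sx 14375 (.sx 7187 (.sy 217500 (.aff 0
 6801771 147021) (.aff 213000 5286033 117171)) (.sy 217500 (.aff 0 3926914 254653) (.aff 250000 3744605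
 150217))) (.aff 250000 2381998 236147)) (.aff 500000 1122885 222641)) (.aff 0 1587999 629724)), (.pol),
 (.pol), (.pol)⟩, .one ⟨3000000, 159, 951000, -260550, 112415, 0, 0, 115000, 320000, 666000⟩ ⟨0, .pol, .pol,
 .pol, .pol, (.sy 493000 (.sy 406500 (.sx 57500 (.aff 1800000 5999385 106678) (.aff 1000000 0 0)) (.sx 57500
 (.aff 2100000 6152822 196658) (.aff 1000000 0 0))) (.aff 3000000 6349256 629996)), .pol, (.aff 3000000
 6230361 642018), (.pol), .pol⟩], [.one ⟨3000000, 159, 183000, 0, 30450, 0, 250000, 300000, 0, 300000⟩ ⟨0,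
 .pol, .pol, .pol, .pol, (.sy 150000 (.sy 75000 (.sy 37500 (.aff 900000 15838 631393) (.aff 1000000 0 0))
 (.aff 1000000 0 0)) (.aff 1000000 0 0)), .pol, (.pol), (.sy 150000 (.pol) (.pol)), .pol⟩, .two ⟨3000000, 159,
 183000, -376650, 143445, 0, 250000, 300000, 300000, 450000⟩ ⟨0, .pol, .pol, .pol, .pol, (.aff 1000000 0 0),
 .pol, (.pol), (.pol), .pol⟩ ⟨3000000, 159, 183000, -376650, 143445, 0, 250000, 300000, 450000, 500000⟩ ⟨0,
 .pol, .pol, .pol, .pol, (.aff 1000000 0 0), .pol, (.pol), (.pol), .pol⟩, .one ⟨3000000, 159, 183000, 66600,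
 -78180, 0, 250000, 300000, 500000, 700000⟩ ⟨0, .pol, .pol, .pol, .pol, (.aff 1000000 0 0), .pol, (.aff
 1000000 0 0), (.pol), .pol⟩, .one ⟨3000000, 159, 183000, 222307, -187176, 0, 250000, 300000, 700000, 856000⟩
 ⟨0, .pol, .pol, .pol, .pol, (.aff 1000000 0 0), .pol, (.aff 1000000 0 0), (.pol), .pol⟩]⟩, ⟨[.one ⟨4000000,
 0, 572000, 21500, 0, 0, 0, 115000, 0, 320000⟩ ⟨115000, (.pol), (.pol), (.pol), (.pol), (.pol), (.pol),
 (.pol), (.pol), (.pol)⟩, .one ⟨4000000, 0, 572000, -103353, 39952, 0, 0, 115000, 320000, 666000⟩ ⟨0, .pol,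
 .pol, .pol, .pol, (.sx 57500 (.sy 493000 (.sx 28750 (.sy 406500 (.sx 14375 (.sy 363250 (.pol) (.sx 7187 (.sy
 384875 (.pol) (.sx 3593 (.inf 14840980 67381) (.sy 395687 (.pol) (.sx 5390 (.inf 9449898 105822) (.pol)))))
 (.pol))) (.pol)) (.sx 14375 (.sy 449750 (.sx 7187 (.inf 10915069 91617) (.sy 428125 (.sx 10781 (.sy 417312
 (.pol) (.inf 6859474 145784)) (.pol)) (.sx 10781 (.inf 6989828 143066) (.sy 438937 (.pol) (.inf 5943656
 168247))))) (.inf 8098310 123483)) (.sy 449750 (.pol) (.sx 21562 (.sy 471375 (.sx 17968 (.inf 5336656 187384)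
 (.pol)) (.inf 5180267 193041)) (.pol))))) (.pol)) (.sx 28750 (.inf 5079405 196874) (.sy 579500 (.sx 43125
 (.sy 536250 (.pol) (.inf 3939985 253809)) (.pol)) (.inf 3800077 263153)))) (.pol)), .pol, (.pol), (.sx 57500
 (.sy 493000 (.sx 28750 (.sy 406500 (.sx 14375 (.sy 363250 (.pol) (.sx 7187 (.sy 384875 (.pol) (.sx 3593 (.inf
 14840980 67381) (.sy 395687 (.pol) (.sx 5390 (.inf 9449898 105822) (.pol))))) (.pol))) (.pol)) (.sx 14375
 (.sy 449750 (.sx 7187 (.inf 10915069 91617) (.sy 428125 (.sx 10781 (.sy 417312 (.pol) (.inf 6859474 145784))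
 (.pol)) (.sx 10781 (.inf 6989828 143066) (.sy 438937 (.pol) (.inf 5943656 168247))))) (.inf 8098310 123483))
 (.sy 449750 (.pol) (.sx 21562 (.sy 471375 (.sx 17968 (.inf 5336656 187384) (.pol)) (.inf 5180267 193041))
 (.pol))))) (.pol)) (.sx 28750 (.inf 5079405 196874) (.sy 579500 (.sx 43125 (.sy 536250 (.pol) (.inf 3939985
 253809)) (.pol)) (.inf 3800077 263153)))) (.pol)), .pol⟩], [.one ⟨4000000, 0, 0, 133, 200, 0, 250000, 300000,
 0, 300000⟩ ⟨0, .pol, .pol, .pol, .pol, (.pol), .pol, (.pol), (.pol), .pol⟩, .one ⟨4000000, 0, 0, 400, 120, 0,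
 250000, 300000, 300000, 500000⟩ ⟨0, .pol, .pol, .pol, .pol, (.pol), .pol, (.pol), (.pol), .pol⟩, .one
 ⟨4000000, 0, 0, 400, 120, 0, 250000, 300000, 500000, 700000⟩ ⟨0, .pol, .pol, .pol, .pol, (.pol), .pol,
 (.pol), (.pol), .pol⟩, .one ⟨4000000, 0, 0, 512, 41, 0, 250000, 300000, 700000, 856000⟩ ⟨0, .pol, .pol, .pol,
 .pol, (.pol), .pol, (.pol), (.pol), .pol⟩]⟩, ⟨[.one ⟨8000000, 287, 2592000, 150750, 0, 0, 0, 115000, 0,
 320000⟩ ⟨57500, (.aff 3162278 316228), (.pol), (.pol), (.pol), (.aff 0 1362011 734209), (.sx 28750 (.sx 14375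
 (.sx 7187 (.sy 188750 (.aff 0 5853483 170839) (.sy 254375 (.aff 0 7852163 127354) (.aff 337000 8277969
 53102))) (.sy 188750 (.aff 0 3379432 295908) (.aff 250000 3643083 154403))) (.aff 250000 2218990 253494))
 (.aff 0 2092084 477993)), (.pol), (.pol), (.pol)⟩, .one ⟨8000000, 287, 2592000, -501041, 208572, 0, 0,
 115000, 320000, 666000⟩ ⟨0, .pol, .pol, .pol, .pol, (.sx 57500 (.sy 493000 (.sx 28750 (.sy 406500 (.sx 14375
 (.aff 1900000 9048392 89519) (.aff 1000000 0 0)) (.aff 2100000 8701405 139059)) (.aff 1000000 0 0)) (.aff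
 3000000 8979204 445474)) (.aff 1000000 0 0)), .pol, (.aff 3000000 6230361 642018), (.pol), .pol⟩], [.one
 ⟨8000000, 287, 64000, 0, 134960, 0, 250000, 300000, 0, 300000⟩ ⟨0, .pol, .pol, .pol, .pol, (.aff 1000000 0
 0), .pol, (.pol), (.sy 150000 (.pol) (.pol)), .pol⟩, .two ⟨8000000, 287, 64000, -746000, 358760, 0, 250000,
 300000, 300000, 450000⟩ ⟨0, .pol, .pol, .pol, .pol, (.aff 1000000 0 0), .pol, (.pol), (.pol), .pol⟩ ⟨8000000,
 287, 64000, -746000, 358760, 0, 250000, 300000, 450000, 500000⟩ ⟨0, .pol, .pol, .pol, .pol, (.aff 1000000 0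
 0), .pol, (.pol), (.pol), .pol⟩, .one ⟨8000000, 287, 64000, 184400, -106440, 0, 250000, 300000, 500000,
 700000⟩ ⟨0, .pol, .pol, .pol, .pol, (.aff 1000000 0 0), .pol, (.aff 1000000 0 0), (.pol), .pol⟩, .one
 ⟨8000000, 287, 64000, 395384, -254130, 0, 250000, 300000, 700000, 856000⟩ ⟨0, .pol, .pol, .pol, .pol, (.aff
 1000000 0 0), .pol, (.aff 1000000 0 0), (.pol), .pol⟩]⟩, ⟨[.one ⟨4000000, 251, 1244000, 160000, 0, 0, 0,
 115000, 0, 320000⟩ ⟨115000, (.aff 3162278 316228), (.pol), (.pol), (.pol), (.aff 0 1179536 847791), (.sy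
 217500 (.aff 0 3587400 278754) (.aff 250000 3420853 164433)), (.pol), (.pol), (.pol)⟩, .one ⟨4000000, 251,
 1244000, -452833, 196106, 0, 0, 115000, 320000, 666000⟩ ⟨0, .pol, .pol, .pol, .pol, (.sy 493000 (.sy 406500
 (.sx 57500 (.aff 2075000 5680965 203421) (.aff 1000000 0 0)) (.sx 57500 (.aff 2000000 5593475 178780) (.aff
 1000000 0 0))) (.aff 3100000 6666719 661495)), .pol, (.aff 3000000 6230361 642018), (.pol), .pol⟩], [.one
 ⟨4000000, 251, 136000, 0, 93920, 0, 250000, 300000, 0, 300000⟩ ⟨0, .pol, .pol, .pol, .pol, (.aff 1000000 0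
 0), .pol, (.pol), (.sy 150000 (.pol) (.pol)), .pol⟩, .two ⟨4000000, 251, 136000, -633200, 283880, 0, 250000,
 300000, 300000, 450000⟩ ⟨0, .pol, .pol, .pol, .pol, (.aff 1000000 0 0), .pol, (.pol), (.pol), .pol⟩ ⟨4000000,
 251, 136000, -633200, 283880, 0, 250000, 300000, 450000, 500000⟩ ⟨0, .pol, .pol, .pol, .pol, (.aff 1000000 0
 0), .pol, (.pol), (.pol), .pol⟩, .one ⟨4000000, 251, 136000, 141000, -103220, 0, 250000, 300000, 500000,
 700000⟩ ⟨0, .pol, .pol, .pol, .pol, (.aff 1000000 0 0), .pol, (.aff 1000000 0 0), (.pol), .pol⟩, .one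
 ⟨4000000, 251, 136000, 345384, -246290, 0, 250000, 300000, 700000, 856000⟩ ⟨0, .pol, .pol, .pol, .pol, (.aff
 1000000 0 0), .pol, (.aff 1000000 0 0), (.pol), .pol⟩]⟩, ⟨[.one ⟨2016000, 63, 252000, 87759, 0, 0, 0, 115000,
 0, 320000⟩ ⟨115000, (.aff 1414214 707107), (.pol), (.pol), (.pol), (.aff 0 1179536 847791), (.aff 275000
 4437970 118439), (.pol), (.pol), (.pol)⟩, .one ⟨2016000, 63, 252000, 41485, 14807, 0, 0, 115000, 320000,
 666000⟩ ⟨0, .pol, .pol, .pol, .pol, (.aff 1900000 4552039 177943), .pol, (.pol), (.pol), .pol⟩], [.one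
 ⟨2016000, 63, 60480, 25065, 22236, 0, 250000, 300000, 0, 300000⟩ ⟨0, .pol, .pol, .pol, .pol, (.aff 1000000 0
 0), .pol, (.pol), (.sy 150000 (.pol) (.pol)), .pol⟩, .one ⟨2016000, 63, 60480, 54835, 13305, 0, 250000,
 300000, 300000, 500000⟩ ⟨0, .pol, .pol, .pol, .pol, (.aff 1000000 0 0), .pol, (.pol), (.pol), .pol⟩, .one
 ⟨2016000, 63, 60480, 72072, 4687, 0, 250000, 300000, 500000, 700000⟩ ⟨0, .pol, .pol, .pol, .pol, (.aff
 1000000 0 0), .pol, (.pol), (.pol), .pol⟩, .one ⟨2016000, 63, 60480, 86843, -5653, 0, 250000, 300000, 700000,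
 856000⟩ ⟨0, .pol, .pol, .pol, .pol, (.aff 1000000 0 0), .pol, (.pol), (.pol), .pol⟩]⟩] = true := by
 decide +kernel

theorem II_xQ29 : PropII xQ29 := propII_of cQ29

theorem cQ30 : chkII xQ30 ⟨690000, 695000, 832164, 830664, 833668, 554522, 556782, 552273, 556776, 552268⟩
 [⟨[.one ⟨8000000, 423, 2432000, 246750, 0, 0, 0, 125000, 0, 320000⟩ ⟨125000, (.aff 3162278 316228), (.pol),
 (.pol), (.pol), (.aff 0 1131371 883884), (.sx 62500 (.sy 222500 (.aff 0 4501329 222157) (.aff 238000 4856295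
 119566)) (.aff 0 1540563 649114)), (.pol), (.pol), (.pol)⟩, .one ⟨8000000, 423, 2432000, -542197, 252462, 0,
 0, 125000, 320000, 666000⟩ ⟨0, .pol, .pol, .pol, .pol, (.aff 1900000 4366163 185518), .pol, (.pol), (.pol),
 .pol⟩], [.one ⟨8000000, 423, 424000, 0, 97200, 0, 250000, 300000, 0, 300000⟩ ⟨0, .pol, .pol, .pol, .pol,
 (.aff 1000000 0 0), .pol, (.pol), (.sy 150000 (.pol) (.pol)), .pol⟩, .two ⟨8000000, 423, 424000, -1004400,
 398520, 0, 250000, 300000, 300000, 450000⟩ ⟨0, .pol, .pol, .pol, .pol, (.aff 1000000 0 0), .pol, (.pol),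
 (.pol), .pol⟩ ⟨8000000, 423, 424000, -1004400, 398520, 0, 250000, 300000, 450000, 500000⟩ ⟨0, .pol, .pol,
 .pol, .pol, (.aff 1000000 0 0), .pol, (.pol), (.pol), .pol⟩, .one ⟨8000000, 423, 424000, 194000, -200680, 0,
 250000, 300000, 500000, 700000⟩ ⟨0, .pol, .pol, .pol, .pol, (.aff 1000000 0 0), .pol, (.aff 1000000 0 0),
 (.pol), .pol⟩, .one ⟨8000000, 423, 424000, 587692, -476265, 0, 250000, 300000, 700000, 856000⟩ ⟨0, .pol,
 .pol, .pol, .pol, (.aff 1000000 0 0), .pol, (.aff 1000000 0 0), (.pol), .pol⟩]⟩, ⟨[.one ⟨4000000, 0, 572000,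
 21500, 0, 0, 0, 125000, 0, 320000⟩ ⟨125000, (.pol), (.pol), (.pol), (.pol), (.pol), (.pol), (.pol), (.pol),
 (.pol)⟩, .one ⟨4000000, 0, 572000, -110174, 42135, 0, 0, 125000, 320000, 666000⟩ ⟨0, .pol, .pol, .pol, .pol,
 (.sx 62500 (.sy 493000 (.sx 31250 (.sy 406500 (.sx 15625 (.sy 363250 (.pol) (.sx 7812 (.sy 384875 (.sx 3906
 (.sy 374062 (.pol) (.inf 13939165 71741)) (.pol)) (.sx 3906 (.inf 14233938 70255) (.sy 395687 (.pol) (.inf
 8273916 120862)))) (.pol))) (.pol)) (.sx 15625 (.sy 449750 (.sx 7812 (.inf 10469337 95518) (.sy 428125 (.sx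
 11718 (.sy 417312 (.pol) (.inf 6579449 151989)) (.pol)) (.sx 11718 (.inf 6704482 149154) (.sy 438937 (.pol)
 (.inf 5701004 175408))))) (.inf 7767626 128740)) (.sy 449750 (.pol) (.sx 23437 (.sy 471375 (.sx 19531 (.inf
 5118699 195363) (.pol)) (.inf 4968734 201259)) (.pol))))) (.pol)) (.sx 31250 (.inf 4871994 205255) (.sy
 579500 (.sx 46875 (.sy 536250 (.pol) (.inf 3779101 264614)) (.pol)) (.inf 3644906 274356)))) (.pol)), .pol,
 (.pol), (.sx 62500 (.sy 493000 (.sx 31250 (.sy 406500 (.sx 15625 (.sy 363250 (.pol) (.sx 7812 (.sy 384875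
 (.sx 3906 (.sy 374062 (.pol) (.inf 13939165 71741)) (.pol)) (.sx 3906 (.inf 14233938 70255) (.sy 395687
 (.pol) (.inf 8273916 120862)))) (.pol))) (.pol)) (.sx 15625 (.sy 449750 (.sx 7812 (.inf 10469337 95518) (.sy
 428125 (.sx 11718 (.sy 417312 (.pol) (.inf 6579449 151989)) (.pol)) (.sx 11718 (.inf 6704482 149154) (.sy
 438937 (.pol) (.inf 5701004 175408))))) (.inf 7767626 128740)) (.sy 449750 (.pol) (.sx 23437 (.sy 471375 (.sx
 19531 (.inf 5118699 195363) (.pol)) (.inf 4968734 201259)) (.pol))))) (.pol)) (.sx 31250 (.inf 4871994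
 205255) (.sy 579500 (.sx 46875 (.sy 536250 (.pol) (.inf 3779101 264614)) (.pol)) (.inf 3644906 274356))))
 (.pol)), .pol⟩], [.one ⟨4000000, 0, 0, 133, 200, 0, 250000, 300000, 0, 300000⟩ ⟨0, .pol, .pol, .pol, .pol,
 (.pol), .pol, (.pol), (.pol), .pol⟩, .one ⟨4000000, 0, 0, 400, 120, 0, 250000, 300000, 300000, 500000⟩ ⟨0,
 .pol, .pol, .pol, .pol, (.pol), .pol, (.pol), (.pol), .pol⟩, .one ⟨4000000, 0, 0, 400, 120, 0, 250000,
 300000, 500000, 700000⟩ ⟨0, .pol, .pol, .pol, .pol, (.pol), .pol, (.pol), (.pol), .pol⟩, .one ⟨4000000, 0, 0,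
 512, 41, 0, 250000, 300000, 700000, 856000⟩ ⟨0, .pol, .pol, .pol, .pol, (.pol), .pol, (.pol), (.pol),
 .pol⟩]⟩, ⟨[.one ⟨8000000, 287, 2584000, 152500, 0, 0, 0, 125000, 0, 320000⟩ ⟨125000, (.sp 250000 (.aff
 4000000 250000) (.pol)), (.pol), (.pol), (.pol), (.pol), (.sx 62500 (.sx 31250 (.sx 15625 (.sx 7812 (.sy
 222500 (.aff 0 6669547 149936) (.aff 210000 7963470 78371)) (.aff 250000 3268062 172121)) (.aff 500000
 1540563 162279)) (.aff 0 2178685 458993)) (.aff 0 1540563 649114)), (.pol), (.pol), (.pol)⟩, .one ⟨8000000,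
 287, 2584000, -535954, 220305, 0, 0, 125000, 320000, 666000⟩ ⟨0, .pol, .pol, .pol, .pol, (.sx 62500 (.sy
 493000 (.sy 406500 (.aff 2200000 9539405 150953) (.aff 3000000 10730145 372782)) (.aff 3000000 8612549
 464439)) (.aff 1000000 0 0)), .pol, (.aff 3000000 8451273 473302), (.pol), .pol⟩], [.one ⟨8000000, 287,
 256000, 0, 75520, 0, 250000, 300000, 0, 300000⟩ ⟨0, .pol, .pol, .pol, .pol, (.aff 1000000 0 0), .pol, (.pol),
 (.sy 150000 (.pol) (.pol)), .pol⟩, .two ⟨8000000, 287, 256000, -688800, 282160, 0, 250000, 300000, 300000,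
 450000⟩ ⟨0, .pol, .pol, .pol, .pol, (.aff 1000000 0 0), .pol, (.pol), (.pol), .pol⟩ ⟨8000000, 287, 256000,
 -688800, 282160, 0, 250000, 300000, 450000, 500000⟩ ⟨0, .pol, .pol, .pol, .pol, (.aff 1000000 0 0), .pol,
 (.pol), (.pol), .pol⟩, .one ⟨8000000, 287, 256000, 140000, -132240, 0, 250000, 300000, 500000, 700000⟩ ⟨0,
 .pol, .pol, .pol, .pol, (.aff 1000000 0 0), .pol, (.aff 1000000 0 0), (.pol), .pol⟩, .one ⟨8000000, 287,
 256000, 398974, -313523, 0, 250000, 300000, 700000, 856000⟩ ⟨0, .pol, .pol, .pol, .pol, (.aff 1000000 0 0),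
 .pol, (.aff 1000000 0 0), (.pol), .pol⟩]⟩, ⟨[.one ⟨4000000, 197, 992000, 119750, 0, 0, 0, 125000, 0, 320000⟩
 ⟨125000, (.aff 3162278 316228), (.pol), (.pol), (.pol), (.aff 0 1131371 883884), (.sx 62500 (.sy 222500 (.aff
 25000 3971147 239383) (.aff 300000 4351017 112618)) (.aff 1000000 0 0)), (.pol), (.pol), (.pol)⟩, .one
 ⟨4000000, 197, 992000, -354336, 151707, 0, 0, 125000, 320000, 666000⟩ ⟨0, .pol, .pol, .pol, .pol, (.sy 493000
 (.sy 406500 (.sx 62500 (.aff 2100000 5861584 206429) (.aff 1000000 0 0)) (.sx 62500 (.aff 2050000 5633326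
 195711) (.aff 1000000 0 0))) (.aff 3200000 6698991 722497)), .pol, (.aff 3000000 5975952 669350), (.pol),
 .pol⟩], [.one ⟨4000000, 197, -4000, 0, 105720, 0, 250000, 300000, 0, 300000⟩ ⟨0, .pol, .pol, .pol, .pol,
 (.aff 1000000 0 0), .pol, (.pol), (.sy 150000 (.pol) (.pol)), .pol⟩, .two ⟨4000000, 197, -4000, -508800,
 258360, 0, 250000, 300000, 300000, 450000⟩ ⟨0, .pol, .pol, .pol, .pol, (.aff 1000000 0 0), .pol, (.pol),
 (.pol), .pol⟩ ⟨4000000, 197, -4000, -508800, 258360, 0, 250000, 300000, 450000, 500000⟩ ⟨0, .pol, .pol, .pol,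
 .pol, (.aff 1000000 0 0), .pol, (.pol), (.pol), .pol⟩, .one ⟨4000000, 197, -4000, 131600, -61840, 0, 250000,
 300000, 500000, 700000⟩ ⟨0, .pol, .pol, .pol, .pol, (.aff 1000000 0 0), .pol, (.aff 1000000 0 0), (.pol),
 .pol⟩, .one ⟨4000000, 197, -4000, 273589, -161233, 0, 250000, 300000, 700000, 856000⟩ ⟨0, .pol, .pol, .pol,
 .pol, (.aff 1000000 0 0), .pol, (.aff 1000000 0 0), (.pol), .pol⟩]⟩, ⟨[.one ⟨2016000, 63, 252000, 87696, 0,
 0, 0, 125000, 0, 320000⟩ ⟨125000, (.aff 2000000 500000), (.pol), (.pol), (.pol), (.aff 0 1131371 883884),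
 (.aff 275000 4305401 122086), (.pol), (.pol), (.pol)⟩, .one ⟨2016000, 63, 252000, 38688, 15682, 0, 0, 125000,
 320000, 666000⟩ ⟨0, .pol, .pol, .pol, .pol, (.aff 2000000 4851292 206131), .pol, (.pol), (.pol), .pol⟩],
 [.one ⟨2016000, 63, 60480, 25334, 22055, 0, 250000, 300000, 0, 300000⟩ ⟨0, .pol, .pol, .pol, .pol, (.aff
 1000000 0 0), .pol, (.pol), (.sy 150000 (.pol) (.pol)), .pol⟩, .one ⟨2016000, 63, 60480, 55339, 13053, 0,
 250000, 300000, 300000, 500000⟩ ⟨0, .pol, .pol, .pol, .pol, (.aff 1000000 0 0), .pol, (.pol), (.pol), .pol⟩,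
 .one ⟨2016000, 63, 60480, 72878, 4284, 0, 250000, 300000, 500000, 700000⟩ ⟨0, .pol, .pol, .pol, .pol, (.aff
 1000000 0 0), .pol, (.pol), (.pol), .pol⟩, .one ⟨2016000, 63, 60480, 87618, -6035, 0, 250000, 300000, 700000,
 856000⟩ ⟨0, .pol, .pol, .pol, .pol, (.aff 1000000 0 0), .pol, (.pol), (.pol), .pol⟩]⟩] = true := by
 decide +kernel

theorem II_xQ30 : PropII xQ30 := propII_of cQ30

theorem cQ31 : chkII xQ31 ⟨695000, 700000, 835163, 833668, 836662, 549995, 552273, 547728, 552268, 547722⟩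
 [⟨[.one ⟨4000000, 211, 1172000, 125375, 0, 0, 0, 130000, 0, 320000⟩ ⟨130000, (.aff 3162278 316228), (.pol),
 (.pol), (.pol), (.aff 0 1109401 901388), (.sx 65000 (.sy 225000 (.aff 0 4489265 222754) (.aff 250000 4581795
 122769)) (.aff 0 1519110 658281)), (.pol), (.pol), (.pol)⟩, .one ⟨4000000, 211, 1172000, -342659, 149770, 0,
 0, 130000, 320000, 666000⟩ ⟨0, .pol, .pol, .pol, .pol, (.aff 2200000 5708499 252256), .pol, (.aff 3000000
 5859903 682606), (.pol), .pol⟩], [.one ⟨4000000, 211, 196000, 0, 51800, 0, 250000, 300000, 0, 300000⟩ ⟨0,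
 .pol, .pol, .pol, .pol, (.aff 1000000 0 0), .pol, (.pol), (.sy 150000 (.pol) (.pol)), .pol⟩, .two ⟨4000000,
 211, 196000, -498000, 201200, 0, 250000, 300000, 300000, 450000⟩ ⟨0, .pol, .pol, .pol, .pol, (.aff 1000000 0
 0), .pol, (.pol), (.pol), .pol⟩ ⟨4000000, 211, 196000, -498000, 201200, 0, 250000, 300000, 450000, 500000⟩
 ⟨0, .pol, .pol, .pol, .pol, (.aff 1000000 0 0), .pol, (.pol), (.pol), .pol⟩, .one ⟨4000000, 211, 196000,
 103200, -99400, 0, 250000, 300000, 500000, 700000⟩ ⟨0, .pol, .pol, .pol, .pol, (.aff 1000000 0 0), .pol,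
 (.aff 1000000 0 0), (.pol), .pol⟩, .one ⟨4000000, 211, 196000, 295641, -234109, 0, 250000, 300000, 700000,
 856000⟩ ⟨0, .pol, .pol, .pol, .pol, (.aff 1000000 0 0), .pol, (.aff 1000000 0 0), (.pol), .pol⟩]⟩, ⟨[.one
 ⟨4000000, 0, 772000, 25500, 0, 0, 0, 130000, 0, 320000⟩ ⟨130000, (.pol), (.pol), (.pol), (.pol), (.pol),
 (.pol), (.pol), (.pol), (.pol)⟩, .one ⟨4000000, 0, 772000, -175607, 64354, 0, 0, 130000, 320000, 666000⟩ ⟨0,
 .pol, .pol, .pol, .pol, (.sx 65000 (.sy 493000 (.sx 32500 (.sy 406500 (.sx 16250 (.sy 363250 (.pol) (.sx 8125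
 (.sy 384875 (.sx 4062 (.sy 374062 (.sx 2031 (.inf 19053322 52485) (.pol)) (.inf 13668880 73159)) (.sy 374062
 (.pol) (.sx 6093 (.sy 379468 (.pol) (.inf 8675694 115265)) (.pol)))) (.sx 4062 (.inf 13957937 71644) (.sy
 395687 (.sx 6093 (.inf 8767258 114061) (.sy 390281 (.pol) (.sx 7109 (.inf 7715829 129604) (.pol)))) (.inf
 8113149 123257)))) (.sy 384875 (.pol) (.sx 12187 (.sy 395687 (.pol) (.sx 10156 (.sy 401093 (.pol) (.sx 9140
 (.inf 6839321 146214) (.pol))) (.pol))) (.pol))))) (.pol)) (.sx 16250 (.sy 449750 (.sx 8125 (.inf 10265701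
 97412) (.sy 428125 (.sx 12187 (.sy 417312 (.sx 10156 (.inf 6712961 148966) (.sy 411906 (.sx 11171 (.inf
 6194690 161429) (.pol)) (.inf 6092053 164149))) (.inf 6451554 155002)) (.sy 417312 (.pol) (.sx 14218 (.sy
 422718 (.sx 13202 (.inf 5752076 173851) (.pol)) (.inf 5676513 176165)) (.pol)))) (.sx 12187 (.inf 6574156
 152111) (.sx 14218 (.inf 5765982 173431) (.inf 5367776 186297))))) (.inf 7616784 131290)) (.sy 449750 (.sx
 24375 (.sy 428125 (.pol) (.sx 20312 (.sy 438937 (.sx 18281 (.sy 433531 (.pol) (.sx 17265 (.inf 5102173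
 195995) (.pol))) (.pol)) (.sx 18281 (.inf 5073059 197120) (.sy 444343 (.pol) (.inf 4813236 207761))))
 (.pol))) (.pol)) (.sx 24375 (.sy 471375 (.sx 20312 (.inf 5019314 199231) (.sy 460562 (.sx 22343 (.sy 455156
 (.pol) (.inf 4633359 215827)) (.pol)) (.inf 4566703 218977))) (.inf 4872214 205246)) (.sy 471375 (.pol) (.sx
 28437 (.inf 4273234 234015) (.sy 482187 (.pol) (.inf 4000400 249976)))))))) (.pol)) (.sx 32500 (.inf 4777383
 209320) (.sy 579500 (.sx 48750 (.sy 536250 (.sx 40625 (.sy 514625 (.sx 36562 (.inf 3819706 261801) (.pol))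
 (.inf 3790903 263790)) (.pol)) (.inf 3705713 269854)) (.pol)) (.inf 3574124 279789)))) (.sy 493000 (.pol)
 (.sx 97500 (.sy 579500 (.pol) (.sy 622750 (.pol) (.inf 2816163 355094))) (.pol)))), .pol, (.pol), (.sx 65000
 (.sy 493000 (.sx 32500 (.sy 406500 (.sx 16250 (.sy 363250 (.pol) (.sx 8125 (.sy 384875 (.sx 4062 (.sy 374062
 (.sx 2031 (.inf 19053322 52485) (.pol)) (.inf 13668880 73159)) (.sy 374062 (.pol) (.sx 6093 (.sy 379468
 (.pol) (.inf 8675694 115265)) (.pol)))) (.sx 4062 (.inf 13957937 71644) (.sy 395687 (.sx 6093 (.inf 8767258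
 114061) (.sy 390281 (.pol) (.sx 7109 (.inf 7715829 129604) (.pol)))) (.inf 8113149 123257)))) (.sy 384875
 (.pol) (.sx 12187 (.sy 395687 (.pol) (.sx 10156 (.sy 401093 (.pol) (.sx 9140 (.inf 6839321 146214) (.pol)))
 (.pol))) (.pol))))) (.pol)) (.sx 16250 (.sy 449750 (.sx 8125 (.inf 10265701 97412) (.sy 428125 (.sx 12187
 (.sy 417312 (.sx 10156 (.inf 6712961 148966) (.sy 411906 (.sx 11171 (.inf 6194690 161429) (.pol)) (.inf
 6092053 164149))) (.inf 6451554 155002)) (.sy 417312 (.pol) (.sx 14218 (.sy 422718 (.sx 13202 (.inf 5752076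
 173851) (.pol)) (.inf 5676513 176165)) (.pol)))) (.sx 12187 (.inf 6574156 152111) (.sx 14218 (.inf 5765982
 173431) (.inf 5367776 186297))))) (.inf 7616784 131290)) (.sy 449750 (.sx 24375 (.sy 428125 (.pol) (.sx 20312
 (.sy 438937 (.sx 18281 (.sy 433531 (.pol) (.sx 17265 (.inf 5102173 195995) (.pol))) (.pol)) (.sx 18281 (.inf
 5073059 197120) (.sy 444343 (.pol) (.inf 4813236 207761)))) (.pol))) (.pol)) (.sx 24375 (.sy 471375 (.sx
 20312 (.inf 5019314 199231) (.sy 460562 (.sx 22343 (.sy 455156 (.pol) (.inf 4633359 215827)) (.pol)) (.inf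
 4566703 218977))) (.inf 4872214 205246)) (.sy 471375 (.pol) (.sx 28437 (.inf 4273234 234015) (.sy 482187
 (.pol) (.inf 4000400 249976)))))))) (.pol)) (.sx 32500 (.inf 4777383 209320) (.sy 579500 (.sx 48750 (.sy
 536250 (.sx 40625 (.sy 514625 (.sx 36562 (.inf 3819706 261801) (.pol)) (.inf 3790903 263790)) (.pol)) (.inf
 3705713 269854)) (.pol)) (.inf 3574124 279789)))) (.sy 493000 (.pol) (.sx 97500 (.sy 579500 (.pol) (.sy
 622750 (.pol) (.inf 2816163 355094))) (.pol)))), .pol⟩], [.one ⟨4000000, 0, 0, 133, 200, 0, 250000, 300000,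
 0, 300000⟩ ⟨0, .pol, .pol, .pol, .pol, (.pol), .pol, (.pol), (.pol), .pol⟩, .one ⟨4000000, 0, 0, 400, 120, 0,
 250000, 300000, 300000, 500000⟩ ⟨0, .pol, .pol, .pol, .pol, (.pol), .pol, (.pol), (.pol), .pol⟩, .one
 ⟨4000000, 0, 0, 400, 120, 0, 250000, 300000, 500000, 700000⟩ ⟨0, .pol, .pol, .pol, .pol, (.pol), .pol,
 (.pol), (.pol), .pol⟩, .one ⟨4000000, 0, 0, 512, 41, 0, 250000, 300000, 700000, 856000⟩ ⟨0, .pol, .pol, .pol,
 .pol, (.pol), .pol, (.pol), (.pol), .pol⟩]⟩, ⟨[.one ⟨4000000, 143, 1244000, 77375, 0, 0, 0, 130000, 0,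
 320000⟩ ⟨130000, (.sp 250000 (.aff 4000000 250000) (.pol)), (.pol), (.pol), (.pol), (.pol), (.sy 225000 (.aff
 0 6352607 157416) (.aff 216000 7537217 81550)), (.pol), (.pol), (.pol)⟩, .one ⟨4000000, 143, 1244000,
 -267862, 110475, 0, 0, 130000, 320000, 666000⟩ ⟨0, .pol, .pol, .pol, .pol, (.aff 2350000 8668876 210235),
 .pol, (.aff 3000000 8287155 482675), (.pol), .pol⟩], [.one ⟨4000000, 143, 144000, 0, 31800, 0, 250000,
 300000, 0, 300000⟩ ⟨0, .pol, .pol, .pol, .pol, (.aff 1000000 0 0), .pol, (.pol), (.sy 150000 (.pol) (.pol)),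
 .pol⟩, .two ⟨4000000, 143, 144000, -334400, 132120, 0, 250000, 300000, 300000, 450000⟩ ⟨0, .pol, .pol, .pol,
 .pol, (.aff 1000000 0 0), .pol, (.pol), (.pol), .pol⟩ ⟨4000000, 143, 144000, -334400, 132120, 0, 250000,
 300000, 450000, 500000⟩ ⟨0, .pol, .pol, .pol, .pol, (.aff 1000000 0 0), .pol, (.pol), (.pol), .pol⟩, .one
 ⟨4000000, 143, 144000, 67200, -68680, 0, 250000, 300000, 500000, 700000⟩ ⟨0, .pol, .pol, .pol, .pol, (.aff
 1000000 0 0), .pol, (.aff 1000000 0 0), (.pol), .pol⟩, .one ⟨4000000, 143, 144000, 200512, -161999, 0,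
 250000, 300000, 700000, 856000⟩ ⟨0, .pol, .pol, .pol, .pol, (.aff 1000000 0 0), .pol, (.aff 1000000 0 0),
 (.pol), .pol⟩]⟩, ⟨[.one ⟨4000000, 202, 732000, 152500, 0, 0, 0, 130000, 0, 320000⟩ ⟨130000, (.aff 2000000
 500000), (.pol), (.pol), (.pol), (.aff 1000000 0 0), (.sy 225000 (.aff 125000 2497609 306544) (.aff 500000
 1447811 172675)), (.pol), (.pol), (.pol)⟩, .one ⟨4000000, 202, 732000, -372948, 168143, 0, 0, 130000, 320000,
 666000⟩ ⟨0, .pol, .pol, .pol, .pol, (.sy 493000 (.aff 2100000 4299429 281433) (.aff 2000000 4222650 236819)),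
 .pol, (.aff 3000000 5859903 682606), (.pol), .pol⟩], [.one ⟨4000000, 202, 104000, 0, 74680, 0, 250000,
 300000, 0, 300000⟩ ⟨0, .pol, .pol, .pol, .pol, (.aff 1000000 0 0), .pol, (.pol), (.sy 150000 (.pol) (.pol)),
 .pol⟩, .two ⟨4000000, 202, 104000, -497600, 223960, 0, 250000, 300000, 300000, 450000⟩ ⟨0, .pol, .pol, .pol,
 .pol, (.aff 1000000 0 0), .pol, (.pol), (.pol), .pol⟩ ⟨4000000, 202, 104000, -497600, 223960, 0, 250000,
 300000, 450000, 500000⟩ ⟨0, .pol, .pol, .pol, .pol, (.aff 1000000 0 0), .pol, (.pol), (.pol), .pol⟩, .one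
 ⟨4000000, 202, 104000, 119800, -84740, 0, 250000, 300000, 500000, 700000⟩ ⟨0, .pol, .pol, .pol, .pol, (.aff
 1000000 0 0), .pol, (.aff 1000000 0 0), (.pol), .pol⟩, .one ⟨4000000, 202, 104000, 283076, -199034, 0,
 250000, 300000, 700000, 856000⟩ ⟨0, .pol, .pol, .pol, .pol, (.aff 1000000 0 0), .pol, (.aff 1000000 0 0),
 (.pol), .pol⟩]⟩, ⟨[.one ⟨2040000, 51, 204000, 86572, 0, 0, 0, 130000, 0, 320000⟩ ⟨130000, (.aff 1414214
 707107), (.pol), (.pol), (.pol), (.pol), (.aff 0 1860522 537484), (.pol), (.pol), (.pol)⟩, .one ⟨2040000, 51,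
 204000, -295, 27797, 0, 0, 130000, 320000, 666000⟩ ⟨0, .pol, .pol, .pol, .pol, (.aff 3300000 7334166 721282),
 .pol, (.pol), (.pol), .pol⟩], [.one ⟨2040000, 51, 108120, 22440, 999, 0, 250000, 300000, 0, 300000⟩ ⟨0, .pol,
 .pol, .pol, .pol, (.aff 1000000 0 0), .pol, (.pol), (.sy 150000 (.pol) (.pol)), .pol⟩, .one ⟨2040000, 51,
 108120, 47838, -6620, 0, 250000, 300000, 300000, 500000⟩ ⟨0, .pol, .pol, .pol, .pol, (.aff 1000000 0 0),
 .pol, (.pol), (.pol), .pol⟩, .one ⟨2040000, 51, 108120, 62220, -13811, 0, 250000, 300000, 500000, 700000⟩ ⟨0,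
 .pol, .pol, .pol, .pol, (.aff 1000000 0 0), .pol, (.pol), (.pol), .pol⟩, .one ⟨2040000, 51, 108120, 72707,
 -21153, 0, 250000, 300000, 700000, 856000⟩ ⟨0, .pol, .pol, .pol, .pol, (.aff 1000000 0 0), .pol, (.pol),
 (.pol), .pol⟩]⟩] = true := by decide +kernel

theorem II_xQ31 : PropII xQ31 := propII_of cQ31

theorem cQ32 : chkII xQ32 ⟨700000, 705000, 838151, 836662, 839645, 545431, 547728, 543144, 547722, 543139⟩
 [⟨[.one ⟨8000000, 533, 2128000, 360000, 0, 0, 0, 140000, 0, 300000⟩ ⟨70000, (.aff 2000000 500000), (.pol),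
 (.pol), (.pol), (.aff 500000 597615 418330), (.sx 35000 (.sy 185000 (.aff 50000 2979229 302931) (.sy 242500
 (.aff 188000 3136314 210229) (.aff 1000000 0 0))) (.aff 250000 1407886 399536)), (.pol), (.sy 150000 (.pol)
 (.pol)), (.pol)⟩, .one ⟨8000000, 533, 2128000, -719796, 323938, 0, 0, 140000, 300000, 692000⟩ ⟨0, .pol, .pol,
 .pol, .pol, (.aff 2000000 4597966 217488), .pol, (.aff 2000000 4039095 247581), (.pol), .pol⟩], [.one
 ⟨8000000, 533, 40000, -538400, 263920, 0, 250000, 300000, 0, 300000⟩ ⟨0, .pol, .pol, .pol, .pol, (.aff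
 1000000 0 0), .pol, (.pol), (.sy 150000 (.pol) (.sy 225000 (.pol) (.pol))), .pol⟩, .two ⟨8000000, 533, 40000,
 -535600, 263080, 0, 250000, 300000, 300000, 450000⟩ ⟨0, .pol, .pol, .pol, .pol, (.aff 1000000 0 0), .pol,
 (.pol), (.pol), .pol⟩ ⟨8000000, 533, 40000, -535600, 263080, 0, 250000, 300000, 450000, 500000⟩ ⟨0, .pol,
 .pol, .pol, .pol, (.aff 1000000 0 0), .pol, (.pol), (.pol), .pol⟩, .one ⟨8000000, 533, 40000, 368800,
 -189120, 0, 250000, 300000, 500000, 700000⟩ ⟨0, .pol, .pol, .pol, .pol, (.aff 1000000 0 0), .pol, (.aff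
 1000000 0 0), (.pol), .pol⟩, .one ⟨8000000, 533, 40000, 753475, -458393, 0, 250000, 300000, 700000, 841000⟩
 ⟨0, .pol, .pol, .pol, .pol, (.aff 1000000 0 0), .pol, (.aff 1000000 0 0), (.pol), .pol⟩]⟩, ⟨[.one ⟨4000000,
 0, 664000, 11333, 0, 0, 0, 140000, 0, 300000⟩ ⟨140000, (.pol), (.pol), (.pol), (.pol), (.pol), (.pol),
 (.pol), (.pol), (.pol)⟩, .one ⟨4000000, 0, 664000, -72552, 25165, 0, 0, 140000, 300000, 692000⟩ ⟨0, .pol,
 .pol, .pol, .pol, (.sx 70000 (.sx 35000 (.sy 496000 (.sx 17500 (.sy 398000 (.sx 8750 (.sy 349000 (.sx 4375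
 (.sy 324500 (.pol) (.sx 2187 (.sy 336750 (.pol) (.sx 1093 (.inf 25047987 39924) (.pol))) (.pol))) (.pol))
 (.sx 4375 (.sy 373500 (.sx 2187 (.inf 18175842 55019) (.sy 361250 (.pol) (.sx 3281 (.inf 11591925 86267)
 (.pol)))) (.inf 13279415 75305)) (.sy 373500 (.pol) (.sx 6562 (.sy 385750 (.pol) (.inf 8465248 118131))
 (.pol))))) (.pol)) (.sx 8750 (.inf 8086391 123665) (.sy 447000 (.sx 13125 (.sy 422500 (.pol) (.inf 6304647
 158614)) (.pol)) (.inf 5993648 166844)))) (.pol)) (.inf 4660840 214554)) (.sy 496000 (.pol) (.sy 594000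
 (.pol) (.inf 3499660 285743)))) (.pol)), .pol, (.pol), (.sx 70000 (.sx 35000 (.sy 496000 (.sx 17500 (.sy
 398000 (.sx 8750 (.sy 349000 (.sx 4375 (.sy 324500 (.pol) (.sx 2187 (.sy 336750 (.pol) (.sx 1093 (.inf
 25047987 39924) (.pol))) (.pol))) (.pol)) (.sx 4375 (.sy 373500 (.sx 2187 (.inf 18175842 55019) (.sy 361250
 (.pol) (.sx 3281 (.inf 11591925 86267) (.pol)))) (.inf 13279415 75305)) (.sy 373500 (.pol) (.sx 6562 (.sy
 385750 (.pol) (.inf 8465248 118131)) (.pol))))) (.pol)) (.sx 8750 (.inf 8086391 123665) (.sy 447000 (.sx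
 13125 (.sy 422500 (.pol) (.inf 6304647 158614)) (.pol)) (.inf 5993648 166844)))) (.pol)) (.inf 4660840
 214554)) (.sy 496000 (.pol) (.sy 594000 (.pol) (.inf 3499660 285743)))) (.pol)), .pol⟩], [.one ⟨4000000, 0,
 0, 133, 200, 0, 250000, 300000, 0, 300000⟩ ⟨0, .pol, .pol, .pol, .pol, (.pol), .pol, (.pol), (.pol), .pol⟩,
 .one ⟨4000000, 0, 0, 400, 120, 0, 250000, 300000, 300000, 500000⟩ ⟨0, .pol, .pol, .pol, .pol, (.pol), .pol,
 (.pol), (.pol), .pol⟩, .one ⟨4000000, 0, 0, 400, 120, 0, 250000, 300000, 500000, 700000⟩ ⟨0, .pol, .pol,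
 .pol, .pol, (.pol), .pol, (.pol), (.pol), .pol⟩, .one ⟨4000000, 0, 0, 567, 2, 0, 250000, 300000, 700000,
 841000⟩ ⟨0, .pol, .pol, .pol, .pol, (.pol), .pol, (.pol), (.pol), .pol⟩]⟩, ⟨[.one ⟨8000000, 293, 2384000,
 176800, 0, 0, 0, 140000, 0, 300000⟩ ⟨140000, (.aff 3162278 316228), (.pol), (.pol), (.pol), (.pol), (.aff
 150000 5792830 124724), (.pol), (.pol), (.pol)⟩, .one ⟨8000000, 293, 2384000, -508572, 205611, 0, 0, 140000,
 300000, 692000⟩ ⟨0, .pol, .pol, .pol, .pol, (.sx 70000 (.sy 496000 (.sx 35000 (.sy 398000 (.sx 17500 (.aff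
 1950000 8484911 106366) (.aff 1000000 0 0)) (.aff 2900000 9602589 375941)) (.aff 1000000 0 0)) (.aff 3000000
 8239279 485480)) (.aff 1000000 0 0)), .pol, (.aff 3000000 8078190 495161), (.pol), .pol⟩], [.one ⟨8000000,
 293, 256000, -278134, 74960, 0, 250000, 300000, 0, 300000⟩ ⟨0, .pol, .pol, .pol, .pol, (.aff 1000000 0 0),
 .pol, (.pol), (.sy 150000 (.pol) (.pol)), .pol⟩, .two ⟨8000000, 293, 256000, -268400, 72040, 0, 250000,
 300000, 300000, 450000⟩ ⟨0, .pol, .pol, .pol, .pol, (.aff 1000000 0 0), .pol, (.pol), (.pol), .pol⟩ ⟨8000000,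
 293, 256000, -268400, 72040, 0, 250000, 300000, 450000, 500000⟩ ⟨0, .pol, .pol, .pol, .pol, (.aff 1000000 0
 0), .pol, (.pol), (.pol), .pol⟩, .one ⟨8000000, 293, 256000, 151600, -137960, 0, 250000, 300000, 500000,
 700000⟩ ⟨0, .pol, .pol, .pol, .pol, (.aff 1000000 0 0), .pol, (.aff 1000000 0 0), (.pol), .pol⟩, .one
 ⟨8000000, 293, 256000, 414184, -321770, 0, 250000, 300000, 700000, 841000⟩ ⟨0, .pol, .pol, .pol, .pol, (.aff
 1000000 0 0), .pol, (.aff 1000000 0 0), (.pol), .pol⟩]⟩, ⟨[.one ⟨2240000, 161, 600320, 126634, 0, 0, 0,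
 140000, 0, 300000⟩ ⟨140000, (.aff 2000000 500000), (.pol), (.pol), (.pol), (.aff 1000000 0 0), (.aff 225000
 2898657 207209), (.pol), (.pol), (.pol)⟩, .one ⟨2240000, 161, 600320, -274915, 120464, 0, 0, 140000, 300000,
 692000⟩ ⟨0, .pol, .pol, .pol, .pol, (.sy 496000 (.sx 70000 (.aff 1900000 4292053 188721) (.aff 1000000 0 0))
 (.aff 2000000 4119640 242740)), .pol, (.aff 3000000 5712143 700263), (.pol), .pol⟩], [.one ⟨2240000, 161,
 29120, -162624, 74592, 0, 250000, 300000, 0, 300000⟩ ⟨0, .pol, .pol, .pol, .pol, (.aff 1000000 0 0), .pol,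
 (.pol), (.sy 150000 (.pol) (.sy 225000 (.pol) (.pol))), .pol⟩, .two ⟨2240000, 161, 29120, -161168, 74155, 0,
 250000, 300000, 300000, 450000⟩ ⟨0, .pol, .pol, .pol, .pol, (.aff 1000000 0 0), .pol, (.pol), (.pol), .pol⟩
 ⟨2240000, 161, 29120, -161168, 74155, 0, 250000, 300000, 450000, 500000⟩ ⟨0, .pol, .pol, .pol, .pol, (.aff
 1000000 0 0), .pol, (.pol), (.pol), .pol⟩, .one ⟨2240000, 161, 29120, 110768, -61813, 0, 250000, 300000,
 500000, 700000⟩ ⟨0, .pol, .pol, .pol, .pol, (.aff 1000000 0 0), .pol, (.aff 1000000 0 0), (.pol), .pol⟩, .one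
 ⟨2240000, 161, 29120, 227495, -143522, 0, 250000, 300000, 700000, 841000⟩ ⟨0, .pol, .pol, .pol, .pol, (.aff
 1000000 0 0), .pol, (.aff 1000000 0 0), (.pol), .pol⟩]⟩, ⟨[.one ⟨4000000, 99, 396000, 150666, 0, 0, 0,
 140000, 0, 300000⟩ ⟨140000, (.aff 1414214 707107), (.pol), (.pol), (.pol), (.pol), (.aff 0 2507133 398862),
 (.pol), (.pol), (.pol)⟩, .one ⟨4000000, 99, 396000, 26428, 37271, 0, 0, 140000, 300000, 692000⟩ ⟨0, .pol,
 .pol, .pol, .pol, (.sy 496000 (.sx 70000 (.aff 2775000 7685631 409938) (.aff 1000000 0 0)) (.aff 3100000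
 7471752 590224)), .pol, (.pol), (.pol), .pol⟩], [.one ⟨4000000, 99, 12000, 40533, 59040, 0, 250000, 300000,
 0, 300000⟩ ⟨0, .pol, .pol, .pol, .pol, (.aff 1000000 0 0), .pol, (.pol), (.sy 150000 (.pol) (.pol)), .pol⟩,
 .one ⟨4000000, 99, 12000, 88800, 44560, 0, 250000, 300000, 300000, 500000⟩ ⟨0, .pol, .pol, .pol, .pol, (.aff
 1000000 0 0), .pol, (.pol), (.pol), .pol⟩, .one ⟨4000000, 99, 12000, 117200, 30360, 0, 250000, 300000,
 500000, 700000⟩ ⟨0, .pol, .pol, .pol, .pol, (.aff 1000000 0 0), .pol, (.pol), (.pol), .pol⟩, .one ⟨4000000,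
 99, 12000, 140141, 14300, 0, 250000, 300000, 700000, 841000⟩ ⟨0, .pol, .pol, .pol, .pol, (.aff 1000000 0 0),
 .pol, (.pol), (.pol), .pol⟩]⟩, ⟨[.one ⟨8000000, 151, 608000, 259733, 0, 0, 0, 140000, 0, 300000⟩ ⟨140000,
 (.aff 1414214 707107), (.pol), (.pol), (.pol), (.pol), (.aff 0 1772811 564076), (.pol), (.pol), (.pol)⟩, .one
 ⟨8000000, 151, 608000, -6123, 79756, 0, 0, 140000, 300000, 692000⟩ ⟨0, .pol, .pol, .pol, .pol, (.sy 496000
 (.aff 3100000 7081526 622748) (.sy 594000 (.aff 3200000 7107683 680954) (.aff 5000000 9898533 1616402))),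
 .pol, (.pol), (.pol), .pol⟩], [.one ⟨8000000, 151, 448000, 67200, -29360, 0, 250000, 300000, 0, 300000⟩ ⟨0,
 .pol, .pol, .pol, .pol, (.aff 1000000 0 0), .pol, (.pol), (.pol), .pol⟩, .one ⟨8000000, 151, 448000, 143200,
 -52160, 0, 250000, 300000, 300000, 500000⟩ ⟨0, .pol, .pol, .pol, .pol, (.aff 1000000 0 0), .pol, (.pol),
 (.pol), .pol⟩, .one ⟨8000000, 151, 448000, 186400, -73760, 0, 250000, 300000, 500000, 700000⟩ ⟨0, .pol, .pol,
 .pol, .pol, (.aff 1000000 0 0), .pol, (.pol), (.pol), .pol⟩, .one ⟨8000000, 151, 448000, 216737, -94997, 0,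
 250000, 300000, 700000, 841000⟩ ⟨0, .pol, .pol, .pol, .pol, (.aff 1000000 0 0), .pol, (.pol), (.pol),
 .pol⟩]⟩] = true := by decide +kernel

theorem II_xQ32 : PropII xQ32 := propII_of cQ32

end CA
end Pool.Agent.Lib.MP_6947cd_al
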