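import Pool.Agent.Lib.MP_6947cd_al.L.PairA
import Pool.Agent.Lib.MP_6947cd_al.L.BoxData

/-!
Problem MP_6947cd_al (Chollet).  CASE A, (II): certificates (generated).
-/

set_option autoImplicit false
set_option maxRecDepth 100000

namespace Pool.Agent.Lib.MP_6947cd_al
namespace CA

theorem cQ33 : chkII xQ33 ⟨705000, 710000, 841129, 839645, 842617, 540828, 543144, 538522, 543139, 538516⟩
 [⟨[.one ⟨4000000, 218, 1076000, 137333, 0, 0, 0, 145000, 0, 300000⟩ ⟨145000, (.aff 3162278 316228), (.pol),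
 (.pol), (.pol), (.aff 0 1017096 983192), (.sx 72500 (.sx 36250 (.sy 222500 (.aff 113000 3994049 196986) (.aff
 250000 4026850 139688)) (.aff 1000000 0 0)) (.aff 0 1430377 699117)), (.pol), (.pol), (.pol)⟩, .one ⟨4000000,
 218, 1076000, -352552, 146965, 0, 0, 145000, 300000, 692000⟩ ⟨0, .pol, .pol, .pol, .pol, (.sy 496000 (.sy
 398000 (.sx 72500 (.aff 1975000 5493536 173045) (.aff 1000000 0 0)) (.sx 72500 (.aff 2200000 5959311 241639)
 (.aff 1000000 0 0))) (.aff 3100000 6010956 733661)), .pol, (.aff 3000000 5612794 712658), (.pol), .pol⟩],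
 [.one ⟨4000000, 218, 236000, 0, 40680, 0, 250000, 300000, 0, 300000⟩ ⟨0, .pol, .pol, .pol, .pol, (.aff
 1000000 0 0), .pol, (.pol), (.sy 150000 (.pol) (.pol)), .pol⟩, .two ⟨4000000, 218, 236000, -492000, 188280,
 0, 250000, 300000, 300000, 450000⟩ ⟨0, .pol, .pol, .pol, .pol, (.aff 1000000 0 0), .pol, (.pol), (.pol),
 .pol⟩ ⟨4000000, 218, 236000, -492000, 188280, 0, 250000, 300000, 450000, 500000⟩ ⟨0, .pol, .pol, .pol, .pol,
 (.aff 1000000 0 0), .pol, (.pol), (.pol), .pol⟩, .one ⟨4000000, 218, 236000, 103400, -109420, 0, 250000,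
 300000, 500000, 700000⟩ ⟨0, .pol, .pol, .pol, .pol, (.aff 1000000 0 0), .pol, (.aff 1000000 0 0), (.pol),
 .pol⟩, .one ⟨4000000, 218, 236000, 310921, -254686, 0, 250000, 300000, 700000, 841000⟩ ⟨0, .pol, .pol, .pol,
 .pol, (.aff 1000000 0 0), .pol, (.aff 1000000 0 0), (.pol), .pol⟩]⟩, ⟨[.one ⟨4000000, 0, 720000, 4133, 0, 0,
 0, 145000, 0, 300000⟩ ⟨145000, (.pol), (.pol), (.pol), (.pol), (.pol), (.pol), (.pol), (.pol), (.pol)⟩, .one
 ⟨4000000, 0, 720000, -49184, 15995, 0, 0, 145000, 300000, 692000⟩ ⟨0, .pol, .pol, .pol, .pol, (.sx 72500 (.sx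
 36250 (.sx 18125 (.sy 496000 (.sx 9062 (.sy 398000 (.sx 4531 (.sy 349000 (.sx 2265 (.sy 324500 (.pol) (.sx
 1132 (.sy 336750 (.sx 566 (.inf 34180203 29257) (.sy 330625 (.pol) (.inf 19825134 50442))) (.inf 24612725
 40630)) (.sy 336750 (.pol) (.sx 1698 (.inf 15566454 64241) (.pol))))) (.pol)) (.sx 2265 (.inf 18160433 55065)
 (.sy 373500 (.sx 3398 (.sy 361250 (.sx 2831 (.inf 11805678 84706) (.pol)) (.inf 11390598 87792)) (.pol))
 (.inf 10654702 93856)))) (.sy 349000 (.pol) (.sx 6796 (.sy 373500 (.pol) (.inf 8252975 121169)) (.pol))))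
 (.inf 9932458 100681)) (.sy 398000 (.pol) (.sy 447000 (.pol) (.inf 5889457 169795)))) (.inf 8095977 123519))
 (.sy 496000 (.pol) (.inf 4674214 213940))) (.pol)) (.pol)), .pol, (.pol), (.sx 72500 (.sx 36250 (.sx 18125
 (.sy 496000 (.sx 9062 (.sy 398000 (.sx 4531 (.sy 349000 (.sx 2265 (.sy 324500 (.pol) (.sx 1132 (.sy 336750
 (.sx 566 (.inf 34180203 29257) (.sy 330625 (.pol) (.inf 19825134 50442))) (.inf 24612725 40630)) (.sy 336750
 (.pol) (.sx 1698 (.inf 15566454 64241) (.pol))))) (.pol)) (.sx 2265 (.inf 18160433 55065) (.sy 373500 (.sx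
 3398 (.sy 361250 (.sx 2831 (.inf 11805678 84706) (.pol)) (.inf 11390598 87792)) (.pol)) (.inf 10654702
 93856)))) (.sy 349000 (.pol) (.sx 6796 (.sy 373500 (.pol) (.inf 8252975 121169)) (.pol)))) (.inf 9932458
 100681)) (.sy 398000 (.pol) (.sy 447000 (.pol) (.inf 5889457 169795)))) (.inf 8095977 123519)) (.sy 496000
 (.pol) (.inf 4674214 213940))) (.pol)) (.pol)), .pol⟩], [.one ⟨4000000, 0, 20000, 266, -4840, 0, 250000,
 300000, 0, 300000⟩ ⟨0, .pol, .pol, .pol, .pol, (.pol), .pol, (.pol), (.pol), .pol⟩, .one ⟨4000000, 0, 20000,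
 400, -4880, 0, 250000, 300000, 300000, 500000⟩ ⟨0, .pol, .pol, .pol, .pol, (.pol), .pol, (.pol), (.pol),
 .pol⟩, .one ⟨4000000, 0, 20000, 400, -4880, 0, 250000, 300000, 500000, 700000⟩ ⟨0, .pol, .pol, .pol, .pol,
 (.pol), .pol, (.pol), (.pol), .pol⟩, .one ⟨4000000, 0, 20000, 283, -4799, 0, 250000, 300000, 700000, 841000⟩
 ⟨0, .pol, .pol, .pol, .pol, (.pol), .pol, (.pol), (.pol), .pol⟩]⟩, ⟨[.one ⟨3200000, 122, 905600, 70720, 0, 0,
 0, 145000, 0, 300000⟩ ⟨72500, (.aff 3162278 316228), (.pol), (.pol), (.pol), (.aff 0 1174441 851469), (.sy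
 186250 (.aff 0 4868138 205418) (.aff 175000 6238688 109098)), (.pol), (.pol), (.pol)⟩, .one ⟨3200000, 122,
 905600, -206939, 83297, 0, 0, 145000, 300000, 692000⟩ ⟨0, .pol, .pol, .pol, .pol, (.sy 496000 (.sx 72500 (.sx
 36250 (.sy 398000 (.sx 18125 (.aff 1900000 7703514 105147) (.aff 1000000 0 0)) (.aff 2100000 7725427 156626))
 (.aff 1000000 0 0)) (.aff 1000000 0 0)) (.aff 3000000 8095977 494073)), .pol, (.aff 3000000 7937689 503926),
 (.pol), .pol⟩], [.one ⟨3200000, 122, 67200, 0, 42240, 0, 250000, 300000, 0, 300000⟩ ⟨0, .pol, .pol, .pol,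
 .pol, (.aff 1000000 0 0), .pol, (.pol), (.sy 150000 (.pol) (.pol)), .pol⟩, .two ⟨3200000, 122, 67200,
 -291200, 129600, 0, 250000, 300000, 300000, 450000⟩ ⟨0, .pol, .pol, .pol, .pol, (.aff 1000000 0 0), .pol,
 (.pol), (.pol), .pol⟩ ⟨3200000, 122, 67200, -291200, 129600, 0, 250000, 300000, 450000, 500000⟩ ⟨0, .pol,
 .pol, .pol, .pol, (.aff 1000000 0 0), .pol, (.pol), (.pol), .pol⟩, .one ⟨3200000, 122, 67200, 74240, -53120,
 0, 250000, 300000, 500000, 700000⟩ ⟨0, .pol, .pol, .pol, .pol, (.aff 1000000 0 0), .pol, (.aff 1000000 0 0),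
 (.pol), .pol⟩, .one ⟨3200000, 122, 67200, 174070, -123002, 0, 250000, 300000, 700000, 841000⟩ ⟨0, .pol, .pol,
 .pol, .pol, (.aff 1000000 0 0), .pol, (.aff 1000000 0 0), (.pol), .pol⟩]⟩, ⟨[.one ⟨2240000, 161, 600320,
 127381, 0, 0, 0, 145000, 0, 300000⟩ ⟨145000, (.aff 2000000 500000), (.pol), (.pol), (.pol), (.aff 0 1017096
 983192), (.aff 225000 2864380 209688), (.pol), (.pol), (.pol)⟩, .one ⟨2240000, 161, 600320, -284229, 123482,
 0, 0, 145000, 300000, 692000⟩ ⟨0, .pol, .pol, .pol, .pol, (.sy 496000 (.sx 72500 (.aff 1900000 4217403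
 192062) (.aff 1000000 0 0)) (.aff 2100000 4452787 271740)), .pol, (.aff 3000000 5612794 712658), (.pol),
 .pol⟩], [.one ⟨2240000, 161, 29120, 0, 73561, 0, 250000, 300000, 0, 300000⟩ ⟨0, .pol, .pol, .pol, .pol, (.aff
 1000000 0 0), .pol, (.pol), (.sy 150000 (.pol) (.pol)), .pol⟩, .two ⟨2240000, 161, 29120, -399840, 193513, 0,
 250000, 300000, 300000, 450000⟩ ⟨0, .pol, .pol, .pol, .pol, (.aff 1000000 0 0), .pol, (.pol), (.pol), .pol⟩
 ⟨2240000, 161, 29120, -399840, 193513, 0, 250000, 300000, 450000, 500000⟩ ⟨0, .pol, .pol, .pol, .pol, (.aff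
 1000000 0 0), .pol, (.pol), (.pol), .pol⟩, .one ⟨2240000, 161, 29120, 112672, -62743, 0, 250000, 300000,
 500000, 700000⟩ ⟨0, .pol, .pol, .pol, .pol, (.aff 1000000 0 0), .pol, (.aff 1000000 0 0), (.pol), .pol⟩, .one
 ⟨2240000, 161, 29120, 229560, -144565, 0, 250000, 300000, 700000, 841000⟩ ⟨0, .pol, .pol, .pol, .pol, (.aff
 1000000 0 0), .pol, (.aff 1000000 0 0), (.pol), .pol⟩]⟩, ⟨[.one ⟨4000000, 99, 396000, 150666, 0, 0, 0,
 145000, 0, 300000⟩ ⟨145000, (.aff 1414214 707107), (.pol), (.pol), (.pol), (.pol), (.aff 500000 1238743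
 201818), (.pol), (.pol), (.pol)⟩, .one ⟨4000000, 99, 396000, 22653, 38404, 0, 0, 145000, 300000, 692000⟩ ⟨0,
 .pol, .pol, .pol, .pol, (.sy 496000 (.sx 72500 (.aff 2888000 7834401 454987) (.aff 1000000 0 0)) (.aff
 3100000 7341798 600671)), .pol, (.pol), (.pol), .pol⟩], [.one ⟨4000000, 99, 12000, 41066, 58720, 0, 250000,
 300000, 0, 300000⟩ ⟨0, .pol, .pol, .pol, .pol, (.aff 1000000 0 0), .pol, (.pol), (.sy 150000 (.pol) (.pol)),
 .pol⟩, .one ⟨4000000, 99, 12000, 89800, 44100, 0, 250000, 300000, 300000, 500000⟩ ⟨0, .pol, .pol, .pol, .pol,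
 (.aff 1000000 0 0), .pol, (.pol), (.pol), .pol⟩, .one ⟨4000000, 99, 12000, 118200, 29900, 0, 250000, 300000,
 500000, 700000⟩ ⟨0, .pol, .pol, .pol, .pol, (.aff 1000000 0 0), .pol, (.pol), (.pol), .pol⟩, .one ⟨4000000,
 99, 12000, 141560, 13547, 0, 250000, 300000, 700000, 841000⟩ ⟨0, .pol, .pol, .pol, .pol, (.aff 1000000 0 0),
 .pol, (.pol), (.pol), .pol⟩]⟩, ⟨[.one ⟨8000000, 151, 608000, 259733, 0, 0, 0, 145000, 0, 300000⟩ ⟨145000,
 (.aff 1414214 707107), (.pol), (.pol), (.pol), (.pol), (.aff 0 1751847 570827), (.pol), (.pol), (.pol)⟩, .one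
 ⟨8000000, 151, 608000, -11225, 81287, 0, 0, 145000, 300000, 692000⟩ ⟨0, .pol, .pol, .pol, .pol, (.sy 496000
 (.aff 3100000 6958359 633771) (.sy 594000 (.aff 3300000 7301519 724507) (.aff 5000000 9726372 1645013))),
 .pol, (.pol), (.pol), .pol⟩], [.one ⟨8000000, 151, 448000, 67466, -29760, 0, 250000, 300000, 0, 300000⟩ ⟨0,
 .pol, .pol, .pol, .pol, (.aff 1000000 0 0), .pol, (.pol), (.pol), .pol⟩, .one ⟨8000000, 151, 448000, 144800,
 -52960, 0, 250000, 300000, 300000, 500000⟩ ⟨0, .pol, .pol, .pol, .pol, (.aff 1000000 0 0), .pol, (.pol),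
 (.pol), .pol⟩, .one ⟨8000000, 151, 448000, 188000, -74560, 0, 250000, 300000, 500000, 700000⟩ ⟨0, .pol, .pol,
 .pol, .pol, (.aff 1000000 0 0), .pol, (.pol), (.pol), .pol⟩, .one ⟨8000000, 151, 448000, 219007, -96265, 0,
 250000, 300000, 700000, 841000⟩ ⟨0, .pol, .pol, .pol, .pol, (.aff 1000000 0 0), .pol, (.pol), (.pol),
 .pol⟩]⟩] = true := by decide +kernel

theorem II_xQ33 : PropII xQ33 := propII_of cQ33

theorem cQ34 : chkII xQ34 ⟨710000, 715000, 844096, 842617, 845579, 536185, 538522, 533859, 538516, 533853⟩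
 [⟨[.one ⟨4000000, 213, 1036000, 136000, 0, 0, 0, 155000, 0, 300000⟩ ⟨155000, (.aff 3162278 316228), (.pol),
 (.pol), (.pol), (.aff 0 983739 1016530), (.sx 77500 (.sy 227500 (.sy 191250 (.aff 0 3651052 273894) (.sx
 38750 (.aff 150000 3951623 182837) (.aff 0 1897934 526889))) (.aff 275000 3990536 131718)) (.aff 0 1398925
 714835)), (.pol), (.pol), (.pol)⟩, .one ⟨4000000, 213, 1036000, -303164, 131748, 0, 0, 155000, 300000,
 692000⟩ ⟨0, .pol, .pol, .pol, .pol, (.aff 2050000 4588315 240285), .pol, (.aff 3000000 5428717 736823),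
 (.pol), .pol⟩], [.one ⟨4000000, 213, 228000, 0, 39120, 0, 250000, 300000, 0, 300000⟩ ⟨0, .pol, .pol, .pol,
 .pol, (.aff 1000000 0 0), .pol, (.pol), (.sy 150000 (.pol) (.pol)), .pol⟩, .two ⟨4000000, 213, 228000,
 -474200, 181380, 0, 250000, 300000, 300000, 450000⟩ ⟨0, .pol, .pol, .pol, .pol, (.aff 1000000 0 0), .pol,
 (.pol), (.pol), .pol⟩ ⟨4000000, 213, 228000, -474200, 181380, 0, 250000, 300000, 450000, 500000⟩ ⟨0, .pol,
 .pol, .pol, .pol, (.aff 1000000 0 0), .pol, (.pol), (.pol), .pol⟩, .one ⟨4000000, 213, 228000, 104400,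
 -107920, 0, 250000, 300000, 500000, 700000⟩ ⟨0, .pol, .pol, .pol, .pol, (.aff 1000000 0 0), .pol, (.aff
 1000000 0 0), (.pol), .pol⟩, .one ⟨4000000, 213, 228000, 306099, -249110, 0, 250000, 300000, 700000, 841000⟩
 ⟨0, .pol, .pol, .pol, .pol, (.aff 1000000 0 0), .pol, (.aff 1000000 0 0), (.pol), .pol⟩]⟩, ⟨[.one ⟨4000000,
 0, 708000, 1866, 0, 0, 0, 155000, 0, 300000⟩ ⟨155000, (.pol), (.pol), (.pol), (.pol), (.pol), (.pol), (.pol),
 (.pol), (.pol)⟩, .one ⟨4000000, 0, 708000, -37552, 11825, 0, 0, 155000, 300000, 692000⟩ ⟨0, .pol, .pol, .pol,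
 .pol, (.sx 77500 (.sx 38750 (.sx 19375 (.sy 496000 (.sx 9687 (.sy 398000 (.sx 4843 (.sy 349000 (.sx 2421 (.sy
 324500 (.sx 1210 (.sy 312250 (.pol) (.sx 605 (.sy 318375 (.sx 302 (.inf 45696414 21884) (.pol)) (.inf
 32597597 30678)) (.pol))) (.pol)) (.sx 1210 (.inf 23592617 42387) (.sy 336750 (.pol) (.inf 13742628 72767))))
 (.pol)) (.sx 2421 (.inf 17565597 56930) (.sy 373500 (.sx 3632 (.inf 10925306 91531) (.pol)) (.inf 10305761
 97034)))) (.pol)) (.inf 9606698 104095)) (.pol)) (.inf 7830462 127707)) (.sy 496000 (.pol) (.inf 4520920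
 221194))) (.pol)) (.pol)), .pol, (.pol), (.sx 77500 (.sx 38750 (.sx 19375 (.sy 496000 (.sx 9687 (.sy 398000
 (.sx 4843 (.sy 349000 (.sx 2421 (.sy 324500 (.sx 1210 (.sy 312250 (.pol) (.sx 605 (.sy 318375 (.sx 302 (.inf
 45696414 21884) (.pol)) (.inf 32597597 30678)) (.pol))) (.pol)) (.sx 1210 (.inf 23592617 42387) (.sy 336750
 (.pol) (.inf 13742628 72767)))) (.pol)) (.sx 2421 (.inf 17565597 56930) (.sy 373500 (.sx 3632 (.inf 10925306
 91531) (.pol)) (.inf 10305761 97034)))) (.pol)) (.inf 9606698 104095)) (.pol)) (.inf 7830462 127707)) (.sy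
 496000 (.pol) (.inf 4520920 221194))) (.pol)) (.pol)), .pol⟩], [.one ⟨4000000, 0, 20000, 266, -4840, 0,
 250000, 300000, 0, 300000⟩ ⟨0, .pol, .pol, .pol, .pol, (.pol), .pol, (.pol), (.pol), .pol⟩, .one ⟨4000000, 0,
 20000, 400, -4880, 0, 250000, 300000, 300000, 500000⟩ ⟨0, .pol, .pol, .pol, .pol, (.pol), .pol, (.pol),
 (.pol), .pol⟩, .one ⟨4000000, 0, 20000, 400, -4880, 0, 250000, 300000, 500000, 700000⟩ ⟨0, .pol, .pol, .pol,
 .pol, (.pol), .pol, (.pol), (.pol), .pol⟩, .one ⟨4000000, 0, 20000, 283, -4799, 0, 250000, 300000, 700000,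
 841000⟩ ⟨0, .pol, .pol, .pol, .pol, (.pol), .pol, (.pol), (.pol), .pol⟩]⟩, ⟨[.one ⟨8000000, 293, 2224000,
 167466, 0, 0, 0, 155000, 0, 300000⟩ ⟨155000, (.sp 250000 (.aff 6324556 158114) (.pol)), (.pol), (.pol),
 (.pol), (.pol), (.sx 77500 (.sy 227500 (.aff 0 6326828 158058) (.aff 225000 6363744 94383)) (.aff 0 1398925
 714835)), (.pol), (.pol), (.pol)⟩, .one ⟨8000000, 293, 2224000, -515715, 204954, 0, 0, 155000, 300000,
 692000⟩ ⟨0, .pol, .pol, .pol, .pol, (.sx 77500 (.sy 496000 (.sy 398000 (.aff 2250000 8530840 183159) (.aff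
 2900000 9126127 395568)) (.aff 3000000 7830462 510826)) (.aff 1000000 0 0)), .pol, (.aff 3000000 7677366
 521013), (.pol), .pol⟩], [.one ⟨8000000, 293, 312000, 0, 54400, 0, 250000, 300000, 0, 300000⟩ ⟨0, .pol, .pol,
 .pol, .pol, (.aff 1000000 0 0), .pol, (.pol), (.sy 150000 (.pol) (.pol)), .pol⟩, .two ⟨8000000, 293, 312000,
 -652000, 250000, 0, 250000, 300000, 300000, 450000⟩ ⟨0, .pol, .pol, .pol, .pol, (.aff 1000000 0 0), .pol,
 (.pol), (.pol), .pol⟩ ⟨8000000, 293, 312000, -652000, 250000, 0, 250000, 300000, 450000, 500000⟩ ⟨0, .pol,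
 .pol, .pol, .pol, (.aff 1000000 0 0), .pol, (.pol), (.pol), .pol⟩, .one ⟨8000000, 293, 312000, 144000,
 -148000, 0, 250000, 300000, 500000, 700000⟩ ⟨0, .pol, .pol, .pol, .pol, (.aff 1000000 0 0), .pol, (.aff
 1000000 0 0), (.pol), .pol⟩, .one ⟨8000000, 293, 312000, 421560, -342293, 0, 250000, 300000, 700000, 841000⟩
 ⟨0, .pol, .pol, .pol, .pol, (.aff 1000000 0 0), .pol, (.aff 1000000 0 0), (.pol), .pol⟩]⟩, ⟨[.one ⟨8000000,
 547, 1920000, 451466, 0, 0, 0, 155000, 0, 300000⟩ ⟨155000, (.aff 2000000 500000), (.pol), (.pol), (.pol),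
 (.aff 1000000 0 0), (.aff 200000 2142271 298749), (.pol), (.pol), (.pol)⟩, .one ⟨8000000, 547, 1920000,
 -987347, 431644, 0, 0, 155000, 300000, 692000⟩ ⟨0, .pol, .pol, .pol, .pol, (.sy 496000 (.aff 2100000 4305834
 281015) (.aff 2050000 4110993 268184)), .pol, (.aff 5000000 10857434 1473645), (.pol), .pol⟩], [.one
 ⟨8000000, 547, -8000, 0, 278480, 0, 250000, 300000, 0, 300000⟩ ⟨0, .pol, .pol, .pol, .pol, (.aff 1000000 0
 0), .pol, (.pol), (.sy 150000 (.pol) (.pol)), .pol⟩, .two ⟨8000000, 547, -8000, -1342400, 681200, 0, 250000,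
 300000, 300000, 450000⟩ ⟨0, .pol, .pol, .pol, .pol, (.aff 1000000 0 0), .pol, (.pol), (.pol), .pol⟩ ⟨8000000,
 547, -8000, -1342400, 681200, 0, 250000, 300000, 450000, 500000⟩ ⟨0, .pol, .pol, .pol, .pol, (.aff 1000000 0
 0), .pol, (.pol), (.pol), .pol⟩, .one ⟨8000000, 547, -8000, 391600, -185800, 0, 250000, 300000, 500000,
 700000⟩ ⟨0, .pol, .pol, .pol, .pol, (.aff 1000000 0 0), .pol, (.aff 1000000 0 0), (.pol), .pol⟩, .one
 ⟨8000000, 547, -8000, 786382, -462149, 0, 250000, 300000, 700000, 841000⟩ ⟨0, .pol, .pol, .pol, .pol, (.aff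
 1000000 0 0), .pol, (.aff 1000000 0 0), (.pol), .pol⟩]⟩, ⟨[.one ⟨4000000, 99, 396000, 150666, 0, 0, 0,
 155000, 0, 300000⟩ ⟨155000, (.aff 1414214 707107), (.pol), (.pol), (.pol), (.pol), (.aff 500000 856663
 291831), (.pol), (.pol), (.pol)⟩, .one ⟨4000000, 99, 396000, 18571, 39628, 0, 0, 155000, 300000, 692000⟩ ⟨0,
 .pol, .pol, .pol, .pol, (.sy 496000 (.sx 77500 (.aff 3010000 7917262 510291) (.aff 1000000 0 0)) (.aff
 3100000 7101018 621038)), .pol, (.pol), (.pol), .pol⟩], [.one ⟨4000000, 99, 12000, 41333, 58440, 0, 250000,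
 300000, 0, 300000⟩ ⟨0, .pol, .pol, .pol, .pol, (.aff 1000000 0 0), .pol, (.pol), (.sy 150000 (.pol) (.pol)),
 .pol⟩, .one ⟨4000000, 99, 12000, 90800, 43600, 0, 250000, 300000, 300000, 500000⟩ ⟨0, .pol, .pol, .pol, .pol,
 (.aff 1000000 0 0), .pol, (.pol), (.pol), .pol⟩, .one ⟨4000000, 99, 12000, 119600, 29200, 0, 250000, 300000,
 500000, 700000⟩ ⟨0, .pol, .pol, .pol, .pol, (.aff 1000000 0 0), .pol, (.pol), (.pol), .pol⟩, .one ⟨4000000,
 99, 12000, 142411, 13232, 0, 250000, 300000, 700000, 841000⟩ ⟨0, .pol, .pol, .pol, .pol, (.aff 1000000 0 0),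
 .pol, (.pol), (.pol), .pol⟩]⟩, ⟨[.one ⟨8000000, 151, 608000, 259733, 0, 0, 0, 155000, 0, 300000⟩ ⟨155000,
 (.aff 1414214 707107), (.pol), (.pol), (.pol), (.pol), (.aff 0 1713326 583661), (.pol), (.pol), (.pol)⟩, .one
 ⟨8000000, 151, 608000, -16735, 82940, 0, 0, 155000, 300000, 692000⟩ ⟨0, .pol, .pol, .pol, .pol, (.sy 496000
 (.aff 3200000 7050638 686463) (.sx 77500 (.aff 4400000 9412854 1228108) (.aff 3100000 6351343 694342))),
 .pol, (.pol), (.pol), .pol⟩], [.one ⟨8000000, 151, 448000, 68000, -30160, 0, 250000, 300000, 0, 300000⟩ ⟨0,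
 .pol, .pol, .pol, .pol, (.aff 1000000 0 0), .pol, (.pol), (.pol), .pol⟩, .one ⟨8000000, 151, 448000, 146000,
 -53560, 0, 250000, 300000, 300000, 500000⟩ ⟨0, .pol, .pol, .pol, .pol, (.aff 1000000 0 0), .pol, (.pol),
 (.pol), .pol⟩, .one ⟨8000000, 151, 448000, 190000, -75560, 0, 250000, 300000, 500000, 700000⟩ ⟨0, .pol, .pol,
 .pol, .pol, (.aff 1000000 0 0), .pol, (.pol), (.pol), .pol⟩, .one ⟨8000000, 151, 448000, 220141, -96660, 0,
 250000, 300000, 700000, 841000⟩ ⟨0, .pol, .pol, .pol, .pol, (.aff 1000000 0 0), .pol, (.pol), (.pol),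
 .pol⟩]⟩] = true := by decide +kernel

theorem II_xQ34 : PropII xQ34 := propII_of cQ34

theorem cQ35 : chkII xQ35 ⟨715000, 720000, 847052, 845579, 848530, 531502, 533860, 529156, 533853, 529150⟩
 [⟨[.one ⟨8000000, 449, 1952000, 301066, 0, 0, 0, 165000, 0, 300000⟩ ⟨82500, (.aff 3162278 316228), (.pol),
 (.pol), (.pol), (.aff 1000000 0 0), (.sy 191250 (.sy 136875 (.aff 0 2816700 355026) (.aff 32000 3334587
 281002)) (.aff 231000 3450389 171390)), (.pol), (.pol), (.pol)⟩, .one ⟨8000000, 449, 1952000, -682449,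
 295054, 0, 0, 165000, 300000, 692000⟩ ⟨0, .pol, .pol, .pol, .pol, (.aff 2100000 4658869 259720), .pol, (.aff
 3000000 5261640 760220), (.pol), .pol⟩], [.one ⟨8000000, 449, 472000, 0, 82080, 0, 250000, 300000, 0, 300000⟩
 ⟨0, .pol, .pol, .pol, .pol, (.aff 1000000 0 0), .pol, (.pol), (.sy 150000 (.pol) (.pol)), .pol⟩, .two
 ⟨8000000, 449, 472000, -986800, 378120, 0, 250000, 300000, 300000, 450000⟩ ⟨0, .pol, .pol, .pol, .pol, (.aff
 1000000 0 0), .pol, (.pol), (.pol), .pol⟩ ⟨8000000, 449, 472000, -986800, 378120, 0, 250000, 300000, 450000,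
 500000⟩ ⟨0, .pol, .pol, .pol, .pol, (.aff 1000000 0 0), .pol, (.pol), (.pol), .pol⟩, .one ⟨8000000, 449,
 472000, 227600, -229080, 0, 250000, 300000, 500000, 700000⟩ ⟨0, .pol, .pol, .pol, .pol, (.aff 1000000 0 0),
 .pol, (.aff 1000000 0 0), (.pol), .pol⟩, .one ⟨8000000, 449, 472000, 650780, -525307, 0, 250000, 300000,
 700000, 841000⟩ ⟨0, .pol, .pol, .pol, .pol, (.aff 1000000 0 0), .pol, (.aff 1000000 0 0), (.pol), .pol⟩]⟩,
 ⟨[.one ⟨4000000, 0, 708000, 1866, 0, 0, 0, 165000, 0, 300000⟩ ⟨165000, (.pol), (.pol), (.pol), (.pol),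
 (.pol), (.pol), (.pol), (.pol), (.pol)⟩, .one ⟨4000000, 0, 708000, -50000, 15560, 0, 0, 165000, 300000,
 692000⟩ ⟨0, .pol, .pol, .pol, .pol, (.sx 82500 (.sx 41250 (.sx 20625 (.sy 496000 (.sx 10312 (.sy 398000 (.sx
 5156 (.sy 349000 (.sx 2578 (.sy 324500 (.sx 1289 (.sy 312250 (.sx 644 (.sy 306125 (.pol) (.sx 322 (.inf
 43822589 22820) (.pol))) (.pol)) (.sx 644 (.inf 31444272 31803) (.sy 318375 (.pol) (.inf 18236746 54835))))
 (.pol)) (.sx 1289 (.inf 22858217 43748) (.sy 336750 (.sx 1933 (.sy 330625 (.sx 1611 (.inf 15030143 66533)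
 (.pol)) (.inf 14392035 69483)) (.pol)) (.inf 13316676 75094)))) (.sy 324500 (.pol) (.sx 3867 (.sy 336750
 (.pol) (.sy 342875 (.pol) (.inf 10000000 100000))) (.pol)))) (.sx 2578 (.inf 17022324 58747) (.sy 373500 (.sx
 3867 (.inf 10587843 94448) (.sy 361250 (.pol) (.inf 9023901 110817))) (.inf 9987710 100124)))) (.sy 349000
 (.pol) (.sx 7734 (.sy 373500 (.pol) (.inf 7736447 129259)) (.pol)))) (.inf 9311022 107400)) (.sy 398000
 (.pol) (.sy 447000 (.pol) (.inf 5520988 181128)))) (.inf 7589467 131762)) (.sy 496000 (.pol) (.inf 4381781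
 228218))) (.pol)) (.pol)), .pol, (.pol), (.sx 82500 (.sx 41250 (.sx 20625 (.sy 496000 (.sx 10312 (.sy 398000
 (.sx 5156 (.sy 349000 (.sx 2578 (.sy 324500 (.sx 1289 (.sy 312250 (.sx 644 (.sy 306125 (.pol) (.sx 322 (.inf
 43822589 22820) (.pol))) (.pol)) (.sx 644 (.inf 31444272 31803) (.sy 318375 (.pol) (.inf 18236746 54835))))
 (.pol)) (.sx 1289 (.inf 22858217 43748) (.sy 336750 (.sx 1933 (.sy 330625 (.sx 1611 (.inf 15030143 66533)
 (.pol)) (.inf 14392035 69483)) (.pol)) (.inf 13316676 75094)))) (.sy 324500 (.pol) (.sx 3867 (.sy 336750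
 (.pol) (.sy 342875 (.pol) (.inf 10000000 100000))) (.pol)))) (.sx 2578 (.inf 17022324 58747) (.sy 373500 (.sx
 3867 (.inf 10587843 94448) (.sy 361250 (.pol) (.inf 9023901 110817))) (.inf 9987710 100124)))) (.sy 349000
 (.pol) (.sx 7734 (.sy 373500 (.pol) (.inf 7736447 129259)) (.pol)))) (.inf 9311022 107400)) (.sy 398000
 (.pol) (.sy 447000 (.pol) (.inf 5520988 181128)))) (.inf 7589467 131762)) (.sy 496000 (.pol) (.inf 4381781
 228218))) (.pol)) (.pol)), .pol⟩], [.one ⟨4000000, 0, 20000, 266, -4840, 0, 250000, 300000, 0, 300000⟩ ⟨0,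
 .pol, .pol, .pol, .pol, (.pol), .pol, (.pol), (.pol), .pol⟩, .one ⟨4000000, 0, 20000, 400, -4880, 0, 250000,
 300000, 300000, 500000⟩ ⟨0, .pol, .pol, .pol, .pol, (.pol), .pol, (.pol), (.pol), .pol⟩, .one ⟨4000000, 0,
 20000, 400, -4880, 0, 250000, 300000, 500000, 700000⟩ ⟨0, .pol, .pol, .pol, .pol, (.pol), .pol, (.pol),
 (.pol), .pol⟩, .one ⟨4000000, 0, 20000, 283, -4799, 0, 250000, 300000, 700000, 841000⟩ ⟨0, .pol, .pol, .pol,
 .pol, (.pol), .pol, (.pol), (.pol), .pol⟩]⟩, ⟨[.one ⟨4000000, 146, 1060000, 84800, 0, 0, 0, 165000, 0,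
 300000⟩ ⟨165000, (.sp 250000 (.aff 6324556 158114) (.aff 1264912 790569)), (.pol), (.pol), (.pol), (.pol),
 (.sx 82500 (.sx 41250 (.sy 232500 (.aff 44000 6261052 145972) (.aff 225000 6175855 97254)) (.aff 0 1938447
 515877)) (.aff 0 1370689 729561)), (.pol), (.pol), (.pol)⟩, .one ⟨4000000, 146, 1060000, -264592, 104817, 0,
 0, 165000, 300000, 692000⟩ ⟨0, .pol, .pol, .pol, .pol, (.sy 496000 (.aff 2363000 8109925 229074) (.aff
 3000000 7589467 527047)), .pol, (.aff 3000000 7441082 537557), (.pol), .pol⟩], [.one ⟨4000000, 146, 156000,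
 0, 26040, 0, 250000, 300000, 0, 300000⟩ ⟨0, .pol, .pol, .pol, .pol, (.aff 1000000 0 0), .pol, (.pol), (.sy
 150000 (.pol) (.pol)), .pol⟩, .two ⟨4000000, 146, 156000, -320200, 122100, 0, 250000, 300000, 300000, 450000⟩
 ⟨0, .pol, .pol, .pol, .pol, (.aff 1000000 0 0), .pol, (.pol), (.pol), .pol⟩ ⟨4000000, 146, 156000, -320200,
 122100, 0, 250000, 300000, 450000, 500000⟩ ⟨0, .pol, .pol, .pol, .pol, (.aff 1000000 0 0), .pol, (.pol),
 (.pol), .pol⟩, .one ⟨4000000, 146, 156000, 73400, -74700, 0, 250000, 300000, 500000, 700000⟩ ⟨0, .pol, .pol,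
 .pol, .pol, (.aff 1000000 0 0), .pol, (.aff 1000000 0 0), (.pol), .pol⟩, .one ⟨4000000, 146, 156000, 211914,
 -171661, 0, 250000, 300000, 700000, 841000⟩ ⟨0, .pol, .pol, .pol, .pol, (.aff 1000000 0 0), .pol, (.aff
 1000000 0 0), (.pol), .pol⟩]⟩, ⟨[.one ⟨4000000, 278, 976000, 222400, 0, 0, 0, 165000, 0, 300000⟩ ⟨165000,
 (.sp 250000 (.aff 2828428 353554) (.aff 1511858 661438)), (.pol), (.pol), (.pol), (.aff 1000000 0 0), (.aff
 250000 2174802 258645), (.pol), (.pol), (.pol)⟩, .one ⟨4000000, 278, 976000, -503062, 217638, 0, 0, 165000,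
 300000, 692000⟩ ⟨0, .pol, .pol, .pol, .pol, (.sy 496000 (.aff 2100000 4173315 289938) (.aff 3000000 5366564
 745356)), .pol, (.aff 5000000 10523279 1520439), (.pol), .pol⟩], [.one ⟨4000000, 278, 16000, 0, 133680, 0,
 250000, 300000, 0, 300000⟩ ⟨0, .pol, .pol, .pol, .pol, (.aff 1000000 0 0), .pol, (.pol), (.sy 150000 (.pol)
 (.pol)), .pol⟩, .two ⟨4000000, 278, 16000, -672800, 335520, 0, 250000, 300000, 300000, 450000⟩ ⟨0, .pol,
 .pol, .pol, .pol, (.aff 1000000 0 0), .pol, (.pol), (.pol), .pol⟩ ⟨4000000, 278, 16000, -672800, 335520, 0,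
 250000, 300000, 450000, 500000⟩ ⟨0, .pol, .pol, .pol, .pol, (.aff 1000000 0 0), .pol, (.pol), (.pol), .pol⟩,
 .one ⟨4000000, 278, 16000, 202200, -101980, 0, 250000, 300000, 500000, 700000⟩ ⟨0, .pol, .pol, .pol, .pol,
 (.aff 1000000 0 0), .pol, (.aff 1000000 0 0), (.pol), .pol⟩, .one ⟨4000000, 278, 16000, 402836, -242426, 0,
 250000, 300000, 700000, 841000⟩ ⟨0, .pol, .pol, .pol, .pol, (.aff 1000000 0 0), .pol, (.aff 1000000 0 0),
 (.pol), .pol⟩]⟩, ⟨[.one ⟨4000000, 99, 396000, 150666, 0, 0, 0, 165000, 0, 300000⟩ ⟨165000, (.aff 1414214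
 707107), (.pol), (.pol), (.pol), (.pol), (.aff 500000 839373 297842), (.pol), (.pol), (.pol)⟩, .one ⟨4000000,
 99, 396000, 14591, 40822, 0, 0, 165000, 300000, 692000⟩ ⟨0, .pol, .pol, .pol, .pol, (.sx 82500 (.sy 496000
 (.aff 3100000 7967238 553517) (.aff 3000000 7589467 527047)) (.aff 3000000 4386205 911951)), .pol, (.pol),
 (.pol), .pol⟩], [.one ⟨4000000, 99, 12000, 41733, 58160, 0, 250000, 300000, 0, 300000⟩ ⟨0, .pol, .pol, .pol,
 .pol, (.aff 1000000 0 0), .pol, (.pol), (.sy 150000 (.pol) (.pol)), .pol⟩, .one ⟨4000000, 99, 12000, 91600,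
 43200, 0, 250000, 300000, 300000, 500000⟩ ⟨0, .pol, .pol, .pol, .pol, (.aff 1000000 0 0), .pol, (.pol),
 (.pol), .pol⟩, .one ⟨4000000, 99, 12000, 120800, 28600, 0, 250000, 300000, 500000, 700000⟩ ⟨0, .pol, .pol,
 .pol, .pol, (.aff 1000000 0 0), .pol, (.pol), (.pol), .pol⟩, .one ⟨4000000, 99, 12000, 143829, 12479, 0,
 250000, 300000, 700000, 841000⟩ ⟨0, .pol, .pol, .pol, .pol, (.aff 1000000 0 0), .pol, (.pol), (.pol),
 .pol⟩]⟩, ⟨[.one ⟨8000000, 151, 608000, 259733, 0, 0, 0, 165000, 0, 300000⟩ ⟨165000, (.aff 1414214 707107),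
 (.pol), (.pol), (.pol), (.pol), (.aff 0 1678745 595684), (.pol), (.pol), (.pol)⟩, .one ⟨8000000, 151, 608000,
 -22245, 84593, 0, 0, 165000, 300000, 692000⟩ ⟨0, .pol, .pol, .pol, .pol, (.sy 496000 (.aff 3400000 7454883
 772648) (.aff 4225000 8653584 1201887)), .pol, (.pol), (.pol), .pol⟩], [.one ⟨8000000, 151, 448000, 68800,
 -30640, 0, 250000, 300000, 0, 300000⟩ ⟨0, .pol, .pol, .pol, .pol, (.aff 1000000 0 0), .pol, (.pol), (.pol),
 .pol⟩, .one ⟨8000000, 151, 448000, 147200, -54160, 0, 250000, 300000, 300000, 500000⟩ ⟨0, .pol, .pol, .pol,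
 .pol, (.aff 1000000 0 0), .pol, (.pol), (.pol), .pol⟩, .one ⟨8000000, 151, 448000, 192000, -76560, 0, 250000,
 300000, 500000, 700000⟩ ⟨0, .pol, .pol, .pol, .pol, (.aff 1000000 0 0), .pol, (.pol), (.pol), .pol⟩, .one
 ⟨8000000, 151, 448000, 221843, -97451, 0, 250000, 300000, 700000, 841000⟩ ⟨0, .pol, .pol, .pol, .pol, (.aff
 1000000 0 0), .pol, (.pol), (.pol), .pol⟩]⟩] = true := by decide +kernel

theorem II_xQ35 : PropII xQ35 := propII_of cQ35

theorem cQ36 : chkII xQ36 ⟨720000, 725000, 849999, 848530, 851471, 526777, 529156, 524410, 529150, 524404⟩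
 [⟨[.one ⟨8000000, 447, 1872000, 306857, 0, 0, 0, 175000, 0, 280000⟩ ⟨87500, (.aff 3162278 316228), (.pol),
 (.pol), (.pol), (.aff 1000000 0 0), (.sx 43750 (.sx 21875 (.sy 183750 (.aff 50000 3345296 269782) (.aff
 250000 3453260 162890)) (.sy 183750 (.aff 125000 1948718 392887) (.aff 1000000 0 0))) (.aff 1000000 0 0)),
 (.pol), (.pol), (.pol)⟩, .one ⟨8000000, 447, 1872000, -543827, 238191, 0, 0, 175000, 280000, 740000⟩ ⟨0,
 .pol, .pol, .pol, .pol, (.aff 1900000 4584125 176697), .pol, (.aff 3000000 5215362 766965), (.pol), .pol⟩],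
 [.one ⟨8000000, 447, 464000, 0, 80560, 0, 250000, 300000, 0, 300000⟩ ⟨0, .pol, .pol, .pol, .pol, (.aff
 1000000 0 0), .pol, (.pol), (.sy 150000 (.pol) (.pol)), .pol⟩, .two ⟨8000000, 447, 464000, -968800, 371200,
 0, 250000, 300000, 300000, 450000⟩ ⟨0, .pol, .pol, .pol, .pol, (.aff 1000000 0 0), .pol, (.pol), (.pol),
 .pol⟩ ⟨8000000, 447, 464000, -968800, 371200, 0, 250000, 300000, 450000, 500000⟩ ⟨0, .pol, .pol, .pol, .pol,
 (.aff 1000000 0 0), .pol, (.pol), (.pol), .pol⟩, .one ⟨8000000, 447, 464000, 233200, -229800, 0, 250000,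
 300000, 500000, 700000⟩ ⟨0, .pol, .pol, .pol, .pol, (.aff 1000000 0 0), .pol, (.aff 1000000 0 0), (.pol),
 .pol⟩, .one ⟨8000000, 447, 464000, 652903, -523593, 0, 250000, 300000, 700000, 824000⟩ ⟨0, .pol, .pol, .pol,
 .pol, (.aff 1000000 0 0), .pol, (.aff 1000000 0 0), (.pol), .pol⟩]⟩, ⟨[.one ⟨4000000, 0, 560000, 11857, 0, 0,
 0, 175000, 0, 280000⟩ ⟨175000, (.pol), (.pol), (.pol), (.pol), (.pol), (.pol), (.pol), (.pol), (.pol)⟩, .one
 ⟨4000000, 0, 560000, -69653, 22822, 0, 0, 175000, 280000, 740000⟩ ⟨0, .pol, .pol, .pol, .pol, (.sx 87500 (.sx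
 43750 (.sy 510000 (.sx 21875 (.sy 395000 (.sx 10937 (.sy 337500 (.sx 5468 (.sy 308750 (.pol) (.sx 2734 (.sy
 323125 (.pol) (.sx 1367 (.inf 21983319 45490) (.pol))) (.pol))) (.pol)) (.sx 5468 (.sy 366250 (.sx 2734 (.inf
 16043901 62329) (.sy 351875 (.sx 4101 (.sy 344687 (.pol) (.inf 10095101 99058)) (.pol)) (.inf 9357076
 106871))) (.inf 11799115 84753)) (.sy 366250 (.pol) (.sx 8202 (.inf 7462415 134005) (.sy 380625 (.pol) (.inf
 6365995 157085)))))) (.pol)) (.sx 10937 (.inf 9096519 109933) (.sy 452500 (.sx 16406 (.sy 423750 (.sx 13671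
 (.inf 5768163 173366) (.pol)) (.inf 5660972 176649)) (.pol)) (.inf 5416067 184636)))) (.sy 395000 (.pol) (.sx
 32812 (.sy 452500 (.pol) (.sx 27343 (.inf 4422201 226132) (.pol))) (.pol)))) (.inf 4276180 233854)) (.sy
 510000 (.pol) (.sy 625000 (.pol) (.inf 3224904 310087)))) (.pol)), .pol, (.pol), (.sx 87500 (.sx 43750 (.sy
 510000 (.sx 21875 (.sy 395000 (.sx 10937 (.sy 337500 (.sx 5468 (.sy 308750 (.pol) (.sx 2734 (.sy 323125
 (.pol) (.sx 1367 (.inf 21983319 45490) (.pol))) (.pol))) (.pol)) (.sx 5468 (.sy 366250 (.sx 2734 (.inf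
 16043901 62329) (.sy 351875 (.sx 4101 (.sy 344687 (.pol) (.inf 10095101 99058)) (.pol)) (.inf 9357076
 106871))) (.inf 11799115 84753)) (.sy 366250 (.pol) (.sx 8202 (.inf 7462415 134005) (.sy 380625 (.pol) (.inf
 6365995 157085)))))) (.pol)) (.sx 10937 (.inf 9096519 109933) (.sy 452500 (.sx 16406 (.sy 423750 (.sx 13671
 (.inf 5768163 173366) (.pol)) (.inf 5660972 176649)) (.pol)) (.inf 5416067 184636)))) (.sy 395000 (.pol) (.sx
 32812 (.sy 452500 (.pol) (.sx 27343 (.inf 4422201 226132) (.pol))) (.pol)))) (.inf 4276180 233854)) (.sy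
 510000 (.pol) (.sy 625000 (.pol) (.inf 3224904 310087)))) (.pol)), .pol⟩], [.one ⟨4000000, 0, 0, 133, 200, 0,
 250000, 300000, 0, 300000⟩ ⟨0, .pol, .pol, .pol, .pol, (.pol), .pol, (.pol), (.pol), .pol⟩, .one ⟨4000000, 0,
 0, 400, 120, 0, 250000, 300000, 300000, 500000⟩ ⟨0, .pol, .pol, .pol, .pol, (.pol), .pol, (.pol), (.pol),
 .pol⟩, .one ⟨4000000, 0, 0, 400, 120, 0, 250000, 300000, 500000, 700000⟩ ⟨0, .pol, .pol, .pol, .pol, (.pol),
 .pol, (.pol), (.pol), .pol⟩, .one ⟨4000000, 0, 0, 645, -52, 0, 250000, 300000, 700000, 824000⟩ ⟨0, .pol,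
 .pol, .pol, .pol, (.pol), .pol, (.pol), (.pol), .pol⟩]⟩, ⟨[.one ⟨4000000, 126, 1048000, 80571, 0, 0, 0,
 175000, 0, 280000⟩ ⟨87500, (.aff 3162278 316228), (.pol), (.pol), (.pol), (.pol), (.aff 50000 6127719
 147282), (.pol), (.pol), (.pol)⟩, .one ⟨4000000, 126, 1048000, -216522, 83186, 0, 0, 175000, 280000, 740000⟩
 ⟨0, .pol, .pol, .pol, .pol, (.sx 87500 (.sy 510000 (.sx 43750 (.sy 395000 (.sy 337500 (.aff 2100000 8718765
 138782) (.aff 2300000 9188234 183931)) (.aff 3000000 9096311 439739)) (.aff 1000000 0 0)) (.aff 3000000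
 7559290 529151)) (.aff 1000000 0 0)), .pol, (.aff 5000000 10430724 1533930), (.pol), .pol⟩], [.one ⟨4000000,
 126, 324000, 0, -25560, 0, 250000, 300000, 0, 300000⟩ ⟨0, .pol, .pol, .pol, .pol, (.aff 1000000 0 0), .pol,
 (.pol), (.sy 150000 (.pol) (.pol)), .pol⟩, .two ⟨4000000, 126, 324000, -272600, 56220, 0, 250000, 300000,
 300000, 450000⟩ ⟨0, .pol, .pol, .pol, .pol, (.aff 1000000 0 0), .pol, (.pol), (.pol), .pol⟩ ⟨4000000, 126,
 324000, -272600, 56220, 0, 250000, 300000, 450000, 500000⟩ ⟨0, .pol, .pol, .pol, .pol, (.aff 1000000 0 0),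
 .pol, (.pol), (.pol), .pol⟩, .one ⟨4000000, 126, 324000, 63400, -111780, 0, 250000, 300000, 500000, 700000⟩
 ⟨0, .pol, .pol, .pol, .pol, (.aff 1000000 0 0), .pol, (.aff 1000000 0 0), (.pol), .pol⟩, .one ⟨4000000, 126,
 324000, 186451, -197917, 0, 250000, 300000, 700000, 824000⟩ ⟨0, .pol, .pol, .pol, .pol, (.aff 1000000 0 0),
 .pol, (.aff 1000000 0 0), (.pol), .pol⟩]⟩, ⟨[.one ⟨3000000, 123, 720000, 87750, 0, 0, 0, 175000, 0, 280000⟩
 ⟨175000, (.aff 3162278 316228), (.pol), (.pol), (.pol), (.pol), (.aff 250000 3116303 180503), (.pol), (.pol),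
 (.pol)⟩, .one ⟨3000000, 123, 720000, -214435, 84611, 0, 0, 175000, 280000, 740000⟩ ⟨0, .pol, .pol, .pol,
 .pol, (.sy 510000 (.sx 87500 (.sy 395000 (.sy 337500 (.sx 43750 (.aff 2000000 6489383 154098) (.aff 1000000 0
 0)) (.sx 43750 (.aff 2150000 6654687 198733) (.aff 1000000 0 0))) (.aff 2150000 6388399 207016)) (.aff
 1000000 0 0)) (.aff 3000000 7559290 529151)), .pol, (.aff 5000000 10430724 1533930), (.pol), .pol⟩], [.one
 ⟨3000000, 123, 3000, 0, 59610, 0, 250000, 300000, 0, 300000⟩ ⟨0, .pol, .pol, .pol, .pol, (.aff 1000000 0 0),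
 .pol, (.pol), (.sy 150000 (.pol) (.pol)), .pol⟩, .two ⟨3000000, 123, 3000, -293250, 147585, 0, 250000,
 300000, 300000, 450000⟩ ⟨0, .pol, .pol, .pol, .pol, (.aff 1000000 0 0), .pol, (.pol), (.pol), .pol⟩ ⟨3000000,
 123, 3000, -293250, 147585, 0, 250000, 300000, 450000, 500000⟩ ⟨0, .pol, .pol, .pol, .pol, (.aff 1000000 0
 0), .pol, (.pol), (.pol), .pol⟩, .one ⟨3000000, 123, 3000, 91050, -44565, 0, 250000, 300000, 500000, 700000⟩
 ⟨0, .pol, .pol, .pol, .pol, (.aff 1000000 0 0), .pol, (.aff 1000000 0 0), (.pol), .pol⟩, .one ⟨3000000, 123,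
 3000, 179758, -106661, 0, 250000, 300000, 700000, 824000⟩ ⟨0, .pol, .pol, .pol, .pol, (.aff 1000000 0 0),
 .pol, (.aff 1000000 0 0), (.pol), .pol⟩]⟩, ⟨[.one ⟨8000000, 259, 1040000, 399714, 0, 0, 0, 175000, 0, 280000⟩
 ⟨175000, (.aff 1414214 707107), (.pol), (.pol), (.pol), (.pol), (.aff 0 2280351 438529), (.pol), (.pol),
 (.pol)⟩, .one ⟨8000000, 259, 1040000, 57391, 95850, 0, 0, 175000, 280000, 740000⟩ ⟨0, .pol, .pol, .pol, .pol,
 (.sy 510000 (.sy 395000 (.sx 87500 (.aff 2750000 7596795 403131) (.aff 1000000 0 0)) (.sx 87500 (.aff 2900000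
 7463332 483699) (.aff 1000000 0 0))) (.aff 3300000 7117377 743252)), .pol, (.pol), (.pol), .pol⟩], [.one
 ⟨8000000, 259, 240000, 109600, 88880, 0, 250000, 300000, 0, 300000⟩ ⟨0, .pol, .pol, .pol, .pol, (.aff 1000000
 0 0), .pol, (.pol), (.sy 150000 (.pol) (.pol)), .pol⟩, .one ⟨8000000, 259, 240000, 241600, 49280, 0, 250000,
 300000, 300000, 500000⟩ ⟨0, .pol, .pol, .pol, .pol, (.aff 1000000 0 0), .pol, (.pol), (.pol), .pol⟩, .one
 ⟨8000000, 259, 240000, 318800, 10680, 0, 250000, 300000, 500000, 700000⟩ ⟨0, .pol, .pol, .pol, .pol, (.aff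
 1000000 0 0), .pol, (.pol), (.pol), .pol⟩, .one ⟨8000000, 259, 240000, 378709, -31257, 0, 250000, 300000,
 700000, 824000⟩ ⟨0, .pol, .pol, .pol, .pol, (.aff 1000000 0 0), .pol, (.pol), (.pol), .pol⟩]⟩, ⟨[.one
 ⟨8000000, 109, 440000, 146571, 0, 0, 0, 175000, 0, 280000⟩ ⟨175000, (.aff 3162278 316228), (.pol), (.pol),
 (.pol), (.pol), (.sx 87500 (.aff 400000 5259718 68445) (.aff 0 1316562 759555)), (.pol), (.pol), (.pol)⟩,
 .one ⟨8000000, 109, 440000, 108521, 10653, 0, 0, 175000, 280000, 740000⟩ ⟨0, .pol, .pol, .pol, .pol, (.aff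
 1500000 3799284 65802), .pol, (.pol), (.pol), .pol⟩], [.one ⟨8000000, 109, 152000, 46400, 22320, 0, 250000,
 300000, 0, 300000⟩ ⟨0, .pol, .pol, .pol, .pol, (.aff 1000000 0 0), .pol, (.pol), (.sy 150000 (.pol) (.pol)),
 .pol⟩, .one ⟨8000000, 109, 152000, 104000, 5040, 0, 250000, 300000, 300000, 500000⟩ ⟨0, .pol, .pol, .pol,
 .pol, (.aff 1000000 0 0), .pol, (.pol), (.pol), .pol⟩, .one ⟨8000000, 109, 152000, 140000, -12960, 0, 250000,
 300000, 500000, 700000⟩ ⟨0, .pol, .pol, .pol, .pol, (.aff 1000000 0 0), .pol, (.pol), (.pol), .pol⟩, .one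
 ⟨8000000, 109, 152000, 161935, -28315, 0, 250000, 300000, 700000, 824000⟩ ⟨0, .pol, .pol, .pol, .pol, (.aff
 1000000 0 0), .pol, (.pol), (.pol), .pol⟩]⟩] = true := by decide +kernel

theorem II_xQ36 : PropII xQ36 := propII_of cQ36

theorem cQ37 : chkII xQ37 ⟨725000, 730000, 852935, 851471, 854402, 522010, 524410, 519621, 524404, 519615⟩
 [⟨[.one ⟨2240000, 119, 456960, 85360, 0, 0, 0, 190000, 0, 280000⟩ ⟨47500, (.aff 2000000 500000), (.pol),
 (.pol), (.pol), (.aff 375000 678621 575616), (.sy 163750 (.aff 0 2836951 352492) (.sy 221875 (.sx 23750 (.aff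
 150000 2939943 245754) (.aff 1000000 0 0)) (.aff 1000000 0 0))), (.pol), (.sy 140000 (.pol) (.sx 118750
 (.pol) (.pol))), (.pol)⟩, .one ⟨2240000, 119, 456960, -146672, 64968, 0, 0, 190000, 280000, 740000⟩ ⟨0, .pol,
 .pol, .pol, .pol, (.aff 2000000 4002186 249864), .pol, (.aff 3000000 5005261 799160), (.pol), .pol⟩], [.one
 ⟨2240000, 119, 123200, 0, 20809, 0, 250000, 300000, 0, 300000⟩ ⟨0, .pol, .pol, .pol, .pol, (.aff 1000000 0
 0), .pol, (.pol), (.sy 150000 (.pol) (.pol)), .pol⟩, .two ⟨2240000, 119, 123200, -254128, 97048, 0, 250000,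
 300000, 300000, 450000⟩ ⟨0, .pol, .pol, .pol, .pol, (.aff 1000000 0 0), .pol, (.pol), (.pol), .pol⟩ ⟨2240000,
 119, 123200, -254128, 97048, 0, 250000, 300000, 450000, 500000⟩ ⟨0, .pol, .pol, .pol, .pol, (.aff 1000000 0
 0), .pol, (.pol), (.pol), .pol⟩, .one ⟨2240000, 119, 123200, 63504, -61768, 0, 250000, 300000, 500000,
 700000⟩ ⟨0, .pol, .pol, .pol, .pol, (.aff 1000000 0 0), .pol, (.aff 1000000 0 0), (.pol), .pol⟩, .one
 ⟨2240000, 119, 123200, 175406, -140100, 0, 250000, 300000, 700000, 824000⟩ ⟨0, .pol, .pol, .pol, .pol, (.aff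
 1000000 0 0), .pol, (.aff 1000000 0 0), (.pol), .pol⟩]⟩, ⟨[.one ⟨4000000, 0, 560000, 11857, 0, 0, 0, 190000,
 0, 280000⟩ ⟨190000, (.pol), (.pol), (.pol), (.pol), (.pol), (.pol), (.pol), (.pol), (.pol)⟩, .one ⟨4000000,
 0, 560000, -76609, 24770, 0, 0, 190000, 280000, 740000⟩ ⟨0, .pol, .pol, .pol, .pol, (.sx 95000 (.sx 47500
 (.sy 510000 (.sx 23750 (.sy 395000 (.sx 11875 (.sy 337500 (.sx 5937 (.sy 308750 (.pol) (.sx 2968 (.sy 323125
 (.pol) (.sx 1484 (.inf 21098936 47396) (.sy 330312 (.pol) (.inf 12247559 81649)))) (.pol))) (.pol)) (.sx 5937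
 (.sy 366250 (.sx 2968 (.inf 15398459 64942) (.sy 351875 (.sx 4452 (.inf 9638864 103747) (.pol)) (.inf 8980140
 111357))) (.inf 11323486 88313)) (.sy 366250 (.pol) (.sx 8906 (.inf 7161481 139636) (.sy 380625 (.pol) (.inf
 6109318 163685)))))) (.pol)) (.sx 11875 (.inf 8729865 114550) (.sy 452500 (.sx 17812 (.sy 423750 (.sx 14843
 (.inf 5535715 180646) (.pol)) (.inf 5432890 184065)) (.pol)) (.inf 5197841 192388)))) (.sy 395000 (.pol) (.sx
 35625 (.sy 452500 (.pol) (.sx 29687 (.inf 4244039 235625) (.pol))) (.pol)))) (.inf 4103914 243670)) (.sy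
 510000 (.pol) (.sy 625000 (.pol) (.inf 3094988 323104)))) (.pol)), .pol, (.pol), (.sx 95000 (.sx 47500 (.sy
 510000 (.sx 23750 (.sy 395000 (.sx 11875 (.sy 337500 (.sx 5937 (.sy 308750 (.pol) (.sx 2968 (.sy 323125
 (.pol) (.sx 1484 (.inf 21098936 47396) (.sy 330312 (.pol) (.inf 12247559 81649)))) (.pol))) (.pol)) (.sx 5937
 (.sy 366250 (.sx 2968 (.inf 15398459 64942) (.sy 351875 (.sx 4452 (.inf 9638864 103747) (.pol)) (.inf 8980140
 111357))) (.inf 11323486 88313)) (.sy 366250 (.pol) (.sx 8906 (.inf 7161481 139636) (.sy 380625 (.pol) (.inf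
 6109318 163685)))))) (.pol)) (.sx 11875 (.inf 8729865 114550) (.sy 452500 (.sx 17812 (.sy 423750 (.sx 14843
 (.inf 5535715 180646) (.pol)) (.inf 5432890 184065)) (.pol)) (.inf 5197841 192388)))) (.sy 395000 (.pol) (.sx
 35625 (.sy 452500 (.pol) (.sx 29687 (.inf 4244039 235625) (.pol))) (.pol)))) (.inf 4103914 243670)) (.sy
 510000 (.pol) (.sy 625000 (.pol) (.inf 3094988 323104)))) (.pol)), .pol⟩], [.one ⟨4000000, 0, 0, 133, 200, 0,
 250000, 300000, 0, 300000⟩ ⟨0, .pol, .pol, .pol, .pol, (.pol), .pol, (.pol), (.pol), .pol⟩, .one ⟨4000000, 0,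
 0, 400, 120, 0, 250000, 300000, 300000, 500000⟩ ⟨0, .pol, .pol, .pol, .pol, (.pol), .pol, (.pol), (.pol),
 .pol⟩, .one ⟨4000000, 0, 0, 400, 120, 0, 250000, 300000, 500000, 700000⟩ ⟨0, .pol, .pol, .pol, .pol, (.pol),
 .pol, (.pol), (.pol), .pol⟩, .one ⟨4000000, 0, 0, 645, -52, 0, 250000, 300000, 700000, 824000⟩ ⟨0, .pol,
 .pol, .pol, .pol, (.pol), .pol, (.pol), (.pol), .pol⟩]⟩, ⟨[.one ⟨2400000, 51, 528000, 29828, 0, 0, 0, 190000,
 0, 280000⟩ ⟨190000, (.sp 250000 (.aff 6324556 158114) (.pol)), (.pol), (.pol), (.pol), (.pol), (.aff 175000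
 7441378 91465), (.pol), (.pol), (.pol)⟩, .one ⟨2400000, 51, 528000, -89427, 33391, 0, 0, 190000, 280000,
 740000⟩ ⟨0, .pol, .pol, .pol, .pol, (.sx 95000 (.sy 510000 (.sx 47500 (.sy 395000 (.aff 2263000 11101220
 143694) (.aff 3000000 12345893 323995)) (.aff 1000000 0 0)) (.aff 3000000 7254763 551362)) (.aff 1000000 0
 0)), .pol, (.aff 5000000 10010521 1598319), (.pol), .pol⟩], [.one ⟨2400000, 51, 122400, 0, -8448, 0, 250000,
 300000, 0, 300000⟩ ⟨0, .pol, .pol, .pol, .pol, (.aff 1000000 0 0), .pol, (.pol), (.sy 150000 (.pol) (.pol)),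
 .pol⟩, .two ⟨2400000, 51, 122400, -108480, 24096, 0, 250000, 300000, 300000, 450000⟩ ⟨0, .pol, .pol, .pol,
 .pol, (.aff 1000000 0 0), .pol, (.pol), (.pol), .pol⟩ ⟨2400000, 51, 122400, -108480, 24096, 0, 250000,
 300000, 450000, 500000⟩ ⟨0, .pol, .pol, .pol, .pol, (.aff 1000000 0 0), .pol, (.pol), (.pol), .pol⟩, .one
 ⟨2400000, 51, 122400, 26280, -43284, 0, 250000, 300000, 500000, 700000⟩ ⟨0, .pol, .pol, .pol, .pol, (.aff
 1000000 0 0), .pol, (.aff 1000000 0 0), (.pol), .pol⟩, .one ⟨2400000, 51, 122400, 76064, -78134, 0, 250000,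
 300000, 700000, 824000⟩ ⟨0, .pol, .pol, .pol, .pol, (.aff 1000000 0 0), .pol, (.aff 1000000 0 0), (.pol),
 .pol⟩]⟩, ⟨[.one ⟨4000000, 166, 864000, 116428, 0, 0, 0, 190000, 0, 280000⟩ ⟨95000, (.aff 3162278 316228),
 (.pol), (.pol), (.pol), (.aff 0 991190 1008889), (.aff 100000 4169257 194280), (.pol), (.pol), (.pol)⟩, .one
 ⟨4000000, 166, 864000, -285131, 112436, 0, 0, 190000, 280000, 740000⟩ ⟨0, .pol, .pol, .pol, .pol, (.sy 510000
 (.sy 395000 (.sx 95000 (.sx 47500 (.aff 2150000 6130811 215714) (.aff 1000000 0 0)) (.aff 1000000 0 0)) (.sy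
 452500 (.sx 95000 (.aff 2150000 5933075 222903) (.aff 1000000 0 0)) (.aff 3000000 6366029 628336))) (.aff
 2900000 6892025 523794)), .pol, (.aff 5000000 10010521 1598319), (.pol), .pol⟩], [.one ⟨4000000, 166, 12000,
 0, 76960, 0, 250000, 300000, 0, 300000⟩ ⟨0, .pol, .pol, .pol, .pol, (.aff 1000000 0 0), .pol, (.pol), (.sy
 150000 (.pol) (.pol)), .pol⟩, .two ⟨4000000, 166, 12000, -390200, 194020, 0, 250000, 300000, 300000, 450000⟩
 ⟨0, .pol, .pol, .pol, .pol, (.aff 1000000 0 0), .pol, (.pol), (.pol), .pol⟩ ⟨4000000, 166, 12000, -390200,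
 194020, 0, 250000, 300000, 450000, 500000⟩ ⟨0, .pol, .pol, .pol, .pol, (.aff 1000000 0 0), .pol, (.pol),
 (.pol), .pol⟩, .one ⟨4000000, 166, 12000, 125000, -63580, 0, 250000, 300000, 500000, 700000⟩ ⟨0, .pol, .pol,
 .pol, .pol, (.aff 1000000 0 0), .pol, (.aff 1000000 0 0), (.pol), .pol⟩, .one ⟨4000000, 166, 12000, 244516,
 -147242, 0, 250000, 300000, 700000, 824000⟩ ⟨0, .pol, .pol, .pol, .pol, (.aff 1000000 0 0), .pol, (.aff
 1000000 0 0), (.pol), .pol⟩]⟩, ⟨[.one ⟨8000000, 259, 1040000, 399714, 0, 0, 0, 190000, 0, 280000⟩ ⟨190000,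
 (.aff 1414214 707107), (.pol), (.pol), (.pol), (.pol), (.aff 1000000 0 0), (.pol), (.pol), (.pol)⟩, .one
 ⟨8000000, 259, 1040000, 46956, 98772, 0, 0, 190000, 280000, 740000⟩ ⟨0, .pol, .pol, .pol, .pol, (.sy 510000
 (.sy 395000 (.sx 95000 (.aff 2850000 7707371 444056) (.aff 1000000 0 0)) (.sx 95000 (.aff 3000000 7539654
 530529) (.aff 1000000 0 0))) (.sy 625000 (.aff 3000000 6912994 578621) (.aff 5000000 8753947 1827747))),
 .pol, (.pol), (.pol), .pol⟩], [.one ⟨8000000, 259, 240000, 110400, 88160, 0, 250000, 300000, 0, 300000⟩ ⟨0,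
 .pol, .pol, .pol, .pol, (.aff 1000000 0 0), .pol, (.pol), (.sy 150000 (.pol) (.pol)), .pol⟩, .one ⟨8000000,
 259, 240000, 244000, 48080, 0, 250000, 300000, 300000, 500000⟩ ⟨0, .pol, .pol, .pol, .pol, (.aff 1000000 0
 0), .pol, (.pol), (.pol), .pol⟩, .one ⟨8000000, 259, 240000, 322000, 9080, 0, 250000, 300000, 500000, 700000⟩
 ⟨0, .pol, .pol, .pol, .pol, (.aff 1000000 0 0), .pol, (.pol), (.pol), .pol⟩, .one ⟨8000000, 259, 240000,
 381935, -32875, 0, 250000, 300000, 700000, 824000⟩ ⟨0, .pol, .pol, .pol, .pol, (.aff 1000000 0 0), .pol,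
 (.pol), (.pol), .pol⟩]⟩, ⟨[.one ⟨8000000, 109, 440000, 146571, 0, 0, 0, 190000, 0, 280000⟩ ⟨190000, (.sp
 250000 (.aff 4000000 250000) (.aff 1264912 790569)), (.pol), (.pol), (.pol), (.pol), (.aff 425000 5186415
 63749), (.pol), (.pol), (.pol)⟩, .one ⟨8000000, 109, 440000, 101217, 12699, 0, 0, 190000, 280000, 740000⟩ ⟨0,
 .pol, .pol, .pol, .pol, (.aff 1600000 4375475 82277), .pol, (.pol), (.pol), .pol⟩], [.one ⟨8000000, 109,
 152000, 46933, 22000, 0, 250000, 300000, 0, 300000⟩ ⟨0, .pol, .pol, .pol, .pol, (.aff 1000000 0 0), .pol,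
 (.pol), (.sy 150000 (.pol) (.pol)), .pol⟩, .one ⟨8000000, 109, 152000, 105200, 4520, 0, 250000, 300000,
 300000, 500000⟩ ⟨0, .pol, .pol, .pol, .pol, (.aff 1000000 0 0), .pol, (.pol), (.pol), .pol⟩, .one ⟨8000000,
 109, 152000, 141200, -13480, 0, 250000, 300000, 500000, 700000⟩ ⟨0, .pol, .pol, .pol, .pol, (.aff 1000000 0
 0), .pol, (.pol), (.pol), .pol⟩, .one ⟨8000000, 109, 152000, 162580, -28447, 0, 250000, 300000, 700000,
 824000⟩ ⟨0, .pol, .pol, .pol, .pol, (.aff 1000000 0 0), .pol, (.pol), (.pol), .pol⟩]⟩] = true := by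
 decide +kernel

theorem II_xQ37 : PropII xQ37 := propII_of cQ37

theorem cQ38 : chkII xQ38 ⟨730000, 735000, 855861, 854402, 857323, 517198, 519621, 514788, 519615, 514781⟩
 [⟨[.one ⟨3000000, 162, 579000, 121285, 0, 0, 0, 215000, 0, 280000⟩ ⟨53750, (.aff 2000000 500000), (.pol),
 (.pol), (.pol), (.aff 375000 637948 612315), (.sy 166875 (.sy 110312 (.aff 0 2470756 404735) (.aff 82000
 2601765 323905)) (.aff 300000 2854414 171664)), (.pol), (.sy 140000 (.pol) (.sx 134375 (.pol) (.pol))),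
 (.pol)⟩, .one ⟨3000000, 162, 579000, -180718, 84560, 0, 0, 215000, 280000, 740000⟩ ⟨0, .pol, .pol, .pol,
 .pol, (.aff 2000000 3080321 324642), .pol, (.aff 3000000 4705267 850112), (.pol), .pol⟩], [.one ⟨3000000,
 162, 165000, 0, 28050, 0, 250000, 300000, 0, 300000⟩ ⟨0, .pol, .pol, .pol, .pol, (.aff 1000000 0 0), .pol,
 (.pol), (.sy 150000 (.pol) (.pol)), .pol⟩, .two ⟨3000000, 162, 165000, -340950, 130335, 0, 250000, 300000,
 300000, 450000⟩ ⟨0, .pol, .pol, .pol, .pol, (.aff 1000000 0 0), .pol, (.pol), (.pol), .pol⟩ ⟨3000000, 162,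
 165000, -340950, 130335, 0, 250000, 300000, 450000, 500000⟩ ⟨0, .pol, .pol, .pol, .pol, (.aff 1000000 0 0),
 .pol, (.pol), (.pol), .pol⟩, .one ⟨3000000, 162, 165000, 88950, -84615, 0, 250000, 300000, 500000, 700000⟩
 ⟨0, .pol, .pol, .pol, .pol, (.aff 1000000 0 0), .pol, (.aff 1000000 0 0), (.pol), .pol⟩, .one ⟨3000000, 162,
 165000, 240483, -190689, 0, 250000, 300000, 700000, 824000⟩ ⟨0, .pol, .pol, .pol, .pol, (.aff 1000000 0 0),
 .pol, (.aff 1000000 0 0), (.pol), .pol⟩]⟩, ⟨[.one ⟨4000000, 0, 740000, 2000, 0, 0, 0, 215000, 0, 280000⟩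
 ⟨215000, (.pol), (.pol), (.pol), (.pol), (.pol), (.pol), (.pol), (.pol), (.pol)⟩, .one ⟨4000000, 0, 740000,
 -55392, 16069, 0, 0, 215000, 280000, 740000⟩ ⟨0, .pol, .pol, .pol, .pol, (.sx 107500 (.sx 53750 (.sx 26875
 (.sy 510000 (.sx 13437 (.sy 395000 (.sx 6718 (.sy 337500 (.sx 3359 (.sy 308750 (.sx 1679 (.sy 294375 (.sx 839
 (.sy 287187 (.pol) (.sx 419 (.sy 290781 (.sx 209 (.inf 52587044 19017) (.pol)) (.inf 37370493 26760))
 (.pol))) (.pol)) (.sx 839 (.sy 301562 (.sx 419 (.inf 37713181 26516) (.sy 297968 (.sx 629 (.inf 23774205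
 42063) (.pol)) (.inf 21830574 45808))) (.inf 26970872 37078)) (.sy 301562 (.sx 1259 (.sy 297968 (.pol) (.sx
 1049 (.sy 299765 (.pol) (.inf 17846554 56034)) (.pol))) (.pol)) (.sx 1259 (.sy 305156 (.sx 1049 (.inf
 17926374 55784) (.sy 303359 (.pol) (.inf 16237447 61587))) (.inf 17105990 58460)) (.sy 305156 (.pol) (.sx
 1469 (.inf 15001296 66661) (.pol))))))) (.pol)) (.sx 1679 (.inf 15695130 63715) (.sy 323125 (.sx 2519 (.sy
 315937 (.sx 2099 (.sy 312343 (.pol) (.inf 12895722 77546)) (.pol)) (.inf 12338157 81050)) (.pol)) (.inf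
 9160906 109160)))) (.sy 308750 (.pol) (.sx 5038 (.sy 323125 (.pol) (.sx 4198 (.sy 330312 (.pol) (.inf 9400532
 106377)) (.pol))) (.pol)))) (.sx 3359 (.inf 14767223 67718) (.sy 366250 (.sx 5038 (.inf 9154764 109233) (.sy
 351875 (.pol) (.inf 7815743 127947))) (.inf 8691566 115055)))) (.sy 337500 (.pol) (.sx 10077 (.sy 366250
 (.pol) (.inf 6732458 148535)) (.pol)))) (.inf 8206787 121851)) (.sy 395000 (.pol) (.sy 452500 (.pol) (.inf
 4886335 204653)))) (.inf 6819944 146629)) (.sy 510000 (.pol) (.inf 3937497 253969))) (.pol)) (.pol)), .pol,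
 (.pol), (.sx 107500 (.sx 53750 (.sx 26875 (.sy 510000 (.sx 13437 (.sy 395000 (.sx 6718 (.sy 337500 (.sx 3359
 (.sy 308750 (.sx 1679 (.sy 294375 (.sx 839 (.sy 287187 (.pol) (.sx 419 (.sy 290781 (.sx 209 (.inf 52587044
 19017) (.pol)) (.inf 37370493 26760)) (.pol))) (.pol)) (.sx 839 (.sy 301562 (.sx 419 (.inf 37713181 26516)
 (.sy 297968 (.sx 629 (.inf 23774205 42063) (.pol)) (.inf 21830574 45808))) (.inf 26970872 37078)) (.sy 301562
 (.sx 1259 (.sy 297968 (.pol) (.sx 1049 (.sy 299765 (.pol) (.inf 17846554 56034)) (.pol))) (.pol)) (.sx 1259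
 (.sy 305156 (.sx 1049 (.inf 17926374 55784) (.sy 303359 (.pol) (.inf 16237447 61587))) (.inf 17105990 58460))
 (.sy 305156 (.pol) (.sx 1469 (.inf 15001296 66661) (.pol))))))) (.pol)) (.sx 1679 (.inf 15695130 63715) (.sy
 323125 (.sx 2519 (.sy 315937 (.sx 2099 (.sy 312343 (.pol) (.inf 12895722 77546)) (.pol)) (.inf 12338157
 81050)) (.pol)) (.inf 9160906 109160)))) (.sy 308750 (.pol) (.sx 5038 (.sy 323125 (.pol) (.sx 4198 (.sy
 330312 (.pol) (.inf 9400532 106377)) (.pol))) (.pol)))) (.sx 3359 (.inf 14767223 67718) (.sy 366250 (.sx 5038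
 (.inf 9154764 109233) (.sy 351875 (.pol) (.inf 7815743 127947))) (.inf 8691566 115055)))) (.sy 337500 (.pol)
 (.sx 10077 (.sy 366250 (.pol) (.inf 6732458 148535)) (.pol)))) (.inf 8206787 121851)) (.sy 395000 (.pol) (.sy
 452500 (.pol) (.inf 4886335 204653)))) (.inf 6819944 146629)) (.sy 510000 (.pol) (.inf 3937497 253969)))
 (.pol)) (.pol)), .pol⟩], [.one ⟨4000000, 0, 36000, 266, -8840, 0, 250000, 300000, 0, 300000⟩ ⟨0, .pol, .pol,
 .pol, .pol, (.pol), .pol, (.pol), (.pol), .pol⟩, .one ⟨4000000, 0, 36000, 400, -8880, 0, 250000, 300000,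
 300000, 500000⟩ ⟨0, .pol, .pol, .pol, .pol, (.pol), .pol, (.pol), (.pol), .pol⟩, .one ⟨4000000, 0, 36000,
 400, -8880, 0, 250000, 300000, 500000, 700000⟩ ⟨0, .pol, .pol, .pol, .pol, (.pol), .pol, (.pol), (.pol),
 .pol⟩, .one ⟨4000000, 0, 36000, 322, -8826, 0, 250000, 300000, 700000, 824000⟩ ⟨0, .pol, .pol, .pol, .pol,
 (.pol), .pol, (.pol), (.pol), .pol⟩]⟩, ⟨[.one ⟨8000000, 307, 1696000, 196571, 0, 0, 0, 215000, 0, 280000⟩
 ⟨107500, (.aff 3162278 316228), (.pol), (.pol), (.pol), (.aff 0 931782 1073213), (.sy 193750 (.aff 0 4534880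
 220514) (.aff 225000 4633330 129632)), (.pol), (.pol), (.pol)⟩, .one ⟨8000000, 307, 1696000, -511305, 198205,
 0, 0, 215000, 280000, 740000⟩ ⟨0, .pol, .pol, .pol, .pol, (.sy 510000 (.sy 395000 (.sx 107500 (.sy 337500
 (.sx 53750 (.aff 2100000 6440148 187884) (.aff 1000000 0 0)) (.sx 53750 (.sx 26875 (.aff 2293000 6750379
 247668) (.aff 1000000 0 0)) (.aff 1000000 0 0))) (.aff 1000000 0 0)) (.sx 107500 (.aff 2200000 6014164
 239435) (.aff 1000000 0 0))) (.aff 3000000 6819944 586516)), .pol, (.aff 5000000 9410534 1700223), (.pol),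
 .pol⟩], [.one ⟨8000000, 307, 472000, 0, 13360, 0, 250000, 300000, 0, 300000⟩ ⟨0, .pol, .pol, .pol, .pol,
 (.aff 1000000 0 0), .pol, (.pol), (.sy 150000 (.pol) (.pol)), .pol⟩, .two ⟨8000000, 307, 472000, -645600,
 207040, 0, 250000, 300000, 300000, 450000⟩ ⟨0, .pol, .pol, .pol, .pol, (.aff 1000000 0 0), .pol, (.pol),
 (.pol), .pol⟩ ⟨8000000, 307, 472000, -645600, 207040, 0, 250000, 300000, 450000, 500000⟩ ⟨0, .pol, .pol,
 .pol, .pol, (.aff 1000000 0 0), .pol, (.pol), (.pol), .pol⟩, .one ⟨8000000, 307, 472000, 161200, -196360, 0,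
 250000, 300000, 500000, 700000⟩ ⟨0, .pol, .pol, .pol, .pol, (.aff 1000000 0 0), .pol, (.aff 1000000 0 0),
 (.pol), .pol⟩, .one ⟨8000000, 307, 472000, 460645, -405972, 0, 250000, 300000, 700000, 824000⟩ ⟨0, .pol,
 .pol, .pol, .pol, (.aff 1000000 0 0), .pol, (.aff 1000000 0 0), (.pol), .pol⟩]⟩, ⟨[.one ⟨4000000, 173,
 844000, 138857, 0, 0, 0, 215000, 0, 280000⟩ ⟨215000, (.aff 3162278 316228), (.pol), (.pol), (.pol), (.pol),
 (.aff 1000000 0 0), (.pol), (.pol), (.pol)⟩, .one ⟨4000000, 173, 844000, -337218, 133300, 0, 0, 215000,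
 280000, 740000⟩ ⟨0, .pol, .pol, .pol, .pol, (.sy 510000 (.sy 395000 (.sx 107500 (.aff 2400000 6059679 323450)
 (.aff 1000000 0 0)) (.sy 452500 (.sy 423750 (.sx 107500 (.aff 2200000 5720403 251731) (.aff 1000000 0 0))
 (.sx 107500 (.sy 438125 (.aff 2150000 5624575 235129) (.sx 53750 (.aff 3000000 6647259 601752) (.aff 1000000
 0 0))) (.aff 1000000 0 0))) (.aff 3300000 6882148 768656))) (.aff 2800000 6137950 527864)), .pol, (.aff
 5000000 9410534 1700223), (.pol), .pol⟩], [.one ⟨4000000, 173, 224000, 0, 18000, 0, 250000, 300000, 0,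
 300000⟩ ⟨0, .pol, .pol, .pol, .pol, (.aff 1000000 0 0), .pol, (.pol), (.sy 150000 (.pol) (.pol)), .pol⟩, .two
 ⟨4000000, 173, 224000, -363800, 127140, 0, 250000, 300000, 300000, 450000⟩ ⟨0, .pol, .pol, .pol, .pol, (.aff
 1000000 0 0), .pol, (.pol), (.pol), .pol⟩ ⟨4000000, 173, 224000, -363800, 127140, 0, 250000, 300000, 450000,
 500000⟩ ⟨0, .pol, .pol, .pol, .pol, (.aff 1000000 0 0), .pol, (.pol), (.pol), .pol⟩, .one ⟨4000000, 173,
 224000, 90800, -100160, 0, 250000, 300000, 500000, 700000⟩ ⟨0, .pol, .pol, .pol, .pol, (.aff 1000000 0 0),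
 .pol, (.aff 1000000 0 0), (.pol), .pol⟩, .one ⟨4000000, 173, 224000, 259354, -218149, 0, 250000, 300000,
 700000, 824000⟩ ⟨0, .pol, .pol, .pol, .pol, (.aff 1000000 0 0), .pol, (.aff 1000000 0 0), (.pol), .pol⟩]⟩,
 ⟨[.one ⟨8000000, 121, 488000, 178285, 0, 0, 0, 215000, 0, 280000⟩ ⟨215000, (.aff 3162278 316228), (.pol),
 (.pol), (.pol), (.pol), (.aff 1000000 0 0), (.pol), (.pol), (.pol)⟩, .one ⟨8000000, 121, 488000, 73739,
 29273, 0, 0, 215000, 280000, 740000⟩ ⟨0, .pol, .pol, .pol, .pol, (.aff 2500000 5643468 398692), .pol, (.pol),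
 (.pol), .pol⟩], [.one ⟨8000000, 121, 320000, 56000, -15600, 0, 250000, 300000, 0, 300000⟩ ⟨0, .pol, .pol,
 .pol, .pol, (.aff 1000000 0 0), .pol, (.pol), (.pol), .pol⟩, .one ⟨8000000, 121, 320000, 121600, -35280, 0,
 250000, 300000, 300000, 500000⟩ ⟨0, .pol, .pol, .pol, .pol, (.aff 1000000 0 0), .pol, (.pol), (.pol), .pol⟩,
 .one ⟨8000000, 121, 320000, 158000, -53480, 0, 250000, 300000, 500000, 700000⟩ ⟨0, .pol, .pol, .pol, .pol,
 (.aff 1000000 0 0), .pol, (.pol), (.pol), .pol⟩, .one ⟨8000000, 121, 320000, 181935, -70235, 0, 250000,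
 300000, 700000, 824000⟩ ⟨0, .pol, .pol, .pol, .pol, (.aff 1000000 0 0), .pol, (.pol), (.pol), .pol⟩]⟩, ⟨[.one
 ⟨8000000, 277, 1104000, 436285, 0, 0, 0, 215000, 0, 280000⟩ ⟨215000, (.aff 2000000 500000), (.pol), (.pol),
 (.pol), (.pol), (.aff 0 2145846 466017), (.pol), (.pol), (.pol)⟩, .one ⟨8000000, 277, 1104000, 41565, 110521,
 0, 0, 215000, 280000, 740000⟩ ⟨0, .pol, .pol, .pol, .pol, (.sy 510000 (.sx 107500 (.aff 2900000 7284134
 495598) (.aff 1000000 0 0)) (.aff 4900000 9403736 1617443)), .pol, (.pol), (.pol), .pol⟩], [.one ⟨8000000,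
 277, 312000, 119200, 76880, 0, 250000, 300000, 0, 300000⟩ ⟨0, .pol, .pol, .pol, .pol, (.aff 1000000 0 0),
 .pol, (.pol), (.sy 150000 (.pol) (.pol)), .pol⟩, .one ⟨8000000, 277, 312000, 263200, 33680, 0, 250000,
 300000, 300000, 500000⟩ ⟨0, .pol, .pol, .pol, .pol, (.aff 1000000 0 0), .pol, (.pol), (.pol), .pol⟩, .one
 ⟨8000000, 277, 312000, 348400, -8920, 0, 250000, 300000, 500000, 700000⟩ ⟨0, .pol, .pol, .pol, .pol, (.aff
 1000000 0 0), .pol, (.pol), (.pol), .pol⟩, .one ⟨8000000, 277, 312000, 415483, -55879, 0, 250000, 300000,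
 700000, 824000⟩ ⟨0, .pol, .pol, .pol, .pol, (.aff 1000000 0 0), .pol, (.pol), (.pol), .pol⟩]⟩] = true := by
 decide +kernel

theorem II_xQ38 : PropII xQ38 := propII_of cQ38

theorem cQ39 : chkII xQ39 ⟨735000, 740000, 858777, 857323, 860234, 512342, 514788, 509908, 514781, 509901⟩
 [⟨[.one ⟨8000000, 413, 1480000, 311142, 0, 0, 0, 225000, 0, 280000⟩ ⟨112500, (.sp 250000 (.aff 2828428
 353554) (.aff 1511858 661438)), (.pol), (.pol), (.pol), (.aff 1000000 0 0), (.sx 56250 (.sy 196250 (.sy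
 154375 (.sx 28125 (.aff 25000 2577991 368747) (.aff 250000 1333855 421711)) (.sy 175312 (.aff 194000 2759560
 235413) (.aff 250000 2726031 206344))) (.aff 500000 2057507 121507)) (.aff 1000000 0 0)), (.pol), (.pol),
 (.pol)⟩, .one ⟨8000000, 413, 1480000, -553740, 242166, 0, 0, 225000, 280000, 740000⟩ ⟨0, .pol, .pol, .pol,
 .pol, (.aff 2100000 4045530 299096), .pol, (.aff 3000000 6504700 614940), (.pol), .pol⟩], [.one ⟨8000000,
 413, 408000, 0, 72320, 0, 250000, 300000, 0, 300000⟩ ⟨0, .pol, .pol, .pol, .pol, (.aff 1000000 0 0), .pol,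
 (.pol), (.sy 150000 (.pol) (.pol)), .pol⟩, .two ⟨8000000, 413, 408000, -856800, 329360, 0, 250000, 300000,
 300000, 450000⟩ ⟨0, .pol, .pol, .pol, .pol, (.aff 1000000 0 0), .pol, (.pol), (.pol), .pol⟩ ⟨8000000, 413,
 408000, -856800, 329360, 0, 250000, 300000, 450000, 500000⟩ ⟨0, .pol, .pol, .pol, .pol, (.aff 1000000 0 0),
 .pol, (.pol), (.pol), .pol⟩, .one ⟨8000000, 413, 408000, 234800, -216440, 0, 250000, 300000, 500000, 700000⟩
 ⟨0, .pol, .pol, .pol, .pol, (.aff 1000000 0 0), .pol, (.aff 1000000 0 0), (.pol), .pol⟩, .one ⟨8000000, 413,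
 408000, 617419, -484274, 0, 250000, 300000, 700000, 824000⟩ ⟨0, .pol, .pol, .pol, .pol, (.aff 1000000 0 0),
 .pol, (.aff 1000000 0 0), (.pol), .pol⟩]⟩, ⟨[.one ⟨4000000, 0, 740000, 2000, 0, 0, 0, 225000, 0, 280000⟩
 ⟨225000, (.pol), (.pol), (.pol), (.pol), (.pol), (.pol), (.pol), (.pol), (.pol)⟩, .one ⟨4000000, 0, 740000,
 -69131, 19916, 0, 0, 225000, 280000, 740000⟩ ⟨0, .pol, .pol, .pol, .pol, (.sx 112500 (.sx 56250 (.sx 28125
 (.sy 510000 (.sx 14062 (.sy 395000 (.sx 7031 (.sy 337500 (.sx 3515 (.sy 308750 (.sx 1757 (.sy 294375 (.sx 878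
 (.sy 287187 (.pol) (.sx 439 (.inf 36397014 27475) (.sy 290781 (.pol) (.sx 658 (.inf 23095774 43298)
 (.pol))))) (.pol)) (.sx 878 (.inf 26209360 38155) (.sy 301562 (.sx 1317 (.sy 297968 (.sx 1097 (.sy 296171
 (.pol) (.inf 17344448 57656)) (.pol)) (.inf 16526779 60508)) (.pol)) (.sx 1317 (.inf 16674726 59972) (.sy
 305156 (.sx 1537 (.inf 14580300 68586) (.sy 303359 (.pol) (.inf 13591703 73575))) (.inf 14131850 70763))))))
 (.sy 294375 (.pol) (.sx 2636 (.sy 301562 (.pol) (.sx 2196 (.sy 305156 (.pol) (.sx 1976 (.inf 12823954 77980)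
 (.pol))) (.pol))) (.pol)))) (.sx 1757 (.inf 19178490 52142) (.sy 323125 (.sx 2636 (.sy 315937 (.sx 2196 (.inf
 12570943 79549) (.sy 312343 (.sx 2416 (.sy 310546 (.pol) (.inf 11621460 86048)) (.pol)) (.inf 11402844
 87698))) (.inf 12061211 82911)) (.sy 315937 (.pol) (.sx 3075 (.inf 10578289 94534) (.sy 319531 (.pol) (.inf
 9875216 101264))))) (.inf 11194116 89333)))) (.sy 308750 (.pol) (.sx 5273 (.sy 323125 (.pol) (.sx 4394 (.sy
 330312 (.sx 3954 (.inf 9353425 106913) (.pol)) (.inf 9188960 108827)) (.sy 330312 (.pol) (.sx 4833 (.inf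
 8507400 117545) (.pol))))) (.pol)))) (.sx 3515 (.inf 14435810 69273) (.sy 366250 (.sx 5273 (.inf 8948788
 111747) (.sy 351875 (.sx 6152 (.inf 7767830 128737) (.pol)) (.inf 7639710 130896))) (.inf 8496104 117702))))
 (.sy 337500 (.pol) (.sx 10546 (.sy 366250 (.sx 8788 (.sy 351875 (.pol) (.inf 6737683 148419)) (.pol)) (.inf
 6580991 151953)) (.pol)))) (.inf 8022335 124652)) (.sy 395000 (.pol) (.sx 21093 (.sy 452500 (.sx 17577 (.inf
 5175574 193216) (.pol)) (.inf 5232471 191115)) (.pol)))) (.inf 6666667 150000)) (.sy 510000 (.pol) (.inf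
 3849002 259808))) (.pol)) (.pol)), .pol, (.pol), (.sx 112500 (.sx 56250 (.sx 28125 (.sy 510000 (.sx 14062
 (.sy 395000 (.sx 7031 (.sy 337500 (.sx 3515 (.sy 308750 (.sx 1757 (.sy 294375 (.sx 878 (.sy 287187 (.pol)
 (.sx 439 (.inf 36397014 27475) (.sy 290781 (.pol) (.sx 658 (.inf 23095774 43298) (.pol))))) (.pol)) (.sx 878
 (.inf 26209360 38155) (.sy 301562 (.sx 1317 (.sy 297968 (.sx 1097 (.sy 296171 (.pol) (.inf 17344448 57656))
 (.pol)) (.inf 16526779 60508)) (.pol)) (.sx 1317 (.inf 16674726 59972) (.sy 305156 (.sx 1537 (.inf 14580300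
 68586) (.sy 303359 (.pol) (.inf 13591703 73575))) (.inf 14131850 70763)))))) (.sy 294375 (.pol) (.sx 2636
 (.sy 301562 (.pol) (.sx 2196 (.sy 305156 (.pol) (.sx 1976 (.inf 12823954 77980) (.pol))) (.pol))) (.pol))))
 (.sx 1757 (.inf 19178490 52142) (.sy 323125 (.sx 2636 (.sy 315937 (.sx 2196 (.inf 12570943 79549) (.sy 312343
 (.sx 2416 (.sy 310546 (.pol) (.inf 11621460 86048)) (.pol)) (.inf 11402844 87698))) (.inf 12061211 82911))
 (.sy 315937 (.pol) (.sx 3075 (.inf 10578289 94534) (.sy 319531 (.pol) (.inf 9875216 101264))))) (.inf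
 11194116 89333)))) (.sy 308750 (.pol) (.sx 5273 (.sy 323125 (.pol) (.sx 4394 (.sy 330312 (.sx 3954 (.inf
 9353425 106913) (.pol)) (.inf 9188960 108827)) (.sy 330312 (.pol) (.sx 4833 (.inf 8507400 117545) (.pol)))))
 (.pol)))) (.sx 3515 (.inf 14435810 69273) (.sy 366250 (.sx 5273 (.inf 8948788 111747) (.sy 351875 (.sx 6152
 (.inf 7767830 128737) (.pol)) (.inf 7639710 130896))) (.inf 8496104 117702)))) (.sy 337500 (.pol) (.sx 10546
 (.sy 366250 (.sx 8788 (.sy 351875 (.pol) (.inf 6737683 148419)) (.pol)) (.inf 6580991 151953)) (.pol))))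
 (.inf 8022335 124652)) (.sy 395000 (.pol) (.sx 21093 (.sy 452500 (.sx 17577 (.inf 5175574 193216) (.pol))
 (.inf 5232471 191115)) (.pol)))) (.inf 6666667 150000)) (.sy 510000 (.pol) (.inf 3849002 259808))) (.pol))
 (.pol)), .pol⟩], [.one ⟨4000000, 0, 36000, 266, -8840, 0, 250000, 300000, 0, 300000⟩ ⟨0, .pol, .pol, .pol,
 .pol, (.pol), .pol, (.pol), (.pol), .pol⟩, .one ⟨4000000, 0, 36000, 400, -8880, 0, 250000, 300000, 300000,
 500000⟩ ⟨0, .pol, .pol, .pol, .pol, (.pol), .pol, (.pol), (.pol), .pol⟩, .one ⟨4000000, 0, 36000, 400, -8880,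
 0, 250000, 300000, 500000, 700000⟩ ⟨0, .pol, .pol, .pol, .pol, (.pol), .pol, (.pol), (.pol), .pol⟩, .one
 ⟨4000000, 0, 36000, 322, -8826, 0, 250000, 300000, 700000, 824000⟩ ⟨0, .pol, .pol, .pol, .pol, (.pol), .pol,
 (.pol), (.pol), .pol⟩]⟩, ⟨[.one ⟨4000000, 126, 824000, 78142, 0, 0, 0, 225000, 0, 280000⟩ ⟨112500, (.sp
 250000 (.aff 4000000 250000) (.aff 1264912 790569)), (.pol), (.pol), (.pol), (.pol), (.sy 196250 (.aff 0
 5214082 191789) (.aff 225000 5546551 108289)), (.pol), (.pol), (.pol)⟩, .one ⟨4000000, 126, 824000, -227044,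
 85452, 0, 0, 225000, 280000, 740000⟩ ⟨0, .pol, .pol, .pol, .pol, (.sy 510000 (.sx 112500 (.sx 56250 (.sy
 395000 (.aff 2200000 7180353 200548) (.aff 3000000 8022192 498617)) (.aff 1000000 0 0)) (.aff 1000000 0 0))
 (.aff 3000000 6666667 600000)), .pol, (.aff 5000000 9199034 1739314), (.pol), .pol⟩], [.one ⟨4000000, 126,
 224000, 0, -2800, 0, 250000, 300000, 0, 300000⟩ ⟨0, .pol, .pol, .pol, .pol, (.aff 1000000 0 0), .pol, (.pol),
 (.sy 150000 (.pol) (.pol)), .pol⟩, .two ⟨4000000, 126, 224000, -260800, 75440, 0, 250000, 300000, 300000,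
 450000⟩ ⟨0, .pol, .pol, .pol, .pol, (.aff 1000000 0 0), .pol, (.pol), (.pol), .pol⟩ ⟨4000000, 126, 224000,
 -260800, 75440, 0, 250000, 300000, 450000, 500000⟩ ⟨0, .pol, .pol, .pol, .pol, (.aff 1000000 0 0), .pol,
 (.pol), (.pol), .pol⟩, .one ⟨4000000, 126, 224000, 67600, -88760, 0, 250000, 300000, 500000, 700000⟩ ⟨0,
 .pol, .pol, .pol, .pol, (.aff 1000000 0 0), .pol, (.aff 1000000 0 0), (.pol), .pol⟩, .one ⟨4000000, 126,
 224000, 190322, -174666, 0, 250000, 300000, 700000, 824000⟩ ⟨0, .pol, .pol, .pol, .pol, (.aff 1000000 0 0),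
 .pol, (.aff 1000000 0 0), (.pol), .pol⟩]⟩, ⟨[.one ⟨3200000, 134, 614400, 91314, 0, 0, 0, 225000, 0, 280000⟩
 ⟨56250, (.aff 3162278 316228), (.pol), (.pol), (.pol), (.aff 500000 498888 501115), (.sy 168125 (.aff 0
 3449848 289868) (.sy 224062 (.aff 150000 3687767 195919) (.aff 1000000 0 0))), (.pol), (.sy 140000 (.pol)
 (.sx 140625 (.sy 210000 (.pol) (.pol)) (.pol))), (.pol)⟩, .one ⟨3200000, 134, 614400, -230540, 90118, 0, 0,
 225000, 280000, 740000⟩ ⟨0, .pol, .pol, .pol, .pol, (.sy 510000 (.sx 112500 (.sy 395000 (.sx 56250 (.aff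
 2100000 5388878 224537) (.aff 1000000 0 0)) (.sy 452500 (.aff 2113000 5276704 234762) (.aff 3200000 6434974
 752140))) (.aff 1000000 0 0)) (.aff 3000000 5458206 732842)), .pol, (.aff 5000000 9199034 1739314), (.pol),
 .pol⟩], [.one ⟨3200000, 134, 131200, 0, 23840, 0, 250000, 300000, 0, 300000⟩ ⟨0, .pol, .pol, .pol, .pol,
 (.aff 1000000 0 0), .pol, (.pol), (.sy 150000 (.pol) (.pol)), .pol⟩, .two ⟨3200000, 134, 131200, -278240,
 107312, 0, 250000, 300000, 300000, 450000⟩ ⟨0, .pol, .pol, .pol, .pol, (.aff 1000000 0 0), .pol, (.pol),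
 (.pol), .pol⟩ ⟨3200000, 134, 131200, -278240, 107312, 0, 250000, 300000, 450000, 500000⟩ ⟨0, .pol, .pol,
 .pol, .pol, (.aff 1000000 0 0), .pol, (.pol), (.pol), .pol⟩, .one ⟨3200000, 134, 131200, 76640, -70128, 0,
 250000, 300000, 500000, 700000⟩ ⟨0, .pol, .pol, .pol, .pol, (.aff 1000000 0 0), .pol, (.aff 1000000 0 0),
 (.pol), .pol⟩, .one ⟨3200000, 134, 131200, 200516, -156842, 0, 250000, 300000, 700000, 824000⟩ ⟨0, .pol,
 .pol, .pol, .pol, (.aff 1000000 0 0), .pol, (.aff 1000000 0 0), (.pol), .pol⟩]⟩, ⟨[.one ⟨8000000, 121,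
 488000, 178000, 0, 0, 0, 225000, 0, 280000⟩ ⟨225000, (.aff 3162278 316228), (.pol), (.pol), (.pol), (.pol),
 (.aff 1000000 0 0), (.pol), (.pol), (.pol)⟩, .one ⟨8000000, 121, 488000, 68347, 30702, 0, 0, 225000, 280000,
 740000⟩ ⟨0, .pol, .pol, .pol, .pol, (.aff 2600000 5884408 435049), .pol, (.pol), (.pol), .pol⟩], [.one
 ⟨8000000, 121, 320000, 56533, -15920, 0, 250000, 300000, 0, 300000⟩ ⟨0, .pol, .pol, .pol, .pol, (.aff 1000000
 0 0), .pol, (.pol), (.pol), .pol⟩, .one ⟨8000000, 121, 320000, 122400, -35680, 0, 250000, 300000, 300000,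
 500000⟩ ⟨0, .pol, .pol, .pol, .pol, (.aff 1000000 0 0), .pol, (.pol), (.pol), .pol⟩, .one ⟨8000000, 121,
 320000, 159600, -54280, 0, 250000, 300000, 500000, 700000⟩ ⟨0, .pol, .pol, .pol, .pol, (.aff 1000000 0 0),
 .pol, (.pol), (.pol), .pol⟩, .one ⟨8000000, 121, 320000, 183225, -70819, 0, 250000, 300000, 700000, 824000⟩
 ⟨0, .pol, .pol, .pol, .pol, (.aff 1000000 0 0), .pol, (.pol), (.pol), .pol⟩]⟩, ⟨[.one ⟨8000000, 277, 1104000,
 436000, 0, 0, 0, 225000, 0, 280000⟩ ⟨225000, (.aff 2000000 500000), (.pol), (.pol), (.pol), (.pol), (.aff 0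
 2118700 471988), (.pol), (.pol), (.pol)⟩, .one ⟨8000000, 277, 1104000, 30434, 113558, 0, 0, 225000, 280000,
 740000⟩ ⟨0, .pol, .pol, .pol, .pol, (.sy 510000 (.sx 112500 (.aff 3000000 7495184 533677) (.aff 1000000 0 0))
 (.aff 5000000 9428091 1697057)), .pol, (.pol), (.pol), .pol⟩], [.one ⟨8000000, 277, 312000, 120266, 76080, 0,
 250000, 300000, 0, 300000⟩ ⟨0, .pol, .pol, .pol, .pol, (.aff 1000000 0 0), .pol, (.pol), (.sy 150000 (.pol)
 (.pol)), .pol⟩, .one ⟨8000000, 277, 312000, 265600, 32480, 0, 250000, 300000, 300000, 500000⟩ ⟨0, .pol, .pol,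
 .pol, .pol, (.aff 1000000 0 0), .pol, (.pol), (.pol), .pol⟩, .one ⟨8000000, 277, 312000, 351600, -10520, 0,
 250000, 300000, 500000, 700000⟩ ⟨0, .pol, .pol, .pol, .pol, (.aff 1000000 0 0), .pol, (.pol), (.pol), .pol⟩,
 .one ⟨8000000, 277, 312000, 418709, -57497, 0, 250000, 300000, 700000, 824000⟩ ⟨0, .pol, .pol, .pol, .pol,
 (.aff 1000000 0 0), .pol, (.pol), (.pol), .pol⟩]⟩] = true := by decide +kernel

theorem II_xQ39 : PropII xQ39 := propII_of cQ39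

theorem cQ40 : chkII xQ40 ⟨740000, 745000, 861683, 860234, 863136, 507439, 509908, 504982, 509901, 504975⟩
 [⟨[.one ⟨8000000, 397, 1400000, 303384, 0, 0, 0, 240000, 0, 260000⟩ ⟨120000, (.sp 250000 (.aff 2828428
 353554) (.aff 1511858 661438)), (.pol), (.pol), (.pol), (.aff 1000000 0 0), (.sx 60000 (.sy 190000 (.sy
 155000 (.sx 30000 (.aff 75000 2663991 321182) (.aff 1000000 0 0)) (.aff 200000 2712932 235908)) (.aff 500000
 1936492 129100)) (.aff 1000000 0 0)), (.pol), (.pol), (.pol)⟩, .one ⟨8000000, 397, 1400000, -494560, 207465,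
 0, 0, 240000, 260000, 760000⟩ ⟨0, .pol, .pol, .pol, .pol, (.aff 2037000 4081094 263501), .pol, (.aff 5000000
 8981463 1781447), (.pol), .pol⟩], [.one ⟨8000000, 397, 392000, 0, 67120, 0, 250000, 300000, 0, 300000⟩ ⟨0,
 .pol, .pol, .pol, .pol, (.aff 1000000 0 0), .pol, (.pol), (.sy 150000 (.pol) (.pol)), .pol⟩, .two ⟨8000000,
 397, 392000, -810800, 310360, 0, 250000, 300000, 300000, 450000⟩ ⟨0, .pol, .pol, .pol, .pol, (.aff 1000000 0
 0), .pol, (.pol), (.pol), .pol⟩ ⟨8000000, 397, 392000, -810800, 310360, 0, 250000, 300000, 450000, 500000⟩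
 ⟨0, .pol, .pol, .pol, .pol, (.aff 1000000 0 0), .pol, (.pol), (.pol), .pol⟩, .one ⟨8000000, 397, 392000,
 230400, -210240, 0, 250000, 300000, 500000, 700000⟩ ⟨0, .pol, .pol, .pol, .pol, (.aff 1000000 0 0), .pol,
 (.aff 1000000 0 0), (.pol), .pol⟩, .one ⟨8000000, 397, 392000, 598130, -467652, 0, 250000, 300000, 700000,
 807000⟩ ⟨0, .pol, .pol, .pol, .pol, (.aff 1000000 0 0), .pol, (.aff 1000000 0 0), (.pol), .pol⟩]⟩, ⟨[.one
 ⟨4000000, 0, 480000, 1692, 0, 0, 0, 240000, 0, 260000⟩ ⟨240000, (.pol), (.pol), (.pol), (.pol), (.pol),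
 (.pol), (.pol), (.pol), (.pol)⟩, .one ⟨4000000, 0, 480000, -14560, 4225, 0, 0, 240000, 260000, 760000⟩ ⟨0,
 .pol, .pol, .pol, .pol, (.sx 120000 (.sx 60000 (.sx 30000 (.sx 15000 (.sy 510000 (.sx 7500 (.sy 385000 (.sx
 3750 (.sy 322500 (.sx 1875 (.sy 291250 (.sx 937 (.sy 275625 (.pol) (.sx 468 (.sy 283437 (.pol) (.inf 35042313
 28537)) (.pol))) (.pol)) (.sx 937 (.inf 25593281 39073) (.sy 306875 (.pol) (.inf 14960534 66843)))) (.pol))
 (.inf 13735599 72804)) (.pol)) (.inf 10923980 91542)) (.pol)) (.inf 9201450 108679)) (.pol)) (.pol)) (.pol))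
 (.pol)), .pol, (.pol), (.sx 120000 (.sx 60000 (.sx 30000 (.sx 15000 (.sy 510000 (.sx 7500 (.sy 385000 (.sx
 3750 (.sy 322500 (.sx 1875 (.sy 291250 (.sx 937 (.sy 275625 (.pol) (.sx 468 (.sy 283437 (.pol) (.inf 35042313
 28537)) (.pol))) (.pol)) (.sx 937 (.inf 25593281 39073) (.sy 306875 (.pol) (.inf 14960534 66843)))) (.pol))
 (.inf 13735599 72804)) (.pol)) (.inf 10923980 91542)) (.pol)) (.inf 9201450 108679)) (.pol)) (.pol)) (.pol))
 (.pol)), .pol⟩], [.one ⟨4000000, 0, 0, 133, 200, 0, 250000, 300000, 0, 300000⟩ ⟨0, .pol, .pol, .pol, .pol,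
 (.pol), .pol, (.pol), (.pol), .pol⟩, .one ⟨4000000, 0, 0, 400, 120, 0, 250000, 300000, 300000, 500000⟩ ⟨0,
 .pol, .pol, .pol, .pol, (.pol), .pol, (.pol), (.pol), .pol⟩, .one ⟨4000000, 0, 0, 400, 120, 0, 250000,
 300000, 500000, 700000⟩ ⟨0, .pol, .pol, .pol, .pol, (.pol), .pol, (.pol), (.pol), .pol⟩, .one ⟨4000000, 0, 0,
 747, -124, 0, 250000, 300000, 700000, 807000⟩ ⟨0, .pol, .pol, .pol, .pol, (.pol), .pol, (.pol), (.pol),
 .pol⟩]⟩, ⟨[.one ⟨8000000, 323, 1472000, 273230, 0, 0, 0, 240000, 0, 260000⟩ ⟨240000, (.aff 3162278 316228),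
 (.pol), (.pol), (.pol), (.pol), (.aff 1000000 0 0), (.pol), (.pol), (.pol)⟩, .one ⟨8000000, 323, 1472000,
 -566400, 218304, 0, 0, 240000, 260000, 760000⟩ ⟨0, .pol, .pol, .pol, .pol, (.sy 510000 (.sy 385000 (.sx
 120000 (.aff 2250000 5532261 282435) (.aff 1000000 0 0)) (.sy 447500 (.sx 120000 (.sy 416250 (.aff 2225000
 5467684 274454) (.sy 431875 (.aff 2163000 5340636 253260) (.sx 60000 (.aff 3000000 6251667 639830) (.aff
 1000000 0 0)))) (.aff 1000000 0 0)) (.aff 3331000 6584474 825209))) (.aff 2800000 5855767 553301)), .pol,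
 (.aff 5000000 8981463 1781447), (.pol), .pol⟩], [.one ⟨8000000, 323, 352000, 0, 46400, 0, 250000, 300000, 0,
 300000⟩ ⟨0, .pol, .pol, .pol, .pol, (.aff 1000000 0 0), .pol, (.pol), (.sy 150000 (.pol) (.pol)), .pol⟩, .two
 ⟨8000000, 323, 352000, -659200, 244160, 0, 250000, 300000, 300000, 450000⟩ ⟨0, .pol, .pol, .pol, .pol, (.aff
 1000000 0 0), .pol, (.pol), (.pol), .pol⟩ ⟨8000000, 323, 352000, -659200, 244160, 0, 250000, 300000, 450000,
 500000⟩ ⟨0, .pol, .pol, .pol, .pol, (.aff 1000000 0 0), .pol, (.pol), (.pol), .pol⟩, .one ⟨8000000, 323,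
 352000, 179200, -175040, 0, 250000, 300000, 500000, 700000⟩ ⟨0, .pol, .pol, .pol, .pol, (.aff 1000000 0 0),
 .pol, (.aff 1000000 0 0), (.pol), .pol⟩, .one ⟨8000000, 323, 352000, 486728, -390311, 0, 250000, 300000,
 700000, 807000⟩ ⟨0, .pol, .pol, .pol, .pol, (.aff 1000000 0 0), .pol, (.aff 1000000 0 0), (.pol), .pol⟩]⟩,
 ⟨[.one ⟨8000000, 247, 1472000, 176307, 0, 0, 0, 240000, 0, 260000⟩ ⟨120000, (.aff 3162278 316228), (.pol),
 (.pol), (.pol), (.pol), (.aff 150000 3897731 185365), (.pol), (.pol), (.pol)⟩, .one ⟨8000000, 247, 1472000,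
 -389440, 147094, 0, 0, 240000, 260000, 760000⟩ ⟨0, .pol, .pol, .pol, .pol, (.sy 510000 (.sy 385000 (.sx
 120000 (.sy 322500 (.sx 60000 (.sx 30000 (.aff 2000000 6231640 160472) (.aff 1000000 0 0)) (.aff 1000000 0
 0)) (.sx 60000 (.aff 2100000 6524605 185452) (.aff 1000000 0 0))) (.aff 1000000 0 0)) (.sy 447500 (.aff
 2900000 7465741 483543) (.aff 3100000 7245310 608670))) (.aff 3000000 6506408 614779)), .pol, (.aff 5000000
 8981463 1781447), (.pol), .pol⟩], [.one ⟨8000000, 247, 64000, 0, 95680, 0, 250000, 300000, 0, 300000⟩ ⟨0,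
 .pol, .pol, .pol, .pol, (.aff 1000000 0 0), .pol, (.pol), (.sy 150000 (.pol) (.pol)), .pol⟩, .two ⟨8000000,
 247, 64000, -548000, 260080, 0, 250000, 300000, 300000, 450000⟩ ⟨0, .pol, .pol, .pol, .pol, (.aff 1000000 0
 0), .pol, (.pol), (.pol), .pol⟩ ⟨8000000, 247, 64000, -548000, 260080, 0, 250000, 300000, 450000, 500000⟩ ⟨0,
 .pol, .pol, .pol, .pol, (.aff 1000000 0 0), .pol, (.pol), (.pol), .pol⟩, .one ⟨8000000, 247, 64000, 188800,
 -108320, 0, 250000, 300000, 500000, 700000⟩ ⟨0, .pol, .pol, .pol, .pol, (.aff 1000000 0 0), .pol, (.aff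
 1000000 0 0), (.pol), .pol⟩, .one ⟨8000000, 247, 64000, 372336, -236796, 0, 250000, 300000, 700000, 807000⟩
 ⟨0, .pol, .pol, .pol, .pol, (.aff 1000000 0 0), .pol, (.aff 1000000 0 0), (.pol), .pol⟩]⟩, ⟨[.one ⟨8000000,
 119, 480000, 208000, 0, 0, 0, 240000, 0, 260000⟩ ⟨240000, (.aff 1414214 707107), (.pol), (.pol), (.pol),
 (.pol), (.aff 0 1443376 692821), (.pol), (.pol), (.pol)⟩, .one ⟨8000000, 119, 480000, 20160, 48838, 0, 0,
 240000, 260000, 760000⟩ ⟨0, .pol, .pol, .pol, .pol, (.aff 3600000 7580238 891793), .pol, (.pol), (.pol),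
 .pol⟩], [.one ⟨8000000, 119, 136000, 52533, 31920, 0, 250000, 300000, 0, 300000⟩ ⟨0, .pol, .pol, .pol, .pol,
 (.aff 1000000 0 0), .pol, (.pol), (.sy 150000 (.pol) (.pol)), .pol⟩, .one ⟨8000000, 119, 136000, 115600,
 13000, 0, 250000, 300000, 300000, 500000⟩ ⟨0, .pol, .pol, .pol, .pol, (.aff 1000000 0 0), .pol, (.pol),
 (.pol), .pol⟩, .one ⟨8000000, 119, 136000, 153600, -6000, 0, 250000, 300000, 500000, 700000⟩ ⟨0, .pol, .pol,
 .pol, .pol, (.aff 1000000 0 0), .pol, (.pol), (.pol), .pol⟩, .one ⟨8000000, 119, 136000, 180934, -25135, 0,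
 250000, 300000, 700000, 807000⟩ ⟨0, .pol, .pol, .pol, .pol, (.aff 1000000 0 0), .pol, (.pol), (.pol),
 .pol⟩]⟩, ⟨[.one ⟨3000000, 72, 288000, 97961, 0, 0, 0, 240000, 0, 260000⟩ ⟨120000, (.aff 2000000 500000),
 (.pol), (.pol), (.pol), (.pol), (.aff 275000 4959623 105981), (.pol), (.pol), (.pol)⟩, .one ⟨3000000, 72,
 288000, 51840, 11991, 0, 0, 240000, 260000, 760000⟩ ⟨0, .pol, .pol, .pol, .pol, (.sy 510000 (.aff 1775000
 5336432 112552) (.aff 3000000 6506408 614779)), .pol, (.pol), (.pol), .pol⟩], [.one ⟨3000000, 72, 39000,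
 31700, 32220, 0, 250000, 300000, 0, 300000⟩ ⟨0, .pol, .pol, .pol, .pol, (.aff 1000000 0 0), .pol, (.pol),
 (.sy 150000 (.pol) (.pol)), .pol⟩, .one ⟨3000000, 72, 39000, 69750, 20805, 0, 250000, 300000, 300000, 500000⟩
 ⟨0, .pol, .pol, .pol, .pol, (.aff 1000000 0 0), .pol, (.pol), (.pol), .pol⟩, .one ⟨3000000, 72, 39000, 92250,
 9555, 0, 250000, 300000, 500000, 700000⟩ ⟨0, .pol, .pol, .pol, .pol, (.aff 1000000 0 0), .pol, (.pol),
 (.pol), .pol⟩, .one ⟨3000000, 72, 39000, 108785, -2020, 0, 250000, 300000, 700000, 807000⟩ ⟨0, .pol, .pol,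
 .pol, .pol, (.aff 1000000 0 0), .pol, (.pol), (.pol), .pol⟩]⟩] = true := by decide +kernel

theorem II_xQ40 : PropII xQ40 := propII_of cQ40

theorem cQ41 : chkII xQ41 ⟨745000, 750000, 864580, 863136, 866027, 502488, 504982, 500007, 504975, 500000⟩
 [⟨[.one ⟨8000000, 387, 1328000, 301846, 0, 0, 0, 255000, 0, 260000⟩ ⟨127500, (.sp 250000 (.aff 2309402
 433013) (.aff 1511858 661438)), (.pol), (.pol), (.pol), (.aff 1000000 0 0), (.sy 193750 (.sx 63750 (.sy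
 160625 (.sy 144062 (.sx 31875 (.aff 113000 2589006 303889) (.aff 1000000 0 0)) (.aff 169000 2569230 268782))
 (.aff 250000 2500736 224934)) (.aff 1000000 0 0)) (.sx 63750 (.aff 500000 1886485 132522) (.aff 1000000 0
 0))), (.pol), (.pol), (.pol)⟩, .one ⟨8000000, 387, 1328000, -473600, 201616, 0, 0, 255000, 260000, 760000⟩
 ⟨0, .pol, .pol, .pol, .pol, (.aff 2100000 3800114 318412), .pol, (.aff 3000000 6161233 649221), (.pol),
 .pol⟩], [.one ⟨8000000, 387, 376000, 0, 64640, 0, 250000, 300000, 0, 300000⟩ ⟨0, .pol, .pol, .pol, .pol,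
 (.aff 1000000 0 0), .pol, (.pol), (.sy 150000 (.pol) (.pol)), .pol⟩, .two ⟨8000000, 387, 376000, -778000,
 298040, 0, 250000, 300000, 300000, 450000⟩ ⟨0, .pol, .pol, .pol, .pol, (.aff 1000000 0 0), .pol, (.pol),
 (.pol), .pol⟩ ⟨8000000, 387, 376000, -778000, 298040, 0, 250000, 300000, 450000, 500000⟩ ⟨0, .pol, .pol,
 .pol, .pol, (.aff 1000000 0 0), .pol, (.pol), (.pol), .pol⟩, .one ⟨8000000, 387, 376000, 230400, -206160, 0,
 250000, 300000, 500000, 700000⟩ ⟨0, .pol, .pol, .pol, .pol, (.aff 1000000 0 0), .pol, (.aff 1000000 0 0),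
 (.pol), .pol⟩, .one ⟨8000000, 387, 376000, 586915, -455722, 0, 250000, 300000, 700000, 807000⟩ ⟨0, .pol,
 .pol, .pol, .pol, (.aff 1000000 0 0), .pol, (.aff 1000000 0 0), (.pol), .pol⟩]⟩, ⟨[.one ⟨4000000, 0, 696000,
 31692, 0, 0, 0, 255000, 0, 260000⟩ ⟨255000, (.pol), (.pol), (.pol), (.pol), (.pol), (.pol), (.pol), (.pol),
 (.pol)⟩, .one ⟨4000000, 0, 696000, -166080, 51420, 0, 0, 255000, 260000, 760000⟩ ⟨0, .pol, .pol, .pol, .pol,
 (.sx 127500 (.sx 63750 (.sy 510000 (.sx 31875 (.sy 385000 (.sx 15937 (.sy 322500 (.sx 7968 (.sy 291250 (.pol)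
 (.sx 3984 (.sy 306875 (.pol) (.sx 1992 (.inf 17775020 56259) (.sy 314687 (.pol) (.inf 10325906 96844))))
 (.pol))) (.pol)) (.sx 7968 (.sy 353750 (.sx 3984 (.inf 13028487 76755) (.sy 338125 (.sx 5976 (.sy 330312 (.sx
 4980 (.inf 8533814 117181) (.pol)) (.inf 8192201 122068)) (.sy 330312 (.pol) (.sx 6972 (.sy 334218 (.pol)
 (.inf 7205998 138774)) (.pol)))) (.inf 7608404 131434))) (.inf 9628843 103855)) (.sy 353750 (.sx 11952 (.sy
 338125 (.pol) (.sx 9960 (.sy 345937 (.sx 8964 (.sy 342031 (.pol) (.inf 6374264 156881)) (.pol)) (.sx 8964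
 (.inf 6428325 155562) (.sy 349843 (.sx 9462 (.inf 6144980 162735) (.sy 347890 (.pol) (.inf 5993737 166841)))
 (.inf 6097535 164001)))) (.sy 345937 (.pol) (.sx 10956 (.sy 349843 (.pol) (.sx 10458 (.inf 5870217 170352)
 (.sy 351796 (.pol) (.inf 5740025 174216)))) (.pol))))) (.pol)) (.sx 11952 (.sy 369375 (.sx 9960 (.inf 6350981
 157456) (.sy 361562 (.sx 10956 (.inf 5848015 170999) (.sy 357656 (.sx 11454 (.inf 5634273 177486) (.sy 355703
 (.pol) (.inf 5520654 181138))) (.inf 5603208 178470))) (.inf 5775625 173142))) (.inf 6153880 162500)) (.sy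
 369375 (.sx 13944 (.sy 361562 (.sx 12948 (.sy 357656 (.pol) (.sx 12450 (.sy 359609 (.pol) (.inf 5436338
 183948)) (.pol))) (.pol)) (.sx 12948 (.inf 5418017 184570) (.sy 365468 (.sx 13446 (.sy 363515 (.pol) (.inf
 5255404 190281)) (.pol)) (.inf 5227400 191300)))) (.sy 361562 (.pol) (.sx 14940 (.sy 365468 (.pol) (.sx 14442
 (.sy 367421 (.pol) (.inf 5094735 196282)) (.pol))) (.pol)))) (.sx 13944 (.inf 5397310 185278) (.sy 377187
 (.sx 14940 (.inf 5083986 196697) (.sy 373281 (.sx 15438 (.sy 371328 (.pol) (.inf 4950905 201984)) (.pol))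
 (.inf 4930019 202839))) (.inf 5050487 198001)))))))) (.sy 322500 (.pol) (.sx 23906 (.sy 353750 (.pol) (.sx
 19921 (.sy 369375 (.pol) (.sx 17929 (.sy 377187 (.sx 16933 (.sy 373281 (.pol) (.sx 16435 (.sy 375234 (.pol)
 (.inf 4821095 207422)) (.pol))) (.pol)) (.sx 16933 (.inf 4815384 207668) (.sy 381093 (.sx 17431 (.sy 379140
 (.pol) (.inf 4703504 212608)) (.pol)) (.inf 4687752 213322)))) (.sy 377187 (.pol) (.sx 18925 (.sy 381093
 (.pol) (.sx 18427 (.sy 383046 (.pol) (.inf 4596271 217568)) (.pol))) (.pol))))) (.pol))) (.pol)))) (.sx 15937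
 (.inf 5995125 166803) (.sy 447500 (.sx 23906 (.sy 416250 (.sx 19921 (.sy 400625 (.sx 17929 (.inf 4816435
 207623) (.sy 392812 (.sx 18925 (.inf 4594043 217674) (.sy 388906 (.pol) (.inf 4485924 222920))) (.inf 4578501
 218413))) (.inf 4772927 209516)) (.sy 400625 (.sx 21913 (.sy 392812 (.pol) (.sx 20917 (.inf 4407822 226870)
 (.sy 396718 (.pol) (.inf 4314680 231767)))) (.pol)) (.inf 4317248 231630))) (.inf 4656055 214775)) (.sy
 416250 (.sx 27890 (.sy 400625 (.pol) (.sx 25898 (.sy 408437 (.pol) (.inf 4069233 245747)) (.pol))) (.pol))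
 (.sx 27890 (.inf 4083626 244881) (.sy 431875 (.sy 424062 (.pol) (.inf 3784404 264243)) (.inf 3835868
 260698))))) (.inf 4475082 223460)))) (.sy 385000 (.pol) (.sx 47812 (.sy 447500 (.sx 39843 (.sy 416250 (.pol)
 (.sx 35859 (.sy 431875 (.pol) (.sx 33867 (.inf 3657343 273423) (.pol))) (.pol))) (.pol)) (.sx 39843 (.inf
 3653889 273682) (.sy 478750 (.sx 43827 (.sy 463125 (.pol) (.inf 3355149 298050)) (.pol)) (.inf 3358574
 297746)))) (.sy 447500 (.pol) (.sx 55781 (.sy 478750 (.pol) (.sx 51796 (.inf 3150621 317398) (.pol)))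
 (.pol)))))) (.inf 3000000 333334)) (.sy 510000 (.pol) (.sx 95625 (.sy 635000 (.sy 572500 (.pol) (.inf 2752539
 363301)) (.inf 2958537 338005)) (.sy 635000 (.pol) (.inf 2500421 399933))))) (.pol)), .pol, (.pol), (.sx
 127500 (.sx 63750 (.sy 510000 (.sx 31875 (.sy 385000 (.sx 15937 (.sy 322500 (.sx 7968 (.sy 291250 (.pol) (.sx
 3984 (.sy 306875 (.pol) (.sx 1992 (.inf 17775020 56259) (.sy 314687 (.pol) (.inf 10325906 96844)))) (.pol)))
 (.pol)) (.sx 7968 (.sy 353750 (.sx 3984 (.inf 13028487 76755) (.sy 338125 (.sx 5976 (.sy 330312 (.sx 4980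
 (.inf 8533814 117181) (.pol)) (.inf 8192201 122068)) (.sy 330312 (.pol) (.sx 6972 (.sy 334218 (.pol) (.inf
 7205998 138774)) (.pol)))) (.inf 7608404 131434))) (.inf 9628843 103855)) (.sy 353750 (.sx 11952 (.sy 338125
 (.pol) (.sx 9960 (.sy 345937 (.sx 8964 (.sy 342031 (.pol) (.inf 6374264 156881)) (.pol)) (.sx 8964 (.inf
 6428325 155562) (.sy 349843 (.sx 9462 (.inf 6144980 162735) (.sy 347890 (.pol) (.inf 5993737 166841))) (.inf
 6097535 164001)))) (.sy 345937 (.pol) (.sx 10956 (.sy 349843 (.pol) (.sx 10458 (.inf 5870217 170352) (.sy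
 351796 (.pol) (.inf 5740025 174216)))) (.pol))))) (.pol)) (.sx 11952 (.sy 369375 (.sx 9960 (.inf 6350981
 157456) (.sy 361562 (.sx 10956 (.inf 5848015 170999) (.sy 357656 (.sx 11454 (.inf 5634273 177486) (.sy 355703
 (.pol) (.inf 5520654 181138))) (.inf 5603208 178470))) (.inf 5775625 173142))) (.inf 6153880 162500)) (.sy
 369375 (.sx 13944 (.sy 361562 (.sx 12948 (.sy 357656 (.pol) (.sx 12450 (.sy 359609 (.pol) (.inf 5436338
 183948)) (.pol))) (.pol)) (.sx 12948 (.inf 5418017 184570) (.sy 365468 (.sx 13446 (.sy 363515 (.pol) (.inf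
 5255404 190281)) (.pol)) (.inf 5227400 191300)))) (.sy 361562 (.pol) (.sx 14940 (.sy 365468 (.pol) (.sx 14442
 (.sy 367421 (.pol) (.inf 5094735 196282)) (.pol))) (.pol)))) (.sx 13944 (.inf 5397310 185278) (.sy 377187
 (.sx 14940 (.inf 5083986 196697) (.sy 373281 (.sx 15438 (.sy 371328 (.pol) (.inf 4950905 201984)) (.pol))
 (.inf 4930019 202839))) (.inf 5050487 198001)))))))) (.sy 322500 (.pol) (.sx 23906 (.sy 353750 (.pol) (.sx
 19921 (.sy 369375 (.pol) (.sx 17929 (.sy 377187 (.sx 16933 (.sy 373281 (.pol) (.sx 16435 (.sy 375234 (.pol)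
 (.inf 4821095 207422)) (.pol))) (.pol)) (.sx 16933 (.inf 4815384 207668) (.sy 381093 (.sx 17431 (.sy 379140
 (.pol) (.inf 4703504 212608)) (.pol)) (.inf 4687752 213322)))) (.sy 377187 (.pol) (.sx 18925 (.sy 381093
 (.pol) (.sx 18427 (.sy 383046 (.pol) (.inf 4596271 217568)) (.pol))) (.pol))))) (.pol))) (.pol)))) (.sx 15937
 (.inf 5995125 166803) (.sy 447500 (.sx 23906 (.sy 416250 (.sx 19921 (.sy 400625 (.sx 17929 (.inf 4816435
 207623) (.sy 392812 (.sx 18925 (.inf 4594043 217674) (.sy 388906 (.pol) (.inf 4485924 222920))) (.inf 4578501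
 218413))) (.inf 4772927 209516)) (.sy 400625 (.sx 21913 (.sy 392812 (.pol) (.sx 20917 (.inf 4407822 226870)
 (.sy 396718 (.pol) (.inf 4314680 231767)))) (.pol)) (.inf 4317248 231630))) (.inf 4656055 214775)) (.sy
 416250 (.sx 27890 (.sy 400625 (.pol) (.sx 25898 (.sy 408437 (.pol) (.inf 4069233 245747)) (.pol))) (.pol))
 (.sx 27890 (.inf 4083626 244881) (.sy 431875 (.sy 424062 (.pol) (.inf 3784404 264243)) (.inf 3835868
 260698))))) (.inf 4475082 223460)))) (.sy 385000 (.pol) (.sx 47812 (.sy 447500 (.sx 39843 (.sy 416250 (.pol)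
 (.sx 35859 (.sy 431875 (.pol) (.sx 33867 (.inf 3657343 273423) (.pol))) (.pol))) (.pol)) (.sx 39843 (.inf
 3653889 273682) (.sy 478750 (.sx 43827 (.sy 463125 (.pol) (.inf 3355149 298050)) (.pol)) (.inf 3358574
 297746)))) (.sy 447500 (.pol) (.sx 55781 (.sy 478750 (.pol) (.sx 51796 (.inf 3150621 317398) (.pol)))
 (.pol)))))) (.inf 3000000 333334)) (.sy 510000 (.pol) (.sx 95625 (.sy 635000 (.sy 572500 (.pol) (.inf 2752539
 363301)) (.inf 2958537 338005)) (.sy 635000 (.pol) (.inf 2500421 399933))))) (.pol)), .pol⟩], [.one ⟨4000000,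
 0, 0, 133, 200, 0, 250000, 300000, 0, 300000⟩ ⟨0, .pol, .pol, .pol, .pol, (.pol), .pol, (.pol), (.pol),
 .pol⟩, .one ⟨4000000, 0, 0, 400, 120, 0, 250000, 300000, 300000, 500000⟩ ⟨0, .pol, .pol, .pol, .pol, (.pol),
 .pol, (.pol), (.pol), .pol⟩, .one ⟨4000000, 0, 0, 400, 120, 0, 250000, 300000, 500000, 700000⟩ ⟨0, .pol,
 .pol, .pol, .pol, (.pol), .pol, (.pol), (.pol), .pol⟩, .one ⟨4000000, 0, 0, 747, -124, 0, 250000, 300000,
 700000, 807000⟩ ⟨0, .pol, .pol, .pol, .pol, (.pol), .pol, (.pol), (.pol), .pol⟩]⟩, ⟨[.one ⟨4000000, 111,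
 660000, 81692, 0, 0, 0, 255000, 0, 260000⟩ ⟨127500, (.aff 3162278 316228), (.pol), (.pol), (.pol), (.pol),
 (.aff 150000 3818488 189212), (.pol), (.pol), (.pol)⟩, .one ⟨4000000, 111, 660000, -193040, 71430, 0, 0,
 255000, 260000, 760000⟩ ⟨0, .pol, .pol, .pol, .pol, (.sy 510000 (.sy 385000 (.sx 127500 (.sx 63750 (.aff
 2200000 6593180 218408) (.aff 1000000 0 0)) (.aff 1000000 0 0)) (.sy 447500 (.aff 3000000 7624034 524657)
 (.aff 3100000 7028983 627403))) (.aff 3000000 6312143 633700)), .pol, (.aff 5000000 8713299 1836274), (.pol),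
 .pol⟩], [.one ⟨4000000, 111, 188000, 0, -1440, 0, 250000, 300000, 0, 300000⟩ ⟨0, .pol, .pol, .pol, .pol,
 (.aff 1000000 0 0), .pol, (.pol), (.sy 150000 (.pol) (.pol)), .pol⟩, .two ⟨4000000, 111, 188000, -222800,
 65400, 0, 250000, 300000, 300000, 450000⟩ ⟨0, .pol, .pol, .pol, .pol, (.aff 1000000 0 0), .pol, (.pol),
 (.pol), .pol⟩ ⟨4000000, 111, 188000, -222800, 65400, 0, 250000, 300000, 450000, 500000⟩ ⟨0, .pol, .pol, .pol,
 .pol, (.aff 1000000 0 0), .pol, (.pol), (.pol), .pol⟩, .one ⟨4000000, 111, 188000, 62200, -77100, 0, 250000,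
 300000, 500000, 700000⟩ ⟨0, .pol, .pol, .pol, .pol, (.aff 1000000 0 0), .pol, (.aff 1000000 0 0), (.pol),
 .pol⟩, .one ⟨4000000, 111, 188000, 169719, -152364, 0, 250000, 300000, 700000, 807000⟩ ⟨0, .pol, .pol, .pol,
 .pol, (.aff 1000000 0 0), .pol, (.aff 1000000 0 0), (.pol), .pol⟩]⟩, ⟨[.one ⟨8000000, 347, 1360000, 283692,
 0, 0, 0, 255000, 0, 260000⟩ ⟨63750, (.aff 2000000 500000), (.pol), (.pol), (.pol), (.aff 500000 451577
 553616), (.aff 75000 2875175 297591), (.pol), (.pol), (.pol)⟩, .one ⟨8000000, 347, 1360000, -576160, 223561,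
 0, 0, 255000, 260000, 760000⟩ ⟨0, .pol, .pol, .pol, .pol, (.sy 510000 (.sy 385000 (.sx 127500 (.aff 2200000
 4901113 293811) (.aff 1000000 0 0)) (.sy 447500 (.sx 127500 (.sy 416250 (.aff 2091000 4724193 251955) (.aff
 2350000 4969215 366759)) (.aff 1000000 0 0)) (.sy 478750 (.sy 463125 (.sy 455312 (.sx 127500 (.sx 63750 (.aff
 3000000 6145298 650905) (.aff 1000000 0 0)) (.aff 1000000 0 0)) (.sx 127500 (.aff 3225000 5971723 829012)
 (.aff 1000000 0 0))) (.aff 3050000 5571799 754245)) (.aff 3000000 5569525 718195)))) (.aff 3100000 5724137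
 770422)), .pol, (.aff 5000000 8713299 1836274), (.pol), .pol⟩], [.one ⟨8000000, 347, 368000, 0, 50240, 0,
 250000, 300000, 0, 300000⟩ ⟨0, .pol, .pol, .pol, .pol, (.aff 1000000 0 0), .pol, (.pol), (.sy 150000 (.pol)
 (.pol)), .pol⟩, .two ⟨8000000, 347, 368000, -697600, 259520, 0, 250000, 300000, 300000, 450000⟩ ⟨0, .pol,
 .pol, .pol, .pol, (.aff 1000000 0 0), .pol, (.pol), (.pol), .pol⟩ ⟨8000000, 347, 368000, -697600, 259520, 0,
 250000, 300000, 450000, 500000⟩ ⟨0, .pol, .pol, .pol, .pol, (.aff 1000000 0 0), .pol, (.pol), (.pol), .pol⟩,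
 .one ⟨8000000, 347, 368000, 199200, -188880, 0, 250000, 300000, 500000, 700000⟩ ⟨0, .pol, .pol, .pol, .pol,
 (.aff 1000000 0 0), .pol, (.aff 1000000 0 0), (.pol), .pol⟩, .one ⟨8000000, 347, 368000, 527102, -418412, 0,
 250000, 300000, 700000, 807000⟩ ⟨0, .pol, .pol, .pol, .pol, (.aff 1000000 0 0), .pol, (.aff 1000000 0 0),
 (.pol), .pol⟩]⟩, ⟨[.one ⟨8000000, 121, 488000, 179076, 0, 0, 0, 255000, 0, 260000⟩ ⟨255000, (.aff 3162278
 316228), (.pol), (.pol), (.pol), (.pol), (.aff 1000000 0 0), (.pol), (.pol), (.pol)⟩, .one ⟨8000000, 121,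
 488000, 74080, 27299, 0, 0, 255000, 260000, 760000⟩ ⟨0, .pol, .pol, .pol, .pol, (.aff 2600000 6751228
 379191), .pol, (.pol), (.pol), .pol⟩], [.one ⟨8000000, 121, 320000, 57600, -16640, 0, 250000, 300000, 0,
 300000⟩ ⟨0, .pol, .pol, .pol, .pol, (.aff 1000000 0 0), .pol, (.pol), (.sy 150000 (.pol) (.pol)), .pol⟩, .one
 ⟨8000000, 121, 320000, 124400, -36680, 0, 250000, 300000, 300000, 500000⟩ ⟨0, .pol, .pol, .pol, .pol, (.aff
 1000000 0 0), .pol, (.pol), (.pol), .pol⟩, .one ⟨8000000, 121, 320000, 162800, -55880, 0, 250000, 300000,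
 500000, 700000⟩ ⟨0, .pol, .pol, .pol, .pol, (.aff 1000000 0 0), .pol, (.pol), (.pol), .pol⟩, .one ⟨8000000,
 121, 320000, 185420, -71715, 0, 250000, 300000, 700000, 807000⟩ ⟨0, .pol, .pol, .pol, .pol, (.aff 1000000 0
 0), .pol, (.pol), (.pol), .pol⟩]⟩, ⟨[.one ⟨8000000, 277, 1104000, 440923, 0, 0, 0, 255000, 0, 260000⟩
 ⟨255000, (.aff 2000000 500000), (.pol), (.pol), (.pol), (.pol), (.aff 0 2009781 497567), (.pol), (.pol),
 (.pol)⟩, .one ⟨8000000, 277, 1104000, 46720, 102492, 0, 0, 255000, 260000, 760000⟩ ⟨0, .pol, .pol, .pol,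
 .pol, (.sy 510000 (.sx 127500 (.sy 385000 (.aff 3100000 8158644 540532) (.aff 2900000 7119099 507087)) (.aff
 1000000 0 0)) (.aff 3100000 6627750 665385)), .pol, (.pol), (.pol), .pol⟩], [.one ⟨8000000, 277, 312000,
 122400, 74480, 0, 250000, 300000, 0, 300000⟩ ⟨0, .pol, .pol, .pol, .pol, (.aff 1000000 0 0), .pol, (.pol),
 (.sy 150000 (.pol) (.pol)), .pol⟩, .one ⟨8000000, 277, 312000, 270800, 29960, 0, 250000, 300000, 300000,
 500000⟩ ⟨0, .pol, .pol, .pol, .pol, (.aff 1000000 0 0), .pol, (.pol), (.pol), .pol⟩, .one ⟨8000000, 277,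
 312000, 358400, -13840, 0, 250000, 300000, 500000, 700000⟩ ⟨0, .pol, .pol, .pol, .pol, (.aff 1000000 0 0),
 .pol, (.pol), (.pol), .pol⟩, .one ⟨8000000, 277, 312000, 423925, -59708, 0, 250000, 300000, 700000, 807000⟩
 ⟨0, .pol, .pol, .pol, .pol, (.aff 1000000 0 0), .pol, (.pol), (.pol), .pol⟩]⟩] = true := by decide +kernel

theorem II_xQ41 : PropII xQ41 := propII_of cQ41

theorem cQ42 : chkII xQ42 ⟨750000, 755000, 867466, 866027, 868909, 497487, 500007, 494982, 500000, 494974⟩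
 [⟨[.one ⟨8000000, 359, 1248000, 280000, 0, 0, 0, 270000, 0, 250000⟩ ⟨125000, (.sp 250000 (.sp 62500 (.aff
 5656855 176777) (.aff 2529823 395285)) (.aff 1511858 661438)), (.pol), (.pol), (.pol), (.aff 1000000 0 0),
 (.sx 62500 (.sy 187500 (.sy 156250 (.sy 140625 (.sy 132812 (.aff 104000 2573562 311948) (.aff 125000 2588283
 295805)) (.aff 156000 2601383 273830)) (.aff 200000 2653300 241210)) (.aff 500000 1870829 133631)) (.aff
 1000000 0 0)), (.pol), (.pol), (.pol)⟩, .one ⟨8000000, 359, 1248000, -402896, 170723, 0, 0, 270000, 250000,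
 775000⟩ ⟨0, .pol, .pol, .pol, .pol, (.aff 2000000 3719490 268855), .pol, (.aff 3000000 6024641 663940), (.sx
 135000 (.pol) (.sx 202500 (.pol) (.sx 236250 (.pol) (.sy 512500 (.sy 381250 (.pol) (.pol)) (.pol))))),
 .pol⟩], [.one ⟨8000000, 359, 336000, 0, 61120, 0, 250000, 300000, 0, 300000⟩ ⟨0, .pol, .pol, .pol, .pol,
 (.aff 1000000 0 0), .pol, (.pol), (.sy 150000 (.pol) (.pol)), .pol⟩, .two ⟨8000000, 359, 336000, -618240,
 246592, 0, 250000, 300000, 300000, 450000⟩ ⟨0, .pol, .pol, .pol, .pol, (.aff 1000000 0 0), .pol, (.pol),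
 (.pol), .pol⟩ ⟨8000000, 359, 336000, -618240, 246592, 0, 250000, 300000, 450000, 550000⟩ ⟨0, .pol, .pol,
 .pol, .pol, (.aff 1000000 0 0), .pol, (.pol), (.pol), .pol⟩, .one ⟨8000000, 359, 336000, 442753, -336955, 0,
 250000, 300000, 550000, 797000⟩ ⟨0, .pol, .pol, .pol, .pol, (.aff 1000000 0 0), .pol, (.aff 1000000 0 0),
 (.pol), .pol⟩]⟩, ⟨[.one ⟨4000000, 0, 696000, 32960, 0, 0, 0, 270000, 0, 250000⟩ ⟨250000, (.pol), (.pol),
 (.pol), (.pol), (.pol), (.pol), (.pol), (.pol), (.pol)⟩, .one ⟨4000000, 0, 696000, -159162, 48030, 0, 0,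
 270000, 250000, 775000⟩ ⟨0, .pol, .pol, .pol, .pol, (.sx 135000 (.sx 67500 (.sy 512500 (.sx 33750 (.sy 381250
 (.sx 16875 (.sy 315625 (.sx 8437 (.sy 282812 (.pol) (.sx 4218 (.sy 299218 (.pol) (.sx 2109 (.inf 17074337
 58568) (.sy 307421 (.pol) (.sx 3163 (.inf 10871072 91988) (.sy 311523 (.pol) (.inf 9217803 108486))))))
 (.pol))) (.pol)) (.sx 8437 (.sy 348437 (.sx 4218 (.inf 12547322 79699) (.sy 332031 (.sx 6327 (.sy 323828 (.sx
 5272 (.inf 8208640 121823) (.pol)) (.inf 7886458 126800)) (.sy 323828 (.pol) (.sx 7382 (.sy 327929 (.pol)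
 (.inf 6938346 144127)) (.pol)))) (.sx 6327 (.inf 8033052 124486) (.sy 340234 (.sx 7382 (.inf 7002730 142802)
 (.sy 336132 (.sx 7909 (.inf 6610332 151279) (.pol)) (.inf 6538850 152933))) (.inf 6829736 146419))))) (.inf
 9299815 107530)) (.sy 348437 (.sx 12656 (.sy 332031 (.pol) (.sx 10546 (.sy 340234 (.sx 9491 (.sy 336132
 (.pol) (.sx 8964 (.inf 6234531 160397) (.pol))) (.pol)) (.sx 9491 (.inf 6197835 161347) (.sy 344335 (.sx
 10018 (.sy 342284 (.pol) (.inf 5932537 168562)) (.pol)) (.inf 5880021 170068)))) (.sy 340234 (.pol) (.sx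
 11601 (.sy 344335 (.pol) (.sx 11073 (.sy 346386 (.pol) (.inf 5669168 176393)) (.pol))) (.pol))))) (.pol))
 (.sx 12656 (.sy 364843 (.sx 10546 (.inf 6129819 163137) (.sy 356640 (.sx 11601 (.sy 352538 (.sx 11073 (.inf
 5694210 175617) (.sy 350487 (.sx 11337 (.inf 5584626 179064) (.pol)) (.inf 5568284 179589))) (.inf 5658746
 176718)) (.sy 352538 (.sx 12128 (.sy 350487 (.pol) (.sx 11864 (.inf 5473626 182695) (.pol))) (.pol)) (.sx
 12128 (.inf 5466860 182921) (.sy 354589 (.pol) (.inf 5356968 186673))))) (.inf 5576355 179329))) (.inf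
 5947403 168141)) (.sy 364843 (.sx 14765 (.sy 356640 (.pol) (.sx 13710 (.sy 360741 (.sx 13183 (.inf 5269108
 189786) (.sy 358690 (.pol) (.inf 5172196 193342))) (.inf 5245921 190625)) (.sy 360741 (.pol) (.sx 14237 (.inf
 5095377 196257) (.sy 362792 (.pol) (.inf 5008906 199645)))))) (.pol)) (.sx 14765 (.inf 5216208 191711) (.sy
 373046 (.sx 15820 (.sy 368944 (.sx 15292 (.inf 4940970 202390) (.sy 366893 (.pol) (.inf 4863253 205624)))
 (.inf 4925438 203028)) (.sy 368944 (.pol) (.sx 16347 (.inf 4802792 208213) (.pol)))) (.inf 4882618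
 204809)))))))) (.sy 315625 (.pol) (.sx 25312 (.sy 348437 (.pol) (.sx 21093 (.sy 364843 (.pol) (.sx 18984 (.sy
 373046 (.pol) (.sx 17929 (.sy 377148 (.sx 17402 (.inf 4678272 213755) (.pol)) (.inf 4668034 214223)) (.sy
 377148 (.pol) (.sx 18456 (.inf 4565491 219035) (.pol))))) (.pol))) (.pol))) (.pol)))) (.sx 16875 (.inf
 5822053 171761) (.sy 446875 (.sx 25312 (.sy 414062 (.sx 21093 (.sy 397656 (.sx 18984 (.inf 4660618 214564)
 (.sy 389453 (.sx 20038 (.sy 385351 (.sx 19511 (.inf 4462545 224088) (.pol)) (.inf 4455959 224419)) (.sy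
 385351 (.pol) (.inf 4340216 230404))) (.inf 4431695 225648))) (.inf 4623744 216275)) (.sy 397656 (.sx 23202
 (.sy 389453 (.pol) (.sx 22147 (.inf 4266528 234383) (.pol))) (.pol)) (.sx 23202 (.inf 4280803 233602) (.sy
 405859 (.sx 24257 (.inf 4114696 243032) (.pol)) (.inf 4111048 243247))))) (.inf 4517482 221363)) (.sy 414062
 (.sx 29531 (.sy 397656 (.pol) (.sx 27421 (.sy 405859 (.pol) (.inf 3943164 253604)) (.pol))) (.pol)) (.sx
 29531 (.inf 3962097 252392) (.sy 430468 (.pol) (.inf 3723472 268567))))) (.inf 4353231 229715)))) (.sy 381250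
 (.pol) (.sx 50625 (.sy 446875 (.pol) (.sx 42187 (.inf 3554410 281341) (.sy 479687 (.pol) (.inf 3269601
 305848)))) (.pol)))) (.inf 3000000 333334)) (.sy 512500 (.pol) (.sx 101250 (.sy 643750 (.sy 578125 (.pol)
 (.inf 2690863 371628)) (.inf 2899553 344881)) (.sy 643750 (.pol) (.inf 2450570 408069))))) (.pol)), .pol,
 (.pol), (.sx 135000 (.sx 67500 (.sy 512500 (.sx 33750 (.sy 381250 (.sx 16875 (.sy 315625 (.sx 8437 (.sy
 282812 (.pol) (.sx 4218 (.sy 299218 (.pol) (.sx 2109 (.inf 17074337 58568) (.sy 307421 (.pol) (.sx 3163 (.inf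
 10871072 91988) (.sy 311523 (.pol) (.inf 9217803 108486)))))) (.pol))) (.pol)) (.sx 8437 (.sy 348437 (.sx
 4218 (.inf 12547322 79699) (.sy 332031 (.sx 6327 (.sy 323828 (.sx 5272 (.inf 8208640 121823) (.pol)) (.inf
 7886458 126800)) (.sy 323828 (.pol) (.sx 7382 (.sy 327929 (.pol) (.inf 6938346 144127)) (.pol)))) (.sx 6327
 (.inf 8033052 124486) (.sy 340234 (.sx 7382 (.inf 7002730 142802) (.sy 336132 (.sx 7909 (.inf 6610332 151279)
 (.pol)) (.inf 6538850 152933))) (.inf 6829736 146419))))) (.inf 9299815 107530)) (.sy 348437 (.sx 12656 (.sy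
 332031 (.pol) (.sx 10546 (.sy 340234 (.sx 9491 (.sy 336132 (.pol) (.sx 8964 (.inf 6234531 160397) (.pol)))
 (.pol)) (.sx 9491 (.inf 6197835 161347) (.sy 344335 (.sx 10018 (.sy 342284 (.pol) (.inf 5932537 168562))
 (.pol)) (.inf 5880021 170068)))) (.sy 340234 (.pol) (.sx 11601 (.sy 344335 (.pol) (.sx 11073 (.sy 346386
 (.pol) (.inf 5669168 176393)) (.pol))) (.pol))))) (.pol)) (.sx 12656 (.sy 364843 (.sx 10546 (.inf 6129819
 163137) (.sy 356640 (.sx 11601 (.sy 352538 (.sx 11073 (.inf 5694210 175617) (.sy 350487 (.sx 11337 (.inf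
 5584626 179064) (.pol)) (.inf 5568284 179589))) (.inf 5658746 176718)) (.sy 352538 (.sx 12128 (.sy 350487
 (.pol) (.sx 11864 (.inf 5473626 182695) (.pol))) (.pol)) (.sx 12128 (.inf 5466860 182921) (.sy 354589 (.pol)
 (.inf 5356968 186673))))) (.inf 5576355 179329))) (.inf 5947403 168141)) (.sy 364843 (.sx 14765 (.sy 356640
 (.pol) (.sx 13710 (.sy 360741 (.sx 13183 (.inf 5269108 189786) (.sy 358690 (.pol) (.inf 5172196 193342)))
 (.inf 5245921 190625)) (.sy 360741 (.pol) (.sx 14237 (.inf 5095377 196257) (.sy 362792 (.pol) (.inf 5008906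
 199645)))))) (.pol)) (.sx 14765 (.inf 5216208 191711) (.sy 373046 (.sx 15820 (.sy 368944 (.sx 15292 (.inf
 4940970 202390) (.sy 366893 (.pol) (.inf 4863253 205624))) (.inf 4925438 203028)) (.sy 368944 (.pol) (.sx
 16347 (.inf 4802792 208213) (.pol)))) (.inf 4882618 204809)))))))) (.sy 315625 (.pol) (.sx 25312 (.sy 348437
 (.pol) (.sx 21093 (.sy 364843 (.pol) (.sx 18984 (.sy 373046 (.pol) (.sx 17929 (.sy 377148 (.sx 17402 (.inf
 4678272 213755) (.pol)) (.inf 4668034 214223)) (.sy 377148 (.pol) (.sx 18456 (.inf 4565491 219035) (.pol)))))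
 (.pol))) (.pol))) (.pol)))) (.sx 16875 (.inf 5822053 171761) (.sy 446875 (.sx 25312 (.sy 414062 (.sx 21093
 (.sy 397656 (.sx 18984 (.inf 4660618 214564) (.sy 389453 (.sx 20038 (.sy 385351 (.sx 19511 (.inf 4462545
 224088) (.pol)) (.inf 4455959 224419)) (.sy 385351 (.pol) (.inf 4340216 230404))) (.inf 4431695 225648)))
 (.inf 4623744 216275)) (.sy 397656 (.sx 23202 (.sy 389453 (.pol) (.sx 22147 (.inf 4266528 234383) (.pol)))
 (.pol)) (.sx 23202 (.inf 4280803 233602) (.sy 405859 (.sx 24257 (.inf 4114696 243032) (.pol)) (.inf 4111048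
 243247))))) (.inf 4517482 221363)) (.sy 414062 (.sx 29531 (.sy 397656 (.pol) (.sx 27421 (.sy 405859 (.pol)
 (.inf 3943164 253604)) (.pol))) (.pol)) (.sx 29531 (.inf 3962097 252392) (.sy 430468 (.pol) (.inf 3723472
 268567))))) (.inf 4353231 229715)))) (.sy 381250 (.pol) (.sx 50625 (.sy 446875 (.pol) (.sx 42187 (.inf
 3554410 281341) (.sy 479687 (.pol) (.inf 3269601 305848)))) (.pol)))) (.inf 3000000 333334)) (.sy 512500
 (.pol) (.sx 101250 (.sy 643750 (.sy 578125 (.pol) (.inf 2690863 371628)) (.inf 2899553 344881)) (.sy 643750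
 (.pol) (.inf 2450570 408069))))) (.pol)), .pol⟩], [.one ⟨4000000, 0, 0, 133, 200, 0, 250000, 300000, 0,
 300000⟩ ⟨0, .pol, .pol, .pol, .pol, (.pol), .pol, (.pol), (.pol), .pol⟩, .one ⟨4000000, 0, 0, 480, 96, 0,
 250000, 300000, 300000, 550000⟩ ⟨0, .pol, .pol, .pol, .pol, (.pol), .pol, (.pol), (.pol), .pol⟩, .one
 ⟨4000000, 0, 0, 323, 181, 0, 250000, 300000, 550000, 797000⟩ ⟨0, .pol, .pol, .pol, .pol, (.pol), .pol,
 (.pol), (.pol), .pol⟩]⟩, ⟨[.one ⟨4000000, 137, 676000, 104000, 0, 0, 0, 270000, 0, 250000⟩ ⟨125000, (.aff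
 3162278 316228), (.pol), (.pol), (.pol), (.pol), (.aff 150000 3106078 232609), (.pol), (.pol), (.pol)⟩, .one
 ⟨4000000, 137, 676000, -209829, 78457, 0, 0, 270000, 250000, 775000⟩ ⟨0, .pol, .pol, .pol, .pol, (.sy 512500
 (.sy 381250 (.sx 135000 (.sx 67500 (.aff 2100000 5810526 208243) (.aff 1000000 0 0)) (.aff 1000000 0 0)) (.sx
 135000 (.aff 2300000 5777746 292502) (.aff 1000000 0 0))) (.aff 3000000 6176419 647625)), .pol, (.aff 5000000
 8520129 1877906), (.sx 135000 (.pol) (.sx 202500 (.pol) (.sy 512500 (.sx 236250 (.pol) (.pol)) (.pol)))),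
 .pol⟩], [.one ⟨4000000, 137, 220000, -112534, 360, 0, 250000, 300000, 0, 300000⟩ ⟨0, .pol, .pol, .pol, .pol,
 (.aff 1000000 0 0), .pol, (.pol), (.sy 150000 (.pol) (.sy 225000 (.pol) (.pol))), .pol⟩, .two ⟨4000000, 137,
 220000, -100480, -3256, 0, 250000, 300000, 300000, 450000⟩ ⟨0, .pol, .pol, .pol, .pol, (.aff 1000000 0 0),
 .pol, (.pol), (.pol), .pol⟩ ⟨4000000, 137, 220000, -100480, -3256, 0, 250000, 300000, 450000, 550000⟩ ⟨0,
 .pol, .pol, .pol, .pol, (.aff 1000000 0 0), .pol, (.pol), (.pol), .pol⟩, .one ⟨4000000, 137, 220000, 153036,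
 -142691, 0, 250000, 300000, 550000, 797000⟩ ⟨0, .pol, .pol, .pol, .pol, (.aff 1000000 0 0), .pol, (.aff
 1650000 1271676 332239), (.pol), .pol⟩]⟩, ⟨[.one ⟨8000000, 349, 1296000, 303040, 0, 0, 0, 270000, 0, 250000⟩
 ⟨125000, (.aff 2000000 500000), (.pol), (.pol), (.pol), (.aff 0 880451 1135782), (.aff 125000 2143304
 357218), (.pol), (.pol), (.pol)⟩, .one ⟨8000000, 349, 1296000, -558629, 215417, 0, 0, 270000, 250000, 775000⟩
 ⟨0, .pol, .pol, .pol, .pol, (.sy 512500 (.sy 381250 (.sx 135000 (.aff 2162000 4678277 288620) (.aff 1000000 0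
 0)) (.sy 446875 (.sx 135000 (.sy 414062 (.aff 2078000 4519544 257125) (.aff 2350000 4821338 378008)) (.aff
 1000000 0 0)) (.sy 479687 (.sy 463281 (.sy 455078 (.sx 135000 (.sx 67500 (.aff 3000000 5969315 670094) (.aff
 1000000 0 0)) (.aff 1000000 0 0)) (.sx 135000 (.aff 3200000 5738020 843497) (.aff 1000000 0 0))) (.aff
 3050000 5417956 775662)) (.aff 2900000 5150905 700848)))) (.aff 3000000 5334340 749859)), .pol, (.aff 5000000
 8520129 1877906), (.sx 135000 (.pol) (.sy 512500 (.sx 202500 (.pol) (.sy 381250 (.pol) (.pol))) (.pol))),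
 .pol⟩], [.one ⟨8000000, 349, 520000, -286934, 10960, 0, 250000, 300000, 0, 300000⟩ ⟨0, .pol, .pol, .pol,
 .pol, (.aff 1000000 0 0), .pol, (.pol), (.sy 150000 (.pol) (.sy 225000 (.pol) (.pol))), .pol⟩, .two ⟨8000000,
 349, 520000, -256000, 1680, 0, 250000, 300000, 300000, 450000⟩ ⟨0, .pol, .pol, .pol, .pol, (.aff 1000000 0
 0), .pol, (.pol), (.pol), .pol⟩ ⟨8000000, 349, 520000, -256000, 1680, 0, 250000, 300000, 450000, 550000⟩ ⟨0,
 .pol, .pol, .pol, .pol, (.aff 1000000 0 0), .pol, (.pol), (.pol), .pol⟩, .one ⟨8000000, 349, 520000, 390283,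
 -353776, 0, 250000, 300000, 550000, 797000⟩ ⟨0, .pol, .pol, .pol, .pol, (.aff 1000000 0 0), .pol, (.aff
 1600000 1062148 338936), (.pol), .pol⟩]⟩, ⟨[.one ⟨8000000, 121, 488000, 179840, 0, 0, 0, 270000, 0, 250000⟩
 ⟨250000, (.aff 3162278 316228), (.pol), (.pol), (.pol), (.pol), (.aff 1000000 0 0), (.pol), (.pol), (.pol)⟩,
 .one ⟨8000000, 121, 488000, 76495, 25836, 0, 0, 270000, 250000, 775000⟩ ⟨0, .pol, .pol, .pol, .pol, (.aff
 2500000 6166009 364904), .pol, (.pol), (.sx 135000 (.pol) (.sy 512500 (.sx 202500 (.pol) (.pol)) (.pol))),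
 .pol⟩], [.one ⟨8000000, 121, 320000, 57866, -16960, 0, 250000, 300000, 0, 300000⟩ ⟨0, .pol, .pol, .pol, .pol,
 (.aff 1000000 0 0), .pol, (.pol), (.sy 150000 (.pol) (.pol)), .pol⟩, .one ⟨8000000, 121, 320000, 130560,
 -38768, 0, 250000, 300000, 300000, 550000⟩ ⟨0, .pol, .pol, .pol, .pol, (.aff 1000000 0 0), .pol, (.pol),
 (.pol), .pol⟩, .one ⟨8000000, 121, 320000, 172955, -62086, 0, 250000, 300000, 550000, 797000⟩ ⟨0, .pol, .pol,
 .pol, .pol, (.aff 1000000 0 0), .pol, (.pol), (.pol), .pol⟩]⟩, ⟨[.one ⟨8000000, 277, 1104000, 443520, 0, 0,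
 0, 270000, 0, 250000⟩ ⟨250000, (.aff 2000000 500000), (.pol), (.pol), (.pol), (.pol), (.aff 0 2000000
 500000), (.pol), (.pol), (.pol)⟩, .one ⟨8000000, 277, 1104000, 54400, 97280, 0, 0, 270000, 250000, 775000⟩
 ⟨0, .pol, .pol, .pol, .pol, (.sy 512500 (.sy 381250 (.sx 135000 (.aff 3100000 7843809 562227) (.aff 1000000 0
 0)) (.sx 135000 (.aff 3000000 7277566 549635) (.aff 1000000 0 0))) (.aff 3200000 6794061 712387)), .pol,
 (.pol), (.sx 135000 (.pol) (.sx 202500 (.pol) (.sx 236250 (.pol) (.sy 512500 (.pol) (.pol))))), .pol⟩], [.one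
 ⟨8000000, 277, 312000, 123466, 73680, 0, 250000, 300000, 0, 300000⟩ ⟨0, .pol, .pol, .pol, .pol, (.aff 1000000
 0 0), .pol, (.pol), (.sy 150000 (.pol) (.pol)), .pol⟩, .one ⟨8000000, 277, 312000, 284480, 25376, 0, 250000,
 300000, 300000, 550000⟩ ⟨0, .pol, .pol, .pol, .pol, (.aff 1000000 0 0), .pol, (.pol), (.pol), .pol⟩, .one
 ⟨8000000, 277, 312000, 391578, -33529, 0, 250000, 300000, 550000, 797000⟩ ⟨0, .pol, .pol, .pol, .pol, (.aff
 1000000 0 0), .pol, (.pol), (.pol), .pol⟩]⟩] = true := by decide +kernel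

theorem II_xQ42 : PropII xQ42 := propII_of cQ42

theorem cQ43 : chkII xQ43 ⟨755000, 760000, 870344, 868909, 871781, 492436, 494982, 489905, 494974, 489897⟩
 [⟨[.one ⟨4000000, 182, 600000, 147360, 0, 0, 0, 280000, 0, 250000⟩ ⟨125000, (.sp 250000 (.aff 2309402 433013)
 (.aff 1754117 570088)), (.pol), (.pol), (.pol), (.aff 1000000 0 0), (.sy 187500 (.sx 62500 (.sx 31250 (.aff
 131000 2418501 312244) (.aff 1000000 0 0)) (.aff 1000000 0 0)) (.aff 1000000 0 0)), (.pol), (.pol), (.pol)⟩,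
 .one ⟨4000000, 182, 600000, -237715, 96268, 0, 0, 280000, 250000, 775000⟩ ⟨0, .pol, .pol, .pol, .pol, (.sy
 512500 (.sx 140000 (.aff 2213000 4315229 340972) (.aff 1000000 0 0)) (.aff 2100000 3335818 362730)), .pol,
 (.aff 5000000 8366601 1912366), (.sx 140000 (.pol) (.sy 512500 (.sx 210000 (.pol) (.sy 381250 (.pol) (.pol)))
 (.pol))), .pol⟩], [.one ⟨4000000, 182, 168000, 0, 30400, 0, 250000, 300000, 0, 300000⟩ ⟨0, .pol, .pol, .pol,
 .pol, (.sy 150000 (.sy 75000 (.sy 37500 (.sy 18750 (.aff 1050000 8354 299258) (.aff 1000000 0 0)) (.aff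
 1000000 0 0)) (.aff 1000000 0 0)) (.aff 1000000 0 0)), .pol, (.pol), (.sy 150000 (.pol) (.pol)), .pol⟩, .two
 ⟨4000000, 182, 168000, -307680, 122704, 0, 250000, 300000, 300000, 450000⟩ ⟨0, .pol, .pol, .pol, .pol, (.aff
 1000000 0 0), .pol, (.pol), (.pol), .pol⟩ ⟨4000000, 182, 168000, -307680, 122704, 0, 250000, 300000, 450000,
 550000⟩ ⟨0, .pol, .pol, .pol, .pol, (.aff 1000000 0 0), .pol, (.pol), (.pol), .pol⟩, .one ⟨4000000, 182,
 168000, 225263, -170415, 0, 250000, 300000, 550000, 797000⟩ ⟨0, .pol, .pol, .pol, .pol, (.aff 1000000 0 0),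
 .pol, (.aff 1000000 0 0), (.pol), .pol⟩]⟩, ⟨[.one ⟨4000000, 0, 696000, 32960, 0, 0, 0, 280000, 0, 250000⟩
 ⟨250000, (.pol), (.pol), (.pol), (.pol), (.pol), (.pol), (.pol), (.pol), (.pol)⟩, .one ⟨4000000, 0, 696000,
 -168153, 50278, 0, 0, 280000, 250000, 775000⟩ ⟨0, .pol, .pol, .pol, .pol, (.sx 140000 (.sx 70000 (.sy 512500
 (.sx 35000 (.sy 381250 (.sx 17500 (.sy 315625 (.sx 8750 (.sy 282812 (.pol) (.sx 4375 (.sy 299218 (.sx 2187
 (.sy 291015 (.pol) (.inf 16428101 60872)) (.pol)) (.sx 2187 (.inf 16767092 59641) (.sy 307421 (.pol) (.inf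
 9744105 102627)))) (.pol))) (.pol)) (.sx 8750 (.sy 348437 (.sx 4375 (.inf 12320130 81168) (.sy 332031 (.sx
 6562 (.sy 323828 (.sx 5468 (.inf 8060103 124068) (.sy 319726 (.pol) (.inf 7314080 136723))) (.inf 7743836
 129135)) (.sy 323828 (.pol) (.sx 7656 (.sy 327929 (.sx 7109 (.inf 6904667 144830) (.pol)) (.inf 6813019
 146778)) (.sy 327929 (.pol) (.sx 8203 (.inf 6450909 155017) (.pol)))))) (.inf 7200360 138882))) (.inf 9131966
 109506)) (.sy 348437 (.sx 13125 (.sy 332031 (.pol) (.sx 10937 (.sy 340234 (.sx 9843 (.sy 336132 (.sx 9296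
 (.sy 334081 (.pol) (.inf 6094190 164091)) (.pol)) (.inf 6031373 165800)) (.sy 336132 (.pol) (.sx 10390 (.sy
 338183 (.pol) (.inf 5790529 172696)) (.pol)))) (.sx 9843 (.inf 6085989 164312) (.inf 5756827 173707))) (.sy
 340234 (.pol) (.sx 12031 (.sy 344335 (.sx 11484 (.sy 342284 (.pol) (.sx 11210 (.inf 5568016 179598) (.pol)))
 (.pol)) (.sx 11484 (.inf 5558629 179901) (.sy 346386 (.pol) (.inf 5435815 183966)))) (.pol))))) (.pol)) (.sx
 13125 (.sy 364843 (.sx 10937 (.inf 6019221 166135) (.sy 356640 (.sx 12031 (.inf 5540599 180486) (.sy 352538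
 (.sx 12578 (.inf 5337087 187369) (.sy 350487 (.pol) (.inf 5229902 191209))) (.inf 5309540 188341))) (.inf
 5475796 182622))) (.inf 5840130 171230)) (.sy 364843 (.sx 15312 (.sy 356640 (.sx 14218 (.sy 352538 (.pol)
 (.sx 13671 (.inf 5144494 194383) (.sy 354589 (.pol) (.inf 5049964 198022)))) (.pol)) (.sx 14218 (.inf 5136769
 194675) (.sy 360741 (.sx 14765 (.inf 4975117 201001) (.sy 358690 (.pol) (.inf 4890771 204467))) (.inf 4956923
 201739)))) (.sy 356640 (.pol) (.sx 16406 (.sy 360741 (.pol) (.sx 15859 (.inf 4824680 207268) (.sy 362792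
 (.pol) (.inf 4748878 210577)))) (.pol)))) (.sx 15312 (.inf 5122178 195230) (.sy 373046 (.sx 16406 (.inf
 4823282 207328) (.sy 368944 (.sx 16953 (.inf 4690062 213217) (.pol)) (.inf 4678006 213767))) (.inf 4794624
 208567)))))))) (.sy 315625 (.pol) (.sx 26250 (.sy 348437 (.pol) (.sx 21875 (.sy 364843 (.pol) (.sx 19687 (.sy
 373046 (.sx 18593 (.sy 368944 (.pol) (.sx 18046 (.inf 4568816 218876) (.pol))) (.pol)) (.sx 18593 (.inf
 4571508 218747) (.sy 377148 (.sx 19140 (.inf 4458884 224272) (.pol)) (.inf 4451052 224666)))) (.sy 373046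
 (.pol) (.sx 20781 (.sy 377148 (.pol) (.sx 20234 (.inf 4358609 229431) (.pol))) (.pol))))) (.pol))) (.pol))))
 (.sx 17500 (.inf 5717143 174913) (.sy 446875 (.sx 26250 (.sy 414062 (.sx 21875 (.sy 397656 (.sx 19687 (.inf
 4576643 218501) (.sy 389453 (.sx 20781 (.inf 4364030 229146) (.sy 385351 (.sx 21328 (.inf 4266751 234371)
 (.pol)) (.inf 4261926 234636))) (.inf 4351803 229790))) (.inf 4540382 220246)) (.sy 397656 (.sx 24062 (.sy
 389453 (.pol) (.inf 4139388 241582)) (.pol)) (.inf 4106930 243491))) (.inf 4436053 225426)) (.sy 414062 (.sx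
 30625 (.sy 397656 (.pol) (.sx 28437 (.sy 405859 (.pol) (.inf 3872077 258260)) (.pol))) (.pol)) (.sx 30625
 (.inf 3890676 257025) (.sy 430468 (.sy 422265 (.pol) (.inf 3604723 277414)) (.inf 3656370 273496))))) (.inf
 4274788 233930)))) (.sy 381250 (.pol) (.sx 52500 (.sy 446875 (.sx 43750 (.sy 414062 (.pol) (.sx 39375 (.sy
 430468 (.pol) (.sx 37187 (.inf 3486224 286844) (.pol))) (.pol))) (.pol)) (.sx 43750 (.inf 3490350 286505)
 (.sy 479687 (.pol) (.inf 3210676 311461)))) (.pol)))) (.inf 3000000 333334)) (.sy 512500 (.pol) (.sx 105000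
 (.sy 643750 (.sy 578125 (.pol) (.inf 2642375 378448)) (.inf 2847305 351210)) (.sy 643750 (.pol) (.inf 2406412
 415557))))) (.pol)), .pol, (.pol), (.sx 140000 (.sx 70000 (.sy 512500 (.sx 35000 (.sy 381250 (.sx 17500 (.sy
 315625 (.sx 8750 (.sy 282812 (.pol) (.sx 4375 (.sy 299218 (.sx 2187 (.sy 291015 (.pol) (.inf 16428101 60872))
 (.pol)) (.sx 2187 (.inf 16767092 59641) (.sy 307421 (.pol) (.inf 9744105 102627)))) (.pol))) (.pol)) (.sx
 8750 (.sy 348437 (.sx 4375 (.inf 12320130 81168) (.sy 332031 (.sx 6562 (.sy 323828 (.sx 5468 (.inf 8060103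
 124068) (.sy 319726 (.pol) (.inf 7314080 136723))) (.inf 7743836 129135)) (.sy 323828 (.pol) (.sx 7656 (.sy
 327929 (.sx 7109 (.inf 6904667 144830) (.pol)) (.inf 6813019 146778)) (.sy 327929 (.pol) (.sx 8203 (.inf
 6450909 155017) (.pol)))))) (.inf 7200360 138882))) (.inf 9131966 109506)) (.sy 348437 (.sx 13125 (.sy 332031
 (.pol) (.sx 10937 (.sy 340234 (.sx 9843 (.sy 336132 (.sx 9296 (.sy 334081 (.pol) (.inf 6094190 164091))
 (.pol)) (.inf 6031373 165800)) (.sy 336132 (.pol) (.sx 10390 (.sy 338183 (.pol) (.inf 5790529 172696))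
 (.pol)))) (.sx 9843 (.inf 6085989 164312) (.inf 5756827 173707))) (.sy 340234 (.pol) (.sx 12031 (.sy 344335
 (.sx 11484 (.sy 342284 (.pol) (.sx 11210 (.inf 5568016 179598) (.pol))) (.pol)) (.sx 11484 (.inf 5558629
 179901) (.sy 346386 (.pol) (.inf 5435815 183966)))) (.pol))))) (.pol)) (.sx 13125 (.sy 364843 (.sx 10937
 (.inf 6019221 166135) (.sy 356640 (.sx 12031 (.inf 5540599 180486) (.sy 352538 (.sx 12578 (.inf 5337087
 187369) (.sy 350487 (.pol) (.inf 5229902 191209))) (.inf 5309540 188341))) (.inf 5475796 182622))) (.inf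
 5840130 171230)) (.sy 364843 (.sx 15312 (.sy 356640 (.sx 14218 (.sy 352538 (.pol) (.sx 13671 (.inf 5144494
 194383) (.sy 354589 (.pol) (.inf 5049964 198022)))) (.pol)) (.sx 14218 (.inf 5136769 194675) (.sy 360741 (.sx
 14765 (.inf 4975117 201001) (.sy 358690 (.pol) (.inf 4890771 204467))) (.inf 4956923 201739)))) (.sy 356640
 (.pol) (.sx 16406 (.sy 360741 (.pol) (.sx 15859 (.inf 4824680 207268) (.sy 362792 (.pol) (.inf 4748878
 210577)))) (.pol)))) (.sx 15312 (.inf 5122178 195230) (.sy 373046 (.sx 16406 (.inf 4823282 207328) (.sy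
 368944 (.sx 16953 (.inf 4690062 213217) (.pol)) (.inf 4678006 213767))) (.inf 4794624 208567)))))))) (.sy
 315625 (.pol) (.sx 26250 (.sy 348437 (.pol) (.sx 21875 (.sy 364843 (.pol) (.sx 19687 (.sy 373046 (.sx 18593
 (.sy 368944 (.pol) (.sx 18046 (.inf 4568816 218876) (.pol))) (.pol)) (.sx 18593 (.inf 4571508 218747) (.sy
 377148 (.sx 19140 (.inf 4458884 224272) (.pol)) (.inf 4451052 224666)))) (.sy 373046 (.pol) (.sx 20781 (.sy
 377148 (.pol) (.sx 20234 (.inf 4358609 229431) (.pol))) (.pol))))) (.pol))) (.pol)))) (.sx 17500 (.inf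
 5717143 174913) (.sy 446875 (.sx 26250 (.sy 414062 (.sx 21875 (.sy 397656 (.sx 19687 (.inf 4576643 218501)
 (.sy 389453 (.sx 20781 (.inf 4364030 229146) (.sy 385351 (.sx 21328 (.inf 4266751 234371) (.pol)) (.inf
 4261926 234636))) (.inf 4351803 229790))) (.inf 4540382 220246)) (.sy 397656 (.sx 24062 (.sy 389453 (.pol)
 (.inf 4139388 241582)) (.pol)) (.inf 4106930 243491))) (.inf 4436053 225426)) (.sy 414062 (.sx 30625 (.sy
 397656 (.pol) (.sx 28437 (.sy 405859 (.pol) (.inf 3872077 258260)) (.pol))) (.pol)) (.sx 30625 (.inf 3890676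
 257025) (.sy 430468 (.sy 422265 (.pol) (.inf 3604723 277414)) (.inf 3656370 273496))))) (.inf 4274788
 233930)))) (.sy 381250 (.pol) (.sx 52500 (.sy 446875 (.sx 43750 (.sy 414062 (.pol) (.sx 39375 (.sy 430468
 (.pol) (.sx 37187 (.inf 3486224 286844) (.pol))) (.pol))) (.pol)) (.sx 43750 (.inf 3490350 286505) (.sy
 479687 (.pol) (.inf 3210676 311461)))) (.pol)))) (.inf 3000000 333334)) (.sy 512500 (.pol) (.sx 105000 (.sy
 643750 (.sy 578125 (.pol) (.inf 2642375 378448)) (.inf 2847305 351210)) (.sy 643750 (.pol) (.inf 2406412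
 415557))))) (.pol)), .pol⟩], [.one ⟨4000000, 0, 0, 133, 200, 0, 250000, 300000, 0, 300000⟩ ⟨0, .pol, .pol,
 .pol, .pol, (.pol), .pol, (.pol), (.pol), .pol⟩, .one ⟨4000000, 0, 0, 480, 96, 0, 250000, 300000, 300000,
 550000⟩ ⟨0, .pol, .pol, .pol, .pol, (.pol), .pol, (.pol), (.pol), .pol⟩, .one ⟨4000000, 0, 0, 323, 181, 0,
 250000, 300000, 550000, 797000⟩ ⟨0, .pol, .pol, .pol, .pol, (.pol), .pol, (.pol), (.pol), .pol⟩]⟩, ⟨[.one
 ⟨4000000, 137, 676000, 104480, 0, 0, 0, 280000, 0, 250000⟩ ⟨125000, (.aff 3162278 316228), (.pol), (.pol),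
 (.pol), (.pol), (.aff 150000 3106078 232609), (.pol), (.pol), (.pol)⟩, .one ⟨4000000, 137, 676000, -222172,
 81662, 0, 0, 280000, 250000, 775000⟩ ⟨0, .pol, .pol, .pol, .pol, (.sy 512500 (.sx 140000 (.sy 381250 (.sx
 70000 (.aff 2100000 5705823 212065) (.aff 1000000 0 0)) (.aff 2800000 6431785 503749)) (.aff 1000000 0 0))
 (.aff 3000000 6065123 659509)), .pol, (.aff 5000000 8366601 1912366), (.sx 140000 (.pol) (.sx 210000 (.pol)
 (.sy 512500 (.sx 245000 (.pol) (.pol)) (.pol)))), .pol⟩], [.one ⟨4000000, 137, 220000, 0, -480, 0, 250000,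
 300000, 0, 300000⟩ ⟨0, .pol, .pol, .pol, .pol, (.aff 1000000 0 0), .pol, (.pol), (.sy 150000 (.pol) (.pol)),
 .pol⟩, .two ⟨4000000, 137, 220000, -231360, 68928, 0, 250000, 300000, 300000, 450000⟩ ⟨0, .pol, .pol, .pol,
 .pol, (.aff 1000000 0 0), .pol, (.pol), (.pol), .pol⟩ ⟨4000000, 137, 220000, -231360, 68928, 0, 250000,
 300000, 450000, 550000⟩ ⟨0, .pol, .pol, .pol, .pol, (.aff 1000000 0 0), .pol, (.pol), (.pol), .pol⟩, .one
 ⟨4000000, 137, 220000, 152550, -142223, 0, 250000, 300000, 550000, 797000⟩ ⟨0, .pol, .pol, .pol, .pol, (.aff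
 1000000 0 0), .pol, (.aff 1650000 1150660 367181), (.pol), .pol⟩]⟩, ⟨[.one ⟨3200000, 142, 496000, 117632, 0,
 0, 0, 280000, 0, 250000⟩ ⟨62500, (.aff 2000000 500000), (.pol), (.pol), (.pol), (.aff 500000 427179 585235),
 (.sy 156250 (.aff 50000 2513464 359067) (.aff 250000 2704164 208013)), (.pol), (.pol), (.pol)⟩, .one
 ⟨3200000, 142, 496000, -220100, 84432, 0, 0, 280000, 250000, 775000⟩ ⟨0, .pol, .pol, .pol, .pol, (.sy 512500
 (.sy 381250 (.sx 140000 (.aff 2137000 4439300 291211) (.aff 1000000 0 0)) (.sy 446875 (.sy 414062 (.sx 140000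
 (.sx 70000 (.sy 397656 (.sy 389453 (.aff 1900000 4223301 191794) (.sy 393554 (.sx 35000 (.aff 1900000 4256880
 190281) (.aff 1000000 0 0)) (.sy 395605 (.sx 35000 (.aff 1894000 4245079 188274) (.aff 1000000 0 0)) (.sy
 396630 (.sx 35000 (.sx 17500 (.aff 2000000 5493668 182028) (.aff 2000000 4255377 234997)) (.aff 1000000 0 0))
 (.sy 397143 (.sy 396886 (.sy 396758 (.sx 35000 (.sx 17500 (.aff 2000000 5497664 181896) (.aff 2000000 4258472
 234827)) (.aff 1000000 0 0)) (.sy 396822 (.sy 396790 (.sx 35000 (.sx 17500 (.aff 2000000 5498218 181878)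
 (.aff 2000000 4258902 234803)) (.aff 1000000 0 0)) (.sy 396806 (.sx 35000 (.sx 17500 (.aff 2000000 5498385
 181872) (.aff 2000000 4259031 234796)) (.aff 1000000 0 0)) (.sy 396814 (.sx 35000 (.sx 17500 (.aff 2000000
 5498468 181869) (.aff 2000000 4259095 234792)) (.aff 1000000 0 0)) (.sy 396818 (.sx 35000 (.sx 17500 (.aff
 2000000 5498509 181868) (.aff 2000000 4259127 234790)) (.aff 1000000 0 0)) (.sy 396820 (.sx 35000 (.sx 17500
 (.aff 2000000 5498530 181867) (.aff 2000000 4259143 234790)) (.aff 1000000 0 0)) (.sy 396821 (.sx 35000 (.sx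
 17500 (.aff 2000000 5498541 181867) (.aff 2000000 4259151 234789)) (.aff 1000000 0 0)) (.sx 35000 (.sx 17500
 (.aff 2000000 5498547 181867) (.aff 2000000 4259157 234789)) (.aff 1000000 0 0)))))))) (.sx 35000 (.sx 17500
 (.aff 2000000 5498773 181859) (.aff 2000000 4259331 234779)) (.aff 1000000 0 0)))) (.sx 35000 (.sx 17500
 (.aff 2000000 5499884 181823) (.aff 2000000 4260192 234732)) (.aff 1000000 0 0))) (.sx 35000 (.sx 17500 (.aff
 2000000 5502551 181734) (.aff 2000000 4262257 234618)) (.aff 1000000 0 0))))))) (.sy 405859 (.sy 401757 (.sy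
 399706 (.sy 398681 (.sx 35000 (.sx 17500 (.aff 2000000 5507872 181559) (.aff 2000000 4266379 234391)) (.aff
 1000000 0 0)) (.sx 35000 (.sx 17500 (.aff 2000000 5514957 181326) (.aff 2000000 4271867 234090)) (.aff
 1000000 0 0))) (.sy 400731 (.sx 35000 (.sx 17500 (.aff 2000000 5522033 181093) (.aff 2000000 4277348 233790))
 (.aff 1000000 0 0)) (.sx 35000 (.sx 17500 (.aff 2000000 5529103 180862) (.aff 2000000 4282825 233491)) (.aff
 1000000 0 0)))) (.sy 403808 (.sy 402782 (.sx 35000 (.sx 17500 (.aff 2000000 5536164 180631) (.aff 2000000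
 4288294 233193)) (.aff 1000000 0 0)) (.sx 35000 (.sx 17500 (.aff 2000000 5543216 180401) (.aff 2000000
 4293757 232897)) (.aff 1000000 0 0))) (.sx 35000 (.aff 2600000 5441570 470453) (.aff 1000000 0 0)))) (.sx
 35000 (.aff 2600000 5475919 467502) (.aff 1000000 0 0)))) (.aff 1000000 0 0)) (.aff 1000000 0 0)) (.sx 140000
 (.aff 2300000 4559110 370687) (.aff 1000000 0 0))) (.sy 479687 (.sy 463281 (.sy 455078 (.sx 140000 (.sx 70000
 (.aff 2900000 5568663 648271) (.aff 1000000 0 0)) (.aff 1000000 0 0)) (.sx 140000 (.aff 3125000 5442535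
 829692) (.aff 1000000 0 0))) (.sx 140000 (.aff 3000000 5190563 770630) (.aff 1000000 0 0))) (.aff 2800000
 4791873 676145)))) (.aff 2900000 4976307 725438)), .pol, (.aff 5000000 8366601 1912366), (.sx 140000 (.pol)
 (.sy 512500 (.sx 210000 (.pol) (.sy 381250 (.pol) (.pol))) (.pol))), .pol⟩], [.one ⟨3200000, 142, 214400, 0,
 2880, 0, 250000, 300000, 0, 300000⟩ ⟨0, .pol, .pol, .pol, .pol, (.aff 1000000 0 0), .pol, (.pol), (.sy 150000
 (.pol) (.pol)), .pol⟩, .two ⟨3200000, 142, 214400, -240000, 74880, 0, 250000, 300000, 300000, 450000⟩ ⟨0,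
 .pol, .pol, .pol, .pol, (.aff 1000000 0 0), .pol, (.pol), (.pol), .pol⟩ ⟨3200000, 142, 214400, -240000,
 74880, 0, 250000, 300000, 450000, 550000⟩ ⟨0, .pol, .pol, .pol, .pol, (.aff 1000000 0 0), .pol, (.pol),
 (.pol), .pol⟩, .one ⟨3200000, 142, 214400, 158315, -144194, 0, 250000, 300000, 550000, 797000⟩ ⟨0, .pol,
 .pol, .pol, .pol, (.aff 1000000 0 0), .pol, (.aff 1650000 1150660 367181), (.pol), .pol⟩]⟩, ⟨[.one ⟨8000000,
 121, 488000, 179840, 0, 0, 0, 280000, 0, 250000⟩ ⟨250000, (.aff 3162278 316228), (.pol), (.pol), (.pol),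
 (.pol), (.aff 1000000 0 0), (.pol), (.pol), (.pol)⟩, .one ⟨8000000, 121, 488000, 70857, 27245, 0, 0, 280000,
 250000, 775000⟩ ⟨0, .pol, .pol, .pol, .pol, (.aff 2600000 6458560 396374), .pol, (.pol), (.sx 140000 (.pol)
 (.sy 512500 (.sx 210000 (.pol) (.pol)) (.pol))), .pol⟩], [.one ⟨8000000, 121, 320000, 58400, -17280, 0,
 250000, 300000, 0, 300000⟩ ⟨0, .pol, .pol, .pol, .pol, (.aff 1000000 0 0), .pol, (.pol), (.sy 150000 (.pol)
 (.pol)), .pol⟩, .one ⟨8000000, 121, 320000, 131520, -39216, 0, 250000, 300000, 300000, 550000⟩ ⟨0, .pol,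
 .pol, .pol, .pol, (.aff 1000000 0 0), .pol, (.pol), (.pol), .pol⟩, .one ⟨8000000, 121, 320000, 173927,
 -62540, 0, 250000, 300000, 550000, 797000⟩ ⟨0, .pol, .pol, .pol, .pol, (.aff 1000000 0 0), .pol, (.pol),
 (.pol), .pol⟩]⟩, ⟨[.one ⟨8000000, 277, 1104000, 443520, 0, 0, 0, 280000, 0, 250000⟩ ⟨250000, (.aff 2000000
 500000), (.pol), (.pol), (.pol), (.pol), (.aff 0 2000000 500000), (.pol), (.pol), (.pol)⟩, .one ⟨8000000,
 277, 1104000, 42971, 100137, 0, 0, 280000, 250000, 775000⟩ ⟨0, .pol, .pol, .pol, .pol, (.sy 512500 (.sy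
 381250 (.sx 140000 (.aff 3100000 7702468 572544) (.aff 1000000 0 0)) (.sx 140000 (.aff 3000000 7146428
 559721) (.aff 1000000 0 0))) (.sy 643750 (.aff 3400000 6897205 835121) (.aff 5000000 9003968 1776995))),
 .pol, (.pol), (.sx 140000 (.pol) (.sx 210000 (.pol) (.sx 245000 (.pol) (.sy 512500 (.pol) (.pol))))), .pol⟩],
 [.one ⟨8000000, 277, 312000, 124266, 72960, 0, 250000, 300000, 0, 300000⟩ ⟨0, .pol, .pol, .pol, .pol, (.aff
 1000000 0 0), .pol, (.pol), (.sy 150000 (.pol) (.pol)), .pol⟩, .one ⟨8000000, 277, 312000, 287360, 24032, 0,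
 250000, 300000, 300000, 550000⟩ ⟨0, .pol, .pol, .pol, .pol, (.aff 1000000 0 0), .pol, (.pol), (.pol), .pol⟩,
 .one ⟨8000000, 277, 312000, 394170, -34714, 0, 250000, 300000, 550000, 797000⟩ ⟨0, .pol, .pol, .pol, .pol,
 (.aff 1000000 0 0), .pol, (.pol), (.pol), .pol⟩]⟩] = true := by decide +kernel

theorem II_xQ43 : PropII xQ43 := propII_of cQ43

theorem cQ44 : chkII xQ44 ⟨760000, 765000, 873211, 871781, 874644, 487333, 489905, 484775, 489897, 484767⟩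
 [⟨[.one ⟨4000000, 174, 584000, 140166, 0, 0, 0, 285000, 0, 240000⟩ ⟨120000, (.sp 250000 (.aff 2309402 433013)
 (.aff 1754117 570088)), (.pol), (.pol), (.pol), (.aff 1000000 0 0), (.sx 60000 (.sy 180000 (.sy 150000 (.sy
 135000 (.aff 88000 2405885 345713) (.aff 182000 2521246 265395)) (.aff 250000 2487469 226134)) (.aff 500000
 1870829 133631)) (.aff 1000000 0 0)), (.pol), (.pol), (.pol)⟩, .one ⟨4000000, 174, 584000, -233886, 89772, 0,
 0, 285000, 240000, 783000⟩ ⟨0, .pol, .pol, .pol, .pol, (.sy 511500 (.sy 375750 (.sx 142500 (.aff 1975000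
 4067406 233718) (.aff 1000000 0 0)) (.sx 142500 (.aff 2250000 4411036 354226) (.aff 1000000 0 0))) (.aff
 3400000 5114932 1126115)), .pol, (.aff 5000000 8319920 1923096), (.sx 142500 (.pol) (.sy 511500 (.sx 213750
 (.pol) (.sy 375750 (.pol) (.pol))) (.pol))), .pol⟩], [.one ⟨4000000, 174, 156000, 0, 29240, 0, 250000,
 300000, 0, 300000⟩ ⟨0, .pol, .pol, .pol, .pol, (.sy 150000 (.sy 75000 (.sy 37500 (.sy 18750 (.aff 1100000
 18464 541595) (.aff 1000000 0 0)) (.aff 1000000 0 0)) (.aff 1000000 0 0)) (.aff 1000000 0 0)), .pol, (.pol),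
 (.sy 150000 (.pol) (.pol)), .pol⟩, .two ⟨4000000, 174, 156000, -289280, 116024, 0, 250000, 300000, 300000,
 450000⟩ ⟨0, .pol, .pol, .pol, .pol, (.aff 1000000 0 0), .pol, (.pol), (.pol), .pol⟩ ⟨4000000, 174, 156000,
 -289280, 116024, 0, 250000, 300000, 450000, 550000⟩ ⟨0, .pol, .pol, .pol, .pol, (.aff 1000000 0 0), .pol,
 (.pol), (.pol), .pol⟩, .one ⟨4000000, 174, 156000, 216974, -162417, 0, 250000, 300000, 550000, 788000⟩ ⟨0,
 .pol, .pol, .pol, .pol, (.aff 1000000 0 0), .pol, (.aff 1000000 0 0), (.pol), .pol⟩]⟩, ⟨[.one ⟨4000000, 0,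
 744000, 10333, 0, 0, 0, 285000, 0, 240000⟩ ⟨240000, (.pol), (.pol), (.pol), (.pol), (.pol), (.pol), (.pol),
 (.pol), (.pol)⟩, .one ⟨4000000, 0, 744000, -90019, 24084, 0, 0, 285000, 240000, 783000⟩ ⟨0, .pol, .pol, .pol,
 .pol, (.sx 142500 (.sx 71250 (.sx 35625 (.sy 511500 (.sx 17812 (.sy 375750 (.sx 8906 (.sy 307875 (.sx 4453
 (.sy 273937 (.sx 2226 (.sy 256968 (.pol) (.sx 1113 (.sy 265452 (.pol) (.sx 556 (.inf 31146816 32107) (.sy
 269694 (.pol) (.inf 18047787 55409)))) (.pol))) (.pol)) (.sx 2226 (.sy 290906 (.sx 1113 (.inf 22527671 44390)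
 (.sy 282421 (.sx 1669 (.sy 278179 (.sx 1391 (.inf 14849028 67345) (.pol)) (.inf 14195412 70446)) (.sy 278179
 (.pol) (.sx 1947 (.sy 280300 (.pol) (.inf 12474765 80162)) (.pol)))) (.inf 13103672 76315))) (.inf 16401042
 60972)) (.sy 290906 (.sx 3339 (.sy 282421 (.pol) (.sx 2782 (.sy 286663 (.sx 2504 (.sy 284542 (.pol) (.inf
 10989184 90999)) (.pol)) (.inf 10739147 93118)) (.sy 286663 (.pol) (.sx 3060 (.sy 288784 (.pol) (.sx 2921
 (.inf 10081989 99187) (.pol))) (.pol))))) (.pol)) (.sx 3339 (.sy 299390 (.sx 2782 (.inf 10856824 92108) (.sy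
 295148 (.sx 3060 (.inf 10015856 99842) (.sy 293027 (.sx 3199 (.inf 9658931 103532) (.pol)) (.inf 9587321
 104305))) (.inf 9855500 101467))) (.inf 10446157 95729)) (.sy 299390 (.sx 3896 (.sy 295148 (.sx 3617 (.sy
 293027 (.pol) (.sx 3478 (.inf 9288737 107658) (.pol))) (.pol)) (.sx 3617 (.inf 9245067 108166) (.sy 297269
 (.pol) (.inf 8911615 112214)))) (.pol)) (.inf 8828048 113276)))))) (.sy 273937 (.pol) (.sx 6679 (.sy 290906
 (.pol) (.sx 5566 (.sy 299390 (.pol) (.sx 5009 (.sy 303632 (.pol) (.inf 8039134 124392)) (.pol))) (.pol)))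
 (.pol)))) (.sx 4453 (.inf 12390323 80709) (.sy 341812 (.sx 6679 (.sy 324843 (.sx 5566 (.inf 7946812 125837)
 (.sy 316359 (.sx 6122 (.sy 312117 (.pol) (.inf 7332875 136373)) (.pol)) (.inf 7236325 138192))) (.inf 7738629
 129222)) (.sy 324843 (.sx 7792 (.sy 316359 (.pol) (.sx 7235 (.inf 6788463 147309) (.pol))) (.pol)) (.sx 7792
 (.inf 6787367 147333) (.sy 333327 (.sx 8349 (.inf 6385632 156602) (.pol)) (.inf 6358642 157267))))) (.inf
 7328967 136445)))) (.sy 307875 (.pol) (.sx 13359 (.sy 341812 (.sx 11132 (.sy 324843 (.pol) (.sx 10019 (.sy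
 333327 (.pol) (.inf 5972810 167426)) (.pol))) (.pol)) (.sx 11132 (.inf 5984151 167109) (.sy 358781 (.pol)
 (.inf 5476484 182599)))) (.pol)))) (.inf 5646206 177111)) (.sy 375750 (.pol) (.sx 26718 (.sy 443625 (.sy
 409687 (.pol) (.inf 4377515 228441)) (.inf 4631310 215922)) (.sy 443625 (.pol) (.inf 3914140 255484)))))
 (.inf 6028005 165893)) (.sy 511500 (.pol) (.inf 2784217 359168))) (.pol)) (.pol)), .pol, (.pol), (.sx 142500
 (.sx 71250 (.sx 35625 (.sy 511500 (.sx 17812 (.sy 375750 (.sx 8906 (.sy 307875 (.sx 4453 (.sy 273937 (.sx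
 2226 (.sy 256968 (.pol) (.sx 1113 (.sy 265452 (.pol) (.sx 556 (.inf 31146816 32107) (.sy 269694 (.pol) (.inf
 18047787 55409)))) (.pol))) (.pol)) (.sx 2226 (.sy 290906 (.sx 1113 (.inf 22527671 44390) (.sy 282421 (.sx
 1669 (.sy 278179 (.sx 1391 (.inf 14849028 67345) (.pol)) (.inf 14195412 70446)) (.sy 278179 (.pol) (.sx 1947
 (.sy 280300 (.pol) (.inf 12474765 80162)) (.pol)))) (.inf 13103672 76315))) (.inf 16401042 60972)) (.sy
 290906 (.sx 3339 (.sy 282421 (.pol) (.sx 2782 (.sy 286663 (.sx 2504 (.sy 284542 (.pol) (.inf 10989184 90999))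
 (.pol)) (.inf 10739147 93118)) (.sy 286663 (.pol) (.sx 3060 (.sy 288784 (.pol) (.sx 2921 (.inf 10081989
 99187) (.pol))) (.pol))))) (.pol)) (.sx 3339 (.sy 299390 (.sx 2782 (.inf 10856824 92108) (.sy 295148 (.sx
 3060 (.inf 10015856 99842) (.sy 293027 (.sx 3199 (.inf 9658931 103532) (.pol)) (.inf 9587321 104305))) (.inf
 9855500 101467))) (.inf 10446157 95729)) (.sy 299390 (.sx 3896 (.sy 295148 (.sx 3617 (.sy 293027 (.pol) (.sx
 3478 (.inf 9288737 107658) (.pol))) (.pol)) (.sx 3617 (.inf 9245067 108166) (.sy 297269 (.pol) (.inf 8911615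
 112214)))) (.pol)) (.inf 8828048 113276)))))) (.sy 273937 (.pol) (.sx 6679 (.sy 290906 (.pol) (.sx 5566 (.sy
 299390 (.pol) (.sx 5009 (.sy 303632 (.pol) (.inf 8039134 124392)) (.pol))) (.pol))) (.pol)))) (.sx 4453 (.inf
 12390323 80709) (.sy 341812 (.sx 6679 (.sy 324843 (.sx 5566 (.inf 7946812 125837) (.sy 316359 (.sx 6122 (.sy
 312117 (.pol) (.inf 7332875 136373)) (.pol)) (.inf 7236325 138192))) (.inf 7738629 129222)) (.sy 324843 (.sx
 7792 (.sy 316359 (.pol) (.sx 7235 (.inf 6788463 147309) (.pol))) (.pol)) (.sx 7792 (.inf 6787367 147333) (.sy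
 333327 (.sx 8349 (.inf 6385632 156602) (.pol)) (.inf 6358642 157267))))) (.inf 7328967 136445)))) (.sy 307875
 (.pol) (.sx 13359 (.sy 341812 (.sx 11132 (.sy 324843 (.pol) (.sx 10019 (.sy 333327 (.pol) (.inf 5972810
 167426)) (.pol))) (.pol)) (.sx 11132 (.inf 5984151 167109) (.sy 358781 (.pol) (.inf 5476484 182599))))
 (.pol)))) (.inf 5646206 177111)) (.sy 375750 (.pol) (.sx 26718 (.sy 443625 (.sy 409687 (.pol) (.inf 4377515
 228441)) (.inf 4631310 215922)) (.sy 443625 (.pol) (.inf 3914140 255484))))) (.inf 6028005 165893)) (.sy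
 511500 (.pol) (.inf 2784217 359168))) (.pol)) (.pol)), .pol⟩], [.one ⟨4000000, 0, 0, 133, 200, 0, 250000,
 300000, 0, 300000⟩ ⟨0, .pol, .pol, .pol, .pol, (.pol), .pol, (.pol), (.pol), .pol⟩, .one ⟨4000000, 0, 0, 480,
 96, 0, 250000, 300000, 300000, 550000⟩ ⟨0, .pol, .pol, .pol, .pol, (.pol), .pol, (.pol), (.pol), .pol⟩, .one
 ⟨4000000, 0, 0, 336, 175, 0, 250000, 300000, 550000, 788000⟩ ⟨0, .pol, .pol, .pol, .pol, (.pol), .pol,
 (.pol), (.pol), .pol⟩]⟩, ⟨[.one ⟨8000000, 283, 1224000, 245000, 0, 0, 0, 285000, 0, 240000⟩ ⟨240000, (.aff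
 3162278 316228), (.pol), (.pol), (.pol), (.pol), (.aff 1000000 0 0), (.pol), (.pol), (.pol)⟩, .one ⟨8000000,
 283, 1224000, -443610, 165266, 0, 0, 285000, 240000, 783000⟩ ⟨0, .pol, .pol, .pol, .pol, (.sy 511500 (.sx
 142500 (.sy 375750 (.aff 2200000 5262703 273624) (.aff 2200000 5172146 278415)) (.aff 1000000 0 0)) (.aff
 3000000 6028005 663570)), .pol, (.aff 5000000 8319920 1923096), (.sx 142500 (.pol) (.sy 511500 (.sy 375750
 (.pol) (.pol)) (.pol))), .pol⟩], [.one ⟨8000000, 283, 416000, 0, 6800, 0, 250000, 300000, 0, 300000⟩ ⟨0,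
 .pol, .pol, .pol, .pol, (.aff 1000000 0 0), .pol, (.pol), (.sy 150000 (.pol) (.pol)), .pol⟩, .two ⟨8000000,
 283, 416000, -469120, 147536, 0, 250000, 300000, 300000, 450000⟩ ⟨0, .pol, .pol, .pol, .pol, (.aff 1000000 0
 0), .pol, (.pol), (.pol), .pol⟩ ⟨8000000, 283, 416000, -469120, 147536, 0, 250000, 300000, 450000, 550000⟩
 ⟨0, .pol, .pol, .pol, .pol, (.aff 1000000 0 0), .pol, (.pol), (.pol), .pol⟩, .one ⟨8000000, 283, 416000,
 317983, -285371, 0, 250000, 300000, 550000, 788000⟩ ⟨0, .pol, .pol, .pol, .pol, (.aff 1000000 0 0), .pol,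
 (.aff 1600000 957855 375840), (.pol), .pol⟩]⟩, ⟨[.one ⟨2400000, 117, 396000, 101500, 0, 0, 0, 285000, 0,
 240000⟩ ⟨120000, (.aff 2000000 500000), (.pol), (.pol), (.pol), (.aff 1000000 0 0), (.aff 175000 2233362
 304754), (.pol), (.pol), (.pol)⟩, .one ⟨2400000, 117, 396000, -174365, 66207, 0, 0, 285000, 240000, 783000⟩
 ⟨0, .pol, .pol, .pol, .pol, (.sy 511500 (.sy 375750 (.sx 142500 (.aff 2098000 4276195 281934) (.aff 1000000 0
 0)) (.sy 443625 (.sx 142500 (.sy 409687 (.sx 71250 (.sy 392718 (.sx 35625 (.aff 1894000 4152150 192488) (.aff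
 1000000 0 0)) (.sy 401202 (.sy 396960 (.sy 394839 (.sy 393778 (.sx 35625 (.sx 17812 (.aff 2000000 5425582
 184313) (.aff 2000000 4202614 237948)) (.aff 1000000 0 0)) (.sx 35625 (.sx 17812 (.aff 2000000 5432893
 184064) (.aff 2000000 4208277 237627)) (.aff 1000000 0 0))) (.sy 395899 (.sx 35625 (.sx 17812 (.aff 2000000
 5440194 183817) (.aff 2000000 4213932 237309)) (.aff 1000000 0 0)) (.sx 35625 (.sx 17812 (.aff 2000000
 5447485 183571) (.aff 2000000 4219580 236991)) (.aff 1000000 0 0)))) (.sy 399081 (.sy 398020 (.sx 35625 (.sx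
 17812 (.aff 2000000 5454767 183326) (.aff 2000000 4225220 236675)) (.aff 1000000 0 0)) (.sx 35625 (.sx 17812
 (.aff 2000000 5462038 183082) (.aff 2000000 4230853 236359)) (.aff 1000000 0 0))) (.sy 400141 (.sx 35625 (.sx
 17812 (.aff 2000000 5469300 182839) (.aff 2000000 4236478 236046)) (.aff 1000000 0 0)) (.sx 35625 (.aff
 2600000 5365829 477094) (.aff 1000000 0 0))))) (.sx 35625 (.aff 2600000 5397694 474277) (.aff 1000000 0 0))))
 (.aff 1000000 0 0)) (.aff 2275000 4412368 368425)) (.aff 1000000 0 0)) (.sy 477562 (.sy 460593 (.sy 452109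
 (.sy 447867 (.sx 142500 (.sx 71250 (.aff 2900000 5487497 657860) (.aff 1000000 0 0)) (.aff 1000000 0 0)) (.sx
 142500 (.sx 71250 (.aff 3000000 5803733 689212) (.aff 1000000 0 0)) (.aff 1000000 0 0))) (.sx 142500 (.aff
 3100000 5314671 829779) (.aff 1000000 0 0))) (.aff 2931000 4954641 752580)) (.aff 2800000 4742167 683232))))
 (.aff 3600000 5541177 1219958)), .pol, (.aff 5000000 8319920 1923096), (.sx 142500 (.pol) (.sy 511500 (.sx
 213750 (.pol) (.sy 375750 (.pol) (.pol))) (.pol))), .pol⟩], [.one ⟨2400000, 117, 223200, 0, -10008, 0,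
 250000, 300000, 0, 300000⟩ ⟨0, .pol, .pol, .pol, .pol, (.aff 1000000 0 0), .pol, (.pol), (.sy 150000 (.pol)
 (.pol)), .pol⟩, .two ⟨2400000, 117, 223200, -194208, 48254, 0, 250000, 300000, 300000, 450000⟩ ⟨0, .pol,
 .pol, .pol, .pol, (.aff 1000000 0 0), .pol, (.pol), (.pol), .pol⟩ ⟨2400000, 117, 223200, -194208, 48254, 0,
 250000, 300000, 450000, 550000⟩ ⟨0, .pol, .pol, .pol, .pol, (.aff 1000000 0 0), .pol, (.pol), (.pol), .pol⟩,
 .one ⟨2400000, 117, 223200, 129680, -129885, 0, 250000, 300000, 550000, 788000⟩ ⟨0, .pol, .pol, .pol, .pol,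
 (.aff 1000000 0 0), .pol, (.aff 1939000 1437724 613276), (.pol), .pol⟩]⟩, ⟨[.one ⟨8000000, 121, 488000,
 180333, 0, 0, 0, 285000, 0, 240000⟩ ⟨240000, (.aff 3162278 316228), (.pol), (.pol), (.pol), (.pol), (.aff
 1000000 0 0), (.pol), (.pol), (.pol)⟩, .one ⟨8000000, 121, 488000, 74106, 25494, 0, 0, 285000, 240000,
 783000⟩ ⟨0, .pol, .pol, .pol, .pol, (.aff 2500000 5995694 375270), .pol, (.pol), (.sx 142500 (.pol) (.sy
 511500 (.sx 213750 (.pol) (.pol)) (.pol))), .pol⟩], [.one ⟨8000000, 121, 320000, 59200, -17680, 0, 250000,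
 300000, 0, 300000⟩ ⟨0, .pol, .pol, .pol, .pol, (.aff 1000000 0 0), .pol, (.pol), (.sy 150000 (.pol) (.pol)),
 .pol⟩, .one ⟨8000000, 121, 320000, 132480, -39664, 0, 250000, 300000, 300000, 550000⟩ ⟨0, .pol, .pol, .pol,
 .pol, (.aff 1000000 0 0), .pol, (.pol), (.pol), .pol⟩, .one ⟨8000000, 121, 320000, 175126, -63120, 0, 250000,
 300000, 550000, 788000⟩ ⟨0, .pol, .pol, .pol, .pol, (.aff 1000000 0 0), .pol, (.pol), (.pol), .pol⟩]⟩, ⟨[.one
 ⟨8000000, 277, 1104000, 446333, 0, 0, 0, 285000, 0, 240000⟩ ⟨240000, (.aff 2000000 500000), (.pol), (.pol),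
 (.pol), (.pol), (.aff 0 2000000 500000), (.pol), (.pol), (.pol)⟩, .one ⟨8000000, 277, 1104000, 50976, 94885,
 0, 0, 285000, 240000, 783000⟩ ⟨0, .pol, .pol, .pol, .pol, (.sy 511500 (.sy 375750 (.sx 142500 (.aff 3100000
 7540289 584859) (.aff 1000000 0 0)) (.sx 142500 (.aff 3000000 7057658 566761) (.aff 1000000 0 0))) (.aff
 5400000 9377375 2064544)), .pol, (.pol), (.sx 142500 (.pol) (.sx 213750 (.pol) (.sy 511500 (.pol) (.pol)))),
 .pol⟩], [.one ⟨8000000, 277, 312000, 126133, 72000, 0, 250000, 300000, 0, 300000⟩ ⟨0, .pol, .pol, .pol, .pol,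
 (.aff 1000000 0 0), .pol, (.pol), (.sy 150000 (.pol) (.pol)), .pol⟩, .one ⟨8000000, 277, 312000, 289600,
 22960, 0, 250000, 300000, 300000, 550000⟩ ⟨0, .pol, .pol, .pol, .pol, (.aff 1000000 0 0), .pol, (.pol),
 (.pol), .pol⟩, .one ⟨8000000, 277, 312000, 396974, -36097, 0, 250000, 300000, 550000, 788000⟩ ⟨0, .pol, .pol,
 .pol, .pol, (.aff 1000000 0 0), .pol, (.pol), (.pol), .pol⟩]⟩] = true := by decide +kernel

theorem II_xQ44 : PropII xQ44 := propII_of cQ44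

theorem cQ45 : chkII xQ45 ⟨765000, 770000, 876070, 874644, 877498, 482176, 484775, 479591, 484767, 479583⟩
 [⟨[.one ⟨8000000, 321, 1104000, 257000, 0, 0, 0, 300000, 0, 240000⟩ ⟨60000, (.aff 2000000 500000), (.pol),
 (.pol), (.pol), (.aff 500000 408249 612372), (.sx 30000 (.sy 150000 (.sy 105000 (.aff 0 2345208 426402) (.sy
 127500 (.aff 75000 2575092 332270) (.aff 137000 2624713 283753))) (.aff 250000 2704164 208013)) (.aff 250000
 1267732 443706)), (.pol), (.pol), (.pol)⟩, .one ⟨8000000, 321, 1104000, -360074, 148097, 0, 0, 300000,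
 240000, 783000⟩ ⟨0, .pol, .pol, .pol, .pol, (.aff 2050000 3701433 297858), .pol, (.aff 3000000 5734109
 697581), (.sx 150000 (.pol) (.sx 225000 (.pol) (.sx 262500 (.sy 511500 (.sy 375750 (.pol) (.pol)) (.pol))
 (.sy 511500 (.pol) (.pol))))), .pol⟩], [.one ⟨8000000, 321, 288000, 0, 51680, 0, 250000, 300000, 0, 300000⟩
 ⟨0, .pol, .pol, .pol, .pol, (.sy 150000 (.sy 75000 (.sy 37500 (.sy 18750 (.aff 1100000 15117 661507) (.aff
 1000000 0 0)) (.aff 1000000 0 0)) (.aff 1000000 0 0)) (.aff 1000000 0 0)), .pol, (.pol), (.sy 150000 (.pol)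
 (.pol)), .pol⟩, .two ⟨8000000, 321, 288000, -522880, 208544, 0, 250000, 300000, 300000, 450000⟩ ⟨0, .pol,
 .pol, .pol, .pol, (.aff 1000000 0 0), .pol, (.pol), (.pol), .pol⟩ ⟨8000000, 321, 288000, -522880, 208544, 0,
 250000, 300000, 450000, 550000⟩ ⟨0, .pol, .pol, .pol, .pol, (.aff 1000000 0 0), .pol, (.pol), (.pol), .pol⟩,
 .one ⟨8000000, 321, 288000, 401008, -299595, 0, 250000, 300000, 550000, 788000⟩ ⟨0, .pol, .pol, .pol, .pol,
 (.aff 1000000 0 0), .pol, (.aff 1000000 0 0), (.pol), .pol⟩]⟩, ⟨[.one ⟨4000000, 0, 744000, 10333, 0, 0, 0,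
 300000, 0, 240000⟩ ⟨240000, (.pol), (.pol), (.pol), (.pol), (.pol), (.pol), (.pol), (.pol), (.pol)⟩, .one
 ⟨4000000, 0, 744000, -100479, 26594, 0, 0, 300000, 240000, 783000⟩ ⟨0, .pol, .pol, .pol, .pol, (.sx 150000
 (.sx 75000 (.sx 37500 (.sy 511500 (.sx 18750 (.sy 375750 (.sx 9375 (.sy 307875 (.sx 4687 (.sy 273937 (.sx
 2343 (.sy 256968 (.pol) (.sx 1171 (.sy 265452 (.sx 585 (.inf 23906828 41830) (.pol)) (.inf 17169696 58243))
 (.sy 265452 (.pol) (.sx 1757 (.sy 269694 (.pol) (.sx 1464 (.inf 14363551 69621) (.pol))) (.pol))))) (.pol))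
 (.sx 2343 (.sy 290906 (.sx 1171 (.inf 21962685 45532) (.sy 282421 (.sx 1757 (.inf 13784520 72546) (.sy 278179
 (.sx 2050 (.sy 276058 (.pol) (.inf 12065806 82879)) (.pol)) (.inf 11693234 85520))) (.inf 12773218 78289)))
 (.inf 15986297 62554)) (.sy 290906 (.sx 3515 (.sy 282421 (.sx 2929 (.sy 278179 (.pol) (.sx 2636 (.sy 280300
 (.pol) (.inf 10631034 94065)) (.pol))) (.pol)) (.sx 2929 (.inf 10000000 100000) (.sy 286663 (.sx 3222 (.sy
 284542 (.pol) (.sx 3075 (.inf 9753841 102524) (.pol))) (.pol)) (.sx 3222 (.inf 9690119 103198) (.sy 288784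
 (.sx 3368 (.inf 9344584 107014) (.pol)) (.inf 9276084 107805)))))) (.sy 282421 (.pol) (.sx 4101 (.sy 286663
 (.pol) (.sx 3808 (.sy 288784 (.pol) (.sx 3661 (.inf 8987869 111262) (.pol))) (.pol))) (.pol)))) (.sx 3515
 (.inf 10110191 98911) (.sy 299390 (.sx 4101 (.sy 295148 (.sx 3808 (.inf 8945906 111783) (.sy 293027 (.sx 3954
 (.inf 8673507 115294) (.pol)) (.inf 8623678 115960))) (.inf 8835403 113182)) (.sy 295148 (.sx 4394 (.sy
 293027 (.pol) (.sx 4247 (.inf 8393867 119135) (.pol))) (.pol)) (.sx 4394 (.inf 8365813 119535) (.sy 297269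
 (.sx 4540 (.inf 8143120 122804) (.pol)) (.inf 8105808 123369))))) (.inf 8604572 116218)))))) (.sy 273937
 (.pol) (.sx 7031 (.sy 290906 (.pol) (.sx 5859 (.sy 299390 (.sx 5273 (.sy 295148 (.pol) (.sx 4980 (.sy 297269
 (.pol) (.sx 4833 (.inf 7916708 126316) (.pol))) (.pol))) (.pol)) (.sx 5273 (.inf 7808354 128068) (.sy 303632
 (.pol) (.inf 7411637 134923)))) (.pol))) (.pol)))) (.sx 4687 (.inf 12077068 82802) (.sy 341812 (.sx 7031 (.sy
 324843 (.sx 5859 (.inf 7745710 129104) (.sy 316359 (.sx 6445 (.inf 7122797 140395) (.sy 312117 (.pol) (.inf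
 6829106 146433))) (.inf 7052953 141785))) (.inf 7542648 132580)) (.sy 324843 (.sx 8203 (.sy 316359 (.pol)
 (.inf 6487696 154138)) (.pol)) (.inf 6374546 156874))) (.inf 7143420 139989)))) (.sy 307875 (.pol) (.sx 14062
 (.sy 341812 (.sx 11718 (.sy 324843 (.pol) (.sy 333327 (.pol) (.inf 5657538 176756))) (.pol)) (.sx 11718 (.inf
 5832578 171451) (.sy 358781 (.sx 12890 (.inf 5335741 187416) (.pol)) (.inf 5337817 187343)))) (.sy 341812
 (.pol) (.sx 16406 (.sy 358781 (.pol) (.inf 4910019 203666)) (.pol)))))) (.inf 5503163 181714)) (.sy 375750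
 (.pol) (.sx 28125 (.sy 443625 (.sx 23437 (.inf 4000000 250000) (.sy 409687 (.pol) (.inf 4068076 245817)))
 (.inf 4513979 221535)) (.sy 443625 (.pol) (.inf 3815008 262123))))) (.inf 5875373 170202)) (.sy 511500 (.pol)
 (.inf 2713719 368498))) (.pol)) (.pol)), .pol, (.pol), (.sx 150000 (.sx 75000 (.sx 37500 (.sy 511500 (.sx
 18750 (.sy 375750 (.sx 9375 (.sy 307875 (.sx 4687 (.sy 273937 (.sx 2343 (.sy 256968 (.pol) (.sx 1171 (.sy
 265452 (.sx 585 (.inf 23906828 41830) (.pol)) (.inf 17169696 58243)) (.sy 265452 (.pol) (.sx 1757 (.sy 269694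
 (.pol) (.sx 1464 (.inf 14363551 69621) (.pol))) (.pol))))) (.pol)) (.sx 2343 (.sy 290906 (.sx 1171 (.inf
 21962685 45532) (.sy 282421 (.sx 1757 (.inf 13784520 72546) (.sy 278179 (.sx 2050 (.sy 276058 (.pol) (.inf
 12065806 82879)) (.pol)) (.inf 11693234 85520))) (.inf 12773218 78289))) (.inf 15986297 62554)) (.sy 290906
 (.sx 3515 (.sy 282421 (.sx 2929 (.sy 278179 (.pol) (.sx 2636 (.sy 280300 (.pol) (.inf 10631034 94065))
 (.pol))) (.pol)) (.sx 2929 (.inf 10000000 100000) (.sy 286663 (.sx 3222 (.sy 284542 (.pol) (.sx 3075 (.inf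
 9753841 102524) (.pol))) (.pol)) (.sx 3222 (.inf 9690119 103198) (.sy 288784 (.sx 3368 (.inf 9344584 107014)
 (.pol)) (.inf 9276084 107805)))))) (.sy 282421 (.pol) (.sx 4101 (.sy 286663 (.pol) (.sx 3808 (.sy 288784
 (.pol) (.sx 3661 (.inf 8987869 111262) (.pol))) (.pol))) (.pol)))) (.sx 3515 (.inf 10110191 98911) (.sy
 299390 (.sx 4101 (.sy 295148 (.sx 3808 (.inf 8945906 111783) (.sy 293027 (.sx 3954 (.inf 8673507 115294)
 (.pol)) (.inf 8623678 115960))) (.inf 8835403 113182)) (.sy 295148 (.sx 4394 (.sy 293027 (.pol) (.sx 4247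
 (.inf 8393867 119135) (.pol))) (.pol)) (.sx 4394 (.inf 8365813 119535) (.sy 297269 (.sx 4540 (.inf 8143120
 122804) (.pol)) (.inf 8105808 123369))))) (.inf 8604572 116218)))))) (.sy 273937 (.pol) (.sx 7031 (.sy 290906
 (.pol) (.sx 5859 (.sy 299390 (.sx 5273 (.sy 295148 (.pol) (.sx 4980 (.sy 297269 (.pol) (.sx 4833 (.inf
 7916708 126316) (.pol))) (.pol))) (.pol)) (.sx 5273 (.inf 7808354 128068) (.sy 303632 (.pol) (.inf 7411637
 134923)))) (.pol))) (.pol)))) (.sx 4687 (.inf 12077068 82802) (.sy 341812 (.sx 7031 (.sy 324843 (.sx 5859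
 (.inf 7745710 129104) (.sy 316359 (.sx 6445 (.inf 7122797 140395) (.sy 312117 (.pol) (.inf 6829106 146433)))
 (.inf 7052953 141785))) (.inf 7542648 132580)) (.sy 324843 (.sx 8203 (.sy 316359 (.pol) (.inf 6487696
 154138)) (.pol)) (.inf 6374546 156874))) (.inf 7143420 139989)))) (.sy 307875 (.pol) (.sx 14062 (.sy 341812
 (.sx 11718 (.sy 324843 (.pol) (.sy 333327 (.pol) (.inf 5657538 176756))) (.pol)) (.sx 11718 (.inf 5832578
 171451) (.sy 358781 (.sx 12890 (.inf 5335741 187416) (.pol)) (.inf 5337817 187343)))) (.sy 341812 (.pol) (.sx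
 16406 (.sy 358781 (.pol) (.inf 4910019 203666)) (.pol)))))) (.inf 5503163 181714)) (.sy 375750 (.pol) (.sx
 28125 (.sy 443625 (.sx 23437 (.inf 4000000 250000) (.sy 409687 (.pol) (.inf 4068076 245817))) (.inf 4513979
 221535)) (.sy 443625 (.pol) (.inf 3815008 262123))))) (.inf 5875373 170202)) (.sy 511500 (.pol) (.inf 2713719
 368498))) (.pol)) (.pol)), .pol⟩], [.one ⟨4000000, 0, 0, 133, 200, 0, 250000, 300000, 0, 300000⟩ ⟨0, .pol,
 .pol, .pol, .pol, (.pol), .pol, (.pol), (.pol), .pol⟩, .one ⟨4000000, 0, 0, 480, 96, 0, 250000, 300000,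
 300000, 550000⟩ ⟨0, .pol, .pol, .pol, .pol, (.pol), .pol, (.pol), (.pol), .pol⟩, .one ⟨4000000, 0, 0, 336,
 175, 0, 250000, 300000, 550000, 788000⟩ ⟨0, .pol, .pol, .pol, .pol, (.pol), .pol, (.pol), (.pol), .pol⟩]⟩,
 ⟨[.one ⟨8000000, 263, 1184000, 228000, 0, 0, 0, 300000, 0, 240000⟩ ⟨240000, (.aff 3162278 316228), (.pol),
 (.pol), (.pol), (.pol), (.aff 1000000 0 0), (.pol), (.pol), (.pol)⟩, .one ⟨8000000, 263, 1184000, -430940,
 158145, 0, 0, 300000, 240000, 783000⟩ ⟨0, .pol, .pol, .pol, .pol, (.sy 511500 (.sx 150000 (.sy 375750 (.aff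
 2200000 5129448 280732) (.aff 2800000 6191059 523336)) (.aff 1000000 0 0)) (.aff 3000000 5875373 680808)),
 .pol, (.aff 5000000 8109254 1973055), (.sx 150000 (.pol) (.sy 511500 (.sy 375750 (.pol) (.pol)) (.pol))),
 .pol⟩], [.one ⟨8000000, 263, 360000, 0, 11360, 0, 250000, 300000, 0, 300000⟩ ⟨0, .pol, .pol, .pol, .pol,
 (.aff 1000000 0 0), .pol, (.pol), (.sy 150000 (.pol) (.pol)), .pol⟩, .two ⟨8000000, 263, 360000, -428160,
 139808, 0, 250000, 300000, 300000, 450000⟩ ⟨0, .pol, .pol, .pol, .pol, (.aff 1000000 0 0), .pol, (.pol),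
 (.pol), .pol⟩ ⟨8000000, 263, 360000, -428160, 139808, 0, 250000, 300000, 450000, 550000⟩ ⟨0, .pol, .pol,
 .pol, .pol, (.aff 1000000 0 0), .pol, (.pol), (.pol), .pol⟩, .one ⟨8000000, 263, 360000, 301512, -261512, 0,
 250000, 300000, 550000, 788000⟩ ⟨0, .pol, .pol, .pol, .pol, (.aff 1000000 0 0), .pol, (.aff 1500000 779861
 320570), (.pol), .pol⟩]⟩, ⟨[.one ⟨3000000, 132, 408000, 119125, 0, 0, 0, 300000, 0, 240000⟩ ⟨120000, (.sp
 250000 (.aff 2309402 433013) (.aff 1511858 661438)), (.pol), (.pol), (.pol), (.aff 1000000 0 0), (.aff 150000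
 2082067 347011), (.pol), (.pol), (.pol)⟩, .one ⟨3000000, 132, 408000, -202376, 77160, 0, 0, 300000, 240000,
 783000⟩ ⟨0, .pol, .pol, .pol, .pol, (.sy 511500 (.sy 375750 (.sx 150000 (.aff 2150000 4024652 328600) (.aff
 1000000 0 0)) (.sy 443625 (.sy 409687 (.sx 150000 (.sx 75000 (.aff 2000000 3952610 252998) (.aff 1000000 0
 0)) (.aff 1000000 0 0)) (.sy 426656 (.sy 418171 (.sx 150000 (.sx 75000 (.aff 2300000 4319075 391288) (.aff
 1000000 0 0)) (.aff 1000000 0 0)) (.sx 150000 (.sy 422413 (.aff 2225000 4101059 365912) (.aff 2213000 4081330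
 360513)) (.aff 1000000 0 0))) (.sy 435140 (.sx 150000 (.aff 2194000 4047399 352236) (.aff 1000000 0 0)) (.sx
 150000 (.aff 2175000 4022015 343267) (.aff 1000000 0 0))))) (.sy 477562 (.sy 460593 (.sy 452109 (.sx 150000
 (.sx 75000 (.aff 2700000 4796917 602471) (.aff 1000000 0 0)) (.aff 1000000 0 0)) (.sx 150000 (.sx 75000 (.aff
 3064000 5220186 816082) (.aff 1000000 0 0)) (.aff 1000000 0 0))) (.sx 150000 (.aff 2950000 4876703 779728)
 (.aff 1000000 0 0))) (.sx 150000 (.aff 2900000 4878876 739925) (.aff 1000000 0 0))))) (.sx 150000 (.aff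
 3000000 4797222 833816) (.aff 1500000 848037 294799))), .pol, (.aff 7500000 10759415 3926794), (.sy 511500
 (.sx 150000 (.pol) (.sy 375750 (.sx 225000 (.pol) (.pol)) (.pol))) (.pol)), .pol⟩], [.one ⟨3000000, 132,
 240000, 0, -9150, 0, 250000, 300000, 0, 300000⟩ ⟨0, .pol, .pol, .pol, .pol, (.aff 1000000 0 0), .pol, (.pol),
 (.sy 150000 (.pol) (.pol)), .pol⟩, .two ⟨3000000, 132, 240000, -215040, 55362, 0, 250000, 300000, 300000,
 450000⟩ ⟨0, .pol, .pol, .pol, .pol, (.aff 1000000 0 0), .pol, (.pol), (.pol), .pol⟩ ⟨3000000, 132, 240000,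
 -215040, 55362, 0, 250000, 300000, 450000, 550000⟩ ⟨0, .pol, .pol, .pol, .pol, (.aff 1000000 0 0), .pol,
 (.pol), (.pol), .pol⟩, .one ⟨3000000, 132, 240000, 145714, -143053, 0, 250000, 300000, 550000, 788000⟩ ⟨0,
 .pol, .pol, .pol, .pol, (.aff 1000000 0 0), .pol, (.aff 1976000 1526516 624020), (.pol), .pol⟩]⟩, ⟨[.one
 ⟨8000000, 121, 488000, 180333, 0, 0, 0, 300000, 0, 240000⟩ ⟨240000, (.aff 3162278 316228), (.pol), (.pol),
 (.pol), (.pol), (.aff 1000000 0 0), (.pol), (.pol), (.pol)⟩, .one ⟨8000000, 121, 488000, 68508, 26838, 0, 0,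
 300000, 240000, 783000⟩ ⟨0, .pol, .pol, .pol, .pol, (.aff 2600000 6233472 410687), .pol, (.pol), (.sx 150000
 (.pol) (.sy 511500 (.sx 225000 (.pol) (.pol)) (.pol))), .pol⟩], [.one ⟨8000000, 121, 320000, 59466, -18000,
 0, 250000, 300000, 0, 300000⟩ ⟨0, .pol, .pol, .pol, .pol, (.aff 1000000 0 0), .pol, (.pol), (.sy 150000
 (.pol) (.pol)), .pol⟩, .one ⟨8000000, 121, 320000, 134080, -40384, 0, 250000, 300000, 300000, 550000⟩ ⟨0,
 .pol, .pol, .pol, .pol, (.aff 1000000 0 0), .pol, (.pol), (.pol), .pol⟩, .one ⟨8000000, 121, 320000, 175798,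
 -63330, 0, 250000, 300000, 550000, 788000⟩ ⟨0, .pol, .pol, .pol, .pol, (.aff 1000000 0 0), .pol, (.pol),
 (.pol), .pol⟩]⟩, ⟨[.one ⟨8000000, 277, 1104000, 446000, 0, 0, 0, 300000, 0, 240000⟩ ⟨240000, (.aff 2000000
 500000), (.pol), (.pol), (.pol), (.pol), (.aff 0 2000000 500000), (.pol), (.pol), (.pol)⟩, .one ⟨8000000,
 277, 1104000, 39484, 97563, 0, 0, 300000, 240000, 783000⟩ ⟨0, .pol, .pol, .pol, .pol, (.sy 511500 (.sy 375750
 (.sx 150000 (.aff 3100000 7349365 600052) (.aff 1000000 0 0)) (.sx 150000 (.aff 3100000 7222902 610558) (.aff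
 1000000 0 0))) (.aff 5700000 9763112 2262599)), .pol, (.pol), (.sx 150000 (.pol) (.sx 225000 (.pol) (.sy
 511500 (.pol) (.pol)))), .pol⟩], [.one ⟨8000000, 277, 312000, 127200, 71200, 0, 250000, 300000, 0, 300000⟩
 ⟨0, .pol, .pol, .pol, .pol, (.aff 1000000 0 0), .pol, (.pol), (.sy 150000 (.pol) (.pol)), .pol⟩, .one
 ⟨8000000, 277, 312000, 292480, 21616, 0, 250000, 300000, 300000, 550000⟩ ⟨0, .pol, .pol, .pol, .pol, (.aff
 1000000 0 0), .pol, (.pol), (.pol), .pol⟩, .one ⟨8000000, 277, 312000, 398991, -36966, 0, 250000, 300000,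
 550000, 788000⟩ ⟨0, .pol, .pol, .pol, .pol, (.aff 1000000 0 0), .pol, (.pol), (.pol), .pol⟩]⟩] = true := by
 decide +kernel

theorem II_xQ45 : PropII xQ45 := propII_of cQ45

theorem cQ46 : chkII xQ46 ⟨770000, 775000, 878919, 877498, 880342, 476962, 479591, 474349, 479583, 474341⟩
 [⟨[.one ⟨2200000, 88, 294800, 71930, 0, 0, 0, 300000, 0, 230000⟩ ⟨57500, (.aff 2000000 500000), (.pol),
 (.pol), (.pol), (.aff 500000 401048 623367), (.sy 143750 (.sy 100625 (.aff 0 2345208 426402) (.sy 122187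
 (.aff 64000 2417432 362408) (.sx 28750 (.aff 160000 2554758 276191) (.aff 1000000 0 0)))) (.aff 300000
 2523886 194146)), (.pol), (.pol), (.pol)⟩, .one ⟨2200000, 88, 294800, -86796, 36506, 0, 0, 300000, 230000,
 778000⟩ ⟨0, .pol, .pol, .pol, .pol, (.aff 1900000 2849615 284249), .pol, (.aff 3000000 5722471 698999), (.sx
 150000 (.pol) (.sx 225000 (.pol) (.sx 262500 (.sx 243750 (.sx 234375 (.sy 504000 (.sy 367000 (.pol) (.pol))
 (.pol)) (.sy 504000 (.sy 367000 (.pol) (.pol)) (.pol))) (.sy 504000 (.sy 367000 (.pol) (.pol)) (.pol))) (.sy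
 504000 (.pol) (.pol))))), .pol⟩], [.one ⟨2200000, 88, 74800, 0, 14762, 0, 250000, 300000, 0, 300000⟩ ⟨0,
 .pol, .pol, .pol, .pol, (.sy 150000 (.sy 75000 (.sy 37500 (.aff 1100000 14331 697789) (.aff 1000000 0 0))
 (.aff 1000000 0 0)) (.aff 1000000 0 0)), .pol, (.pol), (.sy 150000 (.pol) (.pol)), .pol⟩, .two ⟨2200000, 88,
 74800, -141064, 57081, 0, 250000, 300000, 300000, 450000⟩ ⟨0, .pol, .pol, .pol, .pol, (.aff 1000000 0 0),
 .pol, (.pol), (.pol), .pol⟩ ⟨2200000, 88, 74800, -141064, 57081, 0, 250000, 300000, 450000, 550000⟩ ⟨0, .pol,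
 .pol, .pol, .pol, (.aff 1000000 0 0), .pol, (.pol), (.pol), .pol⟩, .one ⟨2200000, 88, 74800, 110964, -81535,
 0, 250000, 300000, 550000, 778000⟩ ⟨0, .pol, .pol, .pol, .pol, (.aff 1000000 0 0), .pol, (.aff 1000000 0 0),
 (.pol), .pol⟩]⟩, ⟨[.one ⟨4000000, 0, 744000, 10608, 0, 0, 0, 300000, 0, 230000⟩ ⟨230000, (.pol), (.pol),
 (.pol), (.pol), (.pol), (.pol), (.pol), (.pol), (.pol)⟩, .one ⟨4000000, 0, 744000, -91241, 23425, 0, 0,
 300000, 230000, 778000⟩ ⟨0, .pol, .pol, .pol, .pol, (.sx 150000 (.sx 75000 (.sx 37500 (.sy 504000 (.sx 18750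
 (.sy 367000 (.sx 9375 (.sy 298500 (.sx 4687 (.sy 264250 (.sx 2343 (.sy 247125 (.pol) (.sx 1171 (.sy 255687
 (.pol) (.sx 585 (.inf 29812434 33544) (.sy 259968 (.pol) (.inf 17278010 57878)))) (.pol))) (.pol)) (.sx 2343
 (.sy 281375 (.sx 1171 (.inf 21585827 46327) (.sy 272812 (.sx 1757 (.sy 268531 (.sx 1464 (.inf 14219492 70327)
 (.pol)) (.inf 13597239 73545)) (.sy 268531 (.pol) (.sx 2050 (.sy 270671 (.pol) (.inf 11948175 83695))
 (.pol)))) (.inf 12558197 79630))) (.inf 15731896 63566)) (.sy 281375 (.sx 3515 (.sy 272812 (.pol) (.sx 2929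
 (.sy 277093 (.sx 2636 (.sy 274952 (.pol) (.inf 10529705 94970)) (.pol)) (.inf 10000000 100000)) (.sy 277093
 (.pol) (.sx 3222 (.sy 279234 (.pol) (.sx 3075 (.inf 9662950 103489) (.pol))) (.pol))))) (.pol)) (.sx 3515
 (.sy 289937 (.sx 2929 (.inf 10409958 96062) (.sy 285656 (.sx 3222 (.inf 9601312 104153) (.sy 283515 (.sx 3368
 (.inf 9258471 108010) (.pol)) (.inf 9191537 108796))) (.inf 9451049 105809))) (.inf 10022483 99776)) (.sy
 289937 (.sx 4101 (.sy 285656 (.sx 3808 (.sy 283515 (.pol) (.sx 3661 (.inf 8905949 112285) (.pol))) (.pol))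
 (.sx 3808 (.inf 8865705 112795) (.sy 287796 (.sx 3954 (.inf 8595314 116343) (.pol)) (.inf 8546786 117004))))
 (.pol)) (.sx 4101 (.inf 8789953 113767) (.sy 294218 (.sx 4394 (.inf 8292441 120592) (.sy 292077 (.pol) (.inf
 8035100 124454))) (.inf 8212570 121765)))))))) (.sy 264250 (.pol) (.sx 7031 (.sy 281375 (.pol) (.sx 5859 (.sy
 289937 (.pol) (.sx 5273 (.sy 294218 (.pol) (.inf 7714263 129631)) (.pol))) (.pol))) (.pol)))) (.sx 4687 (.inf
 11915892 83922) (.sy 332750 (.sx 7031 (.sy 315625 (.sx 5859 (.inf 7631054 131044) (.sy 307062 (.sx 6445 (.sy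
 302781 (.pol) (.inf 7040214 142042)) (.pol)) (.inf 6950379 143878))) (.inf 7438518 134436)) (.sy 315625 (.sx
 8203 (.sy 307062 (.pol) (.sy 311343 (.pol) (.inf 6415282 155878))) (.pol)) (.sx 8203 (.inf 6523883 153283)
 (.sy 324187 (.sx 8789 (.inf 6136263 162966) (.pol)) (.inf 6113321 163578))))) (.inf 7054203 141760)))) (.sy
 298500 (.pol) (.sx 14062 (.sy 332750 (.pol) (.sx 11718 (.inf 5759733 173620) (.sy 349875 (.pol) (.inf 5273274
 189636)))) (.pol)))) (.inf 5452535 183401)) (.sy 367000 (.pol) (.sx 28125 (.sy 435500 (.sy 401250 (.pol)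
 (.inf 4225005 236687)) (.inf 4476904 223369)) (.sy 435500 (.pol) (.inf 3783675 264294))))) (.inf 5846937
 171030)) (.sy 504000 (.pol) (.inf 2700585 370291))) (.pol)) (.pol)), .pol, (.pol), (.sx 150000 (.sx 75000
 (.sx 37500 (.sy 504000 (.sx 18750 (.sy 367000 (.sx 9375 (.sy 298500 (.sx 4687 (.sy 264250 (.sx 2343 (.sy
 247125 (.pol) (.sx 1171 (.sy 255687 (.pol) (.sx 585 (.inf 29812434 33544) (.sy 259968 (.pol) (.inf 17278010
 57878)))) (.pol))) (.pol)) (.sx 2343 (.sy 281375 (.sx 1171 (.inf 21585827 46327) (.sy 272812 (.sx 1757 (.sy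
 268531 (.sx 1464 (.inf 14219492 70327) (.pol)) (.inf 13597239 73545)) (.sy 268531 (.pol) (.sx 2050 (.sy
 270671 (.pol) (.inf 11948175 83695)) (.pol)))) (.inf 12558197 79630))) (.inf 15731896 63566)) (.sy 281375
 (.sx 3515 (.sy 272812 (.pol) (.sx 2929 (.sy 277093 (.sx 2636 (.sy 274952 (.pol) (.inf 10529705 94970))
 (.pol)) (.inf 10000000 100000)) (.sy 277093 (.pol) (.sx 3222 (.sy 279234 (.pol) (.sx 3075 (.inf 9662950
 103489) (.pol))) (.pol))))) (.pol)) (.sx 3515 (.sy 289937 (.sx 2929 (.inf 10409958 96062) (.sy 285656 (.sx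
 3222 (.inf 9601312 104153) (.sy 283515 (.sx 3368 (.inf 9258471 108010) (.pol)) (.inf 9191537 108796))) (.inf
 9451049 105809))) (.inf 10022483 99776)) (.sy 289937 (.sx 4101 (.sy 285656 (.sx 3808 (.sy 283515 (.pol) (.sx
 3661 (.inf 8905949 112285) (.pol))) (.pol)) (.sx 3808 (.inf 8865705 112795) (.sy 287796 (.sx 3954 (.inf
 8595314 116343) (.pol)) (.inf 8546786 117004)))) (.pol)) (.sx 4101 (.inf 8789953 113767) (.sy 294218 (.sx
 4394 (.inf 8292441 120592) (.sy 292077 (.pol) (.inf 8035100 124454))) (.inf 8212570 121765)))))))) (.sy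
 264250 (.pol) (.sx 7031 (.sy 281375 (.pol) (.sx 5859 (.sy 289937 (.pol) (.sx 5273 (.sy 294218 (.pol) (.inf
 7714263 129631)) (.pol))) (.pol))) (.pol)))) (.sx 4687 (.inf 11915892 83922) (.sy 332750 (.sx 7031 (.sy
 315625 (.sx 5859 (.inf 7631054 131044) (.sy 307062 (.sx 6445 (.sy 302781 (.pol) (.inf 7040214 142042))
 (.pol)) (.inf 6950379 143878))) (.inf 7438518 134436)) (.sy 315625 (.sx 8203 (.sy 307062 (.pol) (.sy 311343
 (.pol) (.inf 6415282 155878))) (.pol)) (.sx 8203 (.inf 6523883 153283) (.sy 324187 (.sx 8789 (.inf 6136263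
 162966) (.pol)) (.inf 6113321 163578))))) (.inf 7054203 141760)))) (.sy 298500 (.pol) (.sx 14062 (.sy 332750
 (.pol) (.sx 11718 (.inf 5759733 173620) (.sy 349875 (.pol) (.inf 5273274 189636)))) (.pol)))) (.inf 5452535
 183401)) (.sy 367000 (.pol) (.sx 28125 (.sy 435500 (.sy 401250 (.pol) (.inf 4225005 236687)) (.inf 4476904
 223369)) (.sy 435500 (.pol) (.inf 3783675 264294))))) (.inf 5846937 171030)) (.sy 504000 (.pol) (.inf 2700585
 370291))) (.pol)) (.pol)), .pol⟩], [.one ⟨4000000, 0, 0, 133, 200, 0, 250000, 300000, 0, 300000⟩ ⟨0, .pol,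
 .pol, .pol, .pol, (.pol), .pol, (.pol), (.pol), .pol⟩, .one ⟨4000000, 0, 0, 480, 96, 0, 250000, 300000,
 300000, 550000⟩ ⟨0, .pol, .pol, .pol, .pol, (.pol), .pol, (.pol), (.pol), .pol⟩, .one ⟨4000000, 0, 0, 350,
 167, 0, 250000, 300000, 550000, 778000⟩ ⟨0, .pol, .pol, .pol, .pol, (.pol), .pol, (.pol), (.pol), .pol⟩]⟩,
 ⟨[.one ⟨8000000, 269, 1144000, 246260, 0, 0, 0, 300000, 0, 230000⟩ ⟨230000, (.aff 3162278 316228), (.pol),
 (.pol), (.pol), (.pol), (.aff 1000000 0 0), (.pol), (.pol), (.pol)⟩, .one ⟨8000000, 269, 1144000, -436935,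
 157134, 0, 0, 300000, 230000, 778000⟩ ⟨0, .pol, .pol, .pol, .pol, (.sy 504000 (.sx 150000 (.sy 367000 (.aff
 2200000 5050747 285107) (.sy 435500 (.sy 401250 (.sx 75000 (.aff 2100000 4978842 243029) (.aff 1000000 0 0))
 (.aff 2250000 5099601 306397)) (.aff 3000000 6113525 654288))) (.aff 1000000 0 0)) (.aff 3000000 5846937
 684119)), .pol, (.aff 5000000 8092796 1977068), (.sx 150000 (.pol) (.sy 504000 (.sy 367000 (.pol) (.pol))
 (.pol))), .pol⟩], [.one ⟨8000000, 269, 320000, 0, 22000, 0, 250000, 300000, 0, 300000⟩ ⟨0, .pol, .pol, .pol,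
 .pol, (.aff 1000000 0 0), .pol, (.pol), (.sy 150000 (.pol) (.pol)), .pol⟩, .two ⟨8000000, 269, 320000,
 -429760, 150928, 0, 250000, 300000, 300000, 450000⟩ ⟨0, .pol, .pol, .pol, .pol, (.aff 1000000 0 0), .pol,
 (.pol), (.pol), .pol⟩ ⟨8000000, 269, 320000, -429760, 150928, 0, 250000, 300000, 450000, 550000⟩ ⟨0, .pol,
 .pol, .pol, .pol, (.aff 1000000 0 0), .pol, (.pol), (.pol), .pol⟩, .one ⟨8000000, 269, 320000, 318947,
 -260862, 0, 250000, 300000, 550000, 778000⟩ ⟨0, .pol, .pol, .pol, .pol, (.aff 1000000 0 0), .pol, (.aff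
 1000000 0 0), (.pol), .pol⟩]⟩, ⟨[.one ⟨4000000, 179, 516000, 161391, 0, 0, 0, 300000, 0, 230000⟩ ⟨11500,
 (.aff 2000000 500000), (.pol), (.pol), (.pol), (.sx 155750 (.sx 83625 (.sx 47562 (.sy 115000 (.sy 57500 (.aff
 0 1445896 691613) (.sx 29531 (.aff 25000 1999140 475517) (.aff 75000 1627287 525799))) (.aff 200000 1933506
 331005)) (.sy 115000 (.aff 250000 702207 801046) (.aff 1000000 0 0))) (.aff 500000 490112 510088)) (.aff
 1000000 0 0)), (.sy 120750 (.aff 0 1963248 509360) (.aff 0 4509250 221767)), (.pol), (.sy 115000 (.sy 57500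
 (.pol) (.sx 155750 (.sy 86250 (.sx 83625 (.sx 47562 (.pol) (.pol)) (.pol)) (.sx 83625 (.pol) (.pol)))
 (.pol))) (.sy 172500 (.sx 155750 (.sx 83625 (.pol) (.pol)) (.pol)) (.sx 155750 (.pol) (.pol)))), (.pol)⟩,
 .one ⟨4000000, 179, 516000, -249855, 94586, 0, 0, 300000, 230000, 778000⟩ ⟨0, .pol, .pol, .pol, .pol, (.sy
 504000 (.sy 367000 (.sx 150000 (.sx 75000 (.aff 1900000 3590989 225565) (.aff 1000000 0 0)) (.aff 1000000 0
 0)) (.sy 435500 (.sy 401250 (.sx 150000 (.sx 75000 (.sx 37500 (.aff 2100000 4065208 297648) (.aff 1000000 0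
 0)) (.aff 1000000 0 0)) (.aff 1000000 0 0)) (.sy 418375 (.sy 409812 (.sx 150000 (.sx 75000 (.aff 2200000
 3946187 364910) (.aff 1000000 0 0)) (.aff 1000000 0 0)) (.sx 150000 (.aff 2156000 3841417 347876) (.aff
 1000000 0 0))) (.sx 150000 (.aff 2125000 3795938 333416) (.aff 1000000 0 0)))) (.sy 469750 (.sx 150000 (.aff
 2069000 3713910 307698) (.aff 1000000 0 0)) (.sx 150000 (.sx 75000 (.aff 3000000 5884066 679803) (.aff
 1000000 0 0)) (.aff 1000000 0 0))))) (.aff 2250000 3654336 427575)), .pol, (.aff 7400000 10572384 3874245),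
 (.sx 150000 (.pol) (.sy 504000 (.sy 367000 (.sx 225000 (.pol) (.pol)) (.pol)) (.pol))), .pol⟩], [.one
 ⟨4000000, 179, 272000, 0, -200, 0, 250000, 300000, 0, 300000⟩ ⟨0, .pol, .pol, .pol, .pol, (.aff 1000000 0 0),
 .pol, (.pol), (.sy 150000 (.pol) (.pol)), .pol⟩, .two ⟨4000000, 179, 272000, -286080, 85624, 0, 250000,
 300000, 300000, 450000⟩ ⟨0, .pol, .pol, .pol, .pol, (.aff 1000000 0 0), .pol, (.pol), (.pol), .pol⟩ ⟨4000000,
 179, 272000, -286080, 85624, 0, 250000, 300000, 450000, 550000⟩ ⟨0, .pol, .pol, .pol, .pol, (.aff 1000000 0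
 0), .pol, (.pol), (.pol), .pol⟩, .one ⟨4000000, 179, 272000, 198771, -181045, 0, 250000, 300000, 550000,
 778000⟩ ⟨0, .pol, .pol, .pol, .pol, (.aff 1000000 0 0), .pol, (.aff 2000000 1519726 658014), (.pol), .pol⟩]⟩,
 ⟨[.one ⟨8000000, 121, 488000, 181217, 0, 0, 0, 300000, 0, 230000⟩ ⟨230000, (.aff 3162278 316228), (.pol),
 (.pol), (.pol), (.pol), (.aff 1000000 0 0), (.pol), (.pol), (.pol)⟩, .one ⟨8000000, 121, 488000, 72262,
 25059, 0, 0, 300000, 230000, 778000⟩ ⟨0, .pol, .pol, .pol, .pol, (.aff 2500000 5800878 387873), .pol, (.pol),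
 (.sx 150000 (.pol) (.sy 504000 (.sx 225000 (.pol) (.pol)) (.pol))), .pol⟩], [.one ⟨8000000, 121, 320000,
 60000, -18320, 0, 250000, 300000, 0, 300000⟩ ⟨0, .pol, .pol, .pol, .pol, (.aff 1000000 0 0), .pol, (.pol),
 (.sy 150000 (.pol) (.pol)), .pol⟩, .one ⟨8000000, 121, 320000, 135040, -40832, 0, 250000, 300000, 300000,
 550000⟩ ⟨0, .pol, .pol, .pol, .pol, (.aff 1000000 0 0), .pol, (.pol), (.pol), .pol⟩, .one ⟨8000000, 121,
 320000, 176842, -63824, 0, 250000, 300000, 550000, 778000⟩ ⟨0, .pol, .pol, .pol, .pol, (.aff 1000000 0 0),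
 .pol, (.pol), (.pol), .pol⟩]⟩, ⟨[.one ⟨8000000, 277, 1104000, 449391, 0, 0, 0, 300000, 0, 230000⟩ ⟨230000,
 (.aff 2000000 500000), (.pol), (.pol), (.pol), (.pol), (.aff 0 2000000 500000), (.pol), (.pol), (.pol)⟩, .one
 ⟨8000000, 277, 1104000, 47445, 92447, 0, 0, 300000, 230000, 778000⟩ ⟨0, .pol, .pol, .pol, .pol, (.sy 504000
 (.sy 367000 (.sx 150000 (.aff 3100000 7236603 609402) (.aff 1000000 0 0)) (.sx 150000 (.aff 3100000 7156452
 616228) (.aff 1000000 0 0))) (.aff 3300000 6723977 786737)), .pol, (.pol), (.sx 150000 (.pol) (.sx 225000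
 (.pol) (.sy 504000 (.pol) (.pol)))), .pol⟩], [.one ⟨8000000, 277, 312000, 128000, 70480, 0, 250000, 300000,
 0, 300000⟩ ⟨0, .pol, .pol, .pol, .pol, (.aff 1000000 0 0), .pol, (.pol), (.sy 150000 (.pol) (.pol)), .pol⟩,
 .one ⟨8000000, 277, 312000, 295040, 20368, 0, 250000, 300000, 300000, 550000⟩ ⟨0, .pol, .pol, .pol, .pol,
 (.aff 1000000 0 0), .pol, (.pol), (.pol), .pol⟩, .one ⟨8000000, 277, 312000, 401754, -38325, 0, 250000,
 300000, 550000, 778000⟩ ⟨0, .pol, .pol, .pol, .pol, (.aff 1000000 0 0), .pol, (.pol), (.pol), .pol⟩]⟩] = true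
 := by decide +kernel

theorem II_xQ46 : PropII xQ46 := propII_of cQ46

theorem cQ47 : chkII xQ47 ⟨775000, 780000, 881758, 880342, 883178, 471692, 474350, 469050, 474341, 469041⟩
 [⟨[.one ⟨8000000, 319, 1064000, 262956, 0, 0, 0, 300000, 0, 230000⟩ ⟨115000, (.sp 250000 (.aff 2309402
 433013) (.aff 1754117 570088)), (.pol), (.pol), (.pol), (.aff 1000000 0 0), (.sy 172500 (.sx 57500 (.sx 28750
 (.aff 125000 2496847 306637) (.aff 1000000 0 0)) (.aff 1000000 0 0)) (.aff 1000000 0 0)), (.pol), (.pol),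
 (.pol)⟩, .one ⟨8000000, 319, 1064000, -310657, 131931, 0, 0, 300000, 230000, 778000⟩ ⟨0, .pol, .pol, .pol,
 .pol, (.aff 2000000 3166238 315833), .pol, (.aff 3000000 5722471 698999), (.sx 150000 (.pol) (.sx 225000
 (.pol) (.sx 262500 (.sx 243750 (.sy 504000 (.sy 367000 (.pol) (.pol)) (.pol)) (.sy 504000 (.sy 367000 (.pol)
 (.pol)) (.pol))) (.sy 504000 (.pol) (.pol))))), .pol⟩], [.one ⟨8000000, 319, 248000, 0, 58160, 0, 250000,
 300000, 0, 300000⟩ ⟨0, .pol, .pol, .pol, .pol, (.sy 150000 (.sy 75000 (.sy 37500 (.aff 1150000 25138 895060)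
 (.aff 1000000 0 0)) (.aff 1000000 0 0)) (.aff 1000000 0 0)), .pol, (.pol), (.sy 150000 (.pol) (.pol)), .pol⟩,
 .two ⟨8000000, 319, 248000, -504960, 209648, 0, 250000, 300000, 300000, 450000⟩ ⟨0, .pol, .pol, .pol, .pol,
 (.aff 1000000 0 0), .pol, (.pol), (.pol), .pol⟩ ⟨8000000, 319, 248000, -504960, 209648, 0, 250000, 300000,
 450000, 550000⟩ ⟨0, .pol, .pol, .pol, .pol, (.aff 1000000 0 0), .pol, (.pol), (.pol), .pol⟩, .one ⟨8000000,
 319, 248000, 408070, -292519, 0, 250000, 300000, 550000, 778000⟩ ⟨0, .pol, .pol, .pol, .pol, (.aff 1000000 0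
 0), .pol, (.aff 1000000 0 0), (.pol), .pol⟩]⟩, ⟨[.one ⟨4000000, 0, 744000, 10608, 0, 0, 0, 300000, 0, 230000⟩
 ⟨230000, (.pol), (.pol), (.pol), (.pol), (.pol), (.pol), (.pol), (.pol), (.pol)⟩, .one ⟨4000000, 0, 744000,
 -101898, 25876, 0, 0, 300000, 230000, 778000⟩ ⟨0, .pol, .pol, .pol, .pol, (.sx 150000 (.sx 75000 (.sy 504000
 (.sx 37500 (.sy 367000 (.sx 18750 (.sy 298500 (.sx 9375 (.sy 264250 (.sx 4687 (.sy 247125 (.pol) (.sx 2343
 (.sy 255687 (.sx 1171 (.sx 585 (.inf 29317362 34110) (.pol)) (.pol)) (.sx 1171 (.inf 16857257 59322) (.sy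
 259968 (.pol) (.sx 1757 (.sy 262109 (.pol) (.inf 13407738 74584)) (.pol))))) (.pol))) (.pol)) (.sx 4687 (.sy
 281375 (.sx 2343 (.sy 272812 (.sx 1171 (.inf 21415774 46695) (.sy 268531 (.sx 1757 (.inf 13489282 74133) (.sx
 2050 (.inf 11829951 84532) (.pol))) (.inf 12411818 80569))) (.inf 15379494 65022)) (.sy 272812 (.sx 3515 (.sy
 268531 (.pol) (.sx 2929 (.sy 270671 (.pol) (.sx 2636 (.inf 10447730 95715) (.pol))) (.pol))) (.pol)) (.sx
 3515 (.sy 277093 (.sx 2929 (.inf 10213066 97914) (.sy 274952 (.pol) (.sx 3222 (.inf 9473586 105557) (.pol))))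
 (.inf 9763926 102418)) (.sy 277093 (.pol) (.sx 4101 (.sy 279234 (.pol) (.sx 3808 (.inf 8749546 114292)
 (.pol))) (.pol)))))) (.sx 2343 (.inf 15731896 63566) (.sy 289937 (.sx 3515 (.inf 9875566 101261) (.sy 285656
 (.sx 4101 (.inf 8628592 115894) (.sy 283515 (.pol) (.sx 4394 (.inf 8185396 122169) (.pol)))) (.inf 8377181
 119372))) (.inf 9148973 109302)))) (.sy 281375 (.pol) (.sx 7031 (.sy 289937 (.sx 5859 (.sy 285656 (.pol) (.sx
 5273 (.sy 287796 (.pol) (.sx 4980 (.inf 7730681 129355) (.pol))) (.pol))) (.pol)) (.sx 5859 (.sy 294218 (.sx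
 5273 (.inf 7658336 130577) (.sy 292077 (.pol) (.inf 7257241 137794))) (.inf 7496874 133389)) (.sy 294218
 (.pol) (.sx 6445 (.sy 296359 (.pol) (.inf 6953187 143819)) (.pol))))) (.pol))))) (.pol)) (.sx 9375 (.sy
 332750 (.sx 4687 (.inf 11605216 86169) (.sy 315625 (.sx 7031 (.sy 307062 (.sx 5859 (.inf 7577666 131967) (.sy
 302781 (.sx 6445 (.inf 6990619 143049) (.sy 300640 (.pol) (.inf 6691596 149442))) (.inf 6878323 145385)))
 (.inf 7289675 137181)) (.sy 307062 (.sx 8203 (.sy 302781 (.pol) (.sx 7617 (.inf 6452379 154982) (.pol)))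
 (.pol)) (.sx 8203 (.inf 6393342 156413) (.sy 311343 (.pol) (.inf 5972250 167442))))) (.inf 6790310 147269)))
 (.inf 8639445 115749)) (.sy 332750 (.sx 14062 (.sy 315625 (.pol) (.sx 11718 (.sy 324187 (.sx 10546 (.sy
 319906 (.pol) (.inf 5686156 175866)) (.pol)) (.inf 5580752 179188)) (.pol))) (.pol)) (.sx 14062 (.inf 5464123
 183012) (.sy 349875 (.pol) (.inf 4674180 213942)))))) (.pol)) (.sx 18750 (.inf 6815669 146721) (.sy 435500
 (.sx 28125 (.sy 401250 (.sx 23437 (.inf 4267387 234336) (.pol)) (.inf 4225005 236687)) (.pol)) (.inf 4086836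
 244689)))) (.pol)) (.inf 3307527 302341)) (.pol)) (.pol)), .pol, (.pol), (.sx 150000 (.sx 75000 (.sy 504000
 (.sx 37500 (.sy 367000 (.sx 18750 (.sy 298500 (.sx 9375 (.sy 264250 (.sx 4687 (.sy 247125 (.pol) (.sx 2343
 (.sy 255687 (.sx 1171 (.sx 585 (.inf 29317362 34110) (.pol)) (.pol)) (.sx 1171 (.inf 16857257 59322) (.sy
 259968 (.pol) (.sx 1757 (.sy 262109 (.pol) (.inf 13407738 74584)) (.pol))))) (.pol))) (.pol)) (.sx 4687 (.sy
 281375 (.sx 2343 (.sy 272812 (.sx 1171 (.inf 21415774 46695) (.sy 268531 (.sx 1757 (.inf 13489282 74133) (.sx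
 2050 (.inf 11829951 84532) (.pol))) (.inf 12411818 80569))) (.inf 15379494 65022)) (.sy 272812 (.sx 3515 (.sy
 268531 (.pol) (.sx 2929 (.sy 270671 (.pol) (.sx 2636 (.inf 10447730 95715) (.pol))) (.pol))) (.pol)) (.sx
 3515 (.sy 277093 (.sx 2929 (.inf 10213066 97914) (.sy 274952 (.pol) (.sx 3222 (.inf 9473586 105557) (.pol))))
 (.inf 9763926 102418)) (.sy 277093 (.pol) (.sx 4101 (.sy 279234 (.pol) (.sx 3808 (.inf 8749546 114292)
 (.pol))) (.pol)))))) (.sx 2343 (.inf 15731896 63566) (.sy 289937 (.sx 3515 (.inf 9875566 101261) (.sy 285656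
 (.sx 4101 (.inf 8628592 115894) (.sy 283515 (.pol) (.sx 4394 (.inf 8185396 122169) (.pol)))) (.inf 8377181
 119372))) (.inf 9148973 109302)))) (.sy 281375 (.pol) (.sx 7031 (.sy 289937 (.sx 5859 (.sy 285656 (.pol) (.sx
 5273 (.sy 287796 (.pol) (.sx 4980 (.inf 7730681 129355) (.pol))) (.pol))) (.pol)) (.sx 5859 (.sy 294218 (.sx
 5273 (.inf 7658336 130577) (.sy 292077 (.pol) (.inf 7257241 137794))) (.inf 7496874 133389)) (.sy 294218
 (.pol) (.sx 6445 (.sy 296359 (.pol) (.inf 6953187 143819)) (.pol))))) (.pol))))) (.pol)) (.sx 9375 (.sy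
 332750 (.sx 4687 (.inf 11605216 86169) (.sy 315625 (.sx 7031 (.sy 307062 (.sx 5859 (.inf 7577666 131967) (.sy
 302781 (.sx 6445 (.inf 6990619 143049) (.sy 300640 (.pol) (.inf 6691596 149442))) (.inf 6878323 145385)))
 (.inf 7289675 137181)) (.sy 307062 (.sx 8203 (.sy 302781 (.pol) (.sx 7617 (.inf 6452379 154982) (.pol)))
 (.pol)) (.sx 8203 (.inf 6393342 156413) (.sy 311343 (.pol) (.inf 5972250 167442))))) (.inf 6790310 147269)))
 (.inf 8639445 115749)) (.sy 332750 (.sx 14062 (.sy 315625 (.pol) (.sx 11718 (.sy 324187 (.sx 10546 (.sy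
 319906 (.pol) (.inf 5686156 175866)) (.pol)) (.inf 5580752 179188)) (.pol))) (.pol)) (.sx 14062 (.inf 5464123
 183012) (.sy 349875 (.pol) (.inf 4674180 213942)))))) (.pol)) (.sx 18750 (.inf 6815669 146721) (.sy 435500
 (.sx 28125 (.sy 401250 (.sx 23437 (.inf 4267387 234336) (.pol)) (.inf 4225005 236687)) (.pol)) (.inf 4086836
 244689)))) (.pol)) (.inf 3307527 302341)) (.pol)) (.pol)), .pol⟩], [.one ⟨4000000, 0, 0, 133, 200, 0, 250000,
 300000, 0, 300000⟩ ⟨0, .pol, .pol, .pol, .pol, (.pol), .pol, (.pol), (.pol), .pol⟩, .one ⟨4000000, 0, 0, 480,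
 96, 0, 250000, 300000, 300000, 550000⟩ ⟨0, .pol, .pol, .pol, .pol, (.pol), .pol, (.pol), (.pol), .pol⟩, .one
 ⟨4000000, 0, 0, 350, 167, 0, 250000, 300000, 550000, 778000⟩ ⟨0, .pol, .pol, .pol, .pol, (.pol), .pol,
 (.pol), (.pol), .pol⟩]⟩, ⟨[.one ⟨8000000, 269, 1144000, 247652, 0, 0, 0, 300000, 0, 230000⟩ ⟨230000, (.aff
 3162278 316228), (.pol), (.pol), (.pol), (.pol), (.aff 1000000 0 0), (.pol), (.pol), (.pol)⟩, .one ⟨8000000,
 269, 1144000, -457957, 162289, 0, 0, 300000, 230000, 778000⟩ ⟨0, .pol, .pol, .pol, .pol, (.sy 504000 (.sy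
 367000 (.sx 150000 (.aff 2400000 5331789 367607) (.aff 1000000 0 0)) (.sy 435500 (.sx 150000 (.aff 2788000
 5848701 546608) (.aff 1000000 0 0)) (.aff 3600000 6506930 1038893))) (.aff 3000000 5846937 684119)), .pol,
 (.aff 5000000 8092796 1977068), (.sx 150000 (.pol) (.sy 504000 (.sy 367000 (.pol) (.pol)) (.pol))), .pol⟩],
 [.one ⟨8000000, 269, 320000, 0, 20240, 0, 250000, 300000, 0, 300000⟩ ⟨0, .pol, .pol, .pol, .pol, (.aff
 1000000 0 0), .pol, (.pol), (.sy 150000 (.pol) (.pol)), .pol⟩, .two ⟨8000000, 269, 320000, -421120, 146576,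
 0, 250000, 300000, 300000, 450000⟩ ⟨0, .pol, .pol, .pol, .pol, (.aff 1000000 0 0), .pol, (.pol), (.pol),
 .pol⟩ ⟨8000000, 269, 320000, -421120, 146576, 0, 250000, 300000, 450000, 550000⟩ ⟨0, .pol, .pol, .pol, .pol,
 (.aff 1000000 0 0), .pol, (.pol), (.pol), .pol⟩, .one ⟨8000000, 269, 320000, 318947, -260462, 0, 250000,
 300000, 550000, 778000⟩ ⟨0, .pol, .pol, .pol, .pol, (.aff 1000000 0 0), .pol, (.aff 1500000 776941 321775),
 (.pol), .pol⟩]⟩, ⟨[.one ⟨8000000, 359, 1048000, 323130, 0, 0, 0, 300000, 0, 230000⟩ ⟨57500, (.sp 250000 (.aff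
 2828428 353554) (.aff 1511858 661438)), (.pol), (.pol), (.pol), (.aff 375000 501310 779209), (.sy 143750 (.sy
 100625 (.aff 38000 1900391 486976) (.sx 28750 (.aff 113000 2059350 382048) (.aff 1000000 0 0))) (.aff 500000
 1802776 138676)), (.pol), (.sy 115000 (.pol) (.sy 172500 (.pol) (.sy 201250 (.pol) (.sx 178750 (.pol)
 (.pol))))), (.pol)⟩, .one ⟨8000000, 359, 1048000, -515621, 192912, 0, 0, 300000, 230000, 778000⟩ ⟨0, .pol,
 .pol, .pol, .pol, (.sy 504000 (.sy 367000 (.sx 150000 (.aff 2100000 3790602 319211) (.aff 1000000 0 0)) (.sy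
 435500 (.sy 401250 (.sx 150000 (.sx 75000 (.aff 2300000 4160678 406184) (.aff 1000000 0 0)) (.aff 1000000 0
 0)) (.sx 150000 (.aff 2150000 3841184 344295) (.aff 1000000 0 0))) (.sx 150000 (.sx 75000 (.aff 2900000
 4755064 759191) (.aff 1000000 0 0)) (.aff 1000000 0 0)))) (.aff 3475000 5116331 1197270)), .pol, (.aff
 7500000 10737577 3934780), (.sy 504000 (.sx 150000 (.pol) (.sy 367000 (.sx 225000 (.pol) (.pol)) (.pol)))
 (.pol)), .pol⟩], [.one ⟨8000000, 359, 552000, 0, -4240, 0, 250000, 300000, 0, 300000⟩ ⟨0, .pol, .pol, .pol,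
 .pol, (.aff 1000000 0 0), .pol, (.pol), (.sy 150000 (.pol) (.pol)), .pol⟩, .two ⟨8000000, 359, 552000,
 -562880, 164624, 0, 250000, 300000, 300000, 450000⟩ ⟨0, .pol, .pol, .pol, .pol, (.aff 1000000 0 0), .pol,
 (.pol), (.pol), .pol⟩ ⟨8000000, 359, 552000, -562880, 164624, 0, 250000, 300000, 450000, 550000⟩ ⟨0, .pol,
 .pol, .pol, .pol, (.aff 1000000 0 0), .pol, (.pol), (.pol), .pol⟩, .one ⟨8000000, 359, 552000, 396491,
 -363031, 0, 250000, 300000, 550000, 778000⟩ ⟨0, .pol, .pol, .pol, .pol, (.aff 1000000 0 0), .pol, (.aff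
 2000000 1553881 643550), (.pol), .pol⟩]⟩, ⟨[.one ⟨8000000, 121, 488000, 180869, 0, 0, 0, 300000, 0, 230000⟩
 ⟨230000, (.aff 3162278 316228), (.pol), (.pol), (.pol), (.pol), (.aff 1000000 0 0), (.pol), (.pol), (.pol)⟩,
 .one ⟨8000000, 121, 488000, 66569, 26289, 0, 0, 300000, 230000, 778000⟩ ⟨0, .pol, .pol, .pol, .pol, (.aff
 2600000 6187603 413731), .pol, (.pol), (.sx 150000 (.pol) (.sy 504000 (.sx 225000 (.pol) (.pol)) (.pol))),
 .pol⟩], [.one ⟨8000000, 121, 320000, 60266, -18640, 0, 250000, 300000, 0, 300000⟩ ⟨0, .pol, .pol, .pol, .pol,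
 (.aff 1000000 0 0), .pol, (.pol), (.sy 150000 (.pol) (.pol)), .pol⟩, .one ⟨8000000, 121, 320000, 136320,
 -41456, 0, 250000, 300000, 300000, 550000⟩ ⟨0, .pol, .pol, .pol, .pol, (.aff 1000000 0 0), .pol, (.pol),
 (.pol), .pol⟩, .one ⟨8000000, 121, 320000, 177894, -64323, 0, 250000, 300000, 550000, 778000⟩ ⟨0, .pol, .pol,
 .pol, .pol, (.aff 1000000 0 0), .pol, (.pol), (.pol), .pol⟩]⟩, ⟨[.one ⟨8000000, 277, 1104000, 449043, 0, 0,
 0, 300000, 0, 230000⟩ ⟨230000, (.aff 2000000 500000), (.pol), (.pol), (.pol), (.pol), (.aff 0 2000000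
 500000), (.pol), (.pol), (.pol)⟩, .one ⟨8000000, 277, 1104000, 35766, 95053, 0, 0, 300000, 230000, 778000⟩
 ⟨0, .pol, .pol, .pol, .pol, (.sy 504000 (.sx 150000 (.sy 367000 (.aff 3100000 7236603 609402) (.aff 3100000
 7156452 616228)) (.aff 1000000 0 0)) (.aff 5700000 9715860 2273603)), .pol, (.pol), (.sx 150000 (.pol) (.sx
 225000 (.pol) (.sy 504000 (.pol) (.pol)))), .pol⟩], [.one ⟨8000000, 277, 312000, 129333, 69680, 0, 250000,
 300000, 0, 300000⟩ ⟨0, .pol, .pol, .pol, .pol, (.aff 1000000 0 0), .pol, (.pol), (.sy 150000 (.pol) (.pol)),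
 .pol⟩, .one ⟨8000000, 277, 312000, 297280, 19296, 0, 250000, 300000, 300000, 550000⟩ ⟨0, .pol, .pol, .pol,
 .pol, (.aff 1000000 0 0), .pol, (.pol), (.pol), .pol⟩, .one ⟨8000000, 277, 312000, 404210, -39516, 0, 250000,
 300000, 550000, 778000⟩ ⟨0, .pol, .pol, .pol, .pol, (.aff 1000000 0 0), .pol, (.pol), (.pol), .pol⟩]⟩] = true
 := by decide +kernel

theorem II_xQ47 : PropII xQ47 := propII_of cQ47

theorem cQ48 : chkII xQ48 ⟨780000, 785000, 884589, 883178, 886004, 466361, 469050, 463689, 469041, 463680⟩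
 [⟨[.one ⟨8000000, 327, 1048000, 277818, 0, 0, 0, 300000, 0, 220000⟩ ⟨110000, (.sp 250000 (.aff 2309402
 433013) (.aff 1754117 570088)), (.pol), (.pol), (.pol), (.aff 1000000 0 0), (.sx 55000 (.sy 165000 (.sx 27500
 (.aff 113000 2348202 335052) (.aff 1000000 0 0)) (.aff 1000000 0 0)) (.aff 1000000 0 0)), (.pol), (.pol),
 (.pol)⟩, .one ⟨8000000, 327, 1048000, -415621, 152556, 0, 0, 300000, 220000, 768000⟩ ⟨0, .pol, .pol, .pol,
 .pol, (.sy 494000 (.sy 357000 (.sx 150000 (.aff 1975000 3837647 247711) (.aff 1000000 0 0)) (.sx 150000 (.aff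
 2200000 4042178 356244) (.aff 1000000 0 0))) (.aff 2000000 3542770 282266)), .pol, (.aff 5000000 8059777
 1985167), (.sx 150000 (.pol) (.sy 494000 (.sx 225000 (.sy 357000 (.sx 187500 (.pol) (.pol)) (.pol)) (.sy
 357000 (.pol) (.pol))) (.pol))), .pol⟩], [.one ⟨8000000, 327, 248000, 0, 59120, 0, 250000, 300000, 0, 300000⟩
 ⟨0, .pol, .pol, .pol, .pol, (.sy 150000 (.sy 75000 (.sy 37500 (.aff 1200000 40937 977112) (.aff 1000000 0 0))
 (.aff 1000000 0 0)) (.aff 1000000 0 0)), .pol, (.pol), (.sy 150000 (.pol) (.pol)), .pol⟩, .two ⟨8000000, 327,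
 248000, -507840, 211472, 0, 250000, 300000, 300000, 450000⟩ ⟨0, .pol, .pol, .pol, .pol, (.aff 1000000 0 0),
 .pol, (.pol), (.pol), .pol⟩ ⟨8000000, 327, 248000, -507840, 211472, 0, 250000, 300000, 450000, 550000⟩ ⟨0,
 .pol, .pol, .pol, .pol, (.aff 1000000 0 0), .pol, (.pol), (.pol), .pol⟩, .one ⟨8000000, 327, 248000, 420183,
 -298941, 0, 250000, 300000, 550000, 768000⟩ ⟨0, .pol, .pol, .pol, .pol, (.aff 1000000 0 0), .pol, (.aff
 1000000 0 0), (.pol), .pol⟩]⟩, ⟨[.one ⟨4000000, 0, 744000, 11090, 0, 0, 0, 300000, 0, 220000⟩ ⟨220000,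
 (.pol), (.pol), (.pol), (.pol), (.pol), (.pol), (.pol), (.pol), (.pol)⟩, .one ⟨4000000, 0, 744000, -92555,
 22802, 0, 0, 300000, 220000, 768000⟩ ⟨0, .pol, .pol, .pol, .pol, (.sx 150000 (.sx 75000 (.sx 37500 (.sy
 494000 (.sx 18750 (.sy 357000 (.sx 9375 (.sy 288500 (.sx 4687 (.sy 254250 (.sx 2343 (.sy 237125 (.pol) (.sx
 1171 (.sy 245687 (.pol) (.sx 585 (.inf 29233426 34208) (.sy 249968 (.pol) (.inf 16945209 59014)))) (.pol)))
 (.pol)) (.sx 2343 (.sy 271375 (.sx 1171 (.inf 21186517 47200) (.sy 262812 (.sx 1757 (.sy 258531 (.sx 1464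
 (.inf 13950047 71685) (.sy 256390 (.pol) (.inf 12643723 79091))) (.inf 13343700 74942)) (.sy 258531 (.pol)
 (.sx 2050 (.sy 260671 (.sx 1903 (.inf 11910436 83960) (.pol)) (.inf 11726270 85279)) (.pol)))) (.inf 12329509
 81107))) (.inf 15458217 64691)) (.sy 271375 (.sx 3515 (.sy 262812 (.pol) (.sx 2929 (.sy 267093 (.sx 2636 (.sy
 264952 (.pol) (.inf 10337205 96738)) (.pol)) (.inf 10106302 98949)) (.sy 267093 (.pol) (.sx 3222 (.sy 269234
 (.pol) (.inf 9374946 106668)) (.pol))))) (.pol)) (.sx 3515 (.inf 9776218 102290) (.sy 279937 (.sx 4101 (.sy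
 275656 (.sx 3808 (.sy 273515 (.pol) (.inf 8659829 115476)) (.pol)) (.inf 8541122 117081)) (.sy 275656 (.pol)
 (.sx 4394 (.sy 277796 (.pol) (.inf 8102733 123416)) (.pol)))) (.inf 8324944 120121)))))) (.sy 254250 (.pol)
 (.sx 7031 (.sy 271375 (.pol) (.sx 5859 (.sy 279937 (.pol) (.sx 5273 (.sy 284218 (.sx 4980 (.sy 282077 (.pol)
 (.inf 7653772 130655)) (.pol)) (.inf 7582995 131875)) (.pol))) (.pol))) (.pol)))) (.sx 4687 (.inf 11735475
 85212) (.sy 322750 (.sx 7031 (.sy 305625 (.sx 5859 (.inf 7505767 133231) (.sy 297062 (.sx 6445 (.sy 292781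
 (.pol) (.inf 6923809 144430)) (.pol)) (.inf 6837849 146245))) (.inf 7322894 136559)) (.sy 305625 (.sx 8203
 (.sy 297062 (.pol) (.sx 7617 (.inf 6414411 155899) (.pol))) (.pol)) (.inf 6188824 161582))) (.inf 6952662
 143830)))) (.sy 288500 (.pol) (.sx 14062 (.sy 322750 (.sx 11718 (.sy 305625 (.pol) (.sx 10546 (.sy 314187
 (.pol) (.inf 5654480 176851)) (.pol))) (.pol)) (.sx 11718 (.inf 5676825 176155) (.sy 339875 (.pol) (.inf
 5199194 192338)))) (.pol)))) (.inf 5389571 185544)) (.sy 357000 (.pol) (.sx 28125 (.sy 425500 (.sy 391250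
 (.pol) (.inf 4174207 239567)) (.inf 4428996 225785)) (.sy 425500 (.pol) (.inf 3743185 267153))))) (.inf
 5801150 172380)) (.sy 494000 (.pol) (.inf 2679437 373213))) (.pol)) (.pol)), .pol, (.pol), (.sx 150000 (.sx
 75000 (.sx 37500 (.sy 494000 (.sx 18750 (.sy 357000 (.sx 9375 (.sy 288500 (.sx 4687 (.sy 254250 (.sx 2343
 (.sy 237125 (.pol) (.sx 1171 (.sy 245687 (.pol) (.sx 585 (.inf 29233426 34208) (.sy 249968 (.pol) (.inf
 16945209 59014)))) (.pol))) (.pol)) (.sx 2343 (.sy 271375 (.sx 1171 (.inf 21186517 47200) (.sy 262812 (.sx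
 1757 (.sy 258531 (.sx 1464 (.inf 13950047 71685) (.sy 256390 (.pol) (.inf 12643723 79091))) (.inf 13343700
 74942)) (.sy 258531 (.pol) (.sx 2050 (.sy 260671 (.sx 1903 (.inf 11910436 83960) (.pol)) (.inf 11726270
 85279)) (.pol)))) (.inf 12329509 81107))) (.inf 15458217 64691)) (.sy 271375 (.sx 3515 (.sy 262812 (.pol)
 (.sx 2929 (.sy 267093 (.sx 2636 (.sy 264952 (.pol) (.inf 10337205 96738)) (.pol)) (.inf 10106302 98949)) (.sy
 267093 (.pol) (.sx 3222 (.sy 269234 (.pol) (.inf 9374946 106668)) (.pol))))) (.pol)) (.sx 3515 (.inf 9776218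
 102290) (.sy 279937 (.sx 4101 (.sy 275656 (.sx 3808 (.sy 273515 (.pol) (.inf 8659829 115476)) (.pol)) (.inf
 8541122 117081)) (.sy 275656 (.pol) (.sx 4394 (.sy 277796 (.pol) (.inf 8102733 123416)) (.pol)))) (.inf
 8324944 120121)))))) (.sy 254250 (.pol) (.sx 7031 (.sy 271375 (.pol) (.sx 5859 (.sy 279937 (.pol) (.sx 5273
 (.sy 284218 (.sx 4980 (.sy 282077 (.pol) (.inf 7653772 130655)) (.pol)) (.inf 7582995 131875)) (.pol)))
 (.pol))) (.pol)))) (.sx 4687 (.inf 11735475 85212) (.sy 322750 (.sx 7031 (.sy 305625 (.sx 5859 (.inf 7505767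
 133231) (.sy 297062 (.sx 6445 (.sy 292781 (.pol) (.inf 6923809 144430)) (.pol)) (.inf 6837849 146245))) (.inf
 7322894 136559)) (.sy 305625 (.sx 8203 (.sy 297062 (.pol) (.sx 7617 (.inf 6414411 155899) (.pol))) (.pol))
 (.inf 6188824 161582))) (.inf 6952662 143830)))) (.sy 288500 (.pol) (.sx 14062 (.sy 322750 (.sx 11718 (.sy
 305625 (.pol) (.sx 10546 (.sy 314187 (.pol) (.inf 5654480 176851)) (.pol))) (.pol)) (.sx 11718 (.inf 5676825
 176155) (.sy 339875 (.pol) (.inf 5199194 192338)))) (.pol)))) (.inf 5389571 185544)) (.sy 357000 (.pol) (.sx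
 28125 (.sy 425500 (.sy 391250 (.pol) (.inf 4174207 239567)) (.inf 4428996 225785)) (.sy 425500 (.pol) (.inf
 3743185 267153))))) (.inf 5801150 172380)) (.sy 494000 (.pol) (.inf 2679437 373213))) (.pol)) (.pol)),
 .pol⟩], [.one ⟨4000000, 0, 0, 133, 200, 0, 250000, 300000, 0, 300000⟩ ⟨0, .pol, .pol, .pol, .pol, (.pol),
 .pol, (.pol), (.pol), .pol⟩, .one ⟨4000000, 0, 0, 480, 96, 0, 250000, 300000, 300000, 550000⟩ ⟨0, .pol, .pol,
 .pol, .pol, (.pol), .pol, (.pol), (.pol), .pol⟩, .one ⟨4000000, 0, 0, 366, 158, 0, 250000, 300000, 550000,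
 768000⟩ ⟨0, .pol, .pol, .pol, .pol, (.pol), .pol, (.pol), (.pol), .pol⟩]⟩, ⟨[.one ⟨3000000, 111, 411000,
 99545, 0, 0, 0, 300000, 0, 220000⟩ ⟨110000, (.aff 2000000 500000), (.pol), (.pol), (.pol), (.aff 0 835711
 1196586), (.aff 125000 2143304 357218), (.pol), (.pol), (.pol)⟩, .one ⟨3000000, 111, 411000, -165000, 58200,
 0, 0, 300000, 220000, 768000⟩ ⟨0, .pol, .pol, .pol, .pol, (.sy 494000 (.sy 357000 (.sx 150000 (.aff 2156000
 4636190 288241) (.aff 1000000 0 0)) (.sy 425500 (.sx 150000 (.sy 391250 (.sy 374125 (.aff 2231000 4694423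
 322801) (.aff 2181000 4608031 302681)) (.sy 408375 (.sy 399812 (.sy 395531 (.aff 2156000 4573125 292216) (.sy
 397671 (.aff 2147000 4555999 288765) (.sx 75000 (.sx 37500 (.aff 3000000 7530598 531167) (.aff 1000000 0 0))
 (.aff 1000000 0 0)))) (.sy 404093 (.sx 75000 (.sx 37500 (.aff 3000000 7560859 529041) (.aff 1000000 0 0))
 (.aff 1000000 0 0)) (.sx 75000 (.aff 3100000 5643470 781435) (.aff 1000000 0 0)))) (.sx 75000 (.aff 3000000
 5445080 734609) (.aff 1000000 0 0)))) (.aff 1000000 0 0)) (.sx 150000 (.aff 3400000 5942121 969351) (.aff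
 1000000 0 0)))) (.aff 3100000 5260745 838285)), .pol, (.aff 5000000 8059777 1985167), (.sx 150000 (.pol) (.sy
 494000 (.sy 357000 (.pol) (.pol)) (.pol))), .pol⟩], [.one ⟨3000000, 111, 117000, 0, 11400, 0, 250000, 300000,
 0, 300000⟩ ⟨0, .pol, .pol, .pol, .pol, (.aff 1000000 0 0), .pol, (.pol), (.sy 150000 (.pol) (.pol)), .pol⟩,
 .two ⟨3000000, 111, 117000, -170400, 62520, 0, 250000, 300000, 300000, 450000⟩ ⟨0, .pol, .pol, .pol, .pol,
 (.aff 1000000 0 0), .pol, (.pol), (.pol), .pol⟩ ⟨3000000, 111, 117000, -170400, 62520, 0, 250000, 300000,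
 450000, 550000⟩ ⟨0, .pol, .pol, .pol, .pol, (.aff 1000000 0 0), .pol, (.pol), (.pol), .pol⟩, .one ⟨3000000,
 111, 117000, 134862, -105375, 0, 250000, 300000, 550000, 768000⟩ ⟨0, .pol, .pol, .pol, .pol, (.aff 1000000 0
 0), .pol, (.aff 1000000 0 0), (.pol), .pol⟩]⟩, ⟨[.one ⟨2200000, 99, 279400, 91700, 0, 0, 0, 300000, 0,
 220000⟩ ⟨55000, (.sp 250000 (.aff 2828428 353554) (.aff 1511858 661438)), (.pol), (.pol), (.pol), (.aff
 375000 492014 793931), (.sy 137500 (.sy 96250 (.aff 25000 1786901 531997) (.sx 27500 (.aff 75000 1992399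
 429445) (.aff 250000 1262439 445567))) (.aff 500000 1802776 138676)), (.pol), (.pol), (.pol)⟩, .one ⟨2200000,
 99, 279400, -135895, 50070, 0, 0, 300000, 220000, 768000⟩ ⟨0, .pol, .pol, .pol, .pol, (.sy 494000 (.sy 357000
 (.sx 150000 (.sx 75000 (.aff 1900000 3530326 229441) (.aff 1000000 0 0)) (.aff 1000000 0 0)) (.sy 425500 (.sy
 391250 (.sx 150000 (.sx 75000 (.sx 37500 (.aff 2100000 4011944 301600) (.aff 1000000 0 0)) (.aff 1000000 0
 0)) (.aff 1000000 0 0)) (.sy 408375 (.sy 399812 (.sx 150000 (.sx 75000 (.aff 2200000 3897229 369494) (.aff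
 1000000 0 0)) (.aff 1000000 0 0)) (.sx 150000 (.sx 75000 (.aff 2200000 3939187 365558) (.aff 1000000 0 0))
 (.aff 1000000 0 0))) (.sx 150000 (.sx 75000 (.aff 2200000 4001300 359884) (.aff 1000000 0 0)) (.aff 1000000 0
 0)))) (.sx 150000 (.sx 75000 (.sx 37500 (.aff 3000000 8086203 494670) (.aff 2100000 3444950 351239)) (.aff
 1000000 0 0)) (.aff 1000000 0 0)))) (.sy 631000 (.aff 2400000 3834058 511208) (.aff 3000000 4318951
 926151))), .pol, (.aff 7500000 10693768 3950900), (.sy 494000 (.sx 150000 (.pol) (.sy 357000 (.sx 225000 (.sy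
 288500 (.pol) (.pol)) (.pol)) (.pol))) (.pol)), .pol⟩], [.one ⟨2200000, 99, 162800, 0, -4466, 0, 250000,
 300000, 0, 300000⟩ ⟨0, .pol, .pol, .pol, .pol, (.aff 1000000 0 0), .pol, (.pol), (.sy 150000 (.pol) (.pol)),
 .pol⟩, .two ⟨2200000, 99, 162800, -152064, 41153, 0, 250000, 300000, 300000, 450000⟩ ⟨0, .pol, .pol, .pol,
 .pol, (.aff 1000000 0 0), .pol, (.pol), (.pol), .pol⟩ ⟨2200000, 99, 162800, -152064, 41153, 0, 250000,
 300000, 450000, 550000⟩ ⟨0, .pol, .pol, .pol, .pol, (.aff 1000000 0 0), .pol, (.pol), (.pol), .pol⟩, .one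
 ⟨2200000, 99, 162800, 107174, -101428, 0, 250000, 300000, 550000, 768000⟩ ⟨0, .pol, .pol, .pol, .pol, (.aff
 1000000 0 0), .pol, (.aff 2000000 1584449 631135), (.pol), .pol⟩]⟩, ⟨[.one ⟨8000000, 121, 488000, 181818, 0,
 0, 0, 300000, 0, 220000⟩ ⟨220000, (.aff 3162278 316228), (.pol), (.pol), (.pol), (.pol), (.aff 1000000 0 0),
 (.pol), (.pol), (.pol)⟩, .one ⟨8000000, 121, 488000, 70802, 24423, 0, 0, 300000, 220000, 768000⟩ ⟨0, .pol,
 .pol, .pol, .pol, (.aff 2600000 6125911 417898), .pol, (.pol), (.sx 150000 (.pol) (.sy 494000 (.sy 357000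
 (.pol) (.pol)) (.pol))), .pol⟩], [.one ⟨8000000, 121, 320000, 60800, -18960, 0, 250000, 300000, 0, 300000⟩
 ⟨0, .pol, .pol, .pol, .pol, (.aff 1000000 0 0), .pol, (.pol), (.sy 150000 (.pol) (.sy 225000 (.pol) (.sy
 262500 (.pol) (.sy 281250 (.pol) (.sx 275000 (.pol) (.pol)))))), .pol⟩, .one ⟨8000000, 121, 320000, 137280,
 -41904, 0, 250000, 300000, 300000, 550000⟩ ⟨0, .pol, .pol, .pol, .pol, (.aff 1000000 0 0), .pol, (.pol),
 (.pol), .pol⟩, .one ⟨8000000, 121, 320000, 178715, -64694, 0, 250000, 300000, 550000, 768000⟩ ⟨0, .pol, .pol,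
 .pol, .pol, (.aff 1000000 0 0), .pol, (.pol), (.pol), .pol⟩]⟩, ⟨[.one ⟨8000000, 277, 1104000, 452727, 0, 0,
 0, 300000, 0, 220000⟩ ⟨220000, (.aff 2000000 500000), (.pol), (.pol), (.pol), (.pol), (.aff 0 2000000
 500000), (.pol), (.pol), (.pol)⟩, .one ⟨8000000, 277, 1104000, 43795, 89964, 0, 0, 300000, 220000, 768000⟩
 ⟨0, .pol, .pol, .pol, .pol, (.sy 494000 (.sy 357000 (.sx 150000 (.aff 3100000 7114354 619874) (.aff 1000000 0
 0)) (.sx 150000 (.aff 3100000 7073811 623427) (.aff 1000000 0 0))) (.aff 5800000 9844877 2340304)), .pol,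
 (.pol), (.sx 150000 (.pol) (.sx 225000 (.sx 187500 (.pol) (.sy 494000 (.sy 357000 (.pol) (.pol)) (.pol)))
 (.sy 494000 (.pol) (.pol)))), .pol⟩], [.one ⟨8000000, 277, 312000, 130133, 68960, 0, 250000, 300000, 0,
 300000⟩ ⟨0, .pol, .pol, .pol, .pol, (.aff 1000000 0 0), .pol, (.pol), (.sy 150000 (.pol) (.pol)), .pol⟩, .one
 ⟨8000000, 277, 312000, 300160, 17952, 0, 250000, 300000, 300000, 550000⟩ ⟨0, .pol, .pol, .pol, .pol, (.aff
 1000000 0 0), .pol, (.pol), (.pol), .pol⟩, .one ⟨8000000, 277, 312000, 406605, -40594, 0, 250000, 300000,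
 550000, 768000⟩ ⟨0, .pol, .pol, .pol, .pol, (.aff 1000000 0 0), .pol, (.pol), (.pol), .pol⟩]⟩] = true := by
 decide +kernel

theorem II_xQ48 : PropII xQ48 := propII_of cQ48

theorem cQ49 : chkII xQ49 ⟨785000, 790000, 887411, 886004, 888821, 460969, 463689, 458266, 463680, 458257⟩
 [⟨[.one ⟨2240000, 91, 291200, 77890, 0, 0, 0, 300000, 0, 220000⟩ ⟨110000, (.sp 250000 (.aff 2309402 433013)
 (.aff 1754117 570088)), (.pol), (.pol), (.pol), (.aff 1000000 0 0), (.sy 165000 (.sy 137500 (.sy 123750 (.sy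
 116875 (.sy 113437 (.sy 111718 (.sx 55000 (.aff 10000 2196766 446156) (.aff 0 1159201 862664)) (.sx 55000
 (.sx 27500 (.aff 25000 2277894 417327) (.aff 0 1809692 552581)) (.aff 0 1168151 856054))) (.sx 55000 (.sx
 27500 (.aff 50000 2244760 402048) (.aff 1000000 0 0)) (.aff 0 1181453 846416))) (.sx 55000 (.aff 188000
 2401929 274507) (.aff 0 1207615 828079))) (.sx 55000 (.aff 225000 2388711 251444) (.aff 0 1378405 725477)))
 (.aff 150000 2203078 327951)) (.aff 1000000 0 0)), (.pol), (.pol), (.pol)⟩, .one ⟨2240000, 91, 291200,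
 -124059, 44428, 0, 0, 300000, 220000, 768000⟩ ⟨0, .pol, .pol, .pol, .pol, (.sy 494000 (.sy 357000 (.sx 150000
 (.aff 2100000 4118493 293797) (.aff 1000000 0 0)) (.sx 150000 (.aff 2250000 4210602 371088) (.aff 1000000 0
 0))) (.aff 3500000 5127541 1218908)), .pol, (.aff 5000000 8059777 1985167), (.sx 150000 (.pol) (.sy 494000
 (.sx 225000 (.sy 357000 (.sx 187500 (.pol) (.pol)) (.pol)) (.sy 357000 (.pol) (.pol))) (.pol))), .pol⟩],
 [.one ⟨2240000, 91, 60480, 0, 18345, 0, 250000, 300000, 0, 300000⟩ ⟨0, .pol, .pol, .pol, .pol, (.sy 150000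
 (.sy 75000 (.sy 37500 (.aff 1250000 51171 1221395) (.aff 1000000 0 0)) (.aff 1000000 0 0)) (.aff 1000000 0
 0)), .pol, (.pol), (.sy 150000 (.pol) (.pol)), .pol⟩, .two ⟨2240000, 91, 60480, -139776, 60278, 0, 250000,
 300000, 300000, 450000⟩ ⟨0, .pol, .pol, .pol, .pol, (.aff 1000000 0 0), .pol, (.pol), (.pol), .pol⟩ ⟨2240000,
 91, 60480, -139776, 60278, 0, 250000, 300000, 450000, 550000⟩ ⟨0, .pol, .pol, .pol, .pol, (.aff 1000000 0 0),
 .pol, (.pol), (.pol), .pol⟩, .one ⟨2240000, 91, 60480, 118987, -82042, 0, 250000, 300000, 550000, 768000⟩ ⟨0,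
 .pol, .pol, .pol, .pol, (.aff 1000000 0 0), .pol, (.aff 1000000 0 0), (.pol), .pol⟩]⟩, ⟨[.one ⟨4000000, 0,
 744000, 11090, 0, 0, 0, 300000, 0, 220000⟩ ⟨220000, (.pol), (.pol), (.pol), (.pol), (.pol), (.pol), (.pol),
 (.pol), (.pol)⟩, .one ⟨4000000, 0, 744000, -103577, 25226, 0, 0, 300000, 220000, 768000⟩ ⟨0, .pol, .pol,
 .pol, .pol, (.sx 150000 (.sx 75000 (.sy 494000 (.sx 37500 (.sy 357000 (.sx 18750 (.sy 288500 (.sx 9375 (.sy
 254250 (.sx 4687 (.sy 237125 (.pol) (.sx 2343 (.sy 245687 (.sx 1171 (.sx 585 (.inf 28728378 34809) (.pol))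
 (.pol)) (.sx 1171 (.inf 16529861 60497) (.sy 249968 (.pol) (.sx 1757 (.sy 252109 (.sx 1464 (.inf 13803680
 72445) (.pol)) (.inf 13150545 76043)) (.pol))))) (.pol))) (.pol)) (.sx 4687 (.sy 271375 (.sx 2343 (.sy 262812
 (.sx 1171 (.inf 21013233 47590) (.sy 258531 (.sx 1757 (.inf 13233674 75565) (.sy 256390 (.sx 2050 (.inf
 11581532 86345) (.pol)) (.inf 11206717 89233))) (.inf 12180382 82100))) (.inf 15099429 66228)) (.sy 262812
 (.sx 3515 (.sy 258531 (.pol) (.sx 2929 (.sy 260671 (.sx 2636 (.sy 259601 (.pol) (.inf 10222196 97827))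
 (.pol)) (.sx 2636 (.inf 10253692 97526) (.sy 261741 (.pol) (.inf 9708723 103001)))) (.pol))) (.pol)) (.sx
 3515 (.sy 267093 (.sx 2929 (.inf 10025622 99745) (.sy 264952 (.sx 3222 (.sy 263882 (.pol) (.inf 9272287
 107849)) (.pol)) (.sx 3222 (.inf 9300394 107523) (.sy 266022 (.pol) (.inf 8895640 112415))))) (.inf 9587498
 104303)) (.sy 267093 (.pol) (.sx 4101 (.sy 269234 (.sx 3808 (.sy 268163 (.pol) (.inf 8566494 116734)) (.pol))
 (.sx 3808 (.inf 8592057 116387) (.sy 270304 (.pol) (.inf 8275805 120835)))) (.pol)))))) (.sx 2343 (.inf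
 15458217 64691) (.sy 279937 (.sx 3515 (.inf 9701169 103081) (.sy 275656 (.sx 4101 (.inf 8475055 117994) (.sy
 273515 (.sx 4394 (.sy 272445 (.pol) (.inf 8016758 124739)) (.pol)) (.sx 4394 (.inf 8040298 124374) (.sy
 274585 (.pol) (.inf 7784123 128467))))) (.inf 8230354 121502))) (.inf 8992150 111209)))) (.sy 271375 (.pol)
 (.sx 7031 (.sy 279937 (.sx 5859 (.sy 275656 (.pol) (.sx 5273 (.sy 277796 (.sx 4980 (.sy 276726 (.pol) (.inf
 7573795 132035)) (.pol)) (.inf 7483134 133634)) (.pol))) (.pol)) (.sx 5859 (.sy 284218 (.sx 5273 (.inf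
 7526093 132872) (.sy 282077 (.sx 5566 (.inf 7200771 138875) (.pol)) (.inf 7132385 140206))) (.inf 7369306
 135698)) (.sy 284218 (.pol) (.sx 6445 (.sy 286359 (.sx 6152 (.inf 6892354 145089) (.pol)) (.inf 6835299
 146300)) (.pol))))) (.pol))))) (.pol)) (.sx 9375 (.sy 322750 (.sx 4687 (.inf 11419892 87567) (.sy 305625 (.sx
 7031 (.inf 7120528 140440) (.sy 297062 (.sx 8203 (.sy 292781 (.pol) (.sx 7617 (.inf 6345693 157588) (.pol)))
 (.pol)) (.sx 8203 (.inf 6289831 158987) (.sy 301343 (.pol) (.inf 5876222 170178))))) (.inf 6684762 149594)))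
 (.inf 8515085 117439)) (.sy 322750 (.sx 14062 (.sy 305625 (.pol) (.sx 11718 (.sy 314187 (.sx 10546 (.inf
 5577948 179278) (.pol)) (.inf 5495144 181979)) (.pol))) (.pol)) (.sx 14062 (.inf 5385470 185685) (.sy 339875
 (.pol) (.inf 4608516 216990)))))) (.pol)) (.sx 18750 (.inf 6736963 148435) (.sy 425500 (.sx 28125 (.sy 391250
 (.sx 23437 (.inf 4211474 237447) (.pol)) (.inf 4174207 239567)) (.pol)) (.inf 4043102 247335)))) (.pol))
 (.inf 3281626 304727)) (.pol)) (.pol)), .pol, (.pol), (.sx 150000 (.sx 75000 (.sy 494000 (.sx 37500 (.sy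
 357000 (.sx 18750 (.sy 288500 (.sx 9375 (.sy 254250 (.sx 4687 (.sy 237125 (.pol) (.sx 2343 (.sy 245687 (.sx
 1171 (.sx 585 (.inf 28728378 34809) (.pol)) (.pol)) (.sx 1171 (.inf 16529861 60497) (.sy 249968 (.pol) (.sx
 1757 (.sy 252109 (.sx 1464 (.inf 13803680 72445) (.pol)) (.inf 13150545 76043)) (.pol))))) (.pol))) (.pol))
 (.sx 4687 (.sy 271375 (.sx 2343 (.sy 262812 (.sx 1171 (.inf 21013233 47590) (.sy 258531 (.sx 1757 (.inf
 13233674 75565) (.sy 256390 (.sx 2050 (.inf 11581532 86345) (.pol)) (.inf 11206717 89233))) (.inf 12180382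
 82100))) (.inf 15099429 66228)) (.sy 262812 (.sx 3515 (.sy 258531 (.pol) (.sx 2929 (.sy 260671 (.sx 2636 (.sy
 259601 (.pol) (.inf 10222196 97827)) (.pol)) (.sx 2636 (.inf 10253692 97526) (.sy 261741 (.pol) (.inf 9708723
 103001)))) (.pol))) (.pol)) (.sx 3515 (.sy 267093 (.sx 2929 (.inf 10025622 99745) (.sy 264952 (.sx 3222 (.sy
 263882 (.pol) (.inf 9272287 107849)) (.pol)) (.sx 3222 (.inf 9300394 107523) (.sy 266022 (.pol) (.inf 8895640
 112415))))) (.inf 9587498 104303)) (.sy 267093 (.pol) (.sx 4101 (.sy 269234 (.sx 3808 (.sy 268163 (.pol)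
 (.inf 8566494 116734)) (.pol)) (.sx 3808 (.inf 8592057 116387) (.sy 270304 (.pol) (.inf 8275805 120835))))
 (.pol)))))) (.sx 2343 (.inf 15458217 64691) (.sy 279937 (.sx 3515 (.inf 9701169 103081) (.sy 275656 (.sx 4101
 (.inf 8475055 117994) (.sy 273515 (.sx 4394 (.sy 272445 (.pol) (.inf 8016758 124739)) (.pol)) (.sx 4394 (.inf
 8040298 124374) (.sy 274585 (.pol) (.inf 7784123 128467))))) (.inf 8230354 121502))) (.inf 8992150 111209))))
 (.sy 271375 (.pol) (.sx 7031 (.sy 279937 (.sx 5859 (.sy 275656 (.pol) (.sx 5273 (.sy 277796 (.sx 4980 (.sy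
 276726 (.pol) (.inf 7573795 132035)) (.pol)) (.inf 7483134 133634)) (.pol))) (.pol)) (.sx 5859 (.sy 284218
 (.sx 5273 (.inf 7526093 132872) (.sy 282077 (.sx 5566 (.inf 7200771 138875) (.pol)) (.inf 7132385 140206)))
 (.inf 7369306 135698)) (.sy 284218 (.pol) (.sx 6445 (.sy 286359 (.sx 6152 (.inf 6892354 145089) (.pol)) (.inf
 6835299 146300)) (.pol))))) (.pol))))) (.pol)) (.sx 9375 (.sy 322750 (.sx 4687 (.inf 11419892 87567) (.sy
 305625 (.sx 7031 (.inf 7120528 140440) (.sy 297062 (.sx 8203 (.sy 292781 (.pol) (.sx 7617 (.inf 6345693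
 157588) (.pol))) (.pol)) (.sx 8203 (.inf 6289831 158987) (.sy 301343 (.pol) (.inf 5876222 170178))))) (.inf
 6684762 149594))) (.inf 8515085 117439)) (.sy 322750 (.sx 14062 (.sy 305625 (.pol) (.sx 11718 (.sy 314187
 (.sx 10546 (.inf 5577948 179278) (.pol)) (.inf 5495144 181979)) (.pol))) (.pol)) (.sx 14062 (.inf 5385470
 185685) (.sy 339875 (.pol) (.inf 4608516 216990)))))) (.pol)) (.sx 18750 (.inf 6736963 148435) (.sy 425500
 (.sx 28125 (.sy 391250 (.sx 23437 (.inf 4211474 237447) (.pol)) (.inf 4174207 239567)) (.pol)) (.inf 4043102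
 247335)))) (.pol)) (.inf 3281626 304727)) (.pol)) (.pol)), .pol⟩], [.one ⟨4000000, 0, 0, 133, 200, 0, 250000,
 300000, 0, 300000⟩ ⟨0, .pol, .pol, .pol, .pol, (.pol), .pol, (.pol), (.pol), .pol⟩, .one ⟨4000000, 0, 0, 480,
 96, 0, 250000, 300000, 300000, 550000⟩ ⟨0, .pol, .pol, .pol, .pol, (.pol), .pol, (.pol), (.pol), .pol⟩, .one
 ⟨4000000, 0, 0, 366, 158, 0, 250000, 300000, 550000, 768000⟩ ⟨0, .pol, .pol, .pol, .pol, (.pol), .pol,
 (.pol), (.pol), .pol⟩]⟩, ⟨[.one ⟨3000000, 111, 411000, 100090, 0, 0, 0, 300000, 0, 220000⟩ ⟨110000, (.aff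
 2000000 500000), (.pol), (.pol), (.pol), (.aff 0 835711 1196586), (.aff 125000 2143304 357218), (.pol),
 (.pol), (.pol)⟩, .one ⟨3000000, 111, 411000, -172938, 60066, 0, 0, 300000, 220000, 768000⟩ ⟨0, .pol, .pol,
 .pol, .pol, (.sy 494000 (.sy 357000 (.sx 150000 (.sx 75000 (.aff 2200000 4707102 305921) (.aff 1000000 0 0))
 (.aff 1000000 0 0)) (.sy 425500 (.sy 391250 (.sx 150000 (.sy 374125 (.sy 365562 (.aff 2244000 4716135 328137)
 (.sy 369843 (.sy 367702 (.sy 366632 (.aff 2231000 4697853 322565) (.aff 2228000 4693248 321310)) (.sx 75000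
 (.sy 368772 (.sx 37500 (.sx 18750 (.aff 3000000 12534531 319119) (.aff 2100000 4360144 277514)) (.aff 1000000
 0 0)) (.sx 37500 (.sx 18750 (.aff 3000000 12552737 318656) (.aff 2200000 4763429 302304)) (.aff 1000000 0
 0))) (.aff 1000000 0 0))) (.sy 371984 (.sx 75000 (.sx 37500 (.aff 2700000 5346501 540541) (.aff 1000000 0 0))
 (.aff 1000000 0 0)) (.sx 75000 (.sx 37500 (.aff 2700000 5361909 538988) (.aff 1000000 0 0)) (.aff 1000000 0
 0))))) (.sy 382687 (.sy 378406 (.sy 376265 (.sx 75000 (.sx 37500 (.aff 2800000 5693580 569062) (.aff 1000000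
 0 0)) (.aff 1000000 0 0)) (.sx 75000 (.sx 37500 (.aff 2900000 6027009 598971) (.aff 1000000 0 0)) (.aff
 1000000 0 0))) (.sy 380546 (.sx 75000 (.sx 37500 (.aff 2900000 6044079 597279) (.aff 1000000 0 0)) (.aff
 1000000 0 0)) (.sx 75000 (.sx 37500 (.aff 3000000 6380107 626949) (.aff 1000000 0 0)) (.aff 1000000 0 0))))
 (.sy 386968 (.sy 384827 (.sy 383757 (.sx 75000 (.sx 37500 (.aff 3000000 6393514 625635) (.aff 1000000 0 0))
 (.aff 1000000 0 0)) (.sx 75000 (.sx 37500 (.aff 3000000 6402433 624763) (.aff 1000000 0 0)) (.aff 1000000 0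
 0))) (.sy 385897 (.sx 75000 (.sx 37500 (.aff 3000000 6411340 623895) (.aff 1000000 0 0)) (.aff 1000000 0 0))
 (.sx 75000 (.sx 37500 (.aff 3000000 6420239 623030) (.aff 1000000 0 0)) (.aff 1000000 0 0)))) (.sy 389109
 (.sy 388038 (.sx 75000 (.sx 37500 (.aff 3000000 6429126 622169) (.aff 1000000 0 0)) (.aff 1000000 0 0)) (.sx
 75000 (.sx 37500 (.aff 3000000 6438000 621311) (.aff 1000000 0 0)) (.aff 1000000 0 0))) (.sy 390179 (.sx
 75000 (.sx 37500 (.aff 3000000 7444195 537332) (.aff 1000000 0 0)) (.aff 1000000 0 0)) (.sx 75000 (.sx 37500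
 (.aff 3000000 7454414 536595) (.aff 1000000 0 0)) (.aff 1000000 0 0))))))) (.aff 1000000 0 0)) (.sy 408375
 (.sy 399812 (.sx 150000 (.sy 395531 (.sx 75000 (.sx 37500 (.aff 3000000 7479898 534767) (.aff 1000000 0 0))
 (.aff 1000000 0 0)) (.sy 397671 (.sy 396601 (.sx 75000 (.sx 37500 (.aff 3000000 7505291 532958) (.aff 1000000
 0 0)) (.aff 1000000 0 0)) (.sx 75000 (.sx 37500 (.aff 3000000 7515422 532239) (.aff 1000000 0 0)) (.aff
 1000000 0 0))) (.sy 398741 (.sx 75000 (.sx 37500 (.aff 3000000 7525540 531524) (.aff 1000000 0 0)) (.aff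
 1000000 0 0)) (.sx 75000 (.sx 37500 (.aff 3000000 7535649 530811) (.aff 1500000 1459272 171319)) (.aff
 1000000 0 0))))) (.aff 1000000 0 0)) (.sx 150000 (.sx 75000 (.aff 3150000 5762596 802156) (.aff 1000000 0 0))
 (.aff 1000000 0 0))) (.sy 416937 (.sx 150000 (.sx 75000 (.aff 3100000 5687903 775330) (.aff 1000000 0 0))
 (.aff 1000000 0 0)) (.sx 150000 (.sx 75000 (.aff 3000000 5472963 730866) (.aff 1000000 0 0)) (.aff 1000000 0
 0))))) (.sx 150000 (.aff 3400000 5942121 969351) (.aff 1000000 0 0)))) (.aff 3100000 5260745 838285)), .pol,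
 (.aff 5000000 8059777 1985167), (.sx 150000 (.pol) (.sy 494000 (.sy 357000 (.pol) (.pol)) (.pol))), .pol⟩],
 [.one ⟨3000000, 111, 117000, 0, 10680, 0, 250000, 300000, 0, 300000⟩ ⟨0, .pol, .pol, .pol, .pol, (.aff
 1000000 0 0), .pol, (.pol), (.sy 150000 (.pol) (.pol)), .pol⟩, .two ⟨3000000, 111, 117000, -166920, 60756, 0,
 250000, 300000, 300000, 450000⟩ ⟨0, .pol, .pol, .pol, .pol, (.aff 1000000 0 0), .pol, (.pol), (.pol), .pol⟩
 ⟨3000000, 111, 117000, -166920, 60756, 0, 250000, 300000, 450000, 550000⟩ ⟨0, .pol, .pol, .pol, .pol, (.aff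
 1000000 0 0), .pol, (.pol), (.pol), .pol⟩, .one ⟨3000000, 111, 117000, 134862, -105225, 0, 250000, 300000,
 550000, 768000⟩ ⟨0, .pol, .pol, .pol, .pol, (.aff 1000000 0 0), .pol, (.aff 1000000 0 0), (.pol), .pol⟩]⟩,
 ⟨[.one ⟨8000000, 387, 1072000, 365818, 0, 0, 0, 300000, 0, 220000⟩ ⟨55000, (.sp 250000 (.aff 2828428 353554)
 (.aff 1511858 661438)), (.pol), (.pol), (.pol), (.aff 375000 492014 793931), (.sy 137500 (.sx 27500 (.sx
 13750 (.aff 0 3055051 327327) (.sy 96250 (.aff 0 1914855 522233) (.aff 125000 1928407 397025))) (.sy 96250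
 (.aff 75000 1516291 564289) (.aff 1000000 0 0))) (.aff 500000 1274755 196117)), (.pol), (.pol), (.pol)⟩, .one
 ⟨8000000, 387, 1072000, -532263, 197577, 0, 0, 300000, 220000, 768000⟩ ⟨0, .pol, .pol, .pol, .pol, (.sy
 494000 (.sy 357000 (.sx 150000 (.aff 2100000 3726567 324696) (.aff 1000000 0 0)) (.sx 150000 (.aff 2050000
 3536906 311714) (.aff 1000000 0 0))) (.aff 3400000 4922439 1170152)), .pol, (.aff 7500000 10693768 3950900),
 (.sy 494000 (.sx 150000 (.pol) (.sy 357000 (.sx 225000 (.sy 288500 (.pol) (.pol)) (.pol)) (.pol))) (.pol)),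
 .pol⟩], [.one ⟨8000000, 387, 712000, 0, -38800, 0, 250000, 300000, 0, 300000⟩ ⟨0, .pol, .pol, .pol, .pol,
 (.aff 1000000 0 0), .pol, (.pol), (.sy 150000 (.pol) (.pol)), .pol⟩, .two ⟨8000000, 387, 712000, -582400,
 135920, 0, 250000, 300000, 300000, 450000⟩ ⟨0, .pol, .pol, .pol, .pol, (.aff 1000000 0 0), .pol, (.pol),
 (.pol), .pol⟩ ⟨8000000, 387, 712000, -582400, 135920, 0, 250000, 300000, 450000, 550000⟩ ⟨0, .pol, .pol,
 .pol, .pol, (.aff 1000000 0 0), .pol, (.pol), (.pol), .pol⟩, .one ⟨8000000, 387, 712000, 415045, -412676, 0,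
 250000, 300000, 550000, 768000⟩ ⟨0, .pol, .pol, .pol, .pol, (.aff 1000000 0 0), .pol, (.aff 2100000 1742894
 694248), (.pol), .pol⟩]⟩, ⟨[.one ⟨8000000, 121, 488000, 181818, 0, 0, 0, 300000, 0, 220000⟩ ⟨220000, (.aff
 3162278 316228), (.pol), (.pol), (.pol), (.pol), (.aff 1000000 0 0), (.pol), (.pol), (.pol)⟩, .one ⟨8000000,
 121, 488000, 64671, 25772, 0, 0, 300000, 220000, 768000⟩ ⟨0, .pol, .pol, .pol, .pol, (.aff 2600000 6125911
 417898), .pol, (.pol), (.sx 150000 (.pol) (.sy 494000 (.sy 357000 (.pol) (.pol)) (.pol))), .pol⟩], [.one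
 ⟨8000000, 121, 320000, 61333, -19280, 0, 250000, 300000, 0, 300000⟩ ⟨0, .pol, .pol, .pol, .pol, (.aff 1000000
 0 0), .pol, (.pol), (.sy 150000 (.pol) (.sy 225000 (.pol) (.sy 262500 (.pol) (.sy 281250 (.pol) (.sx 275000
 (.pol) (.pol)))))), .pol⟩, .one ⟨8000000, 121, 320000, 138240, -42352, 0, 250000, 300000, 300000, 550000⟩ ⟨0,
 .pol, .pol, .pol, .pol, (.aff 1000000 0 0), .pol, (.pol), (.pol), .pol⟩, .one ⟨8000000, 121, 320000, 179816,
 -65220, 0, 250000, 300000, 550000, 768000⟩ ⟨0, .pol, .pol, .pol, .pol, (.aff 1000000 0 0), .pol, (.pol),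
 (.pol), .pol⟩]⟩, ⟨[.one ⟨8000000, 277, 1104000, 452363, 0, 0, 0, 300000, 0, 220000⟩ ⟨220000, (.aff 2000000
 500000), (.pol), (.pol), (.pol), (.pol), (.aff 0 2000000 500000), (.pol), (.pol), (.pol)⟩, .one ⟨8000000,
 277, 1104000, 31532, 92582, 0, 0, 300000, 220000, 768000⟩ ⟨0, .pol, .pol, .pol, .pol, (.sy 494000 (.sx 150000
 (.sy 357000 (.aff 3100000 7114354 619874) (.aff 3100000 7073811 623427)) (.aff 1000000 0 0)) (.aff 5700000
 9639776 2291548)), .pol, (.pol), (.sx 150000 (.pol) (.sx 225000 (.sx 187500 (.pol) (.sy 494000 (.sy 357000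
 (.pol) (.pol)) (.pol))) (.sy 494000 (.pol) (.pol)))), .pol⟩], [.one ⟨8000000, 277, 312000, 131200, 68160, 0,
 250000, 300000, 0, 300000⟩ ⟨0, .pol, .pol, .pol, .pol, (.aff 1000000 0 0), .pol, (.pol), (.sy 150000 (.pol)
 (.sy 225000 (.pol) (.pol))), .pol⟩, .one ⟨8000000, 277, 312000, 302720, 16704, 0, 250000, 300000, 300000,
 550000⟩ ⟨0, .pol, .pol, .pol, .pol, (.aff 1000000 0 0), .pol, (.pol), (.pol), .pol⟩, .one ⟨8000000, 277,
 312000, 409174, -41846, 0, 250000, 300000, 550000, 768000⟩ ⟨0, .pol, .pol, .pol, .pol, (.aff 1000000 0 0),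
 .pol, (.pol), (.pol), .pol⟩]⟩] = true := by decide +kernel

theorem II_xQ49 : PropII xQ49 := propII_of cQ49

end CA
end Pool.Agent.Lib.MP_6947cd_al
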