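import Pool.Agent.Lib.MP_6947cd_al.L.PairA1
import Pool.Agent.Lib.MP_6947cd_al.L.PairA2
import Pool.Agent.Lib.MP_6947cd_al.L.PairA3
import Pool.Agent.Lib.MP_6947cd_al.L.PairA4
import Pool.Agent.Lib.MP_6947cd_al.L.PairA5
import Pool.Agent.Lib.MP_6947cd_al.L.PairA6
import Pool.Agent.Lib.MP_6947cd_al.L.PairA7
import Pool.Agent.Lib.MP_6947cd_al.L.PairA8

/-!
Problem MP_6947cd_al (Chollet).  CASE A, (II) for all boxes.
-/

set_option autoImplicit false

namespace Pool.Agent.Lib.MP_6947cd_al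
namespace CA

theorem fcons {α : Type} {p : α → Prop} {a : α} {l : List α} (h : p a) (hl : ∀ x ∈ l, p x) :
    ∀ x ∈ a :: l, p x := List.forall_mem_cons.mpr ⟨h, hl⟩

theorem fnil {α : Type} {p : α → Prop} : ∀ x ∈ ([] : List α), p x := fun _ h => absurd h List.not_mem_nil

theorem II_boxA : ∀ x ∈ boxA, PropII x :=
  fcons II_xA0 (fcons II_xA1 (fcons II_xA2 (fcons II_xA3 (fcons II_xA4 (fcons II_xA5 (fcons II_xA6 (
  fcons II_xA7 (fcons II_xA8 (fcons II_xA9 (fcons II_xA10 (fcons II_xA11 (fcons II_xA12 (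
  fcons II_xA13 (fcons II_xA14 (fcons II_xA15 (fcons II_xA16 (fcons II_xA17 (fcons II_xA18 (
  fcons II_xA19 (fcons II_xA20 (fcons II_xA21 (fcons II_xA22 (fcons II_xA23 (fcons II_xA24 (
  fcons II_xA25 (fcons II_xA26 (fcons II_xA27 (fcons II_xA28 (fcons II_xA29 (fcons II_xA30 (
  fcons II_xA31 (fcons II_xA32 (fcons II_xA33 (fcons II_xA34 (fcons II_xA35 (fcons II_xA36 (
  fcons II_xA37 (fcons II_xA38 (fcons II_xA39 (fcons II_xA40 (fcons II_xA41 (fcons II_xA42 (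
  fcons II_xA43 (fcons II_xA44 (fcons II_xA45 (fcons II_xA46 (fcons II_xA47 (fcons II_xA48 (
  fcons II_xA49 (fcons II_xA50 (fcons II_xA51 (fcons II_xA52 (fcons II_xA53 (fcons II_xA54 (
  fcons II_xA55 (fcons II_xA56 (fcons II_xA57 (fcons II_xA58 (fcons II_xA59 (fcons II_xA60 (
  fcons II_xA61 (fcons II_xA62 (fcons II_xA63 (fcons II_xA64 (fcons II_xA65 (fcons II_xA66 (
  fcons II_xA67 (fnil))))))))))))))))))))))))))))))))))))))))))))))))))))))))))))))))))))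

theorem II_boxP : ∀ x ∈ boxP, PropII x :=
  fcons II_xP0 (fcons II_xP1 (fcons II_xP2 (fcons II_xP3 (fcons II_xP4 (fcons II_xP5 (fcons II_xP6 (
  fcons II_xP7 (fcons II_xP8 (fcons II_xP9 (fcons II_xP10 (fcons II_xP11 (fcons II_xP12 (
  fcons II_xP13 (fcons II_xP14 (fcons II_xP15 (fcons II_xP16 (fcons II_xP17 (fcons II_xP18 (
  fcons II_xP19 (fcons II_xP20 (fcons II_xP21 (fcons II_xP22 (fcons II_xP23 (fcons II_xP24 (
  fcons II_xP25 (fcons II_xP26 (fcons II_xP27 (fcons II_xP28 (fcons II_xP29 (fcons II_xP30 (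
  fnil)))))))))))))))))))))))))))))))

theorem II_boxQ : ∀ x ∈ boxQ, PropII x :=
  fcons II_xQ0 (fcons II_xQ1 (fcons II_xQ2 (fcons II_xQ3 (fcons II_xQ4 (fcons II_xQ5 (fcons II_xQ6 (
  fcons II_xQ7 (fcons II_xQ8 (fcons II_xQ9 (fcons II_xQ10 (fcons II_xQ11 (fcons II_xQ12 (
  fcons II_xQ13 (fcons II_xQ14 (fcons II_xQ15 (fcons II_xQ16 (fcons II_xQ17 (fcons II_xQ18 (
  fcons II_xQ19 (fcons II_xQ20 (fcons II_xQ21 (fcons II_xQ22 (fcons II_xQ23 (fcons II_xQ24 (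
  fcons II_xQ25 (fcons II_xQ26 (fcons II_xQ27 (fcons II_xQ28 (fcons II_xQ29 (fcons II_xQ30 (
  fcons II_xQ31 (fcons II_xQ32 (fcons II_xQ33 (fcons II_xQ34 (fcons II_xQ35 (fcons II_xQ36 (
  fcons II_xQ37 (fcons II_xQ38 (fcons II_xQ39 (fcons II_xQ40 (fcons II_xQ41 (fcons II_xQ42 (
  fcons II_xQ43 (fcons II_xQ44 (fcons II_xQ45 (fcons II_xQ46 (fcons II_xQ47 (fcons II_xQ48 (
  fcons II_xQ49 (fcons II_xQ50 (fcons II_xQ51 (fcons II_xQ52 (fcons II_xQ53 (fcons II_xQ54 (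
  fcons II_xQ55 (fcons II_xQ56 (fcons II_xQ57 (fcons II_xQ58 (fcons II_xQ59 (
  fnil))))))))))))))))))))))))))))))))))))))))))))))))))))))))))))

theorem II_boxT : ∀ x ∈ boxT, PropII x :=
  fcons II_xT0 (fcons II_xT1 (fcons II_xT2 (fcons II_xT3 (fcons II_xT4 (fcons II_xT5 (fcons II_xT6 (
  fcons II_xT7 (fcons II_xT8 (fcons II_xT9 (fcons II_xT10 (fcons II_xT11 (fcons II_xT12 (
  fcons II_xT13 (fcons II_xT14 (fcons II_xT15 (fcons II_xT16 (fnil)))))))))))))))))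

/-- (II) for all boxes of case A -/
theorem propII_all : ∀ x ∈ boxA ++ boxP ++ boxQ ++ boxT, PropII x := by
  intro x hx
  rcases List.mem_append.mp hx with hx | hx
  · rcases List.mem_append.mp hx with hx | hx
    · rcases List.mem_append.mp hx with hx | hx
      · exact II_boxA x hx
      · exact II_boxP x hx
    · exact II_boxQ x hx
  · exact II_boxT x hx

end CA
end Pool.Agent.Lib.MP_6947cd_al
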