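import Pool.Agent.Lib.MP_6947cd_al.L.PairB1
import Pool.Agent.Lib.MP_6947cd_al.L.PairB2
import Pool.Agent.Lib.MP_6947cd_al.L.PairB3
import Pool.Agent.Lib.MP_6947cd_al.L.PairB4
import Pool.Agent.Lib.MP_6947cd_al.L.PairB5

/-!
Problem MP_6947cd_al (Chollet).  CASE B, (II) for all boxes with second entry in `[3/10, 2/5]`.
-/

set_option autoImplicit false

namespace Pool.Agent.Lib.MP_6947cd_al
namespace CB

open CA

theorem fcons {α : Type} {p : α → Prop} {a : α} {l : List α} (h : p a) (hl : ∀ x ∈ l, p x) :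
    ∀ x ∈ a :: l, p x := List.forall_mem_cons.mpr ⟨h, hl⟩

theorem fnil {α : Type} {p : α → Prop} : ∀ x ∈ ([] : List α), p x := fun _ h => absurd h List.not_mem_nil

theorem II_box12 : ∀ y ∈ box12, PropII y.x :=
  fcons (p := fun y : BoxB => PropII y.x) (a := yB12_0) II_xB12_0 (
  fcons (p := fun y : BoxB => PropII y.x) (a := yB12_1) II_xB12_1 (
  fcons (p := fun y : BoxB => PropII y.x) (a := yB12_2) II_xB12_2 (
  fcons (p := fun y : BoxB => PropII y.x) (a := yB12_3) II_xB12_3 (
  fcons (p := fun y : BoxB => PropII y.x) (a := yB12_4) II_xB12_4 (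
  fcons (p := fun y : BoxB => PropII y.x) (a := yB12_5) II_xB12_5 (
  fcons (p := fun y : BoxB => PropII y.x) (a := yB12_6) II_xB12_6 (
  fcons (p := fun y : BoxB => PropII y.x) (a := yB12_7) II_xB12_7 (
  fcons (p := fun y : BoxB => PropII y.x) (a := yB12_8) II_xB12_8 (
  fcons (p := fun y : BoxB => PropII y.x) (a := yB12_9) II_xB12_9 (
  fcons (p := fun y : BoxB => PropII y.x) (a := yB12_10) II_xB12_10 (
  fcons (p := fun y : BoxB => PropII y.x) (a := yB12_11) II_xB12_11 (
  fcons (p := fun y : BoxB => PropII y.x) (a := yB12_12) II_xB12_12 (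
  fcons (p := fun y : BoxB => PropII y.x) (a := yB12_13) II_xB12_13 (
  fcons (p := fun y : BoxB => PropII y.x) (a := yB12_14) II_xB12_14 (
  fcons (p := fun y : BoxB => PropII y.x) (a := yB12_15) II_xB12_15 (
  fcons (p := fun y : BoxB => PropII y.x) (a := yB12_16) II_xB12_16 (
  fcons (p := fun y : BoxB => PropII y.x) (a := yB12_17) II_xB12_17 (
  fcons (p := fun y : BoxB => PropII y.x) (a := yB12_18) II_xB12_18 (
  fcons (p := fun y : BoxB => PropII y.x) (a := yB12_19) II_xB12_19 (
  fcons (p := fun y : BoxB => PropII y.x) (a := yB12_20) II_xB12_20 (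
  fcons (p := fun y : BoxB => PropII y.x) (a := yB12_21) II_xB12_21 (
  fcons (p := fun y : BoxB => PropII y.x) (a := yB12_22) II_xB12_22 (
  fnil)))))))))))))))))))))))

theorem II_box13 : ∀ y ∈ box13, PropII y.x :=
  fcons (p := fun y : BoxB => PropII y.x) (a := yB13_0) II_xB13_0 (
  fcons (p := fun y : BoxB => PropII y.x) (a := yB13_1) II_xB13_1 (
  fcons (p := fun y : BoxB => PropII y.x) (a := yB13_2) II_xB13_2 (
  fcons (p := fun y : BoxB => PropII y.x) (a := yB13_3) II_xB13_3 (
  fcons (p := fun y : BoxB => PropII y.x) (a := yB13_4) II_xB13_4 (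
  fcons (p := fun y : BoxB => PropII y.x) (a := yB13_5) II_xB13_5 (
  fcons (p := fun y : BoxB => PropII y.x) (a := yB13_6) II_xB13_6 (
  fcons (p := fun y : BoxB => PropII y.x) (a := yB13_7) II_xB13_7 (
  fcons (p := fun y : BoxB => PropII y.x) (a := yB13_8) II_xB13_8 (
  fcons (p := fun y : BoxB => PropII y.x) (a := yB13_9) II_xB13_9 (
  fcons (p := fun y : BoxB => PropII y.x) (a := yB13_10) II_xB13_10 (
  fcons (p := fun y : BoxB => PropII y.x) (a := yB13_11) II_xB13_11 (
  fcons (p := fun y : BoxB => PropII y.x) (a := yB13_12) II_xB13_12 (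
  fcons (p := fun y : BoxB => PropII y.x) (a := yB13_13) II_xB13_13 (
  fcons (p := fun y : BoxB => PropII y.x) (a := yB13_14) II_xB13_14 (
  fcons (p := fun y : BoxB => PropII y.x) (a := yB13_15) II_xB13_15 (
  fcons (p := fun y : BoxB => PropII y.x) (a := yB13_16) II_xB13_16 (
  fcons (p := fun y : BoxB => PropII y.x) (a := yB13_17) II_xB13_17 (
  fcons (p := fun y : BoxB => PropII y.x) (a := yB13_18) II_xB13_18 (
  fcons (p := fun y : BoxB => PropII y.x) (a := yB13_19) II_xB13_19 (
  fcons (p := fun y : BoxB => PropII y.x) (a := yB13_20) II_xB13_20 (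
  fcons (p := fun y : BoxB => PropII y.x) (a := yB13_21) II_xB13_21 (
  fcons (p := fun y : BoxB => PropII y.x) (a := yB13_22) II_xB13_22 (
  fnil)))))))))))))))))))))))

theorem II_box14 : ∀ y ∈ box14, PropII y.x :=
  fcons (p := fun y : BoxB => PropII y.x) (a := yB14_0) II_xB14_0 (
  fcons (p := fun y : BoxB => PropII y.x) (a := yB14_1) II_xB14_1 (
  fcons (p := fun y : BoxB => PropII y.x) (a := yB14_2) II_xB14_2 (
  fcons (p := fun y : BoxB => PropII y.x) (a := yB14_3) II_xB14_3 (
  fcons (p := fun y : BoxB => PropII y.x) (a := yB14_4) II_xB14_4 (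
  fcons (p := fun y : BoxB => PropII y.x) (a := yB14_5) II_xB14_5 (
  fcons (p := fun y : BoxB => PropII y.x) (a := yB14_6) II_xB14_6 (
  fcons (p := fun y : BoxB => PropII y.x) (a := yB14_7) II_xB14_7 (
  fcons (p := fun y : BoxB => PropII y.x) (a := yB14_8) II_xB14_8 (
  fcons (p := fun y : BoxB => PropII y.x) (a := yB14_9) II_xB14_9 (
  fcons (p := fun y : BoxB => PropII y.x) (a := yB14_10) II_xB14_10 (
  fcons (p := fun y : BoxB => PropII y.x) (a := yB14_11) II_xB14_11 (
  fcons (p := fun y : BoxB => PropII y.x) (a := yB14_12) II_xB14_12 (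
  fcons (p := fun y : BoxB => PropII y.x) (a := yB14_13) II_xB14_13 (
  fcons (p := fun y : BoxB => PropII y.x) (a := yB14_14) II_xB14_14 (
  fcons (p := fun y : BoxB => PropII y.x) (a := yB14_15) II_xB14_15 (
  fcons (p := fun y : BoxB => PropII y.x) (a := yB14_16) II_xB14_16 (
  fcons (p := fun y : BoxB => PropII y.x) (a := yB14_17) II_xB14_17 (
  fcons (p := fun y : BoxB => PropII y.x) (a := yB14_18) II_xB14_18 (
  fcons (p := fun y : BoxB => PropII y.x) (a := yB14_19) II_xB14_19 (
  fcons (p := fun y : BoxB => PropII y.x) (a := yB14_20) II_xB14_20 (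
  fcons (p := fun y : BoxB => PropII y.x) (a := yB14_21) II_xB14_21 (
  fcons (p := fun y : BoxB => PropII y.x) (a := yB14_22) II_xB14_22 (
  fcons (p := fun y : BoxB => PropII y.x) (a := yB14_23) II_xB14_23 (
  fnil))))))))))))))))))))))))

theorem II_box15 : ∀ y ∈ box15, PropII y.x :=
  fcons (p := fun y : BoxB => PropII y.x) (a := yB15_0) II_xB15_0 (
  fcons (p := fun y : BoxB => PropII y.x) (a := yB15_1) II_xB15_1 (
  fcons (p := fun y : BoxB => PropII y.x) (a := yB15_2) II_xB15_2 (
  fcons (p := fun y : BoxB => PropII y.x) (a := yB15_3) II_xB15_3 (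
  fcons (p := fun y : BoxB => PropII y.x) (a := yB15_4) II_xB15_4 (
  fcons (p := fun y : BoxB => PropII y.x) (a := yB15_5) II_xB15_5 (
  fcons (p := fun y : BoxB => PropII y.x) (a := yB15_6) II_xB15_6 (
  fcons (p := fun y : BoxB => PropII y.x) (a := yB15_7) II_xB15_7 (
  fcons (p := fun y : BoxB => PropII y.x) (a := yB15_8) II_xB15_8 (
  fcons (p := fun y : BoxB => PropII y.x) (a := yB15_9) II_xB15_9 (
  fcons (p := fun y : BoxB => PropII y.x) (a := yB15_10) II_xB15_10 (
  fcons (p := fun y : BoxB => PropII y.x) (a := yB15_11) II_xB15_11 (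
  fcons (p := fun y : BoxB => PropII y.x) (a := yB15_12) II_xB15_12 (
  fcons (p := fun y : BoxB => PropII y.x) (a := yB15_13) II_xB15_13 (
  fcons (p := fun y : BoxB => PropII y.x) (a := yB15_14) II_xB15_14 (
  fcons (p := fun y : BoxB => PropII y.x) (a := yB15_15) II_xB15_15 (
  fcons (p := fun y : BoxB => PropII y.x) (a := yB15_16) II_xB15_16 (
  fcons (p := fun y : BoxB => PropII y.x) (a := yB15_17) II_xB15_17 (
  fcons (p := fun y : BoxB => PropII y.x) (a := yB15_18) II_xB15_18 (
  fcons (p := fun y : BoxB => PropII y.x) (a := yB15_19) II_xB15_19 (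
  fcons (p := fun y : BoxB => PropII y.x) (a := yB15_20) II_xB15_20 (
  fcons (p := fun y : BoxB => PropII y.x) (a := yB15_21) II_xB15_21 (
  fcons (p := fun y : BoxB => PropII y.x) (a := yB15_22) II_xB15_22 (
  fcons (p := fun y : BoxB => PropII y.x) (a := yB15_23) II_xB15_23 (
  fcons (p := fun y : BoxB => PropII y.x) (a := yB15_24) II_xB15_24 (
  fcons (p := fun y : BoxB => PropII y.x) (a := yB15_25) II_xB15_25 (
  fcons (p := fun y : BoxB => PropII y.x) (a := yB15_26) II_xB15_26 (
  fcons (p := fun y : BoxB => PropII y.x) (a := yB15_27) II_xB15_27 (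
  fcons (p := fun y : BoxB => PropII y.x) (a := yB15_28) II_xB15_28 (
  fcons (p := fun y : BoxB => PropII y.x) (a := yB15_29) II_xB15_29 (
  fcons (p := fun y : BoxB => PropII y.x) (a := yB15_30) II_xB15_30 (
  fcons (p := fun y : BoxB => PropII y.x) (a := yB15_31) II_xB15_31 (
  fcons (p := fun y : BoxB => PropII y.x) (a := yB15_32) II_xB15_32 (
  fcons (p := fun y : BoxB => PropII y.x) (a := yB15_33) II_xB15_33 (
  fcons (p := fun y : BoxB => PropII y.x) (a := yB15_34) II_xB15_34 (
  fcons (p := fun y : BoxB => PropII y.x) (a := yB15_35) II_xB15_35 (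
  fcons (p := fun y : BoxB => PropII y.x) (a := yB15_36) II_xB15_36 (
  fcons (p := fun y : BoxB => PropII y.x) (a := yB15_37) II_xB15_37 (
  fcons (p := fun y : BoxB => PropII y.x) (a := yB15_38) II_xB15_38 (
  fcons (p := fun y : BoxB => PropII y.x) (a := yB15_39) II_xB15_39 (
  fnil))))))))))))))))))))))))))))))))))))))))

end CB
end Pool.Agent.Lib.MP_6947cd_al
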