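import Pool.Agent.Lib.MP_6947cd_al.L.PairA

/-!
Problem MP_6947cd_al (Chollet).  THE PAIR FUNCTION of pure type (`omg s + omg t - omg (min u (max s t))`)
with any range of `s` (`L/PairQ.lean` needs `s < 9/20`); boxes of the library of case C.
-/

set_option autoImplicit false
open Finset

namespace Pool.Agent.Lib.MP_6947cd_al

namespace Fr
namespace PQ

open IA (fdv ile fdv_le lt_fdv)
open Ent

/-- the numbers without the range of `s` -/
def Pc.z (P : Pc) : Pc := { P with sb := ⟨0, 1⟩ }
def Nm.z (n : Nm) : Nm := { n with SB := 0 }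

/-- one piece, pure type -/
def chkQp (P : Pc) (B : Bx) (n : Nm) (C : QCert) : Bool :=
  numOK P.z n.z && (P.sb.okq && (leR P.sb ⟨n.SB, 1000000⟩ && ((!isStd P.ty) &&
  (chkM B n P.dv C.T (M1 n P.ty) C.a1 C.b1 C.p1 C.q1 &&
  chkM B n P.dv C.T (M3 n P.ty) C.a3 C.b3 C.p3 C.q3))))

theorem chkMp_sound {B : Bx} (hB : B.ok = true) {n : Nm} {dv : Bool} {T : ℕ} {M : Md}
    {a b : CT} {p q : QT} (hc : chkM B n dv T M a b p q = true) (hZ : dv = true → M.Zero)
    {h s t c u : ℝ} (g : Geo h s t c u) (h0 : (B.H0 : ℝ) / 1000000 ≤ h)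
    (h1 : h ≤ (B.H1 : ℝ) / 1000000) {G : Prop} (hM : Mode M s t u G)
    (e1 : (n.SA : ℝ) ≤ s * 1000000) (e2 : s * 1000000 ≤ n.SB) (e3 : (n.KA : ℝ) ≤ t * 1000000)
    (e4 : t * 1000000 ≤ n.KB) (hne : dv = true → s ≠ 0 ∨ t ≠ 0) : G := by
  unfold chkM at hc
  cases hd : dv with
  | false =>
    rw [hd] at hc
    simp only [cond_false] at hc
    exact qchk_sound hB g h0 h1 hM _ _ _ _ _ hc e1 e2 e3 e4
  | true =>
    rw [hd] at hc
    simp only [cond_true, Bool.and_eq_true] at hc
    obtain ⟨c1, c2, c3, c4⟩ := hc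
    have hz := hZ hd
    have hne := hne hd
    rcases le_or_gt (s * 1000000) (T : ℝ) with hsT | hsT
    · rcases le_or_gt (t * 1000000) (T : ℝ) with htT | htT
      · -- the square
        have hT1 : s * 1000000 ≤ ((Int.ofNat T : ℤ) : ℝ) := by simpa using hsT
        have hT2 : t * 1000000 ≤ ((Int.ofNat T : ℤ) : ℝ) := by simpa using htT
        rcases le_total s t with hst | hst
        · have ht : 0 < t := by
            rcases eq_or_lt_of_le g.t0 with h5 | h5
            · exfalso
              rcases hne with h6 | h6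
              · exact h6 (le_antisymm (hst.trans (le_of_eq h5.symm)) g.s0)
              · exact h6 h5.symm
            · exact h5
          refine cchkA_sound hB hz g h0 h1 hM ht hT2 hst (z := s / t) (by field_simp) _ _ _ c1 ?_ ?_
          · have := div_nonneg g.s0 g.t0
            push_cast
            positivity
          · have : s / t ≤ 1 := by rw [div_le_one ht]; exact hst
            push_cast
            linarith
        · have hs : 0 < s := by
            rcases eq_or_lt_of_le g.s0 with h5 | h5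
            · exfalso
              rcases hne with h6 | h6
              · exact h6 h5.symm
              · exact h6 (le_antisymm (hst.trans (le_of_eq h5.symm)) g.t0)
            · exact h5
          refine cchkB_sound hB hz g h0 h1 hM hs hT1 hst (z := t / s) (by field_simp) _ _ _ c2 ?_ ?_
          · have := div_nonneg g.t0 g.s0
            push_cast
            positivity
          · have : t / s ≤ 1 := by rw [div_le_one hs]; exact hst
            push_cast
            linarith
      · -- `t > T`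
        have hk : Nat.ble T n.KB = true := by
          have : (T : ℝ) ≤ n.KB := htT.le.trans e4
          exact Nat.ble_eq_true_of_le (by exact_mod_cast this)
        rw [hk] at c4
        exact qchk_sound hB g h0 h1 hM _ _ _ _ _ c4 e1 hsT htT.le e4
    · have hk : Nat.ble T n.SB = true := by
        have : (T : ℝ) ≤ n.SB := hsT.le.trans e2
        exact Nat.ble_eq_true_of_le (by exact_mod_cast this)
      rw [hk] at c3
      exact qchk_sound hB g h0 h1 hM _ _ _ _ _ c3 hsT.le e2 e3 e4

section modes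

variable {P : Pc} {n : Nm} {s t u : ℝ}

lemma mode3p (h : NOk P n) (hty : P.ty ≠ .std) (hs : 0 ≤ s) (ht : 0 ≤ t)
    (hM : max s t ≤ u) : Mode (M3 n P.ty) s t u (Goal P s t u) := by
  have hc := h.common hs ht
  have hw := h.w
  have hsu : s ≤ u := (le_max_left _ _).trans hM
  have htu : t ≤ u := (le_max_right _ _).trans hM
  cases hty' : P.ty with
  | std => exact absurd hty' hty
  | sq p q =>
    have hk := h.k p q hty'
    constructor
    · intro he
      simp [M3] at he
    · intro he
      simp [M3] at he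
    · intro hst hval
      refine goal3 h.w0 hst htu (G := (p : ℝ) / q * (t * t)) ?_ (h.div ?_ hval)
      · rw [hty']
        exact Gv_mono (.sq p q) (hty' ▸ h.ty) ht htu
      · unfold M3 Po.val omg
        push_cast
        have e : (P.w.r * (43 / 200 * s + 39 / 200 * s ^ 2 - (p : ℝ) / q * (t * t))) * n.D
            = 1720 * n.V * s + 1560 * n.V * s ^ 2 - (8000 * n.V * ((p : ℝ) / q)) * t ^ 2 := by
          have : (P.w.r * (43 / 200 * s + 39 / 200 * s ^ 2 - (p : ℝ) / q * (t * t))) * n.D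
            = (P.w.r * n.D) * (43 / 200 * s + 39 / 200 * s ^ 2 - (p : ℝ) / q * (t * t)) := by ring
          rw [this, hw]; ring
        have h5 := mul_le_mul_of_nonneg_right hk (sq_nonneg t)
        linarith
    · intro hst hval
      refine goal4 h.w0 hst hsu (G := (p : ℝ) / q * (s * s)) ?_ (h.div ?_ hval)
      · rw [hty']
        exact Gv_mono (.sq p q) (hty' ▸ h.ty) hs hsu
      · unfold M3 Po.val omg
        push_cast
        have e : (P.w.r * (43 / 200 * t + 39 / 200 * t ^ 2 - (p : ℝ) / q * (s * s))) * n.D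
            = 1720 * n.V * t + 1560 * n.V * t ^ 2 - (8000 * n.V * ((p : ℝ) / q)) * s ^ 2 := by
          have : (P.w.r * (43 / 200 * t + 39 / 200 * t ^ 2 - (p : ℝ) / q * (s * s))) * n.D
            = (P.w.r * n.D) * (43 / 200 * t + 39 / 200 * t ^ 2 - (p : ℝ) / q * (s * s)) := by ring
          rw [this, hw]; ring
        have h5 := mul_le_mul_of_nonneg_right hk (sq_nonneg s)
        linarith

end modes

/-- **THE PAIR FUNCTION** of pure type on one piece. -/
theorem chkQp_sound {P : Pc} {B : Bx} (hB : B.ok = true) {n : Nm} {C : QCert}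
    (hc : chkQp P B n C = true) {h s t c u : ℝ} (g : Geo h s t c u)
    (h0 : (B.H0 : ℝ) / 1000000 ≤ h) (h1 : h ≤ (B.H1 : ℝ) / 1000000)
    (hs0 : P.sa.r ≤ s) (hs1 : s ≤ P.sb.r) (ht0 : P.ka.r ≤ t) (ht1 : t ≤ P.kb.r) : Goal P s t u := by
  unfold chkQp at hc
  simp only [Bool.and_eq_true] at hc
  obtain ⟨c0, cs, cs', cty, c1, c3⟩ := hc
  have hn : NOk P.z n.z := NOk.of c0
  have hty : P.ty ≠ .std := by
    rintro h5
    rw [h5] at cty
    simp [isStd] at cty
  have hsb : P.sb.r * 1000000 ≤ (n.SB : ℝ) := by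
    have := (leR_iff (b := ⟨n.SB, 1000000⟩) cs rfl).mp cs'
    have e : (⟨n.SB, 1000000⟩ : R).r = (n.SB : ℝ) / 1000000 := by unfold R.r; push_cast; rfl
    rw [e, le_div_iff₀ (by norm_num)] at this
    exact this
  have z1 : P.dv = true → (M1 n P.ty).Zero := by
    intro hd
    have := (hn.dv hd).2.2
    cases hty' : P.ty with
    | std => exact absurd hty' hty
    | sq p q => exact ⟨this, this, this⟩
  have z3 : P.dv = true → (M3 n P.ty).Zero := by
    intro hd
    have := (hn.dv hd).2.2
    cases hty' : P.ty with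
    | std => exact absurd hty' hty
    | sq p q => exact ⟨rfl, this, this⟩
  have e1 : (n.SA : ℝ) ≤ s * 1000000 := by
    have h5 : (n.SA : ℝ) ≤ P.sa.r * 1000000 := hn.sa
    linarith
  have e2 : s * 1000000 ≤ n.SB := le_trans (by linarith) hsb
  have e3 : (n.KA : ℝ) ≤ t * 1000000 := by
    have h5 : (n.KA : ℝ) ≤ P.ka.r * 1000000 := hn.ka
    linarith
  have e4 : t * 1000000 ≤ n.KB := by
    have h5 : P.kb.r * 1000000 ≤ (n.KB : ℝ) := hn.kb
    linarith
  -- the origin
  by_cases hne : P.dv = true → s ≠ 0 ∨ t ≠ 0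
  · rcases le_total u (max s t) with hM | hM
    · have h4 : Mode (M1 n.z P.z.ty) s t u (Goal P.z s t u) :=
        mode1 (P := P.z) (n := n.z) hn g.s0 g.t0 g.u0 hM (fun h6 => absurd h6 hty)
      have h5 : Mode (M1 n P.ty) s t u (Goal P s t u) := h4
      exact chkMp_sound hB c1 z1 g h0 h1 h5 e1 e2 e3 e4 hne
    · have h4 : Mode (M3 n.z P.z.ty) s t u (Goal P.z s t u) :=
        mode3p (P := P.z) (n := n.z) hn hty g.s0 g.t0 hM
      have h5 : Mode (M3 n P.ty) s t u (Goal P s t u) := h4
      exact chkMp_sound hB c3 z3 g h0 h1 h5 e1 e2 e3 e4 hne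
  · push Not at hne
    obtain ⟨hd, hs, ht⟩ := hne
    obtain ⟨hka, hba, -⟩ := hn.dv hd
    have hka' : P.ka.r = 0 := hka
    have hba' : P.ba.r = 0 := hba
    unfold Goal
    rw [hs, ht, hka', hba', max_self, min_eq_right g.u0]
    have hty0 : P.ty.ok = true := hn.ty
    have hw0 : 0 ≤ P.w.r := hn.w0
    have h8 : (0 : ℝ) ≤ Gv P.ty u := by
      have h9 := Gv_mono P.ty hty0 (le_refl (0 : ℝ)) g.u0
      refine le_trans (le_of_eq ?_) h9
      cases P.ty with
      | std => rw [Gv_std_def]; norm_num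
      | sq p q => simp [Gv]
    have h9 := mul_nonneg hw0 h8
    have h10 : omg 0 = 0 := by unfold omg; norm_num
    rw [h10]
    nlinarith

end PQ
end Fr

namespace CA

open Ent Fr
open Fr.PQ (R Bx Nm QCert Pc Ty chkQp chkQp_sound Geo)

def pcchkp (p : Par) (B : Bx) (dv : Bool) (k0 : ℕ) (b0 : ℤ) (k : ℕ) (b : ℤ) : PCt → Bool
  | .one n C => chkQp (pc p dv ⟨Int.ofNat k0, 1000⟩ ⟨Int.ofNat k, 1000⟩ ⟨bav p b0, 200000⟩
      ⟨b - b0, 100 * (k - k0)⟩) B n C
  | .two _ _ _ _ => false

def chkPlp (p : Par) (B : Bx) : Bool → ℕ → ℤ → List ℕ → List ℤ → List PCt → Bool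
  | dv, k0, b0, k :: ks, b :: bs, c :: cs =>
      Nat.blt k0 k && (pcchkp p B dv k0 b0 k b c && chkPlp p B false k b ks bs cs)
  | _, _, _, [], [], [] => true
  | _, _, _, _, _, _ => false

section

variable {p : Par} {B : Bx} {h s t e u : ℝ}

/-- one piece -/
lemma pcchkp_sound (hB : B.ok = true) (g : Geo h s t e u) (h0 : (B.H0 : ℝ) / 1000000 ≤ h)
    (h1 : h ≤ (B.H1 : ℝ) / 1000000) (hs0 : p.sa.r ≤ s) (hs1 : s ≤ p.sb.r) {dv : Bool} {k0 k : ℕ}
    {b0 b : ℤ} {c : PCt} (hk : k0 < k) (hc : pcchkp p B dv k0 b0 k b c = true)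
    (ht0 : (k0 : ℝ) / 1000 ≤ t) (ht1 : t ≤ (k : ℝ) / 1000) :
    costP p s t u ≤ (b0 : ℝ) / 100000 + ((b : ℝ) / 100000 - (b0 : ℝ) / 100000)
      / ((k : ℝ) / 1000 - (k0 : ℝ) / 1000) * (t - (k0 : ℝ) / 1000) := by
  have hkr : (k0 : ℝ) < k := by exact_mod_cast hk
  have hsub : ((k - k0 : ℕ) : ℝ) = (k : ℝ) - k0 := Nat.cast_sub hk.le
  have hne : (k : ℝ) - k0 ≠ 0 := ne_of_gt (by linarith)
  have esl : (⟨b - b0, 100 * (k - k0)⟩ : R).r = ((b : ℝ) / 100000 - (b0 : ℝ) / 100000)
      / ((k : ℝ) / 1000 - (k0 : ℝ) / 1000) := by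
    unfold R.r
    push_cast
    rw [hsub]
    field_simp
    ring
  have ek0 : (⟨Int.ofNat k0, 1000⟩ : R).r = (k0 : ℝ) / 1000 := by unfold R.r; push_cast; rfl
  have ek : (⟨Int.ofNat k, 1000⟩ : R).r = (k : ℝ) / 1000 := by unfold R.r; push_cast; rfl
  have eb := bav_r p b0
  cases c with
  | one n C =>
    have h5 := pc_goal (chkQp_sound hB hc g h0 h1 hs0 hs1 (ek0.le.trans ht0) (ht1.trans ek.ge))
    rw [esl, ek0] at h5
    linarith
  | two n C n' C' => simp [pcchkp] at hc

lemma chkPlp_sound (hB : B.ok = true) (g : Geo h s t e u) (h0 : (B.H0 : ℝ) / 1000000 ≤ h)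
    (h1 : h ≤ (B.H1 : ℝ) / 1000000) (hs0 : p.sa.r ≤ s) (hs1 : s ≤ p.sb.r) :
    ∀ (ks : List ℕ) (bs : List ℤ) (cs : List PCt) (dv : Bool) (k0 : ℕ) (b0 : ℤ),
      chkPlp p B dv k0 b0 ks bs cs = true → ks ≠ [] → (k0 : ℝ) / 1000 ≤ t →
      t ≤ ((ks.getLastD 0 : ℕ) : ℝ) / 1000 →
      costP p s t u ≤ pl ((k0 : ℝ) / 1000) ((b0 : ℝ) / 100000) (kR ks) (vR bs) t := by
  intro ks
  induction ks with
  | nil => intro _ _ _ _ _ _ h; exact absurd rfl h
  | cons k ks ih =>
    intro bs cs dv k0 b0 hc _ ht0 ht1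
    cases bs with
    | nil => simp [chkPlp] at hc
    | cons b bs =>
      cases cs with
      | nil => simp [chkPlp] at hc
      | cons c cs =>
        simp only [chkPlp, Bool.and_eq_true] at hc
        obtain ⟨c1, c2, c3⟩ := hc
        have hk : k0 < k := Nat.le_of_ble_eq_true c1
        show costP p s t u ≤ pl ((k0 : ℝ) / 1000) ((b0 : ℝ) / 100000) ((k : ℝ) / 1000 :: kR ks)
          ((b : ℝ) / 100000 :: vR bs) t
        rw [pl_cons]
        split_ifs with hle
        · exact pcchkp_sound hB g h0 h1 hs0 hs1 hk c2 ht0 hle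
        · have hlt := (not_le.mp hle).le
          have hne : ks ≠ [] := by
            rintro rfl
            simp only [List.getLastD_cons, List.getLastD_nil] at ht1
            exact hle ht1
          refine ih bs cs false k b c3 hne hlt ?_
          cases ks with
          | nil => exact absurd rfl hne
          | cons k' ks' =>
            simpa [List.getLastD_cons] using ht1

end

def chkClsp (x : Box) (B : Bx) : List Cl → List CCt → Bool
  | c :: cs, C :: Cs => chkPlp (parR x c) B true 0 0 x.k c.b C.rs && chkClsp x B cs Cs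
  | [], [] => true
  | _, _ => false

/-- THE CHECK of (II) for a box without special vertices, pure classes -/
def chkIIp (x : Box) (B : Bx) (C : List CCt) : Bool :=
  B.ok && (Nat.ble B.H0 (5000 * x.H0) && (Nat.ble (5000 * x.H1) B.H1 && (Nat.blt 0 (x.k.length) &&
    Nat.beq x.q.length 0 && chkClsp x B x.cls C)))

lemma chkClsp_mem {x : Box} {B : Bx} : ∀ (l : List Cl) (Cs : List CCt), chkClsp x B l Cs = true →
    ∀ c ∈ l, ∃ C : CCt, chkPlp (parR x c) B true 0 0 x.k c.b C.rs = true := by
  intro l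
  induction l with
  | nil => intro _ _ c hc; exact absurd hc List.not_mem_nil
  | cons c0 l ih =>
    intro Cs hC c hc
    cases Cs with
    | nil => simp [chkClsp] at hC
    | cons C Cs =>
      simp only [chkClsp, Bool.and_eq_true] at hC
      obtain ⟨c1, c3⟩ := hC
      rcases List.mem_cons.mp hc with rfl | hc
      · exact ⟨C, c1⟩
      · exact ih Cs c3 c hc

theorem propIIp_of {x : Box} {B : Bx} {C : List CCt} (hc : chkIIp x B C = true) : PropII x := by
  unfold chkIIp at hc
  simp only [Bool.and_eq_true] at hc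
  obtain ⟨hB, b0, b1, ⟨hk, hq⟩, hcl⟩ := hc
  have B0 : (B.H0 : ℝ) ≤ 5000 * x.H0 := by exact_mod_cast Nat.le_of_ble_eq_true b0
  have B1 : 5000 * (x.H1 : ℝ) ≤ B.H1 := by exact_mod_cast Nat.le_of_ble_eq_true b1
  intro c hcm h s t e u hH0 hH1 g
  obtain ⟨C, c1⟩ := chkClsp_mem x.cls _ hcl c hcm
  have k0 : (B.H0 : ℝ) / 1000000 ≤ h := by linarith
  have k1 : h ≤ (B.H1 : ℝ) / 1000000 := by linarith
  constructor
  · intro hs ht
    have hkne : x.k ≠ [] := by
      rintro h0
      rw [h0] at hk
      exact absurd hk (by decide)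
    have h5 := chkPlp_sound (p := parR x c) hB g k0 k1
      (by unfold parR R.r; simpa using g.s0) (by unfold parR R.r; simpa using hs)
      x.k c.b C.rs true 0 0 c1 hkne (by simpa using g.t0) ht
    have e1 : costP (parR x c) s t u = cost c s t u - (c.a : ℝ) / 1000 * s := by
      unfold costP cost parR
      simp
    rw [e1] at h5
    unfold phR
    simpa using h5
  · intro hqne
    exfalso
    apply hqne
    exact List.length_eq_zero_iff.mp (Nat.eq_of_beq_eq_true hq)

end CA
end Pool.Agent.Lib.MP_6947cd_al
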