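import Pool.Agent.Lib.MP_6947cd_al.L.PairA
import Pool.Agent.Lib.MP_6947cd_al.L.BoxLib
import Pool.Agent.Lib.MP_6947cd_al.PS.L100_40_0
import Pool.Agent.Lib.MP_6947cd_al.PS.L100_40_1
import Pool.Agent.Lib.MP_6947cd_al.PS.L100_60_0
import Pool.Agent.Lib.MP_6947cd_al.PS.L100_60_1
import Pool.Agent.Lib.MP_6947cd_al.PS.L100_60_2

/-!
Problem MP_6947cd_al (Chollet).  Library of pair functions: certificates (generated).
-/

set_option autoImplicit false
set_option linter.defProp false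
set_option maxRecDepth 100000

namespace Pool.Agent.Lib.MP_6947cd_al
namespace CB

open CA

def cL100_20 : chkII xL100_20 ⟨500000, 550000, 724363, 707313, 741826, 688964, 707346, 671060, 707106,
 670820⟩ [⟨[.one ⟨2008000, 251, 502000, 360235, 0, 0, 0, 100000, 0, 50000⟩ ⟨50000, (.aff 1414214 707107),
 (.aff 707107 1414214), (.pol), (.pol), (.aff 0 632456 1581138), (.aff 0 1414214 707107), (.pol), (.pol),
 (.pol)⟩, .one ⟨2008000, 251, 502000, 375897, -784, 0, 0, 100000, 50000, 100000⟩ ⟨0, .pol, .pol, .pol, .pol,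
 (.sy 75000 (.aff 0 790570 1264911) (.aff 0 935415 1069045)), .pol, (.pol), (.sx 50000 (.pol) (.pol)), .pol⟩,
 .one ⟨2008000, 251, 502000, 399993, -3193, 0, 0, 100000, 100000, 150000⟩ ⟨0, .pol, .pol, .pol, .pol, (.aff 0
 1011639 988495), .pol, (.pol), (.pol), .pol⟩, .one ⟨2008000, 251, 502000, 330516, 7228, 0, 0, 100000, 150000,
 200000⟩ ⟨0, .pol, .pol, .pol, .pol, (.sy 175000 (.aff 225000 1032211 581882) (.sx 50000 (.aff 0 2738613
 365149) (.aff 294000 966731 515590))), .pol, (.pol), (.pol), .pol⟩, .one ⟨2008000, 251, 502000, 309232,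
 11485, 0, 0, 100000, 200000, 250000⟩ ⟨0, .pol, .pol, .pol, .pol, (.sy 225000 (.sx 50000 (.aff 0 2915476
 342998) (.aff 372000 1043951 377781)) (.sy 237500 (.sx 50000 (.aff 0 2483278 402694) (.aff 394000 1064102
 345114)) (.sy 243750 (.sx 50000 (.aff 250000 1645306 341882) (.aff 410000 1094906 317927)) (.sx 50000 (.aff
 375000 1603626 243589) (.aff 419000 1105854 305250))))), .pol, (.pol), (.pol), .pol⟩, .one ⟨2008000, 251,
 502000, 312444, 10682, 0, 0, 100000, 250000, 300000⟩ ⟨0, .pol, .pol, .pol, .pol, (.sy 275000 (.sy 262500 (.sx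
 50000 (.aff 394000 1389148 264361) (.aff 438000 1123828 281044)) (.sx 50000 (.aff 438000 1439976 219340)
 (.aff 450000 1140505 265234))) (.sy 287500 (.sx 50000 (.aff 469000 1495097 188591) (.aff 500000 1060661
 235703)) (.sx 50000 (.sx 25000 (.aff 0 3427828 291730) (.aff 500000 1399405 178648)) (.aff 1000000 0 0)))),
 .pol, (.pol), (.pol), .pol⟩, .one ⟨2008000, 251, 502000, 302003, 13815, 0, 0, 100000, 300000, 350000⟩ ⟨0,
 .pol, .pol, .pol, .pol, (.sy 325000 (.sy 312500 (.sy 306250 (.sx 50000 (.aff 506000 1532933 159196) (.aff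
 1000000 0 0)) (.sx 50000 (.aff 525000 1545993 145942) (.aff 1000000 0 0))) (.sy 318750 (.sx 50000 (.aff
 534000 1560939 139119) (.aff 1000000 0 0)) (.sy 321875 (.sx 50000 (.aff 550000 1586405 127648) (.aff 1000000
 0 0)) (.sx 50000 (.sx 25000 (.aff 550000 1618594 125109) (.aff 575000 1511084 119534)) (.aff 1000000 0 0)))))
 (.sx 50000 (.sx 25000 (.aff 575000 1808057 99901) (.aff 575000 1396693 129324)) (.aff 1000000 0 0))), .pol,
 (.pol), (.pol), .pol⟩, .one ⟨2008000, 251, 502000, 288348, 18594, 0, 0, 100000, 350000, 400000⟩ ⟨0, .pol,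
 .pol, .pol, .pol, (.sy 375000 (.sy 362500 (.sx 50000 (.aff 625000 1644686 85503) (.aff 1000000 0 0)) (.sy
 368750 (.sx 50000 (.aff 631000 1660150 82018) (.aff 1000000 0 0)) (.sx 50000 (.aff 663000 1711156 66370)
 (.aff 1000000 0 0)))) (.sy 387500 (.sy 381250 (.sy 378125 (.sx 50000 (.aff 675000 1702630 62037) (.aff
 1000000 0 0)) (.sy 379687 (.sx 50000 (.sx 25000 (.sx 12500 (.aff 625000 2064629 68112) (.aff 750000 1123842
 55613)) (.aff 1000000 0 0)) (.aff 1000000 0 0)) (.sx 50000 (.sx 25000 (.sx 12500 (.aff 625000 2068882 67972)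
 (.aff 750000 1126157 55499)) (.aff 1000000 0 0)) (.aff 1000000 0 0)))) (.sy 384375 (.sy 382812 (.sy 382031
 (.sx 50000 (.sx 25000 (.sx 12500 (.aff 675000 1795791 58819) (.aff 750000 1127890 55414)) (.aff 1000000 0 0))
 (.aff 1000000 0 0)) (.sy 382421 (.sx 50000 (.sx 25000 (.aff 738000 1900857 36113) (.aff 1000000 0 0)) (.aff
 1000000 0 0)) (.sy 382616 (.sx 50000 (.sx 25000 (.aff 738000 1901584 36099) (.aff 1000000 0 0)) (.aff 1000000
 0 0)) (.sx 50000 (.sx 25000 (.aff 738000 1902070 36090) (.aff 1000000 0 0)) (.aff 1000000 0 0))))) (.sx 50000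
 (.sx 25000 (.aff 738000 1904254 36048) (.aff 1000000 0 0)) (.aff 1000000 0 0))) (.sy 385937 (.sy 385156 (.sx
 50000 (.sx 25000 (.aff 738000 1907161 35993) (.aff 1000000 0 0)) (.aff 1000000 0 0)) (.sy 385546 (.sx 50000
 (.sx 25000 (.sx 12500 (.aff 750000 1963036 31839) (.aff 1000000 0 0)) (.aff 1000000 0 0)) (.aff 1000000 0 0))
 (.sy 385741 (.sx 50000 (.sx 25000 (.aff 750000 1915295 32633) (.aff 1000000 0 0)) (.aff 1000000 0 0)) (.sy
 385839 (.sx 50000 (.sx 25000 (.aff 750000 1915659 32626) (.aff 1000000 0 0)) (.aff 1000000 0 0)) (.sy 385888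
 (.sy 385863 (.sx 50000 (.sx 25000 (.aff 750000 1915811 32624) (.aff 1000000 0 0)) (.aff 1000000 0 0)) (.sy
 385875 (.sx 50000 (.sx 25000 (.aff 750000 1915855 32623) (.aff 1000000 0 0)) (.aff 1000000 0 0)) (.sx 50000
 (.sx 25000 (.aff 750000 1915886 32622) (.aff 1000000 0 0)) (.aff 1000000 0 0)))) (.sy 385912 (.sy 385900 (.sy
 385894 (.sy 385891 (.sy 385889 (.sx 50000 (.sx 25000 (.aff 750000 1915904 32622) (.aff 1000000 0 0)) (.aff
 1000000 0 0)) (.sy 385890 (.sx 50000 (.sx 25000 (.aff 750000 1915906 32622) (.aff 1000000 0 0)) (.aff 1000000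
 0 0)) (.sx 50000 (.sx 25000 (.aff 750000 1915909 32622) (.aff 1000000 0 0)) (.aff 1000000 0 0)))) (.sx 50000
 (.sx 25000 (.aff 750000 1915914 32622) (.aff 1000000 0 0)) (.aff 1000000 0 0))) (.sx 50000 (.sx 25000 (.aff
 750000 1915925 32622) (.aff 1000000 0 0)) (.aff 1000000 0 0))) (.sx 50000 (.sx 25000 (.aff 750000 1915947
 32621) (.aff 1000000 0 0)) (.aff 1000000 0 0))) (.sx 50000 (.sx 25000 (.aff 750000 1915993 32621) (.aff
 1000000 0 0)) (.aff 1000000 0 0)))))))) (.sx 50000 (.sx 25000 (.aff 750000 1917963 32587) (.aff 1000000 0 0))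
 (.aff 1000000 0 0))))) (.sx 50000 (.sx 25000 (.aff 725000 1878706 40254) (.aff 1000000 0 0)) (.aff 1000000 0
 0)))), .pol, (.pol), (.pol), .pol⟩, .one ⟨2008000, 251, 502000, 268268, 26626, 0, 0, 100000, 400000, 450000⟩
 ⟨0, .pol, .pol, .pol, .pol, (.sy 425000 (.sy 412500 (.aff 750000 1661552 37616) (.aff 775000 1677903 30172))
 (.sx 50000 (.aff 825000 1706945 17942) (.aff 1000000 0 0))), .pol, (.pol), (.pol), .pol⟩, .one ⟨2008000, 251,
 502000, 246582, 36384, 0, 0, 100000, 450000, 500000⟩ ⟨0, .pol, .pol, .pol, .pol, (.sx 50000 (.sx 25000 (.sx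
 12500 (.aff 950000 1953523 1280) (.aff 1000000 0 0)) (.aff 1000000 0 0)) (.aff 1000000 0 0)), .pol, (.pol),
 (.pol), .pol⟩, .one ⟨2008000, 251, 502000, 220478, 49436, 0, 0, 100000, 500000, 550000⟩ ⟨0, .pol, .pol, .pol,
 .pol, (.sx 50000 (.aff 1100000 1858327 5382) (.aff 1000000 0 0)), .pol, (.pol), (.pol), .pol⟩, .one ⟨2008000,
 251, 502000, 185137, 68874, 0, 0, 100000, 550000, 600000⟩ ⟨0, .pol, .pol, .pol, .pol, (.sy 575000 (.aff
 1275000 2406741 31423) (.sx 50000 (.aff 1325000 2588669 40803) (.aff 1000000 0 0))), .pol, (.pol), (.pol),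
 .pol⟩, .one ⟨2008000, 251, 502000, 150600, 89596, 0, 0, 100000, 600000, 650000⟩ ⟨0, .pol, .pol, .pol, .pol,
 (.sx 50000 (.sx 25000 (.sy 625000 (.aff 1488000 2859761 83275) (.aff 1500000 2915476 85750)) (.aff 1500000
 2236068 111804)) (.aff 1000000 0 0)), .pol, (.pol), (.pol), .pol⟩, .one ⟨2008000, 251, 502000, 104014,
 119877, 0, 0, 100000, 650000, 700000⟩ ⟨0, .pol, .pol, .pol, .pol, (.sx 50000 (.aff 1650000 3056088 138249)
 (.aff 1500000 1500001 166667)), .pol, (.pol), (.pol), .pol⟩, .one ⟨2008000, 251, 502000, 57830, 152206, 0, 0,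
 100000, 700000, 750000⟩ ⟨0, .pol, .pol, .pol, .pol, (.sx 50000 (.aff 1900000 3427098 236352) (.aff 1900000
 3092505 261924)), .pol, (.pol), (.pol), .pol⟩, .one ⟨2008000, 251, 502000, 28915, 173892, 0, 0, 100000,
 750000, 800000⟩ ⟨0, .pol, .pol, .pol, .pol, (.sx 50000 (.aff 2000000 4546061 219971) (.aff 2000000 3214551
 311086)), .pol, (.pol), (.pol), .pol⟩, .one ⟨2008000, 251, 502000, -15954364, 12960515, 0, 0, 100000, 800000,
 850000⟩ ⟨0, .pol, .pol, .pol, .pol, (.sx 50000 (.aff 35000000 195315130 5918641) (.sx 75000 (.aff 35000000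
 123528135 9358192) (.sx 87500 (.inf 3186511 313823) (.sx 93750 (.inf 3017193 331434) (.sy 825000 (.sy 812500
 (.sx 96875 (.inf 2908439 343828) (.sy 806250 (.sx 98437 (.inf 2867756 348705) (.sy 803125 (.sx 99218 (.inf
 2847934 351132) (.sy 801562 (.sx 99609 (.inf 2838143 352344) (.sy 800781 (.sx 99804 (.inf 2833279 352948)
 (.sy 800390 (.sx 99902 (.sy 800195 (.aff 20000000 53782936 6712167) (.inf 2831026 353229)) (.sy 800195 (.sx
 99951 (.aff 35000000 96207746 12015665) (.sy 800097 (.aff 3000000 5657719 706999) (.sx 99975 (.aff 35000000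
 96193095 12017495) (.sy 800146 (.aff 3000000 5657638 707009) (.sy 800170 (.aff 35000000 96182030 12018878)
 (.inf 2828927 353491)))))) (.inf 2829638 353403))) (.inf 2830850 353251))) (.inf 2833269 352950))) (.inf
 2838121 352346))) (.inf 2847852 351142))) (.inf 2867442 348743))) (.inf 2907166 343978)) (.inf 2940266
 340106)))))), .pol, (.pol), (.sy 825000 (.sy 812500 (.sy 806250 (.pol) (.inf 3218696 310685)) (.inf 3237283
 308902)) (.inf 3274142 305424)), .pol⟩, .one ⟨2008000, 251, 502000, -34136, -571678, 0, 0, 100000, 850000,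
 900000⟩ ⟨0, .pol, .pol, .pol, .pol, (.inf 4183301 239046), .pol, (.pol), (.inf 4183301 239046), .pol⟩, .one
 ⟨2008000, 251, 502000, 0, -602400, 0, 0, 100000, 900000, 950000⟩ ⟨0, .pol, .pol, .pol, .pol, (.aff 35000000
 119404076 9681412), .pol, (.pol), (.inf 4301163 232496), .pol⟩, .one ⟨2008000, 251, 502000, 0, -602400, 0, 0,
 100000, 950000, 1000000⟩ ⟨0, .pol, .pol, .pol, .pol, (.aff 20000000 68505475 5269652), .pol, (.pol), (.inf
 4415881 226456), .pol⟩], []⟩, ⟨[.one ⟨2008000, 251, 803200, 241361, 0, 0, 0, 100000, 0, 50000⟩ ⟨25000, (.aff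
 3162278 316228), (.pol), (.pol), (.pol), (.aff 0 632456 1581138), (.aff 0 3841565 260311), (.pol), (.pol),
 (.pol)⟩, .one ⟨2008000, 251, 803200, 273891, -1627, 0, 0, 100000, 50000, 100000⟩ ⟨0, .pol, .pol, .pol, .pol,
 (.sx 50000 (.sy 75000 (.sx 25000 (.aff 0 3862415 258906) (.aff 0 1290995 774597)) (.aff 0 3661801 273090))
 (.aff 0 1000000 1000000)), .pol, (.pol), (.sx 50000 (.pol) (.pol)), .pol⟩, .one ⟨2008000, 251, 803200,
 306420, -4880, 0, 0, 100000, 100000, 150000⟩ ⟨0, .pol, .pol, .pol, .pol, (.sx 50000 (.sy 125000 (.aff 0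
 3664209 272911) (.aff 0 3552664 281479)) (.aff 0 1290995 774597)), .pol, (.pol), (.pol), .pol⟩, .one
 ⟨2008000, 251, 803200, 339352, -9820, 0, 0, 100000, 150000, 200000⟩ ⟨0, .pol, .pol, .pol, .pol, (.sx 50000
 (.sx 25000 (.aff 0 3559175 280964) (.aff 0 2366432 422578)) (.aff 0 1527526 654654)), .pol, (.pol), (.pol),
 .pol⟩, .one ⟨2008000, 251, 803200, 372684, -16486, 0, 0, 100000, 200000, 250000⟩ ⟨0, .pol, .pol, .pol, .pol,
 (.sx 50000 (.sx 25000 (.aff 0 3464102 288676) (.aff 0 3277368 305123)) (.aff 0 1732051 577351)), .pol,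
 (.pol), (.pol), .pol⟩, .one ⟨2008000, 251, 803200, 410435, -25924, 0, 0, 100000, 250000, 300000⟩ ⟨0, .pol,
 .pol, .pol, .pol, (.sy 275000 (.sy 262500 (.sx 50000 (.sx 25000 (.aff 0 3345045 298950) (.aff 0 2863565
 349216)) (.aff 0 1848423 541002)) (.sx 50000 (.aff 0 3278720 304998) (.aff 0 1892970 528271))) (.sx 50000
 (.aff 25000 3306386 287512) (.aff 0 1957891 510754))), .pol, (.pol), (.pol), .pol⟩, .one ⟨2008000, 251,
 803200, 385536, -18454, 0, 0, 100000, 300000, 350000⟩ ⟨0, .pol, .pol, .pol, .pol, (.sy 325000 (.sy 312500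
 (.sx 50000 (.aff 63000 3279500 267715) (.aff 0 2020726 494872)) (.sy 318750 (.sy 315625 (.sx 50000 (.aff
 72000 3289168 261825) (.aff 0 2241652 446100)) (.sy 317187 (.sx 50000 (.sx 25000 (.aff 125000 3594428 213004)
 (.aff 500000 1452369 172133)) (.aff 0 2250000 444445)) (.sx 50000 (.sx 25000 (.aff 125000 3603293 212480)
 (.aff 500000 1455950 171710)) (.aff 0 2255548 443352)))) (.sy 321875 (.sx 50000 (.sx 25000 (.aff 125000
 3616550 211701) (.aff 500000 1461307 171080)) (.aff 1000000 0 0)) (.sy 323437 (.sx 50000 (.sx 25000 (.aff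
 125000 3629755 210931) (.aff 1000000 0 0)) (.aff 1000000 0 0)) (.sy 324218 (.sx 50000 (.sx 25000 (.aff 125000
 3636339 210549) (.aff 1000000 0 0)) (.aff 1000000 0 0)) (.sx 50000 (.sx 25000 (.aff 175000 3432683 198278)
 (.aff 1000000 0 0)) (.aff 1000000 0 0))))))) (.sx 50000 (.aff 307000 3600934 133368) (.aff 1000000 0 0))),
 .pol, (.pol), (.pol), .pol⟩, .one ⟨2008000, 251, 803200, 319673, 4598, 0, 0, 100000, 350000, 400000⟩ ⟨0,
 .pol, .pol, .pol, .pol, (.sx 50000 (.aff 550000 3723228 54389) (.aff 1000000 0 0)), .pol, (.pol), (.pol),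
 .pol⟩, .one ⟨2008000, 251, 803200, 287144, 17610, 0, 0, 100000, 400000, 450000⟩ ⟨0, .pol, .pol, .pol, .pol,
 (.sy 425000 (.aff 712000 3788179 21896) (.aff 775000 3630773 13944)), .pol, (.pol), (.pol), .pol⟩, .one
 ⟨2008000, 251, 803200, 259835, 29899, 0, 0, 100000, 450000, 500000⟩ ⟨0, .pol, .pol, .pol, .pol, (.sx 50000
 (.sx 25000 (.sx 12500 (.sy 475000 (.aff 875000 3384360 4617) (.sx 6250 (.sx 3125 (.aff 950000 1456112 1717)
 (.aff 1000000 0 0)) (.aff 1000000 0 0))) (.aff 1000000 0 0)) (.aff 1000000 0 0)) (.aff 1000000 0 0)), .pol,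
 (.pol), (.pol), .pol⟩, .one ⟨2008000, 251, 803200, 207225, 56203, 0, 0, 100000, 500000, 550000⟩ ⟨0, .pol,
 .pol, .pol, .pol, (.sx 50000 (.aff 1150000 3080652 7304) (.aff 1000000 0 0)), .pol, (.pol), (.pol), .pol⟩,
 .one ⟨2008000, 251, 803200, 137748, 94416, 0, 0, 100000, 550000, 600000⟩ ⟨0, .pol, .pol, .pol, .pol, (.sy
 575000 (.sx 50000 (.sx 25000 (.aff 1500000 4743417 52705) (.aff 1000000 0 0)) (.aff 1000000 0 0)) (.sx 50000
 (.sx 25000 (.aff 1475000 4605296 48993) (.aff 1000000 0 0)) (.aff 1000000 0 0))), .pol, (.pol), (.pol),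
 .pol⟩, .one ⟨2008000, 251, 803200, 75099, 132005, 0, 0, 100000, 600000, 650000⟩ ⟨0, .pol, .pol, .pol, .pol,
 (.sx 50000 (.sx 25000 (.sx 12500 (.aff 1900000 6363962 127280) (.aff 1750000 4896505 114878)) (.aff 1500000
 2041242 122475)) (.aff 1000000 0 0)), .pol, (.pol), (.pol), .pol⟩, .one ⟨2008000, 251, 803200, -10040,
 187346, 0, 0, 100000, 650000, 700000⟩ ⟨0, .pol, .pol, .pol, .pol, (.sy 675000 (.sy 662500 (.sx 50000 (.aff
 2000000 5123476 195180) (.aff 1000000 0 0)) (.sx 50000 (.sx 25000 (.aff 2000000 5172041 193348) (.aff 2100000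
 5088615 237786)) (.aff 1000000 0 0))) (.sy 687500 (.sx 50000 (.sx 25000 (.aff 3000000 12055428 331801) (.aff
 2100000 5135952 235595)) (.aff 1000000 0 0)) (.sx 50000 (.sx 25000 (.aff 3000000 14899665 268463) (.aff
 2100000 5182857 233462)) (.aff 1000000 0 0)))), .pol, (.pol), (.pol), .pol⟩, .one ⟨2008000, 251, 803200,
 -91565, 244413, 0, 0, 100000, 700000, 750000⟩ ⟨0, .pol, .pol, .pol, .pol, (.sx 50000 (.aff 2600000 6092619
 420181) (.aff 2425000 5363810 378579)), .pol, (.pol), (.pol), .pol⟩, .one ⟨2008000, 251, 803200, -177508,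
 308870, 0, 0, 100000, 750000, 800000⟩ ⟨0, .pol, .pol, .pol, .pol, (.aff 2925000 6188010 598840), .pol,
 (.pol), (.pol), .pol⟩, .one ⟨2008000, 251, 803200, -15358389, 12453575, 0, 0, 100000, 800000, 850000⟩ ⟨0,
 .pol, .pol, .pol, .pol, (.sx 50000 (.aff 20000000 77178365 4677477) (.sx 75000 (.aff 35000000 123528135
 9358192) (.sx 87500 (.inf 3186511 313823) (.sx 93750 (.inf 3017193 331434) (.sy 825000 (.sx 96875 (.inf
 2919691 342502) (.sy 812500 (.sy 806250 (.sx 98437 (.inf 2867756 348705) (.sy 803125 (.sx 99218 (.inf 2847934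
 351132) (.sy 801562 (.sx 99609 (.inf 2838143 352344) (.sy 800781 (.sx 99804 (.inf 2833279 352948) (.sy 800390
 (.sx 99902 (.sy 800195 (.aff 20000000 53782936 6712167) (.inf 2831026 353229)) (.sy 800195 (.sx 99951 (.aff
 35000000 96207746 12015665) (.sy 800097 (.aff 3000000 5657719 706999) (.sx 99975 (.aff 35000000 96193095
 12017495) (.sy 800146 (.aff 3000000 5657638 707009) (.sy 800170 (.aff 20000000 53748782 6716432) (.inf
 2828927 353491)))))) (.inf 2829638 353403))) (.inf 2830850 353251))) (.inf 2833269 352950))) (.inf 2838121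
 352346))) (.inf 2847852 351142))) (.inf 2867442 348743)) (.inf 2884001 346741))) (.inf 2940266 340106)))))),
 .pol, (.pol), (.sy 825000 (.sy 812500 (.sy 806250 (.pol) (.inf 3218696 310685)) (.inf 3237283 308902)) (.inf
 3274142 305424)), .pol⟩, .one ⟨2008000, 251, 803200, -26908, -578184, 0, 0, 100000, 850000, 900000⟩ ⟨0, .pol,
 .pol, .pol, .pol, (.inf 4183301 239046), .pol, (.pol), (.inf 4183301 239046), .pol⟩, .one ⟨2008000, 251,
 803200, 0, -602400, 0, 0, 100000, 900000, 950000⟩ ⟨0, .pol, .pol, .pol, .pol, (.aff 35000000 119404076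
 9681412), .pol, (.pol), (.inf 4301163 232496), .pol⟩, .one ⟨2008000, 251, 803200, 0, -602400, 0, 0, 100000,
 950000, 1000000⟩ ⟨0, .pol, .pol, .pol, .pol, (.aff 20000000 68505475 5269652), .pol, (.pol), (.inf 4415881
 226456), .pol⟩], []⟩, ⟨[.one ⟨2008000, 251, 2008000, 220880, 0, 0, 0, 100000, 0, 50000⟩ ⟨12500, (.sp 250000
 (.aff 6324556 158114) (.pol)), (.pol), (.pol), (.pol), (.pol), (.aff 0 14172346 70560), (.pol), (.pol),
 (.pol)⟩, .one ⟨2008000, 251, 2008000, 249795, -1446, 0, 0, 100000, 50000, 100000⟩ ⟨0, .pol, .pol, .pol, .pol,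
 (.aff 0 13795000 72491), .pol, (.pol), (.sx 50000 (.pol) (.pol)), .pol⟩, .one ⟨2008000, 251, 2008000, 279112,
 -4378, 0, 0, 100000, 100000, 150000⟩ ⟨0, .pol, .pol, .pol, .pol, (.aff 0 13527423 73924), .pol, (.pol),
 (.pol), .pol⟩, .one ⟨2008000, 251, 2008000, 308428, -8775, 0, 0, 100000, 150000, 200000⟩ ⟨0, .pol, .pol,
 .pol, .pol, (.aff 0 13104493 76310), .pol, (.pol), (.pol), .pol⟩, .one ⟨2008000, 251, 2008000, 337344,
 -14558, 0, 0, 100000, 200000, 250000⟩ ⟨0, .pol, .pol, .pol, .pol, (.aff 0 12789344 78191), .pol, (.pol),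
 (.pol), .pol⟩, .one ⟨2008000, 251, 2008000, 366660, -21888, 0, 0, 100000, 250000, 300000⟩ ⟨0, .pol, .pol,
 .pol, .pol, (.aff 0 12169681 82172), .pol, (.pol), (.pol), .pol⟩, .one ⟨2008000, 251, 2008000, 396780,
 -30924, 0, 0, 100000, 300000, 350000⟩ ⟨0, .pol, .pol, .pol, .pol, (.aff 0 11822148 84587), .pol, (.pol),
 (.pol), .pol⟩, .one ⟨2008000, 251, 2008000, 444571, -47650, 0, 0, 100000, 350000, 400000⟩ ⟨0, .pol, .pol,
 .pol, .pol, (.aff 0 11635085 85947), .pol, (.pol), (.pol), .pol⟩, .one ⟨2008000, 251, 2008000, 338147, -5081,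
 0, 0, 100000, 400000, 450000⟩ ⟨0, .pol, .pol, .pol, .pol, (.sx 50000 (.sx 25000 (.sx 12500 (.sx 6250 (.sx
 3125 (.sy 425000 (.aff 500000 11489126 21760) (.aff 600000 11561466 13840)) (.aff 500000 4760953 52511))
 (.aff 1000000 0 0)) (.aff 1000000 0 0)) (.aff 0 3366502 297045)) (.aff 0 2380477 420084)), .pol, (.pol),
 (.pol), .pol⟩, .one ⟨2008000, 251, 2008000, 266260, 27268, 0, 0, 100000, 450000, 500000⟩ ⟨0, .pol, .pol,
 .pol, .pol, (.sx 50000 (.sx 25000 (.aff 875000 2425228 6443) (.aff 1000000 0 0)) (.aff 0 2516612 397360)),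
 .pol, (.pol), (.pol), .pol⟩, .one ⟨2008000, 251, 2008000, 154214, 83291, 0, 0, 100000, 500000, 550000⟩ ⟨0,
 .pol, .pol, .pol, .pol, (.sx 50000 (.aff 1350000 11234762 10904) (.aff 0 2645752 377965)), .pol, (.pol),
 (.pol), .pol⟩, .one ⟨2008000, 251, 2008000, -51807, 196603, 0, 0, 100000, 550000, 600000⟩ ⟨0, .pol, .pol,
 .pol, .pol, (.sx 50000 (.sx 25000 (.sy 575000 (.aff 2100000 12745969 94932) (.sy 587500 (.sx 12500 (.sx 6250
 (.aff 2700000 16394207 176282) (.aff 2200000 12642316 113904)) (.aff 1000000 0 0)) (.sx 12500 (.sx 6250 (.aff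
 3000000 22509258 177705) (.aff 2839000 13719971 246497)) (.aff 1000000 0 0)))) (.aff 1000000 0 0)) (.aff
 1000000 0 0)), .pol, (.pol), (.pol), .pol⟩, .one ⟨2008000, 251, 2008000, -227708, 302143, 0, 0, 100000,
 600000, 650000⟩ ⟨0, .pol, .pol, .pol, .pol, (.sy 625000 (.sx 50000 (.sy 612500 (.aff 2900000 13231969 272825)
 (.sy 618750 (.sx 25000 (.aff 2900000 13333886 270739) (.aff 1000000 0 0)) (.sx 25000 (.sx 12500 (.aff 3000000
 14106736 283553) (.aff 3100000 13248321 332873)) (.aff 1000000 0 0)))) (.aff 1000000 0 0)) (.sx 50000 (.sy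
 637500 (.sy 631250 (.sx 25000 (.sx 12500 (.aff 3000000 14177447 282139) (.aff 3100000 13314729 331213)) (.aff
 1000000 0 0)) (.sx 25000 (.sx 12500 (.aff 3000000 14247807 280745) (.aff 3100000 13380808 329577)) (.aff
 1000000 0 0))) (.sy 643750 (.sx 25000 (.sx 12500 (.aff 3000000 14317822 279373) (.aff 3100000 13446561
 327965)) (.aff 1000000 0 0)) (.sx 25000 (.aff 4200000 16277592 629086) (.aff 1000000 0 0)))) (.aff 1000000 0
 0))), .pol, (.pol), (.pol), .pol⟩, .one ⟨2008000, 251, 2008000, -467061, 457723, 0, 0, 100000, 650000,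
 700000⟩ ⟨0, .pol, .pol, .pol, .pol, (.sx 50000 (.sx 25000 (.aff 5000000 20784610 769801) (.sx 37500 (.sy
 675000 (.aff 4000000 14560220 618123) (.aff 4465000 15211825 789270)) (.aff 4000000 12228592 735981))) (.aff
 1000000 0 0)), .pol, (.pol), (.pol), .pol⟩, .one ⟨2008000, 251, 2008000, -687138, 611777, 0, 0, 100000,
 700000, 750000⟩ ⟨0, .pol, .pol, .pol, .pol, (.sx 50000 (.sy 725000 (.aff 5200000 15854653 1112608) (.aff
 8000000 26884011 1822645)) (.sx 75000 (.sy 725000 (.aff 5175000 15620768 1115863) (.aff 5200000 15207893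
 1159924)) (.aff 1000000 0 0))), .pol, (.pol), (.pol), .pol⟩, .one ⟨2008000, 251, 2008000, -1001189, 847315,
 0, 0, 100000, 750000, 800000⟩ ⟨0, .pol, .pol, .pol, .pol, (.sx 50000 (.aff 8000000 31822424 1539795) (.sx
 75000 (.aff 6900000 18965847 1835405) (.sx 87500 (.sy 775000 (.aff 6300000 16557730 1696489) (.aff 6900000
 17700000 1966667)) (.aff 6337000 16002264 1779972)))), .pol, (.pol), (.pol), .pol⟩, .one ⟨2008000, 251,
 2008000, -12972885, 10424672, 0, 0, 100000, 800000, 850000⟩ ⟨0, .pol, .pol, .pol, .pol, (.sx 50000 (.aff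
 20000000 89117900 4050814) (.sx 75000 (.aff 35000000 123528135 9358192) (.sx 87500 (.aff 35100000 106628785
 10905217) (.sx 93750 (.inf 3017193 331434) (.sx 96875 (.inf 2942064 339898) (.sx 98437 (.inf 2906549 344051)
 (.sy 825000 (.sy 812500 (.sy 806250 (.sx 99218 (.inf 2850708 350791) (.sy 803125 (.sx 99609 (.inf 2839528
 352172) (.sy 801562 (.sx 99804 (.inf 2833970 352862) (.sy 800781 (.sx 99902 (.sy 800390 (.aff 35000000
 96249011 12010514) (.inf 2831544 353165)) (.sy 800390 (.sy 800195 (.aff 8000000 19805050 2474117) (.inf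
 2829638 353403)) (.inf 2830156 353338))) (.inf 2831886 353122))) (.inf 2835340 352692))) (.inf 2842264
 351833))) (.inf 2856134 350124)) (.inf 2872628 348114)) (.inf 2905335 344195)))))))), .pol, (.pol), (.sy
 825000 (.sy 812500 (.sy 806250 (.sx 50000 (.inf 5667893 176433) (.pol)) (.inf 3218696 310685)) (.inf 3237283
 308902)) (.inf 3274142 305424)), .pol⟩, .one ⟨2008000, 251, 2008000, -2410, -600232, 0, 0, 100000, 850000,
 900000⟩ ⟨0, .pol, .pol, .pol, .pol, (.inf 4183301 239046), .pol, (.pol), (.inf 4183301 239046), .pol⟩, .one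
 ⟨2008000, 251, 2008000, 0, -602400, 0, 0, 100000, 900000, 950000⟩ ⟨0, .pol, .pol, .pol, .pol, (.aff 35000000
 119404076 9681412), .pol, (.pol), (.inf 4301163 232496), .pol⟩, .one ⟨2008000, 251, 2008000, 0, -602400, 0,
 0, 100000, 950000, 1000000⟩ ⟨0, .pol, .pol, .pol, .pol, (.aff 20000000 68505475 5269652), .pol, (.pol), (.inf
 4415881 226456), .pol⟩], []⟩, ⟨[.one ⟨2008000, 251, 401600, 2752164, 0, 0, 0, 100000, 0, 50000⟩ ⟨50000,
 (.pol), (.sp 500000 (.sp 250000 (.aff 158114 6324551) (.pol)) (.pol)), (.pol), (.pol), (.aff 0 74785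
 13371666), (.pol), (.pol), (.pol), (.pol)⟩, .one ⟨2008000, 251, 401600, -1961013, 235658, 0, 0, 100000,
 50000, 100000⟩ ⟨0, .pol, .pol, .pol, .pol, (.aff 0 1000000 1000000), .pol, (.pol), (.sx 50000 (.pol) (.pol)),
 .pol⟩, .one ⟨2008000, 251, 401600, 277104, 11847, 0, 0, 100000, 100000, 150000⟩ ⟨0, .pol, .pol, .pol, .pol,
 (.aff 0 1011639 988495), .pol, (.pol), (.pol), .pol⟩, .one ⟨2008000, 251, 401600, 93171, 39437, 0, 0, 100000,
 150000, 200000⟩ ⟨0, .pol, .pol, .pol, .pol, (.sx 50000 (.aff 0 2645752 377965) (.sx 75000 (.aff 0 1673321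
 597614) (.sx 87500 (.aff 250000 1100700 511039) (.sx 93750 (.aff 250000 1042213 539717) (.sx 96875 (.aff
 266000 1043345 516374) (.sy 175000 (.aff 256000 984027 562522) (.sy 187500 (.aff 282000 954017 540372) (.aff
 325000 939561 484934)))))))), .pol, (.pol), (.pol), .pol⟩, .one ⟨2008000, 251, 401600, -52208, 68512, 0, 0,
 100000, 200000, 250000⟩ ⟨0, .pol, .pol, .pol, .pol, (.sy 225000 (.sx 50000 (.aff 0 2915476 342998) (.aff
 516000 751049 311906)) (.sx 50000 (.aff 0 2516612 397360) (.aff 541000 791595 266148))), .pol, (.pol),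
 (.pol), .pol⟩, .one ⟨2008000, 251, 401600, -79919, 75440, 0, 0, 100000, 250000, 300000⟩ ⟨0, .pol, .pol, .pol,
 .pol, (.sx 50000 (.aff 575000 1047816 172383) (.aff 594000 873192 188775)), .pol, (.pol), (.pol), .pol⟩, .one
 ⟨2008000, 251, 401600, -115661, 86163, 0, 0, 100000, 300000, 350000⟩ ⟨0, .pol, .pol, .pol, .pol, (.sy 325000
 (.sx 50000 (.aff 638000 1119376 117069) (.aff 1000000 0 0)) (.sy 337500 (.sy 331250 (.sy 328125 (.sx 50000
 (.sx 25000 (.aff 500000 1807105 138343) (.aff 650000 1032846 118605)) (.aff 1000000 0 0)) (.sx 50000 (.sx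
 25000 (.aff 625000 1572469 89430) (.aff 675000 1064998 99179)) (.aff 1000000 0 0))) (.sy 334375 (.sx 50000
 (.sx 25000 (.aff 625000 1579904 89009) (.aff 650000 1066863 114823)) (.aff 1000000 0 0)) (.sy 335937 (.sx
 50000 (.sx 25000 (.aff 625000 1585456 88697) (.aff 650000 1146217 106874)) (.aff 1000000 0 0)) (.sx 50000
 (.sx 25000 (.aff 625000 1589148 88491) (.aff 750000 820633 76161)) (.aff 1000000 0 0))))) (.sy 343750 (.sy
 340625 (.sx 50000 (.sx 25000 (.aff 625000 1594669 88185) (.aff 750000 823484 75898)) (.aff 1000000 0 0)) (.sx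
 50000 (.sx 25000 (.aff 625000 1602001 87781) (.aff 750000 755191 82761)) (.aff 1000000 0 0))) (.sy 346875
 (.sy 345312 (.sx 50000 (.sx 25000 (.aff 625000 1607478 87482) (.aff 1000000 0 0)) (.aff 1000000 0 0)) (.sx
 50000 (.sx 25000 (.aff 625000 1611119 87285) (.aff 1000000 0 0)) (.aff 1000000 0 0))) (.sy 348437 (.sx 50000
 (.sx 25000 (.aff 625000 1614751 87088) (.aff 1000000 0 0)) (.aff 1000000 0 0)) (.sx 50000 (.sx 25000 (.aff
 625000 1618376 86893) (.aff 1000000 0 0)) (.aff 1000000 0 0))))))), .pol, (.pol), (.pol), .pol⟩, .one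
 ⟨2008000, 251, 401600, -164255, 103171, 0, 0, 100000, 350000, 400000⟩ ⟨0, .pol, .pol, .pol, .pol, (.sy 375000
 (.sy 362500 (.sy 356250 (.sx 50000 (.sx 25000 (.aff 750000 1328769 47037) (.aff 1000000 0 0)) (.aff 1000000 0
 0)) (.sx 50000 (.sx 25000 (.aff 750000 1340476 46626) (.aff 1000000 0 0)) (.aff 1000000 0 0))) (.sy 368750
 (.sx 50000 (.sx 25000 (.aff 750000 1352082 46226) (.aff 1000000 0 0)) (.aff 1000000 0 0)) (.sx 50000 (.aff
 750000 1280974 48791) (.aff 1000000 0 0)))) (.sx 50000 (.aff 750000 1291365 48399) (.aff 1000000 0 0))),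
 .pol, (.pol), (.pol), .pol⟩, .one ⟨2008000, 251, 401600, -218471, 124857, 0, 0, 100000, 400000, 450000⟩ ⟨0,
 .pol, .pol, .pol, .pol, (.sy 425000 (.sy 412500 (.sx 50000 (.aff 850000 1427608 15761) (.aff 1000000 0 0))
 (.sy 418750 (.sx 50000 (.sx 25000 (.aff 800000 1408591 28398) (.aff 1000000 0 0)) (.aff 1000000 0 0)) (.sy
 421875 (.aff 850000 1360282 16541) (.sx 50000 (.sy 423437 (.sx 25000 (.sx 12500 (.sx 6250 (.aff 750000
 2055860 30401) (.aff 1000000 0 0)) (.aff 1000000 0 0)) (.aff 1000000 0 0)) (.sx 25000 (.sx 12500 (.aff 875000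
 1512049 10334) (.aff 1000000 0 0)) (.aff 1000000 0 0))) (.aff 1000000 0 0))))) (.sx 50000 (.aff 875000
 1470692 10625) (.aff 1000000 0 0))), .pol, (.pol), (.pol), .pol⟩, .one ⟨2008000, 251, 401600, -273892,
 149796, 0, 0, 100000, 450000, 500000⟩ ⟨0, .pol, .pol, .pol, .pol, (.sx 50000 (.sx 25000 (.sx 12500 (.aff
 950000 877775 2849) (.aff 1000000 0 0)) (.aff 1000000 0 0)) (.aff 1000000 0 0)), .pol, (.pol), (.pol), .pol⟩,
 .one ⟨2008000, 251, 401600, -349794, 187748, 0, 0, 100000, 500000, 550000⟩ ⟨0, .pol, .pol, .pol, .pol, (.sx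
 50000 (.aff 1100000 1767695 5658) (.aff 1000000 0 0)), .pol, (.pol), (.pol), .pol⟩, .one ⟨2008000, 251,
 401600, -417664, 225076, 0, 0, 100000, 550000, 600000⟩ ⟨0, .pol, .pol, .pol, .pol, (.sx 50000 (.aff 1200000
 1924917 20781) (.aff 1000000 0 0)), .pol, (.pol), (.pol), .pol⟩, .one ⟨2008000, 251, 401600, -514048, 282907,
 0, 0, 100000, 600000, 650000⟩ ⟨0, .pol, .pol, .pol, .pol, (.sx 50000 (.sx 25000 (.aff 1363000 2216847 59440)
 (.aff 1350000 1565248 78263)) (.aff 1000000 0 0)), .pol, (.pol), (.pol), .pol⟩, .one ⟨2008000, 251, 401600,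
 -148592, 45360, 0, 0, 100000, 650000, 700000⟩ ⟨0, .pol, .pol, .pol, .pol, (.sy 675000 (.aff 1431000 2218709
 83725) (.aff 1500000 1854050 134840)), .pol, (.sx 50000 (.aff 1700000 2571965 190516) (.aff 1600000 1971802
 182575)), (.pol), .pol⟩, .one ⟨2008000, 251, 401600, 130921, -150299, 0, 0, 100000, 700000, 750000⟩ ⟨0, .pol,
 .pol, .pol, .pol, (.aff 1000000 0 0), .pol, (.sx 50000 (.aff 1700000 2665521 183829) (.sy 725000 (.aff
 1644000 2174395 190737) (.aff 1750000 2406400 233752))), (.pol), .pol⟩, .one ⟨2008000, 251, 401600, 63854,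
 -99999, 0, 0, 100000, 750000, 800000⟩ ⟨0, .pol, .pol, .pol, .pol, (.aff 1000000 0 0), .pol, (.sx 50000 (.aff
 2000000 4546061 219971) (.aff 2007000 2838632 357232)), (.pol), .pol⟩, .one ⟨2008000, 251, 401600, -11057253,
 8796887, 0, 0, 100000, 800000, 850000⟩ ⟨0, .pol, .pol, .pol, .pol, (.aff 1000000 0 0), .pol, (.sx 50000 (.aff
 20000000 109146691 3307476) (.sx 75000 (.aff 35000000 123528135 9358192) (.sx 87500 (.aff 35000000 108341341
 10669981) (.sx 93750 (.aff 36100000 104123427 11832208) (.sx 96875 (.inf 2942064 339898) (.sx 98437 (.inf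
 2906549 344051) (.sy 825000 (.sx 99218 (.inf 2867298 348761) (.sx 99609 (.inf 2858835 349793) (.sx 99804
 (.inf 2854631 350308) (.sx 99902 (.sx 99853 (.inf 2852886 350523) (.sy 812500 (.sy 806250 (.sy 803125 (.sy
 801562 (.sy 800781 (.sy 800390 (.aff 35000000 96237206 12011987) (.inf 2831197 353208)) (.inf 2832233
 353079)) (.inf 2834304 352821)) (.inf 2838441 352307)) (.inf 2846696 351285)) (.inf 2863135 349268))) (.sx
 99951 (.sy 812500 (.sy 806250 (.sy 803125 (.sy 801562 (.sy 800781 (.sy 800390 (.sy 800195 (.aff 20000000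
 53763152 6714637) (.inf 2829985 353359)) (.inf 2830503 353295)) (.inf 2831539 353165)) (.inf 2833609 352907))
 (.inf 2837745 352393)) (.inf 2845998 351371)) (.inf 2862433 349354)) (.sy 812500 (.sy 806250 (.sy 803125 (.sy
 801562 (.sy 800781 (.sy 800390 (.sy 800195 (.aff 35000000 96184166 12018611) (.inf 2829291 353446)) (.inf
 2829809 353381)) (.inf 2830845 353252)) (.inf 2832914 352994)) (.inf 2837049 352479)) (.inf 2845301 351457))
 (.inf 2861732 349439))))))) (.inf 2905335 344195)))))))), (.sy 825000 (.sy 812500 (.pol) (.inf 3237283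
 308902)) (.inf 3274142 305424)), .pol⟩, .one ⟨2008000, 251, 401600, -12450, -591196, 0, 0, 100000, 850000,
 900000⟩ ⟨0, .pol, .pol, .pol, .pol, (.aff 1000000 0 0), .pol, (.inf 4183301 239046), (.inf 4183301 239046),
 .pol⟩, .one ⟨2008000, 251, 401600, 0, -602400, 0, 0, 100000, 900000, 950000⟩ ⟨0, .pol, .pol, .pol, .pol,
 (.aff 1000000 0 0), .pol, (.aff 35000000 146239530 7904840), (.inf 4301163 232496), .pol⟩, .one ⟨2008000,
 251, 401600, 0, -602400, 0, 0, 100000, 950000, 1000000⟩ ⟨0, .pol, .pol, .pol, .pol, (.aff 1000000 0 0), .pol,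
 (.aff 20000000 83901729 4302653), (.inf 4415881 226456), .pol⟩], []⟩, ⟨[.one ⟨2008000, 251, 502000, 333328,
 0, 0, 0, 100000, 0, 50000⟩ ⟨25000, (.aff 1414214 707107), (.aff 707107 1414214), (.pol), (.pol), (.sy 25000
 (.aff 0 534523 1870827) (.aff 0 612373 1632992)), (.aff 0 1732051 577351), (.pol), (.pol), (.pol)⟩, .one
 ⟨2008000, 251, 502000, 262646, 3534, 0, 0, 100000, 50000, 100000⟩ ⟨0, .pol, .pol, .pol, .pol, (.sy 75000
 (.aff 0 831103 1203221) (.aff 0 935415 1069045)), .pol, (.pol), (.sx 50000 (.pol) (.pol)), .pol⟩, .one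
 ⟨2008000, 251, 502000, 271481, 2650, 0, 0, 100000, 100000, 150000⟩ ⟨0, .pol, .pol, .pol, .pol, (.aff 0
 1118034 894428), .pol, (.pol), (.pol), .pol⟩, .one ⟨2008000, 251, 502000, 94376, 29216, 0, 0, 100000, 150000,
 200000⟩ ⟨0, .pol, .pol, .pol, .pol, (.sy 175000 (.aff 250000 1005085 559655) (.sy 187500 (.aff 282000 991108
 520150) (.aff 300000 1024316 478369))), .pol, (.pol), (.pol), .pol⟩, .one ⟨2008000, 251, 502000, 14457,
 45200, 0, 0, 100000, 200000, 250000⟩ ⟨0, .pol, .pol, .pol, .pol, (.sy 225000 (.sx 50000 (.aff 0 2915476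
 342998) (.aff 388000 1015244 368921)) (.sy 237500 (.sx 50000 (.aff 0 2483278 402694) (.aff 397000 1030550
 352831)) (.sy 243750 (.sx 50000 (.aff 0 2193742 455843) (.aff 419000 1064810 317016)) (.sx 50000 (.aff 250000
 1666537 337527) (.aff 450000 1093104 276735))))), .pol, (.pol), (.pol), .pol⟩, .one ⟨2008000, 251, 502000,
 -28514, 55942, 0, 0, 100000, 250000, 300000⟩ ⟨0, .pol, .pol, .pol, .pol, (.sy 275000 (.sy 262500 (.sx 50000
 (.aff 425000 1301712 253993) (.aff 463000 1087343 265206)) (.sx 50000 (.aff 450000 1332269 227057) (.aff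
 494000 1159616 220794))) (.sx 50000 (.aff 488000 1315229 199315) (.aff 500000 1072381 233127))), .pol,
 (.pol), (.pol), .pol⟩, .one ⟨2008000, 251, 502000, -80320, 71484, 0, 0, 100000, 300000, 350000⟩ ⟨0, .pol,
 .pol, .pol, .pol, (.sy 325000 (.sy 312500 (.sy 306250 (.sx 50000 (.aff 525000 1350483 167070) (.aff 1000000 0
 0)) (.sx 50000 (.aff 550000 1393194 145350) (.aff 1000000 0 0))) (.sy 318750 (.sx 50000 (.aff 553000 1397815
 142944) (.aff 1000000 0 0)) (.sx 50000 (.sx 25000 (.aff 550000 1614679 125412) (.aff 575000 1363979 132426))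
 (.aff 1000000 0 0)))) (.sy 337500 (.sx 50000 (.sx 25000 (.aff 575000 1786349 101115) (.aff 575000 1383700
 130538)) (.aff 1000000 0 0)) (.sx 50000 (.aff 613000 1480588 101156) (.aff 1000000 0 0)))), .pol, (.pol),
 (.pol), .pol⟩, .one ⟨2008000, 251, 502000, -134536, 90460, 0, 0, 100000, 350000, 400000⟩ ⟨0, .pol, .pol,
 .pol, .pol, (.sy 375000 (.sy 362500 (.sy 356250 (.sx 50000 (.aff 650000 1528293 80155) (.aff 1000000 0 0))
 (.sx 50000 (.aff 631000 1489271 91428) (.aff 1000000 0 0))) (.sy 368750 (.sx 50000 (.aff 651000 1512378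
 80537) (.aff 1000000 0 0)) (.sx 50000 (.sx 25000 (.aff 675000 1599598 66033) (.aff 1000000 0 0)) (.aff
 1000000 0 0)))) (.sy 387500 (.sy 381250 (.sx 50000 (.sx 25000 (.aff 675000 1612984 65485) (.aff 1000000 0 0))
 (.aff 1000000 0 0)) (.sy 384375 (.sy 382812 (.sx 50000 (.sx 25000 (.sx 12500 (.aff 650000 1829249 66968)
 (.aff 750000 1128467 55385)) (.aff 1000000 0 0)) (.aff 1000000 0 0)) (.sx 50000 (.sx 25000 (.aff 747000
 1701163 37627) (.aff 1000000 0 0)) (.aff 1000000 0 0))) (.sy 385937 (.sx 50000 (.sx 25000 (.aff 750000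
 1694971 36874) (.aff 1000000 0 0)) (.aff 1000000 0 0)) (.sx 50000 (.aff 750000 1656472 37731) (.aff 1000000 0
 0))))) (.sx 50000 (.aff 750000 1630195 38339) (.aff 1000000 0 0)))), .pol, (.pol), (.pol), .pol⟩, .one
 ⟨2008000, 251, 502000, -206423, 119214, 0, 0, 100000, 400000, 450000⟩ ⟨0, .pol, .pol, .pol, .pol, (.sy 425000
 (.sx 50000 (.aff 763000 1662893 33778) (.aff 1000000 0 0)) (.sx 50000 (.aff 825000 1706945 17942) (.aff
 1000000 0 0))), .pol, (.pol), (.pol), .pol⟩, .one ⟨2008000, 251, 502000, -267868, 146865, 0, 0, 100000,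
 450000, 500000⟩ ⟨0, .pol, .pol, .pol, .pol, (.sx 50000 (.sx 25000 (.sx 12500 (.aff 950000 1953523 1280) (.aff
 1000000 0 0)) (.aff 1000000 0 0)) (.aff 1000000 0 0)), .pol, (.pol), (.pol), .pol⟩, .one ⟨2008000, 251,
 502000, -355416, 190639, 0, 0, 100000, 500000, 550000⟩ ⟨0, .pol, .pol, .pol, .pol, (.sx 50000 (.aff 1100000
 1858327 5382) (.aff 1000000 0 0)), .pol, (.pol), (.pol), .pol⟩, .one ⟨2008000, 251, 502000, -432524, 233048,
 0, 0, 100000, 550000, 600000⟩ ⟨0, .pol, .pol, .pol, .pol, (.sx 50000 (.aff 1244000 2319227 25671) (.aff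
 1000000 0 0)), .pol, (.pol), (.pol), .pol⟩, .one ⟨2008000, 251, 502000, -540152, 297625, 0, 0, 100000,
 600000, 650000⟩ ⟨0, .pol, .pol, .pol, .pol, (.sx 50000 (.sx 25000 (.aff 1432000 2622032 71176) (.aff 1400000
 1788855 89443)) (.aff 1000000 0 0)), .pol, (.pol), (.pol), .pol⟩, .one ⟨2008000, 251, 502000, -185138, 66866,
 0, 0, 100000, 650000, 700000⟩ ⟨0, .pol, .pol, .pol, .pol, (.aff 1500000 2598077 96226), .pol, (.sx 50000
 (.aff 1925000 3398668 251754) (.aff 1500000 1643168 152146)), (.pol), .pol⟩, .one ⟨2008000, 251, 502000,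
 65862, -108834, 0, 0, 100000, 700000, 750000⟩ ⟨0, .pol, .pol, .pol, .pol, (.aff 1000000 0 0), .pol, (.sx
 50000 (.aff 1900000 3427098 236352) (.aff 1850000 2920699 247373)), (.pol), .pol⟩, .one ⟨2008000, 251,
 502000, 8032, -65461, 0, 0, 100000, 750000, 800000⟩ ⟨0, .pol, .pol, .pol, .pol, (.aff 1000000 0 0), .pol,
 (.aff 2100000 3536006 342194), (.pol), .pol⟩, .one ⟨2008000, 251, 502000, -10845208, 8617131, 0, 0, 100000,
 800000, 850000⟩ ⟨0, .pol, .pol, .pol, .pol, (.aff 1000000 0 0), .pol, (.sx 50000 (.aff 20000000 109146691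
 3307476) (.sx 75000 (.aff 35000000 123528135 9358192) (.sx 87500 (.aff 35000000 108341341 10669981) (.sx
 93750 (.aff 35600000 102640188 11663658) (.sx 96875 (.inf 2942064 339898) (.sy 825000 (.sx 98437 (.inf
 2884445 346688) (.sx 99218 (.inf 2867298 348761) (.sx 99609 (.inf 2858835 349793) (.sx 99804 (.inf 2854631
 350308) (.sy 812500 (.sy 806250 (.sy 803125 (.sx 99902 (.sy 801562 (.sx 99853 (.inf 2832238 353078) (.sy
 800781 (.sy 800390 (.aff 35000000 96237206 12011987) (.inf 2831197 353208)) (.inf 2832233 353079))) (.inf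
 2834652 352777)) (.sy 801562 (.sx 99951 (.sy 800781 (.sx 99926 (.sy 800390 (.aff 35000000 96219626 12014181)
 (.inf 2830680 353273)) (.sy 800390 (.sy 800195 (.aff 20000000 53759924 6715040) (.inf 2829815 353380)) (.inf
 2830333 353316))) (.inf 2831539 353165)) (.sy 800781 (.sx 99975 (.sy 800390 (.sy 800195 (.aff 35000000
 96190180 12017859) (.inf 2829468 353424)) (.inf 2829986 353359)) (.sy 800390 (.sy 800195 (.aff 36000000
 99000982 12373615) (.inf 2829121 353467)) (.inf 2829639 353402))) (.inf 2830845 353252))) (.inf 2833262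
 352951))) (.inf 2838093 352350)) (.inf 2846347 351328)) (.inf 2862784 349311)))))) (.inf 2916837
 342838))))))), (.sy 825000 (.sy 812500 (.pol) (.inf 3237283 308902)) (.inf 3274142 305424)), .pol⟩, .one
 ⟨2008000, 251, 502000, -22088, -582521, 0, 0, 100000, 850000, 900000⟩ ⟨0, .pol, .pol, .pol, .pol, (.aff
 1000000 0 0), .pol, (.inf 4183301 239046), (.inf 4183301 239046), .pol⟩, .one ⟨2008000, 251, 502000, 0,
 -602400, 0, 0, 100000, 900000, 950000⟩ ⟨0, .pol, .pol, .pol, .pol, (.aff 1000000 0 0), .pol, (.aff 35000000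
 146239530 7904840), (.inf 4301163 232496), .pol⟩, .one ⟨2008000, 251, 502000, 0, -602400, 0, 0, 100000,
 950000, 1000000⟩ ⟨0, .pol, .pol, .pol, .pol, (.aff 1000000 0 0), .pol, (.aff 20000000 83901729 4302653),
 (.inf 4415881 226456), .pol⟩], []⟩, ⟨[.one ⟨2008000, 251, 803200, 75500, 0, 0, 0, 100000, 0, 50000⟩ ⟨25000,
 (.sp 250000 (.aff 2309402 433013) (.aff 1511858 661438)), (.aff 707107 1414214), (.pol), (.pol), (.aff 0
 1127714 886750), (.sx 12500 (.aff 0 2216390 451185) (.aff 0 1892190 528489)), (.pol), (.pol), (.pol)⟩, .one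
 ⟨2008000, 251, 803200, 109235, -1687, 0, 0, 100000, 50000, 100000⟩ ⟨0, .pol, .pol, .pol, .pol, (.sx 50000
 (.sx 25000 (.sx 12500 (.aff 0 2216390 451185) (.aff 0 2102543 475615)) (.aff 0 1892190 528489)) (.aff 0
 1000000 1000000)), .pol, (.pol), (.sx 50000 (.pol) (.pol)), .pol⟩, .one ⟨2008000, 251, 803200, 142969, -5061,
 0, 0, 100000, 100000, 150000⟩ ⟨0, .pol, .pol, .pol, .pol, (.sx 50000 (.sx 25000 (.aff 0 2127014 470143) (.aff
 0 2000000 500000)) (.aff 0 1727325 578930)), .pol, (.pol), (.pol), .pol⟩, .one ⟨2008000, 251, 803200, 186744,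
 -11627, 0, 0, 100000, 150000, 200000⟩ ⟨0, .pol, .pol, .pol, .pol, (.sx 50000 (.sx 25000 (.aff 0 3055051
 327327) (.aff 0 2000000 500000)) (.aff 0 1849305 540744)), .pol, (.pol), (.pol), .pol⟩, .one ⟨2008000, 251,
 803200, 188350, -11948, 0, 0, 100000, 200000, 250000⟩ ⟨0, .pol, .pol, .pol, .pol, (.sy 225000 (.sy 212500
 (.sx 50000 (.aff 0 2345208 426402) (.aff 0 1816591 550482)) (.sx 50000 (.aff 0 2091651 478092) (.aff 19000
 1835283 524367))) (.sx 50000 (.aff 0 2179450 458832) (.aff 50000 1851891 487340))), .pol, (.pol), (.pol),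
 .pol⟩, .one ⟨2008000, 251, 803200, 88753, 12951, 0, 0, 100000, 250000, 300000⟩ ⟨0, .pol, .pol, .pol, .pol,
 (.sy 275000 (.sy 262500 (.sx 50000 (.aff 175000 2156604 315601) (.aff 500000 924212 270501)) (.sy 268750 (.sx
 50000 (.aff 188000 2161101 305097) (.aff 500000 940966 265685)) (.sy 271875 (.sx 50000 (.aff 185000 2147299
 309331) (.aff 1000000 0 0)) (.sy 273437 (.sy 272656 (.sx 50000 (.sx 25000 (.aff 0 4667038 214269) (.aff
 250000 2213771 254092)) (.aff 1000000 0 0)) (.sy 273046 (.sx 50000 (.sx 25000 (.aff 0 4672054 214039) (.aff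
 250000 2216150 253819)) (.aff 1000000 0 0)) (.sy 273241 (.sy 273143 (.sy 273094 (.sx 50000 (.sx 25000 (.aff 0
 4673928 213953) (.aff 250000 2217039 253717)) (.aff 1000000 0 0)) (.sy 273118 (.sx 50000 (.sx 25000 (.aff 0
 4674236 213939) (.aff 250000 2217185 253701)) (.aff 1000000 0 0)) (.sy 273130 (.sy 273124 (.sx 50000 (.sx
 25000 (.aff 0 4674365 213933) (.aff 250000 2217246 253694)) (.aff 1000000 0 0)) (.sy 273127 (.sy 273125 (.sx
 50000 (.sx 25000 (.aff 0 4674395 213932) (.aff 250000 2217260 253692)) (.aff 1000000 0 0)) (.sy 273126 (.sx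
 50000 (.sx 25000 (.aff 0 4674403 213932) (.aff 250000 2217264 253692)) (.aff 1000000 0 0)) (.sx 50000 (.sx
 25000 (.aff 0 4674412 213931) (.aff 250000 2217268 253691)) (.aff 1000000 0 0)))) (.sx 50000 (.sx 25000 (.aff
 0 4674429 213930) (.aff 250000 2217277 253690)) (.aff 1000000 0 0)))) (.sx 50000 (.sx 25000 (.aff 0 4674497
 213927) (.aff 250000 2217309 253686)) (.aff 1000000 0 0))))) (.sx 50000 (.sx 25000 (.aff 0 4674972 213906)
 (.aff 250000 2217534 253661)) (.aff 1000000 0 0))) (.sx 50000 (.sx 25000 (.aff 0 4676230 213848) (.aff 250000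
 2218131 253592)) (.aff 1000000 0 0))))) (.sx 50000 (.sx 25000 (.aff 0 4683747 213505) (.aff 250000 2221696
 253185)) (.aff 1000000 0 0)))))) (.sy 287500 (.sy 281250 (.sx 50000 (.sx 25000 (.aff 0 3851407 259646) (.aff
 250000 2237466 251401)) (.aff 1000000 0 0)) (.sy 284375 (.sy 282812 (.sx 50000 (.sx 25000 (.aff 0 3878358
 257842) (.aff 300000 2102914 233011)) (.aff 1000000 0 0)) (.sy 283593 (.sy 283202 (.sx 50000 (.sx 25000 (.aff
 0 3885062 257397) (.aff 300000 2106550 232608)) (.aff 1000000 0 0)) (.sy 283397 (.sy 283299 (.sx 50000 (.sx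
 25000 (.aff 0 3886733 257286) (.aff 300000 2107456 232508)) (.aff 1000000 0 0)) (.sy 283348 (.sy 283323 (.sx
 50000 (.sx 25000 (.aff 0 3887149 257258) (.aff 300000 2107681 232483)) (.aff 1000000 0 0)) (.sx 50000 (.sx
 25000 (.aff 0 3887317 257247) (.aff 300000 2107772 232473)) (.aff 1000000 0 0))) (.sx 50000 (.sx 25000 (.aff
 0 3887570 257231) (.aff 300000 2107910 232458)) (.aff 1000000 0 0)))) (.sx 50000 (.sx 25000 (.aff 0 3888411
 257175) (.aff 300000 2108365 232408)) (.aff 1000000 0 0)))) (.sx 50000 (.sx 25000 (.aff 0 3891763 256953)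
 (.aff 300000 2110183 232208)) (.aff 1000000 0 0)))) (.sx 50000 (.aff 263000 2249142 241501) (.aff 1000000 0
 0)))) (.sx 50000 (.aff 275000 2242543 234388) (.aff 1000000 0 0)))), .pol, (.pol), (.pol), .pol⟩, .one
 ⟨2008000, 251, 803200, -4418, 40902, 0, 0, 100000, 300000, 350000⟩ ⟨0, .pol, .pol, .pol, .pol, (.sy 325000
 (.sy 312500 (.sx 50000 (.aff 346000 2317793 184536) (.aff 1000000 0 0)) (.sy 318750 (.sy 315625 (.sy 314062
 (.sx 50000 (.sx 25000 (.aff 375000 2554739 152903) (.aff 500000 1445179 172989)) (.aff 1000000 0 0)) (.sy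
 314843 (.sy 314452 (.sx 50000 (.sx 25000 (.aff 375000 2558715 152665) (.aff 500000 1447428 172721)) (.aff
 1000000 0 0)) (.sy 314647 (.sy 314549 (.sx 50000 (.sx 25000 (.aff 375000 2559706 152606) (.aff 500000 1447989
 172654)) (.aff 1000000 0 0)) (.sx 50000 (.sx 25000 (.aff 375000 2560103 152582) (.aff 500000 1448213 172627))
 (.aff 1000000 0 0))) (.sx 50000 (.sx 25000 (.aff 375000 2560701 152547) (.aff 500000 1448552 172587)) (.aff
 1000000 0 0)))) (.sx 50000 (.sx 25000 (.aff 375000 2562690 152428) (.aff 500000 1449676 172453)) (.aff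
 1000000 0 0)))) (.sy 317187 (.sx 50000 (.sx 25000 (.aff 400000 2464751 146060) (.aff 500000 1452369 172133))
 (.aff 1000000 0 0)) (.sy 317968 (.sy 317577 (.sx 50000 (.sx 25000 (.aff 400000 2468550 145835) (.aff 500000
 1454607 171868)) (.aff 1000000 0 0)) (.sy 317772 (.sy 317674 (.sx 50000 (.sx 25000 (.aff 400000 2469496
 145779) (.aff 500000 1455165 171802)) (.aff 1000000 0 0)) (.sx 50000 (.sx 25000 (.aff 400000 2469875 145757)
 (.aff 500000 1455388 171776)) (.aff 1000000 0 0))) (.sx 50000 (.sx 25000 (.aff 400000 2470447 145723) (.aff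
 500000 1455725 171736)) (.aff 1000000 0 0)))) (.sx 50000 (.sx 25000 (.aff 400000 2472346 145611) (.aff 500000
 1456844 171604)) (.aff 1000000 0 0))))) (.sy 321875 (.sx 50000 (.sy 320312 (.sx 25000 (.aff 400000 2476893
 145344) (.aff 500000 1459523 171289)) (.sx 25000 (.sx 12500 (.aff 0 7167633 139517) (.aff 375000 2394539
 163132)) (.aff 500000 1463087 170872))) (.aff 1000000 0 0)) (.sy 323437 (.sx 50000 (.sy 322656 (.sy 322265
 (.sx 25000 (.sx 12500 (.aff 0 7178524 139305) (.aff 375000 2398177 162885)) (.aff 500000 1465310 170613))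
 (.sx 25000 (.sx 12500 (.aff 0 7182875 139221) (.aff 375000 2399630 162786)) (.aff 500000 1466199 170509)))
 (.sx 25000 (.sx 12500 (.aff 0 7189398 139094) (.aff 388000 2351852 159255)) (.aff 500000 1467530 170355)))
 (.aff 1000000 0 0)) (.sy 324218 (.sy 323827 (.sx 50000 (.sx 25000 (.aff 500000 2544139 98266) (.aff 500000
 1468859 170201)) (.aff 1000000 0 0)) (.sy 324022 (.sx 50000 (.sx 25000 (.aff 500000 2545288 98221) (.aff
 500000 1469523 170124)) (.aff 1000000 0 0)) (.sx 50000 (.sx 25000 (.aff 500000 2546056 98192) (.aff 500000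
 1469966 170072)) (.aff 1000000 0 0)))) (.sx 50000 (.sx 25000 (.aff 500000 2547976 98118) (.aff 500000 1471075
 169944)) (.aff 1000000 0 0))))))) (.sx 50000 (.aff 475000 2468379 111663) (.aff 1000000 0 0))), .pol, (.pol),
 (.pol), .pol⟩, .one ⟨2008000, 251, 803200, -100802, 74637, 0, 0, 100000, 350000, 400000⟩ ⟨0, .pol, .pol,
 .pol, .pol, (.sy 375000 (.sy 362500 (.sx 50000 (.aff 550000 2525514 80182) (.aff 1000000 0 0)) (.sx 50000
 (.aff 625000 2615267 53771) (.aff 1000000 0 0))) (.sy 387500 (.sy 381250 (.sy 378125 (.sx 50000 (.aff 613000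
 2594379 57729) (.aff 1000000 0 0)) (.sx 50000 (.aff 625000 2588247 54333) (.aff 1000000 0 0))) (.sy 384375
 (.sy 382812 (.sx 50000 (.aff 625000 2596222 54166) (.aff 1000000 0 0)) (.sy 383593 (.sx 50000 (.aff 625000
 2600200 54083) (.aff 1000000 0 0)) (.sx 50000 (.sx 25000 (.aff 626000 2652521 52734) (.aff 1000000 0 0))
 (.aff 1000000 0 0)))) (.sx 50000 (.sx 25000 (.sx 12500 (.aff 675000 2822483 37423) (.aff 1000000 0 0)) (.aff
 1000000 0 0)) (.aff 1000000 0 0)))) (.sx 50000 (.sx 25000 (.aff 644000 2630488 48180) (.aff 1000000 0 0))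
 (.aff 1000000 0 0)))), .pol, (.pol), (.pol), .pol⟩, .one ⟨2008000, 251, 803200, -172287, 103231, 0, 0,
 100000, 400000, 450000⟩ ⟨0, .pol, .pol, .pol, .pol, (.sy 425000 (.sy 412500 (.sx 50000 (.aff 725000 2584769
 29258) (.aff 1000000 0 0)) (.sx 50000 (.aff 750000 2703314 23120) (.aff 1000000 0 0))) (.sy 437500 (.sx 50000
 (.aff 775000 2745807 18438) (.aff 1000000 0 0)) (.sx 50000 (.aff 800000 2522697 15857) (.aff 1000000 0 0)))),
 .pol, (.pol), (.pol), .pol⟩, .one ⟨2008000, 251, 803200, -251402, 138833, 0, 0, 100000, 450000, 500000⟩ ⟨0,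
 .pol, .pol, .pol, .pol, (.sx 50000 (.sx 25000 (.sx 12500 (.aff 906000 2686949 3289) (.aff 1000000 0 0)) (.aff
 1000000 0 0)) (.aff 1000000 0 0)), .pol, (.pol), (.pol), .pol⟩, .one ⟨2008000, 251, 803200, -371079, 198671,
 0, 0, 100000, 500000, 550000⟩ ⟨0, .pol, .pol, .pol, .pol, (.sx 50000 (.aff 1150000 3080652 7304) (.aff
 1000000 0 0)), .pol, (.pol), (.pol), .pol⟩, .one ⟨2008000, 251, 803200, -477503, 257204, 0, 0, 100000,
 550000, 600000⟩ ⟨0, .pol, .pol, .pol, .pol, (.sx 50000 (.sx 25000 (.aff 1363000 3481774 37846) (.aff 1000000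
 0 0)) (.aff 1000000 0 0)), .pol, (.pol), (.pol), .pol⟩, .one ⟨2008000, 251, 803200, -618063, 341540, 0, 0,
 100000, 600000, 650000⟩ ⟨0, .pol, .pol, .pol, .pol, (.sy 625000 (.sx 50000 (.sx 25000 (.aff 1525000 3675000
 75000) (.aff 1000000 0 0)) (.aff 1000000 0 0)) (.sx 50000 (.sy 637500 (.sx 25000 (.sx 12500 (.aff 2000000
 8205690 121867) (.aff 1600000 3813660 94398)) (.aff 1500000 2051423 121867)) (.sx 25000 (.sx 12500 (.aff
 2000000 10148892 98533) (.aff 1600000 3851234 93477)) (.aff 1500000 2071634 120678))) (.aff 1000000 0 0))),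
 .pol, (.pol), (.pol), .pol⟩, .one ⟨2008000, 251, 803200, -300397, 135058, 0, 0, 100000, 650000, 700000⟩ ⟨0,
 .pol, .pol, .pol, .pol, (.aff 1725000 3767211 139527), .pol, (.sy 675000 (.aff 2000000 5147816 194258) (.sx
 50000 (.aff 2594000 5985058 424530) (.aff 1000000 0 0))), (.pol), .pol⟩, .one ⟨2008000, 251, 803200, -77108,
 -21245, 0, 0, 100000, 700000, 750000⟩ ⟨0, .pol, .pol, .pol, .pol, (.aff 1000000 0 0), .pol, (.sx 50000 (.aff
 2550000 5902225 407050) (.aff 2400000 5269708 371938)), (.pol), .pol⟩, .one ⟨2008000, 251, 803200, -197989,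
 69416, 0, 0, 100000, 750000, 800000⟩ ⟨0, .pol, .pol, .pol, .pol, (.aff 1000000 0 0), .pol, (.aff 2900000
 6107646 591063), (.pol), .pol⟩, .one ⟨2008000, 251, 803200, -10246423, 8108163, 0, 0, 100000, 800000, 850000⟩
 ⟨0, .pol, .pol, .pol, .pol, (.aff 1000000 0 0), .pol, (.sx 50000 (.aff 20000000 109146691 3307476) (.sx 75000
 (.aff 35000000 123528135 9358192) (.sx 87500 (.aff 35000000 108341341 10669981) (.sx 93750 (.aff 35000000
 102584533 11268756) (.sx 96875 (.inf 2942064 339898) (.sy 825000 (.sx 98437 (.inf 2884445 346688) (.sx 99218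
 (.inf 2867298 348761) (.sy 812500 (.sx 99609 (.inf 2847818 351147) (.sx 99804 (.inf 2843631 351664) (.sy
 806250 (.sx 99902 (.sx 99853 (.inf 2836380 352563) (.sx 99877 (.inf 2835861 352627) (.sy 803125 (.sx 99889
 (.sx 99883 (.inf 2832889 352997) (.sy 801562 (.sy 800781 (.aff 36700000 101057109 12611582) (.inf 2832113
 353094)) (.inf 2834183 352836))) (.sx 99895 (.sy 801562 (.sy 800781 (.aff 37100000 102186332 12753272) (.inf
 2832028 353104)) (.inf 2834098 352846)) (.sx 99898 (.sy 801562 (.sy 800781 (.aff 37300000 102750533 12824168)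
 (.inf 2831964 353112)) (.inf 2834034 352854)) (.sy 801562 (.sy 800781 (.sy 800390 (.aff 35000000 96226368
 12013340) (.inf 2830878 353248)) (.inf 2831914 353119)) (.inf 2833985 352861))))) (.inf 2838271 352328))))
 (.sx 99951 (.sx 99926 (.sy 803125 (.sx 99914 (.sx 99908 (.sy 801562 (.sy 800781 (.sy 800390 (.aff 35000000
 96223960 12013640) (.inf 2830807 353257)) (.inf 2831843 353127)) (.inf 2833914 352869)) (.sy 801562 (.sy
 800781 (.sy 800390 (.aff 35000000 96221070 12014001) (.inf 2830722 353267)) (.inf 2831758 353138)) (.inf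
 2833829 352880))) (.sx 99920 (.sy 801562 (.sy 800781 (.sy 800390 (.aff 35000000 96218181 12014362) (.inf
 2830637 353278)) (.inf 2831673 353149)) (.inf 2833744 352891)) (.sy 801562 (.sy 800781 (.sy 800390 (.aff
 35000000 96215292 12014723) (.inf 2830552 353288)) (.inf 2831588 353159)) (.inf 2833659 352901)))) (.inf
 2837922 352371)) (.sy 803125 (.sx 99938 (.sx 99932 (.sy 801562 (.sy 800781 (.sy 800390 (.aff 35000000
 96212404 12015083) (.inf 2830467 353299)) (.inf 2831503 353170)) (.inf 2833573 352912)) (.sy 801562 (.sy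
 800781 (.sy 800390 (.aff 35000000 96209515 12015444) (.inf 2830382 353310)) (.inf 2831418 353180)) (.inf
 2833488 352922))) (.sx 99944 (.sy 801562 (.sy 800781 (.sy 800390 (.aff 35000000 96206627 12015805) (.inf
 2830298 353320)) (.inf 2831333 353191)) (.inf 2833403 352933)) (.sy 801562 (.sy 800781 (.sy 800390 (.aff
 35000000 96203499 12016195) (.inf 2830205 353332)) (.inf 2831241 353203)) (.inf 2833311 352944)))) (.inf
 2837575 352414))) (.sx 99975 (.sy 803125 (.sx 99963 (.sx 99957 (.sy 801562 (.sy 800781 (.sy 800390 (.aff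
 35000000 96200371 12016586) (.inf 2830113 353343)) (.inf 2831149 353214)) (.inf 2833219 352956)) (.sy 801562
 (.sy 800781 (.sy 800390 (.aff 35000000 96197484 12016947) (.inf 2830029 353354)) (.inf 2831064 353225)) (.inf
 2833134 352967))) (.sx 99969 (.sy 801562 (.sy 800781 (.sy 800390 (.aff 35000000 96194597 12017307) (.inf
 2829944 353364)) (.inf 2830979 353235)) (.inf 2833049 352977)) (.sy 801562 (.sy 800781 (.sy 800390 (.aff
 35400000 97322647 12159144) (.inf 2829859 353375)) (.inf 2830894 353246)) (.inf 2832964 352988)))) (.inf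
 2837227 352457)) (.sy 803125 (.sx 99987 (.sx 99981 (.sy 801562 (.sy 800781 (.sy 800390 (.aff 36400000
 100148789 12512983) (.inf 2829774 353386)) (.inf 2830809 353256)) (.inf 2832879 352998)) (.sy 801562 (.sy
 800781 (.sy 800390 (.sy 800195 (.aff 3000000 5657652 707008) (.inf 2829171 353461)) (.inf 2829689 353396))
 (.inf 2830724 353267)) (.inf 2832794 353009))) (.sx 99993 (.sy 801562 (.sy 800781 (.sy 800390 (.sy 800195
 (.aff 3000000 5657482 707029) (.inf 2829086 353472)) (.inf 2829604 353407)) (.inf 2830639 353278)) (.inf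
 2832709 353019)) (.sy 801562 (.sy 800781 (.sx 99996 (.sy 800390 (.sy 800195 (.aff 3000000 5657355 707045)
 (.inf 2829022 353480)) (.inf 2829540 353415)) (.sy 800390 (.sy 800195 (.aff 3000000 5657256 707057) (.inf
 2828973 353486)) (.inf 2829491 353421))) (.inf 2830547 353289)) (.inf 2832617 353031)))) (.inf 2836879
 352501))))) (.inf 2846347 351328)))) (.inf 2866992 348798)))) (.inf 2916837 342838))))))), (.sy 825000 (.sy
 812500 (.pol) (.inf 3237283 308902)) (.inf 3274142 305424)), .pol⟩, .one ⟨2008000, 251, 803200, -22088,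
 -582521, 0, 0, 100000, 850000, 900000⟩ ⟨0, .pol, .pol, .pol, .pol, (.aff 1000000 0 0), .pol, (.inf 4183301
 239046), (.inf 4183301 239046), .pol⟩, .one ⟨2008000, 251, 803200, 0, -602400, 0, 0, 100000, 900000, 950000⟩
 ⟨0, .pol, .pol, .pol, .pol, (.aff 1000000 0 0), .pol, (.aff 20000000 57786245 6247162), (.inf 4301163
 232496), .pol⟩, .one ⟨2008000, 251, 803200, 0, -602400, 0, 0, 100000, 950000, 1000000⟩ ⟨0, .pol, .pol, .pol,
 .pol, (.aff 1000000 0 0), .pol, (.aff 20000000 83901729 4302653), (.inf 4415881 226456), .pol⟩], []⟩, ⟨[.one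
 ⟨2008000, 251, 2008000, 4417, 0, 0, 0, 100000, 0, 50000⟩ ⟨12500, (.sp 250000 (.aff 6324556 158114) (.aff
 1264912 790569)), (.pol), (.pol), (.pol), (.aff 0 666667 1500000), (.aff 0 7777948 128569), (.pol), (.pol),
 (.pol)⟩, .one ⟨2008000, 251, 2008000, 27308, -1145, 0, 0, 100000, 50000, 100000⟩ ⟨0, .pol, .pol, .pol, .pol,
 (.sy 75000 (.aff 0 7638074 130924) (.aff 0 7399272 135149)), .pol, (.pol), (.sx 50000 (.pol) (.pol)), .pol⟩,
 .one ⟨2008000, 251, 2008000, 51003, -3514, 0, 0, 100000, 100000, 150000⟩ ⟨0, .pol, .pol, .pol, .pol, (.sy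
 125000 (.aff 0 7358004 135907) (.aff 0 7223749 138433)), .pol, (.pol), (.pol), .pol⟩, .one ⟨2008000, 251,
 2008000, 74697, -7069, 0, 0, 100000, 150000, 200000⟩ ⟨0, .pol, .pol, .pol, .pol, (.sx 50000 (.sy 175000 (.aff
 0 7170495 139461) (.aff 0 6969372 143485)) (.aff 0 1527526 654654)), .pol, (.pol), (.pol), .pol⟩, .one
 ⟨2008000, 251, 2008000, 98392, -11808, 0, 0, 100000, 200000, 250000⟩ ⟨0, .pol, .pol, .pol, .pol, (.sy 225000
 (.aff 0 6906985 144781) (.aff 0 6774367 147616)), .pol, (.pol), (.pol), .pol⟩, .one ⟨2008000, 251, 2008000,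
 122488, -17832, 0, 0, 100000, 250000, 300000⟩ ⟨0, .pol, .pol, .pol, .pol, (.sx 50000 (.sx 25000 (.sx 12500
 (.aff 0 6716686 148883) (.aff 0 3829709 261117)) (.aff 0 2708013 369275)) (.aff 0 1914855 522233)), .pol,
 (.pol), (.pol), .pol⟩, .one ⟨2008000, 251, 2008000, 155419, -27711, 0, 0, 100000, 300000, 350000⟩ ⟨0, .pol,
 .pol, .pol, .pol, (.sx 50000 (.sx 25000 (.aff 0 6524876 153260) (.aff 0 2943921 339684)) (.aff 0 2081666
 480385)), .pol, (.pol), (.pol), .pol⟩, .one ⟨2008000, 251, 2008000, 123291, -16466, 0, 0, 100000, 350000,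
 400000⟩ ⟨0, .pol, .pol, .pol, .pol, (.sx 50000 (.sx 25000 (.sx 12500 (.sx 6250 (.aff 100000 6971371 116190)
 (.sy 375000 (.aff 88000 6369586 130581) (.aff 500000 3214551 77772))) (.aff 500000 2236068 111804)) (.aff 0
 3162278 316228)) (.aff 0 2236068 447214)), .pol, (.pol), (.pol), .pol⟩, .one ⟨2008000, 251, 2008000, -169476,
 100640, 0, 0, 100000, 400000, 450000⟩ ⟨0, .pol, .pol, .pol, .pol, (.sx 50000 (.sx 25000 (.sy 425000 (.sx
 12500 (.aff 600000 6855905 23338) (.aff 1000000 0 0)) (.sx 12500 (.sy 437500 (.aff 750000 6536047 9563) (.aff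
 775000 6932765 7303)) (.aff 1000000 0 0))) (.aff 1000000 0 0)) (.aff 0 2380477 420084)), .pol, (.pol),
 (.pol), .pol⟩, .one ⟨2008000, 251, 2008000, -207226, 117628, 0, 0, 100000, 450000, 500000⟩ ⟨0, .pol, .pol,
 .pol, .pol, (.sx 50000 (.sx 25000 (.sy 475000 (.sy 462500 (.aff 825000 6701025 4571) (.sx 12500 (.sx 6250
 (.sx 3125 (.sx 1562 (.sx 781 (.aff 850000 7726470 2913) (.aff 875000 2500401 6249)) (.aff 1000000 0 0)) (.aff
 1000000 0 0)) (.aff 1000000 0 0)) (.aff 1000000 0 0))) (.sx 12500 (.sx 6250 (.aff 875000 3293860 4744) (.aff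
 1000000 0 0)) (.aff 1000000 0 0))) (.aff 1000000 0 0)) (.aff 1000000 0 0)), .pol, (.pol), (.pol), .pol⟩, .one
 ⟨2008000, 251, 2008000, -436540, 232285, 0, 0, 100000, 500000, 550000⟩ ⟨0, .pol, .pol, .pol, .pol, (.sx 50000
 (.aff 1275000 7227193 10464) (.aff 1000000 0 0)), .pol, (.pol), (.pol), .pol⟩, .one ⟨2008000, 251, 2008000,
 -654207, 352002, 0, 0, 100000, 550000, 600000⟩ ⟨0, .pol, .pol, .pol, .pol, (.sx 50000 (.sx 25000 (.sy 575000
 (.aff 1662000 7670756 57132) (.sy 587500 (.sx 12500 (.sx 6250 (.aff 2000000 9643651 103696) (.aff 1700000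
 7374684 66444)) (.aff 1000000 0 0)) (.sx 12500 (.aff 2000000 7958225 125657) (.aff 1000000 0 0)))) (.aff
 1000000 0 0)) (.aff 1000000 0 0)), .pol, (.pol), (.pol), .pol⟩, .one ⟨2008000, 251, 2008000, -934122, 519951,
 0, 0, 100000, 600000, 650000⟩ ⟨0, .pol, .pol, .pol, .pol, (.sx 50000 (.sy 625000 (.sy 612500 (.aff 2200000
 8357033 172310) (.sx 25000 (.sx 12500 (.aff 3000000 16248077 246183) (.aff 2300000 8180710 206584)) (.aff
 1000000 0 0))) (.sy 637500 (.sx 25000 (.sx 12500 (.aff 3000000 16411379 243734) (.aff 2300000 8262930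
 204528)) (.aff 1000000 0 0)) (.sx 25000 (.sx 12500 (.aff 3000000 20297784 197066) (.aff 2690000 8792912
 324819)) (.aff 1500000 2071634 120678)))) (.aff 1000000 0 0)), .pol, (.aff 3000000 10000000 400000), (.pol),
 .pol⟩, .one ⟨2008000, 251, 2008000, -759024, 406138, 0, 0, 100000, 650000, 700000⟩ ⟨0, .pol, .pol, .pol,
 .pol, (.sy 675000 (.aff 2294000 8136097 205804) (.aff 1500000 1854050 134840)), .pol, (.sx 50000 (.aff
 4600000 15273507 848529) (.aff 1000000 0 0)), (.pol), .pol⟩, .one ⟨2008000, 251, 2008000, -649388, 329392, 0,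
 0, 100000, 700000, 750000⟩ ⟨0, .pol, .pol, .pol, .pol, (.aff 1000000 0 0), .pol, (.sx 50000 (.sx 25000 (.aff
 5000000 24873011 643268) (.sy 725000 (.aff 4900000 15350081 990875) (.aff 5000000 15362292 1041512))) (.sx
 75000 (.sy 725000 (.aff 5000000 14966006 1069090) (.aff 5000000 14483708 1104690)) (.aff 1000000 0 0))),
 (.pol), .pol⟩, .one ⟨2008000, 251, 2008000, -1044562, 625773, 0, 0, 100000, 750000, 800000⟩ ⟨0, .pol, .pol,
 .pol, .pol, (.aff 1000000 0 0), .pol, (.sx 50000 (.aff 8000000 31822424 1539795) (.sx 75000 (.aff 7300000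
 20251667 1959839) (.sx 87500 (.sy 775000 (.aff 6200000 16245320 1664480) (.aff 7000000 18000000 2000000))
 (.sy 775000 (.aff 1000000 0 0) (.aff 6925000 17479475 2008392))))), (.pol), .pol⟩, .one ⟨2008000, 251,
 2008000, -7850477, 6070505, 0, 0, 100000, 800000, 850000⟩ ⟨0, .pol, .pol, .pol, .pol, (.aff 1000000 0 0),
 .pol, (.sy 825000 (.aff 36900000 102330745 12594554) (.aff 35000000 98394614 11748611)), (.sy 825000 (.sy
 812500 (.sx 50000 (.inf 5678909 176091) (.pol)) (.inf 3237283 308902)) (.inf 3274142 305424)), .pol⟩, .one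
 ⟨2008000, 251, 2008000, 0, -602400, 0, 0, 100000, 850000, 900000⟩ ⟨0, .pol, .pol, .pol, .pol, (.aff 1000000 0
 0), .pol, (.aff 35000000 100573357 11494098), (.inf 4183301 239046), .pol⟩, .one ⟨2008000, 251, 2008000, 0,
 -602400, 0, 0, 100000, 900000, 950000⟩ ⟨0, .pol, .pol, .pol, .pol, (.aff 1000000 0 0), .pol, (.aff 20000000
 66725808 5410201), (.inf 4301163 232496), .pol⟩, .one ⟨2008000, 251, 2008000, 0, -602400, 0, 0, 100000,
 950000, 1000000⟩ ⟨0, .pol, .pol, .pol, .pol, (.aff 1000000 0 0), .pol, (.aff 12000000 39661065 3050852),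
 (.inf 4415881 226456), .pol⟩], []⟩] = true := by decide +kernel

theorem II_xL100_20 : PropII xL100_20 := propII_of cL100_20

theorem lL100_40_0 : chkPl ⟨(nat_lit 3), (nat_lit 1000), Int.ofNat (nat_lit 250), 0, ⟨0, 1⟩, ⟨Int.ofNat
 (nat_lit 40), 200⟩⟩ ⟨500000, 550000, 724363, 707313, 741826, 688964, 707346, 671060, 707106, 670820⟩ true 0
 0 [(nat_lit 50), (nat_lit 100), (nat_lit 150), (nat_lit 200), (nat_lit 250), (nat_lit 300), (nat_lit 350),
 (nat_lit 400), (nat_lit 450), (nat_lit 500), (nat_lit 550), (nat_lit 600), (nat_lit 650), (nat_lit 700),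
 (nat_lit 750), (nat_lit 800), (nat_lit 850), (nat_lit 900), (nat_lit 950), (nat_lit 1000)] [(Int.ofNat
 (nat_lit 1261)), (Int.ofNat (nat_lit 2238)), (Int.ofNat (nat_lit 2906)), (Int.ofNat (nat_lit 3654)),
 (Int.ofNat (nat_lit 4426)), (Int.ofNat (nat_lit 5200)), (Int.ofNat (nat_lit 5965)), (Int.ofNat (nat_lit
 6682)), (Int.ofNat (nat_lit 7338)), (Int.ofNat (nat_lit 7952)), (Int.ofNat (nat_lit 8501)), (Int.ofNat
 (nat_lit 8962)), (Int.ofNat (nat_lit 9338)), (Int.ofNat (nat_lit 9595)), (Int.ofNat (nat_lit 9741)),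
 (Int.ofNat (nat_lit 9727)), (Int.ofNat (nat_lit 9576)), (Int.ofNat (nat_lit 9272)), (Int.negSucc (nat_lit
 29899)), (Int.negSucc (nat_lit 29999))] [qL100_40_0_0, qL100_40_0_1, qL100_40_0_2, qL100_40_0_3,
 qL100_40_0_4, qL100_40_0_5, qL100_40_0_6, qL100_40_0_7, qL100_40_0_8, qL100_40_0_9, qL100_40_0_10,
 qL100_40_0_11, qL100_40_0_12, qL100_40_0_13, qL100_40_0_14, qL100_40_0_15, qL100_40_0_16, qL100_40_0_17,
 qL100_40_0_18, qL100_40_0_19] = true :=
  chkPl_cons rfl hL100_40_0_0 (chkPl_cons rfl hL100_40_0_1 (chkPl_cons rfl hL100_40_0_2 (chkPl_cons rfl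
 hL100_40_0_3 (chkPl_cons rfl hL100_40_0_4 (chkPl_cons rfl hL100_40_0_5 (chkPl_cons rfl hL100_40_0_6
 (chkPl_cons rfl hL100_40_0_7 (chkPl_cons rfl hL100_40_0_8 (chkPl_cons rfl hL100_40_0_9 (chkPl_cons rfl
 hL100_40_0_10 (chkPl_cons rfl hL100_40_0_11 (chkPl_cons rfl hL100_40_0_12 (chkPl_cons rfl hL100_40_0_13
 (chkPl_cons rfl hL100_40_0_14 (chkPl_cons rfl hL100_40_0_15 (chkPl_cons rfl hL100_40_0_16 (chkPl_cons rfl
 hL100_40_0_17 (chkPl_cons rfl hL100_40_0_18 (chkPl_cons rfl hL100_40_0_19 chkPl_nil)))))))))))))))))))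

theorem lL100_40_1 : chkPl ⟨(nat_lit 3), (nat_lit 1000), Int.ofNat (nat_lit 400), 0, ⟨0, 1⟩, ⟨Int.ofNat
 (nat_lit 40), 200⟩⟩ ⟨500000, 550000, 724363, 707313, 741826, 688964, 707346, 671060, 707106, 670820⟩ true 0
 0 [(nat_lit 50), (nat_lit 100), (nat_lit 150), (nat_lit 200), (nat_lit 250), (nat_lit 300), (nat_lit 350),
 (nat_lit 400), (nat_lit 450), (nat_lit 500), (nat_lit 550), (nat_lit 600), (nat_lit 650), (nat_lit 700),
 (nat_lit 750), (nat_lit 800), (nat_lit 850), (nat_lit 900), (nat_lit 950), (nat_lit 1000)] [(Int.ofNat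
 (nat_lit 601)), (Int.ofNat (nat_lit 1283)), (Int.ofNat (nat_lit 2046)), (Int.ofNat (nat_lit 2891)),
 (Int.ofNat (nat_lit 3819)), (Int.ofNat (nat_lit 4852)), (Int.ofNat (nat_lit 5813)), (Int.ofNat (nat_lit
 6607)), (Int.ofNat (nat_lit 7312)), (Int.ofNat (nat_lit 7959)), (Int.ofNat (nat_lit 8476)), (Int.ofNat
 (nat_lit 8817)), (Int.ofNat (nat_lit 9006)), (Int.ofNat (nat_lit 8979)), (Int.ofNat (nat_lit 8753)),
 (Int.ofNat (nat_lit 8241)), (Int.ofNat (nat_lit 7433)), (Int.ofNat (nat_lit 6257)), (Int.negSucc (nat_lit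
 29905)), (Int.negSucc (nat_lit 29999))] [qL100_40_1_0, qL100_40_1_1, qL100_40_1_2, qL100_40_1_3,
 qL100_40_1_4, qL100_40_1_5, qL100_40_1_6, qL100_40_1_7, qL100_40_1_8, qL100_40_1_9, qL100_40_1_10,
 qL100_40_1_11, qL100_40_1_12, qL100_40_1_13, qL100_40_1_14, qL100_40_1_15, qL100_40_1_16, qL100_40_1_17,
 qL100_40_1_18, qL100_40_1_19] = true :=
  chkPl_cons rfl hL100_40_1_0 (chkPl_cons rfl hL100_40_1_1 (chkPl_cons rfl hL100_40_1_2 (chkPl_cons rfl
 hL100_40_1_3 (chkPl_cons rfl hL100_40_1_4 (chkPl_cons rfl hL100_40_1_5 (chkPl_cons rfl hL100_40_1_6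
 (chkPl_cons rfl hL100_40_1_7 (chkPl_cons rfl hL100_40_1_8 (chkPl_cons rfl hL100_40_1_9 (chkPl_cons rfl
 hL100_40_1_10 (chkPl_cons rfl hL100_40_1_11 (chkPl_cons rfl hL100_40_1_12 (chkPl_cons rfl hL100_40_1_13
 (chkPl_cons rfl hL100_40_1_14 (chkPl_cons rfl hL100_40_1_15 (chkPl_cons rfl hL100_40_1_16 (chkPl_cons rfl
 hL100_40_1_17 (chkPl_cons rfl hL100_40_1_18 (chkPl_cons rfl hL100_40_1_19 chkPl_nil)))))))))))))))))))

theorem lL100_40_2 : chkPl ⟨(nat_lit 3), (nat_lit 1000), Int.ofNat (nat_lit 1000), 0, ⟨0, 1⟩, ⟨Int.ofNat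
 (nat_lit 40), 200⟩⟩ ⟨500000, 550000, 724363, 707313, 741826, 688964, 707346, 671060, 707106, 670820⟩ true 0
 0 [(nat_lit 50), (nat_lit 100), (nat_lit 150), (nat_lit 200), (nat_lit 250), (nat_lit 300), (nat_lit 350),
 (nat_lit 400), (nat_lit 450), (nat_lit 500), (nat_lit 550), (nat_lit 600), (nat_lit 650), (nat_lit 700),
 (nat_lit 750), (nat_lit 800), (nat_lit 850), (nat_lit 900), (nat_lit 950), (nat_lit 1000)] [(Int.ofNat
 (nat_lit 550)), (Int.ofNat (nat_lit 1172)), (Int.ofNat (nat_lit 1867)), (Int.ofNat (nat_lit 2635)),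
 (Int.ofNat (nat_lit 3475)), (Int.ofNat (nat_lit 4388)), (Int.ofNat (nat_lit 5376)), (Int.ofNat (nat_lit
 6483)), (Int.ofNat (nat_lit 7325)), (Int.ofNat (nat_lit 7983)), (Int.ofNat (nat_lit 8380)), (Int.ofNat
 (nat_lit 8238)), (Int.ofNat (nat_lit 7684)), (Int.ofNat (nat_lit 6508)), (Int.ofNat (nat_lit 4809)),
 (Int.ofNat (nat_lit 2295)), (Int.negSucc (nat_lit 1019)), (Int.negSucc (nat_lit 5691)), (Int.negSucc
 (nat_lit 29993)), (Int.negSucc (nat_lit 29999))] [qL100_40_2_0, qL100_40_2_1, qL100_40_2_2, qL100_40_2_3,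
 qL100_40_2_4, qL100_40_2_5, qL100_40_2_6, qL100_40_2_7, qL100_40_2_8, qL100_40_2_9, qL100_40_2_10,
 qL100_40_2_11, qL100_40_2_12, qL100_40_2_13, qL100_40_2_14, qL100_40_2_15, qL100_40_2_16, qL100_40_2_17,
 qL100_40_2_18, qL100_40_2_19] = true :=
  chkPl_cons rfl hL100_40_2_0 (chkPl_cons rfl hL100_40_2_1 (chkPl_cons rfl hL100_40_2_2 (chkPl_cons rfl
 hL100_40_2_3 (chkPl_cons rfl hL100_40_2_4 (chkPl_cons rfl hL100_40_2_5 (chkPl_cons rfl hL100_40_2_6
 (chkPl_cons rfl hL100_40_2_7 (chkPl_cons rfl hL100_40_2_8 (chkPl_cons rfl hL100_40_2_9 (chkPl_cons rfl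
 hL100_40_2_10 (chkPl_cons rfl hL100_40_2_11 (chkPl_cons rfl hL100_40_2_12 (chkPl_cons rfl hL100_40_2_13
 (chkPl_cons rfl hL100_40_2_14 (chkPl_cons rfl hL100_40_2_15 (chkPl_cons rfl hL100_40_2_16 (chkPl_cons rfl
 hL100_40_2_17 (chkPl_cons rfl hL100_40_2_18 (chkPl_cons rfl hL100_40_2_19 chkPl_nil)))))))))))))))))))

theorem lL100_40_3 : chkPl ⟨(nat_lit 1), (nat_lit 1000), Int.ofNat (nat_lit 215), 0, ⟨0, 1⟩, ⟨Int.ofNat
 (nat_lit 40), 200⟩⟩ ⟨500000, 550000, 724363, 707313, 741826, 688964, 707346, 671060, 707106, 670820⟩ true 0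
 0 [(nat_lit 50), (nat_lit 100), (nat_lit 150), (nat_lit 200), (nat_lit 250), (nat_lit 300), (nat_lit 350),
 (nat_lit 400), (nat_lit 450), (nat_lit 500), (nat_lit 550), (nat_lit 600), (nat_lit 650), (nat_lit 700),
 (nat_lit 750), (nat_lit 800), (nat_lit 850), (nat_lit 900), (nat_lit 950), (nat_lit 1000)] [(Int.ofNat
 (nat_lit 16069)), (Int.ofNat (nat_lit 2717)), (Int.ofNat (nat_lit 2746)), (Int.ofNat (nat_lit 2741)),
 (Int.ofNat (nat_lit 2666)), (Int.ofNat (nat_lit 2501)), (Int.ofNat (nat_lit 2253)), (Int.ofNat (nat_lit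
 1867)), (Int.ofNat (nat_lit 1316)), (Int.ofNat (nat_lit 641)), (Int.negSucc (nat_lit 233)), (Int.negSucc
 (nat_lit 1284)), (Int.negSucc (nat_lit 2577)), (Int.negSucc (nat_lit 2954)), (Int.negSucc (nat_lit 2722)),
 (Int.negSucc (nat_lit 2606)), (Int.negSucc (nat_lit 2430)), (Int.negSucc (nat_lit 2803)), (Int.negSucc
 (nat_lit 29962)), (Int.negSucc (nat_lit 29999))] [qL100_40_3_0, qL100_40_3_1, qL100_40_3_2, qL100_40_3_3,
 qL100_40_3_4, qL100_40_3_5, qL100_40_3_6, qL100_40_3_7, qL100_40_3_8, qL100_40_3_9, qL100_40_3_10,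
 qL100_40_3_11, qL100_40_3_12, qL100_40_3_13, qL100_40_3_14, qL100_40_3_15, qL100_40_3_16, qL100_40_3_17,
 qL100_40_3_18, qL100_40_3_19] = true :=
  chkPl_cons rfl hL100_40_3_0 (chkPl_cons rfl hL100_40_3_1 (chkPl_cons rfl hL100_40_3_2 (chkPl_cons rfl
 hL100_40_3_3 (chkPl_cons rfl hL100_40_3_4 (chkPl_cons rfl hL100_40_3_5 (chkPl_cons rfl hL100_40_3_6
 (chkPl_cons rfl hL100_40_3_7 (chkPl_cons rfl hL100_40_3_8 (chkPl_cons rfl hL100_40_3_9 (chkPl_cons rfl
 hL100_40_3_10 (chkPl_cons rfl hL100_40_3_11 (chkPl_cons rfl hL100_40_3_12 (chkPl_cons rfl hL100_40_3_13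
 (chkPl_cons rfl hL100_40_3_14 (chkPl_cons rfl hL100_40_3_15 (chkPl_cons rfl hL100_40_3_16 (chkPl_cons rfl
 hL100_40_3_17 (chkPl_cons rfl hL100_40_3_18 (chkPl_cons rfl hL100_40_3_19 chkPl_nil)))))))))))))))))))

theorem lL100_40_4 : chkPl ⟨(nat_lit 1), (nat_lit 1000), Int.ofNat (nat_lit 250), 0, ⟨0, 1⟩, ⟨Int.ofNat
 (nat_lit 40), 200⟩⟩ ⟨500000, 550000, 724363, 707313, 741826, 688964, 707346, 671060, 707106, 670820⟩ true 0
 0 [(nat_lit 50), (nat_lit 100), (nat_lit 150), (nat_lit 200), (nat_lit 250), (nat_lit 300), (nat_lit 350),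
 (nat_lit 400), (nat_lit 450), (nat_lit 500), (nat_lit 550), (nat_lit 600), (nat_lit 650), (nat_lit 700),
 (nat_lit 750), (nat_lit 800), (nat_lit 850), (nat_lit 900), (nat_lit 950), (nat_lit 1000)] [(Int.ofNat
 (nat_lit 1264)), (Int.ofNat (nat_lit 2092)), (Int.ofNat (nat_lit 2252)), (Int.ofNat (nat_lit 2395)),
 (Int.ofNat (nat_lit 2443)), (Int.ofNat (nat_lit 2376)), (Int.ofNat (nat_lit 2172)), (Int.ofNat (nat_lit
 1837)), (Int.ofNat (nat_lit 1311)), (Int.ofNat (nat_lit 644)), (Int.negSucc (nat_lit 240)), (Int.negSucc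
 (nat_lit 1317)), (Int.negSucc (nat_lit 2662)), (Int.negSucc (nat_lit 3123)), (Int.negSucc (nat_lit 2959)),
 (Int.negSucc (nat_lit 2985)), (Int.negSucc (nat_lit 3127)), (Int.negSucc (nat_lit 3506)), (Int.negSucc
 (nat_lit 29965)), (Int.negSucc (nat_lit 29999))] [qL100_40_4_0, qL100_40_4_1, qL100_40_4_2, qL100_40_4_3,
 qL100_40_4_4, qL100_40_4_5, qL100_40_4_6, qL100_40_4_7, qL100_40_4_8, qL100_40_4_9, qL100_40_4_10,
 qL100_40_4_11, qL100_40_4_12, qL100_40_4_13, qL100_40_4_14, qL100_40_4_15, qL100_40_4_16, qL100_40_4_17,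
 qL100_40_4_18, qL100_40_4_19] = true :=
  chkPl_cons rfl hL100_40_4_0 (chkPl_cons rfl hL100_40_4_1 (chkPl_cons rfl hL100_40_4_2 (chkPl_cons rfl
 hL100_40_4_3 (chkPl_cons rfl hL100_40_4_4 (chkPl_cons rfl hL100_40_4_5 (chkPl_cons rfl hL100_40_4_6
 (chkPl_cons rfl hL100_40_4_7 (chkPl_cons rfl hL100_40_4_8 (chkPl_cons rfl hL100_40_4_9 (chkPl_cons rfl
 hL100_40_4_10 (chkPl_cons rfl hL100_40_4_11 (chkPl_cons rfl hL100_40_4_12 (chkPl_cons rfl hL100_40_4_13
 (chkPl_cons rfl hL100_40_4_14 (chkPl_cons rfl hL100_40_4_15 (chkPl_cons rfl hL100_40_4_16 (chkPl_cons rfl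
 hL100_40_4_17 (chkPl_cons rfl hL100_40_4_18 (chkPl_cons rfl hL100_40_4_19 chkPl_nil)))))))))))))))))))

theorem lL100_40_5 : chkPl ⟨(nat_lit 1), (nat_lit 1000), Int.ofNat (nat_lit 400), 0, ⟨0, 1⟩, ⟨Int.ofNat
 (nat_lit 40), 200⟩⟩ ⟨500000, 550000, 724363, 707313, 741826, 688964, 707346, 671060, 707106, 670820⟩ true 0
 0 [(nat_lit 50), (nat_lit 100), (nat_lit 150), (nat_lit 200), (nat_lit 250), (nat_lit 300), (nat_lit 350),
 (nat_lit 400), (nat_lit 450), (nat_lit 500), (nat_lit 550), (nat_lit 600), (nat_lit 650), (nat_lit 700),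
 (nat_lit 750), (nat_lit 800), (nat_lit 850), (nat_lit 900), (nat_lit 950), (nat_lit 1000)] [(Int.ofNat
 (nat_lit 193)), (Int.ofNat (nat_lit 466)), (Int.ofNat (nat_lit 822)), (Int.ofNat (nat_lit 1283)),
 (Int.ofNat (nat_lit 1755)), (Int.ofNat (nat_lit 1982)), (Int.ofNat (nat_lit 1972)), (Int.ofNat (nat_lit
 1706)), (Int.ofNat (nat_lit 1284)), (Int.ofNat (nat_lit 652)), (Int.negSucc (nat_lit 267)), (Int.negSucc
 (nat_lit 1456)), (Int.negSucc (nat_lit 2998)), (Int.negSucc (nat_lit 3741)), (Int.negSucc (nat_lit 3945)),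
 (Int.negSucc (nat_lit 4480)), (Int.negSucc (nat_lit 5264)), (Int.negSucc (nat_lit 6523)), (Int.negSucc
 (nat_lit 29959)), (Int.negSucc (nat_lit 29999))] [qL100_40_5_0, qL100_40_5_1, qL100_40_5_2, qL100_40_5_3,
 qL100_40_5_4, qL100_40_5_5, qL100_40_5_6, qL100_40_5_7, qL100_40_5_8, qL100_40_5_9, qL100_40_5_10,
 qL100_40_5_11, qL100_40_5_12, qL100_40_5_13, qL100_40_5_14, qL100_40_5_15, qL100_40_5_16, qL100_40_5_17,
 qL100_40_5_18, qL100_40_5_19] = true :=
  chkPl_cons rfl hL100_40_5_0 (chkPl_cons rfl hL100_40_5_1 (chkPl_cons rfl hL100_40_5_2 (chkPl_cons rfl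
 hL100_40_5_3 (chkPl_cons rfl hL100_40_5_4 (chkPl_cons rfl hL100_40_5_5 (chkPl_cons rfl hL100_40_5_6
 (chkPl_cons rfl hL100_40_5_7 (chkPl_cons rfl hL100_40_5_8 (chkPl_cons rfl hL100_40_5_9 (chkPl_cons rfl
 hL100_40_5_10 (chkPl_cons rfl hL100_40_5_11 (chkPl_cons rfl hL100_40_5_12 (chkPl_cons rfl hL100_40_5_13
 (chkPl_cons rfl hL100_40_5_14 (chkPl_cons rfl hL100_40_5_15 (chkPl_cons rfl hL100_40_5_16 (chkPl_cons rfl
 hL100_40_5_17 (chkPl_cons rfl hL100_40_5_18 (chkPl_cons rfl hL100_40_5_19 chkPl_nil)))))))))))))))))))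

theorem lL100_40_6 : chkPl ⟨(nat_lit 1), (nat_lit 1000), Int.ofNat (nat_lit 1000), 0, ⟨0, 1⟩, ⟨Int.ofNat
 (nat_lit 40), 200⟩⟩ ⟨500000, 550000, 724363, 707313, 741826, 688964, 707346, 671060, 707106, 670820⟩ true 0
 0 [(nat_lit 50), (nat_lit 100), (nat_lit 150), (nat_lit 200), (nat_lit 250), (nat_lit 300), (nat_lit 350),
 (nat_lit 400), (nat_lit 450), (nat_lit 500), (nat_lit 550), (nat_lit 600), (nat_lit 650), (nat_lit 700),
 (nat_lit 750), (nat_lit 800), (nat_lit 850), (nat_lit 900), (nat_lit 950), (nat_lit 1000)] [(Int.ofNat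
 (nat_lit 11)), (Int.ofNat (nat_lit 79)), (Int.ofNat (nat_lit 206)), (Int.ofNat (nat_lit 392)), (Int.ofNat
 (nat_lit 637)), (Int.ofNat (nat_lit 942)), (Int.ofNat (nat_lit 1337)), (Int.ofNat (nat_lit 1613)),
 (Int.ofNat (nat_lit 1226)), (Int.ofNat (nat_lit 698)), (Int.negSucc (nat_lit 388)), (Int.negSucc (nat_lit
 2017)), (Int.negSucc (nat_lit 4343)), (Int.negSucc (nat_lit 6224)), (Int.negSucc (nat_lit 7868)),
 (Int.negSucc (nat_lit 10441)), (Int.negSucc (nat_lit 13694)), (Int.negSucc (nat_lit 18445)), (Int.negSucc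
 (nat_lit 29999)), (Int.negSucc (nat_lit 29999))] [qL100_40_6_0, qL100_40_6_1, qL100_40_6_2, qL100_40_6_3,
 qL100_40_6_4, qL100_40_6_5, qL100_40_6_6, qL100_40_6_7, qL100_40_6_8, qL100_40_6_9, qL100_40_6_10,
 qL100_40_6_11, qL100_40_6_12, qL100_40_6_13, qL100_40_6_14, qL100_40_6_15, qL100_40_6_16, qL100_40_6_17,
 qL100_40_6_18, qL100_40_6_19] = true :=
  chkPl_cons rfl hL100_40_6_0 (chkPl_cons rfl hL100_40_6_1 (chkPl_cons rfl hL100_40_6_2 (chkPl_cons rfl
 hL100_40_6_3 (chkPl_cons rfl hL100_40_6_4 (chkPl_cons rfl hL100_40_6_5 (chkPl_cons rfl hL100_40_6_6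
 (chkPl_cons rfl hL100_40_6_7 (chkPl_cons rfl hL100_40_6_8 (chkPl_cons rfl hL100_40_6_9 (chkPl_cons rfl
 hL100_40_6_10 (chkPl_cons rfl hL100_40_6_11 (chkPl_cons rfl hL100_40_6_12 (chkPl_cons rfl hL100_40_6_13
 (chkPl_cons rfl hL100_40_6_14 (chkPl_cons rfl hL100_40_6_15 (chkPl_cons rfl hL100_40_6_16 (chkPl_cons rfl
 hL100_40_6_17 (chkPl_cons rfl hL100_40_6_18 (chkPl_cons rfl hL100_40_6_19 chkPl_nil)))))))))))))))))))

def cL100_40 : chkII xL100_40 ⟨500000, 550000, 724363, 707313, 741826, 688964, 707346, 671060, 707106,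
 670820⟩ [⟨[qL100_40_0_0, qL100_40_0_1, qL100_40_0_2, qL100_40_0_3, qL100_40_0_4, qL100_40_0_5,
 qL100_40_0_6, qL100_40_0_7, qL100_40_0_8, qL100_40_0_9, qL100_40_0_10, qL100_40_0_11, qL100_40_0_12,
 qL100_40_0_13, qL100_40_0_14, qL100_40_0_15, qL100_40_0_16, qL100_40_0_17, qL100_40_0_18, qL100_40_0_19],
 []⟩, ⟨[qL100_40_1_0, qL100_40_1_1, qL100_40_1_2, qL100_40_1_3, qL100_40_1_4, qL100_40_1_5, qL100_40_1_6,
 qL100_40_1_7, qL100_40_1_8, qL100_40_1_9, qL100_40_1_10, qL100_40_1_11, qL100_40_1_12, qL100_40_1_13,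
 qL100_40_1_14, qL100_40_1_15, qL100_40_1_16, qL100_40_1_17, qL100_40_1_18, qL100_40_1_19], []⟩,
 ⟨[qL100_40_2_0, qL100_40_2_1, qL100_40_2_2, qL100_40_2_3, qL100_40_2_4, qL100_40_2_5, qL100_40_2_6,
 qL100_40_2_7, qL100_40_2_8, qL100_40_2_9, qL100_40_2_10, qL100_40_2_11, qL100_40_2_12, qL100_40_2_13,
 qL100_40_2_14, qL100_40_2_15, qL100_40_2_16, qL100_40_2_17, qL100_40_2_18, qL100_40_2_19], []⟩,
 ⟨[qL100_40_3_0, qL100_40_3_1, qL100_40_3_2, qL100_40_3_3, qL100_40_3_4, qL100_40_3_5, qL100_40_3_6,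
 qL100_40_3_7, qL100_40_3_8, qL100_40_3_9, qL100_40_3_10, qL100_40_3_11, qL100_40_3_12, qL100_40_3_13,
 qL100_40_3_14, qL100_40_3_15, qL100_40_3_16, qL100_40_3_17, qL100_40_3_18, qL100_40_3_19], []⟩,
 ⟨[qL100_40_4_0, qL100_40_4_1, qL100_40_4_2, qL100_40_4_3, qL100_40_4_4, qL100_40_4_5, qL100_40_4_6,
 qL100_40_4_7, qL100_40_4_8, qL100_40_4_9, qL100_40_4_10, qL100_40_4_11, qL100_40_4_12, qL100_40_4_13,
 qL100_40_4_14, qL100_40_4_15, qL100_40_4_16, qL100_40_4_17, qL100_40_4_18, qL100_40_4_19], []⟩,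
 ⟨[qL100_40_5_0, qL100_40_5_1, qL100_40_5_2, qL100_40_5_3, qL100_40_5_4, qL100_40_5_5, qL100_40_5_6,
 qL100_40_5_7, qL100_40_5_8, qL100_40_5_9, qL100_40_5_10, qL100_40_5_11, qL100_40_5_12, qL100_40_5_13,
 qL100_40_5_14, qL100_40_5_15, qL100_40_5_16, qL100_40_5_17, qL100_40_5_18, qL100_40_5_19], []⟩,
 ⟨[qL100_40_6_0, qL100_40_6_1, qL100_40_6_2, qL100_40_6_3, qL100_40_6_4, qL100_40_6_5, qL100_40_6_6,
 qL100_40_6_7, qL100_40_6_8, qL100_40_6_9, qL100_40_6_10, qL100_40_6_11, qL100_40_6_12, qL100_40_6_13,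
 qL100_40_6_14, qL100_40_6_15, qL100_40_6_16, qL100_40_6_17, qL100_40_6_18, qL100_40_6_19], []⟩] = true :=
 chkII_mk (by decide +kernel) (chkCls_cons lL100_40_0 rfl (chkCls_cons lL100_40_1 rfl (chkCls_cons
 lL100_40_2 rfl (chkCls_cons lL100_40_3 rfl (chkCls_cons lL100_40_4 rfl (chkCls_cons lL100_40_5 rfl
 (chkCls_cons lL100_40_6 rfl chkCls_nil)))))))

theorem II_xL100_40 : PropII xL100_40 := propII_of cL100_40

theorem lL100_60_0 : chkPl ⟨(nat_lit 3), (nat_lit 1000), Int.ofNat (nat_lit 260), 0, ⟨0, 1⟩, ⟨Int.ofNat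
 (nat_lit 60), 200⟩⟩ ⟨500000, 550000, 724363, 707313, 741826, 688964, 707346, 671060, 707106, 670820⟩ true 0
 0 [(nat_lit 50), (nat_lit 100), (nat_lit 150), (nat_lit 200), (nat_lit 250), (nat_lit 300), (nat_lit 350),
 (nat_lit 400), (nat_lit 450), (nat_lit 500), (nat_lit 550), (nat_lit 600), (nat_lit 650), (nat_lit 700),
 (nat_lit 750), (nat_lit 800), (nat_lit 850), (nat_lit 900), (nat_lit 950), (nat_lit 1000)] [(Int.ofNat
 (nat_lit 2233)), (Int.ofNat (nat_lit 2023)), (Int.ofNat (nat_lit 2771)), (Int.ofNat (nat_lit 3569)),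
 (Int.ofNat (nat_lit 4393)), (Int.ofNat (nat_lit 5171)), (Int.ofNat (nat_lit 5935)), (Int.ofNat (nat_lit
 6660)), (Int.ofNat (nat_lit 7334)), (Int.ofNat (nat_lit 7956)), (Int.ofNat (nat_lit 8495)), (Int.ofNat
 (nat_lit 8957)), (Int.ofNat (nat_lit 9310)), (Int.ofNat (nat_lit 9560)), (Int.ofNat (nat_lit 9669)),
 (Int.ofNat (nat_lit 9634)), (Int.ofNat (nat_lit 9415)), (Int.ofNat (nat_lit 9006)), (Int.ofNat (nat_lit
 8329)), (Int.ofNat (nat_lit 5231))] [qL100_60_0_0, qL100_60_0_1, qL100_60_0_2, qL100_60_0_3, qL100_60_0_4,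
 qL100_60_0_5, qL100_60_0_6, qL100_60_0_7, qL100_60_0_8, qL100_60_0_9, qL100_60_0_10, qL100_60_0_11,
 qL100_60_0_12, qL100_60_0_13, qL100_60_0_14, qL100_60_0_15, qL100_60_0_16, qL100_60_0_17, qL100_60_0_18,
 qL100_60_0_19] = true :=
  chkPl_cons rfl hL100_60_0_0 (chkPl_cons rfl hL100_60_0_1 (chkPl_cons rfl hL100_60_0_2 (chkPl_cons rfl
 hL100_60_0_3 (chkPl_cons rfl hL100_60_0_4 (chkPl_cons rfl hL100_60_0_5 (chkPl_cons rfl hL100_60_0_6
 (chkPl_cons rfl hL100_60_0_7 (chkPl_cons rfl hL100_60_0_8 (chkPl_cons rfl hL100_60_0_9 (chkPl_cons rfl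
 hL100_60_0_10 (chkPl_cons rfl hL100_60_0_11 (chkPl_cons rfl hL100_60_0_12 (chkPl_cons rfl hL100_60_0_13
 (chkPl_cons rfl hL100_60_0_14 (chkPl_cons rfl hL100_60_0_15 (chkPl_cons rfl hL100_60_0_16 (chkPl_cons rfl
 hL100_60_0_17 (chkPl_cons rfl hL100_60_0_18 (chkPl_cons rfl hL100_60_0_19 chkPl_nil)))))))))))))))))))

theorem lL100_60_1 : chkPl ⟨(nat_lit 3), (nat_lit 1000), Int.ofNat (nat_lit 400), 0, ⟨0, 1⟩, ⟨Int.ofNat
 (nat_lit 60), 200⟩⟩ ⟨500000, 550000, 724363, 707313, 741826, 688964, 707346, 671060, 707106, 670820⟩ true 0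
 0 [(nat_lit 50), (nat_lit 100), (nat_lit 150), (nat_lit 200), (nat_lit 250), (nat_lit 300), (nat_lit 350),
 (nat_lit 400), (nat_lit 450), (nat_lit 500), (nat_lit 550), (nat_lit 600), (nat_lit 650), (nat_lit 700),
 (nat_lit 750), (nat_lit 800), (nat_lit 850), (nat_lit 900), (nat_lit 950), (nat_lit 1000)] [(Int.ofNat
 (nat_lit 601)), (Int.ofNat (nat_lit 1283)), (Int.ofNat (nat_lit 2046)), (Int.ofNat (nat_lit 2891)),
 (Int.ofNat (nat_lit 3820)), (Int.ofNat (nat_lit 4843)), (Int.ofNat (nat_lit 5810)), (Int.ofNat (nat_lit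
 6614)), (Int.ofNat (nat_lit 7308)), (Int.ofNat (nat_lit 7965)), (Int.ofNat (nat_lit 8469)), (Int.ofNat
 (nat_lit 8826)), (Int.ofNat (nat_lit 8996)), (Int.ofNat (nat_lit 8989)), (Int.ofNat (nat_lit 8742)),
 (Int.ofNat (nat_lit 8253)), (Int.ofNat (nat_lit 7420)), (Int.ofNat (nat_lit 6177)), (Int.ofNat (nat_lit
 4235)), (Int.ofNat (nat_lit 497))] [qL100_60_1_0, qL100_60_1_1, qL100_60_1_2, qL100_60_1_3, qL100_60_1_4,
 qL100_60_1_5, qL100_60_1_6, qL100_60_1_7, qL100_60_1_8, qL100_60_1_9, qL100_60_1_10, qL100_60_1_11,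
 qL100_60_1_12, qL100_60_1_13, qL100_60_1_14, qL100_60_1_15, qL100_60_1_16, qL100_60_1_17, qL100_60_1_18,
 qL100_60_1_19] = true :=
  chkPl_cons rfl hL100_60_1_0 (chkPl_cons rfl hL100_60_1_1 (chkPl_cons rfl hL100_60_1_2 (chkPl_cons rfl
 hL100_60_1_3 (chkPl_cons rfl hL100_60_1_4 (chkPl_cons rfl hL100_60_1_5 (chkPl_cons rfl hL100_60_1_6
 (chkPl_cons rfl hL100_60_1_7 (chkPl_cons rfl hL100_60_1_8 (chkPl_cons rfl hL100_60_1_9 (chkPl_cons rfl
 hL100_60_1_10 (chkPl_cons rfl hL100_60_1_11 (chkPl_cons rfl hL100_60_1_12 (chkPl_cons rfl hL100_60_1_13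
 (chkPl_cons rfl hL100_60_1_14 (chkPl_cons rfl hL100_60_1_15 (chkPl_cons rfl hL100_60_1_16 (chkPl_cons rfl
 hL100_60_1_17 (chkPl_cons rfl hL100_60_1_18 (chkPl_cons rfl hL100_60_1_19 chkPl_nil)))))))))))))))))))

theorem lL100_60_2 : chkPl ⟨(nat_lit 3), (nat_lit 1000), Int.ofNat (nat_lit 1000), 0, ⟨0, 1⟩, ⟨Int.ofNat
 (nat_lit 60), 200⟩⟩ ⟨500000, 550000, 724363, 707313, 741826, 688964, 707346, 671060, 707106, 670820⟩ true 0
 0 [(nat_lit 50), (nat_lit 100), (nat_lit 150), (nat_lit 200), (nat_lit 250), (nat_lit 300), (nat_lit 350),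
 (nat_lit 400), (nat_lit 450), (nat_lit 500), (nat_lit 550), (nat_lit 600), (nat_lit 650), (nat_lit 700),
 (nat_lit 750), (nat_lit 800), (nat_lit 850), (nat_lit 900), (nat_lit 950), (nat_lit 1000)] [(Int.ofNat
 (nat_lit 550)), (Int.ofNat (nat_lit 1172)), (Int.ofNat (nat_lit 1867)), (Int.ofNat (nat_lit 2635)),
 (Int.ofNat (nat_lit 3475)), (Int.ofNat (nat_lit 4388)), (Int.ofNat (nat_lit 5375)), (Int.ofNat (nat_lit
 6483)), (Int.ofNat (nat_lit 7325)), (Int.ofNat (nat_lit 8010)), (Int.ofNat (nat_lit 8348)), (Int.ofNat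
 (nat_lit 8266)), (Int.ofNat (nat_lit 7650)), (Int.ofNat (nat_lit 6545)), (Int.ofNat (nat_lit 4768)),
 (Int.ofNat (nat_lit 2340)), (Int.negSucc (nat_lit 1070)), (Int.negSucc (nat_lit 5632)), (Int.negSucc
 (nat_lit 12274)), (Int.negSucc (nat_lit 24647))] [qL100_60_2_0, qL100_60_2_1, qL100_60_2_2, qL100_60_2_3,
 qL100_60_2_4, qL100_60_2_5, qL100_60_2_6, qL100_60_2_7, qL100_60_2_8, qL100_60_2_9, qL100_60_2_10,
 qL100_60_2_11, qL100_60_2_12, qL100_60_2_13, qL100_60_2_14, qL100_60_2_15, qL100_60_2_16, qL100_60_2_17,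
 qL100_60_2_18, qL100_60_2_19] = true :=
  chkPl_cons rfl hL100_60_2_0 (chkPl_cons rfl hL100_60_2_1 (chkPl_cons rfl hL100_60_2_2 (chkPl_cons rfl
 hL100_60_2_3 (chkPl_cons rfl hL100_60_2_4 (chkPl_cons rfl hL100_60_2_5 (chkPl_cons rfl hL100_60_2_6
 (chkPl_cons rfl hL100_60_2_7 (chkPl_cons rfl hL100_60_2_8 (chkPl_cons rfl hL100_60_2_9 (chkPl_cons rfl
 hL100_60_2_10 (chkPl_cons rfl hL100_60_2_11 (chkPl_cons rfl hL100_60_2_12 (chkPl_cons rfl hL100_60_2_13
 (chkPl_cons rfl hL100_60_2_14 (chkPl_cons rfl hL100_60_2_15 (chkPl_cons rfl hL100_60_2_16 (chkPl_cons rfl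
 hL100_60_2_17 (chkPl_cons rfl hL100_60_2_18 (chkPl_cons rfl hL100_60_2_19 chkPl_nil)))))))))))))))))))

theorem lL100_60_3 : chkPl ⟨(nat_lit 1), (nat_lit 1000), Int.ofNat (nat_lit 235), 0, ⟨0, 1⟩, ⟨Int.ofNat
 (nat_lit 60), 200⟩⟩ ⟨500000, 550000, 724363, 707313, 741826, 688964, 707346, 671060, 707106, 670820⟩ true 0
 0 [(nat_lit 50), (nat_lit 100), (nat_lit 150), (nat_lit 200), (nat_lit 250), (nat_lit 300), (nat_lit 350),
 (nat_lit 400), (nat_lit 450), (nat_lit 500), (nat_lit 550), (nat_lit 600), (nat_lit 650), (nat_lit 700),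
 (nat_lit 750), (nat_lit 800), (nat_lit 850), (nat_lit 900), (nat_lit 950), (nat_lit 1000)] [(Int.ofNat
 (nat_lit 13181)), (Int.ofNat (nat_lit 2317)), (Int.ofNat (nat_lit 2469)), (Int.ofNat (nat_lit 2539)),
 (Int.ofNat (nat_lit 2547)), (Int.ofNat (nat_lit 2424)), (Int.ofNat (nat_lit 2221)), (Int.ofNat (nat_lit
 1840)), (Int.ofNat (nat_lit 1322)), (Int.ofNat (nat_lit 643)), (Int.negSucc (nat_lit 237)), (Int.negSucc
 (nat_lit 1303)), (Int.negSucc (nat_lit 2622)), (Int.negSucc (nat_lit 3042)), (Int.negSucc (nat_lit 2846)),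
 (Int.negSucc (nat_lit 2825)), (Int.negSucc (nat_lit 2904)), (Int.negSucc (nat_lit 3101)), (Int.negSucc
 (nat_lit 3591)), (Int.negSucc (nat_lit 6923))] [qL100_60_3_0, qL100_60_3_1, qL100_60_3_2, qL100_60_3_3,
 qL100_60_3_4, qL100_60_3_5, qL100_60_3_6, qL100_60_3_7, qL100_60_3_8, qL100_60_3_9, qL100_60_3_10,
 qL100_60_3_11, qL100_60_3_12, qL100_60_3_13, qL100_60_3_14, qL100_60_3_15, qL100_60_3_16, qL100_60_3_17,
 qL100_60_3_18, qL100_60_3_19] = true :=
  chkPl_cons rfl hL100_60_3_0 (chkPl_cons rfl hL100_60_3_1 (chkPl_cons rfl hL100_60_3_2 (chkPl_cons rfl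
 hL100_60_3_3 (chkPl_cons rfl hL100_60_3_4 (chkPl_cons rfl hL100_60_3_5 (chkPl_cons rfl hL100_60_3_6
 (chkPl_cons rfl hL100_60_3_7 (chkPl_cons rfl hL100_60_3_8 (chkPl_cons rfl hL100_60_3_9 (chkPl_cons rfl
 hL100_60_3_10 (chkPl_cons rfl hL100_60_3_11 (chkPl_cons rfl hL100_60_3_12 (chkPl_cons rfl hL100_60_3_13
 (chkPl_cons rfl hL100_60_3_14 (chkPl_cons rfl hL100_60_3_15 (chkPl_cons rfl hL100_60_3_16 (chkPl_cons rfl
 hL100_60_3_17 (chkPl_cons rfl hL100_60_3_18 (chkPl_cons rfl hL100_60_3_19 chkPl_nil)))))))))))))))))))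

theorem lL100_60_4 : chkPl ⟨(nat_lit 1), (nat_lit 1000), Int.ofNat (nat_lit 250), 0, ⟨0, 1⟩, ⟨Int.ofNat
 (nat_lit 60), 200⟩⟩ ⟨500000, 550000, 724363, 707313, 741826, 688964, 707346, 671060, 707106, 670820⟩ true 0
 0 [(nat_lit 50), (nat_lit 100), (nat_lit 150), (nat_lit 200), (nat_lit 250), (nat_lit 300), (nat_lit 350),
 (nat_lit 400), (nat_lit 450), (nat_lit 500), (nat_lit 550), (nat_lit 600), (nat_lit 650), (nat_lit 700),
 (nat_lit 750), (nat_lit 800), (nat_lit 850), (nat_lit 900), (nat_lit 950), (nat_lit 1000)] [(Int.ofNat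
 (nat_lit 2663)), (Int.ofNat (nat_lit 2022)), (Int.ofNat (nat_lit 2254)), (Int.ofNat (nat_lit 2395)),
 (Int.ofNat (nat_lit 2445)), (Int.ofNat (nat_lit 2372)), (Int.ofNat (nat_lit 2177)), (Int.ofNat (nat_lit
 1824)), (Int.ofNat (nat_lit 1309)), (Int.ofNat (nat_lit 644)), (Int.negSucc (nat_lit 240)), (Int.negSucc
 (nat_lit 1317)), (Int.negSucc (nat_lit 2660)), (Int.negSucc (nat_lit 3107)), (Int.negSucc (nat_lit 2972)),
 (Int.negSucc (nat_lit 2969)), (Int.negSucc (nat_lit 3155)), (Int.negSucc (nat_lit 3464)), (Int.negSucc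
 (nat_lit 4060)), (Int.negSucc (nat_lit 7293))] [qL100_60_4_0, qL100_60_4_1, qL100_60_4_2, qL100_60_4_3,
 qL100_60_4_4, qL100_60_4_5, qL100_60_4_6, qL100_60_4_7, qL100_60_4_8, qL100_60_4_9, qL100_60_4_10,
 qL100_60_4_11, qL100_60_4_12, qL100_60_4_13, qL100_60_4_14, qL100_60_4_15, qL100_60_4_16, qL100_60_4_17,
 qL100_60_4_18, qL100_60_4_19] = true :=
  chkPl_cons rfl hL100_60_4_0 (chkPl_cons rfl hL100_60_4_1 (chkPl_cons rfl hL100_60_4_2 (chkPl_cons rfl
 hL100_60_4_3 (chkPl_cons rfl hL100_60_4_4 (chkPl_cons rfl hL100_60_4_5 (chkPl_cons rfl hL100_60_4_6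
 (chkPl_cons rfl hL100_60_4_7 (chkPl_cons rfl hL100_60_4_8 (chkPl_cons rfl hL100_60_4_9 (chkPl_cons rfl
 hL100_60_4_10 (chkPl_cons rfl hL100_60_4_11 (chkPl_cons rfl hL100_60_4_12 (chkPl_cons rfl hL100_60_4_13
 (chkPl_cons rfl hL100_60_4_14 (chkPl_cons rfl hL100_60_4_15 (chkPl_cons rfl hL100_60_4_16 (chkPl_cons rfl
 hL100_60_4_17 (chkPl_cons rfl hL100_60_4_18 (chkPl_cons rfl hL100_60_4_19 chkPl_nil)))))))))))))))))))

theorem lL100_60_5 : chkPl ⟨(nat_lit 1), (nat_lit 1000), Int.ofNat (nat_lit 400), 0, ⟨0, 1⟩, ⟨Int.ofNat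
 (nat_lit 60), 200⟩⟩ ⟨500000, 550000, 724363, 707313, 741826, 688964, 707346, 671060, 707106, 670820⟩ true 0
 0 [(nat_lit 50), (nat_lit 100), (nat_lit 150), (nat_lit 200), (nat_lit 250), (nat_lit 300), (nat_lit 350),
 (nat_lit 400), (nat_lit 450), (nat_lit 500), (nat_lit 550), (nat_lit 600), (nat_lit 650), (nat_lit 700),
 (nat_lit 750), (nat_lit 800), (nat_lit 850), (nat_lit 900), (nat_lit 950), (nat_lit 1000)] [(Int.ofNat
 (nat_lit 194)), (Int.ofNat (nat_lit 466)), (Int.ofNat (nat_lit 822)), (Int.ofNat (nat_lit 1275)),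
 (Int.ofNat (nat_lit 1773)), (Int.ofNat (nat_lit 1976)), (Int.ofNat (nat_lit 1979)), (Int.ofNat (nat_lit
 1721)), (Int.ofNat (nat_lit 1284)), (Int.ofNat (nat_lit 654)), (Int.negSucc (nat_lit 269)), (Int.negSucc
 (nat_lit 1456)), (Int.negSucc (nat_lit 2998)), (Int.negSucc (nat_lit 3722)), (Int.negSucc (nat_lit 3970)),
 (Int.negSucc (nat_lit 4458)), (Int.negSucc (nat_lit 5291)), (Int.negSucc (nat_lit 6535)), (Int.negSucc
 (nat_lit 8477)), (Int.negSucc (nat_lit 12215))] [qL100_60_5_0, qL100_60_5_1, qL100_60_5_2, qL100_60_5_3,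
 qL100_60_5_4, qL100_60_5_5, qL100_60_5_6, qL100_60_5_7, qL100_60_5_8, qL100_60_5_9, qL100_60_5_10,
 qL100_60_5_11, qL100_60_5_12, qL100_60_5_13, qL100_60_5_14, qL100_60_5_15, qL100_60_5_16, qL100_60_5_17,
 qL100_60_5_18, qL100_60_5_19] = true :=
  chkPl_cons rfl hL100_60_5_0 (chkPl_cons rfl hL100_60_5_1 (chkPl_cons rfl hL100_60_5_2 (chkPl_cons rfl
 hL100_60_5_3 (chkPl_cons rfl hL100_60_5_4 (chkPl_cons rfl hL100_60_5_5 (chkPl_cons rfl hL100_60_5_6
 (chkPl_cons rfl hL100_60_5_7 (chkPl_cons rfl hL100_60_5_8 (chkPl_cons rfl hL100_60_5_9 (chkPl_cons rfl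
 hL100_60_5_10 (chkPl_cons rfl hL100_60_5_11 (chkPl_cons rfl hL100_60_5_12 (chkPl_cons rfl hL100_60_5_13
 (chkPl_cons rfl hL100_60_5_14 (chkPl_cons rfl hL100_60_5_15 (chkPl_cons rfl hL100_60_5_16 (chkPl_cons rfl
 hL100_60_5_17 (chkPl_cons rfl hL100_60_5_18 (chkPl_cons rfl hL100_60_5_19 chkPl_nil)))))))))))))))))))

theorem lL100_60_6 : chkPl ⟨(nat_lit 1), (nat_lit 1000), Int.ofNat (nat_lit 1000), 0, ⟨0, 1⟩, ⟨Int.ofNat
 (nat_lit 60), 200⟩⟩ ⟨500000, 550000, 724363, 707313, 741826, 688964, 707346, 671060, 707106, 670820⟩ true 0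
 0 [(nat_lit 50), (nat_lit 100), (nat_lit 150), (nat_lit 200), (nat_lit 250), (nat_lit 300), (nat_lit 350),
 (nat_lit 400), (nat_lit 450), (nat_lit 500), (nat_lit 550), (nat_lit 600), (nat_lit 650), (nat_lit 700),
 (nat_lit 750), (nat_lit 800), (nat_lit 850), (nat_lit 900), (nat_lit 950), (nat_lit 1000)] [(Int.ofNat
 (nat_lit 11)), (Int.ofNat (nat_lit 79)), (Int.ofNat (nat_lit 206)), (Int.ofNat (nat_lit 392)), (Int.ofNat
 (nat_lit 637)), (Int.ofNat (nat_lit 942)), (Int.ofNat (nat_lit 1337)), (Int.ofNat (nat_lit 1613)),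
 (Int.ofNat (nat_lit 1226)), (Int.ofNat (nat_lit 698)), (Int.negSucc (nat_lit 388)), (Int.negSucc (nat_lit
 2017)), (Int.negSucc (nat_lit 4343)), (Int.negSucc (nat_lit 6165)), (Int.negSucc (nat_lit 7945)),
 (Int.negSucc (nat_lit 10370)), (Int.negSucc (nat_lit 13784)), (Int.negSucc (nat_lit 18207)), (Int.negSucc
 (nat_lit 25159)), (Int.negSucc (nat_lit 29999))] [qL100_60_6_0, qL100_60_6_1, qL100_60_6_2, qL100_60_6_3,
 qL100_60_6_4, qL100_60_6_5, qL100_60_6_6, qL100_60_6_7, qL100_60_6_8, qL100_60_6_9, qL100_60_6_10,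
 qL100_60_6_11, qL100_60_6_12, qL100_60_6_13, qL100_60_6_14, qL100_60_6_15, qL100_60_6_16, qL100_60_6_17,
 qL100_60_6_18, qL100_60_6_19] = true :=
  chkPl_cons rfl hL100_60_6_0 (chkPl_cons rfl hL100_60_6_1 (chkPl_cons rfl hL100_60_6_2 (chkPl_cons rfl
 hL100_60_6_3 (chkPl_cons rfl hL100_60_6_4 (chkPl_cons rfl hL100_60_6_5 (chkPl_cons rfl hL100_60_6_6
 (chkPl_cons rfl hL100_60_6_7 (chkPl_cons rfl hL100_60_6_8 (chkPl_cons rfl hL100_60_6_9 (chkPl_cons rfl
 hL100_60_6_10 (chkPl_cons rfl hL100_60_6_11 (chkPl_cons rfl hL100_60_6_12 (chkPl_cons rfl hL100_60_6_13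
 (chkPl_cons rfl hL100_60_6_14 (chkPl_cons rfl hL100_60_6_15 (chkPl_cons rfl hL100_60_6_16 (chkPl_cons rfl
 hL100_60_6_17 (chkPl_cons rfl hL100_60_6_18 (chkPl_cons rfl hL100_60_6_19 chkPl_nil)))))))))))))))))))

def cL100_60 : chkII xL100_60 ⟨500000, 550000, 724363, 707313, 741826, 688964, 707346, 671060, 707106,
 670820⟩ [⟨[qL100_60_0_0, qL100_60_0_1, qL100_60_0_2, qL100_60_0_3, qL100_60_0_4, qL100_60_0_5,
 qL100_60_0_6, qL100_60_0_7, qL100_60_0_8, qL100_60_0_9, qL100_60_0_10, qL100_60_0_11, qL100_60_0_12,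
 qL100_60_0_13, qL100_60_0_14, qL100_60_0_15, qL100_60_0_16, qL100_60_0_17, qL100_60_0_18, qL100_60_0_19],
 []⟩, ⟨[qL100_60_1_0, qL100_60_1_1, qL100_60_1_2, qL100_60_1_3, qL100_60_1_4, qL100_60_1_5, qL100_60_1_6,
 qL100_60_1_7, qL100_60_1_8, qL100_60_1_9, qL100_60_1_10, qL100_60_1_11, qL100_60_1_12, qL100_60_1_13,
 qL100_60_1_14, qL100_60_1_15, qL100_60_1_16, qL100_60_1_17, qL100_60_1_18, qL100_60_1_19], []⟩,
 ⟨[qL100_60_2_0, qL100_60_2_1, qL100_60_2_2, qL100_60_2_3, qL100_60_2_4, qL100_60_2_5, qL100_60_2_6,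
 qL100_60_2_7, qL100_60_2_8, qL100_60_2_9, qL100_60_2_10, qL100_60_2_11, qL100_60_2_12, qL100_60_2_13,
 qL100_60_2_14, qL100_60_2_15, qL100_60_2_16, qL100_60_2_17, qL100_60_2_18, qL100_60_2_19], []⟩,
 ⟨[qL100_60_3_0, qL100_60_3_1, qL100_60_3_2, qL100_60_3_3, qL100_60_3_4, qL100_60_3_5, qL100_60_3_6,
 qL100_60_3_7, qL100_60_3_8, qL100_60_3_9, qL100_60_3_10, qL100_60_3_11, qL100_60_3_12, qL100_60_3_13,
 qL100_60_3_14, qL100_60_3_15, qL100_60_3_16, qL100_60_3_17, qL100_60_3_18, qL100_60_3_19], []⟩,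
 ⟨[qL100_60_4_0, qL100_60_4_1, qL100_60_4_2, qL100_60_4_3, qL100_60_4_4, qL100_60_4_5, qL100_60_4_6,
 qL100_60_4_7, qL100_60_4_8, qL100_60_4_9, qL100_60_4_10, qL100_60_4_11, qL100_60_4_12, qL100_60_4_13,
 qL100_60_4_14, qL100_60_4_15, qL100_60_4_16, qL100_60_4_17, qL100_60_4_18, qL100_60_4_19], []⟩,
 ⟨[qL100_60_5_0, qL100_60_5_1, qL100_60_5_2, qL100_60_5_3, qL100_60_5_4, qL100_60_5_5, qL100_60_5_6,
 qL100_60_5_7, qL100_60_5_8, qL100_60_5_9, qL100_60_5_10, qL100_60_5_11, qL100_60_5_12, qL100_60_5_13,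
 qL100_60_5_14, qL100_60_5_15, qL100_60_5_16, qL100_60_5_17, qL100_60_5_18, qL100_60_5_19], []⟩,
 ⟨[qL100_60_6_0, qL100_60_6_1, qL100_60_6_2, qL100_60_6_3, qL100_60_6_4, qL100_60_6_5, qL100_60_6_6,
 qL100_60_6_7, qL100_60_6_8, qL100_60_6_9, qL100_60_6_10, qL100_60_6_11, qL100_60_6_12, qL100_60_6_13,
 qL100_60_6_14, qL100_60_6_15, qL100_60_6_16, qL100_60_6_17, qL100_60_6_18, qL100_60_6_19], []⟩] = true :=
 chkII_mk (by decide +kernel) (chkCls_cons lL100_60_0 rfl (chkCls_cons lL100_60_1 rfl (chkCls_cons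
 lL100_60_2 rfl (chkCls_cons lL100_60_3 rfl (chkCls_cons lL100_60_4 rfl (chkCls_cons lL100_60_5 rfl
 (chkCls_cons lL100_60_6 rfl chkCls_nil)))))))

theorem II_xL100_60 : PropII xL100_60 := propII_of cL100_60

end CB
end Pool.Agent.Lib.MP_6947cd_al
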