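import Pool.Agent.Lib.MP_6947cd_al.L.PairA
import Pool.Agent.Lib.MP_6947cd_al.L.BoxLib
import Pool.Agent.Lib.MP_6947cd_al.PS.L170_60_0
import Pool.Agent.Lib.MP_6947cd_al.PS.L170_60_1
import Pool.Agent.Lib.MP_6947cd_al.PS.L180_40_0
import Pool.Agent.Lib.MP_6947cd_al.PS.L180_40_1

/-!
Problem MP_6947cd_al (Chollet).  Library of pair functions: certificates (generated).
-/

set_option autoImplicit false
set_option linter.defProp false
set_option maxRecDepth 100000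

namespace Pool.Agent.Lib.MP_6947cd_al
namespace CB

open CA

theorem lL170_60_0 : chkPl ⟨(nat_lit 3), (nat_lit 1000), Int.ofNat (nat_lit 250), 0, ⟨0, 1⟩, ⟨Int.ofNat
 (nat_lit 60), 200⟩⟩ ⟨850000, 900000, 935319, 922050, 948779, 351763, 389094, 318023, 387298, 316227⟩ true 0
 0 [(nat_lit 50), (nat_lit 100), (nat_lit 150), (nat_lit 200), (nat_lit 250), (nat_lit 300), (nat_lit 350),
 (nat_lit 400), (nat_lit 450), (nat_lit 500), (nat_lit 550), (nat_lit 600), (nat_lit 650), (nat_lit 700),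
 (nat_lit 750), (nat_lit 800), (nat_lit 850), (nat_lit 900), (nat_lit 950), (nat_lit 1000)] [(Int.ofNat
 (nat_lit 985)), (Int.ofNat (nat_lit 1765)), (Int.ofNat (nat_lit 2410)), (Int.ofNat (nat_lit 2981)),
 (Int.ofNat (nat_lit 3508)), (Int.ofNat (nat_lit 3998)), (Int.ofNat (nat_lit 4468)), (Int.ofNat (nat_lit
 4927)), (Int.ofNat (nat_lit 5381)), (Int.ofNat (nat_lit 5827)), (Int.ofNat (nat_lit 6298)), (Int.ofNat
 (nat_lit 6786)), (Int.ofNat (nat_lit 7296)), (Int.ofNat (nat_lit 7831)), (Int.negSucc (nat_lit 29999)),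
 (Int.negSucc (nat_lit 29999)), (Int.negSucc (nat_lit 29999)), (Int.negSucc (nat_lit 29999)), (Int.negSucc
 (nat_lit 29999)), (Int.negSucc (nat_lit 29999))] [qL170_60_0_0, qL170_60_0_1, qL170_60_0_2, qL170_60_0_3,
 qL170_60_0_4, qL170_60_0_5, qL170_60_0_6, qL170_60_0_7, qL170_60_0_8, qL170_60_0_9, qL170_60_0_10,
 qL170_60_0_11, qL170_60_0_12, qL170_60_0_13, qL170_60_0_14, qL170_60_0_15, qL170_60_0_16, qL170_60_0_17,
 qL170_60_0_18, qL170_60_0_19] = true :=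
  chkPl_cons rfl hL170_60_0_0 (chkPl_cons rfl hL170_60_0_1 (chkPl_cons rfl hL170_60_0_2 (chkPl_cons rfl
 hL170_60_0_3 (chkPl_cons rfl hL170_60_0_4 (chkPl_cons rfl hL170_60_0_5 (chkPl_cons rfl hL170_60_0_6
 (chkPl_cons rfl hL170_60_0_7 (chkPl_cons rfl hL170_60_0_8 (chkPl_cons rfl hL170_60_0_9 (chkPl_cons rfl
 hL170_60_0_10 (chkPl_cons rfl hL170_60_0_11 (chkPl_cons rfl hL170_60_0_12 (chkPl_cons rfl hL170_60_0_13
 (chkPl_cons rfl hL170_60_0_14 (chkPl_cons rfl hL170_60_0_15 (chkPl_cons rfl hL170_60_0_16 (chkPl_cons rfl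
 hL170_60_0_17 (chkPl_cons rfl hL170_60_0_18 (chkPl_cons rfl hL170_60_0_19 chkPl_nil)))))))))))))))))))

theorem lL170_60_1 : chkPl ⟨(nat_lit 3), (nat_lit 1000), Int.ofNat (nat_lit 400), 0, ⟨0, 1⟩, ⟨Int.ofNat
 (nat_lit 60), 200⟩⟩ ⟨850000, 900000, 935319, 922050, 948779, 351763, 389094, 318023, 387298, 316227⟩ true 0
 0 [(nat_lit 50), (nat_lit 100), (nat_lit 150), (nat_lit 200), (nat_lit 250), (nat_lit 300), (nat_lit 350),
 (nat_lit 400), (nat_lit 450), (nat_lit 500), (nat_lit 550), (nat_lit 600), (nat_lit 650), (nat_lit 700),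
 (nat_lit 750), (nat_lit 800), (nat_lit 850), (nat_lit 900), (nat_lit 950), (nat_lit 1000)] [(Int.ofNat
 (nat_lit 815)), (Int.ofNat (nat_lit 1695)), (Int.ofNat (nat_lit 2431)), (Int.ofNat (nat_lit 2920)),
 (Int.ofNat (nat_lit 3270)), (Int.ofNat (nat_lit 3497)), (Int.ofNat (nat_lit 3644)), (Int.ofNat (nat_lit
 3714)), (Int.ofNat (nat_lit 3726)), (Int.ofNat (nat_lit 3688)), (Int.ofNat (nat_lit 3607)), (Int.ofNat
 (nat_lit 3488)), (Int.ofNat (nat_lit 3335)), (Int.ofNat (nat_lit 3148)), (Int.negSucc (nat_lit 29999)),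
 (Int.negSucc (nat_lit 29999)), (Int.negSucc (nat_lit 29999)), (Int.negSucc (nat_lit 29999)), (Int.negSucc
 (nat_lit 29999)), (Int.negSucc (nat_lit 29999))] [qL170_60_1_0, qL170_60_1_1, qL170_60_1_2, qL170_60_1_3,
 qL170_60_1_4, qL170_60_1_5, qL170_60_1_6, qL170_60_1_7, qL170_60_1_8, qL170_60_1_9, qL170_60_1_10,
 qL170_60_1_11, qL170_60_1_12, qL170_60_1_13, qL170_60_1_14, qL170_60_1_15, qL170_60_1_16, qL170_60_1_17,
 qL170_60_1_18, qL170_60_1_19] = true :=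
  chkPl_cons rfl hL170_60_1_0 (chkPl_cons rfl hL170_60_1_1 (chkPl_cons rfl hL170_60_1_2 (chkPl_cons rfl
 hL170_60_1_3 (chkPl_cons rfl hL170_60_1_4 (chkPl_cons rfl hL170_60_1_5 (chkPl_cons rfl hL170_60_1_6
 (chkPl_cons rfl hL170_60_1_7 (chkPl_cons rfl hL170_60_1_8 (chkPl_cons rfl hL170_60_1_9 (chkPl_cons rfl
 hL170_60_1_10 (chkPl_cons rfl hL170_60_1_11 (chkPl_cons rfl hL170_60_1_12 (chkPl_cons rfl hL170_60_1_13
 (chkPl_cons rfl hL170_60_1_14 (chkPl_cons rfl hL170_60_1_15 (chkPl_cons rfl hL170_60_1_16 (chkPl_cons rfl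
 hL170_60_1_17 (chkPl_cons rfl hL170_60_1_18 (chkPl_cons rfl hL170_60_1_19 chkPl_nil)))))))))))))))))))

theorem lL170_60_2 : chkPl ⟨(nat_lit 3), (nat_lit 1000), Int.ofNat (nat_lit 1000), 0, ⟨0, 1⟩, ⟨Int.ofNat
 (nat_lit 60), 200⟩⟩ ⟨850000, 900000, 935319, 922050, 948779, 351763, 389094, 318023, 387298, 316227⟩ true 0
 0 [(nat_lit 50), (nat_lit 100), (nat_lit 150), (nat_lit 200), (nat_lit 250), (nat_lit 300), (nat_lit 350),
 (nat_lit 400), (nat_lit 450), (nat_lit 500), (nat_lit 550), (nat_lit 600), (nat_lit 650), (nat_lit 700),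
 (nat_lit 750), (nat_lit 800), (nat_lit 850), (nat_lit 900), (nat_lit 950), (nat_lit 1000)] [(Int.ofNat
 (nat_lit 766)), (Int.ofNat (nat_lit 1609)), (Int.ofNat (nat_lit 2473)), (Int.ofNat (nat_lit 2737)),
 (Int.ofNat (nat_lit 2354)), (Int.ofNat (nat_lit 1578)), (Int.ofNat (nat_lit 403)), (Int.negSucc (nat_lit
 1058)), (Int.negSucc (nat_lit 2836)), (Int.negSucc (nat_lit 4852)), (Int.negSucc (nat_lit 7149)),
 (Int.negSucc (nat_lit 9678)), (Int.negSucc (nat_lit 12498)), (Int.negSucc (nat_lit 15573)), (Int.negSucc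
 (nat_lit 29999)), (Int.negSucc (nat_lit 29999)), (Int.negSucc (nat_lit 29999)), (Int.negSucc (nat_lit
 29999)), (Int.negSucc (nat_lit 29999)), (Int.negSucc (nat_lit 29999))] [qL170_60_2_0, qL170_60_2_1,
 qL170_60_2_2, qL170_60_2_3, qL170_60_2_4, qL170_60_2_5, qL170_60_2_6, qL170_60_2_7, qL170_60_2_8,
 qL170_60_2_9, qL170_60_2_10, qL170_60_2_11, qL170_60_2_12, qL170_60_2_13, qL170_60_2_14, qL170_60_2_15,
 qL170_60_2_16, qL170_60_2_17, qL170_60_2_18, qL170_60_2_19] = true :=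
  chkPl_cons rfl hL170_60_2_0 (chkPl_cons rfl hL170_60_2_1 (chkPl_cons rfl hL170_60_2_2 (chkPl_cons rfl
 hL170_60_2_3 (chkPl_cons rfl hL170_60_2_4 (chkPl_cons rfl hL170_60_2_5 (chkPl_cons rfl hL170_60_2_6
 (chkPl_cons rfl hL170_60_2_7 (chkPl_cons rfl hL170_60_2_8 (chkPl_cons rfl hL170_60_2_9 (chkPl_cons rfl
 hL170_60_2_10 (chkPl_cons rfl hL170_60_2_11 (chkPl_cons rfl hL170_60_2_12 (chkPl_cons rfl hL170_60_2_13
 (chkPl_cons rfl hL170_60_2_14 (chkPl_cons rfl hL170_60_2_15 (chkPl_cons rfl hL170_60_2_16 (chkPl_cons rfl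
 hL170_60_2_17 (chkPl_cons rfl hL170_60_2_18 (chkPl_cons rfl hL170_60_2_19 chkPl_nil)))))))))))))))))))

theorem lL170_60_3 : chkPl ⟨(nat_lit 1), (nat_lit 1000), Int.ofNat (nat_lit 205), 0, ⟨0, 1⟩, ⟨Int.ofNat
 (nat_lit 60), 200⟩⟩ ⟨850000, 900000, 935319, 922050, 948779, 351763, 389094, 318023, 387298, 316227⟩ true 0
 0 [(nat_lit 50), (nat_lit 100), (nat_lit 150), (nat_lit 200), (nat_lit 250), (nat_lit 300), (nat_lit 350),
 (nat_lit 400), (nat_lit 450), (nat_lit 500), (nat_lit 550), (nat_lit 600), (nat_lit 650), (nat_lit 700),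
 (nat_lit 750), (nat_lit 800), (nat_lit 850), (nat_lit 900), (nat_lit 950), (nat_lit 1000)] [(Int.ofNat
 (nat_lit 1538)), (Int.ofNat (nat_lit 1211)), (Int.ofNat (nat_lit 1176)), (Int.ofNat (nat_lit 936)),
 (Int.ofNat (nat_lit 595)), (Int.ofNat (nat_lit 126)), (Int.negSucc (nat_lit 422)), (Int.negSucc (nat_lit
 1087)), (Int.negSucc (nat_lit 1836)), (Int.negSucc (nat_lit 2703)), (Int.negSucc (nat_lit 3633)),
 (Int.negSucc (nat_lit 4665)), (Int.negSucc (nat_lit 4226)), (Int.negSucc (nat_lit 3476)), (Int.negSucc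
 (nat_lit 29999)), (Int.negSucc (nat_lit 29999)), (Int.negSucc (nat_lit 29999)), (Int.negSucc (nat_lit
 29999)), (Int.negSucc (nat_lit 29999)), (Int.negSucc (nat_lit 29999))] [qL170_60_3_0, qL170_60_3_1,
 qL170_60_3_2, qL170_60_3_3, qL170_60_3_4, qL170_60_3_5, qL170_60_3_6, qL170_60_3_7, qL170_60_3_8,
 qL170_60_3_9, qL170_60_3_10, qL170_60_3_11, qL170_60_3_12, qL170_60_3_13, qL170_60_3_14, qL170_60_3_15,
 qL170_60_3_16, qL170_60_3_17, qL170_60_3_18, qL170_60_3_19] = true :=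
  chkPl_cons rfl hL170_60_3_0 (chkPl_cons rfl hL170_60_3_1 (chkPl_cons rfl hL170_60_3_2 (chkPl_cons rfl
 hL170_60_3_3 (chkPl_cons rfl hL170_60_3_4 (chkPl_cons rfl hL170_60_3_5 (chkPl_cons rfl hL170_60_3_6
 (chkPl_cons rfl hL170_60_3_7 (chkPl_cons rfl hL170_60_3_8 (chkPl_cons rfl hL170_60_3_9 (chkPl_cons rfl
 hL170_60_3_10 (chkPl_cons rfl hL170_60_3_11 (chkPl_cons rfl hL170_60_3_12 (chkPl_cons rfl hL170_60_3_13
 (chkPl_cons rfl hL170_60_3_14 (chkPl_cons rfl hL170_60_3_15 (chkPl_cons rfl hL170_60_3_16 (chkPl_cons rfl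
 hL170_60_3_17 (chkPl_cons rfl hL170_60_3_18 (chkPl_cons rfl hL170_60_3_19 chkPl_nil)))))))))))))))))))

theorem lL170_60_4 : chkPl ⟨(nat_lit 1), (nat_lit 1000), Int.ofNat (nat_lit 250), 0, ⟨0, 1⟩, ⟨Int.ofNat
 (nat_lit 60), 200⟩⟩ ⟨850000, 900000, 935319, 922050, 948779, 351763, 389094, 318023, 387298, 316227⟩ true 0
 0 [(nat_lit 50), (nat_lit 100), (nat_lit 150), (nat_lit 200), (nat_lit 250), (nat_lit 300), (nat_lit 350),
 (nat_lit 400), (nat_lit 450), (nat_lit 500), (nat_lit 550), (nat_lit 600), (nat_lit 650), (nat_lit 700),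
 (nat_lit 750), (nat_lit 800), (nat_lit 850), (nat_lit 900), (nat_lit 950), (nat_lit 1000)] [(Int.ofNat
 (nat_lit 937)), (Int.ofNat (nat_lit 1202)), (Int.ofNat (nat_lit 1170)), (Int.ofNat (nat_lit 924)),
 (Int.ofNat (nat_lit 527)), (Int.negSucc (nat_lit 5)), (Int.negSucc (nat_lit 664)), (Int.negSucc (nat_lit
 1446)), (Int.negSucc (nat_lit 2340)), (Int.negSucc (nat_lit 3344)), (Int.negSucc (nat_lit 4440)),
 (Int.negSucc (nat_lit 5653)), (Int.negSucc (nat_lit 5415)), (Int.negSucc (nat_lit 4880)), (Int.negSucc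
 (nat_lit 29999)), (Int.negSucc (nat_lit 29999)), (Int.negSucc (nat_lit 29999)), (Int.negSucc (nat_lit
 29999)), (Int.negSucc (nat_lit 29999)), (Int.negSucc (nat_lit 29999))] [qL170_60_4_0, qL170_60_4_1,
 qL170_60_4_2, qL170_60_4_3, qL170_60_4_4, qL170_60_4_5, qL170_60_4_6, qL170_60_4_7, qL170_60_4_8,
 qL170_60_4_9, qL170_60_4_10, qL170_60_4_11, qL170_60_4_12, qL170_60_4_13, qL170_60_4_14, qL170_60_4_15,
 qL170_60_4_16, qL170_60_4_17, qL170_60_4_18, qL170_60_4_19] = true :=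
  chkPl_cons rfl hL170_60_4_0 (chkPl_cons rfl hL170_60_4_1 (chkPl_cons rfl hL170_60_4_2 (chkPl_cons rfl
 hL170_60_4_3 (chkPl_cons rfl hL170_60_4_4 (chkPl_cons rfl hL170_60_4_5 (chkPl_cons rfl hL170_60_4_6
 (chkPl_cons rfl hL170_60_4_7 (chkPl_cons rfl hL170_60_4_8 (chkPl_cons rfl hL170_60_4_9 (chkPl_cons rfl
 hL170_60_4_10 (chkPl_cons rfl hL170_60_4_11 (chkPl_cons rfl hL170_60_4_12 (chkPl_cons rfl hL170_60_4_13
 (chkPl_cons rfl hL170_60_4_14 (chkPl_cons rfl hL170_60_4_15 (chkPl_cons rfl hL170_60_4_16 (chkPl_cons rfl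
 hL170_60_4_17 (chkPl_cons rfl hL170_60_4_18 (chkPl_cons rfl hL170_60_4_19 chkPl_nil)))))))))))))))))))

theorem lL170_60_5 : chkPl ⟨(nat_lit 1), (nat_lit 1000), Int.ofNat (nat_lit 400), 0, ⟨0, 1⟩, ⟨Int.ofNat
 (nat_lit 60), 200⟩⟩ ⟨850000, 900000, 935319, 922050, 948779, 351763, 389094, 318023, 387298, 316227⟩ true 0
 0 [(nat_lit 50), (nat_lit 100), (nat_lit 150), (nat_lit 200), (nat_lit 250), (nat_lit 300), (nat_lit 350),
 (nat_lit 400), (nat_lit 450), (nat_lit 500), (nat_lit 550), (nat_lit 600), (nat_lit 650), (nat_lit 700),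
 (nat_lit 750), (nat_lit 800), (nat_lit 850), (nat_lit 900), (nat_lit 950), (nat_lit 1000)] [(Int.ofNat
 (nat_lit 614)), (Int.ofNat (nat_lit 1136)), (Int.ofNat (nat_lit 1200)), (Int.ofNat (nat_lit 866)),
 (Int.ofNat (nat_lit 302)), (Int.negSucc (nat_lit 501)), (Int.negSucc (nat_lit 1483)), (Int.negSucc (nat_lit
 2660)), (Int.negSucc (nat_lit 3983)), (Int.negSucc (nat_lit 5483)), (Int.negSucc (nat_lit 7128)),
 (Int.negSucc (nat_lit 8950)), (Int.negSucc (nat_lit 9381)), (Int.negSucc (nat_lit 9552)), (Int.negSucc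
 (nat_lit 29999)), (Int.negSucc (nat_lit 29999)), (Int.negSucc (nat_lit 29999)), (Int.negSucc (nat_lit
 29999)), (Int.negSucc (nat_lit 29999)), (Int.negSucc (nat_lit 29999))] [qL170_60_5_0, qL170_60_5_1,
 qL170_60_5_2, qL170_60_5_3, qL170_60_5_4, qL170_60_5_5, qL170_60_5_6, qL170_60_5_7, qL170_60_5_8,
 qL170_60_5_9, qL170_60_5_10, qL170_60_5_11, qL170_60_5_12, qL170_60_5_13, qL170_60_5_14, qL170_60_5_15,
 qL170_60_5_16, qL170_60_5_17, qL170_60_5_18, qL170_60_5_19] = true :=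
  chkPl_cons rfl hL170_60_5_0 (chkPl_cons rfl hL170_60_5_1 (chkPl_cons rfl hL170_60_5_2 (chkPl_cons rfl
 hL170_60_5_3 (chkPl_cons rfl hL170_60_5_4 (chkPl_cons rfl hL170_60_5_5 (chkPl_cons rfl hL170_60_5_6
 (chkPl_cons rfl hL170_60_5_7 (chkPl_cons rfl hL170_60_5_8 (chkPl_cons rfl hL170_60_5_9 (chkPl_cons rfl
 hL170_60_5_10 (chkPl_cons rfl hL170_60_5_11 (chkPl_cons rfl hL170_60_5_12 (chkPl_cons rfl hL170_60_5_13
 (chkPl_cons rfl hL170_60_5_14 (chkPl_cons rfl hL170_60_5_15 (chkPl_cons rfl hL170_60_5_16 (chkPl_cons rfl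
 hL170_60_5_17 (chkPl_cons rfl hL170_60_5_18 (chkPl_cons rfl hL170_60_5_19 chkPl_nil)))))))))))))))))))

theorem lL170_60_6 : chkPl ⟨(nat_lit 1), (nat_lit 1000), Int.ofNat (nat_lit 1000), 0, ⟨0, 1⟩, ⟨Int.ofNat
 (nat_lit 60), 200⟩⟩ ⟨850000, 900000, 935319, 922050, 948779, 351763, 389094, 318023, 387298, 316227⟩ true 0
 0 [(nat_lit 50), (nat_lit 100), (nat_lit 150), (nat_lit 200), (nat_lit 250), (nat_lit 300), (nat_lit 350),
 (nat_lit 400), (nat_lit 450), (nat_lit 500), (nat_lit 550), (nat_lit 600), (nat_lit 650), (nat_lit 700),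
 (nat_lit 750), (nat_lit 800), (nat_lit 850), (nat_lit 900), (nat_lit 950), (nat_lit 1000)] [(Int.ofNat
 (nat_lit 441)), (Int.ofNat (nat_lit 946)), (Int.ofNat (nat_lit 1244)), (Int.ofNat (nat_lit 673)),
 (Int.negSucc (nat_lit 623)), (Int.negSucc (nat_lit 2423)), (Int.negSucc (nat_lit 4734)), (Int.negSucc
 (nat_lit 7427)), (Int.negSucc (nat_lit 10535)), (Int.negSucc (nat_lit 14036)), (Int.negSucc (nat_lit
 17880)), (Int.negSucc (nat_lit 22134)), (Int.negSucc (nat_lit 25243)), (Int.negSucc (nat_lit 28196)),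
 (Int.negSucc (nat_lit 29999)), (Int.negSucc (nat_lit 29999)), (Int.negSucc (nat_lit 29999)), (Int.negSucc
 (nat_lit 29999)), (Int.negSucc (nat_lit 29999)), (Int.negSucc (nat_lit 29999))] [qL170_60_6_0,
 qL170_60_6_1, qL170_60_6_2, qL170_60_6_3, qL170_60_6_4, qL170_60_6_5, qL170_60_6_6, qL170_60_6_7,
 qL170_60_6_8, qL170_60_6_9, qL170_60_6_10, qL170_60_6_11, qL170_60_6_12, qL170_60_6_13, qL170_60_6_14,
 qL170_60_6_15, qL170_60_6_16, qL170_60_6_17, qL170_60_6_18, qL170_60_6_19] = true :=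
  chkPl_cons rfl hL170_60_6_0 (chkPl_cons rfl hL170_60_6_1 (chkPl_cons rfl hL170_60_6_2 (chkPl_cons rfl
 hL170_60_6_3 (chkPl_cons rfl hL170_60_6_4 (chkPl_cons rfl hL170_60_6_5 (chkPl_cons rfl hL170_60_6_6
 (chkPl_cons rfl hL170_60_6_7 (chkPl_cons rfl hL170_60_6_8 (chkPl_cons rfl hL170_60_6_9 (chkPl_cons rfl
 hL170_60_6_10 (chkPl_cons rfl hL170_60_6_11 (chkPl_cons rfl hL170_60_6_12 (chkPl_cons rfl hL170_60_6_13
 (chkPl_cons rfl hL170_60_6_14 (chkPl_cons rfl hL170_60_6_15 (chkPl_cons rfl hL170_60_6_16 (chkPl_cons rfl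
 hL170_60_6_17 (chkPl_cons rfl hL170_60_6_18 (chkPl_cons rfl hL170_60_6_19 chkPl_nil)))))))))))))))))))

def cL170_60 : chkII xL170_60 ⟨850000, 900000, 935319, 922050, 948779, 351763, 389094, 318023, 387298,
 316227⟩ [⟨[qL170_60_0_0, qL170_60_0_1, qL170_60_0_2, qL170_60_0_3, qL170_60_0_4, qL170_60_0_5,
 qL170_60_0_6, qL170_60_0_7, qL170_60_0_8, qL170_60_0_9, qL170_60_0_10, qL170_60_0_11, qL170_60_0_12,
 qL170_60_0_13, qL170_60_0_14, qL170_60_0_15, qL170_60_0_16, qL170_60_0_17, qL170_60_0_18, qL170_60_0_19],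
 []⟩, ⟨[qL170_60_1_0, qL170_60_1_1, qL170_60_1_2, qL170_60_1_3, qL170_60_1_4, qL170_60_1_5, qL170_60_1_6,
 qL170_60_1_7, qL170_60_1_8, qL170_60_1_9, qL170_60_1_10, qL170_60_1_11, qL170_60_1_12, qL170_60_1_13,
 qL170_60_1_14, qL170_60_1_15, qL170_60_1_16, qL170_60_1_17, qL170_60_1_18, qL170_60_1_19], []⟩,
 ⟨[qL170_60_2_0, qL170_60_2_1, qL170_60_2_2, qL170_60_2_3, qL170_60_2_4, qL170_60_2_5, qL170_60_2_6,
 qL170_60_2_7, qL170_60_2_8, qL170_60_2_9, qL170_60_2_10, qL170_60_2_11, qL170_60_2_12, qL170_60_2_13,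
 qL170_60_2_14, qL170_60_2_15, qL170_60_2_16, qL170_60_2_17, qL170_60_2_18, qL170_60_2_19], []⟩,
 ⟨[qL170_60_3_0, qL170_60_3_1, qL170_60_3_2, qL170_60_3_3, qL170_60_3_4, qL170_60_3_5, qL170_60_3_6,
 qL170_60_3_7, qL170_60_3_8, qL170_60_3_9, qL170_60_3_10, qL170_60_3_11, qL170_60_3_12, qL170_60_3_13,
 qL170_60_3_14, qL170_60_3_15, qL170_60_3_16, qL170_60_3_17, qL170_60_3_18, qL170_60_3_19], []⟩,
 ⟨[qL170_60_4_0, qL170_60_4_1, qL170_60_4_2, qL170_60_4_3, qL170_60_4_4, qL170_60_4_5, qL170_60_4_6,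
 qL170_60_4_7, qL170_60_4_8, qL170_60_4_9, qL170_60_4_10, qL170_60_4_11, qL170_60_4_12, qL170_60_4_13,
 qL170_60_4_14, qL170_60_4_15, qL170_60_4_16, qL170_60_4_17, qL170_60_4_18, qL170_60_4_19], []⟩,
 ⟨[qL170_60_5_0, qL170_60_5_1, qL170_60_5_2, qL170_60_5_3, qL170_60_5_4, qL170_60_5_5, qL170_60_5_6,
 qL170_60_5_7, qL170_60_5_8, qL170_60_5_9, qL170_60_5_10, qL170_60_5_11, qL170_60_5_12, qL170_60_5_13,
 qL170_60_5_14, qL170_60_5_15, qL170_60_5_16, qL170_60_5_17, qL170_60_5_18, qL170_60_5_19], []⟩,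
 ⟨[qL170_60_6_0, qL170_60_6_1, qL170_60_6_2, qL170_60_6_3, qL170_60_6_4, qL170_60_6_5, qL170_60_6_6,
 qL170_60_6_7, qL170_60_6_8, qL170_60_6_9, qL170_60_6_10, qL170_60_6_11, qL170_60_6_12, qL170_60_6_13,
 qL170_60_6_14, qL170_60_6_15, qL170_60_6_16, qL170_60_6_17, qL170_60_6_18, qL170_60_6_19], []⟩] = true :=
 chkII_mk (by decide +kernel) (chkCls_cons lL170_60_0 rfl (chkCls_cons lL170_60_1 rfl (chkCls_cons
 lL170_60_2 rfl (chkCls_cons lL170_60_3 rfl (chkCls_cons lL170_60_4 rfl (chkCls_cons lL170_60_5 rfl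
 (chkCls_cons lL170_60_6 rfl chkCls_nil)))))))

theorem II_xL170_60 : PropII xL170_60 := propII_of cL170_60

def cL180_20 : chkII xL180_20 ⟨900000, 950000, 961681, 948772, 974768, 269917, 320201, 227580, 316227,
 223606⟩ [⟨[.one ⟨2008000, 251, 502000, 383126, 0, 0, 0, 100000, 0, 50000⟩ ⟨25000, (.sp 250000 (.aff 2828428
 353554) (.sp 500000 (.aff 1414214 707107) (.sp 707106 (.sp 594603 (.sp 545253 (.aff 1368529 730712) (.aff
 1339191 746720)) (.aff 1267216 789132)) (.aff 1082393 923879)))), (.pol), (.pol), (.pol), (.sy 25000 (.pol)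
 (.aff 1000000 0 0)), (.sx 12500 (.aff 50000 1645449 548483) (.aff 75000 1308148 654074)), (.pol), (.pol),
 (.pol)⟩, .one ⟨2008000, 251, 502000, 258228, 6244, 0, 0, 100000, 50000, 100000⟩ ⟨0, .pol, .pol, .pol, .pol,
 (.sy 75000 (.sx 50000 (.sy 62500 (.aff 475000 1661435 165896) (.sy 68750 (.sx 25000 (.aff 500000 1790582
 139620) (.aff 1000000 0 0)) (.sx 25000 (.sx 12500 (.aff 625000 1798437 78193) (.aff 1000000 0 0)) (.aff
 1000000 0 0)))) (.aff 1000000 0 0)) (.sx 50000 (.sx 25000 (.aff 775000 2070674 24449) (.aff 1000000 0 0))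
 (.aff 1000000 0 0))), .pol, (.pol), (.sx 50000 (.pol) (.pol)), .pol⟩, .one ⟨2008000, 251, 502000, 209233,
 11144, 0, 0, 100000, 100000, 150000⟩ ⟨0, .pol, .pol, .pol, .pol, (.sx 50000 (.sx 25000 (.aff 1300000 2569968
 35020) (.aff 1000000 0 0)) (.aff 1000000 0 0)), .pol, (.pol), (.pol), .pol⟩, .one ⟨2008000, 251, 502000,
 184334, 14879, 0, 0, 100000, 150000, 200000⟩ ⟨0, .pol, .pol, .pol, .pol, (.sy 175000 (.sx 50000 (.sy 162500
 (.aff 1650000 2806903 150522) (.sy 168750 (.aff 1638000 2836531 143501) (.sy 171875 (.aff 1631000 2844832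
 139960) (.sx 25000 (.sx 12500 (.aff 2000000 4301163 232496) (.aff 1000000 0 0)) (.aff 1000000 0 0))))) (.aff
 1000000 0 0)) (.sy 187500 (.sy 181250 (.sy 178125 (.sx 50000 (.sx 25000 (.sx 12500 (.aff 2000000 4339739
 230429) (.aff 1000000 0 0)) (.aff 1000000 0 0)) (.aff 1000000 0 0)) (.sx 50000 (.sx 25000 (.sx 12500 (.aff
 2000000 4377976 228417) (.aff 1500000 1695583 147442)) (.aff 1000000 0 0)) (.aff 1000000 0 0))) (.sx 50000
 (.sx 25000 (.aff 2100000 3449397 350786) (.aff 1000000 0 0)) (.aff 1000000 0 0))) (.sx 50000 (.sx 25000 (.aff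
 2000000 3214551 311086) (.aff 1000000 0 0)) (.aff 1000000 0 0)))), .pol, (.pol), (.pol), .pol⟩, .one
 ⟨2008000, 251, 502000, 171483, 17449, 0, 0, 100000, 200000, 250000⟩ ⟨0, .pol, .pol, .pol, .pol, (.sy 225000
 (.sx 50000 (.aff 2163000 3390699 398906) (.aff 1000000 0 0)) (.sy 237500 (.sy 231250 (.sy 228125 (.sx 50000
 (.sx 25000 (.aff 3000000 6952218 575356) (.aff 2100000 2961841 408530)) (.aff 1000000 0 0)) (.sx 50000 (.sx
 25000 (.aff 3000000 7000000 571429) (.aff 2200000 3253307 442627)) (.aff 1000000 0 0))) (.sy 234375 (.sx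
 50000 (.sx 25000 (.aff 3000000 7047459 567581) (.aff 2200000 3275363 439646)) (.aff 1000000 0 0)) (.sx 50000
 (.sx 25000 (.aff 3000000 7094599 563810) (.aff 2200000 3297272 436725)) (.aff 1000000 0 0)))) (.sy 243750
 (.sy 240625 (.sx 50000 (.sx 25000 (.aff 3000000 7141429 560112) (.aff 2200000 3319037 433861)) (.aff 1000000
 0 0)) (.sx 50000 (.sx 25000 (.aff 3000000 7187953 556487) (.aff 2200000 3340659 431053)) (.aff 1000000 0 0)))
 (.sy 246875 (.sx 50000 (.sx 25000 (.aff 3000000 8860023 451467) (.aff 2200000 3362143 428299)) (.aff 1000000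
 0 0)) (.sx 50000 (.sx 25000 (.aff 3000000 8916278 448618) (.aff 2702000 3889919 744696)) (.aff 1000000 0
 0)))))), .pol, (.pol), (.pol), .pol⟩, .one ⟨2008000, 251, 502000, 166262, 18754, 0, 0, 100000, 250000,
 300000⟩ ⟨0, .pol, .pol, .pol, .pol, (.sx 50000 (.aff 2700000 3986854 724883) (.aff 2708000 3637202 802063)),
 .pol, (.pol), (.pol), .pol⟩, .one ⟨2008000, 251, 502000, 168270, 18152, 0, 0, 100000, 300000, 350000⟩ ⟨0,
 .pol, .pol, .pol, .pol, (.sy 325000 (.sx 50000 (.aff 3000000 5773503 692821) (.sx 75000 (.aff 3000000 4082483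
 979796) (.aff 2900000 3726207 968814))) (.sy 337500 (.sx 50000 (.aff 3000000 5944185 672927) (.sx 75000 (.aff
 3000000 4390072 911147) (.aff 3000000 3891383 1027913))) (.sx 50000 (.aff 3000000 6055301 660579) (.aff
 3000000 3964125 1009050)))), .pol, (.pol), (.pol), .pol⟩, .one ⟨2008000, 251, 502000, 171483, 17027, 0, 0,
 100000, 350000, 400000⟩ ⟨0, .pol, .pol, .pol, .pol, (.aff 3250000 4357107 1161895), .pol, (.pol), (.pol),
 .pol⟩, .one ⟨2008000, 251, 502000, -13760423, 5589790, 0, 0, 100000, 400000, 450000⟩ ⟨0, .pol, .pol, .pol,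
 .pol, (.inf 2332381 428747), .pol, (.pol), (.inf 2332381 428747), .pol⟩, .one ⟨2008000, 251, 502000, 0,
 -602400, 0, 0, 100000, 450000, 500000⟩ ⟨0, .pol, .pol, .pol, .pol, (.inf 3082208 324443), .pol, (.pol), (.inf
 3082208 324443), .pol⟩, .one ⟨2008000, 251, 502000, 0, -602400, 0, 0, 100000, 500000, 550000⟩ ⟨0, .pol, .pol,
 .pol, .pol, (.inf 3240371 308607), .pol, (.pol), (.inf 3240371 308607), .pol⟩, .one ⟨2008000, 251, 502000, 0,
 -602400, 0, 0, 100000, 550000, 600000⟩ ⟨0, .pol, .pol, .pol, .pol, (.aff 35000000 94141738 12279357), .pol,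
 (.pol), (.inf 3391165 294884), .pol⟩, .one ⟨2008000, 251, 502000, 0, -602400, 0, 0, 100000, 600000, 650000⟩
 ⟨0, .pol, .pol, .pol, .pol, (.aff 35000000 120208153 9616653), .pol, (.pol), (.inf 3535534 282843), .pol⟩,
 .one ⟨2008000, 251, 502000, 0, -602400, 0, 0, 100000, 650000, 700000⟩ ⟨0, .pol, .pol, .pol, .pol, (.aff
 20000000 57000001 6333334), .pol, (.pol), (.inf 3674235 272166), .pol⟩, .one ⟨2008000, 251, 502000, 0,
 -602400, 0, 0, 100000, 700000, 750000⟩ ⟨0, .pol, .pol, .pol, .pol, (.aff 20000000 72349845 4989645), .pol,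
 (.pol), (.inf 3807887 262613), .pol⟩, .one ⟨2008000, 251, 502000, 0, -602400, 0, 0, 100000, 750000, 800000⟩
 ⟨0, .pol, .pol, .pol, .pol, (.aff 20000000 74803075 4826005), .pol, (.pol), (.inf 3937004 254001), .pol⟩,
 .one ⟨2008000, 251, 502000, 0, -602400, 0, 0, 100000, 800000, 850000⟩ ⟨0, .pol, .pol, .pol, .pol, (.aff
 20000000 77178365 4677477), .pol, (.pol), (.inf 4062020 246183), .pol⟩, .one ⟨2008000, 251, 502000, 0,
 -602400, 0, 0, 100000, 850000, 900000⟩ ⟨0, .pol, .pol, .pol, .pol, (.aff 12000000 37572153 3220471), .pol,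
 (.pol), (.inf 4183301 239046), .pol⟩, .one ⟨2008000, 251, 502000, 0, -602400, 0, 0, 100000, 900000, 950000⟩
 ⟨0, .pol, .pol, .pol, .pol, (.aff 12000000 47312789 2557449), .pol, (.pol), (.inf 4301163 232496), .pol⟩,
 .one ⟨2008000, 251, 502000, 0, -602400, 0, 0, 100000, 950000, 1000000⟩ ⟨0, .pol, .pol, .pol, .pol, (.aff
 12000000 48574685 2491010), .pol, (.pol), (.inf 4415881 226456), .pol⟩], []⟩, ⟨[.one ⟨2008000, 251, 803200,
 345376, 0, 0, 0, 100000, 0, 50000⟩ ⟨25000, (.aff 3162278 316228), (.pol), (.pol), (.pol), (.pol), (.aff 0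
 3654210 273657), (.pol), (.pol), (.pol)⟩, .one ⟨2008000, 251, 803200, 308428, 1847, 0, 0, 100000, 50000,
 100000⟩ ⟨0, .pol, .pol, .pol, .pol, (.sx 50000 (.sy 75000 (.sy 62500 (.aff 150000 4012923 180044) (.sx 25000
 (.sx 12500 (.aff 250000 4296666 130916) (.aff 1000000 0 0)) (.aff 0 1354007 738549))) (.sx 25000 (.aff 381000
 4327019 88551) (.aff 1000000 0 0))) (.pol)), .pol, (.pol), (.sx 50000 (.pol) (.pol)), .pol⟩, .one ⟨2008000,
 251, 803200, 163852, 16304, 0, 0, 100000, 100000, 150000⟩ ⟨0, .pol, .pol, .pol, .pol, (.sx 50000 (.sy 125000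
 (.sx 25000 (.sx 12500 (.aff 1700000 5669407 86429) (.aff 1000000 0 0)) (.aff 1000000 0 0)) (.sx 25000 (.sx
 12500 (.sy 137500 (.sy 131250 (.aff 1700000 5474556 89505) (.aff 1850000 5573823 129624)) (.aff 2000000
 5857642 170718)) (.aff 1000000 0 0)) (.aff 1000000 0 0))) (.aff 1000000 0 0)), .pol, (.pol), (.pol), .pol⟩,
 .one ⟨2008000, 251, 803200, 100400, 25822, 0, 0, 100000, 150000, 200000⟩ ⟨0, .pol, .pol, .pol, .pol, (.sx
 50000 (.sy 175000 (.sx 25000 (.sx 12500 (.sx 6250 (.aff 3000000 11775682 339684) (.aff 2650000 6574839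
 414079)) (.aff 1000000 0 0)) (.aff 1000000 0 0)) (.sx 25000 (.sy 187500 (.aff 2700000 6473408 446442) (.aff
 3150000 6911284 668834)) (.aff 1000000 0 0))) (.aff 1000000 0 0)), .pol, (.pol), (.pol), .pol⟩, .one
 ⟨2008000, 251, 803200, 45782, 36746, 0, 0, 100000, 200000, 250000⟩ ⟨0, .pol, .pol, .pol, .pol, (.sy 225000
 (.sx 50000 (.sx 25000 (.aff 3400000 7310728 787884) (.aff 3300000 6628447 798076)) (.aff 1000000 0 0)) (.sy
 237500 (.sx 50000 (.sx 25000 (.aff 5000000 14047539 1138990) (.aff 3600000 7072765 955779)) (.aff 1000000 0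
 0)) (.sx 50000 (.sx 25000 (.aff 5000000 14422206 1109401) (.sx 37500 (.aff 4100000 7903481 1215920) (.aff
 3600000 6368674 1061446))) (.aff 1000000 0 0)))), .pol, (.pol), (.pol), .pol⟩, .one ⟨2008000, 251, 803200,
 20883, 42971, 0, 0, 100000, 250000, 300000⟩ ⟨0, .pol, .pol, .pol, .pol, (.sx 50000 (.aff 4350000 7856447
 1428445) (.sx 75000 (.aff 4438000 7676719 1539700) (.aff 1000000 0 0))), .pol, (.pol), (.pol), .pol⟩, .one
 ⟨2008000, 251, 803200, -8032, 51645, 0, 0, 100000, 300000, 350000⟩ ⟨0, .pol, .pol, .pol, .pol, (.sx 50000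
 (.aff 5000000 11775682 1358733) (.sx 75000 (.aff 5000000 8326664 1921538) (.aff 5000000 8000000 2000000))),
 .pol, (.pol), (.pol), .pol⟩, .one ⟨2008000, 251, 803200, -18474, 55300, 0, 0, 100000, 350000, 400000⟩ ⟨0,
 .pol, .pol, .pol, .pol, (.sx 50000 (.aff 5000000 12649111 1264912) (.aff 5200000 8270775 2132812)), .pol,
 (.pol), (.pol), .pol⟩, .one ⟨2008000, 251, 803200, -13006218, 5250397, 0, 0, 100000, 400000, 450000⟩ ⟨0,
 .pol, .pol, .pol, .pol, (.inf 2332381 428747), .pol, (.pol), (.inf 2332381 428747), .pol⟩, .one ⟨2008000,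
 251, 803200, 0, -602400, 0, 0, 100000, 450000, 500000⟩ ⟨0, .pol, .pol, .pol, .pol, (.inf 3082208 324443),
 .pol, (.pol), (.inf 3082208 324443), .pol⟩, .one ⟨2008000, 251, 803200, 0, -602400, 0, 0, 100000, 500000,
 550000⟩ ⟨0, .pol, .pol, .pol, .pol, (.inf 3240371 308607), .pol, (.pol), (.inf 3240371 308607), .pol⟩, .one
 ⟨2008000, 251, 803200, 0, -602400, 0, 0, 100000, 550000, 600000⟩ ⟨0, .pol, .pol, .pol, .pol, (.aff 35000000
 94141738 12279357), .pol, (.pol), (.inf 3391165 294884), .pol⟩, .one ⟨2008000, 251, 803200, 0, -602400, 0, 0,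
 100000, 600000, 650000⟩ ⟨0, .pol, .pol, .pol, .pol, (.aff 35000000 120208153 9616653), .pol, (.pol), (.inf
 3535534 282843), .pol⟩, .one ⟨2008000, 251, 803200, 0, -602400, 0, 0, 100000, 650000, 700000⟩ ⟨0, .pol, .pol,
 .pol, .pol, (.aff 20000000 57000001 6333334), .pol, (.pol), (.inf 3674235 272166), .pol⟩, .one ⟨2008000, 251,
 803200, 0, -602400, 0, 0, 100000, 700000, 750000⟩ ⟨0, .pol, .pol, .pol, .pol, (.aff 20000000 72349845
 4989645), .pol, (.pol), (.inf 3807887 262613), .pol⟩, .one ⟨2008000, 251, 803200, 0, -602400, 0, 0, 100000,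
 750000, 800000⟩ ⟨0, .pol, .pol, .pol, .pol, (.aff 20000000 74803075 4826005), .pol, (.pol), (.inf 3937004
 254001), .pol⟩, .one ⟨2008000, 251, 803200, 0, -602400, 0, 0, 100000, 800000, 850000⟩ ⟨0, .pol, .pol, .pol,
 .pol, (.aff 12000000 31595095 3829709), .pol, (.pol), (.inf 4062020 246183), .pol⟩, .one ⟨2008000, 251,
 803200, 0, -602400, 0, 0, 100000, 850000, 900000⟩ ⟨0, .pol, .pol, .pol, .pol, (.aff 12000000 37572153
 3220471), .pol, (.pol), (.inf 4183301 239046), .pol⟩, .one ⟨2008000, 251, 803200, 0, -602400, 0, 0, 100000,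
 900000, 950000⟩ ⟨0, .pol, .pol, .pol, .pol, (.aff 12000000 47312789 2557449), .pol, (.pol), (.inf 4301163
 232496), .pol⟩, .one ⟨2008000, 251, 803200, 0, -602400, 0, 0, 100000, 950000, 1000000⟩ ⟨0, .pol, .pol, .pol,
 .pol, (.aff 12000000 48574685 2491010), .pol, (.pol), (.inf 4415881 226456), .pol⟩], []⟩, ⟨[.one ⟨2008000,
 251, 2008000, 319673, 0, 0, 0, 100000, 0, 50000⟩ ⟨12500, (.sp 250000 (.aff 6324556 158114) (.pol)), (.pol),
 (.pol), (.pol), (.pol), (.sx 6250 (.sx 3125 (.sy 31250 (.aff 0 9641747 103716) (.sx 1562 (.sy 40625 (.aff 0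
 14311370 69875) (.sy 45312 (.aff 0 15072883 66345) (.sy 47656 (.aff 113000 14802669 53151) (.aff 119000
 15068674 51509)))) (.aff 0 4163555 240180))) (.aff 0 2581989 387299)) (.pol)), (.pol), (.pol), (.pol)⟩, .one
 ⟨2008000, 251, 2008000, 367865, -2410, 0, 0, 100000, 50000, 100000⟩ ⟨0, .pol, .pol, .pol, .pol, (.sx 50000
 (.sx 25000 (.aff 122000 15064556 51173) (.pol)) (.pol)), .pol, (.pol), (.sx 50000 (.pol) (.pol)), .pol⟩, .one
 ⟨2008000, 251, 2008000, 19276, 32449, 0, 0, 100000, 100000, 150000⟩ ⟨0, .pol, .pol, .pol, .pol, (.sx 50000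
 (.sx 25000 (.sx 12500 (.sy 125000 (.aff 2900000 17006802 212269) (.aff 3125000 17216473 262286)) (.aff
 1000000 0 0)) (.pol)) (.pol)), .pol, (.pol), (.pol), .pol⟩, .one ⟨2008000, 251, 2008000, -257024, 73894, 0,
 0, 100000, 150000, 200000⟩ ⟨0, .pol, .pol, .pol, .pol, (.sx 50000 (.sy 175000 (.sy 162500 (.aff 5300000
 18568737 995760) (.sx 25000 (.sx 12500 (.sx 6250 (.aff 8000000 51439285 952580) (.sx 9375 (.aff 7600000
 28001429 1555635) (.aff 5763000 19414928 1168492))) (.aff 1000000 0 0)) (.aff 1000000 0 0))) (.sy 187500 (.sx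
 25000 (.sx 12500 (.aff 6900000 22466531 1549416) (.aff 6525000 19957900 1529501)) (.aff 1000000 0 0)) (.sx
 25000 (.sx 12500 (.aff 8000000 31822424 1539795) (.aff 7500000 20894577 2022056)) (.aff 1000000 0 0)))) (.aff
 0 1527526 654654)), .pol, (.pol), (.pol), .pol⟩, .one ⟨2008000, 251, 2008000, -437343, 109958, 0, 0, 100000,
 200000, 250000⟩ ⟨0, .pol, .pol, .pol, .pol, (.sx 50000 (.sx 25000 (.aff 9000000 24000000 2666667) (.sx 37500
 (.sy 225000 (.aff 8701000 21703896 2732478) (.sx 31250 (.sy 237500 (.aff 8750000 21751709 2761278) (.aff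
 12000000 32383124 3736515)) (.aff 8900000 21253930 2936399))) (.aff 9475000 20967614 3425551))) (.aff 1000000
 0 0)), .pol, (.pol), (.pol), .pol⟩, .one ⟨2008000, 251, 2008000, -586738, 147306, 0, 0, 100000, 250000,
 300000⟩ ⟨0, .pol, .pol, .pol, .pol, (.sx 50000 (.sx 25000 (.aff 12000000 42126793 2872282) (.sx 37500 (.aff
 12000000 31112699 3889088) (.sy 275000 (.sx 43750 (.aff 12000000 26944388 4490732) (.aff 11388000 24101290
 4477377)) (.aff 12000000 27242125 4441651)))) (.sx 75000 (.sy 275000 (.aff 11400000 23618454 4579470) (.sx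
 62500 (.sy 287500 (.aff 11700000 23925928 4785186) (.aff 12000000 24466949 4945448)) (.aff 12000000 23023798
 5255432))) (.aff 1000000 0 0))), .pol, (.pol), (.sx 50000 (.sx 25000 (.inf 4690416 213201) (.pol)) (.pol)),
 .pol⟩, .one ⟨2008000, 251, 2008000, -696776, 180318, 0, 0, 100000, 300000, 350000⟩ ⟨0, .pol, .pol, .pol,
 .pol, (.sx 50000 (.aff 12000000 28044608 4314555) (.sx 75000 (.sy 325000 (.sy 312500 (.aff 12500000 24271664
 5448741) (.aff 12625000 24413180 5535561)) (.aff 20000000 42097290 8575374)) (.sx 87500 (.sy 325000 (.aff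
 13225000 25068955 5961582) (.sx 81250 (.aff 13164000 24908518 5940253) (.aff 13281000 24638164 6121518)))
 (.sy 325000 (.aff 1000000 0 0) (.aff 13200000 23543592 6321891))))), .pol, (.pol), (.sx 50000 (.inf 3605552
 277351) (.pol)), .pol⟩, .one ⟨2008000, 251, 2008000, -828501, 226422, 0, 0, 100000, 350000, 400000⟩ ⟨0, .pol,
 .pol, .pol, .pol, (.sx 50000 (.aff 12000000 34785055 3478506) (.sx 75000 (.aff 20000000 46540306 7756718)
 (.sy 375000 (.sx 87500 (.aff 20000000 40132473 8995210) (.sy 362500 (.sx 93750 (.aff 20000000 37670990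
 9582971) (.sx 96875 (.sy 356250 (.aff 13400000 23966147 6415717) (.aff 20000000 36893734 9784860)) (.aff
 14300000 25402652 6963447))) (.aff 20000000 37682003 9580171))) (.aff 20000000 39983926 9028629)))), .pol,
 (.pol), (.sx 50000 (.inf 3872984 258199) (.sx 75000 (.inf 2449490 408249) (.pol))), .pol⟩, .one ⟨2008000,
 251, 2008000, -9948436, 3874395, 0, 0, 100000, 400000, 450000⟩ ⟨0, .pol, .pol, .pol, .pol, (.inf 2332381
 428747), .pol, (.pol), (.inf 2332381 428747), .pol⟩, .one ⟨2008000, 251, 2008000, 0, -602400, 0, 0, 100000,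
 450000, 500000⟩ ⟨0, .pol, .pol, .pol, .pol, (.inf 3082208 324443), .pol, (.pol), (.inf 3082208 324443),
 .pol⟩, .one ⟨2008000, 251, 2008000, 0, -602400, 0, 0, 100000, 500000, 550000⟩ ⟨0, .pol, .pol, .pol, .pol,
 (.aff 35000000 77903787 14838817), .pol, (.pol), (.inf 3240371 308607), .pol⟩, .one ⟨2008000, 251, 2008000,
 0, -602400, 0, 0, 100000, 550000, 600000⟩ ⟨0, .pol, .pol, .pol, .pol, (.aff 35000000 115299610 10026053),
 .pol, (.pol), (.inf 3391165 294884), .pol⟩, .one ⟨2008000, 251, 2008000, 0, -602400, 0, 0, 100000, 600000,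
 650000⟩ ⟨0, .pol, .pol, .pol, .pol, (.aff 20000000 54848276 6581794), .pol, (.pol), (.inf 3535534 282843),
 .pol⟩, .one ⟨2008000, 251, 2008000, 0, -602400, 0, 0, 100000, 650000, 700000⟩ ⟨0, .pol, .pol, .pol, .pol,
 (.aff 20000000 69810458 5171145), .pol, (.pol), (.inf 3674235 272166), .pol⟩, .one ⟨2008000, 251, 2008000, 0,
 -602400, 0, 0, 100000, 700000, 750000⟩ ⟨0, .pol, .pol, .pol, .pol, (.aff 20000000 72349845 4989645), .pol,
 (.pol), (.inf 3807887 262613), .pol⟩, .one ⟨2008000, 251, 2008000, 0, -602400, 0, 0, 100000, 750000, 800000⟩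
 ⟨0, .pol, .pol, .pol, .pol, (.aff 12000000 30622704 3951317), .pol, (.pol), (.inf 3937004 254001), .pol⟩,
 .one ⟨2008000, 251, 2008000, 0, -602400, 0, 0, 100000, 800000, 850000⟩ ⟨0, .pol, .pol, .pol, .pol, (.aff
 12000000 36482873 3316625), .pol, (.pol), (.inf 4062020 246183), .pol⟩, .one ⟨2008000, 251, 2008000, 0,
 -602400, 0, 0, 100000, 850000, 900000⟩ ⟨0, .pol, .pol, .pol, .pol, (.aff 12000000 46016302 2629503), .pol,
 (.pol), (.inf 4183301 239046), .pol⟩, .one ⟨2008000, 251, 2008000, 0, -602400, 0, 0, 100000, 900000, 950000⟩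
 ⟨0, .pol, .pol, .pol, .pol, (.aff 12000000 47312789 2557449), .pol, (.pol), (.inf 4301163 232496), .pol⟩,
 .one ⟨2008000, 251, 2008000, 0, -602400, 0, 0, 100000, 950000, 1000000⟩ ⟨0, .pol, .pol, .pol, .pol, (.aff
 12000000 48574685 2491010), .pol, (.pol), (.inf 4415881 226456), .pol⟩], []⟩, ⟨[.one ⟨2008000, 251, 331320,
 2223257, 0, 0, 0, 100000, 0, 50000⟩ ⟨50000, (.pol), (.sp 500000 (.sp 250000 (.aff 158114 6324551) (.pol))
 (.pol)), (.pol), (.pol), (.sy 25000 (.sy 12500 (.sx 75000 (.aff 0 106198 9416374) (.sx 87500 (.sx 81250 (.aff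
 50000 96930 9310843) (.sy 6250 (.sy 3125 (.sy 1562 (.sy 781 (.aff 116000 79919 9778101) (.aff 125000 82893
 9236305)) (.aff 1000000 0 0)) (.aff 0 235703 4242628)) (.aff 0 333334 2999995))) (.sy 6250 (.sy 3125 (.aff
 200000 67033 9547537) (.aff 0 223607 4472132)) (.aff 0 316228 3162276)))) (.pol)) (.pol)), (.pol), (.pol),
 (.pol), (.pol)⟩, .one ⟨2008000, 251, 331320, -1886717, 205498, 0, 0, 100000, 50000, 100000⟩ ⟨0, .pol, .pol,
 .pol, .pol, (.aff 1000000 0 0), .pol, (.pol), (.sx 50000 (.pol) (.pol)), .pol⟩, .one ⟨2008000, 251, 331320,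
 -77509, 24577, 0, 0, 100000, 100000, 150000⟩ ⟨0, .pol, .pol, .pol, .pol, (.sx 50000 (.sy 125000 (.sx 25000
 (.sx 12500 (.sx 6250 (.aff 1150000 1342643 16758) (.aff 1000000 0 0)) (.aff 1000000 0 0)) (.aff 1000000 0 0))
 (.sx 25000 (.aff 1200000 1471208 27189) (.aff 1000000 0 0))) (.aff 1000000 0 0)), .pol, (.pol), (.pol),
 .pol⟩, .one ⟨2008000, 251, 331320, -123693, 31505, 0, 0, 100000, 150000, 200000⟩ ⟨0, .pol, .pol, .pol, .pol,
 (.sx 50000 (.sy 175000 (.sx 25000 (.sx 12500 (.aff 1450000 1873500 108087) (.aff 1000000 0 0)) (.aff 1000000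
 0 0)) (.sy 187500 (.sx 25000 (.aff 1482000 1835402 126580) (.aff 1000000 0 0)) (.sx 25000 (.sx 12500 (.aff
 1500000 1968502 127001) (.aff 1500000 1760682 141991)) (.aff 1000000 0 0)))) (.aff 1000000 0 0)), .pol,
 (.pol), (.pol), .pol⟩, .one ⟨2008000, 251, 331320, -157829, 38332, 0, 0, 100000, 200000, 250000⟩ ⟨0, .pol,
 .pol, .pol, .pol, (.sx 50000 (.sx 25000 (.aff 1750000 2250000 250000) (.aff 1775000 2041965 294141)) (.aff
 1000000 0 0)), .pol, (.pol), (.pol), .pol⟩, .one ⟨2008000, 251, 331320, -188351, 45963, 0, 0, 100000, 250000,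
 300000⟩ ⟨0, .pol, .pol, .pol, .pol, (.sy 275000 (.sy 262500 (.sx 50000 (.sx 25000 (.aff 2000000 3696846
 270501) (.aff 2000000 2420154 413197)) (.aff 1000000 0 0)) (.sx 50000 (.aff 1950000 2359447 382505) (.aff
 2064000 2305029 491142))) (.sy 287500 (.sx 50000 (.aff 3000000 4743417 843274) (.sx 75000 (.aff 2000000
 2236068 447214) (.aff 1000000 0 0))) (.sx 50000 (.aff 2000000 2423840 412569) (.aff 2050000 2276346
 484329)))), .pol, (.pol), (.pol), .pol⟩, .one ⟨2008000, 251, 331320, -213250, 53432, 0, 0, 100000, 300000,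
 350000⟩ ⟨0, .pol, .pol, .pol, .pol, (.sy 325000 (.sy 312500 (.sy 306250 (.sx 50000 (.aff 2000000 2462215
 406139) (.aff 2053000 2318992 478143)) (.sx 50000 (.aff 2000000 2487469 402016) (.sx 75000 (.sx 62500 (.aff
 3000000 4690416 852803) (.aff 2100000 2388365 506623)) (.aff 1000000 0 0)))) (.sy 318750 (.sx 50000 (.aff
 3000000 5802299 689382) (.sx 75000 (.aff 2400000 2871992 682454) (.aff 1000000 0 0))) (.sx 50000 (.aff
 3000000 5859466 682657) (.sx 75000 (.aff 3000000 4327502 924321) (.aff 2100000 2189398 552664))))) (.sx 50000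
 (.aff 3000000 7348470 544331) (.sx 75000 (.aff 3000000 4647581 860663) (.aff 2200000 2445719 588784)))),
 .pol, (.pol), (.pol), .pol⟩, .one ⟨2008000, 251, 331320, -244575, 64396, 0, 0, 100000, 350000, 400000⟩ ⟨0,
 .pol, .pol, .pol, .pol, (.aff 2500000 2904738 774597), .pol, (.pol), (.pol), .pol⟩, .one ⟨2008000, 251,
 331320, -11379336, 4518301, 0, 0, 100000, 400000, 450000⟩ ⟨0, .pol, .pol, .pol, .pol, (.aff 35000000 80936189
 14282857), .pol, (.inf 3000000 333334), (.inf 2332381 428747), .pol⟩, .one ⟨2008000, 251, 331320, 0, -602400,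
 0, 0, 100000, 450000, 500000⟩ ⟨0, .pol, .pol, .pol, .pol, (.aff 20000000 47815619 7549835), .pol, (.inf
 3082208 324443), (.inf 3082208 324443), .pol⟩, .one ⟨2008000, 251, 331320, 0, -602400, 0, 0, 100000, 500000,
 550000⟩ ⟨0, .pol, .pol, .pol, .pol, (.aff 8000000 18520260 2645752), .pol, (.aff 35000000 89955545 12850793),
 (.inf 3240371 308607), .pol⟩, .one ⟨2008000, 251, 331320, 0, -602400, 0, 0, 100000, 550000, 600000⟩ ⟨0, .pol,
 .pol, .pol, .pol, (.aff 5000000 11075499 1444631), .pol, (.aff 35000000 115299610 10026053), (.inf 3391165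
 294884), .pol⟩, .one ⟨2008000, 251, 331320, 0, -602400, 0, 0, 100000, 600000, 650000⟩ ⟨0, .pol, .pol, .pol,
 .pol, (.aff 3000000 5773503 692821), .pol, (.aff 20000000 54848276 6581794), (.inf 3535534 282843), .pol⟩,
 .one ⟨2008000, 251, 331320, 0, -602400, 0, 0, 100000, 650000, 700000⟩ ⟨0, .pol, .pol, .pol, .pol, (.aff
 2000000 3000001 333334), .pol, (.aff 20000000 69810458 5171145), (.inf 3674235 272166), .pol⟩, .one ⟨2008000,
 251, 331320, 0, -602400, 0, 0, 100000, 700000, 750000⟩ ⟨0, .pol, .pol, .pol, .pol, (.aff 2000000 3807887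
 262613), .pol, (.aff 20000000 72349845 4989645), (.inf 3807887 262613), .pol⟩, .one ⟨2008000, 251, 331320, 0,
 -602400, 0, 0, 100000, 750000, 800000⟩ ⟨0, .pol, .pol, .pol, .pol, (.aff 1500000 1968502 127001), .pol, (.aff
 12000000 35360053 3421941), (.inf 3937004 254001), .pol⟩, .one ⟨2008000, 251, 331320, 0, -602400, 0, 0,
 100000, 800000, 850000⟩ ⟨0, .pol, .pol, .pol, .pol, (.aff 1500000 2031010 123092), .pol, (.aff 12000000
 44682212 2708013), (.inf 4062020 246183), .pol⟩, .one ⟨2008000, 251, 331320, 0, -602400, 0, 0, 100000,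
 850000, 900000⟩ ⟨0, .pol, .pol, .pol, .pol, (.aff 1000000 0 0), .pol, (.aff 12000000 46016302 2629503), (.inf
 4183301 239046), .pol⟩, .one ⟨2008000, 251, 331320, 0, -602400, 0, 0, 100000, 900000, 950000⟩ ⟨0, .pol, .pol,
 .pol, .pol, (.aff 1000000 0 0), .pol, (.aff 12000000 47312789 2557449), (.inf 4301163 232496), .pol⟩, .one
 ⟨2008000, 251, 331320, 0, -602400, 0, 0, 100000, 950000, 1000000⟩ ⟨0, .pol, .pol, .pol, .pol, (.aff 1000000 0
 0), .pol, (.aff 8000000 25238859 1941451), (.inf 4415881 226456), .pol⟩], []⟩, ⟨[.one ⟨2008000, 251, 502000,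
 364652, 0, 0, 0, 100000, 0, 50000⟩ ⟨12500, (.aff 1154701 866026), (.aff 866026 1154700), (.pol), (.pol), (.sx
 56250 (.sx 34375 (.sy 25000 (.sy 12500 (.aff 0 879831 1136582) (.sx 23437 (.sy 18750 (.sy 15625 (.aff 0
 1035602 965622) (.aff 10000 1051553 932051)) (.aff 22000 1052446 908821)) (.aff 25000 912054 1042291))) (.aff
 50000 1034284 872585)) (.aff 125000 693104 1104633)) (.aff 1000000 0 0)), (.sy 31250 (.aff 6000 1146014
 862151) (.aff 0 2081666 480385)), (.pol), (.pol), (.pol)⟩, .one ⟨2008000, 251, 502000, -22892, 19377, 0, 0,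
 100000, 50000, 100000⟩ ⟨0, .pol, .pol, .pol, .pol, (.aff 900000 332921 30038), .pol, (.pol), (.sx 50000
 (.pol) (.pol)), .pol⟩, .one ⟨2008000, 251, 502000, -97188, 26806, 0, 0, 100000, 100000, 150000⟩ ⟨0, .pol,
 .pol, .pol, .pol, (.sx 50000 (.aff 1263000 2260738 30596) (.aff 1000000 0 0)), .pol, (.pol), (.pol), .pol⟩,
 .one ⟨2008000, 251, 502000, -173090, 38192, 0, 0, 100000, 150000, 200000⟩ ⟨0, .pol, .pol, .pol, .pol, (.sy
 175000 (.sx 50000 (.sy 162500 (.aff 1600000 2590987 138944) (.sy 168750 (.aff 1584000 2596449 131355) (.aff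
 1744000 2758826 200642))) (.aff 1000000 0 0)) (.sy 187500 (.sx 50000 (.sy 181250 (.aff 1728000 2748140
 192852) (.sy 184375 (.sx 25000 (.sx 12500 (.aff 2000000 4415881 226456) (.aff 1650000 2457174 171946)) (.aff
 1000000 0 0)) (.sx 25000 (.aff 1963000 3032559 305805) (.aff 1000000 0 0)))) (.aff 1000000 0 0)) (.sx 50000
 (.sx 25000 (.aff 1950000 3053823 295532) (.aff 1000000 0 0)) (.aff 1000000 0 0)))), .pol, (.pol), (.pol),
 .pol⟩, .one ⟨2008000, 251, 502000, -226904, 48955, 0, 0, 100000, 200000, 250000⟩ ⟨0, .pol, .pol, .pol, .pol,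
 (.sy 225000 (.sy 212500 (.sx 50000 (.aff 2088000 3125043 378793) (.aff 1000000 0 0)) (.sy 218750 (.sx 50000
 (.aff 2047000 3074867 356507) (.aff 1000000 0 0)) (.sx 50000 (.sx 25000 (.aff 3000000 6879923 581402) (.aff
 2100000 2931041 412823)) (.aff 1000000 0 0)))) (.sy 237500 (.sy 231250 (.sx 50000 (.sx 25000 (.aff 3000000
 6976150 573383) (.aff 2100000 2972037 407129)) (.aff 1000000 0 0)) (.sx 50000 (.sx 25000 (.aff 3000000
 7071068 565686) (.aff 2100000 3012475 401664)) (.aff 1000000 0 0))) (.sy 243750 (.sx 50000 (.sx 25000 (.aff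
 3000000 7164729 558291) (.aff 2100000 3052377 396413)) (.aff 1000000 0 0)) (.sx 50000 (.sx 25000 (.aff
 3000000 8888195 450036) (.aff 2100000 3091764 391363)) (.aff 1000000 0 0))))), .pol, (.pol), (.pol), .pol⟩,
 .one ⟨2008000, 251, 502000, -275498, 61103, 0, 0, 100000, 250000, 300000⟩ ⟨0, .pol, .pol, .pol, .pol, (.sy
 275000 (.sx 50000 (.aff 2600000 3666061 698298) (.aff 2250000 2831158 551895)) (.sy 287500 (.sx 50000 (.aff
 3000000 4743417 843274) (.sx 75000 (.aff 2500000 3354102 670821) (.aff 1000000 0 0))) (.sx 50000 (.aff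
 3000000 5597619 714590) (.sx 75000 (.sx 62500 (.aff 2800000 3902308 830278) (.aff 2200000 2538842 567188))
 (.aff 1000000 0 0))))), .pol, (.pol), (.pol), .pol⟩, .one ⟨2008000, 251, 502000, -311240, 71826, 0, 0,
 100000, 300000, 350000⟩ ⟨0, .pol, .pol, .pol, .pol, (.sy 325000 (.sy 312500 (.sx 50000 (.aff 3000000 5715477
 699855) (.sx 75000 (.aff 2900000 3839380 940256) (.aff 1000000 0 0))) (.sy 318750 (.sx 50000 (.aff 3000000
 5802299 689382) (.aff 2819000 3731538 886702)) (.sx 50000 (.aff 3000000 5859466 682657) (.sx 75000 (.aff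
 3000000 4327502 924321) (.aff 2950000 3834702 991603))))) (.sy 337500 (.sy 331250 (.sx 50000 (.aff 3000000
 5916080 676124) (.sx 75000 (.aff 3000000 4369315 915476) (.aff 3000000 3872984 1032796))) (.sy 334375 (.sx
 50000 (.aff 3000000 5958188 671346) (.sx 75000 (.aff 3000000 4400414 909006) (.aff 3000000 3900550 1025497)))
 (.sx 50000 (.aff 3000000 5986095 668216) (.aff 3000000 3918820 1020716)))) (.sx 50000 (.aff 3000000 6055301
 660579) (.aff 2950000 3865022 983824)))), .pol, (.pol), (.pol), .pol⟩, .one ⟨2008000, 251, 502000, -358629,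
 88412, 0, 0, 100000, 350000, 400000⟩ ⟨0, .pol, .pol, .pol, .pol, (.aff 3300000 4453931 1187715), .pol,
 (.pol), (.pol), .pol⟩, .one ⟨2008000, 251, 502000, -10947215, 4323846, 0, 0, 100000, 400000, 450000⟩ ⟨0,
 .pol, .pol, .pol, .pol, (.aff 35000000 80936189 14282857), .pol, (.inf 3000000 333334), (.inf 2332381
 428747), .pol⟩, .one ⟨2008000, 251, 502000, 0, -602400, 0, 0, 100000, 450000, 500000⟩ ⟨0, .pol, .pol, .pol,
 .pol, (.aff 20000000 47815619 7549835), .pol, (.inf 3082208 324443), (.inf 3082208 324443), .pol⟩, .one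
 ⟨2008000, 251, 502000, 0, -602400, 0, 0, 100000, 500000, 550000⟩ ⟨0, .pol, .pol, .pol, .pol, (.aff 8000000
 18520260 2645752), .pol, (.aff 35000000 89955545 12850793), (.inf 3240371 308607), .pol⟩, .one ⟨2008000, 251,
 502000, 0, -602400, 0, 0, 100000, 550000, 600000⟩ ⟨0, .pol, .pol, .pol, .pol, (.aff 5000000 11075499
 1444631), .pol, (.aff 35000000 115299610 10026053), (.inf 3391165 294884), .pol⟩, .one ⟨2008000, 251, 502000,
 0, -602400, 0, 0, 100000, 600000, 650000⟩ ⟨0, .pol, .pol, .pol, .pol, (.aff 3000000 5773503 692821), .pol,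
 (.aff 20000000 54848276 6581794), (.inf 3535534 282843), .pol⟩, .one ⟨2008000, 251, 502000, 0, -602400, 0, 0,
 100000, 650000, 700000⟩ ⟨0, .pol, .pol, .pol, .pol, (.aff 2000000 3000001 333334), .pol, (.aff 20000000
 69810458 5171145), (.inf 3674235 272166), .pol⟩, .one ⟨2008000, 251, 502000, 0, -602400, 0, 0, 100000,
 700000, 750000⟩ ⟨0, .pol, .pol, .pol, .pol, (.aff 2000000 3807887 262613), .pol, (.aff 12000000 29618407
 4085298), (.inf 3807887 262613), .pol⟩, .one ⟨2008000, 251, 502000, 0, -602400, 0, 0, 100000, 750000, 800000⟩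
 ⟨0, .pol, .pol, .pol, .pol, (.aff 1500000 1968502 127001), .pol, (.aff 12000000 35360053 3421941), (.inf
 3937004 254001), .pol⟩, .one ⟨2008000, 251, 502000, 0, -602400, 0, 0, 100000, 800000, 850000⟩ ⟨0, .pol, .pol,
 .pol, .pol, (.aff 1500000 2031010 123092), .pol, (.aff 12000000 44682212 2708013), (.inf 4062020 246183),
 .pol⟩, .one ⟨2008000, 251, 502000, 0, -602400, 0, 0, 100000, 850000, 900000⟩ ⟨0, .pol, .pol, .pol, .pol,
 (.aff 1000000 0 0), .pol, (.aff 12000000 46016302 2629503), (.inf 4183301 239046), .pol⟩, .one ⟨2008000, 251,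
 502000, 0, -602400, 0, 0, 100000, 900000, 950000⟩ ⟨0, .pol, .pol, .pol, .pol, (.aff 1000000 0 0), .pol, (.aff
 12000000 47312789 2557449), (.inf 4301163 232496), .pol⟩, .one ⟨2008000, 251, 502000, 0, -602400, 0, 0,
 100000, 950000, 1000000⟩ ⟨0, .pol, .pol, .pol, .pol, (.aff 1000000 0 0), .pol, (.aff 8000000 25238859
 1941451), (.inf 4415881 226456), .pol⟩], []⟩, ⟨[.one ⟨2008000, 251, 803200, 284332, 0, 0, 0, 100000, 0,
 50000⟩ ⟨25000, (.aff 2000000 500000), (.pol), (.pol), (.pol), (.pol), (.aff 0 2449490 408249), (.pol),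
 (.pol), (.pol)⟩, .one ⟨2008000, 251, 803200, 75500, 10441, 0, 0, 100000, 50000, 100000⟩ ⟨0, .pol, .pol, .pol,
 .pol, (.sy 75000 (.sy 62500 (.aff 325000 2253361 202198) (.sx 50000 (.sy 68750 (.sy 65625 (.aff 175000
 2521096 269972) (.sx 25000 (.sx 12500 (.aff 425000 2666166 124008) (.aff 1000000 0 0)) (.aff 1000000 0 0)))
 (.sx 25000 (.sy 71875 (.sx 12500 (.aff 413000 2784386 123751) (.aff 1000000 0 0)) (.sx 12500 (.aff 478000
 2867420 95028) (.aff 1000000 0 0))) (.aff 1000000 0 0))) (.aff 0 957428 1044465))) (.sx 50000 (.sx 25000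
 (.aff 569000 2938448 63218) (.aff 1000000 0 0)) (.aff 1000000 0 0))), .pol, (.pol), (.sx 50000 (.pol)
 (.pol)), .pol⟩, .one ⟨2008000, 251, 803200, -149797, 32971, 0, 0, 100000, 100000, 150000⟩ ⟨0, .pol, .pol,
 .pol, .pol, (.sx 50000 (.aff 1513000 3701778 71093) (.aff 1000000 0 0)), .pol, (.pol), (.pol), .pol⟩, .one
 ⟨2008000, 251, 803200, -252205, 48332, 0, 0, 100000, 150000, 200000⟩ ⟨0, .pol, .pol, .pol, .pol, (.sx 50000
 (.sy 175000 (.sx 25000 (.sx 12500 (.aff 2100000 4579666 264212) (.aff 1000000 0 0)) (.aff 1000000 0 0)) (.sx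
 25000 (.aff 2150000 4453931 296929) (.aff 1000000 0 0))) (.aff 1000000 0 0)), .pol, (.pol), (.pol), .pol⟩,
 .one ⟨2008000, 251, 803200, -357826, 69456, 0, 0, 100000, 200000, 250000⟩ ⟨0, .pol, .pol, .pol, .pol, (.sx
 50000 (.sx 25000 (.aff 2900000 5700000 633334) (.sy 225000 (.aff 2925000 5146863 719978) (.sx 37500 (.aff
 2950000 5125605 741864) (.aff 3000000 4835765 827171)))) (.aff 1000000 0 0)), .pol, (.pol), (.pol), .pol⟩,
 .one ⟨2008000, 251, 803200, -416058, 84014, 0, 0, 100000, 250000, 300000⟩ ⟨0, .pol, .pol, .pol, .pol, (.sx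
 50000 (.aff 3371000 5666247 992128) (.sy 275000 (.aff 3427000 5496977 1071558) (.sx 75000 (.aff 3400000
 5425864 1061583) (.aff 1000000 0 0)))), .pol, (.pol), (.pol), .pol⟩, .one ⟨2008000, 251, 803200, -492764,
 107026, 0, 0, 100000, 300000, 350000⟩ ⟨0, .pol, .pol, .pol, .pol, (.sx 50000 (.aff 5000000 11775682 1358733)
 (.sy 325000 (.sx 75000 (.aff 4100000 6327849 1518684) (.aff 4050000 6056781 1535882)) (.sx 75000 (.aff
 5000000 8862588 1805342) (.sx 87500 (.aff 4100000 6088280 1578443) (.aff 4000000 5789408 1554564))))), .pol,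
 (.pol), (.pol), .pol⟩, .one ⟨2008000, 251, 803200, -540152, 123612, 0, 0, 100000, 350000, 400000⟩ ⟨0, .pol,
 .pol, .pol, .pol, (.aff 4400000 6584072 1755753), .pol, (.pol), (.pol), .pol⟩, .one ⟨2008000, 251, 803200,
 -10199034, 3987165, 0, 0, 100000, 400000, 450000⟩ ⟨0, .pol, .pol, .pol, .pol, (.aff 35000000 80936189
 14282857), .pol, (.inf 3000000 333334), (.inf 2332381 428747), .pol⟩, .one ⟨2008000, 251, 803200, 0, -602400,
 0, 0, 100000, 450000, 500000⟩ ⟨0, .pol, .pol, .pol, .pol, (.aff 20000000 47815619 7549835), .pol, (.inf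
 3082208 324443), (.inf 3082208 324443), .pol⟩, .one ⟨2008000, 251, 803200, 0, -602400, 0, 0, 100000, 500000,
 550000⟩ ⟨0, .pol, .pol, .pol, .pol, (.aff 8000000 18520260 2645752), .pol, (.aff 35000000 89955545 12850793),
 (.inf 3240371 308607), .pol⟩, .one ⟨2008000, 251, 803200, 0, -602400, 0, 0, 100000, 550000, 600000⟩ ⟨0, .pol,
 .pol, .pol, .pol, (.aff 5000000 11075499 1444631), .pol, (.aff 20000000 45560400 7923548), (.inf 3391165
 294884), .pol⟩, .one ⟨2008000, 251, 803200, 0, -602400, 0, 0, 100000, 600000, 650000⟩ ⟨0, .pol, .pol, .pol,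
 .pol, (.aff 3000000 5773503 692821), .pol, (.aff 20000000 54848276 6581794), (.inf 3535534 282843), .pol⟩,
 .one ⟨2008000, 251, 803200, 0, -602400, 0, 0, 100000, 650000, 700000⟩ ⟨0, .pol, .pol, .pol, .pol, (.aff
 2000000 3000001 333334), .pol, (.aff 20000000 69810458 5171145), (.inf 3674235 272166), .pol⟩, .one ⟨2008000,
 251, 803200, 0, -602400, 0, 0, 100000, 700000, 750000⟩ ⟨0, .pol, .pol, .pol, .pol, (.aff 2000000 3807887
 262613), .pol, (.aff 12000000 34200390 3537972), (.inf 3807887 262613), .pol⟩, .one ⟨2008000, 251, 803200, 0,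
 -602400, 0, 0, 100000, 750000, 800000⟩ ⟨0, .pol, .pol, .pol, .pol, (.aff 1500000 1968502 127001), .pol, (.aff
 12000000 43307044 2794003), (.inf 3937004 254001), .pol⟩, .one ⟨2008000, 251, 803200, 0, -602400, 0, 0,
 100000, 800000, 850000⟩ ⟨0, .pol, .pol, .pol, .pol, (.aff 1500000 2031010 123092), .pol, (.aff 12000000
 44682212 2708013), (.inf 4062020 246183), .pol⟩, .one ⟨2008000, 251, 803200, 0, -602400, 0, 0, 100000,
 850000, 900000⟩ ⟨0, .pol, .pol, .pol, .pol, (.aff 1000000 0 0), .pol, (.aff 12000000 46016302 2629503), (.inf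
 4183301 239046), .pol⟩, .one ⟨2008000, 251, 803200, 0, -602400, 0, 0, 100000, 900000, 950000⟩ ⟨0, .pol, .pol,
 .pol, .pol, (.aff 1000000 0 0), .pol, (.aff 8000000 24583193 1993232), (.inf 4301163 232496), .pol⟩, .one
 ⟨2008000, 251, 803200, 0, -602400, 0, 0, 100000, 950000, 1000000⟩ ⟨0, .pol, .pol, .pol, .pol, (.aff 1000000 0
 0), .pol, (.aff 8000000 30911164 1585188), (.inf 4415881 226456), .pol⟩], []⟩, ⟨[.one ⟨2008000, 251, 2008000,
 201603, 0, 0, 0, 100000, 0, 50000⟩ ⟨12500, (.sp 250000 (.aff 6324556 158114) (.pol)), (.pol), (.pol), (.pol),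
 (.pol), (.sx 6250 (.sx 3125 (.sx 1562 (.sy 31250 (.aff 0 7484513 133610) (.sy 40625 (.aff 38000 7970442
 116110) (.aff 100000 7964714 101699))) (.aff 0 4886081 204664)) (.aff 0 2581989 387299)) (.aff 0 1825742
 547723)), (.pol), (.pol), (.pol)⟩, .one ⟨2008000, 251, 2008000, 187547, 702, 0, 0, 100000, 50000, 100000⟩ ⟨0,
 .pol, .pol, .pol, .pol, (.sx 50000 (.sx 25000 (.sy 75000 (.aff 138000 7789624 95389) (.aff 250000 6245409
 90067)) (.pol)) (.pol)), .pol, (.pol), (.sx 50000 (.pol) (.pol)), .pol⟩, .one ⟨2008000, 251, 2008000,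
 -287948, 48252, 0, 0, 100000, 100000, 150000⟩ ⟨0, .pol, .pol, .pol, .pol, (.sx 50000 (.sx 25000 (.sy 125000
 (.sx 12500 (.aff 2125000 9578706 132130) (.aff 1000000 0 0)) (.sx 12500 (.aff 2200000 9722244 148114) (.aff
 1000000 0 0))) (.aff 1000000 0 0)) (.pol)), .pol, (.pol), (.pol), .pol⟩, .one ⟨2008000, 251, 2008000,
 -611637, 96805, 0, 0, 100000, 150000, 200000⟩ ⟨0, .pol, .pol, .pol, .pol, (.sx 50000 (.sy 175000 (.sy 162500
 (.aff 3500000 10795778 578931) (.sy 168750 (.sy 165625 (.aff 3400000 10619885 542379) (.sx 25000 (.sx 12500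
 (.sx 6250 (.aff 5000000 29257478 546869) (.sx 9375 (.aff 5000000 18504054 864676) (.aff 3300000 9331749
 566882))) (.aff 1000000 0 0)) (.aff 1000000 0 0))) (.sy 171875 (.sx 25000 (.sx 12500 (.aff 4150000 11627299
 853380) (.aff 1000000 0 0)) (.aff 1000000 0 0)) (.sx 25000 (.sx 12500 (.aff 4200000 11919732 859080) (.aff
 1000000 0 0)) (.aff 1000000 0 0))))) (.sx 25000 (.sx 12500 (.aff 4300000 12780846 852057) (.aff 4100000
 11389532 843758)) (.aff 1000000 0 0))) (.aff 1000000 0 0)), .pol, (.pol), (.pol), .pol⟩, .one ⟨2008000, 251,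
 2008000, -836533, 141784, 0, 0, 100000, 200000, 250000⟩ ⟨0, .pol, .pol, .pol, .pol, (.sy 225000 (.sy 212500
 (.sy 206250 (.aff 5300000 12256886 1508540) (.sx 50000 (.sx 25000 (.sx 12500 (.aff 5000000 18903263 846415)
 (.aff 5000000 12375091 1292920)) (.aff 1000000 0 0)) (.aff 1000000 0 0))) (.sy 218750 (.sx 50000 (.sx 25000
 (.aff 7800000 19970479 2315418) (.aff 5678000 12757654 1715338)) (.aff 1000000 0 0)) (.sy 221875 (.sx 50000
 (.sx 25000 (.aff 8000000 23994792 2042110) (.sx 37500 (.aff 5300000 12034880 1536368) (.aff 1000000 0 0)))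
 (.aff 1000000 0 0)) (.sx 50000 (.sx 25000 (.aff 8000000 24164368 2027780) (.aff 5800000 12834953 1795099))
 (.aff 1000000 0 0))))) (.sy 237500 (.sy 231250 (.sy 228125 (.sx 50000 (.sx 25000 (.aff 8000000 24332763
 2013746) (.aff 5700000 12655138 1745537)) (.aff 1000000 0 0)) (.sx 50000 (.sx 25000 (.aff 8000000 24500000
 2000000) (.aff 5600000 12471007 1696736)) (.aff 1000000 0 0))) (.sy 234375 (.sx 50000 (.sx 25000 (.aff
 8000000 24666104 1986532) (.aff 5500000 12282610 1648673)) (.aff 1000000 0 0)) (.sx 50000 (.sx 25000 (.aff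
 8000000 24831097 1973333) (.aff 5500000 12364769 1637718)) (.aff 1000000 0 0)))) (.sx 50000 (.sx 25000 (.aff
 8000000 25238859 1941451) (.aff 5403000 12220294 1586412)) (.aff 1000000 0 0)))), .pol, (.pol), (.pol),
 .pol⟩, .one ⟨2008000, 251, 2008000, -1030104, 190177, 0, 0, 100000, 250000, 300000⟩ ⟨0, .pol, .pol, .pol,
 .pol, (.sx 50000 (.sx 25000 (.aff 8000000 26807960 1827816) (.sy 275000 (.aff 7100000 13976856 2662259) (.aff
 8000000 16785411 2919202))) (.sx 75000 (.sy 275000 (.sx 62500 (.sx 56250 (.aff 7000000 13537826 2659216)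
 (.aff 1000000 0 0)) (.aff 1000000 0 0)) (.sx 62500 (.sx 56250 (.aff 7200000 14016816 2742421) (.aff 7352000
 13968404 2888513)) (.aff 6700000 11930514 2723270))) (.aff 1000000 0 0))), .pol, (.pol), (.pol), .pol⟩, .one
 ⟨2008000, 251, 2008000, -1177090, 234273, 0, 0, 100000, 300000, 350000⟩ ⟨0, .pol, .pol, .pol, .pol, (.sx
 50000 (.aff 8000000 17846569 2745626) (.sx 75000 (.sy 325000 (.aff 7928000 14405860 3331782) (.aff 8000000
 14849243 3299832)) (.sx 87500 (.sy 325000 (.aff 8238000 14658086 3574044) (.sx 81250 (.aff 8200000 14817478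
 3498572) (.aff 8200000 14535215 3566511))) (.aff 8353000 14277087 3786950)))), .pol, (.pol), (.pol), .pol⟩,
 .one ⟨2008000, 251, 2008000, -1360621, 298509, 0, 0, 100000, 350000, 400000⟩ ⟨0, .pol, .pol, .pol, .pol, (.sx
 50000 (.aff 8000000 22135944 2213595) (.sx 75000 (.aff 8000000 15652476 3130496) (.sx 87500 (.aff 12000000
 23631791 5120222) (.sy 375000 (.sy 362500 (.aff 9200000 15465094 4347856) (.aff 12000000 21815897 5546415))
 (.aff 12000000 22363662 5410563))))), .pol, (.pol), (.sx 50000 (.inf 3872984 258199) (.pol)), .pol⟩, .one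
 ⟨2008000, 251, 2008000, -7133220, 2607548, 0, 0, 100000, 400000, 450000⟩ ⟨0, .pol, .pol, .pol, .pol, (.aff
 35000000 80936189 14282857), .pol, (.aff 35000000 83282652 13880442), (.inf 2332381 428747), .pol⟩, .one
 ⟨2008000, 251, 2008000, 0, -602400, 0, 0, 100000, 450000, 500000⟩ ⟨0, .pol, .pol, .pol, .pol, (.aff 20000000
 47815619 7549835), .pol, (.aff 35000000 74101283 15600270), (.inf 3082208 324443), .pol⟩, .one ⟨2008000, 251,
 2008000, 0, -602400, 0, 0, 100000, 500000, 550000⟩ ⟨0, .pol, .pol, .pol, .pol, (.aff 8000000 18520260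
 2645752), .pol, (.aff 35000000 110172592 10492628), (.inf 3240371 308607), .pol⟩, .one ⟨2008000, 251,
 2008000, 0, -602400, 0, 0, 100000, 550000, 600000⟩ ⟨0, .pol, .pol, .pol, .pol, (.aff 5000000 11075499
 1444631), .pol, (.aff 20000000 52608618 6861994), (.inf 3391165 294884), .pol⟩, .one ⟨2008000, 251, 2008000,
 0, -602400, 0, 0, 100000, 600000, 650000⟩ ⟨0, .pol, .pol, .pol, .pol, (.aff 3000000 5773503 692821), .pol,
 (.aff 20000000 67175145 5374012), (.inf 3535534 282843), .pol⟩, .one ⟨2008000, 251, 2008000, 0, -602400, 0,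
 0, 100000, 650000, 700000⟩ ⟨0, .pol, .pol, .pol, .pol, (.aff 2000000 3000001 333334), .pol, (.aff 12000000
 33000001 3666667), (.inf 3674235 272166), .pol⟩, .one ⟨2008000, 251, 2008000, 0, -602400, 0, 0, 100000,
 700000, 750000⟩ ⟨0, .pol, .pol, .pol, .pol, (.aff 2000000 3807887 262613), .pol, (.aff 12000000 41886753
 2888742), (.inf 3807887 262613), .pol⟩, .one ⟨2008000, 251, 2008000, 0, -602400, 0, 0, 100000, 750000,
 800000⟩ ⟨0, .pol, .pol, .pol, .pol, (.aff 1500000 1968502 127001), .pol, (.aff 12000000 43307044 2794003),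
 (.inf 3937004 254001), .pol⟩, .one ⟨2008000, 251, 2008000, 0, -602400, 0, 0, 100000, 800000, 850000⟩ ⟨0,
 .pol, .pol, .pol, .pol, (.aff 1500000 2031010 123092), .pol, (.aff 8000000 23216374 2110580), (.inf 4062020
 246183), .pol⟩, .one ⟨2008000, 251, 2008000, 0, -602400, 0, 0, 100000, 850000, 900000⟩ ⟨0, .pol, .pol, .pol,
 .pol, (.aff 1000000 0 0), .pol, (.aff 8000000 23909552 2049391), (.inf 4183301 239046), .pol⟩, .one ⟨2008000,
 251, 2008000, 0, -602400, 0, 0, 100000, 900000, 950000⟩ ⟨0, .pol, .pol, .pol, .pol, (.aff 1000000 0 0), .pol,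
 (.aff 8000000 30108139 1627467), (.inf 4301163 232496), .pol⟩, .one ⟨2008000, 251, 2008000, 0, -602400, 0, 0,
 100000, 950000, 1000000⟩ ⟨0, .pol, .pol, .pol, .pol, (.aff 1000000 0 0), .pol, (.aff 8000000 30911164
 1585188), (.inf 4415881 226456), .pol⟩], []⟩] = true := by decide +kernel

theorem II_xL180_20 : PropII xL180_20 := propII_of cL180_20

theorem lL180_40_0 : chkPl ⟨(nat_lit 3), (nat_lit 1000), Int.ofNat (nat_lit 250), 0, ⟨0, 1⟩, ⟨Int.ofNat
 (nat_lit 40), 200⟩⟩ ⟨900000, 950000, 961681, 948772, 974768, 269917, 320201, 227580, 316227, 223606⟩ true 0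
 0 [(nat_lit 50), (nat_lit 100), (nat_lit 150), (nat_lit 200), (nat_lit 250), (nat_lit 300), (nat_lit 350),
 (nat_lit 400), (nat_lit 450), (nat_lit 500), (nat_lit 550), (nat_lit 600), (nat_lit 650), (nat_lit 700),
 (nat_lit 750), (nat_lit 800), (nat_lit 850), (nat_lit 900), (nat_lit 950), (nat_lit 1000)] [(Int.ofNat
 (nat_lit 955)), (Int.ofNat (nat_lit 1602)), (Int.ofNat (nat_lit 2118)), (Int.ofNat (nat_lit 2577)),
 (Int.ofNat (nat_lit 3004)), (Int.ofNat (nat_lit 3422)), (Int.ofNat (nat_lit 3843)), (Int.ofNat (nat_lit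
 4289)), (Int.ofNat (nat_lit 4743)), (Int.ofNat (nat_lit 5295)), (Int.negSucc (nat_lit 29911)), (Int.negSucc
 (nat_lit 29999)), (Int.negSucc (nat_lit 29999)), (Int.negSucc (nat_lit 29999)), (Int.negSucc (nat_lit
 29999)), (Int.negSucc (nat_lit 29999)), (Int.negSucc (nat_lit 29999)), (Int.negSucc (nat_lit 29999)),
 (Int.negSucc (nat_lit 29999)), (Int.negSucc (nat_lit 29999))] [qL180_40_0_0, qL180_40_0_1, qL180_40_0_2,
 qL180_40_0_3, qL180_40_0_4, qL180_40_0_5, qL180_40_0_6, qL180_40_0_7, qL180_40_0_8, qL180_40_0_9,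
 qL180_40_0_10, qL180_40_0_11, qL180_40_0_12, qL180_40_0_13, qL180_40_0_14, qL180_40_0_15, qL180_40_0_16,
 qL180_40_0_17, qL180_40_0_18, qL180_40_0_19] = true :=
  chkPl_cons rfl hL180_40_0_0 (chkPl_cons rfl hL180_40_0_1 (chkPl_cons rfl hL180_40_0_2 (chkPl_cons rfl
 hL180_40_0_3 (chkPl_cons rfl hL180_40_0_4 (chkPl_cons rfl hL180_40_0_5 (chkPl_cons rfl hL180_40_0_6
 (chkPl_cons rfl hL180_40_0_7 (chkPl_cons rfl hL180_40_0_8 (chkPl_cons rfl hL180_40_0_9 (chkPl_cons rfl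
 hL180_40_0_10 (chkPl_cons rfl hL180_40_0_11 (chkPl_cons rfl hL180_40_0_12 (chkPl_cons rfl hL180_40_0_13
 (chkPl_cons rfl hL180_40_0_14 (chkPl_cons rfl hL180_40_0_15 (chkPl_cons rfl hL180_40_0_16 (chkPl_cons rfl
 hL180_40_0_17 (chkPl_cons rfl hL180_40_0_18 (chkPl_cons rfl hL180_40_0_19 chkPl_nil)))))))))))))))))))

theorem lL180_40_1 : chkPl ⟨(nat_lit 3), (nat_lit 1000), Int.ofNat (nat_lit 400), 0, ⟨0, 1⟩, ⟨Int.ofNat
 (nat_lit 40), 200⟩⟩ ⟨900000, 950000, 961681, 948772, 974768, 269917, 320201, 227580, 316227, 223606⟩ true 0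
 0 [(nat_lit 50), (nat_lit 100), (nat_lit 150), (nat_lit 200), (nat_lit 250), (nat_lit 300), (nat_lit 350),
 (nat_lit 400), (nat_lit 450), (nat_lit 500), (nat_lit 550), (nat_lit 600), (nat_lit 650), (nat_lit 700),
 (nat_lit 750), (nat_lit 800), (nat_lit 850), (nat_lit 900), (nat_lit 950), (nat_lit 1000)] [(Int.ofNat
 (nat_lit 864)), (Int.ofNat (nat_lit 1624)), (Int.ofNat (nat_lit 2038)), (Int.ofNat (nat_lit 2284)),
 (Int.ofNat (nat_lit 2407)), (Int.ofNat (nat_lit 2456)), (Int.ofNat (nat_lit 2434)), (Int.ofNat (nat_lit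
 2384)), (Int.ofNat (nat_lit 2304)), (Int.ofNat (nat_lit 2288)), (Int.negSucc (nat_lit 29920)), (Int.negSucc
 (nat_lit 29999)), (Int.negSucc (nat_lit 29999)), (Int.negSucc (nat_lit 29999)), (Int.negSucc (nat_lit
 29999)), (Int.negSucc (nat_lit 29999)), (Int.negSucc (nat_lit 29999)), (Int.negSucc (nat_lit 29999)),
 (Int.negSucc (nat_lit 29999)), (Int.negSucc (nat_lit 29999))] [qL180_40_1_0, qL180_40_1_1, qL180_40_1_2,
 qL180_40_1_3, qL180_40_1_4, qL180_40_1_5, qL180_40_1_6, qL180_40_1_7, qL180_40_1_8, qL180_40_1_9,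
 qL180_40_1_10, qL180_40_1_11, qL180_40_1_12, qL180_40_1_13, qL180_40_1_14, qL180_40_1_15, qL180_40_1_16,
 qL180_40_1_17, qL180_40_1_18, qL180_40_1_19] = true :=
  chkPl_cons rfl hL180_40_1_0 (chkPl_cons rfl hL180_40_1_1 (chkPl_cons rfl hL180_40_1_2 (chkPl_cons rfl
 hL180_40_1_3 (chkPl_cons rfl hL180_40_1_4 (chkPl_cons rfl hL180_40_1_5 (chkPl_cons rfl hL180_40_1_6
 (chkPl_cons rfl hL180_40_1_7 (chkPl_cons rfl hL180_40_1_8 (chkPl_cons rfl hL180_40_1_9 (chkPl_cons rfl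
 hL180_40_1_10 (chkPl_cons rfl hL180_40_1_11 (chkPl_cons rfl hL180_40_1_12 (chkPl_cons rfl hL180_40_1_13
 (chkPl_cons rfl hL180_40_1_14 (chkPl_cons rfl hL180_40_1_15 (chkPl_cons rfl hL180_40_1_16 (chkPl_cons rfl
 hL180_40_1_17 (chkPl_cons rfl hL180_40_1_18 (chkPl_cons rfl hL180_40_1_19 chkPl_nil)))))))))))))))))))

theorem lL180_40_2 : chkPl ⟨(nat_lit 3), (nat_lit 1000), Int.ofNat (nat_lit 1000), 0, ⟨0, 1⟩, ⟨Int.ofNat
 (nat_lit 40), 200⟩⟩ ⟨900000, 950000, 961681, 948772, 974768, 269917, 320201, 227580, 316227, 223606⟩ true 0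
 0 [(nat_lit 50), (nat_lit 100), (nat_lit 150), (nat_lit 200), (nat_lit 250), (nat_lit 300), (nat_lit 350),
 (nat_lit 400), (nat_lit 450), (nat_lit 500), (nat_lit 550), (nat_lit 600), (nat_lit 650), (nat_lit 700),
 (nat_lit 750), (nat_lit 800), (nat_lit 850), (nat_lit 900), (nat_lit 950), (nat_lit 1000)] [(Int.ofNat
 (nat_lit 797)), (Int.ofNat (nat_lit 1681)), (Int.ofNat (nat_lit 1797)), (Int.ofNat (nat_lit 1117)),
 (Int.ofNat (nat_lit 39)), (Int.negSucc (nat_lit 1436)), (Int.negSucc (nat_lit 3150)), (Int.negSucc (nat_lit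
 5159)), (Int.negSucc (nat_lit 7345)), (Int.negSucc (nat_lit 9746)), (Int.negSucc (nat_lit 29968)),
 (Int.negSucc (nat_lit 29999)), (Int.negSucc (nat_lit 29999)), (Int.negSucc (nat_lit 29999)), (Int.negSucc
 (nat_lit 29999)), (Int.negSucc (nat_lit 29999)), (Int.negSucc (nat_lit 29999)), (Int.negSucc (nat_lit
 29999)), (Int.negSucc (nat_lit 29999)), (Int.negSucc (nat_lit 29999))] [qL180_40_2_0, qL180_40_2_1,
 qL180_40_2_2, qL180_40_2_3, qL180_40_2_4, qL180_40_2_5, qL180_40_2_6, qL180_40_2_7, qL180_40_2_8,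
 qL180_40_2_9, qL180_40_2_10, qL180_40_2_11, qL180_40_2_12, qL180_40_2_13, qL180_40_2_14, qL180_40_2_15,
 qL180_40_2_16, qL180_40_2_17, qL180_40_2_18, qL180_40_2_19] = true :=
  chkPl_cons rfl hL180_40_2_0 (chkPl_cons rfl hL180_40_2_1 (chkPl_cons rfl hL180_40_2_2 (chkPl_cons rfl
 hL180_40_2_3 (chkPl_cons rfl hL180_40_2_4 (chkPl_cons rfl hL180_40_2_5 (chkPl_cons rfl hL180_40_2_6
 (chkPl_cons rfl hL180_40_2_7 (chkPl_cons rfl hL180_40_2_8 (chkPl_cons rfl hL180_40_2_9 (chkPl_cons rfl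
 hL180_40_2_10 (chkPl_cons rfl hL180_40_2_11 (chkPl_cons rfl hL180_40_2_12 (chkPl_cons rfl hL180_40_2_13
 (chkPl_cons rfl hL180_40_2_14 (chkPl_cons rfl hL180_40_2_15 (chkPl_cons rfl hL180_40_2_16 (chkPl_cons rfl
 hL180_40_2_17 (chkPl_cons rfl hL180_40_2_18 (chkPl_cons rfl hL180_40_2_19 chkPl_nil)))))))))))))))))))

theorem lL180_40_3 : chkPl ⟨(nat_lit 1), (nat_lit 1000), Int.ofNat (nat_lit 185), 0, ⟨0, 1⟩, ⟨Int.ofNat
 (nat_lit 40), 200⟩⟩ ⟨900000, 950000, 961681, 948772, 974768, 269917, 320201, 227580, 316227, 223606⟩ true 0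
 0 [(nat_lit 50), (nat_lit 100), (nat_lit 150), (nat_lit 200), (nat_lit 250), (nat_lit 300), (nat_lit 350),
 (nat_lit 400), (nat_lit 450), (nat_lit 500), (nat_lit 550), (nat_lit 600), (nat_lit 650), (nat_lit 700),
 (nat_lit 750), (nat_lit 800), (nat_lit 850), (nat_lit 900), (nat_lit 950), (nat_lit 1000)] [(Int.ofNat
 (nat_lit 1962)), (Int.ofNat (nat_lit 839)), (Int.ofNat (nat_lit 638)), (Int.ofNat (nat_lit 297)),
 (Int.negSucc (nat_lit 132)), (Int.negSucc (nat_lit 653)), (Int.negSucc (nat_lit 1236)), (Int.negSucc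
 (nat_lit 1895)), (Int.negSucc (nat_lit 2610)), (Int.negSucc (nat_lit 3345)), (Int.negSucc (nat_lit 29944)),
 (Int.negSucc (nat_lit 29999)), (Int.negSucc (nat_lit 29999)), (Int.negSucc (nat_lit 29999)), (Int.negSucc
 (nat_lit 29999)), (Int.negSucc (nat_lit 29999)), (Int.negSucc (nat_lit 29999)), (Int.negSucc (nat_lit
 29999)), (Int.negSucc (nat_lit 29999)), (Int.negSucc (nat_lit 29999))] [qL180_40_3_0, qL180_40_3_1,
 qL180_40_3_2, qL180_40_3_3, qL180_40_3_4, qL180_40_3_5, qL180_40_3_6, qL180_40_3_7, qL180_40_3_8,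
 qL180_40_3_9, qL180_40_3_10, qL180_40_3_11, qL180_40_3_12, qL180_40_3_13, qL180_40_3_14, qL180_40_3_15,
 qL180_40_3_16, qL180_40_3_17, qL180_40_3_18, qL180_40_3_19] = true :=
  chkPl_cons rfl hL180_40_3_0 (chkPl_cons rfl hL180_40_3_1 (chkPl_cons rfl hL180_40_3_2 (chkPl_cons rfl
 hL180_40_3_3 (chkPl_cons rfl hL180_40_3_4 (chkPl_cons rfl hL180_40_3_5 (chkPl_cons rfl hL180_40_3_6
 (chkPl_cons rfl hL180_40_3_7 (chkPl_cons rfl hL180_40_3_8 (chkPl_cons rfl hL180_40_3_9 (chkPl_cons rfl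
 hL180_40_3_10 (chkPl_cons rfl hL180_40_3_11 (chkPl_cons rfl hL180_40_3_12 (chkPl_cons rfl hL180_40_3_13
 (chkPl_cons rfl hL180_40_3_14 (chkPl_cons rfl hL180_40_3_15 (chkPl_cons rfl hL180_40_3_16 (chkPl_cons rfl
 hL180_40_3_17 (chkPl_cons rfl hL180_40_3_18 (chkPl_cons rfl hL180_40_3_19 chkPl_nil)))))))))))))))))))

theorem lL180_40_4 : chkPl ⟨(nat_lit 1), (nat_lit 1000), Int.ofNat (nat_lit 250), 0, ⟨0, 1⟩, ⟨Int.ofNat
 (nat_lit 40), 200⟩⟩ ⟨900000, 950000, 961681, 948772, 974768, 269917, 320201, 227580, 316227, 223606⟩ true 0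
 0 [(nat_lit 50), (nat_lit 100), (nat_lit 150), (nat_lit 200), (nat_lit 250), (nat_lit 300), (nat_lit 350),
 (nat_lit 400), (nat_lit 450), (nat_lit 500), (nat_lit 550), (nat_lit 600), (nat_lit 650), (nat_lit 700),
 (nat_lit 750), (nat_lit 800), (nat_lit 850), (nat_lit 900), (nat_lit 950), (nat_lit 1000)] [(Int.ofNat
 (nat_lit 910)), (Int.ofNat (nat_lit 854)), (Int.ofNat (nat_lit 615)), (Int.ofNat (nat_lit 176)),
 (Int.negSucc (nat_lit 383)), (Int.negSucc (nat_lit 1069)), (Int.negSucc (nat_lit 1840)), (Int.negSucc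
 (nat_lit 2701)), (Int.negSucc (nat_lit 3645)), (Int.negSucc (nat_lit 4649)), (Int.negSucc (nat_lit 29950)),
 (Int.negSucc (nat_lit 29999)), (Int.negSucc (nat_lit 29999)), (Int.negSucc (nat_lit 29999)), (Int.negSucc
 (nat_lit 29999)), (Int.negSucc (nat_lit 29999)), (Int.negSucc (nat_lit 29999)), (Int.negSucc (nat_lit
 29999)), (Int.negSucc (nat_lit 29999)), (Int.negSucc (nat_lit 29999))] [qL180_40_4_0, qL180_40_4_1,
 qL180_40_4_2, qL180_40_4_3, qL180_40_4_4, qL180_40_4_5, qL180_40_4_6, qL180_40_4_7, qL180_40_4_8,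
 qL180_40_4_9, qL180_40_4_10, qL180_40_4_11, qL180_40_4_12, qL180_40_4_13, qL180_40_4_14, qL180_40_4_15,
 qL180_40_4_16, qL180_40_4_17, qL180_40_4_18, qL180_40_4_19] = true :=
  chkPl_cons rfl hL180_40_4_0 (chkPl_cons rfl hL180_40_4_1 (chkPl_cons rfl hL180_40_4_2 (chkPl_cons rfl
 hL180_40_4_3 (chkPl_cons rfl hL180_40_4_4 (chkPl_cons rfl hL180_40_4_5 (chkPl_cons rfl hL180_40_4_6
 (chkPl_cons rfl hL180_40_4_7 (chkPl_cons rfl hL180_40_4_8 (chkPl_cons rfl hL180_40_4_9 (chkPl_cons rfl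
 hL180_40_4_10 (chkPl_cons rfl hL180_40_4_11 (chkPl_cons rfl hL180_40_4_12 (chkPl_cons rfl hL180_40_4_13
 (chkPl_cons rfl hL180_40_4_14 (chkPl_cons rfl hL180_40_4_15 (chkPl_cons rfl hL180_40_4_16 (chkPl_cons rfl
 hL180_40_4_17 (chkPl_cons rfl hL180_40_4_18 (chkPl_cons rfl hL180_40_4_19 chkPl_nil)))))))))))))))))))

theorem lL180_40_5 : chkPl ⟨(nat_lit 1), (nat_lit 1000), Int.ofNat (nat_lit 400), 0, ⟨0, 1⟩, ⟨Int.ofNat
 (nat_lit 40), 200⟩⟩ ⟨900000, 950000, 961681, 948772, 974768, 269917, 320201, 227580, 316227, 223606⟩ true 0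
 0 [(nat_lit 50), (nat_lit 100), (nat_lit 150), (nat_lit 200), (nat_lit 250), (nat_lit 300), (nat_lit 350),
 (nat_lit 400), (nat_lit 450), (nat_lit 500), (nat_lit 550), (nat_lit 600), (nat_lit 650), (nat_lit 700),
 (nat_lit 750), (nat_lit 800), (nat_lit 850), (nat_lit 900), (nat_lit 950), (nat_lit 1000)] [(Int.ofNat
 (nat_lit 708)), (Int.ofNat (nat_lit 896)), (Int.ofNat (nat_lit 529)), (Int.negSucc (nat_lit 110)),
 (Int.negSucc (nat_lit 990)), (Int.negSucc (nat_lit 2037)), (Int.negSucc (nat_lit 3253)), (Int.negSucc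
 (nat_lit 4598)), (Int.negSucc (nat_lit 6080)), (Int.negSucc (nat_lit 7655)), (Int.negSucc (nat_lit 29962)),
 (Int.negSucc (nat_lit 29999)), (Int.negSucc (nat_lit 29999)), (Int.negSucc (nat_lit 29999)), (Int.negSucc
 (nat_lit 29999)), (Int.negSucc (nat_lit 29999)), (Int.negSucc (nat_lit 29999)), (Int.negSucc (nat_lit
 29999)), (Int.negSucc (nat_lit 29999)), (Int.negSucc (nat_lit 29999))] [qL180_40_5_0, qL180_40_5_1,
 qL180_40_5_2, qL180_40_5_3, qL180_40_5_4, qL180_40_5_5, qL180_40_5_6, qL180_40_5_7, qL180_40_5_8,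
 qL180_40_5_9, qL180_40_5_10, qL180_40_5_11, qL180_40_5_12, qL180_40_5_13, qL180_40_5_14, qL180_40_5_15,
 qL180_40_5_16, qL180_40_5_17, qL180_40_5_18, qL180_40_5_19] = true :=
  chkPl_cons rfl hL180_40_5_0 (chkPl_cons rfl hL180_40_5_1 (chkPl_cons rfl hL180_40_5_2 (chkPl_cons rfl
 hL180_40_5_3 (chkPl_cons rfl hL180_40_5_4 (chkPl_cons rfl hL180_40_5_5 (chkPl_cons rfl hL180_40_5_6
 (chkPl_cons rfl hL180_40_5_7 (chkPl_cons rfl hL180_40_5_8 (chkPl_cons rfl hL180_40_5_9 (chkPl_cons rfl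
 hL180_40_5_10 (chkPl_cons rfl hL180_40_5_11 (chkPl_cons rfl hL180_40_5_12 (chkPl_cons rfl hL180_40_5_13
 (chkPl_cons rfl hL180_40_5_14 (chkPl_cons rfl hL180_40_5_15 (chkPl_cons rfl hL180_40_5_16 (chkPl_cons rfl
 hL180_40_5_17 (chkPl_cons rfl hL180_40_5_18 (chkPl_cons rfl hL180_40_5_19 chkPl_nil)))))))))))))))))))

theorem lL180_40_6 : chkPl ⟨(nat_lit 1), (nat_lit 1000), Int.ofNat (nat_lit 1000), 0, ⟨0, 1⟩, ⟨Int.ofNat
 (nat_lit 40), 200⟩⟩ ⟨900000, 950000, 961681, 948772, 974768, 269917, 320201, 227580, 316227, 223606⟩ true 0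
 0 [(nat_lit 50), (nat_lit 100), (nat_lit 150), (nat_lit 200), (nat_lit 250), (nat_lit 300), (nat_lit 350),
 (nat_lit 400), (nat_lit 450), (nat_lit 500), (nat_lit 550), (nat_lit 600), (nat_lit 650), (nat_lit 700),
 (nat_lit 750), (nat_lit 800), (nat_lit 850), (nat_lit 900), (nat_lit 950), (nat_lit 1000)] [(Int.ofNat
 (nat_lit 502)), (Int.ofNat (nat_lit 955)), (Int.ofNat (nat_lit 267)), (Int.negSucc (nat_lit 1280)),
 (Int.negSucc (nat_lit 3342)), (Int.negSucc (nat_lit 5926)), (Int.negSucc (nat_lit 8839)), (Int.negSucc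
 (nat_lit 12152)), (Int.negSucc (nat_lit 15737)), (Int.negSucc (nat_lit 19679)), (Int.negSucc (nat_lit
 29999)), (Int.negSucc (nat_lit 29999)), (Int.negSucc (nat_lit 29999)), (Int.negSucc (nat_lit 29999)),
 (Int.negSucc (nat_lit 29999)), (Int.negSucc (nat_lit 29999)), (Int.negSucc (nat_lit 29999)), (Int.negSucc
 (nat_lit 29999)), (Int.negSucc (nat_lit 29999)), (Int.negSucc (nat_lit 29999))] [qL180_40_6_0,
 qL180_40_6_1, qL180_40_6_2, qL180_40_6_3, qL180_40_6_4, qL180_40_6_5, qL180_40_6_6, qL180_40_6_7,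
 qL180_40_6_8, qL180_40_6_9, qL180_40_6_10, qL180_40_6_11, qL180_40_6_12, qL180_40_6_13, qL180_40_6_14,
 qL180_40_6_15, qL180_40_6_16, qL180_40_6_17, qL180_40_6_18, qL180_40_6_19] = true :=
  chkPl_cons rfl hL180_40_6_0 (chkPl_cons rfl hL180_40_6_1 (chkPl_cons rfl hL180_40_6_2 (chkPl_cons rfl
 hL180_40_6_3 (chkPl_cons rfl hL180_40_6_4 (chkPl_cons rfl hL180_40_6_5 (chkPl_cons rfl hL180_40_6_6
 (chkPl_cons rfl hL180_40_6_7 (chkPl_cons rfl hL180_40_6_8 (chkPl_cons rfl hL180_40_6_9 (chkPl_cons rfl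
 hL180_40_6_10 (chkPl_cons rfl hL180_40_6_11 (chkPl_cons rfl hL180_40_6_12 (chkPl_cons rfl hL180_40_6_13
 (chkPl_cons rfl hL180_40_6_14 (chkPl_cons rfl hL180_40_6_15 (chkPl_cons rfl hL180_40_6_16 (chkPl_cons rfl
 hL180_40_6_17 (chkPl_cons rfl hL180_40_6_18 (chkPl_cons rfl hL180_40_6_19 chkPl_nil)))))))))))))))))))

def cL180_40 : chkII xL180_40 ⟨900000, 950000, 961681, 948772, 974768, 269917, 320201, 227580, 316227,
 223606⟩ [⟨[qL180_40_0_0, qL180_40_0_1, qL180_40_0_2, qL180_40_0_3, qL180_40_0_4, qL180_40_0_5,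
 qL180_40_0_6, qL180_40_0_7, qL180_40_0_8, qL180_40_0_9, qL180_40_0_10, qL180_40_0_11, qL180_40_0_12,
 qL180_40_0_13, qL180_40_0_14, qL180_40_0_15, qL180_40_0_16, qL180_40_0_17, qL180_40_0_18, qL180_40_0_19],
 []⟩, ⟨[qL180_40_1_0, qL180_40_1_1, qL180_40_1_2, qL180_40_1_3, qL180_40_1_4, qL180_40_1_5, qL180_40_1_6,
 qL180_40_1_7, qL180_40_1_8, qL180_40_1_9, qL180_40_1_10, qL180_40_1_11, qL180_40_1_12, qL180_40_1_13,
 qL180_40_1_14, qL180_40_1_15, qL180_40_1_16, qL180_40_1_17, qL180_40_1_18, qL180_40_1_19], []⟩,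
 ⟨[qL180_40_2_0, qL180_40_2_1, qL180_40_2_2, qL180_40_2_3, qL180_40_2_4, qL180_40_2_5, qL180_40_2_6,
 qL180_40_2_7, qL180_40_2_8, qL180_40_2_9, qL180_40_2_10, qL180_40_2_11, qL180_40_2_12, qL180_40_2_13,
 qL180_40_2_14, qL180_40_2_15, qL180_40_2_16, qL180_40_2_17, qL180_40_2_18, qL180_40_2_19], []⟩,
 ⟨[qL180_40_3_0, qL180_40_3_1, qL180_40_3_2, qL180_40_3_3, qL180_40_3_4, qL180_40_3_5, qL180_40_3_6,
 qL180_40_3_7, qL180_40_3_8, qL180_40_3_9, qL180_40_3_10, qL180_40_3_11, qL180_40_3_12, qL180_40_3_13,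
 qL180_40_3_14, qL180_40_3_15, qL180_40_3_16, qL180_40_3_17, qL180_40_3_18, qL180_40_3_19], []⟩,
 ⟨[qL180_40_4_0, qL180_40_4_1, qL180_40_4_2, qL180_40_4_3, qL180_40_4_4, qL180_40_4_5, qL180_40_4_6,
 qL180_40_4_7, qL180_40_4_8, qL180_40_4_9, qL180_40_4_10, qL180_40_4_11, qL180_40_4_12, qL180_40_4_13,
 qL180_40_4_14, qL180_40_4_15, qL180_40_4_16, qL180_40_4_17, qL180_40_4_18, qL180_40_4_19], []⟩,
 ⟨[qL180_40_5_0, qL180_40_5_1, qL180_40_5_2, qL180_40_5_3, qL180_40_5_4, qL180_40_5_5, qL180_40_5_6,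
 qL180_40_5_7, qL180_40_5_8, qL180_40_5_9, qL180_40_5_10, qL180_40_5_11, qL180_40_5_12, qL180_40_5_13,
 qL180_40_5_14, qL180_40_5_15, qL180_40_5_16, qL180_40_5_17, qL180_40_5_18, qL180_40_5_19], []⟩,
 ⟨[qL180_40_6_0, qL180_40_6_1, qL180_40_6_2, qL180_40_6_3, qL180_40_6_4, qL180_40_6_5, qL180_40_6_6,
 qL180_40_6_7, qL180_40_6_8, qL180_40_6_9, qL180_40_6_10, qL180_40_6_11, qL180_40_6_12, qL180_40_6_13,
 qL180_40_6_14, qL180_40_6_15, qL180_40_6_16, qL180_40_6_17, qL180_40_6_18, qL180_40_6_19], []⟩] = true :=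
 chkII_mk (by decide +kernel) (chkCls_cons lL180_40_0 rfl (chkCls_cons lL180_40_1 rfl (chkCls_cons
 lL180_40_2 rfl (chkCls_cons lL180_40_3 rfl (chkCls_cons lL180_40_4 rfl (chkCls_cons lL180_40_5 rfl
 (chkCls_cons lL180_40_6 rfl chkCls_nil)))))))

theorem II_xL180_40 : PropII xL180_40 := propII_of cL180_40

end CB
end Pool.Agent.Lib.MP_6947cd_al
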