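import Pool.Agent.Lib.MP_6947cd_al.L.PairA
import Pool.Agent.Lib.MP_6947cd_al.L.BoxLib
import Pool.Agent.Lib.MP_6947cd_al.PS.L180_60_0
import Pool.Agent.Lib.MP_6947cd_al.PS.L180_60_1

/-!
Problem MP_6947cd_al (Chollet).  Library of pair functions: certificates (generated).
-/

set_option autoImplicit false
set_option linter.defProp false
set_option maxRecDepth 100000

namespace Pool.Agent.Lib.MP_6947cd_al
namespace CB

open CA

theorem lL180_60_0 : chkPl ⟨(nat_lit 3), (nat_lit 1000), Int.ofNat (nat_lit 250), 0, ⟨0, 1⟩, ⟨Int.ofNat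
 (nat_lit 60), 200⟩⟩ ⟨900000, 950000, 961681, 948772, 974768, 269917, 320201, 227580, 316227, 223606⟩ true 0
 0 [(nat_lit 50), (nat_lit 100), (nat_lit 150), (nat_lit 200), (nat_lit 250), (nat_lit 300), (nat_lit 350),
 (nat_lit 400), (nat_lit 450), (nat_lit 500), (nat_lit 550), (nat_lit 600), (nat_lit 650), (nat_lit 700),
 (nat_lit 750), (nat_lit 800), (nat_lit 850), (nat_lit 900), (nat_lit 950), (nat_lit 1000)] [(Int.ofNat
 (nat_lit 957)), (Int.ofNat (nat_lit 1602)), (Int.ofNat (nat_lit 2113)), (Int.ofNat (nat_lit 2577)),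
 (Int.ofNat (nat_lit 3004)), (Int.ofNat (nat_lit 3422)), (Int.ofNat (nat_lit 3854)), (Int.ofNat (nat_lit
 4288)), (Int.ofNat (nat_lit 4743)), (Int.ofNat (nat_lit 5225)), (Int.ofNat (nat_lit 5742)), (Int.ofNat
 (nat_lit 6282)), (Int.ofNat (nat_lit 6870)), (Int.negSucc (nat_lit 29999)), (Int.negSucc (nat_lit 29999)),
 (Int.negSucc (nat_lit 29999)), (Int.negSucc (nat_lit 29999)), (Int.negSucc (nat_lit 29999)), (Int.negSucc
 (nat_lit 29999)), (Int.negSucc (nat_lit 29999))] [qL180_60_0_0, qL180_60_0_1, qL180_60_0_2, qL180_60_0_3,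
 qL180_60_0_4, qL180_60_0_5, qL180_60_0_6, qL180_60_0_7, qL180_60_0_8, qL180_60_0_9, qL180_60_0_10,
 qL180_60_0_11, qL180_60_0_12, qL180_60_0_13, qL180_60_0_14, qL180_60_0_15, qL180_60_0_16, qL180_60_0_17,
 qL180_60_0_18, qL180_60_0_19] = true :=
  chkPl_cons rfl hL180_60_0_0 (chkPl_cons rfl hL180_60_0_1 (chkPl_cons rfl hL180_60_0_2 (chkPl_cons rfl
 hL180_60_0_3 (chkPl_cons rfl hL180_60_0_4 (chkPl_cons rfl hL180_60_0_5 (chkPl_cons rfl hL180_60_0_6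
 (chkPl_cons rfl hL180_60_0_7 (chkPl_cons rfl hL180_60_0_8 (chkPl_cons rfl hL180_60_0_9 (chkPl_cons rfl
 hL180_60_0_10 (chkPl_cons rfl hL180_60_0_11 (chkPl_cons rfl hL180_60_0_12 (chkPl_cons rfl hL180_60_0_13
 (chkPl_cons rfl hL180_60_0_14 (chkPl_cons rfl hL180_60_0_15 (chkPl_cons rfl hL180_60_0_16 (chkPl_cons rfl
 hL180_60_0_17 (chkPl_cons rfl hL180_60_0_18 (chkPl_cons rfl hL180_60_0_19 chkPl_nil)))))))))))))))))))

theorem lL180_60_1 : chkPl ⟨(nat_lit 3), (nat_lit 1000), Int.ofNat (nat_lit 400), 0, ⟨0, 1⟩, ⟨Int.ofNat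
 (nat_lit 60), 200⟩⟩ ⟨900000, 950000, 961681, 948772, 974768, 269917, 320201, 227580, 316227, 223606⟩ true 0
 0 [(nat_lit 50), (nat_lit 100), (nat_lit 150), (nat_lit 200), (nat_lit 250), (nat_lit 300), (nat_lit 350),
 (nat_lit 400), (nat_lit 450), (nat_lit 500), (nat_lit 550), (nat_lit 600), (nat_lit 650), (nat_lit 700),
 (nat_lit 750), (nat_lit 800), (nat_lit 850), (nat_lit 900), (nat_lit 950), (nat_lit 1000)] [(Int.ofNat
 (nat_lit 863)), (Int.ofNat (nat_lit 1625)), (Int.ofNat (nat_lit 2038)), (Int.ofNat (nat_lit 2289)),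
 (Int.ofNat (nat_lit 2406)), (Int.ofNat (nat_lit 2450)), (Int.ofNat (nat_lit 2434)), (Int.ofNat (nat_lit
 2384)), (Int.ofNat (nat_lit 2304)), (Int.ofNat (nat_lit 2209)), (Int.ofNat (nat_lit 2102)), (Int.ofNat
 (nat_lit 1991)), (Int.ofNat (nat_lit 1879)), (Int.negSucc (nat_lit 29999)), (Int.negSucc (nat_lit 29999)),
 (Int.negSucc (nat_lit 29999)), (Int.negSucc (nat_lit 29999)), (Int.negSucc (nat_lit 29999)), (Int.negSucc
 (nat_lit 29999)), (Int.negSucc (nat_lit 29999))] [qL180_60_1_0, qL180_60_1_1, qL180_60_1_2, qL180_60_1_3,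
 qL180_60_1_4, qL180_60_1_5, qL180_60_1_6, qL180_60_1_7, qL180_60_1_8, qL180_60_1_9, qL180_60_1_10,
 qL180_60_1_11, qL180_60_1_12, qL180_60_1_13, qL180_60_1_14, qL180_60_1_15, qL180_60_1_16, qL180_60_1_17,
 qL180_60_1_18, qL180_60_1_19] = true :=
  chkPl_cons rfl hL180_60_1_0 (chkPl_cons rfl hL180_60_1_1 (chkPl_cons rfl hL180_60_1_2 (chkPl_cons rfl
 hL180_60_1_3 (chkPl_cons rfl hL180_60_1_4 (chkPl_cons rfl hL180_60_1_5 (chkPl_cons rfl hL180_60_1_6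
 (chkPl_cons rfl hL180_60_1_7 (chkPl_cons rfl hL180_60_1_8 (chkPl_cons rfl hL180_60_1_9 (chkPl_cons rfl
 hL180_60_1_10 (chkPl_cons rfl hL180_60_1_11 (chkPl_cons rfl hL180_60_1_12 (chkPl_cons rfl hL180_60_1_13
 (chkPl_cons rfl hL180_60_1_14 (chkPl_cons rfl hL180_60_1_15 (chkPl_cons rfl hL180_60_1_16 (chkPl_cons rfl
 hL180_60_1_17 (chkPl_cons rfl hL180_60_1_18 (chkPl_cons rfl hL180_60_1_19 chkPl_nil)))))))))))))))))))

theorem lL180_60_2 : chkPl ⟨(nat_lit 3), (nat_lit 1000), Int.ofNat (nat_lit 1000), 0, ⟨0, 1⟩, ⟨Int.ofNat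
 (nat_lit 60), 200⟩⟩ ⟨900000, 950000, 961681, 948772, 974768, 269917, 320201, 227580, 316227, 223606⟩ true 0
 0 [(nat_lit 50), (nat_lit 100), (nat_lit 150), (nat_lit 200), (nat_lit 250), (nat_lit 300), (nat_lit 350),
 (nat_lit 400), (nat_lit 450), (nat_lit 500), (nat_lit 550), (nat_lit 600), (nat_lit 650), (nat_lit 700),
 (nat_lit 750), (nat_lit 800), (nat_lit 850), (nat_lit 900), (nat_lit 950), (nat_lit 1000)] [(Int.ofNat
 (nat_lit 796)), (Int.ofNat (nat_lit 1681)), (Int.ofNat (nat_lit 1791)), (Int.ofNat (nat_lit 1115)),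
 (Int.ofNat (nat_lit 35)), (Int.negSucc (nat_lit 1432)), (Int.negSucc (nat_lit 3154)), (Int.negSucc (nat_lit
 5156)), (Int.negSucc (nat_lit 7349)), (Int.negSucc (nat_lit 9774)), (Int.negSucc (nat_lit 12354)),
 (Int.negSucc (nat_lit 15150)), (Int.negSucc (nat_lit 18121)), (Int.negSucc (nat_lit 29999)), (Int.negSucc
 (nat_lit 29999)), (Int.negSucc (nat_lit 29999)), (Int.negSucc (nat_lit 29999)), (Int.negSucc (nat_lit
 29999)), (Int.negSucc (nat_lit 29999)), (Int.negSucc (nat_lit 29999))] [qL180_60_2_0, qL180_60_2_1,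
 qL180_60_2_2, qL180_60_2_3, qL180_60_2_4, qL180_60_2_5, qL180_60_2_6, qL180_60_2_7, qL180_60_2_8,
 qL180_60_2_9, qL180_60_2_10, qL180_60_2_11, qL180_60_2_12, qL180_60_2_13, qL180_60_2_14, qL180_60_2_15,
 qL180_60_2_16, qL180_60_2_17, qL180_60_2_18, qL180_60_2_19] = true :=
  chkPl_cons rfl hL180_60_2_0 (chkPl_cons rfl hL180_60_2_1 (chkPl_cons rfl hL180_60_2_2 (chkPl_cons rfl
 hL180_60_2_3 (chkPl_cons rfl hL180_60_2_4 (chkPl_cons rfl hL180_60_2_5 (chkPl_cons rfl hL180_60_2_6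
 (chkPl_cons rfl hL180_60_2_7 (chkPl_cons rfl hL180_60_2_8 (chkPl_cons rfl hL180_60_2_9 (chkPl_cons rfl
 hL180_60_2_10 (chkPl_cons rfl hL180_60_2_11 (chkPl_cons rfl hL180_60_2_12 (chkPl_cons rfl hL180_60_2_13
 (chkPl_cons rfl hL180_60_2_14 (chkPl_cons rfl hL180_60_2_15 (chkPl_cons rfl hL180_60_2_16 (chkPl_cons rfl
 hL180_60_2_17 (chkPl_cons rfl hL180_60_2_18 (chkPl_cons rfl hL180_60_2_19 chkPl_nil)))))))))))))))))))

theorem lL180_60_3 : chkPl ⟨(nat_lit 1), (nat_lit 1000), Int.ofNat (nat_lit 200), 0, ⟨0, 1⟩, ⟨Int.ofNat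
 (nat_lit 60), 200⟩⟩ ⟨900000, 950000, 961681, 948772, 974768, 269917, 320201, 227580, 316227, 223606⟩ true 0
 0 [(nat_lit 50), (nat_lit 100), (nat_lit 150), (nat_lit 200), (nat_lit 250), (nat_lit 300), (nat_lit 350),
 (nat_lit 400), (nat_lit 450), (nat_lit 500), (nat_lit 550), (nat_lit 600), (nat_lit 650), (nat_lit 700),
 (nat_lit 750), (nat_lit 800), (nat_lit 850), (nat_lit 900), (nat_lit 950), (nat_lit 1000)] [(Int.ofNat
 (nat_lit 1435)), (Int.ofNat (nat_lit 842)), (Int.ofNat (nat_lit 630)), (Int.ofNat (nat_lit 269)),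
 (Int.negSucc (nat_lit 186)), (Int.negSucc (nat_lit 744)), (Int.negSucc (nat_lit 1366)), (Int.negSucc
 (nat_lit 2074)), (Int.negSucc (nat_lit 2841)), (Int.negSucc (nat_lit 3679)), (Int.negSucc (nat_lit 4580)),
 (Int.negSucc (nat_lit 4999)), (Int.negSucc (nat_lit 4178)), (Int.negSucc (nat_lit 29999)), (Int.negSucc
 (nat_lit 29999)), (Int.negSucc (nat_lit 29999)), (Int.negSucc (nat_lit 29999)), (Int.negSucc (nat_lit
 29999)), (Int.negSucc (nat_lit 29999)), (Int.negSucc (nat_lit 29999))] [qL180_60_3_0, qL180_60_3_1,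
 qL180_60_3_2, qL180_60_3_3, qL180_60_3_4, qL180_60_3_5, qL180_60_3_6, qL180_60_3_7, qL180_60_3_8,
 qL180_60_3_9, qL180_60_3_10, qL180_60_3_11, qL180_60_3_12, qL180_60_3_13, qL180_60_3_14, qL180_60_3_15,
 qL180_60_3_16, qL180_60_3_17, qL180_60_3_18, qL180_60_3_19] = true :=
  chkPl_cons rfl hL180_60_3_0 (chkPl_cons rfl hL180_60_3_1 (chkPl_cons rfl hL180_60_3_2 (chkPl_cons rfl
 hL180_60_3_3 (chkPl_cons rfl hL180_60_3_4 (chkPl_cons rfl hL180_60_3_5 (chkPl_cons rfl hL180_60_3_6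
 (chkPl_cons rfl hL180_60_3_7 (chkPl_cons rfl hL180_60_3_8 (chkPl_cons rfl hL180_60_3_9 (chkPl_cons rfl
 hL180_60_3_10 (chkPl_cons rfl hL180_60_3_11 (chkPl_cons rfl hL180_60_3_12 (chkPl_cons rfl hL180_60_3_13
 (chkPl_cons rfl hL180_60_3_14 (chkPl_cons rfl hL180_60_3_15 (chkPl_cons rfl hL180_60_3_16 (chkPl_cons rfl
 hL180_60_3_17 (chkPl_cons rfl hL180_60_3_18 (chkPl_cons rfl hL180_60_3_19 chkPl_nil)))))))))))))))))))

theorem lL180_60_4 : chkPl ⟨(nat_lit 1), (nat_lit 1000), Int.ofNat (nat_lit 250), 0, ⟨0, 1⟩, ⟨Int.ofNat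
 (nat_lit 60), 200⟩⟩ ⟨900000, 950000, 961681, 948772, 974768, 269917, 320201, 227580, 316227, 223606⟩ true 0
 0 [(nat_lit 50), (nat_lit 100), (nat_lit 150), (nat_lit 200), (nat_lit 250), (nat_lit 300), (nat_lit 350),
 (nat_lit 400), (nat_lit 450), (nat_lit 500), (nat_lit 550), (nat_lit 600), (nat_lit 650), (nat_lit 700),
 (nat_lit 750), (nat_lit 800), (nat_lit 850), (nat_lit 900), (nat_lit 950), (nat_lit 1000)] [(Int.ofNat
 (nat_lit 910)), (Int.ofNat (nat_lit 856)), (Int.ofNat (nat_lit 607)), (Int.ofNat (nat_lit 178)),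
 (Int.negSucc (nat_lit 384)), (Int.negSucc (nat_lit 1068)), (Int.negSucc (nat_lit 1837)), (Int.negSucc
 (nat_lit 2708)), (Int.negSucc (nat_lit 3658)), (Int.negSucc (nat_lit 4695)), (Int.negSucc (nat_lit 5804)),
 (Int.negSucc (nat_lit 6430)), (Int.negSucc (nat_lit 5842)), (Int.negSucc (nat_lit 29999)), (Int.negSucc
 (nat_lit 29999)), (Int.negSucc (nat_lit 29999)), (Int.negSucc (nat_lit 29999)), (Int.negSucc (nat_lit
 29999)), (Int.negSucc (nat_lit 29999)), (Int.negSucc (nat_lit 29999))] [qL180_60_4_0, qL180_60_4_1,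
 qL180_60_4_2, qL180_60_4_3, qL180_60_4_4, qL180_60_4_5, qL180_60_4_6, qL180_60_4_7, qL180_60_4_8,
 qL180_60_4_9, qL180_60_4_10, qL180_60_4_11, qL180_60_4_12, qL180_60_4_13, qL180_60_4_14, qL180_60_4_15,
 qL180_60_4_16, qL180_60_4_17, qL180_60_4_18, qL180_60_4_19] = true :=
  chkPl_cons rfl hL180_60_4_0 (chkPl_cons rfl hL180_60_4_1 (chkPl_cons rfl hL180_60_4_2 (chkPl_cons rfl
 hL180_60_4_3 (chkPl_cons rfl hL180_60_4_4 (chkPl_cons rfl hL180_60_4_5 (chkPl_cons rfl hL180_60_4_6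
 (chkPl_cons rfl hL180_60_4_7 (chkPl_cons rfl hL180_60_4_8 (chkPl_cons rfl hL180_60_4_9 (chkPl_cons rfl
 hL180_60_4_10 (chkPl_cons rfl hL180_60_4_11 (chkPl_cons rfl hL180_60_4_12 (chkPl_cons rfl hL180_60_4_13
 (chkPl_cons rfl hL180_60_4_14 (chkPl_cons rfl hL180_60_4_15 (chkPl_cons rfl hL180_60_4_16 (chkPl_cons rfl
 hL180_60_4_17 (chkPl_cons rfl hL180_60_4_18 (chkPl_cons rfl hL180_60_4_19 chkPl_nil)))))))))))))))))))

theorem lL180_60_5 : chkPl ⟨(nat_lit 1), (nat_lit 1000), Int.ofNat (nat_lit 400), 0, ⟨0, 1⟩, ⟨Int.ofNat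
 (nat_lit 60), 200⟩⟩ ⟨900000, 950000, 961681, 948772, 974768, 269917, 320201, 227580, 316227, 223606⟩ true 0
 0 [(nat_lit 50), (nat_lit 100), (nat_lit 150), (nat_lit 200), (nat_lit 250), (nat_lit 300), (nat_lit 350),
 (nat_lit 400), (nat_lit 450), (nat_lit 500), (nat_lit 550), (nat_lit 600), (nat_lit 650), (nat_lit 700),
 (nat_lit 750), (nat_lit 800), (nat_lit 850), (nat_lit 900), (nat_lit 950), (nat_lit 1000)] [(Int.ofNat
 (nat_lit 721)), (Int.ofNat (nat_lit 885)), (Int.ofNat (nat_lit 534)), (Int.negSucc (nat_lit 103)),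
 (Int.negSucc (nat_lit 985)), (Int.negSucc (nat_lit 2030)), (Int.negSucc (nat_lit 3248)), (Int.negSucc
 (nat_lit 4591)), (Int.negSucc (nat_lit 6086)), (Int.negSucc (nat_lit 7686)), (Int.negSucc (nat_lit 9424)),
 (Int.negSucc (nat_lit 10721)), (Int.negSucc (nat_lit 10832)), (Int.negSucc (nat_lit 29999)), (Int.negSucc
 (nat_lit 29999)), (Int.negSucc (nat_lit 29999)), (Int.negSucc (nat_lit 29999)), (Int.negSucc (nat_lit
 29999)), (Int.negSucc (nat_lit 29999)), (Int.negSucc (nat_lit 29999))] [qL180_60_5_0, qL180_60_5_1,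
 qL180_60_5_2, qL180_60_5_3, qL180_60_5_4, qL180_60_5_5, qL180_60_5_6, qL180_60_5_7, qL180_60_5_8,
 qL180_60_5_9, qL180_60_5_10, qL180_60_5_11, qL180_60_5_12, qL180_60_5_13, qL180_60_5_14, qL180_60_5_15,
 qL180_60_5_16, qL180_60_5_17, qL180_60_5_18, qL180_60_5_19] = true :=
  chkPl_cons rfl hL180_60_5_0 (chkPl_cons rfl hL180_60_5_1 (chkPl_cons rfl hL180_60_5_2 (chkPl_cons rfl
 hL180_60_5_3 (chkPl_cons rfl hL180_60_5_4 (chkPl_cons rfl hL180_60_5_5 (chkPl_cons rfl hL180_60_5_6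
 (chkPl_cons rfl hL180_60_5_7 (chkPl_cons rfl hL180_60_5_8 (chkPl_cons rfl hL180_60_5_9 (chkPl_cons rfl
 hL180_60_5_10 (chkPl_cons rfl hL180_60_5_11 (chkPl_cons rfl hL180_60_5_12 (chkPl_cons rfl hL180_60_5_13
 (chkPl_cons rfl hL180_60_5_14 (chkPl_cons rfl hL180_60_5_15 (chkPl_cons rfl hL180_60_5_16 (chkPl_cons rfl
 hL180_60_5_17 (chkPl_cons rfl hL180_60_5_18 (chkPl_cons rfl hL180_60_5_19 chkPl_nil)))))))))))))))))))

theorem lL180_60_6 : chkPl ⟨(nat_lit 1), (nat_lit 1000), Int.ofNat (nat_lit 1000), 0, ⟨0, 1⟩, ⟨Int.ofNat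
 (nat_lit 60), 200⟩⟩ ⟨900000, 950000, 961681, 948772, 974768, 269917, 320201, 227580, 316227, 223606⟩ true 0
 0 [(nat_lit 50), (nat_lit 100), (nat_lit 150), (nat_lit 200), (nat_lit 250), (nat_lit 300), (nat_lit 350),
 (nat_lit 400), (nat_lit 450), (nat_lit 500), (nat_lit 550), (nat_lit 600), (nat_lit 650), (nat_lit 700),
 (nat_lit 750), (nat_lit 800), (nat_lit 850), (nat_lit 900), (nat_lit 950), (nat_lit 1000)] [(Int.ofNat
 (nat_lit 502)), (Int.ofNat (nat_lit 978)), (Int.ofNat (nat_lit 252)), (Int.negSucc (nat_lit 1263)),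
 (Int.negSucc (nat_lit 3359)), (Int.negSucc (nat_lit 5906)), (Int.negSucc (nat_lit 8855)), (Int.negSucc
 (nat_lit 12133)), (Int.negSucc (nat_lit 15746)), (Int.negSucc (nat_lit 19664)), (Int.negSucc (nat_lit
 23890)), (Int.negSucc (nat_lit 27884)), (Int.negSucc (nat_lit 29999)), (Int.negSucc (nat_lit 29999)),
 (Int.negSucc (nat_lit 29999)), (Int.negSucc (nat_lit 29999)), (Int.negSucc (nat_lit 29999)), (Int.negSucc
 (nat_lit 29999)), (Int.negSucc (nat_lit 29999)), (Int.negSucc (nat_lit 29999))] [qL180_60_6_0,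
 qL180_60_6_1, qL180_60_6_2, qL180_60_6_3, qL180_60_6_4, qL180_60_6_5, qL180_60_6_6, qL180_60_6_7,
 qL180_60_6_8, qL180_60_6_9, qL180_60_6_10, qL180_60_6_11, qL180_60_6_12, qL180_60_6_13, qL180_60_6_14,
 qL180_60_6_15, qL180_60_6_16, qL180_60_6_17, qL180_60_6_18, qL180_60_6_19] = true :=
  chkPl_cons rfl hL180_60_6_0 (chkPl_cons rfl hL180_60_6_1 (chkPl_cons rfl hL180_60_6_2 (chkPl_cons rfl
 hL180_60_6_3 (chkPl_cons rfl hL180_60_6_4 (chkPl_cons rfl hL180_60_6_5 (chkPl_cons rfl hL180_60_6_6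
 (chkPl_cons rfl hL180_60_6_7 (chkPl_cons rfl hL180_60_6_8 (chkPl_cons rfl hL180_60_6_9 (chkPl_cons rfl
 hL180_60_6_10 (chkPl_cons rfl hL180_60_6_11 (chkPl_cons rfl hL180_60_6_12 (chkPl_cons rfl hL180_60_6_13
 (chkPl_cons rfl hL180_60_6_14 (chkPl_cons rfl hL180_60_6_15 (chkPl_cons rfl hL180_60_6_16 (chkPl_cons rfl
 hL180_60_6_17 (chkPl_cons rfl hL180_60_6_18 (chkPl_cons rfl hL180_60_6_19 chkPl_nil)))))))))))))))))))

def cL180_60 : chkII xL180_60 ⟨900000, 950000, 961681, 948772, 974768, 269917, 320201, 227580, 316227,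
 223606⟩ [⟨[qL180_60_0_0, qL180_60_0_1, qL180_60_0_2, qL180_60_0_3, qL180_60_0_4, qL180_60_0_5,
 qL180_60_0_6, qL180_60_0_7, qL180_60_0_8, qL180_60_0_9, qL180_60_0_10, qL180_60_0_11, qL180_60_0_12,
 qL180_60_0_13, qL180_60_0_14, qL180_60_0_15, qL180_60_0_16, qL180_60_0_17, qL180_60_0_18, qL180_60_0_19],
 []⟩, ⟨[qL180_60_1_0, qL180_60_1_1, qL180_60_1_2, qL180_60_1_3, qL180_60_1_4, qL180_60_1_5, qL180_60_1_6,
 qL180_60_1_7, qL180_60_1_8, qL180_60_1_9, qL180_60_1_10, qL180_60_1_11, qL180_60_1_12, qL180_60_1_13,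
 qL180_60_1_14, qL180_60_1_15, qL180_60_1_16, qL180_60_1_17, qL180_60_1_18, qL180_60_1_19], []⟩,
 ⟨[qL180_60_2_0, qL180_60_2_1, qL180_60_2_2, qL180_60_2_3, qL180_60_2_4, qL180_60_2_5, qL180_60_2_6,
 qL180_60_2_7, qL180_60_2_8, qL180_60_2_9, qL180_60_2_10, qL180_60_2_11, qL180_60_2_12, qL180_60_2_13,
 qL180_60_2_14, qL180_60_2_15, qL180_60_2_16, qL180_60_2_17, qL180_60_2_18, qL180_60_2_19], []⟩,
 ⟨[qL180_60_3_0, qL180_60_3_1, qL180_60_3_2, qL180_60_3_3, qL180_60_3_4, qL180_60_3_5, qL180_60_3_6,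
 qL180_60_3_7, qL180_60_3_8, qL180_60_3_9, qL180_60_3_10, qL180_60_3_11, qL180_60_3_12, qL180_60_3_13,
 qL180_60_3_14, qL180_60_3_15, qL180_60_3_16, qL180_60_3_17, qL180_60_3_18, qL180_60_3_19], []⟩,
 ⟨[qL180_60_4_0, qL180_60_4_1, qL180_60_4_2, qL180_60_4_3, qL180_60_4_4, qL180_60_4_5, qL180_60_4_6,
 qL180_60_4_7, qL180_60_4_8, qL180_60_4_9, qL180_60_4_10, qL180_60_4_11, qL180_60_4_12, qL180_60_4_13,
 qL180_60_4_14, qL180_60_4_15, qL180_60_4_16, qL180_60_4_17, qL180_60_4_18, qL180_60_4_19], []⟩,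
 ⟨[qL180_60_5_0, qL180_60_5_1, qL180_60_5_2, qL180_60_5_3, qL180_60_5_4, qL180_60_5_5, qL180_60_5_6,
 qL180_60_5_7, qL180_60_5_8, qL180_60_5_9, qL180_60_5_10, qL180_60_5_11, qL180_60_5_12, qL180_60_5_13,
 qL180_60_5_14, qL180_60_5_15, qL180_60_5_16, qL180_60_5_17, qL180_60_5_18, qL180_60_5_19], []⟩,
 ⟨[qL180_60_6_0, qL180_60_6_1, qL180_60_6_2, qL180_60_6_3, qL180_60_6_4, qL180_60_6_5, qL180_60_6_6,
 qL180_60_6_7, qL180_60_6_8, qL180_60_6_9, qL180_60_6_10, qL180_60_6_11, qL180_60_6_12, qL180_60_6_13,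
 qL180_60_6_14, qL180_60_6_15, qL180_60_6_16, qL180_60_6_17, qL180_60_6_18, qL180_60_6_19], []⟩] = true :=
 chkII_mk (by decide +kernel) (chkCls_cons lL180_60_0 rfl (chkCls_cons lL180_60_1 rfl (chkCls_cons
 lL180_60_2 rfl (chkCls_cons lL180_60_3 rfl (chkCls_cons lL180_60_4 rfl (chkCls_cons lL180_60_5 rfl
 (chkCls_cons lL180_60_6 rfl chkCls_nil)))))))

theorem II_xL180_60 : PropII xL180_60 := propII_of cL180_60

end CB
end Pool.Agent.Lib.MP_6947cd_al
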