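import Pool.Agent.Lib.MP_6947cd_al.L.PairA
import Pool.Agent.Lib.MP_6947cd_al.L.BoxLib
import Pool.Agent.Lib.MP_6947cd_al.PS.L110_40_0
import Pool.Agent.Lib.MP_6947cd_al.PS.L110_40_1
import Pool.Agent.Lib.MP_6947cd_al.PS.L110_40_2
import Pool.Agent.Lib.MP_6947cd_al.PS.L110_60_0
import Pool.Agent.Lib.MP_6947cd_al.PS.L110_60_1
import Pool.Agent.Lib.MP_6947cd_al.PS.L110_60_2

/-!
Problem MP_6947cd_al (Chollet).  Library of pair functions: certificates (generated).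
-/

set_option autoImplicit false
set_option linter.defProp false
set_option maxRecDepth 100000

namespace Pool.Agent.Lib.MP_6947cd_al
namespace CB

open CA

theorem lL110_40_0 : chkPl ⟨(nat_lit 3), (nat_lit 1000), Int.ofNat (nat_lit 250), 0, ⟨0, 1⟩, ⟨Int.ofNat
 (nat_lit 40), 200⟩⟩ ⟨550000, 600000, 758108, 741800, 774776, 651638, 671103, 632738, 670820, 632455⟩ true 0
 0 [(nat_lit 50), (nat_lit 100), (nat_lit 150), (nat_lit 200), (nat_lit 250), (nat_lit 300), (nat_lit 350),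
 (nat_lit 400), (nat_lit 450), (nat_lit 500), (nat_lit 550), (nat_lit 600), (nat_lit 650), (nat_lit 700),
 (nat_lit 750), (nat_lit 800), (nat_lit 850), (nat_lit 900), (nat_lit 950), (nat_lit 1000)] [(Int.ofNat
 (nat_lit 1347)), (Int.ofNat (nat_lit 2104)), (Int.ofNat (nat_lit 2839)), (Int.ofNat (nat_lit 3630)),
 (Int.ofNat (nat_lit 4423)), (Int.ofNat (nat_lit 5204)), (Int.ofNat (nat_lit 5946)), (Int.ofNat (nat_lit
 6637)), (Int.ofNat (nat_lit 7284)), (Int.ofNat (nat_lit 7874)), (Int.ofNat (nat_lit 8396)), (Int.ofNat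
 (nat_lit 8843)), (Int.ofNat (nat_lit 9203)), (Int.ofNat (nat_lit 9468)), (Int.ofNat (nat_lit 9624)),
 (Int.ofNat (nat_lit 9654)), (Int.ofNat (nat_lit 9535)), (Int.ofNat (nat_lit 9225)), (Int.negSucc (nat_lit
 29999)), (Int.negSucc (nat_lit 29999))] [qL110_40_0_0, qL110_40_0_1, qL110_40_0_2, qL110_40_0_3,
 qL110_40_0_4, qL110_40_0_5, qL110_40_0_6, qL110_40_0_7, qL110_40_0_8, qL110_40_0_9, qL110_40_0_10,
 qL110_40_0_11, qL110_40_0_12, qL110_40_0_13, qL110_40_0_14, qL110_40_0_15, qL110_40_0_16, qL110_40_0_17,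
 qL110_40_0_18, qL110_40_0_19] = true :=
  chkPl_cons rfl hL110_40_0_0 (chkPl_cons rfl hL110_40_0_1 (chkPl_cons rfl hL110_40_0_2 (chkPl_cons rfl
 hL110_40_0_3 (chkPl_cons rfl hL110_40_0_4 (chkPl_cons rfl hL110_40_0_5 (chkPl_cons rfl hL110_40_0_6
 (chkPl_cons rfl hL110_40_0_7 (chkPl_cons rfl hL110_40_0_8 (chkPl_cons rfl hL110_40_0_9 (chkPl_cons rfl
 hL110_40_0_10 (chkPl_cons rfl hL110_40_0_11 (chkPl_cons rfl hL110_40_0_12 (chkPl_cons rfl hL110_40_0_13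
 (chkPl_cons rfl hL110_40_0_14 (chkPl_cons rfl hL110_40_0_15 (chkPl_cons rfl hL110_40_0_16 (chkPl_cons rfl
 hL110_40_0_17 (chkPl_cons rfl hL110_40_0_18 (chkPl_cons rfl hL110_40_0_19 chkPl_nil)))))))))))))))))))

theorem lL110_40_1 : chkPl ⟨(nat_lit 3), (nat_lit 1000), Int.ofNat (nat_lit 400), 0, ⟨0, 1⟩, ⟨Int.ofNat
 (nat_lit 40), 200⟩⟩ ⟨550000, 600000, 758108, 741800, 774776, 651638, 671103, 632738, 670820, 632455⟩ true 0
 0 [(nat_lit 50), (nat_lit 100), (nat_lit 150), (nat_lit 200), (nat_lit 250), (nat_lit 300), (nat_lit 350),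
 (nat_lit 400), (nat_lit 450), (nat_lit 500), (nat_lit 550), (nat_lit 600), (nat_lit 650), (nat_lit 700),
 (nat_lit 750), (nat_lit 800), (nat_lit 850), (nat_lit 900), (nat_lit 950), (nat_lit 1000)] [(Int.ofNat
 (nat_lit 634)), (Int.ofNat (nat_lit 1352)), (Int.ofNat (nat_lit 2153)), (Int.ofNat (nat_lit 3038)),
 (Int.ofNat (nat_lit 4022)), (Int.ofNat (nat_lit 5011)), (Int.ofNat (nat_lit 5835)), (Int.ofNat (nat_lit
 6599)), (Int.ofNat (nat_lit 7293)), (Int.ofNat (nat_lit 7846)), (Int.ofNat (nat_lit 8256)), (Int.ofNat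
 (nat_lit 8514)), (Int.ofNat (nat_lit 8607)), (Int.ofNat (nat_lit 8520)), (Int.ofNat (nat_lit 8225)),
 (Int.ofNat (nat_lit 7692)), (Int.ofNat (nat_lit 6864)), (Int.ofNat (nat_lit 5640)), (Int.negSucc (nat_lit
 29999)), (Int.negSucc (nat_lit 29999))] [qL110_40_1_0, qL110_40_1_1, qL110_40_1_2, qL110_40_1_3,
 qL110_40_1_4, qL110_40_1_5, qL110_40_1_6, qL110_40_1_7, qL110_40_1_8, qL110_40_1_9, qL110_40_1_10,
 qL110_40_1_11, qL110_40_1_12, qL110_40_1_13, qL110_40_1_14, qL110_40_1_15, qL110_40_1_16, qL110_40_1_17,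
 qL110_40_1_18, qL110_40_1_19] = true :=
  chkPl_cons rfl hL110_40_1_0 (chkPl_cons rfl hL110_40_1_1 (chkPl_cons rfl hL110_40_1_2 (chkPl_cons rfl
 hL110_40_1_3 (chkPl_cons rfl hL110_40_1_4 (chkPl_cons rfl hL110_40_1_5 (chkPl_cons rfl hL110_40_1_6
 (chkPl_cons rfl hL110_40_1_7 (chkPl_cons rfl hL110_40_1_8 (chkPl_cons rfl hL110_40_1_9 (chkPl_cons rfl
 hL110_40_1_10 (chkPl_cons rfl hL110_40_1_11 (chkPl_cons rfl hL110_40_1_12 (chkPl_cons rfl hL110_40_1_13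
 (chkPl_cons rfl hL110_40_1_14 (chkPl_cons rfl hL110_40_1_15 (chkPl_cons rfl hL110_40_1_16 (chkPl_cons rfl
 hL110_40_1_17 (chkPl_cons rfl hL110_40_1_18 (chkPl_cons rfl hL110_40_1_19 chkPl_nil)))))))))))))))))))

theorem lL110_40_2 : chkPl ⟨(nat_lit 3), (nat_lit 1000), Int.ofNat (nat_lit 1000), 0, ⟨0, 1⟩, ⟨Int.ofNat
 (nat_lit 40), 200⟩⟩ ⟨550000, 600000, 758108, 741800, 774776, 651638, 671103, 632738, 670820, 632455⟩ true 0
 0 [(nat_lit 50), (nat_lit 100), (nat_lit 150), (nat_lit 200), (nat_lit 250), (nat_lit 300), (nat_lit 350),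
 (nat_lit 400), (nat_lit 450), (nat_lit 500), (nat_lit 550), (nat_lit 600), (nat_lit 650), (nat_lit 700),
 (nat_lit 750), (nat_lit 800), (nat_lit 850), (nat_lit 900), (nat_lit 950), (nat_lit 1000)] [(Int.ofNat
 (nat_lit 583)), (Int.ofNat (nat_lit 1240)), (Int.ofNat (nat_lit 1974)), (Int.ofNat (nat_lit 2782)),
 (Int.ofNat (nat_lit 3667)), (Int.ofNat (nat_lit 4627)), (Int.ofNat (nat_lit 5710)), (Int.ofNat (nat_lit
 6585)), (Int.ofNat (nat_lit 7317)), (Int.ofNat (nat_lit 7748)), (Int.ofNat (nat_lit 7685)), (Int.ofNat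
 (nat_lit 7222)), (Int.ofNat (nat_lit 6216)), (Int.ofNat (nat_lit 4743)), (Int.ofNat (nat_lit 2615)),
 (Int.negSucc (nat_lit 135)), (Int.negSucc (nat_lit 3839)), (Int.negSucc (nat_lit 8663)), (Int.negSucc
 (nat_lit 29999)), (Int.negSucc (nat_lit 29999))] [qL110_40_2_0, qL110_40_2_1, qL110_40_2_2, qL110_40_2_3,
 qL110_40_2_4, qL110_40_2_5, qL110_40_2_6, qL110_40_2_7, qL110_40_2_8, qL110_40_2_9, qL110_40_2_10,
 qL110_40_2_11, qL110_40_2_12, qL110_40_2_13, qL110_40_2_14, qL110_40_2_15, qL110_40_2_16, qL110_40_2_17,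
 qL110_40_2_18, qL110_40_2_19] = true :=
  chkPl_cons rfl hL110_40_2_0 (chkPl_cons rfl hL110_40_2_1 (chkPl_cons rfl hL110_40_2_2 (chkPl_cons rfl
 hL110_40_2_3 (chkPl_cons rfl hL110_40_2_4 (chkPl_cons rfl hL110_40_2_5 (chkPl_cons rfl hL110_40_2_6
 (chkPl_cons rfl hL110_40_2_7 (chkPl_cons rfl hL110_40_2_8 (chkPl_cons rfl hL110_40_2_9 (chkPl_cons rfl
 hL110_40_2_10 (chkPl_cons rfl hL110_40_2_11 (chkPl_cons rfl hL110_40_2_12 (chkPl_cons rfl hL110_40_2_13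
 (chkPl_cons rfl hL110_40_2_14 (chkPl_cons rfl hL110_40_2_15 (chkPl_cons rfl hL110_40_2_16 (chkPl_cons rfl
 hL110_40_2_17 (chkPl_cons rfl hL110_40_2_18 (chkPl_cons rfl hL110_40_2_19 chkPl_nil)))))))))))))))))))

theorem lL110_40_3 : chkPl ⟨(nat_lit 1), (nat_lit 1000), Int.ofNat (nat_lit 215), 0, ⟨0, 1⟩, ⟨Int.ofNat
 (nat_lit 40), 200⟩⟩ ⟨550000, 600000, 758108, 741800, 774776, 651638, 671103, 632738, 670820, 632455⟩ true 0
 0 [(nat_lit 50), (nat_lit 100), (nat_lit 150), (nat_lit 200), (nat_lit 250), (nat_lit 300), (nat_lit 350),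
 (nat_lit 400), (nat_lit 450), (nat_lit 500), (nat_lit 550), (nat_lit 600), (nat_lit 650), (nat_lit 700),
 (nat_lit 750), (nat_lit 800), (nat_lit 850), (nat_lit 900), (nat_lit 950), (nat_lit 1000)] [(Int.ofNat
 (nat_lit 7676)), (Int.ofNat (nat_lit 2424)), (Int.ofNat (nat_lit 2554)), (Int.ofNat (nat_lit 2591)),
 (Int.ofNat (nat_lit 2562)), (Int.ofNat (nat_lit 2413)), (Int.ofNat (nat_lit 2148)), (Int.ofNat (nat_lit
 1741)), (Int.ofNat (nat_lit 1197)), (Int.ofNat (nat_lit 504)), (Int.negSucc (nat_lit 380)), (Int.negSucc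
 (nat_lit 1440)), (Int.negSucc (nat_lit 2735)), (Int.negSucc (nat_lit 3024)), (Int.negSucc (nat_lit 2742)),
 (Int.negSucc (nat_lit 2566)), (Int.negSucc (nat_lit 2417)), (Int.negSucc (nat_lit 2859)), (Int.negSucc
 (nat_lit 29999)), (Int.negSucc (nat_lit 29999))] [qL110_40_3_0, qL110_40_3_1, qL110_40_3_2, qL110_40_3_3,
 qL110_40_3_4, qL110_40_3_5, qL110_40_3_6, qL110_40_3_7, qL110_40_3_8, qL110_40_3_9, qL110_40_3_10,
 qL110_40_3_11, qL110_40_3_12, qL110_40_3_13, qL110_40_3_14, qL110_40_3_15, qL110_40_3_16, qL110_40_3_17,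
 qL110_40_3_18, qL110_40_3_19] = true :=
  chkPl_cons rfl hL110_40_3_0 (chkPl_cons rfl hL110_40_3_1 (chkPl_cons rfl hL110_40_3_2 (chkPl_cons rfl
 hL110_40_3_3 (chkPl_cons rfl hL110_40_3_4 (chkPl_cons rfl hL110_40_3_5 (chkPl_cons rfl hL110_40_3_6
 (chkPl_cons rfl hL110_40_3_7 (chkPl_cons rfl hL110_40_3_8 (chkPl_cons rfl hL110_40_3_9 (chkPl_cons rfl
 hL110_40_3_10 (chkPl_cons rfl hL110_40_3_11 (chkPl_cons rfl hL110_40_3_12 (chkPl_cons rfl hL110_40_3_13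
 (chkPl_cons rfl hL110_40_3_14 (chkPl_cons rfl hL110_40_3_15 (chkPl_cons rfl hL110_40_3_16 (chkPl_cons rfl
 hL110_40_3_17 (chkPl_cons rfl hL110_40_3_18 (chkPl_cons rfl hL110_40_3_19 chkPl_nil)))))))))))))))))))

theorem lL110_40_4 : chkPl ⟨(nat_lit 1), (nat_lit 1000), Int.ofNat (nat_lit 250), 0, ⟨0, 1⟩, ⟨Int.ofNat
 (nat_lit 40), 200⟩⟩ ⟨550000, 600000, 758108, 741800, 774776, 651638, 671103, 632738, 670820, 632455⟩ true 0
 0 [(nat_lit 50), (nat_lit 100), (nat_lit 150), (nat_lit 200), (nat_lit 250), (nat_lit 300), (nat_lit 350),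
 (nat_lit 400), (nat_lit 450), (nat_lit 500), (nat_lit 550), (nat_lit 600), (nat_lit 650), (nat_lit 700),
 (nat_lit 750), (nat_lit 800), (nat_lit 850), (nat_lit 900), (nat_lit 950), (nat_lit 1000)] [(Int.ofNat
 (nat_lit 1381)), (Int.ofNat (nat_lit 1931)), (Int.ofNat (nat_lit 2171)), (Int.ofNat (nat_lit 2344)),
 (Int.ofNat (nat_lit 2411)), (Int.ofNat (nat_lit 2332)), (Int.ofNat (nat_lit 2114)), (Int.ofNat (nat_lit
 1733)), (Int.ofNat (nat_lit 1200)), (Int.ofNat (nat_lit 498)), (Int.negSucc (nat_lit 413)), (Int.negSucc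
 (nat_lit 1516)), (Int.negSucc (nat_lit 2874)), (Int.negSucc (nat_lit 3245)), (Int.negSucc (nat_lit 3086)),
 (Int.negSucc (nat_lit 3059)), (Int.negSucc (nat_lit 3174)), (Int.negSucc (nat_lit 3490)), (Int.negSucc
 (nat_lit 29999)), (Int.negSucc (nat_lit 29999))] [qL110_40_4_0, qL110_40_4_1, qL110_40_4_2, qL110_40_4_3,
 qL110_40_4_4, qL110_40_4_5, qL110_40_4_6, qL110_40_4_7, qL110_40_4_8, qL110_40_4_9, qL110_40_4_10,
 qL110_40_4_11, qL110_40_4_12, qL110_40_4_13, qL110_40_4_14, qL110_40_4_15, qL110_40_4_16, qL110_40_4_17,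
 qL110_40_4_18, qL110_40_4_19] = true :=
  chkPl_cons rfl hL110_40_4_0 (chkPl_cons rfl hL110_40_4_1 (chkPl_cons rfl hL110_40_4_2 (chkPl_cons rfl
 hL110_40_4_3 (chkPl_cons rfl hL110_40_4_4 (chkPl_cons rfl hL110_40_4_5 (chkPl_cons rfl hL110_40_4_6
 (chkPl_cons rfl hL110_40_4_7 (chkPl_cons rfl hL110_40_4_8 (chkPl_cons rfl hL110_40_4_9 (chkPl_cons rfl
 hL110_40_4_10 (chkPl_cons rfl hL110_40_4_11 (chkPl_cons rfl hL110_40_4_12 (chkPl_cons rfl hL110_40_4_13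
 (chkPl_cons rfl hL110_40_4_14 (chkPl_cons rfl hL110_40_4_15 (chkPl_cons rfl hL110_40_4_16 (chkPl_cons rfl
 hL110_40_4_17 (chkPl_cons rfl hL110_40_4_18 (chkPl_cons rfl hL110_40_4_19 chkPl_nil)))))))))))))))))))

theorem lL110_40_5 : chkPl ⟨(nat_lit 1), (nat_lit 1000), Int.ofNat (nat_lit 400), 0, ⟨0, 1⟩, ⟨Int.ofNat
 (nat_lit 40), 200⟩⟩ ⟨550000, 600000, 758108, 741800, 774776, 651638, 671103, 632738, 670820, 632455⟩ true 0
 0 [(nat_lit 50), (nat_lit 100), (nat_lit 150), (nat_lit 200), (nat_lit 250), (nat_lit 300), (nat_lit 350),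
 (nat_lit 400), (nat_lit 450), (nat_lit 500), (nat_lit 550), (nat_lit 600), (nat_lit 650), (nat_lit 700),
 (nat_lit 750), (nat_lit 800), (nat_lit 850), (nat_lit 900), (nat_lit 950), (nat_lit 1000)] [(Int.ofNat
 (nat_lit 260)), (Int.ofNat (nat_lit 599)), (Int.ofNat (nat_lit 1027)), (Int.ofNat (nat_lit 1559)),
 (Int.ofNat (nat_lit 1977)), (Int.ofNat (nat_lit 2054)), (Int.ofNat (nat_lit 1965)), (Int.ofNat (nat_lit
 1704)), (Int.ofNat (nat_lit 1205)), (Int.ofNat (nat_lit 471)), (Int.negSucc (nat_lit 555)), (Int.negSucc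
 (nat_lit 1843)), (Int.negSucc (nat_lit 3472)), (Int.negSucc (nat_lit 4195)), (Int.negSucc (nat_lit 4483)),
 (Int.negSucc (nat_lit 5023)), (Int.negSucc (nat_lit 5844)), (Int.negSucc (nat_lit 7078)), (Int.negSucc
 (nat_lit 29999)), (Int.negSucc (nat_lit 29999))] [qL110_40_5_0, qL110_40_5_1, qL110_40_5_2, qL110_40_5_3,
 qL110_40_5_4, qL110_40_5_5, qL110_40_5_6, qL110_40_5_7, qL110_40_5_8, qL110_40_5_9, qL110_40_5_10,
 qL110_40_5_11, qL110_40_5_12, qL110_40_5_13, qL110_40_5_14, qL110_40_5_15, qL110_40_5_16, qL110_40_5_17,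
 qL110_40_5_18, qL110_40_5_19] = true :=
  chkPl_cons rfl hL110_40_5_0 (chkPl_cons rfl hL110_40_5_1 (chkPl_cons rfl hL110_40_5_2 (chkPl_cons rfl
 hL110_40_5_3 (chkPl_cons rfl hL110_40_5_4 (chkPl_cons rfl hL110_40_5_5 (chkPl_cons rfl hL110_40_5_6
 (chkPl_cons rfl hL110_40_5_7 (chkPl_cons rfl hL110_40_5_8 (chkPl_cons rfl hL110_40_5_9 (chkPl_cons rfl
 hL110_40_5_10 (chkPl_cons rfl hL110_40_5_11 (chkPl_cons rfl hL110_40_5_12 (chkPl_cons rfl hL110_40_5_13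
 (chkPl_cons rfl hL110_40_5_14 (chkPl_cons rfl hL110_40_5_15 (chkPl_cons rfl hL110_40_5_16 (chkPl_cons rfl
 hL110_40_5_17 (chkPl_cons rfl hL110_40_5_18 (chkPl_cons rfl hL110_40_5_19 chkPl_nil)))))))))))))))))))

theorem lL110_40_6 : chkPl ⟨(nat_lit 1), (nat_lit 1000), Int.ofNat (nat_lit 1000), 0, ⟨0, 1⟩, ⟨Int.ofNat
 (nat_lit 40), 200⟩⟩ ⟨550000, 600000, 758108, 741800, 774776, 651638, 671103, 632738, 670820, 632455⟩ true 0
 0 [(nat_lit 50), (nat_lit 100), (nat_lit 150), (nat_lit 200), (nat_lit 250), (nat_lit 300), (nat_lit 350),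
 (nat_lit 400), (nat_lit 450), (nat_lit 500), (nat_lit 550), (nat_lit 600), (nat_lit 650), (nat_lit 700),
 (nat_lit 750), (nat_lit 800), (nat_lit 850), (nat_lit 900), (nat_lit 950), (nat_lit 1000)] [(Int.ofNat
 (nat_lit 76)), (Int.ofNat (nat_lit 215)), (Int.ofNat (nat_lit 417)), (Int.ofNat (nat_lit 683)), (Int.ofNat
 (nat_lit 1012)), (Int.ofNat (nat_lit 1420)), (Int.ofNat (nat_lit 1822)), (Int.ofNat (nat_lit 1602)),
 (Int.ofNat (nat_lit 1236)), (Int.ofNat (nat_lit 364)), (Int.negSucc (nat_lit 1124)), (Int.negSucc (nat_lit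
 3150)), (Int.negSucc (nat_lit 5861)), (Int.negSucc (nat_lit 7995)), (Int.negSucc (nat_lit 10070)),
 (Int.negSucc (nat_lit 12876)), (Int.negSucc (nat_lit 16523)), (Int.negSucc (nat_lit 21427)), (Int.negSucc
 (nat_lit 29999)), (Int.negSucc (nat_lit 29999))] [qL110_40_6_0, qL110_40_6_1, qL110_40_6_2, qL110_40_6_3,
 qL110_40_6_4, qL110_40_6_5, qL110_40_6_6, qL110_40_6_7, qL110_40_6_8, qL110_40_6_9, qL110_40_6_10,
 qL110_40_6_11, qL110_40_6_12, qL110_40_6_13, qL110_40_6_14, qL110_40_6_15, qL110_40_6_16, qL110_40_6_17,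
 qL110_40_6_18, qL110_40_6_19] = true :=
  chkPl_cons rfl hL110_40_6_0 (chkPl_cons rfl hL110_40_6_1 (chkPl_cons rfl hL110_40_6_2 (chkPl_cons rfl
 hL110_40_6_3 (chkPl_cons rfl hL110_40_6_4 (chkPl_cons rfl hL110_40_6_5 (chkPl_cons rfl hL110_40_6_6
 (chkPl_cons rfl hL110_40_6_7 (chkPl_cons rfl hL110_40_6_8 (chkPl_cons rfl hL110_40_6_9 (chkPl_cons rfl
 hL110_40_6_10 (chkPl_cons rfl hL110_40_6_11 (chkPl_cons rfl hL110_40_6_12 (chkPl_cons rfl hL110_40_6_13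
 (chkPl_cons rfl hL110_40_6_14 (chkPl_cons rfl hL110_40_6_15 (chkPl_cons rfl hL110_40_6_16 (chkPl_cons rfl
 hL110_40_6_17 (chkPl_cons rfl hL110_40_6_18 (chkPl_cons rfl hL110_40_6_19 chkPl_nil)))))))))))))))))))

def cL110_40 : chkII xL110_40 ⟨550000, 600000, 758108, 741800, 774776, 651638, 671103, 632738, 670820,
 632455⟩ [⟨[qL110_40_0_0, qL110_40_0_1, qL110_40_0_2, qL110_40_0_3, qL110_40_0_4, qL110_40_0_5,
 qL110_40_0_6, qL110_40_0_7, qL110_40_0_8, qL110_40_0_9, qL110_40_0_10, qL110_40_0_11, qL110_40_0_12,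
 qL110_40_0_13, qL110_40_0_14, qL110_40_0_15, qL110_40_0_16, qL110_40_0_17, qL110_40_0_18, qL110_40_0_19],
 []⟩, ⟨[qL110_40_1_0, qL110_40_1_1, qL110_40_1_2, qL110_40_1_3, qL110_40_1_4, qL110_40_1_5, qL110_40_1_6,
 qL110_40_1_7, qL110_40_1_8, qL110_40_1_9, qL110_40_1_10, qL110_40_1_11, qL110_40_1_12, qL110_40_1_13,
 qL110_40_1_14, qL110_40_1_15, qL110_40_1_16, qL110_40_1_17, qL110_40_1_18, qL110_40_1_19], []⟩,
 ⟨[qL110_40_2_0, qL110_40_2_1, qL110_40_2_2, qL110_40_2_3, qL110_40_2_4, qL110_40_2_5, qL110_40_2_6,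
 qL110_40_2_7, qL110_40_2_8, qL110_40_2_9, qL110_40_2_10, qL110_40_2_11, qL110_40_2_12, qL110_40_2_13,
 qL110_40_2_14, qL110_40_2_15, qL110_40_2_16, qL110_40_2_17, qL110_40_2_18, qL110_40_2_19], []⟩,
 ⟨[qL110_40_3_0, qL110_40_3_1, qL110_40_3_2, qL110_40_3_3, qL110_40_3_4, qL110_40_3_5, qL110_40_3_6,
 qL110_40_3_7, qL110_40_3_8, qL110_40_3_9, qL110_40_3_10, qL110_40_3_11, qL110_40_3_12, qL110_40_3_13,
 qL110_40_3_14, qL110_40_3_15, qL110_40_3_16, qL110_40_3_17, qL110_40_3_18, qL110_40_3_19], []⟩,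
 ⟨[qL110_40_4_0, qL110_40_4_1, qL110_40_4_2, qL110_40_4_3, qL110_40_4_4, qL110_40_4_5, qL110_40_4_6,
 qL110_40_4_7, qL110_40_4_8, qL110_40_4_9, qL110_40_4_10, qL110_40_4_11, qL110_40_4_12, qL110_40_4_13,
 qL110_40_4_14, qL110_40_4_15, qL110_40_4_16, qL110_40_4_17, qL110_40_4_18, qL110_40_4_19], []⟩,
 ⟨[qL110_40_5_0, qL110_40_5_1, qL110_40_5_2, qL110_40_5_3, qL110_40_5_4, qL110_40_5_5, qL110_40_5_6,
 qL110_40_5_7, qL110_40_5_8, qL110_40_5_9, qL110_40_5_10, qL110_40_5_11, qL110_40_5_12, qL110_40_5_13,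
 qL110_40_5_14, qL110_40_5_15, qL110_40_5_16, qL110_40_5_17, qL110_40_5_18, qL110_40_5_19], []⟩,
 ⟨[qL110_40_6_0, qL110_40_6_1, qL110_40_6_2, qL110_40_6_3, qL110_40_6_4, qL110_40_6_5, qL110_40_6_6,
 qL110_40_6_7, qL110_40_6_8, qL110_40_6_9, qL110_40_6_10, qL110_40_6_11, qL110_40_6_12, qL110_40_6_13,
 qL110_40_6_14, qL110_40_6_15, qL110_40_6_16, qL110_40_6_17, qL110_40_6_18, qL110_40_6_19], []⟩] = true :=
 chkII_mk (by decide +kernel) (chkCls_cons lL110_40_0 rfl (chkCls_cons lL110_40_1 rfl (chkCls_cons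
 lL110_40_2 rfl (chkCls_cons lL110_40_3 rfl (chkCls_cons lL110_40_4 rfl (chkCls_cons lL110_40_5 rfl
 (chkCls_cons lL110_40_6 rfl chkCls_nil)))))))

theorem II_xL110_40 : PropII xL110_40 := propII_of cL110_40

theorem lL110_60_0 : chkPl ⟨(nat_lit 3), (nat_lit 1000), Int.ofNat (nat_lit 260), 0, ⟨0, 1⟩, ⟨Int.ofNat
 (nat_lit 60), 200⟩⟩ ⟨550000, 600000, 758108, 741800, 774776, 651638, 671103, 632738, 670820, 632455⟩ true 0
 0 [(nat_lit 50), (nat_lit 100), (nat_lit 150), (nat_lit 200), (nat_lit 250), (nat_lit 300), (nat_lit 350),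
 (nat_lit 400), (nat_lit 450), (nat_lit 500), (nat_lit 550), (nat_lit 600), (nat_lit 650), (nat_lit 700),
 (nat_lit 750), (nat_lit 800), (nat_lit 850), (nat_lit 900), (nat_lit 950), (nat_lit 1000)] [(Int.ofNat
 (nat_lit 1953)), (Int.ofNat (nat_lit 1929)), (Int.ofNat (nat_lit 2739)), (Int.ofNat (nat_lit 3575)),
 (Int.ofNat (nat_lit 4393)), (Int.ofNat (nat_lit 5182)), (Int.ofNat (nat_lit 5935)), (Int.ofNat (nat_lit
 6633)), (Int.ofNat (nat_lit 7285)), (Int.ofNat (nat_lit 7871)), (Int.ofNat (nat_lit 8388)), (Int.ofNat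
 (nat_lit 8820)), (Int.ofNat (nat_lit 9164)), (Int.ofNat (nat_lit 9404)), (Int.ofNat (nat_lit 9531)),
 (Int.ofNat (nat_lit 9523)), (Int.ofNat (nat_lit 9376)), (Int.ofNat (nat_lit 9039)), (Int.ofNat (nat_lit
 8657)), (Int.negSucc (nat_lit 29999))] [qL110_60_0_0, qL110_60_0_1, qL110_60_0_2, qL110_60_0_3,
 qL110_60_0_4, qL110_60_0_5, qL110_60_0_6, qL110_60_0_7, qL110_60_0_8, qL110_60_0_9, qL110_60_0_10,
 qL110_60_0_11, qL110_60_0_12, qL110_60_0_13, qL110_60_0_14, qL110_60_0_15, qL110_60_0_16, qL110_60_0_17,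
 qL110_60_0_18, qL110_60_0_19] = true :=
  chkPl_cons rfl hL110_60_0_0 (chkPl_cons rfl hL110_60_0_1 (chkPl_cons rfl hL110_60_0_2 (chkPl_cons rfl
 hL110_60_0_3 (chkPl_cons rfl hL110_60_0_4 (chkPl_cons rfl hL110_60_0_5 (chkPl_cons rfl hL110_60_0_6
 (chkPl_cons rfl hL110_60_0_7 (chkPl_cons rfl hL110_60_0_8 (chkPl_cons rfl hL110_60_0_9 (chkPl_cons rfl
 hL110_60_0_10 (chkPl_cons rfl hL110_60_0_11 (chkPl_cons rfl hL110_60_0_12 (chkPl_cons rfl hL110_60_0_13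
 (chkPl_cons rfl hL110_60_0_14 (chkPl_cons rfl hL110_60_0_15 (chkPl_cons rfl hL110_60_0_16 (chkPl_cons rfl
 hL110_60_0_17 (chkPl_cons rfl hL110_60_0_18 (chkPl_cons rfl hL110_60_0_19 chkPl_nil)))))))))))))))))))

theorem lL110_60_1 : chkPl ⟨(nat_lit 3), (nat_lit 1000), Int.ofNat (nat_lit 400), 0, ⟨0, 1⟩, ⟨Int.ofNat
 (nat_lit 60), 200⟩⟩ ⟨550000, 600000, 758108, 741800, 774776, 651638, 671103, 632738, 670820, 632455⟩ true 0
 0 [(nat_lit 50), (nat_lit 100), (nat_lit 150), (nat_lit 200), (nat_lit 250), (nat_lit 300), (nat_lit 350),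
 (nat_lit 400), (nat_lit 450), (nat_lit 500), (nat_lit 550), (nat_lit 600), (nat_lit 650), (nat_lit 700),
 (nat_lit 750), (nat_lit 800), (nat_lit 850), (nat_lit 900), (nat_lit 950), (nat_lit 1000)] [(Int.ofNat
 (nat_lit 634)), (Int.ofNat (nat_lit 1352)), (Int.ofNat (nat_lit 2153)), (Int.ofNat (nat_lit 3038)),
 (Int.ofNat (nat_lit 4016)), (Int.ofNat (nat_lit 5032)), (Int.ofNat (nat_lit 5844)), (Int.ofNat (nat_lit
 6597)), (Int.ofNat (nat_lit 7297)), (Int.ofNat (nat_lit 7842)), (Int.ofNat (nat_lit 8260)), (Int.ofNat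
 (nat_lit 8510)), (Int.ofNat (nat_lit 8612)), (Int.ofNat (nat_lit 8515)), (Int.ofNat (nat_lit 8230)),
 (Int.ofNat (nat_lit 7687)), (Int.ofNat (nat_lit 6870)), (Int.ofNat (nat_lit 5641)), (Int.ofNat (nat_lit
 3831)), (Int.negSucc (nat_lit 29999))] [qL110_60_1_0, qL110_60_1_1, qL110_60_1_2, qL110_60_1_3,
 qL110_60_1_4, qL110_60_1_5, qL110_60_1_6, qL110_60_1_7, qL110_60_1_8, qL110_60_1_9, qL110_60_1_10,
 qL110_60_1_11, qL110_60_1_12, qL110_60_1_13, qL110_60_1_14, qL110_60_1_15, qL110_60_1_16, qL110_60_1_17,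
 qL110_60_1_18, qL110_60_1_19] = true :=
  chkPl_cons rfl hL110_60_1_0 (chkPl_cons rfl hL110_60_1_1 (chkPl_cons rfl hL110_60_1_2 (chkPl_cons rfl
 hL110_60_1_3 (chkPl_cons rfl hL110_60_1_4 (chkPl_cons rfl hL110_60_1_5 (chkPl_cons rfl hL110_60_1_6
 (chkPl_cons rfl hL110_60_1_7 (chkPl_cons rfl hL110_60_1_8 (chkPl_cons rfl hL110_60_1_9 (chkPl_cons rfl
 hL110_60_1_10 (chkPl_cons rfl hL110_60_1_11 (chkPl_cons rfl hL110_60_1_12 (chkPl_cons rfl hL110_60_1_13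
 (chkPl_cons rfl hL110_60_1_14 (chkPl_cons rfl hL110_60_1_15 (chkPl_cons rfl hL110_60_1_16 (chkPl_cons rfl
 hL110_60_1_17 (chkPl_cons rfl hL110_60_1_18 (chkPl_cons rfl hL110_60_1_19 chkPl_nil)))))))))))))))))))

theorem lL110_60_2 : chkPl ⟨(nat_lit 3), (nat_lit 1000), Int.ofNat (nat_lit 1000), 0, ⟨0, 1⟩, ⟨Int.ofNat
 (nat_lit 60), 200⟩⟩ ⟨550000, 600000, 758108, 741800, 774776, 651638, 671103, 632738, 670820, 632455⟩ true 0
 0 [(nat_lit 50), (nat_lit 100), (nat_lit 150), (nat_lit 200), (nat_lit 250), (nat_lit 300), (nat_lit 350),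
 (nat_lit 400), (nat_lit 450), (nat_lit 500), (nat_lit 550), (nat_lit 600), (nat_lit 650), (nat_lit 700),
 (nat_lit 750), (nat_lit 800), (nat_lit 850), (nat_lit 900), (nat_lit 950), (nat_lit 1000)] [(Int.ofNat
 (nat_lit 583)), (Int.ofNat (nat_lit 1240)), (Int.ofNat (nat_lit 1974)), (Int.ofNat (nat_lit 2782)),
 (Int.ofNat (nat_lit 3667)), (Int.ofNat (nat_lit 4627)), (Int.ofNat (nat_lit 5710)), (Int.ofNat (nat_lit
 6585)), (Int.ofNat (nat_lit 7327)), (Int.ofNat (nat_lit 7736)), (Int.ofNat (nat_lit 7690)), (Int.ofNat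
 (nat_lit 7203)), (Int.ofNat (nat_lit 6222)), (Int.ofNat (nat_lit 4728)), (Int.ofNat (nat_lit 2630)),
 (Int.negSucc (nat_lit 152)), (Int.negSucc (nat_lit 3822)), (Int.negSucc (nat_lit 8662)), (Int.negSucc
 (nat_lit 15477)), (Int.negSucc (nat_lit 29999))] [qL110_60_2_0, qL110_60_2_1, qL110_60_2_2, qL110_60_2_3,
 qL110_60_2_4, qL110_60_2_5, qL110_60_2_6, qL110_60_2_7, qL110_60_2_8, qL110_60_2_9, qL110_60_2_10,
 qL110_60_2_11, qL110_60_2_12, qL110_60_2_13, qL110_60_2_14, qL110_60_2_15, qL110_60_2_16, qL110_60_2_17,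
 qL110_60_2_18, qL110_60_2_19] = true :=
  chkPl_cons rfl hL110_60_2_0 (chkPl_cons rfl hL110_60_2_1 (chkPl_cons rfl hL110_60_2_2 (chkPl_cons rfl
 hL110_60_2_3 (chkPl_cons rfl hL110_60_2_4 (chkPl_cons rfl hL110_60_2_5 (chkPl_cons rfl hL110_60_2_6
 (chkPl_cons rfl hL110_60_2_7 (chkPl_cons rfl hL110_60_2_8 (chkPl_cons rfl hL110_60_2_9 (chkPl_cons rfl
 hL110_60_2_10 (chkPl_cons rfl hL110_60_2_11 (chkPl_cons rfl hL110_60_2_12 (chkPl_cons rfl hL110_60_2_13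
 (chkPl_cons rfl hL110_60_2_14 (chkPl_cons rfl hL110_60_2_15 (chkPl_cons rfl hL110_60_2_16 (chkPl_cons rfl
 hL110_60_2_17 (chkPl_cons rfl hL110_60_2_18 (chkPl_cons rfl hL110_60_2_19 chkPl_nil)))))))))))))))))))

theorem lL110_60_3 : chkPl ⟨(nat_lit 1), (nat_lit 1000), Int.ofNat (nat_lit 230), 0, ⟨0, 1⟩, ⟨Int.ofNat
 (nat_lit 60), 200⟩⟩ ⟨550000, 600000, 758108, 741800, 774776, 651638, 671103, 632738, 670820, 632455⟩ true 0
 0 [(nat_lit 50), (nat_lit 100), (nat_lit 150), (nat_lit 200), (nat_lit 250), (nat_lit 300), (nat_lit 350),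
 (nat_lit 400), (nat_lit 450), (nat_lit 500), (nat_lit 550), (nat_lit 600), (nat_lit 650), (nat_lit 700),
 (nat_lit 750), (nat_lit 800), (nat_lit 850), (nat_lit 900), (nat_lit 950), (nat_lit 1000)] [(Int.ofNat
 (nat_lit 19054)), (Int.ofNat (nat_lit 2198)), (Int.ofNat (nat_lit 2374)), (Int.ofNat (nat_lit 2501)),
 (Int.ofNat (nat_lit 2482)), (Int.ofNat (nat_lit 2382)), (Int.ofNat (nat_lit 2130)), (Int.ofNat (nat_lit
 1737)), (Int.ofNat (nat_lit 1197)), (Int.ofNat (nat_lit 501)), (Int.negSucc (nat_lit 394)), (Int.negSucc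
 (nat_lit 1472)), (Int.negSucc (nat_lit 2795)), (Int.negSucc (nat_lit 3107)), (Int.negSucc (nat_lit 2871)),
 (Int.negSucc (nat_lit 2797)), (Int.negSucc (nat_lit 2758)), (Int.negSucc (nat_lit 2806)), (Int.negSucc
 (nat_lit 3065)), (Int.negSucc (nat_lit 29999))] [qL110_60_3_0, qL110_60_3_1, qL110_60_3_2, qL110_60_3_3,
 qL110_60_3_4, qL110_60_3_5, qL110_60_3_6, qL110_60_3_7, qL110_60_3_8, qL110_60_3_9, qL110_60_3_10,
 qL110_60_3_11, qL110_60_3_12, qL110_60_3_13, qL110_60_3_14, qL110_60_3_15, qL110_60_3_16, qL110_60_3_17,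
 qL110_60_3_18, qL110_60_3_19] = true :=
  chkPl_cons rfl hL110_60_3_0 (chkPl_cons rfl hL110_60_3_1 (chkPl_cons rfl hL110_60_3_2 (chkPl_cons rfl
 hL110_60_3_3 (chkPl_cons rfl hL110_60_3_4 (chkPl_cons rfl hL110_60_3_5 (chkPl_cons rfl hL110_60_3_6
 (chkPl_cons rfl hL110_60_3_7 (chkPl_cons rfl hL110_60_3_8 (chkPl_cons rfl hL110_60_3_9 (chkPl_cons rfl
 hL110_60_3_10 (chkPl_cons rfl hL110_60_3_11 (chkPl_cons rfl hL110_60_3_12 (chkPl_cons rfl hL110_60_3_13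
 (chkPl_cons rfl hL110_60_3_14 (chkPl_cons rfl hL110_60_3_15 (chkPl_cons rfl hL110_60_3_16 (chkPl_cons rfl
 hL110_60_3_17 (chkPl_cons rfl hL110_60_3_18 (chkPl_cons rfl hL110_60_3_19 chkPl_nil)))))))))))))))))))

theorem lL110_60_4 : chkPl ⟨(nat_lit 1), (nat_lit 1000), Int.ofNat (nat_lit 250), 0, ⟨0, 1⟩, ⟨Int.ofNat
 (nat_lit 60), 200⟩⟩ ⟨550000, 600000, 758108, 741800, 774776, 651638, 671103, 632738, 670820, 632455⟩ true 0
 0 [(nat_lit 50), (nat_lit 100), (nat_lit 150), (nat_lit 200), (nat_lit 250), (nat_lit 300), (nat_lit 350),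
 (nat_lit 400), (nat_lit 450), (nat_lit 500), (nat_lit 550), (nat_lit 600), (nat_lit 650), (nat_lit 700),
 (nat_lit 750), (nat_lit 800), (nat_lit 850), (nat_lit 900), (nat_lit 950), (nat_lit 1000)] [(Int.ofNat
 (nat_lit 2339)), (Int.ofNat (nat_lit 1871)), (Int.ofNat (nat_lit 2164)), (Int.ofNat (nat_lit 2351)),
 (Int.ofNat (nat_lit 2396)), (Int.ofNat (nat_lit 2334)), (Int.ofNat (nat_lit 2113)), (Int.ofNat (nat_lit
 1733)), (Int.ofNat (nat_lit 1199)), (Int.ofNat (nat_lit 498)), (Int.negSucc (nat_lit 413)), (Int.negSucc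
 (nat_lit 1516)), (Int.negSucc (nat_lit 2874)), (Int.negSucc (nat_lit 3245)), (Int.negSucc (nat_lit 3086)),
 (Int.negSucc (nat_lit 3053)), (Int.negSucc (nat_lit 3156)), (Int.negSucc (nat_lit 3380)), (Int.negSucc
 (nat_lit 3729)), (Int.negSucc (nat_lit 29999))] [qL110_60_4_0, qL110_60_4_1, qL110_60_4_2, qL110_60_4_3,
 qL110_60_4_4, qL110_60_4_5, qL110_60_4_6, qL110_60_4_7, qL110_60_4_8, qL110_60_4_9, qL110_60_4_10,
 qL110_60_4_11, qL110_60_4_12, qL110_60_4_13, qL110_60_4_14, qL110_60_4_15, qL110_60_4_16, qL110_60_4_17,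
 qL110_60_4_18, qL110_60_4_19] = true :=
  chkPl_cons rfl hL110_60_4_0 (chkPl_cons rfl hL110_60_4_1 (chkPl_cons rfl hL110_60_4_2 (chkPl_cons rfl
 hL110_60_4_3 (chkPl_cons rfl hL110_60_4_4 (chkPl_cons rfl hL110_60_4_5 (chkPl_cons rfl hL110_60_4_6
 (chkPl_cons rfl hL110_60_4_7 (chkPl_cons rfl hL110_60_4_8 (chkPl_cons rfl hL110_60_4_9 (chkPl_cons rfl
 hL110_60_4_10 (chkPl_cons rfl hL110_60_4_11 (chkPl_cons rfl hL110_60_4_12 (chkPl_cons rfl hL110_60_4_13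
 (chkPl_cons rfl hL110_60_4_14 (chkPl_cons rfl hL110_60_4_15 (chkPl_cons rfl hL110_60_4_16 (chkPl_cons rfl
 hL110_60_4_17 (chkPl_cons rfl hL110_60_4_18 (chkPl_cons rfl hL110_60_4_19 chkPl_nil)))))))))))))))))))

theorem lL110_60_5 : chkPl ⟨(nat_lit 1), (nat_lit 1000), Int.ofNat (nat_lit 400), 0, ⟨0, 1⟩, ⟨Int.ofNat
 (nat_lit 60), 200⟩⟩ ⟨550000, 600000, 758108, 741800, 774776, 651638, 671103, 632738, 670820, 632455⟩ true 0
 0 [(nat_lit 50), (nat_lit 100), (nat_lit 150), (nat_lit 200), (nat_lit 250), (nat_lit 300), (nat_lit 350),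
 (nat_lit 400), (nat_lit 450), (nat_lit 500), (nat_lit 550), (nat_lit 600), (nat_lit 650), (nat_lit 700),
 (nat_lit 750), (nat_lit 800), (nat_lit 850), (nat_lit 900), (nat_lit 950), (nat_lit 1000)] [(Int.ofNat
 (nat_lit 260)), (Int.ofNat (nat_lit 599)), (Int.ofNat (nat_lit 1027)), (Int.ofNat (nat_lit 1567)),
 (Int.ofNat (nat_lit 1977)), (Int.ofNat (nat_lit 2054)), (Int.ofNat (nat_lit 1968)), (Int.ofNat (nat_lit
 1704)), (Int.ofNat (nat_lit 1205)), (Int.ofNat (nat_lit 471)), (Int.negSucc (nat_lit 555)), (Int.negSucc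
 (nat_lit 1843)), (Int.negSucc (nat_lit 3472)), (Int.negSucc (nat_lit 4204)), (Int.negSucc (nat_lit 4470)),
 (Int.negSucc (nat_lit 5033)), (Int.negSucc (nat_lit 5829)), (Int.negSucc (nat_lit 7083)), (Int.negSucc
 (nat_lit 8861)), (Int.negSucc (nat_lit 29999))] [qL110_60_5_0, qL110_60_5_1, qL110_60_5_2, qL110_60_5_3,
 qL110_60_5_4, qL110_60_5_5, qL110_60_5_6, qL110_60_5_7, qL110_60_5_8, qL110_60_5_9, qL110_60_5_10,
 qL110_60_5_11, qL110_60_5_12, qL110_60_5_13, qL110_60_5_14, qL110_60_5_15, qL110_60_5_16, qL110_60_5_17,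
 qL110_60_5_18, qL110_60_5_19] = true :=
  chkPl_cons rfl hL110_60_5_0 (chkPl_cons rfl hL110_60_5_1 (chkPl_cons rfl hL110_60_5_2 (chkPl_cons rfl
 hL110_60_5_3 (chkPl_cons rfl hL110_60_5_4 (chkPl_cons rfl hL110_60_5_5 (chkPl_cons rfl hL110_60_5_6
 (chkPl_cons rfl hL110_60_5_7 (chkPl_cons rfl hL110_60_5_8 (chkPl_cons rfl hL110_60_5_9 (chkPl_cons rfl
 hL110_60_5_10 (chkPl_cons rfl hL110_60_5_11 (chkPl_cons rfl hL110_60_5_12 (chkPl_cons rfl hL110_60_5_13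
 (chkPl_cons rfl hL110_60_5_14 (chkPl_cons rfl hL110_60_5_15 (chkPl_cons rfl hL110_60_5_16 (chkPl_cons rfl
 hL110_60_5_17 (chkPl_cons rfl hL110_60_5_18 (chkPl_cons rfl hL110_60_5_19 chkPl_nil)))))))))))))))))))

theorem lL110_60_6 : chkPl ⟨(nat_lit 1), (nat_lit 1000), Int.ofNat (nat_lit 1000), 0, ⟨0, 1⟩, ⟨Int.ofNat
 (nat_lit 60), 200⟩⟩ ⟨550000, 600000, 758108, 741800, 774776, 651638, 671103, 632738, 670820, 632455⟩ true 0
 0 [(nat_lit 50), (nat_lit 100), (nat_lit 150), (nat_lit 200), (nat_lit 250), (nat_lit 300), (nat_lit 350),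
 (nat_lit 400), (nat_lit 450), (nat_lit 500), (nat_lit 550), (nat_lit 600), (nat_lit 650), (nat_lit 700),
 (nat_lit 750), (nat_lit 800), (nat_lit 850), (nat_lit 900), (nat_lit 950), (nat_lit 1000)] [(Int.ofNat
 (nat_lit 76)), (Int.ofNat (nat_lit 215)), (Int.ofNat (nat_lit 417)), (Int.ofNat (nat_lit 683)), (Int.ofNat
 (nat_lit 1012)), (Int.ofNat (nat_lit 1420)), (Int.ofNat (nat_lit 1822)), (Int.ofNat (nat_lit 1602)),
 (Int.ofNat (nat_lit 1236)), (Int.ofNat (nat_lit 364)), (Int.negSucc (nat_lit 1118)), (Int.negSucc (nat_lit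
 3144)), (Int.negSucc (nat_lit 5861)), (Int.negSucc (nat_lit 8024)), (Int.negSucc (nat_lit 10026)),
 (Int.negSucc (nat_lit 12912)), (Int.negSucc (nat_lit 16471)), (Int.negSucc (nat_lit 21439)), (Int.negSucc
 (nat_lit 28100)), (Int.negSucc (nat_lit 29999))] [qL110_60_6_0, qL110_60_6_1, qL110_60_6_2, qL110_60_6_3,
 qL110_60_6_4, qL110_60_6_5, qL110_60_6_6, qL110_60_6_7, qL110_60_6_8, qL110_60_6_9, qL110_60_6_10,
 qL110_60_6_11, qL110_60_6_12, qL110_60_6_13, qL110_60_6_14, qL110_60_6_15, qL110_60_6_16, qL110_60_6_17,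
 qL110_60_6_18, qL110_60_6_19] = true :=
  chkPl_cons rfl hL110_60_6_0 (chkPl_cons rfl hL110_60_6_1 (chkPl_cons rfl hL110_60_6_2 (chkPl_cons rfl
 hL110_60_6_3 (chkPl_cons rfl hL110_60_6_4 (chkPl_cons rfl hL110_60_6_5 (chkPl_cons rfl hL110_60_6_6
 (chkPl_cons rfl hL110_60_6_7 (chkPl_cons rfl hL110_60_6_8 (chkPl_cons rfl hL110_60_6_9 (chkPl_cons rfl
 hL110_60_6_10 (chkPl_cons rfl hL110_60_6_11 (chkPl_cons rfl hL110_60_6_12 (chkPl_cons rfl hL110_60_6_13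
 (chkPl_cons rfl hL110_60_6_14 (chkPl_cons rfl hL110_60_6_15 (chkPl_cons rfl hL110_60_6_16 (chkPl_cons rfl
 hL110_60_6_17 (chkPl_cons rfl hL110_60_6_18 (chkPl_cons rfl hL110_60_6_19 chkPl_nil)))))))))))))))))))

def cL110_60 : chkII xL110_60 ⟨550000, 600000, 758108, 741800, 774776, 651638, 671103, 632738, 670820,
 632455⟩ [⟨[qL110_60_0_0, qL110_60_0_1, qL110_60_0_2, qL110_60_0_3, qL110_60_0_4, qL110_60_0_5,
 qL110_60_0_6, qL110_60_0_7, qL110_60_0_8, qL110_60_0_9, qL110_60_0_10, qL110_60_0_11, qL110_60_0_12,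
 qL110_60_0_13, qL110_60_0_14, qL110_60_0_15, qL110_60_0_16, qL110_60_0_17, qL110_60_0_18, qL110_60_0_19],
 []⟩, ⟨[qL110_60_1_0, qL110_60_1_1, qL110_60_1_2, qL110_60_1_3, qL110_60_1_4, qL110_60_1_5, qL110_60_1_6,
 qL110_60_1_7, qL110_60_1_8, qL110_60_1_9, qL110_60_1_10, qL110_60_1_11, qL110_60_1_12, qL110_60_1_13,
 qL110_60_1_14, qL110_60_1_15, qL110_60_1_16, qL110_60_1_17, qL110_60_1_18, qL110_60_1_19], []⟩,
 ⟨[qL110_60_2_0, qL110_60_2_1, qL110_60_2_2, qL110_60_2_3, qL110_60_2_4, qL110_60_2_5, qL110_60_2_6,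
 qL110_60_2_7, qL110_60_2_8, qL110_60_2_9, qL110_60_2_10, qL110_60_2_11, qL110_60_2_12, qL110_60_2_13,
 qL110_60_2_14, qL110_60_2_15, qL110_60_2_16, qL110_60_2_17, qL110_60_2_18, qL110_60_2_19], []⟩,
 ⟨[qL110_60_3_0, qL110_60_3_1, qL110_60_3_2, qL110_60_3_3, qL110_60_3_4, qL110_60_3_5, qL110_60_3_6,
 qL110_60_3_7, qL110_60_3_8, qL110_60_3_9, qL110_60_3_10, qL110_60_3_11, qL110_60_3_12, qL110_60_3_13,
 qL110_60_3_14, qL110_60_3_15, qL110_60_3_16, qL110_60_3_17, qL110_60_3_18, qL110_60_3_19], []⟩,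
 ⟨[qL110_60_4_0, qL110_60_4_1, qL110_60_4_2, qL110_60_4_3, qL110_60_4_4, qL110_60_4_5, qL110_60_4_6,
 qL110_60_4_7, qL110_60_4_8, qL110_60_4_9, qL110_60_4_10, qL110_60_4_11, qL110_60_4_12, qL110_60_4_13,
 qL110_60_4_14, qL110_60_4_15, qL110_60_4_16, qL110_60_4_17, qL110_60_4_18, qL110_60_4_19], []⟩,
 ⟨[qL110_60_5_0, qL110_60_5_1, qL110_60_5_2, qL110_60_5_3, qL110_60_5_4, qL110_60_5_5, qL110_60_5_6,
 qL110_60_5_7, qL110_60_5_8, qL110_60_5_9, qL110_60_5_10, qL110_60_5_11, qL110_60_5_12, qL110_60_5_13,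
 qL110_60_5_14, qL110_60_5_15, qL110_60_5_16, qL110_60_5_17, qL110_60_5_18, qL110_60_5_19], []⟩,
 ⟨[qL110_60_6_0, qL110_60_6_1, qL110_60_6_2, qL110_60_6_3, qL110_60_6_4, qL110_60_6_5, qL110_60_6_6,
 qL110_60_6_7, qL110_60_6_8, qL110_60_6_9, qL110_60_6_10, qL110_60_6_11, qL110_60_6_12, qL110_60_6_13,
 qL110_60_6_14, qL110_60_6_15, qL110_60_6_16, qL110_60_6_17, qL110_60_6_18, qL110_60_6_19], []⟩] = true :=
 chkII_mk (by decide +kernel) (chkCls_cons lL110_60_0 rfl (chkCls_cons lL110_60_1 rfl (chkCls_cons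
 lL110_60_2 rfl (chkCls_cons lL110_60_3 rfl (chkCls_cons lL110_60_4 rfl (chkCls_cons lL110_60_5 rfl
 (chkCls_cons lL110_60_6 rfl chkCls_nil)))))))

theorem II_xL110_60 : PropII xL110_60 := propII_of cL110_60

end CB
end Pool.Agent.Lib.MP_6947cd_al
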