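import Pool.Agent.Lib.MP_6947cd_al.L.PairA
import Pool.Agent.Lib.MP_6947cd_al.L.BoxLib
import Pool.Agent.Lib.MP_6947cd_al.PS.L120_40_0
import Pool.Agent.Lib.MP_6947cd_al.PS.L120_40_1

/-!
Problem MP_6947cd_al (Chollet).  Library of pair functions: certificates (generated).
-/

set_option autoImplicit false
set_option linter.defProp false
set_option maxRecDepth 100000

namespace Pool.Agent.Lib.MP_6947cd_al
namespace CB

open CA

def cL120_20 : chkII xL120_20 ⟨600000, 650000, 790411, 774755, 806384, 612032, 632797, 591949, 632455,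
 591607⟩ [⟨[.one ⟨2008000, 251, 502000, 374291, 0, 0, 0, 100000, 0, 50000⟩ ⟨50000, (.aff 1414214 707107),
 (.aff 707107 1414214), (.pol), (.pol), (.aff 0 632456 1581138), (.aff 0 1414214 707107), (.pol), (.pol),
 (.pol)⟩, .one ⟨2008000, 251, 502000, 410836, -1828, 0, 0, 100000, 50000, 100000⟩ ⟨0, .pol, .pol, .pol, .pol,
 (.sx 50000 (.aff 0 1414214 707107) (.sy 75000 (.aff 0 790570 1264911) (.aff 0 1000000 1000000))), .pol,
 (.pol), (.sx 50000 (.pol) (.pol)), .pol⟩, .one ⟨2008000, 251, 502000, 342564, 4999, 0, 0, 100000, 100000,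
 150000⟩ ⟨0, .pol, .pol, .pol, .pol, (.sy 125000 (.sx 50000 (.aff 0 2121321 471405) (.aff 175000 935463
 727581)) (.sx 50000 (.aff 0 2345208 426402) (.aff 250000 916962 613439))), .pol, (.pol), (.pol), .pol⟩, .one
 ⟨2008000, 251, 502000, 322083, 8072, 0, 0, 100000, 150000, 200000⟩ ⟨0, .pol, .pol, .pol, .pol, (.sy 175000
 (.sx 50000 (.aff 250000 1561250 360289) (.aff 337000 1016917 432257)) (.sx 50000 (.aff 325000 1509346 301870)
 (.aff 375000 1082532 360844))), .pol, (.pol), (.pol), .pol⟩, .one ⟨2008000, 251, 502000, 318067, 8875, 0, 0,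
 100000, 200000, 250000⟩ ⟨0, .pol, .pol, .pol, .pol, (.sy 225000 (.sx 50000 (.aff 400000 1428286 252051) (.aff
 1000000 0 0)) (.sy 237500 (.sy 231250 (.sy 228125 (.sx 50000 (.aff 400000 1438376 250283) (.aff 1000000 0 0))
 (.sx 50000 (.sx 25000 (.aff 500000 1750000 142858) (.aff 500000 1355545 184428)) (.aff 1000000 0 0))) (.sy
 234375 (.sy 232812 (.sx 50000 (.sx 25000 (.aff 500000 1758905 142134) (.aff 500000 1243734 201008)) (.aff
 1000000 0 0)) (.sx 50000 (.sx 25000 (.aff 500000 1764818 141658) (.aff 500000 1247915 200335)) (.aff 1000000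
 0 0))) (.sx 50000 (.aff 497000 1535615 164761) (.aff 1000000 0 0)))) (.sx 50000 (.aff 494000 1540975 166152)
 (.aff 1000000 0 0)))), .pol, (.pol), (.pol), .pol⟩, .one ⟨2008000, 251, 502000, 302404, 12790, 0, 0, 100000,
 250000, 300000⟩ ⟨0, .pol, .pol, .pol, .pol, (.sy 275000 (.sy 262500 (.sx 50000 (.aff 538000 1554958 137267)
 (.aff 1000000 0 0)) (.sy 268750 (.sy 265625 (.sx 50000 (.sx 25000 (.aff 500000 1876389 133235) (.aff 1000000
 0 0)) (.aff 1000000 0 0)) (.sx 50000 (.sx 25000 (.aff 500000 1887459 132454) (.aff 1000000 0 0)) (.aff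
 1000000 0 0))) (.sx 50000 (.aff 588000 1633255 103930) (.aff 1000000 0 0)))) (.sx 50000 (.aff 603000 1638741
 96177) (.aff 1000000 0 0))), .pol, (.pol), (.pol), .pol⟩, .one ⟨2008000, 251, 502000, 285939, 17730, 0, 0,
 100000, 300000, 350000⟩ ⟨0, .pol, .pol, .pol, .pol, (.sy 325000 (.sx 50000 (.aff 700000 1742752 51643) (.aff
 1000000 0 0)) (.sx 50000 (.aff 750000 1797909 34763) (.aff 1000000 0 0))), .pol, (.pol), (.pol), .pol⟩, .one
 ⟨2008000, 251, 502000, 269875, 23353, 0, 0, 100000, 350000, 400000⟩ ⟨0, .pol, .pol, .pol, .pol, (.sx 50000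
 (.sx 25000 (.aff 900000 1645450 6078) (.aff 1000000 0 0)) (.aff 1000000 0 0)), .pol, (.pol), (.pol), .pol⟩,
 .one ⟨2008000, 251, 502000, 248992, 31706, 0, 0, 100000, 400000, 450000⟩ ⟨0, .pol, .pol, .pol, .pol, (.sx
 50000 (.sx 25000 (.sx 12500 (.aff 1100000 1835229 5449) (.aff 1000000 0 0)) (.aff 1000000 0 0)) (.aff 1000000
 0 0)), .pol, (.pol), (.pol), .pol⟩, .one ⟨2008000, 251, 502000, 224896, 42549, 0, 0, 100000, 450000, 500000⟩
 ⟨0, .pol, .pol, .pol, .pol, (.sx 50000 (.aff 1256000 2413832 27151) (.aff 1000000 0 0)), .pol, (.pol),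
 (.pol), .pol⟩, .one ⟨2008000, 251, 502000, 200398, 54798, 0, 0, 100000, 500000, 550000⟩ ⟨0, .pol, .pol, .pol,
 .pol, (.sx 50000 (.sx 25000 (.sx 12500 (.aff 1500000 3741658 66816) (.aff 1500000 2645752 94492)) (.aff
 1000000 0 0)) (.aff 1000000 0 0)), .pol, (.pol), (.pol), .pol⟩, .one ⟨2008000, 251, 502000, 172286, 70259, 0,
 0, 100000, 550000, 600000⟩ ⟨0, .pol, .pol, .pol, .pol, (.sy 575000 (.sx 50000 (.aff 1597000 2831820 125859)
 (.aff 1000000 0 0)) (.sy 587500 (.sx 50000 (.sx 25000 (.aff 2000000 5567765 179606) (.aff 1650000 2803302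
 150716)) (.aff 1000000 0 0)) (.sx 50000 (.sx 25000 (.aff 2000000 5627315 177705) (.sx 37500 (.aff 2000000
 4156048 240614) (.aff 1500000 1841971 135725))) (.aff 1000000 0 0)))), .pol, (.pol), (.pol), .pol⟩, .one
 ⟨2008000, 251, 502000, 143371, 87609, 0, 0, 100000, 600000, 650000⟩ ⟨0, .pol, .pol, .pol, .pol, (.sx 50000
 (.aff 1950000 3358758 268701) (.aff 1900000 2846050 284605)), .pol, (.pol), (.pol), .pol⟩, .one ⟨2008000,
 251, 502000, 109235, 109797, 0, 0, 100000, 650000, 700000⟩ ⟨0, .pol, .pol, .pol, .pol, (.sx 50000 (.aff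
 2000000 4242641 235703) (.aff 2075000 3225001 358334)), .pol, (.pol), (.pol), .pol⟩, .one ⟨2008000, 251,
 502000, 72288, 135660, 0, 0, 100000, 700000, 750000⟩ ⟨0, .pol, .pol, .pol, .pol, (.aff 2400000 3769616
 519947), .pol, (.pol), (.pol), .pol⟩, .one ⟨2008000, 251, 502000, -15845530, 12074023, 0, 0, 100000, 750000,
 800000⟩ ⟨0, .pol, .pol, .pol, .pol, (.inf 3149604 317501), .pol, (.pol), (.inf 3149604 317501), .pol⟩, .one
 ⟨2008000, 251, 502000, 0, -602400, 0, 0, 100000, 800000, 850000⟩ ⟨0, .pol, .pol, .pol, .pol, (.inf 4062020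
 246183), .pol, (.pol), (.inf 4062020 246183), .pol⟩, .one ⟨2008000, 251, 502000, 0, -602400, 0, 0, 100000,
 850000, 900000⟩ ⟨0, .pol, .pol, .pol, .pol, (.aff 35000000 142232205 8127555), .pol, (.pol), (.inf 4183301
 239046), .pol⟩, .one ⟨2008000, 251, 502000, 0, -602400, 0, 0, 100000, 900000, 950000⟩ ⟨0, .pol, .pol, .pol,
 .pol, (.aff 20000000 66725808 5410201), .pol, (.pol), (.inf 4301163 232496), .pol⟩, .one ⟨2008000, 251,
 502000, 0, -602400, 0, 0, 100000, 950000, 1000000⟩ ⟨0, .pol, .pol, .pol, .pol, (.aff 20000000 83901729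
 4302653), .pol, (.pol), (.inf 4415881 226456), .pol⟩], []⟩, ⟨[.one ⟨2008000, 251, 803200, 267465, 0, 0, 0,
 100000, 0, 50000⟩ ⟨25000, (.aff 3162278 316228), (.pol), (.pol), (.pol), (.aff 0 632456 1581138), (.aff 0
 3841565 260311), (.pol), (.pol), (.pol)⟩, .one ⟨2008000, 251, 803200, 301601, -1707, 0, 0, 100000, 50000,
 100000⟩ ⟨0, .pol, .pol, .pol, .pol, (.sx 50000 (.sy 75000 (.aff 0 3803680 262904) (.aff 0 3707861 269698))
 (.aff 0 1000000 1000000)), .pol, (.pol), (.sx 50000 (.pol) (.pol)), .pol⟩, .one ⟨2008000, 251, 803200,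
 335737, -5121, 0, 0, 100000, 100000, 150000⟩ ⟨0, .pol, .pol, .pol, .pol, (.sx 50000 (.sy 125000 (.aff 0
 3687182 271210) (.aff 0 3597351 277983)) (.aff 0 1290995 774597)), .pol, (.pol), (.pol), .pol⟩, .one
 ⟨2008000, 251, 803200, 370676, -10362, 0, 0, 100000, 150000, 200000⟩ ⟨0, .pol, .pol, .pol, .pol, (.sx 50000
 (.sx 25000 (.aff 0 3603944 277474) (.aff 0 2366432 422578)) (.aff 0 1527526 654654)), .pol, (.pol), (.pol),
 .pol⟩, .one ⟨2008000, 251, 803200, 403608, -16948, 0, 0, 100000, 200000, 250000⟩ ⟨0, .pol, .pol, .pol, .pol,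
 (.sx 50000 (.sx 25000 (.aff 0 3551796 281548) (.aff 250000 2012462 279509)) (.aff 0 1732051 577351)), .pol,
 (.pol), (.pol), .pol⟩, .one ⟨2008000, 251, 803200, 348187, -3093, 0, 0, 100000, 250000, 300000⟩ ⟨0, .pol,
 .pol, .pol, .pol, (.sx 50000 (.aff 394000 3789166 96918) (.aff 1000000 0 0)), .pol, (.pol), (.pol), .pol⟩,
 .one ⟨2008000, 251, 803200, 315657, 6666, 0, 0, 100000, 300000, 350000⟩ ⟨0, .pol, .pol, .pol, .pol, (.sy
 325000 (.aff 525000 3737526 60368) (.aff 650000 3863304 31709)), .pol, (.pol), (.pol), .pol⟩, .one ⟨2008000,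
 251, 803200, 287144, 16646, 0, 0, 100000, 350000, 400000⟩ ⟨0, .pol, .pol, .pol, .pol, (.sx 50000 (.sy 375000
 (.sx 25000 (.aff 750000 3834071 16302) (.aff 1000000 0 0)) (.sx 25000 (.sx 12500 (.sx 6250 (.aff 875000
 2936660 5321) (.aff 1000000 0 0)) (.aff 1000000 0 0)) (.aff 1000000 0 0))) (.aff 1000000 0 0)), .pol, (.pol),
 (.pol), .pol⟩, .one ⟨2008000, 251, 803200, 233329, 38172, 0, 0, 100000, 400000, 450000⟩ ⟨0, .pol, .pol, .pol,
 .pol, (.sx 50000 (.sx 25000 (.sx 12500 (.aff 1150000 3893107 5780) (.aff 1000000 0 0)) (.aff 1000000 0 0))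
 (.aff 1000000 0 0)), .pol, (.pol), (.pol), .pol⟩, .one ⟨2008000, 251, 803200, 179113, 62569, 0, 0, 100000,
 450000, 500000⟩ ⟨0, .pol, .pol, .pol, .pol, (.sy 475000 (.sx 50000 (.sx 25000 (.aff 1550000 4731279 63937)
 (.aff 1000000 0 0)) (.aff 1000000 0 0)) (.sx 50000 (.aff 1638000 4866446 83643) (.aff 1000000 0 0))), .pol,
 (.pol), (.pol), .pol⟩, .one ⟨2008000, 251, 803200, 125700, 89275, 0, 0, 100000, 500000, 550000⟩ ⟨0, .pol,
 .pol, .pol, .pol, (.sx 50000 (.sx 25000 (.sx 12500 (.aff 2000000 6480741 154304) (.aff 1900000 5263214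
 153899)) (.aff 1000000 0 0)) (.aff 1000000 0 0)), .pol, (.pol), (.pol), .pol⟩, .one ⟨2008000, 251, 803200,
 67468, 121303, 0, 0, 100000, 550000, 600000⟩ ⟨0, .pol, .pol, .pol, .pol, (.sy 575000 (.sy 562500 (.sx 50000
 (.aff 2125000 5306615 238500) (.aff 1000000 0 0)) (.sx 50000 (.sx 25000 (.aff 3000000 11015142 363137) (.aff
 2200000 5119375 281285)) (.aff 1000000 0 0))) (.sy 587500 (.sx 50000 (.sx 25000 (.aff 3000000 11135529
 359211) (.aff 2200000 5175327 278244)) (.aff 1000000 0 0)) (.sx 50000 (.sx 25000 (.aff 3000000 11254629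
 355410) (.aff 2200000 5230679 275299)) (.aff 1000000 0 0)))), .pol, (.pol), (.pol), .pol⟩, .one ⟨2008000,
 251, 803200, 6827, 157688, 0, 0, 100000, 600000, 650000⟩ ⟨0, .pol, .pol, .pol, .pol, (.sx 50000 (.aff 2700000
 6010408 480833) (.aff 2550000 5417029 443509)), .pol, (.pol), (.pol), .pol⟩, .one ⟨2008000, 251, 803200,
 -60642, 201542, 0, 0, 100000, 650000, 700000⟩ ⟨0, .pol, .pol, .pol, .pol, (.sx 50000 (.aff 3000000 8485282
 471405) (.aff 2988000 5964001 662667)), .pol, (.pol), (.pol), .pol⟩, .one ⟨2008000, 251, 803200, -139757,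
 256923, 0, 0, 100000, 700000, 750000⟩ ⟨0, .pol, .pol, .pol, .pol, (.aff 3600000 7000715 965616), .pol,
 (.pol), (.pol), .pol⟩, .one ⟨2008000, 251, 803200, -15090120, 11469696, 0, 0, 100000, 750000, 800000⟩ ⟨0,
 .pol, .pol, .pol, .pol, (.aff 36500000 98827818 12751977), .pol, (.pol), (.inf 3149604 317501), .pol⟩, .one
 ⟨2008000, 251, 803200, 0, -602400, 0, 0, 100000, 800000, 850000⟩ ⟨0, .pol, .pol, .pol, .pol, (.aff 36500000
 101965987 12359514), .pol, (.pol), (.inf 4062020 246183), .pol⟩, .one ⟨2008000, 251, 803200, 0, -602400, 0,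
 0, 100000, 850000, 900000⟩ ⟨0, .pol, .pol, .pol, .pol, (.aff 35000000 142232205 8127555), .pol, (.pol), (.inf
 4183301 239046), .pol⟩, .one ⟨2008000, 251, 803200, 0, -602400, 0, 0, 100000, 900000, 950000⟩ ⟨0, .pol, .pol,
 .pol, .pol, (.aff 20000000 66725808 5410201), .pol, (.pol), (.inf 4301163 232496), .pol⟩, .one ⟨2008000, 251,
 803200, 0, -602400, 0, 0, 100000, 950000, 1000000⟩ ⟨0, .pol, .pol, .pol, .pol, (.aff 20000000 83901729
 4302653), .pol, (.pol), (.inf 4415881 226456), .pol⟩], []⟩, ⟨[.one ⟨2008000, 251, 2008000, 246582, 0, 0, 0,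
 100000, 0, 50000⟩ ⟨12500, (.sp 250000 (.aff 6324556 158114) (.pol)), (.pol), (.pol), (.pol), (.pol), (.aff 0
 14172346 70560), (.pol), (.pol), (.pol)⟩, .one ⟨2008000, 251, 2008000, 277907, -1567, 0, 0, 100000, 50000,
 100000⟩ ⟨0, .pol, .pol, .pol, .pol, (.aff 0 13709050 72945), .pol, (.pol), (.sx 50000 (.pol) (.pol)), .pol⟩,
 .one ⟨2008000, 251, 2008000, 309232, -4699, 0, 0, 100000, 100000, 150000⟩ ⟨0, .pol, .pol, .pol, .pol, (.aff 0
 13527423 73924), .pol, (.pol), (.pol), .pol⟩, .one ⟨2008000, 251, 2008000, 340556, -9398, 0, 0, 100000,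
 150000, 200000⟩ ⟨0, .pol, .pol, .pol, .pol, (.aff 0 13104493 76310), .pol, (.pol), (.pol), .pol⟩, .one
 ⟨2008000, 251, 2008000, 371881, -15663, 0, 0, 100000, 200000, 250000⟩ ⟨0, .pol, .pol, .pol, .pol, (.aff 0
 12789344 78191), .pol, (.pol), (.pol), .pol⟩, .one ⟨2008000, 251, 2008000, 423286, -28514, 0, 0, 100000,
 250000, 300000⟩ ⟨0, .pol, .pol, .pol, .pol, (.aff 0 12169681 82172), .pol, (.pol), (.pol), .pol⟩, .one
 ⟨2008000, 251, 2008000, 354612, -7912, 0, 0, 100000, 300000, 350000⟩ ⟨0, .pol, .pol, .pol, .pol, (.sx 50000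
 (.sx 25000 (.sx 12500 (.sx 6250 (.sx 3125 (.sy 325000 (.aff 375000 12500000 31250) (.aff 500000 12693190
 19696)) (.aff 500000 4163332 60049)) (.aff 1000000 0 0)) (.aff 0 4163332 240193)) (.aff 0 2943921 339684))
 (.aff 0 2081666 480385)), .pol, (.pol), (.pol), .pol⟩, .one ⟨2008000, 251, 2008000, 317264, 5160, 0, 0,
 100000, 350000, 400000⟩ ⟨0, .pol, .pol, .pol, .pol, (.sx 50000 (.aff 700000 9940586 9054) (.aff 0 2236068
 447214)), .pol, (.pol), (.pol), .pol⟩, .one ⟨2008000, 251, 2008000, 179916, 60099, 0, 0, 100000, 400000,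
 450000⟩ ⟨0, .pol, .pol, .pol, .pol, (.sx 50000 (.sx 25000 (.aff 1450000 11147845 18165) (.aff 1000000 0 0))
 (.aff 0 2380477 420084)), .pol, (.pol), (.pol), .pol⟩, .one ⟨2008000, 251, 2008000, -9237, 145218, 0, 0,
 100000, 450000, 500000⟩ ⟨0, .pol, .pol, .pol, .pol, (.sx 50000 (.sx 25000 (.sx 12500 (.sx 6250 (.aff 2600000
 13948477 183533) (.aff 2450000 12495374 168263)) (.aff 1000000 0 0)) (.aff 1000000 0 0)) (.aff 1000000 0 0)),
 .pol, (.pol), (.pol), .pol⟩, .one ⟨2008000, 251, 2008000, -165460, 223329, 0, 0, 100000, 500000, 550000⟩ ⟨0,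
 .pol, .pol, .pol, .pol, (.sx 50000 (.sy 525000 (.sy 512500 (.aff 3200000 14000715 345697) (.sx 25000 (.aff
 3282000 14427686 360940) (.aff 1000000 0 0))) (.sy 537500 (.sy 531250 (.sy 528125 (.sy 526562 (.sx 25000 (.sx
 12500 (.aff 5000000 29955516 534126) (.aff 3400000 13922066 413732)) (.aff 1000000 0 0)) (.sy 527343 (.sx
 25000 (.sx 12500 (.aff 5000000 29988870 533532) (.aff 3400000 13937567 413272)) (.aff 1000000 0 0)) (.sx
 25000 (.sx 12500 (.aff 5000000 30011099 533137) (.aff 3400000 13947899 412966)) (.aff 1000000 0 0)))) (.sy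
 529687 (.sx 25000 (.sx 12500 (.aff 5000000 30044405 532546) (.aff 3400000 13963378 412508)) (.aff 1000000 0
 0)) (.sy 530468 (.sx 25000 (.sx 12500 (.aff 5000000 30077660 531957) (.aff 3400000 13978833 412052)) (.aff
 1000000 0 0)) (.sx 25000 (.sx 12500 (.aff 5000000 30099824 531565) (.aff 3400000 13989134 411749)) (.aff
 1000000 0 0))))) (.sy 534375 (.sy 532812 (.sx 25000 (.sx 12500 (.aff 5000000 36905276 433543) (.aff 3400000
 14004568 411295)) (.aff 1000000 0 0)) (.sy 533593 (.sx 25000 (.sx 12500 (.aff 5000000 36945885 433066) (.aff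
 3400000 14019978 410843)) (.aff 1000000 0 0)) (.sx 25000 (.sx 12500 (.aff 5000000 36972951 432749) (.aff
 3400000 14030249 410542)) (.aff 1000000 0 0)))) (.sy 535937 (.sx 25000 (.sx 12500 (.aff 5000000 37013503
 432275) (.aff 3400000 14045637 410092)) (.aff 1000000 0 0)) (.sy 536718 (.sx 25000 (.sx 12500 (.aff 5000000
 37053994 431803) (.aff 3400000 14061002 409644)) (.aff 1000000 0 0)) (.sx 25000 (.sx 12500 (.aff 5000000
 37080980 431489) (.aff 3400000 14071243 409346)) (.aff 1000000 0 0)))))) (.sy 543750 (.sy 540625 (.sy 539062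
 (.sx 25000 (.sx 12500 (.aff 5000000 37121414 431019) (.aff 3400000 14086587 408900)) (.aff 1000000 0 0)) (.sx
 25000 (.aff 4345000 15641356 715349) (.aff 1000000 0 0))) (.sx 25000 (.aff 4400000 15833746 730087) (.aff
 1000000 0 0))) (.sx 25000 (.aff 4500000 16369752 748332) (.aff 1000000 0 0))))) (.aff 1000000 0 0)), .pol,
 (.pol), (.pol), .pol⟩, .one ⟨2008000, 251, 2008000, -363448, 332223, 0, 0, 100000, 550000, 600000⟩ ⟨0, .pol,
 .pol, .pol, .pol, (.sy 575000 (.sx 50000 (.sx 25000 (.aff 5000000 18973666 843275) (.aff 4650000 15623127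
 852743)) (.aff 1000000 0 0)) (.sy 587500 (.sx 50000 (.sx 25000 (.aff 5000000 22271058 718422) (.sx 37500
 (.aff 4800000 15625853 924110) (.aff 1000000 0 0))) (.aff 1000000 0 0)) (.sx 50000 (.aff 5050000 16115405
 1017815) (.aff 1000000 0 0)))), .pol, (.pol), (.pol), .pol⟩, .one ⟨2008000, 251, 2008000, -528908, 431499, 0,
 0, 100000, 600000, 650000⟩ ⟨0, .pol, .pol, .pol, .pol, (.sx 50000 (.sx 25000 (.aff 5000000 23094011 692821)
 (.sy 625000 (.aff 5438000 16195485 1216132) (.aff 8000000 24995000 1960393))) (.sx 75000 (.sy 625000 (.aff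
 5600000 15957482 1326024) (.aff 5600000 15485908 1366404)) (.aff 1000000 0 0))), .pol, (.pol), (.pol), .pol⟩,
 .one ⟨2008000, 251, 2008000, -750591, 575593, 0, 0, 100000, 650000, 700000⟩ ⟨0, .pol, .pol, .pol, .pol, (.sx
 50000 (.aff 8000000 29698485 1649916) (.sx 75000 (.sy 675000 (.aff 6900000 17535346 1985134) (.aff 8000000
 21193553 2312024)) (.sy 675000 (.aff 6838000 17092387 1994002) (.sx 87500 (.sx 81250 (.aff 7100000 17744122
 2097033) (.aff 7000000 16818358 2140519)) (.aff 5900000 13496105 1779032))))), .pol, (.pol), (.pol), .pol⟩,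
 .one ⟨2008000, 251, 2008000, -968660, 728241, 0, 0, 100000, 700000, 750000⟩ ⟨0, .pol, .pol, .pol, .pol, (.sy
 725000 (.aff 8000000 18684887 2622441) (.aff 8000000 19009866 2577609)), .pol, (.pol), (.pol), .pol⟩, .one
 ⟨2008000, 251, 2008000, -12082940, 9063951, 0, 0, 100000, 750000, 800000⟩ ⟨0, .pol, .pol, .pol, .pol, (.aff
 35000000 109294709 10576908), .pol, (.pol), (.inf 3149604 317501), .pol⟩, .one ⟨2008000, 251, 2008000, 0,
 -602400, 0, 0, 100000, 800000, 850000⟩ ⟨0, .pol, .pol, .pol, .pol, (.aff 35000000 97657565 11837281), .pol,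
 (.pol), (.inf 4062020 246183), .pol⟩, .one ⟨2008000, 251, 2008000, 0, -602400, 0, 0, 100000, 850000, 900000⟩
 ⟨0, .pol, .pol, .pol, .pol, (.aff 35000000 142232205 8127555), .pol, (.pol), (.inf 4183301 239046), .pol⟩,
 .one ⟨2008000, 251, 2008000, 0, -602400, 0, 0, 100000, 900000, 950000⟩ ⟨0, .pol, .pol, .pol, .pol, (.aff
 20000000 81722091 4417411), .pol, (.pol), (.inf 4301163 232496), .pol⟩, .one ⟨2008000, 251, 2008000, 0,
 -602400, 0, 0, 100000, 950000, 1000000⟩ ⟨0, .pol, .pol, .pol, .pol, (.aff 20000000 83901729 4302653), .pol,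
 (.pol), (.inf 4415881 226456), .pol⟩], []⟩, ⟨[.one ⟨2008000, 251, 381520, 4442900, 0, 0, 0, 100000, 0, 50000⟩
 ⟨50000, (.pol), (.sp 500000 (.sp 250000 (.sp 125000 (.aff 111804 8944224) (.pol)) (.pol)) (.pol)), (.pol),
 (.pol), (.aff 0 48892 20453244), (.pol), (.pol), (.pol), (.pol)⟩, .one ⟨2008000, 251, 381520, -3523639,
 398326, 0, 0, 100000, 50000, 100000⟩ ⟨0, .pol, .pol, .pol, .pol, (.aff 0 1000000 1000000), .pol, (.pol), (.sx
 50000 (.pol) (.pol)), .pol⟩, .one ⟨2008000, 251, 381520, 185940, 27369, 0, 0, 100000, 100000, 150000⟩ ⟨0,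
 .pol, .pol, .pol, .pol, (.sx 50000 (.aff 0 2236068 447214) (.sx 75000 (.aff 0 1414214 707107) (.sx 87500
 (.aff 250000 930261 604670) (.sx 93750 (.aff 200000 923761 692820) (.sy 125000 (.sx 96875 (.aff 175000 900000
 756250) (.sy 112500 (.aff 175000 860535 790933) (.sy 118750 (.aff 175000 897698 758190) (.aff 176000 909672
 746397)))) (.aff 225000 864447 694809)))))), .pol, (.pol), (.pol), .pol⟩, .one ⟨2008000, 251, 381520, -78714,
 67067, 0, 0, 100000, 150000, 200000⟩ ⟨0, .pol, .pol, .pol, .pol, (.sx 50000 (.aff 500000 1080124 231455)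
 (.aff 750000 381882 163664)), .pol, (.pol), (.pol), .pol⟩, .one ⟨2008000, 251, 381520, -35743, 58472, 0, 0,
 100000, 200000, 250000⟩ ⟨0, .pol, .pol, .pol, .pol, (.sy 225000 (.sy 212500 (.sx 50000 (.aff 563000 910020
 209852) (.aff 1000000 0 0)) (.sy 218750 (.sy 215625 (.sx 50000 (.sx 25000 (.aff 0 4138237 241649) (.aff
 600000 955685 167420)) (.aff 1000000 0 0)) (.sx 50000 (.sx 25000 (.aff 0 4168334 239905) (.aff 625000 902471
 155823)) (.aff 1000000 0 0))) (.sx 50000 (.sx 25000 (.aff 0 3439962 290701) (.aff 625000 912158 154168))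
 (.aff 1000000 0 0)))) (.sy 237500 (.sx 50000 (.aff 622000 980658 145703) (.aff 1000000 0 0)) (.sx 50000 (.aff
 625000 980270 143456) (.aff 1000000 0 0)))), .pol, (.pol), (.pol), .pol⟩, .one ⟨2008000, 251, 381520, -77911,
 69014, 0, 0, 100000, 250000, 300000⟩ ⟨0, .pol, .pol, .pol, .pol, (.sy 275000 (.sy 262500 (.sx 50000 (.sx
 25000 (.aff 625000 1200586 117131) (.aff 1000000 0 0)) (.aff 1000000 0 0)) (.sy 268750 (.sx 50000 (.sx 25000
 (.aff 675000 1170786 90218) (.aff 1000000 0 0)) (.aff 1000000 0 0)) (.sx 50000 (.sx 25000 (.aff 738000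
 1191719 57601) (.aff 1000000 0 0)) (.aff 1000000 0 0)))) (.sy 287500 (.sy 281250 (.sy 278125 (.sx 50000 (.sx
 25000 (.aff 750000 1175931 53150) (.aff 1000000 0 0)) (.aff 1000000 0 0)) (.sx 50000 (.aff 750000 1153359
 54190) (.aff 1000000 0 0))) (.sx 50000 (.aff 750000 1162983 53742) (.aff 1000000 0 0))) (.sx 50000 (.aff
 750000 1152814 54216) (.aff 1000000 0 0)))), .pol, (.pol), (.pol), .pol⟩, .one ⟨2008000, 251, 381520,
 -126504, 83593, 0, 0, 100000, 300000, 350000⟩ ⟨0, .pol, .pol, .pol, .pol, (.sx 50000 (.aff 825000 1266275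
 24186) (.aff 1000000 0 0)), .pol, (.pol), (.pol), .pol⟩, .one ⟨2008000, 251, 381520, -167066, 97789, 0, 0,
 100000, 350000, 400000⟩ ⟨0, .pol, .pol, .pol, .pol, (.sx 50000 (.sx 25000 (.aff 925000 1062189 5296) (.aff
 1000000 0 0)) (.aff 1000000 0 0)), .pol, (.pol), (.pol), .pol⟩, .one ⟨2008000, 251, 381520, -227306, 121885,
 0, 0, 100000, 400000, 450000⟩ ⟨0, .pol, .pol, .pol, .pol, (.sx 50000 (.sx 25000 (.sx 12500 (.aff 1075000
 1245438 4517) (.aff 1000000 0 0)) (.aff 1000000 0 0)) (.aff 1000000 0 0)), .pol, (.pol), (.pol), .pol⟩, .one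
 ⟨2008000, 251, 381520, -279514, 145379, 0, 0, 100000, 450000, 500000⟩ ⟨0, .pol, .pol, .pol, .pol, (.sx 50000
 (.aff 1200000 1749544 22864) (.aff 1000000 0 0)), .pol, (.pol), (.pol), .pol⟩, .one ⟨2008000, 251, 381520,
 -349392, 180318, 0, 0, 100000, 500000, 550000⟩ ⟨0, .pol, .pol, .pol, .pol, (.sy 525000 (.sy 512500 (.sx 50000
 (.aff 1300000 1909189 47141) (.aff 1000000 0 0)) (.sx 50000 (.sy 518750 (.aff 1300000 1926785 46710) (.aff
 1303000 1933492 47484)) (.aff 1000000 0 0))) (.sy 537500 (.sx 50000 (.sy 531250 (.sx 25000 (.sx 12500 (.aff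
 1500000 3752777 66618) (.aff 1350000 2034822 60202)) (.aff 1000000 0 0)) (.sx 25000 (.sx 12500 (.aff 1500000
 3774918 66227) (.aff 1350000 1976424 61981)) (.aff 1000000 0 0))) (.aff 1000000 0 0)) (.sx 50000 (.sx 25000
 (.aff 1475000 2215253 101851) (.aff 1250000 951972 65654)) (.aff 1000000 0 0)))), .pol, (.pol), (.pol),
 .pol⟩, .one ⟨2008000, 251, 381520, -412042, 214775, 0, 0, 100000, 550000, 600000⟩ ⟨0, .pol, .pol, .pol, .pol,
 (.sx 50000 (.sx 25000 (.aff 1500000 2397916 104258) (.aff 1500000 2144762 116564)) (.aff 1000000 0 0)), .pol,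
 (.pol), (.pol), .pol⟩, .one ⟨2008000, 251, 381520, -496780, 265618, 0, 0, 100000, 600000, 650000⟩ ⟨0, .pol,
 .pol, .pol, .pol, (.sx 50000 (.aff 1700000 2474874 197990) (.aff 1675000 2243978 203044)), .pol, (.pol),
 (.pol), .pol⟩, .one ⟨2008000, 251, 381520, -19277, -44759, 0, 0, 100000, 650000, 700000⟩ ⟨0, .pol, .pol,
 .pol, .pol, (.sy 675000 (.sy 662500 (.sy 656250 (.sy 653125 (.sx 50000 (.aff 2000000 4168334 239905) (.sx
 75000 (.aff 1900000 2652711 305349) (.aff 1500000 1364408 183230))) (.aff 1900000 2659065 304619)) (.aff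
 2000000 2965075 337260)) (.aff 2000000 2986079 334888)) (.aff 1500000 1854050 134840)), .pol, (.aff 1950000
 2594719 347822), (.pol), .pol⟩, .one ⟨2008000, 251, 381520, 167467, -175480, 0, 0, 100000, 700000, 750000⟩
 ⟨0, .pol, .pol, .pol, .pol, (.aff 1500000 1903944 131307), .pol, (.aff 1950000 2557954 352822), (.pol),
 .pol⟩, .one ⟨2008000, 251, 381520, -11050426, 8237940, 0, 0, 100000, 750000, 800000⟩ ⟨0, .pol, .pol, .pol,
 .pol, (.aff 1000000 0 0), .pol, (.aff 35000000 109294709 10576908), (.inf 3149604 317501), .pol⟩, .one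
 ⟨2008000, 251, 381520, 0, -602400, 0, 0, 100000, 800000, 850000⟩ ⟨0, .pol, .pol, .pol, .pol, (.aff 1000000 0
 0), .pol, (.aff 35000000 112765243 10251386), (.inf 4062020 246183), .pol⟩, .one ⟨2008000, 251, 381520, 0,
 -602400, 0, 0, 100000, 850000, 900000⟩ ⟨0, .pol, .pol, .pol, .pol, (.aff 1000000 0 0), .pol, (.aff 20000000
 64897355 5562631), (.inf 4183301 239046), .pol⟩, .one ⟨2008000, 251, 381520, 0, -602400, 0, 0, 100000,
 900000, 950000⟩ ⟨0, .pol, .pol, .pol, .pol, (.aff 1000000 0 0), .pol, (.aff 20000000 81722091 4417411), (.inf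
 4301163 232496), .pol⟩, .one ⟨2008000, 251, 381520, 0, -602400, 0, 0, 100000, 950000, 1000000⟩ ⟨0, .pol,
 .pol, .pol, .pol, (.aff 1000000 0 0), .pol, (.aff 12000000 39661065 3050852), (.inf 4415881 226456), .pol⟩],
 []⟩, ⟨[.one ⟨2008000, 251, 502000, 358227, 0, 0, 0, 100000, 0, 50000⟩ ⟨50000, (.aff 1414214 707107), (.aff
 707107 1414214), (.pol), (.pol), (.sy 25000 (.pol) (.aff 0 654654 1527525)), (.aff 0 1414214 707107), (.pol),
 (.pol), (.pol)⟩, .one ⟨2008000, 251, 502000, 340556, 883, 0, 0, 100000, 50000, 100000⟩ ⟨0, .pol, .pol, .pol,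
 .pol, (.sy 75000 (.aff 0 771051 1296932) (.aff 0 935415 1069045)), .pol, (.pol), (.sx 50000 (.pol) (.pol)),
 .pol⟩, .one ⟨2008000, 251, 502000, 144977, 20441, 0, 0, 100000, 100000, 150000⟩ ⟨0, .pol, .pol, .pol, .pol,
 (.sy 125000 (.aff 200000 892034 717462) (.sy 137500 (.sy 131250 (.sx 50000 (.aff 0 2263847 441726) (.sx 75000
 (.aff 0 1431783 698430) (.aff 263000 834228 651104))) (.sx 50000 (.aff 0 2318405 431332) (.aff 262000 866253
 628736))) (.sx 50000 (.aff 0 2397916 417029) (.aff 288000 897426 564887)))), .pol, (.pol), (.pol), .pol⟩,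
 .one ⟨2008000, 251, 502000, 69075, 31826, 0, 0, 100000, 150000, 200000⟩ ⟨0, .pol, .pol, .pol, .pol, (.sy
 175000 (.sy 162500 (.sx 50000 (.aff 0 2041242 489898) (.aff 363000 982318 413073)) (.sy 168750 (.sx 50000
 (.aff 0 1820028 549443) (.sx 75000 (.aff 375000 1017427 383935) (.aff 1000000 0 0))) (.sx 50000 (.aff 250000
 1605655 350325) (.sx 75000 (.aff 375000 1036446 376889) (.aff 1000000 0 0))))) (.sx 50000 (.aff 375000
 1210308 322749) (.aff 394000 1032797 355575))), .pol, (.pol), (.pol), .pol⟩, .one ⟨2008000, 251, 502000,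
 18072, 42027, 0, 0, 100000, 200000, 250000⟩ ⟨0, .pol, .pol, .pol, .pol, (.sy 225000 (.sy 212500 (.sx 50000
 (.aff 413000 1253329 274924) (.aff 1000000 0 0)) (.sy 218750 (.sy 215625 (.sy 214062 (.sx 50000 (.sx 25000
 (.aff 0 3372683 296500) (.aff 488000 1272350 206032)) (.aff 1000000 0 0)) (.sx 50000 (.sx 25000 (.aff 0
 3385015 295420) (.aff 488000 1277002 205281)) (.aff 1000000 0 0))) (.sy 217187 (.sx 50000 (.sx 25000 (.aff 0
 3397301 294352) (.aff 475000 1250085 220486)) (.aff 1000000 0 0)) (.sx 50000 (.sx 25000 (.aff 0 3409544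
 293295) (.aff 488000 1286256 203804)) (.aff 1000000 0 0)))) (.sy 221875 (.sy 220312 (.sx 50000 (.aff 450000
 1273665 237504) (.aff 1000000 0 0)) (.sx 50000 (.sx 25000 (.aff 500000 1716949 145608) (.aff 500000 1265081
 197616)) (.aff 1000000 0 0))) (.sx 50000 (.sx 25000 (.aff 500000 1726027 144842) (.aff 475000 1281510
 215079)) (.aff 1000000 0 0))))) (.sx 50000 (.sx 25000 (.aff 500000 1779514 140488) (.aff 500000 1258306
 198680)) (.aff 1000000 0 0))), .pol, (.pol), (.pol), .pol⟩, .one ⟨2008000, 251, 502000, -42570, 57187, 0, 0,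
 100000, 250000, 300000⟩ ⟨0, .pol, .pol, .pol, .pol, (.sy 275000 (.sy 262500 (.sy 256250 (.sx 50000 (.aff
 522000 1355441 168569) (.aff 1000000 0 0)) (.sy 259375 (.sy 257812 (.sx 50000 (.aff 531000 1374068 160081)
 (.aff 1000000 0 0)) (.sx 50000 (.sx 25000 (.aff 500000 1856856 134637) (.aff 1000000 0 0)) (.aff 1000000 0
 0))) (.sy 260937 (.sx 50000 (.sx 25000 (.aff 500000 1612936 154997) (.aff 1000000 0 0)) (.aff 1000000 0 0))
 (.sy 261718 (.sy 261327 (.sx 50000 (.sx 25000 (.aff 500000 1615958 154707) (.aff 1000000 0 0)) (.aff 1000000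
 0 0)) (.sy 261522 (.sx 50000 (.sx 25000 (.aff 500000 1616863 154621) (.aff 1000000 0 0)) (.aff 1000000 0 0))
 (.sy 261620 (.sy 261571 (.sx 50000 (.sx 25000 (.aff 500000 1617240 154585) (.aff 1000000 0 0)) (.aff 1000000
 0 0)) (.sy 261595 (.sx 50000 (.sx 25000 (.aff 500000 1617353 154574) (.aff 1000000 0 0)) (.aff 1000000 0 0))
 (.sy 261607 (.sx 50000 (.sx 25000 (.aff 500000 1617409 154569) (.aff 1000000 0 0)) (.aff 1000000 0 0)) (.sy
 261613 (.sx 50000 (.sx 25000 (.aff 500000 1617437 154566) (.aff 1000000 0 0)) (.aff 1000000 0 0)) (.sy 261616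
 (.sx 50000 (.sx 25000 (.aff 500000 1617451 154565) (.aff 1000000 0 0)) (.aff 1000000 0 0)) (.sy 261618 (.sx
 50000 (.sx 25000 (.aff 500000 1617458 154564) (.aff 1000000 0 0)) (.aff 1000000 0 0)) (.sy 261619 (.sx 50000
 (.sx 25000 (.aff 500000 1617463 154564) (.aff 1000000 0 0)) (.aff 1000000 0 0)) (.sx 50000 (.sx 25000 (.aff
 500000 1617466 154563) (.aff 1000000 0 0)) (.aff 1000000 0 0))))))))) (.sy 261669 (.sy 261644 (.sy 261632
 (.sy 261626 (.sy 261623 (.sy 261621 (.sx 50000 (.sx 25000 (.aff 500000 1617469 154563) (.aff 1000000 0 0))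
 (.aff 1000000 0 0)) (.sx 50000 (.sx 25000 (.aff 500000 1617474 154562) (.aff 1000000 0 0)) (.aff 1000000 0
 0))) (.sx 50000 (.sx 25000 (.aff 500000 1617482 154562) (.aff 1000000 0 0)) (.aff 1000000 0 0))) (.sx 50000
 (.sx 25000 (.aff 500000 1617495 154560) (.aff 1000000 0 0)) (.aff 1000000 0 0))) (.sx 50000 (.sx 25000 (.aff
 500000 1617523 154558) (.aff 1000000 0 0)) (.aff 1000000 0 0))) (.sx 50000 (.sx 25000 (.aff 500000 1617580
 154552) (.aff 1000000 0 0)) (.aff 1000000 0 0))) (.sx 50000 (.sx 25000 (.aff 500000 1617695 154541) (.aff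
 1000000 0 0)) (.aff 1000000 0 0)))))) (.sx 50000 (.sx 25000 (.aff 500000 1618979 154419) (.aff 1000000 0 0))
 (.aff 1000000 0 0)))))) (.sx 50000 (.aff 625000 1483084 94820) (.aff 1000000 0 0))) (.sx 50000 (.aff 625000
 1477490 95179) (.aff 1000000 0 0))), .pol, (.pol), (.pol), .pol⟩, .one ⟨2008000, 251, 502000, -106826, 76464,
 0, 0, 100000, 300000, 350000⟩ ⟨0, .pol, .pol, .pol, .pol, (.sy 325000 (.sx 50000 (.aff 750000 1605032 38941)
 (.aff 1000000 0 0)) (.sy 337500 (.sy 331250 (.sx 50000 (.aff 756000 1645832 36174) (.aff 1000000 0 0)) (.sx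
 50000 (.sx 25000 (.aff 750000 1675391 37305) (.aff 1000000 0 0)) (.aff 1000000 0 0))) (.sx 50000 (.sx 25000
 (.aff 775000 1668645 30339) (.aff 1000000 0 0)) (.aff 1000000 0 0)))), .pol, (.pol), (.pol), .pol⟩, .one
 ⟨2008000, 251, 502000, -160640, 95299, 0, 0, 100000, 350000, 400000⟩ ⟨0, .pol, .pol, .pol, .pol, (.sx 50000
 (.sx 25000 (.aff 900000 1645450 6078) (.aff 1000000 0 0)) (.aff 1000000 0 0)), .pol, (.pol), (.pol), .pol⟩,
 .one ⟨2008000, 251, 502000, -233732, 124536, 0, 0, 100000, 400000, 450000⟩ ⟨0, .pol, .pol, .pol, .pol, (.sx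
 50000 (.sx 25000 (.sx 12500 (.aff 1100000 1835229 5449) (.aff 1000000 0 0)) (.aff 1000000 0 0)) (.aff 1000000
 0 0)), .pol, (.pol), (.pol), .pol⟩, .one ⟨2008000, 251, 502000, -297586, 153270, 0, 0, 100000, 450000,
 500000⟩ ⟨0, .pol, .pol, .pol, .pol, (.sy 475000 (.sx 50000 (.aff 1250000 2268604 27550) (.aff 1000000 0 0))
 (.sx 50000 (.aff 1300000 2317081 38842) (.aff 1000000 0 0))), .pol, (.pol), (.pol), .pol⟩, .one ⟨2008000,
 251, 502000, -379512, 194233, 0, 0, 100000, 500000, 550000⟩ ⟨0, .pol, .pol, .pol, .pol, (.sx 50000 (.sx 25000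
 (.aff 1482000 2582586 89958) (.aff 1000000 0 0)) (.aff 1000000 0 0)), .pol, (.pol), (.pol), .pol⟩, .one
 ⟨2008000, 251, 502000, -454210, 235317, 0, 0, 100000, 550000, 600000⟩ ⟨0, .pol, .pol, .pol, .pol, (.sy 575000
 (.sy 562500 (.sx 50000 (.aff 1563000 2655666 119356) (.aff 1000000 0 0)) (.sx 50000 (.sx 25000 (.aff 2000000
 5507571 181569) (.aff 1600000 2559688 140643)) (.aff 1000000 0 0))) (.sy 587500 (.sx 50000 (.sx 25000 (.aff
 2000000 5567765 179606) (.aff 1600000 2587664 139122)) (.aff 1000000 0 0)) (.sx 50000 (.sx 25000 (.aff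
 2000000 5627315 177705) (.aff 1600000 2615340 137650)) (.aff 1000000 0 0)))), .pol, (.pol), (.pol), .pol⟩,
 .one ⟨2008000, 251, 502000, -550594, 293147, 0, 0, 100000, 600000, 650000⟩ ⟨0, .pol, .pol, .pol, .pol, (.sy
 625000 (.sx 50000 (.aff 1900000 3150000 257143) (.aff 1400000 1529439 104614)) (.sx 50000 (.aff 2000000
 3570715 280056) (.aff 1875000 2890709 264858))), .pol, (.pol), (.pol), .pol⟩, .one ⟨2008000, 251, 502000,
 -89557, -6526, 0, 0, 100000, 650000, 700000⟩ ⟨0, .pol, .pol, .pol, .pol, (.sx 50000 (.aff 2000000 4242641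
 235703) (.aff 2050000 3150001 350000)), .pol, (.aff 2403000 3737378 526682), (.pol), .pol⟩, .one ⟨2008000,
 251, 502000, 91564, -133312, 0, 0, 100000, 700000, 750000⟩ ⟨0, .pol, .pol, .pol, .pol, (.aff 1500000 1903944
 131307), .pol, (.aff 2375000 3702301 510663), (.pol), .pol⟩, .one ⟨2008000, 251, 502000, -10755250, 8001799,
 0, 0, 100000, 750000, 800000⟩ ⟨0, .pol, .pol, .pol, .pol, (.aff 1000000 0 0), .pol, (.aff 35000000 109294709
 10576908), (.inf 3149604 317501), .pol⟩, .one ⟨2008000, 251, 502000, 0, -602400, 0, 0, 100000, 800000,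
 850000⟩ ⟨0, .pol, .pol, .pol, .pol, (.aff 1000000 0 0), .pol, (.aff 35000000 112765243 10251386), (.inf
 4062020 246183), .pol⟩, .one ⟨2008000, 251, 502000, 0, -602400, 0, 0, 100000, 850000, 900000⟩ ⟨0, .pol, .pol,
 .pol, .pol, (.aff 1000000 0 0), .pol, (.aff 20000000 64897355 5562631), (.inf 4183301 239046), .pol⟩, .one
 ⟨2008000, 251, 502000, 0, -602400, 0, 0, 100000, 900000, 950000⟩ ⟨0, .pol, .pol, .pol, .pol, (.aff 1000000 0
 0), .pol, (.aff 20000000 81722091 4417411), (.inf 4301163 232496), .pol⟩, .one ⟨2008000, 251, 502000, 0,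
 -602400, 0, 0, 100000, 950000, 1000000⟩ ⟨0, .pol, .pol, .pol, .pol, (.aff 1000000 0 0), .pol, (.aff 12000000
 39661065 3050852), (.inf 4415881 226456), .pol⟩], []⟩, ⟨[.one ⟨2008000, 251, 803200, 126905, 0, 0, 0, 100000,
 0, 50000⟩ ⟨25000, (.sp 250000 (.aff 2309402 433013) (.aff 1511858 661438)), (.pol), (.pol), (.pol), (.aff 0
 923294 1083079), (.sy 37500 (.aff 0 2236068 447214) (.aff 0 2187221 457202)), (.pol), (.pol), (.pol)⟩, .one
 ⟨2008000, 251, 803200, 162246, -1768, 0, 0, 100000, 50000, 100000⟩ ⟨0, .pol, .pol, .pol, .pol, (.sy 75000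
 (.sx 50000 (.sx 25000 (.aff 0 2180860 458535) (.aff 0 1414214 707107)) (.aff 0 912871 1095446)) (.sy 87500
 (.sx 50000 (.aff 0 2120873 471504) (.aff 0 1040833 960769)) (.sy 93750 (.sx 50000 (.sx 25000 (.aff 0 2198485
 454859) (.aff 0 1702939 587221)) (.aff 0 1099243 909717)) (.sx 50000 (.sx 25000 (.aff 0 2162174 462498) (.aff
 0 1945855 513913)) (.aff 0 1136516 879883))))), .pol, (.pol), (.sx 50000 (.pol) (.pol)), .pol⟩, .one
 ⟨2008000, 251, 803200, 197988, -5342, 0, 0, 100000, 100000, 150000⟩ ⟨0, .pol, .pol, .pol, .pol, (.sx 50000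
 (.sx 25000 (.aff 0 2127014 470143) (.aff 0 2050631 487655)) (.aff 0 1727325 578930)), .pol, (.pol), (.pol),
 .pol⟩, .one ⟨2008000, 251, 803200, 224494, -9318, 0, 0, 100000, 150000, 200000⟩ ⟨0, .pol, .pol, .pol, .pol,
 (.sy 175000 (.sx 50000 (.sx 25000 (.aff 0 2943921 339684) (.aff 0 2030270 492546)) (.aff 125000 1410896
 542652)) (.sy 187500 (.sx 50000 (.sx 25000 (.aff 0 3109127 321634) (.aff 38000 2058448 449584)) (.aff 500000
 851470 293610)) (.sx 50000 (.aff 75000 2102554 406946) (.aff 1000000 0 0)))), .pol, (.pol), (.pol), .pol⟩,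
 .one ⟨2008000, 251, 803200, 89155, 17750, 0, 0, 100000, 200000, 250000⟩ ⟨0, .pol, .pol, .pol, .pol, (.sx
 50000 (.sy 225000 (.sx 25000 (.aff 275000 2440714 215358) (.aff 350000 1694993 249264)) (.sy 237500 (.sy
 231250 (.sx 25000 (.aff 313000 2396308 196957) (.aff 375000 1541526 253402)) (.sx 25000 (.aff 363000 2495805
 162581) (.aff 500000 1369307 182575))) (.aff 363000 2429410 167024))) (.aff 1000000 0 0)), .pol, (.pol),
 (.pol), .pol⟩, .one ⟨2008000, 251, 803200, 24096, 34015, 0, 0, 100000, 250000, 300000⟩ ⟨0, .pol, .pol, .pol,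
 .pol, (.sy 275000 (.sy 262500 (.sx 50000 (.aff 444000 2517398 122800) (.aff 1000000 0 0)) (.sx 50000 (.aff
 469000 2524476 111691) (.aff 1000000 0 0))) (.sx 50000 (.sy 287500 (.aff 475000 2505907 109991) (.aff 500000
 2548113 98112)) (.aff 1000000 0 0))), .pol, (.pol), (.pol), .pol⟩, .one ⟨2008000, 251, 803200, -55020, 57750,
 0, 0, 100000, 300000, 350000⟩ ⟨0, .pol, .pol, .pol, .pol, (.sy 325000 (.sy 312500 (.aff 550000 2501162 80963)
 (.sx 50000 (.aff 600000 2626228 60924) (.aff 1000000 0 0))) (.sx 50000 (.aff 638000 2636118 49711) (.aff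
 1000000 0 0))), .pol, (.pol), (.pol), .pol⟩, .one ⟨2008000, 251, 803200, -147789, 90219, 0, 0, 100000,
 350000, 400000⟩ ⟨0, .pol, .pol, .pol, .pol, (.sx 50000 (.sx 25000 (.aff 875000 2631966 5937) (.aff 1000000 0
 0)) (.aff 1000000 0 0)), .pol, (.pol), (.pol), .pol⟩, .one ⟨2008000, 251, 803200, -244173, 128773, 0, 0,
 100000, 400000, 450000⟩ ⟨0, .pol, .pol, .pol, .pol, (.sx 50000 (.sx 25000 (.sx 12500 (.aff 1100000 2737839
 3653) (.aff 1000000 0 0)) (.aff 1000000 0 0)) (.aff 1000000 0 0)), .pol, (.pol), (.pol), .pol⟩, .one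
 ⟨2008000, 251, 803200, -344573, 173953, 0, 0, 100000, 450000, 500000⟩ ⟨0, .pol, .pol, .pol, .pol, (.sx 50000
 (.sx 25000 (.sx 12500 (.aff 1414000 3510453 48825) (.aff 1000000 0 0)) (.aff 1000000 0 0)) (.aff 1000000 0
 0)), .pol, (.pol), (.pol), .pol⟩, .one ⟨2008000, 251, 803200, -456218, 229775, 0, 0, 100000, 500000, 550000⟩
 ⟨0, .pol, .pol, .pol, .pol, (.sy 525000 (.sx 50000 (.sx 25000 (.aff 1575000 3681797 89800) (.aff 1000000 0
 0)) (.aff 1000000 0 0)) (.sx 50000 (.sy 537500 (.sy 531250 (.sx 25000 (.sx 12500 (.aff 2000000 7505554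
 133235) (.aff 1600000 3488267 103204)) (.aff 1000000 0 0)) (.sx 25000 (.sx 12500 (.aff 2000000 7549835
 132454) (.aff 1650000 3801250 111148)) (.aff 1000000 0 0))) (.sy 543750 (.sx 25000 (.aff 1845000 4003850
 178335) (.aff 1000000 0 0)) (.sx 25000 (.aff 1900000 4209365 192429) (.aff 1000000 0 0)))) (.aff 1000000 0
 0))), .pol, (.pol), (.pol), .pol⟩, .one ⟨2008000, 251, 803200, -557421, 285437, 0, 0, 100000, 550000, 600000⟩
 ⟨0, .pol, .pol, .pol, .pol, (.sx 50000 (.sx 25000 (.aff 2000000 4795832 208515) (.aff 1966000 4051849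
 230304)) (.aff 1000000 0 0)), .pol, (.pol), (.pol), .pol⟩, .one ⟨2008000, 251, 803200, -688744, 364231, 0, 0,
 100000, 600000, 650000⟩ ⟨0, .pol, .pol, .pol, .pol, (.sx 50000 (.aff 2275000 4480128 362853) (.sy 625000
 (.aff 2050000 3632719 303492) (.aff 2275000 4280801 379748))), .pol, (.aff 2000000 5000000 200000), (.pol),
 .pol⟩, .one ⟨2008000, 251, 803200, -263450, 87789, 0, 0, 100000, 650000, 700000⟩ ⟨0, .pol, .pol, .pol, .pol,
 (.sx 50000 (.aff 3000000 8485282 471405) (.aff 2300000 4272236 395578)), .pol, (.sy 675000 (.aff 3000000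
 5944185 672927) (.sy 687500 (.aff 3000000 6027714 663602) (.sx 50000 (.aff 3000000 8602326 464991) (.sx 75000
 (.aff 3000000 6353239 629601) (.aff 3000000 5844130 684448))))), (.pol), .pol⟩, .one ⟨2008000, 251, 803200,
 -98392, -27751, 0, 0, 100000, 700000, 750000⟩ ⟨0, .pol, .pol, .pol, .pol, (.aff 1500000 1903944 131307),
 .pol, (.aff 3208000 6289798 775107), (.pol), .pol⟩, .one ⟨2008000, 251, 803200, -10017109, 7411287, 0, 0,
 100000, 750000, 800000⟩ ⟨0, .pol, .pol, .pol, .pol, (.aff 1000000 0 0), .pol, (.aff 35000000 109294709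
 10576908), (.inf 3149604 317501), .pol⟩, .one ⟨2008000, 251, 803200, 0, -602400, 0, 0, 100000, 800000,
 850000⟩ ⟨0, .pol, .pol, .pol, .pol, (.aff 1000000 0 0), .pol, (.aff 35000000 112765243 10251386), (.inf
 4062020 246183), .pol⟩, .one ⟨2008000, 251, 803200, 0, -602400, 0, 0, 100000, 850000, 900000⟩ ⟨0, .pol, .pol,
 .pol, .pol, (.aff 1000000 0 0), .pol, (.aff 20000000 64897355 5562631), (.inf 4183301 239046), .pol⟩, .one
 ⟨2008000, 251, 803200, 0, -602400, 0, 0, 100000, 900000, 950000⟩ ⟨0, .pol, .pol, .pol, .pol, (.aff 1000000 0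
 0), .pol, (.aff 20000000 81722091 4417411), (.inf 4301163 232496), .pol⟩, .one ⟨2008000, 251, 803200, 0,
 -602400, 0, 0, 100000, 950000, 1000000⟩ ⟨0, .pol, .pol, .pol, .pol, (.aff 1000000 0 0), .pol, (.aff 12000000
 39661065 3050852), (.inf 4415881 226456), .pol⟩], []⟩, ⟨[.one ⟨2008000, 251, 2008000, 55822, 0, 0, 0, 100000,
 0, 50000⟩ ⟨25000, (.sp 250000 (.aff 6324556 158114) (.pol)), (.pol), (.pol), (.pol), (.pol), (.aff 0 7544960
 132539), (.pol), (.pol), (.pol)⟩, .one ⟨2008000, 251, 2008000, 82729, -1346, 0, 0, 100000, 50000, 100000⟩ ⟨0,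
 .pol, .pol, .pol, .pol, (.sy 75000 (.aff 0 7590485 131744) (.aff 0 7399272 135149)), .pol, (.pol), (.sx 50000
 (.pol) (.pol)), .pol⟩, .one ⟨2008000, 251, 2008000, 109636, -4037, 0, 0, 100000, 100000, 150000⟩ ⟨0, .pol,
 .pol, .pol, .pol, (.sy 125000 (.aff 0 7358004 135907) (.aff 0 7223749 138433)), .pol, (.pol), (.pol), .pol⟩,
 .one ⟨2008000, 251, 2008000, 137347, -8193, 0, 0, 100000, 150000, 200000⟩ ⟨0, .pol, .pol, .pol, .pol, (.sy
 175000 (.aff 0 7150277 139855) (.aff 0 6993293 142995)), .pol, (.pol), (.pol), .pol⟩, .one ⟨2008000, 251,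
 2008000, 164254, -13575, 0, 0, 100000, 200000, 250000⟩ ⟨0, .pol, .pol, .pol, .pol, (.sy 225000 (.aff 0
 6950288 143879) (.aff 6000 6818421 144907)), .pol, (.pol), (.pol), .pol⟩, .one ⟨2008000, 251, 2008000,
 185940, -18996, 0, 0, 100000, 250000, 300000⟩ ⟨0, .pol, .pol, .pol, .pol, (.sx 50000 (.sx 25000 (.sx 12500
 (.sy 275000 (.aff 7000 6936590 142152) (.aff 19000 6737157 142844)) (.aff 0 3829709 261117)) (.aff 0 2708013
 369275)) (.aff 0 1914855 522233)), .pol, (.pol), (.pol), .pol⟩, .one ⟨2008000, 251, 2008000, -18072, 42208,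
 0, 0, 100000, 300000, 350000⟩ ⟨0, .pol, .pol, .pol, .pol, (.sx 50000 (.sx 25000 (.sx 12500 (.sy 325000 (.sx
 6250 (.aff 509000 7164209 33651) (.aff 1000000 0 0)) (.sy 337500 (.aff 575000 7214216 25038) (.aff 619000
 7281117 19937))) (.aff 1000000 0 0)) (.aff 1000000 0 0)) (.aff 0 2081666 480385)), .pol, (.pol), (.pol),
 .pol⟩, .one ⟨2008000, 251, 2008000, -73895, 61746, 0, 0, 100000, 350000, 400000⟩ ⟨0, .pol, .pol, .pol, .pol,
 (.sx 50000 (.sy 375000 (.sx 25000 (.sy 362500 (.aff 650000 7182903 17055) (.aff 688000 7199537 13521)) (.aff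
 1000000 0 0)) (.sx 25000 (.sx 12500 (.sx 6250 (.aff 750000 7173689 8713) (.aff 1000000 0 0)) (.aff 1000000 0
 0)) (.aff 1000000 0 0))) (.aff 1000000 0 0)), .pol, (.pol), (.pol), .pol⟩, .one ⟨2008000, 251, 2008000,
 -318068, 159415, 0, 0, 100000, 400000, 450000⟩ ⟨0, .pol, .pol, .pol, .pol, (.sx 50000 (.sx 25000 (.aff
 1350000 7462808 16415) (.aff 1000000 0 0)) (.aff 1000000 0 0)), .pol, (.pol), (.pol), .pol⟩, .one ⟨2008000,
 251, 2008000, -518466, 249594, 0, 0, 100000, 450000, 500000⟩ ⟨0, .pol, .pol, .pol, .pol, (.sy 475000 (.sx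
 50000 (.sx 25000 (.sx 12500 (.sx 6250 (.aff 1900000 8556336 94667) (.aff 1000000 0 0)) (.aff 1000000 0 0))
 (.aff 1000000 0 0)) (.aff 1000000 0 0)) (.sx 50000 (.sx 25000 (.aff 1925000 8169379 104736) (.aff 1000000 0
 0)) (.aff 1000000 0 0))), .pol, (.pol), (.pol), .pol⟩, .one ⟨2008000, 251, 2008000, -761434, 371078, 0, 0,
 100000, 500000, 550000⟩ ⟨0, .pol, .pol, .pol, .pol, (.sx 50000 (.sx 25000 (.sx 12500 (.aff 2700000 11017260
 262316) (.sy 525000 (.aff 2500000 8590693 261912) (.sx 18750 (.aff 2650000 8834309 308174) (.aff 2500000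
 7716117 291598)))) (.aff 1000000 0 0)) (.aff 1000000 0 0)), .pol, (.pol), (.pol), .pol⟩, .one ⟨2008000, 251,
 2008000, -971471, 486598, 0, 0, 100000, 550000, 600000⟩ ⟨0, .pol, .pol, .pol, .pol, (.sy 575000 (.sy 562500
 (.aff 2888000 8905679 400256) (.sx 50000 (.sx 25000 (.aff 3000000 9539393 419314) (.aff 3188000 9334328
 512876)) (.aff 1000000 0 0))) (.sy 587500 (.sx 50000 (.sx 25000 (.aff 3000000 9643651 414781) (.aff 3100000
 9056821 486926)) (.aff 1000000 0 0)) (.sx 50000 (.sx 25000 (.aff 3000000 9746795 410392) (.aff 3100000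
 9153688 481774)) (.aff 1000000 0 0)))), .pol, (.pol), (.pol), .pol⟩, .one ⟨2008000, 251, 2008000, -1238936,
 647078, 0, 0, 100000, 600000, 650000⟩ ⟨0, .pol, .pol, .pol, .pol, (.sx 50000 (.sy 625000 (.aff 3900000
 10150000 828572) (.aff 5000000 14282857 1120225)) (.sy 625000 (.aff 3400000 8303358 693696) (.sx 75000 (.aff
 3950000 9931180 876281) (.aff 1000000 0 0)))), .pol, (.aff 5000000 14142136 1131371), (.pol), .pol⟩, .one
 ⟨2008000, 251, 2008000, -960628, 466177, 0, 0, 100000, 650000, 700000⟩ ⟨0, .pol, .pol, .pol, .pol, (.sy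
 675000 (.sx 50000 (.aff 5000000 16812694 951662) (.sx 75000 (.aff 4600000 10699533 1211268) (.aff 1000000 0
 0))) (.aff 1500000 1854050 134840)), .pol, (.sx 50000 (.aff 8000000 29698485 1649916) (.aff 7400000 17775746
 2304264)), (.pol), .pol⟩, .one ⟨2008000, 251, 2008000, -858220, 394491, 0, 0, 100000, 700000, 750000⟩ ⟨0,
 .pol, .pol, .pol, .pol, (.aff 1500000 1903944 131307), .pol, (.sx 50000 (.aff 8000000 30778781 1592006) (.sx
 75000 (.aff 8000000 23841141 2055271) (.sx 87500 (.aff 8000000 20910064 2343370) (.aff 7700000 18040303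
 2488318)))), (.pol), .pol⟩, .one ⟨2008000, 251, 2008000, -7064546, 5049236, 0, 0, 100000, 750000, 800000⟩ ⟨0,
 .pol, .pol, .pol, .pol, (.aff 1000000 0 0), .pol, (.aff 35000000 109294709 10576908), (.inf 3149604 317501),
 .pol⟩, .one ⟨2008000, 251, 2008000, 0, -602400, 0, 0, 100000, 800000, 850000⟩ ⟨0, .pol, .pol, .pol, .pol,
 (.aff 1000000 0 0), .pol, (.aff 35000000 112765243 10251386), (.inf 4062020 246183), .pol⟩, .one ⟨2008000,
 251, 2008000, 0, -602400, 0, 0, 100000, 850000, 900000⟩ ⟨0, .pol, .pol, .pol, .pol, (.aff 1000000 0 0), .pol,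
 (.aff 20000000 79482703 4541869), (.inf 4183301 239046), .pol⟩, .one ⟨2008000, 251, 2008000, 0, -602400, 0,
 0, 100000, 900000, 950000⟩ ⟨0, .pol, .pol, .pol, .pol, (.aff 1000000 0 0), .pol, (.aff 12000000 38630731
 3132222), (.inf 4301163 232496), .pol⟩, .one ⟨2008000, 251, 2008000, 0, -602400, 0, 0, 100000, 950000,
 1000000⟩ ⟨0, .pol, .pol, .pol, .pol, (.aff 1000000 0 0), .pol, (.aff 12000000 48574685 2491010), (.inf
 4415881 226456), .pol⟩], []⟩] = true := by decide +kernel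

theorem II_xL120_20 : PropII xL120_20 := propII_of cL120_20

theorem lL120_40_0 : chkPl ⟨(nat_lit 3), (nat_lit 1000), Int.ofNat (nat_lit 250), 0, ⟨0, 1⟩, ⟨Int.ofNat
 (nat_lit 40), 200⟩⟩ ⟨600000, 650000, 790411, 774755, 806384, 612032, 632797, 591949, 632455, 591607⟩ true 0
 0 [(nat_lit 50), (nat_lit 100), (nat_lit 150), (nat_lit 200), (nat_lit 250), (nat_lit 300), (nat_lit 350),
 (nat_lit 400), (nat_lit 450), (nat_lit 500), (nat_lit 550), (nat_lit 600), (nat_lit 650), (nat_lit 700),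
 (nat_lit 750), (nat_lit 800), (nat_lit 850), (nat_lit 900), (nat_lit 950), (nat_lit 1000)] [(Int.ofNat
 (nat_lit 1230)), (Int.ofNat (nat_lit 1982)), (Int.ofNat (nat_lit 2800)), (Int.ofNat (nat_lit 3611)),
 (Int.ofNat (nat_lit 4399)), (Int.ofNat (nat_lit 5160)), (Int.ofNat (nat_lit 5866)), (Int.ofNat (nat_lit
 6539)), (Int.ofNat (nat_lit 7159)), (Int.ofNat (nat_lit 7719)), (Int.ofNat (nat_lit 8218)), (Int.ofNat
 (nat_lit 8647)), (Int.ofNat (nat_lit 9003)), (Int.ofNat (nat_lit 9277)), (Int.ofNat (nat_lit 9462)),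
 (Int.ofNat (nat_lit 9544)), (Int.ofNat (nat_lit 9510)), (Int.negSucc (nat_lit 29999)), (Int.negSucc
 (nat_lit 29999)), (Int.negSucc (nat_lit 29999))] [qL120_40_0_0, qL120_40_0_1, qL120_40_0_2, qL120_40_0_3,
 qL120_40_0_4, qL120_40_0_5, qL120_40_0_6, qL120_40_0_7, qL120_40_0_8, qL120_40_0_9, qL120_40_0_10,
 qL120_40_0_11, qL120_40_0_12, qL120_40_0_13, qL120_40_0_14, qL120_40_0_15, qL120_40_0_16, qL120_40_0_17,
 qL120_40_0_18, qL120_40_0_19] = true :=
  chkPl_cons rfl hL120_40_0_0 (chkPl_cons rfl hL120_40_0_1 (chkPl_cons rfl hL120_40_0_2 (chkPl_cons rfl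
 hL120_40_0_3 (chkPl_cons rfl hL120_40_0_4 (chkPl_cons rfl hL120_40_0_5 (chkPl_cons rfl hL120_40_0_6
 (chkPl_cons rfl hL120_40_0_7 (chkPl_cons rfl hL120_40_0_8 (chkPl_cons rfl hL120_40_0_9 (chkPl_cons rfl
 hL120_40_0_10 (chkPl_cons rfl hL120_40_0_11 (chkPl_cons rfl hL120_40_0_12 (chkPl_cons rfl hL120_40_0_13
 (chkPl_cons rfl hL120_40_0_14 (chkPl_cons rfl hL120_40_0_15 (chkPl_cons rfl hL120_40_0_16 (chkPl_cons rfl
 hL120_40_0_17 (chkPl_cons rfl hL120_40_0_18 (chkPl_cons rfl hL120_40_0_19 chkPl_nil)))))))))))))))))))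

theorem lL120_40_1 : chkPl ⟨(nat_lit 3), (nat_lit 1000), Int.ofNat (nat_lit 400), 0, ⟨0, 1⟩, ⟨Int.ofNat
 (nat_lit 40), 200⟩⟩ ⟨600000, 650000, 790411, 774755, 806384, 612032, 632797, 591949, 632455, 591607⟩ true 0
 0 [(nat_lit 50), (nat_lit 100), (nat_lit 150), (nat_lit 200), (nat_lit 250), (nat_lit 300), (nat_lit 350),
 (nat_lit 400), (nat_lit 450), (nat_lit 500), (nat_lit 550), (nat_lit 600), (nat_lit 650), (nat_lit 700),
 (nat_lit 750), (nat_lit 800), (nat_lit 850), (nat_lit 900), (nat_lit 950), (nat_lit 1000)] [(Int.ofNat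
 (nat_lit 666)), (Int.ofNat (nat_lit 1417)), (Int.ofNat (nat_lit 2253)), (Int.ofNat (nat_lit 3181)),
 (Int.ofNat (nat_lit 4185)), (Int.ofNat (nat_lit 5050)), (Int.ofNat (nat_lit 5831)), (Int.ofNat (nat_lit
 6550)), (Int.ofNat (nat_lit 7129)), (Int.ofNat (nat_lit 7578)), (Int.ofNat (nat_lit 7888)), (Int.ofNat
 (nat_lit 8058)), (Int.ofNat (nat_lit 8073)), (Int.ofNat (nat_lit 7925)), (Int.ofNat (nat_lit 7588)),
 (Int.ofNat (nat_lit 7041)), (Int.ofNat (nat_lit 6232)), (Int.negSucc (nat_lit 29999)), (Int.negSucc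
 (nat_lit 29999)), (Int.negSucc (nat_lit 29999))] [qL120_40_1_0, qL120_40_1_1, qL120_40_1_2, qL120_40_1_3,
 qL120_40_1_4, qL120_40_1_5, qL120_40_1_6, qL120_40_1_7, qL120_40_1_8, qL120_40_1_9, qL120_40_1_10,
 qL120_40_1_11, qL120_40_1_12, qL120_40_1_13, qL120_40_1_14, qL120_40_1_15, qL120_40_1_16, qL120_40_1_17,
 qL120_40_1_18, qL120_40_1_19] = true :=
  chkPl_cons rfl hL120_40_1_0 (chkPl_cons rfl hL120_40_1_1 (chkPl_cons rfl hL120_40_1_2 (chkPl_cons rfl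
 hL120_40_1_3 (chkPl_cons rfl hL120_40_1_4 (chkPl_cons rfl hL120_40_1_5 (chkPl_cons rfl hL120_40_1_6
 (chkPl_cons rfl hL120_40_1_7 (chkPl_cons rfl hL120_40_1_8 (chkPl_cons rfl hL120_40_1_9 (chkPl_cons rfl
 hL120_40_1_10 (chkPl_cons rfl hL120_40_1_11 (chkPl_cons rfl hL120_40_1_12 (chkPl_cons rfl hL120_40_1_13
 (chkPl_cons rfl hL120_40_1_14 (chkPl_cons rfl hL120_40_1_15 (chkPl_cons rfl hL120_40_1_16 (chkPl_cons rfl
 hL120_40_1_17 (chkPl_cons rfl hL120_40_1_18 (chkPl_cons rfl hL120_40_1_19 chkPl_nil)))))))))))))))))))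

theorem lL120_40_2 : chkPl ⟨(nat_lit 3), (nat_lit 1000), Int.ofNat (nat_lit 1000), 0, ⟨0, 1⟩, ⟨Int.ofNat
 (nat_lit 40), 200⟩⟩ ⟨600000, 650000, 790411, 774755, 806384, 612032, 632797, 591949, 632455, 591607⟩ true 0
 0 [(nat_lit 50), (nat_lit 100), (nat_lit 150), (nat_lit 200), (nat_lit 250), (nat_lit 300), (nat_lit 350),
 (nat_lit 400), (nat_lit 450), (nat_lit 500), (nat_lit 550), (nat_lit 600), (nat_lit 650), (nat_lit 700),
 (nat_lit 750), (nat_lit 800), (nat_lit 850), (nat_lit 900), (nat_lit 950), (nat_lit 1000)] [(Int.ofNat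
 (nat_lit 614)), (Int.ofNat (nat_lit 1306)), (Int.ofNat (nat_lit 2076)), (Int.ofNat (nat_lit 2924)),
 (Int.ofNat (nat_lit 3850)), (Int.ofNat (nat_lit 4896)), (Int.ofNat (nat_lit 5793)), (Int.ofNat (nat_lit
 6577)), (Int.ofNat (nat_lit 7026)), (Int.ofNat (nat_lit 7002)), (Int.ofNat (nat_lit 6591)), (Int.ofNat
 (nat_lit 5684)), (Int.ofNat (nat_lit 4369)), (Int.ofNat (nat_lit 2498)), (Int.ofNat (nat_lit 117)),
 (Int.negSucc (nat_lit 2988)), (Int.negSucc (nat_lit 6858)), (Int.negSucc (nat_lit 29999)), (Int.negSucc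
 (nat_lit 29999)), (Int.negSucc (nat_lit 29999))] [qL120_40_2_0, qL120_40_2_1, qL120_40_2_2, qL120_40_2_3,
 qL120_40_2_4, qL120_40_2_5, qL120_40_2_6, qL120_40_2_7, qL120_40_2_8, qL120_40_2_9, qL120_40_2_10,
 qL120_40_2_11, qL120_40_2_12, qL120_40_2_13, qL120_40_2_14, qL120_40_2_15, qL120_40_2_16, qL120_40_2_17,
 qL120_40_2_18, qL120_40_2_19] = true :=
  chkPl_cons rfl hL120_40_2_0 (chkPl_cons rfl hL120_40_2_1 (chkPl_cons rfl hL120_40_2_2 (chkPl_cons rfl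
 hL120_40_2_3 (chkPl_cons rfl hL120_40_2_4 (chkPl_cons rfl hL120_40_2_5 (chkPl_cons rfl hL120_40_2_6
 (chkPl_cons rfl hL120_40_2_7 (chkPl_cons rfl hL120_40_2_8 (chkPl_cons rfl hL120_40_2_9 (chkPl_cons rfl
 hL120_40_2_10 (chkPl_cons rfl hL120_40_2_11 (chkPl_cons rfl hL120_40_2_12 (chkPl_cons rfl hL120_40_2_13
 (chkPl_cons rfl hL120_40_2_14 (chkPl_cons rfl hL120_40_2_15 (chkPl_cons rfl hL120_40_2_16 (chkPl_cons rfl
 hL120_40_2_17 (chkPl_cons rfl hL120_40_2_18 (chkPl_cons rfl hL120_40_2_19 chkPl_nil)))))))))))))))))))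

theorem lL120_40_3 : chkPl ⟨(nat_lit 1), (nat_lit 1000), Int.ofNat (nat_lit 210), 0, ⟨0, 1⟩, ⟨Int.ofNat
 (nat_lit 40), 200⟩⟩ ⟨600000, 650000, 790411, 774755, 806384, 612032, 632797, 591949, 632455, 591607⟩ true 0
 0 [(nat_lit 50), (nat_lit 100), (nat_lit 150), (nat_lit 200), (nat_lit 250), (nat_lit 300), (nat_lit 350),
 (nat_lit 400), (nat_lit 450), (nat_lit 500), (nat_lit 550), (nat_lit 600), (nat_lit 650), (nat_lit 700),
 (nat_lit 750), (nat_lit 800), (nat_lit 850), (nat_lit 900), (nat_lit 950), (nat_lit 1000)] [(Int.ofNat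
 (nat_lit 9490)), (Int.ofNat (nat_lit 2247)), (Int.ofNat (nat_lit 2423)), (Int.ofNat (nat_lit 2459)),
 (Int.ofNat (nat_lit 2420)), (Int.ofNat (nat_lit 2252)), (Int.ofNat (nat_lit 1961)), (Int.ofNat (nat_lit
 1540)), (Int.ofNat (nat_lit 975)), (Int.ofNat (nat_lit 261)), (Int.negSucc (nat_lit 633)), (Int.negSucc
 (nat_lit 1694)), (Int.negSucc (nat_lit 2975)), (Int.negSucc (nat_lit 3075)), (Int.negSucc (nat_lit 2750)),
 (Int.negSucc (nat_lit 2480)), (Int.negSucc (nat_lit 2258)), (Int.negSucc (nat_lit 29999)), (Int.negSucc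
 (nat_lit 29999)), (Int.negSucc (nat_lit 29999))] [qL120_40_3_0, qL120_40_3_1, qL120_40_3_2, qL120_40_3_3,
 qL120_40_3_4, qL120_40_3_5, qL120_40_3_6, qL120_40_3_7, qL120_40_3_8, qL120_40_3_9, qL120_40_3_10,
 qL120_40_3_11, qL120_40_3_12, qL120_40_3_13, qL120_40_3_14, qL120_40_3_15, qL120_40_3_16, qL120_40_3_17,
 qL120_40_3_18, qL120_40_3_19] = true :=
  chkPl_cons rfl hL120_40_3_0 (chkPl_cons rfl hL120_40_3_1 (chkPl_cons rfl hL120_40_3_2 (chkPl_cons rfl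
 hL120_40_3_3 (chkPl_cons rfl hL120_40_3_4 (chkPl_cons rfl hL120_40_3_5 (chkPl_cons rfl hL120_40_3_6
 (chkPl_cons rfl hL120_40_3_7 (chkPl_cons rfl hL120_40_3_8 (chkPl_cons rfl hL120_40_3_9 (chkPl_cons rfl
 hL120_40_3_10 (chkPl_cons rfl hL120_40_3_11 (chkPl_cons rfl hL120_40_3_12 (chkPl_cons rfl hL120_40_3_13
 (chkPl_cons rfl hL120_40_3_14 (chkPl_cons rfl hL120_40_3_15 (chkPl_cons rfl hL120_40_3_16 (chkPl_cons rfl
 hL120_40_3_17 (chkPl_cons rfl hL120_40_3_18 (chkPl_cons rfl hL120_40_3_19 chkPl_nil)))))))))))))))))))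

theorem lL120_40_4 : chkPl ⟨(nat_lit 1), (nat_lit 1000), Int.ofNat (nat_lit 250), 0, ⟨0, 1⟩, ⟨Int.ofNat
 (nat_lit 40), 200⟩⟩ ⟨600000, 650000, 790411, 774755, 806384, 612032, 632797, 591949, 632455, 591607⟩ true 0
 0 [(nat_lit 50), (nat_lit 100), (nat_lit 150), (nat_lit 200), (nat_lit 250), (nat_lit 300), (nat_lit 350),
 (nat_lit 400), (nat_lit 450), (nat_lit 500), (nat_lit 550), (nat_lit 600), (nat_lit 650), (nat_lit 700),
 (nat_lit 750), (nat_lit 800), (nat_lit 850), (nat_lit 900), (nat_lit 950), (nat_lit 1000)] [(Int.ofNat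
 (nat_lit 1238)), (Int.ofNat (nat_lit 1764)), (Int.ofNat (nat_lit 2090)), (Int.ofNat (nat_lit 2282)),
 (Int.ofNat (nat_lit 2326)), (Int.ofNat (nat_lit 2227)), (Int.ofNat (nat_lit 1947)), (Int.ofNat (nat_lit
 1546)), (Int.ofNat (nat_lit 964)), (Int.ofNat (nat_lit 224)), (Int.negSucc (nat_lit 721)), (Int.negSucc
 (nat_lit 1851)), (Int.negSucc (nat_lit 3224)), (Int.negSucc (nat_lit 3440)), (Int.negSucc (nat_lit 3242)),
 (Int.negSucc (nat_lit 3174)), (Int.negSucc (nat_lit 3192)), (Int.negSucc (nat_lit 29999)), (Int.negSucc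
 (nat_lit 29999)), (Int.negSucc (nat_lit 29999))] [qL120_40_4_0, qL120_40_4_1, qL120_40_4_2, qL120_40_4_3,
 qL120_40_4_4, qL120_40_4_5, qL120_40_4_6, qL120_40_4_7, qL120_40_4_8, qL120_40_4_9, qL120_40_4_10,
 qL120_40_4_11, qL120_40_4_12, qL120_40_4_13, qL120_40_4_14, qL120_40_4_15, qL120_40_4_16, qL120_40_4_17,
 qL120_40_4_18, qL120_40_4_19] = true :=
  chkPl_cons rfl hL120_40_4_0 (chkPl_cons rfl hL120_40_4_1 (chkPl_cons rfl hL120_40_4_2 (chkPl_cons rfl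
 hL120_40_4_3 (chkPl_cons rfl hL120_40_4_4 (chkPl_cons rfl hL120_40_4_5 (chkPl_cons rfl hL120_40_4_6
 (chkPl_cons rfl hL120_40_4_7 (chkPl_cons rfl hL120_40_4_8 (chkPl_cons rfl hL120_40_4_9 (chkPl_cons rfl
 hL120_40_4_10 (chkPl_cons rfl hL120_40_4_11 (chkPl_cons rfl hL120_40_4_12 (chkPl_cons rfl hL120_40_4_13
 (chkPl_cons rfl hL120_40_4_14 (chkPl_cons rfl hL120_40_4_15 (chkPl_cons rfl hL120_40_4_16 (chkPl_cons rfl
 hL120_40_4_17 (chkPl_cons rfl hL120_40_4_18 (chkPl_cons rfl hL120_40_4_19 chkPl_nil)))))))))))))))))))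

theorem lL120_40_5 : chkPl ⟨(nat_lit 1), (nat_lit 1000), Int.ofNat (nat_lit 400), 0, ⟨0, 1⟩, ⟨Int.ofNat
 (nat_lit 40), 200⟩⟩ ⟨600000, 650000, 790411, 774755, 806384, 612032, 632797, 591949, 632455, 591607⟩ true 0
 0 [(nat_lit 50), (nat_lit 100), (nat_lit 150), (nat_lit 200), (nat_lit 250), (nat_lit 300), (nat_lit 350),
 (nat_lit 400), (nat_lit 450), (nat_lit 500), (nat_lit 550), (nat_lit 600), (nat_lit 650), (nat_lit 700),
 (nat_lit 750), (nat_lit 800), (nat_lit 850), (nat_lit 900), (nat_lit 950), (nat_lit 1000)] [(Int.ofNat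
 (nat_lit 321)), (Int.ofNat (nat_lit 725)), (Int.ofNat (nat_lit 1213)), (Int.ofNat (nat_lit 1790)),
 (Int.ofNat (nat_lit 2006)), (Int.ofNat (nat_lit 2062)), (Int.ofNat (nat_lit 1919)), (Int.ofNat (nat_lit
 1549)), (Int.ofNat (nat_lit 942)), (Int.ofNat (nat_lit 83)), (Int.negSucc (nat_lit 1052)), (Int.negSucc
 (nat_lit 2440)), (Int.negSucc (nat_lit 4155)), (Int.negSucc (nat_lit 4800)), (Int.negSucc (nat_lit 5104)),
 (Int.negSucc (nat_lit 5686)), (Int.negSucc (nat_lit 6458)), (Int.negSucc (nat_lit 29999)), (Int.negSucc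
 (nat_lit 29999)), (Int.negSucc (nat_lit 29999))] [qL120_40_5_0, qL120_40_5_1, qL120_40_5_2, qL120_40_5_3,
 qL120_40_5_4, qL120_40_5_5, qL120_40_5_6, qL120_40_5_7, qL120_40_5_8, qL120_40_5_9, qL120_40_5_10,
 qL120_40_5_11, qL120_40_5_12, qL120_40_5_13, qL120_40_5_14, qL120_40_5_15, qL120_40_5_16, qL120_40_5_17,
 qL120_40_5_18, qL120_40_5_19] = true :=
  chkPl_cons rfl hL120_40_5_0 (chkPl_cons rfl hL120_40_5_1 (chkPl_cons rfl hL120_40_5_2 (chkPl_cons rfl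
 hL120_40_5_3 (chkPl_cons rfl hL120_40_5_4 (chkPl_cons rfl hL120_40_5_5 (chkPl_cons rfl hL120_40_5_6
 (chkPl_cons rfl hL120_40_5_7 (chkPl_cons rfl hL120_40_5_8 (chkPl_cons rfl hL120_40_5_9 (chkPl_cons rfl
 hL120_40_5_10 (chkPl_cons rfl hL120_40_5_11 (chkPl_cons rfl hL120_40_5_12 (chkPl_cons rfl hL120_40_5_13
 (chkPl_cons rfl hL120_40_5_14 (chkPl_cons rfl hL120_40_5_15 (chkPl_cons rfl hL120_40_5_16 (chkPl_cons rfl
 hL120_40_5_17 (chkPl_cons rfl hL120_40_5_18 (chkPl_cons rfl hL120_40_5_19 chkPl_nil)))))))))))))))))))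

theorem lL120_40_6 : chkPl ⟨(nat_lit 1), (nat_lit 1000), Int.ofNat (nat_lit 1000), 0, ⟨0, 1⟩, ⟨Int.ofNat
 (nat_lit 40), 200⟩⟩ ⟨600000, 650000, 790411, 774755, 806384, 612032, 632797, 591949, 632455, 591607⟩ true 0
 0 [(nat_lit 50), (nat_lit 100), (nat_lit 150), (nat_lit 200), (nat_lit 250), (nat_lit 300), (nat_lit 350),
 (nat_lit 400), (nat_lit 450), (nat_lit 500), (nat_lit 550), (nat_lit 600), (nat_lit 650), (nat_lit 700),
 (nat_lit 750), (nat_lit 800), (nat_lit 850), (nat_lit 900), (nat_lit 950), (nat_lit 1000)] [(Int.ofNat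
 (nat_lit 139)), (Int.ofNat (nat_lit 345)), (Int.ofNat (nat_lit 618)), (Int.ofNat (nat_lit 960)), (Int.ofNat
 (nat_lit 1369)), (Int.ofNat (nat_lit 1832)), (Int.ofNat (nat_lit 1787)), (Int.ofNat (nat_lit 1603)),
 (Int.ofNat (nat_lit 811)), (Int.negSucc (nat_lit 479)), (Int.negSucc (nat_lit 2369)), (Int.negSucc (nat_lit
 4776)), (Int.negSucc (nat_lit 7861)), (Int.negSucc (nat_lit 10240)), (Int.negSucc (nat_lit 12552)),
 (Int.negSucc (nat_lit 15733)), (Int.negSucc (nat_lit 19521)), (Int.negSucc (nat_lit 29999)), (Int.negSucc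
 (nat_lit 29999)), (Int.negSucc (nat_lit 29999))] [qL120_40_6_0, qL120_40_6_1, qL120_40_6_2, qL120_40_6_3,
 qL120_40_6_4, qL120_40_6_5, qL120_40_6_6, qL120_40_6_7, qL120_40_6_8, qL120_40_6_9, qL120_40_6_10,
 qL120_40_6_11, qL120_40_6_12, qL120_40_6_13, qL120_40_6_14, qL120_40_6_15, qL120_40_6_16, qL120_40_6_17,
 qL120_40_6_18, qL120_40_6_19] = true :=
  chkPl_cons rfl hL120_40_6_0 (chkPl_cons rfl hL120_40_6_1 (chkPl_cons rfl hL120_40_6_2 (chkPl_cons rfl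
 hL120_40_6_3 (chkPl_cons rfl hL120_40_6_4 (chkPl_cons rfl hL120_40_6_5 (chkPl_cons rfl hL120_40_6_6
 (chkPl_cons rfl hL120_40_6_7 (chkPl_cons rfl hL120_40_6_8 (chkPl_cons rfl hL120_40_6_9 (chkPl_cons rfl
 hL120_40_6_10 (chkPl_cons rfl hL120_40_6_11 (chkPl_cons rfl hL120_40_6_12 (chkPl_cons rfl hL120_40_6_13
 (chkPl_cons rfl hL120_40_6_14 (chkPl_cons rfl hL120_40_6_15 (chkPl_cons rfl hL120_40_6_16 (chkPl_cons rfl
 hL120_40_6_17 (chkPl_cons rfl hL120_40_6_18 (chkPl_cons rfl hL120_40_6_19 chkPl_nil)))))))))))))))))))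

def cL120_40 : chkII xL120_40 ⟨600000, 650000, 790411, 774755, 806384, 612032, 632797, 591949, 632455,
 591607⟩ [⟨[qL120_40_0_0, qL120_40_0_1, qL120_40_0_2, qL120_40_0_3, qL120_40_0_4, qL120_40_0_5,
 qL120_40_0_6, qL120_40_0_7, qL120_40_0_8, qL120_40_0_9, qL120_40_0_10, qL120_40_0_11, qL120_40_0_12,
 qL120_40_0_13, qL120_40_0_14, qL120_40_0_15, qL120_40_0_16, qL120_40_0_17, qL120_40_0_18, qL120_40_0_19],
 []⟩, ⟨[qL120_40_1_0, qL120_40_1_1, qL120_40_1_2, qL120_40_1_3, qL120_40_1_4, qL120_40_1_5, qL120_40_1_6,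
 qL120_40_1_7, qL120_40_1_8, qL120_40_1_9, qL120_40_1_10, qL120_40_1_11, qL120_40_1_12, qL120_40_1_13,
 qL120_40_1_14, qL120_40_1_15, qL120_40_1_16, qL120_40_1_17, qL120_40_1_18, qL120_40_1_19], []⟩,
 ⟨[qL120_40_2_0, qL120_40_2_1, qL120_40_2_2, qL120_40_2_3, qL120_40_2_4, qL120_40_2_5, qL120_40_2_6,
 qL120_40_2_7, qL120_40_2_8, qL120_40_2_9, qL120_40_2_10, qL120_40_2_11, qL120_40_2_12, qL120_40_2_13,
 qL120_40_2_14, qL120_40_2_15, qL120_40_2_16, qL120_40_2_17, qL120_40_2_18, qL120_40_2_19], []⟩,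
 ⟨[qL120_40_3_0, qL120_40_3_1, qL120_40_3_2, qL120_40_3_3, qL120_40_3_4, qL120_40_3_5, qL120_40_3_6,
 qL120_40_3_7, qL120_40_3_8, qL120_40_3_9, qL120_40_3_10, qL120_40_3_11, qL120_40_3_12, qL120_40_3_13,
 qL120_40_3_14, qL120_40_3_15, qL120_40_3_16, qL120_40_3_17, qL120_40_3_18, qL120_40_3_19], []⟩,
 ⟨[qL120_40_4_0, qL120_40_4_1, qL120_40_4_2, qL120_40_4_3, qL120_40_4_4, qL120_40_4_5, qL120_40_4_6,
 qL120_40_4_7, qL120_40_4_8, qL120_40_4_9, qL120_40_4_10, qL120_40_4_11, qL120_40_4_12, qL120_40_4_13,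
 qL120_40_4_14, qL120_40_4_15, qL120_40_4_16, qL120_40_4_17, qL120_40_4_18, qL120_40_4_19], []⟩,
 ⟨[qL120_40_5_0, qL120_40_5_1, qL120_40_5_2, qL120_40_5_3, qL120_40_5_4, qL120_40_5_5, qL120_40_5_6,
 qL120_40_5_7, qL120_40_5_8, qL120_40_5_9, qL120_40_5_10, qL120_40_5_11, qL120_40_5_12, qL120_40_5_13,
 qL120_40_5_14, qL120_40_5_15, qL120_40_5_16, qL120_40_5_17, qL120_40_5_18, qL120_40_5_19], []⟩,
 ⟨[qL120_40_6_0, qL120_40_6_1, qL120_40_6_2, qL120_40_6_3, qL120_40_6_4, qL120_40_6_5, qL120_40_6_6,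
 qL120_40_6_7, qL120_40_6_8, qL120_40_6_9, qL120_40_6_10, qL120_40_6_11, qL120_40_6_12, qL120_40_6_13,
 qL120_40_6_14, qL120_40_6_15, qL120_40_6_16, qL120_40_6_17, qL120_40_6_18, qL120_40_6_19], []⟩] = true :=
 chkII_mk (by decide +kernel) (chkCls_cons lL120_40_0 rfl (chkCls_cons lL120_40_1 rfl (chkCls_cons
 lL120_40_2 rfl (chkCls_cons lL120_40_3 rfl (chkCls_cons lL120_40_4 rfl (chkCls_cons lL120_40_5 rfl
 (chkCls_cons lL120_40_6 rfl chkCls_nil)))))))

theorem II_xL120_40 : PropII xL120_40 := propII_of cL120_40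

end CB
end Pool.Agent.Lib.MP_6947cd_al
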