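import Pool.Agent.Lib.MP_6947cd_al.L.PairA
import Pool.Agent.Lib.MP_6947cd_al.L.BoxLib
import Pool.Agent.Lib.MP_6947cd_al.PS.L120_60_0
import Pool.Agent.Lib.MP_6947cd_al.PS.L120_60_1

/-!
Problem MP_6947cd_al (Chollet).  Library of pair functions: certificates (generated).
-/

set_option autoImplicit false
set_option linter.defProp false
set_option maxRecDepth 100000

namespace Pool.Agent.Lib.MP_6947cd_al
namespace CB

open CA

theorem lL120_60_0 : chkPl ⟨(nat_lit 3), (nat_lit 1000), Int.ofNat (nat_lit 260), 0, ⟨0, 1⟩, ⟨Int.ofNat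
 (nat_lit 60), 200⟩⟩ ⟨600000, 650000, 790411, 774755, 806384, 612032, 632797, 591949, 632455, 591607⟩ true 0
 0 [(nat_lit 50), (nat_lit 100), (nat_lit 150), (nat_lit 200), (nat_lit 250), (nat_lit 300), (nat_lit 350),
 (nat_lit 400), (nat_lit 450), (nat_lit 500), (nat_lit 550), (nat_lit 600), (nat_lit 650), (nat_lit 700),
 (nat_lit 750), (nat_lit 800), (nat_lit 850), (nat_lit 900), (nat_lit 950), (nat_lit 1000)] [(Int.ofNat
 (nat_lit 1739)), (Int.ofNat (nat_lit 1869)), (Int.ofNat (nat_lit 2734)), (Int.ofNat (nat_lit 3560)),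
 (Int.ofNat (nat_lit 4377)), (Int.ofNat (nat_lit 5152)), (Int.ofNat (nat_lit 5875)), (Int.ofNat (nat_lit
 6540)), (Int.ofNat (nat_lit 7157)), (Int.ofNat (nat_lit 7710)), (Int.ofNat (nat_lit 8196)), (Int.ofNat
 (nat_lit 8608)), (Int.ofNat (nat_lit 8941)), (Int.ofNat (nat_lit 9186)), (Int.ofNat (nat_lit 9337)),
 (Int.ofNat (nat_lit 9377)), (Int.ofNat (nat_lit 9292)), (Int.ofNat (nat_lit 9074)), (Int.ofNat (nat_lit
 8408)), (Int.negSucc (nat_lit 29999))] [qL120_60_0_0, qL120_60_0_1, qL120_60_0_2, qL120_60_0_3,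
 qL120_60_0_4, qL120_60_0_5, qL120_60_0_6, qL120_60_0_7, qL120_60_0_8, qL120_60_0_9, qL120_60_0_10,
 qL120_60_0_11, qL120_60_0_12, qL120_60_0_13, qL120_60_0_14, qL120_60_0_15, qL120_60_0_16, qL120_60_0_17,
 qL120_60_0_18, qL120_60_0_19] = true :=
  chkPl_cons rfl hL120_60_0_0 (chkPl_cons rfl hL120_60_0_1 (chkPl_cons rfl hL120_60_0_2 (chkPl_cons rfl
 hL120_60_0_3 (chkPl_cons rfl hL120_60_0_4 (chkPl_cons rfl hL120_60_0_5 (chkPl_cons rfl hL120_60_0_6
 (chkPl_cons rfl hL120_60_0_7 (chkPl_cons rfl hL120_60_0_8 (chkPl_cons rfl hL120_60_0_9 (chkPl_cons rfl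
 hL120_60_0_10 (chkPl_cons rfl hL120_60_0_11 (chkPl_cons rfl hL120_60_0_12 (chkPl_cons rfl hL120_60_0_13
 (chkPl_cons rfl hL120_60_0_14 (chkPl_cons rfl hL120_60_0_15 (chkPl_cons rfl hL120_60_0_16 (chkPl_cons rfl
 hL120_60_0_17 (chkPl_cons rfl hL120_60_0_18 (chkPl_cons rfl hL120_60_0_19 chkPl_nil)))))))))))))))))))

theorem lL120_60_1 : chkPl ⟨(nat_lit 3), (nat_lit 1000), Int.ofNat (nat_lit 400), 0, ⟨0, 1⟩, ⟨Int.ofNat
 (nat_lit 60), 200⟩⟩ ⟨600000, 650000, 790411, 774755, 806384, 612032, 632797, 591949, 632455, 591607⟩ true 0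
 0 [(nat_lit 50), (nat_lit 100), (nat_lit 150), (nat_lit 200), (nat_lit 250), (nat_lit 300), (nat_lit 350),
 (nat_lit 400), (nat_lit 450), (nat_lit 500), (nat_lit 550), (nat_lit 600), (nat_lit 650), (nat_lit 700),
 (nat_lit 750), (nat_lit 800), (nat_lit 850), (nat_lit 900), (nat_lit 950), (nat_lit 1000)] [(Int.ofNat
 (nat_lit 666)), (Int.ofNat (nat_lit 1417)), (Int.ofNat (nat_lit 2254)), (Int.ofNat (nat_lit 3182)),
 (Int.ofNat (nat_lit 4181)), (Int.ofNat (nat_lit 5046)), (Int.ofNat (nat_lit 5831)), (Int.ofNat (nat_lit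
 6550)), (Int.ofNat (nat_lit 7129)), (Int.ofNat (nat_lit 7578)), (Int.ofNat (nat_lit 7888)), (Int.ofNat
 (nat_lit 8058)), (Int.ofNat (nat_lit 8073)), (Int.ofNat (nat_lit 7925)), (Int.ofNat (nat_lit 7588)),
 (Int.ofNat (nat_lit 7041)), (Int.ofNat (nat_lit 6231)), (Int.ofNat (nat_lit 5081)), (Int.ofNat (nat_lit
 3265)), (Int.negSucc (nat_lit 29999))] [qL120_60_1_0, qL120_60_1_1, qL120_60_1_2, qL120_60_1_3,
 qL120_60_1_4, qL120_60_1_5, qL120_60_1_6, qL120_60_1_7, qL120_60_1_8, qL120_60_1_9, qL120_60_1_10,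
 qL120_60_1_11, qL120_60_1_12, qL120_60_1_13, qL120_60_1_14, qL120_60_1_15, qL120_60_1_16, qL120_60_1_17,
 qL120_60_1_18, qL120_60_1_19] = true :=
  chkPl_cons rfl hL120_60_1_0 (chkPl_cons rfl hL120_60_1_1 (chkPl_cons rfl hL120_60_1_2 (chkPl_cons rfl
 hL120_60_1_3 (chkPl_cons rfl hL120_60_1_4 (chkPl_cons rfl hL120_60_1_5 (chkPl_cons rfl hL120_60_1_6
 (chkPl_cons rfl hL120_60_1_7 (chkPl_cons rfl hL120_60_1_8 (chkPl_cons rfl hL120_60_1_9 (chkPl_cons rfl
 hL120_60_1_10 (chkPl_cons rfl hL120_60_1_11 (chkPl_cons rfl hL120_60_1_12 (chkPl_cons rfl hL120_60_1_13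
 (chkPl_cons rfl hL120_60_1_14 (chkPl_cons rfl hL120_60_1_15 (chkPl_cons rfl hL120_60_1_16 (chkPl_cons rfl
 hL120_60_1_17 (chkPl_cons rfl hL120_60_1_18 (chkPl_cons rfl hL120_60_1_19 chkPl_nil)))))))))))))))))))

theorem lL120_60_2 : chkPl ⟨(nat_lit 3), (nat_lit 1000), Int.ofNat (nat_lit 1000), 0, ⟨0, 1⟩, ⟨Int.ofNat
 (nat_lit 60), 200⟩⟩ ⟨600000, 650000, 790411, 774755, 806384, 612032, 632797, 591949, 632455, 591607⟩ true 0
 0 [(nat_lit 50), (nat_lit 100), (nat_lit 150), (nat_lit 200), (nat_lit 250), (nat_lit 300), (nat_lit 350),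
 (nat_lit 400), (nat_lit 450), (nat_lit 500), (nat_lit 550), (nat_lit 600), (nat_lit 650), (nat_lit 700),
 (nat_lit 750), (nat_lit 800), (nat_lit 850), (nat_lit 900), (nat_lit 950), (nat_lit 1000)] [(Int.ofNat
 (nat_lit 614)), (Int.ofNat (nat_lit 1306)), (Int.ofNat (nat_lit 2076)), (Int.ofNat (nat_lit 2924)),
 (Int.ofNat (nat_lit 3850)), (Int.ofNat (nat_lit 4896)), (Int.ofNat (nat_lit 5793)), (Int.ofNat (nat_lit
 6577)), (Int.ofNat (nat_lit 7026)), (Int.ofNat (nat_lit 7000)), (Int.ofNat (nat_lit 6589)), (Int.ofNat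
 (nat_lit 5684)), (Int.ofNat (nat_lit 4369)), (Int.ofNat (nat_lit 2498)), (Int.ofNat (nat_lit 117)),
 (Int.negSucc (nat_lit 2988)), (Int.negSucc (nat_lit 6853)), (Int.negSucc (nat_lit 11924)), (Int.negSucc
 (nat_lit 19167)), (Int.negSucc (nat_lit 29999))] [qL120_60_2_0, qL120_60_2_1, qL120_60_2_2, qL120_60_2_3,
 qL120_60_2_4, qL120_60_2_5, qL120_60_2_6, qL120_60_2_7, qL120_60_2_8, qL120_60_2_9, qL120_60_2_10,
 qL120_60_2_11, qL120_60_2_12, qL120_60_2_13, qL120_60_2_14, qL120_60_2_15, qL120_60_2_16, qL120_60_2_17,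
 qL120_60_2_18, qL120_60_2_19] = true :=
  chkPl_cons rfl hL120_60_2_0 (chkPl_cons rfl hL120_60_2_1 (chkPl_cons rfl hL120_60_2_2 (chkPl_cons rfl
 hL120_60_2_3 (chkPl_cons rfl hL120_60_2_4 (chkPl_cons rfl hL120_60_2_5 (chkPl_cons rfl hL120_60_2_6
 (chkPl_cons rfl hL120_60_2_7 (chkPl_cons rfl hL120_60_2_8 (chkPl_cons rfl hL120_60_2_9 (chkPl_cons rfl
 hL120_60_2_10 (chkPl_cons rfl hL120_60_2_11 (chkPl_cons rfl hL120_60_2_12 (chkPl_cons rfl hL120_60_2_13
 (chkPl_cons rfl hL120_60_2_14 (chkPl_cons rfl hL120_60_2_15 (chkPl_cons rfl hL120_60_2_16 (chkPl_cons rfl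
 hL120_60_2_17 (chkPl_cons rfl hL120_60_2_18 (chkPl_cons rfl hL120_60_2_19 chkPl_nil)))))))))))))))))))

theorem lL120_60_3 : chkPl ⟨(nat_lit 1), (nat_lit 1000), Int.ofNat (nat_lit 230), 0, ⟨0, 1⟩, ⟨Int.ofNat
 (nat_lit 60), 200⟩⟩ ⟨600000, 650000, 790411, 774755, 806384, 612032, 632797, 591949, 632455, 591607⟩ true 0
 0 [(nat_lit 50), (nat_lit 100), (nat_lit 150), (nat_lit 200), (nat_lit 250), (nat_lit 300), (nat_lit 350),
 (nat_lit 400), (nat_lit 450), (nat_lit 500), (nat_lit 550), (nat_lit 600), (nat_lit 650), (nat_lit 700),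
 (nat_lit 750), (nat_lit 800), (nat_lit 850), (nat_lit 900), (nat_lit 950), (nat_lit 1000)] [(Int.ofNat
 (nat_lit 8489)), (Int.ofNat (nat_lit 2006)), (Int.ofNat (nat_lit 2266)), (Int.ofNat (nat_lit 2365)),
 (Int.ofNat (nat_lit 2371)), (Int.ofNat (nat_lit 2235)), (Int.ofNat (nat_lit 1960)), (Int.ofNat (nat_lit
 1545)), (Int.ofNat (nat_lit 968)), (Int.ofNat (nat_lit 242)), (Int.negSucc (nat_lit 677)), (Int.negSucc
 (nat_lit 1772)), (Int.negSucc (nat_lit 3094)), (Int.negSucc (nat_lit 3254)), (Int.negSucc (nat_lit 2991)),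
 (Int.negSucc (nat_lit 2840)), (Int.negSucc (nat_lit 2703)), (Int.negSucc (nat_lit 2595)), (Int.negSucc
 (nat_lit 4055)), (Int.negSucc (nat_lit 29999))] [qL120_60_3_0, qL120_60_3_1, qL120_60_3_2, qL120_60_3_3,
 qL120_60_3_4, qL120_60_3_5, qL120_60_3_6, qL120_60_3_7, qL120_60_3_8, qL120_60_3_9, qL120_60_3_10,
 qL120_60_3_11, qL120_60_3_12, qL120_60_3_13, qL120_60_3_14, qL120_60_3_15, qL120_60_3_16, qL120_60_3_17,
 qL120_60_3_18, qL120_60_3_19] = true :=
  chkPl_cons rfl hL120_60_3_0 (chkPl_cons rfl hL120_60_3_1 (chkPl_cons rfl hL120_60_3_2 (chkPl_cons rfl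
 hL120_60_3_3 (chkPl_cons rfl hL120_60_3_4 (chkPl_cons rfl hL120_60_3_5 (chkPl_cons rfl hL120_60_3_6
 (chkPl_cons rfl hL120_60_3_7 (chkPl_cons rfl hL120_60_3_8 (chkPl_cons rfl hL120_60_3_9 (chkPl_cons rfl
 hL120_60_3_10 (chkPl_cons rfl hL120_60_3_11 (chkPl_cons rfl hL120_60_3_12 (chkPl_cons rfl hL120_60_3_13
 (chkPl_cons rfl hL120_60_3_14 (chkPl_cons rfl hL120_60_3_15 (chkPl_cons rfl hL120_60_3_16 (chkPl_cons rfl
 hL120_60_3_17 (chkPl_cons rfl hL120_60_3_18 (chkPl_cons rfl hL120_60_3_19 chkPl_nil)))))))))))))))))))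

theorem lL120_60_4 : chkPl ⟨(nat_lit 1), (nat_lit 1000), Int.ofNat (nat_lit 250), 0, ⟨0, 1⟩, ⟨Int.ofNat
 (nat_lit 60), 200⟩⟩ ⟨600000, 650000, 790411, 774755, 806384, 612032, 632797, 591949, 632455, 591607⟩ true 0
 0 [(nat_lit 50), (nat_lit 100), (nat_lit 150), (nat_lit 200), (nat_lit 250), (nat_lit 300), (nat_lit 350),
 (nat_lit 400), (nat_lit 450), (nat_lit 500), (nat_lit 550), (nat_lit 600), (nat_lit 650), (nat_lit 700),
 (nat_lit 750), (nat_lit 800), (nat_lit 850), (nat_lit 900), (nat_lit 950), (nat_lit 1000)] [(Int.ofNat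
 (nat_lit 1883)), (Int.ofNat (nat_lit 1757)), (Int.ofNat (nat_lit 2111)), (Int.ofNat (nat_lit 2271)),
 (Int.ofNat (nat_lit 2321)), (Int.ofNat (nat_lit 2218)), (Int.ofNat (nat_lit 1960)), (Int.ofNat (nat_lit
 1542)), (Int.ofNat (nat_lit 968)), (Int.ofNat (nat_lit 224)), (Int.negSucc (nat_lit 721)), (Int.negSucc
 (nat_lit 1851)), (Int.negSucc (nat_lit 3223)), (Int.negSucc (nat_lit 3440)), (Int.negSucc (nat_lit 3243)),
 (Int.negSucc (nat_lit 3173)), (Int.negSucc (nat_lit 3194)), (Int.negSucc (nat_lit 3288)), (Int.negSucc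
 (nat_lit 4233)), (Int.negSucc (nat_lit 29999))] [qL120_60_4_0, qL120_60_4_1, qL120_60_4_2, qL120_60_4_3,
 qL120_60_4_4, qL120_60_4_5, qL120_60_4_6, qL120_60_4_7, qL120_60_4_8, qL120_60_4_9, qL120_60_4_10,
 qL120_60_4_11, qL120_60_4_12, qL120_60_4_13, qL120_60_4_14, qL120_60_4_15, qL120_60_4_16, qL120_60_4_17,
 qL120_60_4_18, qL120_60_4_19] = true :=
  chkPl_cons rfl hL120_60_4_0 (chkPl_cons rfl hL120_60_4_1 (chkPl_cons rfl hL120_60_4_2 (chkPl_cons rfl
 hL120_60_4_3 (chkPl_cons rfl hL120_60_4_4 (chkPl_cons rfl hL120_60_4_5 (chkPl_cons rfl hL120_60_4_6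
 (chkPl_cons rfl hL120_60_4_7 (chkPl_cons rfl hL120_60_4_8 (chkPl_cons rfl hL120_60_4_9 (chkPl_cons rfl
 hL120_60_4_10 (chkPl_cons rfl hL120_60_4_11 (chkPl_cons rfl hL120_60_4_12 (chkPl_cons rfl hL120_60_4_13
 (chkPl_cons rfl hL120_60_4_14 (chkPl_cons rfl hL120_60_4_15 (chkPl_cons rfl hL120_60_4_16 (chkPl_cons rfl
 hL120_60_4_17 (chkPl_cons rfl hL120_60_4_18 (chkPl_cons rfl hL120_60_4_19 chkPl_nil)))))))))))))))))))

theorem lL120_60_5 : chkPl ⟨(nat_lit 1), (nat_lit 1000), Int.ofNat (nat_lit 400), 0, ⟨0, 1⟩, ⟨Int.ofNat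
 (nat_lit 60), 200⟩⟩ ⟨600000, 650000, 790411, 774755, 806384, 612032, 632797, 591949, 632455, 591607⟩ true 0
 0 [(nat_lit 50), (nat_lit 100), (nat_lit 150), (nat_lit 200), (nat_lit 250), (nat_lit 300), (nat_lit 350),
 (nat_lit 400), (nat_lit 450), (nat_lit 500), (nat_lit 550), (nat_lit 600), (nat_lit 650), (nat_lit 700),
 (nat_lit 750), (nat_lit 800), (nat_lit 850), (nat_lit 900), (nat_lit 950), (nat_lit 1000)] [(Int.ofNat
 (nat_lit 321)), (Int.ofNat (nat_lit 725)), (Int.ofNat (nat_lit 1219)), (Int.ofNat (nat_lit 1790)),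
 (Int.ofNat (nat_lit 2006)), (Int.ofNat (nat_lit 2068)), (Int.ofNat (nat_lit 1913)), (Int.ofNat (nat_lit
 1557)), (Int.ofNat (nat_lit 934)), (Int.ofNat (nat_lit 82)), (Int.negSucc (nat_lit 1051)), (Int.negSucc
 (nat_lit 2439)), (Int.negSucc (nat_lit 4156)), (Int.negSucc (nat_lit 4799)), (Int.negSucc (nat_lit 5107)),
 (Int.negSucc (nat_lit 5684)), (Int.negSucc (nat_lit 6462)), (Int.negSucc (nat_lit 7648)), (Int.negSucc
 (nat_lit 9370)), (Int.negSucc (nat_lit 29999))] [qL120_60_5_0, qL120_60_5_1, qL120_60_5_2, qL120_60_5_3,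
 qL120_60_5_4, qL120_60_5_5, qL120_60_5_6, qL120_60_5_7, qL120_60_5_8, qL120_60_5_9, qL120_60_5_10,
 qL120_60_5_11, qL120_60_5_12, qL120_60_5_13, qL120_60_5_14, qL120_60_5_15, qL120_60_5_16, qL120_60_5_17,
 qL120_60_5_18, qL120_60_5_19] = true :=
  chkPl_cons rfl hL120_60_5_0 (chkPl_cons rfl hL120_60_5_1 (chkPl_cons rfl hL120_60_5_2 (chkPl_cons rfl
 hL120_60_5_3 (chkPl_cons rfl hL120_60_5_4 (chkPl_cons rfl hL120_60_5_5 (chkPl_cons rfl hL120_60_5_6
 (chkPl_cons rfl hL120_60_5_7 (chkPl_cons rfl hL120_60_5_8 (chkPl_cons rfl hL120_60_5_9 (chkPl_cons rfl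
 hL120_60_5_10 (chkPl_cons rfl hL120_60_5_11 (chkPl_cons rfl hL120_60_5_12 (chkPl_cons rfl hL120_60_5_13
 (chkPl_cons rfl hL120_60_5_14 (chkPl_cons rfl hL120_60_5_15 (chkPl_cons rfl hL120_60_5_16 (chkPl_cons rfl
 hL120_60_5_17 (chkPl_cons rfl hL120_60_5_18 (chkPl_cons rfl hL120_60_5_19 chkPl_nil)))))))))))))))))))

theorem lL120_60_6 : chkPl ⟨(nat_lit 1), (nat_lit 1000), Int.ofNat (nat_lit 1000), 0, ⟨0, 1⟩, ⟨Int.ofNat
 (nat_lit 60), 200⟩⟩ ⟨600000, 650000, 790411, 774755, 806384, 612032, 632797, 591949, 632455, 591607⟩ true 0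
 0 [(nat_lit 50), (nat_lit 100), (nat_lit 150), (nat_lit 200), (nat_lit 250), (nat_lit 300), (nat_lit 350),
 (nat_lit 400), (nat_lit 450), (nat_lit 500), (nat_lit 550), (nat_lit 600), (nat_lit 650), (nat_lit 700),
 (nat_lit 750), (nat_lit 800), (nat_lit 850), (nat_lit 900), (nat_lit 950), (nat_lit 1000)] [(Int.ofNat
 (nat_lit 139)), (Int.ofNat (nat_lit 345)), (Int.ofNat (nat_lit 618)), (Int.ofNat (nat_lit 960)), (Int.ofNat
 (nat_lit 1369)), (Int.ofNat (nat_lit 1832)), (Int.ofNat (nat_lit 1787)), (Int.ofNat (nat_lit 1603)),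
 (Int.ofNat (nat_lit 811)), (Int.negSucc (nat_lit 478)), (Int.negSucc (nat_lit 2374)), (Int.negSucc (nat_lit
 4794)), (Int.negSucc (nat_lit 7879)), (Int.negSucc (nat_lit 10235)), (Int.negSucc (nat_lit 12563)),
 (Int.negSucc (nat_lit 15726)), (Int.negSucc (nat_lit 19534)), (Int.negSucc (nat_lit 24685)), (Int.negSucc
 (nat_lit 29999)), (Int.negSucc (nat_lit 29999))] [qL120_60_6_0, qL120_60_6_1, qL120_60_6_2, qL120_60_6_3,
 qL120_60_6_4, qL120_60_6_5, qL120_60_6_6, qL120_60_6_7, qL120_60_6_8, qL120_60_6_9, qL120_60_6_10,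
 qL120_60_6_11, qL120_60_6_12, qL120_60_6_13, qL120_60_6_14, qL120_60_6_15, qL120_60_6_16, qL120_60_6_17,
 qL120_60_6_18, qL120_60_6_19] = true :=
  chkPl_cons rfl hL120_60_6_0 (chkPl_cons rfl hL120_60_6_1 (chkPl_cons rfl hL120_60_6_2 (chkPl_cons rfl
 hL120_60_6_3 (chkPl_cons rfl hL120_60_6_4 (chkPl_cons rfl hL120_60_6_5 (chkPl_cons rfl hL120_60_6_6
 (chkPl_cons rfl hL120_60_6_7 (chkPl_cons rfl hL120_60_6_8 (chkPl_cons rfl hL120_60_6_9 (chkPl_cons rfl
 hL120_60_6_10 (chkPl_cons rfl hL120_60_6_11 (chkPl_cons rfl hL120_60_6_12 (chkPl_cons rfl hL120_60_6_13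
 (chkPl_cons rfl hL120_60_6_14 (chkPl_cons rfl hL120_60_6_15 (chkPl_cons rfl hL120_60_6_16 (chkPl_cons rfl
 hL120_60_6_17 (chkPl_cons rfl hL120_60_6_18 (chkPl_cons rfl hL120_60_6_19 chkPl_nil)))))))))))))))))))

def cL120_60 : chkII xL120_60 ⟨600000, 650000, 790411, 774755, 806384, 612032, 632797, 591949, 632455,
 591607⟩ [⟨[qL120_60_0_0, qL120_60_0_1, qL120_60_0_2, qL120_60_0_3, qL120_60_0_4, qL120_60_0_5,
 qL120_60_0_6, qL120_60_0_7, qL120_60_0_8, qL120_60_0_9, qL120_60_0_10, qL120_60_0_11, qL120_60_0_12,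
 qL120_60_0_13, qL120_60_0_14, qL120_60_0_15, qL120_60_0_16, qL120_60_0_17, qL120_60_0_18, qL120_60_0_19],
 []⟩, ⟨[qL120_60_1_0, qL120_60_1_1, qL120_60_1_2, qL120_60_1_3, qL120_60_1_4, qL120_60_1_5, qL120_60_1_6,
 qL120_60_1_7, qL120_60_1_8, qL120_60_1_9, qL120_60_1_10, qL120_60_1_11, qL120_60_1_12, qL120_60_1_13,
 qL120_60_1_14, qL120_60_1_15, qL120_60_1_16, qL120_60_1_17, qL120_60_1_18, qL120_60_1_19], []⟩,
 ⟨[qL120_60_2_0, qL120_60_2_1, qL120_60_2_2, qL120_60_2_3, qL120_60_2_4, qL120_60_2_5, qL120_60_2_6,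
 qL120_60_2_7, qL120_60_2_8, qL120_60_2_9, qL120_60_2_10, qL120_60_2_11, qL120_60_2_12, qL120_60_2_13,
 qL120_60_2_14, qL120_60_2_15, qL120_60_2_16, qL120_60_2_17, qL120_60_2_18, qL120_60_2_19], []⟩,
 ⟨[qL120_60_3_0, qL120_60_3_1, qL120_60_3_2, qL120_60_3_3, qL120_60_3_4, qL120_60_3_5, qL120_60_3_6,
 qL120_60_3_7, qL120_60_3_8, qL120_60_3_9, qL120_60_3_10, qL120_60_3_11, qL120_60_3_12, qL120_60_3_13,
 qL120_60_3_14, qL120_60_3_15, qL120_60_3_16, qL120_60_3_17, qL120_60_3_18, qL120_60_3_19], []⟩,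
 ⟨[qL120_60_4_0, qL120_60_4_1, qL120_60_4_2, qL120_60_4_3, qL120_60_4_4, qL120_60_4_5, qL120_60_4_6,
 qL120_60_4_7, qL120_60_4_8, qL120_60_4_9, qL120_60_4_10, qL120_60_4_11, qL120_60_4_12, qL120_60_4_13,
 qL120_60_4_14, qL120_60_4_15, qL120_60_4_16, qL120_60_4_17, qL120_60_4_18, qL120_60_4_19], []⟩,
 ⟨[qL120_60_5_0, qL120_60_5_1, qL120_60_5_2, qL120_60_5_3, qL120_60_5_4, qL120_60_5_5, qL120_60_5_6,
 qL120_60_5_7, qL120_60_5_8, qL120_60_5_9, qL120_60_5_10, qL120_60_5_11, qL120_60_5_12, qL120_60_5_13,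
 qL120_60_5_14, qL120_60_5_15, qL120_60_5_16, qL120_60_5_17, qL120_60_5_18, qL120_60_5_19], []⟩,
 ⟨[qL120_60_6_0, qL120_60_6_1, qL120_60_6_2, qL120_60_6_3, qL120_60_6_4, qL120_60_6_5, qL120_60_6_6,
 qL120_60_6_7, qL120_60_6_8, qL120_60_6_9, qL120_60_6_10, qL120_60_6_11, qL120_60_6_12, qL120_60_6_13,
 qL120_60_6_14, qL120_60_6_15, qL120_60_6_16, qL120_60_6_17, qL120_60_6_18, qL120_60_6_19], []⟩] = true :=
 chkII_mk (by decide +kernel) (chkCls_cons lL120_60_0 rfl (chkCls_cons lL120_60_1 rfl (chkCls_cons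
 lL120_60_2 rfl (chkCls_cons lL120_60_3 rfl (chkCls_cons lL120_60_4 rfl (chkCls_cons lL120_60_5 rfl
 (chkCls_cons lL120_60_6 rfl chkCls_nil)))))))

theorem II_xL120_60 : PropII xL120_60 := propII_of cL120_60

def cL130_20 : chkII xL130_20 ⟨650000, 700000, 821443, 806367, 836801, 569665, 592031, 548146, 591607,
 547722⟩ [⟨[.one ⟨2008000, 251, 502000, 388347, 0, 0, 0, 100000, 0, 50000⟩ ⟨50000, (.aff 1414214 707107),
 (.aff 707107 1414214), (.pol), (.pol), (.aff 0 632456 1581138), (.aff 0 1414214 707107), (.pol), (.pol),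
 (.pol)⟩, .one ⟨2008000, 251, 502000, 393969, -282, 0, 0, 100000, 50000, 100000⟩ ⟨0, .pol, .pol, .pol, .pol,
 (.sx 50000 (.aff 0 1414214 707107) (.sy 75000 (.aff 50000 802897 1124055) (.aff 100000 800815 1011470))),
 .pol, (.pol), (.sx 50000 (.pol) (.pol)), .pol⟩, .one ⟨2008000, 251, 502000, 328910, 6224, 0, 0, 100000,
 100000, 150000⟩ ⟨0, .pol, .pol, .pol, .pol, (.sy 125000 (.sx 50000 (.aff 0 1732051 577351) (.aff 250000
 918559 612373)) (.sx 50000 (.aff 250000 1436141 391675) (.aff 319000 997539 464906))), .pol, (.pol), (.pol),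
 .pol⟩, .one ⟨2008000, 251, 502000, 325697, 6706, 0, 0, 100000, 150000, 200000⟩ ⟨0, .pol, .pol, .pol, .pol,
 (.sy 175000 (.sx 50000 (.aff 331000 1366642 327490) (.aff 375000 1007783 387609)) (.sy 187500 (.sx 50000 (.sx
 25000 (.aff 250000 2331845 241226) (.aff 375000 1374053 284287)) (.aff 1000000 0 0)) (.sy 193750 (.sx 50000
 (.sx 25000 (.aff 250000 2391391 235219) (.aff 375000 1304611 299419)) (.aff 1000000 0 0)) (.sx 50000 (.aff
 394000 1423671 257951) (.aff 1000000 0 0))))), .pol, (.pol), (.pol), .pol⟩, .one ⟨2008000, 251, 502000,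
 307224, 10401, 0, 0, 100000, 200000, 250000⟩ ⟨0, .pol, .pol, .pol, .pol, (.sy 225000 (.sy 212500 (.sy 206250
 (.sx 50000 (.sx 25000 (.aff 500000 1645702 151911) (.aff 500000 1163687 214835)) (.aff 1000000 0 0)) (.sx
 50000 (.aff 485000 1537700 172482) (.aff 1000000 0 0))) (.sy 218750 (.sx 50000 (.sx 25000 (.aff 500000
 1695583 147442) (.aff 1000000 0 0)) (.aff 1000000 0 0)) (.sx 50000 (.sx 25000 (.aff 500000 1719981 145351)
 (.aff 1000000 0 0)) (.aff 1000000 0 0)))) (.sy 237500 (.sy 231250 (.sy 228125 (.sx 50000 (.sx 25000 (.aff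
 500000 1738055 143839) (.aff 1000000 0 0)) (.aff 1000000 0 0)) (.sx 50000 (.sx 25000 (.aff 500000 1750000
 142858) (.aff 1000000 0 0)) (.aff 1000000 0 0))) (.sx 50000 (.sx 25000 (.aff 550000 1758317 115167) (.aff
 1000000 0 0)) (.aff 1000000 0 0))) (.sy 243750 (.sx 50000 (.aff 604000 1673496 93706) (.aff 1000000 0 0))
 (.sx 50000 (.aff 625000 1666537 84382) (.aff 1000000 0 0))))), .pol, (.pol), (.pol), .pol⟩, .one ⟨2008000,
 251, 502000, 291160, 14417, 0, 0, 100000, 250000, 300000⟩ ⟨0, .pol, .pol, .pol, .pol, (.sy 275000 (.sx 50000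
 (.aff 675000 1730363 61043) (.aff 1000000 0 0)) (.sy 287500 (.sy 281250 (.sy 278125 (.sx 50000 (.aff 675000
 1732255 60976) (.aff 1000000 0 0)) (.sx 50000 (.sx 25000 (.aff 750000 1848273 33816) (.aff 1000000 0 0))
 (.aff 1000000 0 0))) (.sy 284375 (.sx 50000 (.sx 25000 (.aff 750000 1681704 37165) (.aff 1000000 0 0)) (.aff
 1000000 0 0)) (.sx 50000 (.sx 25000 (.aff 750000 1690969 36962) (.aff 1000000 0 0)) (.aff 1000000 0 0))))
 (.sx 50000 (.sx 25000 (.aff 750000 1713914 36467) (.aff 1000000 0 0)) (.aff 1000000 0 0)))), .pol, (.pol),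
 (.pol), .pol⟩, .one ⟨2008000, 251, 502000, 271883, 20200, 0, 0, 100000, 300000, 350000⟩ ⟨0, .pol, .pol, .pol,
 .pol, (.sx 50000 (.sx 25000 (.aff 900000 1531831 6529) (.aff 1000000 0 0)) (.aff 1000000 0 0)), .pol, (.pol),
 (.pol), .pol⟩, .one ⟨2008000, 251, 502000, 254614, 26244, 0, 0, 100000, 350000, 400000⟩ ⟨0, .pol, .pol, .pol,
 .pol, (.sx 50000 (.sx 25000 (.sx 12500 (.aff 1100000 1723897 5801) (.aff 1000000 0 0)) (.aff 1000000 0 0))
 (.aff 1000000 0 0)), .pol, (.pol), (.pol), .pol⟩, .one ⟨2008000, 251, 502000, 232928, 34919, 0, 0, 100000,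
 400000, 450000⟩ ⟨0, .pol, .pol, .pol, .pol, (.sy 425000 (.sx 50000 (.sx 25000 (.aff 1250000 2480681 25195)
 (.aff 1000000 0 0)) (.aff 1000000 0 0)) (.sx 50000 (.aff 1350000 2529071 48437) (.aff 1000000 0 0))), .pol,
 (.pol), (.pol), .pol⟩, .one ⟨2008000, 251, 502000, 214052, 43412, 0, 0, 100000, 450000, 500000⟩ ⟨0, .pol,
 .pol, .pol, .pol, (.sx 50000 (.sx 25000 (.aff 1463000 2714927 78960) (.aff 1000000 0 0)) (.aff 1000000 0 0)),
 .pol, (.pol), (.pol), .pol⟩, .one ⟨2008000, 251, 502000, 189956, 55460, 0, 0, 100000, 500000, 550000⟩ ⟨0,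
 .pol, .pol, .pol, .pol, (.sy 525000 (.sy 512500 (.sx 50000 (.aff 1625000 2812500 138889) (.aff 1000000 0 0))
 (.sx 50000 (.sx 25000 (.aff 2000000 5259912 190118) (.aff 1700000 2852017 171809)) (.aff 1000000 0 0))) (.sy
 537500 (.sx 50000 (.sx 25000 (.aff 2000000 5322907 187868) (.aff 1700000 2886174 169775)) (.aff 1000000 0 0))
 (.sx 50000 (.sx 25000 (.aff 2000000 5385165 185696) (.sx 37500 (.aff 2000000 3977208 251433) (.aff 1500000
 1762709 141828))) (.aff 1000000 0 0)))), .pol, (.pol), (.pol), .pol⟩, .one ⟨2008000, 251, 502000, 169073,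
 66946, 0, 0, 100000, 550000, 600000⟩ ⟨0, .pol, .pol, .pol, .pol, (.sx 50000 (.aff 1950000 3221607 280140)
 (.aff 1925000 2805664 304964)), .pol, (.pol), (.pol), .pol⟩, .one ⟨2008000, 251, 502000, 142969, 82609, 0, 0,
 100000, 600000, 650000⟩ ⟨0, .pol, .pol, .pol, .pol, (.sy 625000 (.sy 612500 (.sx 50000 (.aff 2000000 4020780
 248708) (.aff 1950000 2958759 305027)) (.sx 50000 (.aff 2000000 4062020 246183) (.sy 618750 (.aff 1953000
 2990963 303652) (.aff 2100000 3167478 382008)))) (.sx 50000 (.aff 2000000 3570715 280056) (.aff 2100000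
 3207024 377297))), .pol, (.pol), (.pol), .pol⟩, .one ⟨2008000, 251, 502000, 118472, 98532, 0, 0, 100000,
 650000, 700000⟩ ⟨0, .pol, .pol, .pol, .pol, (.aff 2450000 3767211 558106), .pol, (.pol), (.pol), .pol⟩, .one
 ⟨2008000, 251, 502000, -15677260, 11155544, 0, 0, 100000, 700000, 750000⟩ ⟨0, .pol, .pol, .pol, .pol, (.inf
 3046310 328267), .pol, (.pol), (.inf 3046310 328267), .pol⟩, .one ⟨2008000, 251, 502000, 0, -602400, 0, 0,
 100000, 750000, 800000⟩ ⟨0, .pol, .pol, .pol, .pol, (.inf 3937004 254001), .pol, (.pol), (.inf 3937004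
 254001), .pol⟩, .one ⟨2008000, 251, 502000, 0, -602400, 0, 0, 100000, 800000, 850000⟩ ⟨0, .pol, .pol, .pol,
 .pol, (.aff 35000000 112765243 10251386), .pol, (.pol), (.inf 4062020 246183), .pol⟩, .one ⟨2008000, 251,
 502000, 0, -602400, 0, 0, 100000, 850000, 900000⟩ ⟨0, .pol, .pol, .pol, .pol, (.aff 20000000 56202758
 6423173), .pol, (.pol), (.inf 4183301 239046), .pol⟩, .one ⟨2008000, 251, 502000, 0, -602400, 0, 0, 100000,
 900000, 950000⟩ ⟨0, .pol, .pol, .pol, .pol, (.aff 20000000 81722091 4417411), .pol, (.pol), (.inf 4301163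
 232496), .pol⟩, .one ⟨2008000, 251, 502000, 0, -602400, 0, 0, 100000, 950000, 1000000⟩ ⟨0, .pol, .pol, .pol,
 .pol, (.aff 20000000 83901729 4302653), .pol, (.pol), (.inf 4415881 226456), .pol⟩], []⟩, ⟨[.one ⟨2008000,
 251, 803200, 279513, 0, 0, 0, 100000, 0, 50000⟩ ⟨25000, (.aff 3162278 316228), (.pol), (.pol), (.pol),
 (.pol), (.aff 0 3841565 260311), (.pol), (.pol), (.pol)⟩, .one ⟨2008000, 251, 803200, 314452, -1747, 0, 0,
 100000, 50000, 100000⟩ ⟨0, .pol, .pol, .pol, .pol, (.sx 50000 (.sx 25000 (.sy 75000 (.aff 0 3862415 258906)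
 (.aff 0 3741658 267262)) (.aff 0 1414214 707107)) (.pol)), .pol, (.pol), (.sx 50000 (.pol) (.pol)), .pol⟩,
 .one ⟨2008000, 251, 803200, 349793, -5282, 0, 0, 100000, 100000, 150000⟩ ⟨0, .pol, .pol, .pol, .pol, (.sx
 50000 (.sy 125000 (.aff 0 3733561 267841) (.aff 0 3619905 276251)) (.aff 0 1290995 774597)), .pol, (.pol),
 (.pol), .pol⟩, .one ⟨2008000, 251, 803200, 394371, -11968, 0, 0, 100000, 150000, 200000⟩ ⟨0, .pol, .pol,
 .pol, .pol, (.sx 50000 (.aff 0 3626539 275746) (.aff 0 1527526 654654)), .pol, (.pol), (.pol), .pol⟩, .one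
 ⟨2008000, 251, 803200, 357825, -4659, 0, 0, 100000, 200000, 250000⟩ ⟨0, .pol, .pol, .pol, .pol, (.sy 225000
 (.sy 212500 (.sx 50000 (.aff 125000 3554267 215411) (.aff 0 1658313 603023)) (.sy 218750 (.sx 50000 (.aff
 125000 3634148 210676) (.aff 0 1695583 589768)) (.sy 221875 (.sx 50000 (.aff 137000 3623059 205564) (.aff 0
 1713914 583460)) (.sy 223437 (.sy 222656 (.sx 50000 (.aff 137000 3639082 204659) (.aff 0 1721494 580891))
 (.sx 50000 (.aff 137000 3645470 204300) (.aff 0 1724516 579873))) (.sx 50000 (.sx 25000 (.aff 375000 3743482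
 104349) (.aff 1000000 0 0)) (.aff 0 1729041 578356)))))) (.sy 237500 (.sy 231250 (.sy 228125 (.sy 226562 (.sy
 225781 (.sy 225390 (.sy 225195 (.sx 50000 (.sx 25000 (.aff 375000 3750813 104145) (.aff 1000000 0 0)) (.aff 0
 1732427 577225)) (.sx 50000 (.sx 25000 (.aff 375000 3752437 104100) (.aff 1000000 0 0)) (.aff 0 1733177
 576976))) (.sx 50000 (.sx 25000 (.aff 375000 3754876 104032) (.aff 1000000 0 0)) (.aff 0 1734303 576601)))
 (.sx 50000 (.sx 25000 (.aff 375000 3759750 103897) (.aff 1000000 0 0)) (.aff 0 1736555 575853))) (.sy 227343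
 (.sy 226952 (.sx 50000 (.sx 25000 (.aff 375000 3764614 103763) (.aff 1000000 0 0)) (.aff 0 1738801 575109))
 (.sy 227147 (.sx 50000 (.sx 25000 (.aff 375000 3767041 103696) (.aff 1000000 0 0)) (.aff 0 1739922 574739))
 (.sy 227245 (.sx 50000 (.sx 25000 (.aff 375000 3768256 103663) (.aff 1000000 0 0)) (.aff 0 1740483 574554))
 (.sx 50000 (.sx 25000 (.aff 375000 3769069 103640) (.aff 1000000 0 0)) (.aff 0 1740859 574430))))) (.sx 50000
 (.sx 25000 (.aff 375000 3772715 103540) (.aff 1000000 0 0)) (.aff 0 1742543 573874)))) (.sy 229687 (.sx 50000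
 (.sx 25000 (.aff 375000 3782410 103275) (.aff 1000000 0 0)) (.aff 0 1747021 572403)) (.sy 230468 (.sx 50000
 (.sx 25000 (.aff 375000 3792077 103011) (.aff 1000000 0 0)) (.aff 0 1751486 570944)) (.sx 50000 (.sx 25000
 (.aff 375000 3798512 102837) (.aff 1000000 0 0)) (.aff 0 1754458 569977))))) (.sy 234375 (.sy 232812 (.sy
 232031 (.sx 50000 (.sx 25000 (.aff 375000 3804936 102663) (.aff 1000000 0 0)) (.aff 0 1757425 569015)) (.sx
 50000 (.sx 25000 (.aff 375000 3811345 102491) (.aff 1000000 0 0)) (.aff 0 1760385 568058))) (.sy 233593 (.sx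
 50000 (.sx 25000 (.aff 375000 3817743 102319) (.aff 1000000 0 0)) (.aff 0 1763340 567106)) (.sx 50000 (.sx
 25000 (.aff 375000 3824134 102148) (.aff 1000000 0 0)) (.aff 0 1766292 566158)))) (.sx 50000 (.sx 25000 (.aff
 375000 3840065 101724) (.aff 1000000 0 0)) (.aff 0 1773650 563810)))) (.sy 243750 (.sx 50000 (.sx 25000 (.aff
 375000 3878024 100728) (.aff 1000000 0 0)) (.aff 0 1962142 509648)) (.sy 246875 (.sx 50000 (.sx 25000 (.aff
 375000 3915614 99761) (.aff 1000000 0 0)) (.aff 0 1981162 504755)) (.sx 50000 (.sx 25000 (.aff 375000 3940476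
 99132) (.aff 1000000 0 0)) (.aff 1000000 0 0)))))), .pol, (.pol), (.pol), .pol⟩, .one ⟨2008000, 251, 803200,
 325296, 3473, 0, 0, 100000, 250000, 300000⟩ ⟨0, .pol, .pol, .pol, .pol, (.aff 513000 3685686 64349), .pol,
 (.pol), (.pol), .pol⟩, .one ⟨2008000, 251, 803200, 289152, 14317, 0, 0, 100000, 300000, 350000⟩ ⟨0, .pol,
 .pol, .pol, .pol, (.sx 50000 (.aff 800000 4033403 9918) (.aff 1000000 0 0)), .pol, (.pol), (.pol), .pol⟩,
 .one ⟨2008000, 251, 803200, 239755, 31605, 0, 0, 100000, 350000, 400000⟩ ⟨0, .pol, .pol, .pol, .pol, (.sx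
 50000 (.sx 25000 (.sx 12500 (.aff 1150000 4466593 5038) (.aff 1000000 0 0)) (.aff 1000000 0 0)) (.aff 1000000
 0 0)), .pol, (.pol), (.pol), .pol⟩, .one ⟨2008000, 251, 803200, 185137, 53452, 0, 0, 100000, 400000, 450000⟩
 ⟨0, .pol, .pol, .pol, .pol, (.sx 50000 (.sx 25000 (.aff 1575000 4741572 69729) (.aff 1000000 0 0)) (.aff
 1000000 0 0)), .pol, (.pol), (.pol), .pol⟩, .one ⟨2008000, 251, 803200, 138953, 74235, 0, 0, 100000, 450000,
 500000⟩ ⟨0, .pol, .pol, .pol, .pol, (.sx 50000 (.sx 25000 (.sx 12500 (.aff 2000000 6164415 162222) (.aff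
 1950000 5284444 170785)) (.aff 1000000 0 0)) (.aff 1000000 0 0)), .pol, (.pol), (.pol), .pol⟩, .one ⟨2008000,
 251, 803200, 84336, 101544, 0, 0, 100000, 500000, 550000⟩ ⟨0, .pol, .pol, .pol, .pol, (.sy 525000 (.sy 512500
 (.sx 50000 (.aff 2200000 5400000 266667) (.aff 1000000 0 0)) (.sx 50000 (.sx 25000 (.aff 3000000 10519823
 380235) (.aff 2300000 5296603 319073)) (.aff 1000000 0 0))) (.sy 537500 (.sx 50000 (.sx 25000 (.aff 3000000
 10645813 375735) (.aff 2300000 5360038 315297)) (.aff 1000000 0 0)) (.sx 50000 (.sx 25000 (.aff 3000000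
 10770330 371391) (.sx 37500 (.aff 2900000 7234985 498965) (.aff 2100000 4024349 300670))) (.aff 1000000 0
 0)))), .pol, (.pol), (.pol), .pol⟩, .one ⟨2008000, 251, 803200, 36144, 128050, 0, 0, 100000, 550000, 600000⟩
 ⟨0, .pol, .pol, .pol, .pol, (.sx 50000 (.aff 2800000 6104097 530792) (.aff 2725000 5500444 540980)), .pol,
 (.pol), (.pol), .pol⟩, .one ⟨2008000, 251, 803200, -22490, 163230, 0, 0, 100000, 600000, 650000⟩ ⟨0, .pol,
 .pol, .pol, .pol, (.sx 50000 (.aff 3000000 8164966 489898) (.aff 3088000 6027537 723305)), .pol, (.pol),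
 (.pol), .pol⟩, .one ⟨2008000, 251, 803200, -78714, 199775, 0, 0, 100000, 650000, 700000⟩ ⟨0, .pol, .pol,
 .pol, .pol, (.aff 3600000 6754999 1000741), .pol, (.pol), (.pol), .pol⟩, .one ⟨2008000, 251, 803200,
 -14941528, 10603746, 0, 0, 100000, 700000, 750000⟩ ⟨0, .pol, .pol, .pol, .pol, (.inf 3046310 328267), .pol,
 (.pol), (.inf 3046310 328267), .pol⟩, .one ⟨2008000, 251, 803200, 0, -602400, 0, 0, 100000, 750000, 800000⟩
 ⟨0, .pol, .pol, .pol, .pol, (.inf 3937004 254001), .pol, (.pol), (.inf 3937004 254001), .pol⟩, .one ⟨2008000,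
 251, 803200, 0, -602400, 0, 0, 100000, 800000, 850000⟩ ⟨0, .pol, .pol, .pol, .pol, (.aff 35000000 112765243
 10251386), .pol, (.pol), (.inf 4062020 246183), .pol⟩, .one ⟨2008000, 251, 803200, 0, -602400, 0, 0, 100000,
 850000, 900000⟩ ⟨0, .pol, .pol, .pol, .pol, (.aff 20000000 64897355 5562631), .pol, (.pol), (.inf 4183301
 239046), .pol⟩, .one ⟨2008000, 251, 803200, 0, -602400, 0, 0, 100000, 900000, 950000⟩ ⟨0, .pol, .pol, .pol,
 .pol, (.aff 20000000 81722091 4417411), .pol, (.pol), (.inf 4301163 232496), .pol⟩, .one ⟨2008000, 251,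
 803200, 0, -602400, 0, 0, 100000, 950000, 1000000⟩ ⟨0, .pol, .pol, .pol, .pol, (.aff 20000000 83901729
 4302653), .pol, (.pol), (.inf 4415881 226456), .pol⟩], []⟩, ⟨[.one ⟨2008000, 251, 2008000, 259032, 0, 0, 0,
 100000, 0, 50000⟩ ⟨12500, (.sp 250000 (.aff 6324556 158114) (.pol)), (.pol), (.pol), (.pol), (.pol), (.aff 0
 14172346 70560), (.pol), (.pol), (.pol)⟩, .one ⟨2008000, 251, 2008000, 290758, -1587, 0, 0, 100000, 50000,
 100000⟩ ⟨0, .pol, .pol, .pol, .pol, (.aff 0 13454400 74326), .pol, (.pol), (.sx 50000 (.pol) (.pol)), .pol⟩,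
 .one ⟨2008000, 251, 2008000, 323288, -4840, 0, 0, 100000, 100000, 150000⟩ ⟨0, .pol, .pol, .pol, .pol, (.aff 0
 13527423 73924), .pol, (.pol), (.pol), .pol⟩, .one ⟨2008000, 251, 2008000, 355416, -9659, 0, 0, 100000,
 150000, 200000⟩ ⟨0, .pol, .pol, .pol, .pol, (.aff 0 13104493 76310), .pol, (.pol), (.pol), .pol⟩, .one
 ⟨2008000, 251, 2008000, 397182, -18012, 0, 0, 100000, 200000, 250000⟩ ⟨0, .pol, .pol, .pol, .pol, (.aff 0
 12789344 78191), .pol, (.pol), (.pol), .pol⟩, .one ⟨2008000, 251, 2008000, 379913, -13695, 0, 0, 100000,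
 250000, 300000⟩ ⟨0, .pol, .pol, .pol, .pol, (.sx 50000 (.sx 25000 (.sx 12500 (.sx 6250 (.sx 3125 (.sx 1562
 (.sy 275000 (.aff 125000 13097897 58455) (.aff 375000 11991498 32576)) (.aff 250000 8900293 63201)) (.aff
 500000 3829709 65280)) (.aff 0 5416026 184638)) (.aff 0 3829709 261117)) (.aff 0 2708013 369275)) (.pol)),
 .pol, (.pol), (.pol), .pol⟩, .one ⟨2008000, 251, 2008000, 318067, 4859, 0, 0, 100000, 300000, 350000⟩ ⟨0,
 .pol, .pol, .pol, .pol, (.sx 50000 (.aff 650000 5925270 20675) (.aff 0 2081666 480385)), .pol, (.pol),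
 (.pol), .pol⟩, .one ⟨2008000, 251, 2008000, 180720, 52930, 0, 0, 100000, 350000, 400000⟩ ⟨0, .pol, .pol,
 .pol, .pol, (.sx 50000 (.sx 25000 (.aff 1500000 12858758 19443) (.aff 1000000 0 0)) (.aff 0 2236068 447214)),
 .pol, (.pol), (.pol), .pol⟩, .one ⟨2008000, 251, 2008000, -6828, 127949, 0, 0, 100000, 400000, 450000⟩ ⟨0,
 .pol, .pol, .pol, .pol, (.sx 50000 (.sx 25000 (.sx 12500 (.aff 2750000 14430870 212219) (.aff 1000000 0 0))
 (.aff 1000000 0 0)) (.aff 1000000 0 0)), .pol, (.pol), (.pol), .pol⟩, .one ⟨2008000, 251, 2008000, -159034,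
 196442, 0, 0, 100000, 450000, 500000⟩ ⟨0, .pol, .pol, .pol, .pol, (.sy 475000 (.sx 50000 (.sy 462500 (.aff
 3400000 14499656 397251) (.sy 468750 (.sx 25000 (.aff 3476000 14738607 415954) (.aff 1000000 0 0)) (.sy
 471875 (.sx 25000 (.sx 12500 (.aff 5000000 28331373 564745) (.aff 3400000 14552042 395821)) (.aff 1000000 0
 0)) (.sy 473437 (.sx 25000 (.sx 12500 (.aff 5000000 28401871 563344) (.aff 3400000 14588253 394839)) (.aff
 1000000 0 0)) (.sx 25000 (.sx 12500 (.aff 5000000 28448777 562415) (.sx 18750 (.aff 3500000 14517706 430509)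
 (.aff 1000000 0 0))) (.aff 1000000 0 0)))))) (.aff 1000000 0 0)) (.sx 50000 (.sx 25000 (.sx 12500 (.aff
 5000000 28844411 554701) (.sx 18750 (.aff 4100000 15806961 607960) (.aff 3500000 12247449 510311))) (.aff
 1000000 0 0)) (.aff 1000000 0 0))), .pol, (.pol), (.pol), .pol⟩, .one ⟨2008000, 251, 2008000, -342565,
 288208, 0, 0, 100000, 500000, 550000⟩ ⟨0, .pol, .pol, .pol, .pol, (.sx 50000 (.sx 25000 (.aff 5000000
 18330303 872872) (.sx 37500 (.sy 525000 (.aff 5000000 16198766 987730) (.aff 5000000 15817137 1011562)) (.aff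
 5000000 14379473 1112698))) (.aff 1000000 0 0)), .pol, (.pol), (.pol), .pol⟩, .one ⟨2008000, 251, 2008000,
 -492764, 370817, 0, 0, 100000, 550000, 600000⟩ ⟨0, .pol, .pol, .pol, .pol, (.sx 50000 (.sx 25000 (.aff
 5000000 22150997 722316) (.sx 37500 (.aff 8000000 30026655 1631884) (.sy 575000 (.aff 6000000 16834691
 1485029) (.aff 8000000 24781714 1977265)))) (.sy 575000 (.sx 75000 (.aff 5975000 16538946 1496506) (.aff
 1000000 0 0)) (.sx 75000 (.aff 6000000 16158933 1547132) (.aff 1000000 0 0)))), .pol, (.pol), (.pol), .pol⟩,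
 .one ⟨2008000, 251, 2008000, -686335, 486960, 0, 0, 100000, 600000, 650000⟩ ⟨0, .pol, .pol, .pol, .pol, (.sx
 50000 (.aff 8000000 28577381 1714643) (.sx 75000 (.sy 625000 (.aff 7300000 18003750 2204541) (.aff 8000000
 20408332 2400981)) (.sy 625000 (.sx 87500 (.aff 6300000 14840001 1892858) (.aff 1000000 0 0)) (.sx 87500 (.sy
 637500 (.aff 7300000 17789017 2231152) (.aff 7900000 18715598 2543868)) (.aff 5900000 12996074 1847482))))),
 .pol, (.pol), (.pol), .pol⟩, .one ⟨2008000, 251, 2008000, -864645, 602861, 0, 0, 100000, 650000, 700000⟩ ⟨0,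
 .pol, .pol, .pol, .pol, (.sy 675000 (.aff 8300000 18789526 2836155) (.aff 8000000 18354155 2669696)), .pol,
 (.pol), (.sx 50000 (.inf 5196153 192451) (.pol)), .pol⟩, .one ⟨2008000, 251, 2008000, -12000210, 8397757, 0,
 0, 100000, 700000, 750000⟩ ⟨0, .pol, .pol, .pol, .pol, (.aff 35500000 92894093 12812979), .pol, (.pol), (.inf
 3046310 328267), .pol⟩, .one ⟨2008000, 251, 2008000, 0, -602400, 0, 0, 100000, 750000, 800000⟩ ⟨0, .pol,
 .pol, .pol, .pol, (.aff 35500000 96043936 12392766), .pol, (.pol), (.inf 3937004 254001), .pol⟩, .one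
 ⟨2008000, 251, 2008000, 0, -602400, 0, 0, 100000, 800000, 850000⟩ ⟨0, .pol, .pol, .pol, .pol, (.aff 35000000
 138108653 8370222), .pol, (.pol), (.inf 4062020 246183), .pol⟩, .one ⟨2008000, 251, 2008000, 0, -602400, 0,
 0, 100000, 850000, 900000⟩ ⟨0, .pol, .pol, .pol, .pol, (.aff 20000000 64897355 5562631), .pol, (.pol), (.inf
 4183301 239046), .pol⟩, .one ⟨2008000, 251, 2008000, 0, -602400, 0, 0, 100000, 900000, 950000⟩ ⟨0, .pol,
 .pol, .pol, .pol, (.aff 20000000 81722091 4417411), .pol, (.pol), (.inf 4301163 232496), .pol⟩, .one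
 ⟨2008000, 251, 2008000, 0, -602400, 0, 0, 100000, 950000, 1000000⟩ ⟨0, .pol, .pol, .pol, .pol, (.aff 12000000
 39661065 3050852), .pol, (.pol), (.inf 4415881 226456), .pol⟩], []⟩, ⟨[.one ⟨2008000, 251, 371480, 5823601,
 0, 0, 0, 100000, 0, 50000⟩ ⟨50000, (.pol), (.sp 500000 (.sp 250000 (.sp 125000 (.aff 111804 8944224) (.pol))
 (.pol)) (.pol)), (.pol), (.pol), (.aff 0 39041 25614098), (.pol), (.pol), (.pol), (.pol)⟩, .one ⟨2008000,
 251, 371480, -4910765, 536718, 0, 0, 100000, 50000, 100000⟩ ⟨0, .pol, .pol, .pol, .pol, (.aff 425000 575000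
 575000), .pol, (.pol), (.sx 50000 (.pol) (.pol)), .pol⟩, .one ⟨2008000, 251, 371480, 38553, 41786, 0, 0,
 100000, 100000, 150000⟩ ⟨0, .pol, .pol, .pol, .pol, (.sy 125000 (.sy 112500 (.sx 50000 (.aff 0 2061553
 485072) (.aff 500000 580426 430719)) (.sy 118750 (.sy 115625 (.sx 50000 (.aff 0 2136001 468165) (.sx 75000
 (.aff 500000 675463 370117) (.aff 500000 551514 453298))) (.sx 50000 (.aff 0 2165064 461881) (.sx 75000 (.aff
 500000 684654 365148) (.aff 525000 540567 417386)))) (.sx 50000 (.aff 0 2207941 452911) (.sx 75000 (.aff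
 500000 698213 358057) (.aff 625000 442573 317745))))) (.sy 137500 (.sy 131250 (.sx 50000 (.aff 0 2263847
 441726) (.sx 75000 (.aff 500000 715892 349215) (.aff 1000000 0 0))) (.sx 50000 (.aff 0 1892970 528271) (.aff
 550000 647906 312546))) (.sx 50000 (.aff 500000 978946 255377) (.aff 575000 644545 280237)))), .pol, (.pol),
 (.pol), .pol⟩, .one ⟨2008000, 251, 371480, -11245, 49256, 0, 0, 100000, 150000, 200000⟩ ⟨0, .pol, .pol, .pol,
 .pol, (.sy 175000 (.sx 50000 (.sy 162500 (.aff 500000 883884 282843) (.aff 581000 877713 200021)) (.aff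
 750000 403113 155044)) (.sy 187500 (.sx 50000 (.sx 25000 (.aff 0 2692583 371391) (.aff 613000 886565 168932))
 (.aff 1000000 0 0)) (.sx 50000 (.sx 25000 (.aff 500000 1607276 155543) (.aff 625000 852387 164978)) (.aff
 1000000 0 0)))), .pol, (.pol), (.pol), .pol⟩, .one ⟨2008000, 251, 371480, -40964, 55199, 0, 0, 100000,
 200000, 250000⟩ ⟨0, .pol, .pol, .pol, .pol, (.sx 50000 (.sx 25000 (.sy 225000 (.sx 12500 (.aff 500000 2915476
 85750) (.aff 675000 1047183 100866)) (.sx 12500 (.aff 500000 2516612 99340) (.aff 700000 1058312 85042)))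
 (.aff 700000 804985 111804)) (.aff 1000000 0 0)), .pol, (.pol), (.pol), .pol⟩, .one ⟨2008000, 251, 371480,
 -84336, 66043, 0, 0, 100000, 250000, 300000⟩ ⟨0, .pol, .pol, .pol, .pol, (.sx 50000 (.aff 800000 1174783
 34049) (.aff 1000000 0 0)), .pol, (.pol), (.pol), .pol⟩, .one ⟨2008000, 251, 371480, -134135, 80982, 0, 0,
 100000, 300000, 350000⟩ ⟨0, .pol, .pol, .pol, .pol, (.sx 50000 (.sx 25000 (.aff 950000 765916 3265) (.aff
 1000000 0 0)) (.aff 1000000 0 0)), .pol, (.pol), (.pol), .pol⟩, .one ⟨2008000, 251, 371480, -177106, 96022,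
 0, 0, 100000, 350000, 400000⟩ ⟨0, .pol, .pol, .pol, .pol, (.sx 50000 (.sx 25000 (.sx 12500 (.aff 1050000
 779924 3206) (.aff 1000000 0 0)) (.aff 1000000 0 0)) (.aff 1000000 0 0)), .pol, (.pol), (.pol), .pol⟩, .one
 ⟨2008000, 251, 371480, -234133, 118833, 0, 0, 100000, 400000, 450000⟩ ⟨0, .pol, .pol, .pol, .pol, (.sx 50000
 (.aff 1238000 1759793 32188) (.aff 1000000 0 0)), .pol, (.pol), (.pol), .pol⟩, .one ⟨2008000, 251, 371480,
 -283932, 141242, 0, 0, 100000, 450000, 500000⟩ ⟨0, .pol, .pol, .pol, .pol, (.sy 475000 (.sy 462500 (.sx 50000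
 (.aff 1281000 1829890 43151) (.aff 1000000 0 0)) (.sx 50000 (.sy 468750 (.aff 1303000 1849294 49646) (.sx
 25000 (.sx 12500 (.aff 1500000 3547300 70477) (.aff 1350000 1923409 63690)) (.aff 1000000 0 0))) (.aff
 1000000 0 0))) (.sy 487500 (.sy 481250 (.sx 50000 (.sx 25000 (.sx 12500 (.aff 1500000 3570715 70014) (.aff
 1350000 1936105 63272)) (.aff 1000000 0 0)) (.aff 1000000 0 0)) (.sx 50000 (.sx 25000 (.aff 1450000 2082323
 97248) (.aff 1000000 0 0)) (.aff 1000000 0 0))) (.sx 50000 (.sx 25000 (.aff 1500000 2222049 112509) (.aff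
 1000000 0 0)) (.aff 1000000 0 0)))), .pol, (.pol), (.pol), .pol⟩, .one ⟨2008000, 251, 371480, -348991,
 173772, 0, 0, 100000, 500000, 550000⟩ ⟨0, .pol, .pol, .pol, .pol, (.sy 525000 (.sy 512500 (.sx 50000 (.aff
 1463000 2083500 102889) (.aff 1000000 0 0)) (.sy 518750 (.sx 50000 (.aff 1453000 2057289 99748) (.aff 1000000
 0 0)) (.sx 50000 (.sx 25000 (.aff 1500000 2637866 94774) (.aff 1500000 2043282 122353)) (.aff 1000000 0 0))))
 (.sx 50000 (.sx 25000 (.aff 1500000 2318405 107833) (.aff 1500000 2073645 120561)) (.aff 1000000 0 0))),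
 .pol, (.pol), (.pol), .pol⟩, .one ⟨2008000, 251, 371480, -407223, 205799, 0, 0, 100000, 550000, 600000⟩ ⟨0,
 .pol, .pol, .pol, .pol, (.sx 50000 (.aff 1700000 2373816 206419) (.aff 1675000 2152348 211688)), .pol,
 (.pol), (.pol), .pol⟩, .one ⟨2008000, 251, 371480, -483125, 251341, 0, 0, 100000, 600000, 650000⟩ ⟨0, .pol,
 .pol, .pol, .pol, (.sy 625000 (.sx 50000 (.aff 2000000 4041452 247436) (.sx 75000 (.aff 1900000 2571965
 314935) (.aff 1500000 1372813 182108))) (.sx 50000 (.aff 2000000 4123106 242536) (.sx 75000 (.aff 2000000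
 3045116 328395) (.aff 1925000 2535777 337422)))), .pol, (.pol), (.pol), .pol⟩, .one ⟨2008000, 251, 371480,
 -128512, 20843, 0, 0, 100000, 650000, 700000⟩ ⟨0, .pol, .pol, .pol, .pol, (.sx 50000 (.aff 2000000 4242641
 235703) (.aff 2000000 2777461 360042)), .pol, (.aff 3900000 7534422 1116211), (.pol), .pol⟩, .one ⟨2008000,
 251, 371480, -10665693, 7396869, 0, 0, 100000, 700000, 750000⟩ ⟨0, .pol, .pol, .pol, .pol, (.aff 1500000
 1903944 131307), .pol, (.aff 35000000 105710296 10935548), (.inf 3046310 328267), .pol⟩, .one ⟨2008000, 251,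
 371480, 0, -602400, 0, 0, 100000, 750000, 800000⟩ ⟨0, .pol, .pol, .pol, .pol, (.aff 1000000 0 0), .pol, (.aff
 35000000 109294709 10576908), (.inf 3937004 254001), .pol⟩, .one ⟨2008000, 251, 371480, 0, -602400, 0, 0,
 100000, 800000, 850000⟩ ⟨0, .pol, .pol, .pol, .pol, (.aff 1000000 0 0), .pol, (.aff 20000000 54573346
 6614951), (.inf 4062020 246183), .pol⟩, .one ⟨2008000, 251, 371480, 0, -602400, 0, 0, 100000, 850000, 900000⟩
 ⟨0, .pol, .pol, .pol, .pol, (.aff 1000000 0 0), .pol, (.aff 20000000 79482703 4541869), (.inf 4183301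
 239046), .pol⟩, .one ⟨2008000, 251, 371480, 0, -602400, 0, 0, 100000, 900000, 950000⟩ ⟨0, .pol, .pol, .pol,
 .pol, (.aff 1000000 0 0), .pol, (.aff 12000000 33455194 3616778), (.inf 4301163 232496), .pol⟩, .one
 ⟨2008000, 251, 371480, 0, -602400, 0, 0, 100000, 950000, 1000000⟩ ⟨0, .pol, .pol, .pol, .pol, (.aff 1000000 0
 0), .pol, (.aff 12000000 48574685 2491010), (.inf 4415881 226456), .pol⟩], []⟩, ⟨[.one ⟨2008000, 251, 502000,
 389150, 0, 0, 0, 100000, 0, 50000⟩ ⟨50000, (.aff 1414214 707107), (.aff 707107 1414214), (.pol), (.pol),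
 (.aff 0 577351 1732049), (.aff 0 1414214 707107), (.pol), (.pol), (.pol)⟩, .one ⟨2008000, 251, 502000,
 300396, 4437, 0, 0, 100000, 50000, 100000⟩ ⟨0, .pol, .pol, .pol, .pol, (.sx 50000 (.aff 0 1732051 577351)
 (.sx 75000 (.aff 0 1095446 912871) (.sx 87500 (.aff 0 979796 1020621) (.sx 93750 (.sy 75000 (.aff 0 830455
 1204160) (.aff 75000 893635 957466)) (.sx 96875 (.sy 75000 (.aff 50000 812065 1111365) (.aff 75000 879104
 973293)) (.sx 98437 (.sy 75000 (.aff 50000 820836 1099489) (.aff 75000 872101 981108)) (.sy 75000 (.sy 62500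
 (.aff 0 752948 1328113) (.aff 66000 808779 1078609)) (.aff 88000 832035 999651)))))))), .pol, (.pol), (.sx
 50000 (.pol) (.pol)), .pol⟩, .one ⟨2008000, 251, 502000, 121684, 22308, 0, 0, 100000, 100000, 150000⟩ ⟨0,
 .pol, .pol, .pol, .pol, (.sx 50000 (.aff 250000 1369307 410792) (.aff 313000 947577 498080)), .pol, (.pol),
 (.pol), .pol⟩, .one ⟨2008000, 251, 502000, 60641, 31465, 0, 0, 100000, 150000, 200000⟩ ⟨0, .pol, .pol, .pol,
 .pol, (.sy 175000 (.sx 50000 (.aff 406000 1236510 285349) (.aff 500000 735981 339683)) (.sy 187500 (.sx 50000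
 (.sx 25000 (.aff 250000 2331845 241226) (.aff 425000 1222068 270546)) (.aff 1000000 0 0)) (.sy 193750 (.sx
 50000 (.sx 25000 (.aff 500000 1380671 181072) (.aff 500000 1234909 202445)) (.aff 1000000 0 0)) (.sx 50000
 (.aff 500000 1334691 187310) (.aff 1000000 0 0))))), .pol, (.pol), (.pol), .pol⟩, .one ⟨2008000, 251, 502000,
 -1607, 43914, 0, 0, 100000, 200000, 250000⟩ ⟨0, .pol, .pol, .pol, .pol, (.sy 225000 (.sx 50000 (.sx 25000
 (.aff 538000 1451856 147015) (.aff 625000 977881 143806)) (.aff 1000000 0 0)) (.sy 237500 (.sy 231250 (.sx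
 50000 (.sy 228125 (.sy 226562 (.sx 25000 (.sx 12500 (.aff 500000 3005203 83190) (.aff 600000 1520526 105227))
 (.aff 1000000 0 0)) (.sx 25000 (.sx 12500 (.aff 500000 3015583 82903) (.aff 600000 1525778 104865)) (.aff
 1000000 0 0))) (.sx 25000 (.aff 622000 1531710 93284) (.aff 1000000 0 0))) (.aff 1000000 0 0)) (.sx 50000
 (.sx 25000 (.aff 600000 1490790 107326) (.aff 1000000 0 0)) (.aff 1000000 0 0))) (.sx 50000 (.aff 622000
 1491596 95793) (.aff 1000000 0 0)))), .pol, (.pol), (.pol), .pol⟩, .one ⟨2008000, 251, 502000, -61445, 58874,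
 0, 0, 100000, 250000, 300000⟩ ⟨0, .pol, .pol, .pol, .pol, (.sy 275000 (.sy 262500 (.sx 50000 (.aff 700000
 1578129 57030) (.aff 1000000 0 0)) (.sy 268750 (.sy 265625 (.sy 264062 (.sx 50000 (.aff 700000 1560138 57688)
 (.aff 1000000 0 0)) (.sx 50000 (.sx 25000 (.aff 750000 1668600 37457) (.aff 1000000 0 0)) (.aff 1000000 0
 0))) (.sx 50000 (.aff 750000 1640198 38106) (.aff 1000000 0 0))) (.sx 50000 (.aff 750000 1613673 38732) (.aff
 1000000 0 0)))) (.sx 50000 (.aff 750000 1618424 38618) (.aff 1000000 0 0))), .pol, (.pol), (.pol), .pol⟩,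
 .one ⟨2008000, 251, 502000, -126504, 78392, 0, 0, 100000, 300000, 350000⟩ ⟨0, .pol, .pol, .pol, .pol, (.sx
 50000 (.sx 25000 (.aff 925000 1269701 4431) (.aff 1000000 0 0)) (.aff 1000000 0 0)), .pol, (.pol), (.pol),
 .pol⟩, .one ⟨2008000, 251, 502000, -183933, 98492, 0, 0, 100000, 350000, 400000⟩ ⟨0, .pol, .pol, .pol, .pol,
 (.sx 50000 (.sx 25000 (.sx 12500 (.aff 1100000 2105573 4750) (.aff 1000000 0 0)) (.aff 1000000 0 0)) (.aff
 1000000 0 0)), .pol, (.pol), (.pol), .pol⟩, .one ⟨2008000, 251, 502000, -254615, 126765, 0, 0, 100000,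
 400000, 450000⟩ ⟨0, .pol, .pol, .pol, .pol, (.sy 425000 (.sx 50000 (.sx 25000 (.aff 1250000 2244613 27845)
 (.aff 1000000 0 0)) (.aff 1000000 0 0)) (.sx 50000 (.sx 25000 (.aff 1251000 2263575 27833) (.aff 1000000 0
 0)) (.aff 1000000 0 0))), .pol, (.pol), (.pol), .pol⟩, .one ⟨2008000, 251, 502000, -316461, 154595, 0, 0,
 100000, 450000, 500000⟩ ⟨0, .pol, .pol, .pol, .pol, (.sx 50000 (.sx 25000 (.aff 1475000 2513359 89771) (.aff
 1000000 0 0)) (.aff 1000000 0 0)), .pol, (.pol), (.pol), .pol⟩, .one ⟨2008000, 251, 502000, -394773, 193751,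
 0, 0, 100000, 500000, 550000⟩ ⟨0, .pol, .pol, .pol, .pol, (.sy 525000 (.sy 512500 (.sx 50000 (.aff 1588000
 2646000 130667) (.aff 1000000 0 0)) (.sx 50000 (.sx 25000 (.aff 2000000 5259912 190118) (.aff 1650000 2648302
 159537)) (.aff 1000000 0 0))) (.sy 537500 (.sx 50000 (.sx 25000 (.aff 2000000 5322907 187868) (.aff 1650000
 2680019 157649)) (.aff 1000000 0 0)) (.sx 50000 (.sx 25000 (.aff 2000000 5385165 185696) (.sx 37500 (.aff
 1900000 3427098 236352) (.aff 1500000 1762709 141828))) (.aff 1000000 0 0)))), .pol, (.pol), (.pol), .pol⟩,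
 .one ⟨2008000, 251, 502000, -465053, 232405, 0, 0, 100000, 550000, 600000⟩ ⟨0, .pol, .pol, .pol, .pol, (.sx
 50000 (.aff 1900000 3052049 265396) (.aff 1800000 2681720 238653)), .pol, (.pol), (.pol), .pol⟩, .one
 ⟨2008000, 251, 502000, -554610, 286140, 0, 0, 100000, 600000, 650000⟩ ⟨0, .pol, .pol, .pol, .pol, (.sy 625000
 (.sx 50000 (.aff 2000000 4041452 247436) (.aff 2100000 3143512 384920)) (.sx 50000 (.aff 2000000 4123106
 242536) (.aff 2063000 3099151 364606))), .pol, (.pol), (.pol), .pol⟩, .one ⟨2008000, 251, 502000, -213652,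
 64517, 0, 0, 100000, 650000, 700000⟩ ⟨0, .pol, .pol, .pol, .pol, (.aff 2400000 3637307 538861), .pol, (.aff
 4400000 8833460 1308661), (.pol), .pol⟩, .one ⟨2008000, 251, 502000, -10347224, 7158018, 0, 0, 100000,
 700000, 750000⟩ ⟨0, .pol, .pol, .pol, .pol, (.aff 1500000 1903944 131307), .pol, (.aff 35000000 105710296
 10935548), (.inf 3046310 328267), .pol⟩, .one ⟨2008000, 251, 502000, 0, -602400, 0, 0, 100000, 750000,
 800000⟩ ⟨0, .pol, .pol, .pol, .pol, (.aff 1000000 0 0), .pol, (.aff 35000000 109294709 10576908), (.inf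
 3937004 254001), .pol⟩, .one ⟨2008000, 251, 502000, 0, -602400, 0, 0, 100000, 800000, 850000⟩ ⟨0, .pol, .pol,
 .pol, .pol, (.aff 1000000 0 0), .pol, (.aff 20000000 54573346 6614951), (.inf 4062020 246183), .pol⟩, .one
 ⟨2008000, 251, 502000, 0, -602400, 0, 0, 100000, 850000, 900000⟩ ⟨0, .pol, .pol, .pol, .pol, (.aff 1000000 0
 0), .pol, (.aff 20000000 79482703 4541869), (.inf 4183301 239046), .pol⟩, .one ⟨2008000, 251, 502000, 0,
 -602400, 0, 0, 100000, 900000, 950000⟩ ⟨0, .pol, .pol, .pol, .pol, (.aff 1000000 0 0), .pol, (.aff 12000000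
 38630731 3132222), (.inf 4301163 232496), .pol⟩, .one ⟨2008000, 251, 502000, 0, -602400, 0, 0, 100000,
 950000, 1000000⟩ ⟨0, .pol, .pol, .pol, .pol, (.aff 1000000 0 0), .pol, (.aff 12000000 48574685 2491010),
 (.inf 4415881 226456), .pol⟩], []⟩, ⟨[.one ⟨2008000, 251, 803200, 150198, 0, 0, 0, 100000, 0, 50000⟩ ⟨12500,
 (.aff 2000000 500000), (.pol), (.pol), (.pol), (.aff 0 1897948 526885), (.aff 0 2236068 447214), (.pol),
 (.pol), (.pol)⟩, .one ⟨2008000, 251, 803200, 186744, -1828, 0, 0, 100000, 50000, 100000⟩ ⟨0, .pol, .pol,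
 .pol, .pol, (.sx 50000 (.sy 75000 (.sy 62500 (.sy 56250 (.sy 53125 (.sy 51562 (.sx 25000 (.sx 12500 (.aff 0
 2213861 451700) (.aff 0 1802772 554702)) (.aff 0 1163684 859340)) (.sx 25000 (.aff 0 2205711 453369) (.aff 0
 1181452 846417))) (.sx 25000 (.aff 0 2198892 454775) (.aff 0 1207615 828079))) (.sx 25000 (.aff 0 2179450
 458832) (.aff 0 1258306 794720))) (.aff 0 2148724 465393)) (.sx 25000 (.aff 0 2160247 462911) (.aff 0 2043798
 489286))) (.aff 0 1000000 1000000)), .pol, (.pol), (.sx 50000 (.pol) (.pol)), .pol⟩, .one ⟨2008000, 251,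
 803200, 237747, -6928, 0, 0, 100000, 100000, 150000⟩ ⟨0, .pol, .pol, .pol, .pol, (.sy 125000 (.sy 112500 (.sy
 106250 (.sy 103125 (.sy 101562 (.sx 50000 (.sx 25000 (.aff 0 2205332 453447) (.aff 0 1795827 556847)) (.aff 0
 1159201 862664)) (.sx 50000 (.sx 25000 (.aff 0 2222362 449972) (.aff 0 1809694 552580)) (.aff 0 1168153
 856053))) (.sx 50000 (.sx 25000 (.aff 0 2138048 467717) (.aff 0 1830301 546359)) (.aff 0 1181454 846415)))
 (.sx 50000 (.aff 0 2144601 466288) (.aff 0 1207615 828079))) (.sx 50000 (.aff 0 2125639 470447) (.aff 0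
 1258306 794720))) (.sy 137500 (.sx 50000 (.sy 131250 (.aff 0 2048413 488183) (.aff 38000 2175239 425445))
 (.aff 0 1322876 755929)) (.sx 50000 (.aff 0 2163804 462150) (.aff 0 1384438 722315)))), .pol, (.pol), (.pol),
 .pol⟩, .one ⟨2008000, 251, 803200, 160640, 4638, 0, 0, 100000, 150000, 200000⟩ ⟨0, .pol, .pol, .pol, .pol,
 (.sx 50000 (.sy 175000 (.sx 25000 (.aff 159000 2311133 306033) (.aff 175000 2079147 327358)) (.sx 25000 (.sx
 12500 (.aff 0 5477226 182575) (.aff 219000 2349289 259637)) (.aff 250000 1837118 306187))) (.aff 1000000 0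
 0)), .pol, (.pol), (.pol), .pol⟩, .one ⟨2008000, 251, 803200, 67468, 23272, 0, 0, 100000, 200000, 250000⟩ ⟨0,
 .pol, .pol, .pol, .pol, (.sy 225000 (.sy 212500 (.sx 50000 (.aff 375000 2414946 161754) (.aff 1000000 0 0))
 (.sx 50000 (.aff 400000 2509981 143428) (.aff 1000000 0 0))) (.sx 50000 (.aff 425000 2506367 131915) (.aff
 1000000 0 0))), .pol, (.pol), (.pol), .pol⟩, .one ⟨2008000, 251, 803200, -6024, 41645, 0, 0, 100000, 250000,
 300000⟩ ⟨0, .pol, .pol, .pol, .pol, (.sy 275000 (.sy 262500 (.sx 50000 (.aff 463000 2524279 114239) (.aff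
 1000000 0 0)) (.sy 268750 (.sy 265625 (.sy 264062 (.sx 50000 (.aff 475000 2532963 108816) (.aff 1000000 0 0))
 (.sx 50000 (.aff 500000 2543544 98289) (.aff 1000000 0 0))) (.sy 267187 (.sx 50000 (.aff 500000 2551036
 98000) (.aff 1000000 0 0)) (.sy 267968 (.sx 50000 (.aff 500000 2556639 97785) (.aff 1000000 0 0)) (.sy 268359
 (.sx 50000 (.aff 500000 2559437 97678) (.aff 1000000 0 0)) (.sx 50000 (.sx 25000 (.aff 550000 2669066 75870)
 (.aff 1000000 0 0)) (.aff 1000000 0 0)))))) (.sy 271875 (.sy 270312 (.sx 50000 (.sx 25000 (.aff 550000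
 2673914 75732) (.aff 1000000 0 0)) (.aff 1000000 0 0)) (.sy 271093 (.sx 50000 (.sx 25000 (.aff 550000 2679719
 75568) (.aff 1000000 0 0)) (.aff 1000000 0 0)) (.sx 50000 (.sy 271484 (.sy 271288 (.sx 25000 (.sx 12500 (.aff
 513000 2619272 90548) (.aff 1000000 0 0)) (.aff 1000000 0 0)) (.sx 25000 (.aff 625000 2730955 51493) (.aff
 1000000 0 0))) (.sx 25000 (.aff 625000 2732431 51466) (.aff 1000000 0 0))) (.aff 1000000 0 0)))) (.sy 273437
 (.sx 50000 (.sx 25000 (.aff 625000 2737337 51373) (.aff 1000000 0 0)) (.aff 1000000 0 0)) (.sy 274218 (.sx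
 50000 (.sx 25000 (.aff 625000 2743212 51263) (.aff 1000000 0 0)) (.aff 1000000 0 0)) (.sy 274609 (.sx 50000
 (.sx 25000 (.aff 625000 2746145 51209) (.aff 1000000 0 0)) (.aff 1000000 0 0)) (.sy 274804 (.sx 50000 (.sx
 25000 (.aff 625000 2747611 51181) (.aff 1000000 0 0)) (.aff 1000000 0 0)) (.sy 274902 (.sx 50000 (.sx 25000
 (.aff 625000 2748344 51168) (.aff 1000000 0 0)) (.aff 1000000 0 0)) (.sx 50000 (.sx 25000 (.aff 625000
 2748834 51159) (.aff 1000000 0 0)) (.aff 1000000 0 0)))))))))) (.sx 50000 (.aff 581000 2612645 67197) (.aff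
 1000000 0 0))), .pol, (.pol), (.pol), .pol⟩, .one ⟨2008000, 251, 803200, -111244, 73211, 0, 0, 100000,
 300000, 350000⟩ ⟨0, .pol, .pol, .pol, .pol, (.sx 50000 (.sx 25000 (.aff 875000 2450227 6377) (.aff 1000000 0
 0)) (.aff 1000000 0 0)), .pol, (.pol), (.pol), .pol⟩, .one ⟨2008000, 251, 803200, -198792, 103853, 0, 0,
 100000, 350000, 400000⟩ ⟨0, .pol, .pol, .pol, .pol, (.sx 50000 (.sx 25000 (.sx 12500 (.aff 1100000 3141145
 3184) (.aff 1000000 0 0)) (.aff 1000000 0 0)) (.aff 1000000 0 0)), .pol, (.pol), (.pol), .pol⟩, .one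
 ⟨2008000, 251, 803200, -302807, 145459, 0, 0, 100000, 400000, 450000⟩ ⟨0, .pol, .pol, .pol, .pol, (.sx 50000
 (.sx 25000 (.sy 425000 (.aff 1363000 3426280 38459) (.sy 437500 (.sx 12500 (.sx 6250 (.aff 1500000 4795832
 52129) (.aff 1400000 2971869 53839)) (.aff 1000000 0 0)) (.sx 12500 (.aff 1550000 3783958 79943) (.aff
 1000000 0 0)))) (.aff 1000000 0 0)) (.aff 1000000 0 0)), .pol, (.pol), (.pol), .pol⟩, .one ⟨2008000, 251,
 803200, -391159, 185217, 0, 0, 100000, 450000, 500000⟩ ⟨0, .pol, .pol, .pol, .pol, (.sy 475000 (.sx 50000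
 (.sx 25000 (.aff 1607000 3692237 99791) (.aff 1000000 0 0)) (.aff 1000000 0 0)) (.sx 50000 (.sy 487500 (.sy
 481250 (.sx 25000 (.sx 12500 (.aff 2000000 7141429 140028) (.aff 1700000 3872209 126543)) (.aff 1000000 0 0))
 (.sx 25000 (.sx 12500 (.aff 2000000 7187953 139122) (.sx 18750 (.aff 2000000 5308656 188372) (.aff 1500000
 2352810 106256))) (.aff 1000000 0 0))) (.sx 25000 (.aff 1925000 4110790 208142) (.aff 1000000 0 0))) (.aff
 1000000 0 0))), .pol, (.pol), (.pol), .pol⟩, .one ⟨2008000, 251, 803200, -500796, 240036, 0, 0, 100000,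
 500000, 550000⟩ ⟨0, .pol, .pol, .pol, .pol, (.sx 50000 (.sx 25000 (.aff 2000000 4582576 218218) (.aff 1975000
 3996311 237876)) (.aff 1000000 0 0)), .pol, (.pol), (.pol), .pol⟩, .one ⟨2008000, 251, 803200, -597581,
 293268, 0, 0, 100000, 550000, 600000⟩ ⟨0, .pol, .pol, .pol, .pol, (.sx 50000 (.aff 2313000 4537287 379956)
 (.aff 2250000 4190187 372896)), .pol, (.pol), (.pol), .pol⟩, .one ⟨2008000, 251, 803200, -720069, 366761, 0,
 0, 100000, 600000, 650000⟩ ⟨0, .pol, .pol, .pol, .pol, (.sx 50000 (.aff 3000000 8164966 489898) (.sx 75000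
 (.aff 2700000 4907478 588898) (.aff 2600000 4565663 560708))), .pol, (.aff 3000000 5773503 692821), (.pol),
 .pol⟩, .one ⟨2008000, 251, 803200, -410837, 165760, 0, 0, 100000, 650000, 700000⟩ ⟨0, .pol, .pol, .pol, .pol,
 (.aff 3000000 5196153 769801), .pol, (.aff 5600000 11951151 1770541), (.pol), .pol⟩, .one ⟨2008000, 251,
 803200, -9611493, 6606219, 0, 0, 100000, 700000, 750000⟩ ⟨0, .pol, .pol, .pol, .pol, (.aff 1500000 1903944
 131307), .pol, (.aff 35000000 105710296 10935548), (.inf 3046310 328267), .pol⟩, .one ⟨2008000, 251, 803200,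
 0, -602400, 0, 0, 100000, 750000, 800000⟩ ⟨0, .pol, .pol, .pol, .pol, (.aff 1000000 0 0), .pol, (.aff
 35000000 109294709 10576908), (.inf 3937004 254001), .pol⟩, .one ⟨2008000, 251, 803200, 0, -602400, 0, 0,
 100000, 800000, 850000⟩ ⟨0, .pol, .pol, .pol, .pol, (.aff 1000000 0 0), .pol, (.aff 20000000 63015872
 5728716), (.inf 4062020 246183), .pol⟩, .one ⟨2008000, 251, 803200, 0, -602400, 0, 0, 100000, 850000, 900000⟩
 ⟨0, .pol, .pol, .pol, .pol, (.aff 1000000 0 0), .pol, (.aff 20000000 79482703 4541869), (.inf 4183301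
 239046), .pol⟩, .one ⟨2008000, 251, 803200, 0, -602400, 0, 0, 100000, 900000, 950000⟩ ⟨0, .pol, .pol, .pol,
 .pol, (.aff 1000000 0 0), .pol, (.aff 12000000 38630731 3132222), (.inf 4301163 232496), .pol⟩, .one
 ⟨2008000, 251, 803200, 0, -602400, 0, 0, 100000, 950000, 1000000⟩ ⟨0, .pol, .pol, .pol, .pol, (.aff 1000000 0
 0), .pol, (.aff 12000000 48574685 2491010), (.inf 4415881 226456), .pol⟩], []⟩, ⟨[.one ⟨2008000, 251,
 2008000, 80320, 0, 0, 0, 100000, 0, 50000⟩ ⟨25000, (.sp 250000 (.aff 6324556 158114) (.pol)), (.pol), (.pol),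
 (.pol), (.pol), (.aff 0 7544960 132539), (.pol), (.pol), (.pol)⟩, .one ⟨2008000, 251, 2008000, 108432, -1406,
 0, 0, 100000, 50000, 100000⟩ ⟨0, .pol, .pol, .pol, .pol, (.sy 75000 (.aff 0 7543192 132570) (.aff 0 7399272
 135149)), .pol, (.pol), (.sx 50000 (.pol) (.pol)), .pol⟩, .one ⟨2008000, 251, 2008000, 137347, -4298, 0, 0,
 100000, 100000, 150000⟩ ⟨0, .pol, .pol, .pol, .pol, (.sx 50000 (.sy 125000 (.aff 0 7378810 135524) (.aff 0
 7199040 138908)) (.pol)), .pol, (.pol), (.pol), .pol⟩, .one ⟨2008000, 251, 2008000, 166262, -8635, 0, 0,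
 100000, 150000, 200000⟩ ⟨0, .pol, .pol, .pol, .pol, (.sy 175000 (.aff 0 7195107 138984) (.aff 0 7081258
 141218)), .pol, (.pol), (.pol), .pol⟩, .one ⟨2008000, 251, 2008000, 196382, -14659, 0, 0, 100000, 200000,
 250000⟩ ⟨0, .pol, .pol, .pol, .pol, (.sy 225000 (.aff 0 6993864 142983) (.aff 0 6859578 145782)), .pol,
 (.pol), (.pol), .pol⟩, .one ⟨2008000, 251, 2008000, 55822, 20481, 0, 0, 100000, 250000, 300000⟩ ⟨0, .pol,
 .pol, .pol, .pol, (.sx 50000 (.sx 25000 (.sx 12500 (.sy 275000 (.sx 6250 (.aff 419000 7253452 46538) (.aff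
 500000 2645752 94492)) (.aff 488000 7326249 35782)) (.aff 1000000 0 0)) (.aff 0 2708013 369275)) (.aff 0
 1914855 522233)), .pol, (.pol), (.pol), .pol⟩, .one ⟨2008000, 251, 2008000, -44980, 50722, 0, 0, 100000,
 300000, 350000⟩ ⟨0, .pol, .pol, .pol, .pol, (.sx 50000 (.aff 672000 7219651 14902) (.aff 0 2081666 480385)),
 .pol, (.pol), (.pol), .pol⟩, .one ⟨2008000, 251, 2008000, -259032, 125640, 0, 0, 100000, 350000, 400000⟩ ⟨0,
 .pol, .pol, .pol, .pol, (.sx 50000 (.sx 25000 (.aff 1300000 7715255 11666) (.aff 1000000 0 0)) (.aff 1000000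
 0 0)), .pol, (.pol), (.pol), .pol⟩, .one ⟨2008000, 251, 2008000, -495575, 220257, 0, 0, 100000, 400000,
 450000⟩ ⟨0, .pol, .pol, .pol, .pol, (.sy 425000 (.sx 50000 (.sx 25000 (.aff 2050000 8530241 129247) (.aff
 1000000 0 0)) (.aff 1000000 0 0)) (.sx 50000 (.sx 25000 (.aff 2000000 8366601 119523) (.aff 1000000 0 0))
 (.aff 1000000 0 0))), .pol, (.pol), (.pol), .pol⟩, .one ⟨2008000, 251, 2008000, -687941, 306822, 0, 0,
 100000, 450000, 500000⟩ ⟨0, .pol, .pol, .pol, .pol, (.sx 50000 (.sy 475000 (.sx 25000 (.sx 12500 (.aff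
 2800000 10948973 295919) (.aff 2600000 8704942 294086)) (.aff 1000000 0 0)) (.sx 25000 (.aff 2800000 9178236
 353010) (.aff 1000000 0 0))) (.aff 1000000 0 0)), .pol, (.pol), (.pol), .pol⟩, .one ⟨2008000, 251, 2008000,
 -924484, 425093, 0, 0, 100000, 500000, 550000⟩ ⟨0, .pol, .pol, .pol, .pol, (.sy 525000 (.sy 512500 (.aff
 3025000 9112500 450000) (.sy 518750 (.sx 50000 (.aff 3074000 9302016 462425) (.aff 1000000 0 0)) (.sx 50000
 (.sx 25000 (.aff 5000000 21102923 758189) (.aff 3300000 9399096 562821)) (.aff 1000000 0 0)))) (.sy 537500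
 (.sy 531250 (.sx 50000 (.sx 25000 (.aff 5000000 21228912 753690) (.aff 3300000 9455211 559480)) (.aff 1000000
 0 0)) (.sx 50000 (.sx 25000 (.aff 5000000 21354157 749269) (.aff 3250000 9304233 544108)) (.aff 1000000 0
 0))) (.sy 543750 (.sx 50000 (.sx 25000 (.aff 5000000 26305893 608229) (.aff 3225000 9254503 534943)) (.aff
 1000000 0 0)) (.sx 50000 (.sx 25000 (.aff 5000000 26457514 604744) (.aff 3224000 9188088 538325)) (.aff
 1000000 0 0))))), .pol, (.pol), (.pol), .pol⟩, .one ⟨2008000, 251, 2008000, -1130103, 538184, 0, 0, 100000,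
 550000, 600000⟩ ⟨0, .pol, .pol, .pol, .pol, (.sx 50000 (.sy 575000 (.aff 4060000 10263553 912316) (.aff
 5000000 13711310 1166920)) (.sx 75000 (.sy 575000 (.aff 4000000 9973234 902416) (.aff 4150000 10176715
 975020)) (.aff 1000000 0 0))), .pol, (.aff 5000000 13564660 1179536), (.pol), .pol⟩, .one ⟨2008000, 251,
 2008000, -1383111, 689988, 0, 0, 100000, 600000, 650000⟩ ⟨0, .pol, .pol, .pol, .pol, (.sx 50000 (.aff 5000000
 16329932 979796) (.sx 75000 (.sy 625000 (.aff 4800000 10859405 1329723) (.aff 5000000 11661904 1371989)) (.sy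
 625000 (.aff 4800000 10697501 1349848) (.sy 637500 (.aff 4900000 10870603 1399187) (.aff 5000000 10849622
 1474706))))), .pol, (.aff 8000000 20207260 2424872), (.pol), .pol⟩, .one ⟨2008000, 251, 2008000, -1197973,
 569649, 0, 0, 100000, 650000, 700000⟩ ⟨0, .pol, .pol, .pol, .pol, (.sx 50000 (.aff 3000000 8485282 471405)
 (.aff 5000000 11109842 1440165)), .pol, (.sy 675000 (.aff 10000000 23165168 3496630) (.aff 12000000 28842244
 4195236)), (.sx 50000 (.inf 5196153 192451) (.pol)), .pol⟩, .one ⟨2008000, 251, 2008000, -6669372, 4399628,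
 0, 0, 100000, 700000, 750000⟩ ⟨0, .pol, .pol, .pol, .pol, (.aff 1500000 1903944 131307), .pol, (.aff 35000000
 105710296 10935548), (.inf 3046310 328267), .pol⟩, .one ⟨2008000, 251, 2008000, 0, -602400, 0, 0, 100000,
 750000, 800000⟩ ⟨0, .pol, .pol, .pol, .pol, (.aff 1000000 0 0), .pol, (.aff 35000000 109294709 10576908),
 (.inf 3937004 254001), .pol⟩, .one ⟨2008000, 251, 2008000, 0, -602400, 0, 0, 100000, 800000, 850000⟩ ⟨0,
 .pol, .pol, .pol, .pol, (.aff 1000000 0 0), .pol, (.aff 20000000 63015872 5728716), (.inf 4062020 246183),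
 .pol⟩, .one ⟨2008000, 251, 2008000, 0, -602400, 0, 0, 100000, 850000, 900000⟩ ⟨0, .pol, .pol, .pol, .pol,
 (.aff 1000000 0 0), .pol, (.aff 12000000 37572153 3220471), (.inf 4183301 239046), .pol⟩, .one ⟨2008000, 251,
 2008000, 0, -602400, 0, 0, 100000, 900000, 950000⟩ ⟨0, .pol, .pol, .pol, .pol, (.aff 1000000 0 0), .pol,
 (.aff 12000000 47312789 2557449), (.inf 4301163 232496), .pol⟩, .one ⟨2008000, 251, 2008000, 0, -602400, 0,
 0, 100000, 950000, 1000000⟩ ⟨0, .pol, .pol, .pol, .pol, (.aff 1000000 0 0), .pol, (.aff 8000000 21857493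
 2241795), (.inf 4415881 226456), .pol⟩], []⟩] = true := by decide +kernel

theorem II_xL130_20 : PropII xL130_20 := propII_of cL130_20

end CB
end Pool.Agent.Lib.MP_6947cd_al
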