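import Pool.Agent.Lib.MP_6947cd_al.L.PairA
import Pool.Agent.Lib.MP_6947cd_al.L.BoxLib
import Pool.Agent.Lib.MP_6947cd_al.PS.L130_40_0
import Pool.Agent.Lib.MP_6947cd_al.PS.L130_40_1
import Pool.Agent.Lib.MP_6947cd_al.PS.L130_60_0
import Pool.Agent.Lib.MP_6947cd_al.PS.L130_60_1

/-!
Problem MP_6947cd_al (Chollet).  Library of pair functions: certificates (generated).
-/

set_option autoImplicit false
set_option linter.defProp false
set_option maxRecDepth 100000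

namespace Pool.Agent.Lib.MP_6947cd_al
namespace CB

open CA

theorem lL130_40_0 : chkPl ⟨(nat_lit 3), (nat_lit 1000), Int.ofNat (nat_lit 250), 0, ⟨0, 1⟩, ⟨Int.ofNat
 (nat_lit 40), 200⟩⟩ ⟨650000, 700000, 821443, 806367, 836801, 569665, 592031, 548146, 591607, 547722⟩ true 0
 0 [(nat_lit 50), (nat_lit 100), (nat_lit 150), (nat_lit 200), (nat_lit 250), (nat_lit 300), (nat_lit 350),
 (nat_lit 400), (nat_lit 450), (nat_lit 500), (nat_lit 550), (nat_lit 600), (nat_lit 650), (nat_lit 700),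
 (nat_lit 750), (nat_lit 800), (nat_lit 850), (nat_lit 900), (nat_lit 950), (nat_lit 1000)] [(Int.ofNat
 (nat_lit 1190)), (Int.ofNat (nat_lit 1928)), (Int.ofNat (nat_lit 2772)), (Int.ofNat (nat_lit 3576)),
 (Int.ofNat (nat_lit 4344)), (Int.ofNat (nat_lit 5070)), (Int.ofNat (nat_lit 5745)), (Int.ofNat (nat_lit
 6379)), (Int.ofNat (nat_lit 6960)), (Int.ofNat (nat_lit 7491)), (Int.ofNat (nat_lit 7966)), (Int.ofNat
 (nat_lit 8386)), (Int.ofNat (nat_lit 8742)), (Int.ofNat (nat_lit 9038)), (Int.ofNat (nat_lit 9263)),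
 (Int.ofNat (nat_lit 9416)), (Int.negSucc (nat_lit 29999)), (Int.negSucc (nat_lit 29999)), (Int.negSucc
 (nat_lit 29999)), (Int.negSucc (nat_lit 29999))] [qL130_40_0_0, qL130_40_0_1, qL130_40_0_2, qL130_40_0_3,
 qL130_40_0_4, qL130_40_0_5, qL130_40_0_6, qL130_40_0_7, qL130_40_0_8, qL130_40_0_9, qL130_40_0_10,
 qL130_40_0_11, qL130_40_0_12, qL130_40_0_13, qL130_40_0_14, qL130_40_0_15, qL130_40_0_16, qL130_40_0_17,
 qL130_40_0_18, qL130_40_0_19] = true :=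
  chkPl_cons rfl hL130_40_0_0 (chkPl_cons rfl hL130_40_0_1 (chkPl_cons rfl hL130_40_0_2 (chkPl_cons rfl
 hL130_40_0_3 (chkPl_cons rfl hL130_40_0_4 (chkPl_cons rfl hL130_40_0_5 (chkPl_cons rfl hL130_40_0_6
 (chkPl_cons rfl hL130_40_0_7 (chkPl_cons rfl hL130_40_0_8 (chkPl_cons rfl hL130_40_0_9 (chkPl_cons rfl
 hL130_40_0_10 (chkPl_cons rfl hL130_40_0_11 (chkPl_cons rfl hL130_40_0_12 (chkPl_cons rfl hL130_40_0_13
 (chkPl_cons rfl hL130_40_0_14 (chkPl_cons rfl hL130_40_0_15 (chkPl_cons rfl hL130_40_0_16 (chkPl_cons rfl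
 hL130_40_0_17 (chkPl_cons rfl hL130_40_0_18 (chkPl_cons rfl hL130_40_0_19 chkPl_nil)))))))))))))))))))

theorem lL130_40_1 : chkPl ⟨(nat_lit 3), (nat_lit 1000), Int.ofNat (nat_lit 400), 0, ⟨0, 1⟩, ⟨Int.ofNat
 (nat_lit 40), 200⟩⟩ ⟨650000, 700000, 821443, 806367, 836801, 569665, 592031, 548146, 591607, 547722⟩ true 0
 0 [(nat_lit 50), (nat_lit 100), (nat_lit 150), (nat_lit 200), (nat_lit 250), (nat_lit 300), (nat_lit 350),
 (nat_lit 400), (nat_lit 450), (nat_lit 500), (nat_lit 550), (nat_lit 600), (nat_lit 650), (nat_lit 700),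
 (nat_lit 750), (nat_lit 800), (nat_lit 850), (nat_lit 900), (nat_lit 950), (nat_lit 1000)] [(Int.ofNat
 (nat_lit 696)), (Int.ofNat (nat_lit 1479)), (Int.ofNat (nat_lit 2350)), (Int.ofNat (nat_lit 3332)),
 (Int.ofNat (nat_lit 4223)), (Int.ofNat (nat_lit 5024)), (Int.ofNat (nat_lit 5761)), (Int.ofNat (nat_lit
 6345)), (Int.ofNat (nat_lit 6816)), (Int.ofNat (nat_lit 7152)), (Int.ofNat (nat_lit 7372)), (Int.ofNat
 (nat_lit 7452)), (Int.ofNat (nat_lit 7406)), (Int.ofNat (nat_lit 7204)), (Int.ofNat (nat_lit 6851)),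
 (Int.ofNat (nat_lit 6304)), (Int.negSucc (nat_lit 29999)), (Int.negSucc (nat_lit 29999)), (Int.negSucc
 (nat_lit 29999)), (Int.negSucc (nat_lit 29999))] [qL130_40_1_0, qL130_40_1_1, qL130_40_1_2, qL130_40_1_3,
 qL130_40_1_4, qL130_40_1_5, qL130_40_1_6, qL130_40_1_7, qL130_40_1_8, qL130_40_1_9, qL130_40_1_10,
 qL130_40_1_11, qL130_40_1_12, qL130_40_1_13, qL130_40_1_14, qL130_40_1_15, qL130_40_1_16, qL130_40_1_17,
 qL130_40_1_18, qL130_40_1_19] = true :=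
  chkPl_cons rfl hL130_40_1_0 (chkPl_cons rfl hL130_40_1_1 (chkPl_cons rfl hL130_40_1_2 (chkPl_cons rfl
 hL130_40_1_3 (chkPl_cons rfl hL130_40_1_4 (chkPl_cons rfl hL130_40_1_5 (chkPl_cons rfl hL130_40_1_6
 (chkPl_cons rfl hL130_40_1_7 (chkPl_cons rfl hL130_40_1_8 (chkPl_cons rfl hL130_40_1_9 (chkPl_cons rfl
 hL130_40_1_10 (chkPl_cons rfl hL130_40_1_11 (chkPl_cons rfl hL130_40_1_12 (chkPl_cons rfl hL130_40_1_13
 (chkPl_cons rfl hL130_40_1_14 (chkPl_cons rfl hL130_40_1_15 (chkPl_cons rfl hL130_40_1_16 (chkPl_cons rfl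
 hL130_40_1_17 (chkPl_cons rfl hL130_40_1_18 (chkPl_cons rfl hL130_40_1_19 chkPl_nil)))))))))))))))))))

theorem lL130_40_2 : chkPl ⟨(nat_lit 3), (nat_lit 1000), Int.ofNat (nat_lit 1000), 0, ⟨0, 1⟩, ⟨Int.ofNat
 (nat_lit 40), 200⟩⟩ ⟨650000, 700000, 821443, 806367, 836801, 569665, 592031, 548146, 591607, 547722⟩ true 0
 0 [(nat_lit 50), (nat_lit 100), (nat_lit 150), (nat_lit 200), (nat_lit 250), (nat_lit 300), (nat_lit 350),
 (nat_lit 400), (nat_lit 450), (nat_lit 500), (nat_lit 550), (nat_lit 600), (nat_lit 650), (nat_lit 700),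
 (nat_lit 750), (nat_lit 800), (nat_lit 850), (nat_lit 900), (nat_lit 950), (nat_lit 1000)] [(Int.ofNat
 (nat_lit 645)), (Int.ofNat (nat_lit 1369)), (Int.ofNat (nat_lit 2174)), (Int.ofNat (nat_lit 3059)),
 (Int.ofNat (nat_lit 4042)), (Int.ofNat (nat_lit 5000)), (Int.ofNat (nat_lit 5786)), (Int.ofNat (nat_lit
 6236)), (Int.ofNat (nat_lit 6214)), (Int.ofNat (nat_lit 5819)), (Int.ofNat (nat_lit 4970)), (Int.ofNat
 (nat_lit 3743)), (Int.ofNat (nat_lit 2033)), (Int.negSucc (nat_lit 106)), (Int.negSucc (nat_lit 2824)),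
 (Int.negSucc (nat_lit 6116)), (Int.negSucc (nat_lit 29999)), (Int.negSucc (nat_lit 29999)), (Int.negSucc
 (nat_lit 29999)), (Int.negSucc (nat_lit 29999))] [qL130_40_2_0, qL130_40_2_1, qL130_40_2_2, qL130_40_2_3,
 qL130_40_2_4, qL130_40_2_5, qL130_40_2_6, qL130_40_2_7, qL130_40_2_8, qL130_40_2_9, qL130_40_2_10,
 qL130_40_2_11, qL130_40_2_12, qL130_40_2_13, qL130_40_2_14, qL130_40_2_15, qL130_40_2_16, qL130_40_2_17,
 qL130_40_2_18, qL130_40_2_19] = true :=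
  chkPl_cons rfl hL130_40_2_0 (chkPl_cons rfl hL130_40_2_1 (chkPl_cons rfl hL130_40_2_2 (chkPl_cons rfl
 hL130_40_2_3 (chkPl_cons rfl hL130_40_2_4 (chkPl_cons rfl hL130_40_2_5 (chkPl_cons rfl hL130_40_2_6
 (chkPl_cons rfl hL130_40_2_7 (chkPl_cons rfl hL130_40_2_8 (chkPl_cons rfl hL130_40_2_9 (chkPl_cons rfl
 hL130_40_2_10 (chkPl_cons rfl hL130_40_2_11 (chkPl_cons rfl hL130_40_2_12 (chkPl_cons rfl hL130_40_2_13
 (chkPl_cons rfl hL130_40_2_14 (chkPl_cons rfl hL130_40_2_15 (chkPl_cons rfl hL130_40_2_16 (chkPl_cons rfl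
 hL130_40_2_17 (chkPl_cons rfl hL130_40_2_18 (chkPl_cons rfl hL130_40_2_19 chkPl_nil)))))))))))))))))))

theorem lL130_40_3 : chkPl ⟨(nat_lit 1), (nat_lit 1000), Int.ofNat (nat_lit 205), 0, ⟨0, 1⟩, ⟨Int.ofNat
 (nat_lit 40), 200⟩⟩ ⟨650000, 700000, 821443, 806367, 836801, 569665, 592031, 548146, 591607, 547722⟩ true 0
 0 [(nat_lit 50), (nat_lit 100), (nat_lit 150), (nat_lit 200), (nat_lit 250), (nat_lit 300), (nat_lit 350),
 (nat_lit 400), (nat_lit 450), (nat_lit 500), (nat_lit 550), (nat_lit 600), (nat_lit 650), (nat_lit 700),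
 (nat_lit 750), (nat_lit 800), (nat_lit 850), (nat_lit 900), (nat_lit 950), (nat_lit 1000)] [(Int.ofNat
 (nat_lit 11815)), (Int.ofNat (nat_lit 2084)), (Int.ofNat (nat_lit 2265)), (Int.ofNat (nat_lit 2291)),
 (Int.ofNat (nat_lit 2217)), (Int.ofNat (nat_lit 2026)), (Int.ofNat (nat_lit 1696)), (Int.ofNat (nat_lit
 1250)), (Int.ofNat (nat_lit 652)), (Int.negSucc (nat_lit 74)), (Int.negSucc (nat_lit 979)), (Int.negSucc
 (nat_lit 2042)), (Int.negSucc (nat_lit 3300)), (Int.negSucc (nat_lit 3126)), (Int.negSucc (nat_lit 2723)),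
 (Int.negSucc (nat_lit 2354)), (Int.negSucc (nat_lit 29999)), (Int.negSucc (nat_lit 29999)), (Int.negSucc
 (nat_lit 29999)), (Int.negSucc (nat_lit 29999))] [qL130_40_3_0, qL130_40_3_1, qL130_40_3_2, qL130_40_3_3,
 qL130_40_3_4, qL130_40_3_5, qL130_40_3_6, qL130_40_3_7, qL130_40_3_8, qL130_40_3_9, qL130_40_3_10,
 qL130_40_3_11, qL130_40_3_12, qL130_40_3_13, qL130_40_3_14, qL130_40_3_15, qL130_40_3_16, qL130_40_3_17,
 qL130_40_3_18, qL130_40_3_19] = true :=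
  chkPl_cons rfl hL130_40_3_0 (chkPl_cons rfl hL130_40_3_1 (chkPl_cons rfl hL130_40_3_2 (chkPl_cons rfl
 hL130_40_3_3 (chkPl_cons rfl hL130_40_3_4 (chkPl_cons rfl hL130_40_3_5 (chkPl_cons rfl hL130_40_3_6
 (chkPl_cons rfl hL130_40_3_7 (chkPl_cons rfl hL130_40_3_8 (chkPl_cons rfl hL130_40_3_9 (chkPl_cons rfl
 hL130_40_3_10 (chkPl_cons rfl hL130_40_3_11 (chkPl_cons rfl hL130_40_3_12 (chkPl_cons rfl hL130_40_3_13
 (chkPl_cons rfl hL130_40_3_14 (chkPl_cons rfl hL130_40_3_15 (chkPl_cons rfl hL130_40_3_16 (chkPl_cons rfl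
 hL130_40_3_17 (chkPl_cons rfl hL130_40_3_18 (chkPl_cons rfl hL130_40_3_19 chkPl_nil)))))))))))))))))))

theorem lL130_40_4 : chkPl ⟨(nat_lit 1), (nat_lit 1000), Int.ofNat (nat_lit 250), 0, ⟨0, 1⟩, ⟨Int.ofNat
 (nat_lit 40), 200⟩⟩ ⟨650000, 700000, 821443, 806367, 836801, 569665, 592031, 548146, 591607, 547722⟩ true 0
 0 [(nat_lit 50), (nat_lit 100), (nat_lit 150), (nat_lit 200), (nat_lit 250), (nat_lit 300), (nat_lit 350),
 (nat_lit 400), (nat_lit 450), (nat_lit 500), (nat_lit 550), (nat_lit 600), (nat_lit 650), (nat_lit 700),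
 (nat_lit 750), (nat_lit 800), (nat_lit 850), (nat_lit 900), (nat_lit 950), (nat_lit 1000)] [(Int.ofNat
 (nat_lit 1144)), (Int.ofNat (nat_lit 1680)), (Int.ofNat (nat_lit 2030)), (Int.ofNat (nat_lit 2166)),
 (Int.ofNat (nat_lit 2172)), (Int.ofNat (nat_lit 2010)), (Int.ofNat (nat_lit 1702)), (Int.ofNat (nat_lit
 1241)), (Int.ofNat (nat_lit 607)), (Int.negSucc (nat_lit 180)), (Int.negSucc (nat_lit 1163)), (Int.negSucc
 (nat_lit 2320)), (Int.negSucc (nat_lit 3703)), (Int.negSucc (nat_lit 3675)), (Int.negSucc (nat_lit 3447)),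
 (Int.negSucc (nat_lit 3298)), (Int.negSucc (nat_lit 29999)), (Int.negSucc (nat_lit 29999)), (Int.negSucc
 (nat_lit 29999)), (Int.negSucc (nat_lit 29999))] [qL130_40_4_0, qL130_40_4_1, qL130_40_4_2, qL130_40_4_3,
 qL130_40_4_4, qL130_40_4_5, qL130_40_4_6, qL130_40_4_7, qL130_40_4_8, qL130_40_4_9, qL130_40_4_10,
 qL130_40_4_11, qL130_40_4_12, qL130_40_4_13, qL130_40_4_14, qL130_40_4_15, qL130_40_4_16, qL130_40_4_17,
 qL130_40_4_18, qL130_40_4_19] = true :=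
  chkPl_cons rfl hL130_40_4_0 (chkPl_cons rfl hL130_40_4_1 (chkPl_cons rfl hL130_40_4_2 (chkPl_cons rfl
 hL130_40_4_3 (chkPl_cons rfl hL130_40_4_4 (chkPl_cons rfl hL130_40_4_5 (chkPl_cons rfl hL130_40_4_6
 (chkPl_cons rfl hL130_40_4_7 (chkPl_cons rfl hL130_40_4_8 (chkPl_cons rfl hL130_40_4_9 (chkPl_cons rfl
 hL130_40_4_10 (chkPl_cons rfl hL130_40_4_11 (chkPl_cons rfl hL130_40_4_12 (chkPl_cons rfl hL130_40_4_13
 (chkPl_cons rfl hL130_40_4_14 (chkPl_cons rfl hL130_40_4_15 (chkPl_cons rfl hL130_40_4_16 (chkPl_cons rfl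
 hL130_40_4_17 (chkPl_cons rfl hL130_40_4_18 (chkPl_cons rfl hL130_40_4_19 chkPl_nil)))))))))))))))))))

theorem lL130_40_5 : chkPl ⟨(nat_lit 1), (nat_lit 1000), Int.ofNat (nat_lit 400), 0, ⟨0, 1⟩, ⟨Int.ofNat
 (nat_lit 40), 200⟩⟩ ⟨650000, 700000, 821443, 806367, 836801, 569665, 592031, 548146, 591607, 547722⟩ true 0
 0 [(nat_lit 50), (nat_lit 100), (nat_lit 150), (nat_lit 200), (nat_lit 250), (nat_lit 300), (nat_lit 350),
 (nat_lit 400), (nat_lit 450), (nat_lit 500), (nat_lit 550), (nat_lit 600), (nat_lit 650), (nat_lit 700),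
 (nat_lit 750), (nat_lit 800), (nat_lit 850), (nat_lit 900), (nat_lit 950), (nat_lit 1000)] [(Int.ofNat
 (nat_lit 376)), (Int.ofNat (nat_lit 843)), (Int.ofNat (nat_lit 1449)), (Int.ofNat (nat_lit 1849)),
 (Int.ofNat (nat_lit 2011)), (Int.ofNat (nat_lit 1984)), (Int.ofNat (nat_lit 1707)), (Int.ofNat (nat_lit
 1213)), (Int.ofNat (nat_lit 458)), (Int.negSucc (nat_lit 515)), (Int.negSucc (nat_lit 1762)), (Int.negSucc
 (nat_lit 3249)), (Int.negSucc (nat_lit 5044)), (Int.negSucc (nat_lit 5508)), (Int.negSucc (nat_lit 5861)),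
 (Int.negSucc (nat_lit 6408)), (Int.negSucc (nat_lit 29999)), (Int.negSucc (nat_lit 29999)), (Int.negSucc
 (nat_lit 29999)), (Int.negSucc (nat_lit 29999))] [qL130_40_5_0, qL130_40_5_1, qL130_40_5_2, qL130_40_5_3,
 qL130_40_5_4, qL130_40_5_5, qL130_40_5_6, qL130_40_5_7, qL130_40_5_8, qL130_40_5_9, qL130_40_5_10,
 qL130_40_5_11, qL130_40_5_12, qL130_40_5_13, qL130_40_5_14, qL130_40_5_15, qL130_40_5_16, qL130_40_5_17,
 qL130_40_5_18, qL130_40_5_19] = true :=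
  chkPl_cons rfl hL130_40_5_0 (chkPl_cons rfl hL130_40_5_1 (chkPl_cons rfl hL130_40_5_2 (chkPl_cons rfl
 hL130_40_5_3 (chkPl_cons rfl hL130_40_5_4 (chkPl_cons rfl hL130_40_5_5 (chkPl_cons rfl hL130_40_5_6
 (chkPl_cons rfl hL130_40_5_7 (chkPl_cons rfl hL130_40_5_8 (chkPl_cons rfl hL130_40_5_9 (chkPl_cons rfl
 hL130_40_5_10 (chkPl_cons rfl hL130_40_5_11 (chkPl_cons rfl hL130_40_5_12 (chkPl_cons rfl hL130_40_5_13
 (chkPl_cons rfl hL130_40_5_14 (chkPl_cons rfl hL130_40_5_15 (chkPl_cons rfl hL130_40_5_16 (chkPl_cons rfl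
 hL130_40_5_17 (chkPl_cons rfl hL130_40_5_18 (chkPl_cons rfl hL130_40_5_19 chkPl_nil)))))))))))))))))))

theorem lL130_40_6 : chkPl ⟨(nat_lit 1), (nat_lit 1000), Int.ofNat (nat_lit 1000), 0, ⟨0, 1⟩, ⟨Int.ofNat
 (nat_lit 40), 200⟩⟩ ⟨650000, 700000, 821443, 806367, 836801, 569665, 592031, 548146, 591607, 547722⟩ true 0
 0 [(nat_lit 50), (nat_lit 100), (nat_lit 150), (nat_lit 200), (nat_lit 250), (nat_lit 300), (nat_lit 350),
 (nat_lit 400), (nat_lit 450), (nat_lit 500), (nat_lit 550), (nat_lit 600), (nat_lit 650), (nat_lit 700),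
 (nat_lit 750), (nat_lit 800), (nat_lit 850), (nat_lit 900), (nat_lit 950), (nat_lit 1000)] [(Int.ofNat
 (nat_lit 200)), (Int.ofNat (nat_lit 470)), (Int.ofNat (nat_lit 812)), (Int.ofNat (nat_lit 1226)),
 (Int.ofNat (nat_lit 1710)), (Int.ofNat (nat_lit 1851)), (Int.ofNat (nat_lit 1742)), (Int.ofNat (nat_lit
 1097)), (Int.negSucc (nat_lit 136)), (Int.negSucc (nat_lit 1849)), (Int.negSucc (nat_lit 4151)),
 (Int.negSucc (nat_lit 6959)), (Int.negSucc (nat_lit 10409)), (Int.negSucc (nat_lit 12838)), (Int.negSucc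
 (nat_lit 15517)), (Int.negSucc (nat_lit 18850)), (Int.negSucc (nat_lit 29999)), (Int.negSucc (nat_lit
 29999)), (Int.negSucc (nat_lit 29999)), (Int.negSucc (nat_lit 29999))] [qL130_40_6_0, qL130_40_6_1,
 qL130_40_6_2, qL130_40_6_3, qL130_40_6_4, qL130_40_6_5, qL130_40_6_6, qL130_40_6_7, qL130_40_6_8,
 qL130_40_6_9, qL130_40_6_10, qL130_40_6_11, qL130_40_6_12, qL130_40_6_13, qL130_40_6_14, qL130_40_6_15,
 qL130_40_6_16, qL130_40_6_17, qL130_40_6_18, qL130_40_6_19] = true :=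
  chkPl_cons rfl hL130_40_6_0 (chkPl_cons rfl hL130_40_6_1 (chkPl_cons rfl hL130_40_6_2 (chkPl_cons rfl
 hL130_40_6_3 (chkPl_cons rfl hL130_40_6_4 (chkPl_cons rfl hL130_40_6_5 (chkPl_cons rfl hL130_40_6_6
 (chkPl_cons rfl hL130_40_6_7 (chkPl_cons rfl hL130_40_6_8 (chkPl_cons rfl hL130_40_6_9 (chkPl_cons rfl
 hL130_40_6_10 (chkPl_cons rfl hL130_40_6_11 (chkPl_cons rfl hL130_40_6_12 (chkPl_cons rfl hL130_40_6_13
 (chkPl_cons rfl hL130_40_6_14 (chkPl_cons rfl hL130_40_6_15 (chkPl_cons rfl hL130_40_6_16 (chkPl_cons rfl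
 hL130_40_6_17 (chkPl_cons rfl hL130_40_6_18 (chkPl_cons rfl hL130_40_6_19 chkPl_nil)))))))))))))))))))

def cL130_40 : chkII xL130_40 ⟨650000, 700000, 821443, 806367, 836801, 569665, 592031, 548146, 591607,
 547722⟩ [⟨[qL130_40_0_0, qL130_40_0_1, qL130_40_0_2, qL130_40_0_3, qL130_40_0_4, qL130_40_0_5,
 qL130_40_0_6, qL130_40_0_7, qL130_40_0_8, qL130_40_0_9, qL130_40_0_10, qL130_40_0_11, qL130_40_0_12,
 qL130_40_0_13, qL130_40_0_14, qL130_40_0_15, qL130_40_0_16, qL130_40_0_17, qL130_40_0_18, qL130_40_0_19],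
 []⟩, ⟨[qL130_40_1_0, qL130_40_1_1, qL130_40_1_2, qL130_40_1_3, qL130_40_1_4, qL130_40_1_5, qL130_40_1_6,
 qL130_40_1_7, qL130_40_1_8, qL130_40_1_9, qL130_40_1_10, qL130_40_1_11, qL130_40_1_12, qL130_40_1_13,
 qL130_40_1_14, qL130_40_1_15, qL130_40_1_16, qL130_40_1_17, qL130_40_1_18, qL130_40_1_19], []⟩,
 ⟨[qL130_40_2_0, qL130_40_2_1, qL130_40_2_2, qL130_40_2_3, qL130_40_2_4, qL130_40_2_5, qL130_40_2_6,
 qL130_40_2_7, qL130_40_2_8, qL130_40_2_9, qL130_40_2_10, qL130_40_2_11, qL130_40_2_12, qL130_40_2_13,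
 qL130_40_2_14, qL130_40_2_15, qL130_40_2_16, qL130_40_2_17, qL130_40_2_18, qL130_40_2_19], []⟩,
 ⟨[qL130_40_3_0, qL130_40_3_1, qL130_40_3_2, qL130_40_3_3, qL130_40_3_4, qL130_40_3_5, qL130_40_3_6,
 qL130_40_3_7, qL130_40_3_8, qL130_40_3_9, qL130_40_3_10, qL130_40_3_11, qL130_40_3_12, qL130_40_3_13,
 qL130_40_3_14, qL130_40_3_15, qL130_40_3_16, qL130_40_3_17, qL130_40_3_18, qL130_40_3_19], []⟩,
 ⟨[qL130_40_4_0, qL130_40_4_1, qL130_40_4_2, qL130_40_4_3, qL130_40_4_4, qL130_40_4_5, qL130_40_4_6,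
 qL130_40_4_7, qL130_40_4_8, qL130_40_4_9, qL130_40_4_10, qL130_40_4_11, qL130_40_4_12, qL130_40_4_13,
 qL130_40_4_14, qL130_40_4_15, qL130_40_4_16, qL130_40_4_17, qL130_40_4_18, qL130_40_4_19], []⟩,
 ⟨[qL130_40_5_0, qL130_40_5_1, qL130_40_5_2, qL130_40_5_3, qL130_40_5_4, qL130_40_5_5, qL130_40_5_6,
 qL130_40_5_7, qL130_40_5_8, qL130_40_5_9, qL130_40_5_10, qL130_40_5_11, qL130_40_5_12, qL130_40_5_13,
 qL130_40_5_14, qL130_40_5_15, qL130_40_5_16, qL130_40_5_17, qL130_40_5_18, qL130_40_5_19], []⟩,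
 ⟨[qL130_40_6_0, qL130_40_6_1, qL130_40_6_2, qL130_40_6_3, qL130_40_6_4, qL130_40_6_5, qL130_40_6_6,
 qL130_40_6_7, qL130_40_6_8, qL130_40_6_9, qL130_40_6_10, qL130_40_6_11, qL130_40_6_12, qL130_40_6_13,
 qL130_40_6_14, qL130_40_6_15, qL130_40_6_16, qL130_40_6_17, qL130_40_6_18, qL130_40_6_19], []⟩] = true :=
 chkII_mk (by decide +kernel) (chkCls_cons lL130_40_0 rfl (chkCls_cons lL130_40_1 rfl (chkCls_cons
 lL130_40_2 rfl (chkCls_cons lL130_40_3 rfl (chkCls_cons lL130_40_4 rfl (chkCls_cons lL130_40_5 rfl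
 (chkCls_cons lL130_40_6 rfl chkCls_nil)))))))

theorem II_xL130_40 : PropII xL130_40 := propII_of cL130_40

theorem lL130_60_0 : chkPl ⟨(nat_lit 3), (nat_lit 1000), Int.ofNat (nat_lit 250), 0, ⟨0, 1⟩, ⟨Int.ofNat
 (nat_lit 60), 200⟩⟩ ⟨650000, 700000, 821443, 806367, 836801, 569665, 592031, 548146, 591607, 547722⟩ true 0
 0 [(nat_lit 50), (nat_lit 100), (nat_lit 150), (nat_lit 200), (nat_lit 250), (nat_lit 300), (nat_lit 350),
 (nat_lit 400), (nat_lit 450), (nat_lit 500), (nat_lit 550), (nat_lit 600), (nat_lit 650), (nat_lit 700),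
 (nat_lit 750), (nat_lit 800), (nat_lit 850), (nat_lit 900), (nat_lit 950), (nat_lit 1000)] [(Int.ofNat
 (nat_lit 4691)), (Int.ofNat (nat_lit 1933)), (Int.ofNat (nat_lit 2768)), (Int.ofNat (nat_lit 3577)),
 (Int.ofNat (nat_lit 4344)), (Int.ofNat (nat_lit 5070)), (Int.ofNat (nat_lit 5745)), (Int.ofNat (nat_lit
 6379)), (Int.ofNat (nat_lit 6960)), (Int.ofNat (nat_lit 7492)), (Int.ofNat (nat_lit 7966)), (Int.ofNat
 (nat_lit 8386)), (Int.ofNat (nat_lit 8742)), (Int.ofNat (nat_lit 9038)), (Int.ofNat (nat_lit 9263)),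
 (Int.ofNat (nat_lit 9416)), (Int.ofNat (nat_lit 9483)), (Int.ofNat (nat_lit 9485)), (Int.negSucc (nat_lit
 29999)), (Int.negSucc (nat_lit 29999))] [qL130_60_0_0, qL130_60_0_1, qL130_60_0_2, qL130_60_0_3,
 qL130_60_0_4, qL130_60_0_5, qL130_60_0_6, qL130_60_0_7, qL130_60_0_8, qL130_60_0_9, qL130_60_0_10,
 qL130_60_0_11, qL130_60_0_12, qL130_60_0_13, qL130_60_0_14, qL130_60_0_15, qL130_60_0_16, qL130_60_0_17,
 qL130_60_0_18, qL130_60_0_19] = true :=
  chkPl_cons rfl hL130_60_0_0 (chkPl_cons rfl hL130_60_0_1 (chkPl_cons rfl hL130_60_0_2 (chkPl_cons rfl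
 hL130_60_0_3 (chkPl_cons rfl hL130_60_0_4 (chkPl_cons rfl hL130_60_0_5 (chkPl_cons rfl hL130_60_0_6
 (chkPl_cons rfl hL130_60_0_7 (chkPl_cons rfl hL130_60_0_8 (chkPl_cons rfl hL130_60_0_9 (chkPl_cons rfl
 hL130_60_0_10 (chkPl_cons rfl hL130_60_0_11 (chkPl_cons rfl hL130_60_0_12 (chkPl_cons rfl hL130_60_0_13
 (chkPl_cons rfl hL130_60_0_14 (chkPl_cons rfl hL130_60_0_15 (chkPl_cons rfl hL130_60_0_16 (chkPl_cons rfl
 hL130_60_0_17 (chkPl_cons rfl hL130_60_0_18 (chkPl_cons rfl hL130_60_0_19 chkPl_nil)))))))))))))))))))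

theorem lL130_60_1 : chkPl ⟨(nat_lit 3), (nat_lit 1000), Int.ofNat (nat_lit 400), 0, ⟨0, 1⟩, ⟨Int.ofNat
 (nat_lit 60), 200⟩⟩ ⟨650000, 700000, 821443, 806367, 836801, 569665, 592031, 548146, 591607, 547722⟩ true 0
 0 [(nat_lit 50), (nat_lit 100), (nat_lit 150), (nat_lit 200), (nat_lit 250), (nat_lit 300), (nat_lit 350),
 (nat_lit 400), (nat_lit 450), (nat_lit 500), (nat_lit 550), (nat_lit 600), (nat_lit 650), (nat_lit 700),
 (nat_lit 750), (nat_lit 800), (nat_lit 850), (nat_lit 900), (nat_lit 950), (nat_lit 1000)] [(Int.ofNat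
 (nat_lit 696)), (Int.ofNat (nat_lit 1479)), (Int.ofNat (nat_lit 2350)), (Int.ofNat (nat_lit 3318)),
 (Int.ofNat (nat_lit 4224)), (Int.ofNat (nat_lit 5024)), (Int.ofNat (nat_lit 5761)), (Int.ofNat (nat_lit
 6345)), (Int.ofNat (nat_lit 6816)), (Int.ofNat (nat_lit 7152)), (Int.ofNat (nat_lit 7372)), (Int.ofNat
 (nat_lit 7452)), (Int.ofNat (nat_lit 7406)), (Int.ofNat (nat_lit 7204)), (Int.ofNat (nat_lit 6851)),
 (Int.ofNat (nat_lit 6304)), (Int.ofNat (nat_lit 5544)), (Int.ofNat (nat_lit 4482)), (Int.negSucc (nat_lit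
 29999)), (Int.negSucc (nat_lit 29999))] [qL130_60_1_0, qL130_60_1_1, qL130_60_1_2, qL130_60_1_3,
 qL130_60_1_4, qL130_60_1_5, qL130_60_1_6, qL130_60_1_7, qL130_60_1_8, qL130_60_1_9, qL130_60_1_10,
 qL130_60_1_11, qL130_60_1_12, qL130_60_1_13, qL130_60_1_14, qL130_60_1_15, qL130_60_1_16, qL130_60_1_17,
 qL130_60_1_18, qL130_60_1_19] = true :=
  chkPl_cons rfl hL130_60_1_0 (chkPl_cons rfl hL130_60_1_1 (chkPl_cons rfl hL130_60_1_2 (chkPl_cons rfl
 hL130_60_1_3 (chkPl_cons rfl hL130_60_1_4 (chkPl_cons rfl hL130_60_1_5 (chkPl_cons rfl hL130_60_1_6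
 (chkPl_cons rfl hL130_60_1_7 (chkPl_cons rfl hL130_60_1_8 (chkPl_cons rfl hL130_60_1_9 (chkPl_cons rfl
 hL130_60_1_10 (chkPl_cons rfl hL130_60_1_11 (chkPl_cons rfl hL130_60_1_12 (chkPl_cons rfl hL130_60_1_13
 (chkPl_cons rfl hL130_60_1_14 (chkPl_cons rfl hL130_60_1_15 (chkPl_cons rfl hL130_60_1_16 (chkPl_cons rfl
 hL130_60_1_17 (chkPl_cons rfl hL130_60_1_18 (chkPl_cons rfl hL130_60_1_19 chkPl_nil)))))))))))))))))))

theorem lL130_60_2 : chkPl ⟨(nat_lit 3), (nat_lit 1000), Int.ofNat (nat_lit 1000), 0, ⟨0, 1⟩, ⟨Int.ofNat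
 (nat_lit 60), 200⟩⟩ ⟨650000, 700000, 821443, 806367, 836801, 569665, 592031, 548146, 591607, 547722⟩ true 0
 0 [(nat_lit 50), (nat_lit 100), (nat_lit 150), (nat_lit 200), (nat_lit 250), (nat_lit 300), (nat_lit 350),
 (nat_lit 400), (nat_lit 450), (nat_lit 500), (nat_lit 550), (nat_lit 600), (nat_lit 650), (nat_lit 700),
 (nat_lit 750), (nat_lit 800), (nat_lit 850), (nat_lit 900), (nat_lit 950), (nat_lit 1000)] [(Int.ofNat
 (nat_lit 645)), (Int.ofNat (nat_lit 1369)), (Int.ofNat (nat_lit 2174)), (Int.ofNat (nat_lit 3059)),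
 (Int.ofNat (nat_lit 4042)), (Int.ofNat (nat_lit 5000)), (Int.ofNat (nat_lit 5786)), (Int.ofNat (nat_lit
 6236)), (Int.ofNat (nat_lit 6218)), (Int.ofNat (nat_lit 5823)), (Int.ofNat (nat_lit 4970)), (Int.ofNat
 (nat_lit 3743)), (Int.ofNat (nat_lit 2033)), (Int.negSucc (nat_lit 106)), (Int.negSucc (nat_lit 2824)),
 (Int.negSucc (nat_lit 6116)), (Int.negSucc (nat_lit 10232)), (Int.negSucc (nat_lit 15365)), (Int.negSucc
 (nat_lit 29999)), (Int.negSucc (nat_lit 29999))] [qL130_60_2_0, qL130_60_2_1, qL130_60_2_2, qL130_60_2_3,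
 qL130_60_2_4, qL130_60_2_5, qL130_60_2_6, qL130_60_2_7, qL130_60_2_8, qL130_60_2_9, qL130_60_2_10,
 qL130_60_2_11, qL130_60_2_12, qL130_60_2_13, qL130_60_2_14, qL130_60_2_15, qL130_60_2_16, qL130_60_2_17,
 qL130_60_2_18, qL130_60_2_19] = true :=
  chkPl_cons rfl hL130_60_2_0 (chkPl_cons rfl hL130_60_2_1 (chkPl_cons rfl hL130_60_2_2 (chkPl_cons rfl
 hL130_60_2_3 (chkPl_cons rfl hL130_60_2_4 (chkPl_cons rfl hL130_60_2_5 (chkPl_cons rfl hL130_60_2_6
 (chkPl_cons rfl hL130_60_2_7 (chkPl_cons rfl hL130_60_2_8 (chkPl_cons rfl hL130_60_2_9 (chkPl_cons rfl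
 hL130_60_2_10 (chkPl_cons rfl hL130_60_2_11 (chkPl_cons rfl hL130_60_2_12 (chkPl_cons rfl hL130_60_2_13
 (chkPl_cons rfl hL130_60_2_14 (chkPl_cons rfl hL130_60_2_15 (chkPl_cons rfl hL130_60_2_16 (chkPl_cons rfl
 hL130_60_2_17 (chkPl_cons rfl hL130_60_2_18 (chkPl_cons rfl hL130_60_2_19 chkPl_nil)))))))))))))))))))

theorem lL130_60_3 : chkPl ⟨(nat_lit 1), (nat_lit 1000), Int.ofNat (nat_lit 225), 0, ⟨0, 1⟩, ⟨Int.ofNat
 (nat_lit 60), 200⟩⟩ ⟨650000, 700000, 821443, 806367, 836801, 569665, 592031, 548146, 591607, 547722⟩ true 0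
 0 [(nat_lit 50), (nat_lit 100), (nat_lit 150), (nat_lit 200), (nat_lit 250), (nat_lit 300), (nat_lit 350),
 (nat_lit 400), (nat_lit 450), (nat_lit 500), (nat_lit 550), (nat_lit 600), (nat_lit 650), (nat_lit 700),
 (nat_lit 750), (nat_lit 800), (nat_lit 850), (nat_lit 900), (nat_lit 950), (nat_lit 1000)] [(Int.ofNat
 (nat_lit 10140)), (Int.ofNat (nat_lit 1910)), (Int.ofNat (nat_lit 2142)), (Int.ofNat (nat_lit 2240)),
 (Int.ofNat (nat_lit 2195)), (Int.ofNat (nat_lit 2022)), (Int.ofNat (nat_lit 1697)), (Int.ofNat (nat_lit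
 1246)), (Int.ofNat (nat_lit 632)), (Int.negSucc (nat_lit 122)), (Int.negSucc (nat_lit 1062)), (Int.negSucc
 (nat_lit 2165)), (Int.negSucc (nat_lit 3479)), (Int.negSucc (nat_lit 3372)), (Int.negSucc (nat_lit 3041)),
 (Int.negSucc (nat_lit 2782)), (Int.negSucc (nat_lit 2467)), (Int.negSucc (nat_lit 2502)), (Int.negSucc
 (nat_lit 29999)), (Int.negSucc (nat_lit 29999))] [qL130_60_3_0, qL130_60_3_1, qL130_60_3_2, qL130_60_3_3,
 qL130_60_3_4, qL130_60_3_5, qL130_60_3_6, qL130_60_3_7, qL130_60_3_8, qL130_60_3_9, qL130_60_3_10,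
 qL130_60_3_11, qL130_60_3_12, qL130_60_3_13, qL130_60_3_14, qL130_60_3_15, qL130_60_3_16, qL130_60_3_17,
 qL130_60_3_18, qL130_60_3_19] = true :=
  chkPl_cons rfl hL130_60_3_0 (chkPl_cons rfl hL130_60_3_1 (chkPl_cons rfl hL130_60_3_2 (chkPl_cons rfl
 hL130_60_3_3 (chkPl_cons rfl hL130_60_3_4 (chkPl_cons rfl hL130_60_3_5 (chkPl_cons rfl hL130_60_3_6
 (chkPl_cons rfl hL130_60_3_7 (chkPl_cons rfl hL130_60_3_8 (chkPl_cons rfl hL130_60_3_9 (chkPl_cons rfl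
 hL130_60_3_10 (chkPl_cons rfl hL130_60_3_11 (chkPl_cons rfl hL130_60_3_12 (chkPl_cons rfl hL130_60_3_13
 (chkPl_cons rfl hL130_60_3_14 (chkPl_cons rfl hL130_60_3_15 (chkPl_cons rfl hL130_60_3_16 (chkPl_cons rfl
 hL130_60_3_17 (chkPl_cons rfl hL130_60_3_18 (chkPl_cons rfl hL130_60_3_19 chkPl_nil)))))))))))))))))))

theorem lL130_60_4 : chkPl ⟨(nat_lit 1), (nat_lit 1000), Int.ofNat (nat_lit 250), 0, ⟨0, 1⟩, ⟨Int.ofNat
 (nat_lit 60), 200⟩⟩ ⟨650000, 700000, 821443, 806367, 836801, 569665, 592031, 548146, 591607, 547722⟩ true 0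
 0 [(nat_lit 50), (nat_lit 100), (nat_lit 150), (nat_lit 200), (nat_lit 250), (nat_lit 300), (nat_lit 350),
 (nat_lit 400), (nat_lit 450), (nat_lit 500), (nat_lit 550), (nat_lit 600), (nat_lit 650), (nat_lit 700),
 (nat_lit 750), (nat_lit 800), (nat_lit 850), (nat_lit 900), (nat_lit 950), (nat_lit 1000)] [(Int.ofNat
 (nat_lit 1129)), (Int.ofNat (nat_lit 1684)), (Int.ofNat (nat_lit 2016)), (Int.ofNat (nat_lit 2170)),
 (Int.ofNat (nat_lit 2168)), (Int.ofNat (nat_lit 2014)), (Int.ofNat (nat_lit 1701)), (Int.ofNat (nat_lit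
 1239)), (Int.ofNat (nat_lit 609)), (Int.negSucc (nat_lit 179)), (Int.negSucc (nat_lit 1162)), (Int.negSucc
 (nat_lit 2320)), (Int.negSucc (nat_lit 3702)), (Int.negSucc (nat_lit 3675)), (Int.negSucc (nat_lit 3447)),
 (Int.negSucc (nat_lit 3298)), (Int.negSucc (nat_lit 3227)), (Int.negSucc (nat_lit 3232)), (Int.negSucc
 (nat_lit 29999)), (Int.negSucc (nat_lit 29999))] [qL130_60_4_0, qL130_60_4_1, qL130_60_4_2, qL130_60_4_3,
 qL130_60_4_4, qL130_60_4_5, qL130_60_4_6, qL130_60_4_7, qL130_60_4_8, qL130_60_4_9, qL130_60_4_10,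
 qL130_60_4_11, qL130_60_4_12, qL130_60_4_13, qL130_60_4_14, qL130_60_4_15, qL130_60_4_16, qL130_60_4_17,
 qL130_60_4_18, qL130_60_4_19] = true :=
  chkPl_cons rfl hL130_60_4_0 (chkPl_cons rfl hL130_60_4_1 (chkPl_cons rfl hL130_60_4_2 (chkPl_cons rfl
 hL130_60_4_3 (chkPl_cons rfl hL130_60_4_4 (chkPl_cons rfl hL130_60_4_5 (chkPl_cons rfl hL130_60_4_6
 (chkPl_cons rfl hL130_60_4_7 (chkPl_cons rfl hL130_60_4_8 (chkPl_cons rfl hL130_60_4_9 (chkPl_cons rfl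
 hL130_60_4_10 (chkPl_cons rfl hL130_60_4_11 (chkPl_cons rfl hL130_60_4_12 (chkPl_cons rfl hL130_60_4_13
 (chkPl_cons rfl hL130_60_4_14 (chkPl_cons rfl hL130_60_4_15 (chkPl_cons rfl hL130_60_4_16 (chkPl_cons rfl
 hL130_60_4_17 (chkPl_cons rfl hL130_60_4_18 (chkPl_cons rfl hL130_60_4_19 chkPl_nil)))))))))))))))))))

theorem lL130_60_5 : chkPl ⟨(nat_lit 1), (nat_lit 1000), Int.ofNat (nat_lit 400), 0, ⟨0, 1⟩, ⟨Int.ofNat
 (nat_lit 60), 200⟩⟩ ⟨650000, 700000, 821443, 806367, 836801, 569665, 592031, 548146, 591607, 547722⟩ true 0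
 0 [(nat_lit 50), (nat_lit 100), (nat_lit 150), (nat_lit 200), (nat_lit 250), (nat_lit 300), (nat_lit 350),
 (nat_lit 400), (nat_lit 450), (nat_lit 500), (nat_lit 550), (nat_lit 600), (nat_lit 650), (nat_lit 700),
 (nat_lit 750), (nat_lit 800), (nat_lit 850), (nat_lit 900), (nat_lit 950), (nat_lit 1000)] [(Int.ofNat
 (nat_lit 380)), (Int.ofNat (nat_lit 845)), (Int.ofNat (nat_lit 1456)), (Int.ofNat (nat_lit 1839)),
 (Int.ofNat (nat_lit 2001)), (Int.ofNat (nat_lit 1984)), (Int.ofNat (nat_lit 1707)), (Int.ofNat (nat_lit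
 1213)), (Int.ofNat (nat_lit 464)), (Int.negSucc (nat_lit 509)), (Int.negSucc (nat_lit 1762)), (Int.negSucc
 (nat_lit 3249)), (Int.negSucc (nat_lit 5044)), (Int.negSucc (nat_lit 5508)), (Int.negSucc (nat_lit 5861)),
 (Int.negSucc (nat_lit 6408)), (Int.negSucc (nat_lit 7167)), (Int.negSucc (nat_lit 8229)), (Int.negSucc
 (nat_lit 29999)), (Int.negSucc (nat_lit 29999))] [qL130_60_5_0, qL130_60_5_1, qL130_60_5_2, qL130_60_5_3,
 qL130_60_5_4, qL130_60_5_5, qL130_60_5_6, qL130_60_5_7, qL130_60_5_8, qL130_60_5_9, qL130_60_5_10,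
 qL130_60_5_11, qL130_60_5_12, qL130_60_5_13, qL130_60_5_14, qL130_60_5_15, qL130_60_5_16, qL130_60_5_17,
 qL130_60_5_18, qL130_60_5_19] = true :=
  chkPl_cons rfl hL130_60_5_0 (chkPl_cons rfl hL130_60_5_1 (chkPl_cons rfl hL130_60_5_2 (chkPl_cons rfl
 hL130_60_5_3 (chkPl_cons rfl hL130_60_5_4 (chkPl_cons rfl hL130_60_5_5 (chkPl_cons rfl hL130_60_5_6
 (chkPl_cons rfl hL130_60_5_7 (chkPl_cons rfl hL130_60_5_8 (chkPl_cons rfl hL130_60_5_9 (chkPl_cons rfl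
 hL130_60_5_10 (chkPl_cons rfl hL130_60_5_11 (chkPl_cons rfl hL130_60_5_12 (chkPl_cons rfl hL130_60_5_13
 (chkPl_cons rfl hL130_60_5_14 (chkPl_cons rfl hL130_60_5_15 (chkPl_cons rfl hL130_60_5_16 (chkPl_cons rfl
 hL130_60_5_17 (chkPl_cons rfl hL130_60_5_18 (chkPl_cons rfl hL130_60_5_19 chkPl_nil)))))))))))))))))))

theorem lL130_60_6 : chkPl ⟨(nat_lit 1), (nat_lit 1000), Int.ofNat (nat_lit 1000), 0, ⟨0, 1⟩, ⟨Int.ofNat
 (nat_lit 60), 200⟩⟩ ⟨650000, 700000, 821443, 806367, 836801, 569665, 592031, 548146, 591607, 547722⟩ true 0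
 0 [(nat_lit 50), (nat_lit 100), (nat_lit 150), (nat_lit 200), (nat_lit 250), (nat_lit 300), (nat_lit 350),
 (nat_lit 400), (nat_lit 450), (nat_lit 500), (nat_lit 550), (nat_lit 600), (nat_lit 650), (nat_lit 700),
 (nat_lit 750), (nat_lit 800), (nat_lit 850), (nat_lit 900), (nat_lit 950), (nat_lit 1000)] [(Int.ofNat
 (nat_lit 200)), (Int.ofNat (nat_lit 470)), (Int.ofNat (nat_lit 812)), (Int.ofNat (nat_lit 1226)),
 (Int.ofNat (nat_lit 1714)), (Int.ofNat (nat_lit 1855)), (Int.ofNat (nat_lit 1742)), (Int.ofNat (nat_lit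
 1097)), (Int.negSucc (nat_lit 136)), (Int.negSucc (nat_lit 1855)), (Int.negSucc (nat_lit 4157)),
 (Int.negSucc (nat_lit 6959)), (Int.negSucc (nat_lit 10403)), (Int.negSucc (nat_lit 12837)), (Int.negSucc
 (nat_lit 15517)), (Int.negSucc (nat_lit 18850)), (Int.negSucc (nat_lit 22924)), (Int.negSucc (nat_lit
 28102)), (Int.negSucc (nat_lit 29999)), (Int.negSucc (nat_lit 29999))] [qL130_60_6_0, qL130_60_6_1,
 qL130_60_6_2, qL130_60_6_3, qL130_60_6_4, qL130_60_6_5, qL130_60_6_6, qL130_60_6_7, qL130_60_6_8,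
 qL130_60_6_9, qL130_60_6_10, qL130_60_6_11, qL130_60_6_12, qL130_60_6_13, qL130_60_6_14, qL130_60_6_15,
 qL130_60_6_16, qL130_60_6_17, qL130_60_6_18, qL130_60_6_19] = true :=
  chkPl_cons rfl hL130_60_6_0 (chkPl_cons rfl hL130_60_6_1 (chkPl_cons rfl hL130_60_6_2 (chkPl_cons rfl
 hL130_60_6_3 (chkPl_cons rfl hL130_60_6_4 (chkPl_cons rfl hL130_60_6_5 (chkPl_cons rfl hL130_60_6_6
 (chkPl_cons rfl hL130_60_6_7 (chkPl_cons rfl hL130_60_6_8 (chkPl_cons rfl hL130_60_6_9 (chkPl_cons rfl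
 hL130_60_6_10 (chkPl_cons rfl hL130_60_6_11 (chkPl_cons rfl hL130_60_6_12 (chkPl_cons rfl hL130_60_6_13
 (chkPl_cons rfl hL130_60_6_14 (chkPl_cons rfl hL130_60_6_15 (chkPl_cons rfl hL130_60_6_16 (chkPl_cons rfl
 hL130_60_6_17 (chkPl_cons rfl hL130_60_6_18 (chkPl_cons rfl hL130_60_6_19 chkPl_nil)))))))))))))))))))

def cL130_60 : chkII xL130_60 ⟨650000, 700000, 821443, 806367, 836801, 569665, 592031, 548146, 591607,
 547722⟩ [⟨[qL130_60_0_0, qL130_60_0_1, qL130_60_0_2, qL130_60_0_3, qL130_60_0_4, qL130_60_0_5,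
 qL130_60_0_6, qL130_60_0_7, qL130_60_0_8, qL130_60_0_9, qL130_60_0_10, qL130_60_0_11, qL130_60_0_12,
 qL130_60_0_13, qL130_60_0_14, qL130_60_0_15, qL130_60_0_16, qL130_60_0_17, qL130_60_0_18, qL130_60_0_19],
 []⟩, ⟨[qL130_60_1_0, qL130_60_1_1, qL130_60_1_2, qL130_60_1_3, qL130_60_1_4, qL130_60_1_5, qL130_60_1_6,
 qL130_60_1_7, qL130_60_1_8, qL130_60_1_9, qL130_60_1_10, qL130_60_1_11, qL130_60_1_12, qL130_60_1_13,
 qL130_60_1_14, qL130_60_1_15, qL130_60_1_16, qL130_60_1_17, qL130_60_1_18, qL130_60_1_19], []⟩,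
 ⟨[qL130_60_2_0, qL130_60_2_1, qL130_60_2_2, qL130_60_2_3, qL130_60_2_4, qL130_60_2_5, qL130_60_2_6,
 qL130_60_2_7, qL130_60_2_8, qL130_60_2_9, qL130_60_2_10, qL130_60_2_11, qL130_60_2_12, qL130_60_2_13,
 qL130_60_2_14, qL130_60_2_15, qL130_60_2_16, qL130_60_2_17, qL130_60_2_18, qL130_60_2_19], []⟩,
 ⟨[qL130_60_3_0, qL130_60_3_1, qL130_60_3_2, qL130_60_3_3, qL130_60_3_4, qL130_60_3_5, qL130_60_3_6,
 qL130_60_3_7, qL130_60_3_8, qL130_60_3_9, qL130_60_3_10, qL130_60_3_11, qL130_60_3_12, qL130_60_3_13,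
 qL130_60_3_14, qL130_60_3_15, qL130_60_3_16, qL130_60_3_17, qL130_60_3_18, qL130_60_3_19], []⟩,
 ⟨[qL130_60_4_0, qL130_60_4_1, qL130_60_4_2, qL130_60_4_3, qL130_60_4_4, qL130_60_4_5, qL130_60_4_6,
 qL130_60_4_7, qL130_60_4_8, qL130_60_4_9, qL130_60_4_10, qL130_60_4_11, qL130_60_4_12, qL130_60_4_13,
 qL130_60_4_14, qL130_60_4_15, qL130_60_4_16, qL130_60_4_17, qL130_60_4_18, qL130_60_4_19], []⟩,
 ⟨[qL130_60_5_0, qL130_60_5_1, qL130_60_5_2, qL130_60_5_3, qL130_60_5_4, qL130_60_5_5, qL130_60_5_6,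
 qL130_60_5_7, qL130_60_5_8, qL130_60_5_9, qL130_60_5_10, qL130_60_5_11, qL130_60_5_12, qL130_60_5_13,
 qL130_60_5_14, qL130_60_5_15, qL130_60_5_16, qL130_60_5_17, qL130_60_5_18, qL130_60_5_19], []⟩,
 ⟨[qL130_60_6_0, qL130_60_6_1, qL130_60_6_2, qL130_60_6_3, qL130_60_6_4, qL130_60_6_5, qL130_60_6_6,
 qL130_60_6_7, qL130_60_6_8, qL130_60_6_9, qL130_60_6_10, qL130_60_6_11, qL130_60_6_12, qL130_60_6_13,
 qL130_60_6_14, qL130_60_6_15, qL130_60_6_16, qL130_60_6_17, qL130_60_6_18, qL130_60_6_19], []⟩] = true :=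
 chkII_mk (by decide +kernel) (chkCls_cons lL130_60_0 rfl (chkCls_cons lL130_60_1 rfl (chkCls_cons
 lL130_60_2 rfl (chkCls_cons lL130_60_3 rfl (chkCls_cons lL130_60_4 rfl (chkCls_cons lL130_60_5 rfl
 (chkCls_cons lL130_60_6 rfl chkCls_nil)))))))

theorem II_xL130_60 : PropII xL130_60 := propII_of cL130_60

def cL140_20 : chkII xL140_20 ⟨700000, 750000, 851343, 836787, 866153, 523861, 548266, 500544, 547722,
 500000⟩ [⟨[.one ⟨2008000, 251, 502000, 395576, 0, 0, 0, 100000, 0, 50000⟩ ⟨50000, (.aff 1414214 707107),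
 (.aff 707107 1414214), (.pol), (.pol), (.aff 0 632456 1581138), (.aff 0 1414214 707107), (.pol), (.pol),
 (.pol)⟩, .one ⟨2008000, 251, 502000, 369070, 1325, 0, 0, 100000, 50000, 100000⟩ ⟨0, .pol, .pol, .pol, .pol,
 (.sy 75000 (.sy 62500 (.sx 50000 (.aff 0 1500000 666667) (.aff 75000 801074 1068098)) (.sy 68750 (.sy 65625
 (.sy 64062 (.sx 50000 (.aff 0 1590988 628541) (.aff 75000 768809 1112923)) (.sx 50000 (.aff 0 1610510 620922)
 (.aff 113000 784534 1002849))) (.sx 50000 (.aff 0 1639360 609995) (.aff 100000 770774 1050892))) (.sx 50000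
 (.aff 0 1695583 589768) (.sx 75000 (.aff 125000 938333 815942) (.aff 150000 744256 970769))))) (.sx 50000
 (.aff 0 1527526 654654) (.sx 75000 (.aff 125000 1035314 739510) (.aff 188000 772399 853632)))), .pol, (.pol),
 (.sx 50000 (.pol) (.pol)), .pol⟩, .one ⟨2008000, 251, 502000, 332524, 4979, 0, 0, 100000, 100000, 150000⟩ ⟨0,
 .pol, .pol, .pol, .pol, (.sy 125000 (.sx 50000 (.aff 250000 1299039 433013) (.aff 300000 987300 496304)) (.sx
 50000 (.sx 25000 (.aff 250000 2031010 276956) (.aff 313000 1280365 368621)) (.aff 1000000 0 0))), .pol,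
 (.pol), (.pol), .pol⟩, .one ⟨2008000, 251, 502000, 314452, 7690, 0, 0, 100000, 150000, 200000⟩ ⟨0, .pol,
 .pol, .pol, .pol, (.sy 175000 (.sy 162500 (.sx 50000 (.sx 25000 (.aff 250000 1875000 300000) (.aff 375000
 1341187 291254)) (.aff 1000000 0 0)) (.sx 50000 (.sx 25000 (.aff 375000 1623798 240563) (.aff 500000 1161896
 215166)) (.aff 1000000 0 0))) (.sy 187500 (.sx 50000 (.sx 25000 (.aff 450000 1710020 176899) (.aff 1000000 0
 0)) (.aff 1000000 0 0)) (.sy 193750 (.sx 50000 (.sx 25000 (.aff 500000 1594261 156813) (.aff 1000000 0 0))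
 (.aff 1000000 0 0)) (.sx 50000 (.aff 560000 1640400 118020) (.aff 1000000 0 0))))), .pol, (.pol), (.pol),
 .pol⟩, .one ⟨2008000, 251, 502000, 291963, 12188, 0, 0, 100000, 200000, 250000⟩ ⟨0, .pol, .pol, .pol, .pol,
 (.sy 225000 (.sy 212500 (.sx 50000 (.aff 625000 1683460 83534) (.aff 1000000 0 0)) (.sx 50000 (.aff 644000
 1708774 74168) (.aff 1000000 0 0))) (.sy 237500 (.sy 231250 (.sy 228125 (.sx 50000 (.sx 25000 (.aff 625000
 1764411 79701) (.aff 1000000 0 0)) (.aff 1000000 0 0)) (.sx 50000 (.sx 25000 (.aff 738000 1939943 35385)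
 (.aff 1000000 0 0)) (.aff 1000000 0 0))) (.sx 50000 (.sx 25000 (.aff 750000 1869884 33425) (.aff 1000000 0
 0)) (.aff 1000000 0 0))) (.sx 50000 (.sx 25000 (.aff 750000 1906915 32776) (.aff 1000000 0 0)) (.aff 1000000
 0 0)))), .pol, (.pol), (.pol), .pol⟩, .one ⟨2008000, 251, 502000, 273088, 16907, 0, 0, 100000, 250000,
 300000⟩ ⟨0, .pol, .pol, .pol, .pol, (.sx 50000 (.sx 25000 (.aff 875000 1845322 8468) (.aff 1000000 0 0))
 (.aff 1000000 0 0)), .pol, (.pol), (.pol), .pol⟩, .one ⟨2008000, 251, 502000, 253811, 22690, 0, 0, 100000,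
 300000, 350000⟩ ⟨0, .pol, .pol, .pol, .pol, (.sx 50000 (.sx 25000 (.sx 12500 (.aff 1100000 1960181 5102)
 (.aff 1000000 0 0)) (.aff 1000000 0 0)) (.aff 1000000 0 0)), .pol, (.pol), (.pol), .pol⟩, .one ⟨2008000, 251,
 502000, 236542, 28734, 0, 0, 100000, 350000, 400000⟩ ⟨0, .pol, .pol, .pol, .pol, (.sy 375000 (.sx 50000 (.aff
 1300000 2410117 37343) (.aff 1000000 0 0)) (.sx 50000 (.sx 25000 (.sx 12500 (.sx 6250 (.aff 1500000 4546061
 54993) (.aff 1400000 2720194 58820)) (.aff 1000000 0 0)) (.aff 1000000 0 0)) (.aff 1000000 0 0))), .pol,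
 (.pol), (.pol), .pol⟩, .one ⟨2008000, 251, 502000, 218470, 35963, 0, 0, 100000, 400000, 450000⟩ ⟨0, .pol,
 .pol, .pol, .pol, (.sx 50000 (.sx 25000 (.aff 1550000 2901835 104245) (.aff 1000000 0 0)) (.aff 1000000 0
 0)), .pol, (.pol), (.pol), .pol⟩, .one ⟨2008000, 251, 502000, 201201, 43734, 0, 0, 100000, 450000, 500000⟩
 ⟨0, .pol, .pol, .pol, .pol, (.sx 50000 (.sx 25000 (.aff 2000000 4358899 229416) (.aff 1800000 2913247
 219687)) (.aff 1000000 0 0)), .pol, (.pol), (.pol), .pol⟩, .one ⟨2008000, 251, 502000, 183932, 52368, 0, 0,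
 100000, 500000, 550000⟩ ⟨0, .pol, .pol, .pol, .pol, (.sx 50000 (.aff 2000000 3240371 308607) (.aff 2000000
 2898276 345033)), .pol, (.pol), (.pol), .pol⟩, .one ⟨2008000, 251, 502000, 166664, 61866, 0, 0, 100000,
 550000, 600000⟩ ⟨0, .pol, .pol, .pol, .pol, (.sy 575000 (.sy 562500 (.sx 50000 (.aff 2000000 3335417 299813)
 (.aff 2000000 2983287 335201)) (.sx 50000 (.aff 2000000 3372685 296500) (.sx 75000 (.aff 2100000 3318283
 364647) (.aff 1500000 1322876 188983)))) (.sx 50000 (.aff 2000000 3427828 291730) (.sx 75000 (.aff 3000000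
 6131884 652329) (.aff 2100000 2957910 409073)))), .pol, (.pol), (.pol), .pol⟩, .one ⟨2008000, 251, 502000,
 147788, 73191, 0, 0, 100000, 600000, 650000⟩ ⟨0, .pol, .pol, .pol, .pol, (.aff 2500000 3750000 600000), .pol,
 (.pol), (.pol), .pol⟩, .one ⟨2008000, 251, 502000, -15433087, 10200760, 0, 0, 100000, 650000, 700000⟩ ⟨0,
 .pol, .pol, .pol, .pol, (.inf 2939388 340207), .pol, (.pol), (.inf 2939388 340207), .pol⟩, .one ⟨2008000,
 251, 502000, 0, -602400, 0, 0, 100000, 700000, 750000⟩ ⟨0, .pol, .pol, .pol, .pol, (.inf 3807887 262613),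
 .pol, (.pol), (.inf 3807887 262613), .pol⟩, .one ⟨2008000, 251, 502000, 0, -602400, 0, 0, 100000, 750000,
 800000⟩ ⟨0, .pol, .pol, .pol, .pol, (.aff 35000000 109294709 10576908), .pol, (.pol), (.inf 3937004 254001),
 .pol⟩, .one ⟨2008000, 251, 502000, 0, -602400, 0, 0, 100000, 800000, 850000⟩ ⟨0, .pol, .pol, .pol, .pol,
 (.aff 35000000 138108653 8370222), .pol, (.pol), (.inf 4062020 246183), .pol⟩, .one ⟨2008000, 251, 502000, 0,
 -602400, 0, 0, 100000, 850000, 900000⟩ ⟨0, .pol, .pol, .pol, .pol, (.aff 20000000 64897355 5562631), .pol,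
 (.pol), (.inf 4183301 239046), .pol⟩, .one ⟨2008000, 251, 502000, 0, -602400, 0, 0, 100000, 900000, 950000⟩
 ⟨0, .pol, .pol, .pol, .pol, (.aff 20000000 81722091 4417411), .pol, (.pol), (.inf 4301163 232496), .pol⟩,
 .one ⟨2008000, 251, 502000, 0, -602400, 0, 0, 100000, 950000, 1000000⟩ ⟨0, .pol, .pol, .pol, .pol, (.aff
 12000000 39661065 3050852), .pol, (.pol), (.inf 4415881 226456), .pol⟩], []⟩, ⟨[.one ⟨2008000, 251, 803200,
 291561, 0, 0, 0, 100000, 0, 50000⟩ ⟨25000, (.aff 3162278 316228), (.pol), (.pol), (.pol), (.pol), (.aff 0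
 3841565 260311), (.pol), (.pol), (.pol)⟩, .one ⟨2008000, 251, 803200, 326902, -1768, 0, 0, 100000, 50000,
 100000⟩ ⟨0, .pol, .pol, .pol, .pol, (.sx 50000 (.sy 75000 (.aff 0 3875672 258020) (.aff 0 3754500 266348))
 (.pol)), .pol, (.pol), (.sx 50000 (.pol) (.pol)), .pol⟩, .one ⟨2008000, 251, 803200, 368668, -5944, 0, 0,
 100000, 100000, 150000⟩ ⟨0, .pol, .pol, .pol, .pol, (.sx 50000 (.sy 125000 (.aff 0 3756969 266173) (.aff 0
 3665438 272819)) (.aff 0 1290995 774597)), .pol, (.pol), (.pol), .pol⟩, .one ⟨2008000, 251, 803200, 373889,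
 -6727, 0, 0, 100000, 150000, 200000⟩ ⟨0, .pol, .pol, .pol, .pol, (.sy 175000 (.sy 162500 (.aff 0 3547669
 281876) (.sy 168750 (.sx 50000 (.aff 0 3640055 274722) (.aff 0 1486047 672927)) (.sy 171875 (.sx 50000 (.aff
 13000 3643221 267393) (.aff 0 1506929 663602)) (.sx 50000 (.sy 173437 (.aff 19000 3645901 263957) (.aff 22000
 3651161 261968)) (.aff 0 1520691 657596))))) (.sy 187500 (.sy 181250 (.sy 178125 (.sy 176562 (.sx 50000 (.sx
 25000 (.aff 250000 3977473 141422) (.aff 0 2165062 461881)) (.aff 0 1530931 653198)) (.sx 50000 (.sx 25000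
 (.aff 250000 3995112 140798) (.aff 0 2174664 459842)) (.aff 0 1537720 650314))) (.sy 179687 (.sx 50000 (.sx
 25000 (.aff 250000 4012673 140181) (.aff 0 2184223 457829)) (.aff 0 1544479 647468)) (.sx 50000 (.sx 25000
 (.aff 250000 4030157 139573) (.aff 0 2193740 455843)) (.aff 0 1551209 644659)))) (.sy 184375 (.sx 50000 (.sx
 25000 (.aff 250000 4056246 138676) (.aff 0 2207941 452911)) (.aff 0 1561250 640513)) (.sy 185937 (.sx 50000
 (.sx 25000 (.aff 250000 4082162 137795) (.aff 0 2222048 450036)) (.aff 0 1571225 636447)) (.sx 50000 (.sx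
 25000 (.aff 250000 4099350 137217) (.aff 0 2444380 409102)) (.aff 0 1577841 633778))))) (.sy 193750 (.sx
 50000 (.sx 25000 (.aff 300000 3865877 126751) (.aff 1000000 0 0)) (.aff 0 1594261 627250)) (.sy 196875 (.sx
 50000 (.sx 25000 (.aff 375000 3493857 111804) (.aff 1000000 0 0)) (.aff 0 1613744 619677)) (.sx 50000 (.sx
 25000 (.aff 375000 3521697 110920) (.aff 1000000 0 0)) (.aff 0 1626602 614779)))))), .pol, (.pol), (.pol),
 .pol⟩, .one ⟨2008000, 251, 803200, 327705, 2510, 0, 0, 100000, 200000, 250000⟩ ⟨0, .pol, .pol, .pol, .pol,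
 (.aff 450000 3672143 82377), .pol, (.pol), (.pol), .pol⟩, .one ⟨2008000, 251, 803200, 291963, 11445, 0, 0,
 100000, 250000, 300000⟩ ⟨0, .pol, .pol, .pol, .pol, (.sx 50000 (.sx 25000 (.aff 763000 4167848 13477) (.aff
 1000000 0 0)) (.aff 1000000 0 0)), .pol, (.pol), (.pol), .pol⟩, .one ⟨2008000, 251, 803200, 236542, 28071, 0,
 0, 100000, 300000, 350000⟩ ⟨0, .pol, .pol, .pol, .pol, (.sx 50000 (.sx 25000 (.aff 1225000 3990702 12686)
 (.aff 1000000 0 0)) (.aff 1000000 0 0)), .pol, (.pol), (.pol), .pol⟩, .one ⟨2008000, 251, 803200, 187145,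
 45360, 0, 0, 100000, 350000, 400000⟩ ⟨0, .pol, .pol, .pol, .pol, (.sy 375000 (.sx 50000 (.sx 25000 (.aff
 1650000 4950253 85350) (.aff 1000000 0 0)) (.aff 1000000 0 0)) (.sx 50000 (.sx 25000 (.sy 387500 (.sx 12500
 (.sx 6250 (.aff 2000000 9018500 110884) (.aff 1600000 4191420 85890)) (.aff 1000000 0 0)) (.aff 1956000
 5365537 170335)) (.aff 1000000 0 0)) (.aff 1000000 0 0))), .pol, (.pol), (.pol), .pol⟩, .one ⟨2008000, 251,
 803200, 139756, 64316, 0, 0, 100000, 400000, 450000⟩ ⟨0, .pol, .pol, .pol, .pol, (.sx 50000 (.sy 425000 (.sx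
 25000 (.aff 1906000 5204574 157715) (.aff 1000000 0 0)) (.sy 437500 (.aff 2038000 5265636 204619) (.sx 25000
 (.aff 2100000 5351324 226113) (.aff 1000000 0 0)))) (.aff 1000000 0 0)), .pol, (.pol), (.pol), .pol⟩, .one
 ⟨2008000, 251, 803200, 94777, 84556, 0, 0, 100000, 450000, 500000⟩ ⟨0, .pol, .pol, .pol, .pol, (.sx 50000
 (.sx 25000 (.aff 3000000 8717798 458832) (.aff 2500000 5742397 391823)) (.aff 1000000 0 0)), .pol, (.pol),
 (.pol), .pol⟩, .one ⟨2008000, 251, 803200, 49396, 107247, 0, 0, 100000, 500000, 550000⟩ ⟨0, .pol, .pol, .pol,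
 .pol, (.sx 50000 (.aff 2900000 6156704 586353) (.aff 2939000 5907887 636391)), .pol, (.pol), (.pol), .pol⟩,
 .one ⟨2008000, 251, 803200, 4417, 131985, 0, 0, 100000, 550000, 600000⟩ ⟨0, .pol, .pol, .pol, .pol, (.sx
 50000 (.aff 3000000 6782330 589768) (.sx 75000 (.aff 3250000 6175143 819820) (.aff 3200000 5852548 826991))),
 .pol, (.pol), (.pol), .pol⟩, .one ⟨2008000, 251, 803200, -45783, 162105, 0, 0, 100000, 600000, 650000⟩ ⟨0,
 .pol, .pol, .pol, .pol, (.aff 3800000 7000000 1120000), .pol, (.pol), (.pol), .pol⟩, .one ⟨2008000, 251,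
 803200, -14694946, 9684061, 0, 0, 100000, 650000, 700000⟩ ⟨0, .pol, .pol, .pol, .pol, (.inf 2939388 340207),
 .pol, (.pol), (.inf 2939388 340207), .pol⟩, .one ⟨2008000, 251, 803200, 0, -602400, 0, 0, 100000, 700000,
 750000⟩ ⟨0, .pol, .pol, .pol, .pol, (.inf 3807887 262613), .pol, (.pol), (.inf 3807887 262613), .pol⟩, .one
 ⟨2008000, 251, 803200, 0, -602400, 0, 0, 100000, 750000, 800000⟩ ⟨0, .pol, .pol, .pol, .pol, (.aff 35000000
 109294709 10576908), .pol, (.pol), (.inf 3937004 254001), .pol⟩, .one ⟨2008000, 251, 803200, 0, -602400, 0,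
 0, 100000, 800000, 850000⟩ ⟨0, .pol, .pol, .pol, .pol, (.aff 20000000 54573346 6614951), .pol, (.pol), (.inf
 4062020 246183), .pol⟩, .one ⟨2008000, 251, 803200, 0, -602400, 0, 0, 100000, 850000, 900000⟩ ⟨0, .pol, .pol,
 .pol, .pol, (.aff 20000000 79482703 4541869), .pol, (.pol), (.inf 4183301 239046), .pol⟩, .one ⟨2008000, 251,
 803200, 0, -602400, 0, 0, 100000, 900000, 950000⟩ ⟨0, .pol, .pol, .pol, .pol, (.aff 20000000 81722091
 4417411), .pol, (.pol), (.inf 4301163 232496), .pol⟩, .one ⟨2008000, 251, 803200, 0, -602400, 0, 0, 100000,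
 950000, 1000000⟩ ⟨0, .pol, .pol, .pol, .pol, (.aff 12000000 39661065 3050852), .pol, (.pol), (.inf 4415881
 226456), .pol⟩], []⟩, ⟨[.one ⟨2008000, 251, 2008000, 271080, 0, 0, 0, 100000, 0, 50000⟩ ⟨12500, (.sp 250000
 (.aff 6324556 158114) (.pol)), (.pol), (.pol), (.pol), (.pol), (.aff 0 14172346 70560), (.pol), (.pol),
 (.pol)⟩, .one ⟨2008000, 251, 2008000, 303609, -1627, 0, 0, 100000, 50000, 100000⟩ ⟨0, .pol, .pol, .pol, .pol,
 (.aff 0 13454400 74326), .pol, (.pol), (.sx 50000 (.pol) (.pol)), .pol⟩, .one ⟨2008000, 251, 2008000, 336942,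
 -4960, 0, 0, 100000, 100000, 150000⟩ ⟨0, .pol, .pol, .pol, .pol, (.aff 0 13527423 73924), .pol, (.pol),
 (.pol), .pol⟩, .one ⟨2008000, 251, 2008000, 375496, -10743, 0, 0, 100000, 150000, 200000⟩ ⟨0, .pol, .pol,
 .pol, .pol, (.aff 0 13104493 76310), .pol, (.pol), (.pol), .pol⟩, .one ⟨2008000, 251, 2008000, 380315,
 -11707, 0, 0, 100000, 200000, 250000⟩ ⟨0, .pol, .pol, .pol, .pol, (.sy 225000 (.aff 0 13066257 76534) (.aff
 175000 12594674 54041)), .pol, (.pol), (.pol), .pol⟩, .one ⟨2008000, 251, 2008000, 326099, 1847, 0, 0,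
 100000, 250000, 300000⟩ ⟨0, .pol, .pol, .pol, .pol, (.sx 50000 (.aff 525000 11035097 20447) (.pol)), .pol,
 (.pol), (.pol), .pol⟩, .one ⟨2008000, 251, 2008000, 175499, 47027, 0, 0, 100000, 300000, 350000⟩ ⟨0, .pol,
 .pol, .pol, .pol, (.sx 50000 (.sx 25000 (.aff 1600000 12998010 27697) (.aff 1000000 0 0)) (.aff 0 2081666
 480385)), .pol, (.pol), (.pol), .pol⟩, .one ⟨2008000, 251, 2008000, -19679, 115339, 0, 0, 100000, 350000,
 400000⟩ ⟨0, .pol, .pol, .pol, .pol, (.sx 50000 (.sx 25000 (.sy 375000 (.aff 2950000 14850758 256048) (.sy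
 387500 (.sx 12500 (.aff 2907000 14894147 244167) (.aff 1000000 0 0)) (.sy 393750 (.sx 12500 (.sx 6250 (.aff
 3000000 15811389 252983) (.aff 3000000 14142136 282843)) (.aff 1000000 0 0)) (.sx 12500 (.sx 6250 (.aff
 3000000 18402899 217358) (.aff 3000000 14254824 280607)) (.aff 1000000 0 0))))) (.aff 1000000 0 0)) (.aff 0
 2236068 447214)), .pol, (.pol), (.pol), .pol⟩, .one ⟨2008000, 251, 2008000, -165861, 173812, 0, 0, 100000,
 400000, 450000⟩ ⟨0, .pol, .pol, .pol, .pol, (.sy 425000 (.sx 50000 (.sx 25000 (.sx 12500 (.aff 4600000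
 20680426 626680) (.sx 18750 (.aff 3850000 15435673 526217) (.aff 1000000 0 0))) (.aff 1000000 0 0)) (.aff
 1000000 0 0)) (.sx 50000 (.sx 25000 (.sx 12500 (.aff 5000000 27325203 585541) (.sx 18750 (.aff 4500000
 16906607 724569) (.aff 4250000 15518374 680645))) (.aff 1000000 0 0)) (.aff 1000000 0 0))), .pol, (.pol),
 (.pol), .pol⟩, .one ⟨2008000, 251, 2008000, -340959, 252606, 0, 0, 100000, 450000, 500000⟩ ⟨0, .pol, .pol,
 .pol, .pol, (.sx 50000 (.sx 25000 (.aff 5000000 17435596 917663) (.sx 37500 (.sy 475000 (.aff 5025000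
 16119324 1005044) (.aff 5239000 16329330 1100420)) (.aff 5400000 15045368 1286775))) (.aff 1000000 0 0)),
 .pol, (.pol), (.pol), .pol⟩, .one ⟨2008000, 251, 2008000, -478708, 321480, 0, 0, 100000, 500000, 550000⟩ ⟨0,
 .pol, .pol, .pol, .pol, (.sx 50000 (.sx 25000 (.aff 8000000 45365185 1080124) (.sy 525000 (.aff 6550000
 17768670 1733529) (.aff 8000000 24535689 1997091))) (.sx 75000 (.sx 62500 (.sx 56250 (.sy 525000 (.aff
 6100000 16078671 1617672) (.aff 6800000 17928996 1876291)) (.aff 6200000 15670113 1725578)) (.aff 5000000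
 11313709 1414214)) (.aff 1000000 0 0))), .pol, (.pol), (.pol), .pol⟩, .one ⟨2008000, 251, 2008000, -653404,
 417563, 0, 0, 100000, 550000, 600000⟩ ⟨0, .pol, .pol, .pol, .pol, (.sx 50000 (.aff 8000000 27410461 1787639)
 (.sx 75000 (.sy 575000 (.aff 7900000 18896429 2519524) (.aff 8000000 19591665 2501064)) (.sy 575000 (.aff
 7775000 18277477 2511322) (.aff 7700000 18016361 2491625)))), .pol, (.pol), (.pol), .pol⟩, .one ⟨2008000,
 251, 2008000, -805610, 508887, 0, 0, 100000, 600000, 650000⟩ ⟨0, .pol, .pol, .pol, .pol, (.sx 50000 (.aff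
 8000000 28577381 1714643) (.sy 625000 (.aff 8500000 18875374 2980074) (.aff 12000000 29691269 4075273))),
 .pol, (.pol), (.sx 50000 (.inf 5000000 200000) (.pol)), .pol⟩, .one ⟨2008000, 251, 2008000, -11752824,
 7624576, 0, 0, 100000, 650000, 700000⟩ ⟨0, .pol, .pol, .pol, .pol, (.inf 2939388 340207), .pol, (.pol), (.inf
 2939388 340207), .pol⟩, .one ⟨2008000, 251, 2008000, 0, -602400, 0, 0, 100000, 700000, 750000⟩ ⟨0, .pol,
 .pol, .pol, .pol, (.inf 3807887 262613), .pol, (.pol), (.inf 3807887 262613), .pol⟩, .one ⟨2008000, 251,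
 2008000, 0, -602400, 0, 0, 100000, 750000, 800000⟩ ⟨0, .pol, .pol, .pol, .pol, (.aff 35000000 109294709
 10576908), .pol, (.pol), (.inf 3937004 254001), .pol⟩, .one ⟨2008000, 251, 2008000, 0, -602400, 0, 0, 100000,
 800000, 850000⟩ ⟨0, .pol, .pol, .pol, .pol, (.aff 20000000 63015872 5728716), .pol, (.pol), (.inf 4062020
 246183), .pol⟩, .one ⟨2008000, 251, 2008000, 0, -602400, 0, 0, 100000, 850000, 900000⟩ ⟨0, .pol, .pol, .pol,
 .pol, (.aff 20000000 79482703 4541869), .pol, (.pol), (.inf 4183301 239046), .pol⟩, .one ⟨2008000, 251,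
 2008000, 0, -602400, 0, 0, 100000, 900000, 950000⟩ ⟨0, .pol, .pol, .pol, .pol, (.aff 12000000 33455194
 3616778), .pol, (.pol), (.inf 4301163 232496), .pol⟩, .one ⟨2008000, 251, 2008000, 0, -602400, 0, 0, 100000,
 950000, 1000000⟩ ⟨0, .pol, .pol, .pol, .pol, (.aff 12000000 48574685 2491010), .pol, (.pol), (.inf 4415881
 226456), .pol⟩], []⟩, ⟨[.one ⟨2008000, 251, 361440, 7695459, 0, 0, 0, 100000, 0, 50000⟩ ⟨50000, (.pol), (.sp
 500000 (.sp 250000 (.sp 125000 (.aff 111804 8944224) (.pol)) (.pol)) (.pol)), (.pol), (.pol), (.sy 25000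
 (.aff 0 29022 34456620) (.pol)), (.pol), (.pol), (.pol), (.pol)⟩, .one ⟨2008000, 251, 361440, -6872983,
 728422, 0, 0, 100000, 50000, 100000⟩ ⟨0, .pol, .pol, .pol, .pol, (.sx 50000 (.aff 0 1732051 577351) (.aff
 500000 547723 456436)), .pol, (.pol), (.sx 50000 (.pol) (.pol)), .pol⟩, .one ⟨2008000, 251, 361440, 30521,
 38071, 0, 0, 100000, 100000, 150000⟩ ⟨0, .pol, .pol, .pol, .pol, (.sy 125000 (.sx 50000 (.aff 525000 767993
 293786) (.aff 575000 599432 301327)) (.sy 137500 (.sy 131250 (.sx 50000 (.sx 25000 (.aff 0 3201563 312348)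
 (.aff 550000 757285 267403)) (.aff 1000000 0 0)) (.sx 50000 (.sx 25000 (.aff 0 3278720 304998) (.aff 575000
 779689 231663)) (.aff 1000000 0 0))) (.sx 50000 (.sx 25000 (.aff 0 2768875 361158) (.sx 37500 (.aff 550000
 881051 229840) (.aff 625000 679746 206879))) (.aff 1000000 0 0)))), .pol, (.pol), (.pol), .pol⟩, .one
 ⟨2008000, 251, 361440, -9639, 44095, 0, 0, 100000, 150000, 200000⟩ ⟨0, .pol, .pol, .pol, .pol, (.sy 175000
 (.sy 162500 (.sy 156250 (.sx 50000 (.sx 25000 (.aff 500000 1428870 174964) (.aff 625000 830098 169408)) (.aff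
 1000000 0 0)) (.sx 50000 (.sx 25000 (.aff 500000 1457738 171499) (.aff 625000 846870 166053)) (.aff 1000000 0
 0))) (.sx 50000 (.sx 25000 (.aff 625000 974279 144338) (.aff 700000 770456 116814)) (.aff 1000000 0 0))) (.sx
 50000 (.sx 25000 (.aff 663000 994793 114164) (.aff 1000000 0 0)) (.aff 1000000 0 0))), .pol, (.pol), (.pol),
 .pol⟩, .one ⟨2008000, 251, 361440, -57429, 53653, 0, 0, 100000, 200000, 250000⟩ ⟨0, .pol, .pol, .pol, .pol,
 (.sy 225000 (.sy 212500 (.sx 50000 (.aff 750000 1054310 59281) (.aff 1000000 0 0)) (.sy 218750 (.sx 50000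
 (.sx 25000 (.aff 750000 1091565 57258) (.aff 1000000 0 0)) (.aff 1000000 0 0)) (.sx 50000 (.sy 221875 (.sx
 25000 (.aff 750000 1103366 56645) (.aff 1000000 0 0)) (.sx 25000 (.sx 12500 (.aff 775000 1154755 43841) (.aff
 1000000 0 0)) (.aff 1000000 0 0))) (.aff 1000000 0 0)))) (.sx 50000 (.aff 800000 1119388 35734) (.aff 1000000
 0 0))), .pol, (.pol), (.pol), .pol⟩, .one ⟨2008000, 251, 361440, -96384, 63392, 0, 0, 100000, 250000, 300000⟩
 ⟨0, .pol, .pol, .pol, .pol, (.sx 50000 (.sx 25000 (.aff 925000 956241 5883) (.aff 1000000 0 0)) (.aff 1000000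
 0 0)), .pol, (.pol), (.pol), .pol⟩, .one ⟨2008000, 251, 361440, -145781, 78211, 0, 0, 100000, 300000, 350000⟩
 ⟨0, .pol, .pol, .pol, .pol, (.sx 50000 (.sx 25000 (.sx 12500 (.aff 1100000 1452138 6887) (.aff 1000000 0 0))
 (.aff 1000000 0 0)) (.aff 1000000 0 0)), .pol, (.pol), (.pol), .pol⟩, .one ⟨2008000, 251, 361440, -190359,
 93813, 0, 0, 100000, 350000, 400000⟩ ⟨0, .pol, .pol, .pol, .pol, (.sy 375000 (.sx 50000 (.sy 362500 (.aff
 1225000 1621412 31223) (.sy 368750 (.sy 365625 (.aff 1247000 1700941 35868) (.aff 1250000 1707496 36604))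
 (.aff 1250000 1707654 36600))) (.aff 1000000 0 0)) (.sx 50000 (.aff 1250000 1700121 36763) (.aff 1000000 0
 0))), .pol, (.pol), (.pol), .pol⟩, .one ⟨2008000, 251, 361440, -239354, 113411, 0, 0, 100000, 400000, 450000⟩
 ⟨0, .pol, .pol, .pol, .pol, (.sy 425000 (.sy 412500 (.sx 50000 (.sx 25000 (.aff 1375000 1934388 72698) (.aff
 1000000 0 0)) (.aff 1000000 0 0)) (.sx 50000 (.sx 25000 (.sx 12500 (.aff 1500000 3341657 74814) (.aff 1350000
 1811906 67609)) (.aff 1000000 0 0)) (.aff 1000000 0 0))) (.sy 437500 (.sx 50000 (.sx 25000 (.sx 12500 (.aff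
 1500000 3391165 73721) (.aff 1450000 1964816 103064)) (.aff 1000000 0 0)) (.aff 1000000 0 0)) (.sx 50000 (.sx
 25000 (.aff 1500000 2106538 118679) (.aff 1000000 0 0)) (.aff 1000000 0 0)))), .pol, (.pol), (.pol), .pol⟩,
 .one ⟨2008000, 251, 361440, -289956, 136182, 0, 0, 100000, 450000, 500000⟩ ⟨0, .pol, .pol, .pol, .pol, (.sy
 475000 (.sy 462500 (.sx 50000 (.aff 1469000 2003569 109785) (.aff 1000000 0 0)) (.sy 468750 (.sx 50000 (.sx
 25000 (.aff 1500000 2491653 100335) (.aff 1500000 1930026 129532)) (.aff 1000000 0 0)) (.sx 50000 (.sx 25000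
 (.aff 1500000 2172269 115088) (.aff 1500000 1942936 128672)) (.aff 1000000 0 0)))) (.sy 487500 (.sy 481250
 (.sx 50000 (.sx 25000 (.aff 1500000 2186607 114333) (.aff 1500000 1955761 127828)) (.aff 1000000 0 0)) (.sx
 50000 (.sx 25000 (.aff 1500000 2200853 113593) (.aff 1500000 1968502 127001)) (.aff 1000000 0 0))) (.sx 50000
 (.sx 25000 (.aff 1500000 2222049 112509) (.aff 1500000 1987461 125789)) (.aff 1000000 0 0)))), .pol, (.pol),
 (.pol), .pol⟩, .one ⟨2008000, 251, 361440, -344573, 163491, 0, 0, 100000, 500000, 550000⟩ ⟨0, .pol, .pol,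
 .pol, .pol, (.sx 50000 (.aff 1750000 2430278 231456) (.sy 525000 (.aff 1725000 2182528 240834) (.aff 1750000
 2199432 255748))), .pol, (.pol), (.pol), .pol⟩, .one ⟨2008000, 251, 361440, -401600, 194856, 0, 0, 100000,
 550000, 600000⟩ ⟨0, .pol, .pol, .pol, .pol, (.sy 575000 (.sx 50000 (.aff 2000000 3872984 258199) (.sx 75000
 (.aff 1900000 2464752 328634) (.aff 1700000 1841822 266041))) (.sx 50000 (.aff 2000000 3958115 252646) (.sy
 587500 (.sx 75000 (.aff 2000000 2907671 343918) (.sx 87500 (.aff 1900000 2319637 349193) (.aff 1500000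
 1244990 200805))) (.aff 1950000 2474694 364692)))), .pol, (.pol), (.pol), .pol⟩, .one ⟨2008000, 251, 361440,
 -467864, 234614, 0, 0, 100000, 600000, 650000⟩ ⟨0, .pol, .pol, .pol, .pol, (.aff 2050000 2742643 401985),
 .pol, (.pol), (.pol), .pol⟩, .one ⟨2008000, 251, 361440, -10658063, 6858243, 0, 0, 100000, 650000, 700000⟩
 ⟨0, .pol, .pol, .pol, .pol, (.aff 3000000 6000001 666667), .pol, (.aff 35000000 88334592 13086606), (.inf
 2939388 340207), .pol⟩, .one ⟨2008000, 251, 361440, 0, -602400, 0, 0, 100000, 700000, 750000⟩ ⟨0, .pol, .pol,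
 .pol, .pol, (.aff 1500000 1903944 131307), .pol, (.aff 35000000 91547802 12627283), (.inf 3807887 262613),
 .pol⟩, .one ⟨2008000, 251, 361440, 0, -602400, 0, 0, 100000, 750000, 800000⟩ ⟨0, .pol, .pol, .pol, .pol,
 (.aff 1000000 0 0), .pol, (.aff 35000000 133858134 8636009), (.inf 3937004 254001), .pol⟩, .one ⟨2008000,
 251, 361440, 0, -602400, 0, 0, 100000, 800000, 850000⟩ ⟨0, .pol, .pol, .pol, .pol, (.aff 1000000 0 0), .pol,
 (.aff 20000000 63015872 5728716), (.inf 4062020 246183), .pol⟩, .one ⟨2008000, 251, 361440, 0, -602400, 0, 0,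
 100000, 850000, 900000⟩ ⟨0, .pol, .pol, .pol, .pol, (.aff 1000000 0 0), .pol, (.aff 20000000 79482703
 4541869), (.inf 4183301 239046), .pol⟩, .one ⟨2008000, 251, 361440, 0, -602400, 0, 0, 100000, 900000, 950000⟩
 ⟨0, .pol, .pol, .pol, .pol, (.aff 1000000 0 0), .pol, (.aff 12000000 38630731 3132222), (.inf 4301163
 232496), .pol⟩, .one ⟨2008000, 251, 361440, 0, -602400, 0, 0, 100000, 950000, 1000000⟩ ⟨0, .pol, .pol, .pol,
 .pol, (.aff 1000000 0 0), .pol, (.aff 12000000 48574685 2491010), (.inf 4415881 226456), .pol⟩], []⟩, ⟨[.one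
 ⟨2008000, 251, 502000, 403608, 0, 0, 0, 100000, 0, 50000⟩ ⟨50000, (.aff 1414214 707107), (.pol), (.pol),
 (.pol), (.pol), (.aff 0 1414214 707107), (.pol), (.pol), (.pol)⟩, .one ⟨2008000, 251, 502000, 251401, 7610,
 0, 0, 100000, 50000, 100000⟩ ⟨0, .pol, .pol, .pol, .pol, (.sy 75000 (.sy 62500 (.aff 50000 787435 1146127)
 (.sx 50000 (.aff 0 1658313 603023) (.sy 68750 (.sx 75000 (.aff 0 1024696 975900) (.aff 138000 721201
 1030287)) (.sx 75000 (.aff 125000 938333 815942) (.sx 87500 (.aff 125000 822973 930317) (.aff 175000 728609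
 934144)))))) (.sx 50000 (.aff 0 1527526 654654) (.sx 75000 (.aff 125000 1035314 739510) (.aff 178000 762606
 886020)))), .pol, (.pol), (.sx 50000 (.pol) (.pol)), .pol⟩, .one ⟨2008000, 251, 502000, 109235, 21826, 0, 0,
 100000, 100000, 150000⟩ ⟨0, .pol, .pol, .pol, .pol, (.sy 125000 (.sx 50000 (.aff 250000 1299039 433013) (.aff
 375000 838526 465848)) (.sy 137500 (.sx 50000 (.aff 338000 1178087 371997) (.aff 1000000 0 0)) (.sx 50000
 (.aff 375000 1223682 319222) (.aff 1000000 0 0)))), .pol, (.pol), (.pol), .pol⟩, .one ⟨2008000, 251, 502000,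
 44979, 31465, 0, 0, 100000, 150000, 200000⟩ ⟨0, .pol, .pol, .pol, .pol, (.sy 175000 (.sy 162500 (.sx 50000
 (.sx 25000 (.aff 250000 1875000 300000) (.aff 450000 1229838 245968)) (.aff 1000000 0 0)) (.sx 50000 (.sx
 25000 (.aff 500000 1426845 175212) (.aff 550000 1155684 175221)) (.aff 1000000 0 0))) (.sx 50000 (.sx 25000
 (.aff 513000 1428753 165998) (.aff 1000000 0 0)) (.aff 1000000 0 0))), .pol, (.pol), (.pol), .pol⟩, .one
 ⟨2008000, 251, 502000, -29317, 46324, 0, 0, 100000, 200000, 250000⟩ ⟨0, .pol, .pol, .pol, .pol, (.sy 225000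
 (.sy 212500 (.sx 50000 (.aff 619000 1490668 97380) (.aff 1000000 0 0)) (.sy 218750 (.sx 50000 (.aff 669000
 1538441 71216) (.aff 1000000 0 0)) (.sy 221875 (.sx 50000 (.aff 675000 1555784 67892) (.aff 1000000 0 0))
 (.sx 50000 (.sy 223437 (.aff 725000 1616423 46786) (.aff 725000 1611979 46915)) (.aff 1000000 0 0))))) (.sx
 50000 (.aff 725000 1618072 46738) (.aff 1000000 0 0))), .pol, (.pol), (.pol), .pol⟩, .one ⟨2008000, 251,
 502000, -87951, 60982, 0, 0, 100000, 250000, 300000⟩ ⟨0, .pol, .pol, .pol, .pol, (.sx 50000 (.sx 25000 (.aff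
 900000 1476257 6774) (.aff 1000000 0 0)) (.aff 1000000 0 0)), .pol, (.pol), (.pol), .pol⟩, .one ⟨2008000,
 251, 502000, -154616, 80982, 0, 0, 100000, 300000, 350000⟩ ⟨0, .pol, .pol, .pol, .pol, (.sx 50000 (.sx 25000
 (.sx 12500 (.aff 1100000 1604861 6232) (.aff 1000000 0 0)) (.aff 1000000 0 0)) (.aff 1000000 0 0)), .pol,
 (.pol), (.pol), .pol⟩, .one ⟨2008000, 251, 502000, -213250, 101504, 0, 0, 100000, 350000, 400000⟩ ⟨0, .pol,
 .pol, .pol, .pol, (.sy 375000 (.sx 50000 (.sx 25000 (.aff 1275000 2201717 34349) (.aff 1000000 0 0)) (.aff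
 1000000 0 0)) (.sx 50000 (.aff 1300000 2254709 39917) (.aff 1000000 0 0))), .pol, (.pol), (.pol), .pol⟩, .one
 ⟨2008000, 251, 502000, -275900, 126564, 0, 0, 100000, 400000, 450000⟩ ⟨0, .pol, .pol, .pol, .pol, (.sx 50000
 (.sx 25000 (.sy 425000 (.aff 1538000 2587325 111870) (.aff 1550000 2656753 113861)) (.aff 1000000 0 0)) (.aff
 1000000 0 0)), .pol, (.pol), (.pol), .pol⟩, .one ⟨2008000, 251, 502000, -339754, 155298, 0, 0, 100000,
 450000, 500000⟩ ⟨0, .pol, .pol, .pol, .pol, (.sy 475000 (.sy 462500 (.sx 50000 (.aff 1619000 2644370 144897)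
 (.aff 1000000 0 0)) (.sy 468750 (.sx 50000 (.sx 25000 (.aff 2000000 4983306 200670) (.aff 1700000 2702037
 181345)) (.aff 1000000 0 0)) (.sx 50000 (.sx 25000 (.aff 2000000 5016639 199337) (.aff 1700000 2720111
 180140)) (.aff 1000000 0 0)))) (.sx 50000 (.sx 25000 (.aff 2000000 5099020 196117) (.sx 37500 (.aff 1800000
 2884442 221881) (.aff 1600000 2078461 173206))) (.aff 1000000 0 0))), .pol, (.pol), (.pol), .pol⟩, .one
 ⟨2008000, 251, 502000, -407223, 189033, 0, 0, 100000, 500000, 550000⟩ ⟨0, .pol, .pol, .pol, .pol, (.sy 525000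
 (.sx 50000 (.aff 2000000 3201563 312348) (.aff 1950000 2859864 315575)) (.sx 50000 (.aff 2000000 3278720
 304998) (.sx 75000 (.sx 62500 (.aff 2000000 3091207 323499) (.aff 1500000 1398051 178821)) (.aff 1000000 0
 0)))), .pol, (.pol), (.pol), .pol⟩, .one ⟨2008000, 251, 502000, -477101, 227466, 0, 0, 100000, 550000,
 600000⟩ ⟨0, .pol, .pol, .pol, .pol, (.sy 575000 (.sy 562500 (.sx 50000 (.aff 2000000 3335417 299813) (.aff
 1988000 2947488 331179)) (.sy 568750 (.sx 50000 (.aff 2000000 3363407 297318) (.sx 75000 (.sx 62500 (.aff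
 2000000 3086474 323995) (.aff 2000000 2935822 340621)) (.aff 1500000 1271248 196658))) (.sx 50000 (.aff
 2000000 3381938 295689) (.sx 75000 (.aff 2600000 4418145 579429) (.aff 2000000 2653010 376931))))) (.sx 50000
 (.aff 2000000 3427828 291730) (.sx 75000 (.aff 3000000 5846522 684168) (.aff 2100000 2957910 409073)))),
 .pol, (.pol), (.pol), .pol⟩, .one ⟨2008000, 251, 502000, -558626, 276381, 0, 0, 100000, 600000, 650000⟩ ⟨0,
 .pol, .pol, .pol, .pol, (.aff 2500000 3750000 600000), .pol, (.aff 3000000 5773503 692821), (.pol), .pol⟩,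
 .one ⟨2008000, 251, 502000, -10313490, 6617042, 0, 0, 100000, 650000, 700000⟩ ⟨0, .pol, .pol, .pol, .pol,
 (.aff 3000000 6000001 666667), .pol, (.aff 35000000 102000001 11333334), (.inf 2939388 340207), .pol⟩, .one
 ⟨2008000, 251, 502000, 0, -602400, 0, 0, 100000, 700000, 750000⟩ ⟨0, .pol, .pol, .pol, .pol, (.aff 1500000
 1903944 131307), .pol, (.aff 35000000 91547802 12627283), (.inf 3807887 262613), .pol⟩, .one ⟨2008000, 251,
 502000, 0, -602400, 0, 0, 100000, 750000, 800000⟩ ⟨0, .pol, .pol, .pol, .pol, (.aff 1000000 0 0), .pol, (.aff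
 35000000 133858134 8636009), (.inf 3937004 254001), .pol⟩, .one ⟨2008000, 251, 502000, 0, -602400, 0, 0,
 100000, 800000, 850000⟩ ⟨0, .pol, .pol, .pol, .pol, (.aff 1000000 0 0), .pol, (.aff 20000000 63015872
 5728716), (.inf 4062020 246183), .pol⟩, .one ⟨2008000, 251, 502000, 0, -602400, 0, 0, 100000, 850000, 900000⟩
 ⟨0, .pol, .pol, .pol, .pol, (.aff 1000000 0 0), .pol, (.aff 20000000 79482703 4541869), (.inf 4183301
 239046), .pol⟩, .one ⟨2008000, 251, 502000, 0, -602400, 0, 0, 100000, 900000, 950000⟩ ⟨0, .pol, .pol, .pol,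
 .pol, (.aff 1000000 0 0), .pol, (.aff 12000000 38630731 3132222), (.inf 4301163 232496), .pol⟩, .one
 ⟨2008000, 251, 502000, 0, -602400, 0, 0, 100000, 950000, 1000000⟩ ⟨0, .pol, .pol, .pol, .pol, (.aff 1000000 0
 0), .pol, (.aff 12000000 48574685 2491010), (.inf 4415881 226456), .pol⟩], []⟩, ⟨[.one ⟨2008000, 251, 803200,
 173089, 0, 0, 0, 100000, 0, 50000⟩ ⟨12500, (.aff 2000000 500000), (.pol), (.pol), (.pol), (.aff 0 1897948
 526885), (.aff 0 2292675 436172), (.pol), (.pol), (.pol)⟩, .one ⟨2008000, 251, 803200, 210036, -1848, 0, 0,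
 100000, 50000, 100000⟩ ⟨0, .pol, .pol, .pol, .pol, (.sy 75000 (.sx 50000 (.sy 62500 (.sy 56250 (.sy 53125
 (.sx 25000 (.sx 12500 (.aff 0 2287305 437196) (.aff 0 1816591 550482)) (.aff 0 1172604 852803)) (.sx 25000
 (.aff 0 2254557 443547) (.aff 0 1207615 828079))) (.aff 0 2206864 453132)) (.aff 0 2175752 459612)) (.aff 0
 912871 1095446)) (.sy 87500 (.sx 50000 (.aff 0 2174563 459863) (.aff 0 1040833 960769)) (.sx 50000 (.sx 25000
 (.aff 0 2236068 447214) (.aff 0 2115532 472695)) (.aff 0 1118034 894428)))), .pol, (.pol), (.sx 50000 (.pol)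
 (.pol)), .pol⟩, .one ⟨2008000, 251, 803200, 239755, -4820, 0, 0, 100000, 100000, 150000⟩ ⟨0, .pol, .pol,
 .pol, .pol, (.sy 125000 (.sx 50000 (.sx 25000 (.aff 0 2216390 451185) (.aff 0 2096915 476892)) (.aff 0
 1224745 816497)) (.sy 137500 (.sy 131250 (.sy 128125 (.sx 50000 (.sx 25000 (.aff 0 2250000 444445) (.aff
 50000 2112908 427137)) (.aff 0 1299039 769800)) (.sx 50000 (.sx 25000 (.aff 0 2277609 439057) (.aff 125000
 1782511 429521)) (.aff 0 1314978 760469))) (.sx 50000 (.aff 50000 2202485 409765) (.aff 0 1338532 747088)))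
 (.sx 50000 (.aff 75000 2218073 385752) (.aff 0 1516576 659381)))), .pol, (.pol), (.pol), .pol⟩, .one
 ⟨2008000, 251, 803200, 107628, 14999, 0, 0, 100000, 150000, 200000⟩ ⟨0, .pol, .pol, .pol, .pol, (.sy 175000
 (.sy 162500 (.sy 156250 (.sy 153125 (.aff 113000 2183985 360245) (.sy 154687 (.sx 50000 (.aff 100000 2233060
 362731) (.aff 1000000 0 0)) (.sx 50000 (.aff 112000 2242296 351669) (.aff 1000000 0 0)))) (.sy 159375 (.sx
 50000 (.aff 137000 2279430 326735) (.aff 1000000 0 0)) (.sy 160937 (.sy 160156 (.sx 50000 (.sx 25000 (.aff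
 250000 2681315 209786) (.aff 500000 1032039 242239)) (.aff 1000000 0 0)) (.sy 160546 (.sx 50000 (.sx 25000
 (.aff 250000 2686224 209402) (.aff 500000 1033928 241797)) (.aff 1000000 0 0)) (.sy 160741 (.sx 50000 (.sx
 25000 (.aff 250000 2688673 209212) (.aff 1000000 0 0)) (.aff 1000000 0 0)) (.sy 160839 (.sy 160790 (.sx 50000
 (.sx 25000 (.aff 250000 2689693 209132) (.aff 1000000 0 0)) (.aff 1000000 0 0)) (.sy 160814 (.sy 160802 (.sx
 50000 (.sx 25000 (.aff 250000 2689948 209112) (.aff 1000000 0 0)) (.aff 1000000 0 0)) (.sy 160808 (.sx 50000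
 (.sx 25000 (.aff 250000 2690024 209106) (.aff 1000000 0 0)) (.aff 1000000 0 0)) (.sy 160811 (.sx 50000 (.sx
 25000 (.aff 250000 2690061 209104) (.aff 1000000 0 0)) (.aff 1000000 0 0)) (.sx 50000 (.sx 25000 (.aff 250000
 2690086 209102) (.aff 1000000 0 0)) (.aff 1000000 0 0))))) (.sy 160826 (.sy 160820 (.sy 160817 (.sy 160815
 (.sx 50000 (.sx 25000 (.aff 250000 2690103 209100) (.aff 1000000 0 0)) (.aff 1000000 0 0)) (.sx 50000 (.sx
 25000 (.aff 250000 2690116 209099) (.aff 1000000 0 0)) (.aff 1000000 0 0))) (.sx 50000 (.sx 25000 (.aff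
 250000 2690137 209098) (.aff 1000000 0 0)) (.aff 1000000 0 0))) (.sx 50000 (.sx 25000 (.aff 250000 2690174
 209095) (.aff 1000000 0 0)) (.aff 1000000 0 0))) (.sx 50000 (.sx 25000 (.aff 250000 2690254 209089) (.aff
 1000000 0 0)) (.aff 1000000 0 0))))) (.sx 50000 (.sx 25000 (.aff 250000 2690718 209053) (.aff 1000000 0 0))
 (.aff 1000000 0 0)))))) (.sy 161718 (.sx 50000 (.sx 25000 (.aff 250000 2694391 208768) (.aff 1000000 0 0))
 (.aff 1000000 0 0)) (.sy 162109 (.sx 50000 (.sx 25000 (.aff 250000 2699280 208389) (.aff 1000000 0 0)) (.aff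
 1000000 0 0)) (.sy 162304 (.sy 162206 (.sx 50000 (.sx 25000 (.aff 250000 2701313 208233) (.aff 1000000 0 0))
 (.aff 1000000 0 0)) (.sy 162255 (.sy 162230 (.sx 50000 (.sx 25000 (.aff 250000 2701817 208194) (.aff 1000000
 0 0)) (.aff 1000000 0 0)) (.sy 162242 (.sx 50000 (.sx 25000 (.aff 250000 2701966 208182) (.aff 1000000 0 0))
 (.aff 1000000 0 0)) (.sy 162248 (.sy 162245 (.sy 162243 (.sx 50000 (.sx 25000 (.aff 250000 2702021 208178)
 (.aff 1000000 0 0)) (.aff 1000000 0 0)) (.sy 162244 (.sx 50000 (.sx 25000 (.aff 250000 2702029 208177) (.aff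
 1000000 0 0)) (.aff 1000000 0 0)) (.sx 50000 (.sx 25000 (.aff 250000 2702037 208177) (.aff 1000000 0 0))
 (.aff 1000000 0 0)))) (.sx 50000 (.sx 25000 (.aff 250000 2702054 208175) (.aff 1000000 0 0)) (.aff 1000000 0
 0))) (.sx 50000 (.sx 25000 (.aff 250000 2702096 208172) (.aff 1000000 0 0)) (.aff 1000000 0 0))))) (.sx 50000
 (.sx 25000 (.aff 250000 2702329 208154) (.aff 1000000 0 0)) (.aff 1000000 0 0)))) (.sx 50000 (.sx 25000 (.aff
 250000 2703348 208076) (.aff 1000000 0 0)) (.aff 1000000 0 0)))))))) (.sx 50000 (.aff 325000 2480109 183712)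
 (.aff 1000000 0 0))) (.sx 50000 (.aff 350000 2455284 172078) (.aff 1000000 0 0))), .pol, (.pol), (.pol),
 .pol⟩, .one ⟨2008000, 251, 803200, 39356, 28654, 0, 0, 100000, 200000, 250000⟩ ⟨0, .pol, .pol, .pol, .pol,
 (.sy 225000 (.sy 212500 (.sx 50000 (.aff 438000 2522945 125189) (.aff 1000000 0 0)) (.sy 218750 (.sy 215625
 (.sx 50000 (.aff 444000 2542843 121572) (.aff 1000000 0 0)) (.sx 50000 (.sx 25000 (.aff 438000 2588977
 121996) (.aff 1000000 0 0)) (.aff 1000000 0 0))) (.sy 221875 (.sx 50000 (.sx 25000 (.aff 488000 2625388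
 99850) (.aff 1000000 0 0)) (.aff 1000000 0 0)) (.sx 50000 (.sx 25000 (.aff 481000 2604977 103403) (.aff
 1000000 0 0)) (.aff 1000000 0 0))))) (.sx 50000 (.aff 547000 2665406 76990) (.aff 1000000 0 0))), .pol,
 (.pol), (.pol), .pol⟩, .one ⟨2008000, 251, 803200, -77509, 57870, 0, 0, 100000, 250000, 300000⟩ ⟨0, .pol,
 .pol, .pol, .pol, (.sx 50000 (.sy 275000 (.aff 775000 2802765 18063) (.sx 25000 (.sx 12500 (.aff 875000
 2184644 7153) (.aff 1000000 0 0)) (.aff 1000000 0 0))) (.aff 1000000 0 0)), .pol, (.pol), (.pol), .pol⟩, .one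
 ⟨2008000, 251, 803200, -165861, 84376, 0, 0, 100000, 300000, 350000⟩ ⟨0, .pol, .pol, .pol, .pol, (.sx 50000
 (.sx 25000 (.sx 12500 (.aff 1150000 2787306 8073) (.aff 1000000 0 0)) (.aff 1000000 0 0)) (.aff 1000000 0
 0)), .pol, (.pol), (.pol), .pol⟩, .one ⟨2008000, 251, 803200, -267064, 119797, 0, 0, 100000, 350000, 400000⟩
 ⟨0, .pol, .pol, .pol, .pol, (.sx 50000 (.sx 25000 (.aff 1457000 3539907 58999) (.aff 1000000 0 0)) (.aff
 1000000 0 0)), .pol, (.pol), (.pol), .pol⟩, .one ⟨2008000, 251, 803200, -350597, 153210, 0, 0, 100000,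
 400000, 450000⟩ ⟨0, .pol, .pol, .pol, .pol, (.sx 50000 (.sx 25000 (.sx 12500 (.aff 1900000 5247857 154349)
 (.aff 1750000 3776980 148929)) (.aff 1000000 0 0)) (.aff 1000000 0 0)), .pol, (.pol), (.pol), .pol⟩, .one
 ⟨2008000, 251, 803200, -450596, 198209, 0, 0, 100000, 450000, 500000⟩ ⟨0, .pol, .pol, .pol, .pol, (.sy 475000
 (.sy 462500 (.sx 50000 (.aff 1938000 4007138 219570) (.aff 1000000 0 0)) (.sx 50000 (.sx 25000 (.aff 2000000
 4330128 230941) (.aff 2050000 4066633 271109)) (.aff 1000000 0 0))) (.sy 487500 (.sx 50000 (.sx 25000 (.aff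
 2000000 4387483 227922) (.aff 2038000 4073407 264507)) (.aff 1000000 0 0)) (.sx 50000 (.sy 493750 (.sx 25000
 (.aff 2000000 4430012 225734) (.sx 37500 (.aff 3000000 7234179 552931) (.aff 2000000 3348774 298617))) (.sx
 25000 (.aff 2000000 4458139 224309) (.sx 37500 (.aff 3000000 7974961 501570) (.aff 2000000 3497252 285939))))
 (.aff 1000000 0 0)))), .pol, (.pol), (.pol), .pol⟩, .one ⟨2008000, 251, 803200, -537341, 241582, 0, 0,
 100000, 500000, 550000⟩ ⟨0, .pol, .pol, .pol, .pol, (.sx 50000 (.aff 2400000 4536519 432050) (.aff 2325000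
 4244094 413664)), .pol, (.pol), (.pol), .pol⟩, .one ⟨2008000, 251, 803200, -643364, 299894, 0, 0, 100000,
 550000, 600000⟩ ⟨0, .pol, .pol, .pol, .pol, (.sx 50000 (.aff 3000000 7831561 510754) (.sx 75000 (.aff 2800000
 4983975 650084) (.aff 2700000 4652932 621114))), .pol, (.pol), (.pol), .pol⟩, .one ⟨2008000, 251, 803200,
 -745370, 361098, 0, 0, 100000, 600000, 650000⟩ ⟨0, .pol, .pol, .pol, .pol, (.aff 3100000 5250000 840000),
 .pol, (.aff 5000000 11547006 1385641), (.pol), .pol⟩, .one ⟨2008000, 251, 803200, -9580168, 6103717, 0, 0,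
 100000, 650000, 700000⟩ ⟨0, .pol, .pol, .pol, .pol, (.aff 3000000 6000001 666667), .pol, (.aff 35000000
 102000001 11333334), (.inf 2939388 340207), .pol⟩, .one ⟨2008000, 251, 803200, 0, -602400, 0, 0, 100000,
 700000, 750000⟩ ⟨0, .pol, .pol, .pol, .pol, (.aff 1500000 1903944 131307), .pol, (.aff 35000000 105710296
 10935548), (.inf 3807887 262613), .pol⟩, .one ⟨2008000, 251, 803200, 0, -602400, 0, 0, 100000, 750000,
 800000⟩ ⟨0, .pol, .pol, .pol, .pol, (.aff 1000000 0 0), .pol, (.aff 20000000 52893762 6825002), (.inf 3937004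
 254001), .pol⟩, .one ⟨2008000, 251, 803200, 0, -602400, 0, 0, 100000, 800000, 850000⟩ ⟨0, .pol, .pol, .pol,
 .pol, (.aff 1000000 0 0), .pol, (.aff 20000000 77178365 4677477), (.inf 4062020 246183), .pol⟩, .one
 ⟨2008000, 251, 803200, 0, -602400, 0, 0, 100000, 850000, 900000⟩ ⟨0, .pol, .pol, .pol, .pol, (.aff 1000000 0
 0), .pol, (.aff 12000000 32538439 3718679), (.inf 4183301 239046), .pol⟩, .one ⟨2008000, 251, 803200, 0,
 -602400, 0, 0, 100000, 900000, 950000⟩ ⟨0, .pol, .pol, .pol, .pol, (.aff 1000000 0 0), .pol, (.aff 12000000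
 47312789 2557449), (.inf 4301163 232496), .pol⟩, .one ⟨2008000, 251, 803200, 0, -602400, 0, 0, 100000,
 950000, 1000000⟩ ⟨0, .pol, .pol, .pol, .pol, (.aff 1000000 0 0), .pol, (.aff 12000000 48574685 2491010),
 (.inf 4415881 226456), .pol⟩], []⟩, ⟨[.one ⟨2008000, 251, 2008000, 104416, 0, 0, 0, 100000, 0, 50000⟩ ⟨25000,
 (.sp 250000 (.aff 6324556 158114) (.pol)), (.pol), (.pol), (.pol), (.pol), (.aff 0 7735962 129267), (.pol),
 (.pol), (.pol)⟩, .one ⟨2008000, 251, 2008000, 133331, -1446, 0, 0, 100000, 50000, 100000⟩ ⟨0, .pol, .pol,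
 .pol, .pol, (.sx 50000 (.aff 0 7497951 133370) (.pol)), .pol, (.pol), (.sx 50000 (.pol) (.pol)), .pol⟩, .one
 ⟨2008000, 251, 2008000, 164254, -4539, 0, 0, 100000, 100000, 150000⟩ ⟨0, .pol, .pol, .pol, .pol, (.sx 50000
 (.sy 125000 (.aff 0 7425072 134679) (.aff 0 7199040 138908)) (.pol)), .pol, (.pol), (.pol), .pol⟩, .one
 ⟨2008000, 251, 2008000, 206824, -10924, 0, 0, 100000, 150000, 200000⟩ ⟨0, .pol, .pol, .pol, .pol, (.aff 0
 7191898 139046), .pol, (.pol), (.pol), .pol⟩, .one ⟨2008000, 251, 2008000, 105620, 9317, 0, 0, 100000,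
 200000, 250000⟩ ⟨0, .pol, .pol, .pol, .pol, (.sx 50000 (.sx 25000 (.sx 12500 (.sx 6250 (.sy 225000 (.aff
 300000 7386489 66338) (.aff 375000 7705518 50695)) (.aff 500000 2449490 102063)) (.aff 1000000 0 0)) (.aff 0
 2449490 408249)) (.aff 0 1732051 577351)), .pol, (.pol), (.pol), .pol⟩, .one ⟨2008000, 251, 2008000, -6828,
 37429, 0, 0, 100000, 250000, 300000⟩ ⟨0, .pol, .pol, .pol, .pol, (.sx 50000 (.sx 25000 (.sx 12500 (.aff
 628000 7387631 18732) (.aff 1000000 0 0)) (.aff 1000000 0 0)) (.aff 0 1914855 522233)), .pol, (.pol), (.pol),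
 .pol⟩, .one ⟨2008000, 251, 2008000, -231724, 104897, 0, 0, 100000, 300000, 350000⟩ ⟨0, .pol, .pol, .pol,
 .pol, (.sx 50000 (.sx 25000 (.aff 1350000 7582173 16157) (.aff 1000000 0 0)) (.aff 1000000 0 0)), .pol,
 (.pol), (.pol), .pol⟩, .one ⟨2008000, 251, 2008000, -469069, 187968, 0, 0, 100000, 350000, 400000⟩ ⟨0, .pol,
 .pol, .pol, .pol, (.sy 375000 (.sx 50000 (.sx 25000 (.aff 2150000 8758140 151003) (.aff 1000000 0 0)) (.aff
 1000000 0 0)) (.sy 387500 (.sx 50000 (.sx 25000 (.aff 2094000 8544414 140073) (.aff 1000000 0 0)) (.aff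
 1000000 0 0)) (.sx 50000 (.aff 2275000 8740261 185993) (.aff 1000000 0 0)))), .pol, (.pol), (.pol), .pol⟩,
 .one ⟨2008000, 251, 2008000, -658624, 263790, 0, 0, 100000, 400000, 450000⟩ ⟨0, .pol, .pol, .pol, .pol, (.sx
 50000 (.sy 425000 (.sx 25000 (.sx 12500 (.aff 3000000 11489126 348156) (.aff 2887000 9421644 377935)) (.aff
 1000000 0 0)) (.sx 25000 (.aff 2950000 9419395 403689) (.aff 1000000 0 0))) (.aff 1000000 0 0)), .pol,
 (.pol), (.pol), .pol⟩, .one ⟨2008000, 251, 2008000, -881914, 364271, 0, 0, 100000, 450000, 500000⟩ ⟨0, .pol,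
 .pol, .pol, .pol, (.sy 475000 (.sy 462500 (.aff 3188000 9347141 512173) (.sy 468750 (.sy 465625 (.sx 50000
 (.aff 3255000 9594804 529977) (.aff 1000000 0 0)) (.sx 50000 (.sx 25000 (.aff 5000000 19966639 801337) (.aff
 3500000 9666308 646576)) (.aff 1000000 0 0))) (.sy 471875 (.sx 50000 (.sx 25000 (.aff 5000000 20033306
 798670) (.aff 3500000 9698583 644425)) (.aff 1000000 0 0)) (.sx 50000 (.sx 25000 (.aff 5000000 20099752
 796030) (.aff 3500000 9730751 642294)) (.aff 1000000 0 0))))) (.sy 487500 (.sy 481250 (.sy 478125 (.sx 50000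
 (.sx 25000 (.aff 5000000 20165978 793416) (.aff 3500000 9762813 640185)) (.aff 1000000 0 0)) (.sx 50000 (.sx
 25000 (.aff 5000000 20231988 790827) (.aff 3450000 9598874 625334)) (.aff 1000000 0 0))) (.sy 484375 (.sx
 50000 (.sx 25000 (.aff 5000000 20297784 788264) (.aff 3438000 9582922 620254)) (.aff 1000000 0 0)) (.sx 50000
 (.sx 25000 (.aff 5000000 20363366 785725) (.sx 37500 (.aff 4100000 11159283 861167) (.aff 1000000 0 0)))
 (.aff 1000000 0 0)))) (.sy 493750 (.sy 490625 (.sx 50000 (.sx 25000 (.aff 5000000 25019993 639489) (.sx 37500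
 (.aff 5000000 14445300 1107627) (.aff 3000000 6939298 576428))) (.aff 1000000 0 0)) (.sx 50000 (.sx 25000
 (.aff 5000000 25099801 637456) (.aff 3473000 9572096 638913)) (.aff 1000000 0 0))) (.sx 50000 (.sx 25000
 (.aff 5000000 25219041 634442) (.sx 37500 (.aff 5000000 15949922 1003140) (.aff 3400000 8393405 686254)))
 (.aff 1000000 0 0))))), .pol, (.pol), (.pol), .pol⟩, .one ⟨2008000, 251, 2008000, -1071871, 459249, 0, 0,
 100000, 500000, 550000⟩ ⟨0, .pol, .pol, .pol, .pol, (.sx 50000 (.sy 525000 (.aff 4300000 10565155 1030747)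
 (.aff 5000000 13114878 1219989)) (.sx 75000 (.sx 62500 (.sy 525000 (.aff 4200000 9939109 1030274) (.sx 56250
 (.aff 4500000 10819222 1132245) (.aff 4400000 9970758 1159391))) (.aff 3000000 5656855 707107)) (.aff 1000000
 0 0))), .pol, (.pol), (.pol), .pol⟩, .one ⟨2008000, 251, 2008000, -1297570, 583384, 0, 0, 100000, 550000,
 600000⟩ ⟨0, .pol, .pol, .pol, .pol, (.sx 50000 (.aff 5000000 15663121 1021508) (.sx 75000 (.sy 575000 (.aff
 4950000 11298532 1380932) (.aff 5000000 11195238 1429180)) (.sy 575000 (.aff 5100000 11060909 1519767) (.aff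
 5100000 11024937 1524726)))), .pol, (.aff 5000000 13564660 1179536), (.pol), .pol⟩, .one ⟨2008000, 251,
 2008000, -1511221, 711574, 0, 0, 100000, 600000, 650000⟩ ⟨0, .pol, .pol, .pol, .pol, (.sy 625000 (.aff
 5652000 11732088 1844609) (.aff 8000000 17674134 2772414)), .pol, (.aff 12000000 31754265 3810512), (.sx
 50000 (.inf 5000000 200000) (.pol)), .pol⟩, .one ⟨2008000, 251, 2008000, -6633629, 4041140, 0, 0, 100000,
 650000, 700000⟩ ⟨0, .pol, .pol, .pol, .pol, (.aff 3000000 6000001 666667), .pol, (.aff 35000000 102000001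
 11333334), (.inf 2939388 340207), .pol⟩, .one ⟨2008000, 251, 2008000, 0, -602400, 0, 0, 100000, 700000,
 750000⟩ ⟨0, .pol, .pol, .pol, .pol, (.aff 1500000 1903944 131307), .pol, (.aff 35000000 105710296 10935548),
 (.inf 3807887 262613), .pol⟩, .one ⟨2008000, 251, 2008000, 0, -602400, 0, 0, 100000, 750000, 800000⟩ ⟨0,
 .pol, .pol, .pol, .pol, (.aff 1000000 0 0), .pol, (.aff 20000000 61076455 5910625), (.inf 3937004 254001),
 .pol⟩, .one ⟨2008000, 251, 2008000, 0, -602400, 0, 0, 100000, 800000, 850000⟩ ⟨0, .pol, .pol, .pol, .pol,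
 (.aff 1000000 0 0), .pol, (.aff 20000000 77178365 4677477), (.inf 4062020 246183), .pol⟩, .one ⟨2008000, 251,
 2008000, 0, -602400, 0, 0, 100000, 850000, 900000⟩ ⟨0, .pol, .pol, .pol, .pol, (.aff 1000000 0 0), .pol,
 (.aff 12000000 37572153 3220471), (.inf 4183301 239046), .pol⟩, .one ⟨2008000, 251, 2008000, 0, -602400, 0,
 0, 100000, 900000, 950000⟩ ⟨0, .pol, .pol, .pol, .pol, (.aff 1000000 0 0), .pol, (.aff 12000000 47312789
 2557449), (.inf 4301163 232496), .pol⟩, .one ⟨2008000, 251, 2008000, 0, -602400, 0, 0, 100000, 950000,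
 1000000⟩ ⟨0, .pol, .pol, .pol, .pol, (.aff 1000000 0 0), .pol, (.aff 8000000 25238859 1941451), (.inf 4415881
 226456), .pol⟩], []⟩] = true := by decide +kernel

theorem II_xL140_20 : PropII xL140_20 := propII_of cL140_20

end CB
end Pool.Agent.Lib.MP_6947cd_al
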