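import Pool.Agent.Lib.MP_6947cd_al.L.PairA
import Pool.Agent.Lib.MP_6947cd_al.L.BoxLib
import Pool.Agent.Lib.MP_6947cd_al.PS.L150_60_0
import Pool.Agent.Lib.MP_6947cd_al.PS.L150_60_1
import Pool.Agent.Lib.MP_6947cd_al.PS.L160_20_0
import Pool.Agent.Lib.MP_6947cd_al.PS.L160_20_1
import Pool.Agent.Lib.MP_6947cd_al.PS.L160_40_0
import Pool.Agent.Lib.MP_6947cd_al.PS.L160_40_1

/-!
Problem MP_6947cd_al (Chollet).  Library of pair functions: certificates (generated).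
-/

set_option autoImplicit false
set_option linter.defProp false
set_option maxRecDepth 100000

namespace Pool.Agent.Lib.MP_6947cd_al
namespace CB

open CA

theorem lL150_60_0 : chkPl ⟨(nat_lit 3), (nat_lit 1000), Int.ofNat (nat_lit 250), 0, ⟨0, 1⟩, ⟨Int.ofNat
 (nat_lit 60), 200⟩⟩ ⟨750000, 800000, 880226, 866140, 894542, 473607, 500736, 447950, 500000, 447213⟩ true 0
 0 [(nat_lit 50), (nat_lit 100), (nat_lit 150), (nat_lit 200), (nat_lit 250), (nat_lit 300), (nat_lit 350),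
 (nat_lit 400), (nat_lit 450), (nat_lit 500), (nat_lit 550), (nat_lit 600), (nat_lit 650), (nat_lit 700),
 (nat_lit 750), (nat_lit 800), (nat_lit 850), (nat_lit 900), (nat_lit 950), (nat_lit 1000)] [(Int.ofNat
 (nat_lit 973)), (Int.ofNat (nat_lit 1883)), (Int.ofNat (nat_lit 2681)), (Int.ofNat (nat_lit 3410)),
 (Int.ofNat (nat_lit 4080)), (Int.ofNat (nat_lit 4704)), (Int.ofNat (nat_lit 5283)), (Int.ofNat (nat_lit
 5833)), (Int.ofNat (nat_lit 6340)), (Int.ofNat (nat_lit 6812)), (Int.ofNat (nat_lit 7259)), (Int.ofNat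
 (nat_lit 7683)), (Int.ofNat (nat_lit 8080)), (Int.ofNat (nat_lit 8459)), (Int.ofNat (nat_lit 8816)),
 (Int.ofNat (nat_lit 9161)), (Int.negSucc (nat_lit 29999)), (Int.negSucc (nat_lit 29999)), (Int.negSucc
 (nat_lit 29999)), (Int.negSucc (nat_lit 29999))] [qL150_60_0_0, qL150_60_0_1, qL150_60_0_2, qL150_60_0_3,
 qL150_60_0_4, qL150_60_0_5, qL150_60_0_6, qL150_60_0_7, qL150_60_0_8, qL150_60_0_9, qL150_60_0_10,
 qL150_60_0_11, qL150_60_0_12, qL150_60_0_13, qL150_60_0_14, qL150_60_0_15, qL150_60_0_16, qL150_60_0_17,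
 qL150_60_0_18, qL150_60_0_19] = true :=
  chkPl_cons rfl hL150_60_0_0 (chkPl_cons rfl hL150_60_0_1 (chkPl_cons rfl hL150_60_0_2 (chkPl_cons rfl
 hL150_60_0_3 (chkPl_cons rfl hL150_60_0_4 (chkPl_cons rfl hL150_60_0_5 (chkPl_cons rfl hL150_60_0_6
 (chkPl_cons rfl hL150_60_0_7 (chkPl_cons rfl hL150_60_0_8 (chkPl_cons rfl hL150_60_0_9 (chkPl_cons rfl
 hL150_60_0_10 (chkPl_cons rfl hL150_60_0_11 (chkPl_cons rfl hL150_60_0_12 (chkPl_cons rfl hL150_60_0_13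
 (chkPl_cons rfl hL150_60_0_14 (chkPl_cons rfl hL150_60_0_15 (chkPl_cons rfl hL150_60_0_16 (chkPl_cons rfl
 hL150_60_0_17 (chkPl_cons rfl hL150_60_0_18 (chkPl_cons rfl hL150_60_0_19 chkPl_nil)))))))))))))))))))

theorem lL150_60_1 : chkPl ⟨(nat_lit 3), (nat_lit 1000), Int.ofNat (nat_lit 400), 0, ⟨0, 1⟩, ⟨Int.ofNat
 (nat_lit 60), 200⟩⟩ ⟨750000, 800000, 880226, 866140, 894542, 473607, 500736, 447950, 500000, 447213⟩ true 0
 0 [(nat_lit 50), (nat_lit 100), (nat_lit 150), (nat_lit 200), (nat_lit 250), (nat_lit 300), (nat_lit 350),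
 (nat_lit 400), (nat_lit 450), (nat_lit 500), (nat_lit 550), (nat_lit 600), (nat_lit 650), (nat_lit 700),
 (nat_lit 750), (nat_lit 800), (nat_lit 850), (nat_lit 900), (nat_lit 950), (nat_lit 1000)] [(Int.ofNat
 (nat_lit 755)), (Int.ofNat (nat_lit 1606)), (Int.ofNat (nat_lit 2523)), (Int.ofNat (nat_lit 3367)),
 (Int.ofNat (nat_lit 4091)), (Int.ofNat (nat_lit 4669)), (Int.ofNat (nat_lit 5112)), (Int.ofNat (nat_lit
 5451)), (Int.ofNat (nat_lit 5678)), (Int.ofNat (nat_lit 5816)), (Int.ofNat (nat_lit 5854)), (Int.ofNat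
 (nat_lit 5806)), (Int.ofNat (nat_lit 5659)), (Int.ofNat (nat_lit 5423)), (Int.ofNat (nat_lit 5077)),
 (Int.ofNat (nat_lit 4624)), (Int.negSucc (nat_lit 29999)), (Int.negSucc (nat_lit 29999)), (Int.negSucc
 (nat_lit 29999)), (Int.negSucc (nat_lit 29999))] [qL150_60_1_0, qL150_60_1_1, qL150_60_1_2, qL150_60_1_3,
 qL150_60_1_4, qL150_60_1_5, qL150_60_1_6, qL150_60_1_7, qL150_60_1_8, qL150_60_1_9, qL150_60_1_10,
 qL150_60_1_11, qL150_60_1_12, qL150_60_1_13, qL150_60_1_14, qL150_60_1_15, qL150_60_1_16, qL150_60_1_17,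
 qL150_60_1_18, qL150_60_1_19] = true :=
  chkPl_cons rfl hL150_60_1_0 (chkPl_cons rfl hL150_60_1_1 (chkPl_cons rfl hL150_60_1_2 (chkPl_cons rfl
 hL150_60_1_3 (chkPl_cons rfl hL150_60_1_4 (chkPl_cons rfl hL150_60_1_5 (chkPl_cons rfl hL150_60_1_6
 (chkPl_cons rfl hL150_60_1_7 (chkPl_cons rfl hL150_60_1_8 (chkPl_cons rfl hL150_60_1_9 (chkPl_cons rfl
 hL150_60_1_10 (chkPl_cons rfl hL150_60_1_11 (chkPl_cons rfl hL150_60_1_12 (chkPl_cons rfl hL150_60_1_13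
 (chkPl_cons rfl hL150_60_1_14 (chkPl_cons rfl hL150_60_1_15 (chkPl_cons rfl hL150_60_1_16 (chkPl_cons rfl
 hL150_60_1_17 (chkPl_cons rfl hL150_60_1_18 (chkPl_cons rfl hL150_60_1_19 chkPl_nil)))))))))))))))))))

theorem lL150_60_2 : chkPl ⟨(nat_lit 3), (nat_lit 1000), Int.ofNat (nat_lit 1000), 0, ⟨0, 1⟩, ⟨Int.ofNat
 (nat_lit 60), 200⟩⟩ ⟨750000, 800000, 880226, 866140, 894542, 473607, 500736, 447950, 500000, 447213⟩ true 0
 0 [(nat_lit 50), (nat_lit 100), (nat_lit 150), (nat_lit 200), (nat_lit 250), (nat_lit 300), (nat_lit 350),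
 (nat_lit 400), (nat_lit 450), (nat_lit 500), (nat_lit 550), (nat_lit 600), (nat_lit 650), (nat_lit 700),
 (nat_lit 750), (nat_lit 800), (nat_lit 850), (nat_lit 900), (nat_lit 950), (nat_lit 1000)] [(Int.ofNat
 (nat_lit 704)), (Int.ofNat (nat_lit 1492)), (Int.ofNat (nat_lit 2365)), (Int.ofNat (nat_lit 3300)),
 (Int.ofNat (nat_lit 4132)), (Int.ofNat (nat_lit 4531)), (Int.ofNat (nat_lit 4426)), (Int.ofNat (nat_lit
 3948)), (Int.ofNat (nat_lit 3055)), (Int.ofNat (nat_lit 1837)), (Int.ofNat (nat_lit 236)), (Int.negSucc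
 (nat_lit 1689)), (Int.negSucc (nat_lit 4026)), (Int.negSucc (nat_lit 6714)), (Int.negSucc (nat_lit 9863)),
 (Int.negSucc (nat_lit 13500)), (Int.negSucc (nat_lit 29999)), (Int.negSucc (nat_lit 29999)), (Int.negSucc
 (nat_lit 29999)), (Int.negSucc (nat_lit 29999))] [qL150_60_2_0, qL150_60_2_1, qL150_60_2_2, qL150_60_2_3,
 qL150_60_2_4, qL150_60_2_5, qL150_60_2_6, qL150_60_2_7, qL150_60_2_8, qL150_60_2_9, qL150_60_2_10,
 qL150_60_2_11, qL150_60_2_12, qL150_60_2_13, qL150_60_2_14, qL150_60_2_15, qL150_60_2_16, qL150_60_2_17,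
 qL150_60_2_18, qL150_60_2_19] = true :=
  chkPl_cons rfl hL150_60_2_0 (chkPl_cons rfl hL150_60_2_1 (chkPl_cons rfl hL150_60_2_2 (chkPl_cons rfl
 hL150_60_2_3 (chkPl_cons rfl hL150_60_2_4 (chkPl_cons rfl hL150_60_2_5 (chkPl_cons rfl hL150_60_2_6
 (chkPl_cons rfl hL150_60_2_7 (chkPl_cons rfl hL150_60_2_8 (chkPl_cons rfl hL150_60_2_9 (chkPl_cons rfl
 hL150_60_2_10 (chkPl_cons rfl hL150_60_2_11 (chkPl_cons rfl hL150_60_2_12 (chkPl_cons rfl hL150_60_2_13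
 (chkPl_cons rfl hL150_60_2_14 (chkPl_cons rfl hL150_60_2_15 (chkPl_cons rfl hL150_60_2_16 (chkPl_cons rfl
 hL150_60_2_17 (chkPl_cons rfl hL150_60_2_18 (chkPl_cons rfl hL150_60_2_19 chkPl_nil)))))))))))))))))))

theorem lL150_60_3 : chkPl ⟨(nat_lit 1), (nat_lit 1000), Int.ofNat (nat_lit 215), 0, ⟨0, 1⟩, ⟨Int.ofNat
 (nat_lit 60), 200⟩⟩ ⟨750000, 800000, 880226, 866140, 894542, 473607, 500736, 447950, 500000, 447213⟩ true 0
 0 [(nat_lit 50), (nat_lit 100), (nat_lit 150), (nat_lit 200), (nat_lit 250), (nat_lit 300), (nat_lit 350),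
 (nat_lit 400), (nat_lit 450), (nat_lit 500), (nat_lit 550), (nat_lit 600), (nat_lit 650), (nat_lit 700),
 (nat_lit 750), (nat_lit 800), (nat_lit 850), (nat_lit 900), (nat_lit 950), (nat_lit 1000)] [(Int.ofNat
 (nat_lit 2207)), (Int.ofNat (nat_lit 1654)), (Int.ofNat (nat_lit 1814)), (Int.ofNat (nat_lit 1782)),
 (Int.ofNat (nat_lit 1618)), (Int.ofNat (nat_lit 1310)), (Int.ofNat (nat_lit 884)), (Int.ofNat (nat_lit
 326)), (Int.negSucc (nat_lit 356)), (Int.negSucc (nat_lit 1186)), (Int.negSucc (nat_lit 2134)),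
 (Int.negSucc (nat_lit 3235)), (Int.negSucc (nat_lit 4067)), (Int.negSucc (nat_lit 3545)), (Int.negSucc
 (nat_lit 3022)), (Int.negSucc (nat_lit 2473)), (Int.negSucc (nat_lit 29999)), (Int.negSucc (nat_lit
 29999)), (Int.negSucc (nat_lit 29999)), (Int.negSucc (nat_lit 29999))] [qL150_60_3_0, qL150_60_3_1,
 qL150_60_3_2, qL150_60_3_3, qL150_60_3_4, qL150_60_3_5, qL150_60_3_6, qL150_60_3_7, qL150_60_3_8,
 qL150_60_3_9, qL150_60_3_10, qL150_60_3_11, qL150_60_3_12, qL150_60_3_13, qL150_60_3_14, qL150_60_3_15,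
 qL150_60_3_16, qL150_60_3_17, qL150_60_3_18, qL150_60_3_19] = true :=
  chkPl_cons rfl hL150_60_3_0 (chkPl_cons rfl hL150_60_3_1 (chkPl_cons rfl hL150_60_3_2 (chkPl_cons rfl
 hL150_60_3_3 (chkPl_cons rfl hL150_60_3_4 (chkPl_cons rfl hL150_60_3_5 (chkPl_cons rfl hL150_60_3_6
 (chkPl_cons rfl hL150_60_3_7 (chkPl_cons rfl hL150_60_3_8 (chkPl_cons rfl hL150_60_3_9 (chkPl_cons rfl
 hL150_60_3_10 (chkPl_cons rfl hL150_60_3_11 (chkPl_cons rfl hL150_60_3_12 (chkPl_cons rfl hL150_60_3_13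
 (chkPl_cons rfl hL150_60_3_14 (chkPl_cons rfl hL150_60_3_15 (chkPl_cons rfl hL150_60_3_16 (chkPl_cons rfl
 hL150_60_3_17 (chkPl_cons rfl hL150_60_3_18 (chkPl_cons rfl hL150_60_3_19 chkPl_nil)))))))))))))))))))

theorem lL150_60_4 : chkPl ⟨(nat_lit 1), (nat_lit 1000), Int.ofNat (nat_lit 250), 0, ⟨0, 1⟩, ⟨Int.ofNat
 (nat_lit 60), 200⟩⟩ ⟨750000, 800000, 880226, 866140, 894542, 473607, 500736, 447950, 500000, 447213⟩ true 0
 0 [(nat_lit 50), (nat_lit 100), (nat_lit 150), (nat_lit 200), (nat_lit 250), (nat_lit 300), (nat_lit 350),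
 (nat_lit 400), (nat_lit 450), (nat_lit 500), (nat_lit 550), (nat_lit 600), (nat_lit 650), (nat_lit 700),
 (nat_lit 750), (nat_lit 800), (nat_lit 850), (nat_lit 900), (nat_lit 950), (nat_lit 1000)] [(Int.ofNat
 (nat_lit 992)), (Int.ofNat (nat_lit 1531)), (Int.ofNat (nat_lit 1761)), (Int.ofNat (nat_lit 1777)),
 (Int.ofNat (nat_lit 1615)), (Int.ofNat (nat_lit 1308)), (Int.ofNat (nat_lit 845)), (Int.ofNat (nat_lit
 237)), (Int.negSucc (nat_lit 508)), (Int.negSucc (nat_lit 1419)), (Int.negSucc (nat_lit 2461)),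
 (Int.negSucc (nat_lit 3674)), (Int.negSucc (nat_lit 4632)), (Int.negSucc (nat_lit 4252)), (Int.negSucc
 (nat_lit 3896)), (Int.negSucc (nat_lit 3550)), (Int.negSucc (nat_lit 29999)), (Int.negSucc (nat_lit
 29999)), (Int.negSucc (nat_lit 29999)), (Int.negSucc (nat_lit 29999))] [qL150_60_4_0, qL150_60_4_1,
 qL150_60_4_2, qL150_60_4_3, qL150_60_4_4, qL150_60_4_5, qL150_60_4_6, qL150_60_4_7, qL150_60_4_8,
 qL150_60_4_9, qL150_60_4_10, qL150_60_4_11, qL150_60_4_12, qL150_60_4_13, qL150_60_4_14, qL150_60_4_15,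
 qL150_60_4_16, qL150_60_4_17, qL150_60_4_18, qL150_60_4_19] = true :=
  chkPl_cons rfl hL150_60_4_0 (chkPl_cons rfl hL150_60_4_1 (chkPl_cons rfl hL150_60_4_2 (chkPl_cons rfl
 hL150_60_4_3 (chkPl_cons rfl hL150_60_4_4 (chkPl_cons rfl hL150_60_4_5 (chkPl_cons rfl hL150_60_4_6
 (chkPl_cons rfl hL150_60_4_7 (chkPl_cons rfl hL150_60_4_8 (chkPl_cons rfl hL150_60_4_9 (chkPl_cons rfl
 hL150_60_4_10 (chkPl_cons rfl hL150_60_4_11 (chkPl_cons rfl hL150_60_4_12 (chkPl_cons rfl hL150_60_4_13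
 (chkPl_cons rfl hL150_60_4_14 (chkPl_cons rfl hL150_60_4_15 (chkPl_cons rfl hL150_60_4_16 (chkPl_cons rfl
 hL150_60_4_17 (chkPl_cons rfl hL150_60_4_18 (chkPl_cons rfl hL150_60_4_19 chkPl_nil)))))))))))))))))))

theorem lL150_60_5 : chkPl ⟨(nat_lit 1), (nat_lit 1000), Int.ofNat (nat_lit 400), 0, ⟨0, 1⟩, ⟨Int.ofNat
 (nat_lit 60), 200⟩⟩ ⟨750000, 800000, 880226, 866140, 894542, 473607, 500736, 447950, 500000, 447213⟩ true 0
 0 [(nat_lit 50), (nat_lit 100), (nat_lit 150), (nat_lit 200), (nat_lit 250), (nat_lit 300), (nat_lit 350),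
 (nat_lit 400), (nat_lit 450), (nat_lit 500), (nat_lit 550), (nat_lit 600), (nat_lit 650), (nat_lit 700),
 (nat_lit 750), (nat_lit 800), (nat_lit 850), (nat_lit 900), (nat_lit 950), (nat_lit 1000)] [(Int.ofNat
 (nat_lit 487)), (Int.ofNat (nat_lit 1090)), (Int.ofNat (nat_lit 1556)), (Int.ofNat (nat_lit 1729)),
 (Int.ofNat (nat_lit 1635)), (Int.ofNat (nat_lit 1264)), (Int.ofNat (nat_lit 676)), (Int.negSucc (nat_lit
 146)), (Int.negSucc (nat_lit 1167)), (Int.negSucc (nat_lit 2417)), (Int.negSucc (nat_lit 3864)),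
 (Int.negSucc (nat_lit 5553)), (Int.negSucc (nat_lit 7057)), (Int.negSucc (nat_lit 7282)), (Int.negSucc
 (nat_lit 7639)), (Int.negSucc (nat_lit 8081)), (Int.negSucc (nat_lit 29999)), (Int.negSucc (nat_lit
 29999)), (Int.negSucc (nat_lit 29999)), (Int.negSucc (nat_lit 29999))] [qL150_60_5_0, qL150_60_5_1,
 qL150_60_5_2, qL150_60_5_3, qL150_60_5_4, qL150_60_5_5, qL150_60_5_6, qL150_60_5_7, qL150_60_5_8,
 qL150_60_5_9, qL150_60_5_10, qL150_60_5_11, qL150_60_5_12, qL150_60_5_13, qL150_60_5_14, qL150_60_5_15,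
 qL150_60_5_16, qL150_60_5_17, qL150_60_5_18, qL150_60_5_19] = true :=
  chkPl_cons rfl hL150_60_5_0 (chkPl_cons rfl hL150_60_5_1 (chkPl_cons rfl hL150_60_5_2 (chkPl_cons rfl
 hL150_60_5_3 (chkPl_cons rfl hL150_60_5_4 (chkPl_cons rfl hL150_60_5_5 (chkPl_cons rfl hL150_60_5_6
 (chkPl_cons rfl hL150_60_5_7 (chkPl_cons rfl hL150_60_5_8 (chkPl_cons rfl hL150_60_5_9 (chkPl_cons rfl
 hL150_60_5_10 (chkPl_cons rfl hL150_60_5_11 (chkPl_cons rfl hL150_60_5_12 (chkPl_cons rfl hL150_60_5_13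
 (chkPl_cons rfl hL150_60_5_14 (chkPl_cons rfl hL150_60_5_15 (chkPl_cons rfl hL150_60_5_16 (chkPl_cons rfl
 hL150_60_5_17 (chkPl_cons rfl hL150_60_5_18 (chkPl_cons rfl hL150_60_5_19 chkPl_nil)))))))))))))))))))

theorem lL150_60_6 : chkPl ⟨(nat_lit 1), (nat_lit 1000), Int.ofNat (nat_lit 1000), 0, ⟨0, 1⟩, ⟨Int.ofNat
 (nat_lit 60), 200⟩⟩ ⟨750000, 800000, 880226, 866140, 894542, 473607, 500736, 447950, 500000, 447213⟩ true 0
 0 [(nat_lit 50), (nat_lit 100), (nat_lit 150), (nat_lit 200), (nat_lit 250), (nat_lit 300), (nat_lit 350),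
 (nat_lit 400), (nat_lit 450), (nat_lit 500), (nat_lit 550), (nat_lit 600), (nat_lit 650), (nat_lit 700),
 (nat_lit 750), (nat_lit 800), (nat_lit 850), (nat_lit 900), (nat_lit 950), (nat_lit 1000)] [(Int.ofNat
 (nat_lit 318)), (Int.ofNat (nat_lit 714)), (Int.ofNat (nat_lit 1233)), (Int.ofNat (nat_lit 1569)),
 (Int.ofNat (nat_lit 1683)), (Int.ofNat (nat_lit 1119)), (Int.negSucc (nat_lit 4)), (Int.negSucc (nat_lit
 1648)), (Int.negSucc (nat_lit 3772)), (Int.negSucc (nat_lit 6409)), (Int.negSucc (nat_lit 9472)),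
 (Int.negSucc (nat_lit 13065)), (Int.negSucc (nat_lit 16755)), (Int.negSucc (nat_lit 19398)), (Int.negSucc
 (nat_lit 22594)), (Int.negSucc (nat_lit 26184)), (Int.negSucc (nat_lit 29999)), (Int.negSucc (nat_lit
 29999)), (Int.negSucc (nat_lit 29999)), (Int.negSucc (nat_lit 29999))] [qL150_60_6_0, qL150_60_6_1,
 qL150_60_6_2, qL150_60_6_3, qL150_60_6_4, qL150_60_6_5, qL150_60_6_6, qL150_60_6_7, qL150_60_6_8,
 qL150_60_6_9, qL150_60_6_10, qL150_60_6_11, qL150_60_6_12, qL150_60_6_13, qL150_60_6_14, qL150_60_6_15,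
 qL150_60_6_16, qL150_60_6_17, qL150_60_6_18, qL150_60_6_19] = true :=
  chkPl_cons rfl hL150_60_6_0 (chkPl_cons rfl hL150_60_6_1 (chkPl_cons rfl hL150_60_6_2 (chkPl_cons rfl
 hL150_60_6_3 (chkPl_cons rfl hL150_60_6_4 (chkPl_cons rfl hL150_60_6_5 (chkPl_cons rfl hL150_60_6_6
 (chkPl_cons rfl hL150_60_6_7 (chkPl_cons rfl hL150_60_6_8 (chkPl_cons rfl hL150_60_6_9 (chkPl_cons rfl
 hL150_60_6_10 (chkPl_cons rfl hL150_60_6_11 (chkPl_cons rfl hL150_60_6_12 (chkPl_cons rfl hL150_60_6_13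
 (chkPl_cons rfl hL150_60_6_14 (chkPl_cons rfl hL150_60_6_15 (chkPl_cons rfl hL150_60_6_16 (chkPl_cons rfl
 hL150_60_6_17 (chkPl_cons rfl hL150_60_6_18 (chkPl_cons rfl hL150_60_6_19 chkPl_nil)))))))))))))))))))

def cL150_60 : chkII xL150_60 ⟨750000, 800000, 880226, 866140, 894542, 473607, 500736, 447950, 500000,
 447213⟩ [⟨[qL150_60_0_0, qL150_60_0_1, qL150_60_0_2, qL150_60_0_3, qL150_60_0_4, qL150_60_0_5,
 qL150_60_0_6, qL150_60_0_7, qL150_60_0_8, qL150_60_0_9, qL150_60_0_10, qL150_60_0_11, qL150_60_0_12,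
 qL150_60_0_13, qL150_60_0_14, qL150_60_0_15, qL150_60_0_16, qL150_60_0_17, qL150_60_0_18, qL150_60_0_19],
 []⟩, ⟨[qL150_60_1_0, qL150_60_1_1, qL150_60_1_2, qL150_60_1_3, qL150_60_1_4, qL150_60_1_5, qL150_60_1_6,
 qL150_60_1_7, qL150_60_1_8, qL150_60_1_9, qL150_60_1_10, qL150_60_1_11, qL150_60_1_12, qL150_60_1_13,
 qL150_60_1_14, qL150_60_1_15, qL150_60_1_16, qL150_60_1_17, qL150_60_1_18, qL150_60_1_19], []⟩,
 ⟨[qL150_60_2_0, qL150_60_2_1, qL150_60_2_2, qL150_60_2_3, qL150_60_2_4, qL150_60_2_5, qL150_60_2_6,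
 qL150_60_2_7, qL150_60_2_8, qL150_60_2_9, qL150_60_2_10, qL150_60_2_11, qL150_60_2_12, qL150_60_2_13,
 qL150_60_2_14, qL150_60_2_15, qL150_60_2_16, qL150_60_2_17, qL150_60_2_18, qL150_60_2_19], []⟩,
 ⟨[qL150_60_3_0, qL150_60_3_1, qL150_60_3_2, qL150_60_3_3, qL150_60_3_4, qL150_60_3_5, qL150_60_3_6,
 qL150_60_3_7, qL150_60_3_8, qL150_60_3_9, qL150_60_3_10, qL150_60_3_11, qL150_60_3_12, qL150_60_3_13,
 qL150_60_3_14, qL150_60_3_15, qL150_60_3_16, qL150_60_3_17, qL150_60_3_18, qL150_60_3_19], []⟩,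
 ⟨[qL150_60_4_0, qL150_60_4_1, qL150_60_4_2, qL150_60_4_3, qL150_60_4_4, qL150_60_4_5, qL150_60_4_6,
 qL150_60_4_7, qL150_60_4_8, qL150_60_4_9, qL150_60_4_10, qL150_60_4_11, qL150_60_4_12, qL150_60_4_13,
 qL150_60_4_14, qL150_60_4_15, qL150_60_4_16, qL150_60_4_17, qL150_60_4_18, qL150_60_4_19], []⟩,
 ⟨[qL150_60_5_0, qL150_60_5_1, qL150_60_5_2, qL150_60_5_3, qL150_60_5_4, qL150_60_5_5, qL150_60_5_6,
 qL150_60_5_7, qL150_60_5_8, qL150_60_5_9, qL150_60_5_10, qL150_60_5_11, qL150_60_5_12, qL150_60_5_13,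
 qL150_60_5_14, qL150_60_5_15, qL150_60_5_16, qL150_60_5_17, qL150_60_5_18, qL150_60_5_19], []⟩,
 ⟨[qL150_60_6_0, qL150_60_6_1, qL150_60_6_2, qL150_60_6_3, qL150_60_6_4, qL150_60_6_5, qL150_60_6_6,
 qL150_60_6_7, qL150_60_6_8, qL150_60_6_9, qL150_60_6_10, qL150_60_6_11, qL150_60_6_12, qL150_60_6_13,
 qL150_60_6_14, qL150_60_6_15, qL150_60_6_16, qL150_60_6_17, qL150_60_6_18, qL150_60_6_19], []⟩] = true :=
 chkII_mk (by decide +kernel) (chkCls_cons lL150_60_0 rfl (chkCls_cons lL150_60_1 rfl (chkCls_cons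
 lL150_60_2 rfl (chkCls_cons lL150_60_3 rfl (chkCls_cons lL150_60_4 rfl (chkCls_cons lL150_60_5 rfl
 (chkCls_cons lL150_60_6 rfl chkCls_nil)))))))

theorem II_xL150_60 : PropII xL150_60 := propII_of cL150_60

theorem lL160_20_0 : chkPl ⟨(nat_lit 3), (nat_lit 1000), Int.ofNat (nat_lit 250), 0, ⟨0, 1⟩, ⟨Int.ofNat
 (nat_lit 20), 200⟩⟩ ⟨800000, 850000, 908191, 894532, 922059, 417256, 448290, 388374, 447213, 387298⟩ true 0
 0 [(nat_lit 50), (nat_lit 100), (nat_lit 150), (nat_lit 200), (nat_lit 250), (nat_lit 300), (nat_lit 350),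
 (nat_lit 400), (nat_lit 450), (nat_lit 500), (nat_lit 550), (nat_lit 600), (nat_lit 650), (nat_lit 700),
 (nat_lit 750), (nat_lit 800), (nat_lit 850), (nat_lit 900), (nat_lit 950), (nat_lit 1000)] [(Int.ofNat
 (nat_lit 958)), (Int.ofNat (nat_lit 1855)), (Int.ofNat (nat_lit 2573)), (Int.ofNat (nat_lit 3244)),
 (Int.ofNat (nat_lit 3840)), (Int.ofNat (nat_lit 4405)), (Int.ofNat (nat_lit 4928)), (Int.ofNat (nat_lit
 5420)), (Int.ofNat (nat_lit 5896)), (Int.ofNat (nat_lit 6405)), (Int.negSucc (nat_lit 29953)), (Int.negSucc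
 (nat_lit 29999)), (Int.negSucc (nat_lit 29999)), (Int.negSucc (nat_lit 29999)), (Int.negSucc (nat_lit
 29999)), (Int.negSucc (nat_lit 29999)), (Int.negSucc (nat_lit 29999)), (Int.negSucc (nat_lit 29999)),
 (Int.negSucc (nat_lit 29999)), (Int.negSucc (nat_lit 29999))] [qL160_20_0_0, qL160_20_0_1, qL160_20_0_2,
 qL160_20_0_3, qL160_20_0_4, qL160_20_0_5, qL160_20_0_6, qL160_20_0_7, qL160_20_0_8, qL160_20_0_9,
 qL160_20_0_10, qL160_20_0_11, qL160_20_0_12, qL160_20_0_13, qL160_20_0_14, qL160_20_0_15, qL160_20_0_16,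
 qL160_20_0_17, qL160_20_0_18, qL160_20_0_19] = true :=
  chkPl_cons rfl hL160_20_0_0 (chkPl_cons rfl hL160_20_0_1 (chkPl_cons rfl hL160_20_0_2 (chkPl_cons rfl
 hL160_20_0_3 (chkPl_cons rfl hL160_20_0_4 (chkPl_cons rfl hL160_20_0_5 (chkPl_cons rfl hL160_20_0_6
 (chkPl_cons rfl hL160_20_0_7 (chkPl_cons rfl hL160_20_0_8 (chkPl_cons rfl hL160_20_0_9 (chkPl_cons rfl
 hL160_20_0_10 (chkPl_cons rfl hL160_20_0_11 (chkPl_cons rfl hL160_20_0_12 (chkPl_cons rfl hL160_20_0_13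
 (chkPl_cons rfl hL160_20_0_14 (chkPl_cons rfl hL160_20_0_15 (chkPl_cons rfl hL160_20_0_16 (chkPl_cons rfl
 hL160_20_0_17 (chkPl_cons rfl hL160_20_0_18 (chkPl_cons rfl hL160_20_0_19 chkPl_nil)))))))))))))))))))

theorem lL160_20_1 : chkPl ⟨(nat_lit 3), (nat_lit 1000), Int.ofNat (nat_lit 400), 0, ⟨0, 1⟩, ⟨Int.ofNat
 (nat_lit 20), 200⟩⟩ ⟨800000, 850000, 908191, 894532, 922059, 417256, 448290, 388374, 447213, 387298⟩ true 0
 0 [(nat_lit 50), (nat_lit 100), (nat_lit 150), (nat_lit 200), (nat_lit 250), (nat_lit 300), (nat_lit 350),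
 (nat_lit 400), (nat_lit 450), (nat_lit 500), (nat_lit 550), (nat_lit 600), (nat_lit 650), (nat_lit 700),
 (nat_lit 750), (nat_lit 800), (nat_lit 850), (nat_lit 900), (nat_lit 950), (nat_lit 1000)] [(Int.ofNat
 (nat_lit 785)), (Int.ofNat (nat_lit 1658)), (Int.ofNat (nat_lit 2531)), (Int.ofNat (nat_lit 3253)),
 (Int.ofNat (nat_lit 3798)), (Int.ofNat (nat_lit 4206)), (Int.ofNat (nat_lit 4505)), (Int.ofNat (nat_lit
 4706)), (Int.ofNat (nat_lit 4825)), (Int.ofNat (nat_lit 4902)), (Int.negSucc (nat_lit 29962)), (Int.negSucc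
 (nat_lit 29999)), (Int.negSucc (nat_lit 29999)), (Int.negSucc (nat_lit 29999)), (Int.negSucc (nat_lit
 29999)), (Int.negSucc (nat_lit 29999)), (Int.negSucc (nat_lit 29999)), (Int.negSucc (nat_lit 29999)),
 (Int.negSucc (nat_lit 29999)), (Int.negSucc (nat_lit 29999))] [qL160_20_1_0, qL160_20_1_1, qL160_20_1_2,
 qL160_20_1_3, qL160_20_1_4, qL160_20_1_5, qL160_20_1_6, qL160_20_1_7, qL160_20_1_8, qL160_20_1_9,
 qL160_20_1_10, qL160_20_1_11, qL160_20_1_12, qL160_20_1_13, qL160_20_1_14, qL160_20_1_15, qL160_20_1_16,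
 qL160_20_1_17, qL160_20_1_18, qL160_20_1_19] = true :=
  chkPl_cons rfl hL160_20_1_0 (chkPl_cons rfl hL160_20_1_1 (chkPl_cons rfl hL160_20_1_2 (chkPl_cons rfl
 hL160_20_1_3 (chkPl_cons rfl hL160_20_1_4 (chkPl_cons rfl hL160_20_1_5 (chkPl_cons rfl hL160_20_1_6
 (chkPl_cons rfl hL160_20_1_7 (chkPl_cons rfl hL160_20_1_8 (chkPl_cons rfl hL160_20_1_9 (chkPl_cons rfl
 hL160_20_1_10 (chkPl_cons rfl hL160_20_1_11 (chkPl_cons rfl hL160_20_1_12 (chkPl_cons rfl hL160_20_1_13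
 (chkPl_cons rfl hL160_20_1_14 (chkPl_cons rfl hL160_20_1_15 (chkPl_cons rfl hL160_20_1_16 (chkPl_cons rfl
 hL160_20_1_17 (chkPl_cons rfl hL160_20_1_18 (chkPl_cons rfl hL160_20_1_19 chkPl_nil)))))))))))))))))))

theorem lL160_20_2 : chkPl ⟨(nat_lit 3), (nat_lit 1000), Int.ofNat (nat_lit 1000), 0, ⟨0, 1⟩, ⟨Int.ofNat
 (nat_lit 20), 200⟩⟩ ⟨800000, 850000, 908191, 894532, 922059, 417256, 448290, 388374, 447213, 387298⟩ true 0
 0 [(nat_lit 50), (nat_lit 100), (nat_lit 150), (nat_lit 200), (nat_lit 250), (nat_lit 300), (nat_lit 350),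
 (nat_lit 400), (nat_lit 450), (nat_lit 500), (nat_lit 550), (nat_lit 600), (nat_lit 650), (nat_lit 700),
 (nat_lit 750), (nat_lit 800), (nat_lit 850), (nat_lit 900), (nat_lit 950), (nat_lit 1000)] [(Int.ofNat
 (nat_lit 734)), (Int.ofNat (nat_lit 1554)), (Int.ofNat (nat_lit 2446)), (Int.ofNat (nat_lit 3294)),
 (Int.ofNat (nat_lit 3651)), (Int.ofNat (nat_lit 3434)), (Int.ofNat (nat_lit 2850)), (Int.ofNat (nat_lit
 1840)), (Int.ofNat (nat_lit 549)), (Int.negSucc (nat_lit 1107)), (Int.negSucc (nat_lit 29990)),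
 (Int.negSucc (nat_lit 29999)), (Int.negSucc (nat_lit 29999)), (Int.negSucc (nat_lit 29999)), (Int.negSucc
 (nat_lit 29999)), (Int.negSucc (nat_lit 29999)), (Int.negSucc (nat_lit 29999)), (Int.negSucc (nat_lit
 29999)), (Int.negSucc (nat_lit 29999)), (Int.negSucc (nat_lit 29999))] [qL160_20_2_0, qL160_20_2_1,
 qL160_20_2_2, qL160_20_2_3, qL160_20_2_4, qL160_20_2_5, qL160_20_2_6, qL160_20_2_7, qL160_20_2_8,
 qL160_20_2_9, qL160_20_2_10, qL160_20_2_11, qL160_20_2_12, qL160_20_2_13, qL160_20_2_14, qL160_20_2_15,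
 qL160_20_2_16, qL160_20_2_17, qL160_20_2_18, qL160_20_2_19] = true :=
  chkPl_cons rfl hL160_20_2_0 (chkPl_cons rfl hL160_20_2_1 (chkPl_cons rfl hL160_20_2_2 (chkPl_cons rfl
 hL160_20_2_3 (chkPl_cons rfl hL160_20_2_4 (chkPl_cons rfl hL160_20_2_5 (chkPl_cons rfl hL160_20_2_6
 (chkPl_cons rfl hL160_20_2_7 (chkPl_cons rfl hL160_20_2_8 (chkPl_cons rfl hL160_20_2_9 (chkPl_cons rfl
 hL160_20_2_10 (chkPl_cons rfl hL160_20_2_11 (chkPl_cons rfl hL160_20_2_12 (chkPl_cons rfl hL160_20_2_13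
 (chkPl_cons rfl hL160_20_2_14 (chkPl_cons rfl hL160_20_2_15 (chkPl_cons rfl hL160_20_2_16 (chkPl_cons rfl
 hL160_20_2_17 (chkPl_cons rfl hL160_20_2_18 (chkPl_cons rfl hL160_20_2_19 chkPl_nil)))))))))))))))))))

theorem lL160_20_3 : chkPl ⟨(nat_lit 1), (nat_lit 1000), Int.ofNat (nat_lit 175), 0, ⟨0, 1⟩, ⟨Int.ofNat
 (nat_lit 20), 200⟩⟩ ⟨800000, 850000, 908191, 894532, 922059, 417256, 448290, 388374, 447213, 387298⟩ true 0
 0 [(nat_lit 50), (nat_lit 100), (nat_lit 150), (nat_lit 200), (nat_lit 250), (nat_lit 300), (nat_lit 350),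
 (nat_lit 400), (nat_lit 450), (nat_lit 500), (nat_lit 550), (nat_lit 600), (nat_lit 650), (nat_lit 700),
 (nat_lit 750), (nat_lit 800), (nat_lit 850), (nat_lit 900), (nat_lit 950), (nat_lit 1000)] [(Int.ofNat
 (nat_lit 8585)), (Int.ofNat (nat_lit 1535)), (Int.ofNat (nat_lit 1546)), (Int.ofNat (nat_lit 1418)),
 (Int.ofNat (nat_lit 1183)), (Int.ofNat (nat_lit 833)), (Int.ofNat (nat_lit 412)), (Int.negSucc (nat_lit
 134)), (Int.negSucc (nat_lit 787)), (Int.negSucc (nat_lit 1509)), (Int.negSucc (nat_lit 29977)),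
 (Int.negSucc (nat_lit 29999)), (Int.negSucc (nat_lit 29999)), (Int.negSucc (nat_lit 29999)), (Int.negSucc
 (nat_lit 29999)), (Int.negSucc (nat_lit 29999)), (Int.negSucc (nat_lit 29999)), (Int.negSucc (nat_lit
 29999)), (Int.negSucc (nat_lit 29999)), (Int.negSucc (nat_lit 29999))] [qL160_20_3_0, qL160_20_3_1,
 qL160_20_3_2, qL160_20_3_3, qL160_20_3_4, qL160_20_3_5, qL160_20_3_6, qL160_20_3_7, qL160_20_3_8,
 qL160_20_3_9, qL160_20_3_10, qL160_20_3_11, qL160_20_3_12, qL160_20_3_13, qL160_20_3_14, qL160_20_3_15,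
 qL160_20_3_16, qL160_20_3_17, qL160_20_3_18, qL160_20_3_19] = true :=
  chkPl_cons rfl hL160_20_3_0 (chkPl_cons rfl hL160_20_3_1 (chkPl_cons rfl hL160_20_3_2 (chkPl_cons rfl
 hL160_20_3_3 (chkPl_cons rfl hL160_20_3_4 (chkPl_cons rfl hL160_20_3_5 (chkPl_cons rfl hL160_20_3_6
 (chkPl_cons rfl hL160_20_3_7 (chkPl_cons rfl hL160_20_3_8 (chkPl_cons rfl hL160_20_3_9 (chkPl_cons rfl
 hL160_20_3_10 (chkPl_cons rfl hL160_20_3_11 (chkPl_cons rfl hL160_20_3_12 (chkPl_cons rfl hL160_20_3_13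
 (chkPl_cons rfl hL160_20_3_14 (chkPl_cons rfl hL160_20_3_15 (chkPl_cons rfl hL160_20_3_16 (chkPl_cons rfl
 hL160_20_3_17 (chkPl_cons rfl hL160_20_3_18 (chkPl_cons rfl hL160_20_3_19 chkPl_nil)))))))))))))))))))

theorem lL160_20_4 : chkPl ⟨(nat_lit 1), (nat_lit 1000), Int.ofNat (nat_lit 250), 0, ⟨0, 1⟩, ⟨Int.ofNat
 (nat_lit 20), 200⟩⟩ ⟨800000, 850000, 908191, 894532, 922059, 417256, 448290, 388374, 447213, 387298⟩ true 0
 0 [(nat_lit 50), (nat_lit 100), (nat_lit 150), (nat_lit 200), (nat_lit 250), (nat_lit 300), (nat_lit 350),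
 (nat_lit 400), (nat_lit 450), (nat_lit 500), (nat_lit 550), (nat_lit 600), (nat_lit 650), (nat_lit 700),
 (nat_lit 750), (nat_lit 800), (nat_lit 850), (nat_lit 900), (nat_lit 950), (nat_lit 1000)] [(Int.ofNat
 (nat_lit 931)), (Int.ofNat (nat_lit 1439)), (Int.ofNat (nat_lit 1516)), (Int.ofNat (nat_lit 1432)),
 (Int.ofNat (nat_lit 1156)), (Int.ofNat (nat_lit 762)), (Int.ofNat (nat_lit 201)), (Int.negSucc (nat_lit
 507)), (Int.negSucc (nat_lit 1325)), (Int.negSucc (nat_lit 2248)), (Int.negSucc (nat_lit 29971)),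
 (Int.negSucc (nat_lit 29999)), (Int.negSucc (nat_lit 29999)), (Int.negSucc (nat_lit 29999)), (Int.negSucc
 (nat_lit 29999)), (Int.negSucc (nat_lit 29999)), (Int.negSucc (nat_lit 29999)), (Int.negSucc (nat_lit
 29999)), (Int.negSucc (nat_lit 29999)), (Int.negSucc (nat_lit 29999))] [qL160_20_4_0, qL160_20_4_1,
 qL160_20_4_2, qL160_20_4_3, qL160_20_4_4, qL160_20_4_5, qL160_20_4_6, qL160_20_4_7, qL160_20_4_8,
 qL160_20_4_9, qL160_20_4_10, qL160_20_4_11, qL160_20_4_12, qL160_20_4_13, qL160_20_4_14, qL160_20_4_15,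
 qL160_20_4_16, qL160_20_4_17, qL160_20_4_18, qL160_20_4_19] = true :=
  chkPl_cons rfl hL160_20_4_0 (chkPl_cons rfl hL160_20_4_1 (chkPl_cons rfl hL160_20_4_2 (chkPl_cons rfl
 hL160_20_4_3 (chkPl_cons rfl hL160_20_4_4 (chkPl_cons rfl hL160_20_4_5 (chkPl_cons rfl hL160_20_4_6
 (chkPl_cons rfl hL160_20_4_7 (chkPl_cons rfl hL160_20_4_8 (chkPl_cons rfl hL160_20_4_9 (chkPl_cons rfl
 hL160_20_4_10 (chkPl_cons rfl hL160_20_4_11 (chkPl_cons rfl hL160_20_4_12 (chkPl_cons rfl hL160_20_4_13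
 (chkPl_cons rfl hL160_20_4_14 (chkPl_cons rfl hL160_20_4_15 (chkPl_cons rfl hL160_20_4_16 (chkPl_cons rfl
 hL160_20_4_17 (chkPl_cons rfl hL160_20_4_18 (chkPl_cons rfl hL160_20_4_19 chkPl_nil)))))))))))))))))))

theorem lL160_20_5 : chkPl ⟨(nat_lit 1), (nat_lit 1000), Int.ofNat (nat_lit 400), 0, ⟨0, 1⟩, ⟨Int.ofNat
 (nat_lit 20), 200⟩⟩ ⟨800000, 850000, 908191, 894532, 922059, 417256, 448290, 388374, 447213, 387298⟩ true 0
 0 [(nat_lit 50), (nat_lit 100), (nat_lit 150), (nat_lit 200), (nat_lit 250), (nat_lit 300), (nat_lit 350),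
 (nat_lit 400), (nat_lit 450), (nat_lit 500), (nat_lit 550), (nat_lit 600), (nat_lit 650), (nat_lit 700),
 (nat_lit 750), (nat_lit 800), (nat_lit 850), (nat_lit 900), (nat_lit 950), (nat_lit 1000)] [(Int.ofNat
 (nat_lit 548)), (Int.ofNat (nat_lit 1161)), (Int.ofNat (nat_lit 1464)), (Int.ofNat (nat_lit 1460)),
 (Int.ofNat (nat_lit 1112)), (Int.ofNat (nat_lit 554)), (Int.negSucc (nat_lit 233)), (Int.negSucc (nat_lit
 1209)), (Int.negSucc (nat_lit 2398)), (Int.negSucc (nat_lit 3762)), (Int.negSucc (nat_lit 29992)),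
 (Int.negSucc (nat_lit 29999)), (Int.negSucc (nat_lit 29999)), (Int.negSucc (nat_lit 29999)), (Int.negSucc
 (nat_lit 29999)), (Int.negSucc (nat_lit 29999)), (Int.negSucc (nat_lit 29999)), (Int.negSucc (nat_lit
 29999)), (Int.negSucc (nat_lit 29999)), (Int.negSucc (nat_lit 29999))] [qL160_20_5_0, qL160_20_5_1,
 qL160_20_5_2, qL160_20_5_3, qL160_20_5_4, qL160_20_5_5, qL160_20_5_6, qL160_20_5_7, qL160_20_5_8,
 qL160_20_5_9, qL160_20_5_10, qL160_20_5_11, qL160_20_5_12, qL160_20_5_13, qL160_20_5_14, qL160_20_5_15,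
 qL160_20_5_16, qL160_20_5_17, qL160_20_5_18, qL160_20_5_19] = true :=
  chkPl_cons rfl hL160_20_5_0 (chkPl_cons rfl hL160_20_5_1 (chkPl_cons rfl hL160_20_5_2 (chkPl_cons rfl
 hL160_20_5_3 (chkPl_cons rfl hL160_20_5_4 (chkPl_cons rfl hL160_20_5_5 (chkPl_cons rfl hL160_20_5_6
 (chkPl_cons rfl hL160_20_5_7 (chkPl_cons rfl hL160_20_5_8 (chkPl_cons rfl hL160_20_5_9 (chkPl_cons rfl
 hL160_20_5_10 (chkPl_cons rfl hL160_20_5_11 (chkPl_cons rfl hL160_20_5_12 (chkPl_cons rfl hL160_20_5_13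
 (chkPl_cons rfl hL160_20_5_14 (chkPl_cons rfl hL160_20_5_15 (chkPl_cons rfl hL160_20_5_16 (chkPl_cons rfl
 hL160_20_5_17 (chkPl_cons rfl hL160_20_5_18 (chkPl_cons rfl hL160_20_5_19 chkPl_nil)))))))))))))))))))

theorem lL160_20_6 : chkPl ⟨(nat_lit 1), (nat_lit 1000), Int.ofNat (nat_lit 1000), 0, ⟨0, 1⟩, ⟨Int.ofNat
 (nat_lit 20), 200⟩⟩ ⟨800000, 850000, 908191, 894532, 922059, 417256, 448290, 388374, 447213, 387298⟩ true 0
 0 [(nat_lit 50), (nat_lit 100), (nat_lit 150), (nat_lit 200), (nat_lit 250), (nat_lit 300), (nat_lit 350),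
 (nat_lit 400), (nat_lit 450), (nat_lit 500), (nat_lit 550), (nat_lit 600), (nat_lit 650), (nat_lit 700),
 (nat_lit 750), (nat_lit 800), (nat_lit 850), (nat_lit 900), (nat_lit 950), (nat_lit 1000)] [(Int.ofNat
 (nat_lit 378)), (Int.ofNat (nat_lit 863)), (Int.ofNat (nat_lit 1307)), (Int.ofNat (nat_lit 1483)),
 (Int.ofNat (nat_lit 965)), (Int.negSucc (nat_lit 224)), (Int.negSucc (nat_lit 1883)), (Int.negSucc (nat_lit
 4087)), (Int.negSucc (nat_lit 6673)), (Int.negSucc (nat_lit 9751)), (Int.negSucc (nat_lit 29999)),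
 (Int.negSucc (nat_lit 29999)), (Int.negSucc (nat_lit 29999)), (Int.negSucc (nat_lit 29999)), (Int.negSucc
 (nat_lit 29999)), (Int.negSucc (nat_lit 29999)), (Int.negSucc (nat_lit 29999)), (Int.negSucc (nat_lit
 29999)), (Int.negSucc (nat_lit 29999)), (Int.negSucc (nat_lit 29999))] [qL160_20_6_0, qL160_20_6_1,
 qL160_20_6_2, qL160_20_6_3, qL160_20_6_4, qL160_20_6_5, qL160_20_6_6, qL160_20_6_7, qL160_20_6_8,
 qL160_20_6_9, qL160_20_6_10, qL160_20_6_11, qL160_20_6_12, qL160_20_6_13, qL160_20_6_14, qL160_20_6_15,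
 qL160_20_6_16, qL160_20_6_17, qL160_20_6_18, qL160_20_6_19] = true :=
  chkPl_cons rfl hL160_20_6_0 (chkPl_cons rfl hL160_20_6_1 (chkPl_cons rfl hL160_20_6_2 (chkPl_cons rfl
 hL160_20_6_3 (chkPl_cons rfl hL160_20_6_4 (chkPl_cons rfl hL160_20_6_5 (chkPl_cons rfl hL160_20_6_6
 (chkPl_cons rfl hL160_20_6_7 (chkPl_cons rfl hL160_20_6_8 (chkPl_cons rfl hL160_20_6_9 (chkPl_cons rfl
 hL160_20_6_10 (chkPl_cons rfl hL160_20_6_11 (chkPl_cons rfl hL160_20_6_12 (chkPl_cons rfl hL160_20_6_13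
 (chkPl_cons rfl hL160_20_6_14 (chkPl_cons rfl hL160_20_6_15 (chkPl_cons rfl hL160_20_6_16 (chkPl_cons rfl
 hL160_20_6_17 (chkPl_cons rfl hL160_20_6_18 (chkPl_cons rfl hL160_20_6_19 chkPl_nil)))))))))))))))))))

def cL160_20 : chkII xL160_20 ⟨800000, 850000, 908191, 894532, 922059, 417256, 448290, 388374, 447213,
 387298⟩ [⟨[qL160_20_0_0, qL160_20_0_1, qL160_20_0_2, qL160_20_0_3, qL160_20_0_4, qL160_20_0_5,
 qL160_20_0_6, qL160_20_0_7, qL160_20_0_8, qL160_20_0_9, qL160_20_0_10, qL160_20_0_11, qL160_20_0_12,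
 qL160_20_0_13, qL160_20_0_14, qL160_20_0_15, qL160_20_0_16, qL160_20_0_17, qL160_20_0_18, qL160_20_0_19],
 []⟩, ⟨[qL160_20_1_0, qL160_20_1_1, qL160_20_1_2, qL160_20_1_3, qL160_20_1_4, qL160_20_1_5, qL160_20_1_6,
 qL160_20_1_7, qL160_20_1_8, qL160_20_1_9, qL160_20_1_10, qL160_20_1_11, qL160_20_1_12, qL160_20_1_13,
 qL160_20_1_14, qL160_20_1_15, qL160_20_1_16, qL160_20_1_17, qL160_20_1_18, qL160_20_1_19], []⟩,
 ⟨[qL160_20_2_0, qL160_20_2_1, qL160_20_2_2, qL160_20_2_3, qL160_20_2_4, qL160_20_2_5, qL160_20_2_6,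
 qL160_20_2_7, qL160_20_2_8, qL160_20_2_9, qL160_20_2_10, qL160_20_2_11, qL160_20_2_12, qL160_20_2_13,
 qL160_20_2_14, qL160_20_2_15, qL160_20_2_16, qL160_20_2_17, qL160_20_2_18, qL160_20_2_19], []⟩,
 ⟨[qL160_20_3_0, qL160_20_3_1, qL160_20_3_2, qL160_20_3_3, qL160_20_3_4, qL160_20_3_5, qL160_20_3_6,
 qL160_20_3_7, qL160_20_3_8, qL160_20_3_9, qL160_20_3_10, qL160_20_3_11, qL160_20_3_12, qL160_20_3_13,
 qL160_20_3_14, qL160_20_3_15, qL160_20_3_16, qL160_20_3_17, qL160_20_3_18, qL160_20_3_19], []⟩,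
 ⟨[qL160_20_4_0, qL160_20_4_1, qL160_20_4_2, qL160_20_4_3, qL160_20_4_4, qL160_20_4_5, qL160_20_4_6,
 qL160_20_4_7, qL160_20_4_8, qL160_20_4_9, qL160_20_4_10, qL160_20_4_11, qL160_20_4_12, qL160_20_4_13,
 qL160_20_4_14, qL160_20_4_15, qL160_20_4_16, qL160_20_4_17, qL160_20_4_18, qL160_20_4_19], []⟩,
 ⟨[qL160_20_5_0, qL160_20_5_1, qL160_20_5_2, qL160_20_5_3, qL160_20_5_4, qL160_20_5_5, qL160_20_5_6,
 qL160_20_5_7, qL160_20_5_8, qL160_20_5_9, qL160_20_5_10, qL160_20_5_11, qL160_20_5_12, qL160_20_5_13,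
 qL160_20_5_14, qL160_20_5_15, qL160_20_5_16, qL160_20_5_17, qL160_20_5_18, qL160_20_5_19], []⟩,
 ⟨[qL160_20_6_0, qL160_20_6_1, qL160_20_6_2, qL160_20_6_3, qL160_20_6_4, qL160_20_6_5, qL160_20_6_6,
 qL160_20_6_7, qL160_20_6_8, qL160_20_6_9, qL160_20_6_10, qL160_20_6_11, qL160_20_6_12, qL160_20_6_13,
 qL160_20_6_14, qL160_20_6_15, qL160_20_6_16, qL160_20_6_17, qL160_20_6_18, qL160_20_6_19], []⟩] = true :=
 chkII_mk (by decide +kernel) (chkCls_cons lL160_20_0 rfl (chkCls_cons lL160_20_1 rfl (chkCls_cons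
 lL160_20_2 rfl (chkCls_cons lL160_20_3 rfl (chkCls_cons lL160_20_4 rfl (chkCls_cons lL160_20_5 rfl
 (chkCls_cons lL160_20_6 rfl chkCls_nil)))))))

theorem II_xL160_20 : PropII xL160_20 := propII_of cL160_20

theorem lL160_40_0 : chkPl ⟨(nat_lit 3), (nat_lit 1000), Int.ofNat (nat_lit 250), 0, ⟨0, 1⟩, ⟨Int.ofNat
 (nat_lit 40), 200⟩⟩ ⟨800000, 850000, 908191, 894532, 922059, 417256, 448290, 388374, 447213, 387298⟩ true 0
 0 [(nat_lit 50), (nat_lit 100), (nat_lit 150), (nat_lit 200), (nat_lit 250), (nat_lit 300), (nat_lit 350),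
 (nat_lit 400), (nat_lit 450), (nat_lit 500), (nat_lit 550), (nat_lit 600), (nat_lit 650), (nat_lit 700),
 (nat_lit 750), (nat_lit 800), (nat_lit 850), (nat_lit 900), (nat_lit 950), (nat_lit 1000)] [(Int.ofNat
 (nat_lit 964)), (Int.ofNat (nat_lit 1861)), (Int.ofNat (nat_lit 2578)), (Int.ofNat (nat_lit 3244)),
 (Int.ofNat (nat_lit 3840)), (Int.ofNat (nat_lit 4405)), (Int.ofNat (nat_lit 4928)), (Int.ofNat (nat_lit
 5426)), (Int.ofNat (nat_lit 5902)), (Int.ofNat (nat_lit 6365)), (Int.ofNat (nat_lit 6809)), (Int.ofNat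
 (nat_lit 7254)), (Int.ofNat (nat_lit 7697)), (Int.negSucc (nat_lit 29999)), (Int.negSucc (nat_lit 29999)),
 (Int.negSucc (nat_lit 29999)), (Int.negSucc (nat_lit 29999)), (Int.negSucc (nat_lit 29999)), (Int.negSucc
 (nat_lit 29999)), (Int.negSucc (nat_lit 29999))] [qL160_40_0_0, qL160_40_0_1, qL160_40_0_2, qL160_40_0_3,
 qL160_40_0_4, qL160_40_0_5, qL160_40_0_6, qL160_40_0_7, qL160_40_0_8, qL160_40_0_9, qL160_40_0_10,
 qL160_40_0_11, qL160_40_0_12, qL160_40_0_13, qL160_40_0_14, qL160_40_0_15, qL160_40_0_16, qL160_40_0_17,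
 qL160_40_0_18, qL160_40_0_19] = true :=
  chkPl_cons rfl hL160_40_0_0 (chkPl_cons rfl hL160_40_0_1 (chkPl_cons rfl hL160_40_0_2 (chkPl_cons rfl
 hL160_40_0_3 (chkPl_cons rfl hL160_40_0_4 (chkPl_cons rfl hL160_40_0_5 (chkPl_cons rfl hL160_40_0_6
 (chkPl_cons rfl hL160_40_0_7 (chkPl_cons rfl hL160_40_0_8 (chkPl_cons rfl hL160_40_0_9 (chkPl_cons rfl
 hL160_40_0_10 (chkPl_cons rfl hL160_40_0_11 (chkPl_cons rfl hL160_40_0_12 (chkPl_cons rfl hL160_40_0_13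
 (chkPl_cons rfl hL160_40_0_14 (chkPl_cons rfl hL160_40_0_15 (chkPl_cons rfl hL160_40_0_16 (chkPl_cons rfl
 hL160_40_0_17 (chkPl_cons rfl hL160_40_0_18 (chkPl_cons rfl hL160_40_0_19 chkPl_nil)))))))))))))))))))

theorem lL160_40_1 : chkPl ⟨(nat_lit 3), (nat_lit 1000), Int.ofNat (nat_lit 400), 0, ⟨0, 1⟩, ⟨Int.ofNat
 (nat_lit 40), 200⟩⟩ ⟨800000, 850000, 908191, 894532, 922059, 417256, 448290, 388374, 447213, 387298⟩ true 0
 0 [(nat_lit 50), (nat_lit 100), (nat_lit 150), (nat_lit 200), (nat_lit 250), (nat_lit 300), (nat_lit 350),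
 (nat_lit 400), (nat_lit 450), (nat_lit 500), (nat_lit 550), (nat_lit 600), (nat_lit 650), (nat_lit 700),
 (nat_lit 750), (nat_lit 800), (nat_lit 850), (nat_lit 900), (nat_lit 950), (nat_lit 1000)] [(Int.ofNat
 (nat_lit 785)), (Int.ofNat (nat_lit 1658)), (Int.ofNat (nat_lit 2531)), (Int.ofNat (nat_lit 3253)),
 (Int.ofNat (nat_lit 3798)), (Int.ofNat (nat_lit 4206)), (Int.ofNat (nat_lit 4505)), (Int.ofNat (nat_lit
 4706)), (Int.ofNat (nat_lit 4825)), (Int.ofNat (nat_lit 4865)), (Int.ofNat (nat_lit 4837)), (Int.ofNat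
 (nat_lit 4740)), (Int.ofNat (nat_lit 4580)), (Int.negSucc (nat_lit 29999)), (Int.negSucc (nat_lit 29999)),
 (Int.negSucc (nat_lit 29999)), (Int.negSucc (nat_lit 29999)), (Int.negSucc (nat_lit 29999)), (Int.negSucc
 (nat_lit 29999)), (Int.negSucc (nat_lit 29999))] [qL160_40_1_0, qL160_40_1_1, qL160_40_1_2, qL160_40_1_3,
 qL160_40_1_4, qL160_40_1_5, qL160_40_1_6, qL160_40_1_7, qL160_40_1_8, qL160_40_1_9, qL160_40_1_10,
 qL160_40_1_11, qL160_40_1_12, qL160_40_1_13, qL160_40_1_14, qL160_40_1_15, qL160_40_1_16, qL160_40_1_17,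
 qL160_40_1_18, qL160_40_1_19] = true :=
  chkPl_cons rfl hL160_40_1_0 (chkPl_cons rfl hL160_40_1_1 (chkPl_cons rfl hL160_40_1_2 (chkPl_cons rfl
 hL160_40_1_3 (chkPl_cons rfl hL160_40_1_4 (chkPl_cons rfl hL160_40_1_5 (chkPl_cons rfl hL160_40_1_6
 (chkPl_cons rfl hL160_40_1_7 (chkPl_cons rfl hL160_40_1_8 (chkPl_cons rfl hL160_40_1_9 (chkPl_cons rfl
 hL160_40_1_10 (chkPl_cons rfl hL160_40_1_11 (chkPl_cons rfl hL160_40_1_12 (chkPl_cons rfl hL160_40_1_13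
 (chkPl_cons rfl hL160_40_1_14 (chkPl_cons rfl hL160_40_1_15 (chkPl_cons rfl hL160_40_1_16 (chkPl_cons rfl
 hL160_40_1_17 (chkPl_cons rfl hL160_40_1_18 (chkPl_cons rfl hL160_40_1_19 chkPl_nil)))))))))))))))))))

theorem lL160_40_2 : chkPl ⟨(nat_lit 3), (nat_lit 1000), Int.ofNat (nat_lit 1000), 0, ⟨0, 1⟩, ⟨Int.ofNat
 (nat_lit 40), 200⟩⟩ ⟨800000, 850000, 908191, 894532, 922059, 417256, 448290, 388374, 447213, 387298⟩ true 0
 0 [(nat_lit 50), (nat_lit 100), (nat_lit 150), (nat_lit 200), (nat_lit 250), (nat_lit 300), (nat_lit 350),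
 (nat_lit 400), (nat_lit 450), (nat_lit 500), (nat_lit 550), (nat_lit 600), (nat_lit 650), (nat_lit 700),
 (nat_lit 750), (nat_lit 800), (nat_lit 850), (nat_lit 900), (nat_lit 950), (nat_lit 1000)] [(Int.ofNat
 (nat_lit 734)), (Int.ofNat (nat_lit 1554)), (Int.ofNat (nat_lit 2446)), (Int.ofNat (nat_lit 3299)),
 (Int.ofNat (nat_lit 3646)), (Int.ofNat (nat_lit 3437)), (Int.ofNat (nat_lit 2844)), (Int.ofNat (nat_lit
 1844)), (Int.ofNat (nat_lit 544)), (Int.negSucc (nat_lit 1112)), (Int.negSucc (nat_lit 3043)), (Int.negSucc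
 (nat_lit 5320)), (Int.negSucc (nat_lit 7881)), (Int.negSucc (nat_lit 29999)), (Int.negSucc (nat_lit
 29999)), (Int.negSucc (nat_lit 29999)), (Int.negSucc (nat_lit 29999)), (Int.negSucc (nat_lit 29999)),
 (Int.negSucc (nat_lit 29999)), (Int.negSucc (nat_lit 29999))] [qL160_40_2_0, qL160_40_2_1, qL160_40_2_2,
 qL160_40_2_3, qL160_40_2_4, qL160_40_2_5, qL160_40_2_6, qL160_40_2_7, qL160_40_2_8, qL160_40_2_9,
 qL160_40_2_10, qL160_40_2_11, qL160_40_2_12, qL160_40_2_13, qL160_40_2_14, qL160_40_2_15, qL160_40_2_16,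
 qL160_40_2_17, qL160_40_2_18, qL160_40_2_19] = true :=
  chkPl_cons rfl hL160_40_2_0 (chkPl_cons rfl hL160_40_2_1 (chkPl_cons rfl hL160_40_2_2 (chkPl_cons rfl
 hL160_40_2_3 (chkPl_cons rfl hL160_40_2_4 (chkPl_cons rfl hL160_40_2_5 (chkPl_cons rfl hL160_40_2_6
 (chkPl_cons rfl hL160_40_2_7 (chkPl_cons rfl hL160_40_2_8 (chkPl_cons rfl hL160_40_2_9 (chkPl_cons rfl
 hL160_40_2_10 (chkPl_cons rfl hL160_40_2_11 (chkPl_cons rfl hL160_40_2_12 (chkPl_cons rfl hL160_40_2_13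
 (chkPl_cons rfl hL160_40_2_14 (chkPl_cons rfl hL160_40_2_15 (chkPl_cons rfl hL160_40_2_16 (chkPl_cons rfl
 hL160_40_2_17 (chkPl_cons rfl hL160_40_2_18 (chkPl_cons rfl hL160_40_2_19 chkPl_nil)))))))))))))))))))

theorem lL160_40_3 : chkPl ⟨(nat_lit 1), (nat_lit 1000), Int.ofNat (nat_lit 190), 0, ⟨0, 1⟩, ⟨Int.ofNat
 (nat_lit 40), 200⟩⟩ ⟨800000, 850000, 908191, 894532, 922059, 417256, 448290, 388374, 447213, 387298⟩ true 0
 0 [(nat_lit 50), (nat_lit 100), (nat_lit 150), (nat_lit 200), (nat_lit 250), (nat_lit 300), (nat_lit 350),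
 (nat_lit 400), (nat_lit 450), (nat_lit 500), (nat_lit 550), (nat_lit 600), (nat_lit 650), (nat_lit 700),
 (nat_lit 750), (nat_lit 800), (nat_lit 850), (nat_lit 900), (nat_lit 950), (nat_lit 1000)] [(Int.ofNat
 (nat_lit 9384)), (Int.ofNat (nat_lit 1509)), (Int.ofNat (nat_lit 1541)), (Int.ofNat (nat_lit 1419)),
 (Int.ofNat (nat_lit 1185)), (Int.ofNat (nat_lit 820)), (Int.ofNat (nat_lit 370)), (Int.negSucc (nat_lit
 206)), (Int.negSucc (nat_lit 889)), (Int.negSucc (nat_lit 1677)), (Int.negSucc (nat_lit 2563)),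
 (Int.negSucc (nat_lit 3565)), (Int.negSucc (nat_lit 3988)), (Int.negSucc (nat_lit 29999)), (Int.negSucc
 (nat_lit 29999)), (Int.negSucc (nat_lit 29999)), (Int.negSucc (nat_lit 29999)), (Int.negSucc (nat_lit
 29999)), (Int.negSucc (nat_lit 29999)), (Int.negSucc (nat_lit 29999))] [qL160_40_3_0, qL160_40_3_1,
 qL160_40_3_2, qL160_40_3_3, qL160_40_3_4, qL160_40_3_5, qL160_40_3_6, qL160_40_3_7, qL160_40_3_8,
 qL160_40_3_9, qL160_40_3_10, qL160_40_3_11, qL160_40_3_12, qL160_40_3_13, qL160_40_3_14, qL160_40_3_15,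
 qL160_40_3_16, qL160_40_3_17, qL160_40_3_18, qL160_40_3_19] = true :=
  chkPl_cons rfl hL160_40_3_0 (chkPl_cons rfl hL160_40_3_1 (chkPl_cons rfl hL160_40_3_2 (chkPl_cons rfl
 hL160_40_3_3 (chkPl_cons rfl hL160_40_3_4 (chkPl_cons rfl hL160_40_3_5 (chkPl_cons rfl hL160_40_3_6
 (chkPl_cons rfl hL160_40_3_7 (chkPl_cons rfl hL160_40_3_8 (chkPl_cons rfl hL160_40_3_9 (chkPl_cons rfl
 hL160_40_3_10 (chkPl_cons rfl hL160_40_3_11 (chkPl_cons rfl hL160_40_3_12 (chkPl_cons rfl hL160_40_3_13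
 (chkPl_cons rfl hL160_40_3_14 (chkPl_cons rfl hL160_40_3_15 (chkPl_cons rfl hL160_40_3_16 (chkPl_cons rfl
 hL160_40_3_17 (chkPl_cons rfl hL160_40_3_18 (chkPl_cons rfl hL160_40_3_19 chkPl_nil)))))))))))))))))))

theorem lL160_40_4 : chkPl ⟨(nat_lit 1), (nat_lit 1000), Int.ofNat (nat_lit 250), 0, ⟨0, 1⟩, ⟨Int.ofNat
 (nat_lit 40), 200⟩⟩ ⟨800000, 850000, 908191, 894532, 922059, 417256, 448290, 388374, 447213, 387298⟩ true 0
 0 [(nat_lit 50), (nat_lit 100), (nat_lit 150), (nat_lit 200), (nat_lit 250), (nat_lit 300), (nat_lit 350),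
 (nat_lit 400), (nat_lit 450), (nat_lit 500), (nat_lit 550), (nat_lit 600), (nat_lit 650), (nat_lit 700),
 (nat_lit 750), (nat_lit 800), (nat_lit 850), (nat_lit 900), (nat_lit 950), (nat_lit 1000)] [(Int.ofNat
 (nat_lit 949)), (Int.ofNat (nat_lit 1457)), (Int.ofNat (nat_lit 1507)), (Int.ofNat (nat_lit 1440)),
 (Int.ofNat (nat_lit 1156)), (Int.ofNat (nat_lit 761)), (Int.ofNat (nat_lit 198)), (Int.negSucc (nat_lit
 504)), (Int.negSucc (nat_lit 1323)), (Int.negSucc (nat_lit 2266)), (Int.negSucc (nat_lit 3357)),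
 (Int.negSucc (nat_lit 4566)), (Int.negSucc (nat_lit 5237)), (Int.negSucc (nat_lit 29999)), (Int.negSucc
 (nat_lit 29999)), (Int.negSucc (nat_lit 29999)), (Int.negSucc (nat_lit 29999)), (Int.negSucc (nat_lit
 29999)), (Int.negSucc (nat_lit 29999)), (Int.negSucc (nat_lit 29999))] [qL160_40_4_0, qL160_40_4_1,
 qL160_40_4_2, qL160_40_4_3, qL160_40_4_4, qL160_40_4_5, qL160_40_4_6, qL160_40_4_7, qL160_40_4_8,
 qL160_40_4_9, qL160_40_4_10, qL160_40_4_11, qL160_40_4_12, qL160_40_4_13, qL160_40_4_14, qL160_40_4_15,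
 qL160_40_4_16, qL160_40_4_17, qL160_40_4_18, qL160_40_4_19] = true :=
  chkPl_cons rfl hL160_40_4_0 (chkPl_cons rfl hL160_40_4_1 (chkPl_cons rfl hL160_40_4_2 (chkPl_cons rfl
 hL160_40_4_3 (chkPl_cons rfl hL160_40_4_4 (chkPl_cons rfl hL160_40_4_5 (chkPl_cons rfl hL160_40_4_6
 (chkPl_cons rfl hL160_40_4_7 (chkPl_cons rfl hL160_40_4_8 (chkPl_cons rfl hL160_40_4_9 (chkPl_cons rfl
 hL160_40_4_10 (chkPl_cons rfl hL160_40_4_11 (chkPl_cons rfl hL160_40_4_12 (chkPl_cons rfl hL160_40_4_13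
 (chkPl_cons rfl hL160_40_4_14 (chkPl_cons rfl hL160_40_4_15 (chkPl_cons rfl hL160_40_4_16 (chkPl_cons rfl
 hL160_40_4_17 (chkPl_cons rfl hL160_40_4_18 (chkPl_cons rfl hL160_40_4_19 chkPl_nil)))))))))))))))))))

theorem lL160_40_5 : chkPl ⟨(nat_lit 1), (nat_lit 1000), Int.ofNat (nat_lit 400), 0, ⟨0, 1⟩, ⟨Int.ofNat
 (nat_lit 40), 200⟩⟩ ⟨800000, 850000, 908191, 894532, 922059, 417256, 448290, 388374, 447213, 387298⟩ true 0
 0 [(nat_lit 50), (nat_lit 100), (nat_lit 150), (nat_lit 200), (nat_lit 250), (nat_lit 300), (nat_lit 350),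
 (nat_lit 400), (nat_lit 450), (nat_lit 500), (nat_lit 550), (nat_lit 600), (nat_lit 650), (nat_lit 700),
 (nat_lit 750), (nat_lit 800), (nat_lit 850), (nat_lit 900), (nat_lit 950), (nat_lit 1000)] [(Int.ofNat
 (nat_lit 548)), (Int.ofNat (nat_lit 1161)), (Int.ofNat (nat_lit 1464)), (Int.ofNat (nat_lit 1460)),
 (Int.ofNat (nat_lit 1112)), (Int.ofNat (nat_lit 554)), (Int.negSucc (nat_lit 233)), (Int.negSucc (nat_lit
 1209)), (Int.negSucc (nat_lit 2398)), (Int.negSucc (nat_lit 3764)), (Int.negSucc (nat_lit 5331)),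
 (Int.negSucc (nat_lit 7078)), (Int.negSucc (nat_lit 8359)), (Int.negSucc (nat_lit 29999)), (Int.negSucc
 (nat_lit 29999)), (Int.negSucc (nat_lit 29999)), (Int.negSucc (nat_lit 29999)), (Int.negSucc (nat_lit
 29999)), (Int.negSucc (nat_lit 29999)), (Int.negSucc (nat_lit 29999))] [qL160_40_5_0, qL160_40_5_1,
 qL160_40_5_2, qL160_40_5_3, qL160_40_5_4, qL160_40_5_5, qL160_40_5_6, qL160_40_5_7, qL160_40_5_8,
 qL160_40_5_9, qL160_40_5_10, qL160_40_5_11, qL160_40_5_12, qL160_40_5_13, qL160_40_5_14, qL160_40_5_15,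
 qL160_40_5_16, qL160_40_5_17, qL160_40_5_18, qL160_40_5_19] = true :=
  chkPl_cons rfl hL160_40_5_0 (chkPl_cons rfl hL160_40_5_1 (chkPl_cons rfl hL160_40_5_2 (chkPl_cons rfl
 hL160_40_5_3 (chkPl_cons rfl hL160_40_5_4 (chkPl_cons rfl hL160_40_5_5 (chkPl_cons rfl hL160_40_5_6
 (chkPl_cons rfl hL160_40_5_7 (chkPl_cons rfl hL160_40_5_8 (chkPl_cons rfl hL160_40_5_9 (chkPl_cons rfl
 hL160_40_5_10 (chkPl_cons rfl hL160_40_5_11 (chkPl_cons rfl hL160_40_5_12 (chkPl_cons rfl hL160_40_5_13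
 (chkPl_cons rfl hL160_40_5_14 (chkPl_cons rfl hL160_40_5_15 (chkPl_cons rfl hL160_40_5_16 (chkPl_cons rfl
 hL160_40_5_17 (chkPl_cons rfl hL160_40_5_18 (chkPl_cons rfl hL160_40_5_19 chkPl_nil)))))))))))))))))))

theorem lL160_40_6 : chkPl ⟨(nat_lit 1), (nat_lit 1000), Int.ofNat (nat_lit 1000), 0, ⟨0, 1⟩, ⟨Int.ofNat
 (nat_lit 40), 200⟩⟩ ⟨800000, 850000, 908191, 894532, 922059, 417256, 448290, 388374, 447213, 387298⟩ true 0
 0 [(nat_lit 50), (nat_lit 100), (nat_lit 150), (nat_lit 200), (nat_lit 250), (nat_lit 300), (nat_lit 350),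
 (nat_lit 400), (nat_lit 450), (nat_lit 500), (nat_lit 550), (nat_lit 600), (nat_lit 650), (nat_lit 700),
 (nat_lit 750), (nat_lit 800), (nat_lit 850), (nat_lit 900), (nat_lit 950), (nat_lit 1000)] [(Int.ofNat
 (nat_lit 378)), (Int.ofNat (nat_lit 869)), (Int.ofNat (nat_lit 1300)), (Int.ofNat (nat_lit 1490)),
 (Int.ofNat (nat_lit 958)), (Int.negSucc (nat_lit 219)), (Int.negSucc (nat_lit 1889)), (Int.negSucc (nat_lit
 4083)), (Int.negSucc (nat_lit 6679)), (Int.negSucc (nat_lit 9747)), (Int.negSucc (nat_lit 13207)),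
 (Int.negSucc (nat_lit 17144)), (Int.negSucc (nat_lit 20843)), (Int.negSucc (nat_lit 29999)), (Int.negSucc
 (nat_lit 29999)), (Int.negSucc (nat_lit 29999)), (Int.negSucc (nat_lit 29999)), (Int.negSucc (nat_lit
 29999)), (Int.negSucc (nat_lit 29999)), (Int.negSucc (nat_lit 29999))] [qL160_40_6_0, qL160_40_6_1,
 qL160_40_6_2, qL160_40_6_3, qL160_40_6_4, qL160_40_6_5, qL160_40_6_6, qL160_40_6_7, qL160_40_6_8,
 qL160_40_6_9, qL160_40_6_10, qL160_40_6_11, qL160_40_6_12, qL160_40_6_13, qL160_40_6_14, qL160_40_6_15,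
 qL160_40_6_16, qL160_40_6_17, qL160_40_6_18, qL160_40_6_19] = true :=
  chkPl_cons rfl hL160_40_6_0 (chkPl_cons rfl hL160_40_6_1 (chkPl_cons rfl hL160_40_6_2 (chkPl_cons rfl
 hL160_40_6_3 (chkPl_cons rfl hL160_40_6_4 (chkPl_cons rfl hL160_40_6_5 (chkPl_cons rfl hL160_40_6_6
 (chkPl_cons rfl hL160_40_6_7 (chkPl_cons rfl hL160_40_6_8 (chkPl_cons rfl hL160_40_6_9 (chkPl_cons rfl
 hL160_40_6_10 (chkPl_cons rfl hL160_40_6_11 (chkPl_cons rfl hL160_40_6_12 (chkPl_cons rfl hL160_40_6_13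
 (chkPl_cons rfl hL160_40_6_14 (chkPl_cons rfl hL160_40_6_15 (chkPl_cons rfl hL160_40_6_16 (chkPl_cons rfl
 hL160_40_6_17 (chkPl_cons rfl hL160_40_6_18 (chkPl_cons rfl hL160_40_6_19 chkPl_nil)))))))))))))))))))

def cL160_40 : chkII xL160_40 ⟨800000, 850000, 908191, 894532, 922059, 417256, 448290, 388374, 447213,
 387298⟩ [⟨[qL160_40_0_0, qL160_40_0_1, qL160_40_0_2, qL160_40_0_3, qL160_40_0_4, qL160_40_0_5,
 qL160_40_0_6, qL160_40_0_7, qL160_40_0_8, qL160_40_0_9, qL160_40_0_10, qL160_40_0_11, qL160_40_0_12,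
 qL160_40_0_13, qL160_40_0_14, qL160_40_0_15, qL160_40_0_16, qL160_40_0_17, qL160_40_0_18, qL160_40_0_19],
 []⟩, ⟨[qL160_40_1_0, qL160_40_1_1, qL160_40_1_2, qL160_40_1_3, qL160_40_1_4, qL160_40_1_5, qL160_40_1_6,
 qL160_40_1_7, qL160_40_1_8, qL160_40_1_9, qL160_40_1_10, qL160_40_1_11, qL160_40_1_12, qL160_40_1_13,
 qL160_40_1_14, qL160_40_1_15, qL160_40_1_16, qL160_40_1_17, qL160_40_1_18, qL160_40_1_19], []⟩,
 ⟨[qL160_40_2_0, qL160_40_2_1, qL160_40_2_2, qL160_40_2_3, qL160_40_2_4, qL160_40_2_5, qL160_40_2_6,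
 qL160_40_2_7, qL160_40_2_8, qL160_40_2_9, qL160_40_2_10, qL160_40_2_11, qL160_40_2_12, qL160_40_2_13,
 qL160_40_2_14, qL160_40_2_15, qL160_40_2_16, qL160_40_2_17, qL160_40_2_18, qL160_40_2_19], []⟩,
 ⟨[qL160_40_3_0, qL160_40_3_1, qL160_40_3_2, qL160_40_3_3, qL160_40_3_4, qL160_40_3_5, qL160_40_3_6,
 qL160_40_3_7, qL160_40_3_8, qL160_40_3_9, qL160_40_3_10, qL160_40_3_11, qL160_40_3_12, qL160_40_3_13,
 qL160_40_3_14, qL160_40_3_15, qL160_40_3_16, qL160_40_3_17, qL160_40_3_18, qL160_40_3_19], []⟩,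
 ⟨[qL160_40_4_0, qL160_40_4_1, qL160_40_4_2, qL160_40_4_3, qL160_40_4_4, qL160_40_4_5, qL160_40_4_6,
 qL160_40_4_7, qL160_40_4_8, qL160_40_4_9, qL160_40_4_10, qL160_40_4_11, qL160_40_4_12, qL160_40_4_13,
 qL160_40_4_14, qL160_40_4_15, qL160_40_4_16, qL160_40_4_17, qL160_40_4_18, qL160_40_4_19], []⟩,
 ⟨[qL160_40_5_0, qL160_40_5_1, qL160_40_5_2, qL160_40_5_3, qL160_40_5_4, qL160_40_5_5, qL160_40_5_6,
 qL160_40_5_7, qL160_40_5_8, qL160_40_5_9, qL160_40_5_10, qL160_40_5_11, qL160_40_5_12, qL160_40_5_13,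
 qL160_40_5_14, qL160_40_5_15, qL160_40_5_16, qL160_40_5_17, qL160_40_5_18, qL160_40_5_19], []⟩,
 ⟨[qL160_40_6_0, qL160_40_6_1, qL160_40_6_2, qL160_40_6_3, qL160_40_6_4, qL160_40_6_5, qL160_40_6_6,
 qL160_40_6_7, qL160_40_6_8, qL160_40_6_9, qL160_40_6_10, qL160_40_6_11, qL160_40_6_12, qL160_40_6_13,
 qL160_40_6_14, qL160_40_6_15, qL160_40_6_16, qL160_40_6_17, qL160_40_6_18, qL160_40_6_19], []⟩] = true :=
 chkII_mk (by decide +kernel) (chkCls_cons lL160_40_0 rfl (chkCls_cons lL160_40_1 rfl (chkCls_cons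
 lL160_40_2 rfl (chkCls_cons lL160_40_3 rfl (chkCls_cons lL160_40_4 rfl (chkCls_cons lL160_40_5 rfl
 (chkCls_cons lL160_40_6 rfl chkCls_nil)))))))

theorem II_xL160_40 : PropII xL160_40 := propII_of cL160_40

end CB
end Pool.Agent.Lib.MP_6947cd_al
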