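import Pool.Agent.Lib.MP_6947cd_al.L.PairL1
import Pool.Agent.Lib.MP_6947cd_al.L.PairL2
import Pool.Agent.Lib.MP_6947cd_al.L.PairL3
import Pool.Agent.Lib.MP_6947cd_al.L.PairL4
import Pool.Agent.Lib.MP_6947cd_al.L.PairL5
import Pool.Agent.Lib.MP_6947cd_al.L.PairL6
import Pool.Agent.Lib.MP_6947cd_al.L.PairL7
import Pool.Agent.Lib.MP_6947cd_al.L.PairL8
import Pool.Agent.Lib.MP_6947cd_al.L.PairL9
import Pool.Agent.Lib.MP_6947cd_al.L.PairL10
import Pool.Agent.Lib.MP_6947cd_al.L.PairL11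
import Pool.Agent.Lib.MP_6947cd_al.L.PairL12
import Pool.Agent.Lib.MP_6947cd_al.L.LibUse

/-!
Problem MP_6947cd_al (Chollet).  The library of pair functions, all boxes.
-/
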