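import Pool.Agent.Lib.MP_6947cd_al.L.PairC

/-!
Problem MP_6947cd_al (Chollet).  Composition of the checks of the pair functions from their pieces (to keep
the single kernel computations small).
-/

set_option autoImplicit false

namespace Pool.Agent.Lib.MP_6947cd_al
namespace CA

open Ent Fr
open Fr.PQ (R Bx Nm QCert Pc Ty)

variable {p : Par} {x : Box} {B : Bx}

theorem chkPl_nil {dv : Bool} {k : ℕ} {b : ℤ} : chkPl p B dv k b [] [] [] = true := rfl

theorem chkPl_cons {dv : Bool} {k0 k : ℕ} {b0 b : ℤ} {c : PCt} {ks : List ℕ} {bs : List ℤ}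
    {cs : List PCt} (h0 : Nat.blt k0 k = true) (h1 : pcchk p B dv k0 b0 k b c = true)
    (h2 : chkPl p B false k b ks bs cs = true) :
    chkPl p B dv k0 b0 (k :: ks) (b :: bs) (c :: cs) = true := by
  simp only [chkPl, Bool.and_eq_true]
  exact ⟨h0, h1, h2⟩

theorem chkPlp_nil {dv : Bool} {k : ℕ} {b : ℤ} : chkPlp p B dv k b [] [] [] = true := rfl

theorem chkPlp_cons {dv : Bool} {k0 k : ℕ} {b0 b : ℤ} {c : PCt} {ks : List ℕ} {bs : List ℤ}
    {cs : List PCt} (h0 : Nat.blt k0 k = true) (h1 : pcchkp p B dv k0 b0 k b c = true)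
    (h2 : chkPlp p B false k b ks bs cs = true) :
    chkPlp p B dv k0 b0 (k :: ks) (b :: bs) (c :: cs) = true := by
  simp only [chkPlp, Bool.and_eq_true]
  exact ⟨h0, h1, h2⟩

theorem chkCls_nil : chkCls x B [] [] = true := rfl

theorem chkCls_cons {c : Cl} {C : CCt} {cs : List Cl} {Cs : List CCt}
    (h1 : chkPl (parR x c) B true 0 0 x.k c.b C.rs = true) (h2 : chkSp x B c C.sp = true)
    (h3 : chkCls x B cs Cs = true) : chkCls x B (c :: cs) (C :: Cs) = true := by
  simp only [chkCls, Bool.and_eq_true]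
  exact ⟨h1, h2, h3⟩

theorem chkClsp_nil : chkClsp x B [] [] = true := rfl

theorem chkClsp_cons {c : Cl} {C : CCt} {cs : List Cl} {Cs : List CCt}
    (h1 : chkPlp (parR x c) B true 0 0 x.k c.b C.rs = true)
    (h3 : chkClsp x B cs Cs = true) : chkClsp x B (c :: cs) (C :: Cs) = true := by
  simp only [chkClsp, Bool.and_eq_true]
  exact ⟨h1, h3⟩

/-- the conditions on the box -/
def chkHd (x : Box) (B : Bx) : Bool :=
  B.ok && (Nat.ble B.H0 (5000 * x.H0) && (Nat.ble (5000 * x.H1) B.H1 && (Nat.blt 0 (x.k.length) &&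
    (Nat.blt 1 (x.q.length) || Nat.beq x.q.length 0))))

/-- the conditions on the box, without special vertices -/
def chkHdp (x : Box) (B : Bx) : Bool :=
  B.ok && (Nat.ble B.H0 (5000 * x.H0) && (Nat.ble (5000 * x.H1) B.H1 && (Nat.blt 0 (x.k.length) &&
    Nat.beq x.q.length 0)))

theorem chkII_mk {C : List CCt} (h0 : chkHd x B = true) (h1 : chkCls x B x.cls C = true) :
    chkII x B C = true := by
  simp only [chkHd, Bool.and_eq_true] at h0
  obtain ⟨a1, a2, a3, a4, a5⟩ := h0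
  simp only [chkII, Bool.and_eq_true]
  exact ⟨a1, a2, a3, ⟨a4, a5⟩, h1⟩

theorem chkIIp_mk {C : List CCt} (h0 : chkHdp x B = true) (h1 : chkClsp x B x.cls C = true) :
    chkIIp x B C = true := by
  simp only [chkHdp, Bool.and_eq_true] at h0
  obtain ⟨a1, a2, a3, a4, a5⟩ := h0
  simp only [chkIIp, Bool.and_eq_true]
  exact ⟨a1, a2, a3, ⟨a4, a5⟩, h1⟩

end CA
end Pool.Agent.Lib.MP_6947cd_al
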