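import Pool.Agent.Lib.MP_6947cd_al.L.PropIA
import Pool.Agent.Lib.MP_6947cd_al.L.PropIP
import Pool.Agent.Lib.MP_6947cd_al.L.PropIQ
import Pool.Agent.Lib.MP_6947cd_al.L.PropIT

/-!
Problem MP_6947cd_al (Chollet).  CASE A, part (I): all boxes.
-/

set_option autoImplicit false
open Finset

namespace Pool.Agent.Lib.MP_6947cd_al
namespace Fr
namespace CI

open CA TG

theorem allA : ∀ x ∈ boxA, PropI x := by
  unfold boxA
  simp only [List.forall_mem_cons, List.not_mem_nil, false_imp_iff, implies_true, and_true]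
  exact ⟨iA0, iA1, iA2, iA3, iA4, iA5, iA6, iA7, iA8, iA9, iA10, iA11, iA12, iA13, iA14, iA15, iA16, iA17, iA18,
    iA19, iA20, iA21, iA22, iA23, iA24, iA25, iA26, iA27, iA28, iA29, iA30, iA31, iA32, iA33, iA34, iA35,
    iA36, iA37, iA38, iA39, iA40, iA41, iA42, iA43, iA44, iA45, iA46, iA47, iA48, iA49, iA50, iA51, iA52,
    iA53, iA54, iA55, iA56, iA57, iA58, iA59, iA60, iA61, iA62, iA63, iA64, iA65, iA66, iA67⟩

theorem allP : ∀ x ∈ boxP, PropI x := by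
  unfold boxP
  simp only [List.forall_mem_cons, List.not_mem_nil, false_imp_iff, implies_true, and_true]
  exact ⟨iP0, iP1, iP2, iP3, iP4, iP5, iP6, iP7, iP8, iP9, iP10, iP11, iP12, iP13, iP14, iP15, iP16, iP17, iP18,
    iP19, iP20, iP21, iP22, iP23, iP24, iP25, iP26, iP27, iP28, iP29, iP30⟩

theorem allQ : ∀ x ∈ boxQ, PropI x := by
  unfold boxQ
  simp only [List.forall_mem_cons, List.not_mem_nil, false_imp_iff, implies_true, and_true]
  exact ⟨iQ0, iQ1, iQ2, iQ3, iQ4, iQ5, iQ6, iQ7, iQ8, iQ9, iQ10, iQ11, iQ12, iQ13, iQ14, iQ15, iQ16, iQ17, iQ18,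
    iQ19, iQ20, iQ21, iQ22, iQ23, iQ24, iQ25, iQ26, iQ27, iQ28, iQ29, iQ30, iQ31, iQ32, iQ33, iQ34, iQ35,
    iQ36, iQ37, iQ38, iQ39, iQ40, iQ41, iQ42, iQ43, iQ44, iQ45, iQ46, iQ47, iQ48, iQ49, iQ50, iQ51, iQ52,
    iQ53, iQ54, iQ55, iQ56, iQ57, iQ58, iQ59⟩

theorem allT : ∀ x ∈ boxT, PropI x := by
  unfold boxT
  simp only [List.forall_mem_cons, List.not_mem_nil, false_imp_iff, implies_true, and_true]
  exact ⟨iT0, iT1, iT2, iT3, iT4, iT5, iT6, iT7, iT8, iT9, iT10, iT11, iT12, iT13, iT14, iT15, iT16⟩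

/-- PART (I) OF CASE A. -/
theorem propI_all : ∀ x ∈ boxA ++ boxP ++ boxQ ++ boxT, PropI x := by
  intro x hx
  simp only [List.mem_append] at hx
  rcases hx with ((hx | hx) | hx) | hx
  · exact allA x hx
  · exact allP x hx
  · exact allQ x hx
  · exact allT x hx

end CI
end Fr
end Pool.Agent.Lib.MP_6947cd_al
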