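import Pool.Agent.Lib.MP_6947cd_al.L.RowG3

/-!
Problem MP_6947cd_al (Chollet).  Part (I): lists of cells for rows without and with a second special entry.
-/

set_option autoImplicit false
open Finset

namespace Pool.Agent.Lib.MP_6947cd_al
namespace Fr
namespace RH

open Ent WT RT RI TZ RG G3 IA.F

/-- `(4 - h) / (3 h)` over `10^6`, rounded up -/
def cc (H : ℕ) : ℕ := Nat.add (Nat.div (Nat.mul (Nat.sub 800 H) 1000000) (Nat.mul 3 H)) 1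

/-- `4 / (3 h^2)` over `10^6`, rounded up -/
def dd (H : ℕ) : ℕ := Nat.add (Nat.div 160000000000 (Nat.mul 3 (Nat.mul H H))) 1

/-- the interpolated value, from the packed lists -/
def gV (va vb k H n : ℕ) : ℕ :=
  Nat.add (Nat.mul (Nat.sub (Nat.mul 2 (Nat.succ k)) H) (gt va n)) (Nat.mul (Nat.sub H (Nat.mul 2 k)) (gt vb n))

/-- the check of a list of cells from `Ts` to `Te`; it starts at the table index `Js` -/
noncomputable def core2 (va vb k H0 H1 c0 c1 d0 d1 w2 aM r e0 e1 N Ts Js Te : ℕ) (cs : List Ce) : Bool :=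
  cond (Nat.ble 15 Js)
   (dropK (Nat.sub Js 15) pr fun suf =>
    cellsG N (fun c T0 J n suf =>
      cond (Nat.ble (Nat.mul 4 J) (Nat.add H0 T0))
      (cond (Nat.ble (Nat.add H1 c.2.2.1) (Nat.mul 4 (Nat.add J c.2.2.2.1)))
        (cond (lnOK c.2.2.2.2.2 c.2.2.2.1 c.2.2.2.2.1 suf)
          (fn (gV va vb k H0 n) fun a0 => fn (gV va vb k H0 (Nat.succ n)) fun a0' =>
           fn (gV va vb k H1 n) fun a1 => fn (gV va vb k H1 (Nat.succ n)) fun a1' =>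
            RG.cellOK H0 H1 c0 c1 d0 d1 w2 aM r e0 e1 n a0 a0' a1 a1' c.1 T0 c.2.2.1 J c.2.2.2.2.1 c.2.2.2.2.2)
          false) false) false) Te cs Ts Js suf) false

/-- PART (I), no second special entry. -/
theorem core2_sound (V cnt : ℕ → ℕ) (w k0 k1 k H0 H1 wN aN rN dN N Ts Js Te : ℕ) (cs : List Ce)
    (ht : Tab2 (fun z k => gt (V k) z) cnt w k0 k1) (hw : 0 < w) (hw' : w ≤ 40)
    (p1 : k0 ≤ k) (p2 : k + 1 ≤ k1) (p3 : k1 ≤ 100) (p4 : 2 * k ≤ H0) (p5 : H0 < H1) (p6 : H1 ≤ 2 * (k + 1))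
    (p7 : N + 2 ≤ cnt k) (p8 : N + 2 ≤ cnt (k + 1)) (p10 : 1 ≤ H0)
    (hchk : core2 (V k) (V (k + 1)) k H0 H1 (cc H0) (cc H1) (dd H0) (dd H1) (200 * wN) (aN * 200000000)
      (rN * 40000000000) (20 * dN * dd H0) (20 * dN * dd H1) N Ts Js Te cs = true)
    {κ : Type} [Fintype κ] [DecidableEq κ] (b : κ → ℝ) (hb0 : ∀ c, 0 ≤ b c)
    (i j : κ) (hij : i ≠ j) (hi : b i = 1) (h0 : (H0 : ℝ) / 200 < b j) (h1 : b j ≤ (H1 : ℝ) / 200)
    (hm : ∀ c, c ≠ i → c ≠ j → b c ≤ (w : ℝ) / 40)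
    (hS0 : (Ts : ℝ) / 200 ≤ ∑ c ∈ ({i, j} : Finset κ)ᶜ, b c) (hne : cs ≠ [])
    (hS1 : ∑ c ∈ ({i, j} : Finset κ)ᶜ, b c ≤ (Te : ℝ) / 200) :
    ∃ c ∈ cs, (c.1 = 1 → F b ≤ What (b j + ∑ c ∈ ({i, j} : Finset κ)ᶜ, b c)) ∧
      (c.1 ≠ 1 → 0 < F b - What (b j + ∑ c ∈ ({i, j} : Finset κ)ᶜ, b c) →
        ((F b - What (b j + ∑ c ∈ ({i, j} : Finset κ)ᶜ, b c)) * (4 * b j - b j ^ 2)
          + 4 * (∑ c ∈ ({i, j} : Finset κ)ᶜ, b c) * max (F b - What (b j + ∑ c ∈ ({i, j} : Finset κ)ᶜ, b c))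
            ((dN : ℝ) / 10000000)) / (3 * b j ^ 2)
        + (wN : ℝ) / 1000000 * F b + (aN : ℝ) / 1000000 * (∑ c ∈ ({i, j} : Finset κ)ᶜ, b c)
          ≤ (rN : ℝ) / 1000000) := by
  set S := ∑ c ∈ ({i, j} : Finset κ)ᶜ, b c with hS
  unfold core2 at hchk
  obtain ⟨p9, hchk⟩ := IA.cond_and hchk
  rw [Nat.ble_eq] at p9
  simp only [fn_eq, dropK_eq] at hchk
  obtain ⟨c, hc, T0, J, hJ, r1, r2, r3, r4, r5, r6, r7⟩ := cellsG_get _ _ _ cs Ts Js p9 hchk S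
    hS0 (Or.inl hne) hS1
  refine ⟨c, hc, ?_⟩
  obtain ⟨s1, r7⟩ := IA.cond_and r7
  obtain ⟨s2, r7⟩ := IA.cond_and r7
  obtain ⟨s3, r7⟩ := IA.cond_and r7
  rw [Nat.ble_eq] at s1 s2
  simp only [Nat.add_eq, Nat.mul_eq] at s1 s2
  set n := T0 / 5 with hn
  have hs1R : (4 : ℝ) * J ≤ H0 + T0 := by exact_mod_cast s1
  have hs2R : (H1 : ℝ) + c.2.2.1 ≤ 4 * (J + c.2.2.2.1) := by exact_mod_cast s2
  have hln := line_le J c.2.2.2.1 c.2.2.2.2.1 c.2.2.2.2.2 hJ s3 (b j + S) (by linarith)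
    (by push_cast; linarith)
  have hp4R : (2 : ℝ) * k ≤ H0 := by exact_mod_cast p4
  have hp6R : (H1 : ℝ) ≤ 2 * (k + 1) := by exact_mod_cast p6
  have hr3R : (n : ℝ) * 5 ≤ T0 := by exact_mod_cast r3
  have hr5R : (c.2.2.1 : ℝ) ≤ (n + 1) * 5 := by exact_mod_cast r5
  have hF := F_le_gF (fun z k => gt (V k) z) cnt w k0 k1 ht hw hw' n k p1 p2 p3 (by omega) (by omega) b hb0
    i j hij hi (by linarith) (by linarith) hm (by rw [← hS]; linarith) (by rw [← hS]; linarith)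
  rw [← hS] at hF
  have r7' : RG.cellOK H0 H1
      (Nat.add (Nat.div (Nat.mul (Nat.sub 800 H0) 1000000) (Nat.mul 3 H0)) 1)
      (Nat.add (Nat.div (Nat.mul (Nat.sub 800 H1) 1000000) (Nat.mul 3 H1)) 1)
      (Nat.add (Nat.div 160000000000 (Nat.mul 3 (Nat.mul H0 H0))) 1)
      (Nat.add (Nat.div 160000000000 (Nat.mul 3 (Nat.mul H1 H1))) 1)
      (200 * wN) (aN * 200000000) (rN * 40000000000)
      (20 * dN * (Nat.add (Nat.div 160000000000 (Nat.mul 3 (Nat.mul H0 H0))) 1))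
      (20 * dN * (Nat.add (Nat.div 160000000000 (Nat.mul 3 (Nat.mul H1 H1))) 1)) n
      (RG.gN (fun z k => gt (V k) z) k H0 n) (RG.gN (fun z k => gt (V k) z) k H0 (n + 1))
      (RG.gN (fun z k => gt (V k) z) k H1 n) (RG.gN (fun z k => gt (V k) z) k H1 (n + 1))
      c.1 T0 c.2.2.1 J c.2.2.2.2.1 c.2.2.2.2.2 = true := r7
  exact cell_sound (fun z k => gt (V k) z) k H0 H1 _ _ _ _ wN aN rN dN n c.1 T0 c.2.2.1 J _ _
    (by omega) p4 p6 (by omega) (by omega) r4 r3 r5 s1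
    (div_c H0 (by omega) (by omega)) (div_c H1 (by omega) (by omega)) (div_d H0 (by omega)) (div_d H1 (by omega))
    r7' (b j) S (F b) _ h0.le h1 r1 r2 hF hln

/-- the interpolated value, from the packed lists -/
def gV3 (va vb vc vd k q H G n : ℕ) : ℕ :=
  Nat.add
    (Nat.mul (Nat.sub (Nat.mul 2 (Nat.succ k)) H) (Nat.add (Nat.mul (Nat.sub (Nat.mul 5 (Nat.succ q)) G) (gt va n))
      (Nat.mul (Nat.sub G (Nat.mul 5 q)) (gt vb n))))
    (Nat.mul (Nat.sub H (Nat.mul 2 k)) (Nat.add (Nat.mul (Nat.sub (Nat.mul 5 (Nat.succ q)) G) (gt vc n))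
      (Nat.mul (Nat.sub G (Nat.mul 5 q)) (gt vd n))))

/-- the check of a list of cells with a second special entry -/
noncomputable def core3 (va vb vc vd k q H0 H1 G0 G1 c0 c1 d0 d1 w2 aM g0 g1 rM e0 e1 N Ts Js Te : ℕ)
    (cs : List Ce) : Bool :=
  cond (Nat.ble 15 Js)
   (dropK (Nat.sub Js 15) pr fun suf =>
    cellsG N (fun c T0 J n suf =>
      cond (Nat.ble (Nat.mul 4 J) (Nat.add (Nat.add H0 G0) T0))
      (cond (Nat.ble (Nat.add (Nat.add H1 G1) c.2.2.1) (Nat.mul 4 (Nat.add J c.2.2.2.1)))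
        (cond (lnOK c.2.2.2.2.2 c.2.2.2.1 c.2.2.2.2.1 suf)
          (fn (gV3 va vb vc vd k q H0 G0 n) fun a00 => fn (gV3 va vb vc vd k q H0 G0 (Nat.succ n)) fun a00' =>
           fn (gV3 va vb vc vd k q H0 G1 n) fun a01 => fn (gV3 va vb vc vd k q H0 G1 (Nat.succ n)) fun a01' =>
           fn (gV3 va vb vc vd k q H1 G0 n) fun a10 => fn (gV3 va vb vc vd k q H1 G0 (Nat.succ n)) fun a10' =>
           fn (gV3 va vb vc vd k q H1 G1 n) fun a11 => fn (gV3 va vb vc vd k q H1 G1 (Nat.succ n)) fun a11' =>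
            cell3OK H0 H1 G0 G1 c0 c1 d0 d1 w2 aM g0 g1 rM e0 e1 n a00 a00' a01 a01' a10 a10' a11 a11'
              c.1 T0 c.2.2.1 J c.2.2.2.2.1 c.2.2.2.2.2) false) false) false) Te cs Ts Js suf) false

/-- PART (I) FOR ROWS WITH A SECOND SPECIAL ENTRY. -/
theorem core3_sound (V : ℕ → ℕ → ℕ) (cnt : ℕ → ℕ)
    (w k0 k1 q0 q1 k q H0 H1 G0 G1 wN aN p0 p1 rM dN N Ts Js Te : ℕ) (cs : List Ce)
    (ht : Tab3 (fun z k q => gt (V k q) z) cnt w k0 k1 q0 q1) (hw : 0 < w) (hw' : w ≤ 40)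
    (u1 : k0 ≤ k) (u2 : k + 1 ≤ k1) (u3 : k1 ≤ 100) (u4 : 2 * k ≤ H0) (u5 : H0 < H1) (u6 : H1 ≤ 2 * (k + 1))
    (u7 : N + 2 ≤ cnt k) (u8 : N + 2 ≤ cnt (k + 1)) (u10 : 1 ≤ H0) (u11 : q0 ≤ q) (u12 : q + 1 ≤ q1)
    (u13 : q1 ≤ 40) (u14 : 5 * q ≤ G0) (u15 : G0 < G1) (u16 : G1 ≤ 5 * (q + 1))
    (hchk : core3 (V k q) (V k (q + 1)) (V (k + 1) q) (V (k + 1) (q + 1)) k q H0 H1 G0 G1
      (cc H0) (cc H1) (dd H0) (dd H1) (200 * wN) (aN * 1000000000) (p0 * 1000000000) (p1 * 1000000000) rM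
      (100 * dN * dd H0) (100 * dN * dd H1) N Ts Js Te cs = true)
    {κ : Type} [Fintype κ] [DecidableEq κ] (b : κ → ℝ) (hb0 : ∀ c, 0 ≤ b c)
    (i j l : κ) (hij : i ≠ j) (hil : i ≠ l) (hjl : j ≠ l) (hi : b i = 1)
    (h0 : (H0 : ℝ) / 200 < b j) (h1 : b j ≤ (H1 : ℝ) / 200)
    (g0 : (G0 : ℝ) / 200 ≤ b l) (g1 : b l ≤ (G1 : ℝ) / 200)
    (hm : ∀ c, c ≠ i → c ≠ j → c ≠ l → b c ≤ (w : ℝ) / 40)
    (hS0 : (Ts : ℝ) / 200 ≤ ∑ c ∈ ({i, j, l} : Finset κ)ᶜ, b c) (hne : cs ≠ [])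
    (hS1 : ∑ c ∈ ({i, j, l} : Finset κ)ᶜ, b c ≤ (Te : ℝ) / 200) :
    ∃ c ∈ cs, (c.1 = 1 → F b ≤ What (b j + b l + ∑ c ∈ ({i, j, l} : Finset κ)ᶜ, b c)) ∧
      (c.1 ≠ 1 → 0 < F b - What (b j + b l + ∑ c ∈ ({i, j, l} : Finset κ)ᶜ, b c) →
        ((F b - What (b j + b l + ∑ c ∈ ({i, j, l} : Finset κ)ᶜ, b c)) * (4 * b j - b j ^ 2)
          + 4 * (b l + ∑ c ∈ ({i, j, l} : Finset κ)ᶜ, b c)
            * max (F b - What (b j + b l + ∑ c ∈ ({i, j, l} : Finset κ)ᶜ, b c)) ((dN : ℝ) / 10000000))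
            / (3 * b j ^ 2)
        + (wN : ℝ) / 1000000 * F b + (aN : ℝ) / 1000000 * (∑ c ∈ ({i, j, l} : Finset κ)ᶜ, b c)
        + ((p0 : ℝ) + ((p1 : ℝ) - p0) * ((200 * b l - G0) / (G1 - G0))) / 200000000
          ≤ (rM : ℝ) / 200000000000000000) := by
  set S := ∑ c ∈ ({i, j, l} : Finset κ)ᶜ, b c with hS
  unfold core3 at hchk
  obtain ⟨p9, hchk⟩ := IA.cond_and hchk
  rw [Nat.ble_eq] at p9
  simp only [fn_eq, dropK_eq] at hchk
  obtain ⟨c, hc, T0, J, hJ, r1, r2, r3, r4, r5, r6, r7⟩ := cellsG_get _ _ _ cs Ts Js p9 hchk S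
    hS0 (Or.inl hne) hS1
  refine ⟨c, hc, ?_⟩
  obtain ⟨s1, r7⟩ := IA.cond_and r7
  obtain ⟨s2, r7⟩ := IA.cond_and r7
  obtain ⟨s3, r7⟩ := IA.cond_and r7
  rw [Nat.ble_eq] at s1 s2
  simp only [Nat.add_eq, Nat.mul_eq] at s1 s2
  set n := T0 / 5 with hn
  have hs1R : (4 : ℝ) * J ≤ H0 + G0 + T0 := by exact_mod_cast s1
  have hs2R : (H1 : ℝ) + G1 + c.2.2.1 ≤ 4 * (J + c.2.2.2.1) := by exact_mod_cast s2
  have hln := line_le J c.2.2.2.1 c.2.2.2.2.1 c.2.2.2.2.2 hJ s3 (b j + b l + S) (by linarith)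
    (by push_cast; linarith)
  have hp4R : (2 : ℝ) * k ≤ H0 := by exact_mod_cast u4
  have hp6R : (H1 : ℝ) ≤ 2 * (k + 1) := by exact_mod_cast u6
  have hp14R : (5 : ℝ) * q ≤ G0 := by exact_mod_cast u14
  have hp16R : (G1 : ℝ) ≤ 5 * (q + 1) := by exact_mod_cast u16
  have hr3R : (n : ℝ) * 5 ≤ T0 := by exact_mod_cast r3
  have hr5R : (c.2.2.1 : ℝ) ≤ (n + 1) * 5 := by exact_mod_cast r5
  have hF := F_le_gF3 (fun z k q => gt (V k q) z) cnt w k0 k1 q0 q1 ht hw hw' n k q u1 u2 u3 u11 u12 u13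
    (by omega) (by omega) b hb0 i j l hij hil hjl hi (by linarith) (by linarith) (by linarith) (by linarith) hm
    (by rw [← hS]; linarith) (by rw [← hS]; linarith)
  rw [← hS] at hF
  have r7' : cell3OK H0 H1 G0 G1
      (Nat.add (Nat.div (Nat.mul (Nat.sub 800 H0) 1000000) (Nat.mul 3 H0)) 1)
      (Nat.add (Nat.div (Nat.mul (Nat.sub 800 H1) 1000000) (Nat.mul 3 H1)) 1)
      (Nat.add (Nat.div 160000000000 (Nat.mul 3 (Nat.mul H0 H0))) 1)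
      (Nat.add (Nat.div 160000000000 (Nat.mul 3 (Nat.mul H1 H1))) 1)
      (200 * wN) (aN * 1000000000) (p0 * 1000000000) (p1 * 1000000000) rM
      (100 * dN * (Nat.add (Nat.div 160000000000 (Nat.mul 3 (Nat.mul H0 H0))) 1))
      (100 * dN * (Nat.add (Nat.div 160000000000 (Nat.mul 3 (Nat.mul H1 H1))) 1)) n
      (gN3 (fun z k q => gt (V k q) z) k q H0 G0 n) (gN3 (fun z k q => gt (V k q) z) k q H0 G0 (n + 1))
      (gN3 (fun z k q => gt (V k q) z) k q H0 G1 n) (gN3 (fun z k q => gt (V k q) z) k q H0 G1 (n + 1))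
      (gN3 (fun z k q => gt (V k q) z) k q H1 G0 n) (gN3 (fun z k q => gt (V k q) z) k q H1 G0 (n + 1))
      (gN3 (fun z k q => gt (V k q) z) k q H1 G1 n) (gN3 (fun z k q => gt (V k q) z) k q H1 G1 (n + 1))
      c.1 T0 c.2.2.1 J c.2.2.2.2.1 c.2.2.2.2.2 = true := r7
  exact cell3_sound (fun z k q => gt (V k q) z) k q H0 H1 G0 G1 _ _ _ _ wN aN p0 p1 rM dN n c.1 T0 c.2.2.1 J _ _
    (by omega) u4 u6 (by omega) (by omega) (by omega) u14 u16 r4 r3 r5 s1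
    (div_c H0 (by omega) (by omega)) (div_c H1 (by omega) (by omega)) (div_d H0 (by omega)) (div_d H1 (by omega))
    r7' (b j) (b l) S (F b) _ h0.le h1 g0 g1 r1 r2 hF hln

/-! ### packed cells -/

/-- decode `n` cells: `z` (20 bits), steps (8), right end (10), entries (8), value (24), slope (24) -/
noncomputable def dc (n : ℕ) : ℕ → List Ce :=
  @Nat.rec (fun _ => ℕ → List Ce) (fun _ => [])
    (fun _ ih v => fn (Nat.mod v (nat_lit 1048576)) fun z => fn (Nat.shiftRight v (nat_lit 20)) fun v =>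
      fn (Nat.mod v (nat_lit 256)) fun dj => fn (Nat.shiftRight v (nat_lit 8)) fun v =>
      fn (Nat.mod v (nat_lit 1024)) fun t => fn (Nat.shiftRight v (nat_lit 10)) fun v =>
      fn (Nat.mod v (nat_lit 256)) fun m => fn (Nat.shiftRight v (nat_lit 8)) fun v =>
      fn (Nat.mod v (nat_lit 16777216)) fun p => fn (Nat.shiftRight v (nat_lit 24)) fun v =>
      fn (Nat.mod v (nat_lit 16777216)) fun sl => fn (Nat.shiftRight v (nat_lit 24)) fun v =>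
      (z, dj, t, m, p, sl) :: ih v) n

theorem dc_ne (n v : ℕ) : dc (n + 1) v ≠ [] := by
  have h : dc (n + 1) v = (fn (Nat.mod v 1048576) fun z => fn (Nat.shiftRight v 20) fun v =>
      fn (Nat.mod v 256) fun dj => fn (Nat.shiftRight v 8) fun v =>
      fn (Nat.mod v 1024) fun t => fn (Nat.shiftRight v 10) fun v =>
      fn (Nat.mod v 256) fun m => fn (Nat.shiftRight v 8) fun v =>
      fn (Nat.mod v 16777216) fun p => fn (Nat.shiftRight v 24) fun v =>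
      fn (Nat.mod v 16777216) fun sl => fn (Nat.shiftRight v 24) fun v =>
      ((z, dj, t, m, p, sl) : Ce) :: dc n v) := rfl
  rw [h]
  simp only [fn_eq]
  exact List.cons_ne_nil _ _

end RH
end Fr
end Pool.Agent.Lib.MP_6947cd_al
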