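import Pool.Agent.Lib.MP_6947cd_al.L.ZoneC

/-!
Problem MP_6947cd_al (Chollet).  Rows with one entry `h` in `(3/10, 1]` and all others at most `3/10` (or `1/5`)
are not bad if the sum of these is large: `smB`, `smA` (over `200`) are the thresholds.
-/

set_option autoImplicit false
open Finset

namespace Pool.Agent.Lib.MP_6947cd_al
namespace Fr
namespace ZF

open Ent RT RI IA.F WT ZC

/-- all cells are of the first kind, and there is one -/
noncomputable def ones (cs : List Ce) : Bool :=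
  cond (Nat.ble 1 cs.length) (cs.all fun c => Nat.beq c.1 1) false

theorem ones_get (cs : List Ce) (h : ones cs = true) : cs ≠ [] ∧ ∀ c ∈ cs, c.1 = 1 := by
  obtain ⟨h1, h2⟩ := IA.cond_and h
  rw [Nat.ble_eq] at h1
  rw [List.all_eq_true] at h2
  exact ⟨fun h3 => by rw [h3] at h1; simp at h1, fun c hc => Nat.eq_of_beq_eq_true (h2 c hc)⟩

/-- the check of a list of blocks `(4k, 4k + 4]`, from `k` on -/
noncomputable def zOK (t : ℕ → ℕ → ℕ) (M Te : ℕ) (l : List (ℕ × ℕ × List Ce)) : ℕ → Bool :=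
  @List.rec (ℕ × ℕ × List Ce) (fun _ => ℕ → Bool) (fun _ => true)
    (fun e _ ih k => cond (boxOK t k (Nat.mul 4 k) (Nat.add (Nat.mul 4 k) 4) M 0 0 0 0 e.1 e.2.1 Te e.2.2)
      (cond (ones e.2.2) (fn (Nat.succ k) ih) false) false) l

theorem zOK_get (t : ℕ → ℕ → ℕ) (M Te : ℕ) (l : List (ℕ × ℕ × List Ce)) (k : ℕ) (h : zOK t M Te l k = true)
    (q : ℕ) (hq : q < l.length) :
    boxOK t (k + q) (4 * (k + q)) (4 * (k + q) + 4) M 0 0 0 0 l[q].1 l[q].2.1 Te l[q].2.2 = true ∧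
      ones l[q].2.2 = true := by
  induction l generalizing k q with
  | nil => simp at hq
  | cons e l ih =>
    obtain ⟨h1, h2⟩ := IA.cond_and (show cond (boxOK t k (Nat.mul 4 k) (Nat.add (Nat.mul 4 k) 4) M 0 0 0 0 e.1
      e.2.1 Te e.2.2) (cond (ones e.2.2) (fn (Nat.succ k) (zOK t M Te l)) false) false = true from h)
    obtain ⟨h3, h4⟩ := IA.cond_and h2
    rw [fn_eq] at h4
    cases q with
    | zero => exact ⟨h1, h3⟩
    | succ q =>
      have h5 := ih (k + 1) h4 q (by simpa using hq)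
      have e : k + (q + 1) = k + 1 + q := by ring
      rw [e]
      exact h5

variable {κ : Type} [Fintype κ] [DecidableEq κ]

theorem zone (t : ℕ → ℕ → ℕ) (M Te : ℕ) (l : List (ℕ × ℕ × List Ce)) (k0 : ℕ) (hchk : zOK t M Te l k0 = true)
    (ht : TabP t ((M : ℝ) / 200)) (q : ℕ) (hq : q < l.length) (b : κ → ℝ) (hb0 : ∀ c, 0 ≤ b c)
    (hb1 : ∀ c, b c ≤ 1) (i j : κ) (hij : i ≠ j) (hi : b i = 1)
    (h0 : (4 * (k0 + q : ℕ) : ℝ) / 200 < b j) (h1 : b j ≤ (4 * (k0 + q : ℕ) + 4 : ℝ) / 200)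
    (hm : ∀ c, c ≠ i → c ≠ j → b c ≤ (M : ℝ) / 200)
    (hS0 : (l[q].1 : ℝ) / 200 ≤ ∑ c ∈ ({i, j} : Finset κ)ᶜ, b c)
    (hS1 : ∑ c ∈ ({i, j} : Finset κ)ᶜ, b c ≤ (Te : ℝ) / 200) :
    F b ≤ What (b j + ∑ c ∈ ({i, j} : Finset κ)ᶜ, b c) := by
  obtain ⟨g1, g2⟩ := zOK_get t M Te l k0 hchk q hq
  obtain ⟨g3, g4⟩ := ones_get _ g2
  obtain ⟨c, hc, h2, -⟩ := box_sound t (k0 + q) _ _ M 0 0 0 0 _ _ Te _ g1 ht b hb0 hb1 i j hij hi
    (by push_cast at h0 ⊢; exact h0) (by push_cast at h1 ⊢; exact h1) hm hS0 g3 hS1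
  exact h2 (g4 c hc)

/-- thresholds for others at most `3/10`, blocks `15 ≤ k < 50` -/
def zB : List (ℕ × ℕ × List Ce) :=
  [(4, 16, [(1, 0, 60, 15, 484005, 43151), (1, 14, 120, 16, 1198709, 55697), (1, 15, 180, 16, 2074198, 57866), (1, 15, 240, 16, 2942201, 57149)]),
   (17, 20, [(1, 0, 60, 12, 658247, 44133), (1, 11, 120, 16, 1193217, 62496), (1, 15, 180, 16, 2123550, 58475), (1, 15, 240, 16, 3000773, 56963)]),
   (17, 21, [(1, 0, 60, 12, 709087, 54336), (1, 11, 120, 16, 1258958, 62091), (1, 15, 180, 16, 2183300, 58377), (1, 15, 240, 16, 3059150, 56777)]),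
   (20, 23, [(1, 0, 60, 11, 817759, 54336), (1, 10, 120, 16, 1323359, 61761), (1, 15, 180, 16, 2252419, 57481), (1, 15, 240, 16, 3117334, 56593)]),
   (24, 25, [(1, 0, 60, 10, 926431, 54336), (1, 9, 120, 16, 1422469, 55536), (1, 15, 180, 16, 2302177, 58184), (1, 15, 240, 16, 3175325, 56409)]),
   (28, 27, [(1, 0, 60, 9, 1035103, 54336), (1, 8, 120, 16, 1449481, 61241), (1, 15, 180, 16, 2370515, 57168), (1, 15, 240, 16, 3233124, 56227)]),
   (33, 29, [(1, 0, 60, 8, 1142199, 55912), (1, 7, 120, 16, 1511572, 61028), (1, 15, 180, 16, 2429342, 56984), (1, 15, 240, 16, 3290733, 56046)]),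
   (37, 31, [(1, 0, 60, 7, 1254742, 55750), (1, 6, 120, 16, 1573171, 60836), (1, 15, 180, 16, 2479017, 57898), (1, 15, 240, 16, 3348153, 55866)]),
   (42, 33, [(1, 0, 60, 6, 1366629, 55627), (1, 5, 120, 16, 1644995, 55345), (1, 15, 180, 16, 2546547, 56522), (1, 15, 240, 16, 3405372, 55688)]),
   (48, 36, [(1, 0, 60, 4, 1533910, 55444), (1, 3, 120, 16, 1695189, 60497), (1, 15, 180, 16, 2595944, 57709), (1, 15, 240, 16, 3462430, 55509)]),
   (53, 38, [(1, 0, 60, 3, 1644995, 55345), (1, 2, 120, 16, 1774453, 59172), (1, 15, 180, 16, 2663145, 55811), (1, 15, 240, 16, 3519288, 55332)]),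
   (55, 39, [(1, 0, 56, 2, 1676713, 78973), (1, 1, 60, 2, 1774452, 60144), (1, 1, 120, 16, 1834659, 59029), (1, 15, 180, 16, 2712121, 57520), (1, 15, 240, 16, 3575962, 55156)]),
   (58, 41, [(1, 0, 60, 2, 1834659, 60016), (1, 1, 120, 16, 1894740, 58884), (1, 15, 180, 16, 2769920, 57427), (1, 15, 240, 16, 3632452, 54981)]),
   (63, 43, [(1, 0, 116, 15, 1954692, 58812), (1, 14, 120, 2, 2779125, 57680), (1, 1, 180, 16, 2836884, 52658), (1, 15, 240, 16, 3688756, 54808)]),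
   (68, 46, [(1, 0, 96, 8, 2133745, 58897), (1, 7, 120, 7, 2546545, 57912), (1, 6, 180, 16, 2884960, 57241), (1, 15, 240, 16, 3744884, 54635)]),
   (74, 48, [(1, 0, 120, 13, 2252419, 57481), (1, 12, 180, 16, 2942201, 57149), (1, 15, 240, 16, 3800820, 54464)]),
   (79, 50, [(1, 0, 84, 3, 2370515, 58677), (1, 2, 120, 10, 2474409, 58474), (1, 9, 180, 16, 3000773, 56963), (1, 15, 240, 16, 3856594, 54292)]),
   (85, 53, [(1, 0, 108, 7, 2546545, 57912), (1, 6, 120, 4, 2883824, 58377), (1, 3, 180, 16, 3059150, 56777), (1, 15, 240, 16, 3912181, 54123)]),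
   (91, 55, [(1, 0, 104, 5, 2663145, 57756), (1, 4, 120, 5, 2883920, 58281), (1, 4, 180, 16, 3117334, 56593), (1, 15, 240, 16, 3967590, 53954)]),
   (97, 58, [(1, 0, 100, 2, 2836884, 57522), (1, 1, 120, 6, 2884017, 58184), (1, 5, 180, 16, 3175325, 56409), (1, 15, 240, 16, 4022823, 53787)]),
   (105, 61, [(1, 0, 120, 5, 3000773, 57992), (1, 4, 180, 16, 3233124, 56227), (1, 15, 240, 16, 4077881, 53620)]),
   (110, 63, [(1, 0, 120, 4, 3117334, 57704), (1, 3, 180, 16, 3290733, 56046), (1, 15, 240, 16, 4132764, 53454)]),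
   (116, 66, [(1, 0, 120, 2, 3290733, 57326), (1, 1, 180, 16, 3348153, 55866), (1, 15, 240, 16, 4187474, 53290)]),
   (122, 68, [(1, 0, 180, 16, 3405372, 55688), (1, 15, 240, 16, 4242013, 53126)]),
   (128, 71, [(1, 0, 180, 14, 3575962, 55329), (1, 13, 240, 16, 4296380, 52964)]),
   (134, 73, [(1, 0, 180, 13, 3688759, 55065), (1, 12, 240, 16, 4350577, 52802)]),
   (140, 76, [(1, 0, 180, 11, 3856594, 54715), (1, 10, 240, 16, 4404605, 52641)]),
   (146, 78, [(1, 0, 152, 3, 3967590, 55058), (1, 2, 180, 8, 4077881, 54284), (1, 7, 240, 16, 4458464, 52482)]),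
   (153, 81, [(1, 0, 180, 8, 4132764, 54115), (1, 7, 240, 16, 4512157, 52323)]),
   (159, 83, [(1, 0, 180, 7, 4242013, 53861), (1, 6, 240, 16, 4565684, 52165)]),
   (165, 86, [(1, 0, 180, 5, 4404604, 53528), (1, 4, 240, 16, 4619046, 52008)]),
   (171, 88, [(1, 0, 180, 4, 4512157, 53280), (1, 3, 240, 16, 4672244, 51852)]),
   (178, 91, [(1, 0, 180, 2, 4672244, 52953), (1, 1, 240, 16, 4725279, 51697)]),
   (184, 94, [(1, 0, 240, 15, 4830863, 51466)]),
   (190, 96, [(1, 0, 240, 14, 4935807, 51236)])]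

/-- thresholds for others at most `1/5` -/
def zA : List (ℕ × ℕ × List Ce) :=
  [(2, 15, [(1, 0, 40, 11, 441178, 42822), (1, 10, 80, 11, 926431, 54336), (1, 10, 120, 11, 1440641, 63009), (1, 10, 160, 11, 2074198, 58819), (1, 10, 200, 11, 2651761, 58088)]),
   (7, 17, [(1, 0, 40, 10, 525832, 44137), (1, 9, 80, 11, 980767, 54336), (1, 10, 120, 11, 1505697, 62496), (1, 10, 160, 11, 2133745, 58671), (1, 10, 200, 11, 2710229, 57993)]),
   (13, 20, [(1, 0, 40, 8, 647081, 55299), (1, 7, 80, 11, 1035103, 54336), (1, 10, 120, 11, 1569413, 62091), (1, 10, 160, 11, 2193153, 58521), (1, 10, 200, 11, 2768507, 57898)]),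
   (13, 21, [(1, 0, 40, 8, 709778, 54243), (1, 7, 80, 11, 1089439, 54336), (1, 10, 120, 11, 1632164, 61761), (1, 10, 160, 11, 2252419, 58369), (1, 10, 200, 11, 2836884, 52658)]),
   (16, 23, [(1, 0, 40, 7, 817759, 54336), (1, 6, 80, 11, 1142348, 55758), (1, 10, 120, 11, 1694204, 61482), (1, 10, 160, 11, 2311540, 58217), (1, 10, 200, 11, 2884493, 57708)]),
   (19, 24, [(1, 0, 40, 7, 872095, 54336), (1, 6, 80, 11, 1198709, 55697), (1, 10, 120, 11, 1774446, 59536), (1, 10, 160, 11, 2370515, 57168), (1, 10, 200, 11, 2942201, 57614)]),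
   (22, 26, [(1, 0, 40, 6, 980767, 54336), (1, 5, 80, 11, 1254742, 55660), (1, 10, 120, 11, 1834659, 59396), (1, 10, 160, 11, 2429342, 56984), (1, 10, 200, 11, 3000773, 57425)]),
   (26, 28, [(1, 0, 40, 5, 1089439, 54336), (1, 4, 80, 11, 1224996, 66336), (1, 10, 120, 11, 1894731, 59256), (1, 10, 160, 11, 2475185, 58377), (1, 10, 200, 11, 3059150, 57237)]),
   (30, 30, [(1, 0, 40, 4, 1198709, 55940), (1, 3, 80, 11, 1302744, 64706), (1, 10, 120, 11, 1954691, 59112), (1, 10, 160, 11, 2534234, 58281), (1, 10, 200, 11, 3117334, 57050)]),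
   (33, 32, [(1, 0, 40, 3, 1310718, 55837), (1, 2, 80, 11, 1422469, 55536), (1, 10, 120, 11, 2014512, 58966), (1, 10, 160, 11, 2593097, 58184), (1, 10, 200, 11, 3175325, 56864)]),
   (37, 34, [(1, 0, 40, 2, 1422469, 55720), (1, 1, 80, 11, 1478231, 55491), (1, 10, 120, 11, 2074198, 58819), (1, 10, 160, 11, 2651761, 58088), (1, 10, 200, 11, 3233114, 56680)]),
   (42, 36, [(1, 0, 80, 11, 1533910, 55444), (1, 10, 120, 11, 2133745, 58671), (1, 10, 160, 11, 2710229, 57993), (1, 10, 200, 11, 3290725, 56496)]),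
   (48, 39, [(1, 0, 80, 9, 1693595, 62091), (1, 8, 120, 11, 2193153, 58521), (1, 10, 160, 11, 2768507, 57898), (1, 10, 200, 11, 3348153, 56312)]),
   (49, 40, [(1, 0, 80, 9, 1774453, 59676), (1, 8, 120, 11, 2252419, 58369), (1, 10, 160, 11, 2836884, 52658), (1, 10, 200, 11, 3405385, 56130)]),
   (53, 42, [(1, 0, 80, 8, 1894739, 59472), (1, 7, 120, 11, 2311540, 58217), (1, 10, 160, 11, 2884493, 57708), (1, 10, 200, 11, 3462430, 55950)]),
   (57, 44, [(1, 0, 80, 7, 2014512, 59261), (1, 6, 120, 11, 2370515, 57168), (1, 10, 160, 11, 2942201, 57614), (1, 10, 200, 11, 3519288, 55770)]),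
   (61, 46, [(1, 0, 68, 3, 2133745, 59265), (1, 2, 80, 4, 2252419, 58900), (1, 3, 120, 11, 2429342, 56984), (1, 10, 160, 11, 3000773, 57425), (1, 10, 200, 11, 3575962, 55592)]),
   (66, 48, [(1, 0, 80, 5, 2252419, 58825), (1, 4, 120, 11, 2475185, 58377), (1, 10, 160, 11, 3059150, 57237), (1, 10, 200, 11, 3632452, 55414)]),
   (71, 50, [(1, 0, 80, 4, 2370515, 58602), (1, 3, 120, 11, 2534234, 58281), (1, 10, 160, 11, 3117334, 57050), (1, 10, 200, 11, 3688759, 55238)]),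
   (76, 53, [(1, 0, 80, 2, 2546547, 58299), (1, 1, 120, 11, 2593097, 58184), (1, 10, 160, 11, 3175325, 56864), (1, 10, 200, 11, 3744884, 55063)]),
   (80, 55, [(1, 0, 96, 5, 2663145, 57756), (1, 4, 120, 7, 2884113, 58088), (1, 6, 160, 11, 3233114, 56680), (1, 10, 200, 11, 3800829, 54888)]),
   (86, 57, [(1, 0, 92, 3, 2779126, 57601), (1, 2, 120, 8, 2884208, 57993), (1, 7, 160, 11, 3290725, 56496), (1, 10, 200, 11, 3856594, 54715)]),
   (93, 60, [(1, 0, 120, 8, 2942201, 57898), (1, 7, 160, 11, 3348153, 56312), (1, 10, 200, 11, 3912173, 54544)]),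
   (98, 62, [(1, 0, 120, 7, 3059150, 57611), (1, 6, 160, 11, 3405385, 56130), (1, 10, 200, 11, 3967590, 54372)]),
   (103, 64, [(1, 0, 116, 5, 3175325, 57421), (1, 4, 120, 2, 3405384, 56952), (1, 1, 160, 11, 3462430, 55950), (1, 10, 200, 11, 4022823, 54202)]),
   (109, 67, [(1, 0, 120, 4, 3348153, 56952), (1, 3, 160, 11, 3519288, 55770), (1, 10, 200, 11, 4077881, 54033)]),
   (114, 69, [(1, 0, 120, 3, 3462430, 56674), (1, 2, 160, 11, 3575962, 55592), (1, 10, 200, 11, 4132764, 53865)]),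
   (119, 71, [(1, 0, 120, 2, 3575962, 56398), (1, 1, 160, 11, 3632452, 55414), (1, 10, 200, 11, 4187474, 53697)]),
   (125, 74, [(1, 0, 160, 10, 3744884, 55149), (1, 9, 200, 11, 4242013, 53531)]),
   (131, 76, [(1, 0, 160, 9, 3856594, 54887), (1, 8, 200, 11, 4296380, 53366)]),
   (137, 79, [(1, 0, 160, 7, 4022823, 54540), (1, 6, 200, 11, 4350577, 53202)]),
   (142, 81, [(1, 0, 160, 6, 4132764, 54283), (1, 5, 200, 11, 4404601, 53040)]),
   (148, 84, [(1, 0, 160, 4, 4296380, 53944), (1, 3, 200, 11, 4458464, 52877)]),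
   (154, 86, [(1, 0, 160, 3, 4404605, 53693), (1, 2, 200, 11, 4512157, 52716)]),
   (160, 89, [(1, 0, 200, 11, 4565684, 52556)])]

theorem zBO : zOK tB 60 240 zB 15 = true := by decide +kernel

theorem zAO : zOK tA 40 200 zA 15 = true := by decide +kernel

/-- thresholds over `200`, others at most `3/10`, blocks `k/50 < h ≤ (k+1)/50` -/
def smB (k : ℕ) : ℕ := List.getD
  [4, 17, 17, 20, 24, 28, 33, 37, 42, 48, 53, 55, 58, 63, 68, 74, 79, 85, 91, 97, 105, 110, 116,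
   122, 128, 134, 140, 146, 153, 159, 165, 171, 178, 184, 190] (k - 15) 0

/-- thresholds over `200`, others at most `1/5` -/
def smA (k : ℕ) : ℕ := List.getD
  [2, 7, 13, 13, 16, 19, 22, 26, 30, 33, 37, 42, 48, 49, 53, 57, 61, 66, 71, 76, 80, 86, 93, 98,
   103, 109, 114, 119, 125, 131, 137, 142, 148, 154, 160] (k - 15) 0

theorem zB_len : zB.length = 35 := by decide +kernel
theorem zA_len : zA.length = 35 := by decide +kernel
theorem zB_sm : (List.range 35).all (fun q => Nat.beq (smB (15 + q)) (zB.getD q (0, 0, [])).1) = true := by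
  decide +kernel
theorem zA_sm : (List.range 35).all (fun q => Nat.beq (smA (15 + q)) (zA.getD q (0, 0, [])).1) = true := by
  decide +kernel
theorem smB_le : (List.range 35).all (fun q => Nat.ble (smB (15 + q)) 200) = true := by decide +kernel

/-- NOT BAD, others at most `3/10`. -/
theorem F_le_What_B (k : ℕ) (hk : 15 ≤ k) (hk' : k < 50) (b : κ → ℝ) (hb0 : ∀ c, 0 ≤ b c)
    (hb1 : ∀ c, b c ≤ 1) (i j : κ) (hij : i ≠ j) (hi : b i = 1)
    (h0 : (k : ℝ) / 50 < b j) (h1 : b j ≤ ((k : ℝ) + 1) / 50)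
    (hm : ∀ c, c ≠ i → c ≠ j → b c ≤ 3 / 10)
    (hS0 : (smB k : ℝ) / 200 ≤ ∑ c ∈ ({i, j} : Finset κ)ᶜ, b c) :
    F b ≤ What (b j + ∑ c ∈ ({i, j} : Finset κ)ᶜ, b c) := by
  have hkR : (15 : ℝ) ≤ k := by exact_mod_cast hk
  rcases le_or_gt (∑ c ∈ ({i, j} : Finset κ)ᶜ, b c) (6 / 5) with hS | hS
  · have hq : k - 15 < zB.length := by rw [zB_len]; omega
    have e := List.all_eq_true.mp zB_sm (k - 15) (List.mem_range.mpr (by omega))
    have e2 : 15 + (k - 15) = k := by omega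
    rw [e2, List.getD_eq_getElem _ _ hq] at e
    have e3 := Nat.eq_of_beq_eq_true e
    rw [e3] at hS0
    refine zone tB 60 240 zB 15 zBO ?_ (k - 15) hq b hb0 hb1 i j hij hi ?_ ?_ ?_ hS0 ?_
    · have := tabP_B
      norm_num at this ⊢
      exact this
    · rw [e2]; linarith
    · rw [e2]; linarith
    · intro c hc hc'; have := hm c hc hc'; norm_num; linarith
    · exact hS.trans (by norm_num)
  · exact F_le_What_coarse b hb0 hb1 i j hij hi (by linarith) hm hS.le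

/-- NOT BAD, others at most `1/5`. -/
theorem F_le_What_A (k : ℕ) (hk : 15 ≤ k) (hk' : k < 50) (b : κ → ℝ) (hb0 : ∀ c, 0 ≤ b c)
    (hb1 : ∀ c, b c ≤ 1) (i j : κ) (hij : i ≠ j) (hi : b i = 1)
    (h0 : (k : ℝ) / 50 < b j) (h1 : b j ≤ ((k : ℝ) + 1) / 50)
    (hm : ∀ c, c ≠ i → c ≠ j → b c ≤ 1 / 5)
    (hS0 : (smA k : ℝ) / 200 ≤ ∑ c ∈ ({i, j} : Finset κ)ᶜ, b c) :
    F b ≤ What (b j + ∑ c ∈ ({i, j} : Finset κ)ᶜ, b c) := by
  have hkR : (15 : ℝ) ≤ k := by exact_mod_cast hk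
  rcases le_or_gt (∑ c ∈ ({i, j} : Finset κ)ᶜ, b c) 1 with hS | hS
  · have hq : k - 15 < zA.length := by rw [zA_len]; omega
    have e := List.all_eq_true.mp zA_sm (k - 15) (List.mem_range.mpr (by omega))
    have e2 : 15 + (k - 15) = k := by omega
    rw [e2, List.getD_eq_getElem _ _ hq] at e
    have e3 := Nat.eq_of_beq_eq_true e
    rw [e3] at hS0
    refine zone tA 40 200 zA 15 zAO ?_ (k - 15) hq b hb0 hb1 i j hij hi ?_ ?_ ?_ hS0 ?_
    · have := tabP_A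
      norm_num at this ⊢
      exact this
    · rw [e2]; linarith
    · rw [e2]; linarith
    · intro c hc hc'; have := hm c hc hc'; norm_num; linarith
    · exact hS.trans (by norm_num)
  · refine F_le_What_B k hk hk' b hb0 hb1 i j hij hi h0 h1 (fun c hc hc' => by linarith [hm c hc hc']) ?_
    have e := List.all_eq_true.mp smB_le (k - 15) (List.mem_range.mpr (by omega))
    have e2 : 15 + (k - 15) = k := by omega
    rw [e2, Nat.ble_eq] at e
    have : (smB k : ℝ) ≤ 200 := by exact_mod_cast e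
    linarith

/-- the block of `h` -/
theorem block (h : ℝ) (h0 : 3 / 10 < h) (h1 : h ≤ 1) : ∃ k : ℕ, 15 ≤ k ∧ k < 50 ∧ (k : ℝ) / 50 < h ∧
    h ≤ ((k : ℝ) + 1) / 50 := by
  have hc : 0 < ⌈50 * h⌉₊ := Nat.ceil_pos.mpr (by linarith)
  have hle : 50 * h ≤ (⌈50 * h⌉₊ : ℝ) := Nat.le_ceil _
  have hlt : (⌈50 * h⌉₊ : ℝ) < 50 * h + 1 := Nat.ceil_lt_add_one (by linarith)
  have h3 : ⌈50 * h⌉₊ ≤ 50 := Nat.ceil_le.mpr (by push_cast; linarith)
  have h4 : 15 < ⌈50 * h⌉₊ := by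
    rw [Nat.lt_ceil]
    push_cast
    linarith
  refine ⟨⌈50 * h⌉₊ - 1, by omega, by omega, ?_, ?_⟩
  · push_cast [Nat.cast_sub (Nat.succ_le_of_lt hc)]
    linarith
  · push_cast [Nat.cast_sub (Nat.succ_le_of_lt hc)]
    linarith

/-- A BAD ROW HAS SMALL `S`, others at most `3/10`. -/
theorem S_lt_B (k : ℕ) (hk : 15 ≤ k) (hk' : k < 50) (b : κ → ℝ) (hb0 : ∀ c, 0 ≤ b c)
    (hb1 : ∀ c, b c ≤ 1) (i j : κ) (hij : i ≠ j) (hi : b i = 1)
    (h0 : (k : ℝ) / 50 < b j) (h1 : b j ≤ ((k : ℝ) + 1) / 50)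
    (hm : ∀ c, c ≠ i → c ≠ j → b c ≤ 3 / 10)
    (hbad : What (b j + ∑ c ∈ ({i, j} : Finset κ)ᶜ, b c) < F b) :
    ∑ c ∈ ({i, j} : Finset κ)ᶜ, b c < (smB k : ℝ) / 200 := by
  by_contra hc
  push Not at hc
  exact absurd hbad (not_lt.mpr (F_le_What_B k hk hk' b hb0 hb1 i j hij hi h0 h1 hm hc))

/-- A BAD ROW HAS SMALL `S`, others at most `1/5`. -/
theorem S_lt_A (k : ℕ) (hk : 15 ≤ k) (hk' : k < 50) (b : κ → ℝ) (hb0 : ∀ c, 0 ≤ b c)
    (hb1 : ∀ c, b c ≤ 1) (i j : κ) (hij : i ≠ j) (hi : b i = 1)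
    (h0 : (k : ℝ) / 50 < b j) (h1 : b j ≤ ((k : ℝ) + 1) / 50)
    (hm : ∀ c, c ≠ i → c ≠ j → b c ≤ 1 / 5)
    (hbad : What (b j + ∑ c ∈ ({i, j} : Finset κ)ᶜ, b c) < F b) :
    ∑ c ∈ ({i, j} : Finset κ)ᶜ, b c < (smA k : ℝ) / 200 := by
  by_contra hc
  push Not at hc
  exact absurd hbad (not_lt.mpr (F_le_What_A k hk hk' b hb0 hb1 i j hij hi h0 h1 hm hc))

end ZF
end Fr
end Pool.Agent.Lib.MP_6947cd_al
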