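import Pool.Agent.Lib.MP_6947cd_al.L.BoxA
import Pool.Agent.Lib.MP_6947cd_al.L.RowH
import Pool.Agent.Lib.MP_6947cd_al.L.ZoneF

/-!
Problem MP_6947cd_al (Chollet).  CASE A, part (I): the checker for the boxes.
-/

set_option autoImplicit false
open Finset

namespace Pool.Agent.Lib.MP_6947cd_al
namespace Fr
namespace CI

open Ent WT RT RI TZ RG G3 RH CA IA.F

/-! ### pieces of the checker -/

/-- a call: start index (9 bits), number of cells (8 bits), cells -/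
noncomputable def call (v : ℕ) (k : ℕ → List Ce → Bool) : Bool :=
  fn (Nat.mod v (nat_lit 512)) fun Js => fn (Nat.mod (Nat.shiftRight v (nat_lit 9)) (nat_lit 256)) fun n =>
  fn (Nat.shiftRight v (nat_lit 17)) fun pk => cond (Nat.ble (nat_lit 1) n) (k Js (dc n pk)) false

theorem call_get (v : ℕ) (k : ℕ → List Ce → Bool) (h : call v k = true) : ∃ Js cs, cs ≠ [] ∧ k Js cs = true := by
  unfold call at h
  simp only [fn_eq] at h
  obtain ⟨h1, h2⟩ := IA.cond_and h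
  rw [Nat.ble_eq] at h1
  refine ⟨_, _, ?_, h2⟩
  obtain ⟨n, hn⟩ := Nat.exists_eq_add_of_le' h1
  rw [hn]
  exact dc_ne n _

/-- all classes -/
noncomputable def clsOK (f : Cl → ℕ → Bool) (l : List Cl) : List ℕ → Bool :=
  @List.rec Cl (fun _ => List ℕ → Bool) (fun _ => true)
    (fun c _ ih vs => @List.rec ℕ (fun _ => Bool) false (fun v vs' _ => cond (f c v) (ih vs') false) vs) l

theorem clsOK_get (f : Cl → ℕ → Bool) (l : List Cl) : ∀ vs : List ℕ, clsOK f l vs = true →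
    ∀ c ∈ l, ∃ v, f c v = true := by
  induction l with
  | nil => intro vs _ c hc; simp at hc
  | cons a l ih =>
    intro vs h c hc
    cases vs with
    | nil => exact absurd (show false = true from h) (by simp)
    | cons v vs =>
      obtain ⟨h1, h2⟩ := IA.cond_and (show cond (f a v) (clsOK f l vs) false = true from h)
      rcases List.mem_cons.mp hc with rfl | hc
      · exact ⟨v, h1⟩
      · exact ih vs h2 c hc

/-- natural numbers among the integers -/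
noncomputable def intN (z : ℤ) (k : ℕ → Bool) : Bool := @Int.rec (fun _ => Bool) k (fun _ => false) z

theorem intN_get (z : ℤ) (k : ℕ → Bool) (h : intN z k = true) : ∃ n : ℕ, z = n ∧ k n = true := by
  cases z with
  | ofNat n => exact ⟨n, rfl, h⟩
  | negSucc n => exact absurd (show false = true from h) (by simp)

/-- the pieces `(2 k, 2 k + 2]` of an interval -/
noncomputable def pcs (f : ℕ → ℕ → List ℕ → Bool) (He : ℕ) (ls : List (List ℕ)) : ℕ → Bool :=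
  @List.rec (List ℕ) (fun _ => ℕ → Bool) (fun H => Nat.ble He H)
    (fun l _ ih H => fn (Nat.mul 2 (Nat.succ (Nat.div H 2))) fun H2 =>
      fn (cond (Nat.ble H2 He) H2 He) fun H' => cond (f H H' l) (ih H') false) ls

theorem pcs_get (f : ℕ → ℕ → List ℕ → Bool) (He : ℕ) (ls : List (List ℕ)) : ∀ H : ℕ, pcs f He ls H = true →
    ∀ h : ℝ, (H : ℝ) / 200 < h → h ≤ (He : ℝ) / 200 →
    ∃ H0 H1 l, f H0 H1 l = true ∧ (H0 : ℝ) / 200 < h ∧ h ≤ (H1 : ℝ) / 200 := by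
  induction ls with
  | nil =>
    intro H hc h h0 h1
    have h2 : Nat.ble He H = true := hc
    rw [Nat.ble_eq] at h2
    have h3 : (He : ℝ) ≤ H := by exact_mod_cast h2
    exact absurd (lt_of_lt_of_le h0 h1) (by push Not; linarith)
  | cons l ls ih =>
    intro H hc h h0 h1
    have h2 : (fn (Nat.mul 2 (Nat.succ (Nat.div H 2))) fun H2 =>
      fn (cond (Nat.ble H2 He) H2 He) fun H' => cond (f H H' l) (pcs f He ls H') false) = true := hc
    simp only [fn_eq] at h2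
    obtain ⟨h3, h4⟩ := IA.cond_and h2
    rcases le_or_gt h (((cond (Nat.ble (Nat.mul 2 (Nat.succ (Nat.div H 2))) He)
        (Nat.mul 2 (Nat.succ (Nat.div H 2))) He : ℕ) : ℝ) / 200) with hh | hh
    · exact ⟨_, _, l, h3, h0, hh⟩
    · exact ih _ h4 h hh h1

/-! ### thresholds for the sum of the others -/

/-- bad rows have a small sum of the others -/
def Zone (w : ℕ) (sm : ℕ → ℕ) : Prop :=
  ∀ (κ : Type) [Fintype κ] [DecidableEq κ] (b : κ → ℝ), (∀ c, 0 ≤ b c) → (∀ c, b c ≤ 1) →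
    ∀ i j : κ, i ≠ j → b i = 1 → ∀ k : ℕ, 15 ≤ k → k < 50 → (k : ℝ) / 50 < b j → b j ≤ ((k : ℝ) + 1) / 50 →
    (∀ c, c ≠ i → c ≠ j → b c ≤ (w : ℝ) / 40) →
    What (b j + ∑ c ∈ ({i, j} : Finset κ)ᶜ, b c) < F b →
    ∑ c ∈ ({i, j} : Finset κ)ᶜ, b c < (sm k : ℝ) / 200

theorem zoneA : Zone 8 ZF.smA := by
  intro κ _ _ b hb0 hb1 i j hij hi k hk hk' h0 h1 hm hbad
  exact ZF.S_lt_A k hk hk' b hb0 hb1 i j hij hi h0 h1
    (fun c hc hc' => (hm c hc hc').trans (le_of_eq (by norm_num))) hbad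

theorem zoneB : Zone 12 ZF.smB := by
  intro κ _ _ b hb0 hb1 i j hij hi k hk hk' h0 h1 hm hbad
  exact ZF.S_lt_B k hk hk' b hb0 hb1 i j hij hi h0 h1
    (fun c hc hc' => (hm c hc hc').trans (le_of_eq (by norm_num))) hbad

lemma need_pos (D h S d : ℝ) (hD : 0 < D) (h0 : 0 < h) (h1 : h ≤ 1) (hS : 0 ≤ S) :
    0 < (D * (4 * h - h ^ 2) + 4 * S * max D d) / (3 * h ^ 2) := by
  have e1 : 0 < 4 * h - h ^ 2 := by nlinarith
  have e2 : 0 < D * (4 * h - h ^ 2) := mul_pos hD e1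
  have e3 : 0 ≤ 4 * S * max D d := mul_nonneg (by linarith) (le_trans hD.le (le_max_left _ _))
  exact div_pos (by linarith) (by positivity)

/-! ### rows without special entry -/

/-- the check of one inequality -/
noncomputable def one2 (va vb k H0 H1 c0 c1 d0 d1 e0 e1 N Ts Te wN aN rN v : ℕ) : Bool :=
  fn (Nat.mul 200 wN) fun w2 => fn (Nat.mul aN 200000000) fun aM => fn (Nat.mul rN 40000000000) fun r =>
  call v fun Js cs => core2 va vb k H0 H1 c0 c1 d0 d1 w2 aM r e0 e1 N Ts Js Te cs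

theorem one2_sound (V cnt : ℕ → ℕ) (w k0 k1 k H0 H1 wN aN rN N Ts Te v : ℕ)
    (ht : Tab2 (fun z k => gt (V k) z) cnt w k0 k1) (hw : 0 < w) (hw' : w ≤ 40)
    (p1 : k0 ≤ k) (p2 : k + 1 ≤ k1) (p3 : k1 ≤ 100) (p4 : 2 * k ≤ H0) (p5 : H0 < H1) (p6 : H1 ≤ 2 * (k + 1))
    (p7 : N + 2 ≤ cnt k) (p8 : N + 2 ≤ cnt (k + 1)) (p10 : 1 ≤ H0)
    (hchk : one2 (V k) (V (k + 1)) k H0 H1 (cc H0) (cc H1) (dd H0) (dd H1) (20 * 10000 * dd H0)
      (20 * 10000 * dd H1) N Ts Te wN aN rN v = true)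
    {κ : Type} [Fintype κ] [DecidableEq κ] (b : κ → ℝ) (hb0 : ∀ c, 0 ≤ b c)
    (i j : κ) (hij : i ≠ j) (hi : b i = 1) (h0 : (H0 : ℝ) / 200 < b j) (h1 : b j ≤ (H1 : ℝ) / 200)
    (hm : ∀ c, c ≠ i → c ≠ j → b c ≤ (w : ℝ) / 40)
    (hS0 : (Ts : ℝ) / 200 ≤ ∑ c ∈ ({i, j} : Finset κ)ᶜ, b c)
    (hS1 : ∑ c ∈ ({i, j} : Finset κ)ᶜ, b c ≤ (Te : ℝ) / 200)
    (hD : 0 < F b - What (b j + ∑ c ∈ ({i, j} : Finset κ)ᶜ, b c)) :
    ((F b - What (b j + ∑ c ∈ ({i, j} : Finset κ)ᶜ, b c)) * (4 * b j - b j ^ 2)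
      + 4 * (∑ c ∈ ({i, j} : Finset κ)ᶜ, b c) * max (F b - What (b j + ∑ c ∈ ({i, j} : Finset κ)ᶜ, b c))
        (1 / 1000)) / (3 * b j ^ 2)
      + (wN : ℝ) / 1000000 * F b + (aN : ℝ) / 1000000 * (∑ c ∈ ({i, j} : Finset κ)ᶜ, b c)
        ≤ (rN : ℝ) / 1000000 := by
  unfold one2 at hchk
  simp only [fn_eq] at hchk
  obtain ⟨Js, cs, hne, hc⟩ := call_get _ _ hchk
  obtain ⟨c, hcm, g1, g2⟩ := core2_sound V cnt w k0 k1 k H0 H1 wN aN rN 10000 N Ts Js Te cs ht hw hw' p1 p2 p3 p4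
    p5 p6 p7 p8 p10 hc b hb0 i j hij hi h0 h1 hm hS0 hne hS1
  rcases eq_or_ne c.1 1 with hz | hz
  · have := g1 hz
    linarith
  · have h2 := g2 hz hD
    have e : (((10000 : ℕ) : ℝ) / 10000000) = 1 / 1000 := by norm_num
    rw [e] at h2
    exact h2

/-- the check of a piece of a box -/
noncomputable def piece2 (V cnt sm : ℕ → ℕ) (k0 k1 : ℕ) (x : Box) (H0 H1 : ℕ) (l : List ℕ) : Bool :=
  fn (Nat.div H0 2) fun k => fn (sm (Nat.div H0 4)) fun sx => fn (cnt k) fun n0 => fn (cnt (Nat.succ k)) fun n1 =>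
  fn (Nat.sub (cond (Nat.ble n0 n1) n0 n1) 2) fun N =>
  cond (Nat.ble k0 k) (cond (Nat.ble (Nat.succ k) k1) (cond (Nat.ble (Nat.mul 2 k) H0)
   (cond (Nat.ble (Nat.succ H0) H1) (cond (Nat.ble H1 (Nat.mul 2 (Nat.succ k))) (cond (Nat.ble (Nat.add N 2) n0)
   (cond (Nat.ble (Nat.add N 2) n1) (cond (Nat.ble 60 H0) (cond (Nat.ble H1 200)
   (fn (V k) fun va => fn (V (Nat.succ k)) fun vb => fn (cc H0) fun c0 => fn (cc H1) fun c1 =>
    fn (dd H0) fun d0 => fn (dd H1) fun d1 =>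
    fn (Nat.mul (Nat.mul 20 10000) d0) fun e0 => fn (Nat.mul (Nat.mul 20 10000) d1) fun e1 =>
    @List.rec ℕ (fun _ => Bool) false (fun v0 l _ =>
      cond (cond (Nat.ble (Nat.mul 5 x.mx) x.so) true (cond (Nat.ble sx x.so) true
         (one2 va vb k H0 H1 c0 c1 d0 d1 e0 e1 N x.so sx 0 0 0 v0)))
       (fn (cond (Nat.ble (Nat.mul 5 x.mx) x.so) sx (cond (Nat.ble sx x.so) sx x.so)) fun Te =>
        @List.rec ℕ (fun _ => Bool) false (fun v1 l _ =>
          cond (one2 va vb k H0 H1 c0 c1 d0 d1 e0 e1 N 0 Te 0 0 (Nat.mul 10 x.rz) v1)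
           (clsOK (fun c v => intN c.rt fun r => one2 va vb k H0 H1 c0 c1 d0 d1 e0 e1 N 0 Te (Nat.mul 1000 c.w)
             (Nat.mul 1000 c.a) (Nat.mul 10 r) v) x.cls l) false) l) false) l)
    false) false) false) false) false) false) false) false) false

theorem piece2_sound (V cnt sm : ℕ → ℕ) (w k0 k1 : ℕ) (x : Box) (H0 H1 : ℕ) (l : List ℕ)
    (hz : Zone w sm) (ht : Tab2 (fun z k => gt (V k) z) cnt w k0 k1) (hw : 0 < w) (hw' : w ≤ 40) (p3 : k1 ≤ 100)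
    (hmx : x.mx ≤ w) (hchk : piece2 V cnt sm k0 k1 x H0 H1 l = true)
    {κ : Type} [Fintype κ] [DecidableEq κ] (b : κ → ℝ) (hb0 : ∀ c, 0 ≤ b c) (hb1 : ∀ c, b c ≤ 1)
    (i j : κ) (hij : i ≠ j) (hi : b i = 1) (h0 : (H0 : ℝ) / 200 < b j) (h1 : b j ≤ (H1 : ℝ) / 200)
    (hm : ∀ c, c ≠ i → c ≠ j → b c ≤ (x.mx : ℝ) / 40)
    (S D : ℝ) (hS : S = ∑ c ∈ ({i, j} : Finset κ)ᶜ, b c) (hDe : D = F b - What (b j + S)) (hD : 0 < D) :
    (∀ c, c ≠ i → c ≠ j → b c ≤ (x.so : ℝ) / 200) ∧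
      IneqI x 0 0 0 ((x.rz : ℝ) / 100000) D (F b) (b j) S 0 ∧
      ∀ c ∈ x.cls, IneqI x ((c.w : ℝ) / 1000) ((c.a : ℝ) / 1000) 0 ((c.rt : ℝ) / 100000) D (F b) (b j) S 0 := by
  unfold piece2 at hchk
  simp only [fn_eq] at hchk
  obtain ⟨q1, hchk⟩ := IA.cond_and hchk
  obtain ⟨q2, hchk⟩ := IA.cond_and hchk
  obtain ⟨q3, hchk⟩ := IA.cond_and hchk
  obtain ⟨q4, hchk⟩ := IA.cond_and hchk
  obtain ⟨q5, hchk⟩ := IA.cond_and hchk
  obtain ⟨q6, hchk⟩ := IA.cond_and hchk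
  obtain ⟨q7, hchk⟩ := IA.cond_and hchk
  obtain ⟨q8, hchk⟩ := IA.cond_and hchk
  obtain ⟨q9, hchk⟩ := IA.cond_and hchk
  rw [Nat.ble_eq] at q1 q2 q3 q4 q5 q6 q7 q8 q9
  simp only [Nat.succ_eq_add_one, Nat.add_eq, Nat.mul_eq] at q2 q3 q4 q5 q6 q7
  have hk0 : Nat.div H0 2 = H0 / 2 := rfl
  set k := Nat.div H0 2 with hk
  generalize Nat.sub (cond (Nat.ble (cnt k) (cnt (Nat.succ k))) (cnt k) (cnt (Nat.succ k))) 2 = N at q6 q7 hchk
  have hmR : ∀ c, c ≠ i → c ≠ j → b c ≤ (w : ℝ) / 40 := by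
    intro c hc hc'
    refine (hm c hc hc').trans ?_
    have : (x.mx : ℝ) ≤ w := by exact_mod_cast hmx
    linarith
  have hbj0 : 0 < b j := lt_of_le_of_lt (by positivity) h0
  have hSn : 0 ≤ S := by rw [hS]; exact Finset.sum_nonneg fun c _ => hb0 c
  have hD' : 0 < F b - What (b j + ∑ c ∈ ({i, j} : Finset κ)ᶜ, b c) := by rw [← hS, ← hDe]; exact hD
  -- the threshold
  have hkb : Nat.div H0 4 = H0 / 4 := rfl
  have hzb := hz κ b hb0 hb1 i j hij hi (Nat.div H0 4) (by rw [hkb]; omega) (by rw [hkb]; omega) (by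
      have : 4 * (H0 / 4) ≤ H0 := Nat.mul_div_le H0 4
      have hR : 4 * ((Nat.div H0 4 : ℕ) : ℝ) ≤ H0 := by exact_mod_cast this
      linarith) (by
      have : H1 ≤ 4 * (H0 / 4 + 1) := by omega
      have hR : (H1 : ℝ) ≤ 4 * (((Nat.div H0 4 : ℕ) : ℝ) + 1) := by exact_mod_cast this
      linarith) hmR (by linarith)
  rw [← hS] at hzb
  generalize sm (Nat.div H0 4) = sx at hzb hchk
  cases l with
  | nil => exact absurd (show false = true from hchk) (by simp)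
  | cons v0 l =>
    obtain ⟨r1, hchk⟩ := IA.cond_and hchk
    cases l with
    | nil => exact absurd (show false = true from hchk) (by simp)
    | cons v1 l =>
      obtain ⟨r2, r3⟩ := IA.cond_and hchk
      have hso : 5 * x.mx ≤ x.so ∨ S ≤ (x.so : ℝ) / 200 := by
        rcases Nat.lt_or_ge x.so (5 * x.mx) with h5 | h5
        · right
          have b5 : Nat.ble (Nat.mul 5 x.mx) x.so = false := by
            rw [← Bool.not_eq_true, Nat.ble_eq]
            exact not_le.mpr h5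
          rw [b5, cond_false] at r1
          rcases Nat.lt_or_ge x.so sx with h6 | h6
          · have b6 : Nat.ble sx x.so = false := by
              rw [← Bool.not_eq_true, Nat.ble_eq]
              exact not_le.mpr h6
            rw [b6, cond_false] at r1
            by_contra hc
            push Not at hc
            have hne := one2_sound V cnt w k0 k1 k H0 H1 0 0 0 N x.so sx v0 ht hw hw' q1 q2 p3 q3
              q4 q5 q6 q7 (by omega) r1 b hb0 i j hij hi h0 h1 hmR (by rw [← hS]; exact hc.le)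
              (by rw [← hS]; exact hzb.le) hD'
            have hpos := need_pos (F b - What (b j + ∑ c ∈ ({i, j} : Finset κ)ᶜ, b c)) (b j)
              (∑ c ∈ ({i, j} : Finset κ)ᶜ, b c) (1 / 1000) hD' hbj0 (hb1 j) (by rw [← hS]; exact hSn)
            rw [Nat.cast_zero, zero_div, zero_mul, zero_mul] at hne
            linarith
          · have : (sx : ℝ) ≤ x.so := by exact_mod_cast h6
            linarith
        · left
          exact h5
      have hTe : S ≤ ((cond (Nat.ble (Nat.mul 5 x.mx) x.so) sx (cond (Nat.ble sx x.so) sx x.so) : ℕ) : ℝ) / 200 := by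
        rcases hso with h5 | h5
        · have b5 : Nat.ble (Nat.mul 5 x.mx) x.so = true := by rw [Nat.ble_eq]; exact h5
          rw [b5, cond_true]
          exact hzb.le
        · cases Nat.ble (Nat.mul 5 x.mx) x.so with
          | true => exact hzb.le
          | false =>
            rw [cond_false]
            cases Nat.ble sx x.so with
            | true => exact hzb.le
            | false => exact h5
      generalize (cond (Nat.ble (Nat.mul 5 x.mx) x.so) sx (cond (Nat.ble sx x.so) sx x.so)) = Te at hTe r2 r3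
      have main : ∀ (wN aN rN v : ℕ), one2 (V k) (V (k + 1)) k H0 H1 (cc H0) (cc H1) (dd H0) (dd H1)
          (20 * 10000 * dd H0) (20 * 10000 * dd H1) N 0 Te wN aN rN v = true →
          (D * (4 * b j - b j ^ 2) + 4 * S * max D (1 / 1000)) / (3 * b j ^ 2)
            + (wN : ℝ) / 1000000 * F b + (aN : ℝ) / 1000000 * S ≤ (rN : ℝ) / 1000000 := by
        intro wN aN rN v hv
        have h2 := one2_sound V cnt w k0 k1 k H0 H1 wN aN rN N 0 Te v ht hw hw' q1 q2 p3 q3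
          q4 q5 q6 q7 (by omega) hv b hb0 i j hij hi h0 h1 hmR (by
            rw [← hS, Nat.cast_zero, zero_div]; exact hSn) (by rw [← hS]; exact hTe) hD'
        rw [← hS, ← hDe] at h2
        exact h2
      refine ⟨?_, ?_, ?_⟩
      · intro c hc hc'
        rcases hso with h5 | h5
        · have h6 : (5 : ℝ) * x.mx ≤ x.so := by exact_mod_cast h5
          have h7 := hm c hc hc'
          linarith
        · refine le_trans ?_ h5
          rw [hS]
          refine Finset.single_le_sum (f := b) (fun c _ => hb0 c) ?_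
          rw [Finset.mem_compl, Finset.mem_insert, Finset.mem_singleton, not_or]
          exact ⟨hc, hc'⟩
      · have h3 := main 0 0 (10 * x.rz) v1 r2
        unfold IneqI
        push_cast at h3
        rw [add_zero, zero_mul, zero_mul, zero_mul]
        linarith
      · intro c hc
        obtain ⟨v, hv⟩ := clsOK_get _ _ _ r3 c hc
        obtain ⟨n, hn, h2⟩ := intN_get _ _ hv
        have h3 := main (1000 * c.w) (1000 * c.a) (10 * n) v h2
        unfold IneqI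
        rw [hn]
        push_cast at h3 ⊢
        rw [add_zero, zero_mul]
        have e1 : (1000 * (c.w : ℝ)) / 1000000 = (c.w : ℝ) / 1000 := by ring
        have e2 : (1000 * (c.a : ℝ)) / 1000000 = (c.a : ℝ) / 1000 := by ring
        have e3 : (10 * (n : ℝ)) / 1000000 = (n : ℝ) / 100000 := by ring
        rw [e1, e2, e3] at h3
        linarith

/-- the check of a box without special vertex -/
noncomputable def box2 (V cnt sm : ℕ → ℕ) (w k0 k1 : ℕ) (x : Box) (ls : List (List ℕ)) : Bool :=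
  cond (@List.rec ℕ (fun _ => Bool) true (fun _ _ _ => false) x.q) (cond (Nat.ble x.mx w)
    (pcs (piece2 V cnt sm k0 k1 x) x.H1 ls x.H0) false) false

theorem box2_sound (V cnt sm : ℕ → ℕ) (w k0 k1 : ℕ) (x : Box) (ls : List (List ℕ))
    (hz : Zone w sm) (ht : Tab2 (fun z k => gt (V k) z) cnt w k0 k1) (hw : 0 < w) (hw' : w ≤ 40) (p3 : k1 ≤ 100)
    (hchk : box2 V cnt sm w k0 k1 x ls = true) : PropI x := by
  obtain ⟨h1, hchk⟩ := IA.cond_and hchk
  obtain ⟨h2, hchk⟩ := IA.cond_and hchk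
  rw [Nat.ble_eq] at h2
  have hq : x.q = [] := by
    revert h1
    cases x.q with
    | nil => exact fun _ => rfl
    | cons a l => exact fun h => absurd (show false = true from h) (by simp)
  refine ⟨fun _ => ?_, fun h => absurd hq h⟩
  intro κ _ _ b hb0 hb1 i j hij hi h0 h1 hm S D hS hDe hD
  obtain ⟨H0, H1, l, hp, g0, g1⟩ := pcs_get _ _ _ _ hchk (b j) h0 h1
  exact piece2_sound V cnt sm w k0 k1 x H0 H1 l hz ht hw hw' p3 h2 hp b hb0 hb1 i j hij hi g0 g1 hm S D hS hDe hD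

/-! ### rows with a second special entry -/

/-- the check of one inequality -/
noncomputable def one3 (va vb vc vd k q H0 H1 G0 G1 c0 c1 d0 d1 e0 e1 N Ts Te wN aN p0 p1 rM v : ℕ) : Bool :=
  fn (Nat.mul 200 wN) fun w2 => fn (Nat.mul aN 1000000000) fun aM => fn (Nat.mul p0 1000000000) fun g0 =>
  fn (Nat.mul p1 1000000000) fun g1 => fn rM fun rM =>
  call v fun Js cs => core3 va vb vc vd k q H0 H1 G0 G1 c0 c1 d0 d1 w2 aM g0 g1 rM e0 e1 N Ts Js Te cs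

theorem one3_sound (V : ℕ → ℕ → ℕ) (cnt : ℕ → ℕ) (w k0 k1 q0 q1 k q H0 H1 G0 G1 wN aN p0 p1 rM N Ts Te v : ℕ)
    (ht : Tab3 (fun z k q => gt (V k q) z) cnt w k0 k1 q0 q1) (hw : 0 < w) (hw' : w ≤ 40)
    (u1 : k0 ≤ k) (u2 : k + 1 ≤ k1) (u3 : k1 ≤ 100) (u4 : 2 * k ≤ H0) (u5 : H0 < H1) (u6 : H1 ≤ 2 * (k + 1))
    (u7 : N + 2 ≤ cnt k) (u8 : N + 2 ≤ cnt (k + 1)) (u10 : 1 ≤ H0) (u11 : q0 ≤ q) (u12 : q + 1 ≤ q1)
    (u13 : q1 ≤ 40) (u14 : 5 * q ≤ G0) (u15 : G0 < G1) (u16 : G1 ≤ 5 * (q + 1))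
    (hchk : one3 (V k q) (V k (q + 1)) (V (k + 1) q) (V (k + 1) (q + 1)) k q H0 H1 G0 G1 (cc H0) (cc H1) (dd H0)
      (dd H1) (100 * 10000 * dd H0) (100 * 10000 * dd H1) N Ts Te wN aN p0 p1 rM v = true)
    {κ : Type} [Fintype κ] [DecidableEq κ] (b : κ → ℝ) (hb0 : ∀ c, 0 ≤ b c)
    (i j l : κ) (hij : i ≠ j) (hil : i ≠ l) (hjl : j ≠ l) (hi : b i = 1)
    (h0 : (H0 : ℝ) / 200 < b j) (h1 : b j ≤ (H1 : ℝ) / 200)
    (g0 : (G0 : ℝ) / 200 ≤ b l) (g1 : b l ≤ (G1 : ℝ) / 200)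
    (hm : ∀ c, c ≠ i → c ≠ j → c ≠ l → b c ≤ (w : ℝ) / 40)
    (hS0 : (Ts : ℝ) / 200 ≤ ∑ c ∈ ({i, j, l} : Finset κ)ᶜ, b c)
    (hS1 : ∑ c ∈ ({i, j, l} : Finset κ)ᶜ, b c ≤ (Te : ℝ) / 200)
    (hD : 0 < F b - What (b j + b l + ∑ c ∈ ({i, j, l} : Finset κ)ᶜ, b c)) :
    ((F b - What (b j + b l + ∑ c ∈ ({i, j, l} : Finset κ)ᶜ, b c)) * (4 * b j - b j ^ 2)
      + 4 * (b l + ∑ c ∈ ({i, j, l} : Finset κ)ᶜ, b c)
        * max (F b - What (b j + b l + ∑ c ∈ ({i, j, l} : Finset κ)ᶜ, b c)) (1 / 1000)) / (3 * b j ^ 2)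
      + (wN : ℝ) / 1000000 * F b + (aN : ℝ) / 1000000 * (∑ c ∈ ({i, j, l} : Finset κ)ᶜ, b c)
      + ((p0 : ℝ) + ((p1 : ℝ) - p0) * ((200 * b l - G0) / (G1 - G0))) / 200000000
        ≤ (rM : ℝ) / 200000000000000000 := by
  unfold one3 at hchk
  simp only [fn_eq] at hchk
  obtain ⟨Js, cs, hne, hc⟩ := call_get _ _ hchk
  obtain ⟨c, hcm, x1, x2⟩ := core3_sound V cnt w k0 k1 q0 q1 k q H0 H1 G0 G1 wN aN p0 p1 rM 10000 N Ts Js Te cs
    ht hw hw' u1 u2 u3 u4 u5 u6 u7 u8 u10 u11 u12 u13 u14 u15 u16 hc b hb0 i j l hij hil hjl hi h0 h1 g0 g1 hm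
    hS0 hne hS1
  rcases eq_or_ne c.1 1 with hz | hz
  · have := x1 hz
    linarith
  · have h2 := x2 hz hD
    have e : (((10000 : ℕ) : ℝ) / 10000000) = 1 / 1000 := by norm_num
    rw [e] at h2
    exact h2

/-- the inequality of a class: the linear term of the special entry in nonnegative form -/
noncomputable def clsF (one : ℕ → ℕ → ℕ → ℕ → ℕ → ℕ → Bool) (G0 G1 Gs : ℕ) (c : Cl) (v : ℕ) : Bool :=
  intN c.rt fun r => @Int.rec (fun _ => Bool)
    (fun n => one (Nat.mul 1000 c.w) (Nat.mul 1000 c.a) (Nat.mul (Nat.mul 1000 n) (Nat.sub G0 Gs))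
      (Nat.mul (Nat.mul 1000 n) (Nat.sub G1 Gs)) (Nat.mul r 2000000000000) v)
    (fun n => one (Nat.mul 1000 c.w) (Nat.mul 1000 c.a) (Nat.mul (Nat.mul 1000 (Nat.succ n)) (Nat.sub G1 G0)) 0
      (Nat.add (Nat.mul r 2000000000000) (Nat.mul (Nat.mul (Nat.mul 1000 (Nat.succ n)) (Nat.sub G1 Gs))
        1000000000)) v) c.a2

theorem clsF_sound (one : ℕ → ℕ → ℕ → ℕ → ℕ → ℕ → Bool) (G0 G1 Gs : ℕ) (c : Cl) (v : ℕ) (A Fb S g : ℝ)
    (hG : G0 < G1) (hGs : Gs ≤ G0)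
    (h1 : ∀ wN aN p0 p1 rM v : ℕ, one wN aN p0 p1 rM v = true → A + (wN : ℝ) / 1000000 * Fb
      + (aN : ℝ) / 1000000 * S + ((p0 : ℝ) + ((p1 : ℝ) - p0) * ((200 * g - G0) / (G1 - G0))) / 200000000
        ≤ (rM : ℝ) / 200000000000000000)
    (h : clsF one G0 G1 Gs c v = true) :
    A + (c.w : ℝ) / 1000 * Fb + (c.a : ℝ) / 1000 * S + (c.a2 : ℝ) / 1000 * (g - (Gs : ℝ) / 200)
      ≤ (c.rt : ℝ) / 100000 := by
  obtain ⟨r, hr, h⟩ := intN_get _ _ h
  have hGR : (0 : ℝ) < (G1 : ℝ) - G0 := by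
    have : (G0 : ℝ) < G1 := by exact_mod_cast hG
    linarith
  have e0 : ((Nat.sub G0 Gs : ℕ) : ℝ) = (G0 : ℝ) - Gs := Nat.cast_sub hGs
  have e1 : ((Nat.sub G1 Gs : ℕ) : ℝ) = (G1 : ℝ) - Gs := Nat.cast_sub (by omega)
  have e2 : ((Nat.sub G1 G0 : ℕ) : ℝ) = (G1 : ℝ) - G0 := Nat.cast_sub hG.le
  have ew : (((Nat.mul 1000 c.w : ℕ) : ℝ)) = 1000 * (c.w : ℝ) := by
    show ((1000 * c.w : ℕ) : ℝ) = _
    push_cast; ring
  have ea : (((Nat.mul 1000 c.a : ℕ) : ℝ)) = 1000 * (c.a : ℝ) := by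
    show ((1000 * c.a : ℕ) : ℝ) = _
    push_cast; ring
  set θ : ℝ := (200 * g - G0) / (G1 - G0) with hθ
  have hθ' : θ * ((G1 : ℝ) - G0) = 200 * g - G0 := by
    rw [hθ, div_mul_cancel₀ _ hGR.ne']
  rw [hr]
  cases ha : c.a2 with
  | ofNat n =>
    rw [ha] at h
    have h2 := h1 _ _ _ _ _ _ (show one (Nat.mul 1000 c.w) (Nat.mul 1000 c.a)
      (Nat.mul (Nat.mul 1000 n) (Nat.sub G0 Gs)) (Nat.mul (Nat.mul 1000 n) (Nat.sub G1 Gs))
      (Nat.mul r 2000000000000) v = true from h)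
    have f0 : (((Nat.mul (Nat.mul 1000 n) (Nat.sub G0 Gs) : ℕ)) : ℝ) = 1000 * n * ((G0 : ℝ) - Gs) := by
      rw [← e0]
      show ((1000 * n * Nat.sub G0 Gs : ℕ) : ℝ) = _
      push_cast; ring
    have f1 : (((Nat.mul (Nat.mul 1000 n) (Nat.sub G1 Gs) : ℕ)) : ℝ) = 1000 * n * ((G1 : ℝ) - Gs) := by
      rw [← e1]
      show ((1000 * n * Nat.sub G1 Gs : ℕ) : ℝ) = _
      push_cast; ring
    have f2 : (((Nat.mul r 2000000000000 : ℕ)) : ℝ) = 2000000000000 * (r : ℝ) := by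
      show ((r * 2000000000000 : ℕ) : ℝ) = _
      push_cast; ring
    rw [ew, ea, f0, f1, f2] at h2
    have e3 : 1000 * (n : ℝ) * ((G0 : ℝ) - Gs) + (1000 * n * ((G1 : ℝ) - Gs) - 1000 * n * ((G0 : ℝ) - Gs)) * θ
        = 1000 * n * (200 * g - Gs) := by
      have : 1000 * (n : ℝ) * ((G0 : ℝ) - Gs) + (1000 * n * ((G1 : ℝ) - Gs) - 1000 * n * ((G0 : ℝ) - Gs)) * θ
          = 1000 * n * ((G0 : ℝ) - Gs) + 1000 * n * (θ * ((G1 : ℝ) - G0)) := by ring
      rw [this, hθ']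
      ring
    rw [e3] at h2
    have e4 : (1000 * (c.w : ℝ)) / 1000000 = (c.w : ℝ) / 1000 := by ring
    have e5 : (1000 * (c.a : ℝ)) / 1000000 = (c.a : ℝ) / 1000 := by ring
    have e6 : 1000 * (n : ℝ) * (200 * g - Gs) / 200000000 = (n : ℝ) / 1000 * (g - (Gs : ℝ) / 200) := by ring
    have e7 : 2000000000000 * (r : ℝ) / 200000000000000000 = (r : ℝ) / 100000 := by ring
    rw [e4, e5, e6, e7] at h2
    have e8 : ((Int.ofNat n : ℤ) : ℝ) = (n : ℝ) := by simp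
    rw [e8, Int.cast_natCast]
    exact h2
  | negSucc n =>
    rw [ha] at h
    have h2 := h1 _ _ _ _ _ _ (show one (Nat.mul 1000 c.w) (Nat.mul 1000 c.a)
      (Nat.mul (Nat.mul 1000 (Nat.succ n)) (Nat.sub G1 G0)) 0
      (Nat.add (Nat.mul r 2000000000000) (Nat.mul (Nat.mul (Nat.mul 1000 (Nat.succ n)) (Nat.sub G1 Gs))
        1000000000)) v = true from h)
    have f0 : (((Nat.mul (Nat.mul 1000 (Nat.succ n)) (Nat.sub G1 G0) : ℕ)) : ℝ)
        = 1000 * ((n : ℝ) + 1) * ((G1 : ℝ) - G0) := by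
      rw [← e2]
      show ((1000 * (n + 1) * Nat.sub G1 G0 : ℕ) : ℝ) = _
      push_cast; ring
    have f2 : (((Nat.add (Nat.mul r 2000000000000) (Nat.mul (Nat.mul (Nat.mul 1000 (Nat.succ n)) (Nat.sub G1 Gs))
        1000000000) : ℕ)) : ℝ) = 2000000000000 * (r : ℝ) + 1000 * ((n : ℝ) + 1) * ((G1 : ℝ) - Gs) * 1000000000 := by
      rw [← e1]
      show ((r * 2000000000000 + 1000 * (n + 1) * Nat.sub G1 Gs * 1000000000 : ℕ) : ℝ) = _
      push_cast; ring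
    rw [ew, ea, f0, f2, Nat.cast_zero] at h2
    have e3 : 1000 * ((n : ℝ) + 1) * ((G1 : ℝ) - G0) + (0 - 1000 * ((n : ℝ) + 1) * ((G1 : ℝ) - G0)) * θ
        = 1000 * ((n : ℝ) + 1) * (G1 - 200 * g) := by
      have : 1000 * ((n : ℝ) + 1) * ((G1 : ℝ) - G0) + (0 - 1000 * ((n : ℝ) + 1) * ((G1 : ℝ) - G0)) * θ
          = 1000 * ((n : ℝ) + 1) * (((G1 : ℝ) - G0) - θ * ((G1 : ℝ) - G0)) := by ring
      rw [this, hθ']
      ring
    rw [e3] at h2
    have e4 : (1000 * (c.w : ℝ)) / 1000000 = (c.w : ℝ) / 1000 := by ring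
    have e5 : (1000 * (c.a : ℝ)) / 1000000 = (c.a : ℝ) / 1000 := by ring
    rw [e4, e5] at h2
    have e8 : ((Int.negSucc n : ℤ) : ℝ) = -((n : ℝ) + 1) := by
      rw [Int.cast_negSucc]
      push_cast
      ring
    rw [e8, Int.cast_natCast]
    linarith

lemma sum_pair {κ : Type} [Fintype κ] [DecidableEq κ] (b : κ → ℝ) (i j l : κ) (hil : i ≠ l) (hjl : j ≠ l) :
    ∑ c ∈ ({i, j} : Finset κ)ᶜ, b c = b l + ∑ c ∈ ({i, j, l} : Finset κ)ᶜ, b c := by
  have h1 : ({i, j} : Finset κ)ᶜ = insert l (({i, j, l} : Finset κ)ᶜ) := by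
    ext c
    simp only [Finset.mem_compl, Finset.mem_insert, Finset.mem_singleton, not_or]
    constructor
    · rintro ⟨h1, h2⟩
      rcases eq_or_ne c l with h3 | h3
      · exact Or.inl h3
      · exact Or.inr ⟨h1, h2, h3⟩
    · rintro (rfl | ⟨h1, h2, _⟩)
      · exact ⟨hil.symm, hjl.symm⟩
      · exact ⟨h1, h2⟩
  rw [h1, Finset.sum_insert (by simp)]

/-- the check of a piece of a box -/
noncomputable def piece3 (V : ℕ → ℕ → ℕ) (cnt sm : ℕ → ℕ) (k0 k1 Q : ℕ) (x : Box) (H0 H1 : ℕ) (l : List ℕ) :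
    Bool :=
  fn (Nat.mul 5 Q) fun G0 => fn (Nat.add G0 5) fun G1 => fn (Nat.mul 5 x.slo) fun Gs =>
  fn (Nat.div H0 2) fun k => fn (sm (Nat.div H0 4)) fun sx0 =>
  cond (Nat.ble 60 H0) (cond (Nat.ble H1 200) (cond (Nat.ble (Nat.succ H0) H1)
   (cond (Nat.ble H1 (Nat.mul 2 (Nat.succ k))) (cond (Nat.ble x.slo Q) (cond (Nat.ble (Nat.succ Q) x.shi)
    (cond (Nat.ble sx0 G0) true
   (fn (cnt k) fun n0 => fn (cnt (Nat.succ k)) fun n1 => fn (Nat.sub (cond (Nat.ble n0 n1) n0 n1) 2) fun N =>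
    fn (Nat.sub sx0 G0) fun sx =>
    cond (Nat.ble k0 k) (cond (Nat.ble (Nat.succ k) k1) (cond (Nat.ble (Nat.mul 2 k) H0)
     (cond (Nat.ble (Nat.add N 2) n0) (cond (Nat.ble (Nat.add N 2) n1)
   (fn (V k Q) fun va => fn (V k (Nat.succ Q)) fun vb => fn (V (Nat.succ k) Q) fun vc =>
    fn (V (Nat.succ k) (Nat.succ Q)) fun vd => fn (cc H0) fun c0 => fn (cc H1) fun c1 =>
    fn (dd H0) fun d0 => fn (dd H1) fun d1 =>
    fn (Nat.mul (Nat.mul 100 10000) d0) fun e0 => fn (Nat.mul (Nat.mul 100 10000) d1) fun e1 =>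
    @List.rec ℕ (fun _ => Bool) false (fun v0 l _ =>
      cond (cond (Nat.ble (Nat.mul 5 x.shi) x.so) true (cond (Nat.ble sx x.so) true
         (one3 va vb vc vd k Q H0 H1 G0 G1 c0 c1 d0 d1 e0 e1 N x.so sx 0 0 0 0 0 v0)))
       (fn (cond (Nat.ble (Nat.mul 5 x.shi) x.so) sx (cond (Nat.ble sx x.so) sx x.so)) fun Te =>
        @List.rec ℕ (fun _ => Bool) false (fun v1 l _ =>
          cond (one3 va vb vc vd k Q H0 H1 G0 G1 c0 c1 d0 d1 e0 e1 N 0 Te 0 0 0 0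
            (Nat.mul x.rz 2000000000000) v1)
           (clsOK (fun c v => clsF (one3 va vb vc vd k Q H0 H1 G0 G1 c0 c1 d0 d1 e0 e1 N 0 Te) G0 G1 Gs c v)
            x.cls l) false) l) false) l)
    false) false) false) false) false)) false) false) false) false) false) false

theorem piece3_sound (V : ℕ → ℕ → ℕ) (cnt sm : ℕ → ℕ) (k0 k1 Q : ℕ) (x : Box) (H0 H1 : ℕ) (l' : List ℕ)
    (hz : Zone 12 sm) (ht : Tab3 (fun z k q => gt (V k q) z) cnt (Q + 1) k0 k1 Q (Q + 1)) (hQ : Q + 1 ≤ 12)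
    (u3 : k1 ≤ 100) (hchk : piece3 V cnt sm k0 k1 Q x H0 H1 l' = true)
    {κ : Type} [Fintype κ] [DecidableEq κ] (b : κ → ℝ) (hb0 : ∀ c, 0 ≤ b c) (hb1 : ∀ c, b c ≤ 1)
    (i j l : κ) (hij : i ≠ j) (hil : i ≠ l) (hjl : j ≠ l) (hi : b i = 1)
    (h0 : (H0 : ℝ) / 200 < b j) (h1 : b j ≤ (H1 : ℝ) / 200)
    (g0 : (Q : ℝ) / 40 ≤ b l) (g1 : b l ≤ ((Q : ℝ) + 1) / 40)
    (hm : ∀ c, c ≠ i → c ≠ j → c ≠ l → b c ≤ b l)
    (S D : ℝ) (hS : S = ∑ c ∈ ({i, j, l} : Finset κ)ᶜ, b c) (hDe : D = F b - What (b j + b l + S)) (hD : 0 < D) :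
    (∀ c, c ≠ i → c ≠ j → c ≠ l → b c ≤ (x.so : ℝ) / 200) ∧
      IneqI x 0 0 0 ((x.rz : ℝ) / 100000) D (F b) (b j) S (b l) ∧
      ∀ c ∈ x.cls, IneqI x ((c.w : ℝ) / 1000) ((c.a : ℝ) / 1000) ((c.a2 : ℝ) / 1000)
        ((c.rt : ℝ) / 100000) D (F b) (b j) S (b l) := by
  unfold piece3 at hchk
  simp only [fn_eq] at hchk
  obtain ⟨q1, hchk⟩ := IA.cond_and hchk
  obtain ⟨q2, hchk⟩ := IA.cond_and hchk
  obtain ⟨q3, hchk⟩ := IA.cond_and hchk
  obtain ⟨q4, hchk⟩ := IA.cond_and hchk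
  obtain ⟨q5, hchk⟩ := IA.cond_and hchk
  obtain ⟨q6, hchk⟩ := IA.cond_and hchk
  rw [Nat.ble_eq] at q1 q2 q3 q4 q5 q6
  simp only [Nat.succ_eq_add_one, Nat.add_eq, Nat.mul_eq] at q3 q4 q6
  have hk0 : Nat.div H0 2 = H0 / 2 := rfl
  set k := Nat.div H0 2 with hk
  have hQR : (Q : ℝ) + 1 ≤ 12 := by exact_mod_cast hQ
  have hmW : ∀ c, c ≠ i → c ≠ j → c ≠ l → b c ≤ ((Q + 1 : ℕ) : ℝ) / 40 := by
    intro c hc hc' hc''
    push_cast
    exact (hm c hc hc' hc'').trans g1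
  have hm12 : ∀ c, c ≠ i → c ≠ j → b c ≤ ((12 : ℕ) : ℝ) / 40 := by
    intro c hc hc'
    push_cast
    rcases eq_or_ne c l with rfl | hc''
    · linarith
    · have := hm c hc hc' hc''
      linarith
  have hbj0 : 0 < b j := lt_of_le_of_lt (by positivity) h0
  have hbl0 : 0 ≤ b l := hb0 l
  have hSn : 0 ≤ S := by rw [hS]; exact Finset.sum_nonneg fun c _ => hb0 c
  have hD' : 0 < F b - What (b j + b l + ∑ c ∈ ({i, j, l} : Finset κ)ᶜ, b c) := by rw [← hS, ← hDe]; exact hD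
  -- the threshold
  have hkb : Nat.div H0 4 = H0 / 4 := rfl
  have hzb := hz κ b hb0 hb1 i j hij hi (Nat.div H0 4) (by rw [hkb]; omega) (by rw [hkb]; omega) (by
      have : 4 * (H0 / 4) ≤ H0 := Nat.mul_div_le H0 4
      have hR : 4 * ((Nat.div H0 4 : ℕ) : ℝ) ≤ H0 := by exact_mod_cast this
      linarith) (by
      have : H1 ≤ 4 * (H0 / 4 + 1) := by omega
      have hR : (H1 : ℝ) ≤ 4 * (((Nat.div H0 4 : ℕ) : ℝ) + 1) := by exact_mod_cast this
      linarith) hm12 (by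
      rw [sum_pair b i j l hil hjl, ← hS, ← add_assoc]
      linarith)
  rw [sum_pair b i j l hil hjl, ← hS] at hzb
  generalize sm (Nat.div H0 4) = sx0 at hzb hchk
  have hG0 : ((Nat.mul 5 Q : ℕ) : ℝ) = 5 * Q := by
    show ((5 * Q : ℕ) : ℝ) = _
    push_cast; ring
  have hG1 : ((Nat.add (Nat.mul 5 Q) 5 : ℕ) : ℝ) = 5 * Q + 5 := by
    show ((5 * Q + 5 : ℕ) : ℝ) = _
    push_cast; ring
  rcases Nat.lt_or_ge (Nat.mul 5 Q) sx0 with h7 | h7
  swap
  · exfalso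
    have h8 : (sx0 : ℝ) ≤ 5 * Q := by rw [← hG0]; exact_mod_cast h7
    linarith
  have b7 : Nat.ble sx0 (Nat.mul 5 Q) = false := by
    rw [← Bool.not_eq_true, Nat.ble_eq]
    exact not_le.mpr h7
  rw [b7, cond_false] at hchk
  have hzb' : S < ((Nat.sub sx0 (Nat.mul 5 Q) : ℕ) : ℝ) / 200 := by
    have e : ((Nat.sub sx0 (Nat.mul 5 Q) : ℕ) : ℝ) = (sx0 : ℝ) - ((Nat.mul 5 Q : ℕ) : ℝ) := Nat.cast_sub h7.le
    rw [e, hG0]
    linarith
  generalize Nat.sub sx0 (Nat.mul 5 Q) = sx at hzb' hchk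
  generalize Nat.sub (cond (Nat.ble (cnt k) (cnt (Nat.succ k))) (cnt k) (cnt (Nat.succ k))) 2 = N at hchk
  obtain ⟨w1, hchk⟩ := IA.cond_and hchk
  obtain ⟨w2, hchk⟩ := IA.cond_and hchk
  obtain ⟨w3, hchk⟩ := IA.cond_and hchk
  obtain ⟨w4, hchk⟩ := IA.cond_and hchk
  obtain ⟨w5, hchk⟩ := IA.cond_and hchk
  rw [Nat.ble_eq] at w1 w2 w3 w4 w5
  simp only [Nat.succ_eq_add_one, Nat.add_eq, Nat.mul_eq] at w2 w3 w4 w5
  have hgg0 : ((Nat.mul 5 Q : ℕ) : ℝ) / 200 ≤ b l := by rw [hG0]; linarith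
  have hgg1 : b l ≤ ((Nat.add (Nat.mul 5 Q) 5 : ℕ) : ℝ) / 200 := by rw [hG1]; linarith
  have gen : ∀ (Ts Te wN aN p0 p1 rM v : ℕ), one3 (V k Q) (V k (Q + 1)) (V (k + 1) Q) (V (k + 1) (Q + 1)) k Q H0 H1
      (Nat.mul 5 Q) (Nat.add (Nat.mul 5 Q) 5) (cc H0) (cc H1) (dd H0) (dd H1)
      (100 * 10000 * dd H0) (100 * 10000 * dd H1) N Ts Te wN aN p0 p1 rM v = true →
      (Ts : ℝ) / 200 ≤ S → S ≤ (Te : ℝ) / 200 →
      (D * (4 * b j - b j ^ 2) + 4 * (b l + S) * max D (1 / 1000)) / (3 * b j ^ 2)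
        + (wN : ℝ) / 1000000 * F b + (aN : ℝ) / 1000000 * S
        + ((p0 : ℝ) + ((p1 : ℝ) - p0) * ((200 * b l - (Nat.mul 5 Q : ℕ)) / (((Nat.add (Nat.mul 5 Q) 5 : ℕ) : ℝ)
          - (Nat.mul 5 Q : ℕ)))) / 200000000 ≤ (rM : ℝ) / 200000000000000000 := by
    intro Ts Te wN aN p0 p1 rM v hv hs0 hs1
    have h2 := one3_sound V cnt (Q + 1) k0 k1 Q (Q + 1) k Q H0 H1 (Nat.mul 5 Q) (Nat.add (Nat.mul 5 Q) 5)
      wN aN p0 p1 rM N Ts Te v ht (by omega) (by omega) w1 w2 u3 w3 q3 q4 w4 w5 (by omega) le_rfl le_rfl (by omega)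
      (by simp only [Nat.mul_eq]; omega) (by simp only [Nat.mul_eq, Nat.add_eq]; omega)
      (by simp only [Nat.mul_eq, Nat.add_eq]; omega) hv b hb0 i j l hij hil hjl hi h0 h1 hgg0 hgg1
      hmW (by rw [← hS]; exact hs0) (by rw [← hS]; exact hs1) hD'
    rw [← hS, ← hDe] at h2
    exact h2
  cases l' with
  | nil => exact absurd (show false = true from hchk) (by simp)
  | cons v0 l' =>
    obtain ⟨r1, hchk⟩ := IA.cond_and hchk
    cases l' with
    | nil => exact absurd (show false = true from hchk) (by simp)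
    | cons v1 l' =>
      obtain ⟨r2, r3⟩ := IA.cond_and hchk
      have hso : 5 * x.shi ≤ x.so ∨ S ≤ (x.so : ℝ) / 200 := by
        rcases Nat.lt_or_ge x.so (5 * x.shi) with h5 | h5
        · right
          have b5 : Nat.ble (Nat.mul 5 x.shi) x.so = false := by
            rw [← Bool.not_eq_true, Nat.ble_eq]
            exact not_le.mpr h5
          rw [b5, cond_false] at r1
          rcases Nat.lt_or_ge x.so sx with h6 | h6
          · have b6 : Nat.ble sx x.so = false := by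
              rw [← Bool.not_eq_true, Nat.ble_eq]
              exact not_le.mpr h6
            rw [b6, cond_false] at r1
            by_contra hc
            push Not at hc
            have hne := gen x.so sx 0 0 0 0 0 v0 r1 hc.le hzb'.le
            have hpos := need_pos D (b j) (b l + S) (1 / 1000) hD hbj0 (hb1 j) (by linarith)
            simp only [Nat.cast_zero, zero_div, zero_mul, sub_self, add_zero] at hne
            linarith
          · have : (sx : ℝ) ≤ x.so := by exact_mod_cast h6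
            linarith
        · left
          exact h5
      have hTe : S ≤ ((cond (Nat.ble (Nat.mul 5 x.shi) x.so) sx (cond (Nat.ble sx x.so) sx x.so) : ℕ) : ℝ) / 200 := by
        rcases hso with h5 | h5
        · have b5 : Nat.ble (Nat.mul 5 x.shi) x.so = true := by rw [Nat.ble_eq]; exact h5
          rw [b5, cond_true]
          exact hzb'.le
        · cases Nat.ble (Nat.mul 5 x.shi) x.so with
          | true => exact hzb'.le
          | false =>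
            rw [cond_false]
            cases Nat.ble sx x.so with
            | true => exact hzb'.le
            | false => exact h5
      generalize (cond (Nat.ble (Nat.mul 5 x.shi) x.so) sx (cond (Nat.ble sx x.so) sx x.so)) = Te at hTe r2 r3
      have hS0 : ((0 : ℕ) : ℝ) / 200 ≤ S := by rw [Nat.cast_zero, zero_div]; exact hSn
      refine ⟨?_, ?_, ?_⟩
      · intro c hc hc' hc''
        rcases hso with h5 | h5
        · have h6 : (5 : ℝ) * x.shi ≤ x.so := by exact_mod_cast h5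
          have h7 := hm c hc hc' hc''
          have h8 : (Q : ℝ) + 1 ≤ x.shi := by exact_mod_cast q6
          linarith
        · refine le_trans ?_ h5
          rw [hS]
          refine Finset.single_le_sum (f := b) (fun c _ => hb0 c) ?_
          rw [Finset.mem_compl, Finset.mem_insert, Finset.mem_insert, Finset.mem_singleton, not_or, not_or]
          exact ⟨hc, hc', hc''⟩
      · have h3 := gen 0 Te 0 0 0 0 (Nat.mul x.rz 2000000000000) v1 r2 hS0 hTe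
        have f2 : (((Nat.mul x.rz 2000000000000 : ℕ)) : ℝ) = 2000000000000 * (x.rz : ℝ) := by
          show ((x.rz * 2000000000000 : ℕ) : ℝ) = _
          push_cast; ring
        simp only [f2, Nat.cast_zero, zero_div, zero_mul, sub_self, add_zero] at h3
        unfold IneqI
        rw [add_comm S (b l), zero_mul, zero_mul, zero_mul]
        linarith
      · intro c hc
        obtain ⟨v, hv⟩ := clsOK_get _ _ _ r3 c hc
        have h3 := clsF_sound _ (Nat.mul 5 Q) (Nat.add (Nat.mul 5 Q) 5) (Nat.mul 5 x.slo) c v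
          ((D * (4 * b j - b j ^ 2) + 4 * (b l + S) * max D (1 / 1000)) / (3 * b j ^ 2)) (F b) S (b l)
          (by simp only [Nat.mul_eq, Nat.add_eq]; omega) (by simp only [Nat.mul_eq]; omega)
          (fun wN aN p0 p1 rM v h => gen 0 Te wN aN p0 p1 rM v h hS0 hTe) hv
        have f3 : ((Nat.mul 5 x.slo : ℕ) : ℝ) / 200 = (x.slo : ℝ) / 40 := by
          have : ((Nat.mul 5 x.slo : ℕ) : ℝ) = 5 * x.slo := by
            show ((5 * x.slo : ℕ) : ℝ) = _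
            push_cast; ring
          rw [this]; ring
        rw [f3] at h3
        unfold IneqI
        rw [add_comm S (b l)]
        exact h3

/-- the slots `[Q/40, (Q+1)/40]` -/
noncomputable def slots (f : ℕ → List (List ℕ) → Bool) (Qe : ℕ) (ls : List (List (List ℕ))) : ℕ → Bool :=
  @List.rec (List (List ℕ)) (fun _ => ℕ → Bool) (fun Q => Nat.ble Qe Q)
    (fun l _ ih Q => cond (f Q l) (fn (Nat.succ Q) fun Q => ih Q) false) ls

theorem slots_get (f : ℕ → List (List ℕ) → Bool) (Qe : ℕ) (ls : List (List (List ℕ))) : ∀ Q : ℕ,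
    slots f Qe ls Q = true → ∀ g : ℝ, (Q : ℝ) / 40 ≤ g → (Q < Qe ∨ (Q : ℝ) / 40 < g) → g ≤ (Qe : ℝ) / 40 →
    ∃ Q' l, f Q' l = true ∧ (Q' : ℝ) / 40 ≤ g ∧ g ≤ ((Q' : ℝ) + 1) / 40 := by
  induction ls with
  | nil =>
    intro Q hc g h0 h0' h1
    have h2 : Nat.ble Qe Q = true := hc
    rw [Nat.ble_eq] at h2
    have h3 : (Qe : ℝ) ≤ Q := by exact_mod_cast h2
    rcases h0' with h0' | h0'
    · omega
    · exact absurd (lt_of_lt_of_le h0' h1) (by push Not; linarith)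
  | cons l ls ih =>
    intro Q hc g h0 h0' h1
    have h2 : cond (f Q l) (fn (Nat.succ Q) fun Q => slots f Qe ls Q) false = true := hc
    obtain ⟨h3, h4⟩ := IA.cond_and h2
    rw [fn_eq] at h4
    rcases le_or_gt g (((Q : ℝ) + 1) / 40) with hg | hg
    · exact ⟨Q, l, h3, h0, hg⟩
    · have e : ((Nat.succ Q : ℕ) : ℝ) / 40 = ((Q : ℝ) + 1) / 40 := by push_cast; ring
      exact ih _ h4 g (by rw [e]; exact hg.le) (Or.inr (by rw [e]; exact hg)) h1

/-- the check of a box with a special vertex -/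
noncomputable def box3 (V : ℕ → ℕ → ℕ → ℕ) (cnt : ℕ → ℕ → ℕ) (sm : ℕ → ℕ) (k0 k1 Qa Qb : ℕ) (x : Box)
    (ls : List (List (List ℕ))) : Bool :=
  cond (@List.rec ℕ (fun _ => Bool) false (fun _ _ _ => true) x.q) (cond (Nat.ble (Nat.succ x.slo) x.shi)
    (slots (fun Q l => cond (Nat.ble Qa Q) (cond (Nat.ble Q Qb)
      (pcs (piece3 (V Q) (cnt Q) sm k0 k1 Q x) x.H1 l x.H0) false) false) x.shi ls x.slo) false) false

theorem box3_sound (V : ℕ → ℕ → ℕ → ℕ) (cnt : ℕ → ℕ → ℕ) (sm : ℕ → ℕ) (k0 k1 Qa Qb : ℕ) (x : Box)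
    (ls : List (List (List ℕ))) (hz : Zone 12 sm)
    (ht : ∀ Q, Qa ≤ Q → Q ≤ Qb → Tab3 (fun z k q => gt (V Q k q) z) (cnt Q) (Q + 1) k0 k1 Q (Q + 1))
    (hQb : Qb + 1 ≤ 12) (u3 : k1 ≤ 100) (hchk : box3 V cnt sm k0 k1 Qa Qb x ls = true) : PropI x := by
  obtain ⟨h1, hchk⟩ := IA.cond_and hchk
  obtain ⟨h2, hchk⟩ := IA.cond_and hchk
  rw [Nat.ble_eq] at h2
  have hq : x.q ≠ [] := by
    intro h
    rw [h] at h1
    exact absurd (show false = true from h1) (by simp)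
  refine ⟨fun h => absurd h hq, fun _ => ?_⟩
  intro κ _ _ b hb0 hb1 i j l hij hil hjl hi h0 h1' g0 g1 hm S D hS hDe hD
  obtain ⟨Q, ll, hs, e0, e1⟩ := slots_get _ _ _ _ hchk (b l) g0 (Or.inl h2) g1
  obtain ⟨hQa, hs⟩ := IA.cond_and hs
  obtain ⟨hQb', hs⟩ := IA.cond_and hs
  rw [Nat.ble_eq] at hQa hQb'
  obtain ⟨H0, H1, l', hp, f0, f1⟩ := pcs_get _ _ _ _ hs (b j) h0 h1'
  exact piece3_sound (V Q) (cnt Q) sm k0 k1 Q x H0 H1 l' hz (ht Q hQa hQb') (by omega) u3 hp b hb0 hb1 i j l hij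
    hil hjl hi f0 f1 e0 e1 hm S D hS hDe hD

end CI
end Fr
end Pool.Agent.Lib.MP_6947cd_al
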