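import Pool.Agent.Lib.MP_6947cd_al.L.BoxB
import Pool.Agent.Lib.MP_6947cd_al.L.PropIC
import Pool.Agent.Lib.MP_6947cd_al.L.ZoneL

/-!
Problem MP_6947cd_al (Chollet).  CASE B, part (I): the checker for the boxes with second entry in
`[12/40, 18/40]` and all rests at most `3/10`.
-/

set_option autoImplicit false
open Finset

namespace Pool.Agent.Lib.MP_6947cd_al
namespace Fr
namespace IB

open Ent WT RT RI TZ RG G3 RH CA CB CI IA.F

/-- the check of a piece of a box -/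
noncomputable def piece4 (V : ℕ → ℕ → ℕ) (cnt : ℕ → ℕ) (k0 k1 Q : ℕ) (x : Box) (H0 H1 : ℕ) (l : List ℕ) :
    Bool :=
  fn (Nat.mul 5 Q) fun G0 => fn (Nat.add G0 5) fun G1 => fn (Nat.mul 5 x.slo) fun Gs =>
  fn (Nat.div H0 2) fun k => fn (Nat.mul 5 (ZL.z0 (Nat.div H0 4))) fun sx =>
  cond (Nat.ble 60 H0) (cond (Nat.ble H1 200) (cond (Nat.ble (Nat.succ H0) H1)
   (cond (Nat.ble H1 (Nat.mul 2 (Nat.succ k))) (cond (Nat.ble x.slo Q) (cond (Nat.ble (Nat.succ Q) x.shi)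
   (cond (Nat.ble x.mx 12)
   (fn (cnt k) fun n0 => fn (cnt (Nat.succ k)) fun n1 => fn (Nat.sub (cond (Nat.ble n0 n1) n0 n1) 2) fun N =>
    cond (Nat.ble k0 k) (cond (Nat.ble (Nat.succ k) k1) (cond (Nat.ble (Nat.mul 2 k) H0)
     (cond (Nat.ble (Nat.add N 2) n0) (cond (Nat.ble (Nat.add N 2) n1)
   (fn (V k Q) fun va => fn (V k (Nat.succ Q)) fun vb => fn (V (Nat.succ k) Q) fun vc =>
    fn (V (Nat.succ k) (Nat.succ Q)) fun vd => fn (cc H0) fun c0 => fn (cc H1) fun c1 =>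
    fn (dd H0) fun d0 => fn (dd H1) fun d1 =>
    fn (Nat.mul (Nat.mul 100 10000) d0) fun e0 => fn (Nat.mul (Nat.mul 100 10000) d1) fun e1 =>
    @List.rec ℕ (fun _ => Bool) false (fun v0 l _ =>
      cond (cond (Nat.ble (Nat.mul 5 x.mx) x.so) true (cond (Nat.ble sx x.so) true
         (one3 va vb vc vd k Q H0 H1 G0 G1 c0 c1 d0 d1 e0 e1 N x.so sx 0 0 0 0 0 v0)))
       (fn (cond (Nat.ble (Nat.mul 5 x.mx) x.so) sx (cond (Nat.ble sx x.so) sx x.so)) fun Te =>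
        @List.rec ℕ (fun _ => Bool) false (fun v1 l _ =>
          cond (one3 va vb vc vd k Q H0 H1 G0 G1 c0 c1 d0 d1 e0 e1 N 0 Te 0 0 0 0
            (Nat.mul x.rz 2000000000000) v1)
           (clsOK (fun c v => clsF (one3 va vb vc vd k Q H0 H1 G0 G1 c0 c1 d0 d1 e0 e1 N 0 Te) G0 G1 Gs c v)
            x.cls l) false) l) false) l)
    false) false) false) false) false) false) false) false) false) false) false) false

theorem piece4_sound (V : ℕ → ℕ → ℕ) (cnt : ℕ → ℕ) (k0 k1 q0 q1 Q : ℕ) (x : Box) (H0 H1 : ℕ) (l' : List ℕ)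
    (ht : Tab3 (fun z k q => gt (V k q) z) cnt 12 k0 k1 q0 q1) (hQ0 : 12 ≤ Q) (hQ : Q + 1 ≤ 18)
    (hq0 : q0 ≤ Q) (hq1 : Q + 1 ≤ q1) (hq40 : q1 ≤ 40)
    (u3 : k1 ≤ 100) (hchk : piece4 V cnt k0 k1 Q x H0 H1 l' = true)
    {κ : Type} [Fintype κ] [DecidableEq κ] (b : κ → ℝ) (hb0 : ∀ c, 0 ≤ b c) (hb1 : ∀ c, b c ≤ 1)
    (i j l : κ) (hij : i ≠ j) (hil : i ≠ l) (hjl : j ≠ l) (hi : b i = 1)
    (h0 : (H0 : ℝ) / 200 < b j) (h1 : b j ≤ (H1 : ℝ) / 200)
    (g0 : (Q : ℝ) / 40 ≤ b l) (g1 : b l ≤ ((Q : ℝ) + 1) / 40)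
    (hm : ∀ c, c ≠ i → c ≠ j → c ≠ l → b c ≤ (x.mx : ℝ) / 40)
    (S D : ℝ) (hS : S = ∑ c ∈ ({i, j, l} : Finset κ)ᶜ, b c) (hDe : D = F b - What (b j + b l + S)) (hD : 0 < D) :
    (∀ c, c ≠ i → c ≠ j → c ≠ l → b c ≤ (x.so : ℝ) / 200) ∧
      IneqI x 0 0 0 ((x.rz : ℝ) / 100000) D (F b) (b j) S (b l) ∧
      ∀ c ∈ x.cls, IneqI x ((c.w : ℝ) / 1000) ((c.a : ℝ) / 1000) ((c.a2 : ℝ) / 1000)
        ((c.rt : ℝ) / 100000) D (F b) (b j) S (b l) := by
  unfold piece4 at hchk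
  simp only [fn_eq] at hchk
  obtain ⟨q1', hchk⟩ := IA.cond_and hchk
  obtain ⟨q2, hchk⟩ := IA.cond_and hchk
  obtain ⟨q3, hchk⟩ := IA.cond_and hchk
  obtain ⟨q4, hchk⟩ := IA.cond_and hchk
  obtain ⟨q5, hchk⟩ := IA.cond_and hchk
  obtain ⟨q6, hchk⟩ := IA.cond_and hchk
  obtain ⟨q7, hchk⟩ := IA.cond_and hchk
  rw [Nat.ble_eq] at q1' q2 q3 q4 q5 q6 q7
  simp only [Nat.succ_eq_add_one, Nat.add_eq, Nat.mul_eq] at q3 q4 q6
  have hk0 : Nat.div H0 2 = H0 / 2 := rfl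
  set k := Nat.div H0 2 with hk
  have hQR : (Q : ℝ) + 1 ≤ 18 := by exact_mod_cast hQ
  have hQR0 : (12 : ℝ) ≤ Q := by exact_mod_cast hQ0
  have hmxR : (x.mx : ℝ) ≤ 12 := by exact_mod_cast q7
  have hmW : ∀ c, c ≠ i → c ≠ j → c ≠ l → b c ≤ ((12 : ℕ) : ℝ) / 40 := by
    intro c hc hc' hc''
    push_cast
    have := hm c hc hc' hc''
    linarith
  have hbj0 : 0 < b j := lt_of_le_of_lt (by positivity) h0
  have hbl0 : 0 ≤ b l := hb0 l
  have hSn : 0 ≤ S := by rw [hS]; exact Finset.sum_nonneg fun c _ => hb0 c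
  have hD' : 0 < F b - What (b j + b l + ∑ c ∈ ({i, j, l} : Finset κ)ᶜ, b c) := by rw [← hS, ← hDe]; exact hD
  -- the threshold
  have hkb : Nat.div H0 4 = H0 / 4 := rfl
  have hzb := ZL.S_lt_L (Nat.div H0 4) (by rw [hkb]; omega) (by rw [hkb]; omega) b hb0 hb1 i j l hij hil hjl hi (by
      have : 4 * (H0 / 4) ≤ H0 := Nat.mul_div_le H0 4
      have hR : 4 * ((Nat.div H0 4 : ℕ) : ℝ) ≤ H0 := by exact_mod_cast this
      linarith) (by
      have : H1 ≤ 4 * (H0 / 4 + 1) := by omega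
      have hR : (H1 : ℝ) ≤ 4 * (((Nat.div H0 4 : ℕ) : ℝ) + 1) := by exact_mod_cast this
      linarith) (by linarith) (by linarith) (fun c hc hc' hc'' => (hmW c hc hc' hc'').trans (by norm_num))
      (by linarith)
  rw [← hS] at hzb
  have hzb' : S < ((Nat.mul 5 (ZL.z0 (Nat.div H0 4)) : ℕ) : ℝ) / 200 := by
    have e : ((Nat.mul 5 (ZL.z0 (Nat.div H0 4)) : ℕ) : ℝ) = 5 * (ZL.z0 (Nat.div H0 4) : ℝ) := by
      show ((5 * ZL.z0 (Nat.div H0 4) : ℕ) : ℝ) = _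
      push_cast; ring
    rw [e]
    linarith
  generalize Nat.mul 5 (ZL.z0 (Nat.div H0 4)) = sx at hzb' hchk
  have hG0 : ((Nat.mul 5 Q : ℕ) : ℝ) = 5 * Q := by
    show ((5 * Q : ℕ) : ℝ) = _
    push_cast; ring
  have hG1 : ((Nat.add (Nat.mul 5 Q) 5 : ℕ) : ℝ) = 5 * Q + 5 := by
    show ((5 * Q + 5 : ℕ) : ℝ) = _
    push_cast; ring
  generalize Nat.sub (cond (Nat.ble (cnt k) (cnt (Nat.succ k))) (cnt k) (cnt (Nat.succ k))) 2 = N at hchk
  obtain ⟨w1, hchk⟩ := IA.cond_and hchk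
  obtain ⟨w2, hchk⟩ := IA.cond_and hchk
  obtain ⟨w3, hchk⟩ := IA.cond_and hchk
  obtain ⟨w4, hchk⟩ := IA.cond_and hchk
  obtain ⟨w5, hchk⟩ := IA.cond_and hchk
  rw [Nat.ble_eq] at w1 w2 w3 w4 w5
  simp only [Nat.succ_eq_add_one, Nat.add_eq, Nat.mul_eq] at w2 w3 w4 w5
  have hgg0 : ((Nat.mul 5 Q : ℕ) : ℝ) / 200 ≤ b l := by rw [hG0]; linarith
  have hgg1 : b l ≤ ((Nat.add (Nat.mul 5 Q) 5 : ℕ) : ℝ) / 200 := by rw [hG1]; linarith
  have gen : ∀ (Ts Te wN aN p0 p1 rM v : ℕ), one3 (V k Q) (V k (Q + 1)) (V (k + 1) Q) (V (k + 1) (Q + 1)) k Q H0 H1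
      (Nat.mul 5 Q) (Nat.add (Nat.mul 5 Q) 5) (cc H0) (cc H1) (dd H0) (dd H1)
      (100 * 10000 * dd H0) (100 * 10000 * dd H1) N Ts Te wN aN p0 p1 rM v = true →
      (Ts : ℝ) / 200 ≤ S → S ≤ (Te : ℝ) / 200 →
      (D * (4 * b j - b j ^ 2) + 4 * (b l + S) * max D (1 / 1000)) / (3 * b j ^ 2)
        + (wN : ℝ) / 1000000 * F b + (aN : ℝ) / 1000000 * S
        + ((p0 : ℝ) + ((p1 : ℝ) - p0) * ((200 * b l - (Nat.mul 5 Q : ℕ)) / (((Nat.add (Nat.mul 5 Q) 5 : ℕ) : ℝ)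
          - (Nat.mul 5 Q : ℕ)))) / 200000000 ≤ (rM : ℝ) / 200000000000000000 := by
    intro Ts Te wN aN p0 p1 rM v hv hs0 hs1
    have h2 := one3_sound V cnt 12 k0 k1 q0 q1 k Q H0 H1 (Nat.mul 5 Q) (Nat.add (Nat.mul 5 Q) 5)
      wN aN p0 p1 rM N Ts Te v ht (by omega) (by omega) w1 w2 u3 w3 q3 q4 w4 w5 (by omega) hq0 hq1 hq40
      (by simp only [Nat.mul_eq]; omega) (by simp only [Nat.mul_eq, Nat.add_eq]; omega)
      (by simp only [Nat.mul_eq, Nat.add_eq]; omega) hv b hb0 i j l hij hil hjl hi h0 h1 hgg0 hgg1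
      hmW (by rw [← hS]; exact hs0) (by rw [← hS]; exact hs1) hD'
    rw [← hS, ← hDe] at h2
    exact h2
  cases l' with
  | nil => exact absurd (show false = true from hchk) (by simp)
  | cons v0 l' =>
    obtain ⟨r1, hchk⟩ := IA.cond_and hchk
    cases l' with
    | nil => exact absurd (show false = true from hchk) (by simp)
    | cons v1 l' =>
      obtain ⟨r2, r3⟩ := IA.cond_and hchk
      have hso : 5 * x.mx ≤ x.so ∨ S ≤ (x.so : ℝ) / 200 := by
        rcases Nat.lt_or_ge x.so (5 * x.mx) with h5 | h5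
        · right
          have b5 : Nat.ble (Nat.mul 5 x.mx) x.so = false := by
            rw [← Bool.not_eq_true, Nat.ble_eq]
            exact not_le.mpr h5
          rw [b5, cond_false] at r1
          rcases Nat.lt_or_ge x.so sx with h6 | h6
          · have b6 : Nat.ble sx x.so = false := by
              rw [← Bool.not_eq_true, Nat.ble_eq]
              exact not_le.mpr h6
            rw [b6, cond_false] at r1
            by_contra hc
            push Not at hc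
            have hne := gen x.so sx 0 0 0 0 0 v0 r1 hc.le hzb'.le
            have hpos := need_pos D (b j) (b l + S) (1 / 1000) hD hbj0 (hb1 j) (by linarith)
            simp only [Nat.cast_zero, zero_div, zero_mul, sub_self, add_zero] at hne
            linarith
          · have : (sx : ℝ) ≤ x.so := by exact_mod_cast h6
            linarith
        · left
          exact h5
      have hTe : S ≤ ((cond (Nat.ble (Nat.mul 5 x.mx) x.so) sx (cond (Nat.ble sx x.so) sx x.so) : ℕ) : ℝ) / 200 := by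
        rcases hso with h5 | h5
        · have b5 : Nat.ble (Nat.mul 5 x.mx) x.so = true := by rw [Nat.ble_eq]; exact h5
          rw [b5, cond_true]
          exact hzb'.le
        · cases Nat.ble (Nat.mul 5 x.mx) x.so with
          | true => exact hzb'.le
          | false =>
            rw [cond_false]
            cases Nat.ble sx x.so with
            | true => exact hzb'.le
            | false => exact h5
      generalize (cond (Nat.ble (Nat.mul 5 x.mx) x.so) sx (cond (Nat.ble sx x.so) sx x.so)) = Te at hTe r2 r3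
      have hS0 : ((0 : ℕ) : ℝ) / 200 ≤ S := by rw [Nat.cast_zero, zero_div]; exact hSn
      refine ⟨?_, ?_, ?_⟩
      · intro c hc hc' hc''
        rcases hso with h5 | h5
        · have h6 : (5 : ℝ) * x.mx ≤ x.so := by exact_mod_cast h5
          have h7 := hm c hc hc' hc''
          linarith
        · refine le_trans ?_ h5
          rw [hS]
          refine Finset.single_le_sum (f := b) (fun c _ => hb0 c) ?_
          rw [Finset.mem_compl, Finset.mem_insert, Finset.mem_insert, Finset.mem_singleton, not_or, not_or]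
          exact ⟨hc, hc', hc''⟩
      · have h3 := gen 0 Te 0 0 0 0 (Nat.mul x.rz 2000000000000) v1 r2 hS0 hTe
        have f2 : (((Nat.mul x.rz 2000000000000 : ℕ)) : ℝ) = 2000000000000 * (x.rz : ℝ) := by
          show ((x.rz * 2000000000000 : ℕ) : ℝ) = _
          push_cast; ring
        simp only [f2, Nat.cast_zero, zero_div, zero_mul, sub_self, add_zero] at h3
        unfold IneqI
        rw [add_comm S (b l), zero_mul, zero_mul, zero_mul]
        linarith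
      · intro c hc
        obtain ⟨v, hv⟩ := clsOK_get _ _ _ r3 c hc
        have h3 := clsF_sound _ (Nat.mul 5 Q) (Nat.add (Nat.mul 5 Q) 5) (Nat.mul 5 x.slo) c v
          ((D * (4 * b j - b j ^ 2) + 4 * (b l + S) * max D (1 / 1000)) / (3 * b j ^ 2)) (F b) S (b l)
          (by simp only [Nat.mul_eq, Nat.add_eq]; omega) (by simp only [Nat.mul_eq]; omega)
          (fun wN aN p0 p1 rM v h => gen 0 Te wN aN p0 p1 rM v h hS0 hTe) hv
        have f3 : ((Nat.mul 5 x.slo : ℕ) : ℝ) / 200 = (x.slo : ℝ) / 40 := by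
          have : ((Nat.mul 5 x.slo : ℕ) : ℝ) = 5 * x.slo := by
            show ((5 * x.slo : ℕ) : ℝ) = _
            push_cast; ring
          rw [this]; ring
        rw [f3] at h3
        unfold IneqI
        rw [add_comm S (b l)]
        exact h3

/-- the check of a box of case B -/
noncomputable def box4 (V : ℕ → ℕ → ℕ) (cnt : ℕ → ℕ) (k0 k1 q0 q1 : ℕ) (x : Box)
    (ls : List (List (List ℕ))) : Bool :=
  cond (Nat.ble (Nat.succ x.slo) x.shi)
    (slots (fun Q l => cond (Nat.ble 12 Q) (cond (Nat.ble (Nat.succ Q) 18) (cond (Nat.ble q0 Q)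
      (cond (Nat.ble (Nat.succ Q) q1)
      (pcs (piece4 V cnt k0 k1 Q x) x.H1 l x.H0) false) false) false) false) x.shi ls x.slo) false

theorem box4_sound (V : ℕ → ℕ → ℕ) (cnt : ℕ → ℕ) (k0 k1 q0 q1 : ℕ) (x : Box)
    (ls : List (List (List ℕ)))
    (ht : Tab3 (fun z k q => gt (V k q) z) cnt 12 k0 k1 q0 q1) (hq40 : q1 ≤ 40) (u3 : k1 ≤ 100)
    (hchk : box4 V cnt k0 k1 q0 q1 x ls = true) : PropIB x := by
  obtain ⟨h2, hchk⟩ := IA.cond_and hchk
  rw [Nat.ble_eq] at h2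
  intro κ _ _ b hb0 hb1 i j l hij hil hjl hi h0 h1' g0 g1 _ hm S D hS hDe hD
  obtain ⟨Q, ll, hs, e0, e1⟩ := slots_get _ _ _ _ hchk (b l) g0 (Or.inl h2) g1
  obtain ⟨a1, hs⟩ := IA.cond_and hs
  obtain ⟨a2, hs⟩ := IA.cond_and hs
  obtain ⟨a3, hs⟩ := IA.cond_and hs
  obtain ⟨a4, hs⟩ := IA.cond_and hs
  rw [Nat.ble_eq] at a1 a2 a3 a4
  obtain ⟨H0, H1, l', hp, f0, f1⟩ := pcs_get _ _ _ _ hs (b j) h0 h1'
  exact piece4_sound V cnt k0 k1 q0 q1 Q x H0 H1 l' ht a1 a2 a3 a4 hq40 u3 hp b hb0 hb1 i j l hij hil hjl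
    hi f0 f1 e0 e1 hm S D hS hDe hD

/-- NO BAD ROWS of case B for `h ≤ 1/2`. -/
theorem emptyB (h1 lo hi : ℝ) (hh : h1 ≤ 1 / 2) (hlo : 3 / 10 ≤ lo) (hhi : hi ≤ 9 / 20) : EmptyB h1 lo hi := by
  intro κ _ _ b hb0 hb1 i j l hij hil hjl hi' hlj hj g0 g1 hm
  exact ZL.F_le_What_half b hb0 hb1 i j l hij hil hjl hi' (by linarith) (by linarith) (by linarith) (by linarith) hm

end IB
end Fr
end Pool.Agent.Lib.MP_6947cd_al
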