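import Pool.Agent.Lib.MP_6947cd_al.L.TabG2
import Pool.Agent.Lib.MP_6947cd_al.L.TabG3
import Pool.Agent.Lib.MP_6947cd_al.L.TabG4

/-!
Problem MP_6947cd_al (Chollet).  The tables with a third special entry together.
-/

set_option autoImplicit false
open Finset

namespace Pool.Agent.Lib.MP_6947cd_al
namespace Fr
namespace TG

open Ent Ent.Pk IA.F TZ

/-- the packed values, third entry in `[Q/40, (Q+1)/40]` -/
def VQ (Q k q : ℕ) : ℕ :=
  cond (Nat.beq Q 8) (V8 k q) (cond (Nat.beq Q 9) (V9 k q) (cond (Nat.beq Q 10) (V10 k q) (V11 k q)))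

/-- the numbers of nodes -/
def NQ (Q k : ℕ) : ℕ :=
  cond (Nat.beq Q 8) (N8 k) (cond (Nat.beq Q 9) (N9 k) (cond (Nat.beq Q 10) (N10 k) (N11 k)))

theorem tabQ (Q : ℕ) (h : 8 ≤ Q) (h' : Q ≤ 11) :
    Tab3 (fun z k q => gt (VQ Q k q) z) (NQ Q) (Q + 1) 46 84 Q (Q + 1) := by
  have : Q = 8 ∨ Q = 9 ∨ Q = 10 ∨ Q = 11 := by omega
  rcases this with rfl | rfl | rfl | rfl
  · exact tab8
  · exact tab9
  · exact tab10
  · exact tab11

end TG
end Fr
end Pool.Agent.Lib.MP_6947cd_al
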