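import Pool.Agent.Lib.MP_6947cd_al.L.GlueA
import Pool.Agent.Lib.MP_6947cd_al.L.PropIC
import Pool.Agent.Lib.MP_6947cd_al.L.TabQ

/-!
Problem MP_6947cd_al (Chollet).  CASE A, part (I): sets without bad rows.
-/

set_option autoImplicit false
open Finset

namespace Pool.Agent.Lib.MP_6947cd_al
namespace Fr
namespace CI

open Ent CA TG

/-- the set `3/10 < h ≤ 63/200`, others at most `1/5` -/
def eA : Box := ⟨60, 63, 60, 64, 0, 0, 8, 0, 0, 0, [], [], []⟩
/-- the set `3/10 < h ≤ 106/200`, second entry in `[1/5, 1/4]` -/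
def eP : Box := ⟨60, 106, 60, 106, 8, 10, 10, 0, 0, 0, [], [0], []⟩
/-- the set `3/10 < h ≤ 108/200`, second entry in `[1/4, 3/10]` -/
def eQ : Box := ⟨60, 108, 60, 108, 10, 12, 12, 0, 0, 0, [], [0], []⟩

/-- certificate -/
def ceA : List (List ℕ) :=
  [[(nat_lit 0x53a3035dad008040000002020f),
    (nat_lit 0x53a3035dad008040000002020f)],
   [(nat_lit 0x544a035d06010040000002020f),
    (nat_lit 0x544a035d06010040000002020f)]]

/-- certificate -/
def ceP : List (List (List ℕ)) :=
  [[[],
    [],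
    [],
    [],
    [],
    [],
    [],
    [],
    [],
    [],
    [],
    [],
    [],
    [],
    [],
    [],
    [(nat_lit 0x6ce80a6d328180400000020221),
     (nat_lit 0x6ce80a6d328180400000020221)],
    [(nat_lit 0x6ce80a6d328180400000020221),
     (nat_lit 0x6ce80a6d328180400000020221)],
    [(nat_lit 0x1b2482d1cae06040080000806cbe8ada428180a00000020422),
     (nat_lit 0x1b2482d1cae06040080000806cbe8ada428180a00000020422)],
    [(nat_lit 0x1b1e82d1cae08040080000806ca80ada418200a00000020422),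
     (nat_lit 0x1b1e82d1cae08040080000806ca80ada418200a00000020422)],
    [(nat_lit 0x6c318c207e0181a020000201b1282ecfac08050080000806c920b472b8180a00000020623),
     (nat_lit 0x6c318c207e0181a020000201b1282ecfac08050080000806c920b472b8180a00000020623)],
    [(nat_lit 0x6c188c8ce18181a040000201b1282ecfac08050080000806c7a0b472b8200a00000020623),
     (nat_lit 0x6c188c8ce18181a040000201b1282ecfac08050080000806c7a0b472b8200a00000020623)],
    [(nat_lit 0x6c188c8ce18201e020000201b0c63081f808050080000806c630bb3eb0180a00000020624),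
     (nat_lit 0x6c188c8ce18201e020000201b0c63081f808050080000806c630bb3eb0180a00000020624)]],
   [[],
    [],
    [],
    [],
    [],
    [],
    [],
    [],
    [],
    [],
    [],
    [],
    [],
    [],
    [],
    [],
    [],
    [],
    [(nat_lit 0x6c920b472b8180600000020223),
     (nat_lit 0x6c920b472b8180600000020223)],
    [(nat_lit 0x6c7a0b472b8200600000020223),
     (nat_lit 0x6c7a0b472b8200600000020223)],
    [(nat_lit 0x1b0c63081f806040080000806c4a0bb3eb0200a00000020424),
     (nat_lit 0x1b0c63081f806040080000806c4a0bb3eb0200a00000020424)],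
    [(nat_lit 0x1b06232338606040100000806c4a0bb3eb0200a00000020424),
     (nat_lit 0x1b06232338606040100000806c4a0bb3eb0200a00000020424)],
    [(nat_lit 0x1b06232338608050080000806c318c207e0200a00000020425),
     (nat_lit 0x1b06232338608050080000806c318c207e0200a00000020425)]]]

/-- certificate -/
def ceQ : List (List (List ℕ)) :=
  [[[],
    [],
    [],
    [],
    [],
    [],
    [],
    [],
    [],
    [],
    [],
    [],
    [],
    [],
    [],
    [],
    [],
    [],
    [],
    [],
    [(nat_lit 0x6c318c207e0180600000020225),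
     (nat_lit 0x6c318c207e0180600000020225)],
    [(nat_lit 0x6c188c8ce18180600000020226),
     (nat_lit 0x6c188c8ce18180600000020226)],
    [(nat_lit 0x6c188c8ce18200a00000020226),
     (nat_lit 0x6c188c8ce18200a00000020226)],
    [(nat_lit 0x6bff0cf9140180a00000020227),
     (nat_lit 0x6bff0cf9140180a00000020227)]],
   [[],
    [],
    [],
    [],
    [],
    [],
    [],
    [],
    [],
    [],
    [],
    [],
    [],
    [],
    [],
    [],
    [],
    [],
    [],
    [],
    [],
    [],
    [],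
    []]]

theorem ieA : PropI eA := box2_sound VA NA ZF.smA 8 30 84 eA ceA zoneA tabA (by norm_num) (by norm_num)
  (by norm_num) (by decide +kernel)

theorem ieP : PropI eP := box3_sound VQ NQ ZF.smB 46 84 8 11 eP ceP zoneB tabQ (by norm_num) (by norm_num)
  (by decide +kernel)

theorem ieQ : PropI eQ := box3_sound VQ NQ ZF.smB 46 84 8 11 eQ ceQ zoneB tabQ (by norm_num) (by norm_num)
  (by decide +kernel)

lemma empty0_of (x : Box) (h : PropI x) (hq : x.q = []) (hrz : x.rz = 0) (hH : x.H0 = 60) (hi mx : ℝ)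
    (hhi : hi = (x.H1 : ℝ) / 200) (hmx : mx = (x.mx : ℝ) / 40) : Empty0 hi mx := by
  intro κ _ _ b hb0 hb1 i j hij hi' h0 h1 hm
  by_contra hc
  push Not at hc
  have hD : 0 < F b - What (b j + ∑ c ∈ ({i, j} : Finset κ)ᶜ, b c) := by linarith
  obtain ⟨-, h3, -⟩ := h.1 hq κ b hb0 hb1 i j hij hi' (by rw [hH]; push_cast; linarith) (by rw [← hhi]; exact h1)
    (by rw [← hmx]; exact hm) _ _ rfl rfl hD
  unfold IneqI at h3
  have hpos := need_pos (F b - What (b j + ∑ c ∈ ({i, j} : Finset κ)ᶜ, b c)) (b j)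
    (∑ c ∈ ({i, j} : Finset κ)ᶜ, b c) (1 / 1000) hD (by linarith) (hb1 j)
    (Finset.sum_nonneg fun c _ => hb0 c)
  rw [hrz, Nat.cast_zero, zero_div, add_zero, zero_mul, zero_mul, zero_mul, add_zero, add_zero, add_zero] at h3
  linarith

lemma empty1_of (x : Box) (h : PropI x) (hq : x.q ≠ []) (hrz : x.rz = 0) (hH : x.H0 = 60) (hi lo mx : ℝ)
    (hhi : hi = (x.H1 : ℝ) / 200) (hlo : lo = (x.slo : ℝ) / 40) (hmx : mx = (x.shi : ℝ) / 40) :
    Empty1 hi lo mx := by
  intro κ _ _ b hb0 hb1 i j l hij hil hjl hi' h0 h1 g0 g1 hm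
  by_contra hc
  push Not at hc
  have hD : 0 < F b - What (b j + b l + ∑ c ∈ ({i, j, l} : Finset κ)ᶜ, b c) := by linarith
  obtain ⟨-, h3, -⟩ := h.2 hq κ b hb0 hb1 i j l hij hil hjl hi' (by rw [hH]; push_cast; linarith)
    (by rw [← hhi]; exact h1) (by rw [← hlo]; exact g0) (by rw [← hmx]; exact g1) hm _ _ rfl rfl hD
  unfold IneqI at h3
  have hpos := need_pos (F b - What (b j + b l + ∑ c ∈ ({i, j, l} : Finset κ)ᶜ, b c)) (b j)
    (∑ c ∈ ({i, j, l} : Finset κ)ᶜ, b c + b l) (1 / 1000) hD (by linarith) (hb1 j)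
    (add_nonneg (Finset.sum_nonneg fun c _ => hb0 c) (hb0 l))
  rw [hrz, Nat.cast_zero, zero_div, zero_mul, zero_mul, zero_mul, add_zero, add_zero, add_zero] at h3
  linarith

/-- NO BAD ROWS: `3/10 < h ≤ 63/200`, others at most `1/5`. -/
theorem emptyA : Empty0 (63 / 200) (1 / 5) :=
  empty0_of eA ieA rfl rfl rfl _ _ (by simp only [eA]; norm_num) (by simp only [eA]; norm_num)

/-- NO BAD ROWS: `3/10 < h ≤ 106/200`, second entry in `[1/5, 1/4]`. -/
theorem emptyP : Empty1 (106 / 200) (1 / 5) (1 / 4) :=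
  empty1_of eP ieP (by simp [eP]) rfl rfl _ _ _ (by simp only [eP]; norm_num) (by simp only [eP]; norm_num)
    (by simp only [eP]; norm_num)

/-- NO BAD ROWS: `3/10 < h ≤ 108/200`, second entry in `[1/4, 3/10]`. -/
theorem emptyQ : Empty1 (108 / 200) (1 / 4) (3 / 10) :=
  empty1_of eQ ieQ (by simp [eQ]) rfl rfl _ _ _ (by simp only [eQ]; norm_num) (by simp only [eQ]; norm_num)
    (by simp only [eQ]; norm_num)

end CI
end Fr
end Pool.Agent.Lib.MP_6947cd_al
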