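import Pool.Agent.Lib.MP_6947cd_al.L.C3M0
import Pool.Agent.Lib.MP_6947cd_al.L.C3M1
import Pool.Agent.Lib.MP_6947cd_al.L.C3M2
import Pool.Agent.Lib.MP_6947cd_al.L.C3M3
import Pool.Agent.Lib.MP_6947cd_al.L.C3M4
import Pool.Agent.Lib.MP_6947cd_al.L.C3M5

/-!
Problem MP_6947cd_al (Chollet).  CASE A, rows `j`: all boxes.
-/

set_option autoImplicit false

namespace Pool.Agent.Lib.MP_6947cd_al
namespace CA

theorem c3_boxA : ∀ x ∈ boxA, PropIII x := by
  intro x hx
  unfold boxA at hx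
  simp only [List.mem_cons, List.not_mem_nil, or_false] at hx
  rcases hx with rfl | rfl | rfl | rfl | rfl | rfl | rfl | rfl | rfl | rfl | rfl | rfl | rfl | rfl | rfl | rfl | rfl | rfl | rfl | rfl | rfl | rfl | rfl | rfl | rfl | rfl | rfl | rfl | rfl | rfl | rfl | rfl | rfl | rfl | rfl | rfl | rfl | rfl | rfl | rfl | rfl | rfl | rfl | rfl | rfl | rfl | rfl | rfl | rfl | rfl | rfl | rfl | rfl | rfl | rfl | rfl | rfl | rfl | rfl | rfl | rfl | rfl | rfl | rfl | rfl | rfl | rfl | rfl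
  · exact c3_xA0
  · exact c3_xA1
  · exact c3_xA2
  · exact c3_xA3
  · exact c3_xA4
  · exact c3_xA5
  · exact c3_xA6
  · exact c3_xA7
  · exact c3_xA8
  · exact c3_xA9
  · exact c3_xA10
  · exact c3_xA11
  · exact c3_xA12
  · exact c3_xA13
  · exact c3_xA14
  · exact c3_xA15
  · exact c3_xA16
  · exact c3_xA17
  · exact c3_xA18
  · exact c3_xA19
  · exact c3_xA20
  · exact c3_xA21
  · exact c3_xA22
  · exact c3_xA23
  · exact c3_xA24
  · exact c3_xA25
  · exact c3_xA26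
  · exact c3_xA27
  · exact c3_xA28
  · exact c3_xA29
  · exact c3_xA30
  · exact c3_xA31
  · exact c3_xA32
  · exact c3_xA33
  · exact c3_xA34
  · exact c3_xA35
  · exact c3_xA36
  · exact c3_xA37
  · exact c3_xA38
  · exact c3_xA39
  · exact c3_xA40
  · exact c3_xA41
  · exact c3_xA42
  · exact c3_xA43
  · exact c3_xA44
  · exact c3_xA45
  · exact c3_xA46
  · exact c3_xA47
  · exact c3_xA48
  · exact c3_xA49
  · exact c3_xA50
  · exact c3_xA51
  · exact c3_xA52
  · exact c3_xA53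
  · exact c3_xA54
  · exact c3_xA55
  · exact c3_xA56
  · exact c3_xA57
  · exact c3_xA58
  · exact c3_xA59
  · exact c3_xA60
  · exact c3_xA61
  · exact c3_xA62
  · exact c3_xA63
  · exact c3_xA64
  · exact c3_xA65
  · exact c3_xA66
  · exact c3_xA67

theorem c3_boxP : ∀ x ∈ boxP, PropIII x := by
  intro x hx
  unfold boxP at hx
  simp only [List.mem_cons, List.not_mem_nil, or_false] at hx
  rcases hx with rfl | rfl | rfl | rfl | rfl | rfl | rfl | rfl | rfl | rfl | rfl | rfl | rfl | rfl | rfl | rfl | rfl | rfl | rfl | rfl | rfl | rfl | rfl | rfl | rfl | rfl | rfl | rfl | rfl | rfl | rfl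
  · exact c3_xP0
  · exact c3_xP1
  · exact c3_xP2
  · exact c3_xP3
  · exact c3_xP4
  · exact c3_xP5
  · exact c3_xP6
  · exact c3_xP7
  · exact c3_xP8
  · exact c3_xP9
  · exact c3_xP10
  · exact c3_xP11
  · exact c3_xP12
  · exact c3_xP13
  · exact c3_xP14
  · exact c3_xP15
  · exact c3_xP16
  · exact c3_xP17
  · exact c3_xP18
  · exact c3_xP19
  · exact c3_xP20
  · exact c3_xP21
  · exact c3_xP22
  · exact c3_xP23
  · exact c3_xP24
  · exact c3_xP25
  · exact c3_xP26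
  · exact c3_xP27
  · exact c3_xP28
  · exact c3_xP29
  · exact c3_xP30

theorem c3_boxQ : ∀ x ∈ boxQ, PropIII x := by
  intro x hx
  unfold boxQ at hx
  simp only [List.mem_cons, List.not_mem_nil, or_false] at hx
  rcases hx with rfl | rfl | rfl | rfl | rfl | rfl | rfl | rfl | rfl | rfl | rfl | rfl | rfl | rfl | rfl | rfl | rfl | rfl | rfl | rfl | rfl | rfl | rfl | rfl | rfl | rfl | rfl | rfl | rfl | rfl | rfl | rfl | rfl | rfl | rfl | rfl | rfl | rfl | rfl | rfl | rfl | rfl | rfl | rfl | rfl | rfl | rfl | rfl | rfl | rfl | rfl | rfl | rfl | rfl | rfl | rfl | rfl | rfl | rfl | rfl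
  · exact c3_xQ0
  · exact c3_xQ1
  · exact c3_xQ2
  · exact c3_xQ3
  · exact c3_xQ4
  · exact c3_xQ5
  · exact c3_xQ6
  · exact c3_xQ7
  · exact c3_xQ8
  · exact c3_xQ9
  · exact c3_xQ10
  · exact c3_xQ11
  · exact c3_xQ12
  · exact c3_xQ13
  · exact c3_xQ14
  · exact c3_xQ15
  · exact c3_xQ16
  · exact c3_xQ17
  · exact c3_xQ18
  · exact c3_xQ19
  · exact c3_xQ20
  · exact c3_xQ21
  · exact c3_xQ22
  · exact c3_xQ23
  · exact c3_xQ24
  · exact c3_xQ25
  · exact c3_xQ26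
  · exact c3_xQ27
  · exact c3_xQ28
  · exact c3_xQ29
  · exact c3_xQ30
  · exact c3_xQ31
  · exact c3_xQ32
  · exact c3_xQ33
  · exact c3_xQ34
  · exact c3_xQ35
  · exact c3_xQ36
  · exact c3_xQ37
  · exact c3_xQ38
  · exact c3_xQ39
  · exact c3_xQ40
  · exact c3_xQ41
  · exact c3_xQ42
  · exact c3_xQ43
  · exact c3_xQ44
  · exact c3_xQ45
  · exact c3_xQ46
  · exact c3_xQ47
  · exact c3_xQ48
  · exact c3_xQ49
  · exact c3_xQ50
  · exact c3_xQ51
  · exact c3_xQ52
  · exact c3_xQ53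
  · exact c3_xQ54
  · exact c3_xQ55
  · exact c3_xQ56
  · exact c3_xQ57
  · exact c3_xQ58
  · exact c3_xQ59

theorem c3_boxT : ∀ x ∈ boxT, PropIII x := by
  intro x hx
  unfold boxT at hx
  simp only [List.mem_cons, List.not_mem_nil, or_false] at hx
  rcases hx with rfl | rfl | rfl | rfl | rfl | rfl | rfl | rfl | rfl | rfl | rfl | rfl | rfl | rfl | rfl | rfl | rfl
  · exact c3_xT0
  · exact c3_xT1
  · exact c3_xT2
  · exact c3_xT3
  · exact c3_xT4
  · exact c3_xT5
  · exact c3_xT6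
  · exact c3_xT7
  · exact c3_xT8
  · exact c3_xT9
  · exact c3_xT10
  · exact c3_xT11
  · exact c3_xT12
  · exact c3_xT13
  · exact c3_xT14
  · exact c3_xT15
  · exact c3_xT16

/-- (III) for all boxes -/
theorem propIII_all : ∀ x ∈ boxA ++ boxP ++ boxQ ++ boxT, PropIII x := by
  intro x hx
  simp only [List.mem_append] at hx
  rcases hx with ((hx | hx) | hx) | hx
  · exact c3_boxA x hx
  · exact c3_boxP x hx
  · exact c3_boxQ x hx
  · exact c3_boxT x hx

end CA
end Pool.Agent.Lib.MP_6947cd_al
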