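import Pool.Agent.Lib.MP_6947cd_al.L.BoxB

/-!
Problem MP_6947cd_al (Chollet).  CASE B with one payer, (U): the lower bounds of the merged entries, from the
trees of `L/PairQ.lean` (leaves `aff`, `inf`, `pol` = bound not positive).
-/

set_option autoImplicit false
open Finset

namespace Pool.Agent.Lib.MP_6947cd_al
namespace CB

open Ent Fr CA
open Fr.PQ (Bx Md Po QT qchk qchk_sound Geo Mode)

/-- on the piece `[k0, k]` with values `u0`, `u` (all `/ 1000`): (value - v) times a positive number -/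
def upo (k0 u0 k u : ℕ) : Po :=
  ⟨0, 1000 * (Int.ofNat u - Int.ofNat u0), 0, 0, Int.ofNat (u * k0) - Int.ofNat (u0 * k),
    1000 * (Int.ofNat k - Int.ofNat k0), 0⟩

/-- the mode of a piece -/
def umd (k0 u0 k u : ℕ) : Md := ⟨true, false, upo k0 u0 k u, upo k0 u0 k u, upo k0 u0 k u⟩

/-- check of the pieces, `s ∈ [x0, x1] / 10^6` -/
def chkUl (B : Bx) (x0 x1 : ℕ) : ℕ → ℕ → List ℕ → List ℕ → List QT → Bool
  | k0, u0, k :: ks, u :: us, T :: Ts =>
      Nat.blt k0 k && ((Nat.beq u0 0 || qchk B (umd k0 u0 k u) T x0 x1 (1000 * k0) (1000 * k)) &&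
        chkUl B x0 x1 k u ks us Ts)
  | _, _, [], [], [] => true
  | _, _, _, _, _ => false

/-- certificate for one interval of `h` -/
structure UC where
  B : Bx
  a : List QT
  b : List QT

/-- check for one interval of `h` -/
def chkU1 (y : BoxB) (c : UC) : Bool :=
  c.B.ok && (chkUl c.B 0 (5000 * y.x.so) 0 0 y.x.k y.u c.a &&
    chkUl c.B (25000 * y.x.slo) (25000 * y.x.shi) 0 (y.us.headD 0) y.x.q.tail y.us.tail c.b)

/-- the intervals from `a` to `b` -/
def chkUh (y : BoxB) (b : ℕ) : ℕ → List UC → Bool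
  | a, c :: cs => Nat.beq c.B.H0 a && (chkU1 y c && chkUh y b c.B.H1 cs)
  | a, [] => Nat.ble b a

/-- THE CHECKER -/
def chkU (y : BoxB) (l : List UC) : Bool :=
  !y.x.k.isEmpty && (!y.x.q.tail.isEmpty && (Nat.beq (y.x.q.headD 1) 0 &&
    (!l.isEmpty && chkUh y (5000 * y.x.H1) (5000 * y.x.H0) l)))

lemma upo_val (k0 u0 k u : ℕ) (s t v : ℝ) :
    (upo k0 u0 k u).val s t v = 1000 * ((u : ℝ) - u0) * t - ((u : ℝ) * k0 - u0 * k)
      - 1000 * ((k : ℝ) - k0) * v := by
  unfold upo Po.val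
  push_cast
  simp only [Int.ofNat_eq_natCast]
  push_cast
  ring

/-- the value in the piece -/
lemma upo_le {k0 u0 k u : ℕ} (hk : k0 < k) {s t v : ℝ} (h : (upo k0 u0 k u).val s t v ≤ 0) :
    (u0 : ℝ) / 1000 + ((u : ℝ) / 1000 - (u0 : ℝ) / 1000) / ((k : ℝ) / 1000 - (k0 : ℝ) / 1000)
      * (t - (k0 : ℝ) / 1000) ≤ v := by
  rw [upo_val] at h
  have hk' : (0 : ℝ) < (k : ℝ) - k0 := by
    have : (k0 : ℝ) < k := by exact_mod_cast hk
    linarith
  have e : (u0 : ℝ) / 1000 + ((u : ℝ) / 1000 - (u0 : ℝ) / 1000) / ((k : ℝ) / 1000 - (k0 : ℝ) / 1000)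
      * (t - (k0 : ℝ) / 1000)
      = (1000 * ((u : ℝ) - u0) * t - ((u : ℝ) * k0 - u0 * k)) / (1000 * ((k : ℝ) - k0)) := by
    have h1 : (k : ℝ) / 1000 - (k0 : ℝ) / 1000 ≠ 0 := by
      have : (k : ℝ) / 1000 - (k0 : ℝ) / 1000 = ((k : ℝ) - k0) / 1000 := by ring
      rw [this]
      positivity
    have h2 : 1000 * ((k : ℝ) - k0) ≠ 0 := by positivity
    rw [eq_div_iff h2]
    field_simp
    ring
  rw [e, div_le_iff₀ (by positivity)]
  linarith

lemma chkUl_sound {B : Bx} (hB : B.ok = true) {h s t c u : ℝ} (g : Geo h s t c u)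
    (h0 : (B.H0 : ℝ) / 1000000 ≤ h) (h1 : h ≤ (B.H1 : ℝ) / 1000000) {x0 x1 : ℕ}
    (hs0 : (x0 : ℝ) ≤ s * 1000000) (hs1 : s * 1000000 ≤ x1) (ks : List ℕ) :
    ∀ (us : List ℕ) (Ts : List QT) (k0 u0 : ℕ), chkUl B x0 x1 k0 u0 ks us Ts = true →
      (k0 : ℝ) / 1000 ≤ t → (ks = [] → (k0 : ℝ) / 1000 < t) → t ≤ ((ks.getLastD k0 : ℕ) : ℝ) / 1000 →
      plz ((k0 : ℝ) / 1000) ((u0 : ℝ) / 1000) (kR ks) (kR us) t ≤ u := by
  induction ks with
  | nil =>
    intro us Ts k0 u0 _ _ hk ht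
    have := hk rfl
    simp only [List.getLastD_nil] at ht
    linarith
  | cons k ks ih =>
    intro us Ts k0 u0 hc hk0 _ ht
    cases us with
    | nil => simp [chkUl] at hc
    | cons u' us =>
      cases Ts with
      | nil => simp [chkUl] at hc
      | cons T Ts =>
        unfold chkUl at hc
        rw [Bool.and_eq_true, Bool.and_eq_true, Nat.blt_eq, Bool.or_eq_true, Nat.beq_eq] at hc
        obtain ⟨c1, c2, c3⟩ := hc
        rw [kR_cons, kR_cons, plz_cons]
        split_ifs with h2 h4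
        · exact g.u0
        · have c2 := c2.resolve_left (by
            rintro rfl
            exact h4 (by norm_num))
          have hM : Mode (umd k0 u0 k u') s t u ((u0 : ℝ) / 1000 + ((u' : ℝ) / 1000 - (u0 : ℝ) / 1000)
              / ((k : ℝ) / 1000 - (k0 : ℝ) / 1000) * (t - (k0 : ℝ) / 1000) ≤ u) := by
            refine ⟨fun _ v _ hv hP => (upo_le c1 hP).trans hv, fun h => ?_, fun _ hP => ?_,
              fun _ hP => ?_⟩
            · simp [umd] at h
            · exact (upo_le c1 hP).trans g.u0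
            · exact (upo_le c1 hP).trans g.u0
          refine qchk_sound hB g h0 h1 hM T x0 x1 (1000 * k0) (1000 * k) c2 hs0 hs1 ?_ ?_
          · push_cast
            rw [div_le_iff₀ (by norm_num)] at hk0
            linarith
          · push_cast
            rw [le_div_iff₀ (by norm_num)] at h2
            linarith
        · have h3 : (k : ℝ) / 1000 < t := lt_of_not_ge h2
          refine ih us Ts k u' c3 h3.le (fun _ => h3) ?_
          rw [List.getLastD_cons] at ht
          exact ht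

lemma chkU1_sound {y : BoxB} {c : UC} (hc : chkU1 y c = true) (hk : y.x.k ≠ [])
    (hq : y.x.q.tail ≠ []) (hq0 : y.x.q.headD 1 = 0) {h s t e v : ℝ}
    (h0 : (c.B.H0 : ℝ) / 1000000 ≤ h) (h1 : h ≤ (c.B.H1 : ℝ) / 1000000) (g : Geo h s t e v) :
    (s ≤ (y.x.so : ℝ) / 200 → t ≤ ((y.x.k.getLastD 0 : ℕ) : ℝ) / 1000 → lowU y t ≤ v) ∧
    ((y.x.slo : ℝ) / 40 ≤ s → s ≤ (y.x.shi : ℝ) / 40 → t ≤ ((y.x.q.getLastD 0 : ℕ) : ℝ) / 1000 →
      lowUs y t ≤ v) := by
  unfold chkU1 at hc
  rw [Bool.and_eq_true, Bool.and_eq_true] at hc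
  obtain ⟨hB, ha, hb⟩ := hc
  constructor
  · intro hs ht
    have := chkUl_sound hB g h0 h1 (x0 := 0) (x1 := 5000 * y.x.so) (by simpa using g.s0)
      (by push_cast; linarith) y.x.k y.u c.a 0 0 ha (by simpa using g.t0) (fun h => absurd h hk)
      (by simpa using ht)
    simpa [lowU] using this
  · intro hs hs' ht
    have hl : y.x.q.getLastD 0 = y.x.q.tail.getLastD 0 := by
      cases hqq : y.x.q with
      | nil => rw [hqq] at hq; simp at hq
      | cons a l =>
        rw [hqq] at hq0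
        simp only [List.headD_cons] at hq0
        subst hq0
        rw [List.tail_cons, List.getLastD_cons]
    rw [hl] at ht
    have := chkUl_sound hB g h0 h1 (x0 := 25000 * y.x.slo) (x1 := 25000 * y.x.shi)
      (by push_cast; linarith) (by push_cast; linarith) y.x.q.tail y.us.tail c.b 0 (y.us.headD 0) hb
      (by simpa using g.t0) (fun h => absurd h hq) (by simpa using ht)
    simpa [lowUs] using this

lemma chkUh_sound {y : BoxB} {b : ℕ} {h : ℝ} (P : Prop)
    (hP : ∀ c : UC, chkU1 y c = true → (c.B.H0 : ℝ) / 1000000 ≤ h → h ≤ (c.B.H1 : ℝ) / 1000000 → P)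
    (hb : h ≤ (b : ℝ) / 1000000) (l : List UC) :
    ∀ a : ℕ, chkUh y b a l = true → (a : ℝ) / 1000000 ≤ h → (l = [] → (a : ℝ) / 1000000 < h) → P := by
  induction l with
  | nil =>
    intro a hc h0 h1
    unfold chkUh at hc
    rw [Nat.ble_eq] at hc
    have h2 := h1 rfl
    have h3 : (b : ℝ) ≤ a := by exact_mod_cast hc
    exfalso
    have : (b : ℝ) / 1000000 ≤ a / 1000000 := by linarith
    linarith
  | cons c cs ih =>
    intro a hc h0 _
    unfold chkUh at hc
    rw [Bool.and_eq_true, Bool.and_eq_true, Nat.beq_eq] at hc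
    obtain ⟨c1, c2, c3⟩ := hc
    by_cases h2 : h ≤ (c.B.H1 : ℝ) / 1000000
    · exact hP c c2 (by rw [c1]; exact h0) h2
    · exact ih _ c3 (lt_of_not_ge h2).le (fun _ => lt_of_not_ge h2)

/-- SOUNDNESS. -/
theorem propU_of_chk {y : BoxB} {l : List UC} (hc : chkU y l = true) : PropU y := by
  unfold chkU at hc
  simp only [Bool.and_eq_true, Nat.beq_eq, Bool.not_eq_true', List.isEmpty_eq_false_iff] at hc
  obtain ⟨c1, c2, c3, c4, c5⟩ := hc
  intro h s t e v h0 h1 g
  refine chkUh_sound _ (fun c hc a1 a2 => chkU1_sound hc c1 c2 c3 a1 a2 g) ?_ l _ c5 ?_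
    (fun h => absurd h c4)
  · push_cast
    linarith
  · push_cast
    linarith

end CB
end Pool.Agent.Lib.MP_6947cd_al
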