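import Pool.Agent.Lib.MP_6947cd_al.L.PtP

/-!
Problem MP_6947cd_al (Chollet).  LOWER BOUNDS OF THE ROW FUNCTION.

`rowLo v m X X0 V = true` implies `V / 10 ^ 7 ≤ FM (mk m (v.map fun u => u.1 / u.2))` (`rowLo_sound`): the same
enumeration as for the upper bounds; `X` is (proportional to) the distribution, `X0 ≤ X a`.
-/

set_option autoImplicit false
open Finset

namespace Pool.Agent.Lib.MP_6947cd_al
namespace Ent

section General

variable {κ : Type} [Fintype κ] [DecidableEq κ]

/-- The row function is at least the smallest term of every certificate. -/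
theorem F_ge_of_cert (b x : κ → ℝ) (V : ℝ) (hx : ∀ j, 0 ≤ x j) (hxb : ∀ j, b j = 0 → x j = 0)
    (hne : ∃ j, x j ≠ 0)
    (hV : ∀ j, x j ≠ 0 → V ≤ Real.log (b j) - Real.log (x j) + ell Finset.univ x j) : V ≤ F b := by
  set X := ∑ j, x j with hX
  have hX0 : 0 < X := by
    obtain ⟨j, hj⟩ := hne
    exact lt_of_lt_of_le (lt_of_le_of_ne (hx j) (Ne.symm hj))
      (Finset.single_le_sum (fun k _ => hx k) (Finset.mem_univ j))
  have hadm : (fun j => x j / X) ∈ adm b := by
    refine ⟨fun j => div_nonneg (hx j) hX0.le, ?_, fun j hj => by show x j / X = 0; rw [hxb j hj, zero_div]⟩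
    rw [← Finset.sum_div, ← hX, div_self hX0.ne']
  refine le_trans ?_ (val_le_F b _ hadm)
  have hterm : ∀ j, x j / X * V ≤ x j / X * (Real.log (b j) - Real.log (x j / X)
      + ell Finset.univ (fun j => x j / X) j) := by
    intro j
    by_cases hj : x j = 0
    · rw [hj, zero_div, zero_mul, zero_mul]
    · have hj0 : 0 < x j := lt_of_le_of_ne (hx j) (Ne.symm hj)
      refine mul_le_mul_of_nonneg_left ?_ (div_nonneg (hx j) hX0.le)
      have e1 : Real.log (x j / X) = Real.log (x j) - Real.log X := Real.log_div hj hX0.ne'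
      have e2 : ell Finset.univ (fun j => x j / X) j = ell Finset.univ x j - Real.log X := by
        have hw := sum_w j
        unfold ell
        rw [Finset.card_univ]
        have e3 : ∀ K ∈ (Finset.univ.erase j).powerset,
            w (Fintype.card κ) K.card * Real.log (x j / X + ∑ k ∈ K, x k / X)
            = w (Fintype.card κ) K.card * Real.log (x j + ∑ k ∈ K, x k)
              - w (Fintype.card κ) K.card * Real.log X := by
          intro K _
          have h1 : 0 < x j + ∑ k ∈ K, x k := by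
            have := Finset.sum_nonneg (s := K) fun k _ => hx k
            linarith
          rw [← Finset.sum_div, ← add_div, Real.log_div h1.ne' hX0.ne']
          ring
        rw [Finset.sum_congr rfl e3, Finset.sum_sub_distrib, ← Finset.sum_mul, hw, one_mul]
      rw [e1, e2]
      have := hV j hj
      linarith
  calc V = ∑ j, x j / X * V := by
        rw [← Finset.sum_mul, ← Finset.sum_div, ← hX, div_self hX0.ne', one_mul]
    _ ≤ _ := by
        unfold val
        exact Finset.sum_le_sum fun j _ => hterm j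

variable {α : Type} [DecidableEq α]

/-- Lower bound for a row with finitely many types of entries. -/
theorem F_ge_types (b : κ → ℝ) (l : List α) (hl : l.Nodup)
    (S : α → Finset κ) (hdis : ∀ a ∈ l, ∀ c ∈ l, a ≠ c → Disjoint (S a) (S c))
    (v x : α → ℝ) (hv : ∀ a ∈ l, ∀ k ∈ S a, v a ≤ b k) (hv0 : ∀ a ∈ l, 0 < v a)
    (hne : ∃ a ∈ l, (S a).Nonempty)
    (hx : ∀ a ∈ l, 0 < x a) (V : ℝ)
    (hV : ∀ a ∈ l, (S a).Nonempty → V ≤ Real.log (v a) - Real.log (x a)
      + bx 0 0 (l.map fun c => ((S c).card - (if c = a then 1 else 0), x c)) (x a)) :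
    V ≤ F b := by
  classical
  set X : κ → ℝ := fun k => if h : ∃ a ∈ l, k ∈ S a then x h.choose else 0 with hX
  have hXS : ∀ a ∈ l, ∀ k ∈ S a, X k = x a := by
    intro a ha k hk
    have h : ∃ a ∈ l, k ∈ S a := ⟨a, ha, hk⟩
    simp only [hX]
    rw [dif_pos h]
    obtain ⟨h1, h2⟩ := h.choose_spec
    by_contra hne'
    have hne2 : h.choose ≠ a := fun h3 => hne' (by rw [h3])
    exact (Finset.disjoint_left.mp (hdis _ h1 a ha hne2)) h2 hk
  have hX0 : ∀ k, (∀ a ∈ l, k ∉ S a) → X k = 0 := by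
    intro k hk
    simp only [hX]
    rw [dif_neg]
    rintro ⟨a, ha, hka⟩
    exact hk a ha hka
  refine F_ge_of_cert b X V ?_ ?_ ?_ ?_
  · intro k
    by_cases h : ∃ a ∈ l, k ∈ S a
    · obtain ⟨a, ha, hk⟩ := h
      rw [hXS a ha k hk]; exact (hx a ha).le
    · push Not at h
      rw [hX0 k h]
  · intro k hk
    by_cases h : ∃ a ∈ l, k ∈ S a
    · obtain ⟨a, ha, hk'⟩ := h
      have h1 := hv a ha k hk'
      have h2 := hv0 a ha
      linarith
    · push Not at h
      exact hX0 k h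
  · obtain ⟨a, ha, k, hk⟩ := hne
    exact ⟨k, by rw [hXS a ha k hk]; exact (hx a ha).ne'⟩
  · intro k hk
    by_cases h : ∃ a ∈ l, k ∈ S a
    · obtain ⟨a, ha, hka⟩ := h
      have hvk := hv a ha k hka
      refine le_trans (hV a ha ⟨k, hka⟩) ?_
      rw [hXS a ha k hka]
      refine add_le_add (sub_le_sub_right (Real.log_le_log (hv0 a ha) hvk) _) (le_of_eq ?_)
      rw [ell_eq Finset.univ X k (Finset.mem_univ k), ← blm_int]
      refine intervalIntegral.integral_congr fun u _ => ?_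
      simp only [pow_zero, one_mul]
      set S' : α → Finset κ := fun c => (S c).erase k with hS'
      have hdis' : ∀ a ∈ l, ∀ c ∈ l, a ≠ c → Disjoint (S' a) (S' c) := fun a ha c hc hac =>
        Finset.disjoint_of_subset_left (Finset.erase_subset _ _)
          (Finset.disjoint_of_subset_right (Finset.erase_subset _ _) (hdis a ha c hc hac))
      have hx' : ∀ a ∈ l, ∀ k ∈ S' a, X k = x a := fun c hc m hm =>
        hXS c hc m (Finset.mem_of_mem_erase hm)
      set Z : Finset κ := (Finset.univ.erase k).filter fun m => ∀ a ∈ l, m ∉ S a with hZ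
      have hsplit : (Finset.univ : Finset κ).erase k = l.toFinset.biUnion S' ∪ Z := by
        ext m
        simp only [Finset.mem_erase, Finset.mem_univ, and_true, Finset.mem_union, Finset.mem_biUnion,
          List.mem_toFinset, hS', hZ, Finset.mem_filter]
        constructor
        · intro hm
          by_cases h : ∃ a ∈ l, m ∈ S a
          · obtain ⟨c, hc, hmc⟩ := h
            exact Or.inl ⟨c, hc, hm, hmc⟩
          · push Not at h
            exact Or.inr ⟨hm, h⟩
        · rintro (⟨c, _, hm, _⟩ | ⟨hm, _⟩)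
          · exact hm
          · exact hm
      have hdZ : Disjoint (l.toFinset.biUnion S') Z := by
        rw [Finset.disjoint_left]
        intro m hm hmZ
        simp only [Finset.mem_biUnion, List.mem_toFinset, hS'] at hm
        obtain ⟨c, hc, hmc⟩ := hm
        rw [hZ, Finset.mem_filter] at hmZ
        exact hmZ.2 c hc (Finset.mem_of_mem_erase hmc)
      have hXk : X k = x a := hXS a ha k hka
      rw [hsplit, hXk, bern_zero u X _ Z hdZ (fun m hm => by
        rw [hZ, Finset.mem_filter] at hm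
        exact hX0 m hm.2) (x a), bern_types u X S' x l hl hdis' hx' (x a)]
      have hcard : ∀ c ∈ l, (S' c).card = (S c).card - (if c = a then 1 else 0) := by
        intro c hc
        simp only [hS']
        by_cases hca : c = a
        · rw [if_pos hca, Finset.card_erase_of_mem (by rw [hca]; exact hka)]
        · rw [if_neg hca, Finset.erase_eq_of_notMem, Nat.sub_zero]
          intro hkc
          exact (Finset.disjoint_left.mp (hdis c hc a ha hca)) hkc hka
      have e : (l.map fun c => ((S' c).card, x c))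
          = l.map fun c => ((S c).card - (if c = a then 1 else 0), x c) :=
        List.map_congr_left fun c hc => by rw [hcard c hc]
      rw [e]
    · push Not at h
      exact absurd (hX0 k h) hk

end General

namespace Pk

/-! ### the table of logarithms from below -/

/-- error of one step of the table -/
def EE (w : ℕ) : ℕ :=
  Nat.add (Nat.div (nat_lit 2000000000000) (Nat.mul (Nat.pow w (nat_lit 5))
    (Nat.sub (Nat.mul w w) (nat_lit 1)))) (nat_lit 4)

/-- the accumulated error -/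
def accE (f : ℕ) : ℕ → ℕ → ℕ :=
  @Nat.rec (fun _ => ℕ → ℕ → ℕ) (fun _ E => E)
    (fun _ ih i E => frc (Nat.succ i) fun i' => frc (Nat.add E (EE (Nat.mul (nat_lit 2) (Nat.succ i)))) fun E' =>
        ih i' E') f

theorem accE_ok : Nat.ble (accE (nat_lit 8184) (nat_lit 8) (Nat.add (nat_lit 2000) (EE (nat_lit 33))))
    (nat_lit 60000) = true := by decide +kernel

lemma log_step_lo (w : ℕ) (hw : 2 ≤ w) :
    (UU w : ℝ) ≤ (10 : ℝ) ^ 12 * (Real.log ((w : ℝ) + 1) - Real.log ((w : ℝ) - 1)) + (EE w : ℕ) := by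
  have hw' : (2 : ℝ) ≤ w := by exact_mod_cast hw
  have h := Real.sum_range_le_log_div (x := 1 / (w : ℝ)) (by positivity) (by
    rw [div_lt_one (by linarith)]; linarith) 3
  have e1 : (1 + 1 / (w : ℝ)) / (1 - 1 / (w : ℝ)) = (w + 1) / (w - 1) := by
    have h1 : (w : ℝ) - 1 ≠ 0 := by linarith
    have h2 : (w : ℝ) ≠ 0 := by linarith
    have h3 : (1 : ℝ) - 1 / w ≠ 0 := by
      rw [sub_ne_zero]
      intro h4
      rw [eq_div_iff h2] at h4
      linarith
    field_simp
  rw [e1, Real.log_div (by linarith) (by linarith)] at h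
  simp only [Finset.sum_range_succ, Finset.sum_range_zero] at h
  have u1 := @Nat.cast_div_le ℝ _ _ _ 2000000000000 w
  have u2 := @Nat.cast_div_le ℝ _ _ _ 2000000000000 (3 * w ^ 3)
  have u3 := @Nat.cast_div_le ℝ _ _ _ 2000000000000 (5 * w ^ 5)
  have e2 : (UU w : ℕ) = 2000000000000 / w + 2000000000000 / (3 * w ^ 3)
      + 2000000000000 / (5 * w ^ 5) + 2000000000000 / (w ^ 5 * (w * w - 1)) + 4 := rfl
  have e2' : (EE w : ℕ) = 2000000000000 / (w ^ 5 * (w * w - 1)) + 4 := rfl
  rw [e2, e2']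
  push_cast at u1 u2 u3 ⊢
  have e4 : (10 : ℝ) ^ 12 * 2 * (0 + (1 / (w : ℝ)) ^ (2 * 0 + 1) / (2 * ((0 : ℕ) : ℝ) + 1)
      + (1 / (w : ℝ)) ^ (2 * 1 + 1) / (2 * ((1 : ℕ) : ℝ) + 1)
      + (1 / (w : ℝ)) ^ (2 * 2 + 1) / (2 * ((2 : ℕ) : ℝ) + 1))
      = 2000000000000 / (w : ℝ) + 2000000000000 / (3 * (w : ℝ) ^ 3)
        + 2000000000000 / (5 * (w : ℝ) ^ 5) := by
    have h2 : (w : ℝ) ≠ 0 := by linarith
    push_cast
    field_simp
    ring
  have h' := mul_le_mul_of_nonneg_left h (by norm_num : (0 : ℝ) ≤ 10 ^ 12 * 2)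
  rw [e4] at h'
  have e5 : (10 : ℝ) ^ 12 * 2 * (1 / 2 * (Real.log ((w : ℝ) + 1) - Real.log ((w : ℝ) - 1)))
      = (10 : ℝ) ^ 12 * (Real.log ((w : ℝ) + 1) - Real.log ((w : ℝ) - 1)) := by ring
  rw [e5] at h'
  linarith

lemma accE_ge (f : ℕ) : ∀ i E, E ≤ accE f i E := by
  induction f with
  | zero => intro i E; exact le_rfl
  | succ f ih =>
    intro i E
    have e : accE (f + 1) i E = frc (i + 1) fun i' => frc (E + EE (2 * (i + 1))) fun E' => accE f i' E' := rfl
    rw [e, frc_eq, frc_eq]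
    exact (Nat.le_add_right _ _).trans (ih _ _)

lemma chkT_low (f : ℕ) : ∀ i L E : ℕ, chkT f i L = true → 1 ≤ i →
    ((L : ℕ) : ℝ) ≤ (10 : ℝ) ^ 12 * Real.log (2 * (i : ℝ) + 1) + E → ∀ j, i ≤ j → j < i + f →
    ((ent j : ℕ) : ℝ) ≤ (10 : ℝ) ^ 12 * (Real.log (2 * (j : ℝ) + 1) - 1 / (2 * (j : ℝ) + 1)) + 2
      + (accE f i E : ℕ) := by
  induction f with
  | zero => intro i L E _ _ _ j h1 h2; omega
  | succ f ih =>
    intro i L E h hi hL j h1 h2
    have e : chkT (f + 1) i L = cond (Nat.beq (ent i) (L + 1 - 1000000000000 / (2 * i + 1)))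
        (frc (i + 1) fun i' => frc (L + UU (2 * (i + 1))) fun L' => chkT f i' L') false := rfl
    have eE : accE (f + 1) i E = accE f (i + 1) (E + EE (2 * (i + 1))) := by
      have : accE (f + 1) i E = frc (i + 1) fun i' => frc (E + EE (2 * (i + 1))) fun E' => accE f i' E' := rfl
      rw [this, frc_eq, frc_eq]
    rw [e] at h
    have hb : Nat.beq (ent i) (L + 1 - 1000000000000 / (2 * i + 1)) = true := by
      by_contra hc
      rw [Bool.not_eq_true] at hc
      rw [hc] at h
      exact absurd h (by simp)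
    rw [hb, cond_true, frc_eq, frc_eq] at h
    rcases Nat.eq_or_lt_of_le h1 with rfl | h3
    · have hb' := Nat.eq_of_beq_eq_true hb
      have h4 := div_up 1000000000000 (2 * i + 1) (by omega)
      have h6 : (10 : ℝ) ^ 12 * (1 / (2 * (i : ℝ) + 1)) = 1000000000000 / (2 * (i : ℝ) + 1) := by
        norm_num
        ring
      have hE : (E : ℝ) ≤ (accE (f + 1) i E : ℕ) := by exact_mod_cast accE_ge (f + 1) i E
      rcases Nat.lt_or_ge (L + 1) (1000000000000 / (2 * i + 1)) with h7 | h7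
      · rw [hb', Nat.sub_eq_zero_of_le h7.le]
        have hi' : (0 : ℝ) < 2 * (i : ℝ) + 1 := by positivity
        have h8 := Real.one_sub_inv_le_log_of_pos hi'
        have h9 : 1 / (2 * (i : ℝ) + 1) ≤ 1 / 3 := by
          have hi1 : (1 : ℝ) ≤ i := by exact_mod_cast hi
          exact one_div_le_one_div_of_le (by norm_num) (by linarith)
        rw [← one_div] at h8
        have hE0 : (0 : ℝ) ≤ (accE (f + 1) i E : ℕ) := Nat.cast_nonneg _
        push_cast
        nlinarith
      · have h8 : ((ent i : ℕ) : ℝ) + ((1000000000000 / (2 * i + 1) : ℕ) : ℝ) = (L : ℝ) + 1 := by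
          have : ent i + 1000000000000 / (2 * i + 1) = L + 1 := by omega
          exact_mod_cast this
        push_cast at h4
        rw [mul_sub, h6]
        linarith
    · rw [eE]
      refine ih (i + 1) _ _ h (by omega) ?_ j (by omega) (by omega)
      have h4 := log_step_lo (2 * (i + 1)) (by omega)
      push_cast at h4 ⊢
      rw [show 2 * ((i : ℝ) + 1) - 1 = 2 * (i : ℝ) + 1 by ring] at h4
      linarith

theorem ent_le (i : ℕ) (h8 : 8 ≤ i) (h : i < 8192) :
    ((ent i : ℕ) : ℝ) ≤ (10 : ℝ) ^ 12 * (Real.log (2 * (i : ℝ) + 1) - 1 / (2 * (i : ℝ) + 1)) + 60002 := by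
  have h0 : (accE 8184 8 (2000 + EE 33) : ℝ) ≤ 60000 := by
    exact_mod_cast Nat.le_of_ble_eq_true accE_ok
  have h1 := chkT_low 8184 8 _ (2000 + EE 33) chkT_ok (by norm_num) ?_ i h8 (by omega)
  · linarith
  have h1 := log_step_lo 33 (by norm_num)
  have h2 := Real.log_two_gt_d9
  have e1 : (2 : ℝ) * ((8 : ℕ) : ℝ) + 1 = 17 := by norm_num
  have e2 : ((33 : ℕ) : ℝ) + 1 = 34 := by norm_num
  have e3 : ((33 : ℕ) : ℝ) - 1 = 2 ^ 5 := by norm_num
  have e4 : Real.log 34 = Real.log 17 + Real.log 2 := by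
    rw [← Real.log_mul (by norm_num) (by norm_num)]
    norm_num
  rw [e2, e3, Real.log_pow, e4] at h1
  have e5 : ((Nat.add 2772588723200 (UU 33) : ℕ) : ℝ) = 2772588723200 + (UU 33 : ℕ) := by
    have : Nat.add 2772588723200 (UU 33) = 2772588723200 + UU 33 := rfl
    rw [this]
    push_cast
    ring
  rw [e1, e5]
  push_cast at h1 ⊢
  nlinarith

lemma log_one_add_ge (t : ℝ) (h0 : -(1 / 17) ≤ t) (h1 : t ≤ 1 / 17) :
    t - 9 / 16 * t ^ 2 ≤ Real.log (1 + t) := by
  have hx : |-t| < 1 := by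
    rw [abs_lt]
    constructor <;> linarith
  have h := Real.abs_log_sub_add_sum_range_le hx 2
  have e : ∑ i ∈ Finset.range 2, (-t) ^ (i + 1) / ((i : ℝ) + 1) = -t + t ^ 2 / 2 := by
    rw [Finset.sum_range_succ, Finset.sum_range_one]
    norm_num
  rw [e, sub_neg_eq_add] at h
  have h2 := (abs_le.mp h).1
  have h3 : |-t| ^ (2 + 1) / (1 - |-t|) ≤ t ^ 2 / 16 := by
    rw [abs_neg]
    have h4 : |t| ≤ 1 / 17 := abs_le.mpr ⟨h0, h1⟩
    have h5 : 0 ≤ |t| := abs_nonneg t
    rw [div_le_iff₀ (by linarith)]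
    have h6 : |t| ^ (2 + 1) = t ^ 2 * |t| := by
      rw [pow_succ, sq_abs]
    rw [h6]
    nlinarith [sq_nonneg t]
  linarith

/-- the error of `lgU` for arguments `≥ X0` -/
def erB (X0 : ℕ) : ℕ :=
  frc (Nat.succ (Nat.mul (nat_lit 2) (Nat.shiftRight X0 (nat_lit 13)))) fun c =>
    Nat.add (Nat.div (nat_lit 562500000000) (Nat.mul c c)) (nat_lit 60004)

theorem lgU_le (X0 n : ℕ) (h0 : 65536 ≤ X0) (h1 : X0 ≤ n) (h2 : n < 67108864) :
    ((lgU n : ℕ) : ℝ) ≤ (10 : ℝ) ^ 12 * Real.log ((n : ℝ) / 4096) + (erB X0 : ℕ) := by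
  have e : lgU n = ent (n >>> 13) + (n &&& 8191) * 244140625 / ((n >>> 12) ||| 1) := rfl
  have eE : erB X0 = 562500000000 / ((2 * (X0 / 2 ^ 13) + 1) * (2 * (X0 / 2 ^ 13) + 1)) + 60004 := by
    have : erB X0 = frc (2 * (X0 >>> 13) + 1) fun c => 562500000000 / (c * c) + 60004 := rfl
    rw [this, frc_eq, Nat.shiftRight_eq_div_pow]
  rw [e, lor_one, Nat.shiftRight_eq_div_pow, Nat.shiftRight_eq_div_pow,
    show (8191 : ℕ) = 2 ^ 13 - 1 by norm_num, Nat.and_two_pow_sub_one_eq_mod, eE]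
  set i := n / 2 ^ 13 with hi
  set i0 := X0 / 2 ^ 13 with hi0
  set r := n % 2 ^ 13 with hr
  have hi0' : i0 ≤ i := Nat.div_le_div_right h1
  have hn : n = 8192 * i + r := by
    rw [hi, hr]
    omega
  have hr' : r < 8192 := by
    rw [hr]
    omega
  rw [show n / 2 ^ 12 / 2 = i by rw [hi]; omega]
  have hi8 : 8 ≤ i := by omega
  have h3 := ent_le i hi8 (by omega)
  have h4 := @Nat.cast_div_le ℝ _ _ _ (r * 244140625) (2 * i + 1)
  have h4' := div_up 562500000000 ((2 * i0 + 1) * (2 * i0 + 1)) (by positivity)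
  push_cast at h4 h4' ⊢
  have hipos : (0 : ℝ) < 2 * (i : ℝ) + 1 := by positivity
  have hi8r : (8 : ℝ) ≤ i := by exact_mod_cast hi8
  have hrr : (r : ℝ) < 8192 := by exact_mod_cast hr'
  have hr0 : (0 : ℝ) ≤ r := Nat.cast_nonneg _
  have hnR : (n : ℝ) / 4096 = 2 * (i : ℝ) + (r : ℝ) / 4096 := by
    rw [hn]
    push_cast
    ring
  have hnpos : (0 : ℝ) < (n : ℝ) / 4096 := by
    rw [hnR]
    positivity
  set t := (n : ℝ) / 4096 / (2 * (i : ℝ) + 1) - 1 with ht
  have ht1 : t * (2 * (i : ℝ) + 1) = (r : ℝ) / 4096 - 1 := by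
    rw [ht, hnR]
    field_simp
    ring
  have htle : t ≤ 1 / (2 * (i : ℝ) + 1) := by
    rw [le_div_iff₀ hipos, ht1]
    linarith
  have htge : -(1 / (2 * (i : ℝ) + 1)) ≤ t := by
    rw [neg_le_iff_add_nonneg, ← mul_le_mul_iff_of_pos_right hipos, zero_mul, add_mul, ht1,
      div_mul_cancel₀ _ hipos.ne']
    have : 0 ≤ (r : ℝ) / 4096 := by positivity
    linarith
  have h17 : 1 / (2 * (i : ℝ) + 1) ≤ 1 / 17 := one_div_le_one_div_of_le (by norm_num) (by linarith)
  have h5 := log_one_add_ge t (by linarith) (by linarith)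
  have h6 : Real.log ((n : ℝ) / 4096) = Real.log (2 * (i : ℝ) + 1) + Real.log (1 + t) := by
    rw [← Real.log_mul hipos.ne' (by linarith)]
    congr 1
    rw [mul_add, mul_one, mul_comm _ t, ht1, hnR]
    ring
  have h7 : (10 : ℝ) ^ 12 * t
      = -(10 : ℝ) ^ 12 * (1 / (2 * (i : ℝ) + 1)) + (r : ℝ) * 244140625 / (2 * (i : ℝ) + 1) := by
    rw [ht, hnR]
    field_simp
    ring
  have h8 : t ^ 2 ≤ (1 / (2 * (i0 : ℝ) + 1)) ^ 2 := by
    have h9 : 1 / (2 * (i : ℝ) + 1) ≤ 1 / (2 * (i0 : ℝ) + 1) := by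
      have : (i0 : ℝ) ≤ i := by exact_mod_cast hi0'
      exact one_div_le_one_div_of_le (by positivity) (by linarith)
    rw [sq_le_sq]
    refine (abs_le.mpr ⟨by linarith, by linarith⟩ : |t| ≤ 1 / (2 * (i0 : ℝ) + 1)).trans (le_abs_self _)
  have h10 : (10 : ℝ) ^ 12 * (9 / 16 * (1 / (2 * (i0 : ℝ) + 1)) ^ 2)
      = 562500000000 / ((2 * (i0 : ℝ) + 1) * (2 * (i0 : ℝ) + 1)) := by
    have : (2 * (i0 : ℝ) + 1) ≠ 0 := by positivity
    field_simp
    norm_num
  rw [h6]
  have h11 := mul_le_mul_of_nonneg_left h5 (by norm_num : (0 : ℝ) ≤ 10 ^ 12)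
  have h12 := mul_le_mul_of_nonneg_left h8 (by norm_num : (0 : ℝ) ≤ 10 ^ 12 * (9 / 16))
  linarith

/-! ### the program -/

/-- the inequality of one type from below: `p / q` entry, `T = n !`, `S` digit, `V` bound -/
noncomputable def typLo (T V X0 er m X p q S : ℕ) : Bool :=
  frc (Nat.mul q X) fun d => frc (Nat.sub (Nat.log2 d) (Nat.log2 p)) fun s =>
    frc (Nat.div (Nat.shiftLeft p (Nat.add (nat_lit 24) s)) d) fun y =>
      cond (Nat.ble X0 y) (cond (Nat.ble y (nat_lit 67108863))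
        (cond (Nat.ble X0 X) (cond (Nat.ble (nat_lit 1) p) (cond (Nat.ble (nat_lit 1) q)
          (frc (Nat.mul m T) fun mT => Nat.ble
            (Nat.mul (Nat.add (Nat.add (Nat.mul V (nat_lit 100000)) (Nat.mul s (nat_lit 693147180800)))
              (Nat.mul (nat_lit 2) er)) mT) (Nat.add (Nat.mul (lgU y) mT) S))
          false) false) false) false) false

noncomputable def typsLo (T V X0 er : ℕ) (ms : List ℕ) : List (ℕ × ℕ) → List ℕ → ℕ → Bool :=
  @List.rec ℕ (fun _ => List (ℕ × ℕ) → List ℕ → ℕ → Bool)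
    (fun vs Xs _ => @List.rec (ℕ × ℕ) (fun _ => Bool)
      (@List.rec ℕ (fun _ => Bool) true (fun _ _ _ => false) Xs) (fun _ _ _ => false) vs)
    (fun m _ ih vs Xs N => @List.rec (ℕ × ℕ) (fun _ => Bool) false
      (fun v vs' _ => @Prod.rec ℕ ℕ (fun _ => Bool) (fun p q =>
        @List.rec ℕ (fun _ => Bool) false
          (fun X Xs' _ => cond (frc (Nat.land N (nat_lit 115792089237316195423570985008687907853269984665640564039457584007913129639935)) fun S => typLo T V X0 er m X p q S)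
            (frc (Nat.shiftRight N (nat_lit 256)) fun N' => ih vs' Xs' N') false) Xs) v) vs) ms

noncomputable def rowLo (v : List (ℕ × ℕ)) (m X : List ℕ) (X0 V : ℕ) : Bool :=
  frc (lsum m (nat_lit 0)) fun n => frc (erB X0) fun er => cond (Nat.ble (nat_lit 65536) X0)
    (cond (Nat.ble (nat_lit 1) n) (cond (Nat.ble n (nat_lit 40))
      (cond (Nat.ble (ldot m X (nat_lit 0)) (nat_lit 67108863))
      (pick (nat_lit 0) (fun B => mkR m fun rows => mkZ X (nat_lit 18446744073709551616) fun zs =>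
        frc (Nat.mul n (Nat.shiftRight B (Nat.mul (nat_lit 160) n))) fun T =>
          frc (evN B rows zs (nat_lit 0) (nat_lit 1)) fun N => typsLo T V X0 er m v X N) BT n) false)
      false) false) false

/-! ### soundness -/

lemma dotR_map' (ρ : ℝ) (c X : List ℕ) : dotR c (X.map fun x : ℕ => ρ * ((x : ℝ) / 4096))
    = ρ * ((dotN c X : ℝ) / 4096) := by
  induction c generalizing X with
  | nil => simp [dotR, dotN]
  | cons c cs ih =>
    cases X with
    | nil => simp [dotR, dotN]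
    | cons x X =>
      simp only [List.map_cons, dotR, dotN, ih]
      push_cast
      ring

/-- the certificate inequality of the type `a` from above (the certificate is scaled by `ρ`) -/
theorem type_ineq_lo (m X : List ℕ) (X0 : ℕ) (hX0 : 65536 ≤ X0) (hl : X.length = m.length) (hn : m.sum ≤ 40)
    (a : ℕ) (ham : 0 < m.getD a 0) (hX : X0 ≤ X.getD a 0) (hdot : dotN m X < 2 ^ 26) (ρ : ℝ) (hρ : 0 < ρ)
    (hlρ : (10 : ℝ) ^ 12 * Real.log ρ = (erB X0 : ℕ)) :
    ((SF m fun c => slot (BT.getD m.sum 0) c.sum * lgU (dotN c X) * c.getD a 0 : ℕ) : ℝ)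
      ≤ ((m.getD a 0 * m.sum.factorial : ℕ) : ℝ) * ((10 : ℝ) ^ 12 *
        bx 0 0 ((decN a m).zip (X.map fun x : ℕ => ρ * ((x : ℝ) / 4096))) (ρ * ((X.getD a 0 : ℝ) / 4096))) := by
  have ha : a < m.length := by
    by_contra hcon
    rw [List.getD_eq_default _ _ (by omega)] at ham
    omega
  have hn1 : 1 ≤ m.sum := by
    have := getD_le_sum m a
    omega
  set xs : List ℝ := X.map fun x : ℕ => ρ * ((x : ℝ) / 4096) with hxs
  have hxl : xs.length = m.length := by rw [hxs, List.length_map, hl]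
  have hxa : xs.getD a 0 = ρ * ((X.getD a 0 : ℝ) / 4096) := by
    rw [hxs, List.getD_eq_getElem _ _ (by simpa [hl] using ha), List.getElem_map,
      List.getD_eq_getElem _ _ (by rw [hl]; exact ha)]
  set φ : List ℕ → ℝ := fun c => (Bq (c.sum - 1) (m.sum - c.sum) : ℝ) * Real.log (dotR c xs) with hφ
  have e1 : bx 0 0 ((decN a m).zip xs) (ρ * ((X.getD a 0 : ℝ) / 4096))
      = SF (decN a m) fun c => φ (incN a c) := by
    rw [bx_SF (decN a m) xs 0 0 _ (by rw [decN_length, hxl])]
    refine SF_congr _ _ _ fun c hc => ?_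
    have hcl : c.length = m.length := by rw [forall2_length c _ hc, decN_length]
    have h1 := sum_mono c _ hc
    have h2 := decN_sum a m ham
    rw [hφ]
    show _ = (Bq ((incN a c).sum - 1) (m.sum - (incN a c).sum) : ℝ) * Real.log (dotR (incN a c) xs)
    rw [incN_sum a c (by omega), incN_dot a c xs (by omega) (by omega), hxa,
      show 0 + c.sum = c.sum + 1 - 1 by omega,
      show 0 + ((decN a m).sum - c.sum) = m.sum - (c.sum + 1) by omega]
  rw [e1]
  have e2 : ((m.getD a 0 * m.sum.factorial : ℕ) : ℝ) * ((10 : ℝ) ^ 12 * SF (decN a m) fun c => φ (incN a c))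
      = SF m fun c => ((m.sum.factorial : ℝ) * (10 : ℝ) ^ 12) * ((c.getD a 0 : ℝ) * φ c) := by
    rw [SF_mul, ← SF_shift m a φ ham]
    push_cast
    ring
  rw [e2, SF_cast]
  refine SF_mono m _ _ fun c hc => ?_
  have hcl := forall2_length c m hc
  have h1 := sum_mono c m hc
  have h2 := getD_mono c m hc a
  have h3 := getD_le_sum c a
  have h4 := mul_getD_le_dot c X a (by rw [hcl, hl])
  have h5 := dotN_mono X c m hc
  rcases Nat.eq_zero_or_pos (c.getD a 0) with h0 | h0
  · rw [h0]; simp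
  · obtain ⟨k, hk⟩ : ∃ k, c.sum = k + 1 := ⟨c.sum - 1, by omega⟩
    have h6 := (BT_sound m.sum hn hn1).1 k (by omega)
    have h7 := Bq_fact m.sum (k + 1) (by omega) (by omega)
    have h8 : X0 ≤ dotN c X := by
      have : 1 * X.getD a 0 ≤ c.getD a 0 * X.getD a 0 := Nat.mul_le_mul_right _ h0
      omega
    have h9 := lgU_le X0 (dotN c X) hX0 h8 (by omega)
    have hdpos : (0 : ℝ) < (dotN c X : ℝ) / 4096 := by
      have : (0 : ℝ) < (dotN c X : ℝ) := by exact_mod_cast (by omega : 0 < dotN c X)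
      positivity
    have h10 : (10 : ℝ) ^ 12 * Real.log (ρ * ((dotN c X : ℝ) / 4096))
        = (10 : ℝ) ^ 12 * Real.log ((dotN c X : ℝ) / 4096) + (erB X0 : ℕ) := by
      rw [Real.log_mul hρ.ne' hdpos.ne', ← hlρ]
      ring
    rw [← h10] at h9
    show ((slot (BT.getD m.sum 0) c.sum * lgU (dotN c X) * c.getD a 0 : ℕ) : ℝ)
      ≤ (m.sum.factorial : ℝ) * (10 : ℝ) ^ 12 * ((c.getD a 0 : ℝ)
      * ((Bq (c.sum - 1) (m.sum - c.sum) : ℝ) * Real.log (dotR c xs)))
    rw [hxs, dotR_map', hk, h6.1]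
    rw [show k + 1 - 1 = k by omega] at h7 ⊢
    push_cast at h7 ⊢
    have e3 : (m.sum.factorial : ℝ) * (10 : ℝ) ^ 12 * ((c.getD a 0 : ℝ)
        * ((Bq k (m.sum - (k + 1)) : ℝ) * Real.log (ρ * ((dotN c X : ℝ) / 4096))))
        = (m.sum.factorial : ℝ) * (Bq k (m.sum - (k + 1)) : ℝ)
          * ((10 : ℝ) ^ 12 * Real.log (ρ * ((dotN c X : ℝ) / 4096))) * (c.getD a 0 : ℝ) := by ring
    rw [e3, h7]
    refine mul_le_mul_of_nonneg_right (mul_le_mul_of_nonneg_left h9 ?_) (Nat.cast_nonneg _)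
    positivity

theorem typLo_sound (T V X0 m X p q S : ℕ) (hX0 : 65536 ≤ X0)
    (h : typLo T V X0 (erB X0) m X p q S = true) :
    X0 ≤ X ∧ 1 ≤ p ∧ 1 ≤ q ∧
    (V : ℝ) * 100000 * ((m : ℝ) * T) ≤ (10 : ℝ) ^ 12 * (Real.log ((p : ℝ) / q) - Real.log ((X : ℝ) / 4096))
      * ((m : ℝ) * T) - (erB X0 : ℕ) * ((m : ℝ) * T) + S := by
  unfold typLo at h
  simp only [frc_eq] at h
  obtain ⟨h1, h⟩ := cond_eq_true h
  obtain ⟨h2, h⟩ := cond_eq_true h
  obtain ⟨h3, h⟩ := cond_eq_true h
  obtain ⟨h4, h⟩ := cond_eq_true h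
  obtain ⟨h5, h⟩ := cond_eq_true h
  replace h1 := Nat.le_of_ble_eq_true h1
  replace h2 := Nat.le_of_ble_eq_true h2
  have h3' : X0 ≤ X := Nat.le_of_ble_eq_true h3
  have h4' : 1 ≤ p := Nat.le_of_ble_eq_true h4
  have h5' : 1 ≤ q := Nat.le_of_ble_eq_true h5
  refine ⟨h3', h4', h5', ?_⟩
  replace h := Nat.le_of_ble_eq_true h
  set s := Nat.sub (Nat.log2 (Nat.mul q X)) (Nat.log2 p) with hs
  have ey : Nat.div (Nat.shiftLeft p (Nat.add 24 s)) (Nat.mul q X)
      = p * 2 ^ (24 + s) / (q * X) := by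
    have : Nat.shiftLeft p (Nat.add 24 s) = p <<< (24 + s) := rfl
    rw [this, Nat.shiftLeft_eq]
    rfl
  rw [ey] at h1 h2 h
  set y := p * 2 ^ (24 + s) / (q * X) with hy
  set er := erB X0 with her
  have h6 : (V * 100000 + s * 693147180800 + 2 * er) * (m * T) ≤ lgU y * (m * T) + S := h
  have hy26 : y < 67108864 := by
    have : y ≤ 67108863 := h2
    omega
  have h7 := lgU_le X0 y hX0 h1 hy26
  have hqX : 0 < q * X := Nat.mul_pos (by omega) (by omega)
  have h8 := @Nat.cast_div_le ℝ _ _ _ (p * 2 ^ (24 + s)) (q * X)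
  rw [← hy] at h8
  have hp : (0 : ℝ) < p := by exact_mod_cast (by omega : 0 < p)
  have hq : (0 : ℝ) < q := by exact_mod_cast (by omega : 0 < q)
  have hX : (0 : ℝ) < X := by exact_mod_cast (by omega : 0 < X)
  have hypos : (0 : ℝ) < y := by exact_mod_cast (by omega : 0 < y)
  have h9 : Real.log ((y : ℝ) / 4096)
      ≤ Real.log ((p : ℝ) / q) - Real.log ((X : ℝ) / 4096) + s * Real.log 2 := by
    have e1 : Real.log ((p : ℝ) / q) - Real.log ((X : ℝ) / 4096) + s * Real.log 2
        = Real.log (((p * 2 ^ (24 + s) : ℕ) : ℝ) / ((q * X : ℕ) : ℝ) / 4096) := by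
      have e2 : ((p * 2 ^ (24 + s) : ℕ) : ℝ) / ((q * X : ℕ) : ℝ) / 4096
          = (p : ℝ) / q / ((X : ℝ) / 4096) * 2 ^ s := by
        push_cast
        rw [pow_add]
        field_simp
        norm_num
      have e3 : Real.log ((p : ℝ) / q / ((X : ℝ) / 4096))
          = Real.log ((p : ℝ) / q) - Real.log ((X : ℝ) / 4096) :=
        Real.log_div (by positivity) (by positivity)
      rw [e2, Real.log_mul (by positivity) (by positivity), Real.log_pow, e3]
    rw [e1]
    refine Real.log_le_log (by positivity) ?_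
    exact div_le_div_of_nonneg_right h8 (by norm_num)
  have h10 := Real.log_two_lt_d9
  have h11 : ((V : ℝ) * 100000 + s * 693147180800 + 2 * er) * ((m : ℝ) * T)
      ≤ (lgU y : ℝ) * ((m : ℝ) * T) + S := by
    exact_mod_cast h6
  have hmT : (0 : ℝ) ≤ (m : ℝ) * T := by positivity
  have hs0 : (0 : ℝ) ≤ s := Nat.cast_nonneg _
  generalize (lgU y : ℝ) = u at h7 h11
  generalize ((er : ℕ) : ℝ) = ee at h7 h11 ⊢
  generalize Real.log ((y : ℝ) / 4096) = ly at h7 h9
  generalize Real.log ((p : ℝ) / q) - Real.log ((X : ℝ) / 4096) = w at h9 ⊢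
  generalize (m : ℝ) * T = mT at h11 hmT ⊢
  have h13 : (s : ℝ) * Real.log 2 ≤ s * 0.6931471808 := mul_le_mul_of_nonneg_left h10.le hs0
  have h12 : u ≤ (10 : ℝ) ^ 12 * w + s * 693147180800 + ee := by
    norm_num at h13 h7 ⊢
    linarith
  have := mul_le_mul_of_nonneg_right h12 hmT
  linarith

theorem typsLo_sound (T V X0 er : ℕ) (ms : List ℕ) : ∀ (vs : List (ℕ × ℕ)) (Xs : List ℕ) (N : ℕ),
    typsLo T V X0 er ms vs Xs N = true → vs.length = ms.length ∧ Xs.length = ms.length ∧
    ∀ a < ms.length, typLo T V X0 er (ms.getD a 0) (Xs.getD a 0) (vs.getD a (0, 0)).1 (vs.getD a (0, 0)).2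
      (N / 2 ^ (256 * a) % 2 ^ 256) = true := by
  induction ms with
  | nil =>
    intro vs Xs N h
    cases vs with
    | cons v vs => exact absurd h (by show ¬ (false = true); simp)
    | nil =>
      cases Xs with
      | cons X Xs => exact absurd h (by show ¬ (false = true); simp)
      | nil => exact ⟨rfl, rfl, by simp⟩
  | cons m ms ih =>
    intro vs Xs N h
    cases vs with
    | nil => exact absurd h (by show ¬ (false = true); simp)
    | cons v vs =>
      obtain ⟨p, q⟩ := v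
      cases Xs with
      | nil => exact absurd h (by show ¬ (false = true); simp)
      | cons X Xs =>
        have e : typsLo T V X0 er (m :: ms) ((p, q) :: vs) (X :: Xs) N
            = cond (frc (N &&& (2 ^ 256 - 1)) fun S => typLo T V X0 er m X p q S)
              (frc (N >>> 256) fun N' => typsLo T V X0 er ms vs Xs N') false := rfl
        rw [e, frc_eq, frc_eq, Nat.and_two_pow_sub_one_eq_mod, Nat.shiftRight_eq_div_pow] at h
        obtain ⟨h1, h2⟩ := cond_eq_true h
        obtain ⟨g1, g2, g3⟩ := ih vs Xs _ h2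
        refine ⟨by simp [g1], by simp [g2], fun a ha => ?_⟩
        cases a with
        | zero =>
          simp only [List.getD_cons_zero, mul_zero, pow_zero, Nat.div_one]
          exact h1
        | succ a =>
          simp only [List.getD_cons_succ]
          rw [show 256 * (a + 1) = 256 + 256 * a by ring, pow_add, ← Nat.div_div_eq_div_mul]
          exact g3 a (by simpa using ha)

/-- LOWER BOUNDS OF THE ROW FUNCTION. -/
theorem rowLo_sound (v : List (ℕ × ℕ)) (m X : List ℕ) (X0 V : ℕ) (h : rowLo v m X X0 V = true) :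
    (V : ℝ) / 10 ^ 7 ≤ FM (mk m (v.map fun u => (u.1 : ℝ) / (u.2 : ℝ))) := by
  unfold rowLo at h
  simp only [frc_eq, lsum_eq, ldot_eq, pick_eq] at h
  obtain ⟨hX0, h⟩ := cond_eq_true h
  obtain ⟨hn1, h⟩ := cond_eq_true h
  obtain ⟨hn, h⟩ := cond_eq_true h
  obtain ⟨hd, h⟩ := cond_eq_true h
  rw [Nat.zero_add] at hn1 hn hd h
  have hX0 : 65536 ≤ X0 := Nat.le_of_ble_eq_true hX0
  have hn1 : 1 ≤ m.sum := Nat.le_of_ble_eq_true hn1
  have hn : m.sum ≤ 40 := Nat.le_of_ble_eq_true hn
  have hd : dotN m X < 2 ^ 26 := by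
    have : dotN m X ≤ 67108863 := Nat.le_of_ble_eq_true hd
    omega
  have hm40 : ∀ x ∈ m, x ≤ 40 := by
    intro x hx
    obtain ⟨i, hi, rfl⟩ := List.getElem_of_mem hx
    have := getD_le_sum m i
    rw [List.getD_eq_getElem _ _ hi] at this
    omega
  rw [mkR_eq m hm40, mkZ_eq] at h
  obtain ⟨hlv, hlX, hty⟩ := typsLo_sound _ _ _ _ m v X _ h
  have eT : Nat.mul m.sum (Nat.shiftRight (BT.getD m.sum 0) (Nat.mul 160 m.sum)) = m.sum.factorial :=
    (BT_sound m.sum hn hn1).2
  have eN := evN_digits (BT.getD m.sum 0) m X hlX hn hd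
  set Sa : ℕ → ℕ := fun a => SF m fun c => slot (BT.getD m.sum 0) c.sum * lgU (dotN c X) * c.getD a 0
    with hSa
  have hdig : ∀ a < m.length, evN (BT.getD m.sum 0) (m.map brow) (zsOf X 18446744073709551616) 0 1
      / 2 ^ (256 * a) % 2 ^ 256 = Sa a := by
    intro a ha
    rw [show (18446744073709551616 : ℕ) = 2 ^ 64 by norm_num, eN]
    exact digit m.length Sa (fun b _ => digit_lt m X hn hn1 hd b) a ha
  obtain ⟨n, b, S, g1, g2, g3, g4, g5⟩ := exists_typed m (v.map fun u => (u.1 : ℝ) / (u.2 : ℝ))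
    (by simpa using hlv)
  have hv : ∀ a < m.length, (v.map fun u => (u.1 : ℝ) / (u.2 : ℝ)).getD a 0
      = ((v.getD a (0, 0)).1 : ℝ) / ((v.getD a (0, 0)).2 : ℝ) := by
    intro a ha
    have ha' : a < v.length := by omega
    rw [List.getD_eq_getElem _ _ (by simpa using ha'), List.getD_eq_getElem _ _ ha', List.getElem_map]
  have hty' : ∀ a < m.length, _ := fun a ha => typLo_sound _ _ _ _ _ _ _ _ hX0 (hty a ha)
  have hvpos : ∀ a < m.length, 0 < ((v.getD a (0, 0)).1 : ℝ) / ((v.getD a (0, 0)).2 : ℝ) := by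
    intro a ha
    obtain ⟨_, k2, k3, _⟩ := hty' a ha
    have k2' : (0 : ℝ) < ((v.getD a (0, 0)).1 : ℝ) := by exact_mod_cast (by omega : 0 < (v.getD a (0, 0)).1)
    have k3' : (0 : ℝ) < ((v.getD a (0, 0)).2 : ℝ) := by exact_mod_cast (by omega : 0 < (v.getD a (0, 0)).2)
    positivity
  obtain ⟨ρ, hρ, hlρ⟩ : ∃ ρ : ℝ, 0 < ρ ∧ (10 : ℝ) ^ 12 * Real.log ρ = (erB X0 : ℕ) :=
    ⟨Real.exp ((erB X0 : ℕ) / 10 ^ 12), Real.exp_pos _, by rw [Real.log_exp]; field_simp⟩
  rw [← g1, ← F_eq_FM]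
  refine F_ge_types b (List.range m.length) List.nodup_range S ?_
    (fun a => ((v.getD a (0, 0)).1 : ℝ) / ((v.getD a (0, 0)).2 : ℝ))
    (fun a => ρ * ((X.getD a 0 : ℝ) / 4096)) ?_ ?_ ?_ ?_ _ ?_
  · intro a ha c hc hac
    exact g2 a (List.mem_range.mp ha) c (List.mem_range.mp hc) hac
  · intro a ha k hk
    rw [List.mem_range] at ha
    rw [g5 a ha k hk, hv a ha]
  · intro a ha
    exact hvpos a (List.mem_range.mp ha)
  · obtain ⟨a, ha⟩ : ∃ a, 0 < m.getD a 0 := by
      by_contra hcon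
      push Not at hcon
      have : m.sum = 0 := by
        rw [List.sum_eq_zero_iff]
        intro x hx
        obtain ⟨i, hi, rfl⟩ := List.getElem_of_mem hx
        have := hcon i
        rw [List.getD_eq_getElem _ _ hi] at this
        omega
      omega
    have haR : a < m.length := by
      by_contra hcon
      rw [List.getD_eq_default _ _ (by omega)] at ha
      omega
    exact ⟨a, List.mem_range.mpr haR, Finset.card_pos.mp (by rw [g3 a haR]; exact ha)⟩
  · intro a ha
    rw [List.mem_range] at ha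
    obtain ⟨k1, _, _, _⟩ := hty' a ha
    have : (0 : ℝ) < (X.getD a 0 : ℝ) := by exact_mod_cast (by omega : 0 < X.getD a 0)
    positivity
  · intro a ha hne
    rw [List.mem_range] at ha
    have hma : 0 < m.getD a 0 := by
      rw [← g3 a ha]
      exact Finset.card_pos.mpr hne
    obtain ⟨k1, _, _, k4⟩ := hty' a ha
    have e1 : ((List.range m.length).map fun c => ((S c).card - (if c = a then 1 else 0),
        ρ * ((X.getD c 0 : ℝ) / 4096))) = (decN a m).zip (X.map fun x : ℕ => ρ * ((x : ℝ) / 4096)) := by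
      apply List.ext_getElem
      · simp [decN_length, hlX]
      · intro i hi1 hi2
        rw [List.length_map, List.length_range] at hi1
        rw [List.getElem_map, List.getElem_zip, List.getElem_range, List.getElem_map, g3 i hi1]
        have k5 := decN_getD a m i
        rw [List.getD_eq_getElem _ _ (by rw [decN_length]; exact hi1)] at k5
        rw [k5, List.getD_eq_getElem X _ (by rw [hlX]; exact hi1)]
    rw [e1]
    have k5 := type_ineq_lo m X X0 hX0 hlX hn a hma k1 hd ρ hρ hlρ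
    rw [hdig a ha] at k4
    set P := ((m.getD a 0 * m.sum.factorial : ℕ) : ℝ) with hP
    have hPpos : 0 < P := by
      rw [hP]
      exact_mod_cast Nat.mul_pos hma (Nat.factorial_pos _)
    have eP : ((m.getD a 0 : ℕ) : ℝ) * ((Nat.mul m.sum (Nat.shiftRight (BT.getD m.sum 0)
        (Nat.mul 160 m.sum)) : ℕ) : ℝ) = P := by
      rw [eT, hP]
      push_cast
      ring
    rw [eP] at k4
    have hXpos : (0 : ℝ) < (X.getD a 0 : ℝ) / 4096 := by
      have : (0 : ℝ) < (X.getD a 0 : ℝ) := by exact_mod_cast (by omega : 0 < X.getD a 0)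
      positivity
    have k8 : (10 : ℝ) ^ 12 * Real.log (ρ * ((X.getD a 0 : ℝ) / 4096))
        = (10 : ℝ) ^ 12 * Real.log ((X.getD a 0 : ℝ) / 4096) + (erB X0 : ℕ) := by
      rw [Real.log_mul hρ.ne' hXpos.ne', ← hlρ]
      ring
    have k6 : (V : ℝ) * 100000 * P ≤ (10 : ℝ) ^ 12 * (Real.log (((v.getD a (0, 0)).1 : ℝ) / ((v.getD a (0, 0)).2 : ℝ))
        - Real.log (ρ * ((X.getD a 0 : ℝ) / 4096))
        + bx 0 0 ((decN a m).zip (X.map fun x : ℕ => ρ * ((x : ℝ) / 4096))) (ρ * ((X.getD a 0 : ℝ) / 4096))) * P := by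
      have e9 : ((Sa a : ℕ) : ℝ) = ((SF m fun c => slot (BT.getD m.sum 0) c.sum * lgU (dotN c X) *
        c.getD a 0 : ℕ) : ℝ) := rfl
      rw [e9] at k4
      rw [mul_add ((10 : ℝ) ^ 12), mul_sub ((10 : ℝ) ^ 12), k8]
      nlinarith
    have k7 := le_of_mul_le_mul_right k6 hPpos
    rw [div_le_iff₀ (by norm_num)]
    nlinarith

end Pk
end Ent
end Pool.Agent.Lib.MP_6947cd_al
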