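import Pool.Agent.Lib.MP_6947cd_al.L.ReSpec

/-!
Problem MP_6947cd_al (Chollet).  Row certificates `rowE`: the logarithm by exponentials, assembly from the two
inequalities on `[1, 2]` and on `[0, 1 / 2]`.
-/

set_option autoImplicit false
open Finset

namespace Pool.Agent.Lib.MP_6947cd_al
namespace RE

noncomputable def Ls (N : ℕ) (s : ℝ) : ℝ := ∑ i ∈ range N, (1 - Real.exp (-(s / 2 ^ (i + 1))))

noncomputable def Us (M : ℕ) (s : ℝ) : ℝ := ∑ i ∈ range M, Real.exp (-(2 ^ i * s))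

/-- (A) -/
def PA : Prop := ∀ (N M : ℕ) (t : ℝ), 30 ≤ N → 1 ≤ t → t ≤ 2 →
  Real.log t ≤ Real.log 2 * (Ls N t - Us M t) - 23064097 / 10 ^ 8

/-- (B) -/
def PB : Prop := ∀ (N : ℕ) (s : ℝ), 0 ≤ s → s ≤ 1 / 2 →
  Ls N s ≤ 3 / 10 ^ 9 + 524668399482 / 2 ^ 40 * s + ∑ j ∈ range 5, (uR j - 1) * (1 - Real.exp (-(2 ^ j * s)))

lemma Ls_two (N : ℕ) (y : ℝ) : Ls (N + 1) (2 * y) = Ls N y + (1 - Real.exp (-y)) := by
  unfold Ls
  rw [sum_range_succ']
  congr 1
  · refine sum_congr rfl fun i _ => ?_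
    congr 3
    rw [pow_succ 2 (i + 1)]
    field_simp
  · congr 3
    norm_num

lemma Ls_shift (N : ℕ) (s : ℝ) : ∀ j : ℕ, Ls (N + j) (2 ^ j * s) = Ls N s + (j - Us j s) := by
  intro j
  induction j with
  | zero => simp [Us]
  | succ j ih =>
    rw [← add_assoc, show (2 : ℝ) ^ (j + 1) * s = 2 * (2 ^ j * s) by ring, Ls_two, ih]
    unfold Us
    rw [sum_range_succ]
    push_cast
    ring

lemma Us_shift (M : ℕ) (s : ℝ) (j : ℕ) : Us j s + Us M (2 ^ j * s) = Us (j + M) s := by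
  unfold Us
  rw [sum_range_add]
  congr 1
  refine sum_congr rfl fun i _ => ?_
  congr 2
  rw [pow_add]
  ring

lemma Us_mono {M M' : ℕ} (h : M ≤ M') (s : ℝ) : Us M s ≤ Us M' s := by
  unfold Us
  refine sum_le_sum_of_subset_of_nonneg (range_subset_range.mpr h) fun i _ _ => (Real.exp_pos _).le

lemma uR_ge (i : ℕ) : uR (5 + i) = 1 := by
  have : uN (5 + i) = 2147483648 := by
    unfold uN
    rw [List.getD_eq_default]
    simp
  unfold uR
  rw [this]
  norm_num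

lemma uR_nonneg (i : ℕ) : 0 ≤ uR i := by
  unfold uR
  positivity

theorem specLE_of (hA : PA) (hB : PB) : SpecLE := by
  intro R s hs0 hs1
  -- reduction to at least five exponentials
  have hR : ∑ i ∈ range R, uR i * Real.exp (-(2 ^ i * s)) ≤ ∑ i ∈ range (5 + R), uR i * Real.exp (-(2 ^ i * s)) :=
    sum_le_sum_of_subset_of_nonneg (range_subset_range.mpr (by omega)) fun i _ _ =>
      mul_nonneg (uR_nonneg i) (Real.exp_pos _).le
  have hsum : ∑ i ∈ range (5 + R), uR i * Real.exp (-(2 ^ i * s))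
      = Us (5 + R) s + ∑ j ∈ range 5, (uR j - 1) * Real.exp (-(2 ^ j * s)) := by
    unfold Us
    rw [sum_range_add, sum_range_add (n := 5)]
    have e : ∀ i ∈ range R, uR (5 + i) * Real.exp (-(2 ^ (5 + i) * s)) = Real.exp (-(2 ^ (5 + i) * s)) :=
      fun i _ => by rw [uR_ge, one_mul]
    rw [sum_congr rfl e]
    have e2 : ∑ j ∈ range 5, uR j * Real.exp (-(2 ^ j * s)) = ∑ j ∈ range 5, Real.exp (-(2 ^ j * s))
        + ∑ j ∈ range 5, (uR j - 1) * Real.exp (-(2 ^ j * s)) := by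
      rw [← sum_add_distrib]
      exact sum_congr rfl fun j _ => by ring
    rw [e2]
    ring
  -- the dyadic shift
  obtain ⟨n, hn1, hn2⟩ := exists_nat_pow_near (x := 1 / s) (y := (2 : ℝ)) (by
    rw [le_div_iff₀ hs0]
    linarith) (by norm_num)
  rw [le_div_iff₀ hs0] at hn1
  rw [div_lt_iff₀ hs0] at hn2
  have ht1 : 1 ≤ 2 ^ (n + 1) * s := hn2.le
  have ht2 : 2 ^ (n + 1) * s ≤ 2 := by
    rw [pow_succ]
    linarith
  have h1 := hA (30 + (n + 1)) (5 + R) (2 ^ (n + 1) * s) (by omega) ht1 ht2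
  rw [Ls_shift] at h1
  have h2 := Us_shift (5 + R) s (n + 1)
  have h3 := Us_mono (show 5 + R ≤ n + 1 + (5 + R) by omega) s
  rw [Real.log_mul (by positivity) hs0.ne', Real.log_pow] at h1
  have h4 := hB 30 s hs0.le hs1
  have hl1 := Real.log_two_gt_d9
  have hl2 := Real.log_two_lt_d9
  have hsd : ∑ j ∈ range 5, (uR j - 1) * (1 - Real.exp (-(2 ^ j * s)))
      = ∑ j ∈ range 5, (uR j - 1) - ∑ j ∈ range 5, (uR j - 1) * Real.exp (-(2 ^ j * s)) := by
    rw [← sum_sub_distrib]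
    exact sum_congr rfl fun j _ => by ring
  have hd : ∑ j ∈ range 5, (uR j - 1) = 1404615956 / 2 ^ 31 := by
    simp only [sum_range_succ, sum_range_zero, uR, uN]
    norm_num
  rw [hsd, hd] at h4
  set E := ∑ j ∈ range 5, (uR j - 1) * Real.exp (-(2 ^ j * s)) with hE
  have h5 : Us (5 + R) s + E ≤ Us (n + 1 + (5 + R)) s + E := by linarith
  -- the combination
  have h6 : Real.log s ≤ Real.log 2 * (Ls 30 s - Us (n + 1 + (5 + R)) s) - 23064097 / 10 ^ 8 := by
    have : Real.log 2 * (Ls 30 s + (((n + 1 : ℕ) : ℝ) - Us (n + 1) s) - Us (5 + R) (2 ^ (n + 1) * s))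
        = Real.log 2 * (Ls 30 s - Us (n + 1 + (5 + R)) s) + ((n + 1 : ℕ) : ℝ) * Real.log 2 := by
      rw [← h2]
      ring
    rw [this] at h1
    linarith
  have hl0 : 0 < Real.log 2 := by linarith
  have h7 : Real.log 2 * (Ls 30 s - Us (n + 1 + (5 + R)) s)
      ≤ Real.log 2 * (3 / 10 ^ 9 + 524668399482 / 2 ^ 40 * s + 1404615956 / 2 ^ 31
        - ∑ i ∈ range R, uR i * Real.exp (-(2 ^ i * s))) := by
    refine mul_le_mul_of_nonneg_left ?_ hl0.le
    rw [hsum] at hR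
    linarith
  have h8 : Real.log 2 * (3 / 10 ^ 9 + 1404615956 / 2 ^ 31) ≤ 6931471808 / 10 ^ 10 * (3 / 10 ^ 9 + 1404615956 / 2 ^ 31) := by
    refine mul_le_mul_of_nonneg_right (by linarith) (by positivity)
  have h9 : Real.log 2 * (524668399482 / 2 ^ 40 * s) ≤ 6931471808 / 10 ^ 10 * (524668399482 / 2 ^ 40 * s) := by
    refine mul_le_mul_of_nonneg_right (by linarith) (by positivity)
  have h10 : Real.log 2 * (3 / 10 ^ 9 + 524668399482 / 2 ^ 40 * s + 1404615956 / 2 ^ 31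
        - ∑ i ∈ range R, uR i * Real.exp (-(2 ^ i * s)))
      = Real.log 2 * (3 / 10 ^ 9 + 1404615956 / 2 ^ 31) + Real.log 2 * (524668399482 / 2 ^ 40 * s)
        - Real.log 2 * ∑ i ∈ range R, uR i * Real.exp (-(2 ^ i * s)) := by ring
  rw [h10] at h7
  have h11 : (6931471808 : ℝ) / 10 ^ 10 * (3 / 10 ^ 9 + 1404615956 / 2 ^ 31)
      ≤ 222729470000 / 10 ^ 12 + 23064097 / 10 ^ 8 := by norm_num
  have h12 : (6931471808 : ℝ) / 10 ^ 10 * (524668399482 / 2 ^ 40 * s) ≤ 330758141300 / 10 ^ 12 * s := by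
    have e : (6931471808 : ℝ) / 10 ^ 10 * (524668399482 / 2 ^ 40 * s)
        = (6931471808 / 10 ^ 10 * (524668399482 / 2 ^ 40)) * s := by ring
    rw [e]
    exact mul_le_mul_of_nonneg_right (by norm_num) hs0.le
  linarith

end RE
end Pool.Agent.Lib.MP_6947cd_al
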