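import Pool.Agent.Lib.MP_6947cd_al.L.ReSpec

/-!
Problem MP_6947cd_al (Chollet).  Row certificates `rowE`: integer bounds of the exponential and of the logarithms.
-/

set_option autoImplicit false
open Finset

namespace Pool.Agent.Lib.MP_6947cd_al
namespace RE
namespace GM

open Ent Ent.Pk

/-! ### the exponential -/

lemma exp5 {v : ℝ} (h0 : 0 ≤ v) (h1 : v ≤ 1) :
    1 - v + v ^ 2 / 2 - v ^ 3 / 6 + v ^ 4 / 24 - v ^ 5 / 120 ≤ Real.exp (-v) := by
  have h := Real.exp_bound (x := -v) (by rw [abs_neg, abs_of_nonneg h0]; exact h1) (n := 7) (by norm_num)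
  rw [abs_neg, abs_of_nonneg h0] at h
  have h2 := (abs_le.mp h).1
  simp only [Finset.sum_range_succ, Finset.sum_range_zero, Nat.factorial] at h2
  norm_num at h2
  have h3 : v ^ 7 ≤ v ^ 6 := pow_le_pow_of_le_one h0 h1 (by norm_num)
  have h4 : (0 : ℝ) ≤ v ^ 6 := by positivity
  have e1 : (-v) ^ 3 = -v ^ 3 := by ring
  have e3 : (-v) ^ 5 = -v ^ 5 := by ring
  simp only [e1, e3] at h2
  linarith

lemma shr_le (a n : ℕ) : ((Nat.shiftRight a n : ℕ) : ℝ) ≤ (a : ℝ) / 2 ^ n := by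
  have e : Nat.shiftRight a n = a / 2 ^ n := Nat.shiftRight_eq_div_pow a n
  rw [e]
  refine (Nat.cast_div_le).trans (le_of_eq ?_)
  push_cast
  rfl

lemma sq_le {W r : ℕ} {e : ℝ} (h : (r : ℝ) ≤ 2 ^ W * e) : ((sq W r : ℕ) : ℝ) ≤ 2 ^ W * e ^ 2 := by
  unfold sq
  refine (shr_le _ _).trans ?_
  have h2 : (0 : ℝ) < 2 ^ W := by positivity
  rw [div_le_iff₀ h2]
  have e1 : ((Nat.mul r r : ℕ) : ℝ) = (r : ℝ) * r := by
    have : Nat.mul r r = r * r := rfl
    rw [this, Nat.cast_mul]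
  rw [e1]
  have h3 : (r : ℝ) * r ≤ (2 ^ W * e) * (2 ^ W * e) :=
    mul_le_mul h h (Nat.cast_nonneg _) ((Nat.cast_nonneg _).trans h)
  refine h3.trans (le_of_eq ?_)
  ring

lemma poly5 {X c1 c2 c3 c4 c5 : ℕ} (h1 : c1 = 5 * 2 ^ 29) (h2 : c2 = 20 * 2 ^ 58) (h3 : c3 = 60 * 2 ^ 87)
    (h4 : c4 = 120 * 2 ^ 116) (h5 : c5 = 120 * 2 ^ 145) (hX : X ≤ 2 ^ 26) :
    ((Nat.sub c5 (Nat.mul X (Nat.sub c4 (Nat.mul X (Nat.sub c3 (Nat.mul X (Nat.sub c2 (Nat.mul X
      (Nat.sub c1 X)))))))) : ℕ) : ℝ)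
      = 120 * 2 ^ 145 * (1 - (X : ℝ) / 2 ^ 29 + ((X : ℝ) / 2 ^ 29) ^ 2 / 2 - ((X : ℝ) / 2 ^ 29) ^ 3 / 6
        + ((X : ℝ) / 2 ^ 29) ^ 4 / 24 - ((X : ℝ) / 2 ^ 29) ^ 5 / 120) := by
  obtain ⟨a1, ha1⟩ : ∃ a, a = Nat.sub c1 X := ⟨_, rfl⟩
  rw [← ha1]
  obtain ⟨a2, ha2⟩ : ∃ a, a = Nat.sub c2 (Nat.mul X a1) := ⟨_, rfl⟩
  rw [← ha2]
  obtain ⟨a3, ha3⟩ : ∃ a, a = Nat.sub c3 (Nat.mul X a2) := ⟨_, rfl⟩
  rw [← ha3]
  obtain ⟨a4, ha4⟩ : ∃ a, a = Nat.sub c4 (Nat.mul X a3) := ⟨_, rfl⟩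
  rw [← ha4]
  have b1 : a1 ≤ 5 * 2 ^ 29 := by
    rw [ha1, ← h1]
    exact Nat.sub_le _ _
  have b2 : a2 ≤ 20 * 2 ^ 58 := by
    rw [ha2, ← h2]
    exact Nat.sub_le _ _
  have b3 : a3 ≤ 60 * 2 ^ 87 := by
    rw [ha3, ← h3]
    exact Nat.sub_le _ _
  have b4 : a4 ≤ 120 * 2 ^ 116 := by
    rw [ha4, ← h4]
    exact Nat.sub_le _ _
  have e1 : (a1 : ℝ) = 5 * 2 ^ 29 - X := by
    have : a1 = c1 - X := ha1
    rw [this, Nat.cast_sub (by omega), h1]
    push_cast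
    ring
  have e2 : (a2 : ℝ) = 20 * 2 ^ 58 - X * a1 := by
    have h6 : X * a1 ≤ c2 := by
      rw [h2]
      exact (Nat.mul_le_mul hX b1).trans (by norm_num)
    have : a2 = c2 - X * a1 := ha2
    rw [this, Nat.cast_sub h6, h2]
    push_cast
    ring
  have e3 : (a3 : ℝ) = 60 * 2 ^ 87 - X * a2 := by
    have h6 : X * a2 ≤ c3 := by
      rw [h3]
      exact (Nat.mul_le_mul hX b2).trans (by norm_num)
    have : a3 = c3 - X * a2 := ha3
    rw [this, Nat.cast_sub h6, h3]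
    push_cast
    ring
  have e4 : (a4 : ℝ) = 120 * 2 ^ 116 - X * a3 := by
    have h6 : X * a3 ≤ c4 := by
      rw [h4]
      exact (Nat.mul_le_mul hX b3).trans (by norm_num)
    have : a4 = c4 - X * a3 := ha4
    rw [this, Nat.cast_sub h6, h4]
    push_cast
    ring
  have h6 : X * a4 ≤ c5 := by
    rw [h5]
    exact (Nat.mul_le_mul hX b4).trans (by norm_num)
  have e5 : Nat.sub c5 (Nat.mul X a4) = c5 - X * a4 := rfl
  rw [e5, Nat.cast_sub h6, h5]
  push_cast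
  rw [e4, e3, e2, e1]
  generalize (X : ℝ) = x
  have : x = 2 ^ 29 * (x / 2 ^ 29) := by
    field_simp
  generalize x / 2 ^ 29 = v at this ⊢
  rw [this]
  ring

theorem specE0 : SpecE0 := by
  intro W X hW hX
  obtain ⟨v, hv⟩ : ∃ v, v = (X : ℝ) / 2 ^ 29 := ⟨_, rfl⟩
  have hX' : (X : ℝ) ≤ 2 ^ 26 := by exact_mod_cast hX
  have v0 : 0 ≤ v := by rw [hv]; positivity
  have v1 : v ≤ 1 := by
    rw [hv, div_le_one (by positivity)]
    exact hX'.trans (by norm_num)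
  have e0 : -((X : ℝ) / 2 ^ 27) = (2 * 2 : ℕ) * (-v) := by
    rw [hv]
    push_cast
    ring
  rw [e0, Real.exp_nat_mul, pow_mul]
  unfold E0
  refine sq_le (sq_le ?_)
  have hp := poly5 (X := X) (c1 := nat_lit 0xa0000000) (c2 := nat_lit 0x5000000000000000)
    (c3 := nat_lit 0x1e0000000000000000000000) (c4 := nat_lit 0x7800000000000000000000000000000)
    (c5 := nat_lit 0xf0000000000000000000000000000000000000) rfl rfl rfl rfl rfl hX
  obtain ⟨P, hP⟩ : ∃ P, P = Nat.sub (nat_lit 0xf0000000000000000000000000000000000000) (Nat.mul X (Nat.sub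
    (nat_lit 0x7800000000000000000000000000000) (Nat.mul X (Nat.sub (nat_lit 0x1e0000000000000000000000)
    (Nat.mul X (Nat.sub (nat_lit 0x5000000000000000) (Nat.mul X (Nat.sub (nat_lit 0xa0000000) X)))))))) := ⟨_, rfl⟩
  rw [← hP] at hp ⊢
  rw [← hv] at hp
  have eK : Nat.shiftLeft (nat_lit 120) (Nat.sub (nat_lit 145) W) = 120 * 2 ^ (145 - W) :=
    Nat.shiftLeft_eq 120 (145 - W)
  rw [eK]
  clear hP eK
  have h1 : ((Nat.div P (120 * 2 ^ (145 - W)) : ℕ) : ℝ) ≤ (P : ℝ) / ((120 * 2 ^ (145 - W) : ℕ) : ℝ) :=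
    Nat.cast_div_le
  refine h1.trans ?_
  have e2 : ((2 : ℝ) ^ 145) = 2 ^ W * 2 ^ (145 - W) := by
    rw [← pow_add]
    congr 1
    omega
  have hQ : (0 : ℝ) < 2 ^ (145 - W) := by positivity
  rw [hp, e2]
  push_cast
  rw [div_le_iff₀ (by positivity)]
  have h5 := exp5 v0 v1
  have hW2 : (0 : ℝ) < 2 ^ W := by positivity
  have h6 := mul_le_mul_of_nonneg_left h5 (mul_pos hW2 (mul_pos (show (0 : ℝ) < 120 by norm_num) hQ)).le
  refine le_trans (le_of_eq ?_) (h6.trans (le_of_eq ?_))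
  · ring
  · ring

/-! ### the table of logarithms -/

/-- `log ((w + 1) / (w - 1)) ≥ 2 (1 / w + 1 / (3 w ^ 3))` -/
lemma log_ratio {w : ℝ} (hw : 1 < w) : 2 * (1 / w + 1 / (3 * w ^ 3)) ≤ Real.log ((w + 1) / (w - 1)) := by
  have w0 : 0 < w := by linarith
  have z0 : 0 < 1 / w := by positivity
  have z1 : 1 / w < 1 := by rw [div_lt_one w0]; exact hw
  have h := Real.hasSum_log_sub_log_of_abs_lt_one (x := 1 / w) (by rw [abs_of_pos z0]; exact z1)
  have h2 := sum_le_hasSum (range 2) (fun k _ => by positivity) h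
  have e1 : Real.log (1 + 1 / w) - Real.log (1 - 1 / w) = Real.log ((w + 1) / (w - 1)) := by
    rw [← Real.log_div (by positivity) (by linarith)]
    congr 1
    have : w - 1 ≠ 0 := by linarith
    field_simp
  rw [e1] at h2
  refine le_trans (le_of_eq ?_) h2
  rw [Finset.sum_range_succ, Finset.sum_range_succ, Finset.sum_range_zero]
  push_cast
  field_simp
  norm_num
  ring

/-- the entry `i` of the table -/
def en (i : ℕ) : ℕ := Nat.land (Nat.shiftRight LQ (Nat.mul (nat_lit 40) i)) (nat_lit 1099511627775)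

/-- the increments of the table -/
def inOK (i : ℕ) : Bool := Nat.ble (en (i + 1)) (en i + 2000000000000 / (2 * (512 + i) + 1)
  + 2000000000000 / (3 * (2 * (512 + i) + 1) ^ 3))

lemma tab_ok : Nat.beq (en 0) 0 = true ∧ (List.range 511).all inOK = true := by
  constructor <;> decide +kernel

lemma en_le : ∀ i : ℕ, i ≤ 511 → ((en i : ℕ) : ℝ) ≤ 10 ^ 12 * Real.log ((512 + i : ℕ) / 512) := by
  intro i
  induction i with
  | zero =>
    intro _
    rw [Nat.eq_of_beq_eq_true tab_ok.1]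
    simp
  | succ i ih =>
    intro hi
    have h1 := ih (by omega)
    have h2 := List.all_eq_true.mp tab_ok.2 i (List.mem_range.mpr (by omega))
    have h3 := Nat.le_of_ble_eq_true h2
    obtain ⟨w, hw⟩ : ∃ w, w = 2 * (512 + i) + 1 := ⟨_, rfl⟩
    rw [← hw] at h3
    have hw1 : (1 : ℝ) < w := by
      rw [hw]
      push_cast
      have : (0 : ℝ) ≤ i := Nat.cast_nonneg _
      linarith
    have h4 := log_ratio hw1
    have h5 : ((2000000000000 / w : ℕ) : ℝ) ≤ 2000000000000 / w := by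
      have := @Nat.cast_div_le ℝ _ _ _ 2000000000000 w
      exact_mod_cast this
    have h6 : ((2000000000000 / (3 * w ^ 3) : ℕ) : ℝ) ≤ 2000000000000 / (3 * (w : ℝ) ^ 3) := by
      have := @Nat.cast_div_le ℝ _ _ _ 2000000000000 (3 * w ^ 3)
      push_cast at this
      exact_mod_cast this
    have h7 : ((en (i + 1) : ℕ) : ℝ) ≤ ((en i + 2000000000000 / w + 2000000000000 / (3 * w ^ 3) : ℕ) : ℝ) :=
      Nat.cast_le.mpr h3
    push_cast at h7
    have e1 : Real.log (((512 + (i + 1) : ℕ) : ℝ) / 512) = Real.log (((512 + i : ℕ) : ℝ) / 512)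
        + Real.log (((w : ℝ) + 1) / (w - 1)) := by
      have p1 : (0 : ℝ) < ((512 + i : ℕ) : ℝ) := by positivity
      rw [← Real.log_mul (by positivity) (by
        have : (0 : ℝ) < w - 1 := by linarith
        positivity)]
      congr 1
      rw [hw]
      push_cast at p1 ⊢
      field_simp
      ring
    rw [e1, mul_add]
    have h8 : (0 : ℝ) < w := by linarith
    have e2 : (10 : ℝ) ^ 12 * (2 * (1 / (w : ℝ) + 1 / (3 * (w : ℝ) ^ 3)))
        = 2000000000000 / (w : ℝ) + 2000000000000 / (3 * (w : ℝ) ^ 3) := by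
      field_simp
      norm_num
    have h9 := mul_le_mul_of_nonneg_left h4 (show (0 : ℝ) ≤ 10 ^ 12 by norm_num)
    rw [e2] at h9
    have e3 : ((2000000000000 / w : ℕ) : ℝ) ≤ 2000000000000 / (w : ℝ) := h5
    have h10 : (en (i + 1) : ℝ) ≤ (en i : ℝ) + ((2000000000000 / w : ℕ) : ℝ)
        + ((2000000000000 / (3 * w ^ 3) : ℕ) : ℝ) := by
      have := Nat.cast_le (α := ℝ).mpr h3
      rw [Nat.cast_add, Nat.cast_add] at this
      exact this
    linarith

/-- the second order part -/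
lemma rs_le (lo b : ℕ) (hb : 0 < b) :
    ((rs (Nat.div (Nat.shiftLeft lo (nat_lit 40)) b) : ℕ) : ℝ) ≤ 10 ^ 12 * Real.log (1 + (lo : ℝ) / b) := by
  obtain ⟨d, hd⟩ : ∃ d, d = Nat.div (Nat.shiftLeft lo (nat_lit 40)) b := ⟨_, rfl⟩
  rw [← hd]
  have hb' : (0 : ℝ) < b := by exact_mod_cast hb
  have h1 : (d : ℝ) / 2 ^ 40 ≤ (lo : ℝ) / b := by
    have e : Nat.shiftLeft lo (nat_lit 40) = lo * 2 ^ 40 := Nat.shiftLeft_eq lo 40
    have h2 : (d : ℝ) ≤ ((lo * 2 ^ 40 : ℕ) : ℝ) / b := by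
      rw [hd, e]
      exact Nat.cast_div_le
    rw [div_le_iff₀ (by positivity)]
    refine h2.trans (le_of_eq ?_)
    push_cast
    ring
  have hlog : Real.log (1 + (d : ℝ) / 2 ^ 40) ≤ Real.log (1 + (lo : ℝ) / b) :=
    Real.log_le_log (by positivity) (by linarith)
  have hl0 : 0 ≤ Real.log (1 + (lo : ℝ) / b) := Real.log_nonneg (by
    have : 0 ≤ (lo : ℝ) / b := by positivity
    linarith)
  unfold rs
  refine (shr_le _ _).trans ?_
  rcases Nat.le_total d 2199023255552 with h3 | h3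
  · have e : Nat.mul (Nat.mul d (Nat.sub (nat_lit 2199023255552) d)) (nat_lit 1000000000000)
        = d * (2199023255552 - d) * 1000000000000 := rfl
    rw [e]
    push_cast [Nat.cast_sub h3]
    have h4 : (d : ℝ) / 2 ^ 40 - ((d : ℝ) / 2 ^ 40) ^ 2 / 2 ≤ Real.log (1 + (d : ℝ) / 2 ^ 40) := by
      have z0 : 0 ≤ (d : ℝ) / 2 ^ 40 := by positivity
      generalize (d : ℝ) / 2 ^ 40 = z at z0
      have h5 := Real.le_log_one_add_of_nonneg z0
      refine le_trans ?_ h5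
      rw [le_div_iff₀ (by linarith)]
      nlinarith [mul_nonneg z0 (mul_nonneg z0 z0)]
    have h5 := mul_le_mul_of_nonneg_left (h4.trans hlog) (show (0 : ℝ) ≤ 10 ^ 12 by norm_num)
    refine le_trans (le_of_eq ?_) h5
    ring
  · have e : Nat.sub (nat_lit 2199023255552) d = 0 := Nat.sub_eq_zero_of_le h3
    rw [e]
    have e2 : Nat.mul (Nat.mul d 0) (nat_lit 1000000000000) = 0 := by
      have : Nat.mul (Nat.mul d 0) (nat_lit 1000000000000) = d * 0 * 1000000000000 := rfl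
      rw [this, Nat.mul_zero, Nat.zero_mul]
    rw [e2, Nat.cast_zero, zero_div]
    positivity

theorem specLgN : SpecLgN := by
  intro w
  obtain ⟨l, hl⟩ : ∃ l, l = Nat.shiftRight w (nat_lit 26) := ⟨_, rfl⟩
  obtain ⟨i, hi⟩ : ∃ i, i = Nat.land (Nat.shiftRight w (nat_lit 17)) (nat_lit 511) := ⟨_, rfl⟩
  obtain ⟨lo, hlo⟩ : ∃ lo, lo = Nat.land w (nat_lit 131071) := ⟨_, rfl⟩
  have hi1 : i ≤ 511 := by
    rw [hi]
    exact Nat.and_le_right
  have ewb : wb w = (512 + i) * 2 ^ l := by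
    unfold wb
    rw [← hl, ← hi]
    exact Nat.shiftLeft_eq (512 + i) l
  obtain ⟨b, hb⟩ : ∃ b, b = (512 + i) * 2 ^ l := ⟨_, rfl⟩
  have hb0 : 0 < b := by
    rw [hb]
    positivity
  have hb' : (0 : ℝ) < b := by exact_mod_cast hb0
  have ewx : wx w = b + lo := by
    unfold wx
    rw [ewb, ← hb, ← hlo]
    rfl
  rw [ewx]
  have elg : lgN w = (18 - l) * 693147180800 - (en i + rs (Nat.div (Nat.shiftLeft lo (nat_lit 40)) b)) := by
    unfold lgN en
    rw [ewb, ← hb, ← hl, ← hi, ← hlo]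
    rfl
  have hen := en_le i hi1
  have hrs := rs_le lo b hb0
  obtain ⟨E, hE⟩ : ∃ E, E = en i := ⟨_, rfl⟩
  obtain ⟨r, hr⟩ : ∃ r, r = rs (Nat.div (Nat.shiftLeft lo (nat_lit 40)) b) := ⟨_, rfl⟩
  rw [← hE] at hen
  rw [← hr] at hrs
  rw [← hE, ← hr] at elg
  rw [elg]
  have hlo0 : (0 : ℝ) ≤ (lo : ℝ) / b := by positivity
  have e1 : Real.log (((b + lo : ℕ) : ℝ) / 2 ^ 27) = Real.log ((b : ℝ) / 2 ^ 27) + Real.log (1 + (lo : ℝ) / b) := by
    rw [← Real.log_mul (by positivity) (by positivity)]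
    congr 1
    push_cast
    field_simp
  have hb2 : (b : ℝ) = ((512 + i : ℕ) : ℝ) * 2 ^ l := by
    rw [hb]
    push_cast
    ring
  have e2 : Real.log ((b : ℝ) / 2 ^ 27) = Real.log (((512 + i : ℕ) : ℝ) / 512) + ((l : ℝ) - 18) * Real.log 2 := by
    have e3 : (b : ℝ) / 2 ^ 27 = ((512 + i : ℕ) : ℝ) / 512 * (2 ^ l / 2 ^ 18) := by
      rw [hb2]
      ring
    have p1 : (0 : ℝ) < ((512 + i : ℕ) : ℝ) := by positivity
    have e4 : Real.log ((2 : ℝ) ^ l / 2 ^ 18) = ((l : ℝ) - 18) * Real.log 2 := by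
      rw [Real.log_div (by positivity) (by positivity), Real.log_pow, Real.log_pow]
      push_cast
      ring
    rw [e3, Real.log_mul (by positivity) (by positivity), e4]
  rw [e1, e2]
  have g2 := Real.log_two_lt_d9
  have g1 := Real.log_two_gt_d9
  have h9 : 0 ≤ Real.log (1 + (lo : ℝ) / b) := Real.log_nonneg (by linarith)
  have h10 : 0 ≤ Real.log (((512 + i : ℕ) : ℝ) / 512) := Real.log_nonneg (by
    rw [le_div_iff₀ (by norm_num)]
    push_cast
    have : (0 : ℝ) ≤ i := Nat.cast_nonneg _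
    linarith)
  clear hE hr hb hb' hb2 hi hlo hl ewb ewx elg e1 e2
  generalize Real.log (1 + (lo : ℝ) / b) = A at *
  generalize Real.log (((512 + i : ℕ) : ℝ) / 512) = B at *
  generalize Real.log 2 = c at *
  rcases Nat.le_total l 18 with h7 | h7
  · have h8 : (((18 - l) * 693147180800 : ℕ) : ℝ) ≤ (((18 - l) * 693147180800 - (E + r) : ℕ) : ℝ) + ((E + r : ℕ) : ℝ) := by
      exact_mod_cast le_tsub_add
    push_cast [Nat.cast_sub h7] at h8
    have h7' : (l : ℝ) ≤ 18 := by exact_mod_cast h7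
    have h11 := mul_nonneg (show (0 : ℝ) ≤ 18 - l by linarith) (show (0 : ℝ) ≤ 693147180800 / 10 ^ 12 - c by linarith)
    generalize (((18 - l) * 693147180800 - (E + r) : ℕ) : ℝ) = Z at h8 ⊢
    nlinarith
  · have h7' : (18 : ℝ) ≤ l := by exact_mod_cast h7
    have h11 := mul_nonneg (show (0 : ℝ) ≤ l - 18 by linarith) (show (0 : ℝ) ≤ c by linarith)
    have h12 : (0 : ℝ) ≤ (((18 - l) * 693147180800 - (E + r) : ℕ) : ℝ) := Nat.cast_nonneg _
    refine le_trans ?_ h12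
    nlinarith

theorem specNle : SpecNle := by
  intro p q hp hpq
  have hp' : (0 : ℝ) < p := by exact_mod_cast hp
  have hq' : (0 : ℝ) < q := by exact_mod_cast (hp.trans hpq)
  obtain ⟨X, hX⟩ : ∃ X, X = Nat.div (Nat.shiftLeft q (nat_lit 40)) p := ⟨_, rfl⟩
  have eX : X = q * 2 ^ 40 / p := by
    rw [hX]
    have : Nat.shiftLeft q (nat_lit 40) = q * 2 ^ 40 := Nat.shiftLeft_eq q 40
    rw [this]
    rfl
  have hX1 : 2 ^ 40 ≤ X := by
    rw [eX, Nat.le_div_iff_mul_le (by omega)]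
    calc 2 ^ 40 * p ≤ 2 ^ 40 * q := Nat.mul_le_mul_left _ hpq
      _ = q * 2 ^ 40 := Nat.mul_comm _ _
  have hX2 : (X : ℝ) / 2 ^ 40 ≤ (q : ℝ) / p := by
    have : (X : ℝ) ≤ ((q * 2 ^ 40 : ℕ) : ℝ) / p := by
      rw [eX]
      exact Nat.cast_div_le
    rw [div_le_iff₀ (by positivity)]
    refine this.trans (le_of_eq ?_)
    push_cast
    ring
  obtain ⟨g, hg⟩ : ∃ g, g = Nat.log2 X := ⟨_, rfl⟩
  have hXne : X ≠ 0 := by
    have : 0 < 2 ^ 40 := by norm_num
    omega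
  have g1 : 2 ^ g ≤ X := by rw [hg]; exact Nat.log2_self_le hXne
  have g2 : X < 2 ^ (g + 1) := by rw [hg]; exact Nat.lt_log2_self
  have g40 : 40 ≤ g := by
    by_contra hc
    have h3 : 2 ^ (g + 1) ≤ 2 ^ 40 := Nat.pow_le_pow_right (by norm_num) (by omega)
    omega
  obtain ⟨l, hl⟩ : ∃ l, l = g - 9 := ⟨_, rfl⟩
  obtain ⟨i, hi⟩ : ∃ i, i = X / 2 ^ l := ⟨_, rfl⟩
  have gl : g = l + 9 := by omega
  have hi1 : 512 ≤ i := by
    rw [hi, Nat.le_div_iff_mul_le (by positivity)]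
    rw [gl, pow_add] at g1
    have : 2 ^ l * 2 ^ 9 = 512 * 2 ^ l := by ring
    omega
  have hi2 : i < 1024 := by
    rw [hi, Nat.div_lt_iff_lt_mul (by positivity)]
    rw [gl] at g2
    have : 2 ^ (l + 9 + 1) = 1024 * 2 ^ l := by ring
    omega
  have hb1 : i * 2 ^ l ≤ X := by
    rw [hi]
    exact Nat.div_mul_le_self _ _
  obtain ⟨j, rfl⟩ := Nat.exists_eq_add_of_le hi1
  obtain ⟨b, hb⟩ : ∃ b, b = (512 + j) * 2 ^ l := ⟨_, rfl⟩
  have hb0 : 0 < b := by
    rw [hb]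
    positivity
  obtain ⟨lo, hlo⟩ := Nat.exists_eq_add_of_le (hb ▸ hb1 : b ≤ X)
  have e0 : nle p q = (l - 31) * 693147180300 + (en j + rs (Nat.div (Nat.shiftLeft lo (nat_lit 40)) b)) := by
    unfold nle
    rw [frc_eq, frc_eq, frc_eq, frc_eq]
    rw [← hX, ← hg]
    have e1 : Nat.sub g (nat_lit 9) = l := hl.symm
    rw [e1]
    have e2 : Nat.shiftRight X l = 512 + j := by
      rw [hi]
      exact Nat.shiftRight_eq_div_pow X l
    rw [e2]
    have e3 : Nat.shiftLeft (512 + j) l = b := by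
      rw [hb]
      exact Nat.shiftLeft_eq (512 + j) l
    rw [e3]
    have e4 : Nat.sub X b = lo := by
      show X - b = lo
      omega
    have e5 : Nat.sub (512 + j) (nat_lit 512) = j := by
      show 512 + j - 512 = j
      omega
    rw [e4, e5]
    rfl
  rw [e0]
  have hb' : (0 : ℝ) < b := by exact_mod_cast hb0
  have hen := en_le j (by omega)
  have hrs := rs_le lo b hb0
  have hl31 : 31 ≤ l := by omega
  have e1 : Real.log ((X : ℝ) / 2 ^ 40) = Real.log ((b : ℝ) / 2 ^ 40) + Real.log (1 + (lo : ℝ) / b) := by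
    rw [← Real.log_mul (by positivity) (by positivity)]
    congr 1
    rw [hlo]
    push_cast
    field_simp
  have hb2 : (b : ℝ) = ((512 + j : ℕ) : ℝ) * 2 ^ l := by
    rw [hb]
    push_cast
    ring
  have e2 : Real.log ((b : ℝ) / 2 ^ 40) = Real.log (((512 + j : ℕ) : ℝ) / 512) + ((l : ℝ) - 31) * Real.log 2 := by
    have e3 : (b : ℝ) / 2 ^ 40 = ((512 + j : ℕ) : ℝ) / 512 * (2 ^ l / 2 ^ 31) := by
      rw [hb2]
      ring
    have p1 : (0 : ℝ) < ((512 + j : ℕ) : ℝ) := by positivity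
    have e4 : Real.log ((2 : ℝ) ^ l / 2 ^ 31) = ((l : ℝ) - 31) * Real.log 2 := by
      rw [Real.log_div (by positivity) (by positivity), Real.log_pow, Real.log_pow]
      push_cast
      ring
    rw [e3, Real.log_mul (by positivity) (by positivity), e4]
  have hXp : (0 : ℝ) < X := by exact_mod_cast Nat.pos_of_ne_zero hXne
  have h1 : Real.log ((X : ℝ) / 2 ^ 40) ≤ Real.log ((q : ℝ) / p) := Real.log_le_log (by positivity) hX2
  rw [e1, e2] at h1
  have g3 := Real.log_two_gt_d9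
  have h31 : (31 : ℝ) ≤ l := by exact_mod_cast hl31
  have h11 := mul_nonneg (show (0 : ℝ) ≤ l - 31 by linarith)
    (show (0 : ℝ) ≤ Real.log 2 - 693147180300 / 10 ^ 12 by linarith)
  rw [Nat.cast_add, Nat.cast_mul, Nat.cast_sub hl31, Nat.cast_add]
  generalize Real.log (1 + (lo : ℝ) / b) = A at *
  generalize Real.log (((512 + j : ℕ) : ℝ) / 512) = B at *
  generalize Real.log ((q : ℝ) / p) = Q at *
  generalize Real.log 2 = c at *
  generalize ((en j : ℕ) : ℝ) = E at *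
  generalize ((rs (Nat.div (Nat.shiftLeft lo (nat_lit 40)) b) : ℕ) : ℝ) = r at *
  push_cast
  nlinarith

end GM

theorem specE0 : SpecE0 := GM.specE0
theorem specLgN : SpecLgN := GM.specLgN
theorem specNle : SpecNle := GM.specNle

end RE
end Pool.Agent.Lib.MP_6947cd_al
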