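import Pool.Agent.Lib.MP_6947cd_al.L.ReSpec

/-!
Problem MP_6947cd_al (Chollet).  Row certificates `rowE`: packed numbers with digits of `w` bits.
-/

set_option autoImplicit false
open Finset

namespace Pool.Agent.Lib.MP_6947cd_al
namespace RE

/-- `K` digits of `w` bits -/
def pk (w : ℕ) (f : ℕ → ℕ) (K : ℕ) : ℕ := ∑ j ∈ range K, f j * 2 ^ (w * j)

lemma pk_zero (w : ℕ) (f : ℕ → ℕ) : pk w f 0 = 0 := rfl

lemma pk_succ (w : ℕ) (f : ℕ → ℕ) (K : ℕ) : pk w f (K + 1) = pk w f K + f K * 2 ^ (w * K) :=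
  sum_range_succ _ _

lemma pk_succ' (w : ℕ) (f : ℕ → ℕ) (K : ℕ) : pk w f (K + 1) = 2 ^ w * pk w (fun j => f (j + 1)) K + f 0 := by
  unfold pk
  rw [sum_range_succ', mul_sum, mul_zero, pow_zero, mul_one]
  congr 1
  refine sum_congr rfl fun j _ => ?_
  rw [show w * (j + 1) = w + w * j by ring, pow_add]
  ring

lemma pk_congr {w : ℕ} {f g : ℕ → ℕ} {K : ℕ} (h : ∀ j < K, f j = g j) : pk w f K = pk w g K :=
  sum_congr rfl fun j hj => by rw [h j (mem_range.mp hj)]

lemma pk_add (w : ℕ) (f g : ℕ → ℕ) (K : ℕ) : pk w f K + pk w g K = pk w (fun j => f j + g j) K := by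
  unfold pk
  rw [← sum_add_distrib]
  exact sum_congr rfl fun j _ => by ring

lemma pk_mul (w : ℕ) (f : ℕ → ℕ) (r K : ℕ) : pk w f K * r = pk w (fun j => f j * r) K := by
  unfold pk
  rw [sum_mul]
  exact sum_congr rfl fun j _ => by ring

lemma pk_lt {w : ℕ} (K : ℕ) : ∀ f : ℕ → ℕ, (∀ j < K, f j < 2 ^ w) → pk w f K < 2 ^ (w * K) := by
  induction K with
  | zero => intro f _; rw [pk_zero]; exact Nat.two_pow_pos _
  | succ K ih =>
    intro f h
    rw [pk_succ']
    have h1 := ih (fun j => f (j + 1)) fun j hj => h _ (by omega)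
    have h2 := h 0 (by omega)
    rw [show w * (K + 1) = w + w * K by ring, pow_add]
    calc 2 ^ w * pk w (fun j => f (j + 1)) K + f 0 < 2 ^ w * pk w (fun j => f (j + 1)) K + 2 ^ w := by omega
      _ = 2 ^ w * (pk w (fun j => f (j + 1)) K + 1) := by ring
      _ ≤ 2 ^ w * 2 ^ (w * K) := Nat.mul_le_mul_left _ h1

/-- zero digits can be added -/
lemma pk_pad {w : ℕ} {f : ℕ → ℕ} {K K' : ℕ} (h : K ≤ K') (h0 : ∀ j, K ≤ j → j < K' → f j = 0) :
    pk w f K' = pk w f K := by
  unfold pk
  symm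
  refine sum_subset (fun j hj => mem_range.mpr ((mem_range.mp hj).trans_le h)) fun j h1 h2 => ?_
  rw [h0 j (by simpa using h2) (mem_range.mp h1), zero_mul]

lemma testBit_pk {w : ℕ} (K : ℕ) : ∀ f : ℕ → ℕ, (∀ j < K, f j < 2 ^ w) → ∀ i < w, ∀ j,
    (pk w f K).testBit (w * j + i) = (decide (j < K) && (f j).testBit i) := by
  induction K with
  | zero => intro f _ i _ j; simp [pk_zero]
  | succ K ih =>
    intro f h i hi j
    rw [pk_succ', Nat.testBit_two_pow_mul_add _ (h 0 (by omega))]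
    cases j with
    | zero => simp [hi]
    | succ j =>
      rw [if_neg (by rw [show w * (j + 1) = w * j + w by ring]; omega),
        show w * (j + 1) + i - w = w * j + i by rw [show w * (j + 1) = w * j + w by ring]; omega,
        ih _ (fun j hj => h _ (by omega)) i hi j]
      simp

/-- equality by the bits -/
lemma eq_of_bits {w x y : ℕ} (hw : 0 < w) (h : ∀ j, ∀ i < w, x.testBit (w * j + i) = y.testBit (w * j + i)) :
    x = y := by
  refine Nat.eq_of_testBit_eq fun b => ?_
  have h1 := h (b / w) (b % w) (Nat.mod_lt _ hw)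
  rwa [Nat.div_add_mod] at h1

/-- digitwise conjunction -/
lemma pk_land {w : ℕ} (hw : 0 < w) {f g : ℕ → ℕ} {K : ℕ} (hf : ∀ j < K, f j < 2 ^ w) (hg : ∀ j < K, g j < 2 ^ w) :
    pk w f K &&& pk w g K = pk w (fun j => f j &&& g j) K := by
  refine eq_of_bits hw fun j i hi => ?_
  rw [Nat.testBit_and, testBit_pk K f hf i hi, testBit_pk K g hg i hi,
    testBit_pk K _ (fun j hj => lt_of_le_of_lt Nat.and_le_left (hf j hj)) i hi, Nat.testBit_and]
  cases decide (j < K) <;> simp

lemma testBit_ones (w i : ℕ) : (2 ^ w - 1).testBit i = decide (i < w) := Nat.testBit_two_pow_sub_one w i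

/-- the geometric sum -/
lemma pk_one_mul (w K : ℕ) : pk w (fun _ => 1) K * (2 ^ w - 1) = 2 ^ (w * K) - 1 := by
  induction K with
  | zero => simp [pk_zero]
  | succ K ih =>
    have h0 : 1 ≤ 2 ^ w := Nat.one_le_two_pow
    have h1 : 1 ≤ 2 ^ (w * K) := Nat.one_le_two_pow
    rw [pk_succ, add_mul, ih, one_mul, show w * (K + 1) = w * K + w by ring, pow_add, Nat.mul_sub, mul_one]
    have h2 : 2 ^ (w * K) ≤ 2 ^ (w * K) * 2 ^ w := Nat.le_mul_of_pos_right _ h0
    omega

lemma pk_one_div {w : ℕ} (hw : 0 < w) (K : ℕ) : (2 ^ (w * K) - 1) / (2 ^ w - 1) = pk w (fun _ => 1) K := by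
  rw [← pk_one_mul]
  refine Nat.mul_div_cancel _ ?_
  have : 2 ≤ 2 ^ w := by
    calc 2 = 2 ^ 1 := rfl
      _ ≤ 2 ^ w := Nat.pow_le_pow_right (by norm_num) hw
  omega

lemma pk_const (w c K : ℕ) : pk w (fun _ => c) K = pk w (fun _ => 1) K * c := by
  rw [pk_mul]
  exact pk_congr fun j _ => by rw [one_mul]

/-! ### multiplication by `ρ z` -/

/-- the lower digit, shifted -/
def shd (f : ℕ → ℕ) (ρ : ℕ) (j : ℕ) : ℕ := if j = 0 then 0 else f (j - 1) * ρ / 2 ^ 32

/-- `V * (ρ 2 ^ (w - 32))`, masked: the digits `f (j - 1) ρ / 2 ^ 32` -/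
lemma pk_shl {w : ℕ} (hw : 32 < w) {f : ℕ → ℕ} {K ρ : ℕ} (hf : ∀ j < K, f j * ρ < 2 ^ w) :
    (pk w f K * (ρ * 2 ^ (w - 32))) &&& pk w (fun _ => 2 ^ (w - 32) - 1) K = pk w (shd f ρ) K := by
  have hw0 : 0 < w := by omega
  have hm : ∀ j < K, (fun _ => 2 ^ (w - 32) - 1 : ℕ → ℕ) j < 2 ^ w := fun j _ => by
    have : 2 ^ (w - 32) ≤ 2 ^ w := Nat.pow_le_pow_right (by norm_num) (by omega)
    have h1 : 1 ≤ 2 ^ (w - 32) := Nat.one_le_two_pow
    show 2 ^ (w - 32) - 1 < 2 ^ w
    omega
  have hs : ∀ j < K, shd f ρ j < 2 ^ w := fun j hj => by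
    unfold shd
    split
    · exact Nat.two_pow_pos _
    · exact lt_of_le_of_lt (Nat.div_le_self _ _) (hf _ (by omega))
  have e : pk w f K * (ρ * 2 ^ (w - 32)) = pk w (fun j => f j * ρ) K <<< (w - 32) := by
    rw [Nat.shiftLeft_eq, ← pk_mul]
    ring
  rw [e]
  refine eq_of_bits hw0 fun j i hi => ?_
  rw [Nat.testBit_and, testBit_pk K _ hm i hi, testBit_pk K _ hs i hi, testBit_ones, Nat.testBit_shiftLeft]
  by_cases hj : j < K
  · rw [decide_eq_true hj, Bool.true_and, Bool.true_and]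
    by_cases hi2 : i < w - 32
    · rw [decide_eq_true hi2, Bool.and_true]
      unfold shd
      cases j with
      | zero =>
        rw [if_pos rfl, decide_eq_false (by omega)]
        simp
      | succ j =>
        rw [if_neg (by omega), decide_eq_true (by rw [show w * (j + 1) = w * j + w by ring]; omega), Bool.true_and,
          show w * (j + 1) + i - (w - 32) = w * j + (i + 32) by rw [show w * (j + 1) = w * j + w by ring]; omega,
          testBit_pk K _ hf (i + 32) (by omega), decide_eq_true (show j < K by omega), Bool.true_and,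
          Nat.testBit_div_two_pow, show j + 1 - 1 = j by omega]
    · rw [decide_eq_false hi2, Bool.and_false]
      symm
      have h1 : shd f ρ j < 2 ^ (w - 32) := by
        unfold shd
        split
        · exact Nat.two_pow_pos _
        · rw [Nat.div_lt_iff_lt_mul (by norm_num), ← pow_add, show w - 32 + 32 = w by omega]
          exact hf _ (by omega)
      exact Nat.testBit_lt_two_pow (lt_of_lt_of_le h1 (Nat.pow_le_pow_right (by norm_num) (by omega)))
  · rw [decide_eq_false hj, Bool.false_and, Bool.false_and, Bool.and_false]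

/-- division of all the digits by `2 ^ 32` -/
lemma pk_shr {w : ℕ} (hw : 32 < w) {c : ℕ → ℕ} {K K' : ℕ} (hK : K ≤ K') (hc : ∀ j < K', c j < 2 ^ w) :
    (pk w c K' >>> 32) &&& pk w (fun _ => 2 ^ (w - 32) - 1) K = pk w (fun j => c j / 2 ^ 32) K := by
  have hw0 : 0 < w := by omega
  have hm : ∀ j < K, (fun _ => 2 ^ (w - 32) - 1 : ℕ → ℕ) j < 2 ^ w := fun j _ => by
    have : 2 ^ (w - 32) ≤ 2 ^ w := Nat.pow_le_pow_right (by norm_num) (by omega)
    have h1 : 1 ≤ 2 ^ (w - 32) := Nat.one_le_two_pow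
    show 2 ^ (w - 32) - 1 < 2 ^ w
    omega
  have hs : ∀ j < K, c j / 2 ^ 32 < 2 ^ w := fun j hj =>
    lt_of_le_of_lt (Nat.div_le_self _ _) (hc _ (by omega))
  refine eq_of_bits hw0 fun j i hi => ?_
  rw [Nat.testBit_and, testBit_pk K _ hm i hi, testBit_pk K _ hs i hi, testBit_ones, Nat.testBit_shiftRight]
  by_cases hj : j < K
  · rw [decide_eq_true hj, Bool.true_and, Bool.true_and]
    by_cases hi2 : i < w - 32
    · rw [decide_eq_true hi2, Bool.and_true, show 32 + (w * j + i) = w * j + (i + 32) by omega,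
        testBit_pk K' _ hc (i + 32) (by omega), decide_eq_true (show j < K' by omega), Bool.true_and,
        Nat.testBit_div_two_pow]
    · rw [decide_eq_false hi2, Bool.and_false]
      symm
      have h1 : c j / 2 ^ 32 < 2 ^ (w - 32) := by
        rw [Nat.div_lt_iff_lt_mul (by norm_num), ← pow_add, show w - 32 + 32 = w by omega]
        exact hc _ (by omega)
      exact Nat.testBit_lt_two_pow (lt_of_lt_of_le h1 (Nat.pow_le_pow_right (by norm_num) (by omega)))
  · rw [decide_eq_false hj, Bool.false_and, Bool.false_and, Bool.and_false]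

/-! ### products -/

/-- convolution of the digits -/
def cv (f g : ℕ → ℕ) (K L j : ℕ) : ℕ := ∑ i ∈ range K, if i ≤ j ∧ j - i < L then f i * g (j - i) else 0

lemma pk_prod (w : ℕ) (f g : ℕ → ℕ) (K L : ℕ) : pk w f K * pk w g L = pk w (cv f g K L) (K + L) := by
  unfold pk cv
  rw [sum_mul]
  simp_rw [sum_mul]
  rw [sum_comm]
  refine sum_congr rfl fun i hi => ?_
  have hiK := mem_range.mp hi
  rw [mul_sum]
  have e : ∀ j ∈ range (K + L), (if i ≤ j ∧ j - i < L then f i * g (j - i) else 0) * 2 ^ (w * j)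
      = if j ∈ (range L).image (fun l => i + l) then f i * g (j - i) * 2 ^ (w * j) else 0 := by
    intro j _
    by_cases h : i ≤ j ∧ j - i < L
    · rw [if_pos h, if_pos]
      rw [mem_image]
      exact ⟨j - i, mem_range.mpr h.2, by omega⟩
    · rw [if_neg h, zero_mul, if_neg]
      rw [mem_image]
      rintro ⟨l, hl, rfl⟩
      exact h ⟨by omega, by have := mem_range.mp hl; omega⟩
  rw [sum_congr rfl e, sum_ite_mem, inter_eq_right.mpr]
  · rw [sum_image fun a _ b _ h => by simpa using h]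
    refine sum_congr rfl fun l _ => ?_
    rw [show i + l - i = l by omega, show w * (i + l) = w * i + w * l by ring, pow_add]
    ring
  · intro j hj
    rw [mem_image] at hj
    obtain ⟨l, hl, rfl⟩ := hj
    have := mem_range.mp hl
    rw [mem_range]
    omega

/-- a digit of a packed number -/
lemma pk_digit {w : ℕ} {f : ℕ → ℕ} {K : ℕ} (hf : ∀ j < K, f j < 2 ^ w) (j : ℕ) (hj : j < K) :
    (pk w f K >>> (w * j)) &&& (2 ^ w - 1) = f j := by
  refine Nat.eq_of_testBit_eq fun i => ?_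
  rw [Nat.testBit_and, Nat.testBit_shiftRight, testBit_ones]
  by_cases hi : i < w
  · rw [testBit_pk K f hf i hi, decide_eq_true hj, decide_eq_true hi]
    simp
  · rw [decide_eq_false hi, Bool.and_false]
    symm
    exact Nat.testBit_lt_two_pow (lt_of_lt_of_le (hf j hj) (Nat.pow_le_pow_right (by norm_num) (by omega)))

end RE
end Pool.Agent.Lib.MP_6947cd_al
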