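import Pool.Agent.Lib.MP_6947cd_al.L.ReK

/-!
Problem MP_6947cd_al (Chollet).  Row certificates `rowE`: packed lower bounds of the coefficients of a polynomial.
-/

set_option autoImplicit false
open Finset

namespace Pool.Agent.Lib.MP_6947cd_al
namespace RE

open Polynomial

/-- dominated by `(1 + X) ^ d` -/
def Dom (d : ℕ) (P : ℝ[X]) : Prop := ∀ k, 0 ≤ P.coeff k ∧ P.coeff k ≤ (d.choose k : ℝ)

lemma Dom.pos {d : ℕ} {P : ℝ[X]} (h : Dom d P) (k : ℕ) : 0 ≤ P.coeff k := (h k).1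

lemma Dom.zero_of {d : ℕ} {P : ℝ[X]} (h : Dom d P) {k : ℕ} (hk : d < k) : P.coeff k = 0 := by
  have h1 := (h k).2
  rw [Nat.choose_eq_zero_of_lt hk, Nat.cast_zero] at h1
  exact le_antisymm h1 (h k).1

lemma Dom.le_two {d : ℕ} {P : ℝ[X]} (h : Dom d P) (k : ℕ) : P.coeff k ≤ 2 ^ d := by
  refine (h k).2.trans ?_
  have : d.choose k ≤ 2 ^ d := Nat.choose_le_two_pow d k
  exact_mod_cast this

lemma Dom.mul {d e : ℕ} {P Q : ℝ[X]} (hP : Dom d P) (hQ : Dom e Q) : Dom (d + e) (P * Q) := by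
  intro k
  rw [coeff_mul]
  refine ⟨sum_nonneg fun x _ => mul_nonneg (hP _).1 (hQ _).1, ?_⟩
  rw [Nat.add_choose_eq]
  push_cast
  exact sum_le_sum fun x _ => mul_le_mul (hP _).2 (hQ _).2 (hQ _).1 (Nat.cast_nonneg _)

lemma Dom.mono {d e : ℕ} {P : ℝ[X]} (hP : Dom d P) (h : d ≤ e) : Dom e P := fun k =>
  ⟨(hP k).1, (hP k).2.trans (by exact_mod_cast Nat.choose_le_choose k h)⟩

lemma Dom.const {c : ℝ} (h0 : 0 ≤ c) (h1 : c ≤ 1) : Dom 0 (C c) := by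
  intro k
  rw [coeff_C]
  cases k with
  | zero => simpa using ⟨h0, h1⟩
  | succ k => simp

lemma Dom.lin {ρ : ℝ} (h0 : 0 ≤ ρ) (h1 : ρ ≤ 1) : Dom 1 (1 + C ρ * X) := by
  intro k
  rw [coeff_add, coeff_C_mul, coeff_X, coeff_one]
  rcases k with _ | _ | k
  · simp
  · simpa using ⟨h0, h1⟩
  · simp

lemma Dom.mark {ρ : ℝ} (h0 : 0 ≤ ρ) (h1 : ρ ≤ 1) : Dom 1 (C ρ * X) := by
  intro k
  rw [coeff_C_mul, coeff_X]
  rcases k with _ | _ | k
  · simp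
  · simpa using ⟨h0, h1⟩
  · simp

lemma Dom.pow {ρ : ℝ} (h0 : 0 ≤ ρ) (h1 : ρ ≤ 1) (μ : ℕ) : Dom μ ((1 + C ρ * X) ^ μ) := by
  induction μ with
  | zero =>
    rw [pow_zero]
    have := Dom.const (c := 1) zero_le_one le_rfl
    rwa [C_1] at this
  | succ μ ih =>
    rw [pow_succ]
    exact ih.mul (Dom.lin h0 h1)

/-- the parameters: `w` bits, `K` digits, degree bound `n` -/
structure Ctx (w K n : ℕ) : Prop where
  hw : 64 + n ≤ w
  hK : n < K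

/-- the mask -/
def msk (w K : ℕ) : ℕ := pk w (fun _ => 2 ^ (w - 32) - 1) K

/-- `G` is a packed lower bound of the coefficients of `2 ^ 32 * P` -/
def PI (w K : ℕ) (P : ℝ[X]) (G : ℕ) : Prop :=
  ∃ f : ℕ → ℕ, G = pk w f K ∧ ∀ j < K, (f j : ℝ) ≤ 2 ^ 32 * P.coeff j

/-- `r = ρ̂ 2 ^ (w - 32)` with `ρ̂ ≤ 2 ^ 32 ρ` -/
def RI (w : ℕ) (ρ : ℝ) (r : ℕ) : Prop := ∃ ρ' : ℕ, r = ρ' * 2 ^ (w - 32) ∧ (ρ' : ℝ) ≤ 2 ^ 32 * ρ

lemma coeff_mark (ρ : ℝ) (P : ℝ[X]) (j : ℕ) : (C ρ * X * P).coeff j = if j = 0 then 0 else ρ * P.coeff (j - 1) := by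
  rw [mul_assoc, coeff_C_mul]
  cases j with
  | zero => simp
  | succ j => simp

/-- digits below `2 ^ (w - 32)` -/
lemma dig_lt {w K n d : ℕ} (hc : Ctx w K n) {P : ℝ[X]} (hP : Dom d P) (hd : d < n) {f : ℕ → ℕ}
    (hf : ∀ j < K, (f j : ℝ) ≤ 2 ^ 32 * P.coeff j) {j : ℕ} (hj : j < K) : f j < 2 ^ (w - 32) := by
  have h1 := (hf j hj).trans (mul_le_mul_of_nonneg_left (hP.le_two j) (by positivity))
  have h2 : (f j : ℝ) ≤ ((2 ^ 32 * 2 ^ d : ℕ) : ℝ) := h1.trans (le_of_eq (by push_cast; norm_num))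
  have h3 : f j ≤ 2 ^ 32 * 2 ^ d := by exact_mod_cast h2
  refine lt_of_le_of_lt h3 ?_
  rw [← pow_add]
  exact Nat.pow_lt_pow_right (by norm_num) (by have := hc.hw; omega)

lemma shd_le {ρ : ℝ} (h0 : 0 ≤ ρ) {ρ' : ℕ} (hρ : (ρ' : ℝ) ≤ 2 ^ 32 * ρ) {a : ℕ} {x : ℝ}
    (ha : (a : ℝ) ≤ 2 ^ 32 * x) : ((a * ρ' / 2 ^ 32 : ℕ) : ℝ) ≤ 2 ^ 32 * (ρ * x) := by
  have h1 : ((a * ρ' / 2 ^ 32 : ℕ) : ℝ) ≤ ((a * ρ' : ℕ) : ℝ) / ((2 ^ 32 : ℕ) : ℝ) := Nat.cast_div_le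
  refine h1.trans ?_
  push_cast
  rw [div_le_iff₀ (by norm_num)]
  calc (a : ℝ) * ρ' ≤ (2 ^ 32 * x) * (2 ^ 32 * ρ) := mul_le_mul ha hρ (Nat.cast_nonneg _) ((Nat.cast_nonneg _).trans ha)
    _ = 2 ^ 32 * (ρ * x) * 4294967296 := by ring

/-- the masked product with `ρ z` -/
lemma mark_ok {w K n d : ℕ} (hc : Ctx w K n) {P : ℝ[X]} (hP : Dom d P) (hd : d < n) {ρ : ℝ} (h0 : 0 ≤ ρ) (h1 : ρ ≤ 1)
    {G r : ℕ} (hG : PI w K P G) (hr : RI w ρ r) : PI w K (C ρ * X * P) (Nat.land (Nat.mul G r) (msk w K)) := by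
  obtain ⟨f, rfl, hf⟩ := hG
  obtain ⟨ρ', rfl, hρ⟩ := hr
  have hw := hc.hw
  have hρ32 : ρ' ≤ 2 ^ 32 := by
    have : (ρ' : ℝ) ≤ ((2 ^ 32 : ℕ) : ℝ) := by
      calc (ρ' : ℝ) ≤ 2 ^ 32 * ρ := hρ
        _ ≤ 2 ^ 32 * 1 := by gcongr
        _ = ((2 ^ 32 : ℕ) : ℝ) := by push_cast; norm_num
    exact_mod_cast this
  have hlt : ∀ j < K, f j * ρ' < 2 ^ w := fun j hj => by
    have h2 := dig_lt hc hP hd hf hj
    calc f j * ρ' ≤ f j * 2 ^ 32 := Nat.mul_le_mul_left _ hρ32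
      _ < 2 ^ (w - 32) * 2 ^ 32 := Nat.mul_lt_mul_of_pos_right h2 (by norm_num)
      _ = 2 ^ w := by rw [← pow_add]; congr 1; omega
  refine ⟨shd f ρ', pk_shl (by omega) hlt, fun j hj => ?_⟩
  rw [coeff_mark]
  unfold shd
  split
  · simp
  · exact shd_le h0 hρ (hf _ (by omega))

/-- multiplication by a linear factor -/
lemma li_ok {w K n d : ℕ} (hc : Ctx w K n) {P : ℝ[X]} (hP : Dom d P) (hd : d < n) {ρ : ℝ} (h0 : 0 ≤ ρ) (h1 : ρ ≤ 1)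
    {G r : ℕ} (hG : PI w K P G) (hr : RI w ρ r) : PI w K ((1 + C ρ * X) * P) (li (msk w K) r G) := by
  obtain ⟨g, hg, hg'⟩ := mark_ok hc hP hd h0 h1 hG hr
  obtain ⟨f, rfl, hf⟩ := hG
  refine ⟨fun j => f j + g j, ?_, fun j hj => ?_⟩
  · unfold li
    rw [hg]
    exact pk_add _ _ _ _
  · rw [add_mul, one_mul, coeff_add]
    push_cast
    have := hf j hj
    have := hg' j hj
    linarith

/-- product -/
lemma mr_ok {w K n d e : ℕ} (hc : Ctx w K n) {P Q : ℝ[X]} (hP : Dom d P) (hQ : Dom e Q) (hd : d + e < n)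
    {A B : ℕ} (hA : PI w K P A) (hB : PI w K Q B) : PI w K (P * Q) (mr (msk w K) A B) := by
  obtain ⟨f, rfl, hf⟩ := hA
  obtain ⟨g, rfl, hg⟩ := hB
  have hw := hc.hw
  have key : ∀ j, (cv f g K K j : ℝ) ≤ 2 ^ 64 * (P * Q).coeff j := by
    intro j
    unfold cv
    push_cast
    rw [coeff_mul, mul_sum, Nat.sum_antidiagonal_eq_sum_range_succ_mk]
    have e1 : ∀ i ∈ range K, (if i ≤ j ∧ j - i < K then ((f i * g (j - i) : ℕ) : ℝ) else 0)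
        ≤ if i ∈ range (j + 1) then 2 ^ 64 * (P.coeff i * Q.coeff (j - i)) else 0 := by
      intro i hi
      by_cases h : i ≤ j ∧ j - i < K
      · rw [if_pos h, if_pos (mem_range.mpr (by omega))]
        have h1 := hf i (mem_range.mp hi)
        have h2 := hg (j - i) h.2
        push_cast
        calc (f i : ℝ) * g (j - i) ≤ (2 ^ 32 * P.coeff i) * (2 ^ 32 * Q.coeff (j - i)) :=
              mul_le_mul h1 h2 (Nat.cast_nonneg _) ((Nat.cast_nonneg _).trans h1)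
          _ = _ := by ring
      · rw [if_neg h]
        split
        · exact mul_nonneg (by positivity) (mul_nonneg (hP _).1 (hQ _).1)
        · exact le_rfl
    have e1' : ∀ i ∈ range K, (if i ≤ j ∧ j - i < K then (f i : ℝ) * (g (j - i) : ℝ) else 0)
        ≤ if i ∈ range (j + 1) then 2 ^ 64 * (P.coeff i * Q.coeff (j - i)) else 0 := by
      intro i hi
      have := e1 i hi
      push_cast at this
      exact this
    refine (sum_le_sum e1').trans ?_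
    rw [← sum_filter]
    refine sum_le_sum_of_subset_of_nonneg (fun i hi => (mem_filter.mp hi).2) fun i _ _ => ?_
    exact mul_nonneg (by positivity) (mul_nonneg (hP _).1 (hQ _).1)
  have hD := hP.mul hQ
  have hlt : ∀ j < K + K, cv f g K K j < 2 ^ w := by
    intro j _
    have h1 := (key j).trans (mul_le_mul_of_nonneg_left (hD.le_two j) (by positivity))
    have h2 : (cv f g K K j : ℝ) ≤ ((2 ^ 64 * 2 ^ (d + e) : ℕ) : ℝ) := h1.trans (le_of_eq (by push_cast; norm_num))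
    have h3 : cv f g K K j ≤ 2 ^ 64 * 2 ^ (d + e) := by exact_mod_cast h2
    refine lt_of_le_of_lt h3 ?_
    rw [← pow_add]
    exact Nat.pow_lt_pow_right (by norm_num) (by omega)
  refine ⟨fun j => cv f g K K j / 2 ^ 32, ?_, fun j hj => ?_⟩
  · have e0 : mr (msk w K) (pk w f K) (pk w g K) = ((pk w f K * pk w g K) >>> 32) &&& msk w K := rfl
    rw [e0, pk_prod]
    exact pk_shr (by omega) (by omega) hlt
  · have h1 : ((cv f g K K j / 2 ^ 32 : ℕ) : ℝ) ≤ (cv f g K K j : ℝ) / ((2 ^ 32 : ℕ) : ℝ) := Nat.cast_div_le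
    refine h1.trans ?_
    push_cast
    rw [div_le_iff₀ (by norm_num)]
    refine (key j).trans (le_of_eq ?_)
    ring

/-- the linear factor -/
lemma lf_ok {w K n : ℕ} (hc : Ctx w K n) {ρ : ℝ} {r : ℕ} (hn : 1 ≤ n) (hr : RI w ρ r) :
    PI w K (1 + C ρ * X) (lf r) := by
  obtain ⟨ρ', rfl, hρ⟩ := hr
  have hw := hc.hw
  have hK := hc.hK
  refine ⟨fun j => if j = 0 then 2 ^ 32 else if j = 1 then ρ' else 0, ?_, fun j _ => ?_⟩
  · rw [pk_pad (K := 2) (K' := K) (by omega) (fun j h1 _ => by rw [if_neg (by omega), if_neg (by omega)])]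
    rw [pk_succ, pk_succ, pk_zero]
    have e0 : lf (ρ' * 2 ^ (w - 32)) = 4294967296 + (ρ' * 2 ^ (w - 32)) <<< 32 := rfl
    rw [e0, Nat.shiftLeft_eq, mul_assoc, ← pow_add, show w - 32 + 32 = w by omega]
    norm_num
  · rw [coeff_add, coeff_C_mul, coeff_X, coeff_one]
    rcases j with _ | _ | j
    · simp; norm_num
    · simpa using hρ
    · simp

/-- a program for the powers of the linear factor -/
def QP (μ : ℕ) (F : ℕ → ℕ → ℕ) : Prop := ∀ (w K n : ℕ), Ctx w K n → ∀ (ρ : ℝ) (r : ℕ), 0 ≤ ρ → ρ ≤ 1 → RI w ρ r →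
  μ < n → PI w K ((1 + C ρ * X) ^ μ) (F (msk w K) r)

lemma QP.one : QP 1 P1 := fun w K n hc ρ r _ _ hr hn => by
  rw [pow_one]
  exact lf_ok hc (by omega) hr

lemma QP.dbl {μ : ℕ} {F : ℕ → ℕ → ℕ} (h : QP μ F) : QP (2 * μ) fun M r => db M (F M r) := by
  intro w K n hc ρ r h0 h1 hr hn
  rw [two_mul, pow_add]
  exact mr_ok hc (Dom.pow h0 h1 μ) (Dom.pow h0 h1 μ) (by omega) (h w K n hc ρ r h0 h1 hr (by omega))
    (h w K n hc ρ r h0 h1 hr (by omega))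

lemma QP.inc {μ : ℕ} {F : ℕ → ℕ → ℕ} (h : QP μ F) : QP (μ + 1) fun M r => li M r (F M r) := by
  intro w K n hc ρ r h0 h1 hr hn
  rw [pow_succ, mul_comm]
  exact li_ok hc (Dom.pow h0 h1 μ) (by omega) h0 h1 (h w K n hc ρ r h0 h1 hr (by omega)) hr

/-- a program for the multiplication by a power of the linear factor -/
def QA (μ : ℕ) (F : ℕ → ℕ → ℕ → ℕ) : Prop := ∀ (w K n : ℕ), Ctx w K n → ∀ (ρ : ℝ) (r : ℕ), 0 ≤ ρ → ρ ≤ 1 →
  RI w ρ r → ∀ (d : ℕ) (P : ℝ[X]) (G : ℕ), Dom d P → d + μ < n → PI w K P G →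
  PI w K ((1 + C ρ * X) ^ μ * P) (F (msk w K) r G)

lemma QA.zero : QA 0 A0 := fun w K n _ ρ r _ _ _ d P G _ _ hG => by
  rw [pow_zero, one_mul]
  exact hG

lemma QA.inc {μ : ℕ} {F : ℕ → ℕ → ℕ → ℕ} (h : QA μ F) : QA (μ + 1) fun M r G => li M r (F M r G) := by
  intro w K n hc ρ r h0 h1 hr d P G hP hn hG
  rw [pow_succ', mul_assoc]
  exact li_ok hc ((Dom.pow h0 h1 μ).mul hP) (by omega) h0 h1 (h w K n hc ρ r h0 h1 hr d P G hP (by omega) hG) hr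

lemma QA.of_pow {μ : ℕ} {F : ℕ → ℕ → ℕ} (h : QP μ F) : QA μ fun M r G => mr M G (F M r) := by
  intro w K n hc ρ r h0 h1 hr d P G hP hn hG
  rw [mul_comm]
  exact mr_ok hc hP (Dom.pow h0 h1 μ) (by omega) hG (h w K n hc ρ r h0 h1 hr (by omega))

lemma qp1 : QP 1 P1 := QP.one

lemma qp2 : QP 2 P2 := QP.dbl qp1
lemma qp3 : QP 3 P3 := QP.inc (QP.dbl qp1)
lemma qp4 : QP 4 P4 := QP.dbl qp2
lemma qp5 : QP 5 P5 := QP.inc (QP.dbl qp2)
lemma qp6 : QP 6 P6 := QP.dbl qp3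
lemma qp7 : QP 7 P7 := QP.inc (QP.dbl qp3)
lemma qp8 : QP 8 P8 := QP.dbl qp4
lemma qp9 : QP 9 P9 := QP.inc (QP.dbl qp4)
lemma qp10 : QP 10 P10 := QP.dbl qp5
lemma qp11 : QP 11 P11 := QP.inc (QP.dbl qp5)
lemma qp12 : QP 12 P12 := QP.dbl qp6
lemma qp13 : QP 13 P13 := QP.inc (QP.dbl qp6)
lemma qp14 : QP 14 P14 := QP.dbl qp7
lemma qp15 : QP 15 P15 := QP.inc (QP.dbl qp7)
lemma qp16 : QP 16 P16 := QP.dbl qp8
lemma qp17 : QP 17 P17 := QP.inc (QP.dbl qp8)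
lemma qp18 : QP 18 P18 := QP.dbl qp9
lemma qp19 : QP 19 P19 := QP.inc (QP.dbl qp9)
lemma qp20 : QP 20 P20 := QP.dbl qp10
lemma qp21 : QP 21 P21 := QP.inc (QP.dbl qp10)
lemma qp22 : QP 22 P22 := QP.dbl qp11
lemma qp23 : QP 23 P23 := QP.inc (QP.dbl qp11)
lemma qp24 : QP 24 P24 := QP.dbl qp12
lemma qp25 : QP 25 P25 := QP.inc (QP.dbl qp12)
lemma qp26 : QP 26 P26 := QP.dbl qp13
lemma qp27 : QP 27 P27 := QP.inc (QP.dbl qp13)
lemma qp28 : QP 28 P28 := QP.dbl qp14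
lemma qp29 : QP 29 P29 := QP.inc (QP.dbl qp14)
lemma qp30 : QP 30 P30 := QP.dbl qp15
lemma qp31 : QP 31 P31 := QP.inc (QP.dbl qp15)
lemma qp32 : QP 32 P32 := QP.dbl qp16
lemma qp33 : QP 33 P33 := QP.inc (QP.dbl qp16)
lemma qp34 : QP 34 P34 := QP.dbl qp17
lemma qp35 : QP 35 P35 := QP.inc (QP.dbl qp17)
lemma qp36 : QP 36 P36 := QP.dbl qp18
lemma qp37 : QP 37 P37 := QP.inc (QP.dbl qp18)
lemma qp38 : QP 38 P38 := QP.dbl qp19
lemma qp39 : QP 39 P39 := QP.inc (QP.dbl qp19)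

lemma qa0 : QA 0 A0 := QA.zero
lemma qa1 : QA 1 A1 := QA.inc qa0
lemma qa2 : QA 2 A2 := QA.inc qa1
lemma qa3 : QA 3 A3 := QA.inc qa2
lemma qa4 : QA 4 A4 := QA.inc qa3
lemma qa5 : QA 5 A5 := QA.inc qa4
lemma qa6 : QA 6 A6 := QA.of_pow qp6
lemma qa7 : QA 7 A7 := QA.of_pow qp7
lemma qa8 : QA 8 A8 := QA.of_pow qp8
lemma qa9 : QA 9 A9 := QA.of_pow qp9
lemma qa10 : QA 10 A10 := QA.of_pow qp10
lemma qa11 : QA 11 A11 := QA.of_pow qp11
lemma qa12 : QA 12 A12 := QA.of_pow qp12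
lemma qa13 : QA 13 A13 := QA.of_pow qp13
lemma qa14 : QA 14 A14 := QA.of_pow qp14
lemma qa15 : QA 15 A15 := QA.of_pow qp15
lemma qa16 : QA 16 A16 := QA.of_pow qp16
lemma qa17 : QA 17 A17 := QA.of_pow qp17
lemma qa18 : QA 18 A18 := QA.of_pow qp18
lemma qa19 : QA 19 A19 := QA.of_pow qp19
lemma qa20 : QA 20 A20 := QA.of_pow qp20
lemma qa21 : QA 21 A21 := QA.of_pow qp21
lemma qa22 : QA 22 A22 := QA.of_pow qp22
lemma qa23 : QA 23 A23 := QA.of_pow qp23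
lemma qa24 : QA 24 A24 := QA.of_pow qp24
lemma qa25 : QA 25 A25 := QA.of_pow qp25
lemma qa26 : QA 26 A26 := QA.of_pow qp26
lemma qa27 : QA 27 A27 := QA.of_pow qp27
lemma qa28 : QA 28 A28 := QA.of_pow qp28
lemma qa29 : QA 29 A29 := QA.of_pow qp29
lemma qa30 : QA 30 A30 := QA.of_pow qp30
lemma qa31 : QA 31 A31 := QA.of_pow qp31
lemma qa32 : QA 32 A32 := QA.of_pow qp32
lemma qa33 : QA 33 A33 := QA.of_pow qp33
lemma qa34 : QA 34 A34 := QA.of_pow qp34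
lemma qa35 : QA 35 A35 := QA.of_pow qp35
lemma qa36 : QA 36 A36 := QA.of_pow qp36
lemma qa37 : QA 37 A37 := QA.of_pow qp37
lemma qa38 : QA 38 A38 := QA.of_pow qp38
lemma qa39 : QA 39 A39 := QA.of_pow qp39

theorem qaT (μ : ℕ) (h : μ < 40) : QA μ (AT.getD μ A0) := by
  interval_cases μ
  · exact qa0
  · exact qa1
  · exact qa2
  · exact qa3
  · exact qa4
  · exact qa5
  · exact qa6
  · exact qa7
  · exact qa8
  · exact qa9
  · exact qa10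
  · exact qa11
  · exact qa12
  · exact qa13
  · exact qa14
  · exact qa15
  · exact qa16
  · exact qa17
  · exact qa18
  · exact qa19
  · exact qa20
  · exact qa21
  · exact qa22
  · exact qa23
  · exact qa24
  · exact qa25
  · exact qa26
  · exact qa27
  · exact qa28
  · exact qa29
  · exact qa30
  · exact qa31
  · exact qa32
  · exact qa33
  · exact qa34
  · exact qa35
  · exact qa36
  · exact qa37
  · exact qa38
  · exact qa39

end RE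
end Pool.Agent.Lib.MP_6947cd_al
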