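import Pool.Agent.Lib.MP_6947cd_al.L.ReN

/-!
Problem MP_6947cd_al (Chollet).  Row certificates `rowE`: the masks, the table of the weights, the digits of the product.
-/

set_option autoImplicit false
open Finset

namespace Pool.Agent.Lib.MP_6947cd_al
namespace RE

open Polynomial Ent.Pk

/-! ### masks -/

lemma ons_eq (w : ℕ) : ons w = 2 ^ w - 1 := by
  have : ons w = (1 <<< w) - 1 := rfl
  rw [this, Nat.shiftLeft_eq, one_mul]

lemma mkM_eq {w : ℕ} (hw : 0 < w) (K : ℕ) : mkM w (ons (w * K)) = msk w K := by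
  have e : mkM w (ons (w * K)) = ons (w * K) / ons w * ons (w - 32) := rfl
  rw [e, ons_eq, ons_eq, ons_eq, pk_one_div hw, ← pk_const]
  rfl

lemma rep_eq {D : ℕ} (hD : 0 < D) (T : ℕ) : Nat.div (ons (D * T)) (ons D) = pk D (fun _ => 1) T := by
  rw [ons_eq, ons_eq]
  exact pk_one_div hD T

lemma pk_full (w K : ℕ) : pk w (fun _ => 2 ^ w - 1) K = 2 ^ (w * K) - 1 := by
  rw [pk_const, pk_one_mul]

lemma pk_lane (w N T b : ℕ) (hb : b < T) :
    pk w (fun j => if j / N = b then 2 ^ w - 1 else 0) (T * N) = (2 ^ (w * N) - 1) * 2 ^ (w * N * b) := by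
  rw [pk_lanes, sum_eq_single b]
  · congr 1
    rw [← pk_full]
    refine pk_congr fun k hk => ?_
    beta_reduce
    rw [div_lane hk, if_pos rfl]
  · intro a _ hab
    have : pk w (fun k => if (a * N + k) / N = b then 2 ^ w - 1 else 0) N = pk w (fun _ => 0) N :=
      pk_congr fun k hk => by
        beta_reduce
        rw [div_lane hk, if_neg hab]
    beta_reduce
    rw [this]
    simp [pk]
  · intro h
    exact absurd (mem_range.mpr hb) h

lemma nm_eq {w N T b : ℕ} (hb : b < T) : nm (ons (w * N * T)) (ons (w * N)) (w * N) b = nmk w N T b := by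
  have e : nm (ons (w * N * T)) (ons (w * N)) (w * N) b = ons (w * N * T) - (ons (w * N)) <<< (w * N * b) := rfl
  rw [e, Nat.shiftLeft_eq, ons_eq, ons_eq, ← pk_lane w N T b hb, show w * N * T = w * (T * N) by ring, ← pk_full]
  have h : pk w (fun _ => 2 ^ w - 1) (T * N) = nmk w N T b + pk w (fun j => if j / N = b then 2 ^ w - 1 else 0) (T * N) := by
    unfold nmk
    rw [pk_add]
    refine pk_congr fun j _ => ?_
    beta_reduce
    split <;> simp
  omega

/-! ### the weights -/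

lemma pk_digits (w V K : ℕ) : pk w (fun i => V / 2 ^ (w * i) % 2 ^ w) K = V % 2 ^ (w * K) := by
  induction K with
  | zero => simp [pk, Nat.mod_one]
  | succ K ih =>
    rw [pk_succ, ih, show w * (K + 1) = w * K + w by ring, pow_add, Nat.mod_mul]
    ring

/-- the weight of the cardinality `k` -/
noncomputable def cg (n k : ℕ) : ℕ := cC n / 2 ^ (cW n * (n - k)) % 2 ^ cW n

theorem tab_ok : ∀ n < 41, 1 ≤ n → cC n < 2 ^ (cW n * n) ∧ cg n 1 * n * 2 ^ 31 = cL n ∧
    (∀ k < n, 1 ≤ k → cg n (k + 1) * (n - k) = cg n k * k) ∧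
    (∀ k < n + 1, 1 ≤ k → cg n k ≤ 2 ^ (cW n - 43 - n)) ∧ 0 < cL n ∧ 64 + n ≤ cW n ∧ cW n ≤ 145 := by
  decide +kernel

theorem wl_ok : ∀ R < 33, wl R = (List.range R).map uN ∧ ∀ g ∈ wl R, g ≤ 2 ^ 32 := by
  decide +kernel

end RE
end Pool.Agent.Lib.MP_6947cd_al
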