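import Pool.Agent.Lib.MP_6947cd_al.L.ReL

/-!
Problem MP_6947cd_al (Chollet).  Row certificates `rowE`: the lanes and the loop over the exponentials.
-/

set_option autoImplicit false
open Finset

namespace Pool.Agent.Lib.MP_6947cd_al
namespace RE

open Polynomial Ent.Pk

/-! ### lanes -/

/-- `T` lanes of `N` digits -/
lemma pk_lanes (w N : ℕ) (h : ℕ → ℕ) (T : ℕ) :
    pk w h (T * N) = ∑ a ∈ range T, pk w (fun k => h (a * N + k)) N * 2 ^ (w * N * a) := by
  induction T with
  | zero => simp [pk]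
  | succ T ih =>
    rw [sum_range_succ, ← ih, show (T + 1) * N = T * N + N by ring]
    unfold pk
    rw [sum_range_add, sum_mul]
    congr 1
    refine sum_congr rfl fun k _ => ?_
    rw [show w * (T * N + k) = w * k + w * N * T by ring, pow_add]
    ring

lemma div_lane {N a k : ℕ} (hk : k < N) : (a * N + k) / N = a := by
  rw [Nat.add_comm, Nat.add_mul_div_right _ _ (by omega), Nat.div_eq_of_lt hk, zero_add]

lemma mod_lane {N a k : ℕ} (hk : k < N) : (a * N + k) % N = k := by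
  rw [Nat.add_comm, Nat.add_mul_mod_self_right, Nat.mod_eq_of_lt hk]

/-- packed lower bounds of `T` polynomials -/
def LI (w N T : ℕ) (A : ℕ → ℝ[X]) (V : ℕ) : Prop :=
  ∃ f : ℕ → ℕ, V = pk w f (T * N) ∧ ∀ j < T * N, (f j : ℝ) ≤ 2 ^ 32 * (A (j / N)).coeff (j % N)

/-- the mask without the lane `b` -/
def nmk (w N T b : ℕ) : ℕ := pk w (fun j => if j / N = b then 0 else 2 ^ w - 1) (T * N)

lemma LI.congr {w N T : ℕ} {A B : ℕ → ℝ[X]} {V : ℕ} (h : LI w N T A V) (hAB : ∀ a < T, A a = B a) :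
    LI w N T B V := by
  obtain ⟨f, rfl, hf⟩ := h
  refine ⟨f, rfl, fun j hj => ?_⟩
  have hN : 0 < N := by
    rcases Nat.eq_zero_or_pos N with h0 | h0
    · rw [h0, Nat.mul_zero] at hj
      omega
    · exact h0
  rw [← hAB _ (by rw [Nat.div_lt_iff_lt_mul hN]; exact hj)]
  exact hf j hj

lemma LI.add {w N T : ℕ} {A B : ℕ → ℝ[X]} {U V : ℕ} (hU : LI w N T A U) (hV : LI w N T B V) :
    LI w N T (fun a => A a + B a) (Nat.add U V) := by
  obtain ⟨f, rfl, hf⟩ := hU
  obtain ⟨g, rfl, hg⟩ := hV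
  refine ⟨fun j => f j + g j, pk_add _ _ _ _, fun j hj => ?_⟩
  rw [coeff_add]
  push_cast
  have := hf j hj
  have := hg j hj
  linarith

/-- copies in all the lanes -/
lemma LI.rep {w n T d : ℕ} {P : ℝ[X]} {G : ℕ} (hP : Dom d P) (hd : d ≤ n) (hG : PI w (T * (n + 1)) P G) :
    LI w (n + 1) T (fun _ => P) (Nat.mul G (pk (w * (n + 1)) (fun _ => 1) T)) := by
  obtain ⟨f, rfl, hf⟩ := hG
  have hz : ∀ j, n + 1 ≤ j → j < T * (n + 1) → f j = 0 := by
    intro j h1 h2
    have h3 := hf j h2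
    rw [hP.zero_of (by omega), mul_zero] at h3
    have : f j ≤ 0 := by exact_mod_cast h3
    omega
  refine ⟨fun j => f (j % (n + 1)), ?_, fun j hj => hf _ ?_⟩
  · have e : ∀ a ∈ range T, pk w (fun k => f ((a * (n + 1) + k) % (n + 1))) (n + 1) * 2 ^ (w * (n + 1) * a)
        = pk w f (n + 1) * 2 ^ (w * (n + 1) * a) := by
      intro a _
      congr 1
      exact pk_congr fun k hk => by
        beta_reduce
        rw [mod_lane hk]
    rw [pk_lanes w (n + 1) (fun j => f (j % (n + 1))) T]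
    beta_reduce
    rw [sum_congr rfl e, ← mul_sum]
    show pk w f (T * (n + 1)) * _ = _
    rcases Nat.eq_zero_or_pos T with h0 | h0
    · subst h0
      simp [pk]
    · rw [pk_pad (K := n + 1) (K' := T * (n + 1)) (Nat.le_mul_of_pos_left _ h0) hz]
      congr 1
      unfold pk
      exact sum_congr rfl fun a _ => by rw [one_mul]
  · exact lt_of_le_of_lt (Nat.mod_le _ _) hj

/-- one step -/
lemma LI.st {w n T d : ℕ} (hw : 64 + n ≤ w) {A : ℕ → ℝ[X]} {V : ℕ} (hA : ∀ a < T, Dom d (A a)) (hd : d < n)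
    (hV : LI w (n + 1) T A V) {ρ : ℝ} (h0 : 0 ≤ ρ) (h1 : ρ ≤ 1) {r : ℕ} (hr : RI w ρ r) (b : ℕ) :
    LI w (n + 1) T (fun a => (if a = b then C ρ * X else 1 + C ρ * X) * A a)
      (RE.st (msk w (T * (n + 1))) V r (nmk w (n + 1) T b)) := by
  obtain ⟨f, rfl, hf⟩ := hV
  obtain ⟨ρ', rfl, hρ⟩ := hr
  have hw0 : 0 < w := by omega
  have hρ32 : ρ' ≤ 2 ^ 32 := by
    have : (ρ' : ℝ) ≤ ((2 ^ 32 : ℕ) : ℝ) := by
      calc (ρ' : ℝ) ≤ 2 ^ 32 * ρ := hρ
        _ ≤ 2 ^ 32 * 1 := by gcongr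
        _ = ((2 ^ 32 : ℕ) : ℝ) := by push_cast; norm_num
    exact_mod_cast this
  have hlane : ∀ j < T * (n + 1), j / (n + 1) < T := fun j hj => by
    rw [Nat.div_lt_iff_lt_mul (by omega)]
    exact hj
  have hf2 : ∀ j < T * (n + 1), f j < 2 ^ (w - 32) := by
    intro j hj
    have h2 := (hf j hj).trans (mul_le_mul_of_nonneg_left ((hA _ (hlane j hj)).le_two _) (by positivity))
    have h3 : (f j : ℝ) ≤ ((2 ^ 32 * 2 ^ d : ℕ) : ℝ) := h2.trans (le_of_eq (by push_cast; norm_num))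
    have h4 : f j ≤ 2 ^ 32 * 2 ^ d := by exact_mod_cast h3
    refine lt_of_le_of_lt h4 ?_
    rw [← pow_add]
    exact Nat.pow_lt_pow_right (by norm_num) (by omega)
  have hfw : ∀ j < T * (n + 1), f j < 2 ^ w := fun j hj =>
    lt_of_lt_of_le (hf2 j hj) (Nat.pow_le_pow_right (by norm_num) (by omega))
  have hlt : ∀ j < T * (n + 1), f j * ρ' < 2 ^ w := fun j hj => by
    calc f j * ρ' ≤ f j * 2 ^ 32 := Nat.mul_le_mul_left _ hρ32
      _ < 2 ^ (w - 32) * 2 ^ 32 := Nat.mul_lt_mul_of_pos_right (hf2 j hj) (by norm_num)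
      _ = 2 ^ w := by rw [← pow_add]; congr 1; omega
  refine ⟨fun j => (if j / (n + 1) = b then 0 else f j) + shd f ρ' j, ?_, fun j hj => ?_⟩
  · have e0 : RE.st (msk w (T * (n + 1))) (pk w f (T * (n + 1))) (ρ' * 2 ^ (w - 32)) (nmk w (n + 1) T b)
        = (pk w f (T * (n + 1)) &&& nmk w (n + 1) T b)
          + ((pk w f (T * (n + 1)) * (ρ' * 2 ^ (w - 32))) &&& pk w (fun _ => 2 ^ (w - 32) - 1) (T * (n + 1))) := rfl
    rw [e0, pk_shl (by omega) hlt]
    unfold nmk
    rw [pk_land hw0 hfw (fun j _ => by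
      split
      · exact Nat.two_pow_pos _
      · have : 1 ≤ 2 ^ w := Nat.one_le_two_pow
        omega), ← pk_add]
    congr 1
    refine pk_congr fun j hj => ?_
    split
    · exact Nat.and_zero _
    · rw [Nat.and_two_pow_sub_one_eq_mod, Nat.mod_eq_of_lt (hfw j hj)]
  · -- the part with the factor
    have hs : (shd f ρ' j : ℝ) ≤ 2 ^ 32 * (C ρ * X * A (j / (n + 1))).coeff (j % (n + 1)) := by
      rw [coeff_mark]
      unfold shd
      rcases Nat.eq_zero_or_pos j with hj0 | hj0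
      · rw [if_pos hj0, hj0]
        simp
      · rw [if_neg (by omega)]
        rcases Nat.eq_zero_or_pos (j % (n + 1)) with hm | hm
        · rw [if_pos hm]
          -- the digit below is the top digit of the previous lane
          have e1 := Nat.div_add_mod j (n + 1)
          obtain ⟨q, hq⟩ : ∃ q, j / (n + 1) = q + 1 := by
            rcases Nat.eq_zero_or_pos (j / (n + 1)) with h2 | h2
            · rw [h2, hm] at e1
              omega
            · exact ⟨j / (n + 1) - 1, by omega⟩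
          have e2 : j - 1 = q * (n + 1) + n := by
            rw [hq, hm] at e1
            have : (n + 1) * (q + 1) = q * (n + 1) + n + 1 := by ring
            omega
          have h3 := hf (j - 1) (by omega)
          rw [e2, div_lane (by omega), mod_lane (by omega)] at h3
          have h4 : q < T := by
            have := hlane j hj
            omega
          rw [(hA q h4).zero_of hd, mul_zero] at h3
          have h5 : f (q * (n + 1) + n) = 0 := by
            have : f (q * (n + 1) + n) ≤ 0 := by exact_mod_cast h3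
            omega
          rw [e2, h5, Nat.zero_mul, Nat.zero_div]
          simp
        · rw [if_neg (by omega)]
          have e1 := Nat.div_add_mod j (n + 1)
          have hlt2 := Nat.mod_lt j (show 0 < n + 1 by omega)
          have e2 : j - 1 = j / (n + 1) * (n + 1) + (j % (n + 1) - 1) := by
            have : (n + 1) * (j / (n + 1)) = j / (n + 1) * (n + 1) := by ring
            omega
          have h3 := hf (j - 1) (by omega)
          rw [e2, div_lane (by omega), mod_lane (by omega)] at h3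
          rw [e2]
          exact shd_le h0 hρ h3
    push_cast
    by_cases hb : j / (n + 1) = b
    · rw [if_pos hb, if_pos hb]
      simpa using hs
    · rw [if_neg hb, if_neg hb, add_mul, one_mul, coeff_add]
      have := hf j hj
      linarith

/-! ### the list form of the program -/

/-- the steps -/
def stepL (M : ℕ) : List ℕ → List ℕ → ℕ → ℕ
  | r :: rs, N :: Ns, V => stepL M rs Ns (st M V r N)
  | _, _, V => V

/-- the common part -/
def QL (M : ℕ) : List (ℕ → ℕ → ℕ → ℕ) → List ℕ → ℕ → ℕ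
  | q :: qs, r :: rs, w => q M r (QL M qs rs w)
  | _, _, w => w

/-- the loop -/
def loopL (W PM M REP : ℕ) (Ns : List ℕ) (qs : List (ℕ → ℕ → ℕ → ℕ)) : List ℕ → List ℕ → ℕ → ℕ
  | [], _, S => S
  | w :: ws, rs, S => loopL W PM M REP Ns qs ws (rs.map (sq W))
      (Nat.add S (stepL M (rs.map fun r => Nat.land r PM) Ns
        (Nat.mul (QL M qs (rs.map fun r => Nat.land r PM) w) REP)))

/-- product of the lane factors -/
noncomputable def lp : List ℝ → ℕ → ℕ → ℝ[X]
  | [], _, _ => 1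
  | ρ :: ρs, b, a => lp ρs (b + 1) a * (if a = b then C ρ * X else 1 + C ρ * X)

lemma stepL_ok {w n T : ℕ} (hw : 64 + n ≤ w) : ∀ (ρs : List ℝ) (rs : List ℕ) (b d : ℕ) (A : ℕ → ℝ[X]) (V : ℕ),
    List.Forall₂ (RI w) ρs rs → (∀ ρ ∈ ρs, 0 ≤ ρ ∧ ρ ≤ 1) → (∀ a < T, Dom d (A a)) → d + ρs.length ≤ n →
    LI w (n + 1) T A V → LI w (n + 1) T (fun a => lp ρs b a * A a)
      (stepL (msk w (T * (n + 1))) rs ((List.range' b ρs.length).map (nmk w (n + 1) T)) V) := by
  intro ρs
  induction ρs with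
  | nil =>
    intro rs b d A V h _ _ _ hV
    cases h
    refine hV.congr fun a _ => ?_
    show A a = 1 * A a
    rw [one_mul]
  | cons ρ ρs ih =>
    intro rs b d A V h hρ hA hd hV
    obtain ⟨r, rs, hr, hrs, rfl⟩ : ∃ r rs', RI w ρ r ∧ List.Forall₂ (RI w) ρs rs' ∧ rs = r :: rs' := by
      cases h with
      | cons h1 h2 => exact ⟨_, _, h1, h2, rfl⟩
    rw [List.length_cons] at hd
    obtain ⟨h0, h1⟩ := hρ ρ (by simp)
    have hst := LI.st hw hA (by omega) hV h0 h1 hr b
    rw [List.length_cons, List.range'_succ, List.map_cons]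
    show LI w (n + 1) T _ (stepL _ rs _ (RE.st _ V r _))
    have := ih rs (b + 1) (d + 1) _ _ hrs (fun x hx => hρ x (by simp [hx])) (fun a ha => by
      beta_reduce
      rw [add_comm d 1]
      split
      · exact (Dom.mark h0 h1).mul (hA a ha)
      · exact (Dom.lin h0 h1).mul (hA a ha)) (by omega) hst
    refine this.congr fun a _ => ?_
    show lp ρs (b + 1) a * ((if a = b then C ρ * X else 1 + C ρ * X) * A a)
      = lp ρs (b + 1) a * (if a = b then C ρ * X else 1 + C ρ * X) * A a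
    ring

lemma gp_dom : ∀ (ms : List ℕ) (ρs : List ℝ), (∀ ρ ∈ ρs, 0 ≤ ρ ∧ ρ ≤ 1) → Dom ms.sum (gp ms ρs) := by
  intro ms
  induction ms with
  | nil =>
    intro ρs _
    have := Dom.const (c := 1) zero_le_one le_rfl
    rw [C_1] at this
    cases ρs <;> exact this
  | cons m ms ih =>
    intro ρs h
    cases ρs with
    | nil =>
      have := Dom.const (c := 1) zero_le_one le_rfl
      rw [C_1] at this
      exact this.mono (Nat.zero_le _)
    | cons ρ ρs =>
      rw [List.sum_cons]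
      exact (Dom.pow (h ρ (by simp)).1 (h ρ (by simp)).2 m).mul (ih ρs fun x hx => h x (by simp [hx]))

/-- the powers of the common part -/
lemma QL_ok {w K n : ℕ} (hc : Ctx w K n) {u : ℝ} (hu0 : 0 ≤ u) (hu1 : u ≤ 1) {g : ℕ} (hg : (g : ℝ) ≤ 2 ^ 32 * u) :
    ∀ (μs : List ℕ) (qs : List (ℕ → ℕ → ℕ → ℕ)) (ρs : List ℝ) (rs : List ℕ), List.Forall₂ QA μs qs →
    List.Forall₂ (RI w) ρs rs → (∀ ρ ∈ ρs, 0 ≤ ρ ∧ ρ ≤ 1) → μs.length = ρs.length → μs.sum < n →
    PI w K (gp μs ρs * C u) (QL (msk w K) qs rs g) := by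
  intro μs
  induction μs with
  | nil =>
    intro qs ρs rs h1 h2 _ hl _
    have : ρs = [] := List.eq_nil_of_length_eq_zero hl.symm
    subst this
    cases h1
    cases h2
    show PI w K (1 * C u) g
    refine ⟨fun j => if j = 0 then g else 0, ?_, fun j _ => ?_⟩
    · rw [pk_pad (K := 1) (K' := K) (by have := hc.hK; omega) (fun j h1 _ => by rw [if_neg (by omega)])]
      rw [pk_succ, pk_zero]
      simp
    · rw [one_mul, coeff_C]
      rcases Nat.eq_zero_or_pos j with h | h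
      · subst h
        simpa using hg
      · beta_reduce
        rw [if_neg (by omega), if_neg (by omega)]
        simp
  | cons μ μs ih =>
    intro qs ρs rs h1 h2 hρ hl hs
    obtain ⟨q, qs, hq, hqs, rfl⟩ : ∃ q qs', QA μ q ∧ List.Forall₂ QA μs qs' ∧ qs = q :: qs' := by
      cases h1 with
      | cons h1 h2 => exact ⟨_, _, h1, h2, rfl⟩
    cases ρs with
    | nil => simp at hl
    | cons ρ ρs =>
      obtain ⟨r, rs, hr, hrs, rfl⟩ : ∃ r rs', RI w ρ r ∧ List.Forall₂ (RI w) ρs rs' ∧ rs = r :: rs' := by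
        cases h2 with
        | cons h1 h2 => exact ⟨_, _, h1, h2, rfl⟩
      rw [List.sum_cons] at hs
      obtain ⟨h0, h1⟩ := hρ ρ (by simp)
      have hρ' : ∀ x ∈ ρs, 0 ≤ x ∧ x ≤ 1 := fun x hx => hρ x (by simp [hx])
      have h3 := ih qs ρs rs hqs hrs hρ' (by simpa using hl) (by omega)
      have h4 := hq w K n hc ρ r h0 h1 hr _ _ _ ((gp_dom μs ρs hρ').mul (Dom.const hu0 hu1)) (by omega) h3
      have e : gp (μ :: μs) (ρ :: ρs) * C u = (1 + C ρ * X) ^ μ * (gp μs ρs * C u) := by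
        show (1 + C ρ * X) ^ μ * gp μs ρs * C u = _
        ring
      rw [e]
      exact h4

/-! ### the lane polynomial -/

lemma lp_gt : ∀ (ρs : List ℝ) (ms : List ℕ) (b a : ℕ), a < b → ms.length = ρs.length → (∀ m ∈ ms, 1 ≤ m) →
    lp ρs b a * gp (ms.map (· - 1)) ρs = gp ms ρs := by
  intro ρs
  induction ρs with
  | nil =>
    intro ms b a _ hl _
    have : ms = [] := List.eq_nil_of_length_eq_zero hl
    subst this
    show (1 : ℝ[X]) * 1 = 1
    ring
  | cons ρ ρs ih =>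
    intro ms b a hab hl hm
    cases ms with
    | nil => simp at hl
    | cons m ms =>
      have h1 := ih ms (b + 1) a (by omega) (by simpa using hl) fun x hx => hm x (by simp [hx])
      have hm1 := hm m (by simp)
      show lp ρs (b + 1) a * (if a = b then C ρ * X else 1 + C ρ * X)
        * ((1 + C ρ * X) ^ (m - 1) * gp (ms.map (· - 1)) ρs) = (1 + C ρ * X) ^ m * gp ms ρs
      rw [if_neg (by omega), ← h1]
      obtain ⟨k, rfl⟩ : ∃ k, m = k + 1 := ⟨m - 1, by omega⟩
      rw [Nat.add_sub_cancel, pow_succ]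
      ring

lemma lp_eq : ∀ (ρs : List ℝ) (ms : List ℕ) (b a : ℕ), a < ms.length → ms.length = ρs.length → (∀ m ∈ ms, 1 ≤ m) →
    lp ρs b (b + a) * gp (ms.map (· - 1)) ρs = C (ρs.getD a 0) * X * gp (decN a ms) ρs := by
  intro ρs
  induction ρs with
  | nil =>
    intro ms b a ha hl _
    rw [hl] at ha
    simp at ha
  | cons ρ ρs ih =>
    intro ms b a ha hl hm
    cases ms with
    | nil => simp at hl
    | cons m ms =>
      have hm1 := hm m (by simp)
      have hm' : ∀ x ∈ ms, 1 ≤ x := fun x hx => hm x (by simp [hx])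
      have hl' : ms.length = ρs.length := by simpa using hl
      show lp ρs (b + 1) (b + a) * (if b + a = b then C ρ * X else 1 + C ρ * X)
        * ((1 + C ρ * X) ^ (m - 1) * gp (ms.map (· - 1)) ρs) = _
      cases a with
      | zero =>
        rw [if_pos (by omega)]
        have h1 := lp_gt ρs ms (b + 1) (b + 0) (by omega) hl' hm'
        show _ = C ρ * X * ((1 + C ρ * X) ^ (m - 1) * gp ms ρs)
        rw [← h1]
        ring
      | succ a =>
        rw [if_neg (by omega)]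
        have h1 := ih ms (b + 1) a (by simpa using ha) hl' hm'
        show _ = C (ρs.getD a 0) * X * ((1 + C ρ * X) ^ m * gp (decN a ms) ρs)
        obtain ⟨k, rfl⟩ : ∃ k, m = k + 1 := ⟨m - 1, by omega⟩
        rw [Nat.add_sub_cancel, show b + (a + 1) = b + 1 + a by ring, pow_succ]
        calc lp ρs (b + 1) (b + 1 + a) * (1 + C ρ * X) * ((1 + C ρ * X) ^ k * gp (ms.map (· - 1)) ρs)
            = (1 + C ρ * X) ^ k * (1 + C ρ * X) * (lp ρs (b + 1) (b + 1 + a) * gp (ms.map (· - 1)) ρs) := by ring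
          _ = _ := by rw [h1]; ring

/-! ### the loop -/

/-- `r` is a lower bound of `2 ^ w ρ` -/
def RB (w : ℕ) (ρ : ℝ) (r : ℕ) : Prop := (r : ℝ) ≤ 2 ^ w * ρ

lemma RB.trunc {w : ℕ} (hw : 32 ≤ w) {ρ : ℝ} {r : ℕ} (h : RB w ρ r) (h1 : ρ < 1) :
    RI w ρ (Nat.land r ((2 ^ 32 - 1) * 2 ^ (w - 32))) := by
  have hr : r < 2 ^ w := by
    have : (r : ℝ) < ((2 ^ w : ℕ) : ℝ) := by
      push_cast
      calc (r : ℝ) ≤ 2 ^ w * ρ := h
        _ < 2 ^ w * 1 := by
          have : (0 : ℝ) < 2 ^ w := by positivity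
          nlinarith
        _ = 2 ^ w := mul_one _
    exact_mod_cast this
  refine ⟨r / 2 ^ (w - 32), ?_, ?_⟩
  · refine Nat.eq_of_testBit_eq fun i => ?_
    have e0 : Nat.land r ((2 ^ 32 - 1) * 2 ^ (w - 32)) = r &&& ((2 ^ 32 - 1) <<< (w - 32)) := by
      rw [Nat.shiftLeft_eq]
      rfl
    rw [e0, Nat.testBit_and, Nat.testBit_shiftLeft, testBit_ones, ← Nat.shiftLeft_eq, Nat.testBit_shiftLeft,
      Nat.testBit_div_two_pow]
    by_cases hi : w - 32 ≤ i
    · rw [decide_eq_true (show i ≥ w - 32 from hi), Bool.true_and, Bool.true_and, show i - (w - 32) + (w - 32) = i by omega]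
      by_cases hi2 : i < w
      · rw [decide_eq_true (show i - (w - 32) < 32 by omega), Bool.and_true]
      · rw [Nat.testBit_lt_two_pow (lt_of_lt_of_le hr (Nat.pow_le_pow_right (by norm_num) (by omega))), Bool.false_and]
    · rw [decide_eq_false (show ¬ i ≥ w - 32 from hi)]
      simp
  · have h2 : ((r / 2 ^ (w - 32) : ℕ) : ℝ) ≤ (r : ℝ) / ((2 ^ (w - 32) : ℕ) : ℝ) := Nat.cast_div_le
    refine h2.trans ?_
    push_cast
    rw [div_le_iff₀ (by positivity)]
    calc (r : ℝ) ≤ 2 ^ w * ρ := h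
      _ = 2 ^ 32 * ρ * 2 ^ (w - 32) := by
        have : (2 : ℝ) ^ w = 2 ^ 32 * 2 ^ (w - 32) := by rw [← pow_add]; congr 1; omega
        rw [this]
        ring

lemma RB.sq {w : ℕ} {ρ : ℝ} {r : ℕ} (h : RB w ρ r) (h0 : 0 ≤ ρ) : RB w (ρ ^ 2) (RE.sq w r) := by
  have e0 : RE.sq w r = (r * r) >>> w := rfl
  unfold RB
  rw [e0, Nat.shiftRight_eq_div_pow]
  have h2 : ((r * r / 2 ^ w : ℕ) : ℝ) ≤ ((r * r : ℕ) : ℝ) / ((2 ^ w : ℕ) : ℝ) := Nat.cast_div_le
  refine h2.trans ?_
  push_cast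
  rw [div_le_iff₀ (by positivity)]
  have hr0 : (0 : ℝ) ≤ r := Nat.cast_nonneg _
  calc (r : ℝ) * r ≤ (2 ^ w * ρ) * (2 ^ w * ρ) := mul_le_mul h h hr0 (hr0.trans h)
    _ = 2 ^ w * ρ ^ 2 * 2 ^ w := by ring

/-- the polynomial of the lane `a` after the loop -/
noncomputable def lpol (m : List ℕ) : List ℕ → List ℝ → ℕ → ℝ[X]
  | [], _, _ => 0
  | g :: gs, ρs, a => C ((g : ℝ) / 2 ^ 32) * (C (ρs.getD a 0) * X * gp (decN a m) ρs)
      + lpol m gs (ρs.map (· ^ 2)) a

theorem loopL_ok {w n T : ℕ} (hw : 64 + n ≤ w) {m : List ℕ} (hT : m.length = T) (hT1 : 1 ≤ T) (hm : ∀ x ∈ m, 1 ≤ x)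
    (hn : m.sum = n) {qs : List (ℕ → ℕ → ℕ → ℕ)} (hq : List.Forall₂ QA (m.map (· - 1)) qs) :
    ∀ (gs : List ℕ) (ρs : List ℝ) (rs : List ℕ) (A : ℕ → ℝ[X]) (S : ℕ), (∀ g ∈ gs, g ≤ 2 ^ 32) →
    ρs.length = T → List.Forall₂ (RB w) ρs rs → (∀ ρ ∈ ρs, 0 ≤ ρ ∧ ρ < 1) → LI w (n + 1) T A S →
    LI w (n + 1) T (fun a => A a + lpol m gs ρs a)
      (loopL w ((2 ^ 32 - 1) * 2 ^ (w - 32)) (msk w (T * (n + 1))) (pk (w * (n + 1)) (fun _ => 1) T)
        ((List.range' 0 T).map (nmk w (n + 1) T)) qs gs rs S) := by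
  have hsum : (m.map (· - 1)).sum + T = n := by
    rw [← hn, ← hT]
    clear hn hT hq hT1
    induction m with
    | nil => rfl
    | cons x m ih =>
      have h1 := hm x (by simp)
      have h2 := ih fun y hy => hm y (by simp [hy])
      simp only [List.map_cons, List.sum_cons, List.length_cons]
      omega
  have hTn : T ≤ n := by omega
  have hc : Ctx w (T * (n + 1)) n := ⟨hw, by nlinarith⟩
  intro gs
  induction gs with
  | nil =>
    intro ρs rs A S _ _ _ _ hS
    refine hS.congr fun a _ => ?_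
    show A a = A a + 0
    rw [add_zero]
  | cons g gs ih =>
    intro ρs rs A S hg hl hrs hρ hS
    have hρ1 : ∀ ρ ∈ ρs, 0 ≤ ρ ∧ ρ ≤ 1 := fun ρ h => ⟨(hρ ρ h).1, (hρ ρ h).2.le⟩
    set PM := (2 ^ 32 - 1) * 2 ^ (w - 32) with hPM
    have hrs' : List.Forall₂ (RI w) ρs (rs.map fun r => Nat.land r PM) := by
      clear ih hS hl hρ1
      induction hrs with
      | nil => exact List.Forall₂.nil
      | cons h1 _ ih =>
        exact List.Forall₂.cons (h1.trunc (by omega) (hρ _ (by simp)).2) (ih fun x hx => hρ x (by simp [hx]))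
    have hrs2 : List.Forall₂ (RB w) (ρs.map (· ^ 2)) (rs.map (sq w)) := by
      clear ih hS hl hρ1 hrs'
      induction hrs with
      | nil => exact List.Forall₂.nil
      | cons h1 _ ih =>
        exact List.Forall₂.cons (h1.sq (hρ _ (by simp)).1) (ih fun x hx => hρ x (by simp [hx]))
    have hg1 : (g : ℝ) / 2 ^ 32 ≤ 1 := by
      have h1 : (g : ℝ) ≤ ((2 ^ 32 : ℕ) : ℝ) := by exact_mod_cast hg g (by simp)
      rw [div_le_one (by positivity)]
      exact h1.trans (le_of_eq (by push_cast; norm_num))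
    have hg0 : (0 : ℝ) ≤ (g : ℝ) / 2 ^ 32 := by positivity
    have hQ := QL_ok hc hg0 hg1 (g := g) (le_of_eq (by field_simp)) (m.map (· - 1)) qs ρs _ hq hrs' hρ1
      (by rw [List.length_map, hT, hl]) (by omega)
    have hD : Dom (m.map (· - 1)).sum (gp (m.map (· - 1)) ρs * C ((g : ℝ) / 2 ^ 32)) := by
      have := (gp_dom (m.map (· - 1)) ρs hρ1).mul (Dom.const hg0 hg1)
      rwa [add_zero] at this
    have hV := LI.rep (T := T) hD (by omega) hQ
    have hst := stepL_ok hw ρs _ 0 _ _ _ hrs' hρ1 (fun _ _ => hD) (by omega) hV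
    rw [hl] at hst
    have h2 := ih (ρs.map (· ^ 2)) (rs.map (sq w)) _ _ (fun x hx => hg x (by simp [hx]))
      (by rw [List.length_map, hl]) hrs2 (by
        intro x hx
        obtain ⟨y, hy, rfl⟩ := List.mem_map.mp hx
        obtain ⟨h3, h4⟩ := hρ y hy
        exact ⟨by positivity, by nlinarith⟩) (hS.add hst)
    show LI w (n + 1) T _ (loopL w PM _ _ _ qs gs (rs.map (sq w)) (Nat.add S _))
    refine h2.congr fun a ha => ?_
    show A a + lp ρs 0 a * (gp (m.map (· - 1)) ρs * C ((g : ℝ) / 2 ^ 32)) + lpol m gs (ρs.map (· ^ 2)) a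
      = A a + (C ((g : ℝ) / 2 ^ 32) * (C (ρs.getD a 0) * X * gp (decN a m) ρs) + lpol m gs (ρs.map (· ^ 2)) a)
    have e := lp_eq ρs m 0 a (by omega) (by omega) hm
    rw [zero_add] at e
    rw [← e]
    ring

end RE
end Pool.Agent.Lib.MP_6947cd_al
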