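import Pool.Agent.Lib.MP_6947cd_al.L.ReN

/-!
Problem MP_6947cd_al (Chollet).  Row certificates `rowE`: the program in list form.
-/

set_option autoImplicit false
open Finset

namespace Pool.Agent.Lib.MP_6947cd_al
namespace RE

open Ent.Pk

lemma loop1_eq (W PM M REP N1 : ℕ) (q1 : ℕ → ℕ → ℕ → ℕ) : ∀ (ws : List ℕ) (r1 S : ℕ),
    loop1 W PM M REP N1 q1 ws r1 S = loopL W PM M REP [N1] [q1] ws [r1] S := by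
  intro ws
  induction ws with
  | nil => intros; rfl
  | cons w ws ih => intro r1 S; exact ih _ _

lemma loop2_eq (W PM M REP N1 N2 : ℕ) (q1 q2 : ℕ → ℕ → ℕ → ℕ) : ∀ (ws : List ℕ) (r1 r2 S : ℕ),
    loop2 W PM M REP N1 N2 q1 q2 ws r1 r2 S = loopL W PM M REP [N1, N2] [q1, q2] ws [r1, r2] S := by
  intro ws
  induction ws with
  | nil => intros; rfl
  | cons w ws ih => intro r1 r2 S; exact ih _ _ _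

lemma loop3_eq (W PM M REP N1 N2 N3 : ℕ) (q1 q2 q3 : ℕ → ℕ → ℕ → ℕ) : ∀ (ws : List ℕ) (r1 r2 r3 S : ℕ),
    loop3 W PM M REP N1 N2 N3 q1 q2 q3 ws r1 r2 r3 S = loopL W PM M REP [N1, N2, N3] [q1, q2, q3] ws [r1, r2, r3] S := by
  intro ws
  induction ws with
  | nil => intros; rfl
  | cons w ws ih => intro r1 r2 r3 S; exact ih _ _ _ _

lemma loop4_eq (W PM M REP N1 N2 N3 N4 : ℕ) (q1 q2 q3 q4 : ℕ → ℕ → ℕ → ℕ) : ∀ (ws : List ℕ) (r1 r2 r3 r4 S : ℕ),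
    loop4 W PM M REP N1 N2 N3 N4 q1 q2 q3 q4 ws r1 r2 r3 r4 S = loopL W PM M REP [N1, N2, N3, N4] [q1, q2, q3, q4] ws [r1, r2, r3, r4] S := by
  intro ws
  induction ws with
  | nil => intros; rfl
  | cons w ws ih => intro r1 r2 r3 r4 S; exact ih _ _ _ _ _

lemma loop5_eq (W PM M REP N1 N2 N3 N4 N5 : ℕ) (q1 q2 q3 q4 q5 : ℕ → ℕ → ℕ → ℕ) : ∀ (ws : List ℕ) (r1 r2 r3 r4 r5 S : ℕ),
    loop5 W PM M REP N1 N2 N3 N4 N5 q1 q2 q3 q4 q5 ws r1 r2 r3 r4 r5 S = loopL W PM M REP [N1, N2, N3, N4, N5] [q1, q2, q3, q4, q5] ws [r1, r2, r3, r4, r5] S := by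
  intro ws
  induction ws with
  | nil => intros; rfl
  | cons w ws ih => intro r1 r2 r3 r4 r5 S; exact ih _ _ _ _ _ _

lemma loop6_eq (W PM M REP N1 N2 N3 N4 N5 N6 : ℕ) (q1 q2 q3 q4 q5 q6 : ℕ → ℕ → ℕ → ℕ) : ∀ (ws : List ℕ) (r1 r2 r3 r4 r5 r6 S : ℕ),
    loop6 W PM M REP N1 N2 N3 N4 N5 N6 q1 q2 q3 q4 q5 q6 ws r1 r2 r3 r4 r5 r6 S = loopL W PM M REP [N1, N2, N3, N4, N5, N6] [q1, q2, q3, q4, q5, q6] ws [r1, r2, r3, r4, r5, r6] S := by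
  intro ws
  induction ws with
  | nil => intros; rfl
  | cons w ws ih => intro r1 r2 r3 r4 r5 r6 S; exact ih _ _ _ _ _ _ _

lemma loop7_eq (W PM M REP N1 N2 N3 N4 N5 N6 N7 : ℕ) (q1 q2 q3 q4 q5 q6 q7 : ℕ → ℕ → ℕ → ℕ) : ∀ (ws : List ℕ) (r1 r2 r3 r4 r5 r6 r7 S : ℕ),
    loop7 W PM M REP N1 N2 N3 N4 N5 N6 N7 q1 q2 q3 q4 q5 q6 q7 ws r1 r2 r3 r4 r5 r6 r7 S = loopL W PM M REP [N1, N2, N3, N4, N5, N6, N7] [q1, q2, q3, q4, q5, q6, q7] ws [r1, r2, r3, r4, r5, r6, r7] S := by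
  intro ws
  induction ws with
  | nil => intros; rfl
  | cons w ws ih => intro r1 r2 r3 r4 r5 r6 r7 S; exact ih _ _ _ _ _ _ _ _

lemma loop8_eq (W PM M REP N1 N2 N3 N4 N5 N6 N7 N8 : ℕ) (q1 q2 q3 q4 q5 q6 q7 q8 : ℕ → ℕ → ℕ → ℕ) : ∀ (ws : List ℕ) (r1 r2 r3 r4 r5 r6 r7 r8 S : ℕ),
    loop8 W PM M REP N1 N2 N3 N4 N5 N6 N7 N8 q1 q2 q3 q4 q5 q6 q7 q8 ws r1 r2 r3 r4 r5 r6 r7 r8 S = loopL W PM M REP [N1, N2, N3, N4, N5, N6, N7, N8] [q1, q2, q3, q4, q5, q6, q7, q8] ws [r1, r2, r3, r4, r5, r6, r7, r8] S := by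
  intro ws
  induction ws with
  | nil => intros; rfl
  | cons w ws ih => intro r1 r2 r3 r4 r5 r6 r7 r8 S; exact ih _ _ _ _ _ _ _ _ _

/-- the failures of all the types -/
def tyS (D V5 L tot mk P : ℕ) : List Ty → ℕ → ℕ
  | [], _ => 0
  | t :: l, a => Nat.add (ty V5 L tot mk t.w t.e (Nat.shiftRight P (Nat.mul D a))) (tyS D V5 L tot mk P l (a + 1))

lemma tyS_zero (D V5 L tot mk P : ℕ) : ∀ (l : List Ty) (b : ℕ), tyS D V5 L tot mk P l b = 0 →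
    ∀ (a : ℕ) (h : a < l.length), ty V5 L tot mk l[a].w l[a].e (Nat.shiftRight P (Nat.mul D (b + a))) = 0 := by
  intro l
  induction l with
  | nil => intro b _ a h; exact absurd h (by simp)
  | cons t l ih =>
    intro b h a ha
    have h1 : ty V5 L tot mk t.w t.e (Nat.shiftRight P (Nat.mul D b)) + tyS D V5 L tot mk P l (b + 1) = 0 := h
    have h2 : ty V5 L tot mk t.w t.e (Nat.shiftRight P (Nat.mul D b)) = 0 := by omega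
    have h3 : tyS D V5 L tot mk P l (b + 1) = 0 := by omega
    cases a with
    | zero => exact h2
    | succ a =>
      have h4 := ih (b + 1) h3 a (by simpa using ha)
      rw [show b + (a + 1) = b + 1 + a by ring]
      exact h4

lemma fin1_eq (D V5 L tot mk w1 e1 P : ℕ) (q1 : ℕ → ℕ → ℕ → ℕ) :
    fin1 D V5 L tot mk w1 e1 P = tyS D V5 L tot mk P [⟨q1, w1, e1⟩] 0 := rfl

lemma fin2_eq (D V5 L tot mk w1 w2 e1 e2 P : ℕ) (q1 q2 : ℕ → ℕ → ℕ → ℕ) :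
    fin2 D V5 L tot mk w1 w2 e1 e2 P = tyS D V5 L tot mk P [⟨q1, w1, e1⟩, ⟨q2, w2, e2⟩] 0 := rfl

lemma fin3_eq (D V5 L tot mk w1 w2 w3 e1 e2 e3 P : ℕ) (q1 q2 q3 : ℕ → ℕ → ℕ → ℕ) :
    fin3 D V5 L tot mk w1 w2 w3 e1 e2 e3 P = tyS D V5 L tot mk P [⟨q1, w1, e1⟩, ⟨q2, w2, e2⟩, ⟨q3, w3, e3⟩] 0 := rfl

lemma fin4_eq (D V5 L tot mk w1 w2 w3 w4 e1 e2 e3 e4 P : ℕ) (q1 q2 q3 q4 : ℕ → ℕ → ℕ → ℕ) :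
    fin4 D V5 L tot mk w1 w2 w3 w4 e1 e2 e3 e4 P = tyS D V5 L tot mk P [⟨q1, w1, e1⟩, ⟨q2, w2, e2⟩, ⟨q3, w3, e3⟩, ⟨q4, w4, e4⟩] 0 := rfl

lemma fin5_eq (D V5 L tot mk w1 w2 w3 w4 w5 e1 e2 e3 e4 e5 P : ℕ) (q1 q2 q3 q4 q5 : ℕ → ℕ → ℕ → ℕ) :
    fin5 D V5 L tot mk w1 w2 w3 w4 w5 e1 e2 e3 e4 e5 P = tyS D V5 L tot mk P [⟨q1, w1, e1⟩, ⟨q2, w2, e2⟩, ⟨q3, w3, e3⟩, ⟨q4, w4, e4⟩, ⟨q5, w5, e5⟩] 0 := rfl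

lemma fin6_eq (D V5 L tot mk w1 w2 w3 w4 w5 w6 e1 e2 e3 e4 e5 e6 P : ℕ) (q1 q2 q3 q4 q5 q6 : ℕ → ℕ → ℕ → ℕ) :
    fin6 D V5 L tot mk w1 w2 w3 w4 w5 w6 e1 e2 e3 e4 e5 e6 P = tyS D V5 L tot mk P [⟨q1, w1, e1⟩, ⟨q2, w2, e2⟩, ⟨q3, w3, e3⟩, ⟨q4, w4, e4⟩, ⟨q5, w5, e5⟩, ⟨q6, w6, e6⟩] 0 := rfl

lemma fin7_eq (D V5 L tot mk w1 w2 w3 w4 w5 w6 w7 e1 e2 e3 e4 e5 e6 e7 P : ℕ) (q1 q2 q3 q4 q5 q6 q7 : ℕ → ℕ → ℕ → ℕ) :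
    fin7 D V5 L tot mk w1 w2 w3 w4 w5 w6 w7 e1 e2 e3 e4 e5 e6 e7 P = tyS D V5 L tot mk P [⟨q1, w1, e1⟩, ⟨q2, w2, e2⟩, ⟨q3, w3, e3⟩, ⟨q4, w4, e4⟩, ⟨q5, w5, e5⟩, ⟨q6, w6, e6⟩, ⟨q7, w7, e7⟩] 0 := rfl

lemma fin8_eq (D V5 L tot mk w1 w2 w3 w4 w5 w6 w7 w8 e1 e2 e3 e4 e5 e6 e7 e8 P : ℕ) (q1 q2 q3 q4 q5 q6 q7 q8 : ℕ → ℕ → ℕ → ℕ) :
    fin8 D V5 L tot mk w1 w2 w3 w4 w5 w6 w7 w8 e1 e2 e3 e4 e5 e6 e7 e8 P = tyS D V5 L tot mk P [⟨q1, w1, e1⟩, ⟨q2, w2, e2⟩, ⟨q3, w3, e3⟩, ⟨q4, w4, e4⟩, ⟨q5, w5, e5⟩, ⟨q6, w6, e6⟩, ⟨q7, w7, e7⟩, ⟨q8, w8, e8⟩] 0 := rfl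

/-- the product of the sum of the loop with the weights, without the lower digits -/
def prd (W K PM M REP FULL LANE D : ℕ) (ws : List ℕ) (n C : ℕ) (l : List Ty) : ℕ :=
  Nat.shiftRight (Nat.mul (loopL W PM M REP ((List.range' 0 l.length).map (nm FULL LANE D)) (l.map Ty.q) ws
    (l.map fun t => E0 W K (wx t.w)) (nat_lit 0)) C) (Nat.mul W n)

lemma row1_eq (W K PM M REP FULL LANE D : ℕ) (ws : List ℕ) (n C V5 L tot mk : ℕ) (q1 : ℕ → ℕ → ℕ → ℕ)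
    (w1 e1 : ℕ) :
    row1 W K PM M REP FULL LANE D ws n C V5 L tot mk q1 w1 e1
      = tyS D V5 L tot mk (prd W K PM M REP FULL LANE D ws n C [⟨q1, w1, e1⟩]) [⟨q1, w1, e1⟩] 0 := by
  unfold row1
  rw [loop1_eq, fin1_eq D V5 L tot mk w1 e1 _ q1]
  rfl

lemma row2_eq (W K PM M REP FULL LANE D : ℕ) (ws : List ℕ) (n C V5 L tot mk : ℕ) (q1 q2 : ℕ → ℕ → ℕ → ℕ)
    (w1 w2 e1 e2 : ℕ) :
    row2 W K PM M REP FULL LANE D ws n C V5 L tot mk q1 q2 w1 w2 e1 e2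
      = tyS D V5 L tot mk (prd W K PM M REP FULL LANE D ws n C [⟨q1, w1, e1⟩, ⟨q2, w2, e2⟩]) [⟨q1, w1, e1⟩, ⟨q2, w2, e2⟩] 0 := by
  unfold row2
  rw [loop2_eq, fin2_eq D V5 L tot mk w1 w2 e1 e2 _ q1 q2]
  rfl

lemma row3_eq (W K PM M REP FULL LANE D : ℕ) (ws : List ℕ) (n C V5 L tot mk : ℕ) (q1 q2 q3 : ℕ → ℕ → ℕ → ℕ)
    (w1 w2 w3 e1 e2 e3 : ℕ) :
    row3 W K PM M REP FULL LANE D ws n C V5 L tot mk q1 q2 q3 w1 w2 w3 e1 e2 e3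
      = tyS D V5 L tot mk (prd W K PM M REP FULL LANE D ws n C [⟨q1, w1, e1⟩, ⟨q2, w2, e2⟩, ⟨q3, w3, e3⟩]) [⟨q1, w1, e1⟩, ⟨q2, w2, e2⟩, ⟨q3, w3, e3⟩] 0 := by
  unfold row3
  rw [loop3_eq, fin3_eq D V5 L tot mk w1 w2 w3 e1 e2 e3 _ q1 q2 q3]
  rfl

lemma row4_eq (W K PM M REP FULL LANE D : ℕ) (ws : List ℕ) (n C V5 L tot mk : ℕ) (q1 q2 q3 q4 : ℕ → ℕ → ℕ → ℕ)
    (w1 w2 w3 w4 e1 e2 e3 e4 : ℕ) :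
    row4 W K PM M REP FULL LANE D ws n C V5 L tot mk q1 q2 q3 q4 w1 w2 w3 w4 e1 e2 e3 e4
      = tyS D V5 L tot mk (prd W K PM M REP FULL LANE D ws n C [⟨q1, w1, e1⟩, ⟨q2, w2, e2⟩, ⟨q3, w3, e3⟩, ⟨q4, w4, e4⟩]) [⟨q1, w1, e1⟩, ⟨q2, w2, e2⟩, ⟨q3, w3, e3⟩, ⟨q4, w4, e4⟩] 0 := by
  unfold row4
  rw [loop4_eq, fin4_eq D V5 L tot mk w1 w2 w3 w4 e1 e2 e3 e4 _ q1 q2 q3 q4]
  rfl

lemma row5_eq (W K PM M REP FULL LANE D : ℕ) (ws : List ℕ) (n C V5 L tot mk : ℕ) (q1 q2 q3 q4 q5 : ℕ → ℕ → ℕ → ℕ)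
    (w1 w2 w3 w4 w5 e1 e2 e3 e4 e5 : ℕ) :
    row5 W K PM M REP FULL LANE D ws n C V5 L tot mk q1 q2 q3 q4 q5 w1 w2 w3 w4 w5 e1 e2 e3 e4 e5
      = tyS D V5 L tot mk (prd W K PM M REP FULL LANE D ws n C [⟨q1, w1, e1⟩, ⟨q2, w2, e2⟩, ⟨q3, w3, e3⟩, ⟨q4, w4, e4⟩, ⟨q5, w5, e5⟩]) [⟨q1, w1, e1⟩, ⟨q2, w2, e2⟩, ⟨q3, w3, e3⟩, ⟨q4, w4, e4⟩, ⟨q5, w5, e5⟩] 0 := by
  unfold row5
  rw [loop5_eq, fin5_eq D V5 L tot mk w1 w2 w3 w4 w5 e1 e2 e3 e4 e5 _ q1 q2 q3 q4 q5]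
  rfl

lemma row6_eq (W K PM M REP FULL LANE D : ℕ) (ws : List ℕ) (n C V5 L tot mk : ℕ) (q1 q2 q3 q4 q5 q6 : ℕ → ℕ → ℕ → ℕ)
    (w1 w2 w3 w4 w5 w6 e1 e2 e3 e4 e5 e6 : ℕ) :
    row6 W K PM M REP FULL LANE D ws n C V5 L tot mk q1 q2 q3 q4 q5 q6 w1 w2 w3 w4 w5 w6 e1 e2 e3 e4 e5 e6
      = tyS D V5 L tot mk (prd W K PM M REP FULL LANE D ws n C [⟨q1, w1, e1⟩, ⟨q2, w2, e2⟩, ⟨q3, w3, e3⟩, ⟨q4, w4, e4⟩, ⟨q5, w5, e5⟩, ⟨q6, w6, e6⟩]) [⟨q1, w1, e1⟩, ⟨q2, w2, e2⟩, ⟨q3, w3, e3⟩, ⟨q4, w4, e4⟩, ⟨q5, w5, e5⟩, ⟨q6, w6, e6⟩] 0 := by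
  unfold row6
  rw [loop6_eq, fin6_eq D V5 L tot mk w1 w2 w3 w4 w5 w6 e1 e2 e3 e4 e5 e6 _ q1 q2 q3 q4 q5 q6]
  rfl

lemma row7_eq (W K PM M REP FULL LANE D : ℕ) (ws : List ℕ) (n C V5 L tot mk : ℕ) (q1 q2 q3 q4 q5 q6 q7 : ℕ → ℕ → ℕ → ℕ)
    (w1 w2 w3 w4 w5 w6 w7 e1 e2 e3 e4 e5 e6 e7 : ℕ) :
    row7 W K PM M REP FULL LANE D ws n C V5 L tot mk q1 q2 q3 q4 q5 q6 q7 w1 w2 w3 w4 w5 w6 w7 e1 e2 e3 e4 e5 e6 e7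
      = tyS D V5 L tot mk (prd W K PM M REP FULL LANE D ws n C [⟨q1, w1, e1⟩, ⟨q2, w2, e2⟩, ⟨q3, w3, e3⟩, ⟨q4, w4, e4⟩, ⟨q5, w5, e5⟩, ⟨q6, w6, e6⟩, ⟨q7, w7, e7⟩]) [⟨q1, w1, e1⟩, ⟨q2, w2, e2⟩, ⟨q3, w3, e3⟩, ⟨q4, w4, e4⟩, ⟨q5, w5, e5⟩, ⟨q6, w6, e6⟩, ⟨q7, w7, e7⟩] 0 := by
  unfold row7
  rw [loop7_eq, fin7_eq D V5 L tot mk w1 w2 w3 w4 w5 w6 w7 e1 e2 e3 e4 e5 e6 e7 _ q1 q2 q3 q4 q5 q6 q7]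
  rfl

lemma row8_eq (W K PM M REP FULL LANE D : ℕ) (ws : List ℕ) (n C V5 L tot mk : ℕ) (q1 q2 q3 q4 q5 q6 q7 q8 : ℕ → ℕ → ℕ → ℕ)
    (w1 w2 w3 w4 w5 w6 w7 w8 e1 e2 e3 e4 e5 e6 e7 e8 : ℕ) :
    row8 W K PM M REP FULL LANE D ws n C V5 L tot mk q1 q2 q3 q4 q5 q6 q7 q8 w1 w2 w3 w4 w5 w6 w7 w8 e1 e2 e3 e4 e5 e6 e7 e8
      = tyS D V5 L tot mk (prd W K PM M REP FULL LANE D ws n C [⟨q1, w1, e1⟩, ⟨q2, w2, e2⟩, ⟨q3, w3, e3⟩, ⟨q4, w4, e4⟩, ⟨q5, w5, e5⟩, ⟨q6, w6, e6⟩, ⟨q7, w7, e7⟩, ⟨q8, w8, e8⟩]) [⟨q1, w1, e1⟩, ⟨q2, w2, e2⟩, ⟨q3, w3, e3⟩, ⟨q4, w4, e4⟩, ⟨q5, w5, e5⟩, ⟨q6, w6, e6⟩, ⟨q7, w7, e7⟩, ⟨q8, w8, e8⟩] 0 := by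
  unfold row8
  rw [loop8_eq, fin8_eq D V5 L tot mk w1 w2 w3 w4 w5 w6 w7 w8 e1 e2 e3 e4 e5 e6 e7 e8 _ q1 q2 q3 q4 q5 q6 q7 q8]
  rfl

theorem dis_eq (W K PM M REP FULL LANE D : ℕ) (ws : List ℕ) (n C V5 L tot mk : ℕ) (l : List Ty)
    (h : dis0 W K PM M REP FULL LANE D ws n C V5 L tot mk l = 0) :
    1 ≤ l.length ∧ l.length ≤ 8 ∧ tyS D V5 L tot mk (prd W K PM M REP FULL LANE D ws n C l) l 0 = 0 := by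
  rcases l with _ | ⟨⟨q1, w1, e1⟩, l⟩
  · exact absurd h (by show ¬ (1 : ℕ) = 0; norm_num)
  rcases l with _ | ⟨⟨q2, w2, e2⟩, l⟩
  · have h' : row1 W K PM M REP FULL LANE D ws n C V5 L tot mk q1 w1 e1 = 0 := h
    rw [row1_eq] at h'
    exact ⟨by simp, by simp, h'⟩
  rcases l with _ | ⟨⟨q3, w3, e3⟩, l⟩
  · have h' : row2 W K PM M REP FULL LANE D ws n C V5 L tot mk q1 q2 w1 w2 e1 e2 = 0 := h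
    rw [row2_eq] at h'
    exact ⟨by simp, by simp, h'⟩
  rcases l with _ | ⟨⟨q4, w4, e4⟩, l⟩
  · have h' : row3 W K PM M REP FULL LANE D ws n C V5 L tot mk q1 q2 q3 w1 w2 w3 e1 e2 e3 = 0 := h
    rw [row3_eq] at h'
    exact ⟨by simp, by simp, h'⟩
  rcases l with _ | ⟨⟨q5, w5, e5⟩, l⟩
  · have h' : row4 W K PM M REP FULL LANE D ws n C V5 L tot mk q1 q2 q3 q4 w1 w2 w3 w4 e1 e2 e3 e4 = 0 := h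
    rw [row4_eq] at h'
    exact ⟨by simp, by simp, h'⟩
  rcases l with _ | ⟨⟨q6, w6, e6⟩, l⟩
  · have h' : row5 W K PM M REP FULL LANE D ws n C V5 L tot mk q1 q2 q3 q4 q5 w1 w2 w3 w4 w5 e1 e2 e3 e4 e5 = 0 := h
    rw [row5_eq] at h'
    exact ⟨by simp, by simp, h'⟩
  rcases l with _ | ⟨⟨q7, w7, e7⟩, l⟩
  · have h' : row6 W K PM M REP FULL LANE D ws n C V5 L tot mk q1 q2 q3 q4 q5 q6 w1 w2 w3 w4 w5 w6 e1 e2 e3 e4 e5 e6 = 0 := h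
    rw [row6_eq] at h'
    exact ⟨by simp, by simp, h'⟩
  rcases l with _ | ⟨⟨q8, w8, e8⟩, l⟩
  · have h' : row7 W K PM M REP FULL LANE D ws n C V5 L tot mk q1 q2 q3 q4 q5 q6 q7 w1 w2 w3 w4 w5 w6 w7 e1 e2 e3 e4 e5 e6 e7 = 0 := h
    rw [row7_eq] at h'
    exact ⟨by simp, by simp, h'⟩
  rcases l with _ | ⟨⟨q9, w9, e9⟩, l⟩
  · have h' : row8 W K PM M REP FULL LANE D ws n C V5 L tot mk q1 q2 q3 q4 q5 q6 q7 q8 w1 w2 w3 w4 w5 w6 w7 w8 e1 e2 e3 e4 e5 e6 e7 e8 = 0 := h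
    rw [row8_eq] at h'
    exact ⟨by simp, by simp, h'⟩
  · exact absurd h (by show ¬ (1 : ℕ) = 0; norm_num)

end RE
end Pool.Agent.Lib.MP_6947cd_al
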