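import Pool.Agent.Lib.MP_6947cd_al.L.ReP

/-!
Problem MP_6947cd_al (Chollet).  Row certificates `rowE`: statements of the analytic lemmas.
-/

set_option autoImplicit false
open Finset

namespace Pool.Agent.Lib.MP_6947cd_al
namespace RE

open Ent Ent.Pk

/-- the weight number `i`, times `2 ^ 31` -/
def uN (i : ℕ) : ℕ := [3901188924, 1760361865, 2187916569, 2144987890, 2147578948].getD i 2147483648

/-- the weight number `i` -/
noncomputable def uR (i : ℕ) : ℝ := (uN i : ℝ) / 2 ^ 31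

/-- (S1) THE LOGARITHM BY EXPONENTIALS.
Proof plan.  `h = log 2`, `L N s = ∑ i ∈ range N, (1 - exp (- s / 2 ^ (i + 1)))`, `U M s = ∑ i ∈ range M, exp (- 2 ^ i s)`.
(A) For `1 ≤ t ≤ 2`, `N ≥ 30`, all `M`: `log t ≤ h * (L N t - U M t) - 0.23064097`.
 `L N ≥ L 30` (terms nonnegative), `U M t ≤ U 5 t + 2 * exp (-32)` (for `i ≥ 5`, `t ≥ 1`: `exp (- 2 ^ i t) ≤ exp (-32) / 2 ^ (i - 5)`).
 The true minimum of `h * (L ∞ - U ∞) - log` on `[1, 2]` is `0.2306409842`; slack `1.4e-8`.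
 `g t = h * (L 30 t - U 5 t) - log t - t ^ 2 / 2` is CONCAVE on `[1, 2]` (`1 - exp (-c t)`, `- exp (-c t)` concave,
 `- log t - t ^ 2 / 2` concave because the second derivative is `1 / t ^ 2 - 1 ≤ 0`), hence on a grid interval `[a, b]` with
 `b - a = 1 / 4096`: `g + t ^ 2 / 2 ≥ min (..a) (..b) - (1 / 4096) ^ 2 / 8` (`7.5e-9`).  Grid values (4097 points, one kernel
 check by `decide +kernel`, split in parts): upper bounds of `exp (- t 2 ^ j)`, `j = -30 .. 4`, `t = n / 4096`, by repeated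
 squaring with 100 binary places and rounding up: start `exp (-v) ≤ 1 - v + v ^ 2 / 2` with `v = t / 2 ^ 30`, then
 `e := e * e / 2 ^ 100 + 1`; upper bound of `log t` by `Ent.Pk.lgU` (`lgU_ge` in T/LogTab: `10 ^ 12 * log (n / 4096) ≤ lgU n`
 for `65536 ≤ n < 2 ^ 26`) at `n = t * 2 ^ 24`, minus `12 log 2`, `0.6931471803 < log 2 < 0.6931471808`.
(B) For `0 ≤ s ≤ 1 / 2` and all `N`: `L N s ≤ c1 + b1 s + ∑ j < 5, d j * (1 - exp (- 2 ^ j s))`, `d j = uR j - 1`,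
 `b1 = 524668399482 / 2 ^ 40`, `c1 = 3e-9` (the true maximum of the difference is `1.5e-10`; slack about `2.8e-9`).
 `L N s ≤ G s := ∑ k = 1..7, (-1) ^ (k + 1) s ^ k / (k! * (2 ^ k - 1))`, because with `p u = ∑ k = 1..7, (-1) ^ (k + 1) u ^ k / k!`
 one has `1 - exp (-u) ≤ p u` (`u ≥ 0`), `p (s / 2) = G s - G (s / 2)` (telescoping) and `G ≥ 0` on `[0, 1 / 2]`.
 `f = c1 + b1 s + ∑ d j (1 - exp (- 2 ^ j s)) - G s` satisfies `f'' ≤ 6 / 5`, i.e. `f - (3 / 5) s ^ 2` is concave (the terms with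
 `d j < 0` (`j = 1, 3`) contribute at most `|d j| 4 ^ j`, `0.73 + 0.08`, and `- G'' ≤ 1 / 3`); grid step `2 ^ -14`:
 `f ≥ min - (6 / 5) * 2 ^ -28 / 8` (`5.6e-10`); 8193 grid values, squaring chain from `s / 2 ^ 16` with 100 binary places
 (bounds from above for `j = 0, 2, 4`, from below for `j = 1, 3`).
(C) For `0 < s ≤ 1 / 2` choose `j` with `t = 2 ^ j s ∈ [1, 2]`.  `L (N + j) t = L N s + ∑ i < j, (1 - exp (- 2 ^ i s))`,
 `U M t = ∑ j ≤ i < j + M, exp (- 2 ^ i s)`, `log t = log s + j h`; so (A) gives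
 `log s ≤ h * (L N s - U (j + M) s) - 0.23064097` for `N + j ≥ 30` and all `M`; take `M = R`, drop the terms `i ≥ R`, use (B):
 `c = - 0.23064097 + h * (c1 + ∑ d j)`, `∑ d j = 0.65407527424...` (exact rational), `h * b1 = 0.33075814084`.
Constants may be moved between (A) and (B) as convenient; only the final statement matters. -/
def SpecLE : Prop := ∀ (R : ℕ) (s : ℝ), 0 < s → s ≤ 1 / 2 →
  Real.log s ≤ 222729470000 / 10 ^ 12 + 330758141300 / 10 ^ 12 * s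
    - Real.log 2 * ∑ i ∈ range R, uR i * Real.exp (-(2 ^ i * s))

/-- (S2a) the exponential: `1 - v + v ^ 2 / 2 - v ^ 3 / 6 + v ^ 4 / 24 - v ^ 5 / 120 ≤ exp (-v)` for `v = X / 2 ^ 29`, times
`2 ^ W`, then two squarings (`sq W r ≤ r ^ 2 / 2 ^ W`); all the subtractions are exact since `X ≤ 2 ^ 26` -/
def SpecE0 : Prop := ∀ W X : ℕ, W ≤ 145 → X ≤ 2 ^ 26 →
  ((E0 W (Nat.shiftLeft (nat_lit 120) (Nat.sub (nat_lit 145) W)) X : ℕ) : ℝ)
    ≤ 2 ^ W * Real.exp (-((X : ℝ) / 2 ^ 27))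

/-- (S2b) `wx w = (512 + i) 2 ^ l + lo`: `- log (X / 2 ^ 27) = (18 - l) log 2 - log ((512 + i) / 512) - log (1 + d)`,
`log (1 + d) ≥ d - d ^ 2 / 2` for all `d ≥ 0`, `log 2 < 0.6931471808`; table `LQ` (40 bits per entry, `i < 512`): entry 0 is 0
and entry `i + 1` is at most entry `i` plus `2 * 10 ^ 12 * (1 / w + 1 / (3 w ^ 3))` rounded down, `w = 2 (512 + i) + 1`,
(`log ((w + 1) / (w - 1)) ≥ 2 (1 / w + 1 / (3 w ^ 3))`), to be checked by one kernel loop.  No hypothesis on `w` is needed: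
for `l > 18` the left side is negative. -/
def SpecLgN : Prop := ∀ w : ℕ, -(10 ^ 12 * Real.log ((wx w : ℝ) / 2 ^ 27)) ≤ (lgN w : ℝ)

/-- (S2c) `X = q 2 ^ 40 / p` rounded down (at least `2 ^ 40`), `log2 X - 9 = l ≥ 31`, `i = X / 2 ^ l ∈ [512, 1024)` -/
def SpecNle : Prop := ∀ p q : ℕ, 1 ≤ p → p ≤ q → (nle p q : ℝ) ≤ 10 ^ 12 * Real.log ((q : ℝ) / p)

/-- product of powers -/
noncomputable def prE : List ℕ → List ℝ → ℝ
  | c :: cs, r :: rs => r ^ c * prE cs rs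
  | _, _ => 1

/-- the generating polynomial -/
noncomputable def gp : List ℕ → List ℝ → Polynomial ℝ
  | m :: ms, r :: rs => (1 + Polynomial.C r * Polynomial.X) ^ m * gp ms rs
  | _, _ => 1

/-- (S3) THE EXPECTATION (from (S1)).
Proof plan: `bx_SF` (L/PtP): `bx 0 0 (m'.zip x) A = SF m' fun c => Bq (0 + c.sum) (0 + (m'.sum - c.sum)) * log (A + dotR c x)`
(`SF m f = ∑ c ≤ m, ∏ binomials * f c`), `m' = decN a m`, `m'.sum = m.sum - 1`.  With `s = κ (A + dotR c x) ∈ (0, 1 / 2]`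
(`dotR c x ≤ dotR m' x`, `A + dotR m' x = dotR m x`) (S1) gives `log (A + dotR c x) ≤ c0 - log κ + b0 s - log 2 * ∑ uR i exp (- 2 ^ i s)`,
`exp (- 2 ^ i s) = exp (- 2 ^ i κ A) * prE c (x.map fun y => exp (- 2 ^ i κ y))`.  Sums (all by induction on the list of types):
`SF m' (fun c => Bq c.sum (m'.sum - c.sum)) = 1`; `SF m' (fun c => Bq c.sum (m'.sum - c.sum) * dotR c x) = dotR m' x / 2`
(symmetry `c ↦ m' - c`, or `Bq k l = ∫ u ^ k (1 - u) ^ l`); `SF m' (fun c => g c.sum * prE c r) = ∑ k ≤ m'.sum, g k * (gp m' r).coeff k`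
for every `g`. -/
def SpecEX : Prop := ∀ (m : List ℕ) (x : List ℝ) (κ : ℝ) (a R : ℕ), x.length = m.length → (∀ y ∈ x, 0 < y) → 0 < κ →
  0 < m.getD a 0 → κ * dotR m x ≤ 1 / 2 →
  bx 0 0 ((decN a m).zip x) (x.getD a 0) ≤ 222729470000 / 10 ^ 12 - Real.log κ
    + 330758141300 / 10 ^ 12 * (κ * (x.getD a 0 + dotR m x) / 2)
    - Real.log 2 * ∑ i ∈ range R, uR i * ∑ k ∈ range m.sum, (Bq k (m.sum - 1 - k) : ℝ) *
      (Real.exp (-(2 ^ i * (κ * x.getD a 0)))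
        * (gp (decN a m) (x.map fun y => Real.exp (-(2 ^ i * (κ * y))))).coeff k)

end RE
end Pool.Agent.Lib.MP_6947cd_al
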