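import Pool.Agent.Lib.MP_6947cd_al.L.ReM
import Pool.Agent.Lib.MP_6947cd_al.L.ReSpec

/-!
Problem MP_6947cd_al (Chollet).  Row certificates `rowE`: the digits of the product are the expectations.
-/

set_option autoImplicit false
open Finset

namespace Pool.Agent.Lib.MP_6947cd_al
namespace RE

open Polynomial Ent Ent.Pk

lemma cg_choose {n : ℕ} (hn : n < 41) : ∀ k < n, cg n (k + 1) * (n * (n - 1).choose k) * 2 ^ 31 = cL n := by
  intro k
  induction k with
  | zero =>
    intro h
    have := (tab_ok n hn (by omega)).2.1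
    simpa using this
  | succ k ih =>
    intro h
    have h1 := ih (by omega)
    have h2 := (tab_ok n hn (by omega)).2.2.1 (k + 1) h (by omega)
    have h3 := Nat.choose_succ_right_eq (n - 1) k
    have h4 : n - 1 - k = n - (k + 1) := by omega
    rw [h4] at h3
    have h5 : (cg n (k + 1 + 1) * (n * (n - 1).choose (k + 1)) * 2 ^ 31) * (k + 1) = cL n * (k + 1) := by
      calc (cg n (k + 1 + 1) * (n * (n - 1).choose (k + 1)) * 2 ^ 31) * (k + 1)
          = cg n (k + 1 + 1) * n * ((n - 1).choose (k + 1) * (k + 1)) * 2 ^ 31 := by ring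
        _ = (cg n (k + 1 + 1) * (n - (k + 1))) * n * (n - 1).choose k * 2 ^ 31 := by rw [h3]; ring
        _ = (cg n (k + 1) * (n * (n - 1).choose k) * 2 ^ 31) * (k + 1) := by rw [h2]; ring
        _ = _ := by rw [h1]
    exact Nat.eq_of_mul_eq_mul_right (Nat.succ_pos k) h5

lemma Bq_choose {n k : ℕ} (hk : k < n) : ((Bq k (n - 1 - k) : ℚ) : ℝ) * ((n * (n - 1).choose k : ℕ) : ℝ) = 1 := by
  obtain ⟨n, rfl⟩ : ∃ n', n = n' + 1 := ⟨n - 1, by omega⟩
  rw [Nat.add_sub_cancel]
  have h1 : n.choose k * k.factorial * (n - k).factorial = n.factorial := Nat.choose_mul_factorial_mul_factorial (by omega)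
  have h2 : (k + (n - k) + 1) = n + 1 := by omega
  unfold Bq
  rw [h2, Nat.factorial_succ, ← h1]
  push_cast
  have a1 : (0 : ℝ) < (n.choose k : ℝ) := by exact_mod_cast Nat.choose_pos (by omega)
  have a2 : (0 : ℝ) < (k.factorial : ℝ) := by exact_mod_cast Nat.factorial_pos _
  have a3 : (0 : ℝ) < ((n - k).factorial : ℝ) := by exact_mod_cast Nat.factorial_pos _
  have a4 : (0 : ℝ) < (n : ℝ) + 1 := by positivity
  generalize (n.choose k : ℝ) = c at *
  generalize (k.factorial : ℝ) = x at *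
  generalize ((n - k).factorial : ℝ) = y at *
  field_simp

lemma cg_Bq {n k : ℕ} (hn : n < 41) (hk : k < n) :
    (cg n (k + 1) : ℝ) * 2 ^ 31 = (cL n : ℝ) * ((Bq k (n - 1 - k) : ℚ) : ℝ) := by
  have h1 : (cg n (k + 1) : ℝ) * ((n * (n - 1).choose k : ℕ) : ℝ) * 2 ^ 31 = (cL n : ℝ) := by
    exact_mod_cast cg_choose hn k hk
  have h2 := Bq_choose hk
  rw [← h1]
  calc (cg n (k + 1) : ℝ) * 2 ^ 31 = (cg n (k + 1) : ℝ) * 2 ^ 31 * 1 := (mul_one _).symm
    _ = (cg n (k + 1) : ℝ) * 2 ^ 31 * (((Bq k (n - 1 - k) : ℚ) : ℝ) * ((n * (n - 1).choose k : ℕ) : ℝ)) := by rw [h2]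
    _ = _ := by ring

/-! ### the polynomial of a lane -/

lemma decN_sum (m : List ℕ) : ∀ a, 1 ≤ m.getD a 0 → (decN a m).sum + 1 = m.sum := by
  induction m with
  | nil => intro a h; simp at h
  | cons x m ih =>
    intro a h
    cases a with
    | zero =>
      simp only [List.getD_cons_zero] at h
      simp only [decN, List.sum_cons]
      omega
    | succ a =>
      simp only [List.getD_cons_succ] at h
      have := ih a h
      simp only [decN, List.sum_cons]
      omega

lemma lpol_zero (m : List ℕ) : ∀ (gs : List ℕ) (ρs : List ℝ) (a : ℕ), (lpol m gs ρs a).coeff 0 = 0 := by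
  intro gs
  induction gs with
  | nil => intro ρs a; show (0 : ℝ[X]).coeff 0 = 0; simp
  | cons g gs ih =>
    intro ρs a
    show (C ((g : ℝ) / 2 ^ 32) * (C (ρs.getD a 0) * X * gp (decN a m) ρs) + lpol m gs (ρs.map (· ^ 2)) a).coeff 0 = 0
    rw [coeff_add, ih, coeff_C_mul, coeff_mark]
    simp

lemma lpol_coeff (m : List ℕ) : ∀ (gs : List ℕ) (ρs : List ℝ) (a k : ℕ), (lpol m gs ρs a).coeff (k + 1)
    = ∑ i ∈ range gs.length, ((gs.getD i 0 : ℕ) : ℝ) / 2 ^ 32 *
      (ρs.getD a 0 ^ 2 ^ i * (gp (decN a m) (ρs.map (· ^ 2 ^ i))).coeff k) := by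
  intro gs
  induction gs with
  | nil => intro ρs a k; show (0 : ℝ[X]).coeff (k + 1) = _; simp
  | cons g gs ih =>
    intro ρs a k
    show (C ((g : ℝ) / 2 ^ 32) * (C (ρs.getD a 0) * X * gp (decN a m) ρs) + lpol m gs (ρs.map (· ^ 2)) a).coeff (k + 1) = _
    rw [coeff_add, ih, coeff_C_mul, coeff_mark, if_neg (Nat.succ_ne_zero k), Nat.add_sub_cancel, List.length_cons,
      sum_range_succ', add_comm]
    congr 1
    · refine sum_congr rfl fun i _ => ?_
      rw [List.getD_cons_succ]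
      congr 1
      have e1 : (ρs.map (· ^ 2)).getD a 0 ^ 2 ^ i = ρs.getD a 0 ^ 2 ^ (i + 1) := by
        have : (ρs.map (· ^ 2)).getD a 0 = (ρs.getD a 0) ^ 2 := by
          by_cases h : a < ρs.length
          · rw [List.getD_eq_getElem _ _ (by simpa using h), List.getD_eq_getElem _ _ h, List.getElem_map]
          · rw [List.getD_eq_default _ _ (by simpa using h), List.getD_eq_default _ _ (by omega)]
            simp
        rw [this, ← pow_mul, pow_succ 2 i, mul_comm (2 ^ i) 2]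
      have e2 : (ρs.map (· ^ 2)).map (· ^ 2 ^ i) = ρs.map (· ^ 2 ^ (i + 1)) := by
        rw [List.map_map]
        refine List.map_congr_left fun x _ => ?_
        show (x ^ 2) ^ 2 ^ i = x ^ 2 ^ (i + 1)
        rw [← pow_mul, pow_succ 2 i, mul_comm (2 ^ i) 2]
      rw [e1, e2]
    · simp

lemma lpol_le (m : List ℕ) {n : ℕ} (a : ℕ) (ha : 1 ≤ m.getD a 0) (hn : m.sum = n) : ∀ (gs : List ℕ) (ρs : List ℝ),
    (∀ g ∈ gs, g ≤ 2 ^ 32) → (∀ ρ ∈ ρs, 0 ≤ ρ ∧ ρ ≤ 1) → ∀ k, (lpol m gs ρs a).coeff k ≤ gs.length * 2 ^ n := by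
  intro gs
  induction gs with
  | nil => intro ρs _ _ k; show (0 : ℝ[X]).coeff k ≤ _; simp
  | cons g gs ih =>
    intro ρs hg hρ k
    have h1 := ih (ρs.map (· ^ 2)) (fun x hx => hg x (by simp [hx])) (by
      intro x hx
      obtain ⟨y, hy, rfl⟩ := List.mem_map.mp hx
      obtain ⟨h3, h4⟩ := hρ y hy
      exact ⟨by positivity, by nlinarith⟩) k
    have hρa : 0 ≤ ρs.getD a 0 ∧ ρs.getD a 0 ≤ 1 := by
      by_cases h : a < ρs.length
      · rw [List.getD_eq_getElem _ _ h]
        exact hρ _ (List.getElem_mem h)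
      · rw [List.getD_eq_default _ _ (by omega)]
        exact ⟨le_rfl, zero_le_one⟩
    have hg1 : (g : ℝ) / 2 ^ 32 ≤ 1 := by
      have h1 : (g : ℝ) ≤ ((2 ^ 32 : ℕ) : ℝ) := by exact_mod_cast hg g (by simp)
      rw [div_le_one (by positivity)]
      exact h1.trans (le_of_eq (by push_cast; norm_num))
    have hg0 : (0 : ℝ) ≤ (g : ℝ) / 2 ^ 32 := by positivity
    have hD := (Dom.const hg0 hg1).mul ((Dom.mark hρa.1 hρa.2).mul (gp_dom (decN a m) ρs hρ))
    have h2 := hD.le_two k
    rw [show 0 + (1 + (decN a m).sum) = n by have := decN_sum m a ha; omega] at h2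
    show (C ((g : ℝ) / 2 ^ 32) * (C (ρs.getD a 0) * X * gp (decN a m) ρs) + lpol m gs (ρs.map (· ^ 2)) a).coeff k ≤ _
    rw [coeff_add, List.length_cons]
    push_cast
    linarith

/-! ### the digits of the product -/

lemma cv_lane {f g : ℕ → ℕ} {n T a : ℕ} (ha : a < T) :
    cv f g (T * (n + 1)) n (n + (n + 1) * a) = ∑ k ∈ range n, f (a * (n + 1) + (k + 1)) * g (n - (k + 1)) := by
  unfold cv
  rw [← sum_filter]
  have hT : (n + 1) * a + (n + 1) ≤ T * (n + 1) := by nlinarith
  refine sum_nbij' (fun i => i - ((n + 1) * a + 1)) (fun k => a * (n + 1) + (k + 1)) ?_ ?_ ?_ ?_ ?_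
  · intro i hi
    rw [mem_filter, mem_range] at hi
    rw [mem_range]
    omega
  · intro k hk
    rw [mem_range] at hk
    rw [mem_filter, mem_range]
    have : a * (n + 1) = (n + 1) * a := by ring
    omega
  · intro i hi
    rw [mem_filter, mem_range] at hi
    have : a * (n + 1) = (n + 1) * a := by ring
    beta_reduce
    omega
  · intro k hk
    have : a * (n + 1) = (n + 1) * a := by ring
    beta_reduce
    omega
  · intro i hi
    rw [mem_filter, mem_range] at hi
    have : a * (n + 1) = (n + 1) * a := by ring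
    beta_reduce
    rw [show a * (n + 1) + (i - ((n + 1) * a + 1) + 1) = i by omega,
      show n - (i - ((n + 1) * a + 1) + 1) = n + (n + 1) * a - i by omega]

lemma cv_le {f g : ℕ → ℕ} {K L A B : ℕ} (hf : ∀ j < K, f j ≤ A) (hg : ∀ j < L, g j ≤ B) (j : ℕ) :
    cv f g K L j ≤ L * (A * B) := by
  unfold cv
  rw [← sum_filter]
  calc ∑ i ∈ (range K).filter (fun i => i ≤ j ∧ j - i < L), f i * g (j - i)
      ≤ ∑ i ∈ (range K).filter (fun i => i ≤ j ∧ j - i < L), A * B := by
        refine sum_le_sum fun i hi => ?_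
        rw [mem_filter, mem_range] at hi
        exact Nat.mul_le_mul (hf i hi.1) (hg _ hi.2.2)
    _ = ((range K).filter (fun i => i ≤ j ∧ j - i < L)).card * (A * B) := by rw [sum_const, smul_eq_mul]
    _ ≤ L * (A * B) := by
        refine Nat.mul_le_mul_right _ ?_
        have : (range K).filter (fun i => i ≤ j ∧ j - i < L) ⊆ Ico (j + 1 - L) (j + 1) := by
          intro i hi
          rw [mem_filter, mem_range] at hi
          rw [mem_Ico]
          omega
        refine (card_le_card this).trans ?_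
        rw [Nat.card_Ico]
        omega

/-- THE DIGIT OF A LANE -/
theorem digit_ok {n T R : ℕ} {f : ℕ → ℕ} (hn : n < 41) (hn1 : 1 ≤ n) (hR : R ≤ 32)
    (hf : ∀ j < T * (n + 1), f j ≤ R * 2 ^ (32 + n)) {a : ℕ} (ha : a < T) :
    Nat.land (Nat.shiftRight (Nat.shiftRight (Nat.mul (pk (cW n) f (T * (n + 1))) (cC n)) (Nat.mul (cW n) n))
      (Nat.mul (Nat.mul (cW n) (Nat.succ n)) a)) (ons (cW n))
      = ∑ k ∈ range n, f (a * (n + 1) + (k + 1)) * cg n (k + 1) := by
  obtain ⟨h1, -, -, h4, -, h6, -⟩ := tab_ok n hn hn1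
  set W := cW n with hW
  have e1 : cC n = pk W (fun i => cC n / 2 ^ (W * i) % 2 ^ W) n := by
    rw [pk_digits, Nat.mod_eq_of_lt h1]
  have hg : ∀ i < n, cC n / 2 ^ (W * i) % 2 ^ W = cg n (n - i) := by
    intro i hi
    unfold cg
    rw [← hW, show n - (n - i) = i by omega]
  have e2 : Nat.land (Nat.shiftRight (Nat.shiftRight (Nat.mul (pk W f (T * (n + 1))) (cC n)) (Nat.mul W n))
      (Nat.mul (Nat.mul W (Nat.succ n)) a)) (ons W)
      = (pk W f (T * (n + 1)) * cC n) >>> (W * n) >>> (W * (n + 1) * a) &&& ons W := rfl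
  rw [e2, ← Nat.shiftRight_add, show W * n + W * (n + 1) * a = W * (n + (n + 1) * a) by ring, ons_eq]
  conv_lhs => rw [e1]
  rw [pk_prod, pk_digit, cv_lane ha]
  · refine sum_congr rfl fun k hk => ?_
    rw [mem_range] at hk
    rw [hg _ (by omega), show n - (n - (k + 1)) = k + 1 by omega]
  · intro j _
    have h7 := cv_le (L := n) (B := 2 ^ (W - 43 - n)) hf (g := fun i => cC n / 2 ^ (W * i) % 2 ^ W) (fun i hi => by
      beta_reduce
      rw [hg i hi]
      exact h4 _ (by omega) (by omega)) j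
    refine lt_of_le_of_lt h7 ?_
    calc n * (R * 2 ^ (32 + n) * 2 ^ (W - 43 - n)) ≤ 40 * (32 * 2 ^ (32 + n) * 2 ^ (W - 43 - n)) := by
          refine Nat.mul_le_mul (by omega) (Nat.mul_le_mul_right _ (Nat.mul_le_mul_right _ hR))
      _ < 2 ^ 6 * (2 ^ 5 * 2 ^ (32 + n) * 2 ^ (W - 43 - n)) := by
          refine Nat.mul_lt_mul_of_pos_right (by norm_num) (by positivity)
      _ = 2 ^ W := by
          rw [← pow_add, ← pow_add, ← pow_add]
          congr 1
          omega
  · have : (n + 1) * a + (n + 1) ≤ T * (n + 1) := by nlinarith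
    omega

end RE
end Pool.Agent.Lib.MP_6947cd_al
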