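import Pool.Agent.Lib.MP_6947cd_al.L.ReU
import Pool.Agent.Lib.MP_6947cd_al.L.ReQ

/-!
Problem MP_6947cd_al (Chollet).  Row certificates `rowE`: the lanes give the sums of the expectations.
-/

set_option autoImplicit false
open Finset

namespace Pool.Agent.Lib.MP_6947cd_al
namespace RE

open Polynomial Ent Ent.Pk

/-- the sum over the exponentials of the type `a` -/
noncomputable def expS (n R : ℕ) (m : List ℕ) (x : List ℝ) (κ : ℝ) (a : ℕ) : ℝ :=
  ∑ i ∈ range R, uR i * ∑ k ∈ range n, (Bq k (n - 1 - k) : ℝ) *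
    (Real.exp (-(2 ^ i * (κ * x.getD a 0))) * (gp (decN a m) (x.map fun y => Real.exp (-(2 ^ i * (κ * y))))).coeff k)

/-- the words of the types -/
noncomputable def xsW (l : List Ty) : List ℝ := l.map fun t => (wx t.w : ℝ)

theorem lane_ok (hE : SpecE0) {n R : ℕ} {m : List ℕ} {l : List Ty} (hm : ∀ x ∈ m, 1 ≤ x) (hT : m.length = l.length)
    (hT1 : 1 ≤ l.length) (hn : m.sum = n) (hn40 : n ≤ 40) (hR : R ≤ 32) (hwx : ∀ t ∈ l, 0 < wx t.w ∧ wx t.w ≤ 2 ^ 26)
    (hq : List.Forall₂ QA (m.map (· - 1)) (l.map Ty.q)) {a : ℕ} (ha : a < l.length) :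
    ((Nat.land (Nat.shiftRight (prd (cW n) (Nat.shiftLeft (nat_lit 120) (Nat.sub (nat_lit 145) (cW n)))
      (Nat.shiftLeft (nat_lit 4294967295) (Nat.sub (cW n) (nat_lit 32)))
      (mkM (cW n) (ons (Nat.mul (Nat.mul (cW n) (Nat.succ n)) l.length)))
      (Nat.div (ons (Nat.mul (Nat.mul (cW n) (Nat.succ n)) l.length)) (ons (Nat.mul (cW n) (Nat.succ n))))
      (ons (Nat.mul (Nat.mul (cW n) (Nat.succ n)) l.length)) (ons (Nat.mul (cW n) (Nat.succ n)))
      (Nat.mul (cW n) (Nat.succ n)) (wl R) n (cC n) l)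
      (Nat.mul (Nat.mul (cW n) (Nat.succ n)) a)) (ons (cW n)) : ℕ) : ℝ)
      ≤ (cL n : ℝ) * expS n R m (xsW l) (1 / 2 ^ 27) a := by
  have hn1 : 1 ≤ n := by
    have : m.length ≤ m.sum := by
      clear hT hn hq
      induction m with
      | nil => simp
      | cons x m ih =>
        have h1 := hm x (by simp)
        have h2 := ih fun y hy => hm y (by simp [hy])
        simp only [List.sum_cons, List.length_cons]
        omega
    omega
  obtain ⟨-, -, -, -, -, h6, h7⟩ := tab_ok n (by omega) hn1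
  obtain ⟨hwl1, hwl2⟩ := wl_ok R (by omega)
  set W := cW n with hW
  set T := l.length with hTdef
  set ρs : List ℝ := (xsW l).map fun y => Real.exp (-(1 / 2 ^ 27 * y)) with hρs
  set rs : List ℕ := l.map fun t => E0 W (Nat.shiftLeft (nat_lit 120) (Nat.sub (nat_lit 145) W)) (wx t.w) with hrs
  have hlρ : ρs.length = T := by simp [hρs, xsW, hTdef]
  have hRB : List.Forall₂ (RB W) ρs rs := by
    rw [List.forall₂_iff_get]
    refine ⟨by simp [hρs, hrs, xsW], fun i h1 h2 => ?_⟩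
    have hi : i < l.length := by simpa [hrs] using h2
    have e1 : ρs.get ⟨i, h1⟩ = Real.exp (-(1 / 2 ^ 27 * (wx l[i].w : ℝ))) := by
      simp [hρs, xsW]
    have e2 : rs.get ⟨i, h2⟩ = E0 W (Nat.shiftLeft (nat_lit 120) (Nat.sub (nat_lit 145) W)) (wx l[i].w) := by
      simp only [hrs, List.get_eq_getElem, List.getElem_map]
    rw [e1, e2]
    have := hE W (wx l[i].w) h7 (hwx _ (List.getElem_mem hi)).2
    unfold RB
    rw [show (1 : ℝ) / 2 ^ 27 * (wx l[i].w : ℝ) = (wx l[i].w : ℝ) / 2 ^ 27 by ring]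
    exact this
  have hρ : ∀ ρ ∈ ρs, 0 ≤ ρ ∧ ρ < 1 := by
    intro ρ h
    obtain ⟨y, hy, rfl⟩ := List.mem_map.mp h
    obtain ⟨t, ht, rfl⟩ := List.mem_map.mp hy
    refine ⟨(Real.exp_pos _).le, ?_⟩
    rw [Real.exp_lt_one_iff]
    have : (0 : ℝ) < (wx t.w : ℝ) := by exact_mod_cast (hwx t ht).1
    have : (0 : ℝ) < 1 / 2 ^ 27 * (wx t.w : ℝ) := by positivity
    linarith
  have hLI0 : LI W (n + 1) T (fun _ => (0 : ℝ[X])) 0 :=
    ⟨fun _ => 0, by simp [pk], fun j _ => by simp⟩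
  have hL := loopL_ok (T := T) h6 hT hT1 hm hn hq (wl R) ρs rs _ 0 hwl2 hlρ hRB hρ hLI0
  obtain ⟨f, hf1, hf2⟩ := hL
  have hma : ∀ c < T, 1 ≤ m.getD c 0 := by
    intro c hc
    rw [List.getD_eq_getElem _ _ (by omega)]
    exact hm _ (List.getElem_mem _)
  have hlen : (wl R).length = R := by rw [hwl1]; simp
  have hfb : ∀ j < T * (n + 1), f j ≤ R * 2 ^ (32 + n) := by
    intro j hj
    have h1 := hf2 j hj
    have hlane : j / (n + 1) < T := by
      rw [Nat.div_lt_iff_lt_mul (by omega)]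
      exact hj
    have h2 := lpol_le m (j / (n + 1)) (hma _ hlane) hn (wl R) ρs hwl2 (fun ρ h => ⟨(hρ ρ h).1, (hρ ρ h).2.le⟩) (j % (n + 1))
    beta_reduce at h1
    rw [zero_add] at h1
    rw [hlen] at h2
    have h3 : (f j : ℝ) ≤ ((R * 2 ^ (32 + n) : ℕ) : ℝ) := by
      refine h1.trans ((mul_le_mul_of_nonneg_left h2 (by positivity)).trans (le_of_eq ?_))
      push_cast
      rw [pow_add]
      ring
    exact_mod_cast h3
  have hdig := digit_ok (T := T) (R := R) (f := f) (by omega) hn1 hR hfb ha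
  have ePM : Nat.shiftLeft (nat_lit 4294967295) (Nat.sub W (nat_lit 32)) = (2 ^ 32 - 1) * 2 ^ (W - 32) :=
    Nat.shiftLeft_eq _ _
  have eM : mkM W (ons (Nat.mul (Nat.mul W (Nat.succ n)) T)) = msk W (T * (n + 1)) := by
    have : Nat.mul (Nat.mul W (Nat.succ n)) T = W * (T * (n + 1)) := by
      show W * (n + 1) * T = _
      ring
    rw [this, mkM_eq (by omega)]
  have eR : Nat.div (ons (Nat.mul (Nat.mul W (Nat.succ n)) T)) (ons (Nat.mul W (Nat.succ n)))
      = pk (W * (n + 1)) (fun _ => 1) T :=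
    rep_eq (Nat.mul_pos (by omega) (Nat.succ_pos n)) T
  have eN : (List.range' 0 T).map (nm (ons (Nat.mul (Nat.mul W (Nat.succ n)) T)) (ons (Nat.mul W (Nat.succ n)))
      (Nat.mul W (Nat.succ n))) = (List.range' 0 T).map (nmk W (n + 1) T) := by
    refine List.map_congr_left fun b hb => ?_
    rw [List.mem_range'_1] at hb
    exact nm_eq (by omega)
  have eP : prd W (Nat.shiftLeft (nat_lit 120) (Nat.sub (nat_lit 145) W))
      (Nat.shiftLeft (nat_lit 4294967295) (Nat.sub W (nat_lit 32)))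
      (mkM W (ons (Nat.mul (Nat.mul W (Nat.succ n)) T)))
      (Nat.div (ons (Nat.mul (Nat.mul W (Nat.succ n)) T)) (ons (Nat.mul W (Nat.succ n))))
      (ons (Nat.mul (Nat.mul W (Nat.succ n)) T)) (ons (Nat.mul W (Nat.succ n)))
      (Nat.mul W (Nat.succ n)) (wl R) n (cC n) l
      = Nat.shiftRight (Nat.mul (pk W f (T * (n + 1))) (cC n)) (Nat.mul W n) := by
    unfold prd
    rw [← hTdef, eN, ePM, eM, eR]
    rw [← hf1]
  rw [eP, hdig]
  push_cast
  -- the bound
  have hterm : ∀ k ∈ range n, (f (a * (n + 1) + (k + 1)) : ℝ) * (cg n (k + 1) : ℝ)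
      ≤ 2 ^ 32 * (lpol m (wl R) ρs a).coeff (k + 1) * (cg n (k + 1) : ℝ) := by
    intro k hk
    rw [mem_range] at hk
    have h1 := hf2 (a * (n + 1) + (k + 1)) (by
      have : (a + 1) * (n + 1) ≤ T * (n + 1) := Nat.mul_le_mul_right _ ha
      have e : (a + 1) * (n + 1) = a * (n + 1) + (n + 1) := by ring
      omega)
    beta_reduce at h1
    rw [div_lane (by omega), mod_lane (by omega), zero_add] at h1
    exact mul_le_mul_of_nonneg_right h1 (Nat.cast_nonneg _)
  refine (sum_le_sum hterm).trans (le_of_eq ?_)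
  unfold expS
  have hρa : ρs.getD a 0 = Real.exp (-(1 / 2 ^ 27 * (xsW l).getD a 0)) := by
    have h1 : a < (xsW l).length := by simpa [xsW] using ha
    rw [List.getD_eq_getElem _ _ (by omega), List.getD_eq_getElem _ _ h1]
    simp [hρs]
  have hpow : ∀ (y : ℝ) (i : ℕ), Real.exp (-(1 / 2 ^ 27 * y)) ^ 2 ^ i = Real.exp (-(2 ^ i * (1 / 2 ^ 27 * y))) := by
    intro y i
    rw [← Real.exp_nat_mul]
    congr 1
    push_cast
    ring
  have hmap : ∀ i : ℕ, ρs.map (· ^ 2 ^ i) = (xsW l).map fun y => Real.exp (-(2 ^ i * (1 / 2 ^ 27 * y))) := by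
    intro i
    rw [hρs, List.map_map]
    exact List.map_congr_left fun y _ => hpow y i
  rw [mul_sum]
  simp_rw [lpol_coeff, hlen, hρa, hpow, hmap, mul_sum, sum_mul]
  rw [sum_comm]
  refine sum_congr rfl fun i hi => sum_congr rfl fun k hk => ?_
  rw [mem_range] at hi hk
  have hg : (wl R).getD i 0 = uN i := by
    rw [hwl1, List.getD_eq_getElem _ _ (by simpa using hi)]
    simp
  have h8 := cg_Bq (n := n) (by omega) hk
  rw [hg]
  unfold uR
  generalize (gp (decN a m) ((xsW l).map fun y => Real.exp (-(2 ^ i * (1 / 2 ^ 27 * y))))).coeff k = z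
  generalize Real.exp (-(2 ^ i * (1 / 2 ^ 27 * (xsW l).getD a 0))) = y
  have h9 : (cL n : ℝ) * (((uN i : ℕ) : ℝ) / 2 ^ 31 * (((Bq k (n - 1 - k) : ℚ) : ℝ) * (y * z)))
      = ((uN i : ℕ) : ℝ) / 2 ^ 31 * (((cL n : ℝ) * ((Bq k (n - 1 - k) : ℚ) : ℝ)) * (y * z)) := by ring
  rw [h9, ← h8]
  generalize (cg n (k + 1) : ℝ) = c
  generalize ((uN i : ℕ) : ℝ) = u
  ring

/-- the inequality of a type -/
theorem ty_ok (hG : SpecLgN) (hN : SpecNle) {V L tot mk w p q P : ℕ} {S : ℝ}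
    (h : ty (Nat.mul V (nat_lit 100000)) L tot mk w (nle p q) P = 0) (hF : ((Nat.land P mk : ℕ) : ℝ) ≤ L * S) (hL : 0 < L)
    (hp : 1 ≤ p) (hpq : p ≤ q) (hw : 0 < wx w) :
    Real.log ((p : ℝ) / q) - Real.log (wx w : ℝ) + (222729470000 / 10 ^ 12 - Real.log (1 / 2 ^ 27)
      + 330758141300 / 10 ^ 12 * (1 / 2 ^ 27 * ((wx w : ℝ) + tot) / 2) - Real.log 2 * S) ≤ (V : ℝ) / 10 ^ 7 := by
  have e : ty (Nat.mul V (nat_lit 100000)) L tot mk w (nle p q) P
      = (lgN w + 222729470001 + (330758141300 * (wx w + tot)) >>> 28)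
        - (V * 100000 + nle p q + 693147180300 * Nat.land P mk / L) := rfl
  rw [e] at h
  have h1 : lgN w + 222729470001 + (330758141300 * (wx w + tot)) >>> 28
      ≤ V * 100000 + nle p q + 693147180300 * Nat.land P mk / L := Nat.le_of_sub_eq_zero h
  have h2 : (lgN w : ℝ) + 222729470001 + (((330758141300 * (wx w + tot)) >>> 28 : ℕ) : ℝ)
      ≤ (V : ℝ) * 100000 + (nle p q : ℝ) + ((693147180300 * Nat.land P mk / L : ℕ) : ℝ) := by
    exact_mod_cast h1
  have h3 : 330758141300 * ((wx w : ℝ) + tot) / 2 ^ 28 ≤ (((330758141300 * (wx w + tot)) >>> 28 : ℕ) : ℝ) + 1 := by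
    rw [Nat.shiftRight_eq_div_pow]
    have h4 : 330758141300 * (wx w + tot) < ((330758141300 * (wx w + tot)) / 2 ^ 28 + 1) * 2 ^ 28 := by
      have := Nat.div_add_mod (330758141300 * (wx w + tot)) (2 ^ 28)
      have := Nat.mod_lt (330758141300 * (wx w + tot)) (show 0 < 2 ^ 28 by norm_num)
      omega
    rw [div_le_iff₀ (by positivity)]
    exact_mod_cast h4.le
  have hLp : (0 : ℝ) < (L : ℝ) := by exact_mod_cast hL
  have h5 : ((693147180300 * Nat.land P mk / L : ℕ) : ℝ) ≤ 693147180300 * S := by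
    refine Nat.cast_div_le.trans ?_
    rw [div_le_iff₀ hLp]
    push_cast
    nlinarith
  have hS : 0 ≤ S := by
    by_contra hcon
    push Not at hcon
    have : (0 : ℝ) ≤ ((Nat.land P mk : ℕ) : ℝ) := Nat.cast_nonneg _
    nlinarith
  have h6 := Real.log_two_gt_d9
  have h7 : 693147180300 * S ≤ 10 ^ 12 * (Real.log 2 * S) := by nlinarith
  have h8 := hG w
  have h9 := hN p q hp hpq
  have hwr : (0 : ℝ) < (wx w : ℝ) := by exact_mod_cast hw
  have hpr : (0 : ℝ) < (p : ℝ) := by exact_mod_cast (by omega : 0 < p)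
  have hqr : (0 : ℝ) < (q : ℝ) := by exact_mod_cast (by omega : 0 < q)
  rw [Real.log_div hwr.ne' (by positivity)] at h8
  rw [Real.log_div hqr.ne' hpr.ne'] at h9
  rw [Real.log_div hpr.ne' hqr.ne', Real.log_div one_ne_zero (by positivity), Real.log_one, le_div_iff₀ (by norm_num)]
  generalize Real.log (wx w : ℝ) = a1 at *
  generalize Real.log (p : ℝ) = a2 at *
  generalize Real.log (q : ℝ) = a3 at *
  generalize Real.log ((2 : ℝ) ^ 27) = a4 at *
  generalize Real.log 2 * S = a5 at *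
  generalize (wx w : ℝ) = a6 at *
  generalize (tot : ℝ) = a7 at *
  linarith

end RE
end Pool.Agent.Lib.MP_6947cd_al
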