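import Pool.Agent.Lib.MP_6947cd_al.L.ReV

/-!
Problem MP_6947cd_al (Chollet).  Row certificates `rowE`: the check of a row is sound (from the analytic lemmas).
-/

set_option autoImplicit false
open Finset

namespace Pool.Agent.Lib.MP_6947cd_al
namespace RE

open Ent Ent.Pk

lemma cb_true {x b : Bool} (h : cb b x false = true) : b = true ∧ x = true := by
  cases b with
  | false => exact absurd h (by show ¬ (false = true); simp)
  | true => exact ⟨rfl, h⟩

lemma pkA0_eq (m : ℕ) (k : (ℕ → ℕ → ℕ → ℕ) → Bool) : pkA0 m k = k (AT.getD (m - 1) A0) := by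
  by_cases h : m < 13
  · interval_cases m <;> rfl
  · obtain ⟨j, rfl⟩ : ∃ j, m = j + 13 := ⟨m - 13, by omega⟩
    have hb : ∀ c, c < 13 → Nat.beq (j + 13) c = false := fun c hc => Bool.eq_false_iff.mpr fun h => by
      have := Nat.eq_of_beq_eq_true h
      omega
    unfold pkA0 pkA3 pkA6 pkA9
    rw [hb 1 (by norm_num), hb 2 (by norm_num), hb 3 (by norm_num), hb 4 (by norm_num), hb 5 (by norm_num),
      hb 6 (by norm_num), hb 7 (by norm_num), hb 8 (by norm_num), hb 9 (by norm_num), hb 10 (by norm_num),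
      hb 11 (by norm_num), hb 12 (by norm_num)]
    show pick A0 k AT (j + 12) = _
    rw [pick_eq]
    rfl

/-- the type of a triple multiplicity, entry, word -/
noncomputable def toTy (x : ℕ × (ℕ × ℕ) × ℕ) : Ty := ⟨AT.getD (x.1 - 1) A0, x.2.2, nle x.2.1.1 x.2.1.2⟩

theorem pas_sound (ms : List ℕ) : ∀ (vs : List (ℕ × ℕ)) (Xs : List ℕ) (n t : ℕ) (k : ℕ → ℕ → List Ty → Bool),
    pas ms vs Xs n t k = true → ∃ L : List (ℕ × (ℕ × ℕ) × ℕ), (∀ x ∈ L, 1 ≤ x.1) ∧ (∀ x ∈ L, x.2.1 ∈ vs) ∧
      Ent.mk ms (vs.map fun u => (u.1 : ℝ) / (u.2 : ℝ))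
        = Ent.mk (L.map fun x => x.1) (L.map fun x => (x.2.1.1 : ℝ) / (x.2.1.2 : ℝ)) ∧
      k (n + (L.map fun x => x.1).sum) (t + Pk.dotN (L.map fun x => x.1) (L.map fun x => wx x.2.2)) (L.map toTy) = true := by
  induction ms with
  | nil =>
    intro vs Xs n t k h
    have h' : k n t [] = true := h
    refine ⟨[], by simp, by simp, ?_, by simpa [Pk.dotN] using h'⟩
    rw [List.map_nil, mk_nil, mk_nil]
  | cons m ms ih =>
    intro vs Xs n t k h
    cases vs with
    | nil => exact absurd h (by show ¬ (false = true); simp)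
    | cons v vs =>
      cases Xs with
      | nil => exact absurd h (by show ¬ (false = true); simp)
      | cons w Xs =>
        have e : pas (m :: ms) (v :: vs) (w :: Xs) n t k = cb (Nat.beq m (nat_lit 0)) (pas ms vs Xs n t k)
          (pkA0 m (fun A => pas ms vs Xs (Nat.add n m) (Nat.add t (Nat.mul m (wx w))) fun n t l =>
            k n t (Ty.mk A w (@Prod.rec ℕ ℕ (fun _ => ℕ) nle v) :: l))) := rfl
        rw [e, pkA0_eq] at h
        rw [List.map_cons, Ent.mk_cons]
        cases m with
        | zero =>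
          have h' : pas ms vs Xs n t k = true := h
          obtain ⟨L, h1, h2, h3, h4⟩ := ih vs Xs n t k h'
          refine ⟨L, h1, fun x hx => List.mem_cons_of_mem _ (h2 x hx), ?_, h4⟩
          rw [← h3, Multiset.replicate_zero, zero_add]
        | succ m =>
          have h' : pas ms vs Xs (Nat.add n (m + 1)) (Nat.add t (Nat.mul (m + 1) (wx w))) (fun n t l =>
            k n t (Ty.mk (AT.getD m A0) w (nle v.1 v.2) :: l)) = true := h
          obtain ⟨L, h1, h2, h3, h4⟩ := ih vs Xs _ _ _ h'
          refine ⟨(m + 1, v, w) :: L, ?_, ?_, ?_, ?_⟩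
          · intro x hx
            rcases List.mem_cons.mp hx with rfl | hx
            · exact Nat.succ_pos m
            · exact h1 x hx
          · intro x hx
            rcases List.mem_cons.mp hx with rfl | hx
            · exact List.mem_cons_self
            · exact List.mem_cons_of_mem _ (h2 x hx)
          · rw [List.map_cons, List.map_cons, Ent.mk_cons, ← h3]
          · rw [List.map_cons, List.map_cons, List.map_cons, List.sum_cons]
            have e1 : n + (m + 1 + (L.map fun x => x.1).sum) = Nat.add n (m + 1) + (L.map fun x => x.1).sum := by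
              show _ = n + (m + 1) + _
              ring
            have e2 : t + Pk.dotN ((m + 1) :: L.map fun x => x.1) (wx w :: L.map fun x => wx x.2.2)
                = Nat.add t (Nat.mul (m + 1) (wx w)) + Pk.dotN (L.map fun x => x.1) (L.map fun x => wx x.2.2) := by
              show t + ((m + 1) * wx w + Pk.dotN _ _) = t + (m + 1) * wx w + Pk.dotN _ _
              ring
            rw [e1, e2]
            exact h4

lemma vOK_sound (v : List (ℕ × ℕ)) (h : vOK v = true) : ∀ u ∈ v, 1 ≤ u.1 ∧ u.1 ≤ u.2 := by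
  induction v with
  | nil => intro u hu; simp at hu
  | cons x v ih =>
    obtain ⟨p, q⟩ := x
    have e : vOK ((p, q) :: v) = cb (Nat.ble (nat_lit 1) p) (cb (Nat.ble p q) (vOK v) false) false := rfl
    rw [e] at h
    obtain ⟨h1, h2⟩ := cb_true h
    obtain ⟨h3, h4⟩ := cb_true h2
    intro u hu
    rcases List.mem_cons.mp hu with rfl | hu
    · exact ⟨Nat.le_of_ble_eq_true h1, Nat.le_of_ble_eq_true h3⟩
    · exact ih h4 u hu

lemma wx_pos (w : ℕ) : 0 < wx w := by
  have e : wx w = ((512 + ((w >>> 17) &&& 511)) <<< (w >>> 26)) + (w &&& 131071) := rfl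
  rw [e, Nat.shiftLeft_eq]
  positivity

lemma dotR_cast (c X : List ℕ) : Pk.dotR c (X.map fun x : ℕ => (x : ℝ)) = (Pk.dotN c X : ℝ) := by
  induction c generalizing X with
  | nil => simp [Pk.dotR, Pk.dotN]
  | cons c cs ih =>
    cases X with
    | nil => simp [Pk.dotR, Pk.dotN]
    | cons x X =>
      rw [List.map_cons]
      simp only [Pk.dotR, Pk.dotN]
      rw [ih]
      push_cast
      ring

lemma dotN_ge (L : List (ℕ × (ℕ × ℕ) × ℕ)) (h : ∀ x ∈ L, 1 ≤ x.1) : ∀ x ∈ L,
    wx x.2.2 ≤ Pk.dotN (L.map fun x => x.1) (L.map fun x => wx x.2.2) := by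
  induction L with
  | nil => intro x hx; simp at hx
  | cons y L ih =>
    intro x hx
    rw [List.map_cons, List.map_cons]
    simp only [Pk.dotN]
    have hy := h y (by simp)
    have h1 : wx y.2.2 ≤ y.1 * wx y.2.2 := Nat.le_mul_of_pos_left _ (by omega)
    rcases List.mem_cons.mp hx with rfl | hx
    · omega
    · have := ih (fun z hz => h z (by simp [hz])) x hx
      omega

/-- ROW CERTIFICATES BY EXPONENTIAL SUMS. -/
theorem rowE_sound_of (hE : SpecE0) (hG : SpecLgN) (hN : SpecNle) (hX : SpecEX) (v : List (ℕ × ℕ)) (m X : List ℕ) (V : ℕ)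
    (h : rowE v m X V = true) : FM (Ent.mk m (v.map fun u => (u.1 : ℝ) / (u.2 : ℝ))) ≤ (V : ℝ) / 10 ^ 7 := by
  cases X with
  | nil => exact absurd h (by show ¬ (false = true); simp)
  | cons R X =>
    have e : rowE v m (R :: X) V = cb (vOK v) (cb (Nat.ble R (nat_lit 32))
      (pas m v X (nat_lit 0) (nat_lit 0) fun n t l =>
        cb (Nat.ble n (nat_lit 40)) (cb (Nat.ble t (nat_lit 67108864))
          (Nat.beq (rowT R n t V l) (nat_lit 0)) false) false) false) false := rfl
    rw [e] at h
    obtain ⟨hv, h⟩ := cb_true h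
    obtain ⟨hR, h⟩ := cb_true h
    have hR : R ≤ 32 := Nat.le_of_ble_eq_true hR
    have hv := vOK_sound v hv
    obtain ⟨L, h1, h2, h3, h4⟩ := pas_sound m v X _ _ _ h
    rw [h3]
    clear h3 h e
    obtain ⟨hn, h4⟩ := cb_true h4
    obtain ⟨ht, h4⟩ := cb_true h4
    have hn : 0 + (L.map fun x => x.1).sum ≤ 40 := Nat.le_of_ble_eq_true hn
    have ht : 0 + Pk.dotN (L.map fun x => x.1) (L.map fun x => wx x.2.2) ≤ 67108864 := Nat.le_of_ble_eq_true ht
    have h4 : rowT R (0 + (L.map fun x => x.1).sum) (0 + Pk.dotN (L.map fun x => x.1) (L.map fun x => wx x.2.2)) V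
      (L.map toTy) = 0 := Nat.eq_of_beq_eq_true h4
    rw [zero_add] at hn ht
    rw [zero_add, zero_add] at h4
    set mL := L.map fun x => x.1 with hmL
    set t := Pk.dotN mL (L.map fun x => wx x.2.2) with htd
    set l := L.map toTy with hl
    have h5 : dis0 (cW mL.sum) (Nat.shiftLeft (nat_lit 120) (Nat.sub (nat_lit 145) (cW mL.sum)))
      (Nat.shiftLeft (nat_lit 4294967295) (Nat.sub (cW mL.sum) (nat_lit 32)))
      (mkM (cW mL.sum) (ons (Nat.mul (Nat.mul (cW mL.sum) (Nat.succ mL.sum)) l.length)))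
      (Nat.div (ons (Nat.mul (Nat.mul (cW mL.sum) (Nat.succ mL.sum)) l.length)) (ons (Nat.mul (cW mL.sum) (Nat.succ mL.sum))))
      (ons (Nat.mul (Nat.mul (cW mL.sum) (Nat.succ mL.sum)) l.length)) (ons (Nat.mul (cW mL.sum) (Nat.succ mL.sum)))
      (Nat.mul (cW mL.sum) (Nat.succ mL.sum)) (wl R) mL.sum (cC mL.sum) (Nat.mul V (nat_lit 100000)) (cL mL.sum) t
      (ons (cW mL.sum)) l = 0 := h4
    obtain ⟨hT1, -, h6⟩ := dis_eq _ _ _ _ _ _ _ _ _ _ _ _ _ _ _ _ h5
    have hll : l.length = L.length := by rw [hl, List.length_map]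
    have hlm : mL.length = L.length := by rw [hmL, List.length_map]
    have h7 := tyS_zero _ _ _ _ _ _ _ _ h6
    have hm1 : ∀ x ∈ mL, 1 ≤ x := by
      intro x hx
      obtain ⟨y, hy, rfl⟩ := List.mem_map.mp hx
      exact h1 y hy
    have hm40 : ∀ x ∈ mL, x ≤ 40 := by
      intro x hx
      exact (List.le_sum_of_mem hx).trans hn
    have hwx : ∀ t' ∈ l, 0 < wx t'.w ∧ wx t'.w ≤ 2 ^ 26 := by
      intro t' ht'
      obtain ⟨y, hy, rfl⟩ := List.mem_map.mp ht'
      refine ⟨wx_pos _, ?_⟩
      have := dotN_ge L h1 y hy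
      exact this.trans (ht.trans (by norm_num))
    have hq : List.Forall₂ QA (mL.map (· - 1)) (l.map Ty.q) := by
      rw [List.forall₂_iff_get]
      refine ⟨by simp [hmL, hl], fun i i1 i2 => ?_⟩
      have hi : i < L.length := by simpa [hmL] using i1
      have e1 : (mL.map (· - 1)).get ⟨i, i1⟩ = L[i].1 - 1 := by simp [hmL]
      have e2 : (l.map Ty.q).get ⟨i, i2⟩ = AT.getD (L[i].1 - 1) A0 := by
        simp only [hl, List.get_eq_getElem, List.getElem_map]
        rfl
      rw [e1, e2]
      refine qaT _ ?_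
      have := hm40 L[i].1 (List.mem_map.mpr ⟨L[i], List.getElem_mem hi, rfl⟩)
      omega
    set vL : List ℝ := L.map fun x => (x.2.1.1 : ℝ) / (x.2.1.2 : ℝ) with hvL
    have hvl : vL.length = mL.length := by simp [hvL, hmL]
    have hxl : (xsW l).length = mL.length := by simp [xsW, hll, hlm]
    obtain ⟨n, b, S, g1, g2, g3, g4, g5⟩ := exists_typed mL vL hvl
    have hvpos : ∀ a < mL.length, 0 < vL.getD a 0 := by
      intro a ha
      have ha' : a < L.length := by omega
      rw [List.getD_eq_getElem _ _ (by omega)]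
      simp only [hvL, List.getElem_map]
      obtain ⟨k1, k2⟩ := hv _ (h2 _ (List.getElem_mem ha'))
      have k3 : (0 : ℝ) < (L[a].2.1.1 : ℝ) := by exact_mod_cast (by omega : 0 < L[a].2.1.1)
      have k4 : (0 : ℝ) < (L[a].2.1.2 : ℝ) := by exact_mod_cast (by omega : 0 < L[a].2.1.2)
      positivity
    have hxpos : ∀ y ∈ xsW l, 0 < y := by
      intro y hy
      obtain ⟨t', ht', rfl⟩ := List.mem_map.mp hy
      exact_mod_cast (hwx t' ht').1
    rw [← g1, ← F_eq_FM]
    refine F_le_types b ?_ ?_ (List.range mL.length) List.nodup_range S ?_ ?_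
      (fun a => vL.getD a 0) (fun a => (xsW l).getD a 0) ?_ ?_ _ ?_
    · intro k
      obtain ⟨a, ha, hk⟩ := g4 k
      rw [g5 a ha k hk]
      exact (hvpos a ha).le
    · have h0 : 0 < mL.length := by omega
      have hc0 : 0 < (S 0).card := by
        rw [g3 0 h0, List.getD_eq_getElem _ _ h0]
        exact hm1 _ (List.getElem_mem h0)
      obtain ⟨k, hk⟩ := Finset.card_pos.mp hc0
      refine ⟨k, ?_⟩
      rw [g5 0 h0 k hk]
      exact (hvpos 0 h0).ne'
    · intro a ha c hc hac
      exact g2 a (List.mem_range.mp ha) c (List.mem_range.mp hc) hac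
    · intro k hk
      obtain ⟨a, ha, hk'⟩ := g4 k
      exact absurd hk' (hk a (List.mem_range.mpr ha))
    · intro a ha k hk
      rw [List.mem_range] at ha
      rw [g5 a ha k hk]
    · intro a ha
      rw [List.mem_range] at ha
      beta_reduce
      rw [List.getD_eq_getElem _ _ (by omega)]
      exact hxpos _ (List.getElem_mem _)
    · intro a ha hne _
      rw [List.mem_range] at ha
      beta_reduce
      have hma : 0 < mL.getD a 0 := by
        rw [← g3 a ha]
        exact Finset.card_pos.mpr hne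
      have e1 : ((List.range mL.length).map fun c => ((S c).card - (if c = a then 1 else 0), (xsW l).getD c 0))
          = (decN a mL).zip (xsW l) := by
        apply List.ext_getElem
        · simp [decN_length, hxl]
        · intro i hi1 hi2
          rw [List.length_map, List.length_range] at hi1
          rw [List.getElem_map, List.getElem_zip, List.getElem_range, g3 i hi1]
          have k5 := decN_getD a mL i
          rw [List.getD_eq_getElem _ _ (by rw [decN_length]; exact hi1)] at k5
          rw [k5, List.getD_eq_getElem (xsW l) _ (by omega)]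
      rw [e1]
      have haL : a < L.length := by omega
      have hal : a < l.length := by omega
      have hdot : Pk.dotR mL (xsW l) = (t : ℝ) := by
        have : xsW l = (L.map fun x => wx x.2.2).map fun x : ℕ => (x : ℝ) := by
          rw [hl]
          unfold xsW
          rw [List.map_map, List.map_map]
          rfl
        rw [this, dotR_cast]
      have htr : (t : ℝ) ≤ 67108864 := by exact_mod_cast ht
      have k1 := hX mL (xsW l) (1 / 2 ^ 27) a R hxl hxpos (by positivity) hma (by rw [hdot]; linarith)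
      rw [hdot] at k1
      have k2 := lane_ok hE hm1 (by omega) (by omega) rfl hn hR hwx hq hal
      have k3 := h7 a hal
      rw [zero_add] at k3
      have hL1 : 1 ≤ mL.sum := by
        have := List.le_sum_of_mem (List.getElem_mem ha)
        have := hm1 _ (List.getElem_mem ha)
        omega
      have hcL := (tab_ok mL.sum (by omega) hL1).2.2.2.2.1
      obtain ⟨k4, k5⟩ := hv _ (h2 _ (List.getElem_mem haL))
      have ew : l[a].w = L[a].2.2 := by simp only [hl, List.getElem_map]; rfl
      have ee : l[a].e = nle L[a].2.1.1 L[a].2.1.2 := by simp only [hl, List.getElem_map]; rfl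
      rw [ew, ee] at k3
      have k6 := ty_ok hG hN k3 k2 hcL k4 k5 (wx_pos _)
      have exa : (xsW l).getD a 0 = (wx L[a].2.2 : ℝ) := by
        rw [List.getD_eq_getElem _ _ (by omega)]
        unfold xsW
        rw [List.getElem_map, ew]
      have eva : vL.getD a 0 = (L[a].2.1.1 : ℝ) / (L[a].2.1.2 : ℝ) := by
        rw [List.getD_eq_getElem _ _ (by omega)]
        simp only [hvL, List.getElem_map]
      rw [eva]
      have k7 : bx 0 0 ((decN a mL).zip (xsW l)) ((xsW l).getD a 0) ≤ 222729470000 / 10 ^ 12 - Real.log (1 / 2 ^ 27)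
          + 330758141300 / 10 ^ 12 * (1 / 2 ^ 27 * ((xsW l).getD a 0 + t) / 2)
          - Real.log 2 * expS mL.sum R mL (xsW l) (1 / 2 ^ 27) a := k1
      rw [exa] at k7 ⊢
      linarith

end RE
end Pool.Agent.Lib.MP_6947cd_al
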