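import Pool.Agent.Lib.MP_6947cd_al.L.ReSpec

/-!
Problem MP_6947cd_al (Chollet).  Row certificates `rowE`: (S3), the expectation of the exponentials.
-/

set_option autoImplicit false
open Finset

namespace Pool.Agent.Lib.MP_6947cd_al
namespace RE

open Ent Ent.Pk

namespace XM

/-! ### sums over patterns -/

lemma SF_add (m : List ℕ) : ∀ f g : List ℕ → ℝ, SF m (fun c => f c + g c) = SF m f + SF m g := by
  induction m with
  | nil => intro f g; rfl
  | cons m ms ih =>
    intro f g
    simp only [SF, ih, mul_add, Finset.sum_add_distrib]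

/-- reflection of the patterns -/
lemma SF_refl (m : List ℕ) : ∀ f : List ℕ → ℝ,
    SF m f = SF m fun c => f (List.zipWith (fun a b => a - b) m c) := by
  induction m with
  | nil => intro f; rfl
  | cons m ms ih =>
    intro f
    simp only [SF]
    rw [← Finset.sum_range_reflect]
    apply Finset.sum_congr rfl
    intro c hc
    have hc' : c ≤ m := Nat.lt_succ_iff.mp (Finset.mem_range.mp hc)
    rw [show m + 1 - 1 - c = m - c by omega, Nat.choose_symm hc', ih]
    rfl

lemma refl_sum (m : List ℕ) : ∀ c : List ℕ, List.Forall₂ (· ≤ ·) c m →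
    (List.zipWith (fun a b => a - b) m c).sum = m.sum - c.sum := by
  induction m with
  | nil => intro c h; cases h; rfl
  | cons m ms ih =>
    intro c h
    cases h with
    | cons h1 h2 =>
      rename_i c cs
      have h3 := ih _ h2
      have h4 := sum_mono _ _ h2
      simp only [List.zipWith_cons_cons, List.sum_cons, h3]
      omega

lemma refl_dot (m : List ℕ) : ∀ (c : List ℕ) (x : List ℝ), List.Forall₂ (· ≤ ·) c m →
    x.length = m.length → dotR (List.zipWith (fun a b => a - b) m c) x = dotR m x - dotR c x := by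
  induction m with
  | nil => intro c x h _; cases h; simp [dotR]
  | cons m ms ih =>
    intro c x h hx
    cases h with
    | cons h1 h2 =>
      rename_i c cs
      cases x with
      | nil => simp at hx
      | cons x xs =>
        have h3 := ih _ xs h2 (by simpa using hx)
        simp only [List.zipWith_cons_cons, dotR, h3]
        rw [Nat.cast_sub h1]
        ring

lemma Bq_symm (k l : ℕ) : Bq k l = Bq l k := by
  unfold Bq
  rw [mul_comm, add_comm k l]

lemma Bq_nonneg (k l : ℕ) : (0 : ℝ) ≤ (Bq k l : ℝ) := by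
  unfold Bq
  positivity

lemma Bq_one (m k l : ℕ) : ∑ c ∈ range (m + 1), (m.choose c : ℝ) * (Bq (k + c) (l + (m - c)) : ℝ)
    = (Bq k l : ℝ) := by
  have e : ∀ u : ℝ, u ^ k * (1 - u) ^ l = ∑ c ∈ range (m + 1), (m.choose c : ℝ) *
      (u ^ (k + c) * (1 - u) ^ (l + (m - c))) := by
    intro u
    have h := add_pow u (1 - u) m
    rw [add_sub_cancel, one_pow] at h
    have h2 : ∑ c ∈ range (m + 1), (m.choose c : ℝ) * (u ^ (k + c) * (1 - u) ^ (l + (m - c)))
        = u ^ k * (1 - u) ^ l * ∑ c ∈ range (m + 1), u ^ c * (1 - u) ^ (m - c) * (m.choose c : ℝ) := by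
      rw [Finset.mul_sum]
      refine Finset.sum_congr rfl fun c _ => ?_
      rw [pow_add, pow_add]
      ring
    rw [h2, ← h, mul_one]
  rw [Bq_eq k l, intervalIntegral.integral_congr fun u _ => e u, intervalIntegral.integral_finsetSum]
  · refine Finset.sum_congr rfl fun c _ => ?_
    rw [intervalIntegral.integral_const_mul, Bq_eq]
  · intro c _
    refine Continuous.intervalIntegrable ?_ _ _
    exact continuous_const.mul ((continuous_id.pow _).mul ((continuous_const.sub continuous_id).pow _))

lemma SF_Bq (ms : List ℕ) : ∀ k l : ℕ,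
    (SF ms fun c => (Bq (k + c.sum) (l + (ms.sum - c.sum)) : ℝ)) = (Bq k l : ℝ) := by
  induction ms with
  | nil =>
    intro k l
    simp [SF]
  | cons m ms ih =>
    intro k l
    simp only [SF]
    rw [← Bq_one m k l]
    refine Finset.sum_congr rfl fun c hc => ?_
    congr 1
    rw [← ih (k + c) (l + (m - c))]
    refine SF_congr ms _ _ fun cs hcs => ?_
    have h1 := sum_mono cs ms hcs
    have h2 := Finset.mem_range.mp hc
    simp only [List.sum_cons]
    rw [show k + c + cs.sum = k + (c + cs.sum) by ring,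
      show l + (m - c) + (ms.sum - cs.sum) = l + (m + ms.sum - (c + cs.sum)) by omega]

lemma SF_one (ms : List ℕ) : (SF ms fun c => (Bq c.sum (ms.sum - c.sum) : ℝ)) = 1 := by
  have h := SF_Bq ms 0 0
  simp only [zero_add] at h
  rw [h]
  norm_num [Bq]

lemma SF_dot (ms : List ℕ) (x : List ℝ) (hx : x.length = ms.length) :
    (SF ms fun c => (Bq c.sum (ms.sum - c.sum) : ℝ) * dotR c x) = dotR ms x / 2 := by
  have h1 : (SF ms fun c => (Bq c.sum (ms.sum - c.sum) : ℝ) * dotR c x)
      = SF ms fun c => (Bq c.sum (ms.sum - c.sum) : ℝ) * (dotR ms x - dotR c x) := by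
    rw [SF_refl ms fun c => (Bq c.sum (ms.sum - c.sum) : ℝ) * dotR c x]
    refine SF_congr ms _ _ fun c hc => ?_
    have h2 := sum_mono c ms hc
    rw [refl_sum ms c hc, refl_dot ms c x hc hx, show ms.sum - (ms.sum - c.sum) = c.sum by omega, Bq_symm]
  have h2 := SF_add ms (fun c => (Bq c.sum (ms.sum - c.sum) : ℝ) * dotR c x)
    (fun c => (Bq c.sum (ms.sum - c.sum) : ℝ) * (dotR ms x - dotR c x))
  have h3 : (SF ms fun c => (Bq c.sum (ms.sum - c.sum) : ℝ) * dotR c x +
      (Bq c.sum (ms.sum - c.sum) : ℝ) * (dotR ms x - dotR c x)) = dotR ms x := by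
    have h4 : (SF ms fun c => (Bq c.sum (ms.sum - c.sum) : ℝ) * dotR c x +
      (Bq c.sum (ms.sum - c.sum) : ℝ) * (dotR ms x - dotR c x))
      = SF ms fun c => dotR ms x * (Bq c.sum (ms.sum - c.sum) : ℝ) := by
      refine SF_congr ms _ _ fun c _ => ?_
      ring
    rw [h4, SF_mul, SF_one, mul_one]
  rw [h3, ← h1] at h2
  linarith

/-! ### the generating polynomial -/

open Polynomial in
/-- the functional `∑ g k * coeff k` -/
noncomputable def Lg (g : ℕ → ℝ) (p : Polynomial ℝ) : ℝ := p.sum fun k a => g k * a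

lemma Lg_add (g : ℕ → ℝ) (p q : Polynomial ℝ) : Lg g (p + q) = Lg g p + Lg g q :=
  Polynomial.sum_add_index _ _ _ (fun _ => mul_zero _) fun _ _ _ => mul_add _ _ _

lemma Lg_zero (g : ℕ → ℝ) : Lg g 0 = 0 := by
  unfold Lg; simp

lemma Lg_sum {ι : Type} (g : ℕ → ℝ) (s : Finset ι) (p : ι → Polynomial ℝ) :
    Lg g (∑ i ∈ s, p i) = ∑ i ∈ s, Lg g (p i) := by
  classical
  induction s using Finset.induction_on with
  | empty => simp [Lg_zero]
  | insert i s hi ih => rw [Finset.sum_insert hi, Finset.sum_insert hi, Lg_add, ih]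

lemma Lg_range (g : ℕ → ℝ) (p : Polynomial ℝ) (n : ℕ) (h : p.natDegree < n) :
    Lg g p = ∑ k ∈ range n, g k * p.coeff k :=
  Polynomial.sum_over_range' p (fun _ => mul_zero _) n h

lemma Lg_X (g : ℕ → ℝ) (a : ℝ) (c : ℕ) (p : Polynomial ℝ) :
    Lg g (Polynomial.C a * Polynomial.X ^ c * p) = a * Lg (fun k => g (c + k)) p := by
  have h1 : (Polynomial.C a * Polynomial.X ^ c * p).natDegree < c + (p.natDegree + 1) := by
    calc (Polynomial.C a * Polynomial.X ^ c * p).natDegree
        ≤ (Polynomial.C a * Polynomial.X ^ c).natDegree + p.natDegree := Polynomial.natDegree_mul_le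
      _ ≤ c + p.natDegree := Nat.add_le_add_right (Polynomial.natDegree_C_mul_X_pow_le a c) _
      _ < _ := by omega
  rw [Lg_range g _ _ h1, Lg_range _ p _ (Nat.lt_succ_self _), Finset.sum_range_add, Finset.mul_sum]
  have h2 : ∑ k ∈ range c, g k * (Polynomial.C a * Polynomial.X ^ c * p).coeff k = 0 := by
    apply Finset.sum_eq_zero
    intro k hk
    rw [mul_assoc, Polynomial.coeff_C_mul, Polynomial.coeff_X_pow_mul', if_neg (by
      have := Finset.mem_range.mp hk; omega), mul_zero, mul_zero]
  rw [h2, zero_add]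
  refine Finset.sum_congr rfl fun k _ => ?_
  rw [mul_assoc, Polynomial.coeff_C_mul, Polynomial.coeff_X_pow_mul', if_pos (by omega),
    show c + k - c = k by omega]
  ring

lemma Lg_lin (g : ℕ → ℝ) (r : ℝ) (m : ℕ) (p : Polynomial ℝ) :
    Lg g ((1 + Polynomial.C r * Polynomial.X) ^ m * p)
      = ∑ c ∈ range (m + 1), (m.choose c : ℝ) * (r ^ c * Lg (fun k => g (c + k)) p) := by
  have h1 : (1 + Polynomial.C r * Polynomial.X) ^ m * p
      = ∑ c ∈ range (m + 1), Polynomial.C ((m.choose c : ℝ) * r ^ c) * Polynomial.X ^ c * p := by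
    rw [add_comm, add_pow, Finset.sum_mul]
    refine Finset.sum_congr rfl fun c _ => ?_
    rw [one_pow, mul_pow, ← Polynomial.C_pow, mul_one, map_mul, Polynomial.C_eq_natCast]
    ring
  rw [h1, Lg_sum]
  refine Finset.sum_congr rfl fun c _ => ?_
  rw [Lg_X]
  ring

lemma SF_gp (ms : List ℕ) : ∀ (r : List ℝ) (g : ℕ → ℝ), r.length = ms.length →
    (SF ms fun c => g c.sum * prE c r) = Lg g (gp ms r) := by
  induction ms with
  | nil =>
    intro r g _
    simp only [SF, gp, List.sum_nil, prE, mul_one]
    rw [Lg_range g 1 1 (by simp)]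
    simp
  | cons m ms ih =>
    intro r g hr
    cases r with
    | nil => simp at hr
    | cons r rs =>
      simp only [SF, gp]
      rw [Lg_lin]
      refine Finset.sum_congr rfl fun c _ => ?_
      congr 1
      rw [← ih rs (fun k => g (c + k)) (by simpa using hr), ← SF_mul]
      refine SF_congr ms _ _ fun cs _ => ?_
      simp only [List.sum_cons, prE]
      ring

lemma gp_deg (ms : List ℕ) : ∀ r : List ℝ, (gp ms r).natDegree ≤ ms.sum := by
  induction ms with
  | nil => intro r; simp [gp]
  | cons m ms ih =>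
    intro r
    cases r with
    | nil => simp [gp]
    | cons r rs =>
      simp only [gp, List.sum_cons]
      refine Polynomial.natDegree_mul_le.trans (Nat.add_le_add ?_ (ih rs))
      refine Polynomial.natDegree_pow_le.trans ?_
      have h1 : (1 + Polynomial.C r * Polynomial.X).natDegree ≤ 1 := by
        refine (Polynomial.natDegree_add_le _ _).trans (max_le (by simp) ?_)
        exact (Polynomial.natDegree_C_mul_le _ _).trans Polynomial.natDegree_X_le
      calc m * (1 + Polynomial.C r * Polynomial.X).natDegree ≤ m * 1 := Nat.mul_le_mul_left _ h1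
        _ = m := mul_one m

lemma exp_dot (c : List ℕ) : ∀ (x : List ℝ) (t : ℝ),
    Real.exp (-(t * dotR c x)) = prE c (x.map fun y => Real.exp (-(t * y))) := by
  induction c with
  | nil => intro x t; simp [dotR, prE]
  | cons c cs ih =>
    intro x t
    cases x with
    | nil => simp [dotR, prE]
    | cons x xs =>
      simp only [dotR, prE, List.map_cons, ← ih xs t]
      rw [← Real.exp_nat_mul, ← Real.exp_add]
      congr 1
      ring

lemma dot_nonneg (c : List ℕ) : ∀ x : List ℝ, (∀ y ∈ x, 0 < y) → 0 ≤ dotR c x := by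
  induction c with
  | nil => intro x _; simp [dotR]
  | cons c cs ih =>
    intro x hx
    cases x with
    | nil => simp [dotR]
    | cons x xs =>
      simp only [dotR]
      have h1 := hx x (by simp)
      have h2 := ih xs fun y hy => hx y (List.mem_cons_of_mem _ hy)
      positivity

lemma dot_mono (m : List ℕ) : ∀ (c : List ℕ) (x : List ℝ), List.Forall₂ (· ≤ ·) c m →
    (∀ y ∈ x, 0 < y) → dotR c x ≤ dotR m x := by
  induction m with
  | nil => intro c x h _; cases h; exact le_rfl
  | cons m ms ih =>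
    intro c x h hx
    cases h with
    | cons h1 h2 =>
      rename_i c cs
      cases x with
      | nil => simp [dotR]
      | cons x xs =>
        simp only [dotR]
        have h3 := hx x (by simp)
        have h4 := ih _ xs h2 fun y hy => hx y (List.mem_cons_of_mem _ hy)
        have h5 : (c : ℝ) ≤ m := by exact_mod_cast h1
        nlinarith

lemma inc_dec (m : List ℕ) : ∀ a : ℕ, 0 < m.getD a 0 → Pk.incN a (Pk.decN a m) = m := by
  induction m with
  | nil => intro a h; simp at h
  | cons m ms ih =>
    intro a h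
    cases a with
    | zero =>
      simp only [List.getD_cons_zero] at h
      simp only [Pk.decN, Pk.incN]
      rw [show m - 1 + 1 = m by omega]
    | succ a =>
      simp only [List.getD_cons_succ] at h
      simp only [Pk.decN, Pk.incN, ih a h]

end XM

open XM in
theorem specEX (h : SpecLE) : SpecEX := by
  intro m x κ a R hlen hx hκ ham hκm
  have ha : a < m.length := by
    by_contra hcon
    rw [List.getD_eq_default _ _ (by omega)] at ham
    omega
  have hml : (decN a m).length = m.length := decN_length a m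
  have hsum := decN_sum a m ham
  obtain ⟨A, hA⟩ : ∃ A, A = x.getD a 0 := ⟨_, rfl⟩
  have hA0 : 0 < A := by
    rw [hA, List.getD_eq_getElem _ _ (by omega)]
    exact hx _ (List.getElem_mem _)
  have hdm : dotR m x = A + dotR (decN a m) x := by
    conv_lhs => rw [← inc_dec m a ham]
    rw [incN_dot a _ x (by omega) (by omega), hA]
  rw [← hA, bx_SF (decN a m) x 0 0 A (by omega)]
  simp only [zero_add]
  obtain ⟨K, hK⟩ : ∃ K, K = (decN a m).sum := ⟨_, rfl⟩
  have hKm : m.sum - 1 = K := by omega
  have hmK : m.sum = K + 1 := by omega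
  -- the pointwise inequality
  have hpt : ∀ c, List.Forall₂ (· ≤ ·) c (decN a m) →
      (Bq c.sum ((decN a m).sum - c.sum) : ℝ) * Real.log (A + dotR c x) ≤
      (222729470000 / 10 ^ 12 - Real.log κ + 330758141300 / 10 ^ 12 * (κ * A))
          * (Bq c.sum ((decN a m).sum - c.sum) : ℝ)
        + 330758141300 / 10 ^ 12 * κ * ((Bq c.sum ((decN a m).sum - c.sum) : ℝ) * dotR c x)
        + ∑ i ∈ range R, (-Real.log 2 * uR i * Real.exp (-(2 ^ i * (κ * A)))) *
          ((Bq c.sum ((decN a m).sum - c.sum) : ℝ) *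
            prE c (x.map fun y => Real.exp (-(2 ^ i * κ * y)))) := by
    intro c hc
    have h1 := dot_nonneg c x hx
    have h2 := dot_mono (decN a m) c x hc hx
    have hs0 : 0 < κ * (A + dotR c x) := by positivity
    have hs1 : κ * (A + dotR c x) ≤ 1 / 2 := by
      refine le_trans ?_ hκm
      rw [hdm]
      exact mul_le_mul_of_nonneg_left (by linarith) hκ.le
    have h3 := h R _ hs0 hs1
    rw [Real.log_mul hκ.ne' (by positivity)] at h3
    have h4 : Real.log (A + dotR c x) ≤ 222729470000 / 10 ^ 12 - Real.log κ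
        + 330758141300 / 10 ^ 12 * (κ * (A + dotR c x))
        - Real.log 2 * ∑ i ∈ range R, uR i * Real.exp (-(2 ^ i * (κ * (A + dotR c x)))) := by
      linarith
    refine (mul_le_mul_of_nonneg_left h4 (Bq_nonneg _ _)).trans (le_of_eq ?_)
    have h5 : ∀ i, Real.exp (-(2 ^ i * (κ * (A + dotR c x)))) =
        Real.exp (-(2 ^ i * (κ * A))) * prE c (x.map fun y => Real.exp (-(2 ^ i * κ * y))) := by
      intro i
      rw [← exp_dot c x (2 ^ i * κ), ← Real.exp_add]
      congr 1
      ring
    simp only [h5]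
    have h6 : ∑ i ∈ range R, (-Real.log 2 * uR i * Real.exp (-(2 ^ i * (κ * A)))) *
          ((Bq c.sum ((decN a m).sum - c.sum) : ℝ) *
            prE c (x.map fun y => Real.exp (-(2 ^ i * κ * y))))
        = -((Bq c.sum ((decN a m).sum - c.sum) : ℝ) * (Real.log 2 * ∑ i ∈ range R, uR i *
          (Real.exp (-(2 ^ i * (κ * A))) * prE c (x.map fun y => Real.exp (-(2 ^ i * κ * y)))))) := by
      rw [Finset.mul_sum, Finset.mul_sum, ← Finset.sum_neg_distrib]
      refine Finset.sum_congr rfl fun i _ => ?_
      ring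
    rw [h6]
    ring
  refine (SF_mono (decN a m) _ _ hpt).trans (le_of_eq ?_)
  rw [SF_add, SF_add, SF_mul, SF_mul, SF_one, SF_dot _ _ (by omega), SF_sum]
  have h7 : ∀ i, (SF (decN a m) fun c => (-Real.log 2 * uR i * Real.exp (-(2 ^ i * (κ * A)))) *
        ((Bq c.sum ((decN a m).sum - c.sum) : ℝ) *
          prE c (x.map fun y => Real.exp (-(2 ^ i * κ * y)))))
      = (-Real.log 2 * uR i * Real.exp (-(2 ^ i * (κ * A)))) * ∑ k ∈ range m.sum,
        (Bq k (m.sum - 1 - k) : ℝ) * (gp (decN a m) (x.map fun y => Real.exp (-(2 ^ i * (κ * y))))).coeff k := by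
    intro i
    rw [SF_mul]
    congr 1
    rw [SF_gp (decN a m) _ (fun k => (Bq k ((decN a m).sum - k) : ℝ)) (by
      rw [List.length_map]; omega), Lg_range _ _ m.sum (by
        have := gp_deg (decN a m) (x.map fun y => Real.exp (-(2 ^ i * κ * y)))
        omega), ← hK, hKm]
    simp only [mul_assoc]
  rw [Finset.sum_congr rfl fun i _ => h7 i, hdm]
  have h8 : Real.log 2 * ∑ i ∈ range R, uR i * ∑ k ∈ range m.sum, (Bq k (m.sum - 1 - k) : ℝ) *
      (Real.exp (-(2 ^ i * (κ * A)))
        * (gp (decN a m) (x.map fun y => Real.exp (-(2 ^ i * (κ * y))))).coeff k)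
      = -∑ i ∈ range R, (-Real.log 2 * uR i * Real.exp (-(2 ^ i * (κ * A)))) * ∑ k ∈ range m.sum,
        (Bq k (m.sum - 1 - k) : ℝ) * (gp (decN a m) (x.map fun y => Real.exp (-(2 ^ i * (κ * y))))).coeff k := by
    rw [Finset.mul_sum, ← Finset.sum_neg_distrib]
    refine Finset.sum_congr rfl fun i _ => ?_
    rw [Finset.mul_sum, Finset.mul_sum, Finset.mul_sum, ← Finset.sum_neg_distrib]
    refine Finset.sum_congr rfl fun k _ => ?_
    ring
  rw [h8]
  ring

end RE
end Pool.Agent.Lib.MP_6947cd_al
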