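import Pool.Agent.Lib.MP_6947cd_al.L.ReW
import Pool.Agent.Lib.MP_6947cd_al.L.ReG
import Pool.Agent.Lib.MP_6947cd_al.L.ReX

/-!
Problem MP_6947cd_al (Chollet).  Row certificates `rowE`: soundness from the logarithm by exponentials.
-/

set_option autoImplicit false

namespace Pool.Agent.Lib.MP_6947cd_al
namespace RE

open Ent Ent.Pk

theorem rowE_sound_le (h : SpecLE) (v : List (ℕ × ℕ)) (m X : List ℕ) (V : ℕ) (hr : rowE v m X V = true) :
    FM (Ent.mk m (v.map fun u => (u.1 : ℝ) / (u.2 : ℝ))) ≤ (V : ℝ) / 10 ^ 7 :=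
  rowE_sound_of specE0 specLgN specNle (specEX h) v m X V hr

end RE
end Pool.Agent.Lib.MP_6947cd_al
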