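import Pool.Agent.Lib.MP_6947cd_al.L.RowI
import Pool.Agent.Lib.MP_6947cd_al.L.TabZ0

/-!
Problem MP_6947cd_al (Chollet).  Part (I) with the tables of concentrated rows (node steps `1/100` in the second
entry and `1/40` in the sum of the others).
-/

set_option autoImplicit false
open Finset

namespace Pool.Agent.Lib.MP_6947cd_al
namespace Fr
namespace RG

open Ent WT RT RI TZ IA.F

/-- from the bounds of `F` and `What` to the bound of the need, with a multiplier -/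
theorem need_lam (F W h S d0 w al r U L c d lam : ℝ) (hlam : 0 ≤ lam) (hh : 0 < h) (hh1 : h ≤ 1) (hS : 0 ≤ S)
    (hw : 0 ≤ w) (hD : 0 < F - W) (hU : F ≤ U) (hL : L ≤ W) (hc : (4 - h) / (3 * h) ≤ c)
    (hd : 4 / (3 * h ^ 2) ≤ d)
    (E1 : (U - L) * (c + lam + d * S) + (w * U + al * S) ≤ r)
    (E2 : (U - L) * (c + lam) + (w * U + al * S + d0 * (d * S)) ≤ r) :
    ((F - W) * (4 * h - h ^ 2) + 4 * S * max (F - W) d0) / (3 * h ^ 2) + w * F + al * S ≤ r :=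
  need_le F W h S d0 w al r U L (c + lam) d hh hh1 hS hw hD hU hL (by linarith) hd E1 E2

/-- the bilinear bound of the row function -/
noncomputable def gF (t : ℕ → ℕ → ℕ) (n k : ℕ) (h S : ℝ) : ℝ :=
  ((n : ℝ) + 1 - 40 * S) * ((((k : ℝ) + 1 - 100 * h) * t n k + (100 * h - k) * t n (k + 1)) / 10000000)
    + (40 * S - n) * ((((k : ℝ) + 1 - 100 * h) * t (n + 1) k + (100 * h - k) * t (n + 1) (k + 1)) / 10000000)

/-- THE BOUND OF THE ROW FUNCTION. -/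
theorem F_le_gF (t : ℕ → ℕ → ℕ) (cnt : ℕ → ℕ) (w k0 k1 : ℕ) (ht : Tab2 t cnt w k0 k1) (hw : 0 < w) (hw' : w ≤ 40)
    (z k : ℕ) (hk : k0 ≤ k) (hk' : k + 1 ≤ k1) (hk1 : k1 ≤ 100) (hz : z + 1 < cnt k) (hz' : z + 1 < cnt (k + 1))
    {κ : Type} [Fintype κ] [DecidableEq κ] (b : κ → ℝ) (hb0 : ∀ c, 0 ≤ b c)
    (i j : κ) (hij : i ≠ j) (hi : b i = 1)
    (h1 : (k : ℝ) / 100 ≤ b j) (h2 : b j ≤ ((k : ℝ) + 1) / 100) (hm : ∀ c, c ≠ i → c ≠ j → b c ≤ (w : ℝ) / 40)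
    (hn1 : (z : ℝ) / 40 ≤ ∑ c ∈ ({i, j} : Finset κ)ᶜ, b c)
    (hn2 : ∑ c ∈ ({i, j} : Finset κ)ᶜ, b c ≤ ((z : ℝ) + 1) / 40) :
    F b ≤ gF t z k (b j) (∑ c ∈ ({i, j} : Finset κ)ᶜ, b c) := by
  have hkR : (k : ℝ) + 1 ≤ 100 := by
    have : k + 1 ≤ 100 := by omega
    exact_mod_cast this
  have hj0 := hb0 j
  have hj1 : b j ≤ 1 := by linarith
  rw [F_split b {i, j}]
  have e : (({i, j} : Finset κ).val.map b) = 1 ::ₘ b j ::ₘ 0 := by
    rw [Finset.insert_val_of_notMem (by simp [hij])]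
    simp [hi]
  rw [e]
  have hS : ∀ z ∈ ((1 : ℝ) ::ₘ b j ::ₘ 0), 0 ≤ z ∧ z ≤ 1 := by
    intro z hz
    simp only [Multiset.mem_cons, Multiset.notMem_zero, or_false] at hz
    rcases hz with rfl | rfl
    · exact ⟨zero_le_one, le_rfl⟩
    · exact ⟨hj0, hj1⟩
  have hch := chord ((1 : ℝ) ::ₘ b j ::ₘ 0) (({i, j} : Finset κ)ᶜ.val.map b) (Multiset.mem_cons_self _ _) hS w hw hw' (by
    intro x hx
    obtain ⟨c, hc, rfl⟩ := Multiset.mem_map.mp hx
    have hc' : c ∈ ({i, j} : Finset κ)ᶜ := hc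
    rw [Finset.mem_compl, Finset.mem_insert, not_or, Finset.mem_singleton] at hc'
    exact ⟨hb0 c, hm c hc'.1 hc'.2⟩) z hn1 hn2
  rw [sum_compl] at hch
  set S := ∑ c ∈ ({i, j} : Finset κ)ᶜ, b c with hSd
  refine hch.trans ?_
  have hnode : ∀ y : ℕ, y < cnt k → y < cnt (k + 1) → FM (((1 : ℝ) ::ₘ b j ::ₘ 0) + nd w y)
      ≤ ((k : ℝ) + 1 - ((100 : ℕ) : ℝ) * b j) * ((t y k : ℝ) / 10000000)
        + (((100 : ℕ) : ℝ) * b j - k) * ((t y (k + 1) : ℝ) / 10000000) := by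
    intro y hy hy'
    have sw : ∀ x : ℝ, ((1 : ℝ) ::ₘ x ::ₘ 0) + nd w y = x ::ₘ ((1 : ℝ) ::ₘ nd w y) := by
      intro x
      rw [Multiset.cons_swap]
      simp only [Multiset.cons_add, zero_add]
    rw [sw]
    refine lin_le ((1 : ℝ) ::ₘ nd w y) (Multiset.mem_cons_self _ _) ?_ 100 k (by norm_num) (by omega) (b j) _ _
      (by push_cast; exact h1) (by push_cast; exact h2) ?_ ?_
    · intro x hx
      rcases Multiset.mem_cons.mp hx with rfl | hx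
      · exact ⟨zero_le_one, le_rfl⟩
      · exact nd_mem w y hw hw' x hx
    · rw [← sw]
      have := ht y k hk (by omega) hy
      push_cast
      exact this
    · rw [← sw]
      have := ht y (k + 1) (by omega) hk' hy'
      push_cast at this ⊢
      exact this
  have v1 := mul_le_mul_of_nonneg_left (hnode z (by omega) (by omega)) (show 0 ≤ (z : ℝ) + 1 - 40 * S by linarith)
  have v2 := mul_le_mul_of_nonneg_left (hnode (z + 1) hz hz') (show 0 ≤ 40 * S - z by linarith)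
  have e3 : gF t z k (b j) S
      = ((z : ℝ) + 1 - 40 * S) * (((k : ℝ) + 1 - ((100 : ℕ) : ℝ) * b j) * ((t z k : ℝ) / 10000000)
        + (((100 : ℕ) : ℝ) * b j - k) * ((t z (k + 1) : ℝ) / 10000000))
      + (40 * S - z) * (((k : ℝ) + 1 - ((100 : ℕ) : ℝ) * b j) * ((t (z + 1) k : ℝ) / 10000000)
        + (((100 : ℕ) : ℝ) * b j - k) * ((t (z + 1) (k + 1) : ℝ) / 10000000)) := by
    unfold gF
    push_cast
    ring
  rw [e3]
  linarith

/-! ### lists of cells -/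

/-- the check of a list of cells, ending at `Te`; the table index `n = T / 5` is at most `N` -/
noncomputable def cellsG (N : ℕ) (chk : Ce → ℕ → ℕ → ℕ → List (ℕ × ℕ) → Bool) (Te : ℕ) (cs : List Ce) :
    ℕ → ℕ → List (ℕ × ℕ) → Bool :=
  @List.rec Ce (fun _ => ℕ → ℕ → List (ℕ × ℕ) → Bool) (fun T0 _ _ => Nat.ble Te T0)
    (fun c _ ih T0 J suf => dropK c.2.1 suf fun suf => fn (Nat.add J c.2.1) fun J =>
      fn (Nat.div T0 (nat_lit 5)) fun n =>
      cond (Nat.ble (Nat.succ T0) c.2.2.1) (cond (Nat.ble c.2.2.1 (Nat.mul (Nat.succ n) (nat_lit 5)))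
        (cond (Nat.ble n N) (cond (chk c T0 J n suf) (ih c.2.2.1 J suf) false) false) false) false) cs

/-- the cell which contains `S` -/
theorem cellsG_get (N : ℕ) (chk : Ce → ℕ → ℕ → ℕ → List (ℕ × ℕ) → Bool) (Te : ℕ)
    (cs : List Ce) : ∀ (T0 J : ℕ), 15 ≤ J →
    cellsG N chk Te cs T0 J (pr.drop (J - 15)) = true →
    ∀ S : ℝ, (T0 : ℝ) / 200 ≤ S → (cs ≠ [] ∨ (T0 : ℝ) / 200 < S) → S ≤ (Te : ℝ) / 200 →
    ∃ c ∈ cs, ∃ T0 J : ℕ, 15 ≤ J ∧ (T0 : ℝ) / 200 ≤ S ∧ S ≤ (c.2.2.1 : ℝ) / 200 ∧ (T0 / 5) * 5 ≤ T0 ∧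
      T0 < c.2.2.1 ∧ c.2.2.1 ≤ (T0 / 5 + 1) * 5 ∧ T0 / 5 ≤ N ∧
      chk c T0 J (T0 / 5) (pr.drop (J - 15)) = true := by
  induction cs with
  | nil =>
    intro T0 J _ h S _ h1 h2
    rcases h1 with h1 | h1
    · exact absurd rfl h1
    have h3 : Te ≤ T0 := by
      have : Nat.ble Te T0 = true := h
      rwa [Nat.ble_eq] at this
    have h4 : (Te : ℝ) ≤ T0 := by exact_mod_cast h3
    exact absurd h2 (by push Not; linarith)
  | cons c cs ih =>
    intro T0 J hJ h S h1 _ h2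
    have h' : dropK c.2.1 (pr.drop (J - 15)) (fun suf => fn (Nat.add J c.2.1) fun J => fn (Nat.div T0 5) fun n =>
      cond (Nat.ble (Nat.succ T0) c.2.2.1) (cond (Nat.ble c.2.2.1 (Nat.mul (Nat.succ n) 5)) (cond (Nat.ble n N)
        (cond (chk c T0 J n suf) (cellsG N chk Te cs c.2.2.1 J suf) false) false) false) false) = true := h
    rw [dropK_eq, fn_eq, fn_eq] at h'
    obtain ⟨a1, h'⟩ := IA.cond_and h'
    obtain ⟨a2, h'⟩ := IA.cond_and h'
    obtain ⟨a3, h'⟩ := IA.cond_and h'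
    obtain ⟨g1, g2⟩ := IA.cond_and h'
    rw [Nat.ble_eq] at a1 a2 a3
    have e : (pr.drop (J - 15)).drop c.2.1 = pr.drop (J + c.2.1 - 15) := by
      rw [List.drop_drop]
      congr 1
      omega
    rw [e] at g1 g2
    have hJ' : 15 ≤ J + c.2.1 := by omega
    rcases le_or_gt S ((c.2.2.1 : ℝ) / 200) with hS | hS
    · exact ⟨c, by simp, T0, J + c.2.1, hJ', h1, hS, Nat.div_mul_le_self _ _, a1, a2, a3, g1⟩
    · obtain ⟨c', hc', T, J', r1, r2, r3, r4, r5, r6, r7, r8⟩ := ih c.2.2.1 (J + c.2.1) hJ' g2 S hS.le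
        (Or.inr hS) h2
      exact ⟨c', by simp [hc'], T, J', r1, r2, r3, r4, r5, r6, r7, r8⟩

/-! ### one cell -/

/-- value of the line at the corner, over `2 * 10^8` -/
def lc (P sl J H T : ℕ) : ℕ :=
  Nat.mul 5 (Nat.add (Nat.mul 4 P) (Nat.mul sl (Nat.sub (Nat.add H T) (Nat.mul 4 J))))

/-- value of the bound of the row function at the corner, over `2 * 10^8` -/
def uc (x y A A' : ℕ) : ℕ := Nat.mul 2 (Nat.add (Nat.mul x A) (Nat.mul y A'))

/-- the interpolated table value over `2 * 10^7` -/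
def gN (t : ℕ → ℕ → ℕ) (k H n : ℕ) : ℕ :=
  Nat.add (Nat.mul (Nat.sub (Nat.mul 2 (Nat.succ k)) H) (t n k)) (Nat.mul (Nat.sub H (Nat.mul 2 k)) (t n (Nat.succ k)))

/-- the check of one cell `[H0, H1] x [T0, T1]`; `z = 1`: not bad; else multiplier `z / 1000` -/
noncomputable def cellOK (H0 H1 c0 c1 d0 d1 w2 aM r e0 e1 n A0 A0' A1 A1' z T0 T1 J P sl : ℕ) : Bool :=
  fn (Nat.sub (Nat.mul 5 (Nat.succ n)) T0) fun x0 => fn (Nat.sub T0 (Nat.mul 5 n)) fun y0 =>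
  fn (Nat.sub (Nat.mul 5 (Nat.succ n)) T1) fun x1 => fn (Nat.sub T1 (Nat.mul 5 n)) fun y1 =>
  fn (uc x0 y0 A0 A0') fun u00 => fn (uc x1 y1 A0 A0') fun u01 =>
  fn (uc x0 y0 A1 A1') fun u10 => fn (uc x1 y1 A1 A1') fun u11 =>
  fn (lc P sl J H0 T0) fun l00 => fn (lc P sl J H0 T1) fun l01 =>
  fn (lc P sl J H1 T0) fun l10 => fn (lc P sl J H1 T1) fun l11 =>
  cond (Nat.beq z 1) (cond (Nat.ble u00 l00) (cond (Nat.ble u01 l01) (cond (Nat.ble u10 l10)
    (Nat.ble u11 l11) false) false) false)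
  (fn (Nat.mul 200000 z) fun lam =>
  fn (Nat.add (Nat.mul 200 c0) lam) fun q0 => fn (Nat.add (Nat.mul 200 c1) lam) fun q1 =>
  fn (Nat.add q0 (Nat.mul d0 T0)) fun k00 => fn (Nat.add q0 (Nat.mul d0 T1)) fun k01 =>
  fn (Nat.add q1 (Nat.mul d1 T0)) fun k10 => fn (Nat.add q1 (Nat.mul d1 T1)) fun k11 =>
  fn (Nat.add (Nat.mul w2 u00) (Nat.mul aM T0)) fun b00 => fn (Nat.add (Nat.mul w2 u01) (Nat.mul aM T1)) fun b01 =>
  fn (Nat.add (Nat.mul w2 u10) (Nat.mul aM T0)) fun b10 => fn (Nat.add (Nat.mul w2 u11) (Nat.mul aM T1)) fun b11 =>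
  cond (nine u00 u01 u10 u11 l00 l01 l10 l11 k00 k01 k10 k11 b00 b01 b10 b11 r)
    (fn (Nat.add b00 (Nat.mul e0 T0)) fun f00 => fn (Nat.add b01 (Nat.mul e0 T1)) fun f01 =>
     fn (Nat.add b10 (Nat.mul e1 T0)) fun f10 => fn (Nat.add b11 (Nat.mul e1 T1)) fun f11 =>
     nine u00 u01 u10 u11 l00 l01 l10 l11 q0 q0 q1 q1 f00 f01 f10 f11 r) false)

theorem uc_real (t : ℕ → ℕ → ℕ) (k n H T : ℕ) (h1 : 2 * k ≤ H) (h2 : H ≤ 2 * (k + 1))
    (h3 : n * 5 ≤ T) (h4 : T ≤ (n + 1) * 5) :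
    ((uc (Nat.sub (Nat.mul 5 (Nat.succ n)) T) (Nat.sub T (Nat.mul 5 n)) (gN t k H n) (gN t k H (n + 1)) : ℕ) : ℝ)
      = 2 * ((((n : ℝ) + 1) * 5 - T) * ((2 * ((k : ℝ) + 1) - H) * t n k + (H - 2 * k) * t n (k + 1))
        + (T - n * 5) * ((2 * ((k : ℝ) + 1) - H) * t (n + 1) k + (H - 2 * k) * t (n + 1) (k + 1))) := by
  have e1 : uc (Nat.sub (Nat.mul 5 (Nat.succ n)) T) (Nat.sub T (Nat.mul 5 n)) (gN t k H n) (gN t k H (n + 1))
      = 2 * ((5 * (n + 1) - T) * ((2 * (k + 1) - H) * t n k + (H - 2 * k) * t n (k + 1))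
        + (T - 5 * n) * ((2 * (k + 1) - H) * t (n + 1) k + (H - 2 * k) * t (n + 1) (k + 1))) := rfl
  rw [e1]
  have h3' : 5 * n ≤ T := by omega
  have h4' : T ≤ 5 * (n + 1) := by omega
  push_cast [Nat.cast_sub h1, Nat.cast_sub h2, Nat.cast_sub h3', Nat.cast_sub h4']
  ring

theorem lc_real (P sl J H T : ℕ) (h : 4 * J ≤ H + T) :
    ((lc P sl J H T : ℕ) : ℝ) = 5 * (4 * P + sl * ((H : ℝ) + T - 4 * J)) := by
  have e1 : lc P sl J H T = 5 * (4 * P + sl * (H + T - 4 * J)) := rfl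
  rw [e1]
  push_cast [Nat.cast_sub h]
  ring

theorem gF_scaled (t : ℕ → ℕ → ℕ) (k n : ℕ) (h S : ℝ) :
    200000000 * gF t n k h S
      = 2 * ((((n : ℝ) + 1) * 5 - 200 * S) * ((2 * ((k : ℝ) + 1) - 200 * h) * t n k + (200 * h - 2 * k) * t n (k + 1))
        + (200 * S - n * 5) * ((2 * ((k : ℝ) + 1) - 200 * h) * t (n + 1) k
          + (200 * h - 2 * k) * t (n + 1) (k + 1))) := by
  unfold gF
  ring

/-- SOUNDNESS OF A CELL. -/
theorem cell_sound (t : ℕ → ℕ → ℕ) (k H0 H1 c0 c1 d0 d1 wN aN rN dN n z T0 T1 J P sl : ℕ)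
    (hH : H0 < H1) (hk0 : 2 * k ≤ H0) (hk1 : H1 ≤ 2 * (k + 1)) (hH0 : 0 < H0)
    (hH1 : H1 ≤ 200)
    (hT : T0 < T1) (hn0 : n * 5 ≤ T0) (hn1 : T1 ≤ (n + 1) * 5) (hJ : 4 * J ≤ H0 + T0)
    (hc0 : (4 - (H0 : ℝ) / 200) / (3 * ((H0 : ℝ) / 200)) ≤ (c0 : ℝ) / 1000000)
    (hc1 : (4 - (H1 : ℝ) / 200) / (3 * ((H1 : ℝ) / 200)) ≤ (c1 : ℝ) / 1000000)
    (hd0 : 4 / (3 * ((H0 : ℝ) / 200) ^ 2) ≤ (d0 : ℝ) / 1000000)
    (hd1 : 4 / (3 * ((H1 : ℝ) / 200) ^ 2) ≤ (d1 : ℝ) / 1000000)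
    (hchk : cellOK H0 H1 c0 c1 d0 d1 (200 * wN) (aN * 200000000) (rN * 40000000000)
      (20 * dN * d0) (20 * dN * d1) n (gN t k H0 n) (gN t k H0 (n + 1)) (gN t k H1 n)
      (gN t k H1 (n + 1)) z T0 T1 J P sl = true)
    (h S Fv W : ℝ) (h0 : (H0 : ℝ) / 200 ≤ h) (h1 : h ≤ (H1 : ℝ) / 200) (s0 : (T0 : ℝ) / 200 ≤ S)
    (s1 : S ≤ (T1 : ℝ) / 200) (hF : Fv ≤ gF t n k h S)
    (hL : ((P : ℝ) + sl * (50 * (h + S) - J)) / 10000000 ≤ W) :
    (z = 1 → Fv ≤ W) ∧ (z ≠ 1 → 0 < Fv - W →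
      ((Fv - W) * (4 * h - h ^ 2) + 4 * S * max (Fv - W) ((dN : ℝ) / 10000000)) / (3 * h ^ 2)
        + (wN : ℝ) / 1000000 * Fv + (aN : ℝ) / 1000000 * S ≤ (rN : ℝ) / 1000000) := by
  have hHR : (H0 : ℝ) < H1 := by exact_mod_cast hH
  have hTR : (T0 : ℝ) < T1 := by exact_mod_cast hT
  have hH0R : (0 : ℝ) < H0 := by exact_mod_cast hH0
  set u : ℝ := (200 * h - H0) / (H1 - H0) with hu
  set v : ℝ := (200 * S - T0) / (T1 - T0) with hv
  have hu0 : 0 ≤ u := div_nonneg (by linarith) (by linarith)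
  have hu1 : u ≤ 1 := (div_le_one (by linarith)).mpr (by linarith)
  have hv0 : 0 ≤ v := div_nonneg (by linarith) (by linarith)
  have hv1 : v ≤ 1 := (div_le_one (by linarith)).mpr (by linarith)
  have hh : 200 * h = H0 + u * (H1 - H0) := by
    rw [hu, div_mul_cancel₀ _ (by linarith : (H1 : ℝ) - H0 ≠ 0)]
    ring
  have hS : 200 * S = T0 + v * (T1 - T0) := by
    rw [hv, div_mul_cancel₀ _ (by linarith : (T1 : ℝ) - T0 ≠ 0)]
    ring
  unfold cellOK at hchk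
  simp only [fn_eq] at hchk
  -- the interpolations
  have hU : bil (uc (Nat.sub (Nat.mul 5 (Nat.succ n)) T0) (Nat.sub T0 (Nat.mul 5 n)) (gN t k H0 n) (gN t k H0 (n + 1)) : ℕ)
      (uc (Nat.sub (Nat.mul 5 (Nat.succ n)) T1) (Nat.sub T1 (Nat.mul 5 n)) (gN t k H0 n) (gN t k H0 (n + 1)) : ℕ)
      (uc (Nat.sub (Nat.mul 5 (Nat.succ n)) T0) (Nat.sub T0 (Nat.mul 5 n)) (gN t k H1 n) (gN t k H1 (n + 1)) : ℕ)
      (uc (Nat.sub (Nat.mul 5 (Nat.succ n)) T1) (Nat.sub T1 (Nat.mul 5 n)) (gN t k H1 n) (gN t k H1 (n + 1)) : ℕ) u v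
      = 200000000 * gF t n k h S := by
    rw [gF_scaled t k n h S, uc_real t k n H0 T0 hk0 (by omega) hn0 (by omega),
      uc_real t k n H0 T1 hk0 (by omega) (by omega) hn1,
      uc_real t k n H1 T0 (by omega) hk1 hn0 (by omega),
      uc_real t k n H1 T1 (by omega) hk1 (by omega) hn1, hh, hS]
    generalize (t n k : ℝ) = x1
    generalize (t n (k + 1) : ℝ) = x2
    generalize (t (n + 1) k : ℝ) = x3
    generalize (t (n + 1) (k + 1) : ℝ) = x4
    unfold bil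
    ring
  have hLb : bil (lc P sl J H0 T0 : ℕ) (lc P sl J H0 T1 : ℕ) (lc P sl J H1 T0 : ℕ)
      (lc P sl J H1 T1 : ℕ) u v
      = 200000000 * (((P : ℝ) + sl * (50 * (h + S) - J)) / 10000000) := by
    rw [lc_real P sl J H0 T0 hJ, lc_real P sl J H0 T1 (by omega), lc_real P sl J H1 T0 (by omega),
      lc_real P sl J H1 T1 (by omega)]
    have e : (50 : ℝ) * (h + S) = ((H0 + u * (H1 - H0)) + (T0 + v * (T1 - T0))) / 4 := by
      rw [← hh, ← hS]; ring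
    rw [e]
    unfold bil
    ring
  generalize uc (Nat.sub (Nat.mul 5 (Nat.succ n)) T0) (Nat.sub T0 (Nat.mul 5 n)) (gN t k H0 n)
    (gN t k H0 (n + 1)) = u00 at hchk hU
  generalize uc (Nat.sub (Nat.mul 5 (Nat.succ n)) T1) (Nat.sub T1 (Nat.mul 5 n)) (gN t k H0 n)
    (gN t k H0 (n + 1)) = u01 at hchk hU
  generalize uc (Nat.sub (Nat.mul 5 (Nat.succ n)) T0) (Nat.sub T0 (Nat.mul 5 n)) (gN t k H1 n)
    (gN t k H1 (n + 1)) = u10 at hchk hU
  generalize uc (Nat.sub (Nat.mul 5 (Nat.succ n)) T1) (Nat.sub T1 (Nat.mul 5 n)) (gN t k H1 n)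
    (gN t k H1 (n + 1)) = u11 at hchk hU
  generalize lc P sl J H0 T0 = l00 at hchk hLb
  generalize lc P sl J H0 T1 = l01 at hchk hLb
  generalize lc P sl J H1 T0 = l10 at hchk hLb
  generalize lc P sl J H1 T1 = l11 at hchk hLb
  set U := gF t n k h S with hUdef
  set L := ((P : ℝ) + sl * (50 * (h + S) - J)) / 10000000 with hLdef
  refine ⟨fun hz => ?_, fun hz hD => ?_⟩
  · rw [hz, show Nat.beq 1 1 = true from rfl, cond_true] at hchk
    obtain ⟨g1, hchk⟩ := IA.cond_and hchk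
    obtain ⟨g2, hchk⟩ := IA.cond_and hchk
    obtain ⟨g3, g4⟩ := IA.cond_and hchk
    rw [Nat.ble_eq] at g1 g2 g3 g4
    have cst : ∀ a b : ℕ, a ≤ b → (a : ℝ) - b ≤ 0 := fun a b hab => by
      have : (a : ℝ) ≤ b := by exact_mod_cast hab
      linarith
    have := bil_nonpos _ _ _ _ u v hu0 hu1 hv0 hv1 (cst _ _ g1) (cst _ _ g2) (cst _ _ g3) (cst _ _ g4)
    rw [bil_sub, hU, hLb] at this
    linarith
  · have hbz : Nat.beq z 1 = false := by
      cases hb : Nat.beq z 1 with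
      | false => rfl
      | true => exact absurd (Nat.eq_of_beq_eq_true hb) hz
    rw [hbz, cond_false] at hchk
    obtain ⟨g1, g2⟩ := IA.cond_and hchk
    have n1 := nine_sound _ _ _ _ _ _ _ _ _ _ _ _ _ _ _ _ _ g1 u v hu0 hu1 hv0 hv1
    have n2 := nine_sound _ _ _ _ _ _ _ _ _ _ _ _ _ _ _ _ _ g2 u v hu0 hu1 hv0 hv1
    clear g1 g2 hchk
    rw [hU, hLb] at n1 n2
    set lam : ℝ := (z : ℝ) / 1000 with hlam
    set c : ℝ := ((1 - u) * c0 + u * c1) / 1000000 with hc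
    set d : ℝ := ((1 - u) * d0 + u * d1) / 1000000 with hd
    have hK1 : bil (Nat.add (Nat.add (Nat.mul 200 c0) (Nat.mul 200000 z)) (Nat.mul d0 T0) : ℕ)
        (Nat.add (Nat.add (Nat.mul 200 c0) (Nat.mul 200000 z)) (Nat.mul d0 T1) : ℕ)
        (Nat.add (Nat.add (Nat.mul 200 c1) (Nat.mul 200000 z)) (Nat.mul d1 T0) : ℕ)
        (Nat.add (Nat.add (Nat.mul 200 c1) (Nat.mul 200000 z)) (Nat.mul d1 T1) : ℕ) u v
        = 200000000 * (c + lam + d * S) := by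
      have e : (200000000 : ℝ) * (c + lam + d * S) = 200 * ((1 - u) * c0 + u * c1) + 200000 * z
          + ((1 - u) * d0 + u * d1) * (200 * S) := by
        rw [hc, hd, hlam]; ring
      rw [e, hS]
      simp only [Nat.add_eq, Nat.mul_eq]
      push_cast
      unfold bil
      ring
    have hK2 : bil (Nat.add (Nat.mul 200 c0) (Nat.mul 200000 z) : ℕ) (Nat.add (Nat.mul 200 c0) (Nat.mul 200000 z) : ℕ)
        (Nat.add (Nat.mul 200 c1) (Nat.mul 200000 z) : ℕ) (Nat.add (Nat.mul 200 c1) (Nat.mul 200000 z) : ℕ) u v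
        = 200000000 * (c + lam) := by
      have e : (200000000 : ℝ) * (c + lam) = 200 * ((1 - u) * c0 + u * c1) + 200000 * z := by
        rw [hc, hlam]; ring
      rw [e]
      simp only [Nat.add_eq, Nat.mul_eq]
      push_cast
      unfold bil
      ring
    have hB1 : bil (Nat.add (Nat.mul (200 * wN) u00) (Nat.mul (aN * 200000000) T0) : ℕ)
        (Nat.add (Nat.mul (200 * wN) u01) (Nat.mul (aN * 200000000) T1) : ℕ)
        (Nat.add (Nat.mul (200 * wN) u10) (Nat.mul (aN * 200000000) T0) : ℕ)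
        (Nat.add (Nat.mul (200 * wN) u11) (Nat.mul (aN * 200000000) T1) : ℕ) u v
        = 40000000000000000 * ((wN : ℝ) / 1000000 * U + (aN : ℝ) / 1000000 * S) := by
      have e : 40000000000000000 * ((wN : ℝ) / 1000000 * U + (aN : ℝ) / 1000000 * S)
          = 200 * wN * (200000000 * U) + aN * 200000000 * (200 * S) := by ring
      rw [e, ← hU, hS]
      simp only [Nat.add_eq, Nat.mul_eq]
      push_cast
      unfold bil
      ring
    have hB2 : bil (Nat.add (Nat.add (Nat.mul (200 * wN) u00) (Nat.mul (aN * 200000000) T0))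
          (Nat.mul (20 * dN * d0) T0) : ℕ)
        (Nat.add (Nat.add (Nat.mul (200 * wN) u01) (Nat.mul (aN * 200000000) T1))
          (Nat.mul (20 * dN * d0) T1) : ℕ)
        (Nat.add (Nat.add (Nat.mul (200 * wN) u10) (Nat.mul (aN * 200000000) T0))
          (Nat.mul (20 * dN * d1) T0) : ℕ)
        (Nat.add (Nat.add (Nat.mul (200 * wN) u11) (Nat.mul (aN * 200000000) T1))
          (Nat.mul (20 * dN * d1) T1) : ℕ) u v
        = 40000000000000000 * ((wN : ℝ) / 1000000 * U + (aN : ℝ) / 1000000 * S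
          + (dN : ℝ) / 10000000 * (d * S)) := by
      have e : 40000000000000000 * ((wN : ℝ) / 1000000 * U + (aN : ℝ) / 1000000 * S
          + (dN : ℝ) / 10000000 * (d * S))
          = 200 * wN * (200000000 * U) + aN * 200000000 * (200 * S)
            + 20 * dN * (((1 - u) * d0 + u * d1) * (200 * S)) := by rw [hd]; ring
      rw [e, ← hU, hS]
      simp only [Nat.add_eq, Nat.mul_eq]
      push_cast
      unfold bil
      ring
    rw [hK1, hB1] at n1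
    rw [hK2, hB2] at n2
    have hr : ((rN * 40000000000 : ℕ) : ℝ) = 40000000000000000 * ((rN : ℝ) / 1000000) := by
      push_cast; ring
    rw [hr] at n1 n2
    have E1 : (U - L) * (c + lam + d * S) + ((wN : ℝ) / 1000000 * U + (aN : ℝ) / 1000000 * S)
        ≤ (rN : ℝ) / 1000000 := by
      refine le_of_mul_le_mul_left ?_ (show (0 : ℝ) < 40000000000000000 by norm_num)
      linarith only [n1]
    have E2 : (U - L) * (c + lam) + ((wN : ℝ) / 1000000 * U + (aN : ℝ) / 1000000 * S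
        + (dN : ℝ) / 10000000 * (d * S)) ≤ (rN : ℝ) / 1000000 := by
      refine le_of_mul_le_mul_left ?_ (show (0 : ℝ) < 40000000000000000 by norm_num)
      linarith only [n2]
    have hH1R : (H1 : ℝ) ≤ 200 := by exact_mod_cast hH1
    have ehh : h = (1 - u) * ((H0 : ℝ) / 200) + u * ((H1 : ℝ) / 200) := by linarith only [hh]
    have hcc := chord_c ((H0 : ℝ) / 200) ((H1 : ℝ) / 200) u _ _ (by positivity) (by linarith) hu0 hu1 hc0 hc1
    have hdd := chord_d ((H0 : ℝ) / 200) ((H1 : ℝ) / 200) u _ _ (by positivity) (by linarith) hu0 hu1 hd0 hd1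
    rw [← ehh] at hcc hdd
    exact need_lam Fv W h S _ _ _ _ U L c d lam (by positivity) (by linarith) (by linarith)
      (by linarith [show (0 : ℝ) ≤ (T0 : ℝ) / 200 by positivity])
      (by positivity) hD hF hL (hcc.trans (le_of_eq (by rw [hc]; ring))) (hdd.trans (le_of_eq (by rw [hd]; ring)))
      E1 E2

end RG
end Fr
end Pool.Agent.Lib.MP_6947cd_al
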