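import Pool.Agent.Lib.MP_6947cd_al.L.RowG

/-!
Problem MP_6947cd_al (Chollet).  Part (I) with a second special entry: for a bad row `(1; h, σ, ...)` with all
other entries at most `m`, an upper bound for `need + w F + a S' + (a linear function of σ)`; node steps `1/100`
in `h`, `1/40` in `σ` and in the sum of the others.
-/

set_option autoImplicit false
open Finset

namespace Pool.Agent.Lib.MP_6947cd_al
namespace Fr
namespace G3

open Ent WT RT RI TZ RG

/-! ### trilinear functions -/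

/-- trilinear interpolation -/
noncomputable def tri (z000 z001 z010 z011 z100 z101 z110 z111 u w v : ℝ) : ℝ :=
  bil ((1 - v) * z000 + v * z001) ((1 - v) * z010 + v * z011) ((1 - v) * z100 + v * z101)
    ((1 - v) * z110 + v * z111) u w

lemma quad (A A0 A1 A2 R v : ℝ) (hv0 : 0 ≤ v) (hv1 : v ≤ 1)
    (hA : A = (1 - v) ^ 2 * A0 + (1 - v) * v * A1 + v ^ 2 * A2) (h0 : A0 ≤ R) (h1 : A1 ≤ 2 * R)
    (h2 : A2 ≤ R) : A ≤ R := by
  have hp : 0 ≤ 1 - v := by linarith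
  have e0 := mul_le_mul_of_nonneg_left h0 (pow_nonneg hp 2)
  have e1 := mul_le_mul_of_nonneg_left h1 (mul_nonneg hp hv0)
  have e2 := mul_le_mul_of_nonneg_left h2 (pow_nonneg hv0 2)
  have e3 : (1 - v) ^ 2 * R + (1 - v) * v * (2 * R) + v ^ 2 * R = R := by ring
  rw [hA]
  linarith

theorem bern3 (z000 z001 z010 z011 z100 z101 z110 z111 k000 k001 k010 k011 k100 k101 k110 k111
    b000 b001 b010 b011 b100 b101 b110 b111 r u w v : ℝ) (hu0 : 0 ≤ u) (hu1 : u ≤ 1)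
    (hw0 : 0 ≤ w) (hw1 : w ≤ 1) (hv0 : 0 ≤ v) (hv1 : v ≤ 1)
    (p000 : z000 * k000 + b000 ≤ r) (p001 : z001 * k001 + b001 ≤ r) (p010 : z010 * k010 + b010 ≤ r)
    (p011 : z011 * k011 + b011 ≤ r) (p100 : z100 * k100 + b100 ≤ r) (p101 : z101 * k101 + b101 ≤ r)
    (p110 : z110 * k110 + b110 ≤ r) (p111 : z111 * k111 + b111 ≤ r)
    -- edges in the last direction
    (q00 : z000 * k001 + z001 * k000 + b000 + b001 ≤ 2 * r)
    (q01 : z010 * k011 + z011 * k010 + b010 + b011 ≤ 2 * r)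
    (q10 : z100 * k101 + z101 * k100 + b100 + b101 ≤ 2 * r)
    (q11 : z110 * k111 + z111 * k110 + b110 + b111 ≤ 2 * r)
    -- edges in the middle direction
    (m00 : z000 * k010 + z010 * k000 + b000 + b010 ≤ 2 * r)
    (m01 : z001 * k011 + z011 * k001 + b001 + b011 ≤ 2 * r)
    (m10 : z100 * k110 + z110 * k100 + b100 + b110 ≤ 2 * r)
    (m11 : z101 * k111 + z111 * k101 + b101 + b111 ≤ 2 * r)
    -- edges in the first direction
    (f00 : z000 * k100 + z100 * k000 + b000 + b100 ≤ 2 * r)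
    (f01 : z001 * k101 + z101 * k001 + b001 + b101 ≤ 2 * r)
    (f10 : z010 * k110 + z110 * k010 + b010 + b110 ≤ 2 * r)
    (f11 : z011 * k111 + z111 * k011 + b011 + b111 ≤ 2 * r)
    -- faces
    (g0 : z000 * k011 + z011 * k000 + z001 * k010 + z010 * k001 + b000 + b001 + b010 + b011 ≤ 4 * r)
    (g1 : z100 * k111 + z111 * k100 + z101 * k110 + z110 * k101 + b100 + b101 + b110 + b111 ≤ 4 * r)
    (h0 : z000 * k101 + z101 * k000 + z001 * k100 + z100 * k001 + b000 + b001 + b100 + b101 ≤ 4 * r)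
    (h1 : z010 * k111 + z111 * k010 + z011 * k110 + z110 * k011 + b010 + b011 + b110 + b111 ≤ 4 * r)
    (i0 : z000 * k110 + z110 * k000 + z010 * k100 + z100 * k010 + b000 + b010 + b100 + b110 ≤ 4 * r)
    (i1 : z001 * k111 + z111 * k001 + z011 * k101 + z101 * k011 + b001 + b011 + b101 + b111 ≤ 4 * r)
    -- centre
    (ce : z000 * k111 + z111 * k000 + z001 * k110 + z110 * k001 + z010 * k101 + z101 * k010
      + z011 * k100 + z100 * k011 + b000 + b001 + b010 + b011 + b100 + b101 + b110 + b111 ≤ 8 * r) :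
    tri z000 z001 z010 z011 z100 z101 z110 z111 u w v * tri k000 k001 k010 k011 k100 k101 k110 k111 u w v
      + tri b000 b001 b010 b011 b100 b101 b110 b111 u w v ≤ r := by
  unfold tri
  refine bern _ _ _ _ _ _ _ _ _ _ _ _ r u w hu0 hu1 hw0 hw1 ?_ ?_ ?_ ?_ ?_ ?_ ?_ ?_ ?_
  · exact quad _ _ _ _ r v hv0 hv1 (by ring) p000 (by linarith only [q00] : z000 * k001 + z001 * k000 + b000 + b001 ≤ _) p001
  · exact quad _ _ _ _ r v hv0 hv1 (by ring) p010 (by linarith only [q01] : z010 * k011 + z011 * k010 + b010 + b011 ≤ _) p011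
  · exact quad _ _ _ _ r v hv0 hv1 (by ring) p100 (by linarith only [q10] : z100 * k101 + z101 * k100 + b100 + b101 ≤ _) p101
  · exact quad _ _ _ _ r v hv0 hv1 (by ring) p110 (by linarith only [q11] : z110 * k111 + z111 * k110 + b110 + b111 ≤ _) p111
  · exact quad _ _ _ _ (2 * r) v hv0 hv1 (by ring) m00
      (by linarith only [g0] : z000 * k011 + z011 * k000 + z001 * k010 + z010 * k001 + b000 + b001 + b010 + b011 ≤ _) m01
  · exact quad _ _ _ _ (2 * r) v hv0 hv1 (by ring) m10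
      (by linarith only [g1] : z100 * k111 + z111 * k100 + z101 * k110 + z110 * k101 + b100 + b101 + b110 + b111 ≤ _) m11
  · exact quad _ _ _ _ (2 * r) v hv0 hv1 (by ring) f00
      (by linarith only [h0] : z000 * k101 + z101 * k000 + z001 * k100 + z100 * k001 + b000 + b001 + b100 + b101 ≤ _) f01
  · exact quad _ _ _ _ (2 * r) v hv0 hv1 (by ring) f10
      (by linarith only [h1] : z010 * k111 + z111 * k010 + z011 * k110 + z110 * k011 + b010 + b011 + b110 + b111 ≤ _) f11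
  · exact quad _ _ _ _ (4 * r) v hv0 hv1 (by ring) i0
      (by linarith only [ce] : z000 * k111 + z111 * k000 + z001 * k110 + z110 * k001 + z010 * k101 + z101 * k010
      + z011 * k100 + z100 * k011 + b000 + b001 + b010 + b011 + b100 + b101 + b110 + b111 ≤ _) i1

theorem tri_nonpos (z000 z001 z010 z011 z100 z101 z110 z111 u w v : ℝ) (hu0 : 0 ≤ u) (hu1 : u ≤ 1)
    (hw0 : 0 ≤ w) (hw1 : w ≤ 1) (hv0 : 0 ≤ v) (hv1 : v ≤ 1) (h1 : z000 ≤ 0) (h2 : z001 ≤ 0) (h3 : z010 ≤ 0)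
    (h4 : z011 ≤ 0) (h5 : z100 ≤ 0) (h6 : z101 ≤ 0) (h7 : z110 ≤ 0) (h8 : z111 ≤ 0) :
    tri z000 z001 z010 z011 z100 z101 z110 z111 u w v ≤ 0 := by
  have hp : 0 ≤ 1 - v := by linarith
  have key : ∀ x y : ℝ, x ≤ 0 → y ≤ 0 → (1 - v) * x + v * y ≤ 0 := by
    intro x y hx hy
    have := mul_nonneg hp (neg_nonneg.mpr hx)
    have := mul_nonneg hv0 (neg_nonneg.mpr hy)
    linarith
  exact bil_nonpos _ _ _ _ u w hu0 hu1 hw0 hw1 (key _ _ h1 h2) (key _ _ h3 h4) (key _ _ h5 h6) (key _ _ h7 h8)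
/-! ### the row function -/

variable {κ : Type} [Fintype κ] [DecidableEq κ]

/-- interpolation of the table -/
noncomputable def gA (t : ℕ → ℕ → ℕ → ℕ) (k q n : ℕ) (h g : ℝ) : ℝ :=
  (((k : ℝ) + 1 - 100 * h) * (((q : ℝ) + 1 - 40 * g) * t n k q + (40 * g - q) * t n k (q + 1))
    + (100 * h - k) * (((q : ℝ) + 1 - 40 * g) * t n (k + 1) q + (40 * g - q) * t n (k + 1) (q + 1))) / 10000000

/-- the trilinear bound of the row function -/
noncomputable def gF3 (t : ℕ → ℕ → ℕ → ℕ) (n k q : ℕ) (h g S : ℝ) : ℝ :=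
  ((n : ℝ) + 1 - 40 * S) * gA t k q n h g + (40 * S - n) * gA t k q (n + 1) h g

/-- THE BOUND OF THE ROW FUNCTION. -/
theorem F_le_gF3 (t : ℕ → ℕ → ℕ → ℕ) (cnt : ℕ → ℕ) (w k0 k1 q0 q1 : ℕ) (ht : Tab3 t cnt w k0 k1 q0 q1)
    (hw : 0 < w) (hw' : w ≤ 40)
    (z k q : ℕ) (hk : k0 ≤ k) (hk' : k + 1 ≤ k1) (hk1 : k1 ≤ 100) (hq : q0 ≤ q) (hq' : q + 1 ≤ q1) (hq1 : q1 ≤ 40)
    (hz : z + 1 < cnt k) (hz' : z + 1 < cnt (k + 1))
    (b : κ → ℝ) (hb0 : ∀ c, 0 ≤ b c)
    (i j l : κ) (hij : i ≠ j) (hil : i ≠ l) (hjl : j ≠ l) (hi : b i = 1)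
    (h1 : (k : ℝ) / 100 ≤ b j) (h2 : b j ≤ ((k : ℝ) + 1) / 100)
    (g1 : (q : ℝ) / 40 ≤ b l) (g2 : b l ≤ ((q : ℝ) + 1) / 40)
    (hm : ∀ c, c ≠ i → c ≠ j → c ≠ l → b c ≤ (w : ℝ) / 40)
    (hn1 : (z : ℝ) / 40 ≤ ∑ c ∈ ({i, j, l} : Finset κ)ᶜ, b c)
    (hn2 : ∑ c ∈ ({i, j, l} : Finset κ)ᶜ, b c ≤ ((z : ℝ) + 1) / 40) :
    F b ≤ gF3 t z k q (b j) (b l) (∑ c ∈ ({i, j, l} : Finset κ)ᶜ, b c) := by
  have hkR : (k : ℝ) + 1 ≤ 100 := by
    have : k + 1 ≤ 100 := by omega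
    exact_mod_cast this
  have hqR : (q : ℝ) + 1 ≤ 40 := by
    have : q + 1 ≤ 40 := by omega
    exact_mod_cast this
  have hj0 := hb0 j
  have hj1 : b j ≤ 1 := by linarith
  have hl0 := hb0 l
  have hl1 : b l ≤ 1 := by linarith
  rw [F_split b {i, j, l}]
  have e : (({i, j, l} : Finset κ).val.map b) = 1 ::ₘ b j ::ₘ b l ::ₘ 0 := by
    rw [Finset.insert_val_of_notMem (by simp [hij, hil]), Finset.insert_val_of_notMem (by simp [hjl])]
    simp [hi]
  rw [e]
  have hS : ∀ z ∈ ((1 : ℝ) ::ₘ b j ::ₘ b l ::ₘ 0), 0 ≤ z ∧ z ≤ 1 := by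
    intro z hz
    simp only [Multiset.mem_cons, Multiset.notMem_zero, or_false] at hz
    rcases hz with rfl | rfl | rfl
    · exact ⟨zero_le_one, le_rfl⟩
    · exact ⟨hj0, hj1⟩
    · exact ⟨hl0, hl1⟩
  have hch := chord ((1 : ℝ) ::ₘ b j ::ₘ b l ::ₘ 0) (({i, j, l} : Finset κ)ᶜ.val.map b) (Multiset.mem_cons_self _ _)
    hS w hw hw' (by
    intro x hx
    obtain ⟨c, hc, rfl⟩ := Multiset.mem_map.mp hx
    have hc' : c ∈ ({i, j, l} : Finset κ)ᶜ := hc
    rw [Finset.mem_compl, Finset.mem_insert, Finset.mem_insert, not_or, not_or, Finset.mem_singleton] at hc'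
    exact ⟨hb0 c, hm c hc'.1 hc'.2.1 hc'.2.2⟩) z hn1 hn2
  rw [sum_compl] at hch
  set S := ∑ c ∈ ({i, j, l} : Finset κ)ᶜ, b c with hSd
  refine hch.trans ?_
  have sw : ∀ (x y : ℝ) (n : ℕ), ((1 : ℝ) ::ₘ x ::ₘ y ::ₘ 0) + nd w n = x ::ₘ ((1 : ℝ) ::ₘ y ::ₘ nd w n) := by
    intro x y n
    rw [Multiset.cons_swap]
    simp only [Multiset.cons_add, zero_add]
  have sw' : ∀ (x y : ℝ) (n : ℕ), ((1 : ℝ) ::ₘ x ::ₘ y ::ₘ 0) + nd w n = y ::ₘ ((1 : ℝ) ::ₘ x ::ₘ nd w n) := by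
    intro x y n
    rw [Multiset.cons_swap x y, sw]
  have hnode : ∀ y : ℕ, y < cnt k → y < cnt (k + 1) → FM (((1 : ℝ) ::ₘ b j ::ₘ b l ::ₘ 0) + nd w y)
      ≤ gA t k q y (b j) (b l) := by
    intro y hy hy'
    have inner : ∀ x : ℕ, k0 ≤ x → x ≤ k1 → y < cnt x → FM (((1 : ℝ) ::ₘ ((x : ℝ) / 100) ::ₘ b l ::ₘ 0) + nd w y)
        ≤ ((q : ℝ) + 1 - ((40 : ℕ) : ℝ) * b l) * ((t y x q : ℝ) / 10000000)
          + (((40 : ℕ) : ℝ) * b l - q) * ((t y x (q + 1) : ℝ) / 10000000) := by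
      intro x hx hx' hyx
      have hx1 : (x : ℝ) ≤ 100 := by
        have : x ≤ 100 := by omega
        exact_mod_cast this
      rw [sw']
      refine lin_le ((1 : ℝ) ::ₘ ((x : ℝ) / 100) ::ₘ nd w y) (Multiset.mem_cons_self _ _) ?_ 40 q (by norm_num)
        (by omega) (b l) _ _ (by push_cast; exact g1) (by push_cast; exact g2) ?_ ?_
      · intro c hc
        rcases Multiset.mem_cons.mp hc with rfl | hc
        · exact ⟨zero_le_one, le_rfl⟩
        rcases Multiset.mem_cons.mp hc with rfl | hc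
        · exact ⟨by positivity, by linarith⟩
        · exact nd_mem w y hw hw' c hc
      · rw [← sw']
        have := ht y x q hx hx' hq (by omega) hyx
        push_cast
        exact this
      · rw [← sw']
        have := ht y x (q + 1) hx hx' (by omega) hq' hyx
        push_cast at this ⊢
        exact this
    rw [sw]
    have i0 := inner k hk (by omega) hy
    have i1 := inner (k + 1) (by omega) hk' hy'
    rw [sw] at i0 i1
    have e100 : (((k + 1 : ℕ) : ℝ) / 100) = ((k : ℝ) + 1) / 100 := by push_cast; ring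
    rw [e100] at i1
    have hlin := lin_le ((1 : ℝ) ::ₘ b l ::ₘ nd w y) (Multiset.mem_cons_self _ _) (by
      intro c hc
      rcases Multiset.mem_cons.mp hc with rfl | hc
      · exact ⟨zero_le_one, le_rfl⟩
      rcases Multiset.mem_cons.mp hc with rfl | hc
      · exact ⟨hl0, hl1⟩
      · exact nd_mem w y hw hw' c hc) 100 k (by norm_num) (by omega) (b j) _ _ (by push_cast; exact h1)
      (by push_cast; exact h2) (by push_cast; exact i0) (by push_cast; exact i1)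
    refine hlin.trans (le_of_eq ?_)
    unfold gA
    push_cast
    ring
  have v1 := mul_le_mul_of_nonneg_left (hnode z (by omega) (by omega)) (show 0 ≤ (z : ℝ) + 1 - 40 * S by linarith)
  have v2 := mul_le_mul_of_nonneg_left (hnode (z + 1) hz hz') (show 0 ≤ 40 * S - z by linarith)
  unfold gF3
  linarith

/-- the 27 conditions, with `x = z + C` -/
def nine3 (x000 x001 x010 x011 x100 x101 x110 x111 k000 k001 k010 k011 k100 k101 k110 k111 b000 b001 b010 b011 b100 b101 b110 b111 C r : ℕ) : Bool :=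
  (cond (Nat.ble (Nat.add (Nat.mul x000 k000) b000) (Nat.add (Nat.mul C k000) r))
  (cond (Nat.ble (Nat.add (Nat.mul x001 k001) b001) (Nat.add (Nat.mul C k001) r))
  (cond (Nat.ble (Nat.add (Nat.add (Nat.mul x000 k001) (Nat.mul x001 k000)) (Nat.add b000 b001)) (Nat.add (Nat.mul C (Nat.add k000 k001)) (Nat.mul 2 r)))
  (cond (Nat.ble (Nat.add (Nat.mul x010 k010) b010) (Nat.add (Nat.mul C k010) r))
  (cond (Nat.ble (Nat.add (Nat.mul x011 k011) b011) (Nat.add (Nat.mul C k011) r))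
  (cond (Nat.ble (Nat.add (Nat.add (Nat.mul x010 k011) (Nat.mul x011 k010)) (Nat.add b010 b011)) (Nat.add (Nat.mul C (Nat.add k010 k011)) (Nat.mul 2 r)))
  (cond (Nat.ble (Nat.add (Nat.add (Nat.mul x000 k010) (Nat.mul x010 k000)) (Nat.add b000 b010)) (Nat.add (Nat.mul C (Nat.add k000 k010)) (Nat.mul 2 r)))
  (cond (Nat.ble (Nat.add (Nat.add (Nat.mul x001 k011) (Nat.mul x011 k001)) (Nat.add b001 b011)) (Nat.add (Nat.mul C (Nat.add k001 k011)) (Nat.mul 2 r)))
  (cond (Nat.ble (Nat.add (Nat.add (Nat.add (Nat.mul x000 k011) (Nat.mul x001 k010)) (Nat.add (Nat.mul x010 k001) (Nat.mul x011 k000))) (Nat.add (Nat.add b000 b001) (Nat.add b010 b011))) (Nat.add (Nat.mul C (Nat.add (Nat.add k000 k001) (Nat.add k010 k011))) (Nat.mul 4 r)))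
  (cond (Nat.ble (Nat.add (Nat.mul x100 k100) b100) (Nat.add (Nat.mul C k100) r))
  (cond (Nat.ble (Nat.add (Nat.mul x101 k101) b101) (Nat.add (Nat.mul C k101) r))
  (cond (Nat.ble (Nat.add (Nat.add (Nat.mul x100 k101) (Nat.mul x101 k100)) (Nat.add b100 b101)) (Nat.add (Nat.mul C (Nat.add k100 k101)) (Nat.mul 2 r)))
  (cond (Nat.ble (Nat.add (Nat.mul x110 k110) b110) (Nat.add (Nat.mul C k110) r))
  (cond (Nat.ble (Nat.add (Nat.mul x111 k111) b111) (Nat.add (Nat.mul C k111) r))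
  (cond (Nat.ble (Nat.add (Nat.add (Nat.mul x110 k111) (Nat.mul x111 k110)) (Nat.add b110 b111)) (Nat.add (Nat.mul C (Nat.add k110 k111)) (Nat.mul 2 r)))
  (cond (Nat.ble (Nat.add (Nat.add (Nat.mul x100 k110) (Nat.mul x110 k100)) (Nat.add b100 b110)) (Nat.add (Nat.mul C (Nat.add k100 k110)) (Nat.mul 2 r)))
  (cond (Nat.ble (Nat.add (Nat.add (Nat.mul x101 k111) (Nat.mul x111 k101)) (Nat.add b101 b111)) (Nat.add (Nat.mul C (Nat.add k101 k111)) (Nat.mul 2 r)))
  (cond (Nat.ble (Nat.add (Nat.add (Nat.add (Nat.mul x100 k111) (Nat.mul x101 k110)) (Nat.add (Nat.mul x110 k101) (Nat.mul x111 k100))) (Nat.add (Nat.add b100 b101) (Nat.add b110 b111))) (Nat.add (Nat.mul C (Nat.add (Nat.add k100 k101) (Nat.add k110 k111))) (Nat.mul 4 r)))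
  (cond (Nat.ble (Nat.add (Nat.add (Nat.mul x000 k100) (Nat.mul x100 k000)) (Nat.add b000 b100)) (Nat.add (Nat.mul C (Nat.add k000 k100)) (Nat.mul 2 r)))
  (cond (Nat.ble (Nat.add (Nat.add (Nat.mul x001 k101) (Nat.mul x101 k001)) (Nat.add b001 b101)) (Nat.add (Nat.mul C (Nat.add k001 k101)) (Nat.mul 2 r)))
  (cond (Nat.ble (Nat.add (Nat.add (Nat.add (Nat.mul x000 k101) (Nat.mul x001 k100)) (Nat.add (Nat.mul x100 k001) (Nat.mul x101 k000))) (Nat.add (Nat.add b000 b001) (Nat.add b100 b101))) (Nat.add (Nat.mul C (Nat.add (Nat.add k000 k001) (Nat.add k100 k101))) (Nat.mul 4 r)))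
  (cond (Nat.ble (Nat.add (Nat.add (Nat.mul x010 k110) (Nat.mul x110 k010)) (Nat.add b010 b110)) (Nat.add (Nat.mul C (Nat.add k010 k110)) (Nat.mul 2 r)))
  (cond (Nat.ble (Nat.add (Nat.add (Nat.mul x011 k111) (Nat.mul x111 k011)) (Nat.add b011 b111)) (Nat.add (Nat.mul C (Nat.add k011 k111)) (Nat.mul 2 r)))
  (cond (Nat.ble (Nat.add (Nat.add (Nat.add (Nat.mul x010 k111) (Nat.mul x011 k110)) (Nat.add (Nat.mul x110 k011) (Nat.mul x111 k010))) (Nat.add (Nat.add b010 b011) (Nat.add b110 b111))) (Nat.add (Nat.mul C (Nat.add (Nat.add k010 k011) (Nat.add k110 k111))) (Nat.mul 4 r)))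
  (cond (Nat.ble (Nat.add (Nat.add (Nat.add (Nat.mul x000 k110) (Nat.mul x010 k100)) (Nat.add (Nat.mul x100 k010) (Nat.mul x110 k000))) (Nat.add (Nat.add b000 b010) (Nat.add b100 b110))) (Nat.add (Nat.mul C (Nat.add (Nat.add k000 k010) (Nat.add k100 k110))) (Nat.mul 4 r)))
  (cond (Nat.ble (Nat.add (Nat.add (Nat.add (Nat.mul x001 k111) (Nat.mul x011 k101)) (Nat.add (Nat.mul x101 k011) (Nat.mul x111 k001))) (Nat.add (Nat.add b001 b011) (Nat.add b101 b111))) (Nat.add (Nat.mul C (Nat.add (Nat.add k001 k011) (Nat.add k101 k111))) (Nat.mul 4 r)))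
  (Nat.ble (Nat.add (Nat.add (Nat.add (Nat.add (Nat.mul x000 k111) (Nat.mul x001 k110)) (Nat.add (Nat.mul x010 k101) (Nat.mul x011 k100))) (Nat.add (Nat.add (Nat.mul x100 k011) (Nat.mul x101 k010)) (Nat.add (Nat.mul x110 k001) (Nat.mul x111 k000)))) (Nat.add (Nat.add (Nat.add b000 b001) (Nat.add b010 b011)) (Nat.add (Nat.add b100 b101) (Nat.add b110 b111)))) (Nat.add (Nat.mul C (Nat.add (Nat.add (Nat.add k000 k001) (Nat.add k010 k011)) (Nat.add (Nat.add k100 k101) (Nat.add k110 k111)))) (Nat.mul 8 r))) false) false) false) false) false) false) false) false) false) false) false) false) false) false) false) false) false) false) false) false) false) false) false) false) false) false)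

theorem nine3_sound (x000 x001 x010 x011 x100 x101 x110 x111 k000 k001 k010 k011 k100 k101 k110 k111 b000 b001 b010 b011 b100 b101 b110 b111 C r : ℕ)
    (h : nine3 x000 x001 x010 x011 x100 x101 x110 x111 k000 k001 k010 k011 k100 k101 k110 k111 b000 b001 b010 b011 b100 b101 b110 b111 C r = true) (u w v : ℝ)
    (hu0 : 0 ≤ u) (hu1 : u ≤ 1) (hw0 : 0 ≤ w) (hw1 : w ≤ 1) (hv0 : 0 ≤ v) (hv1 : v ≤ 1) :
    tri ((x000 : ℝ) - C) ((x001 : ℝ) - C) ((x010 : ℝ) - C) ((x011 : ℝ) - C) ((x100 : ℝ) - C) ((x101 : ℝ) - C) ((x110 : ℝ) - C) ((x111 : ℝ) - C) u w v * tri k000 k001 k010 k011 k100 k101 k110 k111 u w v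
      + tri b000 b001 b010 b011 b100 b101 b110 b111 u w v ≤ r := by
  unfold nine3 at h
  obtain ⟨c0, h⟩ := IA.cond_and h
  obtain ⟨c1, h⟩ := IA.cond_and h
  obtain ⟨c2, h⟩ := IA.cond_and h
  obtain ⟨c3, h⟩ := IA.cond_and h
  obtain ⟨c4, h⟩ := IA.cond_and h
  obtain ⟨c5, h⟩ := IA.cond_and h
  obtain ⟨c6, h⟩ := IA.cond_and h
  obtain ⟨c7, h⟩ := IA.cond_and h
  obtain ⟨c8, h⟩ := IA.cond_and h
  obtain ⟨c9, h⟩ := IA.cond_and h
  obtain ⟨c10, h⟩ := IA.cond_and h
  obtain ⟨c11, h⟩ := IA.cond_and h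
  obtain ⟨c12, h⟩ := IA.cond_and h
  obtain ⟨c13, h⟩ := IA.cond_and h
  obtain ⟨c14, h⟩ := IA.cond_and h
  obtain ⟨c15, h⟩ := IA.cond_and h
  obtain ⟨c16, h⟩ := IA.cond_and h
  obtain ⟨c17, h⟩ := IA.cond_and h
  obtain ⟨c18, h⟩ := IA.cond_and h
  obtain ⟨c19, h⟩ := IA.cond_and h
  obtain ⟨c20, h⟩ := IA.cond_and h
  obtain ⟨c21, h⟩ := IA.cond_and h
  obtain ⟨c22, h⟩ := IA.cond_and h
  obtain ⟨c23, h⟩ := IA.cond_and h
  obtain ⟨c24, h⟩ := IA.cond_and h
  obtain ⟨c25, h⟩ := IA.cond_and h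
  have c26 := h
  rw [Nat.ble_eq] at c0 c1 c2 c3 c4 c5 c6 c7 c8 c9 c10 c11 c12 c13 c14 c15 c16 c17 c18 c19 c20 c21 c22 c23 c24 c25 c26
  simp only [Nat.add_eq, Nat.mul_eq] at c0 c1 c2 c3 c4 c5 c6 c7 c8 c9 c10 c11 c12 c13 c14 c15 c16 c17 c18 c19 c20 c21 c22 c23 c24 c25 c26
  have d0 : (x000 : ℝ) * k000 + (b000) ≤ C * (k000) + r := by
    have := (Nat.cast_le (α := ℝ)).mpr c0
    push_cast at this
    linarith only [this]
  have d1 : (x001 : ℝ) * k001 + (b001) ≤ C * (k001) + r := by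
    have := (Nat.cast_le (α := ℝ)).mpr c1
    push_cast at this
    linarith only [this]
  have d2 : (x000 : ℝ) * k001 + (x001 : ℝ) * k000 + (b000 + b001) ≤ C * (k000 + k001) + 2 * r := by
    have := (Nat.cast_le (α := ℝ)).mpr c2
    push_cast at this
    linarith only [this]
  have d3 : (x010 : ℝ) * k010 + (b010) ≤ C * (k010) + r := by
    have := (Nat.cast_le (α := ℝ)).mpr c3
    push_cast at this
    linarith only [this]
  have d4 : (x011 : ℝ) * k011 + (b011) ≤ C * (k011) + r := by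
    have := (Nat.cast_le (α := ℝ)).mpr c4
    push_cast at this
    linarith only [this]
  have d5 : (x010 : ℝ) * k011 + (x011 : ℝ) * k010 + (b010 + b011) ≤ C * (k010 + k011) + 2 * r := by
    have := (Nat.cast_le (α := ℝ)).mpr c5
    push_cast at this
    linarith only [this]
  have d6 : (x000 : ℝ) * k010 + (x010 : ℝ) * k000 + (b000 + b010) ≤ C * (k000 + k010) + 2 * r := by
    have := (Nat.cast_le (α := ℝ)).mpr c6
    push_cast at this
    linarith only [this]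
  have d7 : (x001 : ℝ) * k011 + (x011 : ℝ) * k001 + (b001 + b011) ≤ C * (k001 + k011) + 2 * r := by
    have := (Nat.cast_le (α := ℝ)).mpr c7
    push_cast at this
    linarith only [this]
  have d8 : (x000 : ℝ) * k011 + (x001 : ℝ) * k010 + (x010 : ℝ) * k001 + (x011 : ℝ) * k000 + (b000 + b001 + b010 + b011) ≤ C * (k000 + k001 + k010 + k011) + 4 * r := by
    have := (Nat.cast_le (α := ℝ)).mpr c8
    push_cast at this
    linarith only [this]
  have d9 : (x100 : ℝ) * k100 + (b100) ≤ C * (k100) + r := by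
    have := (Nat.cast_le (α := ℝ)).mpr c9
    push_cast at this
    linarith only [this]
  have d10 : (x101 : ℝ) * k101 + (b101) ≤ C * (k101) + r := by
    have := (Nat.cast_le (α := ℝ)).mpr c10
    push_cast at this
    linarith only [this]
  have d11 : (x100 : ℝ) * k101 + (x101 : ℝ) * k100 + (b100 + b101) ≤ C * (k100 + k101) + 2 * r := by
    have := (Nat.cast_le (α := ℝ)).mpr c11
    push_cast at this
    linarith only [this]
  have d12 : (x110 : ℝ) * k110 + (b110) ≤ C * (k110) + r := by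
    have := (Nat.cast_le (α := ℝ)).mpr c12
    push_cast at this
    linarith only [this]
  have d13 : (x111 : ℝ) * k111 + (b111) ≤ C * (k111) + r := by
    have := (Nat.cast_le (α := ℝ)).mpr c13
    push_cast at this
    linarith only [this]
  have d14 : (x110 : ℝ) * k111 + (x111 : ℝ) * k110 + (b110 + b111) ≤ C * (k110 + k111) + 2 * r := by
    have := (Nat.cast_le (α := ℝ)).mpr c14
    push_cast at this
    linarith only [this]
  have d15 : (x100 : ℝ) * k110 + (x110 : ℝ) * k100 + (b100 + b110) ≤ C * (k100 + k110) + 2 * r := by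
    have := (Nat.cast_le (α := ℝ)).mpr c15
    push_cast at this
    linarith only [this]
  have d16 : (x101 : ℝ) * k111 + (x111 : ℝ) * k101 + (b101 + b111) ≤ C * (k101 + k111) + 2 * r := by
    have := (Nat.cast_le (α := ℝ)).mpr c16
    push_cast at this
    linarith only [this]
  have d17 : (x100 : ℝ) * k111 + (x101 : ℝ) * k110 + (x110 : ℝ) * k101 + (x111 : ℝ) * k100 + (b100 + b101 + b110 + b111) ≤ C * (k100 + k101 + k110 + k111) + 4 * r := by
    have := (Nat.cast_le (α := ℝ)).mpr c17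
    push_cast at this
    linarith only [this]
  have d18 : (x000 : ℝ) * k100 + (x100 : ℝ) * k000 + (b000 + b100) ≤ C * (k000 + k100) + 2 * r := by
    have := (Nat.cast_le (α := ℝ)).mpr c18
    push_cast at this
    linarith only [this]
  have d19 : (x001 : ℝ) * k101 + (x101 : ℝ) * k001 + (b001 + b101) ≤ C * (k001 + k101) + 2 * r := by
    have := (Nat.cast_le (α := ℝ)).mpr c19
    push_cast at this
    linarith only [this]
  have d20 : (x000 : ℝ) * k101 + (x001 : ℝ) * k100 + (x100 : ℝ) * k001 + (x101 : ℝ) * k000 + (b000 + b001 + b100 + b101) ≤ C * (k000 + k001 + k100 + k101) + 4 * r := by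
    have := (Nat.cast_le (α := ℝ)).mpr c20
    push_cast at this
    linarith only [this]
  have d21 : (x010 : ℝ) * k110 + (x110 : ℝ) * k010 + (b010 + b110) ≤ C * (k010 + k110) + 2 * r := by
    have := (Nat.cast_le (α := ℝ)).mpr c21
    push_cast at this
    linarith only [this]
  have d22 : (x011 : ℝ) * k111 + (x111 : ℝ) * k011 + (b011 + b111) ≤ C * (k011 + k111) + 2 * r := by
    have := (Nat.cast_le (α := ℝ)).mpr c22
    push_cast at this
    linarith only [this]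
  have d23 : (x010 : ℝ) * k111 + (x011 : ℝ) * k110 + (x110 : ℝ) * k011 + (x111 : ℝ) * k010 + (b010 + b011 + b110 + b111) ≤ C * (k010 + k011 + k110 + k111) + 4 * r := by
    have := (Nat.cast_le (α := ℝ)).mpr c23
    push_cast at this
    linarith only [this]
  have d24 : (x000 : ℝ) * k110 + (x010 : ℝ) * k100 + (x100 : ℝ) * k010 + (x110 : ℝ) * k000 + (b000 + b010 + b100 + b110) ≤ C * (k000 + k010 + k100 + k110) + 4 * r := by
    have := (Nat.cast_le (α := ℝ)).mpr c24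
    push_cast at this
    linarith only [this]
  have d25 : (x001 : ℝ) * k111 + (x011 : ℝ) * k101 + (x101 : ℝ) * k011 + (x111 : ℝ) * k001 + (b001 + b011 + b101 + b111) ≤ C * (k001 + k011 + k101 + k111) + 4 * r := by
    have := (Nat.cast_le (α := ℝ)).mpr c25
    push_cast at this
    linarith only [this]
  have d26 : (x000 : ℝ) * k111 + (x001 : ℝ) * k110 + (x010 : ℝ) * k101 + (x011 : ℝ) * k100 + (x100 : ℝ) * k011 + (x101 : ℝ) * k010 + (x110 : ℝ) * k001 + (x111 : ℝ) * k000 + (b000 + b001 + b010 + b011 + b100 + b101 + b110 + b111) ≤ C * (k000 + k001 + k010 + k011 + k100 + k101 + k110 + k111) + 8 * r := by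
    have := (Nat.cast_le (α := ℝ)).mpr c26
    push_cast at this
    linarith only [this]
  exact bern3 _ _ _ _ _ _ _ _ _ _ _ _ _ _ _ _ _ _ _ _ _ _ _ _ r u w v hu0 hu1 hw0 hw1 hv0 hv1
    (by linarith only [d0]) (by linarith only [d1]) (by linarith only [d3]) (by linarith only [d4]) (by linarith only [d9]) (by linarith only [d10]) (by linarith only [d12]) (by linarith only [d13]) (by linarith only [d2]) (by linarith only [d5]) (by linarith only [d11]) (by linarith only [d14]) (by linarith only [d6]) (by linarith only [d7]) (by linarith only [d15]) (by linarith only [d16]) (by linarith only [d18]) (by linarith only [d19]) (by linarith only [d21]) (by linarith only [d22]) (by linarith only [d8]) (by linarith only [d17]) (by linarith only [d20]) (by linarith only [d23]) (by linarith only [d24]) (by linarith only [d25]) (by linarith only [d26])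
/-- interpolation of a function which is affine in each variable -/
theorem tri_affine (f : ℝ → ℝ → ℝ → ℝ) (H0 H1 G0 G1 T0 T1 u w v : ℝ)
    (hH : ∀ g s, f ((1 - u) * H0 + u * H1) g s = (1 - u) * f H0 g s + u * f H1 g s)
    (hG : ∀ h s, f h ((1 - w) * G0 + w * G1) s = (1 - w) * f h G0 s + w * f h G1 s)
    (hT : ∀ h g, f h g ((1 - v) * T0 + v * T1) = (1 - v) * f h g T0 + v * f h g T1) :
    tri (f H0 G0 T0) (f H0 G0 T1) (f H0 G1 T0) (f H0 G1 T1) (f H1 G0 T0) (f H1 G0 T1) (f H1 G1 T0)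
      (f H1 G1 T1) u w v = f ((1 - u) * H0 + u * H1) ((1 - w) * G0 + w * G1) ((1 - v) * T0 + v * T1) := by
  unfold tri bil
  rw [hH, hG, hG, hT, hT, hT, hT]
  ring

theorem tri_sub (a b c d e f g h a' b' c' d' e' f' g' h' u w v : ℝ) :
    tri (a - a') (b - b') (c - c') (d - d') (e - e') (f - f') (g - g') (h - h') u w v
      = tri a b c d e f g h u w v - tri a' b' c' d' e' f' g' h' u w v := by
  unfold tri bil
  ring

theorem tri_const (c u w v : ℝ) : tri c c c c c c c c u w v = c := by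
  unfold tri bil
  ring
/-! ### the check of a cell -/

/-- value of the line at the corner, over `10^9` -/
def lc3 (P sl J H G T : ℕ) : ℕ :=
  Nat.mul 25 (Nat.add (Nat.mul 4 P) (Nat.mul sl (Nat.sub (Nat.add (Nat.add H G) T) (Nat.mul 4 J))))

/-- the interpolated table value over `10^8` -/
def gN3 (t : ℕ → ℕ → ℕ → ℕ) (k q H G n : ℕ) : ℕ :=
  Nat.add
    (Nat.mul (Nat.sub (Nat.mul 2 (Nat.succ k)) H) (Nat.add (Nat.mul (Nat.sub (Nat.mul 5 (Nat.succ q)) G) (t n k q))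
      (Nat.mul (Nat.sub G (Nat.mul 5 q)) (t n k (Nat.succ q)))))
    (Nat.mul (Nat.sub H (Nat.mul 2 k)) (Nat.add (Nat.mul (Nat.sub (Nat.mul 5 (Nat.succ q)) G) (t n (Nat.succ k) q))
      (Nat.mul (Nat.sub G (Nat.mul 5 q)) (t n (Nat.succ k) (Nat.succ q)))))

/-- the real counterpart of `gN3` -/
noncomputable def gR (t : ℕ → ℕ → ℕ → ℕ) (k q n : ℕ) (H G : ℝ) : ℝ :=
  (2 * ((k : ℝ) + 1) - H) * ((5 * ((q : ℝ) + 1) - G) * t n k q + (G - 5 * q) * t n k (q + 1))
    + (H - 2 * k) * ((5 * ((q : ℝ) + 1) - G) * t n (k + 1) q + (G - 5 * q) * t n (k + 1) (q + 1))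

theorem gN3_real (t : ℕ → ℕ → ℕ → ℕ) (k q H G n : ℕ) (h1 : 2 * k ≤ H) (h2 : H ≤ 2 * (k + 1))
    (h3 : 5 * q ≤ G) (h4 : G ≤ 5 * (q + 1)) : ((gN3 t k q H G n : ℕ) : ℝ) = gR t k q n H G := by
  have e1 : gN3 t k q H G n = (2 * (k + 1) - H) * ((5 * (q + 1) - G) * t n k q + (G - 5 * q) * t n k (q + 1))
    + (H - 2 * k) * ((5 * (q + 1) - G) * t n (k + 1) q + (G - 5 * q) * t n (k + 1) (q + 1)) := rfl
  rw [e1]
  unfold gR
  push_cast [Nat.cast_sub h1, Nat.cast_sub h2, Nat.cast_sub h3, Nat.cast_sub h4]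
  ring

theorem gR_gA (t : ℕ → ℕ → ℕ → ℕ) (k q n : ℕ) (h g : ℝ) :
    gR t k q n (200 * h) (200 * g) = 100000000 * gA t k q n h g := by
  unfold gR gA
  ring

/-- value of the bound of the row function at the corner, over `10^9` -/
noncomputable def uR (t : ℕ → ℕ → ℕ → ℕ) (k q n : ℕ) (H G T : ℝ) : ℝ :=
  2 * ((((n : ℝ) + 1) * 5 - T) * gR t k q n H G + (T - n * 5) * gR t k q (n + 1) H G)

theorem uc3_real (t : ℕ → ℕ → ℕ → ℕ) (k q n H G T : ℕ) (h1 : 2 * k ≤ H) (h2 : H ≤ 2 * (k + 1))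
    (h3 : 5 * q ≤ G) (h4 : G ≤ 5 * (q + 1)) (h5 : n * 5 ≤ T) (h6 : T ≤ (n + 1) * 5) :
    ((RG.uc (Nat.sub (Nat.mul 5 (Nat.succ n)) T) (Nat.sub T (Nat.mul 5 n)) (gN3 t k q H G n)
      (gN3 t k q H G (n + 1)) : ℕ) : ℝ) = uR t k q n H G T := by
  have e1 : RG.uc (Nat.sub (Nat.mul 5 (Nat.succ n)) T) (Nat.sub T (Nat.mul 5 n)) (gN3 t k q H G n)
      (gN3 t k q H G (n + 1))
      = 2 * ((5 * (n + 1) - T) * gN3 t k q H G n + (T - 5 * n) * gN3 t k q H G (n + 1)) := rfl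
  rw [e1]
  have h5' : 5 * n ≤ T := by omega
  have h6' : T ≤ 5 * (n + 1) := by omega
  unfold uR
  push_cast [Nat.cast_sub h5', Nat.cast_sub h6', gN3_real t k q H G n h1 h2 h3 h4,
    gN3_real t k q H G (n + 1) h1 h2 h3 h4]
  ring

theorem uR_gF3 (t : ℕ → ℕ → ℕ → ℕ) (k q n : ℕ) (h g S : ℝ) :
    uR t k q n (200 * h) (200 * g) (200 * S) = 1000000000 * gF3 t n k q h g S := by
  unfold uR gF3
  rw [gR_gA, gR_gA]
  ring

theorem lc3_real (P sl J H G T : ℕ) (h : 4 * J ≤ H + G + T) :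
    ((lc3 P sl J H G T : ℕ) : ℝ) = 25 * (4 * P + sl * ((H : ℝ) + G + T - 4 * J)) := by
  have e1 : lc3 P sl J H G T = 25 * (4 * P + sl * (H + G + T - 4 * J)) := rfl
  rw [e1]
  push_cast [Nat.cast_sub h]
  ring

open IA.F

/-- the check of one cell `[H0, H1] x [G0, G1] x [T0, T1]`; `z = 1`: not bad; else multiplier `z / 1000` -/
noncomputable def cell3OK (H0 H1 G0 G1 c0 c1 d0 d1 w2 aM g0 g1 r e0 e1 n A00 A00' A01 A01' A10 A10' A11 A11'
    z T0 T1 J P sl : ℕ) : Bool :=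
  fn (Nat.sub (Nat.mul 5 (Nat.succ n)) T0) fun x0 => fn (Nat.sub T0 (Nat.mul 5 n)) fun y0 =>
  fn (Nat.sub (Nat.mul 5 (Nat.succ n)) T1) fun x1 => fn (Nat.sub T1 (Nat.mul 5 n)) fun y1 =>
  fn (RG.uc x0 y0 A00 A00') fun u000 => fn (RG.uc x1 y1 A00 A00') fun u001 =>
  fn (RG.uc x0 y0 A01 A01') fun u010 => fn (RG.uc x1 y1 A01 A01') fun u011 =>
  fn (RG.uc x0 y0 A10 A10') fun u100 => fn (RG.uc x1 y1 A10 A10') fun u101 =>
  fn (RG.uc x0 y0 A11 A11') fun u110 => fn (RG.uc x1 y1 A11 A11') fun u111 =>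
  fn (lc3 P sl J H0 G0 T0) fun l000 => fn (lc3 P sl J H0 G0 T1) fun l001 =>
  fn (lc3 P sl J H0 G1 T0) fun l010 => fn (lc3 P sl J H0 G1 T1) fun l011 =>
  fn (lc3 P sl J H1 G0 T0) fun l100 => fn (lc3 P sl J H1 G0 T1) fun l101 =>
  fn (lc3 P sl J H1 G1 T0) fun l110 => fn (lc3 P sl J H1 G1 T1) fun l111 =>
  cond (Nat.beq z 1)
    (cond (Nat.ble u000 l000) (cond (Nat.ble u001 l001) (cond (Nat.ble u010 l010) (cond (Nat.ble u011 l011)
    (cond (Nat.ble u100 l100) (cond (Nat.ble u101 l101) (cond (Nat.ble u110 l110) (Nat.ble u111 l111)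
      false) false) false) false) false) false) false)
  (fn (Nat.sub (Nat.add u000 1000000000) l000) fun x000 => fn (Nat.sub (Nat.add u001 1000000000) l001) fun x001 =>
   fn (Nat.sub (Nat.add u010 1000000000) l010) fun x010 => fn (Nat.sub (Nat.add u011 1000000000) l011) fun x011 =>
   fn (Nat.sub (Nat.add u100 1000000000) l100) fun x100 => fn (Nat.sub (Nat.add u101 1000000000) l101) fun x101 =>
   fn (Nat.sub (Nat.add u110 1000000000) l110) fun x110 => fn (Nat.sub (Nat.add u111 1000000000) l111) fun x111 =>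
   fn (Nat.mul 200000 z) fun lam =>
   fn (Nat.add (Nat.mul 200 c0) lam) fun q0 => fn (Nat.add (Nat.mul 200 c1) lam) fun q1 =>
   fn (Nat.add G0 T0) fun s00 => fn (Nat.add G0 T1) fun s01 => fn (Nat.add G1 T0) fun s10 =>
   fn (Nat.add G1 T1) fun s11 =>
   fn (Nat.add q0 (Nat.mul d0 s00)) fun k000 => fn (Nat.add q0 (Nat.mul d0 s01)) fun k001 =>
   fn (Nat.add q0 (Nat.mul d0 s10)) fun k010 => fn (Nat.add q0 (Nat.mul d0 s11)) fun k011 =>
   fn (Nat.add q1 (Nat.mul d1 s00)) fun k100 => fn (Nat.add q1 (Nat.mul d1 s01)) fun k101 =>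
   fn (Nat.add q1 (Nat.mul d1 s10)) fun k110 => fn (Nat.add q1 (Nat.mul d1 s11)) fun k111 =>
   fn (Nat.mul aM T0) fun v0 => fn (Nat.mul aM T1) fun v1 =>
   fn (Nat.add (Nat.mul w2 u000) (Nat.add v0 g0)) fun b000 => fn (Nat.add (Nat.mul w2 u001) (Nat.add v1 g0)) fun b001 =>
   fn (Nat.add (Nat.mul w2 u010) (Nat.add v0 g1)) fun b010 => fn (Nat.add (Nat.mul w2 u011) (Nat.add v1 g1)) fun b011 =>
   fn (Nat.add (Nat.mul w2 u100) (Nat.add v0 g0)) fun b100 => fn (Nat.add (Nat.mul w2 u101) (Nat.add v1 g0)) fun b101 =>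
   fn (Nat.add (Nat.mul w2 u110) (Nat.add v0 g1)) fun b110 => fn (Nat.add (Nat.mul w2 u111) (Nat.add v1 g1)) fun b111 =>
   cond (nine3 x000 x001 x010 x011 x100 x101 x110 x111 k000 k001 k010 k011 k100 k101 k110 k111
      b000 b001 b010 b011 b100 b101 b110 b111 1000000000 r)
    (fn (Nat.add b000 (Nat.mul e0 s00)) fun f000 => fn (Nat.add b001 (Nat.mul e0 s01)) fun f001 =>
     fn (Nat.add b010 (Nat.mul e0 s10)) fun f010 => fn (Nat.add b011 (Nat.mul e0 s11)) fun f011 =>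
     fn (Nat.add b100 (Nat.mul e1 s00)) fun f100 => fn (Nat.add b101 (Nat.mul e1 s01)) fun f101 =>
     fn (Nat.add b110 (Nat.mul e1 s10)) fun f110 => fn (Nat.add b111 (Nat.mul e1 s11)) fun f111 =>
     nine3 x000 x001 x010 x011 x100 x101 x110 x111 q0 q0 q0 q0 q1 q1 q1 q1
      f000 f001 f010 f011 f100 f101 f110 f111 1000000000 r) false)

lemma sub_le (u C l : ℕ) : ((u : ℕ) : ℝ) - (l : ℕ) ≤ ((Nat.sub (Nat.add u C) l : ℕ) : ℝ) - C := by
  have h : u + C ≤ (u + C - l) + l := by omega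
  have h' : ((u : ℝ) + C) ≤ ((u + C - l : ℕ) : ℝ) + l := by exact_mod_cast h
  show (u : ℝ) - l ≤ ((u + C - l : ℕ) : ℝ) - C
  linarith

/-- SOUNDNESS OF A CELL. -/
theorem cell3_sound (t : ℕ → ℕ → ℕ → ℕ) (k q H0 H1 G0 G1 c0 c1 d0 d1 wN aN p0 p1 rM dN n z T0 T1 J P sl : ℕ)
    (hH : H0 < H1) (hk0 : 2 * k ≤ H0) (hk1 : H1 ≤ 2 * (k + 1)) (hH0 : 0 < H0)
    (hH1 : H1 ≤ 200) (hG : G0 < G1) (hq0 : 5 * q ≤ G0) (hq1 : G1 ≤ 5 * (q + 1))
    (hT : T0 < T1) (hn0 : n * 5 ≤ T0) (hn1 : T1 ≤ (n + 1) * 5) (hJ : 4 * J ≤ H0 + G0 + T0)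
    (hc0 : (4 - (H0 : ℝ) / 200) / (3 * ((H0 : ℝ) / 200)) ≤ (c0 : ℝ) / 1000000)
    (hc1 : (4 - (H1 : ℝ) / 200) / (3 * ((H1 : ℝ) / 200)) ≤ (c1 : ℝ) / 1000000)
    (hd0 : 4 / (3 * ((H0 : ℝ) / 200) ^ 2) ≤ (d0 : ℝ) / 1000000)
    (hd1 : 4 / (3 * ((H1 : ℝ) / 200) ^ 2) ≤ (d1 : ℝ) / 1000000)
    (hchk : cell3OK H0 H1 G0 G1 c0 c1 d0 d1 (200 * wN) (aN * 1000000000) (p0 * 1000000000) (p1 * 1000000000)
      rM (100 * dN * d0) (100 * dN * d1) n
      (gN3 t k q H0 G0 n) (gN3 t k q H0 G0 (n + 1)) (gN3 t k q H0 G1 n) (gN3 t k q H0 G1 (n + 1))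
      (gN3 t k q H1 G0 n) (gN3 t k q H1 G0 (n + 1)) (gN3 t k q H1 G1 n) (gN3 t k q H1 G1 (n + 1))
      z T0 T1 J P sl = true)
    (h g S Fv W : ℝ) (h0 : (H0 : ℝ) / 200 ≤ h) (h1 : h ≤ (H1 : ℝ) / 200) (g0 : (G0 : ℝ) / 200 ≤ g)
    (g1 : g ≤ (G1 : ℝ) / 200) (s0 : (T0 : ℝ) / 200 ≤ S)
    (s1 : S ≤ (T1 : ℝ) / 200) (hF : Fv ≤ gF3 t n k q h g S)
    (hL : ((P : ℝ) + sl * (50 * (h + g + S) - J)) / 10000000 ≤ W) :
    (z = 1 → Fv ≤ W) ∧ (z ≠ 1 → 0 < Fv - W →
      ((Fv - W) * (4 * h - h ^ 2) + 4 * (g + S) * max (Fv - W) ((dN : ℝ) / 10000000)) / (3 * h ^ 2)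
        + (wN : ℝ) / 1000000 * Fv + (aN : ℝ) / 1000000 * S
        + ((p0 : ℝ) + ((p1 : ℝ) - p0) * ((200 * g - G0) / (G1 - G0))) / 200000000
          ≤ (rM : ℝ) / 200000000000000000) := by
  have hHR : (H0 : ℝ) < H1 := by exact_mod_cast hH
  have hGR : (G0 : ℝ) < G1 := by exact_mod_cast hG
  have hTR : (T0 : ℝ) < T1 := by exact_mod_cast hT
  have hH0R : (0 : ℝ) < H0 := by exact_mod_cast hH0
  set u : ℝ := (200 * h - H0) / (H1 - H0) with hu
  set w : ℝ := (200 * g - G0) / (G1 - G0) with hw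
  set v : ℝ := (200 * S - T0) / (T1 - T0) with hv
  have hu0 : 0 ≤ u := div_nonneg (by linarith) (by linarith)
  have hu1 : u ≤ 1 := (div_le_one (by linarith)).mpr (by linarith)
  have hw0 : 0 ≤ w := div_nonneg (by linarith) (by linarith)
  have hw1 : w ≤ 1 := (div_le_one (by linarith)).mpr (by linarith)
  have hv0 : 0 ≤ v := div_nonneg (by linarith) (by linarith)
  have hv1 : v ≤ 1 := (div_le_one (by linarith)).mpr (by linarith)
  have hh : (1 - u) * H0 + u * H1 = 200 * h := by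
    have : u * (H1 - H0) = 200 * h - H0 := by
      rw [hu, div_mul_cancel₀ _ (by linarith : (H1 : ℝ) - H0 ≠ 0)]
    linarith
  have hg : (1 - w) * G0 + w * G1 = 200 * g := by
    have : w * (G1 - G0) = 200 * g - G0 := by
      rw [hw, div_mul_cancel₀ _ (by linarith : (G1 : ℝ) - G0 ≠ 0)]
    linarith
  have hS : (1 - v) * T0 + v * T1 = 200 * S := by
    have : v * (T1 - T0) = 200 * S - T0 := by
      rw [hv, div_mul_cancel₀ _ (by linarith : (T1 : ℝ) - T0 ≠ 0)]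
    linarith
  unfold cell3OK at hchk
  simp only [fn_eq] at hchk
  -- the interpolations
  have U000 := uc3_real t k q n H0 G0 T0 hk0 (by omega) hq0 (by omega) hn0 (by omega)
  have U001 := uc3_real t k q n H0 G0 T1 hk0 (by omega) hq0 (by omega) (by omega) hn1
  have U010 := uc3_real t k q n H0 G1 T0 hk0 (by omega) (by omega) hq1 hn0 (by omega)
  have U011 := uc3_real t k q n H0 G1 T1 hk0 (by omega) (by omega) hq1 (by omega) hn1
  have U100 := uc3_real t k q n H1 G0 T0 (by omega) hk1 hq0 (by omega) hn0 (by omega)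
  have U101 := uc3_real t k q n H1 G0 T1 (by omega) hk1 hq0 (by omega) (by omega) hn1
  have U110 := uc3_real t k q n H1 G1 T0 (by omega) hk1 (by omega) hq1 hn0 (by omega)
  have U111 := uc3_real t k q n H1 G1 T1 (by omega) hk1 (by omega) hq1 (by omega) hn1
  have L000 := lc3_real P sl J H0 G0 T0 hJ
  have L001 := lc3_real P sl J H0 G0 T1 (by omega)
  have L010 := lc3_real P sl J H0 G1 T0 (by omega)
  have L011 := lc3_real P sl J H0 G1 T1 (by omega)
  have L100 := lc3_real P sl J H1 G0 T0 (by omega)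
  have L101 := lc3_real P sl J H1 G0 T1 (by omega)
  have L110 := lc3_real P sl J H1 G1 T0 (by omega)
  have L111 := lc3_real P sl J H1 G1 T1 (by omega)
  have hU := tri_affine (uR t k q n) H0 H1 G0 G1 T0 T1 u w v
    (by intro g s; unfold uR gR; ring) (by intro g s; unfold uR gR; ring) (by intro g s; unfold uR; ring)
  rw [hh, hg, hS, uR_gF3 t k q n, ← U000, ← U001, ← U010, ← U011, ← U100, ← U101, ← U110, ← U111] at hU
  have hLb := tri_affine (fun x y s => 25 * (4 * (P : ℝ) + sl * (x + y + s - 4 * J))) H0 H1 G0 G1 T0 T1 u w v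
    (by intro g s; ring) (by intro g s; ring) (by intro g s; ring)
  rw [hh, hg, hS, ← L000, ← L001, ← L010, ← L011, ← L100, ← L101, ← L110, ← L111] at hLb
  have hLe : 25 * (4 * (P : ℝ) + sl * (200 * h + 200 * g + 200 * S - 4 * J))
      = 1000000000 * (((P : ℝ) + sl * (50 * (h + g + S) - J)) / 10000000) := by ring
  rw [hLe] at hLb
  clear U000 U001 U010 U011 U100 U101 U110 U111 L000 L001 L010 L011 L100 L101 L110 L111
  generalize RG.uc (Nat.sub (Nat.mul 5 (Nat.succ n)) T0) (Nat.sub T0 (Nat.mul 5 n)) (gN3 t k q H0 G0 n)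
    (gN3 t k q H0 G0 (n + 1)) = u000 at hchk hU
  generalize RG.uc (Nat.sub (Nat.mul 5 (Nat.succ n)) T1) (Nat.sub T1 (Nat.mul 5 n)) (gN3 t k q H0 G0 n)
    (gN3 t k q H0 G0 (n + 1)) = u001 at hchk hU
  generalize RG.uc (Nat.sub (Nat.mul 5 (Nat.succ n)) T0) (Nat.sub T0 (Nat.mul 5 n)) (gN3 t k q H0 G1 n)
    (gN3 t k q H0 G1 (n + 1)) = u010 at hchk hU
  generalize RG.uc (Nat.sub (Nat.mul 5 (Nat.succ n)) T1) (Nat.sub T1 (Nat.mul 5 n)) (gN3 t k q H0 G1 n)
    (gN3 t k q H0 G1 (n + 1)) = u011 at hchk hU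
  generalize RG.uc (Nat.sub (Nat.mul 5 (Nat.succ n)) T0) (Nat.sub T0 (Nat.mul 5 n)) (gN3 t k q H1 G0 n)
    (gN3 t k q H1 G0 (n + 1)) = u100 at hchk hU
  generalize RG.uc (Nat.sub (Nat.mul 5 (Nat.succ n)) T1) (Nat.sub T1 (Nat.mul 5 n)) (gN3 t k q H1 G0 n)
    (gN3 t k q H1 G0 (n + 1)) = u101 at hchk hU
  generalize RG.uc (Nat.sub (Nat.mul 5 (Nat.succ n)) T0) (Nat.sub T0 (Nat.mul 5 n)) (gN3 t k q H1 G1 n)
    (gN3 t k q H1 G1 (n + 1)) = u110 at hchk hU
  generalize RG.uc (Nat.sub (Nat.mul 5 (Nat.succ n)) T1) (Nat.sub T1 (Nat.mul 5 n)) (gN3 t k q H1 G1 n)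
    (gN3 t k q H1 G1 (n + 1)) = u111 at hchk hU
  generalize lc3 P sl J H0 G0 T0 = l000 at hchk hLb
  generalize lc3 P sl J H0 G0 T1 = l001 at hchk hLb
  generalize lc3 P sl J H0 G1 T0 = l010 at hchk hLb
  generalize lc3 P sl J H0 G1 T1 = l011 at hchk hLb
  generalize lc3 P sl J H1 G0 T0 = l100 at hchk hLb
  generalize lc3 P sl J H1 G0 T1 = l101 at hchk hLb
  generalize lc3 P sl J H1 G1 T0 = l110 at hchk hLb
  generalize lc3 P sl J H1 G1 T1 = l111 at hchk hLb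
  set U := gF3 t n k q h g S with hUdef
  set L := ((P : ℝ) + sl * (50 * (h + g + S) - J)) / 10000000 with hLdef
  refine ⟨fun hz => ?_, fun hz hD => ?_⟩
  · rw [hz, show Nat.beq 1 1 = true from rfl, cond_true] at hchk
    obtain ⟨p1, hchk⟩ := IA.cond_and hchk
    obtain ⟨p2, hchk⟩ := IA.cond_and hchk
    obtain ⟨p3, hchk⟩ := IA.cond_and hchk
    obtain ⟨p4, hchk⟩ := IA.cond_and hchk
    obtain ⟨p5, hchk⟩ := IA.cond_and hchk
    obtain ⟨p6, hchk⟩ := IA.cond_and hchk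
    obtain ⟨p7, p8⟩ := IA.cond_and hchk
    rw [Nat.ble_eq] at p1 p2 p3 p4 p5 p6 p7 p8
    have cst : ∀ a b : ℕ, a ≤ b → (a : ℝ) - b ≤ 0 := fun a b hab => by
      have : (a : ℝ) ≤ b := by exact_mod_cast hab
      linarith
    have := tri_nonpos _ _ _ _ _ _ _ _ u w v hu0 hu1 hw0 hw1 hv0 hv1 (cst _ _ p1) (cst _ _ p2) (cst _ _ p3)
      (cst _ _ p4) (cst _ _ p5) (cst _ _ p6) (cst _ _ p7) (cst _ _ p8)
    rw [tri_sub, hU, hLb] at this
    linarith
  · have hbz : Nat.beq z 1 = false := by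
      cases hb : Nat.beq z 1 with
      | false => rfl
      | true => exact absurd (Nat.eq_of_beq_eq_true hb) hz
    rw [hbz, cond_false] at hchk
    obtain ⟨q1', q2'⟩ := IA.cond_and hchk
    have n1 := nine3_sound _ _ _ _ _ _ _ _ _ _ _ _ _ _ _ _ _ _ _ _ _ _ _ _ _ _ q1' u w v hu0 hu1 hw0 hw1 hv0 hv1
    have n2 := nine3_sound _ _ _ _ _ _ _ _ _ _ _ _ _ _ _ _ _ _ _ _ _ _ _ _ _ _ q2' u w v hu0 hu1 hw0 hw1 hv0 hv1
    clear q1' q2' hchk
    have hC : ((1000000000 : ℕ) : ℝ) = 1000000000 := by norm_num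
    -- the difference
    have hZ : 1000000000 * (U - L) ≤ tri
        (((Nat.sub (Nat.add u000 1000000000) l000 : ℕ) : ℝ) - (1000000000 : ℕ)) (((Nat.sub (Nat.add u001 1000000000) l001 : ℕ) : ℝ) - (1000000000 : ℕ))
        (((Nat.sub (Nat.add u010 1000000000) l010 : ℕ) : ℝ) - (1000000000 : ℕ)) (((Nat.sub (Nat.add u011 1000000000) l011 : ℕ) : ℝ) - (1000000000 : ℕ))
        (((Nat.sub (Nat.add u100 1000000000) l100 : ℕ) : ℝ) - (1000000000 : ℕ)) (((Nat.sub (Nat.add u101 1000000000) l101 : ℕ) : ℝ) - (1000000000 : ℕ))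
        (((Nat.sub (Nat.add u110 1000000000) l110 : ℕ) : ℝ) - (1000000000 : ℕ)) (((Nat.sub (Nat.add u111 1000000000) l111 : ℕ) : ℝ) - (1000000000 : ℕ)) u w v := by
      have e := tri_nonpos _ _ _ _ _ _ _ _ u w v hu0 hu1 hw0 hw1 hv0 hv1
        (sub_nonpos.mpr (sub_le u000 1000000000 l000)) (sub_nonpos.mpr (sub_le u001 1000000000 l001))
        (sub_nonpos.mpr (sub_le u010 1000000000 l010)) (sub_nonpos.mpr (sub_le u011 1000000000 l011))
        (sub_nonpos.mpr (sub_le u100 1000000000 l100)) (sub_nonpos.mpr (sub_le u101 1000000000 l101))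
        (sub_nonpos.mpr (sub_le u110 1000000000 l110)) (sub_nonpos.mpr (sub_le u111 1000000000 l111))
      rw [tri_sub, tri_sub, hU, hLb] at e
      linarith
    generalize tri
        (((Nat.sub (Nat.add u000 1000000000) l000 : ℕ) : ℝ) - (1000000000 : ℕ)) (((Nat.sub (Nat.add u001 1000000000) l001 : ℕ) : ℝ) - (1000000000 : ℕ))
        (((Nat.sub (Nat.add u010 1000000000) l010 : ℕ) : ℝ) - (1000000000 : ℕ)) (((Nat.sub (Nat.add u011 1000000000) l011 : ℕ) : ℝ) - (1000000000 : ℕ))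
        (((Nat.sub (Nat.add u100 1000000000) l100 : ℕ) : ℝ) - (1000000000 : ℕ)) (((Nat.sub (Nat.add u101 1000000000) l101 : ℕ) : ℝ) - (1000000000 : ℕ))
        (((Nat.sub (Nat.add u110 1000000000) l110 : ℕ) : ℝ) - (1000000000 : ℕ)) (((Nat.sub (Nat.add u111 1000000000) l111 : ℕ) : ℝ) - (1000000000 : ℕ)) u w v
        = Zt at n1 n2 hZ
    set lam : ℝ := (z : ℝ) / 1000 with hlam
    set c : ℝ := ((1 - u) * c0 + u * c1) / 1000000 with hc
    set d : ℝ := ((1 - u) * d0 + u * d1) / 1000000 with hd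
    simp only [Nat.add_eq, Nat.mul_eq] at n1 n2
    push_cast at n1 n2
    have hK1 := tri_affine (fun x y s => 200 * ((1 - x) * c0 + x * c1) + 200000 * (z : ℝ)
        + ((1 - x) * d0 + x * d1) * (y + s))
      0 1 G0 G1 T0 T1 u w v (by intro g s; ring) (by intro g s; ring) (by intro g s; ring)
    have hK2 := tri_affine (fun x _ _ => 200 * ((1 - x) * c0 + x * c1) + 200000 * (z : ℝ))
      0 1 G0 G1 T0 T1 u w v (by intro g s; ring) (by intro g s; ring) (by intro g s; ring)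
    have hB1 := tri_affine (fun x y s => (aN : ℝ) * 1000000000 * s
        + ((1 - y) * (p0 * 1000000000) + y * (p1 * 1000000000)))
      0 1 0 1 T0 T1 u w v (by intro g s; ring) (by intro g s; ring) (by intro g s; ring)
    have hB2 := tri_affine (fun x y s => (aN : ℝ) * 1000000000 * s
        + ((1 - y) * (p0 * 1000000000) + y * (p1 * 1000000000))
        + 100 * dN * ((1 - x) * d0 + x * d1) * (((1 - y) * G0 + y * G1) + s))
      0 1 0 1 T0 T1 u w v (by intro g s; ring) (by intro g s; ring) (by intro g s; ring)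
    simp only [mul_zero, mul_one, zero_add, sub_zero, one_mul, sub_self, zero_mul, add_zero] at hK1 hK2 hB1 hB2
    rw [hg, hS] at hK1 hB2
    rw [hS] at hB1
    have m1 : tri (200 * (c0 : ℝ) + 200000 * z + d0 * (G0 + T0)) (200 * (c0 : ℝ) + 200000 * z + d0 * (G0 + T1))
        (200 * (c0 : ℝ) + 200000 * z + d0 * (G1 + T0)) (200 * (c0 : ℝ) + 200000 * z + d0 * (G1 + T1))
        (200 * (c1 : ℝ) + 200000 * z + d1 * (G0 + T0)) (200 * (c1 : ℝ) + 200000 * z + d1 * (G0 + T1))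
        (200 * (c1 : ℝ) + 200000 * z + d1 * (G1 + T0)) (200 * (c1 : ℝ) + 200000 * z + d1 * (G1 + T1)) u w v
        = 200000000 * (c + lam + d * (g + S)) := by
      rw [hK1, hc, hd, hlam]
      ring
    have m2 : tri (200 * (c0 : ℝ) + 200000 * z) (200 * (c0 : ℝ) + 200000 * z) (200 * (c0 : ℝ) + 200000 * z)
        (200 * (c0 : ℝ) + 200000 * z) (200 * (c1 : ℝ) + 200000 * z) (200 * (c1 : ℝ) + 200000 * z)
        (200 * (c1 : ℝ) + 200000 * z) (200 * (c1 : ℝ) + 200000 * z) u w v = 200000000 * (c + lam) := by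
      rw [hK2, hc, hlam]
      ring
    have m3 : tri (200 * (wN : ℝ) * u000 + (aN * 1000000000 * T0 + p0 * 1000000000))
        (200 * (wN : ℝ) * u001 + (aN * 1000000000 * T1 + p0 * 1000000000))
        (200 * (wN : ℝ) * u010 + (aN * 1000000000 * T0 + p1 * 1000000000))
        (200 * (wN : ℝ) * u011 + (aN * 1000000000 * T1 + p1 * 1000000000))
        (200 * (wN : ℝ) * u100 + (aN * 1000000000 * T0 + p0 * 1000000000))
        (200 * (wN : ℝ) * u101 + (aN * 1000000000 * T1 + p0 * 1000000000))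
        (200 * (wN : ℝ) * u110 + (aN * 1000000000 * T0 + p1 * 1000000000))
        (200 * (wN : ℝ) * u111 + (aN * 1000000000 * T1 + p1 * 1000000000)) u w v
        = 200000000000000000 * ((wN : ℝ) / 1000000 * U + ((aN : ℝ) / 1000000 * S
          + ((p0 : ℝ) + ((p1 : ℝ) - p0) * w) / 200000000)) := by
      have e : ∀ x1 x2 x3 x4 x5 x6 x7 x8 y1 y2 y3 y4 y5 y6 y7 y8 : ℝ,
          tri (200 * (wN : ℝ) * x1 + y1) (200 * (wN : ℝ) * x2 + y2) (200 * (wN : ℝ) * x3 + y3)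
            (200 * (wN : ℝ) * x4 + y4) (200 * (wN : ℝ) * x5 + y5) (200 * (wN : ℝ) * x6 + y6)
            (200 * (wN : ℝ) * x7 + y7) (200 * (wN : ℝ) * x8 + y8) u w v
          = 200 * wN * tri x1 x2 x3 x4 x5 x6 x7 x8 u w v + tri y1 y2 y3 y4 y5 y6 y7 y8 u w v := by
        intro x1 x2 x3 x4 x5 x6 x7 x8 y1 y2 y3 y4 y5 y6 y7 y8
        unfold tri bil
        ring
      rw [e, hU, hB1]
      ring
    have m4 : tri (200 * (wN : ℝ) * u000 + (aN * 1000000000 * T0 + p0 * 1000000000)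
          + 100 * dN * d0 * (G0 + T0))
        (200 * (wN : ℝ) * u001 + (aN * 1000000000 * T1 + p0 * 1000000000)
          + 100 * dN * d0 * (G0 + T1))
        (200 * (wN : ℝ) * u010 + (aN * 1000000000 * T0 + p1 * 1000000000)
          + 100 * dN * d0 * (G1 + T0))
        (200 * (wN : ℝ) * u011 + (aN * 1000000000 * T1 + p1 * 1000000000)
          + 100 * dN * d0 * (G1 + T1))
        (200 * (wN : ℝ) * u100 + (aN * 1000000000 * T0 + p0 * 1000000000)
          + 100 * dN * d1 * (G0 + T0))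
        (200 * (wN : ℝ) * u101 + (aN * 1000000000 * T1 + p0 * 1000000000)
          + 100 * dN * d1 * (G0 + T1))
        (200 * (wN : ℝ) * u110 + (aN * 1000000000 * T0 + p1 * 1000000000)
          + 100 * dN * d1 * (G1 + T0))
        (200 * (wN : ℝ) * u111 + (aN * 1000000000 * T1 + p1 * 1000000000)
          + 100 * dN * d1 * (G1 + T1)) u w v
        = 200000000000000000 * ((wN : ℝ) / 1000000 * U + ((aN : ℝ) / 1000000 * S
          + ((p0 : ℝ) + ((p1 : ℝ) - p0) * w) / 200000000) + (dN : ℝ) / 10000000 * (d * (g + S))) := by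
      have e : ∀ x1 x2 x3 x4 x5 x6 x7 x8 y1 y2 y3 y4 y5 y6 y7 y8 z1 z2 z3 z4 z5 z6 z7 z8 : ℝ,
          tri (200 * (wN : ℝ) * x1 + y1 + z1) (200 * (wN : ℝ) * x2 + y2 + z2) (200 * (wN : ℝ) * x3 + y3 + z3)
            (200 * (wN : ℝ) * x4 + y4 + z4) (200 * (wN : ℝ) * x5 + y5 + z5) (200 * (wN : ℝ) * x6 + y6 + z6)
            (200 * (wN : ℝ) * x7 + y7 + z7) (200 * (wN : ℝ) * x8 + y8 + z8) u w v
          = 200 * wN * tri x1 x2 x3 x4 x5 x6 x7 x8 u w v + tri (y1 + z1) (y2 + z2) (y3 + z3) (y4 + z4)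
            (y5 + z5) (y6 + z6) (y7 + z7) (y8 + z8) u w v := by
        intro x1 x2 x3 x4 x5 x6 x7 x8 y1 y2 y3 y4 y5 y6 y7 y8 z1 z2 z3 z4 z5 z6 z7 z8
        unfold tri bil
        ring
      rw [e, hU, hB2, hd]
      ring
    rw [m1, m3] at n1
    rw [m2, m4] at n2
    have hH1R : (H1 : ℝ) ≤ 200 := by exact_mod_cast hH1
    have ehh : h = (1 - u) * ((H0 : ℝ) / 200) + u * ((H1 : ℝ) / 200) := by linarith
    have hcc := chord_c ((H0 : ℝ) / 200) ((H1 : ℝ) / 200) u _ _ (by positivity) (by linarith) hu0 hu1 hc0 hc1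
    have hdd := chord_d ((H0 : ℝ) / 200) ((H1 : ℝ) / 200) u _ _ (by positivity) (by linarith) hu0 hu1 hd0 hd1
    rw [← ehh] at hcc hdd
    have hh0 : 0 < h := lt_of_lt_of_le (by positivity) h0
    have hg0' : 0 ≤ g := le_trans (by positivity) g0
    have hS0' : 0 ≤ S := le_trans (by positivity) s0
    have hc' : c = (1 - u) * ((c0 : ℝ) / 1000000) + u * ((c1 : ℝ) / 1000000) := by rw [hc]; ring
    have hd' : d = (1 - u) * ((d0 : ℝ) / 1000000) + u * ((d1 : ℝ) / 1000000) := by rw [hd]; ring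
    have h1u : 0 ≤ 1 - u := by linarith
    have hc0' : 0 ≤ c := by rw [hc]; positivity
    have hd0' : 0 ≤ d := by rw [hd]; positivity
    have hlam0 : 0 ≤ lam := by rw [hlam]; positivity
    set X : ℝ := (aN : ℝ) / 1000000 * S + ((p0 : ℝ) + ((p1 : ℝ) - p0) * w) / 200000000 with hX
    have E1 : (U - L) * (c + lam + d * (g + S)) + ((wN : ℝ) / 1000000 * U + 0 * (g + S))
        ≤ (rM : ℝ) / 200000000000000000 - X := by
      have e1 : 0 ≤ 200000000 * (c + lam + d * (g + S)) := by positivity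
      have e2 := mul_le_mul_of_nonneg_right hZ e1
      have e4 : 1000000000 * (U - L) * (200000000 * (c + lam + d * (g + S)))
          = 200000000000000000 * ((U - L) * (c + lam + d * (g + S))) := by ring
      rw [e4] at e2
      linarith only [e2, n1]
    have E2 : (U - L) * (c + lam) + ((wN : ℝ) / 1000000 * U + 0 * (g + S) + (dN : ℝ) / 10000000 * (d * (g + S)))
        ≤ (rM : ℝ) / 200000000000000000 - X := by
      have e1 : 0 ≤ 200000000 * (c + lam) := by positivity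
      have e2 := mul_le_mul_of_nonneg_right hZ e1
      have e4 : 1000000000 * (U - L) * (200000000 * (c + lam))
          = 200000000000000000 * ((U - L) * (c + lam)) := by ring
      rw [e4] at e2
      linarith only [e2, n2]
    have key := need_lam Fv W h (g + S) ((dN : ℝ) / 10000000) ((wN : ℝ) / 1000000) 0
      ((rM : ℝ) / 200000000000000000 - X) U L c d lam hlam0 hh0 (by linarith) (by linarith)
      (by positivity) hD hF hL (hcc.trans (le_of_eq hc'.symm)) (hdd.trans (le_of_eq hd'.symm)) E1 E2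
    rw [hX] at key
    linarith only [key]

end G3
end Fr
end Pool.Agent.Lib.MP_6947cd_al
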