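import Pool.Agent.Lib.MP_6947cd_al.L.WTab
import Pool.Agent.Lib.MP_6947cd_al.L.RowT

/-!
Problem MP_6947cd_al (Chollet).  Part (I) of case A: for a bad row `(1; h, ...)` with all other entries at
most `m`, an upper bound for `need + w F + a S`.
-/

set_option autoImplicit false
open Finset

namespace Pool.Agent.Lib.MP_6947cd_al
namespace Fr
namespace RI

open Ent WT RT

/-! ### real lemmas -/

/-- bilinear interpolation -/
noncomputable def bil (z00 z01 z10 z11 u v : ℝ) : ℝ :=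
  (1 - u) * (1 - v) * z00 + (1 - u) * v * z01 + u * (1 - v) * z10 + u * v * z11

/-- Bernstein coefficients of `z k + b` -/
theorem bern (z00 z01 z10 z11 k00 k01 k10 k11 b00 b01 b10 b11 r u v : ℝ) (hu0 : 0 ≤ u) (hu1 : u ≤ 1)
    (hv0 : 0 ≤ v) (hv1 : v ≤ 1)
    (c1 : z00 * k00 + b00 ≤ r) (c2 : z01 * k01 + b01 ≤ r) (c3 : z10 * k10 + b10 ≤ r)
    (c4 : z11 * k11 + b11 ≤ r)
    (c5 : z00 * k01 + z01 * k00 + b00 + b01 ≤ 2 * r) (c6 : z10 * k11 + z11 * k10 + b10 + b11 ≤ 2 * r)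
    (c7 : z00 * k10 + z10 * k00 + b00 + b10 ≤ 2 * r) (c8 : z01 * k11 + z11 * k01 + b01 + b11 ≤ 2 * r)
    (c9 : z00 * k11 + z11 * k00 + z01 * k10 + z10 * k01 + b00 + b01 + b10 + b11 ≤ 4 * r) :
    bil z00 z01 z10 z11 u v * bil k00 k01 k10 k11 u v + bil b00 b01 b10 b11 u v ≤ r := by
  have ha : 0 ≤ 1 - u := by linarith
  have hp : 0 ≤ 1 - v := by linarith
  have e1 := mul_le_mul_of_nonneg_left c1 (mul_nonneg (mul_nonneg ha ha) (mul_nonneg hp hp))
  have e2 := mul_le_mul_of_nonneg_left c2 (mul_nonneg (mul_nonneg ha ha) (mul_nonneg hv0 hv0))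
  have e3 := mul_le_mul_of_nonneg_left c3 (mul_nonneg (mul_nonneg hu0 hu0) (mul_nonneg hp hp))
  have e4 := mul_le_mul_of_nonneg_left c4 (mul_nonneg (mul_nonneg hu0 hu0) (mul_nonneg hv0 hv0))
  have e5 := mul_le_mul_of_nonneg_left c5 (mul_nonneg (mul_nonneg ha ha) (mul_nonneg hp hv0))
  have e6 := mul_le_mul_of_nonneg_left c6 (mul_nonneg (mul_nonneg hu0 hu0) (mul_nonneg hp hv0))
  have e7 := mul_le_mul_of_nonneg_left c7 (mul_nonneg (mul_nonneg ha hu0) (mul_nonneg hp hp))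
  have e8 := mul_le_mul_of_nonneg_left c8 (mul_nonneg (mul_nonneg ha hu0) (mul_nonneg hv0 hv0))
  have e9 := mul_le_mul_of_nonneg_left c9 (mul_nonneg (mul_nonneg ha hu0) (mul_nonneg hp hv0))
  have key : bil z00 z01 z10 z11 u v * bil k00 k01 k10 k11 u v + bil b00 b01 b10 b11 u v - r
      = ((1 - u) * (1 - u) * ((1 - v) * (1 - v)) * (z00 * k00 + b00) - (1 - u) * (1 - u) * ((1 - v) * (1 - v)) * r)
      + ((1 - u) * (1 - u) * (v * v) * (z01 * k01 + b01) - (1 - u) * (1 - u) * (v * v) * r)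
      + (u * u * ((1 - v) * (1 - v)) * (z10 * k10 + b10) - u * u * ((1 - v) * (1 - v)) * r)
      + (u * u * (v * v) * (z11 * k11 + b11) - u * u * (v * v) * r)
      + ((1 - u) * (1 - u) * ((1 - v) * v) * (z00 * k01 + z01 * k00 + b00 + b01)
          - (1 - u) * (1 - u) * ((1 - v) * v) * (2 * r))
      + (u * u * ((1 - v) * v) * (z10 * k11 + z11 * k10 + b10 + b11) - u * u * ((1 - v) * v) * (2 * r))
      + ((1 - u) * u * ((1 - v) * (1 - v)) * (z00 * k10 + z10 * k00 + b00 + b10)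
          - (1 - u) * u * ((1 - v) * (1 - v)) * (2 * r))
      + ((1 - u) * u * (v * v) * (z01 * k11 + z11 * k01 + b01 + b11) - (1 - u) * u * (v * v) * (2 * r))
      + ((1 - u) * u * ((1 - v) * v) * (z00 * k11 + z11 * k00 + z01 * k10 + z10 * k01 + b00 + b01 + b10 + b11)
          - (1 - u) * u * ((1 - v) * v) * (4 * r)) := by
    unfold bil
    ring
  linarith

theorem bil_nonpos (z00 z01 z10 z11 u v : ℝ) (hu0 : 0 ≤ u) (hu1 : u ≤ 1)
    (hv0 : 0 ≤ v) (hv1 : v ≤ 1) (h1 : z00 ≤ 0) (h2 : z01 ≤ 0) (h3 : z10 ≤ 0) (h4 : z11 ≤ 0) :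
    bil z00 z01 z10 z11 u v ≤ 0 := by
  have ha : 0 ≤ 1 - u := by linarith
  have hp : 0 ≤ 1 - v := by linarith
  unfold bil
  have e1 := mul_nonneg (mul_nonneg ha hp) (neg_nonneg.mpr h1)
  have e2 := mul_nonneg (mul_nonneg ha hv0) (neg_nonneg.mpr h2)
  have e3 := mul_nonneg (mul_nonneg hu0 hp) (neg_nonneg.mpr h3)
  have e4 := mul_nonneg (mul_nonneg hu0 hv0) (neg_nonneg.mpr h4)
  linarith

/-- the chord of `(4 - h) / (3 h)` -/
theorem chord_c (h0 h1 u c0 c1 : ℝ) (hh0 : 0 < h0) (hh1 : 0 < h1) (hu0 : 0 ≤ u) (hu1 : u ≤ 1)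
    (k0 : (4 - h0) / (3 * h0) ≤ c0) (k1 : (4 - h1) / (3 * h1) ≤ c1) :
    (4 - ((1 - u) * h0 + u * h1)) / (3 * ((1 - u) * h0 + u * h1)) ≤ (1 - u) * c0 + u * c1 := by
  have ha : 0 ≤ 1 - u := by linarith
  have hp : 0 < (1 - u) * h0 + u * h1 := by
    rcases eq_or_lt_of_le hu0 with h | h
    · rw [← h]; linarith
    · have := mul_pos h hh1
      have := mul_nonneg ha hh0.le
      linarith
  have e : ∀ x : ℝ, 0 < x → (4 - x) / (3 * x) = 4 / 3 * x⁻¹ - 1 / 3 := by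
    intro x hx
    field_simp
  rw [e _ hp]
  rw [e _ hh0] at k0
  rw [e _ hh1] at k1
  have hinv : ((1 - u) * h0 + u * h1)⁻¹ ≤ (1 - u) * h0⁻¹ + u * h1⁻¹ := by
    rw [inv_le_iff_one_le_mul₀ hp]
    have h2 : h0 * h1⁻¹ + h1 * h0⁻¹ ≥ 2 := by
      have h3 : h0 * h1⁻¹ + h1 * h0⁻¹ - 2 = (h0 - h1) ^ 2 * (h0⁻¹ * h1⁻¹) := by
        field_simp
        ring
      have h4 : 0 ≤ (h0 - h1) ^ 2 * (h0⁻¹ * h1⁻¹) := by positivity
      linarith
    have h5 : ((1 - u) * h0⁻¹ + u * h1⁻¹) * ((1 - u) * h0 + u * h1)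
        = 1 + u * (1 - u) * (h0 * h1⁻¹ + h1 * h0⁻¹ - 2) := by
      field_simp
      ring
    rw [h5]
    have := mul_nonneg (mul_nonneg hu0 ha) (show 0 ≤ h0 * h1⁻¹ + h1 * h0⁻¹ - 2 by linarith)
    linarith
  have k0' := mul_le_mul_of_nonneg_left k0 ha
  have k1' := mul_le_mul_of_nonneg_left k1 hu0
  linarith

/-- the chord of `4 / (3 h ^ 2)` -/
theorem chord_d (h0 h1 u c0 c1 : ℝ) (hh0 : 0 < h0) (hh1 : 0 < h1) (hu0 : 0 ≤ u) (hu1 : u ≤ 1)
    (k0 : 4 / (3 * h0 ^ 2) ≤ c0) (k1 : 4 / (3 * h1 ^ 2) ≤ c1) :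
    4 / (3 * ((1 - u) * h0 + u * h1) ^ 2) ≤ (1 - u) * c0 + u * c1 := by
  have ha : 0 ≤ 1 - u := by linarith
  have hp : 0 < (1 - u) * h0 + u * h1 := by
    rcases eq_or_lt_of_le hu0 with h | h
    · rw [← h]; linarith
    · have := mul_pos h hh1
      have := mul_nonneg ha hh0.le
      linarith
  have e : ∀ x : ℝ, 0 < x → 4 / (3 * x ^ 2) = 4 / 3 * (x⁻¹) ^ 2 := by
    intro x hx
    field_simp
  rw [e _ hp]
  rw [e _ hh0] at k0
  rw [e _ hh1] at k1
  have hinv : ((1 - u) * h0 + u * h1)⁻¹ ≤ (1 - u) * h0⁻¹ + u * h1⁻¹ := by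
    rw [inv_le_iff_one_le_mul₀ hp]
    have h2 : h0 * h1⁻¹ + h1 * h0⁻¹ ≥ 2 := by
      have h3 : h0 * h1⁻¹ + h1 * h0⁻¹ - 2 = (h0 - h1) ^ 2 * (h0⁻¹ * h1⁻¹) := by
        field_simp
        ring
      have h4 : 0 ≤ (h0 - h1) ^ 2 * (h0⁻¹ * h1⁻¹) := by positivity
      linarith
    have h5 : ((1 - u) * h0⁻¹ + u * h1⁻¹) * ((1 - u) * h0 + u * h1)
        = 1 + u * (1 - u) * (h0 * h1⁻¹ + h1 * h0⁻¹ - 2) := by
      field_simp
      ring
    rw [h5]
    have := mul_nonneg (mul_nonneg hu0 ha) (show 0 ≤ h0 * h1⁻¹ + h1 * h0⁻¹ - 2 by linarith)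
    linarith
  have hsq : (((1 - u) * h0 + u * h1)⁻¹) ^ 2 ≤ ((1 - u) * h0⁻¹ + u * h1⁻¹) ^ 2 :=
    pow_le_pow_left₀ (inv_nonneg.mpr hp.le) hinv 2
  have hcv : ((1 - u) * h0⁻¹ + u * h1⁻¹) ^ 2 ≤ (1 - u) * (h0⁻¹) ^ 2 + u * (h1⁻¹) ^ 2 := by
    have : (1 - u) * (h0⁻¹) ^ 2 + u * (h1⁻¹) ^ 2 - ((1 - u) * h0⁻¹ + u * h1⁻¹) ^ 2
        = u * (1 - u) * (h0⁻¹ - h1⁻¹) ^ 2 := by ring
    have h6 : 0 ≤ u * (1 - u) * (h0⁻¹ - h1⁻¹) ^ 2 := by positivity
    linarith
  have k0' := mul_le_mul_of_nonneg_left k0 ha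
  have k1' := mul_le_mul_of_nonneg_left k1 hu0
  linarith

/-- from the bounds of `F` and `What` to the bound of the need -/
theorem need_le (F W h S d0 w al r U L c d : ℝ) (hh : 0 < h) (hh1 : h ≤ 1) (hS : 0 ≤ S)
    (hw : 0 ≤ w) (hD : 0 < F - W) (hU : F ≤ U) (hL : L ≤ W) (hc : (4 - h) / (3 * h) ≤ c)
    (hd : 4 / (3 * h ^ 2) ≤ d)
    (E1 : (U - L) * (c + d * S) + (w * U + al * S) ≤ r)
    (E2 : (U - L) * c + (w * U + al * S + d0 * (d * S)) ≤ r) :
    ((F - W) * (4 * h - h ^ 2) + 4 * S * max (F - W) d0) / (3 * h ^ 2) + w * F + al * S ≤ r := by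
  set D := F - W with hDdef
  set Z := U - L with hZ
  have hDZ : D ≤ Z := by linarith
  have hZ0 : 0 ≤ Z := hD.le.trans hDZ
  have e1 : (D * (4 * h - h ^ 2) + 4 * S * max D d0) / (3 * h ^ 2)
      = D * ((4 - h) / (3 * h)) + 4 / (3 * h ^ 2) * (S * max D d0) := by
    field_simp
  have hc0 : 0 ≤ (4 - h) / (3 * h) := div_nonneg (by linarith) (by linarith)
  have hd0' : 0 ≤ 4 / (3 * h ^ 2) := by positivity
  have hdd : 0 ≤ d := hd0'.trans hd
  have h1 : D * ((4 - h) / (3 * h)) ≤ Z * c :=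
    mul_le_mul hDZ hc hc0 hZ0
  have hmax : max D d0 ≤ max Z d0 := max_le_max hDZ le_rfl
  have hm0 : 0 ≤ S * max D d0 := mul_nonneg hS (le_max_of_le_left hD.le)
  have h2 : 4 / (3 * h ^ 2) * (S * max D d0) ≤ d * (S * max Z d0) :=
    mul_le_mul hd (mul_le_mul_of_nonneg_left hmax hS) hm0 hdd
  have h3 : w * F ≤ w * U := mul_le_mul_of_nonneg_left hU hw
  rw [e1]
  rcases le_total Z d0 with h4 | h4
  · rw [max_eq_right h4] at h2
    have e2 : d * (S * d0) = d0 * (d * S) := by ring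
    rw [e2] at h2
    linarith
  · rw [max_eq_left h4] at h2
    have e2 : d * (S * Z) = Z * (d * S) := by ring
    rw [e2] at h2
    have e3 : Z * (c + d * S) = Z * c + Z * (d * S) := by ring
    rw [e3] at E1
    linarith

/-! ### the check -/

open IA.F

/-- the line through `P` with slope `sl` per step is below the first `m` entries -/
noncomputable def lnOK (sl m : ℕ) : ℕ → List (ℕ × ℕ) → Bool :=
  @Nat.rec (fun _ => ℕ → List (ℕ × ℕ) → Bool) (fun _ _ => true)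
    (fun _ ih P l => @List.rec (ℕ × ℕ) (fun _ => Bool) false
      (fun e l' _ => cond (Nat.ble P e.1) (fn (Nat.add P sl) fun P' => cond (Nat.ble P' e.2) (ih P' l') false)
        false) l) m

theorem lnOK_sound (sl m P : ℕ) (l : List (ℕ × ℕ)) (h : lnOK sl m P l = true) (x : ℕ) (hx : x < m) :
    ∃ hl : x < l.length, P + x * sl ≤ l[x].1 ∧ P + (x + 1) * sl ≤ l[x].2 := by
  induction m generalizing P l x with
  | zero => omega
  | succ m ih =>
    cases l with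
    | nil => exact absurd (show false = true from h) (by simp)
    | cons e l =>
      obtain ⟨h1, h2⟩ := IA.cond_and (show cond (Nat.ble P e.1) (fn (Nat.add P sl) fun P' =>
        cond (Nat.ble P' e.2) (lnOK sl m P' l) false) false = true from h)
      rw [fn_eq] at h2
      obtain ⟨h3, h4⟩ := IA.cond_and h2
      rw [Nat.ble_eq] at h1 h3
      cases x with
      | zero =>
        refine ⟨by simp, ?_, ?_⟩
        · simpa using h1
        · simpa using h3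
      | succ x =>
        obtain ⟨hl, h5, h6⟩ := ih (P + sl) l h4 x (by omega)
        refine ⟨by simpa using hl, ?_, ?_⟩
        · simp only [List.getElem_cons_succ]
          calc P + (x + 1) * sl = P + sl + x * sl := by ring
            _ ≤ _ := h5
        · simp only [List.getElem_cons_succ]
          calc P + (x + 1 + 1) * sl = P + sl + (x + 1) * sl := by ring
            _ ≤ _ := h6

/-- the line is below `What` -/
theorem line_le (J m P sl : ℕ) (hJ : 15 ≤ J) (h : lnOK sl m P (pr.drop (J - 15)) = true) (s : ℝ)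
    (h1 : (J : ℝ) / 50 < s) (h2 : s ≤ ((J + m : ℕ) : ℝ) / 50) :
    (P + sl * (50 * s - J)) / 10000000 ≤ What s := by
  -- the interval of `s`
  obtain ⟨x, hx, hs1, hs2⟩ : ∃ x < m, ((J + x : ℕ) : ℝ) / 50 < s ∧ s ≤ (((J + x : ℕ) : ℝ) + 1) / 50 := by
    have hc : 0 < ⌈50 * s - J⌉₊ := Nat.ceil_pos.mpr (by linarith)
    have hle : 50 * s - J ≤ (⌈50 * s - J⌉₊ : ℝ) := Nat.le_ceil _
    have hlt : (⌈50 * s - J⌉₊ : ℝ) < 50 * s - J + 1 := Nat.ceil_lt_add_one (by linarith)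
    refine ⟨⌈50 * s - J⌉₊ - 1, ?_, ?_, ?_⟩
    · have h3 : ⌈50 * s - J⌉₊ ≤ m := by
        rw [Nat.ceil_le]
        push_cast at h2
        linarith
      omega
    · push_cast [Nat.cast_sub (Nat.succ_le_of_lt hc)]
      linarith
    · push_cast [Nat.cast_sub (Nat.succ_le_of_lt hc)]
      linarith
  obtain ⟨hl, h3, h4⟩ := lnOK_sound sl m P _ h x hx
  rw [List.getElem_drop] at h3 h4
  have hl' : J - 15 + x < pr.length := by
    rw [List.length_drop] at hl; omega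
  have e : 15 + (J - 15 + x) = J + x := by omega
  have hf := What_fine (J - 15 + x) hl' s (by rw [e]; exact hs1) (by rw [e]; exact hs2)
  rw [e] at hf
  refine le_trans ?_ hf
  have h3R : (P : ℝ) + x * sl ≤ (pr[J - 15 + x].1 : ℝ) := by exact_mod_cast h3
  have h4R : (P : ℝ) + (x + 1) * sl ≤ (pr[J - 15 + x].2 : ℝ) := by exact_mod_cast h4
  unfold lin
  push_cast at hs1 hs2 ⊢
  have a1 : 0 ≤ (J : ℝ) + x + 1 - 50 * s := by linarith
  have a2 : 0 ≤ 50 * s - ((J : ℝ) + x) := by linarith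
  have b1 := mul_le_mul_of_nonneg_left h3R a1
  have b2 := mul_le_mul_of_nonneg_left h4R a2
  rw [one_mul]
  refine div_le_div_of_nonneg_right ?_ (by norm_num)
  nlinarith

/-! ### bounds of the row function -/

/-- `t n k / 10^7` bounds the rows `(1; h, m^n)`, `h ≤ k/50` -/
def TabP (t : ℕ → ℕ → ℕ) (m : ℝ) : Prop := ∀ (n k : ℕ), n ≤ 5 → 15 ≤ k → k ≤ 50 →
  ∀ (κ : Type) [Fintype κ] [DecidableEq κ] (b : κ → ℝ) (i j : κ), i ≠ j → b i = 1 → 0 ≤ b j →
    b j ≤ (k : ℝ) / 50 → ∀ U : Finset κ, Disjoint ({i, j} : Finset κ) U → U.card = n →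
      F (hub b {i, j} U m) ≤ (t n k : ℝ) / 10000000

theorem tabP_A : TabP tA (1 / 5) := fun n k hn hk hk' _ _ _ b i j hij hi hj0 hj U hU hc =>
  F_A n k hn hk hk' b i j hij hi hj0 hj U hU hc

theorem tabP_B : TabP tB (3 / 10) := fun n k hn hk hk' _ _ _ b i j hij hi hj0 hj U hU hc =>
  F_B n k hn hk hk' b i j hij hi hj0 hj U hU hc

variable {κ : Type} [Fintype κ] [DecidableEq κ]

/-- interpolation in `h` -/
theorem F_hub_interp (t : ℕ → ℕ → ℕ) (m : ℝ) (hm0 : 0 ≤ m) (hm1 : m ≤ 1) (ht : TabP t m) (n k : ℕ)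
    (hn : n ≤ 5) (hk : 15 ≤ k) (hk' : k + 1 ≤ 50) (b : κ → ℝ) (i j : κ) (hij : i ≠ j) (hi : b i = 1)
    (h1 : (k : ℝ) / 50 ≤ b j) (h2 : b j ≤ ((k : ℝ) + 1) / 50) (U : Finset κ)
    (hU : Disjoint ({i, j} : Finset κ) U) (hc : U.card = n) :
    F (hub b {i, j} U m) ≤ (((k : ℝ) + 1 - 50 * b j) * t n k + (50 * b j - k) * t n (k + 1)) / 10000000 := by
  set B := hub b {i, j} U m with hB
  have hkR : (15 : ℝ) ≤ k := by exact_mod_cast hk
  have hkR' : (k : ℝ) + 1 ≤ 50 := by exact_mod_cast hk'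
  have hBi : B i = 1 := by rw [hB]; unfold hub; rw [if_pos (by simp), hi]
  have hB0 : ∀ c, 0 ≤ B c := by
    intro c
    rw [hB]; unfold hub
    split_ifs with h3 h4
    · rcases Finset.mem_insert.mp h3 with h5 | h5
      · rw [h5, hi]; exact zero_le_one
      · rw [Finset.mem_singleton.mp h5]; exact le_trans (by positivity) h1
    · exact hm0
    · exact le_rfl
  have hB1 : ∀ c, B c ≤ 1 := by
    intro c
    rw [hB]; unfold hub
    split_ifs with h3 h4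
    · rcases Finset.mem_insert.mp h3 with h5 | h5
      · rw [h5, hi]
      · rw [Finset.mem_singleton.mp h5]; linarith
    · exact hm1
    · exact zero_le_one
  have hcv := F_convexOn B hB0 hB1 i j hij hBi
  have hupd : ∀ x, Function.update B j x = hub (Function.update b j x) {i, j} U m := by
    intro x
    funext c
    by_cases hcj : c = j
    · subst hcj
      rw [Function.update_self]
      unfold hub
      rw [if_pos (by simp), Function.update_self]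
    · rw [Function.update_of_ne hcj, hB]
      unfold hub
      rw [Function.update_of_ne hcj]
  have hval : ∀ q : ℕ, 15 ≤ q → q ≤ 50 → F (Function.update B j ((q : ℝ) / 50)) ≤ (t n q : ℝ) / 10000000 := by
    intro q hq hq'
    rw [hupd]
    refine ht n q hn hq hq' κ _ i j hij ?_ ?_ ?_ U hU hc
    · rw [Function.update_of_ne hij, hi]
    · rw [Function.update_self]; positivity
    · rw [Function.update_self]
  have hch := hcv.2 (show (k : ℝ) / 50 ∈ Set.Icc (0 : ℝ) 1 from ⟨by positivity, by linarith⟩)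
    (show ((k + 1 : ℕ) : ℝ) / 50 ∈ Set.Icc (0 : ℝ) 1 from ⟨by positivity, by push_cast; linarith⟩)
    (show 0 ≤ (k : ℝ) + 1 - 50 * b j by linarith) (show 0 ≤ 50 * b j - k by linarith) (by ring)
  simp only [smul_eq_mul] at hch
  have e1 : ((k : ℝ) + 1 - 50 * b j) * ((k : ℝ) / 50) + (50 * b j - k) * (((k + 1 : ℕ) : ℝ) / 50) = b j := by
    push_cast; ring
  have e2 : Function.update B j (b j) = B := by
    rw [hupd, Function.update_eq_self]
  rw [e1, e2] at hch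
  have v1 := mul_le_mul_of_nonneg_left (hval k hk (by omega)) (show 0 ≤ (k : ℝ) + 1 - 50 * b j by linarith)
  have v2 := mul_le_mul_of_nonneg_left (hval (k + 1) (by omega) hk') (show 0 ≤ 50 * b j - k by linarith)
  have e3 : (((k : ℝ) + 1 - 50 * b j) * t n k + (50 * b j - k) * t n (k + 1)) / 10000000
      = ((k : ℝ) + 1 - 50 * b j) * ((t n k : ℝ) / 10000000) + (50 * b j - k) * ((t n (k + 1) : ℝ) / 10000000) := by
    ring
  rw [e3]
  linarith

/-- the crude bound -/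
theorem F_hub_ones (m : ℝ) (hm0 : 0 ≤ m) (hm1 : m ≤ 1) (b : κ → ℝ) (i j : κ) (hij : i ≠ j)
    (hi : b i = 1) (hj0 : 0 ≤ b j) (hj1 : b j ≤ 1) (U : Finset κ)
    (hU : Disjoint ({i, j} : Finset κ) U) : F (hub b {i, j} U m) ≤ Lone (U.card + 1) := by
  have hiU : i ∉ U := fun hh => by
    rw [Finset.disjoint_left] at hU
    exact hU (by simp) hh
  have hjU : j ∉ U := fun hh => by
    rw [Finset.disjoint_left] at hU
    exact hU (by simp) hh
  have hd : Disjoint ({i} : Finset κ) (insert j U) := by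
    rw [Finset.disjoint_singleton_left, Finset.mem_insert, not_or]
    exact ⟨hij, hiU⟩
  have h1 := F_ones b i hi (insert j U) hd
  rw [Finset.card_insert_of_notMem hjU] at h1
  refine le_trans (F_mono _ _ ?_ ?_ ⟨i, ?_⟩) h1
  · intro c
    unfold hub
    split_ifs with h3 h4
    · rcases Finset.mem_insert.mp h3 with h5 | h5
      · rw [h5, hi]; exact zero_le_one
      · rw [Finset.mem_singleton.mp h5]; exact hj0
    · exact hm0
    · exact le_rfl
  · intro c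
    unfold hub
    by_cases hci : c = i
    · subst hci
      rw [if_pos (by simp), if_pos (by simp)]
    · by_cases hcj : c = j
      · subst hcj
        rw [if_pos (by simp), if_neg (by simpa using hci), if_pos (by simp)]
        exact hj1
      · have hn : c ∉ ({i, j} : Finset κ) := by simp [hci, hcj]
        have hn' : c ∉ ({i} : Finset κ) := by simpa using hci
        rw [if_neg hn, if_neg hn']
        by_cases hcU : c ∈ U
        · have hin : c ∈ insert j U := by simp [hcU]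
          rw [if_pos hcU, if_pos hin]; exact hm1
        · have hin : c ∉ insert j U := by simp [hcj, hcU]
          rw [if_neg hcU, if_neg hin]
  · unfold hub
    rw [if_pos (by simp), hi]
    exact one_ne_zero

/-- the bilinear bound of the row function -/
noncomputable def gF (t : ℕ → ℕ → ℕ) (m : ℝ) (n k : ℕ) (h S : ℝ) : ℝ :=
  ((n : ℝ) + 1 - S / m) * ((((k : ℝ) + 1 - 50 * h) * t n k + (50 * h - k) * t n (k + 1)) / 10000000)
    + (S / m - n) * ((((k : ℝ) + 1 - 50 * h) * t (n + 1) k + (50 * h - k) * t (n + 1) (k + 1)) / 10000000)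

theorem F_le_gF (t : ℕ → ℕ → ℕ) (m : ℝ) (hm0 : 0 < m) (hm1 : m ≤ 1) (ht : TabP t m) (n k : ℕ)
    (hn : n ≤ 4) (hk : 15 ≤ k) (hk' : k + 1 ≤ 50) (b : κ → ℝ) (hb0 : ∀ c, 0 ≤ b c) (hb1 : ∀ c, b c ≤ 1)
    (i j : κ) (hij : i ≠ j) (hi : b i = 1)
    (h1 : (k : ℝ) / 50 ≤ b j) (h2 : b j ≤ ((k : ℝ) + 1) / 50) (hm : ∀ c, c ≠ i → c ≠ j → b c ≤ m)
    (hn1 : (n : ℝ) * m ≤ ∑ c ∈ ({i, j} : Finset κ)ᶜ, b c)
    (hn2 : ∑ c ∈ ({i, j} : Finset κ)ᶜ, b c ≤ ((n : ℝ) + 1) * m) :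
    F b ≤ gF t m n k (b j) (∑ c ∈ ({i, j} : Finset κ)ᶜ, b c) := by
  set L : ℕ → ℝ := fun q => if q ≤ 5 then
    (((k : ℝ) + 1 - 50 * b j) * t q k + (50 * b j - k) * t q (k + 1)) / 10000000 else Lone (q + 1) with hL
  have h := F_le_chord b hb0 hb1 i hi {i, j} (by simp) m hm0 hm1 (fun c hc => by
      rw [Finset.mem_insert, not_or, Finset.mem_singleton] at hc
      exact hm c hc.1 hc.2) L (fun U hU => by
      rw [hL]
      simp only
      split_ifs with h5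
      · exact F_hub_interp t m hm0.le hm1 ht U.card k h5 hk hk' b i j hij hi h1 h2 U hU rfl
      · exact F_hub_ones m hm0.le hm1 b i j hij hi (hb0 j) (hb1 j) U hU) n hn1 hn2
  rw [hL] at h
  simp only at h
  rw [if_pos (by omega), if_pos (by omega)] at h
  exact h

/-! ### one cell -/

theorem bil_poly (α β γ δ H0 H1 T0 T1 u v : ℝ) :
    bil (α + β * H0 + γ * T0 + δ * (H0 * T0)) (α + β * H0 + γ * T1 + δ * (H0 * T1))
      (α + β * H1 + γ * T0 + δ * (H1 * T0)) (α + β * H1 + γ * T1 + δ * (H1 * T1)) u v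
      = α + β * (H0 + u * (H1 - H0)) + γ * (T0 + v * (T1 - T0))
        + δ * ((H0 + u * (H1 - H0)) * (T0 + v * (T1 - T0))) := by
  unfold bil
  ring

theorem bil_congr {a b c d a' b' c' d' : ℝ} (u v : ℝ) (h1 : a = a') (h2 : b = b') (h3 : c = c')
    (h4 : d = d') : bil a b c d u v = bil a' b' c' d' u v := by rw [h1, h2, h3, h4]

theorem bil_sub (a b c d a' b' c' d' u v : ℝ) :
    bil (a - a') (b - b') (c - c') (d - d') u v = bil a b c d u v - bil a' b' c' d' u v := by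
  unfold bil; ring

/-- nine conditions -/
def nine (u00 u01 u10 u11 l00 l01 l10 l11 k00 k01 k10 k11 b00 b01 b10 b11 r : ℕ) : Bool :=
  cond (Nat.ble (Nat.add (Nat.mul u00 k00) b00) (Nat.add (Nat.mul l00 k00) r))
  (cond (Nat.ble (Nat.add (Nat.mul u01 k01) b01) (Nat.add (Nat.mul l01 k01) r))
  (cond (Nat.ble (Nat.add (Nat.mul u10 k10) b10) (Nat.add (Nat.mul l10 k10) r))
  (cond (Nat.ble (Nat.add (Nat.mul u11 k11) b11) (Nat.add (Nat.mul l11 k11) r))
  (cond (Nat.ble (Nat.add (Nat.add (Nat.mul u00 k01) (Nat.mul u01 k00)) (Nat.add b00 b01))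
    (Nat.add (Nat.add (Nat.mul l00 k01) (Nat.mul l01 k00)) (Nat.mul 2 r)))
  (cond (Nat.ble (Nat.add (Nat.add (Nat.mul u10 k11) (Nat.mul u11 k10)) (Nat.add b10 b11))
    (Nat.add (Nat.add (Nat.mul l10 k11) (Nat.mul l11 k10)) (Nat.mul 2 r)))
  (cond (Nat.ble (Nat.add (Nat.add (Nat.mul u00 k10) (Nat.mul u10 k00)) (Nat.add b00 b10))
    (Nat.add (Nat.add (Nat.mul l00 k10) (Nat.mul l10 k00)) (Nat.mul 2 r)))
  (cond (Nat.ble (Nat.add (Nat.add (Nat.mul u01 k11) (Nat.mul u11 k01)) (Nat.add b01 b11))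
    (Nat.add (Nat.add (Nat.mul l01 k11) (Nat.mul l11 k01)) (Nat.mul 2 r)))
  (Nat.ble (Nat.add (Nat.add (Nat.add (Nat.mul u00 k11) (Nat.mul u11 k00))
      (Nat.add (Nat.mul u01 k10) (Nat.mul u10 k01))) (Nat.add (Nat.add b00 b01) (Nat.add b10 b11)))
    (Nat.add (Nat.add (Nat.add (Nat.mul l00 k11) (Nat.mul l11 k00))
      (Nat.add (Nat.mul l01 k10) (Nat.mul l10 k01))) (Nat.mul 4 r))) false) false) false) false) false)
      false) false) false

theorem nine_sound (u00 u01 u10 u11 l00 l01 l10 l11 k00 k01 k10 k11 b00 b01 b10 b11 r : ℕ)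
    (h : nine u00 u01 u10 u11 l00 l01 l10 l11 k00 k01 k10 k11 b00 b01 b10 b11 r = true) (u v : ℝ)
    (hu0 : 0 ≤ u) (hu1 : u ≤ 1) (hv0 : 0 ≤ v) (hv1 : v ≤ 1) :
    (bil u00 u01 u10 u11 u v - bil l00 l01 l10 l11 u v) * bil k00 k01 k10 k11 u v
      + bil b00 b01 b10 b11 u v ≤ r := by
  unfold nine at h
  obtain ⟨h1, h⟩ := IA.cond_and h
  obtain ⟨h2, h⟩ := IA.cond_and h
  obtain ⟨h3, h⟩ := IA.cond_and h
  obtain ⟨h4, h⟩ := IA.cond_and h
  obtain ⟨h5, h⟩ := IA.cond_and h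
  obtain ⟨h6, h⟩ := IA.cond_and h
  obtain ⟨h7, h⟩ := IA.cond_and h
  obtain ⟨h8, h9⟩ := IA.cond_and h
  rw [Nat.ble_eq] at h1 h2 h3 h4 h5 h6 h7 h8 h9
  have g1 : (u00 : ℝ) * k00 + b00 ≤ l00 * k00 + r := by exact_mod_cast h1
  have g2 : (u01 : ℝ) * k01 + b01 ≤ l01 * k01 + r := by exact_mod_cast h2
  have g3 : (u10 : ℝ) * k10 + b10 ≤ l10 * k10 + r := by exact_mod_cast h3
  have g4 : (u11 : ℝ) * k11 + b11 ≤ l11 * k11 + r := by exact_mod_cast h4
  have g5 : ((u00 : ℝ) * k01 + u01 * k00) + (b00 + b01) ≤ (l00 * k01 + l01 * k00) + 2 * r := by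
    exact_mod_cast h5
  have g6 : ((u10 : ℝ) * k11 + u11 * k10) + (b10 + b11) ≤ (l10 * k11 + l11 * k10) + 2 * r := by
    exact_mod_cast h6
  have g7 : ((u00 : ℝ) * k10 + u10 * k00) + (b00 + b10) ≤ (l00 * k10 + l10 * k00) + 2 * r := by
    exact_mod_cast h7
  have g8 : ((u01 : ℝ) * k11 + u11 * k01) + (b01 + b11) ≤ (l01 * k11 + l11 * k01) + 2 * r := by
    exact_mod_cast h8
  have g9 : (((u00 : ℝ) * k11 + u11 * k00) + (u01 * k10 + u10 * k01)) + ((b00 + b01) + (b10 + b11))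
      ≤ ((l00 * k11 + l11 * k00) + (l01 * k10 + l10 * k01)) + 4 * r := by exact_mod_cast h9
  rw [← bil_sub]
  exact bern _ _ _ _ _ _ _ _ _ _ _ _ _ u v hu0 hu1 hv0 hv1 (by linarith) (by linarith) (by linarith)
    (by linarith) (by linarith) (by linarith) (by linarith) (by linarith) (by linarith)

/-- value of the line at the corner, over `4 * 10^7 * M` -/
def lc (M P sl J H T : ℕ) : ℕ := Nat.mul M (Nat.add (Nat.mul 4 P) (Nat.mul sl (Nat.sub (Nat.add H T) (Nat.mul 4 J))))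

/-- value of the bound of the row function at the corner, over `4 * 10^7 * M` -/
def uc (x y A A' : ℕ) : ℕ := Nat.add (Nat.mul x A) (Nat.mul y A')

/-- the check of one cell `[H0, H1] x [T0, T1]` -/
noncomputable def cellOK (H0 H1 M c0 c1 d0 d1 w2 aM r e0 e1 n A0 A0' A1 A1' z T0 T1 J P sl : ℕ) : Bool :=
  fn (Nat.sub (Nat.mul (Nat.add n 1) M) T0) fun x0 => fn (Nat.sub T0 (Nat.mul n M)) fun y0 =>
  fn (Nat.sub (Nat.mul (Nat.add n 1) M) T1) fun x1 => fn (Nat.sub T1 (Nat.mul n M)) fun y1 =>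
  fn (uc x0 y0 A0 A0') fun u00 => fn (uc x1 y1 A0 A0') fun u01 =>
  fn (uc x0 y0 A1 A1') fun u10 => fn (uc x1 y1 A1 A1') fun u11 =>
  fn (lc M P sl J H0 T0) fun l00 => fn (lc M P sl J H0 T1) fun l01 =>
  fn (lc M P sl J H1 T0) fun l10 => fn (lc M P sl J H1 T1) fun l11 =>
  cond (Nat.beq z 1) (cond (Nat.ble u00 l00) (cond (Nat.ble u01 l01) (cond (Nat.ble u10 l10)
    (Nat.ble u11 l11) false) false) false)
  (fn (Nat.mul 200 c0) fun q0 => fn (Nat.mul 200 c1) fun q1 =>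
  fn (Nat.add q0 (Nat.mul d0 T0)) fun k00 => fn (Nat.add q0 (Nat.mul d0 T1)) fun k01 =>
  fn (Nat.add q1 (Nat.mul d1 T0)) fun k10 => fn (Nat.add q1 (Nat.mul d1 T1)) fun k11 =>
  fn (Nat.add (Nat.mul w2 u00) (Nat.mul aM T0)) fun b00 => fn (Nat.add (Nat.mul w2 u01) (Nat.mul aM T1)) fun b01 =>
  fn (Nat.add (Nat.mul w2 u10) (Nat.mul aM T0)) fun b10 => fn (Nat.add (Nat.mul w2 u11) (Nat.mul aM T1)) fun b11 =>
  cond (nine u00 u01 u10 u11 l00 l01 l10 l11 k00 k01 k10 k11 b00 b01 b10 b11 r)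
    (fn (Nat.add b00 (Nat.mul e0 T0)) fun f00 => fn (Nat.add b01 (Nat.mul e0 T1)) fun f01 =>
     fn (Nat.add b10 (Nat.mul e1 T0)) fun f10 => fn (Nat.add b11 (Nat.mul e1 T1)) fun f11 =>
     nine u00 u01 u10 u11 l00 l01 l10 l11 q0 q0 q1 q1 f00 f01 f10 f11 r) false)

/-- the interpolated table value over `4 * 10^7` -/
def gN (t : ℕ → ℕ → ℕ) (k H n : ℕ) : ℕ :=
  Nat.add (Nat.mul (Nat.sub (Nat.mul 4 (Nat.add k 1)) H) (t n k)) (Nat.mul (Nat.sub H (Nat.mul 4 k)) (t n (Nat.add k 1)))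

theorem uc_real (t : ℕ → ℕ → ℕ) (k n M H T : ℕ) (h1 : 4 * k ≤ H) (h2 : H ≤ 4 * (k + 1))
    (h3 : n * M ≤ T) (h4 : T ≤ (n + 1) * M) :
    ((uc (Nat.sub (Nat.mul (Nat.add n 1) M) T) (Nat.sub T (Nat.mul n M)) (gN t k H n) (gN t k H (n + 1)) : ℕ) : ℝ)
      = (((n : ℝ) + 1) * M - T) * ((4 * ((k : ℝ) + 1) - H) * t n k + (H - 4 * k) * t n (k + 1))
        + (T - n * M) * ((4 * ((k : ℝ) + 1) - H) * t (n + 1) k + (H - 4 * k) * t (n + 1) (k + 1)) := by
  have e1 : uc (Nat.sub (Nat.mul (Nat.add n 1) M) T) (Nat.sub T (Nat.mul n M)) (gN t k H n) (gN t k H (n + 1))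
      = ((n + 1) * M - T) * ((4 * (k + 1) - H) * t n k + (H - 4 * k) * t n (k + 1))
        + (T - n * M) * ((4 * (k + 1) - H) * t (n + 1) k + (H - 4 * k) * t (n + 1) (k + 1)) := rfl
  rw [e1]
  push_cast [Nat.cast_sub h1, Nat.cast_sub h2, Nat.cast_sub h3, Nat.cast_sub h4]
  ring

theorem lc_real (M P sl J H T : ℕ) (h : 4 * J ≤ H + T) :
    ((lc M P sl J H T : ℕ) : ℝ) = M * (4 * P + sl * ((H : ℝ) + T - 4 * J)) := by
  have e1 : lc M P sl J H T = M * (4 * P + sl * (H + T - 4 * J)) := rfl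
  rw [e1]
  push_cast [Nat.cast_sub h]
  ring

theorem gF_scaled (t : ℕ → ℕ → ℕ) (k n M : ℕ) (hM : 0 < M) (h S : ℝ) :
    40000000 * (M : ℝ) * gF t ((M : ℝ) / 200) n k h S
      = (((n : ℝ) + 1) * M - 200 * S) * ((4 * ((k : ℝ) + 1) - 200 * h) * t n k + (200 * h - 4 * k) * t n (k + 1))
        + (200 * S - n * M) * ((4 * ((k : ℝ) + 1) - 200 * h) * t (n + 1) k
          + (200 * h - 4 * k) * t (n + 1) (k + 1)) := by
  have hMR : (M : ℝ) ≠ 0 := by positivity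
  unfold gF
  field_simp
  ring

/-- SOUNDNESS OF A CELL. -/
theorem cell_sound (t : ℕ → ℕ → ℕ) (k H0 H1 M c0 c1 d0 d1 wN aN rN dN n z T0 T1 J P sl : ℕ)
    (hM : 0 < M) (hH : H0 < H1) (hk0 : 4 * k ≤ H0) (hk1 : H1 ≤ 4 * (k + 1)) (hH0 : 0 < H0)
    (hH1 : H1 ≤ 200)
    (hT : T0 < T1) (hn0 : n * M ≤ T0) (hn1 : T1 ≤ (n + 1) * M) (hJ : 4 * J ≤ H0 + T0)
    (hc0 : (4 - (H0 : ℝ) / 200) / (3 * ((H0 : ℝ) / 200)) ≤ (c0 : ℝ) / 1000000)
    (hc1 : (4 - (H1 : ℝ) / 200) / (3 * ((H1 : ℝ) / 200)) ≤ (c1 : ℝ) / 1000000)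
    (hd0 : 4 / (3 * ((H0 : ℝ) / 200) ^ 2) ≤ (d0 : ℝ) / 1000000)
    (hd1 : 4 / (3 * ((H1 : ℝ) / 200) ^ 2) ≤ (d1 : ℝ) / 1000000)
    (hchk : cellOK H0 H1 M c0 c1 d0 d1 (200 * wN) (aN * M * 40000000) (rN * M * 8000000000)
      (4 * dN * d0 * M) (4 * dN * d1 * M) n (gN t k H0 n) (gN t k H0 (n + 1)) (gN t k H1 n)
      (gN t k H1 (n + 1)) z T0 T1 J P sl = true)
    (h S Fv W : ℝ) (h0 : (H0 : ℝ) / 200 ≤ h) (h1 : h ≤ (H1 : ℝ) / 200) (s0 : (T0 : ℝ) / 200 ≤ S)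
    (s1 : S ≤ (T1 : ℝ) / 200) (hF : Fv ≤ gF t ((M : ℝ) / 200) n k h S)
    (hL : ((P : ℝ) + sl * (50 * (h + S) - J)) / 10000000 ≤ W) :
    (z = 1 → Fv ≤ W) ∧ (z ≠ 1 → 0 < Fv - W →
      ((Fv - W) * (4 * h - h ^ 2) + 4 * S * max (Fv - W) ((dN : ℝ) / 10000000)) / (3 * h ^ 2)
        + (wN : ℝ) / 1000000 * Fv + (aN : ℝ) / 1000000 * S ≤ (rN : ℝ) / 1000000) := by
  have hMR : (0 : ℝ) < M := by exact_mod_cast hM
  have hHR : (H0 : ℝ) < H1 := by exact_mod_cast hH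
  have hTR : (T0 : ℝ) < T1 := by exact_mod_cast hT
  have hH0R : (0 : ℝ) < H0 := by exact_mod_cast hH0
  set u : ℝ := (200 * h - H0) / (H1 - H0) with hu
  set v : ℝ := (200 * S - T0) / (T1 - T0) with hv
  have hu0 : 0 ≤ u := div_nonneg (by linarith) (by linarith)
  have hu1 : u ≤ 1 := (div_le_one (by linarith)).mpr (by linarith)
  have hv0 : 0 ≤ v := div_nonneg (by linarith) (by linarith)
  have hv1 : v ≤ 1 := (div_le_one (by linarith)).mpr (by linarith)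
  have hh : 200 * h = H0 + u * (H1 - H0) := by
    rw [hu, div_mul_cancel₀ _ (by linarith : (H1 : ℝ) - H0 ≠ 0)]
    ring
  have hS : 200 * S = T0 + v * (T1 - T0) := by
    rw [hv, div_mul_cancel₀ _ (by linarith : (T1 : ℝ) - T0 ≠ 0)]
    ring
  unfold cellOK at hchk
  simp only [fn_eq] at hchk
  -- the interpolations
  have hU : bil (uc (Nat.sub (Nat.mul (Nat.add n 1) M) T0) (Nat.sub T0 (Nat.mul n M)) (gN t k H0 n) (gN t k H0 (n + 1)) : ℕ)
      (uc (Nat.sub (Nat.mul (Nat.add n 1) M) T1) (Nat.sub T1 (Nat.mul n M)) (gN t k H0 n) (gN t k H0 (n + 1)) : ℕ)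
      (uc (Nat.sub (Nat.mul (Nat.add n 1) M) T0) (Nat.sub T0 (Nat.mul n M)) (gN t k H1 n) (gN t k H1 (n + 1)) : ℕ)
      (uc (Nat.sub (Nat.mul (Nat.add n 1) M) T1) (Nat.sub T1 (Nat.mul n M)) (gN t k H1 n) (gN t k H1 (n + 1)) : ℕ) u v
      = 40000000 * (M : ℝ) * gF t ((M : ℝ) / 200) n k h S := by
    rw [gF_scaled t k n M hM h S, uc_real t k n M H0 T0 hk0 (by omega) hn0 (by omega),
      uc_real t k n M H0 T1 hk0 (by omega) (by omega) hn1,
      uc_real t k n M H1 T0 (by omega) hk1 hn0 (by omega),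
      uc_real t k n M H1 T1 (by omega) hk1 (by omega) hn1, hh, hS]
    generalize (t n k : ℝ) = x1
    generalize (t n (k + 1) : ℝ) = x2
    generalize (t (n + 1) k : ℝ) = x3
    generalize (t (n + 1) (k + 1) : ℝ) = x4
    unfold bil
    ring
  have hLb : bil (lc M P sl J H0 T0 : ℕ) (lc M P sl J H0 T1 : ℕ) (lc M P sl J H1 T0 : ℕ)
      (lc M P sl J H1 T1 : ℕ) u v
      = 40000000 * (M : ℝ) * (((P : ℝ) + sl * (50 * (h + S) - J)) / 10000000) := by
    rw [lc_real M P sl J H0 T0 hJ, lc_real M P sl J H0 T1 (by omega), lc_real M P sl J H1 T0 (by omega),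
      lc_real M P sl J H1 T1 (by omega)]
    have e : (50 : ℝ) * (h + S) = ((H0 + u * (H1 - H0)) + (T0 + v * (T1 - T0))) / 4 := by
      rw [← hh, ← hS]; ring
    rw [e]
    unfold bil
    ring
  generalize uc (Nat.sub (Nat.mul (Nat.add n 1) M) T0) (Nat.sub T0 (Nat.mul n M)) (gN t k H0 n)
    (gN t k H0 (n + 1)) = u00 at hchk hU
  generalize uc (Nat.sub (Nat.mul (Nat.add n 1) M) T1) (Nat.sub T1 (Nat.mul n M)) (gN t k H0 n)
    (gN t k H0 (n + 1)) = u01 at hchk hU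
  generalize uc (Nat.sub (Nat.mul (Nat.add n 1) M) T0) (Nat.sub T0 (Nat.mul n M)) (gN t k H1 n)
    (gN t k H1 (n + 1)) = u10 at hchk hU
  generalize uc (Nat.sub (Nat.mul (Nat.add n 1) M) T1) (Nat.sub T1 (Nat.mul n M)) (gN t k H1 n)
    (gN t k H1 (n + 1)) = u11 at hchk hU
  generalize lc M P sl J H0 T0 = l00 at hchk hLb
  generalize lc M P sl J H0 T1 = l01 at hchk hLb
  generalize lc M P sl J H1 T0 = l10 at hchk hLb
  generalize lc M P sl J H1 T1 = l11 at hchk hLb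
  set U := gF t ((M : ℝ) / 200) n k h S with hUdef
  set L := ((P : ℝ) + sl * (50 * (h + S) - J)) / 10000000 with hLdef
  refine ⟨fun hz => ?_, fun hz hD => ?_⟩
  · rw [hz, show Nat.beq 1 1 = true from rfl, cond_true] at hchk
    obtain ⟨g1, hchk⟩ := IA.cond_and hchk
    obtain ⟨g2, hchk⟩ := IA.cond_and hchk
    obtain ⟨g3, g4⟩ := IA.cond_and hchk
    rw [Nat.ble_eq] at g1 g2 g3 g4
    have g1R : (u00 : ℝ) - l00 ≤ 0 := by
      have : (u00 : ℝ) ≤ l00 := by exact_mod_cast g1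
      linarith
    have g2R : (u01 : ℝ) - l01 ≤ 0 := by
      have : (u01 : ℝ) ≤ l01 := by exact_mod_cast g2
      linarith
    have g3R : (u10 : ℝ) - l10 ≤ 0 := by
      have : (u10 : ℝ) ≤ l10 := by exact_mod_cast g3
      linarith
    have g4R : (u11 : ℝ) - l11 ≤ 0 := by
      have : (u11 : ℝ) ≤ l11 := by exact_mod_cast g4
      linarith
    have := bil_nonpos _ _ _ _ u v hu0 hu1 hv0 hv1 g1R g2R g3R g4R
    rw [bil_sub, hU, hLb] at this
    have h5 : 40000000 * (M : ℝ) * (U - L) ≤ 0 := by linarith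
    have h6 : U - L ≤ 0 := by
      by_contra hc
      push Not at hc
      have := mul_pos (show (0 : ℝ) < 40000000 * M by positivity) hc
      linarith
    linarith
  · have hbz : Nat.beq z 1 = false := by
      cases hb : Nat.beq z 1 with
      | false => rfl
      | true => exact absurd (Nat.eq_of_beq_eq_true hb) hz
    rw [hbz, cond_false] at hchk
    obtain ⟨g1, g2⟩ := IA.cond_and hchk
    have n1 := nine_sound _ _ _ _ _ _ _ _ _ _ _ _ _ _ _ _ _ g1 u v hu0 hu1 hv0 hv1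
    have n2 := nine_sound _ _ _ _ _ _ _ _ _ _ _ _ _ _ _ _ _ g2 u v hu0 hu1 hv0 hv1
    rw [hU, hLb] at n1 n2
    set c : ℝ := ((1 - u) * c0 + u * c1) / 1000000 with hc
    set d : ℝ := ((1 - u) * d0 + u * d1) / 1000000 with hd
    have hK1 : bil (Nat.add (Nat.mul 200 c0) (Nat.mul d0 T0) : ℕ) (Nat.add (Nat.mul 200 c0) (Nat.mul d0 T1) : ℕ)
        (Nat.add (Nat.mul 200 c1) (Nat.mul d1 T0) : ℕ) (Nat.add (Nat.mul 200 c1) (Nat.mul d1 T1) : ℕ) u v
        = 200000000 * (c + d * S) := by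
      have e : (200000000 : ℝ) * (c + d * S) = 200 * ((1 - u) * c0 + u * c1)
          + ((1 - u) * d0 + u * d1) * (200 * S) := by
        rw [hc, hd]; ring
      rw [e, hS]
      simp only [Nat.add_eq, Nat.mul_eq]
      push_cast
      unfold bil
      ring
    have hK2 : bil (Nat.mul 200 c0 : ℕ) (Nat.mul 200 c0 : ℕ) (Nat.mul 200 c1 : ℕ) (Nat.mul 200 c1 : ℕ) u v
        = 200000000 * c := by
      have e : (200000000 : ℝ) * c = 200 * ((1 - u) * c0 + u * c1) := by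
        rw [hc]; ring
      rw [e]
      simp only [Nat.mul_eq]
      push_cast
      unfold bil
      ring
    have hB1 : bil (Nat.add (Nat.mul (200 * wN) u00) (Nat.mul (aN * M * 40000000) T0) : ℕ)
        (Nat.add (Nat.mul (200 * wN) u01) (Nat.mul (aN * M * 40000000) T1) : ℕ)
        (Nat.add (Nat.mul (200 * wN) u10) (Nat.mul (aN * M * 40000000) T0) : ℕ)
        (Nat.add (Nat.mul (200 * wN) u11) (Nat.mul (aN * M * 40000000) T1) : ℕ) u v
        = 8000000000000000 * M * ((wN : ℝ) / 1000000 * U + (aN : ℝ) / 1000000 * S) := by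
      have e : 8000000000000000 * (M : ℝ) * ((wN : ℝ) / 1000000 * U + (aN : ℝ) / 1000000 * S)
          = 200 * wN * (40000000 * (M : ℝ) * U) + aN * M * 40000000 * (200 * S) := by ring
      rw [e, ← hU, hS]
      simp only [Nat.add_eq, Nat.mul_eq]
      push_cast
      unfold bil
      ring
    have hB2 : bil (Nat.add (Nat.add (Nat.mul (200 * wN) u00) (Nat.mul (aN * M * 40000000) T0))
          (Nat.mul (4 * dN * d0 * M) T0) : ℕ)
        (Nat.add (Nat.add (Nat.mul (200 * wN) u01) (Nat.mul (aN * M * 40000000) T1))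
          (Nat.mul (4 * dN * d0 * M) T1) : ℕ)
        (Nat.add (Nat.add (Nat.mul (200 * wN) u10) (Nat.mul (aN * M * 40000000) T0))
          (Nat.mul (4 * dN * d1 * M) T0) : ℕ)
        (Nat.add (Nat.add (Nat.mul (200 * wN) u11) (Nat.mul (aN * M * 40000000) T1))
          (Nat.mul (4 * dN * d1 * M) T1) : ℕ) u v
        = 8000000000000000 * M * ((wN : ℝ) / 1000000 * U + (aN : ℝ) / 1000000 * S
          + (dN : ℝ) / 10000000 * (d * S)) := by
      have e : 8000000000000000 * (M : ℝ) * ((wN : ℝ) / 1000000 * U + (aN : ℝ) / 1000000 * S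
          + (dN : ℝ) / 10000000 * (d * S))
          = 200 * wN * (40000000 * (M : ℝ) * U) + aN * M * 40000000 * (200 * S)
            + 4 * dN * M * (((1 - u) * d0 + u * d1) * (200 * S)) := by rw [hd]; ring
      rw [e, ← hU, hS]
      simp only [Nat.add_eq, Nat.mul_eq]
      push_cast
      unfold bil
      ring
    rw [hK1, hB1] at n1
    rw [hK2, hB2] at n2
    have hr : ((rN * M * 8000000000 : ℕ) : ℝ) = 8000000000000000 * M * ((rN : ℝ) / 1000000) := by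
      push_cast; ring
    rw [hr] at n1 n2
    have hpos : (0 : ℝ) < 8000000000000000 * M := by positivity
    have E1 : (U - L) * (c + d * S) + ((wN : ℝ) / 1000000 * U + (aN : ℝ) / 1000000 * S)
        ≤ (rN : ℝ) / 1000000 := by
      refine le_of_mul_le_mul_left ?_ hpos
      linarith
    have E2 : (U - L) * c + ((wN : ℝ) / 1000000 * U + (aN : ℝ) / 1000000 * S
        + (dN : ℝ) / 10000000 * (d * S)) ≤ (rN : ℝ) / 1000000 := by
      refine le_of_mul_le_mul_left ?_ hpos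
      linarith
    have hH1R : (H1 : ℝ) ≤ 200 := by exact_mod_cast hH1
    have ehh : h = (1 - u) * ((H0 : ℝ) / 200) + u * ((H1 : ℝ) / 200) := by linarith
    have hcc := chord_c ((H0 : ℝ) / 200) ((H1 : ℝ) / 200) u _ _ (by positivity) (by linarith) hu0 hu1 hc0 hc1
    have hdd := chord_d ((H0 : ℝ) / 200) ((H1 : ℝ) / 200) u _ _ (by positivity) (by linarith) hu0 hu1 hd0 hd1
    rw [← ehh] at hcc hdd
    exact need_le Fv W h S _ _ _ _ U L c d (by linarith) (by linarith) (by linarith [show (0 : ℝ) ≤ (T0 : ℝ) / 200 by positivity])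
      (by positivity) hD hF hL (hcc.trans (le_of_eq (by rw [hc]; ring))) (hdd.trans (le_of_eq (by rw [hd]; ring)))
      E1 E2

/-! ### lists of cells -/

/-- drop `n` elements before the continuation -/
noncomputable def dropK (n : ℕ) : List (ℕ × ℕ) → (List (ℕ × ℕ) → Bool) → Bool :=
  @Nat.rec (fun _ => List (ℕ × ℕ) → (List (ℕ × ℕ) → Bool) → Bool) (fun l k => k l)
    (fun _ ih l k => @List.rec (ℕ × ℕ) (fun _ => Bool) (k []) (fun _ l' _ => ih l' k) l) n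

theorem dropK_eq (n : ℕ) (l : List (ℕ × ℕ)) (k : List (ℕ × ℕ) → Bool) : dropK n l k = k (l.drop n) := by
  induction n generalizing l with
  | zero => rfl
  | succ n ih =>
    cases l with
    | nil => rfl
    | cons a l => exact ih l

/-- evaluate the elements of a list before the continuation -/
noncomputable def fl (l : List ℕ) : (List ℕ → Bool) → Bool :=
  @List.rec ℕ (fun _ => (List ℕ → Bool) → Bool) (fun k => k [])
    (fun a _ ih k => fn a fun a => ih fun l => k (a :: l)) l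

theorem fl_eq (l : List ℕ) (k : List ℕ → Bool) : fl l k = k l := by
  induction l generalizing k with
  | nil => rfl
  | cons a l ih =>
    show fn a (fun a => fl l fun l => k (a :: l)) = k (a :: l)
    rw [fn_eq, ih]

/-- a cell: kind, steps of the table index, right end, number of table entries, line -/
abbrev Ce := ℕ × ℕ × ℕ × ℕ × ℕ × ℕ

/-- the check of one cell with its side conditions -/
noncomputable def ceOK (H0 H1 M c0 c1 d0 d1 w2 aM r e0 e1 : ℕ) (A0 A1 : List ℕ) (c : Ce) (T0 J n : ℕ)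
    (suf : List (ℕ × ℕ)) : Bool :=
  cond (Nat.ble (Nat.add T0 1) c.2.2.1) (cond (Nat.ble c.2.2.1 (Nat.mul (Nat.add n 1) M)) (cond (Nat.ble n 4)
    (cond (Nat.ble (Nat.mul 4 J) (Nat.add H0 T0))
      (cond (Nat.ble (Nat.add H1 c.2.2.1) (Nat.mul 4 (Nat.add J c.2.2.2.1)))
        (cond (lnOK c.2.2.2.2.2 c.2.2.2.1 c.2.2.2.2.1 suf)
          (fn (A0.getD n 0) fun a0 => fn (A0.getD (Nat.add n 1) 0) fun a0' =>
           fn (A1.getD n 0) fun a1 => fn (A1.getD (Nat.add n 1) 0) fun a1' =>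
            cellOK H0 H1 M c0 c1 d0 d1 w2 aM r e0 e1 n a0 a0' a1 a1' c.1 T0 c.2.2.1 J c.2.2.2.2.1 c.2.2.2.2.2)
          false) false) false) false) false) false

/-- the check of a list of cells, ending at `Te` -/
noncomputable def cellsOK (H0 H1 M c0 c1 d0 d1 w2 aM r e0 e1 : ℕ) (A0 A1 : List ℕ) (Te : ℕ) (cs : List Ce) :
    ℕ → ℕ → List (ℕ × ℕ) → Bool :=
  @List.rec Ce (fun _ => ℕ → ℕ → List (ℕ × ℕ) → Bool) (fun T0 _ _ => Nat.ble Te T0)
    (fun c _ ih T0 J suf => dropK c.2.1 suf fun suf => fn (Nat.add J c.2.1) fun J => fn (Nat.div T0 M) fun n =>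
      cond (ceOK H0 H1 M c0 c1 d0 d1 w2 aM r e0 e1 A0 A1 c T0 J n suf) (ih c.2.2.1 J suf) false) cs

/-- the cell which contains `S` -/
theorem cells_get (H0 H1 M c0 c1 d0 d1 w2 aM r e0 e1 : ℕ) (A0 A1 : List ℕ) (Te : ℕ)
    (cs : List Ce) : ∀ (T0 J : ℕ), 15 ≤ J →
    cellsOK H0 H1 M c0 c1 d0 d1 w2 aM r e0 e1 A0 A1 Te cs T0 J (pr.drop (J - 15)) = true →
    ∀ S : ℝ, (T0 : ℝ) / 200 ≤ S → (cs ≠ [] ∨ (T0 : ℝ) / 200 < S) → S ≤ (Te : ℝ) / 200 →
    ∃ c ∈ cs, ∃ T0 J : ℕ, 15 ≤ J ∧ (T0 : ℝ) / 200 ≤ S ∧ S ≤ (c.2.2.1 : ℝ) / 200 ∧ (T0 / M) * M ≤ T0 ∧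
      ceOK H0 H1 M c0 c1 d0 d1 w2 aM r e0 e1 A0 A1 c T0 J (T0 / M) (pr.drop (J - 15)) = true := by
  induction cs with
  | nil =>
    intro T0 J _ h S _ h1 h2
    rcases h1 with h1 | h1
    · exact absurd rfl h1
    have h3 : Te ≤ T0 := by
      have : Nat.ble Te T0 = true := h
      rwa [Nat.ble_eq] at this
    have h4 : (Te : ℝ) ≤ T0 := by exact_mod_cast h3
    exact absurd h2 (by push Not; linarith)
  | cons c cs ih =>
    intro T0 J hJ h S h1 _ h2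
    have h' : dropK c.2.1 (pr.drop (J - 15)) (fun suf => fn (Nat.add J c.2.1) fun J => fn (Nat.div T0 M) fun n =>
      cond (ceOK H0 H1 M c0 c1 d0 d1 w2 aM r e0 e1 A0 A1 c T0 J n suf)
        (cellsOK H0 H1 M c0 c1 d0 d1 w2 aM r e0 e1 A0 A1 Te cs c.2.2.1 J suf) false) = true := h
    rw [dropK_eq, fn_eq, fn_eq] at h'
    obtain ⟨g1, g2⟩ := IA.cond_and h'
    have e : (pr.drop (J - 15)).drop c.2.1 = pr.drop (J + c.2.1 - 15) := by
      rw [List.drop_drop]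
      congr 1
      omega
    rw [e] at g1 g2
    have hJ' : 15 ≤ J + c.2.1 := by omega
    rcases le_or_gt S ((c.2.2.1 : ℝ) / 200) with hS | hS
    · exact ⟨c, by simp, T0, J + c.2.1, hJ', h1, hS, Nat.div_mul_le_self _ _, g1⟩
    · obtain ⟨c', hc', T, J', r1, r2, r3, r4, r5⟩ := ih c.2.2.1 (J + c.2.1) hJ' g2 S hS.le (Or.inr hS) h2
      exact ⟨c', by simp [hc'], T, J', r1, r2, r3, r4, r5⟩

/-- the check of a box; the cells start at `Ts`, at the table index `Js` -/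
noncomputable def boxOK (t : ℕ → ℕ → ℕ) (k H0 H1 M wN aN rN dN Ts Js Te : ℕ) (cs : List Ce) : Bool :=
  cond (Nat.ble 15 k) (cond (Nat.ble (Nat.add k 1) 50) (cond (Nat.ble (Nat.mul 4 k) H0)
    (cond (Nat.ble (Nat.add H0 1) H1) (cond (Nat.ble H1 (Nat.mul 4 (Nat.add k 1))) (cond (Nat.ble 1 M)
      (cond (Nat.ble M 200) (cond (Nat.ble 15 Js)
  (fn (Nat.add (Nat.div (Nat.mul (Nat.sub 800 H0) 1000000) (Nat.mul 3 H0)) 1) fun c0 =>
   fn (Nat.add (Nat.div (Nat.mul (Nat.sub 800 H1) 1000000) (Nat.mul 3 H1)) 1) fun c1 =>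
   fn (Nat.add (Nat.div 160000000000 (Nat.mul 3 (Nat.mul H0 H0))) 1) fun d0 =>
   fn (Nat.add (Nat.div 160000000000 (Nat.mul 3 (Nat.mul H1 H1))) 1) fun d1 =>
   fn (Nat.mul 200 wN) fun w2 => fn (Nat.mul (Nat.mul aN M) 40000000) fun aM =>
   fn (Nat.mul (Nat.mul rN M) 8000000000) fun r =>
   fn (Nat.mul (Nat.mul (Nat.mul 4 dN) d0) M) fun e0 => fn (Nat.mul (Nat.mul (Nat.mul 4 dN) d1) M) fun e1 =>
   fl [gN t k H0 0, gN t k H0 1, gN t k H0 2, gN t k H0 3, gN t k H0 4, gN t k H0 5] fun A0 =>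
   fl [gN t k H1 0, gN t k H1 1, gN t k H1 2, gN t k H1 3, gN t k H1 4, gN t k H1 5] fun A1 =>
   dropK (Nat.sub Js 15) pr fun suf =>
    cellsOK H0 H1 M c0 c1 d0 d1 w2 aM r e0 e1 A0 A1 Te cs Ts Js suf) false) false) false) false) false)
      false) false) false

theorem div_c (H : ℕ) (hH : 0 < H) (hH' : H ≤ 200) : (4 - (H : ℝ) / 200) / (3 * ((H : ℝ) / 200))
    ≤ ((Nat.add (Nat.div (Nat.mul (Nat.sub 800 H) 1000000) (Nat.mul 3 H)) 1 : ℕ) : ℝ) / 1000000 := by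
  have hHR : (0 : ℝ) < H := by exact_mod_cast hH
  have h3 := (Nat.lt_div_mul_add (a := (800 - H) * 1000000) (b := 3 * H) (by omega)).le
  have h4 : (800 - H) * 1000000 ≤ ((800 - H) * 1000000 / (3 * H) + 1) * (3 * H) := by
    rw [add_mul, one_mul]; exact h3
  have h5 : ((800 : ℝ) - H) * 1000000 ≤ (((800 - H) * 1000000 / (3 * H) + 1 : ℕ) : ℝ) * (3 * H) := by
    have : (((800 - H) * 1000000 : ℕ) : ℝ) ≤ ((((800 - H) * 1000000 / (3 * H) + 1) * (3 * H) : ℕ) : ℝ) := by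
      exact_mod_cast h4
    push_cast [Nat.cast_sub (show H ≤ 800 by omega)] at this ⊢
    linarith
  show _ ≤ (((800 - H) * 1000000 / (3 * H) + 1 : ℕ) : ℝ) / 1000000
  rw [div_le_div_iff₀ (by positivity) (by norm_num)]
  nlinarith

theorem div_d (H : ℕ) (hH : 0 < H) : 4 / (3 * ((H : ℝ) / 200) ^ 2)
    ≤ ((Nat.add (Nat.div 160000000000 (Nat.mul 3 (Nat.mul H H))) 1 : ℕ) : ℝ) / 1000000 := by
  have hHR : (0 : ℝ) < H := by exact_mod_cast hH
  have hpos : 0 < 3 * (H * H) := by positivity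
  have h3 := (Nat.lt_div_mul_add (a := 160000000000) (b := 3 * (H * H)) hpos).le
  have h4 : 160000000000 ≤ (160000000000 / (3 * (H * H)) + 1) * (3 * (H * H)) := by
    rw [add_mul, one_mul]; exact h3
  have h5 : (160000000000 : ℝ) ≤ ((160000000000 / (3 * (H * H)) + 1 : ℕ) : ℝ) * (3 * (H * H)) := by
    exact_mod_cast h4
  show _ ≤ ((160000000000 / (3 * (H * H)) + 1 : ℕ) : ℝ) / 1000000
  rw [div_le_div_iff₀ (by positivity) (by norm_num)]
  have e : (3 * ((H : ℝ) / 200) ^ 2) = 3 * (H * H) / 40000 := by ring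
  rw [e]
  have : 4 * 1000000 = 160000000000 / (40000 : ℝ) := by norm_num
  rw [this]
  rw [← mul_div_assoc]
  exact div_le_div_of_nonneg_right h5 (by norm_num)

/-- SOUNDNESS OF A BOX. -/
theorem box_sound (t : ℕ → ℕ → ℕ) (k H0 H1 M wN aN rN dN Ts Js Te : ℕ) (cs : List Ce)
    (hchk : boxOK t k H0 H1 M wN aN rN dN Ts Js Te cs = true) (ht : TabP t ((M : ℝ) / 200))
    {κ : Type} [Fintype κ] [DecidableEq κ] (b : κ → ℝ) (hb0 : ∀ c, 0 ≤ b c) (hb1 : ∀ c, b c ≤ 1)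
    (i j : κ) (hij : i ≠ j) (hi : b i = 1) (h0 : (H0 : ℝ) / 200 < b j) (h1 : b j ≤ (H1 : ℝ) / 200)
    (hm : ∀ c, c ≠ i → c ≠ j → b c ≤ (M : ℝ) / 200)
    (hS0 : (Ts : ℝ) / 200 ≤ ∑ c ∈ ({i, j} : Finset κ)ᶜ, b c) (hne : cs ≠ [])
    (hS1 : ∑ c ∈ ({i, j} : Finset κ)ᶜ, b c ≤ (Te : ℝ) / 200) :
    ∃ c ∈ cs, (c.1 = 1 → F b ≤ What (b j + ∑ c ∈ ({i, j} : Finset κ)ᶜ, b c)) ∧
      (c.1 ≠ 1 → 0 < F b - What (b j + ∑ c ∈ ({i, j} : Finset κ)ᶜ, b c) →
        ((F b - What (b j + ∑ c ∈ ({i, j} : Finset κ)ᶜ, b c)) * (4 * b j - b j ^ 2)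
          + 4 * (∑ c ∈ ({i, j} : Finset κ)ᶜ, b c) * max (F b - What (b j + ∑ c ∈ ({i, j} : Finset κ)ᶜ, b c))
            ((dN : ℝ) / 10000000)) / (3 * b j ^ 2)
        + (wN : ℝ) / 1000000 * F b + (aN : ℝ) / 1000000 * (∑ c ∈ ({i, j} : Finset κ)ᶜ, b c)
          ≤ (rN : ℝ) / 1000000) := by
  set S := ∑ c ∈ ({i, j} : Finset κ)ᶜ, b c with hS
  unfold boxOK at hchk
  obtain ⟨g1, hchk⟩ := IA.cond_and hchk
  obtain ⟨g2, hchk⟩ := IA.cond_and hchk
  obtain ⟨g3, hchk⟩ := IA.cond_and hchk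
  obtain ⟨g4, hchk⟩ := IA.cond_and hchk
  obtain ⟨g5, hchk⟩ := IA.cond_and hchk
  obtain ⟨g6, hchk⟩ := IA.cond_and hchk
  obtain ⟨g7, hchk⟩ := IA.cond_and hchk
  obtain ⟨g8, hchk⟩ := IA.cond_and hchk
  rw [Nat.ble_eq] at g1 g2 g3 g4 g5 g6 g7 g8
  simp only [fn_eq, fl_eq, dropK_eq] at hchk
  simp only [Nat.add_eq, Nat.mul_eq] at g2 g3 g4 g5
  have hH0 : 0 < H0 := by omega
  have hMR : (0 : ℝ) < M := by exact_mod_cast g6
  have hMR' : (M : ℝ) ≤ 200 := by exact_mod_cast g7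
  obtain ⟨c, hc, T0, J, hJ, r1, r2, r3, r4⟩ := cells_get _ _ _ _ _ _ _ _ _ _ _ _ _ _ _ cs Ts Js g8 hchk S
    hS0 (Or.inl hne) hS1
  refine ⟨c, hc, ?_⟩
  unfold ceOK at r4
  obtain ⟨q1, r4⟩ := IA.cond_and r4
  obtain ⟨q2, r4⟩ := IA.cond_and r4
  obtain ⟨q3, r4⟩ := IA.cond_and r4
  obtain ⟨q4, r4⟩ := IA.cond_and r4
  obtain ⟨q5, r4⟩ := IA.cond_and r4
  obtain ⟨q6, r4⟩ := IA.cond_and r4
  rw [Nat.ble_eq] at q1 q2 q3 q4 q5
  simp only [Nat.add_eq, Nat.mul_eq] at q1 q2 q3 q4 q5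
  simp only [fn_eq] at r4
  set n := T0 / M with hn
  have hget : ∀ (H q : ℕ), q ≤ 5 → [gN t k H 0, gN t k H 1, gN t k H 2, gN t k H 3, gN t k H 4,
      gN t k H 5].getD q 0 = gN t k H q := by
    intro H q hq
    interval_cases q <;> rfl
  rw [hget _ _ (by omega), hget _ _ (by simp only [Nat.add_eq]; omega), hget _ _ (by omega),
    hget _ _ (by simp only [Nat.add_eq]; omega)] at r4
  have hT0R : (T0 : ℝ) / 200 ≤ S := r1
  have hq4R : (4 * J : ℝ) ≤ H0 + T0 := by exact_mod_cast q4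
  have hq5R : (H1 : ℝ) + c.2.2.1 ≤ 4 * (J + c.2.2.2.1) := by exact_mod_cast q5
  have hline := line_le J c.2.2.2.1 c.2.2.2.2.1 c.2.2.2.2.2 hJ q6 (b j + S) (by linarith)
    (by push_cast; linarith)
  have hk0R : (4 * k : ℝ) ≤ H0 := by exact_mod_cast g3
  have hk1R : (H1 : ℝ) ≤ 4 * (k + 1) := by exact_mod_cast g5
  have hr3 : (n : ℝ) * M ≤ T0 := by exact_mod_cast r3
  have hq2 : (c.2.2.1 : ℝ) ≤ (n + 1) * M := by exact_mod_cast q2
  have hF := F_le_gF t ((M : ℝ) / 200) (by positivity) (by linarith) ht n k q3 g1 g2 b hb0 hb1 i j hij hi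
    (by linarith) (by linarith) hm
    (by rw [← hS]; linarith) (by rw [← hS]; linarith)
  rw [← hS] at hF
  have hH1 : H1 ≤ 200 := by omega
  exact cell_sound t k H0 H1 M _ _ _ _ wN aN rN dN n c.1 T0 c.2.2.1 J c.2.2.2.2.1 c.2.2.2.2.2
    g6 (by omega) g3 g5 hH0 hH1 (by omega) r3 q2 q4 (div_c H0 hH0 (by omega)) (div_c H1 (by omega) hH1)
    (div_d H0 hH0) (div_d H1 (by omega)) r4 (b j) S (F b) (What (b j + S)) h0.le h1 r1 r2 hF hline

end RI
end Fr
end Pool.Agent.Lib.MP_6947cd_al
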