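import Pool.Agent.Lib.MP_6947cd_al.L.GlueA
import Pool.Agent.Lib.MP_6947cd_al.L.PropIAll
import Pool.Agent.Lib.MP_6947cd_al.L.PropIE
import Pool.Agent.Lib.MP_6947cd_al.L.PairAll
import Pool.Agent.Lib.MP_6947cd_al.L.PropIIIAll

/-!
Problem MP_6947cd_al (Chollet).  CASE A, complete: `SpecA What`.
-/

set_option autoImplicit false

namespace Pool.Agent.Lib.MP_6947cd_al
namespace Fr
namespace LL

/-- CASE A. -/
theorem specA : SpecA What :=
  specA_of CI.propI_all CA.propII_all CA.propIII_all CI.emptyA CI.emptyP CI.emptyQ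

end LL
end Fr
end Pool.Agent.Lib.MP_6947cd_al
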