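import Pool.Agent.Lib.MP_6947cd_al.L.TabZ0

/-!
Problem MP_6947cd_al (Chollet).  Tables of concentrated rows `(1; k/100, q/40, m^n, r)`, `m = 3/10`, `50 ≤ k ≤ 100`, `12 ≤ q ≤ 18`.
-/

set_option autoImplicit false
open Finset

namespace Pool.Agent.Lib.MP_6947cd_al
namespace Fr
namespace TG

open Ent Ent.Pk IA.F TZ

/-- numbers of nodes -/
def nL : List ℕ :=
  [(nat_lit 2), (nat_lit 2), (nat_lit 2), (nat_lit 2), (nat_lit 2), (nat_lit 2), (nat_lit 3),
   (nat_lit 3), (nat_lit 3), (nat_lit 3), (nat_lit 4), (nat_lit 4), (nat_lit 4), (nat_lit 4),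
   (nat_lit 5), (nat_lit 5), (nat_lit 6), (nat_lit 6), (nat_lit 7), (nat_lit 7), (nat_lit 8),
   (nat_lit 8), (nat_lit 9), (nat_lit 9), (nat_lit 11), (nat_lit 11), (nat_lit 14), (nat_lit 14),
   (nat_lit 14), (nat_lit 14), (nat_lit 15), (nat_lit 15), (nat_lit 16), (nat_lit 16),
   (nat_lit 17), (nat_lit 17), (nat_lit 18), (nat_lit 18), (nat_lit 19), (nat_lit 19),
   (nat_lit 20), (nat_lit 20), (nat_lit 22), (nat_lit 22), (nat_lit 24), (nat_lit 24),
   (nat_lit 26), (nat_lit 26), (nat_lit 27), (nat_lit 27), (nat_lit 27)]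

end TG
end Fr
end Pool.Agent.Lib.MP_6947cd_al
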