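import Pool.Agent.Lib.MP_6947cd_al.L.BoxDataB
import Pool.Agent.Lib.MP_6947cd_al.L.TeD1
import Pool.Agent.Lib.MP_6947cd_al.L.TeD2
import Pool.Agent.Lib.MP_6947cd_al.L.TeD3

/-!
Problem MP_6947cd_al (Chollet).  CASE B, rows `j`: boxes (generated).
-/

set_option autoImplicit false
set_option linter.defProp false
set_option maxRecDepth 20000

namespace Pool.Agent.Lib.MP_6947cd_al
namespace CB

open Ent Ent.Pk Fr Fr.WT CA

/-! box `yB12_22` -/

def P12_22 : BQ := ⟨(nat_lit 8), (nat_lit 4), (nat_lit 4), (nat_lit 0), (nat_lit 8), (nat_lit 980), (nat_lit 1000), (nat_lit 90), [(nat_lit 180), (nat_lit 330), (nat_lit 650)], (nat_lit 154016000), (nat_lit 16000000), (nat_lit 16000000000)⟩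
def q12_22 : PC := ⟨(nat_lit 1000), [(nat_lit 90000), (nat_lit 180000), (nat_lit 330000), (nat_lit 650000)], (nat_lit 18446744078004518913000000), (nat_lit 15845984000000), (nat_lit 15845984000000), (nat_lit 10000000)⟩
def r12_22 : List PC := [⟨(nat_lit 1298), [(nat_lit 90494), (nat_lit 180259), (nat_lit 331092), (nat_lit 649649)], (nat_lit 18506382401610202171262345), (nat_lit 16302489060800), (nat_lit 16312073074560), (nat_lit 10054889)⟩, ⟨(nat_lit 2745), [(nat_lit 93905), (nat_lit 182791), (nat_lit 344284), (nat_lit 645656)], (nat_lit 18766057218013438768272016), (nat_lit 18066748252000), (nat_lit 18122869406400), (nat_lit 10433889)⟩, ⟨(nat_lit 1158), [(nat_lit 90239), (nat_lit 179701), (nat_lit 343108), (nat_lit 620000)], (nat_lit 18487880317295917779600607), (nat_lit 16090893716800), (nat_lit 16095975173760), (nat_lit 10397213)⟩]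
def s12_22 : List PB := [⟨(nat_lit 25960), (nat_lit 1447904000000), [(nat_lit 180259), (nat_lit 331092), (nat_lit 649649)], (nat_lit 18506382401610202171262345), (nat_lit 1142202395903424), (nat_lit 1142211979917184), (nat_lit 47680)⟩, ⟨(nat_lit 54900), (nat_lit 1502480000000), [(nat_lit 182791), (nat_lit 344284), (nat_lit 645656)], (nat_lit 18766057218013438768272016), (nat_lit 1143966655094624), (nat_lit 1144022776249024), (nat_lit 279200)⟩, ⟨(nat_lit 23160), (nat_lit 1443824000000), [(nat_lit 179701), (nat_lit 343108), (nat_lit 620000)], (nat_lit 18487880317295917779600607), (nat_lit 1141990800559424), (nat_lit 1141995882016384), (nat_lit 25280)⟩]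
def n12_22 : List KN := [⟨(nat_lit 650), (nat_lit 330), (nat_lit 13167684), (nat_lit 9942524)⟩, ⟨(nat_lit 330), (nat_lit 180), (nat_lit 20402210), (nat_lit 13167684)⟩, ⟨(nat_lit 180), (nat_lit 90), (nat_lit 30365544), (nat_lit 20402210)⟩]
def w12_22 : List ℕ := [(nat_lit 47680), (nat_lit 279200), (nat_lit 25280)]
def par12_22 : parC yB12_22 P12_22 s12_22 r12_22 q12_22 n12_22 w12_22 = true := by decide +kernel

def p12_22_0 : PF := (PF.cons (PF.cons (PF.cons (PF.leaf (nat_lit 995678) (nat_lit 3369635) (nat_lit 63739177) (nat_lit 3369635) [(nat_lit 0), (nat_lit 0), (nat_lit 0)]) (PF.cons (PF.leaf (nat_lit 1361563) (nat_lit 701034) (nat_lit 62888600) (nat_lit 3519178) [(nat_lit 701034), (nat_lit 0), (nat_lit 0)]) (PF.cons (PF.leaf (nat_lit 1799807) (nat_lit 777850) (nat_lit 61883943) (nat_lit 3669167) [(nat_lit 777850), (nat_lit 0), (nat_lit 0)]) (PF.cons (PF.leaf (nat_lit 2298226) (nat_lit 847225) (nat_lit 60755766) (nat_lit 3811369) [(nat_lit 847225), (nat_lit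 0), (nat_lit 0)]) (PF.cons (PF.leaf (nat_lit 2846627) (nat_lit 909555) (nat_lit 59529343) (nat_lit 3941248) [(nat_lit 909555), (nat_lit 0), (nat_lit 0)]) (PF.cons (PF.leaf (nat_lit 3435833) (nat_lit 965103) (nat_lit 58226864) (nat_lit 4056432) [(nat_lit 965103), (nat_lit 0), (nat_lit 0)]) (PF.cons (PF.leaf (nat_lit 4057446) (nat_lit 1014132) (nat_lit 56868119) (nat_lit 4155896) [(nat_lit 1014132), (nat_lit 0), (nat_lit 0)]) (PF.cons (PF.leaf (nat_lit 4703838) (nat_lit 1056945) (nat_lit 55470709) (nat_lit 4239486) [(nat_lit 1056945), (nat_lit 0), (nat_lit 0)]) (PF.cons (PF.leaf (nat_lit 5368164) (nat_lit 1093885) (nat_lit 54050118) (nat_lit 4307613)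
 [(nat_lit 1093885), (nat_lit 0), (nat_lit 0)]) (PF.cons (PF.leaf (nat_lit 6044341) (nat_lit 1125332) (nat_lit 52619764) (nat_lit 4361058) [(nat_lit 1125332), (nat_lit 0), (nat_lit 0)]) (PF.cons (PF.leaf (nat_lit 6727079) (nat_lit 1151689) (nat_lit 51191094) (nat_lit 4400821) [(nat_lit 1151689), (nat_lit 0), (nat_lit 0)]) (PF.cons (PF.leaf (nat_lit 7411830) (nat_lit 1173371) (nat_lit 49773694) (nat_lit 4428028) [(nat_lit 1173371), (nat_lit 0), (nat_lit 0)]) (PF.cons (PF.leaf (nat_lit 8094749) (nat_lit 1190792) (nat_lit 48375448) (nat_lit 4443856) [(nat_lit 1190792), (nat_lit 0), (nat_lit 0)]) (PF.cons (PF.leaf (nat_lit 8772608) (nat_lit 1204356) (nat_lit 47002696) (nat_lit 4449484) [(nat_lit 1204356), (nat_lit 0), (nat_lit 0)]) (PF.cons (PF.leaf (nat_lit 9442811) (nat_lit 1214452) (nat_lit 45660417) (nat_lit 4446054) [(nat_lit 1214452), (nat_lit 0), (nat_lit 0)]) (PF.cons (PF.leaf (nat_lit 10103217) (nat_lit 1221450) (nat_lit 44352403) (nat_lit 4434653) [(nat_lit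 1221450), (nat_lit 0), (nat_lit 0)]) (PF.cons (PF.leaf (nat_lit 10752181) (nat_lit 1225693) (nat_lit 43081426) (nat_lit 4416297) [(nat_lit 1225693), (nat_lit 0), (nat_lit 0)]) (PF.cons (PF.leaf (nat_lit 11388397) (nat_lit
 1227499) (nat_lit 41849395) (nat_lit 4391919) [(nat_lit 1227499), (nat_lit 0), (nat_lit 0)]) (PF.cons PF.nil (PF.cons PF.nil (PF.cons PF.nil (PF.cons PF.nil PF.nil)))))))))))))))))))))) (PF.cons (PF.cons (PF.leaf (nat_lit 2036394) (nat_lit 2758043) (nat_lit 60564833) (nat_lit 3785935) [(nat_lit 0), (nat_lit 2758043), (nat_lit 0)]) (PF.cons (PF.leaf (nat_lit 2513123) (nat_lit 870206) (nat_lit 59466605) (nat_lit 3904785) [(nat_lit 870206), (nat_lit 2867215), (nat_lit 0)]) (PF.cons (PF.leaf (nat_lit 3041391) (nat_lit 928638) (nat_lit 58268697) (nat_lit 4014675) [(nat_lit 928638), (nat_lit 2968162), (nat_lit 0)]) (PF.cons (PF.leaf (nat_lit 3610861) (nat_lit 980454) (nat_lit 56996241) (nat_lit 4112590) [(nat_lit 980454), (nat_lit 3058616), (nat_lit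 0)]) (PF.cons (PF.leaf (nat_lit 4212788) (nat_lit 1026015) (nat_lit 55670084) (nat_lit 4197096) [(nat_lit 1026015), (nat_lit 3137570), (nat_lit 0)]) (PF.cons (PF.leaf (nat_lit 4839488) (nat_lit 1065663) (nat_lit 54307979) (nat_lit 4267742) [(nat_lit 1065663), (nat_lit 3204774), (nat_lit 0)]) (PF.cons (PF.leaf (nat_lit 5484201) (nat_lit 1099756) (nat_lit 52925113) (nat_lit 4324705) [(nat_lit 1099756), (nat_lit 3260453), (nat_lit 0)]) (PF.cons
 (PF.leaf (nat_lit 6141001) (nat_lit 1128673) (nat_lit 51534409) (nat_lit 4368562) [(nat_lit 1128673), (nat_lit 3305129), (nat_lit 0)]) (PF.cons (PF.leaf (nat_lit 6804749) (nat_lit 1152802) (nat_lit 50146744) (nat_lit 4400140) [(nat_lit 1152802), (nat_lit 3339504), (nat_lit 0)]) (PF.cons (PF.leaf (nat_lit 7471046) (nat_lit 1172542) (nat_lit 48771139) (nat_lit 4420404) [(nat_lit 1172542), (nat_lit 3364384), (nat_lit 0)]) (PF.cons (PF.leaf (nat_lit 8136170) (nat_lit 1188285) (nat_lit 47414959) (nat_lit 4430386) [(nat_lit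 1188285), (nat_lit 3380617), (nat_lit 0)]) (PF.cons (PF.leaf (nat_lit 8797020) (nat_lit 1200411) (nat_lit 46084089) (nat_lit 4431131) [(nat_lit 1200411), (nat_lit 3389061), (nat_lit 0)]) (PF.cons (PF.leaf (nat_lit 9451035) (nat_lit 1209289) (nat_lit 44783127) (nat_lit 4423664) [(nat_lit 1209289), (nat_lit 3390551), (nat_lit 0)]) (PF.cons (PF.leaf (nat_lit 10096153) (nat_lit 1215262) (nat_lit 43515556) (nat_lit 4408962) [(nat_lit 1215262), (nat_lit 3385885), (nat_lit 0)]) (PF.cons (PF.leaf (nat_lit 10730735) (nat_lit 1218653) (nat_lit 42283904) (nat_lit 4387942) [(nat_lit 1218653), (nat_lit 3375813), (nat_lit 0)]) (PF.cons (PF.leaf (nat_lit 11353519) (nat_lit 1219762)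
 (nat_lit 41089900) (nat_lit 4361452) [(nat_lit 1219762), (nat_lit 3361026), (nat_lit 0)]) (PF.cons (PF.leaf (nat_lit 11963559) (nat_lit 1218861) (nat_lit 39934606) (nat_lit 4330267) [(nat_lit 1218861), (nat_lit 3342160), (nat_lit 0)]) (PF.cons PF.nil (PF.cons PF.nil (PF.cons PF.nil PF.nil)))))))))))))))))))) (PF.cons (PF.cons (PF.leaf (nat_lit 3235901) (nat_lit 3020917) (nat_lit 56990511) (nat_lit 4076466) [(nat_lit 0), (nat_lit 3020917), (nat_lit 0)]) (PF.cons (PF.leaf (nat_lit 3782671) (nat_lit 992118) (nat_lit 55760633) (nat_lit 4158679) [(nat_lit 992118), (nat_lit 3098690), (nat_lit 0)]) (PF.cons (PF.leaf (nat_lit 4363269) (nat_lit 1034829) (nat_lit 54475938) (nat_lit 4229674) [(nat_lit 1034829), (nat_lit 3166770), (nat_lit 0)]) (PF.cons (PF.leaf (nat_lit 4969420) (nat_lit 1071813) (nat_lit 53155476) (nat_lit 4288674) [(nat_lit 1071813), (nat_lit 3224610), (nat_lit 0)]) (PF.cons (PF.leaf (nat_lit 5594187) (nat_lit 1103474) (nat_lit 51814838) (nat_lit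 4335620) [(nat_lit 1103474), (nat_lit 3272227), (nat_lit 0)]) (PF.cons (PF.leaf (nat_lit 6231618) (nat_lit 1130209) (nat_lit 50466908) (nat_lit 4370898) [(nat_lit 1130209), (nat_lit 3309980), (nat_lit 0)]) (PF.cons (PF.leaf
 (nat_lit 6876631) (nat_lit 1152407) (nat_lit 49122322) (nat_lit 4395166) [(nat_lit 1152407), (nat_lit 3338438), (nat_lit 0)]) (PF.cons (PF.leaf (nat_lit 7524879) (nat_lit 1170457) (nat_lit 47789785) (nat_lit 4409245) [(nat_lit 1170457), (nat_lit 3358288), (nat_lit 0)]) (PF.cons (PF.leaf (nat_lit 8172725) (nat_lit 1184737) (nat_lit 46476327) (nat_lit 4414033) [(nat_lit 1184737), (nat_lit 3370276), (nat_lit 0)]) (PF.cons (PF.leaf (nat_lit 8817102) (nat_lit 1195611) (nat_lit 45187528) (nat_lit 4410456) [(nat_lit 1195611), (nat_lit 3375163), (nat_lit 0)]) (PF.cons (PF.leaf (nat_lit 9455519) (nat_lit 1203425) (nat_lit 43927720) (nat_lit 4399428) [(nat_lit 1203425), (nat_lit 3373702), (nat_lit 0)]) (PF.cons (PF.leaf (nat_lit 10085945) (nat_lit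 1208508) (nat_lit 42700167) (nat_lit 4381828) [(nat_lit 1208508), (nat_lit 3366612), (nat_lit 0)]) (PF.cons (PF.leaf (nat_lit 10706734) (nat_lit 1211162) (nat_lit 41507230) (nat_lit 4358485) [(nat_lit 1211162), (nat_lit 3354574), (nat_lit 0)]) (PF.cons (PF.leaf (nat_lit 11316633) (nat_lit 1211668) (nat_lit 40350512) (nat_lit 4330169) [(nat_lit 1211668), (nat_lit 3338218), (nat_lit 0)]) (PF.cons (PF.leaf (nat_lit 11914683) (nat_lit 1210284)
 (nat_lit 39230991) (nat_lit 4297584) [(nat_lit 1210284), (nat_lit 3318125), (nat_lit 0)]) (PF.cons PF.nil (PF.cons PF.nil (PF.cons PF.nil PF.nil)))))))))))))))))) (PF.cons (PF.cons (PF.leaf (nat_lit 4511801) (nat_lit 3189883) (nat_lit 53284633) (nat_lit 4254527) [(nat_lit 0), (nat_lit 3189883), (nat_lit 0)]) (PF.cons (PF.leaf (nat_lit 5095890) (nat_lit 1075493) (nat_lit 52012598) (nat_lit 4303025) [(nat_lit 1075493), (nat_lit 3239231), (nat_lit 0)]) (PF.cons (PF.leaf (nat_lit 5699982) (nat_lit 1105142) (nat_lit 50718816)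 (nat_lit 4340981) [(nat_lit 1105142), (nat_lit 3279576), (nat_lit 0)]) (PF.cons (PF.leaf (nat_lit 6317779) (nat_lit 1130040) (nat_lit 49416778) (nat_lit 4368586) [(nat_lit 1130040), (nat_lit 3311109), (nat_lit 0)]) (PF.cons (PF.leaf (nat_lit 6944081) (nat_lit 1150595) (nat_lit 48117289) (nat_lit 4386338) [(nat_lit 1150595), (nat_lit 3334267), (nat_lit 0)]) (PF.cons (PF.leaf (nat_lit 7574515) (nat_lit 1167198) (nat_lit 46829022) (nat_lit 4394919) [(nat_lit 1167198), (nat_lit 3349626), (nat_lit 0)]) (PF.cons (PF.leaf (nat_lit 8205422) (nat_lit 1180220) (nat_lit 45558880) (nat_lit 4395105) [(nat_lit 1180220), (nat_lit 3357833), (nat_lit 0)]) (PF.cons (PF.leaf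
 (nat_lit 8833778) (nat_lit 1190015) (nat_lit 44312294) (nat_lit 4387712) [(nat_lit 1190015), (nat_lit 3359564), (nat_lit 0)]) (PF.cons (PF.leaf (nat_lit 9457074) (nat_lit 1196916) (nat_lit 43093446) (nat_lit 4373555) [(nat_lit 1196916), (nat_lit 3355493), (nat_lit 0)]) (PF.cons (PF.leaf (nat_lit 10073285) (nat_lit 1201233) (nat_lit 41905474) (nat_lit 4353424) [(nat_lit 1201233), (nat_lit 3346270), (nat_lit 0)]) (PF.cons (PF.leaf (nat_lit 10680770) (nat_lit 1203256) (nat_lit 40750640) (nat_lit 4328068) [(nat_lit 1203256), (nat_lit 3332513), (nat_lit 0)]) (PF.cons (PF.leaf (nat_lit 11278260) (nat_lit 1203250) (nat_lit 39630478) (nat_lit 4298185) [(nat_lit 1203250), (nat_lit 3314797), (nat_lit 0)]) (PF.cons (PF.leaf (nat_lit 11864771) (nat_lit 1201459) (nat_lit 38545922) (nat_lit 4264418) [(nat_lit 1201459), (nat_lit 3293652), (nat_lit 0)]) (PF.cons PF.nil (PF.cons PF.nil (PF.cons PF.nil PF.nil)))))))))))))))) (PF.cons (PF.cons (PF.leaf (nat_lit 5803710) (nat_lit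 3282927) (nat_lit 49635778) (nat_lit 4341324) [(nat_lit 0), (nat_lit 3282927), (nat_lit 0)]) (PF.cons (PF.leaf (nat_lit 6401151) (nat_lit 1128228) (nat_lit 48383007) (nat_lit 4362078) [(nat_lit 1128228), (nat_lit 3308874),
 (nat_lit 0)]) (PF.cons (PF.leaf (nat_lit 7008496) (nat_lit 1147430) (nat_lit 47130743) (nat_lit 4374035) [(nat_lit 1147430), (nat_lit 3327293), (nat_lit 0)]) (PF.cons (PF.leaf (nat_lit 7621127) (nat_lit 1162825) (nat_lit 45887989) (nat_lit 4377744) [(nat_lit 1162825), (nat_lit 3338650), (nat_lit 0)]) (PF.cons (PF.leaf (nat_lit 8235298) (nat_lit 1174791) (nat_lit 44661775) (nat_lit 4373869) [(nat_lit 1174791), (nat_lit 3343500), (nat_lit 0)]) (PF.cons (PF.leaf (nat_lit 8847913) (nat_lit 1183675) (nat_lit 43457549) (nat_lit 4363122) [(nat_lit 1183675), (nat_lit 3342440), (nat_lit 0)]) (PF.cons (PF.leaf (nat_lit 9456444) (nat_lit 1189803) (nat_lit 42279476) (nat_lit 4346230) [(nat_lit 1189803), (nat_lit 3336071), (nat_lit 0)]) (PF.cons (PF.leaf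 (nat_lit 10058826) (nat_lit 1193474) (nat_lit 41130662) (nat_lit 4323902) [(nat_lit 1193474), (nat_lit 3324980), (nat_lit 0)]) (PF.cons (PF.leaf (nat_lit 10653409) (nat_lit 1194967) (nat_lit 40013339) (nat_lit 4296815) [(nat_lit 1194967), (nat_lit 3309729), (nat_lit 0)]) (PF.cons (PF.leaf (nat_lit 11238887) (nat_lit 1194534) (nat_lit 38929028) (nat_lit 4265603) [(nat_lit 1194534), (nat_lit 3290843), (nat_lit 0)]) (PF.cons (PF.leaf (nat_lit
 11814239) (nat_lit 1192407) (nat_lit 37878661) (nat_lit 4230852) [(nat_lit 1192407), (nat_lit 3268806), (nat_lit 0)]) (PF.cons (PF.leaf (nat_lit 12378687) (nat_lit 1188796) (nat_lit 36862695) (nat_lit 4193096) [(nat_lit 1188796), (nat_lit 3244064), (nat_lit 0)]) (PF.cons PF.nil (PF.cons PF.nil PF.nil)))))))))))))) (PF.cons (PF.cons (PF.leaf (nat_lit 7071440) (nat_lit 3317775) (nat_lit 46161355) (nat_lit 4358582) [(nat_lit 0), (nat_lit 3317775), (nat_lit 0)]) (PF.cons (PF.leaf (nat_lit 7665960) (nat_lit 1157378) (nat_lit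 44965546) (nat_lit 4357996) [(nat_lit 1157378), (nat_lit 3325578), (nat_lit 0)]) (PF.cons (PF.leaf (nat_lit 8263372) (nat_lit 1168487) (nat_lit 43783976) (nat_lit 4350554) [(nat_lit 1168487), (nat_lit 3327461), (nat_lit 0)]) (PF.cons (PF.leaf (nat_lit 8860385) (nat_lit 1176626) (nat_lit 42622331) (nat_lit 4336879) [(nat_lit 1176626), (nat_lit 3323944), (nat_lit 0)]) (PF.cons (PF.leaf (nat_lit 9454374) (nat_lit 1182119) (nat_lit 41484901) (nat_lit 4317613) [(nat_lit 1182119), (nat_lit 3315563), (nat_lit 0)]) (PF.cons (PF.leaf (nat_lit 10043214) (nat_lit 1185260) (nat_lit 40374864) (nat_lit 4293395) [(nat_lit 1185260), (nat_lit 3302849), (nat_lit 0)]) (PF.cons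
 (PF.leaf (nat_lit 10625201) (nat_lit 1186319) (nat_lit 39294504) (nat_lit 4264835) [(nat_lit 1186319), (nat_lit 3286311), (nat_lit 0)]) (PF.cons (PF.leaf (nat_lit 11198978) (nat_lit 1185539) (nat_lit 38245380) (nat_lit 4232511) [(nat_lit 1185539), (nat_lit 3266428), (nat_lit 0)]) (PF.cons (PF.leaf (nat_lit 11763487) (nat_lit 1183145) (nat_lit 37228465) (nat_lit 4196957) [(nat_lit 1183145), (nat_lit 3243645), (nat_lit 0)]) (PF.cons (PF.leaf (nat_lit 12317907) (nat_lit 1179336) (nat_lit 36244262) (nat_lit 4158662) [(nat_lit 1179336), (nat_lit 3218372), (nat_lit 0)]) (PF.cons PF.nil (PF.cons PF.nil PF.nil)))))))))))) (PF.cons (PF.cons (PF.leaf (nat_lit 8290802) (nat_lit 3309872) (nat_lit 42924224) (nat_lit 4325356) [(nat_lit 0), (nat_lit 3309872), (nat_lit 0)]) (PF.cons (PF.leaf (nat_lit 8872096) (nat_lit 1168891) (nat_lit 41805528) (nat_lit 4309146) [(nat_lit 1168891), (nat_lit 3304207), (nat_lit 0)]) (PF.cons (PF.leaf (nat_lit 9451622) (nat_lit 1173886) (nat_lit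 40708713) (nat_lit 4287841) [(nat_lit 1173886), (nat_lit 3294080), (nat_lit 0)]) (PF.cons (PF.leaf (nat_lit 10027083) (nat_lit 1176611) (nat_lit 39637156) (nat_lit 4262015) [(nat_lit 1176611), (nat_lit 3279967), (nat_lit
 0)]) (PF.cons (PF.leaf (nat_lit 10596682) (nat_lit 1177330) (nat_lit 38593274) (nat_lit 4232221) [(nat_lit 1177330), (nat_lit 3262332), (nat_lit 0)]) (PF.cons (PF.leaf (nat_lit 11158998) (nat_lit 1176283) (nat_lit 37578731) (nat_lit 4198984) [(nat_lit 1176283), (nat_lit 3241613), (nat_lit 0)]) (PF.cons (PF.leaf (nat_lit 11712907) (nat_lit 1173686) (nat_lit 36594585) (nat_lit 4162793) [(nat_lit 1173686), (nat_lit 3218219), (nat_lit 0)]) (PF.cons (PF.leaf (nat_lit 12257550) (nat_lit 1169733) (nat_lit 35641416) (nat_lit 4124098) [(nat_lit 1169733), (nat_lit 3192527), (nat_lit 0)]) (PF.cons PF.nil (PF.cons PF.nil PF.nil)))))))))) (PF.cons (PF.cons (PF.leaf (nat_lit 9449042) (nat_lit 3271713) (nat_lit 39949789) (nat_lit 4257028) [(nat_lit 0),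 (nat_lit 3271713), (nat_lit 0)]) (PF.cons (PF.leaf (nat_lit 10011086) (nat_lit 1167537) (nat_lit 38916535) (nat_lit 4229857) [(nat_lit 1167537), (nat_lit 3256411), (nat_lit 0)]) (PF.cons (PF.leaf (nat_lit 10568400) (nat_lit 1168011) (nat_lit 37908744) (nat_lit 4199050) [(nat_lit 1168011), (nat_lit 3237856), (nat_lit 0)]) (PF.cons (PF.leaf (nat_lit 11119400) (nat_lit 1166774) (nat_lit 36928253) (nat_lit 4165085) [(nat_lit 1166774), (nat_lit
 3216450), (nat_lit 0)]) (PF.cons (PF.leaf (nat_lit 11662885) (nat_lit 1164039) (nat_lit 35976258) (nat_lit 4128412) [(nat_lit 1164039), (nat_lit 3192569), (nat_lit 0)]) (PF.cons (PF.leaf (nat_lit 12197932) (nat_lit 1159995) (nat_lit 35053452) (nat_lit 4089444) [(nat_lit 1159995), (nat_lit 3166562), (nat_lit 0)]) (PF.cons (PF.leaf (nat_lit 12723818) (nat_lit 1154814) (nat_lit 34160134) (nat_lit 4048559) [(nat_lit 1154814), (nat_lit 3138747), (nat_lit 0)]) (PF.cons PF.nil PF.nil)))))))) (PF.cons (PF.cons (PF.leaf (nat_lit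 10540983) (nat_lit 3212934) (nat_lit 37239947) (nat_lit 4165385) [(nat_lit 0), (nat_lit 3212934), (nat_lit 0)]) (PF.cons (PF.leaf (nat_lit 11080657) (nat_lit 1157016) (nat_lit 36293081) (nat_lit 4130866) [(nat_lit 1157016), (nat_lit 3190980), (nat_lit 0)]) (PF.cons (PF.leaf (nat_lit 11613812) (nat_lit 1154207) (nat_lit 35372703) (nat_lit 4093855) [(nat_lit 1154207), (nat_lit 3166729), (nat_lit 0)]) (PF.cons (PF.leaf (nat_lit 12139377) (nat_lit 1150126) (nat_lit 34479660) (nat_lit 4054733) [(nat_lit 1150126), (nat_lit 3140504), (nat_lit 0)]) (PF.cons (PF.leaf (nat_lit 12656565) (nat_lit 1144941) (nat_lit 33614380) (nat_lit 4013851) [(nat_lit 1144941), (nat_lit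
 3112602), (nat_lit 0)]) (PF.cons PF.nil PF.nil)))))) (PF.cons (PF.cons (PF.leaf (nat_lit 11566159) (nat_lit 3140727) (nat_lit 34783110) (nat_lit 4059153) [(nat_lit 0), (nat_lit 3140727), (nat_lit 0)]) (PF.cons (PF.leaf (nat_lit 12082226) (nat_lit 1140125) (nat_lit 33919312) (nat_lit 4019990) [(nat_lit 1140125), (nat_lit 3114376), (nat_lit 0)]) (PF.cons (PF.leaf (nat_lit 12590785) (nat_lit 1134979) (nat_lit 33081504) (nat_lit 3979203) [(nat_lit 1134979), (nat_lit 3086460), (nat_lit 0)]) (PF.cons PF.nil PF.nil)))) (PF.cons (PF.cons (PF.leaf (nat_lit 12526833) (nat_lit 3060335) (nat_lit 32560834) (nat_lit 3944628) [(nat_lit 0), (nat_lit 3060335), (nat_lit 0)]) (PF.cons (PF.leaf (nat_lit 13019229) (nat_lit 1118944) (nat_lit 31774560) (nat_lit 3902795) [(nat_lit 1118944), (nat_lit 3031251), (nat_lit 0)]) PF.nil)) (PF.cons PF.nil (PF.cons PF.nil (PF.cons PF.nil (PF.cons PF.nil PF.nil))))))))))))))) (PF.cons (PF.cons (PF.cons (PF.leaf (nat_lit 2839344) (nat_lit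 3984139) (nat_lit 56675113) (nat_lit 3984139) [(nat_lit 0), (nat_lit 0), (nat_lit 6449560)]) (PF.cons (PF.leaf (nat_lit 3324805) (nat_lit 930670) (nat_lit 55584706) (nat_lit 4067739) [(nat_lit 930670), (nat_lit 0), (nat_lit
 6525696)]) (PF.cons (PF.leaf (nat_lit 3854755) (nat_lit 980249) (nat_lit 54414013) (nat_lit 4142835) [(nat_lit 980249), (nat_lit 0), (nat_lit 6591464)]) (PF.cons (PF.leaf (nat_lit 4418903) (nat_lit 1023064) (nat_lit 53187633) (nat_lit 4207524) [(nat_lit 1023064), (nat_lit 0), (nat_lit 6644461)]) (PF.cons (PF.leaf (nat_lit 5009018) (nat_lit 1059839) (nat_lit 51924768) (nat_lit 4261040) [(nat_lit 1059839), (nat_lit 0), (nat_lit 6683644)]) (PF.cons (PF.leaf (nat_lit 5618182) (nat_lit 1091145) (nat_lit 50640928) (nat_lit 4303307) [(nat_lit 1091145), (nat_lit 0), (nat_lit 6708849)]) (PF.cons (PF.leaf (nat_lit 6240520) (nat_lit 1117475) (nat_lit 49348803) (nat_lit 4334673) [(nat_lit 1117475), (nat_lit 0), (nat_lit 6720481)]) (PF.cons (PF.leaf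 (nat_lit 6871012) (nat_lit 1139282) (nat_lit 48058787) (nat_lit 4355744) [(nat_lit 1139282), (nat_lit 0), (nat_lit 6719305)]) (PF.cons (PF.leaf (nat_lit 7505407) (nat_lit 1156986) (nat_lit 46779344) (nat_lit 4367276) [(nat_lit 1156986), (nat_lit 0), (nat_lit 6706300)]) (PF.cons (PF.leaf (nat_lit 8140099) (nat_lit 1170984) (nat_lit 45517291) (nat_lit 4370103) [(nat_lit 1170984), (nat_lit 0), (nat_lit 6682558)]) (PF.cons (PF.leaf (nat_lit 8772104)
 (nat_lit 1181648) (nat_lit 44278030) (nat_lit 4365081) [(nat_lit 1181648), (nat_lit 0), (nat_lit 6649214)]) (PF.cons (PF.leaf (nat_lit 9398927) (nat_lit 1189326) (nat_lit 43065763) (nat_lit 4353061) [(nat_lit 1189326), (nat_lit 0), (nat_lit 6607394)]) (PF.cons (PF.leaf (nat_lit 10018553) (nat_lit 1194342) (nat_lit 41883661) (nat_lit 4334860) [(nat_lit 1194342), (nat_lit 0), (nat_lit 6558182)]) (PF.cons (PF.leaf (nat_lit 10629354) (nat_lit 1196994) (nat_lit 40734036) (nat_lit 4311251) [(nat_lit 1196994), (nat_lit 0),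 (nat_lit 6502601)]) (PF.cons (PF.leaf (nat_lit 11230055) (nat_lit 1197556) (nat_lit 39618476) (nat_lit 4282950) [(nat_lit 1197556), (nat_lit 0), (nat_lit 6441600)]) (PF.cons (PF.leaf (nat_lit 11819655) (nat_lit 1196278) (nat_lit 38537969) (nat_lit 4250617) [(nat_lit 1196278), (nat_lit 0), (nat_lit 6376048)]) (PF.cons PF.nil (PF.cons PF.nil (PF.cons PF.nil (PF.cons PF.nil PF.nil)))))))))))))))))))) (PF.cons (PF.cons (PF.leaf (nat_lit 4020711) (nat_lit 3112514) (nat_lit 53207530) (nat_lit 4173970) [(nat_lit 0), (nat_lit 3112514), (nat_lit 6614798)]) (PF.cons (PF.leaf (nat_lit 4561084) (nat_lit 1027252) (nat_lit 52032880) (nat_lit 4227428) [(nat_lit 1027252), (nat_lit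
 3167293), (nat_lit 6653958)]) (PF.cons (PF.leaf (nat_lit 5129604) (nat_lit 1062190) (nat_lit 50818253) (nat_lit 4271359) [(nat_lit 1062190), (nat_lit 3213624), (nat_lit 6681195)]) (PF.cons (PF.leaf (nat_lit 5718607) (nat_lit 1091736) (nat_lit 49580698) (nat_lit 4305431) [(nat_lit 1091736), (nat_lit 3251332), (nat_lit 6696139)]) (PF.cons (PF.leaf (nat_lit 6321896) (nat_lit 1116443) (nat_lit 48333576) (nat_lit 4329808) [(nat_lit 1116443), (nat_lit 3280628), (nat_lit 6699023)]) (PF.cons (PF.leaf (nat_lit 6934311) (nat_lit 1136788) (nat_lit 47087523) (nat_lit 4344946) [(nat_lit 1136788), (nat_lit 3301943), (nat_lit 6690458)]) (PF.cons (PF.leaf (nat_lit 7551530) (nat_lit 1153198) (nat_lit 45851033) (nat_lit 4351476) [(nat_lit 1153198), (nat_lit 3315836), (nat_lit 6671276)]) (PF.cons (PF.leaf (nat_lit 8169939) (nat_lit 1166068) (nat_lit 44630853) (nat_lit 4350117) [(nat_lit 1166068), (nat_lit 3322925), (nat_lit 6642436)]) (PF.cons (PF.leaf (nat_lit 8786531) (nat_lit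 1175762) (nat_lit 43432284) (nat_lit 4341628) [(nat_lit 1175762), (nat_lit 3323855), (nat_lit 6604943)]) (PF.cons (PF.leaf (nat_lit 9398825) (nat_lit 1182617) (nat_lit 42259417) (nat_lit 4326767) [(nat_lit 1182617), (nat_lit
 3319263), (nat_lit 6559805)]) (PF.cons (PF.leaf (nat_lit 10004787) (nat_lit 1186943) (nat_lit 41115331) (nat_lit 4306273) [(nat_lit 1186943), (nat_lit 3309767), (nat_lit 6508001)]) (PF.cons (PF.leaf (nat_lit 10602802) (nat_lit 1189027) (nat_lit 40002263) (nat_lit 4280844) [(nat_lit 1189027), (nat_lit 3295950), (nat_lit 6450456)]) (PF.cons (PF.leaf (nat_lit 11191558) (nat_lit 1189128) (nat_lit 38921749) (nat_lit 4251133) [(nat_lit 1189128), (nat_lit 3278357), (nat_lit 6388031)]) (PF.cons (PF.leaf (nat_lit 11770047) (nat_lit 1187485) (nat_lit 37874750) (nat_lit 4217743) [(nat_lit 1187485), (nat_lit 3257488), (nat_lit 6321517)]) (PF.cons (PF.leaf (nat_lit 12337531) (nat_lit 1184314) (nat_lit 36861755) (nat_lit 4181222) [(nat_lit 1184314),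 (nat_lit 3233803), (nat_lit 6251631)]) (PF.cons PF.nil (PF.cons PF.nil (PF.cons PF.nil PF.nil)))))))))))))))))) (PF.cons (PF.cons (PF.leaf (nat_lit 5250251) (nat_lit 3220815) (nat_lit 49719659) (nat_lit 4276279) [(nat_lit 0), (nat_lit 3220815), (nat_lit 6671242)]) (PF.cons (PF.leaf (nat_lit 5817666) (nat_lit 1090420) (nat_lit 48533249) (nat_lit 4302995) [(nat_lit 1090420), (nat_lit 3252487), (nat_lit 6677172)]) (PF.cons (PF.leaf (nat_lit 6401193)
 (nat_lit 1113853) (nat_lit 47334252) (nat_lit 4321130) [(nat_lit 1113853), (nat_lit 3276659), (nat_lit 6672402)]) (PF.cons (PF.leaf (nat_lit 6995221) (nat_lit 1133015) (nat_lit 46134108) (nat_lit 4330993) [(nat_lit 1133015), (nat_lit 3293633), (nat_lit 6657396)]) (PF.cons (PF.leaf (nat_lit 7595217) (nat_lit 1148361) (nat_lit 44941692) (nat_lit 4333090) [(nat_lit 1148361), (nat_lit 3303863), (nat_lit 6632857)]) (PF.cons (PF.leaf (nat_lit 8197460) (nat_lit 1160294) (nat_lit 43763918) (nat_lit 4328038) [(nat_lit 1160294),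 (nat_lit 3307883), (nat_lit 6599617)]) (PF.cons (PF.leaf (nat_lit 8798872) (nat_lit 1169177) (nat_lit 42606147) (nat_lit 4316503) [(nat_lit 1169177), (nat_lit 3306262), (nat_lit 6558570)]) (PF.cons (PF.leaf (nat_lit 9396932) (nat_lit 1175342) (nat_lit 41472481) (nat_lit 4299163) [(nat_lit 1175342), (nat_lit 3299573), (nat_lit 6510621)]) (PF.cons (PF.leaf (nat_lit 9989572) (nat_lit 1179092) (nat_lit 40365992) (nat_lit 4276681) [(nat_lit 1179092), (nat_lit 3288375), (nat_lit 6456650)]) (PF.cons (PF.leaf (nat_lit 10575142) (nat_lit 1180701) (nat_lit 39288909) (nat_lit 4249691) [(nat_lit 1180701), (nat_lit 3273200), (nat_lit 6397497)]) (PF.cons (PF.leaf (nat_lit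
 11152307) (nat_lit 1180422) (nat_lit 38242767) (nat_lit 4218788) [(nat_lit 1180422), (nat_lit 3254545), (nat_lit 6333944)]) (PF.cons (PF.leaf (nat_lit 11720031) (nat_lit 1178481) (nat_lit 37228536) (nat_lit 4184522) [(nat_lit 1178481), (nat_lit 3232873), (nat_lit 6266714)]) (PF.cons (PF.leaf (nat_lit 12277521) (nat_lit 1175084) (nat_lit 36246726) (nat_lit 4147397) [(nat_lit 1175084), (nat_lit 3208604), (nat_lit 6196461)]) (PF.cons PF.nil (PF.cons PF.nil (PF.cons PF.nil PF.nil)))))))))))))))) (PF.cons (PF.cons (PF.leaf (nat_lit 6480283) (nat_lit 3269894) (nat_lit 46349090) (nat_lit 4308981) [(nat_lit 0), (nat_lit 3269894), (nat_lit 6641057)]) (PF.cons (PF.leaf (nat_lit 7055177) (nat_lit 1127984) (nat_lit 45197166) (nat_lit 4314172) [(nat_lit 1127984), (nat_lit 3282995), (nat_lit 6620501)]) (PF.cons (PF.leaf (nat_lit 7637646) (nat_lit 1142504) (nat_lit 44050152) (nat_lit 4312363) [(nat_lit 1142504), (nat_lit 3289974), (nat_lit 6591365)]) (PF.cons (PF.leaf (nat_lit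 8223646) (nat_lit 1153692) (nat_lit 42915442) (nat_lit 4304072) [(nat_lit 1153692), (nat_lit 3291281), (nat_lit 6554376)]) (PF.cons (PF.leaf (nat_lit 8809957) (nat_lit 1161922) (nat_lit 41798660) (nat_lit 4289880)
 [(nat_lit 1161922), (nat_lit 3287417), (nat_lit 6510327)]) (PF.cons (PF.leaf (nat_lit 9393956) (nat_lit 1167529) (nat_lit 40704057) (nat_lit 4270391) [(nat_lit 1167529), (nat_lit 3278894), (nat_lit 6460030)]) (PF.cons (PF.leaf (nat_lit 9973504) (nat_lit 1170811) (nat_lit 39634798) (nat_lit 4246202) [(nat_lit 1170811), (nat_lit 3266219), (nat_lit 6404284)]) (PF.cons (PF.leaf (nat_lit 10546891) (nat_lit 1172038) (nat_lit 38593174) (nat_lit 4217888) [(nat_lit 1172038), (nat_lit 3249876), (nat_lit 6343850)]) (PF.cons (PF.leaf (nat_lit 11112737) (nat_lit 1171454) (nat_lit 37580773) (nat_lit 4185992) [(nat_lit 1171454), (nat_lit 3230321), (nat_lit 6279443)]) (PF.cons (PF.leaf (nat_lit 11669972) (nat_lit 1169279) (nat_lit 36598613) (nat_lit 4151018) [(nat_lit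 1169279), (nat_lit 3207980), (nat_lit 6211721)]) (PF.cons (PF.leaf (nat_lit 12217745) (nat_lit 1165712) (nat_lit 35647253) (nat_lit 4113427) [(nat_lit 1165712), (nat_lit 3183240), (nat_lit 6141286)]) (PF.cons PF.nil (PF.cons PF.nil (PF.cons PF.nil PF.nil)))))))))))))) (PF.cons (PF.cons (PF.leaf (nat_lit 7680167) (nat_lit 3274333) (nat_lit 43174914) (nat_lit 4289499) [(nat_lit 0), (nat_lit 3274333), (nat_lit 6547063)]) (PF.cons
 (PF.leaf (nat_lit 8249544) (nat_lit 1146272) (nat_lit 42084169) (nat_lit 4278391) [(nat_lit 1146272), (nat_lit 3273260), (nat_lit 6506937)]) (PF.cons (PF.leaf (nat_lit 8820647) (nat_lit 1154013) (nat_lit 41008724) (nat_lit 4261904) [(nat_lit 1154013), (nat_lit 3267438), (nat_lit 6460402)]) (PF.cons (PF.leaf (nat_lit 9390616) (nat_lit 1159194) (nat_lit 39953158) (nat_lit 4240573) [(nat_lit 1159194), (nat_lit 3257326), (nat_lit 6408193)]) (PF.cons (PF.leaf (nat_lit 9957187) (nat_lit 1162117) (nat_lit 38920846) (nat_lit 4214937) [(nat_lit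 1162117), (nat_lit 3243380), (nat_lit 6351034)]) (PF.cons (PF.leaf (nat_lit 10518561) (nat_lit 1163052) (nat_lit 37914226) (nat_lit 4185519) [(nat_lit 1163052), (nat_lit 3226045), (nat_lit 6289622)]) (PF.cons (PF.leaf (nat_lit 11073295) (nat_lit 1162239) (nat_lit 36934994) (nat_lit 4152814) [(nat_lit 1162239), (nat_lit 3205739), (nat_lit 6224611)]) (PF.cons (PF.leaf (nat_lit 11620244) (nat_lit 1159892) (nat_lit 35984260) (nat_lit 4117284) [(nat_lit 1159892), (nat_lit 3182852), (nat_lit 6156606)]) (PF.cons (PF.leaf (nat_lit 12158510) (nat_lit 1156205) (nat_lit 35062662) (nat_lit 4079356) [(nat_lit 1156205), (nat_lit 3157746), (nat_lit 6086160)])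
 (PF.cons (PF.leaf (nat_lit 12687431) (nat_lit 1151351) (nat_lit 34170468) (nat_lit 4039417) [(nat_lit 1151351), (nat_lit 3130748), (nat_lit 6013773)]) (PF.cons PF.nil (PF.cons PF.nil PF.nil)))))))))))) (PF.cons (PF.cons (PF.leaf (nat_lit 8831935) (nat_lit 3246421) (nat_lit 40235064) (nat_lit 4232693) [(nat_lit 0), (nat_lit 3246421), (nat_lit 6408945)]) (PF.cons (PF.leaf (nat_lit 9387665) (nat_lit 1150341) (nat_lit 39218684) (nat_lit 4209809) [(nat_lit 1150341), (nat_lit 3234948), (nat_lit 6355234)]) (PF.cons (PF.leaf (nat_lit 9941247) (nat_lit 1153017) (nat_lit 38223164) (nat_lit 4182970) [(nat_lit 1153017), (nat_lit 3219927), (nat_lit 6297006)]) (PF.cons (PF.leaf (nat_lit 10490675) (nat_lit 1153751) (nat_lit 37251187) (nat_lit 4152651) [(nat_lit 1153751), (nat_lit 3201763), (nat_lit 6234900)]) (PF.cons (PF.leaf (nat_lit 11034405) (nat_lit 1152783) (nat_lit 36304632) (nat_lit 4119308) [(nat_lit 1152783), (nat_lit 3180843), (nat_lit 6169520)]) (PF.cons (PF.leaf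 (nat_lit 11571211) (nat_lit 1150326) (nat_lit 35384745) (nat_lit 4083367) [(nat_lit 1150326), (nat_lit 3157528), (nat_lit 6101424)]) (PF.cons (PF.leaf (nat_lit 12100131) (nat_lit 1146570) (nat_lit 34492281) (nat_lit 4045219)
 [(nat_lit 1146570), (nat_lit 3132152), (nat_lit 6031124)]) (PF.cons (PF.leaf (nat_lit 12620445) (nat_lit 1141685) (nat_lit 33627605) (nat_lit 4005225) [(nat_lit 1141685), (nat_lit 3105020), (nat_lit 5959083)]) (PF.cons PF.nil (PF.cons PF.nil PF.nil)))))))))) (PF.cons (PF.cons (PF.leaf (nat_lit 9926415) (nat_lit 3195914) (nat_lit 37540683) (nat_lit 4150366) [(nat_lit 0), (nat_lit 3195914), (nat_lit 6242278)]) (PF.cons (PF.leaf (nat_lit 10463776) (nat_lit 1144134) (nat_lit 36603123) (nat_lit 4119341) [(nat_lit 1144134), (nat_lit 3177077), (nat_lit 6179748)]) (PF.cons (PF.leaf (nat_lit 10996519) (nat_lit 1143087) (nat_lit 35688853) (nat_lit 4085521) [(nat_lit 1143087), (nat_lit 3155673), (nat_lit 6114221)]) (PF.cons (PF.leaf (nat_lit 11523248)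 (nat_lit 1140582) (nat_lit 34799317) (nat_lit 4049301) [(nat_lit 1140582), (nat_lit 3132038), (nat_lit 6046217)]) (PF.cons (PF.leaf (nat_lit 12042921) (nat_lit 1136809) (nat_lit 33935425) (nat_lit 4011045) [(nat_lit 1136809), (nat_lit 3106481), (nat_lit 5976211)]) (PF.cons (PF.leaf (nat_lit 12554733) (nat_lit 1131935) (nat_lit 33097671) (nat_lit 3971086) [(nat_lit 1131935), (nat_lit 3079290), (nat_lit 5904636)]) (PF.cons PF.nil (PF.cons PF.nil
 PF.nil)))))))) (PF.cons (PF.cons (PF.leaf (nat_lit 10960180) (nat_lit 3130256) (nat_lit 35086775) (nat_lit 4051487) [(nat_lit 0), (nat_lit 3130256), (nat_lit 6058752)]) (PF.cons (PF.leaf (nat_lit 11476748) (nat_lit 1130658) (nat_lit 34227195) (nat_lit 4015115) [(nat_lit 1130658), (nat_lit 3106404), (nat_lit 5991013)]) (PF.cons (PF.leaf (nat_lit 11987194) (nat_lit 1126920) (nat_lit 33391397) (nat_lit 3976854) [(nat_lit 1126920), (nat_lit 3080753), (nat_lit 5921443)]) (PF.cons (PF.leaf (nat_lit 12490560) (nat_lit 1122099)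 (nat_lit 32580036) (nat_lit 3937018) [(nat_lit 1122099), (nat_lit 3053573), (nat_lit 5850446)]) (PF.cons PF.nil (PF.cons PF.nil PF.nil)))))) (PF.cons (PF.cons (PF.leaf (nat_lit 11933362) (nat_lit 3054980) (nat_lit 32859474) (nat_lit 3942662) [(nat_lit 0), (nat_lit 3054980), (nat_lit 5866829)]) (PF.cons (PF.leaf (nat_lit 12428209) (nat_lit 1112173) (nat_lit 32074057) (nat_lit 3903030) [(nat_lit 1112173), (nat_lit 3027878), (nat_lit 5796521)]) (PF.cons (PF.leaf (nat_lit 12916089) (nat_lit 1106525) (nat_lit 31311775) (nat_lit 3862196) [(nat_lit 1106525), (nat_lit 2999567), (nat_lit 5725248)]) (PF.cons PF.nil PF.nil)))) (PF.cons (PF.cons (PF.leaf (nat_lit 12848165)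
 (nat_lit 2974110) (nat_lit 30840709) (nat_lit 3828652) [(nat_lit 0), (nat_lit 2974110), (nat_lit 5672457)]) (PF.cons PF.nil PF.nil)) (PF.cons PF.nil (PF.cons PF.nil (PF.cons PF.nil PF.nil))))))))))))) (PF.cons (PF.cons (PF.cons (PF.leaf (nat_lit 4744888) (nat_lit 4205946) (nat_lit 49701152) (nat_lit 4205946) [(nat_lit 0), (nat_lit 0), (nat_lit 6600856)]) (PF.cons (PF.leaf (nat_lit 5274476) (nat_lit 1046161) (nat_lit 48598843) (nat_lit 4238311) [(nat_lit 1046161), (nat_lit 0), (nat_lit 6612748)]) (PF.cons (PF.leaf (nat_lit 5827890) (nat_lit 1074933) (nat_lit 47466950) (nat_lit 4262565) [(nat_lit 1074933), (nat_lit 0), (nat_lit 6614715)]) (PF.cons (PF.leaf (nat_lit 6398037) (nat_lit 1098671) (nat_lit 46320564) (nat_lit 4278672) [(nat_lit 1098671), (nat_lit 0), (nat_lit 6606780)]) (PF.cons (PF.leaf (nat_lit 6979359) (nat_lit 1118016) (nat_lit 45171124) (nat_lit 4286926) [(nat_lit 1118016), (nat_lit 0), (nat_lit 6589347)]) (PF.cons (PF.leaf (nat_lit 7567326)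 (nat_lit 1133486) (nat_lit 44027470) (nat_lit 4287810) [(nat_lit 1133486), (nat_lit 0), (nat_lit 6563049)]) (PF.cons (PF.leaf (nat_lit 8158217) (nat_lit 1145523) (nat_lit 42896470) (nat_lit 4281905) [(nat_lit 1145523), (nat_lit
 0), (nat_lit 6528646)]) (PF.cons (PF.leaf (nat_lit 8748969) (nat_lit 1154514) (nat_lit 41783449) (nat_lit 4269843) [(nat_lit 1154514), (nat_lit 0), (nat_lit 6486959)]) (PF.cons (PF.leaf (nat_lit 9337065) (nat_lit 1160802) (nat_lit 40692484) (nat_lit 4252263) [(nat_lit 1160802), (nat_lit 0), (nat_lit 6438821)]) (PF.cons (PF.leaf (nat_lit 9920430) (nat_lit 1164697) (nat_lit 39626645) (nat_lit 4229790) [(nat_lit 1164697), (nat_lit 0), (nat_lit 6385047)]) (PF.cons (PF.leaf (nat_lit 10497405) (nat_lit 1166478) (nat_lit 38588175) (nat_lit 4203025) [(nat_lit 1166478), (nat_lit 0), (nat_lit 6326415)]) (PF.cons (PF.leaf (nat_lit 11066632) (nat_lit 1166393) (nat_lit 37578641) (nat_lit 4172529) [(nat_lit 1166393), (nat_lit 0), (nat_lit 6263655)])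 (PF.cons (PF.leaf (nat_lit 11627058) (nat_lit 1164671) (nat_lit 36599059) (nat_lit 4138822) [(nat_lit 1164671), (nat_lit 0), (nat_lit 6197438)]) (PF.cons (PF.leaf (nat_lit 12177865) (nat_lit 1161513) (nat_lit 35649997) (nat_lit 4102380) [(nat_lit 1161513), (nat_lit 0), (nat_lit 6128377)]) (PF.cons PF.nil (PF.cons PF.nil PF.nil)))))))))))))))) (PF.cons (PF.cons (PF.leaf (nat_lit 5924846) (nat_lit 3216394) (nat_lit 46463971) (nat_lit 4253971)
 [(nat_lit 0), (nat_lit 3216394), (nat_lit 6587238)]) (PF.cons (PF.leaf (nat_lit 6474265) (nat_lit 1093878) (nat_lit 45368082) (nat_lit 4264991) [(nat_lit 1093878), (nat_lit 3235060), (nat_lit 6573400)]) (PF.cons (PF.leaf (nat_lit 7036938) (nat_lit 1112496) (nat_lit 44265366) (nat_lit 4268974) [(nat_lit 1112496), (nat_lit 3247440), (nat_lit 6551019)]) (PF.cons (PF.leaf (nat_lit 7607818) (nat_lit 1127265) (nat_lit 43165576) (nat_lit 4266291) [(nat_lit 1127265), (nat_lit 3253894), (nat_lit 6520626)]) (PF.cons (PF.leaf (nat_lit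 8182916) (nat_lit 1138660) (nat_lit 42076086) (nat_lit 4257434) [(nat_lit 1138660), (nat_lit 3254868), (nat_lit 6482890)]) (PF.cons (PF.leaf (nat_lit 8759009) (nat_lit 1147083) (nat_lit 41002503) (nat_lit 4242954) [(nat_lit 1147083), (nat_lit 3250851), (nat_lit 6438543)]) (PF.cons (PF.leaf (nat_lit 9333465) (nat_lit 1152883) (nat_lit 39949074) (nat_lit 4223422) [(nat_lit 1152883), (nat_lit 3242342), (nat_lit 6388336)]) (PF.cons (PF.leaf (nat_lit 9904137) (nat_lit 1156368) (nat_lit 38918976) (nat_lit 4199404) [(nat_lit 1156368), (nat_lit 3229827), (nat_lit 6333011)]) (PF.cons (PF.leaf (nat_lit 10469301) (nat_lit 1157813) (nat_lit 37914527) (nat_lit 4171446)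
 [(nat_lit 1157813), (nat_lit 3213774), (nat_lit 6273278)]) (PF.cons (PF.leaf (nat_lit 11027558) (nat_lit 1157463) (nat_lit 36937352) (nat_lit 4140062) [(nat_lit 1157463), (nat_lit 3194621), (nat_lit 6209803)]) (PF.cons (PF.leaf (nat_lit 11577799) (nat_lit 1155537) (nat_lit 35988524) (nat_lit 4105729) [(nat_lit 1155537), (nat_lit 3172775), (nat_lit 6143204)]) (PF.cons (PF.leaf (nat_lit 12119182) (nat_lit 1152233) (nat_lit 35068662) (nat_lit 4068886) [(nat_lit 1152233), (nat_lit 3148609), (nat_lit 6074043)]) (PF.cons PF.nil (PF.cons PF.nil PF.nil)))))))))))))) (PF.cons (PF.cons (PF.leaf (nat_lit 7095750) (nat_lit 3233902) (nat_lit 43373449) (nat_lit 4248612) [(nat_lit 0), (nat_lit 3233902), (nat_lit 6509472)]) (PF.cons (PF.leaf (nat_lit 7648764) (nat_lit 1120058) (nat_lit 42319188) (nat_lit 4242816) [(nat_lit 1120058), (nat_lit 3237721), (nat_lit 6475653)]) (PF.cons (PF.leaf (nat_lit 8207702) (nat_lit 1131011) (nat_lit 41272074) (nat_lit 4231395) [(nat_lit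 1131011), (nat_lit 3236513), (nat_lit 6435146)]) (PF.cons (PF.leaf (nat_lit 8768981) (nat_lit 1139025) (nat_lit 40238267) (nat_lit 4214830) [(nat_lit 1139025), (nat_lit 3230706), (nat_lit 6388613)]) (PF.cons (PF.leaf (nat_lit
 9329782) (nat_lit 1144464) (nat_lit 39222356) (nat_lit 4193630) [(nat_lit 1144464), (nat_lit 3220745), (nat_lit 6336737)]) (PF.cons (PF.leaf (nat_lit 9887838) (nat_lit 1147644) (nat_lit 38227737) (nat_lit 4168308) [(nat_lit 1147644), (nat_lit 3207075), (nat_lit 6280196)]) (PF.cons (PF.leaf (nat_lit 10441324) (nat_lit 1148840) (nat_lit 37256881) (nat_lit 4139360) [(nat_lit 1148840), (nat_lit 3190122), (nat_lit 6219640)]) (PF.cons (PF.leaf (nat_lit 10988770) (nat_lit 1148295) (nat_lit 36311531) (nat_lit 4107258) [(nat_lit 1148295), (nat_lit 3170292), (nat_lit 6155682)]) (PF.cons (PF.leaf (nat_lit 11529015) (nat_lit 1146226) (nat_lit 35392850) (nat_lit 4072442) [(nat_lit 1146226), (nat_lit 3147961), (nat_lit 6088892)]) (PF.cons (PF.leaf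 (nat_lit 12061153) (nat_lit 1142825) (nat_lit 34501541) (nat_lit 4035316) [(nat_lit 1142825), (nat_lit 3123473), (nat_lit 6019788)]) (PF.cons PF.nil (PF.cons PF.nil PF.nil)))))))))))) (PF.cons (PF.cons (PF.leaf (nat_lit 8233765) (nat_lit 3216954) (nat_lit 40482915) (nat_lit 4203911) [(nat_lit 0), (nat_lit 3216954), (nat_lit 6385561)]) (PF.cons (PF.leaf (nat_lit 8779778) (nat_lit 1130331) (nat_lit 39489490) (nat_lit 4185577) [(nat_lit 1130331),
 (nat_lit 3209605), (nat_lit 6337298)]) (PF.cons (PF.leaf (nat_lit 9326747) (nat_lit 1135546) (nat_lit 38511257) (nat_lit 4162977) [(nat_lit 1135546), (nat_lit 3198406), (nat_lit 6284133)]) (PF.cons (PF.leaf (nat_lit 9872131) (nat_lit 1138529) (nat_lit 37551983) (nat_lit 4136575) [(nat_lit 1138529), (nat_lit 3183760), (nat_lit 6226692)]) (PF.cons (PF.leaf (nat_lit 10413972) (nat_lit 1139564) (nat_lit 36614391) (nat_lit 4106827) [(nat_lit 1139564), (nat_lit 3166061), (nat_lit 6165575)]) (PF.cons (PF.leaf (nat_lit 10950692)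 (nat_lit 1138897) (nat_lit 35700406) (nat_lit 4074166) [(nat_lit 1138897), (nat_lit 3145682), (nat_lit 6101352)]) (PF.cons (PF.leaf (nat_lit 11481056) (nat_lit 1136744) (nat_lit 34811332) (nat_lit 4038999) [(nat_lit 1136744), (nat_lit 3122972), (nat_lit 6034548)]) (PF.cons (PF.leaf (nat_lit 12004074) (nat_lit 1133294) (nat_lit 33947988) (nat_lit 4001700) [(nat_lit 1133294), (nat_lit 3098255), (nat_lit 5965647)]) (PF.cons (PF.leaf (nat_lit 12518982) (nat_lit 1128718) (nat_lit 33110807) (nat_lit 3962614) [(nat_lit 1128718), (nat_lit 3071823), (nat_lit 5895087)]) (PF.cons PF.nil PF.nil)))))))))) (PF.cons (PF.cons (PF.leaf (nat_lit 9325227) (nat_lit 3175380) (nat_lit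
 37814555) (nat_lit 4131529) [(nat_lit 0), (nat_lit 3175380), (nat_lit 6230603)]) (PF.cons (PF.leaf (nat_lit 9857666) (nat_lit 1129015) (nat_lit 36890676) (nat_lit 4104264) [(nat_lit 1129015), (nat_lit 3159930), (nat_lit 6172566)]) (PF.cons (PF.leaf (nat_lit 10387770) (nat_lit 1129982) (nat_lit 35986151) (nat_lit 4073896) [(nat_lit 1129982), (nat_lit 3141629), (nat_lit 6111140)]) (PF.cons (PF.leaf (nat_lit 10913757) (nat_lit 1129266) (nat_lit 35103175) (nat_lit 4040826) [(nat_lit 1129266), (nat_lit 3120823), (nat_lit 6046857)]) (PF.cons (PF.leaf (nat_lit 11434273) (nat_lit 1127089) (nat_lit 34243250) (nat_lit 4005432) [(nat_lit 1127089), (nat_lit 3097837), (nat_lit 5980210)]) (PF.cons (PF.leaf (nat_lit 11948246) (nat_lit 1123641) (nat_lit 33407347) (nat_lit 3968064) [(nat_lit 1123641), (nat_lit 3072973), (nat_lit 5911649)]) (PF.cons (PF.leaf (nat_lit 12454846) (nat_lit 1119090) (nat_lit 32596028) (nat_lit 3929042) [(nat_lit 1119090), (nat_lit 3046507), (nat_lit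 5841584)]) (PF.cons PF.nil PF.nil)))))))) (PF.cons (PF.cons (PF.leaf (nat_lit 10363363) (nat_lit 3116858) (nat_lit 35371179) (nat_lit 4040601) [(nat_lit 0), (nat_lit 3116858), (nat_lit 6056370)]) (PF.cons (PF.leaf (nat_lit
 10878427) (nat_lit 1119396) (nat_lit 34518987) (nat_lit 4007266) [(nat_lit 1119396), (nat_lit 3095741), (nat_lit 5992228)]) (PF.cons (PF.leaf (nat_lit 11389050) (nat_lit 1117258) (nat_lit 33687851) (nat_lit 3971765) [(nat_lit 1117258), (nat_lit 3072576), (nat_lit 5925899)]) (PF.cons (PF.leaf (nat_lit 11893979) (nat_lit 1113862) (nat_lit 32878948) (nat_lit 3934425) [(nat_lit 1113862), (nat_lit 3047646), (nat_lit 5857810)]) (PF.cons (PF.leaf (nat_lit 12392304) (nat_lit 1109378) (nat_lit 32092997) (nat_lit 3895548) [(nat_lit 1109378), (nat_lit 3021211), (nat_lit 5788347)]) (PF.cons PF.nil PF.nil)))))) (PF.cons (PF.cons (PF.leaf (nat_lit 11345863) (nat_lit 3047200) (nat_lit 33144343) (nat_lit 3938013) [(nat_lit 0), (nat_lit 3047200), (nat_lit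 5871625)]) (PF.cons (PF.leaf (nat_lit 11841612) (nat_lit 1103950) (nat_lit 32362094) (nat_lit 3900796) [(nat_lit 1103950), (nat_lit 3022282), (nat_lit 5804137)]) (PF.cons (PF.leaf (nat_lit 12331629) (nat_lit 1099576) (nat_lit 31601099) (nat_lit 3862140) [(nat_lit 1099576), (nat_lit 2995943), (nat_lit 5735378)]) (PF.cons (PF.leaf (nat_lit 12815042) (nat_lit 1094269) (nat_lit 30861887) (nat_lit 3822303) [(nat_lit 1094269), (nat_lit 2968408),
 (nat_lit 5665681)]) PF.nil)))) (PF.cons (PF.cons (PF.leaf (nat_lit 12273186) (nat_lit 2970707) (nat_lit 31119691) (nat_lit 3828821) [(nat_lit 0), (nat_lit 2970707), (nat_lit 5682674)]) (PF.cons (PF.leaf (nat_lit 12748892) (nat_lit 1084522) (nat_lit 30403512) (nat_lit 3789351) [(nat_lit 1084522), (nat_lit 2943389), (nat_lit 5613850)]) PF.nil)) (PF.cons PF.nil (PF.cons PF.nil (PF.cons PF.nil PF.nil))))))))))) (PF.cons (PF.cons (PF.cons (PF.leaf (nat_lit 6543129) (nat_lit 4202281) (nat_lit 43508492) (nat_lit 4202281) [(nat_lit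 0), (nat_lit 0), (nat_lit 6466013)]) (PF.cons (PF.leaf (nat_lit 7074286) (nat_lit 1089288) (nat_lit 42501671) (nat_lit 4202012) [(nat_lit 1089288), (nat_lit 0), (nat_lit 6438613)]) (PF.cons (PF.leaf (nat_lit 7616577) (nat_lit 1104154) (nat_lit 41491576) (nat_lit 4195927) [(nat_lit 1104154), (nat_lit 0), (nat_lit 6404333)]) (PF.cons (PF.leaf (nat_lit 8165416) (nat_lit 1115540) (nat_lit 40486582) (nat_lit 4184422) [(nat_lit 1115540), (nat_lit 0), (nat_lit 6363729)]) (PF.cons (PF.leaf (nat_lit 8717254) (nat_lit 1123922) (nat_lit 39492891) (nat_lit 4167962) [(nat_lit 1123922), (nat_lit 0), (nat_lit 6317422)]) (PF.cons (PF.leaf (nat_lit 9269251) (nat_lit 1129695)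
 (nat_lit 38515129) (nat_lit 4147038) [(nat_lit 1129695), (nat_lit 0), (nat_lit 6266055)]) (PF.cons (PF.leaf (nat_lit 9819126) (nat_lit 1133189) (nat_lit 37556735) (nat_lit 4122142) [(nat_lit 1133189), (nat_lit 0), (nat_lit 6210265)]) (PF.cons (PF.leaf (nat_lit 10365027) (nat_lit 1134691) (nat_lit 36620227) (nat_lit 4093751) [(nat_lit 1134691), (nat_lit 0), (nat_lit 6150664)]) (PF.cons (PF.leaf (nat_lit 10905467) (nat_lit 1134449) (nat_lit 35707405) (nat_lit 4062316) [(nat_lit 1134449), (nat_lit 0), (nat_lit 6087832)]) (PF.cons (PF.leaf (nat_lit 11439259) (nat_lit 1132683) (nat_lit 34819493) (nat_lit 4028258) [(nat_lit 1132683), (nat_lit 0), (nat_lit 6022303)]) (PF.cons (PF.leaf (nat_lit 11965462) (nat_lit 1129587) (nat_lit 33957261) (nat_lit 3991967) [(nat_lit 1129587), (nat_lit 0), (nat_lit 5954569)]) (PF.cons PF.nil (PF.cons PF.nil (PF.cons PF.nil PF.nil)))))))))))))) (PF.cons (PF.cons (PF.leaf (nat_lit 7658731) (nat_lit 3182823) (nat_lit 40685607) (nat_lit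 4170305) [(nat_lit 0), (nat_lit 3182823), (nat_lit 6356692)]) (PF.cons (PF.leaf (nat_lit 8190929) (nat_lit 1106893) (nat_lit 39722718) (nat_lit 4156803) [(nat_lit 1106893), (nat_lit 3179948), (nat_lit 6314149)]) (PF.cons
 (PF.leaf (nat_lit 8727868) (nat_lit 1115115) (nat_lit 38767905) (nat_lit 4138737) [(nat_lit 1115115), (nat_lit 3172906), (nat_lit 6266344)]) (PF.cons (PF.leaf (nat_lit 9266328) (nat_lit 1120722) (nat_lit 37826377) (nat_lit 4116547) [(nat_lit 1120722), (nat_lit 3162095), (nat_lit 6213874)]) (PF.cons (PF.leaf (nat_lit 9803815) (nat_lit 1124067) (nat_lit 36901947) (nat_lit 4090681) [(nat_lit 1124067), (nat_lit 3147913), (nat_lit 6157332)]) (PF.cons (PF.leaf (nat_lit 10338337) (nat_lit 1125446) (nat_lit 35997388) (nat_lit 4061577) [(nat_lit 1125446), (nat_lit 3130747), (nat_lit 6097288)]) (PF.cons (PF.leaf (nat_lit 10868302) (nat_lit 1125112) (nat_lit 35114684) (nat_lit 4029653) [(nat_lit 1125112), (nat_lit 3110960), (nat_lit 6034279)]) (PF.cons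 (PF.leaf (nat_lit 11392435) (nat_lit 1123286) (nat_lit 34255201) (nat_lit 3995298) [(nat_lit 1123286), (nat_lit 3088893), (nat_lit 5968804)]) (PF.cons (PF.leaf (nat_lit 11909739) (nat_lit 1120161) (nat_lit 33419821) (nat_lit 3958874) [(nat_lit 1120161), (nat_lit 3064859), (nat_lit 5901322)]) (PF.cons (PF.leaf (nat_lit 12419417) (nat_lit 1115906) (nat_lit 32609050) (nat_lit 3920711) [(nat_lit 1115906), (nat_lit 3039145), (nat_lit 5832248)])
 (PF.cons PF.nil (PF.cons PF.nil PF.nil)))))))))))) (PF.cons (PF.cons (PF.leaf (nat_lit 8740646) (nat_lit 3150950) (nat_lit 38056127) (nat_lit 4108543) [(nat_lit 0), (nat_lit 3150950), (nat_lit 6214080)]) (PF.cons (PF.leaf (nat_lit 9265063) (nat_lit 1111244) (nat_lit 37151277) (nat_lit 4085327) [(nat_lit 1111244), (nat_lit 3139199), (nat_lit 6160854)]) (PF.cons (PF.leaf (nat_lit 9789920) (nat_lit 1114555) (nat_lit 36260885) (nat_lit 4058692) [(nat_lit 1114555), (nat_lit 3124292), (nat_lit 6103846)]) (PF.cons (PF.leaf (nat_lit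 10312946) (nat_lit 1115902) (nat_lit 35388110) (nat_lit 4029045) [(nat_lit 1115902), (nat_lit 3106586), (nat_lit 6043592)]) (PF.cons (PF.leaf (nat_lit 10832397) (nat_lit 1115549) (nat_lit 34535201) (nat_lit 3996771) [(nat_lit 1115549), (nat_lit 3086422), (nat_lit 5980599)]) (PF.cons (PF.leaf (nat_lit 11346889) (nat_lit 1113721) (nat_lit 33703723) (nat_lit 3962236) [(nat_lit 1113721), (nat_lit 3064118), (nat_lit 5915335)]) (PF.cons (PF.leaf (nat_lit 11855340) (nat_lit 1110615) (nat_lit 32894711) (nat_lit 3925776) [(nat_lit 1110615), (nat_lit 3039968), (nat_lit 5848232)]) (PF.cons (PF.leaf (nat_lit 12356872) (nat_lit 1106399) (nat_lit 32108793) (nat_lit 3887700)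
 [(nat_lit 1106399), (nat_lit 3014240), (nat_lit 5779679)]) (PF.cons PF.nil (PF.cons PF.nil PF.nil)))))))))) (PF.cons (PF.cons (PF.leaf (nat_lit 9778218) (nat_lit 3100226) (nat_lit 35632416) (nat_lit 4026210) [(nat_lit 0), (nat_lit 3100226), (nat_lit 6049835)]) (PF.cons (PF.leaf (nat_lit 10289414) (nat_lit 1106043) (nat_lit 34791438) (nat_lit 3996181) [(nat_lit 1106043), (nat_lit 3082112), (nat_lit 5989603)]) (PF.cons (PF.leaf (nat_lit 10798207) (nat_lit 1105749) (nat_lit 33968133) (nat_lit 3963694) [(nat_lit 1105749), (nat_lit 3061681), (nat_lit 5926814)]) (PF.cons (PF.leaf (nat_lit 11302994) (nat_lit 1103982) (nat_lit 33164336) (nat_lit 3929090) [(nat_lit 1103982), (nat_lit 3039230), (nat_lit 5861914)]) (PF.cons (PF.leaf (nat_lit 11802569) (nat_lit 1100945) (nat_lit 32381285) (nat_lit 3892686) [(nat_lit 1100945), (nat_lit 3015039), (nat_lit 5795313)]) (PF.cons (PF.leaf (nat_lit 12295977) (nat_lit 1096809) (nat_lit 31619764) (nat_lit 3854774) [(nat_lit 1096809),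 (nat_lit 2989361), (nat_lit 5727380)]) (PF.cons PF.nil (PF.cons PF.nil PF.nil)))))))) (PF.cons (PF.cons (PF.leaf (nat_lit 10766307) (nat_lit 3036748) (nat_lit 33412588) (nat_lit 3930436) [(nat_lit 0), (nat_lit 3036748),
 (nat_lit 5872931)]) (PF.cons (PF.leaf (nat_lit 11261147) (nat_lit 1094057) (nat_lit 32636275) (nat_lit 3895872) [(nat_lit 1094057), (nat_lit 3014241), (nat_lit 5808547)]) (PF.cons (PF.leaf (nat_lit 11751752) (nat_lit 1091142) (nat_lit 31878873) (nat_lit 3859615) [(nat_lit 1091142), (nat_lit 2990082), (nat_lit 5742569)]) (PF.cons (PF.leaf (nat_lit 12236994) (nat_lit 1087128) (nat_lit 31141368) (nat_lit 3821939) [(nat_lit 1087128), (nat_lit 2964514), (nat_lit 5675353)]) (PF.cons (PF.leaf (nat_lit 12716043) (nat_lit 1082170) (nat_lit 30424352) (nat_lit 3783097) [(nat_lit 1082170), (nat_lit 2937757), (nat_lit 5607217)]) (PF.cons PF.nil PF.nil)))))) (PF.cons (PF.cons (PF.leaf (nat_lit 11703325) (nat_lit 2965100) (nat_lit 31386767) (nat_lit 3826563)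 [(nat_lit 0), (nat_lit 2965100), (nat_lit 5689993)]) (PF.cons (PF.leaf (nat_lit 12180209) (nat_lit 1077347) (nat_lit 30672988) (nat_lit 3789196) [(nat_lit 1077347), (nat_lit 2939701), (nat_lit 5623590)]) (PF.cons (PF.leaf (nat_lit 12651727) (nat_lit 1072551) (nat_lit 29978161) (nat_lit 3750726) [(nat_lit 1072551), (nat_lit 2913168), (nat_lit 5556326)]) (PF.cons PF.nil PF.nil)))) (PF.cons (PF.cons (PF.leaf (nat_lit 12589877) (nat_lit 2888659)
 (nat_lit 29541069) (nat_lit 3718500) [(nat_lit 0), (nat_lit 2888659), (nat_lit 5505761)]) (PF.cons PF.nil PF.nil)) (PF.cons PF.nil (PF.cons PF.nil (PF.cons PF.nil PF.nil)))))))))) (PF.cons (PF.cons (PF.cons (PF.leaf (nat_lit 8176613) (nat_lit 4080999) (nat_lit 38258478) (nat_lit 4080999) [(nat_lit 0), (nat_lit 0), (nat_lit 6192333)]) (PF.cons (PF.leaf (nat_lit 8689218) (nat_lit 1090225) (nat_lit 37379378) (nat_lit 4062157) [(nat_lit 1090225), (nat_lit 0), (nat_lit 6144262)]) (PF.cons (PF.leaf (nat_lit 9205710) (nat_lit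 1096343) (nat_lit 36508517) (nat_lit 4039572) [(nat_lit 1096343), (nat_lit 0), (nat_lit 6092009)]) (PF.cons (PF.leaf (nat_lit 9723158) (nat_lit 1100117) (nat_lit 35650358) (nat_lit 4013648) [(nat_lit 1100117), (nat_lit 0), (nat_lit 6036113)]) (PF.cons (PF.leaf (nat_lit 10239328) (nat_lit 1101886) (nat_lit 34808123) (nat_lit 3984780) [(nat_lit 1101886), (nat_lit 0), (nat_lit 5977091)]) (PF.cons (PF.leaf (nat_lit 10752446) (nat_lit 1101926) (nat_lit 33984126) (nat_lit 3953345) [(nat_lit 1101926), (nat_lit 0), (nat_lit 5915427)]) (PF.cons (PF.leaf (nat_lit 11261103) (nat_lit 1100471) (nat_lit 33179997) (nat_lit 3919697) [(nat_lit 1100471), (nat_lit 0), (nat_lit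
 5851571)]) (PF.cons (PF.leaf (nat_lit 11764177) (nat_lit 1097724) (nat_lit 32396838) (nat_lit 3884163) [(nat_lit 1097724), (nat_lit 0), (nat_lit 5785935)]) (PF.cons (PF.leaf (nat_lit 12260801) (nat_lit 1093856) (nat_lit 31635346) (nat_lit 3847043) [(nat_lit 1093856), (nat_lit 0), (nat_lit 5718892)]) (PF.cons PF.nil (PF.cons PF.nil (PF.cons PF.nil PF.nil)))))))))))) (PF.cons (PF.cons (PF.leaf (nat_lit 9207743) (nat_lit 3079981) (nat_lit 35865643) (nat_lit 4007975) [(nat_lit 0), (nat_lit 3079981), (nat_lit 6038803)]) (PF.cons (PF.leaf (nat_lit 9712234) (nat_lit 1090197) (nat_lit 35040591) (nat_lit 3981551) [(nat_lit 1090197), (nat_lit 3065185), (nat_lit 5982821)]) (PF.cons (PF.leaf (nat_lit 10216826) (nat_lit 1092069) (nat_lit 34228961) (nat_lit 3952360) [(nat_lit 1092069), (nat_lit 3047773), (nat_lit 5923894)]) (PF.cons (PF.leaf (nat_lit 10719463) (nat_lit 1092196) (nat_lit 33433447) (nat_lit 3920755) [(nat_lit 1092196), (nat_lit 3028064), (nat_lit 5862489)])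 (PF.cons (PF.leaf (nat_lit 11218574) (nat_lit 1090823) (nat_lit 32655947) (nat_lit 3887072) [(nat_lit 1090823), (nat_lit 3006354), (nat_lit 5799035)]) (PF.cons (PF.leaf (nat_lit 11712931) (nat_lit 1088161) (nat_lit 31897763)
 (nat_lit 3851618) [(nat_lit 1088161), (nat_lit 2982919), (nat_lit 5733926)]) (PF.cons (PF.leaf (nat_lit 12201562) (nat_lit 1084384) (nat_lit 31159744) (nat_lit 3814678) [(nat_lit 1084384), (nat_lit 2958007), (nat_lit 5667518)]) (PF.cons PF.nil (PF.cons PF.nil (PF.cons PF.nil PF.nil)))))))))) (PF.cons (PF.cons (PF.leaf (nat_lit 10197011) (nat_lit 3023326) (nat_lit 33660740) (nat_lit 3919649) [(nat_lit 0), (nat_lit 3023326), (nat_lit 5870442)]) (PF.cons (PF.leaf (nat_lit 10688788) (nat_lit 1082211) (nat_lit 32893722) (nat_lit 3888002) [(nat_lit 1082211), (nat_lit 3003491), (nat_lit 5809473)]) (PF.cons (PF.leaf (nat_lit 11178165) (nat_lit 1080988) (nat_lit 32142685) (nat_lit 3854387) [(nat_lit 1080988), (nat_lit 2981749), (nat_lit 5746565)])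 (PF.cons (PF.leaf (nat_lit 11663692) (nat_lit 1078464) (nat_lit 31409196) (nat_lit 3819099) [(nat_lit 1078464), (nat_lit 2958364), (nat_lit 5682098)]) (PF.cons (PF.leaf (nat_lit 12144272) (nat_lit 1074822) (nat_lit 30694302) (nat_lit 3782407) [(nat_lit 1074822), (nat_lit 2933575), (nat_lit 5616415)]) (PF.cons (PF.leaf (nat_lit 12619056) (nat_lit 1070220) (nat_lit 29998656) (nat_lit 3744558) [(nat_lit 1070220), (nat_lit 2907598), (nat_lit
 5549824)]) (PF.cons PF.nil (PF.cons PF.nil PF.nil)))))))) (PF.cons (PF.cons (PF.leaf (nat_lit 11140402) (nat_lit 2957054) (nat_lit 31639407) (nat_lit 3821643) [(nat_lit 0), (nat_lit 2957054), (nat_lit 5694149)]) (PF.cons (PF.leaf (nat_lit 11616816) (nat_lit 1068618) (nat_lit 30930454) (nat_lit 3786605) [(nat_lit 1068618), (nat_lit 2933789), (nat_lit 5630441)]) (PF.cons (PF.leaf (nat_lit 12089215) (nat_lit 1065156) (nat_lit 30238424) (nat_lit 3750230) [(nat_lit 1065156), (nat_lit 2909179), (nat_lit 5565576)]) (PF.cons (PF.leaf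 (nat_lit 12556568) (nat_lit 1060726) (nat_lit 29564164) (nat_lit 3712756) [(nat_lit 1060726), (nat_lit 2883431), (nat_lit 5499854)]) (PF.cons PF.nil (PF.cons PF.nil PF.nil)))))) (PF.cons (PF.cons (PF.leaf (nat_lit 12036791) (nat_lit 2884814) (nat_lit 29791480) (nat_lit 3718141) [(nat_lit 0), (nat_lit 2884814), (nat_lit 5514982)]) (PF.cons (PF.leaf (nat_lit 12496489) (nat_lit 1051153) (nat_lit 29138369) (nat_lit 3681098) [(nat_lit 1051153), (nat_lit 2859343), (nat_lit 5450203)]) (PF.cons PF.nil (PF.cons PF.nil PF.nil)))) (PF.cons (PF.cons (PF.leaf (nat_lit 12886838) (nat_lit 2809290) (nat_lit 28104023) (nat_lit 3612194) [(nat_lit 0), (nat_lit 2809290),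
 (nat_lit 5336535)]) (PF.cons PF.nil PF.nil)) (PF.cons PF.nil (PF.cons PF.nil PF.nil)))))))) (PF.cons (PF.cons (PF.cons (PF.leaf (nat_lit 9640769) (nat_lit 3905315) (nat_lit 33884485) (nat_lit 3905315) [(nat_lit 0), (nat_lit 0), (nat_lit 5863802)]) (PF.cons (PF.leaf (nat_lit 10126867) (nat_lit 1068025) (nat_lit 33130921) (nat_lit 3876884) [(nat_lit 1068025), (nat_lit 0), (nat_lit 5806596)]) (PF.cons (PF.leaf (nat_lit 10612854) (nat_lit 1068807) (nat_lit 32389628) (nat_lit 3846186) [(nat_lit 1068807), (nat_lit 0), (nat_lit 5747076)]) (PF.cons (PF.leaf (nat_lit 11096837) (nat_lit 1068023) (nat_lit 31662938) (nat_lit 3813538) [(nat_lit 1068023), (nat_lit 0), (nat_lit 5685652)]) (PF.cons (PF.leaf (nat_lit 11577398) (nat_lit 1065907) (nat_lit 30952481) (nat_lit 3779229) [(nat_lit 1065907), (nat_lit 0), (nat_lit 5622694)]) (PF.cons (PF.leaf (nat_lit 12053423) (nat_lit 1062648) (nat_lit 30259366) (nat_lit 3743525) [(nat_lit 1062648), (nat_lit 0), (nat_lit 5558535)])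 (PF.cons (PF.leaf (nat_lit 12524034) (nat_lit 1058411) (nat_lit 29584309) (nat_lit 3706666) [(nat_lit 1058411), (nat_lit 0), (nat_lit 5493473)]) (PF.cons PF.nil PF.nil)))))))) (PF.cons (PF.cons (PF.leaf (nat_lit 10586564)
 (nat_lit 2946282) (nat_lit 31874525) (nat_lit 3813787) [(nat_lit 0), (nat_lit 2946282), (nat_lit 5694843)]) (PF.cons (PF.leaf (nat_lit 11060532) (nat_lit 1058063) (nat_lit 31173357) (nat_lit 3781331) [(nat_lit 1058063), (nat_lit 2925401), (nat_lit 5634131)]) (PF.cons (PF.leaf (nat_lit 11532156) (nat_lit 1056160) (nat_lit 30486559) (nat_lit 3747284) [(nat_lit 1056160), (nat_lit 2902938), (nat_lit 5571941)]) (PF.cons (PF.leaf (nat_lit 12000100) (nat_lit 1053095) (nat_lit 29815490) (nat_lit 3711904) [(nat_lit 1053095), (nat_lit 2879122), (nat_lit 5508601)]) (PF.cons (PF.leaf (nat_lit 12463363) (nat_lit 1049037) (nat_lit 29161056) (nat_lit 3675422) [(nat_lit 1049037), (nat_lit 2854162), (nat_lit 5444403)]) (PF.cons PF.nil PF.nil)))))) (PF.cons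 (PF.cons (PF.leaf (nat_lit 11489808) (nat_lit 2878740) (nat_lit 30029282) (nat_lit 3715359) [(nat_lit 0), (nat_lit 2878740), (nat_lit 5521338)]) (PF.cons (PF.leaf (nat_lit 11949359) (nat_lit 1043418) (nat_lit 29380139) (nat_lit 3680370) [(nat_lit 1043418), (nat_lit 2855167), (nat_lit 5458909)]) (PF.cons (PF.leaf (nat_lit 12405119) (nat_lit 1039582) (nat_lit 28746117) (nat_lit 3644319) [(nat_lit 1039582), (nat_lit 2830486), (nat_lit 5395647)])
 (PF.cons PF.nil PF.nil)))) (PF.cons (PF.cons (PF.leaf (nat_lit 12349672) (nat_lit 2806878) (nat_lit 28338931) (nat_lit 3613345) [(nat_lit 0), (nat_lit 2806878), (nat_lit 5347180)]) (PF.cons PF.nil PF.nil)) (PF.cons PF.nil (PF.cons PF.nil PF.nil)))))) (PF.cons (PF.cons (PF.cons (PF.leaf (nat_lit 10950927) (nat_lit 3709890) (nat_lit 30251719) (nat_lit 3709890) [(nat_lit 0), (nat_lit 0), (nat_lit 5524533)]) (PF.cons (PF.leaf (nat_lit 11408506) (nat_lit 1033976) (nat_lit 29609164) (nat_lit 3677197) [(nat_lit 1033976), (nat_lit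 0), (nat_lit 5464745)]) (PF.cons (PF.leaf (nat_lit 11863830) (nat_lit 1031578) (nat_lit 28979488) (nat_lit 3643206) [(nat_lit 1031578), (nat_lit 0), (nat_lit 5403826)]) (PF.cons (PF.leaf (nat_lit 12315652) (nat_lit 1028134) (nat_lit 28363890) (nat_lit 3608143) [(nat_lit 1028134), (nat_lit 0), (nat_lit 5342062)]) (PF.cons PF.nil (PF.cons PF.nil PF.nil)))))) (PF.cons (PF.cons (PF.leaf (nat_lit 11817908) (nat_lit 2802426) (nat_lit 28562762) (nat_lit 3612287) [(nat_lit 0), (nat_lit 2802426), (nat_lit 5355222)]) (PF.cons (PF.leaf (nat_lit 12261962) (nat_lit 1018685) (nat_lit 27966792) (nat_lit 3577708) [(nat_lit 1018685), (nat_lit 2778862), (nat_lit 5294460)])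
 (PF.cons PF.nil (PF.cons PF.nil PF.nil)))) (PF.cons (PF.cons (PF.leaf (nat_lit 12644738) (nat_lit 2731605) (nat_lit 27012229) (nat_lit 3512501) [(nat_lit 0), (nat_lit 2731605), (nat_lit 5186811)]) (PF.cons PF.nil PF.nil)) (PF.cons PF.nil PF.nil)))) (PF.cons (PF.cons (PF.cons (PF.leaf (nat_lit 12127480) (nat_lit 3512836) (nat_lit 27222993) (nat_lit 3512836) [(nat_lit 0), (nat_lit 0), (nat_lit 5196140)]) (PF.cons (PF.leaf (nat_lit 12557229) (nat_lit 994567) (nat_lit 26674382) (nat_lit 3478912) [(nat_lit 994567), (nat_lit 0), (nat_lit 5137278)]) PF.nil)) (PF.cons PF.nil PF.nil)) (PF.cons PF.nil (PF.cons PF.nil (PF.cons PF.nil (PF.cons PF.nil PF.nil))))))))))))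

def p12_22_0_0 : pfC (piC [(nat_lit 30365544), (nat_lit 20402210), (nat_lit 13167684)] (nat_lit 17259719)) p12_22_0 (nat_lit 3) (nat_lit 0) (nat_lit 1) = true := by decide +kernel
def p12_22_0_1 : pfC (piC [(nat_lit 30365544), (nat_lit 20402210), (nat_lit 13167684)] (nat_lit 17259719)) p12_22_0 (nat_lit 3) (nat_lit 1) (nat_lit 2) = true := by decide +kernel
def p12_22_0_2 : pfC (piC [(nat_lit 30365544), (nat_lit 20402210), (nat_lit 13167684)] (nat_lit 17259719)) p12_22_0 (nat_lit 3) (nat_lit 2) (nat_lit 3) = true := by decide +kernel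
def p12_22_0_3 : pfC (piC [(nat_lit 30365544), (nat_lit 20402210), (nat_lit 13167684)] (nat_lit 17259719)) p12_22_0 (nat_lit 3) (nat_lit 3) (nat_lit 4) = true := by decide +kernel
def p12_22_0_4 : pfC (piC [(nat_lit 30365544), (nat_lit 20402210), (nat_lit 13167684)] (nat_lit 17259719)) p12_22_0 (nat_lit 3) (nat_lit 4) (nat_lit 5) = true := by decide +kernel
def p12_22_0_5 : pfC (piC [(nat_lit 30365544), (nat_lit 20402210), (nat_lit 13167684)] (nat_lit 17259719)) p12_22_0 (nat_lit 3) (nat_lit 5) (nat_lit 6) = true := by decide +kernel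
def p12_22_0_6 : pfC (piC [(nat_lit 30365544), (nat_lit 20402210), (nat_lit 13167684)] (nat_lit 17259719)) p12_22_0 (nat_lit 3) (nat_lit 6) (nat_lit 7) = true := by decide +kernel
def p12_22_0_7 : pfC (piC [(nat_lit 30365544), (nat_lit 20402210), (nat_lit 13167684)] (nat_lit 17259719)) p12_22_0 (nat_lit 3) (nat_lit 7) (nat_lit 8) = true := by decide +kernel
def p12_22_0_8 : pfC (piC [(nat_lit 30365544), (nat_lit 20402210), (nat_lit 13167684)] (nat_lit 17259719)) p12_22_0 (nat_lit 3) (nat_lit 8) (nat_lit 9) = true := by decide +kernel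
def p12_22_0_9 : pfC (piC [(nat_lit 30365544), (nat_lit 20402210), (nat_lit 13167684)] (nat_lit 17259719)) p12_22_0 (nat_lit 3) (nat_lit 9) (nat_lit 10) = true := by decide +kernel
def p12_22_0_10 : pfC (piC [(nat_lit 30365544), (nat_lit 20402210), (nat_lit 13167684)] (nat_lit 17259719)) p12_22_0 (nat_lit 3) (nat_lit 10) (nat_lit 11) = true := by decide +kernel
def p12_22_0_11 : pfC (piC [(nat_lit 30365544), (nat_lit 20402210), (nat_lit 13167684)] (nat_lit 17259719)) p12_22_0 (nat_lit 3) (nat_lit 11) (nat_lit 12) = true := by decide +kernel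
def p12_22_0_12 : pfC (piC [(nat_lit 30365544), (nat_lit 20402210), (nat_lit 13167684)] (nat_lit 17259719)) p12_22_0 (nat_lit 3) (nat_lit 12) (nat_lit 13) = true := by decide +kernel
def p12_22_0_13 : pfC (piC [(nat_lit 30365544), (nat_lit 20402210), (nat_lit 13167684)] (nat_lit 17259719)) p12_22_0 (nat_lit 3) (nat_lit 13) (nat_lit 14) = true := by decide +kernel
def p12_22_0_14 : pfC (piC [(nat_lit 30365544), (nat_lit 20402210), (nat_lit 13167684)] (nat_lit 17259719)) p12_22_0 (nat_lit 3) (nat_lit 14) (nat_lit 15) = true := by decide +kernel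
def p12_22_0_15 : pfC (piC [(nat_lit 30365544), (nat_lit 20402210), (nat_lit 13167684)] (nat_lit 17259719)) p12_22_0 (nat_lit 3) (nat_lit 15) (nat_lit 16) = true := by decide +kernel
def p12_22_0_16 : pfC (piC [(nat_lit 30365544), (nat_lit 20402210), (nat_lit 13167684)] (nat_lit 17259719)) p12_22_0 (nat_lit 3) (nat_lit 16) (nat_lit 17) = true := by decide +kernel
def p12_22_0_17 : pfC (piC [(nat_lit 30365544), (nat_lit 20402210), (nat_lit 13167684)] (nat_lit 17259719)) p12_22_0 (nat_lit 3) (nat_lit 17) (nat_lit 18) = true := by decide +kernel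
def p12_22_0_18 : pfC (piC [(nat_lit 30365544), (nat_lit 20402210), (nat_lit 13167684)] (nat_lit 17259719)) p12_22_0 (nat_lit 3) (nat_lit 18) (nat_lit 19) = true := by decide +kernel
def p12_22_0_19 : pfC (piC [(nat_lit 30365544), (nat_lit 20402210), (nat_lit 13167684)] (nat_lit 17259719)) p12_22_0 (nat_lit 3) (nat_lit 19) (nat_lit 20) = true := by decide +kernel
def p12_22_0_20 : pfC (piC [(nat_lit 30365544), (nat_lit 20402210), (nat_lit 13167684)] (nat_lit 17259719)) p12_22_0 (nat_lit 3) (nat_lit 20) (nat_lit 21) = true := by decide +kernel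
def p12_22_0_21 : pfC (piC [(nat_lit 30365544), (nat_lit 20402210), (nat_lit 13167684)] (nat_lit 17259719)) p12_22_0 (nat_lit 3) (nat_lit 21) (nat_lit 22) = true := by decide +kernel
def p12_22_0_22 : pfC (piC [(nat_lit 30365544), (nat_lit 20402210), (nat_lit 13167684)] (nat_lit 17259719)) p12_22_0 (nat_lit 3) (nat_lit 22) (nat_lit 23) = true := by decide +kernel
def p12_22_0_23 : pfC (piC [(nat_lit 30365544), (nat_lit 20402210), (nat_lit 13167684)] (nat_lit 17259719)) p12_22_0 (nat_lit 3) (nat_lit 23) (nat_lit 24) = true := by decide +kernel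
def p12_22_0_24 : pfC (piC [(nat_lit 30365544), (nat_lit 20402210), (nat_lit 13167684)] (nat_lit 17259719)) p12_22_0 (nat_lit 3) (nat_lit 24) (nat_lit 25) = true := by decide +kernel
def p12_22_0_25 : pfC (piC [(nat_lit 30365544), (nat_lit 20402210), (nat_lit 13167684)] (nat_lit 17259719)) p12_22_0 (nat_lit 3) (nat_lit 25) (nat_lit 26) = true := by decide +kernel
def p12_22_0_26 : pfC (piC [(nat_lit 30365544), (nat_lit 20402210), (nat_lit 13167684)] (nat_lit 17259719)) p12_22_0 (nat_lit 3) (nat_lit 26) (nat_lit 27) = true := by decide +kernel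
def p12_22_0_27 : pfC (piC [(nat_lit 30365544), (nat_lit 20402210), (nat_lit 13167684)] (nat_lit 17259719)) p12_22_0 (nat_lit 3) (nat_lit 27) (nat_lit 28) = true := by decide +kernel
def p12_22_0_28 : pfC (piC [(nat_lit 30365544), (nat_lit 20402210), (nat_lit 13167684)] (nat_lit 17259719)) p12_22_0 (nat_lit 3) (nat_lit 28) (nat_lit 29) = true := by decide +kernel
def p12_22_0_29 : pfC (piC [(nat_lit 30365544), (nat_lit 20402210), (nat_lit 13167684)] (nat_lit 17259719)) p12_22_0 (nat_lit 3) (nat_lit 29) (nat_lit 30) = true := by decide +kernel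
def p12_22_0_30 : pfC (piC [(nat_lit 30365544), (nat_lit 20402210), (nat_lit 13167684)] (nat_lit 17259719)) p12_22_0 (nat_lit 3) (nat_lit 30) (nat_lit 31) = true := by decide +kernel
def p12_22_0_31 : pfC (piC [(nat_lit 30365544), (nat_lit 20402210), (nat_lit 13167684)] (nat_lit 17259719)) p12_22_0 (nat_lit 3) (nat_lit 31) (nat_lit 32) = true := by decide +kernel
def p12_22_0_32 : pfC (piC [(nat_lit 30365544), (nat_lit 20402210), (nat_lit 13167684)] (nat_lit 17259719)) p12_22_0 (nat_lit 3) (nat_lit 32) (nat_lit 33) = true := by decide +kernel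
def p12_22_0_33 : pfC (piC [(nat_lit 30365544), (nat_lit 20402210), (nat_lit 13167684)] (nat_lit 17259719)) p12_22_0 (nat_lit 3) (nat_lit 33) (nat_lit 34) = true := by decide +kernel
def p12_22_0_34 : pfC (piC [(nat_lit 30365544), (nat_lit 20402210), (nat_lit 13167684)] (nat_lit 17259719)) p12_22_0 (nat_lit 3) (nat_lit 34) (nat_lit 35) = true := by decide +kernel
def p12_22_0_35 : pfC (piC [(nat_lit 30365544), (nat_lit 20402210), (nat_lit 13167684)] (nat_lit 17259719)) p12_22_0 (nat_lit 3) (nat_lit 35) (nat_lit 36) = true := by decide +kernel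
def p12_22_0_36 : pfC (piC [(nat_lit 30365544), (nat_lit 20402210), (nat_lit 13167684)] (nat_lit 17259719)) p12_22_0 (nat_lit 3) (nat_lit 36) (nat_lit 37) = true := by decide +kernel
def p12_22_0_37 : pfC (piC [(nat_lit 30365544), (nat_lit 20402210), (nat_lit 13167684)] (nat_lit 17259719)) p12_22_0 (nat_lit 3) (nat_lit 37) (nat_lit 38) = true := by decide +kernel
def p12_22_0_38 : pfC (piC [(nat_lit 30365544), (nat_lit 20402210), (nat_lit 13167684)] (nat_lit 17259719)) p12_22_0 (nat_lit 3) (nat_lit 38) (nat_lit 39) = true := by decide +kernel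
def p12_22_0_39 : pfC (piC [(nat_lit 30365544), (nat_lit 20402210), (nat_lit 13167684)] (nat_lit 17259719)) p12_22_0 (nat_lit 3) (nat_lit 39) (nat_lit 40) = true := by decide +kernel
def p12_22_0_40 : pfC (piC [(nat_lit 30365544), (nat_lit 20402210), (nat_lit 13167684)] (nat_lit 17259719)) p12_22_0 (nat_lit 3) (nat_lit 40) (nat_lit 41) = true := by decide +kernel
def p12_22_0_41 : pfC (piC [(nat_lit 30365544), (nat_lit 20402210), (nat_lit 13167684)] (nat_lit 17259719)) p12_22_0 (nat_lit 3) (nat_lit 41) (nat_lit 42) = true := by decide +kernel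
def p12_22_0_42 : pfC (piC [(nat_lit 30365544), (nat_lit 20402210), (nat_lit 13167684)] (nat_lit 17259719)) p12_22_0 (nat_lit 3) (nat_lit 42) (nat_lit 43) = true := by decide +kernel
def p12_22_0_43 : pfC (piC [(nat_lit 30365544), (nat_lit 20402210), (nat_lit 13167684)] (nat_lit 17259719)) p12_22_0 (nat_lit 3) (nat_lit 43) (nat_lit 44) = true := by decide +kernel
def p12_22_0_44 : pfC (piC [(nat_lit 30365544), (nat_lit 20402210), (nat_lit 13167684)] (nat_lit 17259719)) p12_22_0 (nat_lit 3) (nat_lit 44) (nat_lit 45) = true := by decide +kernel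
def p12_22_0_45 : pfC (piC [(nat_lit 30365544), (nat_lit 20402210), (nat_lit 13167684)] (nat_lit 17259719)) p12_22_0 (nat_lit 3) (nat_lit 45) (nat_lit 46) = true := by decide +kernel
def p12_22_0_46 : pfC (piC [(nat_lit 30365544), (nat_lit 20402210), (nat_lit 13167684)] (nat_lit 17259719)) p12_22_0 (nat_lit 3) (nat_lit 46) (nat_lit 47) = true := by decide +kernel
def p12_22_0_47 : pfC (piC [(nat_lit 30365544), (nat_lit 20402210), (nat_lit 13167684)] (nat_lit 17259719)) p12_22_0 (nat_lit 3) (nat_lit 47) (nat_lit 48) = true := by decide +kernel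
def p12_22_0_48 : pfC (piC [(nat_lit 30365544), (nat_lit 20402210), (nat_lit 13167684)] (nat_lit 17259719)) p12_22_0 (nat_lit 3) (nat_lit 48) (nat_lit 49) = true := by decide +kernel
def p12_22_0_49 : pfC (piC [(nat_lit 30365544), (nat_lit 20402210), (nat_lit 13167684)] (nat_lit 17259719)) p12_22_0 (nat_lit 3) (nat_lit 49) (nat_lit 50) = true := by decide +kernel
def p12_22_0_50 : pfC (piC [(nat_lit 30365544), (nat_lit 20402210), (nat_lit 13167684)] (nat_lit 17259719)) p12_22_0 (nat_lit 3) (nat_lit 50) (nat_lit 51) = true := by decide +kernel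
def p12_22_0_51 : pfC (piC [(nat_lit 30365544), (nat_lit 20402210), (nat_lit 13167684)] (nat_lit 17259719)) p12_22_0 (nat_lit 3) (nat_lit 51) (nat_lit 52) = true := by decide +kernel
def p12_22_0_52 : pfC (piC [(nat_lit 30365544), (nat_lit 20402210), (nat_lit 13167684)] (nat_lit 17259719)) p12_22_0 (nat_lit 3) (nat_lit 52) (nat_lit 53) = true := by decide +kernel
def p12_22_0_53 : pfC (piC [(nat_lit 30365544), (nat_lit 20402210), (nat_lit 13167684)] (nat_lit 17259719)) p12_22_0 (nat_lit 3) (nat_lit 53) (nat_lit 54) = true := by decide +kernel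
def p12_22_0_54 : pfC (piC [(nat_lit 30365544), (nat_lit 20402210), (nat_lit 13167684)] (nat_lit 17259719)) p12_22_0 (nat_lit 3) (nat_lit 54) (nat_lit 55) = true := by decide +kernel
def p12_22_0_55 : pfC (piC [(nat_lit 30365544), (nat_lit 20402210), (nat_lit 13167684)] (nat_lit 17259719)) p12_22_0 (nat_lit 3) (nat_lit 55) (nat_lit 56) = true := by decide +kernel
def p12_22_0_56 : pfC (piC [(nat_lit 30365544), (nat_lit 20402210), (nat_lit 13167684)] (nat_lit 17259719)) p12_22_0 (nat_lit 3) (nat_lit 56) (nat_lit 57) = true := by decide +kernel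
def p12_22_0_57 : pfC (piC [(nat_lit 30365544), (nat_lit 20402210), (nat_lit 13167684)] (nat_lit 17259719)) p12_22_0 (nat_lit 3) (nat_lit 57) (nat_lit 58) = true := by decide +kernel
def p12_22_0_58 : pfC (piC [(nat_lit 30365544), (nat_lit 20402210), (nat_lit 13167684)] (nat_lit 17259719)) p12_22_0 (nat_lit 3) (nat_lit 58) (nat_lit 59) = true := by decide +kernel
def p12_22_0_59 : pfC (piC [(nat_lit 30365544), (nat_lit 20402210), (nat_lit 13167684)] (nat_lit 17259719)) p12_22_0 (nat_lit 3) (nat_lit 59) (nat_lit 60) = true := by decide +kernel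
def p12_22_0_60 : pfC (piC [(nat_lit 30365544), (nat_lit 20402210), (nat_lit 13167684)] (nat_lit 17259719)) p12_22_0 (nat_lit 3) (nat_lit 60) (nat_lit 61) = true := by decide +kernel
def p12_22_0_61 : pfC (piC [(nat_lit 30365544), (nat_lit 20402210), (nat_lit 13167684)] (nat_lit 17259719)) p12_22_0 (nat_lit 3) (nat_lit 61) (nat_lit 62) = true := by decide +kernel
def p12_22_0_62 : pfC (piC [(nat_lit 30365544), (nat_lit 20402210), (nat_lit 13167684)] (nat_lit 17259719)) p12_22_0 (nat_lit 3) (nat_lit 62) (nat_lit 63) = true := by decide +kernel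
def p12_22_0_63 : pfC (piC [(nat_lit 30365544), (nat_lit 20402210), (nat_lit 13167684)] (nat_lit 17259719)) p12_22_0 (nat_lit 3) (nat_lit 63) (nat_lit 64) = true := by decide +kernel
def p12_22_0_64 : pfC (piC [(nat_lit 30365544), (nat_lit 20402210), (nat_lit 13167684)] (nat_lit 17259719)) p12_22_0 (nat_lit 3) (nat_lit 64) (nat_lit 65) = true := by decide +kernel
def p12_22_0_65 : pfC (piC [(nat_lit 30365544), (nat_lit 20402210), (nat_lit 13167684)] (nat_lit 17259719)) p12_22_0 (nat_lit 3) (nat_lit 65) (nat_lit 66) = true := by decide +kernel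
def p12_22_0_66 : pfC (piC [(nat_lit 30365544), (nat_lit 20402210), (nat_lit 13167684)] (nat_lit 17259719)) p12_22_0 (nat_lit 3) (nat_lit 66) (nat_lit 67) = true := by decide +kernel
def p12_22_0_67 : pfC (piC [(nat_lit 30365544), (nat_lit 20402210), (nat_lit 13167684)] (nat_lit 17259719)) p12_22_0 (nat_lit 3) (nat_lit 67) (nat_lit 68) = true := by decide +kernel
def p12_22_0_68 : pfC (piC [(nat_lit 30365544), (nat_lit 20402210), (nat_lit 13167684)] (nat_lit 17259719)) p12_22_0 (nat_lit 3) (nat_lit 68) (nat_lit 69) = true := by decide +kernel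
def p12_22_0_69 : pfC (piC [(nat_lit 30365544), (nat_lit 20402210), (nat_lit 13167684)] (nat_lit 17259719)) p12_22_0 (nat_lit 3) (nat_lit 69) (nat_lit 70) = true := by decide +kernel
def p12_22_0_70 : pfC (piC [(nat_lit 30365544), (nat_lit 20402210), (nat_lit 13167684)] (nat_lit 17259719)) p12_22_0 (nat_lit 3) (nat_lit 70) (nat_lit 71) = true := by decide +kernel
def p12_22_0_71 : pfC (piC [(nat_lit 30365544), (nat_lit 20402210), (nat_lit 13167684)] (nat_lit 17259719)) p12_22_0 (nat_lit 3) (nat_lit 71) (nat_lit 72) = true := by decide +kernel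
def p12_22_0_72 : pfC (piC [(nat_lit 30365544), (nat_lit 20402210), (nat_lit 13167684)] (nat_lit 17259719)) p12_22_0 (nat_lit 3) (nat_lit 72) (nat_lit 73) = true := by decide +kernel
def p12_22_0_73 : pfC (piC [(nat_lit 30365544), (nat_lit 20402210), (nat_lit 13167684)] (nat_lit 17259719)) p12_22_0 (nat_lit 3) (nat_lit 73) (nat_lit 74) = true := by decide +kernel
def p12_22_0_74 : pfC (piC [(nat_lit 30365544), (nat_lit 20402210), (nat_lit 13167684)] (nat_lit 17259719)) p12_22_0 (nat_lit 3) (nat_lit 74) (nat_lit 75) = true := by decide +kernel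
def p12_22_0_75 : pfC (piC [(nat_lit 30365544), (nat_lit 20402210), (nat_lit 13167684)] (nat_lit 17259719)) p12_22_0 (nat_lit 3) (nat_lit 75) (nat_lit 76) = true := by decide +kernel
def p12_22_0_76 : pfC (piC [(nat_lit 30365544), (nat_lit 20402210), (nat_lit 13167684)] (nat_lit 17259719)) p12_22_0 (nat_lit 3) (nat_lit 76) (nat_lit 77) = true := by decide +kernel
def p12_22_0_77 : pfC (piC [(nat_lit 30365544), (nat_lit 20402210), (nat_lit 13167684)] (nat_lit 17259719)) p12_22_0 (nat_lit 3) (nat_lit 77) (nat_lit 78) = true := by decide +kernel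
def p12_22_0_78 : pfC (piC [(nat_lit 30365544), (nat_lit 20402210), (nat_lit 13167684)] (nat_lit 17259719)) p12_22_0 (nat_lit 3) (nat_lit 78) (nat_lit 79) = true := by decide +kernel
def p12_22_0_79 : pfC (piC [(nat_lit 30365544), (nat_lit 20402210), (nat_lit 13167684)] (nat_lit 17259719)) p12_22_0 (nat_lit 3) (nat_lit 79) (nat_lit 80) = true := by decide +kernel
def p12_22_0_80 : pfC (piC [(nat_lit 30365544), (nat_lit 20402210), (nat_lit 13167684)] (nat_lit 17259719)) p12_22_0 (nat_lit 3) (nat_lit 80) (nat_lit 81) = true := by decide +kernel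
def p12_22_0_81 : pfC (piC [(nat_lit 30365544), (nat_lit 20402210), (nat_lit 13167684)] (nat_lit 17259719)) p12_22_0 (nat_lit 3) (nat_lit 81) (nat_lit 82) = true := by decide +kernel
def p12_22_0_82 : pfC (piC [(nat_lit 30365544), (nat_lit 20402210), (nat_lit 13167684)] (nat_lit 17259719)) p12_22_0 (nat_lit 3) (nat_lit 82) (nat_lit 83) = true := by decide +kernel
def p12_22_0_83 : pfC (piC [(nat_lit 30365544), (nat_lit 20402210), (nat_lit 13167684)] (nat_lit 17259719)) p12_22_0 (nat_lit 3) (nat_lit 83) (nat_lit 84) = true := by decide +kernel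
def p12_22_0_84 : pfC (piC [(nat_lit 30365544), (nat_lit 20402210), (nat_lit 13167684)] (nat_lit 17259719)) p12_22_0 (nat_lit 3) (nat_lit 84) (nat_lit 85) = true := by decide +kernel
def p12_22_0_85 : pfC (piC [(nat_lit 30365544), (nat_lit 20402210), (nat_lit 13167684)] (nat_lit 17259719)) p12_22_0 (nat_lit 3) (nat_lit 85) (nat_lit 86) = true := by decide +kernel
def p12_22_0_86 : pfC (piC [(nat_lit 30365544), (nat_lit 20402210), (nat_lit 13167684)] (nat_lit 17259719)) p12_22_0 (nat_lit 3) (nat_lit 86) (nat_lit 87) = true := by decide +kernel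
def p12_22_0_87 : pfC (piC [(nat_lit 30365544), (nat_lit 20402210), (nat_lit 13167684)] (nat_lit 17259719)) p12_22_0 (nat_lit 3) (nat_lit 87) (nat_lit 88) = true := by decide +kernel
def p12_22_0_88 : pfC (piC [(nat_lit 30365544), (nat_lit 20402210), (nat_lit 13167684)] (nat_lit 17259719)) p12_22_0 (nat_lit 3) (nat_lit 88) (nat_lit 89) = true := by decide +kernel
def p12_22_0_89 : pfC (piC [(nat_lit 30365544), (nat_lit 20402210), (nat_lit 13167684)] (nat_lit 17259719)) p12_22_0 (nat_lit 3) (nat_lit 89) (nat_lit 90) = true := by decide +kernel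
def p12_22_0_90 : pfC (piC [(nat_lit 30365544), (nat_lit 20402210), (nat_lit 13167684)] (nat_lit 17259719)) p12_22_0 (nat_lit 3) (nat_lit 90) (nat_lit 91) = true := by decide +kernel
def p12_22_0_91 : pfC (piC [(nat_lit 30365544), (nat_lit 20402210), (nat_lit 13167684)] (nat_lit 17259719)) p12_22_0 (nat_lit 3) (nat_lit 91) (nat_lit 92) = true := by decide +kernel
def p12_22_0_92 : pfC (piC [(nat_lit 30365544), (nat_lit 20402210), (nat_lit 13167684)] (nat_lit 17259719)) p12_22_0 (nat_lit 3) (nat_lit 92) (nat_lit 93) = true := by decide +kernel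
def p12_22_0_93 : pfC (piC [(nat_lit 30365544), (nat_lit 20402210), (nat_lit 13167684)] (nat_lit 17259719)) p12_22_0 (nat_lit 3) (nat_lit 93) (nat_lit 94) = true := by decide +kernel
def p12_22_0_94 : pfC (piC [(nat_lit 30365544), (nat_lit 20402210), (nat_lit 13167684)] (nat_lit 17259719)) p12_22_0 (nat_lit 3) (nat_lit 94) (nat_lit 95) = true := by decide +kernel
def p12_22_0_95 : pfC (piC [(nat_lit 30365544), (nat_lit 20402210), (nat_lit 13167684)] (nat_lit 17259719)) p12_22_0 (nat_lit 3) (nat_lit 95) (nat_lit 96) = true := by decide +kernel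
def p12_22_0_96 : pfC (piC [(nat_lit 30365544), (nat_lit 20402210), (nat_lit 13167684)] (nat_lit 17259719)) p12_22_0 (nat_lit 3) (nat_lit 96) (nat_lit 97) = true := by decide +kernel
def p12_22_0_97 : pfC (piC [(nat_lit 30365544), (nat_lit 20402210), (nat_lit 13167684)] (nat_lit 17259719)) p12_22_0 (nat_lit 3) (nat_lit 97) (nat_lit 98) = true := by decide +kernel
def p12_22_0_98 : pfC (piC [(nat_lit 30365544), (nat_lit 20402210), (nat_lit 13167684)] (nat_lit 17259719)) p12_22_0 (nat_lit 3) (nat_lit 98) (nat_lit 99) = true := by decide +kernel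
def p12_22_0_99 : pfC (piC [(nat_lit 30365544), (nat_lit 20402210), (nat_lit 13167684)] (nat_lit 17259719)) p12_22_0 (nat_lit 3) (nat_lit 99) (nat_lit 100) = true := by decide +kernel
def p12_22_0_100 : pfC (piC [(nat_lit 30365544), (nat_lit 20402210), (nat_lit 13167684)] (nat_lit 17259719)) p12_22_0 (nat_lit 3) (nat_lit 100) (nat_lit 101) = true := by decide +kernel
def p12_22_0_101 : pfC (piC [(nat_lit 30365544), (nat_lit 20402210), (nat_lit 13167684)] (nat_lit 17259719)) p12_22_0 (nat_lit 3) (nat_lit 101) (nat_lit 102) = true := by decide +kernel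
def p12_22_0_102 : pfC (piC [(nat_lit 30365544), (nat_lit 20402210), (nat_lit 13167684)] (nat_lit 17259719)) p12_22_0 (nat_lit 3) (nat_lit 102) (nat_lit 103) = true := by decide +kernel
def p12_22_0_103 : pfC (piC [(nat_lit 30365544), (nat_lit 20402210), (nat_lit 13167684)] (nat_lit 17259719)) p12_22_0 (nat_lit 3) (nat_lit 103) (nat_lit 104) = true := by decide +kernel
def p12_22_0_104 : pfC (piC [(nat_lit 30365544), (nat_lit 20402210), (nat_lit 13167684)] (nat_lit 17259719)) p12_22_0 (nat_lit 3) (nat_lit 104) (nat_lit 105) = true := by decide +kernel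
def p12_22_0_105 : pfC (piC [(nat_lit 30365544), (nat_lit 20402210), (nat_lit 13167684)] (nat_lit 17259719)) p12_22_0 (nat_lit 3) (nat_lit 105) (nat_lit 106) = true := by decide +kernel
def p12_22_0_106 : pfC (piC [(nat_lit 30365544), (nat_lit 20402210), (nat_lit 13167684)] (nat_lit 17259719)) p12_22_0 (nat_lit 3) (nat_lit 106) (nat_lit 107) = true := by decide +kernel
def p12_22_0_107 : pfC (piC [(nat_lit 30365544), (nat_lit 20402210), (nat_lit 13167684)] (nat_lit 17259719)) p12_22_0 (nat_lit 3) (nat_lit 107) (nat_lit 108) = true := by decide +kernel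
def p12_22_0_108 : pfC (piC [(nat_lit 30365544), (nat_lit 20402210), (nat_lit 13167684)] (nat_lit 17259719)) p12_22_0 (nat_lit 3) (nat_lit 108) (nat_lit 109) = true := by decide +kernel
def p12_22_0_109 : pfC (piC [(nat_lit 30365544), (nat_lit 20402210), (nat_lit 13167684)] (nat_lit 17259719)) p12_22_0 (nat_lit 3) (nat_lit 109) (nat_lit 110) = true := by decide +kernel
def p12_22_0_110 : pfC (piC [(nat_lit 30365544), (nat_lit 20402210), (nat_lit 13167684)] (nat_lit 17259719)) p12_22_0 (nat_lit 3) (nat_lit 110) (nat_lit 111) = true := by decide +kernel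
def p12_22_0_111 : pfC (piC [(nat_lit 30365544), (nat_lit 20402210), (nat_lit 13167684)] (nat_lit 17259719)) p12_22_0 (nat_lit 3) (nat_lit 111) (nat_lit 112) = true := by decide +kernel
def p12_22_0_112 : pfC (piC [(nat_lit 30365544), (nat_lit 20402210), (nat_lit 13167684)] (nat_lit 17259719)) p12_22_0 (nat_lit 3) (nat_lit 112) (nat_lit 113) = true := by decide +kernel
def p12_22_0_113 : pfC (piC [(nat_lit 30365544), (nat_lit 20402210), (nat_lit 13167684)] (nat_lit 17259719)) p12_22_0 (nat_lit 3) (nat_lit 113) (nat_lit 114) = true := by decide +kernel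
def p12_22_0_114 : pfC (piC [(nat_lit 30365544), (nat_lit 20402210), (nat_lit 13167684)] (nat_lit 17259719)) p12_22_0 (nat_lit 3) (nat_lit 114) (nat_lit 115) = true := by decide +kernel
def p12_22_0_115 : pfC (piC [(nat_lit 30365544), (nat_lit 20402210), (nat_lit 13167684)] (nat_lit 17259719)) p12_22_0 (nat_lit 3) (nat_lit 115) (nat_lit 116) = true := by decide +kernel
def p12_22_0_116 : pfC (piC [(nat_lit 30365544), (nat_lit 20402210), (nat_lit 13167684)] (nat_lit 17259719)) p12_22_0 (nat_lit 3) (nat_lit 116) (nat_lit 117) = true := by decide +kernel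
def p12_22_0_117 : pfC (piC [(nat_lit 30365544), (nat_lit 20402210), (nat_lit 13167684)] (nat_lit 17259719)) p12_22_0 (nat_lit 3) (nat_lit 117) (nat_lit 118) = true := by decide +kernel
def p12_22_0_118 : pfC (piC [(nat_lit 30365544), (nat_lit 20402210), (nat_lit 13167684)] (nat_lit 17259719)) p12_22_0 (nat_lit 3) (nat_lit 118) (nat_lit 119) = true := by decide +kernel
def p12_22_0_119 : pfC (piC [(nat_lit 30365544), (nat_lit 20402210), (nat_lit 13167684)] (nat_lit 17259719)) p12_22_0 (nat_lit 3) (nat_lit 119) (nat_lit 120) = true := by decide +kernel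
def p12_22_0_120 : pfC (piC [(nat_lit 30365544), (nat_lit 20402210), (nat_lit 13167684)] (nat_lit 17259719)) p12_22_0 (nat_lit 3) (nat_lit 120) (nat_lit 121) = true := by decide +kernel
def p12_22_0_121 : pfC (piC [(nat_lit 30365544), (nat_lit 20402210), (nat_lit 13167684)] (nat_lit 17259719)) p12_22_0 (nat_lit 3) (nat_lit 121) (nat_lit 122) = true := by decide +kernel
def p12_22_0_122 : pfC (piC [(nat_lit 30365544), (nat_lit 20402210), (nat_lit 13167684)] (nat_lit 17259719)) p12_22_0 (nat_lit 3) (nat_lit 122) (nat_lit 123) = true := by decide +kernel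
def p12_22_0_123 : pfC (piC [(nat_lit 30365544), (nat_lit 20402210), (nat_lit 13167684)] (nat_lit 17259719)) p12_22_0 (nat_lit 3) (nat_lit 123) (nat_lit 124) = true := by decide +kernel
def p12_22_0_124 : pfC (piC [(nat_lit 30365544), (nat_lit 20402210), (nat_lit 13167684)] (nat_lit 17259719)) p12_22_0 (nat_lit 3) (nat_lit 124) (nat_lit 125) = true := by decide +kernel
def p12_22_0_125 : pfC (piC [(nat_lit 30365544), (nat_lit 20402210), (nat_lit 13167684)] (nat_lit 17259719)) p12_22_0 (nat_lit 3) (nat_lit 125) (nat_lit 126) = true := by decide +kernel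
def p12_22_0_126 : pfC (piC [(nat_lit 30365544), (nat_lit 20402210), (nat_lit 13167684)] (nat_lit 17259719)) p12_22_0 (nat_lit 3) (nat_lit 126) (nat_lit 127) = true := by decide +kernel
def p12_22_0_127 : pfC (piC [(nat_lit 30365544), (nat_lit 20402210), (nat_lit 13167684)] (nat_lit 17259719)) p12_22_0 (nat_lit 3) (nat_lit 127) (nat_lit 128) = true := by decide +kernel
def p12_22_0_128 : pfC (piC [(nat_lit 30365544), (nat_lit 20402210), (nat_lit 13167684)] (nat_lit 17259719)) p12_22_0 (nat_lit 3) (nat_lit 128) (nat_lit 129) = true := by decide +kernel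
def p12_22_0_129 : pfC (piC [(nat_lit 30365544), (nat_lit 20402210), (nat_lit 13167684)] (nat_lit 17259719)) p12_22_0 (nat_lit 3) (nat_lit 129) (nat_lit 130) = true := by decide +kernel
def p12_22_0_130 : pfC (piC [(nat_lit 30365544), (nat_lit 20402210), (nat_lit 13167684)] (nat_lit 17259719)) p12_22_0 (nat_lit 3) (nat_lit 130) (nat_lit 131) = true := by decide +kernel
def p12_22_0_131 : pfC (piC [(nat_lit 30365544), (nat_lit 20402210), (nat_lit 13167684)] (nat_lit 17259719)) p12_22_0 (nat_lit 3) (nat_lit 131) (nat_lit 132) = true := by decide +kernel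
def p12_22_0_132 : pfC (piC [(nat_lit 30365544), (nat_lit 20402210), (nat_lit 13167684)] (nat_lit 17259719)) p12_22_0 (nat_lit 3) (nat_lit 132) (nat_lit 133) = true := by decide +kernel
def p12_22_0_133 : pfC (piC [(nat_lit 30365544), (nat_lit 20402210), (nat_lit 13167684)] (nat_lit 17259719)) p12_22_0 (nat_lit 3) (nat_lit 133) (nat_lit 134) = true := by decide +kernel
def p12_22_0_134 : pfC (piC [(nat_lit 30365544), (nat_lit 20402210), (nat_lit 13167684)] (nat_lit 17259719)) p12_22_0 (nat_lit 3) (nat_lit 134) (nat_lit 135) = true := by decide +kernel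
def p12_22_0_135 : pfC (piC [(nat_lit 30365544), (nat_lit 20402210), (nat_lit 13167684)] (nat_lit 17259719)) p12_22_0 (nat_lit 3) (nat_lit 135) (nat_lit 136) = true := by decide +kernel
def p12_22_0_136 : pfC (piC [(nat_lit 30365544), (nat_lit 20402210), (nat_lit 13167684)] (nat_lit 17259719)) p12_22_0 (nat_lit 3) (nat_lit 136) (nat_lit 137) = true := by decide +kernel
def p12_22_0_137 : pfC (piC [(nat_lit 30365544), (nat_lit 20402210), (nat_lit 13167684)] (nat_lit 17259719)) p12_22_0 (nat_lit 3) (nat_lit 137) (nat_lit 138) = true := by decide +kernel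
def p12_22_0_138 : pfC (piC [(nat_lit 30365544), (nat_lit 20402210), (nat_lit 13167684)] (nat_lit 17259719)) p12_22_0 (nat_lit 3) (nat_lit 138) (nat_lit 139) = true := by decide +kernel
def p12_22_0_139 : pfC (piC [(nat_lit 30365544), (nat_lit 20402210), (nat_lit 13167684)] (nat_lit 17259719)) p12_22_0 (nat_lit 3) (nat_lit 139) (nat_lit 140) = true := by decide +kernel
def p12_22_0_140 : pfC (piC [(nat_lit 30365544), (nat_lit 20402210), (nat_lit 13167684)] (nat_lit 17259719)) p12_22_0 (nat_lit 3) (nat_lit 140) (nat_lit 141) = true := by decide +kernel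
def p12_22_0_141 : pfC (piC [(nat_lit 30365544), (nat_lit 20402210), (nat_lit 13167684)] (nat_lit 17259719)) p12_22_0 (nat_lit 3) (nat_lit 141) (nat_lit 142) = true := by decide +kernel
def p12_22_0_142 : pfC (piC [(nat_lit 30365544), (nat_lit 20402210), (nat_lit 13167684)] (nat_lit 17259719)) p12_22_0 (nat_lit 3) (nat_lit 142) (nat_lit 143) = true := by decide +kernel
def p12_22_0_143 : pfC (piC [(nat_lit 30365544), (nat_lit 20402210), (nat_lit 13167684)] (nat_lit 17259719)) p12_22_0 (nat_lit 3) (nat_lit 143) (nat_lit 144) = true := by decide +kernel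
def p12_22_0_144 : pfC (piC [(nat_lit 30365544), (nat_lit 20402210), (nat_lit 13167684)] (nat_lit 17259719)) p12_22_0 (nat_lit 3) (nat_lit 144) (nat_lit 145) = true := by decide +kernel
def p12_22_0_145 : pfC (piC [(nat_lit 30365544), (nat_lit 20402210), (nat_lit 13167684)] (nat_lit 17259719)) p12_22_0 (nat_lit 3) (nat_lit 145) (nat_lit 146) = true := by decide +kernel
def p12_22_0_146 : pfC (piC [(nat_lit 30365544), (nat_lit 20402210), (nat_lit 13167684)] (nat_lit 17259719)) p12_22_0 (nat_lit 3) (nat_lit 146) (nat_lit 147) = true := by decide +kernel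
def p12_22_0_147 : pfC (piC [(nat_lit 30365544), (nat_lit 20402210), (nat_lit 13167684)] (nat_lit 17259719)) p12_22_0 (nat_lit 3) (nat_lit 147) (nat_lit 148) = true := by decide +kernel
def p12_22_0_148 : pfC (piC [(nat_lit 30365544), (nat_lit 20402210), (nat_lit 13167684)] (nat_lit 17259719)) p12_22_0 (nat_lit 3) (nat_lit 148) (nat_lit 149) = true := by decide +kernel
def p12_22_0_149 : pfC (piC [(nat_lit 30365544), (nat_lit 20402210), (nat_lit 13167684)] (nat_lit 17259719)) p12_22_0 (nat_lit 3) (nat_lit 149) (nat_lit 150) = true := by decide +kernel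
def p12_22_0_150 : pfC (piC [(nat_lit 30365544), (nat_lit 20402210), (nat_lit 13167684)] (nat_lit 17259719)) p12_22_0 (nat_lit 3) (nat_lit 150) (nat_lit 151) = true := by decide +kernel
def p12_22_0_151 : pfC (piC [(nat_lit 30365544), (nat_lit 20402210), (nat_lit 13167684)] (nat_lit 17259719)) p12_22_0 (nat_lit 3) (nat_lit 151) (nat_lit 152) = true := by decide +kernel
def p12_22_0_152 : pfC (piC [(nat_lit 30365544), (nat_lit 20402210), (nat_lit 13167684)] (nat_lit 17259719)) p12_22_0 (nat_lit 3) (nat_lit 152) (nat_lit 153) = true := by decide +kernel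
def p12_22_0_153 : pfC (piC [(nat_lit 30365544), (nat_lit 20402210), (nat_lit 13167684)] (nat_lit 17259719)) p12_22_0 (nat_lit 3) (nat_lit 153) (nat_lit 154) = true := by decide +kernel
def p12_22_0_154 : pfC (piC [(nat_lit 30365544), (nat_lit 20402210), (nat_lit 13167684)] (nat_lit 17259719)) p12_22_0 (nat_lit 3) (nat_lit 154) (nat_lit 155) = true := by decide +kernel
def p12_22_0_155 : pfC (piC [(nat_lit 30365544), (nat_lit 20402210), (nat_lit 13167684)] (nat_lit 17259719)) p12_22_0 (nat_lit 3) (nat_lit 155) (nat_lit 156) = true := by decide +kernel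
def p12_22_0_156 : pfC (piC [(nat_lit 30365544), (nat_lit 20402210), (nat_lit 13167684)] (nat_lit 17259719)) p12_22_0 (nat_lit 3) (nat_lit 156) (nat_lit 157) = true := by decide +kernel
def p12_22_0_157 : pfC (piC [(nat_lit 30365544), (nat_lit 20402210), (nat_lit 13167684)] (nat_lit 17259719)) p12_22_0 (nat_lit 3) (nat_lit 157) (nat_lit 158) = true := by decide +kernel
def p12_22_0_158 : pfC (piC [(nat_lit 30365544), (nat_lit 20402210), (nat_lit 13167684)] (nat_lit 17259719)) p12_22_0 (nat_lit 3) (nat_lit 158) (nat_lit 159) = true := by decide +kernel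
def p12_22_0_159 : pfC (piC [(nat_lit 30365544), (nat_lit 20402210), (nat_lit 13167684)] (nat_lit 17259719)) p12_22_0 (nat_lit 3) (nat_lit 159) (nat_lit 160) = true := by decide +kernel
def p12_22_0_160 : pfC (piC [(nat_lit 30365544), (nat_lit 20402210), (nat_lit 13167684)] (nat_lit 17259719)) p12_22_0 (nat_lit 3) (nat_lit 160) (nat_lit 161) = true := by decide +kernel
def p12_22_0_161 : pfC (piC [(nat_lit 30365544), (nat_lit 20402210), (nat_lit 13167684)] (nat_lit 17259719)) p12_22_0 (nat_lit 3) (nat_lit 161) (nat_lit 162) = true := by decide +kernel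
def p12_22_0_162 : pfC (piC [(nat_lit 30365544), (nat_lit 20402210), (nat_lit 13167684)] (nat_lit 17259719)) p12_22_0 (nat_lit 3) (nat_lit 162) (nat_lit 163) = true := by decide +kernel
def p12_22_0_163 : pfC (piC [(nat_lit 30365544), (nat_lit 20402210), (nat_lit 13167684)] (nat_lit 17259719)) p12_22_0 (nat_lit 3) (nat_lit 163) (nat_lit 164) = true := by decide +kernel
def p12_22_0_164 : pfC (piC [(nat_lit 30365544), (nat_lit 20402210), (nat_lit 13167684)] (nat_lit 17259719)) p12_22_0 (nat_lit 3) (nat_lit 164) (nat_lit 165) = true := by decide +kernel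
def p12_22_0_165 : pfC (piC [(nat_lit 30365544), (nat_lit 20402210), (nat_lit 13167684)] (nat_lit 17259719)) p12_22_0 (nat_lit 3) (nat_lit 165) (nat_lit 166) = true := by decide +kernel
def p12_22_0_166 : pfC (piC [(nat_lit 30365544), (nat_lit 20402210), (nat_lit 13167684)] (nat_lit 17259719)) p12_22_0 (nat_lit 3) (nat_lit 166) (nat_lit 167) = true := by decide +kernel
def p12_22_0_167 : pfC (piC [(nat_lit 30365544), (nat_lit 20402210), (nat_lit 13167684)] (nat_lit 17259719)) p12_22_0 (nat_lit 3) (nat_lit 167) (nat_lit 168) = true := by decide +kernel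
def p12_22_0_168 : pfC (piC [(nat_lit 30365544), (nat_lit 20402210), (nat_lit 13167684)] (nat_lit 17259719)) p12_22_0 (nat_lit 3) (nat_lit 168) (nat_lit 169) = true := by decide +kernel
def p12_22_0_169 : pfC (piC [(nat_lit 30365544), (nat_lit 20402210), (nat_lit 13167684)] (nat_lit 17259719)) p12_22_0 (nat_lit 3) (nat_lit 169) (nat_lit 170) = true := by decide +kernel
def p12_22_0_170 : pfC (piC [(nat_lit 30365544), (nat_lit 20402210), (nat_lit 13167684)] (nat_lit 17259719)) p12_22_0 (nat_lit 3) (nat_lit 170) (nat_lit 171) = true := by decide +kernel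
def p12_22_0_171 : pfC (piC [(nat_lit 30365544), (nat_lit 20402210), (nat_lit 13167684)] (nat_lit 17259719)) p12_22_0 (nat_lit 3) (nat_lit 171) (nat_lit 172) = true := by decide +kernel
def p12_22_0_172 : pfC (piC [(nat_lit 30365544), (nat_lit 20402210), (nat_lit 13167684)] (nat_lit 17259719)) p12_22_0 (nat_lit 3) (nat_lit 172) (nat_lit 173) = true := by decide +kernel
def p12_22_0_173 : pfC (piC [(nat_lit 30365544), (nat_lit 20402210), (nat_lit 13167684)] (nat_lit 17259719)) p12_22_0 (nat_lit 3) (nat_lit 173) (nat_lit 174) = true := by decide +kernel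
def p12_22_0_174 : pfC (piC [(nat_lit 30365544), (nat_lit 20402210), (nat_lit 13167684)] (nat_lit 17259719)) p12_22_0 (nat_lit 3) (nat_lit 174) (nat_lit 175) = true := by decide +kernel
def p12_22_0_175 : pfC (piC [(nat_lit 30365544), (nat_lit 20402210), (nat_lit 13167684)] (nat_lit 17259719)) p12_22_0 (nat_lit 3) (nat_lit 175) (nat_lit 176) = true := by decide +kernel
def p12_22_0_176 : pfC (piC [(nat_lit 30365544), (nat_lit 20402210), (nat_lit 13167684)] (nat_lit 17259719)) p12_22_0 (nat_lit 3) (nat_lit 176) (nat_lit 177) = true := by decide +kernel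
def p12_22_0_177 : pfC (piC [(nat_lit 30365544), (nat_lit 20402210), (nat_lit 13167684)] (nat_lit 17259719)) p12_22_0 (nat_lit 3) (nat_lit 177) (nat_lit 178) = true := by decide +kernel
def p12_22_0_178 : pfC (piC [(nat_lit 30365544), (nat_lit 20402210), (nat_lit 13167684)] (nat_lit 17259719)) p12_22_0 (nat_lit 3) (nat_lit 178) (nat_lit 179) = true := by decide +kernel
def p12_22_0_179 : pfC (piC [(nat_lit 30365544), (nat_lit 20402210), (nat_lit 13167684)] (nat_lit 17259719)) p12_22_0 (nat_lit 3) (nat_lit 179) (nat_lit 180) = true := by decide +kernel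
def p12_22_0_180 : pfC (piC [(nat_lit 30365544), (nat_lit 20402210), (nat_lit 13167684)] (nat_lit 17259719)) p12_22_0 (nat_lit 3) (nat_lit 180) (nat_lit 181) = true := by decide +kernel
def p12_22_0_181 : pfC (piC [(nat_lit 30365544), (nat_lit 20402210), (nat_lit 13167684)] (nat_lit 17259719)) p12_22_0 (nat_lit 3) (nat_lit 181) (nat_lit 182) = true := by decide +kernel
def p12_22_0_182 : pfC (piC [(nat_lit 30365544), (nat_lit 20402210), (nat_lit 13167684)] (nat_lit 17259719)) p12_22_0 (nat_lit 3) (nat_lit 182) (nat_lit 183) = true := by decide +kernel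
def p12_22_0_183 : pfC (piC [(nat_lit 30365544), (nat_lit 20402210), (nat_lit 13167684)] (nat_lit 17259719)) p12_22_0 (nat_lit 3) (nat_lit 183) (nat_lit 184) = true := by decide +kernel
def p12_22_0_184 : pfC (piC [(nat_lit 30365544), (nat_lit 20402210), (nat_lit 13167684)] (nat_lit 17259719)) p12_22_0 (nat_lit 3) (nat_lit 184) (nat_lit 185) = true := by decide +kernel
def p12_22_0_185 : pfC (piC [(nat_lit 30365544), (nat_lit 20402210), (nat_lit 13167684)] (nat_lit 17259719)) p12_22_0 (nat_lit 3) (nat_lit 185) (nat_lit 186) = true := by decide +kernel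
def p12_22_0_186 : pfC (piC [(nat_lit 30365544), (nat_lit 20402210), (nat_lit 13167684)] (nat_lit 17259719)) p12_22_0 (nat_lit 3) (nat_lit 186) (nat_lit 187) = true := by decide +kernel
def p12_22_0_187 : pfC (piC [(nat_lit 30365544), (nat_lit 20402210), (nat_lit 13167684)] (nat_lit 17259719)) p12_22_0 (nat_lit 3) (nat_lit 187) (nat_lit 188) = true := by decide +kernel
def p12_22_0_188 : pfC (piC [(nat_lit 30365544), (nat_lit 20402210), (nat_lit 13167684)] (nat_lit 17259719)) p12_22_0 (nat_lit 3) (nat_lit 188) (nat_lit 189) = true := by decide +kernel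
def p12_22_0_189 : pfC (piC [(nat_lit 30365544), (nat_lit 20402210), (nat_lit 13167684)] (nat_lit 17259719)) p12_22_0 (nat_lit 3) (nat_lit 189) (nat_lit 190) = true := by decide +kernel
def p12_22_0_190 : pfC (piC [(nat_lit 30365544), (nat_lit 20402210), (nat_lit 13167684)] (nat_lit 17259719)) p12_22_0 (nat_lit 3) (nat_lit 190) (nat_lit 191) = true := by decide +kernel
def p12_22_0_191 : pfC (piC [(nat_lit 30365544), (nat_lit 20402210), (nat_lit 13167684)] (nat_lit 17259719)) p12_22_0 (nat_lit 3) (nat_lit 191) (nat_lit 192) = true := by decide +kernel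
def p12_22_0_192 : pfC (piC [(nat_lit 30365544), (nat_lit 20402210), (nat_lit 13167684)] (nat_lit 17259719)) p12_22_0 (nat_lit 3) (nat_lit 192) (nat_lit 193) = true := by decide +kernel
def p12_22_0_193 : pfC (piC [(nat_lit 30365544), (nat_lit 20402210), (nat_lit 13167684)] (nat_lit 17259719)) p12_22_0 (nat_lit 3) (nat_lit 193) (nat_lit 194) = true := by decide +kernel
def p12_22_0_194 : pfC (piC [(nat_lit 30365544), (nat_lit 20402210), (nat_lit 13167684)] (nat_lit 17259719)) p12_22_0 (nat_lit 3) (nat_lit 194) (nat_lit 195) = true := by decide +kernel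
def p12_22_0_195 : pfC (piC [(nat_lit 30365544), (nat_lit 20402210), (nat_lit 13167684)] (nat_lit 17259719)) p12_22_0 (nat_lit 3) (nat_lit 195) (nat_lit 196) = true := by decide +kernel
def p12_22_0_196 : pfC (piC [(nat_lit 30365544), (nat_lit 20402210), (nat_lit 13167684)] (nat_lit 17259719)) p12_22_0 (nat_lit 3) (nat_lit 196) (nat_lit 197) = true := by decide +kernel
def p12_22_0_197 : pfC (piC [(nat_lit 30365544), (nat_lit 20402210), (nat_lit 13167684)] (nat_lit 17259719)) p12_22_0 (nat_lit 3) (nat_lit 197) (nat_lit 198) = true := by decide +kernel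
def p12_22_0_198 : pfC (piC [(nat_lit 30365544), (nat_lit 20402210), (nat_lit 13167684)] (nat_lit 17259719)) p12_22_0 (nat_lit 3) (nat_lit 198) (nat_lit 199) = true := by decide +kernel
def p12_22_0_199 : pfC (piC [(nat_lit 30365544), (nat_lit 20402210), (nat_lit 13167684)] (nat_lit 17259719)) p12_22_0 (nat_lit 3) (nat_lit 199) (nat_lit 200) = true := by decide +kernel
def p12_22_0_200 : pfC (piC [(nat_lit 30365544), (nat_lit 20402210), (nat_lit 13167684)] (nat_lit 17259719)) p12_22_0 (nat_lit 3) (nat_lit 200) (nat_lit 201) = true := by decide +kernel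
def p12_22_0_201 : pfC (piC [(nat_lit 30365544), (nat_lit 20402210), (nat_lit 13167684)] (nat_lit 17259719)) p12_22_0 (nat_lit 3) (nat_lit 201) (nat_lit 202) = true := by decide +kernel
def p12_22_0_202 : pfC (piC [(nat_lit 30365544), (nat_lit 20402210), (nat_lit 13167684)] (nat_lit 17259719)) p12_22_0 (nat_lit 3) (nat_lit 202) (nat_lit 203) = true := by decide +kernel
def p12_22_0_203 : pfC (piC [(nat_lit 30365544), (nat_lit 20402210), (nat_lit 13167684)] (nat_lit 17259719)) p12_22_0 (nat_lit 3) (nat_lit 203) (nat_lit 204) = true := by decide +kernel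
def p12_22_0_204 : pfC (piC [(nat_lit 30365544), (nat_lit 20402210), (nat_lit 13167684)] (nat_lit 17259719)) p12_22_0 (nat_lit 3) (nat_lit 204) (nat_lit 205) = true := by decide +kernel
def p12_22_0_205 : pfC (piC [(nat_lit 30365544), (nat_lit 20402210), (nat_lit 13167684)] (nat_lit 17259719)) p12_22_0 (nat_lit 3) (nat_lit 205) (nat_lit 206) = true := by decide +kernel
def p12_22_0_206 : pfC (piC [(nat_lit 30365544), (nat_lit 20402210), (nat_lit 13167684)] (nat_lit 17259719)) p12_22_0 (nat_lit 3) (nat_lit 206) (nat_lit 207) = true := by decide +kernel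
def p12_22_0_207 : pfC (piC [(nat_lit 30365544), (nat_lit 20402210), (nat_lit 13167684)] (nat_lit 17259719)) p12_22_0 (nat_lit 3) (nat_lit 207) (nat_lit 208) = true := by decide +kernel
def p12_22_0_208 : pfC (piC [(nat_lit 30365544), (nat_lit 20402210), (nat_lit 13167684)] (nat_lit 17259719)) p12_22_0 (nat_lit 3) (nat_lit 208) (nat_lit 209) = true := by decide +kernel
def p12_22_0_209 : pfC (piC [(nat_lit 30365544), (nat_lit 20402210), (nat_lit 13167684)] (nat_lit 17259719)) p12_22_0 (nat_lit 3) (nat_lit 209) (nat_lit 210) = true := by decide +kernel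
def p12_22_0_210 : pfC (piC [(nat_lit 30365544), (nat_lit 20402210), (nat_lit 13167684)] (nat_lit 17259719)) p12_22_0 (nat_lit 3) (nat_lit 210) (nat_lit 211) = true := by decide +kernel
def p12_22_0_211 : pfC (piC [(nat_lit 30365544), (nat_lit 20402210), (nat_lit 13167684)] (nat_lit 17259719)) p12_22_0 (nat_lit 3) (nat_lit 211) (nat_lit 212) = true := by decide +kernel
def p12_22_0_212 : pfC (piC [(nat_lit 30365544), (nat_lit 20402210), (nat_lit 13167684)] (nat_lit 17259719)) p12_22_0 (nat_lit 3) (nat_lit 212) (nat_lit 213) = true := by decide +kernel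
def p12_22_0_213 : pfC (piC [(nat_lit 30365544), (nat_lit 20402210), (nat_lit 13167684)] (nat_lit 17259719)) p12_22_0 (nat_lit 3) (nat_lit 213) (nat_lit 214) = true := by decide +kernel
def p12_22_0_214 : pfC (piC [(nat_lit 30365544), (nat_lit 20402210), (nat_lit 13167684)] (nat_lit 17259719)) p12_22_0 (nat_lit 3) (nat_lit 214) (nat_lit 215) = true := by decide +kernel
def p12_22_0_215 : pfC (piC [(nat_lit 30365544), (nat_lit 20402210), (nat_lit 13167684)] (nat_lit 17259719)) p12_22_0 (nat_lit 3) (nat_lit 215) (nat_lit 216) = true := by decide +kernel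
def p12_22_0_216 : pfC (piC [(nat_lit 30365544), (nat_lit 20402210), (nat_lit 13167684)] (nat_lit 17259719)) p12_22_0 (nat_lit 3) (nat_lit 216) (nat_lit 217) = true := by decide +kernel
def p12_22_0_217 : pfC (piC [(nat_lit 30365544), (nat_lit 20402210), (nat_lit 13167684)] (nat_lit 17259719)) p12_22_0 (nat_lit 3) (nat_lit 217) (nat_lit 218) = true := by decide +kernel
def p12_22_0_218 : pfC (piC [(nat_lit 30365544), (nat_lit 20402210), (nat_lit 13167684)] (nat_lit 17259719)) p12_22_0 (nat_lit 3) (nat_lit 218) (nat_lit 219) = true := by decide +kernel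
def p12_22_0_219 : pfC (piC [(nat_lit 30365544), (nat_lit 20402210), (nat_lit 13167684)] (nat_lit 17259719)) p12_22_0 (nat_lit 3) (nat_lit 219) (nat_lit 220) = true := by decide +kernel
def p12_22_0_220 : pfC (piC [(nat_lit 30365544), (nat_lit 20402210), (nat_lit 13167684)] (nat_lit 17259719)) p12_22_0 (nat_lit 3) (nat_lit 220) (nat_lit 221) = true := by decide +kernel
def p12_22_0_221 : pfC (piC [(nat_lit 30365544), (nat_lit 20402210), (nat_lit 13167684)] (nat_lit 17259719)) p12_22_0 (nat_lit 3) (nat_lit 221) (nat_lit 222) = true := by decide +kernel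
def p12_22_0_222 : pfC (piC [(nat_lit 30365544), (nat_lit 20402210), (nat_lit 13167684)] (nat_lit 17259719)) p12_22_0 (nat_lit 3) (nat_lit 222) (nat_lit 223) = true := by decide +kernel
def p12_22_0_223 : pfC (piC [(nat_lit 30365544), (nat_lit 20402210), (nat_lit 13167684)] (nat_lit 17259719)) p12_22_0 (nat_lit 3) (nat_lit 223) (nat_lit 224) = true := by decide +kernel
def p12_22_0_224 : pfC (piC [(nat_lit 30365544), (nat_lit 20402210), (nat_lit 13167684)] (nat_lit 17259719)) p12_22_0 (nat_lit 3) (nat_lit 224) (nat_lit 225) = true := by decide +kernel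
def p12_22_0_225 : pfC (piC [(nat_lit 30365544), (nat_lit 20402210), (nat_lit 13167684)] (nat_lit 17259719)) p12_22_0 (nat_lit 3) (nat_lit 225) (nat_lit 226) = true := by decide +kernel
def p12_22_0_226 : pfC (piC [(nat_lit 30365544), (nat_lit 20402210), (nat_lit 13167684)] (nat_lit 17259719)) p12_22_0 (nat_lit 3) (nat_lit 226) (nat_lit 227) = true := by decide +kernel
def p12_22_0_227 : pfC (piC [(nat_lit 30365544), (nat_lit 20402210), (nat_lit 13167684)] (nat_lit 17259719)) p12_22_0 (nat_lit 3) (nat_lit 227) (nat_lit 228) = true := by decide +kernel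
def p12_22_0_228 : pfC (piC [(nat_lit 30365544), (nat_lit 20402210), (nat_lit 13167684)] (nat_lit 17259719)) p12_22_0 (nat_lit 3) (nat_lit 228) (nat_lit 229) = true := by decide +kernel
def p12_22_0_229 : pfC (piC [(nat_lit 30365544), (nat_lit 20402210), (nat_lit 13167684)] (nat_lit 17259719)) p12_22_0 (nat_lit 3) (nat_lit 229) (nat_lit 230) = true := by decide +kernel
def p12_22_0_230 : pfC (piC [(nat_lit 30365544), (nat_lit 20402210), (nat_lit 13167684)] (nat_lit 17259719)) p12_22_0 (nat_lit 3) (nat_lit 230) (nat_lit 231) = true := by decide +kernel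
def p12_22_0_231 : pfC (piC [(nat_lit 30365544), (nat_lit 20402210), (nat_lit 13167684)] (nat_lit 17259719)) p12_22_0 (nat_lit 3) (nat_lit 231) (nat_lit 232) = true := by decide +kernel
def p12_22_0_232 : pfC (piC [(nat_lit 30365544), (nat_lit 20402210), (nat_lit 13167684)] (nat_lit 17259719)) p12_22_0 (nat_lit 3) (nat_lit 232) (nat_lit 233) = true := by decide +kernel
def p12_22_0_233 : pfC (piC [(nat_lit 30365544), (nat_lit 20402210), (nat_lit 13167684)] (nat_lit 17259719)) p12_22_0 (nat_lit 3) (nat_lit 233) (nat_lit 234) = true := by decide +kernel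
def p12_22_0_234 : pfC (piC [(nat_lit 30365544), (nat_lit 20402210), (nat_lit 13167684)] (nat_lit 17259719)) p12_22_0 (nat_lit 3) (nat_lit 234) (nat_lit 235) = true := by decide +kernel
def p12_22_0_235 : pfC (piC [(nat_lit 30365544), (nat_lit 20402210), (nat_lit 13167684)] (nat_lit 17259719)) p12_22_0 (nat_lit 3) (nat_lit 235) (nat_lit 236) = true := by decide +kernel
def p12_22_0_236 : pfC (piC [(nat_lit 30365544), (nat_lit 20402210), (nat_lit 13167684)] (nat_lit 17259719)) p12_22_0 (nat_lit 3) (nat_lit 236) (nat_lit 237) = true := by decide +kernel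
def p12_22_0_237 : pfC (piC [(nat_lit 30365544), (nat_lit 20402210), (nat_lit 13167684)] (nat_lit 17259719)) p12_22_0 (nat_lit 3) (nat_lit 237) (nat_lit 238) = true := by decide +kernel
def p12_22_0_238 : pfC (piC [(nat_lit 30365544), (nat_lit 20402210), (nat_lit 13167684)] (nat_lit 17259719)) p12_22_0 (nat_lit 3) (nat_lit 238) (nat_lit 239) = true := by decide +kernel
def p12_22_0_239 : pfC (piC [(nat_lit 30365544), (nat_lit 20402210), (nat_lit 13167684)] (nat_lit 17259719)) p12_22_0 (nat_lit 3) (nat_lit 239) (nat_lit 240) = true := by decide +kernel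
def p12_22_0_240 : pfC (piC [(nat_lit 30365544), (nat_lit 20402210), (nat_lit 13167684)] (nat_lit 17259719)) p12_22_0 (nat_lit 3) (nat_lit 240) (nat_lit 241) = true := by decide +kernel
def p12_22_0_241 : pfC (piC [(nat_lit 30365544), (nat_lit 20402210), (nat_lit 13167684)] (nat_lit 17259719)) p12_22_0 (nat_lit 3) (nat_lit 241) (nat_lit 242) = true := by decide +kernel
def p12_22_0_242 : pfC (piC [(nat_lit 30365544), (nat_lit 20402210), (nat_lit 13167684)] (nat_lit 17259719)) p12_22_0 (nat_lit 3) (nat_lit 242) (nat_lit 243) = true := by decide +kernel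
def p12_22_0_243 : pfC (piC [(nat_lit 30365544), (nat_lit 20402210), (nat_lit 13167684)] (nat_lit 17259719)) p12_22_0 (nat_lit 3) (nat_lit 243) (nat_lit 244) = true := by decide +kernel
def p12_22_0_244 : pfC (piC [(nat_lit 30365544), (nat_lit 20402210), (nat_lit 13167684)] (nat_lit 17259719)) p12_22_0 (nat_lit 3) (nat_lit 244) (nat_lit 245) = true := by decide +kernel
def p12_22_0_245 : pfC (piC [(nat_lit 30365544), (nat_lit 20402210), (nat_lit 13167684)] (nat_lit 17259719)) p12_22_0 (nat_lit 3) (nat_lit 245) (nat_lit 246) = true := by decide +kernel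
def p12_22_0_246 : pfC (piC [(nat_lit 30365544), (nat_lit 20402210), (nat_lit 13167684)] (nat_lit 17259719)) p12_22_0 (nat_lit 3) (nat_lit 246) (nat_lit 247) = true := by decide +kernel
def p12_22_0_247 : pfC (piC [(nat_lit 30365544), (nat_lit 20402210), (nat_lit 13167684)] (nat_lit 17259719)) p12_22_0 (nat_lit 3) (nat_lit 247) (nat_lit 248) = true := by decide +kernel
def p12_22_0_248 : pfC (piC [(nat_lit 30365544), (nat_lit 20402210), (nat_lit 13167684)] (nat_lit 17259719)) p12_22_0 (nat_lit 3) (nat_lit 248) (nat_lit 249) = true := by decide +kernel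
def p12_22_0_249 : pfC (piC [(nat_lit 30365544), (nat_lit 20402210), (nat_lit 13167684)] (nat_lit 17259719)) p12_22_0 (nat_lit 3) (nat_lit 249) (nat_lit 250) = true := by decide +kernel
def p12_22_0_250 : pfC (piC [(nat_lit 30365544), (nat_lit 20402210), (nat_lit 13167684)] (nat_lit 17259719)) p12_22_0 (nat_lit 3) (nat_lit 250) (nat_lit 251) = true := by decide +kernel
def p12_22_0_251 : pfC (piC [(nat_lit 30365544), (nat_lit 20402210), (nat_lit 13167684)] (nat_lit 17259719)) p12_22_0 (nat_lit 3) (nat_lit 251) (nat_lit 252) = true := by decide +kernel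
def p12_22_0_252 : pfC (piC [(nat_lit 30365544), (nat_lit 20402210), (nat_lit 13167684)] (nat_lit 17259719)) p12_22_0 (nat_lit 3) (nat_lit 252) (nat_lit 253) = true := by decide +kernel
def p12_22_0_253 : pfC (piC [(nat_lit 30365544), (nat_lit 20402210), (nat_lit 13167684)] (nat_lit 17259719)) p12_22_0 (nat_lit 3) (nat_lit 253) (nat_lit 254) = true := by decide +kernel
def p12_22_0_254 : pfC (piC [(nat_lit 30365544), (nat_lit 20402210), (nat_lit 13167684)] (nat_lit 17259719)) p12_22_0 (nat_lit 3) (nat_lit 254) (nat_lit 255) = true := by decide +kernel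
def p12_22_0_255 : pfC (piC [(nat_lit 30365544), (nat_lit 20402210), (nat_lit 13167684)] (nat_lit 17259719)) p12_22_0 (nat_lit 3) (nat_lit 255) (nat_lit 256) = true := by decide +kernel
def p12_22_0_256 : pfC (piC [(nat_lit 30365544), (nat_lit 20402210), (nat_lit 13167684)] (nat_lit 17259719)) p12_22_0 (nat_lit 3) (nat_lit 256) (nat_lit 257) = true := by decide +kernel
def p12_22_0_257 : pfC (piC [(nat_lit 30365544), (nat_lit 20402210), (nat_lit 13167684)] (nat_lit 17259719)) p12_22_0 (nat_lit 3) (nat_lit 257) (nat_lit 258) = true := by decide +kernel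
def p12_22_0_258 : pfC (piC [(nat_lit 30365544), (nat_lit 20402210), (nat_lit 13167684)] (nat_lit 17259719)) p12_22_0 (nat_lit 3) (nat_lit 258) (nat_lit 259) = true := by decide +kernel
def p12_22_0_259 : pfC (piC [(nat_lit 30365544), (nat_lit 20402210), (nat_lit 13167684)] (nat_lit 17259719)) p12_22_0 (nat_lit 3) (nat_lit 259) (nat_lit 260) = true := by decide +kernel
def p12_22_0_260 : pfC (piC [(nat_lit 30365544), (nat_lit 20402210), (nat_lit 13167684)] (nat_lit 17259719)) p12_22_0 (nat_lit 3) (nat_lit 260) (nat_lit 261) = true := by decide +kernel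
def p12_22_0_261 : pfC (piC [(nat_lit 30365544), (nat_lit 20402210), (nat_lit 13167684)] (nat_lit 17259719)) p12_22_0 (nat_lit 3) (nat_lit 261) (nat_lit 262) = true := by decide +kernel
def p12_22_0_262 : pfC (piC [(nat_lit 30365544), (nat_lit 20402210), (nat_lit 13167684)] (nat_lit 17259719)) p12_22_0 (nat_lit 3) (nat_lit 262) (nat_lit 263) = true := by decide +kernel
def p12_22_0_263 : pfC (piC [(nat_lit 30365544), (nat_lit 20402210), (nat_lit 13167684)] (nat_lit 17259719)) p12_22_0 (nat_lit 3) (nat_lit 263) (nat_lit 264) = true := by decide +kernel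
def p12_22_0_264 : pfC (piC [(nat_lit 30365544), (nat_lit 20402210), (nat_lit 13167684)] (nat_lit 17259719)) p12_22_0 (nat_lit 3) (nat_lit 264) (nat_lit 265) = true := by decide +kernel
def p12_22_0_265 : pfC (piC [(nat_lit 30365544), (nat_lit 20402210), (nat_lit 13167684)] (nat_lit 17259719)) p12_22_0 (nat_lit 3) (nat_lit 265) (nat_lit 266) = true := by decide +kernel
def p12_22_0_266 : pfC (piC [(nat_lit 30365544), (nat_lit 20402210), (nat_lit 13167684)] (nat_lit 17259719)) p12_22_0 (nat_lit 3) (nat_lit 266) (nat_lit 267) = true := by decide +kernel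
def p12_22_0_267 : pfC (piC [(nat_lit 30365544), (nat_lit 20402210), (nat_lit 13167684)] (nat_lit 17259719)) p12_22_0 (nat_lit 3) (nat_lit 267) (nat_lit 268) = true := by decide +kernel
def p12_22_0_268 : pfC (piC [(nat_lit 30365544), (nat_lit 20402210), (nat_lit 13167684)] (nat_lit 17259719)) p12_22_0 (nat_lit 3) (nat_lit 268) (nat_lit 269) = true := by decide +kernel
def p12_22_0_269 : pfC (piC [(nat_lit 30365544), (nat_lit 20402210), (nat_lit 13167684)] (nat_lit 17259719)) p12_22_0 (nat_lit 3) (nat_lit 269) (nat_lit 270) = true := by decide +kernel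
def p12_22_0_270 : pfC (piC [(nat_lit 30365544), (nat_lit 20402210), (nat_lit 13167684)] (nat_lit 17259719)) p12_22_0 (nat_lit 3) (nat_lit 270) (nat_lit 271) = true := by decide +kernel
def p12_22_0_271 : pfC (piC [(nat_lit 30365544), (nat_lit 20402210), (nat_lit 13167684)] (nat_lit 17259719)) p12_22_0 (nat_lit 3) (nat_lit 271) (nat_lit 272) = true := by decide +kernel
def p12_22_0_272 : pfC (piC [(nat_lit 30365544), (nat_lit 20402210), (nat_lit 13167684)] (nat_lit 17259719)) p12_22_0 (nat_lit 3) (nat_lit 272) (nat_lit 273) = true := by decide +kernel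
def p12_22_0_273 : pfC (piC [(nat_lit 30365544), (nat_lit 20402210), (nat_lit 13167684)] (nat_lit 17259719)) p12_22_0 (nat_lit 3) (nat_lit 273) (nat_lit 274) = true := by decide +kernel
def p12_22_0_274 : pfC (piC [(nat_lit 30365544), (nat_lit 20402210), (nat_lit 13167684)] (nat_lit 17259719)) p12_22_0 (nat_lit 3) (nat_lit 274) (nat_lit 275) = true := by decide +kernel
def p12_22_0_275 : pfC (piC [(nat_lit 30365544), (nat_lit 20402210), (nat_lit 13167684)] (nat_lit 17259719)) p12_22_0 (nat_lit 3) (nat_lit 275) (nat_lit 276) = true := by decide +kernel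
def p12_22_0_276 : pfC (piC [(nat_lit 30365544), (nat_lit 20402210), (nat_lit 13167684)] (nat_lit 17259719)) p12_22_0 (nat_lit 3) (nat_lit 276) (nat_lit 277) = true := by decide +kernel
def p12_22_0_277 : pfC (piC [(nat_lit 30365544), (nat_lit 20402210), (nat_lit 13167684)] (nat_lit 17259719)) p12_22_0 (nat_lit 3) (nat_lit 277) (nat_lit 278) = true := by decide +kernel
def p12_22_0_278 : pfC (piC [(nat_lit 30365544), (nat_lit 20402210), (nat_lit 13167684)] (nat_lit 17259719)) p12_22_0 (nat_lit 3) (nat_lit 278) (nat_lit 279) = true := by decide +kernel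
def p12_22_0_279 : pfC (piC [(nat_lit 30365544), (nat_lit 20402210), (nat_lit 13167684)] (nat_lit 17259719)) p12_22_0 (nat_lit 3) (nat_lit 279) (nat_lit 280) = true := by decide +kernel
def p12_22_0_280 : pfC (piC [(nat_lit 30365544), (nat_lit 20402210), (nat_lit 13167684)] (nat_lit 17259719)) p12_22_0 (nat_lit 3) (nat_lit 280) (nat_lit 281) = true := by decide +kernel
def p12_22_0_281 : pfC (piC [(nat_lit 30365544), (nat_lit 20402210), (nat_lit 13167684)] (nat_lit 17259719)) p12_22_0 (nat_lit 3) (nat_lit 281) (nat_lit 282) = true := by decide +kernel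
def p12_22_0_282 : pfC (piC [(nat_lit 30365544), (nat_lit 20402210), (nat_lit 13167684)] (nat_lit 17259719)) p12_22_0 (nat_lit 3) (nat_lit 282) (nat_lit 283) = true := by decide +kernel
def p12_22_0_283 : pfC (piC [(nat_lit 30365544), (nat_lit 20402210), (nat_lit 13167684)] (nat_lit 17259719)) p12_22_0 (nat_lit 3) (nat_lit 283) (nat_lit 284) = true := by decide +kernel
def p12_22_0_284 : pfC (piC [(nat_lit 30365544), (nat_lit 20402210), (nat_lit 13167684)] (nat_lit 17259719)) p12_22_0 (nat_lit 3) (nat_lit 284) (nat_lit 285) = true := by decide +kernel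
def p12_22_0_285 : pfC (piC [(nat_lit 30365544), (nat_lit 20402210), (nat_lit 13167684)] (nat_lit 17259719)) p12_22_0 (nat_lit 3) (nat_lit 285) (nat_lit 286) = true := by decide +kernel
def p12_22_0_286 : pfC (piC [(nat_lit 30365544), (nat_lit 20402210), (nat_lit 13167684)] (nat_lit 17259719)) p12_22_0 (nat_lit 3) (nat_lit 286) (nat_lit 287) = true := by decide +kernel
def p12_22_0_287 : pfC (piC [(nat_lit 30365544), (nat_lit 20402210), (nat_lit 13167684)] (nat_lit 17259719)) p12_22_0 (nat_lit 3) (nat_lit 287) (nat_lit 288) = true := by decide +kernel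
def p12_22_0_288 : pfC (piC [(nat_lit 30365544), (nat_lit 20402210), (nat_lit 13167684)] (nat_lit 17259719)) p12_22_0 (nat_lit 3) (nat_lit 288) (nat_lit 289) = true := by decide +kernel
def p12_22_0_289 : pfC (piC [(nat_lit 30365544), (nat_lit 20402210), (nat_lit 13167684)] (nat_lit 17259719)) p12_22_0 (nat_lit 3) (nat_lit 289) (nat_lit 290) = true := by decide +kernel
def p12_22_0_290 : pfC (piC [(nat_lit 30365544), (nat_lit 20402210), (nat_lit 13167684)] (nat_lit 17259719)) p12_22_0 (nat_lit 3) (nat_lit 290) (nat_lit 291) = true := by decide +kernel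
def p12_22_0_291 : pfC (piC [(nat_lit 30365544), (nat_lit 20402210), (nat_lit 13167684)] (nat_lit 17259719)) p12_22_0 (nat_lit 3) (nat_lit 291) (nat_lit 292) = true := by decide +kernel
def p12_22_0_292 : pfC (piC [(nat_lit 30365544), (nat_lit 20402210), (nat_lit 13167684)] (nat_lit 17259719)) p12_22_0 (nat_lit 3) (nat_lit 292) (nat_lit 293) = true := by decide +kernel
def p12_22_0_293 : pfC (piC [(nat_lit 30365544), (nat_lit 20402210), (nat_lit 13167684)] (nat_lit 17259719)) p12_22_0 (nat_lit 3) (nat_lit 293) (nat_lit 294) = true := by decide +kernel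
def p12_22_0_294 : pfC (piC [(nat_lit 30365544), (nat_lit 20402210), (nat_lit 13167684)] (nat_lit 17259719)) p12_22_0 (nat_lit 3) (nat_lit 294) (nat_lit 295) = true := by decide +kernel
def p12_22_0_295 : pfC (piC [(nat_lit 30365544), (nat_lit 20402210), (nat_lit 13167684)] (nat_lit 17259719)) p12_22_0 (nat_lit 3) (nat_lit 295) (nat_lit 296) = true := by decide +kernel
def p12_22_0_296 : pfC (piC [(nat_lit 30365544), (nat_lit 20402210), (nat_lit 13167684)] (nat_lit 17259719)) p12_22_0 (nat_lit 3) (nat_lit 296) (nat_lit 297) = true := by decide +kernel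
def p12_22_0_297 : pfC (piC [(nat_lit 30365544), (nat_lit 20402210), (nat_lit 13167684)] (nat_lit 17259719)) p12_22_0 (nat_lit 3) (nat_lit 297) (nat_lit 298) = true := by decide +kernel
def p12_22_0_298 : pfC (piC [(nat_lit 30365544), (nat_lit 20402210), (nat_lit 13167684)] (nat_lit 17259719)) p12_22_0 (nat_lit 3) (nat_lit 298) (nat_lit 299) = true := by decide +kernel
def p12_22_0_299 : pfC (piC [(nat_lit 30365544), (nat_lit 20402210), (nat_lit 13167684)] (nat_lit 17259719)) p12_22_0 (nat_lit 3) (nat_lit 299) (nat_lit 300) = true := by decide +kernel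
def p12_22_0_300 : pfC (piC [(nat_lit 30365544), (nat_lit 20402210), (nat_lit 13167684)] (nat_lit 17259719)) p12_22_0 (nat_lit 3) (nat_lit 300) (nat_lit 301) = true := by decide +kernel
def p12_22_0_301 : pfC (piC [(nat_lit 30365544), (nat_lit 20402210), (nat_lit 13167684)] (nat_lit 17259719)) p12_22_0 (nat_lit 3) (nat_lit 301) (nat_lit 302) = true := by decide +kernel
def p12_22_0_302 : pfC (piC [(nat_lit 30365544), (nat_lit 20402210), (nat_lit 13167684)] (nat_lit 17259719)) p12_22_0 (nat_lit 3) (nat_lit 302) (nat_lit 303) = true := by decide +kernel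
def p12_22_0_303 : pfC (piC [(nat_lit 30365544), (nat_lit 20402210), (nat_lit 13167684)] (nat_lit 17259719)) p12_22_0 (nat_lit 3) (nat_lit 303) (nat_lit 304) = true := by decide +kernel
def p12_22_0_304 : pfC (piC [(nat_lit 30365544), (nat_lit 20402210), (nat_lit 13167684)] (nat_lit 17259719)) p12_22_0 (nat_lit 3) (nat_lit 304) (nat_lit 305) = true := by decide +kernel
def p12_22_0_305 : pfC (piC [(nat_lit 30365544), (nat_lit 20402210), (nat_lit 13167684)] (nat_lit 17259719)) p12_22_0 (nat_lit 3) (nat_lit 305) (nat_lit 306) = true := by decide +kernel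
def p12_22_0_306 : pfC (piC [(nat_lit 30365544), (nat_lit 20402210), (nat_lit 13167684)] (nat_lit 17259719)) p12_22_0 (nat_lit 3) (nat_lit 306) (nat_lit 307) = true := by decide +kernel
def p12_22_0_307 : pfC (piC [(nat_lit 30365544), (nat_lit 20402210), (nat_lit 13167684)] (nat_lit 17259719)) p12_22_0 (nat_lit 3) (nat_lit 307) (nat_lit 308) = true := by decide +kernel
def p12_22_0_308 : pfC (piC [(nat_lit 30365544), (nat_lit 20402210), (nat_lit 13167684)] (nat_lit 17259719)) p12_22_0 (nat_lit 3) (nat_lit 308) (nat_lit 309) = true := by decide +kernel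
def p12_22_0_309 : pfC (piC [(nat_lit 30365544), (nat_lit 20402210), (nat_lit 13167684)] (nat_lit 17259719)) p12_22_0 (nat_lit 3) (nat_lit 309) (nat_lit 310) = true := by decide +kernel
def p12_22_0_310 : pfC (piC [(nat_lit 30365544), (nat_lit 20402210), (nat_lit 13167684)] (nat_lit 17259719)) p12_22_0 (nat_lit 3) (nat_lit 310) (nat_lit 311) = true := by decide +kernel
def p12_22_0_311 : pfC (piC [(nat_lit 30365544), (nat_lit 20402210), (nat_lit 13167684)] (nat_lit 17259719)) p12_22_0 (nat_lit 3) (nat_lit 311) (nat_lit 312) = true := by decide +kernel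
def p12_22_0_312 : pfC (piC [(nat_lit 30365544), (nat_lit 20402210), (nat_lit 13167684)] (nat_lit 17259719)) p12_22_0 (nat_lit 3) (nat_lit 312) (nat_lit 313) = true := by decide +kernel
def p12_22_0_313 : pfC (piC [(nat_lit 30365544), (nat_lit 20402210), (nat_lit 13167684)] (nat_lit 17259719)) p12_22_0 (nat_lit 3) (nat_lit 313) (nat_lit 314) = true := by decide +kernel
def p12_22_0_314 : pfC (piC [(nat_lit 30365544), (nat_lit 20402210), (nat_lit 13167684)] (nat_lit 17259719)) p12_22_0 (nat_lit 3) (nat_lit 314) (nat_lit 315) = true := by decide +kernel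
def p12_22_0_315 : pfC (piC [(nat_lit 30365544), (nat_lit 20402210), (nat_lit 13167684)] (nat_lit 17259719)) p12_22_0 (nat_lit 3) (nat_lit 315) (nat_lit 316) = true := by decide +kernel
def p12_22_0_316 : pfC (piC [(nat_lit 30365544), (nat_lit 20402210), (nat_lit 13167684)] (nat_lit 17259719)) p12_22_0 (nat_lit 3) (nat_lit 316) (nat_lit 317) = true := by decide +kernel
def p12_22_0_317 : pfC (piC [(nat_lit 30365544), (nat_lit 20402210), (nat_lit 13167684)] (nat_lit 17259719)) p12_22_0 (nat_lit 3) (nat_lit 317) (nat_lit 318) = true := by decide +kernel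
def p12_22_0_318 : pfC (piC [(nat_lit 30365544), (nat_lit 20402210), (nat_lit 13167684)] (nat_lit 17259719)) p12_22_0 (nat_lit 3) (nat_lit 318) (nat_lit 319) = true := by decide +kernel
def p12_22_0_319 : pfC (piC [(nat_lit 30365544), (nat_lit 20402210), (nat_lit 13167684)] (nat_lit 17259719)) p12_22_0 (nat_lit 3) (nat_lit 319) (nat_lit 320) = true := by decide +kernel
def p12_22_0_320 : pfC (piC [(nat_lit 30365544), (nat_lit 20402210), (nat_lit 13167684)] (nat_lit 17259719)) p12_22_0 (nat_lit 3) (nat_lit 320) (nat_lit 321) = true := by decide +kernel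
def p12_22_0_321 : pfC (piC [(nat_lit 30365544), (nat_lit 20402210), (nat_lit 13167684)] (nat_lit 17259719)) p12_22_0 (nat_lit 3) (nat_lit 321) (nat_lit 322) = true := by decide +kernel
def p12_22_0_322 : pfC (piC [(nat_lit 30365544), (nat_lit 20402210), (nat_lit 13167684)] (nat_lit 17259719)) p12_22_0 (nat_lit 3) (nat_lit 322) (nat_lit 323) = true := by decide +kernel
def p12_22_0_323 : pfC (piC [(nat_lit 30365544), (nat_lit 20402210), (nat_lit 13167684)] (nat_lit 17259719)) p12_22_0 (nat_lit 3) (nat_lit 323) (nat_lit 324) = true := by decide +kernel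
def p12_22_0_324 : pfC (piC [(nat_lit 30365544), (nat_lit 20402210), (nat_lit 13167684)] (nat_lit 17259719)) p12_22_0 (nat_lit 3) (nat_lit 324) (nat_lit 325) = true := by decide +kernel
def p12_22_0_325 : pfC (piC [(nat_lit 30365544), (nat_lit 20402210), (nat_lit 13167684)] (nat_lit 17259719)) p12_22_0 (nat_lit 3) (nat_lit 325) (nat_lit 326) = true := by decide +kernel
def p12_22_0_326 : pfC (piC [(nat_lit 30365544), (nat_lit 20402210), (nat_lit 13167684)] (nat_lit 17259719)) p12_22_0 (nat_lit 3) (nat_lit 326) (nat_lit 327) = true := by decide +kernel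
def p12_22_0_327 : pfC (piC [(nat_lit 30365544), (nat_lit 20402210), (nat_lit 13167684)] (nat_lit 17259719)) p12_22_0 (nat_lit 3) (nat_lit 327) (nat_lit 328) = true := by decide +kernel
def p12_22_0_328 : pfC (piC [(nat_lit 30365544), (nat_lit 20402210), (nat_lit 13167684)] (nat_lit 17259719)) p12_22_0 (nat_lit 3) (nat_lit 328) (nat_lit 329) = true := by decide +kernel
def p12_22_0_329 : pfC (piC [(nat_lit 30365544), (nat_lit 20402210), (nat_lit 13167684)] (nat_lit 17259719)) p12_22_0 (nat_lit 3) (nat_lit 329) (nat_lit 330) = true := by decide +kernel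
def p12_22_0_330 : pfC (piC [(nat_lit 30365544), (nat_lit 20402210), (nat_lit 13167684)] (nat_lit 17259719)) p12_22_0 (nat_lit 3) (nat_lit 330) (nat_lit 331) = true := by decide +kernel
def p12_22_0_331 : pfC (piC [(nat_lit 30365544), (nat_lit 20402210), (nat_lit 13167684)] (nat_lit 17259719)) p12_22_0 (nat_lit 3) (nat_lit 331) (nat_lit 332) = true := by decide +kernel
def p12_22_0_332 : pfC (piC [(nat_lit 30365544), (nat_lit 20402210), (nat_lit 13167684)] (nat_lit 17259719)) p12_22_0 (nat_lit 3) (nat_lit 332) (nat_lit 333) = true := by decide +kernel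
def p12_22_0_333 : pfC (piC [(nat_lit 30365544), (nat_lit 20402210), (nat_lit 13167684)] (nat_lit 17259719)) p12_22_0 (nat_lit 3) (nat_lit 333) (nat_lit 334) = true := by decide +kernel
def p12_22_0_334 : pfC (piC [(nat_lit 30365544), (nat_lit 20402210), (nat_lit 13167684)] (nat_lit 17259719)) p12_22_0 (nat_lit 3) (nat_lit 334) (nat_lit 335) = true := by decide +kernel
def p12_22_0_335 : pfC (piC [(nat_lit 30365544), (nat_lit 20402210), (nat_lit 13167684)] (nat_lit 17259719)) p12_22_0 (nat_lit 3) (nat_lit 335) (nat_lit 336) = true := by decide +kernel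
def p12_22_0_336 : pfC (piC [(nat_lit 30365544), (nat_lit 20402210), (nat_lit 13167684)] (nat_lit 17259719)) p12_22_0 (nat_lit 3) (nat_lit 336) (nat_lit 337) = true := by decide +kernel
def p12_22_0_337 : pfC (piC [(nat_lit 30365544), (nat_lit 20402210), (nat_lit 13167684)] (nat_lit 17259719)) p12_22_0 (nat_lit 3) (nat_lit 337) (nat_lit 338) = true := by decide +kernel
def p12_22_0_338 : pfC (piC [(nat_lit 30365544), (nat_lit 20402210), (nat_lit 13167684)] (nat_lit 17259719)) p12_22_0 (nat_lit 3) (nat_lit 338) (nat_lit 339) = true := by decide +kernel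
def p12_22_0_339 : pfC (piC [(nat_lit 30365544), (nat_lit 20402210), (nat_lit 13167684)] (nat_lit 17259719)) p12_22_0 (nat_lit 3) (nat_lit 339) (nat_lit 340) = true := by decide +kernel
def p12_22_0_340 : pfC (piC [(nat_lit 30365544), (nat_lit 20402210), (nat_lit 13167684)] (nat_lit 17259719)) p12_22_0 (nat_lit 3) (nat_lit 340) (nat_lit 341) = true := by decide +kernel
def p12_22_0_341 : pfC (piC [(nat_lit 30365544), (nat_lit 20402210), (nat_lit 13167684)] (nat_lit 17259719)) p12_22_0 (nat_lit 3) (nat_lit 341) (nat_lit 342) = true := by decide +kernel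
def p12_22_0_342 : pfC (piC [(nat_lit 30365544), (nat_lit 20402210), (nat_lit 13167684)] (nat_lit 17259719)) p12_22_0 (nat_lit 3) (nat_lit 342) (nat_lit 343) = true := by decide +kernel
def p12_22_0_343 : pfC (piC [(nat_lit 30365544), (nat_lit 20402210), (nat_lit 13167684)] (nat_lit 17259719)) p12_22_0 (nat_lit 3) (nat_lit 343) (nat_lit 344) = true := by decide +kernel
def p12_22_0_344 : pfC (piC [(nat_lit 30365544), (nat_lit 20402210), (nat_lit 13167684)] (nat_lit 17259719)) p12_22_0 (nat_lit 3) (nat_lit 344) (nat_lit 345) = true := by decide +kernel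
def p12_22_0_345 : pfC (piC [(nat_lit 30365544), (nat_lit 20402210), (nat_lit 13167684)] (nat_lit 17259719)) p12_22_0 (nat_lit 3) (nat_lit 345) (nat_lit 346) = true := by decide +kernel
def p12_22_0_346 : pfC (piC [(nat_lit 30365544), (nat_lit 20402210), (nat_lit 13167684)] (nat_lit 17259719)) p12_22_0 (nat_lit 3) (nat_lit 346) (nat_lit 347) = true := by decide +kernel
def p12_22_0_347 : pfC (piC [(nat_lit 30365544), (nat_lit 20402210), (nat_lit 13167684)] (nat_lit 17259719)) p12_22_0 (nat_lit 3) (nat_lit 347) (nat_lit 348) = true := by decide +kernel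
def p12_22_0_348 : pfC (piC [(nat_lit 30365544), (nat_lit 20402210), (nat_lit 13167684)] (nat_lit 17259719)) p12_22_0 (nat_lit 3) (nat_lit 348) (nat_lit 349) = true := by decide +kernel
def p12_22_0_349 : pfC (piC [(nat_lit 30365544), (nat_lit 20402210), (nat_lit 13167684)] (nat_lit 17259719)) p12_22_0 (nat_lit 3) (nat_lit 349) (nat_lit 350) = true := by decide +kernel
def p12_22_0_350 : pfC (piC [(nat_lit 30365544), (nat_lit 20402210), (nat_lit 13167684)] (nat_lit 17259719)) p12_22_0 (nat_lit 3) (nat_lit 350) (nat_lit 351) = true := by decide +kernel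
def p12_22_0_351 : pfC (piC [(nat_lit 30365544), (nat_lit 20402210), (nat_lit 13167684)] (nat_lit 17259719)) p12_22_0 (nat_lit 3) (nat_lit 351) (nat_lit 352) = true := by decide +kernel
def p12_22_0_352 : pfC (piC [(nat_lit 30365544), (nat_lit 20402210), (nat_lit 13167684)] (nat_lit 17259719)) p12_22_0 (nat_lit 3) (nat_lit 352) (nat_lit 353) = true := by decide +kernel
def p12_22_0_353 : pfC (piC [(nat_lit 30365544), (nat_lit 20402210), (nat_lit 13167684)] (nat_lit 17259719)) p12_22_0 (nat_lit 3) (nat_lit 353) (nat_lit 354) = true := by decide +kernel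
def p12_22_0_354 : pfC (piC [(nat_lit 30365544), (nat_lit 20402210), (nat_lit 13167684)] (nat_lit 17259719)) p12_22_0 (nat_lit 3) (nat_lit 354) (nat_lit 355) = true := by decide +kernel
def p12_22_0_355 : pfC (piC [(nat_lit 30365544), (nat_lit 20402210), (nat_lit 13167684)] (nat_lit 17259719)) p12_22_0 (nat_lit 3) (nat_lit 355) (nat_lit 356) = true := by decide +kernel
def p12_22_0_356 : pfC (piC [(nat_lit 30365544), (nat_lit 20402210), (nat_lit 13167684)] (nat_lit 17259719)) p12_22_0 (nat_lit 3) (nat_lit 356) (nat_lit 357) = true := by decide +kernel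
def p12_22_0_357 : pfC (piC [(nat_lit 30365544), (nat_lit 20402210), (nat_lit 13167684)] (nat_lit 17259719)) p12_22_0 (nat_lit 3) (nat_lit 357) (nat_lit 358) = true := by decide +kernel
theorem p12_22_0_T : PfS (PiF n12_22.reverse (nat_lit 17259719)) p12_22_0 (nat_lit 3) [] 0 :=
  pftab_of (los := [(nat_lit 30365544), (nat_lit 20402210), (nat_lit 13167684)]) (by decide +kernel) (hi := (nat_lit 358)) (PfP.trans (PfP.trans (PfP.trans (PfP.trans (PfP.trans (PfP.trans (PfP.trans (PfP.trans (PfP.trans (PfP.trans (PfP.trans (PfP.trans (PfP.trans (PfP.trans (PfP.trans (PfP.trans (PfP.trans (PfP.trans (PfP.trans (PfP.trans (PfP.trans (PfP.trans (PfP.trans (PfP.trans (PfP.trans (PfP.trans (PfP.trans (PfP.trans (PfP.trans (PfP.trans (PfP.trans (PfP.trans (PfP.trans (PfP.trans (PfP.trans (PfP.trans (PfP.trans (PfP.trans (PfP.trans (PfP.trans (PfP.trans (PfP.trans (PfP.trans (PfP.trans (PfP.trans (PfP.trans (PfP.trans (PfP.trans (PfP.trans (PfP.trans (PfP.trans (PfP.trans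 (PfP.trans (PfP.trans (PfP.trans (PfP.trans (PfP.trans (PfP.trans (PfP.trans (PfP.trans (PfP.trans (PfP.trans (PfP.trans (PfP.trans (PfP.trans (PfP.trans (PfP.trans (PfP.trans (PfP.trans (PfP.trans (PfP.trans (PfP.trans (PfP.trans (PfP.trans (PfP.trans (PfP.trans (PfP.trans (PfP.trans (PfP.trans (PfP.trans (PfP.trans (PfP.trans (PfP.trans (PfP.trans (PfP.trans (PfP.trans (PfP.trans (PfP.trans (PfP.trans (PfP.trans (PfP.trans (PfP.trans (PfP.trans (PfP.trans (PfP.trans (PfP.trans (PfP.trans (PfP.trans (PfP.trans (PfP.trans (PfP.trans (PfP.trans (PfP.trans (PfP.trans (PfP.trans (PfP.trans (PfP.trans (PfP.trans (PfP.trans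
 (PfP.trans (PfP.trans (PfP.trans (PfP.trans (PfP.trans (PfP.trans (PfP.trans (PfP.trans (PfP.trans (PfP.trans (PfP.trans (PfP.trans (PfP.trans (PfP.trans (PfP.trans (PfP.trans (PfP.trans (PfP.trans (PfP.trans (PfP.trans (PfP.trans (PfP.trans (PfP.trans (PfP.trans (PfP.trans (PfP.trans (PfP.trans (PfP.trans (PfP.trans (PfP.trans (PfP.trans (PfP.trans (PfP.trans (PfP.trans (PfP.trans (PfP.trans (PfP.trans (PfP.trans (PfP.trans (PfP.trans (PfP.trans (PfP.trans (PfP.trans (PfP.trans (PfP.trans (PfP.trans (PfP.trans (PfP.trans (PfP.trans (PfP.trans (PfP.trans (PfP.trans (PfP.trans (PfP.trans (PfP.trans (PfP.trans (PfP.trans (PfP.trans (PfP.trans (PfP.trans (PfP.trans (PfP.trans (PfP.trans (PfP.trans (PfP.trans (PfP.trans (PfP.trans (PfP.trans (PfP.trans (PfP.trans (PfP.trans (PfP.trans (PfP.trans (PfP.trans (PfP.trans (PfP.trans (PfP.trans (PfP.trans (PfP.trans (PfP.trans (PfP.trans (PfP.trans (PfP.trans (PfP.trans (PfP.trans (PfP.trans (PfP.trans (PfP.trans (PfP.trans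 (PfP.trans (PfP.trans (PfP.trans (PfP.trans (PfP.trans (PfP.trans (PfP.trans (PfP.trans (PfP.trans (PfP.trans (PfP.trans (PfP.trans (PfP.trans (PfP.trans (PfP.trans (PfP.trans (PfP.trans (PfP.trans (PfP.trans (PfP.trans
 (PfP.trans (PfP.trans (PfP.trans (PfP.trans (PfP.trans (PfP.trans (PfP.trans (PfP.trans (PfP.trans (PfP.trans (PfP.trans (PfP.trans (PfP.trans (PfP.trans (PfP.trans (PfP.trans (PfP.trans (PfP.trans (PfP.trans (PfP.trans (PfP.trans (PfP.trans (PfP.trans (PfP.trans (PfP.trans (PfP.trans (PfP.trans (PfP.trans (PfP.trans (PfP.trans (PfP.trans (PfP.trans (PfP.trans (PfP.trans (PfP.trans (PfP.trans (PfP.trans (PfP.trans (PfP.trans (PfP.trans (PfP.trans (PfP.trans (PfP.trans (PfP.trans (PfP.trans (PfP.trans (PfP.trans (PfP.trans (PfP.trans (PfP.trans (PfP.trans (PfP.trans (PfP.trans (PfP.trans (PfP.trans (PfP.trans (PfP.trans (PfP.trans (PfP.trans (PfP.trans (PfP.trans (PfP.trans (PfP.trans (PfP.trans (PfP.trans (PfP.trans (PfP.trans (PfP.trans (PfP.trans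 (PfP.trans (PfP.trans (PfP.trans (PfP.trans (PfP.trans (PfP.trans (PfP.trans (PfP.trans (PfP.trans (PfP.trans (PfP.trans (PfP.trans (PfP.trans (PfP.trans (PfP.trans (PfP.trans (PfP.trans (PfP.trans (PfP.trans (PfP.trans (PfP.trans (PfP.trans (PfP.trans (PfP.trans (PfP.trans (PfP.trans (PfP.trans (PfP.trans (PfP.trans (PfP.trans (PfP.trans (PfP.trans (PfP.trans (PfP.trans (PfP.trans (PfP.trans (PfP.trans (PfP.trans (PfP.trans (PfP.trans
 (PfP.trans (PfP.trans (PfP.trans (PfP.trans (PfP.trans (PfP.trans (PfP.trans (PfP.trans (PfP.trans (PfP.trans (PfP.trans (PfP.trans (PfP.trans (PfP.trans (PfP.trans (PfP.trans (PfP.trans (PfP.trans (PfP.trans (PfP.trans (PfP.trans (PfP.trans (PfP.trans (PfP.trans (PfP.trans (PfP.trans (PfP.trans (PfP.trans (PfP.trans (PfP.trans (pfC_sound p12_22_0_0) (pfC_sound p12_22_0_1)) (pfC_sound p12_22_0_2)) (pfC_sound p12_22_0_3)) (pfC_sound p12_22_0_4)) (pfC_sound p12_22_0_5)) (pfC_sound p12_22_0_6)) (pfC_sound p12_22_0_7)) (pfC_sound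 p12_22_0_8)) (pfC_sound p12_22_0_9)) (pfC_sound p12_22_0_10)) (pfC_sound p12_22_0_11)) (pfC_sound p12_22_0_12)) (pfC_sound p12_22_0_13)) (pfC_sound p12_22_0_14)) (pfC_sound p12_22_0_15)) (pfC_sound p12_22_0_16)) (pfC_sound p12_22_0_17)) (pfC_sound p12_22_0_18)) (pfC_sound p12_22_0_19)) (pfC_sound p12_22_0_20)) (pfC_sound p12_22_0_21)) (pfC_sound p12_22_0_22)) (pfC_sound p12_22_0_23)) (pfC_sound p12_22_0_24)) (pfC_sound p12_22_0_25)) (pfC_sound p12_22_0_26)) (pfC_sound p12_22_0_27)) (pfC_sound p12_22_0_28)) (pfC_sound p12_22_0_29)) (pfC_sound p12_22_0_30)) (pfC_sound p12_22_0_31)) (pfC_sound p12_22_0_32)) (pfC_sound p12_22_0_33)) (pfC_sound p12_22_0_34))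
 (pfC_sound p12_22_0_35)) (pfC_sound p12_22_0_36)) (pfC_sound p12_22_0_37)) (pfC_sound p12_22_0_38)) (pfC_sound p12_22_0_39)) (pfC_sound p12_22_0_40)) (pfC_sound p12_22_0_41)) (pfC_sound p12_22_0_42)) (pfC_sound p12_22_0_43)) (pfC_sound p12_22_0_44)) (pfC_sound p12_22_0_45)) (pfC_sound p12_22_0_46)) (pfC_sound p12_22_0_47)) (pfC_sound p12_22_0_48)) (pfC_sound p12_22_0_49)) (pfC_sound p12_22_0_50)) (pfC_sound p12_22_0_51)) (pfC_sound p12_22_0_52)) (pfC_sound p12_22_0_53)) (pfC_sound p12_22_0_54)) (pfC_sound p12_22_0_55)) (pfC_sound p12_22_0_56)) (pfC_sound p12_22_0_57)) (pfC_sound p12_22_0_58)) (pfC_sound p12_22_0_59)) (pfC_sound p12_22_0_60)) (pfC_sound p12_22_0_61)) (pfC_sound p12_22_0_62)) (pfC_sound p12_22_0_63)) (pfC_sound p12_22_0_64)) (pfC_sound p12_22_0_65)) (pfC_sound p12_22_0_66)) (pfC_sound p12_22_0_67)) (pfC_sound p12_22_0_68)) (pfC_sound p12_22_0_69)) (pfC_sound p12_22_0_70)) (pfC_sound p12_22_0_71)) (pfC_sound p12_22_0_72)) (pfC_sound p12_22_0_73))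 (pfC_sound p12_22_0_74)) (pfC_sound p12_22_0_75)) (pfC_sound p12_22_0_76)) (pfC_sound p12_22_0_77)) (pfC_sound p12_22_0_78)) (pfC_sound p12_22_0_79)) (pfC_sound p12_22_0_80)) (pfC_sound p12_22_0_81)) (pfC_sound p12_22_0_82))
 (pfC_sound p12_22_0_83)) (pfC_sound p12_22_0_84)) (pfC_sound p12_22_0_85)) (pfC_sound p12_22_0_86)) (pfC_sound p12_22_0_87)) (pfC_sound p12_22_0_88)) (pfC_sound p12_22_0_89)) (pfC_sound p12_22_0_90)) (pfC_sound p12_22_0_91)) (pfC_sound p12_22_0_92)) (pfC_sound p12_22_0_93)) (pfC_sound p12_22_0_94)) (pfC_sound p12_22_0_95)) (pfC_sound p12_22_0_96)) (pfC_sound p12_22_0_97)) (pfC_sound p12_22_0_98)) (pfC_sound p12_22_0_99)) (pfC_sound p12_22_0_100)) (pfC_sound p12_22_0_101)) (pfC_sound p12_22_0_102)) (pfC_sound p12_22_0_103)) (pfC_sound p12_22_0_104)) (pfC_sound p12_22_0_105)) (pfC_sound p12_22_0_106)) (pfC_sound p12_22_0_107)) (pfC_sound p12_22_0_108)) (pfC_sound p12_22_0_109)) (pfC_sound p12_22_0_110)) (pfC_sound p12_22_0_111)) (pfC_sound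 p12_22_0_112)) (pfC_sound p12_22_0_113)) (pfC_sound p12_22_0_114)) (pfC_sound p12_22_0_115)) (pfC_sound p12_22_0_116)) (pfC_sound p12_22_0_117)) (pfC_sound p12_22_0_118)) (pfC_sound p12_22_0_119)) (pfC_sound p12_22_0_120)) (pfC_sound p12_22_0_121)) (pfC_sound p12_22_0_122)) (pfC_sound p12_22_0_123)) (pfC_sound p12_22_0_124)) (pfC_sound p12_22_0_125)) (pfC_sound p12_22_0_126)) (pfC_sound p12_22_0_127)) (pfC_sound p12_22_0_128)) (pfC_sound
 p12_22_0_129)) (pfC_sound p12_22_0_130)) (pfC_sound p12_22_0_131)) (pfC_sound p12_22_0_132)) (pfC_sound p12_22_0_133)) (pfC_sound p12_22_0_134)) (pfC_sound p12_22_0_135)) (pfC_sound p12_22_0_136)) (pfC_sound p12_22_0_137)) (pfC_sound p12_22_0_138)) (pfC_sound p12_22_0_139)) (pfC_sound p12_22_0_140)) (pfC_sound p12_22_0_141)) (pfC_sound p12_22_0_142)) (pfC_sound p12_22_0_143)) (pfC_sound p12_22_0_144)) (pfC_sound p12_22_0_145)) (pfC_sound p12_22_0_146)) (pfC_sound p12_22_0_147)) (pfC_sound p12_22_0_148)) (pfC_sound p12_22_0_149))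 (pfC_sound p12_22_0_150)) (pfC_sound p12_22_0_151)) (pfC_sound p12_22_0_152)) (pfC_sound p12_22_0_153)) (pfC_sound p12_22_0_154)) (pfC_sound p12_22_0_155)) (pfC_sound p12_22_0_156)) (pfC_sound p12_22_0_157)) (pfC_sound p12_22_0_158)) (pfC_sound p12_22_0_159)) (pfC_sound p12_22_0_160)) (pfC_sound p12_22_0_161)) (pfC_sound p12_22_0_162)) (pfC_sound p12_22_0_163)) (pfC_sound p12_22_0_164)) (pfC_sound p12_22_0_165)) (pfC_sound p12_22_0_166)) (pfC_sound p12_22_0_167)) (pfC_sound p12_22_0_168)) (pfC_sound p12_22_0_169)) (pfC_sound p12_22_0_170)) (pfC_sound p12_22_0_171)) (pfC_sound p12_22_0_172)) (pfC_sound p12_22_0_173)) (pfC_sound p12_22_0_174)) (pfC_sound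
 p12_22_0_175)) (pfC_sound p12_22_0_176)) (pfC_sound p12_22_0_177)) (pfC_sound p12_22_0_178)) (pfC_sound p12_22_0_179)) (pfC_sound p12_22_0_180)) (pfC_sound p12_22_0_181)) (pfC_sound p12_22_0_182)) (pfC_sound p12_22_0_183)) (pfC_sound p12_22_0_184)) (pfC_sound p12_22_0_185)) (pfC_sound p12_22_0_186)) (pfC_sound p12_22_0_187)) (pfC_sound p12_22_0_188)) (pfC_sound p12_22_0_189)) (pfC_sound p12_22_0_190)) (pfC_sound p12_22_0_191)) (pfC_sound p12_22_0_192)) (pfC_sound p12_22_0_193)) (pfC_sound p12_22_0_194)) (pfC_sound p12_22_0_195)) (pfC_sound p12_22_0_196)) (pfC_sound p12_22_0_197)) (pfC_sound p12_22_0_198)) (pfC_sound p12_22_0_199)) (pfC_sound p12_22_0_200)) (pfC_sound p12_22_0_201)) (pfC_sound p12_22_0_202)) (pfC_sound p12_22_0_203)) (pfC_sound p12_22_0_204)) (pfC_sound p12_22_0_205)) (pfC_sound p12_22_0_206)) (pfC_sound p12_22_0_207)) (pfC_sound p12_22_0_208)) (pfC_sound p12_22_0_209)) (pfC_sound p12_22_0_210)) (pfC_sound p12_22_0_211)) (pfC_sound p12_22_0_212))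 (pfC_sound p12_22_0_213)) (pfC_sound p12_22_0_214)) (pfC_sound p12_22_0_215)) (pfC_sound p12_22_0_216)) (pfC_sound p12_22_0_217)) (pfC_sound p12_22_0_218)) (pfC_sound p12_22_0_219)) (pfC_sound p12_22_0_220)) (pfC_sound
 p12_22_0_221)) (pfC_sound p12_22_0_222)) (pfC_sound p12_22_0_223)) (pfC_sound p12_22_0_224)) (pfC_sound p12_22_0_225)) (pfC_sound p12_22_0_226)) (pfC_sound p12_22_0_227)) (pfC_sound p12_22_0_228)) (pfC_sound p12_22_0_229)) (pfC_sound p12_22_0_230)) (pfC_sound p12_22_0_231)) (pfC_sound p12_22_0_232)) (pfC_sound p12_22_0_233)) (pfC_sound p12_22_0_234)) (pfC_sound p12_22_0_235)) (pfC_sound p12_22_0_236)) (pfC_sound p12_22_0_237)) (pfC_sound p12_22_0_238)) (pfC_sound p12_22_0_239)) (pfC_sound p12_22_0_240)) (pfC_sound p12_22_0_241)) (pfC_sound p12_22_0_242)) (pfC_sound p12_22_0_243)) (pfC_sound p12_22_0_244)) (pfC_sound p12_22_0_245)) (pfC_sound p12_22_0_246)) (pfC_sound p12_22_0_247)) (pfC_sound p12_22_0_248)) (pfC_sound p12_22_0_249)) (pfC_sound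 p12_22_0_250)) (pfC_sound p12_22_0_251)) (pfC_sound p12_22_0_252)) (pfC_sound p12_22_0_253)) (pfC_sound p12_22_0_254)) (pfC_sound p12_22_0_255)) (pfC_sound p12_22_0_256)) (pfC_sound p12_22_0_257)) (pfC_sound p12_22_0_258)) (pfC_sound p12_22_0_259)) (pfC_sound p12_22_0_260)) (pfC_sound p12_22_0_261)) (pfC_sound p12_22_0_262)) (pfC_sound p12_22_0_263)) (pfC_sound p12_22_0_264)) (pfC_sound p12_22_0_265)) (pfC_sound p12_22_0_266)) (pfC_sound
 p12_22_0_267)) (pfC_sound p12_22_0_268)) (pfC_sound p12_22_0_269)) (pfC_sound p12_22_0_270)) (pfC_sound p12_22_0_271)) (pfC_sound p12_22_0_272)) (pfC_sound p12_22_0_273)) (pfC_sound p12_22_0_274)) (pfC_sound p12_22_0_275)) (pfC_sound p12_22_0_276)) (pfC_sound p12_22_0_277)) (pfC_sound p12_22_0_278)) (pfC_sound p12_22_0_279)) (pfC_sound p12_22_0_280)) (pfC_sound p12_22_0_281)) (pfC_sound p12_22_0_282)) (pfC_sound p12_22_0_283)) (pfC_sound p12_22_0_284)) (pfC_sound p12_22_0_285)) (pfC_sound p12_22_0_286)) (pfC_sound p12_22_0_287))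 (pfC_sound p12_22_0_288)) (pfC_sound p12_22_0_289)) (pfC_sound p12_22_0_290)) (pfC_sound p12_22_0_291)) (pfC_sound p12_22_0_292)) (pfC_sound p12_22_0_293)) (pfC_sound p12_22_0_294)) (pfC_sound p12_22_0_295)) (pfC_sound p12_22_0_296)) (pfC_sound p12_22_0_297)) (pfC_sound p12_22_0_298)) (pfC_sound p12_22_0_299)) (pfC_sound p12_22_0_300)) (pfC_sound p12_22_0_301)) (pfC_sound p12_22_0_302)) (pfC_sound p12_22_0_303)) (pfC_sound p12_22_0_304)) (pfC_sound p12_22_0_305)) (pfC_sound p12_22_0_306)) (pfC_sound p12_22_0_307)) (pfC_sound p12_22_0_308)) (pfC_sound p12_22_0_309)) (pfC_sound p12_22_0_310)) (pfC_sound p12_22_0_311)) (pfC_sound p12_22_0_312)) (pfC_sound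
 p12_22_0_313)) (pfC_sound p12_22_0_314)) (pfC_sound p12_22_0_315)) (pfC_sound p12_22_0_316)) (pfC_sound p12_22_0_317)) (pfC_sound p12_22_0_318)) (pfC_sound p12_22_0_319)) (pfC_sound p12_22_0_320)) (pfC_sound p12_22_0_321)) (pfC_sound p12_22_0_322)) (pfC_sound p12_22_0_323)) (pfC_sound p12_22_0_324)) (pfC_sound p12_22_0_325)) (pfC_sound p12_22_0_326)) (pfC_sound p12_22_0_327)) (pfC_sound p12_22_0_328)) (pfC_sound p12_22_0_329)) (pfC_sound p12_22_0_330)) (pfC_sound p12_22_0_331)) (pfC_sound p12_22_0_332)) (pfC_sound p12_22_0_333)) (pfC_sound p12_22_0_334)) (pfC_sound p12_22_0_335)) (pfC_sound p12_22_0_336)) (pfC_sound p12_22_0_337)) (pfC_sound p12_22_0_338)) (pfC_sound p12_22_0_339)) (pfC_sound p12_22_0_340)) (pfC_sound p12_22_0_341)) (pfC_sound p12_22_0_342)) (pfC_sound p12_22_0_343)) (pfC_sound p12_22_0_344)) (pfC_sound p12_22_0_345)) (pfC_sound p12_22_0_346)) (pfC_sound p12_22_0_347)) (pfC_sound p12_22_0_348)) (pfC_sound p12_22_0_349)) (pfC_sound p12_22_0_350))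 (pfC_sound p12_22_0_351)) (pfC_sound p12_22_0_352)) (pfC_sound p12_22_0_353)) (pfC_sound p12_22_0_354)) (pfC_sound p12_22_0_355)) (pfC_sound p12_22_0_356)) (pfC_sound p12_22_0_357)) (by decide +kernel)

def z12_22_0 : zOK yB12_22 (nat_lit 0) (nat_lit 0) (nat_lit 400) (nat_lit 17259719) (nat_lit 12140233) = true := by decide +kernel
def g12_22_0 : gOK yB12_22.x P12_22 (nat_lit 1345) (q12_22 :: r12_22) (nat_lit 0) (nat_lit 0) (nat_lit 1) (nat_lit 400) (nat_lit 0) (nat_lit 11000000) (nat_lit 12712500) (nat_lit 12712500) [(nat_lit 800), (nat_lit 1600)] = true := by decide +kernel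
def p12_22_1 : PF := (PF.cons (PF.cons (PF.cons (PF.leaf (nat_lit 1684718) (nat_lit 7078154) (nat_lit 60030658) (nat_lit 7078154) [(nat_lit 0), (nat_lit 0), (nat_lit 0)]) (PF.cons (PF.leaf (nat_lit 2070041) (nat_lit 772879) (nat_lit 59151038) (nat_lit 7184895) [(nat_lit 772879), (nat_lit 0), (nat_lit 0)]) (PF.cons (PF.leaf (nat_lit 2522414) (nat_lit 843231) (nat_lit 58132480) (nat_lit 7289869) [(nat_lit 843231), (nat_lit 0), (nat_lit 0)]) (PF.cons (PF.leaf (nat_lit 3028143) (nat_lit 904667) (nat_lit 57009202) (nat_lit 7385607) [(nat_lit 904667), (nat_lit 0), (nat_lit 0)]) (PF.cons (PF.leaf (nat_lit 3576612) (nat_lit 958403) (nat_lit 55807490) (nat_lit 7467709) [(nat_lit 958403), (nat_lit 0), (nat_lit 0)]) (PF.cons (PF.leaf (nat_lit 4158897) (nat_lit 1005230) (nat_lit 54548858) (nat_lit 7533802) [(nat_lit 1005230), (nat_lit 0), (nat_lit 0)]) (PF.cons (PF.leaf (nat_lit 4767226) (nat_lit 1045755) (nat_lit 53251391) (nat_lit 7582890) [(nat_lit 1045755), (nat_lit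 0), (nat_lit 0)]) (PF.cons (PF.leaf (nat_lit 5394809) (nat_lit 1080498) (nat_lit 51930407) (nat_lit 7614919) [(nat_lit 1080498), (nat_lit 0), (nat_lit 0)]) (PF.cons (PF.leaf (nat_lit 6035735) (nat_lit 1109937) (nat_lit 50598851) (nat_lit 7630462)
 [(nat_lit 1109937), (nat_lit 0), (nat_lit 0)]) (PF.cons (PF.leaf (nat_lit 6684853) (nat_lit 1134526) (nat_lit 49267577) (nat_lit 7630500) [(nat_lit 1134526), (nat_lit 0), (nat_lit 0)]) (PF.cons (PF.leaf (nat_lit 7337748) (nat_lit 1154697) (nat_lit 47945577) (nat_lit 7616258) [(nat_lit 1154697), (nat_lit 0), (nat_lit 0)]) (PF.cons (PF.leaf (nat_lit 7990700) (nat_lit 1170866) (nat_lit 46640195) (nat_lit 7589086) [(nat_lit 1170866), (nat_lit 0), (nat_lit 0)]) (PF.cons (PF.leaf (nat_lit 8640564) (nat_lit 1183425) (nat_lit 45357321) (nat_lit 7550380) [(nat_lit 1183425), (nat_lit 0), (nat_lit 0)]) (PF.cons (PF.leaf (nat_lit 9284732) (nat_lit 1192746) (nat_lit 44101584) (nat_lit 7501519) [(nat_lit 1192746), (nat_lit 0),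 (nat_lit 0)]) (PF.cons (PF.leaf (nat_lit 9921093) (nat_lit 1199175) (nat_lit 42876519) (nat_lit 7443830) [(nat_lit 1199175), (nat_lit 0), (nat_lit 0)]) (PF.cons (PF.leaf (nat_lit 10547947) (nat_lit 1203034) (nat_lit 41684734) (nat_lit 7378561) [(nat_lit 1203034), (nat_lit 0), (nat_lit 0)]) (PF.cons PF.nil (PF.cons PF.nil (PF.cons PF.nil (PF.cons PF.nil PF.nil)))))))))))))))))))) (PF.cons (PF.cons (PF.leaf (nat_lit 2736955) (nat_lit 2898493) (nat_lit 56846560) (nat_lit
 7363759) [(nat_lit 0), (nat_lit 2898493), (nat_lit 0)]) (PF.cons (PF.leaf (nat_lit 3217648) (nat_lit 918075) (nat_lit 55769304) (nat_lit 7437958) [(nat_lit 918075), (nat_lit 2983475), (nat_lit 0)]) (PF.cons (PF.leaf (nat_lit 3743860) (nat_lit 969072) (nat_lit 54609312) (nat_lit 7501063) [(nat_lit 969072), (nat_lit 3060292), (nat_lit 0)]) (PF.cons (PF.leaf (nat_lit 4305293) (nat_lit 1013231) (nat_lit 53391140) (nat_lit 7550459) [(nat_lit 1013231), (nat_lit 3127518), (nat_lit 0)]) (PF.cons (PF.leaf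 (nat_lit 4893650) (nat_lit 1051258) (nat_lit 52134127) (nat_lit 7584978) [(nat_lit 1051258), (nat_lit 3184674), (nat_lit 0)]) (PF.cons (PF.leaf (nat_lit 5501926) (nat_lit 1083718) (nat_lit 50854000) (nat_lit 7604405) [(nat_lit 1083718), (nat_lit 3231816), (nat_lit 0)]) (PF.cons (PF.leaf (nat_lit 6124138) (nat_lit 1111105) (nat_lit 49563701) (nat_lit 7609153) [(nat_lit 1111105), (nat_lit 3269322), (nat_lit 0)]) (PF.cons (PF.leaf (nat_lit 6755175) (nat_lit 1133875) (nat_lit 48273885) (nat_lit 7600038) [(nat_lit 1133875), (nat_lit 3297761), (nat_lit 0)]) (PF.cons (PF.leaf (nat_lit 7390666) (nat_lit 1152451) (nat_lit 46993267) (nat_lit 7578123) [(nat_lit 1152451), (nat_lit 3317807), (nat_lit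
 0)]) (PF.cons (PF.leaf (nat_lit 8026938) (nat_lit 1167237) (nat_lit 45728895) (nat_lit 7544601) [(nat_lit 1167237), (nat_lit 3330183), (nat_lit 0)]) (PF.cons (PF.leaf (nat_lit 8660884) (nat_lit 1178608) (nat_lit 44486386) (nat_lit 7500713) [(nat_lit 1178608), (nat_lit 3335627), (nat_lit 0)]) (PF.cons (PF.leaf (nat_lit 9289967) (nat_lit 1186920) (nat_lit 43270127) (nat_lit 7447699) [(nat_lit 1186920), (nat_lit 3334864), (nat_lit 0)]) (PF.cons (PF.leaf (nat_lit 9912092) (nat_lit 1192500) (nat_lit 42083457) (nat_lit 7386753) [(nat_lit 1192500), (nat_lit 3328591), (nat_lit 0)]) (PF.cons (PF.leaf (nat_lit 10525558) (nat_lit 1195655) (nat_lit 40928829) (nat_lit 7319003) [(nat_lit 1195655), (nat_lit 3317463), (nat_lit 0)]) (PF.cons (PF.leaf (nat_lit 11129057) (nat_lit 1196662) (nat_lit 39807951) (nat_lit 7245495) [(nat_lit 1196662), (nat_lit 3302089), (nat_lit 0)]) (PF.cons PF.nil (PF.cons PF.nil (PF.cons PF.nil PF.nil)))))))))))))))))) (PF.cons (PF.cons (PF.leaf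 (nat_lit 3912538) (nat_lit 3091429) (nat_lit 53404277) (nat_lit 7521676) [(nat_lit 0), (nat_lit 3091429), (nat_lit 0)]) (PF.cons (PF.leaf (nat_lit 4450433) (nat_lit 1018281) (nat_lit 52236183) (nat_lit 7556231) [(nat_lit
 1018281), (nat_lit 3149058), (nat_lit 0)]) (PF.cons (PF.leaf (nat_lit 5017334) (nat_lit 1054346) (nat_lit 51026110) (nat_lit 7577874) [(nat_lit 1054346), (nat_lit 3198067), (nat_lit 0)]) (PF.cons (PF.leaf (nat_lit 5605512) (nat_lit 1084944) (nat_lit 49791255) (nat_lit 7586210) [(nat_lit 1084944), (nat_lit 3238256), (nat_lit 0)]) (PF.cons (PF.leaf (nat_lit 6208683) (nat_lit 1110621) (nat_lit 48545181) (nat_lit 7581491) [(nat_lit 1110621), (nat_lit 3269827), (nat_lit 0)]) (PF.cons (PF.leaf (nat_lit 6821596) (nat_lit 1131853) (nat_lit 47298744) (nat_lit 7564380) [(nat_lit 1131853), (nat_lit 3293211), (nat_lit 0)]) (PF.cons (PF.leaf (nat_lit 7439840) (nat_lit 1149070) (nat_lit 46060654) (nat_lit 7535792) [(nat_lit 1149070), (nat_lit 3308971),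 (nat_lit 0)]) (PF.cons (PF.leaf (nat_lit 8059713) (nat_lit 1162671) (nat_lit 44837864) (nat_lit 7496775) [(nat_lit 1162671), (nat_lit 3317737), (nat_lit 0)]) (PF.cons (PF.leaf (nat_lit 8678136) (nat_lit 1173022) (nat_lit 43635862) (nat_lit 7448437) [(nat_lit 1173022), (nat_lit 3320165), (nat_lit 0)]) (PF.cons (PF.leaf (nat_lit 9292549) (nat_lit 1180467) (nat_lit 42458908) (nat_lit 7391889) [(nat_lit 1180467), (nat_lit 3316904), (nat_lit 0)])
 (PF.cons (PF.leaf (nat_lit 9900870) (nat_lit 1185320) (nat_lit 41310228) (nat_lit 7328208) [(nat_lit 1185320), (nat_lit 3308585), (nat_lit 0)]) (PF.cons (PF.leaf (nat_lit 10501397) (nat_lit 1187873) (nat_lit 40192185) (nat_lit 7258415) [(nat_lit 1187873), (nat_lit 3295804), (nat_lit 0)]) (PF.cons (PF.leaf (nat_lit 11092800) (nat_lit 1188390) (nat_lit 39106426) (nat_lit 7183459) [(nat_lit 1188390), (nat_lit 3279119), (nat_lit 0)]) (PF.cons PF.nil (PF.cons PF.nil (PF.cons PF.nil PF.nil)))))))))))))))) (PF.cons (PF.cons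 (PF.leaf (nat_lit 5140918) (nat_lit 3207013) (nat_lit 49925401) (nat_lit 7562371) [(nat_lit 0), (nat_lit 3207013), (nat_lit 0)]) (PF.cons (PF.leaf (nat_lit 5707566) (nat_lit 1084212) (nat_lit 48740835) (nat_lit 7561025) [(nat_lit 1084212), (nat_lit 3240913), (nat_lit 0)]) (PF.cons (PF.leaf (nat_lit 6290979) (nat_lit 1108534) (nat_lit 47542236) (nat_lit 7548073) [(nat_lit 1108534), (nat_lit 3267144), (nat_lit 0)]) (PF.cons (PF.leaf (nat_lit 6885463) (nat_lit 1128514) (nat_lit 46341227) (nat_lit 7524037) [(nat_lit 1128514), (nat_lit 3286001), (nat_lit 0)]) (PF.cons (PF.leaf (nat_lit 7486413) (nat_lit 1144607) (nat_lit 45146871) (nat_lit 7489696) [(nat_lit 1144607),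
 (nat_lit 3297938), (nat_lit 0)]) (PF.cons (PF.leaf (nat_lit 8090023) (nat_lit 1157217) (nat_lit 43966263) (nat_lit 7445974) [(nat_lit 1157217), (nat_lit 3303495), (nat_lit 0)]) (PF.cons (PF.leaf (nat_lit 8693151) (nat_lit 1166712) (nat_lit 42804928) (nat_lit 7393856) [(nat_lit 1166712), (nat_lit 3303250), (nat_lit 0)]) (PF.cons (PF.leaf (nat_lit 9293201) (nat_lit 1173427) (nat_lit 41667120) (nat_lit 7334340) [(nat_lit 1173427), (nat_lit 3297786), (nat_lit 0)]) (PF.cons (PF.leaf (nat_lit 9888057) (nat_lit 1177668) (nat_lit 40556042) (nat_lit 7268401) [(nat_lit 1177668), (nat_lit 3287673), (nat_lit 0)]) (PF.cons (PF.leaf (nat_lit 10476000) (nat_lit 1179716) (nat_lit 39474037) (nat_lit 7196964) [(nat_lit 1179716), (nat_lit 3273454), (nat_lit 0)]) (PF.cons (PF.leaf (nat_lit 11055669) (nat_lit 1179826) (nat_lit 38422739) (nat_lit 7120892) [(nat_lit 1179826), (nat_lit 3255639), (nat_lit 0)]) (PF.cons PF.nil (PF.cons PF.nil (PF.cons PF.nil PF.nil)))))))))))))) (PF.cons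 (PF.cons (PF.leaf (nat_lit 6372914) (nat_lit 3261563) (nat_lit 46553175) (nat_lit 7509384) [(nat_lit 0), (nat_lit 3261563), (nat_lit 0)]) (PF.cons (PF.leaf (nat_lit 6948225) (nat_lit 1123883) (nat_lit 45400001) (nat_lit
 7479429) [(nat_lit 1123883), (nat_lit 3276374), (nat_lit 0)]) (PF.cons (PF.leaf (nat_lit 7531574) (nat_lit 1139093) (nat_lit 44250783) (nat_lit 7440198) [(nat_lit 1139093), (nat_lit 3284911), (nat_lit 0)]) (PF.cons (PF.leaf (nat_lit 8118853) (nat_lit 1150910) (nat_lit 43113073) (nat_lit 7392502) [(nat_lit 1150910), (nat_lit 3287626), (nat_lit 0)]) (PF.cons (PF.leaf (nat_lit 8706766) (nat_lit 1159710) (nat_lit 41992643) (nat_lit 7337225) [(nat_lit 1159710), (nat_lit 3285025), (nat_lit 0)]) (PF.cons (PF.leaf (nat_lit 9292633) (nat_lit 1165829) (nat_lit 40893878) (nat_lit 7275266) [(nat_lit 1165829), (nat_lit 3277630), (nat_lit 0)]) (PF.cons (PF.leaf (nat_lit 9874265) (nat_lit 1169570) (nat_lit 39820062) (nat_lit 7207508) [(nat_lit 1169570),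 (nat_lit 3265954), (nat_lit 0)]) (PF.cons (PF.leaf (nat_lit 10449894) (nat_lit 1171207) (nat_lit 38773589) (nat_lit 7134793) [(nat_lit 1171207), (nat_lit 3250493), (nat_lit 0)]) (PF.cons (PF.leaf (nat_lit 11018113) (nat_lit 1170988) (nat_lit 37756135) (nat_lit 7057910) [(nat_lit 1170988), (nat_lit 3231714), (nat_lit 0)]) (PF.cons PF.nil (PF.cons PF.nil (PF.cons PF.nil PF.nil)))))))))))) (PF.cons (PF.cons (PF.leaf (nat_lit 7576697) (nat_lit
 3270062) (nat_lit 43370914) (nat_lit 7387586) [(nat_lit 0), (nat_lit 3270062), (nat_lit 0)]) (PF.cons (PF.leaf (nat_lit 8147259) (nat_lit 1143762) (nat_lit 42277057) (nat_lit 7336610) [(nat_lit 1143762), (nat_lit 3270276), (nat_lit 0)]) (PF.cons (PF.leaf (nat_lit 8719860) (nat_lit 1152032) (nat_lit 41197921) (nat_lit 7278755) [(nat_lit 1152032), (nat_lit 3265614), (nat_lit 0)]) (PF.cons (PF.leaf (nat_lit 9291580) (nat_lit 1157691) (nat_lit 40138205) (nat_lit 7214841) [(nat_lit 1157691), (nat_lit 3256538), (nat_lit 0)])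 (PF.cons (PF.leaf (nat_lit 9860111) (nat_lit 1161043) (nat_lit 39101392) (nat_lit 7145673) [(nat_lit 1161043), (nat_lit 3243514), (nat_lit 0)]) (PF.cons (PF.leaf (nat_lit 10423604) (nat_lit 1162362) (nat_lit 38090012) (nat_lit 7072020) [(nat_lit 1162362), (nat_lit 3226993), (nat_lit 0)]) (PF.cons (PF.leaf (nat_lit 10980578) (nat_lit 1161890) (nat_lit 37105843) (nat_lit 6994607) [(nat_lit 1161890), (nat_lit 3207403), (nat_lit 0)]) (PF.cons (PF.leaf (nat_lit 11529853) (nat_lit 1159847) (nat_lit 36150061) (nat_lit 6914099) [(nat_lit 1159847), (nat_lit 3185143), (nat_lit 0)]) (PF.cons PF.nil (PF.cons PF.nil PF.nil)))))))))) (PF.cons (PF.cons (PF.leaf (nat_lit 8733434)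
 (nat_lit 3245117) (nat_lit 40419497) (nat_lit 7218612) [(nat_lit 0), (nat_lit 3245117), (nat_lit 0)]) (PF.cons (PF.leaf (nat_lit 9290806) (nat_lit 1149019) (nat_lit 39399008) (nat_lit 7153207) [(nat_lit 1149019), (nat_lit 3234596), (nat_lit 0)]) (PF.cons (PF.leaf (nat_lit 9846230) (nat_lit 1152096) (nat_lit 38399062) (nat_lit 7083012) [(nat_lit 1152096), (nat_lit 3220423), (nat_lit 0)]) (PF.cons (PF.leaf (nat_lit 10397656) (nat_lit 1153189) (nat_lit 37422431) (nat_lit 7008740) [(nat_lit 1153189), (nat_lit 3203011), (nat_lit 0)]) (PF.cons (PF.leaf (nat_lit 10943506) (nat_lit 1152542) (nat_lit 36471064) (nat_lit 6931059) [(nat_lit 1152542), (nat_lit 3182753), (nat_lit 0)]) (PF.cons (PF.leaf (nat_lit 11482519) (nat_lit 1150370) (nat_lit 35546270) (nat_lit 6850584) [(nat_lit 1150370), (nat_lit 3160017), (nat_lit 0)]) (PF.cons PF.nil (PF.cons PF.nil PF.nil)))))))) (PF.cons (PF.cons (PF.leaf (nat_lit 9833363) (nat_lit 3196741) (nat_lit 37712008) (nat_lit 7019613)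 [(nat_lit 0), (nat_lit 3196741), (nat_lit 0)]) (PF.cons (PF.leaf (nat_lit 10372606) (nat_lit 1143689) (nat_lit 36769912) (nat_lit 6945025) [(nat_lit 1143689), (nat_lit 3178597), (nat_lit 0)]) (PF.cons (PF.leaf (nat_lit
 10907355) (nat_lit 1142943) (nat_lit 35850964) (nat_lit 6867324) [(nat_lit 1142943), (nat_lit 3157805), (nat_lit 0)]) (PF.cons (PF.leaf (nat_lit 11436177) (nat_lit 1140707) (nat_lit 34956668) (nat_lit 6787085) [(nat_lit 1140707), (nat_lit 3134705), (nat_lit 0)]) (PF.cons PF.nil (PF.cons PF.nil PF.nil)))))) (PF.cons (PF.cons (PF.leaf (nat_lit 10872676) (nat_lit 3132588) (nat_lit 35244660) (nat_lit 6803441) [(nat_lit 0), (nat_lit 3132588), (nat_lit 0)]) (PF.cons (PF.leaf (nat_lit 11391228) (nat_lit 1130855) (nat_lit 34380472) (nat_lit 6723633) [(nat_lit 1130855), (nat_lit 3109231), (nat_lit 0)]) (PF.cons (PF.leaf (nat_lit 11903722) (nat_lit 1127340) (nat_lit 33540036) (nat_lit 6641992) [(nat_lit 1127340), (nat_lit 3084012), (nat_lit 0)]) (PF.cons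 PF.nil PF.nil)))) (PF.cons (PF.cons (PF.leaf (nat_lit 11851276) (nat_lit 3058350) (nat_lit 33004293) (nat_lit 6579362) [(nat_lit 0), (nat_lit 3058350), (nat_lit 0)]) (PF.cons PF.nil PF.nil)) (PF.cons PF.nil (PF.cons PF.nil (PF.cons PF.nil PF.nil))))))))))))) (PF.cons (PF.cons (PF.cons (PF.leaf (nat_lit 3492094) (nat_lit 6506556) (nat_lit 53164528) (nat_lit 7437727) [(nat_lit 0), (nat_lit 0), (nat_lit 6506556)]) (PF.cons (PF.leaf (nat_lit
 3974524) (nat_lit 959298) (nat_lit 52123027) (nat_lit 7474634) [(nat_lit 959298), (nat_lit 0), (nat_lit 6551853)]) (PF.cons (PF.leaf (nat_lit 4496656) (nat_lit 1002805) (nat_lit 51014359) (nat_lit 7501231) [(nat_lit 1002805), (nat_lit 0), (nat_lit 6587609)]) (PF.cons (PF.leaf (nat_lit 5048440) (nat_lit 1039538) (nat_lit 49861700) (nat_lit 7516118) [(nat_lit 1039538), (nat_lit 0), (nat_lit 6612377)]) (PF.cons (PF.leaf (nat_lit 5622131) (nat_lit 1070447) (nat_lit 48682491) (nat_lit 7518858) [(nat_lit 1070447), (nat_lit 0),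 (nat_lit 6625674)]) (PF.cons (PF.leaf (nat_lit 6211410) (nat_lit 1096239) (nat_lit 47490359) (nat_lit 7509629) [(nat_lit 1096239), (nat_lit 0), (nat_lit 6627626)]) (PF.cons (PF.leaf (nat_lit 6811048) (nat_lit 1117490) (nat_lit 46296122) (nat_lit 7489005) [(nat_lit 1117490), (nat_lit 0), (nat_lit 6618742)]) (PF.cons (PF.leaf (nat_lit 7416653) (nat_lit 1134690) (nat_lit 45108417) (nat_lit 7457797) [(nat_lit 1134690), (nat_lit 0), (nat_lit 6599761)]) (PF.cons (PF.leaf (nat_lit 8024554) (nat_lit 1148273) (nat_lit 43934113) (nat_lit 7416954) [(nat_lit 1148273), (nat_lit 0), (nat_lit 6571554)]) (PF.cons (PF.leaf (nat_lit 8631700) (nat_lit 1158628) (nat_lit 42778624)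
 (nat_lit 7367481) [(nat_lit 1158628), (nat_lit 0), (nat_lit 6535050)]) (PF.cons (PF.leaf (nat_lit 9235542) (nat_lit 1166107) (nat_lit 41646154) (nat_lit 7310394) [(nat_lit 1166107), (nat_lit 0), (nat_lit 6491188)]) (PF.cons (PF.leaf (nat_lit 9833993) (nat_lit 1171031) (nat_lit 40539899) (nat_lit 7246683) [(nat_lit 1171031), (nat_lit 0), (nat_lit 6440885)]) (PF.cons (PF.leaf (nat_lit 10425385) (nat_lit 1173691) (nat_lit 39462217) (nat_lit 7177288) [(nat_lit 1173691), (nat_lit 0), (nat_lit 6385014)]) (PF.cons (PF.leaf (nat_lit 11008338) (nat_lit 1174351) (nat_lit 38414768) (nat_lit 7103086) [(nat_lit 1174351), (nat_lit 0), (nat_lit 6324391)]) (PF.cons PF.nil (PF.cons PF.nil PF.nil)))))))))))))))) (PF.cons (PF.cons (PF.leaf (nat_lit 4639707) (nat_lit 3136812) (nat_lit 49895353) (nat_lit 7490909) [(nat_lit 0), (nat_lit 3136812), (nat_lit 6585736)]) (PF.cons (PF.leaf (nat_lit 5167733) (nat_lit 1039069) (nat_lit 48796558) (nat_lit 7495807) [(nat_lit 1039069), (nat_lit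 3176689), (nat_lit 6600688)]) (PF.cons (PF.leaf (nat_lit 5720294) (nat_lit 1068806) (nat_lit 47666607) (nat_lit 7489961) [(nat_lit 1068806), (nat_lit 3209054), (nat_lit 6605576)]) (PF.cons (PF.leaf (nat_lit 6290231)
 (nat_lit 1093434) (nat_lit 46520751) (nat_lit 7473424) [(nat_lit 1093434), (nat_lit 3233959), (nat_lit 6600373)]) (PF.cons (PF.leaf (nat_lit 6871901) (nat_lit 1113592) (nat_lit 45370612) (nat_lit 7446649) [(nat_lit 1113592), (nat_lit 3251725), (nat_lit 6585456)]) (PF.cons (PF.leaf (nat_lit 7460706) (nat_lit 1129800) (nat_lit 44225214) (nat_lit 7410337) [(nat_lit 1129800), (nat_lit 3262813), (nat_lit 6561445)]) (PF.cons (PF.leaf (nat_lit 8052851) (nat_lit 1142504) (nat_lit 43091604) (nat_lit 7365325) [(nat_lit 1142504), (nat_lit 3267757), (nat_lit 6529101)]) (PF.cons (PF.leaf (nat_lit 8645190) (nat_lit 1152094) (nat_lit 41975265) (nat_lit 7312515) [(nat_lit 1152094), (nat_lit 3267119), (nat_lit 6489249)]) (PF.cons (PF.leaf (nat_lit 9235147) (nat_lit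 1158921) (nat_lit 40880422) (nat_lit 7252822) [(nat_lit 1158921), (nat_lit 3261466), (nat_lit 6442732)]) (PF.cons (PF.leaf (nat_lit 9820585) (nat_lit 1163296) (nat_lit 39810269) (nat_lit 7187145) [(nat_lit 1163296), (nat_lit 3251343), (nat_lit 6390380)]) (PF.cons (PF.leaf (nat_lit 10399813) (nat_lit 1165505) (nat_lit 38767160) (nat_lit 7116340) [(nat_lit 1165505), (nat_lit 3237273), (nat_lit 6332986)]) (PF.cons (PF.leaf (nat_lit
 10971420) (nat_lit 1165801) (nat_lit 37752755) (nat_lit 7041206) [(nat_lit 1165801), (nat_lit 3219743), (nat_lit 6271294)]) (PF.cons PF.nil (PF.cons PF.nil PF.nil)))))))))))))) (PF.cons (PF.cons (PF.leaf (nat_lit 5820004) (nat_lit 3206606) (nat_lit 46660316) (nat_lit 7455219) [(nat_lit 0), (nat_lit 3206606), (nat_lit 6580064)]) (PF.cons (PF.leaf (nat_lit 6369202) (nat_lit 1089084) (nat_lit 45564464) (nat_lit 7432445) [(nat_lit 1089084), (nat_lit 3227073), (nat_lit 6568672)]) (PF.cons (PF.leaf (nat_lit 6932186) (nat_lit 1108451) (nat_lit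 44460696) (nat_lit 7400441) [(nat_lit 1108451), (nat_lit 3241108), (nat_lit 6548555)]) (PF.cons (PF.leaf (nat_lit 7503830) (nat_lit 1123904) (nat_lit 43358925) (nat_lit 7359811) [(nat_lit 1123904), (nat_lit 3249065), (nat_lit 6520230)]) (PF.cons (PF.leaf (nat_lit 8080087) (nat_lit 1135920) (nat_lit 42266677) (nat_lit 7311299) [(nat_lit 1135920), (nat_lit 3251398), (nat_lit 6484358)]) (PF.cons (PF.leaf (nat_lit 8657658) (nat_lit 1144902) (nat_lit 41189704) (nat_lit 7255718) [(nat_lit 1144902), (nat_lit 3248599), (nat_lit 6441677)]) (PF.cons (PF.leaf (nat_lit 9233858) (nat_lit 1151205) (nat_lit 40132385) (nat_lit 7193898) [(nat_lit 1151205), (nat_lit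
 3241176), (nat_lit 6392945)]) (PF.cons (PF.leaf (nat_lit 9806484) (nat_lit 1155140) (nat_lit 39098008) (nat_lit 7126657) [(nat_lit 1155140), (nat_lit 3229625), (nat_lit 6338914)]) (PF.cons (PF.leaf (nat_lit 10373773) (nat_lit 1156986) (nat_lit 38088992) (nat_lit 7054776) [(nat_lit 1156986), (nat_lit 3214423), (nat_lit 6280307)]) (PF.cons (PF.leaf (nat_lit 10934276) (nat_lit 1156992) (nat_lit 37107047) (nat_lit 6978989) [(nat_lit 1156992), (nat_lit 3196018), (nat_lit 6217805)]) (PF.cons PF.nil (PF.cons PF.nil PF.nil)))))))))))) (PF.cons (PF.cons (PF.leaf (nat_lit 6993571) (nat_lit 3228450) (nat_lit 43564490) (nat_lit 7350659) [(nat_lit 0), (nat_lit 3228450), (nat_lit 6508310)]) (PF.cons (PF.leaf (nat_lit 7547280) (nat_lit 1116997) (nat_lit 42508071) (nat_lit 7306467) [(nat_lit 1116997), (nat_lit 3233641), (nat_lit 6476352)]) (PF.cons (PF.leaf (nat_lit 8107284) (nat_lit 1128527) (nat_lit 41458101) (nat_lit 7255092) [(nat_lit 1128527), (nat_lit 3233677), (nat_lit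 6437532)]) (PF.cons (PF.leaf (nat_lit 8669939) (nat_lit 1137063) (nat_lit 40420871) (nat_lit 7197275) [(nat_lit 1137063), (nat_lit 3228988), (nat_lit 6392509)]) (PF.cons (PF.leaf (nat_lit 9232373) (nat_lit 1142972) (nat_lit
 39401086) (nat_lit 7133775) [(nat_lit 1142972), (nat_lit 3220028), (nat_lit 6341972)]) (PF.cons (PF.leaf (nat_lit 9792267) (nat_lit 1146574) (nat_lit 38402244) (nat_lit 7065344) [(nat_lit 1146574), (nat_lit 3207247), (nat_lit 6286607)]) (PF.cons (PF.leaf (nat_lit 10347757) (nat_lit 1148146) (nat_lit 37426908) (nat_lit 6992700) [(nat_lit 1148146), (nat_lit 3191082), (nat_lit 6227076)]) (PF.cons (PF.leaf (nat_lit 10897332) (nat_lit 1147937) (nat_lit 36476898) (nat_lit 6916519) [(nat_lit 1147937), (nat_lit 3171944), (nat_lit 6164003)]) (PF.cons (PF.leaf (nat_lit 11439795) (nat_lit 1146165) (nat_lit 35553444) (nat_lit 6837424) [(nat_lit 1146165), (nat_lit 3150218), (nat_lit 6097968)]) (PF.cons PF.nil PF.nil)))))))))) (PF.cons (PF.cons (PF.leaf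 (nat_lit 8135651) (nat_lit 3214700) (nat_lit 40664369) (nat_lit 7196862) [(nat_lit 0), (nat_lit 3214700), (nat_lit 6388778)]) (PF.cons (PF.leaf (nat_lit 8682942) (nat_lit 1128571) (nat_lit 39667521) (nat_lit 7137324) [(nat_lit 1128571), (nat_lit 3208378), (nat_lit 6341882)]) (PF.cons (PF.leaf (nat_lit 9231437) (nat_lit 1134225) (nat_lit 38685455) (nat_lit 7072574) [(nat_lit 1134225), (nat_lit 3198100), (nat_lit 6289931)]) (PF.cons (PF.leaf
 (nat_lit 9778548) (nat_lit 1137603) (nat_lit 37722034) (nat_lit 7003308) [(nat_lit 1137603), (nat_lit 3184275), (nat_lit 6233557)]) (PF.cons (PF.leaf (nat_lit 10322275) (nat_lit 1138992) (nat_lit 36780064) (nat_lit 6930195) [(nat_lit 1138992), (nat_lit 3167303), (nat_lit 6173372)]) (PF.cons (PF.leaf (nat_lit 10861007) (nat_lit 1138640) (nat_lit 35861539) (nat_lit 6853860) [(nat_lit 1138640), (nat_lit 3147564), (nat_lit 6109951)]) (PF.cons (PF.leaf (nat_lit 11393474) (nat_lit 1136766) (nat_lit 34967827) (nat_lit 6774885)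 [(nat_lit 1136766), (nat_lit 3125416), (nat_lit 6043834)]) (PF.cons PF.nil PF.nil)))))))) (PF.cons (PF.cons (PF.leaf (nat_lit 9231921) (nat_lit 3175450) (nat_lit 37984277) (nat_lit 7010378) [(nat_lit 0), (nat_lit 3175450), (nat_lit 6236905)]) (PF.cons (PF.leaf (nat_lit 9765980) (nat_lit 1128222) (nat_lit 37056343) (nat_lit 6940621) [(nat_lit 1128222), (nat_lit 3160757), (nat_lit 6179836)]) (PF.cons (PF.leaf (nat_lit 10297861) (nat_lit 1129520) (nat_lit 36147554) (nat_lit 6867319) [(nat_lit 1129520), (nat_lit 3143128), (nat_lit 6119254)]) (PF.cons (PF.leaf (nat_lit 10825751) (nat_lit 1129102) (nat_lit 35260167) (nat_lit 6791063) [(nat_lit 1129102), (nat_lit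
 3122915), (nat_lit 6055700)]) (PF.cons (PF.leaf (nat_lit 11348261) (nat_lit 1127188) (nat_lit 34395742) (nat_lit 6712395) [(nat_lit 1127188), (nat_lit 3100449), (nat_lit 5989675)]) (PF.cons PF.nil PF.nil)))))) (PF.cons (PF.cons (PF.leaf (nat_lit 10275167) (nat_lit 3118590) (nat_lit 35528393) (nat_lit 6804111) [(nat_lit 0), (nat_lit 3118590), (nat_lit 6064764)]) (PF.cons (PF.leaf (nat_lit 10792026) (nat_lit 1119315) (nat_lit 34671927) (nat_lit 6728157) [(nat_lit 1119315), (nat_lit 3098021), (nat_lit 6001281)]) (PF.cons (PF.leaf (nat_lit 11304540) (nat_lit 1117426) (nat_lit 33836435) (nat_lit 6649978) [(nat_lit 1117426), (nat_lit 3075338), (nat_lit 5935516)]) (PF.cons PF.nil PF.nil)))) (PF.cons (PF.cons (PF.leaf (nat_lit 11262797) (nat_lit 3050098) (nat_lit 33289110) (nat_lit 6587643) [(nat_lit 0), (nat_lit 3050098), (nat_lit 5881369)]) (PF.cons (PF.leaf (nat_lit 11760406) (nat_lit 1104388) (nat_lit 32502619) (nat_lit 6508503) [(nat_lit 1104388), (nat_lit 3025570),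 (nat_lit 5814309)]) PF.nil)) (PF.cons PF.nil (PF.cons PF.nil (PF.cons PF.nil PF.nil))))))))))) (PF.cons (PF.cons (PF.cons (PF.leaf (nat_lit 5311141) (nat_lit 6518960) (nat_lit 46675714) (nat_lit 7395177) [(nat_lit 0),
 (nat_lit 0), (nat_lit 6518960)]) (PF.cons (PF.leaf (nat_lit 5826651) (nat_lit 1047828) (nat_lit 45653680) (nat_lit 7379284) [(nat_lit 1047828), (nat_lit 0), (nat_lit 6514009)]) (PF.cons (PF.leaf (nat_lit 6363254) (nat_lit 1072515) (nat_lit 44608092) (nat_lit 7354425) [(nat_lit 1072515), (nat_lit 0), (nat_lit 6500631)]) (PF.cons (PF.leaf (nat_lit 6914317) (nat_lit 1092451) (nat_lit 43552408) (nat_lit 7320930) [(nat_lit 1092451), (nat_lit 0), (nat_lit 6479059)]) (PF.cons (PF.leaf (nat_lit 7474740) (nat_lit 1108325) (nat_lit 42496616) (nat_lit 7279357) [(nat_lit 1108325), (nat_lit 0), (nat_lit 6449769)]) (PF.cons (PF.leaf (nat_lit 8040442) (nat_lit 1120674) (nat_lit 41448287) (nat_lit 7230397) [(nat_lit 1120674), (nat_lit 0), (nat_lit 6413377)])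 (PF.cons (PF.leaf (nat_lit 8608116) (nat_lit 1129944) (nat_lit 40413200) (nat_lit 7174804) [(nat_lit 1129944), (nat_lit 0), (nat_lit 6370569)]) (PF.cons (PF.leaf (nat_lit 9175067) (nat_lit 1136512) (nat_lit 39395760) (nat_lit 7113352) [(nat_lit 1136512), (nat_lit 0), (nat_lit 6322054)]) (PF.cons (PF.leaf (nat_lit 9739081) (nat_lit 1140705) (nat_lit 38399289) (nat_lit 7046803) [(nat_lit 1140705), (nat_lit 0), (nat_lit 6268537)]) (PF.cons
 (PF.leaf (nat_lit 10298369) (nat_lit 1142810) (nat_lit 37426243) (nat_lit 6975887) [(nat_lit 1142810), (nat_lit 0), (nat_lit 6210693)]) (PF.cons (PF.leaf (nat_lit 10851478) (nat_lit 1143081) (nat_lit 36478383) (nat_lit 6901292) [(nat_lit 1143081), (nat_lit 0), (nat_lit 6149162)]) (PF.cons PF.nil (PF.cons PF.nil (PF.cons PF.nil PF.nil)))))))))))))) (PF.cons (PF.cons (PF.leaf (nat_lit 6442787) (nat_lit 3181194) (nat_lit 43693448) (nat_lit 7307485) [(nat_lit 0), (nat_lit 3181194), (nat_lit 6463342)]) (PF.cons (PF.leaf (nat_lit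 6974103) (nat_lit 1085602) (nat_lit 42685553) (nat_lit 7270193) [(nat_lit 1085602), (nat_lit 3191746), (nat_lit 6437858)]) (PF.cons (PF.leaf (nat_lit 7516977) (nat_lit 1101103) (nat_lit 41673559) (nat_lit 7225501) [(nat_lit 1101103), (nat_lit 3196866), (nat_lit 6405338)]) (PF.cons (PF.leaf (nat_lit 8066766) (nat_lit 1113063) (nat_lit 40665976) (nat_lit 7174044) [(nat_lit 1113063), (nat_lit 3196937), (nat_lit 6366331)]) (PF.cons (PF.leaf (nat_lit 8619868) (nat_lit 1121965) (nat_lit 39669133) (nat_lit 7116514) [(nat_lit 1121965), (nat_lit 3192394), (nat_lit 6321455)]) (PF.cons (PF.leaf (nat_lit 9173389) (nat_lit 1128202) (nat_lit 38687771) (nat_lit 7053624)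
 [(nat_lit 1128202), (nat_lit 3183684), (nat_lit 6271359)]) (PF.cons (PF.leaf (nat_lit 9724990) (nat_lit 1132113) (nat_lit 37725429) (nat_lit 6986079) [(nat_lit 1132113), (nat_lit 3171251), (nat_lit 6216686)]) (PF.cons (PF.leaf (nat_lit 10272784) (nat_lit 1133985) (nat_lit 36784715) (nat_lit 6914553) [(nat_lit 1133985), (nat_lit 3155522), (nat_lit 6158060)]) (PF.cons (PF.leaf (nat_lit 10815244) (nat_lit 1134073) (nat_lit 35867503) (nat_lit 6839681) [(nat_lit 1134073), (nat_lit 3136898), (nat_lit 6096069)]) (PF.cons (PF.leaf (nat_lit 11351151) (nat_lit 1132600) (nat_lit 34975081) (nat_lit 6762050) [(nat_lit 1132600), (nat_lit 3115751), (nat_lit 6031261)]) (PF.cons PF.nil (PF.cons PF.nil PF.nil)))))))))))) (PF.cons (PF.cons (PF.leaf (nat_lit 7561443) (nat_lit 3179540) (nat_lit 40863248) (nat_lit 7169228) [(nat_lit 0), (nat_lit 3179540), (nat_lit 6358627)]) (PF.cons (PF.leaf (nat_lit 8094507) (nat_lit 1104642) (nat_lit 39897723) (nat_lit 7115851) [(nat_lit 1104642),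 (nat_lit 3177772), (nat_lit 6317525)]) (PF.cons (PF.leaf (nat_lit 8632613) (nat_lit 1113348) (nat_lit 38939761) (nat_lit 7056863) [(nat_lit 1113348), (nat_lit 3171728), (nat_lit 6271016)]) (PF.cons (PF.leaf (nat_lit
 9172491) (nat_lit 1119392) (nat_lit 37994674) (nat_lit 6992933) [(nat_lit 1119392), (nat_lit 3161812), (nat_lit 6219700)]) (PF.cons (PF.leaf (nat_lit 9711597) (nat_lit 1123128) (nat_lit 37066370) (nat_lit 6924720) [(nat_lit 1123128), (nat_lit 3148428), (nat_lit 6164175)]) (PF.cons (PF.leaf (nat_lit 10247903) (nat_lit 1124856) (nat_lit 36157702) (nat_lit 6852855) [(nat_lit 1124856), (nat_lit 3131968), (nat_lit 6105017)]) (PF.cons (PF.leaf (nat_lit 10779777) (nat_lit 1124833) (nat_lit 35270723) (nat_lit 6777930) [(nat_lit 1124833), (nat_lit 3112804), (nat_lit 6042774)]) (PF.cons (PF.leaf (nat_lit 11305916) (nat_lit 1123283) (nat_lit 34406858) (nat_lit 6700493) [(nat_lit 1123283), (nat_lit 3091283), (nat_lit 5977955)]) (PF.cons PF.nil (PF.cons PF.nil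 PF.nil)))))))))) (PF.cons (PF.cons (PF.leaf (nat_lit 8647434) (nat_lit 3150200) (nat_lit 38223627) (nat_lit 6995924) [(nat_lit 0), (nat_lit 3150200), (nat_lit 6219330)]) (PF.cons (PF.leaf (nat_lit 9173166) (nat_lit 1110062) (nat_lit 37315283) (nat_lit 6931345) [(nat_lit 1110062), (nat_lit 3139273), (nat_lit 6167149)]) (PF.cons (PF.leaf (nat_lit 9699538) (nat_lit 1113741) (nat_lit 36421106) (nat_lit 6862786) [(nat_lit 1113741), (nat_lit
 3125103), (nat_lit 6111063)]) (PF.cons (PF.leaf (nat_lit 10224242) (nat_lit 1115417) (nat_lit 35544330) (nat_lit 6790844) [(nat_lit 1115417), (nat_lit 3108051), (nat_lit 6051615)]) (PF.cons (PF.leaf (nat_lit 10745496) (nat_lit 1115357) (nat_lit 34687269) (nat_lit 6716081) [(nat_lit 1115357), (nat_lit 3088464), (nat_lit 5989318)]) (PF.cons (PF.leaf (nat_lit 11261891) (nat_lit 1113791) (nat_lit 33851541) (nat_lit 6639013) [(nat_lit 1113791), (nat_lit 3066666), (nat_lit 5924650)]) (PF.cons PF.nil (PF.cons PF.nil PF.nil))))))))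 (PF.cons (PF.cons (PF.leaf (nat_lit 9689600) (nat_lit 3101307) (nat_lit 35788503) (nat_lit 6800306) [(nat_lit 0), (nat_lit 3101307), (nat_lit 6057386)]) (PF.cons (PF.leaf (nat_lit 10202371) (nat_lit 1105654) (nat_lit 34943643) (nat_lit 6728549) [(nat_lit 1105654), (nat_lit 3083798), (nat_lit 5997885)]) (PF.cons (PF.leaf (nat_lit 10712865) (nat_lit 1105637) (nat_lit 34116315) (nat_lit 6654157) [(nat_lit 1105637), (nat_lit 3063901), (nat_lit 5935728)]) (PF.cons (PF.leaf (nat_lit 11219454) (nat_lit 1104117) (nat_lit 33308406) (nat_lit 6577627) [(nat_lit 1104117), (nat_lit 3041921), (nat_lit 5871368)]) (PF.cons PF.nil (PF.cons PF.nil PF.nil)))))) (PF.cons (PF.cons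
 (PF.leaf (nat_lit 10682465) (nat_lit 3039131) (nat_lit 33556966) (nat_lit 6592163) [(nat_lit 0), (nat_lit 3039131), (nat_lit 5882012)]) (PF.cons (PF.leaf (nat_lit 11179010) (nat_lit 1094251) (nat_lit 32776682) (nat_lit 6516340) [(nat_lit 1094251), (nat_lit 3017060), (nat_lit 5818117)]) (PF.cons (PF.leaf (nat_lit 11671394) (nat_lit 1091543) (nat_lit 32015265) (nat_lit 6438939) [(nat_lit 1091543), (nat_lit 2993283), (nat_lit 5752552)]) (PF.cons PF.nil PF.nil)))) (PF.cons (PF.cons (PF.leaf (nat_lit 11624228) (nat_lit 2968388) (nat_lit 31519724) (nat_lit 6378692) [(nat_lit 0), (nat_lit 2968388), (nat_lit 5700030)]) (PF.cons PF.nil PF.nil)) (PF.cons PF.nil (PF.cons PF.nil (PF.cons PF.nil PF.nil)))))))))) (PF.cons (PF.cons (PF.cons (PF.leaf (nat_lit 7016158) (nat_lit 6322573) (nat_lit 41005779) (nat_lit 7135311) [(nat_lit 0), (nat_lit 0), (nat_lit 6322573)]) (PF.cons (PF.leaf (nat_lit 7529807) (nat_lit 1076284) (nat_lit 40081514) (nat_lit 7088404) [(nat_lit 1076284),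 (nat_lit 0), (nat_lit 6287536)]) (PF.cons (PF.leaf (nat_lit 8053336) (nat_lit 1088750) (nat_lit 39155479) (nat_lit 7035511) [(nat_lit 1088750), (nat_lit 0), (nat_lit 6246773)]) (PF.cons (PF.leaf (nat_lit 8582502) (nat_lit
 1098000) (nat_lit 38235038) (nat_lit 6977264) [(nat_lit 1098000), (nat_lit 0), (nat_lit 6200835)]) (PF.cons (PF.leaf (nat_lit 9114061) (nat_lit 1104510) (nat_lit 37325575) (nat_lit 6914302) [(nat_lit 1104510), (nat_lit 0), (nat_lit 6150297)]) (PF.cons (PF.leaf (nat_lit 9645441) (nat_lit 1108663) (nat_lit 36431062) (nat_lit 6847253) [(nat_lit 1108663), (nat_lit 0), (nat_lit 6095726)]) (PF.cons (PF.leaf (nat_lit 10174580) (nat_lit 1110775) (nat_lit 35554418) (nat_lit 6776716) [(nat_lit 1110775), (nat_lit 0), (nat_lit 6037675)]) (PF.cons (PF.leaf (nat_lit 10699826) (nat_lit 1111115) (nat_lit 34697759) (nat_lit 6703253) [(nat_lit 1111115), (nat_lit 0), (nat_lit 5976664)]) (PF.cons (PF.leaf (nat_lit 11219854) (nat_lit 1109914) (nat_lit 33862577)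 (nat_lit 6627386) [(nat_lit 1109914), (nat_lit 0), (nat_lit 5913178)]) (PF.cons PF.nil PF.nil)))))))))) (PF.cons (PF.cons (PF.leaf (nat_lit 8083877) (nat_lit 3120483) (nat_lit 38423041) (nat_lit 6975850) [(nat_lit 0), (nat_lit 3120483), (nat_lit 6196479)]) (PF.cons (PF.leaf (nat_lit 8597454) (nat_lit 1088607) (nat_lit 37541099) (nat_lit 6916826) [(nat_lit 1088607), (nat_lit 3113701), (nat_lit 6149526)]) (PF.cons (PF.leaf (nat_lit 9115160)
 (nat_lit 1095133) (nat_lit 36667014) (nat_lit 6853375) [(nat_lit 1095133), (nat_lit 3103340), (nat_lit 6098271)]) (PF.cons (PF.leaf (nat_lit 9634026) (nat_lit 1099275) (nat_lit 35805334) (nat_lit 6786105) [(nat_lit 1099275), (nat_lit 3089771), (nat_lit 6043258)]) (PF.cons (PF.leaf (nat_lit 10151778) (nat_lit 1101371) (nat_lit 34959355) (nat_lit 6715587) [(nat_lit 1101371), (nat_lit 3073358), (nat_lit 5985008)]) (PF.cons (PF.leaf (nat_lit 10666608) (nat_lit 1101703) (nat_lit 34131455) (nat_lit 6642359) [(nat_lit 1101703),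 (nat_lit 3054442), (nat_lit 5924012)]) (PF.cons (PF.leaf (nat_lit 11177077) (nat_lit 1100507) (nat_lit 33323318) (nat_lit 6566913) [(nat_lit 1100507), (nat_lit 3033345), (nat_lit 5860729)]) (PF.cons PF.nil PF.nil)))))))) (PF.cons (PF.cons (PF.leaf (nat_lit 9119005) (nat_lit 3080351) (nat_lit 36020078) (nat_lit 6791655) [(nat_lit 0), (nat_lit 3080351), (nat_lit 6045458)]) (PF.cons (PF.leaf (nat_lit 9624813) (nat_lit 1089464) (nat_lit 35191605) (nat_lit 6724467) [(nat_lit 1089464), (nat_lit 3066221), (nat_lit 5990277)]) (PF.cons (PF.leaf (nat_lit 10130890) (nat_lit 1091646) (nat_lit 34376343) (nat_lit 6654215) [(nat_lit 1091646), (nat_lit 3049401), (nat_lit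
 5932052)]) (PF.cons (PF.leaf (nat_lit 10635139) (nat_lit 1092049) (nat_lit 33577049) (nat_lit 6581418) [(nat_lit 1092049), (nat_lit 3030216), (nat_lit 5871254)]) (PF.cons (PF.leaf (nat_lit 11135967) (nat_lit 1090922) (nat_lit 32795671) (nat_lit 6506552) [(nat_lit 1090922), (nat_lit 3008968), (nat_lit 5808320)]) (PF.cons PF.nil PF.nil)))))) (PF.cons (PF.cons (PF.leaf (nat_lit 10112630) (nat_lit 3025147) (nat_lit 33804345) (nat_lit 6592594) [(nat_lit 0), (nat_lit 3025147), (nat_lit 5878810)]) (PF.cons (PF.leaf (nat_lit 10605924) (nat_lit 1082132) (nat_lit 33033675) (nat_lit 6520430) [(nat_lit 1082132), (nat_lit 3005797), (nat_lit 5818393)]) (PF.cons (PF.leaf (nat_lit 11096924) (nat_lit 1081143) (nat_lit 32278894) (nat_lit 6446304) [(nat_lit 1081143), (nat_lit 2984485), (nat_lit 5755957)]) (PF.cons (PF.leaf (nat_lit 11584151) (nat_lit 1078825) (nat_lit 31541608) (nat_lit 6370637) [(nat_lit 1078825), (nat_lit 2961475), (nat_lit 5691888)]) PF.nil)))) (PF.cons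 (PF.cons (PF.leaf (nat_lit 11060480) (nat_lit 2959898) (nat_lit 31772179) (nat_lit 6386152) [(nat_lit 0), (nat_lit 2959898), (nat_lit 5703628)]) (PF.cons (PF.leaf (nat_lit 11538507) (nat_lit 1069019) (nat_lit 31059567) (nat_lit
 6311452) [(nat_lit 1069019), (nat_lit 2936983), (nat_lit 5640280)]) PF.nil)) (PF.cons PF.nil (PF.cons PF.nil (PF.cons PF.nil PF.nil)))))))) (PF.cons (PF.cons (PF.cons (PF.leaf (nat_lit 8567114) (nat_lit 6028564) (nat_lit 36216846) (nat_lit 6777710) [(nat_lit 0), (nat_lit 0), (nat_lit 6028564)]) (PF.cons (PF.leaf (nat_lit 9062412) (nat_lit 1070163) (nat_lit 35410799) (nat_lit 6715512) [(nat_lit 1070163), (nat_lit 0), (nat_lit 5978084)]) (PF.cons (PF.leaf (nat_lit 9561171) (nat_lit 1074999) (nat_lit 34612435) (nat_lit 6649789) [(nat_lit 1074999), (nat_lit 0), (nat_lit 5924147)]) (PF.cons (PF.leaf (nat_lit 10060667) (nat_lit 1077683) (nat_lit 33825690) (nat_lit 6581088) [(nat_lit 1077683), (nat_lit 0), (nat_lit 5867245)]) (PF.cons (PF.leaf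 (nat_lit 10558838) (nat_lit 1078539) (nat_lit 33053392) (nat_lit 6509913) [(nat_lit 1078539), (nat_lit 0), (nat_lit 5807837)]) (PF.cons (PF.leaf (nat_lit 11054064) (nat_lit 1077830) (nat_lit 32297555) (nat_lit 6436724) [(nat_lit 1077830), (nat_lit 0), (nat_lit 5746345)]) (PF.cons PF.nil (PF.cons PF.nil PF.nil)))))))) (PF.cons (PF.cons (PF.leaf (nat_lit 9556107) (nat_lit 3007769) (nat_lit 34026868) (nat_lit 6588551) [(nat_lit 0), (nat_lit 3007769),
 (nat_lit 5871406)]) (PF.cons (PF.leaf (nat_lit 10043510) (nat_lit 1067641) (nat_lit 33270033) (nat_lit 6520426) [(nat_lit 1067641), (nat_lit 2991453), (nat_lit 5814814)]) (PF.cons (PF.leaf (nat_lit 10530934) (nat_lit 1068685) (nat_lit 32525317) (nat_lit 6449925) [(nat_lit 1068685), (nat_lit 2972886), (nat_lit 5755828)]) (PF.cons (PF.leaf (nat_lit 11016461) (nat_lit 1068135) (nat_lit 31795102) (nat_lit 6377502) [(nat_lit 1068135), (nat_lit 2952355), (nat_lit 5694861)]) (PF.cons (PF.leaf (nat_lit 11498648) (nat_lit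 1066225) (nat_lit 31081058) (nat_lit 6303565) [(nat_lit 1066225), (nat_lit 2930129), (nat_lit 5632289)]) (PF.cons PF.nil PF.nil)))))) (PF.cons (PF.cons (PF.leaf (nat_lit 10506021) (nat_lit 2948639) (nat_lit 32006784) (nat_lit 6389881) [(nat_lit 0), (nat_lit 2948639), (nat_lit 5703716)]) (PF.cons (PF.leaf (nat_lit 10981444) (nat_lit 1058223) (nat_lit 31302220) (nat_lit 6318383) [(nat_lit 1058223), (nat_lit 2928152), (nat_lit 5643419)]) (PF.cons (PF.leaf (nat_lit 11454610) (nat_lit 1056518) (nat_lit 30611965) (nat_lit 6245422) [(nat_lit 1056518), (nat_lit 2906034), (nat_lit 5581580)]) (PF.cons PF.nil PF.nil)))) (PF.cons (PF.cons (PF.leaf (nat_lit 11413428) (nat_lit 2881906)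
 (nat_lit 30151590) (nat_lit 6187478) [(nat_lit 0), (nat_lit 2881906), (nat_lit 5531006)]) (PF.cons PF.nil PF.nil)) (PF.cons PF.nil (PF.cons PF.nil PF.nil)))))) (PF.cons (PF.cons (PF.cons (PF.leaf (nat_lit 9963483) (nat_lit 5699937) (nat_lit 32219630) (nat_lit 6389493) [(nat_lit 0), (nat_lit 0), (nat_lit 5699937)]) (PF.cons (PF.leaf (nat_lit 10433857) (nat_lit 1045202) (nat_lit 31526851) (nat_lit 6321576) [(nat_lit 1045202), (nat_lit 0), (nat_lit 5643036)]) (PF.cons (PF.leaf (nat_lit 10904102) (nat_lit 1045380) (nat_lit 30845075) (nat_lit 6251800) [(nat_lit 1045380), (nat_lit 0), (nat_lit 5584234)]) (PF.cons (PF.leaf (nat_lit 11372440) (nat_lit 1044119) (nat_lit 30176385) (nat_lit 6180568) [(nat_lit 1044119), (nat_lit 0), (nat_lit 5523899)]) PF.nil)))) (PF.cons (PF.cons (PF.leaf (nat_lit 10873867) (nat_lit 2872906) (nat_lit 30373707) (nat_lit 6193767) [(nat_lit 0), (nat_lit 2872906), (nat_lit 5533686)]) (PF.cons (PF.leaf (nat_lit 11332842) (nat_lit 1034319)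 (nat_lit 29728017) (nat_lit 6123645) [(nat_lit 1034319), (nat_lit 2851788), (nat_lit 5474208)]) PF.nil)) (PF.cons PF.nil (PF.cons PF.nil PF.nil)))) (PF.cons (PF.cons (PF.cons (PF.leaf (nat_lit 11219540) (nat_lit 5369649)
 (nat_lit 28885762) (nat_lit 6005154) [(nat_lit 0), (nat_lit 0), (nat_lit 5369649)]) (PF.cons PF.nil PF.nil)) (PF.cons PF.nil PF.nil)) (PF.cons PF.nil (PF.cons PF.nil (PF.cons PF.nil PF.nil))))))))))

def p12_22_1_0 : pfC (piC [(nat_lit 30365544), (nat_lit 20402210), (nat_lit 13167684)] (nat_lit 12140233)) p12_22_1 (nat_lit 3) (nat_lit 0) (nat_lit 1) = true := by decide +kernel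
def p12_22_1_1 : pfC (piC [(nat_lit 30365544), (nat_lit 20402210), (nat_lit 13167684)] (nat_lit 12140233)) p12_22_1 (nat_lit 3) (nat_lit 1) (nat_lit 2) = true := by decide +kernel
def p12_22_1_2 : pfC (piC [(nat_lit 30365544), (nat_lit 20402210), (nat_lit 13167684)] (nat_lit 12140233)) p12_22_1 (nat_lit 3) (nat_lit 2) (nat_lit 3) = true := by decide +kernel
def p12_22_1_3 : pfC (piC [(nat_lit 30365544), (nat_lit 20402210), (nat_lit 13167684)] (nat_lit 12140233)) p12_22_1 (nat_lit 3) (nat_lit 3) (nat_lit 4) = true := by decide +kernel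
def p12_22_1_4 : pfC (piC [(nat_lit 30365544), (nat_lit 20402210), (nat_lit 13167684)] (nat_lit 12140233)) p12_22_1 (nat_lit 3) (nat_lit 4) (nat_lit 5) = true := by decide +kernel
def p12_22_1_5 : pfC (piC [(nat_lit 30365544), (nat_lit 20402210), (nat_lit 13167684)] (nat_lit 12140233)) p12_22_1 (nat_lit 3) (nat_lit 5) (nat_lit 6) = true := by decide +kernel
def p12_22_1_6 : pfC (piC [(nat_lit 30365544), (nat_lit 20402210), (nat_lit 13167684)] (nat_lit 12140233)) p12_22_1 (nat_lit 3) (nat_lit 6) (nat_lit 7) = true := by decide +kernel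
def p12_22_1_7 : pfC (piC [(nat_lit 30365544), (nat_lit 20402210), (nat_lit 13167684)] (nat_lit 12140233)) p12_22_1 (nat_lit 3) (nat_lit 7) (nat_lit 8) = true := by decide +kernel
def p12_22_1_8 : pfC (piC [(nat_lit 30365544), (nat_lit 20402210), (nat_lit 13167684)] (nat_lit 12140233)) p12_22_1 (nat_lit 3) (nat_lit 8) (nat_lit 9) = true := by decide +kernel
def p12_22_1_9 : pfC (piC [(nat_lit 30365544), (nat_lit 20402210), (nat_lit 13167684)] (nat_lit 12140233)) p12_22_1 (nat_lit 3) (nat_lit 9) (nat_lit 10) = true := by decide +kernel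
def p12_22_1_10 : pfC (piC [(nat_lit 30365544), (nat_lit 20402210), (nat_lit 13167684)] (nat_lit 12140233)) p12_22_1 (nat_lit 3) (nat_lit 10) (nat_lit 11) = true := by decide +kernel
def p12_22_1_11 : pfC (piC [(nat_lit 30365544), (nat_lit 20402210), (nat_lit 13167684)] (nat_lit 12140233)) p12_22_1 (nat_lit 3) (nat_lit 11) (nat_lit 12) = true := by decide +kernel
def p12_22_1_12 : pfC (piC [(nat_lit 30365544), (nat_lit 20402210), (nat_lit 13167684)] (nat_lit 12140233)) p12_22_1 (nat_lit 3) (nat_lit 12) (nat_lit 13) = true := by decide +kernel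
def p12_22_1_13 : pfC (piC [(nat_lit 30365544), (nat_lit 20402210), (nat_lit 13167684)] (nat_lit 12140233)) p12_22_1 (nat_lit 3) (nat_lit 13) (nat_lit 14) = true := by decide +kernel
def p12_22_1_14 : pfC (piC [(nat_lit 30365544), (nat_lit 20402210), (nat_lit 13167684)] (nat_lit 12140233)) p12_22_1 (nat_lit 3) (nat_lit 14) (nat_lit 15) = true := by decide +kernel
def p12_22_1_15 : pfC (piC [(nat_lit 30365544), (nat_lit 20402210), (nat_lit 13167684)] (nat_lit 12140233)) p12_22_1 (nat_lit 3) (nat_lit 15) (nat_lit 16) = true := by decide +kernel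
def p12_22_1_16 : pfC (piC [(nat_lit 30365544), (nat_lit 20402210), (nat_lit 13167684)] (nat_lit 12140233)) p12_22_1 (nat_lit 3) (nat_lit 16) (nat_lit 17) = true := by decide +kernel
def p12_22_1_17 : pfC (piC [(nat_lit 30365544), (nat_lit 20402210), (nat_lit 13167684)] (nat_lit 12140233)) p12_22_1 (nat_lit 3) (nat_lit 17) (nat_lit 18) = true := by decide +kernel
def p12_22_1_18 : pfC (piC [(nat_lit 30365544), (nat_lit 20402210), (nat_lit 13167684)] (nat_lit 12140233)) p12_22_1 (nat_lit 3) (nat_lit 18) (nat_lit 19) = true := by decide +kernel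
def p12_22_1_19 : pfC (piC [(nat_lit 30365544), (nat_lit 20402210), (nat_lit 13167684)] (nat_lit 12140233)) p12_22_1 (nat_lit 3) (nat_lit 19) (nat_lit 20) = true := by decide +kernel
def p12_22_1_20 : pfC (piC [(nat_lit 30365544), (nat_lit 20402210), (nat_lit 13167684)] (nat_lit 12140233)) p12_22_1 (nat_lit 3) (nat_lit 20) (nat_lit 21) = true := by decide +kernel
def p12_22_1_21 : pfC (piC [(nat_lit 30365544), (nat_lit 20402210), (nat_lit 13167684)] (nat_lit 12140233)) p12_22_1 (nat_lit 3) (nat_lit 21) (nat_lit 22) = true := by decide +kernel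
def p12_22_1_22 : pfC (piC [(nat_lit 30365544), (nat_lit 20402210), (nat_lit 13167684)] (nat_lit 12140233)) p12_22_1 (nat_lit 3) (nat_lit 22) (nat_lit 23) = true := by decide +kernel
def p12_22_1_23 : pfC (piC [(nat_lit 30365544), (nat_lit 20402210), (nat_lit 13167684)] (nat_lit 12140233)) p12_22_1 (nat_lit 3) (nat_lit 23) (nat_lit 24) = true := by decide +kernel
def p12_22_1_24 : pfC (piC [(nat_lit 30365544), (nat_lit 20402210), (nat_lit 13167684)] (nat_lit 12140233)) p12_22_1 (nat_lit 3) (nat_lit 24) (nat_lit 25) = true := by decide +kernel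
def p12_22_1_25 : pfC (piC [(nat_lit 30365544), (nat_lit 20402210), (nat_lit 13167684)] (nat_lit 12140233)) p12_22_1 (nat_lit 3) (nat_lit 25) (nat_lit 26) = true := by decide +kernel
def p12_22_1_26 : pfC (piC [(nat_lit 30365544), (nat_lit 20402210), (nat_lit 13167684)] (nat_lit 12140233)) p12_22_1 (nat_lit 3) (nat_lit 26) (nat_lit 27) = true := by decide +kernel
def p12_22_1_27 : pfC (piC [(nat_lit 30365544), (nat_lit 20402210), (nat_lit 13167684)] (nat_lit 12140233)) p12_22_1 (nat_lit 3) (nat_lit 27) (nat_lit 28) = true := by decide +kernel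
def p12_22_1_28 : pfC (piC [(nat_lit 30365544), (nat_lit 20402210), (nat_lit 13167684)] (nat_lit 12140233)) p12_22_1 (nat_lit 3) (nat_lit 28) (nat_lit 29) = true := by decide +kernel
def p12_22_1_29 : pfC (piC [(nat_lit 30365544), (nat_lit 20402210), (nat_lit 13167684)] (nat_lit 12140233)) p12_22_1 (nat_lit 3) (nat_lit 29) (nat_lit 30) = true := by decide +kernel
def p12_22_1_30 : pfC (piC [(nat_lit 30365544), (nat_lit 20402210), (nat_lit 13167684)] (nat_lit 12140233)) p12_22_1 (nat_lit 3) (nat_lit 30) (nat_lit 31) = true := by decide +kernel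
def p12_22_1_31 : pfC (piC [(nat_lit 30365544), (nat_lit 20402210), (nat_lit 13167684)] (nat_lit 12140233)) p12_22_1 (nat_lit 3) (nat_lit 31) (nat_lit 32) = true := by decide +kernel
def p12_22_1_32 : pfC (piC [(nat_lit 30365544), (nat_lit 20402210), (nat_lit 13167684)] (nat_lit 12140233)) p12_22_1 (nat_lit 3) (nat_lit 32) (nat_lit 33) = true := by decide +kernel
def p12_22_1_33 : pfC (piC [(nat_lit 30365544), (nat_lit 20402210), (nat_lit 13167684)] (nat_lit 12140233)) p12_22_1 (nat_lit 3) (nat_lit 33) (nat_lit 34) = true := by decide +kernel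
def p12_22_1_34 : pfC (piC [(nat_lit 30365544), (nat_lit 20402210), (nat_lit 13167684)] (nat_lit 12140233)) p12_22_1 (nat_lit 3) (nat_lit 34) (nat_lit 35) = true := by decide +kernel
def p12_22_1_35 : pfC (piC [(nat_lit 30365544), (nat_lit 20402210), (nat_lit 13167684)] (nat_lit 12140233)) p12_22_1 (nat_lit 3) (nat_lit 35) (nat_lit 36) = true := by decide +kernel
def p12_22_1_36 : pfC (piC [(nat_lit 30365544), (nat_lit 20402210), (nat_lit 13167684)] (nat_lit 12140233)) p12_22_1 (nat_lit 3) (nat_lit 36) (nat_lit 37) = true := by decide +kernel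
def p12_22_1_37 : pfC (piC [(nat_lit 30365544), (nat_lit 20402210), (nat_lit 13167684)] (nat_lit 12140233)) p12_22_1 (nat_lit 3) (nat_lit 37) (nat_lit 38) = true := by decide +kernel
def p12_22_1_38 : pfC (piC [(nat_lit 30365544), (nat_lit 20402210), (nat_lit 13167684)] (nat_lit 12140233)) p12_22_1 (nat_lit 3) (nat_lit 38) (nat_lit 39) = true := by decide +kernel
def p12_22_1_39 : pfC (piC [(nat_lit 30365544), (nat_lit 20402210), (nat_lit 13167684)] (nat_lit 12140233)) p12_22_1 (nat_lit 3) (nat_lit 39) (nat_lit 40) = true := by decide +kernel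
def p12_22_1_40 : pfC (piC [(nat_lit 30365544), (nat_lit 20402210), (nat_lit 13167684)] (nat_lit 12140233)) p12_22_1 (nat_lit 3) (nat_lit 40) (nat_lit 41) = true := by decide +kernel
def p12_22_1_41 : pfC (piC [(nat_lit 30365544), (nat_lit 20402210), (nat_lit 13167684)] (nat_lit 12140233)) p12_22_1 (nat_lit 3) (nat_lit 41) (nat_lit 42) = true := by decide +kernel
def p12_22_1_42 : pfC (piC [(nat_lit 30365544), (nat_lit 20402210), (nat_lit 13167684)] (nat_lit 12140233)) p12_22_1 (nat_lit 3) (nat_lit 42) (nat_lit 43) = true := by decide +kernel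
def p12_22_1_43 : pfC (piC [(nat_lit 30365544), (nat_lit 20402210), (nat_lit 13167684)] (nat_lit 12140233)) p12_22_1 (nat_lit 3) (nat_lit 43) (nat_lit 44) = true := by decide +kernel
def p12_22_1_44 : pfC (piC [(nat_lit 30365544), (nat_lit 20402210), (nat_lit 13167684)] (nat_lit 12140233)) p12_22_1 (nat_lit 3) (nat_lit 44) (nat_lit 45) = true := by decide +kernel
def p12_22_1_45 : pfC (piC [(nat_lit 30365544), (nat_lit 20402210), (nat_lit 13167684)] (nat_lit 12140233)) p12_22_1 (nat_lit 3) (nat_lit 45) (nat_lit 46) = true := by decide +kernel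
def p12_22_1_46 : pfC (piC [(nat_lit 30365544), (nat_lit 20402210), (nat_lit 13167684)] (nat_lit 12140233)) p12_22_1 (nat_lit 3) (nat_lit 46) (nat_lit 47) = true := by decide +kernel
def p12_22_1_47 : pfC (piC [(nat_lit 30365544), (nat_lit 20402210), (nat_lit 13167684)] (nat_lit 12140233)) p12_22_1 (nat_lit 3) (nat_lit 47) (nat_lit 48) = true := by decide +kernel
def p12_22_1_48 : pfC (piC [(nat_lit 30365544), (nat_lit 20402210), (nat_lit 13167684)] (nat_lit 12140233)) p12_22_1 (nat_lit 3) (nat_lit 48) (nat_lit 49) = true := by decide +kernel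
def p12_22_1_49 : pfC (piC [(nat_lit 30365544), (nat_lit 20402210), (nat_lit 13167684)] (nat_lit 12140233)) p12_22_1 (nat_lit 3) (nat_lit 49) (nat_lit 50) = true := by decide +kernel
def p12_22_1_50 : pfC (piC [(nat_lit 30365544), (nat_lit 20402210), (nat_lit 13167684)] (nat_lit 12140233)) p12_22_1 (nat_lit 3) (nat_lit 50) (nat_lit 51) = true := by decide +kernel
def p12_22_1_51 : pfC (piC [(nat_lit 30365544), (nat_lit 20402210), (nat_lit 13167684)] (nat_lit 12140233)) p12_22_1 (nat_lit 3) (nat_lit 51) (nat_lit 52) = true := by decide +kernel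
def p12_22_1_52 : pfC (piC [(nat_lit 30365544), (nat_lit 20402210), (nat_lit 13167684)] (nat_lit 12140233)) p12_22_1 (nat_lit 3) (nat_lit 52) (nat_lit 53) = true := by decide +kernel
def p12_22_1_53 : pfC (piC [(nat_lit 30365544), (nat_lit 20402210), (nat_lit 13167684)] (nat_lit 12140233)) p12_22_1 (nat_lit 3) (nat_lit 53) (nat_lit 54) = true := by decide +kernel
def p12_22_1_54 : pfC (piC [(nat_lit 30365544), (nat_lit 20402210), (nat_lit 13167684)] (nat_lit 12140233)) p12_22_1 (nat_lit 3) (nat_lit 54) (nat_lit 55) = true := by decide +kernel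
def p12_22_1_55 : pfC (piC [(nat_lit 30365544), (nat_lit 20402210), (nat_lit 13167684)] (nat_lit 12140233)) p12_22_1 (nat_lit 3) (nat_lit 55) (nat_lit 56) = true := by decide +kernel
def p12_22_1_56 : pfC (piC [(nat_lit 30365544), (nat_lit 20402210), (nat_lit 13167684)] (nat_lit 12140233)) p12_22_1 (nat_lit 3) (nat_lit 56) (nat_lit 57) = true := by decide +kernel
def p12_22_1_57 : pfC (piC [(nat_lit 30365544), (nat_lit 20402210), (nat_lit 13167684)] (nat_lit 12140233)) p12_22_1 (nat_lit 3) (nat_lit 57) (nat_lit 58) = true := by decide +kernel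
def p12_22_1_58 : pfC (piC [(nat_lit 30365544), (nat_lit 20402210), (nat_lit 13167684)] (nat_lit 12140233)) p12_22_1 (nat_lit 3) (nat_lit 58) (nat_lit 59) = true := by decide +kernel
def p12_22_1_59 : pfC (piC [(nat_lit 30365544), (nat_lit 20402210), (nat_lit 13167684)] (nat_lit 12140233)) p12_22_1 (nat_lit 3) (nat_lit 59) (nat_lit 60) = true := by decide +kernel
def p12_22_1_60 : pfC (piC [(nat_lit 30365544), (nat_lit 20402210), (nat_lit 13167684)] (nat_lit 12140233)) p12_22_1 (nat_lit 3) (nat_lit 60) (nat_lit 61) = true := by decide +kernel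
def p12_22_1_61 : pfC (piC [(nat_lit 30365544), (nat_lit 20402210), (nat_lit 13167684)] (nat_lit 12140233)) p12_22_1 (nat_lit 3) (nat_lit 61) (nat_lit 62) = true := by decide +kernel
def p12_22_1_62 : pfC (piC [(nat_lit 30365544), (nat_lit 20402210), (nat_lit 13167684)] (nat_lit 12140233)) p12_22_1 (nat_lit 3) (nat_lit 62) (nat_lit 63) = true := by decide +kernel
def p12_22_1_63 : pfC (piC [(nat_lit 30365544), (nat_lit 20402210), (nat_lit 13167684)] (nat_lit 12140233)) p12_22_1 (nat_lit 3) (nat_lit 63) (nat_lit 64) = true := by decide +kernel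
def p12_22_1_64 : pfC (piC [(nat_lit 30365544), (nat_lit 20402210), (nat_lit 13167684)] (nat_lit 12140233)) p12_22_1 (nat_lit 3) (nat_lit 64) (nat_lit 65) = true := by decide +kernel
def p12_22_1_65 : pfC (piC [(nat_lit 30365544), (nat_lit 20402210), (nat_lit 13167684)] (nat_lit 12140233)) p12_22_1 (nat_lit 3) (nat_lit 65) (nat_lit 66) = true := by decide +kernel
def p12_22_1_66 : pfC (piC [(nat_lit 30365544), (nat_lit 20402210), (nat_lit 13167684)] (nat_lit 12140233)) p12_22_1 (nat_lit 3) (nat_lit 66) (nat_lit 67) = true := by decide +kernel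
def p12_22_1_67 : pfC (piC [(nat_lit 30365544), (nat_lit 20402210), (nat_lit 13167684)] (nat_lit 12140233)) p12_22_1 (nat_lit 3) (nat_lit 67) (nat_lit 68) = true := by decide +kernel
def p12_22_1_68 : pfC (piC [(nat_lit 30365544), (nat_lit 20402210), (nat_lit 13167684)] (nat_lit 12140233)) p12_22_1 (nat_lit 3) (nat_lit 68) (nat_lit 69) = true := by decide +kernel
def p12_22_1_69 : pfC (piC [(nat_lit 30365544), (nat_lit 20402210), (nat_lit 13167684)] (nat_lit 12140233)) p12_22_1 (nat_lit 3) (nat_lit 69) (nat_lit 70) = true := by decide +kernel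
def p12_22_1_70 : pfC (piC [(nat_lit 30365544), (nat_lit 20402210), (nat_lit 13167684)] (nat_lit 12140233)) p12_22_1 (nat_lit 3) (nat_lit 70) (nat_lit 71) = true := by decide +kernel
def p12_22_1_71 : pfC (piC [(nat_lit 30365544), (nat_lit 20402210), (nat_lit 13167684)] (nat_lit 12140233)) p12_22_1 (nat_lit 3) (nat_lit 71) (nat_lit 72) = true := by decide +kernel
def p12_22_1_72 : pfC (piC [(nat_lit 30365544), (nat_lit 20402210), (nat_lit 13167684)] (nat_lit 12140233)) p12_22_1 (nat_lit 3) (nat_lit 72) (nat_lit 73) = true := by decide +kernel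
def p12_22_1_73 : pfC (piC [(nat_lit 30365544), (nat_lit 20402210), (nat_lit 13167684)] (nat_lit 12140233)) p12_22_1 (nat_lit 3) (nat_lit 73) (nat_lit 74) = true := by decide +kernel
def p12_22_1_74 : pfC (piC [(nat_lit 30365544), (nat_lit 20402210), (nat_lit 13167684)] (nat_lit 12140233)) p12_22_1 (nat_lit 3) (nat_lit 74) (nat_lit 75) = true := by decide +kernel
def p12_22_1_75 : pfC (piC [(nat_lit 30365544), (nat_lit 20402210), (nat_lit 13167684)] (nat_lit 12140233)) p12_22_1 (nat_lit 3) (nat_lit 75) (nat_lit 76) = true := by decide +kernel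
def p12_22_1_76 : pfC (piC [(nat_lit 30365544), (nat_lit 20402210), (nat_lit 13167684)] (nat_lit 12140233)) p12_22_1 (nat_lit 3) (nat_lit 76) (nat_lit 77) = true := by decide +kernel
def p12_22_1_77 : pfC (piC [(nat_lit 30365544), (nat_lit 20402210), (nat_lit 13167684)] (nat_lit 12140233)) p12_22_1 (nat_lit 3) (nat_lit 77) (nat_lit 78) = true := by decide +kernel
def p12_22_1_78 : pfC (piC [(nat_lit 30365544), (nat_lit 20402210), (nat_lit 13167684)] (nat_lit 12140233)) p12_22_1 (nat_lit 3) (nat_lit 78) (nat_lit 79) = true := by decide +kernel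
def p12_22_1_79 : pfC (piC [(nat_lit 30365544), (nat_lit 20402210), (nat_lit 13167684)] (nat_lit 12140233)) p12_22_1 (nat_lit 3) (nat_lit 79) (nat_lit 80) = true := by decide +kernel
def p12_22_1_80 : pfC (piC [(nat_lit 30365544), (nat_lit 20402210), (nat_lit 13167684)] (nat_lit 12140233)) p12_22_1 (nat_lit 3) (nat_lit 80) (nat_lit 81) = true := by decide +kernel
def p12_22_1_81 : pfC (piC [(nat_lit 30365544), (nat_lit 20402210), (nat_lit 13167684)] (nat_lit 12140233)) p12_22_1 (nat_lit 3) (nat_lit 81) (nat_lit 82) = true := by decide +kernel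
def p12_22_1_82 : pfC (piC [(nat_lit 30365544), (nat_lit 20402210), (nat_lit 13167684)] (nat_lit 12140233)) p12_22_1 (nat_lit 3) (nat_lit 82) (nat_lit 83) = true := by decide +kernel
def p12_22_1_83 : pfC (piC [(nat_lit 30365544), (nat_lit 20402210), (nat_lit 13167684)] (nat_lit 12140233)) p12_22_1 (nat_lit 3) (nat_lit 83) (nat_lit 84) = true := by decide +kernel
def p12_22_1_84 : pfC (piC [(nat_lit 30365544), (nat_lit 20402210), (nat_lit 13167684)] (nat_lit 12140233)) p12_22_1 (nat_lit 3) (nat_lit 84) (nat_lit 85) = true := by decide +kernel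
def p12_22_1_85 : pfC (piC [(nat_lit 30365544), (nat_lit 20402210), (nat_lit 13167684)] (nat_lit 12140233)) p12_22_1 (nat_lit 3) (nat_lit 85) (nat_lit 86) = true := by decide +kernel
def p12_22_1_86 : pfC (piC [(nat_lit 30365544), (nat_lit 20402210), (nat_lit 13167684)] (nat_lit 12140233)) p12_22_1 (nat_lit 3) (nat_lit 86) (nat_lit 87) = true := by decide +kernel
def p12_22_1_87 : pfC (piC [(nat_lit 30365544), (nat_lit 20402210), (nat_lit 13167684)] (nat_lit 12140233)) p12_22_1 (nat_lit 3) (nat_lit 87) (nat_lit 88) = true := by decide +kernel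
def p12_22_1_88 : pfC (piC [(nat_lit 30365544), (nat_lit 20402210), (nat_lit 13167684)] (nat_lit 12140233)) p12_22_1 (nat_lit 3) (nat_lit 88) (nat_lit 89) = true := by decide +kernel
def p12_22_1_89 : pfC (piC [(nat_lit 30365544), (nat_lit 20402210), (nat_lit 13167684)] (nat_lit 12140233)) p12_22_1 (nat_lit 3) (nat_lit 89) (nat_lit 90) = true := by decide +kernel
def p12_22_1_90 : pfC (piC [(nat_lit 30365544), (nat_lit 20402210), (nat_lit 13167684)] (nat_lit 12140233)) p12_22_1 (nat_lit 3) (nat_lit 90) (nat_lit 91) = true := by decide +kernel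
def p12_22_1_91 : pfC (piC [(nat_lit 30365544), (nat_lit 20402210), (nat_lit 13167684)] (nat_lit 12140233)) p12_22_1 (nat_lit 3) (nat_lit 91) (nat_lit 92) = true := by decide +kernel
def p12_22_1_92 : pfC (piC [(nat_lit 30365544), (nat_lit 20402210), (nat_lit 13167684)] (nat_lit 12140233)) p12_22_1 (nat_lit 3) (nat_lit 92) (nat_lit 93) = true := by decide +kernel
def p12_22_1_93 : pfC (piC [(nat_lit 30365544), (nat_lit 20402210), (nat_lit 13167684)] (nat_lit 12140233)) p12_22_1 (nat_lit 3) (nat_lit 93) (nat_lit 94) = true := by decide +kernel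
def p12_22_1_94 : pfC (piC [(nat_lit 30365544), (nat_lit 20402210), (nat_lit 13167684)] (nat_lit 12140233)) p12_22_1 (nat_lit 3) (nat_lit 94) (nat_lit 95) = true := by decide +kernel
def p12_22_1_95 : pfC (piC [(nat_lit 30365544), (nat_lit 20402210), (nat_lit 13167684)] (nat_lit 12140233)) p12_22_1 (nat_lit 3) (nat_lit 95) (nat_lit 96) = true := by decide +kernel
def p12_22_1_96 : pfC (piC [(nat_lit 30365544), (nat_lit 20402210), (nat_lit 13167684)] (nat_lit 12140233)) p12_22_1 (nat_lit 3) (nat_lit 96) (nat_lit 97) = true := by decide +kernel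
def p12_22_1_97 : pfC (piC [(nat_lit 30365544), (nat_lit 20402210), (nat_lit 13167684)] (nat_lit 12140233)) p12_22_1 (nat_lit 3) (nat_lit 97) (nat_lit 98) = true := by decide +kernel
def p12_22_1_98 : pfC (piC [(nat_lit 30365544), (nat_lit 20402210), (nat_lit 13167684)] (nat_lit 12140233)) p12_22_1 (nat_lit 3) (nat_lit 98) (nat_lit 99) = true := by decide +kernel
def p12_22_1_99 : pfC (piC [(nat_lit 30365544), (nat_lit 20402210), (nat_lit 13167684)] (nat_lit 12140233)) p12_22_1 (nat_lit 3) (nat_lit 99) (nat_lit 100) = true := by decide +kernel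
def p12_22_1_100 : pfC (piC [(nat_lit 30365544), (nat_lit 20402210), (nat_lit 13167684)] (nat_lit 12140233)) p12_22_1 (nat_lit 3) (nat_lit 100) (nat_lit 101) = true := by decide +kernel
def p12_22_1_101 : pfC (piC [(nat_lit 30365544), (nat_lit 20402210), (nat_lit 13167684)] (nat_lit 12140233)) p12_22_1 (nat_lit 3) (nat_lit 101) (nat_lit 102) = true := by decide +kernel
def p12_22_1_102 : pfC (piC [(nat_lit 30365544), (nat_lit 20402210), (nat_lit 13167684)] (nat_lit 12140233)) p12_22_1 (nat_lit 3) (nat_lit 102) (nat_lit 103) = true := by decide +kernel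
def p12_22_1_103 : pfC (piC [(nat_lit 30365544), (nat_lit 20402210), (nat_lit 13167684)] (nat_lit 12140233)) p12_22_1 (nat_lit 3) (nat_lit 103) (nat_lit 104) = true := by decide +kernel
def p12_22_1_104 : pfC (piC [(nat_lit 30365544), (nat_lit 20402210), (nat_lit 13167684)] (nat_lit 12140233)) p12_22_1 (nat_lit 3) (nat_lit 104) (nat_lit 105) = true := by decide +kernel
def p12_22_1_105 : pfC (piC [(nat_lit 30365544), (nat_lit 20402210), (nat_lit 13167684)] (nat_lit 12140233)) p12_22_1 (nat_lit 3) (nat_lit 105) (nat_lit 106) = true := by decide +kernel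
def p12_22_1_106 : pfC (piC [(nat_lit 30365544), (nat_lit 20402210), (nat_lit 13167684)] (nat_lit 12140233)) p12_22_1 (nat_lit 3) (nat_lit 106) (nat_lit 107) = true := by decide +kernel
def p12_22_1_107 : pfC (piC [(nat_lit 30365544), (nat_lit 20402210), (nat_lit 13167684)] (nat_lit 12140233)) p12_22_1 (nat_lit 3) (nat_lit 107) (nat_lit 108) = true := by decide +kernel
def p12_22_1_108 : pfC (piC [(nat_lit 30365544), (nat_lit 20402210), (nat_lit 13167684)] (nat_lit 12140233)) p12_22_1 (nat_lit 3) (nat_lit 108) (nat_lit 109) = true := by decide +kernel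
def p12_22_1_109 : pfC (piC [(nat_lit 30365544), (nat_lit 20402210), (nat_lit 13167684)] (nat_lit 12140233)) p12_22_1 (nat_lit 3) (nat_lit 109) (nat_lit 110) = true := by decide +kernel
def p12_22_1_110 : pfC (piC [(nat_lit 30365544), (nat_lit 20402210), (nat_lit 13167684)] (nat_lit 12140233)) p12_22_1 (nat_lit 3) (nat_lit 110) (nat_lit 111) = true := by decide +kernel
def p12_22_1_111 : pfC (piC [(nat_lit 30365544), (nat_lit 20402210), (nat_lit 13167684)] (nat_lit 12140233)) p12_22_1 (nat_lit 3) (nat_lit 111) (nat_lit 112) = true := by decide +kernel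
def p12_22_1_112 : pfC (piC [(nat_lit 30365544), (nat_lit 20402210), (nat_lit 13167684)] (nat_lit 12140233)) p12_22_1 (nat_lit 3) (nat_lit 112) (nat_lit 113) = true := by decide +kernel
def p12_22_1_113 : pfC (piC [(nat_lit 30365544), (nat_lit 20402210), (nat_lit 13167684)] (nat_lit 12140233)) p12_22_1 (nat_lit 3) (nat_lit 113) (nat_lit 114) = true := by decide +kernel
def p12_22_1_114 : pfC (piC [(nat_lit 30365544), (nat_lit 20402210), (nat_lit 13167684)] (nat_lit 12140233)) p12_22_1 (nat_lit 3) (nat_lit 114) (nat_lit 115) = true := by decide +kernel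
def p12_22_1_115 : pfC (piC [(nat_lit 30365544), (nat_lit 20402210), (nat_lit 13167684)] (nat_lit 12140233)) p12_22_1 (nat_lit 3) (nat_lit 115) (nat_lit 116) = true := by decide +kernel
def p12_22_1_116 : pfC (piC [(nat_lit 30365544), (nat_lit 20402210), (nat_lit 13167684)] (nat_lit 12140233)) p12_22_1 (nat_lit 3) (nat_lit 116) (nat_lit 117) = true := by decide +kernel
def p12_22_1_117 : pfC (piC [(nat_lit 30365544), (nat_lit 20402210), (nat_lit 13167684)] (nat_lit 12140233)) p12_22_1 (nat_lit 3) (nat_lit 117) (nat_lit 118) = true := by decide +kernel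
def p12_22_1_118 : pfC (piC [(nat_lit 30365544), (nat_lit 20402210), (nat_lit 13167684)] (nat_lit 12140233)) p12_22_1 (nat_lit 3) (nat_lit 118) (nat_lit 119) = true := by decide +kernel
def p12_22_1_119 : pfC (piC [(nat_lit 30365544), (nat_lit 20402210), (nat_lit 13167684)] (nat_lit 12140233)) p12_22_1 (nat_lit 3) (nat_lit 119) (nat_lit 120) = true := by decide +kernel
def p12_22_1_120 : pfC (piC [(nat_lit 30365544), (nat_lit 20402210), (nat_lit 13167684)] (nat_lit 12140233)) p12_22_1 (nat_lit 3) (nat_lit 120) (nat_lit 121) = true := by decide +kernel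
def p12_22_1_121 : pfC (piC [(nat_lit 30365544), (nat_lit 20402210), (nat_lit 13167684)] (nat_lit 12140233)) p12_22_1 (nat_lit 3) (nat_lit 121) (nat_lit 122) = true := by decide +kernel
def p12_22_1_122 : pfC (piC [(nat_lit 30365544), (nat_lit 20402210), (nat_lit 13167684)] (nat_lit 12140233)) p12_22_1 (nat_lit 3) (nat_lit 122) (nat_lit 123) = true := by decide +kernel
def p12_22_1_123 : pfC (piC [(nat_lit 30365544), (nat_lit 20402210), (nat_lit 13167684)] (nat_lit 12140233)) p12_22_1 (nat_lit 3) (nat_lit 123) (nat_lit 124) = true := by decide +kernel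
def p12_22_1_124 : pfC (piC [(nat_lit 30365544), (nat_lit 20402210), (nat_lit 13167684)] (nat_lit 12140233)) p12_22_1 (nat_lit 3) (nat_lit 124) (nat_lit 125) = true := by decide +kernel
def p12_22_1_125 : pfC (piC [(nat_lit 30365544), (nat_lit 20402210), (nat_lit 13167684)] (nat_lit 12140233)) p12_22_1 (nat_lit 3) (nat_lit 125) (nat_lit 126) = true := by decide +kernel
def p12_22_1_126 : pfC (piC [(nat_lit 30365544), (nat_lit 20402210), (nat_lit 13167684)] (nat_lit 12140233)) p12_22_1 (nat_lit 3) (nat_lit 126) (nat_lit 127) = true := by decide +kernel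
def p12_22_1_127 : pfC (piC [(nat_lit 30365544), (nat_lit 20402210), (nat_lit 13167684)] (nat_lit 12140233)) p12_22_1 (nat_lit 3) (nat_lit 127) (nat_lit 128) = true := by decide +kernel
def p12_22_1_128 : pfC (piC [(nat_lit 30365544), (nat_lit 20402210), (nat_lit 13167684)] (nat_lit 12140233)) p12_22_1 (nat_lit 3) (nat_lit 128) (nat_lit 129) = true := by decide +kernel
def p12_22_1_129 : pfC (piC [(nat_lit 30365544), (nat_lit 20402210), (nat_lit 13167684)] (nat_lit 12140233)) p12_22_1 (nat_lit 3) (nat_lit 129) (nat_lit 130) = true := by decide +kernel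
def p12_22_1_130 : pfC (piC [(nat_lit 30365544), (nat_lit 20402210), (nat_lit 13167684)] (nat_lit 12140233)) p12_22_1 (nat_lit 3) (nat_lit 130) (nat_lit 131) = true := by decide +kernel
def p12_22_1_131 : pfC (piC [(nat_lit 30365544), (nat_lit 20402210), (nat_lit 13167684)] (nat_lit 12140233)) p12_22_1 (nat_lit 3) (nat_lit 131) (nat_lit 132) = true := by decide +kernel
def p12_22_1_132 : pfC (piC [(nat_lit 30365544), (nat_lit 20402210), (nat_lit 13167684)] (nat_lit 12140233)) p12_22_1 (nat_lit 3) (nat_lit 132) (nat_lit 133) = true := by decide +kernel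
def p12_22_1_133 : pfC (piC [(nat_lit 30365544), (nat_lit 20402210), (nat_lit 13167684)] (nat_lit 12140233)) p12_22_1 (nat_lit 3) (nat_lit 133) (nat_lit 134) = true := by decide +kernel
def p12_22_1_134 : pfC (piC [(nat_lit 30365544), (nat_lit 20402210), (nat_lit 13167684)] (nat_lit 12140233)) p12_22_1 (nat_lit 3) (nat_lit 134) (nat_lit 135) = true := by decide +kernel
def p12_22_1_135 : pfC (piC [(nat_lit 30365544), (nat_lit 20402210), (nat_lit 13167684)] (nat_lit 12140233)) p12_22_1 (nat_lit 3) (nat_lit 135) (nat_lit 136) = true := by decide +kernel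
def p12_22_1_136 : pfC (piC [(nat_lit 30365544), (nat_lit 20402210), (nat_lit 13167684)] (nat_lit 12140233)) p12_22_1 (nat_lit 3) (nat_lit 136) (nat_lit 137) = true := by decide +kernel
def p12_22_1_137 : pfC (piC [(nat_lit 30365544), (nat_lit 20402210), (nat_lit 13167684)] (nat_lit 12140233)) p12_22_1 (nat_lit 3) (nat_lit 137) (nat_lit 138) = true := by decide +kernel
def p12_22_1_138 : pfC (piC [(nat_lit 30365544), (nat_lit 20402210), (nat_lit 13167684)] (nat_lit 12140233)) p12_22_1 (nat_lit 3) (nat_lit 138) (nat_lit 139) = true := by decide +kernel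
def p12_22_1_139 : pfC (piC [(nat_lit 30365544), (nat_lit 20402210), (nat_lit 13167684)] (nat_lit 12140233)) p12_22_1 (nat_lit 3) (nat_lit 139) (nat_lit 140) = true := by decide +kernel
def p12_22_1_140 : pfC (piC [(nat_lit 30365544), (nat_lit 20402210), (nat_lit 13167684)] (nat_lit 12140233)) p12_22_1 (nat_lit 3) (nat_lit 140) (nat_lit 141) = true := by decide +kernel
def p12_22_1_141 : pfC (piC [(nat_lit 30365544), (nat_lit 20402210), (nat_lit 13167684)] (nat_lit 12140233)) p12_22_1 (nat_lit 3) (nat_lit 141) (nat_lit 142) = true := by decide +kernel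
def p12_22_1_142 : pfC (piC [(nat_lit 30365544), (nat_lit 20402210), (nat_lit 13167684)] (nat_lit 12140233)) p12_22_1 (nat_lit 3) (nat_lit 142) (nat_lit 143) = true := by decide +kernel
def p12_22_1_143 : pfC (piC [(nat_lit 30365544), (nat_lit 20402210), (nat_lit 13167684)] (nat_lit 12140233)) p12_22_1 (nat_lit 3) (nat_lit 143) (nat_lit 144) = true := by decide +kernel
def p12_22_1_144 : pfC (piC [(nat_lit 30365544), (nat_lit 20402210), (nat_lit 13167684)] (nat_lit 12140233)) p12_22_1 (nat_lit 3) (nat_lit 144) (nat_lit 145) = true := by decide +kernel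
def p12_22_1_145 : pfC (piC [(nat_lit 30365544), (nat_lit 20402210), (nat_lit 13167684)] (nat_lit 12140233)) p12_22_1 (nat_lit 3) (nat_lit 145) (nat_lit 146) = true := by decide +kernel
def p12_22_1_146 : pfC (piC [(nat_lit 30365544), (nat_lit 20402210), (nat_lit 13167684)] (nat_lit 12140233)) p12_22_1 (nat_lit 3) (nat_lit 146) (nat_lit 147) = true := by decide +kernel
def p12_22_1_147 : pfC (piC [(nat_lit 30365544), (nat_lit 20402210), (nat_lit 13167684)] (nat_lit 12140233)) p12_22_1 (nat_lit 3) (nat_lit 147) (nat_lit 148) = true := by decide +kernel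
def p12_22_1_148 : pfC (piC [(nat_lit 30365544), (nat_lit 20402210), (nat_lit 13167684)] (nat_lit 12140233)) p12_22_1 (nat_lit 3) (nat_lit 148) (nat_lit 149) = true := by decide +kernel
def p12_22_1_149 : pfC (piC [(nat_lit 30365544), (nat_lit 20402210), (nat_lit 13167684)] (nat_lit 12140233)) p12_22_1 (nat_lit 3) (nat_lit 149) (nat_lit 150) = true := by decide +kernel
def p12_22_1_150 : pfC (piC [(nat_lit 30365544), (nat_lit 20402210), (nat_lit 13167684)] (nat_lit 12140233)) p12_22_1 (nat_lit 3) (nat_lit 150) (nat_lit 151) = true := by decide +kernel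
def p12_22_1_151 : pfC (piC [(nat_lit 30365544), (nat_lit 20402210), (nat_lit 13167684)] (nat_lit 12140233)) p12_22_1 (nat_lit 3) (nat_lit 151) (nat_lit 152) = true := by decide +kernel
def p12_22_1_152 : pfC (piC [(nat_lit 30365544), (nat_lit 20402210), (nat_lit 13167684)] (nat_lit 12140233)) p12_22_1 (nat_lit 3) (nat_lit 152) (nat_lit 153) = true := by decide +kernel
def p12_22_1_153 : pfC (piC [(nat_lit 30365544), (nat_lit 20402210), (nat_lit 13167684)] (nat_lit 12140233)) p12_22_1 (nat_lit 3) (nat_lit 153) (nat_lit 154) = true := by decide +kernel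
def p12_22_1_154 : pfC (piC [(nat_lit 30365544), (nat_lit 20402210), (nat_lit 13167684)] (nat_lit 12140233)) p12_22_1 (nat_lit 3) (nat_lit 154) (nat_lit 155) = true := by decide +kernel
def p12_22_1_155 : pfC (piC [(nat_lit 30365544), (nat_lit 20402210), (nat_lit 13167684)] (nat_lit 12140233)) p12_22_1 (nat_lit 3) (nat_lit 155) (nat_lit 156) = true := by decide +kernel
def p12_22_1_156 : pfC (piC [(nat_lit 30365544), (nat_lit 20402210), (nat_lit 13167684)] (nat_lit 12140233)) p12_22_1 (nat_lit 3) (nat_lit 156) (nat_lit 157) = true := by decide +kernel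
def p12_22_1_157 : pfC (piC [(nat_lit 30365544), (nat_lit 20402210), (nat_lit 13167684)] (nat_lit 12140233)) p12_22_1 (nat_lit 3) (nat_lit 157) (nat_lit 158) = true := by decide +kernel
def p12_22_1_158 : pfC (piC [(nat_lit 30365544), (nat_lit 20402210), (nat_lit 13167684)] (nat_lit 12140233)) p12_22_1 (nat_lit 3) (nat_lit 158) (nat_lit 159) = true := by decide +kernel
def p12_22_1_159 : pfC (piC [(nat_lit 30365544), (nat_lit 20402210), (nat_lit 13167684)] (nat_lit 12140233)) p12_22_1 (nat_lit 3) (nat_lit 159) (nat_lit 160) = true := by decide +kernel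
def p12_22_1_160 : pfC (piC [(nat_lit 30365544), (nat_lit 20402210), (nat_lit 13167684)] (nat_lit 12140233)) p12_22_1 (nat_lit 3) (nat_lit 160) (nat_lit 161) = true := by decide +kernel
def p12_22_1_161 : pfC (piC [(nat_lit 30365544), (nat_lit 20402210), (nat_lit 13167684)] (nat_lit 12140233)) p12_22_1 (nat_lit 3) (nat_lit 161) (nat_lit 162) = true := by decide +kernel
def p12_22_1_162 : pfC (piC [(nat_lit 30365544), (nat_lit 20402210), (nat_lit 13167684)] (nat_lit 12140233)) p12_22_1 (nat_lit 3) (nat_lit 162) (nat_lit 163) = true := by decide +kernel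
def p12_22_1_163 : pfC (piC [(nat_lit 30365544), (nat_lit 20402210), (nat_lit 13167684)] (nat_lit 12140233)) p12_22_1 (nat_lit 3) (nat_lit 163) (nat_lit 164) = true := by decide +kernel
def p12_22_1_164 : pfC (piC [(nat_lit 30365544), (nat_lit 20402210), (nat_lit 13167684)] (nat_lit 12140233)) p12_22_1 (nat_lit 3) (nat_lit 164) (nat_lit 165) = true := by decide +kernel
def p12_22_1_165 : pfC (piC [(nat_lit 30365544), (nat_lit 20402210), (nat_lit 13167684)] (nat_lit 12140233)) p12_22_1 (nat_lit 3) (nat_lit 165) (nat_lit 166) = true := by decide +kernel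
def p12_22_1_166 : pfC (piC [(nat_lit 30365544), (nat_lit 20402210), (nat_lit 13167684)] (nat_lit 12140233)) p12_22_1 (nat_lit 3) (nat_lit 166) (nat_lit 167) = true := by decide +kernel
def p12_22_1_167 : pfC (piC [(nat_lit 30365544), (nat_lit 20402210), (nat_lit 13167684)] (nat_lit 12140233)) p12_22_1 (nat_lit 3) (nat_lit 167) (nat_lit 168) = true := by decide +kernel
def p12_22_1_168 : pfC (piC [(nat_lit 30365544), (nat_lit 20402210), (nat_lit 13167684)] (nat_lit 12140233)) p12_22_1 (nat_lit 3) (nat_lit 168) (nat_lit 169) = true := by decide +kernel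
def p12_22_1_169 : pfC (piC [(nat_lit 30365544), (nat_lit 20402210), (nat_lit 13167684)] (nat_lit 12140233)) p12_22_1 (nat_lit 3) (nat_lit 169) (nat_lit 170) = true := by decide +kernel
def p12_22_1_170 : pfC (piC [(nat_lit 30365544), (nat_lit 20402210), (nat_lit 13167684)] (nat_lit 12140233)) p12_22_1 (nat_lit 3) (nat_lit 170) (nat_lit 171) = true := by decide +kernel
def p12_22_1_171 : pfC (piC [(nat_lit 30365544), (nat_lit 20402210), (nat_lit 13167684)] (nat_lit 12140233)) p12_22_1 (nat_lit 3) (nat_lit 171) (nat_lit 172) = true := by decide +kernel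
def p12_22_1_172 : pfC (piC [(nat_lit 30365544), (nat_lit 20402210), (nat_lit 13167684)] (nat_lit 12140233)) p12_22_1 (nat_lit 3) (nat_lit 172) (nat_lit 173) = true := by decide +kernel
def p12_22_1_173 : pfC (piC [(nat_lit 30365544), (nat_lit 20402210), (nat_lit 13167684)] (nat_lit 12140233)) p12_22_1 (nat_lit 3) (nat_lit 173) (nat_lit 174) = true := by decide +kernel
def p12_22_1_174 : pfC (piC [(nat_lit 30365544), (nat_lit 20402210), (nat_lit 13167684)] (nat_lit 12140233)) p12_22_1 (nat_lit 3) (nat_lit 174) (nat_lit 175) = true := by decide +kernel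
def p12_22_1_175 : pfC (piC [(nat_lit 30365544), (nat_lit 20402210), (nat_lit 13167684)] (nat_lit 12140233)) p12_22_1 (nat_lit 3) (nat_lit 175) (nat_lit 176) = true := by decide +kernel
def p12_22_1_176 : pfC (piC [(nat_lit 30365544), (nat_lit 20402210), (nat_lit 13167684)] (nat_lit 12140233)) p12_22_1 (nat_lit 3) (nat_lit 176) (nat_lit 177) = true := by decide +kernel
def p12_22_1_177 : pfC (piC [(nat_lit 30365544), (nat_lit 20402210), (nat_lit 13167684)] (nat_lit 12140233)) p12_22_1 (nat_lit 3) (nat_lit 177) (nat_lit 178) = true := by decide +kernel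
def p12_22_1_178 : pfC (piC [(nat_lit 30365544), (nat_lit 20402210), (nat_lit 13167684)] (nat_lit 12140233)) p12_22_1 (nat_lit 3) (nat_lit 178) (nat_lit 179) = true := by decide +kernel
def p12_22_1_179 : pfC (piC [(nat_lit 30365544), (nat_lit 20402210), (nat_lit 13167684)] (nat_lit 12140233)) p12_22_1 (nat_lit 3) (nat_lit 179) (nat_lit 180) = true := by decide +kernel
def p12_22_1_180 : pfC (piC [(nat_lit 30365544), (nat_lit 20402210), (nat_lit 13167684)] (nat_lit 12140233)) p12_22_1 (nat_lit 3) (nat_lit 180) (nat_lit 181) = true := by decide +kernel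
def p12_22_1_181 : pfC (piC [(nat_lit 30365544), (nat_lit 20402210), (nat_lit 13167684)] (nat_lit 12140233)) p12_22_1 (nat_lit 3) (nat_lit 181) (nat_lit 182) = true := by decide +kernel
def p12_22_1_182 : pfC (piC [(nat_lit 30365544), (nat_lit 20402210), (nat_lit 13167684)] (nat_lit 12140233)) p12_22_1 (nat_lit 3) (nat_lit 182) (nat_lit 183) = true := by decide +kernel
def p12_22_1_183 : pfC (piC [(nat_lit 30365544), (nat_lit 20402210), (nat_lit 13167684)] (nat_lit 12140233)) p12_22_1 (nat_lit 3) (nat_lit 183) (nat_lit 184) = true := by decide +kernel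
def p12_22_1_184 : pfC (piC [(nat_lit 30365544), (nat_lit 20402210), (nat_lit 13167684)] (nat_lit 12140233)) p12_22_1 (nat_lit 3) (nat_lit 184) (nat_lit 185) = true := by decide +kernel
def p12_22_1_185 : pfC (piC [(nat_lit 30365544), (nat_lit 20402210), (nat_lit 13167684)] (nat_lit 12140233)) p12_22_1 (nat_lit 3) (nat_lit 185) (nat_lit 186) = true := by decide +kernel
def p12_22_1_186 : pfC (piC [(nat_lit 30365544), (nat_lit 20402210), (nat_lit 13167684)] (nat_lit 12140233)) p12_22_1 (nat_lit 3) (nat_lit 186) (nat_lit 187) = true := by decide +kernel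
def p12_22_1_187 : pfC (piC [(nat_lit 30365544), (nat_lit 20402210), (nat_lit 13167684)] (nat_lit 12140233)) p12_22_1 (nat_lit 3) (nat_lit 187) (nat_lit 188) = true := by decide +kernel
def p12_22_1_188 : pfC (piC [(nat_lit 30365544), (nat_lit 20402210), (nat_lit 13167684)] (nat_lit 12140233)) p12_22_1 (nat_lit 3) (nat_lit 188) (nat_lit 189) = true := by decide +kernel
def p12_22_1_189 : pfC (piC [(nat_lit 30365544), (nat_lit 20402210), (nat_lit 13167684)] (nat_lit 12140233)) p12_22_1 (nat_lit 3) (nat_lit 189) (nat_lit 190) = true := by decide +kernel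
def p12_22_1_190 : pfC (piC [(nat_lit 30365544), (nat_lit 20402210), (nat_lit 13167684)] (nat_lit 12140233)) p12_22_1 (nat_lit 3) (nat_lit 190) (nat_lit 191) = true := by decide +kernel
def p12_22_1_191 : pfC (piC [(nat_lit 30365544), (nat_lit 20402210), (nat_lit 13167684)] (nat_lit 12140233)) p12_22_1 (nat_lit 3) (nat_lit 191) (nat_lit 192) = true := by decide +kernel
def p12_22_1_192 : pfC (piC [(nat_lit 30365544), (nat_lit 20402210), (nat_lit 13167684)] (nat_lit 12140233)) p12_22_1 (nat_lit 3) (nat_lit 192) (nat_lit 193) = true := by decide +kernel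
def p12_22_1_193 : pfC (piC [(nat_lit 30365544), (nat_lit 20402210), (nat_lit 13167684)] (nat_lit 12140233)) p12_22_1 (nat_lit 3) (nat_lit 193) (nat_lit 194) = true := by decide +kernel
def p12_22_1_194 : pfC (piC [(nat_lit 30365544), (nat_lit 20402210), (nat_lit 13167684)] (nat_lit 12140233)) p12_22_1 (nat_lit 3) (nat_lit 194) (nat_lit 195) = true := by decide +kernel
def p12_22_1_195 : pfC (piC [(nat_lit 30365544), (nat_lit 20402210), (nat_lit 13167684)] (nat_lit 12140233)) p12_22_1 (nat_lit 3) (nat_lit 195) (nat_lit 196) = true := by decide +kernel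
def p12_22_1_196 : pfC (piC [(nat_lit 30365544), (nat_lit 20402210), (nat_lit 13167684)] (nat_lit 12140233)) p12_22_1 (nat_lit 3) (nat_lit 196) (nat_lit 197) = true := by decide +kernel
def p12_22_1_197 : pfC (piC [(nat_lit 30365544), (nat_lit 20402210), (nat_lit 13167684)] (nat_lit 12140233)) p12_22_1 (nat_lit 3) (nat_lit 197) (nat_lit 198) = true := by decide +kernel
def p12_22_1_198 : pfC (piC [(nat_lit 30365544), (nat_lit 20402210), (nat_lit 13167684)] (nat_lit 12140233)) p12_22_1 (nat_lit 3) (nat_lit 198) (nat_lit 199) = true := by decide +kernel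
def p12_22_1_199 : pfC (piC [(nat_lit 30365544), (nat_lit 20402210), (nat_lit 13167684)] (nat_lit 12140233)) p12_22_1 (nat_lit 3) (nat_lit 199) (nat_lit 200) = true := by decide +kernel
def p12_22_1_200 : pfC (piC [(nat_lit 30365544), (nat_lit 20402210), (nat_lit 13167684)] (nat_lit 12140233)) p12_22_1 (nat_lit 3) (nat_lit 200) (nat_lit 201) = true := by decide +kernel
def p12_22_1_201 : pfC (piC [(nat_lit 30365544), (nat_lit 20402210), (nat_lit 13167684)] (nat_lit 12140233)) p12_22_1 (nat_lit 3) (nat_lit 201) (nat_lit 202) = true := by decide +kernel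
def p12_22_1_202 : pfC (piC [(nat_lit 30365544), (nat_lit 20402210), (nat_lit 13167684)] (nat_lit 12140233)) p12_22_1 (nat_lit 3) (nat_lit 202) (nat_lit 203) = true := by decide +kernel
def p12_22_1_203 : pfC (piC [(nat_lit 30365544), (nat_lit 20402210), (nat_lit 13167684)] (nat_lit 12140233)) p12_22_1 (nat_lit 3) (nat_lit 203) (nat_lit 204) = true := by decide +kernel
def p12_22_1_204 : pfC (piC [(nat_lit 30365544), (nat_lit 20402210), (nat_lit 13167684)] (nat_lit 12140233)) p12_22_1 (nat_lit 3) (nat_lit 204) (nat_lit 205) = true := by decide +kernel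
def p12_22_1_205 : pfC (piC [(nat_lit 30365544), (nat_lit 20402210), (nat_lit 13167684)] (nat_lit 12140233)) p12_22_1 (nat_lit 3) (nat_lit 205) (nat_lit 206) = true := by decide +kernel
def p12_22_1_206 : pfC (piC [(nat_lit 30365544), (nat_lit 20402210), (nat_lit 13167684)] (nat_lit 12140233)) p12_22_1 (nat_lit 3) (nat_lit 206) (nat_lit 207) = true := by decide +kernel
def p12_22_1_207 : pfC (piC [(nat_lit 30365544), (nat_lit 20402210), (nat_lit 13167684)] (nat_lit 12140233)) p12_22_1 (nat_lit 3) (nat_lit 207) (nat_lit 208) = true := by decide +kernel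
def p12_22_1_208 : pfC (piC [(nat_lit 30365544), (nat_lit 20402210), (nat_lit 13167684)] (nat_lit 12140233)) p12_22_1 (nat_lit 3) (nat_lit 208) (nat_lit 209) = true := by decide +kernel
def p12_22_1_209 : pfC (piC [(nat_lit 30365544), (nat_lit 20402210), (nat_lit 13167684)] (nat_lit 12140233)) p12_22_1 (nat_lit 3) (nat_lit 209) (nat_lit 210) = true := by decide +kernel
def p12_22_1_210 : pfC (piC [(nat_lit 30365544), (nat_lit 20402210), (nat_lit 13167684)] (nat_lit 12140233)) p12_22_1 (nat_lit 3) (nat_lit 210) (nat_lit 211) = true := by decide +kernel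
def p12_22_1_211 : pfC (piC [(nat_lit 30365544), (nat_lit 20402210), (nat_lit 13167684)] (nat_lit 12140233)) p12_22_1 (nat_lit 3) (nat_lit 211) (nat_lit 212) = true := by decide +kernel
def p12_22_1_212 : pfC (piC [(nat_lit 30365544), (nat_lit 20402210), (nat_lit 13167684)] (nat_lit 12140233)) p12_22_1 (nat_lit 3) (nat_lit 212) (nat_lit 213) = true := by decide +kernel
def p12_22_1_213 : pfC (piC [(nat_lit 30365544), (nat_lit 20402210), (nat_lit 13167684)] (nat_lit 12140233)) p12_22_1 (nat_lit 3) (nat_lit 213) (nat_lit 214) = true := by decide +kernel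
def p12_22_1_214 : pfC (piC [(nat_lit 30365544), (nat_lit 20402210), (nat_lit 13167684)] (nat_lit 12140233)) p12_22_1 (nat_lit 3) (nat_lit 214) (nat_lit 215) = true := by decide +kernel
def p12_22_1_215 : pfC (piC [(nat_lit 30365544), (nat_lit 20402210), (nat_lit 13167684)] (nat_lit 12140233)) p12_22_1 (nat_lit 3) (nat_lit 215) (nat_lit 216) = true := by decide +kernel
def p12_22_1_216 : pfC (piC [(nat_lit 30365544), (nat_lit 20402210), (nat_lit 13167684)] (nat_lit 12140233)) p12_22_1 (nat_lit 3) (nat_lit 216) (nat_lit 217) = true := by decide +kernel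
def p12_22_1_217 : pfC (piC [(nat_lit 30365544), (nat_lit 20402210), (nat_lit 13167684)] (nat_lit 12140233)) p12_22_1 (nat_lit 3) (nat_lit 217) (nat_lit 218) = true := by decide +kernel
def p12_22_1_218 : pfC (piC [(nat_lit 30365544), (nat_lit 20402210), (nat_lit 13167684)] (nat_lit 12140233)) p12_22_1 (nat_lit 3) (nat_lit 218) (nat_lit 219) = true := by decide +kernel
def p12_22_1_219 : pfC (piC [(nat_lit 30365544), (nat_lit 20402210), (nat_lit 13167684)] (nat_lit 12140233)) p12_22_1 (nat_lit 3) (nat_lit 219) (nat_lit 220) = true := by decide +kernel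
def p12_22_1_220 : pfC (piC [(nat_lit 30365544), (nat_lit 20402210), (nat_lit 13167684)] (nat_lit 12140233)) p12_22_1 (nat_lit 3) (nat_lit 220) (nat_lit 221) = true := by decide +kernel
def p12_22_1_221 : pfC (piC [(nat_lit 30365544), (nat_lit 20402210), (nat_lit 13167684)] (nat_lit 12140233)) p12_22_1 (nat_lit 3) (nat_lit 221) (nat_lit 222) = true := by decide +kernel
def p12_22_1_222 : pfC (piC [(nat_lit 30365544), (nat_lit 20402210), (nat_lit 13167684)] (nat_lit 12140233)) p12_22_1 (nat_lit 3) (nat_lit 222) (nat_lit 223) = true := by decide +kernel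
def p12_22_1_223 : pfC (piC [(nat_lit 30365544), (nat_lit 20402210), (nat_lit 13167684)] (nat_lit 12140233)) p12_22_1 (nat_lit 3) (nat_lit 223) (nat_lit 224) = true := by decide +kernel
def p12_22_1_224 : pfC (piC [(nat_lit 30365544), (nat_lit 20402210), (nat_lit 13167684)] (nat_lit 12140233)) p12_22_1 (nat_lit 3) (nat_lit 224) (nat_lit 225) = true := by decide +kernel
def p12_22_1_225 : pfC (piC [(nat_lit 30365544), (nat_lit 20402210), (nat_lit 13167684)] (nat_lit 12140233)) p12_22_1 (nat_lit 3) (nat_lit 225) (nat_lit 226) = true := by decide +kernel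
def p12_22_1_226 : pfC (piC [(nat_lit 30365544), (nat_lit 20402210), (nat_lit 13167684)] (nat_lit 12140233)) p12_22_1 (nat_lit 3) (nat_lit 226) (nat_lit 227) = true := by decide +kernel
def p12_22_1_227 : pfC (piC [(nat_lit 30365544), (nat_lit 20402210), (nat_lit 13167684)] (nat_lit 12140233)) p12_22_1 (nat_lit 3) (nat_lit 227) (nat_lit 228) = true := by decide +kernel
def p12_22_1_228 : pfC (piC [(nat_lit 30365544), (nat_lit 20402210), (nat_lit 13167684)] (nat_lit 12140233)) p12_22_1 (nat_lit 3) (nat_lit 228) (nat_lit 229) = true := by decide +kernel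
def p12_22_1_229 : pfC (piC [(nat_lit 30365544), (nat_lit 20402210), (nat_lit 13167684)] (nat_lit 12140233)) p12_22_1 (nat_lit 3) (nat_lit 229) (nat_lit 230) = true := by decide +kernel
def p12_22_1_230 : pfC (piC [(nat_lit 30365544), (nat_lit 20402210), (nat_lit 13167684)] (nat_lit 12140233)) p12_22_1 (nat_lit 3) (nat_lit 230) (nat_lit 231) = true := by decide +kernel
def p12_22_1_231 : pfC (piC [(nat_lit 30365544), (nat_lit 20402210), (nat_lit 13167684)] (nat_lit 12140233)) p12_22_1 (nat_lit 3) (nat_lit 231) (nat_lit 232) = true := by decide +kernel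
def p12_22_1_232 : pfC (piC [(nat_lit 30365544), (nat_lit 20402210), (nat_lit 13167684)] (nat_lit 12140233)) p12_22_1 (nat_lit 3) (nat_lit 232) (nat_lit 233) = true := by decide +kernel
def p12_22_1_233 : pfC (piC [(nat_lit 30365544), (nat_lit 20402210), (nat_lit 13167684)] (nat_lit 12140233)) p12_22_1 (nat_lit 3) (nat_lit 233) (nat_lit 234) = true := by decide +kernel
def p12_22_1_234 : pfC (piC [(nat_lit 30365544), (nat_lit 20402210), (nat_lit 13167684)] (nat_lit 12140233)) p12_22_1 (nat_lit 3) (nat_lit 234) (nat_lit 235) = true := by decide +kernel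
def p12_22_1_235 : pfC (piC [(nat_lit 30365544), (nat_lit 20402210), (nat_lit 13167684)] (nat_lit 12140233)) p12_22_1 (nat_lit 3) (nat_lit 235) (nat_lit 236) = true := by decide +kernel
def p12_22_1_236 : pfC (piC [(nat_lit 30365544), (nat_lit 20402210), (nat_lit 13167684)] (nat_lit 12140233)) p12_22_1 (nat_lit 3) (nat_lit 236) (nat_lit 237) = true := by decide +kernel
def p12_22_1_237 : pfC (piC [(nat_lit 30365544), (nat_lit 20402210), (nat_lit 13167684)] (nat_lit 12140233)) p12_22_1 (nat_lit 3) (nat_lit 237) (nat_lit 238) = true := by decide +kernel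
def p12_22_1_238 : pfC (piC [(nat_lit 30365544), (nat_lit 20402210), (nat_lit 13167684)] (nat_lit 12140233)) p12_22_1 (nat_lit 3) (nat_lit 238) (nat_lit 239) = true := by decide +kernel
def p12_22_1_239 : pfC (piC [(nat_lit 30365544), (nat_lit 20402210), (nat_lit 13167684)] (nat_lit 12140233)) p12_22_1 (nat_lit 3) (nat_lit 239) (nat_lit 240) = true := by decide +kernel
theorem p12_22_1_T : PfS (PiF n12_22.reverse (nat_lit 12140233)) p12_22_1 (nat_lit 3) [] 0 :=
  pftab_of (los := [(nat_lit 30365544), (nat_lit 20402210), (nat_lit 13167684)]) (by decide +kernel) (hi := (nat_lit 240)) (PfP.trans (PfP.trans (PfP.trans (PfP.trans (PfP.trans (PfP.trans (PfP.trans (PfP.trans (PfP.trans (PfP.trans (PfP.trans (PfP.trans (PfP.trans (PfP.trans (PfP.trans (PfP.trans (PfP.trans (PfP.trans (PfP.trans (PfP.trans (PfP.trans (PfP.trans (PfP.trans (PfP.trans (PfP.trans (PfP.trans (PfP.trans (PfP.trans (PfP.trans (PfP.trans (PfP.trans (PfP.trans (PfP.trans (PfP.trans (PfP.trans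 (PfP.trans (PfP.trans (PfP.trans (PfP.trans (PfP.trans (PfP.trans (PfP.trans (PfP.trans (PfP.trans (PfP.trans (PfP.trans (PfP.trans (PfP.trans (PfP.trans (PfP.trans (PfP.trans (PfP.trans (PfP.trans (PfP.trans (PfP.trans (PfP.trans (PfP.trans (PfP.trans (PfP.trans (PfP.trans (PfP.trans (PfP.trans (PfP.trans (PfP.trans (PfP.trans (PfP.trans (PfP.trans (PfP.trans (PfP.trans (PfP.trans (PfP.trans (PfP.trans (PfP.trans (PfP.trans (PfP.trans (PfP.trans (PfP.trans (PfP.trans (PfP.trans (PfP.trans (PfP.trans (PfP.trans (PfP.trans (PfP.trans (PfP.trans (PfP.trans (PfP.trans (PfP.trans (PfP.trans (PfP.trans (PfP.trans (PfP.trans (PfP.trans (PfP.trans (PfP.trans (PfP.trans (PfP.trans (PfP.trans (PfP.trans (PfP.trans (PfP.trans (PfP.trans (PfP.trans (PfP.trans (PfP.trans (PfP.trans (PfP.trans (PfP.trans (PfP.trans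
 (PfP.trans (PfP.trans (PfP.trans (PfP.trans (PfP.trans (PfP.trans (PfP.trans (PfP.trans (PfP.trans (PfP.trans (PfP.trans (PfP.trans (PfP.trans (PfP.trans (PfP.trans (PfP.trans (PfP.trans (PfP.trans (PfP.trans (PfP.trans (PfP.trans (PfP.trans (PfP.trans (PfP.trans (PfP.trans (PfP.trans (PfP.trans (PfP.trans (PfP.trans (PfP.trans (PfP.trans (PfP.trans (PfP.trans (PfP.trans (PfP.trans (PfP.trans (PfP.trans (PfP.trans (PfP.trans (PfP.trans (PfP.trans (PfP.trans (PfP.trans (PfP.trans (PfP.trans (PfP.trans (PfP.trans (PfP.trans (PfP.trans (PfP.trans (PfP.trans (PfP.trans (PfP.trans (PfP.trans (PfP.trans (PfP.trans (PfP.trans (PfP.trans (PfP.trans (PfP.trans (PfP.trans (PfP.trans (PfP.trans (PfP.trans (PfP.trans (PfP.trans (PfP.trans (PfP.trans (PfP.trans (PfP.trans (PfP.trans (PfP.trans (PfP.trans (PfP.trans (PfP.trans (PfP.trans (PfP.trans (PfP.trans (PfP.trans (PfP.trans (PfP.trans (PfP.trans (PfP.trans (PfP.trans (PfP.trans (PfP.trans (PfP.trans (PfP.trans (PfP.trans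 (PfP.trans (PfP.trans (PfP.trans (PfP.trans (PfP.trans (PfP.trans (PfP.trans (PfP.trans (PfP.trans (PfP.trans (PfP.trans (PfP.trans (PfP.trans (PfP.trans (PfP.trans (PfP.trans (PfP.trans (PfP.trans (PfP.trans (PfP.trans
 (PfP.trans (PfP.trans (PfP.trans (PfP.trans (PfP.trans (PfP.trans (PfP.trans (PfP.trans (PfP.trans (PfP.trans (PfP.trans (PfP.trans (PfP.trans (PfP.trans (PfP.trans (PfP.trans (PfP.trans (PfP.trans (PfP.trans (PfP.trans (PfP.trans (pfC_sound p12_22_1_0) (pfC_sound p12_22_1_1)) (pfC_sound p12_22_1_2)) (pfC_sound p12_22_1_3)) (pfC_sound p12_22_1_4)) (pfC_sound p12_22_1_5)) (pfC_sound p12_22_1_6)) (pfC_sound p12_22_1_7)) (pfC_sound p12_22_1_8)) (pfC_sound p12_22_1_9)) (pfC_sound p12_22_1_10)) (pfC_sound p12_22_1_11)) (pfC_sound p12_22_1_12)) (pfC_sound p12_22_1_13)) (pfC_sound p12_22_1_14)) (pfC_sound p12_22_1_15)) (pfC_sound p12_22_1_16)) (pfC_sound p12_22_1_17)) (pfC_sound p12_22_1_18)) (pfC_sound p12_22_1_19)) (pfC_sound p12_22_1_20)) (pfC_sound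 p12_22_1_21)) (pfC_sound p12_22_1_22)) (pfC_sound p12_22_1_23)) (pfC_sound p12_22_1_24)) (pfC_sound p12_22_1_25)) (pfC_sound p12_22_1_26)) (pfC_sound p12_22_1_27)) (pfC_sound p12_22_1_28)) (pfC_sound p12_22_1_29)) (pfC_sound p12_22_1_30)) (pfC_sound p12_22_1_31)) (pfC_sound p12_22_1_32)) (pfC_sound p12_22_1_33)) (pfC_sound p12_22_1_34)) (pfC_sound p12_22_1_35)) (pfC_sound p12_22_1_36)) (pfC_sound p12_22_1_37)) (pfC_sound p12_22_1_38))
 (pfC_sound p12_22_1_39)) (pfC_sound p12_22_1_40)) (pfC_sound p12_22_1_41)) (pfC_sound p12_22_1_42)) (pfC_sound p12_22_1_43)) (pfC_sound p12_22_1_44)) (pfC_sound p12_22_1_45)) (pfC_sound p12_22_1_46)) (pfC_sound p12_22_1_47)) (pfC_sound p12_22_1_48)) (pfC_sound p12_22_1_49)) (pfC_sound p12_22_1_50)) (pfC_sound p12_22_1_51)) (pfC_sound p12_22_1_52)) (pfC_sound p12_22_1_53)) (pfC_sound p12_22_1_54)) (pfC_sound p12_22_1_55)) (pfC_sound p12_22_1_56)) (pfC_sound p12_22_1_57)) (pfC_sound p12_22_1_58)) (pfC_sound p12_22_1_59)) (pfC_sound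 p12_22_1_60)) (pfC_sound p12_22_1_61)) (pfC_sound p12_22_1_62)) (pfC_sound p12_22_1_63)) (pfC_sound p12_22_1_64)) (pfC_sound p12_22_1_65)) (pfC_sound p12_22_1_66)) (pfC_sound p12_22_1_67)) (pfC_sound p12_22_1_68)) (pfC_sound p12_22_1_69)) (pfC_sound p12_22_1_70)) (pfC_sound p12_22_1_71)) (pfC_sound p12_22_1_72)) (pfC_sound p12_22_1_73)) (pfC_sound p12_22_1_74)) (pfC_sound p12_22_1_75)) (pfC_sound p12_22_1_76)) (pfC_sound p12_22_1_77)) (pfC_sound p12_22_1_78)) (pfC_sound p12_22_1_79)) (pfC_sound p12_22_1_80)) (pfC_sound p12_22_1_81)) (pfC_sound p12_22_1_82)) (pfC_sound p12_22_1_83)) (pfC_sound p12_22_1_84)) (pfC_sound p12_22_1_85)) (pfC_sound p12_22_1_86))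
 (pfC_sound p12_22_1_87)) (pfC_sound p12_22_1_88)) (pfC_sound p12_22_1_89)) (pfC_sound p12_22_1_90)) (pfC_sound p12_22_1_91)) (pfC_sound p12_22_1_92)) (pfC_sound p12_22_1_93)) (pfC_sound p12_22_1_94)) (pfC_sound p12_22_1_95)) (pfC_sound p12_22_1_96)) (pfC_sound p12_22_1_97)) (pfC_sound p12_22_1_98)) (pfC_sound p12_22_1_99)) (pfC_sound p12_22_1_100)) (pfC_sound p12_22_1_101)) (pfC_sound p12_22_1_102)) (pfC_sound p12_22_1_103)) (pfC_sound p12_22_1_104)) (pfC_sound p12_22_1_105)) (pfC_sound p12_22_1_106)) (pfC_sound p12_22_1_107)) (pfC_sound p12_22_1_108)) (pfC_sound p12_22_1_109)) (pfC_sound p12_22_1_110)) (pfC_sound p12_22_1_111)) (pfC_sound p12_22_1_112)) (pfC_sound p12_22_1_113)) (pfC_sound p12_22_1_114)) (pfC_sound p12_22_1_115)) (pfC_sound p12_22_1_116)) (pfC_sound p12_22_1_117)) (pfC_sound p12_22_1_118)) (pfC_sound p12_22_1_119)) (pfC_sound p12_22_1_120)) (pfC_sound p12_22_1_121)) (pfC_sound p12_22_1_122)) (pfC_sound p12_22_1_123)) (pfC_sound p12_22_1_124))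 (pfC_sound p12_22_1_125)) (pfC_sound p12_22_1_126)) (pfC_sound p12_22_1_127)) (pfC_sound p12_22_1_128)) (pfC_sound p12_22_1_129)) (pfC_sound p12_22_1_130)) (pfC_sound p12_22_1_131)) (pfC_sound p12_22_1_132)) (pfC_sound
 p12_22_1_133)) (pfC_sound p12_22_1_134)) (pfC_sound p12_22_1_135)) (pfC_sound p12_22_1_136)) (pfC_sound p12_22_1_137)) (pfC_sound p12_22_1_138)) (pfC_sound p12_22_1_139)) (pfC_sound p12_22_1_140)) (pfC_sound p12_22_1_141)) (pfC_sound p12_22_1_142)) (pfC_sound p12_22_1_143)) (pfC_sound p12_22_1_144)) (pfC_sound p12_22_1_145)) (pfC_sound p12_22_1_146)) (pfC_sound p12_22_1_147)) (pfC_sound p12_22_1_148)) (pfC_sound p12_22_1_149)) (pfC_sound p12_22_1_150)) (pfC_sound p12_22_1_151)) (pfC_sound p12_22_1_152)) (pfC_sound p12_22_1_153)) (pfC_sound p12_22_1_154)) (pfC_sound p12_22_1_155)) (pfC_sound p12_22_1_156)) (pfC_sound p12_22_1_157)) (pfC_sound p12_22_1_158)) (pfC_sound p12_22_1_159)) (pfC_sound p12_22_1_160)) (pfC_sound p12_22_1_161)) (pfC_sound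 p12_22_1_162)) (pfC_sound p12_22_1_163)) (pfC_sound p12_22_1_164)) (pfC_sound p12_22_1_165)) (pfC_sound p12_22_1_166)) (pfC_sound p12_22_1_167)) (pfC_sound p12_22_1_168)) (pfC_sound p12_22_1_169)) (pfC_sound p12_22_1_170)) (pfC_sound p12_22_1_171)) (pfC_sound p12_22_1_172)) (pfC_sound p12_22_1_173)) (pfC_sound p12_22_1_174)) (pfC_sound p12_22_1_175)) (pfC_sound p12_22_1_176)) (pfC_sound p12_22_1_177)) (pfC_sound p12_22_1_178)) (pfC_sound
 p12_22_1_179)) (pfC_sound p12_22_1_180)) (pfC_sound p12_22_1_181)) (pfC_sound p12_22_1_182)) (pfC_sound p12_22_1_183)) (pfC_sound p12_22_1_184)) (pfC_sound p12_22_1_185)) (pfC_sound p12_22_1_186)) (pfC_sound p12_22_1_187)) (pfC_sound p12_22_1_188)) (pfC_sound p12_22_1_189)) (pfC_sound p12_22_1_190)) (pfC_sound p12_22_1_191)) (pfC_sound p12_22_1_192)) (pfC_sound p12_22_1_193)) (pfC_sound p12_22_1_194)) (pfC_sound p12_22_1_195)) (pfC_sound p12_22_1_196)) (pfC_sound p12_22_1_197)) (pfC_sound p12_22_1_198)) (pfC_sound p12_22_1_199))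 (pfC_sound p12_22_1_200)) (pfC_sound p12_22_1_201)) (pfC_sound p12_22_1_202)) (pfC_sound p12_22_1_203)) (pfC_sound p12_22_1_204)) (pfC_sound p12_22_1_205)) (pfC_sound p12_22_1_206)) (pfC_sound p12_22_1_207)) (pfC_sound p12_22_1_208)) (pfC_sound p12_22_1_209)) (pfC_sound p12_22_1_210)) (pfC_sound p12_22_1_211)) (pfC_sound p12_22_1_212)) (pfC_sound p12_22_1_213)) (pfC_sound p12_22_1_214)) (pfC_sound p12_22_1_215)) (pfC_sound p12_22_1_216)) (pfC_sound p12_22_1_217)) (pfC_sound p12_22_1_218)) (pfC_sound p12_22_1_219)) (pfC_sound p12_22_1_220)) (pfC_sound p12_22_1_221)) (pfC_sound p12_22_1_222)) (pfC_sound p12_22_1_223)) (pfC_sound p12_22_1_224)) (pfC_sound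
 p12_22_1_225)) (pfC_sound p12_22_1_226)) (pfC_sound p12_22_1_227)) (pfC_sound p12_22_1_228)) (pfC_sound p12_22_1_229)) (pfC_sound p12_22_1_230)) (pfC_sound p12_22_1_231)) (pfC_sound p12_22_1_232)) (pfC_sound p12_22_1_233)) (pfC_sound p12_22_1_234)) (pfC_sound p12_22_1_235)) (pfC_sound p12_22_1_236)) (pfC_sound p12_22_1_237)) (pfC_sound p12_22_1_238)) (pfC_sound p12_22_1_239)) (by decide +kernel)

def z12_22_1 : zOK yB12_22 (nat_lit 1) (nat_lit 400) (nat_lit 601) (nat_lit 12140233) (nat_lit 9238191) = true := by decide +kernel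
def g12_22_1 : gOK yB12_22.x P12_22 (nat_lit 1345) (q12_22 :: r12_22) (nat_lit 1) (nat_lit 400) (nat_lit 2) (nat_lit 601) (nat_lit 11000000) (nat_lit 17884250) (nat_lit 12712500) (nat_lit 12712500) [(nat_lit 800), (nat_lit 1600)] = true := by decide +kernel
/-! box `yB13_0` -/

def P13_0 : BQ := ⟨(nat_lit 8), (nat_lit 4), (nat_lit 4), (nat_lit 0), (nat_lit 8), (nat_lit 540), (nat_lit 560), (nat_lit 120), [(nat_lit 200), (nat_lit 300), (nat_lit 450), (nat_lit 800)], (nat_lit 5680000), (nat_lit 16000000), (nat_lit 16000000000)⟩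
def q13_0 : PC := ⟨(nat_lit 1000), [(nat_lit 120000), (nat_lit 200000), (nat_lit 300000), (nat_lit 450000), (nat_lit 800000)], (nat_lit 340282367000166625996085689103316680705000000), (nat_lit 15994320000000), (nat_lit 15994320000000), (nat_lit 10000000)⟩
def r13_0 : List PC := [⟨(nat_lit 1395), [(nat_lit 120564), (nat_lit 201029), (nat_lit 301709), (nat_lit 453271), (nat_lit 799726)], (nat_lit 342576891000938118922467043127199766376567178), (nat_lit 16545756890400), (nat_lit 16562066788000), (nat_lit 10072689)⟩]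
def s13_0 : List PB := [⟨(nat_lit 27900), (nat_lit 1929024000000), [(nat_lit 201029), (nat_lit 301709), (nat_lit 453271), (nat_lit 799726)], (nat_lit 342576891000938118922467043127199766376567178), (nat_lit 1142445663733024), (nat_lit 1142461973630624), (nat_lit 63200)⟩]
def n13_0 : List KN := [⟨(nat_lit 800), (nat_lit 450), (nat_lit 14696761), (nat_lit 11615522)⟩, ⟨(nat_lit 450), (nat_lit 300), (nat_lit 20402210), (nat_lit 14696761)⟩, ⟨(nat_lit 300), (nat_lit 200), (nat_lit 23968959), (nat_lit 20402210)⟩, ⟨(nat_lit 200), (nat_lit 120), (nat_lit 30159351), (nat_lit 23968959)⟩]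
def w13_0 : List ℕ := [(nat_lit 63200)]
def par13_0 : parC yB13_0 P13_0 s13_0 r13_0 q13_0 n13_0 w13_0 = true := by decide +kernel

def p13_0_0 : PF := (PF.cons (PF.cons (PF.cons (PF.cons (PF.leaf (nat_lit 0) (nat_lit 67108813) (nat_lit 67108813) (nat_lit 0) [(nat_lit 0), (nat_lit 0), (nat_lit 0), (nat_lit 0)]) (PF.cons (PF.leaf (nat_lit 141332) (nat_lit 297909) (nat_lit 66810903) (nat_lit 0) [(nat_lit 297909), (nat_lit 0), (nat_lit 0), (nat_lit 0)]) (PF.cons PF.nil (PF.cons PF.nil PF.nil)))) (PF.cons (PF.cons (PF.leaf (nat_lit 318034) (nat_lit 784615) (nat_lit 66324197) (nat_lit 0) [(nat_lit 0), (nat_lit 784615), (nat_lit 0), (nat_lit 0)]) (PF.cons PF.nil PF.nil)) (PF.cons PF.nil PF.nil))) (PF.cons (PF.cons (PF.cons (PF.leaf (nat_lit 656778) (nat_lit 1948299) (nat_lit 65160513) (nat_lit 0) [(nat_lit 0), (nat_lit 0), (nat_lit 1948299), (nat_lit 0)]) (PF.cons PF.nil PF.nil)) (PF.cons PF.nil PF.nil)) (PF.cons PF.nil PF.nil))) (PF.cons (PF.cons (PF.cons (PF.cons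 (PF.leaf (nat_lit 1231085) (nat_lit 4506724) (nat_lit 62602088) (nat_lit 0) [(nat_lit 0), (nat_lit 0), (nat_lit 0), (nat_lit 4506724)]) (PF.cons (PF.leaf (nat_lit 1535775) (nat_lit 564508) (nat_lit 61925585) (nat_lit 0) [(nat_lit 564508), (nat_lit 0), (nat_lit 0), (nat_lit 4618718)]) (PF.cons (PF.leaf (nat_lit 1898125) (nat_lit 621255) (nat_lit 61131213) (nat_lit 0)
 [(nat_lit 621255), (nat_lit 0), (nat_lit 0), (nat_lit 4735089)]) (PF.cons PF.nil PF.nil)))) (PF.cons (PF.cons (PF.leaf (nat_lit 1786718) (nat_lit 1201648) (nat_lit 61187083) (nat_lit 0) [(nat_lit 0), (nat_lit 1201648), (nat_lit 0), (nat_lit 4720081)]) (PF.cons PF.nil PF.nil)) (PF.cons PF.nil PF.nil))) (PF.cons (PF.cons (PF.cons (PF.leaf (nat_lit 2193874) (nat_lit 2496140) (nat_lit 59742616) (nat_lit 0) [(nat_lit 0), (nat_lit 0), (nat_lit 2496140), (nat_lit 4870056)]) (PF.cons PF.nil PF.nil)) (PF.cons PF.nil PF.nil)) (PF.cons PF.nil PF.nil))) (PF.cons (PF.cons (PF.cons (PF.cons (PF.leaf (nat_lit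 2795535) (nat_lit 5030593) (nat_lit 57047626) (nat_lit 0) [(nat_lit 0), (nat_lit 0), (nat_lit 0), (nat_lit 5030593)]) (PF.cons (PF.leaf (nat_lit 3201827) (nat_lit 738679) (nat_lit 56169981) (nat_lit 0) [(nat_lit 738679), (nat_lit 0), (nat_lit 0), (nat_lit 5100076)]) PF.nil)) (PF.cons PF.nil PF.nil)) (PF.cons PF.nil PF.nil)) (PF.cons PF.nil (PF.cons PF.nil (PF.cons PF.nil PF.nil))))))

def p13_0_0_0 : pfC (piC [(nat_lit 30159351), (nat_lit 23968959), (nat_lit 20402210), (nat_lit 14696761)] (nat_lit 0)) p13_0_0 (nat_lit 4) (nat_lit 0) (nat_lit 2) = true := by decide +kernel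
def p13_0_0_1 : pfC (piC [(nat_lit 30159351), (nat_lit 23968959), (nat_lit 20402210), (nat_lit 14696761)] (nat_lit 0)) p13_0_0 (nat_lit 4) (nat_lit 2) (nat_lit 4) = true := by decide +kernel
def p13_0_0_2 : pfC (piC [(nat_lit 30159351), (nat_lit 23968959), (nat_lit 20402210), (nat_lit 14696761)] (nat_lit 0)) p13_0_0 (nat_lit 4) (nat_lit 4) (nat_lit 5) = true := by decide +kernel
def p13_0_0_3 : pfC (piC [(nat_lit 30159351), (nat_lit 23968959), (nat_lit 20402210), (nat_lit 14696761)] (nat_lit 0)) p13_0_0 (nat_lit 4) (nat_lit 5) (nat_lit 6) = true := by decide +kernel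
def p13_0_0_4 : pfC (piC [(nat_lit 30159351), (nat_lit 23968959), (nat_lit 20402210), (nat_lit 14696761)] (nat_lit 0)) p13_0_0 (nat_lit 4) (nat_lit 6) (nat_lit 7) = true := by decide +kernel
def p13_0_0_5 : pfC (piC [(nat_lit 30159351), (nat_lit 23968959), (nat_lit 20402210), (nat_lit 14696761)] (nat_lit 0)) p13_0_0 (nat_lit 4) (nat_lit 7) (nat_lit 8) = true := by decide +kernel
def p13_0_0_6 : pfC (piC [(nat_lit 30159351), (nat_lit 23968959), (nat_lit 20402210), (nat_lit 14696761)] (nat_lit 0)) p13_0_0 (nat_lit 4) (nat_lit 8) (nat_lit 9) = true := by decide +kernel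
def p13_0_0_7 : pfC (piC [(nat_lit 30159351), (nat_lit 23968959), (nat_lit 20402210), (nat_lit 14696761)] (nat_lit 0)) p13_0_0 (nat_lit 4) (nat_lit 9) (nat_lit 10) = true := by decide +kernel
def p13_0_0_8 : pfC (piC [(nat_lit 30159351), (nat_lit 23968959), (nat_lit 20402210), (nat_lit 14696761)] (nat_lit 0)) p13_0_0 (nat_lit 4) (nat_lit 10) (nat_lit 11) = true := by decide +kernel
theorem p13_0_0_T : PfS (PiF n13_0.reverse (nat_lit 0)) p13_0_0 (nat_lit 4) [] 0 :=
  pftab_of (los := [(nat_lit 30159351), (nat_lit 23968959), (nat_lit 20402210), (nat_lit 14696761)]) (by decide +kernel) (hi := (nat_lit 11)) (PfP.trans (PfP.trans (PfP.trans (PfP.trans (PfP.trans (PfP.trans (PfP.trans (PfP.trans (pfC_sound p13_0_0_0) (pfC_sound p13_0_0_1)) (pfC_sound p13_0_0_2)) (pfC_sound p13_0_0_3)) (pfC_sound p13_0_0_4)) (pfC_sound p13_0_0_5)) (pfC_sound p13_0_0_6)) (pfC_sound p13_0_0_7)) (pfC_sound p13_0_0_8)) (by decide +kernel)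

def z13_0_0 : zOK yB13_0 (nat_lit 0) (nat_lit 0) (nat_lit 400) (nat_lit 0) (nat_lit 0) = true := by decide +kernel
def g13_0_0 : gOK yB13_0.x P13_0 (nat_lit 1419) (q13_0 :: r13_0) (nat_lit 0) (nat_lit 0) (nat_lit 1) (nat_lit 400) (nat_lit 0) (nat_lit 11000000) (nat_lit 12712500) (nat_lit 12712500) [(nat_lit 800), (nat_lit 1600)] = true := by decide +kernel
def v13_0_0 : ivC P13_0 s13_0 w13_0 n13_0 (nat_lit 4) (nat_lit 5660) (nat_lit 0) (nat_lit 0) f104_1_0 f112_1_0 (nat_lit 1) (nat_lit 400) f104_1_400 f112_1_400 (nat_lit 0) (nat_lit 0) p13_0_0 = true := by decide +kernel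
def p13_0_1 : PF := (PF.cons (PF.cons (PF.cons (PF.cons (PF.leaf (nat_lit 1937171) (nat_lit 8761187) (nat_lit 58347625) (nat_lit 8761187) [(nat_lit 0), (nat_lit 0), (nat_lit 0), (nat_lit 0)]) (PF.cons PF.nil PF.nil)) (PF.cons PF.nil PF.nil)) (PF.cons PF.nil PF.nil)) (PF.cons (PF.cons (PF.cons (PF.cons (PF.leaf (nat_lit 3461861) (nat_lit 5087333) (nat_lit 53047882) (nat_lit 8973597) [(nat_lit 0), (nat_lit 0), (nat_lit 0), (nat_lit 5087333)]) (PF.cons PF.nil PF.nil)) (PF.cons PF.nil PF.nil)) (PF.cons PF.nil PF.nil)) (PF.cons PF.nil (PF.cons PF.nil PF.nil))))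

def p13_0_1_0 : pfC (piC [(nat_lit 30159351), (nat_lit 23968959), (nat_lit 20402210), (nat_lit 14696761)] (nat_lit 12207801)) p13_0_1 (nat_lit 4) (nat_lit 0) (nat_lit 1) = true := by decide +kernel
def p13_0_1_1 : pfC (piC [(nat_lit 30159351), (nat_lit 23968959), (nat_lit 20402210), (nat_lit 14696761)] (nat_lit 12207801)) p13_0_1 (nat_lit 4) (nat_lit 1) (nat_lit 2) = true := by decide +kernel
theorem p13_0_1_T : PfS (PiF n13_0.reverse (nat_lit 12207801)) p13_0_1 (nat_lit 4) [] 0 :=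
  pftab_of (los := [(nat_lit 30159351), (nat_lit 23968959), (nat_lit 20402210), (nat_lit 14696761)]) (by decide +kernel) (hi := (nat_lit 2)) (PfP.trans (pfC_sound p13_0_1_0) (pfC_sound p13_0_1_1)) (by decide +kernel)

def z13_0_1 : zOK yB13_0 (nat_lit 1) (nat_lit 400) (nat_lit 600) (nat_lit 12207801) (nat_lit 6753074) = true := by decide +kernel
def g13_0_1 : gOK yB13_0.x P13_0 (nat_lit 1419) (q13_0 :: r13_0) (nat_lit 1) (nat_lit 400) (nat_lit 2) (nat_lit 600) (nat_lit 11000000) (nat_lit 17850000) (nat_lit 12712500) (nat_lit 12712500) [(nat_lit 800), (nat_lit 1130)] = true := by decide +kernel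
def v13_0_1 : ivC P13_0 s13_0 w13_0 n13_0 (nat_lit 4) (nat_lit 5260) (nat_lit 1) (nat_lit 400) f104_1_400 f112_1_400 (nat_lit 2) (nat_lit 600) f104_1_600 f112_1_600 (nat_lit 12207801) (nat_lit 6753074) p13_0_1 = true := by decide +kernel
def p13_0_2 : PF := (PF.cons (PF.cons (PF.cons (PF.cons (PF.leaf (nat_lit 2783007) (nat_lit 16431316) (nat_lit 50677496) (nat_lit 16431316) [(nat_lit 0), (nat_lit 0), (nat_lit 0), (nat_lit 0)]) (PF.cons (PF.leaf (nat_lit 3087676) (nat_lit 614845) (nat_lit 50111962) (nat_lit 16382004) [(nat_lit 614845), (nat_lit 0), (nat_lit 0), (nat_lit 0)]) (PF.cons PF.nil (PF.cons PF.nil PF.nil)))) (PF.cons (PF.cons (PF.leaf (nat_lit 3322887) (nat_lit 1277007) (nat_lit 49509988) (nat_lit 16321817) [(nat_lit 0), (nat_lit 1277007), (nat_lit 0), (nat_lit 0)]) (PF.cons PF.nil PF.nil)) (PF.cons PF.nil PF.nil))) (PF.cons (PF.cons (PF.cons (PF.leaf (nat_lit 3684345) (nat_lit 2552857) (nat_lit 48368637) (nat_lit 16187317) [(nat_lit 0), (nat_lit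 0), (nat_lit 2552857), (nat_lit 0)]) (PF.cons PF.nil PF.nil)) (PF.cons PF.nil PF.nil)) (PF.cons PF.nil PF.nil))) (PF.cons (PF.cons (PF.cons (PF.cons (PF.leaf (nat_lit 4186831) (nat_lit 4894836) (nat_lit 46327241) (nat_lit 15886734) [(nat_lit 0), (nat_lit 0), (nat_lit 0), (nat_lit 4894836)]) (PF.cons (PF.leaf (nat_lit 4564714) (nat_lit 739264) (nat_lit 45653342) (nat_lit 15791757) [(nat_lit 739264), (nat_lit 0), (nat_lit 0), (nat_lit 4924448)]) PF.nil)) (PF.cons PF.nil PF.nil))
 (PF.cons PF.nil PF.nil)) (PF.cons PF.nil (PF.cons PF.nil PF.nil))))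

def p13_0_2_0 : pfC (piC [(nat_lit 30159351), (nat_lit 23968959), (nat_lit 20402210), (nat_lit 14696761)] (nat_lit 6753074)) p13_0_2 (nat_lit 4) (nat_lit 0) (nat_lit 1) = true := by decide +kernel
def p13_0_2_1 : pfC (piC [(nat_lit 30159351), (nat_lit 23968959), (nat_lit 20402210), (nat_lit 14696761)] (nat_lit 6753074)) p13_0_2 (nat_lit 4) (nat_lit 1) (nat_lit 2) = true := by decide +kernel
def p13_0_2_2 : pfC (piC [(nat_lit 30159351), (nat_lit 23968959), (nat_lit 20402210), (nat_lit 14696761)] (nat_lit 6753074)) p13_0_2 (nat_lit 4) (nat_lit 2) (nat_lit 3) = true := by decide +kernel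
def p13_0_2_3 : pfC (piC [(nat_lit 30159351), (nat_lit 23968959), (nat_lit 20402210), (nat_lit 14696761)] (nat_lit 6753074)) p13_0_2 (nat_lit 4) (nat_lit 3) (nat_lit 4) = true := by decide +kernel
def p13_0_2_4 : pfC (piC [(nat_lit 30159351), (nat_lit 23968959), (nat_lit 20402210), (nat_lit 14696761)] (nat_lit 6753074)) p13_0_2 (nat_lit 4) (nat_lit 4) (nat_lit 5) = true := by decide +kernel
def p13_0_2_5 : pfC (piC [(nat_lit 30159351), (nat_lit 23968959), (nat_lit 20402210), (nat_lit 14696761)] (nat_lit 6753074)) p13_0_2 (nat_lit 4) (nat_lit 5) (nat_lit 6) = true := by decide +kernel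
theorem p13_0_2_T : PfS (PiF n13_0.reverse (nat_lit 6753074)) p13_0_2 (nat_lit 4) [] 0 :=
  pftab_of (los := [(nat_lit 30159351), (nat_lit 23968959), (nat_lit 20402210), (nat_lit 14696761)]) (by decide +kernel) (hi := (nat_lit 6)) (PfP.trans (PfP.trans (PfP.trans (PfP.trans (PfP.trans (pfC_sound p13_0_2_0) (pfC_sound p13_0_2_1)) (pfC_sound p13_0_2_2)) (pfC_sound p13_0_2_3)) (pfC_sound p13_0_2_4)) (pfC_sound p13_0_2_5)) (by decide +kernel)

def z13_0_2 : zOK yB13_0 (nat_lit 2) (nat_lit 600) (nat_lit 750) (nat_lit 6753074) (nat_lit 4509858) = true := by decide +kernel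
def g13_0_2 : gOK yB13_0.x P13_0 (nat_lit 1419) (q13_0 :: r13_0) (nat_lit 2) (nat_lit 600) (nat_lit 3) (nat_lit 750) (nat_lit 12712500) (nat_lit 12712500) (nat_lit 12712500) (nat_lit 12712500) [(nat_lit 800), (nat_lit 1600)] = true := by decide +kernel
def v13_0_2 : ivC P13_0 s13_0 w13_0 n13_0 (nat_lit 4) (nat_lit 5060) (nat_lit 2) (nat_lit 600) f104_1_600 f112_1_600 (nat_lit 3) (nat_lit 750) f104_1_750 f112_1_750 (nat_lit 6753074) (nat_lit 4509858) p13_0_2 = true := by decide +kernel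
def p13_0_3 : PF := (PF.cons (PF.cons (PF.cons (PF.cons (PF.leaf (nat_lit 3228523) (nat_lit 23301102) (nat_lit 43807710) (nat_lit 23301102) [(nat_lit 0), (nat_lit 0), (nat_lit 0), (nat_lit 0)]) (PF.cons (PF.leaf (nat_lit 3512317) (nat_lit 578418) (nat_lit 43372677) (nat_lit 23157716) [(nat_lit 578418), (nat_lit 0), (nat_lit 0), (nat_lit 0)]) (PF.cons (PF.leaf (nat_lit 3842140) (nat_lit 624414) (nat_lit 42870775) (nat_lit 22989208) [(nat_lit 624414), (nat_lit 0), (nat_lit 0), (nat_lit 0)]) (PF.cons (PF.leaf (nat_lit 4207734) (nat_lit 663529) (nat_lit 42318226) (nat_lit 22799996) [(nat_lit 663529), (nat_lit 0), (nat_lit 0), (nat_lit 0)]) (PF.cons PF.nil PF.nil))))) (PF.cons (PF.cons (PF.leaf (nat_lit 3729863) (nat_lit 1198133) (nat_lit 42909722) (nat_lit 23000957) [(nat_lit 0), (nat_lit 1198133), (nat_lit 0), (nat_lit 0)]) (PF.cons (PF.leaf (nat_lit 4070471) (nat_lit 648241) (nat_lit 42388709) (nat_lit 22822864) [(nat_lit 648241), (nat_lit 1248997), (nat_lit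 0), (nat_lit 0)]) (PF.cons (PF.leaf (nat_lit 4444579) (nat_lit 683728) (nat_lit 41821952) (nat_lit 22625328) [(nat_lit 683728), (nat_lit 1294073), (nat_lit 0), (nat_lit 0)]) (PF.cons PF.nil PF.nil)))) (PF.cons (PF.cons (PF.leaf (nat_lit 4301483)
 (nat_lit 1279278) (nat_lit 41899241) (nat_lit 22651014) [(nat_lit 0), (nat_lit 1279278), (nat_lit 0), (nat_lit 0)]) (PF.cons PF.nil PF.nil)) (PF.cons PF.nil (PF.cons PF.nil PF.nil))))) (PF.cons (PF.cons (PF.cons (PF.leaf (nat_lit 4061993) (nat_lit 2384427) (nat_lit 42031933) (nat_lit 22692452) [(nat_lit 0), (nat_lit 0), (nat_lit 2384427), (nat_lit 0)]) (PF.cons (PF.leaf (nat_lit 4410797) (nat_lit 672945) (nat_lit 41500191) (nat_lit 22504998) [(nat_lit 672945), (nat_lit 0), (nat_lit 2430677), (nat_lit 0)]) (PF.cons (PF.leaf (nat_lit 4790792) (nat_lit 704953) (nat_lit 40927139) (nat_lit 22299230) [(nat_lit 704953), (nat_lit 0), (nat_lit 2472535), (nat_lit 0)]) (PF.cons PF.nil PF.nil)))) (PF.cons (PF.cons (PF.leaf (nat_lit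 4642347) (nat_lit 1312434) (nat_lit 41008871) (nat_lit 22327348) [(nat_lit 0), (nat_lit 1312434), (nat_lit 2460159), (nat_lit 0)]) (PF.cons PF.nil PF.nil)) (PF.cons PF.nil PF.nil))) (PF.cons (PF.cons (PF.cons (PF.leaf (nat_lit 4980200) (nat_lit 2492297) (nat_lit 40126449) (nat_lit 21997769) [(nat_lit 0), (nat_lit 0), (nat_lit 2492297), (nat_lit 0)]) (PF.cons PF.nil PF.nil)) (PF.cons PF.nil PF.nil)) PF.nil))) (PF.cons (PF.cons (PF.cons (PF.cons (PF.leaf (nat_lit
 4520833) (nat_lit 4542726) (nat_lit 40460284) (nat_lit 22105802) [(nat_lit 0), (nat_lit 0), (nat_lit 0), (nat_lit 4542726)]) (PF.cons (PF.leaf (nat_lit 4871972) (nat_lit 690944) (nat_lit 39937200) (nat_lit 21912522) [(nat_lit 690944), (nat_lit 0), (nat_lit 0), (nat_lit 4568145)]) (PF.cons (PF.leaf (nat_lit 5252115) (nat_lit 720031) (nat_lit 39376985) (nat_lit 21702114) [(nat_lit 720031), (nat_lit 0), (nat_lit 0), (nat_lit 4589648)]) (PF.cons PF.nil PF.nil)))) (PF.cons (PF.cons (PF.leaf (nat_lit 5100386)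 (nat_lit 1335740) (nat_lit 39459115) (nat_lit 21731778) [(nat_lit 0), (nat_lit 1335740), (nat_lit 0), (nat_lit 4582177)]) (PF.cons PF.nil PF.nil)) (PF.cons PF.nil PF.nil))) (PF.cons (PF.cons (PF.cons (PF.leaf (nat_lit 5429385) (nat_lit 2508606) (nat_lit 38609091) (nat_lit 21400986) [(nat_lit 0), (nat_lit 0), (nat_lit 2508606), (nat_lit 4590127)]) (PF.cons PF.nil PF.nil)) PF.nil) PF.nil)) (PF.cons PF.nil (PF.cons PF.nil PF.nil))))

def p13_0_3_0 : pfC (piC [(nat_lit 30159351), (nat_lit 23968959), (nat_lit 20402210), (nat_lit 14696761)] (nat_lit 4509858)) p13_0_3 (nat_lit 4) (nat_lit 0) (nat_lit 1) = true := by decide +kernel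
def p13_0_3_1 : pfC (piC [(nat_lit 30159351), (nat_lit 23968959), (nat_lit 20402210), (nat_lit 14696761)] (nat_lit 4509858)) p13_0_3 (nat_lit 4) (nat_lit 1) (nat_lit 2) = true := by decide +kernel
def p13_0_3_2 : pfC (piC [(nat_lit 30159351), (nat_lit 23968959), (nat_lit 20402210), (nat_lit 14696761)] (nat_lit 4509858)) p13_0_3 (nat_lit 4) (nat_lit 2) (nat_lit 3) = true := by decide +kernel
def p13_0_3_3 : pfC (piC [(nat_lit 30159351), (nat_lit 23968959), (nat_lit 20402210), (nat_lit 14696761)] (nat_lit 4509858)) p13_0_3 (nat_lit 4) (nat_lit 3) (nat_lit 4) = true := by decide +kernel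
def p13_0_3_4 : pfC (piC [(nat_lit 30159351), (nat_lit 23968959), (nat_lit 20402210), (nat_lit 14696761)] (nat_lit 4509858)) p13_0_3 (nat_lit 4) (nat_lit 4) (nat_lit 5) = true := by decide +kernel
def p13_0_3_5 : pfC (piC [(nat_lit 30159351), (nat_lit 23968959), (nat_lit 20402210), (nat_lit 14696761)] (nat_lit 4509858)) p13_0_3 (nat_lit 4) (nat_lit 5) (nat_lit 6) = true := by decide +kernel
def p13_0_3_6 : pfC (piC [(nat_lit 30159351), (nat_lit 23968959), (nat_lit 20402210), (nat_lit 14696761)] (nat_lit 4509858)) p13_0_3 (nat_lit 4) (nat_lit 6) (nat_lit 7) = true := by decide +kernel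
def p13_0_3_7 : pfC (piC [(nat_lit 30159351), (nat_lit 23968959), (nat_lit 20402210), (nat_lit 14696761)] (nat_lit 4509858)) p13_0_3 (nat_lit 4) (nat_lit 7) (nat_lit 8) = true := by decide +kernel
def p13_0_3_8 : pfC (piC [(nat_lit 30159351), (nat_lit 23968959), (nat_lit 20402210), (nat_lit 14696761)] (nat_lit 4509858)) p13_0_3 (nat_lit 4) (nat_lit 8) (nat_lit 9) = true := by decide +kernel
def p13_0_3_9 : pfC (piC [(nat_lit 30159351), (nat_lit 23968959), (nat_lit 20402210), (nat_lit 14696761)] (nat_lit 4509858)) p13_0_3 (nat_lit 4) (nat_lit 9) (nat_lit 10) = true := by decide +kernel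
def p13_0_3_10 : pfC (piC [(nat_lit 30159351), (nat_lit 23968959), (nat_lit 20402210), (nat_lit 14696761)] (nat_lit 4509858)) p13_0_3 (nat_lit 4) (nat_lit 10) (nat_lit 11) = true := by decide +kernel
def p13_0_3_11 : pfC (piC [(nat_lit 30159351), (nat_lit 23968959), (nat_lit 20402210), (nat_lit 14696761)] (nat_lit 4509858)) p13_0_3 (nat_lit 4) (nat_lit 11) (nat_lit 12) = true := by decide +kernel
def p13_0_3_12 : pfC (piC [(nat_lit 30159351), (nat_lit 23968959), (nat_lit 20402210), (nat_lit 14696761)] (nat_lit 4509858)) p13_0_3 (nat_lit 4) (nat_lit 12) (nat_lit 13) = true := by decide +kernel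
def p13_0_3_13 : pfC (piC [(nat_lit 30159351), (nat_lit 23968959), (nat_lit 20402210), (nat_lit 14696761)] (nat_lit 4509858)) p13_0_3 (nat_lit 4) (nat_lit 13) (nat_lit 14) = true := by decide +kernel
def p13_0_3_14 : pfC (piC [(nat_lit 30159351), (nat_lit 23968959), (nat_lit 20402210), (nat_lit 14696761)] (nat_lit 4509858)) p13_0_3 (nat_lit 4) (nat_lit 14) (nat_lit 15) = true := by decide +kernel
def p13_0_3_15 : pfC (piC [(nat_lit 30159351), (nat_lit 23968959), (nat_lit 20402210), (nat_lit 14696761)] (nat_lit 4509858)) p13_0_3 (nat_lit 4) (nat_lit 15) (nat_lit 16) = true := by decide +kernel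
def p13_0_3_16 : pfC (piC [(nat_lit 30159351), (nat_lit 23968959), (nat_lit 20402210), (nat_lit 14696761)] (nat_lit 4509858)) p13_0_3 (nat_lit 4) (nat_lit 16) (nat_lit 17) = true := by decide +kernel
def p13_0_3_17 : pfC (piC [(nat_lit 30159351), (nat_lit 23968959), (nat_lit 20402210), (nat_lit 14696761)] (nat_lit 4509858)) p13_0_3 (nat_lit 4) (nat_lit 17) (nat_lit 18) = true := by decide +kernel
theorem p13_0_3_T : PfS (PiF n13_0.reverse (nat_lit 4509858)) p13_0_3 (nat_lit 4) [] 0 :=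
  pftab_of (los := [(nat_lit 30159351), (nat_lit 23968959), (nat_lit 20402210), (nat_lit 14696761)]) (by decide +kernel) (hi := (nat_lit 18)) (PfP.trans (PfP.trans (PfP.trans (PfP.trans (PfP.trans (PfP.trans (PfP.trans (PfP.trans (PfP.trans (PfP.trans (PfP.trans (PfP.trans (PfP.trans (PfP.trans (PfP.trans (PfP.trans (PfP.trans (pfC_sound p13_0_3_0) (pfC_sound p13_0_3_1)) (pfC_sound p13_0_3_2)) (pfC_sound p13_0_3_3)) (pfC_sound p13_0_3_4)) (pfC_sound p13_0_3_5)) (pfC_sound p13_0_3_6)) (pfC_sound p13_0_3_7)) (pfC_sound p13_0_3_8)) (pfC_sound p13_0_3_9)) (pfC_sound p13_0_3_10)) (pfC_sound p13_0_3_11)) (pfC_sound p13_0_3_12)) (pfC_sound p13_0_3_13)) (pfC_sound p13_0_3_14)) (pfC_sound p13_0_3_15)) (pfC_sound p13_0_3_16)) (pfC_sound p13_0_3_17)) (by decide +kernel)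

def z13_0_3 : zOK yB13_0 (nat_lit 3) (nat_lit 750) (nat_lit 986) (nat_lit 4509858) (nat_lit 1803237) = true := by decide +kernel
def g13_0_3 : gOK yB13_0.x P13_0 (nat_lit 1419) (q13_0 :: r13_0) (nat_lit 3) (nat_lit 750) (nat_lit 4) (nat_lit 986) (nat_lit 12712500) (nat_lit 12712500) (nat_lit 12712500) (nat_lit 12712500) [(nat_lit 800)] = true := by decide +kernel
def v13_0_3 : ivC P13_0 s13_0 w13_0 n13_0 (nat_lit 4) (nat_lit 4910) (nat_lit 3) (nat_lit 750) f104_1_750 f112_1_750 (nat_lit 4) (nat_lit 986) f104_1_986 f112_1_986 (nat_lit 4509858) (nat_lit 1803237) p13_0_3 = true := by decide +kernel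
/-! box `yB13_1` -/

def P13_1 : BQ := ⟨(nat_lit 8), (nat_lit 8), (nat_lit 0), (nat_lit 4), (nat_lit 4), (nat_lit 560), (nat_lit 580), (nat_lit 120), [(nat_lit 200), (nat_lit 300), (nat_lit 450), (nat_lit 800)], (nat_lit 6080000), (nat_lit 16000000), (nat_lit 16000000000)⟩
def q13_1 : PC := ⟨(nat_lit 1000), [(nat_lit 120000), (nat_lit 200000), (nat_lit 300000), (nat_lit 450000), (nat_lit 800000)], (nat_lit 340282367000166625996085689103316680705000000), (nat_lit 15993920000000), (nat_lit 15993920000000), (nat_lit 10000000)⟩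
def r13_1 : List PC := [⟨(nat_lit 1435), [(nat_lit 120637), (nat_lit 201161), (nat_lit 301929), (nat_lit 453436), (nat_lit 799213)], (nat_lit 342848436329812016249934000874073629121270476), (nat_lit 16449898564000), (nat_lit 16467631252000), (nat_lit 10076356)⟩]
def s13_1 : List PB := [⟨(nat_lit 28700), (nat_lit 1930192000000), [(nat_lit 201161), (nat_lit 301929), (nat_lit 453436), (nat_lit 799213)], (nat_lit 342848436329812016249934000874073629121270476), (nat_lit 1142349805406624), (nat_lit 1142367538094624), (nat_lit 69600)⟩]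
def n13_1 : List KN := [⟨(nat_lit 800), (nat_lit 450), (nat_lit 14481699), (nat_lit 11363143)⟩, ⟨(nat_lit 450), (nat_lit 300), (nat_lit 20955711), (nat_lit 14481699)⟩, ⟨(nat_lit 300), (nat_lit 200), (nat_lit 24889148), (nat_lit 20955711)⟩, ⟨(nat_lit 200), (nat_lit 120), (nat_lit 31465553), (nat_lit 24889148)⟩]
def w13_1 : List ℕ := [(nat_lit 69600)]
def par13_1 : parC yB13_1 P13_1 s13_1 r13_1 q13_1 n13_1 w13_1 = true := by decide +kernel

def p13_1_0 : PF := (PF.cons (PF.cons (PF.cons (PF.cons (PF.leaf (nat_lit 0) (nat_lit 67108813) (nat_lit 67108813) (nat_lit 0) [(nat_lit 0), (nat_lit 0), (nat_lit 0), (nat_lit 0)]) (PF.cons (PF.leaf (nat_lit 116402) (nat_lit 238659) (nat_lit 66870153) (nat_lit 0) [(nat_lit 238659), (nat_lit 0), (nat_lit 0), (nat_lit 0)]) (PF.cons (PF.leaf (nat_lit 294453) (nat_lit 298633) (nat_lit 66511546) (nat_lit 0) [(nat_lit 298633), (nat_lit 0), (nat_lit 0), (nat_lit 0)]) (PF.cons PF.nil PF.nil)))) (PF.cons (PF.cons (PF.leaf (nat_lit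 282228) (nat_lit 678190) (nat_lit 66430622) (nat_lit 0) [(nat_lit 0), (nat_lit 678190), (nat_lit 0), (nat_lit 0)]) (PF.cons PF.nil PF.nil)) (PF.cons PF.nil PF.nil))) (PF.cons (PF.cons (PF.cons (PF.leaf (nat_lit 640219) (nat_lit 1885286) (nat_lit 65223526) (nat_lit 0) [(nat_lit 0), (nat_lit 0), (nat_lit 1885286), (nat_lit 0)]) (PF.cons PF.nil PF.nil)) (PF.cons PF.nil PF.nil)) (PF.cons PF.nil PF.nil))) (PF.cons (PF.cons (PF.cons (PF.cons (PF.leaf (nat_lit 1270047) (nat_lit 4707261) (nat_lit 62401551) (nat_lit 0) [(nat_lit 0), (nat_lit 0), (nat_lit 0), (nat_lit 4707261)]) (PF.cons (PF.leaf (nat_lit 1536073) (nat_lit 479019) (nat_lit 61827968) (nat_lit 0) [(nat_lit 479019), (nat_lit 0),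
 (nat_lit 0), (nat_lit 4801824)]) (PF.cons (PF.leaf (nat_lit 1852381) (nat_lit 526357) (nat_lit 61154144) (nat_lit 0) [(nat_lit 526357), (nat_lit 0), (nat_lit 0), (nat_lit 4901954)]) (PF.cons PF.nil PF.nil)))) (PF.cons (PF.cons (PF.leaf (nat_lit 1779506) (nat_lit 1076892) (nat_lit 61133140) (nat_lit 0) [(nat_lit 0), (nat_lit 1076892), (nat_lit 0), (nat_lit 4898780)]) (PF.cons PF.nil PF.nil)) (PF.cons PF.nil PF.nil))) (PF.cons (PF.cons (PF.cons (PF.leaf (nat_lit 2215385) (nat_lit 2438425) (nat_lit 59611555) (nat_lit 0) [(nat_lit 0), (nat_lit 0), (nat_lit 2438425), (nat_lit 5058832)]) (PF.cons PF.nil PF.nil)) (PF.cons PF.nil PF.nil)) (PF.cons PF.nil PF.nil))) (PF.cons (PF.cons (PF.cons (PF.cons (PF.leaf (nat_lit 2872336) (nat_lit 5228236) (nat_lit 56652339) (nat_lit 0) [(nat_lit 0), (nat_lit 0), (nat_lit 0), (nat_lit 5228236)]) (PF.cons (PF.leaf (nat_lit 3232513) (nat_lit 637575) (nat_lit 55898752) (nat_lit 0) [(nat_lit 637575), (nat_lit 0), (nat_lit 0), (nat_lit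 5286242)]) PF.nil)) (PF.cons PF.nil PF.nil)) (PF.cons PF.nil PF.nil)) (PF.cons PF.nil (PF.cons PF.nil (PF.cons PF.nil PF.nil))))))

def p13_1_0_0 : pfC (piC [(nat_lit 31465553), (nat_lit 24889148), (nat_lit 20955711), (nat_lit 14481699)] (nat_lit 0)) p13_1_0 (nat_lit 4) (nat_lit 0) (nat_lit 2) = true := by decide +kernel
def p13_1_0_1 : pfC (piC [(nat_lit 31465553), (nat_lit 24889148), (nat_lit 20955711), (nat_lit 14481699)] (nat_lit 0)) p13_1_0 (nat_lit 4) (nat_lit 2) (nat_lit 3) = true := by decide +kernel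
def p13_1_0_2 : pfC (piC [(nat_lit 31465553), (nat_lit 24889148), (nat_lit 20955711), (nat_lit 14481699)] (nat_lit 0)) p13_1_0 (nat_lit 4) (nat_lit 3) (nat_lit 5) = true := by decide +kernel
def p13_1_0_3 : pfC (piC [(nat_lit 31465553), (nat_lit 24889148), (nat_lit 20955711), (nat_lit 14481699)] (nat_lit 0)) p13_1_0 (nat_lit 4) (nat_lit 5) (nat_lit 6) = true := by decide +kernel
def p13_1_0_4 : pfC (piC [(nat_lit 31465553), (nat_lit 24889148), (nat_lit 20955711), (nat_lit 14481699)] (nat_lit 0)) p13_1_0 (nat_lit 4) (nat_lit 6) (nat_lit 7) = true := by decide +kernel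
def p13_1_0_5 : pfC (piC [(nat_lit 31465553), (nat_lit 24889148), (nat_lit 20955711), (nat_lit 14481699)] (nat_lit 0)) p13_1_0 (nat_lit 4) (nat_lit 7) (nat_lit 8) = true := by decide +kernel
def p13_1_0_6 : pfC (piC [(nat_lit 31465553), (nat_lit 24889148), (nat_lit 20955711), (nat_lit 14481699)] (nat_lit 0)) p13_1_0 (nat_lit 4) (nat_lit 8) (nat_lit 9) = true := by decide +kernel
def p13_1_0_7 : pfC (piC [(nat_lit 31465553), (nat_lit 24889148), (nat_lit 20955711), (nat_lit 14481699)] (nat_lit 0)) p13_1_0 (nat_lit 4) (nat_lit 9) (nat_lit 10) = true := by decide +kernel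
def p13_1_0_8 : pfC (piC [(nat_lit 31465553), (nat_lit 24889148), (nat_lit 20955711), (nat_lit 14481699)] (nat_lit 0)) p13_1_0 (nat_lit 4) (nat_lit 10) (nat_lit 11) = true := by decide +kernel
def p13_1_0_9 : pfC (piC [(nat_lit 31465553), (nat_lit 24889148), (nat_lit 20955711), (nat_lit 14481699)] (nat_lit 0)) p13_1_0 (nat_lit 4) (nat_lit 11) (nat_lit 12) = true := by decide +kernel
theorem p13_1_0_T : PfS (PiF n13_1.reverse (nat_lit 0)) p13_1_0 (nat_lit 4) [] 0 :=
  pftab_of (los := [(nat_lit 31465553), (nat_lit 24889148), (nat_lit 20955711), (nat_lit 14481699)]) (by decide +kernel) (hi := (nat_lit 12)) (PfP.trans (PfP.trans (PfP.trans (PfP.trans (PfP.trans (PfP.trans (PfP.trans (PfP.trans (PfP.trans (pfC_sound p13_1_0_0) (pfC_sound p13_1_0_1)) (pfC_sound p13_1_0_2)) (pfC_sound p13_1_0_3)) (pfC_sound p13_1_0_4)) (pfC_sound p13_1_0_5)) (pfC_sound p13_1_0_6)) (pfC_sound p13_1_0_7)) (pfC_sound p13_1_0_8)) (pfC_sound p13_1_0_9)) (by decide +kernel)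

def z13_1_0 : zOK yB13_1 (nat_lit 0) (nat_lit 0) (nat_lit 400) (nat_lit 0) (nat_lit 0) = true := by decide +kernel
def g13_1_0 : gOK yB13_1.x P13_1 (nat_lit 1400) (q13_1 :: r13_1) (nat_lit 0) (nat_lit 0) (nat_lit 1) (nat_lit 400) (nat_lit 0) (nat_lit 11000000) (nat_lit 12712500) (nat_lit 12712500) [(nat_lit 800), (nat_lit 1600)] = true := by decide +kernel
def v13_1_0 : ivC P13_1 s13_1 w13_1 n13_1 (nat_lit 4) (nat_lit 5640) (nat_lit 0) (nat_lit 0) f112_1_0 f120_1_0 (nat_lit 1) (nat_lit 400) f112_1_400 f120_1_400 (nat_lit 0) (nat_lit 0) p13_1_0 = true := by decide +kernel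
def p13_1_1 : PF := (PF.cons (PF.cons (PF.cons (PF.cons (PF.leaf (nat_lit 1967482) (nat_lit 8977357) (nat_lit 58131455) (nat_lit 8977357) [(nat_lit 0), (nat_lit 0), (nat_lit 0), (nat_lit 0)]) (PF.cons (PF.leaf (nat_lit 2242687) (nat_lit 517194) (nat_lit 57562497) (nat_lit 9029120) [(nat_lit 517194), (nat_lit 0), (nat_lit 0), (nat_lit 0)]) PF.nil)) (PF.cons PF.nil PF.nil)) (PF.cons PF.nil PF.nil)) (PF.cons (PF.cons (PF.cons (PF.cons (PF.leaf (nat_lit 3524550) (nat_lit 5270010) (nat_lit 52671256) (nat_lit 9167545) [(nat_lit 0), (nat_lit 0), (nat_lit 0), (nat_lit 5270010)]) (PF.cons PF.nil PF.nil)) (PF.cons PF.nil PF.nil)) (PF.cons PF.nil PF.nil)) (PF.cons PF.nil (PF.cons PF.nil PF.nil))))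

def p13_1_1_0 : pfC (piC [(nat_lit 31465553), (nat_lit 24889148), (nat_lit 20955711), (nat_lit 14481699)] (nat_lit 11907277)) p13_1_1 (nat_lit 4) (nat_lit 0) (nat_lit 1) = true := by decide +kernel
def p13_1_1_1 : pfC (piC [(nat_lit 31465553), (nat_lit 24889148), (nat_lit 20955711), (nat_lit 14481699)] (nat_lit 11907277)) p13_1_1 (nat_lit 4) (nat_lit 1) (nat_lit 2) = true := by decide +kernel
def p13_1_1_2 : pfC (piC [(nat_lit 31465553), (nat_lit 24889148), (nat_lit 20955711), (nat_lit 14481699)] (nat_lit 11907277)) p13_1_1 (nat_lit 4) (nat_lit 2) (nat_lit 3) = true := by decide +kernel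
theorem p13_1_1_T : PfS (PiF n13_1.reverse (nat_lit 11907277)) p13_1_1 (nat_lit 4) [] 0 :=
  pftab_of (los := [(nat_lit 31465553), (nat_lit 24889148), (nat_lit 20955711), (nat_lit 14481699)]) (by decide +kernel) (hi := (nat_lit 3)) (PfP.trans (PfP.trans (pfC_sound p13_1_1_0) (pfC_sound p13_1_1_1)) (pfC_sound p13_1_1_2)) (by decide +kernel)

def z13_1_1 : zOK yB13_1 (nat_lit 1) (nat_lit 400) (nat_lit 600) (nat_lit 11907277) (nat_lit 6772740) = true := by decide +kernel
def g13_1_1 : gOK yB13_1.x P13_1 (nat_lit 1400) (q13_1 :: r13_1) (nat_lit 1) (nat_lit 400) (nat_lit 2) (nat_lit 600) (nat_lit 11000000) (nat_lit 17850000) (nat_lit 12712500) (nat_lit 12712500) [(nat_lit 800), (nat_lit 1250)] = true := by decide +kernel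
def v13_1_1 : ivC P13_1 s13_1 w13_1 n13_1 (nat_lit 4) (nat_lit 5240) (nat_lit 1) (nat_lit 400) f112_1_400 f120_1_400 (nat_lit 2) (nat_lit 600) f112_1_600 f120_1_600 (nat_lit 11907277) (nat_lit 6772740) p13_1_1 = true := by decide +kernel
def p13_1_2 : PF := (PF.cons (PF.cons (PF.cons (PF.cons (PF.leaf (nat_lit 2774387) (nat_lit 16328969) (nat_lit 50779843) (nat_lit 16328969) [(nat_lit 0), (nat_lit 0), (nat_lit 0), (nat_lit 0)]) (PF.cons (PF.leaf (nat_lit 3040972) (nat_lit 520608) (nat_lit 50299264) (nat_lit 16288939) [(nat_lit 520608), (nat_lit 0), (nat_lit 0), (nat_lit 0)]) (PF.cons PF.nil (PF.cons PF.nil PF.nil)))) (PF.cons (PF.cons (PF.leaf (nat_lit 3270958) (nat_lit 1144280) (nat_lit 49729642) (nat_lit 16234890) [(nat_lit 0), (nat_lit 1144280), (nat_lit 0), (nat_lit 0)]) (PF.cons PF.nil PF.nil)) (PF.cons PF.nil PF.nil))) (PF.cons (PF.cons (PF.cons (PF.leaf (nat_lit 3660559) (nat_lit 2491008) (nat_lit 48519941) (nat_lit 16097863) [(nat_lit 0), (nat_lit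 0), (nat_lit 2491008), (nat_lit 0)]) (PF.cons PF.nil PF.nil)) (PF.cons PF.nil PF.nil)) (PF.cons PF.nil PF.nil))) (PF.cons (PF.cons (PF.cons (PF.cons (PF.leaf (nat_lit 4211122) (nat_lit 5070180) (nat_lit 46267975) (nat_lit 15770657) [(nat_lit 0), (nat_lit 0), (nat_lit 0), (nat_lit 5070180)]) (PF.cons (PF.leaf (nat_lit 4547240) (nat_lit 637306) (nat_lit 45686694) (nat_lit 15689975) [(nat_lit 637306), (nat_lit 0), (nat_lit 0), (nat_lit 5094835)]) PF.nil)) (PF.cons PF.nil PF.nil))
 (PF.cons PF.nil PF.nil)) (PF.cons PF.nil (PF.cons PF.nil PF.nil))))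

def p13_1_2_0 : pfC (piC [(nat_lit 31465553), (nat_lit 24889148), (nat_lit 20955711), (nat_lit 14481699)] (nat_lit 6772740)) p13_1_2 (nat_lit 4) (nat_lit 0) (nat_lit 1) = true := by decide +kernel
def p13_1_2_1 : pfC (piC [(nat_lit 31465553), (nat_lit 24889148), (nat_lit 20955711), (nat_lit 14481699)] (nat_lit 6772740)) p13_1_2 (nat_lit 4) (nat_lit 1) (nat_lit 2) = true := by decide +kernel
def p13_1_2_2 : pfC (piC [(nat_lit 31465553), (nat_lit 24889148), (nat_lit 20955711), (nat_lit 14481699)] (nat_lit 6772740)) p13_1_2 (nat_lit 4) (nat_lit 2) (nat_lit 3) = true := by decide +kernel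
def p13_1_2_3 : pfC (piC [(nat_lit 31465553), (nat_lit 24889148), (nat_lit 20955711), (nat_lit 14481699)] (nat_lit 6772740)) p13_1_2 (nat_lit 4) (nat_lit 3) (nat_lit 4) = true := by decide +kernel
def p13_1_2_4 : pfC (piC [(nat_lit 31465553), (nat_lit 24889148), (nat_lit 20955711), (nat_lit 14481699)] (nat_lit 6772740)) p13_1_2 (nat_lit 4) (nat_lit 4) (nat_lit 5) = true := by decide +kernel
def p13_1_2_5 : pfC (piC [(nat_lit 31465553), (nat_lit 24889148), (nat_lit 20955711), (nat_lit 14481699)] (nat_lit 6772740)) p13_1_2 (nat_lit 4) (nat_lit 5) (nat_lit 6) = true := by decide +kernel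
theorem p13_1_2_T : PfS (PiF n13_1.reverse (nat_lit 6772740)) p13_1_2 (nat_lit 4) [] 0 :=
  pftab_of (los := [(nat_lit 31465553), (nat_lit 24889148), (nat_lit 20955711), (nat_lit 14481699)]) (by decide +kernel) (hi := (nat_lit 6)) (PfP.trans (PfP.trans (PfP.trans (PfP.trans (PfP.trans (pfC_sound p13_1_2_0) (pfC_sound p13_1_2_1)) (pfC_sound p13_1_2_2)) (pfC_sound p13_1_2_3)) (pfC_sound p13_1_2_4)) (pfC_sound p13_1_2_5)) (by decide +kernel)

def z13_1_2 : zOK yB13_1 (nat_lit 2) (nat_lit 600) (nat_lit 750) (nat_lit 6772740) (nat_lit 4572850) = true := by decide +kernel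
def g13_1_2 : gOK yB13_1.x P13_1 (nat_lit 1400) (q13_1 :: r13_1) (nat_lit 2) (nat_lit 600) (nat_lit 3) (nat_lit 750) (nat_lit 12712500) (nat_lit 12712500) (nat_lit 12712500) (nat_lit 12712500) [(nat_lit 800)] = true := by decide +kernel
def v13_1_2 : ivC P13_1 s13_1 w13_1 n13_1 (nat_lit 4) (nat_lit 5040) (nat_lit 2) (nat_lit 600) f112_1_600 f120_1_600 (nat_lit 3) (nat_lit 750) f112_1_750 f120_1_750 (nat_lit 6772740) (nat_lit 4572850) p13_1_2 = true := by decide +kernel
def p13_1_3 : PF := (PF.cons (PF.cons (PF.cons (PF.cons (PF.leaf (nat_lit 3212570) (nat_lit 22967745) (nat_lit 44141067) (nat_lit 22967745) [(nat_lit 0), (nat_lit 0), (nat_lit 0), (nat_lit 0)]) (PF.cons (PF.leaf (nat_lit 3461817) (nat_lit 491693) (nat_lit 43767048) (nat_lit 22850071) [(nat_lit 491693), (nat_lit 0), (nat_lit 0), (nat_lit 0)]) (PF.cons (PF.leaf (nat_lit 3752417) (nat_lit 531632) (nat_lit 43334030) (nat_lit 22711518) [(nat_lit 531632), (nat_lit 0), (nat_lit 0), (nat_lit 0)]) (PF.cons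 (PF.leaf (nat_lit 4075526) (nat_lit 565940) (nat_lit 42855420) (nat_lit 22555570) [(nat_lit 565940), (nat_lit 0), (nat_lit 0), (nat_lit 0)]) (PF.cons PF.nil PF.nil))))) (PF.cons (PF.cons (PF.leaf (nat_lit 3675402) (nat_lit 1077962) (nat_lit 43323878) (nat_lit 22706971) [(nat_lit 0), (nat_lit 1077962), (nat_lit 0), (nat_lit 0)]) (PF.cons (PF.leaf (nat_lit 3976974) (nat_lit 554558) (nat_lit 42871511) (nat_lit 22559553) [(nat_lit 554558), (nat_lit 1123189), (nat_lit 0), (nat_lit 0)]) (PF.cons (PF.leaf (nat_lit 4309111) (nat_lit 585668) (nat_lit 42377806) (nat_lit 22395739) [(nat_lit 585668), (nat_lit 1163930), (nat_lit 0), (nat_lit 0)]) (PF.cons PF.nil PF.nil)))) (PF.cons (PF.cons (PF.leaf (nat_lit 4205056)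
 (nat_lit 1153551) (nat_lit 42399893) (nat_lit 22401816) [(nat_lit 0), (nat_lit 1153551), (nat_lit 0), (nat_lit 0)]) (PF.cons PF.nil PF.nil)) (PF.cons PF.nil (PF.cons PF.nil PF.nil))))) (PF.cons (PF.cons (PF.cons (PF.leaf (nat_lit 4034658) (nat_lit 2335389) (nat_lit 42382906) (nat_lit 22390517) [(nat_lit 0), (nat_lit 0), (nat_lit 2335389), (nat_lit 0)]) (PF.cons (PF.leaf (nat_lit 4345331) (nat_lit 579960) (nat_lit 41918327) (nat_lit 22233716) [(nat_lit 579960), (nat_lit 0), (nat_lit 2376808), (nat_lit 0)]) (PF.cons PF.nil (PF.cons PF.nil PF.nil)))) (PF.cons (PF.cons (PF.leaf (nat_lit 4574795) (nat_lit 1189709) (nat_lit 41442804) (nat_lit 22069238) [(nat_lit 0), (nat_lit 1189709), (nat_lit 2407060), (nat_lit 0)]) (PF.cons PF.nil PF.nil)) (PF.cons PF.nil PF.nil))) (PF.cons (PF.cons (PF.cons (PF.leaf (nat_lit 4941753) (nat_lit 2443635) (nat_lit 40492765) (nat_lit 21728776) [(nat_lit 0), (nat_lit 0), (nat_lit 2443635), (nat_lit 0)]) (PF.cons PF.nil PF.nil)) (PF.cons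 PF.nil PF.nil)) PF.nil))) (PF.cons (PF.cons (PF.cons (PF.cons (PF.leaf (nat_lit 4538731) (nat_lit 4720345) (nat_lit 40629807) (nat_lit 21758659) [(nat_lit 0), (nat_lit 0), (nat_lit 0), (nat_lit 4720345)]) (PF.cons (PF.leaf
 (nat_lit 4852085) (nat_lit 597755) (nat_lit 40173596) (nat_lit 21596029) [(nat_lit 597755), (nat_lit 0), (nat_lit 0), (nat_lit 4741432)]) (PF.cons (PF.leaf (nat_lit 5191987) (nat_lit 623338) (nat_lit 39683641) (nat_lit 21418753) [(nat_lit 623338), (nat_lit 0), (nat_lit 0), (nat_lit 4759739)]) (PF.cons PF.nil PF.nil)))) (PF.cons (PF.cons (PF.leaf (nat_lit 5078615) (nat_lit 1214480) (nat_lit 39711805) (nat_lit 21427766) [(nat_lit 0), (nat_lit 1214480), (nat_lit 0), (nat_lit 4754761)]) (PF.cons PF.nil PF.nil)) (PF.cons PF.nil PF.nil))) (PF.cons (PF.cons (PF.cons (PF.leaf (nat_lit 5435363) (nat_lit 2461602) (nat_lit 38799929) (nat_lit 21084980) [(nat_lit 0), (nat_lit 0), (nat_lit 2461602), (nat_lit 4762299)]) (PF.cons PF.nil PF.nil)) PF.nil)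 PF.nil)) (PF.cons PF.nil (PF.cons PF.nil PF.nil))))

def p13_1_3_0 : pfC (piC [(nat_lit 31465553), (nat_lit 24889148), (nat_lit 20955711), (nat_lit 14481699)] (nat_lit 4572850)) p13_1_3 (nat_lit 4) (nat_lit 0) (nat_lit 1) = true := by decide +kernel
def p13_1_3_1 : pfC (piC [(nat_lit 31465553), (nat_lit 24889148), (nat_lit 20955711), (nat_lit 14481699)] (nat_lit 4572850)) p13_1_3 (nat_lit 4) (nat_lit 1) (nat_lit 2) = true := by decide +kernel
def p13_1_3_2 : pfC (piC [(nat_lit 31465553), (nat_lit 24889148), (nat_lit 20955711), (nat_lit 14481699)] (nat_lit 4572850)) p13_1_3 (nat_lit 4) (nat_lit 2) (nat_lit 3) = true := by decide +kernel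
def p13_1_3_3 : pfC (piC [(nat_lit 31465553), (nat_lit 24889148), (nat_lit 20955711), (nat_lit 14481699)] (nat_lit 4572850)) p13_1_3 (nat_lit 4) (nat_lit 3) (nat_lit 4) = true := by decide +kernel
def p13_1_3_4 : pfC (piC [(nat_lit 31465553), (nat_lit 24889148), (nat_lit 20955711), (nat_lit 14481699)] (nat_lit 4572850)) p13_1_3 (nat_lit 4) (nat_lit 4) (nat_lit 5) = true := by decide +kernel
def p13_1_3_5 : pfC (piC [(nat_lit 31465553), (nat_lit 24889148), (nat_lit 20955711), (nat_lit 14481699)] (nat_lit 4572850)) p13_1_3 (nat_lit 4) (nat_lit 5) (nat_lit 6) = true := by decide +kernel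
def p13_1_3_6 : pfC (piC [(nat_lit 31465553), (nat_lit 24889148), (nat_lit 20955711), (nat_lit 14481699)] (nat_lit 4572850)) p13_1_3 (nat_lit 4) (nat_lit 6) (nat_lit 7) = true := by decide +kernel
def p13_1_3_7 : pfC (piC [(nat_lit 31465553), (nat_lit 24889148), (nat_lit 20955711), (nat_lit 14481699)] (nat_lit 4572850)) p13_1_3 (nat_lit 4) (nat_lit 7) (nat_lit 8) = true := by decide +kernel
def p13_1_3_8 : pfC (piC [(nat_lit 31465553), (nat_lit 24889148), (nat_lit 20955711), (nat_lit 14481699)] (nat_lit 4572850)) p13_1_3 (nat_lit 4) (nat_lit 8) (nat_lit 9) = true := by decide +kernel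
def p13_1_3_9 : pfC (piC [(nat_lit 31465553), (nat_lit 24889148), (nat_lit 20955711), (nat_lit 14481699)] (nat_lit 4572850)) p13_1_3 (nat_lit 4) (nat_lit 9) (nat_lit 10) = true := by decide +kernel
def p13_1_3_10 : pfC (piC [(nat_lit 31465553), (nat_lit 24889148), (nat_lit 20955711), (nat_lit 14481699)] (nat_lit 4572850)) p13_1_3 (nat_lit 4) (nat_lit 10) (nat_lit 11) = true := by decide +kernel
def p13_1_3_11 : pfC (piC [(nat_lit 31465553), (nat_lit 24889148), (nat_lit 20955711), (nat_lit 14481699)] (nat_lit 4572850)) p13_1_3 (nat_lit 4) (nat_lit 11) (nat_lit 12) = true := by decide +kernel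
def p13_1_3_12 : pfC (piC [(nat_lit 31465553), (nat_lit 24889148), (nat_lit 20955711), (nat_lit 14481699)] (nat_lit 4572850)) p13_1_3 (nat_lit 4) (nat_lit 12) (nat_lit 13) = true := by decide +kernel
def p13_1_3_13 : pfC (piC [(nat_lit 31465553), (nat_lit 24889148), (nat_lit 20955711), (nat_lit 14481699)] (nat_lit 4572850)) p13_1_3 (nat_lit 4) (nat_lit 13) (nat_lit 14) = true := by decide +kernel
def p13_1_3_14 : pfC (piC [(nat_lit 31465553), (nat_lit 24889148), (nat_lit 20955711), (nat_lit 14481699)] (nat_lit 4572850)) p13_1_3 (nat_lit 4) (nat_lit 14) (nat_lit 15) = true := by decide +kernel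
def p13_1_3_15 : pfC (piC [(nat_lit 31465553), (nat_lit 24889148), (nat_lit 20955711), (nat_lit 14481699)] (nat_lit 4572850)) p13_1_3 (nat_lit 4) (nat_lit 15) (nat_lit 16) = true := by decide +kernel
def p13_1_3_16 : pfC (piC [(nat_lit 31465553), (nat_lit 24889148), (nat_lit 20955711), (nat_lit 14481699)] (nat_lit 4572850)) p13_1_3 (nat_lit 4) (nat_lit 16) (nat_lit 17) = true := by decide +kernel
theorem p13_1_3_T : PfS (PiF n13_1.reverse (nat_lit 4572850)) p13_1_3 (nat_lit 4) [] 0 :=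
  pftab_of (los := [(nat_lit 31465553), (nat_lit 24889148), (nat_lit 20955711), (nat_lit 14481699)]) (by decide +kernel) (hi := (nat_lit 17)) (PfP.trans (PfP.trans (PfP.trans (PfP.trans (PfP.trans (PfP.trans (PfP.trans (PfP.trans (PfP.trans (PfP.trans (PfP.trans (PfP.trans (PfP.trans (PfP.trans (PfP.trans (PfP.trans (pfC_sound p13_1_3_0) (pfC_sound p13_1_3_1)) (pfC_sound p13_1_3_2)) (pfC_sound p13_1_3_3)) (pfC_sound p13_1_3_4)) (pfC_sound p13_1_3_5)) (pfC_sound p13_1_3_6)) (pfC_sound p13_1_3_7)) (pfC_sound p13_1_3_8)) (pfC_sound p13_1_3_9)) (pfC_sound p13_1_3_10)) (pfC_sound p13_1_3_11)) (pfC_sound p13_1_3_12)) (pfC_sound p13_1_3_13)) (pfC_sound p13_1_3_14)) (pfC_sound p13_1_3_15)) (pfC_sound p13_1_3_16)) (by decide +kernel)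

def z13_1_3 : zOK yB13_1 (nat_lit 3) (nat_lit 750) (nat_lit 975) (nat_lit 4572850) (nat_lit 1960150) = true := by decide +kernel
def g13_1_3 : gOK yB13_1.x P13_1 (nat_lit 1400) (q13_1 :: r13_1) (nat_lit 3) (nat_lit 750) (nat_lit 4) (nat_lit 975) (nat_lit 12712500) (nat_lit 12712500) (nat_lit 12712500) (nat_lit 12712500) [(nat_lit 800)] = true := by decide +kernel
def v13_1_3 : ivC P13_1 s13_1 w13_1 n13_1 (nat_lit 4) (nat_lit 4890) (nat_lit 3) (nat_lit 750) f112_1_750 f120_1_750 (nat_lit 4) (nat_lit 975) f112_1_975 f120_1_975 (nat_lit 4572850) (nat_lit 1960150) p13_1_3 = true := by decide +kernel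
/-! box `yB13_2` -/

def P13_2 : BQ := ⟨(nat_lit 8), (nat_lit 4), (nat_lit 4), (nat_lit 0), (nat_lit 8), (nat_lit 580), (nat_lit 600), (nat_lit 120), [(nat_lit 200), (nat_lit 300), (nat_lit 450), (nat_lit 800)], (nat_lit 17536000), (nat_lit 16000000), (nat_lit 16000000000)⟩
def q13_2 : PC := ⟨(nat_lit 1000), [(nat_lit 120000), (nat_lit 200000), (nat_lit 300000), (nat_lit 450000), (nat_lit 800000)], (nat_lit 340282367000166625996085689103316680705000000), (nat_lit 15982464000000), (nat_lit 15982464000000), (nat_lit 10000000)⟩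
def r13_2 : List PC := [⟨(nat_lit 1435), [(nat_lit 120654), (nat_lit 201192), (nat_lit 301979), (nat_lit 453400), (nat_lit 798782)], (nat_lit 342857964236095230678250652434601159435440774), (nat_lit 16445807252000), (nat_lit 16463316941600), (nat_lit 10075556)⟩]
def s13_2 : List PB := [⟨(nat_lit 28700), (nat_lit 1930464000000), [(nat_lit 201192), (nat_lit 301979), (nat_lit 453400), (nat_lit 798782)], (nat_lit 342857964236095230678250652434601159435440774), (nat_lit 1142345714094624), (nat_lit 1142363223784224), (nat_lit 69600)⟩]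
def n13_2 : List KN := [⟨(nat_lit 800), (nat_lit 450), (nat_lit 14146940), (nat_lit 10671138)⟩, ⟨(nat_lit 450), (nat_lit 300), (nat_lit 21286319), (nat_lit 14146940)⟩, ⟨(nat_lit 300), (nat_lit 200), (nat_lit 26882477), (nat_lit 21286319)⟩, ⟨(nat_lit 200), (nat_lit 120), (nat_lit 33524074), (nat_lit 26882477)⟩]
def w13_2 : List ℕ := [(nat_lit 69600)]
def par13_2 : parC yB13_2 P13_2 s13_2 r13_2 q13_2 n13_2 w13_2 = true := by decide +kernel

def p13_2_0 : PF := (PF.cons (PF.cons (PF.cons (PF.cons (PF.leaf (nat_lit 0) (nat_lit 67108813) (nat_lit 67108813) (nat_lit 0) [(nat_lit 0), (nat_lit 0), (nat_lit 0), (nat_lit 0)]) (PF.cons (PF.leaf (nat_lit 79899) (nat_lit 159339) (nat_lit 66949473) (nat_lit 0) [(nat_lit 159339), (nat_lit 0), (nat_lit 0), (nat_lit 0)]) (PF.cons (PF.leaf (nat_lit 207415) (nat_lit 199835) (nat_lit 66709142) (nat_lit 0) [(nat_lit 199835), (nat_lit 0), (nat_lit 0), (nat_lit 0)]) (PF.cons PF.nil PF.nil)))) (PF.cons (PF.cons (PF.leaf (nat_lit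 233294) (nat_lit 538685) (nat_lit 66570127) (nat_lit 0) [(nat_lit 0), (nat_lit 538685), (nat_lit 0), (nat_lit 0)]) (PF.cons (PF.leaf (nat_lit 383771) (nat_lit 238919) (nat_lit 66270864) (nat_lit 0) [(nat_lit 238919), (nat_lit 599028), (nat_lit 0), (nat_lit 0)]) PF.nil)) (PF.cons PF.nil PF.nil))) (PF.cons (PF.cons (PF.cons (PF.leaf (nat_lit 640420) (nat_lit 1886046) (nat_lit 65222766) (nat_lit 0) [(nat_lit 0), (nat_lit 0), (nat_lit 1886046), (nat_lit 0)]) (PF.cons (PF.leaf (nat_lit 823835) (nat_lit 299757) (nat_lit 64845964) (nat_lit 0) [(nat_lit 299757), (nat_lit 0), (nat_lit 1963090), (nat_lit 0)]) PF.nil)) (PF.cons PF.nil PF.nil)) (PF.cons PF.nil PF.nil))) (PF.cons (PF.cons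
 (PF.cons (PF.cons (PF.leaf (nat_lit 1358678) (nat_lit 5177003) (nat_lit 61931809) (nat_lit 0) [(nat_lit 0), (nat_lit 0), (nat_lit 0), (nat_lit 5177003)]) (PF.cons (PF.leaf (nat_lit 1566315) (nat_lit 356719) (nat_lit 61506738) (nat_lit 0) [(nat_lit 356719), (nat_lit 0), (nat_lit 0), (nat_lit 5245355)]) (PF.cons (PF.leaf (nat_lit 1813325) (nat_lit 390949) (nat_lit 61007164) (nat_lit 0) [(nat_lit 390949), (nat_lit 0), (nat_lit 0), (nat_lit 5319748)]) (PF.cons PF.nil (PF.cons PF.nil PF.nil))))) (PF.cons (PF.cons (PF.leaf (nat_lit 1803477) (nat_lit 910074) (nat_lit 60863290) (nat_lit 0) [(nat_lit 0), (nat_lit 910074), (nat_lit 0), (nat_lit 5335447)]) (PF.cons (PF.leaf (nat_lit 2066307) (nat_lit 417878) (nat_lit 60327739) (nat_lit 0) [(nat_lit 417878), (nat_lit 955981), (nat_lit 0), (nat_lit 5407213)]) (PF.cons PF.nil (PF.cons PF.nil PF.nil)))) (PF.cons (PF.cons (PF.leaf (nat_lit 2328633) (nat_lit 999395) (nat_lit 59621351) (nat_lit 0) [(nat_lit 0), (nat_lit 999395),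 (nat_lit 0), (nat_lit 5488670)]) (PF.cons PF.nil PF.nil)) PF.nil))) (PF.cons (PF.cons (PF.cons (PF.leaf (nat_lit 2306307) (nat_lit 2457352) (nat_lit 59137228) (nat_lit 0) [(nat_lit 0), (nat_lit 0), (nat_lit 2457352),
 (nat_lit 5514232)]) (PF.cons (PF.leaf (nat_lit 2586897) (nat_lit 456603) (nat_lit 58567003) (nat_lit 0) [(nat_lit 456603), (nat_lit 0), (nat_lit 2511316), (nat_lit 5573888)]) PF.nil)) (PF.cons PF.nil PF.nil)) (PF.cons PF.nil PF.nil))) (PF.cons (PF.cons (PF.cons (PF.cons (PF.leaf (nat_lit 3044218) (nat_lit 5683688) (nat_lit 55741436) (nat_lit 0) [(nat_lit 0), (nat_lit 0), (nat_lit 0), (nat_lit 5683688)]) (PF.cons (PF.leaf (nat_lit 3333047) (nat_lit 489233) (nat_lit 55171977) (nat_lit 0) [(nat_lit 489233), (nat_lit 0), (nat_lit 0), (nat_lit 5723800)]) (PF.cons PF.nil PF.nil))) (PF.cons (PF.cons (PF.leaf (nat_lit 3603152) (nat_lit 1128579) (nat_lit 54450012) (nat_lit 0) [(nat_lit 0), (nat_lit 1128579), (nat_lit 0), (nat_lit 5765110)]) PF.nil) PF.nil))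 (PF.cons PF.nil PF.nil)) (PF.cons PF.nil (PF.cons PF.nil (PF.cons PF.nil PF.nil))))))

def p13_2_0_0 : pfC (piC [(nat_lit 33524074), (nat_lit 26882477), (nat_lit 21286319), (nat_lit 14146940)] (nat_lit 0)) p13_2_0 (nat_lit 4) (nat_lit 0) (nat_lit 2) = true := by decide +kernel
def p13_2_0_1 : pfC (piC [(nat_lit 33524074), (nat_lit 26882477), (nat_lit 21286319), (nat_lit 14146940)] (nat_lit 0)) p13_2_0 (nat_lit 4) (nat_lit 2) (nat_lit 3) = true := by decide +kernel
def p13_2_0_2 : pfC (piC [(nat_lit 33524074), (nat_lit 26882477), (nat_lit 21286319), (nat_lit 14146940)] (nat_lit 0)) p13_2_0 (nat_lit 4) (nat_lit 3) (nat_lit 4) = true := by decide +kernel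
def p13_2_0_3 : pfC (piC [(nat_lit 33524074), (nat_lit 26882477), (nat_lit 21286319), (nat_lit 14146940)] (nat_lit 0)) p13_2_0 (nat_lit 4) (nat_lit 4) (nat_lit 5) = true := by decide +kernel
def p13_2_0_4 : pfC (piC [(nat_lit 33524074), (nat_lit 26882477), (nat_lit 21286319), (nat_lit 14146940)] (nat_lit 0)) p13_2_0 (nat_lit 4) (nat_lit 5) (nat_lit 6) = true := by decide +kernel
def p13_2_0_5 : pfC (piC [(nat_lit 33524074), (nat_lit 26882477), (nat_lit 21286319), (nat_lit 14146940)] (nat_lit 0)) p13_2_0 (nat_lit 4) (nat_lit 6) (nat_lit 7) = true := by decide +kernel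
def p13_2_0_6 : pfC (piC [(nat_lit 33524074), (nat_lit 26882477), (nat_lit 21286319), (nat_lit 14146940)] (nat_lit 0)) p13_2_0 (nat_lit 4) (nat_lit 7) (nat_lit 8) = true := by decide +kernel
def p13_2_0_7 : pfC (piC [(nat_lit 33524074), (nat_lit 26882477), (nat_lit 21286319), (nat_lit 14146940)] (nat_lit 0)) p13_2_0 (nat_lit 4) (nat_lit 8) (nat_lit 9) = true := by decide +kernel
def p13_2_0_8 : pfC (piC [(nat_lit 33524074), (nat_lit 26882477), (nat_lit 21286319), (nat_lit 14146940)] (nat_lit 0)) p13_2_0 (nat_lit 4) (nat_lit 9) (nat_lit 10) = true := by decide +kernel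
def p13_2_0_9 : pfC (piC [(nat_lit 33524074), (nat_lit 26882477), (nat_lit 21286319), (nat_lit 14146940)] (nat_lit 0)) p13_2_0 (nat_lit 4) (nat_lit 10) (nat_lit 11) = true := by decide +kernel
def p13_2_0_10 : pfC (piC [(nat_lit 33524074), (nat_lit 26882477), (nat_lit 21286319), (nat_lit 14146940)] (nat_lit 0)) p13_2_0 (nat_lit 4) (nat_lit 11) (nat_lit 12) = true := by decide +kernel
def p13_2_0_11 : pfC (piC [(nat_lit 33524074), (nat_lit 26882477), (nat_lit 21286319), (nat_lit 14146940)] (nat_lit 0)) p13_2_0 (nat_lit 4) (nat_lit 12) (nat_lit 13) = true := by decide +kernel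
def p13_2_0_12 : pfC (piC [(nat_lit 33524074), (nat_lit 26882477), (nat_lit 21286319), (nat_lit 14146940)] (nat_lit 0)) p13_2_0 (nat_lit 4) (nat_lit 13) (nat_lit 14) = true := by decide +kernel
def p13_2_0_13 : pfC (piC [(nat_lit 33524074), (nat_lit 26882477), (nat_lit 21286319), (nat_lit 14146940)] (nat_lit 0)) p13_2_0 (nat_lit 4) (nat_lit 14) (nat_lit 15) = true := by decide +kernel
def p13_2_0_14 : pfC (piC [(nat_lit 33524074), (nat_lit 26882477), (nat_lit 21286319), (nat_lit 14146940)] (nat_lit 0)) p13_2_0 (nat_lit 4) (nat_lit 15) (nat_lit 16) = true := by decide +kernel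
def p13_2_0_15 : pfC (piC [(nat_lit 33524074), (nat_lit 26882477), (nat_lit 21286319), (nat_lit 14146940)] (nat_lit 0)) p13_2_0 (nat_lit 4) (nat_lit 16) (nat_lit 17) = true := by decide +kernel
def p13_2_0_16 : pfC (piC [(nat_lit 33524074), (nat_lit 26882477), (nat_lit 21286319), (nat_lit 14146940)] (nat_lit 0)) p13_2_0 (nat_lit 4) (nat_lit 17) (nat_lit 18) = true := by decide +kernel
theorem p13_2_0_T : PfS (PiF n13_2.reverse (nat_lit 0)) p13_2_0 (nat_lit 4) [] 0 :=
  pftab_of (los := [(nat_lit 33524074), (nat_lit 26882477), (nat_lit 21286319), (nat_lit 14146940)]) (by decide +kernel) (hi := (nat_lit 18)) (PfP.trans (PfP.trans (PfP.trans (PfP.trans (PfP.trans (PfP.trans (PfP.trans (PfP.trans (PfP.trans (PfP.trans (PfP.trans (PfP.trans (PfP.trans (PfP.trans (PfP.trans (PfP.trans (pfC_sound p13_2_0_0) (pfC_sound p13_2_0_1)) (pfC_sound p13_2_0_2)) (pfC_sound p13_2_0_3)) (pfC_sound p13_2_0_4)) (pfC_sound p13_2_0_5)) (pfC_sound p13_2_0_6)) (pfC_sound p13_2_0_7))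 (pfC_sound p13_2_0_8)) (pfC_sound p13_2_0_9)) (pfC_sound p13_2_0_10)) (pfC_sound p13_2_0_11)) (pfC_sound p13_2_0_12)) (pfC_sound p13_2_0_13)) (pfC_sound p13_2_0_14)) (pfC_sound p13_2_0_15)) (pfC_sound p13_2_0_16)) (by decide +kernel)

def z13_2_0 : zOK yB13_2 (nat_lit 0) (nat_lit 0) (nat_lit 400) (nat_lit 0) (nat_lit 0) = true := by decide +kernel
def g13_2_0 : gOK yB13_2.x P13_2 (nat_lit 1407) (q13_2 :: r13_2) (nat_lit 0) (nat_lit 0) (nat_lit 1) (nat_lit 400) (nat_lit 0) (nat_lit 11000000) (nat_lit 12712500) (nat_lit 12712500) [(nat_lit 800), (nat_lit 1600)] = true := by decide +kernel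
def v13_2_0 : ivC P13_2 s13_2 w13_2 n13_2 (nat_lit 4) (nat_lit 5620) (nat_lit 0) (nat_lit 0) f112_1_0 f120_1_0 (nat_lit 1) (nat_lit 400) f112_1_400 f120_1_400 (nat_lit 0) (nat_lit 0) p13_2_0 = true := by decide +kernel
def p13_2_1 : PF := (PF.cons (PF.cons (PF.cons (PF.cons (PF.leaf (nat_lit 1991377) (nat_lit 9150063) (nat_lit 57958749) (nat_lit 9150063) [(nat_lit 0), (nat_lit 0), (nat_lit 0), (nat_lit 0)]) (PF.cons (PF.leaf (nat_lit 2205421) (nat_lit 381542) (nat_lit 57539599) (nat_lit 9187671) [(nat_lit 381542), (nat_lit 0), (nat_lit 0), (nat_lit 0)]) (PF.cons PF.nil PF.nil))) (PF.cons (PF.cons (PF.leaf (nat_lit 2443240) (nat_lit 962133) (nat_lit 56911861) (nat_lit 9234818) [(nat_lit 0), (nat_lit 962133), (nat_lit 0), (nat_lit 0)]) PF.nil) PF.nil)) (PF.cons PF.nil PF.nil)) (PF.cons (PF.cons (PF.cons (PF.cons (PF.leaf (nat_lit 3625105) (nat_lit 5694819) (nat_lit 52099019) (nat_lit 9314974) [(nat_lit 0), (nat_lit 0), (nat_lit 0), (nat_lit 5694819)]) (PF.cons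 (PF.leaf (nat_lit 3910700) (nat_lit 498900) (nat_lit 51565711) (nat_lit 9322337) [(nat_lit 498900), (nat_lit 0), (nat_lit 0), (nat_lit 5721863)]) PF.nil)) (PF.cons PF.nil PF.nil)) (PF.cons PF.nil PF.nil)) (PF.cons PF.nil (PF.cons PF.nil PF.nil))))

def p13_2_1_0 : pfC (piC [(nat_lit 33524074), (nat_lit 26882477), (nat_lit 21286319), (nat_lit 14146940)] (nat_lit 11647522)) p13_2_1 (nat_lit 4) (nat_lit 0) (nat_lit 1) = true := by decide +kernel
def p13_2_1_1 : pfC (piC [(nat_lit 33524074), (nat_lit 26882477), (nat_lit 21286319), (nat_lit 14146940)] (nat_lit 11647522)) p13_2_1 (nat_lit 4) (nat_lit 1) (nat_lit 2) = true := by decide +kernel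
def p13_2_1_2 : pfC (piC [(nat_lit 33524074), (nat_lit 26882477), (nat_lit 21286319), (nat_lit 14146940)] (nat_lit 11647522)) p13_2_1 (nat_lit 4) (nat_lit 2) (nat_lit 3) = true := by decide +kernel
def p13_2_1_3 : pfC (piC [(nat_lit 33524074), (nat_lit 26882477), (nat_lit 21286319), (nat_lit 14146940)] (nat_lit 11647522)) p13_2_1 (nat_lit 4) (nat_lit 3) (nat_lit 4) = true := by decide +kernel
def p13_2_1_4 : pfC (piC [(nat_lit 33524074), (nat_lit 26882477), (nat_lit 21286319), (nat_lit 14146940)] (nat_lit 11647522)) p13_2_1 (nat_lit 4) (nat_lit 4) (nat_lit 5) = true := by decide +kernel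
theorem p13_2_1_T : PfS (PiF n13_2.reverse (nat_lit 11647522)) p13_2_1 (nat_lit 4) [] 0 :=
  pftab_of (los := [(nat_lit 33524074), (nat_lit 26882477), (nat_lit 21286319), (nat_lit 14146940)]) (by decide +kernel) (hi := (nat_lit 5)) (PfP.trans (PfP.trans (PfP.trans (PfP.trans (pfC_sound p13_2_1_0) (pfC_sound p13_2_1_1)) (pfC_sound p13_2_1_2)) (pfC_sound p13_2_1_3)) (pfC_sound p13_2_1_4)) (by decide +kernel)

def z13_2_1 : zOK yB13_2 (nat_lit 1) (nat_lit 400) (nat_lit 600) (nat_lit 11647522) (nat_lit 6812188) = true := by decide +kernel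
def g13_2_1 : gOK yB13_2.x P13_2 (nat_lit 1407) (q13_2 :: r13_2) (nat_lit 1) (nat_lit 400) (nat_lit 2) (nat_lit 600) (nat_lit 11000000) (nat_lit 17850000) (nat_lit 12712500) (nat_lit 12712500) [(nat_lit 800), (nat_lit 1250)] = true := by decide +kernel
def v13_2_1 : ivC P13_2 s13_2 w13_2 n13_2 (nat_lit 4) (nat_lit 5220) (nat_lit 1) (nat_lit 400) f112_1_400 f120_1_400 (nat_lit 2) (nat_lit 600) f112_1_600 f120_1_600 (nat_lit 11647522) (nat_lit 6812188) p13_2_1 = true := by decide +kernel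
def p13_2_2 : PF := (PF.cons (PF.cons (PF.cons (PF.cons (PF.leaf (nat_lit 2765290) (nat_lit 16221771) (nat_lit 50887041) (nat_lit 16221771) [(nat_lit 0), (nat_lit 0), (nat_lit 0), (nat_lit 0)]) (PF.cons (PF.leaf (nat_lit 2973450) (nat_lit 384415) (nat_lit 50530712) (nat_lit 16193685) [(nat_lit 384415), (nat_lit 0), (nat_lit 0), (nat_lit 0)]) (PF.cons (PF.leaf (nat_lit 3217787) (nat_lit 416992) (nat_lit 50116154) (nat_lit 16158673) [(nat_lit 416992), (nat_lit 0), (nat_lit 0), (nat_lit 0)]) (PF.cons PF.nil PF.nil)))) (PF.cons (PF.cons (PF.leaf (nat_lit 3199656) (nat_lit 962033) (nat_lit 50000159) (nat_lit 16146619) [(nat_lit 0), (nat_lit 962033), (nat_lit 0), (nat_lit 0)]) (PF.cons (PF.leaf (nat_lit 3456104) (nat_lit 440137) (nat_lit 49561444) (nat_lit 16106166) [(nat_lit 440137), (nat_lit 1001064), (nat_lit 0), (nat_lit 0)]) PF.nil)) (PF.cons PF.nil PF.nil))) (PF.cons (PF.cons (PF.cons (PF.leaf (nat_lit 3652632) (nat_lit 2493558) (nat_lit 48618742) (nat_lit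 15996512) [(nat_lit 0), (nat_lit 0), (nat_lit 2493558), (nat_lit 0)]) (PF.cons PF.nil PF.nil)) (PF.cons PF.nil PF.nil)) (PF.cons PF.nil PF.nil))) (PF.cons (PF.cons (PF.cons (PF.cons (PF.leaf (nat_lit 4273964) (nat_lit 5471628) (nat_lit 46018630)
 (nat_lit 15618553) [(nat_lit 0), (nat_lit 0), (nat_lit 0), (nat_lit 5471628)]) (PF.cons (PF.leaf (nat_lit 4544627) (nat_lit 486636) (nat_lit 45576423) (nat_lit 15557549) [(nat_lit 486636), (nat_lit 0), (nat_lit 0), (nat_lit 5488203)]) (PF.cons PF.nil PF.nil))) (PF.cons (PF.cons (PF.leaf (nat_lit 4788840) (nat_lit 1110179) (nat_lit 45020769) (nat_lit 15475975) [(nat_lit 0), (nat_lit 1110179), (nat_lit 0), (nat_lit 5501889)]) PF.nil) PF.nil)) (PF.cons PF.nil PF.nil)) (PF.cons PF.nil (PF.cons PF.nil PF.nil))))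

def p13_2_2_0 : pfC (piC [(nat_lit 33524074), (nat_lit 26882477), (nat_lit 21286319), (nat_lit 14146940)] (nat_lit 6812188)) p13_2_2 (nat_lit 4) (nat_lit 0) (nat_lit 1) = true := by decide +kernel
def p13_2_2_1 : pfC (piC [(nat_lit 33524074), (nat_lit 26882477), (nat_lit 21286319), (nat_lit 14146940)] (nat_lit 6812188)) p13_2_2 (nat_lit 4) (nat_lit 1) (nat_lit 2) = true := by decide +kernel
def p13_2_2_2 : pfC (piC [(nat_lit 33524074), (nat_lit 26882477), (nat_lit 21286319), (nat_lit 14146940)] (nat_lit 6812188)) p13_2_2 (nat_lit 4) (nat_lit 2) (nat_lit 3) = true := by decide +kernel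
def p13_2_2_3 : pfC (piC [(nat_lit 33524074), (nat_lit 26882477), (nat_lit 21286319), (nat_lit 14146940)] (nat_lit 6812188)) p13_2_2 (nat_lit 4) (nat_lit 3) (nat_lit 4) = true := by decide +kernel
def p13_2_2_4 : pfC (piC [(nat_lit 33524074), (nat_lit 26882477), (nat_lit 21286319), (nat_lit 14146940)] (nat_lit 6812188)) p13_2_2 (nat_lit 4) (nat_lit 4) (nat_lit 5) = true := by decide +kernel
def p13_2_2_5 : pfC (piC [(nat_lit 33524074), (nat_lit 26882477), (nat_lit 21286319), (nat_lit 14146940)] (nat_lit 6812188)) p13_2_2 (nat_lit 4) (nat_lit 5) (nat_lit 6) = true := by decide +kernel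
def p13_2_2_6 : pfC (piC [(nat_lit 33524074), (nat_lit 26882477), (nat_lit 21286319), (nat_lit 14146940)] (nat_lit 6812188)) p13_2_2 (nat_lit 4) (nat_lit 6) (nat_lit 7) = true := by decide +kernel
def p13_2_2_7 : pfC (piC [(nat_lit 33524074), (nat_lit 26882477), (nat_lit 21286319), (nat_lit 14146940)] (nat_lit 6812188)) p13_2_2 (nat_lit 4) (nat_lit 7) (nat_lit 8) = true := by decide +kernel
def p13_2_2_8 : pfC (piC [(nat_lit 33524074), (nat_lit 26882477), (nat_lit 21286319), (nat_lit 14146940)] (nat_lit 6812188)) p13_2_2 (nat_lit 4) (nat_lit 8) (nat_lit 9) = true := by decide +kernel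
theorem p13_2_2_T : PfS (PiF n13_2.reverse (nat_lit 6812188)) p13_2_2 (nat_lit 4) [] 0 :=
  pftab_of (los := [(nat_lit 33524074), (nat_lit 26882477), (nat_lit 21286319), (nat_lit 14146940)]) (by decide +kernel) (hi := (nat_lit 9)) (PfP.trans (PfP.trans (PfP.trans (PfP.trans (PfP.trans (PfP.trans (PfP.trans (PfP.trans (pfC_sound p13_2_2_0) (pfC_sound p13_2_2_1)) (pfC_sound p13_2_2_2)) (pfC_sound p13_2_2_3)) (pfC_sound p13_2_2_4)) (pfC_sound p13_2_2_5)) (pfC_sound p13_2_2_6)) (pfC_sound p13_2_2_7)) (pfC_sound p13_2_2_8)) (by decide +kernel)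

def z13_2_2 : zOK yB13_2 (nat_lit 2) (nat_lit 600) (nat_lit 750) (nat_lit 6812188) (nat_lit 4620356) = true := by decide +kernel
def g13_2_2 : gOK yB13_2.x P13_2 (nat_lit 1407) (q13_2 :: r13_2) (nat_lit 2) (nat_lit 600) (nat_lit 3) (nat_lit 750) (nat_lit 12712500) (nat_lit 12712500) (nat_lit 12712500) (nat_lit 12712500) [(nat_lit 800), (nat_lit 1600)] = true := by decide +kernel
def v13_2_2 : ivC P13_2 s13_2 w13_2 n13_2 (nat_lit 4) (nat_lit 5020) (nat_lit 2) (nat_lit 600) f112_1_600 f120_1_600 (nat_lit 3) (nat_lit 750) f112_1_750 f120_1_750 (nat_lit 6812188) (nat_lit 4620356) p13_2_2 = true := by decide +kernel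
def p13_2_3 : PF := (PF.cons (PF.cons (PF.cons (PF.cons (PF.leaf (nat_lit 3194359) (nat_lit 22600454) (nat_lit 44508358) (nat_lit 22600454) [(nat_lit 0), (nat_lit 0), (nat_lit 0), (nat_lit 0)]) (PF.cons (PF.leaf (nat_lit 3389801) (nat_lit 364663) (nat_lit 44227458) (nat_lit 22516691) [(nat_lit 364663), (nat_lit 0), (nat_lit 0), (nat_lit 0)]) (PF.cons (PF.leaf (nat_lit 3619088) (nat_lit 395177) (nat_lit 43900576) (nat_lit 22417881) [(nat_lit 395177), (nat_lit 0), (nat_lit 0), (nat_lit 0)]) (PF.cons (PF.leaf (nat_lit 3875099) (nat_lit 421759) (nat_lit 43537151) (nat_lit 22306382) [(nat_lit 421759), (nat_lit 0), (nat_lit 0), (nat_lit 0)]) (PF.cons (PF.leaf (nat_lit 4153415) (nat_lit 445251) (nat_lit 43143963) (nat_lit 22183844) [(nat_lit 445251), (nat_lit 0), (nat_lit 0), (nat_lit 0)]) (PF.cons PF.nil (PF.cons PF.nil PF.nil))))))) (PF.cons (PF.cons (PF.leaf (nat_lit 3600960) (nat_lit 910402) (nat_lit 43809383) (nat_lit 22389027) [(nat_lit 0), (nat_lit 910402),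 (nat_lit 0), (nat_lit 0)]) (PF.cons (PF.leaf (nat_lit 3841229) (nat_lit 416594) (nat_lit 43463298) (nat_lit 22282442) [(nat_lit 416594), (nat_lit 946477), (nat_lit 0), (nat_lit 0)]) (PF.cons (PF.leaf (nat_lit 4106949) (nat_lit 440588) (nat_lit
 43083949) (nat_lit 22163862) [(nat_lit 440588), (nat_lit 979824), (nat_lit 0), (nat_lit 0)]) (PF.cons PF.nil (PF.cons PF.nil PF.nil))))) (PF.cons (PF.cons (PF.leaf (nat_lit 4068654) (nat_lit 977234) (nat_lit 43013723) (nat_lit 22140621) [(nat_lit 0), (nat_lit 977234), (nat_lit 0), (nat_lit 0)]) (PF.cons (PF.leaf (nat_lit 4342506) (nat_lit 457416) (nat_lit 42621151) (nat_lit 22015644) [(nat_lit 457416), (nat_lit 1007299), (nat_lit 0), (nat_lit 0)]) (PF.cons PF.nil (PF.cons PF.nil PF.nil)))) (PF.cons (PF.cons (PF.leaf (nat_lit 4581441) (nat_lit 1031829) (nat_lit 42150967) (nat_lit 21862355) [(nat_lit 0), (nat_lit 1031829), (nat_lit 0), (nat_lit 0)]) (PF.cons PF.nil PF.nil)) (PF.cons PF.nil PF.nil))))) (PF.cons (PF.cons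 (PF.cons (PF.leaf (nat_lit 4020320) (nat_lit 2346773) (nat_lit 42721316) (nat_lit 22040722) [(nat_lit 0), (nat_lit 0), (nat_lit 2346773), (nat_lit 0)]) (PF.cons (PF.leaf (nat_lit 4270910) (nat_lit 442499) (nat_lit 42361546) (nat_lit 21925022) [(nat_lit 442499), (nat_lit 0), (nat_lit 2379745), (nat_lit 0)]) (PF.cons (PF.leaf (nat_lit 4545242) (nat_lit 464074) (nat_lit 41971450) (nat_lit 21797802) [(nat_lit 464074), (nat_lit 0), (nat_lit 2411411), (nat_lit 0)]) (PF.cons
 PF.nil PF.nil)))) (PF.cons (PF.cons (PF.leaf (nat_lit 4501394) (nat_lit 1018732) (nat_lit 41904318) (nat_lit 21774631) [(nat_lit 0), (nat_lit 1018732), (nat_lit 2411131), (nat_lit 0)]) (PF.cons (PF.leaf (nat_lit 4782487) (nat_lit 478455) (nat_lit 41504163) (nat_lit 21641918) [(nat_lit 478455), (nat_lit 1044505), (nat_lit 2439769), (nat_lit 0)]) PF.nil)) (PF.cons PF.nil PF.nil))) (PF.cons (PF.cons (PF.cons (PF.leaf (nat_lit 4931574) (nat_lit 2455550) (nat_lit 40801120) (nat_lit 21396591) [(nat_lit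 0), (nat_lit 0), (nat_lit 2455550), (nat_lit 0)]) (PF.cons PF.nil PF.nil)) (PF.cons PF.nil PF.nil)) (PF.cons PF.nil (PF.cons PF.nil PF.nil))))) (PF.cons (PF.cons (PF.cons (PF.cons (PF.leaf (nat_lit 4590758) (nat_lit 5109469) (nat_lit 40672191) (nat_lit 21327152) [(nat_lit 0), (nat_lit 0), (nat_lit 0), (nat_lit 5109469)]) (PF.cons (PF.leaf (nat_lit 4844049) (nat_lit 458180) (nat_lit 40320734) (nat_lit 21206386) [(nat_lit 458180), (nat_lit 0), (nat_lit 0), (nat_lit 5123512)]) (PF.cons (PF.leaf (nat_lit 5119702) (nat_lit 478210) (nat_lit 39941708) (nat_lit 21074581) [(nat_lit 478210), (nat_lit 0), (nat_lit 0), (nat_lit 5136102)]) (PF.cons PF.nil PF.nil)))) (PF.cons (PF.cons (PF.leaf (nat_lit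
 5071848) (nat_lit 1043676) (nat_lit 39878870) (nat_lit 21051528) [(nat_lit 0), (nat_lit 1043676), (nat_lit 0), (nat_lit 5134737)]) (PF.cons (PF.leaf (nat_lit 5353059) (nat_lit 490729) (nat_lit 39492109) (nat_lit 20915105) [(nat_lit 490729), (nat_lit 1066068), (nat_lit 0), (nat_lit 5144799)]) PF.nil)) (PF.cons PF.nil PF.nil))) (PF.cons (PF.cons (PF.cons (PF.leaf (nat_lit 5488637) (nat_lit 2472649) (nat_lit 38827943) (nat_lit 20669978) [(nat_lit 0), (nat_lit 0), (nat_lit 2472649), (nat_lit 5138241)]) (PF.cons PF.nil PF.nil)) (PF.cons PF.nil PF.nil)) (PF.cons PF.nil PF.nil))) (PF.cons (PF.cons (PF.cons (PF.cons (PF.leaf (nat_lit 6017512) (nat_lit 5086669) (nat_lit 36979400) (nat_lit 19956074) [(nat_lit 0), (nat_lit 0), (nat_lit 0), (nat_lit 5086669)]) (PF.cons PF.nil PF.nil)) (PF.cons PF.nil PF.nil)) (PF.cons PF.nil PF.nil)) (PF.cons PF.nil (PF.cons PF.nil (PF.cons PF.nil PF.nil))))))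

def p13_2_3_0 : pfC (piC [(nat_lit 33524074), (nat_lit 26882477), (nat_lit 21286319), (nat_lit 14146940)] (nat_lit 4620356)) p13_2_3 (nat_lit 4) (nat_lit 0) (nat_lit 1) = true := by decide +kernel
def p13_2_3_1 : pfC (piC [(nat_lit 33524074), (nat_lit 26882477), (nat_lit 21286319), (nat_lit 14146940)] (nat_lit 4620356)) p13_2_3 (nat_lit 4) (nat_lit 1) (nat_lit 2) = true := by decide +kernel
def p13_2_3_2 : pfC (piC [(nat_lit 33524074), (nat_lit 26882477), (nat_lit 21286319), (nat_lit 14146940)] (nat_lit 4620356)) p13_2_3 (nat_lit 4) (nat_lit 2) (nat_lit 3) = true := by decide +kernel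
def p13_2_3_3 : pfC (piC [(nat_lit 33524074), (nat_lit 26882477), (nat_lit 21286319), (nat_lit 14146940)] (nat_lit 4620356)) p13_2_3 (nat_lit 4) (nat_lit 3) (nat_lit 4) = true := by decide +kernel
def p13_2_3_4 : pfC (piC [(nat_lit 33524074), (nat_lit 26882477), (nat_lit 21286319), (nat_lit 14146940)] (nat_lit 4620356)) p13_2_3 (nat_lit 4) (nat_lit 4) (nat_lit 5) = true := by decide +kernel
def p13_2_3_5 : pfC (piC [(nat_lit 33524074), (nat_lit 26882477), (nat_lit 21286319), (nat_lit 14146940)] (nat_lit 4620356)) p13_2_3 (nat_lit 4) (nat_lit 5) (nat_lit 6) = true := by decide +kernel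
def p13_2_3_6 : pfC (piC [(nat_lit 33524074), (nat_lit 26882477), (nat_lit 21286319), (nat_lit 14146940)] (nat_lit 4620356)) p13_2_3 (nat_lit 4) (nat_lit 6) (nat_lit 7) = true := by decide +kernel
def p13_2_3_7 : pfC (piC [(nat_lit 33524074), (nat_lit 26882477), (nat_lit 21286319), (nat_lit 14146940)] (nat_lit 4620356)) p13_2_3 (nat_lit 4) (nat_lit 7) (nat_lit 8) = true := by decide +kernel
def p13_2_3_8 : pfC (piC [(nat_lit 33524074), (nat_lit 26882477), (nat_lit 21286319), (nat_lit 14146940)] (nat_lit 4620356)) p13_2_3 (nat_lit 4) (nat_lit 8) (nat_lit 9) = true := by decide +kernel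
def p13_2_3_9 : pfC (piC [(nat_lit 33524074), (nat_lit 26882477), (nat_lit 21286319), (nat_lit 14146940)] (nat_lit 4620356)) p13_2_3 (nat_lit 4) (nat_lit 9) (nat_lit 10) = true := by decide +kernel
def p13_2_3_10 : pfC (piC [(nat_lit 33524074), (nat_lit 26882477), (nat_lit 21286319), (nat_lit 14146940)] (nat_lit 4620356)) p13_2_3 (nat_lit 4) (nat_lit 10) (nat_lit 11) = true := by decide +kernel
def p13_2_3_11 : pfC (piC [(nat_lit 33524074), (nat_lit 26882477), (nat_lit 21286319), (nat_lit 14146940)] (nat_lit 4620356)) p13_2_3 (nat_lit 4) (nat_lit 11) (nat_lit 12) = true := by decide +kernel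
def p13_2_3_12 : pfC (piC [(nat_lit 33524074), (nat_lit 26882477), (nat_lit 21286319), (nat_lit 14146940)] (nat_lit 4620356)) p13_2_3 (nat_lit 4) (nat_lit 12) (nat_lit 13) = true := by decide +kernel
def p13_2_3_13 : pfC (piC [(nat_lit 33524074), (nat_lit 26882477), (nat_lit 21286319), (nat_lit 14146940)] (nat_lit 4620356)) p13_2_3 (nat_lit 4) (nat_lit 13) (nat_lit 14) = true := by decide +kernel
def p13_2_3_14 : pfC (piC [(nat_lit 33524074), (nat_lit 26882477), (nat_lit 21286319), (nat_lit 14146940)] (nat_lit 4620356)) p13_2_3 (nat_lit 4) (nat_lit 14) (nat_lit 15) = true := by decide +kernel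
def p13_2_3_15 : pfC (piC [(nat_lit 33524074), (nat_lit 26882477), (nat_lit 21286319), (nat_lit 14146940)] (nat_lit 4620356)) p13_2_3 (nat_lit 4) (nat_lit 15) (nat_lit 16) = true := by decide +kernel
def p13_2_3_16 : pfC (piC [(nat_lit 33524074), (nat_lit 26882477), (nat_lit 21286319), (nat_lit 14146940)] (nat_lit 4620356)) p13_2_3 (nat_lit 4) (nat_lit 16) (nat_lit 17) = true := by decide +kernel
def p13_2_3_17 : pfC (piC [(nat_lit 33524074), (nat_lit 26882477), (nat_lit 21286319), (nat_lit 14146940)] (nat_lit 4620356)) p13_2_3 (nat_lit 4) (nat_lit 17) (nat_lit 18) = true := by decide +kernel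
def p13_2_3_18 : pfC (piC [(nat_lit 33524074), (nat_lit 26882477), (nat_lit 21286319), (nat_lit 14146940)] (nat_lit 4620356)) p13_2_3 (nat_lit 4) (nat_lit 18) (nat_lit 19) = true := by decide +kernel
def p13_2_3_19 : pfC (piC [(nat_lit 33524074), (nat_lit 26882477), (nat_lit 21286319), (nat_lit 14146940)] (nat_lit 4620356)) p13_2_3 (nat_lit 4) (nat_lit 19) (nat_lit 20) = true := by decide +kernel
def p13_2_3_20 : pfC (piC [(nat_lit 33524074), (nat_lit 26882477), (nat_lit 21286319), (nat_lit 14146940)] (nat_lit 4620356)) p13_2_3 (nat_lit 4) (nat_lit 20) (nat_lit 21) = true := by decide +kernel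
def p13_2_3_21 : pfC (piC [(nat_lit 33524074), (nat_lit 26882477), (nat_lit 21286319), (nat_lit 14146940)] (nat_lit 4620356)) p13_2_3 (nat_lit 4) (nat_lit 21) (nat_lit 22) = true := by decide +kernel
def p13_2_3_22 : pfC (piC [(nat_lit 33524074), (nat_lit 26882477), (nat_lit 21286319), (nat_lit 14146940)] (nat_lit 4620356)) p13_2_3 (nat_lit 4) (nat_lit 22) (nat_lit 23) = true := by decide +kernel
def p13_2_3_23 : pfC (piC [(nat_lit 33524074), (nat_lit 26882477), (nat_lit 21286319), (nat_lit 14146940)] (nat_lit 4620356)) p13_2_3 (nat_lit 4) (nat_lit 23) (nat_lit 24) = true := by decide +kernel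
theorem p13_2_3_T : PfS (PiF n13_2.reverse (nat_lit 4620356)) p13_2_3 (nat_lit 4) [] 0 :=
  pftab_of (los := [(nat_lit 33524074), (nat_lit 26882477), (nat_lit 21286319), (nat_lit 14146940)]) (by decide +kernel) (hi := (nat_lit 24)) (PfP.trans (PfP.trans (PfP.trans (PfP.trans (PfP.trans (PfP.trans (PfP.trans (PfP.trans (PfP.trans (PfP.trans (PfP.trans (PfP.trans (PfP.trans (PfP.trans (PfP.trans (PfP.trans (PfP.trans (PfP.trans (PfP.trans (PfP.trans (PfP.trans (PfP.trans (PfP.trans (pfC_sound p13_2_3_0) (pfC_sound p13_2_3_1)) (pfC_sound p13_2_3_2)) (pfC_sound p13_2_3_3)) (pfC_sound p13_2_3_4)) (pfC_sound p13_2_3_5)) (pfC_sound p13_2_3_6)) (pfC_sound p13_2_3_7)) (pfC_sound p13_2_3_8)) (pfC_sound p13_2_3_9)) (pfC_sound p13_2_3_10)) (pfC_sound p13_2_3_11)) (pfC_sound p13_2_3_12)) (pfC_sound p13_2_3_13)) (pfC_sound p13_2_3_14)) (pfC_sound p13_2_3_15)) (pfC_sound p13_2_3_16)) (pfC_sound p13_2_3_17)) (pfC_sound p13_2_3_18)) (pfC_sound p13_2_3_19)) (pfC_sound p13_2_3_20))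 (pfC_sound p13_2_3_21)) (pfC_sound p13_2_3_22)) (pfC_sound p13_2_3_23)) (by decide +kernel)

def z13_2_3 : zOK yB13_2 (nat_lit 3) (nat_lit 750) (nat_lit 975) (nat_lit 4620356) (nat_lit 2156717) = true := by decide +kernel
def g13_2_3 : gOK yB13_2.x P13_2 (nat_lit 1407) (q13_2 :: r13_2) (nat_lit 3) (nat_lit 750) (nat_lit 4) (nat_lit 975) (nat_lit 12712500) (nat_lit 12712500) (nat_lit 12712500) (nat_lit 12712500) [(nat_lit 800)] = true := by decide +kernel
def v13_2_3 : ivC P13_2 s13_2 w13_2 n13_2 (nat_lit 4) (nat_lit 4870) (nat_lit 3) (nat_lit 750) f112_1_750 f120_1_750 (nat_lit 4) (nat_lit 975) f112_1_975 f120_1_975 (nat_lit 4620356) (nat_lit 2156717) p13_2_3 = true := by decide +kernel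
/-! box `yB13_3` -/

def P13_3 : BQ := ⟨(nat_lit 8), (nat_lit 8), (nat_lit 0), (nat_lit 4), (nat_lit 4), (nat_lit 600), (nat_lit 620), (nat_lit 120), [(nat_lit 200), (nat_lit 300), (nat_lit 450), (nat_lit 800)], (nat_lit 28416000), (nat_lit 16000000), (nat_lit 16000000000)⟩
def q13_3 : PC := ⟨(nat_lit 1000), [(nat_lit 120000), (nat_lit 200000), (nat_lit 300000), (nat_lit 450000), (nat_lit 800000)], (nat_lit 340282367000166625996085689103316680705000000), (nat_lit 15971584000000), (nat_lit 15971584000000), (nat_lit 10000000)⟩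
def r13_3 : List PC := [⟨(nat_lit 1331), [(nat_lit 120510), (nat_lit 200929), (nat_lit 301740), (nat_lit 452394), (nat_lit 799159)], (nat_lit 342251921340468250830008912003337752914382441), (nat_lit 16337075760160), (nat_lit 16350233672160), (nat_lit 10058000)⟩]
def s13_3 : List PB := [⟨(nat_lit 26620), (nat_lit 1928160000000), [(nat_lit 200929), (nat_lit 301740), (nat_lit 452394), (nat_lit 799159)], (nat_lit 342251921340468250830008912003337752914382441), (nat_lit 1142236982602784), (nat_lit 1142250140514784), (nat_lit 52960)⟩]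
def n13_3 : List KN := [⟨(nat_lit 800), (nat_lit 450), (nat_lit 14064972), (nat_lit 10300196)⟩, ⟨(nat_lit 450), (nat_lit 300), (nat_lit 21202637), (nat_lit 14064972)⟩, ⟨(nat_lit 300), (nat_lit 200), (nat_lit 28134109), (nat_lit 21202637)⟩, ⟨(nat_lit 200), (nat_lit 120), (nat_lit 35404596), (nat_lit 28134109)⟩]
def w13_3 : List ℕ := [(nat_lit 52960)]
def par13_3 : parC yB13_3 P13_3 s13_3 r13_3 q13_3 n13_3 w13_3 = true := by decide +kernel

def p13_3_0 : PF := (PF.cons (PF.cons (PF.cons (PF.cons (PF.leaf (nat_lit 0) (nat_lit 67108813) (nat_lit 67108813) (nat_lit 0) [(nat_lit 0), (nat_lit 0), (nat_lit 0), (nat_lit 0)]) (PF.cons (PF.leaf (nat_lit 57184) (nat_lit 116566) (nat_lit 66992246) (nat_lit 0) [(nat_lit 116566), (nat_lit 0), (nat_lit 0), (nat_lit 0)]) (PF.cons (PF.leaf (nat_lit 155852) (nat_lit 146371) (nat_lit 66816069) (nat_lit 0) [(nat_lit 146371), (nat_lit 0), (nat_lit 0), (nat_lit 0)]) (PF.cons (PF.leaf (nat_lit 284783) (nat_lit 174993) (nat_lit 66583832)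 (nat_lit 0) [(nat_lit 174993), (nat_lit 0), (nat_lit 0), (nat_lit 0)]) (PF.cons PF.nil PF.nil))))) (PF.cons (PF.cons (PF.leaf (nat_lit 211801) (nat_lit 479729) (nat_lit 66629083) (nat_lit 0) [(nat_lit 0), (nat_lit 479729), (nat_lit 0), (nat_lit 0)]) (PF.cons (PF.leaf (nat_lit 330006) (nat_lit 181460) (nat_lit 66400205) (nat_lit 0) [(nat_lit 181460), (nat_lit 527146), (nat_lit 0), (nat_lit 0)]) (PF.cons PF.nil (PF.cons PF.nil PF.nil)))) (PF.cons (PF.cons (PF.leaf (nat_lit 527784) (nat_lit 596164) (nat_lit 65916483) (nat_lit 0) [(nat_lit 0), (nat_lit 596164), (nat_lit 0), (nat_lit 0)]) (PF.cons PF.nil PF.nil)) PF.nil))) (PF.cons (PF.cons (PF.cons (PF.leaf (nat_lit 648480)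
 (nat_lit 1916649) (nat_lit 65192163) (nat_lit 0) [(nat_lit 0), (nat_lit 0), (nat_lit 1916649), (nat_lit 0)]) (PF.cons (PF.leaf (nat_lit 797730) (nat_lit 235839) (nat_lit 64894487) (nat_lit 0) [(nat_lit 235839), (nat_lit 0), (nat_lit 1978485), (nat_lit 0)]) (PF.cons PF.nil (PF.cons PF.nil PF.nil)))) (PF.cons (PF.cons (PF.leaf (nat_lit 1024841) (nat_lit 720354) (nat_lit 64308504) (nat_lit 0) [(nat_lit 0), (nat_lit 720354), (nat_lit 2079954), (nat_lit 0)]) (PF.cons PF.nil PF.nil)) (PF.cons PF.nil PF.nil))) (PF.cons (PF.cons (PF.cons (PF.leaf (nat_lit 1558056) (nat_lit 2288681) (nat_lit 62531450) (nat_lit 0) [(nat_lit 0), (nat_lit 0), (nat_lit 2288681), (nat_lit 0)]) (PF.cons PF.nil PF.nil)) (PF.cons PF.nil PF.nil)) (PF.cons PF.nil (PF.cons PF.nil PF.nil))))) (PF.cons (PF.cons (PF.cons (PF.cons (PF.leaf (nat_lit 1399089) (nat_lit 5397573) (nat_lit 61711239) (nat_lit 0) [(nat_lit 0), (nat_lit 0), (nat_lit 0), (nat_lit 5397573)]) (PF.cons (PF.leaf (nat_lit 1569565)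 (nat_lit 282996) (nat_lit 61374708) (nat_lit 0) [(nat_lit 282996), (nat_lit 0), (nat_lit 0), (nat_lit 5451107)]) (PF.cons (PF.leaf (nat_lit 1772981) (nat_lit 309779) (nat_lit 60978905) (nat_lit 0) [(nat_lit 309779), (nat_lit
 0), (nat_lit 0), (nat_lit 5510347)]) (PF.cons (PF.leaf (nat_lit 2003305) (nat_lit 334144) (nat_lit 60533793) (nat_lit 0) [(nat_lit 334144), (nat_lit 0), (nat_lit 0), (nat_lit 5572587)]) (PF.cons PF.nil PF.nil))))) (PF.cons (PF.cons (PF.leaf (nat_lit 1814292) (nat_lit 836064) (nat_lit 60731447) (nat_lit 0) [(nat_lit 0), (nat_lit 836064), (nat_lit 0), (nat_lit 5541301)]) (PF.cons (PF.leaf (nat_lit 2032856) (nat_lit 334936) (nat_lit 60301419) (nat_lit 0) [(nat_lit 334936), (nat_lit 873290), (nat_lit 0), (nat_lit 5599166)]) (PF.cons (PF.leaf (nat_lit 2277755) (nat_lit 357374) (nat_lit 59825727) (nat_lit 0) [(nat_lit 357374), (nat_lit 909550), (nat_lit 0), (nat_lit 5658785)]) (PF.cons PF.nil PF.nil)))) (PF.cons (PF.cons (PF.leaf (nat_lit 2304439)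 (nat_lit 917250) (nat_lit 59591933) (nat_lit 0) [(nat_lit 0), (nat_lit 917250), (nat_lit 0), (nat_lit 5682379)]) (PF.cons PF.nil PF.nil)) PF.nil))) (PF.cons (PF.cons (PF.cons (PF.leaf (nat_lit 2356397) (nat_lit 2497338) (nat_lit 58881327) (nat_lit 0) [(nat_lit 0), (nat_lit 0), (nat_lit 2497338), (nat_lit 5730146)]) (PF.cons (PF.leaf (nat_lit 2592096) (nat_lit 370322) (nat_lit 58419541) (nat_lit 0) [(nat_lit 370322), (nat_lit 0), (nat_lit
 2541269), (nat_lit 5777679)]) (PF.cons PF.nil PF.nil))) (PF.cons (PF.cons (PF.leaf (nat_lit 2874295) (nat_lit 988188) (nat_lit 57677821) (nat_lit 0) [(nat_lit 0), (nat_lit 988188), (nat_lit 2599563), (nat_lit 5843240)]) PF.nil) PF.nil)) (PF.cons PF.nil PF.nil))) (PF.cons (PF.cons (PF.cons (PF.cons (PF.leaf (nat_lit 3121282) (nat_lit 5894000) (nat_lit 55320811) (nat_lit 0) [(nat_lit 0), (nat_lit 0), (nat_lit 0), (nat_lit 5894000)]) (PF.cons (PF.leaf (nat_lit 3364296) (nat_lit 397569) (nat_lit 54861172) (nat_lit 0) [(nat_lit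 397569), (nat_lit 0), (nat_lit 0), (nat_lit 5925035)]) (PF.cons (PF.leaf (nat_lit 3630786) (nat_lit 417261) (nat_lit 54362683) (nat_lit 0) [(nat_lit 417261), (nat_lit 0), (nat_lit 0), (nat_lit 5955802)]) (PF.cons PF.nil PF.nil)))) (PF.cons (PF.cons (PF.leaf (nat_lit 3646166) (nat_lit 1045009) (nat_lit 54133082) (nat_lit 0) [(nat_lit 0), (nat_lit 1045009), (nat_lit 0), (nat_lit 5965360)]) (PF.cons PF.nil PF.nil)) (PF.cons PF.nil PF.nil))) (PF.cons (PF.cons (PF.cons (PF.leaf (nat_lit 4200062) (nat_lit 2779579) (nat_lit 52276761) (nat_lit 0) [(nat_lit 0), (nat_lit 0), (nat_lit 2779579), (nat_lit 6026236)]) (PF.cons PF.nil PF.nil)) (PF.cons PF.nil PF.nil)) (PF.cons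
 PF.nil PF.nil))) (PF.cons (PF.cons (PF.cons (PF.cons (PF.leaf (nat_lit 4901140) (nat_lit 6020776) (nat_lit 49046484) (nat_lit 0) [(nat_lit 0), (nat_lit 0), (nat_lit 0), (nat_lit 6020776)]) (PF.cons PF.nil PF.nil)) (PF.cons PF.nil PF.nil)) (PF.cons PF.nil PF.nil)) (PF.cons PF.nil (PF.cons PF.nil (PF.cons PF.nil (PF.cons PF.nil PF.nil))))))))

def p13_3_0_0 : pfC (piC [(nat_lit 35404596), (nat_lit 28134109), (nat_lit 21202637), (nat_lit 14064972)] (nat_lit 0)) p13_3_0 (nat_lit 4) (nat_lit 0) (nat_lit 2) = true := by decide +kernel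
def p13_3_0_1 : pfC (piC [(nat_lit 35404596), (nat_lit 28134109), (nat_lit 21202637), (nat_lit 14064972)] (nat_lit 0)) p13_3_0 (nat_lit 4) (nat_lit 2) (nat_lit 3) = true := by decide +kernel
def p13_3_0_2 : pfC (piC [(nat_lit 35404596), (nat_lit 28134109), (nat_lit 21202637), (nat_lit 14064972)] (nat_lit 0)) p13_3_0 (nat_lit 4) (nat_lit 3) (nat_lit 4) = true := by decide +kernel
def p13_3_0_3 : pfC (piC [(nat_lit 35404596), (nat_lit 28134109), (nat_lit 21202637), (nat_lit 14064972)] (nat_lit 0)) p13_3_0 (nat_lit 4) (nat_lit 4) (nat_lit 5) = true := by decide +kernel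
def p13_3_0_4 : pfC (piC [(nat_lit 35404596), (nat_lit 28134109), (nat_lit 21202637), (nat_lit 14064972)] (nat_lit 0)) p13_3_0 (nat_lit 4) (nat_lit 5) (nat_lit 6) = true := by decide +kernel
def p13_3_0_5 : pfC (piC [(nat_lit 35404596), (nat_lit 28134109), (nat_lit 21202637), (nat_lit 14064972)] (nat_lit 0)) p13_3_0 (nat_lit 4) (nat_lit 6) (nat_lit 7) = true := by decide +kernel
def p13_3_0_6 : pfC (piC [(nat_lit 35404596), (nat_lit 28134109), (nat_lit 21202637), (nat_lit 14064972)] (nat_lit 0)) p13_3_0 (nat_lit 4) (nat_lit 7) (nat_lit 8) = true := by decide +kernel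
def p13_3_0_7 : pfC (piC [(nat_lit 35404596), (nat_lit 28134109), (nat_lit 21202637), (nat_lit 14064972)] (nat_lit 0)) p13_3_0 (nat_lit 4) (nat_lit 8) (nat_lit 9) = true := by decide +kernel
def p13_3_0_8 : pfC (piC [(nat_lit 35404596), (nat_lit 28134109), (nat_lit 21202637), (nat_lit 14064972)] (nat_lit 0)) p13_3_0 (nat_lit 4) (nat_lit 9) (nat_lit 10) = true := by decide +kernel
def p13_3_0_9 : pfC (piC [(nat_lit 35404596), (nat_lit 28134109), (nat_lit 21202637), (nat_lit 14064972)] (nat_lit 0)) p13_3_0 (nat_lit 4) (nat_lit 10) (nat_lit 11) = true := by decide +kernel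
def p13_3_0_10 : pfC (piC [(nat_lit 35404596), (nat_lit 28134109), (nat_lit 21202637), (nat_lit 14064972)] (nat_lit 0)) p13_3_0 (nat_lit 4) (nat_lit 11) (nat_lit 12) = true := by decide +kernel
def p13_3_0_11 : pfC (piC [(nat_lit 35404596), (nat_lit 28134109), (nat_lit 21202637), (nat_lit 14064972)] (nat_lit 0)) p13_3_0 (nat_lit 4) (nat_lit 12) (nat_lit 13) = true := by decide +kernel
def p13_3_0_12 : pfC (piC [(nat_lit 35404596), (nat_lit 28134109), (nat_lit 21202637), (nat_lit 14064972)] (nat_lit 0)) p13_3_0 (nat_lit 4) (nat_lit 13) (nat_lit 14) = true := by decide +kernel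
def p13_3_0_13 : pfC (piC [(nat_lit 35404596), (nat_lit 28134109), (nat_lit 21202637), (nat_lit 14064972)] (nat_lit 0)) p13_3_0 (nat_lit 4) (nat_lit 14) (nat_lit 15) = true := by decide +kernel
def p13_3_0_14 : pfC (piC [(nat_lit 35404596), (nat_lit 28134109), (nat_lit 21202637), (nat_lit 14064972)] (nat_lit 0)) p13_3_0 (nat_lit 4) (nat_lit 15) (nat_lit 16) = true := by decide +kernel
def p13_3_0_15 : pfC (piC [(nat_lit 35404596), (nat_lit 28134109), (nat_lit 21202637), (nat_lit 14064972)] (nat_lit 0)) p13_3_0 (nat_lit 4) (nat_lit 16) (nat_lit 17) = true := by decide +kernel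
def p13_3_0_16 : pfC (piC [(nat_lit 35404596), (nat_lit 28134109), (nat_lit 21202637), (nat_lit 14064972)] (nat_lit 0)) p13_3_0 (nat_lit 4) (nat_lit 17) (nat_lit 18) = true := by decide +kernel
def p13_3_0_17 : pfC (piC [(nat_lit 35404596), (nat_lit 28134109), (nat_lit 21202637), (nat_lit 14064972)] (nat_lit 0)) p13_3_0 (nat_lit 4) (nat_lit 18) (nat_lit 19) = true := by decide +kernel
def p13_3_0_18 : pfC (piC [(nat_lit 35404596), (nat_lit 28134109), (nat_lit 21202637), (nat_lit 14064972)] (nat_lit 0)) p13_3_0 (nat_lit 4) (nat_lit 19) (nat_lit 20) = true := by decide +kernel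
def p13_3_0_19 : pfC (piC [(nat_lit 35404596), (nat_lit 28134109), (nat_lit 21202637), (nat_lit 14064972)] (nat_lit 0)) p13_3_0 (nat_lit 4) (nat_lit 20) (nat_lit 21) = true := by decide +kernel
def p13_3_0_20 : pfC (piC [(nat_lit 35404596), (nat_lit 28134109), (nat_lit 21202637), (nat_lit 14064972)] (nat_lit 0)) p13_3_0 (nat_lit 4) (nat_lit 21) (nat_lit 22) = true := by decide +kernel
def p13_3_0_21 : pfC (piC [(nat_lit 35404596), (nat_lit 28134109), (nat_lit 21202637), (nat_lit 14064972)] (nat_lit 0)) p13_3_0 (nat_lit 4) (nat_lit 22) (nat_lit 23) = true := by decide +kernel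
def p13_3_0_22 : pfC (piC [(nat_lit 35404596), (nat_lit 28134109), (nat_lit 21202637), (nat_lit 14064972)] (nat_lit 0)) p13_3_0 (nat_lit 4) (nat_lit 23) (nat_lit 24) = true := by decide +kernel
def p13_3_0_23 : pfC (piC [(nat_lit 35404596), (nat_lit 28134109), (nat_lit 21202637), (nat_lit 14064972)] (nat_lit 0)) p13_3_0 (nat_lit 4) (nat_lit 24) (nat_lit 25) = true := by decide +kernel
def p13_3_0_24 : pfC (piC [(nat_lit 35404596), (nat_lit 28134109), (nat_lit 21202637), (nat_lit 14064972)] (nat_lit 0)) p13_3_0 (nat_lit 4) (nat_lit 25) (nat_lit 26) = true := by decide +kernel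
def p13_3_0_25 : pfC (piC [(nat_lit 35404596), (nat_lit 28134109), (nat_lit 21202637), (nat_lit 14064972)] (nat_lit 0)) p13_3_0 (nat_lit 4) (nat_lit 26) (nat_lit 27) = true := by decide +kernel
def p13_3_0_26 : pfC (piC [(nat_lit 35404596), (nat_lit 28134109), (nat_lit 21202637), (nat_lit 14064972)] (nat_lit 0)) p13_3_0 (nat_lit 4) (nat_lit 27) (nat_lit 28) = true := by decide +kernel
theorem p13_3_0_T : PfS (PiF n13_3.reverse (nat_lit 0)) p13_3_0 (nat_lit 4) [] 0 :=
  pftab_of (los := [(nat_lit 35404596), (nat_lit 28134109), (nat_lit 21202637), (nat_lit 14064972)]) (by decide +kernel) (hi := (nat_lit 28)) (PfP.trans (PfP.trans (PfP.trans (PfP.trans (PfP.trans (PfP.trans (PfP.trans (PfP.trans (PfP.trans (PfP.trans (PfP.trans (PfP.trans (PfP.trans (PfP.trans (PfP.trans (PfP.trans (PfP.trans (PfP.trans (PfP.trans (PfP.trans (PfP.trans (PfP.trans (PfP.trans (PfP.trans (PfP.trans (PfP.trans (pfC_sound p13_3_0_0) (pfC_sound p13_3_0_1)) (pfC_sound p13_3_0_2)) (pfC_sound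 p13_3_0_3)) (pfC_sound p13_3_0_4)) (pfC_sound p13_3_0_5)) (pfC_sound p13_3_0_6)) (pfC_sound p13_3_0_7)) (pfC_sound p13_3_0_8)) (pfC_sound p13_3_0_9)) (pfC_sound p13_3_0_10)) (pfC_sound p13_3_0_11)) (pfC_sound p13_3_0_12)) (pfC_sound p13_3_0_13)) (pfC_sound p13_3_0_14)) (pfC_sound p13_3_0_15)) (pfC_sound p13_3_0_16)) (pfC_sound p13_3_0_17)) (pfC_sound p13_3_0_18)) (pfC_sound p13_3_0_19)) (pfC_sound p13_3_0_20)) (pfC_sound p13_3_0_21)) (pfC_sound p13_3_0_22)) (pfC_sound p13_3_0_23)) (pfC_sound p13_3_0_24)) (pfC_sound p13_3_0_25)) (pfC_sound p13_3_0_26)) (by decide +kernel)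

def z13_3_0 : zOK yB13_3 (nat_lit 0) (nat_lit 0) (nat_lit 400) (nat_lit 0) (nat_lit 0) = true := by decide +kernel
def g13_3_0 : gOK yB13_3.x P13_3 (nat_lit 1414) (q13_3 :: r13_3) (nat_lit 0) (nat_lit 0) (nat_lit 1) (nat_lit 400) (nat_lit 0) (nat_lit 11000000) (nat_lit 12712500) (nat_lit 12712500) [(nat_lit 800), (nat_lit 1600)] = true := by decide +kernel
def v13_3_0 : ivC P13_3 s13_3 w13_3 n13_3 (nat_lit 4) (nat_lit 5600) (nat_lit 0) (nat_lit 0) f120_1_0 f128_1_0 (nat_lit 1) (nat_lit 400) f120_1_400 f128_1_400 (nat_lit 0) (nat_lit 0) p13_3_0 = true := by decide +kernel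
def p13_3_1 : PF := (PF.cons (PF.cons (PF.cons (PF.cons (PF.leaf (nat_lit 2016798) (nat_lit 9336074) (nat_lit 57772738) (nat_lit 9336074) [(nat_lit 0), (nat_lit 0), (nat_lit 0), (nat_lit 0)]) (PF.cons (PF.leaf (nat_lit 2192469) (nat_lit 301826) (nat_lit 57442053) (nat_lit 9364933) [(nat_lit 301826), (nat_lit 0), (nat_lit 0), (nat_lit 0)]) (PF.cons (PF.leaf (nat_lit 2400617) (nat_lit 328780) (nat_lit 57055109) (nat_lit 9396142) [(nat_lit 328780), (nat_lit 0), (nat_lit 0), (nat_lit 0)]) (PF.cons PF.nil PF.nil)))) (PF.cons (PF.cons (PF.leaf (nat_lit 2438136) (nat_lit 881749) (nat_lit 56815836) (nat_lit 9411227) [(nat_lit 0), (nat_lit 881749), (nat_lit 0), (nat_lit 0)]) (PF.cons PF.nil PF.nil)) (PF.cons PF.nil PF.nil))) (PF.cons (PF.cons (PF.cons (PF.leaf (nat_lit 2965394) (nat_lit 2569742) (nat_lit 55048878) (nat_lit 9490192) [(nat_lit 0), (nat_lit 0), (nat_lit 2569742), (nat_lit 0)]) (PF.cons PF.nil PF.nil)) (PF.cons PF.nil PF.nil)) (PF.cons PF.nil PF.nil)))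 (PF.cons (PF.cons (PF.cons (PF.cons (PF.leaf (nat_lit 3683028) (nat_lit 5890390) (nat_lit 51741798) (nat_lit 9476623) [(nat_lit 0), (nat_lit 0), (nat_lit 0), (nat_lit 5890390)]) (PF.cons (PF.leaf (nat_lit 3923386) (nat_lit 404647) (nat_lit
 51312080) (nat_lit 9480921) [(nat_lit 404647), (nat_lit 0), (nat_lit 0), (nat_lit 5911163)]) (PF.cons PF.nil PF.nil))) (PF.cons (PF.cons (PF.leaf (nat_lit 4197212) (nat_lit 1057033) (nat_lit 50634847) (nat_lit 9480762) [(nat_lit 0), (nat_lit 1057033), (nat_lit 0), (nat_lit 5936169)]) PF.nil) PF.nil)) (PF.cons PF.nil PF.nil)) (PF.cons (PF.cons (PF.cons (PF.cons (PF.leaf (nat_lit 5377068) (nat_lit 5918952) (nat_lit 45984972) (nat_lit 9285934) [(nat_lit 0), (nat_lit 0), (nat_lit 0), (nat_lit 5918952)]) (PF.cons PF.nil PF.nil)) (PF.cons PF.nil PF.nil)) (PF.cons PF.nil PF.nil)) (PF.cons PF.nil (PF.cons PF.nil (PF.cons PF.nil PF.nil))))))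

def p13_3_1_0 : pfC (piC [(nat_lit 35404596), (nat_lit 28134109), (nat_lit 21202637), (nat_lit 14064972)] (nat_lit 11394344)) p13_3_1 (nat_lit 4) (nat_lit 0) (nat_lit 1) = true := by decide +kernel
def p13_3_1_1 : pfC (piC [(nat_lit 35404596), (nat_lit 28134109), (nat_lit 21202637), (nat_lit 14064972)] (nat_lit 11394344)) p13_3_1 (nat_lit 4) (nat_lit 1) (nat_lit 2) = true := by decide +kernel
def p13_3_1_2 : pfC (piC [(nat_lit 35404596), (nat_lit 28134109), (nat_lit 21202637), (nat_lit 14064972)] (nat_lit 11394344)) p13_3_1 (nat_lit 4) (nat_lit 2) (nat_lit 3) = true := by decide +kernel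
def p13_3_1_3 : pfC (piC [(nat_lit 35404596), (nat_lit 28134109), (nat_lit 21202637), (nat_lit 14064972)] (nat_lit 11394344)) p13_3_1 (nat_lit 4) (nat_lit 3) (nat_lit 4) = true := by decide +kernel
def p13_3_1_4 : pfC (piC [(nat_lit 35404596), (nat_lit 28134109), (nat_lit 21202637), (nat_lit 14064972)] (nat_lit 11394344)) p13_3_1 (nat_lit 4) (nat_lit 4) (nat_lit 5) = true := by decide +kernel
def p13_3_1_5 : pfC (piC [(nat_lit 35404596), (nat_lit 28134109), (nat_lit 21202637), (nat_lit 14064972)] (nat_lit 11394344)) p13_3_1 (nat_lit 4) (nat_lit 5) (nat_lit 6) = true := by decide +kernel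
def p13_3_1_6 : pfC (piC [(nat_lit 35404596), (nat_lit 28134109), (nat_lit 21202637), (nat_lit 14064972)] (nat_lit 11394344)) p13_3_1 (nat_lit 4) (nat_lit 6) (nat_lit 7) = true := by decide +kernel
def p13_3_1_7 : pfC (piC [(nat_lit 35404596), (nat_lit 28134109), (nat_lit 21202637), (nat_lit 14064972)] (nat_lit 11394344)) p13_3_1 (nat_lit 4) (nat_lit 7) (nat_lit 8) = true := by decide +kernel
def p13_3_1_8 : pfC (piC [(nat_lit 35404596), (nat_lit 28134109), (nat_lit 21202637), (nat_lit 14064972)] (nat_lit 11394344)) p13_3_1 (nat_lit 4) (nat_lit 8) (nat_lit 9) = true := by decide +kernel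
theorem p13_3_1_T : PfS (PiF n13_3.reverse (nat_lit 11394344)) p13_3_1 (nat_lit 4) [] 0 :=
  pftab_of (los := [(nat_lit 35404596), (nat_lit 28134109), (nat_lit 21202637), (nat_lit 14064972)]) (by decide +kernel) (hi := (nat_lit 9)) (PfP.trans (PfP.trans (PfP.trans (PfP.trans (PfP.trans (PfP.trans (PfP.trans (PfP.trans (pfC_sound p13_3_1_0) (pfC_sound p13_3_1_1)) (pfC_sound p13_3_1_2)) (pfC_sound p13_3_1_3)) (pfC_sound p13_3_1_4)) (pfC_sound p13_3_1_5)) (pfC_sound p13_3_1_6)) (pfC_sound p13_3_1_7)) (pfC_sound p13_3_1_8)) (by decide +kernel)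

def z13_3_1 : zOK yB13_3 (nat_lit 1) (nat_lit 400) (nat_lit 600) (nat_lit 11394344) (nat_lit 6831970) = true := by decide +kernel
def g13_3_1 : gOK yB13_3.x P13_3 (nat_lit 1414) (q13_3 :: r13_3) (nat_lit 1) (nat_lit 400) (nat_lit 2) (nat_lit 600) (nat_lit 11000000) (nat_lit 17850000) (nat_lit 12712500) (nat_lit 12712500) [(nat_lit 800), (nat_lit 1130)] = true := by decide +kernel
def v13_3_1 : ivC P13_3 s13_3 w13_3 n13_3 (nat_lit 4) (nat_lit 5200) (nat_lit 1) (nat_lit 400) f120_1_400 f128_1_400 (nat_lit 2) (nat_lit 600) f120_1_600 f128_1_600 (nat_lit 11394344) (nat_lit 6831970) p13_3_1 = true := by decide +kernel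
def p13_3_2 : PF := (PF.cons (PF.cons (PF.cons (PF.cons (PF.leaf (nat_lit 2756531) (nat_lit 16119311) (nat_lit 50989501) (nat_lit 16119311) [(nat_lit 0), (nat_lit 0), (nat_lit 0), (nat_lit 0)]) (PF.cons (PF.leaf (nat_lit 2927874) (nat_lit 304088) (nat_lit 50706644) (nat_lit 16098080) [(nat_lit 304088), (nat_lit 0), (nat_lit 0), (nat_lit 0)]) (PF.cons (PF.leaf (nat_lit 3130022) (nat_lit 330240) (nat_lit 50376523) (nat_lit 16071807) [(nat_lit 330240), (nat_lit 0), (nat_lit 0), (nat_lit 0)]) (PF.cons (PF.leaf (nat_lit 3356544) (nat_lit 353287) (nat_lit 50008288) (nat_lit 16040662) [(nat_lit 353287), (nat_lit 0), (nat_lit 0), (nat_lit 0)]) (PF.cons PF.nil PF.nil))))) (PF.cons (PF.cons (PF.leaf (nat_lit 3162543) (nat_lit 881889) (nat_lit 50173723) (nat_lit 16053200) [(nat_lit 0), (nat_lit 881889), (nat_lit 0), (nat_lit 0)]) (PF.cons (PF.leaf (nat_lit 3376852) (nat_lit 352673) (nat_lit 49819523) (nat_lit 16022219) [(nat_lit 352673), (nat_lit 914396), (nat_lit 0),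 (nat_lit 0)]) (PF.cons PF.nil (PF.cons PF.nil PF.nil)))) (PF.cons (PF.cons (PF.leaf (nat_lit 3631505) (nat_lit 949758) (nat_lit 49242937) (nat_lit 15966358) [(nat_lit 0), (nat_lit 949758), (nat_lit 0), (nat_lit 0)]) (PF.cons PF.nil PF.nil))
 PF.nil))) (PF.cons (PF.cons (PF.cons (PF.leaf (nat_lit 3652683) (nat_lit 2526243) (nat_lit 48686159) (nat_lit 15896410) [(nat_lit 0), (nat_lit 0), (nat_lit 2526243), (nat_lit 0)]) (PF.cons (PF.leaf (nat_lit 3878460) (nat_lit 379628) (nat_lit 48315743) (nat_lit 15856774) [(nat_lit 379628), (nat_lit 0), (nat_lit 2556666), (nat_lit 0)]) PF.nil)) (PF.cons PF.nil PF.nil)) (PF.cons PF.nil PF.nil))) (PF.cons (PF.cons (PF.cons (PF.cons (PF.leaf (nat_lit 4298624) (nat_lit 5660997) (nat_lit 45946640) (nat_lit 15501174) [(nat_lit 0), (nat_lit 0), (nat_lit 0), (nat_lit 5660997)]) (PF.cons (PF.leaf (nat_lit 4527136) (nat_lit 394984) (nat_lit 45587763) (nat_lit 15452376) [(nat_lit 394984), (nat_lit 0), (nat_lit 0), (nat_lit 5673687)])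 (PF.cons (PF.leaf (nat_lit 4776452) (nat_lit 412672) (nat_lit 45200010) (nat_lit 15397999) [(nat_lit 412672), (nat_lit 0), (nat_lit 0), (nat_lit 5685458)]) (PF.cons PF.nil PF.nil)))) (PF.cons (PF.cons (PF.leaf (nat_lit 4783606) (nat_lit 1027140) (nat_lit 45023666) (nat_lit 15371049) [(nat_lit 0), (nat_lit 1027140), (nat_lit 0), (nat_lit 5686957)]) (PF.cons PF.nil PF.nil)) (PF.cons PF.nil PF.nil))) (PF.cons (PF.cons (PF.cons (PF.leaf (nat_lit 5268967) (nat_lit
 2670350) (nat_lit 43605409) (nat_lit 15142544) [(nat_lit 0), (nat_lit 0), (nat_lit 2670350), (nat_lit 5690508)]) (PF.cons PF.nil PF.nil)) PF.nil) PF.nil)) (PF.cons (PF.cons (PF.cons (PF.cons (PF.leaf (nat_lit 5858110) (nat_lit 5622815) (nat_lit 41183882) (nat_lit 14679300) [(nat_lit 0), (nat_lit 0), (nat_lit 0), (nat_lit 5622815)]) (PF.cons PF.nil PF.nil)) (PF.cons PF.nil PF.nil)) (PF.cons PF.nil PF.nil)) (PF.cons PF.nil (PF.cons PF.nil (PF.cons PF.nil PF.nil))))))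

def p13_3_2_0 : pfC (piC [(nat_lit 35404596), (nat_lit 28134109), (nat_lit 21202637), (nat_lit 14064972)] (nat_lit 6831970)) p13_3_2 (nat_lit 4) (nat_lit 0) (nat_lit 1) = true := by decide +kernel
def p13_3_2_1 : pfC (piC [(nat_lit 35404596), (nat_lit 28134109), (nat_lit 21202637), (nat_lit 14064972)] (nat_lit 6831970)) p13_3_2 (nat_lit 4) (nat_lit 1) (nat_lit 2) = true := by decide +kernel
def p13_3_2_2 : pfC (piC [(nat_lit 35404596), (nat_lit 28134109), (nat_lit 21202637), (nat_lit 14064972)] (nat_lit 6831970)) p13_3_2 (nat_lit 4) (nat_lit 2) (nat_lit 3) = true := by decide +kernel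
def p13_3_2_3 : pfC (piC [(nat_lit 35404596), (nat_lit 28134109), (nat_lit 21202637), (nat_lit 14064972)] (nat_lit 6831970)) p13_3_2 (nat_lit 4) (nat_lit 3) (nat_lit 4) = true := by decide +kernel
def p13_3_2_4 : pfC (piC [(nat_lit 35404596), (nat_lit 28134109), (nat_lit 21202637), (nat_lit 14064972)] (nat_lit 6831970)) p13_3_2 (nat_lit 4) (nat_lit 4) (nat_lit 5) = true := by decide +kernel
def p13_3_2_5 : pfC (piC [(nat_lit 35404596), (nat_lit 28134109), (nat_lit 21202637), (nat_lit 14064972)] (nat_lit 6831970)) p13_3_2 (nat_lit 4) (nat_lit 5) (nat_lit 6) = true := by decide +kernel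
def p13_3_2_6 : pfC (piC [(nat_lit 35404596), (nat_lit 28134109), (nat_lit 21202637), (nat_lit 14064972)] (nat_lit 6831970)) p13_3_2 (nat_lit 4) (nat_lit 6) (nat_lit 7) = true := by decide +kernel
def p13_3_2_7 : pfC (piC [(nat_lit 35404596), (nat_lit 28134109), (nat_lit 21202637), (nat_lit 14064972)] (nat_lit 6831970)) p13_3_2 (nat_lit 4) (nat_lit 7) (nat_lit 8) = true := by decide +kernel
def p13_3_2_8 : pfC (piC [(nat_lit 35404596), (nat_lit 28134109), (nat_lit 21202637), (nat_lit 14064972)] (nat_lit 6831970)) p13_3_2 (nat_lit 4) (nat_lit 8) (nat_lit 9) = true := by decide +kernel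
def p13_3_2_9 : pfC (piC [(nat_lit 35404596), (nat_lit 28134109), (nat_lit 21202637), (nat_lit 14064972)] (nat_lit 6831970)) p13_3_2 (nat_lit 4) (nat_lit 9) (nat_lit 10) = true := by decide +kernel
def p13_3_2_10 : pfC (piC [(nat_lit 35404596), (nat_lit 28134109), (nat_lit 21202637), (nat_lit 14064972)] (nat_lit 6831970)) p13_3_2 (nat_lit 4) (nat_lit 10) (nat_lit 11) = true := by decide +kernel
def p13_3_2_11 : pfC (piC [(nat_lit 35404596), (nat_lit 28134109), (nat_lit 21202637), (nat_lit 14064972)] (nat_lit 6831970)) p13_3_2 (nat_lit 4) (nat_lit 11) (nat_lit 12) = true := by decide +kernel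
def p13_3_2_12 : pfC (piC [(nat_lit 35404596), (nat_lit 28134109), (nat_lit 21202637), (nat_lit 14064972)] (nat_lit 6831970)) p13_3_2 (nat_lit 4) (nat_lit 12) (nat_lit 13) = true := by decide +kernel
def p13_3_2_13 : pfC (piC [(nat_lit 35404596), (nat_lit 28134109), (nat_lit 21202637), (nat_lit 14064972)] (nat_lit 6831970)) p13_3_2 (nat_lit 4) (nat_lit 13) (nat_lit 14) = true := by decide +kernel
def p13_3_2_14 : pfC (piC [(nat_lit 35404596), (nat_lit 28134109), (nat_lit 21202637), (nat_lit 14064972)] (nat_lit 6831970)) p13_3_2 (nat_lit 4) (nat_lit 14) (nat_lit 15) = true := by decide +kernel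
theorem p13_3_2_T : PfS (PiF n13_3.reverse (nat_lit 6831970)) p13_3_2 (nat_lit 4) [] 0 :=
  pftab_of (los := [(nat_lit 35404596), (nat_lit 28134109), (nat_lit 21202637), (nat_lit 14064972)]) (by decide +kernel) (hi := (nat_lit 15)) (PfP.trans (PfP.trans (PfP.trans (PfP.trans (PfP.trans (PfP.trans (PfP.trans (PfP.trans (PfP.trans (PfP.trans (PfP.trans (PfP.trans (PfP.trans (PfP.trans (pfC_sound p13_3_2_0) (pfC_sound p13_3_2_1)) (pfC_sound p13_3_2_2)) (pfC_sound p13_3_2_3)) (pfC_sound p13_3_2_4)) (pfC_sound p13_3_2_5)) (pfC_sound p13_3_2_6)) (pfC_sound p13_3_2_7)) (pfC_sound p13_3_2_8)) (pfC_sound p13_3_2_9)) (pfC_sound p13_3_2_10)) (pfC_sound p13_3_2_11)) (pfC_sound p13_3_2_12)) (pfC_sound p13_3_2_13)) (pfC_sound p13_3_2_14)) (by decide +kernel)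

def z13_3_2 : zOK yB13_3 (nat_lit 2) (nat_lit 600) (nat_lit 750) (nat_lit 6831970) (nat_lit 4684051) = true := by decide +kernel
def g13_3_2 : gOK yB13_3.x P13_3 (nat_lit 1414) (q13_3 :: r13_3) (nat_lit 2) (nat_lit 600) (nat_lit 3) (nat_lit 750) (nat_lit 12712500) (nat_lit 12712500) (nat_lit 12712500) (nat_lit 12712500) [(nat_lit 800), (nat_lit 1600)] = true := by decide +kernel
def v13_3_2 : ivC P13_3 s13_3 w13_3 n13_3 (nat_lit 4) (nat_lit 5000) (nat_lit 2) (nat_lit 600) f120_1_600 f128_1_600 (nat_lit 3) (nat_lit 750) f120_1_750 f128_1_750 (nat_lit 6831970) (nat_lit 4684051) p13_3_2 = true := by decide +kernel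
def p13_3_3 : PF := (PF.cons (PF.cons (PF.cons (PF.cons (PF.leaf (nat_lit 3176030) (nat_lit 22243742) (nat_lit 44865070) (nat_lit 22243742) [(nat_lit 0), (nat_lit 0), (nat_lit 0), (nat_lit 0)]) (PF.cons (PF.leaf (nat_lit 3337464) (nat_lit 289602) (nat_lit 44639336) (nat_lit 22179873) [(nat_lit 289602), (nat_lit 0), (nat_lit 0), (nat_lit 0)]) (PF.cons (PF.leaf (nat_lit 3527974) (nat_lit 314255) (nat_lit 44375853) (nat_lit 22104447) [(nat_lit 314255), (nat_lit 0), (nat_lit 0), (nat_lit 0)]) (PF.cons (PF.leaf (nat_lit 3741231) (nat_lit 335903) (nat_lit 44081891) (nat_lit 22019210) [(nat_lit 335903), (nat_lit 0), (nat_lit 0), (nat_lit 0)]) (PF.cons (PF.leaf (nat_lit 3973705) (nat_lit 355205) (nat_lit 43762628) (nat_lit 21925362) [(nat_lit 355205), (nat_lit 0), (nat_lit 0), (nat_lit 0)]) (PF.cons PF.nil (PF.cons PF.nil PF.nil))))))) (PF.cons (PF.cons (PF.leaf (nat_lit 3557514) (nat_lit 837845) (nat_lit 44214234) (nat_lit 22056733) [(nat_lit 0), (nat_lit 837845),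 (nat_lit 0), (nat_lit 0)]) (PF.cons (PF.leaf (nat_lit 3759041) (nat_lit 335169) (nat_lit 43931446) (nat_lit 21974124) [(nat_lit 335169), (nat_lit 868072), (nat_lit 0), (nat_lit 0)]) (PF.cons (PF.leaf (nat_lit 3982600) (nat_lit 354546) (nat_lit
 43620930) (nat_lit 21882231) [(nat_lit 354546), (nat_lit 896558), (nat_lit 0), (nat_lit 0)]) (PF.cons (PF.leaf (nat_lit 4223960) (nat_lit 371956) (nat_lit 43287582) (nat_lit 21782222) [(nat_lit 371956), (nat_lit 923139), (nat_lit 0), (nat_lit 0)]) (PF.cons PF.nil PF.nil))))) (PF.cons (PF.cons (PF.leaf (nat_lit 3997328) (nat_lit 900584) (nat_lit 43471208) (nat_lit 21836436) [(nat_lit 0), (nat_lit 900584), (nat_lit 0), (nat_lit 0)]) (PF.cons (PF.leaf (nat_lit 4229239) (nat_lit 371068) (nat_lit 43146974) (nat_lit 21738543) [(nat_lit 371068), (nat_lit 926113), (nat_lit 0), (nat_lit 0)]) (PF.cons PF.nil (PF.cons PF.nil PF.nil)))) (PF.cons (PF.cons (PF.leaf (nat_lit 4480776) (nat_lit 952347) (nat_lit 42662888) (nat_lit 21588881)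 [(nat_lit 0), (nat_lit 952347), (nat_lit 0), (nat_lit 0)]) (PF.cons PF.nil PF.nil)) (PF.cons PF.nil PF.nil))))) (PF.cons (PF.cons (PF.cons (PF.leaf (nat_lit 4012853) (nat_lit 2385983) (nat_lit 43028433) (nat_lit 21694396) [(nat_lit 0), (nat_lit 0), (nat_lit 2385983), (nat_lit 0)]) (PF.cons (PF.leaf (nat_lit 4224808) (nat_lit 359769) (nat_lit 42732228) (nat_lit 21603440) [(nat_lit 359769), (nat_lit 0), (nat_lit 2413374), (nat_lit 0)]) (PF.cons (PF.leaf (nat_lit
 4457464) (nat_lit 377322) (nat_lit 42410453) (nat_lit 21503425) [(nat_lit 377322), (nat_lit 0), (nat_lit 2440289), (nat_lit 0)]) (PF.cons PF.nil (PF.cons PF.nil PF.nil))))) (PF.cons (PF.cons (PF.leaf (nat_lit 4467523) (nat_lit 944827) (nat_lit 42261590) (nat_lit 21455674) [(nat_lit 0), (nat_lit 944827), (nat_lit 2446720), (nat_lit 0)]) (PF.cons (PF.leaf (nat_lit 4707091) (nat_lit 391423) (nat_lit 41929256) (nat_lit 21350470) [(nat_lit 391423), (nat_lit 966572), (nat_lit 2471089), (nat_lit 0)]) (PF.cons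 PF.nil (PF.cons PF.nil PF.nil)))) (PF.cons (PF.cons (PF.leaf (nat_lit 4960416) (nat_lit 988113) (nat_lit 41441585) (nat_lit 21192665) [(nat_lit 0), (nat_lit 988113), (nat_lit 2498334), (nat_lit 0)]) (PF.cons PF.nil PF.nil)) PF.nil))) (PF.cons (PF.cons (PF.cons (PF.leaf (nat_lit 4935244) (nat_lit 2495349) (nat_lit 41058127) (nat_lit 21059987) [(nat_lit 0), (nat_lit 0), (nat_lit 2495349), (nat_lit 0)]) (PF.cons (PF.leaf (nat_lit 5180372) (nat_lit 407964) (nat_lit 40722260) (nat_lit 20949045) [(nat_lit 407964), (nat_lit 0), (nat_lit 2514771), (nat_lit 0)]) PF.nil)) (PF.cons PF.nil PF.nil)) (PF.cons PF.nil (PF.cons PF.nil PF.nil))))) (PF.cons (PF.cons (PF.cons (PF.cons (PF.leaf (nat_lit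
 4607552) (nat_lit 5303863) (nat_lit 40844094) (nat_lit 20960854) [(nat_lit 0), (nat_lit 0), (nat_lit 0), (nat_lit 5303863)]) (PF.cons (PF.leaf (nat_lit 4822117) (nat_lit 373224) (nat_lit 40555546) (nat_lit 20865498) [(nat_lit 373224), (nat_lit 0), (nat_lit 0), (nat_lit 5314544)]) (PF.cons (PF.leaf (nat_lit 5056298) (nat_lit 389782) (nat_lit 40243536) (nat_lit 20761325) [(nat_lit 389782), (nat_lit 0), (nat_lit 0), (nat_lit 5324386)]) (PF.cons (PF.leaf (nat_lit 5305827) (nat_lit 404296) (nat_lit 39913102) (nat_lit 20649813) [(nat_lit 404296), (nat_lit 0), (nat_lit 0), (nat_lit 5333008)]) (PF.cons PF.nil PF.nil))))) (PF.cons (PF.cons (PF.leaf (nat_lit 5062241) (nat_lit 969073) (nat_lit 40101800) (nat_lit 20712629) [(nat_lit 0), (nat_lit 969073), (nat_lit 0), (nat_lit 5325309)]) (PF.cons (PF.leaf (nat_lit 5302258) (nat_lit 402253) (nat_lit 39781391) (nat_lit 20604003) [(nat_lit 402253), (nat_lit 988124), (nat_lit 0), (nat_lit 5333039)]) (PF.cons PF.nil (PF.cons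 PF.nil PF.nil)))) (PF.cons (PF.cons (PF.leaf (nat_lit 5550871) (nat_lit 1005998) (nat_lit 39315228) (nat_lit 20442925) [(nat_lit 0), (nat_lit 1005998), (nat_lit 0), (nat_lit 5338661)]) (PF.cons PF.nil PF.nil)) PF.nil)))
 (PF.cons (PF.cons (PF.cons (PF.leaf (nat_lit 5514697) (nat_lit 2510772) (nat_lit 38959678) (nat_lit 20312408) [(nat_lit 0), (nat_lit 0), (nat_lit 2510772), (nat_lit 5325954)]) (PF.cons (PF.leaf (nat_lit 5758661) (nat_lit 415574) (nat_lit 38638841) (nat_lit 20199733) [(nat_lit 415574), (nat_lit 0), (nat_lit 2525500), (nat_lit 5329163)]) PF.nil)) (PF.cons PF.nil PF.nil)) (PF.cons PF.nil PF.nil))) (PF.cons (PF.cons (PF.cons (PF.cons (PF.leaf (nat_lit 6062842) (nat_lit 5263307) (nat_lit 37003602) (nat_lit 19578595) [(nat_lit 0), (nat_lit 0), (nat_lit 0), (nat_lit 5263307)]) (PF.cons PF.nil PF.nil)) (PF.cons PF.nil PF.nil)) (PF.cons PF.nil PF.nil)) (PF.cons PF.nil (PF.cons PF.nil (PF.cons PF.nil PF.nil))))))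

def p13_3_3_0 : pfC (piC [(nat_lit 35404596), (nat_lit 28134109), (nat_lit 21202637), (nat_lit 14064972)] (nat_lit 4684051)) p13_3_3 (nat_lit 4) (nat_lit 0) (nat_lit 1) = true := by decide +kernel
def p13_3_3_1 : pfC (piC [(nat_lit 35404596), (nat_lit 28134109), (nat_lit 21202637), (nat_lit 14064972)] (nat_lit 4684051)) p13_3_3 (nat_lit 4) (nat_lit 1) (nat_lit 2) = true := by decide +kernel
def p13_3_3_2 : pfC (piC [(nat_lit 35404596), (nat_lit 28134109), (nat_lit 21202637), (nat_lit 14064972)] (nat_lit 4684051)) p13_3_3 (nat_lit 4) (nat_lit 2) (nat_lit 3) = true := by decide +kernel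
def p13_3_3_3 : pfC (piC [(nat_lit 35404596), (nat_lit 28134109), (nat_lit 21202637), (nat_lit 14064972)] (nat_lit 4684051)) p13_3_3 (nat_lit 4) (nat_lit 3) (nat_lit 4) = true := by decide +kernel
def p13_3_3_4 : pfC (piC [(nat_lit 35404596), (nat_lit 28134109), (nat_lit 21202637), (nat_lit 14064972)] (nat_lit 4684051)) p13_3_3 (nat_lit 4) (nat_lit 4) (nat_lit 5) = true := by decide +kernel
def p13_3_3_5 : pfC (piC [(nat_lit 35404596), (nat_lit 28134109), (nat_lit 21202637), (nat_lit 14064972)] (nat_lit 4684051)) p13_3_3 (nat_lit 4) (nat_lit 5) (nat_lit 6) = true := by decide +kernel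
def p13_3_3_6 : pfC (piC [(nat_lit 35404596), (nat_lit 28134109), (nat_lit 21202637), (nat_lit 14064972)] (nat_lit 4684051)) p13_3_3 (nat_lit 4) (nat_lit 6) (nat_lit 7) = true := by decide +kernel
def p13_3_3_7 : pfC (piC [(nat_lit 35404596), (nat_lit 28134109), (nat_lit 21202637), (nat_lit 14064972)] (nat_lit 4684051)) p13_3_3 (nat_lit 4) (nat_lit 7) (nat_lit 8) = true := by decide +kernel
def p13_3_3_8 : pfC (piC [(nat_lit 35404596), (nat_lit 28134109), (nat_lit 21202637), (nat_lit 14064972)] (nat_lit 4684051)) p13_3_3 (nat_lit 4) (nat_lit 8) (nat_lit 9) = true := by decide +kernel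
def p13_3_3_9 : pfC (piC [(nat_lit 35404596), (nat_lit 28134109), (nat_lit 21202637), (nat_lit 14064972)] (nat_lit 4684051)) p13_3_3 (nat_lit 4) (nat_lit 9) (nat_lit 10) = true := by decide +kernel
def p13_3_3_10 : pfC (piC [(nat_lit 35404596), (nat_lit 28134109), (nat_lit 21202637), (nat_lit 14064972)] (nat_lit 4684051)) p13_3_3 (nat_lit 4) (nat_lit 10) (nat_lit 11) = true := by decide +kernel
def p13_3_3_11 : pfC (piC [(nat_lit 35404596), (nat_lit 28134109), (nat_lit 21202637), (nat_lit 14064972)] (nat_lit 4684051)) p13_3_3 (nat_lit 4) (nat_lit 11) (nat_lit 12) = true := by decide +kernel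
def p13_3_3_12 : pfC (piC [(nat_lit 35404596), (nat_lit 28134109), (nat_lit 21202637), (nat_lit 14064972)] (nat_lit 4684051)) p13_3_3 (nat_lit 4) (nat_lit 12) (nat_lit 13) = true := by decide +kernel
def p13_3_3_13 : pfC (piC [(nat_lit 35404596), (nat_lit 28134109), (nat_lit 21202637), (nat_lit 14064972)] (nat_lit 4684051)) p13_3_3 (nat_lit 4) (nat_lit 13) (nat_lit 14) = true := by decide +kernel
def p13_3_3_14 : pfC (piC [(nat_lit 35404596), (nat_lit 28134109), (nat_lit 21202637), (nat_lit 14064972)] (nat_lit 4684051)) p13_3_3 (nat_lit 4) (nat_lit 14) (nat_lit 15) = true := by decide +kernel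
def p13_3_3_15 : pfC (piC [(nat_lit 35404596), (nat_lit 28134109), (nat_lit 21202637), (nat_lit 14064972)] (nat_lit 4684051)) p13_3_3 (nat_lit 4) (nat_lit 15) (nat_lit 16) = true := by decide +kernel
def p13_3_3_16 : pfC (piC [(nat_lit 35404596), (nat_lit 28134109), (nat_lit 21202637), (nat_lit 14064972)] (nat_lit 4684051)) p13_3_3 (nat_lit 4) (nat_lit 16) (nat_lit 17) = true := by decide +kernel
def p13_3_3_17 : pfC (piC [(nat_lit 35404596), (nat_lit 28134109), (nat_lit 21202637), (nat_lit 14064972)] (nat_lit 4684051)) p13_3_3 (nat_lit 4) (nat_lit 17) (nat_lit 18) = true := by decide +kernel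
def p13_3_3_18 : pfC (piC [(nat_lit 35404596), (nat_lit 28134109), (nat_lit 21202637), (nat_lit 14064972)] (nat_lit 4684051)) p13_3_3 (nat_lit 4) (nat_lit 18) (nat_lit 19) = true := by decide +kernel
def p13_3_3_19 : pfC (piC [(nat_lit 35404596), (nat_lit 28134109), (nat_lit 21202637), (nat_lit 14064972)] (nat_lit 4684051)) p13_3_3 (nat_lit 4) (nat_lit 19) (nat_lit 20) = true := by decide +kernel
def p13_3_3_20 : pfC (piC [(nat_lit 35404596), (nat_lit 28134109), (nat_lit 21202637), (nat_lit 14064972)] (nat_lit 4684051)) p13_3_3 (nat_lit 4) (nat_lit 20) (nat_lit 21) = true := by decide +kernel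
def p13_3_3_21 : pfC (piC [(nat_lit 35404596), (nat_lit 28134109), (nat_lit 21202637), (nat_lit 14064972)] (nat_lit 4684051)) p13_3_3 (nat_lit 4) (nat_lit 21) (nat_lit 22) = true := by decide +kernel
def p13_3_3_22 : pfC (piC [(nat_lit 35404596), (nat_lit 28134109), (nat_lit 21202637), (nat_lit 14064972)] (nat_lit 4684051)) p13_3_3 (nat_lit 4) (nat_lit 22) (nat_lit 23) = true := by decide +kernel
def p13_3_3_23 : pfC (piC [(nat_lit 35404596), (nat_lit 28134109), (nat_lit 21202637), (nat_lit 14064972)] (nat_lit 4684051)) p13_3_3 (nat_lit 4) (nat_lit 23) (nat_lit 24) = true := by decide +kernel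
def p13_3_3_24 : pfC (piC [(nat_lit 35404596), (nat_lit 28134109), (nat_lit 21202637), (nat_lit 14064972)] (nat_lit 4684051)) p13_3_3 (nat_lit 4) (nat_lit 24) (nat_lit 25) = true := by decide +kernel
def p13_3_3_25 : pfC (piC [(nat_lit 35404596), (nat_lit 28134109), (nat_lit 21202637), (nat_lit 14064972)] (nat_lit 4684051)) p13_3_3 (nat_lit 4) (nat_lit 25) (nat_lit 26) = true := by decide +kernel
def p13_3_3_26 : pfC (piC [(nat_lit 35404596), (nat_lit 28134109), (nat_lit 21202637), (nat_lit 14064972)] (nat_lit 4684051)) p13_3_3 (nat_lit 4) (nat_lit 26) (nat_lit 27) = true := by decide +kernel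
def p13_3_3_27 : pfC (piC [(nat_lit 35404596), (nat_lit 28134109), (nat_lit 21202637), (nat_lit 14064972)] (nat_lit 4684051)) p13_3_3 (nat_lit 4) (nat_lit 27) (nat_lit 28) = true := by decide +kernel
def p13_3_3_28 : pfC (piC [(nat_lit 35404596), (nat_lit 28134109), (nat_lit 21202637), (nat_lit 14064972)] (nat_lit 4684051)) p13_3_3 (nat_lit 4) (nat_lit 28) (nat_lit 29) = true := by decide +kernel
def p13_3_3_29 : pfC (piC [(nat_lit 35404596), (nat_lit 28134109), (nat_lit 21202637), (nat_lit 14064972)] (nat_lit 4684051)) p13_3_3 (nat_lit 4) (nat_lit 29) (nat_lit 30) = true := by decide +kernel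
theorem p13_3_3_T : PfS (PiF n13_3.reverse (nat_lit 4684051)) p13_3_3 (nat_lit 4) [] 0 :=
  pftab_of (los := [(nat_lit 35404596), (nat_lit 28134109), (nat_lit 21202637), (nat_lit 14064972)]) (by decide +kernel) (hi := (nat_lit 30)) (PfP.trans (PfP.trans (PfP.trans (PfP.trans (PfP.trans (PfP.trans (PfP.trans (PfP.trans (PfP.trans (PfP.trans (PfP.trans (PfP.trans (PfP.trans (PfP.trans (PfP.trans (PfP.trans (PfP.trans (PfP.trans (PfP.trans (PfP.trans (PfP.trans (PfP.trans (PfP.trans (PfP.trans (PfP.trans (PfP.trans (PfP.trans (PfP.trans (PfP.trans (pfC_sound p13_3_3_0) (pfC_sound p13_3_3_1)) (pfC_sound p13_3_3_2)) (pfC_sound p13_3_3_3)) (pfC_sound p13_3_3_4)) (pfC_sound p13_3_3_5)) (pfC_sound p13_3_3_6)) (pfC_sound p13_3_3_7)) (pfC_sound p13_3_3_8)) (pfC_sound p13_3_3_9)) (pfC_sound p13_3_3_10)) (pfC_sound p13_3_3_11)) (pfC_sound p13_3_3_12)) (pfC_sound p13_3_3_13)) (pfC_sound p13_3_3_14)) (pfC_sound p13_3_3_15)) (pfC_sound p13_3_3_16)) (pfC_sound p13_3_3_17))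 (pfC_sound p13_3_3_18)) (pfC_sound p13_3_3_19)) (pfC_sound p13_3_3_20)) (pfC_sound p13_3_3_21)) (pfC_sound p13_3_3_22)) (pfC_sound p13_3_3_23)) (pfC_sound p13_3_3_24)) (pfC_sound p13_3_3_25)) (pfC_sound p13_3_3_26)) (pfC_sound p13_3_3_27)) (pfC_sound p13_3_3_28)) (pfC_sound p13_3_3_29)) (by decide +kernel)

def z13_3_3 : zOK yB13_3 (nat_lit 3) (nat_lit 750) (nat_lit 960) (nat_lit 4684051) (nat_lit 2331940) = true := by decide +kernel
def g13_3_3 : gOK yB13_3.x P13_3 (nat_lit 1414) (q13_3 :: r13_3) (nat_lit 3) (nat_lit 750) (nat_lit 4) (nat_lit 960) (nat_lit 12712500) (nat_lit 12712500) (nat_lit 12712500) (nat_lit 12712500) [(nat_lit 800)] = true := by decide +kernel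
def v13_3_3 : ivC P13_3 s13_3 w13_3 n13_3 (nat_lit 4) (nat_lit 4850) (nat_lit 3) (nat_lit 750) f120_1_750 f128_1_750 (nat_lit 4) (nat_lit 960) f120_1_960 f128_1_960 (nat_lit 4684051) (nat_lit 2331940) p13_3_3 = true := by decide +kernel
end CB
end Pool.Agent.Lib.MP_6947cd_al
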