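import Pool.Agent.Lib.MP_6947cd_al.L.BoxDataB
import Pool.Agent.Lib.MP_6947cd_al.L.TeD3
import Pool.Agent.Lib.MP_6947cd_al.L.TeD4

/-!
Problem MP_6947cd_al (Chollet).  CASE B, rows `j`: boxes (generated).
-/

set_option autoImplicit false
set_option linter.defProp false
set_option maxRecDepth 20000

namespace Pool.Agent.Lib.MP_6947cd_al
namespace CB

open Ent Ent.Pk Fr Fr.WT CA

/-! box `yB13_10` -/

def P13_10 : BQ := ⟨(nat_lit 8), (nat_lit 4), (nat_lit 4), (nat_lit 0), (nat_lit 8), (nat_lit 740), (nat_lit 760), (nat_lit 120), [(nat_lit 200), (nat_lit 300), (nat_lit 450), (nat_lit 800)], (nat_lit 90656000), (nat_lit 16000000), (nat_lit 16000000000)⟩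
def q13_10 : PC := ⟨(nat_lit 1000), [(nat_lit 120000), (nat_lit 200000), (nat_lit 300000), (nat_lit 450000), (nat_lit 800000)], (nat_lit 340282367000166625996085689103316680705000000), (nat_lit 15909344000000), (nat_lit 15909344000000), (nat_lit 10000000)⟩
def r13_10 : List PC := [⟨(nat_lit 1325), [(nat_lit 120596), (nat_lit 201130), (nat_lit 301560), (nat_lit 451809), (nat_lit 800540)], (nat_lit 342206323503254179688184785108069921122634911), (nat_lit 16331864452000), (nat_lit 16343750300000), (nat_lit 10056500)⟩]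
def s13_10 : List PB := [⟨(nat_lit 26500), (nat_lit 1929536000000), [(nat_lit 201130), (nat_lit 301560), (nat_lit 451809), (nat_lit 800540)], (nat_lit 342206323503254179688184785108069921122634911), (nat_lit 1142231771294624), (nat_lit 1142243657142624), (nat_lit 52000)⟩]
def n13_10 : List KN := [⟨(nat_lit 800), (nat_lit 450), (nat_lit 13318063), (nat_lit 5780345)⟩, ⟨(nat_lit 450), (nat_lit 300), (nat_lit 19805017), (nat_lit 13318063)⟩, ⟨(nat_lit 300), (nat_lit 200), (nat_lit 26592602), (nat_lit 19805017)⟩, ⟨(nat_lit 200), (nat_lit 120), (nat_lit 41997052), (nat_lit 26592602)⟩]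
def w13_10 : List ℕ := [(nat_lit 52000)]
def par13_10 : parC yB13_10 P13_10 s13_10 r13_10 q13_10 n13_10 w13_10 = true := by decide +kernel

def p13_10_0 : PF := (PF.cons (PF.cons (PF.cons (PF.cons (PF.leaf (nat_lit 524523) (nat_lit 1462083) (nat_lit 65646729) (nat_lit 1462083) [(nat_lit 0), (nat_lit 0), (nat_lit 0), (nat_lit 0)]) (PF.cons (PF.leaf (nat_lit 624529) (nat_lit 151390) (nat_lit 65453443) (nat_lit 1503978) [(nat_lit 151390), (nat_lit 0), (nat_lit 0), (nat_lit 0)]) (PF.cons (PF.leaf (nat_lit 750685) (nat_lit 168015) (nat_lit 65222178) (nat_lit 1550603) [(nat_lit 168015), (nat_lit 0), (nat_lit 0), (nat_lit 0)]) (PF.cons (PF.leaf (nat_lit 895848) (nat_lit 183793) (nat_lit 64957325) (nat_lit 1600107) [(nat_lit 183793), (nat_lit 0), (nat_lit 0), (nat_lit 0)]) (PF.cons (PF.leaf (nat_lit 1058639) (nat_lit 198924) (nat_lit 64661880) (nat_lit 1651235) [(nat_lit 198924), (nat_lit 0), (nat_lit 0), (nat_lit 0)]) (PF.cons (PF.leaf (nat_lit 1237968) (nat_lit 213510)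 (nat_lit 64338159) (nat_lit 1703099) [(nat_lit 213510), (nat_lit 0), (nat_lit 0), (nat_lit 0)]) (PF.cons (PF.leaf (nat_lit 1432817) (nat_lit 227609) (nat_lit 63988114) (nat_lit 1755043) [(nat_lit 227609), (nat_lit 0), (nat_lit 0), (nat_lit 0)]) (PF.cons (PF.leaf (nat_lit 1642583) (nat_lit 241249) (nat_lit 63613489) (nat_lit 1806580) [(nat_lit 241249), (nat_lit 0), (nat_lit 0),
 (nat_lit 0)]) (PF.cons PF.nil (PF.cons PF.nil PF.nil)))))))))) (PF.cons (PF.cons (PF.leaf (nat_lit 964711) (nat_lit 879762) (nat_lit 64578140) (nat_lit 1650909) [(nat_lit 0), (nat_lit 879762), (nat_lit 0), (nat_lit 0)]) (PF.cons (PF.leaf (nat_lit 1110920) (nat_lit 200281) (nat_lit 64299720) (nat_lit 1695496) [(nat_lit 200281), (nat_lit 913313), (nat_lit 0), (nat_lit 0)]) (PF.cons (PF.leaf (nat_lit 1278297) (nat_lit 215003) (nat_lit 63988979) (nat_lit 1742018) [(nat_lit 215003), (nat_lit 947808), (nat_lit 0), (nat_lit 0)]) (PF.cons (PF.leaf (nat_lit 1462399) (nat_lit 229111) (nat_lit 63649402)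 (nat_lit 1789477) [(nat_lit 229111), (nat_lit 982597), (nat_lit 0), (nat_lit 0)]) (PF.cons (PF.leaf (nat_lit 1662284) (nat_lit 242692) (nat_lit 63283614) (nat_lit 1837174) [(nat_lit 242692), (nat_lit 1017254), (nat_lit 0), (nat_lit 0)]) (PF.cons (PF.leaf (nat_lit 1876705) (nat_lit 255791) (nat_lit 62893777) (nat_lit 1884594) [(nat_lit 255791), (nat_lit 1051483), (nat_lit 0), (nat_lit 0)]) (PF.cons PF.nil (PF.cons PF.nil (PF.cons PF.nil PF.nil))))))))) (PF.cons (PF.cons (PF.leaf (nat_lit 1508203) (nat_lit 1004544) (nat_lit 63273356) (nat_lit 1826367) [(nat_lit 0), (nat_lit 1004544), (nat_lit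
 0), (nat_lit 0)]) (PF.cons (PF.leaf (nat_lit 1693453) (nat_lit 243339) (nat_lit 62923351) (nat_lit 1869517) [(nat_lit 243339), (nat_lit 1036302), (nat_lit 0), (nat_lit 0)]) (PF.cons (PF.leaf (nat_lit 1896490) (nat_lit 256512) (nat_lit 62546362) (nat_lit 1913123) [(nat_lit 256512), (nat_lit 1068151), (nat_lit 0), (nat_lit 0)]) (PF.cons (PF.leaf (nat_lit 2114074) (nat_lit 269155) (nat_lit 62145265) (nat_lit 1956616) [(nat_lit 269155), (nat_lit 1099733), (nat_lit 0), (nat_lit 0)]) (PF.cons (PF.leaf (nat_lit 2345240) (nat_lit 281311) (nat_lit 61722390) (nat_lit 1999578) [(nat_lit 281311), (nat_lit 1130799), (nat_lit 0), (nat_lit 0)]) (PF.cons PF.nil (PF.cons PF.nil PF.nil))))))) (PF.cons (PF.cons (PF.leaf (nat_lit 2136862) (nat_lit 1115452) (nat_lit 61778999) (nat_lit 1983457) [(nat_lit 0), (nat_lit 1115452), (nat_lit 0), (nat_lit 0)]) (PF.cons (PF.leaf (nat_lit 2354912) (nat_lit 281390) (nat_lit 61370821) (nat_lit 2023144) [(nat_lit 281390), (nat_lit 1144485), (nat_lit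 0), (nat_lit 0)]) (PF.cons (PF.leaf (nat_lit 2587790) (nat_lit 293129) (nat_lit 60940670) (nat_lit 2062461) [(nat_lit 293129), (nat_lit 1173141), (nat_lit 0), (nat_lit 0)]) (PF.cons (PF.leaf (nat_lit 2833156) (nat_lit
 304376) (nat_lit 60490987) (nat_lit 2101068) [(nat_lit 304376), (nat_lit 1201209), (nat_lit 0), (nat_lit 0)]) (PF.cons PF.nil PF.nil))))) (PF.cons (PF.cons (PF.leaf (nat_lit 2833525) (nat_lit 1212360) (nat_lit 60138980) (nat_lit 2120392) [(nat_lit 0), (nat_lit 1212360), (nat_lit 0), (nat_lit 0)]) (PF.cons (PF.leaf (nat_lit 3078387) (nat_lit 314776) (nat_lit 59685563) (nat_lit 2155620) [(nat_lit 314776), (nat_lit 1238213), (nat_lit 0), (nat_lit 0)]) (PF.cons PF.nil (PF.cons PF.nil PF.nil)))) (PF.cons (PF.cons (PF.leaf (nat_lit 3582115) (nat_lit 1295568) (nat_lit 58394017) (nat_lit 2236951) [(nat_lit 0), (nat_lit 1295568), (nat_lit 0), (nat_lit 0)]) (PF.cons PF.nil PF.nil)) (PF.cons PF.nil (PF.cons PF.nil PF.nil)))))))) (PF.cons (PF.cons (PF.cons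 (PF.leaf (nat_lit 1540896) (nat_lit 1852699) (nat_lit 62567692) (nat_lit 1852699) [(nat_lit 0), (nat_lit 0), (nat_lit 2688421), (nat_lit 0)]) (PF.cons (PF.leaf (nat_lit 1705642) (nat_lit 233514) (nat_lit 62253090) (nat_lit 1890557) [(nat_lit 233514), (nat_lit 0), (nat_lit 2731650), (nat_lit 0)]) (PF.cons (PF.leaf (nat_lit 1890767) (nat_lit 247961) (nat_lit 61906321) (nat_lit 1929825) [(nat_lit 247961), (nat_lit 0), (nat_lit 2776743),
 (nat_lit 0)]) (PF.cons (PF.leaf (nat_lit 2092075) (nat_lit 261526) (nat_lit 61531854) (nat_lit 1969671) [(nat_lit 261526), (nat_lit 0), (nat_lit 2822708), (nat_lit 0)]) (PF.cons (PF.leaf (nat_lit 2308198) (nat_lit 274369) (nat_lit 61132985) (nat_lit 2009517) [(nat_lit 274369), (nat_lit 0), (nat_lit 2868833), (nat_lit 0)]) (PF.cons (PF.leaf (nat_lit 2537655) (nat_lit 286586) (nat_lit 60712348) (nat_lit 2048942) [(nat_lit 286586), (nat_lit 0), (nat_lit 2914587), (nat_lit 0)]) (PF.cons PF.nil (PF.cons PF.nil (PF.cons PF.nil PF.nil)))))))))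 (PF.cons (PF.cons (PF.leaf (nat_lit 2127991) (nat_lit 1116119) (nat_lit 61136515) (nat_lit 1997843) [(nat_lit 0), (nat_lit 1116119), (nat_lit 2858334), (nat_lit 0)]) (PF.cons (PF.leaf (nat_lit 2328485) (nat_lit 273310) (nat_lit 60757830) (nat_lit 2033980) [(nat_lit 273310), (nat_lit 1143723), (nat_lit 2899968), (nat_lit 0)]) (PF.cons (PF.leaf (nat_lit 2545526) (nat_lit 285803) (nat_lit 60353744) (nat_lit 2070312) [(nat_lit 285803), (nat_lit 1171221), (nat_lit 2941927), (nat_lit 0)]) (PF.cons (PF.leaf (nat_lit 2776292) (nat_lit 297620) (nat_lit 59927626) (nat_lit 2106368) [(nat_lit 297620), (nat_lit 1198322), (nat_lit 2983633), (nat_lit 0)])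
 (PF.cons (PF.leaf (nat_lit 3019337) (nat_lit 308845) (nat_lit 59482136) (nat_lit 2141807) [(nat_lit 308845), (nat_lit 1224827), (nat_lit 3024659), (nat_lit 0)]) (PF.cons PF.nil (PF.cons PF.nil PF.nil))))))) (PF.cons (PF.cons (PF.leaf (nat_lit 2787413) (nat_lit 1209838) (nat_lit 59553497) (nat_lit 2126451) [(nat_lit 0), (nat_lit 1209838), (nat_lit 3009185), (nat_lit 0)]) (PF.cons (PF.leaf (nat_lit 3016867) (nat_lit 307641) (nat_lit 59125624) (nat_lit 2159228) [(nat_lit 307641), (nat_lit 1234697), (nat_lit 3046922), (nat_lit 0)]) (PF.cons (PF.leaf (nat_lit 3259931) (nat_lit 318506) (nat_lit 58677976) (nat_lit 2191531) [(nat_lit 318506), (nat_lit 1259087), (nat_lit 3084117), (nat_lit 0)]) (PF.cons PF.nil (PF.cons PF.nil PF.nil))))) (PF.cons (PF.cons (PF.leaf (nat_lit 3502459) (nat_lit 1290693) (nat_lit 57861362) (nat_lit 2237096) [(nat_lit 0), (nat_lit 1290693), (nat_lit 3138274), (nat_lit 0)]) (PF.cons (PF.leaf (nat_lit 3754977) (nat_lit 337205) (nat_lit 57397334)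 (nat_lit 2265745) [(nat_lit 337205), (nat_lit 1312508), (nat_lit 3171002), (nat_lit 0)]) (PF.cons PF.nil (PF.cons PF.nil PF.nil)))) (PF.cons (PF.cons (PF.leaf (nat_lit 4258266) (nat_lit 1359143) (nat_lit 56097375) (nat_lit
 2329754) [(nat_lit 0), (nat_lit 1359143), (nat_lit 3245110), (nat_lit 0)]) (PF.cons PF.nil PF.nil)) (PF.cons PF.nil PF.nil)))))) (PF.cons (PF.cons (PF.cons (PF.leaf (nat_lit 2755434) (nat_lit 2132443) (nat_lit 58930730) (nat_lit 2132443) [(nat_lit 0), (nat_lit 0), (nat_lit 3022819), (nat_lit 0)]) (PF.cons (PF.leaf (nat_lit 2967143) (nat_lit 298238) (nat_lit 58534552) (nat_lit 2162558) [(nat_lit 298238), (nat_lit 0), (nat_lit 3056731), (nat_lit 0)]) (PF.cons (PF.leaf (nat_lit 3194443) (nat_lit 310029) (nat_lit 58114731) (nat_lit 2192654) [(nat_lit 310029), (nat_lit 0), (nat_lit 3090683), (nat_lit 0)]) (PF.cons (PF.leaf (nat_lit 3434480) (nat_lit 321035) (nat_lit 57674951) (nat_lit 2222343) [(nat_lit 321035), (nat_lit 0), (nat_lit 3124205), (nat_lit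 0)]) (PF.cons (PF.leaf (nat_lit 3685738) (nat_lit 331369) (nat_lit 57218067) (nat_lit 2251351) [(nat_lit 331369), (nat_lit 0), (nat_lit 3156958), (nat_lit 0)]) PF.nil))))) (PF.cons (PF.cons (PF.leaf (nat_lit 3434330) (nat_lit 1284762) (nat_lit 57301600) (nat_lit 2237011) [(nat_lit 0), (nat_lit 1284762), (nat_lit 3142719), (nat_lit 0)]) (PF.cons (PF.leaf (nat_lit 3671699) (nat_lit 329134) (nat_lit 56864251) (nat_lit 2263854) [(nat_lit
 329134), (nat_lit 1305945), (nat_lit 3172814), (nat_lit 0)]) (PF.cons (PF.leaf (nat_lit 3921566) (nat_lit 339163) (nat_lit 56409209) (nat_lit 2290147) [(nat_lit 339163), (nat_lit 1326595), (nat_lit 3202267), (nat_lit 0)]) (PF.cons PF.nil PF.nil)))) (PF.cons (PF.cons (PF.leaf (nat_lit 4158407) (nat_lit 1351769) (nat_lit 55593700) (nat_lit 2325409) [(nat_lit 0), (nat_lit 1351769), (nat_lit 3243082), (nat_lit 0)]) (PF.cons (PF.leaf (nat_lit 4415569) (nat_lit 355247) (nat_lit 55127889) (nat_lit 2348431) [(nat_lit 355247), (nat_lit 1370060),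 (nat_lit 3268561), (nat_lit 0)]) PF.nil)) (PF.cons PF.nil (PF.cons PF.nil PF.nil))))) (PF.cons (PF.cons (PF.cons (PF.leaf (nat_lit 4070732) (nat_lit 2320810) (nat_lit 55064664) (nat_lit 2320810) [(nat_lit 0), (nat_lit 0), (nat_lit 3241112), (nat_lit 0)]) (PF.cons (PF.leaf (nat_lit 4313133) (nat_lit 346539) (nat_lit 54625774) (nat_lit 2342527) [(nat_lit 346539), (nat_lit 0), (nat_lit 3264657), (nat_lit 0)]) (PF.cons (PF.leaf (nat_lit 4567091) (nat_lit 355779) (nat_lit 54171108) (nat_lit 2363648) [(nat_lit 355779), (nat_lit 0), (nat_lit 3287499), (nat_lit 0)]) (PF.cons PF.nil PF.nil)))) (PF.cons (PF.cons (PF.leaf (nat_lit 4796582) (nat_lit 1398414)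
 (nat_lit 53368462) (nat_lit 2390287) [(nat_lit 0), (nat_lit 1398414), (nat_lit 3317216), (nat_lit 0)]) (PF.cons (PF.leaf (nat_lit 5056043) (nat_lit 369549) (nat_lit 52907509) (nat_lit 2408493) [(nat_lit 369549), (nat_lit 1413632), (nat_lit 3336542), (nat_lit 0)]) PF.nil)) (PF.cons PF.nil PF.nil))) (PF.cons (PF.cons (PF.cons (PF.leaf (nat_lit 5413894) (nat_lit 2435792) (nat_lit 51208315) (nat_lit 2435792) [(nat_lit 0), (nat_lit 0), (nat_lit 3366176), (nat_lit 0)]) (PF.cons PF.nil PF.nil)) (PF.cons PF.nil PF.nil)) (PF.cons PF.nil (PF.cons PF.nil (PF.cons PF.nil PF.nil)))))))) (PF.cons (PF.cons (PF.cons (PF.cons (PF.leaf (nat_lit 2737477) (nat_lit 2073426) (nat_lit 56210810) (nat_lit 2073426) [(nat_lit 0), (nat_lit 0), (nat_lit 0), (nat_lit 8824576)]) (PF.cons (PF.leaf (nat_lit 2912988) (nat_lit 266938) (nat_lit 55895667) (nat_lit 2101537) [(nat_lit 266938), (nat_lit 0), (nat_lit 0), (nat_lit 8844669)]) (PF.cons (PF.leaf (nat_lit 3107571) (nat_lit 281068) (nat_lit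 55551496) (nat_lit 2130229) [(nat_lit 281068), (nat_lit 0), (nat_lit 0), (nat_lit 8864948)]) (PF.cons (PF.leaf (nat_lit 3317098) (nat_lit 293950) (nat_lit 55183287) (nat_lit 2158889) [(nat_lit 293950), (nat_lit 0), (nat_lit
 0), (nat_lit 8884785)]) (PF.cons (PF.leaf (nat_lit 3539820) (nat_lit 305823) (nat_lit 54794700) (nat_lit 2187113) [(nat_lit 305823), (nat_lit 0), (nat_lit 0), (nat_lit 8903704)]) (PF.cons (PF.leaf (nat_lit 3774123) (nat_lit 316848) (nat_lit 54388608) (nat_lit 2214625) [(nat_lit 316848), (nat_lit 0), (nat_lit 0), (nat_lit 8921337)]) (PF.cons (PF.leaf (nat_lit 4018826) (nat_lit 327135) (nat_lit 53967371) (nat_lit 2241234) [(nat_lit 327135), (nat_lit 0), (nat_lit 0), (nat_lit 8937393)]) (PF.cons (PF.leaf (nat_lit 4272941) (nat_lit 336766) (nat_lit 53532996) (nat_lit 2266807) [(nat_lit 336766), (nat_lit 0), (nat_lit 0), (nat_lit 8951645)]) (PF.cons PF.nil (PF.cons PF.nil PF.nil)))))))))) (PF.cons (PF.cons (PF.leaf (nat_lit 3335049) (nat_lit 1229724)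 (nat_lit 54806534) (nat_lit 2175073) [(nat_lit 0), (nat_lit 1229724), (nat_lit 0), (nat_lit 8897480)]) (PF.cons (PF.leaf (nat_lit 3541312) (nat_lit 302576) (nat_lit 54440512) (nat_lit 2200621) [(nat_lit 302576), (nat_lit 1251569), (nat_lit 0), (nat_lit 8913533)]) (PF.cons (PF.leaf (nat_lit 3762517) (nat_lit 314088) (nat_lit 54053089) (nat_lit 2225944) [(nat_lit 314088), (nat_lit 1272947), (nat_lit 0), (nat_lit 8928653)]) (PF.cons (PF.leaf
 (nat_lit 3995648) (nat_lit 324718) (nat_lit 53647795) (nat_lit 2250722) [(nat_lit 324718), (nat_lit 1293666), (nat_lit 0), (nat_lit 8942473)]) (PF.cons (PF.leaf (nat_lit 4239319) (nat_lit 334596) (nat_lit 53227364) (nat_lit 2274736) [(nat_lit 334596), (nat_lit 1313611), (nat_lit 0), (nat_lit 8954715)]) (PF.cons (PF.leaf (nat_lit 4492344) (nat_lit 343814) (nat_lit 52794024) (nat_lit 2297837) [(nat_lit 343814), (nat_lit 1332710), (nat_lit 0), (nat_lit 8965166)]) (PF.cons PF.nil (PF.cons PF.nil (PF.cons PF.nil PF.nil))))))))) (PF.cons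 (PF.cons (PF.leaf (nat_lit 3987688) (nat_lit 1299281) (nat_lit 53301926) (nat_lit 2261140) [(nat_lit 0), (nat_lit 1299281), (nat_lit 0), (nat_lit 8947183)]) (PF.cons (PF.leaf (nat_lit 4217601) (nat_lit 331669) (nat_lit 52900349) (nat_lit 2283331) [(nat_lit 331669), (nat_lit 1318070), (nat_lit 0), (nat_lit 8957320)]) (PF.cons (PF.leaf (nat_lit 4459309) (nat_lit 341227) (nat_lit 52483094) (nat_lit 2304903) [(nat_lit 341227), (nat_lit 1336227), (nat_lit 0), (nat_lit 8965904)]) (PF.cons (PF.leaf (nat_lit 4710563) (nat_lit 350103) (nat_lit 52052774) (nat_lit 2325683) [(nat_lit 350103), (nat_lit 1353655), (nat_lit 0), (nat_lit 8972732)]) (PF.cons (PF.leaf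
 (nat_lit 4970220) (nat_lit 358378) (nat_lit 51611498) (nat_lit 2345551) [(nat_lit 358378), (nat_lit 1370294), (nat_lit 0), (nat_lit 8977658)]) (PF.cons PF.nil (PF.cons PF.nil PF.nil))))))) (PF.cons (PF.cons (PF.leaf (nat_lit 4679997) (nat_lit 1356757) (nat_lit 51735359) (nat_lit 2331989) [(nat_lit 0), (nat_lit 1356757), (nat_lit 0), (nat_lit 8971191)]) (PF.cons (PF.leaf (nat_lit 4927883) (nat_lit 355660) (nat_lit 51310139) (nat_lit 2350577) [(nat_lit 355660), (nat_lit 1372612), (nat_lit 0), (nat_lit 8974598)]) (PF.cons (PF.leaf (nat_lit 5185135) (nat_lit 363643) (nat_lit 50873684) (nat_lit 2368363) [(nat_lit 363643), (nat_lit 1387773), (nat_lit 0), (nat_lit 8976157)]) (PF.cons (PF.leaf (nat_lit 5449919) (nat_lit 371071) (nat_lit 50427990) (nat_lit 2385253) [(nat_lit 371071), (nat_lit 1402192), (nat_lit 0), (nat_lit 8975775)]) (PF.cons PF.nil PF.nil))))) (PF.cons (PF.cons (PF.leaf (nat_lit 5399468) (nat_lit 1403498) (nat_lit 50136837) (nat_lit 2388549) [(nat_lit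 0), (nat_lit 1403498), (nat_lit 0), (nat_lit 8969432)]) (PF.cons (PF.leaf (nat_lit 5660659) (nat_lit 375428) (nat_lit 49697423) (nat_lit 2403570) [(nat_lit 375428), (nat_lit 1416603), (nat_lit 0), (nat_lit 8965978)])
 (PF.cons PF.nil (PF.cons PF.nil PF.nil)))) (PF.cons (PF.cons (PF.leaf (nat_lit 6135780) (nat_lit 1440689) (nat_lit 48530040) (nat_lit 2432019) [(nat_lit 0), (nat_lit 1440689), (nat_lit 0), (nat_lit 8943304)]) (PF.cons PF.nil PF.nil)) (PF.cons PF.nil (PF.cons PF.nil PF.nil)))))))) (PF.cons (PF.cons (PF.cons (PF.leaf (nat_lit 3921554) (nat_lit 2254249) (nat_lit 52752508) (nat_lit 2254249) [(nat_lit 0), (nat_lit 0), (nat_lit 3167750), (nat_lit 8934304)]) (PF.cons (PF.leaf (nat_lit 4134229) (nat_lit 319933) (nat_lit 52382666) (nat_lit 2275135) [(nat_lit 319933), (nat_lit 0), (nat_lit 3189134), (nat_lit 8941944)]) (PF.cons (PF.leaf (nat_lit 4360897) (nat_lit 330701) (nat_lit 51993141) (nat_lit 2295703) [(nat_lit 330701), (nat_lit 0), (nat_lit 3210220),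 (nat_lit 8948344)]) (PF.cons (PF.leaf (nat_lit 4598692) (nat_lit 340532) (nat_lit 51587549) (nat_lit 2315694) [(nat_lit 340532), (nat_lit 0), (nat_lit 3230711), (nat_lit 8953260)]) (PF.cons (PF.leaf (nat_lit 4846133) (nat_lit 349579) (nat_lit 51168649) (nat_lit 2334937) [(nat_lit 349579), (nat_lit 0), (nat_lit 3250397), (nat_lit 8956512)]) (PF.cons (PF.leaf (nat_lit 5102023) (nat_lit 357949) (nat_lit 50738652) (nat_lit 2353314) [(nat_lit
 357949), (nat_lit 0), (nat_lit 3269131), (nat_lit 8957968)]) (PF.cons PF.nil PF.nil))))))) (PF.cons (PF.cons (PF.leaf (nat_lit 4581029) (nat_lit 1345075) (nat_lit 51251524) (nat_lit 2322528) [(nat_lit 0), (nat_lit 1345075), (nat_lit 3238853), (nat_lit 8950831)]) (PF.cons (PF.leaf (nat_lit 4814730) (nat_lit 345964) (nat_lit 50852115) (nat_lit 2340325) [(nat_lit 345964), (nat_lit 1360926), (nat_lit 3256851), (nat_lit 8952629)]) (PF.cons (PF.leaf (nat_lit 5059339) (nat_lit 354760) (nat_lit 50438701) (nat_lit 2357496) [(nat_lit 354760),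 (nat_lit 1376145), (nat_lit 3274155), (nat_lit 8952792)]) (PF.cons (PF.leaf (nat_lit 5312666) (nat_lit 362852) (nat_lit 50013884) (nat_lit 2373907) [(nat_lit 362852), (nat_lit 1390659), (nat_lit 3290603), (nat_lit 8951202)]) (PF.cons (PF.leaf (nat_lit 5573559) (nat_lit 370332) (nat_lit 49579730) (nat_lit 2389466) [(nat_lit 370332), (nat_lit 1404426), (nat_lit 3306082), (nat_lit 8947777)]) PF.nil))))) (PF.cons (PF.cons (PF.leaf (nat_lit 5272868) (nat_lit 1392014) (nat_lit 49708518) (nat_lit 2377475) [(nat_lit 0), (nat_lit 1392014), (nat_lit 3294752), (nat_lit 8944038)]) (PF.cons (PF.leaf (nat_lit 5522149) (nat_lit 367110) (nat_lit 49290650) (nat_lit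
 2392030) [(nat_lit 367110), (nat_lit 1405179), (nat_lit 3309042), (nat_lit 8939621)]) (PF.cons (PF.leaf (nat_lit 5779998) (nat_lit 374355) (nat_lit 48863038) (nat_lit 2405826) [(nat_lit 374355), (nat_lit 1417680), (nat_lit 3322453), (nat_lit 8933421)]) (PF.cons PF.nil PF.nil)))) (PF.cons (PF.cons (PF.leaf (nat_lit 5985724) (nat_lit 1429457) (nat_lit 48149639) (nat_lit 2419988) [(nat_lit 0), (nat_lit 1429457), (nat_lit 3336106), (nat_lit 8914707)]) (PF.cons (PF.leaf (nat_lit 6246270) (nat_lit 384285) (nat_lit 47721842) (nat_lit 2431378) [(nat_lit 384285), (nat_lit 1440138), (nat_lit 3346694), (nat_lit 8904197)]) PF.nil)) (PF.cons PF.nil (PF.cons PF.nil PF.nil)))))) (PF.cons (PF.cons (PF.cons (PF.leaf (nat_lit 5159330) (nat_lit 2366008) (nat_lit 49258247) (nat_lit 2366008) [(nat_lit 0), (nat_lit 0), (nat_lit 3283551), (nat_lit 8917455)]) (PF.cons (PF.leaf (nat_lit 5394985) (nat_lit 357271) (nat_lit 48865332) (nat_lit 2380061) [(nat_lit 357271), (nat_lit 0), (nat_lit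 3296977), (nat_lit 8912192)]) (PF.cons (PF.leaf (nat_lit 5640811) (nat_lit 365368) (nat_lit 48459898) (nat_lit 2393492) [(nat_lit 365368), (nat_lit 0), (nat_lit 3309703), (nat_lit 8905278)]) (PF.cons (PF.leaf (nat_lit
 5894616) (nat_lit 372750) (nat_lit 48044492) (nat_lit 2406196) [(nat_lit 372750), (nat_lit 0), (nat_lit 3321606), (nat_lit 8896659)]) (PF.cons PF.nil PF.nil))))) (PF.cons (PF.cons (PF.leaf (nat_lit 5846525) (nat_lit 1417410) (nat_lit 47752790) (nat_lit 2407576) [(nat_lit 0), (nat_lit 1417410), (nat_lit 3322974), (nat_lit 8885086)]) (PF.cons (PF.leaf (nat_lit 6095779) (nat_lit 375904) (nat_lit 47345615) (nat_lit 2418710) [(nat_lit 375904), (nat_lit 1428260), (nat_lit 3333066), (nat_lit 8874188)]) (PF.cons (PF.leaf (nat_lit 6352900) (nat_lit 382487) (nat_lit 46929965) (nat_lit 2429131) [(nat_lit 382487), (nat_lit 1438477), (nat_lit 3342331), (nat_lit 8861600)]) (PF.cons PF.nil PF.nil)))) (PF.cons (PF.cons (PF.leaf (nat_lit 6549756) (nat_lit 1446955)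 (nat_lit 46243720) (nat_lit 2438312) [(nat_lit 0), (nat_lit 1446955), (nat_lit 3349786), (nat_lit 8833296)]) (PF.cons PF.nil PF.nil)) (PF.cons PF.nil (PF.cons PF.nil PF.nil))))) (PF.cons (PF.cons (PF.cons (PF.leaf (nat_lit 6399863) (nat_lit 2425039) (nat_lit 45877042) (nat_lit 2425039) [(nat_lit 0), (nat_lit 0), (nat_lit 3335271), (nat_lit 8800916)]) (PF.cons (PF.leaf (nat_lit 6647966) (nat_lit 382456) (nat_lit 45482845) (nat_lit
 2433277) [(nat_lit 382456), (nat_lit 0), (nat_lit 3341835), (nat_lit 8784726)]) (PF.cons PF.nil (PF.cons PF.nil PF.nil)))) (PF.cons (PF.cons (PF.leaf (nat_lit 7091305) (nat_lit 1457459) (nat_lit 44424324) (nat_lit 2445916) [(nat_lit 0), (nat_lit 1457459), (nat_lit 3350005), (nat_lit 8731097)]) (PF.cons PF.nil PF.nil)) (PF.cons PF.nil PF.nil))) (PF.cons (PF.cons (PF.cons (PF.leaf (nat_lit 7610619) (nat_lit 2444788) (nat_lit 42693575) (nat_lit 2444788) [(nat_lit 0), (nat_lit 0), (nat_lit 3339359), (nat_lit 8613011)]) (PF.cons PF.nil PF.nil))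 (PF.cons PF.nil PF.nil)) (PF.cons PF.nil PF.nil)))))) (PF.cons (PF.cons (PF.cons (PF.cons (PF.leaf (nat_lit 4937652) (nat_lit 2288212) (nat_lit 47353187) (nat_lit 2288212) [(nat_lit 0), (nat_lit 0), (nat_lit 0), (nat_lit 8733706)]) (PF.cons (PF.leaf (nat_lit 5146424) (nat_lit 329140) (nat_lit 47021584) (nat_lit 2302870) [(nat_lit 329140), (nat_lit 0), (nat_lit 0), (nat_lit 8727608)]) (PF.cons (PF.leaf (nat_lit 5367954) (nat_lit 339012) (nat_lit 46673564) (nat_lit 2317062) [(nat_lit 339012), (nat_lit 0), (nat_lit 0), (nat_lit 8720080)]) (PF.cons (PF.leaf (nat_lit 5599405) (nat_lit 347871) (nat_lit 46312437) (nat_lit 2330617) [(nat_lit 347871),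
 (nat_lit 0), (nat_lit 0), (nat_lit 8711071)]) (PF.cons (PF.leaf (nat_lit 5839298) (nat_lit 355895) (nat_lit 45940703) (nat_lit 2343430) [(nat_lit 355895), (nat_lit 0), (nat_lit 0), (nat_lit 8700547)]) (PF.cons (PF.leaf (nat_lit 6086459) (nat_lit 363210) (nat_lit 45560344) (nat_lit 2355434) [(nat_lit 363210), (nat_lit 0), (nat_lit 0), (nat_lit 8688491)]) (PF.cons PF.nil (PF.cons PF.nil (PF.cons PF.nil PF.nil))))))))) (PF.cons (PF.cons (PF.leaf (nat_lit 5569193) (nat_lit 1360245) (nat_lit 46019107) (nat_lit 2332699) [(nat_lit 0), (nat_lit 1360245), (nat_lit 0), (nat_lit 8698380)]) (PF.cons (PF.leaf (nat_lit 5795752) (nat_lit 351478) (nat_lit 45665373) (nat_lit 2344552) [(nat_lit 351478), (nat_lit 1372384), (nat_lit 0), (nat_lit 8687511)]) (PF.cons (PF.leaf (nat_lit 6032084) (nat_lit 359304) (nat_lit 45300310) (nat_lit 2355773) [(nat_lit 359304), (nat_lit 1383861), (nat_lit 0), (nat_lit 8675129)]) (PF.cons (PF.leaf (nat_lit 6276026) (nat_lit 366396) (nat_lit 44926236)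 (nat_lit 2366278) [(nat_lit 366396), (nat_lit 1394639), (nat_lit 0), (nat_lit 8661234)]) (PF.cons (PF.leaf (nat_lit 6526468) (nat_lit 372860) (nat_lit 44544974) (nat_lit 2376020) [(nat_lit 372860), (nat_lit 1404706),
 (nat_lit 0), (nat_lit 8645834)]) (PF.cons PF.nil (PF.cons PF.nil PF.nil))))))) (PF.cons (PF.cons (PF.leaf (nat_lit 6225089) (nat_lit 1393693) (nat_lit 44662306) (nat_lit 2366206) [(nat_lit 0), (nat_lit 1393693), (nat_lit 0), (nat_lit 8646456)]) (PF.cons (PF.leaf (nat_lit 6464487) (nat_lit 369041) (nat_lit 44295835) (nat_lit 2375317) [(nat_lit 369041), (nat_lit 1403392), (nat_lit 0), (nat_lit 8630915)]) (PF.cons (PF.leaf (nat_lit 6711388) (nat_lit 375328) (nat_lit 43921711) (nat_lit 2383744) [(nat_lit 375328), (nat_lit 1412458), (nat_lit 0), (nat_lit 8613892)]) (PF.cons PF.nil (PF.cons PF.nil PF.nil))))) (PF.cons (PF.cons (PF.leaf (nat_lit 6895739) (nat_lit 1419099) (nat_lit 43303189) (nat_lit 2389882) [(nat_lit 0), (nat_lit 1419099), (nat_lit 0),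 (nat_lit 8579221)]) (PF.cons (PF.leaf (nat_lit 7144114) (nat_lit 382898) (nat_lit 42930871) (nat_lit 2396431) [(nat_lit 382898), (nat_lit 1426648), (nat_lit 0), (nat_lit 8559333)]) (PF.cons PF.nil (PF.cons PF.nil PF.nil)))) (PF.cons (PF.cons (PF.leaf (nat_lit 7573713) (nat_lit 1437642) (nat_lit 41956654) (nat_lit 2404870) [(nat_lit 0), (nat_lit 1437642), (nat_lit 0), (nat_lit 8498358)]) (PF.cons PF.nil PF.nil)) (PF.cons PF.nil
 PF.nil)))))) (PF.cons (PF.cons (PF.cons (PF.leaf (nat_lit 6095421) (nat_lit 2351645) (nat_lit 44285092) (nat_lit 2351645) [(nat_lit 0), (nat_lit 0), (nat_lit 3247107), (nat_lit 8612483)]) (PF.cons (PF.leaf (nat_lit 6322290) (nat_lit 358817) (nat_lit 43940591) (nat_lit 2360719) [(nat_lit 358817), (nat_lit 0), (nat_lit 3254206), (nat_lit 8597238)]) (PF.cons (PF.leaf (nat_lit 6558322) (nat_lit 366032) (nat_lit 43585904) (nat_lit 2369186) [(nat_lit 366032), (nat_lit 0), (nat_lit 3260639), (nat_lit 8580508)]) (PF.cons (PF.leaf (nat_lit 6801369)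 (nat_lit 372516) (nat_lit 43223267) (nat_lit 2376986) [(nat_lit 372516), (nat_lit 0), (nat_lit 3266342), (nat_lit 8562333)]) (PF.cons PF.nil PF.nil))))) (PF.cons (PF.cons (PF.leaf (nat_lit 6743858) (nat_lit 1405957) (nat_lit 42972862) (nat_lit 2375517) [(nat_lit 0), (nat_lit 1405957), (nat_lit 3264074), (nat_lit 8545200)]) (PF.cons (PF.leaf (nat_lit 6982053) (nat_lit 374328) (nat_lit 42618449) (nat_lit 2382149) [(nat_lit 374328), (nat_lit 1413880), (nat_lit 3268495), (nat_lit 8525754)]) (PF.cons (PF.leaf (nat_lit 7227244) (nat_lit 380060) (nat_lit 42257299) (nat_lit 2388146) [(nat_lit 380060), (nat_lit 1421210), (nat_lit 3272204), (nat_lit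
 8504915)]) (PF.cons PF.nil PF.nil)))) (PF.cons (PF.cons (PF.leaf (nat_lit 7403610) (nat_lit 1425503) (nat_lit 41665667) (nat_lit 2390883) [(nat_lit 0), (nat_lit 1425503), (nat_lit 3271552), (nat_lit 8464850)]) (PF.cons (PF.leaf (nat_lit 7649560) (nat_lit 386392) (nat_lit 41307519) (nat_lit 2395254) [(nat_lit 386392), (nat_lit 1431498), (nat_lit 3273445), (nat_lit 8441601)]) PF.nil)) (PF.cons PF.nil (PF.cons PF.nil PF.nil))))) (PF.cons (PF.cons (PF.cons (PF.leaf (nat_lit 7244134) (nat_lit 2376431) (nat_lit 41361201) (nat_lit 2376431) [(nat_lit 0), (nat_lit 0), (nat_lit 3255387), (nat_lit 8430202)]) (PF.cons (PF.leaf (nat_lit 7480437) (nat_lit 378000) (nat_lit 41019852) (nat_lit 2380972) [(nat_lit 378000), (nat_lit 0), (nat_lit 3257363), (nat_lit 8407630)]) (PF.cons (PF.leaf (nat_lit 7723236) (nat_lit 383238) (nat_lit 40672545) (nat_lit 2384925) [(nat_lit 383238), (nat_lit 0), (nat_lit 3258676), (nat_lit 8383755)]) (PF.cons PF.nil PF.nil)))) (PF.cons (PF.cons (PF.leaf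 (nat_lit 7891824) (nat_lit 1427150) (nat_lit 40108259) (nat_lit 2384871) [(nat_lit 0), (nat_lit 1427150), (nat_lit 3254694), (nat_lit 8339571)]) (PF.cons PF.nil PF.nil)) (PF.cons PF.nil PF.nil))) (PF.cons (PF.cons
 (PF.cons (PF.leaf (nat_lit 8360932) (nat_lit 2373183) (nat_lit 38629878) (nat_lit 2373183) [(nat_lit 0), (nat_lit 0), (nat_lit 3231019), (nat_lit 8206345)]) (PF.cons PF.nil PF.nil)) (PF.cons PF.nil PF.nil)) (PF.cons PF.nil PF.nil))))) (PF.cons (PF.cons (PF.cons (PF.cons (PF.leaf (nat_lit 6911428) (nat_lit 2305074) (nat_lit 40059527) (nat_lit 2305074) [(nat_lit 0), (nat_lit 0), (nat_lit 0), (nat_lit 8248070)]) (PF.cons (PF.leaf (nat_lit 7129011) (nat_lit 355099) (nat_lit 39759580) (nat_lit 2310861) [(nat_lit 355099), (nat_lit 0), (nat_lit 0), (nat_lit 8227757)]) (PF.cons (PF.leaf (nat_lit 7354971) (nat_lit 361615) (nat_lit 39451165) (nat_lit 2316074) [(nat_lit 361615), (nat_lit 0), (nat_lit 0), (nat_lit 8206113)]) (PF.cons (PF.leaf (nat_lit 7587190)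 (nat_lit 367405) (nat_lit 39136223) (nat_lit 2320680) [(nat_lit 367405), (nat_lit 0), (nat_lit 0), (nat_lit 8183231)]) (PF.cons PF.nil PF.nil))))) (PF.cons (PF.cons (PF.leaf (nat_lit 7523631) (nat_lit 1377949) (nat_lit 38921920) (nat_lit 2317578) [(nat_lit 0), (nat_lit 1377949), (nat_lit 0), (nat_lit 8163788)]) (PF.cons (PF.leaf (nat_lit 7750924) (nat_lit 368321) (nat_lit 38614579) (nat_lit 2321299) [(nat_lit 368321), (nat_lit 1383869),
 (nat_lit 0), (nat_lit 8140247)]) (PF.cons (PF.leaf (nat_lit 7984601) (nat_lit 373409) (nat_lit 38301703) (nat_lit 2324454) [(nat_lit 373409), (nat_lit 1389237), (nat_lit 0), (nat_lit 8115532)]) (PF.cons PF.nil PF.nil)))) (PF.cons (PF.cons (PF.leaf (nat_lit 8144259) (nat_lit 1390870) (nat_lit 37792345) (nat_lit 2323272) [(nat_lit 0), (nat_lit 1390870), (nat_lit 0), (nat_lit 8070484)]) (PF.cons PF.nil PF.nil)) PF.nil))) (PF.cons (PF.cons (PF.cons (PF.leaf (nat_lit 7980089) (nat_lit 2308746) (nat_lit 37538834) (nat_lit 2308746) [(nat_lit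 0), (nat_lit 0), (nat_lit 3151892), (nat_lit 8036446)]) (PF.cons (PF.leaf (nat_lit 8205177) (nat_lit 370150) (nat_lit 37243436) (nat_lit 2310923) [(nat_lit 370150), (nat_lit 0), (nat_lit 3151067), (nat_lit 8011078)]) (PF.cons PF.nil PF.nil))) (PF.cons (PF.cons (PF.leaf (nat_lit 8589106) (nat_lit 1387197) (nat_lit 36457778) (nat_lit 2309463) [(nat_lit 0), (nat_lit 1387197), (nat_lit 3142060), (nat_lit 7937437)]) PF.nil) PF.nil)) (PF.cons PF.nil PF.nil))) (PF.cons (PF.cons (PF.cons (PF.cons (PF.leaf (nat_lit 8632073) (nat_lit 2232479) (nat_lit 34289763) (nat_lit 2232479) [(nat_lit 0), (nat_lit 0), (nat_lit 0), (nat_lit 7646642)]) (PF.cons (PF.leaf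
 (nat_lit 8846766) (nat_lit 360555) (nat_lit 34033288) (nat_lit 2233127) [(nat_lit 360555), (nat_lit 0), (nat_lit 0), (nat_lit 7620460)]) PF.nil)) (PF.cons PF.nil PF.nil)) (PF.cons PF.nil PF.nil)) (PF.cons PF.nil (PF.cons PF.nil (PF.cons PF.nil (PF.cons PF.nil PF.nil)))))))))

def p13_10_0_0 : pfC (piC [(nat_lit 41997052), (nat_lit 26592602), (nat_lit 19805017), (nat_lit 13318063)] (nat_lit 27488723)) p13_10_0 (nat_lit 4) (nat_lit 0) (nat_lit 1) = true := by decide +kernel
def p13_10_0_1 : pfC (piC [(nat_lit 41997052), (nat_lit 26592602), (nat_lit 19805017), (nat_lit 13318063)] (nat_lit 27488723)) p13_10_0 (nat_lit 4) (nat_lit 1) (nat_lit 2) = true := by decide +kernel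
def p13_10_0_2 : pfC (piC [(nat_lit 41997052), (nat_lit 26592602), (nat_lit 19805017), (nat_lit 13318063)] (nat_lit 27488723)) p13_10_0 (nat_lit 4) (nat_lit 2) (nat_lit 3) = true := by decide +kernel
def p13_10_0_3 : pfC (piC [(nat_lit 41997052), (nat_lit 26592602), (nat_lit 19805017), (nat_lit 13318063)] (nat_lit 27488723)) p13_10_0 (nat_lit 4) (nat_lit 3) (nat_lit 4) = true := by decide +kernel
def p13_10_0_4 : pfC (piC [(nat_lit 41997052), (nat_lit 26592602), (nat_lit 19805017), (nat_lit 13318063)] (nat_lit 27488723)) p13_10_0 (nat_lit 4) (nat_lit 4) (nat_lit 5) = true := by decide +kernel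
def p13_10_0_5 : pfC (piC [(nat_lit 41997052), (nat_lit 26592602), (nat_lit 19805017), (nat_lit 13318063)] (nat_lit 27488723)) p13_10_0 (nat_lit 4) (nat_lit 5) (nat_lit 6) = true := by decide +kernel
def p13_10_0_6 : pfC (piC [(nat_lit 41997052), (nat_lit 26592602), (nat_lit 19805017), (nat_lit 13318063)] (nat_lit 27488723)) p13_10_0 (nat_lit 4) (nat_lit 6) (nat_lit 7) = true := by decide +kernel
def p13_10_0_7 : pfC (piC [(nat_lit 41997052), (nat_lit 26592602), (nat_lit 19805017), (nat_lit 13318063)] (nat_lit 27488723)) p13_10_0 (nat_lit 4) (nat_lit 7) (nat_lit 8) = true := by decide +kernel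
def p13_10_0_8 : pfC (piC [(nat_lit 41997052), (nat_lit 26592602), (nat_lit 19805017), (nat_lit 13318063)] (nat_lit 27488723)) p13_10_0 (nat_lit 4) (nat_lit 8) (nat_lit 9) = true := by decide +kernel
def p13_10_0_9 : pfC (piC [(nat_lit 41997052), (nat_lit 26592602), (nat_lit 19805017), (nat_lit 13318063)] (nat_lit 27488723)) p13_10_0 (nat_lit 4) (nat_lit 9) (nat_lit 10) = true := by decide +kernel
def p13_10_0_10 : pfC (piC [(nat_lit 41997052), (nat_lit 26592602), (nat_lit 19805017), (nat_lit 13318063)] (nat_lit 27488723)) p13_10_0 (nat_lit 4) (nat_lit 10) (nat_lit 11) = true := by decide +kernel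
def p13_10_0_11 : pfC (piC [(nat_lit 41997052), (nat_lit 26592602), (nat_lit 19805017), (nat_lit 13318063)] (nat_lit 27488723)) p13_10_0 (nat_lit 4) (nat_lit 11) (nat_lit 12) = true := by decide +kernel
def p13_10_0_12 : pfC (piC [(nat_lit 41997052), (nat_lit 26592602), (nat_lit 19805017), (nat_lit 13318063)] (nat_lit 27488723)) p13_10_0 (nat_lit 4) (nat_lit 12) (nat_lit 13) = true := by decide +kernel
def p13_10_0_13 : pfC (piC [(nat_lit 41997052), (nat_lit 26592602), (nat_lit 19805017), (nat_lit 13318063)] (nat_lit 27488723)) p13_10_0 (nat_lit 4) (nat_lit 13) (nat_lit 14) = true := by decide +kernel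
def p13_10_0_14 : pfC (piC [(nat_lit 41997052), (nat_lit 26592602), (nat_lit 19805017), (nat_lit 13318063)] (nat_lit 27488723)) p13_10_0 (nat_lit 4) (nat_lit 14) (nat_lit 15) = true := by decide +kernel
def p13_10_0_15 : pfC (piC [(nat_lit 41997052), (nat_lit 26592602), (nat_lit 19805017), (nat_lit 13318063)] (nat_lit 27488723)) p13_10_0 (nat_lit 4) (nat_lit 15) (nat_lit 16) = true := by decide +kernel
def p13_10_0_16 : pfC (piC [(nat_lit 41997052), (nat_lit 26592602), (nat_lit 19805017), (nat_lit 13318063)] (nat_lit 27488723)) p13_10_0 (nat_lit 4) (nat_lit 16) (nat_lit 17) = true := by decide +kernel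
def p13_10_0_17 : pfC (piC [(nat_lit 41997052), (nat_lit 26592602), (nat_lit 19805017), (nat_lit 13318063)] (nat_lit 27488723)) p13_10_0 (nat_lit 4) (nat_lit 17) (nat_lit 18) = true := by decide +kernel
def p13_10_0_18 : pfC (piC [(nat_lit 41997052), (nat_lit 26592602), (nat_lit 19805017), (nat_lit 13318063)] (nat_lit 27488723)) p13_10_0 (nat_lit 4) (nat_lit 18) (nat_lit 19) = true := by decide +kernel
def p13_10_0_19 : pfC (piC [(nat_lit 41997052), (nat_lit 26592602), (nat_lit 19805017), (nat_lit 13318063)] (nat_lit 27488723)) p13_10_0 (nat_lit 4) (nat_lit 19) (nat_lit 20) = true := by decide +kernel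
def p13_10_0_20 : pfC (piC [(nat_lit 41997052), (nat_lit 26592602), (nat_lit 19805017), (nat_lit 13318063)] (nat_lit 27488723)) p13_10_0 (nat_lit 4) (nat_lit 20) (nat_lit 21) = true := by decide +kernel
def p13_10_0_21 : pfC (piC [(nat_lit 41997052), (nat_lit 26592602), (nat_lit 19805017), (nat_lit 13318063)] (nat_lit 27488723)) p13_10_0 (nat_lit 4) (nat_lit 21) (nat_lit 22) = true := by decide +kernel
def p13_10_0_22 : pfC (piC [(nat_lit 41997052), (nat_lit 26592602), (nat_lit 19805017), (nat_lit 13318063)] (nat_lit 27488723)) p13_10_0 (nat_lit 4) (nat_lit 22) (nat_lit 23) = true := by decide +kernel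
def p13_10_0_23 : pfC (piC [(nat_lit 41997052), (nat_lit 26592602), (nat_lit 19805017), (nat_lit 13318063)] (nat_lit 27488723)) p13_10_0 (nat_lit 4) (nat_lit 23) (nat_lit 24) = true := by decide +kernel
def p13_10_0_24 : pfC (piC [(nat_lit 41997052), (nat_lit 26592602), (nat_lit 19805017), (nat_lit 13318063)] (nat_lit 27488723)) p13_10_0 (nat_lit 4) (nat_lit 24) (nat_lit 25) = true := by decide +kernel
def p13_10_0_25 : pfC (piC [(nat_lit 41997052), (nat_lit 26592602), (nat_lit 19805017), (nat_lit 13318063)] (nat_lit 27488723)) p13_10_0 (nat_lit 4) (nat_lit 25) (nat_lit 26) = true := by decide +kernel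
def p13_10_0_26 : pfC (piC [(nat_lit 41997052), (nat_lit 26592602), (nat_lit 19805017), (nat_lit 13318063)] (nat_lit 27488723)) p13_10_0 (nat_lit 4) (nat_lit 26) (nat_lit 27) = true := by decide +kernel
def p13_10_0_27 : pfC (piC [(nat_lit 41997052), (nat_lit 26592602), (nat_lit 19805017), (nat_lit 13318063)] (nat_lit 27488723)) p13_10_0 (nat_lit 4) (nat_lit 27) (nat_lit 28) = true := by decide +kernel
def p13_10_0_28 : pfC (piC [(nat_lit 41997052), (nat_lit 26592602), (nat_lit 19805017), (nat_lit 13318063)] (nat_lit 27488723)) p13_10_0 (nat_lit 4) (nat_lit 28) (nat_lit 29) = true := by decide +kernel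
def p13_10_0_29 : pfC (piC [(nat_lit 41997052), (nat_lit 26592602), (nat_lit 19805017), (nat_lit 13318063)] (nat_lit 27488723)) p13_10_0 (nat_lit 4) (nat_lit 29) (nat_lit 30) = true := by decide +kernel
def p13_10_0_30 : pfC (piC [(nat_lit 41997052), (nat_lit 26592602), (nat_lit 19805017), (nat_lit 13318063)] (nat_lit 27488723)) p13_10_0 (nat_lit 4) (nat_lit 30) (nat_lit 31) = true := by decide +kernel
def p13_10_0_31 : pfC (piC [(nat_lit 41997052), (nat_lit 26592602), (nat_lit 19805017), (nat_lit 13318063)] (nat_lit 27488723)) p13_10_0 (nat_lit 4) (nat_lit 31) (nat_lit 32) = true := by decide +kernel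
def p13_10_0_32 : pfC (piC [(nat_lit 41997052), (nat_lit 26592602), (nat_lit 19805017), (nat_lit 13318063)] (nat_lit 27488723)) p13_10_0 (nat_lit 4) (nat_lit 32) (nat_lit 33) = true := by decide +kernel
def p13_10_0_33 : pfC (piC [(nat_lit 41997052), (nat_lit 26592602), (nat_lit 19805017), (nat_lit 13318063)] (nat_lit 27488723)) p13_10_0 (nat_lit 4) (nat_lit 33) (nat_lit 34) = true := by decide +kernel
def p13_10_0_34 : pfC (piC [(nat_lit 41997052), (nat_lit 26592602), (nat_lit 19805017), (nat_lit 13318063)] (nat_lit 27488723)) p13_10_0 (nat_lit 4) (nat_lit 34) (nat_lit 35) = true := by decide +kernel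
def p13_10_0_35 : pfC (piC [(nat_lit 41997052), (nat_lit 26592602), (nat_lit 19805017), (nat_lit 13318063)] (nat_lit 27488723)) p13_10_0 (nat_lit 4) (nat_lit 35) (nat_lit 36) = true := by decide +kernel
def p13_10_0_36 : pfC (piC [(nat_lit 41997052), (nat_lit 26592602), (nat_lit 19805017), (nat_lit 13318063)] (nat_lit 27488723)) p13_10_0 (nat_lit 4) (nat_lit 36) (nat_lit 37) = true := by decide +kernel
def p13_10_0_37 : pfC (piC [(nat_lit 41997052), (nat_lit 26592602), (nat_lit 19805017), (nat_lit 13318063)] (nat_lit 27488723)) p13_10_0 (nat_lit 4) (nat_lit 37) (nat_lit 38) = true := by decide +kernel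
def p13_10_0_38 : pfC (piC [(nat_lit 41997052), (nat_lit 26592602), (nat_lit 19805017), (nat_lit 13318063)] (nat_lit 27488723)) p13_10_0 (nat_lit 4) (nat_lit 38) (nat_lit 39) = true := by decide +kernel
def p13_10_0_39 : pfC (piC [(nat_lit 41997052), (nat_lit 26592602), (nat_lit 19805017), (nat_lit 13318063)] (nat_lit 27488723)) p13_10_0 (nat_lit 4) (nat_lit 39) (nat_lit 40) = true := by decide +kernel
def p13_10_0_40 : pfC (piC [(nat_lit 41997052), (nat_lit 26592602), (nat_lit 19805017), (nat_lit 13318063)] (nat_lit 27488723)) p13_10_0 (nat_lit 4) (nat_lit 40) (nat_lit 41) = true := by decide +kernel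
def p13_10_0_41 : pfC (piC [(nat_lit 41997052), (nat_lit 26592602), (nat_lit 19805017), (nat_lit 13318063)] (nat_lit 27488723)) p13_10_0 (nat_lit 4) (nat_lit 41) (nat_lit 42) = true := by decide +kernel
def p13_10_0_42 : pfC (piC [(nat_lit 41997052), (nat_lit 26592602), (nat_lit 19805017), (nat_lit 13318063)] (nat_lit 27488723)) p13_10_0 (nat_lit 4) (nat_lit 42) (nat_lit 43) = true := by decide +kernel
def p13_10_0_43 : pfC (piC [(nat_lit 41997052), (nat_lit 26592602), (nat_lit 19805017), (nat_lit 13318063)] (nat_lit 27488723)) p13_10_0 (nat_lit 4) (nat_lit 43) (nat_lit 44) = true := by decide +kernel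
def p13_10_0_44 : pfC (piC [(nat_lit 41997052), (nat_lit 26592602), (nat_lit 19805017), (nat_lit 13318063)] (nat_lit 27488723)) p13_10_0 (nat_lit 4) (nat_lit 44) (nat_lit 45) = true := by decide +kernel
def p13_10_0_45 : pfC (piC [(nat_lit 41997052), (nat_lit 26592602), (nat_lit 19805017), (nat_lit 13318063)] (nat_lit 27488723)) p13_10_0 (nat_lit 4) (nat_lit 45) (nat_lit 46) = true := by decide +kernel
def p13_10_0_46 : pfC (piC [(nat_lit 41997052), (nat_lit 26592602), (nat_lit 19805017), (nat_lit 13318063)] (nat_lit 27488723)) p13_10_0 (nat_lit 4) (nat_lit 46) (nat_lit 47) = true := by decide +kernel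
def p13_10_0_47 : pfC (piC [(nat_lit 41997052), (nat_lit 26592602), (nat_lit 19805017), (nat_lit 13318063)] (nat_lit 27488723)) p13_10_0 (nat_lit 4) (nat_lit 47) (nat_lit 48) = true := by decide +kernel
def p13_10_0_48 : pfC (piC [(nat_lit 41997052), (nat_lit 26592602), (nat_lit 19805017), (nat_lit 13318063)] (nat_lit 27488723)) p13_10_0 (nat_lit 4) (nat_lit 48) (nat_lit 49) = true := by decide +kernel
def p13_10_0_49 : pfC (piC [(nat_lit 41997052), (nat_lit 26592602), (nat_lit 19805017), (nat_lit 13318063)] (nat_lit 27488723)) p13_10_0 (nat_lit 4) (nat_lit 49) (nat_lit 50) = true := by decide +kernel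
def p13_10_0_50 : pfC (piC [(nat_lit 41997052), (nat_lit 26592602), (nat_lit 19805017), (nat_lit 13318063)] (nat_lit 27488723)) p13_10_0 (nat_lit 4) (nat_lit 50) (nat_lit 51) = true := by decide +kernel
def p13_10_0_51 : pfC (piC [(nat_lit 41997052), (nat_lit 26592602), (nat_lit 19805017), (nat_lit 13318063)] (nat_lit 27488723)) p13_10_0 (nat_lit 4) (nat_lit 51) (nat_lit 52) = true := by decide +kernel
def p13_10_0_52 : pfC (piC [(nat_lit 41997052), (nat_lit 26592602), (nat_lit 19805017), (nat_lit 13318063)] (nat_lit 27488723)) p13_10_0 (nat_lit 4) (nat_lit 52) (nat_lit 53) = true := by decide +kernel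
def p13_10_0_53 : pfC (piC [(nat_lit 41997052), (nat_lit 26592602), (nat_lit 19805017), (nat_lit 13318063)] (nat_lit 27488723)) p13_10_0 (nat_lit 4) (nat_lit 53) (nat_lit 54) = true := by decide +kernel
def p13_10_0_54 : pfC (piC [(nat_lit 41997052), (nat_lit 26592602), (nat_lit 19805017), (nat_lit 13318063)] (nat_lit 27488723)) p13_10_0 (nat_lit 4) (nat_lit 54) (nat_lit 55) = true := by decide +kernel
def p13_10_0_55 : pfC (piC [(nat_lit 41997052), (nat_lit 26592602), (nat_lit 19805017), (nat_lit 13318063)] (nat_lit 27488723)) p13_10_0 (nat_lit 4) (nat_lit 55) (nat_lit 56) = true := by decide +kernel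
def p13_10_0_56 : pfC (piC [(nat_lit 41997052), (nat_lit 26592602), (nat_lit 19805017), (nat_lit 13318063)] (nat_lit 27488723)) p13_10_0 (nat_lit 4) (nat_lit 56) (nat_lit 57) = true := by decide +kernel
def p13_10_0_57 : pfC (piC [(nat_lit 41997052), (nat_lit 26592602), (nat_lit 19805017), (nat_lit 13318063)] (nat_lit 27488723)) p13_10_0 (nat_lit 4) (nat_lit 57) (nat_lit 58) = true := by decide +kernel
def p13_10_0_58 : pfC (piC [(nat_lit 41997052), (nat_lit 26592602), (nat_lit 19805017), (nat_lit 13318063)] (nat_lit 27488723)) p13_10_0 (nat_lit 4) (nat_lit 58) (nat_lit 59) = true := by decide +kernel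
def p13_10_0_59 : pfC (piC [(nat_lit 41997052), (nat_lit 26592602), (nat_lit 19805017), (nat_lit 13318063)] (nat_lit 27488723)) p13_10_0 (nat_lit 4) (nat_lit 59) (nat_lit 60) = true := by decide +kernel
def p13_10_0_60 : pfC (piC [(nat_lit 41997052), (nat_lit 26592602), (nat_lit 19805017), (nat_lit 13318063)] (nat_lit 27488723)) p13_10_0 (nat_lit 4) (nat_lit 60) (nat_lit 61) = true := by decide +kernel
def p13_10_0_61 : pfC (piC [(nat_lit 41997052), (nat_lit 26592602), (nat_lit 19805017), (nat_lit 13318063)] (nat_lit 27488723)) p13_10_0 (nat_lit 4) (nat_lit 61) (nat_lit 62) = true := by decide +kernel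
def p13_10_0_62 : pfC (piC [(nat_lit 41997052), (nat_lit 26592602), (nat_lit 19805017), (nat_lit 13318063)] (nat_lit 27488723)) p13_10_0 (nat_lit 4) (nat_lit 62) (nat_lit 63) = true := by decide +kernel
def p13_10_0_63 : pfC (piC [(nat_lit 41997052), (nat_lit 26592602), (nat_lit 19805017), (nat_lit 13318063)] (nat_lit 27488723)) p13_10_0 (nat_lit 4) (nat_lit 63) (nat_lit 64) = true := by decide +kernel
def p13_10_0_64 : pfC (piC [(nat_lit 41997052), (nat_lit 26592602), (nat_lit 19805017), (nat_lit 13318063)] (nat_lit 27488723)) p13_10_0 (nat_lit 4) (nat_lit 64) (nat_lit 65) = true := by decide +kernel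
def p13_10_0_65 : pfC (piC [(nat_lit 41997052), (nat_lit 26592602), (nat_lit 19805017), (nat_lit 13318063)] (nat_lit 27488723)) p13_10_0 (nat_lit 4) (nat_lit 65) (nat_lit 66) = true := by decide +kernel
def p13_10_0_66 : pfC (piC [(nat_lit 41997052), (nat_lit 26592602), (nat_lit 19805017), (nat_lit 13318063)] (nat_lit 27488723)) p13_10_0 (nat_lit 4) (nat_lit 66) (nat_lit 67) = true := by decide +kernel
def p13_10_0_67 : pfC (piC [(nat_lit 41997052), (nat_lit 26592602), (nat_lit 19805017), (nat_lit 13318063)] (nat_lit 27488723)) p13_10_0 (nat_lit 4) (nat_lit 67) (nat_lit 68) = true := by decide +kernel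
def p13_10_0_68 : pfC (piC [(nat_lit 41997052), (nat_lit 26592602), (nat_lit 19805017), (nat_lit 13318063)] (nat_lit 27488723)) p13_10_0 (nat_lit 4) (nat_lit 68) (nat_lit 69) = true := by decide +kernel
def p13_10_0_69 : pfC (piC [(nat_lit 41997052), (nat_lit 26592602), (nat_lit 19805017), (nat_lit 13318063)] (nat_lit 27488723)) p13_10_0 (nat_lit 4) (nat_lit 69) (nat_lit 70) = true := by decide +kernel
def p13_10_0_70 : pfC (piC [(nat_lit 41997052), (nat_lit 26592602), (nat_lit 19805017), (nat_lit 13318063)] (nat_lit 27488723)) p13_10_0 (nat_lit 4) (nat_lit 70) (nat_lit 71) = true := by decide +kernel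
def p13_10_0_71 : pfC (piC [(nat_lit 41997052), (nat_lit 26592602), (nat_lit 19805017), (nat_lit 13318063)] (nat_lit 27488723)) p13_10_0 (nat_lit 4) (nat_lit 71) (nat_lit 72) = true := by decide +kernel
def p13_10_0_72 : pfC (piC [(nat_lit 41997052), (nat_lit 26592602), (nat_lit 19805017), (nat_lit 13318063)] (nat_lit 27488723)) p13_10_0 (nat_lit 4) (nat_lit 72) (nat_lit 73) = true := by decide +kernel
def p13_10_0_73 : pfC (piC [(nat_lit 41997052), (nat_lit 26592602), (nat_lit 19805017), (nat_lit 13318063)] (nat_lit 27488723)) p13_10_0 (nat_lit 4) (nat_lit 73) (nat_lit 74) = true := by decide +kernel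
def p13_10_0_74 : pfC (piC [(nat_lit 41997052), (nat_lit 26592602), (nat_lit 19805017), (nat_lit 13318063)] (nat_lit 27488723)) p13_10_0 (nat_lit 4) (nat_lit 74) (nat_lit 75) = true := by decide +kernel
def p13_10_0_75 : pfC (piC [(nat_lit 41997052), (nat_lit 26592602), (nat_lit 19805017), (nat_lit 13318063)] (nat_lit 27488723)) p13_10_0 (nat_lit 4) (nat_lit 75) (nat_lit 76) = true := by decide +kernel
def p13_10_0_76 : pfC (piC [(nat_lit 41997052), (nat_lit 26592602), (nat_lit 19805017), (nat_lit 13318063)] (nat_lit 27488723)) p13_10_0 (nat_lit 4) (nat_lit 76) (nat_lit 77) = true := by decide +kernel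
def p13_10_0_77 : pfC (piC [(nat_lit 41997052), (nat_lit 26592602), (nat_lit 19805017), (nat_lit 13318063)] (nat_lit 27488723)) p13_10_0 (nat_lit 4) (nat_lit 77) (nat_lit 78) = true := by decide +kernel
def p13_10_0_78 : pfC (piC [(nat_lit 41997052), (nat_lit 26592602), (nat_lit 19805017), (nat_lit 13318063)] (nat_lit 27488723)) p13_10_0 (nat_lit 4) (nat_lit 78) (nat_lit 79) = true := by decide +kernel
def p13_10_0_79 : pfC (piC [(nat_lit 41997052), (nat_lit 26592602), (nat_lit 19805017), (nat_lit 13318063)] (nat_lit 27488723)) p13_10_0 (nat_lit 4) (nat_lit 79) (nat_lit 80) = true := by decide +kernel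
def p13_10_0_80 : pfC (piC [(nat_lit 41997052), (nat_lit 26592602), (nat_lit 19805017), (nat_lit 13318063)] (nat_lit 27488723)) p13_10_0 (nat_lit 4) (nat_lit 80) (nat_lit 81) = true := by decide +kernel
def p13_10_0_81 : pfC (piC [(nat_lit 41997052), (nat_lit 26592602), (nat_lit 19805017), (nat_lit 13318063)] (nat_lit 27488723)) p13_10_0 (nat_lit 4) (nat_lit 81) (nat_lit 82) = true := by decide +kernel
def p13_10_0_82 : pfC (piC [(nat_lit 41997052), (nat_lit 26592602), (nat_lit 19805017), (nat_lit 13318063)] (nat_lit 27488723)) p13_10_0 (nat_lit 4) (nat_lit 82) (nat_lit 83) = true := by decide +kernel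
def p13_10_0_83 : pfC (piC [(nat_lit 41997052), (nat_lit 26592602), (nat_lit 19805017), (nat_lit 13318063)] (nat_lit 27488723)) p13_10_0 (nat_lit 4) (nat_lit 83) (nat_lit 84) = true := by decide +kernel
def p13_10_0_84 : pfC (piC [(nat_lit 41997052), (nat_lit 26592602), (nat_lit 19805017), (nat_lit 13318063)] (nat_lit 27488723)) p13_10_0 (nat_lit 4) (nat_lit 84) (nat_lit 85) = true := by decide +kernel
def p13_10_0_85 : pfC (piC [(nat_lit 41997052), (nat_lit 26592602), (nat_lit 19805017), (nat_lit 13318063)] (nat_lit 27488723)) p13_10_0 (nat_lit 4) (nat_lit 85) (nat_lit 86) = true := by decide +kernel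
def p13_10_0_86 : pfC (piC [(nat_lit 41997052), (nat_lit 26592602), (nat_lit 19805017), (nat_lit 13318063)] (nat_lit 27488723)) p13_10_0 (nat_lit 4) (nat_lit 86) (nat_lit 87) = true := by decide +kernel
def p13_10_0_87 : pfC (piC [(nat_lit 41997052), (nat_lit 26592602), (nat_lit 19805017), (nat_lit 13318063)] (nat_lit 27488723)) p13_10_0 (nat_lit 4) (nat_lit 87) (nat_lit 88) = true := by decide +kernel
def p13_10_0_88 : pfC (piC [(nat_lit 41997052), (nat_lit 26592602), (nat_lit 19805017), (nat_lit 13318063)] (nat_lit 27488723)) p13_10_0 (nat_lit 4) (nat_lit 88) (nat_lit 89) = true := by decide +kernel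
def p13_10_0_89 : pfC (piC [(nat_lit 41997052), (nat_lit 26592602), (nat_lit 19805017), (nat_lit 13318063)] (nat_lit 27488723)) p13_10_0 (nat_lit 4) (nat_lit 89) (nat_lit 90) = true := by decide +kernel
def p13_10_0_90 : pfC (piC [(nat_lit 41997052), (nat_lit 26592602), (nat_lit 19805017), (nat_lit 13318063)] (nat_lit 27488723)) p13_10_0 (nat_lit 4) (nat_lit 90) (nat_lit 91) = true := by decide +kernel
def p13_10_0_91 : pfC (piC [(nat_lit 41997052), (nat_lit 26592602), (nat_lit 19805017), (nat_lit 13318063)] (nat_lit 27488723)) p13_10_0 (nat_lit 4) (nat_lit 91) (nat_lit 92) = true := by decide +kernel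
def p13_10_0_92 : pfC (piC [(nat_lit 41997052), (nat_lit 26592602), (nat_lit 19805017), (nat_lit 13318063)] (nat_lit 27488723)) p13_10_0 (nat_lit 4) (nat_lit 92) (nat_lit 93) = true := by decide +kernel
def p13_10_0_93 : pfC (piC [(nat_lit 41997052), (nat_lit 26592602), (nat_lit 19805017), (nat_lit 13318063)] (nat_lit 27488723)) p13_10_0 (nat_lit 4) (nat_lit 93) (nat_lit 94) = true := by decide +kernel
def p13_10_0_94 : pfC (piC [(nat_lit 41997052), (nat_lit 26592602), (nat_lit 19805017), (nat_lit 13318063)] (nat_lit 27488723)) p13_10_0 (nat_lit 4) (nat_lit 94) (nat_lit 95) = true := by decide +kernel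
def p13_10_0_95 : pfC (piC [(nat_lit 41997052), (nat_lit 26592602), (nat_lit 19805017), (nat_lit 13318063)] (nat_lit 27488723)) p13_10_0 (nat_lit 4) (nat_lit 95) (nat_lit 96) = true := by decide +kernel
def p13_10_0_96 : pfC (piC [(nat_lit 41997052), (nat_lit 26592602), (nat_lit 19805017), (nat_lit 13318063)] (nat_lit 27488723)) p13_10_0 (nat_lit 4) (nat_lit 96) (nat_lit 97) = true := by decide +kernel
def p13_10_0_97 : pfC (piC [(nat_lit 41997052), (nat_lit 26592602), (nat_lit 19805017), (nat_lit 13318063)] (nat_lit 27488723)) p13_10_0 (nat_lit 4) (nat_lit 97) (nat_lit 98) = true := by decide +kernel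
def p13_10_0_98 : pfC (piC [(nat_lit 41997052), (nat_lit 26592602), (nat_lit 19805017), (nat_lit 13318063)] (nat_lit 27488723)) p13_10_0 (nat_lit 4) (nat_lit 98) (nat_lit 99) = true := by decide +kernel
def p13_10_0_99 : pfC (piC [(nat_lit 41997052), (nat_lit 26592602), (nat_lit 19805017), (nat_lit 13318063)] (nat_lit 27488723)) p13_10_0 (nat_lit 4) (nat_lit 99) (nat_lit 100) = true := by decide +kernel
def p13_10_0_100 : pfC (piC [(nat_lit 41997052), (nat_lit 26592602), (nat_lit 19805017), (nat_lit 13318063)] (nat_lit 27488723)) p13_10_0 (nat_lit 4) (nat_lit 100) (nat_lit 101) = true := by decide +kernel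
def p13_10_0_101 : pfC (piC [(nat_lit 41997052), (nat_lit 26592602), (nat_lit 19805017), (nat_lit 13318063)] (nat_lit 27488723)) p13_10_0 (nat_lit 4) (nat_lit 101) (nat_lit 102) = true := by decide +kernel
def p13_10_0_102 : pfC (piC [(nat_lit 41997052), (nat_lit 26592602), (nat_lit 19805017), (nat_lit 13318063)] (nat_lit 27488723)) p13_10_0 (nat_lit 4) (nat_lit 102) (nat_lit 103) = true := by decide +kernel
def p13_10_0_103 : pfC (piC [(nat_lit 41997052), (nat_lit 26592602), (nat_lit 19805017), (nat_lit 13318063)] (nat_lit 27488723)) p13_10_0 (nat_lit 4) (nat_lit 103) (nat_lit 104) = true := by decide +kernel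
def p13_10_0_104 : pfC (piC [(nat_lit 41997052), (nat_lit 26592602), (nat_lit 19805017), (nat_lit 13318063)] (nat_lit 27488723)) p13_10_0 (nat_lit 4) (nat_lit 104) (nat_lit 105) = true := by decide +kernel
def p13_10_0_105 : pfC (piC [(nat_lit 41997052), (nat_lit 26592602), (nat_lit 19805017), (nat_lit 13318063)] (nat_lit 27488723)) p13_10_0 (nat_lit 4) (nat_lit 105) (nat_lit 106) = true := by decide +kernel
def p13_10_0_106 : pfC (piC [(nat_lit 41997052), (nat_lit 26592602), (nat_lit 19805017), (nat_lit 13318063)] (nat_lit 27488723)) p13_10_0 (nat_lit 4) (nat_lit 106) (nat_lit 107) = true := by decide +kernel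
def p13_10_0_107 : pfC (piC [(nat_lit 41997052), (nat_lit 26592602), (nat_lit 19805017), (nat_lit 13318063)] (nat_lit 27488723)) p13_10_0 (nat_lit 4) (nat_lit 107) (nat_lit 108) = true := by decide +kernel
def p13_10_0_108 : pfC (piC [(nat_lit 41997052), (nat_lit 26592602), (nat_lit 19805017), (nat_lit 13318063)] (nat_lit 27488723)) p13_10_0 (nat_lit 4) (nat_lit 108) (nat_lit 109) = true := by decide +kernel
def p13_10_0_109 : pfC (piC [(nat_lit 41997052), (nat_lit 26592602), (nat_lit 19805017), (nat_lit 13318063)] (nat_lit 27488723)) p13_10_0 (nat_lit 4) (nat_lit 109) (nat_lit 110) = true := by decide +kernel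
def p13_10_0_110 : pfC (piC [(nat_lit 41997052), (nat_lit 26592602), (nat_lit 19805017), (nat_lit 13318063)] (nat_lit 27488723)) p13_10_0 (nat_lit 4) (nat_lit 110) (nat_lit 111) = true := by decide +kernel
def p13_10_0_111 : pfC (piC [(nat_lit 41997052), (nat_lit 26592602), (nat_lit 19805017), (nat_lit 13318063)] (nat_lit 27488723)) p13_10_0 (nat_lit 4) (nat_lit 111) (nat_lit 112) = true := by decide +kernel
def p13_10_0_112 : pfC (piC [(nat_lit 41997052), (nat_lit 26592602), (nat_lit 19805017), (nat_lit 13318063)] (nat_lit 27488723)) p13_10_0 (nat_lit 4) (nat_lit 112) (nat_lit 113) = true := by decide +kernel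
def p13_10_0_113 : pfC (piC [(nat_lit 41997052), (nat_lit 26592602), (nat_lit 19805017), (nat_lit 13318063)] (nat_lit 27488723)) p13_10_0 (nat_lit 4) (nat_lit 113) (nat_lit 114) = true := by decide +kernel
def p13_10_0_114 : pfC (piC [(nat_lit 41997052), (nat_lit 26592602), (nat_lit 19805017), (nat_lit 13318063)] (nat_lit 27488723)) p13_10_0 (nat_lit 4) (nat_lit 114) (nat_lit 115) = true := by decide +kernel
def p13_10_0_115 : pfC (piC [(nat_lit 41997052), (nat_lit 26592602), (nat_lit 19805017), (nat_lit 13318063)] (nat_lit 27488723)) p13_10_0 (nat_lit 4) (nat_lit 115) (nat_lit 116) = true := by decide +kernel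
def p13_10_0_116 : pfC (piC [(nat_lit 41997052), (nat_lit 26592602), (nat_lit 19805017), (nat_lit 13318063)] (nat_lit 27488723)) p13_10_0 (nat_lit 4) (nat_lit 116) (nat_lit 117) = true := by decide +kernel
def p13_10_0_117 : pfC (piC [(nat_lit 41997052), (nat_lit 26592602), (nat_lit 19805017), (nat_lit 13318063)] (nat_lit 27488723)) p13_10_0 (nat_lit 4) (nat_lit 117) (nat_lit 118) = true := by decide +kernel
def p13_10_0_118 : pfC (piC [(nat_lit 41997052), (nat_lit 26592602), (nat_lit 19805017), (nat_lit 13318063)] (nat_lit 27488723)) p13_10_0 (nat_lit 4) (nat_lit 118) (nat_lit 119) = true := by decide +kernel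
def p13_10_0_119 : pfC (piC [(nat_lit 41997052), (nat_lit 26592602), (nat_lit 19805017), (nat_lit 13318063)] (nat_lit 27488723)) p13_10_0 (nat_lit 4) (nat_lit 119) (nat_lit 120) = true := by decide +kernel
def p13_10_0_120 : pfC (piC [(nat_lit 41997052), (nat_lit 26592602), (nat_lit 19805017), (nat_lit 13318063)] (nat_lit 27488723)) p13_10_0 (nat_lit 4) (nat_lit 120) (nat_lit 121) = true := by decide +kernel
def p13_10_0_121 : pfC (piC [(nat_lit 41997052), (nat_lit 26592602), (nat_lit 19805017), (nat_lit 13318063)] (nat_lit 27488723)) p13_10_0 (nat_lit 4) (nat_lit 121) (nat_lit 122) = true := by decide +kernel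
def p13_10_0_122 : pfC (piC [(nat_lit 41997052), (nat_lit 26592602), (nat_lit 19805017), (nat_lit 13318063)] (nat_lit 27488723)) p13_10_0 (nat_lit 4) (nat_lit 122) (nat_lit 123) = true := by decide +kernel
def p13_10_0_123 : pfC (piC [(nat_lit 41997052), (nat_lit 26592602), (nat_lit 19805017), (nat_lit 13318063)] (nat_lit 27488723)) p13_10_0 (nat_lit 4) (nat_lit 123) (nat_lit 124) = true := by decide +kernel
def p13_10_0_124 : pfC (piC [(nat_lit 41997052), (nat_lit 26592602), (nat_lit 19805017), (nat_lit 13318063)] (nat_lit 27488723)) p13_10_0 (nat_lit 4) (nat_lit 124) (nat_lit 125) = true := by decide +kernel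
def p13_10_0_125 : pfC (piC [(nat_lit 41997052), (nat_lit 26592602), (nat_lit 19805017), (nat_lit 13318063)] (nat_lit 27488723)) p13_10_0 (nat_lit 4) (nat_lit 125) (nat_lit 126) = true := by decide +kernel
def p13_10_0_126 : pfC (piC [(nat_lit 41997052), (nat_lit 26592602), (nat_lit 19805017), (nat_lit 13318063)] (nat_lit 27488723)) p13_10_0 (nat_lit 4) (nat_lit 126) (nat_lit 127) = true := by decide +kernel
def p13_10_0_127 : pfC (piC [(nat_lit 41997052), (nat_lit 26592602), (nat_lit 19805017), (nat_lit 13318063)] (nat_lit 27488723)) p13_10_0 (nat_lit 4) (nat_lit 127) (nat_lit 128) = true := by decide +kernel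
def p13_10_0_128 : pfC (piC [(nat_lit 41997052), (nat_lit 26592602), (nat_lit 19805017), (nat_lit 13318063)] (nat_lit 27488723)) p13_10_0 (nat_lit 4) (nat_lit 128) (nat_lit 129) = true := by decide +kernel
def p13_10_0_129 : pfC (piC [(nat_lit 41997052), (nat_lit 26592602), (nat_lit 19805017), (nat_lit 13318063)] (nat_lit 27488723)) p13_10_0 (nat_lit 4) (nat_lit 129) (nat_lit 130) = true := by decide +kernel
def p13_10_0_130 : pfC (piC [(nat_lit 41997052), (nat_lit 26592602), (nat_lit 19805017), (nat_lit 13318063)] (nat_lit 27488723)) p13_10_0 (nat_lit 4) (nat_lit 130) (nat_lit 131) = true := by decide +kernel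
def p13_10_0_131 : pfC (piC [(nat_lit 41997052), (nat_lit 26592602), (nat_lit 19805017), (nat_lit 13318063)] (nat_lit 27488723)) p13_10_0 (nat_lit 4) (nat_lit 131) (nat_lit 132) = true := by decide +kernel
def p13_10_0_132 : pfC (piC [(nat_lit 41997052), (nat_lit 26592602), (nat_lit 19805017), (nat_lit 13318063)] (nat_lit 27488723)) p13_10_0 (nat_lit 4) (nat_lit 132) (nat_lit 133) = true := by decide +kernel
def p13_10_0_133 : pfC (piC [(nat_lit 41997052), (nat_lit 26592602), (nat_lit 19805017), (nat_lit 13318063)] (nat_lit 27488723)) p13_10_0 (nat_lit 4) (nat_lit 133) (nat_lit 134) = true := by decide +kernel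
def p13_10_0_134 : pfC (piC [(nat_lit 41997052), (nat_lit 26592602), (nat_lit 19805017), (nat_lit 13318063)] (nat_lit 27488723)) p13_10_0 (nat_lit 4) (nat_lit 134) (nat_lit 135) = true := by decide +kernel
def p13_10_0_135 : pfC (piC [(nat_lit 41997052), (nat_lit 26592602), (nat_lit 19805017), (nat_lit 13318063)] (nat_lit 27488723)) p13_10_0 (nat_lit 4) (nat_lit 135) (nat_lit 136) = true := by decide +kernel
def p13_10_0_136 : pfC (piC [(nat_lit 41997052), (nat_lit 26592602), (nat_lit 19805017), (nat_lit 13318063)] (nat_lit 27488723)) p13_10_0 (nat_lit 4) (nat_lit 136) (nat_lit 137) = true := by decide +kernel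
def p13_10_0_137 : pfC (piC [(nat_lit 41997052), (nat_lit 26592602), (nat_lit 19805017), (nat_lit 13318063)] (nat_lit 27488723)) p13_10_0 (nat_lit 4) (nat_lit 137) (nat_lit 138) = true := by decide +kernel
def p13_10_0_138 : pfC (piC [(nat_lit 41997052), (nat_lit 26592602), (nat_lit 19805017), (nat_lit 13318063)] (nat_lit 27488723)) p13_10_0 (nat_lit 4) (nat_lit 138) (nat_lit 139) = true := by decide +kernel
def p13_10_0_139 : pfC (piC [(nat_lit 41997052), (nat_lit 26592602), (nat_lit 19805017), (nat_lit 13318063)] (nat_lit 27488723)) p13_10_0 (nat_lit 4) (nat_lit 139) (nat_lit 140) = true := by decide +kernel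
def p13_10_0_140 : pfC (piC [(nat_lit 41997052), (nat_lit 26592602), (nat_lit 19805017), (nat_lit 13318063)] (nat_lit 27488723)) p13_10_0 (nat_lit 4) (nat_lit 140) (nat_lit 141) = true := by decide +kernel
def p13_10_0_141 : pfC (piC [(nat_lit 41997052), (nat_lit 26592602), (nat_lit 19805017), (nat_lit 13318063)] (nat_lit 27488723)) p13_10_0 (nat_lit 4) (nat_lit 141) (nat_lit 142) = true := by decide +kernel
def p13_10_0_142 : pfC (piC [(nat_lit 41997052), (nat_lit 26592602), (nat_lit 19805017), (nat_lit 13318063)] (nat_lit 27488723)) p13_10_0 (nat_lit 4) (nat_lit 142) (nat_lit 143) = true := by decide +kernel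
def p13_10_0_143 : pfC (piC [(nat_lit 41997052), (nat_lit 26592602), (nat_lit 19805017), (nat_lit 13318063)] (nat_lit 27488723)) p13_10_0 (nat_lit 4) (nat_lit 143) (nat_lit 144) = true := by decide +kernel
def p13_10_0_144 : pfC (piC [(nat_lit 41997052), (nat_lit 26592602), (nat_lit 19805017), (nat_lit 13318063)] (nat_lit 27488723)) p13_10_0 (nat_lit 4) (nat_lit 144) (nat_lit 145) = true := by decide +kernel
def p13_10_0_145 : pfC (piC [(nat_lit 41997052), (nat_lit 26592602), (nat_lit 19805017), (nat_lit 13318063)] (nat_lit 27488723)) p13_10_0 (nat_lit 4) (nat_lit 145) (nat_lit 146) = true := by decide +kernel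
def p13_10_0_146 : pfC (piC [(nat_lit 41997052), (nat_lit 26592602), (nat_lit 19805017), (nat_lit 13318063)] (nat_lit 27488723)) p13_10_0 (nat_lit 4) (nat_lit 146) (nat_lit 147) = true := by decide +kernel
def p13_10_0_147 : pfC (piC [(nat_lit 41997052), (nat_lit 26592602), (nat_lit 19805017), (nat_lit 13318063)] (nat_lit 27488723)) p13_10_0 (nat_lit 4) (nat_lit 147) (nat_lit 148) = true := by decide +kernel
def p13_10_0_148 : pfC (piC [(nat_lit 41997052), (nat_lit 26592602), (nat_lit 19805017), (nat_lit 13318063)] (nat_lit 27488723)) p13_10_0 (nat_lit 4) (nat_lit 148) (nat_lit 149) = true := by decide +kernel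
def p13_10_0_149 : pfC (piC [(nat_lit 41997052), (nat_lit 26592602), (nat_lit 19805017), (nat_lit 13318063)] (nat_lit 27488723)) p13_10_0 (nat_lit 4) (nat_lit 149) (nat_lit 150) = true := by decide +kernel
def p13_10_0_150 : pfC (piC [(nat_lit 41997052), (nat_lit 26592602), (nat_lit 19805017), (nat_lit 13318063)] (nat_lit 27488723)) p13_10_0 (nat_lit 4) (nat_lit 150) (nat_lit 151) = true := by decide +kernel
def p13_10_0_151 : pfC (piC [(nat_lit 41997052), (nat_lit 26592602), (nat_lit 19805017), (nat_lit 13318063)] (nat_lit 27488723)) p13_10_0 (nat_lit 4) (nat_lit 151) (nat_lit 152) = true := by decide +kernel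
def p13_10_0_152 : pfC (piC [(nat_lit 41997052), (nat_lit 26592602), (nat_lit 19805017), (nat_lit 13318063)] (nat_lit 27488723)) p13_10_0 (nat_lit 4) (nat_lit 152) (nat_lit 153) = true := by decide +kernel
def p13_10_0_153 : pfC (piC [(nat_lit 41997052), (nat_lit 26592602), (nat_lit 19805017), (nat_lit 13318063)] (nat_lit 27488723)) p13_10_0 (nat_lit 4) (nat_lit 153) (nat_lit 154) = true := by decide +kernel
def p13_10_0_154 : pfC (piC [(nat_lit 41997052), (nat_lit 26592602), (nat_lit 19805017), (nat_lit 13318063)] (nat_lit 27488723)) p13_10_0 (nat_lit 4) (nat_lit 154) (nat_lit 155) = true := by decide +kernel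
def p13_10_0_155 : pfC (piC [(nat_lit 41997052), (nat_lit 26592602), (nat_lit 19805017), (nat_lit 13318063)] (nat_lit 27488723)) p13_10_0 (nat_lit 4) (nat_lit 155) (nat_lit 156) = true := by decide +kernel
def p13_10_0_156 : pfC (piC [(nat_lit 41997052), (nat_lit 26592602), (nat_lit 19805017), (nat_lit 13318063)] (nat_lit 27488723)) p13_10_0 (nat_lit 4) (nat_lit 156) (nat_lit 157) = true := by decide +kernel
theorem p13_10_0_T : PfS (PiF n13_10.reverse (nat_lit 27488723)) p13_10_0 (nat_lit 4) [] 0 :=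
  pftab_of (los := [(nat_lit 41997052), (nat_lit 26592602), (nat_lit 19805017), (nat_lit 13318063)]) (by decide +kernel) (hi := (nat_lit 157)) (PfP.trans (PfP.trans (PfP.trans (PfP.trans (PfP.trans (PfP.trans (PfP.trans (PfP.trans (PfP.trans (PfP.trans (PfP.trans (PfP.trans (PfP.trans (PfP.trans (PfP.trans (PfP.trans (PfP.trans (PfP.trans (PfP.trans (PfP.trans (PfP.trans (PfP.trans (PfP.trans (PfP.trans (PfP.trans (PfP.trans (PfP.trans (PfP.trans (PfP.trans (PfP.trans (PfP.trans (PfP.trans (PfP.trans (PfP.trans (PfP.trans (PfP.trans (PfP.trans (PfP.trans (PfP.trans (PfP.trans (PfP.trans (PfP.trans (PfP.trans (PfP.trans (PfP.trans (PfP.trans (PfP.trans (PfP.trans (PfP.trans (PfP.trans (PfP.trans (PfP.trans (PfP.trans (PfP.trans (PfP.trans (PfP.trans (PfP.trans (PfP.trans (PfP.trans (PfP.trans (PfP.trans (PfP.trans (PfP.trans (PfP.trans (PfP.trans (PfP.trans (PfP.trans (PfP.trans (PfP.trans (PfP.trans (PfP.trans (PfP.trans (PfP.trans (PfP.trans (PfP.trans (PfP.trans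 (PfP.trans (PfP.trans (PfP.trans (PfP.trans (PfP.trans (PfP.trans (PfP.trans (PfP.trans (PfP.trans (PfP.trans (PfP.trans (PfP.trans (PfP.trans (PfP.trans (PfP.trans (PfP.trans (PfP.trans (PfP.trans (PfP.trans (PfP.trans (PfP.trans (PfP.trans (PfP.trans (PfP.trans (PfP.trans (PfP.trans (PfP.trans (PfP.trans (PfP.trans (PfP.trans (PfP.trans (PfP.trans (PfP.trans
 (PfP.trans (PfP.trans (PfP.trans (PfP.trans (PfP.trans (PfP.trans (PfP.trans (PfP.trans (PfP.trans (PfP.trans (PfP.trans (PfP.trans (PfP.trans (PfP.trans (PfP.trans (PfP.trans (PfP.trans (PfP.trans (PfP.trans (PfP.trans (PfP.trans (PfP.trans (PfP.trans (PfP.trans (PfP.trans (PfP.trans (PfP.trans (PfP.trans (PfP.trans (PfP.trans (PfP.trans (PfP.trans (PfP.trans (PfP.trans (PfP.trans (PfP.trans (PfP.trans (PfP.trans (PfP.trans (PfP.trans (PfP.trans (PfP.trans (PfP.trans (PfP.trans (PfP.trans (PfP.trans (PfP.trans (pfC_sound p13_10_0_0) (pfC_sound p13_10_0_1)) (pfC_sound p13_10_0_2)) (pfC_sound p13_10_0_3))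 (pfC_sound p13_10_0_4)) (pfC_sound p13_10_0_5)) (pfC_sound p13_10_0_6)) (pfC_sound p13_10_0_7)) (pfC_sound p13_10_0_8)) (pfC_sound p13_10_0_9)) (pfC_sound p13_10_0_10)) (pfC_sound p13_10_0_11)) (pfC_sound p13_10_0_12)) (pfC_sound p13_10_0_13)) (pfC_sound p13_10_0_14)) (pfC_sound p13_10_0_15)) (pfC_sound p13_10_0_16)) (pfC_sound p13_10_0_17)) (pfC_sound p13_10_0_18)) (pfC_sound p13_10_0_19)) (pfC_sound p13_10_0_20)) (pfC_sound p13_10_0_21)) (pfC_sound p13_10_0_22)) (pfC_sound p13_10_0_23)) (pfC_sound p13_10_0_24)) (pfC_sound p13_10_0_25)) (pfC_sound p13_10_0_26)) (pfC_sound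
 p13_10_0_27)) (pfC_sound p13_10_0_28)) (pfC_sound p13_10_0_29)) (pfC_sound p13_10_0_30)) (pfC_sound p13_10_0_31)) (pfC_sound p13_10_0_32)) (pfC_sound p13_10_0_33)) (pfC_sound p13_10_0_34)) (pfC_sound p13_10_0_35)) (pfC_sound p13_10_0_36)) (pfC_sound p13_10_0_37)) (pfC_sound p13_10_0_38)) (pfC_sound p13_10_0_39)) (pfC_sound p13_10_0_40)) (pfC_sound p13_10_0_41)) (pfC_sound p13_10_0_42)) (pfC_sound p13_10_0_43)) (pfC_sound p13_10_0_44)) (pfC_sound p13_10_0_45)) (pfC_sound p13_10_0_46)) (pfC_sound p13_10_0_47)) (pfC_sound p13_10_0_48)) (pfC_sound p13_10_0_49)) (pfC_sound p13_10_0_50)) (pfC_sound p13_10_0_51)) (pfC_sound p13_10_0_52)) (pfC_sound p13_10_0_53)) (pfC_sound p13_10_0_54)) (pfC_sound p13_10_0_55)) (pfC_sound p13_10_0_56)) (pfC_sound p13_10_0_57)) (pfC_sound p13_10_0_58)) (pfC_sound p13_10_0_59)) (pfC_sound p13_10_0_60)) (pfC_sound p13_10_0_61)) (pfC_sound p13_10_0_62)) (pfC_sound p13_10_0_63)) (pfC_sound p13_10_0_64)) (pfC_sound p13_10_0_65)) (pfC_sound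 p13_10_0_66)) (pfC_sound p13_10_0_67)) (pfC_sound p13_10_0_68)) (pfC_sound p13_10_0_69)) (pfC_sound p13_10_0_70)) (pfC_sound p13_10_0_71)) (pfC_sound p13_10_0_72)) (pfC_sound p13_10_0_73)) (pfC_sound p13_10_0_74)) (pfC_sound
 p13_10_0_75)) (pfC_sound p13_10_0_76)) (pfC_sound p13_10_0_77)) (pfC_sound p13_10_0_78)) (pfC_sound p13_10_0_79)) (pfC_sound p13_10_0_80)) (pfC_sound p13_10_0_81)) (pfC_sound p13_10_0_82)) (pfC_sound p13_10_0_83)) (pfC_sound p13_10_0_84)) (pfC_sound p13_10_0_85)) (pfC_sound p13_10_0_86)) (pfC_sound p13_10_0_87)) (pfC_sound p13_10_0_88)) (pfC_sound p13_10_0_89)) (pfC_sound p13_10_0_90)) (pfC_sound p13_10_0_91)) (pfC_sound p13_10_0_92)) (pfC_sound p13_10_0_93)) (pfC_sound p13_10_0_94)) (pfC_sound p13_10_0_95)) (pfC_sound p13_10_0_96)) (pfC_sound p13_10_0_97)) (pfC_sound p13_10_0_98)) (pfC_sound p13_10_0_99)) (pfC_sound p13_10_0_100)) (pfC_sound p13_10_0_101)) (pfC_sound p13_10_0_102)) (pfC_sound p13_10_0_103)) (pfC_sound p13_10_0_104)) (pfC_sound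 p13_10_0_105)) (pfC_sound p13_10_0_106)) (pfC_sound p13_10_0_107)) (pfC_sound p13_10_0_108)) (pfC_sound p13_10_0_109)) (pfC_sound p13_10_0_110)) (pfC_sound p13_10_0_111)) (pfC_sound p13_10_0_112)) (pfC_sound p13_10_0_113)) (pfC_sound p13_10_0_114)) (pfC_sound p13_10_0_115)) (pfC_sound p13_10_0_116)) (pfC_sound p13_10_0_117)) (pfC_sound p13_10_0_118)) (pfC_sound p13_10_0_119)) (pfC_sound p13_10_0_120)) (pfC_sound p13_10_0_121)) (pfC_sound
 p13_10_0_122)) (pfC_sound p13_10_0_123)) (pfC_sound p13_10_0_124)) (pfC_sound p13_10_0_125)) (pfC_sound p13_10_0_126)) (pfC_sound p13_10_0_127)) (pfC_sound p13_10_0_128)) (pfC_sound p13_10_0_129)) (pfC_sound p13_10_0_130)) (pfC_sound p13_10_0_131)) (pfC_sound p13_10_0_132)) (pfC_sound p13_10_0_133)) (pfC_sound p13_10_0_134)) (pfC_sound p13_10_0_135)) (pfC_sound p13_10_0_136)) (pfC_sound p13_10_0_137)) (pfC_sound p13_10_0_138)) (pfC_sound p13_10_0_139)) (pfC_sound p13_10_0_140)) (pfC_sound p13_10_0_141)) (pfC_sound p13_10_0_142))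 (pfC_sound p13_10_0_143)) (pfC_sound p13_10_0_144)) (pfC_sound p13_10_0_145)) (pfC_sound p13_10_0_146)) (pfC_sound p13_10_0_147)) (pfC_sound p13_10_0_148)) (pfC_sound p13_10_0_149)) (pfC_sound p13_10_0_150)) (pfC_sound p13_10_0_151)) (pfC_sound p13_10_0_152)) (pfC_sound p13_10_0_153)) (pfC_sound p13_10_0_154)) (pfC_sound p13_10_0_155)) (pfC_sound p13_10_0_156)) (by decide +kernel)

def z13_10_0 : zOK yB13_10 (nat_lit 0) (nat_lit 0) (nat_lit 400) (nat_lit 27488723) (nat_lit 10555529) = true := by decide +kernel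
def g13_10_0 : gOK yB13_10.x P13_10 (nat_lit 1426) (q13_10 :: r13_10) (nat_lit 0) (nat_lit 0) (nat_lit 1) (nat_lit 400) (nat_lit 0) (nat_lit 11000000) (nat_lit 12712500) (nat_lit 12712500) [(nat_lit 800), (nat_lit 1400), (nat_lit 1530)] = true := by decide +kernel
def v13_10_0 : ivC P13_10 s13_10 w13_10 n13_10 (nat_lit 4) (nat_lit 5460) (nat_lit 0) (nat_lit 0) f144_1_0 f152_1_0 (nat_lit 1) (nat_lit 400) f144_1_400 f152_1_400 (nat_lit 27488723) (nat_lit 10555529) p13_10_0 = true := by decide +kernel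
def p13_10_1 : PF := (PF.cons (PF.cons (PF.cons (PF.cons (PF.leaf (nat_lit 2086880) (nat_lit 9861433) (nat_lit 57247379) (nat_lit 9861433) [(nat_lit 0), (nat_lit 0), (nat_lit 0), (nat_lit 0)]) (PF.cons (PF.leaf (nat_lit 2213496) (nat_lit 207258) (nat_lit 57022581) (nat_lit 9878973) [(nat_lit 207258), (nat_lit 0), (nat_lit 0), (nat_lit 0)]) (PF.cons (PF.leaf (nat_lit 2365479) (nat_lit 225803) (nat_lit 56758828) (nat_lit 9898377) [(nat_lit 225803), (nat_lit 0), (nat_lit 0), (nat_lit 0)]) (PF.cons (PF.leaf (nat_lit 2536669) (nat_lit 242421) (nat_lit 56462845) (nat_lit 9918703) [(nat_lit 242421), (nat_lit 0), (nat_lit 0), (nat_lit 0)]) (PF.cons (PF.leaf (nat_lit 2724570) (nat_lit 257559) (nat_lit 56139345) (nat_lit 9939228) [(nat_lit 257559), (nat_lit 0), (nat_lit 0), (nat_lit 0)]) (PF.cons (PF.leaf (nat_lit 2927282) (nat_lit 271500) (nat_lit 55791934) (nat_lit 9959375) [(nat_lit 271500), (nat_lit 0), (nat_lit 0), (nat_lit 0)]) (PF.cons (PF.leaf (nat_lit 3143243)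 (nat_lit 284435) (nat_lit 55423531) (nat_lit 9978669) [(nat_lit 284435), (nat_lit 0), (nat_lit 0), (nat_lit 0)]) (PF.cons PF.nil (PF.cons PF.nil PF.nil))))))))) (PF.cons (PF.cons (PF.leaf (nat_lit 2587986) (nat_lit 1104869) (nat_lit 56065557)
 (nat_lit 9938386) [(nat_lit 0), (nat_lit 1104869), (nat_lit 0), (nat_lit 0)]) (PF.cons (PF.leaf (nat_lit 2756265) (nat_lit 254559) (nat_lit 55767297) (nat_lit 9955396) [(nat_lit 254559), (nat_lit 1131559), (nat_lit 0), (nat_lit 0)]) (PF.cons (PF.leaf (nat_lit 2943756) (nat_lit 269078) (nat_lit 55440015) (nat_lit 9972470) [(nat_lit 269078), (nat_lit 1158169), (nat_lit 0), (nat_lit 0)]) (PF.cons (PF.leaf (nat_lit 3146635) (nat_lit 282388) (nat_lit 55088376) (nat_lit 9989017) [(nat_lit 282388), (nat_lit 1184252), (nat_lit 0), (nat_lit 0)]) (PF.cons (PF.leaf (nat_lit 3362904) (nat_lit 294705) (nat_lit 54715851) (nat_lit 10004579) [(nat_lit 294705), (nat_lit 1209560), (nat_lit 0), (nat_lit 0)]) (PF.cons PF.nil (PF.cons PF.nil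 PF.nil))))))) (PF.cons (PF.cons (PF.leaf (nat_lit 3168232) (nat_lit 1194910) (nat_lit 54719870) (nat_lit 9999121) [(nat_lit 0), (nat_lit 1194910), (nat_lit 0), (nat_lit 0)]) (PF.cons (PF.leaf (nat_lit 3368344) (nat_lit 291907) (nat_lit 54368483) (nat_lit 10012000) [(nat_lit 291907), (nat_lit 1218210), (nat_lit 0), (nat_lit 0)]) (PF.cons (PF.leaf (nat_lit 3583716) (nat_lit 303781) (nat_lit 53995378) (nat_lit 10023828) [(nat_lit 303781), (nat_lit 1241021), (nat_lit
 0), (nat_lit 0)]) (PF.cons (PF.leaf (nat_lit 3811331) (nat_lit 314785) (nat_lit 53603938) (nat_lit 10034253) [(nat_lit 314785), (nat_lit 1263132), (nat_lit 0), (nat_lit 0)]) (PF.cons PF.nil PF.nil))))) (PF.cons (PF.cons (PF.leaf (nat_lit 3807134) (nat_lit 1269644) (nat_lit 53263391) (nat_lit 10036488) [(nat_lit 0), (nat_lit 1269644), (nat_lit 0), (nat_lit 0)]) (PF.cons (PF.leaf (nat_lit 4031956) (nat_lit 322402) (nat_lit 52874217) (nat_lit 10043237) [(nat_lit 322402), (nat_lit 1289651), (nat_lit 0),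 (nat_lit 0)]) (PF.cons (PF.leaf (nat_lit 4268903) (nat_lit 332288) (nat_lit 52468932) (nat_lit 10048301) [(nat_lit 332288), (nat_lit 1309001), (nat_lit 0), (nat_lit 0)]) (PF.cons PF.nil PF.nil)))) (PF.cons (PF.cons (PF.leaf (nat_lit 4488852) (nat_lit 1331316) (nat_lit 51736083) (nat_lit 10047461) [(nat_lit 0), (nat_lit 1331316), (nat_lit 0), (nat_lit 0)]) (PF.cons PF.nil PF.nil)) (PF.cons PF.nil PF.nil)))))) (PF.cons (PF.cons (PF.cons (PF.leaf (nat_lit 3149242) (nat_lit 3028247) (nat_lit 54087227) (nat_lit 9993337) [(nat_lit 0), (nat_lit 0), (nat_lit 3028247), (nat_lit 0)]) (PF.cons (PF.leaf (nat_lit 3327605) (nat_lit 276663) (nat_lit 53775867) (nat_lit 10002634) [(nat_lit 276663),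
 (nat_lit 0), (nat_lit 3053648), (nat_lit 0)]) (PF.cons (PF.leaf (nat_lit 3524559) (nat_lit 290502) (nat_lit 53436862) (nat_lit 10011299) [(nat_lit 290502), (nat_lit 0), (nat_lit 3079645), (nat_lit 0)]) (PF.cons (PF.leaf (nat_lit 3735941) (nat_lit 302999) (nat_lit 53075257) (nat_lit 10018917) [(nat_lit 302999), (nat_lit 0), (nat_lit 3105639), (nat_lit 0)]) (PF.cons (PF.leaf (nat_lit 3959946) (nat_lit 314423) (nat_lit 52694730) (nat_lit 10025168) [(nat_lit 314423), (nat_lit 0), (nat_lit 3131220), (nat_lit 0)]) (PF.cons PF.nil (PF.cons PF.nil PF.nil))))))) (PF.cons (PF.cons (PF.leaf (nat_lit 3747758) (nat_lit 1257593) (nat_lit 52710461) (nat_lit 10019860) [(nat_lit 0), (nat_lit 1257593), (nat_lit 3120896), (nat_lit 0)]) (PF.cons (PF.leaf (nat_lit 3955198) (nat_lit 310550) (nat_lit 52352718) (nat_lit 10024204) [(nat_lit 310550), (nat_lit 1277490), (nat_lit 3143848), (nat_lit 0)]) (PF.cons (PF.leaf (nat_lit 4176991) (nat_lit 321641) (nat_lit 51974989) (nat_lit 10027144)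 [(nat_lit 321641), (nat_lit 1296854), (nat_lit 3166541), (nat_lit 0)]) (PF.cons (PF.leaf (nat_lit 4410150) (nat_lit 331803) (nat_lit 51580771) (nat_lit 10028452) [(nat_lit 331803), (nat_lit 1315523), (nat_lit 3188654),
 (nat_lit 0)]) (PF.cons PF.nil PF.nil))))) (PF.cons (PF.cons (PF.leaf (nat_lit 4396090) (nat_lit 1319517) (nat_lit 51248525) (nat_lit 10023244) [(nat_lit 0), (nat_lit 1319517), (nat_lit 3198008), (nat_lit 0)]) (PF.cons (PF.leaf (nat_lit 4625513) (nat_lit 337792) (nat_lit 50859306) (nat_lit 10021409) [(nat_lit 337792), (nat_lit 1336403), (nat_lit 3217496), (nat_lit 0)]) (PF.cons PF.nil (PF.cons PF.nil PF.nil)))) (PF.cons (PF.cons (PF.leaf (nat_lit 5079503) (nat_lit 1369996) (nat_lit 49737197) (nat_lit 10002317) [(nat_lit 0), (nat_lit 1369996), (nat_lit 3259309), (nat_lit 0)]) (PF.cons PF.nil PF.nil)) (PF.cons PF.nil PF.nil))))) (PF.cons (PF.cons (PF.cons (PF.leaf (nat_lit 4319700) (nat_lit 3190635) (nat_lit 50730365) (nat_lit 9997176) [(nat_lit 0),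 (nat_lit 0), (nat_lit 3190635), (nat_lit 0)]) (PF.cons (PF.leaf (nat_lit 4532193) (nat_lit 325666) (nat_lit 50372011) (nat_lit 9993997) [(nat_lit 325666), (nat_lit 0), (nat_lit 3208568), (nat_lit 0)]) (PF.cons (PF.leaf (nat_lit 4758221) (nat_lit 336028) (nat_lit 49995303) (nat_lit 9989187) [(nat_lit 336028), (nat_lit 0), (nat_lit 3226132), (nat_lit 0)]) (PF.cons PF.nil (PF.cons PF.nil PF.nil))))) (PF.cons (PF.cons (PF.leaf (nat_lit
 4971658) (nat_lit 1357290) (nat_lit 49282941) (nat_lit 9971428) [(nat_lit 0), (nat_lit 1357290), (nat_lit 3248575), (nat_lit 0)]) (PF.cons (PF.leaf (nat_lit 5203763) (nat_lit 350033) (nat_lit 48898395) (nat_lit 9962275) [(nat_lit 350033), (nat_lit 1371497), (nat_lit 3263305), (nat_lit 0)]) (PF.cons PF.nil (PF.cons PF.nil PF.nil)))) (PF.cons (PF.cons (PF.leaf (nat_lit 5652294) (nat_lit 1398294) (nat_lit 47802990) (nat_lit 9923882) [(nat_lit 0), (nat_lit 1398294), (nat_lit 3292676), (nat_lit 0)]) (PF.cons PF.nil PF.nil)) PF.nil))) (PF.cons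 (PF.cons (PF.cons (PF.leaf (nat_lit 5531390) (nat_lit 3279658) (nat_lit 47381442) (nat_lit 9888394) [(nat_lit 0), (nat_lit 0), (nat_lit 3279658), (nat_lit 0)]) (PF.cons (PF.leaf (nat_lit 5764641) (nat_lit 359613) (nat_lit 47004991) (nat_lit 9873122) [(nat_lit 359613), (nat_lit 0), (nat_lit 3290361), (nat_lit 0)]) PF.nil)) (PF.cons PF.nil PF.nil)) (PF.cons PF.nil (PF.cons PF.nil PF.nil)))))) (PF.cons (PF.cons (PF.cons (PF.cons (PF.leaf (nat_lit 4178366) (nat_lit 8705958) (nat_lit 48606226) (nat_lit 9796627) [(nat_lit 0), (nat_lit 0), (nat_lit 0), (nat_lit 8705958)]) (PF.cons (PF.leaf (nat_lit 4357538) (nat_lit 290670) (nat_lit 48320662) (nat_lit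
 9791819) [(nat_lit 290670), (nat_lit 0), (nat_lit 0), (nat_lit 8705660)]) (PF.cons (PF.leaf (nat_lit 4554114) (nat_lit 303882) (nat_lit 48011134) (nat_lit 9785595) [(nat_lit 303882), (nat_lit 0), (nat_lit 0), (nat_lit 8704318)]) (PF.cons (PF.leaf (nat_lit 4763974) (nat_lit 315580) (nat_lit 47682442) (nat_lit 9777860) [(nat_lit 315580), (nat_lit 0), (nat_lit 0), (nat_lit 8701767)]) (PF.cons (PF.leaf (nat_lit 4985116) (nat_lit 326080) (nat_lit 47338066) (nat_lit 9768541) [(nat_lit 326080), (nat_lit 0), (nat_lit 0), (nat_lit 8697880)]) (PF.cons (PF.leaf (nat_lit 5215974) (nat_lit 335595) (nat_lit 46980688) (nat_lit 9757581) [(nat_lit 335595), (nat_lit 0), (nat_lit 0), (nat_lit 8692565)]) (PF.cons PF.nil PF.nil))))))) (PF.cons (PF.cons (PF.leaf (nat_lit 4762468) (nat_lit 1292643) (nat_lit 47358172) (nat_lit 9764646) [(nat_lit 0), (nat_lit 1292643), (nat_lit 0), (nat_lit 8693350)]) (PF.cons (PF.leaf (nat_lit 4967235) (nat_lit 321057) (nat_lit 47035466) (nat_lit 9754900)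 [(nat_lit 321057), (nat_lit 1308672), (nat_lit 0), (nat_lit 8688715)]) (PF.cons (PF.leaf (nat_lit 5185020) (nat_lit 331262) (nat_lit 46696032) (nat_lit 9743516) [(nat_lit 331262), (nat_lit 1324025), (nat_lit 0),
 (nat_lit 8682714)]) (PF.cons (PF.leaf (nat_lit 5413002) (nat_lit 340454) (nat_lit 46343102) (nat_lit 9730469) [(nat_lit 340454), (nat_lit 1338599), (nat_lit 0), (nat_lit 8675277)]) (PF.cons PF.nil PF.nil))))) (PF.cons (PF.cons (PF.leaf (nat_lit 5386310) (nat_lit 1339437) (nat_lit 46051766) (nat_lit 9714494) [(nat_lit 0), (nat_lit 1339437), (nat_lit 0), (nat_lit 8663676)]) (PF.cons (PF.leaf (nat_lit 5609689) (nat_lit 344556) (nat_lit 45705334) (nat_lit 9699581) [(nat_lit 344556), (nat_lit 1352513), (nat_lit 0), (nat_lit 8654312)]) (PF.cons (PF.leaf (nat_lit 5843085) (nat_lit 352668) (nat_lit 45347231) (nat_lit 9682978) [(nat_lit 352668), (nat_lit 1364900), (nat_lit 0), (nat_lit 8643463)]) (PF.cons PF.nil PF.nil)))) (PF.cons (PF.cons (PF.leaf (nat_lit 6036679)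 (nat_lit 1375981) (nat_lit 44716858) (nat_lit 9646781) [(nat_lit 0), (nat_lit 1375981), (nat_lit 0), (nat_lit 8617226)]) (PF.cons (PF.leaf (nat_lit 6273586) (nat_lit 363077) (nat_lit 44356291) (nat_lit 9626846) [(nat_lit 363077), (nat_lit 1386477), (nat_lit 0), (nat_lit 8603163)]) PF.nil)) (PF.cons PF.nil PF.nil))))) (PF.cons (PF.cons (PF.cons (PF.leaf (nat_lit 5289685) (nat_lit 3188615) (nat_lit 45612664) (nat_lit 9676156)
 [(nat_lit 0), (nat_lit 0), (nat_lit 3188615), (nat_lit 8631376)]) (PF.cons (PF.leaf (nat_lit 5497152) (nat_lit 331690) (nat_lit 45293993) (nat_lit 9661569) [(nat_lit 331690), (nat_lit 0), (nat_lit 3199583), (nat_lit 8621976)]) (PF.cons (PF.leaf (nat_lit 5716960) (nat_lit 341199) (nat_lit 44959981) (nat_lit 9645257) [(nat_lit 341199), (nat_lit 0), (nat_lit 3210059), (nat_lit 8611115)]) (PF.cons (PF.leaf (nat_lit 5946273) (nat_lit 349683) (nat_lit 44613815) (nat_lit 9627266) [(nat_lit 349683), (nat_lit 0), (nat_lit 3219887), (nat_lit 8598792)])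 (PF.cons PF.nil PF.nil))))) (PF.cons (PF.cons (PF.leaf (nat_lit 5912007) (nat_lit 1361346) (nat_lit 44335347) (nat_lit 9607973) [(nat_lit 0), (nat_lit 1361346), (nat_lit 3220307), (nat_lit 8583838)]) (PF.cons (PF.leaf (nat_lit 6136251) (nat_lit 352700) (nat_lit 43996814) (nat_lit 9588526) [(nat_lit 352700), (nat_lit 1372280), (nat_lit 3228509), (nat_lit 8569981)]) (PF.cons (PF.leaf (nat_lit 6369812) (nat_lit 360171) (nat_lit 43647791) (nat_lit 9567415) [(nat_lit 360171), (nat_lit 1382559), (nat_lit 3236044), (nat_lit 8554657)]) (PF.cons PF.nil PF.nil)))) (PF.cons (PF.cons (PF.leaf (nat_lit 6556237) (nat_lit 1390606) (nat_lit 43040623)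
 (nat_lit 9524339) [(nat_lit 0), (nat_lit 1390606), (nat_lit 3241125), (nat_lit 8521510)]) (PF.cons PF.nil PF.nil)) PF.nil))) (PF.cons (PF.cons (PF.cons (PF.leaf (nat_lit 6421853) (nat_lit 3225031) (nat_lit 42688185) (nat_lit 9484066) [(nat_lit 0), (nat_lit 0), (nat_lit 3225031), (nat_lit 8486497)]) (PF.cons (PF.leaf (nat_lit 6645907) (nat_lit 358864) (nat_lit 42359367) (nat_lit 9460916) [(nat_lit 358864), (nat_lit 0), (nat_lit 3230361), (nat_lit 8468942)]) (PF.cons PF.nil PF.nil))) (PF.cons (PF.cons (PF.leaf (nat_lit 7057921) (nat_lit 1399227) (nat_lit 41438768) (nat_lit 9387721) [(nat_lit 0), (nat_lit 1399227), (nat_lit 3235864), (nat_lit 8411366)]) PF.nil) PF.nil)) (PF.cons PF.nil (PF.cons PF.nil PF.nil))))) (PF.cons (PF.cons (PF.cons (PF.cons (PF.leaf (nat_lit 6142258) (nat_lit 8298483) (nat_lit 41238297) (nat_lit 9273549) [(nat_lit 0), (nat_lit 0), (nat_lit 0), (nat_lit 8298483)]) (PF.cons (PF.leaf (nat_lit 6343123) (nat_lit 331482) (nat_lit 40958328) (nat_lit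 9253017) [(nat_lit 331482), (nat_lit 0), (nat_lit 0), (nat_lit 8282992)]) (PF.cons (PF.leaf (nat_lit 6555418) (nat_lit 340258) (nat_lit 40665420) (nat_lit 9230787) [(nat_lit 340258), (nat_lit 0), (nat_lit 0), (nat_lit
 8266044)]) (PF.cons (PF.leaf (nat_lit 6776343) (nat_lit 347992) (nat_lit 40362386) (nat_lit 9206996) [(nat_lit 347992), (nat_lit 0), (nat_lit 0), (nat_lit 8247726)]) (PF.cons PF.nil PF.nil))))) (PF.cons (PF.cons (PF.leaf (nat_lit 6734299) (nat_lit 1344326) (nat_lit 40122478) (nat_lit 9184097) [(nat_lit 0), (nat_lit 1344326), (nat_lit 0), (nat_lit 8228955)]) (PF.cons (PF.leaf (nat_lit 6949847) (nat_lit 349901) (nat_lit 39826841) (nat_lit 9159558) [(nat_lit 349901), (nat_lit 1352935), (nat_lit 0), (nat_lit 8209787)]) (PF.cons (PF.leaf (nat_lit 7173981) (nat_lit 356659) (nat_lit 39522485) (nat_lit 9133522) [(nat_lit 356659), (nat_lit 1360901), (nat_lit 0), (nat_lit 8189292)]) (PF.cons PF.nil PF.nil)))) (PF.cons (PF.cons (PF.leaf (nat_lit 7343820) (nat_lit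 1365535) (nat_lit 38997030) (nat_lit 9083442) [(nat_lit 0), (nat_lit 1365535), (nat_lit 0), (nat_lit 8148634)]) (PF.cons PF.nil PF.nil)) PF.nil))) (PF.cons (PF.cons (PF.cons (PF.leaf (nat_lit 7201555) (nat_lit 3137902) (nat_lit 38702458) (nat_lit 9042806) [(nat_lit 0), (nat_lit 0), (nat_lit 3137902), (nat_lit 8112823)]) (PF.cons (PF.leaf (nat_lit 7416244) (nat_lit 353804) (nat_lit 38416396) (nat_lit 9016043) [(nat_lit 353804),
 (nat_lit 0), (nat_lit 3139833), (nat_lit 8091367)]) (PF.cons PF.nil PF.nil))) (PF.cons (PF.cons (PF.leaf (nat_lit 7802284) (nat_lit 1367248) (nat_lit 37619715) (nat_lit 8934903) [(nat_lit 0), (nat_lit 1367248), (nat_lit 3137097), (nat_lit 8024923)]) PF.nil) PF.nil)) (PF.cons PF.nil PF.nil))) (PF.cons (PF.cons (PF.cons (PF.cons (PF.leaf (nat_lit 7893815) (nat_lit 7732728) (nat_lit 35310062) (nat_lit 8600566) [(nat_lit 0), (nat_lit 0), (nat_lit 0), (nat_lit 7732728)]) (PF.cons (PF.leaf (nat_lit 8099425) (nat_lit 346353) (nat_lit 35060878)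 (nat_lit 8572575) [(nat_lit 346353), (nat_lit 0), (nat_lit 0), (nat_lit 7709668)]) PF.nil)) (PF.cons PF.nil PF.nil)) (PF.cons PF.nil PF.nil)) (PF.cons PF.nil (PF.cons PF.nil (PF.cons PF.nil (PF.cons PF.nil PF.nil))))))))

def p13_10_1_0 : pfC (piC [(nat_lit 41997052), (nat_lit 26592602), (nat_lit 19805017), (nat_lit 13318063)] (nat_lit 10555529)) p13_10_1 (nat_lit 4) (nat_lit 0) (nat_lit 1) = true := by decide +kernel
def p13_10_1_1 : pfC (piC [(nat_lit 41997052), (nat_lit 26592602), (nat_lit 19805017), (nat_lit 13318063)] (nat_lit 10555529)) p13_10_1 (nat_lit 4) (nat_lit 1) (nat_lit 2) = true := by decide +kernel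
def p13_10_1_2 : pfC (piC [(nat_lit 41997052), (nat_lit 26592602), (nat_lit 19805017), (nat_lit 13318063)] (nat_lit 10555529)) p13_10_1 (nat_lit 4) (nat_lit 2) (nat_lit 3) = true := by decide +kernel
def p13_10_1_3 : pfC (piC [(nat_lit 41997052), (nat_lit 26592602), (nat_lit 19805017), (nat_lit 13318063)] (nat_lit 10555529)) p13_10_1 (nat_lit 4) (nat_lit 3) (nat_lit 4) = true := by decide +kernel
def p13_10_1_4 : pfC (piC [(nat_lit 41997052), (nat_lit 26592602), (nat_lit 19805017), (nat_lit 13318063)] (nat_lit 10555529)) p13_10_1 (nat_lit 4) (nat_lit 4) (nat_lit 5) = true := by decide +kernel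
def p13_10_1_5 : pfC (piC [(nat_lit 41997052), (nat_lit 26592602), (nat_lit 19805017), (nat_lit 13318063)] (nat_lit 10555529)) p13_10_1 (nat_lit 4) (nat_lit 5) (nat_lit 6) = true := by decide +kernel
def p13_10_1_6 : pfC (piC [(nat_lit 41997052), (nat_lit 26592602), (nat_lit 19805017), (nat_lit 13318063)] (nat_lit 10555529)) p13_10_1 (nat_lit 4) (nat_lit 6) (nat_lit 7) = true := by decide +kernel
def p13_10_1_7 : pfC (piC [(nat_lit 41997052), (nat_lit 26592602), (nat_lit 19805017), (nat_lit 13318063)] (nat_lit 10555529)) p13_10_1 (nat_lit 4) (nat_lit 7) (nat_lit 8) = true := by decide +kernel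
def p13_10_1_8 : pfC (piC [(nat_lit 41997052), (nat_lit 26592602), (nat_lit 19805017), (nat_lit 13318063)] (nat_lit 10555529)) p13_10_1 (nat_lit 4) (nat_lit 8) (nat_lit 9) = true := by decide +kernel
def p13_10_1_9 : pfC (piC [(nat_lit 41997052), (nat_lit 26592602), (nat_lit 19805017), (nat_lit 13318063)] (nat_lit 10555529)) p13_10_1 (nat_lit 4) (nat_lit 9) (nat_lit 10) = true := by decide +kernel
def p13_10_1_10 : pfC (piC [(nat_lit 41997052), (nat_lit 26592602), (nat_lit 19805017), (nat_lit 13318063)] (nat_lit 10555529)) p13_10_1 (nat_lit 4) (nat_lit 10) (nat_lit 11) = true := by decide +kernel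
def p13_10_1_11 : pfC (piC [(nat_lit 41997052), (nat_lit 26592602), (nat_lit 19805017), (nat_lit 13318063)] (nat_lit 10555529)) p13_10_1 (nat_lit 4) (nat_lit 11) (nat_lit 12) = true := by decide +kernel
def p13_10_1_12 : pfC (piC [(nat_lit 41997052), (nat_lit 26592602), (nat_lit 19805017), (nat_lit 13318063)] (nat_lit 10555529)) p13_10_1 (nat_lit 4) (nat_lit 12) (nat_lit 13) = true := by decide +kernel
def p13_10_1_13 : pfC (piC [(nat_lit 41997052), (nat_lit 26592602), (nat_lit 19805017), (nat_lit 13318063)] (nat_lit 10555529)) p13_10_1 (nat_lit 4) (nat_lit 13) (nat_lit 14) = true := by decide +kernel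
def p13_10_1_14 : pfC (piC [(nat_lit 41997052), (nat_lit 26592602), (nat_lit 19805017), (nat_lit 13318063)] (nat_lit 10555529)) p13_10_1 (nat_lit 4) (nat_lit 14) (nat_lit 15) = true := by decide +kernel
def p13_10_1_15 : pfC (piC [(nat_lit 41997052), (nat_lit 26592602), (nat_lit 19805017), (nat_lit 13318063)] (nat_lit 10555529)) p13_10_1 (nat_lit 4) (nat_lit 15) (nat_lit 16) = true := by decide +kernel
def p13_10_1_16 : pfC (piC [(nat_lit 41997052), (nat_lit 26592602), (nat_lit 19805017), (nat_lit 13318063)] (nat_lit 10555529)) p13_10_1 (nat_lit 4) (nat_lit 16) (nat_lit 17) = true := by decide +kernel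
def p13_10_1_17 : pfC (piC [(nat_lit 41997052), (nat_lit 26592602), (nat_lit 19805017), (nat_lit 13318063)] (nat_lit 10555529)) p13_10_1 (nat_lit 4) (nat_lit 17) (nat_lit 18) = true := by decide +kernel
def p13_10_1_18 : pfC (piC [(nat_lit 41997052), (nat_lit 26592602), (nat_lit 19805017), (nat_lit 13318063)] (nat_lit 10555529)) p13_10_1 (nat_lit 4) (nat_lit 18) (nat_lit 19) = true := by decide +kernel
def p13_10_1_19 : pfC (piC [(nat_lit 41997052), (nat_lit 26592602), (nat_lit 19805017), (nat_lit 13318063)] (nat_lit 10555529)) p13_10_1 (nat_lit 4) (nat_lit 19) (nat_lit 20) = true := by decide +kernel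
def p13_10_1_20 : pfC (piC [(nat_lit 41997052), (nat_lit 26592602), (nat_lit 19805017), (nat_lit 13318063)] (nat_lit 10555529)) p13_10_1 (nat_lit 4) (nat_lit 20) (nat_lit 21) = true := by decide +kernel
def p13_10_1_21 : pfC (piC [(nat_lit 41997052), (nat_lit 26592602), (nat_lit 19805017), (nat_lit 13318063)] (nat_lit 10555529)) p13_10_1 (nat_lit 4) (nat_lit 21) (nat_lit 22) = true := by decide +kernel
def p13_10_1_22 : pfC (piC [(nat_lit 41997052), (nat_lit 26592602), (nat_lit 19805017), (nat_lit 13318063)] (nat_lit 10555529)) p13_10_1 (nat_lit 4) (nat_lit 22) (nat_lit 23) = true := by decide +kernel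
def p13_10_1_23 : pfC (piC [(nat_lit 41997052), (nat_lit 26592602), (nat_lit 19805017), (nat_lit 13318063)] (nat_lit 10555529)) p13_10_1 (nat_lit 4) (nat_lit 23) (nat_lit 24) = true := by decide +kernel
def p13_10_1_24 : pfC (piC [(nat_lit 41997052), (nat_lit 26592602), (nat_lit 19805017), (nat_lit 13318063)] (nat_lit 10555529)) p13_10_1 (nat_lit 4) (nat_lit 24) (nat_lit 25) = true := by decide +kernel
def p13_10_1_25 : pfC (piC [(nat_lit 41997052), (nat_lit 26592602), (nat_lit 19805017), (nat_lit 13318063)] (nat_lit 10555529)) p13_10_1 (nat_lit 4) (nat_lit 25) (nat_lit 26) = true := by decide +kernel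
def p13_10_1_26 : pfC (piC [(nat_lit 41997052), (nat_lit 26592602), (nat_lit 19805017), (nat_lit 13318063)] (nat_lit 10555529)) p13_10_1 (nat_lit 4) (nat_lit 26) (nat_lit 27) = true := by decide +kernel
def p13_10_1_27 : pfC (piC [(nat_lit 41997052), (nat_lit 26592602), (nat_lit 19805017), (nat_lit 13318063)] (nat_lit 10555529)) p13_10_1 (nat_lit 4) (nat_lit 27) (nat_lit 28) = true := by decide +kernel
def p13_10_1_28 : pfC (piC [(nat_lit 41997052), (nat_lit 26592602), (nat_lit 19805017), (nat_lit 13318063)] (nat_lit 10555529)) p13_10_1 (nat_lit 4) (nat_lit 28) (nat_lit 29) = true := by decide +kernel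
def p13_10_1_29 : pfC (piC [(nat_lit 41997052), (nat_lit 26592602), (nat_lit 19805017), (nat_lit 13318063)] (nat_lit 10555529)) p13_10_1 (nat_lit 4) (nat_lit 29) (nat_lit 30) = true := by decide +kernel
def p13_10_1_30 : pfC (piC [(nat_lit 41997052), (nat_lit 26592602), (nat_lit 19805017), (nat_lit 13318063)] (nat_lit 10555529)) p13_10_1 (nat_lit 4) (nat_lit 30) (nat_lit 31) = true := by decide +kernel
def p13_10_1_31 : pfC (piC [(nat_lit 41997052), (nat_lit 26592602), (nat_lit 19805017), (nat_lit 13318063)] (nat_lit 10555529)) p13_10_1 (nat_lit 4) (nat_lit 31) (nat_lit 32) = true := by decide +kernel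
def p13_10_1_32 : pfC (piC [(nat_lit 41997052), (nat_lit 26592602), (nat_lit 19805017), (nat_lit 13318063)] (nat_lit 10555529)) p13_10_1 (nat_lit 4) (nat_lit 32) (nat_lit 33) = true := by decide +kernel
def p13_10_1_33 : pfC (piC [(nat_lit 41997052), (nat_lit 26592602), (nat_lit 19805017), (nat_lit 13318063)] (nat_lit 10555529)) p13_10_1 (nat_lit 4) (nat_lit 33) (nat_lit 34) = true := by decide +kernel
def p13_10_1_34 : pfC (piC [(nat_lit 41997052), (nat_lit 26592602), (nat_lit 19805017), (nat_lit 13318063)] (nat_lit 10555529)) p13_10_1 (nat_lit 4) (nat_lit 34) (nat_lit 35) = true := by decide +kernel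
def p13_10_1_35 : pfC (piC [(nat_lit 41997052), (nat_lit 26592602), (nat_lit 19805017), (nat_lit 13318063)] (nat_lit 10555529)) p13_10_1 (nat_lit 4) (nat_lit 35) (nat_lit 36) = true := by decide +kernel
def p13_10_1_36 : pfC (piC [(nat_lit 41997052), (nat_lit 26592602), (nat_lit 19805017), (nat_lit 13318063)] (nat_lit 10555529)) p13_10_1 (nat_lit 4) (nat_lit 36) (nat_lit 37) = true := by decide +kernel
def p13_10_1_37 : pfC (piC [(nat_lit 41997052), (nat_lit 26592602), (nat_lit 19805017), (nat_lit 13318063)] (nat_lit 10555529)) p13_10_1 (nat_lit 4) (nat_lit 37) (nat_lit 38) = true := by decide +kernel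
def p13_10_1_38 : pfC (piC [(nat_lit 41997052), (nat_lit 26592602), (nat_lit 19805017), (nat_lit 13318063)] (nat_lit 10555529)) p13_10_1 (nat_lit 4) (nat_lit 38) (nat_lit 39) = true := by decide +kernel
def p13_10_1_39 : pfC (piC [(nat_lit 41997052), (nat_lit 26592602), (nat_lit 19805017), (nat_lit 13318063)] (nat_lit 10555529)) p13_10_1 (nat_lit 4) (nat_lit 39) (nat_lit 40) = true := by decide +kernel
def p13_10_1_40 : pfC (piC [(nat_lit 41997052), (nat_lit 26592602), (nat_lit 19805017), (nat_lit 13318063)] (nat_lit 10555529)) p13_10_1 (nat_lit 4) (nat_lit 40) (nat_lit 41) = true := by decide +kernel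
def p13_10_1_41 : pfC (piC [(nat_lit 41997052), (nat_lit 26592602), (nat_lit 19805017), (nat_lit 13318063)] (nat_lit 10555529)) p13_10_1 (nat_lit 4) (nat_lit 41) (nat_lit 42) = true := by decide +kernel
def p13_10_1_42 : pfC (piC [(nat_lit 41997052), (nat_lit 26592602), (nat_lit 19805017), (nat_lit 13318063)] (nat_lit 10555529)) p13_10_1 (nat_lit 4) (nat_lit 42) (nat_lit 43) = true := by decide +kernel
def p13_10_1_43 : pfC (piC [(nat_lit 41997052), (nat_lit 26592602), (nat_lit 19805017), (nat_lit 13318063)] (nat_lit 10555529)) p13_10_1 (nat_lit 4) (nat_lit 43) (nat_lit 44) = true := by decide +kernel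
def p13_10_1_44 : pfC (piC [(nat_lit 41997052), (nat_lit 26592602), (nat_lit 19805017), (nat_lit 13318063)] (nat_lit 10555529)) p13_10_1 (nat_lit 4) (nat_lit 44) (nat_lit 45) = true := by decide +kernel
def p13_10_1_45 : pfC (piC [(nat_lit 41997052), (nat_lit 26592602), (nat_lit 19805017), (nat_lit 13318063)] (nat_lit 10555529)) p13_10_1 (nat_lit 4) (nat_lit 45) (nat_lit 46) = true := by decide +kernel
def p13_10_1_46 : pfC (piC [(nat_lit 41997052), (nat_lit 26592602), (nat_lit 19805017), (nat_lit 13318063)] (nat_lit 10555529)) p13_10_1 (nat_lit 4) (nat_lit 46) (nat_lit 47) = true := by decide +kernel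
def p13_10_1_47 : pfC (piC [(nat_lit 41997052), (nat_lit 26592602), (nat_lit 19805017), (nat_lit 13318063)] (nat_lit 10555529)) p13_10_1 (nat_lit 4) (nat_lit 47) (nat_lit 48) = true := by decide +kernel
def p13_10_1_48 : pfC (piC [(nat_lit 41997052), (nat_lit 26592602), (nat_lit 19805017), (nat_lit 13318063)] (nat_lit 10555529)) p13_10_1 (nat_lit 4) (nat_lit 48) (nat_lit 49) = true := by decide +kernel
def p13_10_1_49 : pfC (piC [(nat_lit 41997052), (nat_lit 26592602), (nat_lit 19805017), (nat_lit 13318063)] (nat_lit 10555529)) p13_10_1 (nat_lit 4) (nat_lit 49) (nat_lit 50) = true := by decide +kernel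
def p13_10_1_50 : pfC (piC [(nat_lit 41997052), (nat_lit 26592602), (nat_lit 19805017), (nat_lit 13318063)] (nat_lit 10555529)) p13_10_1 (nat_lit 4) (nat_lit 50) (nat_lit 51) = true := by decide +kernel
def p13_10_1_51 : pfC (piC [(nat_lit 41997052), (nat_lit 26592602), (nat_lit 19805017), (nat_lit 13318063)] (nat_lit 10555529)) p13_10_1 (nat_lit 4) (nat_lit 51) (nat_lit 52) = true := by decide +kernel
def p13_10_1_52 : pfC (piC [(nat_lit 41997052), (nat_lit 26592602), (nat_lit 19805017), (nat_lit 13318063)] (nat_lit 10555529)) p13_10_1 (nat_lit 4) (nat_lit 52) (nat_lit 53) = true := by decide +kernel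
def p13_10_1_53 : pfC (piC [(nat_lit 41997052), (nat_lit 26592602), (nat_lit 19805017), (nat_lit 13318063)] (nat_lit 10555529)) p13_10_1 (nat_lit 4) (nat_lit 53) (nat_lit 54) = true := by decide +kernel
def p13_10_1_54 : pfC (piC [(nat_lit 41997052), (nat_lit 26592602), (nat_lit 19805017), (nat_lit 13318063)] (nat_lit 10555529)) p13_10_1 (nat_lit 4) (nat_lit 54) (nat_lit 55) = true := by decide +kernel
def p13_10_1_55 : pfC (piC [(nat_lit 41997052), (nat_lit 26592602), (nat_lit 19805017), (nat_lit 13318063)] (nat_lit 10555529)) p13_10_1 (nat_lit 4) (nat_lit 55) (nat_lit 56) = true := by decide +kernel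
def p13_10_1_56 : pfC (piC [(nat_lit 41997052), (nat_lit 26592602), (nat_lit 19805017), (nat_lit 13318063)] (nat_lit 10555529)) p13_10_1 (nat_lit 4) (nat_lit 56) (nat_lit 57) = true := by decide +kernel
def p13_10_1_57 : pfC (piC [(nat_lit 41997052), (nat_lit 26592602), (nat_lit 19805017), (nat_lit 13318063)] (nat_lit 10555529)) p13_10_1 (nat_lit 4) (nat_lit 57) (nat_lit 58) = true := by decide +kernel
def p13_10_1_58 : pfC (piC [(nat_lit 41997052), (nat_lit 26592602), (nat_lit 19805017), (nat_lit 13318063)] (nat_lit 10555529)) p13_10_1 (nat_lit 4) (nat_lit 58) (nat_lit 59) = true := by decide +kernel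
def p13_10_1_59 : pfC (piC [(nat_lit 41997052), (nat_lit 26592602), (nat_lit 19805017), (nat_lit 13318063)] (nat_lit 10555529)) p13_10_1 (nat_lit 4) (nat_lit 59) (nat_lit 60) = true := by decide +kernel
def p13_10_1_60 : pfC (piC [(nat_lit 41997052), (nat_lit 26592602), (nat_lit 19805017), (nat_lit 13318063)] (nat_lit 10555529)) p13_10_1 (nat_lit 4) (nat_lit 60) (nat_lit 61) = true := by decide +kernel
def p13_10_1_61 : pfC (piC [(nat_lit 41997052), (nat_lit 26592602), (nat_lit 19805017), (nat_lit 13318063)] (nat_lit 10555529)) p13_10_1 (nat_lit 4) (nat_lit 61) (nat_lit 62) = true := by decide +kernel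
def p13_10_1_62 : pfC (piC [(nat_lit 41997052), (nat_lit 26592602), (nat_lit 19805017), (nat_lit 13318063)] (nat_lit 10555529)) p13_10_1 (nat_lit 4) (nat_lit 62) (nat_lit 63) = true := by decide +kernel
def p13_10_1_63 : pfC (piC [(nat_lit 41997052), (nat_lit 26592602), (nat_lit 19805017), (nat_lit 13318063)] (nat_lit 10555529)) p13_10_1 (nat_lit 4) (nat_lit 63) (nat_lit 64) = true := by decide +kernel
def p13_10_1_64 : pfC (piC [(nat_lit 41997052), (nat_lit 26592602), (nat_lit 19805017), (nat_lit 13318063)] (nat_lit 10555529)) p13_10_1 (nat_lit 4) (nat_lit 64) (nat_lit 65) = true := by decide +kernel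
def p13_10_1_65 : pfC (piC [(nat_lit 41997052), (nat_lit 26592602), (nat_lit 19805017), (nat_lit 13318063)] (nat_lit 10555529)) p13_10_1 (nat_lit 4) (nat_lit 65) (nat_lit 66) = true := by decide +kernel
def p13_10_1_66 : pfC (piC [(nat_lit 41997052), (nat_lit 26592602), (nat_lit 19805017), (nat_lit 13318063)] (nat_lit 10555529)) p13_10_1 (nat_lit 4) (nat_lit 66) (nat_lit 67) = true := by decide +kernel
def p13_10_1_67 : pfC (piC [(nat_lit 41997052), (nat_lit 26592602), (nat_lit 19805017), (nat_lit 13318063)] (nat_lit 10555529)) p13_10_1 (nat_lit 4) (nat_lit 67) (nat_lit 68) = true := by decide +kernel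
def p13_10_1_68 : pfC (piC [(nat_lit 41997052), (nat_lit 26592602), (nat_lit 19805017), (nat_lit 13318063)] (nat_lit 10555529)) p13_10_1 (nat_lit 4) (nat_lit 68) (nat_lit 69) = true := by decide +kernel
def p13_10_1_69 : pfC (piC [(nat_lit 41997052), (nat_lit 26592602), (nat_lit 19805017), (nat_lit 13318063)] (nat_lit 10555529)) p13_10_1 (nat_lit 4) (nat_lit 69) (nat_lit 70) = true := by decide +kernel
def p13_10_1_70 : pfC (piC [(nat_lit 41997052), (nat_lit 26592602), (nat_lit 19805017), (nat_lit 13318063)] (nat_lit 10555529)) p13_10_1 (nat_lit 4) (nat_lit 70) (nat_lit 71) = true := by decide +kernel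
def p13_10_1_71 : pfC (piC [(nat_lit 41997052), (nat_lit 26592602), (nat_lit 19805017), (nat_lit 13318063)] (nat_lit 10555529)) p13_10_1 (nat_lit 4) (nat_lit 71) (nat_lit 72) = true := by decide +kernel
def p13_10_1_72 : pfC (piC [(nat_lit 41997052), (nat_lit 26592602), (nat_lit 19805017), (nat_lit 13318063)] (nat_lit 10555529)) p13_10_1 (nat_lit 4) (nat_lit 72) (nat_lit 73) = true := by decide +kernel
def p13_10_1_73 : pfC (piC [(nat_lit 41997052), (nat_lit 26592602), (nat_lit 19805017), (nat_lit 13318063)] (nat_lit 10555529)) p13_10_1 (nat_lit 4) (nat_lit 73) (nat_lit 74) = true := by decide +kernel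
def p13_10_1_74 : pfC (piC [(nat_lit 41997052), (nat_lit 26592602), (nat_lit 19805017), (nat_lit 13318063)] (nat_lit 10555529)) p13_10_1 (nat_lit 4) (nat_lit 74) (nat_lit 75) = true := by decide +kernel
def p13_10_1_75 : pfC (piC [(nat_lit 41997052), (nat_lit 26592602), (nat_lit 19805017), (nat_lit 13318063)] (nat_lit 10555529)) p13_10_1 (nat_lit 4) (nat_lit 75) (nat_lit 76) = true := by decide +kernel
def p13_10_1_76 : pfC (piC [(nat_lit 41997052), (nat_lit 26592602), (nat_lit 19805017), (nat_lit 13318063)] (nat_lit 10555529)) p13_10_1 (nat_lit 4) (nat_lit 76) (nat_lit 77) = true := by decide +kernel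
def p13_10_1_77 : pfC (piC [(nat_lit 41997052), (nat_lit 26592602), (nat_lit 19805017), (nat_lit 13318063)] (nat_lit 10555529)) p13_10_1 (nat_lit 4) (nat_lit 77) (nat_lit 78) = true := by decide +kernel
def p13_10_1_78 : pfC (piC [(nat_lit 41997052), (nat_lit 26592602), (nat_lit 19805017), (nat_lit 13318063)] (nat_lit 10555529)) p13_10_1 (nat_lit 4) (nat_lit 78) (nat_lit 79) = true := by decide +kernel
theorem p13_10_1_T : PfS (PiF n13_10.reverse (nat_lit 10555529)) p13_10_1 (nat_lit 4) [] 0 :=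
  pftab_of (los := [(nat_lit 41997052), (nat_lit 26592602), (nat_lit 19805017), (nat_lit 13318063)]) (by decide +kernel) (hi := (nat_lit 79)) (PfP.trans (PfP.trans (PfP.trans (PfP.trans (PfP.trans (PfP.trans (PfP.trans (PfP.trans (PfP.trans (PfP.trans (PfP.trans (PfP.trans (PfP.trans (PfP.trans (PfP.trans (PfP.trans (PfP.trans (PfP.trans (PfP.trans (PfP.trans (PfP.trans (PfP.trans (PfP.trans (PfP.trans (PfP.trans (PfP.trans (PfP.trans (PfP.trans (PfP.trans (PfP.trans (PfP.trans (PfP.trans (PfP.trans (PfP.trans (PfP.trans (PfP.trans (PfP.trans (PfP.trans (PfP.trans (PfP.trans (PfP.trans (PfP.trans (PfP.trans (PfP.trans (PfP.trans (PfP.trans (PfP.trans (PfP.trans (PfP.trans (PfP.trans (PfP.trans (PfP.trans (PfP.trans (PfP.trans (PfP.trans (PfP.trans (PfP.trans (PfP.trans (PfP.trans (PfP.trans (PfP.trans (PfP.trans (PfP.trans (PfP.trans (PfP.trans (PfP.trans (PfP.trans (PfP.trans (PfP.trans (PfP.trans (PfP.trans (PfP.trans (PfP.trans (PfP.trans (PfP.trans (PfP.trans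 (PfP.trans (PfP.trans (pfC_sound p13_10_1_0) (pfC_sound p13_10_1_1)) (pfC_sound p13_10_1_2)) (pfC_sound p13_10_1_3)) (pfC_sound p13_10_1_4)) (pfC_sound p13_10_1_5)) (pfC_sound p13_10_1_6)) (pfC_sound p13_10_1_7)) (pfC_sound p13_10_1_8)) (pfC_sound p13_10_1_9)) (pfC_sound p13_10_1_10)) (pfC_sound p13_10_1_11)) (pfC_sound p13_10_1_12)) (pfC_sound p13_10_1_13))
 (pfC_sound p13_10_1_14)) (pfC_sound p13_10_1_15)) (pfC_sound p13_10_1_16)) (pfC_sound p13_10_1_17)) (pfC_sound p13_10_1_18)) (pfC_sound p13_10_1_19)) (pfC_sound p13_10_1_20)) (pfC_sound p13_10_1_21)) (pfC_sound p13_10_1_22)) (pfC_sound p13_10_1_23)) (pfC_sound p13_10_1_24)) (pfC_sound p13_10_1_25)) (pfC_sound p13_10_1_26)) (pfC_sound p13_10_1_27)) (pfC_sound p13_10_1_28)) (pfC_sound p13_10_1_29)) (pfC_sound p13_10_1_30)) (pfC_sound p13_10_1_31)) (pfC_sound p13_10_1_32)) (pfC_sound p13_10_1_33)) (pfC_sound p13_10_1_34)) (pfC_sound p13_10_1_35)) (pfC_sound p13_10_1_36)) (pfC_sound p13_10_1_37)) (pfC_sound p13_10_1_38))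 (pfC_sound p13_10_1_39)) (pfC_sound p13_10_1_40)) (pfC_sound p13_10_1_41)) (pfC_sound p13_10_1_42)) (pfC_sound p13_10_1_43)) (pfC_sound p13_10_1_44)) (pfC_sound p13_10_1_45)) (pfC_sound p13_10_1_46)) (pfC_sound p13_10_1_47)) (pfC_sound p13_10_1_48)) (pfC_sound p13_10_1_49)) (pfC_sound p13_10_1_50)) (pfC_sound p13_10_1_51)) (pfC_sound p13_10_1_52)) (pfC_sound p13_10_1_53)) (pfC_sound p13_10_1_54)) (pfC_sound p13_10_1_55)) (pfC_sound p13_10_1_56)) (pfC_sound p13_10_1_57)) (pfC_sound p13_10_1_58)) (pfC_sound p13_10_1_59)) (pfC_sound p13_10_1_60)) (pfC_sound p13_10_1_61))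
 (pfC_sound p13_10_1_62)) (pfC_sound p13_10_1_63)) (pfC_sound p13_10_1_64)) (pfC_sound p13_10_1_65)) (pfC_sound p13_10_1_66)) (pfC_sound p13_10_1_67)) (pfC_sound p13_10_1_68)) (pfC_sound p13_10_1_69)) (pfC_sound p13_10_1_70)) (pfC_sound p13_10_1_71)) (pfC_sound p13_10_1_72)) (pfC_sound p13_10_1_73)) (pfC_sound p13_10_1_74)) (pfC_sound p13_10_1_75)) (pfC_sound p13_10_1_76)) (pfC_sound p13_10_1_77)) (pfC_sound p13_10_1_78)) (by decide +kernel)

def z13_10_1 : zOK yB13_10 (nat_lit 1) (nat_lit 400) (nat_lit 600) (nat_lit 10555529) (nat_lit 7031977) = true := by decide +kernel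
def g13_10_1 : gOK yB13_10.x P13_10 (nat_lit 1426) (q13_10 :: r13_10) (nat_lit 1) (nat_lit 400) (nat_lit 2) (nat_lit 600) (nat_lit 11000000) (nat_lit 17850000) (nat_lit 12712500) (nat_lit 12712500) [(nat_lit 800), (nat_lit 1040)] = true := by decide +kernel
def v13_10_1 : ivC P13_10 s13_10 w13_10 n13_10 (nat_lit 4) (nat_lit 5060) (nat_lit 1) (nat_lit 400) f144_1_400 f152_1_400 (nat_lit 2) (nat_lit 600) f144_1_600 f152_1_600 (nat_lit 10555529) (nat_lit 7031977) p13_10_1 = true := by decide +kernel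
def p13_10_2 : PF := (PF.cons (PF.cons (PF.cons (PF.cons (PF.leaf (nat_lit 2692048) (nat_lit 15386985) (nat_lit 51721827) (nat_lit 15386985) [(nat_lit 0), (nat_lit 0), (nat_lit 0), (nat_lit 0)]) (PF.cons (PF.leaf (nat_lit 2816367) (nat_lit 208794) (nat_lit 51523661) (nat_lit 15376357) [(nat_lit 208794), (nat_lit 0), (nat_lit 0), (nat_lit 0)]) (PF.cons (PF.leaf (nat_lit 2965301) (nat_lit 227081) (nat_lit 51291498) (nat_lit 15363151) [(nat_lit 227081), (nat_lit 0), (nat_lit 0), (nat_lit 0)]) (PF.cons (PF.leaf (nat_lit 3132646) (nat_lit 243338) (nat_lit 51031384) (nat_lit 15347414) [(nat_lit 243338), (nat_lit 0), (nat_lit 0), (nat_lit 0)]) (PF.cons (PF.leaf (nat_lit 3315857) (nat_lit 258028) (nat_lit 50747566) (nat_lit 15329132) [(nat_lit 258028), (nat_lit 0), (nat_lit 0), (nat_lit 0)]) (PF.cons (PF.leaf (nat_lit 3512995) (nat_lit 271449) (nat_lit 50443293) (nat_lit 15308273) [(nat_lit 271449), (nat_lit 0), (nat_lit 0), (nat_lit 0)]) (PF.cons (PF.leaf (nat_lit 3722476)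 (nat_lit 283803) (nat_lit 50121192) (nat_lit 15284798) [(nat_lit 283803), (nat_lit 0), (nat_lit 0), (nat_lit 0)]) (PF.cons (PF.leaf (nat_lit 3943100) (nat_lit 295238) (nat_lit 49783463) (nat_lit 15258676) [(nat_lit 295238), (nat_lit 0),
 (nat_lit 0), (nat_lit 0)]) (PF.cons PF.nil PF.nil))))))))) (PF.cons (PF.cons (PF.leaf (nat_lit 3176932) (nat_lit 1103021) (nat_lit 50684320) (nat_lit 15321471) [(nat_lit 0), (nat_lit 1103021), (nat_lit 0), (nat_lit 0)]) (PF.cons (PF.leaf (nat_lit 3340666) (nat_lit 254460) (nat_lit 50423170) (nat_lit 15303359) [(nat_lit 254460), (nat_lit 1127822), (nat_lit 0), (nat_lit 0)]) (PF.cons (PF.leaf (nat_lit 3522736) (nat_lit 268493) (nat_lit 50137034) (nat_lit 15282442) [(nat_lit 268493), (nat_lit 1152349), (nat_lit 0), (nat_lit 0)]) (PF.cons (PF.leaf (nat_lit 3719304) (nat_lit 281254) (nat_lit 49830072) (nat_lit 15258779) [(nat_lit 281254), (nat_lit 1176198), (nat_lit 0), (nat_lit 0)]) (PF.cons (PF.leaf (nat_lit 3928379) (nat_lit 292972)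 (nat_lit 49505376) (nat_lit 15232392) [(nat_lit 292972), (nat_lit 1199155), (nat_lit 0), (nat_lit 0)]) (PF.cons (PF.leaf (nat_lit 4148634) (nat_lit 303801) (nat_lit 49165399) (nat_lit 15203294) [(nat_lit 303801), (nat_lit 1221109), (nat_lit 0), (nat_lit 0)]) (PF.cons PF.nil PF.nil))))))) (PF.cons (PF.cons (PF.leaf (nat_lit 3733986) (nat_lit 1184629) (nat_lit 49510283) (nat_lit 15229269) [(nat_lit 0), (nat_lit 1184629), (nat_lit 0), (nat_lit 0)]) (PF.cons
 (PF.leaf (nat_lit 3927206) (nat_lit 289699) (nat_lit 49204446) (nat_lit 15203143) [(nat_lit 289699), (nat_lit 1205761), (nat_lit 0), (nat_lit 0)]) (PF.cons (PF.leaf (nat_lit 4134742) (nat_lit 300967) (nat_lit 48880142) (nat_lit 15174138) [(nat_lit 300967), (nat_lit 1226298), (nat_lit 0), (nat_lit 0)]) (PF.cons (PF.leaf (nat_lit 4353746) (nat_lit 311333) (nat_lit 48540349) (nat_lit 15142335) [(nat_lit 311333), (nat_lit 1246064), (nat_lit 0), (nat_lit 0)]) (PF.cons (PF.leaf (nat_lit 4582741) (nat_lit 320925) (nat_lit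 48187392) (nat_lit 15107792) [(nat_lit 320925), (nat_lit 1264962), (nat_lit 0), (nat_lit 0)]) PF.nil))))) (PF.cons (PF.cons (PF.leaf (nat_lit 4343292) (nat_lit 1250750) (nat_lit 48246446) (nat_lit 15110114) [(nat_lit 0), (nat_lit 1250750), (nat_lit 0), (nat_lit 0)]) (PF.cons (PF.leaf (nat_lit 4558982) (nat_lit 317908) (nat_lit 47909382) (nat_lit 15075937) [(nat_lit 317908), (nat_lit 1268528), (nat_lit 0), (nat_lit 0)]) (PF.cons (PF.leaf (nat_lit 4786017) (nat_lit 327144) (nat_lit 47558752) (nat_lit 15038945) [(nat_lit 327144), (nat_lit 1285609), (nat_lit 0), (nat_lit 0)]) (PF.cons PF.nil PF.nil)))) (PF.cons (PF.cons (PF.leaf (nat_lit 4990044) (nat_lit 1304191) (nat_lit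
 46926933) (nat_lit 14965113) [(nat_lit 0), (nat_lit 1304191), (nat_lit 0), (nat_lit 0)]) (PF.cons (PF.leaf (nat_lit 5222802) (nat_lit 340815) (nat_lit 46568959) (nat_lit 14923245) [(nat_lit 340815), (nat_lit 1318948), (nat_lit 0), (nat_lit 0)]) PF.nil)) (PF.cons PF.nil PF.nil)))))) (PF.cons (PF.cons (PF.cons (PF.leaf (nat_lit 3703140) (nat_lit 2977970) (nat_lit 48967398) (nat_lit 15163444) [(nat_lit 0), (nat_lit 0), (nat_lit 2977970), (nat_lit 0)]) (PF.cons (PF.leaf (nat_lit 3875390) (nat_lit 273952) (nat_lit 48696852) (nat_lit 15138731) [(nat_lit 273952), (nat_lit 0), (nat_lit 2999277), (nat_lit 0)]) (PF.cons (PF.leaf (nat_lit 4065308) (nat_lit 287232) (nat_lit 48402608) (nat_lit 15110817) [(nat_lit 287232), (nat_lit 0), (nat_lit 3020921), (nat_lit 0)]) (PF.cons (PF.leaf (nat_lit 4268800) (nat_lit 299138) (nat_lit 48089093) (nat_lit 15079907) [(nat_lit 299138), (nat_lit 0), (nat_lit 3042395), (nat_lit 0)]) (PF.cons (PF.leaf (nat_lit 4483988) (nat_lit 309945)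 (nat_lit 47759533) (nat_lit 15046136) [(nat_lit 309945), (nat_lit 0), (nat_lit 3063360), (nat_lit 0)]) (PF.cons (PF.leaf (nat_lit 4709435) (nat_lit 319839) (nat_lit 47416431) (nat_lit 15009605) [(nat_lit 319839), (nat_lit 0),
 (nat_lit 3083579), (nat_lit 0)]) (PF.cons PF.nil PF.nil))))))) (PF.cons (PF.cons (PF.leaf (nat_lit 4274248) (nat_lit 1236645) (nat_lit 47774457) (nat_lit 15044239) [(nat_lit 0), (nat_lit 1236645), (nat_lit 3053470), (nat_lit 0)]) (PF.cons (PF.leaf (nat_lit 4473439) (nat_lit 305727) (nat_lit 47464921) (nat_lit 15011381) [(nat_lit 305727), (nat_lit 1254558), (nat_lit 3072224), (nat_lit 0)]) (PF.cons (PF.leaf (nat_lit 4686082) (nat_lit 316207) (nat_lit 47138396) (nat_lit 14975504) [(nat_lit 316207), (nat_lit 1271873), (nat_lit 3090623), (nat_lit 0)]) (PF.cons (PF.leaf (nat_lit 4909343) (nat_lit 325746) (nat_lit 46797924) (nat_lit 14936785) [(nat_lit 325746), (nat_lit 1288457), (nat_lit 3108405), (nat_lit 0)]) (PF.cons PF.nil PF.nil))))) (PF.cons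 (PF.cons (PF.leaf (nat_lit 4889981) (nat_lit 1290988) (nat_lit 46512446) (nat_lit 14899868) [(nat_lit 0), (nat_lit 1290988), (nat_lit 3114520), (nat_lit 0)]) (PF.cons (PF.leaf (nat_lit 5109249) (nat_lit 330841) (nat_lit 46176780) (nat_lit 14859322) [(nat_lit 330841), (nat_lit 1305922), (nat_lit 3130022), (nat_lit 0)]) (PF.cons (PF.leaf (nat_lit 5339028) (nat_lit 339319) (nat_lit 45828949) (nat_lit 14815989) [(nat_lit 339319), (nat_lit
 1320194), (nat_lit 3144846), (nat_lit 0)]) (PF.cons PF.nil PF.nil)))) (PF.cons (PF.cons (PF.leaf (nat_lit 5536720) (nat_lit 1334471) (nat_lit 45211475) (nat_lit 14732440) [(nat_lit 0), (nat_lit 1334471), (nat_lit 3161481), (nat_lit 0)]) (PF.cons (PF.leaf (nat_lit 5770917) (nat_lit 351008) (nat_lit 44859188) (nat_lit 14684870) [(nat_lit 351008), (nat_lit 1346725), (nat_lit 3173569), (nat_lit 0)]) PF.nil)) (PF.cons PF.nil PF.nil))))) (PF.cons (PF.cons (PF.cons (PF.leaf (nat_lit 4806170) (nat_lit 3103571) (nat_lit 46071611) (nat_lit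 14830058) [(nat_lit 0), (nat_lit 0), (nat_lit 3103571), (nat_lit 0)]) (PF.cons (PF.leaf (nat_lit 5009407) (nat_lit 318597) (nat_lit 45762699) (nat_lit 14791507) [(nat_lit 318597), (nat_lit 0), (nat_lit 3118003), (nat_lit 0)]) (PF.cons (PF.leaf (nat_lit 5225451) (nat_lit 328368) (nat_lit 45438158) (nat_lit 14749880) [(nat_lit 328368), (nat_lit 0), (nat_lit 3132018), (nat_lit 0)]) (PF.cons (PF.leaf (nat_lit 5451342) (nat_lit 337172) (nat_lit 45101034) (nat_lit 14705435) [(nat_lit 337172), (nat_lit 0), (nat_lit 3145412), (nat_lit 0)]) (PF.cons PF.nil PF.nil))))) (PF.cons (PF.cons (PF.leaf (nat_lit 5423858) (nat_lit 1320901) (nat_lit 44826052) (nat_lit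
 14665000) [(nat_lit 0), (nat_lit 1320901), (nat_lit 3148429), (nat_lit 0)]) (PF.cons (PF.leaf (nat_lit 5645161) (nat_lit 341040) (nat_lit 44495215) (nat_lit 14619253) [(nat_lit 341040), (nat_lit 1333441), (nat_lit 3159931), (nat_lit 0)]) (PF.cons (PF.leaf (nat_lit 5876272) (nat_lit 348844) (nat_lit 44153438) (nat_lit 14570792) [(nat_lit 348844), (nat_lit 1345347), (nat_lit 3170773), (nat_lit 0)]) (PF.cons PF.nil PF.nil)))) (PF.cons (PF.cons (PF.leaf (nat_lit 6067236) (nat_lit 1356095) (nat_lit 43554512) (nat_lit 14479774) [(nat_lit 0), (nat_lit 1356095), (nat_lit 3181167), (nat_lit 0)]) (PF.cons PF.nil PF.nil)) PF.nil))) (PF.cons (PF.cons (PF.cons (PF.leaf (nat_lit 5943375) (nat_lit 3166753) (nat_lit 43197031) (nat_lit 14411520) [(nat_lit 0), (nat_lit 0), (nat_lit 3166753), (nat_lit 0)]) (PF.cons (PF.leaf (nat_lit 6165480) (nat_lit 348961) (nat_lit 42873473) (nat_lit 14361646) [(nat_lit 348961), (nat_lit 0), (nat_lit 3174910), (nat_lit 0)]) (PF.cons PF.nil PF.nil)))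 (PF.cons (PF.cons (PF.leaf (nat_lit 6580789) (nat_lit 1370625) (nat_lit 41962379) (nat_lit 14212631) [(nat_lit 0), (nat_lit 1370625), (nat_lit 3187725), (nat_lit 0)]) PF.nil) PF.nil)) (PF.cons PF.nil (PF.cons PF.nil
 PF.nil)))))) (PF.cons (PF.cons (PF.cons (PF.cons (PF.leaf (nat_lit 4639925) (nat_lit 8346595) (nat_lit 44286009) (nat_lit 14476208) [(nat_lit 0), (nat_lit 0), (nat_lit 0), (nat_lit 8346595)]) (PF.cons (PF.leaf (nat_lit 4811901) (nat_lit 283831) (nat_lit 44039385) (nat_lit 14442987) [(nat_lit 283831), (nat_lit 0), (nat_lit 0), (nat_lit 8342608)]) (PF.cons (PF.leaf (nat_lit 5000532) (nat_lit 296475) (nat_lit 43772167) (nat_lit 14406231) [(nat_lit 296475), (nat_lit 0), (nat_lit 0), (nat_lit 8337462)]) (PF.cons (PF.leaf (nat_lit 5201698) (nat_lit 307618) (nat_lit 43488508) (nat_lit 14366360) [(nat_lit 307618), (nat_lit 0), (nat_lit 0), (nat_lit 8331087)]) (PF.cons (PF.leaf (nat_lit 5413476) (nat_lit 317574) (nat_lit 43191411) (nat_lit 14323673) [(nat_lit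 317574), (nat_lit 0), (nat_lit 0), (nat_lit 8323429)]) (PF.cons (PF.leaf (nat_lit 5634354) (nat_lit 326555) (nat_lit 42883189) (nat_lit 14278394) [(nat_lit 326555), (nat_lit 0), (nat_lit 0), (nat_lit 8314452)]) (PF.cons PF.nil PF.nil))))))) (PF.cons (PF.cons (PF.leaf (nat_lit 5196148) (nat_lit 1256243) (nat_lit 43209778) (nat_lit 14323285) [(nat_lit 0), (nat_lit 1256243), (nat_lit 0), (nat_lit 8319506)]) (PF.cons (PF.leaf (nat_lit
 5392119) (nat_lit 312454) (nat_lit 42931441) (nat_lit 14282495) [(nat_lit 312454), (nat_lit 1270874), (nat_lit 0), (nat_lit 8311547)]) (PF.cons (PF.leaf (nat_lit 5600471) (nat_lit 322129) (nat_lit 42638745) (nat_lit 14238722) [(nat_lit 322129), (nat_lit 1284815), (nat_lit 0), (nat_lit 8302271)]) (PF.cons (PF.leaf (nat_lit 5818405) (nat_lit 330804) (nat_lit 42334475) (nat_lit 14192274) [(nat_lit 330804), (nat_lit 1297981), (nat_lit 0), (nat_lit 8291667)]) (PF.cons (PF.leaf (nat_lit 6044510) (nat_lit 338653) (nat_lit 42020747) (nat_lit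 14143384) [(nat_lit 338653), (nat_lit 1310341), (nat_lit 0), (nat_lit 8279727)]) PF.nil))))) (PF.cons (PF.cons (PF.leaf (nat_lit 5788842) (nat_lit 1298041) (nat_lit 42084312) (nat_lit 14150380) [(nat_lit 0), (nat_lit 1298041), (nat_lit 0), (nat_lit 8278037)]) (PF.cons (PF.leaf (nat_lit 6002114) (nat_lit 334346) (nat_lit 41785712) (nat_lit 14103117) [(nat_lit 334346), (nat_lit 1309824), (nat_lit 0), (nat_lit 8265988)]) (PF.cons (PF.leaf (nat_lit 6224927) (nat_lit 341975) (nat_lit 41477078) (nat_lit 14053320) [(nat_lit 341975), (nat_lit 1320931), (nat_lit 0), (nat_lit 8252598)]) (PF.cons PF.nil PF.nil)))) (PF.cons (PF.cons (PF.leaf (nat_lit 6405768)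
 (nat_lit 1330209) (nat_lit 40934721) (nat_lit 13960602) [(nat_lit 0), (nat_lit 1330209), (nat_lit 0), (nat_lit 8222860)]) (PF.cons (PF.leaf (nat_lit 6631610) (nat_lit 351444) (nat_lit 40623961) (nat_lit 13907850) [(nat_lit 351444), (nat_lit 1339559), (nat_lit 0), (nat_lit 8206877)]) PF.nil)) (PF.cons PF.nil (PF.cons PF.nil PF.nil)))))) (PF.cons (PF.cons (PF.cons (PF.leaf (nat_lit 5689236) (nat_lit 3076596) (nat_lit 41710285) (nat_lit 14077436) [(nat_lit 0), (nat_lit 0), (nat_lit 3076596), (nat_lit 8244494)]) (PF.cons (PF.leaf (nat_lit 5887492) (nat_lit 321697) (nat_lit 41435533) (nat_lit 14033157) [(nat_lit 321697), (nat_lit 0), (nat_lit 3085568), (nat_lit 8232855)]) (PF.cons (PF.leaf (nat_lit 6097507) (nat_lit 330708) (nat_lit 41147569) (nat_lit 13985934) [(nat_lit 330708), (nat_lit 0), (nat_lit 3094046), (nat_lit 8219844)]) (PF.cons (PF.leaf (nat_lit 6316478) (nat_lit 338717) (nat_lit 40849130) (nat_lit 13936123) [(nat_lit 338717), (nat_lit 0), (nat_lit 3101905),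 (nat_lit 8205501)]) (PF.cons PF.nil PF.nil))))) (PF.cons (PF.cons (PF.leaf (nat_lit 6280143) (nat_lit 1315547) (nat_lit 40609931) (nat_lit 13892718) [(nat_lit 0), (nat_lit 1315547), (nat_lit 3101142), (nat_lit
 8189472)]) (PF.cons (PF.leaf (nat_lit 6494084) (nat_lit 341286) (nat_lit 40318039) (nat_lit 13842482) [(nat_lit 341286), (nat_lit 1325405), (nat_lit 3107592), (nat_lit 8174005)]) (PF.cons (PF.leaf (nat_lit 6716961) (nat_lit 348321) (nat_lit 40017076) (nat_lit 13789819) [(nat_lit 348321), (nat_lit 1334631), (nat_lit 3113419), (nat_lit 8157222)]) (PF.cons PF.nil PF.nil)))) (PF.cons (PF.cons (PF.leaf (nat_lit 6891333) (nat_lit 1341283) (nat_lit 39494240) (nat_lit 13693515) [(nat_lit 0), (nat_lit 1341283), (nat_lit 3116077), (nat_lit 8122412)]) (PF.cons PF.nil PF.nil)) (PF.cons PF.nil (PF.cons PF.nil PF.nil))))) (PF.cons (PF.cons (PF.cons (PF.leaf (nat_lit 6757415) (nat_lit 3099927) (nat_lit 39193753) (nat_lit 13626855) [(nat_lit 0), (nat_lit 0), (nat_lit 3099927),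 (nat_lit 8088349)]) (PF.cons (PF.leaf (nat_lit 6971165) (nat_lit 346509) (nat_lit 38909928) (nat_lit 13574397) [(nat_lit 346509), (nat_lit 0), (nat_lit 3103947), (nat_lit 8070082)]) (PF.cons PF.nil (PF.cons PF.nil PF.nil)))) (PF.cons (PF.cons (PF.leaf (nat_lit 7361252) (nat_lit 1347312) (nat_lit 38115680) (nat_lit 13421000) [(nat_lit 0), (nat_lit 1347312), (nat_lit 3106525), (nat_lit 8011767)]) (PF.cons PF.nil PF.nil))
 (PF.cons PF.nil PF.nil))) (PF.cons (PF.cons (PF.cons (PF.leaf (nat_lit 7815628) (nat_lit 3089975) (nat_lit 36799503) (nat_lit 13145892) [(nat_lit 0), (nat_lit 0), (nat_lit 3089975), (nat_lit 7893489)]) (PF.cons PF.nil PF.nil)) (PF.cons PF.nil PF.nil)) (PF.cons PF.nil PF.nil))))) (PF.cons (PF.cons (PF.cons (PF.cons (PF.leaf (nat_lit 6475642) (nat_lit 7912627) (nat_lit 37965628) (nat_lit 13317930) [(nat_lit 0), (nat_lit 0), (nat_lit 0), (nat_lit 7912627)]) (PF.cons (PF.leaf (nat_lit 6667813) (nat_lit 320193) (nat_lit 37723047) (nat_lit 13271930)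 [(nat_lit 320193), (nat_lit 0), (nat_lit 0), (nat_lit 7896820)]) (PF.cons (PF.leaf (nat_lit 6870948) (nat_lit 328548) (nat_lit 37469198) (nat_lit 13223184) [(nat_lit 328548), (nat_lit 0), (nat_lit 0), (nat_lit 7879666)]) (PF.cons (PF.leaf (nat_lit 7082277) (nat_lit 335893) (nat_lit 37206508) (nat_lit 13172090) [(nat_lit 335893), (nat_lit 0), (nat_lit 0), (nat_lit 7861267)]) (PF.cons PF.nil PF.nil))))) (PF.cons (PF.cons (PF.leaf (nat_lit 7039674) (nat_lit 1295066) (nat_lit 36999178) (nat_lit 13128825) [(nat_lit 0), (nat_lit 1295066), (nat_lit 0), (nat_lit 7842871)]) (PF.cons (PF.leaf (nat_lit 7245777) (nat_lit 337542) (nat_lit 36742755)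
 (nat_lit 13077835) [(nat_lit 337542), (nat_lit 1302979), (nat_lit 0), (nat_lit 7823850)]) (PF.cons PF.nil (PF.cons PF.nil PF.nil)))) (PF.cons (PF.cons (PF.leaf (nat_lit 7620301) (nat_lit 1314168) (nat_lit 36023203) (nat_lit 12929093) [(nat_lit 0), (nat_lit 1314168), (nat_lit 0), (nat_lit 7764089)]) (PF.cons PF.nil PF.nil)) PF.nil))) (PF.cons (PF.cons (PF.cons (PF.leaf (nat_lit 7480527) (nat_lit 3011309) (nat_lit 35770073) (nat_lit 12866630) [(nat_lit 0), (nat_lit 0), (nat_lit 3011309), (nat_lit 7730399)]) (PF.cons (PF.leaf (nat_lit 7685841) (nat_lit 340936) (nat_lit 35521451) (nat_lit 12814564) [(nat_lit 340936), (nat_lit 0), (nat_lit 3012651), (nat_lit 7709604)]) (PF.cons PF.nil PF.nil))) (PF.cons (PF.cons (PF.leaf (nat_lit 8053332) (nat_lit 1314777) (nat_lit 34829096) (nat_lit 12664351) [(nat_lit 0), (nat_lit 1314777), (nat_lit 3008857), (nat_lit 7645864)]) PF.nil) PF.nil)) (PF.cons PF.nil PF.nil))) (PF.cons (PF.cons (PF.cons (PF.cons (PF.leaf (nat_lit 8130378)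 (nat_lit 7375233) (nat_lit 32831540) (nat_lit 12151571) [(nat_lit 0), (nat_lit 0), (nat_lit 0), (nat_lit 7375233)]) (PF.cons (PF.leaf (nat_lit 8327536) (nat_lit 333612) (nat_lit 32613285) (nat_lit 12101426) [(nat_lit
 333612), (nat_lit 0), (nat_lit 0), (nat_lit 7353496)]) PF.nil)) (PF.cons PF.nil PF.nil)) (PF.cons PF.nil PF.nil)) (PF.cons PF.nil (PF.cons PF.nil (PF.cons PF.nil (PF.cons PF.nil PF.nil))))))))

def p13_10_2_0 : pfC (piC [(nat_lit 41997052), (nat_lit 26592602), (nat_lit 19805017), (nat_lit 13318063)] (nat_lit 7031977)) p13_10_2 (nat_lit 4) (nat_lit 0) (nat_lit 1) = true := by decide +kernel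
def p13_10_2_1 : pfC (piC [(nat_lit 41997052), (nat_lit 26592602), (nat_lit 19805017), (nat_lit 13318063)] (nat_lit 7031977)) p13_10_2 (nat_lit 4) (nat_lit 1) (nat_lit 2) = true := by decide +kernel
def p13_10_2_2 : pfC (piC [(nat_lit 41997052), (nat_lit 26592602), (nat_lit 19805017), (nat_lit 13318063)] (nat_lit 7031977)) p13_10_2 (nat_lit 4) (nat_lit 2) (nat_lit 3) = true := by decide +kernel
def p13_10_2_3 : pfC (piC [(nat_lit 41997052), (nat_lit 26592602), (nat_lit 19805017), (nat_lit 13318063)] (nat_lit 7031977)) p13_10_2 (nat_lit 4) (nat_lit 3) (nat_lit 4) = true := by decide +kernel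
def p13_10_2_4 : pfC (piC [(nat_lit 41997052), (nat_lit 26592602), (nat_lit 19805017), (nat_lit 13318063)] (nat_lit 7031977)) p13_10_2 (nat_lit 4) (nat_lit 4) (nat_lit 5) = true := by decide +kernel
def p13_10_2_5 : pfC (piC [(nat_lit 41997052), (nat_lit 26592602), (nat_lit 19805017), (nat_lit 13318063)] (nat_lit 7031977)) p13_10_2 (nat_lit 4) (nat_lit 5) (nat_lit 6) = true := by decide +kernel
def p13_10_2_6 : pfC (piC [(nat_lit 41997052), (nat_lit 26592602), (nat_lit 19805017), (nat_lit 13318063)] (nat_lit 7031977)) p13_10_2 (nat_lit 4) (nat_lit 6) (nat_lit 7) = true := by decide +kernel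
def p13_10_2_7 : pfC (piC [(nat_lit 41997052), (nat_lit 26592602), (nat_lit 19805017), (nat_lit 13318063)] (nat_lit 7031977)) p13_10_2 (nat_lit 4) (nat_lit 7) (nat_lit 8) = true := by decide +kernel
def p13_10_2_8 : pfC (piC [(nat_lit 41997052), (nat_lit 26592602), (nat_lit 19805017), (nat_lit 13318063)] (nat_lit 7031977)) p13_10_2 (nat_lit 4) (nat_lit 8) (nat_lit 9) = true := by decide +kernel
def p13_10_2_9 : pfC (piC [(nat_lit 41997052), (nat_lit 26592602), (nat_lit 19805017), (nat_lit 13318063)] (nat_lit 7031977)) p13_10_2 (nat_lit 4) (nat_lit 9) (nat_lit 10) = true := by decide +kernel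
def p13_10_2_10 : pfC (piC [(nat_lit 41997052), (nat_lit 26592602), (nat_lit 19805017), (nat_lit 13318063)] (nat_lit 7031977)) p13_10_2 (nat_lit 4) (nat_lit 10) (nat_lit 11) = true := by decide +kernel
def p13_10_2_11 : pfC (piC [(nat_lit 41997052), (nat_lit 26592602), (nat_lit 19805017), (nat_lit 13318063)] (nat_lit 7031977)) p13_10_2 (nat_lit 4) (nat_lit 11) (nat_lit 12) = true := by decide +kernel
def p13_10_2_12 : pfC (piC [(nat_lit 41997052), (nat_lit 26592602), (nat_lit 19805017), (nat_lit 13318063)] (nat_lit 7031977)) p13_10_2 (nat_lit 4) (nat_lit 12) (nat_lit 13) = true := by decide +kernel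
def p13_10_2_13 : pfC (piC [(nat_lit 41997052), (nat_lit 26592602), (nat_lit 19805017), (nat_lit 13318063)] (nat_lit 7031977)) p13_10_2 (nat_lit 4) (nat_lit 13) (nat_lit 14) = true := by decide +kernel
def p13_10_2_14 : pfC (piC [(nat_lit 41997052), (nat_lit 26592602), (nat_lit 19805017), (nat_lit 13318063)] (nat_lit 7031977)) p13_10_2 (nat_lit 4) (nat_lit 14) (nat_lit 15) = true := by decide +kernel
def p13_10_2_15 : pfC (piC [(nat_lit 41997052), (nat_lit 26592602), (nat_lit 19805017), (nat_lit 13318063)] (nat_lit 7031977)) p13_10_2 (nat_lit 4) (nat_lit 15) (nat_lit 16) = true := by decide +kernel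
def p13_10_2_16 : pfC (piC [(nat_lit 41997052), (nat_lit 26592602), (nat_lit 19805017), (nat_lit 13318063)] (nat_lit 7031977)) p13_10_2 (nat_lit 4) (nat_lit 16) (nat_lit 17) = true := by decide +kernel
def p13_10_2_17 : pfC (piC [(nat_lit 41997052), (nat_lit 26592602), (nat_lit 19805017), (nat_lit 13318063)] (nat_lit 7031977)) p13_10_2 (nat_lit 4) (nat_lit 17) (nat_lit 18) = true := by decide +kernel
def p13_10_2_18 : pfC (piC [(nat_lit 41997052), (nat_lit 26592602), (nat_lit 19805017), (nat_lit 13318063)] (nat_lit 7031977)) p13_10_2 (nat_lit 4) (nat_lit 18) (nat_lit 19) = true := by decide +kernel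
def p13_10_2_19 : pfC (piC [(nat_lit 41997052), (nat_lit 26592602), (nat_lit 19805017), (nat_lit 13318063)] (nat_lit 7031977)) p13_10_2 (nat_lit 4) (nat_lit 19) (nat_lit 20) = true := by decide +kernel
def p13_10_2_20 : pfC (piC [(nat_lit 41997052), (nat_lit 26592602), (nat_lit 19805017), (nat_lit 13318063)] (nat_lit 7031977)) p13_10_2 (nat_lit 4) (nat_lit 20) (nat_lit 21) = true := by decide +kernel
def p13_10_2_21 : pfC (piC [(nat_lit 41997052), (nat_lit 26592602), (nat_lit 19805017), (nat_lit 13318063)] (nat_lit 7031977)) p13_10_2 (nat_lit 4) (nat_lit 21) (nat_lit 22) = true := by decide +kernel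
def p13_10_2_22 : pfC (piC [(nat_lit 41997052), (nat_lit 26592602), (nat_lit 19805017), (nat_lit 13318063)] (nat_lit 7031977)) p13_10_2 (nat_lit 4) (nat_lit 22) (nat_lit 23) = true := by decide +kernel
def p13_10_2_23 : pfC (piC [(nat_lit 41997052), (nat_lit 26592602), (nat_lit 19805017), (nat_lit 13318063)] (nat_lit 7031977)) p13_10_2 (nat_lit 4) (nat_lit 23) (nat_lit 24) = true := by decide +kernel
def p13_10_2_24 : pfC (piC [(nat_lit 41997052), (nat_lit 26592602), (nat_lit 19805017), (nat_lit 13318063)] (nat_lit 7031977)) p13_10_2 (nat_lit 4) (nat_lit 24) (nat_lit 25) = true := by decide +kernel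
def p13_10_2_25 : pfC (piC [(nat_lit 41997052), (nat_lit 26592602), (nat_lit 19805017), (nat_lit 13318063)] (nat_lit 7031977)) p13_10_2 (nat_lit 4) (nat_lit 25) (nat_lit 26) = true := by decide +kernel
def p13_10_2_26 : pfC (piC [(nat_lit 41997052), (nat_lit 26592602), (nat_lit 19805017), (nat_lit 13318063)] (nat_lit 7031977)) p13_10_2 (nat_lit 4) (nat_lit 26) (nat_lit 27) = true := by decide +kernel
def p13_10_2_27 : pfC (piC [(nat_lit 41997052), (nat_lit 26592602), (nat_lit 19805017), (nat_lit 13318063)] (nat_lit 7031977)) p13_10_2 (nat_lit 4) (nat_lit 27) (nat_lit 28) = true := by decide +kernel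
def p13_10_2_28 : pfC (piC [(nat_lit 41997052), (nat_lit 26592602), (nat_lit 19805017), (nat_lit 13318063)] (nat_lit 7031977)) p13_10_2 (nat_lit 4) (nat_lit 28) (nat_lit 29) = true := by decide +kernel
def p13_10_2_29 : pfC (piC [(nat_lit 41997052), (nat_lit 26592602), (nat_lit 19805017), (nat_lit 13318063)] (nat_lit 7031977)) p13_10_2 (nat_lit 4) (nat_lit 29) (nat_lit 30) = true := by decide +kernel
def p13_10_2_30 : pfC (piC [(nat_lit 41997052), (nat_lit 26592602), (nat_lit 19805017), (nat_lit 13318063)] (nat_lit 7031977)) p13_10_2 (nat_lit 4) (nat_lit 30) (nat_lit 31) = true := by decide +kernel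
def p13_10_2_31 : pfC (piC [(nat_lit 41997052), (nat_lit 26592602), (nat_lit 19805017), (nat_lit 13318063)] (nat_lit 7031977)) p13_10_2 (nat_lit 4) (nat_lit 31) (nat_lit 32) = true := by decide +kernel
def p13_10_2_32 : pfC (piC [(nat_lit 41997052), (nat_lit 26592602), (nat_lit 19805017), (nat_lit 13318063)] (nat_lit 7031977)) p13_10_2 (nat_lit 4) (nat_lit 32) (nat_lit 33) = true := by decide +kernel
def p13_10_2_33 : pfC (piC [(nat_lit 41997052), (nat_lit 26592602), (nat_lit 19805017), (nat_lit 13318063)] (nat_lit 7031977)) p13_10_2 (nat_lit 4) (nat_lit 33) (nat_lit 34) = true := by decide +kernel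
def p13_10_2_34 : pfC (piC [(nat_lit 41997052), (nat_lit 26592602), (nat_lit 19805017), (nat_lit 13318063)] (nat_lit 7031977)) p13_10_2 (nat_lit 4) (nat_lit 34) (nat_lit 35) = true := by decide +kernel
def p13_10_2_35 : pfC (piC [(nat_lit 41997052), (nat_lit 26592602), (nat_lit 19805017), (nat_lit 13318063)] (nat_lit 7031977)) p13_10_2 (nat_lit 4) (nat_lit 35) (nat_lit 36) = true := by decide +kernel
def p13_10_2_36 : pfC (piC [(nat_lit 41997052), (nat_lit 26592602), (nat_lit 19805017), (nat_lit 13318063)] (nat_lit 7031977)) p13_10_2 (nat_lit 4) (nat_lit 36) (nat_lit 37) = true := by decide +kernel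
def p13_10_2_37 : pfC (piC [(nat_lit 41997052), (nat_lit 26592602), (nat_lit 19805017), (nat_lit 13318063)] (nat_lit 7031977)) p13_10_2 (nat_lit 4) (nat_lit 37) (nat_lit 38) = true := by decide +kernel
def p13_10_2_38 : pfC (piC [(nat_lit 41997052), (nat_lit 26592602), (nat_lit 19805017), (nat_lit 13318063)] (nat_lit 7031977)) p13_10_2 (nat_lit 4) (nat_lit 38) (nat_lit 39) = true := by decide +kernel
def p13_10_2_39 : pfC (piC [(nat_lit 41997052), (nat_lit 26592602), (nat_lit 19805017), (nat_lit 13318063)] (nat_lit 7031977)) p13_10_2 (nat_lit 4) (nat_lit 39) (nat_lit 40) = true := by decide +kernel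
def p13_10_2_40 : pfC (piC [(nat_lit 41997052), (nat_lit 26592602), (nat_lit 19805017), (nat_lit 13318063)] (nat_lit 7031977)) p13_10_2 (nat_lit 4) (nat_lit 40) (nat_lit 41) = true := by decide +kernel
def p13_10_2_41 : pfC (piC [(nat_lit 41997052), (nat_lit 26592602), (nat_lit 19805017), (nat_lit 13318063)] (nat_lit 7031977)) p13_10_2 (nat_lit 4) (nat_lit 41) (nat_lit 42) = true := by decide +kernel
def p13_10_2_42 : pfC (piC [(nat_lit 41997052), (nat_lit 26592602), (nat_lit 19805017), (nat_lit 13318063)] (nat_lit 7031977)) p13_10_2 (nat_lit 4) (nat_lit 42) (nat_lit 43) = true := by decide +kernel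
def p13_10_2_43 : pfC (piC [(nat_lit 41997052), (nat_lit 26592602), (nat_lit 19805017), (nat_lit 13318063)] (nat_lit 7031977)) p13_10_2 (nat_lit 4) (nat_lit 43) (nat_lit 44) = true := by decide +kernel
def p13_10_2_44 : pfC (piC [(nat_lit 41997052), (nat_lit 26592602), (nat_lit 19805017), (nat_lit 13318063)] (nat_lit 7031977)) p13_10_2 (nat_lit 4) (nat_lit 44) (nat_lit 45) = true := by decide +kernel
def p13_10_2_45 : pfC (piC [(nat_lit 41997052), (nat_lit 26592602), (nat_lit 19805017), (nat_lit 13318063)] (nat_lit 7031977)) p13_10_2 (nat_lit 4) (nat_lit 45) (nat_lit 46) = true := by decide +kernel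
def p13_10_2_46 : pfC (piC [(nat_lit 41997052), (nat_lit 26592602), (nat_lit 19805017), (nat_lit 13318063)] (nat_lit 7031977)) p13_10_2 (nat_lit 4) (nat_lit 46) (nat_lit 47) = true := by decide +kernel
def p13_10_2_47 : pfC (piC [(nat_lit 41997052), (nat_lit 26592602), (nat_lit 19805017), (nat_lit 13318063)] (nat_lit 7031977)) p13_10_2 (nat_lit 4) (nat_lit 47) (nat_lit 48) = true := by decide +kernel
def p13_10_2_48 : pfC (piC [(nat_lit 41997052), (nat_lit 26592602), (nat_lit 19805017), (nat_lit 13318063)] (nat_lit 7031977)) p13_10_2 (nat_lit 4) (nat_lit 48) (nat_lit 49) = true := by decide +kernel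
def p13_10_2_49 : pfC (piC [(nat_lit 41997052), (nat_lit 26592602), (nat_lit 19805017), (nat_lit 13318063)] (nat_lit 7031977)) p13_10_2 (nat_lit 4) (nat_lit 49) (nat_lit 50) = true := by decide +kernel
def p13_10_2_50 : pfC (piC [(nat_lit 41997052), (nat_lit 26592602), (nat_lit 19805017), (nat_lit 13318063)] (nat_lit 7031977)) p13_10_2 (nat_lit 4) (nat_lit 50) (nat_lit 51) = true := by decide +kernel
def p13_10_2_51 : pfC (piC [(nat_lit 41997052), (nat_lit 26592602), (nat_lit 19805017), (nat_lit 13318063)] (nat_lit 7031977)) p13_10_2 (nat_lit 4) (nat_lit 51) (nat_lit 52) = true := by decide +kernel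
def p13_10_2_52 : pfC (piC [(nat_lit 41997052), (nat_lit 26592602), (nat_lit 19805017), (nat_lit 13318063)] (nat_lit 7031977)) p13_10_2 (nat_lit 4) (nat_lit 52) (nat_lit 53) = true := by decide +kernel
def p13_10_2_53 : pfC (piC [(nat_lit 41997052), (nat_lit 26592602), (nat_lit 19805017), (nat_lit 13318063)] (nat_lit 7031977)) p13_10_2 (nat_lit 4) (nat_lit 53) (nat_lit 54) = true := by decide +kernel
def p13_10_2_54 : pfC (piC [(nat_lit 41997052), (nat_lit 26592602), (nat_lit 19805017), (nat_lit 13318063)] (nat_lit 7031977)) p13_10_2 (nat_lit 4) (nat_lit 54) (nat_lit 55) = true := by decide +kernel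
def p13_10_2_55 : pfC (piC [(nat_lit 41997052), (nat_lit 26592602), (nat_lit 19805017), (nat_lit 13318063)] (nat_lit 7031977)) p13_10_2 (nat_lit 4) (nat_lit 55) (nat_lit 56) = true := by decide +kernel
def p13_10_2_56 : pfC (piC [(nat_lit 41997052), (nat_lit 26592602), (nat_lit 19805017), (nat_lit 13318063)] (nat_lit 7031977)) p13_10_2 (nat_lit 4) (nat_lit 56) (nat_lit 57) = true := by decide +kernel
def p13_10_2_57 : pfC (piC [(nat_lit 41997052), (nat_lit 26592602), (nat_lit 19805017), (nat_lit 13318063)] (nat_lit 7031977)) p13_10_2 (nat_lit 4) (nat_lit 57) (nat_lit 58) = true := by decide +kernel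
def p13_10_2_58 : pfC (piC [(nat_lit 41997052), (nat_lit 26592602), (nat_lit 19805017), (nat_lit 13318063)] (nat_lit 7031977)) p13_10_2 (nat_lit 4) (nat_lit 58) (nat_lit 59) = true := by decide +kernel
def p13_10_2_59 : pfC (piC [(nat_lit 41997052), (nat_lit 26592602), (nat_lit 19805017), (nat_lit 13318063)] (nat_lit 7031977)) p13_10_2 (nat_lit 4) (nat_lit 59) (nat_lit 60) = true := by decide +kernel
def p13_10_2_60 : pfC (piC [(nat_lit 41997052), (nat_lit 26592602), (nat_lit 19805017), (nat_lit 13318063)] (nat_lit 7031977)) p13_10_2 (nat_lit 4) (nat_lit 60) (nat_lit 61) = true := by decide +kernel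
def p13_10_2_61 : pfC (piC [(nat_lit 41997052), (nat_lit 26592602), (nat_lit 19805017), (nat_lit 13318063)] (nat_lit 7031977)) p13_10_2 (nat_lit 4) (nat_lit 61) (nat_lit 62) = true := by decide +kernel
def p13_10_2_62 : pfC (piC [(nat_lit 41997052), (nat_lit 26592602), (nat_lit 19805017), (nat_lit 13318063)] (nat_lit 7031977)) p13_10_2 (nat_lit 4) (nat_lit 62) (nat_lit 63) = true := by decide +kernel
def p13_10_2_63 : pfC (piC [(nat_lit 41997052), (nat_lit 26592602), (nat_lit 19805017), (nat_lit 13318063)] (nat_lit 7031977)) p13_10_2 (nat_lit 4) (nat_lit 63) (nat_lit 64) = true := by decide +kernel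
def p13_10_2_64 : pfC (piC [(nat_lit 41997052), (nat_lit 26592602), (nat_lit 19805017), (nat_lit 13318063)] (nat_lit 7031977)) p13_10_2 (nat_lit 4) (nat_lit 64) (nat_lit 65) = true := by decide +kernel
def p13_10_2_65 : pfC (piC [(nat_lit 41997052), (nat_lit 26592602), (nat_lit 19805017), (nat_lit 13318063)] (nat_lit 7031977)) p13_10_2 (nat_lit 4) (nat_lit 65) (nat_lit 66) = true := by decide +kernel
def p13_10_2_66 : pfC (piC [(nat_lit 41997052), (nat_lit 26592602), (nat_lit 19805017), (nat_lit 13318063)] (nat_lit 7031977)) p13_10_2 (nat_lit 4) (nat_lit 66) (nat_lit 67) = true := by decide +kernel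
def p13_10_2_67 : pfC (piC [(nat_lit 41997052), (nat_lit 26592602), (nat_lit 19805017), (nat_lit 13318063)] (nat_lit 7031977)) p13_10_2 (nat_lit 4) (nat_lit 67) (nat_lit 68) = true := by decide +kernel
def p13_10_2_68 : pfC (piC [(nat_lit 41997052), (nat_lit 26592602), (nat_lit 19805017), (nat_lit 13318063)] (nat_lit 7031977)) p13_10_2 (nat_lit 4) (nat_lit 68) (nat_lit 69) = true := by decide +kernel
def p13_10_2_69 : pfC (piC [(nat_lit 41997052), (nat_lit 26592602), (nat_lit 19805017), (nat_lit 13318063)] (nat_lit 7031977)) p13_10_2 (nat_lit 4) (nat_lit 69) (nat_lit 70) = true := by decide +kernel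
def p13_10_2_70 : pfC (piC [(nat_lit 41997052), (nat_lit 26592602), (nat_lit 19805017), (nat_lit 13318063)] (nat_lit 7031977)) p13_10_2 (nat_lit 4) (nat_lit 70) (nat_lit 71) = true := by decide +kernel
def p13_10_2_71 : pfC (piC [(nat_lit 41997052), (nat_lit 26592602), (nat_lit 19805017), (nat_lit 13318063)] (nat_lit 7031977)) p13_10_2 (nat_lit 4) (nat_lit 71) (nat_lit 72) = true := by decide +kernel
def p13_10_2_72 : pfC (piC [(nat_lit 41997052), (nat_lit 26592602), (nat_lit 19805017), (nat_lit 13318063)] (nat_lit 7031977)) p13_10_2 (nat_lit 4) (nat_lit 72) (nat_lit 73) = true := by decide +kernel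
def p13_10_2_73 : pfC (piC [(nat_lit 41997052), (nat_lit 26592602), (nat_lit 19805017), (nat_lit 13318063)] (nat_lit 7031977)) p13_10_2 (nat_lit 4) (nat_lit 73) (nat_lit 74) = true := by decide +kernel
def p13_10_2_74 : pfC (piC [(nat_lit 41997052), (nat_lit 26592602), (nat_lit 19805017), (nat_lit 13318063)] (nat_lit 7031977)) p13_10_2 (nat_lit 4) (nat_lit 74) (nat_lit 75) = true := by decide +kernel
def p13_10_2_75 : pfC (piC [(nat_lit 41997052), (nat_lit 26592602), (nat_lit 19805017), (nat_lit 13318063)] (nat_lit 7031977)) p13_10_2 (nat_lit 4) (nat_lit 75) (nat_lit 76) = true := by decide +kernel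
def p13_10_2_76 : pfC (piC [(nat_lit 41997052), (nat_lit 26592602), (nat_lit 19805017), (nat_lit 13318063)] (nat_lit 7031977)) p13_10_2 (nat_lit 4) (nat_lit 76) (nat_lit 77) = true := by decide +kernel
def p13_10_2_77 : pfC (piC [(nat_lit 41997052), (nat_lit 26592602), (nat_lit 19805017), (nat_lit 13318063)] (nat_lit 7031977)) p13_10_2 (nat_lit 4) (nat_lit 77) (nat_lit 78) = true := by decide +kernel
def p13_10_2_78 : pfC (piC [(nat_lit 41997052), (nat_lit 26592602), (nat_lit 19805017), (nat_lit 13318063)] (nat_lit 7031977)) p13_10_2 (nat_lit 4) (nat_lit 78) (nat_lit 79) = true := by decide +kernel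
def p13_10_2_79 : pfC (piC [(nat_lit 41997052), (nat_lit 26592602), (nat_lit 19805017), (nat_lit 13318063)] (nat_lit 7031977)) p13_10_2 (nat_lit 4) (nat_lit 79) (nat_lit 80) = true := by decide +kernel
def p13_10_2_80 : pfC (piC [(nat_lit 41997052), (nat_lit 26592602), (nat_lit 19805017), (nat_lit 13318063)] (nat_lit 7031977)) p13_10_2 (nat_lit 4) (nat_lit 80) (nat_lit 81) = true := by decide +kernel
def p13_10_2_81 : pfC (piC [(nat_lit 41997052), (nat_lit 26592602), (nat_lit 19805017), (nat_lit 13318063)] (nat_lit 7031977)) p13_10_2 (nat_lit 4) (nat_lit 81) (nat_lit 82) = true := by decide +kernel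
def p13_10_2_82 : pfC (piC [(nat_lit 41997052), (nat_lit 26592602), (nat_lit 19805017), (nat_lit 13318063)] (nat_lit 7031977)) p13_10_2 (nat_lit 4) (nat_lit 82) (nat_lit 83) = true := by decide +kernel
def p13_10_2_83 : pfC (piC [(nat_lit 41997052), (nat_lit 26592602), (nat_lit 19805017), (nat_lit 13318063)] (nat_lit 7031977)) p13_10_2 (nat_lit 4) (nat_lit 83) (nat_lit 84) = true := by decide +kernel
def p13_10_2_84 : pfC (piC [(nat_lit 41997052), (nat_lit 26592602), (nat_lit 19805017), (nat_lit 13318063)] (nat_lit 7031977)) p13_10_2 (nat_lit 4) (nat_lit 84) (nat_lit 85) = true := by decide +kernel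
def p13_10_2_85 : pfC (piC [(nat_lit 41997052), (nat_lit 26592602), (nat_lit 19805017), (nat_lit 13318063)] (nat_lit 7031977)) p13_10_2 (nat_lit 4) (nat_lit 85) (nat_lit 86) = true := by decide +kernel
def p13_10_2_86 : pfC (piC [(nat_lit 41997052), (nat_lit 26592602), (nat_lit 19805017), (nat_lit 13318063)] (nat_lit 7031977)) p13_10_2 (nat_lit 4) (nat_lit 86) (nat_lit 87) = true := by decide +kernel
def p13_10_2_87 : pfC (piC [(nat_lit 41997052), (nat_lit 26592602), (nat_lit 19805017), (nat_lit 13318063)] (nat_lit 7031977)) p13_10_2 (nat_lit 4) (nat_lit 87) (nat_lit 88) = true := by decide +kernel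
def p13_10_2_88 : pfC (piC [(nat_lit 41997052), (nat_lit 26592602), (nat_lit 19805017), (nat_lit 13318063)] (nat_lit 7031977)) p13_10_2 (nat_lit 4) (nat_lit 88) (nat_lit 89) = true := by decide +kernel
def p13_10_2_89 : pfC (piC [(nat_lit 41997052), (nat_lit 26592602), (nat_lit 19805017), (nat_lit 13318063)] (nat_lit 7031977)) p13_10_2 (nat_lit 4) (nat_lit 89) (nat_lit 90) = true := by decide +kernel
theorem p13_10_2_T : PfS (PiF n13_10.reverse (nat_lit 7031977)) p13_10_2 (nat_lit 4) [] 0 :=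
  pftab_of (los := [(nat_lit 41997052), (nat_lit 26592602), (nat_lit 19805017), (nat_lit 13318063)]) (by decide +kernel) (hi := (nat_lit 90)) (PfP.trans (PfP.trans (PfP.trans (PfP.trans (PfP.trans (PfP.trans (PfP.trans (PfP.trans (PfP.trans (PfP.trans (PfP.trans (PfP.trans (PfP.trans (PfP.trans (PfP.trans (PfP.trans (PfP.trans (PfP.trans (PfP.trans (PfP.trans (PfP.trans (PfP.trans (PfP.trans (PfP.trans (PfP.trans (PfP.trans (PfP.trans (PfP.trans (PfP.trans (PfP.trans (PfP.trans (PfP.trans (PfP.trans (PfP.trans (PfP.trans (PfP.trans (PfP.trans (PfP.trans (PfP.trans (PfP.trans (PfP.trans (PfP.trans (PfP.trans (PfP.trans (PfP.trans (PfP.trans (PfP.trans (PfP.trans (PfP.trans (PfP.trans (PfP.trans (PfP.trans (PfP.trans (PfP.trans (PfP.trans (PfP.trans (PfP.trans (PfP.trans (PfP.trans (PfP.trans (PfP.trans (PfP.trans (PfP.trans (PfP.trans (PfP.trans (PfP.trans (PfP.trans (PfP.trans (PfP.trans (PfP.trans (PfP.trans (PfP.trans (PfP.trans (PfP.trans (PfP.trans (PfP.trans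 (PfP.trans (PfP.trans (PfP.trans (PfP.trans (PfP.trans (PfP.trans (PfP.trans (PfP.trans (PfP.trans (PfP.trans (PfP.trans (PfP.trans (PfP.trans (pfC_sound p13_10_2_0) (pfC_sound p13_10_2_1)) (pfC_sound p13_10_2_2)) (pfC_sound p13_10_2_3)) (pfC_sound p13_10_2_4)) (pfC_sound p13_10_2_5)) (pfC_sound p13_10_2_6)) (pfC_sound p13_10_2_7)) (pfC_sound p13_10_2_8))
 (pfC_sound p13_10_2_9)) (pfC_sound p13_10_2_10)) (pfC_sound p13_10_2_11)) (pfC_sound p13_10_2_12)) (pfC_sound p13_10_2_13)) (pfC_sound p13_10_2_14)) (pfC_sound p13_10_2_15)) (pfC_sound p13_10_2_16)) (pfC_sound p13_10_2_17)) (pfC_sound p13_10_2_18)) (pfC_sound p13_10_2_19)) (pfC_sound p13_10_2_20)) (pfC_sound p13_10_2_21)) (pfC_sound p13_10_2_22)) (pfC_sound p13_10_2_23)) (pfC_sound p13_10_2_24)) (pfC_sound p13_10_2_25)) (pfC_sound p13_10_2_26)) (pfC_sound p13_10_2_27)) (pfC_sound p13_10_2_28)) (pfC_sound p13_10_2_29)) (pfC_sound p13_10_2_30)) (pfC_sound p13_10_2_31)) (pfC_sound p13_10_2_32)) (pfC_sound p13_10_2_33))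 (pfC_sound p13_10_2_34)) (pfC_sound p13_10_2_35)) (pfC_sound p13_10_2_36)) (pfC_sound p13_10_2_37)) (pfC_sound p13_10_2_38)) (pfC_sound p13_10_2_39)) (pfC_sound p13_10_2_40)) (pfC_sound p13_10_2_41)) (pfC_sound p13_10_2_42)) (pfC_sound p13_10_2_43)) (pfC_sound p13_10_2_44)) (pfC_sound p13_10_2_45)) (pfC_sound p13_10_2_46)) (pfC_sound p13_10_2_47)) (pfC_sound p13_10_2_48)) (pfC_sound p13_10_2_49)) (pfC_sound p13_10_2_50)) (pfC_sound p13_10_2_51)) (pfC_sound p13_10_2_52)) (pfC_sound p13_10_2_53)) (pfC_sound p13_10_2_54)) (pfC_sound p13_10_2_55)) (pfC_sound p13_10_2_56))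
 (pfC_sound p13_10_2_57)) (pfC_sound p13_10_2_58)) (pfC_sound p13_10_2_59)) (pfC_sound p13_10_2_60)) (pfC_sound p13_10_2_61)) (pfC_sound p13_10_2_62)) (pfC_sound p13_10_2_63)) (pfC_sound p13_10_2_64)) (pfC_sound p13_10_2_65)) (pfC_sound p13_10_2_66)) (pfC_sound p13_10_2_67)) (pfC_sound p13_10_2_68)) (pfC_sound p13_10_2_69)) (pfC_sound p13_10_2_70)) (pfC_sound p13_10_2_71)) (pfC_sound p13_10_2_72)) (pfC_sound p13_10_2_73)) (pfC_sound p13_10_2_74)) (pfC_sound p13_10_2_75)) (pfC_sound p13_10_2_76)) (pfC_sound p13_10_2_77)) (pfC_sound p13_10_2_78)) (pfC_sound p13_10_2_79)) (pfC_sound p13_10_2_80)) (pfC_sound p13_10_2_81)) (pfC_sound p13_10_2_82)) (pfC_sound p13_10_2_83)) (pfC_sound p13_10_2_84)) (pfC_sound p13_10_2_85)) (pfC_sound p13_10_2_86)) (pfC_sound p13_10_2_87)) (pfC_sound p13_10_2_88)) (pfC_sound p13_10_2_89)) (by decide +kernel)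

def z13_10_2 : zOK yB13_10 (nat_lit 2) (nat_lit 600) (nat_lit 750) (nat_lit 7031977) (nat_lit 5091605) = true := by decide +kernel
def g13_10_2 : gOK yB13_10.x P13_10 (nat_lit 1426) (q13_10 :: r13_10) (nat_lit 2) (nat_lit 600) (nat_lit 3) (nat_lit 750) (nat_lit 12712500) (nat_lit 12712500) (nat_lit 12712500) (nat_lit 12712500) [(nat_lit 800), (nat_lit 1600)] = true := by decide +kernel
def v13_10_2 : ivC P13_10 s13_10 w13_10 n13_10 (nat_lit 4) (nat_lit 4860) (nat_lit 2) (nat_lit 600) f144_1_600 f152_1_600 (nat_lit 3) (nat_lit 750) f144_1_750 f152_1_750 (nat_lit 7031977) (nat_lit 5091605) p13_10_2 = true := by decide +kernel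
def p13_10_3 : PF := (PF.cons (PF.cons (PF.cons (PF.cons (PF.leaf (nat_lit 3016668) (nat_lit 19550472) (nat_lit 47558340) (nat_lit 19550472) [(nat_lit 0), (nat_lit 0), (nat_lit 0), (nat_lit 0)]) (PF.cons (PF.leaf (nat_lit 3136571) (nat_lit 203666) (nat_lit 47385949) (nat_lit 19519197) [(nat_lit 203666), (nat_lit 0), (nat_lit 0), (nat_lit 0)]) (PF.cons (PF.leaf (nat_lit 3280608) (nat_lit 221384) (nat_lit 47184015) (nat_lit 19482027) [(nat_lit 221384), (nat_lit 0), (nat_lit 0), (nat_lit 0)]) (PF.cons (PF.leaf (nat_lit 3442011) (nat_lit 237095) (nat_lit 46957806) (nat_lit 19439719) [(nat_lit 237095), (nat_lit 0), (nat_lit 0), (nat_lit 0)]) (PF.cons (PF.leaf (nat_lit 3618741) (nat_lit 251257) (nat_lit 46711017) (nat_lit 19392766) [(nat_lit 251257), (nat_lit 0), (nat_lit 0), (nat_lit 0)]) (PF.cons (PF.leaf (nat_lit 3808749) (nat_lit 264161) (nat_lit 46446475) (nat_lit 19341530) [(nat_lit 264161), (nat_lit 0), (nat_lit 0), (nat_lit 0)]) (PF.cons (PF.leaf (nat_lit 4010476)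 (nat_lit 276010) (nat_lit 46166460) (nat_lit 19286288) [(nat_lit 276010), (nat_lit 0), (nat_lit 0), (nat_lit 0)]) (PF.cons (PF.leaf (nat_lit 4222794) (nat_lit 286951) (nat_lit 45872881) (nat_lit 19227273) [(nat_lit 286951), (nat_lit 0),
 (nat_lit 0), (nat_lit 0)]) (PF.cons (PF.leaf (nat_lit 4444535) (nat_lit 297093) (nat_lit 45567378) (nat_lit 19164683) [(nat_lit 297093), (nat_lit 0), (nat_lit 0), (nat_lit 0)]) (PF.cons PF.nil PF.nil)))))))))) (PF.cons (PF.cons (PF.leaf (nat_lit 3482776) (nat_lit 1072469) (nat_lit 46656503) (nat_lit 19379839) [(nat_lit 0), (nat_lit 1072469), (nat_lit 0), (nat_lit 0)]) (PF.cons (PF.leaf (nat_lit 3640460) (nat_lit 247608) (nat_lit 46429463) (nat_lit 19335710) [(nat_lit 247608), (nat_lit 1096030), (nat_lit 0), (nat_lit 0)]) (PF.cons (PF.leaf (nat_lit 3815850) (nat_lit 261118) (nat_lit 46180721) (nat_lit 19286587) [(nat_lit 261118), (nat_lit 1119267), (nat_lit 0), (nat_lit 0)]) (PF.cons (PF.leaf (nat_lit 4005099) (nat_lit 273373)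 (nat_lit 45913891) (nat_lit 19233001) [(nat_lit 273373), (nat_lit 1141800), (nat_lit 0), (nat_lit 0)]) (PF.cons (PF.leaf (nat_lit 4206244) (nat_lit 284598) (nat_lit 45631655) (nat_lit 19175329) [(nat_lit 284598), (nat_lit 1163433), (nat_lit 0), (nat_lit 0)]) (PF.cons (PF.leaf (nat_lit 4418018) (nat_lit 294948) (nat_lit 45336138) (nat_lit 19113863) [(nat_lit 294948), (nat_lit 1184067), (nat_lit 0), (nat_lit 0)]) (PF.cons (PF.leaf (nat_lit 4639156) (nat_lit
 304535) (nat_lit 45029095) (nat_lit 19048844) [(nat_lit 304535), (nat_lit 1203661), (nat_lit 0), (nat_lit 0)]) (PF.cons PF.nil (PF.cons PF.nil PF.nil))))))))) (PF.cons (PF.cons (PF.leaf (nat_lit 4017089) (nat_lit 1149321) (nat_lit 45636405) (nat_lit 19173764) [(nat_lit 0), (nat_lit 1149321), (nat_lit 0), (nat_lit 0)]) (PF.cons (PF.leaf (nat_lit 4202824) (nat_lit 281267) (nat_lit 45370568) (nat_lit 19118502) [(nat_lit 281267), (nat_lit 1169237), (nat_lit 0), (nat_lit 0)]) (PF.cons (PF.leaf (nat_lit 4402328) (nat_lit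 292054) (nat_lit 45088671) (nat_lit 19058941) [(nat_lit 292054), (nat_lit 1188545), (nat_lit 0), (nat_lit 0)]) (PF.cons (PF.leaf (nat_lit 4612703) (nat_lit 301954) (nat_lit 44793295) (nat_lit 18995483) [(nat_lit 301954), (nat_lit 1207085), (nat_lit 0), (nat_lit 0)]) (PF.cons (PF.leaf (nat_lit 4832604) (nat_lit 311095) (nat_lit 44486449) (nat_lit 18928435) [(nat_lit 311095), (nat_lit 1224771), (nat_lit 0), (nat_lit 0)]) (PF.cons (PF.leaf (nat_lit 5060986) (nat_lit 319572) (nat_lit 44169770) (nat_lit 18858051) [(nat_lit 319572), (nat_lit 1241564), (nat_lit 0), (nat_lit 0)]) (PF.cons PF.nil PF.nil))))))) (PF.cons (PF.cons (PF.leaf (nat_lit 4600521) (nat_lit 1211098)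
 (nat_lit 44538273) (nat_lit 18937243) [(nat_lit 0), (nat_lit 1211098), (nat_lit 0), (nat_lit 0)]) (PF.cons (PF.leaf (nat_lit 4807553) (nat_lit 308045) (nat_lit 44245216) (nat_lit 18872311) [(nat_lit 308045), (nat_lit 1227746), (nat_lit 0), (nat_lit 0)]) (PF.cons (PF.leaf (nat_lit 5025481) (nat_lit 316846) (nat_lit 43940319) (nat_lit 18803672) [(nat_lit 316846), (nat_lit 1243709), (nat_lit 0), (nat_lit 0)]) (PF.cons (PF.leaf (nat_lit 5252026) (nat_lit 324972) (nat_lit 43625492) (nat_lit 18731650) [(nat_lit 324972), (nat_lit 1258917), (nat_lit 0), (nat_lit 0)]) (PF.cons PF.nil PF.nil))))) (PF.cons (PF.cons (PF.leaf (nat_lit 5219105) (nat_lit 1260716) (nat_lit 43391239) (nat_lit 18674707) [(nat_lit 0), (nat_lit 1260716), (nat_lit 0), (nat_lit 0)]) (PF.cons (PF.leaf (nat_lit 5442308) (nat_lit 329687) (nat_lit 43079776) (nat_lit 18601468) [(nat_lit 329687), (nat_lit 1274470), (nat_lit 0), (nat_lit 0)]) (PF.cons (PF.leaf (nat_lit 5674155) (nat_lit 336938) (nat_lit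 42759716) (nat_lit 18525055) [(nat_lit 336938), (nat_lit 1287541), (nat_lit 0), (nat_lit 0)]) (PF.cons PF.nil PF.nil)))) (PF.cons (PF.cons (PF.leaf (nat_lit 5861982) (nat_lit 1300224) (nat_lit 42217338) (nat_lit 18390354)
 [(nat_lit 0), (nat_lit 1300224), (nat_lit 0), (nat_lit 0)]) (PF.cons PF.nil PF.nil)) (PF.cons PF.nil (PF.cons PF.nil PF.nil)))))))) (PF.cons (PF.cons (PF.cons (PF.leaf (nat_lit 3982787) (nat_lit 2879512) (nat_lit 45167137) (nat_lit 19062162) [(nat_lit 0), (nat_lit 0), (nat_lit 2879512), (nat_lit 0)]) (PF.cons (PF.leaf (nat_lit 4148367) (nat_lit 265791) (nat_lit 44931928) (nat_lit 19012049) [(nat_lit 265791), (nat_lit 0), (nat_lit 2899043), (nat_lit 0)]) (PF.cons (PF.leaf (nat_lit 4331001) (nat_lit 278552) (nat_lit 44676102) (nat_lit 18956773) [(nat_lit 278552), (nat_lit 0), (nat_lit 2918832), (nat_lit 0)]) (PF.cons (PF.leaf (nat_lit 4526590) (nat_lit 289966) (nat_lit 44403496) (nat_lit 18897000) [(nat_lit 289966), (nat_lit 0), (nat_lit 2938416),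 (nat_lit 0)]) (PF.cons (PF.leaf (nat_lit 4733331) (nat_lit 300304) (nat_lit 44116905) (nat_lit 18833202) [(nat_lit 300304), (nat_lit 0), (nat_lit 2957486), (nat_lit 0)]) (PF.cons (PF.leaf (nat_lit 4949788) (nat_lit 309750) (nat_lit 43818491) (nat_lit 18765738) [(nat_lit 309750), (nat_lit 0), (nat_lit 2975831), (nat_lit 0)]) (PF.cons (PF.leaf (nat_lit 5174792) (nat_lit 318432) (nat_lit 43510007) (nat_lit 18694899) [(nat_lit 318432),
 (nat_lit 0), (nat_lit 2993309), (nat_lit 0)]) (PF.cons PF.nil (PF.cons PF.nil PF.nil))))))))) (PF.cons (PF.cons (PF.leaf (nat_lit 4529848) (nat_lit 1196781) (nat_lit 44130347) (nat_lit 18833700) [(nat_lit 0), (nat_lit 1196781), (nat_lit 2947983), (nat_lit 0)]) (PF.cons (PF.leaf (nat_lit 4721098) (nat_lit 296097) (nat_lit 43861133) (nat_lit 18772907) [(nat_lit 296097), (nat_lit 1213639), (nat_lit 2965034), (nat_lit 0)]) (PF.cons (PF.leaf (nat_lit 4925296) (nat_lit 306121) (nat_lit 43577095) (nat_lit 18707847) [(nat_lit 306121), (nat_lit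 1229902), (nat_lit 2981723), (nat_lit 0)]) (PF.cons (PF.leaf (nat_lit 5139617) (nat_lit 315227) (nat_lit 43280865) (nat_lit 18638999) [(nat_lit 315227), (nat_lit 1245448), (nat_lit 2997815), (nat_lit 0)]) (PF.cons (PF.leaf (nat_lit 5362704) (nat_lit 323564) (nat_lit 42974458) (nat_lit 18566726) [(nat_lit 323564), (nat_lit 1260215), (nat_lit 3013152), (nat_lit 0)]) (PF.cons PF.nil (PF.cons PF.nil PF.nil))))))) (PF.cons (PF.cons (PF.leaf (nat_lit 5119086) (nat_lit 1247495) (nat_lit 43032884) (nat_lit 18578064) [(nat_lit 0), (nat_lit 1247495), (nat_lit 3002873), (nat_lit 0)]) (PF.cons (PF.leaf (nat_lit 5329433) (nat_lit 319934) (nat_lit 42740705)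
 (nat_lit 18508337) [(nat_lit 319934), (nat_lit 1261483), (nat_lit 3016868), (nat_lit 0)]) (PF.cons (PF.leaf (nat_lit 5549894) (nat_lit 328015) (nat_lit 42437850) (nat_lit 18435050) [(nat_lit 328015), (nat_lit 1274829), (nat_lit 3030221), (nat_lit 0)]) (PF.cons (PF.leaf (nat_lit 5778240) (nat_lit 335416) (nat_lit 42126214) (nat_lit 18358570) [(nat_lit 335416), (nat_lit 1287481), (nat_lit 3042813), (nat_lit 0)]) (PF.cons PF.nil PF.nil))))) (PF.cons (PF.cons (PF.leaf (nat_lit 5737694) (nat_lit 1287888) (nat_lit 41900422) (nat_lit 18299983) [(nat_lit 0), (nat_lit 1287888), (nat_lit 3044741), (nat_lit 0)]) (PF.cons (PF.leaf (nat_lit 5962267) (nat_lit 339010) (nat_lit 41593400) (nat_lit 18222827) [(nat_lit 339010), (nat_lit 1299330), (nat_lit 3055583), (nat_lit 0)]) (PF.cons PF.nil (PF.cons PF.nil PF.nil)))) (PF.cons (PF.cons (PF.leaf (nat_lit 6375898) (nat_lit 1319621) (nat_lit 40751964) (nat_lit 18003695) [(nat_lit 0), (nat_lit 1319621), (nat_lit 3074666), (nat_lit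 0)]) (PF.cons PF.nil PF.nil)) (PF.cons PF.nil PF.nil)))))) (PF.cons (PF.cons (PF.cons (PF.leaf (nat_lit 5034890) (nat_lit 2991329) (nat_lit 42651365) (nat_lit 18474788) [(nat_lit 0), (nat_lit 0), (nat_lit 2991329), (nat_lit
 0)]) (PF.cons (PF.leaf (nat_lit 5229928) (nat_lit 307995) (nat_lit 42382341) (nat_lit 18409603) [(nat_lit 307995), (nat_lit 0), (nat_lit 3004436), (nat_lit 0)]) (PF.cons (PF.leaf (nat_lit 5437266) (nat_lit 317341) (nat_lit 42099624) (nat_lit 18340232) [(nat_lit 317341), (nat_lit 0), (nat_lit 3017137), (nat_lit 0)]) (PF.cons (PF.leaf (nat_lit 5654057) (nat_lit 325748) (nat_lit 41805851) (nat_lit 18267215) [(nat_lit 325748), (nat_lit 0), (nat_lit 3029249), (nat_lit 0)]) (PF.cons (PF.leaf (nat_lit 5878940) (nat_lit 333382) (nat_lit 41503016) (nat_lit 18190958) [(nat_lit 333382), (nat_lit 0), (nat_lit 3040654), (nat_lit 0)]) (PF.cons PF.nil (PF.cons PF.nil PF.nil))))))) (PF.cons (PF.cons (PF.leaf (nat_lit 5626047) (nat_lit 1274497) (nat_lit 41566578)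 (nat_lit 18204608) [(nat_lit 0), (nat_lit 1274497), (nat_lit 3031564), (nat_lit 0)]) (PF.cons (PF.leaf (nat_lit 5838348) (nat_lit 329317) (nat_lit 41278094) (nat_lit 18131240) [(nat_lit 329317), (nat_lit 1286264), (nat_lit 3041948), (nat_lit 0)]) (PF.cons (PF.leaf (nat_lit 6060106) (nat_lit 336763) (nat_lit 40979954) (nat_lit 18054476) [(nat_lit 336763), (nat_lit 1297423), (nat_lit 3051716), (nat_lit 0)]) (PF.cons PF.nil (PF.cons PF.nil
 PF.nil))))) (PF.cons (PF.cons (PF.leaf (nat_lit 6241802) (nat_lit 1307268) (nat_lit 40457600) (nat_lit 17915309) [(nat_lit 0), (nat_lit 1307268), (nat_lit 3060683), (nat_lit 0)]) (PF.cons (PF.leaf (nat_lit 6466701) (nat_lit 346190) (nat_lit 40157149) (nat_lit 17835344) [(nat_lit 346190), (nat_lit 1316764), (nat_lit 3068299), (nat_lit 0)]) (PF.cons PF.nil (PF.cons PF.nil PF.nil)))) (PF.cons (PF.cons (PF.leaf (nat_lit 6873260) (nat_lit 1332522) (nat_lit 39340938) (nat_lit 17611053) [(nat_lit 0), (nat_lit 1332522), (nat_lit 3079626),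 (nat_lit 0)]) (PF.cons PF.nil PF.nil)) (PF.cons PF.nil PF.nil))))) (PF.cons (PF.cons (PF.cons (PF.leaf (nat_lit 6120190) (nat_lit 3046500) (nat_lit 40147239) (nat_lit 17822071) [(nat_lit 0), (nat_lit 0), (nat_lit 3046500), (nat_lit 0)]) (PF.cons (PF.leaf (nat_lit 6333337) (nat_lit 336624) (nat_lit 39864476) (nat_lit 17746072) [(nat_lit 336624), (nat_lit 0), (nat_lit 3053879), (nat_lit 0)]) (PF.cons (PF.leaf (nat_lit 6555360) (nat_lit 343504) (nat_lit 39572954) (nat_lit 17666854) [(nat_lit 343504), (nat_lit 0), (nat_lit 3060665), (nat_lit 0)]) (PF.cons PF.nil PF.nil)))) (PF.cons (PF.cons (PF.leaf (nat_lit 6730817) (nat_lit 1320289) (nat_lit 39067904)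
 (nat_lit 17525273) [(nat_lit 0), (nat_lit 1320289), (nat_lit 3065115), (nat_lit 0)]) (PF.cons (PF.leaf (nat_lit 6955178) (nat_lit 351588) (nat_lit 38775502) (nat_lit 17443451) [(nat_lit 351588), (nat_lit 1328132), (nat_lit 3070045), (nat_lit 0)]) PF.nil)) (PF.cons PF.nil PF.nil))) (PF.cons (PF.cons (PF.cons (PF.leaf (nat_lit 7204503) (nat_lit 3060250) (nat_lit 37734170) (nat_lit 17133642) [(nat_lit 0), (nat_lit 0), (nat_lit 3060250), (nat_lit 0)]) (PF.cons PF.nil PF.nil)) (PF.cons PF.nil PF.nil)) (PF.cons PF.nil PF.nil)))))) (PF.cons (PF.cons (PF.cons (PF.cons (PF.leaf (nat_lit 4864566) (nat_lit 7992788) (nat_lit 41112141) (nat_lit 18003883) [(nat_lit 0), (nat_lit 0), (nat_lit 0), (nat_lit 7992788)]) (PF.cons (PF.leaf (nat_lit 5029906) (nat_lit 274346) (nat_lit 40896624) (nat_lit 17949524) [(nat_lit 274346), (nat_lit 0), (nat_lit 0), (nat_lit 7988317)]) (PF.cons (PF.leaf (nat_lit 5211296) (nat_lit 286502) (nat_lit 40663044) (nat_lit 17890022) [(nat_lit 286502),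 (nat_lit 0), (nat_lit 0), (nat_lit 7982739)]) (PF.cons (PF.leaf (nat_lit 5404837) (nat_lit 297202) (nat_lit 40415013) (nat_lit 17826179) [(nat_lit 297202), (nat_lit 0), (nat_lit 0), (nat_lit 7976011)]) (PF.cons (PF.leaf
 (nat_lit 5608488) (nat_lit 306751) (nat_lit 40155141) (nat_lit 17758565) [(nat_lit 306751), (nat_lit 0), (nat_lit 0), (nat_lit 7968097)]) (PF.cons (PF.leaf (nat_lit 5820863) (nat_lit 315357) (nat_lit 39885433) (nat_lit 17687617) [(nat_lit 315357), (nat_lit 0), (nat_lit 0), (nat_lit 7958976)]) (PF.cons (PF.leaf (nat_lit 6040790) (nat_lit 323166) (nat_lit 39607492) (nat_lit 17613685) [(nat_lit 323166), (nat_lit 0), (nat_lit 0), (nat_lit 7948633)]) (PF.cons PF.nil (PF.cons PF.nil PF.nil))))))))) (PF.cons (PF.cons (PF.leaf (nat_lit 5398316) (nat_lit 1212161) (nat_lit 40171585) (nat_lit 17760620) [(nat_lit 0), (nat_lit 1212161), (nat_lit 0), (nat_lit 7964445)]) (PF.cons (PF.leaf (nat_lit 5586630) (nat_lit 301748) (nat_lit 39928037) (nat_lit 17696626)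 [(nat_lit 301748), (nat_lit 1226054), (nat_lit 0), (nat_lit 7956345)]) (PF.cons (PF.leaf (nat_lit 5786966) (nat_lit 311029) (nat_lit 39671828) (nat_lit 17628617) [(nat_lit 311029), (nat_lit 1239277), (nat_lit 0), (nat_lit 7947029)]) (PF.cons (PF.leaf (nat_lit 5996499) (nat_lit 319345) (nat_lit 39405377) (nat_lit 17557147) [(nat_lit 319345), (nat_lit 1251754), (nat_lit 0), (nat_lit 7936496)]) (PF.cons (PF.leaf (nat_lit 6213878) (nat_lit
 326861) (nat_lit 39130522) (nat_lit 17482636) [(nat_lit 326861), (nat_lit 1263457), (nat_lit 0), (nat_lit 7924750)]) (PF.cons PF.nil (PF.cons PF.nil PF.nil))))))) (PF.cons (PF.cons (PF.leaf (nat_lit 5967029) (nat_lit 1251639) (nat_lit 39186585) (nat_lit 17495679) [(nat_lit 0), (nat_lit 1251639), (nat_lit 0), (nat_lit 7923269)]) (PF.cons (PF.leaf (nat_lit 6172013) (nat_lit 322662) (nat_lit 38924887) (nat_lit 17424151) [(nat_lit 322662), (nat_lit 1262809), (nat_lit 0), (nat_lit 7911493)]) (PF.cons (PF.leaf (nat_lit 6386240) (nat_lit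 329972) (nat_lit 38654270) (nat_lit 17349435) [(nat_lit 329972), (nat_lit 1273332), (nat_lit 0), (nat_lit 7898497)]) (PF.cons (PF.leaf (nat_lit 6607544) (nat_lit 336587) (nat_lit 38376436) (nat_lit 17271937) [(nat_lit 336587), (nat_lit 1283184), (nat_lit 0), (nat_lit 7884306)]) (PF.cons PF.nil PF.nil))))) (PF.cons (PF.cons (PF.leaf (nat_lit 6559135) (nat_lit 1281986) (nat_lit 38178743) (nat_lit 17214134) [(nat_lit 0), (nat_lit 1281986), (nat_lit 0), (nat_lit 7869976)]) (PF.cons (PF.leaf (nat_lit 6776246) (nat_lit 338982) (nat_lit 37905879) (nat_lit 17136705) [(nat_lit 338982), (nat_lit 1290850), (nat_lit 0), (nat_lit 7854694)]) (PF.cons PF.nil (PF.cons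
 PF.nil PF.nil)))) (PF.cons (PF.cons (PF.leaf (nat_lit 7166142) (nat_lit 1304916) (nat_lit 37163384) (nat_lit 16920081) [(nat_lit 0), (nat_lit 1304916), (nat_lit 0), (nat_lit 7805679)]) (PF.cons PF.nil PF.nil)) (PF.cons PF.nil PF.nil)))))) (PF.cons (PF.cons (PF.cons (PF.leaf (nat_lit 5869073) (nat_lit 2960686) (nat_lit 38860474) (nat_lit 17396293) [(nat_lit 0), (nat_lit 0), (nat_lit 2960686), (nat_lit 7891358)]) (PF.cons (PF.leaf (nat_lit 6059630) (nat_lit 310431) (nat_lit 38619512) (nat_lit 17329774) [(nat_lit 310431), (nat_lit 0), (nat_lit 2969021), (nat_lit 7880073)]) (PF.cons (PF.leaf (nat_lit 6261632) (nat_lit 319082) (nat_lit 38366850) (nat_lit 17259377) [(nat_lit 319082), (nat_lit 0), (nat_lit 2976892), (nat_lit 7867527)]) (PF.cons (PF.leaf (nat_lit 6472249) (nat_lit 326766) (nat_lit 38104873) (nat_lit 17185690) [(nat_lit 326766), (nat_lit 0), (nat_lit 2984183), (nat_lit 7853765)]) (PF.cons (PF.leaf (nat_lit 6690141) (nat_lit 333660) (nat_lit 37835370)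 (nat_lit 17109154) [(nat_lit 333660), (nat_lit 0), (nat_lit 2990821), (nat_lit 7838825)]) PF.nil))))) (PF.cons (PF.cons (PF.leaf (nat_lit 6436473) (nat_lit 1267806) (nat_lit 37895142) (nat_lit 17124065) [(nat_lit 0), (nat_lit
 1267806), (nat_lit 2983273), (nat_lit 7838525)]) (PF.cons (PF.leaf (nat_lit 6642210) (nat_lit 329177) (nat_lit 37638675) (nat_lit 17050707) [(nat_lit 329177), (nat_lit 1277184), (nat_lit 2989266), (nat_lit 7823801)]) (PF.cons (PF.leaf (nat_lit 6856622) (nat_lit 335927) (nat_lit 37374101) (nat_lit 16974335) [(nat_lit 335927), (nat_lit 1285959), (nat_lit 2994678), (nat_lit 7807882)]) (PF.cons PF.nil PF.nil)))) (PF.cons (PF.cons (PF.leaf (nat_lit 7023659) (nat_lit 1292201) (nat_lit 36914458) (nat_lit 16837912) [(nat_lit 0), (nat_lit 1292201), (nat_lit 2996993), (nat_lit 7775044)]) (PF.cons (PF.leaf (nat_lit 7240200) (nat_lit 343662) (nat_lit 36648892) (nat_lit 16759342) [(nat_lit 343662), (nat_lit 1299529), (nat_lit 3000707), (nat_lit 7757149)])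 PF.nil)) (PF.cons PF.nil (PF.cons PF.nil PF.nil))))) (PF.cons (PF.cons (PF.cons (PF.leaf (nat_lit 6893389) (nat_lit 2981551) (nat_lit 36651330) (nat_lit 16751169) [(nat_lit 0), (nat_lit 0), (nat_lit 2981551), (nat_lit 7743209)]) (PF.cons (PF.leaf (nat_lit 7099053) (nat_lit 334114) (nat_lit 36401270) (nat_lit 16676689) [(nat_lit 334114), (nat_lit 0), (nat_lit 2985335), (nat_lit 7726067)]) (PF.cons (PF.leaf (nat_lit 7312976) (nat_lit 340367)
 (nat_lit 36143814) (nat_lit 16599363) [(nat_lit 340367), (nat_lit 0), (nat_lit 2988567), (nat_lit 7707766)]) (PF.cons PF.nil PF.nil)))) (PF.cons (PF.cons (PF.leaf (nat_lit 7474188) (nat_lit 1297840) (nat_lit 35701057) (nat_lit 16462900) [(nat_lit 0), (nat_lit 1297840), (nat_lit 2987731), (nat_lit 7671551)]) (PF.cons PF.nil PF.nil)) (PF.cons PF.nil PF.nil))) (PF.cons (PF.cons (PF.cons (PF.leaf (nat_lit 7910799) (nat_lit 2972233) (nat_lit 34539111) (nat_lit 16091361) [(nat_lit 0), (nat_lit 0), (nat_lit 2972233), (nat_lit 7561639)])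 (PF.cons PF.nil PF.nil)) (PF.cons PF.nil PF.nil)) (PF.cons PF.nil PF.nil))))) (PF.cons (PF.cons (PF.cons (PF.cons (PF.leaf (nat_lit 6619007) (nat_lit 7580933) (nat_lit 35578437) (nat_lit 16368508) [(nat_lit 0), (nat_lit 0), (nat_lit 0), (nat_lit 7580933)]) (PF.cons (PF.leaf (nat_lit 6804154) (nat_lit 308943) (nat_lit 35363969) (nat_lit 16303500) [(nat_lit 308943), (nat_lit 0), (nat_lit 0), (nat_lit 7566199)]) (PF.cons (PF.leaf (nat_lit 7000028) (nat_lit 316992) (nat_lit 35139425) (nat_lit 16234943) [(nat_lit 316992), (nat_lit 0), (nat_lit 0), (nat_lit 7550229)]) (PF.cons (PF.leaf (nat_lit 7203825) (nat_lit 324068) (nat_lit 34906937) (nat_lit 16163433)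
 [(nat_lit 324068), (nat_lit 0), (nat_lit 0), (nat_lit 7533118)]) (PF.cons PF.nil PF.nil))))) (PF.cons (PF.cons (PF.leaf (nat_lit 7162448) (nat_lit 1248377) (nat_lit 34723626) (nat_lit 16104812) [(nat_lit 0), (nat_lit 1248377), (nat_lit 0), (nat_lit 7515998)]) (PF.cons (PF.leaf (nat_lit 7361135) (nat_lit 325647) (nat_lit 34496457) (nat_lit 16034023) [(nat_lit 325647), (nat_lit 1255995), (nat_lit 0), (nat_lit 7498344)]) (PF.cons (PF.leaf (nat_lit 7567914) (nat_lit 331827) (nat_lit 34262380) (nat_lit 15960553) [(nat_lit 331827), (nat_lit 1263028), (nat_lit 0), (nat_lit 7479597)]) (PF.cons PF.nil PF.nil)))) (PF.cons (PF.cons (PF.leaf (nat_lit 7722299) (nat_lit 1266803) (nat_lit 33858572) (nat_lit 15830758) [(nat_lit 0), (nat_lit 1266803), (nat_lit 0), (nat_lit 7442937)]) (PF.cons PF.nil PF.nil)) PF.nil))) (PF.cons (PF.cons (PF.cons (PF.leaf (nat_lit 7586900) (nat_lit 2898731) (nat_lit 33634955) (nat_lit 15751696) [(nat_lit 0), (nat_lit 0), (nat_lit 2898731), (nat_lit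 7411714)]) (PF.cons (PF.leaf (nat_lit 7785031) (nat_lit 328948) (nat_lit 33414069) (nat_lit 15680672) [(nat_lit 328948), (nat_lit 0), (nat_lit 2900140), (nat_lit 7392490)]) (PF.cons PF.nil PF.nil))) (PF.cons (PF.cons
 (PF.leaf (nat_lit 8139860) (nat_lit 1267637) (nat_lit 32798518) (nat_lit 15478573) [(nat_lit 0), (nat_lit 1267637), (nat_lit 2896912), (nat_lit 7333585)]) PF.nil) PF.nil)) (PF.cons PF.nil PF.nil))) (PF.cons (PF.cons (PF.cons (PF.cons (PF.leaf (nat_lit 8215121) (nat_lit 7084348) (nat_lit 31023431) (nat_lit 14832336) [(nat_lit 0), (nat_lit 0), (nat_lit 0), (nat_lit 7084348)]) (PF.cons (PF.leaf (nat_lit 8405870) (nat_lit 322253) (nat_lit 30827958) (nat_lit 14765614) [(nat_lit 322253), (nat_lit 0), (nat_lit 0), (nat_lit 7064328)]) PF.nil)) (PF.cons PF.nil PF.nil)) (PF.cons PF.nil PF.nil)) (PF.cons PF.nil (PF.cons PF.nil (PF.cons PF.nil (PF.cons PF.nil PF.nil))))))))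

def p13_10_3_0 : pfC (piC [(nat_lit 41997052), (nat_lit 26592602), (nat_lit 19805017), (nat_lit 13318063)] (nat_lit 5091605)) p13_10_3 (nat_lit 4) (nat_lit 0) (nat_lit 1) = true := by decide +kernel
def p13_10_3_1 : pfC (piC [(nat_lit 41997052), (nat_lit 26592602), (nat_lit 19805017), (nat_lit 13318063)] (nat_lit 5091605)) p13_10_3 (nat_lit 4) (nat_lit 1) (nat_lit 2) = true := by decide +kernel
def p13_10_3_2 : pfC (piC [(nat_lit 41997052), (nat_lit 26592602), (nat_lit 19805017), (nat_lit 13318063)] (nat_lit 5091605)) p13_10_3 (nat_lit 4) (nat_lit 2) (nat_lit 3) = true := by decide +kernel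
def p13_10_3_3 : pfC (piC [(nat_lit 41997052), (nat_lit 26592602), (nat_lit 19805017), (nat_lit 13318063)] (nat_lit 5091605)) p13_10_3 (nat_lit 4) (nat_lit 3) (nat_lit 4) = true := by decide +kernel
def p13_10_3_4 : pfC (piC [(nat_lit 41997052), (nat_lit 26592602), (nat_lit 19805017), (nat_lit 13318063)] (nat_lit 5091605)) p13_10_3 (nat_lit 4) (nat_lit 4) (nat_lit 5) = true := by decide +kernel
def p13_10_3_5 : pfC (piC [(nat_lit 41997052), (nat_lit 26592602), (nat_lit 19805017), (nat_lit 13318063)] (nat_lit 5091605)) p13_10_3 (nat_lit 4) (nat_lit 5) (nat_lit 6) = true := by decide +kernel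
def p13_10_3_6 : pfC (piC [(nat_lit 41997052), (nat_lit 26592602), (nat_lit 19805017), (nat_lit 13318063)] (nat_lit 5091605)) p13_10_3 (nat_lit 4) (nat_lit 6) (nat_lit 7) = true := by decide +kernel
def p13_10_3_7 : pfC (piC [(nat_lit 41997052), (nat_lit 26592602), (nat_lit 19805017), (nat_lit 13318063)] (nat_lit 5091605)) p13_10_3 (nat_lit 4) (nat_lit 7) (nat_lit 8) = true := by decide +kernel
def p13_10_3_8 : pfC (piC [(nat_lit 41997052), (nat_lit 26592602), (nat_lit 19805017), (nat_lit 13318063)] (nat_lit 5091605)) p13_10_3 (nat_lit 4) (nat_lit 8) (nat_lit 9) = true := by decide +kernel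
def p13_10_3_9 : pfC (piC [(nat_lit 41997052), (nat_lit 26592602), (nat_lit 19805017), (nat_lit 13318063)] (nat_lit 5091605)) p13_10_3 (nat_lit 4) (nat_lit 9) (nat_lit 10) = true := by decide +kernel
def p13_10_3_10 : pfC (piC [(nat_lit 41997052), (nat_lit 26592602), (nat_lit 19805017), (nat_lit 13318063)] (nat_lit 5091605)) p13_10_3 (nat_lit 4) (nat_lit 10) (nat_lit 11) = true := by decide +kernel
def p13_10_3_11 : pfC (piC [(nat_lit 41997052), (nat_lit 26592602), (nat_lit 19805017), (nat_lit 13318063)] (nat_lit 5091605)) p13_10_3 (nat_lit 4) (nat_lit 11) (nat_lit 12) = true := by decide +kernel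
def p13_10_3_12 : pfC (piC [(nat_lit 41997052), (nat_lit 26592602), (nat_lit 19805017), (nat_lit 13318063)] (nat_lit 5091605)) p13_10_3 (nat_lit 4) (nat_lit 12) (nat_lit 13) = true := by decide +kernel
def p13_10_3_13 : pfC (piC [(nat_lit 41997052), (nat_lit 26592602), (nat_lit 19805017), (nat_lit 13318063)] (nat_lit 5091605)) p13_10_3 (nat_lit 4) (nat_lit 13) (nat_lit 14) = true := by decide +kernel
def p13_10_3_14 : pfC (piC [(nat_lit 41997052), (nat_lit 26592602), (nat_lit 19805017), (nat_lit 13318063)] (nat_lit 5091605)) p13_10_3 (nat_lit 4) (nat_lit 14) (nat_lit 15) = true := by decide +kernel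
def p13_10_3_15 : pfC (piC [(nat_lit 41997052), (nat_lit 26592602), (nat_lit 19805017), (nat_lit 13318063)] (nat_lit 5091605)) p13_10_3 (nat_lit 4) (nat_lit 15) (nat_lit 16) = true := by decide +kernel
def p13_10_3_16 : pfC (piC [(nat_lit 41997052), (nat_lit 26592602), (nat_lit 19805017), (nat_lit 13318063)] (nat_lit 5091605)) p13_10_3 (nat_lit 4) (nat_lit 16) (nat_lit 17) = true := by decide +kernel
def p13_10_3_17 : pfC (piC [(nat_lit 41997052), (nat_lit 26592602), (nat_lit 19805017), (nat_lit 13318063)] (nat_lit 5091605)) p13_10_3 (nat_lit 4) (nat_lit 17) (nat_lit 18) = true := by decide +kernel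
def p13_10_3_18 : pfC (piC [(nat_lit 41997052), (nat_lit 26592602), (nat_lit 19805017), (nat_lit 13318063)] (nat_lit 5091605)) p13_10_3 (nat_lit 4) (nat_lit 18) (nat_lit 19) = true := by decide +kernel
def p13_10_3_19 : pfC (piC [(nat_lit 41997052), (nat_lit 26592602), (nat_lit 19805017), (nat_lit 13318063)] (nat_lit 5091605)) p13_10_3 (nat_lit 4) (nat_lit 19) (nat_lit 20) = true := by decide +kernel
def p13_10_3_20 : pfC (piC [(nat_lit 41997052), (nat_lit 26592602), (nat_lit 19805017), (nat_lit 13318063)] (nat_lit 5091605)) p13_10_3 (nat_lit 4) (nat_lit 20) (nat_lit 21) = true := by decide +kernel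
def p13_10_3_21 : pfC (piC [(nat_lit 41997052), (nat_lit 26592602), (nat_lit 19805017), (nat_lit 13318063)] (nat_lit 5091605)) p13_10_3 (nat_lit 4) (nat_lit 21) (nat_lit 22) = true := by decide +kernel
def p13_10_3_22 : pfC (piC [(nat_lit 41997052), (nat_lit 26592602), (nat_lit 19805017), (nat_lit 13318063)] (nat_lit 5091605)) p13_10_3 (nat_lit 4) (nat_lit 22) (nat_lit 23) = true := by decide +kernel
def p13_10_3_23 : pfC (piC [(nat_lit 41997052), (nat_lit 26592602), (nat_lit 19805017), (nat_lit 13318063)] (nat_lit 5091605)) p13_10_3 (nat_lit 4) (nat_lit 23) (nat_lit 24) = true := by decide +kernel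
def p13_10_3_24 : pfC (piC [(nat_lit 41997052), (nat_lit 26592602), (nat_lit 19805017), (nat_lit 13318063)] (nat_lit 5091605)) p13_10_3 (nat_lit 4) (nat_lit 24) (nat_lit 25) = true := by decide +kernel
def p13_10_3_25 : pfC (piC [(nat_lit 41997052), (nat_lit 26592602), (nat_lit 19805017), (nat_lit 13318063)] (nat_lit 5091605)) p13_10_3 (nat_lit 4) (nat_lit 25) (nat_lit 26) = true := by decide +kernel
def p13_10_3_26 : pfC (piC [(nat_lit 41997052), (nat_lit 26592602), (nat_lit 19805017), (nat_lit 13318063)] (nat_lit 5091605)) p13_10_3 (nat_lit 4) (nat_lit 26) (nat_lit 27) = true := by decide +kernel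
def p13_10_3_27 : pfC (piC [(nat_lit 41997052), (nat_lit 26592602), (nat_lit 19805017), (nat_lit 13318063)] (nat_lit 5091605)) p13_10_3 (nat_lit 4) (nat_lit 27) (nat_lit 28) = true := by decide +kernel
def p13_10_3_28 : pfC (piC [(nat_lit 41997052), (nat_lit 26592602), (nat_lit 19805017), (nat_lit 13318063)] (nat_lit 5091605)) p13_10_3 (nat_lit 4) (nat_lit 28) (nat_lit 29) = true := by decide +kernel
def p13_10_3_29 : pfC (piC [(nat_lit 41997052), (nat_lit 26592602), (nat_lit 19805017), (nat_lit 13318063)] (nat_lit 5091605)) p13_10_3 (nat_lit 4) (nat_lit 29) (nat_lit 30) = true := by decide +kernel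
def p13_10_3_30 : pfC (piC [(nat_lit 41997052), (nat_lit 26592602), (nat_lit 19805017), (nat_lit 13318063)] (nat_lit 5091605)) p13_10_3 (nat_lit 4) (nat_lit 30) (nat_lit 31) = true := by decide +kernel
def p13_10_3_31 : pfC (piC [(nat_lit 41997052), (nat_lit 26592602), (nat_lit 19805017), (nat_lit 13318063)] (nat_lit 5091605)) p13_10_3 (nat_lit 4) (nat_lit 31) (nat_lit 32) = true := by decide +kernel
def p13_10_3_32 : pfC (piC [(nat_lit 41997052), (nat_lit 26592602), (nat_lit 19805017), (nat_lit 13318063)] (nat_lit 5091605)) p13_10_3 (nat_lit 4) (nat_lit 32) (nat_lit 33) = true := by decide +kernel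
def p13_10_3_33 : pfC (piC [(nat_lit 41997052), (nat_lit 26592602), (nat_lit 19805017), (nat_lit 13318063)] (nat_lit 5091605)) p13_10_3 (nat_lit 4) (nat_lit 33) (nat_lit 34) = true := by decide +kernel
def p13_10_3_34 : pfC (piC [(nat_lit 41997052), (nat_lit 26592602), (nat_lit 19805017), (nat_lit 13318063)] (nat_lit 5091605)) p13_10_3 (nat_lit 4) (nat_lit 34) (nat_lit 35) = true := by decide +kernel
def p13_10_3_35 : pfC (piC [(nat_lit 41997052), (nat_lit 26592602), (nat_lit 19805017), (nat_lit 13318063)] (nat_lit 5091605)) p13_10_3 (nat_lit 4) (nat_lit 35) (nat_lit 36) = true := by decide +kernel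
def p13_10_3_36 : pfC (piC [(nat_lit 41997052), (nat_lit 26592602), (nat_lit 19805017), (nat_lit 13318063)] (nat_lit 5091605)) p13_10_3 (nat_lit 4) (nat_lit 36) (nat_lit 37) = true := by decide +kernel
def p13_10_3_37 : pfC (piC [(nat_lit 41997052), (nat_lit 26592602), (nat_lit 19805017), (nat_lit 13318063)] (nat_lit 5091605)) p13_10_3 (nat_lit 4) (nat_lit 37) (nat_lit 38) = true := by decide +kernel
def p13_10_3_38 : pfC (piC [(nat_lit 41997052), (nat_lit 26592602), (nat_lit 19805017), (nat_lit 13318063)] (nat_lit 5091605)) p13_10_3 (nat_lit 4) (nat_lit 38) (nat_lit 39) = true := by decide +kernel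
def p13_10_3_39 : pfC (piC [(nat_lit 41997052), (nat_lit 26592602), (nat_lit 19805017), (nat_lit 13318063)] (nat_lit 5091605)) p13_10_3 (nat_lit 4) (nat_lit 39) (nat_lit 40) = true := by decide +kernel
def p13_10_3_40 : pfC (piC [(nat_lit 41997052), (nat_lit 26592602), (nat_lit 19805017), (nat_lit 13318063)] (nat_lit 5091605)) p13_10_3 (nat_lit 4) (nat_lit 40) (nat_lit 41) = true := by decide +kernel
def p13_10_3_41 : pfC (piC [(nat_lit 41997052), (nat_lit 26592602), (nat_lit 19805017), (nat_lit 13318063)] (nat_lit 5091605)) p13_10_3 (nat_lit 4) (nat_lit 41) (nat_lit 42) = true := by decide +kernel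
def p13_10_3_42 : pfC (piC [(nat_lit 41997052), (nat_lit 26592602), (nat_lit 19805017), (nat_lit 13318063)] (nat_lit 5091605)) p13_10_3 (nat_lit 4) (nat_lit 42) (nat_lit 43) = true := by decide +kernel
def p13_10_3_43 : pfC (piC [(nat_lit 41997052), (nat_lit 26592602), (nat_lit 19805017), (nat_lit 13318063)] (nat_lit 5091605)) p13_10_3 (nat_lit 4) (nat_lit 43) (nat_lit 44) = true := by decide +kernel
def p13_10_3_44 : pfC (piC [(nat_lit 41997052), (nat_lit 26592602), (nat_lit 19805017), (nat_lit 13318063)] (nat_lit 5091605)) p13_10_3 (nat_lit 4) (nat_lit 44) (nat_lit 45) = true := by decide +kernel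
def p13_10_3_45 : pfC (piC [(nat_lit 41997052), (nat_lit 26592602), (nat_lit 19805017), (nat_lit 13318063)] (nat_lit 5091605)) p13_10_3 (nat_lit 4) (nat_lit 45) (nat_lit 46) = true := by decide +kernel
def p13_10_3_46 : pfC (piC [(nat_lit 41997052), (nat_lit 26592602), (nat_lit 19805017), (nat_lit 13318063)] (nat_lit 5091605)) p13_10_3 (nat_lit 4) (nat_lit 46) (nat_lit 47) = true := by decide +kernel
def p13_10_3_47 : pfC (piC [(nat_lit 41997052), (nat_lit 26592602), (nat_lit 19805017), (nat_lit 13318063)] (nat_lit 5091605)) p13_10_3 (nat_lit 4) (nat_lit 47) (nat_lit 48) = true := by decide +kernel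
def p13_10_3_48 : pfC (piC [(nat_lit 41997052), (nat_lit 26592602), (nat_lit 19805017), (nat_lit 13318063)] (nat_lit 5091605)) p13_10_3 (nat_lit 4) (nat_lit 48) (nat_lit 49) = true := by decide +kernel
def p13_10_3_49 : pfC (piC [(nat_lit 41997052), (nat_lit 26592602), (nat_lit 19805017), (nat_lit 13318063)] (nat_lit 5091605)) p13_10_3 (nat_lit 4) (nat_lit 49) (nat_lit 50) = true := by decide +kernel
def p13_10_3_50 : pfC (piC [(nat_lit 41997052), (nat_lit 26592602), (nat_lit 19805017), (nat_lit 13318063)] (nat_lit 5091605)) p13_10_3 (nat_lit 4) (nat_lit 50) (nat_lit 51) = true := by decide +kernel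
def p13_10_3_51 : pfC (piC [(nat_lit 41997052), (nat_lit 26592602), (nat_lit 19805017), (nat_lit 13318063)] (nat_lit 5091605)) p13_10_3 (nat_lit 4) (nat_lit 51) (nat_lit 52) = true := by decide +kernel
def p13_10_3_52 : pfC (piC [(nat_lit 41997052), (nat_lit 26592602), (nat_lit 19805017), (nat_lit 13318063)] (nat_lit 5091605)) p13_10_3 (nat_lit 4) (nat_lit 52) (nat_lit 53) = true := by decide +kernel
def p13_10_3_53 : pfC (piC [(nat_lit 41997052), (nat_lit 26592602), (nat_lit 19805017), (nat_lit 13318063)] (nat_lit 5091605)) p13_10_3 (nat_lit 4) (nat_lit 53) (nat_lit 54) = true := by decide +kernel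
def p13_10_3_54 : pfC (piC [(nat_lit 41997052), (nat_lit 26592602), (nat_lit 19805017), (nat_lit 13318063)] (nat_lit 5091605)) p13_10_3 (nat_lit 4) (nat_lit 54) (nat_lit 55) = true := by decide +kernel
def p13_10_3_55 : pfC (piC [(nat_lit 41997052), (nat_lit 26592602), (nat_lit 19805017), (nat_lit 13318063)] (nat_lit 5091605)) p13_10_3 (nat_lit 4) (nat_lit 55) (nat_lit 56) = true := by decide +kernel
def p13_10_3_56 : pfC (piC [(nat_lit 41997052), (nat_lit 26592602), (nat_lit 19805017), (nat_lit 13318063)] (nat_lit 5091605)) p13_10_3 (nat_lit 4) (nat_lit 56) (nat_lit 57) = true := by decide +kernel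
def p13_10_3_57 : pfC (piC [(nat_lit 41997052), (nat_lit 26592602), (nat_lit 19805017), (nat_lit 13318063)] (nat_lit 5091605)) p13_10_3 (nat_lit 4) (nat_lit 57) (nat_lit 58) = true := by decide +kernel
def p13_10_3_58 : pfC (piC [(nat_lit 41997052), (nat_lit 26592602), (nat_lit 19805017), (nat_lit 13318063)] (nat_lit 5091605)) p13_10_3 (nat_lit 4) (nat_lit 58) (nat_lit 59) = true := by decide +kernel
def p13_10_3_59 : pfC (piC [(nat_lit 41997052), (nat_lit 26592602), (nat_lit 19805017), (nat_lit 13318063)] (nat_lit 5091605)) p13_10_3 (nat_lit 4) (nat_lit 59) (nat_lit 60) = true := by decide +kernel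
def p13_10_3_60 : pfC (piC [(nat_lit 41997052), (nat_lit 26592602), (nat_lit 19805017), (nat_lit 13318063)] (nat_lit 5091605)) p13_10_3 (nat_lit 4) (nat_lit 60) (nat_lit 61) = true := by decide +kernel
def p13_10_3_61 : pfC (piC [(nat_lit 41997052), (nat_lit 26592602), (nat_lit 19805017), (nat_lit 13318063)] (nat_lit 5091605)) p13_10_3 (nat_lit 4) (nat_lit 61) (nat_lit 62) = true := by decide +kernel
def p13_10_3_62 : pfC (piC [(nat_lit 41997052), (nat_lit 26592602), (nat_lit 19805017), (nat_lit 13318063)] (nat_lit 5091605)) p13_10_3 (nat_lit 4) (nat_lit 62) (nat_lit 63) = true := by decide +kernel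
def p13_10_3_63 : pfC (piC [(nat_lit 41997052), (nat_lit 26592602), (nat_lit 19805017), (nat_lit 13318063)] (nat_lit 5091605)) p13_10_3 (nat_lit 4) (nat_lit 63) (nat_lit 64) = true := by decide +kernel
def p13_10_3_64 : pfC (piC [(nat_lit 41997052), (nat_lit 26592602), (nat_lit 19805017), (nat_lit 13318063)] (nat_lit 5091605)) p13_10_3 (nat_lit 4) (nat_lit 64) (nat_lit 65) = true := by decide +kernel
def p13_10_3_65 : pfC (piC [(nat_lit 41997052), (nat_lit 26592602), (nat_lit 19805017), (nat_lit 13318063)] (nat_lit 5091605)) p13_10_3 (nat_lit 4) (nat_lit 65) (nat_lit 66) = true := by decide +kernel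
def p13_10_3_66 : pfC (piC [(nat_lit 41997052), (nat_lit 26592602), (nat_lit 19805017), (nat_lit 13318063)] (nat_lit 5091605)) p13_10_3 (nat_lit 4) (nat_lit 66) (nat_lit 67) = true := by decide +kernel
def p13_10_3_67 : pfC (piC [(nat_lit 41997052), (nat_lit 26592602), (nat_lit 19805017), (nat_lit 13318063)] (nat_lit 5091605)) p13_10_3 (nat_lit 4) (nat_lit 67) (nat_lit 68) = true := by decide +kernel
def p13_10_3_68 : pfC (piC [(nat_lit 41997052), (nat_lit 26592602), (nat_lit 19805017), (nat_lit 13318063)] (nat_lit 5091605)) p13_10_3 (nat_lit 4) (nat_lit 68) (nat_lit 69) = true := by decide +kernel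
def p13_10_3_69 : pfC (piC [(nat_lit 41997052), (nat_lit 26592602), (nat_lit 19805017), (nat_lit 13318063)] (nat_lit 5091605)) p13_10_3 (nat_lit 4) (nat_lit 69) (nat_lit 70) = true := by decide +kernel
def p13_10_3_70 : pfC (piC [(nat_lit 41997052), (nat_lit 26592602), (nat_lit 19805017), (nat_lit 13318063)] (nat_lit 5091605)) p13_10_3 (nat_lit 4) (nat_lit 70) (nat_lit 71) = true := by decide +kernel
def p13_10_3_71 : pfC (piC [(nat_lit 41997052), (nat_lit 26592602), (nat_lit 19805017), (nat_lit 13318063)] (nat_lit 5091605)) p13_10_3 (nat_lit 4) (nat_lit 71) (nat_lit 72) = true := by decide +kernel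
def p13_10_3_72 : pfC (piC [(nat_lit 41997052), (nat_lit 26592602), (nat_lit 19805017), (nat_lit 13318063)] (nat_lit 5091605)) p13_10_3 (nat_lit 4) (nat_lit 72) (nat_lit 73) = true := by decide +kernel
def p13_10_3_73 : pfC (piC [(nat_lit 41997052), (nat_lit 26592602), (nat_lit 19805017), (nat_lit 13318063)] (nat_lit 5091605)) p13_10_3 (nat_lit 4) (nat_lit 73) (nat_lit 74) = true := by decide +kernel
def p13_10_3_74 : pfC (piC [(nat_lit 41997052), (nat_lit 26592602), (nat_lit 19805017), (nat_lit 13318063)] (nat_lit 5091605)) p13_10_3 (nat_lit 4) (nat_lit 74) (nat_lit 75) = true := by decide +kernel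
def p13_10_3_75 : pfC (piC [(nat_lit 41997052), (nat_lit 26592602), (nat_lit 19805017), (nat_lit 13318063)] (nat_lit 5091605)) p13_10_3 (nat_lit 4) (nat_lit 75) (nat_lit 76) = true := by decide +kernel
def p13_10_3_76 : pfC (piC [(nat_lit 41997052), (nat_lit 26592602), (nat_lit 19805017), (nat_lit 13318063)] (nat_lit 5091605)) p13_10_3 (nat_lit 4) (nat_lit 76) (nat_lit 77) = true := by decide +kernel
def p13_10_3_77 : pfC (piC [(nat_lit 41997052), (nat_lit 26592602), (nat_lit 19805017), (nat_lit 13318063)] (nat_lit 5091605)) p13_10_3 (nat_lit 4) (nat_lit 77) (nat_lit 78) = true := by decide +kernel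
def p13_10_3_78 : pfC (piC [(nat_lit 41997052), (nat_lit 26592602), (nat_lit 19805017), (nat_lit 13318063)] (nat_lit 5091605)) p13_10_3 (nat_lit 4) (nat_lit 78) (nat_lit 79) = true := by decide +kernel
def p13_10_3_79 : pfC (piC [(nat_lit 41997052), (nat_lit 26592602), (nat_lit 19805017), (nat_lit 13318063)] (nat_lit 5091605)) p13_10_3 (nat_lit 4) (nat_lit 79) (nat_lit 80) = true := by decide +kernel
def p13_10_3_80 : pfC (piC [(nat_lit 41997052), (nat_lit 26592602), (nat_lit 19805017), (nat_lit 13318063)] (nat_lit 5091605)) p13_10_3 (nat_lit 4) (nat_lit 80) (nat_lit 81) = true := by decide +kernel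
def p13_10_3_81 : pfC (piC [(nat_lit 41997052), (nat_lit 26592602), (nat_lit 19805017), (nat_lit 13318063)] (nat_lit 5091605)) p13_10_3 (nat_lit 4) (nat_lit 81) (nat_lit 82) = true := by decide +kernel
def p13_10_3_82 : pfC (piC [(nat_lit 41997052), (nat_lit 26592602), (nat_lit 19805017), (nat_lit 13318063)] (nat_lit 5091605)) p13_10_3 (nat_lit 4) (nat_lit 82) (nat_lit 83) = true := by decide +kernel
def p13_10_3_83 : pfC (piC [(nat_lit 41997052), (nat_lit 26592602), (nat_lit 19805017), (nat_lit 13318063)] (nat_lit 5091605)) p13_10_3 (nat_lit 4) (nat_lit 83) (nat_lit 84) = true := by decide +kernel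
def p13_10_3_84 : pfC (piC [(nat_lit 41997052), (nat_lit 26592602), (nat_lit 19805017), (nat_lit 13318063)] (nat_lit 5091605)) p13_10_3 (nat_lit 4) (nat_lit 84) (nat_lit 85) = true := by decide +kernel
def p13_10_3_85 : pfC (piC [(nat_lit 41997052), (nat_lit 26592602), (nat_lit 19805017), (nat_lit 13318063)] (nat_lit 5091605)) p13_10_3 (nat_lit 4) (nat_lit 85) (nat_lit 86) = true := by decide +kernel
def p13_10_3_86 : pfC (piC [(nat_lit 41997052), (nat_lit 26592602), (nat_lit 19805017), (nat_lit 13318063)] (nat_lit 5091605)) p13_10_3 (nat_lit 4) (nat_lit 86) (nat_lit 87) = true := by decide +kernel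
def p13_10_3_87 : pfC (piC [(nat_lit 41997052), (nat_lit 26592602), (nat_lit 19805017), (nat_lit 13318063)] (nat_lit 5091605)) p13_10_3 (nat_lit 4) (nat_lit 87) (nat_lit 88) = true := by decide +kernel
def p13_10_3_88 : pfC (piC [(nat_lit 41997052), (nat_lit 26592602), (nat_lit 19805017), (nat_lit 13318063)] (nat_lit 5091605)) p13_10_3 (nat_lit 4) (nat_lit 88) (nat_lit 89) = true := by decide +kernel
def p13_10_3_89 : pfC (piC [(nat_lit 41997052), (nat_lit 26592602), (nat_lit 19805017), (nat_lit 13318063)] (nat_lit 5091605)) p13_10_3 (nat_lit 4) (nat_lit 89) (nat_lit 90) = true := by decide +kernel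
def p13_10_3_90 : pfC (piC [(nat_lit 41997052), (nat_lit 26592602), (nat_lit 19805017), (nat_lit 13318063)] (nat_lit 5091605)) p13_10_3 (nat_lit 4) (nat_lit 90) (nat_lit 91) = true := by decide +kernel
def p13_10_3_91 : pfC (piC [(nat_lit 41997052), (nat_lit 26592602), (nat_lit 19805017), (nat_lit 13318063)] (nat_lit 5091605)) p13_10_3 (nat_lit 4) (nat_lit 91) (nat_lit 92) = true := by decide +kernel
def p13_10_3_92 : pfC (piC [(nat_lit 41997052), (nat_lit 26592602), (nat_lit 19805017), (nat_lit 13318063)] (nat_lit 5091605)) p13_10_3 (nat_lit 4) (nat_lit 92) (nat_lit 93) = true := by decide +kernel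
def p13_10_3_93 : pfC (piC [(nat_lit 41997052), (nat_lit 26592602), (nat_lit 19805017), (nat_lit 13318063)] (nat_lit 5091605)) p13_10_3 (nat_lit 4) (nat_lit 93) (nat_lit 94) = true := by decide +kernel
def p13_10_3_94 : pfC (piC [(nat_lit 41997052), (nat_lit 26592602), (nat_lit 19805017), (nat_lit 13318063)] (nat_lit 5091605)) p13_10_3 (nat_lit 4) (nat_lit 94) (nat_lit 95) = true := by decide +kernel
def p13_10_3_95 : pfC (piC [(nat_lit 41997052), (nat_lit 26592602), (nat_lit 19805017), (nat_lit 13318063)] (nat_lit 5091605)) p13_10_3 (nat_lit 4) (nat_lit 95) (nat_lit 96) = true := by decide +kernel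
def p13_10_3_96 : pfC (piC [(nat_lit 41997052), (nat_lit 26592602), (nat_lit 19805017), (nat_lit 13318063)] (nat_lit 5091605)) p13_10_3 (nat_lit 4) (nat_lit 96) (nat_lit 97) = true := by decide +kernel
def p13_10_3_97 : pfC (piC [(nat_lit 41997052), (nat_lit 26592602), (nat_lit 19805017), (nat_lit 13318063)] (nat_lit 5091605)) p13_10_3 (nat_lit 4) (nat_lit 97) (nat_lit 98) = true := by decide +kernel
def p13_10_3_98 : pfC (piC [(nat_lit 41997052), (nat_lit 26592602), (nat_lit 19805017), (nat_lit 13318063)] (nat_lit 5091605)) p13_10_3 (nat_lit 4) (nat_lit 98) (nat_lit 99) = true := by decide +kernel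
def p13_10_3_99 : pfC (piC [(nat_lit 41997052), (nat_lit 26592602), (nat_lit 19805017), (nat_lit 13318063)] (nat_lit 5091605)) p13_10_3 (nat_lit 4) (nat_lit 99) (nat_lit 100) = true := by decide +kernel
def p13_10_3_100 : pfC (piC [(nat_lit 41997052), (nat_lit 26592602), (nat_lit 19805017), (nat_lit 13318063)] (nat_lit 5091605)) p13_10_3 (nat_lit 4) (nat_lit 100) (nat_lit 101) = true := by decide +kernel
def p13_10_3_101 : pfC (piC [(nat_lit 41997052), (nat_lit 26592602), (nat_lit 19805017), (nat_lit 13318063)] (nat_lit 5091605)) p13_10_3 (nat_lit 4) (nat_lit 101) (nat_lit 102) = true := by decide +kernel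
def p13_10_3_102 : pfC (piC [(nat_lit 41997052), (nat_lit 26592602), (nat_lit 19805017), (nat_lit 13318063)] (nat_lit 5091605)) p13_10_3 (nat_lit 4) (nat_lit 102) (nat_lit 103) = true := by decide +kernel
def p13_10_3_103 : pfC (piC [(nat_lit 41997052), (nat_lit 26592602), (nat_lit 19805017), (nat_lit 13318063)] (nat_lit 5091605)) p13_10_3 (nat_lit 4) (nat_lit 103) (nat_lit 104) = true := by decide +kernel
def p13_10_3_104 : pfC (piC [(nat_lit 41997052), (nat_lit 26592602), (nat_lit 19805017), (nat_lit 13318063)] (nat_lit 5091605)) p13_10_3 (nat_lit 4) (nat_lit 104) (nat_lit 105) = true := by decide +kernel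
def p13_10_3_105 : pfC (piC [(nat_lit 41997052), (nat_lit 26592602), (nat_lit 19805017), (nat_lit 13318063)] (nat_lit 5091605)) p13_10_3 (nat_lit 4) (nat_lit 105) (nat_lit 106) = true := by decide +kernel
def p13_10_3_106 : pfC (piC [(nat_lit 41997052), (nat_lit 26592602), (nat_lit 19805017), (nat_lit 13318063)] (nat_lit 5091605)) p13_10_3 (nat_lit 4) (nat_lit 106) (nat_lit 107) = true := by decide +kernel
def p13_10_3_107 : pfC (piC [(nat_lit 41997052), (nat_lit 26592602), (nat_lit 19805017), (nat_lit 13318063)] (nat_lit 5091605)) p13_10_3 (nat_lit 4) (nat_lit 107) (nat_lit 108) = true := by decide +kernel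
def p13_10_3_108 : pfC (piC [(nat_lit 41997052), (nat_lit 26592602), (nat_lit 19805017), (nat_lit 13318063)] (nat_lit 5091605)) p13_10_3 (nat_lit 4) (nat_lit 108) (nat_lit 109) = true := by decide +kernel
def p13_10_3_109 : pfC (piC [(nat_lit 41997052), (nat_lit 26592602), (nat_lit 19805017), (nat_lit 13318063)] (nat_lit 5091605)) p13_10_3 (nat_lit 4) (nat_lit 109) (nat_lit 110) = true := by decide +kernel
def p13_10_3_110 : pfC (piC [(nat_lit 41997052), (nat_lit 26592602), (nat_lit 19805017), (nat_lit 13318063)] (nat_lit 5091605)) p13_10_3 (nat_lit 4) (nat_lit 110) (nat_lit 111) = true := by decide +kernel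
def p13_10_3_111 : pfC (piC [(nat_lit 41997052), (nat_lit 26592602), (nat_lit 19805017), (nat_lit 13318063)] (nat_lit 5091605)) p13_10_3 (nat_lit 4) (nat_lit 111) (nat_lit 112) = true := by decide +kernel
def p13_10_3_112 : pfC (piC [(nat_lit 41997052), (nat_lit 26592602), (nat_lit 19805017), (nat_lit 13318063)] (nat_lit 5091605)) p13_10_3 (nat_lit 4) (nat_lit 112) (nat_lit 113) = true := by decide +kernel
theorem p13_10_3_T : PfS (PiF n13_10.reverse (nat_lit 5091605)) p13_10_3 (nat_lit 4) [] 0 :=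
  pftab_of (los := [(nat_lit 41997052), (nat_lit 26592602), (nat_lit 19805017), (nat_lit 13318063)]) (by decide +kernel) (hi := (nat_lit 113)) (PfP.trans (PfP.trans (PfP.trans (PfP.trans (PfP.trans (PfP.trans (PfP.trans (PfP.trans (PfP.trans (PfP.trans (PfP.trans (PfP.trans (PfP.trans (PfP.trans (PfP.trans (PfP.trans (PfP.trans (PfP.trans (PfP.trans (PfP.trans (PfP.trans (PfP.trans (PfP.trans (PfP.trans (PfP.trans (PfP.trans (PfP.trans (PfP.trans (PfP.trans (PfP.trans (PfP.trans (PfP.trans (PfP.trans (PfP.trans (PfP.trans (PfP.trans (PfP.trans (PfP.trans (PfP.trans (PfP.trans (PfP.trans (PfP.trans (PfP.trans (PfP.trans (PfP.trans (PfP.trans (PfP.trans (PfP.trans (PfP.trans (PfP.trans (PfP.trans (PfP.trans (PfP.trans (PfP.trans (PfP.trans (PfP.trans (PfP.trans (PfP.trans (PfP.trans (PfP.trans (PfP.trans (PfP.trans (PfP.trans (PfP.trans (PfP.trans (PfP.trans (PfP.trans (PfP.trans (PfP.trans (PfP.trans (PfP.trans (PfP.trans (PfP.trans (PfP.trans (PfP.trans (PfP.trans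 (PfP.trans (PfP.trans (PfP.trans (PfP.trans (PfP.trans (PfP.trans (PfP.trans (PfP.trans (PfP.trans (PfP.trans (PfP.trans (PfP.trans (PfP.trans (PfP.trans (PfP.trans (PfP.trans (PfP.trans (PfP.trans (PfP.trans (PfP.trans (PfP.trans (PfP.trans (PfP.trans (PfP.trans (PfP.trans (PfP.trans (PfP.trans (PfP.trans (PfP.trans (PfP.trans (PfP.trans (PfP.trans (PfP.trans
 (PfP.trans (PfP.trans (PfP.trans (pfC_sound p13_10_3_0) (pfC_sound p13_10_3_1)) (pfC_sound p13_10_3_2)) (pfC_sound p13_10_3_3)) (pfC_sound p13_10_3_4)) (pfC_sound p13_10_3_5)) (pfC_sound p13_10_3_6)) (pfC_sound p13_10_3_7)) (pfC_sound p13_10_3_8)) (pfC_sound p13_10_3_9)) (pfC_sound p13_10_3_10)) (pfC_sound p13_10_3_11)) (pfC_sound p13_10_3_12)) (pfC_sound p13_10_3_13)) (pfC_sound p13_10_3_14)) (pfC_sound p13_10_3_15)) (pfC_sound p13_10_3_16)) (pfC_sound p13_10_3_17)) (pfC_sound p13_10_3_18)) (pfC_sound p13_10_3_19)) (pfC_sound p13_10_3_20)) (pfC_sound p13_10_3_21)) (pfC_sound p13_10_3_22)) (pfC_sound p13_10_3_23))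 (pfC_sound p13_10_3_24)) (pfC_sound p13_10_3_25)) (pfC_sound p13_10_3_26)) (pfC_sound p13_10_3_27)) (pfC_sound p13_10_3_28)) (pfC_sound p13_10_3_29)) (pfC_sound p13_10_3_30)) (pfC_sound p13_10_3_31)) (pfC_sound p13_10_3_32)) (pfC_sound p13_10_3_33)) (pfC_sound p13_10_3_34)) (pfC_sound p13_10_3_35)) (pfC_sound p13_10_3_36)) (pfC_sound p13_10_3_37)) (pfC_sound p13_10_3_38)) (pfC_sound p13_10_3_39)) (pfC_sound p13_10_3_40)) (pfC_sound p13_10_3_41)) (pfC_sound p13_10_3_42)) (pfC_sound p13_10_3_43)) (pfC_sound p13_10_3_44)) (pfC_sound p13_10_3_45)) (pfC_sound p13_10_3_46))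
 (pfC_sound p13_10_3_47)) (pfC_sound p13_10_3_48)) (pfC_sound p13_10_3_49)) (pfC_sound p13_10_3_50)) (pfC_sound p13_10_3_51)) (pfC_sound p13_10_3_52)) (pfC_sound p13_10_3_53)) (pfC_sound p13_10_3_54)) (pfC_sound p13_10_3_55)) (pfC_sound p13_10_3_56)) (pfC_sound p13_10_3_57)) (pfC_sound p13_10_3_58)) (pfC_sound p13_10_3_59)) (pfC_sound p13_10_3_60)) (pfC_sound p13_10_3_61)) (pfC_sound p13_10_3_62)) (pfC_sound p13_10_3_63)) (pfC_sound p13_10_3_64)) (pfC_sound p13_10_3_65)) (pfC_sound p13_10_3_66)) (pfC_sound p13_10_3_67)) (pfC_sound p13_10_3_68)) (pfC_sound p13_10_3_69)) (pfC_sound p13_10_3_70)) (pfC_sound p13_10_3_71)) (pfC_sound p13_10_3_72)) (pfC_sound p13_10_3_73)) (pfC_sound p13_10_3_74)) (pfC_sound p13_10_3_75)) (pfC_sound p13_10_3_76)) (pfC_sound p13_10_3_77)) (pfC_sound p13_10_3_78)) (pfC_sound p13_10_3_79)) (pfC_sound p13_10_3_80)) (pfC_sound p13_10_3_81)) (pfC_sound p13_10_3_82)) (pfC_sound p13_10_3_83)) (pfC_sound p13_10_3_84)) (pfC_sound p13_10_3_85))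 (pfC_sound p13_10_3_86)) (pfC_sound p13_10_3_87)) (pfC_sound p13_10_3_88)) (pfC_sound p13_10_3_89)) (pfC_sound p13_10_3_90)) (pfC_sound p13_10_3_91)) (pfC_sound p13_10_3_92)) (pfC_sound p13_10_3_93)) (pfC_sound p13_10_3_94))
 (pfC_sound p13_10_3_95)) (pfC_sound p13_10_3_96)) (pfC_sound p13_10_3_97)) (pfC_sound p13_10_3_98)) (pfC_sound p13_10_3_99)) (pfC_sound p13_10_3_100)) (pfC_sound p13_10_3_101)) (pfC_sound p13_10_3_102)) (pfC_sound p13_10_3_103)) (pfC_sound p13_10_3_104)) (pfC_sound p13_10_3_105)) (pfC_sound p13_10_3_106)) (pfC_sound p13_10_3_107)) (pfC_sound p13_10_3_108)) (pfC_sound p13_10_3_109)) (pfC_sound p13_10_3_110)) (pfC_sound p13_10_3_111)) (pfC_sound p13_10_3_112)) (by decide +kernel)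

def z13_10_3 : zOK yB13_10 (nat_lit 3) (nat_lit 750) (nat_lit 896) (nat_lit 5091605) (nat_lit 3797975) = true := by decide +kernel
def g13_10_3 : gOK yB13_10.x P13_10 (nat_lit 1426) (q13_10 :: r13_10) (nat_lit 3) (nat_lit 750) (nat_lit 4) (nat_lit 896) (nat_lit 12712500) (nat_lit 12712500) (nat_lit 12712500) (nat_lit 12712500) [(nat_lit 800)] = true := by decide +kernel
def v13_10_3 : ivC P13_10 s13_10 w13_10 n13_10 (nat_lit 4) (nat_lit 4710) (nat_lit 3) (nat_lit 750) f144_1_750 f152_1_750 (nat_lit 4) (nat_lit 896) f144_1_896 f152_1_896 (nat_lit 5091605) (nat_lit 3797975) p13_10_3 = true := by decide +kernel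
/-! box `yB13_11` -/

def P13_11 : BQ := ⟨(nat_lit 8), (nat_lit 8), (nat_lit 0), (nat_lit 4), (nat_lit 4), (nat_lit 760), (nat_lit 780), (nat_lit 120), [(nat_lit 200), (nat_lit 300), (nat_lit 450), (nat_lit 800)], (nat_lit 97792000), (nat_lit 16000000), (nat_lit 16000000000)⟩
def q13_11 : PC := ⟨(nat_lit 1000), [(nat_lit 120000), (nat_lit 200000), (nat_lit 300000), (nat_lit 450000), (nat_lit 800000)], (nat_lit 340282367000166625996085689103316680705000000), (nat_lit 15902208000000), (nat_lit 15902208000000), (nat_lit 10000000)⟩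
def r13_11 : List PC := [⟨(nat_lit 1324), [(nat_lit 120618), (nat_lit 201102), (nat_lit 301531), (nat_lit 451750), (nat_lit 801366)], (nat_lit 342157663124749625096400995727888279040641958), (nat_lit 16326645296000), (nat_lit 16338360669440), (nat_lit 10055100)⟩]
def s13_11 : List PB := [⟨(nat_lit 26480), (nat_lit 1929888000000), [(nat_lit 201102), (nat_lit 301531), (nat_lit 451750), (nat_lit 801366)], (nat_lit 342157663124749625096400995727888279040641958), (nat_lit 1142226552138624), (nat_lit 1142238267512064), (nat_lit 51840)⟩]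
def n13_11 : List KN := [⟨(nat_lit 800), (nat_lit 450), (nat_lit 13318063), (nat_lit 4942965)⟩, ⟨(nat_lit 450), (nat_lit 300), (nat_lit 19519284), (nat_lit 13318063)⟩, ⟨(nat_lit 300), (nat_lit 200), (nat_lit 26310893), (nat_lit 19519284)⟩, ⟨(nat_lit 200), (nat_lit 120), (nat_lit 41351667), (nat_lit 26310893)⟩]
def w13_11 : List ℕ := [(nat_lit 51840)]
def par13_11 : parC yB13_11 P13_11 s13_11 r13_11 q13_11 n13_11 w13_11 = true := by decide +kernel

def p13_11_0 : PF := (PF.cons (PF.cons (PF.cons (PF.cons (PF.leaf (nat_lit 565648) (nat_lit 1609066) (nat_lit 65499746) (nat_lit 1609066) [(nat_lit 0), (nat_lit 0), (nat_lit 0), (nat_lit 0)]) (PF.cons (PF.leaf (nat_lit 674660) (nat_lit 165778) (nat_lit 65288675) (nat_lit 1654359) [(nat_lit 165778), (nat_lit 0), (nat_lit 0), (nat_lit 0)]) (PF.cons (PF.leaf (nat_lit 810466) (nat_lit 183886) (nat_lit 65036355) (nat_lit 1704683) [(nat_lit 183886), (nat_lit 0), (nat_lit 0), (nat_lit 0)]) (PF.cons (PF.leaf (nat_lit 966713)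 (nat_lit 201038) (nat_lit 64747686) (nat_lit 1758010) [(nat_lit 201038), (nat_lit 0), (nat_lit 0), (nat_lit 0)]) (PF.cons (PF.leaf (nat_lit 1141840) (nat_lit 217452) (nat_lit 64426041) (nat_lit 1812963) [(nat_lit 217452), (nat_lit 0), (nat_lit 0), (nat_lit 0)]) (PF.cons (PF.leaf (nat_lit 1334612) (nat_lit 233239) (nat_lit 64074051) (nat_lit 1868565) [(nat_lit 233239), (nat_lit 0), (nat_lit 0), (nat_lit 0)]) (PF.cons (PF.leaf (nat_lit 1543962) (nat_lit 248461) (nat_lit 63693945) (nat_lit 1924100) [(nat_lit 248461), (nat_lit 0), (nat_lit 0), (nat_lit 0)]) (PF.cons (PF.leaf (nat_lit 1768902) (nat_lit 263150) (nat_lit 63287727) (nat_lit 1979031) [(nat_lit 263150), (nat_lit 0), (nat_lit 0),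
 (nat_lit 0)]) (PF.cons PF.nil (PF.cons PF.nil PF.nil)))))))))) (PF.cons (PF.cons (PF.leaf (nat_lit 1027189) (nat_lit 933705) (nat_lit 64367146) (nat_lit 1807960) [(nat_lit 0), (nat_lit 933705), (nat_lit 0), (nat_lit 0)]) (PF.cons (PF.leaf (nat_lit 1184399) (nat_lit 217967) (nat_lit 64065485) (nat_lit 1855894) [(nat_lit 217967), (nat_lit 969464), (nat_lit 0), (nat_lit 0)]) (PF.cons (PF.leaf (nat_lit 1363614) (nat_lit 233913) (nat_lit 63729073) (nat_lit 1905795) [(nat_lit 233913), (nat_lit 1006117), (nat_lit 0), (nat_lit 0)]) (PF.cons (PF.leaf (nat_lit 1560772) (nat_lit 249161) (nat_lit 63361788) (nat_lit 1956570) [(nat_lit 249161), (nat_lit 1042969), (nat_lit 0), (nat_lit 0)]) (PF.cons (PF.leaf (nat_lit 1774468) (nat_lit 263804) (nat_lit 62966573) (nat_lit 2007453) [(nat_lit 263804), (nat_lit 1079566), (nat_lit 0), (nat_lit 0)]) (PF.cons (PF.leaf (nat_lit 2003453) (nat_lit 277893) (nat_lit 62545869) (nat_lit 2057881) [(nat_lit 277893), (nat_lit 1115596), (nat_lit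 0), (nat_lit 0)]) (PF.cons (PF.leaf (nat_lit 2246845) (nat_lit 291454) (nat_lit 62101819) (nat_lit 2107436) [(nat_lit 291454), (nat_lit 1150832), (nat_lit 0), (nat_lit 0)]) (PF.cons PF.nil (PF.cons PF.nil PF.nil)))))))))
 (PF.cons (PF.cons (PF.leaf (nat_lit 1594803) (nat_lit 1063158) (nat_lit 62990566) (nat_lit 1991928) [(nat_lit 0), (nat_lit 1063158), (nat_lit 0), (nat_lit 0)]) (PF.cons (PF.leaf (nat_lit 1792704) (nat_lit 263645) (nat_lit 62613686) (nat_lit 2037979) [(nat_lit 263645), (nat_lit 1096750), (nat_lit 0), (nat_lit 0)]) (PF.cons (PF.leaf (nat_lit 2008921) (nat_lit 277828) (nat_lit 62208109) (nat_lit 2084382) [(nat_lit 277828), (nat_lit 1130332), (nat_lit 0), (nat_lit 0)]) (PF.cons (PF.leaf (nat_lit 2240653) (nat_lit 291406) (nat_lit 61777032) (nat_lit 2130513) [(nat_lit 291406), (nat_lit 1163523), (nat_lit 0), (nat_lit 0)]) (PF.cons (PF.leaf (nat_lit 2486521) (nat_lit 304427) (nat_lit 61323058) (nat_lit 2175921) [(nat_lit 304427), (nat_lit 1196061),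 (nat_lit 0), (nat_lit 0)]) (PF.cons (PF.leaf (nat_lit 2745383) (nat_lit 316918) (nat_lit 60848427) (nat_lit 2220272) [(nat_lit 316918), (nat_lit 1227759), (nat_lit 0), (nat_lit 0)]) (PF.cons PF.nil PF.nil))))))) (PF.cons (PF.cons (PF.leaf (nat_lit 2248871) (nat_lit 1177434) (nat_lit 61421051) (nat_lit 2155458) [(nat_lit 0), (nat_lit 1177434), (nat_lit 0), (nat_lit 0)]) (PF.cons (PF.leaf (nat_lit 2480550) (nat_lit 303740) (nat_lit 60983950)
 (nat_lit 2197432) [(nat_lit 303740), (nat_lit 1207896), (nat_lit 0), (nat_lit 0)]) (PF.cons (PF.leaf (nat_lit 2727526) (nat_lit 316296) (nat_lit 60523783) (nat_lit 2238865) [(nat_lit 316296), (nat_lit 1237857), (nat_lit 0), (nat_lit 0)]) (PF.cons (PF.leaf (nat_lit 2987507) (nat_lit 328292) (nat_lit 60043254) (nat_lit 2279390) [(nat_lit 328292), (nat_lit 1267097), (nat_lit 0), (nat_lit 0)]) (PF.cons PF.nil PF.nil))))) (PF.cons (PF.cons (PF.leaf (nat_lit 2970967) (nat_lit 1276482) (nat_lit 59706212) (nat_lit 2296670) [(nat_lit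 0), (nat_lit 1276482), (nat_lit 0), (nat_lit 0)]) (PF.cons (PF.leaf (nat_lit 3229943) (nat_lit 338658) (nat_lit 59223171) (nat_lit 2333524) [(nat_lit 338658), (nat_lit 1303364), (nat_lit 0), (nat_lit 0)]) (PF.cons (PF.leaf (nat_lit 3501529) (nat_lit 349666) (nat_lit 58722214) (nat_lit 2369349) [(nat_lit 349666), (nat_lit 1329479), (nat_lit 0), (nat_lit 0)]) (PF.cons PF.nil PF.nil)))) (PF.cons (PF.cons (PF.leaf (nat_lit 3743994) (nat_lit 1360729) (nat_lit 57889704) (nat_lit 2415462) [(nat_lit 0), (nat_lit 1360729), (nat_lit 0), (nat_lit 0)]) (PF.cons PF.nil PF.nil)) (PF.cons PF.nil (PF.cons PF.nil PF.nil)))))))) (PF.cons (PF.cons (PF.cons (PF.leaf (nat_lit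
 1606768) (nat_lit 2013806) (nat_lit 62321941) (nat_lit 2013806) [(nat_lit 0), (nat_lit 0), (nat_lit 2773064), (nat_lit 0)]) (PF.cons (PF.leaf (nat_lit 1782456) (nat_lit 252213) (nat_lit 61983972) (nat_lit 2054320) [(nat_lit 252213), (nat_lit 0), (nat_lit 2818306), (nat_lit 0)]) (PF.cons (PF.leaf (nat_lit 1979369) (nat_lit 267762) (nat_lit 61611716) (nat_lit 2096237) [(nat_lit 267762), (nat_lit 0), (nat_lit 2865334), (nat_lit 0)]) (PF.cons (PF.leaf (nat_lit 2193487) (nat_lit 282337) (nat_lit 61210059) (nat_lit 2138648) [(nat_lit 282337), (nat_lit 0), (nat_lit 2913093), (nat_lit 0)]) (PF.cons (PF.leaf (nat_lit 2423076) (nat_lit 296107) (nat_lit 60782629) (nat_lit 2180923) [(nat_lit 296107), (nat_lit 0), (nat_lit 2960829), (nat_lit 0)]) (PF.cons (PF.leaf (nat_lit 2666711) (nat_lit 309177) (nat_lit 60332334) (nat_lit 2222606) [(nat_lit 309177), (nat_lit 0), (nat_lit 3007982), (nat_lit 0)]) (PF.cons (PF.leaf (nat_lit 2923290) (nat_lit 321614) (nat_lit 59861635) (nat_lit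 2263358) [(nat_lit 321614), (nat_lit 0), (nat_lit 3054131), (nat_lit 0)]) (PF.cons PF.nil (PF.cons PF.nil PF.nil))))))))) (PF.cons (PF.cons (PF.leaf (nat_lit 2216364) (nat_lit 1174398) (nat_lit 60823300) (nat_lit
 2165309) [(nat_lit 0), (nat_lit 1174398), (nat_lit 2945805), (nat_lit 0)]) (PF.cons (PF.leaf (nat_lit 2429108) (nat_lit 294247) (nat_lit 60418484) (nat_lit 2203662) [(nat_lit 294247), (nat_lit 1203501), (nat_lit 2988917), (nat_lit 0)]) (PF.cons (PF.leaf (nat_lit 2659122) (nat_lit 307628) (nat_lit 59986866) (nat_lit 2242097) [(nat_lit 307628), (nat_lit 1232394), (nat_lit 3032197), (nat_lit 0)]) (PF.cons (PF.leaf (nat_lit 2903423) (nat_lit 320255) (nat_lit 59532133) (nat_lit 2280101) [(nat_lit 320255), (nat_lit 1260771), (nat_lit 3075037), (nat_lit 0)]) (PF.cons (PF.leaf (nat_lit 3160569) (nat_lit 332219) (nat_lit 59057209) (nat_lit 2317309) [(nat_lit 332219), (nat_lit 1288423), (nat_lit 3116991), (nat_lit 0)]) (PF.cons PF.nil (PF.cons PF.nil PF.nil)))))))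 (PF.cons (PF.cons (PF.leaf (nat_lit 2899049) (nat_lit 1270646) (nat_lit 59171445) (nat_lit 2298415) [(nat_lit 0), (nat_lit 1270646), (nat_lit 3097658), (nat_lit 0)]) (PF.cons (PF.leaf (nat_lit 3141587) (nat_lit 330279) (nat_lit 58716128) (nat_lit 2332851) [(nat_lit 330279), (nat_lit 1296632), (nat_lit 3136289), (nat_lit 0)]) (PF.cons (PF.leaf (nat_lit 3398133) (nat_lit 341846) (nat_lit 58240211) (nat_lit 2366650) [(nat_lit
 341846), (nat_lit 1322032), (nat_lit 3174194), (nat_lit 0)]) (PF.cons (PF.leaf (nat_lit 3666425) (nat_lit 352774) (nat_lit 57746606) (nat_lit 2399519) [(nat_lit 352774), (nat_lit 1346674), (nat_lit 3211015), (nat_lit 0)]) (PF.cons PF.nil PF.nil))))) (PF.cons (PF.cons (PF.leaf (nat_lit 3637054) (nat_lit 1352953) (nat_lit 57412182) (nat_lit 2411685) [(nat_lit 0), (nat_lit 1352953), (nat_lit 3226086), (nat_lit 0)]) (PF.cons (PF.leaf (nat_lit 3902967) (nat_lit 361077) (nat_lit 56920553) (nat_lit 2441414) [(nat_lit 361077), (nat_lit 1375539), (nat_lit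 3259148), (nat_lit 0)]) (PF.cons (PF.leaf (nat_lit 4180192) (nat_lit 371029) (nat_lit 56413566) (nat_lit 2470130) [(nat_lit 371029), (nat_lit 1397349), (nat_lit 3291007), (nat_lit 0)]) (PF.cons PF.nil PF.nil)))) (PF.cons (PF.cons (PF.leaf (nat_lit 4414692) (nat_lit 1421910) (nat_lit 55585082) (nat_lit 2505241) [(nat_lit 0), (nat_lit 1421910), (nat_lit 3330845), (nat_lit 0)]) (PF.cons PF.nil PF.nil)) (PF.cons PF.nil PF.nil)))))) (PF.cons (PF.cons (PF.cons (PF.leaf (nat_lit 2843090) (nat_lit 2300515) (nat_lit 58597288) (nat_lit 2300515) [(nat_lit 0), (nat_lit 0), (nat_lit 3105504), (nat_lit 0)]) (PF.cons (PF.leaf (nat_lit 3066761) (nat_lit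
 319601) (nat_lit 58176026) (nat_lit 2332267) [(nat_lit 319601), (nat_lit 0), (nat_lit 3140458), (nat_lit 0)]) (PF.cons (PF.leaf (nat_lit 3306552) (nat_lit 332171) (nat_lit 57729985) (nat_lit 2363881) [(nat_lit 332171), (nat_lit 0), (nat_lit 3175301), (nat_lit 0)]) (PF.cons (PF.leaf (nat_lit 3559562) (nat_lit 343876) (nat_lit 57263154) (nat_lit 2394942) [(nat_lit 343876), (nat_lit 0), (nat_lit 3209542), (nat_lit 0)]) (PF.cons (PF.leaf (nat_lit 3824323) (nat_lit 354840) (nat_lit 56778638) (nat_lit 2425156) [(nat_lit 354840), (nat_lit 0), (nat_lit 3242827), (nat_lit 0)]) (PF.cons PF.nil (PF.cons PF.nil PF.nil))))))) (PF.cons (PF.cons (PF.leaf (nat_lit 3543294) (nat_lit 1344234) (nat_lit 56905530) (nat_lit 2407968) [(nat_lit 0), (nat_lit 1344234), (nat_lit 3225539), (nat_lit 0)]) (PF.cons (PF.leaf (nat_lit 3793169) (nat_lit 351901) (nat_lit 56442346) (nat_lit 2435947) [(nat_lit 351901), (nat_lit 1366289), (nat_lit 3256164), (nat_lit 0)]) (PF.cons (PF.leaf (nat_lit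 4055948) (nat_lit 362533) (nat_lit 55960857) (nat_lit 2463226) [(nat_lit 362533), (nat_lit 1387703), (nat_lit 3285979), (nat_lit 0)]) (PF.cons (PF.leaf (nat_lit 4329280) (nat_lit 372470) (nat_lit 55464072) (nat_lit 2489571)
 [(nat_lit 372470), (nat_lit 1408342), (nat_lit 3314706), (nat_lit 0)]) (PF.cons PF.nil PF.nil))))) (PF.cons (PF.cons (PF.leaf (nat_lit 4288159) (nat_lit 1412131) (nat_lit 55137604) (nat_lit 2497652) [(nat_lit 0), (nat_lit 1412131), (nat_lit 3324645), (nat_lit 0)]) (PF.cons (PF.leaf (nat_lit 4558052) (nat_lit 378999) (nat_lit 54646185) (nat_lit 2521309) [(nat_lit 378999), (nat_lit 1430982), (nat_lit 3350177), (nat_lit 0)]) (PF.cons PF.nil (PF.cons PF.nil PF.nil)))) (PF.cons (PF.cons (PF.leaf (nat_lit 5063386) (nat_lit 1468006) (nat_lit 53328768) (nat_lit 2569975) [(nat_lit 0), (nat_lit 1468006), (nat_lit 3403025), (nat_lit 0)]) (PF.cons PF.nil PF.nil)) (PF.cons PF.nil PF.nil))))) (PF.cons (PF.cons (PF.cons (PF.leaf (nat_lit 4175285) (nat_lit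 2490014) (nat_lit 54662612) (nat_lit 2490014) [(nat_lit 0), (nat_lit 0), (nat_lit 3318728), (nat_lit 0)]) (PF.cons (PF.leaf (nat_lit 4429713) (nat_lit 369312) (nat_lit 54199529) (nat_lit 2512439) [(nat_lit 369312), (nat_lit 0), (nat_lit 3342510), (nat_lit 0)]) (PF.cons (PF.leaf (nat_lit 4695972) (nat_lit 379068) (nat_lit 53720225) (nat_lit 2534129) [(nat_lit 379068), (nat_lit 0), (nat_lit 3365440), (nat_lit 0)]) (PF.cons PF.nil (PF.cons PF.nil
 PF.nil))))) (PF.cons (PF.cons (PF.leaf (nat_lit 4920041) (nat_lit 1456884) (nat_lit 52912791) (nat_lit 2559711) [(nat_lit 0), (nat_lit 1456884), (nat_lit 3393141), (nat_lit 0)]) (PF.cons (PF.leaf (nat_lit 5191593) (nat_lit 393099) (nat_lit 52428130) (nat_lit 2578192) [(nat_lit 393099), (nat_lit 1472488), (nat_lit 3412300), (nat_lit 0)]) (PF.cons PF.nil (PF.cons PF.nil PF.nil)))) (PF.cons (PF.cons (PF.leaf (nat_lit 5687662) (nat_lit 1501571) (nat_lit 51143072) (nat_lit 2614168) [(nat_lit 0), (nat_lit 1501571), (nat_lit 3449476),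 (nat_lit 0)]) (PF.cons PF.nil PF.nil)) PF.nil))) (PF.cons (PF.cons (PF.cons (PF.leaf (nat_lit 5530062) (nat_lit 2602079) (nat_lit 50758597) (nat_lit 2602079) [(nat_lit 0), (nat_lit 0), (nat_lit 3437034), (nat_lit 0)]) (PF.cons (PF.leaf (nat_lit 5801507) (nat_lit 403954) (nat_lit 50285417) (nat_lit 2616162) [(nat_lit 403954), (nat_lit 0), (nat_lit 3450819), (nat_lit 0)]) PF.nil)) (PF.cons PF.nil PF.nil)) (PF.cons PF.nil (PF.cons PF.nil (PF.cons PF.nil PF.nil)))))))) (PF.cons (PF.cons (PF.cons (PF.cons (PF.leaf (nat_lit 2871803) (nat_lit 2240578) (nat_lit 55414391) (nat_lit 2240578) [(nat_lit 0), (nat_lit 0), (nat_lit 0), (nat_lit 9453843)]) (PF.cons (PF.leaf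
 (nat_lit 3057497) (nat_lit 287047) (nat_lit 55081751) (nat_lit 2269611) [(nat_lit 287047), (nat_lit 0), (nat_lit 0), (nat_lit 9470402)]) (PF.cons (PF.leaf (nat_lit 3262768) (nat_lit 302059) (nat_lit 54718885) (nat_lit 2299129) [(nat_lit 302059), (nat_lit 0), (nat_lit 0), (nat_lit 9486680)]) (PF.cons (PF.leaf (nat_lit 3483730) (nat_lit 315698) (nat_lit 54331149) (nat_lit 2328486) [(nat_lit 315698), (nat_lit 0), (nat_lit 0), (nat_lit 9502081)]) (PF.cons (PF.leaf (nat_lit 3718266) (nat_lit 328228) (nat_lit 53922481) (nat_lit 2357260) [(nat_lit 328228), (nat_lit 0), (nat_lit 0), (nat_lit 9516156)]) (PF.cons (PF.leaf (nat_lit 3964765) (nat_lit 339821) (nat_lit 53495978) (nat_lit 2385166) [(nat_lit 339821), (nat_lit 0), (nat_lit 0), (nat_lit 9528558)]) (PF.cons (PF.leaf (nat_lit 4221909) (nat_lit 350600) (nat_lit 53054183) (nat_lit 2412007) [(nat_lit 350600), (nat_lit 0), (nat_lit 0), (nat_lit 9539020)]) (PF.cons (PF.leaf (nat_lit 4488594) (nat_lit 360652) (nat_lit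 52599259) (nat_lit 2437649) [(nat_lit 360652), (nat_lit 0), (nat_lit 0), (nat_lit 9547334)]) (PF.cons PF.nil (PF.cons PF.nil PF.nil)))))))))) (PF.cons (PF.cons (PF.leaf (nat_lit 3486779) (nat_lit 1287332) (nat_lit 53970050)
 (nat_lit 2342570) [(nat_lit 0), (nat_lit 1287332), (nat_lit 0), (nat_lit 9508858)]) (PF.cons (PF.leaf (nat_lit 3703861) (nat_lit 324090) (nat_lit 53585850) (nat_lit 2368640) [(nat_lit 324090), (nat_lit 1309854), (nat_lit 0), (nat_lit 9520376)]) (PF.cons (PF.leaf (nat_lit 3936214) (nat_lit 336237) (nat_lit 53179642) (nat_lit 2394355) [(nat_lit 336237), (nat_lit 1331789), (nat_lit 0), (nat_lit 9530551)]) (PF.cons (PF.leaf (nat_lit 4180892) (nat_lit 347412) (nat_lit 52755202) (nat_lit 2419383) [(nat_lit 347412), (nat_lit 1352942), (nat_lit 0), (nat_lit 9539047)]) (PF.cons (PF.leaf (nat_lit 4436374) (nat_lit 357758) (nat_lit 52315460) (nat_lit 2443499) [(nat_lit 357758), (nat_lit 1373201), (nat_lit 0), (nat_lit 9545615)]) (PF.cons (PF.leaf (nat_lit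 4701387) (nat_lit 367377) (nat_lit 51862804) (nat_lit 2466552) [(nat_lit 367377), (nat_lit 1392499), (nat_lit 0), (nat_lit 9550066)]) (PF.cons (PF.leaf (nat_lit 4974847) (nat_lit 376343) (nat_lit 51399244) (nat_lit 2488437) [(nat_lit 376343), (nat_lit 1410802), (nat_lit 0), (nat_lit 9552266)]) (PF.cons PF.nil (PF.cons PF.nil PF.nil))))))))) (PF.cons (PF.cons (PF.leaf (nat_lit 4156189) (nat_lit 1356887) (nat_lit 52428703) (nat_lit 2427793)
 [(nat_lit 0), (nat_lit 1356887), (nat_lit 0), (nat_lit 9538541)]) (PF.cons (PF.leaf (nat_lit 4397116) (nat_lit 354070) (nat_lit 52009244) (nat_lit 2450104) [(nat_lit 354070), (nat_lit 1376038), (nat_lit 0), (nat_lit 9543317)]) (PF.cons (PF.leaf (nat_lit 4650022) (nat_lit 364079) (nat_lit 51573901) (nat_lit 2471661) [(nat_lit 364079), (nat_lit 1394448), (nat_lit 0), (nat_lit 9546194)]) (PF.cons (PF.leaf (nat_lit 4912675) (nat_lit 373339) (nat_lit 51125459) (nat_lit 2492288) [(nat_lit 373339), (nat_lit 1412023), (nat_lit 0), (nat_lit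 9547000)]) (PF.cons (PF.leaf (nat_lit 5183846) (nat_lit 381936) (nat_lit 50666167) (nat_lit 2511866) [(nat_lit 381936), (nat_lit 1428709), (nat_lit 0), (nat_lit 9545614)]) (PF.cons (PF.leaf (nat_lit 5462499) (nat_lit 389936) (nat_lit 50197900) (nat_lit 2530319) [(nat_lit 389936), (nat_lit 1444476), (nat_lit 0), (nat_lit 9541956)]) (PF.cons PF.nil PF.nil))))))) (PF.cons (PF.cons (PF.leaf (nat_lit 4864023) (nat_lit 1413648) (nat_lit 50830125) (nat_lit 2496745) [(nat_lit 0), (nat_lit 1413648), (nat_lit 0), (nat_lit 9540995)]) (PF.cons (PF.leaf (nat_lit 5122821) (nat_lit 378562) (nat_lit 50387950) (nat_lit 2515088) [(nat_lit 378562), (nat_lit 1429604),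
 (nat_lit 0), (nat_lit 9538397)]) (PF.cons (PF.leaf (nat_lit 5391036) (nat_lit 386854) (nat_lit 49934608) (nat_lit 2532501) [(nat_lit 386854), (nat_lit 1444774), (nat_lit 0), (nat_lit 9533670)]) (PF.cons (PF.leaf (nat_lit 5666850) (nat_lit 394536) (nat_lit 49472217) (nat_lit 2548895) [(nat_lit 394536), (nat_lit 1459113), (nat_lit 0), (nat_lit 9526749)]) (PF.cons PF.nil PF.nil))))) (PF.cons (PF.cons (PF.leaf (nat_lit 5597402) (nat_lit 1459132) (nat_lit 49205043) (nat_lit 2550538) [(nat_lit 0), (nat_lit 1459132), (nat_lit 0), (nat_lit 9516701)]) (PF.cons (PF.leaf (nat_lit 5869197) (nat_lit 398535) (nat_lit 48749987) (nat_lit 2564999) [(nat_lit 398535), (nat_lit 1472129), (nat_lit 0), (nat_lit 9506771)]) (PF.cons (PF.leaf (nat_lit 6148345) (nat_lit 405392) (nat_lit 48287454) (nat_lit 2578478) [(nat_lit 405392), (nat_lit 1484349), (nat_lit 0), (nat_lit 9494695)]) (PF.cons PF.nil PF.nil)))) (PF.cons (PF.cons (PF.leaf (nat_lit 6345819) (nat_lit 1494668) (nat_lit 47577371)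 (nat_lit 2590555) [(nat_lit 0), (nat_lit 1494668), (nat_lit 0), (nat_lit 9467540)]) (PF.cons PF.nil PF.nil)) (PF.cons PF.nil (PF.cons PF.nil PF.nil)))))))) (PF.cons (PF.cons (PF.cons (PF.leaf (nat_lit 4065864) (nat_lit
 2417602) (nat_lit 51934478) (nat_lit 2417602) [(nat_lit 0), (nat_lit 0), (nat_lit 3238204), (nat_lit 9518526)]) (PF.cons (PF.leaf (nat_lit 4288775) (nat_lit 341199) (nat_lit 51548081) (nat_lit 2438723) [(nat_lit 341199), (nat_lit 0), (nat_lit 3259398), (nat_lit 9521409)]) (PF.cons (PF.leaf (nat_lit 4526053) (nat_lit 352516) (nat_lit 51141543) (nat_lit 2459406) [(nat_lit 352516), (nat_lit 0), (nat_lit 3280153), (nat_lit 9522676)]) (PF.cons (PF.leaf (nat_lit 4774745) (nat_lit 362813) (nat_lit 50718698) (nat_lit 2479385) [(nat_lit 362813), (nat_lit 0), (nat_lit 3300171), (nat_lit 9522118)]) (PF.cons (PF.leaf (nat_lit 5033295) (nat_lit 372254) (nat_lit 50282477) (nat_lit 2498486) [(nat_lit 372254), (nat_lit 0), (nat_lit 3319244), (nat_lit 9519588)])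 (PF.cons (PF.leaf (nat_lit 5300426) (nat_lit 380955) (nat_lit 49835229) (nat_lit 2516591) [(nat_lit 380955), (nat_lit 0), (nat_lit 3337231), (nat_lit 9514981)]) (PF.cons (PF.leaf (nat_lit 5575065) (nat_lit 389003) (nat_lit 49378902) (nat_lit 2533625) [(nat_lit 389003), (nat_lit 0), (nat_lit 3354033), (nat_lit 9508229)]) (PF.cons PF.nil (PF.cons PF.nil PF.nil))))))))) (PF.cons (PF.cons (PF.leaf (nat_lit 4740194) (nat_lit 1399812) (nat_lit
 50403245) (nat_lit 2484457) [(nat_lit 0), (nat_lit 1399812), (nat_lit 3306071), (nat_lit 9515224)]) (PF.cons (PF.leaf (nat_lit 4984275) (nat_lit 367938) (nat_lit 49987722) (nat_lit 2502144) [(nat_lit 367938), (nat_lit 1415902), (nat_lit 3323539), (nat_lit 9511566)]) (PF.cons (PF.leaf (nat_lit 5239469) (nat_lit 377117) (nat_lit 49558078) (nat_lit 2519086) [(nat_lit 377117), (nat_lit 1431262), (nat_lit 3340184), (nat_lit 9505966)]) (PF.cons (PF.leaf (nat_lit 5503510) (nat_lit 385529) (nat_lit 49117063) (nat_lit 2535146) [(nat_lit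 385529), (nat_lit 1445824), (nat_lit 3355850), (nat_lit 9498338)]) (PF.cons (PF.leaf (nat_lit 5775205) (nat_lit 393275) (nat_lit 48666863) (nat_lit 2550236) [(nat_lit 393275), (nat_lit 1459552), (nat_lit 3370430), (nat_lit 9488628)]) (PF.cons PF.nil (PF.cons PF.nil PF.nil))))))) (PF.cons (PF.cons (PF.leaf (nat_lit 5445742) (nat_lit 1445902) (nat_lit 48834364) (nat_lit 2537118) [(nat_lit 0), (nat_lit 1445902), (nat_lit 3358070), (nat_lit 9487454)]) (PF.cons (PF.leaf (nat_lit 5705311) (nat_lit 389455) (nat_lit 48401324) (nat_lit 2551254) [(nat_lit 389455), (nat_lit 1459083), (nat_lit 3371553), (nat_lit 9477057)]) (PF.cons (PF.leaf (nat_lit 5973476) (nat_lit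
 396957) (nat_lit 47958650) (nat_lit 2564522) [(nat_lit 396957), (nat_lit 1471519), (nat_lit 3384051), (nat_lit 9464635)]) (PF.cons (PF.leaf (nat_lit 6248463) (nat_lit 403851) (nat_lit 47508383) (nat_lit 2576854) [(nat_lit 403851), (nat_lit 1483180), (nat_lit 3395484), (nat_lit 9450175)]) (PF.cons PF.nil PF.nil))))) (PF.cons (PF.cons (PF.leaf (nat_lit 6170861) (nat_lit 1482052) (nat_lit 47254457) (nat_lit 2576640) [(nat_lit 0), (nat_lit 1482052), (nat_lit 3395075), (nat_lit 9436481)]) (PF.cons (PF.leaf (nat_lit 6441396) (nat_lit 406748) (nat_lit 46812722) (nat_lit 2587350) [(nat_lit 406748), (nat_lit 1492572), (nat_lit 3404648), (nat_lit 9419625)]) (PF.cons PF.nil (PF.cons PF.nil PF.nil)))) (PF.cons (PF.cons (PF.leaf (nat_lit 6906276) (nat_lit 1509487) (nat_lit 45683684) (nat_lit 2604300) [(nat_lit 0), (nat_lit 1509487), (nat_lit 3418397), (nat_lit 9364481)]) (PF.cons PF.nil PF.nil)) (PF.cons PF.nil PF.nil)))))) (PF.cons (PF.cons (PF.cons (PF.leaf (nat_lit 5308267)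 (nat_lit 2523374) (nat_lit 48439943) (nat_lit 2523374) [(nat_lit 0), (nat_lit 0), (nat_lit 3344253), (nat_lit 9456987)]) (PF.cons (PF.leaf (nat_lit 5553811) (nat_lit 378811) (nat_lit 48032443) (nat_lit 2537137) [(nat_lit
 378811), (nat_lit 0), (nat_lit 3357085), (nat_lit 9446250)]) (PF.cons (PF.leaf (nat_lit 5809639) (nat_lit 387236) (nat_lit 47612370) (nat_lit 2550170) [(nat_lit 387236), (nat_lit 0), (nat_lit 3369104), (nat_lit 9433588)]) (PF.cons (PF.leaf (nat_lit 6073573) (nat_lit 394887) (nat_lit 47182402) (nat_lit 2562372) [(nat_lit 394887), (nat_lit 0), (nat_lit 3380195), (nat_lit 9418983)]) (PF.cons (PF.leaf (nat_lit 6344405) (nat_lit 401872) (nat_lit 46744642) (nat_lit 2573678) [(nat_lit 401872), (nat_lit 0), (nat_lit 3390283), (nat_lit 9402436)]) PF.nil))))) (PF.cons (PF.cons (PF.leaf (nat_lit 6007710) (nat_lit 1468609) (nat_lit 46913481) (nat_lit 2562378) [(nat_lit 0), (nat_lit 1468609), (nat_lit 3379999), (nat_lit 9404344)]) (PF.cons (PF.leaf (nat_lit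 6266718) (nat_lit 397715) (nat_lit 46492641) (nat_lit 2572962) [(nat_lit 397715), (nat_lit 1479409), (nat_lit 3389269), (nat_lit 9387545)]) (PF.cons (PF.leaf (nat_lit 6533598) (nat_lit 404511) (nat_lit 46063462) (nat_lit 2582735) [(nat_lit 404511), (nat_lit 1489505), (nat_lit 3397619), (nat_lit 9368847)]) (PF.cons PF.nil PF.nil)))) (PF.cons (PF.cons (PF.leaf (nat_lit 6721908) (nat_lit 1496855) (nat_lit 45387677) (nat_lit 2589982) [(nat_lit
 0), (nat_lit 1496855), (nat_lit 3402793), (nat_lit 9331855)]) (PF.cons (PF.leaf (nat_lit 6990184) (nat_lit 412673) (nat_lit 44961394) (nat_lit 2597542) [(nat_lit 412673), (nat_lit 1505260), (nat_lit 3408627), (nat_lit 9309426)]) PF.nil)) (PF.cons PF.nil (PF.cons PF.nil PF.nil))))) (PF.cons (PF.cons (PF.cons (PF.leaf (nat_lit 6549155) (nat_lit 2575275) (nat_lit 45074704) (nat_lit 2575275) [(nat_lit 0), (nat_lit 0), (nat_lit 3386927), (nat_lit 9298050)]) (PF.cons (PF.leaf (nat_lit 6806549) (nat_lit 403757) (nat_lit 44668115)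 (nat_lit 2582861) [(nat_lit 403757), (nat_lit 0), (nat_lit 3392666), (nat_lit 9276078)]) (PF.cons (PF.leaf (nat_lit 7071205) (nat_lit 409922) (nat_lit 44254274) (nat_lit 2589695) [(nat_lit 409922), (nat_lit 0), (nat_lit 3397552), (nat_lit 9252341)]) (PF.cons PF.nil PF.nil)))) (PF.cons (PF.cons (PF.leaf (nat_lit 7250543) (nat_lit 1504967) (nat_lit 43608553) (nat_lit 2592940) [(nat_lit 0), (nat_lit 1504967), (nat_lit 3397954), (nat_lit 9208487)]) (PF.cons (PF.leaf (nat_lit 7515797) (nat_lit 416681) (nat_lit 43199016) (nat_lit 2597859) [(nat_lit 416681), (nat_lit 1511569), (nat_lit 3400680), (nat_lit 9181645)]) PF.nil)) (PF.cons PF.nil PF.nil))) (PF.cons (PF.cons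
 (PF.cons (PF.leaf (nat_lit 7757198) (nat_lit 2587480) (nat_lit 41918180) (nat_lit 2587480) [(nat_lit 0), (nat_lit 0), (nat_lit 3383022), (nat_lit 9071059)]) (PF.cons PF.nil PF.nil)) (PF.cons PF.nil PF.nil)) (PF.cons PF.nil PF.nil)))))) (PF.cons (PF.cons (PF.cons (PF.cons (PF.leaf (nat_lit 5115564) (nat_lit 2436311) (nat_lit 46224386) (nat_lit 2436311) [(nat_lit 0), (nat_lit 0), (nat_lit 0), (nat_lit 9224057)]) (PF.cons (PF.leaf (nat_lit 5332839) (nat_lit 348806) (nat_lit 45883894) (nat_lit 2450552) [(nat_lit 348806), (nat_lit 0), (nat_lit 0), (nat_lit 9212779)]) (PF.cons (PF.leaf (nat_lit 5563067) (nat_lit 359068) (nat_lit 45526912) (nat_lit 2464223) [(nat_lit 359068), (nat_lit 0), (nat_lit 0), (nat_lit 9199770)]) (PF.cons (PF.leaf (nat_lit 5803395) (nat_lit 368240) (nat_lit 45156878) (nat_lit 2477156) [(nat_lit 368240), (nat_lit 0), (nat_lit 0), (nat_lit 9185027)]) (PF.cons (PF.leaf (nat_lit 6052268) (nat_lit 376512) (nat_lit 44776392) (nat_lit 2489250) [(nat_lit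 376512), (nat_lit 0), (nat_lit 0), (nat_lit 9168558)]) (PF.cons (PF.leaf (nat_lit 6308451) (nat_lit 384020) (nat_lit 44387510) (nat_lit 2500443) [(nat_lit 384020), (nat_lit 0), (nat_lit 0), (nat_lit 9150377)]) (PF.cons
 (PF.leaf (nat_lit 6570915) (nat_lit 390863) (nat_lit 43991912) (nat_lit 2510703) [(nat_lit 390863), (nat_lit 0), (nat_lit 0), (nat_lit 9130507)]) (PF.cons PF.nil (PF.cons PF.nil PF.nil))))))))) (PF.cons (PF.cons (PF.leaf (nat_lit 5756631) (nat_lit 1406516) (nat_lit 44886691) (nat_lit 2477670) [(nat_lit 0), (nat_lit 1406516), (nat_lit 0), (nat_lit 9168967)]) (PF.cons (PF.leaf (nat_lit 5991672) (nat_lit 371457) (nat_lit 44524863) (nat_lit 2488879) [(nat_lit 371457), (nat_lit 1418595), (nat_lit 0), (nat_lit 9152508)]) (PF.cons (PF.leaf (nat_lit 6236521) (nat_lit 379532) (nat_lit 44151815) (nat_lit 2499363) [(nat_lit 379532), (nat_lit 1429932), (nat_lit 0), (nat_lit 9134318)]) (PF.cons (PF.leaf (nat_lit 6489045) (nat_lit 386817) (nat_lit 43769948)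 (nat_lit 2509046) [(nat_lit 386817), (nat_lit 1440497), (nat_lit 0), (nat_lit 9114433)]) (PF.cons (PF.leaf (nat_lit 6748076) (nat_lit 393427) (nat_lit 43381145) (nat_lit 2517884) [(nat_lit 393427), (nat_lit 1450283), (nat_lit 0), (nat_lit 9092894)]) (PF.cons PF.nil (PF.cons PF.nil PF.nil))))))) (PF.cons (PF.cons (PF.leaf (nat_lit 6420848) (nat_lit 1438479) (nat_lit 43530124) (nat_lit 2507634) [(nat_lit 0), (nat_lit 1438479), (nat_lit 0),
 (nat_lit 9097047)]) (PF.cons (PF.leaf (nat_lit 6668472) (nat_lit 389082) (nat_lit 43156540) (nat_lit 2515915) [(nat_lit 389082), (nat_lit 1447965), (nat_lit 0), (nat_lit 9075672)]) (PF.cons (PF.leaf (nat_lit 6923607) (nat_lit 395515) (nat_lit 42775518) (nat_lit 2523435) [(nat_lit 395515), (nat_lit 1456754), (nat_lit 0), (nat_lit 9052660)]) (PF.cons (PF.leaf (nat_lit 7184521) (nat_lit 401343) (nat_lit 42388795) (nat_lit 2530162) [(nat_lit 401343), (nat_lit 1464841), (nat_lit 0), (nat_lit 9028070)]) (PF.cons PF.nil PF.nil)))))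 (PF.cons (PF.cons (PF.leaf (nat_lit 7098519) (nat_lit 1462175) (nat_lit 42174935) (nat_lit 2527470) [(nat_lit 0), (nat_lit 1462175), (nat_lit 0), (nat_lit 9009939)]) (PF.cons (PF.leaf (nat_lit 7354815) (nat_lit 402821) (nat_lit 41796550) (nat_lit 2533044) [(nat_lit 402821), (nat_lit 1469398), (nat_lit 0), (nat_lit 8984100)]) (PF.cons PF.nil (PF.cons PF.nil PF.nil)))) (PF.cons (PF.cons (PF.leaf (nat_lit 7782207) (nat_lit 1478874) (nat_lit 40835711) (nat_lit 2538425) [(nat_lit 0), (nat_lit 1478874), (nat_lit 0), (nat_lit 8909588)]) (PF.cons PF.nil PF.nil)) (PF.cons PF.nil PF.nil)))))) (PF.cons (PF.cons (PF.cons (PF.leaf (nat_lit 6269392) (nat_lit 2491582)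
 (nat_lit 43207085) (nat_lit 2491582) [(nat_lit 0), (nat_lit 0), (nat_lit 3287202), (nat_lit 9061471)]) (PF.cons (PF.leaf (nat_lit 6504311) (nat_lit 378241) (nat_lit 42855467) (nat_lit 2499957) [(nat_lit 378241), (nat_lit 0), (nat_lit 3293466), (nat_lit 9040839)]) (PF.cons (PF.leaf (nat_lit 6748415) (nat_lit 385669) (nat_lit 42493782) (nat_lit 2507644) [(nat_lit 385669), (nat_lit 0), (nat_lit 3298985), (nat_lit 9018530)]) (PF.cons (PF.leaf (nat_lit 6999564) (nat_lit 392315) (nat_lit 42124336) (nat_lit 2514590) [(nat_lit 392315), (nat_lit 0), (nat_lit 3303699), (nat_lit 8994620)]) (PF.cons (PF.leaf (nat_lit 7256676) (nat_lit 398298) (nat_lit 41748923) (nat_lit 2520764) [(nat_lit 398298), (nat_lit 0), (nat_lit 3307576), (nat_lit 8969176)]) (PF.cons PF.nil (PF.cons PF.nil PF.nil))))))) (PF.cons (PF.cons (PF.leaf (nat_lit 6925186) (nat_lit 1448151) (nat_lit 41897526) (nat_lit 2511990) [(nat_lit 0), (nat_lit 1448151), (nat_lit 3300304), (nat_lit 8975420)]) (PF.cons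 (PF.leaf (nat_lit 7171221) (nat_lit 393770) (nat_lit 41536869) (nat_lit 2517767) [(nat_lit 393770), (nat_lit 1455848), (nat_lit 3303764), (nat_lit 8950396)]) (PF.cons (PF.leaf (nat_lit 7424180) (nat_lit 399625) (nat_lit
 41169683) (nat_lit 2522842) [(nat_lit 399625), (nat_lit 1462896), (nat_lit 3306449), (nat_lit 8923845)]) (PF.cons PF.nil (PF.cons PF.nil PF.nil))))) (PF.cons (PF.cons (PF.leaf (nat_lit 7591179) (nat_lit 1466112) (nat_lit 40596066) (nat_lit 2523658) [(nat_lit 0), (nat_lit 1466112), (nat_lit 3303857), (nat_lit 8876503)]) (PF.cons (PF.leaf (nat_lit 7844651) (nat_lit 405699) (nat_lit 40232591) (nat_lit 2527055) [(nat_lit 405699), (nat_lit 1471783), (nat_lit 3304707), (nat_lit 8847595)]) (PF.cons PF.nil (PF.cons PF.nil PF.nil)))) (PF.cons (PF.cons (PF.leaf (nat_lit 8260710) (nat_lit 1477954) (nat_lit 39315038) (nat_lit 2527697) [(nat_lit 0), (nat_lit 1477954), (nat_lit 3298982), (nat_lit 8766614)]) (PF.cons PF.nil PF.nil)) (PF.cons PF.nil PF.nil)))))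 (PF.cons (PF.cons (PF.cons (PF.leaf (nat_lit 7411329) (nat_lit 2508400) (nat_lit 40341836) (nat_lit 2508400) [(nat_lit 0), (nat_lit 0), (nat_lit 3287185), (nat_lit 8842102)]) (PF.cons (PF.leaf (nat_lit 7655107) (nat_lit 396899) (nat_lit 39994921) (nat_lit 2512073) [(nat_lit 396899), (nat_lit 0), (nat_lit 3288258), (nat_lit 8814200)]) (PF.cons (PF.leaf (nat_lit 7905379) (nat_lit 402240) (nat_lit 39642242) (nat_lit 2515099) [(nat_lit
 402240), (nat_lit 0), (nat_lit 3288615), (nat_lit 8784879)]) (PF.cons PF.nil PF.nil)))) (PF.cons (PF.cons (PF.leaf (nat_lit 8064687) (nat_lit 1465622) (nat_lit 39095726) (nat_lit 2513286) [(nat_lit 0), (nat_lit 1465622), (nat_lit 3282990), (nat_lit 8734098)]) (PF.cons (PF.leaf (nat_lit 8314905) (nat_lit 407254) (nat_lit 38747508) (nat_lit 2514861) [(nat_lit 407254), (nat_lit 1469973), (nat_lit 3281773), (nat_lit 8702833)]) PF.nil)) (PF.cons PF.nil PF.nil))) (PF.cons (PF.cons (PF.cons (PF.leaf (nat_lit 8519685) (nat_lit 2497634) (nat_lit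 37672291) (nat_lit 2497634) [(nat_lit 0), (nat_lit 0), (nat_lit 3256010), (nat_lit 8585427)]) (PF.cons PF.nil PF.nil)) (PF.cons PF.nil PF.nil)) (PF.cons PF.nil PF.nil))))) (PF.cons (PF.cons (PF.cons (PF.cons (PF.leaf (nat_lit 7099437) (nat_lit 2427131) (nat_lit 38831956) (nat_lit 2427131) [(nat_lit 0), (nat_lit 0), (nat_lit 0), (nat_lit 8616575)]) (PF.cons (PF.leaf (nat_lit 7323561) (nat_lit 372248) (nat_lit 38530015) (nat_lit 2432088) [(nat_lit 372248), (nat_lit 0), (nat_lit 0), (nat_lit 8591486)]) (PF.cons (PF.leaf (nat_lit 7556066) (nat_lit 378906) (nat_lit 38219801) (nat_lit 2436410) [(nat_lit 378906), (nat_lit 0), (nat_lit 0), (nat_lit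
 8564929)]) (PF.cons (PF.leaf (nat_lit 7794844) (nat_lit 384793) (nat_lit 37903283) (nat_lit 2440070) [(nat_lit 384793), (nat_lit 0), (nat_lit 0), (nat_lit 8537025)]) (PF.cons (PF.leaf (nat_lit 8038897) (nat_lit 390034) (nat_lit 37581981) (nat_lit 2443062) [(nat_lit 390034), (nat_lit 0), (nat_lit 0), (nat_lit 8507876)]) PF.nil))))) (PF.cons (PF.cons (PF.leaf (nat_lit 7715520) (nat_lit 1411451) (nat_lit 37712107) (nat_lit 2436092) [(nat_lit 0), (nat_lit 1411451), (nat_lit 0), (nat_lit 8516387)]) (PF.cons (PF.leaf (nat_lit 7949167) (nat_lit 385367) (nat_lit 37403492) (nat_lit 2438890) [(nat_lit 385367), (nat_lit 1417089), (nat_lit 0), (nat_lit 8487991)]) (PF.cons (PF.leaf (nat_lit 8189088) (nat_lit 390524) (nat_lit 37089559) (nat_lit 2441075) [(nat_lit 390524), (nat_lit 1422131), (nat_lit 0), (nat_lit 8458332)]) (PF.cons PF.nil PF.nil)))) (PF.cons (PF.cons (PF.leaf (nat_lit 8339118) (nat_lit 1422827) (nat_lit 36602224) (nat_lit 2438185) [(nat_lit 0), (nat_lit 1422827),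 (nat_lit 0), (nat_lit 8407582)]) (PF.cons (PF.leaf (nat_lit 8579020) (nat_lit 395195) (nat_lit 36291927) (nat_lit 2439061) [(nat_lit 395195), (nat_lit 1426725), (nat_lit 0), (nat_lit 8376392)]) PF.nil)) (PF.cons PF.nil
 (PF.cons PF.nil PF.nil))))) (PF.cons (PF.cons (PF.cons (PF.leaf (nat_lit 8156962) (nat_lit 2423337) (nat_lit 36394585) (nat_lit 2423337) [(nat_lit 0), (nat_lit 0), (nat_lit 3166061), (nat_lit 8374943)]) (PF.cons (PF.leaf (nat_lit 8388134) (nat_lit 386703) (nat_lit 36098144) (nat_lit 2424615) [(nat_lit 386703), (nat_lit 0), (nat_lit 3164413), (nat_lit 8344978)]) (PF.cons (PF.leaf (nat_lit 8625219) (nat_lit 391431) (nat_lit 35796948) (nat_lit 2425329) [(nat_lit 391431), (nat_lit 0), (nat_lit 3162154), (nat_lit 8313839)]) (PF.cons PF.nil PF.nil)))) (PF.cons (PF.cons (PF.leaf (nat_lit 8768687) (nat_lit 1417425) (nat_lit 35332818) (nat_lit 2420669) [(nat_lit 0), (nat_lit 1417425), (nat_lit 3153306), (nat_lit 8261530)]) (PF.cons PF.nil PF.nil)) (PF.cons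 PF.nil PF.nil))) (PF.cons (PF.cons (PF.cons (PF.leaf (nat_lit 9182588) (nat_lit 2399781) (nat_lit 34127852) (nat_lit 2399781) [(nat_lit 0), (nat_lit 0), (nat_lit 3120542), (nat_lit 8113364)]) (PF.cons PF.nil PF.nil)) (PF.cons PF.nil PF.nil)) PF.nil))) (PF.cons (PF.cons (PF.cons (PF.cons (PF.leaf (nat_lit 8814245) (nat_lit 2331601) (nat_lit 33081018) (nat_lit 2331601) [(nat_lit 0), (nat_lit 0), (nat_lit 0), (nat_lit 7924048)]) (PF.cons
 (PF.leaf (nat_lit 9033911) (nat_lit 374982) (nat_lit 32826367) (nat_lit 2331398) [(nat_lit 374982), (nat_lit 0), (nat_lit 0), (nat_lit 7894016)]) (PF.cons PF.nil PF.nil))) (PF.cons (PF.cons (PF.leaf (nat_lit 9389809) (nat_lit 1366064) (nat_lit 32170984) (nat_lit 2324477) [(nat_lit 0), (nat_lit 1366064), (nat_lit 0), (nat_lit 7811821)]) PF.nil) PF.nil)) (PF.cons PF.nil PF.nil)) (PF.cons PF.nil (PF.cons PF.nil (PF.cons PF.nil (PF.cons PF.nil PF.nil)))))))))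

def p13_11_0_0 : pfC (piC [(nat_lit 41351667), (nat_lit 26310893), (nat_lit 19519284), (nat_lit 13318063)] (nat_lit 26450756)) p13_11_0 (nat_lit 4) (nat_lit 0) (nat_lit 1) = true := by decide +kernel
def p13_11_0_1 : pfC (piC [(nat_lit 41351667), (nat_lit 26310893), (nat_lit 19519284), (nat_lit 13318063)] (nat_lit 26450756)) p13_11_0 (nat_lit 4) (nat_lit 1) (nat_lit 2) = true := by decide +kernel
def p13_11_0_2 : pfC (piC [(nat_lit 41351667), (nat_lit 26310893), (nat_lit 19519284), (nat_lit 13318063)] (nat_lit 26450756)) p13_11_0 (nat_lit 4) (nat_lit 2) (nat_lit 3) = true := by decide +kernel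
def p13_11_0_3 : pfC (piC [(nat_lit 41351667), (nat_lit 26310893), (nat_lit 19519284), (nat_lit 13318063)] (nat_lit 26450756)) p13_11_0 (nat_lit 4) (nat_lit 3) (nat_lit 4) = true := by decide +kernel
def p13_11_0_4 : pfC (piC [(nat_lit 41351667), (nat_lit 26310893), (nat_lit 19519284), (nat_lit 13318063)] (nat_lit 26450756)) p13_11_0 (nat_lit 4) (nat_lit 4) (nat_lit 5) = true := by decide +kernel
def p13_11_0_5 : pfC (piC [(nat_lit 41351667), (nat_lit 26310893), (nat_lit 19519284), (nat_lit 13318063)] (nat_lit 26450756)) p13_11_0 (nat_lit 4) (nat_lit 5) (nat_lit 6) = true := by decide +kernel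
def p13_11_0_6 : pfC (piC [(nat_lit 41351667), (nat_lit 26310893), (nat_lit 19519284), (nat_lit 13318063)] (nat_lit 26450756)) p13_11_0 (nat_lit 4) (nat_lit 6) (nat_lit 7) = true := by decide +kernel
def p13_11_0_7 : pfC (piC [(nat_lit 41351667), (nat_lit 26310893), (nat_lit 19519284), (nat_lit 13318063)] (nat_lit 26450756)) p13_11_0 (nat_lit 4) (nat_lit 7) (nat_lit 8) = true := by decide +kernel
def p13_11_0_8 : pfC (piC [(nat_lit 41351667), (nat_lit 26310893), (nat_lit 19519284), (nat_lit 13318063)] (nat_lit 26450756)) p13_11_0 (nat_lit 4) (nat_lit 8) (nat_lit 9) = true := by decide +kernel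
def p13_11_0_9 : pfC (piC [(nat_lit 41351667), (nat_lit 26310893), (nat_lit 19519284), (nat_lit 13318063)] (nat_lit 26450756)) p13_11_0 (nat_lit 4) (nat_lit 9) (nat_lit 10) = true := by decide +kernel
def p13_11_0_10 : pfC (piC [(nat_lit 41351667), (nat_lit 26310893), (nat_lit 19519284), (nat_lit 13318063)] (nat_lit 26450756)) p13_11_0 (nat_lit 4) (nat_lit 10) (nat_lit 11) = true := by decide +kernel
def p13_11_0_11 : pfC (piC [(nat_lit 41351667), (nat_lit 26310893), (nat_lit 19519284), (nat_lit 13318063)] (nat_lit 26450756)) p13_11_0 (nat_lit 4) (nat_lit 11) (nat_lit 12) = true := by decide +kernel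
def p13_11_0_12 : pfC (piC [(nat_lit 41351667), (nat_lit 26310893), (nat_lit 19519284), (nat_lit 13318063)] (nat_lit 26450756)) p13_11_0 (nat_lit 4) (nat_lit 12) (nat_lit 13) = true := by decide +kernel
def p13_11_0_13 : pfC (piC [(nat_lit 41351667), (nat_lit 26310893), (nat_lit 19519284), (nat_lit 13318063)] (nat_lit 26450756)) p13_11_0 (nat_lit 4) (nat_lit 13) (nat_lit 14) = true := by decide +kernel
def p13_11_0_14 : pfC (piC [(nat_lit 41351667), (nat_lit 26310893), (nat_lit 19519284), (nat_lit 13318063)] (nat_lit 26450756)) p13_11_0 (nat_lit 4) (nat_lit 14) (nat_lit 15) = true := by decide +kernel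
def p13_11_0_15 : pfC (piC [(nat_lit 41351667), (nat_lit 26310893), (nat_lit 19519284), (nat_lit 13318063)] (nat_lit 26450756)) p13_11_0 (nat_lit 4) (nat_lit 15) (nat_lit 16) = true := by decide +kernel
def p13_11_0_16 : pfC (piC [(nat_lit 41351667), (nat_lit 26310893), (nat_lit 19519284), (nat_lit 13318063)] (nat_lit 26450756)) p13_11_0 (nat_lit 4) (nat_lit 16) (nat_lit 17) = true := by decide +kernel
def p13_11_0_17 : pfC (piC [(nat_lit 41351667), (nat_lit 26310893), (nat_lit 19519284), (nat_lit 13318063)] (nat_lit 26450756)) p13_11_0 (nat_lit 4) (nat_lit 17) (nat_lit 18) = true := by decide +kernel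
def p13_11_0_18 : pfC (piC [(nat_lit 41351667), (nat_lit 26310893), (nat_lit 19519284), (nat_lit 13318063)] (nat_lit 26450756)) p13_11_0 (nat_lit 4) (nat_lit 18) (nat_lit 19) = true := by decide +kernel
def p13_11_0_19 : pfC (piC [(nat_lit 41351667), (nat_lit 26310893), (nat_lit 19519284), (nat_lit 13318063)] (nat_lit 26450756)) p13_11_0 (nat_lit 4) (nat_lit 19) (nat_lit 20) = true := by decide +kernel
def p13_11_0_20 : pfC (piC [(nat_lit 41351667), (nat_lit 26310893), (nat_lit 19519284), (nat_lit 13318063)] (nat_lit 26450756)) p13_11_0 (nat_lit 4) (nat_lit 20) (nat_lit 21) = true := by decide +kernel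
def p13_11_0_21 : pfC (piC [(nat_lit 41351667), (nat_lit 26310893), (nat_lit 19519284), (nat_lit 13318063)] (nat_lit 26450756)) p13_11_0 (nat_lit 4) (nat_lit 21) (nat_lit 22) = true := by decide +kernel
def p13_11_0_22 : pfC (piC [(nat_lit 41351667), (nat_lit 26310893), (nat_lit 19519284), (nat_lit 13318063)] (nat_lit 26450756)) p13_11_0 (nat_lit 4) (nat_lit 22) (nat_lit 23) = true := by decide +kernel
def p13_11_0_23 : pfC (piC [(nat_lit 41351667), (nat_lit 26310893), (nat_lit 19519284), (nat_lit 13318063)] (nat_lit 26450756)) p13_11_0 (nat_lit 4) (nat_lit 23) (nat_lit 24) = true := by decide +kernel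
def p13_11_0_24 : pfC (piC [(nat_lit 41351667), (nat_lit 26310893), (nat_lit 19519284), (nat_lit 13318063)] (nat_lit 26450756)) p13_11_0 (nat_lit 4) (nat_lit 24) (nat_lit 25) = true := by decide +kernel
def p13_11_0_25 : pfC (piC [(nat_lit 41351667), (nat_lit 26310893), (nat_lit 19519284), (nat_lit 13318063)] (nat_lit 26450756)) p13_11_0 (nat_lit 4) (nat_lit 25) (nat_lit 26) = true := by decide +kernel
def p13_11_0_26 : pfC (piC [(nat_lit 41351667), (nat_lit 26310893), (nat_lit 19519284), (nat_lit 13318063)] (nat_lit 26450756)) p13_11_0 (nat_lit 4) (nat_lit 26) (nat_lit 27) = true := by decide +kernel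
def p13_11_0_27 : pfC (piC [(nat_lit 41351667), (nat_lit 26310893), (nat_lit 19519284), (nat_lit 13318063)] (nat_lit 26450756)) p13_11_0 (nat_lit 4) (nat_lit 27) (nat_lit 28) = true := by decide +kernel
def p13_11_0_28 : pfC (piC [(nat_lit 41351667), (nat_lit 26310893), (nat_lit 19519284), (nat_lit 13318063)] (nat_lit 26450756)) p13_11_0 (nat_lit 4) (nat_lit 28) (nat_lit 29) = true := by decide +kernel
def p13_11_0_29 : pfC (piC [(nat_lit 41351667), (nat_lit 26310893), (nat_lit 19519284), (nat_lit 13318063)] (nat_lit 26450756)) p13_11_0 (nat_lit 4) (nat_lit 29) (nat_lit 30) = true := by decide +kernel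
def p13_11_0_30 : pfC (piC [(nat_lit 41351667), (nat_lit 26310893), (nat_lit 19519284), (nat_lit 13318063)] (nat_lit 26450756)) p13_11_0 (nat_lit 4) (nat_lit 30) (nat_lit 31) = true := by decide +kernel
def p13_11_0_31 : pfC (piC [(nat_lit 41351667), (nat_lit 26310893), (nat_lit 19519284), (nat_lit 13318063)] (nat_lit 26450756)) p13_11_0 (nat_lit 4) (nat_lit 31) (nat_lit 32) = true := by decide +kernel
def p13_11_0_32 : pfC (piC [(nat_lit 41351667), (nat_lit 26310893), (nat_lit 19519284), (nat_lit 13318063)] (nat_lit 26450756)) p13_11_0 (nat_lit 4) (nat_lit 32) (nat_lit 33) = true := by decide +kernel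
def p13_11_0_33 : pfC (piC [(nat_lit 41351667), (nat_lit 26310893), (nat_lit 19519284), (nat_lit 13318063)] (nat_lit 26450756)) p13_11_0 (nat_lit 4) (nat_lit 33) (nat_lit 34) = true := by decide +kernel
def p13_11_0_34 : pfC (piC [(nat_lit 41351667), (nat_lit 26310893), (nat_lit 19519284), (nat_lit 13318063)] (nat_lit 26450756)) p13_11_0 (nat_lit 4) (nat_lit 34) (nat_lit 35) = true := by decide +kernel
def p13_11_0_35 : pfC (piC [(nat_lit 41351667), (nat_lit 26310893), (nat_lit 19519284), (nat_lit 13318063)] (nat_lit 26450756)) p13_11_0 (nat_lit 4) (nat_lit 35) (nat_lit 36) = true := by decide +kernel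
def p13_11_0_36 : pfC (piC [(nat_lit 41351667), (nat_lit 26310893), (nat_lit 19519284), (nat_lit 13318063)] (nat_lit 26450756)) p13_11_0 (nat_lit 4) (nat_lit 36) (nat_lit 37) = true := by decide +kernel
def p13_11_0_37 : pfC (piC [(nat_lit 41351667), (nat_lit 26310893), (nat_lit 19519284), (nat_lit 13318063)] (nat_lit 26450756)) p13_11_0 (nat_lit 4) (nat_lit 37) (nat_lit 38) = true := by decide +kernel
def p13_11_0_38 : pfC (piC [(nat_lit 41351667), (nat_lit 26310893), (nat_lit 19519284), (nat_lit 13318063)] (nat_lit 26450756)) p13_11_0 (nat_lit 4) (nat_lit 38) (nat_lit 39) = true := by decide +kernel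
def p13_11_0_39 : pfC (piC [(nat_lit 41351667), (nat_lit 26310893), (nat_lit 19519284), (nat_lit 13318063)] (nat_lit 26450756)) p13_11_0 (nat_lit 4) (nat_lit 39) (nat_lit 40) = true := by decide +kernel
def p13_11_0_40 : pfC (piC [(nat_lit 41351667), (nat_lit 26310893), (nat_lit 19519284), (nat_lit 13318063)] (nat_lit 26450756)) p13_11_0 (nat_lit 4) (nat_lit 40) (nat_lit 41) = true := by decide +kernel
def p13_11_0_41 : pfC (piC [(nat_lit 41351667), (nat_lit 26310893), (nat_lit 19519284), (nat_lit 13318063)] (nat_lit 26450756)) p13_11_0 (nat_lit 4) (nat_lit 41) (nat_lit 42) = true := by decide +kernel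
def p13_11_0_42 : pfC (piC [(nat_lit 41351667), (nat_lit 26310893), (nat_lit 19519284), (nat_lit 13318063)] (nat_lit 26450756)) p13_11_0 (nat_lit 4) (nat_lit 42) (nat_lit 43) = true := by decide +kernel
def p13_11_0_43 : pfC (piC [(nat_lit 41351667), (nat_lit 26310893), (nat_lit 19519284), (nat_lit 13318063)] (nat_lit 26450756)) p13_11_0 (nat_lit 4) (nat_lit 43) (nat_lit 44) = true := by decide +kernel
def p13_11_0_44 : pfC (piC [(nat_lit 41351667), (nat_lit 26310893), (nat_lit 19519284), (nat_lit 13318063)] (nat_lit 26450756)) p13_11_0 (nat_lit 4) (nat_lit 44) (nat_lit 45) = true := by decide +kernel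
def p13_11_0_45 : pfC (piC [(nat_lit 41351667), (nat_lit 26310893), (nat_lit 19519284), (nat_lit 13318063)] (nat_lit 26450756)) p13_11_0 (nat_lit 4) (nat_lit 45) (nat_lit 46) = true := by decide +kernel
def p13_11_0_46 : pfC (piC [(nat_lit 41351667), (nat_lit 26310893), (nat_lit 19519284), (nat_lit 13318063)] (nat_lit 26450756)) p13_11_0 (nat_lit 4) (nat_lit 46) (nat_lit 47) = true := by decide +kernel
def p13_11_0_47 : pfC (piC [(nat_lit 41351667), (nat_lit 26310893), (nat_lit 19519284), (nat_lit 13318063)] (nat_lit 26450756)) p13_11_0 (nat_lit 4) (nat_lit 47) (nat_lit 48) = true := by decide +kernel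
def p13_11_0_48 : pfC (piC [(nat_lit 41351667), (nat_lit 26310893), (nat_lit 19519284), (nat_lit 13318063)] (nat_lit 26450756)) p13_11_0 (nat_lit 4) (nat_lit 48) (nat_lit 49) = true := by decide +kernel
def p13_11_0_49 : pfC (piC [(nat_lit 41351667), (nat_lit 26310893), (nat_lit 19519284), (nat_lit 13318063)] (nat_lit 26450756)) p13_11_0 (nat_lit 4) (nat_lit 49) (nat_lit 50) = true := by decide +kernel
def p13_11_0_50 : pfC (piC [(nat_lit 41351667), (nat_lit 26310893), (nat_lit 19519284), (nat_lit 13318063)] (nat_lit 26450756)) p13_11_0 (nat_lit 4) (nat_lit 50) (nat_lit 51) = true := by decide +kernel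
def p13_11_0_51 : pfC (piC [(nat_lit 41351667), (nat_lit 26310893), (nat_lit 19519284), (nat_lit 13318063)] (nat_lit 26450756)) p13_11_0 (nat_lit 4) (nat_lit 51) (nat_lit 52) = true := by decide +kernel
def p13_11_0_52 : pfC (piC [(nat_lit 41351667), (nat_lit 26310893), (nat_lit 19519284), (nat_lit 13318063)] (nat_lit 26450756)) p13_11_0 (nat_lit 4) (nat_lit 52) (nat_lit 53) = true := by decide +kernel
def p13_11_0_53 : pfC (piC [(nat_lit 41351667), (nat_lit 26310893), (nat_lit 19519284), (nat_lit 13318063)] (nat_lit 26450756)) p13_11_0 (nat_lit 4) (nat_lit 53) (nat_lit 54) = true := by decide +kernel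
def p13_11_0_54 : pfC (piC [(nat_lit 41351667), (nat_lit 26310893), (nat_lit 19519284), (nat_lit 13318063)] (nat_lit 26450756)) p13_11_0 (nat_lit 4) (nat_lit 54) (nat_lit 55) = true := by decide +kernel
def p13_11_0_55 : pfC (piC [(nat_lit 41351667), (nat_lit 26310893), (nat_lit 19519284), (nat_lit 13318063)] (nat_lit 26450756)) p13_11_0 (nat_lit 4) (nat_lit 55) (nat_lit 56) = true := by decide +kernel
def p13_11_0_56 : pfC (piC [(nat_lit 41351667), (nat_lit 26310893), (nat_lit 19519284), (nat_lit 13318063)] (nat_lit 26450756)) p13_11_0 (nat_lit 4) (nat_lit 56) (nat_lit 57) = true := by decide +kernel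
def p13_11_0_57 : pfC (piC [(nat_lit 41351667), (nat_lit 26310893), (nat_lit 19519284), (nat_lit 13318063)] (nat_lit 26450756)) p13_11_0 (nat_lit 4) (nat_lit 57) (nat_lit 58) = true := by decide +kernel
def p13_11_0_58 : pfC (piC [(nat_lit 41351667), (nat_lit 26310893), (nat_lit 19519284), (nat_lit 13318063)] (nat_lit 26450756)) p13_11_0 (nat_lit 4) (nat_lit 58) (nat_lit 59) = true := by decide +kernel
def p13_11_0_59 : pfC (piC [(nat_lit 41351667), (nat_lit 26310893), (nat_lit 19519284), (nat_lit 13318063)] (nat_lit 26450756)) p13_11_0 (nat_lit 4) (nat_lit 59) (nat_lit 60) = true := by decide +kernel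
def p13_11_0_60 : pfC (piC [(nat_lit 41351667), (nat_lit 26310893), (nat_lit 19519284), (nat_lit 13318063)] (nat_lit 26450756)) p13_11_0 (nat_lit 4) (nat_lit 60) (nat_lit 61) = true := by decide +kernel
def p13_11_0_61 : pfC (piC [(nat_lit 41351667), (nat_lit 26310893), (nat_lit 19519284), (nat_lit 13318063)] (nat_lit 26450756)) p13_11_0 (nat_lit 4) (nat_lit 61) (nat_lit 62) = true := by decide +kernel
def p13_11_0_62 : pfC (piC [(nat_lit 41351667), (nat_lit 26310893), (nat_lit 19519284), (nat_lit 13318063)] (nat_lit 26450756)) p13_11_0 (nat_lit 4) (nat_lit 62) (nat_lit 63) = true := by decide +kernel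
def p13_11_0_63 : pfC (piC [(nat_lit 41351667), (nat_lit 26310893), (nat_lit 19519284), (nat_lit 13318063)] (nat_lit 26450756)) p13_11_0 (nat_lit 4) (nat_lit 63) (nat_lit 64) = true := by decide +kernel
def p13_11_0_64 : pfC (piC [(nat_lit 41351667), (nat_lit 26310893), (nat_lit 19519284), (nat_lit 13318063)] (nat_lit 26450756)) p13_11_0 (nat_lit 4) (nat_lit 64) (nat_lit 65) = true := by decide +kernel
def p13_11_0_65 : pfC (piC [(nat_lit 41351667), (nat_lit 26310893), (nat_lit 19519284), (nat_lit 13318063)] (nat_lit 26450756)) p13_11_0 (nat_lit 4) (nat_lit 65) (nat_lit 66) = true := by decide +kernel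
def p13_11_0_66 : pfC (piC [(nat_lit 41351667), (nat_lit 26310893), (nat_lit 19519284), (nat_lit 13318063)] (nat_lit 26450756)) p13_11_0 (nat_lit 4) (nat_lit 66) (nat_lit 67) = true := by decide +kernel
def p13_11_0_67 : pfC (piC [(nat_lit 41351667), (nat_lit 26310893), (nat_lit 19519284), (nat_lit 13318063)] (nat_lit 26450756)) p13_11_0 (nat_lit 4) (nat_lit 67) (nat_lit 68) = true := by decide +kernel
def p13_11_0_68 : pfC (piC [(nat_lit 41351667), (nat_lit 26310893), (nat_lit 19519284), (nat_lit 13318063)] (nat_lit 26450756)) p13_11_0 (nat_lit 4) (nat_lit 68) (nat_lit 69) = true := by decide +kernel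
def p13_11_0_69 : pfC (piC [(nat_lit 41351667), (nat_lit 26310893), (nat_lit 19519284), (nat_lit 13318063)] (nat_lit 26450756)) p13_11_0 (nat_lit 4) (nat_lit 69) (nat_lit 70) = true := by decide +kernel
def p13_11_0_70 : pfC (piC [(nat_lit 41351667), (nat_lit 26310893), (nat_lit 19519284), (nat_lit 13318063)] (nat_lit 26450756)) p13_11_0 (nat_lit 4) (nat_lit 70) (nat_lit 71) = true := by decide +kernel
def p13_11_0_71 : pfC (piC [(nat_lit 41351667), (nat_lit 26310893), (nat_lit 19519284), (nat_lit 13318063)] (nat_lit 26450756)) p13_11_0 (nat_lit 4) (nat_lit 71) (nat_lit 72) = true := by decide +kernel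
def p13_11_0_72 : pfC (piC [(nat_lit 41351667), (nat_lit 26310893), (nat_lit 19519284), (nat_lit 13318063)] (nat_lit 26450756)) p13_11_0 (nat_lit 4) (nat_lit 72) (nat_lit 73) = true := by decide +kernel
def p13_11_0_73 : pfC (piC [(nat_lit 41351667), (nat_lit 26310893), (nat_lit 19519284), (nat_lit 13318063)] (nat_lit 26450756)) p13_11_0 (nat_lit 4) (nat_lit 73) (nat_lit 74) = true := by decide +kernel
def p13_11_0_74 : pfC (piC [(nat_lit 41351667), (nat_lit 26310893), (nat_lit 19519284), (nat_lit 13318063)] (nat_lit 26450756)) p13_11_0 (nat_lit 4) (nat_lit 74) (nat_lit 75) = true := by decide +kernel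
def p13_11_0_75 : pfC (piC [(nat_lit 41351667), (nat_lit 26310893), (nat_lit 19519284), (nat_lit 13318063)] (nat_lit 26450756)) p13_11_0 (nat_lit 4) (nat_lit 75) (nat_lit 76) = true := by decide +kernel
def p13_11_0_76 : pfC (piC [(nat_lit 41351667), (nat_lit 26310893), (nat_lit 19519284), (nat_lit 13318063)] (nat_lit 26450756)) p13_11_0 (nat_lit 4) (nat_lit 76) (nat_lit 77) = true := by decide +kernel
def p13_11_0_77 : pfC (piC [(nat_lit 41351667), (nat_lit 26310893), (nat_lit 19519284), (nat_lit 13318063)] (nat_lit 26450756)) p13_11_0 (nat_lit 4) (nat_lit 77) (nat_lit 78) = true := by decide +kernel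
def p13_11_0_78 : pfC (piC [(nat_lit 41351667), (nat_lit 26310893), (nat_lit 19519284), (nat_lit 13318063)] (nat_lit 26450756)) p13_11_0 (nat_lit 4) (nat_lit 78) (nat_lit 79) = true := by decide +kernel
def p13_11_0_79 : pfC (piC [(nat_lit 41351667), (nat_lit 26310893), (nat_lit 19519284), (nat_lit 13318063)] (nat_lit 26450756)) p13_11_0 (nat_lit 4) (nat_lit 79) (nat_lit 80) = true := by decide +kernel
def p13_11_0_80 : pfC (piC [(nat_lit 41351667), (nat_lit 26310893), (nat_lit 19519284), (nat_lit 13318063)] (nat_lit 26450756)) p13_11_0 (nat_lit 4) (nat_lit 80) (nat_lit 81) = true := by decide +kernel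
def p13_11_0_81 : pfC (piC [(nat_lit 41351667), (nat_lit 26310893), (nat_lit 19519284), (nat_lit 13318063)] (nat_lit 26450756)) p13_11_0 (nat_lit 4) (nat_lit 81) (nat_lit 82) = true := by decide +kernel
def p13_11_0_82 : pfC (piC [(nat_lit 41351667), (nat_lit 26310893), (nat_lit 19519284), (nat_lit 13318063)] (nat_lit 26450756)) p13_11_0 (nat_lit 4) (nat_lit 82) (nat_lit 83) = true := by decide +kernel
def p13_11_0_83 : pfC (piC [(nat_lit 41351667), (nat_lit 26310893), (nat_lit 19519284), (nat_lit 13318063)] (nat_lit 26450756)) p13_11_0 (nat_lit 4) (nat_lit 83) (nat_lit 84) = true := by decide +kernel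
def p13_11_0_84 : pfC (piC [(nat_lit 41351667), (nat_lit 26310893), (nat_lit 19519284), (nat_lit 13318063)] (nat_lit 26450756)) p13_11_0 (nat_lit 4) (nat_lit 84) (nat_lit 85) = true := by decide +kernel
def p13_11_0_85 : pfC (piC [(nat_lit 41351667), (nat_lit 26310893), (nat_lit 19519284), (nat_lit 13318063)] (nat_lit 26450756)) p13_11_0 (nat_lit 4) (nat_lit 85) (nat_lit 86) = true := by decide +kernel
def p13_11_0_86 : pfC (piC [(nat_lit 41351667), (nat_lit 26310893), (nat_lit 19519284), (nat_lit 13318063)] (nat_lit 26450756)) p13_11_0 (nat_lit 4) (nat_lit 86) (nat_lit 87) = true := by decide +kernel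
def p13_11_0_87 : pfC (piC [(nat_lit 41351667), (nat_lit 26310893), (nat_lit 19519284), (nat_lit 13318063)] (nat_lit 26450756)) p13_11_0 (nat_lit 4) (nat_lit 87) (nat_lit 88) = true := by decide +kernel
def p13_11_0_88 : pfC (piC [(nat_lit 41351667), (nat_lit 26310893), (nat_lit 19519284), (nat_lit 13318063)] (nat_lit 26450756)) p13_11_0 (nat_lit 4) (nat_lit 88) (nat_lit 89) = true := by decide +kernel
def p13_11_0_89 : pfC (piC [(nat_lit 41351667), (nat_lit 26310893), (nat_lit 19519284), (nat_lit 13318063)] (nat_lit 26450756)) p13_11_0 (nat_lit 4) (nat_lit 89) (nat_lit 90) = true := by decide +kernel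
def p13_11_0_90 : pfC (piC [(nat_lit 41351667), (nat_lit 26310893), (nat_lit 19519284), (nat_lit 13318063)] (nat_lit 26450756)) p13_11_0 (nat_lit 4) (nat_lit 90) (nat_lit 91) = true := by decide +kernel
def p13_11_0_91 : pfC (piC [(nat_lit 41351667), (nat_lit 26310893), (nat_lit 19519284), (nat_lit 13318063)] (nat_lit 26450756)) p13_11_0 (nat_lit 4) (nat_lit 91) (nat_lit 92) = true := by decide +kernel
def p13_11_0_92 : pfC (piC [(nat_lit 41351667), (nat_lit 26310893), (nat_lit 19519284), (nat_lit 13318063)] (nat_lit 26450756)) p13_11_0 (nat_lit 4) (nat_lit 92) (nat_lit 93) = true := by decide +kernel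
def p13_11_0_93 : pfC (piC [(nat_lit 41351667), (nat_lit 26310893), (nat_lit 19519284), (nat_lit 13318063)] (nat_lit 26450756)) p13_11_0 (nat_lit 4) (nat_lit 93) (nat_lit 94) = true := by decide +kernel
def p13_11_0_94 : pfC (piC [(nat_lit 41351667), (nat_lit 26310893), (nat_lit 19519284), (nat_lit 13318063)] (nat_lit 26450756)) p13_11_0 (nat_lit 4) (nat_lit 94) (nat_lit 95) = true := by decide +kernel
def p13_11_0_95 : pfC (piC [(nat_lit 41351667), (nat_lit 26310893), (nat_lit 19519284), (nat_lit 13318063)] (nat_lit 26450756)) p13_11_0 (nat_lit 4) (nat_lit 95) (nat_lit 96) = true := by decide +kernel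
def p13_11_0_96 : pfC (piC [(nat_lit 41351667), (nat_lit 26310893), (nat_lit 19519284), (nat_lit 13318063)] (nat_lit 26450756)) p13_11_0 (nat_lit 4) (nat_lit 96) (nat_lit 97) = true := by decide +kernel
def p13_11_0_97 : pfC (piC [(nat_lit 41351667), (nat_lit 26310893), (nat_lit 19519284), (nat_lit 13318063)] (nat_lit 26450756)) p13_11_0 (nat_lit 4) (nat_lit 97) (nat_lit 98) = true := by decide +kernel
def p13_11_0_98 : pfC (piC [(nat_lit 41351667), (nat_lit 26310893), (nat_lit 19519284), (nat_lit 13318063)] (nat_lit 26450756)) p13_11_0 (nat_lit 4) (nat_lit 98) (nat_lit 99) = true := by decide +kernel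
def p13_11_0_99 : pfC (piC [(nat_lit 41351667), (nat_lit 26310893), (nat_lit 19519284), (nat_lit 13318063)] (nat_lit 26450756)) p13_11_0 (nat_lit 4) (nat_lit 99) (nat_lit 100) = true := by decide +kernel
def p13_11_0_100 : pfC (piC [(nat_lit 41351667), (nat_lit 26310893), (nat_lit 19519284), (nat_lit 13318063)] (nat_lit 26450756)) p13_11_0 (nat_lit 4) (nat_lit 100) (nat_lit 101) = true := by decide +kernel
def p13_11_0_101 : pfC (piC [(nat_lit 41351667), (nat_lit 26310893), (nat_lit 19519284), (nat_lit 13318063)] (nat_lit 26450756)) p13_11_0 (nat_lit 4) (nat_lit 101) (nat_lit 102) = true := by decide +kernel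
def p13_11_0_102 : pfC (piC [(nat_lit 41351667), (nat_lit 26310893), (nat_lit 19519284), (nat_lit 13318063)] (nat_lit 26450756)) p13_11_0 (nat_lit 4) (nat_lit 102) (nat_lit 103) = true := by decide +kernel
def p13_11_0_103 : pfC (piC [(nat_lit 41351667), (nat_lit 26310893), (nat_lit 19519284), (nat_lit 13318063)] (nat_lit 26450756)) p13_11_0 (nat_lit 4) (nat_lit 103) (nat_lit 104) = true := by decide +kernel
def p13_11_0_104 : pfC (piC [(nat_lit 41351667), (nat_lit 26310893), (nat_lit 19519284), (nat_lit 13318063)] (nat_lit 26450756)) p13_11_0 (nat_lit 4) (nat_lit 104) (nat_lit 105) = true := by decide +kernel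
def p13_11_0_105 : pfC (piC [(nat_lit 41351667), (nat_lit 26310893), (nat_lit 19519284), (nat_lit 13318063)] (nat_lit 26450756)) p13_11_0 (nat_lit 4) (nat_lit 105) (nat_lit 106) = true := by decide +kernel
def p13_11_0_106 : pfC (piC [(nat_lit 41351667), (nat_lit 26310893), (nat_lit 19519284), (nat_lit 13318063)] (nat_lit 26450756)) p13_11_0 (nat_lit 4) (nat_lit 106) (nat_lit 107) = true := by decide +kernel
def p13_11_0_107 : pfC (piC [(nat_lit 41351667), (nat_lit 26310893), (nat_lit 19519284), (nat_lit 13318063)] (nat_lit 26450756)) p13_11_0 (nat_lit 4) (nat_lit 107) (nat_lit 108) = true := by decide +kernel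
def p13_11_0_108 : pfC (piC [(nat_lit 41351667), (nat_lit 26310893), (nat_lit 19519284), (nat_lit 13318063)] (nat_lit 26450756)) p13_11_0 (nat_lit 4) (nat_lit 108) (nat_lit 109) = true := by decide +kernel
def p13_11_0_109 : pfC (piC [(nat_lit 41351667), (nat_lit 26310893), (nat_lit 19519284), (nat_lit 13318063)] (nat_lit 26450756)) p13_11_0 (nat_lit 4) (nat_lit 109) (nat_lit 110) = true := by decide +kernel
def p13_11_0_110 : pfC (piC [(nat_lit 41351667), (nat_lit 26310893), (nat_lit 19519284), (nat_lit 13318063)] (nat_lit 26450756)) p13_11_0 (nat_lit 4) (nat_lit 110) (nat_lit 111) = true := by decide +kernel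
def p13_11_0_111 : pfC (piC [(nat_lit 41351667), (nat_lit 26310893), (nat_lit 19519284), (nat_lit 13318063)] (nat_lit 26450756)) p13_11_0 (nat_lit 4) (nat_lit 111) (nat_lit 112) = true := by decide +kernel
def p13_11_0_112 : pfC (piC [(nat_lit 41351667), (nat_lit 26310893), (nat_lit 19519284), (nat_lit 13318063)] (nat_lit 26450756)) p13_11_0 (nat_lit 4) (nat_lit 112) (nat_lit 113) = true := by decide +kernel
def p13_11_0_113 : pfC (piC [(nat_lit 41351667), (nat_lit 26310893), (nat_lit 19519284), (nat_lit 13318063)] (nat_lit 26450756)) p13_11_0 (nat_lit 4) (nat_lit 113) (nat_lit 114) = true := by decide +kernel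
def p13_11_0_114 : pfC (piC [(nat_lit 41351667), (nat_lit 26310893), (nat_lit 19519284), (nat_lit 13318063)] (nat_lit 26450756)) p13_11_0 (nat_lit 4) (nat_lit 114) (nat_lit 115) = true := by decide +kernel
def p13_11_0_115 : pfC (piC [(nat_lit 41351667), (nat_lit 26310893), (nat_lit 19519284), (nat_lit 13318063)] (nat_lit 26450756)) p13_11_0 (nat_lit 4) (nat_lit 115) (nat_lit 116) = true := by decide +kernel
def p13_11_0_116 : pfC (piC [(nat_lit 41351667), (nat_lit 26310893), (nat_lit 19519284), (nat_lit 13318063)] (nat_lit 26450756)) p13_11_0 (nat_lit 4) (nat_lit 116) (nat_lit 117) = true := by decide +kernel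
def p13_11_0_117 : pfC (piC [(nat_lit 41351667), (nat_lit 26310893), (nat_lit 19519284), (nat_lit 13318063)] (nat_lit 26450756)) p13_11_0 (nat_lit 4) (nat_lit 117) (nat_lit 118) = true := by decide +kernel
def p13_11_0_118 : pfC (piC [(nat_lit 41351667), (nat_lit 26310893), (nat_lit 19519284), (nat_lit 13318063)] (nat_lit 26450756)) p13_11_0 (nat_lit 4) (nat_lit 118) (nat_lit 119) = true := by decide +kernel
def p13_11_0_119 : pfC (piC [(nat_lit 41351667), (nat_lit 26310893), (nat_lit 19519284), (nat_lit 13318063)] (nat_lit 26450756)) p13_11_0 (nat_lit 4) (nat_lit 119) (nat_lit 120) = true := by decide +kernel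
def p13_11_0_120 : pfC (piC [(nat_lit 41351667), (nat_lit 26310893), (nat_lit 19519284), (nat_lit 13318063)] (nat_lit 26450756)) p13_11_0 (nat_lit 4) (nat_lit 120) (nat_lit 121) = true := by decide +kernel
def p13_11_0_121 : pfC (piC [(nat_lit 41351667), (nat_lit 26310893), (nat_lit 19519284), (nat_lit 13318063)] (nat_lit 26450756)) p13_11_0 (nat_lit 4) (nat_lit 121) (nat_lit 122) = true := by decide +kernel
def p13_11_0_122 : pfC (piC [(nat_lit 41351667), (nat_lit 26310893), (nat_lit 19519284), (nat_lit 13318063)] (nat_lit 26450756)) p13_11_0 (nat_lit 4) (nat_lit 122) (nat_lit 123) = true := by decide +kernel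
def p13_11_0_123 : pfC (piC [(nat_lit 41351667), (nat_lit 26310893), (nat_lit 19519284), (nat_lit 13318063)] (nat_lit 26450756)) p13_11_0 (nat_lit 4) (nat_lit 123) (nat_lit 124) = true := by decide +kernel
def p13_11_0_124 : pfC (piC [(nat_lit 41351667), (nat_lit 26310893), (nat_lit 19519284), (nat_lit 13318063)] (nat_lit 26450756)) p13_11_0 (nat_lit 4) (nat_lit 124) (nat_lit 125) = true := by decide +kernel
def p13_11_0_125 : pfC (piC [(nat_lit 41351667), (nat_lit 26310893), (nat_lit 19519284), (nat_lit 13318063)] (nat_lit 26450756)) p13_11_0 (nat_lit 4) (nat_lit 125) (nat_lit 126) = true := by decide +kernel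
def p13_11_0_126 : pfC (piC [(nat_lit 41351667), (nat_lit 26310893), (nat_lit 19519284), (nat_lit 13318063)] (nat_lit 26450756)) p13_11_0 (nat_lit 4) (nat_lit 126) (nat_lit 127) = true := by decide +kernel
def p13_11_0_127 : pfC (piC [(nat_lit 41351667), (nat_lit 26310893), (nat_lit 19519284), (nat_lit 13318063)] (nat_lit 26450756)) p13_11_0 (nat_lit 4) (nat_lit 127) (nat_lit 128) = true := by decide +kernel
def p13_11_0_128 : pfC (piC [(nat_lit 41351667), (nat_lit 26310893), (nat_lit 19519284), (nat_lit 13318063)] (nat_lit 26450756)) p13_11_0 (nat_lit 4) (nat_lit 128) (nat_lit 129) = true := by decide +kernel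
def p13_11_0_129 : pfC (piC [(nat_lit 41351667), (nat_lit 26310893), (nat_lit 19519284), (nat_lit 13318063)] (nat_lit 26450756)) p13_11_0 (nat_lit 4) (nat_lit 129) (nat_lit 130) = true := by decide +kernel
def p13_11_0_130 : pfC (piC [(nat_lit 41351667), (nat_lit 26310893), (nat_lit 19519284), (nat_lit 13318063)] (nat_lit 26450756)) p13_11_0 (nat_lit 4) (nat_lit 130) (nat_lit 131) = true := by decide +kernel
def p13_11_0_131 : pfC (piC [(nat_lit 41351667), (nat_lit 26310893), (nat_lit 19519284), (nat_lit 13318063)] (nat_lit 26450756)) p13_11_0 (nat_lit 4) (nat_lit 131) (nat_lit 132) = true := by decide +kernel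
def p13_11_0_132 : pfC (piC [(nat_lit 41351667), (nat_lit 26310893), (nat_lit 19519284), (nat_lit 13318063)] (nat_lit 26450756)) p13_11_0 (nat_lit 4) (nat_lit 132) (nat_lit 133) = true := by decide +kernel
def p13_11_0_133 : pfC (piC [(nat_lit 41351667), (nat_lit 26310893), (nat_lit 19519284), (nat_lit 13318063)] (nat_lit 26450756)) p13_11_0 (nat_lit 4) (nat_lit 133) (nat_lit 134) = true := by decide +kernel
def p13_11_0_134 : pfC (piC [(nat_lit 41351667), (nat_lit 26310893), (nat_lit 19519284), (nat_lit 13318063)] (nat_lit 26450756)) p13_11_0 (nat_lit 4) (nat_lit 134) (nat_lit 135) = true := by decide +kernel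
def p13_11_0_135 : pfC (piC [(nat_lit 41351667), (nat_lit 26310893), (nat_lit 19519284), (nat_lit 13318063)] (nat_lit 26450756)) p13_11_0 (nat_lit 4) (nat_lit 135) (nat_lit 136) = true := by decide +kernel
def p13_11_0_136 : pfC (piC [(nat_lit 41351667), (nat_lit 26310893), (nat_lit 19519284), (nat_lit 13318063)] (nat_lit 26450756)) p13_11_0 (nat_lit 4) (nat_lit 136) (nat_lit 137) = true := by decide +kernel
def p13_11_0_137 : pfC (piC [(nat_lit 41351667), (nat_lit 26310893), (nat_lit 19519284), (nat_lit 13318063)] (nat_lit 26450756)) p13_11_0 (nat_lit 4) (nat_lit 137) (nat_lit 138) = true := by decide +kernel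
def p13_11_0_138 : pfC (piC [(nat_lit 41351667), (nat_lit 26310893), (nat_lit 19519284), (nat_lit 13318063)] (nat_lit 26450756)) p13_11_0 (nat_lit 4) (nat_lit 138) (nat_lit 139) = true := by decide +kernel
def p13_11_0_139 : pfC (piC [(nat_lit 41351667), (nat_lit 26310893), (nat_lit 19519284), (nat_lit 13318063)] (nat_lit 26450756)) p13_11_0 (nat_lit 4) (nat_lit 139) (nat_lit 140) = true := by decide +kernel
def p13_11_0_140 : pfC (piC [(nat_lit 41351667), (nat_lit 26310893), (nat_lit 19519284), (nat_lit 13318063)] (nat_lit 26450756)) p13_11_0 (nat_lit 4) (nat_lit 140) (nat_lit 141) = true := by decide +kernel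
def p13_11_0_141 : pfC (piC [(nat_lit 41351667), (nat_lit 26310893), (nat_lit 19519284), (nat_lit 13318063)] (nat_lit 26450756)) p13_11_0 (nat_lit 4) (nat_lit 141) (nat_lit 142) = true := by decide +kernel
def p13_11_0_142 : pfC (piC [(nat_lit 41351667), (nat_lit 26310893), (nat_lit 19519284), (nat_lit 13318063)] (nat_lit 26450756)) p13_11_0 (nat_lit 4) (nat_lit 142) (nat_lit 143) = true := by decide +kernel
def p13_11_0_143 : pfC (piC [(nat_lit 41351667), (nat_lit 26310893), (nat_lit 19519284), (nat_lit 13318063)] (nat_lit 26450756)) p13_11_0 (nat_lit 4) (nat_lit 143) (nat_lit 144) = true := by decide +kernel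
def p13_11_0_144 : pfC (piC [(nat_lit 41351667), (nat_lit 26310893), (nat_lit 19519284), (nat_lit 13318063)] (nat_lit 26450756)) p13_11_0 (nat_lit 4) (nat_lit 144) (nat_lit 145) = true := by decide +kernel
def p13_11_0_145 : pfC (piC [(nat_lit 41351667), (nat_lit 26310893), (nat_lit 19519284), (nat_lit 13318063)] (nat_lit 26450756)) p13_11_0 (nat_lit 4) (nat_lit 145) (nat_lit 146) = true := by decide +kernel
def p13_11_0_146 : pfC (piC [(nat_lit 41351667), (nat_lit 26310893), (nat_lit 19519284), (nat_lit 13318063)] (nat_lit 26450756)) p13_11_0 (nat_lit 4) (nat_lit 146) (nat_lit 147) = true := by decide +kernel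
def p13_11_0_147 : pfC (piC [(nat_lit 41351667), (nat_lit 26310893), (nat_lit 19519284), (nat_lit 13318063)] (nat_lit 26450756)) p13_11_0 (nat_lit 4) (nat_lit 147) (nat_lit 148) = true := by decide +kernel
def p13_11_0_148 : pfC (piC [(nat_lit 41351667), (nat_lit 26310893), (nat_lit 19519284), (nat_lit 13318063)] (nat_lit 26450756)) p13_11_0 (nat_lit 4) (nat_lit 148) (nat_lit 149) = true := by decide +kernel
def p13_11_0_149 : pfC (piC [(nat_lit 41351667), (nat_lit 26310893), (nat_lit 19519284), (nat_lit 13318063)] (nat_lit 26450756)) p13_11_0 (nat_lit 4) (nat_lit 149) (nat_lit 150) = true := by decide +kernel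
def p13_11_0_150 : pfC (piC [(nat_lit 41351667), (nat_lit 26310893), (nat_lit 19519284), (nat_lit 13318063)] (nat_lit 26450756)) p13_11_0 (nat_lit 4) (nat_lit 150) (nat_lit 151) = true := by decide +kernel
def p13_11_0_151 : pfC (piC [(nat_lit 41351667), (nat_lit 26310893), (nat_lit 19519284), (nat_lit 13318063)] (nat_lit 26450756)) p13_11_0 (nat_lit 4) (nat_lit 151) (nat_lit 152) = true := by decide +kernel
def p13_11_0_152 : pfC (piC [(nat_lit 41351667), (nat_lit 26310893), (nat_lit 19519284), (nat_lit 13318063)] (nat_lit 26450756)) p13_11_0 (nat_lit 4) (nat_lit 152) (nat_lit 153) = true := by decide +kernel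
def p13_11_0_153 : pfC (piC [(nat_lit 41351667), (nat_lit 26310893), (nat_lit 19519284), (nat_lit 13318063)] (nat_lit 26450756)) p13_11_0 (nat_lit 4) (nat_lit 153) (nat_lit 154) = true := by decide +kernel
def p13_11_0_154 : pfC (piC [(nat_lit 41351667), (nat_lit 26310893), (nat_lit 19519284), (nat_lit 13318063)] (nat_lit 26450756)) p13_11_0 (nat_lit 4) (nat_lit 154) (nat_lit 155) = true := by decide +kernel
def p13_11_0_155 : pfC (piC [(nat_lit 41351667), (nat_lit 26310893), (nat_lit 19519284), (nat_lit 13318063)] (nat_lit 26450756)) p13_11_0 (nat_lit 4) (nat_lit 155) (nat_lit 156) = true := by decide +kernel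
def p13_11_0_156 : pfC (piC [(nat_lit 41351667), (nat_lit 26310893), (nat_lit 19519284), (nat_lit 13318063)] (nat_lit 26450756)) p13_11_0 (nat_lit 4) (nat_lit 156) (nat_lit 157) = true := by decide +kernel
def p13_11_0_157 : pfC (piC [(nat_lit 41351667), (nat_lit 26310893), (nat_lit 19519284), (nat_lit 13318063)] (nat_lit 26450756)) p13_11_0 (nat_lit 4) (nat_lit 157) (nat_lit 158) = true := by decide +kernel
def p13_11_0_158 : pfC (piC [(nat_lit 41351667), (nat_lit 26310893), (nat_lit 19519284), (nat_lit 13318063)] (nat_lit 26450756)) p13_11_0 (nat_lit 4) (nat_lit 158) (nat_lit 159) = true := by decide +kernel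
def p13_11_0_159 : pfC (piC [(nat_lit 41351667), (nat_lit 26310893), (nat_lit 19519284), (nat_lit 13318063)] (nat_lit 26450756)) p13_11_0 (nat_lit 4) (nat_lit 159) (nat_lit 160) = true := by decide +kernel
def p13_11_0_160 : pfC (piC [(nat_lit 41351667), (nat_lit 26310893), (nat_lit 19519284), (nat_lit 13318063)] (nat_lit 26450756)) p13_11_0 (nat_lit 4) (nat_lit 160) (nat_lit 161) = true := by decide +kernel
def p13_11_0_161 : pfC (piC [(nat_lit 41351667), (nat_lit 26310893), (nat_lit 19519284), (nat_lit 13318063)] (nat_lit 26450756)) p13_11_0 (nat_lit 4) (nat_lit 161) (nat_lit 162) = true := by decide +kernel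
def p13_11_0_162 : pfC (piC [(nat_lit 41351667), (nat_lit 26310893), (nat_lit 19519284), (nat_lit 13318063)] (nat_lit 26450756)) p13_11_0 (nat_lit 4) (nat_lit 162) (nat_lit 163) = true := by decide +kernel
def p13_11_0_163 : pfC (piC [(nat_lit 41351667), (nat_lit 26310893), (nat_lit 19519284), (nat_lit 13318063)] (nat_lit 26450756)) p13_11_0 (nat_lit 4) (nat_lit 163) (nat_lit 164) = true := by decide +kernel
def p13_11_0_164 : pfC (piC [(nat_lit 41351667), (nat_lit 26310893), (nat_lit 19519284), (nat_lit 13318063)] (nat_lit 26450756)) p13_11_0 (nat_lit 4) (nat_lit 164) (nat_lit 165) = true := by decide +kernel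
def p13_11_0_165 : pfC (piC [(nat_lit 41351667), (nat_lit 26310893), (nat_lit 19519284), (nat_lit 13318063)] (nat_lit 26450756)) p13_11_0 (nat_lit 4) (nat_lit 165) (nat_lit 166) = true := by decide +kernel
def p13_11_0_166 : pfC (piC [(nat_lit 41351667), (nat_lit 26310893), (nat_lit 19519284), (nat_lit 13318063)] (nat_lit 26450756)) p13_11_0 (nat_lit 4) (nat_lit 166) (nat_lit 167) = true := by decide +kernel
def p13_11_0_167 : pfC (piC [(nat_lit 41351667), (nat_lit 26310893), (nat_lit 19519284), (nat_lit 13318063)] (nat_lit 26450756)) p13_11_0 (nat_lit 4) (nat_lit 167) (nat_lit 168) = true := by decide +kernel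
def p13_11_0_168 : pfC (piC [(nat_lit 41351667), (nat_lit 26310893), (nat_lit 19519284), (nat_lit 13318063)] (nat_lit 26450756)) p13_11_0 (nat_lit 4) (nat_lit 168) (nat_lit 169) = true := by decide +kernel
def p13_11_0_169 : pfC (piC [(nat_lit 41351667), (nat_lit 26310893), (nat_lit 19519284), (nat_lit 13318063)] (nat_lit 26450756)) p13_11_0 (nat_lit 4) (nat_lit 169) (nat_lit 170) = true := by decide +kernel
def p13_11_0_170 : pfC (piC [(nat_lit 41351667), (nat_lit 26310893), (nat_lit 19519284), (nat_lit 13318063)] (nat_lit 26450756)) p13_11_0 (nat_lit 4) (nat_lit 170) (nat_lit 171) = true := by decide +kernel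
def p13_11_0_171 : pfC (piC [(nat_lit 41351667), (nat_lit 26310893), (nat_lit 19519284), (nat_lit 13318063)] (nat_lit 26450756)) p13_11_0 (nat_lit 4) (nat_lit 171) (nat_lit 172) = true := by decide +kernel
def p13_11_0_172 : pfC (piC [(nat_lit 41351667), (nat_lit 26310893), (nat_lit 19519284), (nat_lit 13318063)] (nat_lit 26450756)) p13_11_0 (nat_lit 4) (nat_lit 172) (nat_lit 173) = true := by decide +kernel
def p13_11_0_173 : pfC (piC [(nat_lit 41351667), (nat_lit 26310893), (nat_lit 19519284), (nat_lit 13318063)] (nat_lit 26450756)) p13_11_0 (nat_lit 4) (nat_lit 173) (nat_lit 174) = true := by decide +kernel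
def p13_11_0_174 : pfC (piC [(nat_lit 41351667), (nat_lit 26310893), (nat_lit 19519284), (nat_lit 13318063)] (nat_lit 26450756)) p13_11_0 (nat_lit 4) (nat_lit 174) (nat_lit 175) = true := by decide +kernel
def p13_11_0_175 : pfC (piC [(nat_lit 41351667), (nat_lit 26310893), (nat_lit 19519284), (nat_lit 13318063)] (nat_lit 26450756)) p13_11_0 (nat_lit 4) (nat_lit 175) (nat_lit 176) = true := by decide +kernel
def p13_11_0_176 : pfC (piC [(nat_lit 41351667), (nat_lit 26310893), (nat_lit 19519284), (nat_lit 13318063)] (nat_lit 26450756)) p13_11_0 (nat_lit 4) (nat_lit 176) (nat_lit 177) = true := by decide +kernel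
def p13_11_0_177 : pfC (piC [(nat_lit 41351667), (nat_lit 26310893), (nat_lit 19519284), (nat_lit 13318063)] (nat_lit 26450756)) p13_11_0 (nat_lit 4) (nat_lit 177) (nat_lit 178) = true := by decide +kernel
def p13_11_0_178 : pfC (piC [(nat_lit 41351667), (nat_lit 26310893), (nat_lit 19519284), (nat_lit 13318063)] (nat_lit 26450756)) p13_11_0 (nat_lit 4) (nat_lit 178) (nat_lit 179) = true := by decide +kernel
def p13_11_0_179 : pfC (piC [(nat_lit 41351667), (nat_lit 26310893), (nat_lit 19519284), (nat_lit 13318063)] (nat_lit 26450756)) p13_11_0 (nat_lit 4) (nat_lit 179) (nat_lit 180) = true := by decide +kernel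
def p13_11_0_180 : pfC (piC [(nat_lit 41351667), (nat_lit 26310893), (nat_lit 19519284), (nat_lit 13318063)] (nat_lit 26450756)) p13_11_0 (nat_lit 4) (nat_lit 180) (nat_lit 181) = true := by decide +kernel
def p13_11_0_181 : pfC (piC [(nat_lit 41351667), (nat_lit 26310893), (nat_lit 19519284), (nat_lit 13318063)] (nat_lit 26450756)) p13_11_0 (nat_lit 4) (nat_lit 181) (nat_lit 182) = true := by decide +kernel
def p13_11_0_182 : pfC (piC [(nat_lit 41351667), (nat_lit 26310893), (nat_lit 19519284), (nat_lit 13318063)] (nat_lit 26450756)) p13_11_0 (nat_lit 4) (nat_lit 182) (nat_lit 183) = true := by decide +kernel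
def p13_11_0_183 : pfC (piC [(nat_lit 41351667), (nat_lit 26310893), (nat_lit 19519284), (nat_lit 13318063)] (nat_lit 26450756)) p13_11_0 (nat_lit 4) (nat_lit 183) (nat_lit 184) = true := by decide +kernel
def p13_11_0_184 : pfC (piC [(nat_lit 41351667), (nat_lit 26310893), (nat_lit 19519284), (nat_lit 13318063)] (nat_lit 26450756)) p13_11_0 (nat_lit 4) (nat_lit 184) (nat_lit 185) = true := by decide +kernel
def p13_11_0_185 : pfC (piC [(nat_lit 41351667), (nat_lit 26310893), (nat_lit 19519284), (nat_lit 13318063)] (nat_lit 26450756)) p13_11_0 (nat_lit 4) (nat_lit 185) (nat_lit 186) = true := by decide +kernel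
def p13_11_0_186 : pfC (piC [(nat_lit 41351667), (nat_lit 26310893), (nat_lit 19519284), (nat_lit 13318063)] (nat_lit 26450756)) p13_11_0 (nat_lit 4) (nat_lit 186) (nat_lit 187) = true := by decide +kernel
theorem p13_11_0_T : PfS (PiF n13_11.reverse (nat_lit 26450756)) p13_11_0 (nat_lit 4) [] 0 :=
  pftab_of (los := [(nat_lit 41351667), (nat_lit 26310893), (nat_lit 19519284), (nat_lit 13318063)]) (by decide +kernel) (hi := (nat_lit 187)) (PfP.trans (PfP.trans (PfP.trans (PfP.trans (PfP.trans (PfP.trans (PfP.trans (PfP.trans (PfP.trans (PfP.trans (PfP.trans (PfP.trans (PfP.trans (PfP.trans (PfP.trans (PfP.trans (PfP.trans (PfP.trans (PfP.trans (PfP.trans (PfP.trans (PfP.trans (PfP.trans (PfP.trans (PfP.trans (PfP.trans (PfP.trans (PfP.trans (PfP.trans (PfP.trans (PfP.trans (PfP.trans (PfP.trans (PfP.trans (PfP.trans (PfP.trans (PfP.trans (PfP.trans (PfP.trans (PfP.trans (PfP.trans (PfP.trans (PfP.trans (PfP.trans (PfP.trans (PfP.trans (PfP.trans (PfP.trans (PfP.trans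 (PfP.trans (PfP.trans (PfP.trans (PfP.trans (PfP.trans (PfP.trans (PfP.trans (PfP.trans (PfP.trans (PfP.trans (PfP.trans (PfP.trans (PfP.trans (PfP.trans (PfP.trans (PfP.trans (PfP.trans (PfP.trans (PfP.trans (PfP.trans (PfP.trans (PfP.trans (PfP.trans (PfP.trans (PfP.trans (PfP.trans (PfP.trans (PfP.trans (PfP.trans (PfP.trans (PfP.trans (PfP.trans (PfP.trans (PfP.trans (PfP.trans (PfP.trans (PfP.trans (PfP.trans (PfP.trans (PfP.trans (PfP.trans (PfP.trans (PfP.trans (PfP.trans (PfP.trans (PfP.trans (PfP.trans (PfP.trans (PfP.trans (PfP.trans (PfP.trans (PfP.trans (PfP.trans (PfP.trans (PfP.trans (PfP.trans (PfP.trans (PfP.trans (PfP.trans (PfP.trans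
 (PfP.trans (PfP.trans (PfP.trans (PfP.trans (PfP.trans (PfP.trans (PfP.trans (PfP.trans (PfP.trans (PfP.trans (PfP.trans (PfP.trans (PfP.trans (PfP.trans (PfP.trans (PfP.trans (PfP.trans (PfP.trans (PfP.trans (PfP.trans (PfP.trans (PfP.trans (PfP.trans (PfP.trans (PfP.trans (PfP.trans (PfP.trans (PfP.trans (PfP.trans (PfP.trans (PfP.trans (PfP.trans (PfP.trans (PfP.trans (PfP.trans (PfP.trans (PfP.trans (PfP.trans (PfP.trans (PfP.trans (PfP.trans (PfP.trans (PfP.trans (PfP.trans (PfP.trans (PfP.trans (PfP.trans (PfP.trans (PfP.trans (PfP.trans (PfP.trans (PfP.trans (PfP.trans (PfP.trans (PfP.trans (PfP.trans (PfP.trans (PfP.trans (PfP.trans (PfP.trans (PfP.trans (PfP.trans (PfP.trans (PfP.trans (PfP.trans (PfP.trans (PfP.trans (PfP.trans (PfP.trans (PfP.trans (PfP.trans (PfP.trans (PfP.trans (PfP.trans (PfP.trans (PfP.trans (PfP.trans (pfC_sound p13_11_0_0) (pfC_sound p13_11_0_1)) (pfC_sound p13_11_0_2)) (pfC_sound p13_11_0_3)) (pfC_sound p13_11_0_4)) (pfC_sound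 p13_11_0_5)) (pfC_sound p13_11_0_6)) (pfC_sound p13_11_0_7)) (pfC_sound p13_11_0_8)) (pfC_sound p13_11_0_9)) (pfC_sound p13_11_0_10)) (pfC_sound p13_11_0_11)) (pfC_sound p13_11_0_12)) (pfC_sound p13_11_0_13)) (pfC_sound
 p13_11_0_14)) (pfC_sound p13_11_0_15)) (pfC_sound p13_11_0_16)) (pfC_sound p13_11_0_17)) (pfC_sound p13_11_0_18)) (pfC_sound p13_11_0_19)) (pfC_sound p13_11_0_20)) (pfC_sound p13_11_0_21)) (pfC_sound p13_11_0_22)) (pfC_sound p13_11_0_23)) (pfC_sound p13_11_0_24)) (pfC_sound p13_11_0_25)) (pfC_sound p13_11_0_26)) (pfC_sound p13_11_0_27)) (pfC_sound p13_11_0_28)) (pfC_sound p13_11_0_29)) (pfC_sound p13_11_0_30)) (pfC_sound p13_11_0_31)) (pfC_sound p13_11_0_32)) (pfC_sound p13_11_0_33)) (pfC_sound p13_11_0_34)) (pfC_sound p13_11_0_35)) (pfC_sound p13_11_0_36)) (pfC_sound p13_11_0_37)) (pfC_sound p13_11_0_38)) (pfC_sound p13_11_0_39)) (pfC_sound p13_11_0_40)) (pfC_sound p13_11_0_41)) (pfC_sound p13_11_0_42)) (pfC_sound p13_11_0_43)) (pfC_sound p13_11_0_44))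 (pfC_sound p13_11_0_45)) (pfC_sound p13_11_0_46)) (pfC_sound p13_11_0_47)) (pfC_sound p13_11_0_48)) (pfC_sound p13_11_0_49)) (pfC_sound p13_11_0_50)) (pfC_sound p13_11_0_51)) (pfC_sound p13_11_0_52)) (pfC_sound p13_11_0_53)) (pfC_sound p13_11_0_54)) (pfC_sound p13_11_0_55)) (pfC_sound p13_11_0_56)) (pfC_sound p13_11_0_57)) (pfC_sound p13_11_0_58)) (pfC_sound p13_11_0_59)) (pfC_sound p13_11_0_60)) (pfC_sound p13_11_0_61)) (pfC_sound
 p13_11_0_62)) (pfC_sound p13_11_0_63)) (pfC_sound p13_11_0_64)) (pfC_sound p13_11_0_65)) (pfC_sound p13_11_0_66)) (pfC_sound p13_11_0_67)) (pfC_sound p13_11_0_68)) (pfC_sound p13_11_0_69)) (pfC_sound p13_11_0_70)) (pfC_sound p13_11_0_71)) (pfC_sound p13_11_0_72)) (pfC_sound p13_11_0_73)) (pfC_sound p13_11_0_74)) (pfC_sound p13_11_0_75)) (pfC_sound p13_11_0_76)) (pfC_sound p13_11_0_77)) (pfC_sound p13_11_0_78)) (pfC_sound p13_11_0_79)) (pfC_sound p13_11_0_80)) (pfC_sound p13_11_0_81)) (pfC_sound p13_11_0_82)) (pfC_sound p13_11_0_83))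 (pfC_sound p13_11_0_84)) (pfC_sound p13_11_0_85)) (pfC_sound p13_11_0_86)) (pfC_sound p13_11_0_87)) (pfC_sound p13_11_0_88)) (pfC_sound p13_11_0_89)) (pfC_sound p13_11_0_90)) (pfC_sound p13_11_0_91)) (pfC_sound p13_11_0_92)) (pfC_sound p13_11_0_93)) (pfC_sound p13_11_0_94)) (pfC_sound p13_11_0_95)) (pfC_sound p13_11_0_96)) (pfC_sound p13_11_0_97)) (pfC_sound p13_11_0_98)) (pfC_sound p13_11_0_99)) (pfC_sound p13_11_0_100)) (pfC_sound p13_11_0_101)) (pfC_sound p13_11_0_102)) (pfC_sound p13_11_0_103)) (pfC_sound p13_11_0_104)) (pfC_sound p13_11_0_105)) (pfC_sound p13_11_0_106)) (pfC_sound p13_11_0_107)) (pfC_sound p13_11_0_108)) (pfC_sound p13_11_0_109))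
 (pfC_sound p13_11_0_110)) (pfC_sound p13_11_0_111)) (pfC_sound p13_11_0_112)) (pfC_sound p13_11_0_113)) (pfC_sound p13_11_0_114)) (pfC_sound p13_11_0_115)) (pfC_sound p13_11_0_116)) (pfC_sound p13_11_0_117)) (pfC_sound p13_11_0_118)) (pfC_sound p13_11_0_119)) (pfC_sound p13_11_0_120)) (pfC_sound p13_11_0_121)) (pfC_sound p13_11_0_122)) (pfC_sound p13_11_0_123)) (pfC_sound p13_11_0_124)) (pfC_sound p13_11_0_125)) (pfC_sound p13_11_0_126)) (pfC_sound p13_11_0_127)) (pfC_sound p13_11_0_128)) (pfC_sound p13_11_0_129)) (pfC_sound p13_11_0_130)) (pfC_sound p13_11_0_131)) (pfC_sound p13_11_0_132)) (pfC_sound p13_11_0_133)) (pfC_sound p13_11_0_134)) (pfC_sound p13_11_0_135)) (pfC_sound p13_11_0_136)) (pfC_sound p13_11_0_137)) (pfC_sound p13_11_0_138)) (pfC_sound p13_11_0_139)) (pfC_sound p13_11_0_140)) (pfC_sound p13_11_0_141)) (pfC_sound p13_11_0_142)) (pfC_sound p13_11_0_143)) (pfC_sound p13_11_0_144)) (pfC_sound p13_11_0_145)) (pfC_sound p13_11_0_146)) (pfC_sound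 p13_11_0_147)) (pfC_sound p13_11_0_148)) (pfC_sound p13_11_0_149)) (pfC_sound p13_11_0_150)) (pfC_sound p13_11_0_151)) (pfC_sound p13_11_0_152)) (pfC_sound p13_11_0_153)) (pfC_sound p13_11_0_154)) (pfC_sound p13_11_0_155))
 (pfC_sound p13_11_0_156)) (pfC_sound p13_11_0_157)) (pfC_sound p13_11_0_158)) (pfC_sound p13_11_0_159)) (pfC_sound p13_11_0_160)) (pfC_sound p13_11_0_161)) (pfC_sound p13_11_0_162)) (pfC_sound p13_11_0_163)) (pfC_sound p13_11_0_164)) (pfC_sound p13_11_0_165)) (pfC_sound p13_11_0_166)) (pfC_sound p13_11_0_167)) (pfC_sound p13_11_0_168)) (pfC_sound p13_11_0_169)) (pfC_sound p13_11_0_170)) (pfC_sound p13_11_0_171)) (pfC_sound p13_11_0_172)) (pfC_sound p13_11_0_173)) (pfC_sound p13_11_0_174)) (pfC_sound p13_11_0_175)) (pfC_sound p13_11_0_176)) (pfC_sound p13_11_0_177)) (pfC_sound p13_11_0_178)) (pfC_sound p13_11_0_179)) (pfC_sound p13_11_0_180)) (pfC_sound p13_11_0_181)) (pfC_sound p13_11_0_182)) (pfC_sound p13_11_0_183)) (pfC_sound p13_11_0_184))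 (pfC_sound p13_11_0_185)) (pfC_sound p13_11_0_186)) (by decide +kernel)

def z13_11_0 : zOK yB13_11 (nat_lit 0) (nat_lit 0) (nat_lit 400) (nat_lit 26450756) (nat_lit 10613167) = true := by decide +kernel
def g13_11_0 : gOK yB13_11.x P13_11 (nat_lit 1424) (q13_11 :: r13_11) (nat_lit 0) (nat_lit 0) (nat_lit 1) (nat_lit 400) (nat_lit 0) (nat_lit 11000000) (nat_lit 12712500) (nat_lit 12712500) [(nat_lit 800), (nat_lit 1400), (nat_lit 1530)] = true := by decide +kernel
def v13_11_0 : ivC P13_11 s13_11 w13_11 n13_11 (nat_lit 4) (nat_lit 5440) (nat_lit 0) (nat_lit 0) f152_1_0 f160_1_0 (nat_lit 1) (nat_lit 400) f152_1_400 f160_1_400 (nat_lit 26450756) (nat_lit 10613167) p13_11_0 = true := by decide +kernel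
def p13_11_1 : PF := (PF.cons (PF.cons (PF.cons (PF.cons (PF.leaf (nat_lit 2076071) (nat_lit 9779174) (nat_lit 57329638) (nat_lit 9779174) [(nat_lit 0), (nat_lit 0), (nat_lit 0), (nat_lit 0)]) (PF.cons (PF.leaf (nat_lit 2210730) (nat_lit 222087) (nat_lit 57088370) (nat_lit 9798354) [(nat_lit 222087), (nat_lit 0), (nat_lit 0), (nat_lit 0)]) (PF.cons (PF.leaf (nat_lit 2371748) (nat_lit 241950) (nat_lit 56805417) (nat_lit 9819494) [(nat_lit 241950), (nat_lit 0), (nat_lit 0), (nat_lit 0)]) (PF.cons (PF.leaf (nat_lit 2553095) (nat_lit 259739) (nat_lit 56488056) (nat_lit 9841537) [(nat_lit 259739), (nat_lit 0), (nat_lit 0), (nat_lit 0)]) (PF.cons (PF.leaf (nat_lit 2752106) (nat_lit 275933) (nat_lit 56141400) (nat_lit 9863679) [(nat_lit 275933), (nat_lit 0), (nat_lit 0), (nat_lit 0)]) (PF.cons (PF.leaf (nat_lit 2966750) (nat_lit 290831) (nat_lit 55769374) (nat_lit 9885279) [(nat_lit 290831), (nat_lit 0), (nat_lit 0), (nat_lit 0)]) (PF.cons (PF.leaf (nat_lit 3195374)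 (nat_lit 304639) (nat_lit 55375164) (nat_lit 9905812) [(nat_lit 304639), (nat_lit 0), (nat_lit 0), (nat_lit 0)]) (PF.cons PF.nil (PF.cons PF.nil PF.nil))))))))) (PF.cons (PF.cons (PF.leaf (nat_lit 2594312) (nat_lit 1152950) (nat_lit 56095101)
 (nat_lit 9860761) [(nat_lit 0), (nat_lit 1152950), (nat_lit 0), (nat_lit 0)]) (PF.cons (PF.leaf (nat_lit 2772397) (nat_lit 272072) (nat_lit 55776283) (nat_lit 9879122) [(nat_lit 272072), (nat_lit 1181335), (nat_lit 0), (nat_lit 0)]) (PF.cons (PF.leaf (nat_lit 2970581) (nat_lit 287612) (nat_lit 55426578) (nat_lit 9897452) [(nat_lit 287612), (nat_lit 1209557), (nat_lit 0), (nat_lit 0)]) (PF.cons (PF.leaf (nat_lit 3184839) (nat_lit 301844) (nat_lit 55051034) (nat_lit 9915099) [(nat_lit 301844), (nat_lit 1237145), (nat_lit 0), (nat_lit 0)]) (PF.cons (PF.leaf (nat_lit 3413335) (nat_lit 314998) (nat_lit 54653422) (nat_lit 9931558) [(nat_lit 314998), (nat_lit 1263838), (nat_lit 0), (nat_lit 0)]) (PF.cons (PF.leaf (nat_lit 3654363)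 (nat_lit 327227) (nat_lit 54236751) (nat_lit 9946434) [(nat_lit 327227), (nat_lit 1289487), (nat_lit 0), (nat_lit 0)]) (PF.cons PF.nil PF.nil))))))) (PF.cons (PF.cons (PF.leaf (nat_lit 3193844) (nat_lit 1246473) (nat_lit 54691501) (nat_lit 9924364) [(nat_lit 0), (nat_lit 1246473), (nat_lit 0), (nat_lit 0)]) (PF.cons (PF.leaf (nat_lit 3405068) (nat_lit 311457) (nat_lit 54317082) (nat_lit 9938023) [(nat_lit 311457), (nat_lit 1271124), (nat_lit 0), (nat_lit 0)])
 (PF.cons (PF.leaf (nat_lit 3632058) (nat_lit 324139) (nat_lit 53919719) (nat_lit 9950442) [(nat_lit 324139), (nat_lit 1295186), (nat_lit 0), (nat_lit 0)]) (PF.cons (PF.leaf (nat_lit 3871971) (nat_lit 335873) (nat_lit 53503075) (nat_lit 9961238) [(nat_lit 335873), (nat_lit 1318438), (nat_lit 0), (nat_lit 0)]) (PF.cons PF.nil PF.nil))))) (PF.cons (PF.cons (PF.leaf (nat_lit 3853127) (nat_lit 1323684) (nat_lit 53175184) (nat_lit 9962574) [(nat_lit 0), (nat_lit 1323684), (nat_lit 0), (nat_lit 0)]) (PF.cons (PF.leaf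 (nat_lit 4089804) (nat_lit 343499) (nat_lit 52761725) (nat_lit 9969437) [(nat_lit 343499), (nat_lit 1344717), (nat_lit 0), (nat_lit 0)]) (PF.cons (PF.leaf (nat_lit 4339068) (nat_lit 354019) (nat_lit 52331417) (nat_lit 9974392) [(nat_lit 354019), (nat_lit 1364988), (nat_lit 0), (nat_lit 0)]) (PF.cons PF.nil PF.nil)))) (PF.cons (PF.cons (PF.leaf (nat_lit 4555449) (nat_lit 1386946) (nat_lit 51588566) (nat_lit 9972459) [(nat_lit 0), (nat_lit 1386946), (nat_lit 0), (nat_lit 0)]) (PF.cons (PF.leaf (nat_lit 4811516) (nat_lit 369815) (nat_lit 51149079) (nat_lit 9971633) [(nat_lit 369815), (nat_lit 1404571), (nat_lit 0), (nat_lit 0)]) PF.nil)) (PF.cons PF.nil PF.nil)))))) (PF.cons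
 (PF.cons (PF.cons (PF.leaf (nat_lit 3155477) (nat_lit 3094621) (nat_lit 54097526) (nat_lit 9916664) [(nat_lit 0), (nat_lit 0), (nat_lit 3094621), (nat_lit 0)]) (PF.cons (PF.leaf (nat_lit 3343766) (nat_lit 294942) (nat_lit 53765674) (nat_lit 9926740) [(nat_lit 294942), (nat_lit 0), (nat_lit 3121454), (nat_lit 0)]) (PF.cons (PF.leaf (nat_lit 3551272) (nat_lit 309703) (nat_lit 53404533) (nat_lit 9936060) [(nat_lit 309703), (nat_lit 0), (nat_lit 3148811), (nat_lit 0)]) (PF.cons (PF.leaf (nat_lit 3774072) (nat_lit 323022) (nat_lit 53019530) (nat_lit 9944163) [(nat_lit 323022), (nat_lit 0), (nat_lit 3176050), (nat_lit 0)]) (PF.cons (PF.leaf (nat_lit 4009963) (nat_lit 335183) (nat_lit 52614640) (nat_lit 9950703) [(nat_lit 335183), (nat_lit 0), (nat_lit 3202737), (nat_lit 0)]) (PF.cons (PF.leaf (nat_lit 4257424) (nat_lit 346374) (nat_lit 52192963) (nat_lit 9955414) [(nat_lit 346374), (nat_lit 0), (nat_lit 3228563), (nat_lit 0)]) (PF.cons PF.nil PF.nil))))))) (PF.cons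 (PF.cons (PF.leaf (nat_lit 3772580) (nat_lit 1309389) (nat_lit 52665132) (nat_lit 9944535) [(nat_lit 0), (nat_lit 1309389), (nat_lit 3189755), (nat_lit 0)]) (PF.cons (PF.leaf (nat_lit 3990999) (nat_lit 330590) (nat_lit
 52284962) (nat_lit 9949120) [(nat_lit 330590), (nat_lit 1330398), (nat_lit 3213741), (nat_lit 0)]) (PF.cons (PF.leaf (nat_lit 4224209) (nat_lit 342396) (nat_lit 51883774) (nat_lit 9952115) [(nat_lit 342396), (nat_lit 1350779), (nat_lit 3237350), (nat_lit 0)]) (PF.cons (PF.leaf (nat_lit 4469388) (nat_lit 353199) (nat_lit 51465339) (nat_lit 9953275) [(nat_lit 353199), (nat_lit 1370359), (nat_lit 3260241), (nat_lit 0)]) (PF.cons PF.nil PF.nil))))) (PF.cons (PF.cons (PF.leaf (nat_lit 4440260) (nat_lit 1373215) (nat_lit 51146760) (nat_lit 9947556) [(nat_lit 0), (nat_lit 1373215), (nat_lit 3268063), (nat_lit 0)]) (PF.cons (PF.leaf (nat_lit 4681254) (nat_lit 359138) (nat_lit 50734282) (nat_lit 9945384) [(nat_lit 359138), (nat_lit 1390917), (nat_lit 3288172),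 (nat_lit 0)]) (PF.cons (PF.leaf (nat_lit 4933849) (nat_lit 368780) (nat_lit 50306828) (nat_lit 9941216) [(nat_lit 368780), (nat_lit 1407872), (nat_lit 3307461), (nat_lit 0)]) (PF.cons PF.nil PF.nil)))) (PF.cons (PF.cons (PF.leaf (nat_lit 5143028) (nat_lit 1424811) (nat_lit 49580264) (nat_lit 9924709) [(nat_lit 0), (nat_lit 1424811), (nat_lit 3329404), (nat_lit 0)]) (PF.cons PF.nil PF.nil)) (PF.cons PF.nil PF.nil))))) (PF.cons
 (PF.cons (PF.cons (PF.leaf (nat_lit 4342801) (nat_lit 3257963) (nat_lit 50671705) (nat_lit 9921179) [(nat_lit 0), (nat_lit 0), (nat_lit 3257963), (nat_lit 0)]) (PF.cons (PF.leaf (nat_lit 4566095) (nat_lit 346051) (nat_lit 50291702) (nat_lit 9917816) [(nat_lit 346051), (nat_lit 0), (nat_lit 3276621), (nat_lit 0)]) (PF.cons (PF.leaf (nat_lit 4803322) (nat_lit 357047) (nat_lit 49892478) (nat_lit 9912647) [(nat_lit 357047), (nat_lit 0), (nat_lit 3294795), (nat_lit 0)]) (PF.cons (PF.leaf (nat_lit 5051602) (nat_lit 367000) (nat_lit 49477824) (nat_lit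 9905543) [(nat_lit 367000), (nat_lit 0), (nat_lit 3312222), (nat_lit 0)]) (PF.cons PF.nil PF.nil))))) (PF.cons (PF.cons (PF.leaf (nat_lit 5013127) (nat_lit 1410473) (nat_lit 49171295) (nat_lit 9894205) [(nat_lit 0), (nat_lit 1410473), (nat_lit 3316419), (nat_lit 0)]) (PF.cons (PF.leaf (nat_lit 5256537) (nat_lit 371516) (nat_lit 48764592) (nat_lit 9884371) [(nat_lit 371516), (nat_lit 1425318), (nat_lit 3331507), (nat_lit 0)]) (PF.cons PF.nil (PF.cons PF.nil PF.nil)))) (PF.cons (PF.cons (PF.leaf (nat_lit 5711974) (nat_lit 1452197) (nat_lit 47640132) (nat_lit 9844182) [(nat_lit 0), (nat_lit 1452197), (nat_lit 3360050), (nat_lit 0)]) (PF.cons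
 PF.nil PF.nil)) PF.nil))) (PF.cons (PF.cons (PF.cons (PF.leaf (nat_lit 5569479) (nat_lit 3345307) (nat_lit 47262925) (nat_lit 9809964) [(nat_lit 0), (nat_lit 0), (nat_lit 3345307), (nat_lit 0)]) (PF.cons (PF.leaf (nat_lit 5813733) (nat_lit 381140) (nat_lit 46865453) (nat_lit 9793754) [(nat_lit 381140), (nat_lit 0), (nat_lit 3356155), (nat_lit 0)]) (PF.cons PF.nil PF.nil))) (PF.cons (PF.cons (PF.leaf (nat_lit 6261095) (nat_lit 1470919) (nat_lit 45777607) (nat_lit 9737775) [(nat_lit 0), (nat_lit 1470919), (nat_lit 3374169), (nat_lit 0)]) PF.nil) PF.nil)) (PF.cons PF.nil (PF.cons PF.nil PF.nil)))))) (PF.cons (PF.cons (PF.cons (PF.cons (PF.leaf (nat_lit 4241522) (nat_lit 9262050) (nat_lit 48158357) (nat_lit 9688404) [(nat_lit 0), (nat_lit 0), (nat_lit 0), (nat_lit 9262050)]) (PF.cons (PF.leaf (nat_lit 4429638) (nat_lit 309165) (nat_lit 47858349) (nat_lit 9682868) [(nat_lit 309165), (nat_lit 0), (nat_lit 0), (nat_lit 9258430)]) (PF.cons (PF.leaf (nat_lit 4635716)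 (nat_lit 323122) (nat_lit 47533412) (nat_lit 9675759) [(nat_lit 323122), (nat_lit 0), (nat_lit 0), (nat_lit 9253394)]) (PF.cons (PF.leaf (nat_lit 4855591) (nat_lit 335454) (nat_lit 47188644) (nat_lit 9666985) [(nat_lit
 335454), (nat_lit 0), (nat_lit 0), (nat_lit 9246818)]) (PF.cons (PF.leaf (nat_lit 5087206) (nat_lit 346497) (nat_lit 46827744) (nat_lit 9656471) [(nat_lit 346497), (nat_lit 0), (nat_lit 0), (nat_lit 9238608)]) (PF.cons (PF.leaf (nat_lit 5328794) (nat_lit 356477) (nat_lit 46453563) (nat_lit 9644168) [(nat_lit 356477), (nat_lit 0), (nat_lit 0), (nat_lit 9228694)]) (PF.cons PF.nil (PF.cons PF.nil (PF.cons PF.nil PF.nil))))))))) (PF.cons (PF.cons (PF.leaf (nat_lit 4840034) (nat_lit 1341624) (nat_lit 46878917) (nat_lit 9653294) [(nat_lit 0), (nat_lit 1341624), (nat_lit 0), (nat_lit 9234977)]) (PF.cons (PF.leaf (nat_lit 5054360) (nat_lit 340728) (nat_lit 46541085) (nat_lit 9642460) [(nat_lit 340728), (nat_lit 1358231), (nat_lit 0), (nat_lit 9226306)])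 (PF.cons (PF.leaf (nat_lit 5282059) (nat_lit 351467) (nat_lit 46186010) (nat_lit 9629841) [(nat_lit 351467), (nat_lit 1374061), (nat_lit 0), (nat_lit 9215964)]) (PF.cons (PF.leaf (nat_lit 5520323) (nat_lit 361115) (nat_lit 45817120) (nat_lit 9615418) [(nat_lit 361115), (nat_lit 1389014), (nat_lit 0), (nat_lit 9203911)]) (PF.cons (PF.leaf (nat_lit 5767525) (nat_lit 369855) (nat_lit 45437031) (nat_lit 9599184) [(nat_lit 369855), (nat_lit
 1403050), (nat_lit 0), (nat_lit 9190126)]) (PF.cons PF.nil (PF.cons PF.nil PF.nil))))))) (PF.cons (PF.cons (PF.leaf (nat_lit 5478201) (nat_lit 1388721) (nat_lit 45542621) (nat_lit 9599296) [(nat_lit 0), (nat_lit 1388721), (nat_lit 0), (nat_lit 9189451)]) (PF.cons (PF.leaf (nat_lit 5711425) (nat_lit 364991) (nat_lit 45181083) (nat_lit 9582991) [(nat_lit 364991), (nat_lit 1402129), (nat_lit 0), (nat_lit 9175486)]) (PF.cons (PF.leaf (nat_lit 5954873) (nat_lit 373486) (nat_lit 44807658) (nat_lit 9564868) [(nat_lit 373486), (nat_lit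 1414762), (nat_lit 0), (nat_lit 9159787)]) (PF.cons (PF.leaf (nat_lit 6206375) (nat_lit 381183) (nat_lit 44424769) (nat_lit 9544955) [(nat_lit 381183), (nat_lit 1426583), (nat_lit 0), (nat_lit 9142369)]) (PF.cons PF.nil PF.nil))))) (PF.cons (PF.cons (PF.leaf (nat_lit 6142354) (nat_lit 1425036) (nat_lit 44180299) (nat_lit 9527239) [(nat_lit 0), (nat_lit 1425036), (nat_lit 0), (nat_lit 9126163)]) (PF.cons (PF.leaf (nat_lit 6389145) (nat_lit 383974) (nat_lit 43805098) (nat_lit 9505675) [(nat_lit 383974), (nat_lit 1435665), (nat_lit 0), (nat_lit 9107066)]) (PF.cons PF.nil (PF.cons PF.nil PF.nil)))) (PF.cons (PF.cons (PF.leaf (nat_lit 6822265) (nat_lit 1452387)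
 (nat_lit 42813930) (nat_lit 9438722) [(nat_lit 0), (nat_lit 1452387), (nat_lit 0), (nat_lit 9046609)]) (PF.cons PF.nil PF.nil)) (PF.cons PF.nil PF.nil)))))) (PF.cons (PF.cons (PF.cons (PF.leaf (nat_lit 5361021) (nat_lit 3243720) (nat_lit 45148551) (nat_lit 9562108) [(nat_lit 0), (nat_lit 0), (nat_lit 3243720), (nat_lit 9154432)]) (PF.cons (PF.leaf (nat_lit 5577772) (nat_lit 351286) (nat_lit 44815642) (nat_lit 9546354) [(nat_lit 351286), (nat_lit 0), (nat_lit 3254665), (nat_lit 9140864)]) (PF.cons (PF.leaf (nat_lit 5807210) (nat_lit 361266) (nat_lit 44466969) (nat_lit 9528744) [(nat_lit 361266), (nat_lit 0), (nat_lit 3265016), (nat_lit 9125549)]) (PF.cons (PF.leaf (nat_lit 6046409) (nat_lit 370147) (nat_lit 44105898) (nat_lit 9509332) [(nat_lit 370147), (nat_lit 0), (nat_lit 3274616), (nat_lit 9108522)]) (PF.cons (PF.leaf (nat_lit 6293850) (nat_lit 378125) (nat_lit 43734964) (nat_lit 9488166) [(nat_lit 378125), (nat_lit 0), (nat_lit 3283364), (nat_lit 9089814)])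 PF.nil))))) (PF.cons (PF.cons (PF.leaf (nat_lit 5996719) (nat_lit 1409157) (nat_lit 43844385) (nat_lit 9490288) [(nat_lit 0), (nat_lit 1409157), (nat_lit 3273865), (nat_lit 9091116)]) (PF.cons (PF.leaf (nat_lit 6230473)
 (nat_lit 372928) (nat_lit 43491736) (nat_lit 9469425) [(nat_lit 372928), (nat_lit 1420328), (nat_lit 3281793), (nat_lit 9072601)]) (PF.cons (PF.leaf (nat_lit 6473755) (nat_lit 380732) (nat_lit 43128440) (nat_lit 9446788) [(nat_lit 380732), (nat_lit 1430767), (nat_lit 3288959), (nat_lit 9052392)]) (PF.cons PF.nil PF.nil)))) (PF.cons (PF.cons (PF.leaf (nat_lit 6653792) (nat_lit 1438056) (nat_lit 42525186) (nat_lit 9402662) [(nat_lit 0), (nat_lit 1438056), (nat_lit 3292609), (nat_lit 9012241)]) (PF.cons (PF.leaf (nat_lit 6899484) (nat_lit 389646) (nat_lit 42161945) (nat_lit 9377076) [(nat_lit 389646), (nat_lit 1446736), (nat_lit 3297555), (nat_lit 8989115)]) PF.nil)) (PF.cons PF.nil (PF.cons PF.nil PF.nil))))) (PF.cons (PF.cons (PF.cons (PF.leaf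 (nat_lit 6499147) (nat_lit 3275486) (nat_lit 42216632) (nat_lit 9364898) [(nat_lit 0), (nat_lit 0), (nat_lit 3275486), (nat_lit 8976309)]) (PF.cons (PF.leaf (nat_lit 6732438) (nat_lit 378866) (nat_lit 41874598) (nat_lit 9340330) [(nat_lit 378866), (nat_lit 0), (nat_lit 3280466), (nat_lit 8954083)]) (PF.cons (PF.leaf (nat_lit 6974669) (nat_lit 386051) (nat_lit 41522992) (nat_lit 9314054) [(nat_lit 386051), (nat_lit 0), (nat_lit 3284719),
 (nat_lit 8930224)]) (PF.cons PF.nil PF.nil)))) (PF.cons (PF.cons (PF.leaf (nat_lit 7147267) (nat_lit 1445196) (nat_lit 40945197) (nat_lit 9264909) [(nat_lit 0), (nat_lit 1445196), (nat_lit 3284253), (nat_lit 8885002)]) (PF.cons PF.nil PF.nil)) (PF.cons PF.nil PF.nil))) (PF.cons (PF.cons (PF.cons (PF.leaf (nat_lit 7622923) (nat_lit 3267542) (nat_lit 39440907) (nat_lit 9117431) [(nat_lit 0), (nat_lit 0), (nat_lit 3267542), (nat_lit 8747845)]) (PF.cons PF.nil PF.nil)) (PF.cons PF.nil PF.nil)) (PF.cons PF.nil PF.nil))))) (PF.cons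 (PF.cons (PF.cons (PF.cons (PF.leaf (nat_lit 6245450) (nat_lit 8741910) (nat_lit 40505316) (nat_lit 9119676) [(nat_lit 0), (nat_lit 0), (nat_lit 0), (nat_lit 8741910)]) (PF.cons (PF.leaf (nat_lit 6454214) (nat_lit 349527) (nat_lit 40216986) (nat_lit 9097881) [(nat_lit 349527), (nat_lit 0), (nat_lit 0), (nat_lit 8722208)]) (PF.cons (PF.leaf (nat_lit 6674609) (nat_lit 358658) (nat_lit 39915560) (nat_lit 9074298) [(nat_lit 358658), (nat_lit 0), (nat_lit 0), (nat_lit 8700818)]) (PF.cons (PF.leaf (nat_lit 6903825) (nat_lit 366678) (nat_lit 39603963) (nat_lit 9049079) [(nat_lit 366678), (nat_lit 0), (nat_lit 0), (nat_lit 8677867)]) (PF.cons (PF.leaf (nat_lit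
 7140372) (nat_lit 373794) (nat_lit 39284384) (nat_lit 9022337) [(nat_lit 373794), (nat_lit 0), (nat_lit 0), (nat_lit 8653457)]) PF.nil))))) (PF.cons (PF.cons (PF.leaf (nat_lit 6846852) (nat_lit 1385037) (nat_lit 39382237) (nat_lit 9026964) [(nat_lit 0), (nat_lit 1385037), (nat_lit 0), (nat_lit 8657286)]) (PF.cons (PF.leaf (nat_lit 7070374) (nat_lit 368299) (nat_lit 39078589) (nat_lit 9001051) [(nat_lit 368299), (nat_lit 1393680), (nat_lit 0), (nat_lit 8633596)]) (PF.cons (PF.leaf (nat_lit 7302575) (nat_lit 375291) (nat_lit 38766218) (nat_lit 8973575) [(nat_lit 375291), (nat_lit 1401614), (nat_lit 0), (nat_lit 8608411)]) (PF.cons PF.nil PF.nil)))) (PF.cons (PF.cons (PF.leaf (nat_lit 7465116) (nat_lit 1405438) (nat_lit 38251579) (nat_lit 8923084) [(nat_lit 0), (nat_lit 1405438), (nat_lit 0), (nat_lit 8561635)]) (PF.cons (PF.leaf (nat_lit 7698813) (nat_lit 382426) (nat_lit 37940142) (nat_lit 8893600) [(nat_lit 382426), (nat_lit 1411866), (nat_lit 0), (nat_lit 8534455)])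 PF.nil)) (PF.cons PF.nil (PF.cons PF.nil PF.nil))))) (PF.cons (PF.cons (PF.cons (PF.leaf (nat_lit 7304325) (nat_lit 3171974) (nat_lit 37998774) (nat_lit 8885890) [(nat_lit 0), (nat_lit 0), (nat_lit 3171974), (nat_lit
 8526086)]) (PF.cons (PF.leaf (nat_lit 7526735) (nat_lit 371885) (nat_lit 37705251) (nat_lit 8857835) [(nat_lit 371885), (nat_lit 0), (nat_lit 3173395), (nat_lit 8500222)]) (PF.cons (PF.leaf (nat_lit 7757330) (nat_lit 378343) (nat_lit 37403824) (nat_lit 8828287) [(nat_lit 378343), (nat_lit 0), (nat_lit 3174157), (nat_lit 8472928)]) (PF.cons PF.nil PF.nil)))) (PF.cons (PF.cons (PF.leaf (nat_lit 7913270) (nat_lit 1405672) (nat_lit 36911886) (nat_lit 8775267) [(nat_lit 0), (nat_lit 1405672), (nat_lit 3168913), (nat_lit 8423536)]) (PF.cons PF.nil PF.nil)) (PF.cons PF.nil PF.nil))) (PF.cons (PF.cons (PF.cons (PF.leaf (nat_lit 8345977) (nat_lit 3143059) (nat_lit 35637290) (nat_lit 8623321) [(nat_lit 0), (nat_lit 0), (nat_lit 3143059), (nat_lit 8281040)])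 (PF.cons PF.nil PF.nil)) (PF.cons PF.nil PF.nil)) PF.nil))) (PF.cons (PF.cons (PF.cons (PF.cons (PF.leaf (nat_lit 8013734) (nat_lit 8079060) (nat_lit 34458835) (nat_lit 8412795) [(nat_lit 0), (nat_lit 0), (nat_lit 0), (nat_lit 8079060)]) (PF.cons (PF.leaf (nat_lit 8225846) (nat_lit 362491) (nat_lit 34206192) (nat_lit 8383826) [(nat_lit 362491), (nat_lit 0), (nat_lit 0), (nat_lit 8052100)]) (PF.cons PF.nil PF.nil))) (PF.cons (PF.cons
 (PF.leaf (nat_lit 8587872) (nat_lit 1359936) (nat_lit 33526165) (nat_lit 8300450) [(nat_lit 0), (nat_lit 1359936), (nat_lit 0), (nat_lit 7974086)]) PF.nil) PF.nil)) (PF.cons PF.nil PF.nil)) (PF.cons PF.nil (PF.cons PF.nil (PF.cons PF.nil (PF.cons PF.nil PF.nil))))))))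

def p13_11_1_0 : pfC (piC [(nat_lit 41351667), (nat_lit 26310893), (nat_lit 19519284), (nat_lit 13318063)] (nat_lit 10613167)) p13_11_1 (nat_lit 4) (nat_lit 0) (nat_lit 1) = true := by decide +kernel
def p13_11_1_1 : pfC (piC [(nat_lit 41351667), (nat_lit 26310893), (nat_lit 19519284), (nat_lit 13318063)] (nat_lit 10613167)) p13_11_1 (nat_lit 4) (nat_lit 1) (nat_lit 2) = true := by decide +kernel
def p13_11_1_2 : pfC (piC [(nat_lit 41351667), (nat_lit 26310893), (nat_lit 19519284), (nat_lit 13318063)] (nat_lit 10613167)) p13_11_1 (nat_lit 4) (nat_lit 2) (nat_lit 3) = true := by decide +kernel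
def p13_11_1_3 : pfC (piC [(nat_lit 41351667), (nat_lit 26310893), (nat_lit 19519284), (nat_lit 13318063)] (nat_lit 10613167)) p13_11_1 (nat_lit 4) (nat_lit 3) (nat_lit 4) = true := by decide +kernel
def p13_11_1_4 : pfC (piC [(nat_lit 41351667), (nat_lit 26310893), (nat_lit 19519284), (nat_lit 13318063)] (nat_lit 10613167)) p13_11_1 (nat_lit 4) (nat_lit 4) (nat_lit 5) = true := by decide +kernel
def p13_11_1_5 : pfC (piC [(nat_lit 41351667), (nat_lit 26310893), (nat_lit 19519284), (nat_lit 13318063)] (nat_lit 10613167)) p13_11_1 (nat_lit 4) (nat_lit 5) (nat_lit 6) = true := by decide +kernel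
def p13_11_1_6 : pfC (piC [(nat_lit 41351667), (nat_lit 26310893), (nat_lit 19519284), (nat_lit 13318063)] (nat_lit 10613167)) p13_11_1 (nat_lit 4) (nat_lit 6) (nat_lit 7) = true := by decide +kernel
def p13_11_1_7 : pfC (piC [(nat_lit 41351667), (nat_lit 26310893), (nat_lit 19519284), (nat_lit 13318063)] (nat_lit 10613167)) p13_11_1 (nat_lit 4) (nat_lit 7) (nat_lit 8) = true := by decide +kernel
def p13_11_1_8 : pfC (piC [(nat_lit 41351667), (nat_lit 26310893), (nat_lit 19519284), (nat_lit 13318063)] (nat_lit 10613167)) p13_11_1 (nat_lit 4) (nat_lit 8) (nat_lit 9) = true := by decide +kernel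
def p13_11_1_9 : pfC (piC [(nat_lit 41351667), (nat_lit 26310893), (nat_lit 19519284), (nat_lit 13318063)] (nat_lit 10613167)) p13_11_1 (nat_lit 4) (nat_lit 9) (nat_lit 10) = true := by decide +kernel
def p13_11_1_10 : pfC (piC [(nat_lit 41351667), (nat_lit 26310893), (nat_lit 19519284), (nat_lit 13318063)] (nat_lit 10613167)) p13_11_1 (nat_lit 4) (nat_lit 10) (nat_lit 11) = true := by decide +kernel
def p13_11_1_11 : pfC (piC [(nat_lit 41351667), (nat_lit 26310893), (nat_lit 19519284), (nat_lit 13318063)] (nat_lit 10613167)) p13_11_1 (nat_lit 4) (nat_lit 11) (nat_lit 12) = true := by decide +kernel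
def p13_11_1_12 : pfC (piC [(nat_lit 41351667), (nat_lit 26310893), (nat_lit 19519284), (nat_lit 13318063)] (nat_lit 10613167)) p13_11_1 (nat_lit 4) (nat_lit 12) (nat_lit 13) = true := by decide +kernel
def p13_11_1_13 : pfC (piC [(nat_lit 41351667), (nat_lit 26310893), (nat_lit 19519284), (nat_lit 13318063)] (nat_lit 10613167)) p13_11_1 (nat_lit 4) (nat_lit 13) (nat_lit 14) = true := by decide +kernel
def p13_11_1_14 : pfC (piC [(nat_lit 41351667), (nat_lit 26310893), (nat_lit 19519284), (nat_lit 13318063)] (nat_lit 10613167)) p13_11_1 (nat_lit 4) (nat_lit 14) (nat_lit 15) = true := by decide +kernel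
def p13_11_1_15 : pfC (piC [(nat_lit 41351667), (nat_lit 26310893), (nat_lit 19519284), (nat_lit 13318063)] (nat_lit 10613167)) p13_11_1 (nat_lit 4) (nat_lit 15) (nat_lit 16) = true := by decide +kernel
def p13_11_1_16 : pfC (piC [(nat_lit 41351667), (nat_lit 26310893), (nat_lit 19519284), (nat_lit 13318063)] (nat_lit 10613167)) p13_11_1 (nat_lit 4) (nat_lit 16) (nat_lit 17) = true := by decide +kernel
def p13_11_1_17 : pfC (piC [(nat_lit 41351667), (nat_lit 26310893), (nat_lit 19519284), (nat_lit 13318063)] (nat_lit 10613167)) p13_11_1 (nat_lit 4) (nat_lit 17) (nat_lit 18) = true := by decide +kernel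
def p13_11_1_18 : pfC (piC [(nat_lit 41351667), (nat_lit 26310893), (nat_lit 19519284), (nat_lit 13318063)] (nat_lit 10613167)) p13_11_1 (nat_lit 4) (nat_lit 18) (nat_lit 19) = true := by decide +kernel
def p13_11_1_19 : pfC (piC [(nat_lit 41351667), (nat_lit 26310893), (nat_lit 19519284), (nat_lit 13318063)] (nat_lit 10613167)) p13_11_1 (nat_lit 4) (nat_lit 19) (nat_lit 20) = true := by decide +kernel
def p13_11_1_20 : pfC (piC [(nat_lit 41351667), (nat_lit 26310893), (nat_lit 19519284), (nat_lit 13318063)] (nat_lit 10613167)) p13_11_1 (nat_lit 4) (nat_lit 20) (nat_lit 21) = true := by decide +kernel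
def p13_11_1_21 : pfC (piC [(nat_lit 41351667), (nat_lit 26310893), (nat_lit 19519284), (nat_lit 13318063)] (nat_lit 10613167)) p13_11_1 (nat_lit 4) (nat_lit 21) (nat_lit 22) = true := by decide +kernel
def p13_11_1_22 : pfC (piC [(nat_lit 41351667), (nat_lit 26310893), (nat_lit 19519284), (nat_lit 13318063)] (nat_lit 10613167)) p13_11_1 (nat_lit 4) (nat_lit 22) (nat_lit 23) = true := by decide +kernel
def p13_11_1_23 : pfC (piC [(nat_lit 41351667), (nat_lit 26310893), (nat_lit 19519284), (nat_lit 13318063)] (nat_lit 10613167)) p13_11_1 (nat_lit 4) (nat_lit 23) (nat_lit 24) = true := by decide +kernel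
def p13_11_1_24 : pfC (piC [(nat_lit 41351667), (nat_lit 26310893), (nat_lit 19519284), (nat_lit 13318063)] (nat_lit 10613167)) p13_11_1 (nat_lit 4) (nat_lit 24) (nat_lit 25) = true := by decide +kernel
def p13_11_1_25 : pfC (piC [(nat_lit 41351667), (nat_lit 26310893), (nat_lit 19519284), (nat_lit 13318063)] (nat_lit 10613167)) p13_11_1 (nat_lit 4) (nat_lit 25) (nat_lit 26) = true := by decide +kernel
def p13_11_1_26 : pfC (piC [(nat_lit 41351667), (nat_lit 26310893), (nat_lit 19519284), (nat_lit 13318063)] (nat_lit 10613167)) p13_11_1 (nat_lit 4) (nat_lit 26) (nat_lit 27) = true := by decide +kernel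
def p13_11_1_27 : pfC (piC [(nat_lit 41351667), (nat_lit 26310893), (nat_lit 19519284), (nat_lit 13318063)] (nat_lit 10613167)) p13_11_1 (nat_lit 4) (nat_lit 27) (nat_lit 28) = true := by decide +kernel
def p13_11_1_28 : pfC (piC [(nat_lit 41351667), (nat_lit 26310893), (nat_lit 19519284), (nat_lit 13318063)] (nat_lit 10613167)) p13_11_1 (nat_lit 4) (nat_lit 28) (nat_lit 29) = true := by decide +kernel
def p13_11_1_29 : pfC (piC [(nat_lit 41351667), (nat_lit 26310893), (nat_lit 19519284), (nat_lit 13318063)] (nat_lit 10613167)) p13_11_1 (nat_lit 4) (nat_lit 29) (nat_lit 30) = true := by decide +kernel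
def p13_11_1_30 : pfC (piC [(nat_lit 41351667), (nat_lit 26310893), (nat_lit 19519284), (nat_lit 13318063)] (nat_lit 10613167)) p13_11_1 (nat_lit 4) (nat_lit 30) (nat_lit 31) = true := by decide +kernel
def p13_11_1_31 : pfC (piC [(nat_lit 41351667), (nat_lit 26310893), (nat_lit 19519284), (nat_lit 13318063)] (nat_lit 10613167)) p13_11_1 (nat_lit 4) (nat_lit 31) (nat_lit 32) = true := by decide +kernel
def p13_11_1_32 : pfC (piC [(nat_lit 41351667), (nat_lit 26310893), (nat_lit 19519284), (nat_lit 13318063)] (nat_lit 10613167)) p13_11_1 (nat_lit 4) (nat_lit 32) (nat_lit 33) = true := by decide +kernel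
def p13_11_1_33 : pfC (piC [(nat_lit 41351667), (nat_lit 26310893), (nat_lit 19519284), (nat_lit 13318063)] (nat_lit 10613167)) p13_11_1 (nat_lit 4) (nat_lit 33) (nat_lit 34) = true := by decide +kernel
def p13_11_1_34 : pfC (piC [(nat_lit 41351667), (nat_lit 26310893), (nat_lit 19519284), (nat_lit 13318063)] (nat_lit 10613167)) p13_11_1 (nat_lit 4) (nat_lit 34) (nat_lit 35) = true := by decide +kernel
def p13_11_1_35 : pfC (piC [(nat_lit 41351667), (nat_lit 26310893), (nat_lit 19519284), (nat_lit 13318063)] (nat_lit 10613167)) p13_11_1 (nat_lit 4) (nat_lit 35) (nat_lit 36) = true := by decide +kernel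
def p13_11_1_36 : pfC (piC [(nat_lit 41351667), (nat_lit 26310893), (nat_lit 19519284), (nat_lit 13318063)] (nat_lit 10613167)) p13_11_1 (nat_lit 4) (nat_lit 36) (nat_lit 37) = true := by decide +kernel
def p13_11_1_37 : pfC (piC [(nat_lit 41351667), (nat_lit 26310893), (nat_lit 19519284), (nat_lit 13318063)] (nat_lit 10613167)) p13_11_1 (nat_lit 4) (nat_lit 37) (nat_lit 38) = true := by decide +kernel
def p13_11_1_38 : pfC (piC [(nat_lit 41351667), (nat_lit 26310893), (nat_lit 19519284), (nat_lit 13318063)] (nat_lit 10613167)) p13_11_1 (nat_lit 4) (nat_lit 38) (nat_lit 39) = true := by decide +kernel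
def p13_11_1_39 : pfC (piC [(nat_lit 41351667), (nat_lit 26310893), (nat_lit 19519284), (nat_lit 13318063)] (nat_lit 10613167)) p13_11_1 (nat_lit 4) (nat_lit 39) (nat_lit 40) = true := by decide +kernel
def p13_11_1_40 : pfC (piC [(nat_lit 41351667), (nat_lit 26310893), (nat_lit 19519284), (nat_lit 13318063)] (nat_lit 10613167)) p13_11_1 (nat_lit 4) (nat_lit 40) (nat_lit 41) = true := by decide +kernel
def p13_11_1_41 : pfC (piC [(nat_lit 41351667), (nat_lit 26310893), (nat_lit 19519284), (nat_lit 13318063)] (nat_lit 10613167)) p13_11_1 (nat_lit 4) (nat_lit 41) (nat_lit 42) = true := by decide +kernel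
def p13_11_1_42 : pfC (piC [(nat_lit 41351667), (nat_lit 26310893), (nat_lit 19519284), (nat_lit 13318063)] (nat_lit 10613167)) p13_11_1 (nat_lit 4) (nat_lit 42) (nat_lit 43) = true := by decide +kernel
def p13_11_1_43 : pfC (piC [(nat_lit 41351667), (nat_lit 26310893), (nat_lit 19519284), (nat_lit 13318063)] (nat_lit 10613167)) p13_11_1 (nat_lit 4) (nat_lit 43) (nat_lit 44) = true := by decide +kernel
def p13_11_1_44 : pfC (piC [(nat_lit 41351667), (nat_lit 26310893), (nat_lit 19519284), (nat_lit 13318063)] (nat_lit 10613167)) p13_11_1 (nat_lit 4) (nat_lit 44) (nat_lit 45) = true := by decide +kernel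
def p13_11_1_45 : pfC (piC [(nat_lit 41351667), (nat_lit 26310893), (nat_lit 19519284), (nat_lit 13318063)] (nat_lit 10613167)) p13_11_1 (nat_lit 4) (nat_lit 45) (nat_lit 46) = true := by decide +kernel
def p13_11_1_46 : pfC (piC [(nat_lit 41351667), (nat_lit 26310893), (nat_lit 19519284), (nat_lit 13318063)] (nat_lit 10613167)) p13_11_1 (nat_lit 4) (nat_lit 46) (nat_lit 47) = true := by decide +kernel
def p13_11_1_47 : pfC (piC [(nat_lit 41351667), (nat_lit 26310893), (nat_lit 19519284), (nat_lit 13318063)] (nat_lit 10613167)) p13_11_1 (nat_lit 4) (nat_lit 47) (nat_lit 48) = true := by decide +kernel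
def p13_11_1_48 : pfC (piC [(nat_lit 41351667), (nat_lit 26310893), (nat_lit 19519284), (nat_lit 13318063)] (nat_lit 10613167)) p13_11_1 (nat_lit 4) (nat_lit 48) (nat_lit 49) = true := by decide +kernel
def p13_11_1_49 : pfC (piC [(nat_lit 41351667), (nat_lit 26310893), (nat_lit 19519284), (nat_lit 13318063)] (nat_lit 10613167)) p13_11_1 (nat_lit 4) (nat_lit 49) (nat_lit 50) = true := by decide +kernel
def p13_11_1_50 : pfC (piC [(nat_lit 41351667), (nat_lit 26310893), (nat_lit 19519284), (nat_lit 13318063)] (nat_lit 10613167)) p13_11_1 (nat_lit 4) (nat_lit 50) (nat_lit 51) = true := by decide +kernel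
def p13_11_1_51 : pfC (piC [(nat_lit 41351667), (nat_lit 26310893), (nat_lit 19519284), (nat_lit 13318063)] (nat_lit 10613167)) p13_11_1 (nat_lit 4) (nat_lit 51) (nat_lit 52) = true := by decide +kernel
def p13_11_1_52 : pfC (piC [(nat_lit 41351667), (nat_lit 26310893), (nat_lit 19519284), (nat_lit 13318063)] (nat_lit 10613167)) p13_11_1 (nat_lit 4) (nat_lit 52) (nat_lit 53) = true := by decide +kernel
def p13_11_1_53 : pfC (piC [(nat_lit 41351667), (nat_lit 26310893), (nat_lit 19519284), (nat_lit 13318063)] (nat_lit 10613167)) p13_11_1 (nat_lit 4) (nat_lit 53) (nat_lit 54) = true := by decide +kernel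
def p13_11_1_54 : pfC (piC [(nat_lit 41351667), (nat_lit 26310893), (nat_lit 19519284), (nat_lit 13318063)] (nat_lit 10613167)) p13_11_1 (nat_lit 4) (nat_lit 54) (nat_lit 55) = true := by decide +kernel
def p13_11_1_55 : pfC (piC [(nat_lit 41351667), (nat_lit 26310893), (nat_lit 19519284), (nat_lit 13318063)] (nat_lit 10613167)) p13_11_1 (nat_lit 4) (nat_lit 55) (nat_lit 56) = true := by decide +kernel
def p13_11_1_56 : pfC (piC [(nat_lit 41351667), (nat_lit 26310893), (nat_lit 19519284), (nat_lit 13318063)] (nat_lit 10613167)) p13_11_1 (nat_lit 4) (nat_lit 56) (nat_lit 57) = true := by decide +kernel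
def p13_11_1_57 : pfC (piC [(nat_lit 41351667), (nat_lit 26310893), (nat_lit 19519284), (nat_lit 13318063)] (nat_lit 10613167)) p13_11_1 (nat_lit 4) (nat_lit 57) (nat_lit 58) = true := by decide +kernel
def p13_11_1_58 : pfC (piC [(nat_lit 41351667), (nat_lit 26310893), (nat_lit 19519284), (nat_lit 13318063)] (nat_lit 10613167)) p13_11_1 (nat_lit 4) (nat_lit 58) (nat_lit 59) = true := by decide +kernel
def p13_11_1_59 : pfC (piC [(nat_lit 41351667), (nat_lit 26310893), (nat_lit 19519284), (nat_lit 13318063)] (nat_lit 10613167)) p13_11_1 (nat_lit 4) (nat_lit 59) (nat_lit 60) = true := by decide +kernel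
def p13_11_1_60 : pfC (piC [(nat_lit 41351667), (nat_lit 26310893), (nat_lit 19519284), (nat_lit 13318063)] (nat_lit 10613167)) p13_11_1 (nat_lit 4) (nat_lit 60) (nat_lit 61) = true := by decide +kernel
def p13_11_1_61 : pfC (piC [(nat_lit 41351667), (nat_lit 26310893), (nat_lit 19519284), (nat_lit 13318063)] (nat_lit 10613167)) p13_11_1 (nat_lit 4) (nat_lit 61) (nat_lit 62) = true := by decide +kernel
def p13_11_1_62 : pfC (piC [(nat_lit 41351667), (nat_lit 26310893), (nat_lit 19519284), (nat_lit 13318063)] (nat_lit 10613167)) p13_11_1 (nat_lit 4) (nat_lit 62) (nat_lit 63) = true := by decide +kernel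
def p13_11_1_63 : pfC (piC [(nat_lit 41351667), (nat_lit 26310893), (nat_lit 19519284), (nat_lit 13318063)] (nat_lit 10613167)) p13_11_1 (nat_lit 4) (nat_lit 63) (nat_lit 64) = true := by decide +kernel
def p13_11_1_64 : pfC (piC [(nat_lit 41351667), (nat_lit 26310893), (nat_lit 19519284), (nat_lit 13318063)] (nat_lit 10613167)) p13_11_1 (nat_lit 4) (nat_lit 64) (nat_lit 65) = true := by decide +kernel
def p13_11_1_65 : pfC (piC [(nat_lit 41351667), (nat_lit 26310893), (nat_lit 19519284), (nat_lit 13318063)] (nat_lit 10613167)) p13_11_1 (nat_lit 4) (nat_lit 65) (nat_lit 66) = true := by decide +kernel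
def p13_11_1_66 : pfC (piC [(nat_lit 41351667), (nat_lit 26310893), (nat_lit 19519284), (nat_lit 13318063)] (nat_lit 10613167)) p13_11_1 (nat_lit 4) (nat_lit 66) (nat_lit 67) = true := by decide +kernel
def p13_11_1_67 : pfC (piC [(nat_lit 41351667), (nat_lit 26310893), (nat_lit 19519284), (nat_lit 13318063)] (nat_lit 10613167)) p13_11_1 (nat_lit 4) (nat_lit 67) (nat_lit 68) = true := by decide +kernel
def p13_11_1_68 : pfC (piC [(nat_lit 41351667), (nat_lit 26310893), (nat_lit 19519284), (nat_lit 13318063)] (nat_lit 10613167)) p13_11_1 (nat_lit 4) (nat_lit 68) (nat_lit 69) = true := by decide +kernel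
def p13_11_1_69 : pfC (piC [(nat_lit 41351667), (nat_lit 26310893), (nat_lit 19519284), (nat_lit 13318063)] (nat_lit 10613167)) p13_11_1 (nat_lit 4) (nat_lit 69) (nat_lit 70) = true := by decide +kernel
def p13_11_1_70 : pfC (piC [(nat_lit 41351667), (nat_lit 26310893), (nat_lit 19519284), (nat_lit 13318063)] (nat_lit 10613167)) p13_11_1 (nat_lit 4) (nat_lit 70) (nat_lit 71) = true := by decide +kernel
def p13_11_1_71 : pfC (piC [(nat_lit 41351667), (nat_lit 26310893), (nat_lit 19519284), (nat_lit 13318063)] (nat_lit 10613167)) p13_11_1 (nat_lit 4) (nat_lit 71) (nat_lit 72) = true := by decide +kernel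
def p13_11_1_72 : pfC (piC [(nat_lit 41351667), (nat_lit 26310893), (nat_lit 19519284), (nat_lit 13318063)] (nat_lit 10613167)) p13_11_1 (nat_lit 4) (nat_lit 72) (nat_lit 73) = true := by decide +kernel
def p13_11_1_73 : pfC (piC [(nat_lit 41351667), (nat_lit 26310893), (nat_lit 19519284), (nat_lit 13318063)] (nat_lit 10613167)) p13_11_1 (nat_lit 4) (nat_lit 73) (nat_lit 74) = true := by decide +kernel
def p13_11_1_74 : pfC (piC [(nat_lit 41351667), (nat_lit 26310893), (nat_lit 19519284), (nat_lit 13318063)] (nat_lit 10613167)) p13_11_1 (nat_lit 4) (nat_lit 74) (nat_lit 75) = true := by decide +kernel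
def p13_11_1_75 : pfC (piC [(nat_lit 41351667), (nat_lit 26310893), (nat_lit 19519284), (nat_lit 13318063)] (nat_lit 10613167)) p13_11_1 (nat_lit 4) (nat_lit 75) (nat_lit 76) = true := by decide +kernel
def p13_11_1_76 : pfC (piC [(nat_lit 41351667), (nat_lit 26310893), (nat_lit 19519284), (nat_lit 13318063)] (nat_lit 10613167)) p13_11_1 (nat_lit 4) (nat_lit 76) (nat_lit 77) = true := by decide +kernel
def p13_11_1_77 : pfC (piC [(nat_lit 41351667), (nat_lit 26310893), (nat_lit 19519284), (nat_lit 13318063)] (nat_lit 10613167)) p13_11_1 (nat_lit 4) (nat_lit 77) (nat_lit 78) = true := by decide +kernel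
def p13_11_1_78 : pfC (piC [(nat_lit 41351667), (nat_lit 26310893), (nat_lit 19519284), (nat_lit 13318063)] (nat_lit 10613167)) p13_11_1 (nat_lit 4) (nat_lit 78) (nat_lit 79) = true := by decide +kernel
def p13_11_1_79 : pfC (piC [(nat_lit 41351667), (nat_lit 26310893), (nat_lit 19519284), (nat_lit 13318063)] (nat_lit 10613167)) p13_11_1 (nat_lit 4) (nat_lit 79) (nat_lit 80) = true := by decide +kernel
def p13_11_1_80 : pfC (piC [(nat_lit 41351667), (nat_lit 26310893), (nat_lit 19519284), (nat_lit 13318063)] (nat_lit 10613167)) p13_11_1 (nat_lit 4) (nat_lit 80) (nat_lit 81) = true := by decide +kernel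
def p13_11_1_81 : pfC (piC [(nat_lit 41351667), (nat_lit 26310893), (nat_lit 19519284), (nat_lit 13318063)] (nat_lit 10613167)) p13_11_1 (nat_lit 4) (nat_lit 81) (nat_lit 82) = true := by decide +kernel
def p13_11_1_82 : pfC (piC [(nat_lit 41351667), (nat_lit 26310893), (nat_lit 19519284), (nat_lit 13318063)] (nat_lit 10613167)) p13_11_1 (nat_lit 4) (nat_lit 82) (nat_lit 83) = true := by decide +kernel
def p13_11_1_83 : pfC (piC [(nat_lit 41351667), (nat_lit 26310893), (nat_lit 19519284), (nat_lit 13318063)] (nat_lit 10613167)) p13_11_1 (nat_lit 4) (nat_lit 83) (nat_lit 84) = true := by decide +kernel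
def p13_11_1_84 : pfC (piC [(nat_lit 41351667), (nat_lit 26310893), (nat_lit 19519284), (nat_lit 13318063)] (nat_lit 10613167)) p13_11_1 (nat_lit 4) (nat_lit 84) (nat_lit 85) = true := by decide +kernel
def p13_11_1_85 : pfC (piC [(nat_lit 41351667), (nat_lit 26310893), (nat_lit 19519284), (nat_lit 13318063)] (nat_lit 10613167)) p13_11_1 (nat_lit 4) (nat_lit 85) (nat_lit 86) = true := by decide +kernel
def p13_11_1_86 : pfC (piC [(nat_lit 41351667), (nat_lit 26310893), (nat_lit 19519284), (nat_lit 13318063)] (nat_lit 10613167)) p13_11_1 (nat_lit 4) (nat_lit 86) (nat_lit 87) = true := by decide +kernel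
def p13_11_1_87 : pfC (piC [(nat_lit 41351667), (nat_lit 26310893), (nat_lit 19519284), (nat_lit 13318063)] (nat_lit 10613167)) p13_11_1 (nat_lit 4) (nat_lit 87) (nat_lit 88) = true := by decide +kernel
def p13_11_1_88 : pfC (piC [(nat_lit 41351667), (nat_lit 26310893), (nat_lit 19519284), (nat_lit 13318063)] (nat_lit 10613167)) p13_11_1 (nat_lit 4) (nat_lit 88) (nat_lit 89) = true := by decide +kernel
def p13_11_1_89 : pfC (piC [(nat_lit 41351667), (nat_lit 26310893), (nat_lit 19519284), (nat_lit 13318063)] (nat_lit 10613167)) p13_11_1 (nat_lit 4) (nat_lit 89) (nat_lit 90) = true := by decide +kernel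
def p13_11_1_90 : pfC (piC [(nat_lit 41351667), (nat_lit 26310893), (nat_lit 19519284), (nat_lit 13318063)] (nat_lit 10613167)) p13_11_1 (nat_lit 4) (nat_lit 90) (nat_lit 91) = true := by decide +kernel
def p13_11_1_91 : pfC (piC [(nat_lit 41351667), (nat_lit 26310893), (nat_lit 19519284), (nat_lit 13318063)] (nat_lit 10613167)) p13_11_1 (nat_lit 4) (nat_lit 91) (nat_lit 92) = true := by decide +kernel
def p13_11_1_92 : pfC (piC [(nat_lit 41351667), (nat_lit 26310893), (nat_lit 19519284), (nat_lit 13318063)] (nat_lit 10613167)) p13_11_1 (nat_lit 4) (nat_lit 92) (nat_lit 93) = true := by decide +kernel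
def p13_11_1_93 : pfC (piC [(nat_lit 41351667), (nat_lit 26310893), (nat_lit 19519284), (nat_lit 13318063)] (nat_lit 10613167)) p13_11_1 (nat_lit 4) (nat_lit 93) (nat_lit 94) = true := by decide +kernel
def p13_11_1_94 : pfC (piC [(nat_lit 41351667), (nat_lit 26310893), (nat_lit 19519284), (nat_lit 13318063)] (nat_lit 10613167)) p13_11_1 (nat_lit 4) (nat_lit 94) (nat_lit 95) = true := by decide +kernel
def p13_11_1_95 : pfC (piC [(nat_lit 41351667), (nat_lit 26310893), (nat_lit 19519284), (nat_lit 13318063)] (nat_lit 10613167)) p13_11_1 (nat_lit 4) (nat_lit 95) (nat_lit 96) = true := by decide +kernel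
def p13_11_1_96 : pfC (piC [(nat_lit 41351667), (nat_lit 26310893), (nat_lit 19519284), (nat_lit 13318063)] (nat_lit 10613167)) p13_11_1 (nat_lit 4) (nat_lit 96) (nat_lit 97) = true := by decide +kernel
theorem p13_11_1_T : PfS (PiF n13_11.reverse (nat_lit 10613167)) p13_11_1 (nat_lit 4) [] 0 :=
  pftab_of (los := [(nat_lit 41351667), (nat_lit 26310893), (nat_lit 19519284), (nat_lit 13318063)]) (by decide +kernel) (hi := (nat_lit 97)) (PfP.trans (PfP.trans (PfP.trans (PfP.trans (PfP.trans (PfP.trans (PfP.trans (PfP.trans (PfP.trans (PfP.trans (PfP.trans (PfP.trans (PfP.trans (PfP.trans (PfP.trans (PfP.trans (PfP.trans (PfP.trans (PfP.trans (PfP.trans (PfP.trans (PfP.trans (PfP.trans (PfP.trans (PfP.trans (PfP.trans (PfP.trans (PfP.trans (PfP.trans (PfP.trans (PfP.trans (PfP.trans (PfP.trans (PfP.trans (PfP.trans (PfP.trans (PfP.trans (PfP.trans (PfP.trans (PfP.trans (PfP.trans (PfP.trans (PfP.trans (PfP.trans (PfP.trans (PfP.trans (PfP.trans (PfP.trans (PfP.trans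 (PfP.trans (PfP.trans (PfP.trans (PfP.trans (PfP.trans (PfP.trans (PfP.trans (PfP.trans (PfP.trans (PfP.trans (PfP.trans (PfP.trans (PfP.trans (PfP.trans (PfP.trans (PfP.trans (PfP.trans (PfP.trans (PfP.trans (PfP.trans (PfP.trans (PfP.trans (PfP.trans (PfP.trans (PfP.trans (PfP.trans (PfP.trans (PfP.trans (PfP.trans (PfP.trans (PfP.trans (PfP.trans (PfP.trans (PfP.trans (PfP.trans (PfP.trans (PfP.trans (PfP.trans (PfP.trans (PfP.trans (PfP.trans (PfP.trans (PfP.trans (PfP.trans (PfP.trans (PfP.trans (PfP.trans (pfC_sound p13_11_1_0) (pfC_sound p13_11_1_1)) (pfC_sound p13_11_1_2)) (pfC_sound p13_11_1_3)) (pfC_sound p13_11_1_4)) (pfC_sound p13_11_1_5))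
 (pfC_sound p13_11_1_6)) (pfC_sound p13_11_1_7)) (pfC_sound p13_11_1_8)) (pfC_sound p13_11_1_9)) (pfC_sound p13_11_1_10)) (pfC_sound p13_11_1_11)) (pfC_sound p13_11_1_12)) (pfC_sound p13_11_1_13)) (pfC_sound p13_11_1_14)) (pfC_sound p13_11_1_15)) (pfC_sound p13_11_1_16)) (pfC_sound p13_11_1_17)) (pfC_sound p13_11_1_18)) (pfC_sound p13_11_1_19)) (pfC_sound p13_11_1_20)) (pfC_sound p13_11_1_21)) (pfC_sound p13_11_1_22)) (pfC_sound p13_11_1_23)) (pfC_sound p13_11_1_24)) (pfC_sound p13_11_1_25)) (pfC_sound p13_11_1_26)) (pfC_sound p13_11_1_27)) (pfC_sound p13_11_1_28)) (pfC_sound p13_11_1_29)) (pfC_sound p13_11_1_30)) (pfC_sound p13_11_1_31)) (pfC_sound p13_11_1_32)) (pfC_sound p13_11_1_33)) (pfC_sound p13_11_1_34)) (pfC_sound p13_11_1_35)) (pfC_sound p13_11_1_36)) (pfC_sound p13_11_1_37)) (pfC_sound p13_11_1_38)) (pfC_sound p13_11_1_39)) (pfC_sound p13_11_1_40)) (pfC_sound p13_11_1_41)) (pfC_sound p13_11_1_42)) (pfC_sound p13_11_1_43)) (pfC_sound p13_11_1_44)) (pfC_sound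 p13_11_1_45)) (pfC_sound p13_11_1_46)) (pfC_sound p13_11_1_47)) (pfC_sound p13_11_1_48)) (pfC_sound p13_11_1_49)) (pfC_sound p13_11_1_50)) (pfC_sound p13_11_1_51)) (pfC_sound p13_11_1_52)) (pfC_sound p13_11_1_53))
 (pfC_sound p13_11_1_54)) (pfC_sound p13_11_1_55)) (pfC_sound p13_11_1_56)) (pfC_sound p13_11_1_57)) (pfC_sound p13_11_1_58)) (pfC_sound p13_11_1_59)) (pfC_sound p13_11_1_60)) (pfC_sound p13_11_1_61)) (pfC_sound p13_11_1_62)) (pfC_sound p13_11_1_63)) (pfC_sound p13_11_1_64)) (pfC_sound p13_11_1_65)) (pfC_sound p13_11_1_66)) (pfC_sound p13_11_1_67)) (pfC_sound p13_11_1_68)) (pfC_sound p13_11_1_69)) (pfC_sound p13_11_1_70)) (pfC_sound p13_11_1_71)) (pfC_sound p13_11_1_72)) (pfC_sound p13_11_1_73)) (pfC_sound p13_11_1_74)) (pfC_sound p13_11_1_75)) (pfC_sound p13_11_1_76)) (pfC_sound p13_11_1_77)) (pfC_sound p13_11_1_78)) (pfC_sound p13_11_1_79)) (pfC_sound p13_11_1_80)) (pfC_sound p13_11_1_81)) (pfC_sound p13_11_1_82)) (pfC_sound p13_11_1_83)) (pfC_sound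 p13_11_1_84)) (pfC_sound p13_11_1_85)) (pfC_sound p13_11_1_86)) (pfC_sound p13_11_1_87)) (pfC_sound p13_11_1_88)) (pfC_sound p13_11_1_89)) (pfC_sound p13_11_1_90)) (pfC_sound p13_11_1_91)) (pfC_sound p13_11_1_92)) (pfC_sound p13_11_1_93)) (pfC_sound p13_11_1_94)) (pfC_sound p13_11_1_95)) (pfC_sound p13_11_1_96)) (by decide +kernel)

def z13_11_1 : zOK yB13_11 (nat_lit 1) (nat_lit 400) (nat_lit 600) (nat_lit 10613167) (nat_lit 7072463) = true := by decide +kernel
def g13_11_1 : gOK yB13_11.x P13_11 (nat_lit 1424) (q13_11 :: r13_11) (nat_lit 1) (nat_lit 400) (nat_lit 2) (nat_lit 600) (nat_lit 11000000) (nat_lit 17850000) (nat_lit 12712500) (nat_lit 12712500) [(nat_lit 800), (nat_lit 1040)] = true := by decide +kernel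
def v13_11_1 : ivC P13_11 s13_11 w13_11 n13_11 (nat_lit 4) (nat_lit 5040) (nat_lit 1) (nat_lit 400) f152_1_400 f160_1_400 (nat_lit 2) (nat_lit 600) f152_1_600 f160_1_600 (nat_lit 10613167) (nat_lit 7072463) p13_11_1 = true := by decide +kernel
def p13_11_2 : PF := (PF.cons (PF.cons (PF.cons (PF.cons (PF.leaf (nat_lit 2680541) (nat_lit 15260150) (nat_lit 51848662) (nat_lit 15260150) [(nat_lit 0), (nat_lit 0), (nat_lit 0), (nat_lit 0)]) (PF.cons (PF.leaf (nat_lit 2812832) (nat_lit 223924) (nat_lit 51635471) (nat_lit 15249417) [(nat_lit 223924), (nat_lit 0), (nat_lit 0), (nat_lit 0)]) (PF.cons (PF.leaf (nat_lit 2970667) (nat_lit 243494) (nat_lit 51385847) (nat_lit 15235976) [(nat_lit 243494), (nat_lit 0), (nat_lit 0), (nat_lit 0)]) (PF.cons (PF.leaf (nat_lit 3147964) (nat_lit 260872) (nat_lit 51106353) (nat_lit 15219840) [(nat_lit 260872), (nat_lit 0), (nat_lit 0), (nat_lit 0)]) (PF.cons (PF.leaf (nat_lit 3342006) (nat_lit 276557) (nat_lit 50801615) (nat_lit 15200969)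 [(nat_lit 276557), (nat_lit 0), (nat_lit 0), (nat_lit 0)]) (PF.cons (PF.leaf (nat_lit 3550714) (nat_lit 290865) (nat_lit 50475177) (nat_lit 15179305) [(nat_lit 290865), (nat_lit 0), (nat_lit 0), (nat_lit 0)]) (PF.cons (PF.leaf (nat_lit 3772408) (nat_lit 304017) (nat_lit 50129912) (nat_lit 15154797) [(nat_lit 304017), (nat_lit 0), (nat_lit 0), (nat_lit 0)]) (PF.cons (PF.leaf (nat_lit 4005678) (nat_lit 316168) (nat_lit 49768230) (nat_lit 15127401) [(nat_lit 316168), (nat_lit 0),
 (nat_lit 0), (nat_lit 0)]) (PF.cons PF.nil (PF.cons PF.nil PF.nil)))))))))) (PF.cons (PF.cons (PF.leaf (nat_lit 3182125) (nat_lit 1151590) (nat_lit 50762506) (nat_lit 15194715) [(nat_lit 0), (nat_lit 1151590), (nat_lit 0), (nat_lit 0)]) (PF.cons (PF.leaf (nat_lit 3355433) (nat_lit 272100) (nat_lit 50482793) (nat_lit 15176033) [(nat_lit 272100), (nat_lit 1177885), (nat_lit 0), (nat_lit 0)]) (PF.cons (PF.leaf (nat_lit 3547886) (nat_lit 287093) (nat_lit 50176470) (nat_lit 15154347) [(nat_lit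 287093), (nat_lit 1203808), (nat_lit 0), (nat_lit 0)]) (PF.cons (PF.leaf (nat_lit 3755458) (nat_lit 300709) (nat_lit 49848051) (nat_lit 15129698) [(nat_lit 300709), (nat_lit 1228934), (nat_lit 0), (nat_lit 0)]) (PF.cons (PF.leaf (nat_lit 3976289) (nat_lit 313192) (nat_lit 49500899) (nat_lit 15102100) [(nat_lit 313192), (nat_lit 1253044), (nat_lit 0), (nat_lit 0)]) (PF.cons (PF.leaf (nat_lit 4208712) (nat_lit 324707) (nat_lit 49137690) (nat_lit 15071558) [(nat_lit 324707), (nat_lit 1276025), (nat_lit 0), (nat_lit 0)]) (PF.cons (PF.leaf (nat_lit 4451462) (nat_lit 335377) (nat_lit 48760641) (nat_lit 15038081) [(nat_lit 335377), (nat_lit 1297826), (nat_lit 0), (nat_lit 0)]) (PF.cons PF.nil (PF.cons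
 PF.nil PF.nil))))))))) (PF.cons (PF.cons (PF.leaf (nat_lit 3757682) (nat_lit 1236030) (nat_lit 49535643) (nat_lit 15101107) [(nat_lit 0), (nat_lit 1236030), (nat_lit 0), (nat_lit 0)]) (PF.cons (PF.leaf (nat_lit 3961578) (nat_lit 309170) (nat_lit 49209187) (nat_lit 15073841) [(nat_lit 309170), (nat_lit 1258306), (nat_lit 0), (nat_lit 0)]) (PF.cons (PF.leaf (nat_lit 4180374) (nat_lit 321177) (nat_lit 48863219) (nat_lit 15043473) [(nat_lit 321177), (nat_lit 1279882), (nat_lit 0), (nat_lit 0)]) (PF.cons (PF.leaf (nat_lit 4411082) (nat_lit 332202) (nat_lit 48500970) (nat_lit 15010078) [(nat_lit 332202), (nat_lit 1300577), (nat_lit 0), (nat_lit 0)]) (PF.cons (PF.leaf (nat_lit 4652249) (nat_lit 342385) (nat_lit 48124967) (nat_lit 14973716) [(nat_lit 342385), (nat_lit 1320294), (nat_lit 0), (nat_lit 0)]) (PF.cons PF.nil (PF.cons PF.nil PF.nil))))))) (PF.cons (PF.cons (PF.leaf (nat_lit 4386327) (nat_lit 1304041) (nat_lit 48217689) (nat_lit 14979000) [(nat_lit 0), (nat_lit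 1304041), (nat_lit 0), (nat_lit 0)]) (PF.cons (PF.leaf (nat_lit 4613416) (nat_lit 338724) (nat_lit 47859019) (nat_lit 14943111) [(nat_lit 338724), (nat_lit 1322652), (nat_lit 0), (nat_lit 0)]) (PF.cons (PF.leaf (nat_lit
 4852169) (nat_lit 348528) (nat_lit 47486164) (nat_lit 14904186) [(nat_lit 348528), (nat_lit 1340468), (nat_lit 0), (nat_lit 0)]) (PF.cons (PF.leaf (nat_lit 5100346) (nat_lit 357579) (nat_lit 47101522) (nat_lit 14862332) [(nat_lit 357579), (nat_lit 1357406), (nat_lit 0), (nat_lit 0)]) (PF.cons PF.nil PF.nil))))) (PF.cons (PF.cons (PF.leaf (nat_lit 5052511) (nat_lit 1358587) (nat_lit 46844808) (nat_lit 14829655) [(nat_lit 0), (nat_lit 1358587), (nat_lit 0), (nat_lit 0)]) (PF.cons (PF.leaf (nat_lit 5297001) (nat_lit 362594) (nat_lit 46465023) (nat_lit 14785560) [(nat_lit 362594), (nat_lit 1373908), (nat_lit 0), (nat_lit 0)]) (PF.cons PF.nil (PF.cons PF.nil PF.nil)))) (PF.cons (PF.cons (PF.leaf (nat_lit 5744010) (nat_lit 1401789) (nat_lit 45444421)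 (nat_lit 14655446) [(nat_lit 0), (nat_lit 1401789), (nat_lit 0), (nat_lit 0)]) (PF.cons PF.nil PF.nil)) (PF.cons PF.nil (PF.cons PF.nil PF.nil)))))))) (PF.cons (PF.cons (PF.cons (PF.leaf (nat_lit 3708157) (nat_lit 3044437) (nat_lit 49025657) (nat_lit 15038718) [(nat_lit 0), (nat_lit 0), (nat_lit 3044437), (nat_lit 0)]) (PF.cons (PF.leaf (nat_lit 3889980) (nat_lit 292184) (nat_lit 48736750) (nat_lit 15013026) [(nat_lit 292184), (nat_lit 0),
 (nat_lit 3066851), (nat_lit 0)]) (PF.cons (PF.leaf (nat_lit 4090156) (nat_lit 306328) (nat_lit 48422711) (nat_lit 14983923) [(nat_lit 306328), (nat_lit 0), (nat_lit 3089521), (nat_lit 0)]) (PF.cons (PF.leaf (nat_lit 4304569) (nat_lit 318992) (nat_lit 48088317) (nat_lit 14951610) [(nat_lit 318992), (nat_lit 0), (nat_lit 3111906), (nat_lit 0)]) (PF.cons (PF.leaf (nat_lit 4531291) (nat_lit 330471) (nat_lit 47737056) (nat_lit 14916220) [(nat_lit 330471), (nat_lit 0), (nat_lit 3133649), (nat_lit 0)]) (PF.cons (PF.leaf (nat_lit 4768611)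 (nat_lit 340962) (nat_lit 47371641) (nat_lit 14877855) [(nat_lit 340962), (nat_lit 0), (nat_lit 3154505), (nat_lit 0)]) (PF.cons PF.nil (PF.cons PF.nil (PF.cons PF.nil PF.nil))))))))) (PF.cons (PF.cons (PF.leaf (nat_lit 4297056) (nat_lit 1287898) (nat_lit 47782246) (nat_lit 14917127) [(nat_lit 0), (nat_lit 1287898), (nat_lit 3121540), (nat_lit 0)]) (PF.cons (PF.leaf (nat_lit 4506762) (nat_lit 325538) (nat_lit 47452728) (nat_lit 14882761) [(nat_lit 325538), (nat_lit 1306749), (nat_lit 3141035), (nat_lit 0)]) (PF.cons (PF.leaf (nat_lit 4730443) (nat_lit 336673) (nat_lit 47105334) (nat_lit 14845163) [(nat_lit 336673), (nat_lit 1324906), (nat_lit 3160061),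
 (nat_lit 0)]) (PF.cons (PF.leaf (nat_lit 4965171) (nat_lit 346791) (nat_lit 46743348) (nat_lit 14804512) [(nat_lit 346791), (nat_lit 1342231), (nat_lit 3178347), (nat_lit 0)]) (PF.cons (PF.leaf (nat_lit 5209466) (nat_lit 356051) (nat_lit 46369294) (nat_lit 14760949) [(nat_lit 356051), (nat_lit 1358654), (nat_lit 3195706), (nat_lit 0)]) (PF.cons PF.nil (PF.cons PF.nil PF.nil))))))) (PF.cons (PF.cons (PF.leaf (nat_lit 4931172) (nat_lit 1343678) (nat_lit 46469298) (nat_lit 14769061) [(nat_lit 0), (nat_lit 1343678), (nat_lit 3183095), (nat_lit 0)]) (PF.cons (PF.leaf (nat_lit 5161512) (nat_lit 351791) (nat_lit 46112982) (nat_lit 14726510) [(nat_lit 351791), (nat_lit 1359275), (nat_lit 3198977), (nat_lit 0)]) (PF.cons (PF.leaf (nat_lit 5402712) (nat_lit 360765) (nat_lit 45744003) (nat_lit 14680974) [(nat_lit 360765), (nat_lit 1374119), (nat_lit 3214064), (nat_lit 0)]) (PF.cons PF.nil (PF.cons PF.nil PF.nil))))) (PF.cons (PF.cons (PF.leaf (nat_lit 5596243) (nat_lit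 1387911) (nat_lit 45118640) (nat_lit 14596823) [(nat_lit 0), (nat_lit 1387911), (nat_lit 3229613), (nat_lit 0)]) (PF.cons (PF.leaf (nat_lit 5841799) (nat_lit 372753) (nat_lit 44745712) (nat_lit 14546822) [(nat_lit 372753),
 (nat_lit 1400589), (nat_lit 3241756), (nat_lit 0)]) (PF.cons PF.nil (PF.cons PF.nil PF.nil)))) (PF.cons (PF.cons (PF.leaf (nat_lit 6281278) (nat_lit 1422353) (nat_lit 43753826) (nat_lit 14403302) [(nat_lit 0), (nat_lit 1422353), (nat_lit 3262269), (nat_lit 0)]) (PF.cons PF.nil PF.nil)) (PF.cons PF.nil PF.nil)))))) (PF.cons (PF.cons (PF.cons (PF.leaf (nat_lit 4827321) (nat_lit 3169885) (nat_lit 46065060) (nat_lit 14703980) [(nat_lit 0), (nat_lit 0), (nat_lit 3169885), (nat_lit 0)]) (PF.cons (PF.leaf (nat_lit 5040944) (nat_lit 338638) (nat_lit 45736909) (nat_lit 14663636) [(nat_lit 338638), (nat_lit 0), (nat_lit 3184814), (nat_lit 0)]) (PF.cons (PF.leaf (nat_lit 5267711) (nat_lit 348991) (nat_lit 45392374) (nat_lit 14620018) [(nat_lit 348991),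 (nat_lit 0), (nat_lit 3199219), (nat_lit 0)]) (PF.cons (PF.leaf (nat_lit 5504773) (nat_lit 358302) (nat_lit 45034731) (nat_lit 14573392) [(nat_lit 358302), (nat_lit 0), (nat_lit 3212890), (nat_lit 0)]) (PF.cons (PF.leaf (nat_lit 5750616) (nat_lit 366751) (nat_lit 44666464) (nat_lit 14523963) [(nat_lit 366751), (nat_lit 0), (nat_lit 3225690), (nat_lit 0)]) PF.nil))))) (PF.cons (PF.cons (PF.leaf (nat_lit 5462503) (nat_lit 1372906) (nat_lit
 44771683) (nat_lit 14534712) [(nat_lit 0), (nat_lit 1372906), (nat_lit 3214755), (nat_lit 0)]) (PF.cons (PF.leaf (nat_lit 5694633) (nat_lit 362042) (nat_lit 44421183) (nat_lit 14486747) [(nat_lit 362042), (nat_lit 1385963), (nat_lit 3226437), (nat_lit 0)]) (PF.cons (PF.leaf (nat_lit 5936803) (nat_lit 370279) (nat_lit 44059346) (nat_lit 14435895) [(nat_lit 370279), (nat_lit 1398303), (nat_lit 3237353), (nat_lit 0)]) (PF.cons PF.nil PF.nil)))) (PF.cons (PF.cons (PF.leaf (nat_lit 6123203) (nat_lit 1408549) (nat_lit 43453915) (nat_lit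 14344402) [(nat_lit 0), (nat_lit 1408549), (nat_lit 3246698), (nat_lit 0)]) (PF.cons (PF.leaf (nat_lit 6368654) (nat_lit 380493) (nat_lit 43090410) (nat_lit 14289765) [(nat_lit 380493), (nat_lit 1418990), (nat_lit 3255081), (nat_lit 0)]) PF.nil)) (PF.cons PF.nil (PF.cons PF.nil PF.nil))))) (PF.cons (PF.cons (PF.cons (PF.leaf (nat_lit 5978925) (nat_lit 3230918) (nat_lit 43134047) (nat_lit 14282011) [(nat_lit 0), (nat_lit 0), (nat_lit 3230918), (nat_lit 0)]) (PF.cons (PF.leaf (nat_lit 6211576) (nat_lit 369947) (nat_lit 42791821) (nat_lit 14229773) [(nat_lit 369947), (nat_lit 0), (nat_lit 3239090), (nat_lit 0)]) (PF.cons (PF.leaf (nat_lit 6453632) (nat_lit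
 377524) (nat_lit 42439411) (nat_lit 14174772) [(nat_lit 377524), (nat_lit 0), (nat_lit 3246526), (nat_lit 0)]) (PF.cons PF.nil PF.nil)))) (PF.cons (PF.cons (PF.leaf (nat_lit 6632751) (nat_lit 1422071) (nat_lit 41856396) (nat_lit 14077904) [(nat_lit 0), (nat_lit 1422071), (nat_lit 3250813), (nat_lit 0)]) (PF.cons PF.nil PF.nil)) (PF.cons PF.nil PF.nil))) (PF.cons (PF.cons (PF.cons (PF.leaf (nat_lit 7124690) (nat_lit 3244458) (nat_lit 40329030) (nat_lit 13801949) [(nat_lit 0), (nat_lit 0), (nat_lit 3244458), (nat_lit 0)]) (PF.cons PF.nil PF.nil)) (PF.cons PF.nil PF.nil)) (PF.cons PF.nil PF.nil)))))) (PF.cons (PF.cons (PF.cons (PF.cons (PF.leaf (nat_lit 4696159) (nat_lit 8871991) (nat_lit 43946583) (nat_lit 14290238) [(nat_lit 0), (nat_lit 0), (nat_lit 0), (nat_lit 8871991)]) (PF.cons (PF.leaf (nat_lit 4876802) (nat_lit 301870) (nat_lit 43686943) (nat_lit 14255252) [(nat_lit 301870), (nat_lit 0), (nat_lit 0), (nat_lit 8864746)]) (PF.cons (PF.leaf (nat_lit 5074610)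 (nat_lit 315219) (nat_lit 43405836) (nat_lit 14216534) [(nat_lit 315219), (nat_lit 0), (nat_lit 0), (nat_lit 8856002)]) (PF.cons (PF.leaf (nat_lit 5285442) (nat_lit 326956) (nat_lit 43107677) (nat_lit 14174530) [(nat_lit
 326956), (nat_lit 0), (nat_lit 0), (nat_lit 8845734)]) (PF.cons (PF.leaf (nat_lit 5507314) (nat_lit 337417) (nat_lit 42795667) (nat_lit 14129554) [(nat_lit 337417), (nat_lit 0), (nat_lit 0), (nat_lit 8833921)]) (PF.cons (PF.leaf (nat_lit 5738523) (nat_lit 346828) (nat_lit 42472266) (nat_lit 14081850) [(nat_lit 346828), (nat_lit 0), (nat_lit 0), (nat_lit 8820554)]) (PF.cons (PF.leaf (nat_lit 5977818) (nat_lit 355353) (nat_lit 42139446) (nat_lit 14031614) [(nat_lit 355353), (nat_lit 0), (nat_lit 0), (nat_lit 8805630)]) (PF.cons PF.nil (PF.cons PF.nil PF.nil))))))))) (PF.cons (PF.cons (PF.leaf (nat_lit 5266393) (nat_lit 1303724) (nat_lit 42840979) (nat_lit 14132897) [(nat_lit 0), (nat_lit 1303724), (nat_lit 0), (nat_lit 8831211)]) (PF.cons (PF.leaf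 (nat_lit 5471608) (nat_lit 331580) (nat_lit 42548968) (nat_lit 14090015) [(nat_lit 331580), (nat_lit 1318866), (nat_lit 0), (nat_lit 8819382)]) (PF.cons (PF.leaf (nat_lit 5689529) (nat_lit 341754) (nat_lit 42242121) (nat_lit 14043994) [(nat_lit 341754), (nat_lit 1333222), (nat_lit 0), (nat_lit 8805965)]) (PF.cons (PF.leaf (nat_lit 5917346) (nat_lit 350854) (nat_lit 41923395) (nat_lit 13995160) [(nat_lit 350854), (nat_lit 1346712), (nat_lit
 0), (nat_lit 8790982)]) (PF.cons (PF.leaf (nat_lit 6153566) (nat_lit 359062) (nat_lit 41595039) (nat_lit 13943763) [(nat_lit 359062), (nat_lit 1359308), (nat_lit 0), (nat_lit 8774453)]) (PF.cons PF.nil (PF.cons PF.nil PF.nil))))))) (PF.cons (PF.cons (PF.leaf (nat_lit 5873044) (nat_lit 1345729) (nat_lit 41687265) (nat_lit 13955137) [(nat_lit 0), (nat_lit 1345729), (nat_lit 0), (nat_lit 8774951)]) (PF.cons (PF.leaf (nat_lit 6095869) (nat_lit 354169) (nat_lit 41374944) (nat_lit 13905542) [(nat_lit 354169), (nat_lit 1357797), (nat_lit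 0), (nat_lit 8758563)]) (PF.cons (PF.leaf (nat_lit 6328380) (nat_lit 362153) (nat_lit 41052375) (nat_lit 13853291) [(nat_lit 362153), (nat_lit 1369110), (nat_lit 0), (nat_lit 8740618)]) (PF.cons (PF.leaf (nat_lit 6568443) (nat_lit 369360) (nat_lit 40721636) (nat_lit 13798642) [(nat_lit 369360), (nat_lit 1379643), (nat_lit 0), (nat_lit 8721164)]) (PF.cons PF.nil PF.nil))))) (PF.cons (PF.cons (PF.leaf (nat_lit 6503458) (nat_lit 1377632) (nat_lit 40511403) (nat_lit 13760275) [(nat_lit 0), (nat_lit 1377632), (nat_lit 0), (nat_lit 8704235)]) (PF.cons (PF.leaf (nat_lit 6738902) (nat_lit 371684) (nat_lit 40187268) (nat_lit 13705028) [(nat_lit 371684), (nat_lit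
 1387089), (nat_lit 0), (nat_lit 8683563)]) (PF.cons PF.nil (PF.cons PF.nil PF.nil)))) (PF.cons (PF.cons (PF.leaf (nat_lit 7148320) (nat_lit 1401298) (nat_lit 39331690) (nat_lit 13551380) [(nat_lit 0), (nat_lit 1401298), (nat_lit 0), (nat_lit 8620547)]) (PF.cons PF.nil PF.nil)) (PF.cons PF.nil PF.nil)))))) (PF.cons (PF.cons (PF.cons (PF.leaf (nat_lit 5754060) (nat_lit 3130048) (nat_lit 41351277) (nat_lit 13888016) [(nat_lit 0), (nat_lit 0), (nat_lit 3130048), (nat_lit 8739470)]) (PF.cons (PF.leaf (nat_lit 5961312) (nat_lit 340738) (nat_lit 41063591) (nat_lit 13841632) [(nat_lit 340738), (nat_lit 0), (nat_lit 3138965), (nat_lit 8723885)]) (PF.cons (PF.leaf (nat_lit 6180609) (nat_lit 350192) (nat_lit 40762292) (nat_lit 13792164) [(nat_lit 350192), (nat_lit 0), (nat_lit 3147295), (nat_lit 8706675)]) (PF.cons (PF.leaf (nat_lit 6409139) (nat_lit 358572) (nat_lit 40450276) (nat_lit 13739989) [(nat_lit 358572), (nat_lit 0), (nat_lit 3154913), (nat_lit 8687916)]) (PF.cons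 (PF.leaf (nat_lit 6645425) (nat_lit 366072) (nat_lit 40129722) (nat_lit 13685392) [(nat_lit 366072), (nat_lit 0), (nat_lit 3161740), (nat_lit 8667667)]) PF.nil))))) (PF.cons (PF.cons (PF.leaf (nat_lit 6358088) (nat_lit
 1361890) (nat_lit 40225204) (nat_lit 13698748) [(nat_lit 0), (nat_lit 1361890), (nat_lit 3153142), (nat_lit 8669826)]) (PF.cons (PF.leaf (nat_lit 6581277) (nat_lit 360909) (nat_lit 39920419) (nat_lit 13646212) [(nat_lit 360909), (nat_lit 1371954), (nat_lit 3159314), (nat_lit 8650002)]) (PF.cons (PF.leaf (nat_lit 6813494) (nat_lit 368254) (nat_lit 39606395) (nat_lit 13591146) [(nat_lit 368254), (nat_lit 1381312), (nat_lit 3164779), (nat_lit 8628668)]) (PF.cons PF.nil PF.nil)))) (PF.cons (PF.cons (PF.leaf (nat_lit 6981939) (nat_lit 1387259) (nat_lit 39085702) (nat_lit 13494864) [(nat_lit 0), (nat_lit 1387259), (nat_lit 3166171), (nat_lit 8587555)]) (PF.cons (PF.leaf (nat_lit 7216296) (nat_lit 376376) (nat_lit 38771558) (nat_lit 13437308) [(nat_lit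 376376), (nat_lit 1394997), (nat_lit 3169692), (nat_lit 8563882)]) PF.nil)) (PF.cons PF.nil (PF.cons PF.nil PF.nil))))) (PF.cons (PF.cons (PF.cons (PF.leaf (nat_lit 6828894) (nat_lit 3149237) (nat_lit 38822394) (nat_lit 13434897) [(nat_lit 0), (nat_lit 0), (nat_lit 3149237), (nat_lit 8553046)]) (PF.cons (PF.leaf (nat_lit 7051588) (nat_lit 365918) (nat_lit 38526435) (nat_lit 13380185) [(nat_lit 365918), (nat_lit 0), (nat_lit 3152917),
 (nat_lit 8530437)]) (PF.cons (PF.leaf (nat_lit 7282853) (nat_lit 372694) (nat_lit 38222117) (nat_lit 13323074) [(nat_lit 372694), (nat_lit 0), (nat_lit 3155928), (nat_lit 8506374)]) (PF.cons PF.nil PF.nil)))) (PF.cons (PF.cons (PF.leaf (nat_lit 7444685) (nat_lit 1391953) (nat_lit 37722609) (nat_lit 13224740) [(nat_lit 0), (nat_lit 1391953), (nat_lit 3153940), (nat_lit 8461628)]) (PF.cons PF.nil PF.nil)) (PF.cons PF.nil PF.nil))) (PF.cons (PF.cons (PF.cons (PF.leaf (nat_lit 7891894) (nat_lit 3135023) (nat_lit 36422193) (nat_lit 12952599)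 [(nat_lit 0), (nat_lit 0), (nat_lit 3135023), (nat_lit 8328950)]) (PF.cons PF.nil PF.nil)) (PF.cons PF.nil PF.nil)) (PF.cons PF.nil PF.nil))))) (PF.cons (PF.cons (PF.cons (PF.cons (PF.leaf (nat_lit 6570818) (nat_lit 8334573) (nat_lit 37367043) (nat_lit 13072623) [(nat_lit 0), (nat_lit 0), (nat_lit 0), (nat_lit 8334573)]) (PF.cons (PF.leaf (nat_lit 6770738) (nat_lit 337726) (nat_lit 37116438) (nat_lit 13024823) [(nat_lit 337726), (nat_lit 0), (nat_lit 0), (nat_lit 8314912)]) (PF.cons (PF.leaf (nat_lit 6981813) (nat_lit 346422) (nat_lit 36854387) (nat_lit 12974189) [(nat_lit 346422), (nat_lit 0), (nat_lit 0), (nat_lit 8293696)]) (PF.cons (PF.leaf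
 (nat_lit 7201274) (nat_lit 354041) (nat_lit 36583417) (nat_lit 12921140) [(nat_lit 354041), (nat_lit 0), (nat_lit 0), (nat_lit 8271065)]) (PF.cons PF.nil PF.nil))))) (PF.cons (PF.cons (PF.leaf (nat_lit 7144406) (nat_lit 1334728) (nat_lit 36391258) (nat_lit 12880507) [(nat_lit 0), (nat_lit 1334728), (nat_lit 0), (nat_lit 8251159)]) (PF.cons (PF.leaf (nat_lit 7358348) (nat_lit 355418) (nat_lit 36127044) (nat_lit 12827652) [(nat_lit 355418), (nat_lit 1342679), (nat_lit 0), (nat_lit 8228008)]) (PF.cons (PF.leaf (nat_lit 7580616) (nat_lit 362055) (nat_lit 35855145) (nat_lit 12772576) [(nat_lit 362055), (nat_lit 1349953), (nat_lit 0), (nat_lit 8203513)]) (PF.cons PF.nil PF.nil)))) (PF.cons (PF.cons (PF.leaf (nat_lit 7734051) (nat_lit 1353109) (nat_lit 35407614) (nat_lit 12677946) [(nat_lit 0), (nat_lit 1353109), (nat_lit 0), (nat_lit 8158516)]) (PF.cons PF.nil PF.nil)) (PF.cons PF.nil (PF.cons PF.nil PF.nil))))) (PF.cons (PF.cons (PF.cons (PF.leaf (nat_lit 7576708)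 (nat_lit 3045500) (nat_lit 35189976) (nat_lit 12622704) [(nat_lit 0), (nat_lit 0), (nat_lit 3045500), (nat_lit 8125315)]) (PF.cons (PF.leaf (nat_lit 7789629) (nat_lit 358529) (nat_lit 34934044) (nat_lit 12568875) [(nat_lit
 358529), (nat_lit 0), (nat_lit 3046383), (nat_lit 8100489)]) (PF.cons (PF.leaf (nat_lit 8010473) (nat_lit 364671) (nat_lit 34671109) (nat_lit 12512946) [(nat_lit 364671), (nat_lit 0), (nat_lit 3046658), (nat_lit 8074377)]) (PF.cons PF.nil PF.nil)))) (PF.cons (PF.cons (PF.leaf (nat_lit 8158037) (nat_lit 1352406) (nat_lit 34242332) (nat_lit 12418053) [(nat_lit 0), (nat_lit 1352406), (nat_lit 3041038), (nat_lit 8027490)]) (PF.cons PF.nil PF.nil)) (PF.cons PF.nil PF.nil))) (PF.cons (PF.cons (PF.cons (PF.leaf (nat_lit 8568406) (nat_lit 3015448) (nat_lit 33130842) (nat_lit 12159921) [(nat_lit 0), (nat_lit 0), (nat_lit 3015448), (nat_lit 7893576)]) (PF.cons PF.nil PF.nil)) (PF.cons PF.nil PF.nil)) PF.nil))) (PF.cons (PF.cons (PF.cons (PF.cons (PF.leaf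 (nat_lit 8244100) (nat_lit 7709395) (nat_lit 32113283) (nat_lit 11867341) [(nat_lit 0), (nat_lit 0), (nat_lit 0), (nat_lit 7709395)]) (PF.cons (PF.leaf (nat_lit 8447755) (nat_lit 349407) (nat_lit 31891140) (nat_lit 11815988) [(nat_lit 349407), (nat_lit 0), (nat_lit 0), (nat_lit 7684092)]) (PF.cons PF.nil PF.nil))) (PF.cons (PF.cons (PF.leaf (nat_lit 8794507) (nat_lit 1308735) (nat_lit 31293140) (nat_lit 11673478) [(nat_lit 0), (nat_lit
 1308735), (nat_lit 0), (nat_lit 7611152)]) PF.nil) PF.nil)) (PF.cons PF.nil PF.nil)) (PF.cons PF.nil (PF.cons PF.nil (PF.cons PF.nil (PF.cons PF.nil PF.nil))))))))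

def p13_11_2_0 : pfC (piC [(nat_lit 41351667), (nat_lit 26310893), (nat_lit 19519284), (nat_lit 13318063)] (nat_lit 7072463)) p13_11_2 (nat_lit 4) (nat_lit 0) (nat_lit 1) = true := by decide +kernel
def p13_11_2_1 : pfC (piC [(nat_lit 41351667), (nat_lit 26310893), (nat_lit 19519284), (nat_lit 13318063)] (nat_lit 7072463)) p13_11_2 (nat_lit 4) (nat_lit 1) (nat_lit 2) = true := by decide +kernel
def p13_11_2_2 : pfC (piC [(nat_lit 41351667), (nat_lit 26310893), (nat_lit 19519284), (nat_lit 13318063)] (nat_lit 7072463)) p13_11_2 (nat_lit 4) (nat_lit 2) (nat_lit 3) = true := by decide +kernel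
def p13_11_2_3 : pfC (piC [(nat_lit 41351667), (nat_lit 26310893), (nat_lit 19519284), (nat_lit 13318063)] (nat_lit 7072463)) p13_11_2 (nat_lit 4) (nat_lit 3) (nat_lit 4) = true := by decide +kernel
def p13_11_2_4 : pfC (piC [(nat_lit 41351667), (nat_lit 26310893), (nat_lit 19519284), (nat_lit 13318063)] (nat_lit 7072463)) p13_11_2 (nat_lit 4) (nat_lit 4) (nat_lit 5) = true := by decide +kernel
def p13_11_2_5 : pfC (piC [(nat_lit 41351667), (nat_lit 26310893), (nat_lit 19519284), (nat_lit 13318063)] (nat_lit 7072463)) p13_11_2 (nat_lit 4) (nat_lit 5) (nat_lit 6) = true := by decide +kernel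
def p13_11_2_6 : pfC (piC [(nat_lit 41351667), (nat_lit 26310893), (nat_lit 19519284), (nat_lit 13318063)] (nat_lit 7072463)) p13_11_2 (nat_lit 4) (nat_lit 6) (nat_lit 7) = true := by decide +kernel
def p13_11_2_7 : pfC (piC [(nat_lit 41351667), (nat_lit 26310893), (nat_lit 19519284), (nat_lit 13318063)] (nat_lit 7072463)) p13_11_2 (nat_lit 4) (nat_lit 7) (nat_lit 8) = true := by decide +kernel
def p13_11_2_8 : pfC (piC [(nat_lit 41351667), (nat_lit 26310893), (nat_lit 19519284), (nat_lit 13318063)] (nat_lit 7072463)) p13_11_2 (nat_lit 4) (nat_lit 8) (nat_lit 9) = true := by decide +kernel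
def p13_11_2_9 : pfC (piC [(nat_lit 41351667), (nat_lit 26310893), (nat_lit 19519284), (nat_lit 13318063)] (nat_lit 7072463)) p13_11_2 (nat_lit 4) (nat_lit 9) (nat_lit 10) = true := by decide +kernel
def p13_11_2_10 : pfC (piC [(nat_lit 41351667), (nat_lit 26310893), (nat_lit 19519284), (nat_lit 13318063)] (nat_lit 7072463)) p13_11_2 (nat_lit 4) (nat_lit 10) (nat_lit 11) = true := by decide +kernel
def p13_11_2_11 : pfC (piC [(nat_lit 41351667), (nat_lit 26310893), (nat_lit 19519284), (nat_lit 13318063)] (nat_lit 7072463)) p13_11_2 (nat_lit 4) (nat_lit 11) (nat_lit 12) = true := by decide +kernel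
def p13_11_2_12 : pfC (piC [(nat_lit 41351667), (nat_lit 26310893), (nat_lit 19519284), (nat_lit 13318063)] (nat_lit 7072463)) p13_11_2 (nat_lit 4) (nat_lit 12) (nat_lit 13) = true := by decide +kernel
def p13_11_2_13 : pfC (piC [(nat_lit 41351667), (nat_lit 26310893), (nat_lit 19519284), (nat_lit 13318063)] (nat_lit 7072463)) p13_11_2 (nat_lit 4) (nat_lit 13) (nat_lit 14) = true := by decide +kernel
def p13_11_2_14 : pfC (piC [(nat_lit 41351667), (nat_lit 26310893), (nat_lit 19519284), (nat_lit 13318063)] (nat_lit 7072463)) p13_11_2 (nat_lit 4) (nat_lit 14) (nat_lit 15) = true := by decide +kernel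
def p13_11_2_15 : pfC (piC [(nat_lit 41351667), (nat_lit 26310893), (nat_lit 19519284), (nat_lit 13318063)] (nat_lit 7072463)) p13_11_2 (nat_lit 4) (nat_lit 15) (nat_lit 16) = true := by decide +kernel
def p13_11_2_16 : pfC (piC [(nat_lit 41351667), (nat_lit 26310893), (nat_lit 19519284), (nat_lit 13318063)] (nat_lit 7072463)) p13_11_2 (nat_lit 4) (nat_lit 16) (nat_lit 17) = true := by decide +kernel
def p13_11_2_17 : pfC (piC [(nat_lit 41351667), (nat_lit 26310893), (nat_lit 19519284), (nat_lit 13318063)] (nat_lit 7072463)) p13_11_2 (nat_lit 4) (nat_lit 17) (nat_lit 18) = true := by decide +kernel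
def p13_11_2_18 : pfC (piC [(nat_lit 41351667), (nat_lit 26310893), (nat_lit 19519284), (nat_lit 13318063)] (nat_lit 7072463)) p13_11_2 (nat_lit 4) (nat_lit 18) (nat_lit 19) = true := by decide +kernel
def p13_11_2_19 : pfC (piC [(nat_lit 41351667), (nat_lit 26310893), (nat_lit 19519284), (nat_lit 13318063)] (nat_lit 7072463)) p13_11_2 (nat_lit 4) (nat_lit 19) (nat_lit 20) = true := by decide +kernel
def p13_11_2_20 : pfC (piC [(nat_lit 41351667), (nat_lit 26310893), (nat_lit 19519284), (nat_lit 13318063)] (nat_lit 7072463)) p13_11_2 (nat_lit 4) (nat_lit 20) (nat_lit 21) = true := by decide +kernel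
def p13_11_2_21 : pfC (piC [(nat_lit 41351667), (nat_lit 26310893), (nat_lit 19519284), (nat_lit 13318063)] (nat_lit 7072463)) p13_11_2 (nat_lit 4) (nat_lit 21) (nat_lit 22) = true := by decide +kernel
def p13_11_2_22 : pfC (piC [(nat_lit 41351667), (nat_lit 26310893), (nat_lit 19519284), (nat_lit 13318063)] (nat_lit 7072463)) p13_11_2 (nat_lit 4) (nat_lit 22) (nat_lit 23) = true := by decide +kernel
def p13_11_2_23 : pfC (piC [(nat_lit 41351667), (nat_lit 26310893), (nat_lit 19519284), (nat_lit 13318063)] (nat_lit 7072463)) p13_11_2 (nat_lit 4) (nat_lit 23) (nat_lit 24) = true := by decide +kernel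
def p13_11_2_24 : pfC (piC [(nat_lit 41351667), (nat_lit 26310893), (nat_lit 19519284), (nat_lit 13318063)] (nat_lit 7072463)) p13_11_2 (nat_lit 4) (nat_lit 24) (nat_lit 25) = true := by decide +kernel
def p13_11_2_25 : pfC (piC [(nat_lit 41351667), (nat_lit 26310893), (nat_lit 19519284), (nat_lit 13318063)] (nat_lit 7072463)) p13_11_2 (nat_lit 4) (nat_lit 25) (nat_lit 26) = true := by decide +kernel
def p13_11_2_26 : pfC (piC [(nat_lit 41351667), (nat_lit 26310893), (nat_lit 19519284), (nat_lit 13318063)] (nat_lit 7072463)) p13_11_2 (nat_lit 4) (nat_lit 26) (nat_lit 27) = true := by decide +kernel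
def p13_11_2_27 : pfC (piC [(nat_lit 41351667), (nat_lit 26310893), (nat_lit 19519284), (nat_lit 13318063)] (nat_lit 7072463)) p13_11_2 (nat_lit 4) (nat_lit 27) (nat_lit 28) = true := by decide +kernel
def p13_11_2_28 : pfC (piC [(nat_lit 41351667), (nat_lit 26310893), (nat_lit 19519284), (nat_lit 13318063)] (nat_lit 7072463)) p13_11_2 (nat_lit 4) (nat_lit 28) (nat_lit 29) = true := by decide +kernel
def p13_11_2_29 : pfC (piC [(nat_lit 41351667), (nat_lit 26310893), (nat_lit 19519284), (nat_lit 13318063)] (nat_lit 7072463)) p13_11_2 (nat_lit 4) (nat_lit 29) (nat_lit 30) = true := by decide +kernel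
def p13_11_2_30 : pfC (piC [(nat_lit 41351667), (nat_lit 26310893), (nat_lit 19519284), (nat_lit 13318063)] (nat_lit 7072463)) p13_11_2 (nat_lit 4) (nat_lit 30) (nat_lit 31) = true := by decide +kernel
def p13_11_2_31 : pfC (piC [(nat_lit 41351667), (nat_lit 26310893), (nat_lit 19519284), (nat_lit 13318063)] (nat_lit 7072463)) p13_11_2 (nat_lit 4) (nat_lit 31) (nat_lit 32) = true := by decide +kernel
def p13_11_2_32 : pfC (piC [(nat_lit 41351667), (nat_lit 26310893), (nat_lit 19519284), (nat_lit 13318063)] (nat_lit 7072463)) p13_11_2 (nat_lit 4) (nat_lit 32) (nat_lit 33) = true := by decide +kernel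
def p13_11_2_33 : pfC (piC [(nat_lit 41351667), (nat_lit 26310893), (nat_lit 19519284), (nat_lit 13318063)] (nat_lit 7072463)) p13_11_2 (nat_lit 4) (nat_lit 33) (nat_lit 34) = true := by decide +kernel
def p13_11_2_34 : pfC (piC [(nat_lit 41351667), (nat_lit 26310893), (nat_lit 19519284), (nat_lit 13318063)] (nat_lit 7072463)) p13_11_2 (nat_lit 4) (nat_lit 34) (nat_lit 35) = true := by decide +kernel
def p13_11_2_35 : pfC (piC [(nat_lit 41351667), (nat_lit 26310893), (nat_lit 19519284), (nat_lit 13318063)] (nat_lit 7072463)) p13_11_2 (nat_lit 4) (nat_lit 35) (nat_lit 36) = true := by decide +kernel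
def p13_11_2_36 : pfC (piC [(nat_lit 41351667), (nat_lit 26310893), (nat_lit 19519284), (nat_lit 13318063)] (nat_lit 7072463)) p13_11_2 (nat_lit 4) (nat_lit 36) (nat_lit 37) = true := by decide +kernel
def p13_11_2_37 : pfC (piC [(nat_lit 41351667), (nat_lit 26310893), (nat_lit 19519284), (nat_lit 13318063)] (nat_lit 7072463)) p13_11_2 (nat_lit 4) (nat_lit 37) (nat_lit 38) = true := by decide +kernel
def p13_11_2_38 : pfC (piC [(nat_lit 41351667), (nat_lit 26310893), (nat_lit 19519284), (nat_lit 13318063)] (nat_lit 7072463)) p13_11_2 (nat_lit 4) (nat_lit 38) (nat_lit 39) = true := by decide +kernel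
def p13_11_2_39 : pfC (piC [(nat_lit 41351667), (nat_lit 26310893), (nat_lit 19519284), (nat_lit 13318063)] (nat_lit 7072463)) p13_11_2 (nat_lit 4) (nat_lit 39) (nat_lit 40) = true := by decide +kernel
def p13_11_2_40 : pfC (piC [(nat_lit 41351667), (nat_lit 26310893), (nat_lit 19519284), (nat_lit 13318063)] (nat_lit 7072463)) p13_11_2 (nat_lit 4) (nat_lit 40) (nat_lit 41) = true := by decide +kernel
def p13_11_2_41 : pfC (piC [(nat_lit 41351667), (nat_lit 26310893), (nat_lit 19519284), (nat_lit 13318063)] (nat_lit 7072463)) p13_11_2 (nat_lit 4) (nat_lit 41) (nat_lit 42) = true := by decide +kernel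
def p13_11_2_42 : pfC (piC [(nat_lit 41351667), (nat_lit 26310893), (nat_lit 19519284), (nat_lit 13318063)] (nat_lit 7072463)) p13_11_2 (nat_lit 4) (nat_lit 42) (nat_lit 43) = true := by decide +kernel
def p13_11_2_43 : pfC (piC [(nat_lit 41351667), (nat_lit 26310893), (nat_lit 19519284), (nat_lit 13318063)] (nat_lit 7072463)) p13_11_2 (nat_lit 4) (nat_lit 43) (nat_lit 44) = true := by decide +kernel
def p13_11_2_44 : pfC (piC [(nat_lit 41351667), (nat_lit 26310893), (nat_lit 19519284), (nat_lit 13318063)] (nat_lit 7072463)) p13_11_2 (nat_lit 4) (nat_lit 44) (nat_lit 45) = true := by decide +kernel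
def p13_11_2_45 : pfC (piC [(nat_lit 41351667), (nat_lit 26310893), (nat_lit 19519284), (nat_lit 13318063)] (nat_lit 7072463)) p13_11_2 (nat_lit 4) (nat_lit 45) (nat_lit 46) = true := by decide +kernel
def p13_11_2_46 : pfC (piC [(nat_lit 41351667), (nat_lit 26310893), (nat_lit 19519284), (nat_lit 13318063)] (nat_lit 7072463)) p13_11_2 (nat_lit 4) (nat_lit 46) (nat_lit 47) = true := by decide +kernel
def p13_11_2_47 : pfC (piC [(nat_lit 41351667), (nat_lit 26310893), (nat_lit 19519284), (nat_lit 13318063)] (nat_lit 7072463)) p13_11_2 (nat_lit 4) (nat_lit 47) (nat_lit 48) = true := by decide +kernel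
def p13_11_2_48 : pfC (piC [(nat_lit 41351667), (nat_lit 26310893), (nat_lit 19519284), (nat_lit 13318063)] (nat_lit 7072463)) p13_11_2 (nat_lit 4) (nat_lit 48) (nat_lit 49) = true := by decide +kernel
def p13_11_2_49 : pfC (piC [(nat_lit 41351667), (nat_lit 26310893), (nat_lit 19519284), (nat_lit 13318063)] (nat_lit 7072463)) p13_11_2 (nat_lit 4) (nat_lit 49) (nat_lit 50) = true := by decide +kernel
def p13_11_2_50 : pfC (piC [(nat_lit 41351667), (nat_lit 26310893), (nat_lit 19519284), (nat_lit 13318063)] (nat_lit 7072463)) p13_11_2 (nat_lit 4) (nat_lit 50) (nat_lit 51) = true := by decide +kernel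
def p13_11_2_51 : pfC (piC [(nat_lit 41351667), (nat_lit 26310893), (nat_lit 19519284), (nat_lit 13318063)] (nat_lit 7072463)) p13_11_2 (nat_lit 4) (nat_lit 51) (nat_lit 52) = true := by decide +kernel
def p13_11_2_52 : pfC (piC [(nat_lit 41351667), (nat_lit 26310893), (nat_lit 19519284), (nat_lit 13318063)] (nat_lit 7072463)) p13_11_2 (nat_lit 4) (nat_lit 52) (nat_lit 53) = true := by decide +kernel
def p13_11_2_53 : pfC (piC [(nat_lit 41351667), (nat_lit 26310893), (nat_lit 19519284), (nat_lit 13318063)] (nat_lit 7072463)) p13_11_2 (nat_lit 4) (nat_lit 53) (nat_lit 54) = true := by decide +kernel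
def p13_11_2_54 : pfC (piC [(nat_lit 41351667), (nat_lit 26310893), (nat_lit 19519284), (nat_lit 13318063)] (nat_lit 7072463)) p13_11_2 (nat_lit 4) (nat_lit 54) (nat_lit 55) = true := by decide +kernel
def p13_11_2_55 : pfC (piC [(nat_lit 41351667), (nat_lit 26310893), (nat_lit 19519284), (nat_lit 13318063)] (nat_lit 7072463)) p13_11_2 (nat_lit 4) (nat_lit 55) (nat_lit 56) = true := by decide +kernel
def p13_11_2_56 : pfC (piC [(nat_lit 41351667), (nat_lit 26310893), (nat_lit 19519284), (nat_lit 13318063)] (nat_lit 7072463)) p13_11_2 (nat_lit 4) (nat_lit 56) (nat_lit 57) = true := by decide +kernel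
def p13_11_2_57 : pfC (piC [(nat_lit 41351667), (nat_lit 26310893), (nat_lit 19519284), (nat_lit 13318063)] (nat_lit 7072463)) p13_11_2 (nat_lit 4) (nat_lit 57) (nat_lit 58) = true := by decide +kernel
def p13_11_2_58 : pfC (piC [(nat_lit 41351667), (nat_lit 26310893), (nat_lit 19519284), (nat_lit 13318063)] (nat_lit 7072463)) p13_11_2 (nat_lit 4) (nat_lit 58) (nat_lit 59) = true := by decide +kernel
def p13_11_2_59 : pfC (piC [(nat_lit 41351667), (nat_lit 26310893), (nat_lit 19519284), (nat_lit 13318063)] (nat_lit 7072463)) p13_11_2 (nat_lit 4) (nat_lit 59) (nat_lit 60) = true := by decide +kernel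
def p13_11_2_60 : pfC (piC [(nat_lit 41351667), (nat_lit 26310893), (nat_lit 19519284), (nat_lit 13318063)] (nat_lit 7072463)) p13_11_2 (nat_lit 4) (nat_lit 60) (nat_lit 61) = true := by decide +kernel
def p13_11_2_61 : pfC (piC [(nat_lit 41351667), (nat_lit 26310893), (nat_lit 19519284), (nat_lit 13318063)] (nat_lit 7072463)) p13_11_2 (nat_lit 4) (nat_lit 61) (nat_lit 62) = true := by decide +kernel
def p13_11_2_62 : pfC (piC [(nat_lit 41351667), (nat_lit 26310893), (nat_lit 19519284), (nat_lit 13318063)] (nat_lit 7072463)) p13_11_2 (nat_lit 4) (nat_lit 62) (nat_lit 63) = true := by decide +kernel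
def p13_11_2_63 : pfC (piC [(nat_lit 41351667), (nat_lit 26310893), (nat_lit 19519284), (nat_lit 13318063)] (nat_lit 7072463)) p13_11_2 (nat_lit 4) (nat_lit 63) (nat_lit 64) = true := by decide +kernel
def p13_11_2_64 : pfC (piC [(nat_lit 41351667), (nat_lit 26310893), (nat_lit 19519284), (nat_lit 13318063)] (nat_lit 7072463)) p13_11_2 (nat_lit 4) (nat_lit 64) (nat_lit 65) = true := by decide +kernel
def p13_11_2_65 : pfC (piC [(nat_lit 41351667), (nat_lit 26310893), (nat_lit 19519284), (nat_lit 13318063)] (nat_lit 7072463)) p13_11_2 (nat_lit 4) (nat_lit 65) (nat_lit 66) = true := by decide +kernel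
def p13_11_2_66 : pfC (piC [(nat_lit 41351667), (nat_lit 26310893), (nat_lit 19519284), (nat_lit 13318063)] (nat_lit 7072463)) p13_11_2 (nat_lit 4) (nat_lit 66) (nat_lit 67) = true := by decide +kernel
def p13_11_2_67 : pfC (piC [(nat_lit 41351667), (nat_lit 26310893), (nat_lit 19519284), (nat_lit 13318063)] (nat_lit 7072463)) p13_11_2 (nat_lit 4) (nat_lit 67) (nat_lit 68) = true := by decide +kernel
def p13_11_2_68 : pfC (piC [(nat_lit 41351667), (nat_lit 26310893), (nat_lit 19519284), (nat_lit 13318063)] (nat_lit 7072463)) p13_11_2 (nat_lit 4) (nat_lit 68) (nat_lit 69) = true := by decide +kernel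
def p13_11_2_69 : pfC (piC [(nat_lit 41351667), (nat_lit 26310893), (nat_lit 19519284), (nat_lit 13318063)] (nat_lit 7072463)) p13_11_2 (nat_lit 4) (nat_lit 69) (nat_lit 70) = true := by decide +kernel
def p13_11_2_70 : pfC (piC [(nat_lit 41351667), (nat_lit 26310893), (nat_lit 19519284), (nat_lit 13318063)] (nat_lit 7072463)) p13_11_2 (nat_lit 4) (nat_lit 70) (nat_lit 71) = true := by decide +kernel
def p13_11_2_71 : pfC (piC [(nat_lit 41351667), (nat_lit 26310893), (nat_lit 19519284), (nat_lit 13318063)] (nat_lit 7072463)) p13_11_2 (nat_lit 4) (nat_lit 71) (nat_lit 72) = true := by decide +kernel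
def p13_11_2_72 : pfC (piC [(nat_lit 41351667), (nat_lit 26310893), (nat_lit 19519284), (nat_lit 13318063)] (nat_lit 7072463)) p13_11_2 (nat_lit 4) (nat_lit 72) (nat_lit 73) = true := by decide +kernel
def p13_11_2_73 : pfC (piC [(nat_lit 41351667), (nat_lit 26310893), (nat_lit 19519284), (nat_lit 13318063)] (nat_lit 7072463)) p13_11_2 (nat_lit 4) (nat_lit 73) (nat_lit 74) = true := by decide +kernel
def p13_11_2_74 : pfC (piC [(nat_lit 41351667), (nat_lit 26310893), (nat_lit 19519284), (nat_lit 13318063)] (nat_lit 7072463)) p13_11_2 (nat_lit 4) (nat_lit 74) (nat_lit 75) = true := by decide +kernel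
def p13_11_2_75 : pfC (piC [(nat_lit 41351667), (nat_lit 26310893), (nat_lit 19519284), (nat_lit 13318063)] (nat_lit 7072463)) p13_11_2 (nat_lit 4) (nat_lit 75) (nat_lit 76) = true := by decide +kernel
def p13_11_2_76 : pfC (piC [(nat_lit 41351667), (nat_lit 26310893), (nat_lit 19519284), (nat_lit 13318063)] (nat_lit 7072463)) p13_11_2 (nat_lit 4) (nat_lit 76) (nat_lit 77) = true := by decide +kernel
def p13_11_2_77 : pfC (piC [(nat_lit 41351667), (nat_lit 26310893), (nat_lit 19519284), (nat_lit 13318063)] (nat_lit 7072463)) p13_11_2 (nat_lit 4) (nat_lit 77) (nat_lit 78) = true := by decide +kernel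
def p13_11_2_78 : pfC (piC [(nat_lit 41351667), (nat_lit 26310893), (nat_lit 19519284), (nat_lit 13318063)] (nat_lit 7072463)) p13_11_2 (nat_lit 4) (nat_lit 78) (nat_lit 79) = true := by decide +kernel
def p13_11_2_79 : pfC (piC [(nat_lit 41351667), (nat_lit 26310893), (nat_lit 19519284), (nat_lit 13318063)] (nat_lit 7072463)) p13_11_2 (nat_lit 4) (nat_lit 79) (nat_lit 80) = true := by decide +kernel
def p13_11_2_80 : pfC (piC [(nat_lit 41351667), (nat_lit 26310893), (nat_lit 19519284), (nat_lit 13318063)] (nat_lit 7072463)) p13_11_2 (nat_lit 4) (nat_lit 80) (nat_lit 81) = true := by decide +kernel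
def p13_11_2_81 : pfC (piC [(nat_lit 41351667), (nat_lit 26310893), (nat_lit 19519284), (nat_lit 13318063)] (nat_lit 7072463)) p13_11_2 (nat_lit 4) (nat_lit 81) (nat_lit 82) = true := by decide +kernel
def p13_11_2_82 : pfC (piC [(nat_lit 41351667), (nat_lit 26310893), (nat_lit 19519284), (nat_lit 13318063)] (nat_lit 7072463)) p13_11_2 (nat_lit 4) (nat_lit 82) (nat_lit 83) = true := by decide +kernel
def p13_11_2_83 : pfC (piC [(nat_lit 41351667), (nat_lit 26310893), (nat_lit 19519284), (nat_lit 13318063)] (nat_lit 7072463)) p13_11_2 (nat_lit 4) (nat_lit 83) (nat_lit 84) = true := by decide +kernel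
def p13_11_2_84 : pfC (piC [(nat_lit 41351667), (nat_lit 26310893), (nat_lit 19519284), (nat_lit 13318063)] (nat_lit 7072463)) p13_11_2 (nat_lit 4) (nat_lit 84) (nat_lit 85) = true := by decide +kernel
def p13_11_2_85 : pfC (piC [(nat_lit 41351667), (nat_lit 26310893), (nat_lit 19519284), (nat_lit 13318063)] (nat_lit 7072463)) p13_11_2 (nat_lit 4) (nat_lit 85) (nat_lit 86) = true := by decide +kernel
def p13_11_2_86 : pfC (piC [(nat_lit 41351667), (nat_lit 26310893), (nat_lit 19519284), (nat_lit 13318063)] (nat_lit 7072463)) p13_11_2 (nat_lit 4) (nat_lit 86) (nat_lit 87) = true := by decide +kernel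
def p13_11_2_87 : pfC (piC [(nat_lit 41351667), (nat_lit 26310893), (nat_lit 19519284), (nat_lit 13318063)] (nat_lit 7072463)) p13_11_2 (nat_lit 4) (nat_lit 87) (nat_lit 88) = true := by decide +kernel
def p13_11_2_88 : pfC (piC [(nat_lit 41351667), (nat_lit 26310893), (nat_lit 19519284), (nat_lit 13318063)] (nat_lit 7072463)) p13_11_2 (nat_lit 4) (nat_lit 88) (nat_lit 89) = true := by decide +kernel
def p13_11_2_89 : pfC (piC [(nat_lit 41351667), (nat_lit 26310893), (nat_lit 19519284), (nat_lit 13318063)] (nat_lit 7072463)) p13_11_2 (nat_lit 4) (nat_lit 89) (nat_lit 90) = true := by decide +kernel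
def p13_11_2_90 : pfC (piC [(nat_lit 41351667), (nat_lit 26310893), (nat_lit 19519284), (nat_lit 13318063)] (nat_lit 7072463)) p13_11_2 (nat_lit 4) (nat_lit 90) (nat_lit 91) = true := by decide +kernel
def p13_11_2_91 : pfC (piC [(nat_lit 41351667), (nat_lit 26310893), (nat_lit 19519284), (nat_lit 13318063)] (nat_lit 7072463)) p13_11_2 (nat_lit 4) (nat_lit 91) (nat_lit 92) = true := by decide +kernel
def p13_11_2_92 : pfC (piC [(nat_lit 41351667), (nat_lit 26310893), (nat_lit 19519284), (nat_lit 13318063)] (nat_lit 7072463)) p13_11_2 (nat_lit 4) (nat_lit 92) (nat_lit 93) = true := by decide +kernel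
def p13_11_2_93 : pfC (piC [(nat_lit 41351667), (nat_lit 26310893), (nat_lit 19519284), (nat_lit 13318063)] (nat_lit 7072463)) p13_11_2 (nat_lit 4) (nat_lit 93) (nat_lit 94) = true := by decide +kernel
def p13_11_2_94 : pfC (piC [(nat_lit 41351667), (nat_lit 26310893), (nat_lit 19519284), (nat_lit 13318063)] (nat_lit 7072463)) p13_11_2 (nat_lit 4) (nat_lit 94) (nat_lit 95) = true := by decide +kernel
def p13_11_2_95 : pfC (piC [(nat_lit 41351667), (nat_lit 26310893), (nat_lit 19519284), (nat_lit 13318063)] (nat_lit 7072463)) p13_11_2 (nat_lit 4) (nat_lit 95) (nat_lit 96) = true := by decide +kernel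
def p13_11_2_96 : pfC (piC [(nat_lit 41351667), (nat_lit 26310893), (nat_lit 19519284), (nat_lit 13318063)] (nat_lit 7072463)) p13_11_2 (nat_lit 4) (nat_lit 96) (nat_lit 97) = true := by decide +kernel
def p13_11_2_97 : pfC (piC [(nat_lit 41351667), (nat_lit 26310893), (nat_lit 19519284), (nat_lit 13318063)] (nat_lit 7072463)) p13_11_2 (nat_lit 4) (nat_lit 97) (nat_lit 98) = true := by decide +kernel
def p13_11_2_98 : pfC (piC [(nat_lit 41351667), (nat_lit 26310893), (nat_lit 19519284), (nat_lit 13318063)] (nat_lit 7072463)) p13_11_2 (nat_lit 4) (nat_lit 98) (nat_lit 99) = true := by decide +kernel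
def p13_11_2_99 : pfC (piC [(nat_lit 41351667), (nat_lit 26310893), (nat_lit 19519284), (nat_lit 13318063)] (nat_lit 7072463)) p13_11_2 (nat_lit 4) (nat_lit 99) (nat_lit 100) = true := by decide +kernel
def p13_11_2_100 : pfC (piC [(nat_lit 41351667), (nat_lit 26310893), (nat_lit 19519284), (nat_lit 13318063)] (nat_lit 7072463)) p13_11_2 (nat_lit 4) (nat_lit 100) (nat_lit 101) = true := by decide +kernel
def p13_11_2_101 : pfC (piC [(nat_lit 41351667), (nat_lit 26310893), (nat_lit 19519284), (nat_lit 13318063)] (nat_lit 7072463)) p13_11_2 (nat_lit 4) (nat_lit 101) (nat_lit 102) = true := by decide +kernel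
def p13_11_2_102 : pfC (piC [(nat_lit 41351667), (nat_lit 26310893), (nat_lit 19519284), (nat_lit 13318063)] (nat_lit 7072463)) p13_11_2 (nat_lit 4) (nat_lit 102) (nat_lit 103) = true := by decide +kernel
def p13_11_2_103 : pfC (piC [(nat_lit 41351667), (nat_lit 26310893), (nat_lit 19519284), (nat_lit 13318063)] (nat_lit 7072463)) p13_11_2 (nat_lit 4) (nat_lit 103) (nat_lit 104) = true := by decide +kernel
def p13_11_2_104 : pfC (piC [(nat_lit 41351667), (nat_lit 26310893), (nat_lit 19519284), (nat_lit 13318063)] (nat_lit 7072463)) p13_11_2 (nat_lit 4) (nat_lit 104) (nat_lit 105) = true := by decide +kernel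
def p13_11_2_105 : pfC (piC [(nat_lit 41351667), (nat_lit 26310893), (nat_lit 19519284), (nat_lit 13318063)] (nat_lit 7072463)) p13_11_2 (nat_lit 4) (nat_lit 105) (nat_lit 106) = true := by decide +kernel
def p13_11_2_106 : pfC (piC [(nat_lit 41351667), (nat_lit 26310893), (nat_lit 19519284), (nat_lit 13318063)] (nat_lit 7072463)) p13_11_2 (nat_lit 4) (nat_lit 106) (nat_lit 107) = true := by decide +kernel
def p13_11_2_107 : pfC (piC [(nat_lit 41351667), (nat_lit 26310893), (nat_lit 19519284), (nat_lit 13318063)] (nat_lit 7072463)) p13_11_2 (nat_lit 4) (nat_lit 107) (nat_lit 108) = true := by decide +kernel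
def p13_11_2_108 : pfC (piC [(nat_lit 41351667), (nat_lit 26310893), (nat_lit 19519284), (nat_lit 13318063)] (nat_lit 7072463)) p13_11_2 (nat_lit 4) (nat_lit 108) (nat_lit 109) = true := by decide +kernel
theorem p13_11_2_T : PfS (PiF n13_11.reverse (nat_lit 7072463)) p13_11_2 (nat_lit 4) [] 0 :=
  pftab_of (los := [(nat_lit 41351667), (nat_lit 26310893), (nat_lit 19519284), (nat_lit 13318063)]) (by decide +kernel) (hi := (nat_lit 109)) (PfP.trans (PfP.trans (PfP.trans (PfP.trans (PfP.trans (PfP.trans (PfP.trans (PfP.trans (PfP.trans (PfP.trans (PfP.trans (PfP.trans (PfP.trans (PfP.trans (PfP.trans (PfP.trans (PfP.trans (PfP.trans (PfP.trans (PfP.trans (PfP.trans (PfP.trans (PfP.trans (PfP.trans (PfP.trans (PfP.trans (PfP.trans (PfP.trans (PfP.trans (PfP.trans (PfP.trans (PfP.trans (PfP.trans (PfP.trans (PfP.trans (PfP.trans (PfP.trans (PfP.trans (PfP.trans (PfP.trans (PfP.trans (PfP.trans (PfP.trans (PfP.trans (PfP.trans (PfP.trans (PfP.trans (PfP.trans (PfP.trans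 (PfP.trans (PfP.trans (PfP.trans (PfP.trans (PfP.trans (PfP.trans (PfP.trans (PfP.trans (PfP.trans (PfP.trans (PfP.trans (PfP.trans (PfP.trans (PfP.trans (PfP.trans (PfP.trans (PfP.trans (PfP.trans (PfP.trans (PfP.trans (PfP.trans (PfP.trans (PfP.trans (PfP.trans (PfP.trans (PfP.trans (PfP.trans (PfP.trans (PfP.trans (PfP.trans (PfP.trans (PfP.trans (PfP.trans (PfP.trans (PfP.trans (PfP.trans (PfP.trans (PfP.trans (PfP.trans (PfP.trans (PfP.trans (PfP.trans (PfP.trans (PfP.trans (PfP.trans (PfP.trans (PfP.trans (PfP.trans (PfP.trans (PfP.trans (PfP.trans (PfP.trans (PfP.trans (PfP.trans (PfP.trans (PfP.trans (PfP.trans (PfP.trans (PfP.trans (pfC_sound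
 p13_11_2_0) (pfC_sound p13_11_2_1)) (pfC_sound p13_11_2_2)) (pfC_sound p13_11_2_3)) (pfC_sound p13_11_2_4)) (pfC_sound p13_11_2_5)) (pfC_sound p13_11_2_6)) (pfC_sound p13_11_2_7)) (pfC_sound p13_11_2_8)) (pfC_sound p13_11_2_9)) (pfC_sound p13_11_2_10)) (pfC_sound p13_11_2_11)) (pfC_sound p13_11_2_12)) (pfC_sound p13_11_2_13)) (pfC_sound p13_11_2_14)) (pfC_sound p13_11_2_15)) (pfC_sound p13_11_2_16)) (pfC_sound p13_11_2_17)) (pfC_sound p13_11_2_18)) (pfC_sound p13_11_2_19)) (pfC_sound p13_11_2_20)) (pfC_sound p13_11_2_21)) (pfC_sound p13_11_2_22)) (pfC_sound p13_11_2_23)) (pfC_sound p13_11_2_24)) (pfC_sound p13_11_2_25)) (pfC_sound p13_11_2_26)) (pfC_sound p13_11_2_27)) (pfC_sound p13_11_2_28)) (pfC_sound p13_11_2_29)) (pfC_sound p13_11_2_30)) (pfC_sound p13_11_2_31)) (pfC_sound p13_11_2_32)) (pfC_sound p13_11_2_33)) (pfC_sound p13_11_2_34)) (pfC_sound p13_11_2_35)) (pfC_sound p13_11_2_36)) (pfC_sound p13_11_2_37)) (pfC_sound p13_11_2_38)) (pfC_sound p13_11_2_39))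 (pfC_sound p13_11_2_40)) (pfC_sound p13_11_2_41)) (pfC_sound p13_11_2_42)) (pfC_sound p13_11_2_43)) (pfC_sound p13_11_2_44)) (pfC_sound p13_11_2_45)) (pfC_sound p13_11_2_46)) (pfC_sound p13_11_2_47)) (pfC_sound
 p13_11_2_48)) (pfC_sound p13_11_2_49)) (pfC_sound p13_11_2_50)) (pfC_sound p13_11_2_51)) (pfC_sound p13_11_2_52)) (pfC_sound p13_11_2_53)) (pfC_sound p13_11_2_54)) (pfC_sound p13_11_2_55)) (pfC_sound p13_11_2_56)) (pfC_sound p13_11_2_57)) (pfC_sound p13_11_2_58)) (pfC_sound p13_11_2_59)) (pfC_sound p13_11_2_60)) (pfC_sound p13_11_2_61)) (pfC_sound p13_11_2_62)) (pfC_sound p13_11_2_63)) (pfC_sound p13_11_2_64)) (pfC_sound p13_11_2_65)) (pfC_sound p13_11_2_66)) (pfC_sound p13_11_2_67)) (pfC_sound p13_11_2_68)) (pfC_sound p13_11_2_69)) (pfC_sound p13_11_2_70)) (pfC_sound p13_11_2_71)) (pfC_sound p13_11_2_72)) (pfC_sound p13_11_2_73)) (pfC_sound p13_11_2_74)) (pfC_sound p13_11_2_75)) (pfC_sound p13_11_2_76)) (pfC_sound p13_11_2_77)) (pfC_sound p13_11_2_78))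 (pfC_sound p13_11_2_79)) (pfC_sound p13_11_2_80)) (pfC_sound p13_11_2_81)) (pfC_sound p13_11_2_82)) (pfC_sound p13_11_2_83)) (pfC_sound p13_11_2_84)) (pfC_sound p13_11_2_85)) (pfC_sound p13_11_2_86)) (pfC_sound p13_11_2_87)) (pfC_sound p13_11_2_88)) (pfC_sound p13_11_2_89)) (pfC_sound p13_11_2_90)) (pfC_sound p13_11_2_91)) (pfC_sound p13_11_2_92)) (pfC_sound p13_11_2_93)) (pfC_sound p13_11_2_94)) (pfC_sound p13_11_2_95)) (pfC_sound
 p13_11_2_96)) (pfC_sound p13_11_2_97)) (pfC_sound p13_11_2_98)) (pfC_sound p13_11_2_99)) (pfC_sound p13_11_2_100)) (pfC_sound p13_11_2_101)) (pfC_sound p13_11_2_102)) (pfC_sound p13_11_2_103)) (pfC_sound p13_11_2_104)) (pfC_sound p13_11_2_105)) (pfC_sound p13_11_2_106)) (pfC_sound p13_11_2_107)) (pfC_sound p13_11_2_108)) (by decide +kernel)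

def z13_11_2 : zOK yB13_11 (nat_lit 2) (nat_lit 600) (nat_lit 750) (nat_lit 7072463) (nat_lit 5158383) = true := by decide +kernel
def g13_11_2 : gOK yB13_11.x P13_11 (nat_lit 1424) (q13_11 :: r13_11) (nat_lit 2) (nat_lit 600) (nat_lit 3) (nat_lit 750) (nat_lit 12712500) (nat_lit 12712500) (nat_lit 12712500) (nat_lit 12712500) [(nat_lit 800), (nat_lit 1600)] = true := by decide +kernel
def v13_11_2 : ivC P13_11 s13_11 w13_11 n13_11 (nat_lit 4) (nat_lit 4840) (nat_lit 2) (nat_lit 600) f152_1_600 f160_1_600 (nat_lit 3) (nat_lit 750) f152_1_750 f160_1_750 (nat_lit 7072463) (nat_lit 5158383) p13_11_2 = true := by decide +kernel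
def p13_11_3 : PF := (PF.cons (PF.cons (PF.cons (PF.cons (PF.leaf (nat_lit 2987121) (nat_lit 19112202) (nat_lit 47996610) (nat_lit 19112202) [(nat_lit 0), (nat_lit 0), (nat_lit 0), (nat_lit 0)]) (PF.cons (PF.leaf (nat_lit 3115199) (nat_lit 219102) (nat_lit 47808805) (nat_lit 19080905) [(nat_lit 219102), (nat_lit 0), (nat_lit 0), (nat_lit 0)]) (PF.cons (PF.leaf (nat_lit 3268284) (nat_lit 238117) (nat_lit 47588949) (nat_lit 19043629) [(nat_lit 238117), (nat_lit 0), (nat_lit 0), (nat_lit 0)]) (PF.cons (PF.leaf (nat_lit 3439958) (nat_lit 254958) (nat_lit 47342832) (nat_lit 19001104) [(nat_lit 254958), (nat_lit 0), (nat_lit 0), (nat_lit 0)]) (PF.cons (PF.leaf (nat_lit 3627607) (nat_lit 270118) (nat_lit 47074534) (nat_lit 18953805) [(nat_lit 270118), (nat_lit 0), (nat_lit 0), (nat_lit 0)]) (PF.cons (PF.leaf (nat_lit 3829398) (nat_lit 283912) (nat_lit 46787178) (nat_lit 18902074) [(nat_lit 283912), (nat_lit 0), (nat_lit 0), (nat_lit 0)]) (PF.cons (PF.leaf (nat_lit 4043566)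 (nat_lit 296556) (nat_lit 46483291) (nat_lit 18846179) [(nat_lit 296556), (nat_lit 0), (nat_lit 0), (nat_lit 0)]) (PF.cons (PF.leaf (nat_lit 4268738) (nat_lit 308211) (nat_lit 46164989) (nat_lit 18786343) [(nat_lit 308211), (nat_lit 0),
 (nat_lit 0), (nat_lit 0)]) (PF.cons (PF.leaf (nat_lit 4503760) (nat_lit 318994) (nat_lit 45834093) (nat_lit 18722762) [(nat_lit 318994), (nat_lit 0), (nat_lit 0), (nat_lit 0)]) (PF.cons PF.nil PF.nil)))))))))) (PF.cons (PF.cons (PF.leaf (nat_lit 3470896) (nat_lit 1123190) (nat_lit 47040605) (nat_lit 18945016) [(nat_lit 0), (nat_lit 1123190), (nat_lit 0), (nat_lit 0)]) (PF.cons (PF.leaf (nat_lit 3638370) (nat_lit 265588) (nat_lit 46794388) (nat_lit 18900597) [(nat_lit 265588), (nat_lit 1148239), (nat_lit 0), (nat_lit 0)]) (PF.cons (PF.leaf (nat_lit 3824368) (nat_lit 280062) (nat_lit 46524780) (nat_lit 18851044) [(nat_lit 280062), (nat_lit 1172862), (nat_lit 0), (nat_lit 0)]) (PF.cons (PF.leaf (nat_lit 4024827) (nat_lit 293173)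 (nat_lit 46235751) (nat_lit 18796876) [(nat_lit 293173), (nat_lit 1196663), (nat_lit 0), (nat_lit 0)]) (PF.cons (PF.leaf (nat_lit 4237966) (nat_lit 305163) (nat_lit 45930258) (nat_lit 18738461) [(nat_lit 305163), (nat_lit 1219440), (nat_lit 0), (nat_lit 0)]) (PF.cons (PF.leaf (nat_lit 4462142) (nat_lit 316196) (nat_lit 45610648) (nat_lit 18676086) [(nat_lit 316196), (nat_lit 1241093), (nat_lit 0), (nat_lit 0)]) (PF.cons (PF.leaf (nat_lit 4696140) (nat_lit
 326396) (nat_lit 45278861) (nat_lit 18609988) [(nat_lit 326396), (nat_lit 1261584), (nat_lit 0), (nat_lit 0)]) (PF.cons PF.nil (PF.cons PF.nil PF.nil))))))))) (PF.cons (PF.cons (PF.leaf (nat_lit 4024794) (nat_lit 1202925) (nat_lit 45961337) (nat_lit 18741623) [(nat_lit 0), (nat_lit 1202925), (nat_lit 0), (nat_lit 0)]) (PF.cons (PF.leaf (nat_lit 4221446) (nat_lit 301094) (nat_lit 45674071) (nat_lit 18685695) [(nat_lit 301094), (nat_lit 1223975), (nat_lit 0), (nat_lit 0)]) (PF.cons (PF.leaf (nat_lit 4432456) (nat_lit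 312619) (nat_lit 45369636) (nat_lit 18625306) [(nat_lit 312619), (nat_lit 1244315), (nat_lit 0), (nat_lit 0)]) (PF.cons (PF.leaf (nat_lit 4654833) (nat_lit 323178) (nat_lit 45050869) (nat_lit 18560854) [(nat_lit 323178), (nat_lit 1263777), (nat_lit 0), (nat_lit 0)]) (PF.cons (PF.leaf (nat_lit 4887175) (nat_lit 332907) (nat_lit 44719979) (nat_lit 18492648) [(nat_lit 332907), (nat_lit 1282277), (nat_lit 0), (nat_lit 0)]) (PF.cons (PF.leaf (nat_lit 5128296) (nat_lit 341908) (nat_lit 44378775) (nat_lit 18420942) [(nat_lit 341908), (nat_lit 1299775), (nat_lit 0), (nat_lit 0)]) (PF.cons PF.nil PF.nil))))))) (PF.cons (PF.cons (PF.leaf (nat_lit 4628756) (nat_lit 1266639)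
 (nat_lit 44802078) (nat_lit 18506816) [(nat_lit 0), (nat_lit 1266639), (nat_lit 0), (nat_lit 0)]) (PF.cons (PF.leaf (nat_lit 4847455) (nat_lit 329226) (nat_lit 44486421) (nat_lit 18440817) [(nat_lit 329226), (nat_lit 1284115), (nat_lit 0), (nat_lit 0)]) (PF.cons (PF.leaf (nat_lit 5077371) (nat_lit 338594) (nat_lit 44158243) (nat_lit 18370949) [(nat_lit 338594), (nat_lit 1300810), (nat_lit 0), (nat_lit 0)]) (PF.cons (PF.leaf (nat_lit 5316273) (nat_lit 347225) (nat_lit 43819640) (nat_lit 18297541) [(nat_lit 347225), (nat_lit 1316652), (nat_lit 0), (nat_lit 0)]) (PF.cons (PF.leaf (nat_lit 5563031) (nat_lit 355206) (nat_lit 43472305) (nat_lit 18220861) [(nat_lit 355206), (nat_lit 1331607), (nat_lit 0), (nat_lit 0)]) PF.nil))))) (PF.cons (PF.cons (PF.leaf (nat_lit 5268067) (nat_lit 1317418) (nat_lit 43594103) (nat_lit 18245036) [(nat_lit 0), (nat_lit 1317418), (nat_lit 0), (nat_lit 0)]) (PF.cons (PF.leaf (nat_lit 5503265) (nat_lit 351842) (nat_lit 43259664) (nat_lit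 18170358) [(nat_lit 351842), (nat_lit 1331737), (nat_lit 0), (nat_lit 0)]) (PF.cons (PF.leaf (nat_lit 5747339) (nat_lit 359523) (nat_lit 42916262) (nat_lit 18092361) [(nat_lit 359523), (nat_lit 1345285), (nat_lit 0),
 (nat_lit 0)]) (PF.cons PF.nil PF.nil)))) (PF.cons (PF.cons (PF.leaf (nat_lit 5931311) (nat_lit 1357445) (nat_lit 42360965) (nat_lit 17960618) [(nat_lit 0), (nat_lit 1357445), (nat_lit 0), (nat_lit 0)]) (PF.cons (PF.leaf (nat_lit 6178703) (nat_lit 370084) (nat_lit 42015171) (nat_lit 17878626) [(nat_lit 370084), (nat_lit 1368986), (nat_lit 0), (nat_lit 0)]) PF.nil)) (PF.cons PF.nil (PF.cons PF.nil PF.nil)))))))) (PF.cons (PF.cons (PF.cons (PF.leaf (nat_lit 3972531) (nat_lit 2953580) (nat_lit 45515171) (nat_lit 18640060) [(nat_lit 0), (nat_lit 0), (nat_lit 2953580), (nat_lit 0)]) (PF.cons (PF.leaf (nat_lit 4147917) (nat_lit 284377) (nat_lit 45260908) (nat_lit 18589334) [(nat_lit 284377), (nat_lit 0), (nat_lit 2974192), (nat_lit 0)]) (PF.cons (PF.leaf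 (nat_lit 4341044) (nat_lit 298006) (nat_lit 44984521) (nat_lit 18533296) [(nat_lit 298006), (nat_lit 0), (nat_lit 2994982), (nat_lit 0)]) (PF.cons (PF.leaf (nat_lit 4547800) (nat_lit 310181) (nat_lit 44690202) (nat_lit 18472608) [(nat_lit 310181), (nat_lit 0), (nat_lit 3015457), (nat_lit 0)]) (PF.cons (PF.leaf (nat_lit 4766325) (nat_lit 321193) (nat_lit 44381011) (nat_lit 18407738) [(nat_lit 321193), (nat_lit 0), (nat_lit 3035289),
 (nat_lit 0)]) (PF.cons (PF.leaf (nat_lit 4994966) (nat_lit 331235) (nat_lit 44059322) (nat_lit 18339049) [(nat_lit 331235), (nat_lit 0), (nat_lit 3054261), (nat_lit 0)]) (PF.cons (PF.leaf (nat_lit 5232513) (nat_lit 340448) (nat_lit 43727060) (nat_lit 18266834) [(nat_lit 340448), (nat_lit 0), (nat_lit 3072225), (nat_lit 0)]) (PF.cons PF.nil (PF.cons PF.nil PF.nil))))))))) (PF.cons (PF.cons (PF.leaf (nat_lit 4538542) (nat_lit 1250368) (nat_lit 44421271) (nat_lit 18413459) [(nat_lit 0), (nat_lit 1250368), (nat_lit 3023714), (nat_lit 0)])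 (PF.cons (PF.leaf (nat_lit 4740571) (nat_lit 316279) (nat_lit 44131190) (nat_lit 18351691) [(nat_lit 316279), (nat_lit 1268159), (nat_lit 3041490), (nat_lit 0)]) (PF.cons (PF.leaf (nat_lit 4956029) (nat_lit 326960) (nat_lit 43825332) (nat_lit 18285501) [(nat_lit 326960), (nat_lit 1285260), (nat_lit 3058796), (nat_lit 0)]) (PF.cons (PF.leaf (nat_lit 5182131) (nat_lit 336646) (nat_lit 43506571) (nat_lit 18215371) [(nat_lit 336646), (nat_lit 1301545), (nat_lit 3075385), (nat_lit 0)]) (PF.cons (PF.leaf (nat_lit 5417334) (nat_lit 345495) (nat_lit 43177115) (nat_lit 18141668) [(nat_lit 345495), (nat_lit 1316952), (nat_lit 3091093), (nat_lit 0)]) (PF.cons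
 (PF.leaf (nat_lit 5660498) (nat_lit 353622) (nat_lit 42838738) (nat_lit 18064693) [(nat_lit 353622), (nat_lit 1331458), (nat_lit 3105812), (nat_lit 0)]) (PF.cons PF.nil PF.nil))))))) (PF.cons (PF.cons (PF.leaf (nat_lit 5147420) (nat_lit 1302566) (nat_lit 43265672) (nat_lit 18158812) [(nat_lit 0), (nat_lit 1302566), (nat_lit 3079194), (nat_lit 0)]) (PF.cons (PF.leaf (nat_lit 5369137) (nat_lit 341268) (nat_lit 42951784) (nat_lit 18087757) [(nat_lit 341268), (nat_lit 1317216), (nat_lit 3093567), (nat_lit 0)]) (PF.cons (PF.leaf (nat_lit 5601288) (nat_lit 349848) (nat_lit 42626661) (nat_lit 18012997) [(nat_lit 349848), (nat_lit 1331135), (nat_lit 3107186), (nat_lit 0)]) (PF.cons (PF.leaf (nat_lit 5841681) (nat_lit 357687) (nat_lit 42292368) (nat_lit 17934907) [(nat_lit 357687), (nat_lit 1344273), (nat_lit 3119928), (nat_lit 0)]) (PF.cons PF.nil PF.nil))))) (PF.cons (PF.cons (PF.leaf (nat_lit 5785711) (nat_lit 1343766) (nat_lit 42075861) (nat_lit 17880925) [(nat_lit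 0), (nat_lit 1343766), (nat_lit 3120728), (nat_lit 0)]) (PF.cons (PF.leaf (nat_lit 6021970) (nat_lit 361154) (nat_lit 41746982) (nat_lit 17802132) [(nat_lit 361154), (nat_lit 1355635), (nat_lit 3131635), (nat_lit 0)])
 (PF.cons (PF.leaf (nat_lit 6266336) (nat_lit 368120) (nat_lit 41410245) (nat_lit 17720249) [(nat_lit 368120), (nat_lit 1366797), (nat_lit 3141684), (nat_lit 0)]) (PF.cons PF.nil PF.nil)))) (PF.cons (PF.cons (PF.leaf (nat_lit 6443149) (nat_lit 1375744) (nat_lit 40872091) (nat_lit 17584193) [(nat_lit 0), (nat_lit 1375744), (nat_lit 3149551), (nat_lit 0)]) (PF.cons PF.nil PF.nil)) (PF.cons PF.nil PF.nil)))))) (PF.cons (PF.cons (PF.cons (PF.leaf (nat_lit 5043807) (nat_lit 3065556) (nat_lit 42911747) (nat_lit 18065952) [(nat_lit 0), (nat_lit 0), (nat_lit 3065556), (nat_lit 0)]) (PF.cons (PF.leaf (nat_lit 5249508) (nat_lit 328422) (nat_lit 42622552) (nat_lit 17999540) [(nat_lit 328422), (nat_lit 0), (nat_lit 3079148), (nat_lit 0)]) (PF.cons (PF.leaf (nat_lit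 5467896) (nat_lit 338353) (nat_lit 42318841) (nat_lit 17928796) [(nat_lit 338353), (nat_lit 0), (nat_lit 3092233), (nat_lit 0)]) (PF.cons (PF.leaf (nat_lit 5696157) (nat_lit 347272) (nat_lit 42003483) (nat_lit 17854270) [(nat_lit 347272), (nat_lit 0), (nat_lit 3104621), (nat_lit 0)]) (PF.cons (PF.leaf (nat_lit 5932828) (nat_lit 355351) (nat_lit 41678650) (nat_lit 17776374) [(nat_lit 355351), (nat_lit 0), (nat_lit 3116189), (nat_lit
 0)]) (PF.cons PF.nil (PF.cons PF.nil PF.nil))))))) (PF.cons (PF.cons (PF.leaf (nat_lit 5653756) (nat_lit 1328990) (nat_lit 41771907) (nat_lit 17796172) [(nat_lit 0), (nat_lit 1328990), (nat_lit 3105871), (nat_lit 0)]) (PF.cons (PF.leaf (nat_lit 5877159) (nat_lit 350721) (nat_lit 41462668) (nat_lit 17721273) [(nat_lit 350721), (nat_lit 1341276), (nat_lit 3116436), (nat_lit 0)]) (PF.cons (PF.leaf (nat_lit 6110298) (nat_lit 358605) (nat_lit 41143311) (nat_lit 17642852) [(nat_lit 358605), (nat_lit 1352873), (nat_lit 3126282), (nat_lit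 0)]) (PF.cons (PF.leaf (nat_lit 6351029) (nat_lit 365750) (nat_lit 40815855) (nat_lit 17561320) [(nat_lit 365750), (nat_lit 1363745), (nat_lit 3135320), (nat_lit 0)]) (PF.cons PF.nil PF.nil))))) (PF.cons (PF.cons (PF.leaf (nat_lit 6288211) (nat_lit 1362261) (nat_lit 40609093) (nat_lit 17506636) [(nat_lit 0), (nat_lit 1362261), (nat_lit 3134279), (nat_lit 0)]) (PF.cons (PF.leaf (nat_lit 6524426) (nat_lit 368263) (nat_lit 40287908) (nat_lit 17424892) [(nat_lit 368263), (nat_lit 1372069), (nat_lit 3141804), (nat_lit 0)]) (PF.cons PF.nil (PF.cons PF.nil PF.nil)))) (PF.cons (PF.cons (PF.leaf (nat_lit 6937859) (nat_lit 1387529) (nat_lit 39440838) (nat_lit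
 17201668) [(nat_lit 0), (nat_lit 1387529), (nat_lit 3151858), (nat_lit 0)]) (PF.cons PF.nil PF.nil)) (PF.cons PF.nil PF.nil))))) (PF.cons (PF.cons (PF.cons (PF.leaf (nat_lit 6146659) (nat_lit 3118799) (nat_lit 40328287) (nat_lit 17424128) [(nat_lit 0), (nat_lit 0), (nat_lit 3118799), (nat_lit 0)]) (PF.cons (PF.leaf (nat_lit 6370643) (nat_lit 358029) (nat_lit 40025751) (nat_lit 17346448) [(nat_lit 358029), (nat_lit 0), (nat_lit 3126194), (nat_lit 0)]) (PF.cons (PF.leaf (nat_lit 6603779) (nat_lit 365293) (nat_lit 39714073) (nat_lit 17265439) [(nat_lit 365293), (nat_lit 0), (nat_lit 3132904), (nat_lit 0)]) (PF.cons PF.nil PF.nil)))) (PF.cons (PF.cons (PF.leaf (nat_lit 6775075) (nat_lit 1374351) (nat_lit 39198500) (nat_lit 17126773) [(nat_lit 0), (nat_lit 1374351), (nat_lit 3136395), (nat_lit 0)]) (PF.cons (PF.leaf (nat_lit 7010459) (nat_lit 373539) (nat_lit 38886472) (nat_lit 17043074) [(nat_lit 373539), (nat_lit 1382407), (nat_lit 3141106), (nat_lit 0)]) PF.nil))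 (PF.cons PF.nil PF.nil))) (PF.cons (PF.cons (PF.cons (PF.leaf (nat_lit 7246167) (nat_lit 3129290) (nat_lit 37846544) (nat_lit 16745108) [(nat_lit 0), (nat_lit 0), (nat_lit 3129290), (nat_lit 0)]) (PF.cons PF.nil PF.nil))
 (PF.cons PF.nil PF.nil)) (PF.cons PF.nil PF.nil)))))) (PF.cons (PF.cons (PF.cons (PF.cons (PF.leaf (nat_lit 4906043) (nat_lit 8523761) (nat_lit 41061831) (nat_lit 17523219) [(nat_lit 0), (nat_lit 0), (nat_lit 0), (nat_lit 8523761)]) (PF.cons (PF.leaf (nat_lit 5080330) (nat_lit 292704) (nat_lit 40832169) (nat_lit 17467755) [(nat_lit 292704), (nat_lit 0), (nat_lit 0), (nat_lit 8516183)]) (PF.cons (PF.leaf (nat_lit 5271257) (nat_lit 305578) (nat_lit 40583453) (nat_lit 17407025) [(nat_lit 305578), (nat_lit 0), (nat_lit 0), (nat_lit 8507176)]) (PF.cons (PF.leaf (nat_lit 5474718) (nat_lit 316884) (nat_lit 40319571) (nat_lit 17341846) [(nat_lit 316884), (nat_lit 0), (nat_lit 0), (nat_lit 8496740)]) (PF.cons (PF.leaf (nat_lit 5688743) (nat_lit 326949)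 (nat_lit 40043336) (nat_lit 17272804) [(nat_lit 326949), (nat_lit 0), (nat_lit 0), (nat_lit 8484871)]) (PF.cons (PF.leaf (nat_lit 5911832) (nat_lit 335996) (nat_lit 39756912) (nat_lit 17200345) [(nat_lit 335996), (nat_lit 0), (nat_lit 0), (nat_lit 8471573)]) (PF.cons (PF.leaf (nat_lit 6142658) (nat_lit 344183) (nat_lit 39462029) (nat_lit 17124828) [(nat_lit 344183), (nat_lit 0), (nat_lit 0), (nat_lit 8456853)]) (PF.cons PF.nil (PF.cons
 PF.nil PF.nil))))))))) (PF.cons (PF.cons (PF.leaf (nat_lit 5455162) (nat_lit 1262030) (nat_lit 40083839) (nat_lit 17280525) [(nat_lit 0), (nat_lit 1262030), (nat_lit 0), (nat_lit 8482417)]) (PF.cons (PF.leaf (nat_lit 5653102) (nat_lit 321239) (nat_lit 39825232) (nat_lit 17215251) [(nat_lit 321239), (nat_lit 1276458), (nat_lit 0), (nat_lit 8470630)]) (PF.cons (PF.leaf (nat_lit 5863354) (nat_lit 331032) (nat_lit 39553390) (nat_lit 17145865) [(nat_lit 331032), (nat_lit 1290122), (nat_lit 0), (nat_lit 8457369)]) (PF.cons (PF.leaf (nat_lit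 6083136) (nat_lit 339782) (nat_lit 39270912) (nat_lit 17072935) [(nat_lit 339782), (nat_lit 1302950), (nat_lit 0), (nat_lit 8442667)]) (PF.cons (PF.leaf (nat_lit 6311009) (nat_lit 347668) (nat_lit 38979777) (nat_lit 16996891) [(nat_lit 347668), (nat_lit 1314917), (nat_lit 0), (nat_lit 8426552)]) (PF.cons (PF.leaf (nat_lit 6545821) (nat_lit 354819) (nat_lit 38681554) (nat_lit 16918078) [(nat_lit 354819), (nat_lit 1326029), (nat_lit 0), (nat_lit 8409054)]) (PF.cons PF.nil PF.nil))))))) (PF.cons (PF.cons (PF.leaf (nat_lit 6039309) (nat_lit 1301842) (nat_lit 39061927) (nat_lit 17016023) [(nat_lit 0), (nat_lit 1301842), (nat_lit 0), (nat_lit 8427176)])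
 (PF.cons (PF.leaf (nat_lit 6254184) (nat_lit 342892) (nat_lit 38784921) (nat_lit 16943088) [(nat_lit 342892), (nat_lit 1313322), (nat_lit 0), (nat_lit 8411264)]) (PF.cons (PF.leaf (nat_lit 6478501) (nat_lit 350568) (nat_lit 38498699) (nat_lit 16866892) [(nat_lit 350568), (nat_lit 1324078), (nat_lit 0), (nat_lit 8393927)]) (PF.cons (PF.leaf (nat_lit 6710105) (nat_lit 357492) (nat_lit 38205088) (nat_lit 16787853) [(nat_lit 357492), (nat_lit 1334087), (nat_lit 0), (nat_lit 8375216)]) (PF.cons PF.nil PF.nil))))) (PF.cons (PF.cons (PF.leaf (nat_lit 6646482) (nat_lit 1332045) (nat_lit 38018729) (nat_lit 16734871) [(nat_lit 0), (nat_lit 1332045), (nat_lit 0), (nat_lit 8359073)]) (PF.cons (PF.leaf (nat_lit 6873573) (nat_lit 359667) (nat_lit 37730744) (nat_lit 16655957) [(nat_lit 359667), (nat_lit 1341041), (nat_lit 0), (nat_lit 8339318)]) (PF.cons (PF.leaf (nat_lit 7107977) (nat_lit 365775) (nat_lit 37436441) (nat_lit 16574447) [(nat_lit 365775), (nat_lit 1349377), (nat_lit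 0), (nat_lit 8318240)]) (PF.cons PF.nil PF.nil)))) (PF.cons (PF.cons (PF.leaf (nat_lit 7267891) (nat_lit 1354466) (nat_lit 36970197) (nat_lit 16441258) [(nat_lit 0), (nat_lit 1354466), (nat_lit 0), (nat_lit 8279490)])
 (PF.cons PF.nil PF.nil)) (PF.cons PF.nil PF.nil)))))) (PF.cons (PF.cons (PF.cons (PF.leaf (nat_lit 5922482) (nat_lit 3022372) (nat_lit 38765566) (nat_lit 16927459) [(nat_lit 0), (nat_lit 0), (nat_lit 3022372), (nat_lit 8393414)]) (PF.cons (PF.leaf (nat_lit 6122433) (nat_lit 329872) (nat_lit 38510262) (nat_lit 16859636) [(nat_lit 329872), (nat_lit 0), (nat_lit 3030684), (nat_lit 8378357)]) (PF.cons (PF.leaf (nat_lit 6334077) (nat_lit 338978) (nat_lit 38242763) (nat_lit 16787851) [(nat_lit 338978), (nat_lit 0), (nat_lit 3038441), (nat_lit 8361799)]) (PF.cons (PF.leaf (nat_lit 6554631) (nat_lit 347045) (nat_lit 37965624) (nat_lit 16712706) [(nat_lit 347045), (nat_lit 0), (nat_lit 3045527), (nat_lit 8343818)]) (PF.cons (PF.leaf (nat_lit 6782668) (nat_lit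 354260) (nat_lit 37680764) (nat_lit 16634652) [(nat_lit 354260), (nat_lit 0), (nat_lit 3051873), (nat_lit 8324478)]) (PF.cons PF.nil (PF.cons PF.nil PF.nil))))))) (PF.cons (PF.cons (PF.leaf (nat_lit 6504494) (nat_lit 1316800) (nat_lit 37765969) (nat_lit 16655775) [(nat_lit 0), (nat_lit 1316800), (nat_lit 3043666), (nat_lit 8326600)]) (PF.cons (PF.leaf (nat_lit 6719833) (nat_lit 349240) (nat_lit 37495025) (nat_lit 16581017) [(nat_lit
 349240), (nat_lit 1326405), (nat_lit 3049414), (nat_lit 8307709)]) (PF.cons (PF.leaf (nat_lit 6944023) (nat_lit 356312) (nat_lit 37215730) (nat_lit 16503182) [(nat_lit 356312), (nat_lit 1335336), (nat_lit 3054500), (nat_lit 8287436)]) (PF.cons (PF.leaf (nat_lit 7174965) (nat_lit 362645) (nat_lit 36929851) (nat_lit 16422706) [(nat_lit 362645), (nat_lit 1343583), (nat_lit 3058876), (nat_lit 8265858)]) (PF.cons PF.nil PF.nil))))) (PF.cons (PF.cons (PF.leaf (nat_lit 7105904) (nat_lit 1340928) (nat_lit 36752623) (nat_lit 16370169) [(nat_lit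 0), (nat_lit 1340928), (nat_lit 3055622), (nat_lit 8248540)]) (PF.cons (PF.leaf (nat_lit 7332146) (nat_lit 364094) (nat_lit 36472823) (nat_lit 16290145) [(nat_lit 364094), (nat_lit 1348325), (nat_lit 3058909), (nat_lit 8226188)]) (PF.cons PF.nil (PF.cons PF.nil PF.nil)))) (PF.cons (PF.cons (PF.leaf (nat_lit 7718696) (nat_lit 1358301) (nat_lit 35739363) (nat_lit 16074579) [(nat_lit 0), (nat_lit 1358301), (nat_lit 3059297), (nat_lit 8160665)]) (PF.cons PF.nil PF.nil)) (PF.cons PF.nil PF.nil))))) (PF.cons (PF.cons (PF.cons (PF.leaf (nat_lit 6956831) (nat_lit 3039389) (nat_lit 36519478) (nat_lit 16294380) [(nat_lit 0), (nat_lit 0), (nat_lit 3039389),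
 (nat_lit 8216175)]) (PF.cons (PF.leaf (nat_lit 7171868) (nat_lit 353989) (nat_lit 36255727) (nat_lit 16218512) [(nat_lit 353989), (nat_lit 0), (nat_lit 3042858), (nat_lit 8194865)]) (PF.cons (PF.leaf (nat_lit 7395262) (nat_lit 360525) (nat_lit 35984382) (nat_lit 16139750) [(nat_lit 360525), (nat_lit 0), (nat_lit 3045702), (nat_lit 8172224)]) (PF.cons PF.nil PF.nil)))) (PF.cons (PF.cons (PF.leaf (nat_lit 7551112) (nat_lit 1345309) (nat_lit 35538963) (nat_lit 16006785) [(nat_lit 0), (nat_lit 1345309), (nat_lit 3043766), (nat_lit 8130221)]) (PF.cons (PF.leaf (nat_lit 7775926) (nat_lit 367177) (nat_lit 35268071) (nat_lit 15926291) [(nat_lit 367177), (nat_lit 1351348), (nat_lit 3045059), (nat_lit 8105805)]) PF.nil)) (PF.cons PF.nil PF.nil))) (PF.cons (PF.cons (PF.cons (PF.leaf (nat_lit 7982268) (nat_lit 3025912) (nat_lit 34377971) (nat_lit 15646886) [(nat_lit 0), (nat_lit 0), (nat_lit 3025912), (nat_lit 8006218)]) (PF.cons PF.nil PF.nil)) (PF.cons PF.nil PF.nil))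 (PF.cons PF.nil PF.nil))))) (PF.cons (PF.cons (PF.cons (PF.cons (PF.leaf (nat_lit 6704409) (nat_lit 8013333) (nat_lit 35231878) (nat_lit 15850267) [(nat_lit 0), (nat_lit 0), (nat_lit 0), (nat_lit 8013333)]) (PF.cons (PF.leaf
 (nat_lit 6897703) (nat_lit 326947) (nat_lit 35007699) (nat_lit 15784350) [(nat_lit 326947), (nat_lit 0), (nat_lit 0), (nat_lit 7994907)]) (PF.cons (PF.leaf (nat_lit 7101920) (nat_lit 335352) (nat_lit 34773167) (nat_lit 15714851) [(nat_lit 335352), (nat_lit 0), (nat_lit 0), (nat_lit 7975044)]) (PF.cons (PF.leaf (nat_lit 7314277) (nat_lit 342718) (nat_lit 34530531) (nat_lit 15642375) [(nat_lit 342718), (nat_lit 0), (nat_lit 0), (nat_lit 7953875)]) (PF.cons (PF.leaf (nat_lit 7533397) (nat_lit 349239) (nat_lit 34281468) (nat_lit 15567375) [(nat_lit 349239), (nat_lit 0), (nat_lit 0), (nat_lit 7931505)]) PF.nil))))) (PF.cons (PF.cons (PF.leaf (nat_lit 7258971) (nat_lit 1290962) (nat_lit 34358656) (nat_lit 15588689) [(nat_lit 0), (nat_lit 1290962),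 (nat_lit 0), (nat_lit 7935252)]) (PF.cons (PF.leaf (nat_lit 7465930) (nat_lit 344040) (nat_lit 34121854) (nat_lit 15517009) [(nat_lit 344040), (nat_lit 1298645), (nat_lit 0), (nat_lit 7913631)]) (PF.cons (PF.leaf (nat_lit 7681079) (nat_lit 350461) (nat_lit 33878033) (nat_lit 15442633) [(nat_lit 350461), (nat_lit 1305681), (nat_lit 0), (nat_lit 7890770)]) (PF.cons PF.nil PF.nil)))) (PF.cons (PF.cons (PF.leaf (nat_lit 7829454) (nat_lit 1308761)
 (nat_lit 33476677) (nat_lit 15317022) [(nat_lit 0), (nat_lit 1308761), (nat_lit 0), (nat_lit 7848795)]) (PF.cons (PF.leaf (nat_lit 8045936) (nat_lit 356879) (nat_lit 33232956) (nat_lit 15241172) [(nat_lit 356879), (nat_lit 1314468), (nat_lit 0), (nat_lit 7824434)]) PF.nil)) (PF.cons PF.nil (PF.cons PF.nil PF.nil))))) (PF.cons (PF.cons (PF.cons (PF.leaf (nat_lit 7676644) (nat_lit 2941887) (nat_lit 33282282) (nat_lit 15248927) [(nat_lit 0), (nat_lit 0), (nat_lit 2941887), (nat_lit 7817857)]) (PF.cons (PF.leaf (nat_lit 7882812)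 (nat_lit 347081) (nat_lit 33052313) (nat_lit 15177074) [(nat_lit 347081), (nat_lit 0), (nat_lit 2942857), (nat_lit 7794743)]) (PF.cons (PF.leaf (nat_lit 8096744) (nat_lit 353032) (nat_lit 32815920) (nat_lit 15102684) [(nat_lit 353032), (nat_lit 0), (nat_lit 2943258), (nat_lit 7770442)]) (PF.cons PF.nil PF.nil)))) (PF.cons (PF.cons (PF.leaf (nat_lit 8239684) (nat_lit 1308327) (nat_lit 32430373) (nat_lit 14978393) [(nat_lit 0), (nat_lit 1308327), (nat_lit 2938108), (nat_lit 7726805)]) (PF.cons PF.nil PF.nil)) (PF.cons PF.nil PF.nil))) (PF.cons (PF.cons (PF.cons (PF.leaf (nat_lit 8637473) (nat_lit 2914399) (nat_lit 31429699) (nat_lit 14645683) [(nat_lit 0),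
 (nat_lit 0), (nat_lit 2914399), (nat_lit 7602315)]) (PF.cons PF.nil PF.nil)) (PF.cons PF.nil PF.nil)) PF.nil))) (PF.cons (PF.cons (PF.cons (PF.cons (PF.leaf (nat_lit 8324079) (nat_lit 7431887) (nat_lit 30516810) (nat_lit 14296340) [(nat_lit 0), (nat_lit 0), (nat_lit 0), (nat_lit 7431887)]) (PF.cons (PF.leaf (nat_lit 8521767) (nat_lit 338650) (nat_lit 30315631) (nat_lit 14229360) [(nat_lit 338650), (nat_lit 0), (nat_lit 0), (nat_lit 7408389)]) (PF.cons PF.nil PF.nil))) (PF.cons (PF.cons (PF.leaf (nat_lit 8858806) (nat_lit 1267781) (nat_lit 29773726) (nat_lit 14045443) [(nat_lit 0), (nat_lit 1267781), (nat_lit 0), (nat_lit 7340620)]) PF.nil) PF.nil)) (PF.cons PF.nil PF.nil)) (PF.cons PF.nil (PF.cons PF.nil (PF.cons PF.nil (PF.cons PF.nil PF.nil))))))))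

def p13_11_3_0 : pfC (piC [(nat_lit 41351667), (nat_lit 26310893), (nat_lit 19519284), (nat_lit 13318063)] (nat_lit 5158383)) p13_11_3 (nat_lit 4) (nat_lit 0) (nat_lit 1) = true := by decide +kernel
def p13_11_3_1 : pfC (piC [(nat_lit 41351667), (nat_lit 26310893), (nat_lit 19519284), (nat_lit 13318063)] (nat_lit 5158383)) p13_11_3 (nat_lit 4) (nat_lit 1) (nat_lit 2) = true := by decide +kernel
def p13_11_3_2 : pfC (piC [(nat_lit 41351667), (nat_lit 26310893), (nat_lit 19519284), (nat_lit 13318063)] (nat_lit 5158383)) p13_11_3 (nat_lit 4) (nat_lit 2) (nat_lit 3) = true := by decide +kernel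
def p13_11_3_3 : pfC (piC [(nat_lit 41351667), (nat_lit 26310893), (nat_lit 19519284), (nat_lit 13318063)] (nat_lit 5158383)) p13_11_3 (nat_lit 4) (nat_lit 3) (nat_lit 4) = true := by decide +kernel
def p13_11_3_4 : pfC (piC [(nat_lit 41351667), (nat_lit 26310893), (nat_lit 19519284), (nat_lit 13318063)] (nat_lit 5158383)) p13_11_3 (nat_lit 4) (nat_lit 4) (nat_lit 5) = true := by decide +kernel
def p13_11_3_5 : pfC (piC [(nat_lit 41351667), (nat_lit 26310893), (nat_lit 19519284), (nat_lit 13318063)] (nat_lit 5158383)) p13_11_3 (nat_lit 4) (nat_lit 5) (nat_lit 6) = true := by decide +kernel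
def p13_11_3_6 : pfC (piC [(nat_lit 41351667), (nat_lit 26310893), (nat_lit 19519284), (nat_lit 13318063)] (nat_lit 5158383)) p13_11_3 (nat_lit 4) (nat_lit 6) (nat_lit 7) = true := by decide +kernel
def p13_11_3_7 : pfC (piC [(nat_lit 41351667), (nat_lit 26310893), (nat_lit 19519284), (nat_lit 13318063)] (nat_lit 5158383)) p13_11_3 (nat_lit 4) (nat_lit 7) (nat_lit 8) = true := by decide +kernel
def p13_11_3_8 : pfC (piC [(nat_lit 41351667), (nat_lit 26310893), (nat_lit 19519284), (nat_lit 13318063)] (nat_lit 5158383)) p13_11_3 (nat_lit 4) (nat_lit 8) (nat_lit 9) = true := by decide +kernel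
def p13_11_3_9 : pfC (piC [(nat_lit 41351667), (nat_lit 26310893), (nat_lit 19519284), (nat_lit 13318063)] (nat_lit 5158383)) p13_11_3 (nat_lit 4) (nat_lit 9) (nat_lit 10) = true := by decide +kernel
def p13_11_3_10 : pfC (piC [(nat_lit 41351667), (nat_lit 26310893), (nat_lit 19519284), (nat_lit 13318063)] (nat_lit 5158383)) p13_11_3 (nat_lit 4) (nat_lit 10) (nat_lit 11) = true := by decide +kernel
def p13_11_3_11 : pfC (piC [(nat_lit 41351667), (nat_lit 26310893), (nat_lit 19519284), (nat_lit 13318063)] (nat_lit 5158383)) p13_11_3 (nat_lit 4) (nat_lit 11) (nat_lit 12) = true := by decide +kernel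
def p13_11_3_12 : pfC (piC [(nat_lit 41351667), (nat_lit 26310893), (nat_lit 19519284), (nat_lit 13318063)] (nat_lit 5158383)) p13_11_3 (nat_lit 4) (nat_lit 12) (nat_lit 13) = true := by decide +kernel
def p13_11_3_13 : pfC (piC [(nat_lit 41351667), (nat_lit 26310893), (nat_lit 19519284), (nat_lit 13318063)] (nat_lit 5158383)) p13_11_3 (nat_lit 4) (nat_lit 13) (nat_lit 14) = true := by decide +kernel
def p13_11_3_14 : pfC (piC [(nat_lit 41351667), (nat_lit 26310893), (nat_lit 19519284), (nat_lit 13318063)] (nat_lit 5158383)) p13_11_3 (nat_lit 4) (nat_lit 14) (nat_lit 15) = true := by decide +kernel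
def p13_11_3_15 : pfC (piC [(nat_lit 41351667), (nat_lit 26310893), (nat_lit 19519284), (nat_lit 13318063)] (nat_lit 5158383)) p13_11_3 (nat_lit 4) (nat_lit 15) (nat_lit 16) = true := by decide +kernel
def p13_11_3_16 : pfC (piC [(nat_lit 41351667), (nat_lit 26310893), (nat_lit 19519284), (nat_lit 13318063)] (nat_lit 5158383)) p13_11_3 (nat_lit 4) (nat_lit 16) (nat_lit 17) = true := by decide +kernel
def p13_11_3_17 : pfC (piC [(nat_lit 41351667), (nat_lit 26310893), (nat_lit 19519284), (nat_lit 13318063)] (nat_lit 5158383)) p13_11_3 (nat_lit 4) (nat_lit 17) (nat_lit 18) = true := by decide +kernel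
def p13_11_3_18 : pfC (piC [(nat_lit 41351667), (nat_lit 26310893), (nat_lit 19519284), (nat_lit 13318063)] (nat_lit 5158383)) p13_11_3 (nat_lit 4) (nat_lit 18) (nat_lit 19) = true := by decide +kernel
def p13_11_3_19 : pfC (piC [(nat_lit 41351667), (nat_lit 26310893), (nat_lit 19519284), (nat_lit 13318063)] (nat_lit 5158383)) p13_11_3 (nat_lit 4) (nat_lit 19) (nat_lit 20) = true := by decide +kernel
def p13_11_3_20 : pfC (piC [(nat_lit 41351667), (nat_lit 26310893), (nat_lit 19519284), (nat_lit 13318063)] (nat_lit 5158383)) p13_11_3 (nat_lit 4) (nat_lit 20) (nat_lit 21) = true := by decide +kernel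
def p13_11_3_21 : pfC (piC [(nat_lit 41351667), (nat_lit 26310893), (nat_lit 19519284), (nat_lit 13318063)] (nat_lit 5158383)) p13_11_3 (nat_lit 4) (nat_lit 21) (nat_lit 22) = true := by decide +kernel
def p13_11_3_22 : pfC (piC [(nat_lit 41351667), (nat_lit 26310893), (nat_lit 19519284), (nat_lit 13318063)] (nat_lit 5158383)) p13_11_3 (nat_lit 4) (nat_lit 22) (nat_lit 23) = true := by decide +kernel
def p13_11_3_23 : pfC (piC [(nat_lit 41351667), (nat_lit 26310893), (nat_lit 19519284), (nat_lit 13318063)] (nat_lit 5158383)) p13_11_3 (nat_lit 4) (nat_lit 23) (nat_lit 24) = true := by decide +kernel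
def p13_11_3_24 : pfC (piC [(nat_lit 41351667), (nat_lit 26310893), (nat_lit 19519284), (nat_lit 13318063)] (nat_lit 5158383)) p13_11_3 (nat_lit 4) (nat_lit 24) (nat_lit 25) = true := by decide +kernel
def p13_11_3_25 : pfC (piC [(nat_lit 41351667), (nat_lit 26310893), (nat_lit 19519284), (nat_lit 13318063)] (nat_lit 5158383)) p13_11_3 (nat_lit 4) (nat_lit 25) (nat_lit 26) = true := by decide +kernel
def p13_11_3_26 : pfC (piC [(nat_lit 41351667), (nat_lit 26310893), (nat_lit 19519284), (nat_lit 13318063)] (nat_lit 5158383)) p13_11_3 (nat_lit 4) (nat_lit 26) (nat_lit 27) = true := by decide +kernel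
def p13_11_3_27 : pfC (piC [(nat_lit 41351667), (nat_lit 26310893), (nat_lit 19519284), (nat_lit 13318063)] (nat_lit 5158383)) p13_11_3 (nat_lit 4) (nat_lit 27) (nat_lit 28) = true := by decide +kernel
def p13_11_3_28 : pfC (piC [(nat_lit 41351667), (nat_lit 26310893), (nat_lit 19519284), (nat_lit 13318063)] (nat_lit 5158383)) p13_11_3 (nat_lit 4) (nat_lit 28) (nat_lit 29) = true := by decide +kernel
def p13_11_3_29 : pfC (piC [(nat_lit 41351667), (nat_lit 26310893), (nat_lit 19519284), (nat_lit 13318063)] (nat_lit 5158383)) p13_11_3 (nat_lit 4) (nat_lit 29) (nat_lit 30) = true := by decide +kernel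
def p13_11_3_30 : pfC (piC [(nat_lit 41351667), (nat_lit 26310893), (nat_lit 19519284), (nat_lit 13318063)] (nat_lit 5158383)) p13_11_3 (nat_lit 4) (nat_lit 30) (nat_lit 31) = true := by decide +kernel
def p13_11_3_31 : pfC (piC [(nat_lit 41351667), (nat_lit 26310893), (nat_lit 19519284), (nat_lit 13318063)] (nat_lit 5158383)) p13_11_3 (nat_lit 4) (nat_lit 31) (nat_lit 32) = true := by decide +kernel
def p13_11_3_32 : pfC (piC [(nat_lit 41351667), (nat_lit 26310893), (nat_lit 19519284), (nat_lit 13318063)] (nat_lit 5158383)) p13_11_3 (nat_lit 4) (nat_lit 32) (nat_lit 33) = true := by decide +kernel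
def p13_11_3_33 : pfC (piC [(nat_lit 41351667), (nat_lit 26310893), (nat_lit 19519284), (nat_lit 13318063)] (nat_lit 5158383)) p13_11_3 (nat_lit 4) (nat_lit 33) (nat_lit 34) = true := by decide +kernel
def p13_11_3_34 : pfC (piC [(nat_lit 41351667), (nat_lit 26310893), (nat_lit 19519284), (nat_lit 13318063)] (nat_lit 5158383)) p13_11_3 (nat_lit 4) (nat_lit 34) (nat_lit 35) = true := by decide +kernel
def p13_11_3_35 : pfC (piC [(nat_lit 41351667), (nat_lit 26310893), (nat_lit 19519284), (nat_lit 13318063)] (nat_lit 5158383)) p13_11_3 (nat_lit 4) (nat_lit 35) (nat_lit 36) = true := by decide +kernel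
def p13_11_3_36 : pfC (piC [(nat_lit 41351667), (nat_lit 26310893), (nat_lit 19519284), (nat_lit 13318063)] (nat_lit 5158383)) p13_11_3 (nat_lit 4) (nat_lit 36) (nat_lit 37) = true := by decide +kernel
def p13_11_3_37 : pfC (piC [(nat_lit 41351667), (nat_lit 26310893), (nat_lit 19519284), (nat_lit 13318063)] (nat_lit 5158383)) p13_11_3 (nat_lit 4) (nat_lit 37) (nat_lit 38) = true := by decide +kernel
def p13_11_3_38 : pfC (piC [(nat_lit 41351667), (nat_lit 26310893), (nat_lit 19519284), (nat_lit 13318063)] (nat_lit 5158383)) p13_11_3 (nat_lit 4) (nat_lit 38) (nat_lit 39) = true := by decide +kernel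
def p13_11_3_39 : pfC (piC [(nat_lit 41351667), (nat_lit 26310893), (nat_lit 19519284), (nat_lit 13318063)] (nat_lit 5158383)) p13_11_3 (nat_lit 4) (nat_lit 39) (nat_lit 40) = true := by decide +kernel
def p13_11_3_40 : pfC (piC [(nat_lit 41351667), (nat_lit 26310893), (nat_lit 19519284), (nat_lit 13318063)] (nat_lit 5158383)) p13_11_3 (nat_lit 4) (nat_lit 40) (nat_lit 41) = true := by decide +kernel
def p13_11_3_41 : pfC (piC [(nat_lit 41351667), (nat_lit 26310893), (nat_lit 19519284), (nat_lit 13318063)] (nat_lit 5158383)) p13_11_3 (nat_lit 4) (nat_lit 41) (nat_lit 42) = true := by decide +kernel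
def p13_11_3_42 : pfC (piC [(nat_lit 41351667), (nat_lit 26310893), (nat_lit 19519284), (nat_lit 13318063)] (nat_lit 5158383)) p13_11_3 (nat_lit 4) (nat_lit 42) (nat_lit 43) = true := by decide +kernel
def p13_11_3_43 : pfC (piC [(nat_lit 41351667), (nat_lit 26310893), (nat_lit 19519284), (nat_lit 13318063)] (nat_lit 5158383)) p13_11_3 (nat_lit 4) (nat_lit 43) (nat_lit 44) = true := by decide +kernel
def p13_11_3_44 : pfC (piC [(nat_lit 41351667), (nat_lit 26310893), (nat_lit 19519284), (nat_lit 13318063)] (nat_lit 5158383)) p13_11_3 (nat_lit 4) (nat_lit 44) (nat_lit 45) = true := by decide +kernel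
def p13_11_3_45 : pfC (piC [(nat_lit 41351667), (nat_lit 26310893), (nat_lit 19519284), (nat_lit 13318063)] (nat_lit 5158383)) p13_11_3 (nat_lit 4) (nat_lit 45) (nat_lit 46) = true := by decide +kernel
def p13_11_3_46 : pfC (piC [(nat_lit 41351667), (nat_lit 26310893), (nat_lit 19519284), (nat_lit 13318063)] (nat_lit 5158383)) p13_11_3 (nat_lit 4) (nat_lit 46) (nat_lit 47) = true := by decide +kernel
def p13_11_3_47 : pfC (piC [(nat_lit 41351667), (nat_lit 26310893), (nat_lit 19519284), (nat_lit 13318063)] (nat_lit 5158383)) p13_11_3 (nat_lit 4) (nat_lit 47) (nat_lit 48) = true := by decide +kernel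
def p13_11_3_48 : pfC (piC [(nat_lit 41351667), (nat_lit 26310893), (nat_lit 19519284), (nat_lit 13318063)] (nat_lit 5158383)) p13_11_3 (nat_lit 4) (nat_lit 48) (nat_lit 49) = true := by decide +kernel
def p13_11_3_49 : pfC (piC [(nat_lit 41351667), (nat_lit 26310893), (nat_lit 19519284), (nat_lit 13318063)] (nat_lit 5158383)) p13_11_3 (nat_lit 4) (nat_lit 49) (nat_lit 50) = true := by decide +kernel
def p13_11_3_50 : pfC (piC [(nat_lit 41351667), (nat_lit 26310893), (nat_lit 19519284), (nat_lit 13318063)] (nat_lit 5158383)) p13_11_3 (nat_lit 4) (nat_lit 50) (nat_lit 51) = true := by decide +kernel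
def p13_11_3_51 : pfC (piC [(nat_lit 41351667), (nat_lit 26310893), (nat_lit 19519284), (nat_lit 13318063)] (nat_lit 5158383)) p13_11_3 (nat_lit 4) (nat_lit 51) (nat_lit 52) = true := by decide +kernel
def p13_11_3_52 : pfC (piC [(nat_lit 41351667), (nat_lit 26310893), (nat_lit 19519284), (nat_lit 13318063)] (nat_lit 5158383)) p13_11_3 (nat_lit 4) (nat_lit 52) (nat_lit 53) = true := by decide +kernel
def p13_11_3_53 : pfC (piC [(nat_lit 41351667), (nat_lit 26310893), (nat_lit 19519284), (nat_lit 13318063)] (nat_lit 5158383)) p13_11_3 (nat_lit 4) (nat_lit 53) (nat_lit 54) = true := by decide +kernel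
def p13_11_3_54 : pfC (piC [(nat_lit 41351667), (nat_lit 26310893), (nat_lit 19519284), (nat_lit 13318063)] (nat_lit 5158383)) p13_11_3 (nat_lit 4) (nat_lit 54) (nat_lit 55) = true := by decide +kernel
def p13_11_3_55 : pfC (piC [(nat_lit 41351667), (nat_lit 26310893), (nat_lit 19519284), (nat_lit 13318063)] (nat_lit 5158383)) p13_11_3 (nat_lit 4) (nat_lit 55) (nat_lit 56) = true := by decide +kernel
def p13_11_3_56 : pfC (piC [(nat_lit 41351667), (nat_lit 26310893), (nat_lit 19519284), (nat_lit 13318063)] (nat_lit 5158383)) p13_11_3 (nat_lit 4) (nat_lit 56) (nat_lit 57) = true := by decide +kernel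
def p13_11_3_57 : pfC (piC [(nat_lit 41351667), (nat_lit 26310893), (nat_lit 19519284), (nat_lit 13318063)] (nat_lit 5158383)) p13_11_3 (nat_lit 4) (nat_lit 57) (nat_lit 58) = true := by decide +kernel
def p13_11_3_58 : pfC (piC [(nat_lit 41351667), (nat_lit 26310893), (nat_lit 19519284), (nat_lit 13318063)] (nat_lit 5158383)) p13_11_3 (nat_lit 4) (nat_lit 58) (nat_lit 59) = true := by decide +kernel
def p13_11_3_59 : pfC (piC [(nat_lit 41351667), (nat_lit 26310893), (nat_lit 19519284), (nat_lit 13318063)] (nat_lit 5158383)) p13_11_3 (nat_lit 4) (nat_lit 59) (nat_lit 60) = true := by decide +kernel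
def p13_11_3_60 : pfC (piC [(nat_lit 41351667), (nat_lit 26310893), (nat_lit 19519284), (nat_lit 13318063)] (nat_lit 5158383)) p13_11_3 (nat_lit 4) (nat_lit 60) (nat_lit 61) = true := by decide +kernel
def p13_11_3_61 : pfC (piC [(nat_lit 41351667), (nat_lit 26310893), (nat_lit 19519284), (nat_lit 13318063)] (nat_lit 5158383)) p13_11_3 (nat_lit 4) (nat_lit 61) (nat_lit 62) = true := by decide +kernel
def p13_11_3_62 : pfC (piC [(nat_lit 41351667), (nat_lit 26310893), (nat_lit 19519284), (nat_lit 13318063)] (nat_lit 5158383)) p13_11_3 (nat_lit 4) (nat_lit 62) (nat_lit 63) = true := by decide +kernel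
def p13_11_3_63 : pfC (piC [(nat_lit 41351667), (nat_lit 26310893), (nat_lit 19519284), (nat_lit 13318063)] (nat_lit 5158383)) p13_11_3 (nat_lit 4) (nat_lit 63) (nat_lit 64) = true := by decide +kernel
def p13_11_3_64 : pfC (piC [(nat_lit 41351667), (nat_lit 26310893), (nat_lit 19519284), (nat_lit 13318063)] (nat_lit 5158383)) p13_11_3 (nat_lit 4) (nat_lit 64) (nat_lit 65) = true := by decide +kernel
def p13_11_3_65 : pfC (piC [(nat_lit 41351667), (nat_lit 26310893), (nat_lit 19519284), (nat_lit 13318063)] (nat_lit 5158383)) p13_11_3 (nat_lit 4) (nat_lit 65) (nat_lit 66) = true := by decide +kernel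
def p13_11_3_66 : pfC (piC [(nat_lit 41351667), (nat_lit 26310893), (nat_lit 19519284), (nat_lit 13318063)] (nat_lit 5158383)) p13_11_3 (nat_lit 4) (nat_lit 66) (nat_lit 67) = true := by decide +kernel
def p13_11_3_67 : pfC (piC [(nat_lit 41351667), (nat_lit 26310893), (nat_lit 19519284), (nat_lit 13318063)] (nat_lit 5158383)) p13_11_3 (nat_lit 4) (nat_lit 67) (nat_lit 68) = true := by decide +kernel
def p13_11_3_68 : pfC (piC [(nat_lit 41351667), (nat_lit 26310893), (nat_lit 19519284), (nat_lit 13318063)] (nat_lit 5158383)) p13_11_3 (nat_lit 4) (nat_lit 68) (nat_lit 69) = true := by decide +kernel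
def p13_11_3_69 : pfC (piC [(nat_lit 41351667), (nat_lit 26310893), (nat_lit 19519284), (nat_lit 13318063)] (nat_lit 5158383)) p13_11_3 (nat_lit 4) (nat_lit 69) (nat_lit 70) = true := by decide +kernel
def p13_11_3_70 : pfC (piC [(nat_lit 41351667), (nat_lit 26310893), (nat_lit 19519284), (nat_lit 13318063)] (nat_lit 5158383)) p13_11_3 (nat_lit 4) (nat_lit 70) (nat_lit 71) = true := by decide +kernel
def p13_11_3_71 : pfC (piC [(nat_lit 41351667), (nat_lit 26310893), (nat_lit 19519284), (nat_lit 13318063)] (nat_lit 5158383)) p13_11_3 (nat_lit 4) (nat_lit 71) (nat_lit 72) = true := by decide +kernel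
def p13_11_3_72 : pfC (piC [(nat_lit 41351667), (nat_lit 26310893), (nat_lit 19519284), (nat_lit 13318063)] (nat_lit 5158383)) p13_11_3 (nat_lit 4) (nat_lit 72) (nat_lit 73) = true := by decide +kernel
def p13_11_3_73 : pfC (piC [(nat_lit 41351667), (nat_lit 26310893), (nat_lit 19519284), (nat_lit 13318063)] (nat_lit 5158383)) p13_11_3 (nat_lit 4) (nat_lit 73) (nat_lit 74) = true := by decide +kernel
def p13_11_3_74 : pfC (piC [(nat_lit 41351667), (nat_lit 26310893), (nat_lit 19519284), (nat_lit 13318063)] (nat_lit 5158383)) p13_11_3 (nat_lit 4) (nat_lit 74) (nat_lit 75) = true := by decide +kernel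
def p13_11_3_75 : pfC (piC [(nat_lit 41351667), (nat_lit 26310893), (nat_lit 19519284), (nat_lit 13318063)] (nat_lit 5158383)) p13_11_3 (nat_lit 4) (nat_lit 75) (nat_lit 76) = true := by decide +kernel
def p13_11_3_76 : pfC (piC [(nat_lit 41351667), (nat_lit 26310893), (nat_lit 19519284), (nat_lit 13318063)] (nat_lit 5158383)) p13_11_3 (nat_lit 4) (nat_lit 76) (nat_lit 77) = true := by decide +kernel
def p13_11_3_77 : pfC (piC [(nat_lit 41351667), (nat_lit 26310893), (nat_lit 19519284), (nat_lit 13318063)] (nat_lit 5158383)) p13_11_3 (nat_lit 4) (nat_lit 77) (nat_lit 78) = true := by decide +kernel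
def p13_11_3_78 : pfC (piC [(nat_lit 41351667), (nat_lit 26310893), (nat_lit 19519284), (nat_lit 13318063)] (nat_lit 5158383)) p13_11_3 (nat_lit 4) (nat_lit 78) (nat_lit 79) = true := by decide +kernel
def p13_11_3_79 : pfC (piC [(nat_lit 41351667), (nat_lit 26310893), (nat_lit 19519284), (nat_lit 13318063)] (nat_lit 5158383)) p13_11_3 (nat_lit 4) (nat_lit 79) (nat_lit 80) = true := by decide +kernel
def p13_11_3_80 : pfC (piC [(nat_lit 41351667), (nat_lit 26310893), (nat_lit 19519284), (nat_lit 13318063)] (nat_lit 5158383)) p13_11_3 (nat_lit 4) (nat_lit 80) (nat_lit 81) = true := by decide +kernel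
def p13_11_3_81 : pfC (piC [(nat_lit 41351667), (nat_lit 26310893), (nat_lit 19519284), (nat_lit 13318063)] (nat_lit 5158383)) p13_11_3 (nat_lit 4) (nat_lit 81) (nat_lit 82) = true := by decide +kernel
def p13_11_3_82 : pfC (piC [(nat_lit 41351667), (nat_lit 26310893), (nat_lit 19519284), (nat_lit 13318063)] (nat_lit 5158383)) p13_11_3 (nat_lit 4) (nat_lit 82) (nat_lit 83) = true := by decide +kernel
def p13_11_3_83 : pfC (piC [(nat_lit 41351667), (nat_lit 26310893), (nat_lit 19519284), (nat_lit 13318063)] (nat_lit 5158383)) p13_11_3 (nat_lit 4) (nat_lit 83) (nat_lit 84) = true := by decide +kernel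
def p13_11_3_84 : pfC (piC [(nat_lit 41351667), (nat_lit 26310893), (nat_lit 19519284), (nat_lit 13318063)] (nat_lit 5158383)) p13_11_3 (nat_lit 4) (nat_lit 84) (nat_lit 85) = true := by decide +kernel
def p13_11_3_85 : pfC (piC [(nat_lit 41351667), (nat_lit 26310893), (nat_lit 19519284), (nat_lit 13318063)] (nat_lit 5158383)) p13_11_3 (nat_lit 4) (nat_lit 85) (nat_lit 86) = true := by decide +kernel
def p13_11_3_86 : pfC (piC [(nat_lit 41351667), (nat_lit 26310893), (nat_lit 19519284), (nat_lit 13318063)] (nat_lit 5158383)) p13_11_3 (nat_lit 4) (nat_lit 86) (nat_lit 87) = true := by decide +kernel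
def p13_11_3_87 : pfC (piC [(nat_lit 41351667), (nat_lit 26310893), (nat_lit 19519284), (nat_lit 13318063)] (nat_lit 5158383)) p13_11_3 (nat_lit 4) (nat_lit 87) (nat_lit 88) = true := by decide +kernel
def p13_11_3_88 : pfC (piC [(nat_lit 41351667), (nat_lit 26310893), (nat_lit 19519284), (nat_lit 13318063)] (nat_lit 5158383)) p13_11_3 (nat_lit 4) (nat_lit 88) (nat_lit 89) = true := by decide +kernel
def p13_11_3_89 : pfC (piC [(nat_lit 41351667), (nat_lit 26310893), (nat_lit 19519284), (nat_lit 13318063)] (nat_lit 5158383)) p13_11_3 (nat_lit 4) (nat_lit 89) (nat_lit 90) = true := by decide +kernel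
def p13_11_3_90 : pfC (piC [(nat_lit 41351667), (nat_lit 26310893), (nat_lit 19519284), (nat_lit 13318063)] (nat_lit 5158383)) p13_11_3 (nat_lit 4) (nat_lit 90) (nat_lit 91) = true := by decide +kernel
def p13_11_3_91 : pfC (piC [(nat_lit 41351667), (nat_lit 26310893), (nat_lit 19519284), (nat_lit 13318063)] (nat_lit 5158383)) p13_11_3 (nat_lit 4) (nat_lit 91) (nat_lit 92) = true := by decide +kernel
def p13_11_3_92 : pfC (piC [(nat_lit 41351667), (nat_lit 26310893), (nat_lit 19519284), (nat_lit 13318063)] (nat_lit 5158383)) p13_11_3 (nat_lit 4) (nat_lit 92) (nat_lit 93) = true := by decide +kernel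
def p13_11_3_93 : pfC (piC [(nat_lit 41351667), (nat_lit 26310893), (nat_lit 19519284), (nat_lit 13318063)] (nat_lit 5158383)) p13_11_3 (nat_lit 4) (nat_lit 93) (nat_lit 94) = true := by decide +kernel
def p13_11_3_94 : pfC (piC [(nat_lit 41351667), (nat_lit 26310893), (nat_lit 19519284), (nat_lit 13318063)] (nat_lit 5158383)) p13_11_3 (nat_lit 4) (nat_lit 94) (nat_lit 95) = true := by decide +kernel
def p13_11_3_95 : pfC (piC [(nat_lit 41351667), (nat_lit 26310893), (nat_lit 19519284), (nat_lit 13318063)] (nat_lit 5158383)) p13_11_3 (nat_lit 4) (nat_lit 95) (nat_lit 96) = true := by decide +kernel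
def p13_11_3_96 : pfC (piC [(nat_lit 41351667), (nat_lit 26310893), (nat_lit 19519284), (nat_lit 13318063)] (nat_lit 5158383)) p13_11_3 (nat_lit 4) (nat_lit 96) (nat_lit 97) = true := by decide +kernel
def p13_11_3_97 : pfC (piC [(nat_lit 41351667), (nat_lit 26310893), (nat_lit 19519284), (nat_lit 13318063)] (nat_lit 5158383)) p13_11_3 (nat_lit 4) (nat_lit 97) (nat_lit 98) = true := by decide +kernel
def p13_11_3_98 : pfC (piC [(nat_lit 41351667), (nat_lit 26310893), (nat_lit 19519284), (nat_lit 13318063)] (nat_lit 5158383)) p13_11_3 (nat_lit 4) (nat_lit 98) (nat_lit 99) = true := by decide +kernel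
def p13_11_3_99 : pfC (piC [(nat_lit 41351667), (nat_lit 26310893), (nat_lit 19519284), (nat_lit 13318063)] (nat_lit 5158383)) p13_11_3 (nat_lit 4) (nat_lit 99) (nat_lit 100) = true := by decide +kernel
def p13_11_3_100 : pfC (piC [(nat_lit 41351667), (nat_lit 26310893), (nat_lit 19519284), (nat_lit 13318063)] (nat_lit 5158383)) p13_11_3 (nat_lit 4) (nat_lit 100) (nat_lit 101) = true := by decide +kernel
def p13_11_3_101 : pfC (piC [(nat_lit 41351667), (nat_lit 26310893), (nat_lit 19519284), (nat_lit 13318063)] (nat_lit 5158383)) p13_11_3 (nat_lit 4) (nat_lit 101) (nat_lit 102) = true := by decide +kernel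
def p13_11_3_102 : pfC (piC [(nat_lit 41351667), (nat_lit 26310893), (nat_lit 19519284), (nat_lit 13318063)] (nat_lit 5158383)) p13_11_3 (nat_lit 4) (nat_lit 102) (nat_lit 103) = true := by decide +kernel
def p13_11_3_103 : pfC (piC [(nat_lit 41351667), (nat_lit 26310893), (nat_lit 19519284), (nat_lit 13318063)] (nat_lit 5158383)) p13_11_3 (nat_lit 4) (nat_lit 103) (nat_lit 104) = true := by decide +kernel
def p13_11_3_104 : pfC (piC [(nat_lit 41351667), (nat_lit 26310893), (nat_lit 19519284), (nat_lit 13318063)] (nat_lit 5158383)) p13_11_3 (nat_lit 4) (nat_lit 104) (nat_lit 105) = true := by decide +kernel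
def p13_11_3_105 : pfC (piC [(nat_lit 41351667), (nat_lit 26310893), (nat_lit 19519284), (nat_lit 13318063)] (nat_lit 5158383)) p13_11_3 (nat_lit 4) (nat_lit 105) (nat_lit 106) = true := by decide +kernel
def p13_11_3_106 : pfC (piC [(nat_lit 41351667), (nat_lit 26310893), (nat_lit 19519284), (nat_lit 13318063)] (nat_lit 5158383)) p13_11_3 (nat_lit 4) (nat_lit 106) (nat_lit 107) = true := by decide +kernel
def p13_11_3_107 : pfC (piC [(nat_lit 41351667), (nat_lit 26310893), (nat_lit 19519284), (nat_lit 13318063)] (nat_lit 5158383)) p13_11_3 (nat_lit 4) (nat_lit 107) (nat_lit 108) = true := by decide +kernel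
def p13_11_3_108 : pfC (piC [(nat_lit 41351667), (nat_lit 26310893), (nat_lit 19519284), (nat_lit 13318063)] (nat_lit 5158383)) p13_11_3 (nat_lit 4) (nat_lit 108) (nat_lit 109) = true := by decide +kernel
def p13_11_3_109 : pfC (piC [(nat_lit 41351667), (nat_lit 26310893), (nat_lit 19519284), (nat_lit 13318063)] (nat_lit 5158383)) p13_11_3 (nat_lit 4) (nat_lit 109) (nat_lit 110) = true := by decide +kernel
def p13_11_3_110 : pfC (piC [(nat_lit 41351667), (nat_lit 26310893), (nat_lit 19519284), (nat_lit 13318063)] (nat_lit 5158383)) p13_11_3 (nat_lit 4) (nat_lit 110) (nat_lit 111) = true := by decide +kernel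
def p13_11_3_111 : pfC (piC [(nat_lit 41351667), (nat_lit 26310893), (nat_lit 19519284), (nat_lit 13318063)] (nat_lit 5158383)) p13_11_3 (nat_lit 4) (nat_lit 111) (nat_lit 112) = true := by decide +kernel
def p13_11_3_112 : pfC (piC [(nat_lit 41351667), (nat_lit 26310893), (nat_lit 19519284), (nat_lit 13318063)] (nat_lit 5158383)) p13_11_3 (nat_lit 4) (nat_lit 112) (nat_lit 113) = true := by decide +kernel
def p13_11_3_113 : pfC (piC [(nat_lit 41351667), (nat_lit 26310893), (nat_lit 19519284), (nat_lit 13318063)] (nat_lit 5158383)) p13_11_3 (nat_lit 4) (nat_lit 113) (nat_lit 114) = true := by decide +kernel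
def p13_11_3_114 : pfC (piC [(nat_lit 41351667), (nat_lit 26310893), (nat_lit 19519284), (nat_lit 13318063)] (nat_lit 5158383)) p13_11_3 (nat_lit 4) (nat_lit 114) (nat_lit 115) = true := by decide +kernel
def p13_11_3_115 : pfC (piC [(nat_lit 41351667), (nat_lit 26310893), (nat_lit 19519284), (nat_lit 13318063)] (nat_lit 5158383)) p13_11_3 (nat_lit 4) (nat_lit 115) (nat_lit 116) = true := by decide +kernel
def p13_11_3_116 : pfC (piC [(nat_lit 41351667), (nat_lit 26310893), (nat_lit 19519284), (nat_lit 13318063)] (nat_lit 5158383)) p13_11_3 (nat_lit 4) (nat_lit 116) (nat_lit 117) = true := by decide +kernel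
def p13_11_3_117 : pfC (piC [(nat_lit 41351667), (nat_lit 26310893), (nat_lit 19519284), (nat_lit 13318063)] (nat_lit 5158383)) p13_11_3 (nat_lit 4) (nat_lit 117) (nat_lit 118) = true := by decide +kernel
def p13_11_3_118 : pfC (piC [(nat_lit 41351667), (nat_lit 26310893), (nat_lit 19519284), (nat_lit 13318063)] (nat_lit 5158383)) p13_11_3 (nat_lit 4) (nat_lit 118) (nat_lit 119) = true := by decide +kernel
def p13_11_3_119 : pfC (piC [(nat_lit 41351667), (nat_lit 26310893), (nat_lit 19519284), (nat_lit 13318063)] (nat_lit 5158383)) p13_11_3 (nat_lit 4) (nat_lit 119) (nat_lit 120) = true := by decide +kernel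
def p13_11_3_120 : pfC (piC [(nat_lit 41351667), (nat_lit 26310893), (nat_lit 19519284), (nat_lit 13318063)] (nat_lit 5158383)) p13_11_3 (nat_lit 4) (nat_lit 120) (nat_lit 121) = true := by decide +kernel
def p13_11_3_121 : pfC (piC [(nat_lit 41351667), (nat_lit 26310893), (nat_lit 19519284), (nat_lit 13318063)] (nat_lit 5158383)) p13_11_3 (nat_lit 4) (nat_lit 121) (nat_lit 122) = true := by decide +kernel
def p13_11_3_122 : pfC (piC [(nat_lit 41351667), (nat_lit 26310893), (nat_lit 19519284), (nat_lit 13318063)] (nat_lit 5158383)) p13_11_3 (nat_lit 4) (nat_lit 122) (nat_lit 123) = true := by decide +kernel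
def p13_11_3_123 : pfC (piC [(nat_lit 41351667), (nat_lit 26310893), (nat_lit 19519284), (nat_lit 13318063)] (nat_lit 5158383)) p13_11_3 (nat_lit 4) (nat_lit 123) (nat_lit 124) = true := by decide +kernel
def p13_11_3_124 : pfC (piC [(nat_lit 41351667), (nat_lit 26310893), (nat_lit 19519284), (nat_lit 13318063)] (nat_lit 5158383)) p13_11_3 (nat_lit 4) (nat_lit 124) (nat_lit 125) = true := by decide +kernel
def p13_11_3_125 : pfC (piC [(nat_lit 41351667), (nat_lit 26310893), (nat_lit 19519284), (nat_lit 13318063)] (nat_lit 5158383)) p13_11_3 (nat_lit 4) (nat_lit 125) (nat_lit 126) = true := by decide +kernel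
def p13_11_3_126 : pfC (piC [(nat_lit 41351667), (nat_lit 26310893), (nat_lit 19519284), (nat_lit 13318063)] (nat_lit 5158383)) p13_11_3 (nat_lit 4) (nat_lit 126) (nat_lit 127) = true := by decide +kernel
def p13_11_3_127 : pfC (piC [(nat_lit 41351667), (nat_lit 26310893), (nat_lit 19519284), (nat_lit 13318063)] (nat_lit 5158383)) p13_11_3 (nat_lit 4) (nat_lit 127) (nat_lit 128) = true := by decide +kernel
theorem p13_11_3_T : PfS (PiF n13_11.reverse (nat_lit 5158383)) p13_11_3 (nat_lit 4) [] 0 :=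
  pftab_of (los := [(nat_lit 41351667), (nat_lit 26310893), (nat_lit 19519284), (nat_lit 13318063)]) (by decide +kernel) (hi := (nat_lit 128)) (PfP.trans (PfP.trans (PfP.trans (PfP.trans (PfP.trans (PfP.trans (PfP.trans (PfP.trans (PfP.trans (PfP.trans (PfP.trans (PfP.trans (PfP.trans (PfP.trans (PfP.trans (PfP.trans (PfP.trans (PfP.trans (PfP.trans (PfP.trans (PfP.trans (PfP.trans (PfP.trans (PfP.trans (PfP.trans (PfP.trans (PfP.trans (PfP.trans (PfP.trans (PfP.trans (PfP.trans (PfP.trans (PfP.trans (PfP.trans (PfP.trans (PfP.trans (PfP.trans (PfP.trans (PfP.trans (PfP.trans (PfP.trans (PfP.trans (PfP.trans (PfP.trans (PfP.trans (PfP.trans (PfP.trans (PfP.trans (PfP.trans (PfP.trans (PfP.trans (PfP.trans (PfP.trans (PfP.trans (PfP.trans (PfP.trans (PfP.trans (PfP.trans (PfP.trans (PfP.trans (PfP.trans (PfP.trans (PfP.trans (PfP.trans (PfP.trans (PfP.trans (PfP.trans (PfP.trans (PfP.trans (PfP.trans (PfP.trans (PfP.trans (PfP.trans (PfP.trans (PfP.trans (PfP.trans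 (PfP.trans (PfP.trans (PfP.trans (PfP.trans (PfP.trans (PfP.trans (PfP.trans (PfP.trans (PfP.trans (PfP.trans (PfP.trans (PfP.trans (PfP.trans (PfP.trans (PfP.trans (PfP.trans (PfP.trans (PfP.trans (PfP.trans (PfP.trans (PfP.trans (PfP.trans (PfP.trans (PfP.trans (PfP.trans (PfP.trans (PfP.trans (PfP.trans (PfP.trans (PfP.trans (PfP.trans (PfP.trans (PfP.trans
 (PfP.trans (PfP.trans (PfP.trans (PfP.trans (PfP.trans (PfP.trans (PfP.trans (PfP.trans (PfP.trans (PfP.trans (PfP.trans (PfP.trans (PfP.trans (PfP.trans (PfP.trans (PfP.trans (PfP.trans (PfP.trans (pfC_sound p13_11_3_0) (pfC_sound p13_11_3_1)) (pfC_sound p13_11_3_2)) (pfC_sound p13_11_3_3)) (pfC_sound p13_11_3_4)) (pfC_sound p13_11_3_5)) (pfC_sound p13_11_3_6)) (pfC_sound p13_11_3_7)) (pfC_sound p13_11_3_8)) (pfC_sound p13_11_3_9)) (pfC_sound p13_11_3_10)) (pfC_sound p13_11_3_11)) (pfC_sound p13_11_3_12)) (pfC_sound p13_11_3_13)) (pfC_sound p13_11_3_14)) (pfC_sound p13_11_3_15)) (pfC_sound p13_11_3_16))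 (pfC_sound p13_11_3_17)) (pfC_sound p13_11_3_18)) (pfC_sound p13_11_3_19)) (pfC_sound p13_11_3_20)) (pfC_sound p13_11_3_21)) (pfC_sound p13_11_3_22)) (pfC_sound p13_11_3_23)) (pfC_sound p13_11_3_24)) (pfC_sound p13_11_3_25)) (pfC_sound p13_11_3_26)) (pfC_sound p13_11_3_27)) (pfC_sound p13_11_3_28)) (pfC_sound p13_11_3_29)) (pfC_sound p13_11_3_30)) (pfC_sound p13_11_3_31)) (pfC_sound p13_11_3_32)) (pfC_sound p13_11_3_33)) (pfC_sound p13_11_3_34)) (pfC_sound p13_11_3_35)) (pfC_sound p13_11_3_36)) (pfC_sound p13_11_3_37)) (pfC_sound p13_11_3_38)) (pfC_sound p13_11_3_39)) (pfC_sound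
 p13_11_3_40)) (pfC_sound p13_11_3_41)) (pfC_sound p13_11_3_42)) (pfC_sound p13_11_3_43)) (pfC_sound p13_11_3_44)) (pfC_sound p13_11_3_45)) (pfC_sound p13_11_3_46)) (pfC_sound p13_11_3_47)) (pfC_sound p13_11_3_48)) (pfC_sound p13_11_3_49)) (pfC_sound p13_11_3_50)) (pfC_sound p13_11_3_51)) (pfC_sound p13_11_3_52)) (pfC_sound p13_11_3_53)) (pfC_sound p13_11_3_54)) (pfC_sound p13_11_3_55)) (pfC_sound p13_11_3_56)) (pfC_sound p13_11_3_57)) (pfC_sound p13_11_3_58)) (pfC_sound p13_11_3_59)) (pfC_sound p13_11_3_60)) (pfC_sound p13_11_3_61)) (pfC_sound p13_11_3_62)) (pfC_sound p13_11_3_63)) (pfC_sound p13_11_3_64)) (pfC_sound p13_11_3_65)) (pfC_sound p13_11_3_66)) (pfC_sound p13_11_3_67)) (pfC_sound p13_11_3_68)) (pfC_sound p13_11_3_69)) (pfC_sound p13_11_3_70)) (pfC_sound p13_11_3_71)) (pfC_sound p13_11_3_72)) (pfC_sound p13_11_3_73)) (pfC_sound p13_11_3_74)) (pfC_sound p13_11_3_75)) (pfC_sound p13_11_3_76)) (pfC_sound p13_11_3_77)) (pfC_sound p13_11_3_78)) (pfC_sound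 p13_11_3_79)) (pfC_sound p13_11_3_80)) (pfC_sound p13_11_3_81)) (pfC_sound p13_11_3_82)) (pfC_sound p13_11_3_83)) (pfC_sound p13_11_3_84)) (pfC_sound p13_11_3_85)) (pfC_sound p13_11_3_86)) (pfC_sound p13_11_3_87)) (pfC_sound
 p13_11_3_88)) (pfC_sound p13_11_3_89)) (pfC_sound p13_11_3_90)) (pfC_sound p13_11_3_91)) (pfC_sound p13_11_3_92)) (pfC_sound p13_11_3_93)) (pfC_sound p13_11_3_94)) (pfC_sound p13_11_3_95)) (pfC_sound p13_11_3_96)) (pfC_sound p13_11_3_97)) (pfC_sound p13_11_3_98)) (pfC_sound p13_11_3_99)) (pfC_sound p13_11_3_100)) (pfC_sound p13_11_3_101)) (pfC_sound p13_11_3_102)) (pfC_sound p13_11_3_103)) (pfC_sound p13_11_3_104)) (pfC_sound p13_11_3_105)) (pfC_sound p13_11_3_106)) (pfC_sound p13_11_3_107)) (pfC_sound p13_11_3_108)) (pfC_sound p13_11_3_109)) (pfC_sound p13_11_3_110)) (pfC_sound p13_11_3_111)) (pfC_sound p13_11_3_112)) (pfC_sound p13_11_3_113)) (pfC_sound p13_11_3_114)) (pfC_sound p13_11_3_115)) (pfC_sound p13_11_3_116)) (pfC_sound p13_11_3_117))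 (pfC_sound p13_11_3_118)) (pfC_sound p13_11_3_119)) (pfC_sound p13_11_3_120)) (pfC_sound p13_11_3_121)) (pfC_sound p13_11_3_122)) (pfC_sound p13_11_3_123)) (pfC_sound p13_11_3_124)) (pfC_sound p13_11_3_125)) (pfC_sound p13_11_3_126)) (pfC_sound p13_11_3_127)) (by decide +kernel)

def z13_11_3 : zOK yB13_11 (nat_lit 3) (nat_lit 750) (nat_lit 867) (nat_lit 5158383) (nat_lit 4049654) = true := by decide +kernel
def g13_11_3 : gOK yB13_11.x P13_11 (nat_lit 1424) (q13_11 :: r13_11) (nat_lit 3) (nat_lit 750) (nat_lit 4) (nat_lit 867) (nat_lit 12712500) (nat_lit 12712500) (nat_lit 12712500) (nat_lit 12712500) [(nat_lit 800)] = true := by decide +kernel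
def v13_11_3 : ivC P13_11 s13_11 w13_11 n13_11 (nat_lit 4) (nat_lit 4690) (nat_lit 3) (nat_lit 750) f152_1_750 f160_1_750 (nat_lit 4) (nat_lit 867) f152_1_867 f160_1_867 (nat_lit 5158383) (nat_lit 4049654) p13_11_3 = true := by decide +kernel
end CB
end Pool.Agent.Lib.MP_6947cd_al
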