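import Pool.Agent.Lib.MP_6947cd_al.L.BoxDataB
import Pool.Agent.Lib.MP_6947cd_al.L.TeD1
import Pool.Agent.Lib.MP_6947cd_al.L.TeD2
import Pool.Agent.Lib.MP_6947cd_al.L.TeD3

/-!
Problem MP_6947cd_al (Chollet).  CASE B, rows `j`: boxes (generated).
-/

set_option autoImplicit false
set_option linter.defProp false
set_option maxRecDepth 20000

namespace Pool.Agent.Lib.MP_6947cd_al
namespace CB

open Ent Ent.Pk Fr Fr.WT CA

/-! box `yB13_22` -/

def P13_22 : BQ := ⟨(nat_lit 8), (nat_lit 4), (nat_lit 4), (nat_lit 0), (nat_lit 8), (nat_lit 980), (nat_lit 1000), (nat_lit 90), [(nat_lit 180), (nat_lit 330), (nat_lit 650)], (nat_lit 154496000), (nat_lit 16000000), (nat_lit 16000000000)⟩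
def q13_22 : PC := ⟨(nat_lit 1000), [(nat_lit 90000), (nat_lit 180000), (nat_lit 330000), (nat_lit 650000)], (nat_lit 18446744078004518913000000), (nat_lit 15845504000000), (nat_lit 15845504000000), (nat_lit 10000000)⟩
def r13_22 : List PC := [⟨(nat_lit 1288), [(nat_lit 90481), (nat_lit 180268), (nat_lit 331048), (nat_lit 649866)], (nat_lit 18512912549012660424754459), (nat_lit 16288837964800), (nat_lit 16298100367360), (nat_lit 10053445)⟩, ⟨(nat_lit 3576), [(nat_lit 95135), (nat_lit 183860), (nat_lit 357270), (nat_lit 628403)], (nat_lit 18997490069217178679202622), (nat_lit 19005175129600), (nat_lit 19088022174720), (nat_lit 10826364)⟩, ⟨(nat_lit 1215), [(nat_lit 90334), (nat_lit 179932), (nat_lit 344244), (nat_lit 620000)], (nat_lit 18492196855414650487915401), (nat_lit 16176866564000), (nat_lit 16183781204800), (nat_lit 10431637)⟩]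
def s13_22 : List PB := [⟨(nat_lit 25760), (nat_lit 1447696000000), [(nat_lit 180268), (nat_lit 331048), (nat_lit 649866)], (nat_lit 18512912549012660424754459), (nat_lit 1142188744807424), (nat_lit 1142198007209984), (nat_lit 46080)⟩, ⟨(nat_lit 71520), (nat_lit 1522160000000), [(nat_lit 183860), (nat_lit 357270), (nat_lit 628403)], (nat_lit 18997490069217178679202622), (nat_lit 1144905081972224), (nat_lit 1144987929017344), (nat_lit 412160)⟩, ⟨(nat_lit 24300), (nat_lit 1445344000000), [(nat_lit 179932), (nat_lit 344244), (nat_lit 620000)], (nat_lit 18492196855414650487915401), (nat_lit 1142076773406624), (nat_lit 1142083688047424), (nat_lit 34400)⟩]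
def n13_22 : List KN := [⟨(nat_lit 650), (nat_lit 330), (nat_lit 13167684), (nat_lit 9942524)⟩, ⟨(nat_lit 330), (nat_lit 180), (nat_lit 20402210), (nat_lit 13167684)⟩, ⟨(nat_lit 180), (nat_lit 90), (nat_lit 30365544), (nat_lit 20402210)⟩]
def w13_22 : List ℕ := [(nat_lit 46080), (nat_lit 412160), (nat_lit 34400)]
def par13_22 : parC yB13_22 P13_22 s13_22 r13_22 q13_22 n13_22 w13_22 = true := by decide +kernel

def p13_22_0 : PF := (PF.cons (PF.cons (PF.cons (PF.leaf (nat_lit 1111297) (nat_lit 3912365) (nat_lit 63196447) (nat_lit 3912365) [(nat_lit 0), (nat_lit 0), (nat_lit 0)]) (PF.cons (PF.leaf (nat_lit 1482366) (nat_lit 716684) (nat_lit 62333710) (nat_lit 4058418) [(nat_lit 716684), (nat_lit 0), (nat_lit 0)]) (PF.cons (PF.leaf (nat_lit 1924831) (nat_lit 792201) (nat_lit 61319363) (nat_lit 4205046) [(nat_lit 792201), (nat_lit 0), (nat_lit 0)]) (PF.cons (PF.leaf (nat_lit 2426173) (nat_lit 860014) (nat_lit 60184929) (nat_lit 4343838) [(nat_lit 860014), (nat_lit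 0), (nat_lit 0)]) (PF.cons (PF.leaf (nat_lit 2976118) (nat_lit 920675) (nat_lit 58956038) (nat_lit 4470073) [(nat_lit 920675), (nat_lit 0), (nat_lit 0)]) (PF.cons (PF.leaf (nat_lit 3565490) (nat_lit 974541) (nat_lit 57654856) (nat_lit 4581248) [(nat_lit 974541), (nat_lit 0), (nat_lit 0)]) (PF.cons (PF.leaf (nat_lit 4186024) (nat_lit 1021937) (nat_lit 56300923) (nat_lit 4676266) [(nat_lit 1021937), (nat_lit 0), (nat_lit 0)]) (PF.cons (PF.leaf (nat_lit 4830223) (nat_lit 1063200) (nat_lit 54911458) (nat_lit 4754950) [(nat_lit 1063200), (nat_lit 0), (nat_lit 0)]) (PF.cons (PF.leaf (nat_lit 5491405) (nat_lit 1098698) (nat_lit 53501495) (nat_lit 4817726)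
 [(nat_lit 1098698), (nat_lit 0), (nat_lit 0)]) (PF.cons (PF.leaf (nat_lit 6163679) (nat_lit 1128824) (nat_lit 52083987) (nat_lit 4865405) [(nat_lit 1128824), (nat_lit 0), (nat_lit 0)]) (PF.cons (PF.leaf (nat_lit 6841906) (nat_lit 1153985) (nat_lit 50669923) (nat_lit 4899036) [(nat_lit 1153985), (nat_lit 0), (nat_lit 0)]) (PF.cons (PF.leaf (nat_lit 7521699) (nat_lit 1174595) (nat_lit 49268465) (nat_lit 4919796) [(nat_lit 1174595), (nat_lit 0), (nat_lit 0)]) (PF.cons (PF.leaf (nat_lit 8199335) (nat_lit 1191065) (nat_lit 47887112) (nat_lit 4928917) [(nat_lit 1191065), (nat_lit 0), (nat_lit 0)]) (PF.cons (PF.leaf (nat_lit 8871714) (nat_lit 1203793) (nat_lit 46531871) (nat_lit 4927628) [(nat_lit 1203793), (nat_lit 0), (nat_lit 0)]) (PF.cons (PF.leaf (nat_lit 9536334) (nat_lit 1213161) (nat_lit 45207435) (nat_lit 4917123) [(nat_lit 1213161), (nat_lit 0), (nat_lit 0)]) (PF.cons (PF.leaf (nat_lit 10191147) (nat_lit 1219528) (nat_lit 43917355) (nat_lit 4898534) [(nat_lit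 1219528), (nat_lit 0), (nat_lit 0)]) (PF.cons (PF.leaf (nat_lit 10834564) (nat_lit 1223230) (nat_lit 42664209) (nat_lit 4872915) [(nat_lit 1223230), (nat_lit 0), (nat_lit 0)]) (PF.cons (PF.leaf (nat_lit 11465350) (nat_lit
 1224577) (nat_lit 41449749) (nat_lit 4841238) [(nat_lit 1224577), (nat_lit 0), (nat_lit 0)]) (PF.cons PF.nil (PF.cons PF.nil (PF.cons PF.nil (PF.cons PF.nil PF.nil)))))))))))))))))))))) (PF.cons (PF.cons (PF.leaf (nat_lit 2158039) (nat_lit 2789841) (nat_lit 59999362) (nat_lit 4319609) [(nat_lit 0), (nat_lit 2789841), (nat_lit 0)]) (PF.cons (PF.leaf (nat_lit 2636950) (nat_lit 881126) (nat_lit 58898572) (nat_lit 4434753) [(nat_lit 881126), (nat_lit 2894360), (nat_lit 0)]) (PF.cons (PF.leaf (nat_lit 3166254) (nat_lit 938126) (nat_lit 57701249) (nat_lit 4540629) [(nat_lit 938126), (nat_lit 2990680), (nat_lit 0)]) (PF.cons (PF.leaf (nat_lit 3735596) (nat_lit 988471) (nat_lit 56432556) (nat_lit 4634155) [(nat_lit 988471), (nat_lit 3076684), (nat_lit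 0)]) (PF.cons (PF.leaf (nat_lit 4336300) (nat_lit 1032586) (nat_lit 55113144) (nat_lit 4713863) [(nat_lit 1032586), (nat_lit 3151459), (nat_lit 0)]) (PF.cons (PF.leaf (nat_lit 4960803) (nat_lit 1070853) (nat_lit 53760441) (nat_lit 4779297) [(nat_lit 1070853), (nat_lit 3214807), (nat_lit 0)]) (PF.cons (PF.leaf (nat_lit 5602477) (nat_lit 1103655) (nat_lit 52389245) (nat_lit 4830651) [(nat_lit 1103655), (nat_lit 3266981), (nat_lit 0)]) (PF.cons
 (PF.leaf (nat_lit 6255546) (nat_lit 1131384) (nat_lit 51012073) (nat_lit 4868540) [(nat_lit 1131384), (nat_lit 3308509), (nat_lit 0)]) (PF.cons (PF.leaf (nat_lit 6915019) (nat_lit 1154436) (nat_lit 49639400) (nat_lit 4893831) [(nat_lit 1154436), (nat_lit 3340089), (nat_lit 0)]) (PF.cons (PF.leaf (nat_lit 7576637) (nat_lit 1173209) (nat_lit 48279878) (nat_lit 4907539) [(nat_lit 1173209), (nat_lit 3362511), (nat_lit 0)]) (PF.cons (PF.leaf (nat_lit 8236781) (nat_lit 1188092) (nat_lit 46940534) (nat_lit 4910745) [(nat_lit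 1188092), (nat_lit 3376604), (nat_lit 0)]) (PF.cons (PF.leaf (nat_lit 8892478) (nat_lit 1199464) (nat_lit 45626962) (nat_lit 4904539) [(nat_lit 1199464), (nat_lit 3383203), (nat_lit 0)]) (PF.cons (PF.leaf (nat_lit 9541240) (nat_lit 1207682) (nat_lit 44343511) (nat_lit 4889992) [(nat_lit 1207682), (nat_lit 3383117), (nat_lit 0)]) (PF.cons (PF.leaf (nat_lit 10181083) (nat_lit 1213086) (nat_lit 43093453) (nat_lit 4868120) [(nat_lit 1213086), (nat_lit 3377119), (nat_lit 0)]) (PF.cons (PF.leaf (nat_lit 10810451) (nat_lit 1215989) (nat_lit 41879149) (nat_lit 4839877) [(nat_lit 1215989), (nat_lit 3365932), (nat_lit 0)]) (PF.cons (PF.leaf (nat_lit 11428106) (nat_lit 1216683)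
 (nat_lit 40702193) (nat_lit 4806143) [(nat_lit 1216683), (nat_lit 3350225), (nat_lit 0)]) (PF.cons (PF.leaf (nat_lit 12033137) (nat_lit 1215433) (nat_lit 39563539) (nat_lit 4767722) [(nat_lit 1215433), (nat_lit 3330610), (nat_lit 0)]) (PF.cons PF.nil (PF.cons PF.nil (PF.cons PF.nil PF.nil)))))))))))))))))))) (PF.cons (PF.cons (PF.leaf (nat_lit 3356430) (nat_lit 3039265) (nat_lit 56431150) (nat_lit 4599131) [(nat_lit 0), (nat_lit 3039265), (nat_lit 0)]) (PF.cons (PF.leaf (nat_lit 3902818) (nat_lit 998854) (nat_lit 55206951) (nat_lit 4676645) [(nat_lit 998854), (nat_lit 3113180), (nat_lit 0)]) (PF.cons (PF.leaf (nat_lit 4482084) (nat_lit 1040290) (nat_lit 53930478) (nat_lit 4742554) [(nat_lit 1040290), (nat_lit 3177599), (nat_lit 0)]) (PF.cons (PF.leaf (nat_lit 5086047) (nat_lit 1076045) (nat_lit 52620503) (nat_lit 4796094) [(nat_lit 1076045), (nat_lit 3232038), (nat_lit 0)]) (PF.cons (PF.leaf (nat_lit 5707874) (nat_lit 1106552) (nat_lit 51292274) (nat_lit 4837228)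 [(nat_lit 1106552), (nat_lit 3276549), (nat_lit 0)]) (PF.cons (PF.leaf (nat_lit 6341753) (nat_lit 1132220) (nat_lit 49958321) (nat_lit 4866378) [(nat_lit 1132220), (nat_lit 3311504), (nat_lit 0)]) (PF.cons (PF.leaf
 (nat_lit 6982713) (nat_lit 1153449) (nat_lit 48628925) (nat_lit 4884244) [(nat_lit 1153449), (nat_lit 3337473), (nat_lit 0)]) (PF.cons (PF.leaf (nat_lit 7626540) (nat_lit 1170627) (nat_lit 47312465) (nat_lit 4891690) [(nat_lit 1170627), (nat_lit 3355133), (nat_lit 0)]) (PF.cons (PF.leaf (nat_lit 8269695) (nat_lit 1184131) (nat_lit 46015676) (nat_lit 4889658) [(nat_lit 1184131), (nat_lit 3365213), (nat_lit 0)]) (PF.cons (PF.leaf (nat_lit 8909216) (nat_lit 1194322) (nat_lit 44743882) (nat_lit 4879116) [(nat_lit 1194322), (nat_lit 3368455), (nat_lit 0)]) (PF.cons (PF.leaf (nat_lit 9542688) (nat_lit 1201541) (nat_lit 43501195) (nat_lit 4861019) [(nat_lit 1201541), (nat_lit 3365589), (nat_lit 0)]) (PF.cons (PF.leaf (nat_lit 10168138) (nat_lit 1206109)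 (nat_lit 42290697) (nat_lit 4836282) [(nat_lit 1206109), (nat_lit 3357314), (nat_lit 0)]) (PF.cons (PF.leaf (nat_lit 10784004) (nat_lit 1208322) (nat_lit 41114602) (nat_lit 4805766) [(nat_lit 1208322), (nat_lit 3344287), (nat_lit 0)]) (PF.cons (PF.leaf (nat_lit 11389055) (nat_lit 1208454) (nat_lit 39974395) (nat_lit 4770270) [(nat_lit 1208454), (nat_lit 3327117), (nat_lit 0)]) (PF.cons (PF.leaf (nat_lit 11982365) (nat_lit 1206756)
 (nat_lit 38870963) (nat_lit 4730525) [(nat_lit 1206756), (nat_lit 3306365), (nat_lit 0)]) (PF.cons PF.nil (PF.cons PF.nil (PF.cons PF.nil PF.nil)))))))))))))))))) (PF.cons (PF.cons (PF.leaf (nat_lit 4626245) (nat_lit 3197961) (nat_lit 52751684) (nat_lit 4763243) [(nat_lit 0), (nat_lit 3197961), (nat_lit 0)]) (PF.cons (PF.leaf (nat_lit 5208166) (nat_lit 1078864) (nat_lit 51490882) (nat_lit 4806096) [(nat_lit 1078864), (nat_lit 3244323), (nat_lit 0)]) (PF.cons (PF.leaf (nat_lit 5809428) (nat_lit 1107482) (nat_lit 50209981) (nat_lit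 4838090) [(nat_lit 1107482), (nat_lit 3281925), (nat_lit 0)]) (PF.cons (PF.leaf (nat_lit 6423836) (nat_lit 1131424) (nat_lit 48922151) (nat_lit 4859452) [(nat_lit 1131424), (nat_lit 3310978), (nat_lit 0)]) (PF.cons (PF.leaf (nat_lit 7046301) (nat_lit 1151107) (nat_lit 47637885) (nat_lit 4870722) [(nat_lit 1151107), (nat_lit 3331925), (nat_lit 0)]) (PF.cons (PF.leaf (nat_lit 7672557) (nat_lit 1166924) (nat_lit 46365563) (nat_lit 4872622) [(nat_lit 1166924), (nat_lit 3345335), (nat_lit 0)]) (PF.cons (PF.leaf (nat_lit 8299040) (nat_lit 1179247) (nat_lit 45111830) (nat_lit 4865969) [(nat_lit 1179247), (nat_lit 3351843), (nat_lit 0)]) (PF.cons (PF.leaf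
 (nat_lit 8922813) (nat_lit 1188425) (nat_lit 43881886) (nat_lit 4851618) [(nat_lit 1188425), (nat_lit 3352110), (nat_lit 0)]) (PF.cons (PF.leaf (nat_lit 9541442) (nat_lit 1194787) (nat_lit 42679723) (nat_lit 4830419) [(nat_lit 1194787), (nat_lit 3346789), (nat_lit 0)]) (PF.cons (PF.leaf (nat_lit 10152963) (nat_lit 1198639) (nat_lit 41508317) (nat_lit 4803196) [(nat_lit 1198639), (nat_lit 3336513), (nat_lit 0)]) (PF.cons (PF.leaf (nat_lit 10755795) (nat_lit 1200264) (nat_lit 40369800) (nat_lit 4770728) [(nat_lit 1200264), (nat_lit 3321879), (nat_lit 0)]) (PF.cons (PF.leaf (nat_lit 11348698) (nat_lit 1199921) (nat_lit 39265605) (nat_lit 4733738) [(nat_lit 1199921), (nat_lit 3303445), (nat_lit 0)]) (PF.cons (PF.leaf (nat_lit 11930716) (nat_lit 1197847) (nat_lit 38196587) (nat_lit 4692892) [(nat_lit 1197847), (nat_lit 3281722), (nat_lit 0)]) (PF.cons PF.nil (PF.cons PF.nil (PF.cons PF.nil PF.nil)))))))))))))))) (PF.cons (PF.cons (PF.leaf (nat_lit 5909212) (nat_lit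 3283508) (nat_lit 49140998) (nat_lit 4833778) [(nat_lit 0), (nat_lit 3283508), (nat_lit 0)]) (PF.cons (PF.leaf (nat_lit 6503430) (nat_lit 1129050) (nat_lit 47902477) (nat_lit 4848219) [(nat_lit 1129050), (nat_lit 3307266),
 (nat_lit 0)]) (PF.cons (PF.leaf (nat_lit 7107143) (nat_lit 1147468) (nat_lit 46665321) (nat_lit 4853650) [(nat_lit 1147468), (nat_lit 3323725), (nat_lit 0)]) (PF.cons (PF.leaf (nat_lit 7715827) (nat_lit 1162156) (nat_lit 45438271) (nat_lit 4850661) [(nat_lit 1162156), (nat_lit 3333352), (nat_lit 0)]) (PF.cons (PF.leaf (nat_lit 8325825) (nat_lit 1173491) (nat_lit 44228122) (nat_lit 4839951) [(nat_lit 1173491), (nat_lit 3336693), (nat_lit 0)]) (PF.cons (PF.leaf (nat_lit 8934115) (nat_lit 1181818) (nat_lit 43040121) (nat_lit 4822271) [(nat_lit 1181818), (nat_lit 3334331), (nat_lit 0)]) (PF.cons (PF.leaf (nat_lit 9538236) (nat_lit 1187460) (nat_lit 41878257) (nat_lit 4798380) [(nat_lit 1187460), (nat_lit 3326853), (nat_lit 0)]) (PF.cons (PF.leaf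 (nat_lit 10136194) (nat_lit 1190711) (nat_lit 40745495) (nat_lit 4769018) [(nat_lit 1190711), (nat_lit 3314829), (nat_lit 0)]) (PF.cons (PF.leaf (nat_lit 10726370) (nat_lit 1191843) (nat_lit 39643954) (nat_lit 4734888) [(nat_lit 1191843), (nat_lit 3298804), (nat_lit 0)]) (PF.cons (PF.leaf (nat_lit 11307499) (nat_lit 1191106) (nat_lit 38575062) (nat_lit 4696649) [(nat_lit 1191106), (nat_lit 3279285), (nat_lit 0)]) (PF.cons (PF.leaf (nat_lit
 11878590) (nat_lit 1188725) (nat_lit 37539683) (nat_lit 4654906) [(nat_lit 1188725), (nat_lit 3256743), (nat_lit 0)]) (PF.cons (PF.leaf (nat_lit 12438910) (nat_lit 1184904) (nat_lit 36538223) (nat_lit 4610213) [(nat_lit 1184904), (nat_lit 3231606), (nat_lit 0)]) (PF.cons PF.nil (PF.cons PF.nil PF.nil)))))))))))))) (PF.cons (PF.cons (PF.leaf (nat_lit 7166773) (nat_lit 3313117) (nat_lit 45709863) (nat_lit 4833359) [(nat_lit 0), (nat_lit 3313117), (nat_lit 0)]) (PF.cons (PF.leaf (nat_lit 7757567) (nat_lit 1156358) (nat_lit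 44529419) (nat_lit 4826085) [(nat_lit 1156358), (nat_lit 3319389), (nat_lit 0)]) (PF.cons (PF.leaf (nat_lit 8351041) (nat_lit 1166898) (nat_lit 43363502) (nat_lit 4811837) [(nat_lit 1166898), (nat_lit 3319935), (nat_lit 0)]) (PF.cons (PF.leaf (nat_lit 8943971) (nat_lit 1174534) (nat_lit 42217612) (nat_lit 4791272) [(nat_lit 1174534), (nat_lit 3315264), (nat_lit 0)]) (PF.cons (PF.leaf (nat_lit 9533794) (nat_lit 1179588) (nat_lit 41095884) (nat_lit 4765065) [(nat_lit 1179588), (nat_lit 3305901), (nat_lit 0)]) (PF.cons (PF.leaf (nat_lit 10118448) (nat_lit 1182350) (nat_lit 40001368) (nat_lit 4733881) [(nat_lit 1182350), (nat_lit 3292362), (nat_lit 0)]) (PF.cons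
 (PF.leaf (nat_lit 10696260) (nat_lit 1183083) (nat_lit 38936243) (nat_lit 4698357) [(nat_lit 1183083), (nat_lit 3275141), (nat_lit 0)]) (PF.cons (PF.leaf (nat_lit 11265915) (nat_lit 1182030) (nat_lit 37901988) (nat_lit 4659092) [(nat_lit 1182030), (nat_lit 3254704), (nat_lit 0)]) (PF.cons (PF.leaf (nat_lit 11826376) (nat_lit 1179406) (nat_lit 36899516) (nat_lit 4616639) [(nat_lit 1179406), (nat_lit 3231481), (nat_lit 0)]) (PF.cons (PF.leaf (nat_lit 12376873) (nat_lit 1175409) (nat_lit 35929283) (nat_lit 4571504) [(nat_lit 1175409), (nat_lit 3205868), (nat_lit 0)]) (PF.cons PF.nil (PF.cons PF.nil PF.nil)))))))))))) (PF.cons (PF.cons (PF.leaf (nat_lit 8375817) (nat_lit 3301715) (nat_lit 42516697) (nat_lit 4781823) [(nat_lit 0), (nat_lit 3301715), (nat_lit 0)]) (PF.cons (PF.leaf (nat_lit 8953258) (nat_lit 1166593) (nat_lit 41413245) (nat_lit 4758785) [(nat_lit 1166593), (nat_lit 3295031), (nat_lit 0)]) (PF.cons (PF.leaf (nat_lit 9528848) (nat_lit 1171192) (nat_lit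 40331598) (nat_lit 4730610) [(nat_lit 1171192), (nat_lit 3284036), (nat_lit 0)]) (PF.cons (PF.leaf (nat_lit 10100343) (nat_lit 1173574) (nat_lit 39275012) (nat_lit 4697898) [(nat_lit 1173574), (nat_lit 3269196), (nat_lit
 0)]) (PF.cons (PF.leaf (nat_lit 10665986) (nat_lit 1174000) (nat_lit 38245814) (nat_lit 4661227) [(nat_lit 1174000), (nat_lit 3250961), (nat_lit 0)]) (PF.cons (PF.leaf (nat_lit 11224386) (nat_lit 1172705) (nat_lit 37245591) (nat_lit 4621141) [(nat_lit 1172705), (nat_lit 3229758), (nat_lit 0)]) (PF.cons (PF.leaf (nat_lit 11774455) (nat_lit 1169902) (nat_lit 36275347) (nat_lit 4578149) [(nat_lit 1169902), (nat_lit 3205983), (nat_lit 0)]) (PF.cons (PF.leaf (nat_lit 12315353) (nat_lit 1165781) (nat_lit 35335622) (nat_lit 4532715) [(nat_lit 1165781), (nat_lit 3180001), (nat_lit 0)]) (PF.cons PF.nil (PF.cons PF.nil PF.nil)))))))))) (PF.cons (PF.cons (PF.leaf (nat_lit 9524229) (nat_lit 3261343) (nat_lit 39584278) (nat_lit 4695129) [(nat_lit 0), (nat_lit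 3261343), (nat_lit 0)]) (PF.cons (PF.leaf (nat_lit 10082518) (nat_lit 1164392) (nat_lit 38565435) (nat_lit 4661164) [(nat_lit 1164392), (nat_lit 3245403), (nat_lit 0)]) (PF.cons (PF.leaf (nat_lit 10636079) (nat_lit 1164601) (nat_lit 37571769) (nat_lit 4623574) [(nat_lit 1164601), (nat_lit 3226323), (nat_lit 0)]) (PF.cons (PF.leaf (nat_lit 11183359) (nat_lit 1163141) (nat_lit 36605051) (nat_lit 4582860) [(nat_lit 1163141), (nat_lit
 3204496), (nat_lit 0)]) (PF.cons (PF.leaf (nat_lit 11723194) (nat_lit 1160221) (nat_lit 35666425) (nat_lit 4539488) [(nat_lit 1160221), (nat_lit 3180287), (nat_lit 0)]) (PF.cons (PF.leaf (nat_lit 12254662) (nat_lit 1156026) (nat_lit 34756546) (nat_lit 4493885) [(nat_lit 1156026), (nat_lit 3154035), (nat_lit 0)]) (PF.cons (PF.leaf (nat_lit 12777085) (nat_lit 1150725) (nat_lit 33875689) (nat_lit 4446441) [(nat_lit 1150725), (nat_lit 3126047), (nat_lit 0)]) (PF.cons PF.nil PF.nil)))))))) (PF.cons (PF.cons (PF.leaf (nat_lit 10607156)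 (nat_lit 3201274) (nat_lit 36913155) (nat_lit 4585462) [(nat_lit 0), (nat_lit 3201274), (nat_lit 0)]) (PF.cons (PF.leaf (nat_lit 11143294) (nat_lit 1153341) (nat_lit 35979517) (nat_lit 4544299) [(nat_lit 1153341), (nat_lit 3178956), (nat_lit 0)]) (PF.cons (PF.leaf (nat_lit 11672971) (nat_lit 1150365) (nat_lit 35071979) (nat_lit 4500695) [(nat_lit 1150365), (nat_lit 3154425), (nat_lit 0)]) (PF.cons (PF.leaf (nat_lit 12195125) (nat_lit 1146149) (nat_lit 34191356) (nat_lit 4455045) [(nat_lit 1146149), (nat_lit 3127995), (nat_lit 0)]) (PF.cons (PF.leaf (nat_lit 12708997) (nat_lit 1140856) (nat_lit 33338052) (nat_lit 4407712) [(nat_lit 1140856), (nat_lit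
 3099952), (nat_lit 0)]) (PF.cons PF.nil PF.nil)))))) (PF.cons (PF.cons (PF.leaf (nat_lit 11624249) (nat_lit 3128422) (nat_lit 34491214) (nat_lit 4461800) [(nat_lit 0), (nat_lit 3128422), (nat_lit 0)]) (PF.cons (PF.leaf (nat_lit 12137063) (nat_lit 1136147) (nat_lit 33639337) (nat_lit 4416220) [(nat_lit 1136147), (nat_lit 3101900), (nat_lit 0)]) (PF.cons (PF.leaf (nat_lit 12642446) (nat_lit 1130905) (nat_lit 32813029) (nat_lit 4369092) [(nat_lit 1130905), (nat_lit 3073875), (nat_lit 0)]) (PF.cons PF.nil PF.nil)))) (PF.cons (PF.cons (PF.leaf (nat_lit 12577779) (nat_lit 3047825) (nat_lit 32299962) (nat_lit 4330591) [(nat_lit 0), (nat_lit 3047825), (nat_lit 0)]) (PF.cons (PF.leaf (nat_lit 13067224) (nat_lit 1114823) (nat_lit 31524313) (nat_lit 4282614) [(nat_lit 1114823), (nat_lit 3018706), (nat_lit 0)]) PF.nil)) (PF.cons PF.nil (PF.cons PF.nil (PF.cons PF.nil (PF.cons PF.nil PF.nil))))))))))))))) (PF.cons (PF.cons (PF.cons (PF.leaf (nat_lit 2954481) (nat_lit 4508141)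 (nat_lit 56130784) (nat_lit 4508141) [(nat_lit 0), (nat_lit 0), (nat_lit 6469887)]) (PF.cons (PF.leaf (nat_lit 3440618) (nat_lit 937923) (nat_lit 55043946) (nat_lit 4586719) [(nat_lit 937923), (nat_lit 0), (nat_lit
 6540223)]) (PF.cons (PF.leaf (nat_lit 3970321) (nat_lit 986321) (nat_lit 53879304) (nat_lit 4656567) [(nat_lit 986321), (nat_lit 0), (nat_lit 6600298)]) (PF.cons (PF.leaf (nat_lit 4533325) (nat_lit 1027953) (nat_lit 52661296) (nat_lit 4715758) [(nat_lit 1027953), (nat_lit 0), (nat_lit 6647895)]) (PF.cons (PF.leaf (nat_lit 5121473) (nat_lit 1063588) (nat_lit 51408860) (nat_lit 4763515) [(nat_lit 1063588), (nat_lit 0), (nat_lit 6682083)]) (PF.cons (PF.leaf (nat_lit 5727967) (nat_lit 1093820) (nat_lit 50137186) (nat_lit 4799763) [(nat_lit 1093820), (nat_lit 0), (nat_lit 6702759)]) (PF.cons (PF.leaf (nat_lit 6347037) (nat_lit 1119159) (nat_lit 48858636) (nat_lit 4824868) [(nat_lit 1119159), (nat_lit 0), (nat_lit 6710352)]) (PF.cons (PF.leaf (nat_lit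 6973785) (nat_lit 1140062) (nat_lit 47583282) (nat_lit 4839465) [(nat_lit 1140062), (nat_lit 0), (nat_lit 6705628)]) (PF.cons (PF.leaf (nat_lit 7604066) (nat_lit 1156953) (nat_lit 46319290) (nat_lit 4844340) [(nat_lit 1156953), (nat_lit 0), (nat_lit 6689551)]) (PF.cons (PF.leaf (nat_lit 8234386) (nat_lit 1170228) (nat_lit 45073207) (nat_lit 4840362) [(nat_lit 1170228), (nat_lit 0), (nat_lit 6663186)]) (PF.cons (PF.leaf (nat_lit 8861835)
 (nat_lit 1180255) (nat_lit 43850204) (nat_lit 4828422) [(nat_lit 1180255), (nat_lit 0), (nat_lit 6627634)]) (PF.cons (PF.leaf (nat_lit 9484007) (nat_lit 1187376) (nat_lit 42654282) (nat_lit 4809404) [(nat_lit 1187376), (nat_lit 0), (nat_lit 6583985)]) (PF.cons (PF.leaf (nat_lit 10098960) (nat_lit 1191910) (nat_lit 41488449) (nat_lit 4784156) [(nat_lit 1191910), (nat_lit 0), (nat_lit 6533285)]) (PF.cons (PF.leaf (nat_lit 10705096) (nat_lit 1194148) (nat_lit 40354881) (nat_lit 4753478) [(nat_lit 1194148), (nat_lit 0), (nat_lit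 6476522)]) (PF.cons (PF.leaf (nat_lit 11301196) (nat_lit 1194359) (nat_lit 39255059) (nat_lit 4718113) [(nat_lit 1194359), (nat_lit 0), (nat_lit 6414609)]) (PF.cons (PF.leaf (nat_lit 11886309) (nat_lit 1192786) (nat_lit 38189889) (nat_lit 4678743) [(nat_lit 1192786), (nat_lit 0), (nat_lit 6348380)]) (PF.cons PF.nil (PF.cons PF.nil (PF.cons PF.nil (PF.cons PF.nil PF.nil)))))))))))))))))))) (PF.cons (PF.cons (PF.leaf (nat_lit 4132321) (nat_lit 3121975) (nat_lit 52684555) (nat_lit 4683539) [(nat_lit 0), (nat_lit 3121975), (nat_lit 6618743)]) (PF.cons (PF.leaf (nat_lit 4671473) (nat_lit 1031227) (nat_lit 51519110) (nat_lit 4731365) [(nat_lit 1031227), (nat_lit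
 3173861), (nat_lit 6653248)]) (PF.cons (PF.leaf (nat_lit 5238049) (nat_lit 1065153) (nat_lit 50315479) (nat_lit 4769406) [(nat_lit 1065153), (nat_lit 3217472), (nat_lit 6676147)]) (PF.cons (PF.leaf (nat_lit 5824474) (nat_lit 1093740) (nat_lit 49090424) (nat_lit 4797352) [(nat_lit 1093740), (nat_lit 3252674), (nat_lit 6687139)]) (PF.cons (PF.leaf (nat_lit 6424647) (nat_lit 1117556) (nat_lit 47857008) (nat_lit 4815386) [(nat_lit 1117556), (nat_lit 3279700), (nat_lit 6686492)]) (PF.cons (PF.leaf (nat_lit 7033508) (nat_lit 1137086) (nat_lit 46625576) (nat_lit 4823995) [(nat_lit 1137086), (nat_lit 3298987), (nat_lit 6674821)]) (PF.cons (PF.leaf (nat_lit 7646840) (nat_lit 1152762) (nat_lit 45404357) (nat_lit 4823840) [(nat_lit 1152762), (nat_lit 3311088), (nat_lit 6652952)]) (PF.cons (PF.leaf (nat_lit 8261115) (nat_lit 1164978) (nat_lit 44199857) (nat_lit 4815672) [(nat_lit 1164978), (nat_lit 3316615), (nat_lit 6621819)]) (PF.cons (PF.leaf (nat_lit 8873411) (nat_lit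 1174095) (nat_lit 43017171) (nat_lit 4800282) [(nat_lit 1174095), (nat_lit 3316195), (nat_lit 6582402)]) (PF.cons (PF.leaf (nat_lit 9481307) (nat_lit 1180445) (nat_lit 41860212) (nat_lit 4778459) [(nat_lit 1180445), (nat_lit
 3310452), (nat_lit 6535679)]) (PF.cons (PF.leaf (nat_lit 10082855) (nat_lit 1184335) (nat_lit 40731913) (nat_lit 4750968) [(nat_lit 1184335), (nat_lit 3299984), (nat_lit 6482594)]) (PF.cons (PF.leaf (nat_lit 10676450) (nat_lit 1186044) (nat_lit 39634393) (nat_lit 4718535) [(nat_lit 1186044), (nat_lit 3285358), (nat_lit 6424040)]) (PF.cons (PF.leaf (nat_lit 11260849) (nat_lit 1185827) (nat_lit 38569093) (nat_lit 4681834) [(nat_lit 1185827), (nat_lit 3267101), (nat_lit 6360847)]) (PF.cons (PF.leaf (nat_lit 11835080) (nat_lit 1183918) (nat_lit 37536902) (nat_lit 4641489) [(nat_lit 1183918), (nat_lit 3245698), (nat_lit 6293777)]) (PF.cons (PF.leaf (nat_lit 12398387) (nat_lit 1180526) (nat_lit 36538256) (nat_lit 4598066) [(nat_lit 1180526),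 (nat_lit 3221593), (nat_lit 6223520)]) (PF.cons PF.nil (PF.cons PF.nil (PF.cons PF.nil PF.nil)))))))))))))))))) (PF.cons (PF.cons (PF.leaf (nat_lit 5354950) (nat_lit 3222760) (nat_lit 49230485) (nat_lit 4769712) [(nat_lit 0), (nat_lit 3222760), (nat_lit 6663094)]) (PF.cons (PF.leaf (nat_lit 5919886) (nat_lit 1091819) (nat_lit 48056690) (nat_lit 4790244) [(nat_lit 1091819), (nat_lit 3252228), (nat_lit 6665600)]) (PF.cons (PF.leaf (nat_lit 6500447)
 (nat_lit 1114454) (nat_lit 46871361) (nat_lit 4801996) [(nat_lit 1114454), (nat_lit 3274393), (nat_lit 6657759)]) (PF.cons (PF.leaf (nat_lit 7091107) (nat_lit 1132883) (nat_lit 45685671) (nat_lit 4805307) [(nat_lit 1132883), (nat_lit 3289567), (nat_lit 6640048)]) (PF.cons (PF.leaf (nat_lit 7687426) (nat_lit 1147566) (nat_lit 44508250) (nat_lit 4800718) [(nat_lit 1147566), (nat_lit 3298205), (nat_lit 6613166)]) (PF.cons (PF.leaf (nat_lit 8285764) (nat_lit 1158907) (nat_lit 43345798) (nat_lit 4788874) [(nat_lit 1158907),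 (nat_lit 3300835), (nat_lit 6577932)]) (PF.cons (PF.leaf (nat_lit 8883116) (nat_lit 1167267) (nat_lit 42203486) (nat_lit 4770473) [(nat_lit 1167267), (nat_lit 3298013), (nat_lit 6535218)]) (PF.cons (PF.leaf (nat_lit 9477021) (nat_lit 1172976) (nat_lit 41085258) (nat_lit 4746219) [(nat_lit 1172976), (nat_lit 3290300), (nat_lit 6485900)]) (PF.cons (PF.leaf (nat_lit 10065479) (nat_lit 1176330) (nat_lit 39994056) (nat_lit 4716802) [(nat_lit 1176330), (nat_lit 3278240), (nat_lit 6430832)]) (PF.cons (PF.leaf (nat_lit 10646865) (nat_lit 1177600) (nat_lit 38932001) (nat_lit 4682880) [(nat_lit 1177600), (nat_lit 3262349), (nat_lit 6370825)]) (PF.cons (PF.leaf (nat_lit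
 11219897) (nat_lit 1177033) (nat_lit 37900547) (nat_lit 4645068) [(nat_lit 1177033), (nat_lit 3243110), (nat_lit 6306636)]) (PF.cons (PF.leaf (nat_lit 11783567) (nat_lit 1174852) (nat_lit 36900598) (nat_lit 4603935) [(nat_lit 1174852), (nat_lit 3220970), (nat_lit 6238958)]) (PF.cons (PF.leaf (nat_lit 12337087) (nat_lit 1171257) (nat_lit 35932619) (nat_lit 4560001) [(nat_lit 1171257), (nat_lit 3196337), (nat_lit 6168423)]) (PF.cons PF.nil (PF.cons PF.nil (PF.cons PF.nil PF.nil)))))))))))))))) (PF.cons (PF.cons (PF.leaf (nat_lit 6576274) (nat_lit 3266432) (nat_lit 45899914) (nat_lit 4785039) [(nat_lit 0), (nat_lit 3266432), (nat_lit 6624561)]) (PF.cons (PF.leaf (nat_lit 7147982) (nat_lit 1127467) (nat_lit 44762159) (nat_lit 4783692) [(nat_lit 1127467), (nat_lit 3277943), (nat_lit 6601662)]) (PF.cons (PF.leaf (nat_lit 7726977) (nat_lit 1141389) (nat_lit 43629781) (nat_lit 4775221) [(nat_lit 1141389), (nat_lit 3283511), (nat_lit 6570496)]) (PF.cons (PF.leaf (nat_lit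 8309289) (nat_lit 1152042) (nat_lit 42509972) (nat_lit 4760177) [(nat_lit 1152042), (nat_lit 3283585), (nat_lit 6531781)]) (PF.cons (PF.leaf (nat_lit 8891762) (nat_lit 1159800) (nat_lit 41408183) (nat_lit 4739169)
 [(nat_lit 1159800), (nat_lit 3278655), (nat_lit 6486293)]) (PF.cons (PF.leaf (nat_lit 9471829) (nat_lit 1164993) (nat_lit 40328521) (nat_lit 4712829) [(nat_lit 1164993), (nat_lit 3269224), (nat_lit 6434824)]) (PF.cons (PF.leaf (nat_lit 10047415) (nat_lit 1167916) (nat_lit 39274033) (nat_lit 4681777) [(nat_lit 1167916), (nat_lit 3255785), (nat_lit 6378146)]) (PF.cons (PF.leaf (nat_lit 10616839) (nat_lit 1168837) (nat_lit 38246912) (nat_lit 4646612) [(nat_lit 1168837), (nat_lit 3238810), (nat_lit 6316997)]) (PF.cons (PF.leaf (nat_lit 11178763) (nat_lit 1167993) (nat_lit 37248672) (nat_lit 4607894) [(nat_lit 1167993), (nat_lit 3218742), (nat_lit 6252069)]) (PF.cons (PF.leaf (nat_lit 11732133) (nat_lit 1165601) (nat_lit 36280273) (nat_lit 4566145) [(nat_lit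 1165601), (nat_lit 3195993), (nat_lit 6183996)]) (PF.cons (PF.leaf (nat_lit 12276134) (nat_lit 1161855) (nat_lit 35342233) (nat_lit 4521841) [(nat_lit 1161855), (nat_lit 3170940), (nat_lit 6113358)]) (PF.cons PF.nil (PF.cons PF.nil (PF.cons PF.nil PF.nil)))))))))))))) (PF.cons (PF.cons (PF.leaf (nat_lit 7766816) (nat_lit 3267159) (nat_lit 42767437) (nat_lit 4747552) [(nat_lit 0), (nat_lit 3267159), (nat_lit 6525183)]) (PF.cons
 (PF.leaf (nat_lit 8332709) (nat_lit 1144391) (nat_lit 41691117) (nat_lit 4729752) [(nat_lit 1144391), (nat_lit 3264994), (nat_lit 6483573)]) (PF.cons (PF.leaf (nat_lit 8900185) (nat_lit 1151704) (nat_lit 40630162) (nat_lit 4706517) [(nat_lit 1151704), (nat_lit 3258229), (nat_lit 6435806)]) (PF.cons (PF.leaf (nat_lit 9466432) (nat_lit 1156510) (nat_lit 39589017) (nat_lit 4678410) [(nat_lit 1156510), (nat_lit 3247313), (nat_lit 6382598)]) (PF.cons (PF.leaf (nat_lit 10029249) (nat_lit 1159109) (nat_lit 38570947) (nat_lit 4645994) [(nat_lit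 1159109), (nat_lit 3232694), (nat_lit 6324656)]) (PF.cons (PF.leaf (nat_lit 10586864) (nat_lit 1159766) (nat_lit 37578300) (nat_lit 4609812) [(nat_lit 1159766), (nat_lit 3214803), (nat_lit 6262654)]) (PF.cons (PF.leaf (nat_lit 11137865) (nat_lit 1158718) (nat_lit 36612704) (nat_lit 4570378) [(nat_lit 1158718), (nat_lit 3194048), (nat_lit 6197225)]) (PF.cons (PF.leaf (nat_lit 11681135) (nat_lit 1156175) (nat_lit 35675216) (nat_lit 4528171) [(nat_lit 1156175), (nat_lit 3170809), (nat_lit 6128955)]) (PF.cons (PF.leaf (nat_lit 12215817) (nat_lit 1152328) (nat_lit 34766437) (nat_lit 4483629) [(nat_lit 1152328), (nat_lit 3145435), (nat_lit 6058376)])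
 (PF.cons (PF.leaf (nat_lit 12741233) (nat_lit 1147344) (nat_lit 33886608) (nat_lit 4437153) [(nat_lit 1147344), (nat_lit 3118244), (nat_lit 5985973)]) (PF.cons PF.nil (PF.cons PF.nil PF.nil)))))))))))) (PF.cons (PF.cons (PF.leaf (nat_lit 8909358) (nat_lit 3236827) (nat_lit 39868152) (nat_lit 4672633) [(nat_lit 0), (nat_lit 3236827), (nat_lit 6383891)]) (PF.cons (PF.leaf (nat_lit 9461570) (nat_lit 1147529) (nat_lit 38865652) (nat_lit 4643062) [(nat_lit 1147529), (nat_lit 3224645), (nat_lit 6329339)]) (PF.cons (PF.leaf (nat_lit 10011590) (nat_lit 1149912) (nat_lit 37883833) (nat_lit 4609535) [(nat_lit 1149912), (nat_lit 3209031), (nat_lit 6270459)]) (PF.cons (PF.leaf (nat_lit 10557448) (nat_lit 1150394) (nat_lit 36925296) (nat_lit 4572550) [(nat_lit 1150394), (nat_lit 3190381), (nat_lit 6207874)]) (PF.cons (PF.leaf (nat_lit 11097627) (nat_lit 1149213) (nat_lit 35991854) (nat_lit 4532577) [(nat_lit 1149213), (nat_lit 3169071), (nat_lit 6142169)]) (PF.cons (PF.leaf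 (nat_lit 11630929) (nat_lit 1146580) (nat_lit 35084705) (nat_lit 4490058) [(nat_lit 1146580), (nat_lit 3145452), (nat_lit 6073884)]) (PF.cons (PF.leaf (nat_lit 12156432) (nat_lit 1142680) (nat_lit 34204568) (nat_lit
 4445400) [(nat_lit 1142680), (nat_lit 3119848), (nat_lit 6003515)]) (PF.cons (PF.leaf (nat_lit 12673399) (nat_lit 1137680) (nat_lit 33351784) (nat_lit 4398972) [(nat_lit 1137680), (nat_lit 3092557), (nat_lit 5931507)]) (PF.cons PF.nil (PF.cons PF.nil PF.nil)))))))))) (PF.cons (PF.cons (PF.leaf (nat_lit 9995154) (nat_lit 3184847) (nat_lit 37211635) (nat_lit 4572466) [(nat_lit 0), (nat_lit 3184847), (nat_lit 6215627)]) (PF.cons (PF.leaf (nat_lit 10529124) (nat_lit 1140719) (nat_lit 36286979) (nat_lit 4534877) [(nat_lit 1140719), (nat_lit 3165586), (nat_lit 6152717)]) (PF.cons (PF.leaf (nat_lit 11058488) (nat_lit 1139480) (nat_lit 35385301) (nat_lit 4494533) [(nat_lit 1139480), (nat_lit 3143844), (nat_lit 6086947)]) (PF.cons (PF.leaf (nat_lit 11581884)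 (nat_lit 1136817) (nat_lit 34508000) (nat_lit 4451841) [(nat_lit 1136817), (nat_lit 3119949), (nat_lit 6018822)]) (PF.cons (PF.leaf (nat_lit 12098287) (nat_lit 1132914) (nat_lit 33655953) (nat_lit 4407179) [(nat_lit 1132914), (nat_lit 3094203), (nat_lit 5948802)]) (PF.cons (PF.leaf (nat_lit 12606904) (nat_lit 1127937) (nat_lit 32829630) (nat_lit 4360893) [(nat_lit 1127937), (nat_lit 3066883), (nat_lit 5877305)]) (PF.cons PF.nil
 (PF.cons PF.nil PF.nil)))))))) (PF.cons (PF.cons (PF.leaf (nat_lit 11020985) (nat_lit 3118395) (nat_lit 34792175) (nat_lit 4456278) [(nat_lit 0), (nat_lit 3118395), (nat_lit 6031592)]) (PF.cons (PF.leaf (nat_lit 11534373) (nat_lit 1126881) (nat_lit 33944335) (nat_lit 4413545) [(nat_lit 1126881), (nat_lit 3094322), (nat_lit 5963792)]) (PF.cons (PF.leaf (nat_lit 12041693) (nat_lit 1123026) (nat_lit 33119907) (nat_lit 4368988) [(nat_lit 1123026), (nat_lit 3068515), (nat_lit 5894256)]) (PF.cons (PF.leaf (nat_lit 12542001) (nat_lit 1118113)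 (nat_lit 32319525) (nat_lit 4322932) [(nat_lit 1118113), (nat_lit 3041233), (nat_lit 5823377)]) (PF.cons PF.nil (PF.cons PF.nil PF.nil)))))) (PF.cons (PF.cons (PF.leaf (nat_lit 11987054) (nat_lit 3042796) (nat_lit 32595719) (nat_lit 4330838) [(nat_lit 0), (nat_lit 3042796), (nat_lit 5839886)]) (PF.cons (PF.leaf (nat_lit 12478966) (nat_lit 1108204) (nat_lit 31820838) (nat_lit 4285096) [(nat_lit 1108204), (nat_lit 3015617), (nat_lit 5769730)]) (PF.cons (PF.leaf (nat_lit 12963993) (nat_lit 1102495) (nat_lit 31068711) (nat_lit 4238235) [(nat_lit 1102495), (nat_lit 2987275), (nat_lit 5698674)]) (PF.cons PF.nil PF.nil)))) (PF.cons (PF.cons (PF.leaf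
 (nat_lit 12895549) (nat_lit 2961923) (nat_lit 30604304) (nat_lit 4200996) [(nat_lit 0), (nat_lit 2961923), (nat_lit 5646196)]) (PF.cons PF.nil PF.nil)) (PF.cons PF.nil (PF.cons PF.nil (PF.cons PF.nil PF.nil))))))))))))) (PF.cons (PF.cons (PF.cons (PF.leaf (nat_lit 4848051) (nat_lit 4700564) (nat_lit 49219425) (nat_lit 4700564) [(nat_lit 0), (nat_lit 0), (nat_lit 6594411)]) (PF.cons (PF.leaf (nat_lit 5375937) (nat_lit 1048148) (nat_lit 48127909) (nat_lit 4726780) [(nat_lit 1048148), (nat_lit 0), (nat_lit 6602987)]) (PF.cons (PF.leaf (nat_lit 5927096) (nat_lit 1076113) (nat_lit 47008065) (nat_lit 4744722) [(nat_lit 1076113), (nat_lit 0), (nat_lit 6601898)]) (PF.cons (PF.leaf (nat_lit 6494514) (nat_lit 1099098) (nat_lit 45874716) (nat_lit 4754376) [(nat_lit 1099098), (nat_lit 0), (nat_lit 6591212)]) (PF.cons (PF.leaf (nat_lit 7072713) (nat_lit 1117751) (nat_lit 44739049) (nat_lit 4756055) [(nat_lit 1117751), (nat_lit 0), (nat_lit 6571350)]) (PF.cons (PF.leaf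 (nat_lit 7657250) (nat_lit 1132596) (nat_lit 43609672) (nat_lit 4750265) [(nat_lit 1132596), (nat_lit 0), (nat_lit 6542946)]) (PF.cons (PF.leaf (nat_lit 8244484) (nat_lit 1144074) (nat_lit 42493253) (nat_lit 4737612) [(nat_lit
 1144074), (nat_lit 0), (nat_lit 6506748)]) (PF.cons (PF.leaf (nat_lit 8831416) (nat_lit 1152571) (nat_lit 41394940) (nat_lit 4718749) [(nat_lit 1152571), (nat_lit 0), (nat_lit 6463559)]) (PF.cons (PF.leaf (nat_lit 9415591) (nat_lit 1158428) (nat_lit 40318663) (nat_lit 4694339) [(nat_lit 1158428), (nat_lit 0), (nat_lit 6414190)]) (PF.cons (PF.leaf (nat_lit 9994987) (nat_lit 1161949) (nat_lit 39267371) (nat_lit 4665030) [(nat_lit 1161949), (nat_lit 0), (nat_lit 6359432)]) (PF.cons (PF.leaf (nat_lit 10567982) (nat_lit 1163408) (nat_lit 38243207) (nat_lit 4631441) [(nat_lit 1163408), (nat_lit 0), (nat_lit 6300038)]) (PF.cons (PF.leaf (nat_lit 11133276) (nat_lit 1163052) (nat_lit 37247660) (nat_lit 4594152) [(nat_lit 1163052), (nat_lit 0),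 (nat_lit 6236713)]) (PF.cons (PF.leaf (nat_lit 11689839) (nat_lit 1161101) (nat_lit 36281687) (nat_lit 4553698) [(nat_lit 1161101), (nat_lit 0), (nat_lit 6170104)]) (PF.cons (PF.leaf (nat_lit 12236866) (nat_lit 1157755) (nat_lit 35345811) (nat_lit 4510572) [(nat_lit 1157755), (nat_lit 0), (nat_lit 6100805)]) (PF.cons PF.nil (PF.cons PF.nil PF.nil)))))))))))))))) (PF.cons (PF.cons (PF.leaf (nat_lit 6020874) (nat_lit 3214132) (nat_lit 46018560)
 (nat_lit 4731322) [(nat_lit 0), (nat_lit 3214132), (nat_lit 6572398)]) (PF.cons (PF.leaf (nat_lit 6567701) (nat_lit 1093884) (nat_lit 44935472) (nat_lit 4735916) [(nat_lit 1093884), (nat_lit 3231168), (nat_lit 6556185)]) (PF.cons (PF.leaf (nat_lit 7127419) (nat_lit 1111879) (nat_lit 43846218) (nat_lit 4733354) [(nat_lit 1111879), (nat_lit 3242078), (nat_lit 6531701)]) (PF.cons (PF.leaf (nat_lit 7695057) (nat_lit 1126083) (nat_lit 42760334) (nat_lit 4724036) [(nat_lit 1126083), (nat_lit 3247225), (nat_lit 6499483)]) (PF.cons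 (PF.leaf (nat_lit 8266695) (nat_lit 1136972) (nat_lit 41685002) (nat_lit 4708477) [(nat_lit 1136972), (nat_lit 3247054), (nat_lit 6460194)]) (PF.cons (PF.leaf (nat_lit 8839172) (nat_lit 1144947) (nat_lit 40625669) (nat_lit 4687254) [(nat_lit 1144947), (nat_lit 3242049), (nat_lit 6414552)]) (PF.cons (PF.leaf (nat_lit 9409913) (nat_lit 1150354) (nat_lit 39586445) (nat_lit 4660960) [(nat_lit 1150354), (nat_lit 3232695), (nat_lit 6363291)]) (PF.cons (PF.leaf (nat_lit 9976824) (nat_lit 1153500) (nat_lit 38570395) (nat_lit 4630181) [(nat_lit 1153500), (nat_lit 3219471), (nat_lit 6307132)]) (PF.cons (PF.leaf (nat_lit 10538212) (nat_lit 1154653) (nat_lit 37579747)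
 (nat_lit 4595481) [(nat_lit 1154653), (nat_lit 3202830), (nat_lit 6246762)]) (PF.cons (PF.leaf (nat_lit 11092729) (nat_lit 1154056) (nat_lit 36616056) (nat_lit 4557391) [(nat_lit 1154056), (nat_lit 3183200), (nat_lit 6182828)]) (PF.cons (PF.leaf (nat_lit 11639295) (nat_lit 1151924) (nat_lit 35680339) (nat_lit 4516404) [(nat_lit 1151924), (nat_lit 3160975), (nat_lit 6115925)]) (PF.cons (PF.leaf (nat_lit 12177057) (nat_lit 1148449) (nat_lit 34773178) (nat_lit 4472972) [(nat_lit 1148449), (nat_lit 3136518), (nat_lit 6046598)]) (PF.cons PF.nil (PF.cons PF.nil PF.nil)))))))))))))) (PF.cons (PF.cons (PF.leaf (nat_lit 7183540) (nat_lit 3227742) (nat_lit 42967120) (nat_lit 4708188) [(nat_lit 0), (nat_lit 3227742), (nat_lit 6489009)]) (PF.cons (PF.leaf (nat_lit 7733491) (nat_lit 1118616) (nat_lit 41926321) (nat_lit 4695820) [(nat_lit 1118616), (nat_lit 3230407), (nat_lit 6453619)]) (PF.cons (PF.leaf (nat_lit 8289157) (nat_lit 1129111) (nat_lit 40892894) (nat_lit 4677767)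 [(nat_lit 1129111), (nat_lit 3228185), (nat_lit 6411778)]) (PF.cons (PF.leaf (nat_lit 8847015) (nat_lit 1136718) (nat_lit 39872846) (nat_lit 4654532) [(nat_lit 1136718), (nat_lit 3221501), (nat_lit 6364137)]) (PF.cons
 (PF.leaf (nat_lit 9404301) (nat_lit 1141802) (nat_lit 38870636) (nat_lit 4626649) [(nat_lit 1141802), (nat_lit 3210793), (nat_lit 6311366)]) (PF.cons (PF.leaf (nat_lit 9958788) (nat_lit 1144673) (nat_lit 37889557) (nat_lit 4594649) [(nat_lit 1144673), (nat_lit 3196495), (nat_lit 6254124)]) (PF.cons (PF.leaf (nat_lit 10508689) (nat_lit 1145604) (nat_lit 36931994) (nat_lit 4559049) [(nat_lit 1145604), (nat_lit 3179025), (nat_lit 6193044)]) (PF.cons (PF.leaf (nat_lit 11052580) (nat_lit 1144836) (nat_lit 35999625) (nat_lit 4520334) [(nat_lit 1144836), (nat_lit 3158777), (nat_lit 6128722)]) (PF.cons (PF.leaf (nat_lit 11589316) (nat_lit 1142580) (nat_lit 35093565) (nat_lit 4478960) [(nat_lit 1142580), (nat_lit 3136117), (nat_lit 6061705)]) (PF.cons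 (PF.leaf (nat_lit 12117995) (nat_lit 1139025) (nat_lit 34214480) (nat_lit 4435343) [(nat_lit 1139025), (nat_lit 3111380), (nat_lit 5992499)]) (PF.cons (PF.leaf (nat_lit 12637952) (nat_lit 1134340) (nat_lit 33362681) (nat_lit 4389864) [(nat_lit 1134340), (nat_lit 3084875), (nat_lit 5921558)]) (PF.cons PF.nil PF.nil)))))))))))) (PF.cons (PF.cons (PF.leaf (nat_lit 8313047) (nat_lit 3208176) (nat_lit 40115413) (nat_lit 4645599) [(nat_lit 0),
 (nat_lit 3208176), (nat_lit 6361634)]) (PF.cons (PF.leaf (nat_lit 8855827) (nat_lit 1127877) (nat_lit 39135225) (nat_lit 4620686) [(nat_lit 1127877), (nat_lit 3200053), (nat_lit 6312432)]) (PF.cons (PF.leaf (nat_lit 9399462) (nat_lit 1132768) (nat_lit 38170171) (nat_lit 4591494) [(nat_lit 1132768), (nat_lit 3188193), (nat_lit 6258514)]) (PF.cons (PF.leaf (nat_lit 9941463) (nat_lit 1135470) (nat_lit 37223918) (nat_lit 4558509) [(nat_lit 1135470), (nat_lit 3172995), (nat_lit 6200492)]) (PF.cons (PF.leaf (nat_lit 10479898) (nat_lit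 1136265) (nat_lit 36299109) (nat_lit 4522205) [(nat_lit 1136265), (nat_lit 3154842), (nat_lit 6138953)]) (PF.cons (PF.leaf (nat_lit 11013233) (nat_lit 1135395) (nat_lit 35397608) (nat_lit 4483030) [(nat_lit 1135395), (nat_lit 3134099), (nat_lit 6074448)]) (PF.cons (PF.leaf (nat_lit 11540244) (nat_lit 1133073) (nat_lit 34520671) (nat_lit 4441405) [(nat_lit 1133073), (nat_lit 3111106), (nat_lit 6007489)]) (PF.cons (PF.leaf (nat_lit 12059966) (nat_lit 1129485) (nat_lit 33669083) (nat_lit 4397716) [(nat_lit 1129485), (nat_lit 3086177), (nat_lit 5938542)]) (PF.cons (PF.leaf (nat_lit 12571664) (nat_lit 1124797) (nat_lit 32843253) (nat_lit 4352317) [(nat_lit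
 1124797), (nat_lit 3059598), (nat_lit 5868032)]) (PF.cons PF.nil PF.nil)))))))))) (PF.cons (PF.cons (PF.leaf (nat_lit 9396254) (nat_lit 3164949) (nat_lit 37483839) (nat_lit 4555560) [(nat_lit 0), (nat_lit 3164949), (nat_lit 6204806)]) (PF.cons (PF.leaf (nat_lit 9925483) (nat_lit 1125884) (nat_lit 36572454) (nat_lit 4521816) [(nat_lit 1125884), (nat_lit 3149015), (nat_lit 6146297)]) (PF.cons (PF.leaf (nat_lit 10452352) (nat_lit 1126632) (nat_lit 35680201) (nat_lit 4484995) [(nat_lit 1126632), (nat_lit 3130318), (nat_lit 6084539)]) (PF.cons (PF.leaf (nat_lit 10975112) (nat_lit 1125733) (nat_lit 34809212) (nat_lit 4445516) [(nat_lit 1125733), (nat_lit 3109196), (nat_lit 6020049)]) (PF.cons (PF.leaf (nat_lit 11492428) (nat_lit 1123402) (nat_lit 33960946) (nat_lit 4403768) [(nat_lit 1123402), (nat_lit 3085968), (nat_lit 5953307)]) (PF.cons (PF.leaf (nat_lit 12003256) (nat_lit 1119829) (nat_lit 33136340) (nat_lit 4360114) [(nat_lit 1119829), (nat_lit 3060927), (nat_lit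 5884751)]) (PF.cons (PF.leaf (nat_lit 12506774) (nat_lit 1115178) (nat_lit 32335932) (nat_lit 4314883) [(nat_lit 1115178), (nat_lit 3034341), (nat_lit 5814777)]) (PF.cons PF.nil PF.nil)))))))) (PF.cons (PF.cons (PF.leaf
 (nat_lit 10426680) (nat_lit 3105480) (nat_lit 35074297) (nat_lit 4447452) [(nat_lit 0), (nat_lit 3105480), (nat_lit 6029831)]) (PF.cons (PF.leaf (nat_lit 10938671) (nat_lit 1115839) (nat_lit 34233599) (nat_lit 4407819) [(nat_lit 1115839), (nat_lit 3084091), (nat_lit 5965548)]) (PF.cons (PF.leaf (nat_lit 11446239) (nat_lit 1113562) (nat_lit 33413650) (nat_lit 4366073) [(nat_lit 1113562), (nat_lit 3060720), (nat_lit 5899180)]) (PF.cons (PF.leaf (nat_lit 11948167) (nat_lit 1110054) (nat_lit 32615593) (nat_lit 4322554) [(nat_lit 1110054), (nat_lit 3035644), (nat_lit 5831140)]) (PF.cons (PF.leaf (nat_lit 12443534) (nat_lit 1105480) (nat_lit 31840126) (nat_lit 4277573) [(nat_lit 1105480), (nat_lit 3009116), (nat_lit 5761803)]) (PF.cons PF.nil PF.nil))))))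 (PF.cons (PF.cons (PF.leaf (nat_lit 11402154) (nat_lit 3035375) (nat_lit 32878003) (nat_lit 4328329) [(nat_lit 0), (nat_lit 3035375), (nat_lit 5845113)]) (PF.cons (PF.leaf (nat_lit 11895025) (nat_lit 1100151) (nat_lit 32106158) (nat_lit 4285045) [(nat_lit 1100151), (nat_lit 3010338), (nat_lit 5777713)]) (PF.cons (PF.leaf (nat_lit 12382212) (nat_lit 1095697) (nat_lit 31355225) (nat_lit 4240394) [(nat_lit 1095697), (nat_lit 2983928),
 (nat_lit 5709112)]) (PF.cons (PF.leaf (nat_lit 12862860) (nat_lit 1090330) (nat_lit 30625721) (nat_lit 4194643) [(nat_lit 1090330), (nat_lit 2956364), (nat_lit 5639633)]) PF.nil)))) (PF.cons (PF.cons (PF.leaf (nat_lit 12323160) (nat_lit 2958781) (nat_lit 30880602) (nat_lit 4203345) [(nat_lit 0), (nat_lit 2958781), (nat_lit 5656698)]) (PF.cons (PF.leaf (nat_lit 12796209) (nat_lit 1080612) (nat_lit 30173743) (nat_lit 4158069) [(nat_lit 1080612), (nat_lit 2931451), (nat_lit 5588112)]) PF.nil)) (PF.cons PF.nil (PF.cons PF.nil (PF.cons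 PF.nil PF.nil))))))))))) (PF.cons (PF.cons (PF.cons (PF.leaf (nat_lit 6631526) (nat_lit 4663371) (nat_lit 43104575) (nat_lit 4663371) [(nat_lit 0), (nat_lit 0), (nat_lit 6446955)]) (PF.cons (PF.leaf (nat_lit 7160096) (nat_lit 1088315) (nat_lit 42110084) (nat_lit 4656628) [(nat_lit 1088315), (nat_lit 0), (nat_lit 6417928)]) (PF.cons (PF.leaf (nat_lit 7699524) (nat_lit 1102692) (nat_lit 41112727) (nat_lit 4644005) [(nat_lit 1102692), (nat_lit 0), (nat_lit 6382231)]) (PF.cons (PF.leaf (nat_lit 8245286) (nat_lit 1113639) (nat_lit 40120701) (nat_lit 4625923) [(nat_lit 1113639), (nat_lit 0), (nat_lit 6340423)]) (PF.cons (PF.leaf (nat_lit 8793896) (nat_lit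
 1121633) (nat_lit 39140059) (nat_lit 4602869) [(nat_lit 1121633), (nat_lit 0), (nat_lit 6293116)]) (PF.cons (PF.leaf (nat_lit 9342567) (nat_lit 1127065) (nat_lit 38175303) (nat_lit 4575350) [(nat_lit 1127065), (nat_lit 0), (nat_lit 6240943)]) (PF.cons (PF.leaf (nat_lit 9889043) (nat_lit 1130264) (nat_lit 37229774) (nat_lit 4543876) [(nat_lit 1130264), (nat_lit 0), (nat_lit 6184525)]) (PF.cons (PF.leaf (nat_lit 10431533) (nat_lit 1131512) (nat_lit 36305909) (nat_lit 4508940) [(nat_lit 1131512), (nat_lit 0), (nat_lit 6124459)]) (PF.cons (PF.leaf (nat_lit 10968568) (nat_lit 1131055) (nat_lit 35405444) (nat_lit 4471005) [(nat_lit 1131055), (nat_lit 0), (nat_lit 6061306)]) (PF.cons (PF.leaf (nat_lit 11498995) (nat_lit 1129109) (nat_lit 34529557) (nat_lit 4430506) [(nat_lit 1129109), (nat_lit 0), (nat_lit 5995586)]) (PF.cons (PF.leaf (nat_lit 12021902) (nat_lit 1125866) (nat_lit 33678982) (nat_lit 4387841) [(nat_lit 1125866), (nat_lit 0), (nat_lit 5927775)]) (PF.cons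 PF.nil (PF.cons PF.nil (PF.cons PF.nil PF.nil)))))))))))))) (PF.cons (PF.cons (PF.leaf (nat_lit 7739457) (nat_lit 3174902) (nat_lit 40318450) (nat_lit 4613678) [(nat_lit 0), (nat_lit 3174902), (nat_lit 6333927)]) (PF.cons
 (PF.leaf (nat_lit 8268752) (nat_lit 1104823) (nat_lit 39368023) (nat_lit 4593697) [(nat_lit 1104823), (nat_lit 3171191), (nat_lit 6290359)]) (PF.cons (PF.leaf (nat_lit 8802637) (nat_lit 1112690) (nat_lit 38425754) (nat_lit 4569130) [(nat_lit 1112690), (nat_lit 3163424), (nat_lit 6241707)]) (PF.cons (PF.leaf (nat_lit 9337941) (nat_lit 1117987) (nat_lit 37496731) (nat_lit 4540439) [(nat_lit 1117987), (nat_lit 3151994), (nat_lit 6188561)]) (PF.cons (PF.leaf (nat_lit 9872204) (nat_lit 1121063) (nat_lit 36584670) (nat_lit 4508091) [(nat_lit 1121063), (nat_lit 3137294), (nat_lit 6131501)]) (PF.cons (PF.leaf (nat_lit 10403476) (nat_lit 1122211) (nat_lit 35692267) (nat_lit 4472538) [(nat_lit 1122211), (nat_lit 3119701), (nat_lit 6071082)]) (PF.cons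 (PF.leaf (nat_lit 10930198) (nat_lit 1121681) (nat_lit 34821446) (nat_lit 4434212) [(nat_lit 1121681), (nat_lit 3099573), (nat_lit 6007830)]) (PF.cons (PF.leaf (nat_lit 11451126) (nat_lit 1119692) (nat_lit 33973526) (nat_lit 4393514) [(nat_lit 1119692), (nat_lit 3077240), (nat_lit 5942227)]) (PF.cons (PF.leaf (nat_lit 11965264) (nat_lit 1116433) (nat_lit 33149358) (nat_lit 4350817) [(nat_lit 1116433), (nat_lit 3053009), (nat_lit 5874719)])
 (PF.cons (PF.leaf (nat_lit 12471846) (nat_lit 1112071) (nat_lit 32349423) (nat_lit 4306459) [(nat_lit 1112071), (nat_lit 3027157), (nat_lit 5805709)]) (PF.cons PF.nil (PF.cons PF.nil PF.nil)))))))))))) (PF.cons (PF.cons (PF.leaf (nat_lit 8813651) (nat_lit 3141199) (nat_lit 37724422) (nat_lit 4534424) [(nat_lit 0), (nat_lit 3141199), (nat_lit 6189188)]) (PF.cons (PF.leaf (nat_lit 9335076) (nat_lit 1108419) (nat_lit 36831559) (nat_lit 4504815) [(nat_lit 1108419), (nat_lit 3128904), (nat_lit 6135403)]) (PF.cons (PF.leaf (nat_lit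 9856875) (nat_lit 1111485) (nat_lit 35953032) (nat_lit 4471803) [(nat_lit 1111485), (nat_lit 3113541), (nat_lit 6077974)]) (PF.cons (PF.leaf (nat_lit 10376811) (nat_lit 1112621) (nat_lit 35091924) (nat_lit 4435809) [(nat_lit 1112621), (nat_lit 3095463), (nat_lit 6017428)]) (PF.cons (PF.leaf (nat_lit 10893173) (nat_lit 1112090) (nat_lit 34250426) (nat_lit 4397237) [(nat_lit 1112090), (nat_lit 3075002), (nat_lit 5954260)]) (PF.cons (PF.leaf (nat_lit 11404602) (nat_lit 1110115) (nat_lit 33430057) (nat_lit 4356462) [(nat_lit 1110115), (nat_lit 3052470), (nat_lit 5888925)]) (PF.cons (PF.leaf (nat_lit 11910018) (nat_lit 1106887) (nat_lit 32631820) (nat_lit 4313831)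
 [(nat_lit 1106887), (nat_lit 3028153), (nat_lit 5821842)]) (PF.cons (PF.leaf (nat_lit 12408591) (nat_lit 1102575) (nat_lit 31856322) (nat_lit 4269662) [(nat_lit 1102575), (nat_lit 3002315), (nat_lit 5753390)]) (PF.cons PF.nil (PF.cons PF.nil PF.nil)))))))))) (PF.cons (PF.cons (PF.leaf (nat_lit 9843821) (nat_lit 3089372) (nat_lit 35333740) (nat_lit 4435042) [(nat_lit 0), (nat_lit 3089372), (nat_lit 6023971)]) (PF.cons (PF.leaf (nat_lit 10352080) (nat_lit 1102727) (nat_lit 34503939) (nat_lit 4398780) [(nat_lit 1102727), (nat_lit 3070934), (nat_lit 5963520)]) (PF.cons (PF.leaf (nat_lit 10857928) (nat_lit 1102271) (nat_lit 33691575) (nat_lit 4360103) [(nat_lit 1102271), (nat_lit 3050247), (nat_lit 5900616)]) (PF.cons (PF.leaf (nat_lit 11359785) (nat_lit 1100370) (nat_lit 32898438) (nat_lit 4319366) [(nat_lit 1100370), (nat_lit 3027603), (nat_lit 5835695)]) (PF.cons (PF.leaf (nat_lit 11856458) (nat_lit 1097223) (nat_lit 32125734) (nat_lit 4276897) [(nat_lit 1097223),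 (nat_lit 3003274), (nat_lit 5769155)]) (PF.cons (PF.leaf (nat_lit 12347028) (nat_lit 1093000) (nat_lit 31374224) (nat_lit 4232995) [(nat_lit 1093000), (nat_lit 2977508), (nat_lit 5701355)]) (PF.cons PF.nil (PF.cons PF.nil
 PF.nil)))))))) (PF.cons (PF.cons (PF.leaf (nat_lit 10825032) (nat_lit 3025318) (nat_lit 33144012) (nat_lit 4322821) [(nat_lit 0), (nat_lit 3025318), (nat_lit 5846901)]) (PF.cons (PF.leaf (nat_lit 11317072) (nat_lit 1090445) (nat_lit 32377915) (nat_lit 4282236) [(nat_lit 1090445), (nat_lit 3002648), (nat_lit 5782540)]) (PF.cons (PF.leaf (nat_lit 11804905) (nat_lit 1087431) (nat_lit 31630440) (nat_lit 4240022) [(nat_lit 1087431), (nat_lit 2978377), (nat_lit 5716659)]) (PF.cons (PF.leaf (nat_lit 12287417) (nat_lit 1083339) (nat_lit 30902546) (nat_lit 4196462) [(nat_lit 1083339), (nat_lit 2952743), (nat_lit 5649604)]) (PF.cons (PF.leaf (nat_lit 12763792) (nat_lit 1078321) (nat_lit 30194813) (nat_lit 4151817) [(nat_lit 1078321), (nat_lit 2925959),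 (nat_lit 5581685)]) (PF.cons PF.nil PF.nil)))))) (PF.cons (PF.cons (PF.leaf (nat_lit 11755779) (nat_lit 2953466) (nat_lit 31145241) (nat_lit 4203204) [(nat_lit 0), (nat_lit 2953466), (nat_lit 5664345)]) (PF.cons (PF.leaf (nat_lit 12230044) (nat_lit 1073580) (nat_lit 30440682) (nat_lit 4160062) [(nat_lit 1073580), (nat_lit 2928020), (nat_lit 5598128)]) (PF.cons (PF.leaf (nat_lit 12698993) (nat_lit 1068732) (nat_lit 29754768) (nat_lit 4115893)
 [(nat_lit 1068732), (nat_lit 2901476), (nat_lit 5531100)]) (PF.cons PF.nil PF.nil)))) (PF.cons (PF.cons (PF.leaf (nat_lit 12636686) (nat_lit 2877078) (nat_lit 29323639) (nat_lit 4080154) [(nat_lit 0), (nat_lit 2877078), (nat_lit 5480849)]) (PF.cons PF.nil PF.nil)) (PF.cons PF.nil (PF.cons PF.nil (PF.cons PF.nil PF.nil)))))))))) (PF.cons (PF.cons (PF.cons (PF.leaf (nat_lit 8251246) (nat_lit 4508670) (nat_lit 37926575) (nat_lit 4508670) [(nat_lit 0), (nat_lit 0), (nat_lit 6168391)]) (PF.cons (PF.leaf (nat_lit 8761123) (nat_lit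 1087736) (nat_lit 37058838) (nat_lit 4483516) [(nat_lit 1087736), (nat_lit 0), (nat_lit 6119680)]) (PF.cons (PF.leaf (nat_lit 9274775) (nat_lit 1093578) (nat_lit 36199338) (nat_lit 4454626) [(nat_lit 1093578), (nat_lit 0), (nat_lit 6066922)]) (PF.cons (PF.leaf (nat_lit 9789307) (nat_lit 1097114) (nat_lit 35352441) (nat_lit 4422420) [(nat_lit 1097114), (nat_lit 0), (nat_lit 6010651)]) (PF.cons (PF.leaf (nat_lit 10302525) (nat_lit 1098678) (nat_lit 34521296) (nat_lit 4387309) [(nat_lit 1098678), (nat_lit 0), (nat_lit 5951372)]) (PF.cons (PF.leaf (nat_lit 10812680) (nat_lit 1098545) (nat_lit 33708159) (nat_lit 4349683) [(nat_lit 1098545), (nat_lit 0), (nat_lit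
 5889560)]) (PF.cons (PF.leaf (nat_lit 11318389) (nat_lit 1096947) (nat_lit 32914615) (nat_lit 4309905) [(nat_lit 1096947), (nat_lit 0), (nat_lit 5825652)]) (PF.cons (PF.leaf (nat_lit 11818559) (nat_lit 1094081) (nat_lit 32141735) (nat_lit 4268312) [(nat_lit 1094081), (nat_lit 0), (nat_lit 5760048)]) (PF.cons (PF.leaf (nat_lit 12312308) (nat_lit 1090119) (nat_lit 31390192) (nat_lit 4225210) [(nat_lit 1090119), (nat_lit 0), (nat_lit 5693113)]) (PF.cons PF.nil (PF.cons PF.nil (PF.cons PF.nil PF.nil)))))))))))) (PF.cons (PF.cons (PF.leaf (nat_lit 9275372) (nat_lit 3069693) (nat_lit 35565743) (nat_lit 4418715) [(nat_lit 0), (nat_lit 3069693), (nat_lit 6013665)]) (PF.cons (PF.leaf (nat_lit 9777097) (nat_lit 1087146) (nat_lit 34751465) (nat_lit 4386126) [(nat_lit 1087146), (nat_lit 3054519), (nat_lit 5957388)]) (PF.cons (PF.leaf (nat_lit 10278878) (nat_lit 1088831) (nat_lit 33950457) (nat_lit 4350803) [(nat_lit 1088831), (nat_lit 3036800), (nat_lit 5898271)]) (PF.cons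 (PF.leaf (nat_lit 10778689) (nat_lit 1088800) (nat_lit 33165356) (nat_lit 4313115) [(nat_lit 1088800), (nat_lit 3016848), (nat_lit 5836772)]) (PF.cons (PF.leaf (nat_lit 11274986) (nat_lit 1087296) (nat_lit 32398014)
 (nat_lit 4273407) [(nat_lit 1087296), (nat_lit 2994955), (nat_lit 5773312)]) (PF.cons (PF.leaf (nat_lit 11766553) (nat_lit 1084525) (nat_lit 31649702) (nat_lit 4231998) [(nat_lit 1084525), (nat_lit 2971389), (nat_lit 5708273)]) (PF.cons (PF.leaf (nat_lit 12252430) (nat_lit 1080664) (nat_lit 30921245) (nat_lit 4189177) [(nat_lit 1080664), (nat_lit 2946394), (nat_lit 5642002)]) (PF.cons PF.nil (PF.cons PF.nil (PF.cons PF.nil PF.nil)))))))))) (PF.cons (PF.cons (PF.leaf (nat_lit 10257981) (nat_lit 3012329) (nat_lit 33390337) (nat_lit 4314032) [(nat_lit 0), (nat_lit 3012329), (nat_lit 5844945)]) (PF.cons (PF.leaf (nat_lit 10747062) (nat_lit 1078806) (nat_lit 32633285) (nat_lit 4276416) [(nat_lit 1078806), (nat_lit 2992285), (nat_lit 5783933)]) (PF.cons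 (PF.leaf (nat_lit 11233750) (nat_lit 1077463) (nat_lit 31891984) (nat_lit 4236886) [(nat_lit 1077463), (nat_lit 2970389), (nat_lit 5721058)]) (PF.cons (PF.leaf (nat_lit 11716600) (nat_lit 1074841) (nat_lit 31167967) (nat_lit 4195748) [(nat_lit 1074841), (nat_lit 2946898), (nat_lit 5656694)]) (PF.cons (PF.leaf (nat_lit 12194542) (nat_lit 1071121) (nat_lit 30462254) (nat_lit 4153280) [(nat_lit 1071121), (nat_lit 2922045), (nat_lit
 5591174)]) (PF.cons (PF.leaf (nat_lit 12666738) (nat_lit 1066460) (nat_lit 29775486) (nat_lit 4109734) [(nat_lit 1066460), (nat_lit 2896043), (nat_lit 5524800)]) (PF.cons PF.nil (PF.cons PF.nil PF.nil)))))))) (PF.cons (PF.cons (PF.leaf (nat_lit 11195198) (nat_lit 2945744) (nat_lit 31395734) (nat_lit 4200338) [(nat_lit 0), (nat_lit 2945744), (nat_lit 5668876)]) (PF.cons (PF.leaf (nat_lit 11669050) (nat_lit 1065011) (nat_lit 30695857) (nat_lit 4159561) [(nat_lit 1065011), (nat_lit 2922394), (nat_lit 5605299)]) (PF.cons (PF.leaf (nat_lit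 12138921) (nat_lit 1061480) (nat_lit 30012637) (nat_lit 4117516) [(nat_lit 1061480), (nat_lit 2897739), (nat_lit 5540620)]) (PF.cons (PF.leaf (nat_lit 12603781) (nat_lit 1056996) (nat_lit 29346903) (nat_lit 4074448) [(nat_lit 1056996), (nat_lit 2871981), (nat_lit 5475131)]) (PF.cons PF.nil (PF.cons PF.nil PF.nil)))))) (PF.cons (PF.cons (PF.leaf (nat_lit 12085957) (nat_lit 2873471) (nat_lit 29571772) (nat_lit 4081876) [(nat_lit 0), (nat_lit 2873471), (nat_lit 5490319)]) (PF.cons (PF.leaf (nat_lit 12543260) (nat_lit 1047456) (nat_lit 28926843) (nat_lit 4039344) [(nat_lit 1047456), (nat_lit 2848003), (nat_lit 5425788)]) (PF.cons PF.nil (PF.cons PF.nil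
 PF.nil)))) (PF.cons (PF.cons (PF.leaf (nat_lit 12930928) (nat_lit 2798104) (nat_lit 27905658) (nat_lit 3961722) [(nat_lit 0), (nat_lit 2798104), (nat_lit 5312726)]) (PF.cons PF.nil PF.nil)) (PF.cons PF.nil (PF.cons PF.nil PF.nil)))))))) (PF.cons (PF.cons (PF.cons (PF.leaf (nat_lit 9703764) (nat_lit 4301631) (nat_lit 33612733) (nat_lit 4301631) [(nat_lit 0), (nat_lit 0), (nat_lit 5838889)]) (PF.cons (PF.leaf (nat_lit 10187302) (nat_lit 1064849) (nat_lit 32868812) (nat_lit 4267285) [(nat_lit 1064849), (nat_lit 0), (nat_lit 5781572)]) (PF.cons (PF.leaf (nat_lit 10670704) (nat_lit 1065488) (nat_lit 32137003) (nat_lit 4230719) [(nat_lit 1065488), (nat_lit 0), (nat_lit 5722022)]) (PF.cons (PF.leaf (nat_lit 11152093) (nat_lit 1064586) (nat_lit 31419592) (nat_lit 4192258) [(nat_lit 1064586), (nat_lit 0), (nat_lit 5660640)]) (PF.cons (PF.leaf (nat_lit 11630079) (nat_lit 1062372) (nat_lit 30718172) (nat_lit 4152203) [(nat_lit 1062372), (nat_lit 0), (nat_lit 5597789)])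 (PF.cons (PF.leaf (nat_lit 12103553) (nat_lit 1059036) (nat_lit 30033830) (nat_lit 4110825) [(nat_lit 1059036), (nat_lit 0), (nat_lit 5533794)]) (PF.cons (PF.leaf (nat_lit 12571655) (nat_lit 1054740) (nat_lit 29367264)
 (nat_lit 4068373) [(nat_lit 1054740), (nat_lit 0), (nat_lit 5468946)]) (PF.cons PF.nil PF.nil)))))))) (PF.cons (PF.cons (PF.leaf (nat_lit 10643543) (nat_lit 2935331) (nat_lit 31629047) (nat_lit 4194475) [(nat_lit 0), (nat_lit 2935331), (nat_lit 5669991)]) (PF.cons (PF.leaf (nat_lit 11115032) (nat_lit 1054635) (nat_lit 30936758) (nat_lit 4156320) [(nat_lit 1054635), (nat_lit 2914326), (nat_lit 5609354)]) (PF.cons (PF.leaf (nat_lit 11584187) (nat_lit 1052643) (nat_lit 30258621) (nat_lit 4116636) [(nat_lit 1052643), (nat_lit 2891781), (nat_lit 5547297)]) (PF.cons (PF.leaf (nat_lit 12049679) (nat_lit 1049507) (nat_lit 29595971) (nat_lit 4075686) [(nat_lit 1049507), (nat_lit 2867921), (nat_lit 5484142)]) (PF.cons (PF.leaf (nat_lit 12510532) (nat_lit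 1045396) (nat_lit 28949694) (nat_lit 4033711) [(nat_lit 1045396), (nat_lit 2842950), (nat_lit 5420173)]) (PF.cons PF.nil PF.nil)))))) (PF.cons (PF.cons (PF.leaf (nat_lit 11541217) (nat_lit 2867664) (nat_lit 29807538) (nat_lit 4081120) [(nat_lit 0), (nat_lit 2867664), (nat_lit 5496965)]) (PF.cons (PF.leaf (nat_lit 11998415) (nat_lit 1039858) (nat_lit 29166466) (nat_lit 4040669) [(nat_lit 1039858), (nat_lit 2844061), (nat_lit 5434738)])
 (PF.cons (PF.leaf (nat_lit 12451856) (nat_lit 1035973) (nat_lit 28540273) (nat_lit 3999228) [(nat_lit 1035973), (nat_lit 2819382), (nat_lit 5371719)]) (PF.cons PF.nil PF.nil)))) (PF.cons (PF.cons (PF.leaf (nat_lit 12395996) (nat_lit 2795887) (nat_lit 28138448) (nat_lit 3964908) [(nat_lit 0), (nat_lit 2795887), (nat_lit 5323558)]) (PF.cons (PF.leaf (nat_lit 12837759) (nat_lit 1021962) (nat_lit 27546452) (nat_lit 3923296) [(nat_lit 1021962), (nat_lit 2770665), (nat_lit 5261020)]) PF.nil)) (PF.cons PF.nil (PF.cons PF.nil PF.nil))))))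 (PF.cons (PF.cons (PF.cons (PF.leaf (nat_lit 11004445) (nat_lit 4077623) (nat_lit 30028229) (nat_lit 4077623) [(nat_lit 0), (nat_lit 0), (nat_lit 5500493)]) (PF.cons (PF.leaf (nat_lit 11459735) (nat_lit 1030570) (nat_lit 29393586) (nat_lit 4039500) [(nat_lit 1030570), (nat_lit 0), (nat_lit 5440859)]) (PF.cons (PF.leaf (nat_lit 11912786) (nat_lit 1028107) (nat_lit 28771622) (nat_lit 4000143) [(nat_lit 1028107), (nat_lit 0), (nat_lit 5380138)]) (PF.cons (PF.leaf (nat_lit 12362352) (nat_lit 1024612) (nat_lit 28163517) (nat_lit 3959784) [(nat_lit 1024612), (nat_lit 0), (nat_lit 5318612)]) (PF.cons PF.nil (PF.cons PF.nil PF.nil)))))) (PF.cons (PF.cons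
 (PF.leaf (nat_lit 11866373) (nat_lit 2791655) (nat_lit 28360367) (nat_lit 3965837) [(nat_lit 0), (nat_lit 2791655), (nat_lit 5331825)]) (PF.cons (PF.leaf (nat_lit 12308258) (nat_lit 1015198) (nat_lit 27771583) (nat_lit 3926066) [(nat_lit 1015198), (nat_lit 2768102), (nat_lit 5271310)]) (PF.cons PF.nil (PF.cons PF.nil PF.nil)))) (PF.cons (PF.cons (PF.leaf (nat_lit 12688586) (nat_lit 2721000) (nat_lit 26828732) (nat_lit 3852584) [(nat_lit 0), (nat_lit 2721000), (nat_lit 5164249)]) (PF.cons PF.nil PF.nil)) (PF.cons PF.nil PF.nil)))) (PF.cons (PF.cons (PF.cons (PF.leaf (nat_lit 12173370) (nat_lit 3854860) (nat_lit 27037709) (nat_lit 3854860) [(nat_lit 0), (nat_lit 0), (nat_lit 5173749)]) (PF.cons (PF.leaf (nat_lit 12601109) (nat_lit 991171) (nat_lit 26495509) (nat_lit 3816002) [(nat_lit 991171), (nat_lit 0), (nat_lit 5115161)]) PF.nil)) (PF.cons PF.nil PF.nil)) (PF.cons PF.nil (PF.cons PF.nil (PF.cons PF.nil (PF.cons PF.nil PF.nil))))))))))))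

def p13_22_0_0 : pfC (piC [(nat_lit 30365544), (nat_lit 20402210), (nat_lit 13167684)] (nat_lit 16044505)) p13_22_0 (nat_lit 3) (nat_lit 0) (nat_lit 1) = true := by decide +kernel
def p13_22_0_1 : pfC (piC [(nat_lit 30365544), (nat_lit 20402210), (nat_lit 13167684)] (nat_lit 16044505)) p13_22_0 (nat_lit 3) (nat_lit 1) (nat_lit 2) = true := by decide +kernel
def p13_22_0_2 : pfC (piC [(nat_lit 30365544), (nat_lit 20402210), (nat_lit 13167684)] (nat_lit 16044505)) p13_22_0 (nat_lit 3) (nat_lit 2) (nat_lit 3) = true := by decide +kernel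
def p13_22_0_3 : pfC (piC [(nat_lit 30365544), (nat_lit 20402210), (nat_lit 13167684)] (nat_lit 16044505)) p13_22_0 (nat_lit 3) (nat_lit 3) (nat_lit 4) = true := by decide +kernel
def p13_22_0_4 : pfC (piC [(nat_lit 30365544), (nat_lit 20402210), (nat_lit 13167684)] (nat_lit 16044505)) p13_22_0 (nat_lit 3) (nat_lit 4) (nat_lit 5) = true := by decide +kernel
def p13_22_0_5 : pfC (piC [(nat_lit 30365544), (nat_lit 20402210), (nat_lit 13167684)] (nat_lit 16044505)) p13_22_0 (nat_lit 3) (nat_lit 5) (nat_lit 6) = true := by decide +kernel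
def p13_22_0_6 : pfC (piC [(nat_lit 30365544), (nat_lit 20402210), (nat_lit 13167684)] (nat_lit 16044505)) p13_22_0 (nat_lit 3) (nat_lit 6) (nat_lit 7) = true := by decide +kernel
def p13_22_0_7 : pfC (piC [(nat_lit 30365544), (nat_lit 20402210), (nat_lit 13167684)] (nat_lit 16044505)) p13_22_0 (nat_lit 3) (nat_lit 7) (nat_lit 8) = true := by decide +kernel
def p13_22_0_8 : pfC (piC [(nat_lit 30365544), (nat_lit 20402210), (nat_lit 13167684)] (nat_lit 16044505)) p13_22_0 (nat_lit 3) (nat_lit 8) (nat_lit 9) = true := by decide +kernel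
def p13_22_0_9 : pfC (piC [(nat_lit 30365544), (nat_lit 20402210), (nat_lit 13167684)] (nat_lit 16044505)) p13_22_0 (nat_lit 3) (nat_lit 9) (nat_lit 10) = true := by decide +kernel
def p13_22_0_10 : pfC (piC [(nat_lit 30365544), (nat_lit 20402210), (nat_lit 13167684)] (nat_lit 16044505)) p13_22_0 (nat_lit 3) (nat_lit 10) (nat_lit 11) = true := by decide +kernel
def p13_22_0_11 : pfC (piC [(nat_lit 30365544), (nat_lit 20402210), (nat_lit 13167684)] (nat_lit 16044505)) p13_22_0 (nat_lit 3) (nat_lit 11) (nat_lit 12) = true := by decide +kernel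
def p13_22_0_12 : pfC (piC [(nat_lit 30365544), (nat_lit 20402210), (nat_lit 13167684)] (nat_lit 16044505)) p13_22_0 (nat_lit 3) (nat_lit 12) (nat_lit 13) = true := by decide +kernel
def p13_22_0_13 : pfC (piC [(nat_lit 30365544), (nat_lit 20402210), (nat_lit 13167684)] (nat_lit 16044505)) p13_22_0 (nat_lit 3) (nat_lit 13) (nat_lit 14) = true := by decide +kernel
def p13_22_0_14 : pfC (piC [(nat_lit 30365544), (nat_lit 20402210), (nat_lit 13167684)] (nat_lit 16044505)) p13_22_0 (nat_lit 3) (nat_lit 14) (nat_lit 15) = true := by decide +kernel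
def p13_22_0_15 : pfC (piC [(nat_lit 30365544), (nat_lit 20402210), (nat_lit 13167684)] (nat_lit 16044505)) p13_22_0 (nat_lit 3) (nat_lit 15) (nat_lit 16) = true := by decide +kernel
def p13_22_0_16 : pfC (piC [(nat_lit 30365544), (nat_lit 20402210), (nat_lit 13167684)] (nat_lit 16044505)) p13_22_0 (nat_lit 3) (nat_lit 16) (nat_lit 17) = true := by decide +kernel
def p13_22_0_17 : pfC (piC [(nat_lit 30365544), (nat_lit 20402210), (nat_lit 13167684)] (nat_lit 16044505)) p13_22_0 (nat_lit 3) (nat_lit 17) (nat_lit 18) = true := by decide +kernel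
def p13_22_0_18 : pfC (piC [(nat_lit 30365544), (nat_lit 20402210), (nat_lit 13167684)] (nat_lit 16044505)) p13_22_0 (nat_lit 3) (nat_lit 18) (nat_lit 19) = true := by decide +kernel
def p13_22_0_19 : pfC (piC [(nat_lit 30365544), (nat_lit 20402210), (nat_lit 13167684)] (nat_lit 16044505)) p13_22_0 (nat_lit 3) (nat_lit 19) (nat_lit 20) = true := by decide +kernel
def p13_22_0_20 : pfC (piC [(nat_lit 30365544), (nat_lit 20402210), (nat_lit 13167684)] (nat_lit 16044505)) p13_22_0 (nat_lit 3) (nat_lit 20) (nat_lit 21) = true := by decide +kernel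
def p13_22_0_21 : pfC (piC [(nat_lit 30365544), (nat_lit 20402210), (nat_lit 13167684)] (nat_lit 16044505)) p13_22_0 (nat_lit 3) (nat_lit 21) (nat_lit 22) = true := by decide +kernel
def p13_22_0_22 : pfC (piC [(nat_lit 30365544), (nat_lit 20402210), (nat_lit 13167684)] (nat_lit 16044505)) p13_22_0 (nat_lit 3) (nat_lit 22) (nat_lit 23) = true := by decide +kernel
def p13_22_0_23 : pfC (piC [(nat_lit 30365544), (nat_lit 20402210), (nat_lit 13167684)] (nat_lit 16044505)) p13_22_0 (nat_lit 3) (nat_lit 23) (nat_lit 24) = true := by decide +kernel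
def p13_22_0_24 : pfC (piC [(nat_lit 30365544), (nat_lit 20402210), (nat_lit 13167684)] (nat_lit 16044505)) p13_22_0 (nat_lit 3) (nat_lit 24) (nat_lit 25) = true := by decide +kernel
def p13_22_0_25 : pfC (piC [(nat_lit 30365544), (nat_lit 20402210), (nat_lit 13167684)] (nat_lit 16044505)) p13_22_0 (nat_lit 3) (nat_lit 25) (nat_lit 26) = true := by decide +kernel
def p13_22_0_26 : pfC (piC [(nat_lit 30365544), (nat_lit 20402210), (nat_lit 13167684)] (nat_lit 16044505)) p13_22_0 (nat_lit 3) (nat_lit 26) (nat_lit 27) = true := by decide +kernel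
def p13_22_0_27 : pfC (piC [(nat_lit 30365544), (nat_lit 20402210), (nat_lit 13167684)] (nat_lit 16044505)) p13_22_0 (nat_lit 3) (nat_lit 27) (nat_lit 28) = true := by decide +kernel
def p13_22_0_28 : pfC (piC [(nat_lit 30365544), (nat_lit 20402210), (nat_lit 13167684)] (nat_lit 16044505)) p13_22_0 (nat_lit 3) (nat_lit 28) (nat_lit 29) = true := by decide +kernel
def p13_22_0_29 : pfC (piC [(nat_lit 30365544), (nat_lit 20402210), (nat_lit 13167684)] (nat_lit 16044505)) p13_22_0 (nat_lit 3) (nat_lit 29) (nat_lit 30) = true := by decide +kernel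
def p13_22_0_30 : pfC (piC [(nat_lit 30365544), (nat_lit 20402210), (nat_lit 13167684)] (nat_lit 16044505)) p13_22_0 (nat_lit 3) (nat_lit 30) (nat_lit 31) = true := by decide +kernel
def p13_22_0_31 : pfC (piC [(nat_lit 30365544), (nat_lit 20402210), (nat_lit 13167684)] (nat_lit 16044505)) p13_22_0 (nat_lit 3) (nat_lit 31) (nat_lit 32) = true := by decide +kernel
def p13_22_0_32 : pfC (piC [(nat_lit 30365544), (nat_lit 20402210), (nat_lit 13167684)] (nat_lit 16044505)) p13_22_0 (nat_lit 3) (nat_lit 32) (nat_lit 33) = true := by decide +kernel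
def p13_22_0_33 : pfC (piC [(nat_lit 30365544), (nat_lit 20402210), (nat_lit 13167684)] (nat_lit 16044505)) p13_22_0 (nat_lit 3) (nat_lit 33) (nat_lit 34) = true := by decide +kernel
def p13_22_0_34 : pfC (piC [(nat_lit 30365544), (nat_lit 20402210), (nat_lit 13167684)] (nat_lit 16044505)) p13_22_0 (nat_lit 3) (nat_lit 34) (nat_lit 35) = true := by decide +kernel
def p13_22_0_35 : pfC (piC [(nat_lit 30365544), (nat_lit 20402210), (nat_lit 13167684)] (nat_lit 16044505)) p13_22_0 (nat_lit 3) (nat_lit 35) (nat_lit 36) = true := by decide +kernel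
def p13_22_0_36 : pfC (piC [(nat_lit 30365544), (nat_lit 20402210), (nat_lit 13167684)] (nat_lit 16044505)) p13_22_0 (nat_lit 3) (nat_lit 36) (nat_lit 37) = true := by decide +kernel
def p13_22_0_37 : pfC (piC [(nat_lit 30365544), (nat_lit 20402210), (nat_lit 13167684)] (nat_lit 16044505)) p13_22_0 (nat_lit 3) (nat_lit 37) (nat_lit 38) = true := by decide +kernel
def p13_22_0_38 : pfC (piC [(nat_lit 30365544), (nat_lit 20402210), (nat_lit 13167684)] (nat_lit 16044505)) p13_22_0 (nat_lit 3) (nat_lit 38) (nat_lit 39) = true := by decide +kernel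
def p13_22_0_39 : pfC (piC [(nat_lit 30365544), (nat_lit 20402210), (nat_lit 13167684)] (nat_lit 16044505)) p13_22_0 (nat_lit 3) (nat_lit 39) (nat_lit 40) = true := by decide +kernel
def p13_22_0_40 : pfC (piC [(nat_lit 30365544), (nat_lit 20402210), (nat_lit 13167684)] (nat_lit 16044505)) p13_22_0 (nat_lit 3) (nat_lit 40) (nat_lit 41) = true := by decide +kernel
def p13_22_0_41 : pfC (piC [(nat_lit 30365544), (nat_lit 20402210), (nat_lit 13167684)] (nat_lit 16044505)) p13_22_0 (nat_lit 3) (nat_lit 41) (nat_lit 42) = true := by decide +kernel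
def p13_22_0_42 : pfC (piC [(nat_lit 30365544), (nat_lit 20402210), (nat_lit 13167684)] (nat_lit 16044505)) p13_22_0 (nat_lit 3) (nat_lit 42) (nat_lit 43) = true := by decide +kernel
def p13_22_0_43 : pfC (piC [(nat_lit 30365544), (nat_lit 20402210), (nat_lit 13167684)] (nat_lit 16044505)) p13_22_0 (nat_lit 3) (nat_lit 43) (nat_lit 44) = true := by decide +kernel
def p13_22_0_44 : pfC (piC [(nat_lit 30365544), (nat_lit 20402210), (nat_lit 13167684)] (nat_lit 16044505)) p13_22_0 (nat_lit 3) (nat_lit 44) (nat_lit 45) = true := by decide +kernel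
def p13_22_0_45 : pfC (piC [(nat_lit 30365544), (nat_lit 20402210), (nat_lit 13167684)] (nat_lit 16044505)) p13_22_0 (nat_lit 3) (nat_lit 45) (nat_lit 46) = true := by decide +kernel
def p13_22_0_46 : pfC (piC [(nat_lit 30365544), (nat_lit 20402210), (nat_lit 13167684)] (nat_lit 16044505)) p13_22_0 (nat_lit 3) (nat_lit 46) (nat_lit 47) = true := by decide +kernel
def p13_22_0_47 : pfC (piC [(nat_lit 30365544), (nat_lit 20402210), (nat_lit 13167684)] (nat_lit 16044505)) p13_22_0 (nat_lit 3) (nat_lit 47) (nat_lit 48) = true := by decide +kernel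
def p13_22_0_48 : pfC (piC [(nat_lit 30365544), (nat_lit 20402210), (nat_lit 13167684)] (nat_lit 16044505)) p13_22_0 (nat_lit 3) (nat_lit 48) (nat_lit 49) = true := by decide +kernel
def p13_22_0_49 : pfC (piC [(nat_lit 30365544), (nat_lit 20402210), (nat_lit 13167684)] (nat_lit 16044505)) p13_22_0 (nat_lit 3) (nat_lit 49) (nat_lit 50) = true := by decide +kernel
def p13_22_0_50 : pfC (piC [(nat_lit 30365544), (nat_lit 20402210), (nat_lit 13167684)] (nat_lit 16044505)) p13_22_0 (nat_lit 3) (nat_lit 50) (nat_lit 51) = true := by decide +kernel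
def p13_22_0_51 : pfC (piC [(nat_lit 30365544), (nat_lit 20402210), (nat_lit 13167684)] (nat_lit 16044505)) p13_22_0 (nat_lit 3) (nat_lit 51) (nat_lit 52) = true := by decide +kernel
def p13_22_0_52 : pfC (piC [(nat_lit 30365544), (nat_lit 20402210), (nat_lit 13167684)] (nat_lit 16044505)) p13_22_0 (nat_lit 3) (nat_lit 52) (nat_lit 53) = true := by decide +kernel
def p13_22_0_53 : pfC (piC [(nat_lit 30365544), (nat_lit 20402210), (nat_lit 13167684)] (nat_lit 16044505)) p13_22_0 (nat_lit 3) (nat_lit 53) (nat_lit 54) = true := by decide +kernel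
def p13_22_0_54 : pfC (piC [(nat_lit 30365544), (nat_lit 20402210), (nat_lit 13167684)] (nat_lit 16044505)) p13_22_0 (nat_lit 3) (nat_lit 54) (nat_lit 55) = true := by decide +kernel
def p13_22_0_55 : pfC (piC [(nat_lit 30365544), (nat_lit 20402210), (nat_lit 13167684)] (nat_lit 16044505)) p13_22_0 (nat_lit 3) (nat_lit 55) (nat_lit 56) = true := by decide +kernel
def p13_22_0_56 : pfC (piC [(nat_lit 30365544), (nat_lit 20402210), (nat_lit 13167684)] (nat_lit 16044505)) p13_22_0 (nat_lit 3) (nat_lit 56) (nat_lit 57) = true := by decide +kernel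
def p13_22_0_57 : pfC (piC [(nat_lit 30365544), (nat_lit 20402210), (nat_lit 13167684)] (nat_lit 16044505)) p13_22_0 (nat_lit 3) (nat_lit 57) (nat_lit 58) = true := by decide +kernel
def p13_22_0_58 : pfC (piC [(nat_lit 30365544), (nat_lit 20402210), (nat_lit 13167684)] (nat_lit 16044505)) p13_22_0 (nat_lit 3) (nat_lit 58) (nat_lit 59) = true := by decide +kernel
def p13_22_0_59 : pfC (piC [(nat_lit 30365544), (nat_lit 20402210), (nat_lit 13167684)] (nat_lit 16044505)) p13_22_0 (nat_lit 3) (nat_lit 59) (nat_lit 60) = true := by decide +kernel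
def p13_22_0_60 : pfC (piC [(nat_lit 30365544), (nat_lit 20402210), (nat_lit 13167684)] (nat_lit 16044505)) p13_22_0 (nat_lit 3) (nat_lit 60) (nat_lit 61) = true := by decide +kernel
def p13_22_0_61 : pfC (piC [(nat_lit 30365544), (nat_lit 20402210), (nat_lit 13167684)] (nat_lit 16044505)) p13_22_0 (nat_lit 3) (nat_lit 61) (nat_lit 62) = true := by decide +kernel
def p13_22_0_62 : pfC (piC [(nat_lit 30365544), (nat_lit 20402210), (nat_lit 13167684)] (nat_lit 16044505)) p13_22_0 (nat_lit 3) (nat_lit 62) (nat_lit 63) = true := by decide +kernel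
def p13_22_0_63 : pfC (piC [(nat_lit 30365544), (nat_lit 20402210), (nat_lit 13167684)] (nat_lit 16044505)) p13_22_0 (nat_lit 3) (nat_lit 63) (nat_lit 64) = true := by decide +kernel
def p13_22_0_64 : pfC (piC [(nat_lit 30365544), (nat_lit 20402210), (nat_lit 13167684)] (nat_lit 16044505)) p13_22_0 (nat_lit 3) (nat_lit 64) (nat_lit 65) = true := by decide +kernel
def p13_22_0_65 : pfC (piC [(nat_lit 30365544), (nat_lit 20402210), (nat_lit 13167684)] (nat_lit 16044505)) p13_22_0 (nat_lit 3) (nat_lit 65) (nat_lit 66) = true := by decide +kernel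
def p13_22_0_66 : pfC (piC [(nat_lit 30365544), (nat_lit 20402210), (nat_lit 13167684)] (nat_lit 16044505)) p13_22_0 (nat_lit 3) (nat_lit 66) (nat_lit 67) = true := by decide +kernel
def p13_22_0_67 : pfC (piC [(nat_lit 30365544), (nat_lit 20402210), (nat_lit 13167684)] (nat_lit 16044505)) p13_22_0 (nat_lit 3) (nat_lit 67) (nat_lit 68) = true := by decide +kernel
def p13_22_0_68 : pfC (piC [(nat_lit 30365544), (nat_lit 20402210), (nat_lit 13167684)] (nat_lit 16044505)) p13_22_0 (nat_lit 3) (nat_lit 68) (nat_lit 69) = true := by decide +kernel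
def p13_22_0_69 : pfC (piC [(nat_lit 30365544), (nat_lit 20402210), (nat_lit 13167684)] (nat_lit 16044505)) p13_22_0 (nat_lit 3) (nat_lit 69) (nat_lit 70) = true := by decide +kernel
def p13_22_0_70 : pfC (piC [(nat_lit 30365544), (nat_lit 20402210), (nat_lit 13167684)] (nat_lit 16044505)) p13_22_0 (nat_lit 3) (nat_lit 70) (nat_lit 71) = true := by decide +kernel
def p13_22_0_71 : pfC (piC [(nat_lit 30365544), (nat_lit 20402210), (nat_lit 13167684)] (nat_lit 16044505)) p13_22_0 (nat_lit 3) (nat_lit 71) (nat_lit 72) = true := by decide +kernel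
def p13_22_0_72 : pfC (piC [(nat_lit 30365544), (nat_lit 20402210), (nat_lit 13167684)] (nat_lit 16044505)) p13_22_0 (nat_lit 3) (nat_lit 72) (nat_lit 73) = true := by decide +kernel
def p13_22_0_73 : pfC (piC [(nat_lit 30365544), (nat_lit 20402210), (nat_lit 13167684)] (nat_lit 16044505)) p13_22_0 (nat_lit 3) (nat_lit 73) (nat_lit 74) = true := by decide +kernel
def p13_22_0_74 : pfC (piC [(nat_lit 30365544), (nat_lit 20402210), (nat_lit 13167684)] (nat_lit 16044505)) p13_22_0 (nat_lit 3) (nat_lit 74) (nat_lit 75) = true := by decide +kernel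
def p13_22_0_75 : pfC (piC [(nat_lit 30365544), (nat_lit 20402210), (nat_lit 13167684)] (nat_lit 16044505)) p13_22_0 (nat_lit 3) (nat_lit 75) (nat_lit 76) = true := by decide +kernel
def p13_22_0_76 : pfC (piC [(nat_lit 30365544), (nat_lit 20402210), (nat_lit 13167684)] (nat_lit 16044505)) p13_22_0 (nat_lit 3) (nat_lit 76) (nat_lit 77) = true := by decide +kernel
def p13_22_0_77 : pfC (piC [(nat_lit 30365544), (nat_lit 20402210), (nat_lit 13167684)] (nat_lit 16044505)) p13_22_0 (nat_lit 3) (nat_lit 77) (nat_lit 78) = true := by decide +kernel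
def p13_22_0_78 : pfC (piC [(nat_lit 30365544), (nat_lit 20402210), (nat_lit 13167684)] (nat_lit 16044505)) p13_22_0 (nat_lit 3) (nat_lit 78) (nat_lit 79) = true := by decide +kernel
def p13_22_0_79 : pfC (piC [(nat_lit 30365544), (nat_lit 20402210), (nat_lit 13167684)] (nat_lit 16044505)) p13_22_0 (nat_lit 3) (nat_lit 79) (nat_lit 80) = true := by decide +kernel
def p13_22_0_80 : pfC (piC [(nat_lit 30365544), (nat_lit 20402210), (nat_lit 13167684)] (nat_lit 16044505)) p13_22_0 (nat_lit 3) (nat_lit 80) (nat_lit 81) = true := by decide +kernel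
def p13_22_0_81 : pfC (piC [(nat_lit 30365544), (nat_lit 20402210), (nat_lit 13167684)] (nat_lit 16044505)) p13_22_0 (nat_lit 3) (nat_lit 81) (nat_lit 82) = true := by decide +kernel
def p13_22_0_82 : pfC (piC [(nat_lit 30365544), (nat_lit 20402210), (nat_lit 13167684)] (nat_lit 16044505)) p13_22_0 (nat_lit 3) (nat_lit 82) (nat_lit 83) = true := by decide +kernel
def p13_22_0_83 : pfC (piC [(nat_lit 30365544), (nat_lit 20402210), (nat_lit 13167684)] (nat_lit 16044505)) p13_22_0 (nat_lit 3) (nat_lit 83) (nat_lit 84) = true := by decide +kernel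
def p13_22_0_84 : pfC (piC [(nat_lit 30365544), (nat_lit 20402210), (nat_lit 13167684)] (nat_lit 16044505)) p13_22_0 (nat_lit 3) (nat_lit 84) (nat_lit 85) = true := by decide +kernel
def p13_22_0_85 : pfC (piC [(nat_lit 30365544), (nat_lit 20402210), (nat_lit 13167684)] (nat_lit 16044505)) p13_22_0 (nat_lit 3) (nat_lit 85) (nat_lit 86) = true := by decide +kernel
def p13_22_0_86 : pfC (piC [(nat_lit 30365544), (nat_lit 20402210), (nat_lit 13167684)] (nat_lit 16044505)) p13_22_0 (nat_lit 3) (nat_lit 86) (nat_lit 87) = true := by decide +kernel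
def p13_22_0_87 : pfC (piC [(nat_lit 30365544), (nat_lit 20402210), (nat_lit 13167684)] (nat_lit 16044505)) p13_22_0 (nat_lit 3) (nat_lit 87) (nat_lit 88) = true := by decide +kernel
def p13_22_0_88 : pfC (piC [(nat_lit 30365544), (nat_lit 20402210), (nat_lit 13167684)] (nat_lit 16044505)) p13_22_0 (nat_lit 3) (nat_lit 88) (nat_lit 89) = true := by decide +kernel
def p13_22_0_89 : pfC (piC [(nat_lit 30365544), (nat_lit 20402210), (nat_lit 13167684)] (nat_lit 16044505)) p13_22_0 (nat_lit 3) (nat_lit 89) (nat_lit 90) = true := by decide +kernel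
def p13_22_0_90 : pfC (piC [(nat_lit 30365544), (nat_lit 20402210), (nat_lit 13167684)] (nat_lit 16044505)) p13_22_0 (nat_lit 3) (nat_lit 90) (nat_lit 91) = true := by decide +kernel
def p13_22_0_91 : pfC (piC [(nat_lit 30365544), (nat_lit 20402210), (nat_lit 13167684)] (nat_lit 16044505)) p13_22_0 (nat_lit 3) (nat_lit 91) (nat_lit 92) = true := by decide +kernel
def p13_22_0_92 : pfC (piC [(nat_lit 30365544), (nat_lit 20402210), (nat_lit 13167684)] (nat_lit 16044505)) p13_22_0 (nat_lit 3) (nat_lit 92) (nat_lit 93) = true := by decide +kernel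
def p13_22_0_93 : pfC (piC [(nat_lit 30365544), (nat_lit 20402210), (nat_lit 13167684)] (nat_lit 16044505)) p13_22_0 (nat_lit 3) (nat_lit 93) (nat_lit 94) = true := by decide +kernel
def p13_22_0_94 : pfC (piC [(nat_lit 30365544), (nat_lit 20402210), (nat_lit 13167684)] (nat_lit 16044505)) p13_22_0 (nat_lit 3) (nat_lit 94) (nat_lit 95) = true := by decide +kernel
def p13_22_0_95 : pfC (piC [(nat_lit 30365544), (nat_lit 20402210), (nat_lit 13167684)] (nat_lit 16044505)) p13_22_0 (nat_lit 3) (nat_lit 95) (nat_lit 96) = true := by decide +kernel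
def p13_22_0_96 : pfC (piC [(nat_lit 30365544), (nat_lit 20402210), (nat_lit 13167684)] (nat_lit 16044505)) p13_22_0 (nat_lit 3) (nat_lit 96) (nat_lit 97) = true := by decide +kernel
def p13_22_0_97 : pfC (piC [(nat_lit 30365544), (nat_lit 20402210), (nat_lit 13167684)] (nat_lit 16044505)) p13_22_0 (nat_lit 3) (nat_lit 97) (nat_lit 98) = true := by decide +kernel
def p13_22_0_98 : pfC (piC [(nat_lit 30365544), (nat_lit 20402210), (nat_lit 13167684)] (nat_lit 16044505)) p13_22_0 (nat_lit 3) (nat_lit 98) (nat_lit 99) = true := by decide +kernel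
def p13_22_0_99 : pfC (piC [(nat_lit 30365544), (nat_lit 20402210), (nat_lit 13167684)] (nat_lit 16044505)) p13_22_0 (nat_lit 3) (nat_lit 99) (nat_lit 100) = true := by decide +kernel
def p13_22_0_100 : pfC (piC [(nat_lit 30365544), (nat_lit 20402210), (nat_lit 13167684)] (nat_lit 16044505)) p13_22_0 (nat_lit 3) (nat_lit 100) (nat_lit 101) = true := by decide +kernel
def p13_22_0_101 : pfC (piC [(nat_lit 30365544), (nat_lit 20402210), (nat_lit 13167684)] (nat_lit 16044505)) p13_22_0 (nat_lit 3) (nat_lit 101) (nat_lit 102) = true := by decide +kernel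
def p13_22_0_102 : pfC (piC [(nat_lit 30365544), (nat_lit 20402210), (nat_lit 13167684)] (nat_lit 16044505)) p13_22_0 (nat_lit 3) (nat_lit 102) (nat_lit 103) = true := by decide +kernel
def p13_22_0_103 : pfC (piC [(nat_lit 30365544), (nat_lit 20402210), (nat_lit 13167684)] (nat_lit 16044505)) p13_22_0 (nat_lit 3) (nat_lit 103) (nat_lit 104) = true := by decide +kernel
def p13_22_0_104 : pfC (piC [(nat_lit 30365544), (nat_lit 20402210), (nat_lit 13167684)] (nat_lit 16044505)) p13_22_0 (nat_lit 3) (nat_lit 104) (nat_lit 105) = true := by decide +kernel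
def p13_22_0_105 : pfC (piC [(nat_lit 30365544), (nat_lit 20402210), (nat_lit 13167684)] (nat_lit 16044505)) p13_22_0 (nat_lit 3) (nat_lit 105) (nat_lit 106) = true := by decide +kernel
def p13_22_0_106 : pfC (piC [(nat_lit 30365544), (nat_lit 20402210), (nat_lit 13167684)] (nat_lit 16044505)) p13_22_0 (nat_lit 3) (nat_lit 106) (nat_lit 107) = true := by decide +kernel
def p13_22_0_107 : pfC (piC [(nat_lit 30365544), (nat_lit 20402210), (nat_lit 13167684)] (nat_lit 16044505)) p13_22_0 (nat_lit 3) (nat_lit 107) (nat_lit 108) = true := by decide +kernel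
def p13_22_0_108 : pfC (piC [(nat_lit 30365544), (nat_lit 20402210), (nat_lit 13167684)] (nat_lit 16044505)) p13_22_0 (nat_lit 3) (nat_lit 108) (nat_lit 109) = true := by decide +kernel
def p13_22_0_109 : pfC (piC [(nat_lit 30365544), (nat_lit 20402210), (nat_lit 13167684)] (nat_lit 16044505)) p13_22_0 (nat_lit 3) (nat_lit 109) (nat_lit 110) = true := by decide +kernel
def p13_22_0_110 : pfC (piC [(nat_lit 30365544), (nat_lit 20402210), (nat_lit 13167684)] (nat_lit 16044505)) p13_22_0 (nat_lit 3) (nat_lit 110) (nat_lit 111) = true := by decide +kernel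
def p13_22_0_111 : pfC (piC [(nat_lit 30365544), (nat_lit 20402210), (nat_lit 13167684)] (nat_lit 16044505)) p13_22_0 (nat_lit 3) (nat_lit 111) (nat_lit 112) = true := by decide +kernel
def p13_22_0_112 : pfC (piC [(nat_lit 30365544), (nat_lit 20402210), (nat_lit 13167684)] (nat_lit 16044505)) p13_22_0 (nat_lit 3) (nat_lit 112) (nat_lit 113) = true := by decide +kernel
def p13_22_0_113 : pfC (piC [(nat_lit 30365544), (nat_lit 20402210), (nat_lit 13167684)] (nat_lit 16044505)) p13_22_0 (nat_lit 3) (nat_lit 113) (nat_lit 114) = true := by decide +kernel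
def p13_22_0_114 : pfC (piC [(nat_lit 30365544), (nat_lit 20402210), (nat_lit 13167684)] (nat_lit 16044505)) p13_22_0 (nat_lit 3) (nat_lit 114) (nat_lit 115) = true := by decide +kernel
def p13_22_0_115 : pfC (piC [(nat_lit 30365544), (nat_lit 20402210), (nat_lit 13167684)] (nat_lit 16044505)) p13_22_0 (nat_lit 3) (nat_lit 115) (nat_lit 116) = true := by decide +kernel
def p13_22_0_116 : pfC (piC [(nat_lit 30365544), (nat_lit 20402210), (nat_lit 13167684)] (nat_lit 16044505)) p13_22_0 (nat_lit 3) (nat_lit 116) (nat_lit 117) = true := by decide +kernel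
def p13_22_0_117 : pfC (piC [(nat_lit 30365544), (nat_lit 20402210), (nat_lit 13167684)] (nat_lit 16044505)) p13_22_0 (nat_lit 3) (nat_lit 117) (nat_lit 118) = true := by decide +kernel
def p13_22_0_118 : pfC (piC [(nat_lit 30365544), (nat_lit 20402210), (nat_lit 13167684)] (nat_lit 16044505)) p13_22_0 (nat_lit 3) (nat_lit 118) (nat_lit 119) = true := by decide +kernel
def p13_22_0_119 : pfC (piC [(nat_lit 30365544), (nat_lit 20402210), (nat_lit 13167684)] (nat_lit 16044505)) p13_22_0 (nat_lit 3) (nat_lit 119) (nat_lit 120) = true := by decide +kernel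
def p13_22_0_120 : pfC (piC [(nat_lit 30365544), (nat_lit 20402210), (nat_lit 13167684)] (nat_lit 16044505)) p13_22_0 (nat_lit 3) (nat_lit 120) (nat_lit 121) = true := by decide +kernel
def p13_22_0_121 : pfC (piC [(nat_lit 30365544), (nat_lit 20402210), (nat_lit 13167684)] (nat_lit 16044505)) p13_22_0 (nat_lit 3) (nat_lit 121) (nat_lit 122) = true := by decide +kernel
def p13_22_0_122 : pfC (piC [(nat_lit 30365544), (nat_lit 20402210), (nat_lit 13167684)] (nat_lit 16044505)) p13_22_0 (nat_lit 3) (nat_lit 122) (nat_lit 123) = true := by decide +kernel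
def p13_22_0_123 : pfC (piC [(nat_lit 30365544), (nat_lit 20402210), (nat_lit 13167684)] (nat_lit 16044505)) p13_22_0 (nat_lit 3) (nat_lit 123) (nat_lit 124) = true := by decide +kernel
def p13_22_0_124 : pfC (piC [(nat_lit 30365544), (nat_lit 20402210), (nat_lit 13167684)] (nat_lit 16044505)) p13_22_0 (nat_lit 3) (nat_lit 124) (nat_lit 125) = true := by decide +kernel
def p13_22_0_125 : pfC (piC [(nat_lit 30365544), (nat_lit 20402210), (nat_lit 13167684)] (nat_lit 16044505)) p13_22_0 (nat_lit 3) (nat_lit 125) (nat_lit 126) = true := by decide +kernel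
def p13_22_0_126 : pfC (piC [(nat_lit 30365544), (nat_lit 20402210), (nat_lit 13167684)] (nat_lit 16044505)) p13_22_0 (nat_lit 3) (nat_lit 126) (nat_lit 127) = true := by decide +kernel
def p13_22_0_127 : pfC (piC [(nat_lit 30365544), (nat_lit 20402210), (nat_lit 13167684)] (nat_lit 16044505)) p13_22_0 (nat_lit 3) (nat_lit 127) (nat_lit 128) = true := by decide +kernel
def p13_22_0_128 : pfC (piC [(nat_lit 30365544), (nat_lit 20402210), (nat_lit 13167684)] (nat_lit 16044505)) p13_22_0 (nat_lit 3) (nat_lit 128) (nat_lit 129) = true := by decide +kernel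
def p13_22_0_129 : pfC (piC [(nat_lit 30365544), (nat_lit 20402210), (nat_lit 13167684)] (nat_lit 16044505)) p13_22_0 (nat_lit 3) (nat_lit 129) (nat_lit 130) = true := by decide +kernel
def p13_22_0_130 : pfC (piC [(nat_lit 30365544), (nat_lit 20402210), (nat_lit 13167684)] (nat_lit 16044505)) p13_22_0 (nat_lit 3) (nat_lit 130) (nat_lit 131) = true := by decide +kernel
def p13_22_0_131 : pfC (piC [(nat_lit 30365544), (nat_lit 20402210), (nat_lit 13167684)] (nat_lit 16044505)) p13_22_0 (nat_lit 3) (nat_lit 131) (nat_lit 132) = true := by decide +kernel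
def p13_22_0_132 : pfC (piC [(nat_lit 30365544), (nat_lit 20402210), (nat_lit 13167684)] (nat_lit 16044505)) p13_22_0 (nat_lit 3) (nat_lit 132) (nat_lit 133) = true := by decide +kernel
def p13_22_0_133 : pfC (piC [(nat_lit 30365544), (nat_lit 20402210), (nat_lit 13167684)] (nat_lit 16044505)) p13_22_0 (nat_lit 3) (nat_lit 133) (nat_lit 134) = true := by decide +kernel
def p13_22_0_134 : pfC (piC [(nat_lit 30365544), (nat_lit 20402210), (nat_lit 13167684)] (nat_lit 16044505)) p13_22_0 (nat_lit 3) (nat_lit 134) (nat_lit 135) = true := by decide +kernel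
def p13_22_0_135 : pfC (piC [(nat_lit 30365544), (nat_lit 20402210), (nat_lit 13167684)] (nat_lit 16044505)) p13_22_0 (nat_lit 3) (nat_lit 135) (nat_lit 136) = true := by decide +kernel
def p13_22_0_136 : pfC (piC [(nat_lit 30365544), (nat_lit 20402210), (nat_lit 13167684)] (nat_lit 16044505)) p13_22_0 (nat_lit 3) (nat_lit 136) (nat_lit 137) = true := by decide +kernel
def p13_22_0_137 : pfC (piC [(nat_lit 30365544), (nat_lit 20402210), (nat_lit 13167684)] (nat_lit 16044505)) p13_22_0 (nat_lit 3) (nat_lit 137) (nat_lit 138) = true := by decide +kernel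
def p13_22_0_138 : pfC (piC [(nat_lit 30365544), (nat_lit 20402210), (nat_lit 13167684)] (nat_lit 16044505)) p13_22_0 (nat_lit 3) (nat_lit 138) (nat_lit 139) = true := by decide +kernel
def p13_22_0_139 : pfC (piC [(nat_lit 30365544), (nat_lit 20402210), (nat_lit 13167684)] (nat_lit 16044505)) p13_22_0 (nat_lit 3) (nat_lit 139) (nat_lit 140) = true := by decide +kernel
def p13_22_0_140 : pfC (piC [(nat_lit 30365544), (nat_lit 20402210), (nat_lit 13167684)] (nat_lit 16044505)) p13_22_0 (nat_lit 3) (nat_lit 140) (nat_lit 141) = true := by decide +kernel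
def p13_22_0_141 : pfC (piC [(nat_lit 30365544), (nat_lit 20402210), (nat_lit 13167684)] (nat_lit 16044505)) p13_22_0 (nat_lit 3) (nat_lit 141) (nat_lit 142) = true := by decide +kernel
def p13_22_0_142 : pfC (piC [(nat_lit 30365544), (nat_lit 20402210), (nat_lit 13167684)] (nat_lit 16044505)) p13_22_0 (nat_lit 3) (nat_lit 142) (nat_lit 143) = true := by decide +kernel
def p13_22_0_143 : pfC (piC [(nat_lit 30365544), (nat_lit 20402210), (nat_lit 13167684)] (nat_lit 16044505)) p13_22_0 (nat_lit 3) (nat_lit 143) (nat_lit 144) = true := by decide +kernel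
def p13_22_0_144 : pfC (piC [(nat_lit 30365544), (nat_lit 20402210), (nat_lit 13167684)] (nat_lit 16044505)) p13_22_0 (nat_lit 3) (nat_lit 144) (nat_lit 145) = true := by decide +kernel
def p13_22_0_145 : pfC (piC [(nat_lit 30365544), (nat_lit 20402210), (nat_lit 13167684)] (nat_lit 16044505)) p13_22_0 (nat_lit 3) (nat_lit 145) (nat_lit 146) = true := by decide +kernel
def p13_22_0_146 : pfC (piC [(nat_lit 30365544), (nat_lit 20402210), (nat_lit 13167684)] (nat_lit 16044505)) p13_22_0 (nat_lit 3) (nat_lit 146) (nat_lit 147) = true := by decide +kernel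
def p13_22_0_147 : pfC (piC [(nat_lit 30365544), (nat_lit 20402210), (nat_lit 13167684)] (nat_lit 16044505)) p13_22_0 (nat_lit 3) (nat_lit 147) (nat_lit 148) = true := by decide +kernel
def p13_22_0_148 : pfC (piC [(nat_lit 30365544), (nat_lit 20402210), (nat_lit 13167684)] (nat_lit 16044505)) p13_22_0 (nat_lit 3) (nat_lit 148) (nat_lit 149) = true := by decide +kernel
def p13_22_0_149 : pfC (piC [(nat_lit 30365544), (nat_lit 20402210), (nat_lit 13167684)] (nat_lit 16044505)) p13_22_0 (nat_lit 3) (nat_lit 149) (nat_lit 150) = true := by decide +kernel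
def p13_22_0_150 : pfC (piC [(nat_lit 30365544), (nat_lit 20402210), (nat_lit 13167684)] (nat_lit 16044505)) p13_22_0 (nat_lit 3) (nat_lit 150) (nat_lit 151) = true := by decide +kernel
def p13_22_0_151 : pfC (piC [(nat_lit 30365544), (nat_lit 20402210), (nat_lit 13167684)] (nat_lit 16044505)) p13_22_0 (nat_lit 3) (nat_lit 151) (nat_lit 152) = true := by decide +kernel
def p13_22_0_152 : pfC (piC [(nat_lit 30365544), (nat_lit 20402210), (nat_lit 13167684)] (nat_lit 16044505)) p13_22_0 (nat_lit 3) (nat_lit 152) (nat_lit 153) = true := by decide +kernel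
def p13_22_0_153 : pfC (piC [(nat_lit 30365544), (nat_lit 20402210), (nat_lit 13167684)] (nat_lit 16044505)) p13_22_0 (nat_lit 3) (nat_lit 153) (nat_lit 154) = true := by decide +kernel
def p13_22_0_154 : pfC (piC [(nat_lit 30365544), (nat_lit 20402210), (nat_lit 13167684)] (nat_lit 16044505)) p13_22_0 (nat_lit 3) (nat_lit 154) (nat_lit 155) = true := by decide +kernel
def p13_22_0_155 : pfC (piC [(nat_lit 30365544), (nat_lit 20402210), (nat_lit 13167684)] (nat_lit 16044505)) p13_22_0 (nat_lit 3) (nat_lit 155) (nat_lit 156) = true := by decide +kernel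
def p13_22_0_156 : pfC (piC [(nat_lit 30365544), (nat_lit 20402210), (nat_lit 13167684)] (nat_lit 16044505)) p13_22_0 (nat_lit 3) (nat_lit 156) (nat_lit 157) = true := by decide +kernel
def p13_22_0_157 : pfC (piC [(nat_lit 30365544), (nat_lit 20402210), (nat_lit 13167684)] (nat_lit 16044505)) p13_22_0 (nat_lit 3) (nat_lit 157) (nat_lit 158) = true := by decide +kernel
def p13_22_0_158 : pfC (piC [(nat_lit 30365544), (nat_lit 20402210), (nat_lit 13167684)] (nat_lit 16044505)) p13_22_0 (nat_lit 3) (nat_lit 158) (nat_lit 159) = true := by decide +kernel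
def p13_22_0_159 : pfC (piC [(nat_lit 30365544), (nat_lit 20402210), (nat_lit 13167684)] (nat_lit 16044505)) p13_22_0 (nat_lit 3) (nat_lit 159) (nat_lit 160) = true := by decide +kernel
def p13_22_0_160 : pfC (piC [(nat_lit 30365544), (nat_lit 20402210), (nat_lit 13167684)] (nat_lit 16044505)) p13_22_0 (nat_lit 3) (nat_lit 160) (nat_lit 161) = true := by decide +kernel
def p13_22_0_161 : pfC (piC [(nat_lit 30365544), (nat_lit 20402210), (nat_lit 13167684)] (nat_lit 16044505)) p13_22_0 (nat_lit 3) (nat_lit 161) (nat_lit 162) = true := by decide +kernel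
def p13_22_0_162 : pfC (piC [(nat_lit 30365544), (nat_lit 20402210), (nat_lit 13167684)] (nat_lit 16044505)) p13_22_0 (nat_lit 3) (nat_lit 162) (nat_lit 163) = true := by decide +kernel
def p13_22_0_163 : pfC (piC [(nat_lit 30365544), (nat_lit 20402210), (nat_lit 13167684)] (nat_lit 16044505)) p13_22_0 (nat_lit 3) (nat_lit 163) (nat_lit 164) = true := by decide +kernel
def p13_22_0_164 : pfC (piC [(nat_lit 30365544), (nat_lit 20402210), (nat_lit 13167684)] (nat_lit 16044505)) p13_22_0 (nat_lit 3) (nat_lit 164) (nat_lit 165) = true := by decide +kernel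
def p13_22_0_165 : pfC (piC [(nat_lit 30365544), (nat_lit 20402210), (nat_lit 13167684)] (nat_lit 16044505)) p13_22_0 (nat_lit 3) (nat_lit 165) (nat_lit 166) = true := by decide +kernel
def p13_22_0_166 : pfC (piC [(nat_lit 30365544), (nat_lit 20402210), (nat_lit 13167684)] (nat_lit 16044505)) p13_22_0 (nat_lit 3) (nat_lit 166) (nat_lit 167) = true := by decide +kernel
def p13_22_0_167 : pfC (piC [(nat_lit 30365544), (nat_lit 20402210), (nat_lit 13167684)] (nat_lit 16044505)) p13_22_0 (nat_lit 3) (nat_lit 167) (nat_lit 168) = true := by decide +kernel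
def p13_22_0_168 : pfC (piC [(nat_lit 30365544), (nat_lit 20402210), (nat_lit 13167684)] (nat_lit 16044505)) p13_22_0 (nat_lit 3) (nat_lit 168) (nat_lit 169) = true := by decide +kernel
def p13_22_0_169 : pfC (piC [(nat_lit 30365544), (nat_lit 20402210), (nat_lit 13167684)] (nat_lit 16044505)) p13_22_0 (nat_lit 3) (nat_lit 169) (nat_lit 170) = true := by decide +kernel
def p13_22_0_170 : pfC (piC [(nat_lit 30365544), (nat_lit 20402210), (nat_lit 13167684)] (nat_lit 16044505)) p13_22_0 (nat_lit 3) (nat_lit 170) (nat_lit 171) = true := by decide +kernel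
def p13_22_0_171 : pfC (piC [(nat_lit 30365544), (nat_lit 20402210), (nat_lit 13167684)] (nat_lit 16044505)) p13_22_0 (nat_lit 3) (nat_lit 171) (nat_lit 172) = true := by decide +kernel
def p13_22_0_172 : pfC (piC [(nat_lit 30365544), (nat_lit 20402210), (nat_lit 13167684)] (nat_lit 16044505)) p13_22_0 (nat_lit 3) (nat_lit 172) (nat_lit 173) = true := by decide +kernel
def p13_22_0_173 : pfC (piC [(nat_lit 30365544), (nat_lit 20402210), (nat_lit 13167684)] (nat_lit 16044505)) p13_22_0 (nat_lit 3) (nat_lit 173) (nat_lit 174) = true := by decide +kernel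
def p13_22_0_174 : pfC (piC [(nat_lit 30365544), (nat_lit 20402210), (nat_lit 13167684)] (nat_lit 16044505)) p13_22_0 (nat_lit 3) (nat_lit 174) (nat_lit 175) = true := by decide +kernel
def p13_22_0_175 : pfC (piC [(nat_lit 30365544), (nat_lit 20402210), (nat_lit 13167684)] (nat_lit 16044505)) p13_22_0 (nat_lit 3) (nat_lit 175) (nat_lit 176) = true := by decide +kernel
def p13_22_0_176 : pfC (piC [(nat_lit 30365544), (nat_lit 20402210), (nat_lit 13167684)] (nat_lit 16044505)) p13_22_0 (nat_lit 3) (nat_lit 176) (nat_lit 177) = true := by decide +kernel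
def p13_22_0_177 : pfC (piC [(nat_lit 30365544), (nat_lit 20402210), (nat_lit 13167684)] (nat_lit 16044505)) p13_22_0 (nat_lit 3) (nat_lit 177) (nat_lit 178) = true := by decide +kernel
def p13_22_0_178 : pfC (piC [(nat_lit 30365544), (nat_lit 20402210), (nat_lit 13167684)] (nat_lit 16044505)) p13_22_0 (nat_lit 3) (nat_lit 178) (nat_lit 179) = true := by decide +kernel
def p13_22_0_179 : pfC (piC [(nat_lit 30365544), (nat_lit 20402210), (nat_lit 13167684)] (nat_lit 16044505)) p13_22_0 (nat_lit 3) (nat_lit 179) (nat_lit 180) = true := by decide +kernel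
def p13_22_0_180 : pfC (piC [(nat_lit 30365544), (nat_lit 20402210), (nat_lit 13167684)] (nat_lit 16044505)) p13_22_0 (nat_lit 3) (nat_lit 180) (nat_lit 181) = true := by decide +kernel
def p13_22_0_181 : pfC (piC [(nat_lit 30365544), (nat_lit 20402210), (nat_lit 13167684)] (nat_lit 16044505)) p13_22_0 (nat_lit 3) (nat_lit 181) (nat_lit 182) = true := by decide +kernel
def p13_22_0_182 : pfC (piC [(nat_lit 30365544), (nat_lit 20402210), (nat_lit 13167684)] (nat_lit 16044505)) p13_22_0 (nat_lit 3) (nat_lit 182) (nat_lit 183) = true := by decide +kernel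
def p13_22_0_183 : pfC (piC [(nat_lit 30365544), (nat_lit 20402210), (nat_lit 13167684)] (nat_lit 16044505)) p13_22_0 (nat_lit 3) (nat_lit 183) (nat_lit 184) = true := by decide +kernel
def p13_22_0_184 : pfC (piC [(nat_lit 30365544), (nat_lit 20402210), (nat_lit 13167684)] (nat_lit 16044505)) p13_22_0 (nat_lit 3) (nat_lit 184) (nat_lit 185) = true := by decide +kernel
def p13_22_0_185 : pfC (piC [(nat_lit 30365544), (nat_lit 20402210), (nat_lit 13167684)] (nat_lit 16044505)) p13_22_0 (nat_lit 3) (nat_lit 185) (nat_lit 186) = true := by decide +kernel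
def p13_22_0_186 : pfC (piC [(nat_lit 30365544), (nat_lit 20402210), (nat_lit 13167684)] (nat_lit 16044505)) p13_22_0 (nat_lit 3) (nat_lit 186) (nat_lit 187) = true := by decide +kernel
def p13_22_0_187 : pfC (piC [(nat_lit 30365544), (nat_lit 20402210), (nat_lit 13167684)] (nat_lit 16044505)) p13_22_0 (nat_lit 3) (nat_lit 187) (nat_lit 188) = true := by decide +kernel
def p13_22_0_188 : pfC (piC [(nat_lit 30365544), (nat_lit 20402210), (nat_lit 13167684)] (nat_lit 16044505)) p13_22_0 (nat_lit 3) (nat_lit 188) (nat_lit 189) = true := by decide +kernel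
def p13_22_0_189 : pfC (piC [(nat_lit 30365544), (nat_lit 20402210), (nat_lit 13167684)] (nat_lit 16044505)) p13_22_0 (nat_lit 3) (nat_lit 189) (nat_lit 190) = true := by decide +kernel
def p13_22_0_190 : pfC (piC [(nat_lit 30365544), (nat_lit 20402210), (nat_lit 13167684)] (nat_lit 16044505)) p13_22_0 (nat_lit 3) (nat_lit 190) (nat_lit 191) = true := by decide +kernel
def p13_22_0_191 : pfC (piC [(nat_lit 30365544), (nat_lit 20402210), (nat_lit 13167684)] (nat_lit 16044505)) p13_22_0 (nat_lit 3) (nat_lit 191) (nat_lit 192) = true := by decide +kernel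
def p13_22_0_192 : pfC (piC [(nat_lit 30365544), (nat_lit 20402210), (nat_lit 13167684)] (nat_lit 16044505)) p13_22_0 (nat_lit 3) (nat_lit 192) (nat_lit 193) = true := by decide +kernel
def p13_22_0_193 : pfC (piC [(nat_lit 30365544), (nat_lit 20402210), (nat_lit 13167684)] (nat_lit 16044505)) p13_22_0 (nat_lit 3) (nat_lit 193) (nat_lit 194) = true := by decide +kernel
def p13_22_0_194 : pfC (piC [(nat_lit 30365544), (nat_lit 20402210), (nat_lit 13167684)] (nat_lit 16044505)) p13_22_0 (nat_lit 3) (nat_lit 194) (nat_lit 195) = true := by decide +kernel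
def p13_22_0_195 : pfC (piC [(nat_lit 30365544), (nat_lit 20402210), (nat_lit 13167684)] (nat_lit 16044505)) p13_22_0 (nat_lit 3) (nat_lit 195) (nat_lit 196) = true := by decide +kernel
def p13_22_0_196 : pfC (piC [(nat_lit 30365544), (nat_lit 20402210), (nat_lit 13167684)] (nat_lit 16044505)) p13_22_0 (nat_lit 3) (nat_lit 196) (nat_lit 197) = true := by decide +kernel
def p13_22_0_197 : pfC (piC [(nat_lit 30365544), (nat_lit 20402210), (nat_lit 13167684)] (nat_lit 16044505)) p13_22_0 (nat_lit 3) (nat_lit 197) (nat_lit 198) = true := by decide +kernel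
def p13_22_0_198 : pfC (piC [(nat_lit 30365544), (nat_lit 20402210), (nat_lit 13167684)] (nat_lit 16044505)) p13_22_0 (nat_lit 3) (nat_lit 198) (nat_lit 199) = true := by decide +kernel
def p13_22_0_199 : pfC (piC [(nat_lit 30365544), (nat_lit 20402210), (nat_lit 13167684)] (nat_lit 16044505)) p13_22_0 (nat_lit 3) (nat_lit 199) (nat_lit 200) = true := by decide +kernel
def p13_22_0_200 : pfC (piC [(nat_lit 30365544), (nat_lit 20402210), (nat_lit 13167684)] (nat_lit 16044505)) p13_22_0 (nat_lit 3) (nat_lit 200) (nat_lit 201) = true := by decide +kernel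
def p13_22_0_201 : pfC (piC [(nat_lit 30365544), (nat_lit 20402210), (nat_lit 13167684)] (nat_lit 16044505)) p13_22_0 (nat_lit 3) (nat_lit 201) (nat_lit 202) = true := by decide +kernel
def p13_22_0_202 : pfC (piC [(nat_lit 30365544), (nat_lit 20402210), (nat_lit 13167684)] (nat_lit 16044505)) p13_22_0 (nat_lit 3) (nat_lit 202) (nat_lit 203) = true := by decide +kernel
def p13_22_0_203 : pfC (piC [(nat_lit 30365544), (nat_lit 20402210), (nat_lit 13167684)] (nat_lit 16044505)) p13_22_0 (nat_lit 3) (nat_lit 203) (nat_lit 204) = true := by decide +kernel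
def p13_22_0_204 : pfC (piC [(nat_lit 30365544), (nat_lit 20402210), (nat_lit 13167684)] (nat_lit 16044505)) p13_22_0 (nat_lit 3) (nat_lit 204) (nat_lit 205) = true := by decide +kernel
def p13_22_0_205 : pfC (piC [(nat_lit 30365544), (nat_lit 20402210), (nat_lit 13167684)] (nat_lit 16044505)) p13_22_0 (nat_lit 3) (nat_lit 205) (nat_lit 206) = true := by decide +kernel
def p13_22_0_206 : pfC (piC [(nat_lit 30365544), (nat_lit 20402210), (nat_lit 13167684)] (nat_lit 16044505)) p13_22_0 (nat_lit 3) (nat_lit 206) (nat_lit 207) = true := by decide +kernel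
def p13_22_0_207 : pfC (piC [(nat_lit 30365544), (nat_lit 20402210), (nat_lit 13167684)] (nat_lit 16044505)) p13_22_0 (nat_lit 3) (nat_lit 207) (nat_lit 208) = true := by decide +kernel
def p13_22_0_208 : pfC (piC [(nat_lit 30365544), (nat_lit 20402210), (nat_lit 13167684)] (nat_lit 16044505)) p13_22_0 (nat_lit 3) (nat_lit 208) (nat_lit 209) = true := by decide +kernel
def p13_22_0_209 : pfC (piC [(nat_lit 30365544), (nat_lit 20402210), (nat_lit 13167684)] (nat_lit 16044505)) p13_22_0 (nat_lit 3) (nat_lit 209) (nat_lit 210) = true := by decide +kernel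
def p13_22_0_210 : pfC (piC [(nat_lit 30365544), (nat_lit 20402210), (nat_lit 13167684)] (nat_lit 16044505)) p13_22_0 (nat_lit 3) (nat_lit 210) (nat_lit 211) = true := by decide +kernel
def p13_22_0_211 : pfC (piC [(nat_lit 30365544), (nat_lit 20402210), (nat_lit 13167684)] (nat_lit 16044505)) p13_22_0 (nat_lit 3) (nat_lit 211) (nat_lit 212) = true := by decide +kernel
def p13_22_0_212 : pfC (piC [(nat_lit 30365544), (nat_lit 20402210), (nat_lit 13167684)] (nat_lit 16044505)) p13_22_0 (nat_lit 3) (nat_lit 212) (nat_lit 213) = true := by decide +kernel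
def p13_22_0_213 : pfC (piC [(nat_lit 30365544), (nat_lit 20402210), (nat_lit 13167684)] (nat_lit 16044505)) p13_22_0 (nat_lit 3) (nat_lit 213) (nat_lit 214) = true := by decide +kernel
def p13_22_0_214 : pfC (piC [(nat_lit 30365544), (nat_lit 20402210), (nat_lit 13167684)] (nat_lit 16044505)) p13_22_0 (nat_lit 3) (nat_lit 214) (nat_lit 215) = true := by decide +kernel
def p13_22_0_215 : pfC (piC [(nat_lit 30365544), (nat_lit 20402210), (nat_lit 13167684)] (nat_lit 16044505)) p13_22_0 (nat_lit 3) (nat_lit 215) (nat_lit 216) = true := by decide +kernel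
def p13_22_0_216 : pfC (piC [(nat_lit 30365544), (nat_lit 20402210), (nat_lit 13167684)] (nat_lit 16044505)) p13_22_0 (nat_lit 3) (nat_lit 216) (nat_lit 217) = true := by decide +kernel
def p13_22_0_217 : pfC (piC [(nat_lit 30365544), (nat_lit 20402210), (nat_lit 13167684)] (nat_lit 16044505)) p13_22_0 (nat_lit 3) (nat_lit 217) (nat_lit 218) = true := by decide +kernel
def p13_22_0_218 : pfC (piC [(nat_lit 30365544), (nat_lit 20402210), (nat_lit 13167684)] (nat_lit 16044505)) p13_22_0 (nat_lit 3) (nat_lit 218) (nat_lit 219) = true := by decide +kernel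
def p13_22_0_219 : pfC (piC [(nat_lit 30365544), (nat_lit 20402210), (nat_lit 13167684)] (nat_lit 16044505)) p13_22_0 (nat_lit 3) (nat_lit 219) (nat_lit 220) = true := by decide +kernel
def p13_22_0_220 : pfC (piC [(nat_lit 30365544), (nat_lit 20402210), (nat_lit 13167684)] (nat_lit 16044505)) p13_22_0 (nat_lit 3) (nat_lit 220) (nat_lit 221) = true := by decide +kernel
def p13_22_0_221 : pfC (piC [(nat_lit 30365544), (nat_lit 20402210), (nat_lit 13167684)] (nat_lit 16044505)) p13_22_0 (nat_lit 3) (nat_lit 221) (nat_lit 222) = true := by decide +kernel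
def p13_22_0_222 : pfC (piC [(nat_lit 30365544), (nat_lit 20402210), (nat_lit 13167684)] (nat_lit 16044505)) p13_22_0 (nat_lit 3) (nat_lit 222) (nat_lit 223) = true := by decide +kernel
def p13_22_0_223 : pfC (piC [(nat_lit 30365544), (nat_lit 20402210), (nat_lit 13167684)] (nat_lit 16044505)) p13_22_0 (nat_lit 3) (nat_lit 223) (nat_lit 224) = true := by decide +kernel
def p13_22_0_224 : pfC (piC [(nat_lit 30365544), (nat_lit 20402210), (nat_lit 13167684)] (nat_lit 16044505)) p13_22_0 (nat_lit 3) (nat_lit 224) (nat_lit 225) = true := by decide +kernel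
def p13_22_0_225 : pfC (piC [(nat_lit 30365544), (nat_lit 20402210), (nat_lit 13167684)] (nat_lit 16044505)) p13_22_0 (nat_lit 3) (nat_lit 225) (nat_lit 226) = true := by decide +kernel
def p13_22_0_226 : pfC (piC [(nat_lit 30365544), (nat_lit 20402210), (nat_lit 13167684)] (nat_lit 16044505)) p13_22_0 (nat_lit 3) (nat_lit 226) (nat_lit 227) = true := by decide +kernel
def p13_22_0_227 : pfC (piC [(nat_lit 30365544), (nat_lit 20402210), (nat_lit 13167684)] (nat_lit 16044505)) p13_22_0 (nat_lit 3) (nat_lit 227) (nat_lit 228) = true := by decide +kernel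
def p13_22_0_228 : pfC (piC [(nat_lit 30365544), (nat_lit 20402210), (nat_lit 13167684)] (nat_lit 16044505)) p13_22_0 (nat_lit 3) (nat_lit 228) (nat_lit 229) = true := by decide +kernel
def p13_22_0_229 : pfC (piC [(nat_lit 30365544), (nat_lit 20402210), (nat_lit 13167684)] (nat_lit 16044505)) p13_22_0 (nat_lit 3) (nat_lit 229) (nat_lit 230) = true := by decide +kernel
def p13_22_0_230 : pfC (piC [(nat_lit 30365544), (nat_lit 20402210), (nat_lit 13167684)] (nat_lit 16044505)) p13_22_0 (nat_lit 3) (nat_lit 230) (nat_lit 231) = true := by decide +kernel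
def p13_22_0_231 : pfC (piC [(nat_lit 30365544), (nat_lit 20402210), (nat_lit 13167684)] (nat_lit 16044505)) p13_22_0 (nat_lit 3) (nat_lit 231) (nat_lit 232) = true := by decide +kernel
def p13_22_0_232 : pfC (piC [(nat_lit 30365544), (nat_lit 20402210), (nat_lit 13167684)] (nat_lit 16044505)) p13_22_0 (nat_lit 3) (nat_lit 232) (nat_lit 233) = true := by decide +kernel
def p13_22_0_233 : pfC (piC [(nat_lit 30365544), (nat_lit 20402210), (nat_lit 13167684)] (nat_lit 16044505)) p13_22_0 (nat_lit 3) (nat_lit 233) (nat_lit 234) = true := by decide +kernel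
def p13_22_0_234 : pfC (piC [(nat_lit 30365544), (nat_lit 20402210), (nat_lit 13167684)] (nat_lit 16044505)) p13_22_0 (nat_lit 3) (nat_lit 234) (nat_lit 235) = true := by decide +kernel
def p13_22_0_235 : pfC (piC [(nat_lit 30365544), (nat_lit 20402210), (nat_lit 13167684)] (nat_lit 16044505)) p13_22_0 (nat_lit 3) (nat_lit 235) (nat_lit 236) = true := by decide +kernel
def p13_22_0_236 : pfC (piC [(nat_lit 30365544), (nat_lit 20402210), (nat_lit 13167684)] (nat_lit 16044505)) p13_22_0 (nat_lit 3) (nat_lit 236) (nat_lit 237) = true := by decide +kernel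
def p13_22_0_237 : pfC (piC [(nat_lit 30365544), (nat_lit 20402210), (nat_lit 13167684)] (nat_lit 16044505)) p13_22_0 (nat_lit 3) (nat_lit 237) (nat_lit 238) = true := by decide +kernel
def p13_22_0_238 : pfC (piC [(nat_lit 30365544), (nat_lit 20402210), (nat_lit 13167684)] (nat_lit 16044505)) p13_22_0 (nat_lit 3) (nat_lit 238) (nat_lit 239) = true := by decide +kernel
def p13_22_0_239 : pfC (piC [(nat_lit 30365544), (nat_lit 20402210), (nat_lit 13167684)] (nat_lit 16044505)) p13_22_0 (nat_lit 3) (nat_lit 239) (nat_lit 240) = true := by decide +kernel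
def p13_22_0_240 : pfC (piC [(nat_lit 30365544), (nat_lit 20402210), (nat_lit 13167684)] (nat_lit 16044505)) p13_22_0 (nat_lit 3) (nat_lit 240) (nat_lit 241) = true := by decide +kernel
def p13_22_0_241 : pfC (piC [(nat_lit 30365544), (nat_lit 20402210), (nat_lit 13167684)] (nat_lit 16044505)) p13_22_0 (nat_lit 3) (nat_lit 241) (nat_lit 242) = true := by decide +kernel
def p13_22_0_242 : pfC (piC [(nat_lit 30365544), (nat_lit 20402210), (nat_lit 13167684)] (nat_lit 16044505)) p13_22_0 (nat_lit 3) (nat_lit 242) (nat_lit 243) = true := by decide +kernel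
def p13_22_0_243 : pfC (piC [(nat_lit 30365544), (nat_lit 20402210), (nat_lit 13167684)] (nat_lit 16044505)) p13_22_0 (nat_lit 3) (nat_lit 243) (nat_lit 244) = true := by decide +kernel
def p13_22_0_244 : pfC (piC [(nat_lit 30365544), (nat_lit 20402210), (nat_lit 13167684)] (nat_lit 16044505)) p13_22_0 (nat_lit 3) (nat_lit 244) (nat_lit 245) = true := by decide +kernel
def p13_22_0_245 : pfC (piC [(nat_lit 30365544), (nat_lit 20402210), (nat_lit 13167684)] (nat_lit 16044505)) p13_22_0 (nat_lit 3) (nat_lit 245) (nat_lit 246) = true := by decide +kernel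
def p13_22_0_246 : pfC (piC [(nat_lit 30365544), (nat_lit 20402210), (nat_lit 13167684)] (nat_lit 16044505)) p13_22_0 (nat_lit 3) (nat_lit 246) (nat_lit 247) = true := by decide +kernel
def p13_22_0_247 : pfC (piC [(nat_lit 30365544), (nat_lit 20402210), (nat_lit 13167684)] (nat_lit 16044505)) p13_22_0 (nat_lit 3) (nat_lit 247) (nat_lit 248) = true := by decide +kernel
def p13_22_0_248 : pfC (piC [(nat_lit 30365544), (nat_lit 20402210), (nat_lit 13167684)] (nat_lit 16044505)) p13_22_0 (nat_lit 3) (nat_lit 248) (nat_lit 249) = true := by decide +kernel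
def p13_22_0_249 : pfC (piC [(nat_lit 30365544), (nat_lit 20402210), (nat_lit 13167684)] (nat_lit 16044505)) p13_22_0 (nat_lit 3) (nat_lit 249) (nat_lit 250) = true := by decide +kernel
def p13_22_0_250 : pfC (piC [(nat_lit 30365544), (nat_lit 20402210), (nat_lit 13167684)] (nat_lit 16044505)) p13_22_0 (nat_lit 3) (nat_lit 250) (nat_lit 251) = true := by decide +kernel
def p13_22_0_251 : pfC (piC [(nat_lit 30365544), (nat_lit 20402210), (nat_lit 13167684)] (nat_lit 16044505)) p13_22_0 (nat_lit 3) (nat_lit 251) (nat_lit 252) = true := by decide +kernel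
def p13_22_0_252 : pfC (piC [(nat_lit 30365544), (nat_lit 20402210), (nat_lit 13167684)] (nat_lit 16044505)) p13_22_0 (nat_lit 3) (nat_lit 252) (nat_lit 253) = true := by decide +kernel
def p13_22_0_253 : pfC (piC [(nat_lit 30365544), (nat_lit 20402210), (nat_lit 13167684)] (nat_lit 16044505)) p13_22_0 (nat_lit 3) (nat_lit 253) (nat_lit 254) = true := by decide +kernel
def p13_22_0_254 : pfC (piC [(nat_lit 30365544), (nat_lit 20402210), (nat_lit 13167684)] (nat_lit 16044505)) p13_22_0 (nat_lit 3) (nat_lit 254) (nat_lit 255) = true := by decide +kernel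
def p13_22_0_255 : pfC (piC [(nat_lit 30365544), (nat_lit 20402210), (nat_lit 13167684)] (nat_lit 16044505)) p13_22_0 (nat_lit 3) (nat_lit 255) (nat_lit 256) = true := by decide +kernel
def p13_22_0_256 : pfC (piC [(nat_lit 30365544), (nat_lit 20402210), (nat_lit 13167684)] (nat_lit 16044505)) p13_22_0 (nat_lit 3) (nat_lit 256) (nat_lit 257) = true := by decide +kernel
def p13_22_0_257 : pfC (piC [(nat_lit 30365544), (nat_lit 20402210), (nat_lit 13167684)] (nat_lit 16044505)) p13_22_0 (nat_lit 3) (nat_lit 257) (nat_lit 258) = true := by decide +kernel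
def p13_22_0_258 : pfC (piC [(nat_lit 30365544), (nat_lit 20402210), (nat_lit 13167684)] (nat_lit 16044505)) p13_22_0 (nat_lit 3) (nat_lit 258) (nat_lit 259) = true := by decide +kernel
def p13_22_0_259 : pfC (piC [(nat_lit 30365544), (nat_lit 20402210), (nat_lit 13167684)] (nat_lit 16044505)) p13_22_0 (nat_lit 3) (nat_lit 259) (nat_lit 260) = true := by decide +kernel
def p13_22_0_260 : pfC (piC [(nat_lit 30365544), (nat_lit 20402210), (nat_lit 13167684)] (nat_lit 16044505)) p13_22_0 (nat_lit 3) (nat_lit 260) (nat_lit 261) = true := by decide +kernel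
def p13_22_0_261 : pfC (piC [(nat_lit 30365544), (nat_lit 20402210), (nat_lit 13167684)] (nat_lit 16044505)) p13_22_0 (nat_lit 3) (nat_lit 261) (nat_lit 262) = true := by decide +kernel
def p13_22_0_262 : pfC (piC [(nat_lit 30365544), (nat_lit 20402210), (nat_lit 13167684)] (nat_lit 16044505)) p13_22_0 (nat_lit 3) (nat_lit 262) (nat_lit 263) = true := by decide +kernel
def p13_22_0_263 : pfC (piC [(nat_lit 30365544), (nat_lit 20402210), (nat_lit 13167684)] (nat_lit 16044505)) p13_22_0 (nat_lit 3) (nat_lit 263) (nat_lit 264) = true := by decide +kernel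
def p13_22_0_264 : pfC (piC [(nat_lit 30365544), (nat_lit 20402210), (nat_lit 13167684)] (nat_lit 16044505)) p13_22_0 (nat_lit 3) (nat_lit 264) (nat_lit 265) = true := by decide +kernel
def p13_22_0_265 : pfC (piC [(nat_lit 30365544), (nat_lit 20402210), (nat_lit 13167684)] (nat_lit 16044505)) p13_22_0 (nat_lit 3) (nat_lit 265) (nat_lit 266) = true := by decide +kernel
def p13_22_0_266 : pfC (piC [(nat_lit 30365544), (nat_lit 20402210), (nat_lit 13167684)] (nat_lit 16044505)) p13_22_0 (nat_lit 3) (nat_lit 266) (nat_lit 267) = true := by decide +kernel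
def p13_22_0_267 : pfC (piC [(nat_lit 30365544), (nat_lit 20402210), (nat_lit 13167684)] (nat_lit 16044505)) p13_22_0 (nat_lit 3) (nat_lit 267) (nat_lit 268) = true := by decide +kernel
def p13_22_0_268 : pfC (piC [(nat_lit 30365544), (nat_lit 20402210), (nat_lit 13167684)] (nat_lit 16044505)) p13_22_0 (nat_lit 3) (nat_lit 268) (nat_lit 269) = true := by decide +kernel
def p13_22_0_269 : pfC (piC [(nat_lit 30365544), (nat_lit 20402210), (nat_lit 13167684)] (nat_lit 16044505)) p13_22_0 (nat_lit 3) (nat_lit 269) (nat_lit 270) = true := by decide +kernel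
def p13_22_0_270 : pfC (piC [(nat_lit 30365544), (nat_lit 20402210), (nat_lit 13167684)] (nat_lit 16044505)) p13_22_0 (nat_lit 3) (nat_lit 270) (nat_lit 271) = true := by decide +kernel
def p13_22_0_271 : pfC (piC [(nat_lit 30365544), (nat_lit 20402210), (nat_lit 13167684)] (nat_lit 16044505)) p13_22_0 (nat_lit 3) (nat_lit 271) (nat_lit 272) = true := by decide +kernel
def p13_22_0_272 : pfC (piC [(nat_lit 30365544), (nat_lit 20402210), (nat_lit 13167684)] (nat_lit 16044505)) p13_22_0 (nat_lit 3) (nat_lit 272) (nat_lit 273) = true := by decide +kernel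
def p13_22_0_273 : pfC (piC [(nat_lit 30365544), (nat_lit 20402210), (nat_lit 13167684)] (nat_lit 16044505)) p13_22_0 (nat_lit 3) (nat_lit 273) (nat_lit 274) = true := by decide +kernel
def p13_22_0_274 : pfC (piC [(nat_lit 30365544), (nat_lit 20402210), (nat_lit 13167684)] (nat_lit 16044505)) p13_22_0 (nat_lit 3) (nat_lit 274) (nat_lit 275) = true := by decide +kernel
def p13_22_0_275 : pfC (piC [(nat_lit 30365544), (nat_lit 20402210), (nat_lit 13167684)] (nat_lit 16044505)) p13_22_0 (nat_lit 3) (nat_lit 275) (nat_lit 276) = true := by decide +kernel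
def p13_22_0_276 : pfC (piC [(nat_lit 30365544), (nat_lit 20402210), (nat_lit 13167684)] (nat_lit 16044505)) p13_22_0 (nat_lit 3) (nat_lit 276) (nat_lit 277) = true := by decide +kernel
def p13_22_0_277 : pfC (piC [(nat_lit 30365544), (nat_lit 20402210), (nat_lit 13167684)] (nat_lit 16044505)) p13_22_0 (nat_lit 3) (nat_lit 277) (nat_lit 278) = true := by decide +kernel
def p13_22_0_278 : pfC (piC [(nat_lit 30365544), (nat_lit 20402210), (nat_lit 13167684)] (nat_lit 16044505)) p13_22_0 (nat_lit 3) (nat_lit 278) (nat_lit 279) = true := by decide +kernel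
def p13_22_0_279 : pfC (piC [(nat_lit 30365544), (nat_lit 20402210), (nat_lit 13167684)] (nat_lit 16044505)) p13_22_0 (nat_lit 3) (nat_lit 279) (nat_lit 280) = true := by decide +kernel
def p13_22_0_280 : pfC (piC [(nat_lit 30365544), (nat_lit 20402210), (nat_lit 13167684)] (nat_lit 16044505)) p13_22_0 (nat_lit 3) (nat_lit 280) (nat_lit 281) = true := by decide +kernel
def p13_22_0_281 : pfC (piC [(nat_lit 30365544), (nat_lit 20402210), (nat_lit 13167684)] (nat_lit 16044505)) p13_22_0 (nat_lit 3) (nat_lit 281) (nat_lit 282) = true := by decide +kernel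
def p13_22_0_282 : pfC (piC [(nat_lit 30365544), (nat_lit 20402210), (nat_lit 13167684)] (nat_lit 16044505)) p13_22_0 (nat_lit 3) (nat_lit 282) (nat_lit 283) = true := by decide +kernel
def p13_22_0_283 : pfC (piC [(nat_lit 30365544), (nat_lit 20402210), (nat_lit 13167684)] (nat_lit 16044505)) p13_22_0 (nat_lit 3) (nat_lit 283) (nat_lit 284) = true := by decide +kernel
def p13_22_0_284 : pfC (piC [(nat_lit 30365544), (nat_lit 20402210), (nat_lit 13167684)] (nat_lit 16044505)) p13_22_0 (nat_lit 3) (nat_lit 284) (nat_lit 285) = true := by decide +kernel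
def p13_22_0_285 : pfC (piC [(nat_lit 30365544), (nat_lit 20402210), (nat_lit 13167684)] (nat_lit 16044505)) p13_22_0 (nat_lit 3) (nat_lit 285) (nat_lit 286) = true := by decide +kernel
def p13_22_0_286 : pfC (piC [(nat_lit 30365544), (nat_lit 20402210), (nat_lit 13167684)] (nat_lit 16044505)) p13_22_0 (nat_lit 3) (nat_lit 286) (nat_lit 287) = true := by decide +kernel
def p13_22_0_287 : pfC (piC [(nat_lit 30365544), (nat_lit 20402210), (nat_lit 13167684)] (nat_lit 16044505)) p13_22_0 (nat_lit 3) (nat_lit 287) (nat_lit 288) = true := by decide +kernel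
def p13_22_0_288 : pfC (piC [(nat_lit 30365544), (nat_lit 20402210), (nat_lit 13167684)] (nat_lit 16044505)) p13_22_0 (nat_lit 3) (nat_lit 288) (nat_lit 289) = true := by decide +kernel
def p13_22_0_289 : pfC (piC [(nat_lit 30365544), (nat_lit 20402210), (nat_lit 13167684)] (nat_lit 16044505)) p13_22_0 (nat_lit 3) (nat_lit 289) (nat_lit 290) = true := by decide +kernel
def p13_22_0_290 : pfC (piC [(nat_lit 30365544), (nat_lit 20402210), (nat_lit 13167684)] (nat_lit 16044505)) p13_22_0 (nat_lit 3) (nat_lit 290) (nat_lit 291) = true := by decide +kernel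
def p13_22_0_291 : pfC (piC [(nat_lit 30365544), (nat_lit 20402210), (nat_lit 13167684)] (nat_lit 16044505)) p13_22_0 (nat_lit 3) (nat_lit 291) (nat_lit 292) = true := by decide +kernel
def p13_22_0_292 : pfC (piC [(nat_lit 30365544), (nat_lit 20402210), (nat_lit 13167684)] (nat_lit 16044505)) p13_22_0 (nat_lit 3) (nat_lit 292) (nat_lit 293) = true := by decide +kernel
def p13_22_0_293 : pfC (piC [(nat_lit 30365544), (nat_lit 20402210), (nat_lit 13167684)] (nat_lit 16044505)) p13_22_0 (nat_lit 3) (nat_lit 293) (nat_lit 294) = true := by decide +kernel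
def p13_22_0_294 : pfC (piC [(nat_lit 30365544), (nat_lit 20402210), (nat_lit 13167684)] (nat_lit 16044505)) p13_22_0 (nat_lit 3) (nat_lit 294) (nat_lit 295) = true := by decide +kernel
def p13_22_0_295 : pfC (piC [(nat_lit 30365544), (nat_lit 20402210), (nat_lit 13167684)] (nat_lit 16044505)) p13_22_0 (nat_lit 3) (nat_lit 295) (nat_lit 296) = true := by decide +kernel
def p13_22_0_296 : pfC (piC [(nat_lit 30365544), (nat_lit 20402210), (nat_lit 13167684)] (nat_lit 16044505)) p13_22_0 (nat_lit 3) (nat_lit 296) (nat_lit 297) = true := by decide +kernel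
def p13_22_0_297 : pfC (piC [(nat_lit 30365544), (nat_lit 20402210), (nat_lit 13167684)] (nat_lit 16044505)) p13_22_0 (nat_lit 3) (nat_lit 297) (nat_lit 298) = true := by decide +kernel
def p13_22_0_298 : pfC (piC [(nat_lit 30365544), (nat_lit 20402210), (nat_lit 13167684)] (nat_lit 16044505)) p13_22_0 (nat_lit 3) (nat_lit 298) (nat_lit 299) = true := by decide +kernel
def p13_22_0_299 : pfC (piC [(nat_lit 30365544), (nat_lit 20402210), (nat_lit 13167684)] (nat_lit 16044505)) p13_22_0 (nat_lit 3) (nat_lit 299) (nat_lit 300) = true := by decide +kernel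
def p13_22_0_300 : pfC (piC [(nat_lit 30365544), (nat_lit 20402210), (nat_lit 13167684)] (nat_lit 16044505)) p13_22_0 (nat_lit 3) (nat_lit 300) (nat_lit 301) = true := by decide +kernel
def p13_22_0_301 : pfC (piC [(nat_lit 30365544), (nat_lit 20402210), (nat_lit 13167684)] (nat_lit 16044505)) p13_22_0 (nat_lit 3) (nat_lit 301) (nat_lit 302) = true := by decide +kernel
def p13_22_0_302 : pfC (piC [(nat_lit 30365544), (nat_lit 20402210), (nat_lit 13167684)] (nat_lit 16044505)) p13_22_0 (nat_lit 3) (nat_lit 302) (nat_lit 303) = true := by decide +kernel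
def p13_22_0_303 : pfC (piC [(nat_lit 30365544), (nat_lit 20402210), (nat_lit 13167684)] (nat_lit 16044505)) p13_22_0 (nat_lit 3) (nat_lit 303) (nat_lit 304) = true := by decide +kernel
def p13_22_0_304 : pfC (piC [(nat_lit 30365544), (nat_lit 20402210), (nat_lit 13167684)] (nat_lit 16044505)) p13_22_0 (nat_lit 3) (nat_lit 304) (nat_lit 305) = true := by decide +kernel
def p13_22_0_305 : pfC (piC [(nat_lit 30365544), (nat_lit 20402210), (nat_lit 13167684)] (nat_lit 16044505)) p13_22_0 (nat_lit 3) (nat_lit 305) (nat_lit 306) = true := by decide +kernel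
def p13_22_0_306 : pfC (piC [(nat_lit 30365544), (nat_lit 20402210), (nat_lit 13167684)] (nat_lit 16044505)) p13_22_0 (nat_lit 3) (nat_lit 306) (nat_lit 307) = true := by decide +kernel
def p13_22_0_307 : pfC (piC [(nat_lit 30365544), (nat_lit 20402210), (nat_lit 13167684)] (nat_lit 16044505)) p13_22_0 (nat_lit 3) (nat_lit 307) (nat_lit 308) = true := by decide +kernel
def p13_22_0_308 : pfC (piC [(nat_lit 30365544), (nat_lit 20402210), (nat_lit 13167684)] (nat_lit 16044505)) p13_22_0 (nat_lit 3) (nat_lit 308) (nat_lit 309) = true := by decide +kernel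
def p13_22_0_309 : pfC (piC [(nat_lit 30365544), (nat_lit 20402210), (nat_lit 13167684)] (nat_lit 16044505)) p13_22_0 (nat_lit 3) (nat_lit 309) (nat_lit 310) = true := by decide +kernel
def p13_22_0_310 : pfC (piC [(nat_lit 30365544), (nat_lit 20402210), (nat_lit 13167684)] (nat_lit 16044505)) p13_22_0 (nat_lit 3) (nat_lit 310) (nat_lit 311) = true := by decide +kernel
def p13_22_0_311 : pfC (piC [(nat_lit 30365544), (nat_lit 20402210), (nat_lit 13167684)] (nat_lit 16044505)) p13_22_0 (nat_lit 3) (nat_lit 311) (nat_lit 312) = true := by decide +kernel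
def p13_22_0_312 : pfC (piC [(nat_lit 30365544), (nat_lit 20402210), (nat_lit 13167684)] (nat_lit 16044505)) p13_22_0 (nat_lit 3) (nat_lit 312) (nat_lit 313) = true := by decide +kernel
def p13_22_0_313 : pfC (piC [(nat_lit 30365544), (nat_lit 20402210), (nat_lit 13167684)] (nat_lit 16044505)) p13_22_0 (nat_lit 3) (nat_lit 313) (nat_lit 314) = true := by decide +kernel
def p13_22_0_314 : pfC (piC [(nat_lit 30365544), (nat_lit 20402210), (nat_lit 13167684)] (nat_lit 16044505)) p13_22_0 (nat_lit 3) (nat_lit 314) (nat_lit 315) = true := by decide +kernel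
def p13_22_0_315 : pfC (piC [(nat_lit 30365544), (nat_lit 20402210), (nat_lit 13167684)] (nat_lit 16044505)) p13_22_0 (nat_lit 3) (nat_lit 315) (nat_lit 316) = true := by decide +kernel
def p13_22_0_316 : pfC (piC [(nat_lit 30365544), (nat_lit 20402210), (nat_lit 13167684)] (nat_lit 16044505)) p13_22_0 (nat_lit 3) (nat_lit 316) (nat_lit 317) = true := by decide +kernel
def p13_22_0_317 : pfC (piC [(nat_lit 30365544), (nat_lit 20402210), (nat_lit 13167684)] (nat_lit 16044505)) p13_22_0 (nat_lit 3) (nat_lit 317) (nat_lit 318) = true := by decide +kernel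
def p13_22_0_318 : pfC (piC [(nat_lit 30365544), (nat_lit 20402210), (nat_lit 13167684)] (nat_lit 16044505)) p13_22_0 (nat_lit 3) (nat_lit 318) (nat_lit 319) = true := by decide +kernel
def p13_22_0_319 : pfC (piC [(nat_lit 30365544), (nat_lit 20402210), (nat_lit 13167684)] (nat_lit 16044505)) p13_22_0 (nat_lit 3) (nat_lit 319) (nat_lit 320) = true := by decide +kernel
def p13_22_0_320 : pfC (piC [(nat_lit 30365544), (nat_lit 20402210), (nat_lit 13167684)] (nat_lit 16044505)) p13_22_0 (nat_lit 3) (nat_lit 320) (nat_lit 321) = true := by decide +kernel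
def p13_22_0_321 : pfC (piC [(nat_lit 30365544), (nat_lit 20402210), (nat_lit 13167684)] (nat_lit 16044505)) p13_22_0 (nat_lit 3) (nat_lit 321) (nat_lit 322) = true := by decide +kernel
def p13_22_0_322 : pfC (piC [(nat_lit 30365544), (nat_lit 20402210), (nat_lit 13167684)] (nat_lit 16044505)) p13_22_0 (nat_lit 3) (nat_lit 322) (nat_lit 323) = true := by decide +kernel
def p13_22_0_323 : pfC (piC [(nat_lit 30365544), (nat_lit 20402210), (nat_lit 13167684)] (nat_lit 16044505)) p13_22_0 (nat_lit 3) (nat_lit 323) (nat_lit 324) = true := by decide +kernel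
def p13_22_0_324 : pfC (piC [(nat_lit 30365544), (nat_lit 20402210), (nat_lit 13167684)] (nat_lit 16044505)) p13_22_0 (nat_lit 3) (nat_lit 324) (nat_lit 325) = true := by decide +kernel
def p13_22_0_325 : pfC (piC [(nat_lit 30365544), (nat_lit 20402210), (nat_lit 13167684)] (nat_lit 16044505)) p13_22_0 (nat_lit 3) (nat_lit 325) (nat_lit 326) = true := by decide +kernel
def p13_22_0_326 : pfC (piC [(nat_lit 30365544), (nat_lit 20402210), (nat_lit 13167684)] (nat_lit 16044505)) p13_22_0 (nat_lit 3) (nat_lit 326) (nat_lit 327) = true := by decide +kernel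
def p13_22_0_327 : pfC (piC [(nat_lit 30365544), (nat_lit 20402210), (nat_lit 13167684)] (nat_lit 16044505)) p13_22_0 (nat_lit 3) (nat_lit 327) (nat_lit 328) = true := by decide +kernel
def p13_22_0_328 : pfC (piC [(nat_lit 30365544), (nat_lit 20402210), (nat_lit 13167684)] (nat_lit 16044505)) p13_22_0 (nat_lit 3) (nat_lit 328) (nat_lit 329) = true := by decide +kernel
def p13_22_0_329 : pfC (piC [(nat_lit 30365544), (nat_lit 20402210), (nat_lit 13167684)] (nat_lit 16044505)) p13_22_0 (nat_lit 3) (nat_lit 329) (nat_lit 330) = true := by decide +kernel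
def p13_22_0_330 : pfC (piC [(nat_lit 30365544), (nat_lit 20402210), (nat_lit 13167684)] (nat_lit 16044505)) p13_22_0 (nat_lit 3) (nat_lit 330) (nat_lit 331) = true := by decide +kernel
def p13_22_0_331 : pfC (piC [(nat_lit 30365544), (nat_lit 20402210), (nat_lit 13167684)] (nat_lit 16044505)) p13_22_0 (nat_lit 3) (nat_lit 331) (nat_lit 332) = true := by decide +kernel
def p13_22_0_332 : pfC (piC [(nat_lit 30365544), (nat_lit 20402210), (nat_lit 13167684)] (nat_lit 16044505)) p13_22_0 (nat_lit 3) (nat_lit 332) (nat_lit 333) = true := by decide +kernel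
def p13_22_0_333 : pfC (piC [(nat_lit 30365544), (nat_lit 20402210), (nat_lit 13167684)] (nat_lit 16044505)) p13_22_0 (nat_lit 3) (nat_lit 333) (nat_lit 334) = true := by decide +kernel
def p13_22_0_334 : pfC (piC [(nat_lit 30365544), (nat_lit 20402210), (nat_lit 13167684)] (nat_lit 16044505)) p13_22_0 (nat_lit 3) (nat_lit 334) (nat_lit 335) = true := by decide +kernel
def p13_22_0_335 : pfC (piC [(nat_lit 30365544), (nat_lit 20402210), (nat_lit 13167684)] (nat_lit 16044505)) p13_22_0 (nat_lit 3) (nat_lit 335) (nat_lit 336) = true := by decide +kernel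
def p13_22_0_336 : pfC (piC [(nat_lit 30365544), (nat_lit 20402210), (nat_lit 13167684)] (nat_lit 16044505)) p13_22_0 (nat_lit 3) (nat_lit 336) (nat_lit 337) = true := by decide +kernel
def p13_22_0_337 : pfC (piC [(nat_lit 30365544), (nat_lit 20402210), (nat_lit 13167684)] (nat_lit 16044505)) p13_22_0 (nat_lit 3) (nat_lit 337) (nat_lit 338) = true := by decide +kernel
def p13_22_0_338 : pfC (piC [(nat_lit 30365544), (nat_lit 20402210), (nat_lit 13167684)] (nat_lit 16044505)) p13_22_0 (nat_lit 3) (nat_lit 338) (nat_lit 339) = true := by decide +kernel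
def p13_22_0_339 : pfC (piC [(nat_lit 30365544), (nat_lit 20402210), (nat_lit 13167684)] (nat_lit 16044505)) p13_22_0 (nat_lit 3) (nat_lit 339) (nat_lit 340) = true := by decide +kernel
def p13_22_0_340 : pfC (piC [(nat_lit 30365544), (nat_lit 20402210), (nat_lit 13167684)] (nat_lit 16044505)) p13_22_0 (nat_lit 3) (nat_lit 340) (nat_lit 341) = true := by decide +kernel
def p13_22_0_341 : pfC (piC [(nat_lit 30365544), (nat_lit 20402210), (nat_lit 13167684)] (nat_lit 16044505)) p13_22_0 (nat_lit 3) (nat_lit 341) (nat_lit 342) = true := by decide +kernel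
def p13_22_0_342 : pfC (piC [(nat_lit 30365544), (nat_lit 20402210), (nat_lit 13167684)] (nat_lit 16044505)) p13_22_0 (nat_lit 3) (nat_lit 342) (nat_lit 343) = true := by decide +kernel
def p13_22_0_343 : pfC (piC [(nat_lit 30365544), (nat_lit 20402210), (nat_lit 13167684)] (nat_lit 16044505)) p13_22_0 (nat_lit 3) (nat_lit 343) (nat_lit 344) = true := by decide +kernel
def p13_22_0_344 : pfC (piC [(nat_lit 30365544), (nat_lit 20402210), (nat_lit 13167684)] (nat_lit 16044505)) p13_22_0 (nat_lit 3) (nat_lit 344) (nat_lit 345) = true := by decide +kernel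
def p13_22_0_345 : pfC (piC [(nat_lit 30365544), (nat_lit 20402210), (nat_lit 13167684)] (nat_lit 16044505)) p13_22_0 (nat_lit 3) (nat_lit 345) (nat_lit 346) = true := by decide +kernel
def p13_22_0_346 : pfC (piC [(nat_lit 30365544), (nat_lit 20402210), (nat_lit 13167684)] (nat_lit 16044505)) p13_22_0 (nat_lit 3) (nat_lit 346) (nat_lit 347) = true := by decide +kernel
def p13_22_0_347 : pfC (piC [(nat_lit 30365544), (nat_lit 20402210), (nat_lit 13167684)] (nat_lit 16044505)) p13_22_0 (nat_lit 3) (nat_lit 347) (nat_lit 348) = true := by decide +kernel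
def p13_22_0_348 : pfC (piC [(nat_lit 30365544), (nat_lit 20402210), (nat_lit 13167684)] (nat_lit 16044505)) p13_22_0 (nat_lit 3) (nat_lit 348) (nat_lit 349) = true := by decide +kernel
def p13_22_0_349 : pfC (piC [(nat_lit 30365544), (nat_lit 20402210), (nat_lit 13167684)] (nat_lit 16044505)) p13_22_0 (nat_lit 3) (nat_lit 349) (nat_lit 350) = true := by decide +kernel
def p13_22_0_350 : pfC (piC [(nat_lit 30365544), (nat_lit 20402210), (nat_lit 13167684)] (nat_lit 16044505)) p13_22_0 (nat_lit 3) (nat_lit 350) (nat_lit 351) = true := by decide +kernel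
def p13_22_0_351 : pfC (piC [(nat_lit 30365544), (nat_lit 20402210), (nat_lit 13167684)] (nat_lit 16044505)) p13_22_0 (nat_lit 3) (nat_lit 351) (nat_lit 352) = true := by decide +kernel
def p13_22_0_352 : pfC (piC [(nat_lit 30365544), (nat_lit 20402210), (nat_lit 13167684)] (nat_lit 16044505)) p13_22_0 (nat_lit 3) (nat_lit 352) (nat_lit 353) = true := by decide +kernel
def p13_22_0_353 : pfC (piC [(nat_lit 30365544), (nat_lit 20402210), (nat_lit 13167684)] (nat_lit 16044505)) p13_22_0 (nat_lit 3) (nat_lit 353) (nat_lit 354) = true := by decide +kernel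
def p13_22_0_354 : pfC (piC [(nat_lit 30365544), (nat_lit 20402210), (nat_lit 13167684)] (nat_lit 16044505)) p13_22_0 (nat_lit 3) (nat_lit 354) (nat_lit 355) = true := by decide +kernel
def p13_22_0_355 : pfC (piC [(nat_lit 30365544), (nat_lit 20402210), (nat_lit 13167684)] (nat_lit 16044505)) p13_22_0 (nat_lit 3) (nat_lit 355) (nat_lit 356) = true := by decide +kernel
def p13_22_0_356 : pfC (piC [(nat_lit 30365544), (nat_lit 20402210), (nat_lit 13167684)] (nat_lit 16044505)) p13_22_0 (nat_lit 3) (nat_lit 356) (nat_lit 357) = true := by decide +kernel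
def p13_22_0_357 : pfC (piC [(nat_lit 30365544), (nat_lit 20402210), (nat_lit 13167684)] (nat_lit 16044505)) p13_22_0 (nat_lit 3) (nat_lit 357) (nat_lit 358) = true := by decide +kernel
def p13_22_0_358 : pfC (piC [(nat_lit 30365544), (nat_lit 20402210), (nat_lit 13167684)] (nat_lit 16044505)) p13_22_0 (nat_lit 3) (nat_lit 358) (nat_lit 359) = true := by decide +kernel
def p13_22_0_359 : pfC (piC [(nat_lit 30365544), (nat_lit 20402210), (nat_lit 13167684)] (nat_lit 16044505)) p13_22_0 (nat_lit 3) (nat_lit 359) (nat_lit 360) = true := by decide +kernel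
theorem p13_22_0_T : PfS (PiF n13_22.reverse (nat_lit 16044505)) p13_22_0 (nat_lit 3) [] 0 :=
  pftab_of (los := [(nat_lit 30365544), (nat_lit 20402210), (nat_lit 13167684)]) (by decide +kernel) (hi := (nat_lit 360)) (PfP.trans (PfP.trans (PfP.trans (PfP.trans (PfP.trans (PfP.trans (PfP.trans (PfP.trans (PfP.trans (PfP.trans (PfP.trans (PfP.trans (PfP.trans (PfP.trans (PfP.trans (PfP.trans (PfP.trans (PfP.trans (PfP.trans (PfP.trans (PfP.trans (PfP.trans (PfP.trans (PfP.trans (PfP.trans (PfP.trans (PfP.trans (PfP.trans (PfP.trans (PfP.trans (PfP.trans (PfP.trans (PfP.trans (PfP.trans (PfP.trans (PfP.trans (PfP.trans (PfP.trans (PfP.trans (PfP.trans (PfP.trans (PfP.trans (PfP.trans (PfP.trans (PfP.trans (PfP.trans (PfP.trans (PfP.trans (PfP.trans (PfP.trans (PfP.trans (PfP.trans (PfP.trans (PfP.trans (PfP.trans (PfP.trans (PfP.trans (PfP.trans (PfP.trans (PfP.trans (PfP.trans (PfP.trans (PfP.trans (PfP.trans (PfP.trans (PfP.trans (PfP.trans (PfP.trans (PfP.trans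 (PfP.trans (PfP.trans (PfP.trans (PfP.trans (PfP.trans (PfP.trans (PfP.trans (PfP.trans (PfP.trans (PfP.trans (PfP.trans (PfP.trans (PfP.trans (PfP.trans (PfP.trans (PfP.trans (PfP.trans (PfP.trans (PfP.trans (PfP.trans (PfP.trans (PfP.trans (PfP.trans (PfP.trans (PfP.trans (PfP.trans (PfP.trans (PfP.trans (PfP.trans (PfP.trans (PfP.trans (PfP.trans (PfP.trans (PfP.trans (PfP.trans (PfP.trans (PfP.trans (PfP.trans (PfP.trans (PfP.trans
 (PfP.trans (PfP.trans (PfP.trans (PfP.trans (PfP.trans (PfP.trans (PfP.trans (PfP.trans (PfP.trans (PfP.trans (PfP.trans (PfP.trans (PfP.trans (PfP.trans (PfP.trans (PfP.trans (PfP.trans (PfP.trans (PfP.trans (PfP.trans (PfP.trans (PfP.trans (PfP.trans (PfP.trans (PfP.trans (PfP.trans (PfP.trans (PfP.trans (PfP.trans (PfP.trans (PfP.trans (PfP.trans (PfP.trans (PfP.trans (PfP.trans (PfP.trans (PfP.trans (PfP.trans (PfP.trans (PfP.trans (PfP.trans (PfP.trans (PfP.trans (PfP.trans (PfP.trans (PfP.trans (PfP.trans (PfP.trans (PfP.trans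 (PfP.trans (PfP.trans (PfP.trans (PfP.trans (PfP.trans (PfP.trans (PfP.trans (PfP.trans (PfP.trans (PfP.trans (PfP.trans (PfP.trans (PfP.trans (PfP.trans (PfP.trans (PfP.trans (PfP.trans (PfP.trans (PfP.trans (PfP.trans (PfP.trans (PfP.trans (PfP.trans (PfP.trans (PfP.trans (PfP.trans (PfP.trans (PfP.trans (PfP.trans (PfP.trans (PfP.trans (PfP.trans (PfP.trans (PfP.trans (PfP.trans (PfP.trans (PfP.trans (PfP.trans (PfP.trans (PfP.trans (PfP.trans (PfP.trans (PfP.trans (PfP.trans (PfP.trans (PfP.trans (PfP.trans (PfP.trans (PfP.trans (PfP.trans (PfP.trans (PfP.trans (PfP.trans (PfP.trans (PfP.trans (PfP.trans (PfP.trans (PfP.trans (PfP.trans (PfP.trans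
 (PfP.trans (PfP.trans (PfP.trans (PfP.trans (PfP.trans (PfP.trans (PfP.trans (PfP.trans (PfP.trans (PfP.trans (PfP.trans (PfP.trans (PfP.trans (PfP.trans (PfP.trans (PfP.trans (PfP.trans (PfP.trans (PfP.trans (PfP.trans (PfP.trans (PfP.trans (PfP.trans (PfP.trans (PfP.trans (PfP.trans (PfP.trans (PfP.trans (PfP.trans (PfP.trans (PfP.trans (PfP.trans (PfP.trans (PfP.trans (PfP.trans (PfP.trans (PfP.trans (PfP.trans (PfP.trans (PfP.trans (PfP.trans (PfP.trans (PfP.trans (PfP.trans (PfP.trans (PfP.trans (PfP.trans (PfP.trans (PfP.trans (PfP.trans (PfP.trans (PfP.trans (PfP.trans (PfP.trans (PfP.trans (PfP.trans (PfP.trans (PfP.trans (PfP.trans (PfP.trans (PfP.trans (PfP.trans (PfP.trans (PfP.trans (PfP.trans (PfP.trans (PfP.trans (PfP.trans (PfP.trans (PfP.trans (PfP.trans (PfP.trans (PfP.trans (PfP.trans (PfP.trans (PfP.trans (PfP.trans (PfP.trans (PfP.trans (PfP.trans (PfP.trans (PfP.trans (PfP.trans (PfP.trans (PfP.trans (PfP.trans (PfP.trans (PfP.trans (PfP.trans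 (PfP.trans (PfP.trans (PfP.trans (PfP.trans (PfP.trans (PfP.trans (PfP.trans (PfP.trans (PfP.trans (PfP.trans (PfP.trans (PfP.trans (PfP.trans (PfP.trans (PfP.trans (PfP.trans (PfP.trans (PfP.trans (PfP.trans (PfP.trans
 (PfP.trans (PfP.trans (PfP.trans (PfP.trans (PfP.trans (PfP.trans (PfP.trans (PfP.trans (PfP.trans (PfP.trans (PfP.trans (PfP.trans (PfP.trans (PfP.trans (PfP.trans (PfP.trans (PfP.trans (PfP.trans (PfP.trans (PfP.trans (PfP.trans (PfP.trans (PfP.trans (PfP.trans (PfP.trans (PfP.trans (PfP.trans (PfP.trans (PfP.trans (PfP.trans (PfP.trans (PfP.trans (pfC_sound p13_22_0_0) (pfC_sound p13_22_0_1)) (pfC_sound p13_22_0_2)) (pfC_sound p13_22_0_3)) (pfC_sound p13_22_0_4)) (pfC_sound p13_22_0_5)) (pfC_sound p13_22_0_6)) (pfC_sound p13_22_0_7)) (pfC_sound p13_22_0_8)) (pfC_sound p13_22_0_9)) (pfC_sound p13_22_0_10)) (pfC_sound p13_22_0_11)) (pfC_sound p13_22_0_12)) (pfC_sound p13_22_0_13)) (pfC_sound p13_22_0_14)) (pfC_sound p13_22_0_15)) (pfC_sound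 p13_22_0_16)) (pfC_sound p13_22_0_17)) (pfC_sound p13_22_0_18)) (pfC_sound p13_22_0_19)) (pfC_sound p13_22_0_20)) (pfC_sound p13_22_0_21)) (pfC_sound p13_22_0_22)) (pfC_sound p13_22_0_23)) (pfC_sound p13_22_0_24)) (pfC_sound p13_22_0_25)) (pfC_sound p13_22_0_26)) (pfC_sound p13_22_0_27)) (pfC_sound p13_22_0_28)) (pfC_sound p13_22_0_29)) (pfC_sound p13_22_0_30)) (pfC_sound p13_22_0_31)) (pfC_sound p13_22_0_32)) (pfC_sound p13_22_0_33))
 (pfC_sound p13_22_0_34)) (pfC_sound p13_22_0_35)) (pfC_sound p13_22_0_36)) (pfC_sound p13_22_0_37)) (pfC_sound p13_22_0_38)) (pfC_sound p13_22_0_39)) (pfC_sound p13_22_0_40)) (pfC_sound p13_22_0_41)) (pfC_sound p13_22_0_42)) (pfC_sound p13_22_0_43)) (pfC_sound p13_22_0_44)) (pfC_sound p13_22_0_45)) (pfC_sound p13_22_0_46)) (pfC_sound p13_22_0_47)) (pfC_sound p13_22_0_48)) (pfC_sound p13_22_0_49)) (pfC_sound p13_22_0_50)) (pfC_sound p13_22_0_51)) (pfC_sound p13_22_0_52)) (pfC_sound p13_22_0_53)) (pfC_sound p13_22_0_54)) (pfC_sound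 p13_22_0_55)) (pfC_sound p13_22_0_56)) (pfC_sound p13_22_0_57)) (pfC_sound p13_22_0_58)) (pfC_sound p13_22_0_59)) (pfC_sound p13_22_0_60)) (pfC_sound p13_22_0_61)) (pfC_sound p13_22_0_62)) (pfC_sound p13_22_0_63)) (pfC_sound p13_22_0_64)) (pfC_sound p13_22_0_65)) (pfC_sound p13_22_0_66)) (pfC_sound p13_22_0_67)) (pfC_sound p13_22_0_68)) (pfC_sound p13_22_0_69)) (pfC_sound p13_22_0_70)) (pfC_sound p13_22_0_71)) (pfC_sound p13_22_0_72)) (pfC_sound p13_22_0_73)) (pfC_sound p13_22_0_74)) (pfC_sound p13_22_0_75)) (pfC_sound p13_22_0_76)) (pfC_sound p13_22_0_77)) (pfC_sound p13_22_0_78)) (pfC_sound p13_22_0_79)) (pfC_sound p13_22_0_80)) (pfC_sound p13_22_0_81))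
 (pfC_sound p13_22_0_82)) (pfC_sound p13_22_0_83)) (pfC_sound p13_22_0_84)) (pfC_sound p13_22_0_85)) (pfC_sound p13_22_0_86)) (pfC_sound p13_22_0_87)) (pfC_sound p13_22_0_88)) (pfC_sound p13_22_0_89)) (pfC_sound p13_22_0_90)) (pfC_sound p13_22_0_91)) (pfC_sound p13_22_0_92)) (pfC_sound p13_22_0_93)) (pfC_sound p13_22_0_94)) (pfC_sound p13_22_0_95)) (pfC_sound p13_22_0_96)) (pfC_sound p13_22_0_97)) (pfC_sound p13_22_0_98)) (pfC_sound p13_22_0_99)) (pfC_sound p13_22_0_100)) (pfC_sound p13_22_0_101)) (pfC_sound p13_22_0_102)) (pfC_sound p13_22_0_103)) (pfC_sound p13_22_0_104)) (pfC_sound p13_22_0_105)) (pfC_sound p13_22_0_106)) (pfC_sound p13_22_0_107)) (pfC_sound p13_22_0_108)) (pfC_sound p13_22_0_109)) (pfC_sound p13_22_0_110)) (pfC_sound p13_22_0_111)) (pfC_sound p13_22_0_112)) (pfC_sound p13_22_0_113)) (pfC_sound p13_22_0_114)) (pfC_sound p13_22_0_115)) (pfC_sound p13_22_0_116)) (pfC_sound p13_22_0_117)) (pfC_sound p13_22_0_118)) (pfC_sound p13_22_0_119))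 (pfC_sound p13_22_0_120)) (pfC_sound p13_22_0_121)) (pfC_sound p13_22_0_122)) (pfC_sound p13_22_0_123)) (pfC_sound p13_22_0_124)) (pfC_sound p13_22_0_125)) (pfC_sound p13_22_0_126)) (pfC_sound p13_22_0_127)) (pfC_sound
 p13_22_0_128)) (pfC_sound p13_22_0_129)) (pfC_sound p13_22_0_130)) (pfC_sound p13_22_0_131)) (pfC_sound p13_22_0_132)) (pfC_sound p13_22_0_133)) (pfC_sound p13_22_0_134)) (pfC_sound p13_22_0_135)) (pfC_sound p13_22_0_136)) (pfC_sound p13_22_0_137)) (pfC_sound p13_22_0_138)) (pfC_sound p13_22_0_139)) (pfC_sound p13_22_0_140)) (pfC_sound p13_22_0_141)) (pfC_sound p13_22_0_142)) (pfC_sound p13_22_0_143)) (pfC_sound p13_22_0_144)) (pfC_sound p13_22_0_145)) (pfC_sound p13_22_0_146)) (pfC_sound p13_22_0_147)) (pfC_sound p13_22_0_148)) (pfC_sound p13_22_0_149)) (pfC_sound p13_22_0_150)) (pfC_sound p13_22_0_151)) (pfC_sound p13_22_0_152)) (pfC_sound p13_22_0_153)) (pfC_sound p13_22_0_154)) (pfC_sound p13_22_0_155)) (pfC_sound p13_22_0_156)) (pfC_sound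 p13_22_0_157)) (pfC_sound p13_22_0_158)) (pfC_sound p13_22_0_159)) (pfC_sound p13_22_0_160)) (pfC_sound p13_22_0_161)) (pfC_sound p13_22_0_162)) (pfC_sound p13_22_0_163)) (pfC_sound p13_22_0_164)) (pfC_sound p13_22_0_165)) (pfC_sound p13_22_0_166)) (pfC_sound p13_22_0_167)) (pfC_sound p13_22_0_168)) (pfC_sound p13_22_0_169)) (pfC_sound p13_22_0_170)) (pfC_sound p13_22_0_171)) (pfC_sound p13_22_0_172)) (pfC_sound p13_22_0_173)) (pfC_sound
 p13_22_0_174)) (pfC_sound p13_22_0_175)) (pfC_sound p13_22_0_176)) (pfC_sound p13_22_0_177)) (pfC_sound p13_22_0_178)) (pfC_sound p13_22_0_179)) (pfC_sound p13_22_0_180)) (pfC_sound p13_22_0_181)) (pfC_sound p13_22_0_182)) (pfC_sound p13_22_0_183)) (pfC_sound p13_22_0_184)) (pfC_sound p13_22_0_185)) (pfC_sound p13_22_0_186)) (pfC_sound p13_22_0_187)) (pfC_sound p13_22_0_188)) (pfC_sound p13_22_0_189)) (pfC_sound p13_22_0_190)) (pfC_sound p13_22_0_191)) (pfC_sound p13_22_0_192)) (pfC_sound p13_22_0_193)) (pfC_sound p13_22_0_194))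 (pfC_sound p13_22_0_195)) (pfC_sound p13_22_0_196)) (pfC_sound p13_22_0_197)) (pfC_sound p13_22_0_198)) (pfC_sound p13_22_0_199)) (pfC_sound p13_22_0_200)) (pfC_sound p13_22_0_201)) (pfC_sound p13_22_0_202)) (pfC_sound p13_22_0_203)) (pfC_sound p13_22_0_204)) (pfC_sound p13_22_0_205)) (pfC_sound p13_22_0_206)) (pfC_sound p13_22_0_207)) (pfC_sound p13_22_0_208)) (pfC_sound p13_22_0_209)) (pfC_sound p13_22_0_210)) (pfC_sound p13_22_0_211)) (pfC_sound p13_22_0_212)) (pfC_sound p13_22_0_213)) (pfC_sound p13_22_0_214)) (pfC_sound p13_22_0_215)) (pfC_sound p13_22_0_216)) (pfC_sound p13_22_0_217)) (pfC_sound p13_22_0_218)) (pfC_sound p13_22_0_219)) (pfC_sound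
 p13_22_0_220)) (pfC_sound p13_22_0_221)) (pfC_sound p13_22_0_222)) (pfC_sound p13_22_0_223)) (pfC_sound p13_22_0_224)) (pfC_sound p13_22_0_225)) (pfC_sound p13_22_0_226)) (pfC_sound p13_22_0_227)) (pfC_sound p13_22_0_228)) (pfC_sound p13_22_0_229)) (pfC_sound p13_22_0_230)) (pfC_sound p13_22_0_231)) (pfC_sound p13_22_0_232)) (pfC_sound p13_22_0_233)) (pfC_sound p13_22_0_234)) (pfC_sound p13_22_0_235)) (pfC_sound p13_22_0_236)) (pfC_sound p13_22_0_237)) (pfC_sound p13_22_0_238)) (pfC_sound p13_22_0_239)) (pfC_sound p13_22_0_240)) (pfC_sound p13_22_0_241)) (pfC_sound p13_22_0_242)) (pfC_sound p13_22_0_243)) (pfC_sound p13_22_0_244)) (pfC_sound p13_22_0_245)) (pfC_sound p13_22_0_246)) (pfC_sound p13_22_0_247)) (pfC_sound p13_22_0_248)) (pfC_sound p13_22_0_249)) (pfC_sound p13_22_0_250)) (pfC_sound p13_22_0_251)) (pfC_sound p13_22_0_252)) (pfC_sound p13_22_0_253)) (pfC_sound p13_22_0_254)) (pfC_sound p13_22_0_255)) (pfC_sound p13_22_0_256)) (pfC_sound p13_22_0_257))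 (pfC_sound p13_22_0_258)) (pfC_sound p13_22_0_259)) (pfC_sound p13_22_0_260)) (pfC_sound p13_22_0_261)) (pfC_sound p13_22_0_262)) (pfC_sound p13_22_0_263)) (pfC_sound p13_22_0_264)) (pfC_sound p13_22_0_265)) (pfC_sound
 p13_22_0_266)) (pfC_sound p13_22_0_267)) (pfC_sound p13_22_0_268)) (pfC_sound p13_22_0_269)) (pfC_sound p13_22_0_270)) (pfC_sound p13_22_0_271)) (pfC_sound p13_22_0_272)) (pfC_sound p13_22_0_273)) (pfC_sound p13_22_0_274)) (pfC_sound p13_22_0_275)) (pfC_sound p13_22_0_276)) (pfC_sound p13_22_0_277)) (pfC_sound p13_22_0_278)) (pfC_sound p13_22_0_279)) (pfC_sound p13_22_0_280)) (pfC_sound p13_22_0_281)) (pfC_sound p13_22_0_282)) (pfC_sound p13_22_0_283)) (pfC_sound p13_22_0_284)) (pfC_sound p13_22_0_285)) (pfC_sound p13_22_0_286)) (pfC_sound p13_22_0_287)) (pfC_sound p13_22_0_288)) (pfC_sound p13_22_0_289)) (pfC_sound p13_22_0_290)) (pfC_sound p13_22_0_291)) (pfC_sound p13_22_0_292)) (pfC_sound p13_22_0_293)) (pfC_sound p13_22_0_294)) (pfC_sound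 p13_22_0_295)) (pfC_sound p13_22_0_296)) (pfC_sound p13_22_0_297)) (pfC_sound p13_22_0_298)) (pfC_sound p13_22_0_299)) (pfC_sound p13_22_0_300)) (pfC_sound p13_22_0_301)) (pfC_sound p13_22_0_302)) (pfC_sound p13_22_0_303)) (pfC_sound p13_22_0_304)) (pfC_sound p13_22_0_305)) (pfC_sound p13_22_0_306)) (pfC_sound p13_22_0_307)) (pfC_sound p13_22_0_308)) (pfC_sound p13_22_0_309)) (pfC_sound p13_22_0_310)) (pfC_sound p13_22_0_311)) (pfC_sound
 p13_22_0_312)) (pfC_sound p13_22_0_313)) (pfC_sound p13_22_0_314)) (pfC_sound p13_22_0_315)) (pfC_sound p13_22_0_316)) (pfC_sound p13_22_0_317)) (pfC_sound p13_22_0_318)) (pfC_sound p13_22_0_319)) (pfC_sound p13_22_0_320)) (pfC_sound p13_22_0_321)) (pfC_sound p13_22_0_322)) (pfC_sound p13_22_0_323)) (pfC_sound p13_22_0_324)) (pfC_sound p13_22_0_325)) (pfC_sound p13_22_0_326)) (pfC_sound p13_22_0_327)) (pfC_sound p13_22_0_328)) (pfC_sound p13_22_0_329)) (pfC_sound p13_22_0_330)) (pfC_sound p13_22_0_331)) (pfC_sound p13_22_0_332))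 (pfC_sound p13_22_0_333)) (pfC_sound p13_22_0_334)) (pfC_sound p13_22_0_335)) (pfC_sound p13_22_0_336)) (pfC_sound p13_22_0_337)) (pfC_sound p13_22_0_338)) (pfC_sound p13_22_0_339)) (pfC_sound p13_22_0_340)) (pfC_sound p13_22_0_341)) (pfC_sound p13_22_0_342)) (pfC_sound p13_22_0_343)) (pfC_sound p13_22_0_344)) (pfC_sound p13_22_0_345)) (pfC_sound p13_22_0_346)) (pfC_sound p13_22_0_347)) (pfC_sound p13_22_0_348)) (pfC_sound p13_22_0_349)) (pfC_sound p13_22_0_350)) (pfC_sound p13_22_0_351)) (pfC_sound p13_22_0_352)) (pfC_sound p13_22_0_353)) (pfC_sound p13_22_0_354)) (pfC_sound p13_22_0_355)) (pfC_sound p13_22_0_356)) (pfC_sound p13_22_0_357)) (pfC_sound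
 p13_22_0_358)) (pfC_sound p13_22_0_359)) (by decide +kernel)

def z13_22_0 : zOK yB13_22 (nat_lit 0) (nat_lit 0) (nat_lit 400) (nat_lit 16044505) (nat_lit 11776556) = true := by decide +kernel
def g13_22_0 : gOK yB13_22.x P13_22 (nat_lit 1346) (q13_22 :: r13_22) (nat_lit 0) (nat_lit 0) (nat_lit 1) (nat_lit 400) (nat_lit 0) (nat_lit 11000000) (nat_lit 12712500) (nat_lit 12712500) [(nat_lit 800), (nat_lit 1600)] = true := by decide +kernel
def p13_22_1 : PF := (PF.cons (PF.cons (PF.cons (PF.leaf (nat_lit 1784472) (nat_lit 7719221) (nat_lit 59389591) (nat_lit 7719221) [(nat_lit 0), (nat_lit 0), (nat_lit 0)]) (PF.cons (PF.leaf (nat_lit 2170680) (nat_lit 779439) (nat_lit 58513693) (nat_lit 7815679) [(nat_lit 779439), (nat_lit 0), (nat_lit 0)]) (PF.cons (PF.leaf (nat_lit 2623217) (nat_lit 849018) (nat_lit 57501262) (nat_lit 7909514) [(nat_lit 849018), (nat_lit 0), (nat_lit 0)]) (PF.cons (PF.leaf (nat_lit 3128249) (nat_lit 909503) (nat_lit 56386636) (nat_lit 7993667)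 [(nat_lit 909503), (nat_lit 0), (nat_lit 0)]) (PF.cons (PF.leaf (nat_lit 3675153) (nat_lit 962204) (nat_lit 55196018) (nat_lit 8063975) [(nat_lit 962204), (nat_lit 0), (nat_lit 0)]) (PF.cons (PF.leaf (nat_lit 4255034) (nat_lit 1007980) (nat_lit 53950705) (nat_lit 8118204) [(nat_lit 1007980), (nat_lit 0), (nat_lit 0)]) (PF.cons (PF.leaf (nat_lit 4860234) (nat_lit 1047480) (nat_lit 52668478) (nat_lit 8155454) [(nat_lit 1047480), (nat_lit 0), (nat_lit 0)]) (PF.cons (PF.leaf (nat_lit 5484072) (nat_lit 1081252) (nat_lit 51364313) (nat_lit 8175732) [(nat_lit 1081252), (nat_lit 0), (nat_lit 0)]) (PF.cons (PF.leaf (nat_lit 6120760) (nat_lit 1109793) (nat_lit 50050807) (nat_lit 8179658)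
 [(nat_lit 1109793), (nat_lit 0), (nat_lit 0)]) (PF.cons (PF.leaf (nat_lit 6765261) (nat_lit 1133565) (nat_lit 48738474) (nat_lit 8168249) [(nat_lit 1133565), (nat_lit 0), (nat_lit 0)]) (PF.cons (PF.leaf (nat_lit 7413287) (nat_lit 1153006) (nat_lit 47435993) (nat_lit 8142753) [(nat_lit 1153006), (nat_lit 0), (nat_lit 0)]) (PF.cons (PF.leaf (nat_lit 8061199) (nat_lit 1168530) (nat_lit 46150433) (nat_lit 8104543) [(nat_lit 1168530), (nat_lit 0), (nat_lit 0)]) (PF.cons (PF.leaf (nat_lit 8705937) (nat_lit 1180528) (nat_lit 44887446) (nat_lit 8055028) [(nat_lit 1180528), (nat_lit 0), (nat_lit 0)]) (PF.cons (PF.leaf (nat_lit 9344987) (nat_lit 1189365) (nat_lit 43651458) (nat_lit 7995599) [(nat_lit 1189365), (nat_lit 0), (nat_lit 0)]) (PF.cons (PF.leaf (nat_lit 9976287) (nat_lit 1195384) (nat_lit 42445842) (nat_lit 7927590) [(nat_lit 1195384), (nat_lit 0), (nat_lit 0)]) (PF.cons (PF.leaf (nat_lit 10598201) (nat_lit 1198898) (nat_lit 41273075) (nat_lit 7852254) [(nat_lit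 1198898), (nat_lit 0), (nat_lit 0)]) (PF.cons PF.nil (PF.cons PF.nil (PF.cons PF.nil (PF.cons PF.nil PF.nil)))))))))))))))))))) (PF.cons (PF.cons (PF.leaf (nat_lit 2834267) (nat_lit 2909338) (nat_lit 56227777) (nat_lit
 7971697) [(nat_lit 0), (nat_lit 2909338), (nat_lit 0)]) (PF.cons (PF.leaf (nat_lit 3313981) (nat_lit 921802) (nat_lit 55160402) (nat_lit 8035172) [(nat_lit 921802), (nat_lit 2991435), (nat_lit 0)]) (PF.cons (PF.leaf (nat_lit 3838467) (nat_lit 971892) (nat_lit 54012484) (nat_lit 8087173) [(nat_lit 971892), (nat_lit 3065368), (nat_lit 0)]) (PF.cons (PF.leaf (nat_lit 4397461) (nat_lit 1015122) (nat_lit 52808341) (nat_lit 8125284) [(nat_lit 1015122), (nat_lit 3129820), (nat_lit 0)]) (PF.cons (PF.leaf (nat_lit 4982743) (nat_lit 1052238) (nat_lit 51567017) (nat_lit 8148462) [(nat_lit 1052238), (nat_lit 3184379), (nat_lit 0)]) (PF.cons (PF.leaf (nat_lit 5587399) (nat_lit 1083833) (nat_lit 50303921) (nat_lit 8156579) [(nat_lit 1083833), (nat_lit 3229143),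 (nat_lit 0)]) (PF.cons (PF.leaf (nat_lit 6205558) (nat_lit 1110419) (nat_lit 49031673) (nat_lit 8150108) [(nat_lit 1110419), (nat_lit 3264511), (nat_lit 0)]) (PF.cons (PF.leaf (nat_lit 6832204) (nat_lit 1132460) (nat_lit 47760624) (nat_lit 8129911) [(nat_lit 1132460), (nat_lit 3291057), (nat_lit 0)]) (PF.cons (PF.leaf (nat_lit 7463076) (nat_lit 1150383) (nat_lit 46499208) (nat_lit 8097081) [(nat_lit 1150383), (nat_lit 3309451), (nat_lit
 0)]) (PF.cons (PF.leaf (nat_lit 8094576) (nat_lit 1164593) (nat_lit 45254229) (nat_lit 8052837) [(nat_lit 1164593), (nat_lit 3320407), (nat_lit 0)]) (PF.cons (PF.leaf (nat_lit 8723700) (nat_lit 1175463) (nat_lit 44031093) (nat_lit 7998439) [(nat_lit 1175463), (nat_lit 3324647), (nat_lit 0)]) (PF.cons (PF.leaf (nat_lit 9347946) (nat_lit 1183343) (nat_lit 42834010) (nat_lit 7935138) [(nat_lit 1183343), (nat_lit 3322880), (nat_lit 0)]) (PF.cons (PF.leaf (nat_lit 9965280) (nat_lit 1188559) (nat_lit 41666176) (nat_lit 7864140) [(nat_lit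 1188559), (nat_lit 3315783), (nat_lit 0)]) (PF.cons (PF.leaf (nat_lit 10574078) (nat_lit 1191408) (nat_lit 40529931) (nat_lit 7786576) [(nat_lit 1191408), (nat_lit 3303993), (nat_lit 0)]) (PF.cons (PF.leaf (nat_lit 11173025) (nat_lit 1192165) (nat_lit 39426896) (nat_lit 7703499) [(nat_lit 1192165), (nat_lit 3288100), (nat_lit 0)]) (PF.cons PF.nil (PF.cons PF.nil (PF.cons PF.nil PF.nil)))))))))))))))))) (PF.cons (PF.cons (PF.leaf (nat_lit 4003444) (nat_lit 3093964) (nat_lit 52823161) (nat_lit 8097723) [(nat_lit 0), (nat_lit 3093964), (nat_lit 0)]) (PF.cons (PF.leaf (nat_lit 4538898) (nat_lit 1019402) (nat_lit 51669440) (nat_lit 8121592) [(nat_lit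
 1019402), (nat_lit 3149188), (nat_lit 0)]) (PF.cons (PF.leaf (nat_lit 5102795) (nat_lit 1054662) (nat_lit 50475218) (nat_lit 8132405) [(nat_lit 1054662), (nat_lit 3195931), (nat_lit 0)]) (PF.cons (PF.leaf (nat_lit 5687490) (nat_lit 1084492) (nat_lit 49257379) (nat_lit 8129878) [(nat_lit 1084492), (nat_lit 3234038), (nat_lit 0)]) (PF.cons (PF.leaf (nat_lit 6286789) (nat_lit 1109455) (nat_lit 48029184) (nat_lit 8114341) [(nat_lit 1109455), (nat_lit 3263732), (nat_lit 0)]) (PF.cons (PF.leaf (nat_lit 6895528) (nat_lit 1130037) (nat_lit 46801206) (nat_lit 8086513) [(nat_lit 1130037), (nat_lit 3285453), (nat_lit 0)]) (PF.cons (PF.leaf (nat_lit 7509392) (nat_lit 1146672) (nat_lit 45581903) (nat_lit 8047348) [(nat_lit 1146672), (nat_lit 3299763), (nat_lit 0)]) (PF.cons (PF.leaf (nat_lit 8124762) (nat_lit 1159758) (nat_lit 44378007) (nat_lit 7997925) [(nat_lit 1159758), (nat_lit 3307284), (nat_lit 0)]) (PF.cons (PF.leaf (nat_lit 8738611) (nat_lit 1169663) (nat_lit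 43194816) (nat_lit 7939371) [(nat_lit 1169663), (nat_lit 3308659), (nat_lit 0)]) (PF.cons (PF.leaf (nat_lit 9348456) (nat_lit 1176724) (nat_lit 42036434) (nat_lit 7872815) [(nat_lit 1176724), (nat_lit 3304522), (nat_lit 0)])
 (PF.cons (PF.leaf (nat_lit 9952246) (nat_lit 1181252) (nat_lit 40905959) (nat_lit 7799344) [(nat_lit 1181252), (nat_lit 3295489), (nat_lit 0)]) (PF.cons (PF.leaf (nat_lit 10548350) (nat_lit 1183535) (nat_lit 39805657) (nat_lit 7719987) [(nat_lit 1183535), (nat_lit 3282140), (nat_lit 0)]) (PF.cons (PF.leaf (nat_lit 11135439) (nat_lit 1183832) (nat_lit 38737098) (nat_lit 7635698) [(nat_lit 1183832), (nat_lit 3265015), (nat_lit 0)]) (PF.cons PF.nil (PF.cons PF.nil (PF.cons PF.nil PF.nil)))))))))))))))) (PF.cons (PF.cons (PF.leaf (nat_lit 5222996) (nat_lit 3203239) (nat_lit 49391060) (nat_lit 8108034) [(nat_lit 0), (nat_lit 3203239), (nat_lit 0)]) (PF.cons (PF.leaf (nat_lit 5786306) (nat_lit 1083257) (nat_lit 48223283) (nat_lit 8096291) [(nat_lit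 1083257), (nat_lit 3235327), (nat_lit 0)]) (PF.cons (PF.leaf (nat_lit 6366029) (nat_lit 1106945) (nat_lit 47042230) (nat_lit 8072933) [(nat_lit 1106945), (nat_lit 3259919), (nat_lit 0)]) (PF.cons (PF.leaf (nat_lit 6956555) (nat_lit 1126346) (nat_lit 45859257) (nat_lit 8038550) [(nat_lit 1126346), (nat_lit 3277321), (nat_lit 0)]) (PF.cons (PF.leaf (nat_lit 7553356) (nat_lit 1141920) (nat_lit 44683187) (nat_lit 7993973) [(nat_lit 1141920),
 (nat_lit 3287990), (nat_lit 0)]) (PF.cons (PF.leaf (nat_lit 8152693) (nat_lit 1154072) (nat_lit 43520912) (nat_lit 7940159) [(nat_lit 1154072), (nat_lit 3292459), (nat_lit 0)]) (PF.cons (PF.leaf (nat_lit 8751492) (nat_lit 1163169) (nat_lit 42377787) (nat_lit 7878119) [(nat_lit 1163169), (nat_lit 3291296), (nat_lit 0)]) (PF.cons (PF.leaf (nat_lit 9347217) (nat_lit 1169542) (nat_lit 41257921) (nat_lit 7808872) [(nat_lit 1169542), (nat_lit 3285073), (nat_lit 0)]) (PF.cons (PF.leaf (nat_lit 9937792) (nat_lit 1173496) (nat_lit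 40164407) (nat_lit 7733403) [(nat_lit 1173496), (nat_lit 3274344), (nat_lit 0)]) (PF.cons (PF.leaf (nat_lit 10521536) (nat_lit 1175305) (nat_lit 39099497) (nat_lit 7652648) [(nat_lit 1175305), (nat_lit 3259640), (nat_lit 0)]) (PF.cons (PF.leaf (nat_lit 11097108) (nat_lit 1175220) (nat_lit 38064759) (nat_lit 7567476) [(nat_lit 1175220), (nat_lit 3241455), (nat_lit 0)]) (PF.cons PF.nil (PF.cons PF.nil (PF.cons PF.nil PF.nil)))))))))))))) (PF.cons (PF.cons (PF.leaf (nat_lit 6445136) (nat_lit 3253343) (nat_lit 46069093) (nat_lit 8026345) [(nat_lit 0), (nat_lit 3253343), (nat_lit 0)]) (PF.cons (PF.leaf (nat_lit 7016693) (nat_lit 1121406) (nat_lit 44933419) (nat_lit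
 7986426) [(nat_lit 1121406), (nat_lit 3266889), (nat_lit 0)]) (PF.cons (PF.leaf (nat_lit 7596115) (nat_lit 1136155) (nat_lit 43801908) (nat_lit 7937304) [(nat_lit 1136155), (nat_lit 3274322), (nat_lit 0)]) (PF.cons (PF.leaf (nat_lit 8179349) (nat_lit 1147564) (nat_lit 42681918) (nat_lit 7879834) [(nat_lit 1147564), (nat_lit 3276091), (nat_lit 0)]) (PF.cons (PF.leaf (nat_lit 8763167) (nat_lit 1156009) (nat_lit 41579061) (nat_lit 7814930) [(nat_lit 1156009), (nat_lit 3272695), (nat_lit 0)]) (PF.cons (PF.leaf (nat_lit 9344933) (nat_lit 1161825) (nat_lit 40497591) (nat_lit 7743514) [(nat_lit 1161825), (nat_lit 3264644), (nat_lit 0)]) (PF.cons (PF.leaf (nat_lit 9922505) (nat_lit 1165312) (nat_lit 39440687) (nat_lit 7666484) [(nat_lit 1165312), (nat_lit 3252441), (nat_lit 0)]) (PF.cons (PF.leaf (nat_lit 10494149) (nat_lit 1166738) (nat_lit 38410664) (nat_lit 7584694) [(nat_lit 1166738), (nat_lit 3236570), (nat_lit 0)]) (PF.cons (PF.leaf (nat_lit 11058475) (nat_lit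 1166349) (nat_lit 37409138) (nat_lit 7498941) [(nat_lit 1166349), (nat_lit 3217484), (nat_lit 0)]) (PF.cons PF.nil (PF.cons PF.nil (PF.cons PF.nil PF.nil)))))))))))) (PF.cons (PF.cons (PF.leaf (nat_lit 7639021) (nat_lit
 3258922) (nat_lit 42936586) (nat_lit 7877615) [(nat_lit 0), (nat_lit 3258922), (nat_lit 0)]) (PF.cons (PF.leaf (nat_lit 8205758) (nat_lit 1140244) (nat_lit 41859788) (nat_lit 7817188) [(nat_lit 1140244), (nat_lit 3258318), (nat_lit 0)]) (PF.cons (PF.leaf (nat_lit 8774479) (nat_lit 1148200) (nat_lit 40797558) (nat_lit 7750004) [(nat_lit 1148200), (nat_lit 3252969), (nat_lit 0)]) (PF.cons (PF.leaf (nat_lit 9342311) (nat_lit 1153589) (nat_lit 39754472) (nat_lit 7676908) [(nat_lit 1153589), (nat_lit 3243332), (nat_lit 0)]) (PF.cons (PF.leaf (nat_lit 9906991) (nat_lit 1156716) (nat_lit 38733914) (nat_lit 7598725) [(nat_lit 1156716), (nat_lit 3229860), (nat_lit 0)]) (PF.cons (PF.leaf (nat_lit 10466697) (nat_lit 1157850) (nat_lit 37738340) (nat_lit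 7516239) [(nat_lit 1157850), (nat_lit 3212996), (nat_lit 0)]) (PF.cons (PF.leaf (nat_lit 11019964) (nat_lit 1157229) (nat_lit 36769472) (nat_lit 7430183) [(nat_lit 1157229), (nat_lit 3193155), (nat_lit 0)]) (PF.cons (PF.leaf (nat_lit 11565638) (nat_lit 1155071) (nat_lit 35828448) (nat_lit 7341229) [(nat_lit 1155071), (nat_lit 3170727), (nat_lit 0)]) (PF.cons PF.nil (PF.cons PF.nil PF.nil)))))))))) (PF.cons (PF.cons (PF.leaf (nat_lit 8786416)
 (nat_lit 3232215) (nat_lit 40032022) (nat_lit 7683495) [(nat_lit 0), (nat_lit 3232215), (nat_lit 0)]) (PF.cons (PF.leaf (nat_lit 9340103) (nat_lit 1144838) (nat_lit 39027483) (nat_lit 7609186) [(nat_lit 1144838), (nat_lit 3221217), (nat_lit 0)]) (PF.cons (PF.leaf (nat_lit 9891869) (nat_lit 1147716) (nat_lit 38043131) (nat_lit 7530235) [(nat_lit 1147716), (nat_lit 3206668), (nat_lit 0)]) (PF.cons (PF.leaf (nat_lit 10439691) (nat_lit 1148646) (nat_lit 37081663) (nat_lit 7447371) [(nat_lit 1148646), (nat_lit 3188972), (nat_lit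 0)]) (PF.cons (PF.leaf (nat_lit 10982012) (nat_lit 1147869) (nat_lit 36144978) (nat_lit 7361272) [(nat_lit 1147869), (nat_lit 3168513), (nat_lit 0)]) (PF.cons (PF.leaf (nat_lit 11517596) (nat_lit 1145598) (nat_lit 35234348) (nat_lit 7272565) [(nat_lit 1145598), (nat_lit 3145651), (nat_lit 0)]) (PF.cons PF.nil (PF.cons PF.nil PF.nil)))))))) (PF.cons (PF.cons (PF.leaf (nat_lit 9877864) (nat_lit 3182919) (nat_lit 37367286) (nat_lit 7461092) [(nat_lit 0), (nat_lit 3182919), (nat_lit 0)]) (PF.cons (PF.leaf (nat_lit 10413680) (nat_lit 1139128) (nat_lit 36439714) (nat_lit 7378154) [(nat_lit 1139128), (nat_lit 3164545), (nat_lit 0)]) (PF.cons (PF.leaf (nat_lit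
 10945065) (nat_lit 1138269) (nat_lit 35534836) (nat_lit 7292262) [(nat_lit 1138269), (nat_lit 3143596), (nat_lit 0)]) (PF.cons (PF.leaf (nat_lit 11470618) (nat_lit 1135947) (nat_lit 34654120) (nat_lit 7204002) [(nat_lit 1135947), (nat_lit 3120406), (nat_lit 0)]) (PF.cons PF.nil (PF.cons PF.nil PF.nil)))))) (PF.cons (PF.cons (PF.leaf (nat_lit 10909667) (nat_lit 3118431) (nat_lit 34938178) (nat_lit 7223182) [(nat_lit 0), (nat_lit 3118431), (nat_lit 0)]) (PF.cons (PF.leaf (nat_lit 11425094) (nat_lit 1126116) (nat_lit 34086996) (nat_lit 7135564) [(nat_lit 1126116), (nat_lit 3095016), (nat_lit 0)]) (PF.cons (PF.leaf (nat_lit 11934559) (nat_lit 1122551) (nat_lit 33259083) (nat_lit 7046277) [(nat_lit 1122551), (nat_lit 3069793), (nat_lit 0)]) (PF.cons PF.nil PF.nil)))) (PF.cons (PF.cons (PF.leaf (nat_lit 11881723) (nat_lit 3044253) (nat_lit 32731595) (nat_lit 6978934) [(nat_lit 0), (nat_lit 3044253), (nat_lit 0)]) (PF.cons PF.nil PF.nil)) (PF.cons PF.nil (PF.cons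 PF.nil (PF.cons PF.nil PF.nil))))))))))))) (PF.cons (PF.cons (PF.cons (PF.leaf (nat_lit 3581030) (nat_lit 6501429) (nat_lit 52592455) (nat_lit 8014927) [(nat_lit 0), (nat_lit 0), (nat_lit 6501429)]) (PF.cons (PF.leaf (nat_lit
 4061803) (nat_lit 960726) (nat_lit 51563254) (nat_lit 8041820) [(nat_lit 960726), (nat_lit 0), (nat_lit 6543011)]) (PF.cons (PF.leaf (nat_lit 4581693) (nat_lit 1003500) (nat_lit 50468556) (nat_lit 8058061) [(nat_lit 1003500), (nat_lit 0), (nat_lit 6575193)]) (PF.cons (PF.leaf (nat_lit 5130704) (nat_lit 1039504) (nat_lit 49331225) (nat_lit 8062433) [(nat_lit 1039504), (nat_lit 0), (nat_lit 6596641)]) (PF.cons (PF.leaf (nat_lit 5701166) (nat_lit 1069714) (nat_lit 48168403) (nat_lit 8054615) [(nat_lit 1069714), (nat_lit 0), (nat_lit 6606936)]) (PF.cons (PF.leaf (nat_lit 6286843) (nat_lit 1094854) (nat_lit 46993433) (nat_lit 8034867) [(nat_lit 1094854), (nat_lit 0), (nat_lit 6606237)]) (PF.cons (PF.leaf (nat_lit 6882585) (nat_lit 1115510)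 (nat_lit 45816873) (nat_lit 8003816) [(nat_lit 1115510), (nat_lit 0), (nat_lit 6595058)]) (PF.cons (PF.leaf (nat_lit 7484090) (nat_lit 1132176) (nat_lit 44647127) (nat_lit 7962315) [(nat_lit 1132176), (nat_lit 0), (nat_lit 6574134)]) (PF.cons (PF.leaf (nat_lit 8087760) (nat_lit 1145287) (nat_lit 43490858) (nat_lit 7911339) [(nat_lit 1145287), (nat_lit 0), (nat_lit 6544317)]) (PF.cons (PF.leaf (nat_lit 8690595) (nat_lit 1155230) (nat_lit 42353310)
 (nat_lit 7851917) [(nat_lit 1155230), (nat_lit 0), (nat_lit 6506511)]) (PF.cons (PF.leaf (nat_lit 9290122) (nat_lit 1162355) (nat_lit 41238543) (nat_lit 7785080) [(nat_lit 1162355), (nat_lit 0), (nat_lit 6461631)]) (PF.cons (PF.leaf (nat_lit 9884309) (nat_lit 1166980) (nat_lit 40149639) (nat_lit 7711827) [(nat_lit 1166980), (nat_lit 0), (nat_lit 6410562)]) (PF.cons (PF.leaf (nat_lit 10471480) (nat_lit 1169390) (nat_lit 39088864) (nat_lit 7633107) [(nat_lit 1169390), (nat_lit 0), (nat_lit 6354152)]) (PF.cons (PF.leaf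 (nat_lit 11050329) (nat_lit 1169847) (nat_lit 38057808) (nat_lit 7549801) [(nat_lit 1169847), (nat_lit 0), (nat_lit 6293187)]) (PF.cons PF.nil (PF.cons PF.nil PF.nil)))))))))))))))) (PF.cons (PF.cons (PF.leaf (nat_lit 4721568) (nat_lit 3133931) (nat_lit 49365915) (nat_lit 8038543) [(nat_lit 0), (nat_lit 3133931), (nat_lit 6570423)]) (PF.cons (PF.leaf (nat_lit 5246907) (nat_lit 1038506) (nat_lit 48282221) (nat_lit 8033465) [(nat_lit 1038506), (nat_lit 3172063), (nat_lit 6582555)]) (PF.cons (PF.leaf (nat_lit 5796368) (nat_lit 1067623) (nat_lit 47168353) (nat_lit 8017522) [(nat_lit 1067623), (nat_lit 3202805), (nat_lit 6584883)]) (PF.cons (PF.leaf (nat_lit 6362867)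
 (nat_lit 1091671) (nat_lit 46039275) (nat_lit 7990870) [(nat_lit 1091671), (nat_lit 3226239), (nat_lit 6577413)]) (PF.cons (PF.leaf (nat_lit 6940837) (nat_lit 1111297) (nat_lit 44906356) (nat_lit 7954032) [(nat_lit 1111297), (nat_lit 3242694), (nat_lit 6560536)]) (PF.cons (PF.leaf (nat_lit 7525751) (nat_lit 1127028) (nat_lit 43778400) (nat_lit 7907758) [(nat_lit 1127028), (nat_lit 3252638), (nat_lit 6534872)]) (PF.cons (PF.leaf (nat_lit 8113874) (nat_lit 1139310) (nat_lit 42662264) (nat_lit 7852920) [(nat_lit 1139310), (nat_lit 3256599), (nat_lit 6501166)]) (PF.cons (PF.leaf (nat_lit 8702136) (nat_lit 1148533) (nat_lit 41563273) (nat_lit 7790446) [(nat_lit 1148533), (nat_lit 3255132), (nat_lit 6460225)]) (PF.cons (PF.leaf (nat_lit 9287992) (nat_lit 1155044) (nat_lit 40485520) (nat_lit 7721271) [(nat_lit 1155044), (nat_lit 3248792), (nat_lit 6412869)]) (PF.cons (PF.leaf (nat_lit 9869388) (nat_lit 1159154) (nat_lit 39432097) (nat_lit 7646304) [(nat_lit 1159154),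 (nat_lit 3238115), (nat_lit 6359903)]) (PF.cons (PF.leaf (nat_lit 10444611) (nat_lit 1161142) (nat_lit 38405274) (nat_lit 7566411) [(nat_lit 1161142), (nat_lit 3223608), (nat_lit 6302096)]) (PF.cons (PF.leaf (nat_lit
 11012313) (nat_lit 1161258) (nat_lit 37406651) (nat_lit 7482399) [(nat_lit 1161258), (nat_lit 3205748), (nat_lit 6240167)]) (PF.cons PF.nil (PF.cons PF.nil PF.nil)))))))))))))) (PF.cons (PF.cons (PF.leaf (nat_lit 5893312) (nat_lit 3199278) (nat_lit 46177933) (nat_lit 7974647) [(nat_lit 0), (nat_lit 3199278), (nat_lit 6557675)]) (PF.cons (PF.leaf (nat_lit 6439242) (nat_lit 1086988) (nat_lit 45098339) (nat_lit 7942183) [(nat_lit 1086988), (nat_lit 3218468), (nat_lit 6544365)]) (PF.cons (PF.leaf (nat_lit 6998709) (nat_lit 1105882) (nat_lit 44011239) (nat_lit 7900491) [(nat_lit 1105882), (nat_lit 3231363), (nat_lit 6522591)]) (PF.cons (PF.leaf (nat_lit 7566663) (nat_lit 1120909) (nat_lit 42926326) (nat_lit 7850237) [(nat_lit 1120909), (nat_lit 3238324),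 (nat_lit 6492871)]) (PF.cons (PF.leaf (nat_lit 8139113) (nat_lit 1132548) (nat_lit 41850945) (nat_lit 7792209) [(nat_lit 1132548), (nat_lit 3239801), (nat_lit 6455861)]) (PF.cons (PF.leaf (nat_lit 8712817) (nat_lit 1141203) (nat_lit 40790697) (nat_lit 7727251) [(nat_lit 1141203), (nat_lit 3236284), (nat_lit 6412279)]) (PF.cons (PF.leaf (nat_lit 9285128) (nat_lit 1147225) (nat_lit 39749840) (nat_lit 7656214) [(nat_lit 1147225), (nat_lit
 3228268), (nat_lit 6362868)]) (PF.cons (PF.leaf (nat_lit 9853906) (nat_lit 1150923) (nat_lit 38731566) (nat_lit 7579934) [(nat_lit 1150923), (nat_lit 3216243), (nat_lit 6308358)]) (PF.cons (PF.leaf (nat_lit 10417390) (nat_lit 1152574) (nat_lit 37738217) (nat_lit 7499201) [(nat_lit 1152574), (nat_lit 3200672), (nat_lit 6249450)]) (PF.cons (PF.leaf (nat_lit 10974182) (nat_lit 1152423) (nat_lit 36771449) (nat_lit 7414759) [(nat_lit 1152423), (nat_lit 3181994), (nat_lit 6186802)]) (PF.cons PF.nil (PF.cons PF.nil PF.nil))))))))))))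 (PF.cons (PF.cons (PF.leaf (nat_lit 7057857) (nat_lit 3218085) (nat_lit 43129634) (nat_lit 7843451) [(nat_lit 0), (nat_lit 3218085), (nat_lit 6481471)]) (PF.cons (PF.leaf (nat_lit 7608069) (nat_lit 1113810) (nat_lit 42089424) (nat_lit 7789985) [(nat_lit 1113810), (nat_lit 3222413), (nat_lit 6448353)]) (PF.cons (PF.leaf (nat_lit 8164468) (nat_lit 1125004) (nat_lit 41055671) (nat_lit 7729410) [(nat_lit 1125004), (nat_lit 3221710), (nat_lit 6408592)]) (PF.cons (PF.leaf (nat_lit 8723453) (nat_lit 1133247) (nat_lit 40034519) (nat_lit 7662505) [(nat_lit 1133247), (nat_lit 3216402), (nat_lit 6362838)]) (PF.cons (PF.leaf (nat_lit 9282198) (nat_lit 1138907) (nat_lit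
 39030554) (nat_lit 7590057) [(nat_lit 1138907), (nat_lit 3206934), (nat_lit 6311764)]) (PF.cons (PF.leaf (nat_lit 9838432) (nat_lit 1142299) (nat_lit 38047183) (nat_lit 7512837) [(nat_lit 1142299), (nat_lit 3193751), (nat_lit 6256038)]) (PF.cons (PF.leaf (nat_lit 10390306) (nat_lit 1143700) (nat_lit 37086899) (nat_lit 7431576) [(nat_lit 1143700), (nat_lit 3177277), (nat_lit 6196304)]) (PF.cons (PF.leaf (nat_lit 10936344) (nat_lit 1143352) (nat_lit 36151468) (nat_lit 7346959) [(nat_lit 1143352), (nat_lit 3157917), (nat_lit 6133167)]) (PF.cons (PF.leaf (nat_lit 11475366) (nat_lit 1141473) (nat_lit 35242084) (nat_lit 7259618) [(nat_lit 1141473), (nat_lit 3136044), (nat_lit 6067190)]) (PF.cons PF.nil PF.nil)))))))))) (PF.cons (PF.cons (PF.leaf (nat_lit 8191124) (nat_lit 3202423) (nat_lit 40274947) (nat_lit 7664667) [(nat_lit 0), (nat_lit 3202423), (nat_lit 6359503)]) (PF.cons (PF.leaf (nat_lit 8734938) (nat_lit 1124660) (nat_lit 39293504) (nat_lit 7596338) [(nat_lit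 1124660), (nat_lit 3195571), (nat_lit 6312026)]) (PF.cons (PF.leaf (nat_lit 9279930) (nat_lit 1130092) (nat_lit 38326604) (nat_lit 7522910) [(nat_lit 1130092), (nat_lit 3184862), (nat_lit 6259664)]) (PF.cons (PF.leaf
 (nat_lit 9823560) (nat_lit 1133285) (nat_lit 37378020) (nat_lit 7445106) [(nat_lit 1133285), (nat_lit 3170698), (nat_lit 6203034)]) (PF.cons (PF.leaf (nat_lit 10363847) (nat_lit 1134522) (nat_lit 36450487) (nat_lit 7363609) [(nat_lit 1134522), (nat_lit 3153473), (nat_lit 6142732)]) (PF.cons (PF.leaf (nat_lit 10899210) (nat_lit 1134049) (nat_lit 35545952) (nat_lit 7279060) [(nat_lit 1134049), (nat_lit 3133558), (nat_lit 6079319)]) (PF.cons (PF.leaf (nat_lit 11428385) (nat_lit 1132083) (nat_lit 34665744) (nat_lit 7192045) [(nat_lit 1132083), (nat_lit 3111301), (nat_lit 6013317)]) (PF.cons PF.nil PF.nil)))))))) (PF.cons (PF.cons (PF.leaf (nat_lit 9279187) (nat_lit 3162106) (nat_lit 37636790) (nat_lit 7454846) [(nat_lit 0), (nat_lit 3162106), (nat_lit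 6206643)]) (PF.cons (PF.leaf (nat_lit 9809935) (nat_lit 1123872) (nat_lit 36723054) (nat_lit 7376805) [(nat_lit 1123872), (nat_lit 3147133), (nat_lit 6149411)]) (PF.cons (PF.leaf (nat_lit 10338539) (nat_lit 1125037) (nat_lit 35828092) (nat_lit 7295356) [(nat_lit 1125037), (nat_lit 3129299), (nat_lit 6088790)]) (PF.cons (PF.leaf (nat_lit 10863211) (nat_lit 1124513) (nat_lit 34954112) (nat_lit 7211103) [(nat_lit 1124513), (nat_lit
 3108949), (nat_lit 6025305)]) (PF.cons (PF.leaf (nat_lit 11382577) (nat_lit 1122520) (nat_lit 34102636) (nat_lit 7124602) [(nat_lit 1122520), (nat_lit 3086409), (nat_lit 5959445)]) (PF.cons PF.nil PF.nil)))))) (PF.cons (PF.cons (PF.leaf (nat_lit 10315023) (nat_lit 3104785) (nat_lit 35218744) (nat_lit 7226845) [(nat_lit 0), (nat_lit 3104785), (nat_lit 6034511)]) (PF.cons (PF.leaf (nat_lit 10828814) (nat_lit 1114738) (nat_lit 34375108) (nat_lit 7143115) [(nat_lit 1114738), (nat_lit 3084116), (nat_lit 5971152)]) (PF.cons (PF.leaf (nat_lit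 11338322) (nat_lit 1112780) (nat_lit 33552020) (nat_lit 7057308) [(nat_lit 1112780), (nat_lit 3061387), (nat_lit 5905595)]) (PF.cons (PF.leaf (nat_lit 11842295) (nat_lit 1109558) (nat_lit 32750678) (nat_lit 6969903) [(nat_lit 1109558), (nat_lit 3036881), (nat_lit 5838263)]) PF.nil)))) (PF.cons (PF.cons (PF.leaf (nat_lit 11296096) (nat_lit 3036250) (nat_lit 33013114) (nat_lit 6990166) [(nat_lit 0), (nat_lit 3036250), (nat_lit 5851778)]) (PF.cons (PF.leaf (nat_lit 11790908) (nat_lit 1099732) (nat_lit 32238073) (nat_lit 6903747) [(nat_lit 1099732), (nat_lit 3011747), (nat_lit 5785028)]) PF.nil)) (PF.cons PF.nil (PF.cons PF.nil (PF.cons PF.nil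
 PF.nil))))))))))) (PF.cons (PF.cons (PF.cons (PF.leaf (nat_lit 5384993) (nat_lit 6497775) (nat_lit 46196614) (nat_lit 7916647) [(nat_lit 0), (nat_lit 0), (nat_lit 6497775)]) (PF.cons (PF.leaf (nat_lit 5897756) (nat_lit 1046109) (nat_lit 45189377) (nat_lit 7891435) [(nat_lit 1046109), (nat_lit 0), (nat_lit 6490945)]) (PF.cons (PF.leaf (nat_lit 6431306) (nat_lit 1070319) (nat_lit 44159231) (nat_lit 7857158) [(nat_lit 1070319), (nat_lit 0), (nat_lit 6475891)]) (PF.cons (PF.leaf (nat_lit 6979072) (nat_lit 1089817) (nat_lit 43119383) (nat_lit 7814237) [(nat_lit 1089817), (nat_lit 0), (nat_lit 6452869)]) (PF.cons (PF.leaf (nat_lit 7536021) (nat_lit 1105295) (nat_lit 42079613) (nat_lit 7763295) [(nat_lit 1105295), (nat_lit 0), (nat_lit 6422361)]) (PF.cons (PF.leaf (nat_lit 8098137) (nat_lit 1117294) (nat_lit 41047318) (nat_lit 7705066) [(nat_lit 1117294), (nat_lit 0), (nat_lit 6384977)]) (PF.cons (PF.leaf (nat_lit 8662152) (nat_lit 1126259) (nat_lit 40028136) (nat_lit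 7640334) [(nat_lit 1126259), (nat_lit 0), (nat_lit 6341391)]) (PF.cons (PF.leaf (nat_lit 9225416) (nat_lit 1132566) (nat_lit 39026357) (nat_lit 7569897) [(nat_lit 1132566), (nat_lit 0), (nat_lit 6292296)]) (PF.cons (PF.leaf
 (nat_lit 9785761) (nat_lit 1136539) (nat_lit 38045211) (nat_lit 7494531) [(nat_lit 1136539), (nat_lit 0), (nat_lit 6238377)]) (PF.cons (PF.leaf (nat_lit 10341419) (nat_lit 1138462) (nat_lit 37087085) (nat_lit 7414978) [(nat_lit 1138462), (nat_lit 0), (nat_lit 6180293)]) (PF.cons (PF.leaf (nat_lit 10890976) (nat_lit 1138586) (nat_lit 36153687) (nat_lit 7331934) [(nat_lit 1138586), (nat_lit 0), (nat_lit 6118664)]) (PF.cons PF.nil (PF.cons PF.nil (PF.cons PF.nil PF.nil)))))))))))))) (PF.cons (PF.cons (PF.leaf (nat_lit 6508596) (nat_lit 3171599) (nat_lit 43259247) (nat_lit 7802736) [(nat_lit 0), (nat_lit 3171599), (nat_lit 6437614)]) (PF.cons (PF.leaf (nat_lit 7036789) (nat_lit 1082755) (nat_lit 42266541) (nat_lit 7756409) [(nat_lit 1082755),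 (nat_lit 3181259), (nat_lit 6410923)]) (PF.cons (PF.leaf (nat_lit 7576369) (nat_lit 1097902) (nat_lit 41269930) (nat_lit 7702692) [(nat_lit 1097902), (nat_lit 3185598), (nat_lit 6377393)]) (PF.cons (PF.leaf (nat_lit 8122753) (nat_lit 1109549) (nat_lit 40277748) (nat_lit 7642275) [(nat_lit 1109549), (nat_lit 3184998), (nat_lit 6337570)]) (PF.cons (PF.leaf (nat_lit 8672379) (nat_lit 1118178) (nat_lit 39296183) (nat_lit 7575889) [(nat_lit 1118178),
 (nat_lit 3179892), (nat_lit 6292067)]) (PF.cons (PF.leaf (nat_lit 9222395) (nat_lit 1124182) (nat_lit 38329863) (nat_lit 7504275) [(nat_lit 1124182), (nat_lit 3170722), (nat_lit 6241518)]) (PF.cons (PF.leaf (nat_lit 9770506) (nat_lit 1127897) (nat_lit 37382242) (nat_lit 7428156) [(nat_lit 1127897), (nat_lit 3157926), (nat_lit 6186551)]) (PF.cons (PF.leaf (nat_lit 10314845) (nat_lit 1129609) (nat_lit 36455859) (nat_lit 7348221) [(nat_lit 1129609), (nat_lit 3141920), (nat_lit 6127773)]) (PF.cons (PF.leaf (nat_lit 10853920)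 (nat_lit 1129568) (nat_lit 35552539) (nat_lit 7265113) [(nat_lit 1129568), (nat_lit 3123098), (nat_lit 6065757)]) (PF.cons (PF.leaf (nat_lit 11386530) (nat_lit 1127994) (nat_lit 34673534) (nat_lit 7179428) [(nat_lit 1127994), (nat_lit 3101824), (nat_lit 6001035)]) (PF.cons PF.nil (PF.cons PF.nil PF.nil)))))))))))) (PF.cons (PF.cons (PF.leaf (nat_lit 7619073) (nat_lit 3167907) (nat_lit 40472745) (nat_lit 7639735) [(nat_lit 0), (nat_lit 3167907), (nat_lit 6330258)]) (PF.cons (PF.leaf (nat_lit 8148907) (nat_lit 1101016) (nat_lit 39521950) (nat_lit 7577718) [(nat_lit 1101016), (nat_lit 3165563), (nat_lit 6288500)]) (PF.cons (PF.leaf (nat_lit 8683714) (nat_lit 1109478)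
 (nat_lit 38578616) (nat_lit 7510163) [(nat_lit 1109478), (nat_lit 3159038), (nat_lit 6241498)]) (PF.cons (PF.leaf (nat_lit 9220261) (nat_lit 1115314) (nat_lit 37647945) (nat_lit 7437773) [(nat_lit 1115314), (nat_lit 3148732), (nat_lit 6189842)]) (PF.cons (PF.leaf (nat_lit 9756046) (nat_lit 1118876) (nat_lit 36733753) (nat_lit 7361231) [(nat_lit 1118876), (nat_lit 3135043), (nat_lit 6134116)]) (PF.cons (PF.leaf (nat_lit 10289060) (nat_lit 1120462) (nat_lit 35838832) (nat_lit 7281185) [(nat_lit 1120462), (nat_lit 3118356), (nat_lit 6074885)]) (PF.cons (PF.leaf (nat_lit 10817702) (nat_lit 1120326) (nat_lit 34965182) (nat_lit 7198238) [(nat_lit 1120326), (nat_lit 3099035), (nat_lit 6012681)]) (PF.cons (PF.leaf (nat_lit 11340689) (nat_lit 1118689) (nat_lit 34114196) (nat_lit 7112948) [(nat_lit 1118689), (nat_lit 3077421), (nat_lit 5948000)]) (PF.cons PF.nil (PF.cons PF.nil PF.nil)))))))))) (PF.cons (PF.cons (PF.leaf (nat_lit 8697221) (nat_lit 3137363) (nat_lit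 37873998) (nat_lit 7443218) [(nat_lit 0), (nat_lit 3137363), (nat_lit 6189752)]) (PF.cons (PF.leaf (nat_lit 9219792) (nat_lit 1105941) (nat_lit 36979429) (nat_lit 7370450) [(nat_lit 1105941), (nat_lit 3126109), (nat_lit
 6137332)]) (PF.cons (PF.leaf (nat_lit 9743002) (nat_lit 1109465) (nat_lit 36098755) (nat_lit 7293809) [(nat_lit 1109465), (nat_lit 3111686), (nat_lit 6081129)]) (PF.cons (PF.leaf (nat_lit 10264568) (nat_lit 1111015) (nat_lit 35235142) (nat_lit 7213915) [(nat_lit 1111015), (nat_lit 3094451), (nat_lit 6021676)]) (PF.cons (PF.leaf (nat_lit 10782738) (nat_lit 1110856) (nat_lit 34390856) (nat_lit 7131344) [(nat_lit 1110856), (nat_lit 3074745), (nat_lit 5959474)]) (PF.cons (PF.leaf (nat_lit 11296116) (nat_lit 1109215) (nat_lit 33567479) (nat_lit 7046622) [(nat_lit 1109215), (nat_lit 3052885), (nat_lit 5894988)]) (PF.cons PF.nil (PF.cons PF.nil PF.nil)))))))) (PF.cons (PF.cons (PF.leaf (nat_lit 9732149) (nat_lit 3087884) (nat_lit 35476128) (nat_lit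 7225910) [(nat_lit 0), (nat_lit 3087884), (nat_lit 6027618)]) (PF.cons (PF.leaf (nat_lit 10241932) (nat_lit 1101254) (nat_lit 34643851) (nat_lit 7146432) [(nat_lit 1101254), (nat_lit 3070232), (nat_lit 5968171)]) (PF.cons (PF.leaf (nat_lit 10749479) (nat_lit 1101150) (nat_lit 33828749) (nat_lit 7064447) [(nat_lit 1101150), (nat_lit 3050249), (nat_lit 5906157)]) (PF.cons (PF.leaf (nat_lit 11253177) (nat_lit 1099566) (nat_lit 33032672) (nat_lit
 6980463) [(nat_lit 1099566), (nat_lit 3028234), (nat_lit 5842019)]) (PF.cons PF.nil (PF.cons PF.nil PF.nil)))))) (PF.cons (PF.cons (PF.leaf (nat_lit 10718498) (nat_lit 3025560) (nat_lit 33277983) (nat_lit 6997546) [(nat_lit 0), (nat_lit 3025560), (nat_lit 5852739)]) (PF.cons (PF.leaf (nat_lit 11212276) (nat_lit 1089729) (nat_lit 32509019) (nat_lit 6914471) [(nat_lit 1089729), (nat_lit 3003478), (nat_lit 5789098)]) (PF.cons (PF.leaf (nat_lit 11701960) (nat_lit 1086985) (nat_lit 31758536) (nat_lit 6829953) [(nat_lit 1086985),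 (nat_lit 2979731), (nat_lit 5723847)]) (PF.cons PF.nil PF.nil)))) (PF.cons (PF.cons (PF.leaf (nat_lit 11654487) (nat_lit 2954970) (nat_lit 31270353) (nat_lit 6765251) [(nat_lit 0), (nat_lit 2954970), (nat_lit 5671693)]) (PF.cons PF.nil PF.nil)) (PF.cons PF.nil (PF.cons PF.nil (PF.cons PF.nil PF.nil)))))))))) (PF.cons (PF.cons (PF.cons (PF.leaf (nat_lit 7075571) (nat_lit 6295117) (nat_lit 40615215) (nat_lit 7608243) [(nat_lit 0), (nat_lit 0), (nat_lit 6295117)]) (PF.cons (PF.leaf (nat_lit 7586279) (nat_lit 1072958) (nat_lit 39704843) (nat_lit 7552907) [(nat_lit 1072958), (nat_lit 0), (nat_lit 6259367)]) (PF.cons (PF.leaf (nat_lit 8106754) (nat_lit 1085160)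
 (nat_lit 38792769) (nat_lit 7491599) [(nat_lit 1085160), (nat_lit 0), (nat_lit 6218041)]) (PF.cons (PF.leaf (nat_lit 8632787) (nat_lit 1094180) (nat_lit 37886210) (nat_lit 7425001) [(nat_lit 1094180), (nat_lit 0), (nat_lit 6171686)]) (PF.cons (PF.leaf (nat_lit 9161175) (nat_lit 1100494) (nat_lit 36990442) (nat_lit 7353788) [(nat_lit 1100494), (nat_lit 0), (nat_lit 6120867)]) (PF.cons (PF.leaf (nat_lit 9689377) (nat_lit 1104482) (nat_lit 36109352) (nat_lit 7278611) [(nat_lit 1104482), (nat_lit 0), (nat_lit 6066145)]) (PF.cons (PF.leaf (nat_lit 10215367) (nat_lit 1106460) (nat_lit 35245793) (nat_lit 7200086) [(nat_lit 1106460), (nat_lit 0), (nat_lit 6008057)]) (PF.cons (PF.leaf (nat_lit 10737511) (nat_lit 1106693) (nat_lit 34401836) (nat_lit 7118788) [(nat_lit 1106693), (nat_lit 0), (nat_lit 5947111)]) (PF.cons (PF.leaf (nat_lit 11254502) (nat_lit 1105410) (nat_lit 33578937) (nat_lit 7035247) [(nat_lit 1105410), (nat_lit 0), (nat_lit 5883780)]) (PF.cons PF.nil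 PF.nil)))))))))) (PF.cons (PF.cons (PF.leaf (nat_lit 8135907) (nat_lit 3108179) (nat_lit 38072001) (nat_lit 7425769) [(nat_lit 0), (nat_lit 3108179), (nat_lit 6167620)]) (PF.cons (PF.leaf (nat_lit 8646511) (nat_lit 1084730)
 (nat_lit 37203294) (nat_lit 7358688) [(nat_lit 1084730), (nat_lit 3101026), (nat_lit 6120357)]) (PF.cons (PF.leaf (nat_lit 9161202) (nat_lit 1091081) (nat_lit 36342292) (nat_lit 7287251) [(nat_lit 1091081), (nat_lit 3090367), (nat_lit 6068912)]) (PF.cons (PF.leaf (nat_lit 9677044) (nat_lit 1095076) (nat_lit 35493451) (nat_lit 7212094) [(nat_lit 1095076), (nat_lit 3076570), (nat_lit 6013822)]) (PF.cons (PF.leaf (nat_lit 10191787) (nat_lit 1097053) (nat_lit 34660002) (nat_lit 7133813) [(nat_lit 1097053), (nat_lit 3059992), (nat_lit 5955596)]) (PF.cons (PF.leaf (nat_lit 10703652) (nat_lit 1097291) (nat_lit 33844276) (nat_lit 7052957) [(nat_lit 1097291), (nat_lit 3040972), (nat_lit 5894717)]) (PF.cons (PF.leaf (nat_lit 11211217) (nat_lit 1096024)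 (nat_lit 33047919) (nat_lit 6970032) [(nat_lit 1096024), (nat_lit 3019822), (nat_lit 5831629)]) (PF.cons PF.nil PF.nil)))))))) (PF.cons (PF.cons (PF.leaf (nat_lit 9164047) (nat_lit 3067341) (nat_lit 35705497) (nat_lit 7219980) [(nat_lit 0), (nat_lit 3067341), (nat_lit 6016217)]) (PF.cons (PF.leaf (nat_lit 9666977) (nat_lit 1085257) (nat_lit 34889275) (nat_lit 7145154) [(nat_lit 1085257), (nat_lit 3053025), (nat_lit 5961025)]) (PF.cons
 (PF.leaf (nat_lit 10170184) (nat_lit 1087333) (nat_lit 34085991) (nat_lit 7067364) [(nat_lit 1087333), (nat_lit 3036078), (nat_lit 5902877)]) (PF.cons (PF.leaf (nat_lit 10671597) (nat_lit 1087653) (nat_lit 33298348) (nat_lit 6987149) [(nat_lit 1087653), (nat_lit 3016818), (nat_lit 5842239)]) (PF.cons (PF.leaf (nat_lit 11169644) (nat_lit 1086465) (nat_lit 32528257) (nat_lit 6904999) [(nat_lit 1086465), (nat_lit 2995542), (nat_lit 5779536)]) (PF.cons PF.nil PF.nil)))))) (PF.cons (PF.cons (PF.leaf (nat_lit 10151255) (nat_lit 3011882)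 (nat_lit 33522738) (nat_lit 7000726) [(nat_lit 0), (nat_lit 3011882), (nat_lit 5849899)]) (PF.cons (PF.leaf (nat_lit 10641839) (nat_lit 1077759) (nat_lit 32763201) (nat_lit 6921357) [(nat_lit 1077759), (nat_lit 2992485), (nat_lit 5789679)]) (PF.cons (PF.leaf (nat_lit 11130174) (nat_lit 1076717) (nat_lit 32019221) (nat_lit 6840143) [(nat_lit 1076717), (nat_lit 2971167), (nat_lit 5727503)]) (PF.cons (PF.leaf (nat_lit 11614789) (nat_lit 1074364) (nat_lit 31292378) (nat_lit 6757516) [(nat_lit 1074364), (nat_lit 2948190), (nat_lit 5663750)]) PF.nil)))) (PF.cons (PF.cons (PF.leaf (nat_lit 11093334) (nat_lit 2946698) (nat_lit 31520018) (nat_lit 6775441)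
 [(nat_lit 0), (nat_lit 2946698), (nat_lit 5675519)]) (PF.cons (PF.leaf (nat_lit 11568853) (nat_lit 1064600) (nat_lit 30817399) (nat_lit 6693965) [(nat_lit 1064600), (nat_lit 2923832), (nat_lit 5612506)]) PF.nil)) (PF.cons PF.nil (PF.cons PF.nil (PF.cons PF.nil PF.nil)))))))) (PF.cons (PF.cons (PF.cons (PF.leaf (nat_lit 8614414) (nat_lit 5999890) (nat_lit 35900674) (nat_lit 7208575) [(nat_lit 0), (nat_lit 0), (nat_lit 5999890)]) (PF.cons (PF.leaf (nat_lit 9106979) (nat_lit 1066166) (nat_lit 35106447) (nat_lit 7138856) [(nat_lit 1066166), (nat_lit 0), (nat_lit 5949335)]) (PF.cons (PF.leaf (nat_lit 9602980) (nat_lit 1070876) (nat_lit 34319728) (nat_lit 7065678) [(nat_lit 1070876), (nat_lit 0), (nat_lit 5895413)]) (PF.cons (PF.leaf (nat_lit 10099721) (nat_lit 1073459) (nat_lit 33544383) (nat_lit 6989616) [(nat_lit 1073459), (nat_lit 0), (nat_lit 5838608)]) (PF.cons (PF.leaf (nat_lit 10595166) (nat_lit 1074235) (nat_lit 32783187) (nat_lit 6911192) [(nat_lit 1074235),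 (nat_lit 0), (nat_lit 5779372)]) (PF.cons (PF.leaf (nat_lit 11087704) (nat_lit 1073467) (nat_lit 32038119) (nat_lit 6830881) [(nat_lit 1073467), (nat_lit 0), (nat_lit 5718118)]) (PF.cons PF.nil (PF.cons PF.nil
 PF.nil)))))))) (PF.cons (PF.cons (PF.leaf (nat_lit 9597159) (nat_lit 2994839) (nat_lit 33743073) (nat_lit 6999299) [(nat_lit 0), (nat_lit 2994839), (nat_lit 5842900)]) (PF.cons (PF.leaf (nat_lit 10081933) (nat_lit 1063432) (nat_lit 32997109) (nat_lit 6924040) [(nat_lit 1063432), (nat_lit 2978438), (nat_lit 5786447)]) (PF.cons (PF.leaf (nat_lit 10566745) (nat_lit 1064406) (nat_lit 32263003) (nat_lit 6846498) [(nat_lit 1064406), (nat_lit 2959830), (nat_lit 5727666)]) (PF.cons (PF.leaf (nat_lit 11049700) (nat_lit 1063805) (nat_lit 31543094) (nat_lit 6767145) [(nat_lit 1063805), (nat_lit 2939300), (nat_lit 5666964)]) (PF.cons (PF.leaf (nat_lit 11529367) (nat_lit 1061860) (nat_lit 30839026) (nat_lit 6686401) [(nat_lit 1061860), (nat_lit 2917108), (nat_lit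 5604708)]) (PF.cons PF.nil PF.nil)))))) (PF.cons (PF.cons (PF.leaf (nat_lit 10541355) (nat_lit 2935685) (nat_lit 31752137) (nat_lit 6781801) [(nat_lit 0), (nat_lit 2935685), (nat_lit 5675875)]) (PF.cons (PF.leaf (nat_lit 11014311) (nat_lit 1053929) (nat_lit 31057423) (nat_lit 6703568) [(nat_lit 1053929), (nat_lit 2915215), (nat_lit 5615865)]) (PF.cons (PF.leaf (nat_lit 11485054) (nat_lit 1052195) (nat_lit 30376716) (nat_lit 6623979)
 [(nat_lit 1052195), (nat_lit 2893146), (nat_lit 5554358)]) (PF.cons PF.nil PF.nil)))) (PF.cons (PF.cons (PF.leaf (nat_lit 11443617) (nat_lit 2869157) (nat_lit 29922927) (nat_lit 6561808) [(nat_lit 0), (nat_lit 2869157), (nat_lit 5504150)]) (PF.cons PF.nil PF.nil)) (PF.cons PF.nil (PF.cons PF.nil PF.nil)))))) (PF.cons (PF.cons (PF.cons (PF.leaf (nat_lit 10001159) (nat_lit 5672405) (nat_lit 31962863) (nat_lit 6783924) [(nat_lit 0), (nat_lit 0), (nat_lit 5672405)]) (PF.cons (PF.leaf (nat_lit 10469128) (nat_lit 1041048) (nat_lit 31279725)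 (nat_lit 6709334) [(nat_lit 1041048), (nat_lit 0), (nat_lit 5615740)]) (PF.cons (PF.leaf (nat_lit 10936989) (nat_lit 1041182) (nat_lit 30607348) (nat_lit 6632972) [(nat_lit 1041182), (nat_lit 0), (nat_lit 5557225)]) (PF.cons (PF.leaf (nat_lit 11402977) (nat_lit 1039892) (nat_lit 29947783) (nat_lit 6555256) [(nat_lit 1039892), (nat_lit 0), (nat_lit 5497219)]) (PF.cons PF.nil (PF.cons PF.nil PF.nil)))))) (PF.cons (PF.cons (PF.leaf (nat_lit 10906418) (nat_lit 2860354) (nat_lit 30142713) (nat_lit 6570614) [(nat_lit 0), (nat_lit 2860354), (nat_lit 5507025)]) (PF.cons (PF.leaf (nat_lit 11363138) (nat_lit 1030137) (nat_lit 29505745) (nat_lit 6494187)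
 [(nat_lit 1030137), (nat_lit 2839298), (nat_lit 5447888)]) (PF.cons PF.nil (PF.cons PF.nil PF.nil)))) (PF.cons (PF.cons (PF.leaf (nat_lit 11772681) (nat_lit 2793555) (nat_lit 28467621) (nat_lit 6357284) [(nat_lit 0), (nat_lit 2793555), (nat_lit 5339359)]) (PF.cons PF.nil PF.nil)) (PF.cons PF.nil PF.nil)))) (PF.cons (PF.cons (PF.cons (PF.leaf (nat_lit 11249722) (nat_lit 5344215) (nat_lit 28675560) (nat_lit 6367960) [(nat_lit 0), (nat_lit 0), (nat_lit 5344215)]) (PF.cons PF.nil PF.nil)) (PF.cons PF.nil PF.nil)) (PF.cons PF.nil (PF.cons PF.nil (PF.cons PF.nil PF.nil))))))))))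

def p13_22_1_0 : pfC (piC [(nat_lit 30365544), (nat_lit 20402210), (nat_lit 13167684)] (nat_lit 11776556)) p13_22_1 (nat_lit 3) (nat_lit 0) (nat_lit 1) = true := by decide +kernel
def p13_22_1_1 : pfC (piC [(nat_lit 30365544), (nat_lit 20402210), (nat_lit 13167684)] (nat_lit 11776556)) p13_22_1 (nat_lit 3) (nat_lit 1) (nat_lit 2) = true := by decide +kernel
def p13_22_1_2 : pfC (piC [(nat_lit 30365544), (nat_lit 20402210), (nat_lit 13167684)] (nat_lit 11776556)) p13_22_1 (nat_lit 3) (nat_lit 2) (nat_lit 3) = true := by decide +kernel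
def p13_22_1_3 : pfC (piC [(nat_lit 30365544), (nat_lit 20402210), (nat_lit 13167684)] (nat_lit 11776556)) p13_22_1 (nat_lit 3) (nat_lit 3) (nat_lit 4) = true := by decide +kernel
def p13_22_1_4 : pfC (piC [(nat_lit 30365544), (nat_lit 20402210), (nat_lit 13167684)] (nat_lit 11776556)) p13_22_1 (nat_lit 3) (nat_lit 4) (nat_lit 5) = true := by decide +kernel
def p13_22_1_5 : pfC (piC [(nat_lit 30365544), (nat_lit 20402210), (nat_lit 13167684)] (nat_lit 11776556)) p13_22_1 (nat_lit 3) (nat_lit 5) (nat_lit 6) = true := by decide +kernel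
def p13_22_1_6 : pfC (piC [(nat_lit 30365544), (nat_lit 20402210), (nat_lit 13167684)] (nat_lit 11776556)) p13_22_1 (nat_lit 3) (nat_lit 6) (nat_lit 7) = true := by decide +kernel
def p13_22_1_7 : pfC (piC [(nat_lit 30365544), (nat_lit 20402210), (nat_lit 13167684)] (nat_lit 11776556)) p13_22_1 (nat_lit 3) (nat_lit 7) (nat_lit 8) = true := by decide +kernel
def p13_22_1_8 : pfC (piC [(nat_lit 30365544), (nat_lit 20402210), (nat_lit 13167684)] (nat_lit 11776556)) p13_22_1 (nat_lit 3) (nat_lit 8) (nat_lit 9) = true := by decide +kernel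
def p13_22_1_9 : pfC (piC [(nat_lit 30365544), (nat_lit 20402210), (nat_lit 13167684)] (nat_lit 11776556)) p13_22_1 (nat_lit 3) (nat_lit 9) (nat_lit 10) = true := by decide +kernel
def p13_22_1_10 : pfC (piC [(nat_lit 30365544), (nat_lit 20402210), (nat_lit 13167684)] (nat_lit 11776556)) p13_22_1 (nat_lit 3) (nat_lit 10) (nat_lit 11) = true := by decide +kernel
def p13_22_1_11 : pfC (piC [(nat_lit 30365544), (nat_lit 20402210), (nat_lit 13167684)] (nat_lit 11776556)) p13_22_1 (nat_lit 3) (nat_lit 11) (nat_lit 12) = true := by decide +kernel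
def p13_22_1_12 : pfC (piC [(nat_lit 30365544), (nat_lit 20402210), (nat_lit 13167684)] (nat_lit 11776556)) p13_22_1 (nat_lit 3) (nat_lit 12) (nat_lit 13) = true := by decide +kernel
def p13_22_1_13 : pfC (piC [(nat_lit 30365544), (nat_lit 20402210), (nat_lit 13167684)] (nat_lit 11776556)) p13_22_1 (nat_lit 3) (nat_lit 13) (nat_lit 14) = true := by decide +kernel
def p13_22_1_14 : pfC (piC [(nat_lit 30365544), (nat_lit 20402210), (nat_lit 13167684)] (nat_lit 11776556)) p13_22_1 (nat_lit 3) (nat_lit 14) (nat_lit 15) = true := by decide +kernel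
def p13_22_1_15 : pfC (piC [(nat_lit 30365544), (nat_lit 20402210), (nat_lit 13167684)] (nat_lit 11776556)) p13_22_1 (nat_lit 3) (nat_lit 15) (nat_lit 16) = true := by decide +kernel
def p13_22_1_16 : pfC (piC [(nat_lit 30365544), (nat_lit 20402210), (nat_lit 13167684)] (nat_lit 11776556)) p13_22_1 (nat_lit 3) (nat_lit 16) (nat_lit 17) = true := by decide +kernel
def p13_22_1_17 : pfC (piC [(nat_lit 30365544), (nat_lit 20402210), (nat_lit 13167684)] (nat_lit 11776556)) p13_22_1 (nat_lit 3) (nat_lit 17) (nat_lit 18) = true := by decide +kernel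
def p13_22_1_18 : pfC (piC [(nat_lit 30365544), (nat_lit 20402210), (nat_lit 13167684)] (nat_lit 11776556)) p13_22_1 (nat_lit 3) (nat_lit 18) (nat_lit 19) = true := by decide +kernel
def p13_22_1_19 : pfC (piC [(nat_lit 30365544), (nat_lit 20402210), (nat_lit 13167684)] (nat_lit 11776556)) p13_22_1 (nat_lit 3) (nat_lit 19) (nat_lit 20) = true := by decide +kernel
def p13_22_1_20 : pfC (piC [(nat_lit 30365544), (nat_lit 20402210), (nat_lit 13167684)] (nat_lit 11776556)) p13_22_1 (nat_lit 3) (nat_lit 20) (nat_lit 21) = true := by decide +kernel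
def p13_22_1_21 : pfC (piC [(nat_lit 30365544), (nat_lit 20402210), (nat_lit 13167684)] (nat_lit 11776556)) p13_22_1 (nat_lit 3) (nat_lit 21) (nat_lit 22) = true := by decide +kernel
def p13_22_1_22 : pfC (piC [(nat_lit 30365544), (nat_lit 20402210), (nat_lit 13167684)] (nat_lit 11776556)) p13_22_1 (nat_lit 3) (nat_lit 22) (nat_lit 23) = true := by decide +kernel
def p13_22_1_23 : pfC (piC [(nat_lit 30365544), (nat_lit 20402210), (nat_lit 13167684)] (nat_lit 11776556)) p13_22_1 (nat_lit 3) (nat_lit 23) (nat_lit 24) = true := by decide +kernel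
def p13_22_1_24 : pfC (piC [(nat_lit 30365544), (nat_lit 20402210), (nat_lit 13167684)] (nat_lit 11776556)) p13_22_1 (nat_lit 3) (nat_lit 24) (nat_lit 25) = true := by decide +kernel
def p13_22_1_25 : pfC (piC [(nat_lit 30365544), (nat_lit 20402210), (nat_lit 13167684)] (nat_lit 11776556)) p13_22_1 (nat_lit 3) (nat_lit 25) (nat_lit 26) = true := by decide +kernel
def p13_22_1_26 : pfC (piC [(nat_lit 30365544), (nat_lit 20402210), (nat_lit 13167684)] (nat_lit 11776556)) p13_22_1 (nat_lit 3) (nat_lit 26) (nat_lit 27) = true := by decide +kernel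
def p13_22_1_27 : pfC (piC [(nat_lit 30365544), (nat_lit 20402210), (nat_lit 13167684)] (nat_lit 11776556)) p13_22_1 (nat_lit 3) (nat_lit 27) (nat_lit 28) = true := by decide +kernel
def p13_22_1_28 : pfC (piC [(nat_lit 30365544), (nat_lit 20402210), (nat_lit 13167684)] (nat_lit 11776556)) p13_22_1 (nat_lit 3) (nat_lit 28) (nat_lit 29) = true := by decide +kernel
def p13_22_1_29 : pfC (piC [(nat_lit 30365544), (nat_lit 20402210), (nat_lit 13167684)] (nat_lit 11776556)) p13_22_1 (nat_lit 3) (nat_lit 29) (nat_lit 30) = true := by decide +kernel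
def p13_22_1_30 : pfC (piC [(nat_lit 30365544), (nat_lit 20402210), (nat_lit 13167684)] (nat_lit 11776556)) p13_22_1 (nat_lit 3) (nat_lit 30) (nat_lit 31) = true := by decide +kernel
def p13_22_1_31 : pfC (piC [(nat_lit 30365544), (nat_lit 20402210), (nat_lit 13167684)] (nat_lit 11776556)) p13_22_1 (nat_lit 3) (nat_lit 31) (nat_lit 32) = true := by decide +kernel
def p13_22_1_32 : pfC (piC [(nat_lit 30365544), (nat_lit 20402210), (nat_lit 13167684)] (nat_lit 11776556)) p13_22_1 (nat_lit 3) (nat_lit 32) (nat_lit 33) = true := by decide +kernel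
def p13_22_1_33 : pfC (piC [(nat_lit 30365544), (nat_lit 20402210), (nat_lit 13167684)] (nat_lit 11776556)) p13_22_1 (nat_lit 3) (nat_lit 33) (nat_lit 34) = true := by decide +kernel
def p13_22_1_34 : pfC (piC [(nat_lit 30365544), (nat_lit 20402210), (nat_lit 13167684)] (nat_lit 11776556)) p13_22_1 (nat_lit 3) (nat_lit 34) (nat_lit 35) = true := by decide +kernel
def p13_22_1_35 : pfC (piC [(nat_lit 30365544), (nat_lit 20402210), (nat_lit 13167684)] (nat_lit 11776556)) p13_22_1 (nat_lit 3) (nat_lit 35) (nat_lit 36) = true := by decide +kernel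
def p13_22_1_36 : pfC (piC [(nat_lit 30365544), (nat_lit 20402210), (nat_lit 13167684)] (nat_lit 11776556)) p13_22_1 (nat_lit 3) (nat_lit 36) (nat_lit 37) = true := by decide +kernel
def p13_22_1_37 : pfC (piC [(nat_lit 30365544), (nat_lit 20402210), (nat_lit 13167684)] (nat_lit 11776556)) p13_22_1 (nat_lit 3) (nat_lit 37) (nat_lit 38) = true := by decide +kernel
def p13_22_1_38 : pfC (piC [(nat_lit 30365544), (nat_lit 20402210), (nat_lit 13167684)] (nat_lit 11776556)) p13_22_1 (nat_lit 3) (nat_lit 38) (nat_lit 39) = true := by decide +kernel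
def p13_22_1_39 : pfC (piC [(nat_lit 30365544), (nat_lit 20402210), (nat_lit 13167684)] (nat_lit 11776556)) p13_22_1 (nat_lit 3) (nat_lit 39) (nat_lit 40) = true := by decide +kernel
def p13_22_1_40 : pfC (piC [(nat_lit 30365544), (nat_lit 20402210), (nat_lit 13167684)] (nat_lit 11776556)) p13_22_1 (nat_lit 3) (nat_lit 40) (nat_lit 41) = true := by decide +kernel
def p13_22_1_41 : pfC (piC [(nat_lit 30365544), (nat_lit 20402210), (nat_lit 13167684)] (nat_lit 11776556)) p13_22_1 (nat_lit 3) (nat_lit 41) (nat_lit 42) = true := by decide +kernel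
def p13_22_1_42 : pfC (piC [(nat_lit 30365544), (nat_lit 20402210), (nat_lit 13167684)] (nat_lit 11776556)) p13_22_1 (nat_lit 3) (nat_lit 42) (nat_lit 43) = true := by decide +kernel
def p13_22_1_43 : pfC (piC [(nat_lit 30365544), (nat_lit 20402210), (nat_lit 13167684)] (nat_lit 11776556)) p13_22_1 (nat_lit 3) (nat_lit 43) (nat_lit 44) = true := by decide +kernel
def p13_22_1_44 : pfC (piC [(nat_lit 30365544), (nat_lit 20402210), (nat_lit 13167684)] (nat_lit 11776556)) p13_22_1 (nat_lit 3) (nat_lit 44) (nat_lit 45) = true := by decide +kernel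
def p13_22_1_45 : pfC (piC [(nat_lit 30365544), (nat_lit 20402210), (nat_lit 13167684)] (nat_lit 11776556)) p13_22_1 (nat_lit 3) (nat_lit 45) (nat_lit 46) = true := by decide +kernel
def p13_22_1_46 : pfC (piC [(nat_lit 30365544), (nat_lit 20402210), (nat_lit 13167684)] (nat_lit 11776556)) p13_22_1 (nat_lit 3) (nat_lit 46) (nat_lit 47) = true := by decide +kernel
def p13_22_1_47 : pfC (piC [(nat_lit 30365544), (nat_lit 20402210), (nat_lit 13167684)] (nat_lit 11776556)) p13_22_1 (nat_lit 3) (nat_lit 47) (nat_lit 48) = true := by decide +kernel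
def p13_22_1_48 : pfC (piC [(nat_lit 30365544), (nat_lit 20402210), (nat_lit 13167684)] (nat_lit 11776556)) p13_22_1 (nat_lit 3) (nat_lit 48) (nat_lit 49) = true := by decide +kernel
def p13_22_1_49 : pfC (piC [(nat_lit 30365544), (nat_lit 20402210), (nat_lit 13167684)] (nat_lit 11776556)) p13_22_1 (nat_lit 3) (nat_lit 49) (nat_lit 50) = true := by decide +kernel
def p13_22_1_50 : pfC (piC [(nat_lit 30365544), (nat_lit 20402210), (nat_lit 13167684)] (nat_lit 11776556)) p13_22_1 (nat_lit 3) (nat_lit 50) (nat_lit 51) = true := by decide +kernel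
def p13_22_1_51 : pfC (piC [(nat_lit 30365544), (nat_lit 20402210), (nat_lit 13167684)] (nat_lit 11776556)) p13_22_1 (nat_lit 3) (nat_lit 51) (nat_lit 52) = true := by decide +kernel
def p13_22_1_52 : pfC (piC [(nat_lit 30365544), (nat_lit 20402210), (nat_lit 13167684)] (nat_lit 11776556)) p13_22_1 (nat_lit 3) (nat_lit 52) (nat_lit 53) = true := by decide +kernel
def p13_22_1_53 : pfC (piC [(nat_lit 30365544), (nat_lit 20402210), (nat_lit 13167684)] (nat_lit 11776556)) p13_22_1 (nat_lit 3) (nat_lit 53) (nat_lit 54) = true := by decide +kernel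
def p13_22_1_54 : pfC (piC [(nat_lit 30365544), (nat_lit 20402210), (nat_lit 13167684)] (nat_lit 11776556)) p13_22_1 (nat_lit 3) (nat_lit 54) (nat_lit 55) = true := by decide +kernel
def p13_22_1_55 : pfC (piC [(nat_lit 30365544), (nat_lit 20402210), (nat_lit 13167684)] (nat_lit 11776556)) p13_22_1 (nat_lit 3) (nat_lit 55) (nat_lit 56) = true := by decide +kernel
def p13_22_1_56 : pfC (piC [(nat_lit 30365544), (nat_lit 20402210), (nat_lit 13167684)] (nat_lit 11776556)) p13_22_1 (nat_lit 3) (nat_lit 56) (nat_lit 57) = true := by decide +kernel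
def p13_22_1_57 : pfC (piC [(nat_lit 30365544), (nat_lit 20402210), (nat_lit 13167684)] (nat_lit 11776556)) p13_22_1 (nat_lit 3) (nat_lit 57) (nat_lit 58) = true := by decide +kernel
def p13_22_1_58 : pfC (piC [(nat_lit 30365544), (nat_lit 20402210), (nat_lit 13167684)] (nat_lit 11776556)) p13_22_1 (nat_lit 3) (nat_lit 58) (nat_lit 59) = true := by decide +kernel
def p13_22_1_59 : pfC (piC [(nat_lit 30365544), (nat_lit 20402210), (nat_lit 13167684)] (nat_lit 11776556)) p13_22_1 (nat_lit 3) (nat_lit 59) (nat_lit 60) = true := by decide +kernel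
def p13_22_1_60 : pfC (piC [(nat_lit 30365544), (nat_lit 20402210), (nat_lit 13167684)] (nat_lit 11776556)) p13_22_1 (nat_lit 3) (nat_lit 60) (nat_lit 61) = true := by decide +kernel
def p13_22_1_61 : pfC (piC [(nat_lit 30365544), (nat_lit 20402210), (nat_lit 13167684)] (nat_lit 11776556)) p13_22_1 (nat_lit 3) (nat_lit 61) (nat_lit 62) = true := by decide +kernel
def p13_22_1_62 : pfC (piC [(nat_lit 30365544), (nat_lit 20402210), (nat_lit 13167684)] (nat_lit 11776556)) p13_22_1 (nat_lit 3) (nat_lit 62) (nat_lit 63) = true := by decide +kernel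
def p13_22_1_63 : pfC (piC [(nat_lit 30365544), (nat_lit 20402210), (nat_lit 13167684)] (nat_lit 11776556)) p13_22_1 (nat_lit 3) (nat_lit 63) (nat_lit 64) = true := by decide +kernel
def p13_22_1_64 : pfC (piC [(nat_lit 30365544), (nat_lit 20402210), (nat_lit 13167684)] (nat_lit 11776556)) p13_22_1 (nat_lit 3) (nat_lit 64) (nat_lit 65) = true := by decide +kernel
def p13_22_1_65 : pfC (piC [(nat_lit 30365544), (nat_lit 20402210), (nat_lit 13167684)] (nat_lit 11776556)) p13_22_1 (nat_lit 3) (nat_lit 65) (nat_lit 66) = true := by decide +kernel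
def p13_22_1_66 : pfC (piC [(nat_lit 30365544), (nat_lit 20402210), (nat_lit 13167684)] (nat_lit 11776556)) p13_22_1 (nat_lit 3) (nat_lit 66) (nat_lit 67) = true := by decide +kernel
def p13_22_1_67 : pfC (piC [(nat_lit 30365544), (nat_lit 20402210), (nat_lit 13167684)] (nat_lit 11776556)) p13_22_1 (nat_lit 3) (nat_lit 67) (nat_lit 68) = true := by decide +kernel
def p13_22_1_68 : pfC (piC [(nat_lit 30365544), (nat_lit 20402210), (nat_lit 13167684)] (nat_lit 11776556)) p13_22_1 (nat_lit 3) (nat_lit 68) (nat_lit 69) = true := by decide +kernel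
def p13_22_1_69 : pfC (piC [(nat_lit 30365544), (nat_lit 20402210), (nat_lit 13167684)] (nat_lit 11776556)) p13_22_1 (nat_lit 3) (nat_lit 69) (nat_lit 70) = true := by decide +kernel
def p13_22_1_70 : pfC (piC [(nat_lit 30365544), (nat_lit 20402210), (nat_lit 13167684)] (nat_lit 11776556)) p13_22_1 (nat_lit 3) (nat_lit 70) (nat_lit 71) = true := by decide +kernel
def p13_22_1_71 : pfC (piC [(nat_lit 30365544), (nat_lit 20402210), (nat_lit 13167684)] (nat_lit 11776556)) p13_22_1 (nat_lit 3) (nat_lit 71) (nat_lit 72) = true := by decide +kernel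
def p13_22_1_72 : pfC (piC [(nat_lit 30365544), (nat_lit 20402210), (nat_lit 13167684)] (nat_lit 11776556)) p13_22_1 (nat_lit 3) (nat_lit 72) (nat_lit 73) = true := by decide +kernel
def p13_22_1_73 : pfC (piC [(nat_lit 30365544), (nat_lit 20402210), (nat_lit 13167684)] (nat_lit 11776556)) p13_22_1 (nat_lit 3) (nat_lit 73) (nat_lit 74) = true := by decide +kernel
def p13_22_1_74 : pfC (piC [(nat_lit 30365544), (nat_lit 20402210), (nat_lit 13167684)] (nat_lit 11776556)) p13_22_1 (nat_lit 3) (nat_lit 74) (nat_lit 75) = true := by decide +kernel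
def p13_22_1_75 : pfC (piC [(nat_lit 30365544), (nat_lit 20402210), (nat_lit 13167684)] (nat_lit 11776556)) p13_22_1 (nat_lit 3) (nat_lit 75) (nat_lit 76) = true := by decide +kernel
def p13_22_1_76 : pfC (piC [(nat_lit 30365544), (nat_lit 20402210), (nat_lit 13167684)] (nat_lit 11776556)) p13_22_1 (nat_lit 3) (nat_lit 76) (nat_lit 77) = true := by decide +kernel
def p13_22_1_77 : pfC (piC [(nat_lit 30365544), (nat_lit 20402210), (nat_lit 13167684)] (nat_lit 11776556)) p13_22_1 (nat_lit 3) (nat_lit 77) (nat_lit 78) = true := by decide +kernel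
def p13_22_1_78 : pfC (piC [(nat_lit 30365544), (nat_lit 20402210), (nat_lit 13167684)] (nat_lit 11776556)) p13_22_1 (nat_lit 3) (nat_lit 78) (nat_lit 79) = true := by decide +kernel
def p13_22_1_79 : pfC (piC [(nat_lit 30365544), (nat_lit 20402210), (nat_lit 13167684)] (nat_lit 11776556)) p13_22_1 (nat_lit 3) (nat_lit 79) (nat_lit 80) = true := by decide +kernel
def p13_22_1_80 : pfC (piC [(nat_lit 30365544), (nat_lit 20402210), (nat_lit 13167684)] (nat_lit 11776556)) p13_22_1 (nat_lit 3) (nat_lit 80) (nat_lit 81) = true := by decide +kernel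
def p13_22_1_81 : pfC (piC [(nat_lit 30365544), (nat_lit 20402210), (nat_lit 13167684)] (nat_lit 11776556)) p13_22_1 (nat_lit 3) (nat_lit 81) (nat_lit 82) = true := by decide +kernel
def p13_22_1_82 : pfC (piC [(nat_lit 30365544), (nat_lit 20402210), (nat_lit 13167684)] (nat_lit 11776556)) p13_22_1 (nat_lit 3) (nat_lit 82) (nat_lit 83) = true := by decide +kernel
def p13_22_1_83 : pfC (piC [(nat_lit 30365544), (nat_lit 20402210), (nat_lit 13167684)] (nat_lit 11776556)) p13_22_1 (nat_lit 3) (nat_lit 83) (nat_lit 84) = true := by decide +kernel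
def p13_22_1_84 : pfC (piC [(nat_lit 30365544), (nat_lit 20402210), (nat_lit 13167684)] (nat_lit 11776556)) p13_22_1 (nat_lit 3) (nat_lit 84) (nat_lit 85) = true := by decide +kernel
def p13_22_1_85 : pfC (piC [(nat_lit 30365544), (nat_lit 20402210), (nat_lit 13167684)] (nat_lit 11776556)) p13_22_1 (nat_lit 3) (nat_lit 85) (nat_lit 86) = true := by decide +kernel
def p13_22_1_86 : pfC (piC [(nat_lit 30365544), (nat_lit 20402210), (nat_lit 13167684)] (nat_lit 11776556)) p13_22_1 (nat_lit 3) (nat_lit 86) (nat_lit 87) = true := by decide +kernel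
def p13_22_1_87 : pfC (piC [(nat_lit 30365544), (nat_lit 20402210), (nat_lit 13167684)] (nat_lit 11776556)) p13_22_1 (nat_lit 3) (nat_lit 87) (nat_lit 88) = true := by decide +kernel
def p13_22_1_88 : pfC (piC [(nat_lit 30365544), (nat_lit 20402210), (nat_lit 13167684)] (nat_lit 11776556)) p13_22_1 (nat_lit 3) (nat_lit 88) (nat_lit 89) = true := by decide +kernel
def p13_22_1_89 : pfC (piC [(nat_lit 30365544), (nat_lit 20402210), (nat_lit 13167684)] (nat_lit 11776556)) p13_22_1 (nat_lit 3) (nat_lit 89) (nat_lit 90) = true := by decide +kernel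
def p13_22_1_90 : pfC (piC [(nat_lit 30365544), (nat_lit 20402210), (nat_lit 13167684)] (nat_lit 11776556)) p13_22_1 (nat_lit 3) (nat_lit 90) (nat_lit 91) = true := by decide +kernel
def p13_22_1_91 : pfC (piC [(nat_lit 30365544), (nat_lit 20402210), (nat_lit 13167684)] (nat_lit 11776556)) p13_22_1 (nat_lit 3) (nat_lit 91) (nat_lit 92) = true := by decide +kernel
def p13_22_1_92 : pfC (piC [(nat_lit 30365544), (nat_lit 20402210), (nat_lit 13167684)] (nat_lit 11776556)) p13_22_1 (nat_lit 3) (nat_lit 92) (nat_lit 93) = true := by decide +kernel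
def p13_22_1_93 : pfC (piC [(nat_lit 30365544), (nat_lit 20402210), (nat_lit 13167684)] (nat_lit 11776556)) p13_22_1 (nat_lit 3) (nat_lit 93) (nat_lit 94) = true := by decide +kernel
def p13_22_1_94 : pfC (piC [(nat_lit 30365544), (nat_lit 20402210), (nat_lit 13167684)] (nat_lit 11776556)) p13_22_1 (nat_lit 3) (nat_lit 94) (nat_lit 95) = true := by decide +kernel
def p13_22_1_95 : pfC (piC [(nat_lit 30365544), (nat_lit 20402210), (nat_lit 13167684)] (nat_lit 11776556)) p13_22_1 (nat_lit 3) (nat_lit 95) (nat_lit 96) = true := by decide +kernel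
def p13_22_1_96 : pfC (piC [(nat_lit 30365544), (nat_lit 20402210), (nat_lit 13167684)] (nat_lit 11776556)) p13_22_1 (nat_lit 3) (nat_lit 96) (nat_lit 97) = true := by decide +kernel
def p13_22_1_97 : pfC (piC [(nat_lit 30365544), (nat_lit 20402210), (nat_lit 13167684)] (nat_lit 11776556)) p13_22_1 (nat_lit 3) (nat_lit 97) (nat_lit 98) = true := by decide +kernel
def p13_22_1_98 : pfC (piC [(nat_lit 30365544), (nat_lit 20402210), (nat_lit 13167684)] (nat_lit 11776556)) p13_22_1 (nat_lit 3) (nat_lit 98) (nat_lit 99) = true := by decide +kernel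
def p13_22_1_99 : pfC (piC [(nat_lit 30365544), (nat_lit 20402210), (nat_lit 13167684)] (nat_lit 11776556)) p13_22_1 (nat_lit 3) (nat_lit 99) (nat_lit 100) = true := by decide +kernel
def p13_22_1_100 : pfC (piC [(nat_lit 30365544), (nat_lit 20402210), (nat_lit 13167684)] (nat_lit 11776556)) p13_22_1 (nat_lit 3) (nat_lit 100) (nat_lit 101) = true := by decide +kernel
def p13_22_1_101 : pfC (piC [(nat_lit 30365544), (nat_lit 20402210), (nat_lit 13167684)] (nat_lit 11776556)) p13_22_1 (nat_lit 3) (nat_lit 101) (nat_lit 102) = true := by decide +kernel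
def p13_22_1_102 : pfC (piC [(nat_lit 30365544), (nat_lit 20402210), (nat_lit 13167684)] (nat_lit 11776556)) p13_22_1 (nat_lit 3) (nat_lit 102) (nat_lit 103) = true := by decide +kernel
def p13_22_1_103 : pfC (piC [(nat_lit 30365544), (nat_lit 20402210), (nat_lit 13167684)] (nat_lit 11776556)) p13_22_1 (nat_lit 3) (nat_lit 103) (nat_lit 104) = true := by decide +kernel
def p13_22_1_104 : pfC (piC [(nat_lit 30365544), (nat_lit 20402210), (nat_lit 13167684)] (nat_lit 11776556)) p13_22_1 (nat_lit 3) (nat_lit 104) (nat_lit 105) = true := by decide +kernel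
def p13_22_1_105 : pfC (piC [(nat_lit 30365544), (nat_lit 20402210), (nat_lit 13167684)] (nat_lit 11776556)) p13_22_1 (nat_lit 3) (nat_lit 105) (nat_lit 106) = true := by decide +kernel
def p13_22_1_106 : pfC (piC [(nat_lit 30365544), (nat_lit 20402210), (nat_lit 13167684)] (nat_lit 11776556)) p13_22_1 (nat_lit 3) (nat_lit 106) (nat_lit 107) = true := by decide +kernel
def p13_22_1_107 : pfC (piC [(nat_lit 30365544), (nat_lit 20402210), (nat_lit 13167684)] (nat_lit 11776556)) p13_22_1 (nat_lit 3) (nat_lit 107) (nat_lit 108) = true := by decide +kernel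
def p13_22_1_108 : pfC (piC [(nat_lit 30365544), (nat_lit 20402210), (nat_lit 13167684)] (nat_lit 11776556)) p13_22_1 (nat_lit 3) (nat_lit 108) (nat_lit 109) = true := by decide +kernel
def p13_22_1_109 : pfC (piC [(nat_lit 30365544), (nat_lit 20402210), (nat_lit 13167684)] (nat_lit 11776556)) p13_22_1 (nat_lit 3) (nat_lit 109) (nat_lit 110) = true := by decide +kernel
def p13_22_1_110 : pfC (piC [(nat_lit 30365544), (nat_lit 20402210), (nat_lit 13167684)] (nat_lit 11776556)) p13_22_1 (nat_lit 3) (nat_lit 110) (nat_lit 111) = true := by decide +kernel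
def p13_22_1_111 : pfC (piC [(nat_lit 30365544), (nat_lit 20402210), (nat_lit 13167684)] (nat_lit 11776556)) p13_22_1 (nat_lit 3) (nat_lit 111) (nat_lit 112) = true := by decide +kernel
def p13_22_1_112 : pfC (piC [(nat_lit 30365544), (nat_lit 20402210), (nat_lit 13167684)] (nat_lit 11776556)) p13_22_1 (nat_lit 3) (nat_lit 112) (nat_lit 113) = true := by decide +kernel
def p13_22_1_113 : pfC (piC [(nat_lit 30365544), (nat_lit 20402210), (nat_lit 13167684)] (nat_lit 11776556)) p13_22_1 (nat_lit 3) (nat_lit 113) (nat_lit 114) = true := by decide +kernel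
def p13_22_1_114 : pfC (piC [(nat_lit 30365544), (nat_lit 20402210), (nat_lit 13167684)] (nat_lit 11776556)) p13_22_1 (nat_lit 3) (nat_lit 114) (nat_lit 115) = true := by decide +kernel
def p13_22_1_115 : pfC (piC [(nat_lit 30365544), (nat_lit 20402210), (nat_lit 13167684)] (nat_lit 11776556)) p13_22_1 (nat_lit 3) (nat_lit 115) (nat_lit 116) = true := by decide +kernel
def p13_22_1_116 : pfC (piC [(nat_lit 30365544), (nat_lit 20402210), (nat_lit 13167684)] (nat_lit 11776556)) p13_22_1 (nat_lit 3) (nat_lit 116) (nat_lit 117) = true := by decide +kernel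
def p13_22_1_117 : pfC (piC [(nat_lit 30365544), (nat_lit 20402210), (nat_lit 13167684)] (nat_lit 11776556)) p13_22_1 (nat_lit 3) (nat_lit 117) (nat_lit 118) = true := by decide +kernel
def p13_22_1_118 : pfC (piC [(nat_lit 30365544), (nat_lit 20402210), (nat_lit 13167684)] (nat_lit 11776556)) p13_22_1 (nat_lit 3) (nat_lit 118) (nat_lit 119) = true := by decide +kernel
def p13_22_1_119 : pfC (piC [(nat_lit 30365544), (nat_lit 20402210), (nat_lit 13167684)] (nat_lit 11776556)) p13_22_1 (nat_lit 3) (nat_lit 119) (nat_lit 120) = true := by decide +kernel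
def p13_22_1_120 : pfC (piC [(nat_lit 30365544), (nat_lit 20402210), (nat_lit 13167684)] (nat_lit 11776556)) p13_22_1 (nat_lit 3) (nat_lit 120) (nat_lit 121) = true := by decide +kernel
def p13_22_1_121 : pfC (piC [(nat_lit 30365544), (nat_lit 20402210), (nat_lit 13167684)] (nat_lit 11776556)) p13_22_1 (nat_lit 3) (nat_lit 121) (nat_lit 122) = true := by decide +kernel
def p13_22_1_122 : pfC (piC [(nat_lit 30365544), (nat_lit 20402210), (nat_lit 13167684)] (nat_lit 11776556)) p13_22_1 (nat_lit 3) (nat_lit 122) (nat_lit 123) = true := by decide +kernel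
def p13_22_1_123 : pfC (piC [(nat_lit 30365544), (nat_lit 20402210), (nat_lit 13167684)] (nat_lit 11776556)) p13_22_1 (nat_lit 3) (nat_lit 123) (nat_lit 124) = true := by decide +kernel
def p13_22_1_124 : pfC (piC [(nat_lit 30365544), (nat_lit 20402210), (nat_lit 13167684)] (nat_lit 11776556)) p13_22_1 (nat_lit 3) (nat_lit 124) (nat_lit 125) = true := by decide +kernel
def p13_22_1_125 : pfC (piC [(nat_lit 30365544), (nat_lit 20402210), (nat_lit 13167684)] (nat_lit 11776556)) p13_22_1 (nat_lit 3) (nat_lit 125) (nat_lit 126) = true := by decide +kernel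
def p13_22_1_126 : pfC (piC [(nat_lit 30365544), (nat_lit 20402210), (nat_lit 13167684)] (nat_lit 11776556)) p13_22_1 (nat_lit 3) (nat_lit 126) (nat_lit 127) = true := by decide +kernel
def p13_22_1_127 : pfC (piC [(nat_lit 30365544), (nat_lit 20402210), (nat_lit 13167684)] (nat_lit 11776556)) p13_22_1 (nat_lit 3) (nat_lit 127) (nat_lit 128) = true := by decide +kernel
def p13_22_1_128 : pfC (piC [(nat_lit 30365544), (nat_lit 20402210), (nat_lit 13167684)] (nat_lit 11776556)) p13_22_1 (nat_lit 3) (nat_lit 128) (nat_lit 129) = true := by decide +kernel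
def p13_22_1_129 : pfC (piC [(nat_lit 30365544), (nat_lit 20402210), (nat_lit 13167684)] (nat_lit 11776556)) p13_22_1 (nat_lit 3) (nat_lit 129) (nat_lit 130) = true := by decide +kernel
def p13_22_1_130 : pfC (piC [(nat_lit 30365544), (nat_lit 20402210), (nat_lit 13167684)] (nat_lit 11776556)) p13_22_1 (nat_lit 3) (nat_lit 130) (nat_lit 131) = true := by decide +kernel
def p13_22_1_131 : pfC (piC [(nat_lit 30365544), (nat_lit 20402210), (nat_lit 13167684)] (nat_lit 11776556)) p13_22_1 (nat_lit 3) (nat_lit 131) (nat_lit 132) = true := by decide +kernel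
def p13_22_1_132 : pfC (piC [(nat_lit 30365544), (nat_lit 20402210), (nat_lit 13167684)] (nat_lit 11776556)) p13_22_1 (nat_lit 3) (nat_lit 132) (nat_lit 133) = true := by decide +kernel
def p13_22_1_133 : pfC (piC [(nat_lit 30365544), (nat_lit 20402210), (nat_lit 13167684)] (nat_lit 11776556)) p13_22_1 (nat_lit 3) (nat_lit 133) (nat_lit 134) = true := by decide +kernel
def p13_22_1_134 : pfC (piC [(nat_lit 30365544), (nat_lit 20402210), (nat_lit 13167684)] (nat_lit 11776556)) p13_22_1 (nat_lit 3) (nat_lit 134) (nat_lit 135) = true := by decide +kernel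
def p13_22_1_135 : pfC (piC [(nat_lit 30365544), (nat_lit 20402210), (nat_lit 13167684)] (nat_lit 11776556)) p13_22_1 (nat_lit 3) (nat_lit 135) (nat_lit 136) = true := by decide +kernel
def p13_22_1_136 : pfC (piC [(nat_lit 30365544), (nat_lit 20402210), (nat_lit 13167684)] (nat_lit 11776556)) p13_22_1 (nat_lit 3) (nat_lit 136) (nat_lit 137) = true := by decide +kernel
def p13_22_1_137 : pfC (piC [(nat_lit 30365544), (nat_lit 20402210), (nat_lit 13167684)] (nat_lit 11776556)) p13_22_1 (nat_lit 3) (nat_lit 137) (nat_lit 138) = true := by decide +kernel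
def p13_22_1_138 : pfC (piC [(nat_lit 30365544), (nat_lit 20402210), (nat_lit 13167684)] (nat_lit 11776556)) p13_22_1 (nat_lit 3) (nat_lit 138) (nat_lit 139) = true := by decide +kernel
def p13_22_1_139 : pfC (piC [(nat_lit 30365544), (nat_lit 20402210), (nat_lit 13167684)] (nat_lit 11776556)) p13_22_1 (nat_lit 3) (nat_lit 139) (nat_lit 140) = true := by decide +kernel
def p13_22_1_140 : pfC (piC [(nat_lit 30365544), (nat_lit 20402210), (nat_lit 13167684)] (nat_lit 11776556)) p13_22_1 (nat_lit 3) (nat_lit 140) (nat_lit 141) = true := by decide +kernel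
def p13_22_1_141 : pfC (piC [(nat_lit 30365544), (nat_lit 20402210), (nat_lit 13167684)] (nat_lit 11776556)) p13_22_1 (nat_lit 3) (nat_lit 141) (nat_lit 142) = true := by decide +kernel
def p13_22_1_142 : pfC (piC [(nat_lit 30365544), (nat_lit 20402210), (nat_lit 13167684)] (nat_lit 11776556)) p13_22_1 (nat_lit 3) (nat_lit 142) (nat_lit 143) = true := by decide +kernel
def p13_22_1_143 : pfC (piC [(nat_lit 30365544), (nat_lit 20402210), (nat_lit 13167684)] (nat_lit 11776556)) p13_22_1 (nat_lit 3) (nat_lit 143) (nat_lit 144) = true := by decide +kernel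
def p13_22_1_144 : pfC (piC [(nat_lit 30365544), (nat_lit 20402210), (nat_lit 13167684)] (nat_lit 11776556)) p13_22_1 (nat_lit 3) (nat_lit 144) (nat_lit 145) = true := by decide +kernel
def p13_22_1_145 : pfC (piC [(nat_lit 30365544), (nat_lit 20402210), (nat_lit 13167684)] (nat_lit 11776556)) p13_22_1 (nat_lit 3) (nat_lit 145) (nat_lit 146) = true := by decide +kernel
def p13_22_1_146 : pfC (piC [(nat_lit 30365544), (nat_lit 20402210), (nat_lit 13167684)] (nat_lit 11776556)) p13_22_1 (nat_lit 3) (nat_lit 146) (nat_lit 147) = true := by decide +kernel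
def p13_22_1_147 : pfC (piC [(nat_lit 30365544), (nat_lit 20402210), (nat_lit 13167684)] (nat_lit 11776556)) p13_22_1 (nat_lit 3) (nat_lit 147) (nat_lit 148) = true := by decide +kernel
def p13_22_1_148 : pfC (piC [(nat_lit 30365544), (nat_lit 20402210), (nat_lit 13167684)] (nat_lit 11776556)) p13_22_1 (nat_lit 3) (nat_lit 148) (nat_lit 149) = true := by decide +kernel
def p13_22_1_149 : pfC (piC [(nat_lit 30365544), (nat_lit 20402210), (nat_lit 13167684)] (nat_lit 11776556)) p13_22_1 (nat_lit 3) (nat_lit 149) (nat_lit 150) = true := by decide +kernel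
def p13_22_1_150 : pfC (piC [(nat_lit 30365544), (nat_lit 20402210), (nat_lit 13167684)] (nat_lit 11776556)) p13_22_1 (nat_lit 3) (nat_lit 150) (nat_lit 151) = true := by decide +kernel
def p13_22_1_151 : pfC (piC [(nat_lit 30365544), (nat_lit 20402210), (nat_lit 13167684)] (nat_lit 11776556)) p13_22_1 (nat_lit 3) (nat_lit 151) (nat_lit 152) = true := by decide +kernel
def p13_22_1_152 : pfC (piC [(nat_lit 30365544), (nat_lit 20402210), (nat_lit 13167684)] (nat_lit 11776556)) p13_22_1 (nat_lit 3) (nat_lit 152) (nat_lit 153) = true := by decide +kernel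
def p13_22_1_153 : pfC (piC [(nat_lit 30365544), (nat_lit 20402210), (nat_lit 13167684)] (nat_lit 11776556)) p13_22_1 (nat_lit 3) (nat_lit 153) (nat_lit 154) = true := by decide +kernel
def p13_22_1_154 : pfC (piC [(nat_lit 30365544), (nat_lit 20402210), (nat_lit 13167684)] (nat_lit 11776556)) p13_22_1 (nat_lit 3) (nat_lit 154) (nat_lit 155) = true := by decide +kernel
def p13_22_1_155 : pfC (piC [(nat_lit 30365544), (nat_lit 20402210), (nat_lit 13167684)] (nat_lit 11776556)) p13_22_1 (nat_lit 3) (nat_lit 155) (nat_lit 156) = true := by decide +kernel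
def p13_22_1_156 : pfC (piC [(nat_lit 30365544), (nat_lit 20402210), (nat_lit 13167684)] (nat_lit 11776556)) p13_22_1 (nat_lit 3) (nat_lit 156) (nat_lit 157) = true := by decide +kernel
def p13_22_1_157 : pfC (piC [(nat_lit 30365544), (nat_lit 20402210), (nat_lit 13167684)] (nat_lit 11776556)) p13_22_1 (nat_lit 3) (nat_lit 157) (nat_lit 158) = true := by decide +kernel
def p13_22_1_158 : pfC (piC [(nat_lit 30365544), (nat_lit 20402210), (nat_lit 13167684)] (nat_lit 11776556)) p13_22_1 (nat_lit 3) (nat_lit 158) (nat_lit 159) = true := by decide +kernel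
def p13_22_1_159 : pfC (piC [(nat_lit 30365544), (nat_lit 20402210), (nat_lit 13167684)] (nat_lit 11776556)) p13_22_1 (nat_lit 3) (nat_lit 159) (nat_lit 160) = true := by decide +kernel
def p13_22_1_160 : pfC (piC [(nat_lit 30365544), (nat_lit 20402210), (nat_lit 13167684)] (nat_lit 11776556)) p13_22_1 (nat_lit 3) (nat_lit 160) (nat_lit 161) = true := by decide +kernel
def p13_22_1_161 : pfC (piC [(nat_lit 30365544), (nat_lit 20402210), (nat_lit 13167684)] (nat_lit 11776556)) p13_22_1 (nat_lit 3) (nat_lit 161) (nat_lit 162) = true := by decide +kernel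
def p13_22_1_162 : pfC (piC [(nat_lit 30365544), (nat_lit 20402210), (nat_lit 13167684)] (nat_lit 11776556)) p13_22_1 (nat_lit 3) (nat_lit 162) (nat_lit 163) = true := by decide +kernel
def p13_22_1_163 : pfC (piC [(nat_lit 30365544), (nat_lit 20402210), (nat_lit 13167684)] (nat_lit 11776556)) p13_22_1 (nat_lit 3) (nat_lit 163) (nat_lit 164) = true := by decide +kernel
def p13_22_1_164 : pfC (piC [(nat_lit 30365544), (nat_lit 20402210), (nat_lit 13167684)] (nat_lit 11776556)) p13_22_1 (nat_lit 3) (nat_lit 164) (nat_lit 165) = true := by decide +kernel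
def p13_22_1_165 : pfC (piC [(nat_lit 30365544), (nat_lit 20402210), (nat_lit 13167684)] (nat_lit 11776556)) p13_22_1 (nat_lit 3) (nat_lit 165) (nat_lit 166) = true := by decide +kernel
def p13_22_1_166 : pfC (piC [(nat_lit 30365544), (nat_lit 20402210), (nat_lit 13167684)] (nat_lit 11776556)) p13_22_1 (nat_lit 3) (nat_lit 166) (nat_lit 167) = true := by decide +kernel
def p13_22_1_167 : pfC (piC [(nat_lit 30365544), (nat_lit 20402210), (nat_lit 13167684)] (nat_lit 11776556)) p13_22_1 (nat_lit 3) (nat_lit 167) (nat_lit 168) = true := by decide +kernel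
def p13_22_1_168 : pfC (piC [(nat_lit 30365544), (nat_lit 20402210), (nat_lit 13167684)] (nat_lit 11776556)) p13_22_1 (nat_lit 3) (nat_lit 168) (nat_lit 169) = true := by decide +kernel
def p13_22_1_169 : pfC (piC [(nat_lit 30365544), (nat_lit 20402210), (nat_lit 13167684)] (nat_lit 11776556)) p13_22_1 (nat_lit 3) (nat_lit 169) (nat_lit 170) = true := by decide +kernel
def p13_22_1_170 : pfC (piC [(nat_lit 30365544), (nat_lit 20402210), (nat_lit 13167684)] (nat_lit 11776556)) p13_22_1 (nat_lit 3) (nat_lit 170) (nat_lit 171) = true := by decide +kernel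
def p13_22_1_171 : pfC (piC [(nat_lit 30365544), (nat_lit 20402210), (nat_lit 13167684)] (nat_lit 11776556)) p13_22_1 (nat_lit 3) (nat_lit 171) (nat_lit 172) = true := by decide +kernel
def p13_22_1_172 : pfC (piC [(nat_lit 30365544), (nat_lit 20402210), (nat_lit 13167684)] (nat_lit 11776556)) p13_22_1 (nat_lit 3) (nat_lit 172) (nat_lit 173) = true := by decide +kernel
def p13_22_1_173 : pfC (piC [(nat_lit 30365544), (nat_lit 20402210), (nat_lit 13167684)] (nat_lit 11776556)) p13_22_1 (nat_lit 3) (nat_lit 173) (nat_lit 174) = true := by decide +kernel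
def p13_22_1_174 : pfC (piC [(nat_lit 30365544), (nat_lit 20402210), (nat_lit 13167684)] (nat_lit 11776556)) p13_22_1 (nat_lit 3) (nat_lit 174) (nat_lit 175) = true := by decide +kernel
def p13_22_1_175 : pfC (piC [(nat_lit 30365544), (nat_lit 20402210), (nat_lit 13167684)] (nat_lit 11776556)) p13_22_1 (nat_lit 3) (nat_lit 175) (nat_lit 176) = true := by decide +kernel
def p13_22_1_176 : pfC (piC [(nat_lit 30365544), (nat_lit 20402210), (nat_lit 13167684)] (nat_lit 11776556)) p13_22_1 (nat_lit 3) (nat_lit 176) (nat_lit 177) = true := by decide +kernel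
def p13_22_1_177 : pfC (piC [(nat_lit 30365544), (nat_lit 20402210), (nat_lit 13167684)] (nat_lit 11776556)) p13_22_1 (nat_lit 3) (nat_lit 177) (nat_lit 178) = true := by decide +kernel
def p13_22_1_178 : pfC (piC [(nat_lit 30365544), (nat_lit 20402210), (nat_lit 13167684)] (nat_lit 11776556)) p13_22_1 (nat_lit 3) (nat_lit 178) (nat_lit 179) = true := by decide +kernel
def p13_22_1_179 : pfC (piC [(nat_lit 30365544), (nat_lit 20402210), (nat_lit 13167684)] (nat_lit 11776556)) p13_22_1 (nat_lit 3) (nat_lit 179) (nat_lit 180) = true := by decide +kernel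
def p13_22_1_180 : pfC (piC [(nat_lit 30365544), (nat_lit 20402210), (nat_lit 13167684)] (nat_lit 11776556)) p13_22_1 (nat_lit 3) (nat_lit 180) (nat_lit 181) = true := by decide +kernel
def p13_22_1_181 : pfC (piC [(nat_lit 30365544), (nat_lit 20402210), (nat_lit 13167684)] (nat_lit 11776556)) p13_22_1 (nat_lit 3) (nat_lit 181) (nat_lit 182) = true := by decide +kernel
def p13_22_1_182 : pfC (piC [(nat_lit 30365544), (nat_lit 20402210), (nat_lit 13167684)] (nat_lit 11776556)) p13_22_1 (nat_lit 3) (nat_lit 182) (nat_lit 183) = true := by decide +kernel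
def p13_22_1_183 : pfC (piC [(nat_lit 30365544), (nat_lit 20402210), (nat_lit 13167684)] (nat_lit 11776556)) p13_22_1 (nat_lit 3) (nat_lit 183) (nat_lit 184) = true := by decide +kernel
def p13_22_1_184 : pfC (piC [(nat_lit 30365544), (nat_lit 20402210), (nat_lit 13167684)] (nat_lit 11776556)) p13_22_1 (nat_lit 3) (nat_lit 184) (nat_lit 185) = true := by decide +kernel
def p13_22_1_185 : pfC (piC [(nat_lit 30365544), (nat_lit 20402210), (nat_lit 13167684)] (nat_lit 11776556)) p13_22_1 (nat_lit 3) (nat_lit 185) (nat_lit 186) = true := by decide +kernel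
def p13_22_1_186 : pfC (piC [(nat_lit 30365544), (nat_lit 20402210), (nat_lit 13167684)] (nat_lit 11776556)) p13_22_1 (nat_lit 3) (nat_lit 186) (nat_lit 187) = true := by decide +kernel
def p13_22_1_187 : pfC (piC [(nat_lit 30365544), (nat_lit 20402210), (nat_lit 13167684)] (nat_lit 11776556)) p13_22_1 (nat_lit 3) (nat_lit 187) (nat_lit 188) = true := by decide +kernel
def p13_22_1_188 : pfC (piC [(nat_lit 30365544), (nat_lit 20402210), (nat_lit 13167684)] (nat_lit 11776556)) p13_22_1 (nat_lit 3) (nat_lit 188) (nat_lit 189) = true := by decide +kernel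
def p13_22_1_189 : pfC (piC [(nat_lit 30365544), (nat_lit 20402210), (nat_lit 13167684)] (nat_lit 11776556)) p13_22_1 (nat_lit 3) (nat_lit 189) (nat_lit 190) = true := by decide +kernel
def p13_22_1_190 : pfC (piC [(nat_lit 30365544), (nat_lit 20402210), (nat_lit 13167684)] (nat_lit 11776556)) p13_22_1 (nat_lit 3) (nat_lit 190) (nat_lit 191) = true := by decide +kernel
def p13_22_1_191 : pfC (piC [(nat_lit 30365544), (nat_lit 20402210), (nat_lit 13167684)] (nat_lit 11776556)) p13_22_1 (nat_lit 3) (nat_lit 191) (nat_lit 192) = true := by decide +kernel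
def p13_22_1_192 : pfC (piC [(nat_lit 30365544), (nat_lit 20402210), (nat_lit 13167684)] (nat_lit 11776556)) p13_22_1 (nat_lit 3) (nat_lit 192) (nat_lit 193) = true := by decide +kernel
def p13_22_1_193 : pfC (piC [(nat_lit 30365544), (nat_lit 20402210), (nat_lit 13167684)] (nat_lit 11776556)) p13_22_1 (nat_lit 3) (nat_lit 193) (nat_lit 194) = true := by decide +kernel
def p13_22_1_194 : pfC (piC [(nat_lit 30365544), (nat_lit 20402210), (nat_lit 13167684)] (nat_lit 11776556)) p13_22_1 (nat_lit 3) (nat_lit 194) (nat_lit 195) = true := by decide +kernel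
def p13_22_1_195 : pfC (piC [(nat_lit 30365544), (nat_lit 20402210), (nat_lit 13167684)] (nat_lit 11776556)) p13_22_1 (nat_lit 3) (nat_lit 195) (nat_lit 196) = true := by decide +kernel
def p13_22_1_196 : pfC (piC [(nat_lit 30365544), (nat_lit 20402210), (nat_lit 13167684)] (nat_lit 11776556)) p13_22_1 (nat_lit 3) (nat_lit 196) (nat_lit 197) = true := by decide +kernel
def p13_22_1_197 : pfC (piC [(nat_lit 30365544), (nat_lit 20402210), (nat_lit 13167684)] (nat_lit 11776556)) p13_22_1 (nat_lit 3) (nat_lit 197) (nat_lit 198) = true := by decide +kernel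
def p13_22_1_198 : pfC (piC [(nat_lit 30365544), (nat_lit 20402210), (nat_lit 13167684)] (nat_lit 11776556)) p13_22_1 (nat_lit 3) (nat_lit 198) (nat_lit 199) = true := by decide +kernel
def p13_22_1_199 : pfC (piC [(nat_lit 30365544), (nat_lit 20402210), (nat_lit 13167684)] (nat_lit 11776556)) p13_22_1 (nat_lit 3) (nat_lit 199) (nat_lit 200) = true := by decide +kernel
def p13_22_1_200 : pfC (piC [(nat_lit 30365544), (nat_lit 20402210), (nat_lit 13167684)] (nat_lit 11776556)) p13_22_1 (nat_lit 3) (nat_lit 200) (nat_lit 201) = true := by decide +kernel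
def p13_22_1_201 : pfC (piC [(nat_lit 30365544), (nat_lit 20402210), (nat_lit 13167684)] (nat_lit 11776556)) p13_22_1 (nat_lit 3) (nat_lit 201) (nat_lit 202) = true := by decide +kernel
def p13_22_1_202 : pfC (piC [(nat_lit 30365544), (nat_lit 20402210), (nat_lit 13167684)] (nat_lit 11776556)) p13_22_1 (nat_lit 3) (nat_lit 202) (nat_lit 203) = true := by decide +kernel
def p13_22_1_203 : pfC (piC [(nat_lit 30365544), (nat_lit 20402210), (nat_lit 13167684)] (nat_lit 11776556)) p13_22_1 (nat_lit 3) (nat_lit 203) (nat_lit 204) = true := by decide +kernel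
def p13_22_1_204 : pfC (piC [(nat_lit 30365544), (nat_lit 20402210), (nat_lit 13167684)] (nat_lit 11776556)) p13_22_1 (nat_lit 3) (nat_lit 204) (nat_lit 205) = true := by decide +kernel
def p13_22_1_205 : pfC (piC [(nat_lit 30365544), (nat_lit 20402210), (nat_lit 13167684)] (nat_lit 11776556)) p13_22_1 (nat_lit 3) (nat_lit 205) (nat_lit 206) = true := by decide +kernel
def p13_22_1_206 : pfC (piC [(nat_lit 30365544), (nat_lit 20402210), (nat_lit 13167684)] (nat_lit 11776556)) p13_22_1 (nat_lit 3) (nat_lit 206) (nat_lit 207) = true := by decide +kernel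
def p13_22_1_207 : pfC (piC [(nat_lit 30365544), (nat_lit 20402210), (nat_lit 13167684)] (nat_lit 11776556)) p13_22_1 (nat_lit 3) (nat_lit 207) (nat_lit 208) = true := by decide +kernel
def p13_22_1_208 : pfC (piC [(nat_lit 30365544), (nat_lit 20402210), (nat_lit 13167684)] (nat_lit 11776556)) p13_22_1 (nat_lit 3) (nat_lit 208) (nat_lit 209) = true := by decide +kernel
def p13_22_1_209 : pfC (piC [(nat_lit 30365544), (nat_lit 20402210), (nat_lit 13167684)] (nat_lit 11776556)) p13_22_1 (nat_lit 3) (nat_lit 209) (nat_lit 210) = true := by decide +kernel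
def p13_22_1_210 : pfC (piC [(nat_lit 30365544), (nat_lit 20402210), (nat_lit 13167684)] (nat_lit 11776556)) p13_22_1 (nat_lit 3) (nat_lit 210) (nat_lit 211) = true := by decide +kernel
def p13_22_1_211 : pfC (piC [(nat_lit 30365544), (nat_lit 20402210), (nat_lit 13167684)] (nat_lit 11776556)) p13_22_1 (nat_lit 3) (nat_lit 211) (nat_lit 212) = true := by decide +kernel
def p13_22_1_212 : pfC (piC [(nat_lit 30365544), (nat_lit 20402210), (nat_lit 13167684)] (nat_lit 11776556)) p13_22_1 (nat_lit 3) (nat_lit 212) (nat_lit 213) = true := by decide +kernel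
def p13_22_1_213 : pfC (piC [(nat_lit 30365544), (nat_lit 20402210), (nat_lit 13167684)] (nat_lit 11776556)) p13_22_1 (nat_lit 3) (nat_lit 213) (nat_lit 214) = true := by decide +kernel
def p13_22_1_214 : pfC (piC [(nat_lit 30365544), (nat_lit 20402210), (nat_lit 13167684)] (nat_lit 11776556)) p13_22_1 (nat_lit 3) (nat_lit 214) (nat_lit 215) = true := by decide +kernel
def p13_22_1_215 : pfC (piC [(nat_lit 30365544), (nat_lit 20402210), (nat_lit 13167684)] (nat_lit 11776556)) p13_22_1 (nat_lit 3) (nat_lit 215) (nat_lit 216) = true := by decide +kernel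
def p13_22_1_216 : pfC (piC [(nat_lit 30365544), (nat_lit 20402210), (nat_lit 13167684)] (nat_lit 11776556)) p13_22_1 (nat_lit 3) (nat_lit 216) (nat_lit 217) = true := by decide +kernel
def p13_22_1_217 : pfC (piC [(nat_lit 30365544), (nat_lit 20402210), (nat_lit 13167684)] (nat_lit 11776556)) p13_22_1 (nat_lit 3) (nat_lit 217) (nat_lit 218) = true := by decide +kernel
def p13_22_1_218 : pfC (piC [(nat_lit 30365544), (nat_lit 20402210), (nat_lit 13167684)] (nat_lit 11776556)) p13_22_1 (nat_lit 3) (nat_lit 218) (nat_lit 219) = true := by decide +kernel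
def p13_22_1_219 : pfC (piC [(nat_lit 30365544), (nat_lit 20402210), (nat_lit 13167684)] (nat_lit 11776556)) p13_22_1 (nat_lit 3) (nat_lit 219) (nat_lit 220) = true := by decide +kernel
def p13_22_1_220 : pfC (piC [(nat_lit 30365544), (nat_lit 20402210), (nat_lit 13167684)] (nat_lit 11776556)) p13_22_1 (nat_lit 3) (nat_lit 220) (nat_lit 221) = true := by decide +kernel
def p13_22_1_221 : pfC (piC [(nat_lit 30365544), (nat_lit 20402210), (nat_lit 13167684)] (nat_lit 11776556)) p13_22_1 (nat_lit 3) (nat_lit 221) (nat_lit 222) = true := by decide +kernel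
def p13_22_1_222 : pfC (piC [(nat_lit 30365544), (nat_lit 20402210), (nat_lit 13167684)] (nat_lit 11776556)) p13_22_1 (nat_lit 3) (nat_lit 222) (nat_lit 223) = true := by decide +kernel
def p13_22_1_223 : pfC (piC [(nat_lit 30365544), (nat_lit 20402210), (nat_lit 13167684)] (nat_lit 11776556)) p13_22_1 (nat_lit 3) (nat_lit 223) (nat_lit 224) = true := by decide +kernel
def p13_22_1_224 : pfC (piC [(nat_lit 30365544), (nat_lit 20402210), (nat_lit 13167684)] (nat_lit 11776556)) p13_22_1 (nat_lit 3) (nat_lit 224) (nat_lit 225) = true := by decide +kernel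
def p13_22_1_225 : pfC (piC [(nat_lit 30365544), (nat_lit 20402210), (nat_lit 13167684)] (nat_lit 11776556)) p13_22_1 (nat_lit 3) (nat_lit 225) (nat_lit 226) = true := by decide +kernel
def p13_22_1_226 : pfC (piC [(nat_lit 30365544), (nat_lit 20402210), (nat_lit 13167684)] (nat_lit 11776556)) p13_22_1 (nat_lit 3) (nat_lit 226) (nat_lit 227) = true := by decide +kernel
def p13_22_1_227 : pfC (piC [(nat_lit 30365544), (nat_lit 20402210), (nat_lit 13167684)] (nat_lit 11776556)) p13_22_1 (nat_lit 3) (nat_lit 227) (nat_lit 228) = true := by decide +kernel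
def p13_22_1_228 : pfC (piC [(nat_lit 30365544), (nat_lit 20402210), (nat_lit 13167684)] (nat_lit 11776556)) p13_22_1 (nat_lit 3) (nat_lit 228) (nat_lit 229) = true := by decide +kernel
def p13_22_1_229 : pfC (piC [(nat_lit 30365544), (nat_lit 20402210), (nat_lit 13167684)] (nat_lit 11776556)) p13_22_1 (nat_lit 3) (nat_lit 229) (nat_lit 230) = true := by decide +kernel
def p13_22_1_230 : pfC (piC [(nat_lit 30365544), (nat_lit 20402210), (nat_lit 13167684)] (nat_lit 11776556)) p13_22_1 (nat_lit 3) (nat_lit 230) (nat_lit 231) = true := by decide +kernel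
def p13_22_1_231 : pfC (piC [(nat_lit 30365544), (nat_lit 20402210), (nat_lit 13167684)] (nat_lit 11776556)) p13_22_1 (nat_lit 3) (nat_lit 231) (nat_lit 232) = true := by decide +kernel
def p13_22_1_232 : pfC (piC [(nat_lit 30365544), (nat_lit 20402210), (nat_lit 13167684)] (nat_lit 11776556)) p13_22_1 (nat_lit 3) (nat_lit 232) (nat_lit 233) = true := by decide +kernel
def p13_22_1_233 : pfC (piC [(nat_lit 30365544), (nat_lit 20402210), (nat_lit 13167684)] (nat_lit 11776556)) p13_22_1 (nat_lit 3) (nat_lit 233) (nat_lit 234) = true := by decide +kernel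
def p13_22_1_234 : pfC (piC [(nat_lit 30365544), (nat_lit 20402210), (nat_lit 13167684)] (nat_lit 11776556)) p13_22_1 (nat_lit 3) (nat_lit 234) (nat_lit 235) = true := by decide +kernel
def p13_22_1_235 : pfC (piC [(nat_lit 30365544), (nat_lit 20402210), (nat_lit 13167684)] (nat_lit 11776556)) p13_22_1 (nat_lit 3) (nat_lit 235) (nat_lit 236) = true := by decide +kernel
def p13_22_1_236 : pfC (piC [(nat_lit 30365544), (nat_lit 20402210), (nat_lit 13167684)] (nat_lit 11776556)) p13_22_1 (nat_lit 3) (nat_lit 236) (nat_lit 237) = true := by decide +kernel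
def p13_22_1_237 : pfC (piC [(nat_lit 30365544), (nat_lit 20402210), (nat_lit 13167684)] (nat_lit 11776556)) p13_22_1 (nat_lit 3) (nat_lit 237) (nat_lit 238) = true := by decide +kernel
def p13_22_1_238 : pfC (piC [(nat_lit 30365544), (nat_lit 20402210), (nat_lit 13167684)] (nat_lit 11776556)) p13_22_1 (nat_lit 3) (nat_lit 238) (nat_lit 239) = true := by decide +kernel
def p13_22_1_239 : pfC (piC [(nat_lit 30365544), (nat_lit 20402210), (nat_lit 13167684)] (nat_lit 11776556)) p13_22_1 (nat_lit 3) (nat_lit 239) (nat_lit 240) = true := by decide +kernel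
def p13_22_1_240 : pfC (piC [(nat_lit 30365544), (nat_lit 20402210), (nat_lit 13167684)] (nat_lit 11776556)) p13_22_1 (nat_lit 3) (nat_lit 240) (nat_lit 241) = true := by decide +kernel
def p13_22_1_241 : pfC (piC [(nat_lit 30365544), (nat_lit 20402210), (nat_lit 13167684)] (nat_lit 11776556)) p13_22_1 (nat_lit 3) (nat_lit 241) (nat_lit 242) = true := by decide +kernel
theorem p13_22_1_T : PfS (PiF n13_22.reverse (nat_lit 11776556)) p13_22_1 (nat_lit 3) [] 0 :=
  pftab_of (los := [(nat_lit 30365544), (nat_lit 20402210), (nat_lit 13167684)]) (by decide +kernel) (hi := (nat_lit 242)) (PfP.trans (PfP.trans (PfP.trans (PfP.trans (PfP.trans (PfP.trans (PfP.trans (PfP.trans (PfP.trans (PfP.trans (PfP.trans (PfP.trans (PfP.trans (PfP.trans (PfP.trans (PfP.trans (PfP.trans (PfP.trans (PfP.trans (PfP.trans (PfP.trans (PfP.trans (PfP.trans (PfP.trans (PfP.trans (PfP.trans (PfP.trans (PfP.trans (PfP.trans (PfP.trans (PfP.trans (PfP.trans (PfP.trans (PfP.trans (PfP.trans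 (PfP.trans (PfP.trans (PfP.trans (PfP.trans (PfP.trans (PfP.trans (PfP.trans (PfP.trans (PfP.trans (PfP.trans (PfP.trans (PfP.trans (PfP.trans (PfP.trans (PfP.trans (PfP.trans (PfP.trans (PfP.trans (PfP.trans (PfP.trans (PfP.trans (PfP.trans (PfP.trans (PfP.trans (PfP.trans (PfP.trans (PfP.trans (PfP.trans (PfP.trans (PfP.trans (PfP.trans (PfP.trans (PfP.trans (PfP.trans (PfP.trans (PfP.trans (PfP.trans (PfP.trans (PfP.trans (PfP.trans (PfP.trans (PfP.trans (PfP.trans (PfP.trans (PfP.trans (PfP.trans (PfP.trans (PfP.trans (PfP.trans (PfP.trans (PfP.trans (PfP.trans (PfP.trans (PfP.trans (PfP.trans (PfP.trans (PfP.trans (PfP.trans (PfP.trans (PfP.trans (PfP.trans (PfP.trans (PfP.trans (PfP.trans (PfP.trans (PfP.trans (PfP.trans (PfP.trans (PfP.trans (PfP.trans (PfP.trans (PfP.trans (PfP.trans (PfP.trans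
 (PfP.trans (PfP.trans (PfP.trans (PfP.trans (PfP.trans (PfP.trans (PfP.trans (PfP.trans (PfP.trans (PfP.trans (PfP.trans (PfP.trans (PfP.trans (PfP.trans (PfP.trans (PfP.trans (PfP.trans (PfP.trans (PfP.trans (PfP.trans (PfP.trans (PfP.trans (PfP.trans (PfP.trans (PfP.trans (PfP.trans (PfP.trans (PfP.trans (PfP.trans (PfP.trans (PfP.trans (PfP.trans (PfP.trans (PfP.trans (PfP.trans (PfP.trans (PfP.trans (PfP.trans (PfP.trans (PfP.trans (PfP.trans (PfP.trans (PfP.trans (PfP.trans (PfP.trans (PfP.trans (PfP.trans (PfP.trans (PfP.trans (PfP.trans (PfP.trans (PfP.trans (PfP.trans (PfP.trans (PfP.trans (PfP.trans (PfP.trans (PfP.trans (PfP.trans (PfP.trans (PfP.trans (PfP.trans (PfP.trans (PfP.trans (PfP.trans (PfP.trans (PfP.trans (PfP.trans (PfP.trans (PfP.trans (PfP.trans (PfP.trans (PfP.trans (PfP.trans (PfP.trans (PfP.trans (PfP.trans (PfP.trans (PfP.trans (PfP.trans (PfP.trans (PfP.trans (PfP.trans (PfP.trans (PfP.trans (PfP.trans (PfP.trans (PfP.trans (PfP.trans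 (PfP.trans (PfP.trans (PfP.trans (PfP.trans (PfP.trans (PfP.trans (PfP.trans (PfP.trans (PfP.trans (PfP.trans (PfP.trans (PfP.trans (PfP.trans (PfP.trans (PfP.trans (PfP.trans (PfP.trans (PfP.trans (PfP.trans (PfP.trans
 (PfP.trans (PfP.trans (PfP.trans (PfP.trans (PfP.trans (PfP.trans (PfP.trans (PfP.trans (PfP.trans (PfP.trans (PfP.trans (PfP.trans (PfP.trans (PfP.trans (PfP.trans (PfP.trans (PfP.trans (PfP.trans (PfP.trans (PfP.trans (PfP.trans (PfP.trans (PfP.trans (pfC_sound p13_22_1_0) (pfC_sound p13_22_1_1)) (pfC_sound p13_22_1_2)) (pfC_sound p13_22_1_3)) (pfC_sound p13_22_1_4)) (pfC_sound p13_22_1_5)) (pfC_sound p13_22_1_6)) (pfC_sound p13_22_1_7)) (pfC_sound p13_22_1_8)) (pfC_sound p13_22_1_9)) (pfC_sound p13_22_1_10)) (pfC_sound p13_22_1_11)) (pfC_sound p13_22_1_12)) (pfC_sound p13_22_1_13)) (pfC_sound p13_22_1_14)) (pfC_sound p13_22_1_15)) (pfC_sound p13_22_1_16)) (pfC_sound p13_22_1_17)) (pfC_sound p13_22_1_18)) (pfC_sound p13_22_1_19)) (pfC_sound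 p13_22_1_20)) (pfC_sound p13_22_1_21)) (pfC_sound p13_22_1_22)) (pfC_sound p13_22_1_23)) (pfC_sound p13_22_1_24)) (pfC_sound p13_22_1_25)) (pfC_sound p13_22_1_26)) (pfC_sound p13_22_1_27)) (pfC_sound p13_22_1_28)) (pfC_sound p13_22_1_29)) (pfC_sound p13_22_1_30)) (pfC_sound p13_22_1_31)) (pfC_sound p13_22_1_32)) (pfC_sound p13_22_1_33)) (pfC_sound p13_22_1_34)) (pfC_sound p13_22_1_35)) (pfC_sound p13_22_1_36)) (pfC_sound p13_22_1_37))
 (pfC_sound p13_22_1_38)) (pfC_sound p13_22_1_39)) (pfC_sound p13_22_1_40)) (pfC_sound p13_22_1_41)) (pfC_sound p13_22_1_42)) (pfC_sound p13_22_1_43)) (pfC_sound p13_22_1_44)) (pfC_sound p13_22_1_45)) (pfC_sound p13_22_1_46)) (pfC_sound p13_22_1_47)) (pfC_sound p13_22_1_48)) (pfC_sound p13_22_1_49)) (pfC_sound p13_22_1_50)) (pfC_sound p13_22_1_51)) (pfC_sound p13_22_1_52)) (pfC_sound p13_22_1_53)) (pfC_sound p13_22_1_54)) (pfC_sound p13_22_1_55)) (pfC_sound p13_22_1_56)) (pfC_sound p13_22_1_57)) (pfC_sound p13_22_1_58)) (pfC_sound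 p13_22_1_59)) (pfC_sound p13_22_1_60)) (pfC_sound p13_22_1_61)) (pfC_sound p13_22_1_62)) (pfC_sound p13_22_1_63)) (pfC_sound p13_22_1_64)) (pfC_sound p13_22_1_65)) (pfC_sound p13_22_1_66)) (pfC_sound p13_22_1_67)) (pfC_sound p13_22_1_68)) (pfC_sound p13_22_1_69)) (pfC_sound p13_22_1_70)) (pfC_sound p13_22_1_71)) (pfC_sound p13_22_1_72)) (pfC_sound p13_22_1_73)) (pfC_sound p13_22_1_74)) (pfC_sound p13_22_1_75)) (pfC_sound p13_22_1_76)) (pfC_sound p13_22_1_77)) (pfC_sound p13_22_1_78)) (pfC_sound p13_22_1_79)) (pfC_sound p13_22_1_80)) (pfC_sound p13_22_1_81)) (pfC_sound p13_22_1_82)) (pfC_sound p13_22_1_83)) (pfC_sound p13_22_1_84)) (pfC_sound p13_22_1_85))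
 (pfC_sound p13_22_1_86)) (pfC_sound p13_22_1_87)) (pfC_sound p13_22_1_88)) (pfC_sound p13_22_1_89)) (pfC_sound p13_22_1_90)) (pfC_sound p13_22_1_91)) (pfC_sound p13_22_1_92)) (pfC_sound p13_22_1_93)) (pfC_sound p13_22_1_94)) (pfC_sound p13_22_1_95)) (pfC_sound p13_22_1_96)) (pfC_sound p13_22_1_97)) (pfC_sound p13_22_1_98)) (pfC_sound p13_22_1_99)) (pfC_sound p13_22_1_100)) (pfC_sound p13_22_1_101)) (pfC_sound p13_22_1_102)) (pfC_sound p13_22_1_103)) (pfC_sound p13_22_1_104)) (pfC_sound p13_22_1_105)) (pfC_sound p13_22_1_106)) (pfC_sound p13_22_1_107)) (pfC_sound p13_22_1_108)) (pfC_sound p13_22_1_109)) (pfC_sound p13_22_1_110)) (pfC_sound p13_22_1_111)) (pfC_sound p13_22_1_112)) (pfC_sound p13_22_1_113)) (pfC_sound p13_22_1_114)) (pfC_sound p13_22_1_115)) (pfC_sound p13_22_1_116)) (pfC_sound p13_22_1_117)) (pfC_sound p13_22_1_118)) (pfC_sound p13_22_1_119)) (pfC_sound p13_22_1_120)) (pfC_sound p13_22_1_121)) (pfC_sound p13_22_1_122)) (pfC_sound p13_22_1_123))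 (pfC_sound p13_22_1_124)) (pfC_sound p13_22_1_125)) (pfC_sound p13_22_1_126)) (pfC_sound p13_22_1_127)) (pfC_sound p13_22_1_128)) (pfC_sound p13_22_1_129)) (pfC_sound p13_22_1_130)) (pfC_sound p13_22_1_131)) (pfC_sound
 p13_22_1_132)) (pfC_sound p13_22_1_133)) (pfC_sound p13_22_1_134)) (pfC_sound p13_22_1_135)) (pfC_sound p13_22_1_136)) (pfC_sound p13_22_1_137)) (pfC_sound p13_22_1_138)) (pfC_sound p13_22_1_139)) (pfC_sound p13_22_1_140)) (pfC_sound p13_22_1_141)) (pfC_sound p13_22_1_142)) (pfC_sound p13_22_1_143)) (pfC_sound p13_22_1_144)) (pfC_sound p13_22_1_145)) (pfC_sound p13_22_1_146)) (pfC_sound p13_22_1_147)) (pfC_sound p13_22_1_148)) (pfC_sound p13_22_1_149)) (pfC_sound p13_22_1_150)) (pfC_sound p13_22_1_151)) (pfC_sound p13_22_1_152)) (pfC_sound p13_22_1_153)) (pfC_sound p13_22_1_154)) (pfC_sound p13_22_1_155)) (pfC_sound p13_22_1_156)) (pfC_sound p13_22_1_157)) (pfC_sound p13_22_1_158)) (pfC_sound p13_22_1_159)) (pfC_sound p13_22_1_160)) (pfC_sound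 p13_22_1_161)) (pfC_sound p13_22_1_162)) (pfC_sound p13_22_1_163)) (pfC_sound p13_22_1_164)) (pfC_sound p13_22_1_165)) (pfC_sound p13_22_1_166)) (pfC_sound p13_22_1_167)) (pfC_sound p13_22_1_168)) (pfC_sound p13_22_1_169)) (pfC_sound p13_22_1_170)) (pfC_sound p13_22_1_171)) (pfC_sound p13_22_1_172)) (pfC_sound p13_22_1_173)) (pfC_sound p13_22_1_174)) (pfC_sound p13_22_1_175)) (pfC_sound p13_22_1_176)) (pfC_sound p13_22_1_177)) (pfC_sound
 p13_22_1_178)) (pfC_sound p13_22_1_179)) (pfC_sound p13_22_1_180)) (pfC_sound p13_22_1_181)) (pfC_sound p13_22_1_182)) (pfC_sound p13_22_1_183)) (pfC_sound p13_22_1_184)) (pfC_sound p13_22_1_185)) (pfC_sound p13_22_1_186)) (pfC_sound p13_22_1_187)) (pfC_sound p13_22_1_188)) (pfC_sound p13_22_1_189)) (pfC_sound p13_22_1_190)) (pfC_sound p13_22_1_191)) (pfC_sound p13_22_1_192)) (pfC_sound p13_22_1_193)) (pfC_sound p13_22_1_194)) (pfC_sound p13_22_1_195)) (pfC_sound p13_22_1_196)) (pfC_sound p13_22_1_197)) (pfC_sound p13_22_1_198))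 (pfC_sound p13_22_1_199)) (pfC_sound p13_22_1_200)) (pfC_sound p13_22_1_201)) (pfC_sound p13_22_1_202)) (pfC_sound p13_22_1_203)) (pfC_sound p13_22_1_204)) (pfC_sound p13_22_1_205)) (pfC_sound p13_22_1_206)) (pfC_sound p13_22_1_207)) (pfC_sound p13_22_1_208)) (pfC_sound p13_22_1_209)) (pfC_sound p13_22_1_210)) (pfC_sound p13_22_1_211)) (pfC_sound p13_22_1_212)) (pfC_sound p13_22_1_213)) (pfC_sound p13_22_1_214)) (pfC_sound p13_22_1_215)) (pfC_sound p13_22_1_216)) (pfC_sound p13_22_1_217)) (pfC_sound p13_22_1_218)) (pfC_sound p13_22_1_219)) (pfC_sound p13_22_1_220)) (pfC_sound p13_22_1_221)) (pfC_sound p13_22_1_222)) (pfC_sound p13_22_1_223)) (pfC_sound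
 p13_22_1_224)) (pfC_sound p13_22_1_225)) (pfC_sound p13_22_1_226)) (pfC_sound p13_22_1_227)) (pfC_sound p13_22_1_228)) (pfC_sound p13_22_1_229)) (pfC_sound p13_22_1_230)) (pfC_sound p13_22_1_231)) (pfC_sound p13_22_1_232)) (pfC_sound p13_22_1_233)) (pfC_sound p13_22_1_234)) (pfC_sound p13_22_1_235)) (pfC_sound p13_22_1_236)) (pfC_sound p13_22_1_237)) (pfC_sound p13_22_1_238)) (pfC_sound p13_22_1_239)) (pfC_sound p13_22_1_240)) (pfC_sound p13_22_1_241)) (by decide +kernel)

def z13_22_1 : zOK yB13_22 (nat_lit 1) (nat_lit 400) (nat_lit 601) (nat_lit 11776556) (nat_lit 8627501) = true := by decide +kernel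
def g13_22_1 : gOK yB13_22.x P13_22 (nat_lit 1346) (q13_22 :: r13_22) (nat_lit 1) (nat_lit 400) (nat_lit 2) (nat_lit 601) (nat_lit 11000000) (nat_lit 17884250) (nat_lit 12712500) (nat_lit 12712500) [(nat_lit 800), (nat_lit 1600)] = true := by decide +kernel
/-! box `yB14_0` -/

def P14_0 : BQ := ⟨(nat_lit 8), (nat_lit 4), (nat_lit 4), (nat_lit 0), (nat_lit 8), (nat_lit 540), (nat_lit 560), (nat_lit 120), [(nat_lit 200), (nat_lit 300), (nat_lit 450), (nat_lit 800)], (nat_lit 7760000), (nat_lit 16000000), (nat_lit 16000000000)⟩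
def q14_0 : PC := ⟨(nat_lit 1000), [(nat_lit 120000), (nat_lit 200000), (nat_lit 300000), (nat_lit 450000), (nat_lit 800000)], (nat_lit 340282367000166625996085689103316680705000000), (nat_lit 15992240000000), (nat_lit 15992240000000), (nat_lit 10000000)⟩
def r14_0 : List PC := [⟨(nat_lit 1344), [(nat_lit 120493), (nat_lit 200899), (nat_lit 301495), (nat_lit 452962), (nat_lit 800062)], (nat_lit 342347200403202548332470440278896289728385143), (nat_lit 16475290010880), (nat_lit 16489494073600), (nat_lit 10065823)⟩]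
def s14_0 : List PB := [⟨(nat_lit 26880), (nat_lit 1927888000000), [(nat_lit 200899), (nat_lit 301495), (nat_lit 452962), (nat_lit 800062)], (nat_lit 342347200403202548332470440278896289728385143), (nat_lit 1142375196853504), (nat_lit 1142389400916224), (nat_lit 55040)⟩]
def n14_0 : List KN := [⟨(nat_lit 800), (nat_lit 450), (nat_lit 14610181), (nat_lit 10817553)⟩, ⟨(nat_lit 450), (nat_lit 300), (nat_lit 20874739), (nat_lit 14610181)⟩, ⟨(nat_lit 300), (nat_lit 200), (nat_lit 24651042), (nat_lit 20874739)⟩, ⟨(nat_lit 200), (nat_lit 120), (nat_lit 31235658), (nat_lit 24651042)⟩]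
def w14_0 : List ℕ := [(nat_lit 55040)]
def par14_0 : parC yB14_0 P14_0 s14_0 r14_0 q14_0 n14_0 w14_0 = true := by decide +kernel

def p14_0_0 : PF := (PF.cons (PF.cons (PF.cons (PF.cons (PF.leaf (nat_lit 0) (nat_lit 67108813) (nat_lit 67108813) (nat_lit 0) [(nat_lit 0), (nat_lit 0), (nat_lit 0), (nat_lit 0)]) (PF.cons (PF.leaf (nat_lit 121271) (nat_lit 250051) (nat_lit 66858761) (nat_lit 0) [(nat_lit 250051), (nat_lit 0), (nat_lit 0), (nat_lit 0)]) (PF.cons (PF.leaf (nat_lit 306393) (nat_lit 312786) (nat_lit 66483240) (nat_lit 0) [(nat_lit 312786), (nat_lit 0), (nat_lit 0), (nat_lit 0)]) (PF.cons PF.nil PF.nil)))) (PF.cons (PF.cons (PF.leaf (nat_lit 289649) (nat_lit 699949) (nat_lit 66408863) (nat_lit 0) [(nat_lit 0), (nat_lit 699949), (nat_lit 0), (nat_lit 0)]) (PF.cons PF.nil PF.nil)) (PF.cons PF.nil PF.nil))) (PF.cons (PF.cons (PF.cons (PF.leaf (nat_lit 637924) (nat_lit 1876600) (nat_lit 65232212) (nat_lit 0) [(nat_lit 0), (nat_lit 0), (nat_lit 1876600),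 (nat_lit 0)]) (PF.cons PF.nil PF.nil)) (PF.cons PF.nil PF.nil)) (PF.cons PF.nil PF.nil))) (PF.cons (PF.cons (PF.cons (PF.cons (PF.leaf (nat_lit 1305549) (nat_lit 4893138) (nat_lit 62215674) (nat_lit 0) [(nat_lit 0), (nat_lit 0), (nat_lit 0), (nat_lit 4893138)]) (PF.cons (PF.leaf (nat_lit 1580405) (nat_lit 499297) (nat_lit 61620109) (nat_lit 0) [(nat_lit 499297), (nat_lit 0),
 (nat_lit 0), (nat_lit 4989406)]) (PF.cons (PF.leaf (nat_lit 1906879) (nat_lit 548343) (nat_lit 60921194) (nat_lit 0) [(nat_lit 548343), (nat_lit 0), (nat_lit 0), (nat_lit 5090931)]) (PF.cons PF.nil PF.nil)))) (PF.cons (PF.cons (PF.leaf (nat_lit 1826174) (nat_lit 1109095) (nat_lit 60914008) (nat_lit 0) [(nat_lit 0), (nat_lit 1109095), (nat_lit 0), (nat_lit 5085708)]) (PF.cons PF.nil PF.nil)) (PF.cons PF.nil PF.nil))) (PF.cons (PF.cons (PF.cons (PF.leaf (nat_lit 2249234) (nat_lit 2436728) (nat_lit 59433678) (nat_lit 0) [(nat_lit 0), (nat_lit 0), (nat_lit 2436728), (nat_lit 5238405)]) (PF.cons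 PF.nil PF.nil)) (PF.cons PF.nil PF.nil)) (PF.cons PF.nil PF.nil))) (PF.cons (PF.cons (PF.cons (PF.cons (PF.leaf (nat_lit 2941656) (nat_lit 5409704) (nat_lit 56289403) (nat_lit 0) [(nat_lit 0), (nat_lit 0), (nat_lit 0), (nat_lit 5409704)]) (PF.cons (PF.leaf (nat_lit 3311296) (nat_lit 661178) (nat_lit 55514432) (nat_lit 0) [(nat_lit 661178), (nat_lit 0), (nat_lit 0), (nat_lit 5466601)]) PF.nil)) (PF.cons PF.nil PF.nil)) (PF.cons PF.nil PF.nil)) (PF.cons PF.nil (PF.cons PF.nil (PF.cons PF.nil PF.nil))))))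

def p14_0_0_0 : pfC (piC [(nat_lit 31235658), (nat_lit 24651042), (nat_lit 20874739), (nat_lit 14610181)] (nat_lit 0)) p14_0_0 (nat_lit 4) (nat_lit 0) (nat_lit 2) = true := by decide +kernel
def p14_0_0_1 : pfC (piC [(nat_lit 31235658), (nat_lit 24651042), (nat_lit 20874739), (nat_lit 14610181)] (nat_lit 0)) p14_0_0 (nat_lit 4) (nat_lit 2) (nat_lit 3) = true := by decide +kernel
def p14_0_0_2 : pfC (piC [(nat_lit 31235658), (nat_lit 24651042), (nat_lit 20874739), (nat_lit 14610181)] (nat_lit 0)) p14_0_0 (nat_lit 4) (nat_lit 3) (nat_lit 5) = true := by decide +kernel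
def p14_0_0_3 : pfC (piC [(nat_lit 31235658), (nat_lit 24651042), (nat_lit 20874739), (nat_lit 14610181)] (nat_lit 0)) p14_0_0 (nat_lit 4) (nat_lit 5) (nat_lit 6) = true := by decide +kernel
def p14_0_0_4 : pfC (piC [(nat_lit 31235658), (nat_lit 24651042), (nat_lit 20874739), (nat_lit 14610181)] (nat_lit 0)) p14_0_0 (nat_lit 4) (nat_lit 6) (nat_lit 7) = true := by decide +kernel
def p14_0_0_5 : pfC (piC [(nat_lit 31235658), (nat_lit 24651042), (nat_lit 20874739), (nat_lit 14610181)] (nat_lit 0)) p14_0_0 (nat_lit 4) (nat_lit 7) (nat_lit 8) = true := by decide +kernel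
def p14_0_0_6 : pfC (piC [(nat_lit 31235658), (nat_lit 24651042), (nat_lit 20874739), (nat_lit 14610181)] (nat_lit 0)) p14_0_0 (nat_lit 4) (nat_lit 8) (nat_lit 9) = true := by decide +kernel
def p14_0_0_7 : pfC (piC [(nat_lit 31235658), (nat_lit 24651042), (nat_lit 20874739), (nat_lit 14610181)] (nat_lit 0)) p14_0_0 (nat_lit 4) (nat_lit 9) (nat_lit 10) = true := by decide +kernel
def p14_0_0_8 : pfC (piC [(nat_lit 31235658), (nat_lit 24651042), (nat_lit 20874739), (nat_lit 14610181)] (nat_lit 0)) p14_0_0 (nat_lit 4) (nat_lit 10) (nat_lit 11) = true := by decide +kernel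
def p14_0_0_9 : pfC (piC [(nat_lit 31235658), (nat_lit 24651042), (nat_lit 20874739), (nat_lit 14610181)] (nat_lit 0)) p14_0_0 (nat_lit 4) (nat_lit 11) (nat_lit 12) = true := by decide +kernel
theorem p14_0_0_T : PfS (PiF n14_0.reverse (nat_lit 0)) p14_0_0 (nat_lit 4) [] 0 :=
  pftab_of (los := [(nat_lit 31235658), (nat_lit 24651042), (nat_lit 20874739), (nat_lit 14610181)]) (by decide +kernel) (hi := (nat_lit 12)) (PfP.trans (PfP.trans (PfP.trans (PfP.trans (PfP.trans (PfP.trans (PfP.trans (PfP.trans (PfP.trans (pfC_sound p14_0_0_0) (pfC_sound p14_0_0_1)) (pfC_sound p14_0_0_2)) (pfC_sound p14_0_0_3)) (pfC_sound p14_0_0_4)) (pfC_sound p14_0_0_5)) (pfC_sound p14_0_0_6)) (pfC_sound p14_0_0_7)) (pfC_sound p14_0_0_8)) (pfC_sound p14_0_0_9)) (by decide +kernel)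

def z14_0_0 : zOK yB14_0 (nat_lit 0) (nat_lit 0) (nat_lit 400) (nat_lit 0) (nat_lit 0) = true := by decide +kernel
def g14_0_0 : gOK yB14_0.x P14_0 (nat_lit 1424) (q14_0 :: r14_0) (nat_lit 0) (nat_lit 0) (nat_lit 1) (nat_lit 400) (nat_lit 0) (nat_lit 11000000) (nat_lit 12712500) (nat_lit 12712500) [(nat_lit 800), (nat_lit 1600)] = true := by decide +kernel
def v14_0_0 : ivC P14_0 s14_0 w14_0 n14_0 (nat_lit 4) (nat_lit 5660) (nat_lit 0) (nat_lit 0) f104_1_0 f112_1_0 (nat_lit 1) (nat_lit 400) f104_1_400 f112_1_400 (nat_lit 0) (nat_lit 0) p14_0_0 = true := by decide +kernel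
def p14_0_1 : PF := (PF.cons (PF.cons (PF.cons (PF.cons (PF.leaf (nat_lit 2028096) (nat_lit 9419509) (nat_lit 57689303) (nat_lit 9419509) [(nat_lit 0), (nat_lit 0), (nat_lit 0), (nat_lit 0)]) (PF.cons (PF.leaf (nat_lit 2311389) (nat_lit 537715) (nat_lit 57103572) (nat_lit 9467525) [(nat_lit 537715), (nat_lit 0), (nat_lit 0), (nat_lit 0)]) PF.nil)) (PF.cons PF.nil PF.nil)) (PF.cons PF.nil PF.nil)) (PF.cons (PF.cons (PF.cons (PF.cons (PF.leaf (nat_lit 3610338) (nat_lit 5434700) (nat_lit 52110246) (nat_lit 9563866) [(nat_lit 0), (nat_lit 0), (nat_lit 0), (nat_lit 5434700)]) (PF.cons PF.nil PF.nil)) (PF.cons PF.nil PF.nil)) (PF.cons PF.nil PF.nil)) (PF.cons PF.nil (PF.cons PF.nil PF.nil))))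

def p14_0_1_0 : pfC (piC [(nat_lit 31235658), (nat_lit 24651042), (nat_lit 20874739), (nat_lit 14610181)] (nat_lit 11583624)) p14_0_1 (nat_lit 4) (nat_lit 0) (nat_lit 1) = true := by decide +kernel
def p14_0_1_1 : pfC (piC [(nat_lit 31235658), (nat_lit 24651042), (nat_lit 20874739), (nat_lit 14610181)] (nat_lit 11583624)) p14_0_1 (nat_lit 4) (nat_lit 1) (nat_lit 2) = true := by decide +kernel
def p14_0_1_2 : pfC (piC [(nat_lit 31235658), (nat_lit 24651042), (nat_lit 20874739), (nat_lit 14610181)] (nat_lit 11583624)) p14_0_1 (nat_lit 4) (nat_lit 2) (nat_lit 3) = true := by decide +kernel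
theorem p14_0_1_T : PfS (PiF n14_0.reverse (nat_lit 11583624)) p14_0_1 (nat_lit 4) [] 0 :=
  pftab_of (los := [(nat_lit 31235658), (nat_lit 24651042), (nat_lit 20874739), (nat_lit 14610181)]) (by decide +kernel) (hi := (nat_lit 3)) (PfP.trans (PfP.trans (pfC_sound p14_0_1_0) (pfC_sound p14_0_1_1)) (pfC_sound p14_0_1_2)) (by decide +kernel)

def z14_0_1 : zOK yB14_0 (nat_lit 1) (nat_lit 400) (nat_lit 600) (nat_lit 11583624) (nat_lit 6539266) = true := by decide +kernel
def g14_0_1 : gOK yB14_0.x P14_0 (nat_lit 1424) (q14_0 :: r14_0) (nat_lit 1) (nat_lit 400) (nat_lit 2) (nat_lit 600) (nat_lit 11000000) (nat_lit 17850000) (nat_lit 12712500) (nat_lit 12712500) [(nat_lit 800), (nat_lit 1130)] = true := by decide +kernel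
def v14_0_1 : ivC P14_0 s14_0 w14_0 n14_0 (nat_lit 4) (nat_lit 5260) (nat_lit 1) (nat_lit 400) f104_1_400 f112_1_400 (nat_lit 2) (nat_lit 600) f104_1_600 f112_1_600 (nat_lit 11583624) (nat_lit 6539266) p14_0_1 = true := by decide +kernel
def p14_0_2 : PF := (PF.cons (PF.cons (PF.cons (PF.cons (PF.leaf (nat_lit 2814840) (nat_lit 16815928) (nat_lit 50292884) (nat_lit 16815928) [(nat_lit 0), (nat_lit 0), (nat_lit 0), (nat_lit 0)]) (PF.cons (PF.leaf (nat_lit 3087995) (nat_lit 537818) (nat_lit 49802883) (nat_lit 16768111) [(nat_lit 537818), (nat_lit 0), (nat_lit 0), (nat_lit 0)]) (PF.cons PF.nil (PF.cons PF.nil PF.nil)))) (PF.cons (PF.cons (PF.leaf (nat_lit 3318381) (nat_lit 1168608) (nat_lit 49234181) (nat_lit 16706023) [(nat_lit 0), (nat_lit 1168608), (nat_lit 0), (nat_lit 0)]) (PF.cons PF.nil PF.nil)) (PF.cons PF.nil PF.nil))) (PF.cons (PF.cons (PF.cons (PF.leaf (nat_lit 3694329) (nat_lit 2473826) (nat_lit 48075958) (nat_lit 16559028) [(nat_lit 0), (nat_lit 0),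 (nat_lit 2473826), (nat_lit 0)]) (PF.cons PF.nil PF.nil)) (PF.cons PF.nil PF.nil)) (PF.cons PF.nil PF.nil))) (PF.cons (PF.cons (PF.cons (PF.cons (PF.leaf (nat_lit 4271339) (nat_lit 5205802) (nat_lit 45719318) (nat_lit 16183691) [(nat_lit 0), (nat_lit 0), (nat_lit 0), (nat_lit 5205802)]) (PF.cons (PF.leaf (nat_lit 4614167) (nat_lit 655923) (nat_lit 45130568) (nat_lit 16093387) [(nat_lit 655923), (nat_lit 0), (nat_lit 0), (nat_lit 5228934)]) PF.nil)) (PF.cons PF.nil PF.nil))
 (PF.cons PF.nil PF.nil)) (PF.cons PF.nil (PF.cons PF.nil PF.nil))))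

def p14_0_2_0 : pfC (piC [(nat_lit 31235658), (nat_lit 24651042), (nat_lit 20874739), (nat_lit 14610181)] (nat_lit 6539266)) p14_0_2 (nat_lit 4) (nat_lit 0) (nat_lit 1) = true := by decide +kernel
def p14_0_2_1 : pfC (piC [(nat_lit 31235658), (nat_lit 24651042), (nat_lit 20874739), (nat_lit 14610181)] (nat_lit 6539266)) p14_0_2 (nat_lit 4) (nat_lit 1) (nat_lit 2) = true := by decide +kernel
def p14_0_2_2 : pfC (piC [(nat_lit 31235658), (nat_lit 24651042), (nat_lit 20874739), (nat_lit 14610181)] (nat_lit 6539266)) p14_0_2 (nat_lit 4) (nat_lit 2) (nat_lit 3) = true := by decide +kernel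
def p14_0_2_3 : pfC (piC [(nat_lit 31235658), (nat_lit 24651042), (nat_lit 20874739), (nat_lit 14610181)] (nat_lit 6539266)) p14_0_2 (nat_lit 4) (nat_lit 3) (nat_lit 4) = true := by decide +kernel
def p14_0_2_4 : pfC (piC [(nat_lit 31235658), (nat_lit 24651042), (nat_lit 20874739), (nat_lit 14610181)] (nat_lit 6539266)) p14_0_2 (nat_lit 4) (nat_lit 4) (nat_lit 5) = true := by decide +kernel
def p14_0_2_5 : pfC (piC [(nat_lit 31235658), (nat_lit 24651042), (nat_lit 20874739), (nat_lit 14610181)] (nat_lit 6539266)) p14_0_2 (nat_lit 4) (nat_lit 5) (nat_lit 6) = true := by decide +kernel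
theorem p14_0_2_T : PfS (PiF n14_0.reverse (nat_lit 6539266)) p14_0_2 (nat_lit 4) [] 0 :=
  pftab_of (los := [(nat_lit 31235658), (nat_lit 24651042), (nat_lit 20874739), (nat_lit 14610181)]) (by decide +kernel) (hi := (nat_lit 6)) (PfP.trans (PfP.trans (PfP.trans (PfP.trans (PfP.trans (pfC_sound p14_0_2_0) (pfC_sound p14_0_2_1)) (pfC_sound p14_0_2_2)) (pfC_sound p14_0_2_3)) (pfC_sound p14_0_2_4)) (pfC_sound p14_0_2_5)) (by decide +kernel)

def z14_0_2 : zOK yB14_0 (nat_lit 2) (nat_lit 600) (nat_lit 750) (nat_lit 6539266) (nat_lit 4416107) = true := by decide +kernel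
def g14_0_2 : gOK yB14_0.x P14_0 (nat_lit 1424) (q14_0 :: r14_0) (nat_lit 2) (nat_lit 600) (nat_lit 3) (nat_lit 750) (nat_lit 12712500) (nat_lit 12712500) (nat_lit 12712500) (nat_lit 12712500) [(nat_lit 800), (nat_lit 1600)] = true := by decide +kernel
def v14_0_2 : ivC P14_0 s14_0 w14_0 n14_0 (nat_lit 4) (nat_lit 5060) (nat_lit 2) (nat_lit 600) f104_1_600 f112_1_600 (nat_lit 3) (nat_lit 750) f104_1_750 f112_1_750 (nat_lit 6539266) (nat_lit 4416107) p14_0_2 = true := by decide +kernel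
def p14_0_3 : PF := (PF.cons (PF.cons (PF.cons (PF.cons (PF.leaf (nat_lit 3247627) (nat_lit 23716221) (nat_lit 43392591) (nat_lit 23716221) [(nat_lit 0), (nat_lit 0), (nat_lit 0), (nat_lit 0)]) (PF.cons (PF.leaf (nat_lit 3501678) (nat_lit 504535) (nat_lit 43018113) (nat_lit 23586163) [(nat_lit 504535), (nat_lit 0), (nat_lit 0), (nat_lit 0)]) (PF.cons (PF.leaf (nat_lit 3797706) (nat_lit 545331) (nat_lit 42584773) (nat_lit 23433375) [(nat_lit 545331), (nat_lit 0), (nat_lit 0), (nat_lit 0)]) (PF.cons (PF.leaf (nat_lit 4126637) (nat_lit 580306) (nat_lit 42106069) (nat_lit 23261823) [(nat_lit 580306), (nat_lit 0), (nat_lit 0), (nat_lit 0)]) (PF.cons PF.nil PF.nil))))) (PF.cons (PF.cons (PF.leaf (nat_lit 3714678) (nat_lit 1093614) (nat_lit 42583492) (nat_lit 23431705) [(nat_lit 0), (nat_lit 1093614), (nat_lit 0), (nat_lit 0)]) (PF.cons (PF.leaf (nat_lit 4021570) (nat_lit 568282) (nat_lit 42131276) (nat_lit 23269677) [(nat_lit 568282), (nat_lit 1139576), (nat_lit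 0), (nat_lit 0)]) (PF.cons (PF.leaf (nat_lit 4359388) (nat_lit 599998) (nat_lit 41637932) (nat_lit 23090034) [(nat_lit 599998), (nat_lit 1180848), (nat_lit 0), (nat_lit 0)]) (PF.cons PF.nil PF.nil)))) (PF.cons (PF.cons (PF.leaf (nat_lit 4248774)
 (nat_lit 1169713) (nat_lit 41669154) (nat_lit 23100232) [(nat_lit 0), (nat_lit 1169713), (nat_lit 0), (nat_lit 0)]) (PF.cons (PF.leaf (nat_lit 4594153) (nat_lit 617637) (nat_lit 41163894) (nat_lit 22913368) [(nat_lit 617637), (nat_lit 1206956), (nat_lit 0), (nat_lit 0)]) PF.nil)) (PF.cons PF.nil (PF.cons PF.nil PF.nil))))) (PF.cons (PF.cons (PF.cons (PF.leaf (nat_lit 4060107) (nat_lit 2304900) (nat_lit 41698051) (nat_lit 23105860) [(nat_lit 0), (nat_lit 0), (nat_lit 2304900), (nat_lit 0)]) (PF.cons (PF.leaf (nat_lit 4375787) (nat_lit 593047) (nat_lit 41234099) (nat_lit 22934610) [(nat_lit 593047), (nat_lit 0), (nat_lit 2347055), (nat_lit 0)]) (PF.cons (PF.leaf (nat_lit 4720302) (nat_lit 621652) (nat_lit 40732841) (nat_lit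 22746727) [(nat_lit 621652), (nat_lit 0), (nat_lit 2385938), (nat_lit 0)]) (PF.cons PF.nil PF.nil)))) (PF.cons (PF.cons (PF.leaf (nat_lit 4604212) (nat_lit 1204539) (nat_lit 40768357) (nat_lit 22758885) [(nat_lit 0), (nat_lit 1204539), (nat_lit 2377029), (nat_lit 0)]) (PF.cons PF.nil PF.nil)) (PF.cons PF.nil PF.nil))) (PF.cons (PF.cons (PF.cons (PF.leaf (nat_lit 4957046) (nat_lit 2412122) (nat_lit 39873749) (nat_lit 22410817) [(nat_lit 0), (nat_lit 0), (nat_lit
 2412122), (nat_lit 0)]) (PF.cons PF.nil PF.nil)) (PF.cons PF.nil PF.nil)) PF.nil))) (PF.cons (PF.cons (PF.cons (PF.cons (PF.leaf (nat_lit 4587143) (nat_lit 4816827) (nat_lit 39893194) (nat_lit 22398790) [(nat_lit 0), (nat_lit 0), (nat_lit 0), (nat_lit 4816827)]) (PF.cons (PF.leaf (nat_lit 4905458) (nat_lit 611628) (nat_lit 39438218) (nat_lit 22222082) [(nat_lit 611628), (nat_lit 0), (nat_lit 0), (nat_lit 4836883)]) (PF.cons (PF.leaf (nat_lit 5250528) (nat_lit 637582) (nat_lit 38949841) (nat_lit 22029836)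 [(nat_lit 637582), (nat_lit 0), (nat_lit 0), (nat_lit 4853969)]) (PF.cons PF.nil PF.nil)))) (PF.cons (PF.cons (PF.leaf (nat_lit 5130665) (nat_lit 1229922) (nat_lit 38986804) (nat_lit 22043286) [(nat_lit 0), (nat_lit 1229922), (nat_lit 0), (nat_lit 4848799)]) (PF.cons PF.nil PF.nil)) (PF.cons PF.nil PF.nil))) (PF.cons (PF.cons (PF.cons (PF.leaf (nat_lit 5473141) (nat_lit 2430237) (nat_lit 38129984) (nat_lit 21694615) [(nat_lit 0), (nat_lit 0), (nat_lit 2430237), (nat_lit 4853974)]) (PF.cons PF.nil PF.nil)) PF.nil) PF.nil)) (PF.cons PF.nil (PF.cons PF.nil PF.nil))))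

def p14_0_3_0 : pfC (piC [(nat_lit 31235658), (nat_lit 24651042), (nat_lit 20874739), (nat_lit 14610181)] (nat_lit 4416107)) p14_0_3 (nat_lit 4) (nat_lit 0) (nat_lit 1) = true := by decide +kernel
def p14_0_3_1 : pfC (piC [(nat_lit 31235658), (nat_lit 24651042), (nat_lit 20874739), (nat_lit 14610181)] (nat_lit 4416107)) p14_0_3 (nat_lit 4) (nat_lit 1) (nat_lit 2) = true := by decide +kernel
def p14_0_3_2 : pfC (piC [(nat_lit 31235658), (nat_lit 24651042), (nat_lit 20874739), (nat_lit 14610181)] (nat_lit 4416107)) p14_0_3 (nat_lit 4) (nat_lit 2) (nat_lit 3) = true := by decide +kernel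
def p14_0_3_3 : pfC (piC [(nat_lit 31235658), (nat_lit 24651042), (nat_lit 20874739), (nat_lit 14610181)] (nat_lit 4416107)) p14_0_3 (nat_lit 4) (nat_lit 3) (nat_lit 4) = true := by decide +kernel
def p14_0_3_4 : pfC (piC [(nat_lit 31235658), (nat_lit 24651042), (nat_lit 20874739), (nat_lit 14610181)] (nat_lit 4416107)) p14_0_3 (nat_lit 4) (nat_lit 4) (nat_lit 5) = true := by decide +kernel
def p14_0_3_5 : pfC (piC [(nat_lit 31235658), (nat_lit 24651042), (nat_lit 20874739), (nat_lit 14610181)] (nat_lit 4416107)) p14_0_3 (nat_lit 4) (nat_lit 5) (nat_lit 6) = true := by decide +kernel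
def p14_0_3_6 : pfC (piC [(nat_lit 31235658), (nat_lit 24651042), (nat_lit 20874739), (nat_lit 14610181)] (nat_lit 4416107)) p14_0_3 (nat_lit 4) (nat_lit 6) (nat_lit 7) = true := by decide +kernel
def p14_0_3_7 : pfC (piC [(nat_lit 31235658), (nat_lit 24651042), (nat_lit 20874739), (nat_lit 14610181)] (nat_lit 4416107)) p14_0_3 (nat_lit 4) (nat_lit 7) (nat_lit 8) = true := by decide +kernel
def p14_0_3_8 : pfC (piC [(nat_lit 31235658), (nat_lit 24651042), (nat_lit 20874739), (nat_lit 14610181)] (nat_lit 4416107)) p14_0_3 (nat_lit 4) (nat_lit 8) (nat_lit 9) = true := by decide +kernel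
def p14_0_3_9 : pfC (piC [(nat_lit 31235658), (nat_lit 24651042), (nat_lit 20874739), (nat_lit 14610181)] (nat_lit 4416107)) p14_0_3 (nat_lit 4) (nat_lit 9) (nat_lit 10) = true := by decide +kernel
def p14_0_3_10 : pfC (piC [(nat_lit 31235658), (nat_lit 24651042), (nat_lit 20874739), (nat_lit 14610181)] (nat_lit 4416107)) p14_0_3 (nat_lit 4) (nat_lit 10) (nat_lit 11) = true := by decide +kernel
def p14_0_3_11 : pfC (piC [(nat_lit 31235658), (nat_lit 24651042), (nat_lit 20874739), (nat_lit 14610181)] (nat_lit 4416107)) p14_0_3 (nat_lit 4) (nat_lit 11) (nat_lit 12) = true := by decide +kernel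
def p14_0_3_12 : pfC (piC [(nat_lit 31235658), (nat_lit 24651042), (nat_lit 20874739), (nat_lit 14610181)] (nat_lit 4416107)) p14_0_3 (nat_lit 4) (nat_lit 12) (nat_lit 13) = true := by decide +kernel
def p14_0_3_13 : pfC (piC [(nat_lit 31235658), (nat_lit 24651042), (nat_lit 20874739), (nat_lit 14610181)] (nat_lit 4416107)) p14_0_3 (nat_lit 4) (nat_lit 13) (nat_lit 14) = true := by decide +kernel
def p14_0_3_14 : pfC (piC [(nat_lit 31235658), (nat_lit 24651042), (nat_lit 20874739), (nat_lit 14610181)] (nat_lit 4416107)) p14_0_3 (nat_lit 4) (nat_lit 14) (nat_lit 15) = true := by decide +kernel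
def p14_0_3_15 : pfC (piC [(nat_lit 31235658), (nat_lit 24651042), (nat_lit 20874739), (nat_lit 14610181)] (nat_lit 4416107)) p14_0_3 (nat_lit 4) (nat_lit 15) (nat_lit 16) = true := by decide +kernel
def p14_0_3_16 : pfC (piC [(nat_lit 31235658), (nat_lit 24651042), (nat_lit 20874739), (nat_lit 14610181)] (nat_lit 4416107)) p14_0_3 (nat_lit 4) (nat_lit 16) (nat_lit 17) = true := by decide +kernel
def p14_0_3_17 : pfC (piC [(nat_lit 31235658), (nat_lit 24651042), (nat_lit 20874739), (nat_lit 14610181)] (nat_lit 4416107)) p14_0_3 (nat_lit 4) (nat_lit 17) (nat_lit 18) = true := by decide +kernel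
def p14_0_3_18 : pfC (piC [(nat_lit 31235658), (nat_lit 24651042), (nat_lit 20874739), (nat_lit 14610181)] (nat_lit 4416107)) p14_0_3 (nat_lit 4) (nat_lit 18) (nat_lit 19) = true := by decide +kernel
theorem p14_0_3_T : PfS (PiF n14_0.reverse (nat_lit 4416107)) p14_0_3 (nat_lit 4) [] 0 :=
  pftab_of (los := [(nat_lit 31235658), (nat_lit 24651042), (nat_lit 20874739), (nat_lit 14610181)]) (by decide +kernel) (hi := (nat_lit 19)) (PfP.trans (PfP.trans (PfP.trans (PfP.trans (PfP.trans (PfP.trans (PfP.trans (PfP.trans (PfP.trans (PfP.trans (PfP.trans (PfP.trans (PfP.trans (PfP.trans (PfP.trans (PfP.trans (PfP.trans (PfP.trans (pfC_sound p14_0_3_0) (pfC_sound p14_0_3_1)) (pfC_sound p14_0_3_2)) (pfC_sound p14_0_3_3)) (pfC_sound p14_0_3_4)) (pfC_sound p14_0_3_5)) (pfC_sound p14_0_3_6)) (pfC_sound p14_0_3_7)) (pfC_sound p14_0_3_8)) (pfC_sound p14_0_3_9)) (pfC_sound p14_0_3_10)) (pfC_sound p14_0_3_11)) (pfC_sound p14_0_3_12)) (pfC_sound p14_0_3_13)) (pfC_sound p14_0_3_14))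 (pfC_sound p14_0_3_15)) (pfC_sound p14_0_3_16)) (pfC_sound p14_0_3_17)) (pfC_sound p14_0_3_18)) (by decide +kernel)

def z14_0_3 : zOK yB14_0 (nat_lit 3) (nat_lit 750) (nat_lit 986) (nat_lit 4416107) (nat_lit 1625191) = true := by decide +kernel
def g14_0_3 : gOK yB14_0.x P14_0 (nat_lit 1424) (q14_0 :: r14_0) (nat_lit 3) (nat_lit 750) (nat_lit 4) (nat_lit 986) (nat_lit 12712500) (nat_lit 12712500) (nat_lit 12712500) (nat_lit 12712500) [(nat_lit 800)] = true := by decide +kernel
def v14_0_3 : ivC P14_0 s14_0 w14_0 n14_0 (nat_lit 4) (nat_lit 4910) (nat_lit 3) (nat_lit 750) f104_1_750 f112_1_750 (nat_lit 4) (nat_lit 986) f104_1_986 f112_1_986 (nat_lit 4416107) (nat_lit 1625191) p14_0_3 = true := by decide +kernel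
/-! box `yB14_1` -/

def P14_1 : BQ := ⟨(nat_lit 8), (nat_lit 8), (nat_lit 0), (nat_lit 4), (nat_lit 4), (nat_lit 560), (nat_lit 580), (nat_lit 120), [(nat_lit 200), (nat_lit 300), (nat_lit 450), (nat_lit 800)], (nat_lit 8144000), (nat_lit 16000000), (nat_lit 16000000000)⟩
def q14_1 : PC := ⟨(nat_lit 1000), [(nat_lit 120000), (nat_lit 200000), (nat_lit 300000), (nat_lit 450000), (nat_lit 800000)], (nat_lit 340282367000166625996085689103316680705000000), (nat_lit 15991856000000), (nat_lit 15991856000000), (nat_lit 10000000)⟩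
def r14_1 : List PC := [⟨(nat_lit 1614), [(nat_lit 120898), (nat_lit 201637), (nat_lit 302719), (nat_lit 454928), (nat_lit 797558)], (nat_lit 344054737320794648023468381817829993021922102), (nat_lit 16615270561600), (nat_lit 16640300148800), (nat_lit 10109512)⟩]
def s14_1 : List PB := [⟨(nat_lit 32280), (nat_lit 1934368000000), [(nat_lit 201637), (nat_lit 302719), (nat_lit 454928), (nat_lit 797558)], (nat_lit 344054737320794648023468381817829993021922102), (nat_lit 1142515177404224), (nat_lit 1142540206991424), (nat_lit 98240)⟩]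
def n14_1 : List KN := [⟨(nat_lit 800), (nat_lit 450), (nat_lit 14481699), (nat_lit 11363143)⟩, ⟨(nat_lit 450), (nat_lit 300), (nat_lit 20955711), (nat_lit 14481699)⟩, ⟨(nat_lit 300), (nat_lit 200), (nat_lit 24889148), (nat_lit 20955711)⟩, ⟨(nat_lit 200), (nat_lit 120), (nat_lit 31465553), (nat_lit 24889148)⟩]
def w14_1 : List ℕ := [(nat_lit 98240)]
def par14_1 : parC yB14_1 P14_1 s14_1 r14_1 q14_1 n14_1 w14_1 = true := by decide +kernel

def p14_1_0 : PF := (PF.cons (PF.cons (PF.cons (PF.cons (PF.leaf (nat_lit 0) (nat_lit 67108813) (nat_lit 67108813) (nat_lit 0) [(nat_lit 0), (nat_lit 0), (nat_lit 0), (nat_lit 0)]) (PF.cons (PF.leaf (nat_lit 116402) (nat_lit 238659) (nat_lit 66870153) (nat_lit 0) [(nat_lit 238659), (nat_lit 0), (nat_lit 0), (nat_lit 0)]) (PF.cons (PF.leaf (nat_lit 294453) (nat_lit 298633) (nat_lit 66511546) (nat_lit 0) [(nat_lit 298633), (nat_lit 0), (nat_lit 0), (nat_lit 0)]) (PF.cons PF.nil PF.nil)))) (PF.cons (PF.cons (PF.leaf (nat_lit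 282228) (nat_lit 678190) (nat_lit 66430622) (nat_lit 0) [(nat_lit 0), (nat_lit 678190), (nat_lit 0), (nat_lit 0)]) (PF.cons PF.nil PF.nil)) (PF.cons PF.nil PF.nil))) (PF.cons (PF.cons (PF.cons (PF.leaf (nat_lit 640219) (nat_lit 1885286) (nat_lit 65223526) (nat_lit 0) [(nat_lit 0), (nat_lit 0), (nat_lit 1885286), (nat_lit 0)]) (PF.cons PF.nil PF.nil)) (PF.cons PF.nil PF.nil)) (PF.cons PF.nil PF.nil))) (PF.cons (PF.cons (PF.cons (PF.cons (PF.leaf (nat_lit 1270047) (nat_lit 4707261) (nat_lit 62401551) (nat_lit 0) [(nat_lit 0), (nat_lit 0), (nat_lit 0), (nat_lit 4707261)]) (PF.cons (PF.leaf (nat_lit 1536073) (nat_lit 479019) (nat_lit 61827968) (nat_lit 0) [(nat_lit 479019), (nat_lit 0),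
 (nat_lit 0), (nat_lit 4801824)]) (PF.cons (PF.leaf (nat_lit 1852381) (nat_lit 526357) (nat_lit 61154144) (nat_lit 0) [(nat_lit 526357), (nat_lit 0), (nat_lit 0), (nat_lit 4901954)]) (PF.cons PF.nil PF.nil)))) (PF.cons (PF.cons (PF.leaf (nat_lit 1779506) (nat_lit 1076892) (nat_lit 61133140) (nat_lit 0) [(nat_lit 0), (nat_lit 1076892), (nat_lit 0), (nat_lit 4898780)]) (PF.cons (PF.leaf (nat_lit 2113041) (nat_lit 557611) (nat_lit 60419115) (nat_lit 0) [(nat_lit 557611), (nat_lit 1138425), (nat_lit 0), (nat_lit 4993660)]) PF.nil)) (PF.cons PF.nil PF.nil))) (PF.cons (PF.cons (PF.cons (PF.leaf (nat_lit 2215385) (nat_lit 2438425) (nat_lit 59611555) (nat_lit 0) [(nat_lit 0), (nat_lit 0), (nat_lit 2438425), (nat_lit 5058832)]) (PF.cons PF.nil PF.nil)) (PF.cons PF.nil PF.nil)) (PF.cons PF.nil PF.nil))) (PF.cons (PF.cons (PF.cons (PF.cons (PF.leaf (nat_lit 2872336) (nat_lit 5228236) (nat_lit 56652339) (nat_lit 0) [(nat_lit 0), (nat_lit 0), (nat_lit 0), (nat_lit 5228236)])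 (PF.cons (PF.leaf (nat_lit 3232513) (nat_lit 637575) (nat_lit 55898752) (nat_lit 0) [(nat_lit 637575), (nat_lit 0), (nat_lit 0), (nat_lit 5286242)]) PF.nil)) (PF.cons PF.nil PF.nil)) (PF.cons PF.nil PF.nil)) (PF.cons PF.nil
 (PF.cons PF.nil (PF.cons PF.nil PF.nil))))))

def p14_1_0_0 : pfC (piC [(nat_lit 31465553), (nat_lit 24889148), (nat_lit 20955711), (nat_lit 14481699)] (nat_lit 0)) p14_1_0 (nat_lit 4) (nat_lit 0) (nat_lit 2) = true := by decide +kernel
def p14_1_0_1 : pfC (piC [(nat_lit 31465553), (nat_lit 24889148), (nat_lit 20955711), (nat_lit 14481699)] (nat_lit 0)) p14_1_0 (nat_lit 4) (nat_lit 2) (nat_lit 3) = true := by decide +kernel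
def p14_1_0_2 : pfC (piC [(nat_lit 31465553), (nat_lit 24889148), (nat_lit 20955711), (nat_lit 14481699)] (nat_lit 0)) p14_1_0 (nat_lit 4) (nat_lit 3) (nat_lit 5) = true := by decide +kernel
def p14_1_0_3 : pfC (piC [(nat_lit 31465553), (nat_lit 24889148), (nat_lit 20955711), (nat_lit 14481699)] (nat_lit 0)) p14_1_0 (nat_lit 4) (nat_lit 5) (nat_lit 6) = true := by decide +kernel
def p14_1_0_4 : pfC (piC [(nat_lit 31465553), (nat_lit 24889148), (nat_lit 20955711), (nat_lit 14481699)] (nat_lit 0)) p14_1_0 (nat_lit 4) (nat_lit 6) (nat_lit 7) = true := by decide +kernel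
def p14_1_0_5 : pfC (piC [(nat_lit 31465553), (nat_lit 24889148), (nat_lit 20955711), (nat_lit 14481699)] (nat_lit 0)) p14_1_0 (nat_lit 4) (nat_lit 7) (nat_lit 8) = true := by decide +kernel
def p14_1_0_6 : pfC (piC [(nat_lit 31465553), (nat_lit 24889148), (nat_lit 20955711), (nat_lit 14481699)] (nat_lit 0)) p14_1_0 (nat_lit 4) (nat_lit 8) (nat_lit 9) = true := by decide +kernel
def p14_1_0_7 : pfC (piC [(nat_lit 31465553), (nat_lit 24889148), (nat_lit 20955711), (nat_lit 14481699)] (nat_lit 0)) p14_1_0 (nat_lit 4) (nat_lit 9) (nat_lit 10) = true := by decide +kernel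
def p14_1_0_8 : pfC (piC [(nat_lit 31465553), (nat_lit 24889148), (nat_lit 20955711), (nat_lit 14481699)] (nat_lit 0)) p14_1_0 (nat_lit 4) (nat_lit 10) (nat_lit 11) = true := by decide +kernel
def p14_1_0_9 : pfC (piC [(nat_lit 31465553), (nat_lit 24889148), (nat_lit 20955711), (nat_lit 14481699)] (nat_lit 0)) p14_1_0 (nat_lit 4) (nat_lit 11) (nat_lit 12) = true := by decide +kernel
def p14_1_0_10 : pfC (piC [(nat_lit 31465553), (nat_lit 24889148), (nat_lit 20955711), (nat_lit 14481699)] (nat_lit 0)) p14_1_0 (nat_lit 4) (nat_lit 12) (nat_lit 13) = true := by decide +kernel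
theorem p14_1_0_T : PfS (PiF n14_1.reverse (nat_lit 0)) p14_1_0 (nat_lit 4) [] 0 :=
  pftab_of (los := [(nat_lit 31465553), (nat_lit 24889148), (nat_lit 20955711), (nat_lit 14481699)]) (by decide +kernel) (hi := (nat_lit 13)) (PfP.trans (PfP.trans (PfP.trans (PfP.trans (PfP.trans (PfP.trans (PfP.trans (PfP.trans (PfP.trans (PfP.trans (pfC_sound p14_1_0_0) (pfC_sound p14_1_0_1)) (pfC_sound p14_1_0_2)) (pfC_sound p14_1_0_3)) (pfC_sound p14_1_0_4)) (pfC_sound p14_1_0_5)) (pfC_sound p14_1_0_6)) (pfC_sound p14_1_0_7)) (pfC_sound p14_1_0_8)) (pfC_sound p14_1_0_9)) (pfC_sound p14_1_0_10)) (by decide +kernel)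

def z14_1_0 : zOK yB14_1 (nat_lit 0) (nat_lit 0) (nat_lit 400) (nat_lit 0) (nat_lit 0) = true := by decide +kernel
def g14_1_0 : gOK yB14_1.x P14_1 (nat_lit 1405) (q14_1 :: r14_1) (nat_lit 0) (nat_lit 0) (nat_lit 1) (nat_lit 400) (nat_lit 0) (nat_lit 11000000) (nat_lit 12712500) (nat_lit 12712500) [(nat_lit 800), (nat_lit 1600)] = true := by decide +kernel
def v14_1_0 : ivC P14_1 s14_1 w14_1 n14_1 (nat_lit 4) (nat_lit 5640) (nat_lit 0) (nat_lit 0) f112_1_0 f120_1_0 (nat_lit 1) (nat_lit 400) f112_1_400 f120_1_400 (nat_lit 0) (nat_lit 0) p14_1_0 = true := by decide +kernel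
def p14_1_1 : PF := (PF.cons (PF.cons (PF.cons (PF.cons (PF.leaf (nat_lit 2053547) (nat_lit 9609217) (nat_lit 57499595) (nat_lit 9609217) [(nat_lit 0), (nat_lit 0), (nat_lit 0), (nat_lit 0)]) (PF.cons (PF.leaf (nat_lit 2328808) (nat_lit 519765) (nat_lit 56935580) (nat_lit 9653466) [(nat_lit 519765), (nat_lit 0), (nat_lit 0), (nat_lit 0)]) PF.nil)) (PF.cons PF.nil PF.nil)) (PF.cons PF.nil PF.nil)) (PF.cons (PF.cons (PF.cons (PF.cons (PF.leaf (nat_lit 3601197) (nat_lit 5263613) (nat_lit 52105895) (nat_lit 9739304) [(nat_lit 0), (nat_lit 0), (nat_lit 0), (nat_lit 5263613)]) (PF.cons PF.nil PF.nil)) (PF.cons PF.nil PF.nil)) (PF.cons PF.nil PF.nil)) (PF.cons PF.nil (PF.cons PF.nil PF.nil))))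

def p14_1_1_0 : pfC (piC [(nat_lit 31465553), (nat_lit 24889148), (nat_lit 20955711), (nat_lit 14481699)] (nat_lit 11332039)) p14_1_1 (nat_lit 4) (nat_lit 0) (nat_lit 1) = true := by decide +kernel
def p14_1_1_1 : pfC (piC [(nat_lit 31465553), (nat_lit 24889148), (nat_lit 20955711), (nat_lit 14481699)] (nat_lit 11332039)) p14_1_1 (nat_lit 4) (nat_lit 1) (nat_lit 2) = true := by decide +kernel
def p14_1_1_2 : pfC (piC [(nat_lit 31465553), (nat_lit 24889148), (nat_lit 20955711), (nat_lit 14481699)] (nat_lit 11332039)) p14_1_1 (nat_lit 4) (nat_lit 2) (nat_lit 3) = true := by decide +kernel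
theorem p14_1_1_T : PfS (PiF n14_1.reverse (nat_lit 11332039)) p14_1_1 (nat_lit 4) [] 0 :=
  pftab_of (los := [(nat_lit 31465553), (nat_lit 24889148), (nat_lit 20955711), (nat_lit 14481699)]) (by decide +kernel) (hi := (nat_lit 3)) (PfP.trans (PfP.trans (pfC_sound p14_1_1_0) (pfC_sound p14_1_1_1)) (pfC_sound p14_1_1_2)) (by decide +kernel)

def z14_1_1 : zOK yB14_1 (nat_lit 1) (nat_lit 400) (nat_lit 600) (nat_lit 11332039) (nat_lit 6558515) = true := by decide +kernel
def g14_1_1 : gOK yB14_1.x P14_1 (nat_lit 1405) (q14_1 :: r14_1) (nat_lit 1) (nat_lit 400) (nat_lit 2) (nat_lit 600) (nat_lit 11000000) (nat_lit 17850000) (nat_lit 12712500) (nat_lit 12712500) [(nat_lit 800), (nat_lit 1250)] = true := by decide +kernel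
def v14_1_1 : ivC P14_1 s14_1 w14_1 n14_1 (nat_lit 4) (nat_lit 5240) (nat_lit 1) (nat_lit 400) f112_1_400 f120_1_400 (nat_lit 2) (nat_lit 600) f112_1_600 f120_1_600 (nat_lit 11332039) (nat_lit 6558515) p14_1_1 = true := by decide +kernel
def p14_1_2 : PF := (PF.cons (PF.cons (PF.cons (PF.cons (PF.leaf (nat_lit 2803189) (nat_lit 16673925) (nat_lit 50434887) (nat_lit 16673925) [(nat_lit 0), (nat_lit 0), (nat_lit 0), (nat_lit 0)]) (PF.cons (PF.leaf (nat_lit 3069027) (nat_lit 519683) (nat_lit 49959530) (nat_lit 16629599) [(nat_lit 519683), (nat_lit 0), (nat_lit 0), (nat_lit 0)]) (PF.cons (PF.leaf (nat_lit 3379276) (nat_lit 562535) (nat_lit 49409481) (nat_lit 16574259) [(nat_lit 562535), (nat_lit 0), (nat_lit 0), (nat_lit 0)]) (PF.cons PF.nil PF.nil)))) (PF.cons (PF.cons (PF.leaf (nat_lit 3298217) (nat_lit 1142010) (nat_lit 49396161) (nat_lit 16570640) [(nat_lit 0), (nat_lit 1142010), (nat_lit 0), (nat_lit 0)]) (PF.cons PF.nil PF.nil)) (PF.cons PF.nil PF.nil)))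 (PF.cons (PF.cons (PF.cons (PF.leaf (nat_lit 3686212) (nat_lit 2485104) (nat_lit 48199931) (nat_lit 16423776) [(nat_lit 0), (nat_lit 0), (nat_lit 2485104), (nat_lit 0)]) (PF.cons PF.nil PF.nil)) (PF.cons PF.nil PF.nil)) (PF.cons PF.nil PF.nil))) (PF.cons (PF.cons (PF.cons (PF.cons (PF.leaf (nat_lit 4234088) (nat_lit 5055310) (nat_lit 45973504) (nat_lit 16079997) [(nat_lit 0), (nat_lit 0), (nat_lit 0), (nat_lit 5055310)]) (PF.cons (PF.leaf (nat_lit 4569103) (nat_lit 635721) (nat_lit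
 45398598) (nat_lit 15994870) [(nat_lit 635721), (nat_lit 0), (nat_lit 0), (nat_lit 5079622)]) PF.nil)) (PF.cons PF.nil PF.nil)) (PF.cons PF.nil PF.nil)) (PF.cons PF.nil (PF.cons PF.nil PF.nil))))

def p14_1_2_0 : pfC (piC [(nat_lit 31465553), (nat_lit 24889148), (nat_lit 20955711), (nat_lit 14481699)] (nat_lit 6558515)) p14_1_2 (nat_lit 4) (nat_lit 0) (nat_lit 1) = true := by decide +kernel
def p14_1_2_1 : pfC (piC [(nat_lit 31465553), (nat_lit 24889148), (nat_lit 20955711), (nat_lit 14481699)] (nat_lit 6558515)) p14_1_2 (nat_lit 4) (nat_lit 1) (nat_lit 2) = true := by decide +kernel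
def p14_1_2_2 : pfC (piC [(nat_lit 31465553), (nat_lit 24889148), (nat_lit 20955711), (nat_lit 14481699)] (nat_lit 6558515)) p14_1_2 (nat_lit 4) (nat_lit 2) (nat_lit 3) = true := by decide +kernel
def p14_1_2_3 : pfC (piC [(nat_lit 31465553), (nat_lit 24889148), (nat_lit 20955711), (nat_lit 14481699)] (nat_lit 6558515)) p14_1_2 (nat_lit 4) (nat_lit 3) (nat_lit 4) = true := by decide +kernel
def p14_1_2_4 : pfC (piC [(nat_lit 31465553), (nat_lit 24889148), (nat_lit 20955711), (nat_lit 14481699)] (nat_lit 6558515)) p14_1_2 (nat_lit 4) (nat_lit 4) (nat_lit 5) = true := by decide +kernel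
def p14_1_2_5 : pfC (piC [(nat_lit 31465553), (nat_lit 24889148), (nat_lit 20955711), (nat_lit 14481699)] (nat_lit 6558515)) p14_1_2 (nat_lit 4) (nat_lit 5) (nat_lit 6) = true := by decide +kernel
def p14_1_2_6 : pfC (piC [(nat_lit 31465553), (nat_lit 24889148), (nat_lit 20955711), (nat_lit 14481699)] (nat_lit 6558515)) p14_1_2 (nat_lit 4) (nat_lit 6) (nat_lit 7) = true := by decide +kernel
theorem p14_1_2_T : PfS (PiF n14_1.reverse (nat_lit 6558515)) p14_1_2 (nat_lit 4) [] 0 :=
  pftab_of (los := [(nat_lit 31465553), (nat_lit 24889148), (nat_lit 20955711), (nat_lit 14481699)]) (by decide +kernel) (hi := (nat_lit 7)) (PfP.trans (PfP.trans (PfP.trans (PfP.trans (PfP.trans (PfP.trans (pfC_sound p14_1_2_0) (pfC_sound p14_1_2_1)) (pfC_sound p14_1_2_2)) (pfC_sound p14_1_2_3)) (pfC_sound p14_1_2_4)) (pfC_sound p14_1_2_5)) (pfC_sound p14_1_2_6)) (by decide +kernel)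

def z14_1_2 : zOK yB14_1 (nat_lit 2) (nat_lit 600) (nat_lit 750) (nat_lit 6558515) (nat_lit 4509858) = true := by decide +kernel
def g14_1_2 : gOK yB14_1.x P14_1 (nat_lit 1405) (q14_1 :: r14_1) (nat_lit 2) (nat_lit 600) (nat_lit 3) (nat_lit 750) (nat_lit 12712500) (nat_lit 12712500) (nat_lit 12712500) (nat_lit 12712500) [(nat_lit 800), (nat_lit 1600)] = true := by decide +kernel
def v14_1_2 : ivC P14_1 s14_1 w14_1 n14_1 (nat_lit 4) (nat_lit 5040) (nat_lit 2) (nat_lit 600) f112_1_600 f120_1_600 (nat_lit 3) (nat_lit 750) f112_1_750 f120_1_750 (nat_lit 6558515) (nat_lit 4509858) p14_1_2 = true := by decide +kernel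
def p14_1_3 : PF := (PF.cons (PF.cons (PF.cons (PF.cons (PF.leaf (nat_lit 3227665) (nat_lit 23282878) (nat_lit 43825934) (nat_lit 23282878) [(nat_lit 0), (nat_lit 0), (nat_lit 0), (nat_lit 0)]) (PF.cons (PF.leaf (nat_lit 3475953) (nat_lit 489820) (nat_lit 43457129) (nat_lit 23161862) [(nat_lit 489820), (nat_lit 0), (nat_lit 0), (nat_lit 0)]) (PF.cons (PF.leaf (nat_lit 3765463) (nat_lit 529598) (nat_lit 43030111) (nat_lit 23019504) [(nat_lit 529598), (nat_lit 0), (nat_lit 0), (nat_lit 0)]) (PF.cons (PF.leaf (nat_lit 4087338) (nat_lit 563768) (nat_lit 42558084) (nat_lit 22859424) [(nat_lit 563768), (nat_lit 0), (nat_lit 0), (nat_lit 0)]) (PF.cons PF.nil PF.nil))))) (PF.cons (PF.cons (PF.leaf (nat_lit 3688726) (nat_lit 1073788) (nat_lit 43020110) (nat_lit 23014914) [(nat_lit 0), (nat_lit 1073788), (nat_lit 0), (nat_lit 0)]) (PF.cons (PF.leaf (nat_lit 3989154) (nat_lit 552429) (nat_lit 42573965) (nat_lit 22863590) [(nat_lit 552429), (nat_lit 1118827), (nat_lit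 0), (nat_lit 0)]) (PF.cons (PF.leaf (nat_lit 4320032) (nat_lit 583413) (nat_lit 42086997) (nat_lit 22695590) [(nat_lit 583413), (nat_lit 1159398), (nat_lit 0), (nat_lit 0)]) (PF.cons PF.nil PF.nil)))) (PF.cons (PF.cons (PF.leaf (nat_lit 4216361)
 (nat_lit 1149059) (nat_lit 42108795) (nat_lit 22701898) [(nat_lit 0), (nat_lit 1149059), (nat_lit 0), (nat_lit 0)]) (PF.cons PF.nil PF.nil)) (PF.cons PF.nil (PF.cons PF.nil PF.nil))))) (PF.cons (PF.cons (PF.cons (PF.leaf (nat_lit 4046574) (nat_lit 2326071) (nat_lit 42092086) (nat_lit 22690655) [(nat_lit 0), (nat_lit 0), (nat_lit 2326071), (nat_lit 0)]) (PF.cons (PF.leaf (nat_lit 4356077) (nat_lit 577723) (nat_lit 41633795) (nat_lit 22529978) [(nat_lit 577723), (nat_lit 0), (nat_lit 2367315), (nat_lit 0)]) (PF.cons (PF.leaf (nat_lit 4693943) (nat_lit 605619) (nat_lit 41138520) (nat_lit 22353521) [(nat_lit 605619), (nat_lit 0), (nat_lit 2405531), (nat_lit 0)]) (PF.cons PF.nil PF.nil)))) (PF.cons (PF.cons (PF.leaf (nat_lit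 4584674) (nat_lit 1185062) (nat_lit 41164664) (nat_lit 22361641) [(nat_lit 0), (nat_lit 1185062), (nat_lit 2397443), (nat_lit 0)]) (PF.cons PF.nil PF.nil)) (PF.cons PF.nil PF.nil))) (PF.cons (PF.cons (PF.cons (PF.leaf (nat_lit 4950255) (nat_lit 2433883) (nat_lit 40227260) (nat_lit 22013785) [(nat_lit 0), (nat_lit 0), (nat_lit 2433883), (nat_lit 0)]) (PF.cons PF.nil PF.nil)) (PF.cons PF.nil PF.nil)) PF.nil))) (PF.cons (PF.cons (PF.cons (PF.cons (PF.leaf (nat_lit
 4548687) (nat_lit 4700722) (nat_lit 40362672) (nat_lit 22045417) [(nat_lit 0), (nat_lit 0), (nat_lit 0), (nat_lit 4700722)]) (PF.cons (PF.leaf (nat_lit 4860895) (nat_lit 595454) (nat_lit 39912430) (nat_lit 21879162) [(nat_lit 595454), (nat_lit 0), (nat_lit 0), (nat_lit 4721766)]) (PF.cons (PF.leaf (nat_lit 5199556) (nat_lit 620941) (nat_lit 39428826) (nat_lit 21698048) [(nat_lit 620941), (nat_lit 0), (nat_lit 0), (nat_lit 4740054)]) (PF.cons PF.nil PF.nil)))) (PF.cons (PF.cons (PF.leaf (nat_lit 5086605)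 (nat_lit 1209760) (nat_lit 39456636) (nat_lit 21707323) [(nat_lit 0), (nat_lit 1209760), (nat_lit 0), (nat_lit 4735092)]) (PF.cons PF.nil PF.nil)) (PF.cons PF.nil PF.nil))) (PF.cons (PF.cons (PF.cons (PF.leaf (nat_lit 5442092) (nat_lit 2451877) (nat_lit 38556464) (nat_lit 21357735) [(nat_lit 0), (nat_lit 0), (nat_lit 2451877), (nat_lit 4742734)]) (PF.cons PF.nil PF.nil)) PF.nil) PF.nil)) (PF.cons PF.nil (PF.cons PF.nil PF.nil))))

def p14_1_3_0 : pfC (piC [(nat_lit 31465553), (nat_lit 24889148), (nat_lit 20955711), (nat_lit 14481699)] (nat_lit 4509858)) p14_1_3 (nat_lit 4) (nat_lit 0) (nat_lit 1) = true := by decide +kernel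
def p14_1_3_1 : pfC (piC [(nat_lit 31465553), (nat_lit 24889148), (nat_lit 20955711), (nat_lit 14481699)] (nat_lit 4509858)) p14_1_3 (nat_lit 4) (nat_lit 1) (nat_lit 2) = true := by decide +kernel
def p14_1_3_2 : pfC (piC [(nat_lit 31465553), (nat_lit 24889148), (nat_lit 20955711), (nat_lit 14481699)] (nat_lit 4509858)) p14_1_3 (nat_lit 4) (nat_lit 2) (nat_lit 3) = true := by decide +kernel
def p14_1_3_3 : pfC (piC [(nat_lit 31465553), (nat_lit 24889148), (nat_lit 20955711), (nat_lit 14481699)] (nat_lit 4509858)) p14_1_3 (nat_lit 4) (nat_lit 3) (nat_lit 4) = true := by decide +kernel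
def p14_1_3_4 : pfC (piC [(nat_lit 31465553), (nat_lit 24889148), (nat_lit 20955711), (nat_lit 14481699)] (nat_lit 4509858)) p14_1_3 (nat_lit 4) (nat_lit 4) (nat_lit 5) = true := by decide +kernel
def p14_1_3_5 : pfC (piC [(nat_lit 31465553), (nat_lit 24889148), (nat_lit 20955711), (nat_lit 14481699)] (nat_lit 4509858)) p14_1_3 (nat_lit 4) (nat_lit 5) (nat_lit 6) = true := by decide +kernel
def p14_1_3_6 : pfC (piC [(nat_lit 31465553), (nat_lit 24889148), (nat_lit 20955711), (nat_lit 14481699)] (nat_lit 4509858)) p14_1_3 (nat_lit 4) (nat_lit 6) (nat_lit 7) = true := by decide +kernel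
def p14_1_3_7 : pfC (piC [(nat_lit 31465553), (nat_lit 24889148), (nat_lit 20955711), (nat_lit 14481699)] (nat_lit 4509858)) p14_1_3 (nat_lit 4) (nat_lit 7) (nat_lit 8) = true := by decide +kernel
def p14_1_3_8 : pfC (piC [(nat_lit 31465553), (nat_lit 24889148), (nat_lit 20955711), (nat_lit 14481699)] (nat_lit 4509858)) p14_1_3 (nat_lit 4) (nat_lit 8) (nat_lit 9) = true := by decide +kernel
def p14_1_3_9 : pfC (piC [(nat_lit 31465553), (nat_lit 24889148), (nat_lit 20955711), (nat_lit 14481699)] (nat_lit 4509858)) p14_1_3 (nat_lit 4) (nat_lit 9) (nat_lit 10) = true := by decide +kernel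
def p14_1_3_10 : pfC (piC [(nat_lit 31465553), (nat_lit 24889148), (nat_lit 20955711), (nat_lit 14481699)] (nat_lit 4509858)) p14_1_3 (nat_lit 4) (nat_lit 10) (nat_lit 11) = true := by decide +kernel
def p14_1_3_11 : pfC (piC [(nat_lit 31465553), (nat_lit 24889148), (nat_lit 20955711), (nat_lit 14481699)] (nat_lit 4509858)) p14_1_3 (nat_lit 4) (nat_lit 11) (nat_lit 12) = true := by decide +kernel
def p14_1_3_12 : pfC (piC [(nat_lit 31465553), (nat_lit 24889148), (nat_lit 20955711), (nat_lit 14481699)] (nat_lit 4509858)) p14_1_3 (nat_lit 4) (nat_lit 12) (nat_lit 13) = true := by decide +kernel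
def p14_1_3_13 : pfC (piC [(nat_lit 31465553), (nat_lit 24889148), (nat_lit 20955711), (nat_lit 14481699)] (nat_lit 4509858)) p14_1_3 (nat_lit 4) (nat_lit 13) (nat_lit 14) = true := by decide +kernel
def p14_1_3_14 : pfC (piC [(nat_lit 31465553), (nat_lit 24889148), (nat_lit 20955711), (nat_lit 14481699)] (nat_lit 4509858)) p14_1_3 (nat_lit 4) (nat_lit 14) (nat_lit 15) = true := by decide +kernel
def p14_1_3_15 : pfC (piC [(nat_lit 31465553), (nat_lit 24889148), (nat_lit 20955711), (nat_lit 14481699)] (nat_lit 4509858)) p14_1_3 (nat_lit 4) (nat_lit 15) (nat_lit 16) = true := by decide +kernel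
def p14_1_3_16 : pfC (piC [(nat_lit 31465553), (nat_lit 24889148), (nat_lit 20955711), (nat_lit 14481699)] (nat_lit 4509858)) p14_1_3 (nat_lit 4) (nat_lit 16) (nat_lit 17) = true := by decide +kernel
def p14_1_3_17 : pfC (piC [(nat_lit 31465553), (nat_lit 24889148), (nat_lit 20955711), (nat_lit 14481699)] (nat_lit 4509858)) p14_1_3 (nat_lit 4) (nat_lit 17) (nat_lit 18) = true := by decide +kernel
theorem p14_1_3_T : PfS (PiF n14_1.reverse (nat_lit 4509858)) p14_1_3 (nat_lit 4) [] 0 :=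
  pftab_of (los := [(nat_lit 31465553), (nat_lit 24889148), (nat_lit 20955711), (nat_lit 14481699)]) (by decide +kernel) (hi := (nat_lit 18)) (PfP.trans (PfP.trans (PfP.trans (PfP.trans (PfP.trans (PfP.trans (PfP.trans (PfP.trans (PfP.trans (PfP.trans (PfP.trans (PfP.trans (PfP.trans (PfP.trans (PfP.trans (PfP.trans (PfP.trans (pfC_sound p14_1_3_0) (pfC_sound p14_1_3_1)) (pfC_sound p14_1_3_2)) (pfC_sound p14_1_3_3)) (pfC_sound p14_1_3_4)) (pfC_sound p14_1_3_5)) (pfC_sound p14_1_3_6)) (pfC_sound p14_1_3_7)) (pfC_sound p14_1_3_8)) (pfC_sound p14_1_3_9)) (pfC_sound p14_1_3_10)) (pfC_sound p14_1_3_11)) (pfC_sound p14_1_3_12)) (pfC_sound p14_1_3_13)) (pfC_sound p14_1_3_14)) (pfC_sound p14_1_3_15)) (pfC_sound p14_1_3_16)) (pfC_sound p14_1_3_17)) (by decide +kernel)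

def z14_1_3 : zOK yB14_1 (nat_lit 3) (nat_lit 750) (nat_lit 975) (nat_lit 4509858) (nat_lit 1815220) = true := by decide +kernel
def g14_1_3 : gOK yB14_1.x P14_1 (nat_lit 1405) (q14_1 :: r14_1) (nat_lit 3) (nat_lit 750) (nat_lit 4) (nat_lit 975) (nat_lit 12712500) (nat_lit 12712500) (nat_lit 12712500) (nat_lit 12712500) [(nat_lit 800)] = true := by decide +kernel
def v14_1_3 : ivC P14_1 s14_1 w14_1 n14_1 (nat_lit 4) (nat_lit 4890) (nat_lit 3) (nat_lit 750) f112_1_750 f120_1_750 (nat_lit 4) (nat_lit 975) f112_1_975 f120_1_975 (nat_lit 4509858) (nat_lit 1815220) p14_1_3 = true := by decide +kernel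
/-! box `yB14_2` -/

def P14_2 : BQ := ⟨(nat_lit 8), (nat_lit 4), (nat_lit 4), (nat_lit 0), (nat_lit 8), (nat_lit 580), (nat_lit 600), (nat_lit 120), [(nat_lit 200), (nat_lit 300), (nat_lit 450), (nat_lit 800)], (nat_lit 19568000), (nat_lit 16000000), (nat_lit 16000000000)⟩
def q14_2 : PC := ⟨(nat_lit 1000), [(nat_lit 120000), (nat_lit 200000), (nat_lit 300000), (nat_lit 450000), (nat_lit 800000)], (nat_lit 340282367000166625996085689103316680705000000), (nat_lit 15980432000000), (nat_lit 15980432000000), (nat_lit 10000000)⟩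
def r14_2 : List PC := [⟨(nat_lit 1282), [(nat_lit 120425), (nat_lit 200774), (nat_lit 301286), (nat_lit 452205), (nat_lit 799536)], (nat_lit 341999091541788156993009918420377766888164743), (nat_lit 16284700094400), (nat_lit 16296051203520), (nat_lit 10049000)⟩]
def s14_2 : List PB := [⟨(nat_lit 25640), (nat_lit 1926800000000), [(nat_lit 200774), (nat_lit 301286), (nat_lit 452205), (nat_lit 799536)], (nat_lit 341999091541788156993009918420377766888164743), (nat_lit 1142184606937024), (nat_lit 1142195958046144), (nat_lit 45120)⟩]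
def n14_2 : List KN := [⟨(nat_lit 800), (nat_lit 450), (nat_lit 14146940), (nat_lit 10671138)⟩, ⟨(nat_lit 450), (nat_lit 300), (nat_lit 21286319), (nat_lit 14146940)⟩, ⟨(nat_lit 300), (nat_lit 200), (nat_lit 26882477), (nat_lit 21286319)⟩, ⟨(nat_lit 200), (nat_lit 120), (nat_lit 33524074), (nat_lit 26882477)⟩]
def w14_2 : List ℕ := [(nat_lit 45120)]
def par14_2 : parC yB14_2 P14_2 s14_2 r14_2 q14_2 n14_2 w14_2 = true := by decide +kernel

def p14_2_0 : PF := (PF.cons (PF.cons (PF.cons (PF.cons (PF.leaf (nat_lit 0) (nat_lit 67108813) (nat_lit 67108813) (nat_lit 0) [(nat_lit 0), (nat_lit 0), (nat_lit 0), (nat_lit 0)]) (PF.cons (PF.leaf (nat_lit 79899) (nat_lit 159339) (nat_lit 66949473) (nat_lit 0) [(nat_lit 159339), (nat_lit 0), (nat_lit 0), (nat_lit 0)]) (PF.cons (PF.leaf (nat_lit 207415) (nat_lit 199835) (nat_lit 66709142) (nat_lit 0) [(nat_lit 199835), (nat_lit 0), (nat_lit 0), (nat_lit 0)]) (PF.cons PF.nil PF.nil)))) (PF.cons (PF.cons (PF.leaf (nat_lit 233294)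 (nat_lit 538685) (nat_lit 66570127) (nat_lit 0) [(nat_lit 0), (nat_lit 538685), (nat_lit 0), (nat_lit 0)]) (PF.cons (PF.leaf (nat_lit 383771) (nat_lit 238919) (nat_lit 66270864) (nat_lit 0) [(nat_lit 238919), (nat_lit 599028), (nat_lit 0), (nat_lit 0)]) PF.nil)) (PF.cons PF.nil PF.nil))) (PF.cons (PF.cons (PF.cons (PF.leaf (nat_lit 640420) (nat_lit 1886046) (nat_lit 65222766) (nat_lit 0) [(nat_lit 0), (nat_lit 0), (nat_lit 1886046), (nat_lit 0)]) (PF.cons (PF.leaf (nat_lit 823835) (nat_lit 299757) (nat_lit 64845964) (nat_lit 0) [(nat_lit 299757), (nat_lit 0), (nat_lit 1963090), (nat_lit 0)]) PF.nil)) (PF.cons PF.nil PF.nil)) (PF.cons PF.nil PF.nil))) (PF.cons (PF.cons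
 (PF.cons (PF.cons (PF.leaf (nat_lit 1358678) (nat_lit 5177003) (nat_lit 61931809) (nat_lit 0) [(nat_lit 0), (nat_lit 0), (nat_lit 0), (nat_lit 5177003)]) (PF.cons (PF.leaf (nat_lit 1566315) (nat_lit 356719) (nat_lit 61506738) (nat_lit 0) [(nat_lit 356719), (nat_lit 0), (nat_lit 0), (nat_lit 5245355)]) (PF.cons (PF.leaf (nat_lit 1813325) (nat_lit 390949) (nat_lit 61007164) (nat_lit 0) [(nat_lit 390949), (nat_lit 0), (nat_lit 0), (nat_lit 5319748)]) (PF.cons PF.nil (PF.cons PF.nil PF.nil))))) (PF.cons (PF.cons (PF.leaf (nat_lit 1803477) (nat_lit 910074) (nat_lit 60863290) (nat_lit 0) [(nat_lit 0), (nat_lit 910074), (nat_lit 0), (nat_lit 5335447)]) (PF.cons (PF.leaf (nat_lit 2066307) (nat_lit 417878) (nat_lit 60327739) (nat_lit 0) [(nat_lit 417878), (nat_lit 955981), (nat_lit 0), (nat_lit 5407213)]) (PF.cons PF.nil (PF.cons PF.nil PF.nil)))) (PF.cons (PF.cons (PF.leaf (nat_lit 2328633) (nat_lit 999395) (nat_lit 59621351) (nat_lit 0) [(nat_lit 0), (nat_lit 999395),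 (nat_lit 0), (nat_lit 5488670)]) (PF.cons PF.nil PF.nil)) PF.nil))) (PF.cons (PF.cons (PF.cons (PF.leaf (nat_lit 2306307) (nat_lit 2457352) (nat_lit 59137228) (nat_lit 0) [(nat_lit 0), (nat_lit 0), (nat_lit 2457352),
 (nat_lit 5514232)]) (PF.cons (PF.leaf (nat_lit 2586897) (nat_lit 456603) (nat_lit 58567003) (nat_lit 0) [(nat_lit 456603), (nat_lit 0), (nat_lit 2511316), (nat_lit 5573888)]) PF.nil)) (PF.cons PF.nil PF.nil)) (PF.cons PF.nil PF.nil))) (PF.cons (PF.cons (PF.cons (PF.cons (PF.leaf (nat_lit 3044218) (nat_lit 5683688) (nat_lit 55741436) (nat_lit 0) [(nat_lit 0), (nat_lit 0), (nat_lit 0), (nat_lit 5683688)]) (PF.cons (PF.leaf (nat_lit 3333047) (nat_lit 489233) (nat_lit 55171977) (nat_lit 0) [(nat_lit 489233), (nat_lit 0), (nat_lit 0), (nat_lit 5723800)]) (PF.cons PF.nil (PF.cons PF.nil PF.nil)))) (PF.cons (PF.cons (PF.leaf (nat_lit 3603152) (nat_lit 1128579) (nat_lit 54450012) (nat_lit 0) [(nat_lit 0), (nat_lit 1128579), (nat_lit 0), (nat_lit 5765110)])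 (PF.cons PF.nil PF.nil)) (PF.cons PF.nil PF.nil))) (PF.cons (PF.cons (PF.cons (PF.leaf (nat_lit 4117676) (nat_lit 2743562) (nat_lit 52710667) (nat_lit 0) [(nat_lit 0), (nat_lit 0), (nat_lit 2743562), (nat_lit 5827291)]) (PF.cons PF.nil PF.nil)) PF.nil) PF.nil)) (PF.cons PF.nil (PF.cons PF.nil (PF.cons PF.nil PF.nil))))))

def p14_2_0_0 : pfC (piC [(nat_lit 33524074), (nat_lit 26882477), (nat_lit 21286319), (nat_lit 14146940)] (nat_lit 0)) p14_2_0 (nat_lit 4) (nat_lit 0) (nat_lit 2) = true := by decide +kernel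
def p14_2_0_1 : pfC (piC [(nat_lit 33524074), (nat_lit 26882477), (nat_lit 21286319), (nat_lit 14146940)] (nat_lit 0)) p14_2_0 (nat_lit 4) (nat_lit 2) (nat_lit 3) = true := by decide +kernel
def p14_2_0_2 : pfC (piC [(nat_lit 33524074), (nat_lit 26882477), (nat_lit 21286319), (nat_lit 14146940)] (nat_lit 0)) p14_2_0 (nat_lit 4) (nat_lit 3) (nat_lit 4) = true := by decide +kernel
def p14_2_0_3 : pfC (piC [(nat_lit 33524074), (nat_lit 26882477), (nat_lit 21286319), (nat_lit 14146940)] (nat_lit 0)) p14_2_0 (nat_lit 4) (nat_lit 4) (nat_lit 5) = true := by decide +kernel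
def p14_2_0_4 : pfC (piC [(nat_lit 33524074), (nat_lit 26882477), (nat_lit 21286319), (nat_lit 14146940)] (nat_lit 0)) p14_2_0 (nat_lit 4) (nat_lit 5) (nat_lit 6) = true := by decide +kernel
def p14_2_0_5 : pfC (piC [(nat_lit 33524074), (nat_lit 26882477), (nat_lit 21286319), (nat_lit 14146940)] (nat_lit 0)) p14_2_0 (nat_lit 4) (nat_lit 6) (nat_lit 7) = true := by decide +kernel
def p14_2_0_6 : pfC (piC [(nat_lit 33524074), (nat_lit 26882477), (nat_lit 21286319), (nat_lit 14146940)] (nat_lit 0)) p14_2_0 (nat_lit 4) (nat_lit 7) (nat_lit 8) = true := by decide +kernel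
def p14_2_0_7 : pfC (piC [(nat_lit 33524074), (nat_lit 26882477), (nat_lit 21286319), (nat_lit 14146940)] (nat_lit 0)) p14_2_0 (nat_lit 4) (nat_lit 8) (nat_lit 9) = true := by decide +kernel
def p14_2_0_8 : pfC (piC [(nat_lit 33524074), (nat_lit 26882477), (nat_lit 21286319), (nat_lit 14146940)] (nat_lit 0)) p14_2_0 (nat_lit 4) (nat_lit 9) (nat_lit 10) = true := by decide +kernel
def p14_2_0_9 : pfC (piC [(nat_lit 33524074), (nat_lit 26882477), (nat_lit 21286319), (nat_lit 14146940)] (nat_lit 0)) p14_2_0 (nat_lit 4) (nat_lit 10) (nat_lit 11) = true := by decide +kernel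
def p14_2_0_10 : pfC (piC [(nat_lit 33524074), (nat_lit 26882477), (nat_lit 21286319), (nat_lit 14146940)] (nat_lit 0)) p14_2_0 (nat_lit 4) (nat_lit 11) (nat_lit 12) = true := by decide +kernel
def p14_2_0_11 : pfC (piC [(nat_lit 33524074), (nat_lit 26882477), (nat_lit 21286319), (nat_lit 14146940)] (nat_lit 0)) p14_2_0 (nat_lit 4) (nat_lit 12) (nat_lit 13) = true := by decide +kernel
def p14_2_0_12 : pfC (piC [(nat_lit 33524074), (nat_lit 26882477), (nat_lit 21286319), (nat_lit 14146940)] (nat_lit 0)) p14_2_0 (nat_lit 4) (nat_lit 13) (nat_lit 14) = true := by decide +kernel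
def p14_2_0_13 : pfC (piC [(nat_lit 33524074), (nat_lit 26882477), (nat_lit 21286319), (nat_lit 14146940)] (nat_lit 0)) p14_2_0 (nat_lit 4) (nat_lit 14) (nat_lit 15) = true := by decide +kernel
def p14_2_0_14 : pfC (piC [(nat_lit 33524074), (nat_lit 26882477), (nat_lit 21286319), (nat_lit 14146940)] (nat_lit 0)) p14_2_0 (nat_lit 4) (nat_lit 15) (nat_lit 16) = true := by decide +kernel
def p14_2_0_15 : pfC (piC [(nat_lit 33524074), (nat_lit 26882477), (nat_lit 21286319), (nat_lit 14146940)] (nat_lit 0)) p14_2_0 (nat_lit 4) (nat_lit 16) (nat_lit 17) = true := by decide +kernel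
def p14_2_0_16 : pfC (piC [(nat_lit 33524074), (nat_lit 26882477), (nat_lit 21286319), (nat_lit 14146940)] (nat_lit 0)) p14_2_0 (nat_lit 4) (nat_lit 17) (nat_lit 18) = true := by decide +kernel
def p14_2_0_17 : pfC (piC [(nat_lit 33524074), (nat_lit 26882477), (nat_lit 21286319), (nat_lit 14146940)] (nat_lit 0)) p14_2_0 (nat_lit 4) (nat_lit 18) (nat_lit 19) = true := by decide +kernel
theorem p14_2_0_T : PfS (PiF n14_2.reverse (nat_lit 0)) p14_2_0 (nat_lit 4) [] 0 :=
  pftab_of (los := [(nat_lit 33524074), (nat_lit 26882477), (nat_lit 21286319), (nat_lit 14146940)]) (by decide +kernel) (hi := (nat_lit 19)) (PfP.trans (PfP.trans (PfP.trans (PfP.trans (PfP.trans (PfP.trans (PfP.trans (PfP.trans (PfP.trans (PfP.trans (PfP.trans (PfP.trans (PfP.trans (PfP.trans (PfP.trans (PfP.trans (PfP.trans (pfC_sound p14_2_0_0) (pfC_sound p14_2_0_1)) (pfC_sound p14_2_0_2)) (pfC_sound p14_2_0_3)) (pfC_sound p14_2_0_4)) (pfC_sound p14_2_0_5)) (pfC_sound p14_2_0_6)) (pfC_sound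 p14_2_0_7)) (pfC_sound p14_2_0_8)) (pfC_sound p14_2_0_9)) (pfC_sound p14_2_0_10)) (pfC_sound p14_2_0_11)) (pfC_sound p14_2_0_12)) (pfC_sound p14_2_0_13)) (pfC_sound p14_2_0_14)) (pfC_sound p14_2_0_15)) (pfC_sound p14_2_0_16)) (pfC_sound p14_2_0_17)) (by decide +kernel)

def z14_2_0 : zOK yB14_2 (nat_lit 0) (nat_lit 0) (nat_lit 400) (nat_lit 0) (nat_lit 0) = true := by decide +kernel
def g14_2_0 : gOK yB14_2.x P14_2 (nat_lit 1412) (q14_2 :: r14_2) (nat_lit 0) (nat_lit 0) (nat_lit 1) (nat_lit 400) (nat_lit 0) (nat_lit 11000000) (nat_lit 12712500) (nat_lit 12712500) [(nat_lit 800), (nat_lit 1600)] = true := by decide +kernel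
def v14_2_0 : ivC P14_2 s14_2 w14_2 n14_2 (nat_lit 4) (nat_lit 5620) (nat_lit 0) (nat_lit 0) f112_1_0 f120_1_0 (nat_lit 1) (nat_lit 400) f112_1_400 f120_1_400 (nat_lit 0) (nat_lit 0) p14_2_0 = true := by decide +kernel
def p14_2_1 : PF := (PF.cons (PF.cons (PF.cons (PF.cons (PF.leaf (nat_lit 2076278) (nat_lit 9780742) (nat_lit 57328070) (nat_lit 9780742) [(nat_lit 0), (nat_lit 0), (nat_lit 0), (nat_lit 0)]) (PF.cons (PF.leaf (nat_lit 2290412) (nat_lit 383422) (nat_lit 56912653) (nat_lit 9812736) [(nat_lit 383422), (nat_lit 0), (nat_lit 0), (nat_lit 0)]) (PF.cons PF.nil (PF.cons PF.nil PF.nil)))) (PF.cons (PF.cons (PF.leaf (nat_lit 2527632) (nat_lit 965816) (nat_lit 56291096) (nat_lit 9851899) [(nat_lit 0), (nat_lit 965816), (nat_lit 0), (nat_lit 0)]) (PF.cons PF.nil PF.nil)) (PF.cons PF.nil PF.nil))) (PF.cons (PF.cons (PF.cons (PF.leaf (nat_lit 3013796) (nat_lit 2539873) (nat_lit 54658079) (nat_lit 9910860) [(nat_lit 0), (nat_lit 0), (nat_lit 2539873), (nat_lit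 0)]) (PF.cons PF.nil PF.nil)) (PF.cons PF.nil PF.nil)) (PF.cons PF.nil PF.nil))) (PF.cons (PF.cons (PF.cons (PF.cons (PF.leaf (nat_lit 3699577) (nat_lit 5685273) (nat_lit 51542248) (nat_lit 9881290) [(nat_lit 0), (nat_lit 0), (nat_lit 0), (nat_lit 5685273)]) (PF.cons (PF.leaf (nat_lit 3984161) (nat_lit 498996) (nat_lit 51016134) (nat_lit 9882817) [(nat_lit 498996), (nat_lit 0), (nat_lit 0), (nat_lit 5710864)]) PF.nil)) (PF.cons PF.nil PF.nil)) (PF.cons
 PF.nil PF.nil)) (PF.cons PF.nil (PF.cons PF.nil PF.nil))))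

def p14_2_1_0 : pfC (piC [(nat_lit 33524074), (nat_lit 26882477), (nat_lit 21286319), (nat_lit 14146940)] (nat_lit 11086628)) p14_2_1 (nat_lit 4) (nat_lit 0) (nat_lit 1) = true := by decide +kernel
def p14_2_1_1 : pfC (piC [(nat_lit 33524074), (nat_lit 26882477), (nat_lit 21286319), (nat_lit 14146940)] (nat_lit 11086628)) p14_2_1 (nat_lit 4) (nat_lit 1) (nat_lit 2) = true := by decide +kernel
def p14_2_1_2 : pfC (piC [(nat_lit 33524074), (nat_lit 26882477), (nat_lit 21286319), (nat_lit 14146940)] (nat_lit 11086628)) p14_2_1 (nat_lit 4) (nat_lit 2) (nat_lit 3) = true := by decide +kernel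
def p14_2_1_3 : pfC (piC [(nat_lit 33524074), (nat_lit 26882477), (nat_lit 21286319), (nat_lit 14146940)] (nat_lit 11086628)) p14_2_1 (nat_lit 4) (nat_lit 3) (nat_lit 4) = true := by decide +kernel
def p14_2_1_4 : pfC (piC [(nat_lit 33524074), (nat_lit 26882477), (nat_lit 21286319), (nat_lit 14146940)] (nat_lit 11086628)) p14_2_1 (nat_lit 4) (nat_lit 4) (nat_lit 5) = true := by decide +kernel
def p14_2_1_5 : pfC (piC [(nat_lit 33524074), (nat_lit 26882477), (nat_lit 21286319), (nat_lit 14146940)] (nat_lit 11086628)) p14_2_1 (nat_lit 4) (nat_lit 5) (nat_lit 6) = true := by decide +kernel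
theorem p14_2_1_T : PfS (PiF n14_2.reverse (nat_lit 11086628)) p14_2_1 (nat_lit 4) [] 0 :=
  pftab_of (los := [(nat_lit 33524074), (nat_lit 26882477), (nat_lit 21286319), (nat_lit 14146940)]) (by decide +kernel) (hi := (nat_lit 6)) (PfP.trans (PfP.trans (PfP.trans (PfP.trans (PfP.trans (pfC_sound p14_2_1_0) (pfC_sound p14_2_1_1)) (pfC_sound p14_2_1_2)) (pfC_sound p14_2_1_3)) (pfC_sound p14_2_1_4)) (pfC_sound p14_2_1_5)) (by decide +kernel)

def z14_2_1 : zOK yB14_2 (nat_lit 1) (nat_lit 400) (nat_lit 600) (nat_lit 11086628) (nat_lit 6597126) = true := by decide +kernel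
def g14_2_1 : gOK yB14_2.x P14_2 (nat_lit 1412) (q14_2 :: r14_2) (nat_lit 1) (nat_lit 400) (nat_lit 2) (nat_lit 600) (nat_lit 11000000) (nat_lit 17850000) (nat_lit 12712500) (nat_lit 12712500) [(nat_lit 800), (nat_lit 1130)] = true := by decide +kernel
def v14_2_1 : ivC P14_2 s14_2 w14_2 n14_2 (nat_lit 4) (nat_lit 5220) (nat_lit 1) (nat_lit 400) f112_1_400 f120_1_400 (nat_lit 2) (nat_lit 600) f112_1_600 f120_1_600 (nat_lit 11086628) (nat_lit 6597126) p14_2_1 = true := by decide +kernel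
def p14_2_2 : PF := (PF.cons (PF.cons (PF.cons (PF.cons (PF.leaf (nat_lit 2802438) (nat_lit 16664826) (nat_lit 50443986) (nat_lit 16664826) [(nat_lit 0), (nat_lit 0), (nat_lit 0), (nat_lit 0)]) (PF.cons (PF.leaf (nat_lit 3009876) (nat_lit 383574) (nat_lit 50092596) (nat_lit 16632642) [(nat_lit 383574), (nat_lit 0), (nat_lit 0), (nat_lit 0)]) (PF.cons (PF.leaf (nat_lit 3253334) (nat_lit 416030) (nat_lit 49683808) (nat_lit 16592943) [(nat_lit 416030), (nat_lit 0), (nat_lit 0), (nat_lit 0)]) (PF.cons PF.nil PF.nil)))) (PF.cons (PF.cons (PF.leaf (nat_lit 3235121) (nat_lit 959684) (nat_lit 49569467) (nat_lit 16579661) [(nat_lit 0), (nat_lit 959684), (nat_lit 0), (nat_lit 0)]) (PF.cons (PF.leaf (nat_lit 3490602) (nat_lit 439055) (nat_lit 49136885) (nat_lit 16534364) [(nat_lit 439055), (nat_lit 998507), (nat_lit 0), (nat_lit 0)]) PF.nil)) (PF.cons PF.nil PF.nil))) (PF.cons (PF.cons (PF.cons (PF.leaf (nat_lit 3685741) (nat_lit 2486032) (nat_lit 48207692) (nat_lit 16415088)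 [(nat_lit 0), (nat_lit 0), (nat_lit 2486032), (nat_lit 0)]) (PF.cons PF.nil PF.nil)) (PF.cons PF.nil PF.nil)) (PF.cons PF.nil PF.nil))) (PF.cons (PF.cons (PF.cons (PF.cons (PF.leaf (nat_lit 4303142) (nat_lit 5450637) (nat_lit 45645337)
 (nat_lit 16012838) [(nat_lit 0), (nat_lit 0), (nat_lit 0), (nat_lit 5450637)]) (PF.cons (PF.leaf (nat_lit 4572688) (nat_lit 485094) (nat_lit 45209318) (nat_lit 15947518) [(nat_lit 485094), (nat_lit 0), (nat_lit 0), (nat_lit 5466881)]) (PF.cons PF.nil PF.nil))) (PF.cons (PF.cons (PF.leaf (nat_lit 4815757) (nat_lit 1106482) (nat_lit 44661461) (nat_lit 15860664) [(nat_lit 0), (nat_lit 1106482), (nat_lit 0), (nat_lit 5480204)]) PF.nil) PF.nil)) (PF.cons PF.nil PF.nil)) (PF.cons PF.nil (PF.cons PF.nil PF.nil))))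

def p14_2_2_0 : pfC (piC [(nat_lit 33524074), (nat_lit 26882477), (nat_lit 21286319), (nat_lit 14146940)] (nat_lit 6597126)) p14_2_2 (nat_lit 4) (nat_lit 0) (nat_lit 1) = true := by decide +kernel
def p14_2_2_1 : pfC (piC [(nat_lit 33524074), (nat_lit 26882477), (nat_lit 21286319), (nat_lit 14146940)] (nat_lit 6597126)) p14_2_2 (nat_lit 4) (nat_lit 1) (nat_lit 2) = true := by decide +kernel
def p14_2_2_2 : pfC (piC [(nat_lit 33524074), (nat_lit 26882477), (nat_lit 21286319), (nat_lit 14146940)] (nat_lit 6597126)) p14_2_2 (nat_lit 4) (nat_lit 2) (nat_lit 3) = true := by decide +kernel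
def p14_2_2_3 : pfC (piC [(nat_lit 33524074), (nat_lit 26882477), (nat_lit 21286319), (nat_lit 14146940)] (nat_lit 6597126)) p14_2_2 (nat_lit 4) (nat_lit 3) (nat_lit 4) = true := by decide +kernel
def p14_2_2_4 : pfC (piC [(nat_lit 33524074), (nat_lit 26882477), (nat_lit 21286319), (nat_lit 14146940)] (nat_lit 6597126)) p14_2_2 (nat_lit 4) (nat_lit 4) (nat_lit 5) = true := by decide +kernel
def p14_2_2_5 : pfC (piC [(nat_lit 33524074), (nat_lit 26882477), (nat_lit 21286319), (nat_lit 14146940)] (nat_lit 6597126)) p14_2_2 (nat_lit 4) (nat_lit 5) (nat_lit 6) = true := by decide +kernel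
def p14_2_2_6 : pfC (piC [(nat_lit 33524074), (nat_lit 26882477), (nat_lit 21286319), (nat_lit 14146940)] (nat_lit 6597126)) p14_2_2 (nat_lit 4) (nat_lit 6) (nat_lit 7) = true := by decide +kernel
def p14_2_2_7 : pfC (piC [(nat_lit 33524074), (nat_lit 26882477), (nat_lit 21286319), (nat_lit 14146940)] (nat_lit 6597126)) p14_2_2 (nat_lit 4) (nat_lit 7) (nat_lit 8) = true := by decide +kernel
def p14_2_2_8 : pfC (piC [(nat_lit 33524074), (nat_lit 26882477), (nat_lit 21286319), (nat_lit 14146940)] (nat_lit 6597126)) p14_2_2 (nat_lit 4) (nat_lit 8) (nat_lit 9) = true := by decide +kernel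
theorem p14_2_2_T : PfS (PiF n14_2.reverse (nat_lit 6597126)) p14_2_2 (nat_lit 4) [] 0 :=
  pftab_of (los := [(nat_lit 33524074), (nat_lit 26882477), (nat_lit 21286319), (nat_lit 14146940)]) (by decide +kernel) (hi := (nat_lit 9)) (PfP.trans (PfP.trans (PfP.trans (PfP.trans (PfP.trans (PfP.trans (PfP.trans (PfP.trans (pfC_sound p14_2_2_0) (pfC_sound p14_2_2_1)) (pfC_sound p14_2_2_2)) (pfC_sound p14_2_2_3)) (pfC_sound p14_2_2_4)) (pfC_sound p14_2_2_5)) (pfC_sound p14_2_2_6)) (pfC_sound p14_2_2_7)) (pfC_sound p14_2_2_8)) (by decide +kernel)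

def z14_2_2 : zOK yB14_2 (nat_lit 2) (nat_lit 600) (nat_lit 750) (nat_lit 6597126) (nat_lit 4478510) = true := by decide +kernel
def g14_2_2 : gOK yB14_2.x P14_2 (nat_lit 1412) (q14_2 :: r14_2) (nat_lit 2) (nat_lit 600) (nat_lit 3) (nat_lit 750) (nat_lit 12712500) (nat_lit 12712500) (nat_lit 12712500) (nat_lit 12712500) [(nat_lit 800), (nat_lit 1600)] = true := by decide +kernel
def v14_2_2 : ivC P14_2 s14_2 w14_2 n14_2 (nat_lit 4) (nat_lit 5020) (nat_lit 2) (nat_lit 600) f112_1_600 f120_1_600 (nat_lit 3) (nat_lit 750) f112_1_750 f120_1_750 (nat_lit 6597126) (nat_lit 4478510) p14_2_2 = true := by decide +kernel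
def p14_2_3 : PF := (PF.cons (PF.cons (PF.cons (PF.cons (PF.leaf (nat_lit 3222985) (nat_lit 23184085) (nat_lit 43924727) (nat_lit 23184085) [(nat_lit 0), (nat_lit 0), (nat_lit 0), (nat_lit 0)]) (PF.cons (PF.leaf (nat_lit 3417070) (nat_lit 362152) (nat_lit 43650965) (nat_lit 23095695) [(nat_lit 362152), (nat_lit 0), (nat_lit 0), (nat_lit 0)]) (PF.cons (PF.leaf (nat_lit 3644740) (nat_lit 392445) (nat_lit 43332353) (nat_lit 22991567) [(nat_lit 392445), (nat_lit 0), (nat_lit 0), (nat_lit 0)]) (PF.cons (PF.leaf (nat_lit 3898997) (nat_lit 418833) (nat_lit 42978077) (nat_lit 22874236) [(nat_lit 418833), (nat_lit 0), (nat_lit 0), (nat_lit 0)]) (PF.cons (PF.leaf (nat_lit 4175356) (nat_lit 442151) (nat_lit 42594728) (nat_lit 22745479) [(nat_lit 442151), (nat_lit 0), (nat_lit 0), (nat_lit 0)]) (PF.cons PF.nil (PF.cons PF.nil PF.nil))))))) (PF.cons (PF.cons (PF.leaf (nat_lit 3626740) (nat_lit 904028) (nat_lit 43243476) (nat_lit 22961308) [(nat_lit 0), (nat_lit 904028),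 (nat_lit 0), (nat_lit 0)]) (PF.cons (PF.leaf (nat_lit 3865340) (nat_lit 413700) (nat_lit 42906092) (nat_lit 22849189) [(nat_lit 413700), (nat_lit 939829), (nat_lit 0), (nat_lit 0)]) (PF.cons (PF.leaf (nat_lit 4129214) (nat_lit 437518) (nat_lit
 42536226) (nat_lit 22724626) [(nat_lit 437518), (nat_lit 972922), (nat_lit 0), (nat_lit 0)]) (PF.cons PF.nil (PF.cons PF.nil PF.nil))))) (PF.cons (PF.cons (PF.leaf (nat_lit 4091162) (nat_lit 970345) (nat_lit 42467766) (nat_lit 22700356) [(nat_lit 0), (nat_lit 970345), (nat_lit 0), (nat_lit 0)]) (PF.cons (PF.leaf (nat_lit 4363115) (nat_lit 454218) (nat_lit 42084937) (nat_lit 22569292) [(nat_lit 454218), (nat_lit 1000182), (nat_lit 0), (nat_lit 0)]) (PF.cons PF.nil (PF.cons PF.nil PF.nil)))) (PF.cons (PF.cons (PF.leaf (nat_lit 4600380) (nat_lit 1024521) (nat_lit 41626354) (nat_lit 22408893) [(nat_lit 0), (nat_lit 1024521), (nat_lit 0), (nat_lit 0)]) (PF.cons PF.nil PF.nil)) (PF.cons PF.nil PF.nil))))) (PF.cons (PF.cons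 (PF.cons (PF.leaf (nat_lit 4043072) (nat_lit 2329723) (nat_lit 42182729) (nat_lit 22596360) [(nat_lit 0), (nat_lit 0), (nat_lit 2329723), (nat_lit 0)]) (PF.cons (PF.leaf (nat_lit 4291912) (nat_lit 439401) (nat_lit 41831846) (nat_lit 22475129) [(nat_lit 439401), (nat_lit 0), (nat_lit 2362436), (nat_lit 0)]) (PF.cons (PF.leaf (nat_lit 4564369) (nat_lit 460820) (nat_lit 41451324) (nat_lit 22341991) [(nat_lit 460820), (nat_lit 0), (nat_lit 2393857), (nat_lit 0)]) (PF.cons
 PF.nil PF.nil)))) (PF.cons (PF.cons (PF.leaf (nat_lit 4520812) (nat_lit 1011511) (nat_lit 41385849) (nat_lit 22317877) [(nat_lit 0), (nat_lit 1011511), (nat_lit 2393575), (nat_lit 0)]) (PF.cons (PF.leaf (nat_lit 4799960) (nat_lit 475095) (nat_lit 40995437) (nat_lit 22179186) [(nat_lit 475095), (nat_lit 1037095), (nat_lit 2421998), (nat_lit 0)]) PF.nil)) (PF.cons PF.nil PF.nil))) (PF.cons (PF.cons (PF.cons (PF.leaf (nat_lit 4948003) (nat_lit 2437671) (nat_lit 40309455) (nat_lit 21924013) [(nat_lit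 0), (nat_lit 0), (nat_lit 2437671), (nat_lit 0)]) (PF.cons PF.nil PF.nil)) (PF.cons PF.nil PF.nil)) (PF.cons PF.nil (PF.cons PF.nil PF.nil))))) (PF.cons (PF.cons (PF.cons (PF.cons (PF.leaf (nat_lit 4609405) (nat_lit 5070491) (nat_lit 40184030) (nat_lit 21854291) [(nat_lit 0), (nat_lit 0), (nat_lit 0), (nat_lit 5070491)]) (PF.cons (PF.leaf (nat_lit 4860997) (nat_lit 454975) (nat_lit 39840928) (nat_lit 21728415) [(nat_lit 454975), (nat_lit 0), (nat_lit 0), (nat_lit 5084493)]) (PF.cons (PF.leaf (nat_lit 5134795) (nat_lit 474867) (nat_lit 39470849) (nat_lit 21591157) [(nat_lit 474867), (nat_lit 0), (nat_lit 0), (nat_lit 5097071)]) (PF.cons PF.nil PF.nil)))) (PF.cons (PF.cons (PF.leaf (nat_lit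
 5087285) (nat_lit 1036307) (nat_lit 39409502) (nat_lit 21567271) [(nat_lit 0), (nat_lit 1036307), (nat_lit 0), (nat_lit 5095731)]) (PF.cons (PF.leaf (nat_lit 5366639) (nat_lit 487302) (nat_lit 39031789) (nat_lit 21425355) [(nat_lit 487302), (nat_lit 1058551), (nat_lit 0), (nat_lit 5105813)]) PF.nil)) (PF.cons PF.nil PF.nil))) (PF.cons (PF.cons (PF.cons (PF.leaf (nat_lit 5501367) (nat_lit 2454845) (nat_lit 38383098) (nat_lit 21171358) [(nat_lit 0), (nat_lit 0), (nat_lit 2454845), (nat_lit 5099510)]) (PF.cons PF.nil PF.nil)) (PF.cons PF.nil PF.nil)) (PF.cons PF.nil PF.nil))) (PF.cons (PF.cons (PF.cons (PF.cons (PF.leaf (nat_lit 6027068) (nat_lit 5049129) (nat_lit 36576603) (nat_lit 20433950) [(nat_lit 0), (nat_lit 0), (nat_lit 0), (nat_lit 5049129)]) (PF.cons PF.nil PF.nil)) (PF.cons PF.nil PF.nil)) (PF.cons PF.nil PF.nil)) (PF.cons PF.nil (PF.cons PF.nil (PF.cons PF.nil PF.nil))))))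

def p14_2_3_0 : pfC (piC [(nat_lit 33524074), (nat_lit 26882477), (nat_lit 21286319), (nat_lit 14146940)] (nat_lit 4478510)) p14_2_3 (nat_lit 4) (nat_lit 0) (nat_lit 1) = true := by decide +kernel
def p14_2_3_1 : pfC (piC [(nat_lit 33524074), (nat_lit 26882477), (nat_lit 21286319), (nat_lit 14146940)] (nat_lit 4478510)) p14_2_3 (nat_lit 4) (nat_lit 1) (nat_lit 2) = true := by decide +kernel
def p14_2_3_2 : pfC (piC [(nat_lit 33524074), (nat_lit 26882477), (nat_lit 21286319), (nat_lit 14146940)] (nat_lit 4478510)) p14_2_3 (nat_lit 4) (nat_lit 2) (nat_lit 3) = true := by decide +kernel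
def p14_2_3_3 : pfC (piC [(nat_lit 33524074), (nat_lit 26882477), (nat_lit 21286319), (nat_lit 14146940)] (nat_lit 4478510)) p14_2_3 (nat_lit 4) (nat_lit 3) (nat_lit 4) = true := by decide +kernel
def p14_2_3_4 : pfC (piC [(nat_lit 33524074), (nat_lit 26882477), (nat_lit 21286319), (nat_lit 14146940)] (nat_lit 4478510)) p14_2_3 (nat_lit 4) (nat_lit 4) (nat_lit 5) = true := by decide +kernel
def p14_2_3_5 : pfC (piC [(nat_lit 33524074), (nat_lit 26882477), (nat_lit 21286319), (nat_lit 14146940)] (nat_lit 4478510)) p14_2_3 (nat_lit 4) (nat_lit 5) (nat_lit 6) = true := by decide +kernel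
def p14_2_3_6 : pfC (piC [(nat_lit 33524074), (nat_lit 26882477), (nat_lit 21286319), (nat_lit 14146940)] (nat_lit 4478510)) p14_2_3 (nat_lit 4) (nat_lit 6) (nat_lit 7) = true := by decide +kernel
def p14_2_3_7 : pfC (piC [(nat_lit 33524074), (nat_lit 26882477), (nat_lit 21286319), (nat_lit 14146940)] (nat_lit 4478510)) p14_2_3 (nat_lit 4) (nat_lit 7) (nat_lit 8) = true := by decide +kernel
def p14_2_3_8 : pfC (piC [(nat_lit 33524074), (nat_lit 26882477), (nat_lit 21286319), (nat_lit 14146940)] (nat_lit 4478510)) p14_2_3 (nat_lit 4) (nat_lit 8) (nat_lit 9) = true := by decide +kernel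
def p14_2_3_9 : pfC (piC [(nat_lit 33524074), (nat_lit 26882477), (nat_lit 21286319), (nat_lit 14146940)] (nat_lit 4478510)) p14_2_3 (nat_lit 4) (nat_lit 9) (nat_lit 10) = true := by decide +kernel
def p14_2_3_10 : pfC (piC [(nat_lit 33524074), (nat_lit 26882477), (nat_lit 21286319), (nat_lit 14146940)] (nat_lit 4478510)) p14_2_3 (nat_lit 4) (nat_lit 10) (nat_lit 11) = true := by decide +kernel
def p14_2_3_11 : pfC (piC [(nat_lit 33524074), (nat_lit 26882477), (nat_lit 21286319), (nat_lit 14146940)] (nat_lit 4478510)) p14_2_3 (nat_lit 4) (nat_lit 11) (nat_lit 12) = true := by decide +kernel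
def p14_2_3_12 : pfC (piC [(nat_lit 33524074), (nat_lit 26882477), (nat_lit 21286319), (nat_lit 14146940)] (nat_lit 4478510)) p14_2_3 (nat_lit 4) (nat_lit 12) (nat_lit 13) = true := by decide +kernel
def p14_2_3_13 : pfC (piC [(nat_lit 33524074), (nat_lit 26882477), (nat_lit 21286319), (nat_lit 14146940)] (nat_lit 4478510)) p14_2_3 (nat_lit 4) (nat_lit 13) (nat_lit 14) = true := by decide +kernel
def p14_2_3_14 : pfC (piC [(nat_lit 33524074), (nat_lit 26882477), (nat_lit 21286319), (nat_lit 14146940)] (nat_lit 4478510)) p14_2_3 (nat_lit 4) (nat_lit 14) (nat_lit 15) = true := by decide +kernel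
def p14_2_3_15 : pfC (piC [(nat_lit 33524074), (nat_lit 26882477), (nat_lit 21286319), (nat_lit 14146940)] (nat_lit 4478510)) p14_2_3 (nat_lit 4) (nat_lit 15) (nat_lit 16) = true := by decide +kernel
def p14_2_3_16 : pfC (piC [(nat_lit 33524074), (nat_lit 26882477), (nat_lit 21286319), (nat_lit 14146940)] (nat_lit 4478510)) p14_2_3 (nat_lit 4) (nat_lit 16) (nat_lit 17) = true := by decide +kernel
def p14_2_3_17 : pfC (piC [(nat_lit 33524074), (nat_lit 26882477), (nat_lit 21286319), (nat_lit 14146940)] (nat_lit 4478510)) p14_2_3 (nat_lit 4) (nat_lit 17) (nat_lit 18) = true := by decide +kernel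
def p14_2_3_18 : pfC (piC [(nat_lit 33524074), (nat_lit 26882477), (nat_lit 21286319), (nat_lit 14146940)] (nat_lit 4478510)) p14_2_3 (nat_lit 4) (nat_lit 18) (nat_lit 19) = true := by decide +kernel
def p14_2_3_19 : pfC (piC [(nat_lit 33524074), (nat_lit 26882477), (nat_lit 21286319), (nat_lit 14146940)] (nat_lit 4478510)) p14_2_3 (nat_lit 4) (nat_lit 19) (nat_lit 20) = true := by decide +kernel
def p14_2_3_20 : pfC (piC [(nat_lit 33524074), (nat_lit 26882477), (nat_lit 21286319), (nat_lit 14146940)] (nat_lit 4478510)) p14_2_3 (nat_lit 4) (nat_lit 20) (nat_lit 21) = true := by decide +kernel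
def p14_2_3_21 : pfC (piC [(nat_lit 33524074), (nat_lit 26882477), (nat_lit 21286319), (nat_lit 14146940)] (nat_lit 4478510)) p14_2_3 (nat_lit 4) (nat_lit 21) (nat_lit 22) = true := by decide +kernel
def p14_2_3_22 : pfC (piC [(nat_lit 33524074), (nat_lit 26882477), (nat_lit 21286319), (nat_lit 14146940)] (nat_lit 4478510)) p14_2_3 (nat_lit 4) (nat_lit 22) (nat_lit 23) = true := by decide +kernel
def p14_2_3_23 : pfC (piC [(nat_lit 33524074), (nat_lit 26882477), (nat_lit 21286319), (nat_lit 14146940)] (nat_lit 4478510)) p14_2_3 (nat_lit 4) (nat_lit 23) (nat_lit 24) = true := by decide +kernel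
theorem p14_2_3_T : PfS (PiF n14_2.reverse (nat_lit 4478510)) p14_2_3 (nat_lit 4) [] 0 :=
  pftab_of (los := [(nat_lit 33524074), (nat_lit 26882477), (nat_lit 21286319), (nat_lit 14146940)]) (by decide +kernel) (hi := (nat_lit 24)) (PfP.trans (PfP.trans (PfP.trans (PfP.trans (PfP.trans (PfP.trans (PfP.trans (PfP.trans (PfP.trans (PfP.trans (PfP.trans (PfP.trans (PfP.trans (PfP.trans (PfP.trans (PfP.trans (PfP.trans (PfP.trans (PfP.trans (PfP.trans (PfP.trans (PfP.trans (PfP.trans (pfC_sound p14_2_3_0) (pfC_sound p14_2_3_1)) (pfC_sound p14_2_3_2)) (pfC_sound p14_2_3_3)) (pfC_sound p14_2_3_4)) (pfC_sound p14_2_3_5)) (pfC_sound p14_2_3_6)) (pfC_sound p14_2_3_7)) (pfC_sound p14_2_3_8)) (pfC_sound p14_2_3_9)) (pfC_sound p14_2_3_10)) (pfC_sound p14_2_3_11)) (pfC_sound p14_2_3_12)) (pfC_sound p14_2_3_13)) (pfC_sound p14_2_3_14)) (pfC_sound p14_2_3_15)) (pfC_sound p14_2_3_16)) (pfC_sound p14_2_3_17)) (pfC_sound p14_2_3_18)) (pfC_sound p14_2_3_19)) (pfC_sound p14_2_3_20))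 (pfC_sound p14_2_3_21)) (pfC_sound p14_2_3_22)) (pfC_sound p14_2_3_23)) (by decide +kernel)

def z14_2_3 : zOK yB14_2 (nat_lit 3) (nat_lit 750) (nat_lit 975) (nat_lit 4478510) (nat_lit 1911607) = true := by decide +kernel
def g14_2_3 : gOK yB14_2.x P14_2 (nat_lit 1412) (q14_2 :: r14_2) (nat_lit 3) (nat_lit 750) (nat_lit 4) (nat_lit 975) (nat_lit 12712500) (nat_lit 12712500) (nat_lit 12712500) (nat_lit 12712500) [(nat_lit 800)] = true := by decide +kernel
def v14_2_3 : ivC P14_2 s14_2 w14_2 n14_2 (nat_lit 4) (nat_lit 4870) (nat_lit 3) (nat_lit 750) f112_1_750 f120_1_750 (nat_lit 4) (nat_lit 975) f112_1_975 f120_1_975 (nat_lit 4478510) (nat_lit 1911607) p14_2_3 = true := by decide +kernel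
/-! box `yB14_3` -/

def P14_3 : BQ := ⟨(nat_lit 8), (nat_lit 8), (nat_lit 0), (nat_lit 4), (nat_lit 4), (nat_lit 600), (nat_lit 620), (nat_lit 120), [(nat_lit 200), (nat_lit 300), (nat_lit 450), (nat_lit 800)], (nat_lit 30432000), (nat_lit 16000000), (nat_lit 16000000000)⟩
def q14_3 : PC := ⟨(nat_lit 1000), [(nat_lit 120000), (nat_lit 200000), (nat_lit 300000), (nat_lit 450000), (nat_lit 800000)], (nat_lit 340282367000166625996085689103316680705000000), (nat_lit 15969568000000), (nat_lit 15969568000000), (nat_lit 10000000)⟩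
def r14_3 : List PC := [⟨(nat_lit 1372), [(nat_lit 120574), (nat_lit 201045), (nat_lit 301929), (nat_lit 452703), (nat_lit 799312)], (nat_lit 342609898390523111700420484258053981907931347), (nat_lit 16374372225920), (nat_lit 16389159969920), (nat_lit 10064300)⟩]
def s14_3 : List PB := [⟨(nat_lit 27440), (nat_lit 1929184000000), [(nat_lit 201045), (nat_lit 301929), (nat_lit 452703), (nat_lit 799312)], (nat_lit 342609898390523111700420484258053981907931347), (nat_lit 1142274279068544), (nat_lit 1142289066812544), (nat_lit 59520)⟩]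
def n14_3 : List KN := [⟨(nat_lit 800), (nat_lit 450), (nat_lit 14105872), (nat_lit 9915534)⟩, ⟨(nat_lit 450), (nat_lit 300), (nat_lit 21119649), (nat_lit 14105872)⟩, ⟨(nat_lit 300), (nat_lit 200), (nat_lit 28302180), (nat_lit 21119649)⟩, ⟨(nat_lit 200), (nat_lit 120), (nat_lit 36119186), (nat_lit 28302180)⟩]
def w14_3 : List ℕ := [(nat_lit 59520)]
def par14_3 : parC yB14_3 P14_3 s14_3 r14_3 q14_3 n14_3 w14_3 = true := by decide +kernel

def p14_3_0 : PF := (PF.cons (PF.cons (PF.cons (PF.cons (PF.leaf (nat_lit 233768) (nat_lit 540006) (nat_lit 66568806) (nat_lit 540006) [(nat_lit 0), (nat_lit 0), (nat_lit 0), (nat_lit 0)]) (PF.cons (PF.leaf (nat_lit 346930) (nat_lit 172626) (nat_lit 66350095) (nat_lit 586091) [(nat_lit 172626), (nat_lit 0), (nat_lit 0), (nat_lit 0)]) (PF.cons (PF.leaf (nat_lit 491712) (nat_lit 197014) (nat_lit 66080261) (nat_lit 634521) [(nat_lit 197014), (nat_lit 0), (nat_lit 0), (nat_lit 0)]) (PF.cons (PF.leaf (nat_lit 662511) (nat_lit 220711)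 (nat_lit 65763082) (nat_lit 683596) [(nat_lit 220711), (nat_lit 0), (nat_lit 0), (nat_lit 0)]) (PF.cons PF.nil PF.nil))))) (PF.cons (PF.cons (PF.leaf (nat_lit 552609) (nat_lit 600066) (nat_lit 65848181) (nat_lit 660565) [(nat_lit 0), (nat_lit 600066), (nat_lit 0), (nat_lit 0)]) (PF.cons (PF.leaf (nat_lit 716268) (nat_lit 226829) (nat_lit 65532643) (nat_lit 706064) [(nat_lit 226829), (nat_lit 643275), (nat_lit 0), (nat_lit 0)]) (PF.cons PF.nil (PF.cons PF.nil PF.nil)))) (PF.cons (PF.cons (PF.leaf (nat_lit 961878) (nat_lit 705116) (nat_lit 64926634) (nat_lit 771945) [(nat_lit 0), (nat_lit 705116), (nat_lit 0), (nat_lit 0)]) (PF.cons PF.nil PF.nil)) PF.nil))) (PF.cons (PF.cons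
 (PF.cons (PF.leaf (nat_lit 1056876) (nat_lit 793340) (nat_lit 64214562) (nat_lit 793340) [(nat_lit 0), (nat_lit 0), (nat_lit 2100909), (nat_lit 0)]) (PF.cons (PF.leaf (nat_lit 1248023) (nat_lit 274716) (nat_lit 63837985) (nat_lit 833576) [(nat_lit 274716), (nat_lit 0), (nat_lit 2162534), (nat_lit 0)]) (PF.cons PF.nil (PF.cons PF.nil PF.nil)))) (PF.cons (PF.cons (PF.leaf (nat_lit 1517564) (nat_lit 814579) (nat_lit 63146725) (nat_lit 889616) [(nat_lit 0), (nat_lit 814579), (nat_lit 2257891), (nat_lit 0)]) (PF.cons PF.nil PF.nil)) (PF.cons PF.nil PF.nil))) (PF.cons (PF.cons (PF.cons (PF.leaf (nat_lit 2096976) (nat_lit 986848) (nat_lit 61240360) (nat_lit 986848) [(nat_lit 0), (nat_lit 0), (nat_lit 2440801), (nat_lit 0)]) (PF.cons PF.nil PF.nil)) (PF.cons PF.nil PF.nil)) (PF.cons PF.nil (PF.cons PF.nil PF.nil))))) (PF.cons (PF.cons (PF.cons (PF.cons (PF.leaf (nat_lit 1877605) (nat_lit 919929) (nat_lit 60465385) (nat_lit 919929) [(nat_lit 0), (nat_lit 0), (nat_lit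 0), (nat_lit 5723498)]) (PF.cons (PF.leaf (nat_lit 2087049) (nat_lit 318703) (nat_lit 60057383) (nat_lit 955935) [(nat_lit 318703), (nat_lit 0), (nat_lit 0), (nat_lit 5776791)]) (PF.cons (PF.leaf (nat_lit 2321433) (nat_lit
 339416) (nat_lit 59606869) (nat_lit 991310) [(nat_lit 339416), (nat_lit 0), (nat_lit 0), (nat_lit 5831799)]) (PF.cons (PF.leaf (nat_lit 2576679) (nat_lit 358631) (nat_lit 59120311) (nat_lit 1025595) [(nat_lit 358631), (nat_lit 0), (nat_lit 0), (nat_lit 5887011)]) (PF.cons PF.nil PF.nil))))) (PF.cons (PF.cons (PF.leaf (nat_lit 2368340) (nat_lit 919439) (nat_lit 59326536) (nat_lit 1002846) [(nat_lit 0), (nat_lit 919439), (nat_lit 0), (nat_lit 5859990)]) (PF.cons (PF.leaf (nat_lit 2614953) (nat_lit 360323) (nat_lit 58850383) (nat_lit 1035505) [(nat_lit 360323), (nat_lit 950838), (nat_lit 0), (nat_lit 5911761)]) (PF.cons (PF.leaf (nat_lit 2881991) (nat_lit 378168) (nat_lit 58341113) (nat_lit 1067155) [(nat_lit 378168), (nat_lit 981185), (nat_lit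 0), (nat_lit 5963021)]) (PF.cons PF.nil PF.nil)))) (PF.cons (PF.cons (PF.leaf (nat_lit 2917801) (nat_lit 989127) (nat_lit 58070048) (nat_lit 1075859) [(nat_lit 0), (nat_lit 989127), (nat_lit 0), (nat_lit 5984649)]) (PF.cons PF.nil PF.nil)) (PF.cons PF.nil (PF.cons PF.nil PF.nil))))) (PF.cons (PF.cons (PF.cons (PF.leaf (nat_lit 2942959) (nat_lit 1077153) (nat_lit 57396263) (nat_lit 1077153) [(nat_lit 0), (nat_lit 0), (nat_lit 2619385), (nat_lit
 6016010)]) (PF.cons (PF.leaf (nat_lit 3202546) (nat_lit 389713) (nat_lit 56899143) (nat_lit 1105521) [(nat_lit 389713), (nat_lit 0), (nat_lit 2657834), (nat_lit 6056600)]) (PF.cons PF.nil (PF.cons PF.nil PF.nil)))) (PF.cons (PF.cons (PF.leaf (nat_lit 3511746) (nat_lit 1048854) (nat_lit 56100388) (nat_lit 1139418) [(nat_lit 0), (nat_lit 1048854), (nat_lit 2708802), (nat_lit 6111349)]) (PF.cons PF.nil PF.nil)) (PF.cons PF.nil PF.nil))) (PF.cons (PF.cons (PF.cons (PF.leaf (nat_lit 4101671) (nat_lit 1190567) (nat_lit 54136203)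 (nat_lit 1190567) [(nat_lit 0), (nat_lit 0), (nat_lit 2792238), (nat_lit 6197565)]) (PF.cons PF.nil PF.nil)) (PF.cons PF.nil PF.nil)) PF.nil))) (PF.cons (PF.cons (PF.cons (PF.cons (PF.leaf (nat_lit 3738637) (nat_lit 1136958) (nat_lit 53713406) (nat_lit 1136958) [(nat_lit 0), (nat_lit 0), (nat_lit 0), (nat_lit 6129224)]) (PF.cons (PF.leaf (nat_lit 4001661) (nat_lit 412127) (nat_lit 53228897) (nat_lit 1161142) [(nat_lit 412127), (nat_lit 0), (nat_lit 0), (nat_lit 6153322)]) (PF.cons (PF.leaf (nat_lit 4281932) (nat_lit 427148) (nat_lit 52718312) (nat_lit 1184086) [(nat_lit 427148), (nat_lit 0), (nat_lit 0), (nat_lit 6176058)]) (PF.cons PF.nil PF.nil)))) (PF.cons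
 (PF.cons (PF.leaf (nat_lit 4305753) (nat_lit 1094721) (nat_lit 52459518) (nat_lit 1188357) [(nat_lit 0), (nat_lit 1094721), (nat_lit 0), (nat_lit 6183108)]) (PF.cons PF.nil PF.nil)) (PF.cons PF.nil PF.nil))) (PF.cons (PF.cons (PF.cons (PF.leaf (nat_lit 4868222) (nat_lit 1225422) (nat_lit 50603946) (nat_lit 1225422) [(nat_lit 0), (nat_lit 0), (nat_lit 2845565), (nat_lit 6216938)]) (PF.cons PF.nil PF.nil)) (PF.cons PF.nil PF.nil)) (PF.cons PF.nil PF.nil))) (PF.cons (PF.cons (PF.cons (PF.cons (PF.leaf (nat_lit 5574692) (nat_lit 1243196) (nat_lit 47349346) (nat_lit 1243196) [(nat_lit 0), (nat_lit 0), (nat_lit 0), (nat_lit 6172089)]) (PF.cons PF.nil PF.nil)) (PF.cons PF.nil PF.nil)) (PF.cons PF.nil PF.nil)) (PF.cons PF.nil (PF.cons PF.nil (PF.cons PF.nil (PF.cons PF.nil PF.nil))))))))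

def p14_3_0_0 : pfC (piC [(nat_lit 36119186), (nat_lit 28302180), (nat_lit 21119649), (nat_lit 14105872)] (nat_lit 37297016)) p14_3_0 (nat_lit 4) (nat_lit 0) (nat_lit 1) = true := by decide +kernel
def p14_3_0_1 : pfC (piC [(nat_lit 36119186), (nat_lit 28302180), (nat_lit 21119649), (nat_lit 14105872)] (nat_lit 37297016)) p14_3_0 (nat_lit 4) (nat_lit 1) (nat_lit 2) = true := by decide +kernel
def p14_3_0_2 : pfC (piC [(nat_lit 36119186), (nat_lit 28302180), (nat_lit 21119649), (nat_lit 14105872)] (nat_lit 37297016)) p14_3_0 (nat_lit 4) (nat_lit 2) (nat_lit 3) = true := by decide +kernel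
def p14_3_0_3 : pfC (piC [(nat_lit 36119186), (nat_lit 28302180), (nat_lit 21119649), (nat_lit 14105872)] (nat_lit 37297016)) p14_3_0 (nat_lit 4) (nat_lit 3) (nat_lit 4) = true := by decide +kernel
def p14_3_0_4 : pfC (piC [(nat_lit 36119186), (nat_lit 28302180), (nat_lit 21119649), (nat_lit 14105872)] (nat_lit 37297016)) p14_3_0 (nat_lit 4) (nat_lit 4) (nat_lit 5) = true := by decide +kernel
def p14_3_0_5 : pfC (piC [(nat_lit 36119186), (nat_lit 28302180), (nat_lit 21119649), (nat_lit 14105872)] (nat_lit 37297016)) p14_3_0 (nat_lit 4) (nat_lit 5) (nat_lit 6) = true := by decide +kernel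
def p14_3_0_6 : pfC (piC [(nat_lit 36119186), (nat_lit 28302180), (nat_lit 21119649), (nat_lit 14105872)] (nat_lit 37297016)) p14_3_0 (nat_lit 4) (nat_lit 6) (nat_lit 7) = true := by decide +kernel
def p14_3_0_7 : pfC (piC [(nat_lit 36119186), (nat_lit 28302180), (nat_lit 21119649), (nat_lit 14105872)] (nat_lit 37297016)) p14_3_0 (nat_lit 4) (nat_lit 7) (nat_lit 8) = true := by decide +kernel
def p14_3_0_8 : pfC (piC [(nat_lit 36119186), (nat_lit 28302180), (nat_lit 21119649), (nat_lit 14105872)] (nat_lit 37297016)) p14_3_0 (nat_lit 4) (nat_lit 8) (nat_lit 9) = true := by decide +kernel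
def p14_3_0_9 : pfC (piC [(nat_lit 36119186), (nat_lit 28302180), (nat_lit 21119649), (nat_lit 14105872)] (nat_lit 37297016)) p14_3_0 (nat_lit 4) (nat_lit 9) (nat_lit 10) = true := by decide +kernel
def p14_3_0_10 : pfC (piC [(nat_lit 36119186), (nat_lit 28302180), (nat_lit 21119649), (nat_lit 14105872)] (nat_lit 37297016)) p14_3_0 (nat_lit 4) (nat_lit 10) (nat_lit 11) = true := by decide +kernel
def p14_3_0_11 : pfC (piC [(nat_lit 36119186), (nat_lit 28302180), (nat_lit 21119649), (nat_lit 14105872)] (nat_lit 37297016)) p14_3_0 (nat_lit 4) (nat_lit 11) (nat_lit 12) = true := by decide +kernel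
def p14_3_0_12 : pfC (piC [(nat_lit 36119186), (nat_lit 28302180), (nat_lit 21119649), (nat_lit 14105872)] (nat_lit 37297016)) p14_3_0 (nat_lit 4) (nat_lit 12) (nat_lit 13) = true := by decide +kernel
def p14_3_0_13 : pfC (piC [(nat_lit 36119186), (nat_lit 28302180), (nat_lit 21119649), (nat_lit 14105872)] (nat_lit 37297016)) p14_3_0 (nat_lit 4) (nat_lit 13) (nat_lit 14) = true := by decide +kernel
def p14_3_0_14 : pfC (piC [(nat_lit 36119186), (nat_lit 28302180), (nat_lit 21119649), (nat_lit 14105872)] (nat_lit 37297016)) p14_3_0 (nat_lit 4) (nat_lit 14) (nat_lit 15) = true := by decide +kernel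
def p14_3_0_15 : pfC (piC [(nat_lit 36119186), (nat_lit 28302180), (nat_lit 21119649), (nat_lit 14105872)] (nat_lit 37297016)) p14_3_0 (nat_lit 4) (nat_lit 15) (nat_lit 16) = true := by decide +kernel
def p14_3_0_16 : pfC (piC [(nat_lit 36119186), (nat_lit 28302180), (nat_lit 21119649), (nat_lit 14105872)] (nat_lit 37297016)) p14_3_0 (nat_lit 4) (nat_lit 16) (nat_lit 17) = true := by decide +kernel
def p14_3_0_17 : pfC (piC [(nat_lit 36119186), (nat_lit 28302180), (nat_lit 21119649), (nat_lit 14105872)] (nat_lit 37297016)) p14_3_0 (nat_lit 4) (nat_lit 17) (nat_lit 18) = true := by decide +kernel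
def p14_3_0_18 : pfC (piC [(nat_lit 36119186), (nat_lit 28302180), (nat_lit 21119649), (nat_lit 14105872)] (nat_lit 37297016)) p14_3_0 (nat_lit 4) (nat_lit 18) (nat_lit 19) = true := by decide +kernel
def p14_3_0_19 : pfC (piC [(nat_lit 36119186), (nat_lit 28302180), (nat_lit 21119649), (nat_lit 14105872)] (nat_lit 37297016)) p14_3_0 (nat_lit 4) (nat_lit 19) (nat_lit 20) = true := by decide +kernel
def p14_3_0_20 : pfC (piC [(nat_lit 36119186), (nat_lit 28302180), (nat_lit 21119649), (nat_lit 14105872)] (nat_lit 37297016)) p14_3_0 (nat_lit 4) (nat_lit 20) (nat_lit 21) = true := by decide +kernel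
def p14_3_0_21 : pfC (piC [(nat_lit 36119186), (nat_lit 28302180), (nat_lit 21119649), (nat_lit 14105872)] (nat_lit 37297016)) p14_3_0 (nat_lit 4) (nat_lit 21) (nat_lit 22) = true := by decide +kernel
def p14_3_0_22 : pfC (piC [(nat_lit 36119186), (nat_lit 28302180), (nat_lit 21119649), (nat_lit 14105872)] (nat_lit 37297016)) p14_3_0 (nat_lit 4) (nat_lit 22) (nat_lit 23) = true := by decide +kernel
def p14_3_0_23 : pfC (piC [(nat_lit 36119186), (nat_lit 28302180), (nat_lit 21119649), (nat_lit 14105872)] (nat_lit 37297016)) p14_3_0 (nat_lit 4) (nat_lit 23) (nat_lit 24) = true := by decide +kernel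
def p14_3_0_24 : pfC (piC [(nat_lit 36119186), (nat_lit 28302180), (nat_lit 21119649), (nat_lit 14105872)] (nat_lit 37297016)) p14_3_0 (nat_lit 4) (nat_lit 24) (nat_lit 25) = true := by decide +kernel
def p14_3_0_25 : pfC (piC [(nat_lit 36119186), (nat_lit 28302180), (nat_lit 21119649), (nat_lit 14105872)] (nat_lit 37297016)) p14_3_0 (nat_lit 4) (nat_lit 25) (nat_lit 26) = true := by decide +kernel
def p14_3_0_26 : pfC (piC [(nat_lit 36119186), (nat_lit 28302180), (nat_lit 21119649), (nat_lit 14105872)] (nat_lit 37297016)) p14_3_0 (nat_lit 4) (nat_lit 26) (nat_lit 27) = true := by decide +kernel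
def p14_3_0_27 : pfC (piC [(nat_lit 36119186), (nat_lit 28302180), (nat_lit 21119649), (nat_lit 14105872)] (nat_lit 37297016)) p14_3_0 (nat_lit 4) (nat_lit 27) (nat_lit 28) = true := by decide +kernel
def p14_3_0_28 : pfC (piC [(nat_lit 36119186), (nat_lit 28302180), (nat_lit 21119649), (nat_lit 14105872)] (nat_lit 37297016)) p14_3_0 (nat_lit 4) (nat_lit 28) (nat_lit 29) = true := by decide +kernel
theorem p14_3_0_T : PfS (PiF n14_3.reverse (nat_lit 37297016)) p14_3_0 (nat_lit 4) [] 0 :=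
  pftab_of (los := [(nat_lit 36119186), (nat_lit 28302180), (nat_lit 21119649), (nat_lit 14105872)]) (by decide +kernel) (hi := (nat_lit 29)) (PfP.trans (PfP.trans (PfP.trans (PfP.trans (PfP.trans (PfP.trans (PfP.trans (PfP.trans (PfP.trans (PfP.trans (PfP.trans (PfP.trans (PfP.trans (PfP.trans (PfP.trans (PfP.trans (PfP.trans (PfP.trans (PfP.trans (PfP.trans (PfP.trans (PfP.trans (PfP.trans (PfP.trans (PfP.trans (PfP.trans (PfP.trans (PfP.trans (pfC_sound p14_3_0_0) (pfC_sound p14_3_0_1)) (pfC_sound p14_3_0_2)) (pfC_sound p14_3_0_3)) (pfC_sound p14_3_0_4)) (pfC_sound p14_3_0_5)) (pfC_sound p14_3_0_6)) (pfC_sound p14_3_0_7)) (pfC_sound p14_3_0_8)) (pfC_sound p14_3_0_9)) (pfC_sound p14_3_0_10)) (pfC_sound p14_3_0_11)) (pfC_sound p14_3_0_12)) (pfC_sound p14_3_0_13)) (pfC_sound p14_3_0_14)) (pfC_sound p14_3_0_15)) (pfC_sound p14_3_0_16)) (pfC_sound p14_3_0_17)) (pfC_sound p14_3_0_18)) (pfC_sound p14_3_0_19)) (pfC_sound p14_3_0_20)) (pfC_sound p14_3_0_21)) (pfC_sound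 p14_3_0_22)) (pfC_sound p14_3_0_23)) (pfC_sound p14_3_0_24)) (pfC_sound p14_3_0_25)) (pfC_sound p14_3_0_26)) (pfC_sound p14_3_0_27)) (pfC_sound p14_3_0_28)) (by decide +kernel)

def z14_3_0 : zOK yB14_3 (nat_lit 0) (nat_lit 0) (nat_lit 400) (nat_lit 37297016) (nat_lit 10847095) = true := by decide +kernel
def g14_3_0 : gOK yB14_3.x P14_3 (nat_lit 1418) (q14_3 :: r14_3) (nat_lit 0) (nat_lit 0) (nat_lit 1) (nat_lit 400) (nat_lit 0) (nat_lit 11000000) (nat_lit 12712500) (nat_lit 12712500) [(nat_lit 800), (nat_lit 1600)] = true := by decide +kernel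
def v14_3_0 : ivC P14_3 s14_3 w14_3 n14_3 (nat_lit 4) (nat_lit 5600) (nat_lit 0) (nat_lit 0) f120_1_0 f128_1_0 (nat_lit 1) (nat_lit 400) f120_1_400 f128_1_400 (nat_lit 37297016) (nat_lit 10847095) p14_3_0 = true := by decide +kernel
def p14_3_1 : PF := (PF.cons (PF.cons (PF.cons (PF.cons (PF.leaf (nat_lit 2100552) (nat_lit 9966139) (nat_lit 57142673) (nat_lit 9966139) [(nat_lit 0), (nat_lit 0), (nat_lit 0), (nat_lit 0)]) (PF.cons (PF.leaf (nat_lit 2266702) (nat_lit 283774) (nat_lit 56835991) (nat_lit 9989047) [(nat_lit 283774), (nat_lit 0), (nat_lit 0), (nat_lit 0)]) (PF.cons (PF.leaf (nat_lit 2463723) (nat_lit 309011) (nat_lit 56477070) (nat_lit 10013719) [(nat_lit 309011), (nat_lit 0), (nat_lit 0), (nat_lit 0)]) (PF.cons PF.nil PF.nil)))) (PF.cons (PF.cons (PF.leaf (nat_lit 2519278) (nat_lit 879312) (nat_lit 56201109) (nat_lit 10028390) [(nat_lit 0), (nat_lit 879312), (nat_lit 0), (nat_lit 0)]) (PF.cons PF.nil PF.nil)) (PF.cons PF.nil PF.nil))) (PF.cons (PF.cons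 (PF.cons (PF.leaf (nat_lit 3047711) (nat_lit 2581050) (nat_lit 54440659) (nat_lit 10087102) [(nat_lit 0), (nat_lit 0), (nat_lit 2581050), (nat_lit 0)]) (PF.cons PF.nil PF.nil)) (PF.cons PF.nil PF.nil)) (PF.cons PF.nil PF.nil))) (PF.cons (PF.cons (PF.cons (PF.cons (PF.leaf (nat_lit 3782783) (nat_lit 6032749) (nat_lit 51042068) (nat_lit 10033995) [(nat_lit 0), (nat_lit 0), (nat_lit 0), (nat_lit 6032749)]) (PF.cons (PF.leaf (nat_lit 4010892) (nat_lit 381722) (nat_lit
 50643518) (nat_lit 10033182) [(nat_lit 381722), (nat_lit 0), (nat_lit 0), (nat_lit 6050389)]) (PF.cons PF.nil (PF.cons PF.nil PF.nil)))) (PF.cons (PF.cons (PF.leaf (nat_lit 4291992) (nat_lit 1050979) (nat_lit 49959849) (nat_lit 10025007) [(nat_lit 0), (nat_lit 1050979), (nat_lit 0), (nat_lit 6072976)]) (PF.cons PF.nil PF.nil)) (PF.cons PF.nil PF.nil))) (PF.cons (PF.cons (PF.cons (PF.leaf (nat_lit 4818445) (nat_lit 2777982) (nat_lit 48266657) (nat_lit 9970671) [(nat_lit 0), (nat_lit 0), (nat_lit 2777982),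 (nat_lit 6093501)]) (PF.cons PF.nil PF.nil)) PF.nil) PF.nil)) (PF.cons (PF.cons (PF.cons (PF.cons (PF.leaf (nat_lit 5483319) (nat_lit 6034549) (nat_lit 45268006) (nat_lit 9771706) [(nat_lit 0), (nat_lit 0), (nat_lit 0), (nat_lit 6034549)]) (PF.cons PF.nil PF.nil)) (PF.cons PF.nil PF.nil)) (PF.cons PF.nil PF.nil)) (PF.cons PF.nil (PF.cons PF.nil (PF.cons PF.nil PF.nil))))))

def p14_3_1_0 : pfC (piC [(nat_lit 36119186), (nat_lit 28302180), (nat_lit 21119649), (nat_lit 14105872)] (nat_lit 10847095)) p14_3_1 (nat_lit 4) (nat_lit 0) (nat_lit 1) = true := by decide +kernel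
def p14_3_1_1 : pfC (piC [(nat_lit 36119186), (nat_lit 28302180), (nat_lit 21119649), (nat_lit 14105872)] (nat_lit 10847095)) p14_3_1 (nat_lit 4) (nat_lit 1) (nat_lit 2) = true := by decide +kernel
def p14_3_1_2 : pfC (piC [(nat_lit 36119186), (nat_lit 28302180), (nat_lit 21119649), (nat_lit 14105872)] (nat_lit 10847095)) p14_3_1 (nat_lit 4) (nat_lit 2) (nat_lit 3) = true := by decide +kernel
def p14_3_1_3 : pfC (piC [(nat_lit 36119186), (nat_lit 28302180), (nat_lit 21119649), (nat_lit 14105872)] (nat_lit 10847095)) p14_3_1 (nat_lit 4) (nat_lit 3) (nat_lit 4) = true := by decide +kernel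
def p14_3_1_4 : pfC (piC [(nat_lit 36119186), (nat_lit 28302180), (nat_lit 21119649), (nat_lit 14105872)] (nat_lit 10847095)) p14_3_1 (nat_lit 4) (nat_lit 4) (nat_lit 5) = true := by decide +kernel
def p14_3_1_5 : pfC (piC [(nat_lit 36119186), (nat_lit 28302180), (nat_lit 21119649), (nat_lit 14105872)] (nat_lit 10847095)) p14_3_1 (nat_lit 4) (nat_lit 5) (nat_lit 6) = true := by decide +kernel
def p14_3_1_6 : pfC (piC [(nat_lit 36119186), (nat_lit 28302180), (nat_lit 21119649), (nat_lit 14105872)] (nat_lit 10847095)) p14_3_1 (nat_lit 4) (nat_lit 6) (nat_lit 7) = true := by decide +kernel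
def p14_3_1_7 : pfC (piC [(nat_lit 36119186), (nat_lit 28302180), (nat_lit 21119649), (nat_lit 14105872)] (nat_lit 10847095)) p14_3_1 (nat_lit 4) (nat_lit 7) (nat_lit 8) = true := by decide +kernel
def p14_3_1_8 : pfC (piC [(nat_lit 36119186), (nat_lit 28302180), (nat_lit 21119649), (nat_lit 14105872)] (nat_lit 10847095)) p14_3_1 (nat_lit 4) (nat_lit 8) (nat_lit 9) = true := by decide +kernel
def p14_3_1_9 : pfC (piC [(nat_lit 36119186), (nat_lit 28302180), (nat_lit 21119649), (nat_lit 14105872)] (nat_lit 10847095)) p14_3_1 (nat_lit 4) (nat_lit 9) (nat_lit 10) = true := by decide +kernel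
theorem p14_3_1_T : PfS (PiF n14_3.reverse (nat_lit 10847095)) p14_3_1 (nat_lit 4) [] 0 :=
  pftab_of (los := [(nat_lit 36119186), (nat_lit 28302180), (nat_lit 21119649), (nat_lit 14105872)]) (by decide +kernel) (hi := (nat_lit 10)) (PfP.trans (PfP.trans (PfP.trans (PfP.trans (PfP.trans (PfP.trans (PfP.trans (PfP.trans (PfP.trans (pfC_sound p14_3_1_0) (pfC_sound p14_3_1_1)) (pfC_sound p14_3_1_2)) (pfC_sound p14_3_1_3)) (pfC_sound p14_3_1_4)) (pfC_sound p14_3_1_5)) (pfC_sound p14_3_1_6)) (pfC_sound p14_3_1_7)) (pfC_sound p14_3_1_8)) (pfC_sound p14_3_1_9)) (by decide +kernel)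

def z14_3_1 : zOK yB14_3 (nat_lit 1) (nat_lit 400) (nat_lit 600) (nat_lit 10847095) (nat_lit 6616487) = true := by decide +kernel
def g14_3_1 : gOK yB14_3.x P14_3 (nat_lit 1418) (q14_3 :: r14_3) (nat_lit 1) (nat_lit 400) (nat_lit 2) (nat_lit 600) (nat_lit 11000000) (nat_lit 17850000) (nat_lit 12712500) (nat_lit 12712500) [(nat_lit 800), (nat_lit 1130)] = true := by decide +kernel
def v14_3_1 : ivC P14_3 s14_3 w14_3 n14_3 (nat_lit 4) (nat_lit 5200) (nat_lit 1) (nat_lit 400) f120_1_400 f128_1_400 (nat_lit 2) (nat_lit 600) f120_1_600 f128_1_600 (nat_lit 10847095) (nat_lit 6616487) p14_3_1 = true := by decide +kernel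
def p14_3_2 : PF := (PF.cons (PF.cons (PF.cons (PF.cons (PF.leaf (nat_lit 2789017) (nat_lit 16503122) (nat_lit 50605690) (nat_lit 16503122) [(nat_lit 0), (nat_lit 0), (nat_lit 0), (nat_lit 0)]) (PF.cons (PF.leaf (nat_lit 2950548) (nat_lit 284102) (nat_lit 50344051) (nat_lit 16480658) [(nat_lit 284102), (nat_lit 0), (nat_lit 0), (nat_lit 0)]) (PF.cons (PF.leaf (nat_lit 3141521) (nat_lit 308594) (nat_lit 50038474) (nat_lit 16453149) [(nat_lit 308594), (nat_lit 0), (nat_lit 0), (nat_lit 0)]) (PF.cons (PF.leaf (nat_lit 3355608) (nat_lit 330206) (nat_lit 49697330) (nat_lit 16420864) [(nat_lit 330206), (nat_lit 0), (nat_lit 0), (nat_lit 0)]) (PF.cons PF.nil PF.nil))))) (PF.cons (PF.cons (PF.leaf (nat_lit 3191679) (nat_lit 874510) (nat_lit 49804765) (nat_lit 16429536) [(nat_lit 0), (nat_lit 874510), (nat_lit 0), (nat_lit 0)]) (PF.cons (PF.leaf (nat_lit 3394823) (nat_lit 331056) (nat_lit 49475229) (nat_lit 16397251) [(nat_lit 331056), (nat_lit 905276), (nat_lit 0),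 (nat_lit 0)]) (PF.cons PF.nil (PF.cons PF.nil PF.nil)))) (PF.cons (PF.cons (PF.leaf (nat_lit 3656738) (nat_lit 941694) (nat_lit 48890810) (nat_lit 16334614) [(nat_lit 0), (nat_lit 941694), (nat_lit 0), (nat_lit 0)]) (PF.cons PF.nil PF.nil))
 PF.nil))) (PF.cons (PF.cons (PF.cons (PF.leaf (nat_lit 3683644) (nat_lit 2527652) (nat_lit 48323326) (nat_lit 16257834) [(nat_lit 0), (nat_lit 0), (nat_lit 2527652), (nat_lit 0)]) (PF.cons (PF.leaf (nat_lit 3897927) (nat_lit 356876) (nat_lit 47978361) (nat_lit 16217341) [(nat_lit 356876), (nat_lit 0), (nat_lit 2556234), (nat_lit 0)]) (PF.cons PF.nil PF.nil))) (PF.cons (PF.cons (PF.leaf (nat_lit 4165163) (nat_lit 990759) (nat_lit 47381446) (nat_lit 16142007) [(nat_lit 0), (nat_lit 990759), (nat_lit 2594599), (nat_lit 0)]) PF.nil) PF.nil)) (PF.cons PF.nil PF.nil))) (PF.cons (PF.cons (PF.cons (PF.cons (PF.leaf (nat_lit 4348065) (nat_lit 5785630) (nat_lit 45503301) (nat_lit 15819881) [(nat_lit 0), (nat_lit 0), (nat_lit 0),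 (nat_lit 5785630)]) (PF.cons (PF.leaf (nat_lit 4564966) (nat_lit 371507) (nat_lit 45169917) (nat_lit 15770840) [(nat_lit 371507), (nat_lit 0), (nat_lit 0), (nat_lit 5796547)]) (PF.cons (PF.leaf (nat_lit 4801797) (nat_lit 388149) (nat_lit 44809467) (nat_lit 15716391) [(nat_lit 388149), (nat_lit 0), (nat_lit 0), (nat_lit 5806655)]) (PF.cons PF.nil PF.nil)))) (PF.cons (PF.cons (PF.leaf (nat_lit 4828753) (nat_lit 1018671) (nat_lit 44599264) (nat_lit 15682319) [(nat_lit
 0), (nat_lit 1018671), (nat_lit 0), (nat_lit 5808557)]) (PF.cons PF.nil PF.nil)) (PF.cons PF.nil PF.nil))) (PF.cons (PF.cons (PF.cons (PF.leaf (nat_lit 5315006) (nat_lit 2668916) (nat_lit 43191489) (nat_lit 15440134) [(nat_lit 0), (nat_lit 0), (nat_lit 2668916), (nat_lit 5808272)]) (PF.cons PF.nil PF.nil)) (PF.cons PF.nil PF.nil)) (PF.cons PF.nil PF.nil))) (PF.cons (PF.cons (PF.cons (PF.cons (PF.leaf (nat_lit 5918748) (nat_lit 5730399) (nat_lit 40710536) (nat_lit 14937478) [(nat_lit 0), (nat_lit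 0), (nat_lit 0), (nat_lit 5730399)]) (PF.cons PF.nil PF.nil)) (PF.cons PF.nil PF.nil)) (PF.cons PF.nil PF.nil)) (PF.cons PF.nil (PF.cons PF.nil (PF.cons PF.nil PF.nil))))))

def p14_3_2_0 : pfC (piC [(nat_lit 36119186), (nat_lit 28302180), (nat_lit 21119649), (nat_lit 14105872)] (nat_lit 6616487)) p14_3_2 (nat_lit 4) (nat_lit 0) (nat_lit 1) = true := by decide +kernel
def p14_3_2_1 : pfC (piC [(nat_lit 36119186), (nat_lit 28302180), (nat_lit 21119649), (nat_lit 14105872)] (nat_lit 6616487)) p14_3_2 (nat_lit 4) (nat_lit 1) (nat_lit 2) = true := by decide +kernel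
def p14_3_2_2 : pfC (piC [(nat_lit 36119186), (nat_lit 28302180), (nat_lit 21119649), (nat_lit 14105872)] (nat_lit 6616487)) p14_3_2 (nat_lit 4) (nat_lit 2) (nat_lit 3) = true := by decide +kernel
def p14_3_2_3 : pfC (piC [(nat_lit 36119186), (nat_lit 28302180), (nat_lit 21119649), (nat_lit 14105872)] (nat_lit 6616487)) p14_3_2 (nat_lit 4) (nat_lit 3) (nat_lit 4) = true := by decide +kernel
def p14_3_2_4 : pfC (piC [(nat_lit 36119186), (nat_lit 28302180), (nat_lit 21119649), (nat_lit 14105872)] (nat_lit 6616487)) p14_3_2 (nat_lit 4) (nat_lit 4) (nat_lit 5) = true := by decide +kernel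
def p14_3_2_5 : pfC (piC [(nat_lit 36119186), (nat_lit 28302180), (nat_lit 21119649), (nat_lit 14105872)] (nat_lit 6616487)) p14_3_2 (nat_lit 4) (nat_lit 5) (nat_lit 6) = true := by decide +kernel
def p14_3_2_6 : pfC (piC [(nat_lit 36119186), (nat_lit 28302180), (nat_lit 21119649), (nat_lit 14105872)] (nat_lit 6616487)) p14_3_2 (nat_lit 4) (nat_lit 6) (nat_lit 7) = true := by decide +kernel
def p14_3_2_7 : pfC (piC [(nat_lit 36119186), (nat_lit 28302180), (nat_lit 21119649), (nat_lit 14105872)] (nat_lit 6616487)) p14_3_2 (nat_lit 4) (nat_lit 7) (nat_lit 8) = true := by decide +kernel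
def p14_3_2_8 : pfC (piC [(nat_lit 36119186), (nat_lit 28302180), (nat_lit 21119649), (nat_lit 14105872)] (nat_lit 6616487)) p14_3_2 (nat_lit 4) (nat_lit 8) (nat_lit 9) = true := by decide +kernel
def p14_3_2_9 : pfC (piC [(nat_lit 36119186), (nat_lit 28302180), (nat_lit 21119649), (nat_lit 14105872)] (nat_lit 6616487)) p14_3_2 (nat_lit 4) (nat_lit 9) (nat_lit 10) = true := by decide +kernel
def p14_3_2_10 : pfC (piC [(nat_lit 36119186), (nat_lit 28302180), (nat_lit 21119649), (nat_lit 14105872)] (nat_lit 6616487)) p14_3_2 (nat_lit 4) (nat_lit 10) (nat_lit 11) = true := by decide +kernel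
def p14_3_2_11 : pfC (piC [(nat_lit 36119186), (nat_lit 28302180), (nat_lit 21119649), (nat_lit 14105872)] (nat_lit 6616487)) p14_3_2 (nat_lit 4) (nat_lit 11) (nat_lit 12) = true := by decide +kernel
def p14_3_2_12 : pfC (piC [(nat_lit 36119186), (nat_lit 28302180), (nat_lit 21119649), (nat_lit 14105872)] (nat_lit 6616487)) p14_3_2 (nat_lit 4) (nat_lit 12) (nat_lit 13) = true := by decide +kernel
def p14_3_2_13 : pfC (piC [(nat_lit 36119186), (nat_lit 28302180), (nat_lit 21119649), (nat_lit 14105872)] (nat_lit 6616487)) p14_3_2 (nat_lit 4) (nat_lit 13) (nat_lit 14) = true := by decide +kernel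
def p14_3_2_14 : pfC (piC [(nat_lit 36119186), (nat_lit 28302180), (nat_lit 21119649), (nat_lit 14105872)] (nat_lit 6616487)) p14_3_2 (nat_lit 4) (nat_lit 14) (nat_lit 15) = true := by decide +kernel
def p14_3_2_15 : pfC (piC [(nat_lit 36119186), (nat_lit 28302180), (nat_lit 21119649), (nat_lit 14105872)] (nat_lit 6616487)) p14_3_2 (nat_lit 4) (nat_lit 15) (nat_lit 16) = true := by decide +kernel
theorem p14_3_2_T : PfS (PiF n14_3.reverse (nat_lit 6616487)) p14_3_2 (nat_lit 4) [] 0 :=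
  pftab_of (los := [(nat_lit 36119186), (nat_lit 28302180), (nat_lit 21119649), (nat_lit 14105872)]) (by decide +kernel) (hi := (nat_lit 16)) (PfP.trans (PfP.trans (PfP.trans (PfP.trans (PfP.trans (PfP.trans (PfP.trans (PfP.trans (PfP.trans (PfP.trans (PfP.trans (PfP.trans (PfP.trans (PfP.trans (PfP.trans (pfC_sound p14_3_2_0) (pfC_sound p14_3_2_1)) (pfC_sound p14_3_2_2)) (pfC_sound p14_3_2_3)) (pfC_sound p14_3_2_4)) (pfC_sound p14_3_2_5)) (pfC_sound p14_3_2_6)) (pfC_sound p14_3_2_7)) (pfC_sound p14_3_2_8)) (pfC_sound p14_3_2_9)) (pfC_sound p14_3_2_10)) (pfC_sound p14_3_2_11)) (pfC_sound p14_3_2_12)) (pfC_sound p14_3_2_13)) (pfC_sound p14_3_2_14)) (pfC_sound p14_3_2_15)) (by decide +kernel)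

def z14_3_2 : zOK yB14_3 (nat_lit 2) (nat_lit 600) (nat_lit 750) (nat_lit 6616487) (nat_lit 4588660) = true := by decide +kernel
def g14_3_2 : gOK yB14_3.x P14_3 (nat_lit 1418) (q14_3 :: r14_3) (nat_lit 2) (nat_lit 600) (nat_lit 3) (nat_lit 750) (nat_lit 12712500) (nat_lit 12712500) (nat_lit 12712500) (nat_lit 12712500) [(nat_lit 800), (nat_lit 1600)] = true := by decide +kernel
def v14_3_2 : ivC P14_3 s14_3 w14_3 n14_3 (nat_lit 4) (nat_lit 5000) (nat_lit 2) (nat_lit 600) f120_1_600 f128_1_600 (nat_lit 3) (nat_lit 750) f120_1_750 f128_1_750 (nat_lit 6616487) (nat_lit 4588660) p14_3_2 = true := by decide +kernel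
def p14_3_3 : PF := (PF.cons (PF.cons (PF.cons (PF.cons (PF.leaf (nat_lit 3198619) (nat_lit 22685189) (nat_lit 44423623) (nat_lit 22685189) [(nat_lit 0), (nat_lit 0), (nat_lit 0), (nat_lit 0)]) (PF.cons (PF.leaf (nat_lit 3350433) (nat_lit 269718) (nat_lit 44216302) (nat_lit 22622792) [(nat_lit 269718), (nat_lit 0), (nat_lit 0), (nat_lit 0)]) (PF.cons (PF.leaf (nat_lit 3530076) (nat_lit 292765) (nat_lit 43974114) (nat_lit 22549167) [(nat_lit 292765), (nat_lit 0), (nat_lit 0), (nat_lit 0)]) (PF.cons (PF.leaf (nat_lit 3731273) (nat_lit 313039) (nat_lit 43703660) (nat_lit 22466032) [(nat_lit 313039), (nat_lit 0), (nat_lit 0), (nat_lit 0)]) (PF.cons (PF.leaf (nat_lit 3950722) (nat_lit 331154) (nat_lit 43409623) (nat_lit 22374573) [(nat_lit 331154), (nat_lit 0), (nat_lit 0), (nat_lit 0)]) (PF.cons PF.nil (PF.cons PF.nil PF.nil))))))) (PF.cons (PF.cons (PF.leaf (nat_lit 3576237) (nat_lit 828282) (nat_lit 43789098) (nat_lit 22491432) [(nat_lit 0), (nat_lit 828282),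 (nat_lit 0), (nat_lit 0)]) (PF.cons (PF.leaf (nat_lit 3766919) (nat_lit 313691) (nat_lit 43527793) (nat_lit 22410464) [(nat_lit 313691), (nat_lit 856863), (nat_lit 0), (nat_lit 0)]) (PF.cons (PF.leaf (nat_lit 3978561) (nat_lit 331764) (nat_lit
 43240796) (nat_lit 22320529) [(nat_lit 331764), (nat_lit 883958), (nat_lit 0), (nat_lit 0)]) (PF.cons (PF.leaf (nat_lit 4207139) (nat_lit 348039) (nat_lit 42932543) (nat_lit 22222776) [(nat_lit 348039), (nat_lit 909374), (nat_lit 0), (nat_lit 0)]) (PF.cons PF.nil PF.nil))))) (PF.cons (PF.cons (PF.leaf (nat_lit 4011659) (nat_lit 890347) (nat_lit 43064404) (nat_lit 22263713) [(nat_lit 0), (nat_lit 890347), (nat_lit 0), (nat_lit 0)]) (PF.cons (PF.leaf (nat_lit 4231728) (nat_lit 348282) (nat_lit 42763747) (nat_lit 22167694) [(nat_lit 348282), (nat_lit 914544), (nat_lit 0), (nat_lit 0)]) (PF.cons PF.nil (PF.cons PF.nil PF.nil)))) (PF.cons (PF.cons (PF.leaf (nat_lit 4490360) (nat_lit 941586) (nat_lit 42275664) (nat_lit 22008387)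 [(nat_lit 0), (nat_lit 941586), (nat_lit 0), (nat_lit 0)]) (PF.cons PF.nil PF.nil)) (PF.cons PF.nil PF.nil))))) (PF.cons (PF.cons (PF.cons (PF.leaf (nat_lit 4032827) (nat_lit 2380619) (nat_lit 42615918) (nat_lit 22112275) [(nat_lit 0), (nat_lit 0), (nat_lit 2380619), (nat_lit 0)]) (PF.cons (PF.leaf (nat_lit 4233669) (nat_lit 337278) (nat_lit 42341821) (nat_lit 22023310) [(nat_lit 337278), (nat_lit 0), (nat_lit 2406403), (nat_lit 0)]) (PF.cons (PF.leaf (nat_lit
 4454272) (nat_lit 353724) (nat_lit 42043896) (nat_lit 21925580) [(nat_lit 353724), (nat_lit 0), (nat_lit 2431886), (nat_lit 0)]) (PF.cons (PF.leaf (nat_lit 4690507) (nat_lit 368381) (nat_lit 41726776) (nat_lit 21820392) [(nat_lit 368381), (nat_lit 0), (nat_lit 2456498), (nat_lit 0)]) (PF.cons PF.nil PF.nil))))) (PF.cons (PF.cons (PF.leaf (nat_lit 4483162) (nat_lit 934577) (nat_lit 41867424) (nat_lit 21866154) [(nat_lit 0), (nat_lit 934577), (nat_lit 2440656), (nat_lit 0)]) (PF.cons (PF.leaf (nat_lit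 4710757) (nat_lit 367853) (nat_lit 41558904) (nat_lit 21763172) [(nat_lit 367853), (nat_lit 955188), (nat_lit 2463693), (nat_lit 0)]) (PF.cons PF.nil (PF.cons PF.nil PF.nil)))) (PF.cons (PF.cons (PF.leaf (nat_lit 4971410) (nat_lit 977388) (nat_lit 41066750) (nat_lit 21595533) [(nat_lit 0), (nat_lit 977388), (nat_lit 2491751), (nat_lit 0)]) (PF.cons PF.nil PF.nil)) PF.nil))) (PF.cons (PF.cons (PF.cons (PF.leaf (nat_lit 4952246) (nat_lit 2489331) (nat_lit 40676124) (nat_lit 21454025) [(nat_lit 0), (nat_lit 0), (nat_lit 2489331), (nat_lit 0)]) (PF.cons (PF.leaf (nat_lit 5185329) (nat_lit 383763) (nat_lit 40364061) (nat_lit 21345626) [(nat_lit 383763), (nat_lit 0), (nat_lit 2507680),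
 (nat_lit 0)]) PF.nil)) (PF.cons PF.nil PF.nil)) (PF.cons PF.nil (PF.cons PF.nil PF.nil))))) (PF.cons (PF.cons (PF.cons (PF.cons (PF.leaf (nat_lit 4644517) (nat_lit 5406445) (nat_lit 40380489) (nat_lit 21321877) [(nat_lit 0), (nat_lit 0), (nat_lit 0), (nat_lit 5406445)]) (PF.cons (PF.leaf (nat_lit 4847875) (nat_lit 350175) (nat_lit 40113883) (nat_lit 21229004) [(nat_lit 350175), (nat_lit 0), (nat_lit 0), (nat_lit 5415750)]) (PF.cons (PF.leaf (nat_lit 5070052) (nat_lit 365743) (nat_lit 39825393) (nat_lit 21127604) [(nat_lit 365743), (nat_lit 0), (nat_lit 0), (nat_lit 5424328)]) (PF.cons (PF.leaf (nat_lit 5306876) (nat_lit 379410) (nat_lit 39519623) (nat_lit 21019117) [(nat_lit 379410), (nat_lit 0), (nat_lit 0), (nat_lit 5431839)]) (PF.cons PF.nil PF.nil))))) (PF.cons (PF.cons (PF.leaf (nat_lit 5094678) (nat_lit 958774) (nat_lit 39657276) (nat_lit 21067096) [(nat_lit 0), (nat_lit 958774), (nat_lit 0), (nat_lit 5425666)]) (PF.cons (PF.leaf (nat_lit 5322740) (nat_lit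 378262) (nat_lit 39360325) (nat_lit 20961191) [(nat_lit 378262), (nat_lit 976809), (nat_lit 0), (nat_lit 5432224)]) (PF.cons PF.nil (PF.cons PF.nil PF.nil)))) (PF.cons (PF.cons (PF.leaf (nat_lit 5578432) (nat_lit 995187)
 (nat_lit 38890729) (nat_lit 20790746) [(nat_lit 0), (nat_lit 995187), (nat_lit 0), (nat_lit 5436961)]) (PF.cons PF.nil PF.nil)) PF.nil))) (PF.cons (PF.cons (PF.cons (PF.leaf (nat_lit 5547887) (nat_lit 2503920) (nat_lit 38529209) (nat_lit 20652032) [(nat_lit 0), (nat_lit 0), (nat_lit 2503920), (nat_lit 5423651)]) (PF.cons (PF.leaf (nat_lit 5779842) (nat_lit 391041) (nat_lit 38231691) (nat_lit 20542367) [(nat_lit 391041), (nat_lit 0), (nat_lit 2517744), (nat_lit 5425968)]) PF.nil)) (PF.cons PF.nil PF.nil)) (PF.cons PF.nil PF.nil))) (PF.cons (PF.cons (PF.cons (PF.cons (PF.leaf (nat_lit 6110108) (nat_lit 5353277) (nat_lit 36533843) (nat_lit 19868414) [(nat_lit 0), (nat_lit 0), (nat_lit 0), (nat_lit 5353277)]) (PF.cons PF.nil PF.nil)) (PF.cons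 PF.nil PF.nil)) (PF.cons PF.nil PF.nil)) (PF.cons PF.nil (PF.cons PF.nil (PF.cons PF.nil PF.nil))))))

def p14_3_3_0 : pfC (piC [(nat_lit 36119186), (nat_lit 28302180), (nat_lit 21119649), (nat_lit 14105872)] (nat_lit 4588660)) p14_3_3 (nat_lit 4) (nat_lit 0) (nat_lit 1) = true := by decide +kernel
def p14_3_3_1 : pfC (piC [(nat_lit 36119186), (nat_lit 28302180), (nat_lit 21119649), (nat_lit 14105872)] (nat_lit 4588660)) p14_3_3 (nat_lit 4) (nat_lit 1) (nat_lit 2) = true := by decide +kernel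
def p14_3_3_2 : pfC (piC [(nat_lit 36119186), (nat_lit 28302180), (nat_lit 21119649), (nat_lit 14105872)] (nat_lit 4588660)) p14_3_3 (nat_lit 4) (nat_lit 2) (nat_lit 3) = true := by decide +kernel
def p14_3_3_3 : pfC (piC [(nat_lit 36119186), (nat_lit 28302180), (nat_lit 21119649), (nat_lit 14105872)] (nat_lit 4588660)) p14_3_3 (nat_lit 4) (nat_lit 3) (nat_lit 4) = true := by decide +kernel
def p14_3_3_4 : pfC (piC [(nat_lit 36119186), (nat_lit 28302180), (nat_lit 21119649), (nat_lit 14105872)] (nat_lit 4588660)) p14_3_3 (nat_lit 4) (nat_lit 4) (nat_lit 5) = true := by decide +kernel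
def p14_3_3_5 : pfC (piC [(nat_lit 36119186), (nat_lit 28302180), (nat_lit 21119649), (nat_lit 14105872)] (nat_lit 4588660)) p14_3_3 (nat_lit 4) (nat_lit 5) (nat_lit 6) = true := by decide +kernel
def p14_3_3_6 : pfC (piC [(nat_lit 36119186), (nat_lit 28302180), (nat_lit 21119649), (nat_lit 14105872)] (nat_lit 4588660)) p14_3_3 (nat_lit 4) (nat_lit 6) (nat_lit 7) = true := by decide +kernel
def p14_3_3_7 : pfC (piC [(nat_lit 36119186), (nat_lit 28302180), (nat_lit 21119649), (nat_lit 14105872)] (nat_lit 4588660)) p14_3_3 (nat_lit 4) (nat_lit 7) (nat_lit 8) = true := by decide +kernel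
def p14_3_3_8 : pfC (piC [(nat_lit 36119186), (nat_lit 28302180), (nat_lit 21119649), (nat_lit 14105872)] (nat_lit 4588660)) p14_3_3 (nat_lit 4) (nat_lit 8) (nat_lit 9) = true := by decide +kernel
def p14_3_3_9 : pfC (piC [(nat_lit 36119186), (nat_lit 28302180), (nat_lit 21119649), (nat_lit 14105872)] (nat_lit 4588660)) p14_3_3 (nat_lit 4) (nat_lit 9) (nat_lit 10) = true := by decide +kernel
def p14_3_3_10 : pfC (piC [(nat_lit 36119186), (nat_lit 28302180), (nat_lit 21119649), (nat_lit 14105872)] (nat_lit 4588660)) p14_3_3 (nat_lit 4) (nat_lit 10) (nat_lit 11) = true := by decide +kernel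
def p14_3_3_11 : pfC (piC [(nat_lit 36119186), (nat_lit 28302180), (nat_lit 21119649), (nat_lit 14105872)] (nat_lit 4588660)) p14_3_3 (nat_lit 4) (nat_lit 11) (nat_lit 12) = true := by decide +kernel
def p14_3_3_12 : pfC (piC [(nat_lit 36119186), (nat_lit 28302180), (nat_lit 21119649), (nat_lit 14105872)] (nat_lit 4588660)) p14_3_3 (nat_lit 4) (nat_lit 12) (nat_lit 13) = true := by decide +kernel
def p14_3_3_13 : pfC (piC [(nat_lit 36119186), (nat_lit 28302180), (nat_lit 21119649), (nat_lit 14105872)] (nat_lit 4588660)) p14_3_3 (nat_lit 4) (nat_lit 13) (nat_lit 14) = true := by decide +kernel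
def p14_3_3_14 : pfC (piC [(nat_lit 36119186), (nat_lit 28302180), (nat_lit 21119649), (nat_lit 14105872)] (nat_lit 4588660)) p14_3_3 (nat_lit 4) (nat_lit 14) (nat_lit 15) = true := by decide +kernel
def p14_3_3_15 : pfC (piC [(nat_lit 36119186), (nat_lit 28302180), (nat_lit 21119649), (nat_lit 14105872)] (nat_lit 4588660)) p14_3_3 (nat_lit 4) (nat_lit 15) (nat_lit 16) = true := by decide +kernel
def p14_3_3_16 : pfC (piC [(nat_lit 36119186), (nat_lit 28302180), (nat_lit 21119649), (nat_lit 14105872)] (nat_lit 4588660)) p14_3_3 (nat_lit 4) (nat_lit 16) (nat_lit 17) = true := by decide +kernel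
def p14_3_3_17 : pfC (piC [(nat_lit 36119186), (nat_lit 28302180), (nat_lit 21119649), (nat_lit 14105872)] (nat_lit 4588660)) p14_3_3 (nat_lit 4) (nat_lit 17) (nat_lit 18) = true := by decide +kernel
def p14_3_3_18 : pfC (piC [(nat_lit 36119186), (nat_lit 28302180), (nat_lit 21119649), (nat_lit 14105872)] (nat_lit 4588660)) p14_3_3 (nat_lit 4) (nat_lit 18) (nat_lit 19) = true := by decide +kernel
def p14_3_3_19 : pfC (piC [(nat_lit 36119186), (nat_lit 28302180), (nat_lit 21119649), (nat_lit 14105872)] (nat_lit 4588660)) p14_3_3 (nat_lit 4) (nat_lit 19) (nat_lit 20) = true := by decide +kernel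
def p14_3_3_20 : pfC (piC [(nat_lit 36119186), (nat_lit 28302180), (nat_lit 21119649), (nat_lit 14105872)] (nat_lit 4588660)) p14_3_3 (nat_lit 4) (nat_lit 20) (nat_lit 21) = true := by decide +kernel
def p14_3_3_21 : pfC (piC [(nat_lit 36119186), (nat_lit 28302180), (nat_lit 21119649), (nat_lit 14105872)] (nat_lit 4588660)) p14_3_3 (nat_lit 4) (nat_lit 21) (nat_lit 22) = true := by decide +kernel
def p14_3_3_22 : pfC (piC [(nat_lit 36119186), (nat_lit 28302180), (nat_lit 21119649), (nat_lit 14105872)] (nat_lit 4588660)) p14_3_3 (nat_lit 4) (nat_lit 22) (nat_lit 23) = true := by decide +kernel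
def p14_3_3_23 : pfC (piC [(nat_lit 36119186), (nat_lit 28302180), (nat_lit 21119649), (nat_lit 14105872)] (nat_lit 4588660)) p14_3_3 (nat_lit 4) (nat_lit 23) (nat_lit 24) = true := by decide +kernel
def p14_3_3_24 : pfC (piC [(nat_lit 36119186), (nat_lit 28302180), (nat_lit 21119649), (nat_lit 14105872)] (nat_lit 4588660)) p14_3_3 (nat_lit 4) (nat_lit 24) (nat_lit 25) = true := by decide +kernel
def p14_3_3_25 : pfC (piC [(nat_lit 36119186), (nat_lit 28302180), (nat_lit 21119649), (nat_lit 14105872)] (nat_lit 4588660)) p14_3_3 (nat_lit 4) (nat_lit 25) (nat_lit 26) = true := by decide +kernel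
def p14_3_3_26 : pfC (piC [(nat_lit 36119186), (nat_lit 28302180), (nat_lit 21119649), (nat_lit 14105872)] (nat_lit 4588660)) p14_3_3 (nat_lit 4) (nat_lit 26) (nat_lit 27) = true := by decide +kernel
def p14_3_3_27 : pfC (piC [(nat_lit 36119186), (nat_lit 28302180), (nat_lit 21119649), (nat_lit 14105872)] (nat_lit 4588660)) p14_3_3 (nat_lit 4) (nat_lit 27) (nat_lit 28) = true := by decide +kernel
def p14_3_3_28 : pfC (piC [(nat_lit 36119186), (nat_lit 28302180), (nat_lit 21119649), (nat_lit 14105872)] (nat_lit 4588660)) p14_3_3 (nat_lit 4) (nat_lit 28) (nat_lit 29) = true := by decide +kernel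
def p14_3_3_29 : pfC (piC [(nat_lit 36119186), (nat_lit 28302180), (nat_lit 21119649), (nat_lit 14105872)] (nat_lit 4588660)) p14_3_3 (nat_lit 4) (nat_lit 29) (nat_lit 30) = true := by decide +kernel
def p14_3_3_30 : pfC (piC [(nat_lit 36119186), (nat_lit 28302180), (nat_lit 21119649), (nat_lit 14105872)] (nat_lit 4588660)) p14_3_3 (nat_lit 4) (nat_lit 30) (nat_lit 31) = true := by decide +kernel
theorem p14_3_3_T : PfS (PiF n14_3.reverse (nat_lit 4588660)) p14_3_3 (nat_lit 4) [] 0 :=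
  pftab_of (los := [(nat_lit 36119186), (nat_lit 28302180), (nat_lit 21119649), (nat_lit 14105872)]) (by decide +kernel) (hi := (nat_lit 31)) (PfP.trans (PfP.trans (PfP.trans (PfP.trans (PfP.trans (PfP.trans (PfP.trans (PfP.trans (PfP.trans (PfP.trans (PfP.trans (PfP.trans (PfP.trans (PfP.trans (PfP.trans (PfP.trans (PfP.trans (PfP.trans (PfP.trans (PfP.trans (PfP.trans (PfP.trans (PfP.trans (PfP.trans (PfP.trans (PfP.trans (PfP.trans (PfP.trans (PfP.trans (PfP.trans (pfC_sound p14_3_3_0) (pfC_sound p14_3_3_1)) (pfC_sound p14_3_3_2)) (pfC_sound p14_3_3_3)) (pfC_sound p14_3_3_4)) (pfC_sound p14_3_3_5)) (pfC_sound p14_3_3_6)) (pfC_sound p14_3_3_7)) (pfC_sound p14_3_3_8)) (pfC_sound p14_3_3_9)) (pfC_sound p14_3_3_10)) (pfC_sound p14_3_3_11)) (pfC_sound p14_3_3_12)) (pfC_sound p14_3_3_13)) (pfC_sound p14_3_3_14)) (pfC_sound p14_3_3_15)) (pfC_sound p14_3_3_16)) (pfC_sound p14_3_3_17)) (pfC_sound p14_3_3_18)) (pfC_sound p14_3_3_19)) (pfC_sound p14_3_3_20)) (pfC_sound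 p14_3_3_21)) (pfC_sound p14_3_3_22)) (pfC_sound p14_3_3_23)) (pfC_sound p14_3_3_24)) (pfC_sound p14_3_3_25)) (pfC_sound p14_3_3_26)) (pfC_sound p14_3_3_27)) (pfC_sound p14_3_3_28)) (pfC_sound p14_3_3_29)) (pfC_sound p14_3_3_30)) (by decide +kernel)

def z14_3_3 : zOK yB14_3 (nat_lit 3) (nat_lit 750) (nat_lit 960) (nat_lit 4588660) (nat_lit 2131934) = true := by decide +kernel
def g14_3_3 : gOK yB14_3.x P14_3 (nat_lit 1418) (q14_3 :: r14_3) (nat_lit 3) (nat_lit 750) (nat_lit 4) (nat_lit 960) (nat_lit 12712500) (nat_lit 12712500) (nat_lit 12712500) (nat_lit 12712500) [(nat_lit 800)] = true := by decide +kernel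
def v14_3_3 : ivC P14_3 s14_3 w14_3 n14_3 (nat_lit 4) (nat_lit 4850) (nat_lit 3) (nat_lit 750) f120_1_750 f128_1_750 (nat_lit 4) (nat_lit 960) f120_1_960 f128_1_960 (nat_lit 4588660) (nat_lit 2131934) p14_3_3 = true := by decide +kernel
end CB
end Pool.Agent.Lib.MP_6947cd_al
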