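import Pool.Agent.Lib.MP_6947cd_al.L.BoxDataB
import Pool.Agent.Lib.MP_6947cd_al.L.TeD2
import Pool.Agent.Lib.MP_6947cd_al.L.TeD3
import Pool.Agent.Lib.MP_6947cd_al.L.TeD4

/-!
Problem MP_6947cd_al (Chollet).  CASE B, rows `j`: boxes (generated).
-/

set_option autoImplicit false
set_option linter.defProp false
set_option maxRecDepth 20000

namespace Pool.Agent.Lib.MP_6947cd_al
namespace CB

open Ent Ent.Pk Fr Fr.WT CA

/-! box `yB14_4` -/

def P14_4 : BQ := ⟨(nat_lit 8), (nat_lit 4), (nat_lit 4), (nat_lit 0), (nat_lit 8), (nat_lit 620), (nat_lit 640), (nat_lit 120), [(nat_lit 200), (nat_lit 300), (nat_lit 450), (nat_lit 800)], (nat_lit 40736000), (nat_lit 16000000), (nat_lit 16000000000)⟩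
def q14_4 : PC := ⟨(nat_lit 1000), [(nat_lit 120000), (nat_lit 200000), (nat_lit 300000), (nat_lit 450000), (nat_lit 800000)], (nat_lit 340282367000166625996085689103316680705000000), (nat_lit 15959264000000), (nat_lit 15959264000000), (nat_lit 10000000)⟩
def r14_4 : List PC := [⟨(nat_lit 1346), [(nat_lit 120548), (nat_lit 200998), (nat_lit 301898), (nat_lit 452412), (nat_lit 800045)], (nat_lit 342446222572002132121832474152781741930008752), (nat_lit 16354910122560), (nat_lit 16368495577280), (nat_lit 10063267)⟩]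
def s14_4 : List PB := [⟨(nat_lit 26920), (nat_lit 1928768000000), [(nat_lit 200998), (nat_lit 301898), (nat_lit 452412), (nat_lit 800045)], (nat_lit 342446222572002132121832474152781741930008752), (nat_lit 1142254816965184), (nat_lit 1142268402419904), (nat_lit 55360)⟩]
def n14_4 : List KN := [⟨(nat_lit 800), (nat_lit 450), (nat_lit 14064972), (nat_lit 9441761)⟩, ⟨(nat_lit 450), (nat_lit 300), (nat_lit 20874739), (nat_lit 14064972)⟩, ⟨(nat_lit 300), (nat_lit 200), (nat_lit 28473124), (nat_lit 20874739)⟩, ⟨(nat_lit 200), (nat_lit 120), (nat_lit 39633164), (nat_lit 28473124)⟩]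
def w14_4 : List ℕ := [(nat_lit 55360)]
def par14_4 : parC yB14_4 P14_4 s14_4 r14_4 q14_4 n14_4 w14_4 = true := by decide +kernel

def p14_4_0 : PF := (PF.cons (PF.cons (PF.cons (PF.cons (PF.leaf (nat_lit 300749) (nat_lit 732791) (nat_lit 66376021) (nat_lit 732791) [(nat_lit 0), (nat_lit 0), (nat_lit 0), (nat_lit 0)]) (PF.cons (PF.leaf (nat_lit 391207) (nat_lit 136622) (nat_lit 66201024) (nat_lit 771165) [(nat_lit 136622), (nat_lit 0), (nat_lit 0), (nat_lit 0)]) (PF.cons (PF.leaf (nat_lit 509048) (nat_lit 153676) (nat_lit 65988549) (nat_lit 812911) [(nat_lit 153676), (nat_lit 0), (nat_lit 0), (nat_lit 0)]) (PF.cons (PF.leaf (nat_lit 646329) (nat_lit 170177) (nat_lit 65741880) (nat_lit 856400) [(nat_lit 170177), (nat_lit 0), (nat_lit 0), (nat_lit 0)]) (PF.cons PF.nil PF.nil))))) (PF.cons (PF.cons (PF.leaf (nat_lit 633861) (nat_lit 627340) (nat_lit 65615540) (nat_lit 865931) [(nat_lit 0), (nat_lit 627340), (nat_lit 0), (nat_lit 0)]) (PF.cons (PF.leaf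 (nat_lit 768643) (nat_lit 181443) (nat_lit 65360823) (nat_lit 905570) [(nat_lit 181443), (nat_lit 660975), (nat_lit 0), (nat_lit 0)]) (PF.cons (PF.leaf (nat_lit 925699) (nat_lit 197095) (nat_lit 65072705) (nat_lit 946502) [(nat_lit 197095), (nat_lit 695414), (nat_lit 0), (nat_lit 0)]) (PF.cons PF.nil PF.nil)))) (PF.cons (PF.cons (PF.leaf (nat_lit 1056234) (nat_lit 730316) (nat_lit
 64657612) (nat_lit 990567) [(nat_lit 0), (nat_lit 730316), (nat_lit 0), (nat_lit 0)]) (PF.cons PF.nil PF.nil)) (PF.cons PF.nil (PF.cons PF.nil PF.nil))))) (PF.cons (PF.cons (PF.cons (PF.leaf (nat_lit 1160406) (nat_lit 1022031) (nat_lit 63893371) (nat_lit 1022031) [(nat_lit 0), (nat_lit 0), (nat_lit 2193410), (nat_lit 0)]) (PF.cons (PF.leaf (nat_lit 1317910) (nat_lit 219475) (nat_lit 63591587) (nat_lit 1056685) [(nat_lit 219475), (nat_lit 0), (nat_lit 2241065), (nat_lit 0)]) (PF.cons (PF.leaf (nat_lit 1496805) (nat_lit 234751) (nat_lit 63256235) (nat_lit 1092253) [(nat_lit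 234751), (nat_lit 0), (nat_lit 2290820), (nat_lit 0)]) (PF.cons PF.nil PF.nil)))) (PF.cons (PF.cons (PF.leaf (nat_lit 1632752) (nat_lit 838962) (nat_lit 62793974) (nat_lit 1128358) [(nat_lit 0), (nat_lit 838962), (nat_lit 2347516), (nat_lit 0)]) (PF.cons PF.nil PF.nil)) (PF.cons PF.nil PF.nil))) (PF.cons (PF.cons (PF.cons (PF.leaf (nat_lit 2231111) (nat_lit 1240838) (nat_lit 60810289) (nat_lit 1240838) [(nat_lit 0), (nat_lit 0), (nat_lit 2528842), (nat_lit 0)]) (PF.cons PF.nil PF.nil)) (PF.cons PF.nil PF.nil)) (PF.cons PF.nil (PF.cons PF.nil PF.nil))))) (PF.cons (PF.cons (PF.cons (PF.cons (PF.leaf (nat_lit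
 2017866) (nat_lit 1172777) (nat_lit 59915762) (nat_lit 1172777) [(nat_lit 0), (nat_lit 0), (nat_lit 0), (nat_lit 6020273)]) (PF.cons (PF.leaf (nat_lit 2190411) (nat_lit 253985) (nat_lit 59592003) (nat_lit 1202831) [(nat_lit 253985), (nat_lit 0), (nat_lit 0), (nat_lit 6059993)]) (PF.cons (PF.leaf (nat_lit 2383220) (nat_lit 269162) (nat_lit 59235907) (nat_lit 1233181) [(nat_lit 269162), (nat_lit 0), (nat_lit 0), (nat_lit 6101398)]) (PF.cons (PF.leaf (nat_lit 2592516) (nat_lit 283232) (nat_lit 58852367) (nat_lit 1263281) [(nat_lit 283232), (nat_lit 0), (nat_lit 0), (nat_lit 6143466)]) (PF.cons (PF.leaf (nat_lit 2816401) (nat_lit 296388) (nat_lit 58445031) (nat_lit 1292798) [(nat_lit 296388), (nat_lit 0), (nat_lit 0), (nat_lit 6185429)]) PF.nil))))) (PF.cons (PF.cons (PF.leaf (nat_lit 2517485) (nat_lit 942135) (nat_lit 58756358) (nat_lit 1261269) [(nat_lit 0), (nat_lit 942135), (nat_lit 0), (nat_lit 6149050)]) (PF.cons (PF.leaf (nat_lit 2722236) (nat_lit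 289263) (nat_lit 58375827) (nat_lit 1289148) [(nat_lit 289263), (nat_lit 966828), (nat_lit 0), (nat_lit 6187745)]) (PF.cons (PF.leaf (nat_lit 2943457) (nat_lit 302193) (nat_lit 57970180) (nat_lit 1316717) [(nat_lit 302193), (nat_lit
 991043), (nat_lit 0), (nat_lit 6226485)]) (PF.cons PF.nil PF.nil)))) (PF.cons (PF.cons (PF.leaf (nat_lit 3074030) (nat_lit 1009626) (nat_lit 57484744) (nat_lit 1339633) [(nat_lit 0), (nat_lit 1009626), (nat_lit 0), (nat_lit 6265181)]) (PF.cons (PF.leaf (nat_lit 3304849) (nat_lit 319388) (nat_lit 57060887) (nat_lit 1364868) [(nat_lit 319388), (nat_lit 1031761), (nat_lit 0), (nat_lit 6300145)]) PF.nil)) (PF.cons PF.nil (PF.cons PF.nil PF.nil))))) (PF.cons (PF.cons (PF.cons (PF.leaf (nat_lit 3106671) (nat_lit 1344614) (nat_lit 56767535) (nat_lit 1344614) [(nat_lit 0), (nat_lit 0), (nat_lit 2702029), (nat_lit 6294633)]) (PF.cons (PF.leaf (nat_lit 3322109) (nat_lit 312739) (nat_lit 56371742) (nat_lit 1368510) [(nat_lit 312739),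 (nat_lit 0), (nat_lit 2731497), (nat_lit 6324322)]) (PF.cons (PF.leaf (nat_lit 3553012) (nat_lit 324796) (nat_lit 55952797) (nat_lit 1392011) [(nat_lit 324796), (nat_lit 0), (nat_lit 2760823), (nat_lit 6353588)]) (PF.cons PF.nil PF.nil)))) (PF.cons (PF.cons (PF.leaf (nat_lit 3680799) (nat_lit 1067514) (nat_lit 55462810) (nat_lit 1410383) [(nat_lit 0), (nat_lit 1067514), (nat_lit 2787163), (nat_lit 6380941)]) (PF.cons PF.nil PF.nil)) (PF.cons PF.nil PF.nil)))
 (PF.cons (PF.cons (PF.cons (PF.leaf (nat_lit 4281541) (nat_lit 1466215) (nat_lit 53455080) (nat_lit 1466215) [(nat_lit 0), (nat_lit 0), (nat_lit 2866118), (nat_lit 6455279)]) (PF.cons PF.nil PF.nil)) (PF.cons PF.nil PF.nil)) (PF.cons PF.nil (PF.cons PF.nil PF.nil))))) (PF.cons (PF.cons (PF.cons (PF.cons (PF.leaf (nat_lit 3923554) (nat_lit 1409804) (nat_lit 52930735) (nat_lit 1409804) [(nat_lit 0), (nat_lit 0), (nat_lit 0), (nat_lit 6384136)]) (PF.cons (PF.leaf (nat_lit 4141453) (nat_lit 329896)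 (nat_lit 52548171) (nat_lit 1429605) [(nat_lit 329896), (nat_lit 0), (nat_lit 0), (nat_lit 6400569)]) (PF.cons (PF.leaf (nat_lit 4373709) (nat_lit 341186) (nat_lit 52145077) (nat_lit 1448840) [(nat_lit 341186), (nat_lit 0), (nat_lit 0), (nat_lit 6416261)]) (PF.cons PF.nil (PF.cons PF.nil PF.nil))))) (PF.cons (PF.cons (PF.leaf (nat_lit 4493227) (nat_lit 1109790) (nat_lit 51679597) (nat_lit 1462307) [(nat_lit 0), (nat_lit 1109790), (nat_lit 0), (nat_lit 6428558)]) (PF.cons (PF.leaf (nat_lit 4731646) (nat_lit 354135) (nat_lit 51267071) (nat_lit 1479544) [(nat_lit 354135), (nat_lit 1125730), (nat_lit 0), (nat_lit 6441165)]) (PF.cons PF.nil (PF.cons PF.nil PF.nil)))) (PF.cons (PF.cons (PF.leaf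
 (nat_lit 5093577) (nat_lit 1149644) (nat_lit 50384446) (nat_lit 1506533) [(nat_lit 0), (nat_lit 1149644), (nat_lit 0), (nat_lit 6459272)]) (PF.cons PF.nil PF.nil)) PF.nil))) (PF.cons (PF.cons (PF.cons (PF.leaf (nat_lit 5063061) (nat_lit 1501043) (nat_lit 49798618) (nat_lit 1501043) [(nat_lit 0), (nat_lit 0), (nat_lit 2910035), (nat_lit 6449557)]) (PF.cons (PF.leaf (nat_lit 5304499) (nat_lit 366839) (nat_lit 49389916) (nat_lit 1515421) [(nat_lit 366839), (nat_lit 0), (nat_lit 2924836), (nat_lit 6455899)]) PF.nil)) (PF.cons PF.nil PF.nil)) (PF.cons PF.nil PF.nil))) (PF.cons (PF.cons (PF.cons (PF.cons (PF.leaf (nat_lit 5779082) (nat_lit 1515280) (nat_lit 46455995) (nat_lit 1515280) [(nat_lit 0), (nat_lit 0), (nat_lit 0), (nat_lit 6379178)]) (PF.cons PF.nil PF.nil)) (PF.cons PF.nil PF.nil)) (PF.cons PF.nil PF.nil)) (PF.cons PF.nil (PF.cons PF.nil (PF.cons PF.nil (PF.cons PF.nil PF.nil))))))))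

def p14_4_0_0 : pfC (piC [(nat_lit 39633164), (nat_lit 28473124), (nat_lit 20874739), (nat_lit 14064972)] (nat_lit 34420195)) p14_4_0 (nat_lit 4) (nat_lit 0) (nat_lit 1) = true := by decide +kernel
def p14_4_0_1 : pfC (piC [(nat_lit 39633164), (nat_lit 28473124), (nat_lit 20874739), (nat_lit 14064972)] (nat_lit 34420195)) p14_4_0 (nat_lit 4) (nat_lit 1) (nat_lit 2) = true := by decide +kernel
def p14_4_0_2 : pfC (piC [(nat_lit 39633164), (nat_lit 28473124), (nat_lit 20874739), (nat_lit 14064972)] (nat_lit 34420195)) p14_4_0 (nat_lit 4) (nat_lit 2) (nat_lit 3) = true := by decide +kernel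
def p14_4_0_3 : pfC (piC [(nat_lit 39633164), (nat_lit 28473124), (nat_lit 20874739), (nat_lit 14064972)] (nat_lit 34420195)) p14_4_0 (nat_lit 4) (nat_lit 3) (nat_lit 4) = true := by decide +kernel
def p14_4_0_4 : pfC (piC [(nat_lit 39633164), (nat_lit 28473124), (nat_lit 20874739), (nat_lit 14064972)] (nat_lit 34420195)) p14_4_0 (nat_lit 4) (nat_lit 4) (nat_lit 5) = true := by decide +kernel
def p14_4_0_5 : pfC (piC [(nat_lit 39633164), (nat_lit 28473124), (nat_lit 20874739), (nat_lit 14064972)] (nat_lit 34420195)) p14_4_0 (nat_lit 4) (nat_lit 5) (nat_lit 6) = true := by decide +kernel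
def p14_4_0_6 : pfC (piC [(nat_lit 39633164), (nat_lit 28473124), (nat_lit 20874739), (nat_lit 14064972)] (nat_lit 34420195)) p14_4_0 (nat_lit 4) (nat_lit 6) (nat_lit 7) = true := by decide +kernel
def p14_4_0_7 : pfC (piC [(nat_lit 39633164), (nat_lit 28473124), (nat_lit 20874739), (nat_lit 14064972)] (nat_lit 34420195)) p14_4_0 (nat_lit 4) (nat_lit 7) (nat_lit 8) = true := by decide +kernel
def p14_4_0_8 : pfC (piC [(nat_lit 39633164), (nat_lit 28473124), (nat_lit 20874739), (nat_lit 14064972)] (nat_lit 34420195)) p14_4_0 (nat_lit 4) (nat_lit 8) (nat_lit 9) = true := by decide +kernel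
def p14_4_0_9 : pfC (piC [(nat_lit 39633164), (nat_lit 28473124), (nat_lit 20874739), (nat_lit 14064972)] (nat_lit 34420195)) p14_4_0 (nat_lit 4) (nat_lit 9) (nat_lit 10) = true := by decide +kernel
def p14_4_0_10 : pfC (piC [(nat_lit 39633164), (nat_lit 28473124), (nat_lit 20874739), (nat_lit 14064972)] (nat_lit 34420195)) p14_4_0 (nat_lit 4) (nat_lit 10) (nat_lit 11) = true := by decide +kernel
def p14_4_0_11 : pfC (piC [(nat_lit 39633164), (nat_lit 28473124), (nat_lit 20874739), (nat_lit 14064972)] (nat_lit 34420195)) p14_4_0 (nat_lit 4) (nat_lit 11) (nat_lit 12) = true := by decide +kernel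
def p14_4_0_12 : pfC (piC [(nat_lit 39633164), (nat_lit 28473124), (nat_lit 20874739), (nat_lit 14064972)] (nat_lit 34420195)) p14_4_0 (nat_lit 4) (nat_lit 12) (nat_lit 13) = true := by decide +kernel
def p14_4_0_13 : pfC (piC [(nat_lit 39633164), (nat_lit 28473124), (nat_lit 20874739), (nat_lit 14064972)] (nat_lit 34420195)) p14_4_0 (nat_lit 4) (nat_lit 13) (nat_lit 14) = true := by decide +kernel
def p14_4_0_14 : pfC (piC [(nat_lit 39633164), (nat_lit 28473124), (nat_lit 20874739), (nat_lit 14064972)] (nat_lit 34420195)) p14_4_0 (nat_lit 4) (nat_lit 14) (nat_lit 15) = true := by decide +kernel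
def p14_4_0_15 : pfC (piC [(nat_lit 39633164), (nat_lit 28473124), (nat_lit 20874739), (nat_lit 14064972)] (nat_lit 34420195)) p14_4_0 (nat_lit 4) (nat_lit 15) (nat_lit 16) = true := by decide +kernel
def p14_4_0_16 : pfC (piC [(nat_lit 39633164), (nat_lit 28473124), (nat_lit 20874739), (nat_lit 14064972)] (nat_lit 34420195)) p14_4_0 (nat_lit 4) (nat_lit 16) (nat_lit 17) = true := by decide +kernel
def p14_4_0_17 : pfC (piC [(nat_lit 39633164), (nat_lit 28473124), (nat_lit 20874739), (nat_lit 14064972)] (nat_lit 34420195)) p14_4_0 (nat_lit 4) (nat_lit 17) (nat_lit 18) = true := by decide +kernel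
def p14_4_0_18 : pfC (piC [(nat_lit 39633164), (nat_lit 28473124), (nat_lit 20874739), (nat_lit 14064972)] (nat_lit 34420195)) p14_4_0 (nat_lit 4) (nat_lit 18) (nat_lit 19) = true := by decide +kernel
def p14_4_0_19 : pfC (piC [(nat_lit 39633164), (nat_lit 28473124), (nat_lit 20874739), (nat_lit 14064972)] (nat_lit 34420195)) p14_4_0 (nat_lit 4) (nat_lit 19) (nat_lit 20) = true := by decide +kernel
def p14_4_0_20 : pfC (piC [(nat_lit 39633164), (nat_lit 28473124), (nat_lit 20874739), (nat_lit 14064972)] (nat_lit 34420195)) p14_4_0 (nat_lit 4) (nat_lit 20) (nat_lit 21) = true := by decide +kernel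
def p14_4_0_21 : pfC (piC [(nat_lit 39633164), (nat_lit 28473124), (nat_lit 20874739), (nat_lit 14064972)] (nat_lit 34420195)) p14_4_0 (nat_lit 4) (nat_lit 21) (nat_lit 22) = true := by decide +kernel
def p14_4_0_22 : pfC (piC [(nat_lit 39633164), (nat_lit 28473124), (nat_lit 20874739), (nat_lit 14064972)] (nat_lit 34420195)) p14_4_0 (nat_lit 4) (nat_lit 22) (nat_lit 23) = true := by decide +kernel
def p14_4_0_23 : pfC (piC [(nat_lit 39633164), (nat_lit 28473124), (nat_lit 20874739), (nat_lit 14064972)] (nat_lit 34420195)) p14_4_0 (nat_lit 4) (nat_lit 23) (nat_lit 24) = true := by decide +kernel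
def p14_4_0_24 : pfC (piC [(nat_lit 39633164), (nat_lit 28473124), (nat_lit 20874739), (nat_lit 14064972)] (nat_lit 34420195)) p14_4_0 (nat_lit 4) (nat_lit 24) (nat_lit 25) = true := by decide +kernel
def p14_4_0_25 : pfC (piC [(nat_lit 39633164), (nat_lit 28473124), (nat_lit 20874739), (nat_lit 14064972)] (nat_lit 34420195)) p14_4_0 (nat_lit 4) (nat_lit 25) (nat_lit 26) = true := by decide +kernel
def p14_4_0_26 : pfC (piC [(nat_lit 39633164), (nat_lit 28473124), (nat_lit 20874739), (nat_lit 14064972)] (nat_lit 34420195)) p14_4_0 (nat_lit 4) (nat_lit 26) (nat_lit 27) = true := by decide +kernel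
def p14_4_0_27 : pfC (piC [(nat_lit 39633164), (nat_lit 28473124), (nat_lit 20874739), (nat_lit 14064972)] (nat_lit 34420195)) p14_4_0 (nat_lit 4) (nat_lit 27) (nat_lit 28) = true := by decide +kernel
def p14_4_0_28 : pfC (piC [(nat_lit 39633164), (nat_lit 28473124), (nat_lit 20874739), (nat_lit 14064972)] (nat_lit 34420195)) p14_4_0 (nat_lit 4) (nat_lit 28) (nat_lit 29) = true := by decide +kernel
def p14_4_0_29 : pfC (piC [(nat_lit 39633164), (nat_lit 28473124), (nat_lit 20874739), (nat_lit 14064972)] (nat_lit 34420195)) p14_4_0 (nat_lit 4) (nat_lit 29) (nat_lit 30) = true := by decide +kernel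
def p14_4_0_30 : pfC (piC [(nat_lit 39633164), (nat_lit 28473124), (nat_lit 20874739), (nat_lit 14064972)] (nat_lit 34420195)) p14_4_0 (nat_lit 4) (nat_lit 30) (nat_lit 31) = true := by decide +kernel
def p14_4_0_31 : pfC (piC [(nat_lit 39633164), (nat_lit 28473124), (nat_lit 20874739), (nat_lit 14064972)] (nat_lit 34420195)) p14_4_0 (nat_lit 4) (nat_lit 31) (nat_lit 32) = true := by decide +kernel
def p14_4_0_32 : pfC (piC [(nat_lit 39633164), (nat_lit 28473124), (nat_lit 20874739), (nat_lit 14064972)] (nat_lit 34420195)) p14_4_0 (nat_lit 4) (nat_lit 32) (nat_lit 33) = true := by decide +kernel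
def p14_4_0_33 : pfC (piC [(nat_lit 39633164), (nat_lit 28473124), (nat_lit 20874739), (nat_lit 14064972)] (nat_lit 34420195)) p14_4_0 (nat_lit 4) (nat_lit 33) (nat_lit 34) = true := by decide +kernel
def p14_4_0_34 : pfC (piC [(nat_lit 39633164), (nat_lit 28473124), (nat_lit 20874739), (nat_lit 14064972)] (nat_lit 34420195)) p14_4_0 (nat_lit 4) (nat_lit 34) (nat_lit 35) = true := by decide +kernel
def p14_4_0_35 : pfC (piC [(nat_lit 39633164), (nat_lit 28473124), (nat_lit 20874739), (nat_lit 14064972)] (nat_lit 34420195)) p14_4_0 (nat_lit 4) (nat_lit 35) (nat_lit 36) = true := by decide +kernel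
def p14_4_0_36 : pfC (piC [(nat_lit 39633164), (nat_lit 28473124), (nat_lit 20874739), (nat_lit 14064972)] (nat_lit 34420195)) p14_4_0 (nat_lit 4) (nat_lit 36) (nat_lit 37) = true := by decide +kernel
theorem p14_4_0_T : PfS (PiF n14_4.reverse (nat_lit 34420195)) p14_4_0 (nat_lit 4) [] 0 :=
  pftab_of (los := [(nat_lit 39633164), (nat_lit 28473124), (nat_lit 20874739), (nat_lit 14064972)]) (by decide +kernel) (hi := (nat_lit 37)) (PfP.trans (PfP.trans (PfP.trans (PfP.trans (PfP.trans (PfP.trans (PfP.trans (PfP.trans (PfP.trans (PfP.trans (PfP.trans (PfP.trans (PfP.trans (PfP.trans (PfP.trans (PfP.trans (PfP.trans (PfP.trans (PfP.trans (PfP.trans (PfP.trans (PfP.trans (PfP.trans (PfP.trans (PfP.trans (PfP.trans (PfP.trans (PfP.trans (PfP.trans (PfP.trans (PfP.trans (PfP.trans (PfP.trans (PfP.trans (PfP.trans (PfP.trans (pfC_sound p14_4_0_0) (pfC_sound p14_4_0_1)) (pfC_sound p14_4_0_2)) (pfC_sound p14_4_0_3)) (pfC_sound p14_4_0_4)) (pfC_sound p14_4_0_5))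 (pfC_sound p14_4_0_6)) (pfC_sound p14_4_0_7)) (pfC_sound p14_4_0_8)) (pfC_sound p14_4_0_9)) (pfC_sound p14_4_0_10)) (pfC_sound p14_4_0_11)) (pfC_sound p14_4_0_12)) (pfC_sound p14_4_0_13)) (pfC_sound p14_4_0_14)) (pfC_sound p14_4_0_15)) (pfC_sound p14_4_0_16)) (pfC_sound p14_4_0_17)) (pfC_sound p14_4_0_18)) (pfC_sound p14_4_0_19)) (pfC_sound p14_4_0_20)) (pfC_sound p14_4_0_21)) (pfC_sound p14_4_0_22)) (pfC_sound p14_4_0_23)) (pfC_sound p14_4_0_24)) (pfC_sound p14_4_0_25)) (pfC_sound p14_4_0_26)) (pfC_sound p14_4_0_27)) (pfC_sound p14_4_0_28)) (pfC_sound p14_4_0_29)) (pfC_sound p14_4_0_30)) (pfC_sound p14_4_0_31)) (pfC_sound p14_4_0_32)) (pfC_sound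
 p14_4_0_33)) (pfC_sound p14_4_0_34)) (pfC_sound p14_4_0_35)) (pfC_sound p14_4_0_36)) (by decide +kernel)

def z14_4_0 : zOK yB14_4 (nat_lit 0) (nat_lit 0) (nat_lit 400) (nat_lit 34420195) (nat_lit 10642110) = true := by decide +kernel
def g14_4_0 : gOK yB14_4.x P14_4 (nat_lit 1424) (q14_4 :: r14_4) (nat_lit 0) (nat_lit 0) (nat_lit 1) (nat_lit 400) (nat_lit 0) (nat_lit 11000000) (nat_lit 12712500) (nat_lit 12712500) [(nat_lit 800), (nat_lit 1600)] = true := by decide +kernel
def v14_4_0 : ivC P14_4 s14_4 w14_4 n14_4 (nat_lit 4) (nat_lit 5580) (nat_lit 0) (nat_lit 0) f120_1_0 f128_1_0 (nat_lit 1) (nat_lit 400) f120_1_400 f128_1_400 (nat_lit 34420195) (nat_lit 10642110) p14_4_0 = true := by decide +kernel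
def p14_4_1 : PF := (PF.cons (PF.cons (PF.cons (PF.cons (PF.leaf (nat_lit 2118917) (nat_lit 10107961) (nat_lit 57000851) (nat_lit 10107961) [(nat_lit 0), (nat_lit 0), (nat_lit 0), (nat_lit 0)]) (PF.cons (PF.leaf (nat_lit 2249701) (nat_lit 215293) (nat_lit 56768662) (nat_lit 10124856) [(nat_lit 215293), (nat_lit 0), (nat_lit 0), (nat_lit 0)]) (PF.cons (PF.leaf (nat_lit 2406329) (nat_lit 234518) (nat_lit 56496337) (nat_lit 10143438) [(nat_lit 234518), (nat_lit 0), (nat_lit 0), (nat_lit 0)]) (PF.cons PF.nil (PF.cons PF.nil PF.nil))))) (PF.cons (PF.cons (PF.leaf (nat_lit 2539350) (nat_lit 884857) (nat_lit 56056327) (nat_lit 10167628) [(nat_lit 0), (nat_lit 884857), (nat_lit 0), (nat_lit 0)]) (PF.cons (PF.leaf (nat_lit 2709725) (nat_lit 258640) (nat_lit 55754153) (nat_lit 10184494) [(nat_lit 258640), (nat_lit 911524), (nat_lit 0), (nat_lit 0)]) (PF.cons PF.nil (PF.cons PF.nil PF.nil)))) (PF.cons (PF.cons (PF.leaf (nat_lit 3028369) (nat_lit 958708) (nat_lit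 54973108) (nat_lit 10218288) [(nat_lit 0), (nat_lit 958708), (nat_lit 0), (nat_lit 0)]) (PF.cons PF.nil PF.nil)) PF.nil))) (PF.cons (PF.cons (PF.cons (PF.leaf (nat_lit 3080102) (nat_lit 2638158) (nat_lit 54248693) (nat_lit 10221960) [(nat_lit 0),
 (nat_lit 0), (nat_lit 2638158), (nat_lit 0)]) (PF.cons (PF.leaf (nat_lit 3262161) (nat_lit 282975) (nat_lit 53929280) (nat_lit 10231539) [(nat_lit 282975), (nat_lit 0), (nat_lit 2665017), (nat_lit 0)]) PF.nil)) (PF.cons PF.nil PF.nil)) (PF.cons PF.nil PF.nil))) (PF.cons (PF.cons (PF.cons (PF.cons (PF.leaf (nat_lit 3839224) (nat_lit 6266829) (nat_lit 50692170) (nat_lit 10149813) [(nat_lit 0), (nat_lit 0), (nat_lit 0), (nat_lit 6266829)]) (PF.cons (PF.leaf (nat_lit 4024876) (nat_lit 298459) (nat_lit 50382726) (nat_lit 10148075) [(nat_lit 298459), (nat_lit 0), (nat_lit 0), (nat_lit 6279550)]) (PF.cons (PF.leaf (nat_lit 4228676) (nat_lit 312332) (nat_lit 50047100) (nat_lit 10144957) [(nat_lit 312332), (nat_lit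 0), (nat_lit 0), (nat_lit 6292089)]) (PF.cons PF.nil PF.nil)))) (PF.cons (PF.cons (PF.leaf (nat_lit 4349234) (nat_lit 1056938) (nat_lit 49613109) (nat_lit 10136158) [(nat_lit 0), (nat_lit 1056938), (nat_lit 0), (nat_lit 6302606)]) (PF.cons PF.nil PF.nil)) (PF.cons PF.nil PF.nil))) (PF.cons (PF.cons (PF.cons (PF.leaf (nat_lit 4885158) (nat_lit 2831514) (nat_lit 47887848) (nat_lit 10073052) [(nat_lit 0), (nat_lit 0), (nat_lit 2831514), (nat_lit 6316397)]) (PF.cons PF.nil PF.nil))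
 (PF.cons PF.nil PF.nil)) (PF.cons PF.nil PF.nil))) (PF.cons (PF.cons (PF.cons (PF.cons (PF.leaf (nat_lit 5566135) (nat_lit 6239663) (nat_lit 44779123) (nat_lit 9850362) [(nat_lit 0), (nat_lit 0), (nat_lit 0), (nat_lit 6239663)]) (PF.cons PF.nil PF.nil)) (PF.cons PF.nil PF.nil)) (PF.cons PF.nil PF.nil)) (PF.cons PF.nil (PF.cons PF.nil (PF.cons PF.nil PF.nil))))))

def p14_4_1_0 : pfC (piC [(nat_lit 39633164), (nat_lit 28473124), (nat_lit 20874739), (nat_lit 14064972)] (nat_lit 10642110)) p14_4_1 (nat_lit 4) (nat_lit 0) (nat_lit 1) = true := by decide +kernel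
def p14_4_1_1 : pfC (piC [(nat_lit 39633164), (nat_lit 28473124), (nat_lit 20874739), (nat_lit 14064972)] (nat_lit 10642110)) p14_4_1 (nat_lit 4) (nat_lit 1) (nat_lit 2) = true := by decide +kernel
def p14_4_1_2 : pfC (piC [(nat_lit 39633164), (nat_lit 28473124), (nat_lit 20874739), (nat_lit 14064972)] (nat_lit 10642110)) p14_4_1 (nat_lit 4) (nat_lit 2) (nat_lit 3) = true := by decide +kernel
def p14_4_1_3 : pfC (piC [(nat_lit 39633164), (nat_lit 28473124), (nat_lit 20874739), (nat_lit 14064972)] (nat_lit 10642110)) p14_4_1 (nat_lit 4) (nat_lit 3) (nat_lit 4) = true := by decide +kernel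
def p14_4_1_4 : pfC (piC [(nat_lit 39633164), (nat_lit 28473124), (nat_lit 20874739), (nat_lit 14064972)] (nat_lit 10642110)) p14_4_1 (nat_lit 4) (nat_lit 4) (nat_lit 5) = true := by decide +kernel
def p14_4_1_5 : pfC (piC [(nat_lit 39633164), (nat_lit 28473124), (nat_lit 20874739), (nat_lit 14064972)] (nat_lit 10642110)) p14_4_1 (nat_lit 4) (nat_lit 5) (nat_lit 6) = true := by decide +kernel
def p14_4_1_6 : pfC (piC [(nat_lit 39633164), (nat_lit 28473124), (nat_lit 20874739), (nat_lit 14064972)] (nat_lit 10642110)) p14_4_1 (nat_lit 4) (nat_lit 6) (nat_lit 7) = true := by decide +kernel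
def p14_4_1_7 : pfC (piC [(nat_lit 39633164), (nat_lit 28473124), (nat_lit 20874739), (nat_lit 14064972)] (nat_lit 10642110)) p14_4_1 (nat_lit 4) (nat_lit 7) (nat_lit 8) = true := by decide +kernel
def p14_4_1_8 : pfC (piC [(nat_lit 39633164), (nat_lit 28473124), (nat_lit 20874739), (nat_lit 14064972)] (nat_lit 10642110)) p14_4_1 (nat_lit 4) (nat_lit 8) (nat_lit 9) = true := by decide +kernel
def p14_4_1_9 : pfC (piC [(nat_lit 39633164), (nat_lit 28473124), (nat_lit 20874739), (nat_lit 14064972)] (nat_lit 10642110)) p14_4_1 (nat_lit 4) (nat_lit 9) (nat_lit 10) = true := by decide +kernel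
def p14_4_1_10 : pfC (piC [(nat_lit 39633164), (nat_lit 28473124), (nat_lit 20874739), (nat_lit 14064972)] (nat_lit 10642110)) p14_4_1 (nat_lit 4) (nat_lit 10) (nat_lit 11) = true := by decide +kernel
def p14_4_1_11 : pfC (piC [(nat_lit 39633164), (nat_lit 28473124), (nat_lit 20874739), (nat_lit 14064972)] (nat_lit 10642110)) p14_4_1 (nat_lit 4) (nat_lit 11) (nat_lit 12) = true := by decide +kernel
def p14_4_1_12 : pfC (piC [(nat_lit 39633164), (nat_lit 28473124), (nat_lit 20874739), (nat_lit 14064972)] (nat_lit 10642110)) p14_4_1 (nat_lit 4) (nat_lit 12) (nat_lit 13) = true := by decide +kernel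
def p14_4_1_13 : pfC (piC [(nat_lit 39633164), (nat_lit 28473124), (nat_lit 20874739), (nat_lit 14064972)] (nat_lit 10642110)) p14_4_1 (nat_lit 4) (nat_lit 13) (nat_lit 14) = true := by decide +kernel
theorem p14_4_1_T : PfS (PiF n14_4.reverse (nat_lit 10642110)) p14_4_1 (nat_lit 4) [] 0 :=
  pftab_of (los := [(nat_lit 39633164), (nat_lit 28473124), (nat_lit 20874739), (nat_lit 14064972)]) (by decide +kernel) (hi := (nat_lit 14)) (PfP.trans (PfP.trans (PfP.trans (PfP.trans (PfP.trans (PfP.trans (PfP.trans (PfP.trans (PfP.trans (PfP.trans (PfP.trans (PfP.trans (PfP.trans (pfC_sound p14_4_1_0) (pfC_sound p14_4_1_1)) (pfC_sound p14_4_1_2)) (pfC_sound p14_4_1_3)) (pfC_sound p14_4_1_4)) (pfC_sound p14_4_1_5)) (pfC_sound p14_4_1_6)) (pfC_sound p14_4_1_7)) (pfC_sound p14_4_1_8)) (pfC_sound p14_4_1_9)) (pfC_sound p14_4_1_10)) (pfC_sound p14_4_1_11)) (pfC_sound p14_4_1_12)) (pfC_sound p14_4_1_13)) (by decide +kernel)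

def z14_4_1 : zOK yB14_4 (nat_lit 1) (nat_lit 400) (nat_lit 600) (nat_lit 10642110) (nat_lit 6655322) = true := by decide +kernel
def g14_4_1 : gOK yB14_4.x P14_4 (nat_lit 1424) (q14_4 :: r14_4) (nat_lit 1) (nat_lit 400) (nat_lit 2) (nat_lit 600) (nat_lit 11000000) (nat_lit 17850000) (nat_lit 12712500) (nat_lit 12712500) [(nat_lit 800), (nat_lit 1130)] = true := by decide +kernel
def v14_4_1 : ivC P14_4 s14_4 w14_4 n14_4 (nat_lit 4) (nat_lit 5180) (nat_lit 1) (nat_lit 400) f120_1_400 f128_1_400 (nat_lit 2) (nat_lit 600) f120_1_600 f128_1_600 (nat_lit 10642110) (nat_lit 6655322) p14_4_1 = true := by decide +kernel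
def p14_4_2 : PF := (PF.cons (PF.cons (PF.cons (PF.cons (PF.leaf (nat_lit 2786623) (nat_lit 16474485) (nat_lit 50634327) (nat_lit 16474485) [(nat_lit 0), (nat_lit 0), (nat_lit 0), (nat_lit 0)]) (PF.cons (PF.leaf (nat_lit 2914005) (nat_lit 215542) (nat_lit 50435544) (nat_lit 16457726) [(nat_lit 215542), (nat_lit 0), (nat_lit 0), (nat_lit 0)]) (PF.cons (PF.leaf (nat_lit 3066255) (nat_lit 234351) (nat_lit 50202753) (nat_lit 16437356) [(nat_lit 234351), (nat_lit 0), (nat_lit 0), (nat_lit 0)]) (PF.cons (PF.leaf (nat_lit 3237252) (nat_lit 251047) (nat_lit 49942053) (nat_lit 16413617) [(nat_lit 251047), (nat_lit 0), (nat_lit 0), (nat_lit 0)]) (PF.cons PF.nil PF.nil))))) (PF.cons (PF.cons (PF.leaf (nat_lit 3191140) (nat_lit 879508) (nat_lit 49828255) (nat_lit 16401049) [(nat_lit 0), (nat_lit 879508), (nat_lit 0), (nat_lit 0)]) (PF.cons (PF.leaf (nat_lit 3355769) (nat_lit 257221) (nat_lit 49570981) (nat_lit 16376224) [(nat_lit 257221), (nat_lit 904385), (nat_lit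 0), (nat_lit 0)]) (PF.cons (PF.leaf (nat_lit 3539224) (nat_lit 271890) (nat_lit 49288481) (nat_lit 16347922) [(nat_lit 271890), (nat_lit 928628), (nat_lit 0), (nat_lit 0)]) (PF.cons PF.nil PF.nil)))) (PF.cons (PF.cons (PF.leaf (nat_lit 3658285)
 (nat_lit 947020) (nat_lit 48908597) (nat_lit 16306175) [(nat_lit 0), (nat_lit 947020), (nat_lit 0), (nat_lit 0)]) (PF.cons PF.nil PF.nil)) (PF.cons PF.nil (PF.cons PF.nil PF.nil))))) (PF.cons (PF.cons (PF.cons (PF.leaf (nat_lit 3695212) (nat_lit 2582555) (nat_lit 48301722) (nat_lit 16224534) [(nat_lit 0), (nat_lit 0), (nat_lit 2582555), (nat_lit 0)]) (PF.cons (PF.leaf (nat_lit 3869732) (nat_lit 278750) (nat_lit 48031765) (nat_lit 16193094) [(nat_lit 278750), (nat_lit 0), (nat_lit 2605201), (nat_lit 0)]) (PF.cons (PF.leaf (nat_lit 4062113) (nat_lit 292425) (nat_lit 47738011) (nat_lit 16157841) [(nat_lit 292425), (nat_lit 0), (nat_lit 2628108), (nat_lit 0)]) (PF.cons PF.nil PF.nil)))) (PF.cons (PF.cons (PF.leaf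 (nat_lit 4178938) (nat_lit 996981) (nat_lit 47354299) (nat_lit 16108186) [(nat_lit 0), (nat_lit 996981), (nat_lit 2649345), (nat_lit 0)]) (PF.cons PF.nil PF.nil)) (PF.cons PF.nil PF.nil))) (PF.cons (PF.cons (PF.cons (PF.leaf (nat_lit 4696075) (nat_lit 2705494) (nat_lit 45813682) (nat_lit 15884141) [(nat_lit 0), (nat_lit 0), (nat_lit 2705494), (nat_lit 0)]) (PF.cons PF.nil PF.nil)) (PF.cons PF.nil PF.nil)) PF.nil))) (PF.cons (PF.cons (PF.cons (PF.cons (PF.leaf (nat_lit
 4382591) (nat_lit 6008462) (nat_lit 45339414) (nat_lit 15760936) [(nat_lit 0), (nat_lit 0), (nat_lit 0), (nat_lit 6008462)]) (PF.cons (PF.leaf (nat_lit 4559455) (nat_lit 290549) (nat_lit 45079488) (nat_lit 15722627) [(nat_lit 290549), (nat_lit 0), (nat_lit 0), (nat_lit 6016147)]) (PF.cons (PF.leaf (nat_lit 4753492) (nat_lit 303709) (nat_lit 44797724) (nat_lit 15680230) [(nat_lit 303709), (nat_lit 0), (nat_lit 0), (nat_lit 6023437)]) (PF.cons PF.nil PF.nil)))) (PF.cons (PF.cons (PF.leaf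 (nat_lit 4864648) (nat_lit 1024373) (nat_lit 44434332) (nat_lit 15622361) [(nat_lit 0), (nat_lit 1024373), (nat_lit 0), (nat_lit 6027745)]) (PF.cons (PF.leaf (nat_lit 5065397) (nat_lit 317727) (nat_lit 44141660) (nat_lit 15576187) [(nat_lit 317727), (nat_lit 1040272), (nat_lit 0), (nat_lit 6032965)]) PF.nil)) (PF.cons PF.nil PF.nil))) (PF.cons (PF.cons (PF.cons (PF.leaf (nat_lit 5360710) (nat_lit 2720828) (nat_lit 42993623) (nat_lit 15372796) [(nat_lit 0), (nat_lit 0), (nat_lit 2720828), (nat_lit 6021563)]) (PF.cons PF.nil PF.nil)) (PF.cons PF.nil PF.nil)) (PF.cons PF.nil PF.nil))) (PF.cons (PF.cons (PF.cons (PF.cons (PF.leaf (nat_lit 5980813) (nat_lit 5927776) (nat_lit 40409419) (nat_lit 14843839)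
 [(nat_lit 0), (nat_lit 0), (nat_lit 0), (nat_lit 5927776)]) (PF.cons PF.nil PF.nil)) (PF.cons PF.nil PF.nil)) (PF.cons PF.nil PF.nil)) (PF.cons PF.nil (PF.cons PF.nil (PF.cons PF.nil PF.nil))))))

def p14_4_2_0 : pfC (piC [(nat_lit 39633164), (nat_lit 28473124), (nat_lit 20874739), (nat_lit 14064972)] (nat_lit 6655322)) p14_4_2 (nat_lit 4) (nat_lit 0) (nat_lit 1) = true := by decide +kernel
def p14_4_2_1 : pfC (piC [(nat_lit 39633164), (nat_lit 28473124), (nat_lit 20874739), (nat_lit 14064972)] (nat_lit 6655322)) p14_4_2 (nat_lit 4) (nat_lit 1) (nat_lit 2) = true := by decide +kernel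
def p14_4_2_2 : pfC (piC [(nat_lit 39633164), (nat_lit 28473124), (nat_lit 20874739), (nat_lit 14064972)] (nat_lit 6655322)) p14_4_2 (nat_lit 4) (nat_lit 2) (nat_lit 3) = true := by decide +kernel
def p14_4_2_3 : pfC (piC [(nat_lit 39633164), (nat_lit 28473124), (nat_lit 20874739), (nat_lit 14064972)] (nat_lit 6655322)) p14_4_2 (nat_lit 4) (nat_lit 3) (nat_lit 4) = true := by decide +kernel
def p14_4_2_4 : pfC (piC [(nat_lit 39633164), (nat_lit 28473124), (nat_lit 20874739), (nat_lit 14064972)] (nat_lit 6655322)) p14_4_2 (nat_lit 4) (nat_lit 4) (nat_lit 5) = true := by decide +kernel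
def p14_4_2_5 : pfC (piC [(nat_lit 39633164), (nat_lit 28473124), (nat_lit 20874739), (nat_lit 14064972)] (nat_lit 6655322)) p14_4_2 (nat_lit 4) (nat_lit 5) (nat_lit 6) = true := by decide +kernel
def p14_4_2_6 : pfC (piC [(nat_lit 39633164), (nat_lit 28473124), (nat_lit 20874739), (nat_lit 14064972)] (nat_lit 6655322)) p14_4_2 (nat_lit 4) (nat_lit 6) (nat_lit 7) = true := by decide +kernel
def p14_4_2_7 : pfC (piC [(nat_lit 39633164), (nat_lit 28473124), (nat_lit 20874739), (nat_lit 14064972)] (nat_lit 6655322)) p14_4_2 (nat_lit 4) (nat_lit 7) (nat_lit 8) = true := by decide +kernel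
def p14_4_2_8 : pfC (piC [(nat_lit 39633164), (nat_lit 28473124), (nat_lit 20874739), (nat_lit 14064972)] (nat_lit 6655322)) p14_4_2 (nat_lit 4) (nat_lit 8) (nat_lit 9) = true := by decide +kernel
def p14_4_2_9 : pfC (piC [(nat_lit 39633164), (nat_lit 28473124), (nat_lit 20874739), (nat_lit 14064972)] (nat_lit 6655322)) p14_4_2 (nat_lit 4) (nat_lit 9) (nat_lit 10) = true := by decide +kernel
def p14_4_2_10 : pfC (piC [(nat_lit 39633164), (nat_lit 28473124), (nat_lit 20874739), (nat_lit 14064972)] (nat_lit 6655322)) p14_4_2 (nat_lit 4) (nat_lit 10) (nat_lit 11) = true := by decide +kernel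
def p14_4_2_11 : pfC (piC [(nat_lit 39633164), (nat_lit 28473124), (nat_lit 20874739), (nat_lit 14064972)] (nat_lit 6655322)) p14_4_2 (nat_lit 4) (nat_lit 11) (nat_lit 12) = true := by decide +kernel
def p14_4_2_12 : pfC (piC [(nat_lit 39633164), (nat_lit 28473124), (nat_lit 20874739), (nat_lit 14064972)] (nat_lit 6655322)) p14_4_2 (nat_lit 4) (nat_lit 12) (nat_lit 13) = true := by decide +kernel
def p14_4_2_13 : pfC (piC [(nat_lit 39633164), (nat_lit 28473124), (nat_lit 20874739), (nat_lit 14064972)] (nat_lit 6655322)) p14_4_2 (nat_lit 4) (nat_lit 13) (nat_lit 14) = true := by decide +kernel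
def p14_4_2_14 : pfC (piC [(nat_lit 39633164), (nat_lit 28473124), (nat_lit 20874739), (nat_lit 14064972)] (nat_lit 6655322)) p14_4_2 (nat_lit 4) (nat_lit 14) (nat_lit 15) = true := by decide +kernel
def p14_4_2_15 : pfC (piC [(nat_lit 39633164), (nat_lit 28473124), (nat_lit 20874739), (nat_lit 14064972)] (nat_lit 6655322)) p14_4_2 (nat_lit 4) (nat_lit 15) (nat_lit 16) = true := by decide +kernel
def p14_4_2_16 : pfC (piC [(nat_lit 39633164), (nat_lit 28473124), (nat_lit 20874739), (nat_lit 14064972)] (nat_lit 6655322)) p14_4_2 (nat_lit 4) (nat_lit 16) (nat_lit 17) = true := by decide +kernel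
def p14_4_2_17 : pfC (piC [(nat_lit 39633164), (nat_lit 28473124), (nat_lit 20874739), (nat_lit 14064972)] (nat_lit 6655322)) p14_4_2 (nat_lit 4) (nat_lit 17) (nat_lit 18) = true := by decide +kernel
def p14_4_2_18 : pfC (piC [(nat_lit 39633164), (nat_lit 28473124), (nat_lit 20874739), (nat_lit 14064972)] (nat_lit 6655322)) p14_4_2 (nat_lit 4) (nat_lit 18) (nat_lit 19) = true := by decide +kernel
def p14_4_2_19 : pfC (piC [(nat_lit 39633164), (nat_lit 28473124), (nat_lit 20874739), (nat_lit 14064972)] (nat_lit 6655322)) p14_4_2 (nat_lit 4) (nat_lit 19) (nat_lit 20) = true := by decide +kernel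
theorem p14_4_2_T : PfS (PiF n14_4.reverse (nat_lit 6655322)) p14_4_2 (nat_lit 4) [] 0 :=
  pftab_of (los := [(nat_lit 39633164), (nat_lit 28473124), (nat_lit 20874739), (nat_lit 14064972)]) (by decide +kernel) (hi := (nat_lit 20)) (PfP.trans (PfP.trans (PfP.trans (PfP.trans (PfP.trans (PfP.trans (PfP.trans (PfP.trans (PfP.trans (PfP.trans (PfP.trans (PfP.trans (PfP.trans (PfP.trans (PfP.trans (PfP.trans (PfP.trans (PfP.trans (PfP.trans (pfC_sound p14_4_2_0) (pfC_sound p14_4_2_1)) (pfC_sound p14_4_2_2)) (pfC_sound p14_4_2_3)) (pfC_sound p14_4_2_4)) (pfC_sound p14_4_2_5)) (pfC_sound p14_4_2_6)) (pfC_sound p14_4_2_7)) (pfC_sound p14_4_2_8)) (pfC_sound p14_4_2_9)) (pfC_sound p14_4_2_10)) (pfC_sound p14_4_2_11)) (pfC_sound p14_4_2_12)) (pfC_sound p14_4_2_13)) (pfC_sound p14_4_2_14)) (pfC_sound p14_4_2_15)) (pfC_sound p14_4_2_16)) (pfC_sound p14_4_2_17)) (pfC_sound p14_4_2_18)) (pfC_sound p14_4_2_19)) (by decide +kernel)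

def z14_4_2 : zOK yB14_4 (nat_lit 2) (nat_lit 600) (nat_lit 750) (nat_lit 6655322) (nat_lit 4572850) = true := by decide +kernel
def g14_4_2 : gOK yB14_4.x P14_4 (nat_lit 1424) (q14_4 :: r14_4) (nat_lit 2) (nat_lit 600) (nat_lit 3) (nat_lit 750) (nat_lit 12712500) (nat_lit 12712500) (nat_lit 12712500) (nat_lit 12712500) [(nat_lit 800), (nat_lit 1600)] = true := by decide +kernel
def v14_4_2 : ivC P14_4 s14_4 w14_4 n14_4 (nat_lit 4) (nat_lit 4980) (nat_lit 2) (nat_lit 600) f120_1_600 f128_1_600 (nat_lit 3) (nat_lit 750) f120_1_750 f128_1_750 (nat_lit 6655322) (nat_lit 4572850) p14_4_2 = true := by decide +kernel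
def p14_4_3 : PF := (PF.cons (PF.cons (PF.cons (PF.cons (PF.leaf (nat_lit 3190393) (nat_lit 22522209) (nat_lit 44586603) (nat_lit 22522209) [(nat_lit 0), (nat_lit 0), (nat_lit 0), (nat_lit 0)]) (PF.cons (PF.leaf (nat_lit 3310283) (nat_lit 205043) (nat_lit 44428106) (nat_lit 22475663) [(nat_lit 205043), (nat_lit 0), (nat_lit 0), (nat_lit 0)]) (PF.cons (PF.leaf (nat_lit 3453864) (nat_lit 222816) (nat_lit 44242468) (nat_lit 22420712) [(nat_lit 222816), (nat_lit 0), (nat_lit 0), (nat_lit 0)]) (PF.cons (PF.leaf (nat_lit 3614993) (nat_lit 238552) (nat_lit 44034537) (nat_lit 22358617) [(nat_lit 238552), (nat_lit 0), (nat_lit 0), (nat_lit 0)]) (PF.cons (PF.leaf (nat_lit 3791089) (nat_lit 252715) (nat_lit 43807717) (nat_lit 22290234) [(nat_lit 252715), (nat_lit 0), (nat_lit 0), (nat_lit 0)]) (PF.cons (PF.leaf (nat_lit 3980471) (nat_lit 265600) (nat_lit 43564610) (nat_lit 22216202) [(nat_lit 265600), (nat_lit 0), (nat_lit 0), (nat_lit 0)]) (PF.cons PF.nil PF.nil)))))))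 (PF.cons (PF.cons (PF.leaf (nat_lit 3570378) (nat_lit 834464) (nat_lit 43944047) (nat_lit 22330300) [(nat_lit 0), (nat_lit 834464), (nat_lit 0), (nat_lit 0)]) (PF.cons (PF.leaf (nat_lit 3725092) (nat_lit 244218) (nat_lit 43738789) (nat_lit
 22268173) [(nat_lit 244218), (nat_lit 857632), (nat_lit 0), (nat_lit 0)]) (PF.cons (PF.leaf (nat_lit 3897735) (nat_lit 258003) (nat_lit 43513343) (nat_lit 22199313) [(nat_lit 258003), (nat_lit 880149), (nat_lit 0), (nat_lit 0)]) (PF.cons (PF.leaf (nat_lit 4084189) (nat_lit 270509) (nat_lit 43270984) (nat_lit 22124567) [(nat_lit 270509), (nat_lit 901731), (nat_lit 0), (nat_lit 0)]) (PF.cons PF.nil PF.nil))))) (PF.cons (PF.cons (PF.leaf (nat_lit 4008476) (nat_lit 896934) (nat_lit 43210370) (nat_lit 22104573) [(nat_lit 0), (nat_lit 896934), (nat_lit 0), (nat_lit 0)]) (PF.cons (PF.leaf (nat_lit 4189662) (nat_lit 274798) (nat_lit 42970794) (nat_lit 22029753) [(nat_lit 274798), (nat_lit 916733), (nat_lit 0), (nat_lit 0)])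 (PF.cons (PF.leaf (nat_lit 4384869) (nat_lit 285995) (nat_lit 42715935) (nat_lit 21949383) [(nat_lit 285995), (nat_lit 935751), (nat_lit 0), (nat_lit 0)]) (PF.cons PF.nil PF.nil)))) (PF.cons (PF.cons (PF.leaf (nat_lit 4490042) (nat_lit 948478) (nat_lit 42412084) (nat_lit 21851291) [(nat_lit 0), (nat_lit 948478), (nat_lit 0), (nat_lit 0)]) (PF.cons (PF.leaf (nat_lit 4691824) (nat_lit 299623) (nat_lit 42147187) (nat_lit 21765920) [(nat_lit 299623), (nat_lit 965360),
 (nat_lit 0), (nat_lit 0)]) PF.nil)) (PF.cons PF.nil PF.nil))))) (PF.cons (PF.cons (PF.cons (PF.leaf (nat_lit 4038929) (nat_lit 2436319) (nat_lit 42727777) (nat_lit 21944715) [(nat_lit 0), (nat_lit 0), (nat_lit 2436319), (nat_lit 0)]) (PF.cons (PF.leaf (nat_lit 4202729) (nat_lit 263946) (nat_lit 42511978) (nat_lit 21876105) [(nat_lit 263946), (nat_lit 0), (nat_lit 2456781), (nat_lit 0)]) (PF.cons (PF.leaf (nat_lit 4383474) (nat_lit 276774) (nat_lit 42277054) (nat_lit 21800773) [(nat_lit 276774),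 (nat_lit 0), (nat_lit 2477437), (nat_lit 0)]) (PF.cons (PF.leaf (nat_lit 4577289) (nat_lit 288261) (nat_lit 42026506) (nat_lit 21719702) [(nat_lit 288261), (nat_lit 0), (nat_lit 2497817), (nat_lit 0)]) (PF.cons PF.nil PF.nil))))) (PF.cons (PF.cons (PF.leaf (nat_lit 4492059) (nat_lit 942026) (nat_lit 41970314) (nat_lit 21700216) [(nat_lit 0), (nat_lit 942026), (nat_lit 2496255), (nat_lit 0)]) (PF.cons (PF.leaf (nat_lit 4680074) (nat_lit 291307) (nat_lit 41724172) (nat_lit 21619664) [(nat_lit 291307), (nat_lit 958899), (nat_lit 2514769), (nat_lit 0)]) (PF.cons (PF.leaf (nat_lit 4881203) (nat_lit 301593) (nat_lit 41463951) (nat_lit 21533734) [(nat_lit 301593), (nat_lit 975044), (nat_lit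
 2532894), (nat_lit 0)]) (PF.cons PF.nil PF.nil)))) (PF.cons (PF.cons (PF.leaf (nat_lit 4983159) (nat_lit 984930) (nat_lit 41160473) (nat_lit 21431296) [(nat_lit 0), (nat_lit 984930), (nat_lit 2547182), (nat_lit 0)]) (PF.cons PF.nil PF.nil)) PF.nil))) (PF.cons (PF.cons (PF.cons (PF.leaf (nat_lit 4972739) (nat_lit 2545271) (nat_lit 40737615) (nat_lit 21280653) [(nat_lit 0), (nat_lit 0), (nat_lit 2545271), (nat_lit 0)]) (PF.cons (PF.leaf (nat_lit 5165763) (nat_lit 304740) (nat_lit 40488524) (nat_lit 21195642) [(nat_lit 304740), (nat_lit 0), (nat_lit 2559952), (nat_lit 0)]) (PF.cons PF.nil PF.nil))) (PF.cons (PF.cons (PF.leaf (nat_lit 5469633) (nat_lit 1013200) (nat_lit 39926493) (nat_lit 21000071) [(nat_lit 0), (nat_lit 1013200), (nat_lit 2584523), (nat_lit 0)]) PF.nil) PF.nil)) (PF.cons PF.nil (PF.cons PF.nil PF.nil))))) (PF.cons (PF.cons (PF.cons (PF.cons (PF.leaf (nat_lit 4672670) (nat_lit 5622842) (nat_lit 40365356) (nat_lit 21120613) [(nat_lit 0),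 (nat_lit 0), (nat_lit 0), (nat_lit 5622842)]) (PF.cons (PF.leaf (nat_lit 4838739) (nat_lit 274362) (nat_lit 40156205) (nat_lit 21048895) [(nat_lit 274362), (nat_lit 0), (nat_lit 0), (nat_lit 5629349)]) (PF.cons (PF.leaf (nat_lit
 5021086) (nat_lit 286716) (nat_lit 39929341) (nat_lit 20970544) [(nat_lit 286716), (nat_lit 0), (nat_lit 0), (nat_lit 5635493)]) (PF.cons (PF.leaf (nat_lit 5215827) (nat_lit 297628) (nat_lit 39688246) (nat_lit 20886647) [(nat_lit 297628), (nat_lit 0), (nat_lit 0), (nat_lit 5641034)]) (PF.cons PF.nil PF.nil))))) (PF.cons (PF.cons (PF.leaf (nat_lit 5124891) (nat_lit 965729) (nat_lit 39636797) (nat_lit 20867519) [(nat_lit 0), (nat_lit 965729), (nat_lit 0), (nat_lit 5638766)]) (PF.cons (PF.leaf (nat_lit 5313421) (nat_lit 299787) (nat_lit 39400779) (nat_lit 20784621) [(nat_lit 299787), (nat_lit 980512), (nat_lit 0), (nat_lit 5643112)]) (PF.cons (PF.leaf (nat_lit 5514324) (nat_lit 309476) (nat_lit 39152023) (nat_lit 20696589) [(nat_lit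 309476), (nat_lit 994510), (nat_lit 0), (nat_lit 5646736)]) (PF.cons PF.nil PF.nil)))) (PF.cons (PF.cons (PF.leaf (nat_lit 5610638) (nat_lit 1002067) (nat_lit 38865013) (nat_lit 20593033) [(nat_lit 0), (nat_lit 1002067), (nat_lit 0), (nat_lit 5646632)]) (PF.cons PF.nil PF.nil)) PF.nil))) (PF.cons (PF.cons (PF.cons (PF.leaf (nat_lit 5588064) (nat_lit 2556824) (nat_lit 38475185) (nat_lit 20445422) [(nat_lit 0), (nat_lit 0), (nat_lit 2556824), (nat_lit
 5631381)]) (PF.cons (PF.leaf (nat_lit 5780168) (nat_lit 310601) (nat_lit 38238680) (nat_lit 20359449) [(nat_lit 310601), (nat_lit 0), (nat_lit 2567787), (nat_lit 5632293)]) (PF.cons PF.nil PF.nil))) (PF.cons (PF.cons (PF.leaf (nat_lit 6076764) (nat_lit 1022888) (nat_lit 37708911) (nat_lit 20163604) [(nat_lit 0), (nat_lit 1022888), (nat_lit 2584739), (nat_lit 5628669)]) PF.nil) PF.nil)) (PF.cons PF.nil PF.nil))) (PF.cons (PF.cons (PF.cons (PF.cons (PF.leaf (nat_lit 6166639) (nat_lit 5546678) (nat_lit 36383793)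 (nat_lit 19631662) [(nat_lit 0), (nat_lit 0), (nat_lit 0), (nat_lit 5546678)]) (PF.cons (PF.leaf (nat_lit 6356886) (nat_lit 313754) (nat_lit 36160912) (nat_lit 19546344) [(nat_lit 313754), (nat_lit 0), (nat_lit 0), (nat_lit 5543900)]) PF.nil)) (PF.cons PF.nil PF.nil)) (PF.cons PF.nil PF.nil)) (PF.cons PF.nil (PF.cons PF.nil (PF.cons PF.nil PF.nil))))))

def p14_4_3_0 : pfC (piC [(nat_lit 39633164), (nat_lit 28473124), (nat_lit 20874739), (nat_lit 14064972)] (nat_lit 4572850)) p14_4_3 (nat_lit 4) (nat_lit 0) (nat_lit 1) = true := by decide +kernel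
def p14_4_3_1 : pfC (piC [(nat_lit 39633164), (nat_lit 28473124), (nat_lit 20874739), (nat_lit 14064972)] (nat_lit 4572850)) p14_4_3 (nat_lit 4) (nat_lit 1) (nat_lit 2) = true := by decide +kernel
def p14_4_3_2 : pfC (piC [(nat_lit 39633164), (nat_lit 28473124), (nat_lit 20874739), (nat_lit 14064972)] (nat_lit 4572850)) p14_4_3 (nat_lit 4) (nat_lit 2) (nat_lit 3) = true := by decide +kernel
def p14_4_3_3 : pfC (piC [(nat_lit 39633164), (nat_lit 28473124), (nat_lit 20874739), (nat_lit 14064972)] (nat_lit 4572850)) p14_4_3 (nat_lit 4) (nat_lit 3) (nat_lit 4) = true := by decide +kernel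
def p14_4_3_4 : pfC (piC [(nat_lit 39633164), (nat_lit 28473124), (nat_lit 20874739), (nat_lit 14064972)] (nat_lit 4572850)) p14_4_3 (nat_lit 4) (nat_lit 4) (nat_lit 5) = true := by decide +kernel
def p14_4_3_5 : pfC (piC [(nat_lit 39633164), (nat_lit 28473124), (nat_lit 20874739), (nat_lit 14064972)] (nat_lit 4572850)) p14_4_3 (nat_lit 4) (nat_lit 5) (nat_lit 6) = true := by decide +kernel
def p14_4_3_6 : pfC (piC [(nat_lit 39633164), (nat_lit 28473124), (nat_lit 20874739), (nat_lit 14064972)] (nat_lit 4572850)) p14_4_3 (nat_lit 4) (nat_lit 6) (nat_lit 7) = true := by decide +kernel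
def p14_4_3_7 : pfC (piC [(nat_lit 39633164), (nat_lit 28473124), (nat_lit 20874739), (nat_lit 14064972)] (nat_lit 4572850)) p14_4_3 (nat_lit 4) (nat_lit 7) (nat_lit 8) = true := by decide +kernel
def p14_4_3_8 : pfC (piC [(nat_lit 39633164), (nat_lit 28473124), (nat_lit 20874739), (nat_lit 14064972)] (nat_lit 4572850)) p14_4_3 (nat_lit 4) (nat_lit 8) (nat_lit 9) = true := by decide +kernel
def p14_4_3_9 : pfC (piC [(nat_lit 39633164), (nat_lit 28473124), (nat_lit 20874739), (nat_lit 14064972)] (nat_lit 4572850)) p14_4_3 (nat_lit 4) (nat_lit 9) (nat_lit 10) = true := by decide +kernel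
def p14_4_3_10 : pfC (piC [(nat_lit 39633164), (nat_lit 28473124), (nat_lit 20874739), (nat_lit 14064972)] (nat_lit 4572850)) p14_4_3 (nat_lit 4) (nat_lit 10) (nat_lit 11) = true := by decide +kernel
def p14_4_3_11 : pfC (piC [(nat_lit 39633164), (nat_lit 28473124), (nat_lit 20874739), (nat_lit 14064972)] (nat_lit 4572850)) p14_4_3 (nat_lit 4) (nat_lit 11) (nat_lit 12) = true := by decide +kernel
def p14_4_3_12 : pfC (piC [(nat_lit 39633164), (nat_lit 28473124), (nat_lit 20874739), (nat_lit 14064972)] (nat_lit 4572850)) p14_4_3 (nat_lit 4) (nat_lit 12) (nat_lit 13) = true := by decide +kernel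
def p14_4_3_13 : pfC (piC [(nat_lit 39633164), (nat_lit 28473124), (nat_lit 20874739), (nat_lit 14064972)] (nat_lit 4572850)) p14_4_3 (nat_lit 4) (nat_lit 13) (nat_lit 14) = true := by decide +kernel
def p14_4_3_14 : pfC (piC [(nat_lit 39633164), (nat_lit 28473124), (nat_lit 20874739), (nat_lit 14064972)] (nat_lit 4572850)) p14_4_3 (nat_lit 4) (nat_lit 14) (nat_lit 15) = true := by decide +kernel
def p14_4_3_15 : pfC (piC [(nat_lit 39633164), (nat_lit 28473124), (nat_lit 20874739), (nat_lit 14064972)] (nat_lit 4572850)) p14_4_3 (nat_lit 4) (nat_lit 15) (nat_lit 16) = true := by decide +kernel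
def p14_4_3_16 : pfC (piC [(nat_lit 39633164), (nat_lit 28473124), (nat_lit 20874739), (nat_lit 14064972)] (nat_lit 4572850)) p14_4_3 (nat_lit 4) (nat_lit 16) (nat_lit 17) = true := by decide +kernel
def p14_4_3_17 : pfC (piC [(nat_lit 39633164), (nat_lit 28473124), (nat_lit 20874739), (nat_lit 14064972)] (nat_lit 4572850)) p14_4_3 (nat_lit 4) (nat_lit 17) (nat_lit 18) = true := by decide +kernel
def p14_4_3_18 : pfC (piC [(nat_lit 39633164), (nat_lit 28473124), (nat_lit 20874739), (nat_lit 14064972)] (nat_lit 4572850)) p14_4_3 (nat_lit 4) (nat_lit 18) (nat_lit 19) = true := by decide +kernel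
def p14_4_3_19 : pfC (piC [(nat_lit 39633164), (nat_lit 28473124), (nat_lit 20874739), (nat_lit 14064972)] (nat_lit 4572850)) p14_4_3 (nat_lit 4) (nat_lit 19) (nat_lit 20) = true := by decide +kernel
def p14_4_3_20 : pfC (piC [(nat_lit 39633164), (nat_lit 28473124), (nat_lit 20874739), (nat_lit 14064972)] (nat_lit 4572850)) p14_4_3 (nat_lit 4) (nat_lit 20) (nat_lit 21) = true := by decide +kernel
def p14_4_3_21 : pfC (piC [(nat_lit 39633164), (nat_lit 28473124), (nat_lit 20874739), (nat_lit 14064972)] (nat_lit 4572850)) p14_4_3 (nat_lit 4) (nat_lit 21) (nat_lit 22) = true := by decide +kernel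
def p14_4_3_22 : pfC (piC [(nat_lit 39633164), (nat_lit 28473124), (nat_lit 20874739), (nat_lit 14064972)] (nat_lit 4572850)) p14_4_3 (nat_lit 4) (nat_lit 22) (nat_lit 23) = true := by decide +kernel
def p14_4_3_23 : pfC (piC [(nat_lit 39633164), (nat_lit 28473124), (nat_lit 20874739), (nat_lit 14064972)] (nat_lit 4572850)) p14_4_3 (nat_lit 4) (nat_lit 23) (nat_lit 24) = true := by decide +kernel
def p14_4_3_24 : pfC (piC [(nat_lit 39633164), (nat_lit 28473124), (nat_lit 20874739), (nat_lit 14064972)] (nat_lit 4572850)) p14_4_3 (nat_lit 4) (nat_lit 24) (nat_lit 25) = true := by decide +kernel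
def p14_4_3_25 : pfC (piC [(nat_lit 39633164), (nat_lit 28473124), (nat_lit 20874739), (nat_lit 14064972)] (nat_lit 4572850)) p14_4_3 (nat_lit 4) (nat_lit 25) (nat_lit 26) = true := by decide +kernel
def p14_4_3_26 : pfC (piC [(nat_lit 39633164), (nat_lit 28473124), (nat_lit 20874739), (nat_lit 14064972)] (nat_lit 4572850)) p14_4_3 (nat_lit 4) (nat_lit 26) (nat_lit 27) = true := by decide +kernel
def p14_4_3_27 : pfC (piC [(nat_lit 39633164), (nat_lit 28473124), (nat_lit 20874739), (nat_lit 14064972)] (nat_lit 4572850)) p14_4_3 (nat_lit 4) (nat_lit 27) (nat_lit 28) = true := by decide +kernel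
def p14_4_3_28 : pfC (piC [(nat_lit 39633164), (nat_lit 28473124), (nat_lit 20874739), (nat_lit 14064972)] (nat_lit 4572850)) p14_4_3 (nat_lit 4) (nat_lit 28) (nat_lit 29) = true := by decide +kernel
def p14_4_3_29 : pfC (piC [(nat_lit 39633164), (nat_lit 28473124), (nat_lit 20874739), (nat_lit 14064972)] (nat_lit 4572850)) p14_4_3 (nat_lit 4) (nat_lit 29) (nat_lit 30) = true := by decide +kernel
def p14_4_3_30 : pfC (piC [(nat_lit 39633164), (nat_lit 28473124), (nat_lit 20874739), (nat_lit 14064972)] (nat_lit 4572850)) p14_4_3 (nat_lit 4) (nat_lit 30) (nat_lit 31) = true := by decide +kernel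
def p14_4_3_31 : pfC (piC [(nat_lit 39633164), (nat_lit 28473124), (nat_lit 20874739), (nat_lit 14064972)] (nat_lit 4572850)) p14_4_3 (nat_lit 4) (nat_lit 31) (nat_lit 32) = true := by decide +kernel
def p14_4_3_32 : pfC (piC [(nat_lit 39633164), (nat_lit 28473124), (nat_lit 20874739), (nat_lit 14064972)] (nat_lit 4572850)) p14_4_3 (nat_lit 4) (nat_lit 32) (nat_lit 33) = true := by decide +kernel
def p14_4_3_33 : pfC (piC [(nat_lit 39633164), (nat_lit 28473124), (nat_lit 20874739), (nat_lit 14064972)] (nat_lit 4572850)) p14_4_3 (nat_lit 4) (nat_lit 33) (nat_lit 34) = true := by decide +kernel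
def p14_4_3_34 : pfC (piC [(nat_lit 39633164), (nat_lit 28473124), (nat_lit 20874739), (nat_lit 14064972)] (nat_lit 4572850)) p14_4_3 (nat_lit 4) (nat_lit 34) (nat_lit 35) = true := by decide +kernel
def p14_4_3_35 : pfC (piC [(nat_lit 39633164), (nat_lit 28473124), (nat_lit 20874739), (nat_lit 14064972)] (nat_lit 4572850)) p14_4_3 (nat_lit 4) (nat_lit 35) (nat_lit 36) = true := by decide +kernel
def p14_4_3_36 : pfC (piC [(nat_lit 39633164), (nat_lit 28473124), (nat_lit 20874739), (nat_lit 14064972)] (nat_lit 4572850)) p14_4_3 (nat_lit 4) (nat_lit 36) (nat_lit 37) = true := by decide +kernel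
def p14_4_3_37 : pfC (piC [(nat_lit 39633164), (nat_lit 28473124), (nat_lit 20874739), (nat_lit 14064972)] (nat_lit 4572850)) p14_4_3 (nat_lit 4) (nat_lit 37) (nat_lit 38) = true := by decide +kernel
def p14_4_3_38 : pfC (piC [(nat_lit 39633164), (nat_lit 28473124), (nat_lit 20874739), (nat_lit 14064972)] (nat_lit 4572850)) p14_4_3 (nat_lit 4) (nat_lit 38) (nat_lit 39) = true := by decide +kernel
theorem p14_4_3_T : PfS (PiF n14_4.reverse (nat_lit 4572850)) p14_4_3 (nat_lit 4) [] 0 :=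
  pftab_of (los := [(nat_lit 39633164), (nat_lit 28473124), (nat_lit 20874739), (nat_lit 14064972)]) (by decide +kernel) (hi := (nat_lit 39)) (PfP.trans (PfP.trans (PfP.trans (PfP.trans (PfP.trans (PfP.trans (PfP.trans (PfP.trans (PfP.trans (PfP.trans (PfP.trans (PfP.trans (PfP.trans (PfP.trans (PfP.trans (PfP.trans (PfP.trans (PfP.trans (PfP.trans (PfP.trans (PfP.trans (PfP.trans (PfP.trans (PfP.trans (PfP.trans (PfP.trans (PfP.trans (PfP.trans (PfP.trans (PfP.trans (PfP.trans (PfP.trans (PfP.trans (PfP.trans (PfP.trans (PfP.trans (PfP.trans (PfP.trans (pfC_sound p14_4_3_0) (pfC_sound p14_4_3_1)) (pfC_sound p14_4_3_2)) (pfC_sound p14_4_3_3)) (pfC_sound p14_4_3_4)) (pfC_sound p14_4_3_5)) (pfC_sound p14_4_3_6)) (pfC_sound p14_4_3_7)) (pfC_sound p14_4_3_8)) (pfC_sound p14_4_3_9)) (pfC_sound p14_4_3_10)) (pfC_sound p14_4_3_11)) (pfC_sound p14_4_3_12)) (pfC_sound p14_4_3_13)) (pfC_sound p14_4_3_14)) (pfC_sound p14_4_3_15)) (pfC_sound p14_4_3_16)) (pfC_sound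 p14_4_3_17)) (pfC_sound p14_4_3_18)) (pfC_sound p14_4_3_19)) (pfC_sound p14_4_3_20)) (pfC_sound p14_4_3_21)) (pfC_sound p14_4_3_22)) (pfC_sound p14_4_3_23)) (pfC_sound p14_4_3_24)) (pfC_sound p14_4_3_25)) (pfC_sound p14_4_3_26)) (pfC_sound p14_4_3_27)) (pfC_sound p14_4_3_28)) (pfC_sound p14_4_3_29)) (pfC_sound p14_4_3_30)) (pfC_sound p14_4_3_31)) (pfC_sound p14_4_3_32))
 (pfC_sound p14_4_3_33)) (pfC_sound p14_4_3_34)) (pfC_sound p14_4_3_35)) (pfC_sound p14_4_3_36)) (pfC_sound p14_4_3_37)) (pfC_sound p14_4_3_38)) (by decide +kernel)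

def z14_4_3 : zOK yB14_4 (nat_lit 3) (nat_lit 750) (nat_lit 960) (nat_lit 4572850) (nat_lit 2256468) = true := by decide +kernel
def g14_4_3 : gOK yB14_4.x P14_4 (nat_lit 1424) (q14_4 :: r14_4) (nat_lit 3) (nat_lit 750) (nat_lit 4) (nat_lit 960) (nat_lit 12712500) (nat_lit 12712500) (nat_lit 12712500) (nat_lit 12712500) [(nat_lit 800)] = true := by decide +kernel
def v14_4_3 : ivC P14_4 s14_4 w14_4 n14_4 (nat_lit 4) (nat_lit 4830) (nat_lit 3) (nat_lit 750) f120_1_750 f128_1_750 (nat_lit 4) (nat_lit 960) f120_1_960 f128_1_960 (nat_lit 4572850) (nat_lit 2256468) p14_4_3 = true := by decide +kernel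
/-! box `yB14_5` -/

def P14_5 : BQ := ⟨(nat_lit 8), (nat_lit 8), (nat_lit 0), (nat_lit 4), (nat_lit 4), (nat_lit 640), (nat_lit 660), (nat_lit 120), [(nat_lit 200), (nat_lit 300), (nat_lit 450), (nat_lit 800)], (nat_lit 50512000), (nat_lit 16000000), (nat_lit 16000000000)⟩
def q14_5 : PC := ⟨(nat_lit 1000), [(nat_lit 120000), (nat_lit 200000), (nat_lit 300000), (nat_lit 450000), (nat_lit 800000)], (nat_lit 340282367000166625996085689103316680705000000), (nat_lit 15949488000000), (nat_lit 15949488000000), (nat_lit 10000000)⟩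
def r14_5 : List PC := [⟨(nat_lit 1344), [(nat_lit 120558), (nat_lit 201015), (nat_lit 301987), (nat_lit 452247), (nat_lit 799924)], (nat_lit 342465278384537661995084125824275001618943843), (nat_lit 16351585521920), (nat_lit 16364928759040), (nat_lit 10066234)⟩]
def s14_5 : List PB := [⟨(nat_lit 26880), (nat_lit 1928928000000), [(nat_lit 201015), (nat_lit 301987), (nat_lit 452247), (nat_lit 799924)], (nat_lit 342465278384537661995084125824275001618943843), (nat_lit 1142251492364544), (nat_lit 1142264835601664), (nat_lit 55040)⟩]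
def n14_5 : List KN := [⟨(nat_lit 800), (nat_lit 450), (nat_lit 13943267), (nat_lit 9063406)⟩, ⟨(nat_lit 450), (nat_lit 300), (nat_lit 20794417), (nat_lit 13943267)⟩, ⟨(nat_lit 300), (nat_lit 200), (nat_lit 28134109), (nat_lit 20794417)⟩, ⟨(nat_lit 200), (nat_lit 120), (nat_lit 41351667), (nat_lit 28134109)⟩]
def w14_5 : List ℕ := [(nat_lit 55040)]
def par14_5 : parC yB14_5 P14_5 s14_5 r14_5 q14_5 n14_5 w14_5 = true := by decide +kernel

def p14_5_0 : PF := (PF.cons (PF.cons (PF.cons (PF.cons (PF.leaf (nat_lit 359236) (nat_lit 911340) (nat_lit 66197472) (nat_lit 911340) [(nat_lit 0), (nat_lit 0), (nat_lit 0), (nat_lit 0)]) (PF.cons (PF.leaf (nat_lit 443985) (nat_lit 128210) (nat_lit 66032868) (nat_lit 947734) [(nat_lit 128210), (nat_lit 0), (nat_lit 0), (nat_lit 0)]) (PF.cons (PF.leaf (nat_lit 555162) (nat_lit 143276) (nat_lit 65834378) (nat_lit 987880) [(nat_lit 143276), (nat_lit 0), (nat_lit 0), (nat_lit 0)]) (PF.cons (PF.leaf (nat_lit 683762) (nat_lit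 157760) (nat_lit 65605324) (nat_lit 1030207) [(nat_lit 157760), (nat_lit 0), (nat_lit 0), (nat_lit 0)]) (PF.cons (PF.leaf (nat_lit 828498) (nat_lit 171790) (nat_lit 65347954) (nat_lit 1073696) [(nat_lit 171790), (nat_lit 0), (nat_lit 0), (nat_lit 0)]) (PF.cons PF.nil (PF.cons PF.nil PF.nil))))))) (PF.cons (PF.cons (PF.leaf (nat_lit 711454) (nat_lit 668924) (nat_lit 65383447) (nat_lit 1056441) [(nat_lit 0), (nat_lit 668924), (nat_lit 0), (nat_lit 0)]) (PF.cons (PF.leaf (nat_lit 838642) (nat_lit 170630) (nat_lit 65143647) (nat_lit 1094894) [(nat_lit 170630), (nat_lit 699640), (nat_lit 0), (nat_lit 0)]) (PF.cons (PF.leaf (nat_lit 986968) (nat_lit 184332) (nat_lit 64873973) (nat_lit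
 1134923) [(nat_lit 184332), (nat_lit 731249), (nat_lit 0), (nat_lit 0)]) (PF.cons PF.nil (PF.cons PF.nil PF.nil))))) (PF.cons (PF.cons (PF.leaf (nat_lit 1154287) (nat_lit 773740) (nat_lit 64368358) (nat_lit 1192974) [(nat_lit 0), (nat_lit 773740), (nat_lit 0), (nat_lit 0)]) (PF.cons (PF.leaf (nat_lit 1318147) (nat_lit 208885) (nat_lit 64062587) (nat_lit 1230655) [(nat_lit 208885), (nat_lit 803342), (nat_lit 0), (nat_lit 0)]) (PF.cons PF.nil (PF.cons PF.nil PF.nil)))) (PF.cons (PF.cons (PF.leaf (nat_lit 1675091) (nat_lit 869269) (nat_lit 63182796) (nat_lit 1318206) [(nat_lit 0), (nat_lit 869269), (nat_lit 0), (nat_lit 0)]) (PF.cons PF.nil PF.nil)) (PF.cons PF.nil PF.nil))))) (PF.cons (PF.cons (PF.cons (PF.leaf (nat_lit 1245720) (nat_lit 1226718) (nat_lit 63618182) (nat_lit 1226718) [(nat_lit 0), (nat_lit 0), (nat_lit 2263911), (nat_lit 0)]) (PF.cons (PF.leaf (nat_lit 1393550) (nat_lit 204584) (nat_lit 63337401) (nat_lit 1260121) [(nat_lit 204584), (nat_lit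 0), (nat_lit 2306705), (nat_lit 0)]) (PF.cons (PF.leaf (nat_lit 1561476) (nat_lit 218098) (nat_lit 63026381) (nat_lit 1294701) [(nat_lit 218098), (nat_lit 0), (nat_lit 2351532), (nat_lit 0)]) (PF.cons PF.nil (PF.cons PF.nil
 PF.nil))))) (PF.cons (PF.cons (PF.leaf (nat_lit 1736715) (nat_lit 881135) (nat_lit 62466644) (nat_lit 1342445) [(nat_lit 0), (nat_lit 881135), (nat_lit 2418587), (nat_lit 0)]) (PF.cons (PF.leaf (nat_lit 1918445) (nat_lit 240264) (nat_lit 62125398) (nat_lit 1374867) [(nat_lit 240264), (nat_lit 907262), (nat_lit 2461019), (nat_lit 0)]) (PF.cons PF.nil (PF.cons PF.nil PF.nil)))) (PF.cons (PF.cons (PF.leaf (nat_lit 2295564) (nat_lit 963361) (nat_lit 61172891) (nat_lit 1448032) [(nat_lit 0), (nat_lit 963361), (nat_lit 2561165), (nat_lit 0)]) (PF.cons PF.nil PF.nil)) PF.nil))) (PF.cons (PF.cons (PF.cons (PF.leaf (nat_lit 2338103) (nat_lit 1463696) (nat_lit 60456301) (nat_lit 1463696) [(nat_lit 0), (nat_lit 0), (nat_lit 2594407), (nat_lit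 0)]) (PF.cons (PF.leaf (nat_lit 2533522) (nat_lit 266859) (nat_lit 60090632) (nat_lit 1491578) [(nat_lit 266859), (nat_lit 0), (nat_lit 2629871), (nat_lit 0)]) PF.nil)) (PF.cons PF.nil PF.nil)) (PF.cons PF.nil (PF.cons PF.nil PF.nil))))) (PF.cons (PF.cons (PF.cons (PF.cons (PF.leaf (nat_lit 2141947) (nat_lit 1397196) (nat_lit 59399226) (nat_lit 1397196) [(nat_lit 0), (nat_lit 0), (nat_lit 0), (nat_lit 6312390)]) (PF.cons (PF.leaf (nat_lit 2303399)
 (nat_lit 236065) (nat_lit 59100774) (nat_lit 1425327) [(nat_lit 236065), (nat_lit 0), (nat_lit 0), (nat_lit 6346646)]) (PF.cons (PF.leaf (nat_lit 2483949) (nat_lit 249584) (nat_lit 58773190) (nat_lit 1454044) [(nat_lit 249584), (nat_lit 0), (nat_lit 0), (nat_lit 6382409)]) (PF.cons (PF.leaf (nat_lit 2679294) (nat_lit 262079) (nat_lit 58420969) (nat_lit 1482788) [(nat_lit 262079), (nat_lit 0), (nat_lit 0), (nat_lit 6418818)]) (PF.cons (PF.leaf (nat_lit 2888008) (nat_lit 273741) (nat_lit 58047418) (nat_lit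 1511200) [(nat_lit 273741), (nat_lit 0), (nat_lit 0), (nat_lit 6455227)]) (PF.cons PF.nil (PF.cons PF.nil PF.nil))))))) (PF.cons (PF.cons (PF.leaf (nat_lit 2658064) (nat_lit 985257) (nat_lit 58196913) (nat_lit 1490600) [(nat_lit 0), (nat_lit 985257), (nat_lit 0), (nat_lit 6436040)]) (PF.cons (PF.leaf (nat_lit 2850110) (nat_lit 269454) (nat_lit 57845672) (nat_lit 1516919) [(nat_lit 269454), (nat_lit 1007655), (nat_lit 0), (nat_lit 6469110)]) (PF.cons (PF.leaf (nat_lit 3057518) (nat_lit 280863) (nat_lit 57471969) (nat_lit 1543137) [(nat_lit 280863), (nat_lit 1029724), (nat_lit 0), (nat_lit 6502254)]) (PF.cons (PF.leaf (nat_lit 3277170) (nat_lit 291534) (nat_lit 57079046) (nat_lit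
 1568954) [(nat_lit 291534), (nat_lit 1051274), (nat_lit 0), (nat_lit 6534933)]) (PF.cons PF.nil PF.nil))))) (PF.cons (PF.cons (PF.leaf (nat_lit 3230612) (nat_lit 1052713) (nat_lit 56884622) (nat_lit 1573205) [(nat_lit 0), (nat_lit 1052713), (nat_lit 0), (nat_lit 6545557)]) (PF.cons (PF.leaf (nat_lit 3447275) (nat_lit 297759) (nat_lit 56493544) (nat_lit 1597052) [(nat_lit 297759), (nat_lit 1072738), (nat_lit 0), (nat_lit 6574979)]) (PF.cons PF.nil (PF.cons PF.nil PF.nil)))) (PF.cons (PF.cons (PF.leaf (nat_lit 3847077) (nat_lit 1111125) (nat_lit 55493534) (nat_lit 1645086) [(nat_lit 0), (nat_lit 1111125), (nat_lit 0), (nat_lit 6636817)]) (PF.cons PF.nil PF.nil)) (PF.cons PF.nil PF.nil))))) (PF.cons (PF.cons (PF.cons (PF.leaf (nat_lit 3246283) (nat_lit 1577691) (nat_lit 56199666) (nat_lit 1577691) [(nat_lit 0), (nat_lit 0), (nat_lit 2763482), (nat_lit 6567972)]) (PF.cons (PF.leaf (nat_lit 3447744) (nat_lit 290200) (nat_lit 55836265) (nat_lit 1600052)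 [(nat_lit 290200), (nat_lit 0), (nat_lit 2789455), (nat_lit 6592839)]) (PF.cons (PF.leaf (nat_lit 3663594) (nat_lit 300918) (nat_lit 55452001) (nat_lit 1622211) [(nat_lit 300918), (nat_lit 0), (nat_lit 2815393), (nat_lit 6617369)])
 (PF.cons PF.nil (PF.cons PF.nil PF.nil))))) (PF.cons (PF.cons (PF.leaf (nat_lit 3834479) (nat_lit 1108345) (nat_lit 54860556) (nat_lit 1646326) [(nat_lit 0), (nat_lit 1108345), (nat_lit 2846331), (nat_lit 6647252)]) (PF.cons (PF.leaf (nat_lit 4057983) (nat_lit 315761) (nat_lit 54463266) (nat_lit 1666340) [(nat_lit 315761), (nat_lit 1125594), (nat_lit 2869694), (nat_lit 6668154)]) (PF.cons PF.nil (PF.cons PF.nil PF.nil)))) (PF.cons (PF.cons (PF.leaf (nat_lit 4459422) (nat_lit 1157445) (nat_lit 53462325) (nat_lit 1705332) [(nat_lit 0), (nat_lit 1157445), (nat_lit 2917195), (nat_lit 6709068)]) (PF.cons PF.nil PF.nil)) PF.nil))) (PF.cons (PF.cons (PF.cons (PF.leaf (nat_lit 4430670) (nat_lit 1703234) (nat_lit 52858260) (nat_lit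 1703234) [(nat_lit 0), (nat_lit 0), (nat_lit 2919397), (nat_lit 6708523)]) (PF.cons (PF.leaf (nat_lit 4658733) (nat_lit 330520) (nat_lit 52460604) (nat_lit 1719901) [(nat_lit 330520), (nat_lit 0), (nat_lit 2937927), (nat_lit 6721933)]) PF.nil)) (PF.cons PF.nil PF.nil)) (PF.cons PF.nil (PF.cons PF.nil PF.nil))))) (PF.cons (PF.cons (PF.cons (PF.cons (PF.leaf (nat_lit 4087093) (nat_lit 1645251) (nat_lit 52196281) (nat_lit 1645251) [(nat_lit 0), (nat_lit 0),
 (nat_lit 0), (nat_lit 6633639)]) (PF.cons (PF.leaf (nat_lit 4290255) (nat_lit 305220) (nat_lit 51847967) (nat_lit 1663259) [(nat_lit 305220), (nat_lit 0), (nat_lit 0), (nat_lit 6646183)]) (PF.cons (PF.leaf (nat_lit 4506802) (nat_lit 315304) (nat_lit 51481152) (nat_lit 1680900) [(nat_lit 315304), (nat_lit 0), (nat_lit 0), (nat_lit 6658075)]) (PF.cons (PF.leaf (nat_lit 4733862) (nat_lit 324485) (nat_lit 51099234) (nat_lit 1697991) [(nat_lit 324485), (nat_lit 0), (nat_lit 0), (nat_lit 6669065)]) (PF.cons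 PF.nil PF.nil))))) (PF.cons (PF.cons (PF.leaf (nat_lit 4667981) (nat_lit 1147977) (nat_lit 50923365) (nat_lit 1698292) [(nat_lit 0), (nat_lit 1147977), (nat_lit 0), (nat_lit 6669588)]) (PF.cons (PF.leaf (nat_lit 4890503) (nat_lit 328068) (nat_lit 50547575) (nat_lit 1713941) [(nat_lit 328068), (nat_lit 1162246), (nat_lit 0), (nat_lit 6678491)]) (PF.cons (PF.leaf (nat_lit 5123534) (nat_lit 336355) (nat_lit 50158429) (nat_lit 1729042) [(nat_lit 336355), (nat_lit 1175917), (nat_lit 0), (nat_lit 6686355)]) (PF.cons PF.nil PF.nil)))) (PF.cons (PF.cons (PF.leaf (nat_lit 5278486) (nat_lit 1186857) (nat_lit 49609957) (nat_lit 1742533) [(nat_lit 0), (nat_lit 1186857), (nat_lit 0), (nat_lit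
 6691304)]) (PF.cons PF.nil PF.nil)) PF.nil))) (PF.cons (PF.cons (PF.cons (PF.leaf (nat_lit 5230595) (nat_lit 1735932) (nat_lit 49062899) (nat_lit 1735932) [(nat_lit 0), (nat_lit 0), (nat_lit 2954765), (nat_lit 6677607)]) (PF.cons (PF.leaf (nat_lit 5455582) (nat_lit 339068) (nat_lit 48691662) (nat_lit 1748804) [(nat_lit 339068), (nat_lit 0), (nat_lit 2967346), (nat_lit 6680965)]) (PF.cons PF.nil PF.nil))) (PF.cons (PF.cons (PF.leaf (nat_lit 5839683) (nat_lit 1210912) (nat_lit 47775306) (nat_lit 1771194) [(nat_lit 0), (nat_lit 1210912), (nat_lit 2989714), (nat_lit 6680842)]) PF.nil) PF.nil)) (PF.cons PF.nil PF.nil))) (PF.cons (PF.cons (PF.cons (PF.cons (PF.leaf (nat_lit 5959217) (nat_lit 1744911) (nat_lit 45620626) (nat_lit 1744911) [(nat_lit 0), (nat_lit 0), (nat_lit 0), (nat_lit 6581091)]) (PF.cons (PF.leaf (nat_lit 6179629) (nat_lit 342950) (nat_lit 45278283) (nat_lit 1754874) [(nat_lit 342950), (nat_lit 0), (nat_lit 0), (nat_lit 6577568)]) PF.nil))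 (PF.cons PF.nil PF.nil)) (PF.cons PF.nil PF.nil)) (PF.cons PF.nil (PF.cons PF.nil (PF.cons PF.nil (PF.cons PF.nil PF.nil))))))))

def p14_5_0_0 : pfC (piC [(nat_lit 41351667), (nat_lit 28134109), (nat_lit 20794417), (nat_lit 13943267)] (nat_lit 32441938)) p14_5_0 (nat_lit 4) (nat_lit 0) (nat_lit 1) = true := by decide +kernel
def p14_5_0_1 : pfC (piC [(nat_lit 41351667), (nat_lit 28134109), (nat_lit 20794417), (nat_lit 13943267)] (nat_lit 32441938)) p14_5_0 (nat_lit 4) (nat_lit 1) (nat_lit 2) = true := by decide +kernel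
def p14_5_0_2 : pfC (piC [(nat_lit 41351667), (nat_lit 28134109), (nat_lit 20794417), (nat_lit 13943267)] (nat_lit 32441938)) p14_5_0 (nat_lit 4) (nat_lit 2) (nat_lit 3) = true := by decide +kernel
def p14_5_0_3 : pfC (piC [(nat_lit 41351667), (nat_lit 28134109), (nat_lit 20794417), (nat_lit 13943267)] (nat_lit 32441938)) p14_5_0 (nat_lit 4) (nat_lit 3) (nat_lit 4) = true := by decide +kernel
def p14_5_0_4 : pfC (piC [(nat_lit 41351667), (nat_lit 28134109), (nat_lit 20794417), (nat_lit 13943267)] (nat_lit 32441938)) p14_5_0 (nat_lit 4) (nat_lit 4) (nat_lit 5) = true := by decide +kernel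
def p14_5_0_5 : pfC (piC [(nat_lit 41351667), (nat_lit 28134109), (nat_lit 20794417), (nat_lit 13943267)] (nat_lit 32441938)) p14_5_0 (nat_lit 4) (nat_lit 5) (nat_lit 6) = true := by decide +kernel
def p14_5_0_6 : pfC (piC [(nat_lit 41351667), (nat_lit 28134109), (nat_lit 20794417), (nat_lit 13943267)] (nat_lit 32441938)) p14_5_0 (nat_lit 4) (nat_lit 6) (nat_lit 7) = true := by decide +kernel
def p14_5_0_7 : pfC (piC [(nat_lit 41351667), (nat_lit 28134109), (nat_lit 20794417), (nat_lit 13943267)] (nat_lit 32441938)) p14_5_0 (nat_lit 4) (nat_lit 7) (nat_lit 8) = true := by decide +kernel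
def p14_5_0_8 : pfC (piC [(nat_lit 41351667), (nat_lit 28134109), (nat_lit 20794417), (nat_lit 13943267)] (nat_lit 32441938)) p14_5_0 (nat_lit 4) (nat_lit 8) (nat_lit 9) = true := by decide +kernel
def p14_5_0_9 : pfC (piC [(nat_lit 41351667), (nat_lit 28134109), (nat_lit 20794417), (nat_lit 13943267)] (nat_lit 32441938)) p14_5_0 (nat_lit 4) (nat_lit 9) (nat_lit 10) = true := by decide +kernel
def p14_5_0_10 : pfC (piC [(nat_lit 41351667), (nat_lit 28134109), (nat_lit 20794417), (nat_lit 13943267)] (nat_lit 32441938)) p14_5_0 (nat_lit 4) (nat_lit 10) (nat_lit 11) = true := by decide +kernel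
def p14_5_0_11 : pfC (piC [(nat_lit 41351667), (nat_lit 28134109), (nat_lit 20794417), (nat_lit 13943267)] (nat_lit 32441938)) p14_5_0 (nat_lit 4) (nat_lit 11) (nat_lit 12) = true := by decide +kernel
def p14_5_0_12 : pfC (piC [(nat_lit 41351667), (nat_lit 28134109), (nat_lit 20794417), (nat_lit 13943267)] (nat_lit 32441938)) p14_5_0 (nat_lit 4) (nat_lit 12) (nat_lit 13) = true := by decide +kernel
def p14_5_0_13 : pfC (piC [(nat_lit 41351667), (nat_lit 28134109), (nat_lit 20794417), (nat_lit 13943267)] (nat_lit 32441938)) p14_5_0 (nat_lit 4) (nat_lit 13) (nat_lit 14) = true := by decide +kernel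
def p14_5_0_14 : pfC (piC [(nat_lit 41351667), (nat_lit 28134109), (nat_lit 20794417), (nat_lit 13943267)] (nat_lit 32441938)) p14_5_0 (nat_lit 4) (nat_lit 14) (nat_lit 15) = true := by decide +kernel
def p14_5_0_15 : pfC (piC [(nat_lit 41351667), (nat_lit 28134109), (nat_lit 20794417), (nat_lit 13943267)] (nat_lit 32441938)) p14_5_0 (nat_lit 4) (nat_lit 15) (nat_lit 16) = true := by decide +kernel
def p14_5_0_16 : pfC (piC [(nat_lit 41351667), (nat_lit 28134109), (nat_lit 20794417), (nat_lit 13943267)] (nat_lit 32441938)) p14_5_0 (nat_lit 4) (nat_lit 16) (nat_lit 17) = true := by decide +kernel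
def p14_5_0_17 : pfC (piC [(nat_lit 41351667), (nat_lit 28134109), (nat_lit 20794417), (nat_lit 13943267)] (nat_lit 32441938)) p14_5_0 (nat_lit 4) (nat_lit 17) (nat_lit 18) = true := by decide +kernel
def p14_5_0_18 : pfC (piC [(nat_lit 41351667), (nat_lit 28134109), (nat_lit 20794417), (nat_lit 13943267)] (nat_lit 32441938)) p14_5_0 (nat_lit 4) (nat_lit 18) (nat_lit 19) = true := by decide +kernel
def p14_5_0_19 : pfC (piC [(nat_lit 41351667), (nat_lit 28134109), (nat_lit 20794417), (nat_lit 13943267)] (nat_lit 32441938)) p14_5_0 (nat_lit 4) (nat_lit 19) (nat_lit 20) = true := by decide +kernel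
def p14_5_0_20 : pfC (piC [(nat_lit 41351667), (nat_lit 28134109), (nat_lit 20794417), (nat_lit 13943267)] (nat_lit 32441938)) p14_5_0 (nat_lit 4) (nat_lit 20) (nat_lit 21) = true := by decide +kernel
def p14_5_0_21 : pfC (piC [(nat_lit 41351667), (nat_lit 28134109), (nat_lit 20794417), (nat_lit 13943267)] (nat_lit 32441938)) p14_5_0 (nat_lit 4) (nat_lit 21) (nat_lit 22) = true := by decide +kernel
def p14_5_0_22 : pfC (piC [(nat_lit 41351667), (nat_lit 28134109), (nat_lit 20794417), (nat_lit 13943267)] (nat_lit 32441938)) p14_5_0 (nat_lit 4) (nat_lit 22) (nat_lit 23) = true := by decide +kernel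
def p14_5_0_23 : pfC (piC [(nat_lit 41351667), (nat_lit 28134109), (nat_lit 20794417), (nat_lit 13943267)] (nat_lit 32441938)) p14_5_0 (nat_lit 4) (nat_lit 23) (nat_lit 24) = true := by decide +kernel
def p14_5_0_24 : pfC (piC [(nat_lit 41351667), (nat_lit 28134109), (nat_lit 20794417), (nat_lit 13943267)] (nat_lit 32441938)) p14_5_0 (nat_lit 4) (nat_lit 24) (nat_lit 25) = true := by decide +kernel
def p14_5_0_25 : pfC (piC [(nat_lit 41351667), (nat_lit 28134109), (nat_lit 20794417), (nat_lit 13943267)] (nat_lit 32441938)) p14_5_0 (nat_lit 4) (nat_lit 25) (nat_lit 26) = true := by decide +kernel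
def p14_5_0_26 : pfC (piC [(nat_lit 41351667), (nat_lit 28134109), (nat_lit 20794417), (nat_lit 13943267)] (nat_lit 32441938)) p14_5_0 (nat_lit 4) (nat_lit 26) (nat_lit 27) = true := by decide +kernel
def p14_5_0_27 : pfC (piC [(nat_lit 41351667), (nat_lit 28134109), (nat_lit 20794417), (nat_lit 13943267)] (nat_lit 32441938)) p14_5_0 (nat_lit 4) (nat_lit 27) (nat_lit 28) = true := by decide +kernel
def p14_5_0_28 : pfC (piC [(nat_lit 41351667), (nat_lit 28134109), (nat_lit 20794417), (nat_lit 13943267)] (nat_lit 32441938)) p14_5_0 (nat_lit 4) (nat_lit 28) (nat_lit 29) = true := by decide +kernel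
def p14_5_0_29 : pfC (piC [(nat_lit 41351667), (nat_lit 28134109), (nat_lit 20794417), (nat_lit 13943267)] (nat_lit 32441938)) p14_5_0 (nat_lit 4) (nat_lit 29) (nat_lit 30) = true := by decide +kernel
def p14_5_0_30 : pfC (piC [(nat_lit 41351667), (nat_lit 28134109), (nat_lit 20794417), (nat_lit 13943267)] (nat_lit 32441938)) p14_5_0 (nat_lit 4) (nat_lit 30) (nat_lit 31) = true := by decide +kernel
def p14_5_0_31 : pfC (piC [(nat_lit 41351667), (nat_lit 28134109), (nat_lit 20794417), (nat_lit 13943267)] (nat_lit 32441938)) p14_5_0 (nat_lit 4) (nat_lit 31) (nat_lit 32) = true := by decide +kernel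
def p14_5_0_32 : pfC (piC [(nat_lit 41351667), (nat_lit 28134109), (nat_lit 20794417), (nat_lit 13943267)] (nat_lit 32441938)) p14_5_0 (nat_lit 4) (nat_lit 32) (nat_lit 33) = true := by decide +kernel
def p14_5_0_33 : pfC (piC [(nat_lit 41351667), (nat_lit 28134109), (nat_lit 20794417), (nat_lit 13943267)] (nat_lit 32441938)) p14_5_0 (nat_lit 4) (nat_lit 33) (nat_lit 34) = true := by decide +kernel
def p14_5_0_34 : pfC (piC [(nat_lit 41351667), (nat_lit 28134109), (nat_lit 20794417), (nat_lit 13943267)] (nat_lit 32441938)) p14_5_0 (nat_lit 4) (nat_lit 34) (nat_lit 35) = true := by decide +kernel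
def p14_5_0_35 : pfC (piC [(nat_lit 41351667), (nat_lit 28134109), (nat_lit 20794417), (nat_lit 13943267)] (nat_lit 32441938)) p14_5_0 (nat_lit 4) (nat_lit 35) (nat_lit 36) = true := by decide +kernel
def p14_5_0_36 : pfC (piC [(nat_lit 41351667), (nat_lit 28134109), (nat_lit 20794417), (nat_lit 13943267)] (nat_lit 32441938)) p14_5_0 (nat_lit 4) (nat_lit 36) (nat_lit 37) = true := by decide +kernel
def p14_5_0_37 : pfC (piC [(nat_lit 41351667), (nat_lit 28134109), (nat_lit 20794417), (nat_lit 13943267)] (nat_lit 32441938)) p14_5_0 (nat_lit 4) (nat_lit 37) (nat_lit 38) = true := by decide +kernel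
def p14_5_0_38 : pfC (piC [(nat_lit 41351667), (nat_lit 28134109), (nat_lit 20794417), (nat_lit 13943267)] (nat_lit 32441938)) p14_5_0 (nat_lit 4) (nat_lit 38) (nat_lit 39) = true := by decide +kernel
def p14_5_0_39 : pfC (piC [(nat_lit 41351667), (nat_lit 28134109), (nat_lit 20794417), (nat_lit 13943267)] (nat_lit 32441938)) p14_5_0 (nat_lit 4) (nat_lit 39) (nat_lit 40) = true := by decide +kernel
def p14_5_0_40 : pfC (piC [(nat_lit 41351667), (nat_lit 28134109), (nat_lit 20794417), (nat_lit 13943267)] (nat_lit 32441938)) p14_5_0 (nat_lit 4) (nat_lit 40) (nat_lit 41) = true := by decide +kernel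
def p14_5_0_41 : pfC (piC [(nat_lit 41351667), (nat_lit 28134109), (nat_lit 20794417), (nat_lit 13943267)] (nat_lit 32441938)) p14_5_0 (nat_lit 4) (nat_lit 41) (nat_lit 42) = true := by decide +kernel
def p14_5_0_42 : pfC (piC [(nat_lit 41351667), (nat_lit 28134109), (nat_lit 20794417), (nat_lit 13943267)] (nat_lit 32441938)) p14_5_0 (nat_lit 4) (nat_lit 42) (nat_lit 43) = true := by decide +kernel
def p14_5_0_43 : pfC (piC [(nat_lit 41351667), (nat_lit 28134109), (nat_lit 20794417), (nat_lit 13943267)] (nat_lit 32441938)) p14_5_0 (nat_lit 4) (nat_lit 43) (nat_lit 44) = true := by decide +kernel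
def p14_5_0_44 : pfC (piC [(nat_lit 41351667), (nat_lit 28134109), (nat_lit 20794417), (nat_lit 13943267)] (nat_lit 32441938)) p14_5_0 (nat_lit 4) (nat_lit 44) (nat_lit 45) = true := by decide +kernel
def p14_5_0_45 : pfC (piC [(nat_lit 41351667), (nat_lit 28134109), (nat_lit 20794417), (nat_lit 13943267)] (nat_lit 32441938)) p14_5_0 (nat_lit 4) (nat_lit 45) (nat_lit 46) = true := by decide +kernel
def p14_5_0_46 : pfC (piC [(nat_lit 41351667), (nat_lit 28134109), (nat_lit 20794417), (nat_lit 13943267)] (nat_lit 32441938)) p14_5_0 (nat_lit 4) (nat_lit 46) (nat_lit 47) = true := by decide +kernel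
def p14_5_0_47 : pfC (piC [(nat_lit 41351667), (nat_lit 28134109), (nat_lit 20794417), (nat_lit 13943267)] (nat_lit 32441938)) p14_5_0 (nat_lit 4) (nat_lit 47) (nat_lit 48) = true := by decide +kernel
def p14_5_0_48 : pfC (piC [(nat_lit 41351667), (nat_lit 28134109), (nat_lit 20794417), (nat_lit 13943267)] (nat_lit 32441938)) p14_5_0 (nat_lit 4) (nat_lit 48) (nat_lit 49) = true := by decide +kernel
def p14_5_0_49 : pfC (piC [(nat_lit 41351667), (nat_lit 28134109), (nat_lit 20794417), (nat_lit 13943267)] (nat_lit 32441938)) p14_5_0 (nat_lit 4) (nat_lit 49) (nat_lit 50) = true := by decide +kernel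
def p14_5_0_50 : pfC (piC [(nat_lit 41351667), (nat_lit 28134109), (nat_lit 20794417), (nat_lit 13943267)] (nat_lit 32441938)) p14_5_0 (nat_lit 4) (nat_lit 50) (nat_lit 51) = true := by decide +kernel
def p14_5_0_51 : pfC (piC [(nat_lit 41351667), (nat_lit 28134109), (nat_lit 20794417), (nat_lit 13943267)] (nat_lit 32441938)) p14_5_0 (nat_lit 4) (nat_lit 51) (nat_lit 52) = true := by decide +kernel
theorem p14_5_0_T : PfS (PiF n14_5.reverse (nat_lit 32441938)) p14_5_0 (nat_lit 4) [] 0 :=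
  pftab_of (los := [(nat_lit 41351667), (nat_lit 28134109), (nat_lit 20794417), (nat_lit 13943267)]) (by decide +kernel) (hi := (nat_lit 52)) (PfP.trans (PfP.trans (PfP.trans (PfP.trans (PfP.trans (PfP.trans (PfP.trans (PfP.trans (PfP.trans (PfP.trans (PfP.trans (PfP.trans (PfP.trans (PfP.trans (PfP.trans (PfP.trans (PfP.trans (PfP.trans (PfP.trans (PfP.trans (PfP.trans (PfP.trans (PfP.trans (PfP.trans (PfP.trans (PfP.trans (PfP.trans (PfP.trans (PfP.trans (PfP.trans (PfP.trans (PfP.trans (PfP.trans (PfP.trans (PfP.trans (PfP.trans (PfP.trans (PfP.trans (PfP.trans (PfP.trans (PfP.trans (PfP.trans (PfP.trans (PfP.trans (PfP.trans (PfP.trans (PfP.trans (PfP.trans (PfP.trans (PfP.trans (PfP.trans (pfC_sound p14_5_0_0) (pfC_sound p14_5_0_1)) (pfC_sound p14_5_0_2)) (pfC_sound p14_5_0_3)) (pfC_sound p14_5_0_4)) (pfC_sound p14_5_0_5)) (pfC_sound p14_5_0_6)) (pfC_sound p14_5_0_7)) (pfC_sound p14_5_0_8)) (pfC_sound p14_5_0_9)) (pfC_sound p14_5_0_10)) (pfC_sound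 p14_5_0_11)) (pfC_sound p14_5_0_12)) (pfC_sound p14_5_0_13)) (pfC_sound p14_5_0_14)) (pfC_sound p14_5_0_15)) (pfC_sound p14_5_0_16)) (pfC_sound p14_5_0_17)) (pfC_sound p14_5_0_18)) (pfC_sound p14_5_0_19)) (pfC_sound p14_5_0_20)) (pfC_sound p14_5_0_21)) (pfC_sound p14_5_0_22)) (pfC_sound p14_5_0_23)) (pfC_sound p14_5_0_24)) (pfC_sound p14_5_0_25)) (pfC_sound p14_5_0_26))
 (pfC_sound p14_5_0_27)) (pfC_sound p14_5_0_28)) (pfC_sound p14_5_0_29)) (pfC_sound p14_5_0_30)) (pfC_sound p14_5_0_31)) (pfC_sound p14_5_0_32)) (pfC_sound p14_5_0_33)) (pfC_sound p14_5_0_34)) (pfC_sound p14_5_0_35)) (pfC_sound p14_5_0_36)) (pfC_sound p14_5_0_37)) (pfC_sound p14_5_0_38)) (pfC_sound p14_5_0_39)) (pfC_sound p14_5_0_40)) (pfC_sound p14_5_0_41)) (pfC_sound p14_5_0_42)) (pfC_sound p14_5_0_43)) (pfC_sound p14_5_0_44)) (pfC_sound p14_5_0_45)) (pfC_sound p14_5_0_46)) (pfC_sound p14_5_0_47)) (pfC_sound p14_5_0_48)) (pfC_sound p14_5_0_49)) (pfC_sound p14_5_0_50)) (pfC_sound p14_5_0_51))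 (by decide +kernel)

def z14_5_0 : zOK yB14_5 (nat_lit 0) (nat_lit 0) (nat_lit 400) (nat_lit 32441938) (nat_lit 10412874) = true := by decide +kernel
def g14_5_0 : gOK yB14_5.x P14_5 (nat_lit 1427) (q14_5 :: r14_5) (nat_lit 0) (nat_lit 0) (nat_lit 1) (nat_lit 400) (nat_lit 0) (nat_lit 11000000) (nat_lit 12712500) (nat_lit 12712500) [(nat_lit 800), (nat_lit 1400), (nat_lit 1580)] = true := by decide +kernel
def v14_5_0 : ivC P14_5 s14_5 w14_5 n14_5 (nat_lit 4) (nat_lit 5560) (nat_lit 0) (nat_lit 0) f128_1_0 f136_1_0 (nat_lit 1) (nat_lit 400) f128_1_400 f136_1_400 (nat_lit 32441938) (nat_lit 10412874) p14_5_0 = true := by decide +kernel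
def p14_5_1 : PF := (PF.cons (PF.cons (PF.cons (PF.cons (PF.leaf (nat_lit 2142155) (nat_lit 10289375) (nat_lit 56819437) (nat_lit 10289375) [(nat_lit 0), (nat_lit 0), (nat_lit 0), (nat_lit 0)]) (PF.cons (PF.leaf (nat_lit 2261330) (nat_lit 194312) (nat_lit 56610666) (nat_lit 10303834) [(nat_lit 194312), (nat_lit 0), (nat_lit 0), (nat_lit 0)]) (PF.cons (PF.leaf (nat_lit 2405070) (nat_lit 211673) (nat_lit 56365656) (nat_lit 10319810) [(nat_lit 211673), (nat_lit 0), (nat_lit 0), (nat_lit 0)]) (PF.cons (PF.leaf (nat_lit 2566942) (nat_lit 227226) (nat_lit 56090620) (nat_lit 10336512) [(nat_lit 227226), (nat_lit 0), (nat_lit 0), (nat_lit 0)]) (PF.cons PF.nil PF.nil))))) (PF.cons (PF.cons (PF.leaf (nat_lit 2573007) (nat_lit 914092) (nat_lit 55847952) (nat_lit 10346767) [(nat_lit 0), (nat_lit 914092), (nat_lit 0), (nat_lit 0)]) (PF.cons (PF.leaf (nat_lit 2730433) (nat_lit 236115) (nat_lit 55572923) (nat_lit 10361071) [(nat_lit 236115), (nat_lit 938702), (nat_lit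 0), (nat_lit 0)]) (PF.cons (PF.leaf (nat_lit 2906608) (nat_lit 249823) (nat_lit 55270626) (nat_lit 10375428) [(nat_lit 249823), (nat_lit 963111), (nat_lit 0), (nat_lit 0)]) (PF.cons PF.nil PF.nil)))) (PF.cons (PF.cons (PF.leaf (nat_lit 3073651)
 (nat_lit 989814) (nat_lit 54735238) (nat_lit 10393946) [(nat_lit 0), (nat_lit 989814), (nat_lit 0), (nat_lit 0)]) (PF.cons PF.nil PF.nil)) (PF.cons PF.nil (PF.cons PF.nil PF.nil))))) (PF.cons (PF.cons (PF.cons (PF.leaf (nat_lit 3112786) (nat_lit 2679326) (nat_lit 54035794) (nat_lit 10393692) [(nat_lit 0), (nat_lit 0), (nat_lit 2679326), (nat_lit 0)]) (PF.cons (PF.leaf (nat_lit 3281038) (nat_lit 258226) (nat_lit 53745525) (nat_lit 10401337) [(nat_lit 258226), (nat_lit 0), (nat_lit 2703724), (nat_lit 0)]) (PF.cons PF.nil (PF.cons PF.nil PF.nil)))) (PF.cons (PF.cons (PF.leaf (nat_lit 3633764) (nat_lit 1048964) (nat_lit 52884477) (nat_lit 10414017) [(nat_lit 0), (nat_lit 1048964), (nat_lit 2761352), (nat_lit 0)])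 (PF.cons PF.nil PF.nil)) (PF.cons PF.nil PF.nil))) (PF.cons (PF.cons (PF.cons (PF.leaf (nat_lit 4191238) (nat_lit 2834851) (nat_lit 51044414) (nat_lit 10394696) [(nat_lit 0), (nat_lit 0), (nat_lit 2834851), (nat_lit 0)]) (PF.cons PF.nil PF.nil)) (PF.cons PF.nil PF.nil)) PF.nil))) (PF.cons (PF.cons (PF.cons (PF.cons (PF.leaf (nat_lit 3898838) (nat_lit 6500767) (nat_lit 50309280) (nat_lit 10298765) [(nat_lit 0), (nat_lit 0), (nat_lit 0), (nat_lit 6500767)]) (PF.cons (PF.leaf
 (nat_lit 4070369) (nat_lit 272389) (nat_lit 50029454) (nat_lit 10295839) [(nat_lit 272389), (nat_lit 0), (nat_lit 0), (nat_lit 6511129)]) (PF.cons (PF.leaf (nat_lit 4258971) (nat_lit 285027) (nat_lit 49725752) (nat_lit 10291657) [(nat_lit 285027), (nat_lit 0), (nat_lit 0), (nat_lit 6521346)]) (PF.cons PF.nil (PF.cons PF.nil PF.nil))))) (PF.cons (PF.cons (PF.leaf (nat_lit 4418630) (nat_lit 1087803) (nat_lit 49209715) (nat_lit 10279053) [(nat_lit 0), (nat_lit 1087803), (nat_lit 0),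 (nat_lit 6532240)]) (PF.cons (PF.leaf (nat_lit 4614981) (nat_lit 300491) (nat_lit 48892482) (nat_lit 10271826) [(nat_lit 300491), (nat_lit 1103896), (nat_lit 0), (nat_lit 6540115)]) (PF.cons PF.nil (PF.cons PF.nil PF.nil)))) (PF.cons (PF.cons (PF.leaf (nat_lit 4977777) (nat_lit 1132219) (nat_lit 48047783) (nat_lit 10244369) [(nat_lit 0), (nat_lit 1132219), (nat_lit 0), (nat_lit 6552221)]) (PF.cons PF.nil PF.nil)) PF.nil))) (PF.cons (PF.cons (PF.cons (PF.leaf (nat_lit 4950377) (nat_lit 2868427) (nat_lit 47494827) (nat_lit 10207315) [(nat_lit 0), (nat_lit 0), (nat_lit 2868427), (nat_lit 6538242)]) (PF.cons (PF.leaf (nat_lit 5150778) (nat_lit 312748) (nat_lit 47178236) (nat_lit 10194906) [(nat_lit 312748),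
 (nat_lit 0), (nat_lit 2881472), (nat_lit 6541449)]) PF.nil)) (PF.cons PF.nil PF.nil)) (PF.cons PF.nil PF.nil))) (PF.cons (PF.cons (PF.cons (PF.cons (PF.leaf (nat_lit 5649920) (nat_lit 6441894) (nat_lit 44267681) (nat_lit 9957342) [(nat_lit 0), (nat_lit 0), (nat_lit 0), (nat_lit 6441894)]) (PF.cons (PF.leaf (nat_lit 5847620) (nat_lit 317140) (nat_lit 43974107) (nat_lit 9938854) [(nat_lit 317140), (nat_lit 0), (nat_lit 0), (nat_lit 6439355)]) PF.nil)) (PF.cons PF.nil PF.nil)) (PF.cons PF.nil PF.nil)) (PF.cons PF.nil (PF.cons PF.nil (PF.cons PF.nil PF.nil))))))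

def p14_5_1_0 : pfC (piC [(nat_lit 41351667), (nat_lit 28134109), (nat_lit 20794417), (nat_lit 13943267)] (nat_lit 10412874)) p14_5_1 (nat_lit 4) (nat_lit 0) (nat_lit 1) = true := by decide +kernel
def p14_5_1_1 : pfC (piC [(nat_lit 41351667), (nat_lit 28134109), (nat_lit 20794417), (nat_lit 13943267)] (nat_lit 10412874)) p14_5_1 (nat_lit 4) (nat_lit 1) (nat_lit 2) = true := by decide +kernel
def p14_5_1_2 : pfC (piC [(nat_lit 41351667), (nat_lit 28134109), (nat_lit 20794417), (nat_lit 13943267)] (nat_lit 10412874)) p14_5_1 (nat_lit 4) (nat_lit 2) (nat_lit 3) = true := by decide +kernel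
def p14_5_1_3 : pfC (piC [(nat_lit 41351667), (nat_lit 28134109), (nat_lit 20794417), (nat_lit 13943267)] (nat_lit 10412874)) p14_5_1 (nat_lit 4) (nat_lit 3) (nat_lit 4) = true := by decide +kernel
def p14_5_1_4 : pfC (piC [(nat_lit 41351667), (nat_lit 28134109), (nat_lit 20794417), (nat_lit 13943267)] (nat_lit 10412874)) p14_5_1 (nat_lit 4) (nat_lit 4) (nat_lit 5) = true := by decide +kernel
def p14_5_1_5 : pfC (piC [(nat_lit 41351667), (nat_lit 28134109), (nat_lit 20794417), (nat_lit 13943267)] (nat_lit 10412874)) p14_5_1 (nat_lit 4) (nat_lit 5) (nat_lit 6) = true := by decide +kernel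
def p14_5_1_6 : pfC (piC [(nat_lit 41351667), (nat_lit 28134109), (nat_lit 20794417), (nat_lit 13943267)] (nat_lit 10412874)) p14_5_1 (nat_lit 4) (nat_lit 6) (nat_lit 7) = true := by decide +kernel
def p14_5_1_7 : pfC (piC [(nat_lit 41351667), (nat_lit 28134109), (nat_lit 20794417), (nat_lit 13943267)] (nat_lit 10412874)) p14_5_1 (nat_lit 4) (nat_lit 7) (nat_lit 8) = true := by decide +kernel
def p14_5_1_8 : pfC (piC [(nat_lit 41351667), (nat_lit 28134109), (nat_lit 20794417), (nat_lit 13943267)] (nat_lit 10412874)) p14_5_1 (nat_lit 4) (nat_lit 8) (nat_lit 9) = true := by decide +kernel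
def p14_5_1_9 : pfC (piC [(nat_lit 41351667), (nat_lit 28134109), (nat_lit 20794417), (nat_lit 13943267)] (nat_lit 10412874)) p14_5_1 (nat_lit 4) (nat_lit 9) (nat_lit 10) = true := by decide +kernel
def p14_5_1_10 : pfC (piC [(nat_lit 41351667), (nat_lit 28134109), (nat_lit 20794417), (nat_lit 13943267)] (nat_lit 10412874)) p14_5_1 (nat_lit 4) (nat_lit 10) (nat_lit 11) = true := by decide +kernel
def p14_5_1_11 : pfC (piC [(nat_lit 41351667), (nat_lit 28134109), (nat_lit 20794417), (nat_lit 13943267)] (nat_lit 10412874)) p14_5_1 (nat_lit 4) (nat_lit 11) (nat_lit 12) = true := by decide +kernel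
def p14_5_1_12 : pfC (piC [(nat_lit 41351667), (nat_lit 28134109), (nat_lit 20794417), (nat_lit 13943267)] (nat_lit 10412874)) p14_5_1 (nat_lit 4) (nat_lit 12) (nat_lit 13) = true := by decide +kernel
def p14_5_1_13 : pfC (piC [(nat_lit 41351667), (nat_lit 28134109), (nat_lit 20794417), (nat_lit 13943267)] (nat_lit 10412874)) p14_5_1 (nat_lit 4) (nat_lit 13) (nat_lit 14) = true := by decide +kernel
def p14_5_1_14 : pfC (piC [(nat_lit 41351667), (nat_lit 28134109), (nat_lit 20794417), (nat_lit 13943267)] (nat_lit 10412874)) p14_5_1 (nat_lit 4) (nat_lit 14) (nat_lit 15) = true := by decide +kernel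
def p14_5_1_15 : pfC (piC [(nat_lit 41351667), (nat_lit 28134109), (nat_lit 20794417), (nat_lit 13943267)] (nat_lit 10412874)) p14_5_1 (nat_lit 4) (nat_lit 15) (nat_lit 16) = true := by decide +kernel
def p14_5_1_16 : pfC (piC [(nat_lit 41351667), (nat_lit 28134109), (nat_lit 20794417), (nat_lit 13943267)] (nat_lit 10412874)) p14_5_1 (nat_lit 4) (nat_lit 16) (nat_lit 17) = true := by decide +kernel
def p14_5_1_17 : pfC (piC [(nat_lit 41351667), (nat_lit 28134109), (nat_lit 20794417), (nat_lit 13943267)] (nat_lit 10412874)) p14_5_1 (nat_lit 4) (nat_lit 17) (nat_lit 18) = true := by decide +kernel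
def p14_5_1_18 : pfC (piC [(nat_lit 41351667), (nat_lit 28134109), (nat_lit 20794417), (nat_lit 13943267)] (nat_lit 10412874)) p14_5_1 (nat_lit 4) (nat_lit 18) (nat_lit 19) = true := by decide +kernel
def p14_5_1_19 : pfC (piC [(nat_lit 41351667), (nat_lit 28134109), (nat_lit 20794417), (nat_lit 13943267)] (nat_lit 10412874)) p14_5_1 (nat_lit 4) (nat_lit 19) (nat_lit 20) = true := by decide +kernel
def p14_5_1_20 : pfC (piC [(nat_lit 41351667), (nat_lit 28134109), (nat_lit 20794417), (nat_lit 13943267)] (nat_lit 10412874)) p14_5_1 (nat_lit 4) (nat_lit 20) (nat_lit 21) = true := by decide +kernel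
def p14_5_1_21 : pfC (piC [(nat_lit 41351667), (nat_lit 28134109), (nat_lit 20794417), (nat_lit 13943267)] (nat_lit 10412874)) p14_5_1 (nat_lit 4) (nat_lit 21) (nat_lit 22) = true := by decide +kernel
theorem p14_5_1_T : PfS (PiF n14_5.reverse (nat_lit 10412874)) p14_5_1 (nat_lit 4) [] 0 :=
  pftab_of (los := [(nat_lit 41351667), (nat_lit 28134109), (nat_lit 20794417), (nat_lit 13943267)]) (by decide +kernel) (hi := (nat_lit 22)) (PfP.trans (PfP.trans (PfP.trans (PfP.trans (PfP.trans (PfP.trans (PfP.trans (PfP.trans (PfP.trans (PfP.trans (PfP.trans (PfP.trans (PfP.trans (PfP.trans (PfP.trans (PfP.trans (PfP.trans (PfP.trans (PfP.trans (PfP.trans (PfP.trans (pfC_sound p14_5_1_0) (pfC_sound p14_5_1_1)) (pfC_sound p14_5_1_2)) (pfC_sound p14_5_1_3)) (pfC_sound p14_5_1_4)) (pfC_sound p14_5_1_5)) (pfC_sound p14_5_1_6)) (pfC_sound p14_5_1_7)) (pfC_sound p14_5_1_8)) (pfC_sound p14_5_1_9)) (pfC_sound p14_5_1_10)) (pfC_sound p14_5_1_11)) (pfC_sound p14_5_1_12))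 (pfC_sound p14_5_1_13)) (pfC_sound p14_5_1_14)) (pfC_sound p14_5_1_15)) (pfC_sound p14_5_1_16)) (pfC_sound p14_5_1_17)) (pfC_sound p14_5_1_18)) (pfC_sound p14_5_1_19)) (pfC_sound p14_5_1_20)) (pfC_sound p14_5_1_21)) (by decide +kernel)

def z14_5_1 : zOK yB14_5 (nat_lit 1) (nat_lit 400) (nat_lit 600) (nat_lit 10412874) (nat_lit 6674796) = true := by decide +kernel
def g14_5_1 : gOK yB14_5.x P14_5 (nat_lit 1427) (q14_5 :: r14_5) (nat_lit 1) (nat_lit 400) (nat_lit 2) (nat_lit 600) (nat_lit 11000000) (nat_lit 17850000) (nat_lit 12712500) (nat_lit 12712500) [(nat_lit 800), (nat_lit 1040)] = true := by decide +kernel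
def v14_5_1 : ivC P14_5 s14_5 w14_5 n14_5 (nat_lit 4) (nat_lit 5160) (nat_lit 1) (nat_lit 400) f128_1_400 f136_1_400 (nat_lit 2) (nat_lit 600) f128_1_600 f136_1_600 (nat_lit 10412874) (nat_lit 6674796) p14_5_1 = true := by decide +kernel
def p14_5_2 : PF := (PF.cons (PF.cons (PF.cons (PF.cons (PF.leaf (nat_lit 2771331) (nat_lit 16292863) (nat_lit 50815949) (nat_lit 16292863) [(nat_lit 0), (nat_lit 0), (nat_lit 0), (nat_lit 0)]) (PF.cons (PF.leaf (nat_lit 2887611) (nat_lit 194524) (nat_lit 50635642) (nat_lit 16278645) [(nat_lit 194524), (nat_lit 0), (nat_lit 0), (nat_lit 0)]) (PF.cons (PF.leaf (nat_lit 3027649) (nat_lit 211568) (nat_lit 50424310) (nat_lit 16261366) [(nat_lit 211568), (nat_lit 0), (nat_lit 0), (nat_lit 0)]) (PF.cons (PF.leaf (nat_lit 3184994) (nat_lit 226725) (nat_lit 50187410) (nat_lit 16241226) [(nat_lit 226725), (nat_lit 0), (nat_lit 0), (nat_lit 0)]) (PF.cons (PF.leaf (nat_lit 3357270) (nat_lit 240429) (nat_lit 49928768) (nat_lit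 16218328) [(nat_lit 240429), (nat_lit 0), (nat_lit 0), (nat_lit 0)]) (PF.cons PF.nil (PF.cons PF.nil PF.nil))))))) (PF.cons (PF.cons (PF.leaf (nat_lit 3186566) (nat_lit 908464) (nat_lit 49979589) (nat_lit 16220759) [(nat_lit 0), (nat_lit 908464), (nat_lit 0), (nat_lit 0)]) (PF.cons (PF.leaf (nat_lit 3339008) (nat_lit 234860) (nat_lit 49743317) (nat_lit 16199142) [(nat_lit 234860), (nat_lit 931492), (nat_lit 0), (nat_lit 0)]) (PF.cons (PF.leaf (nat_lit 3509308) (nat_lit 248080) (nat_lit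
 49483963) (nat_lit 16174532) [(nat_lit 248080), (nat_lit 954156), (nat_lit 0), (nat_lit 0)]) (PF.cons PF.nil (PF.cons PF.nil PF.nil))))) (PF.cons (PF.cons (PF.leaf (nat_lit 3665773) (nat_lit 977881) (nat_lit 49026387) (nat_lit 16126663) [(nat_lit 0), (nat_lit 977881), (nat_lit 0), (nat_lit 0)]) (PF.cons (PF.leaf (nat_lit 3845669) (nat_lit 266400) (nat_lit 48749277) (nat_lit 16097651) [(nat_lit 266400), (nat_lit 997741), (nat_lit 0), (nat_lit 0)]) (PF.cons PF.nil (PF.cons PF.nil PF.nil)))) (PF.cons (PF.cons (PF.leaf (nat_lit 4192807) (nat_lit 1035343) (nat_lit 47991769) (nat_lit 16011011) [(nat_lit 0), (nat_lit 1035343), (nat_lit 0), (nat_lit 0)]) (PF.cons PF.nil PF.nil)) (PF.cons PF.nil PF.nil))))) (PF.cons (PF.cons (PF.cons (PF.leaf (nat_lit 3691436) (nat_lit 2624979) (nat_lit 48434930) (nat_lit 16048903) [(nat_lit 0), (nat_lit 0), (nat_lit 2624979), (nat_lit 0)]) (PF.cons (PF.leaf (nat_lit 3853148) (nat_lit 254558) (nat_lit 48187276) (nat_lit 16021247)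 [(nat_lit 254558), (nat_lit 0), (nat_lit 2645729), (nat_lit 0)]) (PF.cons (PF.leaf (nat_lit 4031801) (nat_lit 267014) (nat_lit 47917659) (nat_lit 15990262) [(nat_lit 267014), (nat_lit 0), (nat_lit 2666862), (nat_lit 0)]) (PF.cons
 PF.nil PF.nil)))) (PF.cons (PF.cons (PF.leaf (nat_lit 4186920) (nat_lit 1028053) (nat_lit 47454855) (nat_lit 15932740) [(nat_lit 0), (nat_lit 1028053), (nat_lit 2693163), (nat_lit 0)]) (PF.cons (PF.leaf (nat_lit 4373756) (nat_lit 282995) (nat_lit 47171201) (nat_lit 15897547) [(nat_lit 282995), (nat_lit 1045017), (nat_lit 2712050), (nat_lit 0)]) PF.nil)) (PF.cons PF.nil PF.nil))) (PF.cons (PF.cons (PF.cons (PF.leaf (nat_lit 4704002) (nat_lit 2748596) (nat_lit 45899085) (nat_lit 15712535) [(nat_lit 0), (nat_lit 0), (nat_lit 2748596), (nat_lit 0)]) (PF.cons PF.nil PF.nil)) (PF.cons PF.nil PF.nil)) (PF.cons PF.nil (PF.cons PF.nil PF.nil))))) (PF.cons (PF.cons (PF.cons (PF.cons (PF.leaf (nat_lit 4406659) (nat_lit 6241441) (nat_lit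 45300006) (nat_lit 15567365) [(nat_lit 0), (nat_lit 0), (nat_lit 0), (nat_lit 6241441)]) (PF.cons (PF.leaf (nat_lit 4570522) (nat_lit 265460) (nat_lit 45062630) (nat_lit 15533178) [(nat_lit 265460), (nat_lit 0), (nat_lit 0), (nat_lit 6247542)]) (PF.cons (PF.leaf (nat_lit 4750649) (nat_lit 277512) (nat_lit 44805116) (nat_lit 15495366) [(nat_lit 277512), (nat_lit 0), (nat_lit 0), (nat_lit 6253305)]) (PF.cons (PF.leaf (nat_lit 4943113) (nat_lit 288184) (nat_lit
 44531404) (nat_lit 15454360) [(nat_lit 288184), (nat_lit 0), (nat_lit 0), (nat_lit 6258495)]) (PF.cons PF.nil PF.nil))))) (PF.cons (PF.cons (PF.leaf (nat_lit 4899401) (nat_lit 1055471) (nat_lit 44368563) (nat_lit 15427484) [(nat_lit 0), (nat_lit 1055471), (nat_lit 0), (nat_lit 6257293)]) (PF.cons (PF.leaf (nat_lit 5086406) (nat_lit 291852) (nat_lit 44099854) (nat_lit 15385929) [(nat_lit 291852), (nat_lit 1070162), (nat_lit 0), (nat_lit 6261012)]) (PF.cons PF.nil (PF.cons PF.nil PF.nil)))) (PF.cons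 (PF.cons (PF.leaf (nat_lit 5428080) (nat_lit 1095263) (nat_lit 43385485) (nat_lit 15269575) [(nat_lit 0), (nat_lit 1095263), (nat_lit 0), (nat_lit 6263224)]) (PF.cons PF.nil PF.nil)) PF.nil))) (PF.cons (PF.cons (PF.cons (PF.leaf (nat_lit 5393749) (nat_lit 2761189) (nat_lit 42921751) (nat_lit 15180770) [(nat_lit 0), (nat_lit 0), (nat_lit 2761189), (nat_lit 6245101)]) (PF.cons (PF.leaf (nat_lit 5584167) (nat_lit 302527) (nat_lit 42653829) (nat_lit 15135348) [(nat_lit 302527), (nat_lit 0), (nat_lit 2771988), (nat_lit 6245118)]) (PF.cons PF.nil PF.nil))) (PF.cons (PF.cons (PF.leaf (nat_lit 5924502) (nat_lit 1117440) (nat_lit 41951070) (nat_lit 15010679) [(nat_lit 0), (nat_lit 1117440),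
 (nat_lit 2791351), (nat_lit 6238270)]) PF.nil) PF.nil)) (PF.cons PF.nil PF.nil))) (PF.cons (PF.cons (PF.cons (PF.cons (PF.leaf (nat_lit 6034290) (nat_lit 6133844) (nat_lit 40210255) (nat_lit 14630868) [(nat_lit 0), (nat_lit 0), (nat_lit 0), (nat_lit 6133844)]) (PF.cons (PF.leaf (nat_lit 6222195) (nat_lit 305382) (nat_lit 39961254) (nat_lit 14582856) [(nat_lit 305382), (nat_lit 0), (nat_lit 0), (nat_lit 6129660)]) PF.nil)) (PF.cons PF.nil PF.nil)) (PF.cons PF.nil PF.nil)) (PF.cons PF.nil (PF.cons PF.nil (PF.cons PF.nil PF.nil))))))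

def p14_5_2_0 : pfC (piC [(nat_lit 41351667), (nat_lit 28134109), (nat_lit 20794417), (nat_lit 13943267)] (nat_lit 6674796)) p14_5_2 (nat_lit 4) (nat_lit 0) (nat_lit 1) = true := by decide +kernel
def p14_5_2_1 : pfC (piC [(nat_lit 41351667), (nat_lit 28134109), (nat_lit 20794417), (nat_lit 13943267)] (nat_lit 6674796)) p14_5_2 (nat_lit 4) (nat_lit 1) (nat_lit 2) = true := by decide +kernel
def p14_5_2_2 : pfC (piC [(nat_lit 41351667), (nat_lit 28134109), (nat_lit 20794417), (nat_lit 13943267)] (nat_lit 6674796)) p14_5_2 (nat_lit 4) (nat_lit 2) (nat_lit 3) = true := by decide +kernel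
def p14_5_2_3 : pfC (piC [(nat_lit 41351667), (nat_lit 28134109), (nat_lit 20794417), (nat_lit 13943267)] (nat_lit 6674796)) p14_5_2 (nat_lit 4) (nat_lit 3) (nat_lit 4) = true := by decide +kernel
def p14_5_2_4 : pfC (piC [(nat_lit 41351667), (nat_lit 28134109), (nat_lit 20794417), (nat_lit 13943267)] (nat_lit 6674796)) p14_5_2 (nat_lit 4) (nat_lit 4) (nat_lit 5) = true := by decide +kernel
def p14_5_2_5 : pfC (piC [(nat_lit 41351667), (nat_lit 28134109), (nat_lit 20794417), (nat_lit 13943267)] (nat_lit 6674796)) p14_5_2 (nat_lit 4) (nat_lit 5) (nat_lit 6) = true := by decide +kernel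
def p14_5_2_6 : pfC (piC [(nat_lit 41351667), (nat_lit 28134109), (nat_lit 20794417), (nat_lit 13943267)] (nat_lit 6674796)) p14_5_2 (nat_lit 4) (nat_lit 6) (nat_lit 7) = true := by decide +kernel
def p14_5_2_7 : pfC (piC [(nat_lit 41351667), (nat_lit 28134109), (nat_lit 20794417), (nat_lit 13943267)] (nat_lit 6674796)) p14_5_2 (nat_lit 4) (nat_lit 7) (nat_lit 8) = true := by decide +kernel
def p14_5_2_8 : pfC (piC [(nat_lit 41351667), (nat_lit 28134109), (nat_lit 20794417), (nat_lit 13943267)] (nat_lit 6674796)) p14_5_2 (nat_lit 4) (nat_lit 8) (nat_lit 9) = true := by decide +kernel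
def p14_5_2_9 : pfC (piC [(nat_lit 41351667), (nat_lit 28134109), (nat_lit 20794417), (nat_lit 13943267)] (nat_lit 6674796)) p14_5_2 (nat_lit 4) (nat_lit 9) (nat_lit 10) = true := by decide +kernel
def p14_5_2_10 : pfC (piC [(nat_lit 41351667), (nat_lit 28134109), (nat_lit 20794417), (nat_lit 13943267)] (nat_lit 6674796)) p14_5_2 (nat_lit 4) (nat_lit 10) (nat_lit 11) = true := by decide +kernel
def p14_5_2_11 : pfC (piC [(nat_lit 41351667), (nat_lit 28134109), (nat_lit 20794417), (nat_lit 13943267)] (nat_lit 6674796)) p14_5_2 (nat_lit 4) (nat_lit 11) (nat_lit 12) = true := by decide +kernel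
def p14_5_2_12 : pfC (piC [(nat_lit 41351667), (nat_lit 28134109), (nat_lit 20794417), (nat_lit 13943267)] (nat_lit 6674796)) p14_5_2 (nat_lit 4) (nat_lit 12) (nat_lit 13) = true := by decide +kernel
def p14_5_2_13 : pfC (piC [(nat_lit 41351667), (nat_lit 28134109), (nat_lit 20794417), (nat_lit 13943267)] (nat_lit 6674796)) p14_5_2 (nat_lit 4) (nat_lit 13) (nat_lit 14) = true := by decide +kernel
def p14_5_2_14 : pfC (piC [(nat_lit 41351667), (nat_lit 28134109), (nat_lit 20794417), (nat_lit 13943267)] (nat_lit 6674796)) p14_5_2 (nat_lit 4) (nat_lit 14) (nat_lit 15) = true := by decide +kernel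
def p14_5_2_15 : pfC (piC [(nat_lit 41351667), (nat_lit 28134109), (nat_lit 20794417), (nat_lit 13943267)] (nat_lit 6674796)) p14_5_2 (nat_lit 4) (nat_lit 15) (nat_lit 16) = true := by decide +kernel
def p14_5_2_16 : pfC (piC [(nat_lit 41351667), (nat_lit 28134109), (nat_lit 20794417), (nat_lit 13943267)] (nat_lit 6674796)) p14_5_2 (nat_lit 4) (nat_lit 16) (nat_lit 17) = true := by decide +kernel
def p14_5_2_17 : pfC (piC [(nat_lit 41351667), (nat_lit 28134109), (nat_lit 20794417), (nat_lit 13943267)] (nat_lit 6674796)) p14_5_2 (nat_lit 4) (nat_lit 17) (nat_lit 18) = true := by decide +kernel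
def p14_5_2_18 : pfC (piC [(nat_lit 41351667), (nat_lit 28134109), (nat_lit 20794417), (nat_lit 13943267)] (nat_lit 6674796)) p14_5_2 (nat_lit 4) (nat_lit 18) (nat_lit 19) = true := by decide +kernel
def p14_5_2_19 : pfC (piC [(nat_lit 41351667), (nat_lit 28134109), (nat_lit 20794417), (nat_lit 13943267)] (nat_lit 6674796)) p14_5_2 (nat_lit 4) (nat_lit 19) (nat_lit 20) = true := by decide +kernel
def p14_5_2_20 : pfC (piC [(nat_lit 41351667), (nat_lit 28134109), (nat_lit 20794417), (nat_lit 13943267)] (nat_lit 6674796)) p14_5_2 (nat_lit 4) (nat_lit 20) (nat_lit 21) = true := by decide +kernel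
def p14_5_2_21 : pfC (piC [(nat_lit 41351667), (nat_lit 28134109), (nat_lit 20794417), (nat_lit 13943267)] (nat_lit 6674796)) p14_5_2 (nat_lit 4) (nat_lit 21) (nat_lit 22) = true := by decide +kernel
def p14_5_2_22 : pfC (piC [(nat_lit 41351667), (nat_lit 28134109), (nat_lit 20794417), (nat_lit 13943267)] (nat_lit 6674796)) p14_5_2 (nat_lit 4) (nat_lit 22) (nat_lit 23) = true := by decide +kernel
def p14_5_2_23 : pfC (piC [(nat_lit 41351667), (nat_lit 28134109), (nat_lit 20794417), (nat_lit 13943267)] (nat_lit 6674796)) p14_5_2 (nat_lit 4) (nat_lit 23) (nat_lit 24) = true := by decide +kernel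
def p14_5_2_24 : pfC (piC [(nat_lit 41351667), (nat_lit 28134109), (nat_lit 20794417), (nat_lit 13943267)] (nat_lit 6674796)) p14_5_2 (nat_lit 4) (nat_lit 24) (nat_lit 25) = true := by decide +kernel
def p14_5_2_25 : pfC (piC [(nat_lit 41351667), (nat_lit 28134109), (nat_lit 20794417), (nat_lit 13943267)] (nat_lit 6674796)) p14_5_2 (nat_lit 4) (nat_lit 25) (nat_lit 26) = true := by decide +kernel
def p14_5_2_26 : pfC (piC [(nat_lit 41351667), (nat_lit 28134109), (nat_lit 20794417), (nat_lit 13943267)] (nat_lit 6674796)) p14_5_2 (nat_lit 4) (nat_lit 26) (nat_lit 27) = true := by decide +kernel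
def p14_5_2_27 : pfC (piC [(nat_lit 41351667), (nat_lit 28134109), (nat_lit 20794417), (nat_lit 13943267)] (nat_lit 6674796)) p14_5_2 (nat_lit 4) (nat_lit 27) (nat_lit 28) = true := by decide +kernel
def p14_5_2_28 : pfC (piC [(nat_lit 41351667), (nat_lit 28134109), (nat_lit 20794417), (nat_lit 13943267)] (nat_lit 6674796)) p14_5_2 (nat_lit 4) (nat_lit 28) (nat_lit 29) = true := by decide +kernel
theorem p14_5_2_T : PfS (PiF n14_5.reverse (nat_lit 6674796)) p14_5_2 (nat_lit 4) [] 0 :=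
  pftab_of (los := [(nat_lit 41351667), (nat_lit 28134109), (nat_lit 20794417), (nat_lit 13943267)]) (by decide +kernel) (hi := (nat_lit 29)) (PfP.trans (PfP.trans (PfP.trans (PfP.trans (PfP.trans (PfP.trans (PfP.trans (PfP.trans (PfP.trans (PfP.trans (PfP.trans (PfP.trans (PfP.trans (PfP.trans (PfP.trans (PfP.trans (PfP.trans (PfP.trans (PfP.trans (PfP.trans (PfP.trans (PfP.trans (PfP.trans (PfP.trans (PfP.trans (PfP.trans (PfP.trans (PfP.trans (pfC_sound p14_5_2_0) (pfC_sound p14_5_2_1)) (pfC_sound p14_5_2_2)) (pfC_sound p14_5_2_3)) (pfC_sound p14_5_2_4)) (pfC_sound p14_5_2_5)) (pfC_sound p14_5_2_6)) (pfC_sound p14_5_2_7)) (pfC_sound p14_5_2_8)) (pfC_sound p14_5_2_9)) (pfC_sound p14_5_2_10)) (pfC_sound p14_5_2_11)) (pfC_sound p14_5_2_12)) (pfC_sound p14_5_2_13)) (pfC_sound p14_5_2_14)) (pfC_sound p14_5_2_15)) (pfC_sound p14_5_2_16)) (pfC_sound p14_5_2_17)) (pfC_sound p14_5_2_18)) (pfC_sound p14_5_2_19)) (pfC_sound p14_5_2_20)) (pfC_sound p14_5_2_21))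 (pfC_sound p14_5_2_22)) (pfC_sound p14_5_2_23)) (pfC_sound p14_5_2_24)) (pfC_sound p14_5_2_25)) (pfC_sound p14_5_2_26)) (pfC_sound p14_5_2_27)) (pfC_sound p14_5_2_28)) (by decide +kernel)

def z14_5_2 : zOK yB14_5 (nat_lit 2) (nat_lit 600) (nat_lit 750) (nat_lit 6674796) (nat_lit 4700038) = true := by decide +kernel
def g14_5_2 : gOK yB14_5.x P14_5 (nat_lit 1427) (q14_5 :: r14_5) (nat_lit 2) (nat_lit 600) (nat_lit 3) (nat_lit 750) (nat_lit 12712500) (nat_lit 12712500) (nat_lit 12712500) (nat_lit 12712500) [(nat_lit 800), (nat_lit 1600)] = true := by decide +kernel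
def v14_5_2 : ivC P14_5 s14_5 w14_5 n14_5 (nat_lit 4) (nat_lit 4960) (nat_lit 2) (nat_lit 600) f128_1_600 f136_1_600 (nat_lit 3) (nat_lit 750) f128_1_750 f136_1_750 (nat_lit 6674796) (nat_lit 4700038) p14_5_2 = true := by decide +kernel
def p14_5_3 : PF := (PF.cons (PF.cons (PF.cons (PF.cons (PF.leaf (nat_lit 3163813) (nat_lit 22012592) (nat_lit 45096220) (nat_lit 22012592) [(nat_lit 0), (nat_lit 0), (nat_lit 0), (nat_lit 0)]) (PF.cons (PF.leaf (nat_lit 3273662) (nat_lit 185963) (nat_lit 44950111) (nat_lit 21972738) [(nat_lit 185963), (nat_lit 0), (nat_lit 0), (nat_lit 0)]) (PF.cons (PF.leaf (nat_lit 3406385) (nat_lit 202155) (nat_lit 44778850) (nat_lit 21925651) [(nat_lit 202155), (nat_lit 0), (nat_lit 0), (nat_lit 0)]) (PF.cons (PF.leaf (nat_lit 3555382) (nat_lit 216522) (nat_lit 44586851) (nat_lit 21872393) [(nat_lit 216522), (nat_lit 0), (nat_lit 0), (nat_lit 0)]) (PF.cons (PF.leaf (nat_lit 3718377) (nat_lit 229481) (nat_lit 44377204) (nat_lit 21813682)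 [(nat_lit 229481), (nat_lit 0), (nat_lit 0), (nat_lit 0)]) (PF.cons (PF.leaf (nat_lit 3893605) (nat_lit 241300) (nat_lit 44152261) (nat_lit 21750048) [(nat_lit 241300), (nat_lit 0), (nat_lit 0), (nat_lit 0)]) (PF.cons PF.nil (PF.cons PF.nil (PF.cons PF.nil PF.nil))))))))) (PF.cons (PF.cons (PF.leaf (nat_lit 3555543) (nat_lit 866036) (nat_lit 44418723) (nat_lit 21824052) [(nat_lit 0), (nat_lit 866036), (nat_lit 0), (nat_lit 0)]) (PF.cons (PF.leaf (nat_lit 3699499) (nat_lit 224067)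
 (nat_lit 44227192) (nat_lit 21769981) [(nat_lit 224067), (nat_lit 887571), (nat_lit 0), (nat_lit 0)]) (PF.cons (PF.leaf (nat_lit 3860373) (nat_lit 236558) (nat_lit 44016912) (nat_lit 21710072) [(nat_lit 236558), (nat_lit 908710), (nat_lit 0), (nat_lit 0)]) (PF.cons (PF.leaf (nat_lit 4034221) (nat_lit 247911) (nat_lit 43790883) (nat_lit 21645047) [(nat_lit 247911), (nat_lit 929147), (nat_lit 0), (nat_lit 0)]) (PF.cons (PF.leaf (nat_lit 4219193) (nat_lit 258328) (nat_lit 43551336) (nat_lit 21575428) [(nat_lit 258328), (nat_lit 948733), (nat_lit 0), (nat_lit 0)]) (PF.cons PF.nil (PF.cons PF.nil PF.nil))))))) (PF.cons (PF.cons (PF.leaf (nat_lit 4006827) (nat_lit 930492) (nat_lit 43646142) (nat_lit 21601686) [(nat_lit 0), (nat_lit 930492), (nat_lit 0), (nat_lit 0)]) (PF.cons (PF.leaf (nat_lit 4176400) (nat_lit 253675) (nat_lit 43421325) (nat_lit 21535933) [(nat_lit 253675), (nat_lit 948939), (nat_lit 0), (nat_lit 0)]) (PF.cons (PF.leaf (nat_lit 4359437)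 (nat_lit 263781) (nat_lit 43182312) (nat_lit 21465340) [(nat_lit 263781), (nat_lit 966798), (nat_lit 0), (nat_lit 0)]) (PF.cons PF.nil (PF.cons PF.nil PF.nil))))) (PF.cons (PF.cons (PF.leaf (nat_lit 4502447) (nat_lit 983497) (nat_lit
 42806752) (nat_lit 21351567) [(nat_lit 0), (nat_lit 983497), (nat_lit 0), (nat_lit 0)]) (PF.cons (PF.leaf (nat_lit 4691996) (nat_lit 277627) (nat_lit 42557466) (nat_lit 21276036) [(nat_lit 277627), (nat_lit 999227), (nat_lit 0), (nat_lit 0)]) (PF.cons PF.nil (PF.cons PF.nil PF.nil)))) (PF.cons (PF.cons (PF.leaf (nat_lit 5031390) (nat_lit 1027316) (nat_lit 41921139) (nat_lit 21078406) [(nat_lit 0), (nat_lit 1027316), (nat_lit 0), (nat_lit 0)]) (PF.cons PF.nil PF.nil)) (PF.cons PF.nil PF.nil)))))) (PF.cons (PF.cons (PF.cons (PF.leaf (nat_lit 4026697) (nat_lit 2488156) (nat_lit 43168469) (nat_lit 21452187) [(nat_lit 0), (nat_lit 0), (nat_lit 2488156), (nat_lit 0)]) (PF.cons (PF.leaf (nat_lit 4179084) (nat_lit 242189) (nat_lit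 42967401) (nat_lit 21392260) [(nat_lit 242189), (nat_lit 0), (nat_lit 2506960), (nat_lit 0)]) (PF.cons (PF.leaf (nat_lit 4347683) (nat_lit 253934) (nat_lit 42748430) (nat_lit 21326438) [(nat_lit 253934), (nat_lit 0), (nat_lit 2526074), (nat_lit 0)]) (PF.cons (PF.leaf (nat_lit 4528545) (nat_lit 264465) (nat_lit 42514784) (nat_lit 21255568) [(nat_lit 264465), (nat_lit 0), (nat_lit 2545063), (nat_lit 0)]) (PF.cons PF.nil PF.nil))))) (PF.cons (PF.cons (PF.leaf
 (nat_lit 4492745) (nat_lit 975874) (nat_lit 42372709) (nat_lit 21210757) [(nat_lit 0), (nat_lit 975874), (nat_lit 2549471), (nat_lit 0)]) (PF.cons (PF.leaf (nat_lit 4668716) (nat_lit 268842) (nat_lit 42142102) (nat_lit 21139763) [(nat_lit 268842), (nat_lit 991610), (nat_lit 2566493), (nat_lit 0)]) (PF.cons (PF.leaf (nat_lit 4857228) (nat_lit 278208) (nat_lit 41898317) (nat_lit 21064033) [(nat_lit 278208), (nat_lit 1006784), (nat_lit 2583260), (nat_lit 0)]) (PF.cons PF.nil PF.nil)))) (PF.cons (PF.cons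 (PF.leaf (nat_lit 4997452) (nat_lit 1019952) (nat_lit 41523031) (nat_lit 20944674) [(nat_lit 0), (nat_lit 1019952), (nat_lit 2601202), (nat_lit 0)]) (PF.cons (PF.leaf (nat_lit 5191443) (nat_lit 290209) (nat_lit 41271402) (nat_lit 20864678) [(nat_lit 290209), (nat_lit 1033320), (nat_lit 2615880), (nat_lit 0)]) PF.nil)) (PF.cons PF.nil (PF.cons PF.nil PF.nil))))) (PF.cons (PF.cons (PF.cons (PF.leaf (nat_lit 4975177) (nat_lit 2597828) (nat_lit 41108899) (nat_lit 20804255) [(nat_lit 0), (nat_lit 0), (nat_lit 2597828), (nat_lit 0)]) (PF.cons (PF.leaf (nat_lit 5155849) (nat_lit 281200) (nat_lit 40875840) (nat_lit 20729151) [(nat_lit 281200), (nat_lit 0), (nat_lit 2611310), (nat_lit 0)])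
 (PF.cons (PF.leaf (nat_lit 5348399) (nat_lit 289916) (nat_lit 40630539) (nat_lit 20649443) [(nat_lit 289916), (nat_lit 0), (nat_lit 2624497), (nat_lit 0)]) (PF.cons PF.nil PF.nil)))) (PF.cons (PF.cons (PF.leaf (nat_lit 5485226) (nat_lit 1048118) (nat_lit 40259437) (nat_lit 20526182) [(nat_lit 0), (nat_lit 1048118), (nat_lit 2637536), (nat_lit 0)]) (PF.cons PF.nil PF.nil)) (PF.cons PF.nil PF.nil))) (PF.cons (PF.cons (PF.cons (PF.leaf (nat_lit 5964208) (nat_lit 2661217) (nat_lit 39024428) (nat_lit 20100731) [(nat_lit 0), (nat_lit 0), (nat_lit 2661217), (nat_lit 0)]) (PF.cons PF.nil PF.nil)) (PF.cons PF.nil PF.nil)) (PF.cons PF.nil PF.nil))))) (PF.cons (PF.cons (PF.cons (PF.cons (PF.leaf (nat_lit 4688471) (nat_lit 5867244) (nat_lit 40629925) (nat_lit 20611643) [(nat_lit 0), (nat_lit 0), (nat_lit 0), (nat_lit 5867244)]) (PF.cons (PF.leaf (nat_lit 4842929) (nat_lit 251812) (nat_lit 40436015) (nat_lit 20548677) [(nat_lit 251812), (nat_lit 0), (nat_lit 0),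 (nat_lit 5872307)]) (PF.cons (PF.leaf (nat_lit 5013076) (nat_lit 263181) (nat_lit 40225548) (nat_lit 20479852) [(nat_lit 263181), (nat_lit 0), (nat_lit 0), (nat_lit 5877048)]) (PF.cons (PF.leaf (nat_lit 5194688) (nat_lit 273236)
 (nat_lit 40001718) (nat_lit 20406114) [(nat_lit 273236), (nat_lit 0), (nat_lit 0), (nat_lit 5881270)]) (PF.cons (PF.leaf (nat_lit 5386100) (nat_lit 282255) (nat_lit 39766830) (nat_lit 20328133) [(nat_lit 282255), (nat_lit 0), (nat_lit 0), (nat_lit 5884828)]) PF.nil))))) (PF.cons (PF.cons (PF.leaf (nat_lit 5152588) (nat_lit 999481) (nat_lit 39868787) (nat_lit 20360739) [(nat_lit 0), (nat_lit 999481), (nat_lit 0), (nat_lit 5879805)]) (PF.cons (PF.leaf (nat_lit 5328900) (nat_lit 276614) (nat_lit 39648841) (nat_lit 20287405) [(nat_lit 276614), (nat_lit 1013193), (nat_lit 0), (nat_lit 5882758)]) (PF.cons (PF.leaf (nat_lit 5517062) (nat_lit 285473) (nat_lit 39416984) (nat_lit 20209525) [(nat_lit 285473), (nat_lit 1026281), (nat_lit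 0), (nat_lit 5885073)]) (PF.cons PF.nil PF.nil)))) (PF.cons (PF.cons (PF.leaf (nat_lit 5650592) (nat_lit 1036465) (nat_lit 39063737) (nat_lit 20088421) [(nat_lit 0), (nat_lit 1036465), (nat_lit 0), (nat_lit 5883723)]) (PF.cons (PF.leaf (nat_lit 5843225) (nat_lit 296042) (nat_lit 38825877) (nat_lit 20007004) [(nat_lit 296042), (nat_lit 1047867), (nat_lit 0), (nat_lit 5884154)]) PF.nil)) (PF.cons PF.nil (PF.cons PF.nil PF.nil))))) (PF.cons (PF.cons (PF.cons
 (PF.leaf (nat_lit 5615901) (nat_lit 2606454) (nat_lit 38684888) (nat_lit 19950940) [(nat_lit 0), (nat_lit 0), (nat_lit 2606454), (nat_lit 5866529)]) (PF.cons (PF.leaf (nat_lit 5795515) (nat_lit 286489) (nat_lit 38464798) (nat_lit 19874809) [(nat_lit 286489), (nat_lit 0), (nat_lit 2616381), (nat_lit 5866333)]) (PF.cons (PF.leaf (nat_lit 5986433) (nat_lit 294731) (nat_lit 38233656) (nat_lit 19794302) [(nat_lit 294731), (nat_lit 0), (nat_lit 2625963), (nat_lit 5865427)]) (PF.cons PF.nil PF.nil)))) (PF.cons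 (PF.cons (PF.leaf (nat_lit 6116335) (nat_lit 1056798) (nat_lit 37887047) (nat_lit 19671235) [(nat_lit 0), (nat_lit 1056798), (nat_lit 2634084), (nat_lit 5859647)]) (PF.cons PF.nil PF.nil)) (PF.cons PF.nil PF.nil))) (PF.cons (PF.cons (PF.cons (PF.leaf (nat_lit 6572600) (nat_lit 2644629) (nat_lit 36743352) (nat_lit 19252522) [(nat_lit 0), (nat_lit 0), (nat_lit 2644629), (nat_lit 5823680)]) (PF.cons PF.nil PF.nil)) (PF.cons PF.nil PF.nil)) PF.nil))) (PF.cons (PF.cons (PF.cons (PF.cons (PF.leaf (nat_lit 6215611) (nat_lit 5764954) (nat_lit 36458583) (nat_lit 19120321) [(nat_lit 0), (nat_lit 0), (nat_lit 0), (nat_lit 5764954)]) (PF.cons (PF.leaf (nat_lit 6393273) (nat_lit 289129)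
 (nat_lit 36252317) (nat_lit 19044776) [(nat_lit 289129), (nat_lit 0), (nat_lit 0), (nat_lit 5761295)]) (PF.cons PF.nil PF.nil))) (PF.cons (PF.cons (PF.leaf (nat_lit 6704871) (nat_lit 1057219) (nat_lit 35714227) (nat_lit 18844485) [(nat_lit 0), (nat_lit 1057219), (nat_lit 0), (nat_lit 5746440)]) PF.nil) PF.nil)) (PF.cons PF.nil PF.nil)) (PF.cons PF.nil (PF.cons PF.nil (PF.cons PF.nil PF.nil))))))

def p14_5_3_0 : pfC (piC [(nat_lit 41351667), (nat_lit 28134109), (nat_lit 20794417), (nat_lit 13943267)] (nat_lit 4700038)) p14_5_3 (nat_lit 4) (nat_lit 0) (nat_lit 1) = true := by decide +kernel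
def p14_5_3_1 : pfC (piC [(nat_lit 41351667), (nat_lit 28134109), (nat_lit 20794417), (nat_lit 13943267)] (nat_lit 4700038)) p14_5_3 (nat_lit 4) (nat_lit 1) (nat_lit 2) = true := by decide +kernel
def p14_5_3_2 : pfC (piC [(nat_lit 41351667), (nat_lit 28134109), (nat_lit 20794417), (nat_lit 13943267)] (nat_lit 4700038)) p14_5_3 (nat_lit 4) (nat_lit 2) (nat_lit 3) = true := by decide +kernel
def p14_5_3_3 : pfC (piC [(nat_lit 41351667), (nat_lit 28134109), (nat_lit 20794417), (nat_lit 13943267)] (nat_lit 4700038)) p14_5_3 (nat_lit 4) (nat_lit 3) (nat_lit 4) = true := by decide +kernel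
def p14_5_3_4 : pfC (piC [(nat_lit 41351667), (nat_lit 28134109), (nat_lit 20794417), (nat_lit 13943267)] (nat_lit 4700038)) p14_5_3 (nat_lit 4) (nat_lit 4) (nat_lit 5) = true := by decide +kernel
def p14_5_3_5 : pfC (piC [(nat_lit 41351667), (nat_lit 28134109), (nat_lit 20794417), (nat_lit 13943267)] (nat_lit 4700038)) p14_5_3 (nat_lit 4) (nat_lit 5) (nat_lit 6) = true := by decide +kernel
def p14_5_3_6 : pfC (piC [(nat_lit 41351667), (nat_lit 28134109), (nat_lit 20794417), (nat_lit 13943267)] (nat_lit 4700038)) p14_5_3 (nat_lit 4) (nat_lit 6) (nat_lit 7) = true := by decide +kernel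
def p14_5_3_7 : pfC (piC [(nat_lit 41351667), (nat_lit 28134109), (nat_lit 20794417), (nat_lit 13943267)] (nat_lit 4700038)) p14_5_3 (nat_lit 4) (nat_lit 7) (nat_lit 8) = true := by decide +kernel
def p14_5_3_8 : pfC (piC [(nat_lit 41351667), (nat_lit 28134109), (nat_lit 20794417), (nat_lit 13943267)] (nat_lit 4700038)) p14_5_3 (nat_lit 4) (nat_lit 8) (nat_lit 9) = true := by decide +kernel
def p14_5_3_9 : pfC (piC [(nat_lit 41351667), (nat_lit 28134109), (nat_lit 20794417), (nat_lit 13943267)] (nat_lit 4700038)) p14_5_3 (nat_lit 4) (nat_lit 9) (nat_lit 10) = true := by decide +kernel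
def p14_5_3_10 : pfC (piC [(nat_lit 41351667), (nat_lit 28134109), (nat_lit 20794417), (nat_lit 13943267)] (nat_lit 4700038)) p14_5_3 (nat_lit 4) (nat_lit 10) (nat_lit 11) = true := by decide +kernel
def p14_5_3_11 : pfC (piC [(nat_lit 41351667), (nat_lit 28134109), (nat_lit 20794417), (nat_lit 13943267)] (nat_lit 4700038)) p14_5_3 (nat_lit 4) (nat_lit 11) (nat_lit 12) = true := by decide +kernel
def p14_5_3_12 : pfC (piC [(nat_lit 41351667), (nat_lit 28134109), (nat_lit 20794417), (nat_lit 13943267)] (nat_lit 4700038)) p14_5_3 (nat_lit 4) (nat_lit 12) (nat_lit 13) = true := by decide +kernel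
def p14_5_3_13 : pfC (piC [(nat_lit 41351667), (nat_lit 28134109), (nat_lit 20794417), (nat_lit 13943267)] (nat_lit 4700038)) p14_5_3 (nat_lit 4) (nat_lit 13) (nat_lit 14) = true := by decide +kernel
def p14_5_3_14 : pfC (piC [(nat_lit 41351667), (nat_lit 28134109), (nat_lit 20794417), (nat_lit 13943267)] (nat_lit 4700038)) p14_5_3 (nat_lit 4) (nat_lit 14) (nat_lit 15) = true := by decide +kernel
def p14_5_3_15 : pfC (piC [(nat_lit 41351667), (nat_lit 28134109), (nat_lit 20794417), (nat_lit 13943267)] (nat_lit 4700038)) p14_5_3 (nat_lit 4) (nat_lit 15) (nat_lit 16) = true := by decide +kernel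
def p14_5_3_16 : pfC (piC [(nat_lit 41351667), (nat_lit 28134109), (nat_lit 20794417), (nat_lit 13943267)] (nat_lit 4700038)) p14_5_3 (nat_lit 4) (nat_lit 16) (nat_lit 17) = true := by decide +kernel
def p14_5_3_17 : pfC (piC [(nat_lit 41351667), (nat_lit 28134109), (nat_lit 20794417), (nat_lit 13943267)] (nat_lit 4700038)) p14_5_3 (nat_lit 4) (nat_lit 17) (nat_lit 18) = true := by decide +kernel
def p14_5_3_18 : pfC (piC [(nat_lit 41351667), (nat_lit 28134109), (nat_lit 20794417), (nat_lit 13943267)] (nat_lit 4700038)) p14_5_3 (nat_lit 4) (nat_lit 18) (nat_lit 19) = true := by decide +kernel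
def p14_5_3_19 : pfC (piC [(nat_lit 41351667), (nat_lit 28134109), (nat_lit 20794417), (nat_lit 13943267)] (nat_lit 4700038)) p14_5_3 (nat_lit 4) (nat_lit 19) (nat_lit 20) = true := by decide +kernel
def p14_5_3_20 : pfC (piC [(nat_lit 41351667), (nat_lit 28134109), (nat_lit 20794417), (nat_lit 13943267)] (nat_lit 4700038)) p14_5_3 (nat_lit 4) (nat_lit 20) (nat_lit 21) = true := by decide +kernel
def p14_5_3_21 : pfC (piC [(nat_lit 41351667), (nat_lit 28134109), (nat_lit 20794417), (nat_lit 13943267)] (nat_lit 4700038)) p14_5_3 (nat_lit 4) (nat_lit 21) (nat_lit 22) = true := by decide +kernel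
def p14_5_3_22 : pfC (piC [(nat_lit 41351667), (nat_lit 28134109), (nat_lit 20794417), (nat_lit 13943267)] (nat_lit 4700038)) p14_5_3 (nat_lit 4) (nat_lit 22) (nat_lit 23) = true := by decide +kernel
def p14_5_3_23 : pfC (piC [(nat_lit 41351667), (nat_lit 28134109), (nat_lit 20794417), (nat_lit 13943267)] (nat_lit 4700038)) p14_5_3 (nat_lit 4) (nat_lit 23) (nat_lit 24) = true := by decide +kernel
def p14_5_3_24 : pfC (piC [(nat_lit 41351667), (nat_lit 28134109), (nat_lit 20794417), (nat_lit 13943267)] (nat_lit 4700038)) p14_5_3 (nat_lit 4) (nat_lit 24) (nat_lit 25) = true := by decide +kernel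
def p14_5_3_25 : pfC (piC [(nat_lit 41351667), (nat_lit 28134109), (nat_lit 20794417), (nat_lit 13943267)] (nat_lit 4700038)) p14_5_3 (nat_lit 4) (nat_lit 25) (nat_lit 26) = true := by decide +kernel
def p14_5_3_26 : pfC (piC [(nat_lit 41351667), (nat_lit 28134109), (nat_lit 20794417), (nat_lit 13943267)] (nat_lit 4700038)) p14_5_3 (nat_lit 4) (nat_lit 26) (nat_lit 27) = true := by decide +kernel
def p14_5_3_27 : pfC (piC [(nat_lit 41351667), (nat_lit 28134109), (nat_lit 20794417), (nat_lit 13943267)] (nat_lit 4700038)) p14_5_3 (nat_lit 4) (nat_lit 27) (nat_lit 28) = true := by decide +kernel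
def p14_5_3_28 : pfC (piC [(nat_lit 41351667), (nat_lit 28134109), (nat_lit 20794417), (nat_lit 13943267)] (nat_lit 4700038)) p14_5_3 (nat_lit 4) (nat_lit 28) (nat_lit 29) = true := by decide +kernel
def p14_5_3_29 : pfC (piC [(nat_lit 41351667), (nat_lit 28134109), (nat_lit 20794417), (nat_lit 13943267)] (nat_lit 4700038)) p14_5_3 (nat_lit 4) (nat_lit 29) (nat_lit 30) = true := by decide +kernel
def p14_5_3_30 : pfC (piC [(nat_lit 41351667), (nat_lit 28134109), (nat_lit 20794417), (nat_lit 13943267)] (nat_lit 4700038)) p14_5_3 (nat_lit 4) (nat_lit 30) (nat_lit 31) = true := by decide +kernel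
def p14_5_3_31 : pfC (piC [(nat_lit 41351667), (nat_lit 28134109), (nat_lit 20794417), (nat_lit 13943267)] (nat_lit 4700038)) p14_5_3 (nat_lit 4) (nat_lit 31) (nat_lit 32) = true := by decide +kernel
def p14_5_3_32 : pfC (piC [(nat_lit 41351667), (nat_lit 28134109), (nat_lit 20794417), (nat_lit 13943267)] (nat_lit 4700038)) p14_5_3 (nat_lit 4) (nat_lit 32) (nat_lit 33) = true := by decide +kernel
def p14_5_3_33 : pfC (piC [(nat_lit 41351667), (nat_lit 28134109), (nat_lit 20794417), (nat_lit 13943267)] (nat_lit 4700038)) p14_5_3 (nat_lit 4) (nat_lit 33) (nat_lit 34) = true := by decide +kernel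
def p14_5_3_34 : pfC (piC [(nat_lit 41351667), (nat_lit 28134109), (nat_lit 20794417), (nat_lit 13943267)] (nat_lit 4700038)) p14_5_3 (nat_lit 4) (nat_lit 34) (nat_lit 35) = true := by decide +kernel
def p14_5_3_35 : pfC (piC [(nat_lit 41351667), (nat_lit 28134109), (nat_lit 20794417), (nat_lit 13943267)] (nat_lit 4700038)) p14_5_3 (nat_lit 4) (nat_lit 35) (nat_lit 36) = true := by decide +kernel
def p14_5_3_36 : pfC (piC [(nat_lit 41351667), (nat_lit 28134109), (nat_lit 20794417), (nat_lit 13943267)] (nat_lit 4700038)) p14_5_3 (nat_lit 4) (nat_lit 36) (nat_lit 37) = true := by decide +kernel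
def p14_5_3_37 : pfC (piC [(nat_lit 41351667), (nat_lit 28134109), (nat_lit 20794417), (nat_lit 13943267)] (nat_lit 4700038)) p14_5_3 (nat_lit 4) (nat_lit 37) (nat_lit 38) = true := by decide +kernel
def p14_5_3_38 : pfC (piC [(nat_lit 41351667), (nat_lit 28134109), (nat_lit 20794417), (nat_lit 13943267)] (nat_lit 4700038)) p14_5_3 (nat_lit 4) (nat_lit 38) (nat_lit 39) = true := by decide +kernel
def p14_5_3_39 : pfC (piC [(nat_lit 41351667), (nat_lit 28134109), (nat_lit 20794417), (nat_lit 13943267)] (nat_lit 4700038)) p14_5_3 (nat_lit 4) (nat_lit 39) (nat_lit 40) = true := by decide +kernel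
def p14_5_3_40 : pfC (piC [(nat_lit 41351667), (nat_lit 28134109), (nat_lit 20794417), (nat_lit 13943267)] (nat_lit 4700038)) p14_5_3 (nat_lit 4) (nat_lit 40) (nat_lit 41) = true := by decide +kernel
def p14_5_3_41 : pfC (piC [(nat_lit 41351667), (nat_lit 28134109), (nat_lit 20794417), (nat_lit 13943267)] (nat_lit 4700038)) p14_5_3 (nat_lit 4) (nat_lit 41) (nat_lit 42) = true := by decide +kernel
def p14_5_3_42 : pfC (piC [(nat_lit 41351667), (nat_lit 28134109), (nat_lit 20794417), (nat_lit 13943267)] (nat_lit 4700038)) p14_5_3 (nat_lit 4) (nat_lit 42) (nat_lit 43) = true := by decide +kernel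
def p14_5_3_43 : pfC (piC [(nat_lit 41351667), (nat_lit 28134109), (nat_lit 20794417), (nat_lit 13943267)] (nat_lit 4700038)) p14_5_3 (nat_lit 4) (nat_lit 43) (nat_lit 44) = true := by decide +kernel
def p14_5_3_44 : pfC (piC [(nat_lit 41351667), (nat_lit 28134109), (nat_lit 20794417), (nat_lit 13943267)] (nat_lit 4700038)) p14_5_3 (nat_lit 4) (nat_lit 44) (nat_lit 45) = true := by decide +kernel
def p14_5_3_45 : pfC (piC [(nat_lit 41351667), (nat_lit 28134109), (nat_lit 20794417), (nat_lit 13943267)] (nat_lit 4700038)) p14_5_3 (nat_lit 4) (nat_lit 45) (nat_lit 46) = true := by decide +kernel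
def p14_5_3_46 : pfC (piC [(nat_lit 41351667), (nat_lit 28134109), (nat_lit 20794417), (nat_lit 13943267)] (nat_lit 4700038)) p14_5_3 (nat_lit 4) (nat_lit 46) (nat_lit 47) = true := by decide +kernel
def p14_5_3_47 : pfC (piC [(nat_lit 41351667), (nat_lit 28134109), (nat_lit 20794417), (nat_lit 13943267)] (nat_lit 4700038)) p14_5_3 (nat_lit 4) (nat_lit 47) (nat_lit 48) = true := by decide +kernel
def p14_5_3_48 : pfC (piC [(nat_lit 41351667), (nat_lit 28134109), (nat_lit 20794417), (nat_lit 13943267)] (nat_lit 4700038)) p14_5_3 (nat_lit 4) (nat_lit 48) (nat_lit 49) = true := by decide +kernel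
theorem p14_5_3_T : PfS (PiF n14_5.reverse (nat_lit 4700038)) p14_5_3 (nat_lit 4) [] 0 :=
  pftab_of (los := [(nat_lit 41351667), (nat_lit 28134109), (nat_lit 20794417), (nat_lit 13943267)]) (by decide +kernel) (hi := (nat_lit 49)) (PfP.trans (PfP.trans (PfP.trans (PfP.trans (PfP.trans (PfP.trans (PfP.trans (PfP.trans (PfP.trans (PfP.trans (PfP.trans (PfP.trans (PfP.trans (PfP.trans (PfP.trans (PfP.trans (PfP.trans (PfP.trans (PfP.trans (PfP.trans (PfP.trans (PfP.trans (PfP.trans (PfP.trans (PfP.trans (PfP.trans (PfP.trans (PfP.trans (PfP.trans (PfP.trans (PfP.trans (PfP.trans (PfP.trans (PfP.trans (PfP.trans (PfP.trans (PfP.trans (PfP.trans (PfP.trans (PfP.trans (PfP.trans (PfP.trans (PfP.trans (PfP.trans (PfP.trans (PfP.trans (PfP.trans (PfP.trans (pfC_sound p14_5_3_0) (pfC_sound p14_5_3_1)) (pfC_sound p14_5_3_2)) (pfC_sound p14_5_3_3)) (pfC_sound p14_5_3_4)) (pfC_sound p14_5_3_5)) (pfC_sound p14_5_3_6)) (pfC_sound p14_5_3_7)) (pfC_sound p14_5_3_8))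 (pfC_sound p14_5_3_9)) (pfC_sound p14_5_3_10)) (pfC_sound p14_5_3_11)) (pfC_sound p14_5_3_12)) (pfC_sound p14_5_3_13)) (pfC_sound p14_5_3_14)) (pfC_sound p14_5_3_15)) (pfC_sound p14_5_3_16)) (pfC_sound p14_5_3_17)) (pfC_sound p14_5_3_18)) (pfC_sound p14_5_3_19)) (pfC_sound p14_5_3_20)) (pfC_sound p14_5_3_21)) (pfC_sound p14_5_3_22)) (pfC_sound p14_5_3_23)) (pfC_sound p14_5_3_24)) (pfC_sound p14_5_3_25)) (pfC_sound p14_5_3_26)) (pfC_sound p14_5_3_27)) (pfC_sound
 p14_5_3_28)) (pfC_sound p14_5_3_29)) (pfC_sound p14_5_3_30)) (pfC_sound p14_5_3_31)) (pfC_sound p14_5_3_32)) (pfC_sound p14_5_3_33)) (pfC_sound p14_5_3_34)) (pfC_sound p14_5_3_35)) (pfC_sound p14_5_3_36)) (pfC_sound p14_5_3_37)) (pfC_sound p14_5_3_38)) (pfC_sound p14_5_3_39)) (pfC_sound p14_5_3_40)) (pfC_sound p14_5_3_41)) (pfC_sound p14_5_3_42)) (pfC_sound p14_5_3_43)) (pfC_sound p14_5_3_44)) (pfC_sound p14_5_3_45)) (pfC_sound p14_5_3_46)) (pfC_sound p14_5_3_47)) (pfC_sound p14_5_3_48)) (by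 decide +kernel)

def z14_5_3 : zOK yB14_5 (nat_lit 3) (nat_lit 750) (nat_lit 943) (nat_lit 4700038) (nat_lit 2471803) = true := by decide +kernel
def g14_5_3 : gOK yB14_5.x P14_5 (nat_lit 1427) (q14_5 :: r14_5) (nat_lit 3) (nat_lit 750) (nat_lit 4) (nat_lit 943) (nat_lit 12712500) (nat_lit 12712500) (nat_lit 12712500) (nat_lit 12712500) [(nat_lit 800)] = true := by decide +kernel
def v14_5_3 : ivC P14_5 s14_5 w14_5 n14_5 (nat_lit 4) (nat_lit 4810) (nat_lit 3) (nat_lit 750) f128_1_750 f136_1_750 (nat_lit 4) (nat_lit 943) f128_1_943 f136_1_943 (nat_lit 4700038) (nat_lit 2471803) p14_5_3 = true := by decide +kernel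
/-! box `yB14_6` -/

def P14_6 : BQ := ⟨(nat_lit 8), (nat_lit 4), (nat_lit 4), (nat_lit 0), (nat_lit 8), (nat_lit 660), (nat_lit 680), (nat_lit 120), [(nat_lit 200), (nat_lit 300), (nat_lit 450), (nat_lit 800)], (nat_lit 59792000), (nat_lit 16000000), (nat_lit 16000000000)⟩
def q14_6 : PC := ⟨(nat_lit 1000), [(nat_lit 120000), (nat_lit 200000), (nat_lit 300000), (nat_lit 450000), (nat_lit 800000)], (nat_lit 340282367000166625996085689103316680705000000), (nat_lit 15940208000000), (nat_lit 15940208000000), (nat_lit 10000000)⟩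
def r14_6 : List PC := [⟨(nat_lit 1337), [(nat_lit 120558), (nat_lit 201015), (nat_lit 301864), (nat_lit 452142), (nat_lit 799387)], (nat_lit 342421722241557203889856731943624262059773649), (nat_lit 16342216045920), (nat_lit 16355131126080), (nat_lit 10062134)⟩]
def s14_6 : List PB := [⟨(nat_lit 26740), (nat_lit 1928928000000), [(nat_lit 201015), (nat_lit 301864), (nat_lit 452142), (nat_lit 799387)], (nat_lit 342421722241557203889856731943624262059773649), (nat_lit 1142242122888544), (nat_lit 1142255037968704), (nat_lit 53920)⟩]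
def n14_6 : List KN := [⟨(nat_lit 800), (nat_lit 450), (nat_lit 13862945), (nat_lit 8603832)⟩, ⟨(nat_lit 450), (nat_lit 300), (nat_lit 20557252), (nat_lit 13862945)⟩, ⟨(nat_lit 300), (nat_lit 200), (nat_lit 27968816), (nat_lit 20557252)⟩, ⟨(nat_lit 200), (nat_lit 120), (nat_lit 43428061), (nat_lit 27968816)⟩]
def w14_6 : List ℕ := [(nat_lit 53920)]
def par14_6 : parC yB14_6 P14_6 s14_6 r14_6 q14_6 n14_6 w14_6 = true := by decide +kernel

def p14_6_0 : PF := (PF.cons (PF.cons (PF.cons (PF.cons (PF.leaf (nat_lit 412395) (nat_lit 1081267) (nat_lit 66027545) (nat_lit 1081267) [(nat_lit 0), (nat_lit 0), (nat_lit 0), (nat_lit 0)]) (PF.cons (PF.leaf (nat_lit 486935) (nat_lit 114564) (nat_lit 65880255) (nat_lit 1113993) [(nat_lit 114564), (nat_lit 0), (nat_lit 0), (nat_lit 0)]) (PF.cons (PF.leaf (nat_lit 588035) (nat_lit 127339) (nat_lit 65703583) (nat_lit 1150551) [(nat_lit 127339), (nat_lit 0), (nat_lit 0), (nat_lit 0)]) (PF.cons (PF.leaf (nat_lit 703976)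 (nat_lit 139530) (nat_lit 65500678) (nat_lit 1189543) [(nat_lit 139530), (nat_lit 0), (nat_lit 0), (nat_lit 0)]) (PF.cons (PF.leaf (nat_lit 833607) (nat_lit 151288) (nat_lit 65273632) (nat_lit 1230028) [(nat_lit 151288), (nat_lit 0), (nat_lit 0), (nat_lit 0)]) (PF.cons PF.nil (PF.cons PF.nil PF.nil))))))) (PF.cons (PF.cons (PF.leaf (nat_lit 781988) (nat_lit 708071) (nat_lit 65164236) (nat_lit 1236504) [(nat_lit 0), (nat_lit 708071), (nat_lit 0), (nat_lit 0)]) (PF.cons (PF.leaf (nat_lit 897301) (nat_lit 153778) (nat_lit 64947900) (nat_lit 1271891) [(nat_lit 153778), (nat_lit 735242), (nat_lit 0), (nat_lit 0)]) (PF.cons (PF.leaf (nat_lit 1032497) (nat_lit 165279) (nat_lit 64705852) (nat_lit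
 1309020) [(nat_lit 165279), (nat_lit 763380), (nat_lit 0), (nat_lit 0)]) (PF.cons (PF.leaf (nat_lit 1181202) (nat_lit 176367) (nat_lit 64440598) (nat_lit 1347139) [(nat_lit 176367), (nat_lit 791972), (nat_lit 0), (nat_lit 0)]) (PF.cons PF.nil PF.nil))))) (PF.cons (PF.cons (PF.leaf (nat_lit 1243592) (nat_lit 814897) (nat_lit 64096043) (nat_lit 1382974) [(nat_lit 0), (nat_lit 814897), (nat_lit 0), (nat_lit 0)]) (PF.cons (PF.leaf (nat_lit 1393347) (nat_lit 188957) (nat_lit 63819515) (nat_lit 1417961) [(nat_lit 188957), (nat_lit 841188), (nat_lit 0), (nat_lit 0)]) (PF.cons (PF.leaf (nat_lit 1559163) (nat_lit 199435) (nat_lit 63520830) (nat_lit 1453582) [(nat_lit 199435), (nat_lit 867764), (nat_lit 0), (nat_lit 0)]) (PF.cons PF.nil PF.nil)))) (PF.cons (PF.cons (PF.leaf (nat_lit 1783718) (nat_lit 911904) (nat_lit 62856027) (nat_lit 1517072) [(nat_lit 0), (nat_lit 911904), (nat_lit 0), (nat_lit 0)]) (PF.cons PF.nil PF.nil)) (PF.cons PF.nil (PF.cons PF.nil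 PF.nil)))))) (PF.cons (PF.cons (PF.cons (PF.leaf (nat_lit 1329319) (nat_lit 1419458) (nat_lit 63334925) (nat_lit 1419458) [(nat_lit 0), (nat_lit 0), (nat_lit 2354429), (nat_lit 0)]) (PF.cons (PF.leaf (nat_lit 1463297) (nat_lit 183472)
 (nat_lit 63083678) (nat_lit 1450020) [(nat_lit 183472), (nat_lit 0), (nat_lit 2391641), (nat_lit 0)]) (PF.cons (PF.leaf (nat_lit 1615623) (nat_lit 194973) (nat_lit 62806136) (nat_lit 1481922) [(nat_lit 194973), (nat_lit 0), (nat_lit 2430806), (nat_lit 0)]) (PF.cons (PF.leaf (nat_lit 1781816) (nat_lit 205829) (nat_lit 62505683) (nat_lit 1514525) [(nat_lit 205829), (nat_lit 0), (nat_lit 2471113), (nat_lit 0)]) (PF.cons PF.nil PF.nil))))) (PF.cons (PF.cons (PF.leaf (nat_lit 1837874) (nat_lit 922369) (nat_lit 62133700) (nat_lit 1542745) [(nat_lit 0), (nat_lit 922369), (nat_lit 2509998), (nat_lit 0)]) (PF.cons (PF.leaf (nat_lit 2003466) (nat_lit 216481) (nat_lit 61827146) (nat_lit 1572636) [(nat_lit 216481), (nat_lit 945545),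 (nat_lit 2547002), (nat_lit 0)]) (PF.cons (PF.leaf (nat_lit 2184135) (nat_lit 226586) (nat_lit 61499190) (nat_lit 1602939) [(nat_lit 226586), (nat_lit 968832), (nat_lit 2584677), (nat_lit 0)]) (PF.cons PF.nil PF.nil)))) (PF.cons (PF.cons (PF.leaf (nat_lit 2414437) (nat_lit 1005578) (nat_lit 60790256) (nat_lit 1654876) [(nat_lit 0), (nat_lit 1005578), (nat_lit 2652523), (nat_lit 0)]) (PF.cons PF.nil PF.nil)) (PF.cons PF.nil (PF.cons PF.nil PF.nil))))) (PF.cons
 (PF.cons (PF.cons (PF.leaf (nat_lit 2448664) (nat_lit 1671253) (nat_lit 60071542) (nat_lit 1671253) [(nat_lit 0), (nat_lit 0), (nat_lit 2683008), (nat_lit 0)]) (PF.cons (PF.leaf (nat_lit 2626415) (nat_lit 239769) (nat_lit 59744717) (nat_lit 1696745) [(nat_lit 239769), (nat_lit 0), (nat_lit 2713790), (nat_lit 0)]) (PF.cons PF.nil (PF.cons PF.nil PF.nil)))) (PF.cons (PF.cons (PF.leaf (nat_lit 3050555) (nat_lit 1081661) (nat_lit 58664288) (nat_lit 1764743) [(nat_lit 0), (nat_lit 1081661), (nat_lit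 2799059), (nat_lit 0)]) (PF.cons PF.nil PF.nil)) (PF.cons PF.nil PF.nil))) (PF.cons (PF.cons (PF.cons (PF.leaf (nat_lit 3683769) (nat_lit 1851330) (nat_lit 56522729) (nat_lit 1851330) [(nat_lit 0), (nat_lit 0), (nat_lit 2911584), (nat_lit 0)]) (PF.cons PF.nil PF.nil)) (PF.cons PF.nil PF.nil)) (PF.cons PF.nil (PF.cons PF.nil PF.nil)))))) (PF.cons (PF.cons (PF.cons (PF.cons (PF.leaf (nat_lit 2261084) (nat_lit 1604869) (nat_lit 58871642) (nat_lit 1604869) [(nat_lit 0), (nat_lit 0), (nat_lit 0), (nat_lit 6632301)]) (PF.cons (PF.leaf (nat_lit 2406996) (nat_lit 211015) (nat_lit 58607207) (nat_lit 1629976) [(nat_lit 211015), (nat_lit 0), (nat_lit 0), (nat_lit 6660612)]) (PF.cons (PF.leaf (nat_lit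
 2570584) (nat_lit 222648) (nat_lit 58317381) (nat_lit 1655870) [(nat_lit 222648), (nat_lit 0), (nat_lit 0), (nat_lit 6690264)]) (PF.cons (PF.leaf (nat_lit 2747203) (nat_lit 233363) (nat_lit 58006122) (nat_lit 1682030) [(nat_lit 233363), (nat_lit 0), (nat_lit 0), (nat_lit 6720568)]) (PF.cons (PF.leaf (nat_lit 2935519) (nat_lit 243345) (nat_lit 57676313) (nat_lit 1708109) [(nat_lit 243345), (nat_lit 0), (nat_lit 0), (nat_lit 6751007)]) (PF.cons (PF.leaf (nat_lit 3134380) (nat_lit 252714) (nat_lit 57330201) (nat_lit 1733866) [(nat_lit 252714), (nat_lit 0), (nat_lit 0), (nat_lit 6781173)]) (PF.cons PF.nil PF.nil))))))) (PF.cons (PF.cons (PF.leaf (nat_lit 2792227) (nat_lit 1026538) (nat_lit 57630709) (nat_lit 1701711) [(nat_lit 0), (nat_lit 1026538), (nat_lit 0), (nat_lit 6749853)]) (PF.cons (PF.leaf (nat_lit 2966771) (nat_lit 242009) (nat_lit 57318205) (nat_lit 1725382) [(nat_lit 242009), (nat_lit 1046253), (nat_lit 0), (nat_lit 6776961)]) (PF.cons (PF.leaf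 (nat_lit 3155265) (nat_lit 251721) (nat_lit 56986217) (nat_lit 1749141) [(nat_lit 251721), (nat_lit 1065802), (nat_lit 0), (nat_lit 6804206)]) (PF.cons (PF.leaf (nat_lit 3354603) (nat_lit 260790) (nat_lit 56637572) (nat_lit
 1772705) [(nat_lit 260790), (nat_lit 1085005), (nat_lit 0), (nat_lit 6831159)]) (PF.cons PF.nil PF.nil))))) (PF.cons (PF.cons (PF.leaf (nat_lit 3379321) (nat_lit 1093955) (nat_lit 56281972) (nat_lit 1787058) [(nat_lit 0), (nat_lit 1093955), (nat_lit 0), (nat_lit 6851871)]) (PF.cons (PF.leaf (nat_lit 3576650) (nat_lit 268077) (nat_lit 55933531) (nat_lit 1808519) [(nat_lit 268077), (nat_lit 1111551), (nat_lit 0), (nat_lit 6875581)]) (PF.cons (PF.leaf (nat_lit 3785369) (nat_lit 276354) (nat_lit 55570125) (nat_lit 1829699) [(nat_lit 276354), (nat_lit 1128794), (nat_lit 0), (nat_lit 6898688)]) (PF.cons PF.nil PF.nil)))) (PF.cons (PF.cons (PF.leaf (nat_lit 4009411) (nat_lit 1151937) (nat_lit 54857701) (nat_lit 1860808) [(nat_lit 0), (nat_lit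 1151937), (nat_lit 0), (nat_lit 6934489)]) (PF.cons PF.nil PF.nil)) (PF.cons PF.nil PF.nil))))) (PF.cons (PF.cons (PF.cons (PF.leaf (nat_lit 3385435) (nat_lit 1791234) (nat_lit 55602192) (nat_lit 1791234) [(nat_lit 0), (nat_lit 0), (nat_lit 2846612), (nat_lit 6868773)]) (PF.cons (PF.leaf (nat_lit 3568131) (nat_lit 259988) (nat_lit 55280312) (nat_lit 1811160) [(nat_lit 259988), (nat_lit 0), (nat_lit 2868767), (nat_lit 6888583)]) (PF.cons (PF.leaf
 (nat_lit 3764077) (nat_lit 269201) (nat_lit 54940173) (nat_lit 1831060) [(nat_lit 269201), (nat_lit 0), (nat_lit 2891007), (nat_lit 6908169)]) (PF.cons (PF.leaf (nat_lit 3970212) (nat_lit 277703) (nat_lit 54584763) (nat_lit 1850700) [(nat_lit 277703), (nat_lit 0), (nat_lit 2913039), (nat_lit 6927199)]) (PF.cons PF.nil PF.nil))))) (PF.cons (PF.cons (PF.leaf (nat_lit 3986445) (nat_lit 1147902) (nat_lit 54232643) (nat_lit 1861339) [(nat_lit 0), (nat_lit 1147902), (nat_lit 2927066), (nat_lit 6939860)]) (PF.cons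 (PF.leaf (nat_lit 4189673) (nat_lit 283626) (nat_lit 53880097) (nat_lit 1879157) [(nat_lit 283626), (nat_lit 1163018), (nat_lit 2946899), (nat_lit 6956012)]) (PF.cons (PF.leaf (nat_lit 4403492) (nat_lit 291339) (nat_lit 53513945) (nat_lit 1896652) [(nat_lit 291339), (nat_lit 1177752), (nat_lit 2966392), (nat_lit 6971391)]) (PF.cons PF.nil PF.nil)))) (PF.cons (PF.cons (PF.leaf (nat_lit 4623244) (nat_lit 1196372) (nat_lit 52807323) (nat_lit 1921072) [(nat_lit 0), (nat_lit 1196372), (nat_lit 2995061), (nat_lit 6992608)]) (PF.cons PF.nil PF.nil)) PF.nil))) (PF.cons (PF.cons (PF.cons (PF.leaf (nat_lit 4584088) (nat_lit 1918110) (nat_lit 52213180) (nat_lit 1918110) [(nat_lit 0),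
 (nat_lit 0), (nat_lit 2995013), (nat_lit 6987496)]) (PF.cons (PF.leaf (nat_lit 4791193) (nat_lit 296319) (nat_lit 51861504) (nat_lit 1932763) [(nat_lit 296319), (nat_lit 0), (nat_lit 3010590), (nat_lit 6997045)]) (PF.cons PF.nil PF.nil))) (PF.cons (PF.cons (PF.leaf (nat_lit 5222320) (nat_lit 1230546) (nat_lit 50804425) (nat_lit 1965828) [(nat_lit 0), (nat_lit 1230546), (nat_lit 3046683), (nat_lit 7014645)]) PF.nil) PF.nil)) (PF.cons PF.nil (PF.cons PF.nil PF.nil))))) (PF.cons (PF.cons (PF.cons (PF.cons (PF.leaf (nat_lit 4245778) (nat_lit 1857673) (nat_lit 51439269) (nat_lit 1857673) [(nat_lit 0), (nat_lit 0), (nat_lit 0), (nat_lit 6905935)]) (PF.cons (PF.leaf (nat_lit 4429530) (nat_lit 272549) (nat_lit 51133465) (nat_lit 1873316) [(nat_lit 272549), (nat_lit 0), (nat_lit 0), (nat_lit 6914740)]) (PF.cons (PF.leaf (nat_lit 4625630) (nat_lit 281285) (nat_lit 50811437) (nat_lit 1888774) [(nat_lit 281285), (nat_lit 0), (nat_lit 0), (nat_lit 6923015)]) (PF.cons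 (PF.leaf (nat_lit 4831125) (nat_lit 289230) (nat_lit 50476110) (nat_lit 1903872) [(nat_lit 289230), (nat_lit 0), (nat_lit 0), (nat_lit 6930569)]) (PF.cons (PF.leaf (nat_lit 5044769) (nat_lit 296524) (nat_lit 50129697) (nat_lit
 1918492) [(nat_lit 296524), (nat_lit 0), (nat_lit 0), (nat_lit 6937262)]) PF.nil))))) (PF.cons (PF.cons (PF.leaf (nat_lit 4836486) (nat_lit 1184148) (nat_lit 50149291) (nat_lit 1910214) [(nat_lit 0), (nat_lit 1184148), (nat_lit 0), (nat_lit 6932579)]) (PF.cons (PF.leaf (nat_lit 5038235) (nat_lit 293734) (nat_lit 49818661) (nat_lit 1923765) [(nat_lit 293734), (nat_lit 1196559), (nat_lit 0), (nat_lit 6938045)]) (PF.cons (PF.leaf (nat_lit 5249725) (nat_lit 300851) (nat_lit 49476308) (nat_lit 1936932) [(nat_lit 300851), (nat_lit 1208528), (nat_lit 0), (nat_lit 6942670)]) (PF.cons PF.nil PF.nil)))) (PF.cons (PF.cons (PF.leaf (nat_lit 5455790) (nat_lit 1222026) (nat_lit 48822187) (nat_lit 1953487) [(nat_lit 0), (nat_lit 1222026), (nat_lit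 0), (nat_lit 6944542)]) (PF.cons (PF.leaf (nat_lit 5671151) (nat_lit 311007) (nat_lit 48475370) (nat_lit 1964875) [(nat_lit 311007), (nat_lit 1232489), (nat_lit 0), (nat_lit 6946289)]) PF.nil)) (PF.cons PF.nil (PF.cons PF.nil PF.nil))))) (PF.cons (PF.cons (PF.cons (PF.leaf (nat_lit 5397550) (nat_lit 1945835) (nat_lit 48289042) (nat_lit 1945835) [(nat_lit 0), (nat_lit 0), (nat_lit 3020231), (nat_lit 6926851)]) (PF.cons (PF.leaf (nat_lit 5601311)
 (nat_lit 303079) (nat_lit 47963346) (nat_lit 1956810) [(nat_lit 303079), (nat_lit 0), (nat_lit 3030523), (nat_lit 6927526)]) (PF.cons (PF.leaf (nat_lit 5814251) (nat_lit 309696) (nat_lit 47627009) (nat_lit 1967397) [(nat_lit 309696), (nat_lit 0), (nat_lit 3040391), (nat_lit 6927310)]) (PF.cons PF.nil PF.nil)))) (PF.cons (PF.cons (PF.leaf (nat_lit 6014135) (nat_lit 1244043) (nat_lit 46992069) (nat_lit 1979580) [(nat_lit 0), (nat_lit 1244043), (nat_lit 3051915), (nat_lit 6920602)]) (PF.cons PF.nil PF.nil)) (PF.cons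 PF.nil PF.nil))) (PF.cons (PF.cons (PF.cons (PF.leaf (nat_lit 6554949) (nat_lit 1996007) (nat_lit 45232690) (nat_lit 1996007) [(nat_lit 0), (nat_lit 0), (nat_lit 3063415), (nat_lit 6876642)]) (PF.cons PF.nil PF.nil)) (PF.cons PF.nil PF.nil)) PF.nil))) (PF.cons (PF.cons (PF.cons (PF.cons (PF.leaf (nat_lit 6134227) (nat_lit 1947444) (nat_lit 44758902) (nat_lit 1947444) [(nat_lit 0), (nat_lit 0), (nat_lit 0), (nat_lit 6800822)]) (PF.cons (PF.leaf (nat_lit 6333469) (nat_lit 305663) (nat_lit 44460729) (nat_lit 1955661) [(nat_lit 305663), (nat_lit 0), (nat_lit 0), (nat_lit 6795586)]) (PF.cons PF.nil PF.nil))) (PF.cons (PF.cons (PF.leaf (nat_lit 6727873) (nat_lit 1242891)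
 (nat_lit 43576981) (nat_lit 1970908) [(nat_lit 0), (nat_lit 1242891), (nat_lit 0), (nat_lit 6772677)]) PF.nil) PF.nil)) (PF.cons PF.nil PF.nil)) (PF.cons PF.nil (PF.cons PF.nil (PF.cons PF.nil (PF.cons PF.nil PF.nil))))))))

def p14_6_0_0 : pfC (piC [(nat_lit 43428061), (nat_lit 27968816), (nat_lit 20557252), (nat_lit 13862945)] (nat_lit 30791140)) p14_6_0 (nat_lit 4) (nat_lit 0) (nat_lit 1) = true := by decide +kernel
def p14_6_0_1 : pfC (piC [(nat_lit 43428061), (nat_lit 27968816), (nat_lit 20557252), (nat_lit 13862945)] (nat_lit 30791140)) p14_6_0 (nat_lit 4) (nat_lit 1) (nat_lit 2) = true := by decide +kernel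
def p14_6_0_2 : pfC (piC [(nat_lit 43428061), (nat_lit 27968816), (nat_lit 20557252), (nat_lit 13862945)] (nat_lit 30791140)) p14_6_0 (nat_lit 4) (nat_lit 2) (nat_lit 3) = true := by decide +kernel
def p14_6_0_3 : pfC (piC [(nat_lit 43428061), (nat_lit 27968816), (nat_lit 20557252), (nat_lit 13862945)] (nat_lit 30791140)) p14_6_0 (nat_lit 4) (nat_lit 3) (nat_lit 4) = true := by decide +kernel
def p14_6_0_4 : pfC (piC [(nat_lit 43428061), (nat_lit 27968816), (nat_lit 20557252), (nat_lit 13862945)] (nat_lit 30791140)) p14_6_0 (nat_lit 4) (nat_lit 4) (nat_lit 5) = true := by decide +kernel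
def p14_6_0_5 : pfC (piC [(nat_lit 43428061), (nat_lit 27968816), (nat_lit 20557252), (nat_lit 13862945)] (nat_lit 30791140)) p14_6_0 (nat_lit 4) (nat_lit 5) (nat_lit 6) = true := by decide +kernel
def p14_6_0_6 : pfC (piC [(nat_lit 43428061), (nat_lit 27968816), (nat_lit 20557252), (nat_lit 13862945)] (nat_lit 30791140)) p14_6_0 (nat_lit 4) (nat_lit 6) (nat_lit 7) = true := by decide +kernel
def p14_6_0_7 : pfC (piC [(nat_lit 43428061), (nat_lit 27968816), (nat_lit 20557252), (nat_lit 13862945)] (nat_lit 30791140)) p14_6_0 (nat_lit 4) (nat_lit 7) (nat_lit 8) = true := by decide +kernel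
def p14_6_0_8 : pfC (piC [(nat_lit 43428061), (nat_lit 27968816), (nat_lit 20557252), (nat_lit 13862945)] (nat_lit 30791140)) p14_6_0 (nat_lit 4) (nat_lit 8) (nat_lit 9) = true := by decide +kernel
def p14_6_0_9 : pfC (piC [(nat_lit 43428061), (nat_lit 27968816), (nat_lit 20557252), (nat_lit 13862945)] (nat_lit 30791140)) p14_6_0 (nat_lit 4) (nat_lit 9) (nat_lit 10) = true := by decide +kernel
def p14_6_0_10 : pfC (piC [(nat_lit 43428061), (nat_lit 27968816), (nat_lit 20557252), (nat_lit 13862945)] (nat_lit 30791140)) p14_6_0 (nat_lit 4) (nat_lit 10) (nat_lit 11) = true := by decide +kernel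
def p14_6_0_11 : pfC (piC [(nat_lit 43428061), (nat_lit 27968816), (nat_lit 20557252), (nat_lit 13862945)] (nat_lit 30791140)) p14_6_0 (nat_lit 4) (nat_lit 11) (nat_lit 12) = true := by decide +kernel
def p14_6_0_12 : pfC (piC [(nat_lit 43428061), (nat_lit 27968816), (nat_lit 20557252), (nat_lit 13862945)] (nat_lit 30791140)) p14_6_0 (nat_lit 4) (nat_lit 12) (nat_lit 13) = true := by decide +kernel
def p14_6_0_13 : pfC (piC [(nat_lit 43428061), (nat_lit 27968816), (nat_lit 20557252), (nat_lit 13862945)] (nat_lit 30791140)) p14_6_0 (nat_lit 4) (nat_lit 13) (nat_lit 14) = true := by decide +kernel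
def p14_6_0_14 : pfC (piC [(nat_lit 43428061), (nat_lit 27968816), (nat_lit 20557252), (nat_lit 13862945)] (nat_lit 30791140)) p14_6_0 (nat_lit 4) (nat_lit 14) (nat_lit 15) = true := by decide +kernel
def p14_6_0_15 : pfC (piC [(nat_lit 43428061), (nat_lit 27968816), (nat_lit 20557252), (nat_lit 13862945)] (nat_lit 30791140)) p14_6_0 (nat_lit 4) (nat_lit 15) (nat_lit 16) = true := by decide +kernel
def p14_6_0_16 : pfC (piC [(nat_lit 43428061), (nat_lit 27968816), (nat_lit 20557252), (nat_lit 13862945)] (nat_lit 30791140)) p14_6_0 (nat_lit 4) (nat_lit 16) (nat_lit 17) = true := by decide +kernel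
def p14_6_0_17 : pfC (piC [(nat_lit 43428061), (nat_lit 27968816), (nat_lit 20557252), (nat_lit 13862945)] (nat_lit 30791140)) p14_6_0 (nat_lit 4) (nat_lit 17) (nat_lit 18) = true := by decide +kernel
def p14_6_0_18 : pfC (piC [(nat_lit 43428061), (nat_lit 27968816), (nat_lit 20557252), (nat_lit 13862945)] (nat_lit 30791140)) p14_6_0 (nat_lit 4) (nat_lit 18) (nat_lit 19) = true := by decide +kernel
def p14_6_0_19 : pfC (piC [(nat_lit 43428061), (nat_lit 27968816), (nat_lit 20557252), (nat_lit 13862945)] (nat_lit 30791140)) p14_6_0 (nat_lit 4) (nat_lit 19) (nat_lit 20) = true := by decide +kernel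
def p14_6_0_20 : pfC (piC [(nat_lit 43428061), (nat_lit 27968816), (nat_lit 20557252), (nat_lit 13862945)] (nat_lit 30791140)) p14_6_0 (nat_lit 4) (nat_lit 20) (nat_lit 21) = true := by decide +kernel
def p14_6_0_21 : pfC (piC [(nat_lit 43428061), (nat_lit 27968816), (nat_lit 20557252), (nat_lit 13862945)] (nat_lit 30791140)) p14_6_0 (nat_lit 4) (nat_lit 21) (nat_lit 22) = true := by decide +kernel
def p14_6_0_22 : pfC (piC [(nat_lit 43428061), (nat_lit 27968816), (nat_lit 20557252), (nat_lit 13862945)] (nat_lit 30791140)) p14_6_0 (nat_lit 4) (nat_lit 22) (nat_lit 23) = true := by decide +kernel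
def p14_6_0_23 : pfC (piC [(nat_lit 43428061), (nat_lit 27968816), (nat_lit 20557252), (nat_lit 13862945)] (nat_lit 30791140)) p14_6_0 (nat_lit 4) (nat_lit 23) (nat_lit 24) = true := by decide +kernel
def p14_6_0_24 : pfC (piC [(nat_lit 43428061), (nat_lit 27968816), (nat_lit 20557252), (nat_lit 13862945)] (nat_lit 30791140)) p14_6_0 (nat_lit 4) (nat_lit 24) (nat_lit 25) = true := by decide +kernel
def p14_6_0_25 : pfC (piC [(nat_lit 43428061), (nat_lit 27968816), (nat_lit 20557252), (nat_lit 13862945)] (nat_lit 30791140)) p14_6_0 (nat_lit 4) (nat_lit 25) (nat_lit 26) = true := by decide +kernel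
def p14_6_0_26 : pfC (piC [(nat_lit 43428061), (nat_lit 27968816), (nat_lit 20557252), (nat_lit 13862945)] (nat_lit 30791140)) p14_6_0 (nat_lit 4) (nat_lit 26) (nat_lit 27) = true := by decide +kernel
def p14_6_0_27 : pfC (piC [(nat_lit 43428061), (nat_lit 27968816), (nat_lit 20557252), (nat_lit 13862945)] (nat_lit 30791140)) p14_6_0 (nat_lit 4) (nat_lit 27) (nat_lit 28) = true := by decide +kernel
def p14_6_0_28 : pfC (piC [(nat_lit 43428061), (nat_lit 27968816), (nat_lit 20557252), (nat_lit 13862945)] (nat_lit 30791140)) p14_6_0 (nat_lit 4) (nat_lit 28) (nat_lit 29) = true := by decide +kernel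
def p14_6_0_29 : pfC (piC [(nat_lit 43428061), (nat_lit 27968816), (nat_lit 20557252), (nat_lit 13862945)] (nat_lit 30791140)) p14_6_0 (nat_lit 4) (nat_lit 29) (nat_lit 30) = true := by decide +kernel
def p14_6_0_30 : pfC (piC [(nat_lit 43428061), (nat_lit 27968816), (nat_lit 20557252), (nat_lit 13862945)] (nat_lit 30791140)) p14_6_0 (nat_lit 4) (nat_lit 30) (nat_lit 31) = true := by decide +kernel
def p14_6_0_31 : pfC (piC [(nat_lit 43428061), (nat_lit 27968816), (nat_lit 20557252), (nat_lit 13862945)] (nat_lit 30791140)) p14_6_0 (nat_lit 4) (nat_lit 31) (nat_lit 32) = true := by decide +kernel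
def p14_6_0_32 : pfC (piC [(nat_lit 43428061), (nat_lit 27968816), (nat_lit 20557252), (nat_lit 13862945)] (nat_lit 30791140)) p14_6_0 (nat_lit 4) (nat_lit 32) (nat_lit 33) = true := by decide +kernel
def p14_6_0_33 : pfC (piC [(nat_lit 43428061), (nat_lit 27968816), (nat_lit 20557252), (nat_lit 13862945)] (nat_lit 30791140)) p14_6_0 (nat_lit 4) (nat_lit 33) (nat_lit 34) = true := by decide +kernel
def p14_6_0_34 : pfC (piC [(nat_lit 43428061), (nat_lit 27968816), (nat_lit 20557252), (nat_lit 13862945)] (nat_lit 30791140)) p14_6_0 (nat_lit 4) (nat_lit 34) (nat_lit 35) = true := by decide +kernel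
def p14_6_0_35 : pfC (piC [(nat_lit 43428061), (nat_lit 27968816), (nat_lit 20557252), (nat_lit 13862945)] (nat_lit 30791140)) p14_6_0 (nat_lit 4) (nat_lit 35) (nat_lit 36) = true := by decide +kernel
def p14_6_0_36 : pfC (piC [(nat_lit 43428061), (nat_lit 27968816), (nat_lit 20557252), (nat_lit 13862945)] (nat_lit 30791140)) p14_6_0 (nat_lit 4) (nat_lit 36) (nat_lit 37) = true := by decide +kernel
def p14_6_0_37 : pfC (piC [(nat_lit 43428061), (nat_lit 27968816), (nat_lit 20557252), (nat_lit 13862945)] (nat_lit 30791140)) p14_6_0 (nat_lit 4) (nat_lit 37) (nat_lit 38) = true := by decide +kernel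
def p14_6_0_38 : pfC (piC [(nat_lit 43428061), (nat_lit 27968816), (nat_lit 20557252), (nat_lit 13862945)] (nat_lit 30791140)) p14_6_0 (nat_lit 4) (nat_lit 38) (nat_lit 39) = true := by decide +kernel
def p14_6_0_39 : pfC (piC [(nat_lit 43428061), (nat_lit 27968816), (nat_lit 20557252), (nat_lit 13862945)] (nat_lit 30791140)) p14_6_0 (nat_lit 4) (nat_lit 39) (nat_lit 40) = true := by decide +kernel
def p14_6_0_40 : pfC (piC [(nat_lit 43428061), (nat_lit 27968816), (nat_lit 20557252), (nat_lit 13862945)] (nat_lit 30791140)) p14_6_0 (nat_lit 4) (nat_lit 40) (nat_lit 41) = true := by decide +kernel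
def p14_6_0_41 : pfC (piC [(nat_lit 43428061), (nat_lit 27968816), (nat_lit 20557252), (nat_lit 13862945)] (nat_lit 30791140)) p14_6_0 (nat_lit 4) (nat_lit 41) (nat_lit 42) = true := by decide +kernel
def p14_6_0_42 : pfC (piC [(nat_lit 43428061), (nat_lit 27968816), (nat_lit 20557252), (nat_lit 13862945)] (nat_lit 30791140)) p14_6_0 (nat_lit 4) (nat_lit 42) (nat_lit 43) = true := by decide +kernel
def p14_6_0_43 : pfC (piC [(nat_lit 43428061), (nat_lit 27968816), (nat_lit 20557252), (nat_lit 13862945)] (nat_lit 30791140)) p14_6_0 (nat_lit 4) (nat_lit 43) (nat_lit 44) = true := by decide +kernel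
def p14_6_0_44 : pfC (piC [(nat_lit 43428061), (nat_lit 27968816), (nat_lit 20557252), (nat_lit 13862945)] (nat_lit 30791140)) p14_6_0 (nat_lit 4) (nat_lit 44) (nat_lit 45) = true := by decide +kernel
def p14_6_0_45 : pfC (piC [(nat_lit 43428061), (nat_lit 27968816), (nat_lit 20557252), (nat_lit 13862945)] (nat_lit 30791140)) p14_6_0 (nat_lit 4) (nat_lit 45) (nat_lit 46) = true := by decide +kernel
def p14_6_0_46 : pfC (piC [(nat_lit 43428061), (nat_lit 27968816), (nat_lit 20557252), (nat_lit 13862945)] (nat_lit 30791140)) p14_6_0 (nat_lit 4) (nat_lit 46) (nat_lit 47) = true := by decide +kernel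
def p14_6_0_47 : pfC (piC [(nat_lit 43428061), (nat_lit 27968816), (nat_lit 20557252), (nat_lit 13862945)] (nat_lit 30791140)) p14_6_0 (nat_lit 4) (nat_lit 47) (nat_lit 48) = true := by decide +kernel
def p14_6_0_48 : pfC (piC [(nat_lit 43428061), (nat_lit 27968816), (nat_lit 20557252), (nat_lit 13862945)] (nat_lit 30791140)) p14_6_0 (nat_lit 4) (nat_lit 48) (nat_lit 49) = true := by decide +kernel
def p14_6_0_49 : pfC (piC [(nat_lit 43428061), (nat_lit 27968816), (nat_lit 20557252), (nat_lit 13862945)] (nat_lit 30791140)) p14_6_0 (nat_lit 4) (nat_lit 49) (nat_lit 50) = true := by decide +kernel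
def p14_6_0_50 : pfC (piC [(nat_lit 43428061), (nat_lit 27968816), (nat_lit 20557252), (nat_lit 13862945)] (nat_lit 30791140)) p14_6_0 (nat_lit 4) (nat_lit 50) (nat_lit 51) = true := by decide +kernel
def p14_6_0_51 : pfC (piC [(nat_lit 43428061), (nat_lit 27968816), (nat_lit 20557252), (nat_lit 13862945)] (nat_lit 30791140)) p14_6_0 (nat_lit 4) (nat_lit 51) (nat_lit 52) = true := by decide +kernel
def p14_6_0_52 : pfC (piC [(nat_lit 43428061), (nat_lit 27968816), (nat_lit 20557252), (nat_lit 13862945)] (nat_lit 30791140)) p14_6_0 (nat_lit 4) (nat_lit 52) (nat_lit 53) = true := by decide +kernel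
def p14_6_0_53 : pfC (piC [(nat_lit 43428061), (nat_lit 27968816), (nat_lit 20557252), (nat_lit 13862945)] (nat_lit 30791140)) p14_6_0 (nat_lit 4) (nat_lit 53) (nat_lit 54) = true := by decide +kernel
def p14_6_0_54 : pfC (piC [(nat_lit 43428061), (nat_lit 27968816), (nat_lit 20557252), (nat_lit 13862945)] (nat_lit 30791140)) p14_6_0 (nat_lit 4) (nat_lit 54) (nat_lit 55) = true := by decide +kernel
def p14_6_0_55 : pfC (piC [(nat_lit 43428061), (nat_lit 27968816), (nat_lit 20557252), (nat_lit 13862945)] (nat_lit 30791140)) p14_6_0 (nat_lit 4) (nat_lit 55) (nat_lit 56) = true := by decide +kernel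
def p14_6_0_56 : pfC (piC [(nat_lit 43428061), (nat_lit 27968816), (nat_lit 20557252), (nat_lit 13862945)] (nat_lit 30791140)) p14_6_0 (nat_lit 4) (nat_lit 56) (nat_lit 57) = true := by decide +kernel
def p14_6_0_57 : pfC (piC [(nat_lit 43428061), (nat_lit 27968816), (nat_lit 20557252), (nat_lit 13862945)] (nat_lit 30791140)) p14_6_0 (nat_lit 4) (nat_lit 57) (nat_lit 58) = true := by decide +kernel
def p14_6_0_58 : pfC (piC [(nat_lit 43428061), (nat_lit 27968816), (nat_lit 20557252), (nat_lit 13862945)] (nat_lit 30791140)) p14_6_0 (nat_lit 4) (nat_lit 58) (nat_lit 59) = true := by decide +kernel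
def p14_6_0_59 : pfC (piC [(nat_lit 43428061), (nat_lit 27968816), (nat_lit 20557252), (nat_lit 13862945)] (nat_lit 30791140)) p14_6_0 (nat_lit 4) (nat_lit 59) (nat_lit 60) = true := by decide +kernel
def p14_6_0_60 : pfC (piC [(nat_lit 43428061), (nat_lit 27968816), (nat_lit 20557252), (nat_lit 13862945)] (nat_lit 30791140)) p14_6_0 (nat_lit 4) (nat_lit 60) (nat_lit 61) = true := by decide +kernel
def p14_6_0_61 : pfC (piC [(nat_lit 43428061), (nat_lit 27968816), (nat_lit 20557252), (nat_lit 13862945)] (nat_lit 30791140)) p14_6_0 (nat_lit 4) (nat_lit 61) (nat_lit 62) = true := by decide +kernel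
def p14_6_0_62 : pfC (piC [(nat_lit 43428061), (nat_lit 27968816), (nat_lit 20557252), (nat_lit 13862945)] (nat_lit 30791140)) p14_6_0 (nat_lit 4) (nat_lit 62) (nat_lit 63) = true := by decide +kernel
def p14_6_0_63 : pfC (piC [(nat_lit 43428061), (nat_lit 27968816), (nat_lit 20557252), (nat_lit 13862945)] (nat_lit 30791140)) p14_6_0 (nat_lit 4) (nat_lit 63) (nat_lit 64) = true := by decide +kernel
def p14_6_0_64 : pfC (piC [(nat_lit 43428061), (nat_lit 27968816), (nat_lit 20557252), (nat_lit 13862945)] (nat_lit 30791140)) p14_6_0 (nat_lit 4) (nat_lit 64) (nat_lit 65) = true := by decide +kernel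
def p14_6_0_65 : pfC (piC [(nat_lit 43428061), (nat_lit 27968816), (nat_lit 20557252), (nat_lit 13862945)] (nat_lit 30791140)) p14_6_0 (nat_lit 4) (nat_lit 65) (nat_lit 66) = true := by decide +kernel
def p14_6_0_66 : pfC (piC [(nat_lit 43428061), (nat_lit 27968816), (nat_lit 20557252), (nat_lit 13862945)] (nat_lit 30791140)) p14_6_0 (nat_lit 4) (nat_lit 66) (nat_lit 67) = true := by decide +kernel
def p14_6_0_67 : pfC (piC [(nat_lit 43428061), (nat_lit 27968816), (nat_lit 20557252), (nat_lit 13862945)] (nat_lit 30791140)) p14_6_0 (nat_lit 4) (nat_lit 67) (nat_lit 68) = true := by decide +kernel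
theorem p14_6_0_T : PfS (PiF n14_6.reverse (nat_lit 30791140)) p14_6_0 (nat_lit 4) [] 0 :=
  pftab_of (los := [(nat_lit 43428061), (nat_lit 27968816), (nat_lit 20557252), (nat_lit 13862945)]) (by decide +kernel) (hi := (nat_lit 68)) (PfP.trans (PfP.trans (PfP.trans (PfP.trans (PfP.trans (PfP.trans (PfP.trans (PfP.trans (PfP.trans (PfP.trans (PfP.trans (PfP.trans (PfP.trans (PfP.trans (PfP.trans (PfP.trans (PfP.trans (PfP.trans (PfP.trans (PfP.trans (PfP.trans (PfP.trans (PfP.trans (PfP.trans (PfP.trans (PfP.trans (PfP.trans (PfP.trans (PfP.trans (PfP.trans (PfP.trans (PfP.trans (PfP.trans (PfP.trans (PfP.trans (PfP.trans (PfP.trans (PfP.trans (PfP.trans (PfP.trans (PfP.trans (PfP.trans (PfP.trans (PfP.trans (PfP.trans (PfP.trans (PfP.trans (PfP.trans (PfP.trans (PfP.trans (PfP.trans (PfP.trans (PfP.trans (PfP.trans (PfP.trans (PfP.trans (PfP.trans (PfP.trans (PfP.trans (PfP.trans (PfP.trans (PfP.trans (PfP.trans (PfP.trans (PfP.trans (PfP.trans (PfP.trans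 (pfC_sound p14_6_0_0) (pfC_sound p14_6_0_1)) (pfC_sound p14_6_0_2)) (pfC_sound p14_6_0_3)) (pfC_sound p14_6_0_4)) (pfC_sound p14_6_0_5)) (pfC_sound p14_6_0_6)) (pfC_sound p14_6_0_7)) (pfC_sound p14_6_0_8)) (pfC_sound p14_6_0_9)) (pfC_sound p14_6_0_10)) (pfC_sound p14_6_0_11)) (pfC_sound p14_6_0_12)) (pfC_sound p14_6_0_13)) (pfC_sound p14_6_0_14)) (pfC_sound p14_6_0_15)) (pfC_sound p14_6_0_16)) (pfC_sound p14_6_0_17)) (pfC_sound p14_6_0_18)) (pfC_sound
 p14_6_0_19)) (pfC_sound p14_6_0_20)) (pfC_sound p14_6_0_21)) (pfC_sound p14_6_0_22)) (pfC_sound p14_6_0_23)) (pfC_sound p14_6_0_24)) (pfC_sound p14_6_0_25)) (pfC_sound p14_6_0_26)) (pfC_sound p14_6_0_27)) (pfC_sound p14_6_0_28)) (pfC_sound p14_6_0_29)) (pfC_sound p14_6_0_30)) (pfC_sound p14_6_0_31)) (pfC_sound p14_6_0_32)) (pfC_sound p14_6_0_33)) (pfC_sound p14_6_0_34)) (pfC_sound p14_6_0_35)) (pfC_sound p14_6_0_36)) (pfC_sound p14_6_0_37)) (pfC_sound p14_6_0_38)) (pfC_sound p14_6_0_39)) (pfC_sound p14_6_0_40))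 (pfC_sound p14_6_0_41)) (pfC_sound p14_6_0_42)) (pfC_sound p14_6_0_43)) (pfC_sound p14_6_0_44)) (pfC_sound p14_6_0_45)) (pfC_sound p14_6_0_46)) (pfC_sound p14_6_0_47)) (pfC_sound p14_6_0_48)) (pfC_sound p14_6_0_49)) (pfC_sound p14_6_0_50)) (pfC_sound p14_6_0_51)) (pfC_sound p14_6_0_52)) (pfC_sound p14_6_0_53)) (pfC_sound p14_6_0_54)) (pfC_sound p14_6_0_55)) (pfC_sound p14_6_0_56)) (pfC_sound p14_6_0_57)) (pfC_sound p14_6_0_58)) (pfC_sound p14_6_0_59)) (pfC_sound p14_6_0_60)) (pfC_sound p14_6_0_61)) (pfC_sound p14_6_0_62)) (pfC_sound p14_6_0_63)) (pfC_sound p14_6_0_64)) (pfC_sound p14_6_0_65)) (pfC_sound p14_6_0_66)) (pfC_sound p14_6_0_67)) (by decide +kernel)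

def z14_6_0 : zOK yB14_6 (nat_lit 0) (nat_lit 0) (nat_lit 400) (nat_lit 30791140) (nat_lit 10328247) = true := by decide +kernel
def g14_6_0 : gOK yB14_6.x P14_6 (nat_lit 1430) (q14_6 :: r14_6) (nat_lit 0) (nat_lit 0) (nat_lit 1) (nat_lit 400) (nat_lit 0) (nat_lit 11000000) (nat_lit 12712500) (nat_lit 12712500) [(nat_lit 800), (nat_lit 1400), (nat_lit 1530)] = true := by decide +kernel
def v14_6_0 : ivC P14_6 s14_6 w14_6 n14_6 (nat_lit 4) (nat_lit 5540) (nat_lit 0) (nat_lit 0) f128_1_0 f136_1_0 (nat_lit 1) (nat_lit 400) f128_1_400 f136_1_400 (nat_lit 30791140) (nat_lit 10328247) p14_6_0 = true := by decide +kernel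
def p14_6_1 : PF := (PF.cons (PF.cons (PF.cons (PF.cons (PF.leaf (nat_lit 2147210) (nat_lit 10329132) (nat_lit 56779680) (nat_lit 10329132) [(nat_lit 0), (nat_lit 0), (nat_lit 0), (nat_lit 0)]) (PF.cons (PF.leaf (nat_lit 2251713) (nat_lit 168360) (nat_lit 56598880) (nat_lit 10341571) [(nat_lit 168360), (nat_lit 0), (nat_lit 0), (nat_lit 0)]) (PF.cons (PF.leaf (nat_lit 2379351) (nat_lit 183429) (nat_lit 56386519) (nat_lit 10355434) [(nat_lit 183429), (nat_lit 0), (nat_lit 0), (nat_lit 0)]) (PF.cons (PF.leaf (nat_lit 2523056) (nat_lit 196945) (nat_lit 56147896) (nat_lit 10370080) [(nat_lit 196945), (nat_lit 0), (nat_lit 0), (nat_lit 0)]) (PF.cons PF.nil PF.nil))))) (PF.cons (PF.cons (PF.leaf (nat_lit 2588439) (nat_lit 942478) (nat_lit 55779299) (nat_lit 10387034) [(nat_lit 0), (nat_lit 942478), (nat_lit 0), (nat_lit 0)]) (PF.cons (PF.leaf (nat_lit 2729363) (nat_lit 207772) (nat_lit 55537156) (nat_lit 10399412) [(nat_lit 207772), (nat_lit 964472), (nat_lit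 0), (nat_lit 0)]) (PF.cons (PF.leaf (nat_lit 2887540) (nat_lit 219597) (nat_lit 55271138) (nat_lit 10411954) [(nat_lit 219597), (nat_lit 986525), (nat_lit 0), (nat_lit 0)]) (PF.cons PF.nil PF.nil)))) (PF.cons (PF.cons (PF.leaf (nat_lit 3100774)
 (nat_lit 1020190) (nat_lit 54634685) (nat_lit 10433747) [(nat_lit 0), (nat_lit 1020190), (nat_lit 0), (nat_lit 0)]) (PF.cons (PF.leaf (nat_lit 3269753) (nat_lit 239081) (nat_lit 54347025) (nat_lit 10443381) [(nat_lit 239081), (nat_lit 1039662), (nat_lit 0), (nat_lit 0)]) PF.nil)) (PF.cons PF.nil (PF.cons PF.nil PF.nil))))) (PF.cons (PF.cons (PF.cons (PF.leaf (nat_lit 3134455) (nat_lit 2744736) (nat_lit 53932497) (nat_lit 10431578) [(nat_lit 0), (nat_lit 0), (nat_lit 2744736), (nat_lit 0)]) (PF.cons (PF.leaf (nat_lit 3285212) (nat_lit 227461) (nat_lit 53677146) (nat_lit 10437994) [(nat_lit 227461), (nat_lit 0), (nat_lit 2766209), (nat_lit 0)]) (PF.cons (PF.leaf (nat_lit 3452757) (nat_lit 238835) (nat_lit 53398747)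 (nat_lit 10443993) [(nat_lit 238835), (nat_lit 0), (nat_lit 2788401), (nat_lit 0)]) (PF.cons PF.nil PF.nil)))) (PF.cons (PF.cons (PF.leaf (nat_lit 3666814) (nat_lit 1079999) (nat_lit 52750542) (nat_lit 10450276) [(nat_lit 0), (nat_lit 1079999), (nat_lit 2827994), (nat_lit 0)]) (PF.cons PF.nil PF.nil)) (PF.cons PF.nil PF.nil))) (PF.cons (PF.cons (PF.cons (PF.leaf (nat_lit 4229278) (nat_lit 2900834) (nat_lit 50880659) (nat_lit 10426484) [(nat_lit 0), (nat_lit 0), (nat_lit
 2900834), (nat_lit 0)]) (PF.cons PF.nil PF.nil)) (PF.cons PF.nil PF.nil)) (PF.cons PF.nil (PF.cons PF.nil PF.nil))))) (PF.cons (PF.cons (PF.cons (PF.cons (PF.leaf (nat_lit 3946551) (nat_lit 6766787) (nat_lit 50022398) (nat_lit 10319627) [(nat_lit 0), (nat_lit 0), (nat_lit 0), (nat_lit 6766787)]) (PF.cons (PF.leaf (nat_lit 4100271) (nat_lit 239932) (nat_lit 49777556) (nat_lit 10316489) [(nat_lit 239932), (nat_lit 0), (nat_lit 0), (nat_lit 6774834)]) (PF.cons (PF.leaf (nat_lit 4269916)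 (nat_lit 251065) (nat_lit 49511580) (nat_lit 10312312) [(nat_lit 251065), (nat_lit 0), (nat_lit 0), (nat_lit 6782788)]) (PF.cons (PF.leaf (nat_lit 4451369) (nat_lit 260986) (nat_lit 49228461) (nat_lit 10307005) [(nat_lit 260986), (nat_lit 0), (nat_lit 0), (nat_lit 6790385)]) (PF.cons PF.nil PF.nil))))) (PF.cons (PF.cons (PF.leaf (nat_lit 4476232) (nat_lit 1118434) (nat_lit 48900406) (nat_lit 10296298) [(nat_lit 0), (nat_lit 1118434), (nat_lit 0), (nat_lit 6793674)]) (PF.cons (PF.leaf (nat_lit 4653538) (nat_lit 266580) (nat_lit 48620809) (nat_lit 10289224) [(nat_lit 266580), (nat_lit 1132799), (nat_lit 0), (nat_lit 6799399)]) (PF.cons (PF.leaf (nat_lit 4843012) (nat_lit 275299) (nat_lit 48326036)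
 (nat_lit 10280879) [(nat_lit 275299), (nat_lit 1146729), (nat_lit 0), (nat_lit 6804568)]) (PF.cons PF.nil PF.nil)))) (PF.cons (PF.cons (PF.leaf (nat_lit 5045380) (nat_lit 1163290) (nat_lit 47716495) (nat_lit 10257408) [(nat_lit 0), (nat_lit 1163290), (nat_lit 0), (nat_lit 6808327)]) (PF.cons PF.nil PF.nil)) PF.nil))) (PF.cons (PF.cons (PF.cons (PF.leaf (nat_lit 5010559) (nat_lit 2930030) (nat_lit 47168845) (nat_lit 10218506) [(nat_lit 0), (nat_lit 0), (nat_lit 2930030), (nat_lit 6791430)]) (PF.cons (PF.leaf (nat_lit 5191493) (nat_lit 277434) (nat_lit 46890187) (nat_lit 10206879) [(nat_lit 277434), (nat_lit 0), (nat_lit 2941310), (nat_lit 6793001)]) (PF.cons PF.nil PF.nil))) (PF.cons (PF.cons (PF.leaf (nat_lit 5581881) (nat_lit 1189652) (nat_lit 46001425) (nat_lit 10161597) [(nat_lit 0), (nat_lit 1189652), (nat_lit 2966758), (nat_lit 6789378)]) PF.nil) PF.nil)) (PF.cons PF.nil PF.nil))) (PF.cons (PF.cons (PF.cons (PF.cons (PF.leaf (nat_lit 5726652)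 (nat_lit 6672559) (nat_lit 43817478) (nat_lit 9946215) [(nat_lit 0), (nat_lit 0), (nat_lit 0), (nat_lit 6672559)]) (PF.cons (PF.leaf (nat_lit 5904980) (nat_lit 280953) (nat_lit 43560606) (nat_lit 9929263) [(nat_lit 280953), (nat_lit 0),
 (nat_lit 0), (nat_lit 6668995)]) (PF.cons PF.nil PF.nil))) (PF.cons (PF.cons (PF.leaf (nat_lit 6280990) (nat_lit 1192060) (nat_lit 42747066) (nat_lit 9868782) [(nat_lit 0), (nat_lit 1192060), (nat_lit 0), (nat_lit 6650451)]) PF.nil) PF.nil)) (PF.cons PF.nil PF.nil)) (PF.cons PF.nil (PF.cons PF.nil (PF.cons PF.nil PF.nil))))))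

def p14_6_1_0 : pfC (piC [(nat_lit 43428061), (nat_lit 27968816), (nat_lit 20557252), (nat_lit 13862945)] (nat_lit 10328247)) p14_6_1 (nat_lit 4) (nat_lit 0) (nat_lit 1) = true := by decide +kernel
def p14_6_1_1 : pfC (piC [(nat_lit 43428061), (nat_lit 27968816), (nat_lit 20557252), (nat_lit 13862945)] (nat_lit 10328247)) p14_6_1 (nat_lit 4) (nat_lit 1) (nat_lit 2) = true := by decide +kernel
def p14_6_1_2 : pfC (piC [(nat_lit 43428061), (nat_lit 27968816), (nat_lit 20557252), (nat_lit 13862945)] (nat_lit 10328247)) p14_6_1 (nat_lit 4) (nat_lit 2) (nat_lit 3) = true := by decide +kernel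
def p14_6_1_3 : pfC (piC [(nat_lit 43428061), (nat_lit 27968816), (nat_lit 20557252), (nat_lit 13862945)] (nat_lit 10328247)) p14_6_1 (nat_lit 4) (nat_lit 3) (nat_lit 4) = true := by decide +kernel
def p14_6_1_4 : pfC (piC [(nat_lit 43428061), (nat_lit 27968816), (nat_lit 20557252), (nat_lit 13862945)] (nat_lit 10328247)) p14_6_1 (nat_lit 4) (nat_lit 4) (nat_lit 5) = true := by decide +kernel
def p14_6_1_5 : pfC (piC [(nat_lit 43428061), (nat_lit 27968816), (nat_lit 20557252), (nat_lit 13862945)] (nat_lit 10328247)) p14_6_1 (nat_lit 4) (nat_lit 5) (nat_lit 6) = true := by decide +kernel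
def p14_6_1_6 : pfC (piC [(nat_lit 43428061), (nat_lit 27968816), (nat_lit 20557252), (nat_lit 13862945)] (nat_lit 10328247)) p14_6_1 (nat_lit 4) (nat_lit 6) (nat_lit 7) = true := by decide +kernel
def p14_6_1_7 : pfC (piC [(nat_lit 43428061), (nat_lit 27968816), (nat_lit 20557252), (nat_lit 13862945)] (nat_lit 10328247)) p14_6_1 (nat_lit 4) (nat_lit 7) (nat_lit 8) = true := by decide +kernel
def p14_6_1_8 : pfC (piC [(nat_lit 43428061), (nat_lit 27968816), (nat_lit 20557252), (nat_lit 13862945)] (nat_lit 10328247)) p14_6_1 (nat_lit 4) (nat_lit 8) (nat_lit 9) = true := by decide +kernel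
def p14_6_1_9 : pfC (piC [(nat_lit 43428061), (nat_lit 27968816), (nat_lit 20557252), (nat_lit 13862945)] (nat_lit 10328247)) p14_6_1 (nat_lit 4) (nat_lit 9) (nat_lit 10) = true := by decide +kernel
def p14_6_1_10 : pfC (piC [(nat_lit 43428061), (nat_lit 27968816), (nat_lit 20557252), (nat_lit 13862945)] (nat_lit 10328247)) p14_6_1 (nat_lit 4) (nat_lit 10) (nat_lit 11) = true := by decide +kernel
def p14_6_1_11 : pfC (piC [(nat_lit 43428061), (nat_lit 27968816), (nat_lit 20557252), (nat_lit 13862945)] (nat_lit 10328247)) p14_6_1 (nat_lit 4) (nat_lit 11) (nat_lit 12) = true := by decide +kernel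
def p14_6_1_12 : pfC (piC [(nat_lit 43428061), (nat_lit 27968816), (nat_lit 20557252), (nat_lit 13862945)] (nat_lit 10328247)) p14_6_1 (nat_lit 4) (nat_lit 12) (nat_lit 13) = true := by decide +kernel
def p14_6_1_13 : pfC (piC [(nat_lit 43428061), (nat_lit 27968816), (nat_lit 20557252), (nat_lit 13862945)] (nat_lit 10328247)) p14_6_1 (nat_lit 4) (nat_lit 13) (nat_lit 14) = true := by decide +kernel
def p14_6_1_14 : pfC (piC [(nat_lit 43428061), (nat_lit 27968816), (nat_lit 20557252), (nat_lit 13862945)] (nat_lit 10328247)) p14_6_1 (nat_lit 4) (nat_lit 14) (nat_lit 15) = true := by decide +kernel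
def p14_6_1_15 : pfC (piC [(nat_lit 43428061), (nat_lit 27968816), (nat_lit 20557252), (nat_lit 13862945)] (nat_lit 10328247)) p14_6_1 (nat_lit 4) (nat_lit 15) (nat_lit 16) = true := by decide +kernel
def p14_6_1_16 : pfC (piC [(nat_lit 43428061), (nat_lit 27968816), (nat_lit 20557252), (nat_lit 13862945)] (nat_lit 10328247)) p14_6_1 (nat_lit 4) (nat_lit 16) (nat_lit 17) = true := by decide +kernel
def p14_6_1_17 : pfC (piC [(nat_lit 43428061), (nat_lit 27968816), (nat_lit 20557252), (nat_lit 13862945)] (nat_lit 10328247)) p14_6_1 (nat_lit 4) (nat_lit 17) (nat_lit 18) = true := by decide +kernel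
def p14_6_1_18 : pfC (piC [(nat_lit 43428061), (nat_lit 27968816), (nat_lit 20557252), (nat_lit 13862945)] (nat_lit 10328247)) p14_6_1 (nat_lit 4) (nat_lit 18) (nat_lit 19) = true := by decide +kernel
def p14_6_1_19 : pfC (piC [(nat_lit 43428061), (nat_lit 27968816), (nat_lit 20557252), (nat_lit 13862945)] (nat_lit 10328247)) p14_6_1 (nat_lit 4) (nat_lit 19) (nat_lit 20) = true := by decide +kernel
def p14_6_1_20 : pfC (piC [(nat_lit 43428061), (nat_lit 27968816), (nat_lit 20557252), (nat_lit 13862945)] (nat_lit 10328247)) p14_6_1 (nat_lit 4) (nat_lit 20) (nat_lit 21) = true := by decide +kernel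
def p14_6_1_21 : pfC (piC [(nat_lit 43428061), (nat_lit 27968816), (nat_lit 20557252), (nat_lit 13862945)] (nat_lit 10328247)) p14_6_1 (nat_lit 4) (nat_lit 21) (nat_lit 22) = true := by decide +kernel
def p14_6_1_22 : pfC (piC [(nat_lit 43428061), (nat_lit 27968816), (nat_lit 20557252), (nat_lit 13862945)] (nat_lit 10328247)) p14_6_1 (nat_lit 4) (nat_lit 22) (nat_lit 23) = true := by decide +kernel
def p14_6_1_23 : pfC (piC [(nat_lit 43428061), (nat_lit 27968816), (nat_lit 20557252), (nat_lit 13862945)] (nat_lit 10328247)) p14_6_1 (nat_lit 4) (nat_lit 23) (nat_lit 24) = true := by decide +kernel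
def p14_6_1_24 : pfC (piC [(nat_lit 43428061), (nat_lit 27968816), (nat_lit 20557252), (nat_lit 13862945)] (nat_lit 10328247)) p14_6_1 (nat_lit 4) (nat_lit 24) (nat_lit 25) = true := by decide +kernel
def p14_6_1_25 : pfC (piC [(nat_lit 43428061), (nat_lit 27968816), (nat_lit 20557252), (nat_lit 13862945)] (nat_lit 10328247)) p14_6_1 (nat_lit 4) (nat_lit 25) (nat_lit 26) = true := by decide +kernel
def p14_6_1_26 : pfC (piC [(nat_lit 43428061), (nat_lit 27968816), (nat_lit 20557252), (nat_lit 13862945)] (nat_lit 10328247)) p14_6_1 (nat_lit 4) (nat_lit 26) (nat_lit 27) = true := by decide +kernel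
def p14_6_1_27 : pfC (piC [(nat_lit 43428061), (nat_lit 27968816), (nat_lit 20557252), (nat_lit 13862945)] (nat_lit 10328247)) p14_6_1 (nat_lit 4) (nat_lit 27) (nat_lit 28) = true := by decide +kernel
theorem p14_6_1_T : PfS (PiF n14_6.reverse (nat_lit 10328247)) p14_6_1 (nat_lit 4) [] 0 :=
  pftab_of (los := [(nat_lit 43428061), (nat_lit 27968816), (nat_lit 20557252), (nat_lit 13862945)]) (by decide +kernel) (hi := (nat_lit 28)) (PfP.trans (PfP.trans (PfP.trans (PfP.trans (PfP.trans (PfP.trans (PfP.trans (PfP.trans (PfP.trans (PfP.trans (PfP.trans (PfP.trans (PfP.trans (PfP.trans (PfP.trans (PfP.trans (PfP.trans (PfP.trans (PfP.trans (PfP.trans (PfP.trans (PfP.trans (PfP.trans (PfP.trans (PfP.trans (PfP.trans (PfP.trans (pfC_sound p14_6_1_0) (pfC_sound p14_6_1_1)) (pfC_sound p14_6_1_2)) (pfC_sound p14_6_1_3)) (pfC_sound p14_6_1_4)) (pfC_sound p14_6_1_5)) (pfC_sound p14_6_1_6)) (pfC_sound p14_6_1_7)) (pfC_sound p14_6_1_8)) (pfC_sound p14_6_1_9)) (pfC_sound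 p14_6_1_10)) (pfC_sound p14_6_1_11)) (pfC_sound p14_6_1_12)) (pfC_sound p14_6_1_13)) (pfC_sound p14_6_1_14)) (pfC_sound p14_6_1_15)) (pfC_sound p14_6_1_16)) (pfC_sound p14_6_1_17)) (pfC_sound p14_6_1_18)) (pfC_sound p14_6_1_19)) (pfC_sound p14_6_1_20)) (pfC_sound p14_6_1_21)) (pfC_sound p14_6_1_22)) (pfC_sound p14_6_1_23)) (pfC_sound p14_6_1_24)) (pfC_sound p14_6_1_25)) (pfC_sound p14_6_1_26)) (pfC_sound p14_6_1_27)) (by decide +kernel)

def z14_6_1 : zOK yB14_6 (nat_lit 1) (nat_lit 400) (nat_lit 600) (nat_lit 10328247) (nat_lit 6713858) = true := by decide +kernel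
def g14_6_1 : gOK yB14_6.x P14_6 (nat_lit 1430) (q14_6 :: r14_6) (nat_lit 1) (nat_lit 400) (nat_lit 2) (nat_lit 600) (nat_lit 11000000) (nat_lit 17850000) (nat_lit 12712500) (nat_lit 12712500) [(nat_lit 800), (nat_lit 1040)] = true := by decide +kernel
def v14_6_1 : ivC P14_6 s14_6 w14_6 n14_6 (nat_lit 4) (nat_lit 5140) (nat_lit 1) (nat_lit 400) f128_1_400 f136_1_400 (nat_lit 2) (nat_lit 600) f128_1_600 f136_1_600 (nat_lit 10328247) (nat_lit 6713858) p14_6_1 = true := by decide +kernel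
def p14_6_2 : PF := (PF.cons (PF.cons (PF.cons (PF.cons (PF.leaf (nat_lit 2768917) (nat_lit 16264412) (nat_lit 50844400) (nat_lit 16264412) [(nat_lit 0), (nat_lit 0), (nat_lit 0), (nat_lit 0)]) (PF.cons (PF.leaf (nat_lit 2870956) (nat_lit 168572) (nat_lit 50687991) (nat_lit 16252249) [(nat_lit 168572), (nat_lit 0), (nat_lit 0), (nat_lit 0)]) (PF.cons (PF.leaf (nat_lit 2995465) (nat_lit 183408) (nat_lit 50504480) (nat_lit 16237514) [(nat_lit 183408), (nat_lit 0), (nat_lit 0), (nat_lit 0)]) (PF.cons (PF.leaf (nat_lit 3135363) (nat_lit 196631) (nat_lit 50298526) (nat_lit 16220392) [(nat_lit 196631), (nat_lit 0), (nat_lit 0), (nat_lit 0)]) (PF.cons (PF.leaf (nat_lit 3288485) (nat_lit 208614) (nat_lit 50073372) (nat_lit 16200981) [(nat_lit 208614), (nat_lit 0), (nat_lit 0), (nat_lit 0)]) (PF.cons PF.nil (PF.cons PF.nil PF.nil))))))) (PF.cons (PF.cons (PF.leaf (nat_lit 3194155) (nat_lit 936414) (nat_lit 49981891) (nat_lit 16190507) [(nat_lit 0), (nat_lit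 936414), (nat_lit 0), (nat_lit 0)]) (PF.cons (PF.leaf (nat_lit 3330714) (nat_lit 206684) (nat_lit 49773537) (nat_lit 16171595) [(nat_lit 206684), (nat_lit 956995), (nat_lit 0), (nat_lit 0)]) (PF.cons (PF.leaf (nat_lit 3483793) (nat_lit 218129) (nat_lit
 49544904) (nat_lit 16150158) [(nat_lit 218129), (nat_lit 977491), (nat_lit 0), (nat_lit 0)]) (PF.cons (PF.leaf (nat_lit 3649123) (nat_lit 228572) (nat_lit 49299197) (nat_lit 16126334) [(nat_lit 228572), (nat_lit 997562), (nat_lit 0), (nat_lit 0)]) (PF.cons PF.nil PF.nil))))) (PF.cons (PF.cons (PF.leaf (nat_lit 3684531) (nat_lit 1007559) (nat_lit 48999954) (nat_lit 16093739) [(nat_lit 0), (nat_lit 1007559), (nat_lit 0), (nat_lit 0)]) (PF.cons (PF.leaf (nat_lit 3847063) (nat_lit 236355) (nat_lit 48753641) (nat_lit 16068043) [(nat_lit 236355), (nat_lit 1025386), (nat_lit 0), (nat_lit 0)]) (PF.cons (PF.leaf (nat_lit 4022663) (nat_lit 245623) (nat_lit 48491985) (nat_lit 16039889) [(nat_lit 245623), (nat_lit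 1042845), (nat_lit 0), (nat_lit 0)]) (PF.cons PF.nil PF.nil)))) (PF.cons (PF.cons (PF.leaf (nat_lit 4223390) (nat_lit 1066259) (nat_lit 47935468) (nat_lit 15974564) [(nat_lit 0), (nat_lit 1066259), (nat_lit 0), (nat_lit 0)]) (PF.cons PF.nil PF.nil)) (PF.cons PF.nil PF.nil))))) (PF.cons (PF.cons (PF.cons (PF.leaf (nat_lit 3704884) (nat_lit 2688317) (nat_lit 48405433) (nat_lit 16015061) [(nat_lit 0), (nat_lit 0), (nat_lit 2688317), (nat_lit 0)]) (PF.cons (PF.leaf (nat_lit 3849894)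
 (nat_lit 224245) (nat_lit 48187216) (nat_lit 15990777) [(nat_lit 224245), (nat_lit 0), (nat_lit 2706573), (nat_lit 0)]) (PF.cons (PF.leaf (nat_lit 4010786) (nat_lit 235169) (nat_lit 47949506) (nat_lit 15963643) [(nat_lit 235169), (nat_lit 0), (nat_lit 2725323), (nat_lit 0)]) (PF.cons (PF.leaf (nat_lit 4183371) (nat_lit 244994) (nat_lit 47695771) (nat_lit 15933906) [(nat_lit 244994), (nat_lit 0), (nat_lit 2744150), (nat_lit 0)]) (PF.cons PF.nil PF.nil))))) (PF.cons (PF.cons (PF.leaf (nat_lit 4211248) (nat_lit 1058181) (nat_lit 47397758) (nat_lit 15895491) [(nat_lit 0), (nat_lit 1058181), (nat_lit 2757381), (nat_lit 0)]) (PF.cons (PF.leaf (nat_lit 4380189) (nat_lit 251185) (nat_lit 47145911) (nat_lit 15864266) [(nat_lit 251185), (nat_lit 1073405), (nat_lit 2774045), (nat_lit 0)]) (PF.cons PF.nil (PF.cons PF.nil PF.nil)))) (PF.cons (PF.cons (PF.leaf (nat_lit 4759521) (nat_lit 1106902) (nat_lit 46324732) (nat_lit 15754735) [(nat_lit 0), (nat_lit 1106902),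 (nat_lit 2815540), (nat_lit 0)]) (PF.cons PF.nil PF.nil)) PF.nil))) (PF.cons (PF.cons (PF.cons (PF.leaf (nat_lit 4733110) (nat_lit 2812013) (nat_lit 45814306) (nat_lit 15670478) [(nat_lit 0), (nat_lit 0), (nat_lit 2812013), (nat_lit
 0)]) (PF.cons (PF.leaf (nat_lit 4906695) (nat_lit 263262) (nat_lit 45560769) (nat_lit 15634503) [(nat_lit 263262), (nat_lit 0), (nat_lit 2825138), (nat_lit 0)]) (PF.cons PF.nil PF.nil))) (PF.cons (PF.cons (PF.leaf (nat_lit 5286378) (nat_lit 1138058) (nat_lit 44746601) (nat_lit 15511721) [(nat_lit 0), (nat_lit 1138058), (nat_lit 2856215), (nat_lit 0)]) PF.nil) PF.nil)) (PF.cons PF.nil (PF.cons PF.nil PF.nil))))) (PF.cons (PF.cons (PF.cons (PF.cons (PF.leaf (nat_lit 4443921) (nat_lit 6492968) (nat_lit 45111471) (nat_lit 15504372) [(nat_lit 0), (nat_lit 0), (nat_lit 0), (nat_lit 6492968)]) (PF.cons (PF.leaf (nat_lit 4590832) (nat_lit 233806) (nat_lit 44903398) (nat_lit 15474232) [(nat_lit 233806), (nat_lit 0), (nat_lit 0),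 (nat_lit 6497375)]) (PF.cons (PF.leaf (nat_lit 4753024) (nat_lit 244455) (nat_lit 44677447) (nat_lit 15440945) [(nat_lit 244455), (nat_lit 0), (nat_lit 0), (nat_lit 6501508)]) (PF.cons (PF.leaf (nat_lit 4926338) (nat_lit 253902) (nat_lit 44437019) (nat_lit 15404898) [(nat_lit 253902), (nat_lit 0), (nat_lit 0), (nat_lit 6505185)]) (PF.cons PF.nil PF.nil))))) (PF.cons (PF.cons (PF.leaf (nat_lit 4946228) (nat_lit 1084868) (nat_lit 44159355) (nat_lit 15360173)
 [(nat_lit 0), (nat_lit 1084868), (nat_lit 0), (nat_lit 6504415)]) (PF.cons (PF.leaf (nat_lit 5115202) (nat_lit 258901) (nat_lit 43922078) (nat_lit 15323238) [(nat_lit 258901), (nat_lit 1097998), (nat_lit 0), (nat_lit 6506596)]) (PF.cons (PF.leaf (nat_lit 5295787) (nat_lit 267160) (nat_lit 43671988) (nat_lit 15283649) [(nat_lit 267160), (nat_lit 1110668), (nat_lit 0), (nat_lit 6508185)]) (PF.cons PF.nil PF.nil)))) (PF.cons (PF.cons (PF.leaf (nat_lit 5484620) (nat_lit 1125058) (nat_lit 43155812) (nat_lit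 15197533) [(nat_lit 0), (nat_lit 1125058), (nat_lit 0), (nat_lit 6505350)]) (PF.cons PF.nil PF.nil)) (PF.cons PF.nil (PF.cons PF.nil PF.nil))))) (PF.cons (PF.cons (PF.cons (PF.leaf (nat_lit 5443362) (nat_lit 2820073) (nat_lit 42695705) (nat_lit 15108319) [(nat_lit 0), (nat_lit 0), (nat_lit 2820073), (nat_lit 6484714)]) (PF.cons (PF.leaf (nat_lit 5615457) (nat_lit 268381) (nat_lit 42459400) (nat_lit 15068003) [(nat_lit 268381), (nat_lit 0), (nat_lit 2829418), (nat_lit 6483609)]) (PF.cons PF.nil (PF.cons PF.nil PF.nil)))) (PF.cons (PF.cons (PF.leaf (nat_lit 5983236) (nat_lit 1146685) (nat_lit 41706547) (nat_lit 14933523) [(nat_lit 0), (nat_lit 1146685), (nat_lit 2849421), (nat_lit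
 6472634)]) (PF.cons PF.nil PF.nil)) (PF.cons PF.nil PF.nil))) (PF.cons (PF.cons (PF.cons (PF.leaf (nat_lit 6469926) (nat_lit 2858996) (nat_lit 40305751) (nat_lit 14659444) [(nat_lit 0), (nat_lit 0), (nat_lit 2858996), (nat_lit 6425623)]) (PF.cons PF.nil PF.nil)) (PF.cons PF.nil PF.nil)) PF.nil))) (PF.cons (PF.cons (PF.cons (PF.cons (PF.leaf (nat_lit 6099853) (nat_lit 6352762) (nat_lit 39873830) (nat_lit 14529456) [(nat_lit 0), (nat_lit 0), (nat_lit 0), (nat_lit 6352762)]) (PF.cons (PF.leaf (nat_lit 6269488) (nat_lit 270581) (nat_lit 39655419) (nat_lit 14486972) [(nat_lit 270581), (nat_lit 0), (nat_lit 0), (nat_lit 6347919)]) (PF.cons PF.nil PF.nil))) (PF.cons (PF.cons (PF.leaf (nat_lit 6624685) (nat_lit 1144838) (nat_lit 38964064) (nat_lit 14347416) [(nat_lit 0), (nat_lit 1144838), (nat_lit 0), (nat_lit 6326246)]) PF.nil) PF.nil)) (PF.cons PF.nil PF.nil)) (PF.cons PF.nil (PF.cons PF.nil (PF.cons PF.nil PF.nil))))))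

def p14_6_2_0 : pfC (piC [(nat_lit 43428061), (nat_lit 27968816), (nat_lit 20557252), (nat_lit 13862945)] (nat_lit 6713858)) p14_6_2 (nat_lit 4) (nat_lit 0) (nat_lit 1) = true := by decide +kernel
def p14_6_2_1 : pfC (piC [(nat_lit 43428061), (nat_lit 27968816), (nat_lit 20557252), (nat_lit 13862945)] (nat_lit 6713858)) p14_6_2 (nat_lit 4) (nat_lit 1) (nat_lit 2) = true := by decide +kernel
def p14_6_2_2 : pfC (piC [(nat_lit 43428061), (nat_lit 27968816), (nat_lit 20557252), (nat_lit 13862945)] (nat_lit 6713858)) p14_6_2 (nat_lit 4) (nat_lit 2) (nat_lit 3) = true := by decide +kernel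
def p14_6_2_3 : pfC (piC [(nat_lit 43428061), (nat_lit 27968816), (nat_lit 20557252), (nat_lit 13862945)] (nat_lit 6713858)) p14_6_2 (nat_lit 4) (nat_lit 3) (nat_lit 4) = true := by decide +kernel
def p14_6_2_4 : pfC (piC [(nat_lit 43428061), (nat_lit 27968816), (nat_lit 20557252), (nat_lit 13862945)] (nat_lit 6713858)) p14_6_2 (nat_lit 4) (nat_lit 4) (nat_lit 5) = true := by decide +kernel
def p14_6_2_5 : pfC (piC [(nat_lit 43428061), (nat_lit 27968816), (nat_lit 20557252), (nat_lit 13862945)] (nat_lit 6713858)) p14_6_2 (nat_lit 4) (nat_lit 5) (nat_lit 6) = true := by decide +kernel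
def p14_6_2_6 : pfC (piC [(nat_lit 43428061), (nat_lit 27968816), (nat_lit 20557252), (nat_lit 13862945)] (nat_lit 6713858)) p14_6_2 (nat_lit 4) (nat_lit 6) (nat_lit 7) = true := by decide +kernel
def p14_6_2_7 : pfC (piC [(nat_lit 43428061), (nat_lit 27968816), (nat_lit 20557252), (nat_lit 13862945)] (nat_lit 6713858)) p14_6_2 (nat_lit 4) (nat_lit 7) (nat_lit 8) = true := by decide +kernel
def p14_6_2_8 : pfC (piC [(nat_lit 43428061), (nat_lit 27968816), (nat_lit 20557252), (nat_lit 13862945)] (nat_lit 6713858)) p14_6_2 (nat_lit 4) (nat_lit 8) (nat_lit 9) = true := by decide +kernel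
def p14_6_2_9 : pfC (piC [(nat_lit 43428061), (nat_lit 27968816), (nat_lit 20557252), (nat_lit 13862945)] (nat_lit 6713858)) p14_6_2 (nat_lit 4) (nat_lit 9) (nat_lit 10) = true := by decide +kernel
def p14_6_2_10 : pfC (piC [(nat_lit 43428061), (nat_lit 27968816), (nat_lit 20557252), (nat_lit 13862945)] (nat_lit 6713858)) p14_6_2 (nat_lit 4) (nat_lit 10) (nat_lit 11) = true := by decide +kernel
def p14_6_2_11 : pfC (piC [(nat_lit 43428061), (nat_lit 27968816), (nat_lit 20557252), (nat_lit 13862945)] (nat_lit 6713858)) p14_6_2 (nat_lit 4) (nat_lit 11) (nat_lit 12) = true := by decide +kernel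
def p14_6_2_12 : pfC (piC [(nat_lit 43428061), (nat_lit 27968816), (nat_lit 20557252), (nat_lit 13862945)] (nat_lit 6713858)) p14_6_2 (nat_lit 4) (nat_lit 12) (nat_lit 13) = true := by decide +kernel
def p14_6_2_13 : pfC (piC [(nat_lit 43428061), (nat_lit 27968816), (nat_lit 20557252), (nat_lit 13862945)] (nat_lit 6713858)) p14_6_2 (nat_lit 4) (nat_lit 13) (nat_lit 14) = true := by decide +kernel
def p14_6_2_14 : pfC (piC [(nat_lit 43428061), (nat_lit 27968816), (nat_lit 20557252), (nat_lit 13862945)] (nat_lit 6713858)) p14_6_2 (nat_lit 4) (nat_lit 14) (nat_lit 15) = true := by decide +kernel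
def p14_6_2_15 : pfC (piC [(nat_lit 43428061), (nat_lit 27968816), (nat_lit 20557252), (nat_lit 13862945)] (nat_lit 6713858)) p14_6_2 (nat_lit 4) (nat_lit 15) (nat_lit 16) = true := by decide +kernel
def p14_6_2_16 : pfC (piC [(nat_lit 43428061), (nat_lit 27968816), (nat_lit 20557252), (nat_lit 13862945)] (nat_lit 6713858)) p14_6_2 (nat_lit 4) (nat_lit 16) (nat_lit 17) = true := by decide +kernel
def p14_6_2_17 : pfC (piC [(nat_lit 43428061), (nat_lit 27968816), (nat_lit 20557252), (nat_lit 13862945)] (nat_lit 6713858)) p14_6_2 (nat_lit 4) (nat_lit 17) (nat_lit 18) = true := by decide +kernel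
def p14_6_2_18 : pfC (piC [(nat_lit 43428061), (nat_lit 27968816), (nat_lit 20557252), (nat_lit 13862945)] (nat_lit 6713858)) p14_6_2 (nat_lit 4) (nat_lit 18) (nat_lit 19) = true := by decide +kernel
def p14_6_2_19 : pfC (piC [(nat_lit 43428061), (nat_lit 27968816), (nat_lit 20557252), (nat_lit 13862945)] (nat_lit 6713858)) p14_6_2 (nat_lit 4) (nat_lit 19) (nat_lit 20) = true := by decide +kernel
def p14_6_2_20 : pfC (piC [(nat_lit 43428061), (nat_lit 27968816), (nat_lit 20557252), (nat_lit 13862945)] (nat_lit 6713858)) p14_6_2 (nat_lit 4) (nat_lit 20) (nat_lit 21) = true := by decide +kernel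
def p14_6_2_21 : pfC (piC [(nat_lit 43428061), (nat_lit 27968816), (nat_lit 20557252), (nat_lit 13862945)] (nat_lit 6713858)) p14_6_2 (nat_lit 4) (nat_lit 21) (nat_lit 22) = true := by decide +kernel
def p14_6_2_22 : pfC (piC [(nat_lit 43428061), (nat_lit 27968816), (nat_lit 20557252), (nat_lit 13862945)] (nat_lit 6713858)) p14_6_2 (nat_lit 4) (nat_lit 22) (nat_lit 23) = true := by decide +kernel
def p14_6_2_23 : pfC (piC [(nat_lit 43428061), (nat_lit 27968816), (nat_lit 20557252), (nat_lit 13862945)] (nat_lit 6713858)) p14_6_2 (nat_lit 4) (nat_lit 23) (nat_lit 24) = true := by decide +kernel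
def p14_6_2_24 : pfC (piC [(nat_lit 43428061), (nat_lit 27968816), (nat_lit 20557252), (nat_lit 13862945)] (nat_lit 6713858)) p14_6_2 (nat_lit 4) (nat_lit 24) (nat_lit 25) = true := by decide +kernel
def p14_6_2_25 : pfC (piC [(nat_lit 43428061), (nat_lit 27968816), (nat_lit 20557252), (nat_lit 13862945)] (nat_lit 6713858)) p14_6_2 (nat_lit 4) (nat_lit 25) (nat_lit 26) = true := by decide +kernel
def p14_6_2_26 : pfC (piC [(nat_lit 43428061), (nat_lit 27968816), (nat_lit 20557252), (nat_lit 13862945)] (nat_lit 6713858)) p14_6_2 (nat_lit 4) (nat_lit 26) (nat_lit 27) = true := by decide +kernel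
def p14_6_2_27 : pfC (piC [(nat_lit 43428061), (nat_lit 27968816), (nat_lit 20557252), (nat_lit 13862945)] (nat_lit 6713858)) p14_6_2 (nat_lit 4) (nat_lit 27) (nat_lit 28) = true := by decide +kernel
def p14_6_2_28 : pfC (piC [(nat_lit 43428061), (nat_lit 27968816), (nat_lit 20557252), (nat_lit 13862945)] (nat_lit 6713858)) p14_6_2 (nat_lit 4) (nat_lit 28) (nat_lit 29) = true := by decide +kernel
def p14_6_2_29 : pfC (piC [(nat_lit 43428061), (nat_lit 27968816), (nat_lit 20557252), (nat_lit 13862945)] (nat_lit 6713858)) p14_6_2 (nat_lit 4) (nat_lit 29) (nat_lit 30) = true := by decide +kernel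
def p14_6_2_30 : pfC (piC [(nat_lit 43428061), (nat_lit 27968816), (nat_lit 20557252), (nat_lit 13862945)] (nat_lit 6713858)) p14_6_2 (nat_lit 4) (nat_lit 30) (nat_lit 31) = true := by decide +kernel
def p14_6_2_31 : pfC (piC [(nat_lit 43428061), (nat_lit 27968816), (nat_lit 20557252), (nat_lit 13862945)] (nat_lit 6713858)) p14_6_2 (nat_lit 4) (nat_lit 31) (nat_lit 32) = true := by decide +kernel
def p14_6_2_32 : pfC (piC [(nat_lit 43428061), (nat_lit 27968816), (nat_lit 20557252), (nat_lit 13862945)] (nat_lit 6713858)) p14_6_2 (nat_lit 4) (nat_lit 32) (nat_lit 33) = true := by decide +kernel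
def p14_6_2_33 : pfC (piC [(nat_lit 43428061), (nat_lit 27968816), (nat_lit 20557252), (nat_lit 13862945)] (nat_lit 6713858)) p14_6_2 (nat_lit 4) (nat_lit 33) (nat_lit 34) = true := by decide +kernel
def p14_6_2_34 : pfC (piC [(nat_lit 43428061), (nat_lit 27968816), (nat_lit 20557252), (nat_lit 13862945)] (nat_lit 6713858)) p14_6_2 (nat_lit 4) (nat_lit 34) (nat_lit 35) = true := by decide +kernel
def p14_6_2_35 : pfC (piC [(nat_lit 43428061), (nat_lit 27968816), (nat_lit 20557252), (nat_lit 13862945)] (nat_lit 6713858)) p14_6_2 (nat_lit 4) (nat_lit 35) (nat_lit 36) = true := by decide +kernel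
def p14_6_2_36 : pfC (piC [(nat_lit 43428061), (nat_lit 27968816), (nat_lit 20557252), (nat_lit 13862945)] (nat_lit 6713858)) p14_6_2 (nat_lit 4) (nat_lit 36) (nat_lit 37) = true := by decide +kernel
def p14_6_2_37 : pfC (piC [(nat_lit 43428061), (nat_lit 27968816), (nat_lit 20557252), (nat_lit 13862945)] (nat_lit 6713858)) p14_6_2 (nat_lit 4) (nat_lit 37) (nat_lit 38) = true := by decide +kernel
theorem p14_6_2_T : PfS (PiF n14_6.reverse (nat_lit 6713858)) p14_6_2 (nat_lit 4) [] 0 :=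
  pftab_of (los := [(nat_lit 43428061), (nat_lit 27968816), (nat_lit 20557252), (nat_lit 13862945)]) (by decide +kernel) (hi := (nat_lit 38)) (PfP.trans (PfP.trans (PfP.trans (PfP.trans (PfP.trans (PfP.trans (PfP.trans (PfP.trans (PfP.trans (PfP.trans (PfP.trans (PfP.trans (PfP.trans (PfP.trans (PfP.trans (PfP.trans (PfP.trans (PfP.trans (PfP.trans (PfP.trans (PfP.trans (PfP.trans (PfP.trans (PfP.trans (PfP.trans (PfP.trans (PfP.trans (PfP.trans (PfP.trans (PfP.trans (PfP.trans (PfP.trans (PfP.trans (PfP.trans (PfP.trans (PfP.trans (PfP.trans (pfC_sound p14_6_2_0) (pfC_sound p14_6_2_1)) (pfC_sound p14_6_2_2)) (pfC_sound p14_6_2_3)) (pfC_sound p14_6_2_4)) (pfC_sound p14_6_2_5)) (pfC_sound p14_6_2_6)) (pfC_sound p14_6_2_7)) (pfC_sound p14_6_2_8)) (pfC_sound p14_6_2_9)) (pfC_sound p14_6_2_10)) (pfC_sound p14_6_2_11)) (pfC_sound p14_6_2_12)) (pfC_sound p14_6_2_13)) (pfC_sound p14_6_2_14)) (pfC_sound p14_6_2_15)) (pfC_sound p14_6_2_16)) (pfC_sound p14_6_2_17))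 (pfC_sound p14_6_2_18)) (pfC_sound p14_6_2_19)) (pfC_sound p14_6_2_20)) (pfC_sound p14_6_2_21)) (pfC_sound p14_6_2_22)) (pfC_sound p14_6_2_23)) (pfC_sound p14_6_2_24)) (pfC_sound p14_6_2_25)) (pfC_sound p14_6_2_26)) (pfC_sound p14_6_2_27)) (pfC_sound p14_6_2_28)) (pfC_sound p14_6_2_29)) (pfC_sound p14_6_2_30)) (pfC_sound p14_6_2_31)) (pfC_sound p14_6_2_32)) (pfC_sound
 p14_6_2_33)) (pfC_sound p14_6_2_34)) (pfC_sound p14_6_2_35)) (pfC_sound p14_6_2_36)) (pfC_sound p14_6_2_37)) (by decide +kernel)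

def z14_6_2 : zOK yB14_6 (nat_lit 2) (nat_lit 600) (nat_lit 750) (nat_lit 6713858) (nat_lit 4684051) = true := by decide +kernel
def g14_6_2 : gOK yB14_6.x P14_6 (nat_lit 1430) (q14_6 :: r14_6) (nat_lit 2) (nat_lit 600) (nat_lit 3) (nat_lit 750) (nat_lit 12712500) (nat_lit 12712500) (nat_lit 12712500) (nat_lit 12712500) [(nat_lit 800), (nat_lit 1600)] = true := by decide +kernel
def v14_6_2 : ivC P14_6 s14_6 w14_6 n14_6 (nat_lit 4) (nat_lit 4940) (nat_lit 2) (nat_lit 600) f128_1_600 f136_1_600 (nat_lit 3) (nat_lit 750) f128_1_750 f136_1_750 (nat_lit 6713858) (nat_lit 4684051) p14_6_2 = true := by decide +kernel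
def p14_6_3 : PF := (PF.cons (PF.cons (PF.cons (PF.cons (PF.leaf (nat_lit 3152758) (nat_lit 21807689) (nat_lit 45301123) (nat_lit 21807689) [(nat_lit 0), (nat_lit 0), (nat_lit 0), (nat_lit 0)]) (PF.cons (PF.leaf (nat_lit 3249183) (nat_lit 161506) (nat_lit 45173390) (nat_lit 21773915) [(nat_lit 161506), (nat_lit 0), (nat_lit 0), (nat_lit 0)]) (PF.cons (PF.leaf (nat_lit 3367529) (nat_lit 175645) (nat_lit 45023520) (nat_lit 21734002) [(nat_lit 175645), (nat_lit 0), (nat_lit 0), (nat_lit 0)]) (PF.cons (PF.leaf (nat_lit 3500143) (nat_lit 188220) (nat_lit 44855309) (nat_lit 21688842) [(nat_lit 188220), (nat_lit 0), (nat_lit 0), (nat_lit 0)]) (PF.cons (PF.leaf (nat_lit 3645632) (nat_lit 199593) (nat_lit 44671402) (nat_lit 21639037) [(nat_lit 199593), (nat_lit 0), (nat_lit 0), (nat_lit 0)]) (PF.cons (PF.leaf (nat_lit 3802032) (nat_lit 209996) (nat_lit 44473804) (nat_lit 21585027) [(nat_lit 209996), (nat_lit 0), (nat_lit 0), (nat_lit 0)]) (PF.cons (PF.leaf (nat_lit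 3968382) (nat_lit 219588) (nat_lit 44264123) (nat_lit 21527158) [(nat_lit 219588), (nat_lit 0), (nat_lit 0), (nat_lit 0)]) (PF.cons PF.nil (PF.cons PF.nil PF.nil))))))))) (PF.cons (PF.cons (PF.leaf (nat_lit 3554727) (nat_lit 894489) (nat_lit
 44597030) (nat_lit 21617292) [(nat_lit 0), (nat_lit 894489), (nat_lit 0), (nat_lit 0)]) (PF.cons (PF.leaf (nat_lit 3683888) (nat_lit 197611) (nat_lit 44426826) (nat_lit 21570601) [(nat_lit 197611), (nat_lit 913773), (nat_lit 0), (nat_lit 0)]) (PF.cons (PF.leaf (nat_lit 3828943) (nat_lit 208459) (nat_lit 44240030) (nat_lit 21518928) [(nat_lit 208459), (nat_lit 932935), (nat_lit 0), (nat_lit 0)]) (PF.cons (PF.leaf (nat_lit 3985527) (nat_lit 218338) (nat_lit 44039250) (nat_lit 21462889) [(nat_lit 218338), (nat_lit 951658), (nat_lit 0), (nat_lit 0)]) (PF.cons (PF.leaf (nat_lit 4152223) (nat_lit 227426) (nat_lit 43826408) (nat_lit 21402924) [(nat_lit 227426), (nat_lit 969774), (nat_lit 0), (nat_lit 0)]) (PF.cons PF.nil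 (PF.cons PF.nil PF.nil))))))) (PF.cons (PF.cons (PF.leaf (nat_lit 4017442) (nat_lit 960647) (nat_lit 43795040) (nat_lit 21392476) [(nat_lit 0), (nat_lit 960647), (nat_lit 0), (nat_lit 0)]) (PF.cons (PF.leaf (nat_lit 4171008) (nat_lit 225543) (nat_lit 43593679) (nat_lit 21335114) [(nat_lit 225543), (nat_lit 977237), (nat_lit 0), (nat_lit 0)]) (PF.cons (PF.leaf (nat_lit 4337097) (nat_lit 234284) (nat_lit 43379721) (nat_lit 21273614) [(nat_lit 234284), (nat_lit 993453),
 (nat_lit 0), (nat_lit 0)]) (PF.cons (PF.leaf (nat_lit 4512439) (nat_lit 242347) (nat_lit 43155031) (nat_lit 21208423) [(nat_lit 242347), (nat_lit 1009157), (nat_lit 0), (nat_lit 0)]) (PF.cons PF.nil PF.nil))))) (PF.cons (PF.cons (PF.leaf (nat_lit 4525173) (nat_lit 1014870) (nat_lit 42924828) (nat_lit 21139371) [(nat_lit 0), (nat_lit 1014870), (nat_lit 0), (nat_lit 0)]) (PF.cons (PF.leaf (nat_lit 4697743) (nat_lit 248065) (nat_lit 42700592) (nat_lit 21073052) [(nat_lit 248065), (nat_lit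 1029034), (nat_lit 0), (nat_lit 0)]) (PF.cons (PF.leaf (nat_lit 4880339) (nat_lit 255283) (nat_lit 42466758) (nat_lit 21003254) [(nat_lit 255283), (nat_lit 1042744), (nat_lit 0), (nat_lit 0)]) (PF.cons PF.nil PF.nil)))) (PF.cons (PF.cons (PF.leaf (nat_lit 5066516) (nat_lit 1059513) (nat_lit 42007984) (nat_lit 20862775) [(nat_lit 0), (nat_lit 1059513), (nat_lit 0), (nat_lit 0)]) (PF.cons PF.nil PF.nil)) (PF.cons PF.nil PF.nil)))))) (PF.cons (PF.cons (PF.cons (PF.leaf (nat_lit 4032275) (nat_lit 2553366) (nat_lit 43311267) (nat_lit 21244179) [(nat_lit 0), (nat_lit 0), (nat_lit 2553366), (nat_lit 0)]) (PF.cons (PF.leaf (nat_lit 4169239) (nat_lit 213803) (nat_lit 43132749) (nat_lit 21192322) [(nat_lit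
 213803), (nat_lit 0), (nat_lit 2569936), (nat_lit 0)]) (PF.cons (PF.leaf (nat_lit 4321444) (nat_lit 224137) (nat_lit 42938234) (nat_lit 21135377) [(nat_lit 224137), (nat_lit 0), (nat_lit 2586925), (nat_lit 0)]) (PF.cons (PF.leaf (nat_lit 4484651) (nat_lit 233414) (nat_lit 42730543) (nat_lit 21074071) [(nat_lit 233414), (nat_lit 0), (nat_lit 2603953), (nat_lit 0)]) (PF.cons (PF.leaf (nat_lit 4657364) (nat_lit 241853) (nat_lit 42511718) (nat_lit 21008919) [(nat_lit 241853), (nat_lit 0), (nat_lit 2620763), (nat_lit 0)]) (PF.cons PF.nil (PF.cons PF.nil PF.nil))))))) (PF.cons (PF.cons (PF.leaf (nat_lit 4509506) (nat_lit 1006481) (nat_lit 42486884) (nat_lit 20999913) [(nat_lit 0), (nat_lit 1006481), (nat_lit 2615532), (nat_lit 0)]) (PF.cons (PF.leaf (nat_lit 4668993) (nat_lit 239125) (nat_lit 42280589) (nat_lit 20937893) [(nat_lit 239125), (nat_lit 1020632), (nat_lit 2630572), (nat_lit 0)]) (PF.cons (PF.leaf (nat_lit 4840246) (nat_lit 247315) (nat_lit 42062488)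 (nat_lit 20871780) [(nat_lit 247315), (nat_lit 1034408), (nat_lit 2645504), (nat_lit 0)]) (PF.cons (PF.leaf (nat_lit 5020192) (nat_lit 254792) (nat_lit 41834519) (nat_lit 20802084) [(nat_lit 254792), (nat_lit 1047702), (nat_lit
 2660128), (nat_lit 0)]) (PF.cons PF.nil PF.nil))))) (PF.cons (PF.cons (PF.leaf (nat_lit 5025882) (nat_lit 1051451) (nat_lit 41607755) (nat_lit 20730551) [(nat_lit 0), (nat_lit 1051451), (nat_lit 2667602), (nat_lit 0)]) (PF.cons (PF.leaf (nat_lit 5202468) (nat_lit 259328) (nat_lit 41381722) (nat_lit 20660252) [(nat_lit 259328), (nat_lit 1063479), (nat_lit 2680550), (nat_lit 0)]) (PF.cons PF.nil (PF.cons PF.nil PF.nil)))) (PF.cons (PF.cons (PF.leaf (nat_lit 5570844) (nat_lit 1088338) (nat_lit 40693147) (nat_lit 20440906) [(nat_lit 0), (nat_lit 1088338), (nat_lit 2709743), (nat_lit 0)]) (PF.cons PF.nil PF.nil)) (PF.cons PF.nil PF.nil))))) (PF.cons (PF.cons (PF.cons (PF.leaf (nat_lit 4997369) (nat_lit 2663165) (nat_lit 41190911)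 (nat_lit 20591571) [(nat_lit 0), (nat_lit 0), (nat_lit 2663165), (nat_lit 0)]) (PF.cons (PF.leaf (nat_lit 5161112) (nat_lit 250188) (nat_lit 40982671) (nat_lit 20525901) [(nat_lit 250188), (nat_lit 0), (nat_lit 2675025), (nat_lit 0)]) (PF.cons (PF.leaf (nat_lit 5336123) (nat_lit 257886) (nat_lit 40763374) (nat_lit 20456219) [(nat_lit 257886), (nat_lit 0), (nat_lit 2686723), (nat_lit 0)]) (PF.cons PF.nil PF.nil)))) (PF.cons (PF.cons (PF.leaf (nat_lit 5518601)
 (nat_lit 1079520) (nat_lit 40313625) (nat_lit 20310060) [(nat_lit 0), (nat_lit 1079520), (nat_lit 2702803), (nat_lit 0)]) (PF.cons (PF.leaf (nat_lit 5697976) (nat_lit 268413) (nat_lit 40088273) (nat_lit 20236770) [(nat_lit 268413), (nat_lit 1089771), (nat_lit 2712791), (nat_lit 0)]) PF.nil)) (PF.cons PF.nil PF.nil))) (PF.cons (PF.cons (PF.cons (PF.leaf (nat_lit 6001805) (nat_lit 2725083) (nat_lit 39050895) (nat_lit 19882668) [(nat_lit 0), (nat_lit 0), (nat_lit 2725083), (nat_lit 0)]) (PF.cons PF.nil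 PF.nil)) (PF.cons PF.nil PF.nil)) (PF.cons PF.nil PF.nil))))) (PF.cons (PF.cons (PF.cons (PF.cons (PF.leaf (nat_lit 4717443) (nat_lit 6115325) (nat_lit 40623737) (nat_lit 20369749) [(nat_lit 0), (nat_lit 0), (nat_lit 0), (nat_lit 6115325)]) (PF.cons (PF.leaf (nat_lit 4856242) (nat_lit 222247) (nat_lit 40452456) (nat_lit 20315201) [(nat_lit 222247), (nat_lit 0), (nat_lit 0), (nat_lit 6118908)]) (PF.cons (PF.leaf (nat_lit 5009725) (nat_lit 232321) (nat_lit 40266380) (nat_lit 20255565) [(nat_lit 232321), (nat_lit 0), (nat_lit 0), (nat_lit 6122223)]) (PF.cons (PF.leaf (nat_lit 5173711) (nat_lit 241249) (nat_lit 40068290) (nat_lit 20191652) [(nat_lit 241249), (nat_lit 0), (nat_lit 0),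
 (nat_lit 6125121)]) (PF.cons (PF.leaf (nat_lit 5346643) (nat_lit 249274) (nat_lit 39860186) (nat_lit 20124038) [(nat_lit 249274), (nat_lit 0), (nat_lit 0), (nat_lit 6127489)]) (PF.cons PF.nil (PF.cons PF.nil PF.nil))))))) (PF.cons (PF.cons (PF.leaf (nat_lit 5191571) (nat_lit 1029374) (nat_lit 39839718) (nat_lit 20115884) [(nat_lit 0), (nat_lit 1029374), (nat_lit 0), (nat_lit 6123835)]) (PF.cons (PF.leaf (nat_lit 5351250) (nat_lit 245894) (nat_lit 39644012) (nat_lit 20051809) [(nat_lit 245894), (nat_lit 1041657), (nat_lit 0), (nat_lit 6125439)]) (PF.cons (PF.leaf (nat_lit 5521978) (nat_lit 253693) (nat_lit 39437629) (nat_lit 19983783) [(nat_lit 253693), (nat_lit 1053502), (nat_lit 0), (nat_lit 6126511)]) (PF.cons (PF.leaf (nat_lit 5700964) (nat_lit 260736) (nat_lit 39222438) (nat_lit 19912363) [(nat_lit 260736), (nat_lit 1064829), (nat_lit 0), (nat_lit 6126973)]) (PF.cons PF.nil PF.nil))))) (PF.cons (PF.cons (PF.leaf (nat_lit 5699807) (nat_lit 1066806)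 (nat_lit 39011607) (nat_lit 19840418) [(nat_lit 0), (nat_lit 1066806), (nat_lit 0), (nat_lit 6123173)]) (PF.cons (PF.leaf (nat_lit 5874983) (nat_lit 264313) (nat_lit 38799119) (nat_lit 19768917) [(nat_lit 264313), (nat_lit 1077014),
 (nat_lit 0), (nat_lit 6122432)]) (PF.cons PF.nil (PF.cons PF.nil PF.nil)))) (PF.cons (PF.cons (PF.leaf (nat_lit 6232227) (nat_lit 1096810) (nat_lit 38156787) (nat_lit 19548382) [(nat_lit 0), (nat_lit 1096810), (nat_lit 0), (nat_lit 6113213)]) (PF.cons PF.nil PF.nil)) (PF.cons PF.nil PF.nil))))) (PF.cons (PF.cons (PF.cons (PF.leaf (nat_lit 5658524) (nat_lit 2667531) (nat_lit 38632876) (nat_lit 19704726) [(nat_lit 0), (nat_lit 0), (nat_lit 2667531), (nat_lit 6103678)]) (PF.cons (PF.leaf (nat_lit 5821227) (nat_lit 254688) (nat_lit 38437287) (nat_lit 19638211) [(nat_lit 254688), (nat_lit 0), (nat_lit 2676143), (nat_lit 6102482)]) (PF.cons (PF.leaf (nat_lit 5994516) (nat_lit 262012) (nat_lit 38231715) (nat_lit 19567865) [(nat_lit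 262012), (nat_lit 0), (nat_lit 2684527), (nat_lit 6100678)]) (PF.cons PF.nil PF.nil)))) (PF.cons (PF.cons (PF.leaf (nat_lit 6168654) (nat_lit 1086676) (nat_lit 37813672) (nat_lit 19422002) [(nat_lit 0), (nat_lit 1086676), (nat_lit 2694474), (nat_lit 6091986)]) (PF.cons (PF.leaf (nat_lit 6345588) (nat_lit 271327) (nat_lit 37603475) (nat_lit 19348698) [(nat_lit 271327), (nat_lit 1095372), (nat_lit 2701394), (nat_lit 6088545)]) PF.nil)) (PF.cons PF.nil PF.nil)))
 (PF.cons (PF.cons (PF.cons (PF.leaf (nat_lit 6627414) (nat_lit 2703161) (nat_lit 36651205) (nat_lit 19002384) [(nat_lit 0), (nat_lit 0), (nat_lit 2703161), (nat_lit 6048899)]) (PF.cons PF.nil PF.nil)) (PF.cons PF.nil PF.nil)) PF.nil))) (PF.cons (PF.cons (PF.cons (PF.cons (PF.leaf (nat_lit 6274646) (nat_lit 5983174) (nat_lit 36298222) (nat_lit 18844242) [(nat_lit 0), (nat_lit 0), (nat_lit 0), (nat_lit 5983174)]) (PF.cons (PF.leaf (nat_lit 6435320) (nat_lit 256733) (nat_lit 36115901) (nat_lit 18778393)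 [(nat_lit 256733), (nat_lit 0), (nat_lit 0), (nat_lit 5978892)]) (PF.cons (PF.leaf (nat_lit 6606229) (nat_lit 263712) (nat_lit 35924555) (nat_lit 18708922) [(nat_lit 263712), (nat_lit 0), (nat_lit 0), (nat_lit 5973955)]) (PF.cons PF.nil PF.nil)))) (PF.cons (PF.cons (PF.leaf (nat_lit 6772205) (nat_lit 1085106) (nat_lit 35538261) (nat_lit 18566229) [(nat_lit 0), (nat_lit 1085106), (nat_lit 0), (nat_lit 5959608)]) (PF.cons PF.nil PF.nil)) (PF.cons PF.nil PF.nil))) (PF.cons (PF.cons (PF.cons (PF.leaf (nat_lit 7208076) (nat_lit 2667010) (nat_lit 34472143) (nat_lit 18160795) [(nat_lit 0), (nat_lit 0), (nat_lit 2667010), (nat_lit 5904431)]) (PF.cons PF.nil PF.nil)) PF.nil) PF.nil)) (PF.cons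
 PF.nil (PF.cons PF.nil (PF.cons PF.nil PF.nil))))))

def p14_6_3_0 : pfC (piC [(nat_lit 43428061), (nat_lit 27968816), (nat_lit 20557252), (nat_lit 13862945)] (nat_lit 4684051)) p14_6_3 (nat_lit 4) (nat_lit 0) (nat_lit 1) = true := by decide +kernel
def p14_6_3_1 : pfC (piC [(nat_lit 43428061), (nat_lit 27968816), (nat_lit 20557252), (nat_lit 13862945)] (nat_lit 4684051)) p14_6_3 (nat_lit 4) (nat_lit 1) (nat_lit 2) = true := by decide +kernel
def p14_6_3_2 : pfC (piC [(nat_lit 43428061), (nat_lit 27968816), (nat_lit 20557252), (nat_lit 13862945)] (nat_lit 4684051)) p14_6_3 (nat_lit 4) (nat_lit 2) (nat_lit 3) = true := by decide +kernel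
def p14_6_3_3 : pfC (piC [(nat_lit 43428061), (nat_lit 27968816), (nat_lit 20557252), (nat_lit 13862945)] (nat_lit 4684051)) p14_6_3 (nat_lit 4) (nat_lit 3) (nat_lit 4) = true := by decide +kernel
def p14_6_3_4 : pfC (piC [(nat_lit 43428061), (nat_lit 27968816), (nat_lit 20557252), (nat_lit 13862945)] (nat_lit 4684051)) p14_6_3 (nat_lit 4) (nat_lit 4) (nat_lit 5) = true := by decide +kernel
def p14_6_3_5 : pfC (piC [(nat_lit 43428061), (nat_lit 27968816), (nat_lit 20557252), (nat_lit 13862945)] (nat_lit 4684051)) p14_6_3 (nat_lit 4) (nat_lit 5) (nat_lit 6) = true := by decide +kernel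
def p14_6_3_6 : pfC (piC [(nat_lit 43428061), (nat_lit 27968816), (nat_lit 20557252), (nat_lit 13862945)] (nat_lit 4684051)) p14_6_3 (nat_lit 4) (nat_lit 6) (nat_lit 7) = true := by decide +kernel
def p14_6_3_7 : pfC (piC [(nat_lit 43428061), (nat_lit 27968816), (nat_lit 20557252), (nat_lit 13862945)] (nat_lit 4684051)) p14_6_3 (nat_lit 4) (nat_lit 7) (nat_lit 8) = true := by decide +kernel
def p14_6_3_8 : pfC (piC [(nat_lit 43428061), (nat_lit 27968816), (nat_lit 20557252), (nat_lit 13862945)] (nat_lit 4684051)) p14_6_3 (nat_lit 4) (nat_lit 8) (nat_lit 9) = true := by decide +kernel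
def p14_6_3_9 : pfC (piC [(nat_lit 43428061), (nat_lit 27968816), (nat_lit 20557252), (nat_lit 13862945)] (nat_lit 4684051)) p14_6_3 (nat_lit 4) (nat_lit 9) (nat_lit 10) = true := by decide +kernel
def p14_6_3_10 : pfC (piC [(nat_lit 43428061), (nat_lit 27968816), (nat_lit 20557252), (nat_lit 13862945)] (nat_lit 4684051)) p14_6_3 (nat_lit 4) (nat_lit 10) (nat_lit 11) = true := by decide +kernel
def p14_6_3_11 : pfC (piC [(nat_lit 43428061), (nat_lit 27968816), (nat_lit 20557252), (nat_lit 13862945)] (nat_lit 4684051)) p14_6_3 (nat_lit 4) (nat_lit 11) (nat_lit 12) = true := by decide +kernel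
def p14_6_3_12 : pfC (piC [(nat_lit 43428061), (nat_lit 27968816), (nat_lit 20557252), (nat_lit 13862945)] (nat_lit 4684051)) p14_6_3 (nat_lit 4) (nat_lit 12) (nat_lit 13) = true := by decide +kernel
def p14_6_3_13 : pfC (piC [(nat_lit 43428061), (nat_lit 27968816), (nat_lit 20557252), (nat_lit 13862945)] (nat_lit 4684051)) p14_6_3 (nat_lit 4) (nat_lit 13) (nat_lit 14) = true := by decide +kernel
def p14_6_3_14 : pfC (piC [(nat_lit 43428061), (nat_lit 27968816), (nat_lit 20557252), (nat_lit 13862945)] (nat_lit 4684051)) p14_6_3 (nat_lit 4) (nat_lit 14) (nat_lit 15) = true := by decide +kernel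
def p14_6_3_15 : pfC (piC [(nat_lit 43428061), (nat_lit 27968816), (nat_lit 20557252), (nat_lit 13862945)] (nat_lit 4684051)) p14_6_3 (nat_lit 4) (nat_lit 15) (nat_lit 16) = true := by decide +kernel
def p14_6_3_16 : pfC (piC [(nat_lit 43428061), (nat_lit 27968816), (nat_lit 20557252), (nat_lit 13862945)] (nat_lit 4684051)) p14_6_3 (nat_lit 4) (nat_lit 16) (nat_lit 17) = true := by decide +kernel
def p14_6_3_17 : pfC (piC [(nat_lit 43428061), (nat_lit 27968816), (nat_lit 20557252), (nat_lit 13862945)] (nat_lit 4684051)) p14_6_3 (nat_lit 4) (nat_lit 17) (nat_lit 18) = true := by decide +kernel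
def p14_6_3_18 : pfC (piC [(nat_lit 43428061), (nat_lit 27968816), (nat_lit 20557252), (nat_lit 13862945)] (nat_lit 4684051)) p14_6_3 (nat_lit 4) (nat_lit 18) (nat_lit 19) = true := by decide +kernel
def p14_6_3_19 : pfC (piC [(nat_lit 43428061), (nat_lit 27968816), (nat_lit 20557252), (nat_lit 13862945)] (nat_lit 4684051)) p14_6_3 (nat_lit 4) (nat_lit 19) (nat_lit 20) = true := by decide +kernel
def p14_6_3_20 : pfC (piC [(nat_lit 43428061), (nat_lit 27968816), (nat_lit 20557252), (nat_lit 13862945)] (nat_lit 4684051)) p14_6_3 (nat_lit 4) (nat_lit 20) (nat_lit 21) = true := by decide +kernel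
def p14_6_3_21 : pfC (piC [(nat_lit 43428061), (nat_lit 27968816), (nat_lit 20557252), (nat_lit 13862945)] (nat_lit 4684051)) p14_6_3 (nat_lit 4) (nat_lit 21) (nat_lit 22) = true := by decide +kernel
def p14_6_3_22 : pfC (piC [(nat_lit 43428061), (nat_lit 27968816), (nat_lit 20557252), (nat_lit 13862945)] (nat_lit 4684051)) p14_6_3 (nat_lit 4) (nat_lit 22) (nat_lit 23) = true := by decide +kernel
def p14_6_3_23 : pfC (piC [(nat_lit 43428061), (nat_lit 27968816), (nat_lit 20557252), (nat_lit 13862945)] (nat_lit 4684051)) p14_6_3 (nat_lit 4) (nat_lit 23) (nat_lit 24) = true := by decide +kernel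
def p14_6_3_24 : pfC (piC [(nat_lit 43428061), (nat_lit 27968816), (nat_lit 20557252), (nat_lit 13862945)] (nat_lit 4684051)) p14_6_3 (nat_lit 4) (nat_lit 24) (nat_lit 25) = true := by decide +kernel
def p14_6_3_25 : pfC (piC [(nat_lit 43428061), (nat_lit 27968816), (nat_lit 20557252), (nat_lit 13862945)] (nat_lit 4684051)) p14_6_3 (nat_lit 4) (nat_lit 25) (nat_lit 26) = true := by decide +kernel
def p14_6_3_26 : pfC (piC [(nat_lit 43428061), (nat_lit 27968816), (nat_lit 20557252), (nat_lit 13862945)] (nat_lit 4684051)) p14_6_3 (nat_lit 4) (nat_lit 26) (nat_lit 27) = true := by decide +kernel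
def p14_6_3_27 : pfC (piC [(nat_lit 43428061), (nat_lit 27968816), (nat_lit 20557252), (nat_lit 13862945)] (nat_lit 4684051)) p14_6_3 (nat_lit 4) (nat_lit 27) (nat_lit 28) = true := by decide +kernel
def p14_6_3_28 : pfC (piC [(nat_lit 43428061), (nat_lit 27968816), (nat_lit 20557252), (nat_lit 13862945)] (nat_lit 4684051)) p14_6_3 (nat_lit 4) (nat_lit 28) (nat_lit 29) = true := by decide +kernel
def p14_6_3_29 : pfC (piC [(nat_lit 43428061), (nat_lit 27968816), (nat_lit 20557252), (nat_lit 13862945)] (nat_lit 4684051)) p14_6_3 (nat_lit 4) (nat_lit 29) (nat_lit 30) = true := by decide +kernel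
def p14_6_3_30 : pfC (piC [(nat_lit 43428061), (nat_lit 27968816), (nat_lit 20557252), (nat_lit 13862945)] (nat_lit 4684051)) p14_6_3 (nat_lit 4) (nat_lit 30) (nat_lit 31) = true := by decide +kernel
def p14_6_3_31 : pfC (piC [(nat_lit 43428061), (nat_lit 27968816), (nat_lit 20557252), (nat_lit 13862945)] (nat_lit 4684051)) p14_6_3 (nat_lit 4) (nat_lit 31) (nat_lit 32) = true := by decide +kernel
def p14_6_3_32 : pfC (piC [(nat_lit 43428061), (nat_lit 27968816), (nat_lit 20557252), (nat_lit 13862945)] (nat_lit 4684051)) p14_6_3 (nat_lit 4) (nat_lit 32) (nat_lit 33) = true := by decide +kernel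
def p14_6_3_33 : pfC (piC [(nat_lit 43428061), (nat_lit 27968816), (nat_lit 20557252), (nat_lit 13862945)] (nat_lit 4684051)) p14_6_3 (nat_lit 4) (nat_lit 33) (nat_lit 34) = true := by decide +kernel
def p14_6_3_34 : pfC (piC [(nat_lit 43428061), (nat_lit 27968816), (nat_lit 20557252), (nat_lit 13862945)] (nat_lit 4684051)) p14_6_3 (nat_lit 4) (nat_lit 34) (nat_lit 35) = true := by decide +kernel
def p14_6_3_35 : pfC (piC [(nat_lit 43428061), (nat_lit 27968816), (nat_lit 20557252), (nat_lit 13862945)] (nat_lit 4684051)) p14_6_3 (nat_lit 4) (nat_lit 35) (nat_lit 36) = true := by decide +kernel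
def p14_6_3_36 : pfC (piC [(nat_lit 43428061), (nat_lit 27968816), (nat_lit 20557252), (nat_lit 13862945)] (nat_lit 4684051)) p14_6_3 (nat_lit 4) (nat_lit 36) (nat_lit 37) = true := by decide +kernel
def p14_6_3_37 : pfC (piC [(nat_lit 43428061), (nat_lit 27968816), (nat_lit 20557252), (nat_lit 13862945)] (nat_lit 4684051)) p14_6_3 (nat_lit 4) (nat_lit 37) (nat_lit 38) = true := by decide +kernel
def p14_6_3_38 : pfC (piC [(nat_lit 43428061), (nat_lit 27968816), (nat_lit 20557252), (nat_lit 13862945)] (nat_lit 4684051)) p14_6_3 (nat_lit 4) (nat_lit 38) (nat_lit 39) = true := by decide +kernel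
def p14_6_3_39 : pfC (piC [(nat_lit 43428061), (nat_lit 27968816), (nat_lit 20557252), (nat_lit 13862945)] (nat_lit 4684051)) p14_6_3 (nat_lit 4) (nat_lit 39) (nat_lit 40) = true := by decide +kernel
def p14_6_3_40 : pfC (piC [(nat_lit 43428061), (nat_lit 27968816), (nat_lit 20557252), (nat_lit 13862945)] (nat_lit 4684051)) p14_6_3 (nat_lit 4) (nat_lit 40) (nat_lit 41) = true := by decide +kernel
def p14_6_3_41 : pfC (piC [(nat_lit 43428061), (nat_lit 27968816), (nat_lit 20557252), (nat_lit 13862945)] (nat_lit 4684051)) p14_6_3 (nat_lit 4) (nat_lit 41) (nat_lit 42) = true := by decide +kernel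
def p14_6_3_42 : pfC (piC [(nat_lit 43428061), (nat_lit 27968816), (nat_lit 20557252), (nat_lit 13862945)] (nat_lit 4684051)) p14_6_3 (nat_lit 4) (nat_lit 42) (nat_lit 43) = true := by decide +kernel
def p14_6_3_43 : pfC (piC [(nat_lit 43428061), (nat_lit 27968816), (nat_lit 20557252), (nat_lit 13862945)] (nat_lit 4684051)) p14_6_3 (nat_lit 4) (nat_lit 43) (nat_lit 44) = true := by decide +kernel
def p14_6_3_44 : pfC (piC [(nat_lit 43428061), (nat_lit 27968816), (nat_lit 20557252), (nat_lit 13862945)] (nat_lit 4684051)) p14_6_3 (nat_lit 4) (nat_lit 44) (nat_lit 45) = true := by decide +kernel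
def p14_6_3_45 : pfC (piC [(nat_lit 43428061), (nat_lit 27968816), (nat_lit 20557252), (nat_lit 13862945)] (nat_lit 4684051)) p14_6_3 (nat_lit 4) (nat_lit 45) (nat_lit 46) = true := by decide +kernel
def p14_6_3_46 : pfC (piC [(nat_lit 43428061), (nat_lit 27968816), (nat_lit 20557252), (nat_lit 13862945)] (nat_lit 4684051)) p14_6_3 (nat_lit 4) (nat_lit 46) (nat_lit 47) = true := by decide +kernel
def p14_6_3_47 : pfC (piC [(nat_lit 43428061), (nat_lit 27968816), (nat_lit 20557252), (nat_lit 13862945)] (nat_lit 4684051)) p14_6_3 (nat_lit 4) (nat_lit 47) (nat_lit 48) = true := by decide +kernel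
def p14_6_3_48 : pfC (piC [(nat_lit 43428061), (nat_lit 27968816), (nat_lit 20557252), (nat_lit 13862945)] (nat_lit 4684051)) p14_6_3 (nat_lit 4) (nat_lit 48) (nat_lit 49) = true := by decide +kernel
def p14_6_3_49 : pfC (piC [(nat_lit 43428061), (nat_lit 27968816), (nat_lit 20557252), (nat_lit 13862945)] (nat_lit 4684051)) p14_6_3 (nat_lit 4) (nat_lit 49) (nat_lit 50) = true := by decide +kernel
def p14_6_3_50 : pfC (piC [(nat_lit 43428061), (nat_lit 27968816), (nat_lit 20557252), (nat_lit 13862945)] (nat_lit 4684051)) p14_6_3 (nat_lit 4) (nat_lit 50) (nat_lit 51) = true := by decide +kernel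
def p14_6_3_51 : pfC (piC [(nat_lit 43428061), (nat_lit 27968816), (nat_lit 20557252), (nat_lit 13862945)] (nat_lit 4684051)) p14_6_3 (nat_lit 4) (nat_lit 51) (nat_lit 52) = true := by decide +kernel
def p14_6_3_52 : pfC (piC [(nat_lit 43428061), (nat_lit 27968816), (nat_lit 20557252), (nat_lit 13862945)] (nat_lit 4684051)) p14_6_3 (nat_lit 4) (nat_lit 52) (nat_lit 53) = true := by decide +kernel
def p14_6_3_53 : pfC (piC [(nat_lit 43428061), (nat_lit 27968816), (nat_lit 20557252), (nat_lit 13862945)] (nat_lit 4684051)) p14_6_3 (nat_lit 4) (nat_lit 53) (nat_lit 54) = true := by decide +kernel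
def p14_6_3_54 : pfC (piC [(nat_lit 43428061), (nat_lit 27968816), (nat_lit 20557252), (nat_lit 13862945)] (nat_lit 4684051)) p14_6_3 (nat_lit 4) (nat_lit 54) (nat_lit 55) = true := by decide +kernel
def p14_6_3_55 : pfC (piC [(nat_lit 43428061), (nat_lit 27968816), (nat_lit 20557252), (nat_lit 13862945)] (nat_lit 4684051)) p14_6_3 (nat_lit 4) (nat_lit 55) (nat_lit 56) = true := by decide +kernel
def p14_6_3_56 : pfC (piC [(nat_lit 43428061), (nat_lit 27968816), (nat_lit 20557252), (nat_lit 13862945)] (nat_lit 4684051)) p14_6_3 (nat_lit 4) (nat_lit 56) (nat_lit 57) = true := by decide +kernel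
def p14_6_3_57 : pfC (piC [(nat_lit 43428061), (nat_lit 27968816), (nat_lit 20557252), (nat_lit 13862945)] (nat_lit 4684051)) p14_6_3 (nat_lit 4) (nat_lit 57) (nat_lit 58) = true := by decide +kernel
def p14_6_3_58 : pfC (piC [(nat_lit 43428061), (nat_lit 27968816), (nat_lit 20557252), (nat_lit 13862945)] (nat_lit 4684051)) p14_6_3 (nat_lit 4) (nat_lit 58) (nat_lit 59) = true := by decide +kernel
def p14_6_3_59 : pfC (piC [(nat_lit 43428061), (nat_lit 27968816), (nat_lit 20557252), (nat_lit 13862945)] (nat_lit 4684051)) p14_6_3 (nat_lit 4) (nat_lit 59) (nat_lit 60) = true := by decide +kernel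
def p14_6_3_60 : pfC (piC [(nat_lit 43428061), (nat_lit 27968816), (nat_lit 20557252), (nat_lit 13862945)] (nat_lit 4684051)) p14_6_3 (nat_lit 4) (nat_lit 60) (nat_lit 61) = true := by decide +kernel
theorem p14_6_3_T : PfS (PiF n14_6.reverse (nat_lit 4684051)) p14_6_3 (nat_lit 4) [] 0 :=
  pftab_of (los := [(nat_lit 43428061), (nat_lit 27968816), (nat_lit 20557252), (nat_lit 13862945)]) (by decide +kernel) (hi := (nat_lit 61)) (PfP.trans (PfP.trans (PfP.trans (PfP.trans (PfP.trans (PfP.trans (PfP.trans (PfP.trans (PfP.trans (PfP.trans (PfP.trans (PfP.trans (PfP.trans (PfP.trans (PfP.trans (PfP.trans (PfP.trans (PfP.trans (PfP.trans (PfP.trans (PfP.trans (PfP.trans (PfP.trans (PfP.trans (PfP.trans (PfP.trans (PfP.trans (PfP.trans (PfP.trans (PfP.trans (PfP.trans (PfP.trans (PfP.trans (PfP.trans (PfP.trans (PfP.trans (PfP.trans (PfP.trans (PfP.trans (PfP.trans (PfP.trans (PfP.trans (PfP.trans (PfP.trans (PfP.trans (PfP.trans (PfP.trans (PfP.trans (PfP.trans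 (PfP.trans (PfP.trans (PfP.trans (PfP.trans (PfP.trans (PfP.trans (PfP.trans (PfP.trans (PfP.trans (PfP.trans (PfP.trans (pfC_sound p14_6_3_0) (pfC_sound p14_6_3_1)) (pfC_sound p14_6_3_2)) (pfC_sound p14_6_3_3)) (pfC_sound p14_6_3_4)) (pfC_sound p14_6_3_5)) (pfC_sound p14_6_3_6)) (pfC_sound p14_6_3_7)) (pfC_sound p14_6_3_8)) (pfC_sound p14_6_3_9)) (pfC_sound p14_6_3_10)) (pfC_sound p14_6_3_11)) (pfC_sound p14_6_3_12)) (pfC_sound p14_6_3_13)) (pfC_sound p14_6_3_14)) (pfC_sound p14_6_3_15)) (pfC_sound p14_6_3_16)) (pfC_sound p14_6_3_17)) (pfC_sound p14_6_3_18)) (pfC_sound p14_6_3_19)) (pfC_sound p14_6_3_20)) (pfC_sound p14_6_3_21)) (pfC_sound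
 p14_6_3_22)) (pfC_sound p14_6_3_23)) (pfC_sound p14_6_3_24)) (pfC_sound p14_6_3_25)) (pfC_sound p14_6_3_26)) (pfC_sound p14_6_3_27)) (pfC_sound p14_6_3_28)) (pfC_sound p14_6_3_29)) (pfC_sound p14_6_3_30)) (pfC_sound p14_6_3_31)) (pfC_sound p14_6_3_32)) (pfC_sound p14_6_3_33)) (pfC_sound p14_6_3_34)) (pfC_sound p14_6_3_35)) (pfC_sound p14_6_3_36)) (pfC_sound p14_6_3_37)) (pfC_sound p14_6_3_38)) (pfC_sound p14_6_3_39)) (pfC_sound p14_6_3_40)) (pfC_sound p14_6_3_41)) (pfC_sound p14_6_3_42)) (pfC_sound p14_6_3_43)) (pfC_sound p14_6_3_44)) (pfC_sound p14_6_3_45)) (pfC_sound p14_6_3_46)) (pfC_sound p14_6_3_47)) (pfC_sound p14_6_3_48)) (pfC_sound p14_6_3_49)) (pfC_sound p14_6_3_50)) (pfC_sound p14_6_3_51)) (pfC_sound p14_6_3_52)) (pfC_sound p14_6_3_53)) (pfC_sound p14_6_3_54)) (pfC_sound p14_6_3_55)) (pfC_sound p14_6_3_56)) (pfC_sound p14_6_3_57)) (pfC_sound p14_6_3_58)) (pfC_sound p14_6_3_59)) (pfC_sound p14_6_3_60)) (by decide +kernel)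

def z14_6_3 : zOK yB14_6 (nat_lit 3) (nat_lit 750) (nat_lit 943) (nat_lit 4684051) (nat_lit 2626645) = true := by decide +kernel
def g14_6_3 : gOK yB14_6.x P14_6 (nat_lit 1430) (q14_6 :: r14_6) (nat_lit 3) (nat_lit 750) (nat_lit 4) (nat_lit 943) (nat_lit 12712500) (nat_lit 12712500) (nat_lit 12712500) (nat_lit 12712500) [(nat_lit 800)] = true := by decide +kernel
def v14_6_3 : ivC P14_6 s14_6 w14_6 n14_6 (nat_lit 4) (nat_lit 4790) (nat_lit 3) (nat_lit 750) f128_1_750 f136_1_750 (nat_lit 4) (nat_lit 943) f128_1_943 f136_1_943 (nat_lit 4684051) (nat_lit 2626645) p14_6_3 = true := by decide +kernel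
/-! box `yB14_7` -/

def P14_7 : BQ := ⟨(nat_lit 8), (nat_lit 8), (nat_lit 0), (nat_lit 4), (nat_lit 4), (nat_lit 680), (nat_lit 700), (nat_lit 120), [(nat_lit 200), (nat_lit 300), (nat_lit 450), (nat_lit 800)], (nat_lit 68592000), (nat_lit 16000000), (nat_lit 16000000000)⟩
def q14_7 : PC := ⟨(nat_lit 1000), [(nat_lit 120000), (nat_lit 200000), (nat_lit 300000), (nat_lit 450000), (nat_lit 800000)], (nat_lit 340282367000166625996085689103316680705000000), (nat_lit 15931408000000), (nat_lit 15931408000000), (nat_lit 10000000)⟩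
def r14_7 : List PC := [⟨(nat_lit 1317), [(nat_lit 120536), (nat_lit 200974), (nat_lit 301690), (nat_lit 451943), (nat_lit 798965)], (nat_lit 342314873578313922510568923481424503302475226), (nat_lit 16317432329280), (nat_lit 16329437246080), (nat_lit 10056334)⟩]
def s14_7 : List PB := [⟨(nat_lit 26340), (nat_lit 1928576000000), [(nat_lit 200974), (nat_lit 301690), (nat_lit 451943), (nat_lit 798965)], (nat_lit 342314873578313922510568923481424503302475226), (nat_lit 1142217339171904), (nat_lit 1142229344088704), (nat_lit 50720)⟩]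
def n14_7 : List KN := [⟨(nat_lit 800), (nat_lit 450), (nat_lit 13743659), (nat_lit 8051968)⟩, ⟨(nat_lit 450), (nat_lit 300), (nat_lit 20402210), (nat_lit 13743659)⟩, ⟨(nat_lit 300), (nat_lit 200), (nat_lit 27646207), (nat_lit 20402210)⟩, ⟨(nat_lit 200), (nat_lit 120), (nat_lit 44228488), (nat_lit 27646207)⟩]
def w14_7 : List ℕ := [(nat_lit 50720)]
def par14_7 : parC yB14_7 P14_7 s14_7 r14_7 q14_7 n14_7 w14_7 = true := by decide +kernel

def p14_7_0 : PF := (PF.cons (PF.cons (PF.cons (PF.cons (PF.leaf (nat_lit 462033) (nat_lit 1246186) (nat_lit 65862626) (nat_lit 1246186) [(nat_lit 0), (nat_lit 0), (nat_lit 0), (nat_lit 0)]) (PF.cons (PF.leaf (nat_lit 536008) (nat_lit 113759) (nat_lit 65716532) (nat_lit 1278521) [(nat_lit 113759), (nat_lit 0), (nat_lit 0), (nat_lit 0)]) (PF.cons (PF.leaf (nat_lit 636148) (nat_lit 126113) (nat_lit 65541761) (nat_lit 1314824) [(nat_lit 126113), (nat_lit 0), (nat_lit 0), (nat_lit 0)]) (PF.cons (PF.leaf (nat_lit 750106)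 (nat_lit 137844) (nat_lit 65341555) (nat_lit 1353724) [(nat_lit 137844), (nat_lit 0), (nat_lit 0), (nat_lit 0)]) (PF.cons (PF.leaf (nat_lit 878379) (nat_lit 149116) (nat_lit 65118061) (nat_lit 1394285) [(nat_lit 149116), (nat_lit 0), (nat_lit 0), (nat_lit 0)]) (PF.cons (PF.leaf (nat_lit 1019157) (nat_lit 160019) (nat_lit 64872883) (nat_lit 1435830) [(nat_lit 160019), (nat_lit 0), (nat_lit 0), (nat_lit 0)]) (PF.cons PF.nil PF.nil))))))) (PF.cons (PF.cons (PF.leaf (nat_lit 850129) (nat_lit 751252) (nat_lit 64946271) (nat_lit 1411289) [(nat_lit 0), (nat_lit 751252), (nat_lit 0), (nat_lit 0)]) (PF.cons (PF.leaf (nat_lit 964603) (nat_lit 152798) (nat_lit 64731751) (nat_lit 1446603) [(nat_lit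
 152798), (nat_lit 777660), (nat_lit 0), (nat_lit 0)]) (PF.cons (PF.leaf (nat_lit 1098149) (nat_lit 163825) (nat_lit 64492352) (nat_lit 1483757) [(nat_lit 163825), (nat_lit 805052), (nat_lit 0), (nat_lit 0)]) (PF.cons (PF.leaf (nat_lit 1245423) (nat_lit 174419) (nat_lit 64230625) (nat_lit 1522002) [(nat_lit 174419), (nat_lit 832925), (nat_lit 0), (nat_lit 0)]) (PF.cons (PF.leaf (nat_lit 1404835) (nat_lit 184658) (nat_lit 63948429) (nat_lit 1560801) [(nat_lit 184658), (nat_lit 860945), (nat_lit 0), (nat_lit 0)]) PF.nil))))) (PF.cons (PF.cons (PF.leaf (nat_lit 1332209) (nat_lit 861055) (nat_lit 63819622) (nat_lit 1567079) [(nat_lit 0), (nat_lit 861055), (nat_lit 0), (nat_lit 0)]) (PF.cons (PF.leaf (nat_lit 1480442) (nat_lit 187614) (nat_lit 63545995) (nat_lit 1602059) [(nat_lit 187614), (nat_lit 886571), (nat_lit 0), (nat_lit 0)]) (PF.cons (PF.leaf (nat_lit 1644712) (nat_lit 197597) (nat_lit 63251105) (nat_lit 1637731) [(nat_lit 197597), (nat_lit 912391),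 (nat_lit 0), (nat_lit 0)]) (PF.cons PF.nil PF.nil)))) (PF.cons (PF.cons (PF.leaf (nat_lit 1893765) (nat_lit 960296) (nat_lit 62518716) (nat_lit 1709206) [(nat_lit 0), (nat_lit 960296), (nat_lit 0), (nat_lit 0)]) (PF.cons (PF.leaf
 (nat_lit 2070893) (nat_lit 218862) (nat_lit 62195405) (nat_lit 1742166) [(nat_lit 218862), (nat_lit 984125), (nat_lit 0), (nat_lit 0)]) PF.nil)) (PF.cons PF.nil (PF.cons PF.nil PF.nil)))))) (PF.cons (PF.cons (PF.cons (PF.leaf (nat_lit 1405208) (nat_lit 1603295) (nat_lit 63070563) (nat_lit 1603295) [(nat_lit 0), (nat_lit 0), (nat_lit 2434953), (nat_lit 0)]) (PF.cons (PF.leaf (nat_lit 1537350) (nat_lit 180982) (nat_lit 62823708) (nat_lit 1633646) [(nat_lit 180982), (nat_lit 0), (nat_lit 2470476), (nat_lit 0)]) (PF.cons (PF.leaf (nat_lit 1687398) (nat_lit 192043) (nat_lit 62551415) (nat_lit 1665417) [(nat_lit 192043), (nat_lit 0), (nat_lit 2507893), (nat_lit 0)]) (PF.cons (PF.leaf (nat_lit 1850665) (nat_lit 202451) (nat_lit 62257052)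 (nat_lit 1697970) [(nat_lit 202451), (nat_lit 0), (nat_lit 2546434), (nat_lit 0)]) (PF.cons PF.nil PF.nil))))) (PF.cons (PF.cons (PF.leaf (nat_lit 1932857) (nat_lit 968281) (nat_lit 61814617) (nat_lit 1733745) [(nat_lit 0), (nat_lit 968281), (nat_lit 2592168), (nat_lit 0)]) (PF.cons (PF.leaf (nat_lit 2096163) (nat_lit 213674) (nat_lit 61513577) (nat_lit 1763450) [(nat_lit 213674), (nat_lit 990731), (nat_lit 2627379), (nat_lit 0)]) (PF.cons (PF.leaf
 (nat_lit 2274093) (nat_lit 223325) (nat_lit 61191986) (nat_lit 1793614) [(nat_lit 223325), (nat_lit 1013312), (nat_lit 2663247), (nat_lit 0)]) (PF.cons PF.nil PF.nil)))) (PF.cons (PF.cons (PF.leaf (nat_lit 2529050) (nat_lit 1053161) (nat_lit 60415496) (nat_lit 1851817) [(nat_lit 0), (nat_lit 1053161), (nat_lit 2735176), (nat_lit 0)]) (PF.cons (PF.leaf (nat_lit 2718103) (nat_lit 242291) (nat_lit 60071305) (nat_lit 1879481) [(nat_lit 242291), (nat_lit 1073836), (nat_lit 2768060), (nat_lit 0)]) PF.nil)) (PF.cons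 PF.nil (PF.cons PF.nil PF.nil))))) (PF.cons (PF.cons (PF.cons (PF.leaf (nat_lit 2547445) (nat_lit 1866899) (nat_lit 59719654) (nat_lit 1866899) [(nat_lit 0), (nat_lit 0), (nat_lit 2761129), (nat_lit 0)]) (PF.cons (PF.leaf (nat_lit 2721963) (nat_lit 235674) (nat_lit 59400484) (nat_lit 1892048) [(nat_lit 235674), (nat_lit 0), (nat_lit 2790302), (nat_lit 0)]) (PF.cons (PF.leaf (nat_lit 2910422) (nat_lit 244945) (nat_lit 59061733) (nat_lit 1917461) [(nat_lit 244945), (nat_lit 0), (nat_lit 2819863), (nat_lit 0)]) (PF.cons PF.nil PF.nil)))) (PF.cons (PF.cons (PF.leaf (nat_lit 3167238) (nat_lit 1128233) (nat_lit 58262079) (nat_lit 1964560) [(nat_lit 0), (nat_lit 1128233), (nat_lit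
 2876969), (nat_lit 0)]) (PF.cons (PF.leaf (nat_lit 3364933) (nat_lit 261805) (nat_lit 57905805) (nat_lit 1987634) [(nat_lit 261805), (nat_lit 1146099), (nat_lit 2903734), (nat_lit 0)]) PF.nil)) (PF.cons PF.nil PF.nil))) (PF.cons (PF.cons (PF.cons (PF.leaf (nat_lit 3800473) (nat_lit 2052458) (nat_lit 56101649) (nat_lit 2052458) [(nat_lit 0), (nat_lit 0), (nat_lit 2984901), (nat_lit 0)]) (PF.cons PF.nil PF.nil)) (PF.cons PF.nil PF.nil)) (PF.cons PF.nil (PF.cons PF.nil PF.nil)))))) (PF.cons (PF.cons (PF.cons (PF.cons (PF.leaf (nat_lit 2387663) (nat_lit 1803125) (nat_lit 58267495) (nat_lit 1803125) [(nat_lit 0), (nat_lit 0), (nat_lit 0), (nat_lit 7038191)]) (PF.cons (PF.leaf (nat_lit 2530996) (nat_lit 207650) (nat_lit 58010425) (nat_lit 1827368) [(nat_lit 207650), (nat_lit 0), (nat_lit 0), (nat_lit 7063368)]) (PF.cons (PF.leaf (nat_lit 2691386) (nat_lit 218844) (nat_lit 57728976) (nat_lit 1852455) [(nat_lit 218844), (nat_lit 0), (nat_lit 0), (nat_lit 7089691)])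 (PF.cons (PF.leaf (nat_lit 2864486) (nat_lit 229124) (nat_lit 57427024) (nat_lit 1877874) [(nat_lit 229124), (nat_lit 0), (nat_lit 0), (nat_lit 7116542)]) (PF.cons (PF.leaf (nat_lit 3048968) (nat_lit 238675) (nat_lit 57107379)
 (nat_lit 1903276) [(nat_lit 238675), (nat_lit 0), (nat_lit 0), (nat_lit 7143454)]) (PF.cons (PF.leaf (nat_lit 3243447) (nat_lit 247621) (nat_lit 56772225) (nat_lit 1928418) [(nat_lit 247621), (nat_lit 0), (nat_lit 0), (nat_lit 7170062)]) (PF.cons PF.nil (PF.cons PF.nil (PF.cons PF.nil PF.nil))))))))) (PF.cons (PF.cons (PF.leaf (nat_lit 2935331) (nat_lit 1073899) (nat_lit 56984441) (nat_lit 1902525) [(nat_lit 0), (nat_lit 1073899), (nat_lit 0), (nat_lit 7147946)]) (PF.cons (PF.leaf (nat_lit 3106704) (nat_lit 238208) (nat_lit 56680896) (nat_lit 1925371) [(nat_lit 238208), (nat_lit 1092751), (nat_lit 0), (nat_lit 7171584)]) (PF.cons (PF.leaf (nat_lit 3291573) (nat_lit 247477) (nat_lit 56358786) (nat_lit 1948344) [(nat_lit 247477),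 (nat_lit 1111465), (nat_lit 0), (nat_lit 7195261)]) (PF.cons (PF.leaf (nat_lit 3486839) (nat_lit 256109) (nat_lit 56020862) (nat_lit 1971164) [(nat_lit 256109), (nat_lit 1129863), (nat_lit 0), (nat_lit 7218593)]) (PF.cons (PF.leaf (nat_lit 3691386) (nat_lit 264205) (nat_lit 55669237) (nat_lit 1993636) [(nat_lit 264205), (nat_lit 1147830), (nat_lit 0), (nat_lit 7241287)]) (PF.cons PF.nil (PF.cons PF.nil PF.nil))))))) (PF.cons (PF.cons (PF.leaf (nat_lit
 3538553) (nat_lit 1141509) (nat_lit 55595707) (nat_lit 1989555) [(nat_lit 0), (nat_lit 1141509), (nat_lit 0), (nat_lit 7240531)]) (PF.cons (PF.leaf (nat_lit 3732062) (nat_lit 263713) (nat_lit 55257881) (nat_lit 2010162) [(nat_lit 263713), (nat_lit 1158238), (nat_lit 0), (nat_lit 7260577)]) (PF.cons (PF.leaf (nat_lit 3936525) (nat_lit 271555) (nat_lit 54905908) (nat_lit 2030518) [(nat_lit 271555), (nat_lit 1174643), (nat_lit 0), (nat_lit 7279988)]) (PF.cons PF.nil (PF.cons PF.nil PF.nil))))) (PF.cons (PF.cons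 (PF.leaf (nat_lit 4183847) (nat_lit 1199170) (nat_lit 54134902) (nat_lit 2064036) [(nat_lit 0), (nat_lit 1199170), (nat_lit 0), (nat_lit 7312363)]) (PF.cons (PF.leaf (nat_lit 4394795) (nat_lit 285263) (nat_lit 53772507) (nat_lit 2082043) [(nat_lit 285263), (nat_lit 1213759), (nat_lit 0), (nat_lit 7327718)]) (PF.cons PF.nil (PF.cons PF.nil PF.nil)))) (PF.cons (PF.cons (PF.leaf (nat_lit 4859987) (nat_lit 1247773) (nat_lit 52629132) (nat_lit 2126367) [(nat_lit 0), (nat_lit 1247773), (nat_lit 0), (nat_lit 7362218)]) (PF.cons PF.nil PF.nil)) (PF.cons PF.nil PF.nil)))))) (PF.cons (PF.cons (PF.cons (PF.leaf (nat_lit 3527525) (nat_lit 1991839) (nat_lit 54946381) (nat_lit 1991839)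
 [(nat_lit 0), (nat_lit 0), (nat_lit 2920297), (nat_lit 7250294)]) (PF.cons (PF.leaf (nat_lit 3706286) (nat_lit 254897) (nat_lit 54635315) (nat_lit 2010905) [(nat_lit 254897), (nat_lit 0), (nat_lit 2940794), (nat_lit 7266900)]) (PF.cons (PF.leaf (nat_lit 3897876) (nat_lit 263709) (nat_lit 54306831) (nat_lit 2029980) [(nat_lit 263709), (nat_lit 0), (nat_lit 2961371), (nat_lit 7283209)]) (PF.cons (PF.leaf (nat_lit 4099258) (nat_lit 271823) (nat_lit 53963818) (nat_lit 2048834) [(nat_lit 271823), (nat_lit 0), (nat_lit 2981758), (nat_lit 7298933)]) (PF.cons (PF.leaf (nat_lit 4309253) (nat_lit 279357) (nat_lit 53608469) (nat_lit 2067305) [(nat_lit 279357), (nat_lit 0), (nat_lit 3001756), (nat_lit 7313852)]) PF.nil))))) (PF.cons (PF.cons (PF.leaf (nat_lit 4142791) (nat_lit 1193277) (nat_lit 53543194) (nat_lit 2062599) [(nat_lit 0), (nat_lit 1193277), (nat_lit 2998288), (nat_lit 7311453)]) (PF.cons (PF.leaf (nat_lit 4341430) (nat_lit 278033) (nat_lit 53202914)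 (nat_lit 2079535) [(nat_lit 278033), (nat_lit 1207604), (nat_lit 3016454), (nat_lit 7324270)]) (PF.cons (PF.leaf (nat_lit 4550350) (nat_lit 285357) (nat_lit 52849743) (nat_lit 2096174) [(nat_lit 285357), (nat_lit 1221579), (nat_lit
 3034301), (nat_lit 7336298)]) (PF.cons PF.nil PF.nil)))) (PF.cons (PF.cons (PF.leaf (nat_lit 4792922) (nat_lit 1241244) (nat_lit 52087677) (nat_lit 2122179) [(nat_lit 0), (nat_lit 1241244), (nat_lit 3063257), (nat_lit 7353208)]) (PF.cons (PF.leaf (nat_lit 5006958) (nat_lit 297285) (nat_lit 51727498) (nat_lit 2136720) [(nat_lit 297285), (nat_lit 1253570), (nat_lit 3078632), (nat_lit 7361534)]) PF.nil)) (PF.cons PF.nil (PF.cons PF.nil PF.nil))))) (PF.cons (PF.cons (PF.cons (PF.leaf (nat_lit 4736000) (nat_lit 2117422) (nat_lit 51527960) (nat_lit 2117422) [(nat_lit 0), (nat_lit 0), (nat_lit 3060281), (nat_lit 7342866)]) (PF.cons (PF.leaf (nat_lit 4937987) (nat_lit 289664) (nat_lit 51189729) (nat_lit 2131181) [(nat_lit 289664),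 (nat_lit 0), (nat_lit 3074414), (nat_lit 7349407)]) (PF.cons (PF.leaf (nat_lit 5149587) (nat_lit 296499) (nat_lit 50839769) (nat_lit 2144614) [(nat_lit 296499), (nat_lit 0), (nat_lit 3088181), (nat_lit 7355066)]) (PF.cons PF.nil PF.nil)))) (PF.cons (PF.cons (PF.leaf (nat_lit 5385981) (nat_lit 1273202) (nat_lit 50094389) (nat_lit 2164285) [(nat_lit 0), (nat_lit 1273202), (nat_lit 3108960), (nat_lit 7359015)]) (PF.cons PF.nil PF.nil)) (PF.cons PF.nil PF.nil)))
 (PF.cons (PF.cons (PF.cons (PF.leaf (nat_lit 5960904) (nat_lit 2193027) (nat_lit 48168337) (nat_lit 2193027) [(nat_lit 0), (nat_lit 0), (nat_lit 3137087), (nat_lit 7336186)]) (PF.cons PF.nil PF.nil)) (PF.cons PF.nil PF.nil)) (PF.cons PF.nil PF.nil))))) (PF.cons (PF.cons (PF.cons (PF.cons (PF.leaf (nat_lit 4418625) (nat_lit 2054631) (nat_lit 50553463) (nat_lit 2054631) [(nat_lit 0), (nat_lit 0), (nat_lit 0), (nat_lit 7250359)]) (PF.cons (PF.leaf (nat_lit 4597573) (nat_lit 266210) (nat_lit 50261187)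 (nat_lit 2069149) [(nat_lit 266210), (nat_lit 0), (nat_lit 0), (nat_lit 7256132)]) (PF.cons (PF.leaf (nat_lit 4788536) (nat_lit 274560) (nat_lit 49953550) (nat_lit 2083518) [(nat_lit 274560), (nat_lit 0), (nat_lit 0), (nat_lit 7261311)]) (PF.cons (PF.leaf (nat_lit 4988512) (nat_lit 282136) (nat_lit 49633344) (nat_lit 2097565) [(nat_lit 282136), (nat_lit 0), (nat_lit 0), (nat_lit 7265747)]) (PF.cons (PF.leaf (nat_lit 5196291) (nat_lit 289076) (nat_lit 49302675) (nat_lit 2111176) [(nat_lit 289076), (nat_lit 0), (nat_lit 0), (nat_lit 7269327)]) (PF.cons PF.nil (PF.cons PF.nil PF.nil))))))) (PF.cons (PF.cons (PF.leaf (nat_lit 5020040) (nat_lit 1225758) (nat_lit 49246575) (nat_lit 2105769)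
 [(nat_lit 0), (nat_lit 1225758), (nat_lit 0), (nat_lit 7265354)]) (PF.cons (PF.leaf (nat_lit 5216473) (nat_lit 286853) (nat_lit 48930909) (nat_lit 2118215) [(nat_lit 286853), (nat_lit 1237374), (nat_lit 0), (nat_lit 7267730)]) (PF.cons (PF.leaf (nat_lit 5422219) (nat_lit 293604) (nat_lit 48604205) (nat_lit 2130307) [(nat_lit 293604), (nat_lit 1248580), (nat_lit 0), (nat_lit 7269255)]) (PF.cons (PF.leaf (nat_lit 5635127) (nat_lit 299796) (nat_lit 48268435) (nat_lit 2141955) [(nat_lit 299796), (nat_lit 1259326), (nat_lit 0), (nat_lit 7269853)]) (PF.cons PF.nil PF.nil))))) (PF.cons (PF.cons (PF.leaf (nat_lit 5648966) (nat_lit 1262564) (nat_lit 47906199) (nat_lit 2147145) [(nat_lit 0), (nat_lit 1262564), (nat_lit 0), (nat_lit 7265169)]) (PF.cons (PF.leaf (nat_lit 5858454) (nat_lit 303543) (nat_lit 47575583) (nat_lit 2157435) [(nat_lit 303543), (nat_lit 1272265), (nat_lit 0), (nat_lit 7263859)]) (PF.cons PF.nil (PF.cons PF.nil PF.nil)))) (PF.cons (PF.cons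 (PF.leaf (nat_lit 6296238) (nat_lit 1292129) (nat_lit 46552618) (nat_lit 2179500) [(nat_lit 0), (nat_lit 1292129), (nat_lit 0), (nat_lit 7250151)]) (PF.cons PF.nil PF.nil)) (PF.cons PF.nil PF.nil))))) (PF.cons (PF.cons (PF.cons
 (PF.leaf (nat_lit 5573415) (nat_lit 2137828) (nat_lit 47410340) (nat_lit 2137828) [(nat_lit 0), (nat_lit 0), (nat_lit 3073946), (nat_lit 7243348)]) (PF.cons (PF.leaf (nat_lit 5771437) (nat_lit 295236) (nat_lit 47100302) (nat_lit 2147747) [(nat_lit 295236), (nat_lit 0), (nat_lit 3082939), (nat_lit 7241293)]) (PF.cons (PF.leaf (nat_lit 5978258) (nat_lit 301532) (nat_lit 46780213) (nat_lit 2157306) [(nat_lit 301532), (nat_lit 0), (nat_lit 3091534), (nat_lit 7238347)]) (PF.cons PF.nil PF.nil)))) (PF.cons (PF.cons (PF.leaf (nat_lit 6198337) (nat_lit 1282192) (nat_lit 46104160) (nat_lit 2169352) [(nat_lit 0), (nat_lit 1282192), (nat_lit 3102156), (nat_lit 7225475)]) (PF.cons (PF.leaf (nat_lit 6407932) (nat_lit 310139) (nat_lit 45782064)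 (nat_lit 2177320) [(nat_lit 310139), (nat_lit 1290280), (nat_lit 3108958), (nat_lit 7220024)]) PF.nil)) (PF.cons PF.nil PF.nil))) (PF.cons (PF.cons (PF.cons (PF.leaf (nat_lit 6729774) (nat_lit 2181854) (nat_lit 44375408) (nat_lit 2181854) [(nat_lit 0), (nat_lit 0), (nat_lit 3108632), (nat_lit 7167142)]) (PF.cons PF.nil PF.nil)) (PF.cons PF.nil PF.nil)) PF.nil))) (PF.cons (PF.cons (PF.cons (PF.cons (PF.leaf (nat_lit 6326077) (nat_lit 2129544) (nat_lit
 43745623) (nat_lit 2129544) [(nat_lit 0), (nat_lit 0), (nat_lit 0), (nat_lit 7077881)]) (PF.cons (PF.leaf (nat_lit 6518985) (nat_lit 296675) (nat_lit 43464489) (nat_lit 2136661) [(nat_lit 296675), (nat_lit 0), (nat_lit 0), (nat_lit 7070328)]) (PF.cons (PF.leaf (nat_lit 6720099) (nat_lit 302509) (nat_lit 43174663) (nat_lit 2143407) [(nat_lit 302509), (nat_lit 0), (nat_lit 0), (nat_lit 7061907)]) (PF.cons PF.nil PF.nil)))) (PF.cons (PF.cons (PF.leaf (nat_lit 6925299) (nat_lit 1276054) (nat_lit 42566690)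 (nat_lit 2150101) [(nat_lit 0), (nat_lit 1276054), (nat_lit 0), (nat_lit 7038655)]) (PF.cons PF.nil PF.nil)) (PF.cons PF.nil PF.nil))) (PF.cons (PF.cons (PF.cons (PF.leaf (nat_lit 7418335) (nat_lit 2151641) (nat_lit 41023710) (nat_lit 2151641) [(nat_lit 0), (nat_lit 0), (nat_lit 3054955), (nat_lit 6959502)]) (PF.cons PF.nil PF.nil)) PF.nil) PF.nil)) (PF.cons PF.nil (PF.cons PF.nil (PF.cons PF.nil (PF.cons PF.nil PF.nil))))))))

def p14_7_0_0 : pfC (piC [(nat_lit 44228488), (nat_lit 27646207), (nat_lit 20402210), (nat_lit 13743659)] (nat_lit 29374635)) p14_7_0 (nat_lit 4) (nat_lit 0) (nat_lit 1) = true := by decide +kernel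
def p14_7_0_1 : pfC (piC [(nat_lit 44228488), (nat_lit 27646207), (nat_lit 20402210), (nat_lit 13743659)] (nat_lit 29374635)) p14_7_0 (nat_lit 4) (nat_lit 1) (nat_lit 2) = true := by decide +kernel
def p14_7_0_2 : pfC (piC [(nat_lit 44228488), (nat_lit 27646207), (nat_lit 20402210), (nat_lit 13743659)] (nat_lit 29374635)) p14_7_0 (nat_lit 4) (nat_lit 2) (nat_lit 3) = true := by decide +kernel
def p14_7_0_3 : pfC (piC [(nat_lit 44228488), (nat_lit 27646207), (nat_lit 20402210), (nat_lit 13743659)] (nat_lit 29374635)) p14_7_0 (nat_lit 4) (nat_lit 3) (nat_lit 4) = true := by decide +kernel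
def p14_7_0_4 : pfC (piC [(nat_lit 44228488), (nat_lit 27646207), (nat_lit 20402210), (nat_lit 13743659)] (nat_lit 29374635)) p14_7_0 (nat_lit 4) (nat_lit 4) (nat_lit 5) = true := by decide +kernel
def p14_7_0_5 : pfC (piC [(nat_lit 44228488), (nat_lit 27646207), (nat_lit 20402210), (nat_lit 13743659)] (nat_lit 29374635)) p14_7_0 (nat_lit 4) (nat_lit 5) (nat_lit 6) = true := by decide +kernel
def p14_7_0_6 : pfC (piC [(nat_lit 44228488), (nat_lit 27646207), (nat_lit 20402210), (nat_lit 13743659)] (nat_lit 29374635)) p14_7_0 (nat_lit 4) (nat_lit 6) (nat_lit 7) = true := by decide +kernel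
def p14_7_0_7 : pfC (piC [(nat_lit 44228488), (nat_lit 27646207), (nat_lit 20402210), (nat_lit 13743659)] (nat_lit 29374635)) p14_7_0 (nat_lit 4) (nat_lit 7) (nat_lit 8) = true := by decide +kernel
def p14_7_0_8 : pfC (piC [(nat_lit 44228488), (nat_lit 27646207), (nat_lit 20402210), (nat_lit 13743659)] (nat_lit 29374635)) p14_7_0 (nat_lit 4) (nat_lit 8) (nat_lit 9) = true := by decide +kernel
def p14_7_0_9 : pfC (piC [(nat_lit 44228488), (nat_lit 27646207), (nat_lit 20402210), (nat_lit 13743659)] (nat_lit 29374635)) p14_7_0 (nat_lit 4) (nat_lit 9) (nat_lit 10) = true := by decide +kernel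
def p14_7_0_10 : pfC (piC [(nat_lit 44228488), (nat_lit 27646207), (nat_lit 20402210), (nat_lit 13743659)] (nat_lit 29374635)) p14_7_0 (nat_lit 4) (nat_lit 10) (nat_lit 11) = true := by decide +kernel
def p14_7_0_11 : pfC (piC [(nat_lit 44228488), (nat_lit 27646207), (nat_lit 20402210), (nat_lit 13743659)] (nat_lit 29374635)) p14_7_0 (nat_lit 4) (nat_lit 11) (nat_lit 12) = true := by decide +kernel
def p14_7_0_12 : pfC (piC [(nat_lit 44228488), (nat_lit 27646207), (nat_lit 20402210), (nat_lit 13743659)] (nat_lit 29374635)) p14_7_0 (nat_lit 4) (nat_lit 12) (nat_lit 13) = true := by decide +kernel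
def p14_7_0_13 : pfC (piC [(nat_lit 44228488), (nat_lit 27646207), (nat_lit 20402210), (nat_lit 13743659)] (nat_lit 29374635)) p14_7_0 (nat_lit 4) (nat_lit 13) (nat_lit 14) = true := by decide +kernel
def p14_7_0_14 : pfC (piC [(nat_lit 44228488), (nat_lit 27646207), (nat_lit 20402210), (nat_lit 13743659)] (nat_lit 29374635)) p14_7_0 (nat_lit 4) (nat_lit 14) (nat_lit 15) = true := by decide +kernel
def p14_7_0_15 : pfC (piC [(nat_lit 44228488), (nat_lit 27646207), (nat_lit 20402210), (nat_lit 13743659)] (nat_lit 29374635)) p14_7_0 (nat_lit 4) (nat_lit 15) (nat_lit 16) = true := by decide +kernel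
def p14_7_0_16 : pfC (piC [(nat_lit 44228488), (nat_lit 27646207), (nat_lit 20402210), (nat_lit 13743659)] (nat_lit 29374635)) p14_7_0 (nat_lit 4) (nat_lit 16) (nat_lit 17) = true := by decide +kernel
def p14_7_0_17 : pfC (piC [(nat_lit 44228488), (nat_lit 27646207), (nat_lit 20402210), (nat_lit 13743659)] (nat_lit 29374635)) p14_7_0 (nat_lit 4) (nat_lit 17) (nat_lit 18) = true := by decide +kernel
def p14_7_0_18 : pfC (piC [(nat_lit 44228488), (nat_lit 27646207), (nat_lit 20402210), (nat_lit 13743659)] (nat_lit 29374635)) p14_7_0 (nat_lit 4) (nat_lit 18) (nat_lit 19) = true := by decide +kernel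
def p14_7_0_19 : pfC (piC [(nat_lit 44228488), (nat_lit 27646207), (nat_lit 20402210), (nat_lit 13743659)] (nat_lit 29374635)) p14_7_0 (nat_lit 4) (nat_lit 19) (nat_lit 20) = true := by decide +kernel
def p14_7_0_20 : pfC (piC [(nat_lit 44228488), (nat_lit 27646207), (nat_lit 20402210), (nat_lit 13743659)] (nat_lit 29374635)) p14_7_0 (nat_lit 4) (nat_lit 20) (nat_lit 21) = true := by decide +kernel
def p14_7_0_21 : pfC (piC [(nat_lit 44228488), (nat_lit 27646207), (nat_lit 20402210), (nat_lit 13743659)] (nat_lit 29374635)) p14_7_0 (nat_lit 4) (nat_lit 21) (nat_lit 22) = true := by decide +kernel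
def p14_7_0_22 : pfC (piC [(nat_lit 44228488), (nat_lit 27646207), (nat_lit 20402210), (nat_lit 13743659)] (nat_lit 29374635)) p14_7_0 (nat_lit 4) (nat_lit 22) (nat_lit 23) = true := by decide +kernel
def p14_7_0_23 : pfC (piC [(nat_lit 44228488), (nat_lit 27646207), (nat_lit 20402210), (nat_lit 13743659)] (nat_lit 29374635)) p14_7_0 (nat_lit 4) (nat_lit 23) (nat_lit 24) = true := by decide +kernel
def p14_7_0_24 : pfC (piC [(nat_lit 44228488), (nat_lit 27646207), (nat_lit 20402210), (nat_lit 13743659)] (nat_lit 29374635)) p14_7_0 (nat_lit 4) (nat_lit 24) (nat_lit 25) = true := by decide +kernel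
def p14_7_0_25 : pfC (piC [(nat_lit 44228488), (nat_lit 27646207), (nat_lit 20402210), (nat_lit 13743659)] (nat_lit 29374635)) p14_7_0 (nat_lit 4) (nat_lit 25) (nat_lit 26) = true := by decide +kernel
def p14_7_0_26 : pfC (piC [(nat_lit 44228488), (nat_lit 27646207), (nat_lit 20402210), (nat_lit 13743659)] (nat_lit 29374635)) p14_7_0 (nat_lit 4) (nat_lit 26) (nat_lit 27) = true := by decide +kernel
def p14_7_0_27 : pfC (piC [(nat_lit 44228488), (nat_lit 27646207), (nat_lit 20402210), (nat_lit 13743659)] (nat_lit 29374635)) p14_7_0 (nat_lit 4) (nat_lit 27) (nat_lit 28) = true := by decide +kernel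
def p14_7_0_28 : pfC (piC [(nat_lit 44228488), (nat_lit 27646207), (nat_lit 20402210), (nat_lit 13743659)] (nat_lit 29374635)) p14_7_0 (nat_lit 4) (nat_lit 28) (nat_lit 29) = true := by decide +kernel
def p14_7_0_29 : pfC (piC [(nat_lit 44228488), (nat_lit 27646207), (nat_lit 20402210), (nat_lit 13743659)] (nat_lit 29374635)) p14_7_0 (nat_lit 4) (nat_lit 29) (nat_lit 30) = true := by decide +kernel
def p14_7_0_30 : pfC (piC [(nat_lit 44228488), (nat_lit 27646207), (nat_lit 20402210), (nat_lit 13743659)] (nat_lit 29374635)) p14_7_0 (nat_lit 4) (nat_lit 30) (nat_lit 31) = true := by decide +kernel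
def p14_7_0_31 : pfC (piC [(nat_lit 44228488), (nat_lit 27646207), (nat_lit 20402210), (nat_lit 13743659)] (nat_lit 29374635)) p14_7_0 (nat_lit 4) (nat_lit 31) (nat_lit 32) = true := by decide +kernel
def p14_7_0_32 : pfC (piC [(nat_lit 44228488), (nat_lit 27646207), (nat_lit 20402210), (nat_lit 13743659)] (nat_lit 29374635)) p14_7_0 (nat_lit 4) (nat_lit 32) (nat_lit 33) = true := by decide +kernel
def p14_7_0_33 : pfC (piC [(nat_lit 44228488), (nat_lit 27646207), (nat_lit 20402210), (nat_lit 13743659)] (nat_lit 29374635)) p14_7_0 (nat_lit 4) (nat_lit 33) (nat_lit 34) = true := by decide +kernel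
def p14_7_0_34 : pfC (piC [(nat_lit 44228488), (nat_lit 27646207), (nat_lit 20402210), (nat_lit 13743659)] (nat_lit 29374635)) p14_7_0 (nat_lit 4) (nat_lit 34) (nat_lit 35) = true := by decide +kernel
def p14_7_0_35 : pfC (piC [(nat_lit 44228488), (nat_lit 27646207), (nat_lit 20402210), (nat_lit 13743659)] (nat_lit 29374635)) p14_7_0 (nat_lit 4) (nat_lit 35) (nat_lit 36) = true := by decide +kernel
def p14_7_0_36 : pfC (piC [(nat_lit 44228488), (nat_lit 27646207), (nat_lit 20402210), (nat_lit 13743659)] (nat_lit 29374635)) p14_7_0 (nat_lit 4) (nat_lit 36) (nat_lit 37) = true := by decide +kernel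
def p14_7_0_37 : pfC (piC [(nat_lit 44228488), (nat_lit 27646207), (nat_lit 20402210), (nat_lit 13743659)] (nat_lit 29374635)) p14_7_0 (nat_lit 4) (nat_lit 37) (nat_lit 38) = true := by decide +kernel
def p14_7_0_38 : pfC (piC [(nat_lit 44228488), (nat_lit 27646207), (nat_lit 20402210), (nat_lit 13743659)] (nat_lit 29374635)) p14_7_0 (nat_lit 4) (nat_lit 38) (nat_lit 39) = true := by decide +kernel
def p14_7_0_39 : pfC (piC [(nat_lit 44228488), (nat_lit 27646207), (nat_lit 20402210), (nat_lit 13743659)] (nat_lit 29374635)) p14_7_0 (nat_lit 4) (nat_lit 39) (nat_lit 40) = true := by decide +kernel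
def p14_7_0_40 : pfC (piC [(nat_lit 44228488), (nat_lit 27646207), (nat_lit 20402210), (nat_lit 13743659)] (nat_lit 29374635)) p14_7_0 (nat_lit 4) (nat_lit 40) (nat_lit 41) = true := by decide +kernel
def p14_7_0_41 : pfC (piC [(nat_lit 44228488), (nat_lit 27646207), (nat_lit 20402210), (nat_lit 13743659)] (nat_lit 29374635)) p14_7_0 (nat_lit 4) (nat_lit 41) (nat_lit 42) = true := by decide +kernel
def p14_7_0_42 : pfC (piC [(nat_lit 44228488), (nat_lit 27646207), (nat_lit 20402210), (nat_lit 13743659)] (nat_lit 29374635)) p14_7_0 (nat_lit 4) (nat_lit 42) (nat_lit 43) = true := by decide +kernel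
def p14_7_0_43 : pfC (piC [(nat_lit 44228488), (nat_lit 27646207), (nat_lit 20402210), (nat_lit 13743659)] (nat_lit 29374635)) p14_7_0 (nat_lit 4) (nat_lit 43) (nat_lit 44) = true := by decide +kernel
def p14_7_0_44 : pfC (piC [(nat_lit 44228488), (nat_lit 27646207), (nat_lit 20402210), (nat_lit 13743659)] (nat_lit 29374635)) p14_7_0 (nat_lit 4) (nat_lit 44) (nat_lit 45) = true := by decide +kernel
def p14_7_0_45 : pfC (piC [(nat_lit 44228488), (nat_lit 27646207), (nat_lit 20402210), (nat_lit 13743659)] (nat_lit 29374635)) p14_7_0 (nat_lit 4) (nat_lit 45) (nat_lit 46) = true := by decide +kernel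
def p14_7_0_46 : pfC (piC [(nat_lit 44228488), (nat_lit 27646207), (nat_lit 20402210), (nat_lit 13743659)] (nat_lit 29374635)) p14_7_0 (nat_lit 4) (nat_lit 46) (nat_lit 47) = true := by decide +kernel
def p14_7_0_47 : pfC (piC [(nat_lit 44228488), (nat_lit 27646207), (nat_lit 20402210), (nat_lit 13743659)] (nat_lit 29374635)) p14_7_0 (nat_lit 4) (nat_lit 47) (nat_lit 48) = true := by decide +kernel
def p14_7_0_48 : pfC (piC [(nat_lit 44228488), (nat_lit 27646207), (nat_lit 20402210), (nat_lit 13743659)] (nat_lit 29374635)) p14_7_0 (nat_lit 4) (nat_lit 48) (nat_lit 49) = true := by decide +kernel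
def p14_7_0_49 : pfC (piC [(nat_lit 44228488), (nat_lit 27646207), (nat_lit 20402210), (nat_lit 13743659)] (nat_lit 29374635)) p14_7_0 (nat_lit 4) (nat_lit 49) (nat_lit 50) = true := by decide +kernel
def p14_7_0_50 : pfC (piC [(nat_lit 44228488), (nat_lit 27646207), (nat_lit 20402210), (nat_lit 13743659)] (nat_lit 29374635)) p14_7_0 (nat_lit 4) (nat_lit 50) (nat_lit 51) = true := by decide +kernel
def p14_7_0_51 : pfC (piC [(nat_lit 44228488), (nat_lit 27646207), (nat_lit 20402210), (nat_lit 13743659)] (nat_lit 29374635)) p14_7_0 (nat_lit 4) (nat_lit 51) (nat_lit 52) = true := by decide +kernel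
def p14_7_0_52 : pfC (piC [(nat_lit 44228488), (nat_lit 27646207), (nat_lit 20402210), (nat_lit 13743659)] (nat_lit 29374635)) p14_7_0 (nat_lit 4) (nat_lit 52) (nat_lit 53) = true := by decide +kernel
def p14_7_0_53 : pfC (piC [(nat_lit 44228488), (nat_lit 27646207), (nat_lit 20402210), (nat_lit 13743659)] (nat_lit 29374635)) p14_7_0 (nat_lit 4) (nat_lit 53) (nat_lit 54) = true := by decide +kernel
def p14_7_0_54 : pfC (piC [(nat_lit 44228488), (nat_lit 27646207), (nat_lit 20402210), (nat_lit 13743659)] (nat_lit 29374635)) p14_7_0 (nat_lit 4) (nat_lit 54) (nat_lit 55) = true := by decide +kernel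
def p14_7_0_55 : pfC (piC [(nat_lit 44228488), (nat_lit 27646207), (nat_lit 20402210), (nat_lit 13743659)] (nat_lit 29374635)) p14_7_0 (nat_lit 4) (nat_lit 55) (nat_lit 56) = true := by decide +kernel
def p14_7_0_56 : pfC (piC [(nat_lit 44228488), (nat_lit 27646207), (nat_lit 20402210), (nat_lit 13743659)] (nat_lit 29374635)) p14_7_0 (nat_lit 4) (nat_lit 56) (nat_lit 57) = true := by decide +kernel
def p14_7_0_57 : pfC (piC [(nat_lit 44228488), (nat_lit 27646207), (nat_lit 20402210), (nat_lit 13743659)] (nat_lit 29374635)) p14_7_0 (nat_lit 4) (nat_lit 57) (nat_lit 58) = true := by decide +kernel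
def p14_7_0_58 : pfC (piC [(nat_lit 44228488), (nat_lit 27646207), (nat_lit 20402210), (nat_lit 13743659)] (nat_lit 29374635)) p14_7_0 (nat_lit 4) (nat_lit 58) (nat_lit 59) = true := by decide +kernel
def p14_7_0_59 : pfC (piC [(nat_lit 44228488), (nat_lit 27646207), (nat_lit 20402210), (nat_lit 13743659)] (nat_lit 29374635)) p14_7_0 (nat_lit 4) (nat_lit 59) (nat_lit 60) = true := by decide +kernel
def p14_7_0_60 : pfC (piC [(nat_lit 44228488), (nat_lit 27646207), (nat_lit 20402210), (nat_lit 13743659)] (nat_lit 29374635)) p14_7_0 (nat_lit 4) (nat_lit 60) (nat_lit 61) = true := by decide +kernel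
def p14_7_0_61 : pfC (piC [(nat_lit 44228488), (nat_lit 27646207), (nat_lit 20402210), (nat_lit 13743659)] (nat_lit 29374635)) p14_7_0 (nat_lit 4) (nat_lit 61) (nat_lit 62) = true := by decide +kernel
def p14_7_0_62 : pfC (piC [(nat_lit 44228488), (nat_lit 27646207), (nat_lit 20402210), (nat_lit 13743659)] (nat_lit 29374635)) p14_7_0 (nat_lit 4) (nat_lit 62) (nat_lit 63) = true := by decide +kernel
def p14_7_0_63 : pfC (piC [(nat_lit 44228488), (nat_lit 27646207), (nat_lit 20402210), (nat_lit 13743659)] (nat_lit 29374635)) p14_7_0 (nat_lit 4) (nat_lit 63) (nat_lit 64) = true := by decide +kernel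
def p14_7_0_64 : pfC (piC [(nat_lit 44228488), (nat_lit 27646207), (nat_lit 20402210), (nat_lit 13743659)] (nat_lit 29374635)) p14_7_0 (nat_lit 4) (nat_lit 64) (nat_lit 65) = true := by decide +kernel
def p14_7_0_65 : pfC (piC [(nat_lit 44228488), (nat_lit 27646207), (nat_lit 20402210), (nat_lit 13743659)] (nat_lit 29374635)) p14_7_0 (nat_lit 4) (nat_lit 65) (nat_lit 66) = true := by decide +kernel
def p14_7_0_66 : pfC (piC [(nat_lit 44228488), (nat_lit 27646207), (nat_lit 20402210), (nat_lit 13743659)] (nat_lit 29374635)) p14_7_0 (nat_lit 4) (nat_lit 66) (nat_lit 67) = true := by decide +kernel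
def p14_7_0_67 : pfC (piC [(nat_lit 44228488), (nat_lit 27646207), (nat_lit 20402210), (nat_lit 13743659)] (nat_lit 29374635)) p14_7_0 (nat_lit 4) (nat_lit 67) (nat_lit 68) = true := by decide +kernel
def p14_7_0_68 : pfC (piC [(nat_lit 44228488), (nat_lit 27646207), (nat_lit 20402210), (nat_lit 13743659)] (nat_lit 29374635)) p14_7_0 (nat_lit 4) (nat_lit 68) (nat_lit 69) = true := by decide +kernel
def p14_7_0_69 : pfC (piC [(nat_lit 44228488), (nat_lit 27646207), (nat_lit 20402210), (nat_lit 13743659)] (nat_lit 29374635)) p14_7_0 (nat_lit 4) (nat_lit 69) (nat_lit 70) = true := by decide +kernel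
def p14_7_0_70 : pfC (piC [(nat_lit 44228488), (nat_lit 27646207), (nat_lit 20402210), (nat_lit 13743659)] (nat_lit 29374635)) p14_7_0 (nat_lit 4) (nat_lit 70) (nat_lit 71) = true := by decide +kernel
def p14_7_0_71 : pfC (piC [(nat_lit 44228488), (nat_lit 27646207), (nat_lit 20402210), (nat_lit 13743659)] (nat_lit 29374635)) p14_7_0 (nat_lit 4) (nat_lit 71) (nat_lit 72) = true := by decide +kernel
def p14_7_0_72 : pfC (piC [(nat_lit 44228488), (nat_lit 27646207), (nat_lit 20402210), (nat_lit 13743659)] (nat_lit 29374635)) p14_7_0 (nat_lit 4) (nat_lit 72) (nat_lit 73) = true := by decide +kernel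
def p14_7_0_73 : pfC (piC [(nat_lit 44228488), (nat_lit 27646207), (nat_lit 20402210), (nat_lit 13743659)] (nat_lit 29374635)) p14_7_0 (nat_lit 4) (nat_lit 73) (nat_lit 74) = true := by decide +kernel
def p14_7_0_74 : pfC (piC [(nat_lit 44228488), (nat_lit 27646207), (nat_lit 20402210), (nat_lit 13743659)] (nat_lit 29374635)) p14_7_0 (nat_lit 4) (nat_lit 74) (nat_lit 75) = true := by decide +kernel
def p14_7_0_75 : pfC (piC [(nat_lit 44228488), (nat_lit 27646207), (nat_lit 20402210), (nat_lit 13743659)] (nat_lit 29374635)) p14_7_0 (nat_lit 4) (nat_lit 75) (nat_lit 76) = true := by decide +kernel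
def p14_7_0_76 : pfC (piC [(nat_lit 44228488), (nat_lit 27646207), (nat_lit 20402210), (nat_lit 13743659)] (nat_lit 29374635)) p14_7_0 (nat_lit 4) (nat_lit 76) (nat_lit 77) = true := by decide +kernel
def p14_7_0_77 : pfC (piC [(nat_lit 44228488), (nat_lit 27646207), (nat_lit 20402210), (nat_lit 13743659)] (nat_lit 29374635)) p14_7_0 (nat_lit 4) (nat_lit 77) (nat_lit 78) = true := by decide +kernel
def p14_7_0_78 : pfC (piC [(nat_lit 44228488), (nat_lit 27646207), (nat_lit 20402210), (nat_lit 13743659)] (nat_lit 29374635)) p14_7_0 (nat_lit 4) (nat_lit 78) (nat_lit 79) = true := by decide +kernel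
def p14_7_0_79 : pfC (piC [(nat_lit 44228488), (nat_lit 27646207), (nat_lit 20402210), (nat_lit 13743659)] (nat_lit 29374635)) p14_7_0 (nat_lit 4) (nat_lit 79) (nat_lit 80) = true := by decide +kernel
def p14_7_0_80 : pfC (piC [(nat_lit 44228488), (nat_lit 27646207), (nat_lit 20402210), (nat_lit 13743659)] (nat_lit 29374635)) p14_7_0 (nat_lit 4) (nat_lit 80) (nat_lit 81) = true := by decide +kernel
def p14_7_0_81 : pfC (piC [(nat_lit 44228488), (nat_lit 27646207), (nat_lit 20402210), (nat_lit 13743659)] (nat_lit 29374635)) p14_7_0 (nat_lit 4) (nat_lit 81) (nat_lit 82) = true := by decide +kernel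
def p14_7_0_82 : pfC (piC [(nat_lit 44228488), (nat_lit 27646207), (nat_lit 20402210), (nat_lit 13743659)] (nat_lit 29374635)) p14_7_0 (nat_lit 4) (nat_lit 82) (nat_lit 83) = true := by decide +kernel
def p14_7_0_83 : pfC (piC [(nat_lit 44228488), (nat_lit 27646207), (nat_lit 20402210), (nat_lit 13743659)] (nat_lit 29374635)) p14_7_0 (nat_lit 4) (nat_lit 83) (nat_lit 84) = true := by decide +kernel
def p14_7_0_84 : pfC (piC [(nat_lit 44228488), (nat_lit 27646207), (nat_lit 20402210), (nat_lit 13743659)] (nat_lit 29374635)) p14_7_0 (nat_lit 4) (nat_lit 84) (nat_lit 85) = true := by decide +kernel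
def p14_7_0_85 : pfC (piC [(nat_lit 44228488), (nat_lit 27646207), (nat_lit 20402210), (nat_lit 13743659)] (nat_lit 29374635)) p14_7_0 (nat_lit 4) (nat_lit 85) (nat_lit 86) = true := by decide +kernel
theorem p14_7_0_T : PfS (PiF n14_7.reverse (nat_lit 29374635)) p14_7_0 (nat_lit 4) [] 0 :=
  pftab_of (los := [(nat_lit 44228488), (nat_lit 27646207), (nat_lit 20402210), (nat_lit 13743659)]) (by decide +kernel) (hi := (nat_lit 86)) (PfP.trans (PfP.trans (PfP.trans (PfP.trans (PfP.trans (PfP.trans (PfP.trans (PfP.trans (PfP.trans (PfP.trans (PfP.trans (PfP.trans (PfP.trans (PfP.trans (PfP.trans (PfP.trans (PfP.trans (PfP.trans (PfP.trans (PfP.trans (PfP.trans (PfP.trans (PfP.trans (PfP.trans (PfP.trans (PfP.trans (PfP.trans (PfP.trans (PfP.trans (PfP.trans (PfP.trans (PfP.trans (PfP.trans (PfP.trans (PfP.trans (PfP.trans (PfP.trans (PfP.trans (PfP.trans (PfP.trans (PfP.trans (PfP.trans (PfP.trans (PfP.trans (PfP.trans (PfP.trans (PfP.trans (PfP.trans (PfP.trans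 (PfP.trans (PfP.trans (PfP.trans (PfP.trans (PfP.trans (PfP.trans (PfP.trans (PfP.trans (PfP.trans (PfP.trans (PfP.trans (PfP.trans (PfP.trans (PfP.trans (PfP.trans (PfP.trans (PfP.trans (PfP.trans (PfP.trans (PfP.trans (PfP.trans (PfP.trans (PfP.trans (PfP.trans (PfP.trans (PfP.trans (PfP.trans (PfP.trans (PfP.trans (PfP.trans (PfP.trans (PfP.trans (PfP.trans (PfP.trans (PfP.trans (PfP.trans (pfC_sound p14_7_0_0) (pfC_sound p14_7_0_1)) (pfC_sound p14_7_0_2)) (pfC_sound p14_7_0_3)) (pfC_sound p14_7_0_4)) (pfC_sound p14_7_0_5)) (pfC_sound p14_7_0_6)) (pfC_sound p14_7_0_7)) (pfC_sound p14_7_0_8)) (pfC_sound p14_7_0_9)) (pfC_sound p14_7_0_10)) (pfC_sound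
 p14_7_0_11)) (pfC_sound p14_7_0_12)) (pfC_sound p14_7_0_13)) (pfC_sound p14_7_0_14)) (pfC_sound p14_7_0_15)) (pfC_sound p14_7_0_16)) (pfC_sound p14_7_0_17)) (pfC_sound p14_7_0_18)) (pfC_sound p14_7_0_19)) (pfC_sound p14_7_0_20)) (pfC_sound p14_7_0_21)) (pfC_sound p14_7_0_22)) (pfC_sound p14_7_0_23)) (pfC_sound p14_7_0_24)) (pfC_sound p14_7_0_25)) (pfC_sound p14_7_0_26)) (pfC_sound p14_7_0_27)) (pfC_sound p14_7_0_28)) (pfC_sound p14_7_0_29)) (pfC_sound p14_7_0_30)) (pfC_sound p14_7_0_31)) (pfC_sound p14_7_0_32)) (pfC_sound p14_7_0_33)) (pfC_sound p14_7_0_34)) (pfC_sound p14_7_0_35)) (pfC_sound p14_7_0_36)) (pfC_sound p14_7_0_37)) (pfC_sound p14_7_0_38)) (pfC_sound p14_7_0_39)) (pfC_sound p14_7_0_40)) (pfC_sound p14_7_0_41)) (pfC_sound p14_7_0_42)) (pfC_sound p14_7_0_43)) (pfC_sound p14_7_0_44)) (pfC_sound p14_7_0_45)) (pfC_sound p14_7_0_46)) (pfC_sound p14_7_0_47)) (pfC_sound p14_7_0_48)) (pfC_sound p14_7_0_49)) (pfC_sound p14_7_0_50)) (pfC_sound p14_7_0_51))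 (pfC_sound p14_7_0_52)) (pfC_sound p14_7_0_53)) (pfC_sound p14_7_0_54)) (pfC_sound p14_7_0_55)) (pfC_sound p14_7_0_56)) (pfC_sound p14_7_0_57)) (pfC_sound p14_7_0_58)) (pfC_sound p14_7_0_59)) (pfC_sound p14_7_0_60)) (pfC_sound
 p14_7_0_61)) (pfC_sound p14_7_0_62)) (pfC_sound p14_7_0_63)) (pfC_sound p14_7_0_64)) (pfC_sound p14_7_0_65)) (pfC_sound p14_7_0_66)) (pfC_sound p14_7_0_67)) (pfC_sound p14_7_0_68)) (pfC_sound p14_7_0_69)) (pfC_sound p14_7_0_70)) (pfC_sound p14_7_0_71)) (pfC_sound p14_7_0_72)) (pfC_sound p14_7_0_73)) (pfC_sound p14_7_0_74)) (pfC_sound p14_7_0_75)) (pfC_sound p14_7_0_76)) (pfC_sound p14_7_0_77)) (pfC_sound p14_7_0_78)) (pfC_sound p14_7_0_79)) (pfC_sound p14_7_0_80)) (pfC_sound p14_7_0_81)) (pfC_sound p14_7_0_82)) (pfC_sound p14_7_0_83)) (pfC_sound p14_7_0_84)) (pfC_sound p14_7_0_85)) (by decide +kernel)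

def z14_7_0 : zOK yB14_7 (nat_lit 0) (nat_lit 0) (nat_lit 400) (nat_lit 29374635) (nat_lit 10300196) = true := by decide +kernel
def g14_7_0 : gOK yB14_7.x P14_7 (nat_lit 1432) (q14_7 :: r14_7) (nat_lit 0) (nat_lit 0) (nat_lit 1) (nat_lit 400) (nat_lit 0) (nat_lit 11000000) (nat_lit 12712500) (nat_lit 12712500) [(nat_lit 800), (nat_lit 1400), (nat_lit 1530)] = true := by decide +kernel
def v14_7_0 : ivC P14_7 s14_7 w14_7 n14_7 (nat_lit 4) (nat_lit 5520) (nat_lit 0) (nat_lit 0) f136_1_0 f144_1_0 (nat_lit 1) (nat_lit 400) f136_1_400 f144_1_400 (nat_lit 29374635) (nat_lit 10300196) p14_7_0 = true := by decide +kernel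
def p14_7_1 : PF := (PF.cons (PF.cons (PF.cons (PF.cons (PF.leaf (nat_lit 2148149) (nat_lit 10336529) (nat_lit 56772283) (nat_lit 10336529) [(nat_lit 0), (nat_lit 0), (nat_lit 0), (nat_lit 0)]) (PF.cons (PF.leaf (nat_lit 2249076) (nat_lit 162431) (nat_lit 56597863) (nat_lit 10348517) [(nat_lit 162431), (nat_lit 0), (nat_lit 0), (nat_lit 0)]) (PF.cons (PF.leaf (nat_lit 2373019) (nat_lit 176975) (nat_lit 56392957) (nat_lit 10361905) [(nat_lit 176975), (nat_lit 0), (nat_lit 0), (nat_lit 0)]) (PF.cons (PF.leaf (nat_lit 2512539) (nat_lit 190024) (nat_lit 56162658) (nat_lit 10376082) [(nat_lit 190024), (nat_lit 0), (nat_lit 0), (nat_lit 0)]) (PF.cons (PF.leaf (nat_lit 2665524) (nat_lit 201932) (nat_lit 55910504) (nat_lit 10390580) [(nat_lit 201932), (nat_lit 0), (nat_lit 0), (nat_lit 0)]) (PF.cons PF.nil (PF.cons PF.nil PF.nil))))))) (PF.cons (PF.cons (PF.leaf (nat_lit 2602045) (nat_lit 977155) (nat_lit 55735772) (nat_lit 10395884) [(nat_lit 0), (nat_lit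 977155), (nat_lit 0), (nat_lit 0)]) (PF.cons (PF.leaf (nat_lit 2739297) (nat_lit 201739) (nat_lit 55500726) (nat_lit 10407748) [(nat_lit 201739), (nat_lit 998598), (nat_lit 0), (nat_lit 0)]) (PF.cons (PF.leaf (nat_lit 2893723) (nat_lit 213120) (nat_lit
 55242603) (nat_lit 10419785) [(nat_lit 213120), (nat_lit 1020182), (nat_lit 0), (nat_lit 0)]) (PF.cons (PF.leaf (nat_lit 3060590) (nat_lit 223574) (nat_lit 54964949) (nat_lit 10431604) [(nat_lit 223574), (nat_lit 1041534), (nat_lit 0), (nat_lit 0)]) (PF.cons PF.nil PF.nil))))) (PF.cons (PF.cons (PF.leaf (nat_lit 3128663) (nat_lit 1057331) (nat_lit 54551264) (nat_lit 10442886) [(nat_lit 0), (nat_lit 1057331), (nat_lit 0), (nat_lit 0)]) (PF.cons (PF.leaf (nat_lit 3293789) (nat_lit 232880) (nat_lit 54271359) (nat_lit 10451942) [(nat_lit 232880), (nat_lit 1076315), (nat_lit 0), (nat_lit 0)]) (PF.cons PF.nil (PF.cons PF.nil PF.nil)))) (PF.cons (PF.cons (PF.leaf (nat_lit 3710261) (nat_lit 1124687) (nat_lit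 53263287) (nat_lit 10471463) [(nat_lit 0), (nat_lit 1124687), (nat_lit 0), (nat_lit 0)]) (PF.cons PF.nil PF.nil)) (PF.cons PF.nil PF.nil))))) (PF.cons (PF.cons (PF.cons (PF.leaf (nat_lit 3150122) (nat_lit 2802489) (nat_lit 53867536) (nat_lit 10438786) [(nat_lit 0), (nat_lit 0), (nat_lit 2802489), (nat_lit 0)]) (PF.cons (PF.leaf (nat_lit 3296841) (nat_lit 220623) (nat_lit 53620170) (nat_lit 10444810) [(nat_lit 220623), (nat_lit 0), (nat_lit 2823208), (nat_lit 0)]) (PF.cons (PF.leaf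
 (nat_lit 3460129) (nat_lit 231618) (nat_lit 53350468) (nat_lit 10450447) [(nat_lit 231618), (nat_lit 0), (nat_lit 2844660), (nat_lit 0)]) (PF.cons PF.nil (PF.cons PF.nil PF.nil))))) (PF.cons (PF.cons (PF.leaf (nat_lit 3696310) (nat_lit 1117514) (nat_lit 52647219) (nat_lit 10456626) [(nat_lit 0), (nat_lit 1117514), (nat_lit 2887452), (nat_lit 0)]) (PF.cons (PF.leaf (nat_lit 3868737) (nat_lit 249158) (nat_lit 52360040) (nat_lit 10459028) [(nat_lit 249158), (nat_lit 1133850), (nat_lit 2906735), (nat_lit 0)]) (PF.cons PF.nil (PF.cons PF.nil PF.nil)))) (PF.cons (PF.cons (PF.leaf (nat_lit 4289735) (nat_lit 1173810) (nat_lit 51345473) (nat_lit 10455573) [(nat_lit 0), (nat_lit 1173810), (nat_lit 2960144), (nat_lit 0)]) (PF.cons PF.nil PF.nil)) PF.nil))) (PF.cons (PF.cons (PF.cons (PF.leaf (nat_lit 4259489) (nat_lit 2959173) (nat_lit 50760774) (nat_lit 10429692) [(nat_lit 0), (nat_lit 0), (nat_lit 2959173), (nat_lit 0)]) (PF.cons (PF.leaf (nat_lit 4437189)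 (nat_lit 262530) (nat_lit 50471156) (nat_lit 10426095) [(nat_lit 262530), (nat_lit 0), (nat_lit 2974515), (nat_lit 0)]) PF.nil)) (PF.cons PF.nil PF.nil)) (PF.cons PF.nil (PF.cons PF.nil PF.nil))))) (PF.cons (PF.cons (PF.cons (PF.cons
 (PF.leaf (nat_lit 4001985) (nat_lit 7113162) (nat_lit 49689206) (nat_lit 10306443) [(nat_lit 0), (nat_lit 0), (nat_lit 0), (nat_lit 7113162)]) (PF.cons (PF.leaf (nat_lit 4151375) (nat_lit 232666) (nat_lit 49453780) (nat_lit 10302842) [(nat_lit 232666), (nat_lit 0), (nat_lit 0), (nat_lit 7119523)]) (PF.cons (PF.leaf (nat_lit 4316416) (nat_lit 243435) (nat_lit 49198004) (nat_lit 10298223) [(nat_lit 243435), (nat_lit 0), (nat_lit 0), (nat_lit 7125713)]) (PF.cons (PF.leaf (nat_lit 4492935) (nat_lit 253030) (nat_lit 48925705) (nat_lit 10292513) [(nat_lit 253030), (nat_lit 0), (nat_lit 0), (nat_lit 7131502)]) (PF.cons PF.nil PF.nil))))) (PF.cons (PF.cons (PF.leaf (nat_lit 4543568) (nat_lit 1155741) (nat_lit 48540024) (nat_lit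 10279332) [(nat_lit 0), (nat_lit 1155741), (nat_lit 0), (nat_lit 7133715)]) (PF.cons (PF.leaf (nat_lit 4716271) (nat_lit 259149) (nat_lit 48270667) (nat_lit 10271797) [(nat_lit 259149), (nat_lit 1169594), (nat_lit 0), (nat_lit 7137603)]) (PF.cons (PF.leaf (nat_lit 4900913) (nat_lit 267543) (nat_lit 47986724) (nat_lit 10263038) [(nat_lit 267543), (nat_lit 1183061), (nat_lit 0), (nat_lit 7140901)]) (PF.cons PF.nil PF.nil)))) (PF.cons (PF.cons (PF.leaf (nat_lit
 5124728) (nat_lit 1201089) (nat_lit 47329547) (nat_lit 10235990) [(nat_lit 0), (nat_lit 1201089), (nat_lit 0), (nat_lit 7141096)]) (PF.cons (PF.leaf (nat_lit 5314840) (nat_lit 279941) (nat_lit 47037389) (nat_lit 10224210) [(nat_lit 279941), (nat_lit 1212708), (nat_lit 0), (nat_lit 7141854)]) PF.nil)) (PF.cons PF.nil (PF.cons PF.nil PF.nil))))) (PF.cons (PF.cons (PF.cons (PF.leaf (nat_lit 5075721) (nat_lit 2983426) (nat_lit 46808028) (nat_lit 10196435) [(nat_lit 0), (nat_lit 0), (nat_lit 2983426),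 (nat_lit 7120923)]) (PF.cons (PF.leaf (nat_lit 5251780) (nat_lit 269367) (nat_lit 46540064) (nat_lit 10184587) [(nat_lit 269367), (nat_lit 0), (nat_lit 2993983), (nat_lit 7120809)]) (PF.cons (PF.leaf (nat_lit 5439255) (nat_lit 277280) (nat_lit 46258544) (nat_lit 10171393) [(nat_lit 277280), (nat_lit 0), (nat_lit 3004337), (nat_lit 7119976)]) (PF.cons PF.nil PF.nil)))) (PF.cons (PF.cons (PF.leaf (nat_lit 5658251) (nat_lit 1226506) (nat_lit 45616711) (nat_lit 10135075) [(nat_lit 0), (nat_lit 1226506), (nat_lit 3019197), (nat_lit 7111322)]) (PF.cons PF.nil PF.nil)) (PF.cons PF.nil PF.nil))) (PF.cons (PF.cons (PF.cons (PF.leaf (nat_lit 6177760) (nat_lit 3033429) (nat_lit 43964549) (nat_lit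
 10014729) [(nat_lit 0), (nat_lit 0), (nat_lit 3033429), (nat_lit 7062674)]) (PF.cons PF.nil PF.nil)) (PF.cons PF.nil PF.nil)) PF.nil))) (PF.cons (PF.cons (PF.cons (PF.cons (PF.leaf (nat_lit 5818334) (nat_lit 6970081) (nat_lit 43273061) (nat_lit 9895589) [(nat_lit 0), (nat_lit 0), (nat_lit 0), (nat_lit 6970081)]) (PF.cons (PF.leaf (nat_lit 5991409) (nat_lit 272230) (nat_lit 43028101) (nat_lit 9878628) [(nat_lit 272230), (nat_lit 0), (nat_lit 0), (nat_lit 6964926)]) (PF.cons (PF.leaf (nat_lit 6175233) (nat_lit 279726) (nat_lit 42771180) (nat_lit 9860260) [(nat_lit 279726), (nat_lit 0), (nat_lit 0), (nat_lit 6958959)]) (PF.cons PF.nil PF.nil)))) (PF.cons (PF.cons (PF.leaf (nat_lit 6381511) (nat_lit 1225824) (nat_lit 42190051) (nat_lit 9813483) [(nat_lit 0), (nat_lit 1225824), (nat_lit 0), (nat_lit 6939726)]) (PF.cons PF.nil PF.nil)) (PF.cons PF.nil PF.nil))) (PF.cons (PF.cons (PF.cons (PF.leaf (nat_lit 6867261) (nat_lit 2989151) (nat_lit 40707567) (nat_lit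 9672893) [(nat_lit 0), (nat_lit 0), (nat_lit 2989151), (nat_lit 6869600)]) (PF.cons PF.nil PF.nil)) (PF.cons PF.nil PF.nil)) (PF.cons PF.nil PF.nil))) (PF.cons (PF.cons (PF.cons (PF.cons (PF.leaf (nat_lit 7494904) (nat_lit 6656609)
 (nat_lit 37821477) (nat_lit 9317506) [(nat_lit 0), (nat_lit 0), (nat_lit 0), (nat_lit 6656609)]) (PF.cons PF.nil PF.nil)) (PF.cons PF.nil PF.nil)) (PF.cons PF.nil PF.nil)) (PF.cons PF.nil (PF.cons PF.nil PF.nil))))))

def p14_7_1_0 : pfC (piC [(nat_lit 44228488), (nat_lit 27646207), (nat_lit 20402210), (nat_lit 13743659)] (nat_lit 10300196)) p14_7_1 (nat_lit 4) (nat_lit 0) (nat_lit 1) = true := by decide +kernel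
def p14_7_1_1 : pfC (piC [(nat_lit 44228488), (nat_lit 27646207), (nat_lit 20402210), (nat_lit 13743659)] (nat_lit 10300196)) p14_7_1 (nat_lit 4) (nat_lit 1) (nat_lit 2) = true := by decide +kernel
def p14_7_1_2 : pfC (piC [(nat_lit 44228488), (nat_lit 27646207), (nat_lit 20402210), (nat_lit 13743659)] (nat_lit 10300196)) p14_7_1 (nat_lit 4) (nat_lit 2) (nat_lit 3) = true := by decide +kernel
def p14_7_1_3 : pfC (piC [(nat_lit 44228488), (nat_lit 27646207), (nat_lit 20402210), (nat_lit 13743659)] (nat_lit 10300196)) p14_7_1 (nat_lit 4) (nat_lit 3) (nat_lit 4) = true := by decide +kernel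
def p14_7_1_4 : pfC (piC [(nat_lit 44228488), (nat_lit 27646207), (nat_lit 20402210), (nat_lit 13743659)] (nat_lit 10300196)) p14_7_1 (nat_lit 4) (nat_lit 4) (nat_lit 5) = true := by decide +kernel
def p14_7_1_5 : pfC (piC [(nat_lit 44228488), (nat_lit 27646207), (nat_lit 20402210), (nat_lit 13743659)] (nat_lit 10300196)) p14_7_1 (nat_lit 4) (nat_lit 5) (nat_lit 6) = true := by decide +kernel
def p14_7_1_6 : pfC (piC [(nat_lit 44228488), (nat_lit 27646207), (nat_lit 20402210), (nat_lit 13743659)] (nat_lit 10300196)) p14_7_1 (nat_lit 4) (nat_lit 6) (nat_lit 7) = true := by decide +kernel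
def p14_7_1_7 : pfC (piC [(nat_lit 44228488), (nat_lit 27646207), (nat_lit 20402210), (nat_lit 13743659)] (nat_lit 10300196)) p14_7_1 (nat_lit 4) (nat_lit 7) (nat_lit 8) = true := by decide +kernel
def p14_7_1_8 : pfC (piC [(nat_lit 44228488), (nat_lit 27646207), (nat_lit 20402210), (nat_lit 13743659)] (nat_lit 10300196)) p14_7_1 (nat_lit 4) (nat_lit 8) (nat_lit 9) = true := by decide +kernel
def p14_7_1_9 : pfC (piC [(nat_lit 44228488), (nat_lit 27646207), (nat_lit 20402210), (nat_lit 13743659)] (nat_lit 10300196)) p14_7_1 (nat_lit 4) (nat_lit 9) (nat_lit 10) = true := by decide +kernel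
def p14_7_1_10 : pfC (piC [(nat_lit 44228488), (nat_lit 27646207), (nat_lit 20402210), (nat_lit 13743659)] (nat_lit 10300196)) p14_7_1 (nat_lit 4) (nat_lit 10) (nat_lit 11) = true := by decide +kernel
def p14_7_1_11 : pfC (piC [(nat_lit 44228488), (nat_lit 27646207), (nat_lit 20402210), (nat_lit 13743659)] (nat_lit 10300196)) p14_7_1 (nat_lit 4) (nat_lit 11) (nat_lit 12) = true := by decide +kernel
def p14_7_1_12 : pfC (piC [(nat_lit 44228488), (nat_lit 27646207), (nat_lit 20402210), (nat_lit 13743659)] (nat_lit 10300196)) p14_7_1 (nat_lit 4) (nat_lit 12) (nat_lit 13) = true := by decide +kernel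
def p14_7_1_13 : pfC (piC [(nat_lit 44228488), (nat_lit 27646207), (nat_lit 20402210), (nat_lit 13743659)] (nat_lit 10300196)) p14_7_1 (nat_lit 4) (nat_lit 13) (nat_lit 14) = true := by decide +kernel
def p14_7_1_14 : pfC (piC [(nat_lit 44228488), (nat_lit 27646207), (nat_lit 20402210), (nat_lit 13743659)] (nat_lit 10300196)) p14_7_1 (nat_lit 4) (nat_lit 14) (nat_lit 15) = true := by decide +kernel
def p14_7_1_15 : pfC (piC [(nat_lit 44228488), (nat_lit 27646207), (nat_lit 20402210), (nat_lit 13743659)] (nat_lit 10300196)) p14_7_1 (nat_lit 4) (nat_lit 15) (nat_lit 16) = true := by decide +kernel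
def p14_7_1_16 : pfC (piC [(nat_lit 44228488), (nat_lit 27646207), (nat_lit 20402210), (nat_lit 13743659)] (nat_lit 10300196)) p14_7_1 (nat_lit 4) (nat_lit 16) (nat_lit 17) = true := by decide +kernel
def p14_7_1_17 : pfC (piC [(nat_lit 44228488), (nat_lit 27646207), (nat_lit 20402210), (nat_lit 13743659)] (nat_lit 10300196)) p14_7_1 (nat_lit 4) (nat_lit 17) (nat_lit 18) = true := by decide +kernel
def p14_7_1_18 : pfC (piC [(nat_lit 44228488), (nat_lit 27646207), (nat_lit 20402210), (nat_lit 13743659)] (nat_lit 10300196)) p14_7_1 (nat_lit 4) (nat_lit 18) (nat_lit 19) = true := by decide +kernel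
def p14_7_1_19 : pfC (piC [(nat_lit 44228488), (nat_lit 27646207), (nat_lit 20402210), (nat_lit 13743659)] (nat_lit 10300196)) p14_7_1 (nat_lit 4) (nat_lit 19) (nat_lit 20) = true := by decide +kernel
def p14_7_1_20 : pfC (piC [(nat_lit 44228488), (nat_lit 27646207), (nat_lit 20402210), (nat_lit 13743659)] (nat_lit 10300196)) p14_7_1 (nat_lit 4) (nat_lit 20) (nat_lit 21) = true := by decide +kernel
def p14_7_1_21 : pfC (piC [(nat_lit 44228488), (nat_lit 27646207), (nat_lit 20402210), (nat_lit 13743659)] (nat_lit 10300196)) p14_7_1 (nat_lit 4) (nat_lit 21) (nat_lit 22) = true := by decide +kernel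
def p14_7_1_22 : pfC (piC [(nat_lit 44228488), (nat_lit 27646207), (nat_lit 20402210), (nat_lit 13743659)] (nat_lit 10300196)) p14_7_1 (nat_lit 4) (nat_lit 22) (nat_lit 23) = true := by decide +kernel
def p14_7_1_23 : pfC (piC [(nat_lit 44228488), (nat_lit 27646207), (nat_lit 20402210), (nat_lit 13743659)] (nat_lit 10300196)) p14_7_1 (nat_lit 4) (nat_lit 23) (nat_lit 24) = true := by decide +kernel
def p14_7_1_24 : pfC (piC [(nat_lit 44228488), (nat_lit 27646207), (nat_lit 20402210), (nat_lit 13743659)] (nat_lit 10300196)) p14_7_1 (nat_lit 4) (nat_lit 24) (nat_lit 25) = true := by decide +kernel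
def p14_7_1_25 : pfC (piC [(nat_lit 44228488), (nat_lit 27646207), (nat_lit 20402210), (nat_lit 13743659)] (nat_lit 10300196)) p14_7_1 (nat_lit 4) (nat_lit 25) (nat_lit 26) = true := by decide +kernel
def p14_7_1_26 : pfC (piC [(nat_lit 44228488), (nat_lit 27646207), (nat_lit 20402210), (nat_lit 13743659)] (nat_lit 10300196)) p14_7_1 (nat_lit 4) (nat_lit 26) (nat_lit 27) = true := by decide +kernel
def p14_7_1_27 : pfC (piC [(nat_lit 44228488), (nat_lit 27646207), (nat_lit 20402210), (nat_lit 13743659)] (nat_lit 10300196)) p14_7_1 (nat_lit 4) (nat_lit 27) (nat_lit 28) = true := by decide +kernel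
def p14_7_1_28 : pfC (piC [(nat_lit 44228488), (nat_lit 27646207), (nat_lit 20402210), (nat_lit 13743659)] (nat_lit 10300196)) p14_7_1 (nat_lit 4) (nat_lit 28) (nat_lit 29) = true := by decide +kernel
def p14_7_1_29 : pfC (piC [(nat_lit 44228488), (nat_lit 27646207), (nat_lit 20402210), (nat_lit 13743659)] (nat_lit 10300196)) p14_7_1 (nat_lit 4) (nat_lit 29) (nat_lit 30) = true := by decide +kernel
def p14_7_1_30 : pfC (piC [(nat_lit 44228488), (nat_lit 27646207), (nat_lit 20402210), (nat_lit 13743659)] (nat_lit 10300196)) p14_7_1 (nat_lit 4) (nat_lit 30) (nat_lit 31) = true := by decide +kernel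
def p14_7_1_31 : pfC (piC [(nat_lit 44228488), (nat_lit 27646207), (nat_lit 20402210), (nat_lit 13743659)] (nat_lit 10300196)) p14_7_1 (nat_lit 4) (nat_lit 31) (nat_lit 32) = true := by decide +kernel
def p14_7_1_32 : pfC (piC [(nat_lit 44228488), (nat_lit 27646207), (nat_lit 20402210), (nat_lit 13743659)] (nat_lit 10300196)) p14_7_1 (nat_lit 4) (nat_lit 32) (nat_lit 33) = true := by decide +kernel
def p14_7_1_33 : pfC (piC [(nat_lit 44228488), (nat_lit 27646207), (nat_lit 20402210), (nat_lit 13743659)] (nat_lit 10300196)) p14_7_1 (nat_lit 4) (nat_lit 33) (nat_lit 34) = true := by decide +kernel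
def p14_7_1_34 : pfC (piC [(nat_lit 44228488), (nat_lit 27646207), (nat_lit 20402210), (nat_lit 13743659)] (nat_lit 10300196)) p14_7_1 (nat_lit 4) (nat_lit 34) (nat_lit 35) = true := by decide +kernel
def p14_7_1_35 : pfC (piC [(nat_lit 44228488), (nat_lit 27646207), (nat_lit 20402210), (nat_lit 13743659)] (nat_lit 10300196)) p14_7_1 (nat_lit 4) (nat_lit 35) (nat_lit 36) = true := by decide +kernel
def p14_7_1_36 : pfC (piC [(nat_lit 44228488), (nat_lit 27646207), (nat_lit 20402210), (nat_lit 13743659)] (nat_lit 10300196)) p14_7_1 (nat_lit 4) (nat_lit 36) (nat_lit 37) = true := by decide +kernel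
def p14_7_1_37 : pfC (piC [(nat_lit 44228488), (nat_lit 27646207), (nat_lit 20402210), (nat_lit 13743659)] (nat_lit 10300196)) p14_7_1 (nat_lit 4) (nat_lit 37) (nat_lit 38) = true := by decide +kernel
def p14_7_1_38 : pfC (piC [(nat_lit 44228488), (nat_lit 27646207), (nat_lit 20402210), (nat_lit 13743659)] (nat_lit 10300196)) p14_7_1 (nat_lit 4) (nat_lit 38) (nat_lit 39) = true := by decide +kernel
def p14_7_1_39 : pfC (piC [(nat_lit 44228488), (nat_lit 27646207), (nat_lit 20402210), (nat_lit 13743659)] (nat_lit 10300196)) p14_7_1 (nat_lit 4) (nat_lit 39) (nat_lit 40) = true := by decide +kernel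
theorem p14_7_1_T : PfS (PiF n14_7.reverse (nat_lit 10300196)) p14_7_1 (nat_lit 4) [] 0 :=
  pftab_of (los := [(nat_lit 44228488), (nat_lit 27646207), (nat_lit 20402210), (nat_lit 13743659)]) (by decide +kernel) (hi := (nat_lit 40)) (PfP.trans (PfP.trans (PfP.trans (PfP.trans (PfP.trans (PfP.trans (PfP.trans (PfP.trans (PfP.trans (PfP.trans (PfP.trans (PfP.trans (PfP.trans (PfP.trans (PfP.trans (PfP.trans (PfP.trans (PfP.trans (PfP.trans (PfP.trans (PfP.trans (PfP.trans (PfP.trans (PfP.trans (PfP.trans (PfP.trans (PfP.trans (PfP.trans (PfP.trans (PfP.trans (PfP.trans (PfP.trans (PfP.trans (PfP.trans (PfP.trans (PfP.trans (PfP.trans (PfP.trans (PfP.trans (pfC_sound p14_7_1_0) (pfC_sound p14_7_1_1)) (pfC_sound p14_7_1_2)) (pfC_sound p14_7_1_3)) (pfC_sound p14_7_1_4)) (pfC_sound p14_7_1_5)) (pfC_sound p14_7_1_6)) (pfC_sound p14_7_1_7)) (pfC_sound p14_7_1_8)) (pfC_sound p14_7_1_9)) (pfC_sound p14_7_1_10)) (pfC_sound p14_7_1_11)) (pfC_sound p14_7_1_12))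 (pfC_sound p14_7_1_13)) (pfC_sound p14_7_1_14)) (pfC_sound p14_7_1_15)) (pfC_sound p14_7_1_16)) (pfC_sound p14_7_1_17)) (pfC_sound p14_7_1_18)) (pfC_sound p14_7_1_19)) (pfC_sound p14_7_1_20)) (pfC_sound p14_7_1_21)) (pfC_sound p14_7_1_22)) (pfC_sound p14_7_1_23)) (pfC_sound p14_7_1_24)) (pfC_sound p14_7_1_25)) (pfC_sound p14_7_1_26)) (pfC_sound p14_7_1_27)) (pfC_sound p14_7_1_28)) (pfC_sound p14_7_1_29)) (pfC_sound p14_7_1_30)) (pfC_sound p14_7_1_31)) (pfC_sound
 p14_7_1_32)) (pfC_sound p14_7_1_33)) (pfC_sound p14_7_1_34)) (pfC_sound p14_7_1_35)) (pfC_sound p14_7_1_36)) (pfC_sound p14_7_1_37)) (pfC_sound p14_7_1_38)) (pfC_sound p14_7_1_39)) (by decide +kernel)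

def z14_7_1 : zOK yB14_7 (nat_lit 1) (nat_lit 400) (nat_lit 600) (nat_lit 10300196) (nat_lit 6733447) = true := by decide +kernel
def g14_7_1 : gOK yB14_7.x P14_7 (nat_lit 1432) (q14_7 :: r14_7) (nat_lit 1) (nat_lit 400) (nat_lit 2) (nat_lit 600) (nat_lit 11000000) (nat_lit 17850000) (nat_lit 12712500) (nat_lit 12712500) [(nat_lit 800), (nat_lit 1040)] = true := by decide +kernel
def v14_7_1 : ivC P14_7 s14_7 w14_7 n14_7 (nat_lit 4) (nat_lit 5120) (nat_lit 1) (nat_lit 400) f136_1_400 f144_1_400 (nat_lit 2) (nat_lit 600) f136_1_600 f144_1_600 (nat_lit 10300196) (nat_lit 6733447) p14_7_1 = true := by decide +kernel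
def p14_7_2 : PF := (PF.cons (PF.cons (PF.cons (PF.cons (PF.leaf (nat_lit 2755067) (nat_lit 16102259) (nat_lit 51006553) (nat_lit 16102259) [(nat_lit 0), (nat_lit 0), (nat_lit 0), (nat_lit 0)]) (PF.cons (PF.leaf (nat_lit 2853739) (nat_lit 162754) (nat_lit 50854882) (nat_lit 16091176) [(nat_lit 162754), (nat_lit 0), (nat_lit 0), (nat_lit 0)]) (PF.cons (PF.leaf (nat_lit 2974816) (nat_lit 177096) (nat_lit 50676888) (nat_lit 16077731) [(nat_lit 177096), (nat_lit 0), (nat_lit 0), (nat_lit 0)]) (PF.cons (PF.leaf (nat_lit 3110846) (nat_lit 189886) (nat_lit 50477068) (nat_lit 16062085) [(nat_lit 189886), (nat_lit 0), (nat_lit 0), (nat_lit 0)]) (PF.cons (PF.leaf (nat_lit 3259702) (nat_lit 201484) (nat_lit 50258553) (nat_lit 16044320) [(nat_lit 201484), (nat_lit 0), (nat_lit 0), (nat_lit 0)]) (PF.cons (PF.leaf (nat_lit 3420108) (nat_lit 212123) (nat_lit 50023717) (nat_lit 16024476) [(nat_lit 212123), (nat_lit 0), (nat_lit 0), (nat_lit 0)]) (PF.cons PF.nil PF.nil)))))))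 (PF.cons (PF.cons (PF.leaf (nat_lit 3192943) (nat_lit 971351) (nat_lit 50108373) (nat_lit 16029088) [(nat_lit 0), (nat_lit 971351), (nat_lit 0), (nat_lit 0)]) (PF.cons (PF.leaf (nat_lit 3326108) (nat_lit 200811) (nat_lit 49905100) (nat_lit
 16011481) [(nat_lit 200811), (nat_lit 991418), (nat_lit 0), (nat_lit 0)]) (PF.cons (PF.leaf (nat_lit 3475602) (nat_lit 211846) (nat_lit 49682115) (nat_lit 15991516) [(nat_lit 211846), (nat_lit 1011486), (nat_lit 0), (nat_lit 0)]) (PF.cons (PF.leaf (nat_lit 3637162) (nat_lit 221918) (nat_lit 49442531) (nat_lit 15969316) [(nat_lit 221918), (nat_lit 1031210), (nat_lit 0), (nat_lit 0)]) (PF.cons (PF.leaf (nat_lit 3809057) (nat_lit 231206) (nat_lit 49188635) (nat_lit 15944955) [(nat_lit 231206), (nat_lit 1050397), (nat_lit 0), (nat_lit 0)]) PF.nil))))) (PF.cons (PF.cons (PF.leaf (nat_lit 3697479) (nat_lit 1044713) (nat_lit 49087150) (nat_lit 15932235) [(nat_lit 0), (nat_lit 1044713), (nat_lit 0), (nat_lit 0)]) (PF.cons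 (PF.leaf (nat_lit 3856605) (nat_lit 230360) (nat_lit 48846278) (nat_lit 15907983) [(nat_lit 230360), (nat_lit 1062095), (nat_lit 0), (nat_lit 0)]) (PF.cons (PF.leaf (nat_lit 4028489) (nat_lit 239272) (nat_lit 48590511) (nat_lit 15881415) [(nat_lit 239272), (nat_lit 1079170), (nat_lit 0), (nat_lit 0)]) (PF.cons PF.nil PF.nil)))) (PF.cons (PF.cons (PF.leaf (nat_lit 4251338) (nat_lit 1105012) (nat_lit 47981733) (nat_lit 15812043) [(nat_lit 0), (nat_lit 1105012), (nat_lit
 0), (nat_lit 0)]) (PF.cons (PF.leaf (nat_lit 4430544) (nat_lit 254245) (nat_lit 47713613) (nat_lit 15781242) [(nat_lit 254245), (nat_lit 1119903), (nat_lit 0), (nat_lit 0)]) PF.nil)) (PF.cons PF.nil (PF.cons PF.nil PF.nil)))))) (PF.cons (PF.cons (PF.cons (PF.leaf (nat_lit 3706278) (nat_lit 2746813) (nat_lit 48505552) (nat_lit 15856446) [(nat_lit 0), (nat_lit 0), (nat_lit 2746813), (nat_lit 0)]) (PF.cons (PF.leaf (nat_lit 3847601) (nat_lit 217669) (nat_lit 48293073) (nat_lit 15833623)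 [(nat_lit 217669), (nat_lit 0), (nat_lit 2764446), (nat_lit 0)]) (PF.cons (PF.leaf (nat_lit 4004616) (nat_lit 228252) (nat_lit 48061596) (nat_lit 15808114) [(nat_lit 228252), (nat_lit 0), (nat_lit 2782596), (nat_lit 0)]) (PF.cons (PF.leaf (nat_lit 4173154) (nat_lit 237770) (nat_lit 47814490) (nat_lit 15780151) [(nat_lit 237770), (nat_lit 0), (nat_lit 2800860), (nat_lit 0)]) (PF.cons PF.nil PF.nil))))) (PF.cons (PF.cons (PF.leaf (nat_lit 4226402) (nat_lit 1095614) (nat_lit 47459896) (nat_lit 15735997) [(nat_lit 0), (nat_lit 1095614), (nat_lit 2817304), (nat_lit 0)]) (PF.cons (PF.leaf (nat_lit 4391538) (nat_lit 244564) (nat_lit 47214085) (nat_lit 15706365) [(nat_lit 244564), (nat_lit 1110450), (nat_lit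
 2833346), (nat_lit 0)]) (PF.cons (PF.leaf (nat_lit 4568808) (nat_lit 252954) (nat_lit 46954346) (nat_lit 15674273) [(nat_lit 252954), (nat_lit 1124960), (nat_lit 2849323), (nat_lit 0)]) (PF.cons PF.nil PF.nil)))) (PF.cons (PF.cons (PF.leaf (nat_lit 4789069) (nat_lit 1145573) (nat_lit 46347948) (nat_lit 15593539) [(nat_lit 0), (nat_lit 1145573), (nat_lit 2876176), (nat_lit 0)]) (PF.cons PF.nil PF.nil)) (PF.cons PF.nil (PF.cons PF.nil PF.nil))))) (PF.cons (PF.cons (PF.cons (PF.leaf (nat_lit 4749749) (nat_lit 2870973) (nat_lit 45854236) (nat_lit 15512629) [(nat_lit 0), (nat_lit 0), (nat_lit 2870973), (nat_lit 0)]) (PF.cons (PF.leaf (nat_lit 4919312) (nat_lit 256121) (nat_lit 45607173) (nat_lit 15478386) [(nat_lit 256121), (nat_lit 0), (nat_lit 2883565), (nat_lit 0)]) (PF.cons PF.nil (PF.cons PF.nil PF.nil)))) (PF.cons (PF.cons (PF.leaf (nat_lit 5316798) (nat_lit 1176496) (nat_lit 44749761) (nat_lit 15351663) [(nat_lit 0), (nat_lit 1176496), (nat_lit 2915446),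 (nat_lit 0)]) (PF.cons PF.nil PF.nil)) (PF.cons PF.nil PF.nil))) (PF.cons (PF.cons (PF.cons (PF.leaf (nat_lit 5832654) (nat_lit 2939716) (nat_lit 43197820) (nat_lit 15091841) [(nat_lit 0), (nat_lit 0), (nat_lit 2939716),
 (nat_lit 0)]) (PF.cons PF.nil PF.nil)) (PF.cons PF.nil PF.nil)) (PF.cons PF.nil PF.nil))))) (PF.cons (PF.cons (PF.cons (PF.cons (PF.leaf (nat_lit 4482690) (nat_lit 6826965) (nat_lit 44968278) (nat_lit 15313569) [(nat_lit 0), (nat_lit 0), (nat_lit 0), (nat_lit 6826965)]) (PF.cons (PF.leaf (nat_lit 4625649) (nat_lit 226852) (nat_lit 44767162) (nat_lit 15284837) [(nat_lit 226852), (nat_lit 0), (nat_lit 0), (nat_lit 6829961)]) (PF.cons (PF.leaf (nat_lit 4783679) (nat_lit 237173) (nat_lit 44548735) (nat_lit 15253114) [(nat_lit 237173), (nat_lit 0), (nat_lit 0), (nat_lit 6832616)]) (PF.cons (PF.leaf (nat_lit 4952658) (nat_lit 246329) (nat_lit 44316274) (nat_lit 15218769) [(nat_lit 246329), (nat_lit 0), (nat_lit 0), (nat_lit 6834780)]) (PF.cons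 (PF.leaf (nat_lit 5130763) (nat_lit 254568) (nat_lit 44072139) (nat_lit 15182057) [(nat_lit 254568), (nat_lit 0), (nat_lit 0), (nat_lit 6836342)]) PF.nil))))) (PF.cons (PF.cons (PF.leaf (nat_lit 4997019) (nat_lit 1121643) (nat_lit 43988000) (nat_lit 15166754) [(nat_lit 0), (nat_lit 1121643), (nat_lit 0), (nat_lit 6832414)]) (PF.cons (PF.leaf (nat_lit 5161845) (nat_lit 251841) (nat_lit 43758203) (nat_lit 15131386) [(nat_lit 251841), (nat_lit
 1134325), (nat_lit 0), (nat_lit 6833056)]) (PF.cons (PF.leaf (nat_lit 5338104) (nat_lit 259811) (nat_lit 43516018) (nat_lit 15093495) [(nat_lit 259811), (nat_lit 1146598), (nat_lit 0), (nat_lit 6833076)]) (PF.cons PF.nil PF.nil)))) (PF.cons (PF.cons (PF.leaf (nat_lit 5547619) (nat_lit 1162323) (nat_lit 42956496) (nat_lit 15001090) [(nat_lit 0), (nat_lit 1162323), (nat_lit 0), (nat_lit 6826578)]) (PF.cons (PF.leaf (nat_lit 5728664) (nat_lit 271247) (nat_lit 42707440) (nat_lit 14960003) [(nat_lit 271247), (nat_lit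 1172828), (nat_lit 0), (nat_lit 6824464)]) PF.nil)) (PF.cons PF.nil (PF.cons PF.nil PF.nil))))) (PF.cons (PF.cons (PF.cons (PF.leaf (nat_lit 5493153) (nat_lit 2873821) (nat_lit 42516122) (nat_lit 14915577) [(nat_lit 0), (nat_lit 0), (nat_lit 2873821), (nat_lit 6803291)]) (PF.cons (PF.leaf (nat_lit 5660877) (nat_lit 260790) (nat_lit 42287653) (nat_lit 14877010) [(nat_lit 260790), (nat_lit 0), (nat_lit 2882588), (nat_lit 6800770)]) (PF.cons (PF.leaf (nat_lit 5839546) (nat_lit 268295) (nat_lit 42047641) (nat_lit 14835916) [(nat_lit 268295), (nat_lit 0), (nat_lit 2891127), (nat_lit 6797537)]) (PF.cons PF.nil PF.nil)))) (PF.cons (PF.cons (PF.leaf (nat_lit 6044552) (nat_lit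
 1183163) (nat_lit 41501226) (nat_lit 14737793) [(nat_lit 0), (nat_lit 1183163), (nat_lit 2902391), (nat_lit 6784238)]) (PF.cons (PF.leaf (nat_lit 6227034) (nat_lit 278318) (nat_lit 41256172) (nat_lit 14693885) [(nat_lit 278318), (nat_lit 1192062), (nat_lit 2909301), (nat_lit 6779073)]) PF.nil)) (PF.cons PF.nil PF.nil))) (PF.cons (PF.cons (PF.cons (PF.leaf (nat_lit 6529087) (nat_lit 2909794) (nat_lit 40096519) (nat_lit 14464837) [(nat_lit 0), (nat_lit 0), (nat_lit 2909794), (nat_lit 6727867)]) (PF.cons PF.nil PF.nil)) (PF.cons PF.nil PF.nil)) PF.nil))) (PF.cons (PF.cons (PF.cons (PF.cons (PF.leaf (nat_lit 6175718) (nat_lit 6641599) (nat_lit 39523047) (nat_lit 14302565) [(nat_lit 0), (nat_lit 0), (nat_lit 0), (nat_lit 6641599)]) (PF.cons (PF.leaf (nat_lit 6340648) (nat_lit 262432) (nat_lit 39313545) (nat_lit 14261993) [(nat_lit 262432), (nat_lit 0), (nat_lit 0), (nat_lit 6635420)]) (PF.cons (PF.leaf (nat_lit 6515845) (nat_lit 269558) (nat_lit 39093778)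 (nat_lit 14218971) [(nat_lit 269558), (nat_lit 0), (nat_lit 0), (nat_lit 6628472)]) (PF.cons PF.nil PF.nil)))) (PF.cons (PF.cons (PF.leaf (nat_lit 6709966) (nat_lit 1178421) (nat_lit 38597165) (nat_lit 14117886) [(nat_lit 0), (nat_lit
 1178421), (nat_lit 0), (nat_lit 6607669)]) (PF.cons PF.nil PF.nil)) (PF.cons PF.nil PF.nil))) (PF.cons (PF.cons (PF.cons (PF.leaf (nat_lit 7165809) (nat_lit 2861397) (nat_lit 37330728) (nat_lit 13843421) [(nat_lit 0), (nat_lit 0), (nat_lit 2861397), (nat_lit 6536632)]) (PF.cons PF.nil PF.nil)) PF.nil) PF.nil)) (PF.cons PF.nil (PF.cons PF.nil (PF.cons PF.nil PF.nil))))))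

def p14_7_2_0 : pfC (piC [(nat_lit 44228488), (nat_lit 27646207), (nat_lit 20402210), (nat_lit 13743659)] (nat_lit 6733447)) p14_7_2 (nat_lit 4) (nat_lit 0) (nat_lit 1) = true := by decide +kernel
def p14_7_2_1 : pfC (piC [(nat_lit 44228488), (nat_lit 27646207), (nat_lit 20402210), (nat_lit 13743659)] (nat_lit 6733447)) p14_7_2 (nat_lit 4) (nat_lit 1) (nat_lit 2) = true := by decide +kernel
def p14_7_2_2 : pfC (piC [(nat_lit 44228488), (nat_lit 27646207), (nat_lit 20402210), (nat_lit 13743659)] (nat_lit 6733447)) p14_7_2 (nat_lit 4) (nat_lit 2) (nat_lit 3) = true := by decide +kernel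
def p14_7_2_3 : pfC (piC [(nat_lit 44228488), (nat_lit 27646207), (nat_lit 20402210), (nat_lit 13743659)] (nat_lit 6733447)) p14_7_2 (nat_lit 4) (nat_lit 3) (nat_lit 4) = true := by decide +kernel
def p14_7_2_4 : pfC (piC [(nat_lit 44228488), (nat_lit 27646207), (nat_lit 20402210), (nat_lit 13743659)] (nat_lit 6733447)) p14_7_2 (nat_lit 4) (nat_lit 4) (nat_lit 5) = true := by decide +kernel
def p14_7_2_5 : pfC (piC [(nat_lit 44228488), (nat_lit 27646207), (nat_lit 20402210), (nat_lit 13743659)] (nat_lit 6733447)) p14_7_2 (nat_lit 4) (nat_lit 5) (nat_lit 6) = true := by decide +kernel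
def p14_7_2_6 : pfC (piC [(nat_lit 44228488), (nat_lit 27646207), (nat_lit 20402210), (nat_lit 13743659)] (nat_lit 6733447)) p14_7_2 (nat_lit 4) (nat_lit 6) (nat_lit 7) = true := by decide +kernel
def p14_7_2_7 : pfC (piC [(nat_lit 44228488), (nat_lit 27646207), (nat_lit 20402210), (nat_lit 13743659)] (nat_lit 6733447)) p14_7_2 (nat_lit 4) (nat_lit 7) (nat_lit 8) = true := by decide +kernel
def p14_7_2_8 : pfC (piC [(nat_lit 44228488), (nat_lit 27646207), (nat_lit 20402210), (nat_lit 13743659)] (nat_lit 6733447)) p14_7_2 (nat_lit 4) (nat_lit 8) (nat_lit 9) = true := by decide +kernel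
def p14_7_2_9 : pfC (piC [(nat_lit 44228488), (nat_lit 27646207), (nat_lit 20402210), (nat_lit 13743659)] (nat_lit 6733447)) p14_7_2 (nat_lit 4) (nat_lit 9) (nat_lit 10) = true := by decide +kernel
def p14_7_2_10 : pfC (piC [(nat_lit 44228488), (nat_lit 27646207), (nat_lit 20402210), (nat_lit 13743659)] (nat_lit 6733447)) p14_7_2 (nat_lit 4) (nat_lit 10) (nat_lit 11) = true := by decide +kernel
def p14_7_2_11 : pfC (piC [(nat_lit 44228488), (nat_lit 27646207), (nat_lit 20402210), (nat_lit 13743659)] (nat_lit 6733447)) p14_7_2 (nat_lit 4) (nat_lit 11) (nat_lit 12) = true := by decide +kernel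
def p14_7_2_12 : pfC (piC [(nat_lit 44228488), (nat_lit 27646207), (nat_lit 20402210), (nat_lit 13743659)] (nat_lit 6733447)) p14_7_2 (nat_lit 4) (nat_lit 12) (nat_lit 13) = true := by decide +kernel
def p14_7_2_13 : pfC (piC [(nat_lit 44228488), (nat_lit 27646207), (nat_lit 20402210), (nat_lit 13743659)] (nat_lit 6733447)) p14_7_2 (nat_lit 4) (nat_lit 13) (nat_lit 14) = true := by decide +kernel
def p14_7_2_14 : pfC (piC [(nat_lit 44228488), (nat_lit 27646207), (nat_lit 20402210), (nat_lit 13743659)] (nat_lit 6733447)) p14_7_2 (nat_lit 4) (nat_lit 14) (nat_lit 15) = true := by decide +kernel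
def p14_7_2_15 : pfC (piC [(nat_lit 44228488), (nat_lit 27646207), (nat_lit 20402210), (nat_lit 13743659)] (nat_lit 6733447)) p14_7_2 (nat_lit 4) (nat_lit 15) (nat_lit 16) = true := by decide +kernel
def p14_7_2_16 : pfC (piC [(nat_lit 44228488), (nat_lit 27646207), (nat_lit 20402210), (nat_lit 13743659)] (nat_lit 6733447)) p14_7_2 (nat_lit 4) (nat_lit 16) (nat_lit 17) = true := by decide +kernel
def p14_7_2_17 : pfC (piC [(nat_lit 44228488), (nat_lit 27646207), (nat_lit 20402210), (nat_lit 13743659)] (nat_lit 6733447)) p14_7_2 (nat_lit 4) (nat_lit 17) (nat_lit 18) = true := by decide +kernel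
def p14_7_2_18 : pfC (piC [(nat_lit 44228488), (nat_lit 27646207), (nat_lit 20402210), (nat_lit 13743659)] (nat_lit 6733447)) p14_7_2 (nat_lit 4) (nat_lit 18) (nat_lit 19) = true := by decide +kernel
def p14_7_2_19 : pfC (piC [(nat_lit 44228488), (nat_lit 27646207), (nat_lit 20402210), (nat_lit 13743659)] (nat_lit 6733447)) p14_7_2 (nat_lit 4) (nat_lit 19) (nat_lit 20) = true := by decide +kernel
def p14_7_2_20 : pfC (piC [(nat_lit 44228488), (nat_lit 27646207), (nat_lit 20402210), (nat_lit 13743659)] (nat_lit 6733447)) p14_7_2 (nat_lit 4) (nat_lit 20) (nat_lit 21) = true := by decide +kernel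
def p14_7_2_21 : pfC (piC [(nat_lit 44228488), (nat_lit 27646207), (nat_lit 20402210), (nat_lit 13743659)] (nat_lit 6733447)) p14_7_2 (nat_lit 4) (nat_lit 21) (nat_lit 22) = true := by decide +kernel
def p14_7_2_22 : pfC (piC [(nat_lit 44228488), (nat_lit 27646207), (nat_lit 20402210), (nat_lit 13743659)] (nat_lit 6733447)) p14_7_2 (nat_lit 4) (nat_lit 22) (nat_lit 23) = true := by decide +kernel
def p14_7_2_23 : pfC (piC [(nat_lit 44228488), (nat_lit 27646207), (nat_lit 20402210), (nat_lit 13743659)] (nat_lit 6733447)) p14_7_2 (nat_lit 4) (nat_lit 23) (nat_lit 24) = true := by decide +kernel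
def p14_7_2_24 : pfC (piC [(nat_lit 44228488), (nat_lit 27646207), (nat_lit 20402210), (nat_lit 13743659)] (nat_lit 6733447)) p14_7_2 (nat_lit 4) (nat_lit 24) (nat_lit 25) = true := by decide +kernel
def p14_7_2_25 : pfC (piC [(nat_lit 44228488), (nat_lit 27646207), (nat_lit 20402210), (nat_lit 13743659)] (nat_lit 6733447)) p14_7_2 (nat_lit 4) (nat_lit 25) (nat_lit 26) = true := by decide +kernel
def p14_7_2_26 : pfC (piC [(nat_lit 44228488), (nat_lit 27646207), (nat_lit 20402210), (nat_lit 13743659)] (nat_lit 6733447)) p14_7_2 (nat_lit 4) (nat_lit 26) (nat_lit 27) = true := by decide +kernel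
def p14_7_2_27 : pfC (piC [(nat_lit 44228488), (nat_lit 27646207), (nat_lit 20402210), (nat_lit 13743659)] (nat_lit 6733447)) p14_7_2 (nat_lit 4) (nat_lit 27) (nat_lit 28) = true := by decide +kernel
def p14_7_2_28 : pfC (piC [(nat_lit 44228488), (nat_lit 27646207), (nat_lit 20402210), (nat_lit 13743659)] (nat_lit 6733447)) p14_7_2 (nat_lit 4) (nat_lit 28) (nat_lit 29) = true := by decide +kernel
def p14_7_2_29 : pfC (piC [(nat_lit 44228488), (nat_lit 27646207), (nat_lit 20402210), (nat_lit 13743659)] (nat_lit 6733447)) p14_7_2 (nat_lit 4) (nat_lit 29) (nat_lit 30) = true := by decide +kernel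
def p14_7_2_30 : pfC (piC [(nat_lit 44228488), (nat_lit 27646207), (nat_lit 20402210), (nat_lit 13743659)] (nat_lit 6733447)) p14_7_2 (nat_lit 4) (nat_lit 30) (nat_lit 31) = true := by decide +kernel
def p14_7_2_31 : pfC (piC [(nat_lit 44228488), (nat_lit 27646207), (nat_lit 20402210), (nat_lit 13743659)] (nat_lit 6733447)) p14_7_2 (nat_lit 4) (nat_lit 31) (nat_lit 32) = true := by decide +kernel
def p14_7_2_32 : pfC (piC [(nat_lit 44228488), (nat_lit 27646207), (nat_lit 20402210), (nat_lit 13743659)] (nat_lit 6733447)) p14_7_2 (nat_lit 4) (nat_lit 32) (nat_lit 33) = true := by decide +kernel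
def p14_7_2_33 : pfC (piC [(nat_lit 44228488), (nat_lit 27646207), (nat_lit 20402210), (nat_lit 13743659)] (nat_lit 6733447)) p14_7_2 (nat_lit 4) (nat_lit 33) (nat_lit 34) = true := by decide +kernel
def p14_7_2_34 : pfC (piC [(nat_lit 44228488), (nat_lit 27646207), (nat_lit 20402210), (nat_lit 13743659)] (nat_lit 6733447)) p14_7_2 (nat_lit 4) (nat_lit 34) (nat_lit 35) = true := by decide +kernel
def p14_7_2_35 : pfC (piC [(nat_lit 44228488), (nat_lit 27646207), (nat_lit 20402210), (nat_lit 13743659)] (nat_lit 6733447)) p14_7_2 (nat_lit 4) (nat_lit 35) (nat_lit 36) = true := by decide +kernel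
def p14_7_2_36 : pfC (piC [(nat_lit 44228488), (nat_lit 27646207), (nat_lit 20402210), (nat_lit 13743659)] (nat_lit 6733447)) p14_7_2 (nat_lit 4) (nat_lit 36) (nat_lit 37) = true := by decide +kernel
def p14_7_2_37 : pfC (piC [(nat_lit 44228488), (nat_lit 27646207), (nat_lit 20402210), (nat_lit 13743659)] (nat_lit 6733447)) p14_7_2 (nat_lit 4) (nat_lit 37) (nat_lit 38) = true := by decide +kernel
def p14_7_2_38 : pfC (piC [(nat_lit 44228488), (nat_lit 27646207), (nat_lit 20402210), (nat_lit 13743659)] (nat_lit 6733447)) p14_7_2 (nat_lit 4) (nat_lit 38) (nat_lit 39) = true := by decide +kernel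
def p14_7_2_39 : pfC (piC [(nat_lit 44228488), (nat_lit 27646207), (nat_lit 20402210), (nat_lit 13743659)] (nat_lit 6733447)) p14_7_2 (nat_lit 4) (nat_lit 39) (nat_lit 40) = true := by decide +kernel
def p14_7_2_40 : pfC (piC [(nat_lit 44228488), (nat_lit 27646207), (nat_lit 20402210), (nat_lit 13743659)] (nat_lit 6733447)) p14_7_2 (nat_lit 4) (nat_lit 40) (nat_lit 41) = true := by decide +kernel
def p14_7_2_41 : pfC (piC [(nat_lit 44228488), (nat_lit 27646207), (nat_lit 20402210), (nat_lit 13743659)] (nat_lit 6733447)) p14_7_2 (nat_lit 4) (nat_lit 41) (nat_lit 42) = true := by decide +kernel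
def p14_7_2_42 : pfC (piC [(nat_lit 44228488), (nat_lit 27646207), (nat_lit 20402210), (nat_lit 13743659)] (nat_lit 6733447)) p14_7_2 (nat_lit 4) (nat_lit 42) (nat_lit 43) = true := by decide +kernel
def p14_7_2_43 : pfC (piC [(nat_lit 44228488), (nat_lit 27646207), (nat_lit 20402210), (nat_lit 13743659)] (nat_lit 6733447)) p14_7_2 (nat_lit 4) (nat_lit 43) (nat_lit 44) = true := by decide +kernel
def p14_7_2_44 : pfC (piC [(nat_lit 44228488), (nat_lit 27646207), (nat_lit 20402210), (nat_lit 13743659)] (nat_lit 6733447)) p14_7_2 (nat_lit 4) (nat_lit 44) (nat_lit 45) = true := by decide +kernel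
def p14_7_2_45 : pfC (piC [(nat_lit 44228488), (nat_lit 27646207), (nat_lit 20402210), (nat_lit 13743659)] (nat_lit 6733447)) p14_7_2 (nat_lit 4) (nat_lit 45) (nat_lit 46) = true := by decide +kernel
def p14_7_2_46 : pfC (piC [(nat_lit 44228488), (nat_lit 27646207), (nat_lit 20402210), (nat_lit 13743659)] (nat_lit 6733447)) p14_7_2 (nat_lit 4) (nat_lit 46) (nat_lit 47) = true := by decide +kernel
def p14_7_2_47 : pfC (piC [(nat_lit 44228488), (nat_lit 27646207), (nat_lit 20402210), (nat_lit 13743659)] (nat_lit 6733447)) p14_7_2 (nat_lit 4) (nat_lit 47) (nat_lit 48) = true := by decide +kernel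
def p14_7_2_48 : pfC (piC [(nat_lit 44228488), (nat_lit 27646207), (nat_lit 20402210), (nat_lit 13743659)] (nat_lit 6733447)) p14_7_2 (nat_lit 4) (nat_lit 48) (nat_lit 49) = true := by decide +kernel
theorem p14_7_2_T : PfS (PiF n14_7.reverse (nat_lit 6733447)) p14_7_2 (nat_lit 4) [] 0 :=
  pftab_of (los := [(nat_lit 44228488), (nat_lit 27646207), (nat_lit 20402210), (nat_lit 13743659)]) (by decide +kernel) (hi := (nat_lit 49)) (PfP.trans (PfP.trans (PfP.trans (PfP.trans (PfP.trans (PfP.trans (PfP.trans (PfP.trans (PfP.trans (PfP.trans (PfP.trans (PfP.trans (PfP.trans (PfP.trans (PfP.trans (PfP.trans (PfP.trans (PfP.trans (PfP.trans (PfP.trans (PfP.trans (PfP.trans (PfP.trans (PfP.trans (PfP.trans (PfP.trans (PfP.trans (PfP.trans (PfP.trans (PfP.trans (PfP.trans (PfP.trans (PfP.trans (PfP.trans (PfP.trans (PfP.trans (PfP.trans (PfP.trans (PfP.trans (PfP.trans (PfP.trans (PfP.trans (PfP.trans (PfP.trans (PfP.trans (PfP.trans (PfP.trans (PfP.trans (pfC_sound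 p14_7_2_0) (pfC_sound p14_7_2_1)) (pfC_sound p14_7_2_2)) (pfC_sound p14_7_2_3)) (pfC_sound p14_7_2_4)) (pfC_sound p14_7_2_5)) (pfC_sound p14_7_2_6)) (pfC_sound p14_7_2_7)) (pfC_sound p14_7_2_8)) (pfC_sound p14_7_2_9)) (pfC_sound p14_7_2_10)) (pfC_sound p14_7_2_11)) (pfC_sound p14_7_2_12)) (pfC_sound p14_7_2_13)) (pfC_sound p14_7_2_14)) (pfC_sound p14_7_2_15)) (pfC_sound p14_7_2_16)) (pfC_sound p14_7_2_17)) (pfC_sound p14_7_2_18)) (pfC_sound p14_7_2_19)) (pfC_sound p14_7_2_20)) (pfC_sound p14_7_2_21)) (pfC_sound p14_7_2_22)) (pfC_sound p14_7_2_23)) (pfC_sound p14_7_2_24)) (pfC_sound p14_7_2_25)) (pfC_sound p14_7_2_26)) (pfC_sound p14_7_2_27)) (pfC_sound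
 p14_7_2_28)) (pfC_sound p14_7_2_29)) (pfC_sound p14_7_2_30)) (pfC_sound p14_7_2_31)) (pfC_sound p14_7_2_32)) (pfC_sound p14_7_2_33)) (pfC_sound p14_7_2_34)) (pfC_sound p14_7_2_35)) (pfC_sound p14_7_2_36)) (pfC_sound p14_7_2_37)) (pfC_sound p14_7_2_38)) (pfC_sound p14_7_2_39)) (pfC_sound p14_7_2_40)) (pfC_sound p14_7_2_41)) (pfC_sound p14_7_2_42)) (pfC_sound p14_7_2_43)) (pfC_sound p14_7_2_44)) (pfC_sound p14_7_2_45)) (pfC_sound p14_7_2_46)) (pfC_sound p14_7_2_47)) (pfC_sound p14_7_2_48)) (by decide +kernel)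

def z14_7_2 : zOK yB14_7 (nat_lit 2) (nat_lit 600) (nat_lit 750) (nat_lit 6733447) (nat_lit 4796502) = true := by decide +kernel
def g14_7_2 : gOK yB14_7.x P14_7 (nat_lit 1432) (q14_7 :: r14_7) (nat_lit 2) (nat_lit 600) (nat_lit 3) (nat_lit 750) (nat_lit 12712500) (nat_lit 12712500) (nat_lit 12712500) (nat_lit 12712500) [(nat_lit 800), (nat_lit 1600)] = true := by decide +kernel
def v14_7_2 : ivC P14_7 s14_7 w14_7 n14_7 (nat_lit 4) (nat_lit 4920) (nat_lit 2) (nat_lit 600) f136_1_600 f144_1_600 (nat_lit 3) (nat_lit 750) f136_1_750 f144_1_750 (nat_lit 6733447) (nat_lit 4796502) p14_7_2 = true := by decide +kernel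
def p14_7_3 : PF := (PF.cons (PF.cons (PF.cons (PF.cons (PF.leaf (nat_lit 3125362) (nat_lit 21316003) (nat_lit 45792809) (nat_lit 21316003) [(nat_lit 0), (nat_lit 0), (nat_lit 0), (nat_lit 0)]) (PF.cons (PF.leaf (nat_lit 3219344) (nat_lit 156627) (nat_lit 45667025) (nat_lit 21285159) [(nat_lit 156627), (nat_lit 0), (nat_lit 0), (nat_lit 0)]) (PF.cons (PF.leaf (nat_lit 3334537) (nat_lit 170358) (nat_lit 45519413) (nat_lit 21248683) [(nat_lit 170358), (nat_lit 0), (nat_lit 0), (nat_lit 0)]) (PF.cons (PF.leaf (nat_lit 3464294) (nat_lit 182578) (nat_lit 45353697) (nat_lit 21207380) [(nat_lit 182578), (nat_lit 0), (nat_lit 0), (nat_lit 0)]) (PF.cons (PF.leaf (nat_lit 3606124) (nat_lit 193638) (nat_lit 45172471) (nat_lit 21161788) [(nat_lit 193638), (nat_lit 0), (nat_lit 0), (nat_lit 0)]) (PF.cons (PF.leaf (nat_lit 3758860) (nat_lit 203761) (nat_lit 44977700) (nat_lit 21112303) [(nat_lit 203761), (nat_lit 0), (nat_lit 0), (nat_lit 0)]) (PF.cons (PF.leaf (nat_lit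 3921526) (nat_lit 213103) (nat_lit 44770957) (nat_lit 21059232) [(nat_lit 213103), (nat_lit 0), (nat_lit 0), (nat_lit 0)]) (PF.cons PF.nil (PF.cons PF.nil PF.nil))))))))) (PF.cons (PF.cons (PF.leaf (nat_lit 3540965) (nat_lit 931898) (nat_lit
 45048302) (nat_lit 21128612) [(nat_lit 0), (nat_lit 931898), (nat_lit 0), (nat_lit 0)]) (PF.cons (PF.leaf (nat_lit 3667419) (nat_lit 192837) (nat_lit 44879709) (nat_lit 21085496) [(nat_lit 192837), (nat_lit 950770), (nat_lit 0), (nat_lit 0)]) (PF.cons (PF.leaf (nat_lit 3809681) (nat_lit 203344) (nat_lit 44694751) (nat_lit 21037770) [(nat_lit 203344), (nat_lit 969601), (nat_lit 0), (nat_lit 0)]) (PF.cons (PF.leaf (nat_lit 3963197) (nat_lit 212914) (nat_lit 44496002) (nat_lit 20985996) [(nat_lit 212914), (nat_lit 988069), (nat_lit 0), (nat_lit 0)]) (PF.cons (PF.leaf (nat_lit 4126748) (nat_lit 221722) (nat_lit 44285354) (nat_lit 20930573) [(nat_lit 221722), (nat_lit 1005995), (nat_lit 0), (nat_lit 0)]) (PF.cons (PF.leaf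 (nat_lit 4298938) (nat_lit 229887) (nat_lit 44064288) (nat_lit 20871807) [(nat_lit 229887), (nat_lit 1023281), (nat_lit 0), (nat_lit 0)]) (PF.cons PF.nil PF.nil))))))) (PF.cons (PF.cons (PF.leaf (nat_lit 4018935) (nat_lit 1000338) (nat_lit 44201548) (nat_lit 20906587) [(nat_lit 0), (nat_lit 1000338), (nat_lit 0), (nat_lit 0)]) (PF.cons (PF.leaf (nat_lit 4169763) (nat_lit 220769) (nat_lit 44001664) (nat_lit 20853239) [(nat_lit 220769), (nat_lit 1016569), (nat_lit 0),
 (nat_lit 0)]) (PF.cons (PF.leaf (nat_lit 4333020) (nat_lit 229213) (nat_lit 43789381) (nat_lit 20796037) [(nat_lit 229213), (nat_lit 1032483), (nat_lit 0), (nat_lit 0)]) (PF.cons (PF.leaf (nat_lit 4505300) (nat_lit 237001) (nat_lit 43566538) (nat_lit 20735394) [(nat_lit 237001), (nat_lit 1047937), (nat_lit 0), (nat_lit 0)]) (PF.cons PF.nil PF.nil))))) (PF.cons (PF.cons (PF.leaf (nat_lit 4542850) (nat_lit 1056203) (nat_lit 43284323) (nat_lit 20655879) [(nat_lit 0), (nat_lit 1056203), (nat_lit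 0), (nat_lit 0)]) (PF.cons (PF.leaf (nat_lit 4712602) (nat_lit 243223) (nat_lit 43061614) (nat_lit 20593882) [(nat_lit 243223), (nat_lit 1070030), (nat_lit 0), (nat_lit 0)]) (PF.cons (PF.leaf (nat_lit 4892282) (nat_lit 250176) (nat_lit 42829485) (nat_lit 20528631) [(nat_lit 250176), (nat_lit 1083447), (nat_lit 0), (nat_lit 0)]) (PF.cons PF.nil PF.nil)))) (PF.cons (PF.cons (PF.leaf (nat_lit 5100779) (nat_lit 1101963) (nat_lit 42319731) (nat_lit 20381227) [(nat_lit 0), (nat_lit 1101963), (nat_lit 0), (nat_lit 0)]) (PF.cons PF.nil PF.nil)) (PF.cons PF.nil PF.nil)))))) (PF.cons (PF.cons (PF.cons (PF.leaf (nat_lit 4022818) (nat_lit 2620392) (nat_lit 43721250) (nat_lit 20767170) [(nat_lit 0),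
 (nat_lit 0), (nat_lit 2620392), (nat_lit 0)]) (PF.cons (PF.leaf (nat_lit 4156836) (nat_lit 208434) (nat_lit 43544829) (nat_lit 20719107) [(nat_lit 208434), (nat_lit 0), (nat_lit 2636441), (nat_lit 0)]) (PF.cons (PF.leaf (nat_lit 4305996) (nat_lit 218490) (nat_lit 43352596) (nat_lit 20666303) [(nat_lit 218490), (nat_lit 0), (nat_lit 2652932), (nat_lit 0)]) (PF.cons (PF.leaf (nat_lit 4465930) (nat_lit 227518) (nat_lit 43147335) (nat_lit 20609427) [(nat_lit 227518), (nat_lit 0), (nat_lit 2669495), (nat_lit 0)]) (PF.cons (PF.leaf (nat_lit 4635177) (nat_lit 235731) (nat_lit 42931055) (nat_lit 20548950) [(nat_lit 235731), (nat_lit 0), (nat_lit 2685881), (nat_lit 0)]) (PF.cons PF.nil (PF.cons PF.nil PF.nil))))))) (PF.cons (PF.cons (PF.leaf (nat_lit 4514953) (nat_lit 1046525) (nat_lit 42853086) (nat_lit 20525223) [(nat_lit 0), (nat_lit 1046525), (nat_lit 2683977), (nat_lit 0)]) (PF.cons (PF.leaf (nat_lit 4671472) (nat_lit 233819) (nat_lit 42648768) (nat_lit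 20467373) [(nat_lit 233819), (nat_lit 1060362), (nat_lit 2698488), (nat_lit 0)]) (PF.cons (PF.leaf (nat_lit 4839663) (nat_lit 241760) (nat_lit 42432806) (nat_lit 20405693) [(nat_lit 241760), (nat_lit 1073873), (nat_lit 2712918),
 (nat_lit 0)]) (PF.cons (PF.leaf (nat_lit 5016356) (nat_lit 249010) (nat_lit 42207109) (nat_lit 20340651) [(nat_lit 249010), (nat_lit 1086947), (nat_lit 2727074), (nat_lit 0)]) (PF.cons PF.nil PF.nil))))) (PF.cons (PF.cons (PF.leaf (nat_lit 5046943) (nat_lit 1092771) (nat_lit 41928715) (nat_lit 20257791) [(nat_lit 0), (nat_lit 1092771), (nat_lit 2736763), (nat_lit 0)]) (PF.cons (PF.leaf (nat_lit 5220568) (nat_lit 253997) (nat_lit 41704716) (nat_lit 20191926) [(nat_lit 253997), (nat_lit 1104499), (nat_lit 2749173), (nat_lit 0)]) (PF.cons (PF.leaf (nat_lit 5403347) (nat_lit 260456) (nat_lit 41472066) (nat_lit 20122912) [(nat_lit 260456), (nat_lit 1115836), (nat_lit 2761248), (nat_lit 0)]) (PF.cons PF.nil PF.nil)))) (PF.cons (PF.cons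 (PF.leaf (nat_lit 5607763) (nat_lit 1130478) (nat_lit 40968701) (nat_lit 19969681) [(nat_lit 0), (nat_lit 1130478), (nat_lit 2778995), (nat_lit 0)]) (PF.cons PF.nil PF.nil)) (PF.cons PF.nil PF.nil))))) (PF.cons (PF.cons (PF.cons (PF.leaf (nat_lit 5006035) (nat_lit 2730733) (nat_lit 41519753) (nat_lit 20127593) [(nat_lit 0), (nat_lit 0), (nat_lit 2730733), (nat_lit 0)]) (PF.cons (PF.leaf (nat_lit 5166604) (nat_lit 244435) (nat_lit 41313909) (nat_lit
 20066200) [(nat_lit 244435), (nat_lit 0), (nat_lit 2742133), (nat_lit 0)]) (PF.cons (PF.leaf (nat_lit 5338360) (nat_lit 251925) (nat_lit 41097141) (nat_lit 20001035) [(nat_lit 251925), (nat_lit 0), (nat_lit 2753392), (nat_lit 0)]) (PF.cons (PF.leaf (nat_lit 5518145) (nat_lit 258698) (nat_lit 40871387) (nat_lit 19932612) [(nat_lit 258698), (nat_lit 0), (nat_lit 2764359), (nat_lit 0)]) (PF.cons PF.nil PF.nil))))) (PF.cons (PF.cons (PF.leaf (nat_lit 5542296) (nat_lit 1120659) (nat_lit 40599262) (nat_lit 19847607)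 [(nat_lit 0), (nat_lit 1120659), (nat_lit 2770642), (nat_lit 0)]) (PF.cons (PF.leaf (nat_lit 5718509) (nat_lit 262667) (nat_lit 40376366) (nat_lit 19778824) [(nat_lit 262667), (nat_lit 1130639), (nat_lit 2780157), (nat_lit 0)]) (PF.cons PF.nil (PF.cons PF.nil PF.nil)))) (PF.cons (PF.cons (PF.leaf (nat_lit 6103110) (nat_lit 1151725) (nat_lit 39652368) (nat_lit 19549921) [(nat_lit 0), (nat_lit 1151725), (nat_lit 2801535), (nat_lit 0)]) (PF.cons PF.nil PF.nil)) PF.nil))) (PF.cons (PF.cons (PF.cons (PF.leaf (nat_lit 6027452) (nat_lit 2791455) (nat_lit 39304300) (nat_lit 19430144) [(nat_lit 0), (nat_lit 0), (nat_lit 2791455), (nat_lit 0)]) (PF.cons (PF.leaf (nat_lit 6205144)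
 (nat_lit 269594) (nat_lit 39084279) (nat_lit 19359273) [(nat_lit 269594), (nat_lit 0), (nat_lit 2798555), (nat_lit 0)]) PF.nil)) (PF.cons PF.nil PF.nil)) (PF.cons PF.nil (PF.cons PF.nil PF.nil)))))) (PF.cons (PF.cons (PF.cons (PF.cons (PF.leaf (nat_lit 4745269) (nat_lit 6456499) (nat_lit 40792705) (nat_lit 19859607) [(nat_lit 0), (nat_lit 0), (nat_lit 0), (nat_lit 6456499)]) (PF.cons (PF.leaf (nat_lit 4880870) (nat_lit 216535) (nat_lit 40624724) (nat_lit 19808779) [(nat_lit 216535), (nat_lit 0), (nat_lit 0), (nat_lit 6458772)]) (PF.cons (PF.leaf (nat_lit 5031030) (nat_lit 226341) (nat_lit 40442219) (nat_lit 19753195) [(nat_lit 226341), (nat_lit 0), (nat_lit 0), (nat_lit 6460714)]) (PF.cons (PF.leaf (nat_lit 5191463) (nat_lit 235032) (nat_lit 40247909) (nat_lit 19693606) [(nat_lit 235032), (nat_lit 0), (nat_lit 0), (nat_lit 6462200)]) (PF.cons (PF.leaf (nat_lit 5360652) (nat_lit 242844) (nat_lit 40043752) (nat_lit 19630545) [(nat_lit 242844), (nat_lit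 0), (nat_lit 0), (nat_lit 6463137)]) (PF.cons (PF.leaf (nat_lit 5537439) (nat_lit 249939) (nat_lit 39831244) (nat_lit 19564416) [(nat_lit 249939), (nat_lit 0), (nat_lit 0), (nat_lit 6463455)]) (PF.cons PF.nil PF.nil))))))) (PF.cons
 (PF.cons (PF.leaf (nat_lit 5232677) (nat_lit 1068673) (nat_lit 39973710) (nat_lit 19607141) [(nat_lit 0), (nat_lit 1068673), (nat_lit 0), (nat_lit 6459288)]) (PF.cons (PF.leaf (nat_lit 5389055) (nat_lit 240181) (nat_lit 39781426) (nat_lit 19547170) [(nat_lit 240181), (nat_lit 1080581), (nat_lit 0), (nat_lit 6459453)]) (PF.cons (PF.leaf (nat_lit 5556464) (nat_lit 247739) (nat_lit 39578683) (nat_lit 19483499) [(nat_lit 247739), (nat_lit 1092096), (nat_lit 0), (nat_lit 6459053)]) (PF.cons (PF.leaf (nat_lit 5731821) (nat_lit 254564) (nat_lit 39367309) (nat_lit 19416644) [(nat_lit 254564), (nat_lit 1103135), (nat_lit 0), (nat_lit 6458029)]) (PF.cons PF.nil PF.nil))))) (PF.cons (PF.cons (PF.leaf (nat_lit 5754481) (nat_lit 1106689)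 (nat_lit 39110234) (nat_lit 19333020) [(nat_lit 0), (nat_lit 1106689), (nat_lit 0), (nat_lit 6452178)]) (PF.cons (PF.leaf (nat_lit 5926207) (nat_lit 258509) (nat_lit 38901389) (nat_lit 19265912) [(nat_lit 258509), (nat_lit 1116542), (nat_lit 0), (nat_lit 6449916)]) (PF.cons (PF.leaf (nat_lit 6106639) (nat_lit 264538) (nat_lit 38684920) (nat_lit 19195865) [(nat_lit 264538), (nat_lit 1125983), (nat_lit 0), (nat_lit 6446983)]) (PF.cons PF.nil PF.nil)))) (PF.cons
 (PF.cons (PF.leaf (nat_lit 6300402) (nat_lit 1136915) (nat_lit 38220597) (nat_lit 19042295) [(nat_lit 0), (nat_lit 1136915), (nat_lit 0), (nat_lit 6435174)]) (PF.cons PF.nil PF.nil)) (PF.cons PF.nil PF.nil))))) (PF.cons (PF.cons (PF.cons (PF.leaf (nat_lit 5700492) (nat_lit 2729867) (nat_lit 38742619) (nat_lit 19206191) [(nat_lit 0), (nat_lit 0), (nat_lit 2729867), (nat_lit 6430134)]) (PF.cons (PF.leaf (nat_lit 5859689) (nat_lit 248510) (nat_lit 38550833) (nat_lit 19143910) [(nat_lit 248510), (nat_lit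 0), (nat_lit 2737965), (nat_lit 6427593)]) (PF.cons (PF.leaf (nat_lit 6029456) (nat_lit 255631) (nat_lit 38349251) (nat_lit 19078030) [(nat_lit 255631), (nat_lit 0), (nat_lit 2745853), (nat_lit 6424414)]) (PF.cons (PF.leaf (nat_lit 6206649) (nat_lit 262006) (nat_lit 38139702) (nat_lit 19009095) [(nat_lit 262006), (nat_lit 0), (nat_lit 2753421), (nat_lit 6420574)]) (PF.cons PF.nil PF.nil))))) (PF.cons (PF.cons (PF.leaf (nat_lit 6223531) (nat_lit 1125869) (nat_lit 37890222) (nat_lit 18924811) [(nat_lit 0), (nat_lit 1125869), (nat_lit 2756127), (nat_lit 6411781)]) (PF.cons (PF.leaf (nat_lit 6396826) (nat_lit 265095) (nat_lit 37684020) (nat_lit 18855997) [(nat_lit 265095), (nat_lit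
 1134247), (nat_lit 2762531), (nat_lit 6406920)]) (PF.cons PF.nil (PF.cons PF.nil PF.nil)))) (PF.cons (PF.cons (PF.leaf (nat_lit 6767242) (nat_lit 1150646) (nat_lit 37018664) (nat_lit 18629390) [(nat_lit 0), (nat_lit 1150646), (nat_lit 2774853), (nat_lit 6384611)]) (PF.cons PF.nil PF.nil)) PF.nil))) (PF.cons (PF.cons (PF.cons (PF.leaf (nat_lit 6681949) (nat_lit 2762731) (nat_lit 36708298) (nat_lit 18515386) [(nat_lit 0), (nat_lit 0), (nat_lit 2762731), (nat_lit 6359664)]) (PF.cons (PF.leaf (nat_lit 6855935) (nat_lit 270280) (nat_lit 36505919) (nat_lit 18445503) [(nat_lit 270280), (nat_lit 0), (nat_lit 2767246), (nat_lit 6352617)]) PF.nil)) (PF.cons PF.nil PF.nil)) (PF.cons PF.nil (PF.cons PF.nil PF.nil))))) (PF.cons (PF.cons (PF.cons (PF.cons (PF.leaf (nat_lit 6343492) (nat_lit 6281455) (nat_lit 36231319) (nat_lit 18314582) [(nat_lit 0), (nat_lit 0), (nat_lit 0), (nat_lit 6281455)]) (PF.cons (PF.leaf (nat_lit 6500310) (nat_lit 250029) (nat_lit 36053980)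 (nat_lit 18253030) [(nat_lit 250029), (nat_lit 0), (nat_lit 0), (nat_lit 6275886)]) (PF.cons (PF.leaf (nat_lit 6667257) (nat_lit 256810) (nat_lit 35867843) (nat_lit 18188082) [(nat_lit 256810), (nat_lit 0), (nat_lit 0), (nat_lit
 6269633)]) (PF.cons PF.nil PF.nil)))) (PF.cons (PF.cons (PF.leaf (nat_lit 6851948) (nat_lit 1121543) (nat_lit 35447075) (nat_lit 18038519) [(nat_lit 0), (nat_lit 1121543), (nat_lit 0), (nat_lit 6250837)]) (PF.cons (PF.leaf (nat_lit 7021689) (nat_lit 265227) (nat_lit 35257375) (nat_lit 17971176) [(nat_lit 265227), (nat_lit 1128654), (nat_lit 0), (nat_lit 6243189)]) PF.nil)) (PF.cons PF.nil PF.nil))) (PF.cons (PF.cons (PF.cons (PF.leaf (nat_lit 7285652) (nat_lit 2718859) (nat_lit 34372121) (nat_lit 17644209) [(nat_lit 0), (nat_lit 0), (nat_lit 2718859), (nat_lit 6186811)]) (PF.cons PF.nil PF.nil)) (PF.cons PF.nil PF.nil)) (PF.cons PF.nil PF.nil))) (PF.cons (PF.cons (PF.cons (PF.cons (PF.leaf (nat_lit 7844973) (nat_lit 6005195)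 (nat_lit 32270020) (nat_lit 16823205) [(nat_lit 0), (nat_lit 0), (nat_lit 0), (nat_lit 6005195)]) (PF.cons PF.nil PF.nil)) (PF.cons PF.nil PF.nil)) (PF.cons PF.nil PF.nil)) (PF.cons PF.nil (PF.cons PF.nil PF.nil))))))

def p14_7_3_0 : pfC (piC [(nat_lit 44228488), (nat_lit 27646207), (nat_lit 20402210), (nat_lit 13743659)] (nat_lit 4796502)) p14_7_3 (nat_lit 4) (nat_lit 0) (nat_lit 1) = true := by decide +kernel
def p14_7_3_1 : pfC (piC [(nat_lit 44228488), (nat_lit 27646207), (nat_lit 20402210), (nat_lit 13743659)] (nat_lit 4796502)) p14_7_3 (nat_lit 4) (nat_lit 1) (nat_lit 2) = true := by decide +kernel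
def p14_7_3_2 : pfC (piC [(nat_lit 44228488), (nat_lit 27646207), (nat_lit 20402210), (nat_lit 13743659)] (nat_lit 4796502)) p14_7_3 (nat_lit 4) (nat_lit 2) (nat_lit 3) = true := by decide +kernel
def p14_7_3_3 : pfC (piC [(nat_lit 44228488), (nat_lit 27646207), (nat_lit 20402210), (nat_lit 13743659)] (nat_lit 4796502)) p14_7_3 (nat_lit 4) (nat_lit 3) (nat_lit 4) = true := by decide +kernel
def p14_7_3_4 : pfC (piC [(nat_lit 44228488), (nat_lit 27646207), (nat_lit 20402210), (nat_lit 13743659)] (nat_lit 4796502)) p14_7_3 (nat_lit 4) (nat_lit 4) (nat_lit 5) = true := by decide +kernel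
def p14_7_3_5 : pfC (piC [(nat_lit 44228488), (nat_lit 27646207), (nat_lit 20402210), (nat_lit 13743659)] (nat_lit 4796502)) p14_7_3 (nat_lit 4) (nat_lit 5) (nat_lit 6) = true := by decide +kernel
def p14_7_3_6 : pfC (piC [(nat_lit 44228488), (nat_lit 27646207), (nat_lit 20402210), (nat_lit 13743659)] (nat_lit 4796502)) p14_7_3 (nat_lit 4) (nat_lit 6) (nat_lit 7) = true := by decide +kernel
def p14_7_3_7 : pfC (piC [(nat_lit 44228488), (nat_lit 27646207), (nat_lit 20402210), (nat_lit 13743659)] (nat_lit 4796502)) p14_7_3 (nat_lit 4) (nat_lit 7) (nat_lit 8) = true := by decide +kernel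
def p14_7_3_8 : pfC (piC [(nat_lit 44228488), (nat_lit 27646207), (nat_lit 20402210), (nat_lit 13743659)] (nat_lit 4796502)) p14_7_3 (nat_lit 4) (nat_lit 8) (nat_lit 9) = true := by decide +kernel
def p14_7_3_9 : pfC (piC [(nat_lit 44228488), (nat_lit 27646207), (nat_lit 20402210), (nat_lit 13743659)] (nat_lit 4796502)) p14_7_3 (nat_lit 4) (nat_lit 9) (nat_lit 10) = true := by decide +kernel
def p14_7_3_10 : pfC (piC [(nat_lit 44228488), (nat_lit 27646207), (nat_lit 20402210), (nat_lit 13743659)] (nat_lit 4796502)) p14_7_3 (nat_lit 4) (nat_lit 10) (nat_lit 11) = true := by decide +kernel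
def p14_7_3_11 : pfC (piC [(nat_lit 44228488), (nat_lit 27646207), (nat_lit 20402210), (nat_lit 13743659)] (nat_lit 4796502)) p14_7_3 (nat_lit 4) (nat_lit 11) (nat_lit 12) = true := by decide +kernel
def p14_7_3_12 : pfC (piC [(nat_lit 44228488), (nat_lit 27646207), (nat_lit 20402210), (nat_lit 13743659)] (nat_lit 4796502)) p14_7_3 (nat_lit 4) (nat_lit 12) (nat_lit 13) = true := by decide +kernel
def p14_7_3_13 : pfC (piC [(nat_lit 44228488), (nat_lit 27646207), (nat_lit 20402210), (nat_lit 13743659)] (nat_lit 4796502)) p14_7_3 (nat_lit 4) (nat_lit 13) (nat_lit 14) = true := by decide +kernel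
def p14_7_3_14 : pfC (piC [(nat_lit 44228488), (nat_lit 27646207), (nat_lit 20402210), (nat_lit 13743659)] (nat_lit 4796502)) p14_7_3 (nat_lit 4) (nat_lit 14) (nat_lit 15) = true := by decide +kernel
def p14_7_3_15 : pfC (piC [(nat_lit 44228488), (nat_lit 27646207), (nat_lit 20402210), (nat_lit 13743659)] (nat_lit 4796502)) p14_7_3 (nat_lit 4) (nat_lit 15) (nat_lit 16) = true := by decide +kernel
def p14_7_3_16 : pfC (piC [(nat_lit 44228488), (nat_lit 27646207), (nat_lit 20402210), (nat_lit 13743659)] (nat_lit 4796502)) p14_7_3 (nat_lit 4) (nat_lit 16) (nat_lit 17) = true := by decide +kernel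
def p14_7_3_17 : pfC (piC [(nat_lit 44228488), (nat_lit 27646207), (nat_lit 20402210), (nat_lit 13743659)] (nat_lit 4796502)) p14_7_3 (nat_lit 4) (nat_lit 17) (nat_lit 18) = true := by decide +kernel
def p14_7_3_18 : pfC (piC [(nat_lit 44228488), (nat_lit 27646207), (nat_lit 20402210), (nat_lit 13743659)] (nat_lit 4796502)) p14_7_3 (nat_lit 4) (nat_lit 18) (nat_lit 19) = true := by decide +kernel
def p14_7_3_19 : pfC (piC [(nat_lit 44228488), (nat_lit 27646207), (nat_lit 20402210), (nat_lit 13743659)] (nat_lit 4796502)) p14_7_3 (nat_lit 4) (nat_lit 19) (nat_lit 20) = true := by decide +kernel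
def p14_7_3_20 : pfC (piC [(nat_lit 44228488), (nat_lit 27646207), (nat_lit 20402210), (nat_lit 13743659)] (nat_lit 4796502)) p14_7_3 (nat_lit 4) (nat_lit 20) (nat_lit 21) = true := by decide +kernel
def p14_7_3_21 : pfC (piC [(nat_lit 44228488), (nat_lit 27646207), (nat_lit 20402210), (nat_lit 13743659)] (nat_lit 4796502)) p14_7_3 (nat_lit 4) (nat_lit 21) (nat_lit 22) = true := by decide +kernel
def p14_7_3_22 : pfC (piC [(nat_lit 44228488), (nat_lit 27646207), (nat_lit 20402210), (nat_lit 13743659)] (nat_lit 4796502)) p14_7_3 (nat_lit 4) (nat_lit 22) (nat_lit 23) = true := by decide +kernel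
def p14_7_3_23 : pfC (piC [(nat_lit 44228488), (nat_lit 27646207), (nat_lit 20402210), (nat_lit 13743659)] (nat_lit 4796502)) p14_7_3 (nat_lit 4) (nat_lit 23) (nat_lit 24) = true := by decide +kernel
def p14_7_3_24 : pfC (piC [(nat_lit 44228488), (nat_lit 27646207), (nat_lit 20402210), (nat_lit 13743659)] (nat_lit 4796502)) p14_7_3 (nat_lit 4) (nat_lit 24) (nat_lit 25) = true := by decide +kernel
def p14_7_3_25 : pfC (piC [(nat_lit 44228488), (nat_lit 27646207), (nat_lit 20402210), (nat_lit 13743659)] (nat_lit 4796502)) p14_7_3 (nat_lit 4) (nat_lit 25) (nat_lit 26) = true := by decide +kernel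
def p14_7_3_26 : pfC (piC [(nat_lit 44228488), (nat_lit 27646207), (nat_lit 20402210), (nat_lit 13743659)] (nat_lit 4796502)) p14_7_3 (nat_lit 4) (nat_lit 26) (nat_lit 27) = true := by decide +kernel
def p14_7_3_27 : pfC (piC [(nat_lit 44228488), (nat_lit 27646207), (nat_lit 20402210), (nat_lit 13743659)] (nat_lit 4796502)) p14_7_3 (nat_lit 4) (nat_lit 27) (nat_lit 28) = true := by decide +kernel
def p14_7_3_28 : pfC (piC [(nat_lit 44228488), (nat_lit 27646207), (nat_lit 20402210), (nat_lit 13743659)] (nat_lit 4796502)) p14_7_3 (nat_lit 4) (nat_lit 28) (nat_lit 29) = true := by decide +kernel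
def p14_7_3_29 : pfC (piC [(nat_lit 44228488), (nat_lit 27646207), (nat_lit 20402210), (nat_lit 13743659)] (nat_lit 4796502)) p14_7_3 (nat_lit 4) (nat_lit 29) (nat_lit 30) = true := by decide +kernel
def p14_7_3_30 : pfC (piC [(nat_lit 44228488), (nat_lit 27646207), (nat_lit 20402210), (nat_lit 13743659)] (nat_lit 4796502)) p14_7_3 (nat_lit 4) (nat_lit 30) (nat_lit 31) = true := by decide +kernel
def p14_7_3_31 : pfC (piC [(nat_lit 44228488), (nat_lit 27646207), (nat_lit 20402210), (nat_lit 13743659)] (nat_lit 4796502)) p14_7_3 (nat_lit 4) (nat_lit 31) (nat_lit 32) = true := by decide +kernel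
def p14_7_3_32 : pfC (piC [(nat_lit 44228488), (nat_lit 27646207), (nat_lit 20402210), (nat_lit 13743659)] (nat_lit 4796502)) p14_7_3 (nat_lit 4) (nat_lit 32) (nat_lit 33) = true := by decide +kernel
def p14_7_3_33 : pfC (piC [(nat_lit 44228488), (nat_lit 27646207), (nat_lit 20402210), (nat_lit 13743659)] (nat_lit 4796502)) p14_7_3 (nat_lit 4) (nat_lit 33) (nat_lit 34) = true := by decide +kernel
def p14_7_3_34 : pfC (piC [(nat_lit 44228488), (nat_lit 27646207), (nat_lit 20402210), (nat_lit 13743659)] (nat_lit 4796502)) p14_7_3 (nat_lit 4) (nat_lit 34) (nat_lit 35) = true := by decide +kernel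
def p14_7_3_35 : pfC (piC [(nat_lit 44228488), (nat_lit 27646207), (nat_lit 20402210), (nat_lit 13743659)] (nat_lit 4796502)) p14_7_3 (nat_lit 4) (nat_lit 35) (nat_lit 36) = true := by decide +kernel
def p14_7_3_36 : pfC (piC [(nat_lit 44228488), (nat_lit 27646207), (nat_lit 20402210), (nat_lit 13743659)] (nat_lit 4796502)) p14_7_3 (nat_lit 4) (nat_lit 36) (nat_lit 37) = true := by decide +kernel
def p14_7_3_37 : pfC (piC [(nat_lit 44228488), (nat_lit 27646207), (nat_lit 20402210), (nat_lit 13743659)] (nat_lit 4796502)) p14_7_3 (nat_lit 4) (nat_lit 37) (nat_lit 38) = true := by decide +kernel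
def p14_7_3_38 : pfC (piC [(nat_lit 44228488), (nat_lit 27646207), (nat_lit 20402210), (nat_lit 13743659)] (nat_lit 4796502)) p14_7_3 (nat_lit 4) (nat_lit 38) (nat_lit 39) = true := by decide +kernel
def p14_7_3_39 : pfC (piC [(nat_lit 44228488), (nat_lit 27646207), (nat_lit 20402210), (nat_lit 13743659)] (nat_lit 4796502)) p14_7_3 (nat_lit 4) (nat_lit 39) (nat_lit 40) = true := by decide +kernel
def p14_7_3_40 : pfC (piC [(nat_lit 44228488), (nat_lit 27646207), (nat_lit 20402210), (nat_lit 13743659)] (nat_lit 4796502)) p14_7_3 (nat_lit 4) (nat_lit 40) (nat_lit 41) = true := by decide +kernel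
def p14_7_3_41 : pfC (piC [(nat_lit 44228488), (nat_lit 27646207), (nat_lit 20402210), (nat_lit 13743659)] (nat_lit 4796502)) p14_7_3 (nat_lit 4) (nat_lit 41) (nat_lit 42) = true := by decide +kernel
def p14_7_3_42 : pfC (piC [(nat_lit 44228488), (nat_lit 27646207), (nat_lit 20402210), (nat_lit 13743659)] (nat_lit 4796502)) p14_7_3 (nat_lit 4) (nat_lit 42) (nat_lit 43) = true := by decide +kernel
def p14_7_3_43 : pfC (piC [(nat_lit 44228488), (nat_lit 27646207), (nat_lit 20402210), (nat_lit 13743659)] (nat_lit 4796502)) p14_7_3 (nat_lit 4) (nat_lit 43) (nat_lit 44) = true := by decide +kernel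
def p14_7_3_44 : pfC (piC [(nat_lit 44228488), (nat_lit 27646207), (nat_lit 20402210), (nat_lit 13743659)] (nat_lit 4796502)) p14_7_3 (nat_lit 4) (nat_lit 44) (nat_lit 45) = true := by decide +kernel
def p14_7_3_45 : pfC (piC [(nat_lit 44228488), (nat_lit 27646207), (nat_lit 20402210), (nat_lit 13743659)] (nat_lit 4796502)) p14_7_3 (nat_lit 4) (nat_lit 45) (nat_lit 46) = true := by decide +kernel
def p14_7_3_46 : pfC (piC [(nat_lit 44228488), (nat_lit 27646207), (nat_lit 20402210), (nat_lit 13743659)] (nat_lit 4796502)) p14_7_3 (nat_lit 4) (nat_lit 46) (nat_lit 47) = true := by decide +kernel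
def p14_7_3_47 : pfC (piC [(nat_lit 44228488), (nat_lit 27646207), (nat_lit 20402210), (nat_lit 13743659)] (nat_lit 4796502)) p14_7_3 (nat_lit 4) (nat_lit 47) (nat_lit 48) = true := by decide +kernel
def p14_7_3_48 : pfC (piC [(nat_lit 44228488), (nat_lit 27646207), (nat_lit 20402210), (nat_lit 13743659)] (nat_lit 4796502)) p14_7_3 (nat_lit 4) (nat_lit 48) (nat_lit 49) = true := by decide +kernel
def p14_7_3_49 : pfC (piC [(nat_lit 44228488), (nat_lit 27646207), (nat_lit 20402210), (nat_lit 13743659)] (nat_lit 4796502)) p14_7_3 (nat_lit 4) (nat_lit 49) (nat_lit 50) = true := by decide +kernel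
def p14_7_3_50 : pfC (piC [(nat_lit 44228488), (nat_lit 27646207), (nat_lit 20402210), (nat_lit 13743659)] (nat_lit 4796502)) p14_7_3 (nat_lit 4) (nat_lit 50) (nat_lit 51) = true := by decide +kernel
def p14_7_3_51 : pfC (piC [(nat_lit 44228488), (nat_lit 27646207), (nat_lit 20402210), (nat_lit 13743659)] (nat_lit 4796502)) p14_7_3 (nat_lit 4) (nat_lit 51) (nat_lit 52) = true := by decide +kernel
def p14_7_3_52 : pfC (piC [(nat_lit 44228488), (nat_lit 27646207), (nat_lit 20402210), (nat_lit 13743659)] (nat_lit 4796502)) p14_7_3 (nat_lit 4) (nat_lit 52) (nat_lit 53) = true := by decide +kernel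
def p14_7_3_53 : pfC (piC [(nat_lit 44228488), (nat_lit 27646207), (nat_lit 20402210), (nat_lit 13743659)] (nat_lit 4796502)) p14_7_3 (nat_lit 4) (nat_lit 53) (nat_lit 54) = true := by decide +kernel
def p14_7_3_54 : pfC (piC [(nat_lit 44228488), (nat_lit 27646207), (nat_lit 20402210), (nat_lit 13743659)] (nat_lit 4796502)) p14_7_3 (nat_lit 4) (nat_lit 54) (nat_lit 55) = true := by decide +kernel
def p14_7_3_55 : pfC (piC [(nat_lit 44228488), (nat_lit 27646207), (nat_lit 20402210), (nat_lit 13743659)] (nat_lit 4796502)) p14_7_3 (nat_lit 4) (nat_lit 55) (nat_lit 56) = true := by decide +kernel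
def p14_7_3_56 : pfC (piC [(nat_lit 44228488), (nat_lit 27646207), (nat_lit 20402210), (nat_lit 13743659)] (nat_lit 4796502)) p14_7_3 (nat_lit 4) (nat_lit 56) (nat_lit 57) = true := by decide +kernel
def p14_7_3_57 : pfC (piC [(nat_lit 44228488), (nat_lit 27646207), (nat_lit 20402210), (nat_lit 13743659)] (nat_lit 4796502)) p14_7_3 (nat_lit 4) (nat_lit 57) (nat_lit 58) = true := by decide +kernel
def p14_7_3_58 : pfC (piC [(nat_lit 44228488), (nat_lit 27646207), (nat_lit 20402210), (nat_lit 13743659)] (nat_lit 4796502)) p14_7_3 (nat_lit 4) (nat_lit 58) (nat_lit 59) = true := by decide +kernel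
def p14_7_3_59 : pfC (piC [(nat_lit 44228488), (nat_lit 27646207), (nat_lit 20402210), (nat_lit 13743659)] (nat_lit 4796502)) p14_7_3 (nat_lit 4) (nat_lit 59) (nat_lit 60) = true := by decide +kernel
def p14_7_3_60 : pfC (piC [(nat_lit 44228488), (nat_lit 27646207), (nat_lit 20402210), (nat_lit 13743659)] (nat_lit 4796502)) p14_7_3 (nat_lit 4) (nat_lit 60) (nat_lit 61) = true := by decide +kernel
def p14_7_3_61 : pfC (piC [(nat_lit 44228488), (nat_lit 27646207), (nat_lit 20402210), (nat_lit 13743659)] (nat_lit 4796502)) p14_7_3 (nat_lit 4) (nat_lit 61) (nat_lit 62) = true := by decide +kernel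
def p14_7_3_62 : pfC (piC [(nat_lit 44228488), (nat_lit 27646207), (nat_lit 20402210), (nat_lit 13743659)] (nat_lit 4796502)) p14_7_3 (nat_lit 4) (nat_lit 62) (nat_lit 63) = true := by decide +kernel
def p14_7_3_63 : pfC (piC [(nat_lit 44228488), (nat_lit 27646207), (nat_lit 20402210), (nat_lit 13743659)] (nat_lit 4796502)) p14_7_3 (nat_lit 4) (nat_lit 63) (nat_lit 64) = true := by decide +kernel
def p14_7_3_64 : pfC (piC [(nat_lit 44228488), (nat_lit 27646207), (nat_lit 20402210), (nat_lit 13743659)] (nat_lit 4796502)) p14_7_3 (nat_lit 4) (nat_lit 64) (nat_lit 65) = true := by decide +kernel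
def p14_7_3_65 : pfC (piC [(nat_lit 44228488), (nat_lit 27646207), (nat_lit 20402210), (nat_lit 13743659)] (nat_lit 4796502)) p14_7_3 (nat_lit 4) (nat_lit 65) (nat_lit 66) = true := by decide +kernel
def p14_7_3_66 : pfC (piC [(nat_lit 44228488), (nat_lit 27646207), (nat_lit 20402210), (nat_lit 13743659)] (nat_lit 4796502)) p14_7_3 (nat_lit 4) (nat_lit 66) (nat_lit 67) = true := by decide +kernel
def p14_7_3_67 : pfC (piC [(nat_lit 44228488), (nat_lit 27646207), (nat_lit 20402210), (nat_lit 13743659)] (nat_lit 4796502)) p14_7_3 (nat_lit 4) (nat_lit 67) (nat_lit 68) = true := by decide +kernel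
def p14_7_3_68 : pfC (piC [(nat_lit 44228488), (nat_lit 27646207), (nat_lit 20402210), (nat_lit 13743659)] (nat_lit 4796502)) p14_7_3 (nat_lit 4) (nat_lit 68) (nat_lit 69) = true := by decide +kernel
def p14_7_3_69 : pfC (piC [(nat_lit 44228488), (nat_lit 27646207), (nat_lit 20402210), (nat_lit 13743659)] (nat_lit 4796502)) p14_7_3 (nat_lit 4) (nat_lit 69) (nat_lit 70) = true := by decide +kernel
def p14_7_3_70 : pfC (piC [(nat_lit 44228488), (nat_lit 27646207), (nat_lit 20402210), (nat_lit 13743659)] (nat_lit 4796502)) p14_7_3 (nat_lit 4) (nat_lit 70) (nat_lit 71) = true := by decide +kernel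
def p14_7_3_71 : pfC (piC [(nat_lit 44228488), (nat_lit 27646207), (nat_lit 20402210), (nat_lit 13743659)] (nat_lit 4796502)) p14_7_3 (nat_lit 4) (nat_lit 71) (nat_lit 72) = true := by decide +kernel
def p14_7_3_72 : pfC (piC [(nat_lit 44228488), (nat_lit 27646207), (nat_lit 20402210), (nat_lit 13743659)] (nat_lit 4796502)) p14_7_3 (nat_lit 4) (nat_lit 72) (nat_lit 73) = true := by decide +kernel
theorem p14_7_3_T : PfS (PiF n14_7.reverse (nat_lit 4796502)) p14_7_3 (nat_lit 4) [] 0 :=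
  pftab_of (los := [(nat_lit 44228488), (nat_lit 27646207), (nat_lit 20402210), (nat_lit 13743659)]) (by decide +kernel) (hi := (nat_lit 73)) (PfP.trans (PfP.trans (PfP.trans (PfP.trans (PfP.trans (PfP.trans (PfP.trans (PfP.trans (PfP.trans (PfP.trans (PfP.trans (PfP.trans (PfP.trans (PfP.trans (PfP.trans (PfP.trans (PfP.trans (PfP.trans (PfP.trans (PfP.trans (PfP.trans (PfP.trans (PfP.trans (PfP.trans (PfP.trans (PfP.trans (PfP.trans (PfP.trans (PfP.trans (PfP.trans (PfP.trans (PfP.trans (PfP.trans (PfP.trans (PfP.trans (PfP.trans (PfP.trans (PfP.trans (PfP.trans (PfP.trans (PfP.trans (PfP.trans (PfP.trans (PfP.trans (PfP.trans (PfP.trans (PfP.trans (PfP.trans (PfP.trans (PfP.trans (PfP.trans (PfP.trans (PfP.trans (PfP.trans (PfP.trans (PfP.trans (PfP.trans (PfP.trans (PfP.trans (PfP.trans (PfP.trans (PfP.trans (PfP.trans (PfP.trans (PfP.trans (PfP.trans (PfP.trans (PfP.trans (PfP.trans (PfP.trans (PfP.trans (PfP.trans (pfC_sound p14_7_3_0) (pfC_sound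 p14_7_3_1)) (pfC_sound p14_7_3_2)) (pfC_sound p14_7_3_3)) (pfC_sound p14_7_3_4)) (pfC_sound p14_7_3_5)) (pfC_sound p14_7_3_6)) (pfC_sound p14_7_3_7)) (pfC_sound p14_7_3_8)) (pfC_sound p14_7_3_9)) (pfC_sound p14_7_3_10)) (pfC_sound p14_7_3_11)) (pfC_sound p14_7_3_12)) (pfC_sound p14_7_3_13)) (pfC_sound p14_7_3_14)) (pfC_sound p14_7_3_15)) (pfC_sound p14_7_3_16)) (pfC_sound
 p14_7_3_17)) (pfC_sound p14_7_3_18)) (pfC_sound p14_7_3_19)) (pfC_sound p14_7_3_20)) (pfC_sound p14_7_3_21)) (pfC_sound p14_7_3_22)) (pfC_sound p14_7_3_23)) (pfC_sound p14_7_3_24)) (pfC_sound p14_7_3_25)) (pfC_sound p14_7_3_26)) (pfC_sound p14_7_3_27)) (pfC_sound p14_7_3_28)) (pfC_sound p14_7_3_29)) (pfC_sound p14_7_3_30)) (pfC_sound p14_7_3_31)) (pfC_sound p14_7_3_32)) (pfC_sound p14_7_3_33)) (pfC_sound p14_7_3_34)) (pfC_sound p14_7_3_35)) (pfC_sound p14_7_3_36)) (pfC_sound p14_7_3_37)) (pfC_sound p14_7_3_38)) (pfC_sound p14_7_3_39)) (pfC_sound p14_7_3_40)) (pfC_sound p14_7_3_41))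 (pfC_sound p14_7_3_42)) (pfC_sound p14_7_3_43)) (pfC_sound p14_7_3_44)) (pfC_sound p14_7_3_45)) (pfC_sound p14_7_3_46)) (pfC_sound p14_7_3_47)) (pfC_sound p14_7_3_48)) (pfC_sound p14_7_3_49)) (pfC_sound p14_7_3_50)) (pfC_sound p14_7_3_51)) (pfC_sound p14_7_3_52)) (pfC_sound p14_7_3_53)) (pfC_sound p14_7_3_54)) (pfC_sound p14_7_3_55)) (pfC_sound p14_7_3_56)) (pfC_sound p14_7_3_57)) (pfC_sound p14_7_3_58)) (pfC_sound p14_7_3_59)) (pfC_sound p14_7_3_60)) (pfC_sound p14_7_3_61)) (pfC_sound p14_7_3_62)) (pfC_sound p14_7_3_63)) (pfC_sound p14_7_3_64)) (pfC_sound p14_7_3_65)) (pfC_sound p14_7_3_66)) (pfC_sound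
 p14_7_3_67)) (pfC_sound p14_7_3_68)) (pfC_sound p14_7_3_69)) (pfC_sound p14_7_3_70)) (pfC_sound p14_7_3_71)) (pfC_sound p14_7_3_72)) (by decide +kernel)

def z14_7_3 : zOK yB14_7 (nat_lit 3) (nat_lit 750) (nat_lit 922) (nat_lit 4796502) (nat_lit 2850191) = true := by decide +kernel
def g14_7_3 : gOK yB14_7.x P14_7 (nat_lit 1432) (q14_7 :: r14_7) (nat_lit 3) (nat_lit 750) (nat_lit 4) (nat_lit 922) (nat_lit 12712500) (nat_lit 12712500) (nat_lit 12712500) (nat_lit 12712500) [(nat_lit 800)] = true := by decide +kernel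
def v14_7_3 : ivC P14_7 s14_7 w14_7 n14_7 (nat_lit 4) (nat_lit 4770) (nat_lit 3) (nat_lit 750) f136_1_750 f144_1_750 (nat_lit 4) (nat_lit 922) f136_1_922 f144_1_922 (nat_lit 4796502) (nat_lit 2850191) p14_7_3 = true := by decide +kernel
/-! box `yB14_8` -/

def P14_8 : BQ := ⟨(nat_lit 8), (nat_lit 4), (nat_lit 4), (nat_lit 0), (nat_lit 8), (nat_lit 700), (nat_lit 720), (nat_lit 120), [(nat_lit 200), (nat_lit 300), (nat_lit 450), (nat_lit 800)], (nat_lit 76944000), (nat_lit 16000000), (nat_lit 16000000000)⟩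
def q14_8 : PC := ⟨(nat_lit 1000), [(nat_lit 120000), (nat_lit 200000), (nat_lit 300000), (nat_lit 450000), (nat_lit 800000)], (nat_lit 340282367000166625996085689103316680705000000), (nat_lit 15923056000000), (nat_lit 15923056000000), (nat_lit 10000000)⟩
def r14_8 : List PC := [⟨(nat_lit 1316), [(nat_lit 120548), (nat_lit 201177), (nat_lit 301608), (nat_lit 451917), (nat_lit 799433)], (nat_lit 342292074659730932686979597995485165016534423), (nat_lit 16315659235840), (nat_lit 16327486231040), (nat_lit 10058850)⟩]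
def s14_8 : List PB := [⟨(nat_lit 26320), (nat_lit 1928768000000), [(nat_lit 201177), (nat_lit 301608), (nat_lit 451917), (nat_lit 799433)], (nat_lit 342292074659730932686979597995485165016534423), (nat_lit 1142215566078464), (nat_lit 1142227393073664), (nat_lit 50560)⟩]
def n14_8 : List KN := [⟨(nat_lit 800), (nat_lit 450), (nat_lit 13586793), (nat_lit 7174400)⟩, ⟨(nat_lit 450), (nat_lit 300), (nat_lit 20249535), (nat_lit 13586793)⟩, ⟨(nat_lit 300), (nat_lit 200), (nat_lit 27333682), (nat_lit 20249535)⟩, ⟨(nat_lit 200), (nat_lit 120), (nat_lit 43428061), (nat_lit 27333682)⟩]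
def w14_8 : List ℕ := [(nat_lit 50560)]
def par14_8 : parC yB14_8 P14_8 s14_8 r14_8 q14_8 n14_8 w14_8 = true := by decide +kernel

def p14_8_0 : PF := (PF.cons (PF.cons (PF.cons (PF.cons (PF.leaf (nat_lit 508919) (nat_lit 1407325) (nat_lit 65701487) (nat_lit 1407325) [(nat_lit 0), (nat_lit 0), (nat_lit 0), (nat_lit 0)]) (PF.cons (PF.leaf (nat_lit 592797) (nat_lit 127095) (nat_lit 65538747) (nat_lit 1442970) [(nat_lit 127095), (nat_lit 0), (nat_lit 0), (nat_lit 0)]) (PF.cons (PF.leaf (nat_lit 701930) (nat_lit 140816) (nat_lit 65344243) (nat_lit 1482936) [(nat_lit 140816), (nat_lit 0), (nat_lit 0), (nat_lit 0)]) (PF.cons (PF.leaf (nat_lit 826649) (nat_lit 153817) (nat_lit 65121666) (nat_lit 1525693) [(nat_lit 153817), (nat_lit 0), (nat_lit 0), (nat_lit 0)]) (PF.cons (PF.leaf (nat_lit 966802) (nat_lit 166284) (nat_lit 64873485) (nat_lit 1570191) [(nat_lit 166284), (nat_lit 0), (nat_lit 0), (nat_lit 0)]) (PF.cons (PF.leaf (nat_lit 1120721) (nat_lit 178315)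 (nat_lit 64601564) (nat_lit 1615672) [(nat_lit 178315), (nat_lit 0), (nat_lit 0), (nat_lit 0)]) (PF.cons (PF.leaf (nat_lit 1288307) (nat_lit 189967) (nat_lit 64307436) (nat_lit 1661572) [(nat_lit 189967), (nat_lit 0), (nat_lit 0), (nat_lit 0)]) (PF.cons PF.nil (PF.cons PF.nil PF.nil))))))))) (PF.cons (PF.cons (PF.leaf (nat_lit 914862) (nat_lit 793919) (nat_lit 64733379) (nat_lit
 1581514) [(nat_lit 0), (nat_lit 793919), (nat_lit 0), (nat_lit 0)]) (PF.cons (PF.leaf (nat_lit 1040431) (nat_lit 169035) (nat_lit 64497155) (nat_lit 1620300) [(nat_lit 169035), (nat_lit 822321), (nat_lit 0), (nat_lit 0)]) (PF.cons (PF.leaf (nat_lit 1185724) (nat_lit 181207) (nat_lit 64233684) (nat_lit 1661034) [(nat_lit 181207), (nat_lit 851678), (nat_lit 0), (nat_lit 0)]) (PF.cons (PF.leaf (nat_lit 1345250) (nat_lit 192881) (nat_lit 63945843) (nat_lit 1702872) [(nat_lit 192881), (nat_lit 881453), (nat_lit 0), (nat_lit 0)]) (PF.cons (PF.leaf (nat_lit 1518234) (nat_lit 204139)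 (nat_lit 63635754) (nat_lit 1745213) [(nat_lit 204139), (nat_lit 911286), (nat_lit 0), (nat_lit 0)]) (PF.cons PF.nil (PF.cons PF.nil PF.nil))))))) (PF.cons (PF.cons (PF.leaf (nat_lit 1416746) (nat_lit 906763) (nat_lit 63549587) (nat_lit 1745697) [(nat_lit 0), (nat_lit 906763), (nat_lit 0), (nat_lit 0)]) (PF.cons (PF.leaf (nat_lit 1577639) (nat_lit 206212) (nat_lit 63250664) (nat_lit 1783917) [(nat_lit 206212), (nat_lit 934009), (nat_lit 0), (nat_lit 0)]) (PF.cons (PF.leaf (nat_lit 1754675) (nat_lit 217171) (nat_lit 62928691) (nat_lit 1822796) [(nat_lit 217171), (nat_lit 961490), (nat_lit 0), (nat_lit 0)])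
 (PF.cons (PF.leaf (nat_lit 1944452) (nat_lit 227716) (nat_lit 62586009) (nat_lit 1861843) [(nat_lit 227716), (nat_lit 988905), (nat_lit 0), (nat_lit 0)]) (PF.cons PF.nil PF.nil))))) (PF.cons (PF.cons (PF.leaf (nat_lit 1999028) (nat_lit 1008249) (nat_lit 62189207) (nat_lit 1894856) [(nat_lit 0), (nat_lit 1008249), (nat_lit 0), (nat_lit 0)]) (PF.cons (PF.leaf (nat_lit 2189795) (nat_lit 239385) (nat_lit 61838245) (nat_lit 1930627) [(nat_lit 239385), (nat_lit 1033518), (nat_lit 0), (nat_lit 0)]) (PF.cons PF.nil (PF.cons PF.nil PF.nil)))) (PF.cons (PF.cons (PF.leaf (nat_lit 2647013) (nat_lit 1098168) (nat_lit 60689156) (nat_lit 2026981) [(nat_lit 0), (nat_lit 1098168), (nat_lit 0), (nat_lit 0)]) (PF.cons PF.nil PF.nil)) (PF.cons PF.nil PF.nil)))))) (PF.cons (PF.cons (PF.cons (PF.leaf (nat_lit 1479203) (nat_lit 1781558) (nat_lit 62804911) (nat_lit 1781558) [(nat_lit 0), (nat_lit 0), (nat_lit 2522342), (nat_lit 0)]) (PF.cons (PF.leaf (nat_lit 1622525) (nat_lit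 198687) (nat_lit 62535460) (nat_lit 1814694) [(nat_lit 198687), (nat_lit 0), (nat_lit 2559970), (nat_lit 0)]) (PF.cons (PF.leaf (nat_lit 1784393) (nat_lit 210798) (nat_lit 62238438) (nat_lit 1849304) [(nat_lit 210798), (nat_lit 0),
 (nat_lit 2599472), (nat_lit 0)]) (PF.cons (PF.leaf (nat_lit 1960596) (nat_lit 222176) (nat_lit 61917586) (nat_lit 1884679) [(nat_lit 222176), (nat_lit 0), (nat_lit 2640017), (nat_lit 0)]) (PF.cons (PF.leaf (nat_lit 2149522) (nat_lit 232965) (nat_lit 61575623) (nat_lit 1920319) [(nat_lit 232965), (nat_lit 0), (nat_lit 2681006), (nat_lit 0)]) (PF.cons PF.nil (PF.cons PF.nil PF.nil))))))) (PF.cons (PF.cons (PF.leaf (nat_lit 2025436) (nat_lit 1014144) (nat_lit 61495166) (nat_lit 1918256) [(nat_lit 0), (nat_lit 1014144), (nat_lit 2681245), (nat_lit 0)]) (PF.cons (PF.leaf (nat_lit 2201178) (nat_lit 233410) (nat_lit 61168700) (nat_lit 1950483) [(nat_lit 233410), (nat_lit 1038026), (nat_lit 2718191), (nat_lit 0)]) (PF.cons (PF.leaf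 (nat_lit 2392105) (nat_lit 243933) (nat_lit 60820169) (nat_lit 1983116) [(nat_lit 243933), (nat_lit 1061965), (nat_lit 2755694), (nat_lit 0)]) (PF.cons (PF.leaf (nat_lit 2595062) (nat_lit 253911) (nat_lit 60452362) (nat_lit 2015746) [(nat_lit 253911), (nat_lit 1085711), (nat_lit 2793259), (nat_lit 0)]) (PF.cons PF.nil PF.nil))))) (PF.cons (PF.cons (PF.leaf (nat_lit 2640681) (nat_lit 1100629) (nat_lit 60041512) (nat_lit 2041299) [(nat_lit 0), (nat_lit 1100629),
 (nat_lit 2824741), (nat_lit 0)]) (PF.cons (PF.leaf (nat_lit 2843121) (nat_lit 263640) (nat_lit 59670248) (nat_lit 2071078) [(nat_lit 263640), (nat_lit 1122461), (nat_lit 2858922), (nat_lit 0)]) (PF.cons PF.nil (PF.cons PF.nil PF.nil)))) (PF.cons (PF.cons (PF.leaf (nat_lit 3310361) (nat_lit 1176375) (nat_lit 58480611) (nat_lit 2149044) [(nat_lit 0), (nat_lit 1176375), (nat_lit 2950031), (nat_lit 0)]) (PF.cons PF.nil PF.nil)) (PF.cons PF.nil PF.nil))))) (PF.cons (PF.cons (PF.cons (PF.leaf (nat_lit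 2645661) (nat_lit 2055047) (nat_lit 59359829) (nat_lit 2055047) [(nat_lit 0), (nat_lit 0), (nat_lit 2846968), (nat_lit 0)]) (PF.cons (PF.leaf (nat_lit 2832618) (nat_lit 256259) (nat_lit 59015650) (nat_lit 2082104) [(nat_lit 256259), (nat_lit 0), (nat_lit 2877399), (nat_lit 0)]) (PF.cons (PF.leaf (nat_lit 3033929) (nat_lit 266303) (nat_lit 58650624) (nat_lit 2109356) [(nat_lit 266303), (nat_lit 0), (nat_lit 2908112), (nat_lit 0)]) (PF.cons (PF.leaf (nat_lit 3246553) (nat_lit 275702) (nat_lit 58267840) (nat_lit 2136463) [(nat_lit 275702), (nat_lit 0), (nat_lit 2938700), (nat_lit 0)]) (PF.cons PF.nil PF.nil))))) (PF.cons (PF.cons (PF.leaf (nat_lit 3282834) (nat_lit 1174869) (nat_lit 57853078)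
 (nat_lit 2155952) [(nat_lit 0), (nat_lit 1174869), (nat_lit 2962455), (nat_lit 0)]) (PF.cons (PF.leaf (nat_lit 3493616) (nat_lit 283726) (nat_lit 57470716) (nat_lit 2180556) [(nat_lit 283726), (nat_lit 1193649), (nat_lit 2990081), (nat_lit 0)]) (PF.cons PF.nil (PF.cons PF.nil PF.nil)))) (PF.cons (PF.cons (PF.leaf (nat_lit 3964832) (nat_lit 1238298) (nat_lit 56266468) (nat_lit 2242949) [(nat_lit 0), (nat_lit 1238298), (nat_lit 3061399), (nat_lit 0)]) (PF.cons PF.nil PF.nil)) PF.nil))) (PF.cons (PF.cons (PF.cons (PF.leaf (nat_lit 3917986) (nat_lit 2244233) (nat_lit 55666160) (nat_lit 2244233) [(nat_lit 0), (nat_lit 0), (nat_lit 3066139), (nat_lit 0)]) (PF.cons (PF.leaf (nat_lit 4134417) (nat_lit 300202) (nat_lit 55279983) (nat_lit 2264333) [(nat_lit 300202), (nat_lit 0), (nat_lit 3088097), (nat_lit 0)]) PF.nil)) (PF.cons PF.nil PF.nil)) (PF.cons PF.nil (PF.cons PF.nil PF.nil)))))) (PF.cons (PF.cons (PF.cons (PF.cons (PF.leaf (nat_lit 2547238) (nat_lit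 1996738) (nat_lit 57422454) (nat_lit 1996738) [(nat_lit 0), (nat_lit 0), (nat_lit 0), (nat_lit 7689620)]) (PF.cons (PF.leaf (nat_lit 2701568) (nat_lit 227628) (nat_lit 57145924) (nat_lit 2022243) [(nat_lit 227628), (nat_lit 0),
 (nat_lit 0), (nat_lit 7713015)]) (PF.cons (PF.leaf (nat_lit 2873660) (nat_lit 239745) (nat_lit 56843530) (nat_lit 2048549) [(nat_lit 239745), (nat_lit 0), (nat_lit 0), (nat_lit 7737242)]) (PF.cons (PF.leaf (nat_lit 3059077) (nat_lit 250834) (nat_lit 56519522) (nat_lit 2075103) [(nat_lit 250834), (nat_lit 0), (nat_lit 0), (nat_lit 7761683)]) (PF.cons (PF.leaf (nat_lit 3256328) (nat_lit 261103) (nat_lit 56176992) (nat_lit 2101534) [(nat_lit 261103), (nat_lit 0), (nat_lit 0), (nat_lit 7785872)]) (PF.cons (PF.leaf (nat_lit 3464251) (nat_lit 270687) (nat_lit 55818348) (nat_lit 2127580) [(nat_lit 270687), (nat_lit 0), (nat_lit 0), (nat_lit 7809444)]) (PF.cons (PF.leaf (nat_lit 3681667) (nat_lit 279681) (nat_lit 55445559) (nat_lit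 2153054) [(nat_lit 279681), (nat_lit 0), (nat_lit 0), (nat_lit 7832108)]) (PF.cons PF.nil (PF.cons PF.nil PF.nil))))))))) (PF.cons (PF.cons (PF.leaf (nat_lit 3110145) (nat_lit 1122349) (nat_lit 56104279) (nat_lit 2096806) [(nat_lit 0), (nat_lit 1122349), (nat_lit 0), (nat_lit 7785378)]) (PF.cons (PF.leaf (nat_lit 3293241) (nat_lit 259616) (nat_lit 55780147) (nat_lit 2120614) [(nat_lit 259616), (nat_lit 1141991), (nat_lit 0), (nat_lit 7806442)]) (PF.cons
 (PF.leaf (nat_lit 3490244) (nat_lit 269582) (nat_lit 55436564) (nat_lit 2144458) [(nat_lit 269582), (nat_lit 1161390), (nat_lit 0), (nat_lit 7827235)]) (PF.cons (PF.leaf (nat_lit 3698211) (nat_lit 278831) (nat_lit 55076534) (nat_lit 2168038) [(nat_lit 278831), (nat_lit 1180364), (nat_lit 0), (nat_lit 7847381)]) (PF.cons (PF.leaf (nat_lit 3915778) (nat_lit 287475) (nat_lit 54702370) (nat_lit 2191145) [(nat_lit 287475), (nat_lit 1198801), (nat_lit 0), (nat_lit 7866593)]) (PF.cons PF.nil (PF.cons PF.nil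 PF.nil))))))) (PF.cons (PF.cons (PF.leaf (nat_lit 3727765) (nat_lit 1189532) (nat_lit 54683910) (nat_lit 2183605) [(nat_lit 0), (nat_lit 1189532), (nat_lit 0), (nat_lit 7862231)]) (PF.cons (PF.leaf (nat_lit 3933337) (nat_lit 286095) (nat_lit 54325336) (nat_lit 2204834) [(nat_lit 286095), (nat_lit 1206778), (nat_lit 0), (nat_lit 7878989)]) (PF.cons (PF.leaf (nat_lit 4150124) (nat_lit 294467) (nat_lit 53952144) (nat_lit 2225700) [(nat_lit 294467), (nat_lit 1223604), (nat_lit 0), (nat_lit 7894823)]) (PF.cons (PF.leaf (nat_lit 4375747) (nat_lit 302290) (nat_lit 53566566) (nat_lit 2246035) [(nat_lit 302290), (nat_lit 1239914), (nat_lit 0), (nat_lit 7909510)]) (PF.cons PF.nil PF.nil)))))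
 (PF.cons (PF.cons (PF.leaf (nat_lit 4386134) (nat_lit 1246252) (nat_lit 53196078) (nat_lit 2256977) [(nat_lit 0), (nat_lit 1246252), (nat_lit 0), (nat_lit 7916999)]) (PF.cons (PF.leaf (nat_lit 4609264) (nat_lit 308279) (nat_lit 52813420) (nat_lit 2275269) [(nat_lit 308279), (nat_lit 1261131), (nat_lit 0), (nat_lit 7928449)]) (PF.cons (PF.leaf (nat_lit 4841453) (nat_lit 315368) (nat_lit 52419936) (nat_lit 2292993) [(nat_lit 315368), (nat_lit 1275509), (nat_lit 0), (nat_lit 7938618)]) (PF.cons PF.nil PF.nil)))) (PF.cons (PF.cons (PF.leaf (nat_lit 5073753) (nat_lit 1293531) (nat_lit 51668439) (nat_lit 2317414) [(nat_lit 0), (nat_lit 1293531), (nat_lit 0), (nat_lit 7948830)]) (PF.cons PF.nil PF.nil)) (PF.cons PF.nil PF.nil)))))) (PF.cons (PF.cons (PF.cons (PF.leaf (nat_lit 3701176) (nat_lit 2183614) (nat_lit 54059766) (nat_lit 2183614) [(nat_lit 0), (nat_lit 0), (nat_lit 3001842), (nat_lit 7863589)]) (PF.cons (PF.leaf (nat_lit 3891238) (nat_lit 276417)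 (nat_lit 53729553) (nat_lit 2203267) [(nat_lit 276417), (nat_lit 0), (nat_lit 3022381), (nat_lit 7877192)]) (PF.cons (PF.leaf (nat_lit 4094491) (nat_lit 285835) (nat_lit 53381224) (nat_lit 2222838) [(nat_lit 285835), (nat_lit 0),
 (nat_lit 3042881), (nat_lit 7890197)]) (PF.cons (PF.leaf (nat_lit 4307950) (nat_lit 294477) (nat_lit 53017902) (nat_lit 2242085) [(nat_lit 294477), (nat_lit 0), (nat_lit 3063062), (nat_lit 7902331)]) (PF.cons (PF.leaf (nat_lit 4530342) (nat_lit 302474) (nat_lit 52641962) (nat_lit 2260837) [(nat_lit 302474), (nat_lit 0), (nat_lit 3082726), (nat_lit 7913388)]) (PF.cons PF.nil (PF.cons PF.nil PF.nil))))))) (PF.cons (PF.cons (PF.leaf (nat_lit 4328776) (nat_lit 1238561) (nat_lit 52632152) (nat_lit 2253330) [(nat_lit 0), (nat_lit 1238561), (nat_lit 3076066), (nat_lit 7908701)]) (PF.cons (PF.leaf (nat_lit 4539025) (nat_lit 300321) (nat_lit 52272823) (nat_lit 2270556) [(nat_lit 300321), (nat_lit 1253256), (nat_lit 3093971), (nat_lit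 7917883)]) (PF.cons (PF.leaf (nat_lit 4759696) (nat_lit 308099) (nat_lit 51900268) (nat_lit 2287383) [(nat_lit 308099), (nat_lit 1267511), (nat_lit 3111441), (nat_lit 7926008)]) (PF.cons (PF.leaf (nat_lit 4988500) (nat_lit 315299) (nat_lit 51516738) (nat_lit 2303678) [(nat_lit 315299), (nat_lit 1281253), (nat_lit 3128319), (nat_lit 7932925)]) (PF.cons PF.nil PF.nil))))) (PF.cons (PF.cons (PF.leaf (nat_lit 4989988) (nat_lit 1285456) (nat_lit 51156556) (nat_lit
 2311153) [(nat_lit 0), (nat_lit 1285456), (nat_lit 3136810), (nat_lit 7933379)]) (PF.cons (PF.leaf (nat_lit 5215604) (nat_lit 320048) (nat_lit 50777940) (nat_lit 2325698) [(nat_lit 320048), (nat_lit 1297955), (nat_lit 3151668), (nat_lit 7937546)]) (PF.cons PF.nil (PF.cons PF.nil PF.nil)))) (PF.cons (PF.cons (PF.leaf (nat_lit 5674261) (nat_lit 1323921) (nat_lit 49657429) (nat_lit 2357614) [(nat_lit 0), (nat_lit 1323921), (nat_lit 3184346), (nat_lit 7937656)]) (PF.cons PF.nil PF.nil)) (PF.cons PF.nil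 PF.nil))))) (PF.cons (PF.cons (PF.cons (PF.leaf (nat_lit 4917171) (nat_lit 2304420) (nat_lit 50625748) (nat_lit 2304420) [(nat_lit 0), (nat_lit 0), (nat_lit 3131012), (nat_lit 7916617)]) (PF.cons (PF.leaf (nat_lit 5130255) (nat_lit 311771) (nat_lit 50270068) (nat_lit 2318203) [(nat_lit 311771), (nat_lit 0), (nat_lit 3144745), (nat_lit 7919278)]) (PF.cons (PF.leaf (nat_lit 5353025) (nat_lit 318995) (nat_lit 49902428) (nat_lit 2331566) [(nat_lit 318995), (nat_lit 0), (nat_lit 3158007), (nat_lit 7920812)]) (PF.cons PF.nil PF.nil)))) (PF.cons (PF.cons (PF.leaf (nat_lit 5576572) (nat_lit 1314738) (nat_lit 49177861) (nat_lit 2349048) [(nat_lit 0), (nat_lit 1314738), (nat_lit 3175638),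
 (nat_lit 7915888)]) (PF.cons (PF.leaf (nat_lit 5803133) (nat_lit 329304) (nat_lit 48806853) (nat_lit 2360387) [(nat_lit 329304), (nat_lit 1325168), (nat_lit 3186591), (nat_lit 7913916)]) PF.nil)) (PF.cons PF.nil PF.nil))) (PF.cons (PF.cons (PF.cons (PF.leaf (nat_lit 6144156) (nat_lit 2373453) (nat_lit 47271514) (nat_lit 2373453) [(nat_lit 0), (nat_lit 0), (nat_lit 3197620), (nat_lit 7870983)]) (PF.cons (PF.leaf (nat_lit 6370458) (nat_lit 336418) (nat_lit 46910650) (nat_lit 2382057) [(nat_lit 336418), (nat_lit 0), (nat_lit 3205261), (nat_lit 7863903)]) PF.nil)) (PF.cons PF.nil PF.nil)) (PF.cons PF.nil (PF.cons PF.nil PF.nil)))))) (PF.cons (PF.cons (PF.cons (PF.cons (PF.leaf (nat_lit 4645620) (nat_lit 2237562) (nat_lit 49274253) (nat_lit 2237562) [(nat_lit 0), (nat_lit 0), (nat_lit 0), (nat_lit 7798498)]) (PF.cons (PF.leaf (nat_lit 4834549) (nat_lit 287118) (nat_lit 48969377) (nat_lit 2251914) [(nat_lit 287118), (nat_lit 0), (nat_lit 0), (nat_lit 7800201)])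 (PF.cons (PF.leaf (nat_lit 5035648) (nat_lit 295938) (nat_lit 48648848) (nat_lit 2266022) [(nat_lit 295938), (nat_lit 0), (nat_lit 0), (nat_lit 7801032)]) (PF.cons (PF.leaf (nat_lit 5246033) (nat_lit 303907) (nat_lit 48315626)
 (nat_lit 2279715) [(nat_lit 303907), (nat_lit 0), (nat_lit 0), (nat_lit 7800875)]) (PF.cons (PF.leaf (nat_lit 5464352) (nat_lit 311175) (nat_lit 47971941) (nat_lit 2292876) [(nat_lit 311175), (nat_lit 0), (nat_lit 0), (nat_lit 7799645)]) (PF.cons (PF.leaf (nat_lit 5689700) (nat_lit 317851) (nat_lit 47619560) (nat_lit 2305431) [(nat_lit 317851), (nat_lit 0), (nat_lit 0), (nat_lit 7797281)]) (PF.cons PF.nil PF.nil))))))) (PF.cons (PF.cons (PF.leaf (nat_lit 5254379) (nat_lit 1265230) (nat_lit 47967619) (nat_lit 2285498) [(nat_lit 0), (nat_lit 1265230), (nat_lit 0), (nat_lit 7795231)]) (PF.cons (PF.leaf (nat_lit 5460726) (nat_lit 308152) (nat_lit 47639990) (nat_lit 2297558) [(nat_lit 308152), (nat_lit 1276902), (nat_lit 0), (nat_lit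 7793104)]) (PF.cons (PF.leaf (nat_lit 5676546) (nat_lit 315232) (nat_lit 47301272) (nat_lit 2309176) [(nat_lit 315232), (nat_lit 1288082), (nat_lit 0), (nat_lit 7789908)]) (PF.cons (PF.leaf (nat_lit 5899608) (nat_lit 321697) (nat_lit 46953544) (nat_lit 2320263) [(nat_lit 321697), (nat_lit 1298728), (nat_lit 0), (nat_lit 7785592)]) (PF.cons PF.nil PF.nil))))) (PF.cons (PF.cons (PF.leaf (nat_lit 5889206) (nat_lit 1300271) (nat_lit 46631906) (nat_lit 2323325)
 [(nat_lit 0), (nat_lit 1300271), (nat_lit 0), (nat_lit 7776519)]) (PF.cons (PF.leaf (nat_lit 6108429) (nat_lit 324993) (nat_lit 46290214) (nat_lit 2333038) [(nat_lit 324993), (nat_lit 1309877), (nat_lit 0), (nat_lit 7770405)]) (PF.cons (PF.leaf (nat_lit 6335124) (nat_lit 330763) (nat_lit 45940759) (nat_lit 2342225) [(nat_lit 330763), (nat_lit 1318992), (nat_lit 0), (nat_lit 7763157)]) (PF.cons PF.nil PF.nil)))) (PF.cons (PF.cons (PF.leaf (nat_lit 6540906) (nat_lit 1327931) (nat_lit 45287114) (nat_lit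 2351866) [(nat_lit 0), (nat_lit 1327931), (nat_lit 0), (nat_lit 7743018)]) (PF.cons PF.nil PF.nil)) (PF.cons PF.nil PF.nil))))) (PF.cons (PF.cons (PF.cons (PF.leaf (nat_lit 5798068) (nat_lit 2312188) (nat_lit 46170726) (nat_lit 2312188) [(nat_lit 0), (nat_lit 0), (nat_lit 3127407), (nat_lit 7749244)]) (PF.cons (PF.leaf (nat_lit 6005517) (nat_lit 316102) (nat_lit 45850063) (nat_lit 2321593) [(nat_lit 316102), (nat_lit 0), (nat_lit 3135603), (nat_lit 7742724)]) (PF.cons (PF.leaf (nat_lit 6221894) (nat_lit 322676) (nat_lit 45519348) (nat_lit 2330559) [(nat_lit 322676), (nat_lit 0), (nat_lit 3143318), (nat_lit 7735117)]) (PF.cons (PF.leaf (nat_lit 6444976) (nat_lit 328630) (nat_lit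
 45180607) (nat_lit 2339016) [(nat_lit 328630), (nat_lit 0), (nat_lit 3150475), (nat_lit 7726410)]) (PF.cons PF.nil PF.nil))))) (PF.cons (PF.cons (PF.leaf (nat_lit 6427582) (nat_lit 1316936) (nat_lit 44873134) (nat_lit 2340112) [(nat_lit 0), (nat_lit 1316936), (nat_lit 3150953), (nat_lit 7713837)]) (PF.cons (PF.leaf (nat_lit 6646477) (nat_lit 331083) (nat_lit 44541244) (nat_lit 2347406) [(nat_lit 331083), (nat_lit 1324893), (nat_lit 3156831), (nat_lit 7703677)]) (PF.cons PF.nil (PF.cons PF.nil PF.nil)))) (PF.cons (PF.cons (PF.leaf (nat_lit 7070316) (nat_lit 1338757) (nat_lit 43574661) (nat_lit 2359949) [(nat_lit 0), (nat_lit 1338757), (nat_lit 3165453), (nat_lit 7665617)]) (PF.cons PF.nil PF.nil)) PF.nil))) (PF.cons (PF.cons (PF.cons (PF.leaf (nat_lit 6947752) (nat_lit 2347456) (nat_lit 43189783) (nat_lit 2347456) [(nat_lit 0), (nat_lit 0), (nat_lit 3151416), (nat_lit 7634369)]) (PF.cons (PF.leaf (nat_lit 7165459) (nat_lit 335560) (nat_lit 42869004)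 (nat_lit 2352697) [(nat_lit 335560), (nat_lit 0), (nat_lit 3154886), (nat_lit 7620888)]) PF.nil)) (PF.cons PF.nil PF.nil)) (PF.cons PF.nil (PF.cons PF.nil PF.nil))))) (PF.cons (PF.cons (PF.cons (PF.cons (PF.leaf (nat_lit 6580294)
 (nat_lit 2288294) (nat_lit 42274626) (nat_lit 2288294) [(nat_lit 0), (nat_lit 0), (nat_lit 0), (nat_lit 7515297)]) (PF.cons (PF.leaf (nat_lit 6781167) (nat_lit 315846) (nat_lit 41988343) (nat_lit 2294637) [(nat_lit 315846), (nat_lit 0), (nat_lit 0), (nat_lit 7503328)]) (PF.cons (PF.leaf (nat_lit 6990316) (nat_lit 321882) (nat_lit 41693497) (nat_lit 2300541) [(nat_lit 321882), (nat_lit 0), (nat_lit 0), (nat_lit 7490336)]) (PF.cons PF.nil PF.nil)))) (PF.cons (PF.cons (PF.leaf (nat_lit 7180290) (nat_lit 1303257) (nat_lit 41121345) (nat_lit 2304787) [(nat_lit 0), (nat_lit 1303257), (nat_lit 0), (nat_lit 7459807)]) (PF.cons (PF.leaf (nat_lit 7391128) (nat_lit 328866) (nat_lit 40826443) (nat_lit 2309299) [(nat_lit 328866), (nat_lit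 1309424), (nat_lit 0), (nat_lit 7444926)]) PF.nil)) (PF.cons PF.nil PF.nil))) (PF.cons (PF.cons (PF.cons (PF.leaf (nat_lit 7659658) (nat_lit 2301203) (nat_lit 39641287) (nat_lit 2301203) [(nat_lit 0), (nat_lit 0), (nat_lit 3079913), (nat_lit 7362136)]) (PF.cons PF.nil PF.nil)) (PF.cons PF.nil PF.nil)) (PF.cons PF.nil PF.nil))) (PF.cons (PF.cons (PF.cons (PF.cons (PF.leaf (nat_lit 8297389) (nat_lit 2243738) (nat_lit 36554089) (nat_lit 2243738) [(nat_lit 0),
 (nat_lit 0), (nat_lit 0), (nat_lit 7077746)]) (PF.cons PF.nil PF.nil)) (PF.cons PF.nil PF.nil)) (PF.cons PF.nil PF.nil)) (PF.cons PF.nil (PF.cons PF.nil (PF.cons PF.nil PF.nil))))))))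

def p14_8_0_0 : pfC (piC [(nat_lit 43428061), (nat_lit 27333682), (nat_lit 20249535), (nat_lit 13586793)] (nat_lit 28134109)) p14_8_0 (nat_lit 4) (nat_lit 0) (nat_lit 1) = true := by decide +kernel
def p14_8_0_1 : pfC (piC [(nat_lit 43428061), (nat_lit 27333682), (nat_lit 20249535), (nat_lit 13586793)] (nat_lit 28134109)) p14_8_0 (nat_lit 4) (nat_lit 1) (nat_lit 2) = true := by decide +kernel
def p14_8_0_2 : pfC (piC [(nat_lit 43428061), (nat_lit 27333682), (nat_lit 20249535), (nat_lit 13586793)] (nat_lit 28134109)) p14_8_0 (nat_lit 4) (nat_lit 2) (nat_lit 3) = true := by decide +kernel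
def p14_8_0_3 : pfC (piC [(nat_lit 43428061), (nat_lit 27333682), (nat_lit 20249535), (nat_lit 13586793)] (nat_lit 28134109)) p14_8_0 (nat_lit 4) (nat_lit 3) (nat_lit 4) = true := by decide +kernel
def p14_8_0_4 : pfC (piC [(nat_lit 43428061), (nat_lit 27333682), (nat_lit 20249535), (nat_lit 13586793)] (nat_lit 28134109)) p14_8_0 (nat_lit 4) (nat_lit 4) (nat_lit 5) = true := by decide +kernel
def p14_8_0_5 : pfC (piC [(nat_lit 43428061), (nat_lit 27333682), (nat_lit 20249535), (nat_lit 13586793)] (nat_lit 28134109)) p14_8_0 (nat_lit 4) (nat_lit 5) (nat_lit 6) = true := by decide +kernel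
def p14_8_0_6 : pfC (piC [(nat_lit 43428061), (nat_lit 27333682), (nat_lit 20249535), (nat_lit 13586793)] (nat_lit 28134109)) p14_8_0 (nat_lit 4) (nat_lit 6) (nat_lit 7) = true := by decide +kernel
def p14_8_0_7 : pfC (piC [(nat_lit 43428061), (nat_lit 27333682), (nat_lit 20249535), (nat_lit 13586793)] (nat_lit 28134109)) p14_8_0 (nat_lit 4) (nat_lit 7) (nat_lit 8) = true := by decide +kernel
def p14_8_0_8 : pfC (piC [(nat_lit 43428061), (nat_lit 27333682), (nat_lit 20249535), (nat_lit 13586793)] (nat_lit 28134109)) p14_8_0 (nat_lit 4) (nat_lit 8) (nat_lit 9) = true := by decide +kernel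
def p14_8_0_9 : pfC (piC [(nat_lit 43428061), (nat_lit 27333682), (nat_lit 20249535), (nat_lit 13586793)] (nat_lit 28134109)) p14_8_0 (nat_lit 4) (nat_lit 9) (nat_lit 10) = true := by decide +kernel
def p14_8_0_10 : pfC (piC [(nat_lit 43428061), (nat_lit 27333682), (nat_lit 20249535), (nat_lit 13586793)] (nat_lit 28134109)) p14_8_0 (nat_lit 4) (nat_lit 10) (nat_lit 11) = true := by decide +kernel
def p14_8_0_11 : pfC (piC [(nat_lit 43428061), (nat_lit 27333682), (nat_lit 20249535), (nat_lit 13586793)] (nat_lit 28134109)) p14_8_0 (nat_lit 4) (nat_lit 11) (nat_lit 12) = true := by decide +kernel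
def p14_8_0_12 : pfC (piC [(nat_lit 43428061), (nat_lit 27333682), (nat_lit 20249535), (nat_lit 13586793)] (nat_lit 28134109)) p14_8_0 (nat_lit 4) (nat_lit 12) (nat_lit 13) = true := by decide +kernel
def p14_8_0_13 : pfC (piC [(nat_lit 43428061), (nat_lit 27333682), (nat_lit 20249535), (nat_lit 13586793)] (nat_lit 28134109)) p14_8_0 (nat_lit 4) (nat_lit 13) (nat_lit 14) = true := by decide +kernel
def p14_8_0_14 : pfC (piC [(nat_lit 43428061), (nat_lit 27333682), (nat_lit 20249535), (nat_lit 13586793)] (nat_lit 28134109)) p14_8_0 (nat_lit 4) (nat_lit 14) (nat_lit 15) = true := by decide +kernel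
def p14_8_0_15 : pfC (piC [(nat_lit 43428061), (nat_lit 27333682), (nat_lit 20249535), (nat_lit 13586793)] (nat_lit 28134109)) p14_8_0 (nat_lit 4) (nat_lit 15) (nat_lit 16) = true := by decide +kernel
def p14_8_0_16 : pfC (piC [(nat_lit 43428061), (nat_lit 27333682), (nat_lit 20249535), (nat_lit 13586793)] (nat_lit 28134109)) p14_8_0 (nat_lit 4) (nat_lit 16) (nat_lit 17) = true := by decide +kernel
def p14_8_0_17 : pfC (piC [(nat_lit 43428061), (nat_lit 27333682), (nat_lit 20249535), (nat_lit 13586793)] (nat_lit 28134109)) p14_8_0 (nat_lit 4) (nat_lit 17) (nat_lit 18) = true := by decide +kernel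
def p14_8_0_18 : pfC (piC [(nat_lit 43428061), (nat_lit 27333682), (nat_lit 20249535), (nat_lit 13586793)] (nat_lit 28134109)) p14_8_0 (nat_lit 4) (nat_lit 18) (nat_lit 19) = true := by decide +kernel
def p14_8_0_19 : pfC (piC [(nat_lit 43428061), (nat_lit 27333682), (nat_lit 20249535), (nat_lit 13586793)] (nat_lit 28134109)) p14_8_0 (nat_lit 4) (nat_lit 19) (nat_lit 20) = true := by decide +kernel
def p14_8_0_20 : pfC (piC [(nat_lit 43428061), (nat_lit 27333682), (nat_lit 20249535), (nat_lit 13586793)] (nat_lit 28134109)) p14_8_0 (nat_lit 4) (nat_lit 20) (nat_lit 21) = true := by decide +kernel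
def p14_8_0_21 : pfC (piC [(nat_lit 43428061), (nat_lit 27333682), (nat_lit 20249535), (nat_lit 13586793)] (nat_lit 28134109)) p14_8_0 (nat_lit 4) (nat_lit 21) (nat_lit 22) = true := by decide +kernel
def p14_8_0_22 : pfC (piC [(nat_lit 43428061), (nat_lit 27333682), (nat_lit 20249535), (nat_lit 13586793)] (nat_lit 28134109)) p14_8_0 (nat_lit 4) (nat_lit 22) (nat_lit 23) = true := by decide +kernel
def p14_8_0_23 : pfC (piC [(nat_lit 43428061), (nat_lit 27333682), (nat_lit 20249535), (nat_lit 13586793)] (nat_lit 28134109)) p14_8_0 (nat_lit 4) (nat_lit 23) (nat_lit 24) = true := by decide +kernel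
def p14_8_0_24 : pfC (piC [(nat_lit 43428061), (nat_lit 27333682), (nat_lit 20249535), (nat_lit 13586793)] (nat_lit 28134109)) p14_8_0 (nat_lit 4) (nat_lit 24) (nat_lit 25) = true := by decide +kernel
def p14_8_0_25 : pfC (piC [(nat_lit 43428061), (nat_lit 27333682), (nat_lit 20249535), (nat_lit 13586793)] (nat_lit 28134109)) p14_8_0 (nat_lit 4) (nat_lit 25) (nat_lit 26) = true := by decide +kernel
def p14_8_0_26 : pfC (piC [(nat_lit 43428061), (nat_lit 27333682), (nat_lit 20249535), (nat_lit 13586793)] (nat_lit 28134109)) p14_8_0 (nat_lit 4) (nat_lit 26) (nat_lit 27) = true := by decide +kernel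
def p14_8_0_27 : pfC (piC [(nat_lit 43428061), (nat_lit 27333682), (nat_lit 20249535), (nat_lit 13586793)] (nat_lit 28134109)) p14_8_0 (nat_lit 4) (nat_lit 27) (nat_lit 28) = true := by decide +kernel
def p14_8_0_28 : pfC (piC [(nat_lit 43428061), (nat_lit 27333682), (nat_lit 20249535), (nat_lit 13586793)] (nat_lit 28134109)) p14_8_0 (nat_lit 4) (nat_lit 28) (nat_lit 29) = true := by decide +kernel
def p14_8_0_29 : pfC (piC [(nat_lit 43428061), (nat_lit 27333682), (nat_lit 20249535), (nat_lit 13586793)] (nat_lit 28134109)) p14_8_0 (nat_lit 4) (nat_lit 29) (nat_lit 30) = true := by decide +kernel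
def p14_8_0_30 : pfC (piC [(nat_lit 43428061), (nat_lit 27333682), (nat_lit 20249535), (nat_lit 13586793)] (nat_lit 28134109)) p14_8_0 (nat_lit 4) (nat_lit 30) (nat_lit 31) = true := by decide +kernel
def p14_8_0_31 : pfC (piC [(nat_lit 43428061), (nat_lit 27333682), (nat_lit 20249535), (nat_lit 13586793)] (nat_lit 28134109)) p14_8_0 (nat_lit 4) (nat_lit 31) (nat_lit 32) = true := by decide +kernel
def p14_8_0_32 : pfC (piC [(nat_lit 43428061), (nat_lit 27333682), (nat_lit 20249535), (nat_lit 13586793)] (nat_lit 28134109)) p14_8_0 (nat_lit 4) (nat_lit 32) (nat_lit 33) = true := by decide +kernel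
def p14_8_0_33 : pfC (piC [(nat_lit 43428061), (nat_lit 27333682), (nat_lit 20249535), (nat_lit 13586793)] (nat_lit 28134109)) p14_8_0 (nat_lit 4) (nat_lit 33) (nat_lit 34) = true := by decide +kernel
def p14_8_0_34 : pfC (piC [(nat_lit 43428061), (nat_lit 27333682), (nat_lit 20249535), (nat_lit 13586793)] (nat_lit 28134109)) p14_8_0 (nat_lit 4) (nat_lit 34) (nat_lit 35) = true := by decide +kernel
def p14_8_0_35 : pfC (piC [(nat_lit 43428061), (nat_lit 27333682), (nat_lit 20249535), (nat_lit 13586793)] (nat_lit 28134109)) p14_8_0 (nat_lit 4) (nat_lit 35) (nat_lit 36) = true := by decide +kernel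
def p14_8_0_36 : pfC (piC [(nat_lit 43428061), (nat_lit 27333682), (nat_lit 20249535), (nat_lit 13586793)] (nat_lit 28134109)) p14_8_0 (nat_lit 4) (nat_lit 36) (nat_lit 37) = true := by decide +kernel
def p14_8_0_37 : pfC (piC [(nat_lit 43428061), (nat_lit 27333682), (nat_lit 20249535), (nat_lit 13586793)] (nat_lit 28134109)) p14_8_0 (nat_lit 4) (nat_lit 37) (nat_lit 38) = true := by decide +kernel
def p14_8_0_38 : pfC (piC [(nat_lit 43428061), (nat_lit 27333682), (nat_lit 20249535), (nat_lit 13586793)] (nat_lit 28134109)) p14_8_0 (nat_lit 4) (nat_lit 38) (nat_lit 39) = true := by decide +kernel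
def p14_8_0_39 : pfC (piC [(nat_lit 43428061), (nat_lit 27333682), (nat_lit 20249535), (nat_lit 13586793)] (nat_lit 28134109)) p14_8_0 (nat_lit 4) (nat_lit 39) (nat_lit 40) = true := by decide +kernel
def p14_8_0_40 : pfC (piC [(nat_lit 43428061), (nat_lit 27333682), (nat_lit 20249535), (nat_lit 13586793)] (nat_lit 28134109)) p14_8_0 (nat_lit 4) (nat_lit 40) (nat_lit 41) = true := by decide +kernel
def p14_8_0_41 : pfC (piC [(nat_lit 43428061), (nat_lit 27333682), (nat_lit 20249535), (nat_lit 13586793)] (nat_lit 28134109)) p14_8_0 (nat_lit 4) (nat_lit 41) (nat_lit 42) = true := by decide +kernel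
def p14_8_0_42 : pfC (piC [(nat_lit 43428061), (nat_lit 27333682), (nat_lit 20249535), (nat_lit 13586793)] (nat_lit 28134109)) p14_8_0 (nat_lit 4) (nat_lit 42) (nat_lit 43) = true := by decide +kernel
def p14_8_0_43 : pfC (piC [(nat_lit 43428061), (nat_lit 27333682), (nat_lit 20249535), (nat_lit 13586793)] (nat_lit 28134109)) p14_8_0 (nat_lit 4) (nat_lit 43) (nat_lit 44) = true := by decide +kernel
def p14_8_0_44 : pfC (piC [(nat_lit 43428061), (nat_lit 27333682), (nat_lit 20249535), (nat_lit 13586793)] (nat_lit 28134109)) p14_8_0 (nat_lit 4) (nat_lit 44) (nat_lit 45) = true := by decide +kernel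
def p14_8_0_45 : pfC (piC [(nat_lit 43428061), (nat_lit 27333682), (nat_lit 20249535), (nat_lit 13586793)] (nat_lit 28134109)) p14_8_0 (nat_lit 4) (nat_lit 45) (nat_lit 46) = true := by decide +kernel
def p14_8_0_46 : pfC (piC [(nat_lit 43428061), (nat_lit 27333682), (nat_lit 20249535), (nat_lit 13586793)] (nat_lit 28134109)) p14_8_0 (nat_lit 4) (nat_lit 46) (nat_lit 47) = true := by decide +kernel
def p14_8_0_47 : pfC (piC [(nat_lit 43428061), (nat_lit 27333682), (nat_lit 20249535), (nat_lit 13586793)] (nat_lit 28134109)) p14_8_0 (nat_lit 4) (nat_lit 47) (nat_lit 48) = true := by decide +kernel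
def p14_8_0_48 : pfC (piC [(nat_lit 43428061), (nat_lit 27333682), (nat_lit 20249535), (nat_lit 13586793)] (nat_lit 28134109)) p14_8_0 (nat_lit 4) (nat_lit 48) (nat_lit 49) = true := by decide +kernel
def p14_8_0_49 : pfC (piC [(nat_lit 43428061), (nat_lit 27333682), (nat_lit 20249535), (nat_lit 13586793)] (nat_lit 28134109)) p14_8_0 (nat_lit 4) (nat_lit 49) (nat_lit 50) = true := by decide +kernel
def p14_8_0_50 : pfC (piC [(nat_lit 43428061), (nat_lit 27333682), (nat_lit 20249535), (nat_lit 13586793)] (nat_lit 28134109)) p14_8_0 (nat_lit 4) (nat_lit 50) (nat_lit 51) = true := by decide +kernel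
def p14_8_0_51 : pfC (piC [(nat_lit 43428061), (nat_lit 27333682), (nat_lit 20249535), (nat_lit 13586793)] (nat_lit 28134109)) p14_8_0 (nat_lit 4) (nat_lit 51) (nat_lit 52) = true := by decide +kernel
def p14_8_0_52 : pfC (piC [(nat_lit 43428061), (nat_lit 27333682), (nat_lit 20249535), (nat_lit 13586793)] (nat_lit 28134109)) p14_8_0 (nat_lit 4) (nat_lit 52) (nat_lit 53) = true := by decide +kernel
def p14_8_0_53 : pfC (piC [(nat_lit 43428061), (nat_lit 27333682), (nat_lit 20249535), (nat_lit 13586793)] (nat_lit 28134109)) p14_8_0 (nat_lit 4) (nat_lit 53) (nat_lit 54) = true := by decide +kernel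
def p14_8_0_54 : pfC (piC [(nat_lit 43428061), (nat_lit 27333682), (nat_lit 20249535), (nat_lit 13586793)] (nat_lit 28134109)) p14_8_0 (nat_lit 4) (nat_lit 54) (nat_lit 55) = true := by decide +kernel
def p14_8_0_55 : pfC (piC [(nat_lit 43428061), (nat_lit 27333682), (nat_lit 20249535), (nat_lit 13586793)] (nat_lit 28134109)) p14_8_0 (nat_lit 4) (nat_lit 55) (nat_lit 56) = true := by decide +kernel
def p14_8_0_56 : pfC (piC [(nat_lit 43428061), (nat_lit 27333682), (nat_lit 20249535), (nat_lit 13586793)] (nat_lit 28134109)) p14_8_0 (nat_lit 4) (nat_lit 56) (nat_lit 57) = true := by decide +kernel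
def p14_8_0_57 : pfC (piC [(nat_lit 43428061), (nat_lit 27333682), (nat_lit 20249535), (nat_lit 13586793)] (nat_lit 28134109)) p14_8_0 (nat_lit 4) (nat_lit 57) (nat_lit 58) = true := by decide +kernel
def p14_8_0_58 : pfC (piC [(nat_lit 43428061), (nat_lit 27333682), (nat_lit 20249535), (nat_lit 13586793)] (nat_lit 28134109)) p14_8_0 (nat_lit 4) (nat_lit 58) (nat_lit 59) = true := by decide +kernel
def p14_8_0_59 : pfC (piC [(nat_lit 43428061), (nat_lit 27333682), (nat_lit 20249535), (nat_lit 13586793)] (nat_lit 28134109)) p14_8_0 (nat_lit 4) (nat_lit 59) (nat_lit 60) = true := by decide +kernel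
def p14_8_0_60 : pfC (piC [(nat_lit 43428061), (nat_lit 27333682), (nat_lit 20249535), (nat_lit 13586793)] (nat_lit 28134109)) p14_8_0 (nat_lit 4) (nat_lit 60) (nat_lit 61) = true := by decide +kernel
def p14_8_0_61 : pfC (piC [(nat_lit 43428061), (nat_lit 27333682), (nat_lit 20249535), (nat_lit 13586793)] (nat_lit 28134109)) p14_8_0 (nat_lit 4) (nat_lit 61) (nat_lit 62) = true := by decide +kernel
def p14_8_0_62 : pfC (piC [(nat_lit 43428061), (nat_lit 27333682), (nat_lit 20249535), (nat_lit 13586793)] (nat_lit 28134109)) p14_8_0 (nat_lit 4) (nat_lit 62) (nat_lit 63) = true := by decide +kernel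
def p14_8_0_63 : pfC (piC [(nat_lit 43428061), (nat_lit 27333682), (nat_lit 20249535), (nat_lit 13586793)] (nat_lit 28134109)) p14_8_0 (nat_lit 4) (nat_lit 63) (nat_lit 64) = true := by decide +kernel
def p14_8_0_64 : pfC (piC [(nat_lit 43428061), (nat_lit 27333682), (nat_lit 20249535), (nat_lit 13586793)] (nat_lit 28134109)) p14_8_0 (nat_lit 4) (nat_lit 64) (nat_lit 65) = true := by decide +kernel
def p14_8_0_65 : pfC (piC [(nat_lit 43428061), (nat_lit 27333682), (nat_lit 20249535), (nat_lit 13586793)] (nat_lit 28134109)) p14_8_0 (nat_lit 4) (nat_lit 65) (nat_lit 66) = true := by decide +kernel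
def p14_8_0_66 : pfC (piC [(nat_lit 43428061), (nat_lit 27333682), (nat_lit 20249535), (nat_lit 13586793)] (nat_lit 28134109)) p14_8_0 (nat_lit 4) (nat_lit 66) (nat_lit 67) = true := by decide +kernel
def p14_8_0_67 : pfC (piC [(nat_lit 43428061), (nat_lit 27333682), (nat_lit 20249535), (nat_lit 13586793)] (nat_lit 28134109)) p14_8_0 (nat_lit 4) (nat_lit 67) (nat_lit 68) = true := by decide +kernel
def p14_8_0_68 : pfC (piC [(nat_lit 43428061), (nat_lit 27333682), (nat_lit 20249535), (nat_lit 13586793)] (nat_lit 28134109)) p14_8_0 (nat_lit 4) (nat_lit 68) (nat_lit 69) = true := by decide +kernel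
def p14_8_0_69 : pfC (piC [(nat_lit 43428061), (nat_lit 27333682), (nat_lit 20249535), (nat_lit 13586793)] (nat_lit 28134109)) p14_8_0 (nat_lit 4) (nat_lit 69) (nat_lit 70) = true := by decide +kernel
def p14_8_0_70 : pfC (piC [(nat_lit 43428061), (nat_lit 27333682), (nat_lit 20249535), (nat_lit 13586793)] (nat_lit 28134109)) p14_8_0 (nat_lit 4) (nat_lit 70) (nat_lit 71) = true := by decide +kernel
def p14_8_0_71 : pfC (piC [(nat_lit 43428061), (nat_lit 27333682), (nat_lit 20249535), (nat_lit 13586793)] (nat_lit 28134109)) p14_8_0 (nat_lit 4) (nat_lit 71) (nat_lit 72) = true := by decide +kernel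
def p14_8_0_72 : pfC (piC [(nat_lit 43428061), (nat_lit 27333682), (nat_lit 20249535), (nat_lit 13586793)] (nat_lit 28134109)) p14_8_0 (nat_lit 4) (nat_lit 72) (nat_lit 73) = true := by decide +kernel
def p14_8_0_73 : pfC (piC [(nat_lit 43428061), (nat_lit 27333682), (nat_lit 20249535), (nat_lit 13586793)] (nat_lit 28134109)) p14_8_0 (nat_lit 4) (nat_lit 73) (nat_lit 74) = true := by decide +kernel
def p14_8_0_74 : pfC (piC [(nat_lit 43428061), (nat_lit 27333682), (nat_lit 20249535), (nat_lit 13586793)] (nat_lit 28134109)) p14_8_0 (nat_lit 4) (nat_lit 74) (nat_lit 75) = true := by decide +kernel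
def p14_8_0_75 : pfC (piC [(nat_lit 43428061), (nat_lit 27333682), (nat_lit 20249535), (nat_lit 13586793)] (nat_lit 28134109)) p14_8_0 (nat_lit 4) (nat_lit 75) (nat_lit 76) = true := by decide +kernel
def p14_8_0_76 : pfC (piC [(nat_lit 43428061), (nat_lit 27333682), (nat_lit 20249535), (nat_lit 13586793)] (nat_lit 28134109)) p14_8_0 (nat_lit 4) (nat_lit 76) (nat_lit 77) = true := by decide +kernel
def p14_8_0_77 : pfC (piC [(nat_lit 43428061), (nat_lit 27333682), (nat_lit 20249535), (nat_lit 13586793)] (nat_lit 28134109)) p14_8_0 (nat_lit 4) (nat_lit 77) (nat_lit 78) = true := by decide +kernel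
def p14_8_0_78 : pfC (piC [(nat_lit 43428061), (nat_lit 27333682), (nat_lit 20249535), (nat_lit 13586793)] (nat_lit 28134109)) p14_8_0 (nat_lit 4) (nat_lit 78) (nat_lit 79) = true := by decide +kernel
def p14_8_0_79 : pfC (piC [(nat_lit 43428061), (nat_lit 27333682), (nat_lit 20249535), (nat_lit 13586793)] (nat_lit 28134109)) p14_8_0 (nat_lit 4) (nat_lit 79) (nat_lit 80) = true := by decide +kernel
def p14_8_0_80 : pfC (piC [(nat_lit 43428061), (nat_lit 27333682), (nat_lit 20249535), (nat_lit 13586793)] (nat_lit 28134109)) p14_8_0 (nat_lit 4) (nat_lit 80) (nat_lit 81) = true := by decide +kernel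
def p14_8_0_81 : pfC (piC [(nat_lit 43428061), (nat_lit 27333682), (nat_lit 20249535), (nat_lit 13586793)] (nat_lit 28134109)) p14_8_0 (nat_lit 4) (nat_lit 81) (nat_lit 82) = true := by decide +kernel
def p14_8_0_82 : pfC (piC [(nat_lit 43428061), (nat_lit 27333682), (nat_lit 20249535), (nat_lit 13586793)] (nat_lit 28134109)) p14_8_0 (nat_lit 4) (nat_lit 82) (nat_lit 83) = true := by decide +kernel
def p14_8_0_83 : pfC (piC [(nat_lit 43428061), (nat_lit 27333682), (nat_lit 20249535), (nat_lit 13586793)] (nat_lit 28134109)) p14_8_0 (nat_lit 4) (nat_lit 83) (nat_lit 84) = true := by decide +kernel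
def p14_8_0_84 : pfC (piC [(nat_lit 43428061), (nat_lit 27333682), (nat_lit 20249535), (nat_lit 13586793)] (nat_lit 28134109)) p14_8_0 (nat_lit 4) (nat_lit 84) (nat_lit 85) = true := by decide +kernel
def p14_8_0_85 : pfC (piC [(nat_lit 43428061), (nat_lit 27333682), (nat_lit 20249535), (nat_lit 13586793)] (nat_lit 28134109)) p14_8_0 (nat_lit 4) (nat_lit 85) (nat_lit 86) = true := by decide +kernel
def p14_8_0_86 : pfC (piC [(nat_lit 43428061), (nat_lit 27333682), (nat_lit 20249535), (nat_lit 13586793)] (nat_lit 28134109)) p14_8_0 (nat_lit 4) (nat_lit 86) (nat_lit 87) = true := by decide +kernel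
def p14_8_0_87 : pfC (piC [(nat_lit 43428061), (nat_lit 27333682), (nat_lit 20249535), (nat_lit 13586793)] (nat_lit 28134109)) p14_8_0 (nat_lit 4) (nat_lit 87) (nat_lit 88) = true := by decide +kernel
def p14_8_0_88 : pfC (piC [(nat_lit 43428061), (nat_lit 27333682), (nat_lit 20249535), (nat_lit 13586793)] (nat_lit 28134109)) p14_8_0 (nat_lit 4) (nat_lit 88) (nat_lit 89) = true := by decide +kernel
def p14_8_0_89 : pfC (piC [(nat_lit 43428061), (nat_lit 27333682), (nat_lit 20249535), (nat_lit 13586793)] (nat_lit 28134109)) p14_8_0 (nat_lit 4) (nat_lit 89) (nat_lit 90) = true := by decide +kernel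
def p14_8_0_90 : pfC (piC [(nat_lit 43428061), (nat_lit 27333682), (nat_lit 20249535), (nat_lit 13586793)] (nat_lit 28134109)) p14_8_0 (nat_lit 4) (nat_lit 90) (nat_lit 91) = true := by decide +kernel
def p14_8_0_91 : pfC (piC [(nat_lit 43428061), (nat_lit 27333682), (nat_lit 20249535), (nat_lit 13586793)] (nat_lit 28134109)) p14_8_0 (nat_lit 4) (nat_lit 91) (nat_lit 92) = true := by decide +kernel
def p14_8_0_92 : pfC (piC [(nat_lit 43428061), (nat_lit 27333682), (nat_lit 20249535), (nat_lit 13586793)] (nat_lit 28134109)) p14_8_0 (nat_lit 4) (nat_lit 92) (nat_lit 93) = true := by decide +kernel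
def p14_8_0_93 : pfC (piC [(nat_lit 43428061), (nat_lit 27333682), (nat_lit 20249535), (nat_lit 13586793)] (nat_lit 28134109)) p14_8_0 (nat_lit 4) (nat_lit 93) (nat_lit 94) = true := by decide +kernel
def p14_8_0_94 : pfC (piC [(nat_lit 43428061), (nat_lit 27333682), (nat_lit 20249535), (nat_lit 13586793)] (nat_lit 28134109)) p14_8_0 (nat_lit 4) (nat_lit 94) (nat_lit 95) = true := by decide +kernel
def p14_8_0_95 : pfC (piC [(nat_lit 43428061), (nat_lit 27333682), (nat_lit 20249535), (nat_lit 13586793)] (nat_lit 28134109)) p14_8_0 (nat_lit 4) (nat_lit 95) (nat_lit 96) = true := by decide +kernel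
def p14_8_0_96 : pfC (piC [(nat_lit 43428061), (nat_lit 27333682), (nat_lit 20249535), (nat_lit 13586793)] (nat_lit 28134109)) p14_8_0 (nat_lit 4) (nat_lit 96) (nat_lit 97) = true := by decide +kernel
def p14_8_0_97 : pfC (piC [(nat_lit 43428061), (nat_lit 27333682), (nat_lit 20249535), (nat_lit 13586793)] (nat_lit 28134109)) p14_8_0 (nat_lit 4) (nat_lit 97) (nat_lit 98) = true := by decide +kernel
def p14_8_0_98 : pfC (piC [(nat_lit 43428061), (nat_lit 27333682), (nat_lit 20249535), (nat_lit 13586793)] (nat_lit 28134109)) p14_8_0 (nat_lit 4) (nat_lit 98) (nat_lit 99) = true := by decide +kernel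
def p14_8_0_99 : pfC (piC [(nat_lit 43428061), (nat_lit 27333682), (nat_lit 20249535), (nat_lit 13586793)] (nat_lit 28134109)) p14_8_0 (nat_lit 4) (nat_lit 99) (nat_lit 100) = true := by decide +kernel
def p14_8_0_100 : pfC (piC [(nat_lit 43428061), (nat_lit 27333682), (nat_lit 20249535), (nat_lit 13586793)] (nat_lit 28134109)) p14_8_0 (nat_lit 4) (nat_lit 100) (nat_lit 101) = true := by decide +kernel
def p14_8_0_101 : pfC (piC [(nat_lit 43428061), (nat_lit 27333682), (nat_lit 20249535), (nat_lit 13586793)] (nat_lit 28134109)) p14_8_0 (nat_lit 4) (nat_lit 101) (nat_lit 102) = true := by decide +kernel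
def p14_8_0_102 : pfC (piC [(nat_lit 43428061), (nat_lit 27333682), (nat_lit 20249535), (nat_lit 13586793)] (nat_lit 28134109)) p14_8_0 (nat_lit 4) (nat_lit 102) (nat_lit 103) = true := by decide +kernel
def p14_8_0_103 : pfC (piC [(nat_lit 43428061), (nat_lit 27333682), (nat_lit 20249535), (nat_lit 13586793)] (nat_lit 28134109)) p14_8_0 (nat_lit 4) (nat_lit 103) (nat_lit 104) = true := by decide +kernel
def p14_8_0_104 : pfC (piC [(nat_lit 43428061), (nat_lit 27333682), (nat_lit 20249535), (nat_lit 13586793)] (nat_lit 28134109)) p14_8_0 (nat_lit 4) (nat_lit 104) (nat_lit 105) = true := by decide +kernel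
def p14_8_0_105 : pfC (piC [(nat_lit 43428061), (nat_lit 27333682), (nat_lit 20249535), (nat_lit 13586793)] (nat_lit 28134109)) p14_8_0 (nat_lit 4) (nat_lit 105) (nat_lit 106) = true := by decide +kernel
def p14_8_0_106 : pfC (piC [(nat_lit 43428061), (nat_lit 27333682), (nat_lit 20249535), (nat_lit 13586793)] (nat_lit 28134109)) p14_8_0 (nat_lit 4) (nat_lit 106) (nat_lit 107) = true := by decide +kernel
def p14_8_0_107 : pfC (piC [(nat_lit 43428061), (nat_lit 27333682), (nat_lit 20249535), (nat_lit 13586793)] (nat_lit 28134109)) p14_8_0 (nat_lit 4) (nat_lit 107) (nat_lit 108) = true := by decide +kernel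
def p14_8_0_108 : pfC (piC [(nat_lit 43428061), (nat_lit 27333682), (nat_lit 20249535), (nat_lit 13586793)] (nat_lit 28134109)) p14_8_0 (nat_lit 4) (nat_lit 108) (nat_lit 109) = true := by decide +kernel
theorem p14_8_0_T : PfS (PiF n14_8.reverse (nat_lit 28134109)) p14_8_0 (nat_lit 4) [] 0 :=
  pftab_of (los := [(nat_lit 43428061), (nat_lit 27333682), (nat_lit 20249535), (nat_lit 13586793)]) (by decide +kernel) (hi := (nat_lit 109)) (PfP.trans (PfP.trans (PfP.trans (PfP.trans (PfP.trans (PfP.trans (PfP.trans (PfP.trans (PfP.trans (PfP.trans (PfP.trans (PfP.trans (PfP.trans (PfP.trans (PfP.trans (PfP.trans (PfP.trans (PfP.trans (PfP.trans (PfP.trans (PfP.trans (PfP.trans (PfP.trans (PfP.trans (PfP.trans (PfP.trans (PfP.trans (PfP.trans (PfP.trans (PfP.trans (PfP.trans (PfP.trans (PfP.trans (PfP.trans (PfP.trans (PfP.trans (PfP.trans (PfP.trans (PfP.trans (PfP.trans (PfP.trans (PfP.trans (PfP.trans (PfP.trans (PfP.trans (PfP.trans (PfP.trans (PfP.trans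 (PfP.trans (PfP.trans (PfP.trans (PfP.trans (PfP.trans (PfP.trans (PfP.trans (PfP.trans (PfP.trans (PfP.trans (PfP.trans (PfP.trans (PfP.trans (PfP.trans (PfP.trans (PfP.trans (PfP.trans (PfP.trans (PfP.trans (PfP.trans (PfP.trans (PfP.trans (PfP.trans (PfP.trans (PfP.trans (PfP.trans (PfP.trans (PfP.trans (PfP.trans (PfP.trans (PfP.trans (PfP.trans (PfP.trans (PfP.trans (PfP.trans (PfP.trans (PfP.trans (PfP.trans (PfP.trans (PfP.trans (PfP.trans (PfP.trans (PfP.trans (PfP.trans (PfP.trans (PfP.trans (PfP.trans (PfP.trans (PfP.trans (PfP.trans (PfP.trans (PfP.trans (PfP.trans (PfP.trans (PfP.trans (PfP.trans (PfP.trans (PfP.trans (PfP.trans (PfP.trans (pfC_sound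
 p14_8_0_0) (pfC_sound p14_8_0_1)) (pfC_sound p14_8_0_2)) (pfC_sound p14_8_0_3)) (pfC_sound p14_8_0_4)) (pfC_sound p14_8_0_5)) (pfC_sound p14_8_0_6)) (pfC_sound p14_8_0_7)) (pfC_sound p14_8_0_8)) (pfC_sound p14_8_0_9)) (pfC_sound p14_8_0_10)) (pfC_sound p14_8_0_11)) (pfC_sound p14_8_0_12)) (pfC_sound p14_8_0_13)) (pfC_sound p14_8_0_14)) (pfC_sound p14_8_0_15)) (pfC_sound p14_8_0_16)) (pfC_sound p14_8_0_17)) (pfC_sound p14_8_0_18)) (pfC_sound p14_8_0_19)) (pfC_sound p14_8_0_20)) (pfC_sound p14_8_0_21)) (pfC_sound p14_8_0_22)) (pfC_sound p14_8_0_23)) (pfC_sound p14_8_0_24)) (pfC_sound p14_8_0_25)) (pfC_sound p14_8_0_26)) (pfC_sound p14_8_0_27)) (pfC_sound p14_8_0_28)) (pfC_sound p14_8_0_29)) (pfC_sound p14_8_0_30)) (pfC_sound p14_8_0_31)) (pfC_sound p14_8_0_32)) (pfC_sound p14_8_0_33)) (pfC_sound p14_8_0_34)) (pfC_sound p14_8_0_35)) (pfC_sound p14_8_0_36)) (pfC_sound p14_8_0_37)) (pfC_sound p14_8_0_38)) (pfC_sound p14_8_0_39)) (pfC_sound p14_8_0_40))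 (pfC_sound p14_8_0_41)) (pfC_sound p14_8_0_42)) (pfC_sound p14_8_0_43)) (pfC_sound p14_8_0_44)) (pfC_sound p14_8_0_45)) (pfC_sound p14_8_0_46)) (pfC_sound p14_8_0_47)) (pfC_sound p14_8_0_48)) (pfC_sound p14_8_0_49)) (pfC_sound
 p14_8_0_50)) (pfC_sound p14_8_0_51)) (pfC_sound p14_8_0_52)) (pfC_sound p14_8_0_53)) (pfC_sound p14_8_0_54)) (pfC_sound p14_8_0_55)) (pfC_sound p14_8_0_56)) (pfC_sound p14_8_0_57)) (pfC_sound p14_8_0_58)) (pfC_sound p14_8_0_59)) (pfC_sound p14_8_0_60)) (pfC_sound p14_8_0_61)) (pfC_sound p14_8_0_62)) (pfC_sound p14_8_0_63)) (pfC_sound p14_8_0_64)) (pfC_sound p14_8_0_65)) (pfC_sound p14_8_0_66)) (pfC_sound p14_8_0_67)) (pfC_sound p14_8_0_68)) (pfC_sound p14_8_0_69)) (pfC_sound p14_8_0_70)) (pfC_sound p14_8_0_71)) (pfC_sound p14_8_0_72)) (pfC_sound p14_8_0_73)) (pfC_sound p14_8_0_74)) (pfC_sound p14_8_0_75)) (pfC_sound p14_8_0_76)) (pfC_sound p14_8_0_77)) (pfC_sound p14_8_0_78)) (pfC_sound p14_8_0_79)) (pfC_sound p14_8_0_80)) (pfC_sound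 p14_8_0_81)) (pfC_sound p14_8_0_82)) (pfC_sound p14_8_0_83)) (pfC_sound p14_8_0_84)) (pfC_sound p14_8_0_85)) (pfC_sound p14_8_0_86)) (pfC_sound p14_8_0_87)) (pfC_sound p14_8_0_88)) (pfC_sound p14_8_0_89)) (pfC_sound p14_8_0_90)) (pfC_sound p14_8_0_91)) (pfC_sound p14_8_0_92)) (pfC_sound p14_8_0_93)) (pfC_sound p14_8_0_94)) (pfC_sound p14_8_0_95)) (pfC_sound p14_8_0_96)) (pfC_sound p14_8_0_97)) (pfC_sound p14_8_0_98)) (pfC_sound p14_8_0_99)) (pfC_sound
 p14_8_0_100)) (pfC_sound p14_8_0_101)) (pfC_sound p14_8_0_102)) (pfC_sound p14_8_0_103)) (pfC_sound p14_8_0_104)) (pfC_sound p14_8_0_105)) (pfC_sound p14_8_0_106)) (pfC_sound p14_8_0_107)) (pfC_sound p14_8_0_108)) (by decide +kernel)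

def z14_8_0 : zOK yB14_8 (nat_lit 0) (nat_lit 0) (nat_lit 400) (nat_lit 28134109) (nat_lit 10300196) = true := by decide +kernel
def g14_8_0 : gOK yB14_8.x P14_8 (nat_lit 1432) (q14_8 :: r14_8) (nat_lit 0) (nat_lit 0) (nat_lit 1) (nat_lit 400) (nat_lit 0) (nat_lit 11000000) (nat_lit 12712500) (nat_lit 12712500) [(nat_lit 800), (nat_lit 1400), (nat_lit 1530)] = true := by decide +kernel
def v14_8_0 : ivC P14_8 s14_8 w14_8 n14_8 (nat_lit 4) (nat_lit 5500) (nat_lit 0) (nat_lit 0) f136_1_0 f144_1_0 (nat_lit 1) (nat_lit 400) f136_1_400 f144_1_400 (nat_lit 28134109) (nat_lit 10300196) p14_8_0 = true := by decide +kernel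
def p14_8_1 : PF := (PF.cons (PF.cons (PF.cons (PF.cons (PF.leaf (nat_lit 2143789) (nat_lit 10302217) (nat_lit 56806595) (nat_lit 10302217) [(nat_lit 0), (nat_lit 0), (nat_lit 0), (nat_lit 0)]) (PF.cons (PF.leaf (nat_lit 2253028) (nat_lit 176560) (nat_lit 56616898) (nat_lit 10315353) [(nat_lit 176560), (nat_lit 0), (nat_lit 0), (nat_lit 0)]) (PF.cons (PF.leaf (nat_lit 2385799) (nat_lit 192355) (nat_lit 56394145) (nat_lit 10329956) [(nat_lit 192355), (nat_lit 0), (nat_lit 0), (nat_lit 0)]) (PF.cons (PF.leaf (nat_lit 2535305) (nat_lit 206517) (nat_lit 56143922) (nat_lit 10345336) [(nat_lit 206517), (nat_lit 0), (nat_lit 0), (nat_lit 0)]) (PF.cons (PF.leaf (nat_lit 2699288) (nat_lit 219432) (nat_lit 55870120) (nat_lit 10360963) [(nat_lit 219432), (nat_lit 0), (nat_lit 0), (nat_lit 0)]) (PF.cons (PF.leaf (nat_lit 2876454) (nat_lit 231341) (nat_lit 55575696) (nat_lit 10376407) [(nat_lit 231341), (nat_lit 0), (nat_lit 0), (nat_lit 0)]) (PF.cons PF.nil PF.nil)))))))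 (PF.cons (PF.cons (PF.leaf (nat_lit 2610407) (nat_lit 1011995) (nat_lit 55732860) (nat_lit 10363956) [(nat_lit 0), (nat_lit 1011995), (nat_lit 0), (nat_lit 0)]) (PF.cons (PF.leaf (nat_lit 2757463) (nat_lit 218267) (nat_lit 55478751) (nat_lit
 10376756) [(nat_lit 218267), (nat_lit 1035037), (nat_lit 0), (nat_lit 0)]) (PF.cons (PF.leaf (nat_lit 2922298) (nat_lit 230627) (nat_lit 55199754) (nat_lit 10389656) [(nat_lit 230627), (nat_lit 1058146), (nat_lit 0), (nat_lit 0)]) (PF.cons (PF.leaf (nat_lit 3100461) (nat_lit 241972) (nat_lit 54899751) (nat_lit 10402215) [(nat_lit 241972), (nat_lit 1080929), (nat_lit 0), (nat_lit 0)]) (PF.cons PF.nil PF.nil))))) (PF.cons (PF.cons (PF.leaf (nat_lit 3151386) (nat_lit 1094687) (nat_lit 54507235) (nat_lit 10412201) [(nat_lit 0), (nat_lit 1094687), (nat_lit 0), (nat_lit 0)]) (PF.cons (PF.leaf (nat_lit 3327496) (nat_lit 251268) (nat_lit 54205807) (nat_lit 10421763) [(nat_lit 251268), (nat_lit 1114987), (nat_lit 0), (nat_lit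 0)]) (PF.cons (PF.leaf (nat_lit 3517585) (nat_lit 261400) (nat_lit 53885503) (nat_lit 10430548) [(nat_lit 261400), (nat_lit 1134980), (nat_lit 0), (nat_lit 0)]) (PF.cons PF.nil PF.nil)))) (PF.cons (PF.cons (PF.leaf (nat_lit 3748262) (nat_lit 1163900) (nat_lit 53176430) (nat_lit 10440679) [(nat_lit 0), (nat_lit 1163900), (nat_lit 0), (nat_lit 0)]) (PF.cons PF.nil PF.nil)) (PF.cons PF.nil (PF.cons PF.nil PF.nil)))))) (PF.cons (PF.cons (PF.cons (PF.leaf (nat_lit 3162910)
 (nat_lit 2869083) (nat_lit 53833030) (nat_lit 10406699) [(nat_lit 0), (nat_lit 0), (nat_lit 2869083), (nat_lit 0)]) (PF.cons (PF.leaf (nat_lit 3319766) (nat_lit 238215) (nat_lit 53566292) (nat_lit 10413099) [(nat_lit 238215), (nat_lit 0), (nat_lit 2891204), (nat_lit 0)]) (PF.cons (PF.leaf (nat_lit 3493554) (nat_lit 250095) (nat_lit 53275602) (nat_lit 10418998) [(nat_lit 250095), (nat_lit 0), (nat_lit 2914020), (nat_lit 0)]) (PF.cons (PF.leaf (nat_lit 3680199) (nat_lit 260835) (nat_lit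 52965192) (nat_lit 10424087) [(nat_lit 260835), (nat_lit 0), (nat_lit 2937025), (nat_lit 0)]) (PF.cons PF.nil PF.nil))))) (PF.cons (PF.cons (PF.leaf (nat_lit 3723052) (nat_lit 1155471) (nat_lit 52573104) (nat_lit 10424461) [(nat_lit 0), (nat_lit 1155471), (nat_lit 2955774), (nat_lit 0)]) (PF.cons (PF.leaf (nat_lit 3906509) (nat_lit 268344) (nat_lit 52264597) (nat_lit 10426804) [(nat_lit 268344), (nat_lit 1172892), (nat_lit 2976174), (nat_lit 0)]) (PF.cons (PF.leaf (nat_lit 4103156) (nat_lit 277884) (nat_lit 51938521) (nat_lit 10428033) [(nat_lit 277884), (nat_lit 1189962), (nat_lit 2996525), (nat_lit 0)]) (PF.cons PF.nil PF.nil)))) (PF.cons (PF.cons (PF.leaf (nat_lit 4331058) (nat_lit 1213155)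
 (nat_lit 51230958) (nat_lit 10422179) [(nat_lit 0), (nat_lit 1213155), (nat_lit 3029363), (nat_lit 0)]) (PF.cons PF.nil PF.nil)) (PF.cons PF.nil (PF.cons PF.nil PF.nil))))) (PF.cons (PF.cons (PF.cons (PF.leaf (nat_lit 4289293) (nat_lit 3026643) (nat_lit 50660228) (nat_lit 10395297) [(nat_lit 0), (nat_lit 0), (nat_lit 3026643), (nat_lit 0)]) (PF.cons (PF.leaf (nat_lit 4477989) (nat_lit 282310) (nat_lit 50349770) (nat_lit 10391179) [(nat_lit 282310), (nat_lit 0), (nat_lit 3042776), (nat_lit 0)]) (PF.cons PF.nil (PF.cons PF.nil PF.nil)))) (PF.cons (PF.cons (PF.leaf (nat_lit 4902748) (nat_lit 1251032) (nat_lit 49325843) (nat_lit 10366286) [(nat_lit 0), (nat_lit 1251032), (nat_lit 3082825), (nat_lit 0)]) (PF.cons PF.nil PF.nil)) (PF.cons PF.nil PF.nil))) (PF.cons (PF.cons (PF.cons (PF.leaf (nat_lit 5460607) (nat_lit 3117533) (nat_lit 47476429) (nat_lit 10279782) [(nat_lit 0), (nat_lit 0), (nat_lit 3117533), (nat_lit 0)]) (PF.cons PF.nil PF.nil)) (PF.cons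 PF.nil PF.nil)) (PF.cons PF.nil PF.nil))))) (PF.cons (PF.cons (PF.cons (PF.cons (PF.leaf (nat_lit 4083882) (nat_lit 7681742) (nat_lit 49185303) (nat_lit 10241767) [(nat_lit 0), (nat_lit 0), (nat_lit 0), (nat_lit 7681742)]) (PF.cons
 (PF.leaf (nat_lit 4242766) (nat_lit 251012) (nat_lit 48934722) (nat_lit 10237115) [(nat_lit 251012), (nat_lit 0), (nat_lit 0), (nat_lit 7685962)]) (PF.cons (PF.leaf (nat_lit 4417897) (nat_lit 262552) (nat_lit 48662692) (nat_lit 10231275) [(nat_lit 262552), (nat_lit 0), (nat_lit 0), (nat_lit 7689740)]) (PF.cons (PF.leaf (nat_lit 4605017) (nat_lit 272810) (nat_lit 48373334) (nat_lit 10224177) [(nat_lit 272810), (nat_lit 0), (nat_lit 0), (nat_lit 7692869)]) (PF.cons (PF.leaf (nat_lit 4802429) (nat_lit 282057) (nat_lit 48069622) (nat_lit 10215765) [(nat_lit 282057), (nat_lit 0), (nat_lit 0), (nat_lit 7695192)]) (PF.cons PF.nil (PF.cons PF.nil PF.nil))))))) (PF.cons (PF.cons (PF.leaf (nat_lit 4636391) (nat_lit 1193018) (nat_lit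 48014599) (nat_lit 10210265) [(nat_lit 0), (nat_lit 1193018), (nat_lit 0), (nat_lit 7690929)]) (PF.cons (PF.leaf (nat_lit 4819319) (nat_lit 278658) (nat_lit 47729174) (nat_lit 10201324) [(nat_lit 278658), (nat_lit 1207540), (nat_lit 0), (nat_lit 7692115)]) (PF.cons (PF.leaf (nat_lit 5014456) (nat_lit 287626) (nat_lit 47428502) (nat_lit 10191000) [(nat_lit 287626), (nat_lit 1221584), (nat_lit 0), (nat_lit 7692472)]) (PF.cons (PF.leaf (nat_lit 5218934) (nat_lit
 295743) (nat_lit 47115364) (nat_lit 10179276) [(nat_lit 295743), (nat_lit 1235047), (nat_lit 0), (nat_lit 7691894)]) (PF.cons PF.nil PF.nil))))) (PF.cons (PF.cons (PF.leaf (nat_lit 5228333) (nat_lit 1238494) (nat_lit 46783889) (nat_lit 10162043) [(nat_lit 0), (nat_lit 1238494), (nat_lit 0), (nat_lit 7685890)]) (PF.cons (PF.leaf (nat_lit 5428967) (nat_lit 300257) (nat_lit 46475396) (nat_lit 10148555) [(nat_lit 300257), (nat_lit 1250566), (nat_lit 0), (nat_lit 7683469)]) (PF.cons PF.nil (PF.cons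 PF.nil PF.nil)))) (PF.cons (PF.cons (PF.leaf (nat_lit 5847508) (nat_lit 1274806) (nat_lit 45520641) (nat_lit 10097428) [(nat_lit 0), (nat_lit 1274806), (nat_lit 0), (nat_lit 7666322)]) (PF.cons PF.nil PF.nil)) (PF.cons PF.nil PF.nil))))) (PF.cons (PF.cons (PF.cons (PF.leaf (nat_lit 5166838) (nat_lit 3042842) (nat_lit 46283515) (nat_lit 10121507) [(nat_lit 0), (nat_lit 0), (nat_lit 3042842), (nat_lit 7660946)]) (PF.cons (PF.leaf (nat_lit 5352924) (nat_lit 289030) (nat_lit 46000277) (nat_lit 10108109) [(nat_lit 289030), (nat_lit 0), (nat_lit 3053497), (nat_lit 7657897)]) (PF.cons (PF.leaf (nat_lit 5550652) (nat_lit 297448) (nat_lit 45702936) (nat_lit 10093219) [(nat_lit 297448), (nat_lit 0),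
 (nat_lit 3063862), (nat_lit 7653898)]) (PF.cons PF.nil PF.nil)))) (PF.cons (PF.cons (PF.leaf (nat_lit 5759241) (nat_lit 1262653) (nat_lit 45074956) (nat_lit 10055500) [(nat_lit 0), (nat_lit 1262653), (nat_lit 3076935), (nat_lit 7638767)]) (PF.cons (PF.leaf (nat_lit 5961384) (nat_lit 308470) (nat_lit 44772141) (nat_lit 10037754) [(nat_lit 308470), (nat_lit 1272838), (nat_lit 3085358), (nat_lit 7632249)]) PF.nil)) (PF.cons PF.nil PF.nil))) (PF.cons (PF.cons (PF.cons (PF.leaf (nat_lit 6275537) (nat_lit 3087852) (nat_lit 43429439) (nat_lit 9930424) [(nat_lit 0), (nat_lit 0), (nat_lit 3087852), (nat_lit 7573244)]) (PF.cons PF.nil PF.nil)) (PF.cons PF.nil PF.nil)) (PF.cons PF.nil (PF.cons PF.nil PF.nil))))) (PF.cons (PF.cons (PF.cons (PF.cons (PF.leaf (nat_lit 5955279) (nat_lit 7450664) (nat_lit 42433132) (nat_lit 9774350) [(nat_lit 0), (nat_lit 0), (nat_lit 0), (nat_lit 7450664)]) (PF.cons (PF.leaf (nat_lit 6137176) (nat_lit 291007) (nat_lit 42177915) (nat_lit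 9755572) [(nat_lit 291007), (nat_lit 0), (nat_lit 0), (nat_lit 7442158)]) (PF.cons (PF.leaf (nat_lit 6330027) (nat_lit 298910) (nat_lit 41910457) (nat_lit 9735268) [(nat_lit 298910), (nat_lit 0), (nat_lit 0), (nat_lit 7432633)])
 (PF.cons PF.nil PF.nil)))) (PF.cons (PF.cons (PF.leaf (nat_lit 6524723) (nat_lit 1256839) (nat_lit 41350237) (nat_lit 9687557) [(nat_lit 0), (nat_lit 1256839), (nat_lit 0), (nat_lit 7407089)]) (PF.cons (PF.leaf (nat_lit 6720945) (nat_lit 308410) (nat_lit 41079060) (nat_lit 9665035) [(nat_lit 308410), (nat_lit 1265129), (nat_lit 0), (nat_lit 7395588)]) PF.nil)) (PF.cons PF.nil PF.nil))) (PF.cons (PF.cons (PF.cons (PF.leaf (nat_lit 7003914) (nat_lit 3029316) (nat_lit 39895161) (nat_lit 9543294) [(nat_lit 0), (nat_lit 0), (nat_lit 3029316), (nat_lit 7320519)]) (PF.cons PF.nil PF.nil)) (PF.cons PF.nil PF.nil)) (PF.cons PF.nil PF.nil))) (PF.cons (PF.cons (PF.cons (PF.cons (PF.leaf (nat_lit 7660628) (nat_lit 7050708) (nat_lit 36809888)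 (nat_lit 9146800) [(nat_lit 0), (nat_lit 0), (nat_lit 0), (nat_lit 7050708)]) (PF.cons PF.nil PF.nil)) (PF.cons PF.nil PF.nil)) (PF.cons PF.nil PF.nil)) (PF.cons PF.nil (PF.cons PF.nil (PF.cons PF.nil (PF.cons PF.nil PF.nil))))))))

def p14_8_1_0 : pfC (piC [(nat_lit 43428061), (nat_lit 27333682), (nat_lit 20249535), (nat_lit 13586793)] (nat_lit 10300196)) p14_8_1 (nat_lit 4) (nat_lit 0) (nat_lit 1) = true := by decide +kernel
def p14_8_1_1 : pfC (piC [(nat_lit 43428061), (nat_lit 27333682), (nat_lit 20249535), (nat_lit 13586793)] (nat_lit 10300196)) p14_8_1 (nat_lit 4) (nat_lit 1) (nat_lit 2) = true := by decide +kernel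
def p14_8_1_2 : pfC (piC [(nat_lit 43428061), (nat_lit 27333682), (nat_lit 20249535), (nat_lit 13586793)] (nat_lit 10300196)) p14_8_1 (nat_lit 4) (nat_lit 2) (nat_lit 3) = true := by decide +kernel
def p14_8_1_3 : pfC (piC [(nat_lit 43428061), (nat_lit 27333682), (nat_lit 20249535), (nat_lit 13586793)] (nat_lit 10300196)) p14_8_1 (nat_lit 4) (nat_lit 3) (nat_lit 4) = true := by decide +kernel
def p14_8_1_4 : pfC (piC [(nat_lit 43428061), (nat_lit 27333682), (nat_lit 20249535), (nat_lit 13586793)] (nat_lit 10300196)) p14_8_1 (nat_lit 4) (nat_lit 4) (nat_lit 5) = true := by decide +kernel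
def p14_8_1_5 : pfC (piC [(nat_lit 43428061), (nat_lit 27333682), (nat_lit 20249535), (nat_lit 13586793)] (nat_lit 10300196)) p14_8_1 (nat_lit 4) (nat_lit 5) (nat_lit 6) = true := by decide +kernel
def p14_8_1_6 : pfC (piC [(nat_lit 43428061), (nat_lit 27333682), (nat_lit 20249535), (nat_lit 13586793)] (nat_lit 10300196)) p14_8_1 (nat_lit 4) (nat_lit 6) (nat_lit 7) = true := by decide +kernel
def p14_8_1_7 : pfC (piC [(nat_lit 43428061), (nat_lit 27333682), (nat_lit 20249535), (nat_lit 13586793)] (nat_lit 10300196)) p14_8_1 (nat_lit 4) (nat_lit 7) (nat_lit 8) = true := by decide +kernel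
def p14_8_1_8 : pfC (piC [(nat_lit 43428061), (nat_lit 27333682), (nat_lit 20249535), (nat_lit 13586793)] (nat_lit 10300196)) p14_8_1 (nat_lit 4) (nat_lit 8) (nat_lit 9) = true := by decide +kernel
def p14_8_1_9 : pfC (piC [(nat_lit 43428061), (nat_lit 27333682), (nat_lit 20249535), (nat_lit 13586793)] (nat_lit 10300196)) p14_8_1 (nat_lit 4) (nat_lit 9) (nat_lit 10) = true := by decide +kernel
def p14_8_1_10 : pfC (piC [(nat_lit 43428061), (nat_lit 27333682), (nat_lit 20249535), (nat_lit 13586793)] (nat_lit 10300196)) p14_8_1 (nat_lit 4) (nat_lit 10) (nat_lit 11) = true := by decide +kernel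
def p14_8_1_11 : pfC (piC [(nat_lit 43428061), (nat_lit 27333682), (nat_lit 20249535), (nat_lit 13586793)] (nat_lit 10300196)) p14_8_1 (nat_lit 4) (nat_lit 11) (nat_lit 12) = true := by decide +kernel
def p14_8_1_12 : pfC (piC [(nat_lit 43428061), (nat_lit 27333682), (nat_lit 20249535), (nat_lit 13586793)] (nat_lit 10300196)) p14_8_1 (nat_lit 4) (nat_lit 12) (nat_lit 13) = true := by decide +kernel
def p14_8_1_13 : pfC (piC [(nat_lit 43428061), (nat_lit 27333682), (nat_lit 20249535), (nat_lit 13586793)] (nat_lit 10300196)) p14_8_1 (nat_lit 4) (nat_lit 13) (nat_lit 14) = true := by decide +kernel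
def p14_8_1_14 : pfC (piC [(nat_lit 43428061), (nat_lit 27333682), (nat_lit 20249535), (nat_lit 13586793)] (nat_lit 10300196)) p14_8_1 (nat_lit 4) (nat_lit 14) (nat_lit 15) = true := by decide +kernel
def p14_8_1_15 : pfC (piC [(nat_lit 43428061), (nat_lit 27333682), (nat_lit 20249535), (nat_lit 13586793)] (nat_lit 10300196)) p14_8_1 (nat_lit 4) (nat_lit 15) (nat_lit 16) = true := by decide +kernel
def p14_8_1_16 : pfC (piC [(nat_lit 43428061), (nat_lit 27333682), (nat_lit 20249535), (nat_lit 13586793)] (nat_lit 10300196)) p14_8_1 (nat_lit 4) (nat_lit 16) (nat_lit 17) = true := by decide +kernel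
def p14_8_1_17 : pfC (piC [(nat_lit 43428061), (nat_lit 27333682), (nat_lit 20249535), (nat_lit 13586793)] (nat_lit 10300196)) p14_8_1 (nat_lit 4) (nat_lit 17) (nat_lit 18) = true := by decide +kernel
def p14_8_1_18 : pfC (piC [(nat_lit 43428061), (nat_lit 27333682), (nat_lit 20249535), (nat_lit 13586793)] (nat_lit 10300196)) p14_8_1 (nat_lit 4) (nat_lit 18) (nat_lit 19) = true := by decide +kernel
def p14_8_1_19 : pfC (piC [(nat_lit 43428061), (nat_lit 27333682), (nat_lit 20249535), (nat_lit 13586793)] (nat_lit 10300196)) p14_8_1 (nat_lit 4) (nat_lit 19) (nat_lit 20) = true := by decide +kernel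
def p14_8_1_20 : pfC (piC [(nat_lit 43428061), (nat_lit 27333682), (nat_lit 20249535), (nat_lit 13586793)] (nat_lit 10300196)) p14_8_1 (nat_lit 4) (nat_lit 20) (nat_lit 21) = true := by decide +kernel
def p14_8_1_21 : pfC (piC [(nat_lit 43428061), (nat_lit 27333682), (nat_lit 20249535), (nat_lit 13586793)] (nat_lit 10300196)) p14_8_1 (nat_lit 4) (nat_lit 21) (nat_lit 22) = true := by decide +kernel
def p14_8_1_22 : pfC (piC [(nat_lit 43428061), (nat_lit 27333682), (nat_lit 20249535), (nat_lit 13586793)] (nat_lit 10300196)) p14_8_1 (nat_lit 4) (nat_lit 22) (nat_lit 23) = true := by decide +kernel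
def p14_8_1_23 : pfC (piC [(nat_lit 43428061), (nat_lit 27333682), (nat_lit 20249535), (nat_lit 13586793)] (nat_lit 10300196)) p14_8_1 (nat_lit 4) (nat_lit 23) (nat_lit 24) = true := by decide +kernel
def p14_8_1_24 : pfC (piC [(nat_lit 43428061), (nat_lit 27333682), (nat_lit 20249535), (nat_lit 13586793)] (nat_lit 10300196)) p14_8_1 (nat_lit 4) (nat_lit 24) (nat_lit 25) = true := by decide +kernel
def p14_8_1_25 : pfC (piC [(nat_lit 43428061), (nat_lit 27333682), (nat_lit 20249535), (nat_lit 13586793)] (nat_lit 10300196)) p14_8_1 (nat_lit 4) (nat_lit 25) (nat_lit 26) = true := by decide +kernel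
def p14_8_1_26 : pfC (piC [(nat_lit 43428061), (nat_lit 27333682), (nat_lit 20249535), (nat_lit 13586793)] (nat_lit 10300196)) p14_8_1 (nat_lit 4) (nat_lit 26) (nat_lit 27) = true := by decide +kernel
def p14_8_1_27 : pfC (piC [(nat_lit 43428061), (nat_lit 27333682), (nat_lit 20249535), (nat_lit 13586793)] (nat_lit 10300196)) p14_8_1 (nat_lit 4) (nat_lit 27) (nat_lit 28) = true := by decide +kernel
def p14_8_1_28 : pfC (piC [(nat_lit 43428061), (nat_lit 27333682), (nat_lit 20249535), (nat_lit 13586793)] (nat_lit 10300196)) p14_8_1 (nat_lit 4) (nat_lit 28) (nat_lit 29) = true := by decide +kernel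
def p14_8_1_29 : pfC (piC [(nat_lit 43428061), (nat_lit 27333682), (nat_lit 20249535), (nat_lit 13586793)] (nat_lit 10300196)) p14_8_1 (nat_lit 4) (nat_lit 29) (nat_lit 30) = true := by decide +kernel
def p14_8_1_30 : pfC (piC [(nat_lit 43428061), (nat_lit 27333682), (nat_lit 20249535), (nat_lit 13586793)] (nat_lit 10300196)) p14_8_1 (nat_lit 4) (nat_lit 30) (nat_lit 31) = true := by decide +kernel
def p14_8_1_31 : pfC (piC [(nat_lit 43428061), (nat_lit 27333682), (nat_lit 20249535), (nat_lit 13586793)] (nat_lit 10300196)) p14_8_1 (nat_lit 4) (nat_lit 31) (nat_lit 32) = true := by decide +kernel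
def p14_8_1_32 : pfC (piC [(nat_lit 43428061), (nat_lit 27333682), (nat_lit 20249535), (nat_lit 13586793)] (nat_lit 10300196)) p14_8_1 (nat_lit 4) (nat_lit 32) (nat_lit 33) = true := by decide +kernel
def p14_8_1_33 : pfC (piC [(nat_lit 43428061), (nat_lit 27333682), (nat_lit 20249535), (nat_lit 13586793)] (nat_lit 10300196)) p14_8_1 (nat_lit 4) (nat_lit 33) (nat_lit 34) = true := by decide +kernel
def p14_8_1_34 : pfC (piC [(nat_lit 43428061), (nat_lit 27333682), (nat_lit 20249535), (nat_lit 13586793)] (nat_lit 10300196)) p14_8_1 (nat_lit 4) (nat_lit 34) (nat_lit 35) = true := by decide +kernel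
def p14_8_1_35 : pfC (piC [(nat_lit 43428061), (nat_lit 27333682), (nat_lit 20249535), (nat_lit 13586793)] (nat_lit 10300196)) p14_8_1 (nat_lit 4) (nat_lit 35) (nat_lit 36) = true := by decide +kernel
def p14_8_1_36 : pfC (piC [(nat_lit 43428061), (nat_lit 27333682), (nat_lit 20249535), (nat_lit 13586793)] (nat_lit 10300196)) p14_8_1 (nat_lit 4) (nat_lit 36) (nat_lit 37) = true := by decide +kernel
def p14_8_1_37 : pfC (piC [(nat_lit 43428061), (nat_lit 27333682), (nat_lit 20249535), (nat_lit 13586793)] (nat_lit 10300196)) p14_8_1 (nat_lit 4) (nat_lit 37) (nat_lit 38) = true := by decide +kernel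
def p14_8_1_38 : pfC (piC [(nat_lit 43428061), (nat_lit 27333682), (nat_lit 20249535), (nat_lit 13586793)] (nat_lit 10300196)) p14_8_1 (nat_lit 4) (nat_lit 38) (nat_lit 39) = true := by decide +kernel
def p14_8_1_39 : pfC (piC [(nat_lit 43428061), (nat_lit 27333682), (nat_lit 20249535), (nat_lit 13586793)] (nat_lit 10300196)) p14_8_1 (nat_lit 4) (nat_lit 39) (nat_lit 40) = true := by decide +kernel
def p14_8_1_40 : pfC (piC [(nat_lit 43428061), (nat_lit 27333682), (nat_lit 20249535), (nat_lit 13586793)] (nat_lit 10300196)) p14_8_1 (nat_lit 4) (nat_lit 40) (nat_lit 41) = true := by decide +kernel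
def p14_8_1_41 : pfC (piC [(nat_lit 43428061), (nat_lit 27333682), (nat_lit 20249535), (nat_lit 13586793)] (nat_lit 10300196)) p14_8_1 (nat_lit 4) (nat_lit 41) (nat_lit 42) = true := by decide +kernel
def p14_8_1_42 : pfC (piC [(nat_lit 43428061), (nat_lit 27333682), (nat_lit 20249535), (nat_lit 13586793)] (nat_lit 10300196)) p14_8_1 (nat_lit 4) (nat_lit 42) (nat_lit 43) = true := by decide +kernel
def p14_8_1_43 : pfC (piC [(nat_lit 43428061), (nat_lit 27333682), (nat_lit 20249535), (nat_lit 13586793)] (nat_lit 10300196)) p14_8_1 (nat_lit 4) (nat_lit 43) (nat_lit 44) = true := by decide +kernel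
def p14_8_1_44 : pfC (piC [(nat_lit 43428061), (nat_lit 27333682), (nat_lit 20249535), (nat_lit 13586793)] (nat_lit 10300196)) p14_8_1 (nat_lit 4) (nat_lit 44) (nat_lit 45) = true := by decide +kernel
def p14_8_1_45 : pfC (piC [(nat_lit 43428061), (nat_lit 27333682), (nat_lit 20249535), (nat_lit 13586793)] (nat_lit 10300196)) p14_8_1 (nat_lit 4) (nat_lit 45) (nat_lit 46) = true := by decide +kernel
def p14_8_1_46 : pfC (piC [(nat_lit 43428061), (nat_lit 27333682), (nat_lit 20249535), (nat_lit 13586793)] (nat_lit 10300196)) p14_8_1 (nat_lit 4) (nat_lit 46) (nat_lit 47) = true := by decide +kernel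
def p14_8_1_47 : pfC (piC [(nat_lit 43428061), (nat_lit 27333682), (nat_lit 20249535), (nat_lit 13586793)] (nat_lit 10300196)) p14_8_1 (nat_lit 4) (nat_lit 47) (nat_lit 48) = true := by decide +kernel
def p14_8_1_48 : pfC (piC [(nat_lit 43428061), (nat_lit 27333682), (nat_lit 20249535), (nat_lit 13586793)] (nat_lit 10300196)) p14_8_1 (nat_lit 4) (nat_lit 48) (nat_lit 49) = true := by decide +kernel
def p14_8_1_49 : pfC (piC [(nat_lit 43428061), (nat_lit 27333682), (nat_lit 20249535), (nat_lit 13586793)] (nat_lit 10300196)) p14_8_1 (nat_lit 4) (nat_lit 49) (nat_lit 50) = true := by decide +kernel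
def p14_8_1_50 : pfC (piC [(nat_lit 43428061), (nat_lit 27333682), (nat_lit 20249535), (nat_lit 13586793)] (nat_lit 10300196)) p14_8_1 (nat_lit 4) (nat_lit 50) (nat_lit 51) = true := by decide +kernel
theorem p14_8_1_T : PfS (PiF n14_8.reverse (nat_lit 10300196)) p14_8_1 (nat_lit 4) [] 0 :=
  pftab_of (los := [(nat_lit 43428061), (nat_lit 27333682), (nat_lit 20249535), (nat_lit 13586793)]) (by decide +kernel) (hi := (nat_lit 51)) (PfP.trans (PfP.trans (PfP.trans (PfP.trans (PfP.trans (PfP.trans (PfP.trans (PfP.trans (PfP.trans (PfP.trans (PfP.trans (PfP.trans (PfP.trans (PfP.trans (PfP.trans (PfP.trans (PfP.trans (PfP.trans (PfP.trans (PfP.trans (PfP.trans (PfP.trans (PfP.trans (PfP.trans (PfP.trans (PfP.trans (PfP.trans (PfP.trans (PfP.trans (PfP.trans (PfP.trans (PfP.trans (PfP.trans (PfP.trans (PfP.trans (PfP.trans (PfP.trans (PfP.trans (PfP.trans (PfP.trans (PfP.trans (PfP.trans (PfP.trans (PfP.trans (PfP.trans (PfP.trans (PfP.trans (PfP.trans (PfP.trans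 (PfP.trans (pfC_sound p14_8_1_0) (pfC_sound p14_8_1_1)) (pfC_sound p14_8_1_2)) (pfC_sound p14_8_1_3)) (pfC_sound p14_8_1_4)) (pfC_sound p14_8_1_5)) (pfC_sound p14_8_1_6)) (pfC_sound p14_8_1_7)) (pfC_sound p14_8_1_8)) (pfC_sound p14_8_1_9)) (pfC_sound p14_8_1_10)) (pfC_sound p14_8_1_11)) (pfC_sound p14_8_1_12)) (pfC_sound p14_8_1_13)) (pfC_sound p14_8_1_14)) (pfC_sound p14_8_1_15)) (pfC_sound p14_8_1_16)) (pfC_sound p14_8_1_17)) (pfC_sound p14_8_1_18)) (pfC_sound p14_8_1_19)) (pfC_sound p14_8_1_20)) (pfC_sound p14_8_1_21)) (pfC_sound p14_8_1_22)) (pfC_sound p14_8_1_23)) (pfC_sound p14_8_1_24)) (pfC_sound p14_8_1_25)) (pfC_sound p14_8_1_26)) (pfC_sound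
 p14_8_1_27)) (pfC_sound p14_8_1_28)) (pfC_sound p14_8_1_29)) (pfC_sound p14_8_1_30)) (pfC_sound p14_8_1_31)) (pfC_sound p14_8_1_32)) (pfC_sound p14_8_1_33)) (pfC_sound p14_8_1_34)) (pfC_sound p14_8_1_35)) (pfC_sound p14_8_1_36)) (pfC_sound p14_8_1_37)) (pfC_sound p14_8_1_38)) (pfC_sound p14_8_1_39)) (pfC_sound p14_8_1_40)) (pfC_sound p14_8_1_41)) (pfC_sound p14_8_1_42)) (pfC_sound p14_8_1_43)) (pfC_sound p14_8_1_44)) (pfC_sound p14_8_1_45)) (pfC_sound p14_8_1_46)) (pfC_sound p14_8_1_47)) (pfC_sound p14_8_1_48)) (pfC_sound p14_8_1_49)) (pfC_sound p14_8_1_50)) (by decide +kernel)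

def z14_8_1 : zOK yB14_8 (nat_lit 1) (nat_lit 400) (nat_lit 600) (nat_lit 10300196) (nat_lit 6772740) = true := by decide +kernel
def g14_8_1 : gOK yB14_8.x P14_8 (nat_lit 1432) (q14_8 :: r14_8) (nat_lit 1) (nat_lit 400) (nat_lit 2) (nat_lit 600) (nat_lit 11000000) (nat_lit 17850000) (nat_lit 12712500) (nat_lit 12712500) [(nat_lit 800), (nat_lit 1040)] = true := by decide +kernel
def v14_8_1 : ivC P14_8 s14_8 w14_8 n14_8 (nat_lit 4) (nat_lit 5100) (nat_lit 1) (nat_lit 400) f136_1_400 f144_1_400 (nat_lit 2) (nat_lit 600) f136_1_600 f144_1_600 (nat_lit 10300196) (nat_lit 6772740) p14_8_1 = true := by decide +kernel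
def p14_8_2 : PF := (PF.cons (PF.cons (PF.cons (PF.cons (PF.leaf (nat_lit 2750933) (nat_lit 16054219) (nat_lit 51054593) (nat_lit 16054219) [(nat_lit 0), (nat_lit 0), (nat_lit 0), (nat_lit 0)]) (PF.cons (PF.leaf (nat_lit 2857743) (nat_lit 176958) (nat_lit 50889499) (nat_lit 16042355) [(nat_lit 176958), (nat_lit 0), (nat_lit 0), (nat_lit 0)]) (PF.cons (PF.leaf (nat_lit 2987412) (nat_lit 192516) (nat_lit 50695859) (nat_lit 16027921) [(nat_lit 192516), (nat_lit 0), (nat_lit 0), (nat_lit 0)]) (PF.cons (PF.leaf (nat_lit 3133122) (nat_lit 206374) (nat_lit 50478612) (nat_lit 16011075) [(nat_lit 206374), (nat_lit 0), (nat_lit 0), (nat_lit 0)]) (PF.cons (PF.leaf (nat_lit 3292598) (nat_lit 218927) (nat_lit 50241210) (nat_lit 15991894) [(nat_lit 218927), (nat_lit 0), (nat_lit 0), (nat_lit 0)]) (PF.cons (PF.leaf (nat_lit 3464508) (nat_lit 230424) (nat_lit 49986275) (nat_lit 15970413) [(nat_lit 230424), (nat_lit 0), (nat_lit 0), (nat_lit 0)]) (PF.cons (PF.leaf (nat_lit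 3647310) (nat_lit 241040) (nat_lit 49715920) (nat_lit 15946650) [(nat_lit 241040), (nat_lit 0), (nat_lit 0), (nat_lit 0)]) (PF.cons PF.nil (PF.cons PF.nil PF.nil))))))))) (PF.cons (PF.cons (PF.leaf (nat_lit 3201026) (nat_lit 1006051) (nat_lit
 50123468) (nat_lit 15979292) [(nat_lit 0), (nat_lit 1006051), (nat_lit 0), (nat_lit 0)]) (PF.cons (PF.leaf (nat_lit 3343676) (nat_lit 217270) (nat_lit 49903572) (nat_lit 15960406) [(nat_lit 217270), (nat_lit 1027563), (nat_lit 0), (nat_lit 0)]) (PF.cons (PF.leaf (nat_lit 3503211) (nat_lit 229232) (nat_lit 49662425) (nat_lit 15938934) [(nat_lit 229232), (nat_lit 1048988), (nat_lit 0), (nat_lit 0)]) (PF.cons (PF.leaf (nat_lit 3675584) (nat_lit 240136) (nat_lit 49403437) (nat_lit 15915001) [(nat_lit 240136), (nat_lit 1069965), (nat_lit 0), (nat_lit 0)]) (PF.cons (PF.leaf (nat_lit 3858973) (nat_lit 250178) (nat_lit 49129124) (nat_lit 15888681) [(nat_lit 250178), (nat_lit 1090295), (nat_lit 0), (nat_lit 0)]) (PF.cons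 PF.nil (PF.cons PF.nil PF.nil))))))) (PF.cons (PF.cons (PF.leaf (nat_lit 3719167) (nat_lit 1081503) (nat_lit 49066205) (nat_lit 15879600) [(nat_lit 0), (nat_lit 1081503), (nat_lit 0), (nat_lit 0)]) (PF.cons (PF.leaf (nat_lit 3888819) (nat_lit 248512) (nat_lit 48806686) (nat_lit 15853542) [(nat_lit 248512), (nat_lit 1100036), (nat_lit 0), (nat_lit 0)]) (PF.cons (PF.leaf (nat_lit 4071688) (nat_lit 258157) (nat_lit 48531213) (nat_lit 15824937) [(nat_lit 258157), (nat_lit
 1118173), (nat_lit 0), (nat_lit 0)]) (PF.cons (PF.leaf (nat_lit 4264722) (nat_lit 267058) (nat_lit 48242228) (nat_lit 15793899) [(nat_lit 267058), (nat_lit 1135754), (nat_lit 0), (nat_lit 0)]) (PF.cons PF.nil PF.nil))))) (PF.cons (PF.cons (PF.leaf (nat_lit 4287360) (nat_lit 1143263) (nat_lit 47923524) (nat_lit 15755498) [(nat_lit 0), (nat_lit 1143263), (nat_lit 0), (nat_lit 0)]) (PF.cons (PF.leaf (nat_lit 4477821) (nat_lit 273695) (nat_lit 47635579) (nat_lit 15722382) [(nat_lit 273695),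 (nat_lit 1159052), (nat_lit 0), (nat_lit 0)]) (PF.cons PF.nil (PF.cons PF.nil PF.nil)))) (PF.cons (PF.cons (PF.leaf (nat_lit 4892295) (nat_lit 1193858) (nat_lit 46725216) (nat_lit 15608164) [(nat_lit 0), (nat_lit 1193858), (nat_lit 0), (nat_lit 0)]) (PF.cons PF.nil PF.nil)) (PF.cons PF.nil PF.nil)))))) (PF.cons (PF.cons (PF.cons (PF.leaf (nat_lit 3718245) (nat_lit 2811779) (nat_lit 48492721) (nat_lit 15804311) [(nat_lit 0), (nat_lit 0), (nat_lit 2811779), (nat_lit 0)]) (PF.cons (PF.leaf (nat_lit 3869190) (nat_lit 235013) (nat_lit 48263475) (nat_lit 15779794) [(nat_lit 235013), (nat_lit 0), (nat_lit 2830529), (nat_lit 0)]) (PF.cons (PF.leaf (nat_lit 4036483) (nat_lit 246427) (nat_lit 48013860)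
 (nat_lit 15752349) [(nat_lit 246427), (nat_lit 0), (nat_lit 2849746), (nat_lit 0)]) (PF.cons (PF.leaf (nat_lit 4215778) (nat_lit 256682) (nat_lit 47747547) (nat_lit 15722220) [(nat_lit 256682), (nat_lit 0), (nat_lit 2868996), (nat_lit 0)]) (PF.cons (PF.leaf (nat_lit 4405520) (nat_lit 266016) (nat_lit 47467193) (nat_lit 15689570) [(nat_lit 266016), (nat_lit 0), (nat_lit 2887982), (nat_lit 0)]) (PF.cons PF.nil (PF.cons PF.nil PF.nil))))))) (PF.cons (PF.cons (PF.leaf (nat_lit 4251534) (nat_lit 1132657) (nat_lit 47412567) (nat_lit 15680226) [(nat_lit 0), (nat_lit 1132657), (nat_lit 2883361), (nat_lit 0)]) (PF.cons (PF.leaf (nat_lit 4427291) (nat_lit 263350) (nat_lit 47148374) (nat_lit 15648399) [(nat_lit 263350), (nat_lit 1148438), (nat_lit 2900249), (nat_lit 0)]) (PF.cons (PF.leaf (nat_lit 4615502) (nat_lit 272389) (nat_lit 46869343) (nat_lit 15613888) [(nat_lit 272389), (nat_lit 1163810), (nat_lit 2916990), (nat_lit 0)]) (PF.cons PF.nil (PF.cons PF.nil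 PF.nil))))) (PF.cons (PF.cons (PF.leaf (nat_lit 4827872) (nat_lit 1183695) (nat_lit 46265581) (nat_lit 15533230) [(nat_lit 0), (nat_lit 1183695), (nat_lit 2942611), (nat_lit 0)]) (PF.cons (PF.leaf (nat_lit 5022276) (nat_lit 285908)
 (nat_lit 45977256) (nat_lit 15494601) [(nat_lit 285908), (nat_lit 1197042), (nat_lit 2956959), (nat_lit 0)]) (PF.cons PF.nil (PF.cons PF.nil PF.nil)))) (PF.cons (PF.cons (PF.leaf (nat_lit 5434960) (nat_lit 1225200) (nat_lit 45078212) (nat_lit 15365325) [(nat_lit 0), (nat_lit 1225200), (nat_lit 2989672), (nat_lit 0)]) (PF.cons PF.nil PF.nil)) (PF.cons PF.nil PF.nil))))) (PF.cons (PF.cons (PF.cons (PF.leaf (nat_lit 4777508) (nat_lit 2935837) (nat_lit 45783712) (nat_lit 15453425) [(nat_lit 0), (nat_lit 0), (nat_lit 2935837), (nat_lit 0)]) (PF.cons (PF.leaf (nat_lit 4957544) (nat_lit 275371) (nat_lit 45518733) (nat_lit 15416683) [(nat_lit 275371), (nat_lit 0), (nat_lit 2949012), (nat_lit 0)]) (PF.cons (PF.leaf (nat_lit 5149468)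 (nat_lit 283861) (nat_lit 45239968) (nat_lit 15377189) [(nat_lit 283861), (nat_lit 0), (nat_lit 2961965), (nat_lit 0)]) (PF.cons PF.nil PF.nil)))) (PF.cons (PF.cons (PF.leaf (nat_lit 5357558) (nat_lit 1214293) (nat_lit 44646557) (nat_lit 15287512) [(nat_lit 0), (nat_lit 1214293), (nat_lit 2980224), (nat_lit 0)]) (PF.cons (PF.leaf (nat_lit 5554560) (nat_lit 295664) (nat_lit 44361022) (nat_lit 15244343) [(nat_lit 295664), (nat_lit 1225588), (nat_lit 2991096),
 (nat_lit 0)]) PF.nil)) (PF.cons PF.nil PF.nil))) (PF.cons (PF.cons (PF.cons (PF.leaf (nat_lit 5874646) (nat_lit 3002676) (nat_lit 43076837) (nat_lit 15023944) [(nat_lit 0), (nat_lit 0), (nat_lit 3002676), (nat_lit 0)]) (PF.cons PF.nil PF.nil)) (PF.cons PF.nil PF.nil)) (PF.cons PF.nil (PF.cons PF.nil PF.nil)))))) (PF.cons (PF.cons (PF.cons (PF.cons (PF.leaf (nat_lit 4556590) (nat_lit 7360412) (nat_lit 44558559) (nat_lit 15189841) [(nat_lit 0), (nat_lit 0), (nat_lit 0), (nat_lit 7360412)]) (PF.cons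 (PF.leaf (nat_lit 4708641) (nat_lit 244557) (nat_lit 44344349) (nat_lit 15158696) [(nat_lit 244557), (nat_lit 0), (nat_lit 0), (nat_lit 7361209)]) (PF.cons (PF.leaf (nat_lit 4876307) (nat_lit 255602) (nat_lit 44111879) (nat_lit 15124313) [(nat_lit 255602), (nat_lit 0), (nat_lit 0), (nat_lit 7361415)]) (PF.cons (PF.leaf (nat_lit 5055266) (nat_lit 265378) (nat_lit 43864677) (nat_lit 15087095) [(nat_lit 265378), (nat_lit 0), (nat_lit 0), (nat_lit 7360904)]) (PF.cons (PF.leaf (nat_lit 5243901) (nat_lit 274154) (nat_lit 43605287) (nat_lit 15047325) [(nat_lit 274154), (nat_lit 0), (nat_lit 0), (nat_lit 7359584)]) (PF.cons PF.nil (PF.cons PF.nil PF.nil))))))) (PF.cons (PF.cons (PF.leaf (nat_lit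
 5081343) (nat_lit 1157026) (nat_lit 43559189) (nat_lit 15037578) [(nat_lit 0), (nat_lit 1157026), (nat_lit 0), (nat_lit 7355018)]) (PF.cons (PF.leaf (nat_lit 5255945) (nat_lit 270616) (nat_lit 43315482) (nat_lit 14999421) [(nat_lit 270616), (nat_lit 1170311), (nat_lit 0), (nat_lit 7352980)]) (PF.cons (PF.leaf (nat_lit 5442194) (nat_lit 279122) (nat_lit 43058811) (nat_lit 14958548) [(nat_lit 279122), (nat_lit 1183099), (nat_lit 0), (nat_lit 7350109)]) (PF.cons (PF.leaf (nat_lit 5637210) (nat_lit 286789) (nat_lit 42791545) (nat_lit 14915247) [(nat_lit 286789), (nat_lit 1195304), (nat_lit 0), (nat_lit 7346348)]) (PF.cons PF.nil PF.nil))))) (PF.cons (PF.cons (PF.leaf (nat_lit 5642272) (nat_lit 1197798) (nat_lit 42509519) (nat_lit 14866169) [(nat_lit 0), (nat_lit 1197798), (nat_lit 0), (nat_lit 7337527)]) (PF.cons (PF.leaf (nat_lit 5833357) (nat_lit 290759) (nat_lit 42246280) (nat_lit 14822017) [(nat_lit 290759), (nat_lit 1208707), (nat_lit 0), (nat_lit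 7332340)]) (PF.cons PF.nil (PF.cons PF.nil PF.nil)))) (PF.cons (PF.cons (PF.leaf (nat_lit 6228056) (nat_lit 1229921) (nat_lit 41432473) (nat_lit 14678509) [(nat_lit 0), (nat_lit 1229921), (nat_lit 0), (nat_lit 7308064)]) (PF.cons PF.nil
 PF.nil)) (PF.cons PF.nil PF.nil))))) (PF.cons (PF.cons (PF.cons (PF.leaf (nat_lit 5576143) (nat_lit 2929588) (nat_lit 42086766) (nat_lit 14782290) [(nat_lit 0), (nat_lit 0), (nat_lit 2929588), (nat_lit 7310168)]) (PF.cons (PF.leaf (nat_lit 5753466) (nat_lit 279689) (nat_lit 41845018) (nat_lit 14740877) [(nat_lit 279689), (nat_lit 0), (nat_lit 2938414), (nat_lit 7304812)]) (PF.cons (PF.leaf (nat_lit 5941909) (nat_lit 287666) (nat_lit 41591241) (nat_lit 14696762) [(nat_lit 287666), (nat_lit 0), (nat_lit 2946933), (nat_lit 7298543)]) (PF.cons PF.nil (PF.cons PF.nil PF.nil))))) (PF.cons (PF.cons (PF.leaf (nat_lit 6137096) (nat_lit 1217516) (nat_lit 41056040) (nat_lit 14599129) [(nat_lit 0), (nat_lit 1217516), (nat_lit 2956661),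 (nat_lit 7279465)]) (PF.cons (PF.leaf (nat_lit 6329446) (nat_lit 297823) (nat_lit 40797561) (nat_lit 14552148) [(nat_lit 297823), (nat_lit 1226722), (nat_lit 2963442), (nat_lit 7271113)]) (PF.cons PF.nil (PF.cons PF.nil PF.nil)))) (PF.cons (PF.cons (PF.leaf (nat_lit 6719055) (nat_lit 1243566) (nat_lit 40006532) (nat_lit 14401891) [(nat_lit 0), (nat_lit 1243566), (nat_lit 2975130), (nat_lit 7238126)]) (PF.cons PF.nil PF.nil)) PF.nil))) (PF.cons (PF.cons (PF.cons
 (PF.leaf (nat_lit 6619031) (nat_lit 2961217) (nat_lit 39655231) (nat_lit 14323256) [(nat_lit 0), (nat_lit 0), (nat_lit 2961217), (nat_lit 7207889)]) (PF.cons (PF.leaf (nat_lit 6811771) (nat_lit 303281) (nat_lit 39402923) (nat_lit 14274131) [(nat_lit 303281), (nat_lit 0), (nat_lit 2965788), (nat_lit 7196898)]) PF.nil)) (PF.cons PF.nil PF.nil)) (PF.cons PF.nil (PF.cons PF.nil PF.nil))))) (PF.cons (PF.cons (PF.cons (PF.cons (PF.leaf (nat_lit 6301438) (nat_lit 7093371) (nat_lit 38822817) (nat_lit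 14099252) [(nat_lit 0), (nat_lit 0), (nat_lit 0), (nat_lit 7093371)]) (PF.cons (PF.leaf (nat_lit 6474885) (nat_lit 280434) (nat_lit 38604102) (nat_lit 14056016) [(nat_lit 280434), (nat_lit 0), (nat_lit 0), (nat_lit 7084129)]) (PF.cons (PF.leaf (nat_lit 6658854) (nat_lit 287946) (nat_lit 38374851) (nat_lit 14010196) [(nat_lit 287946), (nat_lit 0), (nat_lit 0), (nat_lit 7073936)]) (PF.cons PF.nil PF.nil)))) (PF.cons (PF.cons (PF.leaf (nat_lit 6842111) (nat_lit 1207929) (nat_lit 37895114) (nat_lit 13910481) [(nat_lit 0), (nat_lit 1207929), (nat_lit 0), (nat_lit 7047643)]) (PF.cons (PF.leaf (nat_lit 7029115) (nat_lit 296800) (nat_lit 37662486) (nat_lit 13862409) [(nat_lit 296800), (nat_lit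
 1215544), (nat_lit 0), (nat_lit 7035786)]) PF.nil)) (PF.cons PF.nil PF.nil))) (PF.cons (PF.cons (PF.cons (PF.leaf (nat_lit 7292509) (nat_lit 2899691) (nat_lit 36649319) (nat_lit 13635510) [(nat_lit 0), (nat_lit 0), (nat_lit 2899691), (nat_lit 6962145)]) (PF.cons PF.nil PF.nil)) (PF.cons PF.nil PF.nil)) (PF.cons PF.nil PF.nil))) (PF.cons (PF.cons (PF.cons (PF.cons (PF.leaf (nat_lit 7906334) (nat_lit 6708390) (nat_lit 34006001) (nat_lit 12977638) [(nat_lit 0), (nat_lit 0), (nat_lit 0), (nat_lit 6708390)]) (PF.cons PF.nil PF.nil)) (PF.cons PF.nil PF.nil)) (PF.cons PF.nil PF.nil)) (PF.cons PF.nil (PF.cons PF.nil PF.nil))))))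

def p14_8_2_0 : pfC (piC [(nat_lit 43428061), (nat_lit 27333682), (nat_lit 20249535), (nat_lit 13586793)] (nat_lit 6772740)) p14_8_2 (nat_lit 4) (nat_lit 0) (nat_lit 1) = true := by decide +kernel
def p14_8_2_1 : pfC (piC [(nat_lit 43428061), (nat_lit 27333682), (nat_lit 20249535), (nat_lit 13586793)] (nat_lit 6772740)) p14_8_2 (nat_lit 4) (nat_lit 1) (nat_lit 2) = true := by decide +kernel
def p14_8_2_2 : pfC (piC [(nat_lit 43428061), (nat_lit 27333682), (nat_lit 20249535), (nat_lit 13586793)] (nat_lit 6772740)) p14_8_2 (nat_lit 4) (nat_lit 2) (nat_lit 3) = true := by decide +kernel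
def p14_8_2_3 : pfC (piC [(nat_lit 43428061), (nat_lit 27333682), (nat_lit 20249535), (nat_lit 13586793)] (nat_lit 6772740)) p14_8_2 (nat_lit 4) (nat_lit 3) (nat_lit 4) = true := by decide +kernel
def p14_8_2_4 : pfC (piC [(nat_lit 43428061), (nat_lit 27333682), (nat_lit 20249535), (nat_lit 13586793)] (nat_lit 6772740)) p14_8_2 (nat_lit 4) (nat_lit 4) (nat_lit 5) = true := by decide +kernel
def p14_8_2_5 : pfC (piC [(nat_lit 43428061), (nat_lit 27333682), (nat_lit 20249535), (nat_lit 13586793)] (nat_lit 6772740)) p14_8_2 (nat_lit 4) (nat_lit 5) (nat_lit 6) = true := by decide +kernel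
def p14_8_2_6 : pfC (piC [(nat_lit 43428061), (nat_lit 27333682), (nat_lit 20249535), (nat_lit 13586793)] (nat_lit 6772740)) p14_8_2 (nat_lit 4) (nat_lit 6) (nat_lit 7) = true := by decide +kernel
def p14_8_2_7 : pfC (piC [(nat_lit 43428061), (nat_lit 27333682), (nat_lit 20249535), (nat_lit 13586793)] (nat_lit 6772740)) p14_8_2 (nat_lit 4) (nat_lit 7) (nat_lit 8) = true := by decide +kernel
def p14_8_2_8 : pfC (piC [(nat_lit 43428061), (nat_lit 27333682), (nat_lit 20249535), (nat_lit 13586793)] (nat_lit 6772740)) p14_8_2 (nat_lit 4) (nat_lit 8) (nat_lit 9) = true := by decide +kernel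
def p14_8_2_9 : pfC (piC [(nat_lit 43428061), (nat_lit 27333682), (nat_lit 20249535), (nat_lit 13586793)] (nat_lit 6772740)) p14_8_2 (nat_lit 4) (nat_lit 9) (nat_lit 10) = true := by decide +kernel
def p14_8_2_10 : pfC (piC [(nat_lit 43428061), (nat_lit 27333682), (nat_lit 20249535), (nat_lit 13586793)] (nat_lit 6772740)) p14_8_2 (nat_lit 4) (nat_lit 10) (nat_lit 11) = true := by decide +kernel
def p14_8_2_11 : pfC (piC [(nat_lit 43428061), (nat_lit 27333682), (nat_lit 20249535), (nat_lit 13586793)] (nat_lit 6772740)) p14_8_2 (nat_lit 4) (nat_lit 11) (nat_lit 12) = true := by decide +kernel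
def p14_8_2_12 : pfC (piC [(nat_lit 43428061), (nat_lit 27333682), (nat_lit 20249535), (nat_lit 13586793)] (nat_lit 6772740)) p14_8_2 (nat_lit 4) (nat_lit 12) (nat_lit 13) = true := by decide +kernel
def p14_8_2_13 : pfC (piC [(nat_lit 43428061), (nat_lit 27333682), (nat_lit 20249535), (nat_lit 13586793)] (nat_lit 6772740)) p14_8_2 (nat_lit 4) (nat_lit 13) (nat_lit 14) = true := by decide +kernel
def p14_8_2_14 : pfC (piC [(nat_lit 43428061), (nat_lit 27333682), (nat_lit 20249535), (nat_lit 13586793)] (nat_lit 6772740)) p14_8_2 (nat_lit 4) (nat_lit 14) (nat_lit 15) = true := by decide +kernel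
def p14_8_2_15 : pfC (piC [(nat_lit 43428061), (nat_lit 27333682), (nat_lit 20249535), (nat_lit 13586793)] (nat_lit 6772740)) p14_8_2 (nat_lit 4) (nat_lit 15) (nat_lit 16) = true := by decide +kernel
def p14_8_2_16 : pfC (piC [(nat_lit 43428061), (nat_lit 27333682), (nat_lit 20249535), (nat_lit 13586793)] (nat_lit 6772740)) p14_8_2 (nat_lit 4) (nat_lit 16) (nat_lit 17) = true := by decide +kernel
def p14_8_2_17 : pfC (piC [(nat_lit 43428061), (nat_lit 27333682), (nat_lit 20249535), (nat_lit 13586793)] (nat_lit 6772740)) p14_8_2 (nat_lit 4) (nat_lit 17) (nat_lit 18) = true := by decide +kernel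
def p14_8_2_18 : pfC (piC [(nat_lit 43428061), (nat_lit 27333682), (nat_lit 20249535), (nat_lit 13586793)] (nat_lit 6772740)) p14_8_2 (nat_lit 4) (nat_lit 18) (nat_lit 19) = true := by decide +kernel
def p14_8_2_19 : pfC (piC [(nat_lit 43428061), (nat_lit 27333682), (nat_lit 20249535), (nat_lit 13586793)] (nat_lit 6772740)) p14_8_2 (nat_lit 4) (nat_lit 19) (nat_lit 20) = true := by decide +kernel
def p14_8_2_20 : pfC (piC [(nat_lit 43428061), (nat_lit 27333682), (nat_lit 20249535), (nat_lit 13586793)] (nat_lit 6772740)) p14_8_2 (nat_lit 4) (nat_lit 20) (nat_lit 21) = true := by decide +kernel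
def p14_8_2_21 : pfC (piC [(nat_lit 43428061), (nat_lit 27333682), (nat_lit 20249535), (nat_lit 13586793)] (nat_lit 6772740)) p14_8_2 (nat_lit 4) (nat_lit 21) (nat_lit 22) = true := by decide +kernel
def p14_8_2_22 : pfC (piC [(nat_lit 43428061), (nat_lit 27333682), (nat_lit 20249535), (nat_lit 13586793)] (nat_lit 6772740)) p14_8_2 (nat_lit 4) (nat_lit 22) (nat_lit 23) = true := by decide +kernel
def p14_8_2_23 : pfC (piC [(nat_lit 43428061), (nat_lit 27333682), (nat_lit 20249535), (nat_lit 13586793)] (nat_lit 6772740)) p14_8_2 (nat_lit 4) (nat_lit 23) (nat_lit 24) = true := by decide +kernel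
def p14_8_2_24 : pfC (piC [(nat_lit 43428061), (nat_lit 27333682), (nat_lit 20249535), (nat_lit 13586793)] (nat_lit 6772740)) p14_8_2 (nat_lit 4) (nat_lit 24) (nat_lit 25) = true := by decide +kernel
def p14_8_2_25 : pfC (piC [(nat_lit 43428061), (nat_lit 27333682), (nat_lit 20249535), (nat_lit 13586793)] (nat_lit 6772740)) p14_8_2 (nat_lit 4) (nat_lit 25) (nat_lit 26) = true := by decide +kernel
def p14_8_2_26 : pfC (piC [(nat_lit 43428061), (nat_lit 27333682), (nat_lit 20249535), (nat_lit 13586793)] (nat_lit 6772740)) p14_8_2 (nat_lit 4) (nat_lit 26) (nat_lit 27) = true := by decide +kernel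
def p14_8_2_27 : pfC (piC [(nat_lit 43428061), (nat_lit 27333682), (nat_lit 20249535), (nat_lit 13586793)] (nat_lit 6772740)) p14_8_2 (nat_lit 4) (nat_lit 27) (nat_lit 28) = true := by decide +kernel
def p14_8_2_28 : pfC (piC [(nat_lit 43428061), (nat_lit 27333682), (nat_lit 20249535), (nat_lit 13586793)] (nat_lit 6772740)) p14_8_2 (nat_lit 4) (nat_lit 28) (nat_lit 29) = true := by decide +kernel
def p14_8_2_29 : pfC (piC [(nat_lit 43428061), (nat_lit 27333682), (nat_lit 20249535), (nat_lit 13586793)] (nat_lit 6772740)) p14_8_2 (nat_lit 4) (nat_lit 29) (nat_lit 30) = true := by decide +kernel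
def p14_8_2_30 : pfC (piC [(nat_lit 43428061), (nat_lit 27333682), (nat_lit 20249535), (nat_lit 13586793)] (nat_lit 6772740)) p14_8_2 (nat_lit 4) (nat_lit 30) (nat_lit 31) = true := by decide +kernel
def p14_8_2_31 : pfC (piC [(nat_lit 43428061), (nat_lit 27333682), (nat_lit 20249535), (nat_lit 13586793)] (nat_lit 6772740)) p14_8_2 (nat_lit 4) (nat_lit 31) (nat_lit 32) = true := by decide +kernel
def p14_8_2_32 : pfC (piC [(nat_lit 43428061), (nat_lit 27333682), (nat_lit 20249535), (nat_lit 13586793)] (nat_lit 6772740)) p14_8_2 (nat_lit 4) (nat_lit 32) (nat_lit 33) = true := by decide +kernel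
def p14_8_2_33 : pfC (piC [(nat_lit 43428061), (nat_lit 27333682), (nat_lit 20249535), (nat_lit 13586793)] (nat_lit 6772740)) p14_8_2 (nat_lit 4) (nat_lit 33) (nat_lit 34) = true := by decide +kernel
def p14_8_2_34 : pfC (piC [(nat_lit 43428061), (nat_lit 27333682), (nat_lit 20249535), (nat_lit 13586793)] (nat_lit 6772740)) p14_8_2 (nat_lit 4) (nat_lit 34) (nat_lit 35) = true := by decide +kernel
def p14_8_2_35 : pfC (piC [(nat_lit 43428061), (nat_lit 27333682), (nat_lit 20249535), (nat_lit 13586793)] (nat_lit 6772740)) p14_8_2 (nat_lit 4) (nat_lit 35) (nat_lit 36) = true := by decide +kernel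
def p14_8_2_36 : pfC (piC [(nat_lit 43428061), (nat_lit 27333682), (nat_lit 20249535), (nat_lit 13586793)] (nat_lit 6772740)) p14_8_2 (nat_lit 4) (nat_lit 36) (nat_lit 37) = true := by decide +kernel
def p14_8_2_37 : pfC (piC [(nat_lit 43428061), (nat_lit 27333682), (nat_lit 20249535), (nat_lit 13586793)] (nat_lit 6772740)) p14_8_2 (nat_lit 4) (nat_lit 37) (nat_lit 38) = true := by decide +kernel
def p14_8_2_38 : pfC (piC [(nat_lit 43428061), (nat_lit 27333682), (nat_lit 20249535), (nat_lit 13586793)] (nat_lit 6772740)) p14_8_2 (nat_lit 4) (nat_lit 38) (nat_lit 39) = true := by decide +kernel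
def p14_8_2_39 : pfC (piC [(nat_lit 43428061), (nat_lit 27333682), (nat_lit 20249535), (nat_lit 13586793)] (nat_lit 6772740)) p14_8_2 (nat_lit 4) (nat_lit 39) (nat_lit 40) = true := by decide +kernel
def p14_8_2_40 : pfC (piC [(nat_lit 43428061), (nat_lit 27333682), (nat_lit 20249535), (nat_lit 13586793)] (nat_lit 6772740)) p14_8_2 (nat_lit 4) (nat_lit 40) (nat_lit 41) = true := by decide +kernel
def p14_8_2_41 : pfC (piC [(nat_lit 43428061), (nat_lit 27333682), (nat_lit 20249535), (nat_lit 13586793)] (nat_lit 6772740)) p14_8_2 (nat_lit 4) (nat_lit 41) (nat_lit 42) = true := by decide +kernel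
def p14_8_2_42 : pfC (piC [(nat_lit 43428061), (nat_lit 27333682), (nat_lit 20249535), (nat_lit 13586793)] (nat_lit 6772740)) p14_8_2 (nat_lit 4) (nat_lit 42) (nat_lit 43) = true := by decide +kernel
def p14_8_2_43 : pfC (piC [(nat_lit 43428061), (nat_lit 27333682), (nat_lit 20249535), (nat_lit 13586793)] (nat_lit 6772740)) p14_8_2 (nat_lit 4) (nat_lit 43) (nat_lit 44) = true := by decide +kernel
def p14_8_2_44 : pfC (piC [(nat_lit 43428061), (nat_lit 27333682), (nat_lit 20249535), (nat_lit 13586793)] (nat_lit 6772740)) p14_8_2 (nat_lit 4) (nat_lit 44) (nat_lit 45) = true := by decide +kernel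
def p14_8_2_45 : pfC (piC [(nat_lit 43428061), (nat_lit 27333682), (nat_lit 20249535), (nat_lit 13586793)] (nat_lit 6772740)) p14_8_2 (nat_lit 4) (nat_lit 45) (nat_lit 46) = true := by decide +kernel
def p14_8_2_46 : pfC (piC [(nat_lit 43428061), (nat_lit 27333682), (nat_lit 20249535), (nat_lit 13586793)] (nat_lit 6772740)) p14_8_2 (nat_lit 4) (nat_lit 46) (nat_lit 47) = true := by decide +kernel
def p14_8_2_47 : pfC (piC [(nat_lit 43428061), (nat_lit 27333682), (nat_lit 20249535), (nat_lit 13586793)] (nat_lit 6772740)) p14_8_2 (nat_lit 4) (nat_lit 47) (nat_lit 48) = true := by decide +kernel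
def p14_8_2_48 : pfC (piC [(nat_lit 43428061), (nat_lit 27333682), (nat_lit 20249535), (nat_lit 13586793)] (nat_lit 6772740)) p14_8_2 (nat_lit 4) (nat_lit 48) (nat_lit 49) = true := by decide +kernel
def p14_8_2_49 : pfC (piC [(nat_lit 43428061), (nat_lit 27333682), (nat_lit 20249535), (nat_lit 13586793)] (nat_lit 6772740)) p14_8_2 (nat_lit 4) (nat_lit 49) (nat_lit 50) = true := by decide +kernel
def p14_8_2_50 : pfC (piC [(nat_lit 43428061), (nat_lit 27333682), (nat_lit 20249535), (nat_lit 13586793)] (nat_lit 6772740)) p14_8_2 (nat_lit 4) (nat_lit 50) (nat_lit 51) = true := by decide +kernel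
def p14_8_2_51 : pfC (piC [(nat_lit 43428061), (nat_lit 27333682), (nat_lit 20249535), (nat_lit 13586793)] (nat_lit 6772740)) p14_8_2 (nat_lit 4) (nat_lit 51) (nat_lit 52) = true := by decide +kernel
def p14_8_2_52 : pfC (piC [(nat_lit 43428061), (nat_lit 27333682), (nat_lit 20249535), (nat_lit 13586793)] (nat_lit 6772740)) p14_8_2 (nat_lit 4) (nat_lit 52) (nat_lit 53) = true := by decide +kernel
def p14_8_2_53 : pfC (piC [(nat_lit 43428061), (nat_lit 27333682), (nat_lit 20249535), (nat_lit 13586793)] (nat_lit 6772740)) p14_8_2 (nat_lit 4) (nat_lit 53) (nat_lit 54) = true := by decide +kernel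
def p14_8_2_54 : pfC (piC [(nat_lit 43428061), (nat_lit 27333682), (nat_lit 20249535), (nat_lit 13586793)] (nat_lit 6772740)) p14_8_2 (nat_lit 4) (nat_lit 54) (nat_lit 55) = true := by decide +kernel
def p14_8_2_55 : pfC (piC [(nat_lit 43428061), (nat_lit 27333682), (nat_lit 20249535), (nat_lit 13586793)] (nat_lit 6772740)) p14_8_2 (nat_lit 4) (nat_lit 55) (nat_lit 56) = true := by decide +kernel
def p14_8_2_56 : pfC (piC [(nat_lit 43428061), (nat_lit 27333682), (nat_lit 20249535), (nat_lit 13586793)] (nat_lit 6772740)) p14_8_2 (nat_lit 4) (nat_lit 56) (nat_lit 57) = true := by decide +kernel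
def p14_8_2_57 : pfC (piC [(nat_lit 43428061), (nat_lit 27333682), (nat_lit 20249535), (nat_lit 13586793)] (nat_lit 6772740)) p14_8_2 (nat_lit 4) (nat_lit 57) (nat_lit 58) = true := by decide +kernel
def p14_8_2_58 : pfC (piC [(nat_lit 43428061), (nat_lit 27333682), (nat_lit 20249535), (nat_lit 13586793)] (nat_lit 6772740)) p14_8_2 (nat_lit 4) (nat_lit 58) (nat_lit 59) = true := by decide +kernel
def p14_8_2_59 : pfC (piC [(nat_lit 43428061), (nat_lit 27333682), (nat_lit 20249535), (nat_lit 13586793)] (nat_lit 6772740)) p14_8_2 (nat_lit 4) (nat_lit 59) (nat_lit 60) = true := by decide +kernel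
def p14_8_2_60 : pfC (piC [(nat_lit 43428061), (nat_lit 27333682), (nat_lit 20249535), (nat_lit 13586793)] (nat_lit 6772740)) p14_8_2 (nat_lit 4) (nat_lit 60) (nat_lit 61) = true := by decide +kernel
def p14_8_2_61 : pfC (piC [(nat_lit 43428061), (nat_lit 27333682), (nat_lit 20249535), (nat_lit 13586793)] (nat_lit 6772740)) p14_8_2 (nat_lit 4) (nat_lit 61) (nat_lit 62) = true := by decide +kernel
def p14_8_2_62 : pfC (piC [(nat_lit 43428061), (nat_lit 27333682), (nat_lit 20249535), (nat_lit 13586793)] (nat_lit 6772740)) p14_8_2 (nat_lit 4) (nat_lit 62) (nat_lit 63) = true := by decide +kernel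
theorem p14_8_2_T : PfS (PiF n14_8.reverse (nat_lit 6772740)) p14_8_2 (nat_lit 4) [] 0 :=
  pftab_of (los := [(nat_lit 43428061), (nat_lit 27333682), (nat_lit 20249535), (nat_lit 13586793)]) (by decide +kernel) (hi := (nat_lit 63)) (PfP.trans (PfP.trans (PfP.trans (PfP.trans (PfP.trans (PfP.trans (PfP.trans (PfP.trans (PfP.trans (PfP.trans (PfP.trans (PfP.trans (PfP.trans (PfP.trans (PfP.trans (PfP.trans (PfP.trans (PfP.trans (PfP.trans (PfP.trans (PfP.trans (PfP.trans (PfP.trans (PfP.trans (PfP.trans (PfP.trans (PfP.trans (PfP.trans (PfP.trans (PfP.trans (PfP.trans (PfP.trans (PfP.trans (PfP.trans (PfP.trans (PfP.trans (PfP.trans (PfP.trans (PfP.trans (PfP.trans (PfP.trans (PfP.trans (PfP.trans (PfP.trans (PfP.trans (PfP.trans (PfP.trans (PfP.trans (PfP.trans (PfP.trans (PfP.trans (PfP.trans (PfP.trans (PfP.trans (PfP.trans (PfP.trans (PfP.trans (PfP.trans (PfP.trans (PfP.trans (PfP.trans (PfP.trans (pfC_sound p14_8_2_0) (pfC_sound p14_8_2_1)) (pfC_sound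 p14_8_2_2)) (pfC_sound p14_8_2_3)) (pfC_sound p14_8_2_4)) (pfC_sound p14_8_2_5)) (pfC_sound p14_8_2_6)) (pfC_sound p14_8_2_7)) (pfC_sound p14_8_2_8)) (pfC_sound p14_8_2_9)) (pfC_sound p14_8_2_10)) (pfC_sound p14_8_2_11)) (pfC_sound p14_8_2_12)) (pfC_sound p14_8_2_13)) (pfC_sound p14_8_2_14)) (pfC_sound p14_8_2_15)) (pfC_sound p14_8_2_16)) (pfC_sound p14_8_2_17)) (pfC_sound p14_8_2_18)) (pfC_sound p14_8_2_19)) (pfC_sound p14_8_2_20)) (pfC_sound p14_8_2_21))
 (pfC_sound p14_8_2_22)) (pfC_sound p14_8_2_23)) (pfC_sound p14_8_2_24)) (pfC_sound p14_8_2_25)) (pfC_sound p14_8_2_26)) (pfC_sound p14_8_2_27)) (pfC_sound p14_8_2_28)) (pfC_sound p14_8_2_29)) (pfC_sound p14_8_2_30)) (pfC_sound p14_8_2_31)) (pfC_sound p14_8_2_32)) (pfC_sound p14_8_2_33)) (pfC_sound p14_8_2_34)) (pfC_sound p14_8_2_35)) (pfC_sound p14_8_2_36)) (pfC_sound p14_8_2_37)) (pfC_sound p14_8_2_38)) (pfC_sound p14_8_2_39)) (pfC_sound p14_8_2_40)) (pfC_sound p14_8_2_41)) (pfC_sound p14_8_2_42))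 (pfC_sound p14_8_2_43)) (pfC_sound p14_8_2_44)) (pfC_sound p14_8_2_45)) (pfC_sound p14_8_2_46)) (pfC_sound p14_8_2_47)) (pfC_sound p14_8_2_48)) (pfC_sound p14_8_2_49)) (pfC_sound p14_8_2_50)) (pfC_sound p14_8_2_51)) (pfC_sound p14_8_2_52)) (pfC_sound p14_8_2_53)) (pfC_sound p14_8_2_54)) (pfC_sound p14_8_2_55)) (pfC_sound p14_8_2_56)) (pfC_sound p14_8_2_57)) (pfC_sound p14_8_2_58)) (pfC_sound p14_8_2_59)) (pfC_sound p14_8_2_60)) (pfC_sound p14_8_2_61)) (pfC_sound p14_8_2_62)) (by decide +kernel)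

def z14_8_2 : zOK yB14_8 (nat_lit 2) (nat_lit 600) (nat_lit 750) (nat_lit 6772740) (nat_lit 4796502) = true := by decide +kernel
def g14_8_2 : gOK yB14_8.x P14_8 (nat_lit 1432) (q14_8 :: r14_8) (nat_lit 2) (nat_lit 600) (nat_lit 3) (nat_lit 750) (nat_lit 12712500) (nat_lit 12712500) (nat_lit 12712500) (nat_lit 12712500) [(nat_lit 800), (nat_lit 1600)] = true := by decide +kernel
def v14_8_2 : ivC P14_8 s14_8 w14_8 n14_8 (nat_lit 4) (nat_lit 4900) (nat_lit 2) (nat_lit 600) f136_1_600 f144_1_600 (nat_lit 3) (nat_lit 750) f136_1_750 f144_1_750 (nat_lit 6772740) (nat_lit 4796502) p14_8_2 = true := by decide +kernel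
def p14_8_3 : PF := (PF.cons (PF.cons (PF.cons (PF.cons (PF.leaf (nat_lit 3109653) (nat_lit 21043601) (nat_lit 46065211) (nat_lit 21043601) [(nat_lit 0), (nat_lit 0), (nat_lit 0), (nat_lit 0)]) (PF.cons (PF.leaf (nat_lit 3211380) (nat_lit 170719) (nat_lit 45926973) (nat_lit 21011120) [(nat_lit 170719), (nat_lit 0), (nat_lit 0), (nat_lit 0)]) (PF.cons (PF.leaf (nat_lit 3335435) (nat_lit 185645) (nat_lit 45764837) (nat_lit 20972684) [(nat_lit 185645), (nat_lit 0), (nat_lit 0), (nat_lit 0)]) (PF.cons (PF.leaf (nat_lit 3474719) (nat_lit 198913) (nat_lit 45582937) (nat_lit 20929135) [(nat_lit 198913), (nat_lit 0), (nat_lit 0), (nat_lit 0)]) (PF.cons (PF.leaf (nat_lit 3627007) (nat_lit 210904) (nat_lit 45384158) (nat_lit 20881037) [(nat_lit 210904), (nat_lit 0), (nat_lit 0), (nat_lit 0)]) (PF.cons (PF.leaf (nat_lit 3791083) (nat_lit 221864) (nat_lit 45170691) (nat_lit 20828801) [(nat_lit 221864), (nat_lit 0), (nat_lit 0), (nat_lit 0)]) (PF.cons (PF.leaf (nat_lit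 3965415) (nat_lit 231961) (nat_lit 44944296) (nat_lit 20772748) [(nat_lit 231961), (nat_lit 0), (nat_lit 0), (nat_lit 0)]) (PF.cons (PF.leaf (nat_lit 4149086) (nat_lit 241318) (nat_lit 44706443) (nat_lit 20713140) [(nat_lit 241318), (nat_lit 0),
 (nat_lit 0), (nat_lit 0)]) (PF.cons PF.nil (PF.cons PF.nil PF.nil)))))))))) (PF.cons (PF.cons (PF.leaf (nat_lit 3537922) (nat_lit 967584) (nat_lit 45285973) (nat_lit 20855254) [(nat_lit 0), (nat_lit 967584), (nat_lit 0), (nat_lit 0)]) (PF.cons (PF.leaf (nat_lit 3673793) (nat_lit 209152) (nat_lit 45101848) (nat_lit 20809957) [(nat_lit 209152), (nat_lit 987854), (nat_lit 0), (nat_lit 0)]) (PF.cons (PF.leaf (nat_lit 3825961) (nat_lit 220564) (nat_lit 44899915) (nat_lit 20759772) [(nat_lit 220564), (nat_lit 1007995), (nat_lit 0), (nat_lit 0)]) (PF.cons (PF.leaf (nat_lit 3990294) (nat_lit 230944) (nat_lit 44683023) (nat_lit 20705285) [(nat_lit 230944), (nat_lit 1027670), (nat_lit 0), (nat_lit 0)]) (PF.cons (PF.leaf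 (nat_lit 4165016) (nat_lit 240483) (nat_lit 44453268) (nat_lit 20646914) [(nat_lit 240483), (nat_lit 1046694), (nat_lit 0), (nat_lit 0)]) (PF.cons (PF.leaf (nat_lit 4349086) (nat_lit 249311) (nat_lit 44212302) (nat_lit 20584979) [(nat_lit 249311), (nat_lit 1064972), (nat_lit 0), (nat_lit 0)]) (PF.cons PF.nil (PF.cons PF.nil (PF.cons PF.nil PF.nil))))))))) (PF.cons (PF.cons (PF.leaf (nat_lit 4029995) (nat_lit 1038109) (nat_lit 44400982) (nat_lit 20631611) [(nat_lit 0),
 (nat_lit 1038109), (nat_lit 0), (nat_lit 0)]) (PF.cons (PF.leaf (nat_lit 4191389) (nat_lit 238742) (nat_lit 44183583) (nat_lit 20575592) [(nat_lit 238742), (nat_lit 1055447), (nat_lit 0), (nat_lit 0)]) (PF.cons (PF.leaf (nat_lit 4365474) (nat_lit 247896) (nat_lit 43952780) (nat_lit 20515477) [(nat_lit 247896), (nat_lit 1072381), (nat_lit 0), (nat_lit 0)]) (PF.cons (PF.leaf (nat_lit 4549155) (nat_lit 256328) (nat_lit 43710605) (nat_lit 20451695) [(nat_lit 256328), (nat_lit 1088763), (nat_lit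 0), (nat_lit 0)]) (PF.cons (PF.leaf (nat_lit 4741304) (nat_lit 264145) (nat_lit 43458632) (nat_lit 20384573) [(nat_lit 264145), (nat_lit 1104512), (nat_lit 0), (nat_lit 0)]) (PF.cons PF.nil (PF.cons PF.nil PF.nil))))))) (PF.cons (PF.cons (PF.leaf (nat_lit 4568795) (nat_lit 1095432) (nat_lit 43443881) (nat_lit 20378632) [(nat_lit 0), (nat_lit 1095432), (nat_lit 0), (nat_lit 0)]) (PF.cons (PF.leaf (nat_lit 4749783) (nat_lit 262459) (nat_lit 43202454) (nat_lit 20313534) [(nat_lit 262459), (nat_lit 1110121), (nat_lit 0), (nat_lit 0)]) (PF.cons (PF.leaf (nat_lit 4940819) (nat_lit 269979) (nat_lit 42950926) (nat_lit 20244973) [(nat_lit 269979), (nat_lit 1124317), (nat_lit 0), (nat_lit 0)]) (PF.cons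
 PF.nil (PF.cons PF.nil PF.nil))))) (PF.cons (PF.cons (PF.leaf (nat_lit 5141885) (nat_lit 1142141) (nat_lit 42439107) (nat_lit 20101139) [(nat_lit 0), (nat_lit 1142141), (nat_lit 0), (nat_lit 0)]) (PF.cons (PF.leaf (nat_lit 5337967) (nat_lit 281819) (nat_lit 42180733) (nat_lit 20028372) [(nat_lit 281819), (nat_lit 1154471), (nat_lit 0), (nat_lit 0)]) (PF.cons PF.nil (PF.cons PF.nil PF.nil)))) (PF.cons (PF.cons (PF.leaf (nat_lit 5739579) (nat_lit 1180030) (nat_lit 41405286) (nat_lit 19803372) [(nat_lit 0), (nat_lit 1180030), (nat_lit 0), (nat_lit 0)]) (PF.cons PF.nil PF.nil)) PF.nil)))))) (PF.cons (PF.cons (PF.cons (PF.leaf (nat_lit 4024643) (nat_lit 2689200) (nat_lit 43922965) (nat_lit 20496647) [(nat_lit 0), (nat_lit 0), (nat_lit 2689200), (nat_lit 0)]) (PF.cons (PF.leaf (nat_lit 4168203) (nat_lit 225596) (nat_lit 43730829) (nat_lit 20446090) [(nat_lit 225596), (nat_lit 0), (nat_lit 2706296), (nat_lit 0)]) (PF.cons (PF.leaf (nat_lit 4327402) (nat_lit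 236464) (nat_lit 43521581) (nat_lit 20390516) [(nat_lit 236464), (nat_lit 0), (nat_lit 2723784), (nat_lit 0)]) (PF.cons (PF.leaf (nat_lit 4498164) (nat_lit 246210) (nat_lit 43298284) (nat_lit 20330628) [(nat_lit 246210), (nat_lit 0),
 (nat_lit 2741268), (nat_lit 0)]) (PF.cons (PF.leaf (nat_lit 4678696) (nat_lit 255064) (nat_lit 43063154) (nat_lit 20266921) [(nat_lit 255064), (nat_lit 0), (nat_lit 2758478), (nat_lit 0)]) (PF.cons (PF.leaf (nat_lit 4867885) (nat_lit 263182) (nat_lit 42817900) (nat_lit 20199770) [(nat_lit 263182), (nat_lit 0), (nat_lit 2775228), (nat_lit 0)]) (PF.cons PF.nil PF.nil))))))) (PF.cons (PF.cons (PF.leaf (nat_lit 4530500) (nat_lit 1084593) (nat_lit 43017738) (nat_lit 20252611) [(nat_lit 0), (nat_lit 1084593), (nat_lit 2753869), (nat_lit 0)]) (PF.cons (PF.leaf (nat_lit 4697454) (nat_lit 252396) (nat_lit 42796088) (nat_lit 20191817) [(nat_lit 252396), (nat_lit 1099340), (nat_lit 2769170), (nat_lit 0)]) (PF.cons (PF.leaf (nat_lit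 4876455) (nat_lit 260968) (nat_lit 42561920) (nat_lit 20126962) [(nat_lit 260968), (nat_lit 1113680), (nat_lit 2784311), (nat_lit 0)]) (PF.cons (PF.leaf (nat_lit 5064464) (nat_lit 268783) (nat_lit 42317332) (nat_lit 20058540) [(nat_lit 268783), (nat_lit 1127501), (nat_lit 2799088), (nat_lit 0)]) (PF.cons PF.nil PF.nil))))) (PF.cons (PF.cons (PF.leaf (nat_lit 5076776) (nat_lit 1131928) (nat_lit 42055359) (nat_lit 19982534) [(nat_lit 0), (nat_lit 1131928), (nat_lit
 2807061), (nat_lit 0)]) (PF.cons (PF.leaf (nat_lit 5261438) (nat_lit 273640) (nat_lit 41813120) (nat_lit 19913349) [(nat_lit 273640), (nat_lit 1144352), (nat_lit 2819998), (nat_lit 0)]) (PF.cons (PF.leaf (nat_lit 5455603) (nat_lit 280597) (nat_lit 41561657) (nat_lit 19840825) [(nat_lit 280597), (nat_lit 1156310), (nat_lit 2832515), (nat_lit 0)]) (PF.cons PF.nil PF.nil)))) (PF.cons (PF.cons (PF.leaf (nat_lit 5652016) (nat_lit 1170287) (nat_lit 41057519) (nat_lit 19691331) [(nat_lit 0), (nat_lit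 1170287), (nat_lit 2849098), (nat_lit 0)]) (PF.cons (PF.leaf (nat_lit 5850113) (nat_lit 290823) (nat_lit 40801290) (nat_lit 19615257) [(nat_lit 290823), (nat_lit 1180638), (nat_lit 2859527), (nat_lit 0)]) PF.nil)) (PF.cons PF.nil PF.nil))))) (PF.cons (PF.cons (PF.cons (PF.leaf (nat_lit 5025301) (nat_lit 2799569) (nat_lit 41652575) (nat_lit 19857098) [(nat_lit 0), (nat_lit 0), (nat_lit 2799569), (nat_lit 0)]) (PF.cons (PF.leaf (nat_lit 5196354) (nat_lit 263457) (nat_lit 41429774) (nat_lit 19792555) [(nat_lit 263457), (nat_lit 0), (nat_lit 2811513), (nat_lit 0)]) (PF.cons (PF.leaf (nat_lit 5378831) (nat_lit 271509) (nat_lit 41195284) (nat_lit 19724025) [(nat_lit 271509), (nat_lit 0), (nat_lit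
 2823242), (nat_lit 0)]) (PF.cons (PF.leaf (nat_lit 5569773) (nat_lit 278779) (nat_lit 40951231) (nat_lit 19652051) [(nat_lit 278779), (nat_lit 0), (nat_lit 2834596), (nat_lit 0)]) (PF.cons PF.nil PF.nil))))) (PF.cons (PF.cons (PF.leaf (nat_lit 5575238) (nat_lit 1159554) (nat_lit 40696155) (nat_lit 19574221) [(nat_lit 0), (nat_lit 1159554), (nat_lit 2839440), (nat_lit 0)]) (PF.cons (PF.leaf (nat_lit 5762340) (nat_lit 282587) (nat_lit 40455625) (nat_lit 19501965) [(nat_lit 282587), (nat_lit 1170091), (nat_lit 2849271), (nat_lit 0)]) (PF.cons (PF.leaf (nat_lit 5958380) (nat_lit 289046) (nat_lit 40206651) (nat_lit 19426512) [(nat_lit 289046), (nat_lit 1180182), (nat_lit 2858687), (nat_lit 0)]) (PF.cons PF.nil PF.nil)))) (PF.cons (PF.cons (PF.leaf (nat_lit 6149738) (nat_lit 1191028) (nat_lit 39713860) (nat_lit 19273313) [(nat_lit 0), (nat_lit 1191028), (nat_lit 2869791), (nat_lit 0)]) (PF.cons PF.nil PF.nil)) PF.nil))) (PF.cons (PF.cons (PF.cons (PF.leaf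 (nat_lit 6062790) (nat_lit 2858579) (nat_lit 39374469) (nat_lit 19158604) [(nat_lit 0), (nat_lit 0), (nat_lit 2858579), (nat_lit 0)]) (PF.cons (PF.leaf (nat_lit 6251275) (nat_lit 289685) (nat_lit 39137498) (nat_lit 19084167) [(nat_lit
 289685), (nat_lit 0), (nat_lit 2865820), (nat_lit 0)]) (PF.cons PF.nil PF.nil))) (PF.cons (PF.cons (PF.leaf (nat_lit 6634212) (nat_lit 1205719) (nat_lit 38413841) (nat_lit 18851418) [(nat_lit 0), (nat_lit 1205719), (nat_lit 2879277), (nat_lit 0)]) PF.nil) PF.nil)) (PF.cons PF.nil (PF.cons PF.nil PF.nil)))))) (PF.cons (PF.cons (PF.cons (PF.cons (PF.leaf (nat_lit 4806708) (nat_lit 6975759) (nat_lit 40635108) (nat_lit 19497944) [(nat_lit 0), (nat_lit 0), (nat_lit 0), (nat_lit 6975759)]) (PF.cons (PF.leaf (nat_lit 4951374) (nat_lit 233990) (nat_lit 40454424) (nat_lit 19444406) [(nat_lit 233990), (nat_lit 0), (nat_lit 0), (nat_lit 6975991)]) (PF.cons (PF.leaf (nat_lit 5111005) (nat_lit 244509) (nat_lit 40258264) (nat_lit 19385866)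 [(nat_lit 244509), (nat_lit 0), (nat_lit 0), (nat_lit 6975662)]) (PF.cons (PF.leaf (nat_lit 5281460) (nat_lit 253810) (nat_lit 40049587) (nat_lit 19323120) [(nat_lit 253810), (nat_lit 0), (nat_lit 0), (nat_lit 6974672)]) (PF.cons (PF.leaf (nat_lit 5461199) (nat_lit 262152) (nat_lit 39830523) (nat_lit 19256734) [(nat_lit 262152), (nat_lit 0), (nat_lit 0), (nat_lit 6972946)]) (PF.cons (PF.leaf (nat_lit 5648715) (nat_lit 269708) (nat_lit 39602705) (nat_lit
 19187136) [(nat_lit 269708), (nat_lit 0), (nat_lit 0), (nat_lit 6970429)]) (PF.cons PF.nil PF.nil))))))) (PF.cons (PF.cons (PF.leaf (nat_lit 5305382) (nat_lit 1105081) (nat_lit 39791926) (nat_lit 19243214) [(nat_lit 0), (nat_lit 1105081), (nat_lit 0), (nat_lit 6968590)]) (PF.cons (PF.leaf (nat_lit 5471451) (nat_lit 258712) (nat_lit 39585995) (nat_lit 19180232) [(nat_lit 258712), (nat_lit 1117593), (nat_lit 0), (nat_lit 6966278)]) (PF.cons (PF.leaf (nat_lit 5648827) (nat_lit 266798) (nat_lit 39369006)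 (nat_lit 19113371) [(nat_lit 266798), (nat_lit 1129627), (nat_lit 0), (nat_lit 6963210)]) (PF.cons (PF.leaf (nat_lit 5834546) (nat_lit 274081) (nat_lit 39142945) (nat_lit 19043174) [(nat_lit 274081), (nat_lit 1141104), (nat_lit 0), (nat_lit 6959344)]) (PF.cons (PF.leaf (nat_lit 6027437) (nat_lit 280701) (nat_lit 38909316) (nat_lit 18970053) [(nat_lit 280701), (nat_lit 1151987), (nat_lit 0), (nat_lit 6954649)]) PF.nil))))) (PF.cons (PF.cons (PF.leaf (nat_lit 5838481) (nat_lit 1143305) (nat_lit 38904606) (nat_lit 18966807) [(nat_lit 0), (nat_lit 1143305), (nat_lit 0), (nat_lit 6950789)]) (PF.cons (PF.leaf (nat_lit 6020266) (nat_lit 277789) (nat_lit 38681702) (nat_lit 18896485) [(nat_lit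
 277789), (nat_lit 1153569), (nat_lit 0), (nat_lit 6945696)]) (PF.cons (PF.leaf (nat_lit 6210926) (nat_lit 284215) (nat_lit 38450815) (nat_lit 18823092) [(nat_lit 284215), (nat_lit 1163350), (nat_lit 0), (nat_lit 6939772)]) (PF.cons PF.nil PF.nil)))) (PF.cons (PF.cons (PF.leaf (nat_lit 6395416) (nat_lit 1173414) (nat_lit 37992124) (nat_lit 18673883) [(nat_lit 0), (nat_lit 1173414), (nat_lit 0), (nat_lit 6922560)]) (PF.cons (PF.leaf (nat_lit 6588949) (nat_lit 292880) (nat_lit 37758146) (nat_lit 18597821) [(nat_lit 292880), (nat_lit 1181758), (nat_lit 0), (nat_lit 6914688)]) PF.nil)) (PF.cons PF.nil PF.nil))))) (PF.cons (PF.cons (PF.cons (PF.leaf (nat_lit 5773368) (nat_lit 2790050) (nat_lit 38548284) (nat_lit 18845434) [(nat_lit 0), (nat_lit 0), (nat_lit 2790050), (nat_lit 6925042)]) (PF.cons (PF.leaf (nat_lit 5942100) (nat_lit 267185) (nat_lit 38343375) (nat_lit 18780128) [(nat_lit 267185), (nat_lit 0), (nat_lit 2798234), (nat_lit 6919889)]) (PF.cons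 (PF.leaf (nat_lit 6121648) (nat_lit 274773) (nat_lit 38128154) (nat_lit 18711061) [(nat_lit 274773), (nat_lit 0), (nat_lit 2806134), (nat_lit 6913914)]) (PF.cons (PF.leaf (nat_lit 6309055) (nat_lit 281549) (nat_lit 37904599) (nat_lit
 18638808) [(nat_lit 281549), (nat_lit 0), (nat_lit 2813640), (nat_lit 6907114)]) (PF.cons PF.nil PF.nil))))) (PF.cons (PF.cons (PF.leaf (nat_lit 6306977) (nat_lit 1161518) (nat_lit 37674182) (nat_lit 18562090) [(nat_lit 0), (nat_lit 1161518), (nat_lit 2815033), (nat_lit 6895987)]) (PF.cons (PF.leaf (nat_lit 6490111) (nat_lit 284391) (nat_lit 37454577) (nat_lit 18490090) [(nat_lit 284391), (nat_lit 1170214), (nat_lit 2821344), (nat_lit 6888194)]) (PF.cons (PF.leaf (nat_lit 6681610) (nat_lit 290365) (nat_lit 37227645) (nat_lit 18415169) [(nat_lit 290365), (nat_lit 1178456), (nat_lit 2827245), (nat_lit 6879565)]) (PF.cons PF.nil PF.nil)))) (PF.cons (PF.cons (PF.leaf (nat_lit 6860958) (nat_lit 1186072) (nat_lit 36781976) (nat_lit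 18264834) [(nat_lit 0), (nat_lit 1186072), (nat_lit 2832184), (nat_lit 6857672)]) (PF.cons PF.nil PF.nil)) PF.nil))) (PF.cons (PF.cons (PF.cons (PF.leaf (nat_lit 6764317) (nat_lit 2819060) (nat_lit 36484173) (nat_lit 18156635) [(nat_lit 0), (nat_lit 0), (nat_lit 2819060), (nat_lit 6829882)]) (PF.cons (PF.leaf (nat_lit 6948003) (nat_lit 289536) (nat_lit 36269047) (nat_lit 18083615) [(nat_lit 289536), (nat_lit 0), (nat_lit 2823390), (nat_lit 6819833)]) (PF.cons
 PF.nil PF.nil))) (PF.cons (PF.cons (PF.leaf (nat_lit 7313718) (nat_lit 1194182) (nat_lit 35615889) (nat_lit 17857499) [(nat_lit 0), (nat_lit 1194182), (nat_lit 2828974), (nat_lit 6783293)]) PF.nil) PF.nil)) (PF.cons PF.nil (PF.cons PF.nil PF.nil))))) (PF.cons (PF.cons (PF.cons (PF.cons (PF.leaf (nat_lit 6459009) (nat_lit 6725932) (nat_lit 35782503) (nat_lit 17874443) [(nat_lit 0), (nat_lit 0), (nat_lit 0), (nat_lit 6725932)]) (PF.cons (PF.leaf (nat_lit 6624462) (nat_lit 267891) (nat_lit 35595460)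 (nat_lit 17810333) [(nat_lit 267891), (nat_lit 0), (nat_lit 0), (nat_lit 6717563)]) (PF.cons (PF.leaf (nat_lit 6800204) (nat_lit 275061) (nat_lit 35399289) (nat_lit 17742717) [(nat_lit 275061), (nat_lit 0), (nat_lit 0), (nat_lit 6708341)]) (PF.cons (PF.leaf (nat_lit 6983278) (nat_lit 281404) (nat_lit 35195808) (nat_lit 17672174) [(nat_lit 281404), (nat_lit 0), (nat_lit 0), (nat_lit 6698308)]) (PF.cons PF.nil PF.nil))))) (PF.cons (PF.cons (PF.leaf (nat_lit 6975164) (nat_lit 1152760) (nat_lit 34988652) (nat_lit 17598406) [(nat_lit 0), (nat_lit 1152760), (nat_lit 0), (nat_lit 6684496)]) (PF.cons (PF.leaf (nat_lit 7153708) (nat_lit 283510) (nat_lit 34789205) (nat_lit 17528457) [(nat_lit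
 283510), (nat_lit 1160036), (nat_lit 0), (nat_lit 6673801)]) (PF.cons PF.nil (PF.cons PF.nil PF.nil)))) (PF.cons (PF.cons (PF.leaf (nat_lit 7508581) (nat_lit 1172122) (nat_lit 34181716) (nat_lit 17311503) [(nat_lit 0), (nat_lit 1172122), (nat_lit 0), (nat_lit 6635674)]) (PF.cons PF.nil PF.nil)) PF.nil))) (PF.cons (PF.cons (PF.cons (PF.leaf (nat_lit 7405110) (nat_lit 2763076) (nat_lit 33920462) (nat_lit 17211032) [(nat_lit 0), (nat_lit 0), (nat_lit 2763076), (nat_lit 6607121)]) (PF.cons (PF.leaf (nat_lit 7583650) (nat_lit 287226) (nat_lit 33725753) (nat_lit 17140811) [(nat_lit 287226), (nat_lit 0), (nat_lit 2765350), (nat_lit 6594835)]) PF.nil)) (PF.cons PF.nil PF.nil)) (PF.cons PF.nil PF.nil))) (PF.cons (PF.cons (PF.cons (PF.cons (PF.leaf (nat_lit 7993985) (nat_lit 6378511) (nat_lit 31644492) (nat_lit 16328787) [(nat_lit 0), (nat_lit 0), (nat_lit 0), (nat_lit 6378511)]) (PF.cons PF.nil PF.nil)) (PF.cons PF.nil PF.nil)) (PF.cons PF.nil PF.nil)) (PF.cons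 PF.nil (PF.cons PF.nil PF.nil))))))

def p14_8_3_0 : pfC (piC [(nat_lit 43428061), (nat_lit 27333682), (nat_lit 20249535), (nat_lit 13586793)] (nat_lit 4796502)) p14_8_3 (nat_lit 4) (nat_lit 0) (nat_lit 1) = true := by decide +kernel
def p14_8_3_1 : pfC (piC [(nat_lit 43428061), (nat_lit 27333682), (nat_lit 20249535), (nat_lit 13586793)] (nat_lit 4796502)) p14_8_3 (nat_lit 4) (nat_lit 1) (nat_lit 2) = true := by decide +kernel
def p14_8_3_2 : pfC (piC [(nat_lit 43428061), (nat_lit 27333682), (nat_lit 20249535), (nat_lit 13586793)] (nat_lit 4796502)) p14_8_3 (nat_lit 4) (nat_lit 2) (nat_lit 3) = true := by decide +kernel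
def p14_8_3_3 : pfC (piC [(nat_lit 43428061), (nat_lit 27333682), (nat_lit 20249535), (nat_lit 13586793)] (nat_lit 4796502)) p14_8_3 (nat_lit 4) (nat_lit 3) (nat_lit 4) = true := by decide +kernel
def p14_8_3_4 : pfC (piC [(nat_lit 43428061), (nat_lit 27333682), (nat_lit 20249535), (nat_lit 13586793)] (nat_lit 4796502)) p14_8_3 (nat_lit 4) (nat_lit 4) (nat_lit 5) = true := by decide +kernel
def p14_8_3_5 : pfC (piC [(nat_lit 43428061), (nat_lit 27333682), (nat_lit 20249535), (nat_lit 13586793)] (nat_lit 4796502)) p14_8_3 (nat_lit 4) (nat_lit 5) (nat_lit 6) = true := by decide +kernel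
def p14_8_3_6 : pfC (piC [(nat_lit 43428061), (nat_lit 27333682), (nat_lit 20249535), (nat_lit 13586793)] (nat_lit 4796502)) p14_8_3 (nat_lit 4) (nat_lit 6) (nat_lit 7) = true := by decide +kernel
def p14_8_3_7 : pfC (piC [(nat_lit 43428061), (nat_lit 27333682), (nat_lit 20249535), (nat_lit 13586793)] (nat_lit 4796502)) p14_8_3 (nat_lit 4) (nat_lit 7) (nat_lit 8) = true := by decide +kernel
def p14_8_3_8 : pfC (piC [(nat_lit 43428061), (nat_lit 27333682), (nat_lit 20249535), (nat_lit 13586793)] (nat_lit 4796502)) p14_8_3 (nat_lit 4) (nat_lit 8) (nat_lit 9) = true := by decide +kernel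
def p14_8_3_9 : pfC (piC [(nat_lit 43428061), (nat_lit 27333682), (nat_lit 20249535), (nat_lit 13586793)] (nat_lit 4796502)) p14_8_3 (nat_lit 4) (nat_lit 9) (nat_lit 10) = true := by decide +kernel
def p14_8_3_10 : pfC (piC [(nat_lit 43428061), (nat_lit 27333682), (nat_lit 20249535), (nat_lit 13586793)] (nat_lit 4796502)) p14_8_3 (nat_lit 4) (nat_lit 10) (nat_lit 11) = true := by decide +kernel
def p14_8_3_11 : pfC (piC [(nat_lit 43428061), (nat_lit 27333682), (nat_lit 20249535), (nat_lit 13586793)] (nat_lit 4796502)) p14_8_3 (nat_lit 4) (nat_lit 11) (nat_lit 12) = true := by decide +kernel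
def p14_8_3_12 : pfC (piC [(nat_lit 43428061), (nat_lit 27333682), (nat_lit 20249535), (nat_lit 13586793)] (nat_lit 4796502)) p14_8_3 (nat_lit 4) (nat_lit 12) (nat_lit 13) = true := by decide +kernel
def p14_8_3_13 : pfC (piC [(nat_lit 43428061), (nat_lit 27333682), (nat_lit 20249535), (nat_lit 13586793)] (nat_lit 4796502)) p14_8_3 (nat_lit 4) (nat_lit 13) (nat_lit 14) = true := by decide +kernel
def p14_8_3_14 : pfC (piC [(nat_lit 43428061), (nat_lit 27333682), (nat_lit 20249535), (nat_lit 13586793)] (nat_lit 4796502)) p14_8_3 (nat_lit 4) (nat_lit 14) (nat_lit 15) = true := by decide +kernel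
def p14_8_3_15 : pfC (piC [(nat_lit 43428061), (nat_lit 27333682), (nat_lit 20249535), (nat_lit 13586793)] (nat_lit 4796502)) p14_8_3 (nat_lit 4) (nat_lit 15) (nat_lit 16) = true := by decide +kernel
def p14_8_3_16 : pfC (piC [(nat_lit 43428061), (nat_lit 27333682), (nat_lit 20249535), (nat_lit 13586793)] (nat_lit 4796502)) p14_8_3 (nat_lit 4) (nat_lit 16) (nat_lit 17) = true := by decide +kernel
def p14_8_3_17 : pfC (piC [(nat_lit 43428061), (nat_lit 27333682), (nat_lit 20249535), (nat_lit 13586793)] (nat_lit 4796502)) p14_8_3 (nat_lit 4) (nat_lit 17) (nat_lit 18) = true := by decide +kernel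
def p14_8_3_18 : pfC (piC [(nat_lit 43428061), (nat_lit 27333682), (nat_lit 20249535), (nat_lit 13586793)] (nat_lit 4796502)) p14_8_3 (nat_lit 4) (nat_lit 18) (nat_lit 19) = true := by decide +kernel
def p14_8_3_19 : pfC (piC [(nat_lit 43428061), (nat_lit 27333682), (nat_lit 20249535), (nat_lit 13586793)] (nat_lit 4796502)) p14_8_3 (nat_lit 4) (nat_lit 19) (nat_lit 20) = true := by decide +kernel
def p14_8_3_20 : pfC (piC [(nat_lit 43428061), (nat_lit 27333682), (nat_lit 20249535), (nat_lit 13586793)] (nat_lit 4796502)) p14_8_3 (nat_lit 4) (nat_lit 20) (nat_lit 21) = true := by decide +kernel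
def p14_8_3_21 : pfC (piC [(nat_lit 43428061), (nat_lit 27333682), (nat_lit 20249535), (nat_lit 13586793)] (nat_lit 4796502)) p14_8_3 (nat_lit 4) (nat_lit 21) (nat_lit 22) = true := by decide +kernel
def p14_8_3_22 : pfC (piC [(nat_lit 43428061), (nat_lit 27333682), (nat_lit 20249535), (nat_lit 13586793)] (nat_lit 4796502)) p14_8_3 (nat_lit 4) (nat_lit 22) (nat_lit 23) = true := by decide +kernel
def p14_8_3_23 : pfC (piC [(nat_lit 43428061), (nat_lit 27333682), (nat_lit 20249535), (nat_lit 13586793)] (nat_lit 4796502)) p14_8_3 (nat_lit 4) (nat_lit 23) (nat_lit 24) = true := by decide +kernel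
def p14_8_3_24 : pfC (piC [(nat_lit 43428061), (nat_lit 27333682), (nat_lit 20249535), (nat_lit 13586793)] (nat_lit 4796502)) p14_8_3 (nat_lit 4) (nat_lit 24) (nat_lit 25) = true := by decide +kernel
def p14_8_3_25 : pfC (piC [(nat_lit 43428061), (nat_lit 27333682), (nat_lit 20249535), (nat_lit 13586793)] (nat_lit 4796502)) p14_8_3 (nat_lit 4) (nat_lit 25) (nat_lit 26) = true := by decide +kernel
def p14_8_3_26 : pfC (piC [(nat_lit 43428061), (nat_lit 27333682), (nat_lit 20249535), (nat_lit 13586793)] (nat_lit 4796502)) p14_8_3 (nat_lit 4) (nat_lit 26) (nat_lit 27) = true := by decide +kernel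
def p14_8_3_27 : pfC (piC [(nat_lit 43428061), (nat_lit 27333682), (nat_lit 20249535), (nat_lit 13586793)] (nat_lit 4796502)) p14_8_3 (nat_lit 4) (nat_lit 27) (nat_lit 28) = true := by decide +kernel
def p14_8_3_28 : pfC (piC [(nat_lit 43428061), (nat_lit 27333682), (nat_lit 20249535), (nat_lit 13586793)] (nat_lit 4796502)) p14_8_3 (nat_lit 4) (nat_lit 28) (nat_lit 29) = true := by decide +kernel
def p14_8_3_29 : pfC (piC [(nat_lit 43428061), (nat_lit 27333682), (nat_lit 20249535), (nat_lit 13586793)] (nat_lit 4796502)) p14_8_3 (nat_lit 4) (nat_lit 29) (nat_lit 30) = true := by decide +kernel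
def p14_8_3_30 : pfC (piC [(nat_lit 43428061), (nat_lit 27333682), (nat_lit 20249535), (nat_lit 13586793)] (nat_lit 4796502)) p14_8_3 (nat_lit 4) (nat_lit 30) (nat_lit 31) = true := by decide +kernel
def p14_8_3_31 : pfC (piC [(nat_lit 43428061), (nat_lit 27333682), (nat_lit 20249535), (nat_lit 13586793)] (nat_lit 4796502)) p14_8_3 (nat_lit 4) (nat_lit 31) (nat_lit 32) = true := by decide +kernel
def p14_8_3_32 : pfC (piC [(nat_lit 43428061), (nat_lit 27333682), (nat_lit 20249535), (nat_lit 13586793)] (nat_lit 4796502)) p14_8_3 (nat_lit 4) (nat_lit 32) (nat_lit 33) = true := by decide +kernel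
def p14_8_3_33 : pfC (piC [(nat_lit 43428061), (nat_lit 27333682), (nat_lit 20249535), (nat_lit 13586793)] (nat_lit 4796502)) p14_8_3 (nat_lit 4) (nat_lit 33) (nat_lit 34) = true := by decide +kernel
def p14_8_3_34 : pfC (piC [(nat_lit 43428061), (nat_lit 27333682), (nat_lit 20249535), (nat_lit 13586793)] (nat_lit 4796502)) p14_8_3 (nat_lit 4) (nat_lit 34) (nat_lit 35) = true := by decide +kernel
def p14_8_3_35 : pfC (piC [(nat_lit 43428061), (nat_lit 27333682), (nat_lit 20249535), (nat_lit 13586793)] (nat_lit 4796502)) p14_8_3 (nat_lit 4) (nat_lit 35) (nat_lit 36) = true := by decide +kernel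
def p14_8_3_36 : pfC (piC [(nat_lit 43428061), (nat_lit 27333682), (nat_lit 20249535), (nat_lit 13586793)] (nat_lit 4796502)) p14_8_3 (nat_lit 4) (nat_lit 36) (nat_lit 37) = true := by decide +kernel
def p14_8_3_37 : pfC (piC [(nat_lit 43428061), (nat_lit 27333682), (nat_lit 20249535), (nat_lit 13586793)] (nat_lit 4796502)) p14_8_3 (nat_lit 4) (nat_lit 37) (nat_lit 38) = true := by decide +kernel
def p14_8_3_38 : pfC (piC [(nat_lit 43428061), (nat_lit 27333682), (nat_lit 20249535), (nat_lit 13586793)] (nat_lit 4796502)) p14_8_3 (nat_lit 4) (nat_lit 38) (nat_lit 39) = true := by decide +kernel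
def p14_8_3_39 : pfC (piC [(nat_lit 43428061), (nat_lit 27333682), (nat_lit 20249535), (nat_lit 13586793)] (nat_lit 4796502)) p14_8_3 (nat_lit 4) (nat_lit 39) (nat_lit 40) = true := by decide +kernel
def p14_8_3_40 : pfC (piC [(nat_lit 43428061), (nat_lit 27333682), (nat_lit 20249535), (nat_lit 13586793)] (nat_lit 4796502)) p14_8_3 (nat_lit 4) (nat_lit 40) (nat_lit 41) = true := by decide +kernel
def p14_8_3_41 : pfC (piC [(nat_lit 43428061), (nat_lit 27333682), (nat_lit 20249535), (nat_lit 13586793)] (nat_lit 4796502)) p14_8_3 (nat_lit 4) (nat_lit 41) (nat_lit 42) = true := by decide +kernel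
def p14_8_3_42 : pfC (piC [(nat_lit 43428061), (nat_lit 27333682), (nat_lit 20249535), (nat_lit 13586793)] (nat_lit 4796502)) p14_8_3 (nat_lit 4) (nat_lit 42) (nat_lit 43) = true := by decide +kernel
def p14_8_3_43 : pfC (piC [(nat_lit 43428061), (nat_lit 27333682), (nat_lit 20249535), (nat_lit 13586793)] (nat_lit 4796502)) p14_8_3 (nat_lit 4) (nat_lit 43) (nat_lit 44) = true := by decide +kernel
def p14_8_3_44 : pfC (piC [(nat_lit 43428061), (nat_lit 27333682), (nat_lit 20249535), (nat_lit 13586793)] (nat_lit 4796502)) p14_8_3 (nat_lit 4) (nat_lit 44) (nat_lit 45) = true := by decide +kernel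
def p14_8_3_45 : pfC (piC [(nat_lit 43428061), (nat_lit 27333682), (nat_lit 20249535), (nat_lit 13586793)] (nat_lit 4796502)) p14_8_3 (nat_lit 4) (nat_lit 45) (nat_lit 46) = true := by decide +kernel
def p14_8_3_46 : pfC (piC [(nat_lit 43428061), (nat_lit 27333682), (nat_lit 20249535), (nat_lit 13586793)] (nat_lit 4796502)) p14_8_3 (nat_lit 4) (nat_lit 46) (nat_lit 47) = true := by decide +kernel
def p14_8_3_47 : pfC (piC [(nat_lit 43428061), (nat_lit 27333682), (nat_lit 20249535), (nat_lit 13586793)] (nat_lit 4796502)) p14_8_3 (nat_lit 4) (nat_lit 47) (nat_lit 48) = true := by decide +kernel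
def p14_8_3_48 : pfC (piC [(nat_lit 43428061), (nat_lit 27333682), (nat_lit 20249535), (nat_lit 13586793)] (nat_lit 4796502)) p14_8_3 (nat_lit 4) (nat_lit 48) (nat_lit 49) = true := by decide +kernel
def p14_8_3_49 : pfC (piC [(nat_lit 43428061), (nat_lit 27333682), (nat_lit 20249535), (nat_lit 13586793)] (nat_lit 4796502)) p14_8_3 (nat_lit 4) (nat_lit 49) (nat_lit 50) = true := by decide +kernel
def p14_8_3_50 : pfC (piC [(nat_lit 43428061), (nat_lit 27333682), (nat_lit 20249535), (nat_lit 13586793)] (nat_lit 4796502)) p14_8_3 (nat_lit 4) (nat_lit 50) (nat_lit 51) = true := by decide +kernel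
def p14_8_3_51 : pfC (piC [(nat_lit 43428061), (nat_lit 27333682), (nat_lit 20249535), (nat_lit 13586793)] (nat_lit 4796502)) p14_8_3 (nat_lit 4) (nat_lit 51) (nat_lit 52) = true := by decide +kernel
def p14_8_3_52 : pfC (piC [(nat_lit 43428061), (nat_lit 27333682), (nat_lit 20249535), (nat_lit 13586793)] (nat_lit 4796502)) p14_8_3 (nat_lit 4) (nat_lit 52) (nat_lit 53) = true := by decide +kernel
def p14_8_3_53 : pfC (piC [(nat_lit 43428061), (nat_lit 27333682), (nat_lit 20249535), (nat_lit 13586793)] (nat_lit 4796502)) p14_8_3 (nat_lit 4) (nat_lit 53) (nat_lit 54) = true := by decide +kernel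
def p14_8_3_54 : pfC (piC [(nat_lit 43428061), (nat_lit 27333682), (nat_lit 20249535), (nat_lit 13586793)] (nat_lit 4796502)) p14_8_3 (nat_lit 4) (nat_lit 54) (nat_lit 55) = true := by decide +kernel
def p14_8_3_55 : pfC (piC [(nat_lit 43428061), (nat_lit 27333682), (nat_lit 20249535), (nat_lit 13586793)] (nat_lit 4796502)) p14_8_3 (nat_lit 4) (nat_lit 55) (nat_lit 56) = true := by decide +kernel
def p14_8_3_56 : pfC (piC [(nat_lit 43428061), (nat_lit 27333682), (nat_lit 20249535), (nat_lit 13586793)] (nat_lit 4796502)) p14_8_3 (nat_lit 4) (nat_lit 56) (nat_lit 57) = true := by decide +kernel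
def p14_8_3_57 : pfC (piC [(nat_lit 43428061), (nat_lit 27333682), (nat_lit 20249535), (nat_lit 13586793)] (nat_lit 4796502)) p14_8_3 (nat_lit 4) (nat_lit 57) (nat_lit 58) = true := by decide +kernel
def p14_8_3_58 : pfC (piC [(nat_lit 43428061), (nat_lit 27333682), (nat_lit 20249535), (nat_lit 13586793)] (nat_lit 4796502)) p14_8_3 (nat_lit 4) (nat_lit 58) (nat_lit 59) = true := by decide +kernel
def p14_8_3_59 : pfC (piC [(nat_lit 43428061), (nat_lit 27333682), (nat_lit 20249535), (nat_lit 13586793)] (nat_lit 4796502)) p14_8_3 (nat_lit 4) (nat_lit 59) (nat_lit 60) = true := by decide +kernel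
def p14_8_3_60 : pfC (piC [(nat_lit 43428061), (nat_lit 27333682), (nat_lit 20249535), (nat_lit 13586793)] (nat_lit 4796502)) p14_8_3 (nat_lit 4) (nat_lit 60) (nat_lit 61) = true := by decide +kernel
def p14_8_3_61 : pfC (piC [(nat_lit 43428061), (nat_lit 27333682), (nat_lit 20249535), (nat_lit 13586793)] (nat_lit 4796502)) p14_8_3 (nat_lit 4) (nat_lit 61) (nat_lit 62) = true := by decide +kernel
def p14_8_3_62 : pfC (piC [(nat_lit 43428061), (nat_lit 27333682), (nat_lit 20249535), (nat_lit 13586793)] (nat_lit 4796502)) p14_8_3 (nat_lit 4) (nat_lit 62) (nat_lit 63) = true := by decide +kernel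
def p14_8_3_63 : pfC (piC [(nat_lit 43428061), (nat_lit 27333682), (nat_lit 20249535), (nat_lit 13586793)] (nat_lit 4796502)) p14_8_3 (nat_lit 4) (nat_lit 63) (nat_lit 64) = true := by decide +kernel
def p14_8_3_64 : pfC (piC [(nat_lit 43428061), (nat_lit 27333682), (nat_lit 20249535), (nat_lit 13586793)] (nat_lit 4796502)) p14_8_3 (nat_lit 4) (nat_lit 64) (nat_lit 65) = true := by decide +kernel
def p14_8_3_65 : pfC (piC [(nat_lit 43428061), (nat_lit 27333682), (nat_lit 20249535), (nat_lit 13586793)] (nat_lit 4796502)) p14_8_3 (nat_lit 4) (nat_lit 65) (nat_lit 66) = true := by decide +kernel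
def p14_8_3_66 : pfC (piC [(nat_lit 43428061), (nat_lit 27333682), (nat_lit 20249535), (nat_lit 13586793)] (nat_lit 4796502)) p14_8_3 (nat_lit 4) (nat_lit 66) (nat_lit 67) = true := by decide +kernel
def p14_8_3_67 : pfC (piC [(nat_lit 43428061), (nat_lit 27333682), (nat_lit 20249535), (nat_lit 13586793)] (nat_lit 4796502)) p14_8_3 (nat_lit 4) (nat_lit 67) (nat_lit 68) = true := by decide +kernel
def p14_8_3_68 : pfC (piC [(nat_lit 43428061), (nat_lit 27333682), (nat_lit 20249535), (nat_lit 13586793)] (nat_lit 4796502)) p14_8_3 (nat_lit 4) (nat_lit 68) (nat_lit 69) = true := by decide +kernel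
def p14_8_3_69 : pfC (piC [(nat_lit 43428061), (nat_lit 27333682), (nat_lit 20249535), (nat_lit 13586793)] (nat_lit 4796502)) p14_8_3 (nat_lit 4) (nat_lit 69) (nat_lit 70) = true := by decide +kernel
def p14_8_3_70 : pfC (piC [(nat_lit 43428061), (nat_lit 27333682), (nat_lit 20249535), (nat_lit 13586793)] (nat_lit 4796502)) p14_8_3 (nat_lit 4) (nat_lit 70) (nat_lit 71) = true := by decide +kernel
def p14_8_3_71 : pfC (piC [(nat_lit 43428061), (nat_lit 27333682), (nat_lit 20249535), (nat_lit 13586793)] (nat_lit 4796502)) p14_8_3 (nat_lit 4) (nat_lit 71) (nat_lit 72) = true := by decide +kernel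
def p14_8_3_72 : pfC (piC [(nat_lit 43428061), (nat_lit 27333682), (nat_lit 20249535), (nat_lit 13586793)] (nat_lit 4796502)) p14_8_3 (nat_lit 4) (nat_lit 72) (nat_lit 73) = true := by decide +kernel
def p14_8_3_73 : pfC (piC [(nat_lit 43428061), (nat_lit 27333682), (nat_lit 20249535), (nat_lit 13586793)] (nat_lit 4796502)) p14_8_3 (nat_lit 4) (nat_lit 73) (nat_lit 74) = true := by decide +kernel
def p14_8_3_74 : pfC (piC [(nat_lit 43428061), (nat_lit 27333682), (nat_lit 20249535), (nat_lit 13586793)] (nat_lit 4796502)) p14_8_3 (nat_lit 4) (nat_lit 74) (nat_lit 75) = true := by decide +kernel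
def p14_8_3_75 : pfC (piC [(nat_lit 43428061), (nat_lit 27333682), (nat_lit 20249535), (nat_lit 13586793)] (nat_lit 4796502)) p14_8_3 (nat_lit 4) (nat_lit 75) (nat_lit 76) = true := by decide +kernel
def p14_8_3_76 : pfC (piC [(nat_lit 43428061), (nat_lit 27333682), (nat_lit 20249535), (nat_lit 13586793)] (nat_lit 4796502)) p14_8_3 (nat_lit 4) (nat_lit 76) (nat_lit 77) = true := by decide +kernel
def p14_8_3_77 : pfC (piC [(nat_lit 43428061), (nat_lit 27333682), (nat_lit 20249535), (nat_lit 13586793)] (nat_lit 4796502)) p14_8_3 (nat_lit 4) (nat_lit 77) (nat_lit 78) = true := by decide +kernel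
def p14_8_3_78 : pfC (piC [(nat_lit 43428061), (nat_lit 27333682), (nat_lit 20249535), (nat_lit 13586793)] (nat_lit 4796502)) p14_8_3 (nat_lit 4) (nat_lit 78) (nat_lit 79) = true := by decide +kernel
def p14_8_3_79 : pfC (piC [(nat_lit 43428061), (nat_lit 27333682), (nat_lit 20249535), (nat_lit 13586793)] (nat_lit 4796502)) p14_8_3 (nat_lit 4) (nat_lit 79) (nat_lit 80) = true := by decide +kernel
def p14_8_3_80 : pfC (piC [(nat_lit 43428061), (nat_lit 27333682), (nat_lit 20249535), (nat_lit 13586793)] (nat_lit 4796502)) p14_8_3 (nat_lit 4) (nat_lit 80) (nat_lit 81) = true := by decide +kernel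
def p14_8_3_81 : pfC (piC [(nat_lit 43428061), (nat_lit 27333682), (nat_lit 20249535), (nat_lit 13586793)] (nat_lit 4796502)) p14_8_3 (nat_lit 4) (nat_lit 81) (nat_lit 82) = true := by decide +kernel
def p14_8_3_82 : pfC (piC [(nat_lit 43428061), (nat_lit 27333682), (nat_lit 20249535), (nat_lit 13586793)] (nat_lit 4796502)) p14_8_3 (nat_lit 4) (nat_lit 82) (nat_lit 83) = true := by decide +kernel
def p14_8_3_83 : pfC (piC [(nat_lit 43428061), (nat_lit 27333682), (nat_lit 20249535), (nat_lit 13586793)] (nat_lit 4796502)) p14_8_3 (nat_lit 4) (nat_lit 83) (nat_lit 84) = true := by decide +kernel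
def p14_8_3_84 : pfC (piC [(nat_lit 43428061), (nat_lit 27333682), (nat_lit 20249535), (nat_lit 13586793)] (nat_lit 4796502)) p14_8_3 (nat_lit 4) (nat_lit 84) (nat_lit 85) = true := by decide +kernel
def p14_8_3_85 : pfC (piC [(nat_lit 43428061), (nat_lit 27333682), (nat_lit 20249535), (nat_lit 13586793)] (nat_lit 4796502)) p14_8_3 (nat_lit 4) (nat_lit 85) (nat_lit 86) = true := by decide +kernel
def p14_8_3_86 : pfC (piC [(nat_lit 43428061), (nat_lit 27333682), (nat_lit 20249535), (nat_lit 13586793)] (nat_lit 4796502)) p14_8_3 (nat_lit 4) (nat_lit 86) (nat_lit 87) = true := by decide +kernel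
def p14_8_3_87 : pfC (piC [(nat_lit 43428061), (nat_lit 27333682), (nat_lit 20249535), (nat_lit 13586793)] (nat_lit 4796502)) p14_8_3 (nat_lit 4) (nat_lit 87) (nat_lit 88) = true := by decide +kernel
theorem p14_8_3_T : PfS (PiF n14_8.reverse (nat_lit 4796502)) p14_8_3 (nat_lit 4) [] 0 :=
  pftab_of (los := [(nat_lit 43428061), (nat_lit 27333682), (nat_lit 20249535), (nat_lit 13586793)]) (by decide +kernel) (hi := (nat_lit 88)) (PfP.trans (PfP.trans (PfP.trans (PfP.trans (PfP.trans (PfP.trans (PfP.trans (PfP.trans (PfP.trans (PfP.trans (PfP.trans (PfP.trans (PfP.trans (PfP.trans (PfP.trans (PfP.trans (PfP.trans (PfP.trans (PfP.trans (PfP.trans (PfP.trans (PfP.trans (PfP.trans (PfP.trans (PfP.trans (PfP.trans (PfP.trans (PfP.trans (PfP.trans (PfP.trans (PfP.trans (PfP.trans (PfP.trans (PfP.trans (PfP.trans (PfP.trans (PfP.trans (PfP.trans (PfP.trans (PfP.trans (PfP.trans (PfP.trans (PfP.trans (PfP.trans (PfP.trans (PfP.trans (PfP.trans (PfP.trans (PfP.trans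 (PfP.trans (PfP.trans (PfP.trans (PfP.trans (PfP.trans (PfP.trans (PfP.trans (PfP.trans (PfP.trans (PfP.trans (PfP.trans (PfP.trans (PfP.trans (PfP.trans (PfP.trans (PfP.trans (PfP.trans (PfP.trans (PfP.trans (PfP.trans (PfP.trans (PfP.trans (PfP.trans (PfP.trans (PfP.trans (PfP.trans (PfP.trans (PfP.trans (PfP.trans (PfP.trans (PfP.trans (PfP.trans (PfP.trans (PfP.trans (PfP.trans (PfP.trans (PfP.trans (PfP.trans (pfC_sound p14_8_3_0) (pfC_sound p14_8_3_1)) (pfC_sound p14_8_3_2)) (pfC_sound p14_8_3_3)) (pfC_sound p14_8_3_4)) (pfC_sound p14_8_3_5)) (pfC_sound p14_8_3_6)) (pfC_sound p14_8_3_7)) (pfC_sound p14_8_3_8)) (pfC_sound p14_8_3_9)) (pfC_sound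
 p14_8_3_10)) (pfC_sound p14_8_3_11)) (pfC_sound p14_8_3_12)) (pfC_sound p14_8_3_13)) (pfC_sound p14_8_3_14)) (pfC_sound p14_8_3_15)) (pfC_sound p14_8_3_16)) (pfC_sound p14_8_3_17)) (pfC_sound p14_8_3_18)) (pfC_sound p14_8_3_19)) (pfC_sound p14_8_3_20)) (pfC_sound p14_8_3_21)) (pfC_sound p14_8_3_22)) (pfC_sound p14_8_3_23)) (pfC_sound p14_8_3_24)) (pfC_sound p14_8_3_25)) (pfC_sound p14_8_3_26)) (pfC_sound p14_8_3_27)) (pfC_sound p14_8_3_28)) (pfC_sound p14_8_3_29)) (pfC_sound p14_8_3_30)) (pfC_sound p14_8_3_31)) (pfC_sound p14_8_3_32)) (pfC_sound p14_8_3_33)) (pfC_sound p14_8_3_34)) (pfC_sound p14_8_3_35)) (pfC_sound p14_8_3_36)) (pfC_sound p14_8_3_37)) (pfC_sound p14_8_3_38)) (pfC_sound p14_8_3_39)) (pfC_sound p14_8_3_40)) (pfC_sound p14_8_3_41)) (pfC_sound p14_8_3_42)) (pfC_sound p14_8_3_43)) (pfC_sound p14_8_3_44)) (pfC_sound p14_8_3_45)) (pfC_sound p14_8_3_46)) (pfC_sound p14_8_3_47)) (pfC_sound p14_8_3_48)) (pfC_sound p14_8_3_49)) (pfC_sound p14_8_3_50))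 (pfC_sound p14_8_3_51)) (pfC_sound p14_8_3_52)) (pfC_sound p14_8_3_53)) (pfC_sound p14_8_3_54)) (pfC_sound p14_8_3_55)) (pfC_sound p14_8_3_56)) (pfC_sound p14_8_3_57)) (pfC_sound p14_8_3_58)) (pfC_sound p14_8_3_59)) (pfC_sound
 p14_8_3_60)) (pfC_sound p14_8_3_61)) (pfC_sound p14_8_3_62)) (pfC_sound p14_8_3_63)) (pfC_sound p14_8_3_64)) (pfC_sound p14_8_3_65)) (pfC_sound p14_8_3_66)) (pfC_sound p14_8_3_67)) (pfC_sound p14_8_3_68)) (pfC_sound p14_8_3_69)) (pfC_sound p14_8_3_70)) (pfC_sound p14_8_3_71)) (pfC_sound p14_8_3_72)) (pfC_sound p14_8_3_73)) (pfC_sound p14_8_3_74)) (pfC_sound p14_8_3_75)) (pfC_sound p14_8_3_76)) (pfC_sound p14_8_3_77)) (pfC_sound p14_8_3_78)) (pfC_sound p14_8_3_79)) (pfC_sound p14_8_3_80)) (pfC_sound p14_8_3_81)) (pfC_sound p14_8_3_82)) (pfC_sound p14_8_3_83)) (pfC_sound p14_8_3_84)) (pfC_sound p14_8_3_85)) (pfC_sound p14_8_3_86)) (pfC_sound p14_8_3_87)) (by decide +kernel)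

def z14_8_3 : zOK yB14_8 (nat_lit 3) (nat_lit 750) (nat_lit 922) (nat_lit 4796502) (nat_lit 3038116) = true := by decide +kernel
def g14_8_3 : gOK yB14_8.x P14_8 (nat_lit 1432) (q14_8 :: r14_8) (nat_lit 3) (nat_lit 750) (nat_lit 4) (nat_lit 922) (nat_lit 12712500) (nat_lit 12712500) (nat_lit 12712500) (nat_lit 12712500) [(nat_lit 800)] = true := by decide +kernel
def v14_8_3 : ivC P14_8 s14_8 w14_8 n14_8 (nat_lit 4) (nat_lit 4750) (nat_lit 3) (nat_lit 750) f136_1_750 f144_1_750 (nat_lit 4) (nat_lit 922) f136_1_922 f144_1_922 (nat_lit 4796502) (nat_lit 3038116) p14_8_3 = true := by decide +kernel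
/-! box `yB14_9` -/

def P14_9 : BQ := ⟨(nat_lit 8), (nat_lit 8), (nat_lit 0), (nat_lit 4), (nat_lit 4), (nat_lit 720), (nat_lit 740), (nat_lit 120), [(nat_lit 200), (nat_lit 300), (nat_lit 450), (nat_lit 800)], (nat_lit 84848000), (nat_lit 16000000), (nat_lit 16000000000)⟩
def q14_9 : PC := ⟨(nat_lit 1000), [(nat_lit 120000), (nat_lit 200000), (nat_lit 300000), (nat_lit 450000), (nat_lit 800000)], (nat_lit 340282367000166625996085689103316680705000000), (nat_lit 15915152000000), (nat_lit 15915152000000), (nat_lit 10000000)⟩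
def r14_9 : List PC := [⟨(nat_lit 1320), [(nat_lit 120569), (nat_lit 201069), (nat_lit 301587), (nat_lit 451828), (nat_lit 799769)], (nat_lit 342341075320562160310668774363292791724789120), (nat_lit 16320123980800), (nat_lit 16331962291200), (nat_lit 10053450)⟩]
def s14_9 : List PB := [⟨(nat_lit 26400), (nat_lit 1929104000000), [(nat_lit 201069), (nat_lit 301587), (nat_lit 451828), (nat_lit 799769)], (nat_lit 342341075320562160310668774363292791724789120), (nat_lit 1142220030823424), (nat_lit 1142231869133824), (nat_lit 51200)⟩]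
def n14_9 : List KN := [⟨(nat_lit 800), (nat_lit 450), (nat_lit 13470738), (nat_lit 6558515)⟩, ⟨(nat_lit 450), (nat_lit 300), (nat_lit 20024807), (nat_lit 13470738)⟩, ⟨(nat_lit 300), (nat_lit 200), (nat_lit 27030628), (nat_lit 20024807)⟩, ⟨(nat_lit 200), (nat_lit 120), (nat_lit 42686981), (nat_lit 27030628)⟩]
def w14_9 : List ℕ := [(nat_lit 51200)]
def par14_9 : parC yB14_9 P14_9 s14_9 r14_9 q14_9 n14_9 w14_9 = true := by decide +kernel

def p14_9_0 : PF := (PF.cons (PF.cons (PF.cons (PF.cons (PF.leaf (nat_lit 554176) (nat_lit 1567678) (nat_lit 65541134) (nat_lit 1567678) [(nat_lit 0), (nat_lit 0), (nat_lit 0), (nat_lit 0)]) (PF.cons (PF.leaf (nat_lit 647407) (nat_lit 140801) (nat_lit 65361387) (nat_lit 1606623) [(nat_lit 140801), (nat_lit 0), (nat_lit 0), (nat_lit 0)]) (PF.cons (PF.leaf (nat_lit 765833) (nat_lit 155923) (nat_lit 65146742) (nat_lit 1650223) [(nat_lit 155923), (nat_lit 0), (nat_lit 0), (nat_lit 0)]) (PF.cons (PF.leaf (nat_lit 901445)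 (nat_lit 170224) (nat_lit 64901358) (nat_lit 1696781) [(nat_lit 170224), (nat_lit 0), (nat_lit 0), (nat_lit 0)]) (PF.cons (PF.leaf (nat_lit 1053627) (nat_lit 183908) (nat_lit 64628045) (nat_lit 1745134) [(nat_lit 183908), (nat_lit 0), (nat_lit 0), (nat_lit 0)]) (PF.cons (PF.leaf (nat_lit 1220961) (nat_lit 197085) (nat_lit 64328946) (nat_lit 1794438) [(nat_lit 197085), (nat_lit 0), (nat_lit 0), (nat_lit 0)]) (PF.cons (PF.leaf (nat_lit 1402523) (nat_lit 209818) (nat_lit 64005834) (nat_lit 1844066) [(nat_lit 209818), (nat_lit 0), (nat_lit 0), (nat_lit 0)]) (PF.cons PF.nil (PF.cons PF.nil PF.nil))))))))) (PF.cons (PF.cons (PF.leaf (nat_lit 979570) (nat_lit 841572) (nat_lit 64516010) (nat_lit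
 1751229) [(nat_lit 0), (nat_lit 841572), (nat_lit 0), (nat_lit 0)]) (PF.cons (PF.leaf (nat_lit 1116140) (nat_lit 185791) (nat_lit 64257579) (nat_lit 1793400) [(nat_lit 185791), (nat_lit 872041), (nat_lit 0), (nat_lit 0)]) (PF.cons (PF.leaf (nat_lit 1272989) (nat_lit 199130) (nat_lit 63969522) (nat_lit 1837595) [(nat_lit 199130), (nat_lit 903433), (nat_lit 0), (nat_lit 0)]) (PF.cons (PF.leaf (nat_lit 1445209) (nat_lit 211898) (nat_lit 63655067) (nat_lit 1882879) [(nat_lit 211898), (nat_lit 935168), (nat_lit 0), (nat_lit 0)]) (PF.cons (PF.leaf (nat_lit 1632027) (nat_lit 224185) (nat_lit 63316616) (nat_lit 1928588) [(nat_lit 224185), (nat_lit 966865), (nat_lit 0), (nat_lit 0)]) (PF.cons (PF.leaf (nat_lit 1832151) (nat_lit 236041) (nat_lit 62956118) (nat_lit 1974227) [(nat_lit 236041), (nat_lit 998257), (nat_lit 0), (nat_lit 0)]) (PF.cons PF.nil PF.nil))))))) (PF.cons (PF.cons (PF.leaf (nat_lit 1503286) (nat_lit 958233) (nat_lit 63268612) (nat_lit 1923733)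 [(nat_lit 0), (nat_lit 958233), (nat_lit 0), (nat_lit 0)]) (PF.cons (PF.leaf (nat_lit 1676645) (nat_lit 225431) (nat_lit 62943864) (nat_lit 1965023) [(nat_lit 225431), (nat_lit 987246), (nat_lit 0), (nat_lit 0)]) (PF.cons (PF.leaf
 (nat_lit 1866763) (nat_lit 237374) (nat_lit 62594316) (nat_lit 2006913) [(nat_lit 237374), (nat_lit 1016417), (nat_lit 0), (nat_lit 0)]) (PF.cons (PF.leaf (nat_lit 2070587) (nat_lit 248839) (nat_lit 62222587) (nat_lit 2048859) [(nat_lit 248839), (nat_lit 1045424), (nat_lit 0), (nat_lit 0)]) (PF.cons PF.nil PF.nil))))) (PF.cons (PF.cons (PF.leaf (nat_lit 2108579) (nat_lit 1062539) (nat_lit 61841627) (nat_lit 2079568) [(nat_lit 0), (nat_lit 1062539), (nat_lit 0), (nat_lit 0)]) (PF.cons (PF.leaf (nat_lit 2312871) (nat_lit 260582) (nat_lit 61462582) (nat_lit 2117908) [(nat_lit 260582), (nat_lit 1089246), (nat_lit 0), (nat_lit 0)]) (PF.cons (PF.leaf (nat_lit 2531384) (nat_lit 271258) (nat_lit 61063202) (nat_lit 2156036) [(nat_lit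 271258), (nat_lit 1115685), (nat_lit 0), (nat_lit 0)]) (PF.cons PF.nil PF.nil)))) (PF.cons (PF.cons (PF.leaf (nat_lit 2779703) (nat_lit 1154327) (nat_lit 60274968) (nat_lit 2216533) [(nat_lit 0), (nat_lit 1154327), (nat_lit 0), (nat_lit 0)]) (PF.cons (PF.leaf (nat_lit 3009585) (nat_lit 291587) (nat_lit 59853166) (nat_lit 2250870) [(nat_lit 291587), (nat_lit 1178297), (nat_lit 0), (nat_lit 0)]) PF.nil)) (PF.cons PF.nil (PF.cons PF.nil (PF.cons PF.nil
 PF.nil)))))))) (PF.cons (PF.cons (PF.cons (PF.leaf (nat_lit 1552729) (nat_lit 1957894) (nat_lit 62533841) (nat_lit 1957894) [(nat_lit 0), (nat_lit 0), (nat_lit 2617077), (nat_lit 0)]) (PF.cons (PF.leaf (nat_lit 1707142) (nat_lit 216812) (nat_lit 62241534) (nat_lit 1993707) [(nat_lit 216812), (nat_lit 0), (nat_lit 2656758), (nat_lit 0)]) (PF.cons (PF.leaf (nat_lit 1880962) (nat_lit 229985) (nat_lit 61919541) (nat_lit 2031023) [(nat_lit 229985), (nat_lit 0), (nat_lit 2698277), (nat_lit 0)]) (PF.cons (PF.leaf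 (nat_lit 2069795) (nat_lit 242340) (nat_lit 61571992) (nat_lit 2069060) [(nat_lit 242340), (nat_lit 0), (nat_lit 2740738), (nat_lit 0)]) (PF.cons (PF.leaf (nat_lit 2272382) (nat_lit 254034) (nat_lit 61201907) (nat_lit 2107264) [(nat_lit 254034), (nat_lit 0), (nat_lit 2783501), (nat_lit 0)]) (PF.cons (PF.leaf (nat_lit 2487413) (nat_lit 265164) (nat_lit 60811673) (nat_lit 2145233) [(nat_lit 265164), (nat_lit 0), (nat_lit 2826085), (nat_lit 0)]) (PF.cons PF.nil PF.nil))))))) (PF.cons (PF.cons (PF.leaf (nat_lit 2119536) (nat_lit 1065966) (nat_lit 61163869) (nat_lit 2100677) [(nat_lit 0), (nat_lit 1065966), (nat_lit 2778299), (nat_lit 0)]) (PF.cons (PF.leaf (nat_lit 2307650) (nat_lit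
 253641) (nat_lit 60811753) (nat_lit 2135247) [(nat_lit 253641), (nat_lit 1091294), (nat_lit 2816874), (nat_lit 0)]) (PF.cons (PF.leaf (nat_lit 2511645) (nat_lit 265035) (nat_lit 60436110) (nat_lit 2170147) [(nat_lit 265035), (nat_lit 1116595), (nat_lit 2855888), (nat_lit 0)]) (PF.cons (PF.leaf (nat_lit 2728281) (nat_lit 275816) (nat_lit 60040019) (nat_lit 2204925) [(nat_lit 275816), (nat_lit 1141603), (nat_lit 2894814), (nat_lit 0)]) (PF.cons PF.nil PF.nil))))) (PF.cons (PF.cons (PF.leaf (nat_lit 2755989) (nat_lit 1154487) (nat_lit 59648886) (nat_lit 2228292) [(nat_lit 0), (nat_lit 1154487), (nat_lit 2922659), (nat_lit 0)]) (PF.cons (PF.leaf (nat_lit 2971639) (nat_lit 285516) (nat_lit 59250454) (nat_lit 2259947) [(nat_lit 285516), (nat_lit 1177457), (nat_lit 2957980), (nat_lit 0)]) (PF.cons (PF.leaf (nat_lit 3200354) (nat_lit 295452) (nat_lit 58833562) (nat_lit 2291273) [(nat_lit 295452), (nat_lit 1200067), (nat_lit 2992937), (nat_lit 0)]) (PF.cons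 PF.nil PF.nil)))) (PF.cons (PF.cons (PF.leaf (nat_lit 3446633) (nat_lit 1231428) (nat_lit 58028072) (nat_lit 2339003) [(nat_lit 0), (nat_lit 1231428), (nat_lit 3047451), (nat_lit 0)]) (PF.cons (PF.leaf (nat_lit 3684416) (nat_lit 313106)
 (nat_lit 57595082) (nat_lit 2366925) [(nat_lit 313106), (nat_lit 1251753), (nat_lit 3078437), (nat_lit 0)]) PF.nil)) (PF.cons PF.nil (PF.cons PF.nil PF.nil)))))) (PF.cons (PF.cons (PF.cons (PF.leaf (nat_lit 2744790) (nat_lit 2239776) (nat_lit 58987727) (nat_lit 2239776) [(nat_lit 0), (nat_lit 0), (nat_lit 2940654), (nat_lit 0)]) (PF.cons (PF.leaf (nat_lit 2943932) (nat_lit 277216) (nat_lit 58618586) (nat_lit 2268558) [(nat_lit 277216), (nat_lit 0), (nat_lit 2972225), (nat_lit 0)]) (PF.cons (PF.leaf (nat_lit 3158036) (nat_lit 288028) (nat_lit 58227392) (nat_lit 2297447) [(nat_lit 288028), (nat_lit 0), (nat_lit 3003957), (nat_lit 0)]) (PF.cons (PF.leaf (nat_lit 3383976) (nat_lit 298124) (nat_lit 57817524) (nat_lit 2326072)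 [(nat_lit 298124), (nat_lit 0), (nat_lit 3035420), (nat_lit 0)]) (PF.cons PF.nil PF.nil))))) (PF.cons (PF.cons (PF.leaf (nat_lit 3401387) (nat_lit 1227887) (nat_lit 57425404) (nat_lit 2343505) [(nat_lit 0), (nat_lit 1227887), (nat_lit 3056007), (nat_lit 0)]) (PF.cons (PF.leaf (nat_lit 3625050) (nat_lit 306036) (nat_lit 57017147) (nat_lit 2369407) [(nat_lit 306036), (nat_lit 1247549), (nat_lit 3084335), (nat_lit 0)]) (PF.cons (PF.leaf (nat_lit 3860682) (nat_lit
 315258) (nat_lit 56592240) (nat_lit 2394890) [(nat_lit 315258), (nat_lit 1266784), (nat_lit 3112190), (nat_lit 0)]) (PF.cons PF.nil PF.nil)))) (PF.cons (PF.cons (PF.leaf (nat_lit 4102302) (nat_lit 1291962) (nat_lit 55785582) (nat_lit 2431952) [(nat_lit 0), (nat_lit 1291962), (nat_lit 3153676), (nat_lit 0)]) (PF.cons PF.nil PF.nil)) (PF.cons PF.nil (PF.cons PF.nil PF.nil))))) (PF.cons (PF.cons (PF.cons (PF.leaf (nat_lit 4037669) (nat_lit 2431007) (nat_lit 55212376) (nat_lit 2431007) [(nat_lit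 0), (nat_lit 0), (nat_lit 3155142), (nat_lit 0)]) (PF.cons (PF.leaf (nat_lit 4266546) (nat_lit 322749) (nat_lit 54801780) (nat_lit 2451928) [(nat_lit 322749), (nat_lit 0), (nat_lit 3177451), (nat_lit 0)]) (PF.cons PF.nil (PF.cons PF.nil PF.nil)))) (PF.cons (PF.cons (PF.leaf (nat_lit 4741613) (nat_lit 1338584) (nat_lit 53580323) (nat_lit 2500475) [(nat_lit 0), (nat_lit 1338584), (nat_lit 3229809), (nat_lit 0)]) (PF.cons PF.nil PF.nil)) (PF.cons PF.nil PF.nil))) (PF.cons (PF.cons (PF.cons (PF.leaf (nat_lit 5361201) (nat_lit 2548760) (nat_lit 51435488) (nat_lit 2548760) [(nat_lit 0), (nat_lit 0), (nat_lit 3281140), (nat_lit 0)]) (PF.cons PF.nil PF.nil)) (PF.cons PF.nil PF.nil)) (PF.cons PF.nil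
 PF.nil)))))) (PF.cons (PF.cons (PF.cons (PF.cons (PF.leaf (nat_lit 2674111) (nat_lit 2181501) (nat_lit 56745839) (nat_lit 2181501) [(nat_lit 0), (nat_lit 0), (nat_lit 0), (nat_lit 8181471)]) (PF.cons (PF.leaf (nat_lit 2839173) (nat_lit 247288) (nat_lit 56450032) (nat_lit 2208229) [(nat_lit 247288), (nat_lit 0), (nat_lit 0), (nat_lit 8203262)]) (PF.cons (PF.leaf (nat_lit 3022397) (nat_lit 260316) (nat_lit 56126898) (nat_lit 2235702) [(nat_lit 260316), (nat_lit 0), (nat_lit 0), (nat_lit 8225578)]) (PF.cons (PF.leaf (nat_lit 3219859) (nat_lit 272206) (nat_lit 55781061) (nat_lit 2263331) [(nat_lit 272206), (nat_lit 0), (nat_lit 0), (nat_lit 8247799)]) (PF.cons (PF.leaf (nat_lit 3429654) (nat_lit 283184) (nat_lit 55415895) (nat_lit 2290721) [(nat_lit 283184), (nat_lit 0), (nat_lit 0), (nat_lit 8269459)]) (PF.cons (PF.leaf (nat_lit 3650483) (nat_lit 293398) (nat_lit 55034034) (nat_lit 2317593) [(nat_lit 293398), (nat_lit 0), (nat_lit 0), (nat_lit 8290194)])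 (PF.cons (PF.leaf (nat_lit 3881226) (nat_lit 302951) (nat_lit 54637635) (nat_lit 2343749) [(nat_lit 302951), (nat_lit 0), (nat_lit 0), (nat_lit 8309715)]) (PF.cons PF.nil (PF.cons PF.nil PF.nil))))))))) (PF.cons (PF.cons (PF.leaf
 (nat_lit 3253854) (nat_lit 1174259) (nat_lit 55386317) (nat_lit 2282611) [(nat_lit 0), (nat_lit 1174259), (nat_lit 0), (nat_lit 8265625)]) (PF.cons (PF.leaf (nat_lit 3448436) (nat_lit 280777) (nat_lit 55041684) (nat_lit 2307313) [(nat_lit 280777), (nat_lit 1194740), (nat_lit 0), (nat_lit 8284297)]) (PF.cons (PF.leaf (nat_lit 3657289) (nat_lit 291430) (nat_lit 54676735) (nat_lit 2331948) [(nat_lit 291430), (nat_lit 1214872), (nat_lit 0), (nat_lit 8302394)]) (PF.cons (PF.leaf (nat_lit 3877511) (nat_lit 301287) (nat_lit 54294729) (nat_lit 2356200) [(nat_lit 301287), (nat_lit 1234473), (nat_lit 0), (nat_lit 8319546)]) (PF.cons (PF.leaf (nat_lit 4107776) (nat_lit 310469) (nat_lit 53898183) (nat_lit 2379847) [(nat_lit 310469), (nat_lit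 1253429), (nat_lit 0), (nat_lit 8335473)]) (PF.cons (PF.leaf (nat_lit 4347003) (nat_lit 319062) (nat_lit 53489138) (nat_lit 2402734) [(nat_lit 319062), (nat_lit 1271670), (nat_lit 0), (nat_lit 8349957)]) (PF.cons PF.nil PF.nil))))))) (PF.cons (PF.cons (PF.leaf (nat_lit 3887891) (nat_lit 1241668) (nat_lit 53927033) (nat_lit 2369413) [(nat_lit 0), (nat_lit 1241668), (nat_lit 0), (nat_lit 8329029)]) (PF.cons (PF.leaf (nat_lit 4105324) (nat_lit 308291)
 (nat_lit 53547729) (nat_lit 2391169) [(nat_lit 308291), (nat_lit 1259469), (nat_lit 0), (nat_lit 8342682)]) (PF.cons (PF.leaf (nat_lit 4334183) (nat_lit 317184) (nat_lit 53153363) (nat_lit 2412443) [(nat_lit 317184), (nat_lit 1276753), (nat_lit 0), (nat_lit 8355129)]) (PF.cons (PF.leaf (nat_lit 4572179) (nat_lit 325465) (nat_lit 52746347) (nat_lit 2433058) [(nat_lit 325465), (nat_lit 1293426), (nat_lit 0), (nat_lit 8366157)]) (PF.cons (PF.leaf (nat_lit 4818264) (nat_lit 333209) (nat_lit 52328621) (nat_lit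 2452890) [(nat_lit 333209), (nat_lit 1309427), (nat_lit 0), (nat_lit 8375607)]) PF.nil))))) (PF.cons (PF.cons (PF.leaf (nat_lit 4561685) (nat_lit 1297998) (nat_lit 52404127) (nat_lit 2441790) [(nat_lit 0), (nat_lit 1297998), (nat_lit 0), (nat_lit 8368898)]) (PF.cons (PF.leaf (nat_lit 4796742) (nat_lit 331158) (nat_lit 52001193) (nat_lit 2460252) [(nat_lit 331158), (nat_lit 1313191), (nat_lit 0), (nat_lit 8376632)]) (PF.cons (PF.leaf (nat_lit 5040949) (nat_lit 338635) (nat_lit 51587287) (nat_lit 2478024) [(nat_lit 338635), (nat_lit 1327798), (nat_lit 0), (nat_lit 8382834)]) (PF.cons PF.nil PF.nil)))) (PF.cons (PF.cons (PF.leaf (nat_lit 5263363) (nat_lit 1344405) (nat_lit 50846071)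
 (nat_lit 2500349) [(nat_lit 0), (nat_lit 1344405), (nat_lit 0), (nat_lit 8384770)]) (PF.cons (PF.leaf (nat_lit 5511676) (nat_lit 350171) (nat_lit 50428326) (nat_lit 2515467) [(nat_lit 350171), (nat_lit 1357128), (nat_lit 0), (nat_lit 8386332)]) PF.nil)) (PF.cons PF.nil PF.nil)))))) (PF.cons (PF.cons (PF.cons (PF.leaf (nat_lit 3844065) (nat_lit 2366883) (nat_lit 53331826) (nat_lit 2366883) [(nat_lit 0), (nat_lit 0), (nat_lit 3086914), (nat_lit 8323187)]) (PF.cons (PF.leaf (nat_lit 4045211) (nat_lit 297695) (nat_lit 52982495) (nat_lit 2387059) [(nat_lit 297695), (nat_lit 0), (nat_lit 3107574), (nat_lit 8333987)]) (PF.cons (PF.leaf (nat_lit 4259861) (nat_lit 307711) (nat_lit 52614364) (nat_lit 2407054) [(nat_lit 307711), (nat_lit 0), (nat_lit 3128071), (nat_lit 8343898)]) (PF.cons (PF.leaf (nat_lit 4485117) (nat_lit 316874) (nat_lit 52230793) (nat_lit 2426611) [(nat_lit 316874), (nat_lit 0), (nat_lit 3148121), (nat_lit 8352661)]) (PF.cons (PF.leaf (nat_lit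 4719607) (nat_lit 325326) (nat_lit 51834339) (nat_lit 2445557) [(nat_lit 325326), (nat_lit 0), (nat_lit 3167523), (nat_lit 8360085)]) (PF.cons (PF.leaf (nat_lit 4962226) (nat_lit 333168) (nat_lit 51427046) (nat_lit 2463766)
 [(nat_lit 333168), (nat_lit 0), (nat_lit 3186132), (nat_lit 8366025)]) (PF.cons PF.nil PF.nil))))))) (PF.cons (PF.cons (PF.leaf (nat_lit 4486235) (nat_lit 1288496) (nat_lit 51871758) (nat_lit 2435749) [(nat_lit 0), (nat_lit 1288496), (nat_lit 3158382), (nat_lit 8354425)]) (PF.cons (PF.leaf (nat_lit 4707827) (nat_lit 322426) (nat_lit 51493351) (nat_lit 2453176) [(nat_lit 322426), (nat_lit 1303587), (nat_lit 3176083), (nat_lit 8360186)]) (PF.cons (PF.leaf (nat_lit 4940013) (nat_lit 330648) (nat_lit 51101403) (nat_lit 2470096) [(nat_lit 330648), (nat_lit 1318151), (nat_lit 3193230), (nat_lit 8364633)]) (PF.cons (PF.leaf (nat_lit 5180577) (nat_lit 338234) (nat_lit 50698329) (nat_lit 2486369) [(nat_lit 338234), (nat_lit 1332115), (nat_lit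 3209665), (nat_lit 8367630)]) (PF.cons PF.nil PF.nil))))) (PF.cons (PF.cons (PF.leaf (nat_lit 5161018) (nat_lit 1334775) (nat_lit 50367505) (nat_lit 2491897) [(nat_lit 0), (nat_lit 1334775), (nat_lit 3215738), (nat_lit 8364121)]) (PF.cons (PF.leaf (nat_lit 5397940) (nat_lit 342670) (nat_lit 49970405) (nat_lit 2506337) [(nat_lit 342670), (nat_lit 1347462), (nat_lit 3230113), (nat_lit 8364360)]) (PF.cons (PF.leaf (nat_lit 5643266) (nat_lit 349487)
 (nat_lit 49563718) (nat_lit 2520116) [(nat_lit 349487), (nat_lit 1359581), (nat_lit 3243742), (nat_lit 8363097)]) (PF.cons PF.nil PF.nil)))) (PF.cons (PF.cons (PF.leaf (nat_lit 5857581) (nat_lit 1372230) (nat_lit 48844059) (nat_lit 2535969) [(nat_lit 0), (nat_lit 1372230), (nat_lit 3259424), (nat_lit 8352665)]) (PF.cons PF.nil PF.nil)) (PF.cons PF.nil PF.nil))))) (PF.cons (PF.cons (PF.cons (PF.leaf (nat_lit 5070517) (nat_lit 2483061) (nat_lit 49868951) (nat_lit 2483061) [(nat_lit 0), (nat_lit 0), (nat_lit 3207288),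 (nat_lit 8342222)]) (PF.cons (PF.leaf (nat_lit 5294416) (nat_lit 333697) (nat_lit 49495760) (nat_lit 2496785) [(nat_lit 333697), (nat_lit 0), (nat_lit 3220659), (nat_lit 8341249)]) (PF.cons (PF.leaf (nat_lit 5528234) (nat_lit 341300) (nat_lit 49110394) (nat_lit 2509990) [(nat_lit 341300), (nat_lit 0), (nat_lit 3233454), (nat_lit 8338917)]) (PF.cons (PF.leaf (nat_lit 5769748) (nat_lit 348251) (nat_lit 48715233) (nat_lit 2522567) [(nat_lit 348251), (nat_lit 0), (nat_lit 3245552), (nat_lit 8335152)]) (PF.cons PF.nil PF.nil))))) (PF.cons (PF.cons (PF.leaf (nat_lit 5741915) (nat_lit 1361733) (nat_lit 48397878) (nat_lit 2525507) [(nat_lit 0), (nat_lit 1361733), (nat_lit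
 3248514), (nat_lit 8326664)]) (PF.cons (PF.leaf (nat_lit 5979254) (nat_lit 351613) (nat_lit 48010029) (nat_lit 2536527) [(nat_lit 351613), (nat_lit 1372253), (nat_lit 3258873), (nat_lit 8320641)]) (PF.cons PF.nil (PF.cons PF.nil PF.nil)))) (PF.cons (PF.cons (PF.leaf (nat_lit 6430124) (nat_lit 1391552) (nat_lit 46919898) (nat_lit 2557400) [(nat_lit 0), (nat_lit 1391552), (nat_lit 3277831), (nat_lit 8292743)]) (PF.cons PF.nil PF.nil)) PF.nil))) (PF.cons (PF.cons (PF.cons (PF.leaf (nat_lit 6302989) (nat_lit 2545525) (nat_lit 46505262) (nat_lit 2545525) [(nat_lit 0), (nat_lit 0), (nat_lit 3265000), (nat_lit 8263021)]) (PF.cons (PF.leaf (nat_lit 6539589) (nat_lit 358376) (nat_lit 46129045) (nat_lit 2553643) [(nat_lit 358376), (nat_lit 0), (nat_lit 3271970), (nat_lit 8251837)]) (PF.cons PF.nil PF.nil))) (PF.cons (PF.cons (PF.leaf (nat_lit 6980484) (nat_lit 1403813) (nat_lit 45079924) (nat_lit 2567201) [(nat_lit 0), (nat_lit 1403813), (nat_lit 3282331), (nat_lit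 8210881)]) PF.nil) PF.nil)) (PF.cons PF.nil (PF.cons PF.nil PF.nil)))))) (PF.cons (PF.cons (PF.cons (PF.cons (PF.leaf (nat_lit 4816137) (nat_lit 2410376) (nat_lit 48300198) (nat_lit 2410376) [(nat_lit 0), (nat_lit 0), (nat_lit
 0), (nat_lit 8199118)]) (PF.cons (PF.leaf (nat_lit 5014782) (nat_lit 307577) (nat_lit 47982025) (nat_lit 2424592) [(nat_lit 307577), (nat_lit 0), (nat_lit 0), (nat_lit 8197308)]) (PF.cons (PF.leaf (nat_lit 5225861) (nat_lit 316867) (nat_lit 47647860) (nat_lit 2438470) [(nat_lit 316867), (nat_lit 0), (nat_lit 0), (nat_lit 8194373)]) (PF.cons (PF.leaf (nat_lit 5446506) (nat_lit 325229) (nat_lit 47300833) (nat_lit 2451834) [(nat_lit 325229), (nat_lit 0), (nat_lit 0), (nat_lit 8190228)]) (PF.cons (PF.leaf (nat_lit 5675335) (nat_lit 332828) (nat_lit 46943306) (nat_lit 2464571) [(nat_lit 332828), (nat_lit 0), (nat_lit 0), (nat_lit 8184811)]) (PF.cons (PF.leaf (nat_lit 5911244) (nat_lit 339779) (nat_lit 46577147) (nat_lit 2476606) [(nat_lit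 339779), (nat_lit 0), (nat_lit 0), (nat_lit 8178079)]) (PF.cons PF.nil PF.nil))))))) (PF.cons (PF.cons (PF.leaf (nat_lit 5435204) (nat_lit 1309324) (nat_lit 46981719) (nat_lit 2455700) [(nat_lit 0), (nat_lit 1309324), (nat_lit 0), (nat_lit 8181034)]) (PF.cons (PF.leaf (nat_lit 5651398) (nat_lit 329102) (nat_lit 46641237) (nat_lit 2467391) [(nat_lit 329102), (nat_lit 1321121), (nat_lit 0), (nat_lit 8174979)]) (PF.cons (PF.leaf (nat_lit 5877146)
 (nat_lit 336511) (nat_lit 46289576) (nat_lit 2478548) [(nat_lit 336511), (nat_lit 1332351), (nat_lit 0), (nat_lit 8167657)]) (PF.cons (PF.leaf (nat_lit 6110252) (nat_lit 343249) (nat_lit 45928930) (nat_lit 2489085) [(nat_lit 343249), (nat_lit 1342971), (nat_lit 0), (nat_lit 8159038)]) (PF.cons (PF.leaf (nat_lit 6349767) (nat_lit 349416) (nat_lit 45561023) (nat_lit 2498943) [(nat_lit 349416), (nat_lit 1352965), (nat_lit 0), (nat_lit 8149108)]) PF.nil))))) (PF.cons (PF.cons (PF.leaf (nat_lit 6079255) (nat_lit 1343192)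 (nat_lit 45637780) (nat_lit 2490459) [(nat_lit 0), (nat_lit 1343192), (nat_lit 0), (nat_lit 8147093)]) (PF.cons (PF.leaf (nat_lit 6308220) (nat_lit 346182) (nat_lit 45283984) (nat_lit 2499596) [(nat_lit 346182), (nat_lit 1352766), (nat_lit 0), (nat_lit 8136758)]) (PF.cons (PF.leaf (nat_lit 6544606) (nat_lit 352177) (nat_lit 44922497) (nat_lit 2508125) [(nat_lit 352177), (nat_lit 1361785), (nat_lit 0), (nat_lit 8125132)]) (PF.cons PF.nil PF.nil)))) (PF.cons (PF.cons (PF.leaf (nat_lit 6738973) (nat_lit 1369450) (nat_lit 44288409) (nat_lit 2515565) [(nat_lit 0), (nat_lit 1369450), (nat_lit 0), (nat_lit 8098243)]) (PF.cons (PF.leaf (nat_lit 6977044) (nat_lit 359803)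
 (nat_lit 43927943) (nat_lit 2522264) [(nat_lit 359803), (nat_lit 1377045), (nat_lit 0), (nat_lit 8083832)]) PF.nil)) (PF.cons PF.nil PF.nil))))) (PF.cons (PF.cons (PF.cons (PF.leaf (nat_lit 5971382) (nat_lit 2477594) (nat_lit 45211215) (nat_lit 2477594) [(nat_lit 0), (nat_lit 0), (nat_lit 3187779), (nat_lit 8116112)]) (PF.cons (PF.leaf (nat_lit 6188240) (nat_lit 336692) (nat_lit 44878939) (nat_lit 2486497) [(nat_lit 336692), (nat_lit 0), (nat_lit 3195321), (nat_lit 8105680)]) (PF.cons (PF.leaf (nat_lit 6414043) (nat_lit 343547) (nat_lit 44536571) (nat_lit 2494879) [(nat_lit 343547), (nat_lit 0), (nat_lit 3202297), (nat_lit 8093984)]) (PF.cons (PF.leaf (nat_lit 6646731) (nat_lit 349731) (nat_lit 44186238) (nat_lit 2502673) [(nat_lit 349731), (nat_lit 0), (nat_lit 3208637), (nat_lit 8081035)]) (PF.cons PF.nil PF.nil))))) (PF.cons (PF.cons (PF.leaf (nat_lit 6608941) (nat_lit 1357456) (nat_lit 43909025) (nat_lit 2502318) [(nat_lit 0), (nat_lit 1357456),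 (nat_lit 3207612), (nat_lit 8066199)]) (PF.cons (PF.leaf (nat_lit 6837084) (nat_lit 351830) (nat_lit 43566246) (nat_lit 2508936) [(nat_lit 351830), (nat_lit 1365331), (nat_lit 3212684), (nat_lit 8051891)]) (PF.cons (PF.leaf (nat_lit
 7072188) (nat_lit 357316) (nat_lit 43216668) (nat_lit 2514985) [(nat_lit 357316), (nat_lit 1372681), (nat_lit 3217128), (nat_lit 8036357)]) (PF.cons PF.nil PF.nil)))) (PF.cons (PF.cons (PF.leaf (nat_lit 7258648) (nat_lit 1377915) (nat_lit 42609088) (nat_lit 2518671) [(nat_lit 0), (nat_lit 1377915), (nat_lit 3218286), (nat_lit 8003467)]) (PF.cons PF.nil PF.nil)) PF.nil))) (PF.cons (PF.cons (PF.cons (PF.leaf (nat_lit 7120124) (nat_lit 2504924) (nat_lit 42257640) (nat_lit 2504924) [(nat_lit 0), (nat_lit 0), (nat_lit 3203089), (nat_lit 7970034)]) (PF.cons (PF.leaf (nat_lit 7346726) (nat_lit 355870) (nat_lit 41927023) (nat_lit 2509415) [(nat_lit 355870), (nat_lit 0), (nat_lit 3205748), (nat_lit 7952503)]) (PF.cons PF.nil PF.nil)))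 (PF.cons (PF.cons (PF.leaf (nat_lit 7758474) (nat_lit 1381435) (nat_lit 41010065) (nat_lit 2513968) [(nat_lit 0), (nat_lit 1381435), (nat_lit 3205419), (nat_lit 7896251)]) PF.nil) PF.nil)) (PF.cons PF.nil (PF.cons PF.nil PF.nil))))) (PF.cons (PF.cons (PF.cons (PF.cons (PF.leaf (nat_lit 6764987) (nat_lit 2439106) (nat_lit 41188462) (nat_lit 2439106) [(nat_lit 0), (nat_lit 0), (nat_lit 0), (nat_lit 7827081)]) (PF.cons (PF.leaf (nat_lit 6973997) (nat_lit 334857)
 (nat_lit 40895075) (nat_lit 2444742) [(nat_lit 334857), (nat_lit 0), (nat_lit 0), (nat_lit 7811379)]) (PF.cons (PF.leaf (nat_lit 7191329) (nat_lit 341105) (nat_lit 40593180) (nat_lit 2449875) [(nat_lit 341105), (nat_lit 0), (nat_lit 0), (nat_lit 7794515)]) (PF.cons (PF.leaf (nat_lit 7414833) (nat_lit 346680) (nat_lit 40284655) (nat_lit 2454466) [(nat_lit 346680), (nat_lit 0), (nat_lit 0), (nat_lit 7776550)]) (PF.cons PF.nil PF.nil))))) (PF.cons (PF.cons (PF.leaf (nat_lit 7370059) (nat_lit 1337241)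 (nat_lit 40043662) (nat_lit 2452103) [(nat_lit 0), (nat_lit 1337241), (nat_lit 0), (nat_lit 7758601)]) (PF.cons (PF.leaf (nat_lit 7588885) (nat_lit 347905) (nat_lit 39742310) (nat_lit 2455792) [(nat_lit 347905), (nat_lit 1343247), (nat_lit 0), (nat_lit 7739852)]) (PF.cons PF.nil (PF.cons PF.nil PF.nil)))) (PF.cons (PF.cons (PF.leaf (nat_lit 7984307) (nat_lit 1351278) (nat_lit 38904931) (nat_lit 2458354) [(nat_lit 0), (nat_lit 1351278), (nat_lit 0), (nat_lit 7680989)]) (PF.cons PF.nil PF.nil)) PF.nil))) (PF.cons (PF.cons (PF.cons (PF.leaf (nat_lit 7839116) (nat_lit 2444011) (nat_lit 38606853) (nat_lit 2444011) [(nat_lit 0), (nat_lit 0), (nat_lit 3116988), (nat_lit 7646986)]) (PF.cons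
 (PF.leaf (nat_lit 8055970) (nat_lit 350134) (nat_lit 38316959) (nat_lit 2446113) [(nat_lit 350134), (nat_lit 0), (nat_lit 3116898), (nat_lit 7626235)]) PF.nil)) (PF.cons PF.nil PF.nil)) (PF.cons PF.nil PF.nil))) (PF.cons (PF.cons (PF.cons (PF.cons (PF.leaf (nat_lit 8480174) (nat_lit 2372837) (nat_lit 35461915) (nat_lit 2372837) [(nat_lit 0), (nat_lit 0), (nat_lit 0), (nat_lit 7318515)]) (PF.cons PF.nil PF.nil)) (PF.cons PF.nil PF.nil)) (PF.cons PF.nil PF.nil)) (PF.cons PF.nil (PF.cons PF.nil (PF.cons PF.nil (PF.cons PF.nil PF.nil)))))))))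

def p14_9_0_0 : pfC (piC [(nat_lit 42686981), (nat_lit 27030628), (nat_lit 20024807), (nat_lit 13470738)] (nat_lit 27030628)) p14_9_0 (nat_lit 4) (nat_lit 0) (nat_lit 1) = true := by decide +kernel
def p14_9_0_1 : pfC (piC [(nat_lit 42686981), (nat_lit 27030628), (nat_lit 20024807), (nat_lit 13470738)] (nat_lit 27030628)) p14_9_0 (nat_lit 4) (nat_lit 1) (nat_lit 2) = true := by decide +kernel
def p14_9_0_2 : pfC (piC [(nat_lit 42686981), (nat_lit 27030628), (nat_lit 20024807), (nat_lit 13470738)] (nat_lit 27030628)) p14_9_0 (nat_lit 4) (nat_lit 2) (nat_lit 3) = true := by decide +kernel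
def p14_9_0_3 : pfC (piC [(nat_lit 42686981), (nat_lit 27030628), (nat_lit 20024807), (nat_lit 13470738)] (nat_lit 27030628)) p14_9_0 (nat_lit 4) (nat_lit 3) (nat_lit 4) = true := by decide +kernel
def p14_9_0_4 : pfC (piC [(nat_lit 42686981), (nat_lit 27030628), (nat_lit 20024807), (nat_lit 13470738)] (nat_lit 27030628)) p14_9_0 (nat_lit 4) (nat_lit 4) (nat_lit 5) = true := by decide +kernel
def p14_9_0_5 : pfC (piC [(nat_lit 42686981), (nat_lit 27030628), (nat_lit 20024807), (nat_lit 13470738)] (nat_lit 27030628)) p14_9_0 (nat_lit 4) (nat_lit 5) (nat_lit 6) = true := by decide +kernel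
def p14_9_0_6 : pfC (piC [(nat_lit 42686981), (nat_lit 27030628), (nat_lit 20024807), (nat_lit 13470738)] (nat_lit 27030628)) p14_9_0 (nat_lit 4) (nat_lit 6) (nat_lit 7) = true := by decide +kernel
def p14_9_0_7 : pfC (piC [(nat_lit 42686981), (nat_lit 27030628), (nat_lit 20024807), (nat_lit 13470738)] (nat_lit 27030628)) p14_9_0 (nat_lit 4) (nat_lit 7) (nat_lit 8) = true := by decide +kernel
def p14_9_0_8 : pfC (piC [(nat_lit 42686981), (nat_lit 27030628), (nat_lit 20024807), (nat_lit 13470738)] (nat_lit 27030628)) p14_9_0 (nat_lit 4) (nat_lit 8) (nat_lit 9) = true := by decide +kernel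
def p14_9_0_9 : pfC (piC [(nat_lit 42686981), (nat_lit 27030628), (nat_lit 20024807), (nat_lit 13470738)] (nat_lit 27030628)) p14_9_0 (nat_lit 4) (nat_lit 9) (nat_lit 10) = true := by decide +kernel
def p14_9_0_10 : pfC (piC [(nat_lit 42686981), (nat_lit 27030628), (nat_lit 20024807), (nat_lit 13470738)] (nat_lit 27030628)) p14_9_0 (nat_lit 4) (nat_lit 10) (nat_lit 11) = true := by decide +kernel
def p14_9_0_11 : pfC (piC [(nat_lit 42686981), (nat_lit 27030628), (nat_lit 20024807), (nat_lit 13470738)] (nat_lit 27030628)) p14_9_0 (nat_lit 4) (nat_lit 11) (nat_lit 12) = true := by decide +kernel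
def p14_9_0_12 : pfC (piC [(nat_lit 42686981), (nat_lit 27030628), (nat_lit 20024807), (nat_lit 13470738)] (nat_lit 27030628)) p14_9_0 (nat_lit 4) (nat_lit 12) (nat_lit 13) = true := by decide +kernel
def p14_9_0_13 : pfC (piC [(nat_lit 42686981), (nat_lit 27030628), (nat_lit 20024807), (nat_lit 13470738)] (nat_lit 27030628)) p14_9_0 (nat_lit 4) (nat_lit 13) (nat_lit 14) = true := by decide +kernel
def p14_9_0_14 : pfC (piC [(nat_lit 42686981), (nat_lit 27030628), (nat_lit 20024807), (nat_lit 13470738)] (nat_lit 27030628)) p14_9_0 (nat_lit 4) (nat_lit 14) (nat_lit 15) = true := by decide +kernel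
def p14_9_0_15 : pfC (piC [(nat_lit 42686981), (nat_lit 27030628), (nat_lit 20024807), (nat_lit 13470738)] (nat_lit 27030628)) p14_9_0 (nat_lit 4) (nat_lit 15) (nat_lit 16) = true := by decide +kernel
def p14_9_0_16 : pfC (piC [(nat_lit 42686981), (nat_lit 27030628), (nat_lit 20024807), (nat_lit 13470738)] (nat_lit 27030628)) p14_9_0 (nat_lit 4) (nat_lit 16) (nat_lit 17) = true := by decide +kernel
def p14_9_0_17 : pfC (piC [(nat_lit 42686981), (nat_lit 27030628), (nat_lit 20024807), (nat_lit 13470738)] (nat_lit 27030628)) p14_9_0 (nat_lit 4) (nat_lit 17) (nat_lit 18) = true := by decide +kernel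
def p14_9_0_18 : pfC (piC [(nat_lit 42686981), (nat_lit 27030628), (nat_lit 20024807), (nat_lit 13470738)] (nat_lit 27030628)) p14_9_0 (nat_lit 4) (nat_lit 18) (nat_lit 19) = true := by decide +kernel
def p14_9_0_19 : pfC (piC [(nat_lit 42686981), (nat_lit 27030628), (nat_lit 20024807), (nat_lit 13470738)] (nat_lit 27030628)) p14_9_0 (nat_lit 4) (nat_lit 19) (nat_lit 20) = true := by decide +kernel
def p14_9_0_20 : pfC (piC [(nat_lit 42686981), (nat_lit 27030628), (nat_lit 20024807), (nat_lit 13470738)] (nat_lit 27030628)) p14_9_0 (nat_lit 4) (nat_lit 20) (nat_lit 21) = true := by decide +kernel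
def p14_9_0_21 : pfC (piC [(nat_lit 42686981), (nat_lit 27030628), (nat_lit 20024807), (nat_lit 13470738)] (nat_lit 27030628)) p14_9_0 (nat_lit 4) (nat_lit 21) (nat_lit 22) = true := by decide +kernel
def p14_9_0_22 : pfC (piC [(nat_lit 42686981), (nat_lit 27030628), (nat_lit 20024807), (nat_lit 13470738)] (nat_lit 27030628)) p14_9_0 (nat_lit 4) (nat_lit 22) (nat_lit 23) = true := by decide +kernel
def p14_9_0_23 : pfC (piC [(nat_lit 42686981), (nat_lit 27030628), (nat_lit 20024807), (nat_lit 13470738)] (nat_lit 27030628)) p14_9_0 (nat_lit 4) (nat_lit 23) (nat_lit 24) = true := by decide +kernel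
def p14_9_0_24 : pfC (piC [(nat_lit 42686981), (nat_lit 27030628), (nat_lit 20024807), (nat_lit 13470738)] (nat_lit 27030628)) p14_9_0 (nat_lit 4) (nat_lit 24) (nat_lit 25) = true := by decide +kernel
def p14_9_0_25 : pfC (piC [(nat_lit 42686981), (nat_lit 27030628), (nat_lit 20024807), (nat_lit 13470738)] (nat_lit 27030628)) p14_9_0 (nat_lit 4) (nat_lit 25) (nat_lit 26) = true := by decide +kernel
def p14_9_0_26 : pfC (piC [(nat_lit 42686981), (nat_lit 27030628), (nat_lit 20024807), (nat_lit 13470738)] (nat_lit 27030628)) p14_9_0 (nat_lit 4) (nat_lit 26) (nat_lit 27) = true := by decide +kernel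
def p14_9_0_27 : pfC (piC [(nat_lit 42686981), (nat_lit 27030628), (nat_lit 20024807), (nat_lit 13470738)] (nat_lit 27030628)) p14_9_0 (nat_lit 4) (nat_lit 27) (nat_lit 28) = true := by decide +kernel
def p14_9_0_28 : pfC (piC [(nat_lit 42686981), (nat_lit 27030628), (nat_lit 20024807), (nat_lit 13470738)] (nat_lit 27030628)) p14_9_0 (nat_lit 4) (nat_lit 28) (nat_lit 29) = true := by decide +kernel
def p14_9_0_29 : pfC (piC [(nat_lit 42686981), (nat_lit 27030628), (nat_lit 20024807), (nat_lit 13470738)] (nat_lit 27030628)) p14_9_0 (nat_lit 4) (nat_lit 29) (nat_lit 30) = true := by decide +kernel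
def p14_9_0_30 : pfC (piC [(nat_lit 42686981), (nat_lit 27030628), (nat_lit 20024807), (nat_lit 13470738)] (nat_lit 27030628)) p14_9_0 (nat_lit 4) (nat_lit 30) (nat_lit 31) = true := by decide +kernel
def p14_9_0_31 : pfC (piC [(nat_lit 42686981), (nat_lit 27030628), (nat_lit 20024807), (nat_lit 13470738)] (nat_lit 27030628)) p14_9_0 (nat_lit 4) (nat_lit 31) (nat_lit 32) = true := by decide +kernel
def p14_9_0_32 : pfC (piC [(nat_lit 42686981), (nat_lit 27030628), (nat_lit 20024807), (nat_lit 13470738)] (nat_lit 27030628)) p14_9_0 (nat_lit 4) (nat_lit 32) (nat_lit 33) = true := by decide +kernel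
def p14_9_0_33 : pfC (piC [(nat_lit 42686981), (nat_lit 27030628), (nat_lit 20024807), (nat_lit 13470738)] (nat_lit 27030628)) p14_9_0 (nat_lit 4) (nat_lit 33) (nat_lit 34) = true := by decide +kernel
def p14_9_0_34 : pfC (piC [(nat_lit 42686981), (nat_lit 27030628), (nat_lit 20024807), (nat_lit 13470738)] (nat_lit 27030628)) p14_9_0 (nat_lit 4) (nat_lit 34) (nat_lit 35) = true := by decide +kernel
def p14_9_0_35 : pfC (piC [(nat_lit 42686981), (nat_lit 27030628), (nat_lit 20024807), (nat_lit 13470738)] (nat_lit 27030628)) p14_9_0 (nat_lit 4) (nat_lit 35) (nat_lit 36) = true := by decide +kernel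
def p14_9_0_36 : pfC (piC [(nat_lit 42686981), (nat_lit 27030628), (nat_lit 20024807), (nat_lit 13470738)] (nat_lit 27030628)) p14_9_0 (nat_lit 4) (nat_lit 36) (nat_lit 37) = true := by decide +kernel
def p14_9_0_37 : pfC (piC [(nat_lit 42686981), (nat_lit 27030628), (nat_lit 20024807), (nat_lit 13470738)] (nat_lit 27030628)) p14_9_0 (nat_lit 4) (nat_lit 37) (nat_lit 38) = true := by decide +kernel
def p14_9_0_38 : pfC (piC [(nat_lit 42686981), (nat_lit 27030628), (nat_lit 20024807), (nat_lit 13470738)] (nat_lit 27030628)) p14_9_0 (nat_lit 4) (nat_lit 38) (nat_lit 39) = true := by decide +kernel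
def p14_9_0_39 : pfC (piC [(nat_lit 42686981), (nat_lit 27030628), (nat_lit 20024807), (nat_lit 13470738)] (nat_lit 27030628)) p14_9_0 (nat_lit 4) (nat_lit 39) (nat_lit 40) = true := by decide +kernel
def p14_9_0_40 : pfC (piC [(nat_lit 42686981), (nat_lit 27030628), (nat_lit 20024807), (nat_lit 13470738)] (nat_lit 27030628)) p14_9_0 (nat_lit 4) (nat_lit 40) (nat_lit 41) = true := by decide +kernel
def p14_9_0_41 : pfC (piC [(nat_lit 42686981), (nat_lit 27030628), (nat_lit 20024807), (nat_lit 13470738)] (nat_lit 27030628)) p14_9_0 (nat_lit 4) (nat_lit 41) (nat_lit 42) = true := by decide +kernel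
def p14_9_0_42 : pfC (piC [(nat_lit 42686981), (nat_lit 27030628), (nat_lit 20024807), (nat_lit 13470738)] (nat_lit 27030628)) p14_9_0 (nat_lit 4) (nat_lit 42) (nat_lit 43) = true := by decide +kernel
def p14_9_0_43 : pfC (piC [(nat_lit 42686981), (nat_lit 27030628), (nat_lit 20024807), (nat_lit 13470738)] (nat_lit 27030628)) p14_9_0 (nat_lit 4) (nat_lit 43) (nat_lit 44) = true := by decide +kernel
def p14_9_0_44 : pfC (piC [(nat_lit 42686981), (nat_lit 27030628), (nat_lit 20024807), (nat_lit 13470738)] (nat_lit 27030628)) p14_9_0 (nat_lit 4) (nat_lit 44) (nat_lit 45) = true := by decide +kernel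
def p14_9_0_45 : pfC (piC [(nat_lit 42686981), (nat_lit 27030628), (nat_lit 20024807), (nat_lit 13470738)] (nat_lit 27030628)) p14_9_0 (nat_lit 4) (nat_lit 45) (nat_lit 46) = true := by decide +kernel
def p14_9_0_46 : pfC (piC [(nat_lit 42686981), (nat_lit 27030628), (nat_lit 20024807), (nat_lit 13470738)] (nat_lit 27030628)) p14_9_0 (nat_lit 4) (nat_lit 46) (nat_lit 47) = true := by decide +kernel
def p14_9_0_47 : pfC (piC [(nat_lit 42686981), (nat_lit 27030628), (nat_lit 20024807), (nat_lit 13470738)] (nat_lit 27030628)) p14_9_0 (nat_lit 4) (nat_lit 47) (nat_lit 48) = true := by decide +kernel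
def p14_9_0_48 : pfC (piC [(nat_lit 42686981), (nat_lit 27030628), (nat_lit 20024807), (nat_lit 13470738)] (nat_lit 27030628)) p14_9_0 (nat_lit 4) (nat_lit 48) (nat_lit 49) = true := by decide +kernel
def p14_9_0_49 : pfC (piC [(nat_lit 42686981), (nat_lit 27030628), (nat_lit 20024807), (nat_lit 13470738)] (nat_lit 27030628)) p14_9_0 (nat_lit 4) (nat_lit 49) (nat_lit 50) = true := by decide +kernel
def p14_9_0_50 : pfC (piC [(nat_lit 42686981), (nat_lit 27030628), (nat_lit 20024807), (nat_lit 13470738)] (nat_lit 27030628)) p14_9_0 (nat_lit 4) (nat_lit 50) (nat_lit 51) = true := by decide +kernel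
def p14_9_0_51 : pfC (piC [(nat_lit 42686981), (nat_lit 27030628), (nat_lit 20024807), (nat_lit 13470738)] (nat_lit 27030628)) p14_9_0 (nat_lit 4) (nat_lit 51) (nat_lit 52) = true := by decide +kernel
def p14_9_0_52 : pfC (piC [(nat_lit 42686981), (nat_lit 27030628), (nat_lit 20024807), (nat_lit 13470738)] (nat_lit 27030628)) p14_9_0 (nat_lit 4) (nat_lit 52) (nat_lit 53) = true := by decide +kernel
def p14_9_0_53 : pfC (piC [(nat_lit 42686981), (nat_lit 27030628), (nat_lit 20024807), (nat_lit 13470738)] (nat_lit 27030628)) p14_9_0 (nat_lit 4) (nat_lit 53) (nat_lit 54) = true := by decide +kernel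
def p14_9_0_54 : pfC (piC [(nat_lit 42686981), (nat_lit 27030628), (nat_lit 20024807), (nat_lit 13470738)] (nat_lit 27030628)) p14_9_0 (nat_lit 4) (nat_lit 54) (nat_lit 55) = true := by decide +kernel
def p14_9_0_55 : pfC (piC [(nat_lit 42686981), (nat_lit 27030628), (nat_lit 20024807), (nat_lit 13470738)] (nat_lit 27030628)) p14_9_0 (nat_lit 4) (nat_lit 55) (nat_lit 56) = true := by decide +kernel
def p14_9_0_56 : pfC (piC [(nat_lit 42686981), (nat_lit 27030628), (nat_lit 20024807), (nat_lit 13470738)] (nat_lit 27030628)) p14_9_0 (nat_lit 4) (nat_lit 56) (nat_lit 57) = true := by decide +kernel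
def p14_9_0_57 : pfC (piC [(nat_lit 42686981), (nat_lit 27030628), (nat_lit 20024807), (nat_lit 13470738)] (nat_lit 27030628)) p14_9_0 (nat_lit 4) (nat_lit 57) (nat_lit 58) = true := by decide +kernel
def p14_9_0_58 : pfC (piC [(nat_lit 42686981), (nat_lit 27030628), (nat_lit 20024807), (nat_lit 13470738)] (nat_lit 27030628)) p14_9_0 (nat_lit 4) (nat_lit 58) (nat_lit 59) = true := by decide +kernel
def p14_9_0_59 : pfC (piC [(nat_lit 42686981), (nat_lit 27030628), (nat_lit 20024807), (nat_lit 13470738)] (nat_lit 27030628)) p14_9_0 (nat_lit 4) (nat_lit 59) (nat_lit 60) = true := by decide +kernel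
def p14_9_0_60 : pfC (piC [(nat_lit 42686981), (nat_lit 27030628), (nat_lit 20024807), (nat_lit 13470738)] (nat_lit 27030628)) p14_9_0 (nat_lit 4) (nat_lit 60) (nat_lit 61) = true := by decide +kernel
def p14_9_0_61 : pfC (piC [(nat_lit 42686981), (nat_lit 27030628), (nat_lit 20024807), (nat_lit 13470738)] (nat_lit 27030628)) p14_9_0 (nat_lit 4) (nat_lit 61) (nat_lit 62) = true := by decide +kernel
def p14_9_0_62 : pfC (piC [(nat_lit 42686981), (nat_lit 27030628), (nat_lit 20024807), (nat_lit 13470738)] (nat_lit 27030628)) p14_9_0 (nat_lit 4) (nat_lit 62) (nat_lit 63) = true := by decide +kernel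
def p14_9_0_63 : pfC (piC [(nat_lit 42686981), (nat_lit 27030628), (nat_lit 20024807), (nat_lit 13470738)] (nat_lit 27030628)) p14_9_0 (nat_lit 4) (nat_lit 63) (nat_lit 64) = true := by decide +kernel
def p14_9_0_64 : pfC (piC [(nat_lit 42686981), (nat_lit 27030628), (nat_lit 20024807), (nat_lit 13470738)] (nat_lit 27030628)) p14_9_0 (nat_lit 4) (nat_lit 64) (nat_lit 65) = true := by decide +kernel
def p14_9_0_65 : pfC (piC [(nat_lit 42686981), (nat_lit 27030628), (nat_lit 20024807), (nat_lit 13470738)] (nat_lit 27030628)) p14_9_0 (nat_lit 4) (nat_lit 65) (nat_lit 66) = true := by decide +kernel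
def p14_9_0_66 : pfC (piC [(nat_lit 42686981), (nat_lit 27030628), (nat_lit 20024807), (nat_lit 13470738)] (nat_lit 27030628)) p14_9_0 (nat_lit 4) (nat_lit 66) (nat_lit 67) = true := by decide +kernel
def p14_9_0_67 : pfC (piC [(nat_lit 42686981), (nat_lit 27030628), (nat_lit 20024807), (nat_lit 13470738)] (nat_lit 27030628)) p14_9_0 (nat_lit 4) (nat_lit 67) (nat_lit 68) = true := by decide +kernel
def p14_9_0_68 : pfC (piC [(nat_lit 42686981), (nat_lit 27030628), (nat_lit 20024807), (nat_lit 13470738)] (nat_lit 27030628)) p14_9_0 (nat_lit 4) (nat_lit 68) (nat_lit 69) = true := by decide +kernel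
def p14_9_0_69 : pfC (piC [(nat_lit 42686981), (nat_lit 27030628), (nat_lit 20024807), (nat_lit 13470738)] (nat_lit 27030628)) p14_9_0 (nat_lit 4) (nat_lit 69) (nat_lit 70) = true := by decide +kernel
def p14_9_0_70 : pfC (piC [(nat_lit 42686981), (nat_lit 27030628), (nat_lit 20024807), (nat_lit 13470738)] (nat_lit 27030628)) p14_9_0 (nat_lit 4) (nat_lit 70) (nat_lit 71) = true := by decide +kernel
def p14_9_0_71 : pfC (piC [(nat_lit 42686981), (nat_lit 27030628), (nat_lit 20024807), (nat_lit 13470738)] (nat_lit 27030628)) p14_9_0 (nat_lit 4) (nat_lit 71) (nat_lit 72) = true := by decide +kernel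
def p14_9_0_72 : pfC (piC [(nat_lit 42686981), (nat_lit 27030628), (nat_lit 20024807), (nat_lit 13470738)] (nat_lit 27030628)) p14_9_0 (nat_lit 4) (nat_lit 72) (nat_lit 73) = true := by decide +kernel
def p14_9_0_73 : pfC (piC [(nat_lit 42686981), (nat_lit 27030628), (nat_lit 20024807), (nat_lit 13470738)] (nat_lit 27030628)) p14_9_0 (nat_lit 4) (nat_lit 73) (nat_lit 74) = true := by decide +kernel
def p14_9_0_74 : pfC (piC [(nat_lit 42686981), (nat_lit 27030628), (nat_lit 20024807), (nat_lit 13470738)] (nat_lit 27030628)) p14_9_0 (nat_lit 4) (nat_lit 74) (nat_lit 75) = true := by decide +kernel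
def p14_9_0_75 : pfC (piC [(nat_lit 42686981), (nat_lit 27030628), (nat_lit 20024807), (nat_lit 13470738)] (nat_lit 27030628)) p14_9_0 (nat_lit 4) (nat_lit 75) (nat_lit 76) = true := by decide +kernel
def p14_9_0_76 : pfC (piC [(nat_lit 42686981), (nat_lit 27030628), (nat_lit 20024807), (nat_lit 13470738)] (nat_lit 27030628)) p14_9_0 (nat_lit 4) (nat_lit 76) (nat_lit 77) = true := by decide +kernel
def p14_9_0_77 : pfC (piC [(nat_lit 42686981), (nat_lit 27030628), (nat_lit 20024807), (nat_lit 13470738)] (nat_lit 27030628)) p14_9_0 (nat_lit 4) (nat_lit 77) (nat_lit 78) = true := by decide +kernel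
def p14_9_0_78 : pfC (piC [(nat_lit 42686981), (nat_lit 27030628), (nat_lit 20024807), (nat_lit 13470738)] (nat_lit 27030628)) p14_9_0 (nat_lit 4) (nat_lit 78) (nat_lit 79) = true := by decide +kernel
def p14_9_0_79 : pfC (piC [(nat_lit 42686981), (nat_lit 27030628), (nat_lit 20024807), (nat_lit 13470738)] (nat_lit 27030628)) p14_9_0 (nat_lit 4) (nat_lit 79) (nat_lit 80) = true := by decide +kernel
def p14_9_0_80 : pfC (piC [(nat_lit 42686981), (nat_lit 27030628), (nat_lit 20024807), (nat_lit 13470738)] (nat_lit 27030628)) p14_9_0 (nat_lit 4) (nat_lit 80) (nat_lit 81) = true := by decide +kernel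
def p14_9_0_81 : pfC (piC [(nat_lit 42686981), (nat_lit 27030628), (nat_lit 20024807), (nat_lit 13470738)] (nat_lit 27030628)) p14_9_0 (nat_lit 4) (nat_lit 81) (nat_lit 82) = true := by decide +kernel
def p14_9_0_82 : pfC (piC [(nat_lit 42686981), (nat_lit 27030628), (nat_lit 20024807), (nat_lit 13470738)] (nat_lit 27030628)) p14_9_0 (nat_lit 4) (nat_lit 82) (nat_lit 83) = true := by decide +kernel
def p14_9_0_83 : pfC (piC [(nat_lit 42686981), (nat_lit 27030628), (nat_lit 20024807), (nat_lit 13470738)] (nat_lit 27030628)) p14_9_0 (nat_lit 4) (nat_lit 83) (nat_lit 84) = true := by decide +kernel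
def p14_9_0_84 : pfC (piC [(nat_lit 42686981), (nat_lit 27030628), (nat_lit 20024807), (nat_lit 13470738)] (nat_lit 27030628)) p14_9_0 (nat_lit 4) (nat_lit 84) (nat_lit 85) = true := by decide +kernel
def p14_9_0_85 : pfC (piC [(nat_lit 42686981), (nat_lit 27030628), (nat_lit 20024807), (nat_lit 13470738)] (nat_lit 27030628)) p14_9_0 (nat_lit 4) (nat_lit 85) (nat_lit 86) = true := by decide +kernel
def p14_9_0_86 : pfC (piC [(nat_lit 42686981), (nat_lit 27030628), (nat_lit 20024807), (nat_lit 13470738)] (nat_lit 27030628)) p14_9_0 (nat_lit 4) (nat_lit 86) (nat_lit 87) = true := by decide +kernel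
def p14_9_0_87 : pfC (piC [(nat_lit 42686981), (nat_lit 27030628), (nat_lit 20024807), (nat_lit 13470738)] (nat_lit 27030628)) p14_9_0 (nat_lit 4) (nat_lit 87) (nat_lit 88) = true := by decide +kernel
def p14_9_0_88 : pfC (piC [(nat_lit 42686981), (nat_lit 27030628), (nat_lit 20024807), (nat_lit 13470738)] (nat_lit 27030628)) p14_9_0 (nat_lit 4) (nat_lit 88) (nat_lit 89) = true := by decide +kernel
def p14_9_0_89 : pfC (piC [(nat_lit 42686981), (nat_lit 27030628), (nat_lit 20024807), (nat_lit 13470738)] (nat_lit 27030628)) p14_9_0 (nat_lit 4) (nat_lit 89) (nat_lit 90) = true := by decide +kernel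
def p14_9_0_90 : pfC (piC [(nat_lit 42686981), (nat_lit 27030628), (nat_lit 20024807), (nat_lit 13470738)] (nat_lit 27030628)) p14_9_0 (nat_lit 4) (nat_lit 90) (nat_lit 91) = true := by decide +kernel
def p14_9_0_91 : pfC (piC [(nat_lit 42686981), (nat_lit 27030628), (nat_lit 20024807), (nat_lit 13470738)] (nat_lit 27030628)) p14_9_0 (nat_lit 4) (nat_lit 91) (nat_lit 92) = true := by decide +kernel
def p14_9_0_92 : pfC (piC [(nat_lit 42686981), (nat_lit 27030628), (nat_lit 20024807), (nat_lit 13470738)] (nat_lit 27030628)) p14_9_0 (nat_lit 4) (nat_lit 92) (nat_lit 93) = true := by decide +kernel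
def p14_9_0_93 : pfC (piC [(nat_lit 42686981), (nat_lit 27030628), (nat_lit 20024807), (nat_lit 13470738)] (nat_lit 27030628)) p14_9_0 (nat_lit 4) (nat_lit 93) (nat_lit 94) = true := by decide +kernel
def p14_9_0_94 : pfC (piC [(nat_lit 42686981), (nat_lit 27030628), (nat_lit 20024807), (nat_lit 13470738)] (nat_lit 27030628)) p14_9_0 (nat_lit 4) (nat_lit 94) (nat_lit 95) = true := by decide +kernel
def p14_9_0_95 : pfC (piC [(nat_lit 42686981), (nat_lit 27030628), (nat_lit 20024807), (nat_lit 13470738)] (nat_lit 27030628)) p14_9_0 (nat_lit 4) (nat_lit 95) (nat_lit 96) = true := by decide +kernel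
def p14_9_0_96 : pfC (piC [(nat_lit 42686981), (nat_lit 27030628), (nat_lit 20024807), (nat_lit 13470738)] (nat_lit 27030628)) p14_9_0 (nat_lit 4) (nat_lit 96) (nat_lit 97) = true := by decide +kernel
def p14_9_0_97 : pfC (piC [(nat_lit 42686981), (nat_lit 27030628), (nat_lit 20024807), (nat_lit 13470738)] (nat_lit 27030628)) p14_9_0 (nat_lit 4) (nat_lit 97) (nat_lit 98) = true := by decide +kernel
def p14_9_0_98 : pfC (piC [(nat_lit 42686981), (nat_lit 27030628), (nat_lit 20024807), (nat_lit 13470738)] (nat_lit 27030628)) p14_9_0 (nat_lit 4) (nat_lit 98) (nat_lit 99) = true := by decide +kernel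
def p14_9_0_99 : pfC (piC [(nat_lit 42686981), (nat_lit 27030628), (nat_lit 20024807), (nat_lit 13470738)] (nat_lit 27030628)) p14_9_0 (nat_lit 4) (nat_lit 99) (nat_lit 100) = true := by decide +kernel
def p14_9_0_100 : pfC (piC [(nat_lit 42686981), (nat_lit 27030628), (nat_lit 20024807), (nat_lit 13470738)] (nat_lit 27030628)) p14_9_0 (nat_lit 4) (nat_lit 100) (nat_lit 101) = true := by decide +kernel
def p14_9_0_101 : pfC (piC [(nat_lit 42686981), (nat_lit 27030628), (nat_lit 20024807), (nat_lit 13470738)] (nat_lit 27030628)) p14_9_0 (nat_lit 4) (nat_lit 101) (nat_lit 102) = true := by decide +kernel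
def p14_9_0_102 : pfC (piC [(nat_lit 42686981), (nat_lit 27030628), (nat_lit 20024807), (nat_lit 13470738)] (nat_lit 27030628)) p14_9_0 (nat_lit 4) (nat_lit 102) (nat_lit 103) = true := by decide +kernel
def p14_9_0_103 : pfC (piC [(nat_lit 42686981), (nat_lit 27030628), (nat_lit 20024807), (nat_lit 13470738)] (nat_lit 27030628)) p14_9_0 (nat_lit 4) (nat_lit 103) (nat_lit 104) = true := by decide +kernel
def p14_9_0_104 : pfC (piC [(nat_lit 42686981), (nat_lit 27030628), (nat_lit 20024807), (nat_lit 13470738)] (nat_lit 27030628)) p14_9_0 (nat_lit 4) (nat_lit 104) (nat_lit 105) = true := by decide +kernel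
def p14_9_0_105 : pfC (piC [(nat_lit 42686981), (nat_lit 27030628), (nat_lit 20024807), (nat_lit 13470738)] (nat_lit 27030628)) p14_9_0 (nat_lit 4) (nat_lit 105) (nat_lit 106) = true := by decide +kernel
def p14_9_0_106 : pfC (piC [(nat_lit 42686981), (nat_lit 27030628), (nat_lit 20024807), (nat_lit 13470738)] (nat_lit 27030628)) p14_9_0 (nat_lit 4) (nat_lit 106) (nat_lit 107) = true := by decide +kernel
def p14_9_0_107 : pfC (piC [(nat_lit 42686981), (nat_lit 27030628), (nat_lit 20024807), (nat_lit 13470738)] (nat_lit 27030628)) p14_9_0 (nat_lit 4) (nat_lit 107) (nat_lit 108) = true := by decide +kernel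
def p14_9_0_108 : pfC (piC [(nat_lit 42686981), (nat_lit 27030628), (nat_lit 20024807), (nat_lit 13470738)] (nat_lit 27030628)) p14_9_0 (nat_lit 4) (nat_lit 108) (nat_lit 109) = true := by decide +kernel
def p14_9_0_109 : pfC (piC [(nat_lit 42686981), (nat_lit 27030628), (nat_lit 20024807), (nat_lit 13470738)] (nat_lit 27030628)) p14_9_0 (nat_lit 4) (nat_lit 109) (nat_lit 110) = true := by decide +kernel
def p14_9_0_110 : pfC (piC [(nat_lit 42686981), (nat_lit 27030628), (nat_lit 20024807), (nat_lit 13470738)] (nat_lit 27030628)) p14_9_0 (nat_lit 4) (nat_lit 110) (nat_lit 111) = true := by decide +kernel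
def p14_9_0_111 : pfC (piC [(nat_lit 42686981), (nat_lit 27030628), (nat_lit 20024807), (nat_lit 13470738)] (nat_lit 27030628)) p14_9_0 (nat_lit 4) (nat_lit 111) (nat_lit 112) = true := by decide +kernel
def p14_9_0_112 : pfC (piC [(nat_lit 42686981), (nat_lit 27030628), (nat_lit 20024807), (nat_lit 13470738)] (nat_lit 27030628)) p14_9_0 (nat_lit 4) (nat_lit 112) (nat_lit 113) = true := by decide +kernel
def p14_9_0_113 : pfC (piC [(nat_lit 42686981), (nat_lit 27030628), (nat_lit 20024807), (nat_lit 13470738)] (nat_lit 27030628)) p14_9_0 (nat_lit 4) (nat_lit 113) (nat_lit 114) = true := by decide +kernel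
def p14_9_0_114 : pfC (piC [(nat_lit 42686981), (nat_lit 27030628), (nat_lit 20024807), (nat_lit 13470738)] (nat_lit 27030628)) p14_9_0 (nat_lit 4) (nat_lit 114) (nat_lit 115) = true := by decide +kernel
def p14_9_0_115 : pfC (piC [(nat_lit 42686981), (nat_lit 27030628), (nat_lit 20024807), (nat_lit 13470738)] (nat_lit 27030628)) p14_9_0 (nat_lit 4) (nat_lit 115) (nat_lit 116) = true := by decide +kernel
def p14_9_0_116 : pfC (piC [(nat_lit 42686981), (nat_lit 27030628), (nat_lit 20024807), (nat_lit 13470738)] (nat_lit 27030628)) p14_9_0 (nat_lit 4) (nat_lit 116) (nat_lit 117) = true := by decide +kernel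
def p14_9_0_117 : pfC (piC [(nat_lit 42686981), (nat_lit 27030628), (nat_lit 20024807), (nat_lit 13470738)] (nat_lit 27030628)) p14_9_0 (nat_lit 4) (nat_lit 117) (nat_lit 118) = true := by decide +kernel
def p14_9_0_118 : pfC (piC [(nat_lit 42686981), (nat_lit 27030628), (nat_lit 20024807), (nat_lit 13470738)] (nat_lit 27030628)) p14_9_0 (nat_lit 4) (nat_lit 118) (nat_lit 119) = true := by decide +kernel
def p14_9_0_119 : pfC (piC [(nat_lit 42686981), (nat_lit 27030628), (nat_lit 20024807), (nat_lit 13470738)] (nat_lit 27030628)) p14_9_0 (nat_lit 4) (nat_lit 119) (nat_lit 120) = true := by decide +kernel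
def p14_9_0_120 : pfC (piC [(nat_lit 42686981), (nat_lit 27030628), (nat_lit 20024807), (nat_lit 13470738)] (nat_lit 27030628)) p14_9_0 (nat_lit 4) (nat_lit 120) (nat_lit 121) = true := by decide +kernel
def p14_9_0_121 : pfC (piC [(nat_lit 42686981), (nat_lit 27030628), (nat_lit 20024807), (nat_lit 13470738)] (nat_lit 27030628)) p14_9_0 (nat_lit 4) (nat_lit 121) (nat_lit 122) = true := by decide +kernel
def p14_9_0_122 : pfC (piC [(nat_lit 42686981), (nat_lit 27030628), (nat_lit 20024807), (nat_lit 13470738)] (nat_lit 27030628)) p14_9_0 (nat_lit 4) (nat_lit 122) (nat_lit 123) = true := by decide +kernel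
def p14_9_0_123 : pfC (piC [(nat_lit 42686981), (nat_lit 27030628), (nat_lit 20024807), (nat_lit 13470738)] (nat_lit 27030628)) p14_9_0 (nat_lit 4) (nat_lit 123) (nat_lit 124) = true := by decide +kernel
def p14_9_0_124 : pfC (piC [(nat_lit 42686981), (nat_lit 27030628), (nat_lit 20024807), (nat_lit 13470738)] (nat_lit 27030628)) p14_9_0 (nat_lit 4) (nat_lit 124) (nat_lit 125) = true := by decide +kernel
def p14_9_0_125 : pfC (piC [(nat_lit 42686981), (nat_lit 27030628), (nat_lit 20024807), (nat_lit 13470738)] (nat_lit 27030628)) p14_9_0 (nat_lit 4) (nat_lit 125) (nat_lit 126) = true := by decide +kernel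
def p14_9_0_126 : pfC (piC [(nat_lit 42686981), (nat_lit 27030628), (nat_lit 20024807), (nat_lit 13470738)] (nat_lit 27030628)) p14_9_0 (nat_lit 4) (nat_lit 126) (nat_lit 127) = true := by decide +kernel
def p14_9_0_127 : pfC (piC [(nat_lit 42686981), (nat_lit 27030628), (nat_lit 20024807), (nat_lit 13470738)] (nat_lit 27030628)) p14_9_0 (nat_lit 4) (nat_lit 127) (nat_lit 128) = true := by decide +kernel
def p14_9_0_128 : pfC (piC [(nat_lit 42686981), (nat_lit 27030628), (nat_lit 20024807), (nat_lit 13470738)] (nat_lit 27030628)) p14_9_0 (nat_lit 4) (nat_lit 128) (nat_lit 129) = true := by decide +kernel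
def p14_9_0_129 : pfC (piC [(nat_lit 42686981), (nat_lit 27030628), (nat_lit 20024807), (nat_lit 13470738)] (nat_lit 27030628)) p14_9_0 (nat_lit 4) (nat_lit 129) (nat_lit 130) = true := by decide +kernel
def p14_9_0_130 : pfC (piC [(nat_lit 42686981), (nat_lit 27030628), (nat_lit 20024807), (nat_lit 13470738)] (nat_lit 27030628)) p14_9_0 (nat_lit 4) (nat_lit 130) (nat_lit 131) = true := by decide +kernel
def p14_9_0_131 : pfC (piC [(nat_lit 42686981), (nat_lit 27030628), (nat_lit 20024807), (nat_lit 13470738)] (nat_lit 27030628)) p14_9_0 (nat_lit 4) (nat_lit 131) (nat_lit 132) = true := by decide +kernel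
def p14_9_0_132 : pfC (piC [(nat_lit 42686981), (nat_lit 27030628), (nat_lit 20024807), (nat_lit 13470738)] (nat_lit 27030628)) p14_9_0 (nat_lit 4) (nat_lit 132) (nat_lit 133) = true := by decide +kernel
theorem p14_9_0_T : PfS (PiF n14_9.reverse (nat_lit 27030628)) p14_9_0 (nat_lit 4) [] 0 :=
  pftab_of (los := [(nat_lit 42686981), (nat_lit 27030628), (nat_lit 20024807), (nat_lit 13470738)]) (by decide +kernel) (hi := (nat_lit 133)) (PfP.trans (PfP.trans (PfP.trans (PfP.trans (PfP.trans (PfP.trans (PfP.trans (PfP.trans (PfP.trans (PfP.trans (PfP.trans (PfP.trans (PfP.trans (PfP.trans (PfP.trans (PfP.trans (PfP.trans (PfP.trans (PfP.trans (PfP.trans (PfP.trans (PfP.trans (PfP.trans (PfP.trans (PfP.trans (PfP.trans (PfP.trans (PfP.trans (PfP.trans (PfP.trans (PfP.trans (PfP.trans (PfP.trans (PfP.trans (PfP.trans (PfP.trans (PfP.trans (PfP.trans (PfP.trans (PfP.trans (PfP.trans (PfP.trans (PfP.trans (PfP.trans (PfP.trans (PfP.trans (PfP.trans (PfP.trans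 (PfP.trans (PfP.trans (PfP.trans (PfP.trans (PfP.trans (PfP.trans (PfP.trans (PfP.trans (PfP.trans (PfP.trans (PfP.trans (PfP.trans (PfP.trans (PfP.trans (PfP.trans (PfP.trans (PfP.trans (PfP.trans (PfP.trans (PfP.trans (PfP.trans (PfP.trans (PfP.trans (PfP.trans (PfP.trans (PfP.trans (PfP.trans (PfP.trans (PfP.trans (PfP.trans (PfP.trans (PfP.trans (PfP.trans (PfP.trans (PfP.trans (PfP.trans (PfP.trans (PfP.trans (PfP.trans (PfP.trans (PfP.trans (PfP.trans (PfP.trans (PfP.trans (PfP.trans (PfP.trans (PfP.trans (PfP.trans (PfP.trans (PfP.trans (PfP.trans (PfP.trans (PfP.trans (PfP.trans (PfP.trans (PfP.trans (PfP.trans (PfP.trans (PfP.trans (PfP.trans (PfP.trans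
 (PfP.trans (PfP.trans (PfP.trans (PfP.trans (PfP.trans (PfP.trans (PfP.trans (PfP.trans (PfP.trans (PfP.trans (PfP.trans (PfP.trans (PfP.trans (PfP.trans (PfP.trans (PfP.trans (PfP.trans (PfP.trans (PfP.trans (PfP.trans (PfP.trans (PfP.trans (PfP.trans (pfC_sound p14_9_0_0) (pfC_sound p14_9_0_1)) (pfC_sound p14_9_0_2)) (pfC_sound p14_9_0_3)) (pfC_sound p14_9_0_4)) (pfC_sound p14_9_0_5)) (pfC_sound p14_9_0_6)) (pfC_sound p14_9_0_7)) (pfC_sound p14_9_0_8)) (pfC_sound p14_9_0_9)) (pfC_sound p14_9_0_10)) (pfC_sound p14_9_0_11)) (pfC_sound p14_9_0_12)) (pfC_sound p14_9_0_13)) (pfC_sound p14_9_0_14)) (pfC_sound p14_9_0_15)) (pfC_sound p14_9_0_16)) (pfC_sound p14_9_0_17)) (pfC_sound p14_9_0_18)) (pfC_sound p14_9_0_19)) (pfC_sound p14_9_0_20)) (pfC_sound p14_9_0_21)) (pfC_sound p14_9_0_22)) (pfC_sound p14_9_0_23)) (pfC_sound p14_9_0_24)) (pfC_sound p14_9_0_25)) (pfC_sound p14_9_0_26)) (pfC_sound p14_9_0_27)) (pfC_sound p14_9_0_28)) (pfC_sound p14_9_0_29))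 (pfC_sound p14_9_0_30)) (pfC_sound p14_9_0_31)) (pfC_sound p14_9_0_32)) (pfC_sound p14_9_0_33)) (pfC_sound p14_9_0_34)) (pfC_sound p14_9_0_35)) (pfC_sound p14_9_0_36)) (pfC_sound p14_9_0_37)) (pfC_sound p14_9_0_38)) (pfC_sound
 p14_9_0_39)) (pfC_sound p14_9_0_40)) (pfC_sound p14_9_0_41)) (pfC_sound p14_9_0_42)) (pfC_sound p14_9_0_43)) (pfC_sound p14_9_0_44)) (pfC_sound p14_9_0_45)) (pfC_sound p14_9_0_46)) (pfC_sound p14_9_0_47)) (pfC_sound p14_9_0_48)) (pfC_sound p14_9_0_49)) (pfC_sound p14_9_0_50)) (pfC_sound p14_9_0_51)) (pfC_sound p14_9_0_52)) (pfC_sound p14_9_0_53)) (pfC_sound p14_9_0_54)) (pfC_sound p14_9_0_55)) (pfC_sound p14_9_0_56)) (pfC_sound p14_9_0_57)) (pfC_sound p14_9_0_58)) (pfC_sound p14_9_0_59)) (pfC_sound p14_9_0_60)) (pfC_sound p14_9_0_61)) (pfC_sound p14_9_0_62)) (pfC_sound p14_9_0_63)) (pfC_sound p14_9_0_64)) (pfC_sound p14_9_0_65)) (pfC_sound p14_9_0_66)) (pfC_sound p14_9_0_67)) (pfC_sound p14_9_0_68)) (pfC_sound p14_9_0_69)) (pfC_sound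 p14_9_0_70)) (pfC_sound p14_9_0_71)) (pfC_sound p14_9_0_72)) (pfC_sound p14_9_0_73)) (pfC_sound p14_9_0_74)) (pfC_sound p14_9_0_75)) (pfC_sound p14_9_0_76)) (pfC_sound p14_9_0_77)) (pfC_sound p14_9_0_78)) (pfC_sound p14_9_0_79)) (pfC_sound p14_9_0_80)) (pfC_sound p14_9_0_81)) (pfC_sound p14_9_0_82)) (pfC_sound p14_9_0_83)) (pfC_sound p14_9_0_84)) (pfC_sound p14_9_0_85)) (pfC_sound p14_9_0_86)) (pfC_sound p14_9_0_87)) (pfC_sound p14_9_0_88)) (pfC_sound
 p14_9_0_89)) (pfC_sound p14_9_0_90)) (pfC_sound p14_9_0_91)) (pfC_sound p14_9_0_92)) (pfC_sound p14_9_0_93)) (pfC_sound p14_9_0_94)) (pfC_sound p14_9_0_95)) (pfC_sound p14_9_0_96)) (pfC_sound p14_9_0_97)) (pfC_sound p14_9_0_98)) (pfC_sound p14_9_0_99)) (pfC_sound p14_9_0_100)) (pfC_sound p14_9_0_101)) (pfC_sound p14_9_0_102)) (pfC_sound p14_9_0_103)) (pfC_sound p14_9_0_104)) (pfC_sound p14_9_0_105)) (pfC_sound p14_9_0_106)) (pfC_sound p14_9_0_107)) (pfC_sound p14_9_0_108)) (pfC_sound p14_9_0_109)) (pfC_sound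 p14_9_0_110)) (pfC_sound p14_9_0_111)) (pfC_sound p14_9_0_112)) (pfC_sound p14_9_0_113)) (pfC_sound p14_9_0_114)) (pfC_sound p14_9_0_115)) (pfC_sound p14_9_0_116)) (pfC_sound p14_9_0_117)) (pfC_sound p14_9_0_118)) (pfC_sound p14_9_0_119)) (pfC_sound p14_9_0_120)) (pfC_sound p14_9_0_121)) (pfC_sound p14_9_0_122)) (pfC_sound p14_9_0_123)) (pfC_sound p14_9_0_124)) (pfC_sound p14_9_0_125)) (pfC_sound p14_9_0_126)) (pfC_sound p14_9_0_127)) (pfC_sound p14_9_0_128)) (pfC_sound p14_9_0_129)) (pfC_sound p14_9_0_130)) (pfC_sound p14_9_0_131)) (pfC_sound p14_9_0_132)) (by decide +kernel)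

def z14_9_0 : zOK yB14_9 (nat_lit 0) (nat_lit 0) (nat_lit 400) (nat_lit 27030628) (nat_lit 10300196) = true := by decide +kernel
def g14_9_0 : gOK yB14_9.x P14_9 (nat_lit 1432) (q14_9 :: r14_9) (nat_lit 0) (nat_lit 0) (nat_lit 1) (nat_lit 400) (nat_lit 0) (nat_lit 11000000) (nat_lit 12712500) (nat_lit 12712500) [(nat_lit 800), (nat_lit 1400), (nat_lit 1530)] = true := by decide +kernel
def v14_9_0 : ivC P14_9 s14_9 w14_9 n14_9 (nat_lit 4) (nat_lit 5480) (nat_lit 0) (nat_lit 0) f144_1_0 f152_1_0 (nat_lit 1) (nat_lit 400) f144_1_400 f152_1_400 (nat_lit 27030628) (nat_lit 10300196) p14_9_0 = true := by decide +kernel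
def p14_9_1 : PF := (PF.cons (PF.cons (PF.cons (PF.cons (PF.leaf (nat_lit 2141604) (nat_lit 10285045) (nat_lit 56823767) (nat_lit 10285045) [(nat_lit 0), (nat_lit 0), (nat_lit 0), (nat_lit 0)]) (PF.cons (PF.leaf (nat_lit 2259008) (nat_lit 190950) (nat_lit 56618576) (nat_lit 10299285) [(nat_lit 190950), (nat_lit 0), (nat_lit 0), (nat_lit 0)]) (PF.cons (PF.leaf (nat_lit 2400674) (nat_lit 208016) (nat_lit 56377740) (nat_lit 10315039) [(nat_lit 208016), (nat_lit 0), (nat_lit 0), (nat_lit 0)]) (PF.cons (PF.leaf (nat_lit 2560211) (nat_lit 223307) (nat_lit 56107355) (nat_lit 10331534) [(nat_lit 223307), (nat_lit 0), (nat_lit 0), (nat_lit 0)]) (PF.cons (PF.leaf (nat_lit 2735195) (nat_lit 237239) (nat_lit 55811677) (nat_lit 10348176) [(nat_lit 237239), (nat_lit 0), (nat_lit 0), (nat_lit 0)]) (PF.cons (PF.leaf (nat_lit 2924175) (nat_lit 250074) (nat_lit 55493952) (nat_lit 10364486) [(nat_lit 250074), (nat_lit 0), (nat_lit 0), (nat_lit 0)]) (PF.cons PF.nil (PF.cons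 PF.nil (PF.cons PF.nil PF.nil))))))))) (PF.cons (PF.cons (PF.leaf (nat_lit 2623020) (nat_lit 1053131) (nat_lit 55706620) (nat_lit 10349060) [(nat_lit 0), (nat_lit 1053131), (nat_lit 0), (nat_lit 0)]) (PF.cons (PF.leaf (nat_lit 2779855) (nat_lit
 235162) (nat_lit 55433181) (nat_lit 10362682) [(nat_lit 235162), (nat_lit 1077787), (nat_lit 0), (nat_lit 0)]) (PF.cons (PF.leaf (nat_lit 2955150) (nat_lit 248509) (nat_lit 55133055) (nat_lit 10376306) [(nat_lit 248509), (nat_lit 1102432), (nat_lit 0), (nat_lit 0)]) (PF.cons (PF.leaf (nat_lit 3144625) (nat_lit 260748) (nat_lit 54810469) (nat_lit 10389443) [(nat_lit 260748), (nat_lit 1126654), (nat_lit 0), (nat_lit 0)]) (PF.cons (PF.leaf (nat_lit 3346798) (nat_lit 272082) (nat_lit 54468556) (nat_lit 10401710) [(nat_lit 272082), (nat_lit 1150216), (nat_lit 0), (nat_lit 0)]) (PF.cons PF.nil (PF.cons PF.nil PF.nil))))))) (PF.cons (PF.cons (PF.leaf (nat_lit 3180646) (nat_lit 1138716) (nat_lit 54433238) (nat_lit 10398140)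 [(nat_lit 0), (nat_lit 1138716), (nat_lit 0), (nat_lit 0)]) (PF.cons (PF.leaf (nat_lit 3367736) (nat_lit 270079) (nat_lit 54110062) (nat_lit 10408022) [(nat_lit 270079), (nat_lit 1160324), (nat_lit 0), (nat_lit 0)]) (PF.cons (PF.leaf (nat_lit 3569435) (nat_lit 281001) (nat_lit 53766781) (nat_lit 10416953) [(nat_lit 281001), (nat_lit 1181537), (nat_lit 0), (nat_lit 0)]) (PF.cons PF.nil (PF.cons PF.nil PF.nil))))) (PF.cons (PF.cons (PF.leaf (nat_lit 3795157) (nat_lit
 1210022) (nat_lit 53052925) (nat_lit 10425820) [(nat_lit 0), (nat_lit 1210022), (nat_lit 0), (nat_lit 0)]) (PF.cons (PF.leaf (nat_lit 4005872) (nat_lit 298654) (nat_lit 52693947) (nat_lit 10430180) [(nat_lit 298654), (nat_lit 1228677), (nat_lit 0), (nat_lit 0)]) (PF.cons PF.nil (PF.cons PF.nil PF.nil)))) (PF.cons (PF.cons (PF.leaf (nat_lit 4451694) (nat_lit 1269222) (nat_lit 51602706) (nat_lit 10429216) [(nat_lit 0), (nat_lit 1269222), (nat_lit 0), (nat_lit 0)]) (PF.cons PF.nil PF.nil))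 (PF.cons PF.nil PF.nil)))))) (PF.cons (PF.cons (PF.cons (PF.leaf (nat_lit 3179733) (nat_lit 2944256) (nat_lit 53773832) (nat_lit 10390724) [(nat_lit 0), (nat_lit 0), (nat_lit 2944256), (nat_lit 0)]) (PF.cons (PF.leaf (nat_lit 3346505) (nat_lit 256077) (nat_lit 53487639) (nat_lit 10397368) [(nat_lit 256077), (nat_lit 0), (nat_lit 2967727), (nat_lit 0)]) (PF.cons (PF.leaf (nat_lit 3530888) (nat_lit 268847) (nat_lit 53175899) (nat_lit 10403375) [(nat_lit 268847), (nat_lit 0), (nat_lit 2991842), (nat_lit 0)]) (PF.cons (PF.leaf (nat_lit 3728951) (nat_lit 280383) (nat_lit 52843201) (nat_lit 10408405) [(nat_lit 280383), (nat_lit 0), (nat_lit 3016055), (nat_lit 0)]) (PF.cons (PF.leaf (nat_lit 3938734)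
 (nat_lit 290935) (nat_lit 52492881) (nat_lit 10412199) [(nat_lit 290935), (nat_lit 0), (nat_lit 3039990), (nat_lit 0)]) PF.nil))))) (PF.cons (PF.cons (PF.leaf (nat_lit 3755975) (nat_lit 1200030) (nat_lit 52468126) (nat_lit 10407835) [(nat_lit 0), (nat_lit 1200030), (nat_lit 3032820), (nat_lit 0)]) (PF.cons (PF.leaf (nat_lit 3950450) (nat_lit 287846) (nat_lit 52138270) (nat_lit 10409928) [(nat_lit 287846), (nat_lit 1218521), (nat_lit 3054245), (nat_lit 0)]) (PF.cons (PF.leaf (nat_lit 4158548) (nat_lit 298087) (nat_lit 51789807) (nat_lit 10410728) [(nat_lit 298087), (nat_lit 1236575), (nat_lit 3075526), (nat_lit 0)]) (PF.cons PF.nil PF.nil)))) (PF.cons (PF.cons (PF.leaf (nat_lit 4380742) (nat_lit 1259265) (nat_lit 51079491) (nat_lit 10403512) [(nat_lit 0), (nat_lit 1259265), (nat_lit 3107278), (nat_lit 0)]) (PF.cons (PF.leaf (nat_lit 4596254) (nat_lit 313454) (nat_lit 50719574) (nat_lit 10399968) [(nat_lit 313454), (nat_lit 1275060), (nat_lit 3125694),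 (nat_lit 0)]) PF.nil)) (PF.cons PF.nil (PF.cons PF.nil PF.nil))))) (PF.cons (PF.cons (PF.cons (PF.leaf (nat_lit 4324788) (nat_lit 3102443) (nat_lit 50528510) (nat_lit 10375416) [(nat_lit 0), (nat_lit 0), (nat_lit 3102443), (nat_lit
 0)]) (PF.cons (PF.leaf (nat_lit 4524332) (nat_lit 302308) (nat_lit 50197362) (nat_lit 10370595) [(nat_lit 302308), (nat_lit 0), (nat_lit 3119272), (nat_lit 0)]) (PF.cons (PF.leaf (nat_lit 4736882) (nat_lit 311913) (nat_lit 49849038) (nat_lit 10364255) [(nat_lit 311913), (nat_lit 0), (nat_lit 3135845), (nat_lit 0)]) (PF.cons PF.nil PF.nil)))) (PF.cons (PF.cons (PF.leaf (nat_lit 4954107) (nat_lit 1296830) (nat_lit 49150904) (nat_lit 10343490) [(nat_lit 0), (nat_lit 1296830), (nat_lit 3158793), (nat_lit 0)]) (PF.cons PF.nil PF.nil)) (PF.cons PF.nil PF.nil))) (PF.cons (PF.cons (PF.cons (PF.leaf (nat_lit 5512676) (nat_lit 3191291) (nat_lit 47282134) (nat_lit 10252805) [(nat_lit 0), (nat_lit 0), (nat_lit 3191291), (nat_lit 0)])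 (PF.cons PF.nil PF.nil)) (PF.cons PF.nil PF.nil)) (PF.cons PF.nil (PF.cons PF.nil PF.nil)))))) (PF.cons (PF.cons (PF.cons (PF.cons (PF.leaf (nat_lit 4143360) (nat_lit 8109248) (nat_lit 48800809) (nat_lit 10198754) [(nat_lit 0), (nat_lit 0), (nat_lit 0), (nat_lit 8109248)]) (PF.cons (PF.leaf (nat_lit 4311597) (nat_lit 269323) (nat_lit 48534754) (nat_lit 10193155) [(nat_lit 269323), (nat_lit 0), (nat_lit 0), (nat_lit 8111578)]) (PF.cons (PF.leaf (nat_lit 4496623)
 (nat_lit 281632) (nat_lit 48246140) (nat_lit 10186196) [(nat_lit 281632), (nat_lit 0), (nat_lit 0), (nat_lit 8113211)]) (PF.cons (PF.leaf (nat_lit 4694222) (nat_lit 292552) (nat_lit 47939386) (nat_lit 10177812) [(nat_lit 292552), (nat_lit 0), (nat_lit 0), (nat_lit 8113955)]) (PF.cons (PF.leaf (nat_lit 4902571) (nat_lit 302376) (nat_lit 47617691) (nat_lit 10167950) [(nat_lit 302376), (nat_lit 0), (nat_lit 0), (nat_lit 8113667)]) (PF.cons (PF.leaf (nat_lit 5120266) (nat_lit 311298) (nat_lit 47283516)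 (nat_lit 10156565) [(nat_lit 311298), (nat_lit 0), (nat_lit 0), (nat_lit 8112237)]) (PF.cons PF.nil PF.nil))))))) (PF.cons (PF.cons (PF.leaf (nat_lit 4709106) (nat_lit 1236056) (nat_lit 47600475) (nat_lit 10163318) [(nat_lit 0), (nat_lit 1236056), (nat_lit 0), (nat_lit 8108962)]) (PF.cons (PF.leaf (nat_lit 4902081) (nat_lit 298192) (nat_lit 47298607) (nat_lit 10153047) [(nat_lit 298192), (nat_lit 1251257), (nat_lit 0), (nat_lit 8107708)]) (PF.cons (PF.leaf (nat_lit 5107639) (nat_lit 307729) (nat_lit 46980835) (nat_lit 10141231) [(nat_lit 307729), (nat_lit 1265889), (nat_lit 0), (nat_lit 8105397)]) (PF.cons (PF.leaf (nat_lit 5322935) (nat_lit 316342) (nat_lit 46650140) (nat_lit 10127860)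
 [(nat_lit 316342), (nat_lit 1279849), (nat_lit 0), (nat_lit 8101936)]) (PF.cons PF.nil PF.nil))))) (PF.cons (PF.cons (PF.leaf (nat_lit 5314324) (nat_lit 1281964) (nat_lit 46341114) (nat_lit 10110452) [(nat_lit 0), (nat_lit 1281964), (nat_lit 0), (nat_lit 8093316)]) (PF.cons (PF.leaf (nat_lit 5525436) (nat_lit 320637) (nat_lit 46015910) (nat_lit 10095300) [(nat_lit 320637), (nat_lit 1294490), (nat_lit 0), (nat_lit 8087983)]) (PF.cons (PF.leaf (nat_lit 5746299) (nat_lit 328254) (nat_lit 45679466) (nat_lit 10078561) [(nat_lit 328254), (nat_lit 1306421), (nat_lit 0), (nat_lit 8081434)]) (PF.cons PF.nil PF.nil)))) (PF.cons (PF.cons (PF.leaf (nat_lit 5946396) (nat_lit 1318253) (nat_lit 45051115) (nat_lit 10040674) [(nat_lit 0), (nat_lit 1318253), (nat_lit 0), (nat_lit 8062261)]) (PF.cons PF.nil PF.nil)) (PF.cons PF.nil PF.nil))))) (PF.cons (PF.cons (PF.cons (PF.leaf (nat_lit 5238394) (nat_lit 3110002) (nat_lit 45864728) (nat_lit 10069372) [(nat_lit 0), (nat_lit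 0), (nat_lit 3110002), (nat_lit 8064709)]) (PF.cons (PF.leaf (nat_lit 5434316) (nat_lit 308694) (nat_lit 45565889) (nat_lit 10054476) [(nat_lit 308694), (nat_lit 0), (nat_lit 3120762), (nat_lit 8058989)]) (PF.cons (PF.leaf
 (nat_lit 5642203) (nat_lit 317613) (nat_lit 45252403) (nat_lit 10037938) [(nat_lit 317613), (nat_lit 0), (nat_lit 3131140), (nat_lit 8052103)]) (PF.cons (PF.leaf (nat_lit 5859197) (nat_lit 325591) (nat_lit 44927221) (nat_lit 10019814) [(nat_lit 325591), (nat_lit 0), (nat_lit 3140984), (nat_lit 8044020)]) (PF.cons PF.nil PF.nil))))) (PF.cons (PF.cons (PF.leaf (nat_lit 5843149) (nat_lit 1305002) (nat_lit 44630674) (nat_lit 9998726) [(nat_lit 0), (nat_lit 1305002), (nat_lit 3142724), (nat_lit 8031685)]) (PF.cons (PF.leaf (nat_lit 6055474) (nat_lit 328827) (nat_lit 44312156) (nat_lit 9979203) [(nat_lit 328827), (nat_lit 1315524), (nat_lit 3151018), (nat_lit 8022082)]) (PF.cons PF.nil (PF.cons PF.nil PF.nil)))) (PF.cons (PF.cons (PF.leaf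 (nat_lit 6470213) (nat_lit 1334264) (nat_lit 43376925) (nat_lit 9913112) [(nat_lit 0), (nat_lit 1334264), (nat_lit 3165268), (nat_lit 7984977)]) (PF.cons PF.nil PF.nil)) PF.nil))) (PF.cons (PF.cons (PF.cons (PF.leaf (nat_lit 6356744) (nat_lit 3150526) (nat_lit 42986501) (nat_lit 9869149) [(nat_lit 0), (nat_lit 0), (nat_lit 3150526), (nat_lit 7952109)]) (PF.cons (PF.leaf (nat_lit 6569207) (nat_lit 335106) (nat_lit 42676522) (nat_lit 9846040) [(nat_lit
 335106), (nat_lit 0), (nat_lit 3156093), (nat_lit 7938957)]) PF.nil)) (PF.cons PF.nil PF.nil)) (PF.cons PF.nil (PF.cons PF.nil PF.nil))))) (PF.cons (PF.cons (PF.cons (PF.cons (PF.leaf (nat_lit 6051947) (nat_lit 7804874) (nat_lit 41810907) (nat_lit 9688156) [(nat_lit 0), (nat_lit 0), (nat_lit 0), (nat_lit 7804874)]) (PF.cons (PF.leaf (nat_lit 6242667) (nat_lit 309760) (nat_lit 41544478) (nat_lit 9667706) [(nat_lit 309760), (nat_lit 0), (nat_lit 0), (nat_lit 7793433)]) (PF.cons (PF.leaf (nat_lit 6444571)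 (nat_lit 318071) (nat_lit 41265488) (nat_lit 9645611) [(nat_lit 318071), (nat_lit 0), (nat_lit 0), (nat_lit 7780784)]) (PF.cons (PF.leaf (nat_lit 6654816) (nat_lit 325419) (nat_lit 40976587) (nat_lit 9622008) [(nat_lit 325419), (nat_lit 0), (nat_lit 0), (nat_lit 7766978)]) (PF.cons PF.nil PF.nil))))) (PF.cons (PF.cons (PF.leaf (nat_lit 6630739) (nat_lit 1294423) (nat_lit 40716851) (nat_lit 9596909) [(nat_lit 0), (nat_lit 1294423), (nat_lit 0), (nat_lit 7750313)]) (PF.cons (PF.leaf (nat_lit 6835950) (nat_lit 327626) (nat_lit 40434596) (nat_lit 9572549) [(nat_lit 327626), (nat_lit 1302873), (nat_lit 0), (nat_lit 7735583)]) (PF.cons PF.nil (PF.cons PF.nil PF.nil)))) (PF.cons (PF.cons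
 (PF.leaf (nat_lit 7227591) (nat_lit 1316247) (nat_lit 39610931) (nat_lit 9494502) [(nat_lit 0), (nat_lit 1316247), (nat_lit 0), (nat_lit 7685442)]) (PF.cons PF.nil PF.nil)) PF.nil))) (PF.cons (PF.cons (PF.cons (PF.leaf (nat_lit 7104945) (nat_lit 3079690) (nat_lit 39278255) (nat_lit 9449427) [(nat_lit 0), (nat_lit 0), (nat_lit 3079690), (nat_lit 7650719)]) (PF.cons (PF.leaf (nat_lit 7309615) (nat_lit 331799) (nat_lit 39004710) (nat_lit 9422836) [(nat_lit 331799), (nat_lit 0), (nat_lit 3082118), (nat_lit 7633673)]) PF.nil)) (PF.cons PF.nil PF.nil)) (PF.cons PF.nil PF.nil))) (PF.cons (PF.cons (PF.cons (PF.cons (PF.leaf (nat_lit 7775322) (nat_lit 7336371) (nat_lit 36074857) (nat_lit 9024842) [(nat_lit 0), (nat_lit 0), (nat_lit 0), (nat_lit 7336371)]) (PF.cons PF.nil PF.nil)) (PF.cons PF.nil PF.nil)) (PF.cons PF.nil PF.nil)) (PF.cons PF.nil (PF.cons PF.nil (PF.cons PF.nil (PF.cons PF.nil PF.nil))))))))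

def p14_9_1_0 : pfC (piC [(nat_lit 42686981), (nat_lit 27030628), (nat_lit 20024807), (nat_lit 13470738)] (nat_lit 10300196)) p14_9_1 (nat_lit 4) (nat_lit 0) (nat_lit 1) = true := by decide +kernel
def p14_9_1_1 : pfC (piC [(nat_lit 42686981), (nat_lit 27030628), (nat_lit 20024807), (nat_lit 13470738)] (nat_lit 10300196)) p14_9_1 (nat_lit 4) (nat_lit 1) (nat_lit 2) = true := by decide +kernel
def p14_9_1_2 : pfC (piC [(nat_lit 42686981), (nat_lit 27030628), (nat_lit 20024807), (nat_lit 13470738)] (nat_lit 10300196)) p14_9_1 (nat_lit 4) (nat_lit 2) (nat_lit 3) = true := by decide +kernel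
def p14_9_1_3 : pfC (piC [(nat_lit 42686981), (nat_lit 27030628), (nat_lit 20024807), (nat_lit 13470738)] (nat_lit 10300196)) p14_9_1 (nat_lit 4) (nat_lit 3) (nat_lit 4) = true := by decide +kernel
def p14_9_1_4 : pfC (piC [(nat_lit 42686981), (nat_lit 27030628), (nat_lit 20024807), (nat_lit 13470738)] (nat_lit 10300196)) p14_9_1 (nat_lit 4) (nat_lit 4) (nat_lit 5) = true := by decide +kernel
def p14_9_1_5 : pfC (piC [(nat_lit 42686981), (nat_lit 27030628), (nat_lit 20024807), (nat_lit 13470738)] (nat_lit 10300196)) p14_9_1 (nat_lit 4) (nat_lit 5) (nat_lit 6) = true := by decide +kernel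
def p14_9_1_6 : pfC (piC [(nat_lit 42686981), (nat_lit 27030628), (nat_lit 20024807), (nat_lit 13470738)] (nat_lit 10300196)) p14_9_1 (nat_lit 4) (nat_lit 6) (nat_lit 7) = true := by decide +kernel
def p14_9_1_7 : pfC (piC [(nat_lit 42686981), (nat_lit 27030628), (nat_lit 20024807), (nat_lit 13470738)] (nat_lit 10300196)) p14_9_1 (nat_lit 4) (nat_lit 7) (nat_lit 8) = true := by decide +kernel
def p14_9_1_8 : pfC (piC [(nat_lit 42686981), (nat_lit 27030628), (nat_lit 20024807), (nat_lit 13470738)] (nat_lit 10300196)) p14_9_1 (nat_lit 4) (nat_lit 8) (nat_lit 9) = true := by decide +kernel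
def p14_9_1_9 : pfC (piC [(nat_lit 42686981), (nat_lit 27030628), (nat_lit 20024807), (nat_lit 13470738)] (nat_lit 10300196)) p14_9_1 (nat_lit 4) (nat_lit 9) (nat_lit 10) = true := by decide +kernel
def p14_9_1_10 : pfC (piC [(nat_lit 42686981), (nat_lit 27030628), (nat_lit 20024807), (nat_lit 13470738)] (nat_lit 10300196)) p14_9_1 (nat_lit 4) (nat_lit 10) (nat_lit 11) = true := by decide +kernel
def p14_9_1_11 : pfC (piC [(nat_lit 42686981), (nat_lit 27030628), (nat_lit 20024807), (nat_lit 13470738)] (nat_lit 10300196)) p14_9_1 (nat_lit 4) (nat_lit 11) (nat_lit 12) = true := by decide +kernel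
def p14_9_1_12 : pfC (piC [(nat_lit 42686981), (nat_lit 27030628), (nat_lit 20024807), (nat_lit 13470738)] (nat_lit 10300196)) p14_9_1 (nat_lit 4) (nat_lit 12) (nat_lit 13) = true := by decide +kernel
def p14_9_1_13 : pfC (piC [(nat_lit 42686981), (nat_lit 27030628), (nat_lit 20024807), (nat_lit 13470738)] (nat_lit 10300196)) p14_9_1 (nat_lit 4) (nat_lit 13) (nat_lit 14) = true := by decide +kernel
def p14_9_1_14 : pfC (piC [(nat_lit 42686981), (nat_lit 27030628), (nat_lit 20024807), (nat_lit 13470738)] (nat_lit 10300196)) p14_9_1 (nat_lit 4) (nat_lit 14) (nat_lit 15) = true := by decide +kernel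
def p14_9_1_15 : pfC (piC [(nat_lit 42686981), (nat_lit 27030628), (nat_lit 20024807), (nat_lit 13470738)] (nat_lit 10300196)) p14_9_1 (nat_lit 4) (nat_lit 15) (nat_lit 16) = true := by decide +kernel
def p14_9_1_16 : pfC (piC [(nat_lit 42686981), (nat_lit 27030628), (nat_lit 20024807), (nat_lit 13470738)] (nat_lit 10300196)) p14_9_1 (nat_lit 4) (nat_lit 16) (nat_lit 17) = true := by decide +kernel
def p14_9_1_17 : pfC (piC [(nat_lit 42686981), (nat_lit 27030628), (nat_lit 20024807), (nat_lit 13470738)] (nat_lit 10300196)) p14_9_1 (nat_lit 4) (nat_lit 17) (nat_lit 18) = true := by decide +kernel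
def p14_9_1_18 : pfC (piC [(nat_lit 42686981), (nat_lit 27030628), (nat_lit 20024807), (nat_lit 13470738)] (nat_lit 10300196)) p14_9_1 (nat_lit 4) (nat_lit 18) (nat_lit 19) = true := by decide +kernel
def p14_9_1_19 : pfC (piC [(nat_lit 42686981), (nat_lit 27030628), (nat_lit 20024807), (nat_lit 13470738)] (nat_lit 10300196)) p14_9_1 (nat_lit 4) (nat_lit 19) (nat_lit 20) = true := by decide +kernel
def p14_9_1_20 : pfC (piC [(nat_lit 42686981), (nat_lit 27030628), (nat_lit 20024807), (nat_lit 13470738)] (nat_lit 10300196)) p14_9_1 (nat_lit 4) (nat_lit 20) (nat_lit 21) = true := by decide +kernel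
def p14_9_1_21 : pfC (piC [(nat_lit 42686981), (nat_lit 27030628), (nat_lit 20024807), (nat_lit 13470738)] (nat_lit 10300196)) p14_9_1 (nat_lit 4) (nat_lit 21) (nat_lit 22) = true := by decide +kernel
def p14_9_1_22 : pfC (piC [(nat_lit 42686981), (nat_lit 27030628), (nat_lit 20024807), (nat_lit 13470738)] (nat_lit 10300196)) p14_9_1 (nat_lit 4) (nat_lit 22) (nat_lit 23) = true := by decide +kernel
def p14_9_1_23 : pfC (piC [(nat_lit 42686981), (nat_lit 27030628), (nat_lit 20024807), (nat_lit 13470738)] (nat_lit 10300196)) p14_9_1 (nat_lit 4) (nat_lit 23) (nat_lit 24) = true := by decide +kernel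
def p14_9_1_24 : pfC (piC [(nat_lit 42686981), (nat_lit 27030628), (nat_lit 20024807), (nat_lit 13470738)] (nat_lit 10300196)) p14_9_1 (nat_lit 4) (nat_lit 24) (nat_lit 25) = true := by decide +kernel
def p14_9_1_25 : pfC (piC [(nat_lit 42686981), (nat_lit 27030628), (nat_lit 20024807), (nat_lit 13470738)] (nat_lit 10300196)) p14_9_1 (nat_lit 4) (nat_lit 25) (nat_lit 26) = true := by decide +kernel
def p14_9_1_26 : pfC (piC [(nat_lit 42686981), (nat_lit 27030628), (nat_lit 20024807), (nat_lit 13470738)] (nat_lit 10300196)) p14_9_1 (nat_lit 4) (nat_lit 26) (nat_lit 27) = true := by decide +kernel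
def p14_9_1_27 : pfC (piC [(nat_lit 42686981), (nat_lit 27030628), (nat_lit 20024807), (nat_lit 13470738)] (nat_lit 10300196)) p14_9_1 (nat_lit 4) (nat_lit 27) (nat_lit 28) = true := by decide +kernel
def p14_9_1_28 : pfC (piC [(nat_lit 42686981), (nat_lit 27030628), (nat_lit 20024807), (nat_lit 13470738)] (nat_lit 10300196)) p14_9_1 (nat_lit 4) (nat_lit 28) (nat_lit 29) = true := by decide +kernel
def p14_9_1_29 : pfC (piC [(nat_lit 42686981), (nat_lit 27030628), (nat_lit 20024807), (nat_lit 13470738)] (nat_lit 10300196)) p14_9_1 (nat_lit 4) (nat_lit 29) (nat_lit 30) = true := by decide +kernel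
def p14_9_1_30 : pfC (piC [(nat_lit 42686981), (nat_lit 27030628), (nat_lit 20024807), (nat_lit 13470738)] (nat_lit 10300196)) p14_9_1 (nat_lit 4) (nat_lit 30) (nat_lit 31) = true := by decide +kernel
def p14_9_1_31 : pfC (piC [(nat_lit 42686981), (nat_lit 27030628), (nat_lit 20024807), (nat_lit 13470738)] (nat_lit 10300196)) p14_9_1 (nat_lit 4) (nat_lit 31) (nat_lit 32) = true := by decide +kernel
def p14_9_1_32 : pfC (piC [(nat_lit 42686981), (nat_lit 27030628), (nat_lit 20024807), (nat_lit 13470738)] (nat_lit 10300196)) p14_9_1 (nat_lit 4) (nat_lit 32) (nat_lit 33) = true := by decide +kernel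
def p14_9_1_33 : pfC (piC [(nat_lit 42686981), (nat_lit 27030628), (nat_lit 20024807), (nat_lit 13470738)] (nat_lit 10300196)) p14_9_1 (nat_lit 4) (nat_lit 33) (nat_lit 34) = true := by decide +kernel
def p14_9_1_34 : pfC (piC [(nat_lit 42686981), (nat_lit 27030628), (nat_lit 20024807), (nat_lit 13470738)] (nat_lit 10300196)) p14_9_1 (nat_lit 4) (nat_lit 34) (nat_lit 35) = true := by decide +kernel
def p14_9_1_35 : pfC (piC [(nat_lit 42686981), (nat_lit 27030628), (nat_lit 20024807), (nat_lit 13470738)] (nat_lit 10300196)) p14_9_1 (nat_lit 4) (nat_lit 35) (nat_lit 36) = true := by decide +kernel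
def p14_9_1_36 : pfC (piC [(nat_lit 42686981), (nat_lit 27030628), (nat_lit 20024807), (nat_lit 13470738)] (nat_lit 10300196)) p14_9_1 (nat_lit 4) (nat_lit 36) (nat_lit 37) = true := by decide +kernel
def p14_9_1_37 : pfC (piC [(nat_lit 42686981), (nat_lit 27030628), (nat_lit 20024807), (nat_lit 13470738)] (nat_lit 10300196)) p14_9_1 (nat_lit 4) (nat_lit 37) (nat_lit 38) = true := by decide +kernel
def p14_9_1_38 : pfC (piC [(nat_lit 42686981), (nat_lit 27030628), (nat_lit 20024807), (nat_lit 13470738)] (nat_lit 10300196)) p14_9_1 (nat_lit 4) (nat_lit 38) (nat_lit 39) = true := by decide +kernel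
def p14_9_1_39 : pfC (piC [(nat_lit 42686981), (nat_lit 27030628), (nat_lit 20024807), (nat_lit 13470738)] (nat_lit 10300196)) p14_9_1 (nat_lit 4) (nat_lit 39) (nat_lit 40) = true := by decide +kernel
def p14_9_1_40 : pfC (piC [(nat_lit 42686981), (nat_lit 27030628), (nat_lit 20024807), (nat_lit 13470738)] (nat_lit 10300196)) p14_9_1 (nat_lit 4) (nat_lit 40) (nat_lit 41) = true := by decide +kernel
def p14_9_1_41 : pfC (piC [(nat_lit 42686981), (nat_lit 27030628), (nat_lit 20024807), (nat_lit 13470738)] (nat_lit 10300196)) p14_9_1 (nat_lit 4) (nat_lit 41) (nat_lit 42) = true := by decide +kernel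
def p14_9_1_42 : pfC (piC [(nat_lit 42686981), (nat_lit 27030628), (nat_lit 20024807), (nat_lit 13470738)] (nat_lit 10300196)) p14_9_1 (nat_lit 4) (nat_lit 42) (nat_lit 43) = true := by decide +kernel
def p14_9_1_43 : pfC (piC [(nat_lit 42686981), (nat_lit 27030628), (nat_lit 20024807), (nat_lit 13470738)] (nat_lit 10300196)) p14_9_1 (nat_lit 4) (nat_lit 43) (nat_lit 44) = true := by decide +kernel
def p14_9_1_44 : pfC (piC [(nat_lit 42686981), (nat_lit 27030628), (nat_lit 20024807), (nat_lit 13470738)] (nat_lit 10300196)) p14_9_1 (nat_lit 4) (nat_lit 44) (nat_lit 45) = true := by decide +kernel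
def p14_9_1_45 : pfC (piC [(nat_lit 42686981), (nat_lit 27030628), (nat_lit 20024807), (nat_lit 13470738)] (nat_lit 10300196)) p14_9_1 (nat_lit 4) (nat_lit 45) (nat_lit 46) = true := by decide +kernel
def p14_9_1_46 : pfC (piC [(nat_lit 42686981), (nat_lit 27030628), (nat_lit 20024807), (nat_lit 13470738)] (nat_lit 10300196)) p14_9_1 (nat_lit 4) (nat_lit 46) (nat_lit 47) = true := by decide +kernel
def p14_9_1_47 : pfC (piC [(nat_lit 42686981), (nat_lit 27030628), (nat_lit 20024807), (nat_lit 13470738)] (nat_lit 10300196)) p14_9_1 (nat_lit 4) (nat_lit 47) (nat_lit 48) = true := by decide +kernel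
def p14_9_1_48 : pfC (piC [(nat_lit 42686981), (nat_lit 27030628), (nat_lit 20024807), (nat_lit 13470738)] (nat_lit 10300196)) p14_9_1 (nat_lit 4) (nat_lit 48) (nat_lit 49) = true := by decide +kernel
def p14_9_1_49 : pfC (piC [(nat_lit 42686981), (nat_lit 27030628), (nat_lit 20024807), (nat_lit 13470738)] (nat_lit 10300196)) p14_9_1 (nat_lit 4) (nat_lit 49) (nat_lit 50) = true := by decide +kernel
def p14_9_1_50 : pfC (piC [(nat_lit 42686981), (nat_lit 27030628), (nat_lit 20024807), (nat_lit 13470738)] (nat_lit 10300196)) p14_9_1 (nat_lit 4) (nat_lit 50) (nat_lit 51) = true := by decide +kernel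
def p14_9_1_51 : pfC (piC [(nat_lit 42686981), (nat_lit 27030628), (nat_lit 20024807), (nat_lit 13470738)] (nat_lit 10300196)) p14_9_1 (nat_lit 4) (nat_lit 51) (nat_lit 52) = true := by decide +kernel
def p14_9_1_52 : pfC (piC [(nat_lit 42686981), (nat_lit 27030628), (nat_lit 20024807), (nat_lit 13470738)] (nat_lit 10300196)) p14_9_1 (nat_lit 4) (nat_lit 52) (nat_lit 53) = true := by decide +kernel
def p14_9_1_53 : pfC (piC [(nat_lit 42686981), (nat_lit 27030628), (nat_lit 20024807), (nat_lit 13470738)] (nat_lit 10300196)) p14_9_1 (nat_lit 4) (nat_lit 53) (nat_lit 54) = true := by decide +kernel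
def p14_9_1_54 : pfC (piC [(nat_lit 42686981), (nat_lit 27030628), (nat_lit 20024807), (nat_lit 13470738)] (nat_lit 10300196)) p14_9_1 (nat_lit 4) (nat_lit 54) (nat_lit 55) = true := by decide +kernel
def p14_9_1_55 : pfC (piC [(nat_lit 42686981), (nat_lit 27030628), (nat_lit 20024807), (nat_lit 13470738)] (nat_lit 10300196)) p14_9_1 (nat_lit 4) (nat_lit 55) (nat_lit 56) = true := by decide +kernel
def p14_9_1_56 : pfC (piC [(nat_lit 42686981), (nat_lit 27030628), (nat_lit 20024807), (nat_lit 13470738)] (nat_lit 10300196)) p14_9_1 (nat_lit 4) (nat_lit 56) (nat_lit 57) = true := by decide +kernel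
def p14_9_1_57 : pfC (piC [(nat_lit 42686981), (nat_lit 27030628), (nat_lit 20024807), (nat_lit 13470738)] (nat_lit 10300196)) p14_9_1 (nat_lit 4) (nat_lit 57) (nat_lit 58) = true := by decide +kernel
def p14_9_1_58 : pfC (piC [(nat_lit 42686981), (nat_lit 27030628), (nat_lit 20024807), (nat_lit 13470738)] (nat_lit 10300196)) p14_9_1 (nat_lit 4) (nat_lit 58) (nat_lit 59) = true := by decide +kernel
def p14_9_1_59 : pfC (piC [(nat_lit 42686981), (nat_lit 27030628), (nat_lit 20024807), (nat_lit 13470738)] (nat_lit 10300196)) p14_9_1 (nat_lit 4) (nat_lit 59) (nat_lit 60) = true := by decide +kernel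
def p14_9_1_60 : pfC (piC [(nat_lit 42686981), (nat_lit 27030628), (nat_lit 20024807), (nat_lit 13470738)] (nat_lit 10300196)) p14_9_1 (nat_lit 4) (nat_lit 60) (nat_lit 61) = true := by decide +kernel
def p14_9_1_61 : pfC (piC [(nat_lit 42686981), (nat_lit 27030628), (nat_lit 20024807), (nat_lit 13470738)] (nat_lit 10300196)) p14_9_1 (nat_lit 4) (nat_lit 61) (nat_lit 62) = true := by decide +kernel
def p14_9_1_62 : pfC (piC [(nat_lit 42686981), (nat_lit 27030628), (nat_lit 20024807), (nat_lit 13470738)] (nat_lit 10300196)) p14_9_1 (nat_lit 4) (nat_lit 62) (nat_lit 63) = true := by decide +kernel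
def p14_9_1_63 : pfC (piC [(nat_lit 42686981), (nat_lit 27030628), (nat_lit 20024807), (nat_lit 13470738)] (nat_lit 10300196)) p14_9_1 (nat_lit 4) (nat_lit 63) (nat_lit 64) = true := by decide +kernel
def p14_9_1_64 : pfC (piC [(nat_lit 42686981), (nat_lit 27030628), (nat_lit 20024807), (nat_lit 13470738)] (nat_lit 10300196)) p14_9_1 (nat_lit 4) (nat_lit 64) (nat_lit 65) = true := by decide +kernel
theorem p14_9_1_T : PfS (PiF n14_9.reverse (nat_lit 10300196)) p14_9_1 (nat_lit 4) [] 0 :=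
  pftab_of (los := [(nat_lit 42686981), (nat_lit 27030628), (nat_lit 20024807), (nat_lit 13470738)]) (by decide +kernel) (hi := (nat_lit 65)) (PfP.trans (PfP.trans (PfP.trans (PfP.trans (PfP.trans (PfP.trans (PfP.trans (PfP.trans (PfP.trans (PfP.trans (PfP.trans (PfP.trans (PfP.trans (PfP.trans (PfP.trans (PfP.trans (PfP.trans (PfP.trans (PfP.trans (PfP.trans (PfP.trans (PfP.trans (PfP.trans (PfP.trans (PfP.trans (PfP.trans (PfP.trans (PfP.trans (PfP.trans (PfP.trans (PfP.trans (PfP.trans (PfP.trans (PfP.trans (PfP.trans (PfP.trans (PfP.trans (PfP.trans (PfP.trans (PfP.trans (PfP.trans (PfP.trans (PfP.trans (PfP.trans (PfP.trans (PfP.trans (PfP.trans (PfP.trans (PfP.trans (PfP.trans (PfP.trans (PfP.trans (PfP.trans (PfP.trans (PfP.trans (PfP.trans (PfP.trans (PfP.trans (PfP.trans (PfP.trans (PfP.trans (PfP.trans (PfP.trans (PfP.trans (pfC_sound p14_9_1_0) (pfC_sound p14_9_1_1)) (pfC_sound p14_9_1_2)) (pfC_sound p14_9_1_3)) (pfC_sound p14_9_1_4)) (pfC_sound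 p14_9_1_5)) (pfC_sound p14_9_1_6)) (pfC_sound p14_9_1_7)) (pfC_sound p14_9_1_8)) (pfC_sound p14_9_1_9)) (pfC_sound p14_9_1_10)) (pfC_sound p14_9_1_11)) (pfC_sound p14_9_1_12)) (pfC_sound p14_9_1_13)) (pfC_sound p14_9_1_14)) (pfC_sound p14_9_1_15)) (pfC_sound p14_9_1_16)) (pfC_sound p14_9_1_17)) (pfC_sound p14_9_1_18)) (pfC_sound p14_9_1_19)) (pfC_sound p14_9_1_20))
 (pfC_sound p14_9_1_21)) (pfC_sound p14_9_1_22)) (pfC_sound p14_9_1_23)) (pfC_sound p14_9_1_24)) (pfC_sound p14_9_1_25)) (pfC_sound p14_9_1_26)) (pfC_sound p14_9_1_27)) (pfC_sound p14_9_1_28)) (pfC_sound p14_9_1_29)) (pfC_sound p14_9_1_30)) (pfC_sound p14_9_1_31)) (pfC_sound p14_9_1_32)) (pfC_sound p14_9_1_33)) (pfC_sound p14_9_1_34)) (pfC_sound p14_9_1_35)) (pfC_sound p14_9_1_36)) (pfC_sound p14_9_1_37)) (pfC_sound p14_9_1_38)) (pfC_sound p14_9_1_39)) (pfC_sound p14_9_1_40)) (pfC_sound p14_9_1_41)) (pfC_sound p14_9_1_42)) (pfC_sound p14_9_1_43)) (pfC_sound p14_9_1_44)) (pfC_sound p14_9_1_45))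 (pfC_sound p14_9_1_46)) (pfC_sound p14_9_1_47)) (pfC_sound p14_9_1_48)) (pfC_sound p14_9_1_49)) (pfC_sound p14_9_1_50)) (pfC_sound p14_9_1_51)) (pfC_sound p14_9_1_52)) (pfC_sound p14_9_1_53)) (pfC_sound p14_9_1_54)) (pfC_sound p14_9_1_55)) (pfC_sound p14_9_1_56)) (pfC_sound p14_9_1_57)) (pfC_sound p14_9_1_58)) (pfC_sound p14_9_1_59)) (pfC_sound p14_9_1_60)) (pfC_sound p14_9_1_61)) (pfC_sound p14_9_1_62)) (pfC_sound p14_9_1_63)) (pfC_sound p14_9_1_64)) (by decide +kernel)

def z14_9_1 : zOK yB14_9 (nat_lit 1) (nat_lit 400) (nat_lit 600) (nat_lit 10300196) (nat_lit 6792444) = true := by decide +kernel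
def g14_9_1 : gOK yB14_9.x P14_9 (nat_lit 1432) (q14_9 :: r14_9) (nat_lit 1) (nat_lit 400) (nat_lit 2) (nat_lit 600) (nat_lit 11000000) (nat_lit 17850000) (nat_lit 12712500) (nat_lit 12712500) [(nat_lit 800), (nat_lit 1040)] = true := by decide +kernel
def v14_9_1 : ivC P14_9 s14_9 w14_9 n14_9 (nat_lit 4) (nat_lit 5080) (nat_lit 1) (nat_lit 400) f144_1_400 f152_1_400 (nat_lit 2) (nat_lit 600) f144_1_600 f152_1_600 (nat_lit 10300196) (nat_lit 6792444) p14_9_1 = true := by decide +kernel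
def p14_9_2 : PF := (PF.cons (PF.cons (PF.cons (PF.cons (PF.leaf (nat_lit 2740302) (nat_lit 15931420) (nat_lit 51177392) (nat_lit 15931420) [(nat_lit 0), (nat_lit 0), (nat_lit 0), (nat_lit 0)]) (PF.cons (PF.leaf (nat_lit 2855165) (nat_lit 191469) (nat_lit 50998205) (nat_lit 15919137) [(nat_lit 191469), (nat_lit 0), (nat_lit 0), (nat_lit 0)]) (PF.cons (PF.leaf (nat_lit 2993561) (nat_lit 208266) (nat_lit 50788152) (nat_lit 15904126) [(nat_lit 208266), (nat_lit 0), (nat_lit 0), (nat_lit 0)]) (PF.cons (PF.leaf (nat_lit 3149078) (nat_lit 223212) (nat_lit 50552643) (nat_lit 15886531) [(nat_lit 223212), (nat_lit 0), (nat_lit 0), (nat_lit 0)]) (PF.cons (PF.leaf (nat_lit 3319268) (nat_lit 236733) (nat_lit 50295468) (nat_lit 15866411) [(nat_lit 236733), (nat_lit 0), (nat_lit 0), (nat_lit 0)]) (PF.cons (PF.leaf (nat_lit 3502643) (nat_lit 249101) (nat_lit 50019518) (nat_lit 15843789) [(nat_lit 249101), (nat_lit 0), (nat_lit 0), (nat_lit 0)]) (PF.cons (PF.leaf (nat_lit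 3697525) (nat_lit 260502) (nat_lit 49727122) (nat_lit 15818673) [(nat_lit 260502), (nat_lit 0), (nat_lit 0), (nat_lit 0)]) (PF.cons PF.nil (PF.cons PF.nil PF.nil))))))))) (PF.cons (PF.cons (PF.leaf (nat_lit 3204906) (nat_lit 1047281) (nat_lit
 50205404) (nat_lit 15856127) [(nat_lit 0), (nat_lit 1047281), (nat_lit 0), (nat_lit 0)]) (PF.cons (PF.leaf (nat_lit 3357097) (nat_lit 234153) (nat_lit 49968017) (nat_lit 15836379) [(nat_lit 234153), (nat_lit 1070261), (nat_lit 0), (nat_lit 0)]) (PF.cons (PF.leaf (nat_lit 3526925) (nat_lit 247053) (nat_lit 49707790) (nat_lit 15813848) [(nat_lit 247053), (nat_lit 1093066), (nat_lit 0), (nat_lit 0)]) (PF.cons (PF.leaf (nat_lit 3710132) (nat_lit 258799) (nat_lit 49428449) (nat_lit 15788649) [(nat_lit 258799), (nat_lit 1115316), (nat_lit 0), (nat_lit 0)]) (PF.cons (PF.leaf (nat_lit 3905126) (nat_lit 269600) (nat_lit 49132756) (nat_lit 15760849) [(nat_lit 269600), (nat_lit 1136806), (nat_lit 0), (nat_lit 0)]) (PF.cons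 (PF.leaf (nat_lit 4110669) (nat_lit 279599) (nat_lit 48822893) (nat_lit 15730495) [(nat_lit 279599), (nat_lit 1157427), (nat_lit 0), (nat_lit 0)]) (PF.cons PF.nil PF.nil))))))) (PF.cons (PF.cons (PF.leaf (nat_lit 3739206) (nat_lit 1125224) (nat_lit 49103455) (nat_lit 15754908) [(nat_lit 0), (nat_lit 1125224), (nat_lit 0), (nat_lit 0)]) (PF.cons (PF.leaf (nat_lit 3919487) (nat_lit 267160) (nat_lit 48824346) (nat_lit 15727478) [(nat_lit 267160), (nat_lit 1144914), (nat_lit
 0), (nat_lit 0)]) (PF.cons (PF.leaf (nat_lit 4113475) (nat_lit 277540) (nat_lit 48528210) (nat_lit 15697287) [(nat_lit 277540), (nat_lit 1164116), (nat_lit 0), (nat_lit 0)]) (PF.cons (PF.leaf (nat_lit 4318271) (nat_lit 287106) (nat_lit 48217715) (nat_lit 15664448) [(nat_lit 287106), (nat_lit 1182665), (nat_lit 0), (nat_lit 0)]) (PF.cons PF.nil PF.nil))))) (PF.cons (PF.cons (PF.leaf (nat_lit 4324404) (nat_lit 1188716) (nat_lit 47914601) (nat_lit 15628063) [(nat_lit 0), (nat_lit 1188716),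 (nat_lit 0), (nat_lit 0)]) (PF.cons (PF.leaf (nat_lit 4526225) (nat_lit 293677) (nat_lit 47605902) (nat_lit 15593060) [(nat_lit 293677), (nat_lit 1205390), (nat_lit 0), (nat_lit 0)]) (PF.cons (PF.leaf (nat_lit 4738971) (nat_lit 302215) (nat_lit 47284551) (nat_lit 15555406) [(nat_lit 302215), (nat_lit 1221474), (nat_lit 0), (nat_lit 0)]) (PF.cons PF.nil PF.nil)))) (PF.cons (PF.cons (PF.leaf (nat_lit 4946581) (nat_lit 1240410) (nat_lit 46670304) (nat_lit 15476865) [(nat_lit 0), (nat_lit 1240410), (nat_lit 0), (nat_lit 0)]) (PF.cons PF.nil PF.nil)) (PF.cons PF.nil PF.nil)))))) (PF.cons (PF.cons (PF.cons (PF.leaf (nat_lit 3726316) (nat_lit 2886408) (nat_lit 48541085) (nat_lit 15681318) [(nat_lit 0),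
 (nat_lit 0), (nat_lit 2886408), (nat_lit 0)]) (PF.cons (PF.leaf (nat_lit 3886907) (nat_lit 252715) (nat_lit 48294324) (nat_lit 15655512) [(nat_lit 252715), (nat_lit 0), (nat_lit 2906260), (nat_lit 0)]) (PF.cons (PF.leaf (nat_lit 4064444) (nat_lit 264972) (nat_lit 48025782) (nat_lit 15626564) [(nat_lit 264972), (nat_lit 0), (nat_lit 2926520), (nat_lit 0)]) (PF.cons (PF.leaf (nat_lit 4254680) (nat_lit 275971) (nat_lit 47739451) (nat_lit 15594723) [(nat_lit 275971), (nat_lit 0), (nat_lit 2946722), (nat_lit 0)]) (PF.cons (PF.leaf (nat_lit 4455929) (nat_lit 285970) (nat_lit 47438230) (nat_lit 15560152) [(nat_lit 285970), (nat_lit 0), (nat_lit 2966549), (nat_lit 0)]) (PF.cons PF.nil (PF.cons PF.nil PF.nil))))))) (PF.cons (PF.cons (PF.leaf (nat_lit 4275241) (nat_lit 1176652) (nat_lit 47418098) (nat_lit 15554727) [(nat_lit 0), (nat_lit 1176652), (nat_lit 2959334), (nat_lit 0)]) (PF.cons (PF.leaf (nat_lit 4461577) (nat_lit 282559) (nat_lit 47134726) (nat_lit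 15521126) [(nat_lit 282559), (nat_lit 1193377), (nat_lit 2977023), (nat_lit 0)]) (PF.cons (PF.leaf (nat_lit 4660815) (nat_lit 292249) (nat_lit 46835602) (nat_lit 15484632) [(nat_lit 292249), (nat_lit 1209607), (nat_lit 2994471),
 (nat_lit 0)]) (PF.cons (PF.leaf (nat_lit 4870074) (nat_lit 301084) (nat_lit 46523466) (nat_lit 15445440) [(nat_lit 301084), (nat_lit 1225214), (nat_lit 3011436), (nat_lit 0)]) (PF.cons PF.nil PF.nil))))) (PF.cons (PF.cons (PF.leaf (nat_lit 4867803) (nat_lit 1228971) (nat_lit 46227622) (nat_lit 15404188) [(nat_lit 0), (nat_lit 1228971), (nat_lit 3019058), (nat_lit 0)]) (PF.cons (PF.leaf (nat_lit 5073453) (nat_lit 306237) (nat_lit 45919296) (nat_lit 15363333) [(nat_lit 306237), (nat_lit 1243023), (nat_lit 3033898), (nat_lit 0)]) (PF.cons PF.nil (PF.cons PF.nil PF.nil)))) (PF.cons (PF.cons (PF.leaf (nat_lit 5491171) (nat_lit 1271211) (nat_lit 44997505) (nat_lit 15231852) [(nat_lit 0), (nat_lit 1271211), (nat_lit 3065820), (nat_lit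 0)]) (PF.cons PF.nil PF.nil)) (PF.cons PF.nil PF.nil))))) (PF.cons (PF.cons (PF.cons (PF.leaf (nat_lit 4803970) (nat_lit 3010458) (nat_lit 45761215) (nat_lit 15326680) [(nat_lit 0), (nat_lit 0), (nat_lit 3010458), (nat_lit 0)]) (PF.cons (PF.leaf (nat_lit 4994544) (nat_lit 294977) (nat_lit 45477660) (nat_lit 15287852) [(nat_lit 294977), (nat_lit 0), (nat_lit 3024161), (nat_lit 0)]) (PF.cons (PF.leaf (nat_lit 5197339) (nat_lit 304045) (nat_lit 45179537)
 (nat_lit 15246073) [(nat_lit 304045), (nat_lit 0), (nat_lit 3037555), (nat_lit 0)]) (PF.cons (PF.leaf (nat_lit 5409502) (nat_lit 312229) (nat_lit 44869606) (nat_lit 15201612) [(nat_lit 312229), (nat_lit 0), (nat_lit 3050452), (nat_lit 0)]) (PF.cons PF.nil PF.nil))))) (PF.cons (PF.cons (PF.leaf (nat_lit 5399456) (nat_lit 1259176) (nat_lit 44583410) (nat_lit 15156682) [(nat_lit 0), (nat_lit 1259176), (nat_lit 3054771), (nat_lit 0)]) (PF.cons (PF.leaf (nat_lit 5607423) (nat_lit 316207) (nat_lit 44278740)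 (nat_lit 15111037) [(nat_lit 316207), (nat_lit 1271023), (nat_lit 3065902), (nat_lit 0)]) (PF.cons PF.nil (PF.cons PF.nil PF.nil)))) (PF.cons (PF.cons (PF.leaf (nat_lit 6020641) (nat_lit 1293555) (nat_lit 43378286) (nat_lit 14967549) [(nat_lit 0), (nat_lit 1293555), (nat_lit 3087933), (nat_lit 0)]) (PF.cons PF.nil PF.nil)) PF.nil))) (PF.cons (PF.cons (PF.cons (PF.leaf (nat_lit 5917699) (nat_lit 3075147) (nat_lit 42992038) (nat_lit 14891330) [(nat_lit 0), (nat_lit 0), (nat_lit 3075147), (nat_lit 0)]) (PF.cons (PF.leaf (nat_lit 6126771) (nat_lit 324019) (nat_lit 42693395) (nat_lit 14841881) [(nat_lit 324019), (nat_lit 0), (nat_lit 3083172), (nat_lit 0)]) PF.nil)) (PF.cons PF.nil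
 PF.nil)) (PF.cons PF.nil (PF.cons PF.nil PF.nil)))))) (PF.cons (PF.cons (PF.cons (PF.cons (PF.leaf (nat_lit 4603936) (nat_lit 7767702) (nat_lit 44319165) (nat_lit 15021944) [(nat_lit 0), (nat_lit 0), (nat_lit 0), (nat_lit 7767702)]) (PF.cons (PF.leaf (nat_lit 4765162) (nat_lit 262426) (nat_lit 44090942) (nat_lit 14988857) [(nat_lit 262426), (nat_lit 0), (nat_lit 0), (nat_lit 7766586)]) (PF.cons (PF.leaf (nat_lit 4942314) (nat_lit 274202) (nat_lit 43843444) (nat_lit 14952319) [(nat_lit 274202), (nat_lit 0), (nat_lit 0), (nat_lit 7764643)]) (PF.cons (PF.leaf (nat_lit 5131408) (nat_lit 284604) (nat_lit 43580470) (nat_lit 14912758) [(nat_lit 284604), (nat_lit 0), (nat_lit 0), (nat_lit 7761769)]) (PF.cons (PF.leaf (nat_lit 5330612) (nat_lit 293922) (nat_lit 43304763) (nat_lit 14870474) [(nat_lit 293922), (nat_lit 0), (nat_lit 0), (nat_lit 7757885)]) (PF.cons (PF.leaf (nat_lit 5538526) (nat_lit 302350) (nat_lit 43018429) (nat_lit 14825696) [(nat_lit 302350),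 (nat_lit 0), (nat_lit 0), (nat_lit 7752935)]) (PF.cons PF.nil PF.nil))))))) (PF.cons (PF.cons (PF.leaf (nat_lit 5141760) (nat_lit 1198957) (nat_lit 43290928) (nat_lit 14865572) [(nat_lit 0), (nat_lit 1198957), (nat_lit 0), (nat_lit
 7753353)]) (PF.cons (PF.leaf (nat_lit 5326106) (nat_lit 289632) (nat_lit 43032269) (nat_lit 14825118) [(nat_lit 289632), (nat_lit 1212865), (nat_lit 0), (nat_lit 7748926)]) (PF.cons (PF.leaf (nat_lit 5522441) (nat_lit 298676) (nat_lit 42760034) (nat_lit 14781773) [(nat_lit 298676), (nat_lit 1226188), (nat_lit 0), (nat_lit 7743463)]) (PF.cons (PF.leaf (nat_lit 5727923) (nat_lit 306808) (nat_lit 42476773) (nat_lit 14735846) [(nat_lit 306808), (nat_lit 1238841), (nat_lit 0), (nat_lit 7736925)]) (PF.cons PF.nil PF.nil))))) (PF.cons (PF.cons (PF.leaf (nat_lit 5715853) (nat_lit 1240120) (nat_lit 42212979) (nat_lit 14689606) [(nat_lit 0), (nat_lit 1240120), (nat_lit 0), (nat_lit 7725987)]) (PF.cons (PF.leaf (nat_lit 5917055) (nat_lit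 310564) (nat_lit 41934469) (nat_lit 14642879) [(nat_lit 310564), (nat_lit 1251442), (nat_lit 0), (nat_lit 7718014)]) (PF.cons (PF.leaf (nat_lit 6127575) (nat_lit 317731) (nat_lit 41646346) (nat_lit 14593706) [(nat_lit 317731), (nat_lit 1262180), (nat_lit 0), (nat_lit 7708936)]) (PF.cons PF.nil PF.nil)))) (PF.cons (PF.cons (PF.leaf (nat_lit 6314513) (nat_lit 1272224) (nat_lit 41109072) (nat_lit 14497112) [(nat_lit 0), (nat_lit 1272224), (nat_lit 0), (nat_lit
 7685952)]) (PF.cons PF.nil PF.nil)) (PF.cons PF.nil PF.nil))))) (PF.cons (PF.cons (PF.cons (PF.leaf (nat_lit 5636166) (nat_lit 2995342) (nat_lit 41809218) (nat_lit 14608639) [(nat_lit 0), (nat_lit 0), (nat_lit 2995342), (nat_lit 7695612)]) (PF.cons (PF.leaf (nat_lit 5823048) (nat_lit 298816) (nat_lit 41553212) (nat_lit 14564842) [(nat_lit 298816), (nat_lit 0), (nat_lit 3004241), (nat_lit 7687700)]) (PF.cons (PF.leaf (nat_lit 6021348) (nat_lit 307267) (nat_lit 41284661) (nat_lit 14518183) [(nat_lit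 307267), (nat_lit 0), (nat_lit 3012750), (nat_lit 7678683)]) (PF.cons (PF.leaf (nat_lit 6228224) (nat_lit 314800) (nat_lit 41006084) (nat_lit 14469015) [(nat_lit 314800), (nat_lit 0), (nat_lit 3020744), (nat_lit 7668567)]) (PF.cons PF.nil PF.nil))))) (PF.cons (PF.cons (PF.leaf (nat_lit 6209481) (nat_lit 1258842) (nat_lit 40752826) (nat_lit 14421048) [(nat_lit 0), (nat_lit 1258842), (nat_lit 3021189), (nat_lit 7654904)]) (PF.cons (PF.leaf (nat_lit 6411691) (nat_lit 317603) (nat_lit 40479913) (nat_lit 14371455) [(nat_lit 317603), (nat_lit 1268359), (nat_lit 3027834), (nat_lit 7643646)]) (PF.cons (PF.leaf (nat_lit 6622650) (nat_lit 324233) (nat_lit 40198271) (nat_lit 14319509) [(nat_lit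
 324233), (nat_lit 1277325), (nat_lit 3033952), (nat_lit 7631288)]) (PF.cons PF.nil PF.nil)))) (PF.cons (PF.cons (PF.leaf (nat_lit 6803475) (nat_lit 1284721) (nat_lit 39679130) (nat_lit 14219216) [(nat_lit 0), (nat_lit 1284721), (nat_lit 3038021), (nat_lit 7603001)]) (PF.cons PF.nil PF.nil)) PF.nil))) (PF.cons (PF.cons (PF.cons (PF.leaf (nat_lit 6689674) (nat_lit 3023046) (nat_lit 39347800) (nat_lit 14144198) [(nat_lit 0), (nat_lit 0), (nat_lit 3023046), (nat_lit 7570721)]) (PF.cons (PF.leaf (nat_lit 6892023) (nat_lit 322977) (nat_lit 39081877) (nat_lit 14092456) [(nat_lit 322977), (nat_lit 0), (nat_lit 3027378), (nat_lit 7556744)]) (PF.cons PF.nil PF.nil))) (PF.cons (PF.cons (PF.leaf (nat_lit 7277277) (nat_lit 1292150) (nat_lit 38308351) (nat_lit 13935759) [(nat_lit 0), (nat_lit 1292150), (nat_lit 3031678), (nat_lit 7509193)]) PF.nil) PF.nil)) (PF.cons PF.nil (PF.cons PF.nil PF.nil))))) (PF.cons (PF.cons (PF.cons (PF.cons (PF.leaf (nat_lit 6385980)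 (nat_lit 7433304) (nat_lit 38359607) (nat_lit 13882597) [(nat_lit 0), (nat_lit 0), (nat_lit 0), (nat_lit 7433304)]) (PF.cons (PF.leaf (nat_lit 6568081) (nat_lit 298666) (nat_lit 38130300) (nat_lit 13837117) [(nat_lit 298666), (nat_lit
 0), (nat_lit 0), (nat_lit 7421363)]) (PF.cons (PF.leaf (nat_lit 6760919) (nat_lit 306572) (nat_lit 37890127) (nat_lit 13788934) [(nat_lit 306572), (nat_lit 0), (nat_lit 0), (nat_lit 7408303)]) (PF.cons (PF.leaf (nat_lit 6961667) (nat_lit 313546) (nat_lit 37641355) (nat_lit 13738439) [(nat_lit 313546), (nat_lit 0), (nat_lit 0), (nat_lit 7394189)]) (PF.cons PF.nil PF.nil))))) (PF.cons (PF.cons (PF.leaf (nat_lit 6936353) (nat_lit 1244816) (nat_lit 37418278) (nat_lit 13690370) [(nat_lit 0), (nat_lit 1244816), (nat_lit 0), (nat_lit 7377673)]) (PF.cons (PF.leaf (nat_lit 7132193) (nat_lit 315487) (nat_lit 37175081) (nat_lit 13639933) [(nat_lit 315487), (nat_lit 1252591), (nat_lit 0), (nat_lit 7362859)]) (PF.cons PF.nil (PF.cons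 PF.nil PF.nil)))) (PF.cons (PF.cons (PF.leaf (nat_lit 7503860) (nat_lit 1264536) (nat_lit 36465530) (nat_lit 13487387) [(nat_lit 0), (nat_lit 1264536), (nat_lit 0), (nat_lit 7313411)]) (PF.cons PF.nil PF.nil)) PF.nil))) (PF.cons (PF.cons (PF.cons (PF.leaf (nat_lit 7382978) (nat_lit 2950245) (nat_lit 36181138) (nat_lit 13416234) [(nat_lit 0), (nat_lit 0), (nat_lit 2950245), (nat_lit 7280596)]) (PF.cons (PF.leaf (nat_lit 7578317) (nat_lit 319149) (nat_lit 35944942)
 (nat_lit 13364697) [(nat_lit 319149), (nat_lit 0), (nat_lit 2952086), (nat_lit 7263968)]) PF.nil)) (PF.cons PF.nil PF.nil)) (PF.cons PF.nil PF.nil))) (PF.cons (PF.cons (PF.cons (PF.cons (PF.leaf (nat_lit 8011256) (nat_lit 6986435) (nat_lit 33423925) (nat_lit 12725580) [(nat_lit 0), (nat_lit 0), (nat_lit 0), (nat_lit 6986435)]) (PF.cons PF.nil PF.nil)) (PF.cons PF.nil PF.nil)) (PF.cons PF.nil PF.nil)) (PF.cons PF.nil (PF.cons PF.nil (PF.cons PF.nil (PF.cons PF.nil PF.nil))))))))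

def p14_9_2_0 : pfC (piC [(nat_lit 42686981), (nat_lit 27030628), (nat_lit 20024807), (nat_lit 13470738)] (nat_lit 6792444)) p14_9_2 (nat_lit 4) (nat_lit 0) (nat_lit 1) = true := by decide +kernel
def p14_9_2_1 : pfC (piC [(nat_lit 42686981), (nat_lit 27030628), (nat_lit 20024807), (nat_lit 13470738)] (nat_lit 6792444)) p14_9_2 (nat_lit 4) (nat_lit 1) (nat_lit 2) = true := by decide +kernel
def p14_9_2_2 : pfC (piC [(nat_lit 42686981), (nat_lit 27030628), (nat_lit 20024807), (nat_lit 13470738)] (nat_lit 6792444)) p14_9_2 (nat_lit 4) (nat_lit 2) (nat_lit 3) = true := by decide +kernel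
def p14_9_2_3 : pfC (piC [(nat_lit 42686981), (nat_lit 27030628), (nat_lit 20024807), (nat_lit 13470738)] (nat_lit 6792444)) p14_9_2 (nat_lit 4) (nat_lit 3) (nat_lit 4) = true := by decide +kernel
def p14_9_2_4 : pfC (piC [(nat_lit 42686981), (nat_lit 27030628), (nat_lit 20024807), (nat_lit 13470738)] (nat_lit 6792444)) p14_9_2 (nat_lit 4) (nat_lit 4) (nat_lit 5) = true := by decide +kernel
def p14_9_2_5 : pfC (piC [(nat_lit 42686981), (nat_lit 27030628), (nat_lit 20024807), (nat_lit 13470738)] (nat_lit 6792444)) p14_9_2 (nat_lit 4) (nat_lit 5) (nat_lit 6) = true := by decide +kernel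
def p14_9_2_6 : pfC (piC [(nat_lit 42686981), (nat_lit 27030628), (nat_lit 20024807), (nat_lit 13470738)] (nat_lit 6792444)) p14_9_2 (nat_lit 4) (nat_lit 6) (nat_lit 7) = true := by decide +kernel
def p14_9_2_7 : pfC (piC [(nat_lit 42686981), (nat_lit 27030628), (nat_lit 20024807), (nat_lit 13470738)] (nat_lit 6792444)) p14_9_2 (nat_lit 4) (nat_lit 7) (nat_lit 8) = true := by decide +kernel
def p14_9_2_8 : pfC (piC [(nat_lit 42686981), (nat_lit 27030628), (nat_lit 20024807), (nat_lit 13470738)] (nat_lit 6792444)) p14_9_2 (nat_lit 4) (nat_lit 8) (nat_lit 9) = true := by decide +kernel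
def p14_9_2_9 : pfC (piC [(nat_lit 42686981), (nat_lit 27030628), (nat_lit 20024807), (nat_lit 13470738)] (nat_lit 6792444)) p14_9_2 (nat_lit 4) (nat_lit 9) (nat_lit 10) = true := by decide +kernel
def p14_9_2_10 : pfC (piC [(nat_lit 42686981), (nat_lit 27030628), (nat_lit 20024807), (nat_lit 13470738)] (nat_lit 6792444)) p14_9_2 (nat_lit 4) (nat_lit 10) (nat_lit 11) = true := by decide +kernel
def p14_9_2_11 : pfC (piC [(nat_lit 42686981), (nat_lit 27030628), (nat_lit 20024807), (nat_lit 13470738)] (nat_lit 6792444)) p14_9_2 (nat_lit 4) (nat_lit 11) (nat_lit 12) = true := by decide +kernel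
def p14_9_2_12 : pfC (piC [(nat_lit 42686981), (nat_lit 27030628), (nat_lit 20024807), (nat_lit 13470738)] (nat_lit 6792444)) p14_9_2 (nat_lit 4) (nat_lit 12) (nat_lit 13) = true := by decide +kernel
def p14_9_2_13 : pfC (piC [(nat_lit 42686981), (nat_lit 27030628), (nat_lit 20024807), (nat_lit 13470738)] (nat_lit 6792444)) p14_9_2 (nat_lit 4) (nat_lit 13) (nat_lit 14) = true := by decide +kernel
def p14_9_2_14 : pfC (piC [(nat_lit 42686981), (nat_lit 27030628), (nat_lit 20024807), (nat_lit 13470738)] (nat_lit 6792444)) p14_9_2 (nat_lit 4) (nat_lit 14) (nat_lit 15) = true := by decide +kernel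
def p14_9_2_15 : pfC (piC [(nat_lit 42686981), (nat_lit 27030628), (nat_lit 20024807), (nat_lit 13470738)] (nat_lit 6792444)) p14_9_2 (nat_lit 4) (nat_lit 15) (nat_lit 16) = true := by decide +kernel
def p14_9_2_16 : pfC (piC [(nat_lit 42686981), (nat_lit 27030628), (nat_lit 20024807), (nat_lit 13470738)] (nat_lit 6792444)) p14_9_2 (nat_lit 4) (nat_lit 16) (nat_lit 17) = true := by decide +kernel
def p14_9_2_17 : pfC (piC [(nat_lit 42686981), (nat_lit 27030628), (nat_lit 20024807), (nat_lit 13470738)] (nat_lit 6792444)) p14_9_2 (nat_lit 4) (nat_lit 17) (nat_lit 18) = true := by decide +kernel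
def p14_9_2_18 : pfC (piC [(nat_lit 42686981), (nat_lit 27030628), (nat_lit 20024807), (nat_lit 13470738)] (nat_lit 6792444)) p14_9_2 (nat_lit 4) (nat_lit 18) (nat_lit 19) = true := by decide +kernel
def p14_9_2_19 : pfC (piC [(nat_lit 42686981), (nat_lit 27030628), (nat_lit 20024807), (nat_lit 13470738)] (nat_lit 6792444)) p14_9_2 (nat_lit 4) (nat_lit 19) (nat_lit 20) = true := by decide +kernel
def p14_9_2_20 : pfC (piC [(nat_lit 42686981), (nat_lit 27030628), (nat_lit 20024807), (nat_lit 13470738)] (nat_lit 6792444)) p14_9_2 (nat_lit 4) (nat_lit 20) (nat_lit 21) = true := by decide +kernel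
def p14_9_2_21 : pfC (piC [(nat_lit 42686981), (nat_lit 27030628), (nat_lit 20024807), (nat_lit 13470738)] (nat_lit 6792444)) p14_9_2 (nat_lit 4) (nat_lit 21) (nat_lit 22) = true := by decide +kernel
def p14_9_2_22 : pfC (piC [(nat_lit 42686981), (nat_lit 27030628), (nat_lit 20024807), (nat_lit 13470738)] (nat_lit 6792444)) p14_9_2 (nat_lit 4) (nat_lit 22) (nat_lit 23) = true := by decide +kernel
def p14_9_2_23 : pfC (piC [(nat_lit 42686981), (nat_lit 27030628), (nat_lit 20024807), (nat_lit 13470738)] (nat_lit 6792444)) p14_9_2 (nat_lit 4) (nat_lit 23) (nat_lit 24) = true := by decide +kernel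
def p14_9_2_24 : pfC (piC [(nat_lit 42686981), (nat_lit 27030628), (nat_lit 20024807), (nat_lit 13470738)] (nat_lit 6792444)) p14_9_2 (nat_lit 4) (nat_lit 24) (nat_lit 25) = true := by decide +kernel
def p14_9_2_25 : pfC (piC [(nat_lit 42686981), (nat_lit 27030628), (nat_lit 20024807), (nat_lit 13470738)] (nat_lit 6792444)) p14_9_2 (nat_lit 4) (nat_lit 25) (nat_lit 26) = true := by decide +kernel
def p14_9_2_26 : pfC (piC [(nat_lit 42686981), (nat_lit 27030628), (nat_lit 20024807), (nat_lit 13470738)] (nat_lit 6792444)) p14_9_2 (nat_lit 4) (nat_lit 26) (nat_lit 27) = true := by decide +kernel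
def p14_9_2_27 : pfC (piC [(nat_lit 42686981), (nat_lit 27030628), (nat_lit 20024807), (nat_lit 13470738)] (nat_lit 6792444)) p14_9_2 (nat_lit 4) (nat_lit 27) (nat_lit 28) = true := by decide +kernel
def p14_9_2_28 : pfC (piC [(nat_lit 42686981), (nat_lit 27030628), (nat_lit 20024807), (nat_lit 13470738)] (nat_lit 6792444)) p14_9_2 (nat_lit 4) (nat_lit 28) (nat_lit 29) = true := by decide +kernel
def p14_9_2_29 : pfC (piC [(nat_lit 42686981), (nat_lit 27030628), (nat_lit 20024807), (nat_lit 13470738)] (nat_lit 6792444)) p14_9_2 (nat_lit 4) (nat_lit 29) (nat_lit 30) = true := by decide +kernel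
def p14_9_2_30 : pfC (piC [(nat_lit 42686981), (nat_lit 27030628), (nat_lit 20024807), (nat_lit 13470738)] (nat_lit 6792444)) p14_9_2 (nat_lit 4) (nat_lit 30) (nat_lit 31) = true := by decide +kernel
def p14_9_2_31 : pfC (piC [(nat_lit 42686981), (nat_lit 27030628), (nat_lit 20024807), (nat_lit 13470738)] (nat_lit 6792444)) p14_9_2 (nat_lit 4) (nat_lit 31) (nat_lit 32) = true := by decide +kernel
def p14_9_2_32 : pfC (piC [(nat_lit 42686981), (nat_lit 27030628), (nat_lit 20024807), (nat_lit 13470738)] (nat_lit 6792444)) p14_9_2 (nat_lit 4) (nat_lit 32) (nat_lit 33) = true := by decide +kernel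
def p14_9_2_33 : pfC (piC [(nat_lit 42686981), (nat_lit 27030628), (nat_lit 20024807), (nat_lit 13470738)] (nat_lit 6792444)) p14_9_2 (nat_lit 4) (nat_lit 33) (nat_lit 34) = true := by decide +kernel
def p14_9_2_34 : pfC (piC [(nat_lit 42686981), (nat_lit 27030628), (nat_lit 20024807), (nat_lit 13470738)] (nat_lit 6792444)) p14_9_2 (nat_lit 4) (nat_lit 34) (nat_lit 35) = true := by decide +kernel
def p14_9_2_35 : pfC (piC [(nat_lit 42686981), (nat_lit 27030628), (nat_lit 20024807), (nat_lit 13470738)] (nat_lit 6792444)) p14_9_2 (nat_lit 4) (nat_lit 35) (nat_lit 36) = true := by decide +kernel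
def p14_9_2_36 : pfC (piC [(nat_lit 42686981), (nat_lit 27030628), (nat_lit 20024807), (nat_lit 13470738)] (nat_lit 6792444)) p14_9_2 (nat_lit 4) (nat_lit 36) (nat_lit 37) = true := by decide +kernel
def p14_9_2_37 : pfC (piC [(nat_lit 42686981), (nat_lit 27030628), (nat_lit 20024807), (nat_lit 13470738)] (nat_lit 6792444)) p14_9_2 (nat_lit 4) (nat_lit 37) (nat_lit 38) = true := by decide +kernel
def p14_9_2_38 : pfC (piC [(nat_lit 42686981), (nat_lit 27030628), (nat_lit 20024807), (nat_lit 13470738)] (nat_lit 6792444)) p14_9_2 (nat_lit 4) (nat_lit 38) (nat_lit 39) = true := by decide +kernel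
def p14_9_2_39 : pfC (piC [(nat_lit 42686981), (nat_lit 27030628), (nat_lit 20024807), (nat_lit 13470738)] (nat_lit 6792444)) p14_9_2 (nat_lit 4) (nat_lit 39) (nat_lit 40) = true := by decide +kernel
def p14_9_2_40 : pfC (piC [(nat_lit 42686981), (nat_lit 27030628), (nat_lit 20024807), (nat_lit 13470738)] (nat_lit 6792444)) p14_9_2 (nat_lit 4) (nat_lit 40) (nat_lit 41) = true := by decide +kernel
def p14_9_2_41 : pfC (piC [(nat_lit 42686981), (nat_lit 27030628), (nat_lit 20024807), (nat_lit 13470738)] (nat_lit 6792444)) p14_9_2 (nat_lit 4) (nat_lit 41) (nat_lit 42) = true := by decide +kernel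
def p14_9_2_42 : pfC (piC [(nat_lit 42686981), (nat_lit 27030628), (nat_lit 20024807), (nat_lit 13470738)] (nat_lit 6792444)) p14_9_2 (nat_lit 4) (nat_lit 42) (nat_lit 43) = true := by decide +kernel
def p14_9_2_43 : pfC (piC [(nat_lit 42686981), (nat_lit 27030628), (nat_lit 20024807), (nat_lit 13470738)] (nat_lit 6792444)) p14_9_2 (nat_lit 4) (nat_lit 43) (nat_lit 44) = true := by decide +kernel
def p14_9_2_44 : pfC (piC [(nat_lit 42686981), (nat_lit 27030628), (nat_lit 20024807), (nat_lit 13470738)] (nat_lit 6792444)) p14_9_2 (nat_lit 4) (nat_lit 44) (nat_lit 45) = true := by decide +kernel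
def p14_9_2_45 : pfC (piC [(nat_lit 42686981), (nat_lit 27030628), (nat_lit 20024807), (nat_lit 13470738)] (nat_lit 6792444)) p14_9_2 (nat_lit 4) (nat_lit 45) (nat_lit 46) = true := by decide +kernel
def p14_9_2_46 : pfC (piC [(nat_lit 42686981), (nat_lit 27030628), (nat_lit 20024807), (nat_lit 13470738)] (nat_lit 6792444)) p14_9_2 (nat_lit 4) (nat_lit 46) (nat_lit 47) = true := by decide +kernel
def p14_9_2_47 : pfC (piC [(nat_lit 42686981), (nat_lit 27030628), (nat_lit 20024807), (nat_lit 13470738)] (nat_lit 6792444)) p14_9_2 (nat_lit 4) (nat_lit 47) (nat_lit 48) = true := by decide +kernel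
def p14_9_2_48 : pfC (piC [(nat_lit 42686981), (nat_lit 27030628), (nat_lit 20024807), (nat_lit 13470738)] (nat_lit 6792444)) p14_9_2 (nat_lit 4) (nat_lit 48) (nat_lit 49) = true := by decide +kernel
def p14_9_2_49 : pfC (piC [(nat_lit 42686981), (nat_lit 27030628), (nat_lit 20024807), (nat_lit 13470738)] (nat_lit 6792444)) p14_9_2 (nat_lit 4) (nat_lit 49) (nat_lit 50) = true := by decide +kernel
def p14_9_2_50 : pfC (piC [(nat_lit 42686981), (nat_lit 27030628), (nat_lit 20024807), (nat_lit 13470738)] (nat_lit 6792444)) p14_9_2 (nat_lit 4) (nat_lit 50) (nat_lit 51) = true := by decide +kernel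
def p14_9_2_51 : pfC (piC [(nat_lit 42686981), (nat_lit 27030628), (nat_lit 20024807), (nat_lit 13470738)] (nat_lit 6792444)) p14_9_2 (nat_lit 4) (nat_lit 51) (nat_lit 52) = true := by decide +kernel
def p14_9_2_52 : pfC (piC [(nat_lit 42686981), (nat_lit 27030628), (nat_lit 20024807), (nat_lit 13470738)] (nat_lit 6792444)) p14_9_2 (nat_lit 4) (nat_lit 52) (nat_lit 53) = true := by decide +kernel
def p14_9_2_53 : pfC (piC [(nat_lit 42686981), (nat_lit 27030628), (nat_lit 20024807), (nat_lit 13470738)] (nat_lit 6792444)) p14_9_2 (nat_lit 4) (nat_lit 53) (nat_lit 54) = true := by decide +kernel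
def p14_9_2_54 : pfC (piC [(nat_lit 42686981), (nat_lit 27030628), (nat_lit 20024807), (nat_lit 13470738)] (nat_lit 6792444)) p14_9_2 (nat_lit 4) (nat_lit 54) (nat_lit 55) = true := by decide +kernel
def p14_9_2_55 : pfC (piC [(nat_lit 42686981), (nat_lit 27030628), (nat_lit 20024807), (nat_lit 13470738)] (nat_lit 6792444)) p14_9_2 (nat_lit 4) (nat_lit 55) (nat_lit 56) = true := by decide +kernel
def p14_9_2_56 : pfC (piC [(nat_lit 42686981), (nat_lit 27030628), (nat_lit 20024807), (nat_lit 13470738)] (nat_lit 6792444)) p14_9_2 (nat_lit 4) (nat_lit 56) (nat_lit 57) = true := by decide +kernel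
def p14_9_2_57 : pfC (piC [(nat_lit 42686981), (nat_lit 27030628), (nat_lit 20024807), (nat_lit 13470738)] (nat_lit 6792444)) p14_9_2 (nat_lit 4) (nat_lit 57) (nat_lit 58) = true := by decide +kernel
def p14_9_2_58 : pfC (piC [(nat_lit 42686981), (nat_lit 27030628), (nat_lit 20024807), (nat_lit 13470738)] (nat_lit 6792444)) p14_9_2 (nat_lit 4) (nat_lit 58) (nat_lit 59) = true := by decide +kernel
def p14_9_2_59 : pfC (piC [(nat_lit 42686981), (nat_lit 27030628), (nat_lit 20024807), (nat_lit 13470738)] (nat_lit 6792444)) p14_9_2 (nat_lit 4) (nat_lit 59) (nat_lit 60) = true := by decide +kernel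
def p14_9_2_60 : pfC (piC [(nat_lit 42686981), (nat_lit 27030628), (nat_lit 20024807), (nat_lit 13470738)] (nat_lit 6792444)) p14_9_2 (nat_lit 4) (nat_lit 60) (nat_lit 61) = true := by decide +kernel
def p14_9_2_61 : pfC (piC [(nat_lit 42686981), (nat_lit 27030628), (nat_lit 20024807), (nat_lit 13470738)] (nat_lit 6792444)) p14_9_2 (nat_lit 4) (nat_lit 61) (nat_lit 62) = true := by decide +kernel
def p14_9_2_62 : pfC (piC [(nat_lit 42686981), (nat_lit 27030628), (nat_lit 20024807), (nat_lit 13470738)] (nat_lit 6792444)) p14_9_2 (nat_lit 4) (nat_lit 62) (nat_lit 63) = true := by decide +kernel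
def p14_9_2_63 : pfC (piC [(nat_lit 42686981), (nat_lit 27030628), (nat_lit 20024807), (nat_lit 13470738)] (nat_lit 6792444)) p14_9_2 (nat_lit 4) (nat_lit 63) (nat_lit 64) = true := by decide +kernel
def p14_9_2_64 : pfC (piC [(nat_lit 42686981), (nat_lit 27030628), (nat_lit 20024807), (nat_lit 13470738)] (nat_lit 6792444)) p14_9_2 (nat_lit 4) (nat_lit 64) (nat_lit 65) = true := by decide +kernel
def p14_9_2_65 : pfC (piC [(nat_lit 42686981), (nat_lit 27030628), (nat_lit 20024807), (nat_lit 13470738)] (nat_lit 6792444)) p14_9_2 (nat_lit 4) (nat_lit 65) (nat_lit 66) = true := by decide +kernel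
def p14_9_2_66 : pfC (piC [(nat_lit 42686981), (nat_lit 27030628), (nat_lit 20024807), (nat_lit 13470738)] (nat_lit 6792444)) p14_9_2 (nat_lit 4) (nat_lit 66) (nat_lit 67) = true := by decide +kernel
def p14_9_2_67 : pfC (piC [(nat_lit 42686981), (nat_lit 27030628), (nat_lit 20024807), (nat_lit 13470738)] (nat_lit 6792444)) p14_9_2 (nat_lit 4) (nat_lit 67) (nat_lit 68) = true := by decide +kernel
def p14_9_2_68 : pfC (piC [(nat_lit 42686981), (nat_lit 27030628), (nat_lit 20024807), (nat_lit 13470738)] (nat_lit 6792444)) p14_9_2 (nat_lit 4) (nat_lit 68) (nat_lit 69) = true := by decide +kernel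
def p14_9_2_69 : pfC (piC [(nat_lit 42686981), (nat_lit 27030628), (nat_lit 20024807), (nat_lit 13470738)] (nat_lit 6792444)) p14_9_2 (nat_lit 4) (nat_lit 69) (nat_lit 70) = true := by decide +kernel
def p14_9_2_70 : pfC (piC [(nat_lit 42686981), (nat_lit 27030628), (nat_lit 20024807), (nat_lit 13470738)] (nat_lit 6792444)) p14_9_2 (nat_lit 4) (nat_lit 70) (nat_lit 71) = true := by decide +kernel
def p14_9_2_71 : pfC (piC [(nat_lit 42686981), (nat_lit 27030628), (nat_lit 20024807), (nat_lit 13470738)] (nat_lit 6792444)) p14_9_2 (nat_lit 4) (nat_lit 71) (nat_lit 72) = true := by decide +kernel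
def p14_9_2_72 : pfC (piC [(nat_lit 42686981), (nat_lit 27030628), (nat_lit 20024807), (nat_lit 13470738)] (nat_lit 6792444)) p14_9_2 (nat_lit 4) (nat_lit 72) (nat_lit 73) = true := by decide +kernel
def p14_9_2_73 : pfC (piC [(nat_lit 42686981), (nat_lit 27030628), (nat_lit 20024807), (nat_lit 13470738)] (nat_lit 6792444)) p14_9_2 (nat_lit 4) (nat_lit 73) (nat_lit 74) = true := by decide +kernel
def p14_9_2_74 : pfC (piC [(nat_lit 42686981), (nat_lit 27030628), (nat_lit 20024807), (nat_lit 13470738)] (nat_lit 6792444)) p14_9_2 (nat_lit 4) (nat_lit 74) (nat_lit 75) = true := by decide +kernel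
def p14_9_2_75 : pfC (piC [(nat_lit 42686981), (nat_lit 27030628), (nat_lit 20024807), (nat_lit 13470738)] (nat_lit 6792444)) p14_9_2 (nat_lit 4) (nat_lit 75) (nat_lit 76) = true := by decide +kernel
def p14_9_2_76 : pfC (piC [(nat_lit 42686981), (nat_lit 27030628), (nat_lit 20024807), (nat_lit 13470738)] (nat_lit 6792444)) p14_9_2 (nat_lit 4) (nat_lit 76) (nat_lit 77) = true := by decide +kernel
theorem p14_9_2_T : PfS (PiF n14_9.reverse (nat_lit 6792444)) p14_9_2 (nat_lit 4) [] 0 :=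
  pftab_of (los := [(nat_lit 42686981), (nat_lit 27030628), (nat_lit 20024807), (nat_lit 13470738)]) (by decide +kernel) (hi := (nat_lit 77)) (PfP.trans (PfP.trans (PfP.trans (PfP.trans (PfP.trans (PfP.trans (PfP.trans (PfP.trans (PfP.trans (PfP.trans (PfP.trans (PfP.trans (PfP.trans (PfP.trans (PfP.trans (PfP.trans (PfP.trans (PfP.trans (PfP.trans (PfP.trans (PfP.trans (PfP.trans (PfP.trans (PfP.trans (PfP.trans (PfP.trans (PfP.trans (PfP.trans (PfP.trans (PfP.trans (PfP.trans (PfP.trans (PfP.trans (PfP.trans (PfP.trans (PfP.trans (PfP.trans (PfP.trans (PfP.trans (PfP.trans (PfP.trans (PfP.trans (PfP.trans (PfP.trans (PfP.trans (PfP.trans (PfP.trans (PfP.trans (PfP.trans (PfP.trans (PfP.trans (PfP.trans (PfP.trans (PfP.trans (PfP.trans (PfP.trans (PfP.trans (PfP.trans (PfP.trans (PfP.trans (PfP.trans (PfP.trans (PfP.trans (PfP.trans (PfP.trans (PfP.trans (PfP.trans (PfP.trans (PfP.trans (PfP.trans (PfP.trans (PfP.trans (PfP.trans (PfP.trans (PfP.trans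 (PfP.trans (pfC_sound p14_9_2_0) (pfC_sound p14_9_2_1)) (pfC_sound p14_9_2_2)) (pfC_sound p14_9_2_3)) (pfC_sound p14_9_2_4)) (pfC_sound p14_9_2_5)) (pfC_sound p14_9_2_6)) (pfC_sound p14_9_2_7)) (pfC_sound p14_9_2_8)) (pfC_sound p14_9_2_9)) (pfC_sound p14_9_2_10)) (pfC_sound p14_9_2_11)) (pfC_sound p14_9_2_12)) (pfC_sound p14_9_2_13)) (pfC_sound p14_9_2_14)) (pfC_sound
 p14_9_2_15)) (pfC_sound p14_9_2_16)) (pfC_sound p14_9_2_17)) (pfC_sound p14_9_2_18)) (pfC_sound p14_9_2_19)) (pfC_sound p14_9_2_20)) (pfC_sound p14_9_2_21)) (pfC_sound p14_9_2_22)) (pfC_sound p14_9_2_23)) (pfC_sound p14_9_2_24)) (pfC_sound p14_9_2_25)) (pfC_sound p14_9_2_26)) (pfC_sound p14_9_2_27)) (pfC_sound p14_9_2_28)) (pfC_sound p14_9_2_29)) (pfC_sound p14_9_2_30)) (pfC_sound p14_9_2_31)) (pfC_sound p14_9_2_32)) (pfC_sound p14_9_2_33)) (pfC_sound p14_9_2_34)) (pfC_sound p14_9_2_35)) (pfC_sound p14_9_2_36)) (pfC_sound p14_9_2_37)) (pfC_sound p14_9_2_38)) (pfC_sound p14_9_2_39)) (pfC_sound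 p14_9_2_40)) (pfC_sound p14_9_2_41)) (pfC_sound p14_9_2_42)) (pfC_sound p14_9_2_43)) (pfC_sound p14_9_2_44)) (pfC_sound p14_9_2_45)) (pfC_sound p14_9_2_46)) (pfC_sound p14_9_2_47)) (pfC_sound p14_9_2_48)) (pfC_sound p14_9_2_49)) (pfC_sound p14_9_2_50)) (pfC_sound p14_9_2_51)) (pfC_sound p14_9_2_52)) (pfC_sound p14_9_2_53)) (pfC_sound p14_9_2_54)) (pfC_sound p14_9_2_55)) (pfC_sound p14_9_2_56)) (pfC_sound p14_9_2_57)) (pfC_sound p14_9_2_58)) (pfC_sound p14_9_2_59)) (pfC_sound p14_9_2_60)) (pfC_sound p14_9_2_61)) (pfC_sound p14_9_2_62)) (pfC_sound p14_9_2_63)) (pfC_sound p14_9_2_64)) (pfC_sound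
 p14_9_2_65)) (pfC_sound p14_9_2_66)) (pfC_sound p14_9_2_67)) (pfC_sound p14_9_2_68)) (pfC_sound p14_9_2_69)) (pfC_sound p14_9_2_70)) (pfC_sound p14_9_2_71)) (pfC_sound p14_9_2_72)) (pfC_sound p14_9_2_73)) (pfC_sound p14_9_2_74)) (pfC_sound p14_9_2_75)) (pfC_sound p14_9_2_76)) (by decide +kernel)

def z14_9_2 : zOK yB14_9 (nat_lit 2) (nat_lit 600) (nat_lit 750) (nat_lit 6792444) (nat_lit 4877605) = true := by decide +kernel
def g14_9_2 : gOK yB14_9.x P14_9 (nat_lit 1432) (q14_9 :: r14_9) (nat_lit 2) (nat_lit 600) (nat_lit 3) (nat_lit 750) (nat_lit 12712500) (nat_lit 12712500) (nat_lit 12712500) (nat_lit 12712500) [(nat_lit 800), (nat_lit 1600)] = true := by decide +kernel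
def v14_9_2 : ivC P14_9 s14_9 w14_9 n14_9 (nat_lit 4) (nat_lit 4880) (nat_lit 2) (nat_lit 600) f144_1_600 f152_1_600 (nat_lit 3) (nat_lit 750) f144_1_750 f152_1_750 (nat_lit 6792444) (nat_lit 4877605) p14_9_2 = true := by decide +kernel
def p14_9_3 : PF := (PF.cons (PF.cons (PF.cons (PF.cons (PF.leaf (nat_lit 3082793) (nat_lit 20592494) (nat_lit 46516318) (nat_lit 20592494) [(nat_lit 0), (nat_lit 0), (nat_lit 0), (nat_lit 0)]) (PF.cons (PF.leaf (nat_lit 3192741) (nat_lit 185424) (nat_lit 46364120) (nat_lit 20559267) [(nat_lit 185424), (nat_lit 0), (nat_lit 0), (nat_lit 0)]) (PF.cons (PF.leaf (nat_lit 3325603) (nat_lit 201594) (nat_lit 46185717) (nat_lit 20519907) [(nat_lit 201594), (nat_lit 0), (nat_lit 0), (nat_lit 0)]) (PF.cons (PF.leaf (nat_lit 3474782) (nat_lit 215950) (nat_lit 45985702) (nat_lit 20475259) [(nat_lit 215950), (nat_lit 0), (nat_lit 0), (nat_lit 0)]) (PF.cons (PF.leaf (nat_lit 3637883) (nat_lit 228907) (nat_lit 45767291) (nat_lit 20425889)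 [(nat_lit 228907), (nat_lit 0), (nat_lit 0), (nat_lit 0)]) (PF.cons (PF.leaf (nat_lit 3813525) (nat_lit 240733) (nat_lit 45532937) (nat_lit 20372209) [(nat_lit 240733), (nat_lit 0), (nat_lit 0), (nat_lit 0)]) (PF.cons (PF.leaf (nat_lit 4000043) (nat_lit 251610) (nat_lit 45284610) (nat_lit 20314540) [(nat_lit 251610), (nat_lit 0), (nat_lit 0), (nat_lit 0)]) (PF.cons (PF.leaf (nat_lit 4196428) (nat_lit 261672) (nat_lit 45023958) (nat_lit 20253148) [(nat_lit 261672), (nat_lit 0),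
 (nat_lit 0), (nat_lit 0)]) (PF.cons PF.nil (PF.cons PF.nil PF.nil)))))))))) (PF.cons (PF.cons (PF.leaf (nat_lit 3526545) (nat_lit 1011079) (nat_lit 45691229) (nat_lit 20406503) [(nat_lit 0), (nat_lit 1011079), (nat_lit 0), (nat_lit 0)]) (PF.cons (PF.leaf (nat_lit 3672106) (nat_lit 226253) (nat_lit 45489631) (nat_lit 20360125) [(nat_lit 226253), (nat_lit 1032801), (nat_lit 0), (nat_lit 0)]) (PF.cons (PF.leaf (nat_lit 3834695) (nat_lit 238601) (nat_lit 45268630) (nat_lit 20308675) [(nat_lit 238601), (nat_lit 1054305), (nat_lit 0), (nat_lit 0)]) (PF.cons (PF.leaf (nat_lit 4009971) (nat_lit 249817) (nat_lit 45031382) (nat_lit 20252742) [(nat_lit 249817), (nat_lit 1075234), (nat_lit 0), (nat_lit 0)]) (PF.cons (PF.leaf (nat_lit 4196421) (nat_lit 260109) (nat_lit 44780225) (nat_lit 20192748) [(nat_lit 260109), (nat_lit 1095401), (nat_lit 0), (nat_lit 0)]) (PF.cons (PF.leaf (nat_lit 4392765) (nat_lit 269616) (nat_lit 44517002) (nat_lit 20129018) [(nat_lit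 269616), (nat_lit 1114709), (nat_lit 0), (nat_lit 0)]) (PF.cons (PF.leaf (nat_lit 4597953) (nat_lit 278442) (nat_lit 44243231) (nat_lit 20061817) [(nat_lit 278442), (nat_lit 1133112), (nat_lit 0), (nat_lit 0)]) (PF.cons PF.nil (PF.cons
 PF.nil PF.nil))))))))) (PF.cons (PF.cons (PF.leaf (nat_lit 4035863) (nat_lit 1084157) (nat_lit 44755773) (nat_lit 20184725) [(nat_lit 0), (nat_lit 1084157), (nat_lit 0), (nat_lit 0)]) (PF.cons (PF.leaf (nat_lit 4208042) (nat_lit 257614) (nat_lit 44518677) (nat_lit 20127254) [(nat_lit 257614), (nat_lit 1102633), (nat_lit 0), (nat_lit 0)]) (PF.cons (PF.leaf (nat_lit 4393388) (nat_lit 267498) (nat_lit 44267082) (nat_lit 20065505) [(nat_lit 267498), (nat_lit 1120614), (nat_lit 0), (nat_lit 0)]) (PF.cons (PF.leaf (nat_lit 4588899) (nat_lit 276586) (nat_lit 44003244) (nat_lit 19999915) [(nat_lit 276586), (nat_lit 1137946), (nat_lit 0), (nat_lit 0)]) (PF.cons (PF.leaf (nat_lit 4793361) (nat_lit 284997) (nat_lit 43728910) (nat_lit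 19930817) [(nat_lit 284997), (nat_lit 1154547), (nat_lit 0), (nat_lit 0)]) (PF.cons PF.nil (PF.cons PF.nil PF.nil))))))) (PF.cons (PF.cons (PF.leaf (nat_lit 4592851) (nat_lit 1143260) (nat_lit 43746064) (nat_lit 19932966) [(nat_lit 0), (nat_lit 1143260), (nat_lit 0), (nat_lit 0)]) (PF.cons (PF.leaf (nat_lit 4785371) (nat_lit 282666) (nat_lit 43483641) (nat_lit 19866051) [(nat_lit 282666), (nat_lit 1158818), (nat_lit 0), (nat_lit 0)]) (PF.cons (PF.leaf (nat_lit
 4988362) (nat_lit 290761) (nat_lit 43210392) (nat_lit 19795502) [(nat_lit 290761), (nat_lit 1173798), (nat_lit 0), (nat_lit 0)]) (PF.cons (PF.leaf (nat_lit 5199471) (nat_lit 298253) (nat_lit 42927988) (nat_lit 19721663) [(nat_lit 298253), (nat_lit 1188132), (nat_lit 0), (nat_lit 0)]) (PF.cons PF.nil PF.nil))))) (PF.cons (PF.cons (PF.leaf (nat_lit 5184456) (nat_lit 1191118) (nat_lit 42688298) (nat_lit 19656041) [(nat_lit 0), (nat_lit 1191118), (nat_lit 0), (nat_lit 0)]) (PF.cons (PF.leaf (nat_lit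 5392523) (nat_lit 303026) (nat_lit 42408316) (nat_lit 19581124) [(nat_lit 303026), (nat_lit 1204086), (nat_lit 0), (nat_lit 0)]) (PF.cons PF.nil (PF.cons PF.nil PF.nil)))) (PF.cons (PF.cons (PF.leaf (nat_lit 5800519) (nat_lit 1229632) (nat_lit 41602378) (nat_lit 19358269) [(nat_lit 0), (nat_lit 1229632), (nat_lit 0), (nat_lit 0)]) (PF.cons PF.nil PF.nil)) (PF.cons PF.nil (PF.cons PF.nil PF.nil)))))))) (PF.cons (PF.cons (PF.cons (PF.leaf (nat_lit 4019075) (nat_lit 2771375) (nat_lit 44280506) (nat_lit 20056930) [(nat_lit 0), (nat_lit 0), (nat_lit 2771375), (nat_lit 0)]) (PF.cons (PF.leaf (nat_lit 4172430) (nat_lit 243506) (nat_lit 44070803) (nat_lit 20004976) [(nat_lit 243506), (nat_lit 0),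
 (nat_lit 2789526), (nat_lit 0)]) (PF.cons (PF.leaf (nat_lit 4342109) (nat_lit 255215) (nat_lit 43842554) (nat_lit 19947817) [(nat_lit 255215), (nat_lit 0), (nat_lit 2808011), (nat_lit 0)]) (PF.cons (PF.leaf (nat_lit 4523844) (nat_lit 265702) (nat_lit 43599137) (nat_lit 19886165) [(nat_lit 265702), (nat_lit 0), (nat_lit 2826403), (nat_lit 0)]) (PF.cons (PF.leaf (nat_lit 4716026) (nat_lit 275216) (nat_lit 43343002) (nat_lit 19820526) [(nat_lit 275216), (nat_lit 0), (nat_lit 2844416), (nat_lit 0)]) (PF.cons (PF.leaf (nat_lit 4917342) (nat_lit 283925) (nat_lit 43076044) (nat_lit 19751285) [(nat_lit 283925), (nat_lit 0), (nat_lit 2861854), (nat_lit 0)]) (PF.cons PF.nil (PF.cons PF.nil (PF.cons PF.nil PF.nil))))))))) (PF.cons (PF.cons (PF.leaf (nat_lit 4541714) (nat_lit 1131001) (nat_lit 43326303) (nat_lit 19814088) [(nat_lit 0), (nat_lit 1131001), (nat_lit 2837419), (nat_lit 0)]) (PF.cons (PF.leaf (nat_lit 4719500) (nat_lit 271822) (nat_lit 43085283) (nat_lit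 19751545) [(nat_lit 271822), (nat_lit 1146677), (nat_lit 2853482), (nat_lit 0)]) (PF.cons (PF.leaf (nat_lit 4909679) (nat_lit 281042) (nat_lit 42830796) (nat_lit 19684769) [(nat_lit 281042), (nat_lit 1161864), (nat_lit 2869298),
 (nat_lit 0)]) (PF.cons (PF.leaf (nat_lit 5109363) (nat_lit 289433) (nat_lit 42565156) (nat_lit 19614264) [(nat_lit 289433), (nat_lit 1176443), (nat_lit 2884649), (nat_lit 0)]) (PF.cons (PF.leaf (nat_lit 5317308) (nat_lit 297132) (nat_lit 42290134) (nat_lit 19540412) [(nat_lit 297132), (nat_lit 1190353), (nat_lit 2899384), (nat_lit 0)]) (PF.cons PF.nil (PF.cons PF.nil PF.nil))))))) (PF.cons (PF.cons (PF.leaf (nat_lit 5105456) (nat_lit 1179667) (nat_lit 42313715) (nat_lit 19544626) [(nat_lit 0), (nat_lit 1179667), (nat_lit 2891136), (nat_lit 0)]) (PF.cons (PF.leaf (nat_lit 5301487) (nat_lit 294192) (nat_lit 42051139) (nat_lit 19473369) [(nat_lit 294192), (nat_lit 1192784), (nat_lit 2904542), (nat_lit 0)]) (PF.cons (PF.leaf (nat_lit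 5507317) (nat_lit 301652) (nat_lit 41778735) (nat_lit 19398622) [(nat_lit 301652), (nat_lit 1205359), (nat_lit 2917431), (nat_lit 0)]) (PF.cons PF.nil (PF.cons PF.nil PF.nil))))) (PF.cons (PF.cons (PF.leaf (nat_lit 5698308) (nat_lit 1218812) (nat_lit 41265917) (nat_lit 19253506) [(nat_lit 0), (nat_lit 1218812), (nat_lit 2932949), (nat_lit 0)]) (PF.cons (PF.leaf (nat_lit 5908180) (nat_lit 312202) (nat_lit 40988987) (nat_lit 19175086) [(nat_lit 312202),
 (nat_lit 1229654), (nat_lit 2943574), (nat_lit 0)]) (PF.cons PF.nil (PF.cons PF.nil PF.nil)))) (PF.cons (PF.cons (PF.leaf (nat_lit 6311113) (nat_lit 1249967) (nat_lit 40200149) (nat_lit 18945009) [(nat_lit 0), (nat_lit 1249967), (nat_lit 2963783), (nat_lit 0)]) (PF.cons PF.nil PF.nil)) (PF.cons PF.nil PF.nil)))))) (PF.cons (PF.cons (PF.cons (PF.leaf (nat_lit 5040967) (nat_lit 2881918) (nat_lit 41918615) (nat_lit 19426360) [(nat_lit 0), (nat_lit 0), (nat_lit 2881918), (nat_lit 0)]) (PF.cons (PF.leaf (nat_lit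 5222678) (nat_lit 283278) (nat_lit 41676968) (nat_lit 19359834) [(nat_lit 283278), (nat_lit 0), (nat_lit 2894366), (nat_lit 0)]) (PF.cons (PF.leaf (nat_lit 5416200) (nat_lit 291905) (nat_lit 41422808) (nat_lit 19289160) [(nat_lit 291905), (nat_lit 0), (nat_lit 2906515), (nat_lit 0)]) (PF.cons (PF.leaf (nat_lit 5618635) (nat_lit 299682) (nat_lit 41158470) (nat_lit 19214896) [(nat_lit 299682), (nat_lit 0), (nat_lit 2918198), (nat_lit 0)]) (PF.cons PF.nil PF.nil))))) (PF.cons (PF.cons (PF.leaf (nat_lit 5607626) (nat_lit 1206977) (nat_lit 40914662) (nat_lit 19143631) [(nat_lit 0), (nat_lit 1206977), (nat_lit 2921770), (nat_lit 0)]) (PF.cons (PF.leaf (nat_lit 5805951) (nat_lit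
 303356) (nat_lit 40654581) (nat_lit 19069118) [(nat_lit 303356), (nat_lit 1218061), (nat_lit 2931847), (nat_lit 0)]) (PF.cons (PF.leaf (nat_lit 6013361) (nat_lit 310257) (nat_lit 40385553) (nat_lit 18991272) [(nat_lit 310257), (nat_lit 1228627), (nat_lit 2941422), (nat_lit 0)]) (PF.cons PF.nil PF.nil)))) (PF.cons (PF.cons (PF.leaf (nat_lit 6198842) (nat_lit 1238935) (nat_lit 39885541) (nat_lit 18842465) [(nat_lit 0), (nat_lit 1238935), (nat_lit 2951467), (nat_lit 0)]) (PF.cons (PF.leaf (nat_lit 6409388) (nat_lit 319350) (nat_lit 39613709) (nat_lit 18761575) [(nat_lit 319350), (nat_lit 1247988), (nat_lit 2959099), (nat_lit 0)]) PF.nil)) (PF.cons PF.nil (PF.cons PF.nil PF.nil))))) (PF.cons (PF.cons (PF.cons (PF.leaf (nat_lit 6098047) (nat_lit 2938949) (nat_lit 39556950) (nat_lit 18735012) [(nat_lit 0), (nat_lit 0), (nat_lit 2938949), (nat_lit 0)]) (PF.cons (PF.leaf (nat_lit 6297479) (nat_lit 310567) (nat_lit 39301292) (nat_lit 18658189) [(nat_lit 310567),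 (nat_lit 0), (nat_lit 2946254), (nat_lit 0)]) (PF.cons (PF.leaf (nat_lit 6505611) (nat_lit 316967) (nat_lit 39037468) (nat_lit 18578198) [(nat_lit 316967), (nat_lit 0), (nat_lit 2953070), (nat_lit 0)]) (PF.cons PF.nil PF.nil))))
 (PF.cons (PF.cons (PF.leaf (nat_lit 6685322) (nat_lit 1252880) (nat_lit 38552621) (nat_lit 18427347) [(nat_lit 0), (nat_lit 1252880), (nat_lit 2958654), (nat_lit 0)]) (PF.cons PF.nil PF.nil)) (PF.cons PF.nil PF.nil))) (PF.cons (PF.cons (PF.cons (PF.leaf (nat_lit 7157395) (nat_lit 2956665) (nat_lit 37270369) (nat_lit 18011782) [(nat_lit 0), (nat_lit 0), (nat_lit 2956665), (nat_lit 0)]) (PF.cons PF.nil PF.nil)) (PF.cons PF.nil PF.nil)) (PF.cons PF.nil PF.nil)))))) (PF.cons (PF.cons (PF.cons (PF.cons (PF.leaf (nat_lit 4840894) (nat_lit 7389776) (nat_lit 40703403) (nat_lit 19015633) [(nat_lit 0), (nat_lit 0), (nat_lit 0), (nat_lit 7389776)]) (PF.cons (PF.leaf (nat_lit 4994834) (nat_lit 252022) (nat_lit 40508248) (nat_lit 18960359)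 [(nat_lit 252022), (nat_lit 0), (nat_lit 0), (nat_lit 7388182)]) (PF.cons (PF.leaf (nat_lit 5164312) (nat_lit 263277) (nat_lit 40296537) (nat_lit 18899912) [(nat_lit 263277), (nat_lit 0), (nat_lit 0), (nat_lit 7385807)]) (PF.cons (PF.leaf (nat_lit 5345100) (nat_lit 273209) (nat_lit 40071498) (nat_lit 18835114) [(nat_lit 273209), (nat_lit 0), (nat_lit 0), (nat_lit 7382571)]) (PF.cons (PF.leaf (nat_lit 5535528) (nat_lit 282096) (nat_lit 39835461) (nat_lit
 18766550) [(nat_lit 282096), (nat_lit 0), (nat_lit 0), (nat_lit 7378413)]) (PF.cons (PF.leaf (nat_lit 5734258) (nat_lit 290128) (nat_lit 39590212) (nat_lit 18694666) [(nat_lit 290128), (nat_lit 0), (nat_lit 0), (nat_lit 7373290)]) (PF.cons PF.nil PF.nil))))))) (PF.cons (PF.cons (PF.leaf (nat_lit 5353950) (nat_lit 1149444) (nat_lit 39823967) (nat_lit 18761263) [(nat_lit 0), (nat_lit 1149444), (nat_lit 0), (nat_lit 7374137)]) (PF.cons (PF.leaf (nat_lit 5529988) (nat_lit 277925) (nat_lit 39602421) (nat_lit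 18696320) [(nat_lit 277925), (nat_lit 1162590), (nat_lit 0), (nat_lit 7369555)]) (PF.cons (PF.leaf (nat_lit 5717664) (nat_lit 286553) (nat_lit 39369140) (nat_lit 18627364) [(nat_lit 286553), (nat_lit 1175172), (nat_lit 0), (nat_lit 7364029)]) (PF.cons (PF.leaf (nat_lit 5914073) (nat_lit 294305) (nat_lit 39126292) (nat_lit 18554959) [(nat_lit 294305), (nat_lit 1187113), (nat_lit 0), (nat_lit 7357530)]) (PF.cons (PF.leaf (nat_lit 6117975) (nat_lit 301335) (nat_lit 38875518) (nat_lit 18479531) [(nat_lit 301335), (nat_lit 1198380), (nat_lit 0), (nat_lit 7350042)]) PF.nil))))) (PF.cons (PF.cons (PF.leaf (nat_lit 5901637) (nat_lit 1188172) (nat_lit 38900364) (nat_lit 18485112) [(nat_lit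
 0), (nat_lit 1188172), (nat_lit 0), (nat_lit 7346991)]) (PF.cons (PF.leaf (nat_lit 6093873) (nat_lit 297820) (nat_lit 38661346) (nat_lit 18412661) [(nat_lit 297820), (nat_lit 1198862), (nat_lit 0), (nat_lit 7339258)]) (PF.cons (PF.leaf (nat_lit 6295112) (nat_lit 304651) (nat_lit 38413944) (nat_lit 18337037) [(nat_lit 304651), (nat_lit 1208998), (nat_lit 0), (nat_lit 7330531)]) (PF.cons PF.nil PF.nil)))) (PF.cons (PF.cons (PF.leaf (nat_lit 6472975) (nat_lit 1218369) (nat_lit 37952555) (nat_lit 18192402) [(nat_lit 0), (nat_lit 1218369), (nat_lit 0), (nat_lit 7308744)]) (PF.cons (PF.leaf (nat_lit 6677137) (nat_lit 313468) (nat_lit 37702402) (nat_lit 18114096) [(nat_lit 313468), (nat_lit 1226972), (nat_lit 0), (nat_lit 7297927)]) PF.nil)) (PF.cons PF.nil (PF.cons PF.nil PF.nil)))))) (PF.cons (PF.cons (PF.cons (PF.leaf (nat_lit 5823380) (nat_lit 2863772) (nat_lit 38555512) (nat_lit 18371169) [(nat_lit 0), (nat_lit 0), (nat_lit 2863772), (nat_lit 7318359)])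 (PF.cons (PF.leaf (nat_lit 6001914) (nat_lit 286529) (nat_lit 38335614) (nat_lit 18303844) [(nat_lit 286529), (nat_lit 0), (nat_lit 2872046), (nat_lit 7310777)]) (PF.cons (PF.leaf (nat_lit 6191554) (nat_lit 294599) (nat_lit 38104820)
 (nat_lit 18232640) [(nat_lit 294599), (nat_lit 0), (nat_lit 2879958), (nat_lit 7302195)]) (PF.cons (PF.leaf (nat_lit 6389401) (nat_lit 301787) (nat_lit 37865276) (nat_lit 18158153) [(nat_lit 301787), (nat_lit 0), (nat_lit 2887394), (nat_lit 7292624)]) (PF.cons PF.nil PF.nil))))) (PF.cons (PF.cons (PF.leaf (nat_lit 6370804) (nat_lit 1205507) (nat_lit 37647705) (nat_lit 18088134) [(nat_lit 0), (nat_lit 1205507), (nat_lit 2887670), (nat_lit 7279795)]) (PF.cons (PF.leaf (nat_lit 6564134) (nat_lit 304419) (nat_lit 37412768) (nat_lit 18013983) [(nat_lit 304419), (nat_lit 1214528), (nat_lit 2893869), (nat_lit 7269243)]) (PF.cons (PF.leaf (nat_lit 6765885) (nat_lit 310749) (nat_lit 37170170) (nat_lit 17936824) [(nat_lit 310749),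 (nat_lit 1223028), (nat_lit 2899584), (nat_lit 7257706)]) (PF.cons PF.nil PF.nil)))) (PF.cons (PF.cons (PF.leaf (nat_lit 6938352) (nat_lit 1229982) (nat_lit 36722909) (nat_lit 17791201) [(nat_lit 0), (nat_lit 1229982), (nat_lit 2903318), (nat_lit 7231419)]) (PF.cons PF.nil PF.nil)) (PF.cons PF.nil (PF.cons PF.nil PF.nil))))) (PF.cons (PF.cons (PF.cons (PF.leaf (nat_lit 6828196) (nat_lit 2889135) (nat_lit 36438415) (nat_lit 17690529) [(nat_lit 0), (nat_lit 0),
 (nat_lit 2889135), (nat_lit 7201595)]) (PF.cons (PF.leaf (nat_lit 7021776) (nat_lit 309501) (nat_lit 36208742) (nat_lit 17615363) [(nat_lit 309501), (nat_lit 0), (nat_lit 2893248), (nat_lit 7188707)]) (PF.cons PF.nil (PF.cons PF.nil PF.nil)))) (PF.cons (PF.cons (PF.leaf (nat_lit 7390395) (nat_lit 1237030) (nat_lit 35540110) (nat_lit 17391842) [(nat_lit 0), (nat_lit 1237030), (nat_lit 2897422), (nat_lit 7144985)]) (PF.cons PF.nil PF.nil)) (PF.cons PF.nil PF.nil))) (PF.cons (PF.cons (PF.cons (PF.leaf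 (nat_lit 7829078) (nat_lit 2885163) (nat_lit 34405170) (nat_lit 16996604) [(nat_lit 0), (nat_lit 0), (nat_lit 2885163), (nat_lit 7051548)]) (PF.cons PF.nil PF.nil)) (PF.cons PF.nil PF.nil)) (PF.cons PF.nil PF.nil))))) (PF.cons (PF.cons (PF.cons (PF.cons (PF.leaf (nat_lit 6534993) (nat_lit 7076162) (nat_lit 35593356) (nat_lit 17363130) [(nat_lit 0), (nat_lit 0), (nat_lit 0), (nat_lit 7076162)]) (PF.cons (PF.leaf (nat_lit 6709396) (nat_lit 286394) (nat_lit 35394657) (nat_lit 17297282) [(nat_lit 286394), (nat_lit 0), (nat_lit 0), (nat_lit 7065238)]) (PF.cons (PF.leaf (nat_lit 6894296) (nat_lit 293968) (nat_lit 35186422) (nat_lit 17227848) [(nat_lit 293968), (nat_lit 0), (nat_lit 0),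
 (nat_lit 7053302)]) (PF.cons (PF.leaf (nat_lit 7086810) (nat_lit 300650) (nat_lit 34970601) (nat_lit 17155427) [(nat_lit 300650), (nat_lit 0), (nat_lit 0), (nat_lit 7040416)]) (PF.cons PF.nil PF.nil))))) (PF.cons (PF.cons (PF.leaf (nat_lit 7062387) (nat_lit 1192530) (nat_lit 34777222) (nat_lit 17088503) [(nat_lit 0), (nat_lit 1192530), (nat_lit 0), (nat_lit 7025278)]) (PF.cons (PF.leaf (nat_lit 7250096) (nat_lit 302508) (nat_lit 34565985) (nat_lit 17016776) [(nat_lit 302508), (nat_lit 1199988), (nat_lit 0), (nat_lit 7011776)]) (PF.cons (PF.leaf (nat_lit 7445794) (nat_lit 308357) (nat_lit 34348117) (nat_lit 16942338) [(nat_lit 308357), (nat_lit 1206934), (nat_lit 0), (nat_lit 6997353)]) (PF.cons PF.nil PF.nil)))) (PF.cons (PF.cons (PF.leaf (nat_lit 7606684) (nat_lit 1211503) (nat_lit 33949165) (nat_lit 16803233) [(nat_lit 0), (nat_lit 1211503), (nat_lit 0), (nat_lit 6966703)]) (PF.cons PF.nil PF.nil)) PF.nil))) (PF.cons (PF.cons (PF.cons (PF.leaf (nat_lit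 7490306) (nat_lit 2822293) (nat_lit 33702663) (nat_lit 16710514) [(nat_lit 0), (nat_lit 0), (nat_lit 2822293), (nat_lit 6936670)]) (PF.cons (PF.leaf (nat_lit 7677779) (nat_lit 306068) (nat_lit 33496810) (nat_lit 16638574)
 [(nat_lit 306068), (nat_lit 0), (nat_lit 2824211), (nat_lit 6921573)]) (PF.cons PF.nil PF.nil))) (PF.cons (PF.cons (PF.leaf (nat_lit 8028560) (nat_lit 1213866) (nat_lit 32900374) (nat_lit 16426318) [(nat_lit 0), (nat_lit 1213866), (nat_lit 2822903), (nat_lit 6872674)]) PF.nil) PF.nil)) (PF.cons PF.nil PF.nil))) (PF.cons (PF.cons (PF.cons (PF.cons (PF.leaf (nat_lit 8095241) (nat_lit 6669424) (nat_lit 31298324) (nat_lit 15802216) [(nat_lit 0), (nat_lit 0), (nat_lit 0), (nat_lit 6669424)]) (PF.cons (PF.leaf (nat_lit 8276559) (nat_lit 301165) (nat_lit 31113742) (nat_lit 15734243) [(nat_lit 301165), (nat_lit 0), (nat_lit 0), (nat_lit 6653220)]) PF.nil)) (PF.cons PF.nil PF.nil)) (PF.cons PF.nil PF.nil)) (PF.cons PF.nil (PF.cons PF.nil (PF.cons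 PF.nil (PF.cons PF.nil PF.nil))))))))

def p14_9_3_0 : pfC (piC [(nat_lit 42686981), (nat_lit 27030628), (nat_lit 20024807), (nat_lit 13470738)] (nat_lit 4877605)) p14_9_3 (nat_lit 4) (nat_lit 0) (nat_lit 1) = true := by decide +kernel
def p14_9_3_1 : pfC (piC [(nat_lit 42686981), (nat_lit 27030628), (nat_lit 20024807), (nat_lit 13470738)] (nat_lit 4877605)) p14_9_3 (nat_lit 4) (nat_lit 1) (nat_lit 2) = true := by decide +kernel
def p14_9_3_2 : pfC (piC [(nat_lit 42686981), (nat_lit 27030628), (nat_lit 20024807), (nat_lit 13470738)] (nat_lit 4877605)) p14_9_3 (nat_lit 4) (nat_lit 2) (nat_lit 3) = true := by decide +kernel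
def p14_9_3_3 : pfC (piC [(nat_lit 42686981), (nat_lit 27030628), (nat_lit 20024807), (nat_lit 13470738)] (nat_lit 4877605)) p14_9_3 (nat_lit 4) (nat_lit 3) (nat_lit 4) = true := by decide +kernel
def p14_9_3_4 : pfC (piC [(nat_lit 42686981), (nat_lit 27030628), (nat_lit 20024807), (nat_lit 13470738)] (nat_lit 4877605)) p14_9_3 (nat_lit 4) (nat_lit 4) (nat_lit 5) = true := by decide +kernel
def p14_9_3_5 : pfC (piC [(nat_lit 42686981), (nat_lit 27030628), (nat_lit 20024807), (nat_lit 13470738)] (nat_lit 4877605)) p14_9_3 (nat_lit 4) (nat_lit 5) (nat_lit 6) = true := by decide +kernel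
def p14_9_3_6 : pfC (piC [(nat_lit 42686981), (nat_lit 27030628), (nat_lit 20024807), (nat_lit 13470738)] (nat_lit 4877605)) p14_9_3 (nat_lit 4) (nat_lit 6) (nat_lit 7) = true := by decide +kernel
def p14_9_3_7 : pfC (piC [(nat_lit 42686981), (nat_lit 27030628), (nat_lit 20024807), (nat_lit 13470738)] (nat_lit 4877605)) p14_9_3 (nat_lit 4) (nat_lit 7) (nat_lit 8) = true := by decide +kernel
def p14_9_3_8 : pfC (piC [(nat_lit 42686981), (nat_lit 27030628), (nat_lit 20024807), (nat_lit 13470738)] (nat_lit 4877605)) p14_9_3 (nat_lit 4) (nat_lit 8) (nat_lit 9) = true := by decide +kernel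
def p14_9_3_9 : pfC (piC [(nat_lit 42686981), (nat_lit 27030628), (nat_lit 20024807), (nat_lit 13470738)] (nat_lit 4877605)) p14_9_3 (nat_lit 4) (nat_lit 9) (nat_lit 10) = true := by decide +kernel
def p14_9_3_10 : pfC (piC [(nat_lit 42686981), (nat_lit 27030628), (nat_lit 20024807), (nat_lit 13470738)] (nat_lit 4877605)) p14_9_3 (nat_lit 4) (nat_lit 10) (nat_lit 11) = true := by decide +kernel
def p14_9_3_11 : pfC (piC [(nat_lit 42686981), (nat_lit 27030628), (nat_lit 20024807), (nat_lit 13470738)] (nat_lit 4877605)) p14_9_3 (nat_lit 4) (nat_lit 11) (nat_lit 12) = true := by decide +kernel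
def p14_9_3_12 : pfC (piC [(nat_lit 42686981), (nat_lit 27030628), (nat_lit 20024807), (nat_lit 13470738)] (nat_lit 4877605)) p14_9_3 (nat_lit 4) (nat_lit 12) (nat_lit 13) = true := by decide +kernel
def p14_9_3_13 : pfC (piC [(nat_lit 42686981), (nat_lit 27030628), (nat_lit 20024807), (nat_lit 13470738)] (nat_lit 4877605)) p14_9_3 (nat_lit 4) (nat_lit 13) (nat_lit 14) = true := by decide +kernel
def p14_9_3_14 : pfC (piC [(nat_lit 42686981), (nat_lit 27030628), (nat_lit 20024807), (nat_lit 13470738)] (nat_lit 4877605)) p14_9_3 (nat_lit 4) (nat_lit 14) (nat_lit 15) = true := by decide +kernel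
def p14_9_3_15 : pfC (piC [(nat_lit 42686981), (nat_lit 27030628), (nat_lit 20024807), (nat_lit 13470738)] (nat_lit 4877605)) p14_9_3 (nat_lit 4) (nat_lit 15) (nat_lit 16) = true := by decide +kernel
def p14_9_3_16 : pfC (piC [(nat_lit 42686981), (nat_lit 27030628), (nat_lit 20024807), (nat_lit 13470738)] (nat_lit 4877605)) p14_9_3 (nat_lit 4) (nat_lit 16) (nat_lit 17) = true := by decide +kernel
def p14_9_3_17 : pfC (piC [(nat_lit 42686981), (nat_lit 27030628), (nat_lit 20024807), (nat_lit 13470738)] (nat_lit 4877605)) p14_9_3 (nat_lit 4) (nat_lit 17) (nat_lit 18) = true := by decide +kernel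
def p14_9_3_18 : pfC (piC [(nat_lit 42686981), (nat_lit 27030628), (nat_lit 20024807), (nat_lit 13470738)] (nat_lit 4877605)) p14_9_3 (nat_lit 4) (nat_lit 18) (nat_lit 19) = true := by decide +kernel
def p14_9_3_19 : pfC (piC [(nat_lit 42686981), (nat_lit 27030628), (nat_lit 20024807), (nat_lit 13470738)] (nat_lit 4877605)) p14_9_3 (nat_lit 4) (nat_lit 19) (nat_lit 20) = true := by decide +kernel
def p14_9_3_20 : pfC (piC [(nat_lit 42686981), (nat_lit 27030628), (nat_lit 20024807), (nat_lit 13470738)] (nat_lit 4877605)) p14_9_3 (nat_lit 4) (nat_lit 20) (nat_lit 21) = true := by decide +kernel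
def p14_9_3_21 : pfC (piC [(nat_lit 42686981), (nat_lit 27030628), (nat_lit 20024807), (nat_lit 13470738)] (nat_lit 4877605)) p14_9_3 (nat_lit 4) (nat_lit 21) (nat_lit 22) = true := by decide +kernel
def p14_9_3_22 : pfC (piC [(nat_lit 42686981), (nat_lit 27030628), (nat_lit 20024807), (nat_lit 13470738)] (nat_lit 4877605)) p14_9_3 (nat_lit 4) (nat_lit 22) (nat_lit 23) = true := by decide +kernel
def p14_9_3_23 : pfC (piC [(nat_lit 42686981), (nat_lit 27030628), (nat_lit 20024807), (nat_lit 13470738)] (nat_lit 4877605)) p14_9_3 (nat_lit 4) (nat_lit 23) (nat_lit 24) = true := by decide +kernel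
def p14_9_3_24 : pfC (piC [(nat_lit 42686981), (nat_lit 27030628), (nat_lit 20024807), (nat_lit 13470738)] (nat_lit 4877605)) p14_9_3 (nat_lit 4) (nat_lit 24) (nat_lit 25) = true := by decide +kernel
def p14_9_3_25 : pfC (piC [(nat_lit 42686981), (nat_lit 27030628), (nat_lit 20024807), (nat_lit 13470738)] (nat_lit 4877605)) p14_9_3 (nat_lit 4) (nat_lit 25) (nat_lit 26) = true := by decide +kernel
def p14_9_3_26 : pfC (piC [(nat_lit 42686981), (nat_lit 27030628), (nat_lit 20024807), (nat_lit 13470738)] (nat_lit 4877605)) p14_9_3 (nat_lit 4) (nat_lit 26) (nat_lit 27) = true := by decide +kernel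
def p14_9_3_27 : pfC (piC [(nat_lit 42686981), (nat_lit 27030628), (nat_lit 20024807), (nat_lit 13470738)] (nat_lit 4877605)) p14_9_3 (nat_lit 4) (nat_lit 27) (nat_lit 28) = true := by decide +kernel
def p14_9_3_28 : pfC (piC [(nat_lit 42686981), (nat_lit 27030628), (nat_lit 20024807), (nat_lit 13470738)] (nat_lit 4877605)) p14_9_3 (nat_lit 4) (nat_lit 28) (nat_lit 29) = true := by decide +kernel
def p14_9_3_29 : pfC (piC [(nat_lit 42686981), (nat_lit 27030628), (nat_lit 20024807), (nat_lit 13470738)] (nat_lit 4877605)) p14_9_3 (nat_lit 4) (nat_lit 29) (nat_lit 30) = true := by decide +kernel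
def p14_9_3_30 : pfC (piC [(nat_lit 42686981), (nat_lit 27030628), (nat_lit 20024807), (nat_lit 13470738)] (nat_lit 4877605)) p14_9_3 (nat_lit 4) (nat_lit 30) (nat_lit 31) = true := by decide +kernel
def p14_9_3_31 : pfC (piC [(nat_lit 42686981), (nat_lit 27030628), (nat_lit 20024807), (nat_lit 13470738)] (nat_lit 4877605)) p14_9_3 (nat_lit 4) (nat_lit 31) (nat_lit 32) = true := by decide +kernel
def p14_9_3_32 : pfC (piC [(nat_lit 42686981), (nat_lit 27030628), (nat_lit 20024807), (nat_lit 13470738)] (nat_lit 4877605)) p14_9_3 (nat_lit 4) (nat_lit 32) (nat_lit 33) = true := by decide +kernel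
def p14_9_3_33 : pfC (piC [(nat_lit 42686981), (nat_lit 27030628), (nat_lit 20024807), (nat_lit 13470738)] (nat_lit 4877605)) p14_9_3 (nat_lit 4) (nat_lit 33) (nat_lit 34) = true := by decide +kernel
def p14_9_3_34 : pfC (piC [(nat_lit 42686981), (nat_lit 27030628), (nat_lit 20024807), (nat_lit 13470738)] (nat_lit 4877605)) p14_9_3 (nat_lit 4) (nat_lit 34) (nat_lit 35) = true := by decide +kernel
def p14_9_3_35 : pfC (piC [(nat_lit 42686981), (nat_lit 27030628), (nat_lit 20024807), (nat_lit 13470738)] (nat_lit 4877605)) p14_9_3 (nat_lit 4) (nat_lit 35) (nat_lit 36) = true := by decide +kernel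
def p14_9_3_36 : pfC (piC [(nat_lit 42686981), (nat_lit 27030628), (nat_lit 20024807), (nat_lit 13470738)] (nat_lit 4877605)) p14_9_3 (nat_lit 4) (nat_lit 36) (nat_lit 37) = true := by decide +kernel
def p14_9_3_37 : pfC (piC [(nat_lit 42686981), (nat_lit 27030628), (nat_lit 20024807), (nat_lit 13470738)] (nat_lit 4877605)) p14_9_3 (nat_lit 4) (nat_lit 37) (nat_lit 38) = true := by decide +kernel
def p14_9_3_38 : pfC (piC [(nat_lit 42686981), (nat_lit 27030628), (nat_lit 20024807), (nat_lit 13470738)] (nat_lit 4877605)) p14_9_3 (nat_lit 4) (nat_lit 38) (nat_lit 39) = true := by decide +kernel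
def p14_9_3_39 : pfC (piC [(nat_lit 42686981), (nat_lit 27030628), (nat_lit 20024807), (nat_lit 13470738)] (nat_lit 4877605)) p14_9_3 (nat_lit 4) (nat_lit 39) (nat_lit 40) = true := by decide +kernel
def p14_9_3_40 : pfC (piC [(nat_lit 42686981), (nat_lit 27030628), (nat_lit 20024807), (nat_lit 13470738)] (nat_lit 4877605)) p14_9_3 (nat_lit 4) (nat_lit 40) (nat_lit 41) = true := by decide +kernel
def p14_9_3_41 : pfC (piC [(nat_lit 42686981), (nat_lit 27030628), (nat_lit 20024807), (nat_lit 13470738)] (nat_lit 4877605)) p14_9_3 (nat_lit 4) (nat_lit 41) (nat_lit 42) = true := by decide +kernel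
def p14_9_3_42 : pfC (piC [(nat_lit 42686981), (nat_lit 27030628), (nat_lit 20024807), (nat_lit 13470738)] (nat_lit 4877605)) p14_9_3 (nat_lit 4) (nat_lit 42) (nat_lit 43) = true := by decide +kernel
def p14_9_3_43 : pfC (piC [(nat_lit 42686981), (nat_lit 27030628), (nat_lit 20024807), (nat_lit 13470738)] (nat_lit 4877605)) p14_9_3 (nat_lit 4) (nat_lit 43) (nat_lit 44) = true := by decide +kernel
def p14_9_3_44 : pfC (piC [(nat_lit 42686981), (nat_lit 27030628), (nat_lit 20024807), (nat_lit 13470738)] (nat_lit 4877605)) p14_9_3 (nat_lit 4) (nat_lit 44) (nat_lit 45) = true := by decide +kernel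
def p14_9_3_45 : pfC (piC [(nat_lit 42686981), (nat_lit 27030628), (nat_lit 20024807), (nat_lit 13470738)] (nat_lit 4877605)) p14_9_3 (nat_lit 4) (nat_lit 45) (nat_lit 46) = true := by decide +kernel
def p14_9_3_46 : pfC (piC [(nat_lit 42686981), (nat_lit 27030628), (nat_lit 20024807), (nat_lit 13470738)] (nat_lit 4877605)) p14_9_3 (nat_lit 4) (nat_lit 46) (nat_lit 47) = true := by decide +kernel
def p14_9_3_47 : pfC (piC [(nat_lit 42686981), (nat_lit 27030628), (nat_lit 20024807), (nat_lit 13470738)] (nat_lit 4877605)) p14_9_3 (nat_lit 4) (nat_lit 47) (nat_lit 48) = true := by decide +kernel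
def p14_9_3_48 : pfC (piC [(nat_lit 42686981), (nat_lit 27030628), (nat_lit 20024807), (nat_lit 13470738)] (nat_lit 4877605)) p14_9_3 (nat_lit 4) (nat_lit 48) (nat_lit 49) = true := by decide +kernel
def p14_9_3_49 : pfC (piC [(nat_lit 42686981), (nat_lit 27030628), (nat_lit 20024807), (nat_lit 13470738)] (nat_lit 4877605)) p14_9_3 (nat_lit 4) (nat_lit 49) (nat_lit 50) = true := by decide +kernel
def p14_9_3_50 : pfC (piC [(nat_lit 42686981), (nat_lit 27030628), (nat_lit 20024807), (nat_lit 13470738)] (nat_lit 4877605)) p14_9_3 (nat_lit 4) (nat_lit 50) (nat_lit 51) = true := by decide +kernel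
def p14_9_3_51 : pfC (piC [(nat_lit 42686981), (nat_lit 27030628), (nat_lit 20024807), (nat_lit 13470738)] (nat_lit 4877605)) p14_9_3 (nat_lit 4) (nat_lit 51) (nat_lit 52) = true := by decide +kernel
def p14_9_3_52 : pfC (piC [(nat_lit 42686981), (nat_lit 27030628), (nat_lit 20024807), (nat_lit 13470738)] (nat_lit 4877605)) p14_9_3 (nat_lit 4) (nat_lit 52) (nat_lit 53) = true := by decide +kernel
def p14_9_3_53 : pfC (piC [(nat_lit 42686981), (nat_lit 27030628), (nat_lit 20024807), (nat_lit 13470738)] (nat_lit 4877605)) p14_9_3 (nat_lit 4) (nat_lit 53) (nat_lit 54) = true := by decide +kernel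
def p14_9_3_54 : pfC (piC [(nat_lit 42686981), (nat_lit 27030628), (nat_lit 20024807), (nat_lit 13470738)] (nat_lit 4877605)) p14_9_3 (nat_lit 4) (nat_lit 54) (nat_lit 55) = true := by decide +kernel
def p14_9_3_55 : pfC (piC [(nat_lit 42686981), (nat_lit 27030628), (nat_lit 20024807), (nat_lit 13470738)] (nat_lit 4877605)) p14_9_3 (nat_lit 4) (nat_lit 55) (nat_lit 56) = true := by decide +kernel
def p14_9_3_56 : pfC (piC [(nat_lit 42686981), (nat_lit 27030628), (nat_lit 20024807), (nat_lit 13470738)] (nat_lit 4877605)) p14_9_3 (nat_lit 4) (nat_lit 56) (nat_lit 57) = true := by decide +kernel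
def p14_9_3_57 : pfC (piC [(nat_lit 42686981), (nat_lit 27030628), (nat_lit 20024807), (nat_lit 13470738)] (nat_lit 4877605)) p14_9_3 (nat_lit 4) (nat_lit 57) (nat_lit 58) = true := by decide +kernel
def p14_9_3_58 : pfC (piC [(nat_lit 42686981), (nat_lit 27030628), (nat_lit 20024807), (nat_lit 13470738)] (nat_lit 4877605)) p14_9_3 (nat_lit 4) (nat_lit 58) (nat_lit 59) = true := by decide +kernel
def p14_9_3_59 : pfC (piC [(nat_lit 42686981), (nat_lit 27030628), (nat_lit 20024807), (nat_lit 13470738)] (nat_lit 4877605)) p14_9_3 (nat_lit 4) (nat_lit 59) (nat_lit 60) = true := by decide +kernel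
def p14_9_3_60 : pfC (piC [(nat_lit 42686981), (nat_lit 27030628), (nat_lit 20024807), (nat_lit 13470738)] (nat_lit 4877605)) p14_9_3 (nat_lit 4) (nat_lit 60) (nat_lit 61) = true := by decide +kernel
def p14_9_3_61 : pfC (piC [(nat_lit 42686981), (nat_lit 27030628), (nat_lit 20024807), (nat_lit 13470738)] (nat_lit 4877605)) p14_9_3 (nat_lit 4) (nat_lit 61) (nat_lit 62) = true := by decide +kernel
def p14_9_3_62 : pfC (piC [(nat_lit 42686981), (nat_lit 27030628), (nat_lit 20024807), (nat_lit 13470738)] (nat_lit 4877605)) p14_9_3 (nat_lit 4) (nat_lit 62) (nat_lit 63) = true := by decide +kernel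
def p14_9_3_63 : pfC (piC [(nat_lit 42686981), (nat_lit 27030628), (nat_lit 20024807), (nat_lit 13470738)] (nat_lit 4877605)) p14_9_3 (nat_lit 4) (nat_lit 63) (nat_lit 64) = true := by decide +kernel
def p14_9_3_64 : pfC (piC [(nat_lit 42686981), (nat_lit 27030628), (nat_lit 20024807), (nat_lit 13470738)] (nat_lit 4877605)) p14_9_3 (nat_lit 4) (nat_lit 64) (nat_lit 65) = true := by decide +kernel
def p14_9_3_65 : pfC (piC [(nat_lit 42686981), (nat_lit 27030628), (nat_lit 20024807), (nat_lit 13470738)] (nat_lit 4877605)) p14_9_3 (nat_lit 4) (nat_lit 65) (nat_lit 66) = true := by decide +kernel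
def p14_9_3_66 : pfC (piC [(nat_lit 42686981), (nat_lit 27030628), (nat_lit 20024807), (nat_lit 13470738)] (nat_lit 4877605)) p14_9_3 (nat_lit 4) (nat_lit 66) (nat_lit 67) = true := by decide +kernel
def p14_9_3_67 : pfC (piC [(nat_lit 42686981), (nat_lit 27030628), (nat_lit 20024807), (nat_lit 13470738)] (nat_lit 4877605)) p14_9_3 (nat_lit 4) (nat_lit 67) (nat_lit 68) = true := by decide +kernel
def p14_9_3_68 : pfC (piC [(nat_lit 42686981), (nat_lit 27030628), (nat_lit 20024807), (nat_lit 13470738)] (nat_lit 4877605)) p14_9_3 (nat_lit 4) (nat_lit 68) (nat_lit 69) = true := by decide +kernel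
def p14_9_3_69 : pfC (piC [(nat_lit 42686981), (nat_lit 27030628), (nat_lit 20024807), (nat_lit 13470738)] (nat_lit 4877605)) p14_9_3 (nat_lit 4) (nat_lit 69) (nat_lit 70) = true := by decide +kernel
def p14_9_3_70 : pfC (piC [(nat_lit 42686981), (nat_lit 27030628), (nat_lit 20024807), (nat_lit 13470738)] (nat_lit 4877605)) p14_9_3 (nat_lit 4) (nat_lit 70) (nat_lit 71) = true := by decide +kernel
def p14_9_3_71 : pfC (piC [(nat_lit 42686981), (nat_lit 27030628), (nat_lit 20024807), (nat_lit 13470738)] (nat_lit 4877605)) p14_9_3 (nat_lit 4) (nat_lit 71) (nat_lit 72) = true := by decide +kernel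
def p14_9_3_72 : pfC (piC [(nat_lit 42686981), (nat_lit 27030628), (nat_lit 20024807), (nat_lit 13470738)] (nat_lit 4877605)) p14_9_3 (nat_lit 4) (nat_lit 72) (nat_lit 73) = true := by decide +kernel
def p14_9_3_73 : pfC (piC [(nat_lit 42686981), (nat_lit 27030628), (nat_lit 20024807), (nat_lit 13470738)] (nat_lit 4877605)) p14_9_3 (nat_lit 4) (nat_lit 73) (nat_lit 74) = true := by decide +kernel
def p14_9_3_74 : pfC (piC [(nat_lit 42686981), (nat_lit 27030628), (nat_lit 20024807), (nat_lit 13470738)] (nat_lit 4877605)) p14_9_3 (nat_lit 4) (nat_lit 74) (nat_lit 75) = true := by decide +kernel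
def p14_9_3_75 : pfC (piC [(nat_lit 42686981), (nat_lit 27030628), (nat_lit 20024807), (nat_lit 13470738)] (nat_lit 4877605)) p14_9_3 (nat_lit 4) (nat_lit 75) (nat_lit 76) = true := by decide +kernel
def p14_9_3_76 : pfC (piC [(nat_lit 42686981), (nat_lit 27030628), (nat_lit 20024807), (nat_lit 13470738)] (nat_lit 4877605)) p14_9_3 (nat_lit 4) (nat_lit 76) (nat_lit 77) = true := by decide +kernel
def p14_9_3_77 : pfC (piC [(nat_lit 42686981), (nat_lit 27030628), (nat_lit 20024807), (nat_lit 13470738)] (nat_lit 4877605)) p14_9_3 (nat_lit 4) (nat_lit 77) (nat_lit 78) = true := by decide +kernel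
def p14_9_3_78 : pfC (piC [(nat_lit 42686981), (nat_lit 27030628), (nat_lit 20024807), (nat_lit 13470738)] (nat_lit 4877605)) p14_9_3 (nat_lit 4) (nat_lit 78) (nat_lit 79) = true := by decide +kernel
def p14_9_3_79 : pfC (piC [(nat_lit 42686981), (nat_lit 27030628), (nat_lit 20024807), (nat_lit 13470738)] (nat_lit 4877605)) p14_9_3 (nat_lit 4) (nat_lit 79) (nat_lit 80) = true := by decide +kernel
def p14_9_3_80 : pfC (piC [(nat_lit 42686981), (nat_lit 27030628), (nat_lit 20024807), (nat_lit 13470738)] (nat_lit 4877605)) p14_9_3 (nat_lit 4) (nat_lit 80) (nat_lit 81) = true := by decide +kernel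
def p14_9_3_81 : pfC (piC [(nat_lit 42686981), (nat_lit 27030628), (nat_lit 20024807), (nat_lit 13470738)] (nat_lit 4877605)) p14_9_3 (nat_lit 4) (nat_lit 81) (nat_lit 82) = true := by decide +kernel
def p14_9_3_82 : pfC (piC [(nat_lit 42686981), (nat_lit 27030628), (nat_lit 20024807), (nat_lit 13470738)] (nat_lit 4877605)) p14_9_3 (nat_lit 4) (nat_lit 82) (nat_lit 83) = true := by decide +kernel
def p14_9_3_83 : pfC (piC [(nat_lit 42686981), (nat_lit 27030628), (nat_lit 20024807), (nat_lit 13470738)] (nat_lit 4877605)) p14_9_3 (nat_lit 4) (nat_lit 83) (nat_lit 84) = true := by decide +kernel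
def p14_9_3_84 : pfC (piC [(nat_lit 42686981), (nat_lit 27030628), (nat_lit 20024807), (nat_lit 13470738)] (nat_lit 4877605)) p14_9_3 (nat_lit 4) (nat_lit 84) (nat_lit 85) = true := by decide +kernel
def p14_9_3_85 : pfC (piC [(nat_lit 42686981), (nat_lit 27030628), (nat_lit 20024807), (nat_lit 13470738)] (nat_lit 4877605)) p14_9_3 (nat_lit 4) (nat_lit 85) (nat_lit 86) = true := by decide +kernel
def p14_9_3_86 : pfC (piC [(nat_lit 42686981), (nat_lit 27030628), (nat_lit 20024807), (nat_lit 13470738)] (nat_lit 4877605)) p14_9_3 (nat_lit 4) (nat_lit 86) (nat_lit 87) = true := by decide +kernel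
def p14_9_3_87 : pfC (piC [(nat_lit 42686981), (nat_lit 27030628), (nat_lit 20024807), (nat_lit 13470738)] (nat_lit 4877605)) p14_9_3 (nat_lit 4) (nat_lit 87) (nat_lit 88) = true := by decide +kernel
def p14_9_3_88 : pfC (piC [(nat_lit 42686981), (nat_lit 27030628), (nat_lit 20024807), (nat_lit 13470738)] (nat_lit 4877605)) p14_9_3 (nat_lit 4) (nat_lit 88) (nat_lit 89) = true := by decide +kernel
def p14_9_3_89 : pfC (piC [(nat_lit 42686981), (nat_lit 27030628), (nat_lit 20024807), (nat_lit 13470738)] (nat_lit 4877605)) p14_9_3 (nat_lit 4) (nat_lit 89) (nat_lit 90) = true := by decide +kernel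
def p14_9_3_90 : pfC (piC [(nat_lit 42686981), (nat_lit 27030628), (nat_lit 20024807), (nat_lit 13470738)] (nat_lit 4877605)) p14_9_3 (nat_lit 4) (nat_lit 90) (nat_lit 91) = true := by decide +kernel
def p14_9_3_91 : pfC (piC [(nat_lit 42686981), (nat_lit 27030628), (nat_lit 20024807), (nat_lit 13470738)] (nat_lit 4877605)) p14_9_3 (nat_lit 4) (nat_lit 91) (nat_lit 92) = true := by decide +kernel
def p14_9_3_92 : pfC (piC [(nat_lit 42686981), (nat_lit 27030628), (nat_lit 20024807), (nat_lit 13470738)] (nat_lit 4877605)) p14_9_3 (nat_lit 4) (nat_lit 92) (nat_lit 93) = true := by decide +kernel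
def p14_9_3_93 : pfC (piC [(nat_lit 42686981), (nat_lit 27030628), (nat_lit 20024807), (nat_lit 13470738)] (nat_lit 4877605)) p14_9_3 (nat_lit 4) (nat_lit 93) (nat_lit 94) = true := by decide +kernel
def p14_9_3_94 : pfC (piC [(nat_lit 42686981), (nat_lit 27030628), (nat_lit 20024807), (nat_lit 13470738)] (nat_lit 4877605)) p14_9_3 (nat_lit 4) (nat_lit 94) (nat_lit 95) = true := by decide +kernel
def p14_9_3_95 : pfC (piC [(nat_lit 42686981), (nat_lit 27030628), (nat_lit 20024807), (nat_lit 13470738)] (nat_lit 4877605)) p14_9_3 (nat_lit 4) (nat_lit 95) (nat_lit 96) = true := by decide +kernel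
def p14_9_3_96 : pfC (piC [(nat_lit 42686981), (nat_lit 27030628), (nat_lit 20024807), (nat_lit 13470738)] (nat_lit 4877605)) p14_9_3 (nat_lit 4) (nat_lit 96) (nat_lit 97) = true := by decide +kernel
def p14_9_3_97 : pfC (piC [(nat_lit 42686981), (nat_lit 27030628), (nat_lit 20024807), (nat_lit 13470738)] (nat_lit 4877605)) p14_9_3 (nat_lit 4) (nat_lit 97) (nat_lit 98) = true := by decide +kernel
def p14_9_3_98 : pfC (piC [(nat_lit 42686981), (nat_lit 27030628), (nat_lit 20024807), (nat_lit 13470738)] (nat_lit 4877605)) p14_9_3 (nat_lit 4) (nat_lit 98) (nat_lit 99) = true := by decide +kernel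
theorem p14_9_3_T : PfS (PiF n14_9.reverse (nat_lit 4877605)) p14_9_3 (nat_lit 4) [] 0 :=
  pftab_of (los := [(nat_lit 42686981), (nat_lit 27030628), (nat_lit 20024807), (nat_lit 13470738)]) (by decide +kernel) (hi := (nat_lit 99)) (PfP.trans (PfP.trans (PfP.trans (PfP.trans (PfP.trans (PfP.trans (PfP.trans (PfP.trans (PfP.trans (PfP.trans (PfP.trans (PfP.trans (PfP.trans (PfP.trans (PfP.trans (PfP.trans (PfP.trans (PfP.trans (PfP.trans (PfP.trans (PfP.trans (PfP.trans (PfP.trans (PfP.trans (PfP.trans (PfP.trans (PfP.trans (PfP.trans (PfP.trans (PfP.trans (PfP.trans (PfP.trans (PfP.trans (PfP.trans (PfP.trans (PfP.trans (PfP.trans (PfP.trans (PfP.trans (PfP.trans (PfP.trans (PfP.trans (PfP.trans (PfP.trans (PfP.trans (PfP.trans (PfP.trans (PfP.trans (PfP.trans (PfP.trans (PfP.trans (PfP.trans (PfP.trans (PfP.trans (PfP.trans (PfP.trans (PfP.trans (PfP.trans (PfP.trans (PfP.trans (PfP.trans (PfP.trans (PfP.trans (PfP.trans (PfP.trans (PfP.trans (PfP.trans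 (PfP.trans (PfP.trans (PfP.trans (PfP.trans (PfP.trans (PfP.trans (PfP.trans (PfP.trans (PfP.trans (PfP.trans (PfP.trans (PfP.trans (PfP.trans (PfP.trans (PfP.trans (PfP.trans (PfP.trans (PfP.trans (PfP.trans (PfP.trans (PfP.trans (PfP.trans (PfP.trans (PfP.trans (PfP.trans (PfP.trans (PfP.trans (PfP.trans (PfP.trans (PfP.trans (PfP.trans (pfC_sound p14_9_3_0) (pfC_sound p14_9_3_1)) (pfC_sound p14_9_3_2)) (pfC_sound p14_9_3_3)) (pfC_sound p14_9_3_4))
 (pfC_sound p14_9_3_5)) (pfC_sound p14_9_3_6)) (pfC_sound p14_9_3_7)) (pfC_sound p14_9_3_8)) (pfC_sound p14_9_3_9)) (pfC_sound p14_9_3_10)) (pfC_sound p14_9_3_11)) (pfC_sound p14_9_3_12)) (pfC_sound p14_9_3_13)) (pfC_sound p14_9_3_14)) (pfC_sound p14_9_3_15)) (pfC_sound p14_9_3_16)) (pfC_sound p14_9_3_17)) (pfC_sound p14_9_3_18)) (pfC_sound p14_9_3_19)) (pfC_sound p14_9_3_20)) (pfC_sound p14_9_3_21)) (pfC_sound p14_9_3_22)) (pfC_sound p14_9_3_23)) (pfC_sound p14_9_3_24)) (pfC_sound p14_9_3_25)) (pfC_sound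 p14_9_3_26)) (pfC_sound p14_9_3_27)) (pfC_sound p14_9_3_28)) (pfC_sound p14_9_3_29)) (pfC_sound p14_9_3_30)) (pfC_sound p14_9_3_31)) (pfC_sound p14_9_3_32)) (pfC_sound p14_9_3_33)) (pfC_sound p14_9_3_34)) (pfC_sound p14_9_3_35)) (pfC_sound p14_9_3_36)) (pfC_sound p14_9_3_37)) (pfC_sound p14_9_3_38)) (pfC_sound p14_9_3_39)) (pfC_sound p14_9_3_40)) (pfC_sound p14_9_3_41)) (pfC_sound p14_9_3_42)) (pfC_sound p14_9_3_43)) (pfC_sound p14_9_3_44)) (pfC_sound p14_9_3_45)) (pfC_sound p14_9_3_46)) (pfC_sound p14_9_3_47)) (pfC_sound p14_9_3_48)) (pfC_sound p14_9_3_49)) (pfC_sound p14_9_3_50)) (pfC_sound p14_9_3_51)) (pfC_sound p14_9_3_52)) (pfC_sound p14_9_3_53)) (pfC_sound p14_9_3_54))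
 (pfC_sound p14_9_3_55)) (pfC_sound p14_9_3_56)) (pfC_sound p14_9_3_57)) (pfC_sound p14_9_3_58)) (pfC_sound p14_9_3_59)) (pfC_sound p14_9_3_60)) (pfC_sound p14_9_3_61)) (pfC_sound p14_9_3_62)) (pfC_sound p14_9_3_63)) (pfC_sound p14_9_3_64)) (pfC_sound p14_9_3_65)) (pfC_sound p14_9_3_66)) (pfC_sound p14_9_3_67)) (pfC_sound p14_9_3_68)) (pfC_sound p14_9_3_69)) (pfC_sound p14_9_3_70)) (pfC_sound p14_9_3_71)) (pfC_sound p14_9_3_72)) (pfC_sound p14_9_3_73)) (pfC_sound p14_9_3_74)) (pfC_sound p14_9_3_75)) (pfC_sound p14_9_3_76)) (pfC_sound p14_9_3_77)) (pfC_sound p14_9_3_78)) (pfC_sound p14_9_3_79)) (pfC_sound p14_9_3_80)) (pfC_sound p14_9_3_81)) (pfC_sound p14_9_3_82)) (pfC_sound p14_9_3_83)) (pfC_sound p14_9_3_84)) (pfC_sound p14_9_3_85)) (pfC_sound p14_9_3_86)) (pfC_sound p14_9_3_87)) (pfC_sound p14_9_3_88)) (pfC_sound p14_9_3_89)) (pfC_sound p14_9_3_90)) (pfC_sound p14_9_3_91)) (pfC_sound p14_9_3_92)) (pfC_sound p14_9_3_93)) (pfC_sound p14_9_3_94)) (pfC_sound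 p14_9_3_95)) (pfC_sound p14_9_3_96)) (pfC_sound p14_9_3_97)) (pfC_sound p14_9_3_98)) (by decide +kernel)

def z14_9_3 : zOK yB14_9 (nat_lit 3) (nat_lit 750) (nat_lit 896) (nat_lit 4877605) (nat_lit 3271163) = true := by decide +kernel
def g14_9_3 : gOK yB14_9.x P14_9 (nat_lit 1432) (q14_9 :: r14_9) (nat_lit 3) (nat_lit 750) (nat_lit 4) (nat_lit 896) (nat_lit 12712500) (nat_lit 12712500) (nat_lit 12712500) (nat_lit 12712500) [(nat_lit 800)] = true := by decide +kernel
def v14_9_3 : ivC P14_9 s14_9 w14_9 n14_9 (nat_lit 4) (nat_lit 4730) (nat_lit 3) (nat_lit 750) f144_1_750 f152_1_750 (nat_lit 4) (nat_lit 896) f144_1_896 f152_1_896 (nat_lit 4877605) (nat_lit 3271163) p14_9_3 = true := by decide +kernel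
end CB
end Pool.Agent.Lib.MP_6947cd_al
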