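import Pool.Agent.Lib.MP_6947cd_al.L.BoxDataB
import Pool.Agent.Lib.MP_6947cd_al.L.TeD3
import Pool.Agent.Lib.MP_6947cd_al.L.TeD4
import Pool.Agent.Lib.MP_6947cd_al.L.TeD5

/-!
Problem MP_6947cd_al (Chollet).  CASE B, rows `j`: boxes (generated).
-/

set_option autoImplicit false
set_option linter.defProp false
set_option maxRecDepth 20000

namespace Pool.Agent.Lib.MP_6947cd_al
namespace CB

open Ent Ent.Pk Fr Fr.WT CA

/-! box `yB12_12` -/

def P12_12 : BQ := ⟨(nat_lit 8), (nat_lit 4), (nat_lit 4), (nat_lit 0), (nat_lit 8), (nat_lit 780), (nat_lit 800), (nat_lit 120), [(nat_lit 200), (nat_lit 300), (nat_lit 450), (nat_lit 800)], (nat_lit 103648000), (nat_lit 16000000), (nat_lit 16000000000)⟩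
def q12_12 : PC := ⟨(nat_lit 1000), [(nat_lit 120000), (nat_lit 200000), (nat_lit 300000), (nat_lit 450000), (nat_lit 800000)], (nat_lit 340282367000166625996085689103316680705000000), (nat_lit 15896352000000), (nat_lit 15896352000000), (nat_lit 10000000)⟩
def r12_12 : List PC := [⟨(nat_lit 1327), [(nat_lit 120665), (nat_lit 201096), (nat_lit 301495), (nat_lit 451738), (nat_lit 801754)], (nat_lit 341928312809443486465102568182535230776626047), (nat_lit 16339960157120), (nat_lit 16351651898240), (nat_lit 10055417)⟩]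
def s12_12 : List PB := [⟨(nat_lit 26540), (nat_lit 1930640000000), [(nat_lit 201096), (nat_lit 301495), (nat_lit 451738), (nat_lit 801754)], (nat_lit 341928312809443486465102568182535230776626047), (nat_lit 1142239866999744), (nat_lit 1142251558740864), (nat_lit 52320)⟩]
def n12_12 : List KN := [⟨(nat_lit 800), (nat_lit 450), (nat_lit 12946273), (nat_lit 5158383)⟩, ⟨(nat_lit 450), (nat_lit 300), (nat_lit 19310217), (nat_lit 12946273)⟩, ⟨(nat_lit 300), (nat_lit 200), (nat_lit 25770221), (nat_lit 19310217)⟩, ⟨(nat_lit 200), (nat_lit 120), (nat_lit 40173837), (nat_lit 25770221)⟩]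
def w12_12 : List ℕ := [(nat_lit 52320)]
def par12_12 : parC yB12_12 P12_12 s12_12 r12_12 q12_12 n12_12 w12_12 = true := by decide +kernel

def p12_12_0 : PF := (PF.cons (PF.cons (PF.cons (PF.cons (PF.leaf (nat_lit 530100) (nat_lit 1481792) (nat_lit 65627020) (nat_lit 1481792) [(nat_lit 0), (nat_lit 0), (nat_lit 0), (nat_lit 0)]) (PF.cons (PF.leaf (nat_lit 651367) (nat_lit 186202) (nat_lit 65390095) (nat_lit 1532515) [(nat_lit 186202), (nat_lit 0), (nat_lit 0), (nat_lit 0)]) (PF.cons (PF.leaf (nat_lit 801809) (nat_lit 207219) (nat_lit 65106045) (nat_lit 1588329) [(nat_lit 207219), (nat_lit 0), (nat_lit 0), (nat_lit 0)]) (PF.cons (PF.leaf (nat_lit 975236) (nat_lit 227207) (nat_lit 64780269) (nat_lit 1646922) [(nat_lit 227207), (nat_lit 0), (nat_lit 0), (nat_lit 0)]) (PF.cons (PF.leaf (nat_lit 1170221) (nat_lit 246370) (nat_lit 64416564) (nat_lit 1706768) [(nat_lit 246370), (nat_lit 0), (nat_lit 0), (nat_lit 0)]) (PF.cons (PF.leaf (nat_lit 1385128) (nat_lit 264805)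 (nat_lit 64017972) (nat_lit 1766810) [(nat_lit 264805), (nat_lit 0), (nat_lit 0), (nat_lit 0)]) (PF.cons (PF.leaf (nat_lit 1618792) (nat_lit 282562) (nat_lit 63587144) (nat_lit 1826295) [(nat_lit 282562), (nat_lit 0), (nat_lit 0), (nat_lit 0)]) (PF.cons (PF.leaf (nat_lit 1870013) (nat_lit 299661) (nat_lit 63126513) (nat_lit 1884670) [(nat_lit 299661), (nat_lit 0), (nat_lit 0),
 (nat_lit 0)]) (PF.cons (PF.leaf (nat_lit 2137642) (nat_lit 316112) (nat_lit 62638383) (nat_lit 1941530) [(nat_lit 316112), (nat_lit 0), (nat_lit 0), (nat_lit 0)]) (PF.cons PF.nil (PF.cons PF.nil (PF.cons PF.nil PF.nil)))))))))))) (PF.cons (PF.cons (PF.leaf (nat_lit 1009903) (nat_lit 982417) (nat_lit 64439447) (nat_lit 1686947) [(nat_lit 0), (nat_lit 982417), (nat_lit 0), (nat_lit 0)]) (PF.cons (PF.leaf (nat_lit 1183895) (nat_lit 244838) (nat_lit 64101156) (nat_lit 1739379) [(nat_lit 244838), (nat_lit 1023438), (nat_lit 0), (nat_lit 0)]) (PF.cons (PF.leaf (nat_lit 1382060) (nat_lit 263409)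 (nat_lit 63723141) (nat_lit 1793566) [(nat_lit 263409), (nat_lit 1065286), (nat_lit 0), (nat_lit 0)]) (PF.cons (PF.leaf (nat_lit 1600402) (nat_lit 281181) (nat_lit 63309810) (nat_lit 1848303) [(nat_lit 281181), (nat_lit 1107155), (nat_lit 0), (nat_lit 0)]) (PF.cons (PF.leaf (nat_lit 1837395) (nat_lit 298236) (nat_lit 62864588) (nat_lit 1902760) [(nat_lit 298236), (nat_lit 1148519), (nat_lit 0), (nat_lit 0)]) (PF.cons (PF.leaf (nat_lit 2091639) (nat_lit 314614) (nat_lit 62390375) (nat_lit 1956343) [(nat_lit 314614), (nat_lit 1189019), (nat_lit 0), (nat_lit 0)]) (PF.cons (PF.leaf (nat_lit 2361858)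
 (nat_lit 330337) (nat_lit 61889767) (nat_lit 2008616) [(nat_lit 330337), (nat_lit 1228400), (nat_lit 0), (nat_lit 0)]) (PF.cons (PF.leaf (nat_lit 2646846) (nat_lit 345415) (nat_lit 61365162) (nat_lit 2059259) [(nat_lit 345415), (nat_lit 1266481), (nat_lit 0), (nat_lit 0)]) (PF.cons PF.nil (PF.cons PF.nil PF.nil)))))))))) (PF.cons (PF.cons (PF.leaf (nat_lit 1601898) (nat_lit 1122182) (nat_lit 62990291) (nat_lit 1874155) [(nat_lit 0), (nat_lit 1122182), (nat_lit 0), (nat_lit 0)]) (PF.cons (PF.leaf (nat_lit 1820293) (nat_lit 296062) (nat_lit 62568277) (nat_lit 1923756) [(nat_lit 296062), (nat_lit 1160357), (nat_lit 0), (nat_lit 0)]) (PF.cons (PF.leaf (nat_lit 2058844) (nat_lit 312547) (nat_lit 62113651) (nat_lit 1973410) [(nat_lit 312547), (nat_lit 1198328), (nat_lit 0), (nat_lit 0)]) (PF.cons (PF.leaf (nat_lit 2314665) (nat_lit 328307) (nat_lit 61630134) (nat_lit 2022443) [(nat_lit 328307), (nat_lit 1235655), (nat_lit 0), (nat_lit 0)]) (PF.cons (PF.leaf (nat_lit 2586229)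 (nat_lit 343385) (nat_lit 61120811) (nat_lit 2070378) [(nat_lit 343385), (nat_lit 1272040), (nat_lit 0), (nat_lit 0)]) (PF.cons (PF.leaf (nat_lit 2872288) (nat_lit 357804) (nat_lit 60588380) (nat_lit 2116867)
 [(nat_lit 357804), (nat_lit 1307270), (nat_lit 0), (nat_lit 0)]) (PF.cons PF.nil (PF.cons PF.nil (PF.cons PF.nil PF.nil))))))))) (PF.cons (PF.cons (PF.leaf (nat_lit 2284534) (nat_lit 1244600) (nat_lit 61336215) (nat_lit 2038795) [(nat_lit 0), (nat_lit 1244600), (nat_lit 0), (nat_lit 0)]) (PF.cons (PF.leaf (nat_lit 2539446) (nat_lit 340786) (nat_lit 60847953) (nat_lit 2083445) [(nat_lit 340786), (nat_lit 1278875), (nat_lit 0), (nat_lit 0)]) (PF.cons (PF.leaf (nat_lit 2811104) (nat_lit 355304) (nat_lit 60333780) (nat_lit 2127233) [(nat_lit 355304), (nat_lit 1312396), (nat_lit 0), (nat_lit 0)]) (PF.cons (PF.leaf (nat_lit 3097099) (nat_lit 369135) (nat_lit 59796889) (nat_lit 2169771) [(nat_lit 369135), (nat_lit 1344915), (nat_lit 0), (nat_lit 0)]) (PF.cons (PF.leaf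 (nat_lit 3396052) (nat_lit 382307) (nat_lit 59240024) (nat_lit 2210782) [(nat_lit 382307), (nat_lit 1376258), (nat_lit 0), (nat_lit 0)]) (PF.cons PF.nil (PF.cons PF.nil PF.nil))))))) (PF.cons (PF.cons (PF.leaf (nat_lit 3037480) (nat_lit 1349725) (nat_lit 59530361) (nat_lit 2179551) [(nat_lit 0), (nat_lit 1349725), (nat_lit 0), (nat_lit 0)]) (PF.cons (PF.leaf (nat_lit 3321551) (nat_lit 379441) (nat_lit 58992502) (nat_lit
 2218304) [(nat_lit 379441), (nat_lit 1379641), (nat_lit 0), (nat_lit 0)]) (PF.cons (PF.leaf (nat_lit 3619216) (nat_lit 392075) (nat_lit 58434874) (nat_lit 2255714) [(nat_lit 392075), (nat_lit 1408518), (nat_lit 0), (nat_lit 0)]) (PF.cons PF.nil (PF.cons PF.nil PF.nil))))) (PF.cons (PF.cons (PF.leaf (nat_lit 3841958) (nat_lit 1438163) (nat_lit 57621259) (nat_lit 2296734) [(nat_lit 0), (nat_lit 1438163), (nat_lit 0), (nat_lit 0)]) (PF.cons (PF.leaf (nat_lit 4148360) (nat_lit 412396) (nat_lit 57049010) (nat_lit 2329309) [(nat_lit 412396), (nat_lit 1463619),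 (nat_lit 0), (nat_lit 0)]) (PF.cons PF.nil (PF.cons PF.nil PF.nil)))) (PF.cons (PF.cons (PF.leaf (nat_lit 4681216) (nat_lit 1510930) (nat_lit 55651634) (nat_lit 2391596) [(nat_lit 0), (nat_lit 1510930), (nat_lit 0), (nat_lit 0)]) (PF.cons PF.nil PF.nil)) (PF.cons PF.nil (PF.cons PF.nil PF.nil))))))))) (PF.cons (PF.cons (PF.cons (PF.leaf (nat_lit 1602352) (nat_lit 1889507) (nat_lit 62321286) (nat_lit 1889507) [(nat_lit 0), (nat_lit 0), (nat_lit 2898018), (nat_lit 0)]) (PF.cons (PF.leaf (nat_lit 1796344) (nat_lit 283316) (nat_lit 61942493) (nat_lit 1933710) [(nat_lit 283316), (nat_lit 0), (nat_lit 2949292), (nat_lit 0)]) (PF.cons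
 (PF.leaf (nat_lit 2013447) (nat_lit 301230) (nat_lit 61524967) (nat_lit 1979091) [(nat_lit 301230), (nat_lit 0), (nat_lit 3002292), (nat_lit 0)]) (PF.cons (PF.leaf (nat_lit 2249762) (nat_lit 318029) (nat_lit 61074282) (nat_lit 2024656) [(nat_lit 318029), (nat_lit 0), (nat_lit 3055784), (nat_lit 0)]) (PF.cons (PF.leaf (nat_lit 2503328) (nat_lit 333889) (nat_lit 60594634) (nat_lit 2069731) [(nat_lit 333889), (nat_lit 0), (nat_lit 3108890), (nat_lit 0)]) (PF.cons (PF.leaf (nat_lit 2772518) (nat_lit 348913) (nat_lit 60089439) (nat_lit 2113835) [(nat_lit 348913), (nat_lit 0), (nat_lit 3160970), (nat_lit 0)]) (PF.cons (PF.leaf (nat_lit 3055911) (nat_lit 363169) (nat_lit 59561624) (nat_lit 2156625) [(nat_lit 363169), (nat_lit 0), (nat_lit 3211545), (nat_lit 0)]) (PF.cons PF.nil (PF.cons PF.nil PF.nil))))))))) (PF.cons (PF.cons (PF.leaf (nat_lit 2237119) (nat_lit 1239302) (nat_lit 60744945) (nat_lit 2043184) [(nat_lit 0), (nat_lit 1239302), (nat_lit 3081380), (nat_lit 0)])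 (PF.cons (PF.leaf (nat_lit 2471216) (nat_lit 330034) (nat_lit 60292679) (nat_lit 2084394) [(nat_lit 330034), (nat_lit 1272119), (nat_lit 3129584), (nat_lit 0)]) (PF.cons (PF.leaf (nat_lit 2724065) (nat_lit 345425)
 (nat_lit 59810373) (nat_lit 2125400) [(nat_lit 345425), (nat_lit 1304520), (nat_lit 3177665), (nat_lit 0)]) (PF.cons (PF.leaf (nat_lit 2992716) (nat_lit 359928) (nat_lit 59302292) (nat_lit 2165655) [(nat_lit 359928), (nat_lit 1336156), (nat_lit 3224922), (nat_lit 0)]) (PF.cons (PF.leaf (nat_lit 3275597) (nat_lit 373634) (nat_lit 58771859) (nat_lit 2204776) [(nat_lit 373634), (nat_lit 1366792), (nat_lit 3270846), (nat_lit 0)]) (PF.cons (PF.leaf (nat_lit 3571224) (nat_lit 386602) (nat_lit 58221970) (nat_lit 2242489) [(nat_lit 386602), (nat_lit 1396272), (nat_lit 3315069), (nat_lit 0)]) (PF.cons PF.nil PF.nil))))))) (PF.cons (PF.cons (PF.leaf (nat_lit 2947836) (nat_lit 1341598) (nat_lit 59008093) (nat_lit 2176759) [(nat_lit 0), (nat_lit 1341598), (nat_lit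 3240763), (nat_lit 0)]) (PF.cons (PF.leaf (nat_lit 3213824) (nat_lit 369870) (nat_lit 58501130) (nat_lit 2213288) [(nat_lit 369870), (nat_lit 1370594), (nat_lit 3283333), (nat_lit 0)]) (PF.cons (PF.leaf (nat_lit 3494960) (nat_lit 383109) (nat_lit 57971394) (nat_lit 2248889) [(nat_lit 383109), (nat_lit 1398762), (nat_lit 3324784), (nat_lit 0)]) (PF.cons (PF.leaf (nat_lit 3788940) (nat_lit 395579) (nat_lit 57422283) (nat_lit 2283253)
 [(nat_lit 395579), (nat_lit 1425909), (nat_lit 3364717), (nat_lit 0)]) (PF.cons (PF.leaf (nat_lit 4094293) (nat_lit 407337) (nat_lit 56856636) (nat_lit 2316166) [(nat_lit 407337), (nat_lit 1451907), (nat_lit 3402844), (nat_lit 0)]) PF.nil))))) (PF.cons (PF.cons (PF.leaf (nat_lit 3715098) (nat_lit 1428195) (nat_lit 57161292) (nat_lit 2289237) [(nat_lit 0), (nat_lit 1428195), (nat_lit 3373696), (nat_lit 0)]) (PF.cons (PF.leaf (nat_lit 4005757) (nat_lit 403656) (nat_lit 56615935) (nat_lit 2320392) [(nat_lit 403656), (nat_lit 1453102), (nat_lit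 3409519), (nat_lit 0)]) (PF.cons (PF.leaf (nat_lit 4308501) (nat_lit 414963) (nat_lit 56053953) (nat_lit 2350258) [(nat_lit 414963), (nat_lit 1476983), (nat_lit 3443721), (nat_lit 0)]) (PF.cons PF.nil PF.nil)))) (PF.cons (PF.cons (PF.leaf (nat_lit 4521848) (nat_lit 1499866) (nat_lit 55248014) (nat_lit 2381097) [(nat_lit 0), (nat_lit 1499866), (nat_lit 3480236), (nat_lit 0)]) (PF.cons (PF.leaf (nat_lit 4830823) (nat_lit 431981) (nat_lit 54678249) (nat_lit 2406744) [(nat_lit 431981), (nat_lit 1520701), (nat_lit 3509032), (nat_lit 0)]) PF.nil)) (PF.cons PF.nil (PF.cons PF.nil (PF.cons PF.nil PF.nil)))))))) (PF.cons (PF.cons (PF.cons (PF.leaf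
 (nat_lit 2875610) (nat_lit 2174185) (nat_lit 58444000) (nat_lit 2174185) [(nat_lit 0), (nat_lit 0), (nat_lit 3245313), (nat_lit 0)]) (PF.cons (PF.leaf (nat_lit 3120943) (nat_lit 357903) (nat_lit 57974720) (nat_lit 2208239) [(nat_lit 357903), (nat_lit 0), (nat_lit 3283974), (nat_lit 0)]) (PF.cons (PF.leaf (nat_lit 3383771) (nat_lit 372220) (nat_lit 57478026) (nat_lit 2241885) [(nat_lit 372220), (nat_lit 0), (nat_lit 3322229), (nat_lit 0)]) (PF.cons (PF.leaf (nat_lit 3661085) (nat_lit 385529) (nat_lit 56958501) (nat_lit 2274682) [(nat_lit 385529), (nat_lit 0), (nat_lit 3359519), (nat_lit 0)]) (PF.cons (PF.leaf (nat_lit 3951129) (nat_lit 397960) (nat_lit 56419740) (nat_lit 2306329) [(nat_lit 397960), (nat_lit 0), (nat_lit 3395450), (nat_lit 0)]) (PF.cons (PF.leaf (nat_lit 4252445) (nat_lit 409600) (nat_lit 55864714) (nat_lit 2336615) [(nat_lit 409600), (nat_lit 0), (nat_lit 3429739), (nat_lit 0)]) (PF.cons PF.nil PF.nil))))))) (PF.cons (PF.cons (PF.leaf (nat_lit 3602747)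 (nat_lit 1417288) (nat_lit 56670187) (nat_lit 2281709) [(nat_lit 0), (nat_lit 1417288), (nat_lit 3369813), (nat_lit 0)]) (PF.cons (PF.leaf (nat_lit 3875953) (nat_lit 393304) (nat_lit 56156241) (nat_lit 2311320)
 [(nat_lit 393304), (nat_lit 1441690), (nat_lit 3403127), (nat_lit 0)]) (PF.cons (PF.leaf (nat_lit 4162931) (nat_lit 405354) (nat_lit 55622371) (nat_lit 2339964) [(nat_lit 405354), (nat_lit 1465219), (nat_lit 3435273), (nat_lit 0)]) (PF.cons (PF.leaf (nat_lit 4461362) (nat_lit 416579) (nat_lit 55072051) (nat_lit 2367402) [(nat_lit 416579), (nat_lit 1487732), (nat_lit 3465943), (nat_lit 0)]) (PF.cons PF.nil PF.nil))))) (PF.cons (PF.cons (PF.leaf (nat_lit 4374995) (nat_lit 1488065) (nat_lit 54820439) (nat_lit 2370445) [(nat_lit 0), (nat_lit 1488065), (nat_lit 3470897), (nat_lit 0)]) (PF.cons (PF.leaf (nat_lit 4669070) (nat_lit 422762) (nat_lit 54277352) (nat_lit 2395160) [(nat_lit 422762), (nat_lit 1508652), (nat_lit 3498115), (nat_lit 0)]) (PF.cons (PF.leaf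 (nat_lit 4973926) (nat_lit 432873) (nat_lit 53720324) (nat_lit 2418649) [(nat_lit 432873), (nat_lit 1528242), (nat_lit 3523804), (nat_lit 0)]) (PF.cons PF.nil PF.nil)))) (PF.cons (PF.cons (PF.leaf (nat_lit 5176959) (nat_lit 1545501) (nat_lit 52933058) (nat_lit 2441115) [(nat_lit 0), (nat_lit 1545501), (nat_lit 3549067), (nat_lit 0)]) (PF.cons (PF.leaf (nat_lit 5486043) (nat_lit 447037) (nat_lit 52373486) (nat_lit 2460930)
 [(nat_lit 447037), (nat_lit 1562387), (nat_lit 3570098), (nat_lit 0)]) PF.nil)) (PF.cons PF.nil (PF.cons PF.nil PF.nil)))))) (PF.cons (PF.cons (PF.cons (PF.leaf (nat_lit 4243042) (nat_lit 2359635) (nat_lit 54363399) (nat_lit 2359635) [(nat_lit 0), (nat_lit 0), (nat_lit 3461925), (nat_lit 0)]) (PF.cons (PF.leaf (nat_lit 4520396) (nat_lit 411941) (nat_lit 53851351) (nat_lit 2383325) [(nat_lit 411941), (nat_lit 0), (nat_lit 3487398), (nat_lit 0)]) (PF.cons (PF.leaf (nat_lit 4810328) (nat_lit 422893) (nat_lit 53321906) (nat_lit 2406040) [(nat_lit 422893),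 (nat_lit 0), (nat_lit 3511692), (nat_lit 0)]) (PF.cons (PF.leaf (nat_lit 5110524) (nat_lit 432987) (nat_lit 52778522) (nat_lit 2427596) [(nat_lit 432987), (nat_lit 0), (nat_lit 3534577), (nat_lit 0)]) (PF.cons PF.nil PF.nil))))) (PF.cons (PF.cons (PF.leaf (nat_lit 5013208) (nat_lit 1532546) (nat_lit 52538671) (nat_lit 2428358) [(nat_lit 0), (nat_lit 1532546), (nat_lit 3536412), (nat_lit 0)]) (PF.cons (PF.leaf (nat_lit 5308269) (nat_lit 437563) (nat_lit 52004989) (nat_lit 2447613) [(nat_lit 437563), (nat_lit 1549410), (nat_lit 3556411), (nat_lit 0)]) (PF.cons (PF.leaf (nat_lit 5612982) (nat_lit 446599) (nat_lit 51459621) (nat_lit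
 2465716) [(nat_lit 446599), (nat_lit 1565317), (nat_lit 3574985), (nat_lit 0)]) (PF.cons PF.nil PF.nil)))) (PF.cons (PF.cons (PF.leaf (nat_lit 5805268) (nat_lit 1577905) (nat_lit 50698471) (nat_lit 2481296) [(nat_lit 0), (nat_lit 1577905), (nat_lit 3591077), (nat_lit 0)]) (PF.cons PF.nil PF.nil)) (PF.cons PF.nil (PF.cons PF.nil PF.nil))))) (PF.cons (PF.cons (PF.cons (PF.leaf (nat_lit 5627405) (nat_lit 2467206) (nat_lit 50336688) (nat_lit 2467206) [(nat_lit 0), (nat_lit 0), (nat_lit 3576229), (nat_lit 0)]) (PF.cons (PF.leaf (nat_lit 5921569) (nat_lit 448741) (nat_lit 49817443) (nat_lit 2481846) [(nat_lit 448741), (nat_lit 0), (nat_lit 3590195), (nat_lit 0)]) (PF.cons PF.nil (PF.cons PF.nil PF.nil)))) (PF.cons (PF.cons (PF.leaf (nat_lit 6405956) (nat_lit 1599436) (nat_lit 48558081) (nat_lit 2505346) [(nat_lit 0), (nat_lit 1599436), (nat_lit 3611487), (nat_lit 0)]) (PF.cons PF.nil PF.nil)) (PF.cons PF.nil PF.nil))) (PF.cons (PF.cons (PF.cons (PF.leaf (nat_lit 6979083)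 (nat_lit 2516328) (nat_lit 46519584) (nat_lit 2516328) [(nat_lit 0), (nat_lit 0), (nat_lit 3614580), (nat_lit 0)]) (PF.cons PF.nil PF.nil)) (PF.cons PF.nil PF.nil)) (PF.cons PF.nil (PF.cons PF.nil PF.nil))))))))
 (PF.cons (PF.cons (PF.cons (PF.cons (PF.leaf (nat_lit 2848747) (nat_lit 2101950) (nat_lit 55437433) (nat_lit 2101950) [(nat_lit 0), (nat_lit 0), (nat_lit 0), (nat_lit 9569429)]) (PF.cons (PF.leaf (nat_lit 3052702) (nat_lit 321006) (nat_lit 55065884) (nat_lit 2134279) [(nat_lit 321006), (nat_lit 0), (nat_lit 0), (nat_lit 9587642)]) (PF.cons (PF.leaf (nat_lit 3277949) (nat_lit 338052) (nat_lit 54660612) (nat_lit 2166826) [(nat_lit 338052), (nat_lit 0), (nat_lit 0), (nat_lit 9605269)]) (PF.cons (PF.leaf (nat_lit 3520414) (nat_lit 353533) (nat_lit 54227712) (nat_lit 2198889) [(nat_lit 353533), (nat_lit 0), (nat_lit 0), (nat_lit 9621611)]) (PF.cons (PF.leaf (nat_lit 3777771) (nat_lit 367733) (nat_lit 53771707) (nat_lit 2230026) [(nat_lit 367733), (nat_lit 0),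 (nat_lit 0), (nat_lit 9636143)]) (PF.cons (PF.leaf (nat_lit 4048271) (nat_lit 380843) (nat_lit 53296177) (nat_lit 2259951) [(nat_lit 380843), (nat_lit 0), (nat_lit 0), (nat_lit 9648469)]) (PF.cons (PF.leaf (nat_lit 4330285) (nat_lit 392993) (nat_lit 52804087) (nat_lit 2288476) [(nat_lit 392993), (nat_lit 0), (nat_lit 0), (nat_lit 9658285)]) (PF.cons (PF.leaf (nat_lit 4622604) (nat_lit 404285) (nat_lit 52297966) (nat_lit 2315479)
 [(nat_lit 404285), (nat_lit 0), (nat_lit 0), (nat_lit 9665370)]) (PF.cons (PF.leaf (nat_lit 4923956) (nat_lit 414792) (nat_lit 51780021) (nat_lit 2340887) [(nat_lit 414792), (nat_lit 0), (nat_lit 0), (nat_lit 9669564)]) (PF.cons PF.nil PF.nil)))))))))) (PF.cons (PF.cons (PF.leaf (nat_lit 3486983) (nat_lit 1352740) (nat_lit 53923244) (nat_lit 2207424) [(nat_lit 0), (nat_lit 1352740), (nat_lit 0), (nat_lit 9625403)]) (PF.cons (PF.leaf (nat_lit 3724637) (nat_lit 361704) (nat_lit 53495742) (nat_lit 2235964) [(nat_lit 361704), (nat_lit 1377948),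 (nat_lit 0), (nat_lit 9637452)]) (PF.cons (PF.leaf (nat_lit 3978734) (nat_lit 375480) (nat_lit 53043928) (nat_lit 2263873) [(nat_lit 375480), (nat_lit 1402339), (nat_lit 0), (nat_lit 9647710)]) (PF.cons (PF.leaf (nat_lit 4246379) (nat_lit 388129) (nat_lit 52572126) (nat_lit 2290802) [(nat_lit 388129), (nat_lit 1425704), (nat_lit 0), (nat_lit 9655790)]) (PF.cons (PF.leaf (nat_lit 4525745) (nat_lit 399807) (nat_lit 52083720) (nat_lit 2316525) [(nat_lit 399807), (nat_lit 1447923), (nat_lit 0), (nat_lit 9661412)]) (PF.cons (PF.leaf (nat_lit 4815427) (nat_lit 410625) (nat_lit 51581482) (nat_lit 2340896) [(nat_lit 410625), (nat_lit 1468931), (nat_lit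
 0), (nat_lit 9664374)]) (PF.cons (PF.leaf (nat_lit 5114127) (nat_lit 420665) (nat_lit 51067758) (nat_lit 2363822) [(nat_lit 420665), (nat_lit 1488700), (nat_lit 0), (nat_lit 9664535)]) (PF.cons PF.nil (PF.cons PF.nil PF.nil))))))))) (PF.cons (PF.cons (PF.leaf (nat_lit 4181451) (nat_lit 1426213) (nat_lit 52308722) (nat_lit 2294496) [(nat_lit 0), (nat_lit 1426213), (nat_lit 0), (nat_lit 9653167)]) (PF.cons (PF.leaf (nat_lit 4444432) (nat_lit 394492) (nat_lit 51843646) (nat_lit 2318594) [(nat_lit 394492), (nat_lit 1447423), (nat_lit 0), (nat_lit 9657232)]) (PF.cons (PF.leaf (nat_lit 4720238) (nat_lit 405796) (nat_lit 51361296) (nat_lit 2341682) [(nat_lit 405796), (nat_lit 1467668), (nat_lit 0), (nat_lit 9658903)]) (PF.cons (PF.leaf (nat_lit 5006585) (nat_lit 416219) (nat_lit 50864880) (nat_lit 2363583) [(nat_lit 416219), (nat_lit 1486848), (nat_lit 0), (nat_lit 9657995)]) (PF.cons (PF.leaf (nat_lit 5302066) (nat_lit 425856) (nat_lit 50356996) (nat_lit 2384183) [(nat_lit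 425856), (nat_lit 1504910), (nat_lit 0), (nat_lit 9654384)]) (PF.cons (PF.leaf (nat_lit 5605519) (nat_lit 434782) (nat_lit 49839825) (nat_lit 2403416) [(nat_lit 434782), (nat_lit 1521830), (nat_lit 0), (nat_lit
 9647996)]) (PF.cons PF.nil PF.nil))))))) (PF.cons (PF.cons (PF.leaf (nat_lit 4914926) (nat_lit 1485525) (nat_lit 50637086) (nat_lit 2364165) [(nat_lit 0), (nat_lit 1485525), (nat_lit 0), (nat_lit 9650984)]) (PF.cons (PF.leaf (nat_lit 5196608) (nat_lit 421084) (nat_lit 50148570) (nat_lit 2383737) [(nat_lit 421084), (nat_lit 1502979), (nat_lit 0), (nat_lit 9646481)]) (PF.cons (PF.leaf (nat_lit 5488246) (nat_lit 430386) (nat_lit 49648203) (nat_lit 2402152) [(nat_lit 430386), (nat_lit 1519437), (nat_lit 0), (nat_lit 9639371)]) (PF.cons (PF.leaf (nat_lit 5787987) (nat_lit 438966) (nat_lit 49138426) (nat_lit 2419326) [(nat_lit 438966), (nat_lit 1534856), (nat_lit 0), (nat_lit 9629593)]) (PF.cons (PF.leaf (nat_lit 6094691) (nat_lit 446889) (nat_lit 48621263) (nat_lit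 2435209) [(nat_lit 446889), (nat_lit 1549219), (nat_lit 0), (nat_lit 9617126)]) PF.nil))))) (PF.cons (PF.cons (PF.leaf (nat_lit 5673569) (nat_lit 1532400) (nat_lit 48941584) (nat_lit 2417892) [(nat_lit 0), (nat_lit 1532400), (nat_lit 0), (nat_lit 9619733)]) (PF.cons (PF.leaf (nat_lit 5968571) (nat_lit 442561) (nat_lit 48440656) (nat_lit 2433130) [(nat_lit 442561), (nat_lit 1546404), (nat_lit 0), (nat_lit 9606846)]) (PF.cons
 (PF.leaf (nat_lit 6271175) (nat_lit 450184) (nat_lit 47932103) (nat_lit 2447190) [(nat_lit 450184), (nat_lit 1559441), (nat_lit 0), (nat_lit 9591382)]) (PF.cons PF.nil PF.nil)))) (PF.cons (PF.cons (PF.leaf (nat_lit 6446168) (nat_lit 1568364) (nat_lit 47247876) (nat_lit 2457315) [(nat_lit 0), (nat_lit 1568364), (nat_lit 0), (nat_lit 9561796)]) (PF.cons (PF.leaf (nat_lit 6750069) (nat_lit 459709) (nat_lit 46743123) (nat_lit 2468552) [(nat_lit 459709), (nat_lit 1579253), (nat_lit 0), (nat_lit 9541160)]) PF.nil)) (PF.cons PF.nil (PF.cons PF.nil PF.nil))))))))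 (PF.cons (PF.cons (PF.cons (PF.leaf (nat_lit 4075092) (nat_lit 2281103) (nat_lit 51826373) (nat_lit 2281103) [(nat_lit 0), (nat_lit 0), (nat_lit 3371006), (nat_lit 9630329)]) (PF.cons (PF.leaf (nat_lit 4318610) (nat_lit 380342) (nat_lit 51397483) (nat_lit 2304237) [(nat_lit 380342), (nat_lit 0), (nat_lit 3394238), (nat_lit 9632511)]) (PF.cons (PF.leaf (nat_lit 4577492) (nat_lit 393070) (nat_lit 50946581) (nat_lit 2326682) [(nat_lit 393070), (nat_lit 0), (nat_lit 3416773), (nat_lit 9632635)]) (PF.cons (PF.leaf (nat_lit 4848819) (nat_lit 404623) (nat_lit 50478032) (nat_lit 2348164) [(nat_lit 404623), (nat_lit 0), (nat_lit 3438275),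
 (nat_lit 9630470)]) (PF.cons (PF.leaf (nat_lit 5130740) (nat_lit 415183) (nat_lit 49995192) (nat_lit 2368509) [(nat_lit 415183), (nat_lit 0), (nat_lit 3458519), (nat_lit 9625858)]) (PF.cons (PF.leaf (nat_lit 5421829) (nat_lit 424878) (nat_lit 49500762) (nat_lit 2387607) [(nat_lit 424878), (nat_lit 0), (nat_lit 3477355), (nat_lit 9618695)]) (PF.cons (PF.leaf (nat_lit 5720859) (nat_lit 433803) (nat_lit 48996990) (nat_lit 2405395) [(nat_lit 433803), (nat_lit 0), (nat_lit 3494684), (nat_lit 9608920)]) (PF.cons PF.nil (PF.cons PF.nil PF.nil))))))))) (PF.cons (PF.cons (PF.leaf (nat_lit 4773394) (nat_lit 1469868) (nat_lit 50226193) (nat_lit 2349390) [(nat_lit 0), (nat_lit 1469868), (nat_lit 3440613), (nat_lit 9622747)]) (PF.cons (PF.leaf (nat_lit 5039218) (nat_lit 409357) (nat_lit 49766755) (nat_lit 2368503) [(nat_lit 409357), (nat_lit 1487543), (nat_lit 3459353), (nat_lit 9617300)]) (PF.cons (PF.leaf (nat_lit 5316843) (nat_lit 419635) (nat_lit 49292162) (nat_lit 2386644)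 [(nat_lit 419635), (nat_lit 1504281), (nat_lit 3476990), (nat_lit 9609464)]) (PF.cons (PF.leaf (nat_lit 5603962) (nat_lit 429019) (nat_lit 48805553) (nat_lit 2403677) [(nat_lit 429019), (nat_lit 1520014), (nat_lit
 3493354), (nat_lit 9599153)]) (PF.cons (PF.leaf (nat_lit 5899212) (nat_lit 437620) (nat_lit 48309435) (nat_lit 2419522) [(nat_lit 437620), (nat_lit 1534710), (nat_lit 3508336), (nat_lit 9586324)]) (PF.cons (PF.leaf (nat_lit 6201433) (nat_lit 445522) (nat_lit 47805876) (nat_lit 2434131) [(nat_lit 445522), (nat_lit 1548359), (nat_lit 3521868), (nat_lit 9570963)]) (PF.cons PF.nil PF.nil))))))) (PF.cons (PF.cons (PF.leaf (nat_lit 5503035) (nat_lit 1517571) (nat_lit 48589931) (nat_lit 2402566) [(nat_lit 0), (nat_lit 1517571), (nat_lit 3492635), (nat_lit 9588537)]) (PF.cons (PF.leaf (nat_lit 5784909) (nat_lit 432523) (nat_lit 48112906) (nat_lit 2417654) [(nat_lit 432523), (nat_lit 1531848), (nat_lit 3506675), (nat_lit 9575357)]) (PF.cons (PF.leaf (nat_lit 6075794)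 (nat_lit 440864) (nat_lit 47625831) (nat_lit 2431673) [(nat_lit 440864), (nat_lit 1545191), (nat_lit 3519456), (nat_lit 9559739)]) (PF.cons (PF.leaf (nat_lit 6373879) (nat_lit 448489) (nat_lit 47131039) (nat_lit 2444565) [(nat_lit 448489), (nat_lit 1557575), (nat_lit 3530902), (nat_lit 9541687)]) (PF.cons PF.nil PF.nil))))) (PF.cons (PF.cons (PF.leaf (nat_lit 6251595) (nat_lit 1554368) (nat_lit 46946152) (nat_lit 2441979)
 [(nat_lit 0), (nat_lit 1554368), (nat_lit 3528205), (nat_lit 9529369)]) (PF.cons (PF.leaf (nat_lit 6544567) (nat_lit 450943) (nat_lit 46461334) (nat_lit 2453259) [(nat_lit 450943), (nat_lit 1565562), (nat_lit 3537701), (nat_lit 9508887)]) (PF.cons (PF.leaf (nat_lit 6844326) (nat_lit 457690) (nat_lit 45970339) (nat_lit 2463476) [(nat_lit 457690), (nat_lit 1575868), (nat_lit 3545922), (nat_lit 9486088)]) (PF.cons PF.nil PF.nil)))) (PF.cons (PF.cons (PF.leaf (nat_lit 7009235) (nat_lit 1581659) (nat_lit 45316280) (nat_lit 2469123) [(nat_lit 0), (nat_lit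 1581659), (nat_lit 3548905), (nat_lit 9447866)]) (PF.cons PF.nil PF.nil)) (PF.cons PF.nil PF.nil)))))) (PF.cons (PF.cons (PF.cons (PF.leaf (nat_lit 5347723) (nat_lit 2386771) (nat_lit 48212755) (nat_lit 2386771) [(nat_lit 0), (nat_lit 0), (nat_lit 3476587), (nat_lit 9556110)]) (PF.cons (PF.leaf (nat_lit 5614574) (nat_lit 420842) (nat_lit 47763436) (nat_lit 2401673) [(nat_lit 420842), (nat_lit 0), (nat_lit 3490047), (nat_lit 9542764)]) (PF.cons (PF.leaf (nat_lit 5892272) (nat_lit 430196) (nat_lit 47300789) (nat_lit 2415644) [(nat_lit 430196), (nat_lit 0), (nat_lit 3502443), (nat_lit 9527097)]) (PF.cons (PF.leaf (nat_lit 6178590)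
 (nat_lit 438655) (nat_lit 46827849) (nat_lit 2428586) [(nat_lit 438655), (nat_lit 0), (nat_lit 3513653), (nat_lit 9509102)]) (PF.cons (PF.leaf (nat_lit 6472173) (nat_lit 446340) (nat_lit 46347008) (nat_lit 2440440) [(nat_lit 446340), (nat_lit 0), (nat_lit 3523603), (nat_lit 9488794)]) (PF.cons PF.nil (PF.cons PF.nil PF.nil))))))) (PF.cons (PF.cons (PF.leaf (nat_lit 6069704) (nat_lit 1539494) (nat_lit 46624913) (nat_lit 2426186) [(nat_lit 0), (nat_lit 1539494), (nat_lit 3511195), (nat_lit 9495827)]) (PF.cons (PF.leaf (nat_lit 6350376) (nat_lit 441019) (nat_lit 46162644) (nat_lit 2437504) [(nat_lit 441019), (nat_lit 1551062), (nat_lit 3520487), (nat_lit 9475607)]) (PF.cons (PF.leaf (nat_lit 6639230) (nat_lit 448507) (nat_lit 45691821) (nat_lit 2447837) [(nat_lit 448507), (nat_lit 1561756), (nat_lit 3528622), (nat_lit 9453136)]) (PF.cons (PF.leaf (nat_lit 6934516) (nat_lit 455292) (nat_lit 45214652) (nat_lit 2457147) [(nat_lit 455292), (nat_lit 1571567), (nat_lit 3535551),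 (nat_lit 9428464)]) (PF.cons PF.nil PF.nil))))) (PF.cons (PF.cons (PF.leaf (nat_lit 6805605) (nat_lit 1567812) (nat_lit 45041707) (nat_lit 2453703) [(nat_lit 0), (nat_lit 1567812), (nat_lit 3531684), (nat_lit
 9414409)]) (PF.cons (PF.leaf (nat_lit 7095520) (nat_lit 456795) (nat_lit 44575173) (nat_lit 2461675) [(nat_lit 456795), (nat_lit 1576622), (nat_lit 3537015), (nat_lit 9387893)]) (PF.cons PF.nil (PF.cons PF.nil PF.nil)))) (PF.cons (PF.cons (PF.leaf (nat_lit 7546755) (nat_lit 1587839) (nat_lit 43481008) (nat_lit 2470692) [(nat_lit 0), (nat_lit 1587839), (nat_lit 3539539), (nat_lit 9314514)]) (PF.cons PF.nil PF.nil)) (PF.cons PF.nil PF.nil))))) (PF.cons (PF.cons (PF.cons (PF.leaf (nat_lit 6614375) (nat_lit 2437787) (nat_lit 44748838) (nat_lit 2437787) [(nat_lit 0), (nat_lit 0), (nat_lit 3514160), (nat_lit 9379704)]) (PF.cons (PF.leaf (nat_lit 6892766) (nat_lit 447054) (nat_lit 44303435) (nat_lit 2445937) [(nat_lit 447054), (nat_lit 0), (nat_lit 3519507), (nat_lit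 9353863)]) (PF.cons (PF.leaf (nat_lit 7178645) (nat_lit 453787) (nat_lit 43850715) (nat_lit 2453181) [(nat_lit 453787), (nat_lit 0), (nat_lit 3523793), (nat_lit 9325960)]) (PF.cons PF.nil (PF.cons PF.nil PF.nil))))) (PF.cons (PF.cons (PF.leaf (nat_lit 7335852) (nat_lit 1574285) (nat_lit 43231451) (nat_lit 2455428) [(nat_lit 0), (nat_lit 1574285), (nat_lit 3522264), (nat_lit 9280854)]) (PF.cons (PF.leaf (nat_lit 7621990)
 (nat_lit 460543) (nat_lit 42784443) (nat_lit 2460638) [(nat_lit 460543), (nat_lit 1581077), (nat_lit 3524161), (nat_lit 9249626)]) (PF.cons PF.nil (PF.cons PF.nil PF.nil)))) (PF.cons (PF.cons (PF.leaf (nat_lit 8059613) (nat_lit 1588238) (nat_lit 41742460) (nat_lit 2464039) [(nat_lit 0), (nat_lit 1588238), (nat_lit 3519651), (nat_lit 9166881)]) (PF.cons PF.nil PF.nil)) PF.nil))) (PF.cons (PF.cons (PF.cons (PF.leaf (nat_lit 7842992) (nat_lit 2449098) (nat_lit 41515773) (nat_lit 2449098) [(nat_lit 0), (nat_lit 0), (nat_lit 3502582), (nat_lit 9133609)])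 (PF.cons (PF.leaf (nat_lit 8124799) (nat_lit 462548) (nat_lit 41088843) (nat_lit 2452008) [(nat_lit 462548), (nat_lit 0), (nat_lit 3501659), (nat_lit 9098774)]) PF.nil)) (PF.cons PF.nil PF.nil)) (PF.cons PF.nil PF.nil)))))) (PF.cons (PF.cons (PF.cons (PF.cons (PF.leaf (nat_lit 5104183) (nat_lit 2298197) (nat_lit 46161798) (nat_lit 2298197) [(nat_lit 0), (nat_lit 0), (nat_lit 0), (nat_lit 9324408)]) (PF.cons (PF.leaf (nat_lit 5341013) (nat_lit 387853) (nat_lit 45784359) (nat_lit 2314195) [(nat_lit 387853), (nat_lit 0), (nat_lit 0), (nat_lit 9311202)]) (PF.cons (PF.leaf (nat_lit 5591635) (nat_lit 399284) (nat_lit 45389026) (nat_lit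
 2329398) [(nat_lit 399284), (nat_lit 0), (nat_lit 0), (nat_lit 9295909)]) (PF.cons (PF.leaf (nat_lit 5853131) (nat_lit 409472) (nat_lit 44979695) (nat_lit 2343634) [(nat_lit 409472), (nat_lit 0), (nat_lit 0), (nat_lit 9278532)]) (PF.cons (PF.leaf (nat_lit 6123790) (nat_lit 418626) (nat_lit 44559323) (nat_lit 2356809) [(nat_lit 418626), (nat_lit 0), (nat_lit 0), (nat_lit 9259086)]) (PF.cons (PF.leaf (nat_lit 6402165) (nat_lit 426898) (nat_lit 44130252) (nat_lit 2368873) [(nat_lit 426898), (nat_lit 0), (nat_lit 0), (nat_lit 9237596)]) (PF.cons (PF.leaf (nat_lit 6687120) (nat_lit 434400) (nat_lit 43694400) (nat_lit 2379807) [(nat_lit 434400), (nat_lit 0), (nat_lit 0), (nat_lit 9214100)]) (PF.cons PF.nil (PF.cons PF.nil PF.nil))))))))) (PF.cons (PF.cons (PF.leaf (nat_lit 5767144) (nat_lit 1473675) (nat_lit 44765456) (nat_lit 2341640) [(nat_lit 0), (nat_lit 1473675), (nat_lit 0), (nat_lit 9264020)]) (PF.cons (PF.leaf (nat_lit 6022589) (nat_lit 412230) (nat_lit 44365897)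 (nat_lit 2354094) [(nat_lit 412230), (nat_lit 1486853), (nat_lit 0), (nat_lit 9244869)]) (PF.cons (PF.leaf (nat_lit 6288379) (nat_lit 421185) (nat_lit 43954396) (nat_lit 2365628) [(nat_lit 421185), (nat_lit 1499103),
 (nat_lit 0), (nat_lit 9223656)]) (PF.cons (PF.leaf (nat_lit 6562347) (nat_lit 429231) (nat_lit 43533678) (nat_lit 2376171) [(nat_lit 429231), (nat_lit 1510404), (nat_lit 0), (nat_lit 9200432)]) (PF.cons (PF.leaf (nat_lit 6843177) (nat_lit 436494) (nat_lit 43105884) (nat_lit 2385687) [(nat_lit 436494), (nat_lit 1520757), (nat_lit 0), (nat_lit 9175253)]) (PF.cons (PF.leaf (nat_lit 7129787) (nat_lit 443070) (nat_lit 42672757) (nat_lit 2394166) [(nat_lit 443070), (nat_lit 1530180), (nat_lit 0), (nat_lit 9148178)]) (PF.cons PF.nil PF.nil))))))) (PF.cons (PF.cons (PF.leaf (nat_lit 6453225) (nat_lit 1506492) (nat_lit 43352126) (nat_lit 2372865) [(nat_lit 0), (nat_lit 1506492), (nat_lit 0), (nat_lit 9185418)]) (PF.cons (PF.leaf (nat_lit 6721638) (nat_lit 431045)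 (nat_lit 42941046) (nat_lit 2381990) [(nat_lit 431045), (nat_lit 1516675), (nat_lit 0), (nat_lit 9160689)]) (PF.cons (PF.leaf (nat_lit 6997865) (nat_lit 438129) (nat_lit 42522290) (nat_lit 2390188) [(nat_lit 438129), (nat_lit 1526002), (nat_lit 0), (nat_lit 9134035)]) (PF.cons (PF.leaf (nat_lit 7280182) (nat_lit 444511) (nat_lit 42097828) (nat_lit 2397436) [(nat_lit 444511), (nat_lit 1534475), (nat_lit 0), (nat_lit 9105531)])
 (PF.cons PF.nil PF.nil))))) (PF.cons (PF.cons (PF.leaf (nat_lit 7152144) (nat_lit 1530308) (nat_lit 41943376) (nat_lit 2393402) [(nat_lit 0), (nat_lit 1530308), (nat_lit 0), (nat_lit 9090554)]) (PF.cons (PF.leaf (nat_lit 7429261) (nat_lit 445547) (nat_lit 41528432) (nat_lit 2399506) [(nat_lit 445547), (nat_lit 1537894), (nat_lit 0), (nat_lit 9060821)]) (PF.cons (PF.leaf (nat_lit 7712231) (nat_lit 451151) (nat_lit 41108941) (nat_lit 2404731) [(nat_lit 451151), (nat_lit 1544707), (nat_lit 0), (nat_lit 9029357)]) (PF.cons PF.nil PF.nil)))) (PF.cons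 (PF.cons (PF.leaf (nat_lit 7856055) (nat_lit 1546540) (nat_lit 40554602) (nat_lit 2404684) [(nat_lit 0), (nat_lit 1546540), (nat_lit 0), (nat_lit 8981681)]) (PF.cons PF.nil PF.nil)) (PF.cons PF.nil PF.nil)))))) (PF.cons (PF.cons (PF.cons (PF.leaf (nat_lit 6285085) (nat_lit 2355405) (nat_lit 43044477) (nat_lit 2355405) [(nat_lit 0), (nat_lit 0), (nat_lit 3410992), (nat_lit 9148969)]) (PF.cons (PF.leaf (nat_lit 6539973) (nat_lit 419262) (nat_lit 42657114) (nat_lit 2364796) [(nat_lit 419262), (nat_lit 0), (nat_lit 3417274), (nat_lit 9125182)]) (PF.cons (PF.leaf (nat_lit 6804484) (nat_lit 427437) (nat_lit 42259148) (nat_lit 2373326) [(nat_lit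
 427437), (nat_lit 0), (nat_lit 3422610), (nat_lit 9099426)]) (PF.cons (PF.leaf (nat_lit 7076469) (nat_lit 434717) (nat_lit 41853180) (nat_lit 2380948) [(nat_lit 434717), (nat_lit 0), (nat_lit 3426942), (nat_lit 9071794)]) (PF.cons (PF.leaf (nat_lit 7354646) (nat_lit 441236) (nat_lit 41441235) (nat_lit 2387641) [(nat_lit 441236), (nat_lit 0), (nat_lit 3430241), (nat_lit 9042375)]) (PF.cons PF.nil (PF.cons PF.nil PF.nil))))))) (PF.cons (PF.cons (PF.leaf (nat_lit 6961475) (nat_lit 1515132) (nat_lit 41683176) (nat_lit 2376932) [(nat_lit 0), (nat_lit 1515132), (nat_lit 3422333), (nat_lit 9055619)]) (PF.cons (PF.leaf (nat_lit 7227720) (nat_lit 435703) (nat_lit 41287273) (nat_lit 2383381) [(nat_lit 435703), (nat_lit 1523293), (nat_lit 3425362), (nat_lit 9026899)]) (PF.cons (PF.leaf (nat_lit 7501118) (nat_lit 442097) (nat_lit 40884727) (nat_lit 2388983) [(nat_lit 442097), (nat_lit 1530662), (nat_lit 3427434), (nat_lit 8996405)]) (PF.cons (PF.leaf (nat_lit 7780051) (nat_lit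 447809) (nat_lit 40477392) (nat_lit 2393728) [(nat_lit 447809), (nat_lit 1537250), (nat_lit 3428536), (nat_lit 8964237)]) (PF.cons PF.nil PF.nil))))) (PF.cons (PF.cons (PF.leaf (nat_lit 7647341) (nat_lit 1532825)
 (nat_lit 40333351) (nat_lit 2389261) [(nat_lit 0), (nat_lit 1532825), (nat_lit 3423310), (nat_lit 8948618)]) (PF.cons (PF.leaf (nat_lit 7920961) (nat_lit 448170) (nat_lit 39935704) (nat_lit 2393061) [(nat_lit 448170), (nat_lit 1538673), (nat_lit 3423348), (nat_lit 8915589)]) (PF.cons PF.nil (PF.cons PF.nil PF.nil)))) (PF.cons (PF.cons (PF.leaf (nat_lit 8335692) (nat_lit 1543916) (nat_lit 39007921) (nat_lit 2393659) [(nat_lit 0), (nat_lit 1543916), (nat_lit 3415224), (nat_lit 8830128)]) (PF.cons PF.nil PF.nil)) (PF.cons PF.nil PF.nil))))) (PF.cons (PF.cons (PF.cons (PF.leaf (nat_lit 7450456) (nat_lit 2373235) (nat_lit 40096392) (nat_lit 2373235) [(nat_lit 0), (nat_lit 0), (nat_lit 3405456), (nat_lit 8914136)]) (PF.cons (PF.leaf (nat_lit 7713859) (nat_lit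 438640) (nat_lit 39716450) (nat_lit 2377443) [(nat_lit 438640), (nat_lit 0), (nat_lit 3405827), (nat_lit 8882311)]) (PF.cons (PF.leaf (nat_lit 7983918) (nat_lit 444425) (nat_lit 39330723) (nat_lit 2380877) [(nat_lit 444425), (nat_lit 0), (nat_lit 3405324), (nat_lit 8848856)]) (PF.cons PF.nil PF.nil)))) (PF.cons (PF.cons (PF.leaf (nat_lit 8122407) (nat_lit 1530752) (nat_lit 38806788) (nat_lit 2378773) [(nat_lit 0), (nat_lit
 1530752), (nat_lit 3398309), (nat_lit 8797939)]) (PF.cons (PF.leaf (nat_lit 8392116) (nat_lit 449349) (nat_lit 38426690) (nat_lit 2380654) [(nat_lit 449349), (nat_lit 1535129), (nat_lit 3396074), (nat_lit 8762420)]) PF.nil)) (PF.cons PF.nil PF.nil))) (PF.cons (PF.cons (PF.cons (PF.leaf (nat_lit 8578130) (nat_lit 2363207) (nat_lit 37361520) (nat_lit 2363207) [(nat_lit 0), (nat_lit 0), (nat_lit 3367134), (nat_lit 8641339)]) (PF.cons PF.nil PF.nil)) (PF.cons PF.nil PF.nil)) (PF.cons PF.nil PF.nil))))) (PF.cons (PF.cons (PF.cons (PF.cons (PF.leaf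 (nat_lit 7095268) (nat_lit 2294653) (nat_lit 38722107) (nat_lit 2294653) [(nat_lit 0), (nat_lit 0), (nat_lit 0), (nat_lit 8697350)]) (PF.cons (PF.leaf (nat_lit 7338231) (nat_lit 412068) (nat_lit 38389463) (nat_lit 2300512) [(nat_lit 412068), (nat_lit 0), (nat_lit 0), (nat_lit 8668922)]) (PF.cons (PF.leaf (nat_lit 7589921) (nat_lit 419345) (nat_lit 38048132) (nat_lit 2305585) [(nat_lit 419345), (nat_lit 0), (nat_lit 0), (nat_lit 8638801)]) (PF.cons (PF.leaf (nat_lit 7848230) (nat_lit 425746) (nat_lit 37700328) (nat_lit 2309854) [(nat_lit 425746), (nat_lit 0), (nat_lit 0), (nat_lit 8607130)]) (PF.cons (PF.leaf (nat_lit 8112022) (nat_lit 431410)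
 (nat_lit 37347759) (nat_lit 2313322) [(nat_lit 431410), (nat_lit 0), (nat_lit 0), (nat_lit 8574029)]) PF.nil))))) (PF.cons (PF.cons (PF.leaf (nat_lit 7730523) (nat_lit 1475119) (nat_lit 37557811) (nat_lit 2305067) [(nat_lit 0), (nat_lit 1475119), (nat_lit 0), (nat_lit 8590271)]) (PF.cons (PF.leaf (nat_lit 7983160) (nat_lit 425859) (nat_lit 37218974) (nat_lit 2308471) [(nat_lit 425859), (nat_lit 1481026), (nat_lit 0), (nat_lit 8558160)]) (PF.cons (PF.leaf (nat_lit 8242284) (nat_lit 431451) (nat_lit 36874742) (nat_lit 2311138) [(nat_lit 431451), (nat_lit 1486215), (nat_lit 0), (nat_lit 8524604)]) (PF.cons PF.nil PF.nil)))) (PF.cons (PF.cons (PF.leaf (nat_lit 8372657) (nat_lit 1486032) (nat_lit 36406298) (nat_lit 2308193) [(nat_lit 0), (nat_lit 1486032), (nat_lit 0), (nat_lit 8474084)]) (PF.cons (PF.leaf (nat_lit 8631493) (nat_lit 436044) (nat_lit 36066697) (nat_lit 2309447) [(nat_lit 436044), (nat_lit 1489966), (nat_lit 0), (nat_lit 8438896)]) PF.nil)) (PF.cons PF.nil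 (PF.cons PF.nil PF.nil))))) (PF.cons (PF.cons (PF.cons (PF.leaf (nat_lit 8174638) (nat_lit 2292830) (nat_lit 36213382) (nat_lit 2292830) [(nat_lit 0), (nat_lit 0), (nat_lit 3277219), (nat_lit 8441793)]) (PF.cons
 (PF.leaf (nat_lit 8424304) (nat_lit 426899) (nat_lit 35888571) (nat_lit 2294602) [(nat_lit 426899), (nat_lit 0), (nat_lit 3274711), (nat_lit 8408009)]) (PF.cons (PF.leaf (nat_lit 8680003) (nat_lit 431987) (nat_lit 35558992) (nat_lit 2295700) [(nat_lit 431987), (nat_lit 0), (nat_lit 3271465), (nat_lit 8372893)]) (PF.cons PF.nil PF.nil)))) (PF.cons (PF.cons (PF.leaf (nat_lit 8803847) (nat_lit 1479123) (nat_lit 35113901) (nat_lit 2291151) [(nat_lit 0), (nat_lit 1479123), (nat_lit 3261576), (nat_lit 8321020)]) (PF.cons (PF.leaf (nat_lit 9058889) (nat_lit 435694) (nat_lit 34789341) (nat_lit 2291030) [(nat_lit 435694), (nat_lit 1481949), (nat_lit 3257032), (nat_lit 8284588)]) PF.nil)) (PF.cons PF.nil PF.nil))) (PF.cons (PF.cons (PF.cons (PF.leaf (nat_lit 9218721)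 (nat_lit 2270847) (nat_lit 33889386) (nat_lit 2270847) [(nat_lit 0), (nat_lit 0), (nat_lit 3225053), (nat_lit 8166157)]) (PF.cons PF.nil PF.nil)) (PF.cons PF.nil PF.nil)) PF.nil))) (PF.cons (PF.cons (PF.cons (PF.cons (PF.leaf (nat_lit 8814007) (nat_lit 2206743) (nat_lit 32950238) (nat_lit 2206743) [(nat_lit 0), (nat_lit 0), (nat_lit 0), (nat_lit 7987957)]) (PF.cons (PF.leaf (nat_lit 9051215) (nat_lit 413686) (nat_lit 32671002)
 (nat_lit 2206988) [(nat_lit 413686), (nat_lit 0), (nat_lit 0), (nat_lit 7954283)]) (PF.cons (PF.leaf (nat_lit 9294032) (nat_lit 418243) (nat_lit 32387722) (nat_lit 2206641) [(nat_lit 418243), (nat_lit 0), (nat_lit 0), (nat_lit 7919490)]) (PF.cons PF.nil PF.nil)))) (PF.cons (PF.cons (PF.leaf (nat_lit 9406174) (nat_lit 1424840) (nat_lit 32007053) (nat_lit 2200757) [(nat_lit 0), (nat_lit 1424840), (nat_lit 0), (nat_lit 7869040)]) (PF.cons PF.nil PF.nil)) (PF.cons PF.nil PF.nil))) (PF.cons (PF.cons (PF.cons (PF.leaf (nat_lit 9787925) (nat_lit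 2178262) (nat_lit 30961559) (nat_lit 2178262) [(nat_lit 0), (nat_lit 0), (nat_lit 3084722), (nat_lit 7721067)]) (PF.cons PF.nil PF.nil)) PF.nil) PF.nil)) (PF.cons PF.nil (PF.cons PF.nil (PF.cons PF.nil (PF.cons PF.nil PF.nil)))))))))

def p12_12_0_0 : pfC (piC [(nat_lit 40173837), (nat_lit 25770221), (nat_lit 19310217), (nat_lit 12946273)] (nat_lit 27030628)) p12_12_0 (nat_lit 4) (nat_lit 0) (nat_lit 1) = true := by decide +kernel
def p12_12_0_1 : pfC (piC [(nat_lit 40173837), (nat_lit 25770221), (nat_lit 19310217), (nat_lit 12946273)] (nat_lit 27030628)) p12_12_0 (nat_lit 4) (nat_lit 1) (nat_lit 2) = true := by decide +kernel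
def p12_12_0_2 : pfC (piC [(nat_lit 40173837), (nat_lit 25770221), (nat_lit 19310217), (nat_lit 12946273)] (nat_lit 27030628)) p12_12_0 (nat_lit 4) (nat_lit 2) (nat_lit 3) = true := by decide +kernel
def p12_12_0_3 : pfC (piC [(nat_lit 40173837), (nat_lit 25770221), (nat_lit 19310217), (nat_lit 12946273)] (nat_lit 27030628)) p12_12_0 (nat_lit 4) (nat_lit 3) (nat_lit 4) = true := by decide +kernel
def p12_12_0_4 : pfC (piC [(nat_lit 40173837), (nat_lit 25770221), (nat_lit 19310217), (nat_lit 12946273)] (nat_lit 27030628)) p12_12_0 (nat_lit 4) (nat_lit 4) (nat_lit 5) = true := by decide +kernel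
def p12_12_0_5 : pfC (piC [(nat_lit 40173837), (nat_lit 25770221), (nat_lit 19310217), (nat_lit 12946273)] (nat_lit 27030628)) p12_12_0 (nat_lit 4) (nat_lit 5) (nat_lit 6) = true := by decide +kernel
def p12_12_0_6 : pfC (piC [(nat_lit 40173837), (nat_lit 25770221), (nat_lit 19310217), (nat_lit 12946273)] (nat_lit 27030628)) p12_12_0 (nat_lit 4) (nat_lit 6) (nat_lit 7) = true := by decide +kernel
def p12_12_0_7 : pfC (piC [(nat_lit 40173837), (nat_lit 25770221), (nat_lit 19310217), (nat_lit 12946273)] (nat_lit 27030628)) p12_12_0 (nat_lit 4) (nat_lit 7) (nat_lit 8) = true := by decide +kernel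
def p12_12_0_8 : pfC (piC [(nat_lit 40173837), (nat_lit 25770221), (nat_lit 19310217), (nat_lit 12946273)] (nat_lit 27030628)) p12_12_0 (nat_lit 4) (nat_lit 8) (nat_lit 9) = true := by decide +kernel
def p12_12_0_9 : pfC (piC [(nat_lit 40173837), (nat_lit 25770221), (nat_lit 19310217), (nat_lit 12946273)] (nat_lit 27030628)) p12_12_0 (nat_lit 4) (nat_lit 9) (nat_lit 10) = true := by decide +kernel
def p12_12_0_10 : pfC (piC [(nat_lit 40173837), (nat_lit 25770221), (nat_lit 19310217), (nat_lit 12946273)] (nat_lit 27030628)) p12_12_0 (nat_lit 4) (nat_lit 10) (nat_lit 11) = true := by decide +kernel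
def p12_12_0_11 : pfC (piC [(nat_lit 40173837), (nat_lit 25770221), (nat_lit 19310217), (nat_lit 12946273)] (nat_lit 27030628)) p12_12_0 (nat_lit 4) (nat_lit 11) (nat_lit 12) = true := by decide +kernel
def p12_12_0_12 : pfC (piC [(nat_lit 40173837), (nat_lit 25770221), (nat_lit 19310217), (nat_lit 12946273)] (nat_lit 27030628)) p12_12_0 (nat_lit 4) (nat_lit 12) (nat_lit 13) = true := by decide +kernel
def p12_12_0_13 : pfC (piC [(nat_lit 40173837), (nat_lit 25770221), (nat_lit 19310217), (nat_lit 12946273)] (nat_lit 27030628)) p12_12_0 (nat_lit 4) (nat_lit 13) (nat_lit 14) = true := by decide +kernel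
def p12_12_0_14 : pfC (piC [(nat_lit 40173837), (nat_lit 25770221), (nat_lit 19310217), (nat_lit 12946273)] (nat_lit 27030628)) p12_12_0 (nat_lit 4) (nat_lit 14) (nat_lit 15) = true := by decide +kernel
def p12_12_0_15 : pfC (piC [(nat_lit 40173837), (nat_lit 25770221), (nat_lit 19310217), (nat_lit 12946273)] (nat_lit 27030628)) p12_12_0 (nat_lit 4) (nat_lit 15) (nat_lit 16) = true := by decide +kernel
def p12_12_0_16 : pfC (piC [(nat_lit 40173837), (nat_lit 25770221), (nat_lit 19310217), (nat_lit 12946273)] (nat_lit 27030628)) p12_12_0 (nat_lit 4) (nat_lit 16) (nat_lit 17) = true := by decide +kernel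
def p12_12_0_17 : pfC (piC [(nat_lit 40173837), (nat_lit 25770221), (nat_lit 19310217), (nat_lit 12946273)] (nat_lit 27030628)) p12_12_0 (nat_lit 4) (nat_lit 17) (nat_lit 18) = true := by decide +kernel
def p12_12_0_18 : pfC (piC [(nat_lit 40173837), (nat_lit 25770221), (nat_lit 19310217), (nat_lit 12946273)] (nat_lit 27030628)) p12_12_0 (nat_lit 4) (nat_lit 18) (nat_lit 19) = true := by decide +kernel
def p12_12_0_19 : pfC (piC [(nat_lit 40173837), (nat_lit 25770221), (nat_lit 19310217), (nat_lit 12946273)] (nat_lit 27030628)) p12_12_0 (nat_lit 4) (nat_lit 19) (nat_lit 20) = true := by decide +kernel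
def p12_12_0_20 : pfC (piC [(nat_lit 40173837), (nat_lit 25770221), (nat_lit 19310217), (nat_lit 12946273)] (nat_lit 27030628)) p12_12_0 (nat_lit 4) (nat_lit 20) (nat_lit 21) = true := by decide +kernel
def p12_12_0_21 : pfC (piC [(nat_lit 40173837), (nat_lit 25770221), (nat_lit 19310217), (nat_lit 12946273)] (nat_lit 27030628)) p12_12_0 (nat_lit 4) (nat_lit 21) (nat_lit 22) = true := by decide +kernel
def p12_12_0_22 : pfC (piC [(nat_lit 40173837), (nat_lit 25770221), (nat_lit 19310217), (nat_lit 12946273)] (nat_lit 27030628)) p12_12_0 (nat_lit 4) (nat_lit 22) (nat_lit 23) = true := by decide +kernel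
def p12_12_0_23 : pfC (piC [(nat_lit 40173837), (nat_lit 25770221), (nat_lit 19310217), (nat_lit 12946273)] (nat_lit 27030628)) p12_12_0 (nat_lit 4) (nat_lit 23) (nat_lit 24) = true := by decide +kernel
def p12_12_0_24 : pfC (piC [(nat_lit 40173837), (nat_lit 25770221), (nat_lit 19310217), (nat_lit 12946273)] (nat_lit 27030628)) p12_12_0 (nat_lit 4) (nat_lit 24) (nat_lit 25) = true := by decide +kernel
def p12_12_0_25 : pfC (piC [(nat_lit 40173837), (nat_lit 25770221), (nat_lit 19310217), (nat_lit 12946273)] (nat_lit 27030628)) p12_12_0 (nat_lit 4) (nat_lit 25) (nat_lit 26) = true := by decide +kernel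
def p12_12_0_26 : pfC (piC [(nat_lit 40173837), (nat_lit 25770221), (nat_lit 19310217), (nat_lit 12946273)] (nat_lit 27030628)) p12_12_0 (nat_lit 4) (nat_lit 26) (nat_lit 27) = true := by decide +kernel
def p12_12_0_27 : pfC (piC [(nat_lit 40173837), (nat_lit 25770221), (nat_lit 19310217), (nat_lit 12946273)] (nat_lit 27030628)) p12_12_0 (nat_lit 4) (nat_lit 27) (nat_lit 28) = true := by decide +kernel
def p12_12_0_28 : pfC (piC [(nat_lit 40173837), (nat_lit 25770221), (nat_lit 19310217), (nat_lit 12946273)] (nat_lit 27030628)) p12_12_0 (nat_lit 4) (nat_lit 28) (nat_lit 29) = true := by decide +kernel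
def p12_12_0_29 : pfC (piC [(nat_lit 40173837), (nat_lit 25770221), (nat_lit 19310217), (nat_lit 12946273)] (nat_lit 27030628)) p12_12_0 (nat_lit 4) (nat_lit 29) (nat_lit 30) = true := by decide +kernel
def p12_12_0_30 : pfC (piC [(nat_lit 40173837), (nat_lit 25770221), (nat_lit 19310217), (nat_lit 12946273)] (nat_lit 27030628)) p12_12_0 (nat_lit 4) (nat_lit 30) (nat_lit 31) = true := by decide +kernel
def p12_12_0_31 : pfC (piC [(nat_lit 40173837), (nat_lit 25770221), (nat_lit 19310217), (nat_lit 12946273)] (nat_lit 27030628)) p12_12_0 (nat_lit 4) (nat_lit 31) (nat_lit 32) = true := by decide +kernel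
def p12_12_0_32 : pfC (piC [(nat_lit 40173837), (nat_lit 25770221), (nat_lit 19310217), (nat_lit 12946273)] (nat_lit 27030628)) p12_12_0 (nat_lit 4) (nat_lit 32) (nat_lit 33) = true := by decide +kernel
def p12_12_0_33 : pfC (piC [(nat_lit 40173837), (nat_lit 25770221), (nat_lit 19310217), (nat_lit 12946273)] (nat_lit 27030628)) p12_12_0 (nat_lit 4) (nat_lit 33) (nat_lit 34) = true := by decide +kernel
def p12_12_0_34 : pfC (piC [(nat_lit 40173837), (nat_lit 25770221), (nat_lit 19310217), (nat_lit 12946273)] (nat_lit 27030628)) p12_12_0 (nat_lit 4) (nat_lit 34) (nat_lit 35) = true := by decide +kernel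
def p12_12_0_35 : pfC (piC [(nat_lit 40173837), (nat_lit 25770221), (nat_lit 19310217), (nat_lit 12946273)] (nat_lit 27030628)) p12_12_0 (nat_lit 4) (nat_lit 35) (nat_lit 36) = true := by decide +kernel
def p12_12_0_36 : pfC (piC [(nat_lit 40173837), (nat_lit 25770221), (nat_lit 19310217), (nat_lit 12946273)] (nat_lit 27030628)) p12_12_0 (nat_lit 4) (nat_lit 36) (nat_lit 37) = true := by decide +kernel
def p12_12_0_37 : pfC (piC [(nat_lit 40173837), (nat_lit 25770221), (nat_lit 19310217), (nat_lit 12946273)] (nat_lit 27030628)) p12_12_0 (nat_lit 4) (nat_lit 37) (nat_lit 38) = true := by decide +kernel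
def p12_12_0_38 : pfC (piC [(nat_lit 40173837), (nat_lit 25770221), (nat_lit 19310217), (nat_lit 12946273)] (nat_lit 27030628)) p12_12_0 (nat_lit 4) (nat_lit 38) (nat_lit 39) = true := by decide +kernel
def p12_12_0_39 : pfC (piC [(nat_lit 40173837), (nat_lit 25770221), (nat_lit 19310217), (nat_lit 12946273)] (nat_lit 27030628)) p12_12_0 (nat_lit 4) (nat_lit 39) (nat_lit 40) = true := by decide +kernel
def p12_12_0_40 : pfC (piC [(nat_lit 40173837), (nat_lit 25770221), (nat_lit 19310217), (nat_lit 12946273)] (nat_lit 27030628)) p12_12_0 (nat_lit 4) (nat_lit 40) (nat_lit 41) = true := by decide +kernel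
def p12_12_0_41 : pfC (piC [(nat_lit 40173837), (nat_lit 25770221), (nat_lit 19310217), (nat_lit 12946273)] (nat_lit 27030628)) p12_12_0 (nat_lit 4) (nat_lit 41) (nat_lit 42) = true := by decide +kernel
def p12_12_0_42 : pfC (piC [(nat_lit 40173837), (nat_lit 25770221), (nat_lit 19310217), (nat_lit 12946273)] (nat_lit 27030628)) p12_12_0 (nat_lit 4) (nat_lit 42) (nat_lit 43) = true := by decide +kernel
def p12_12_0_43 : pfC (piC [(nat_lit 40173837), (nat_lit 25770221), (nat_lit 19310217), (nat_lit 12946273)] (nat_lit 27030628)) p12_12_0 (nat_lit 4) (nat_lit 43) (nat_lit 44) = true := by decide +kernel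
def p12_12_0_44 : pfC (piC [(nat_lit 40173837), (nat_lit 25770221), (nat_lit 19310217), (nat_lit 12946273)] (nat_lit 27030628)) p12_12_0 (nat_lit 4) (nat_lit 44) (nat_lit 45) = true := by decide +kernel
def p12_12_0_45 : pfC (piC [(nat_lit 40173837), (nat_lit 25770221), (nat_lit 19310217), (nat_lit 12946273)] (nat_lit 27030628)) p12_12_0 (nat_lit 4) (nat_lit 45) (nat_lit 46) = true := by decide +kernel
def p12_12_0_46 : pfC (piC [(nat_lit 40173837), (nat_lit 25770221), (nat_lit 19310217), (nat_lit 12946273)] (nat_lit 27030628)) p12_12_0 (nat_lit 4) (nat_lit 46) (nat_lit 47) = true := by decide +kernel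
def p12_12_0_47 : pfC (piC [(nat_lit 40173837), (nat_lit 25770221), (nat_lit 19310217), (nat_lit 12946273)] (nat_lit 27030628)) p12_12_0 (nat_lit 4) (nat_lit 47) (nat_lit 48) = true := by decide +kernel
def p12_12_0_48 : pfC (piC [(nat_lit 40173837), (nat_lit 25770221), (nat_lit 19310217), (nat_lit 12946273)] (nat_lit 27030628)) p12_12_0 (nat_lit 4) (nat_lit 48) (nat_lit 49) = true := by decide +kernel
def p12_12_0_49 : pfC (piC [(nat_lit 40173837), (nat_lit 25770221), (nat_lit 19310217), (nat_lit 12946273)] (nat_lit 27030628)) p12_12_0 (nat_lit 4) (nat_lit 49) (nat_lit 50) = true := by decide +kernel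
def p12_12_0_50 : pfC (piC [(nat_lit 40173837), (nat_lit 25770221), (nat_lit 19310217), (nat_lit 12946273)] (nat_lit 27030628)) p12_12_0 (nat_lit 4) (nat_lit 50) (nat_lit 51) = true := by decide +kernel
def p12_12_0_51 : pfC (piC [(nat_lit 40173837), (nat_lit 25770221), (nat_lit 19310217), (nat_lit 12946273)] (nat_lit 27030628)) p12_12_0 (nat_lit 4) (nat_lit 51) (nat_lit 52) = true := by decide +kernel
def p12_12_0_52 : pfC (piC [(nat_lit 40173837), (nat_lit 25770221), (nat_lit 19310217), (nat_lit 12946273)] (nat_lit 27030628)) p12_12_0 (nat_lit 4) (nat_lit 52) (nat_lit 53) = true := by decide +kernel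
def p12_12_0_53 : pfC (piC [(nat_lit 40173837), (nat_lit 25770221), (nat_lit 19310217), (nat_lit 12946273)] (nat_lit 27030628)) p12_12_0 (nat_lit 4) (nat_lit 53) (nat_lit 54) = true := by decide +kernel
def p12_12_0_54 : pfC (piC [(nat_lit 40173837), (nat_lit 25770221), (nat_lit 19310217), (nat_lit 12946273)] (nat_lit 27030628)) p12_12_0 (nat_lit 4) (nat_lit 54) (nat_lit 55) = true := by decide +kernel
def p12_12_0_55 : pfC (piC [(nat_lit 40173837), (nat_lit 25770221), (nat_lit 19310217), (nat_lit 12946273)] (nat_lit 27030628)) p12_12_0 (nat_lit 4) (nat_lit 55) (nat_lit 56) = true := by decide +kernel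
def p12_12_0_56 : pfC (piC [(nat_lit 40173837), (nat_lit 25770221), (nat_lit 19310217), (nat_lit 12946273)] (nat_lit 27030628)) p12_12_0 (nat_lit 4) (nat_lit 56) (nat_lit 57) = true := by decide +kernel
def p12_12_0_57 : pfC (piC [(nat_lit 40173837), (nat_lit 25770221), (nat_lit 19310217), (nat_lit 12946273)] (nat_lit 27030628)) p12_12_0 (nat_lit 4) (nat_lit 57) (nat_lit 58) = true := by decide +kernel
def p12_12_0_58 : pfC (piC [(nat_lit 40173837), (nat_lit 25770221), (nat_lit 19310217), (nat_lit 12946273)] (nat_lit 27030628)) p12_12_0 (nat_lit 4) (nat_lit 58) (nat_lit 59) = true := by decide +kernel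
def p12_12_0_59 : pfC (piC [(nat_lit 40173837), (nat_lit 25770221), (nat_lit 19310217), (nat_lit 12946273)] (nat_lit 27030628)) p12_12_0 (nat_lit 4) (nat_lit 59) (nat_lit 60) = true := by decide +kernel
def p12_12_0_60 : pfC (piC [(nat_lit 40173837), (nat_lit 25770221), (nat_lit 19310217), (nat_lit 12946273)] (nat_lit 27030628)) p12_12_0 (nat_lit 4) (nat_lit 60) (nat_lit 61) = true := by decide +kernel
def p12_12_0_61 : pfC (piC [(nat_lit 40173837), (nat_lit 25770221), (nat_lit 19310217), (nat_lit 12946273)] (nat_lit 27030628)) p12_12_0 (nat_lit 4) (nat_lit 61) (nat_lit 62) = true := by decide +kernel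
def p12_12_0_62 : pfC (piC [(nat_lit 40173837), (nat_lit 25770221), (nat_lit 19310217), (nat_lit 12946273)] (nat_lit 27030628)) p12_12_0 (nat_lit 4) (nat_lit 62) (nat_lit 63) = true := by decide +kernel
def p12_12_0_63 : pfC (piC [(nat_lit 40173837), (nat_lit 25770221), (nat_lit 19310217), (nat_lit 12946273)] (nat_lit 27030628)) p12_12_0 (nat_lit 4) (nat_lit 63) (nat_lit 64) = true := by decide +kernel
def p12_12_0_64 : pfC (piC [(nat_lit 40173837), (nat_lit 25770221), (nat_lit 19310217), (nat_lit 12946273)] (nat_lit 27030628)) p12_12_0 (nat_lit 4) (nat_lit 64) (nat_lit 65) = true := by decide +kernel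
def p12_12_0_65 : pfC (piC [(nat_lit 40173837), (nat_lit 25770221), (nat_lit 19310217), (nat_lit 12946273)] (nat_lit 27030628)) p12_12_0 (nat_lit 4) (nat_lit 65) (nat_lit 66) = true := by decide +kernel
def p12_12_0_66 : pfC (piC [(nat_lit 40173837), (nat_lit 25770221), (nat_lit 19310217), (nat_lit 12946273)] (nat_lit 27030628)) p12_12_0 (nat_lit 4) (nat_lit 66) (nat_lit 67) = true := by decide +kernel
def p12_12_0_67 : pfC (piC [(nat_lit 40173837), (nat_lit 25770221), (nat_lit 19310217), (nat_lit 12946273)] (nat_lit 27030628)) p12_12_0 (nat_lit 4) (nat_lit 67) (nat_lit 68) = true := by decide +kernel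
def p12_12_0_68 : pfC (piC [(nat_lit 40173837), (nat_lit 25770221), (nat_lit 19310217), (nat_lit 12946273)] (nat_lit 27030628)) p12_12_0 (nat_lit 4) (nat_lit 68) (nat_lit 69) = true := by decide +kernel
def p12_12_0_69 : pfC (piC [(nat_lit 40173837), (nat_lit 25770221), (nat_lit 19310217), (nat_lit 12946273)] (nat_lit 27030628)) p12_12_0 (nat_lit 4) (nat_lit 69) (nat_lit 70) = true := by decide +kernel
def p12_12_0_70 : pfC (piC [(nat_lit 40173837), (nat_lit 25770221), (nat_lit 19310217), (nat_lit 12946273)] (nat_lit 27030628)) p12_12_0 (nat_lit 4) (nat_lit 70) (nat_lit 71) = true := by decide +kernel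
def p12_12_0_71 : pfC (piC [(nat_lit 40173837), (nat_lit 25770221), (nat_lit 19310217), (nat_lit 12946273)] (nat_lit 27030628)) p12_12_0 (nat_lit 4) (nat_lit 71) (nat_lit 72) = true := by decide +kernel
def p12_12_0_72 : pfC (piC [(nat_lit 40173837), (nat_lit 25770221), (nat_lit 19310217), (nat_lit 12946273)] (nat_lit 27030628)) p12_12_0 (nat_lit 4) (nat_lit 72) (nat_lit 73) = true := by decide +kernel
def p12_12_0_73 : pfC (piC [(nat_lit 40173837), (nat_lit 25770221), (nat_lit 19310217), (nat_lit 12946273)] (nat_lit 27030628)) p12_12_0 (nat_lit 4) (nat_lit 73) (nat_lit 74) = true := by decide +kernel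
def p12_12_0_74 : pfC (piC [(nat_lit 40173837), (nat_lit 25770221), (nat_lit 19310217), (nat_lit 12946273)] (nat_lit 27030628)) p12_12_0 (nat_lit 4) (nat_lit 74) (nat_lit 75) = true := by decide +kernel
def p12_12_0_75 : pfC (piC [(nat_lit 40173837), (nat_lit 25770221), (nat_lit 19310217), (nat_lit 12946273)] (nat_lit 27030628)) p12_12_0 (nat_lit 4) (nat_lit 75) (nat_lit 76) = true := by decide +kernel
def p12_12_0_76 : pfC (piC [(nat_lit 40173837), (nat_lit 25770221), (nat_lit 19310217), (nat_lit 12946273)] (nat_lit 27030628)) p12_12_0 (nat_lit 4) (nat_lit 76) (nat_lit 77) = true := by decide +kernel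
def p12_12_0_77 : pfC (piC [(nat_lit 40173837), (nat_lit 25770221), (nat_lit 19310217), (nat_lit 12946273)] (nat_lit 27030628)) p12_12_0 (nat_lit 4) (nat_lit 77) (nat_lit 78) = true := by decide +kernel
def p12_12_0_78 : pfC (piC [(nat_lit 40173837), (nat_lit 25770221), (nat_lit 19310217), (nat_lit 12946273)] (nat_lit 27030628)) p12_12_0 (nat_lit 4) (nat_lit 78) (nat_lit 79) = true := by decide +kernel
def p12_12_0_79 : pfC (piC [(nat_lit 40173837), (nat_lit 25770221), (nat_lit 19310217), (nat_lit 12946273)] (nat_lit 27030628)) p12_12_0 (nat_lit 4) (nat_lit 79) (nat_lit 80) = true := by decide +kernel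
def p12_12_0_80 : pfC (piC [(nat_lit 40173837), (nat_lit 25770221), (nat_lit 19310217), (nat_lit 12946273)] (nat_lit 27030628)) p12_12_0 (nat_lit 4) (nat_lit 80) (nat_lit 81) = true := by decide +kernel
def p12_12_0_81 : pfC (piC [(nat_lit 40173837), (nat_lit 25770221), (nat_lit 19310217), (nat_lit 12946273)] (nat_lit 27030628)) p12_12_0 (nat_lit 4) (nat_lit 81) (nat_lit 82) = true := by decide +kernel
def p12_12_0_82 : pfC (piC [(nat_lit 40173837), (nat_lit 25770221), (nat_lit 19310217), (nat_lit 12946273)] (nat_lit 27030628)) p12_12_0 (nat_lit 4) (nat_lit 82) (nat_lit 83) = true := by decide +kernel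
def p12_12_0_83 : pfC (piC [(nat_lit 40173837), (nat_lit 25770221), (nat_lit 19310217), (nat_lit 12946273)] (nat_lit 27030628)) p12_12_0 (nat_lit 4) (nat_lit 83) (nat_lit 84) = true := by decide +kernel
def p12_12_0_84 : pfC (piC [(nat_lit 40173837), (nat_lit 25770221), (nat_lit 19310217), (nat_lit 12946273)] (nat_lit 27030628)) p12_12_0 (nat_lit 4) (nat_lit 84) (nat_lit 85) = true := by decide +kernel
def p12_12_0_85 : pfC (piC [(nat_lit 40173837), (nat_lit 25770221), (nat_lit 19310217), (nat_lit 12946273)] (nat_lit 27030628)) p12_12_0 (nat_lit 4) (nat_lit 85) (nat_lit 86) = true := by decide +kernel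
def p12_12_0_86 : pfC (piC [(nat_lit 40173837), (nat_lit 25770221), (nat_lit 19310217), (nat_lit 12946273)] (nat_lit 27030628)) p12_12_0 (nat_lit 4) (nat_lit 86) (nat_lit 87) = true := by decide +kernel
def p12_12_0_87 : pfC (piC [(nat_lit 40173837), (nat_lit 25770221), (nat_lit 19310217), (nat_lit 12946273)] (nat_lit 27030628)) p12_12_0 (nat_lit 4) (nat_lit 87) (nat_lit 88) = true := by decide +kernel
def p12_12_0_88 : pfC (piC [(nat_lit 40173837), (nat_lit 25770221), (nat_lit 19310217), (nat_lit 12946273)] (nat_lit 27030628)) p12_12_0 (nat_lit 4) (nat_lit 88) (nat_lit 89) = true := by decide +kernel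
def p12_12_0_89 : pfC (piC [(nat_lit 40173837), (nat_lit 25770221), (nat_lit 19310217), (nat_lit 12946273)] (nat_lit 27030628)) p12_12_0 (nat_lit 4) (nat_lit 89) (nat_lit 90) = true := by decide +kernel
def p12_12_0_90 : pfC (piC [(nat_lit 40173837), (nat_lit 25770221), (nat_lit 19310217), (nat_lit 12946273)] (nat_lit 27030628)) p12_12_0 (nat_lit 4) (nat_lit 90) (nat_lit 91) = true := by decide +kernel
def p12_12_0_91 : pfC (piC [(nat_lit 40173837), (nat_lit 25770221), (nat_lit 19310217), (nat_lit 12946273)] (nat_lit 27030628)) p12_12_0 (nat_lit 4) (nat_lit 91) (nat_lit 92) = true := by decide +kernel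
def p12_12_0_92 : pfC (piC [(nat_lit 40173837), (nat_lit 25770221), (nat_lit 19310217), (nat_lit 12946273)] (nat_lit 27030628)) p12_12_0 (nat_lit 4) (nat_lit 92) (nat_lit 93) = true := by decide +kernel
def p12_12_0_93 : pfC (piC [(nat_lit 40173837), (nat_lit 25770221), (nat_lit 19310217), (nat_lit 12946273)] (nat_lit 27030628)) p12_12_0 (nat_lit 4) (nat_lit 93) (nat_lit 94) = true := by decide +kernel
def p12_12_0_94 : pfC (piC [(nat_lit 40173837), (nat_lit 25770221), (nat_lit 19310217), (nat_lit 12946273)] (nat_lit 27030628)) p12_12_0 (nat_lit 4) (nat_lit 94) (nat_lit 95) = true := by decide +kernel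
def p12_12_0_95 : pfC (piC [(nat_lit 40173837), (nat_lit 25770221), (nat_lit 19310217), (nat_lit 12946273)] (nat_lit 27030628)) p12_12_0 (nat_lit 4) (nat_lit 95) (nat_lit 96) = true := by decide +kernel
def p12_12_0_96 : pfC (piC [(nat_lit 40173837), (nat_lit 25770221), (nat_lit 19310217), (nat_lit 12946273)] (nat_lit 27030628)) p12_12_0 (nat_lit 4) (nat_lit 96) (nat_lit 97) = true := by decide +kernel
def p12_12_0_97 : pfC (piC [(nat_lit 40173837), (nat_lit 25770221), (nat_lit 19310217), (nat_lit 12946273)] (nat_lit 27030628)) p12_12_0 (nat_lit 4) (nat_lit 97) (nat_lit 98) = true := by decide +kernel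
def p12_12_0_98 : pfC (piC [(nat_lit 40173837), (nat_lit 25770221), (nat_lit 19310217), (nat_lit 12946273)] (nat_lit 27030628)) p12_12_0 (nat_lit 4) (nat_lit 98) (nat_lit 99) = true := by decide +kernel
def p12_12_0_99 : pfC (piC [(nat_lit 40173837), (nat_lit 25770221), (nat_lit 19310217), (nat_lit 12946273)] (nat_lit 27030628)) p12_12_0 (nat_lit 4) (nat_lit 99) (nat_lit 100) = true := by decide +kernel
def p12_12_0_100 : pfC (piC [(nat_lit 40173837), (nat_lit 25770221), (nat_lit 19310217), (nat_lit 12946273)] (nat_lit 27030628)) p12_12_0 (nat_lit 4) (nat_lit 100) (nat_lit 101) = true := by decide +kernel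
def p12_12_0_101 : pfC (piC [(nat_lit 40173837), (nat_lit 25770221), (nat_lit 19310217), (nat_lit 12946273)] (nat_lit 27030628)) p12_12_0 (nat_lit 4) (nat_lit 101) (nat_lit 102) = true := by decide +kernel
def p12_12_0_102 : pfC (piC [(nat_lit 40173837), (nat_lit 25770221), (nat_lit 19310217), (nat_lit 12946273)] (nat_lit 27030628)) p12_12_0 (nat_lit 4) (nat_lit 102) (nat_lit 103) = true := by decide +kernel
def p12_12_0_103 : pfC (piC [(nat_lit 40173837), (nat_lit 25770221), (nat_lit 19310217), (nat_lit 12946273)] (nat_lit 27030628)) p12_12_0 (nat_lit 4) (nat_lit 103) (nat_lit 104) = true := by decide +kernel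
def p12_12_0_104 : pfC (piC [(nat_lit 40173837), (nat_lit 25770221), (nat_lit 19310217), (nat_lit 12946273)] (nat_lit 27030628)) p12_12_0 (nat_lit 4) (nat_lit 104) (nat_lit 105) = true := by decide +kernel
def p12_12_0_105 : pfC (piC [(nat_lit 40173837), (nat_lit 25770221), (nat_lit 19310217), (nat_lit 12946273)] (nat_lit 27030628)) p12_12_0 (nat_lit 4) (nat_lit 105) (nat_lit 106) = true := by decide +kernel
def p12_12_0_106 : pfC (piC [(nat_lit 40173837), (nat_lit 25770221), (nat_lit 19310217), (nat_lit 12946273)] (nat_lit 27030628)) p12_12_0 (nat_lit 4) (nat_lit 106) (nat_lit 107) = true := by decide +kernel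
def p12_12_0_107 : pfC (piC [(nat_lit 40173837), (nat_lit 25770221), (nat_lit 19310217), (nat_lit 12946273)] (nat_lit 27030628)) p12_12_0 (nat_lit 4) (nat_lit 107) (nat_lit 108) = true := by decide +kernel
def p12_12_0_108 : pfC (piC [(nat_lit 40173837), (nat_lit 25770221), (nat_lit 19310217), (nat_lit 12946273)] (nat_lit 27030628)) p12_12_0 (nat_lit 4) (nat_lit 108) (nat_lit 109) = true := by decide +kernel
def p12_12_0_109 : pfC (piC [(nat_lit 40173837), (nat_lit 25770221), (nat_lit 19310217), (nat_lit 12946273)] (nat_lit 27030628)) p12_12_0 (nat_lit 4) (nat_lit 109) (nat_lit 110) = true := by decide +kernel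
def p12_12_0_110 : pfC (piC [(nat_lit 40173837), (nat_lit 25770221), (nat_lit 19310217), (nat_lit 12946273)] (nat_lit 27030628)) p12_12_0 (nat_lit 4) (nat_lit 110) (nat_lit 111) = true := by decide +kernel
def p12_12_0_111 : pfC (piC [(nat_lit 40173837), (nat_lit 25770221), (nat_lit 19310217), (nat_lit 12946273)] (nat_lit 27030628)) p12_12_0 (nat_lit 4) (nat_lit 111) (nat_lit 112) = true := by decide +kernel
def p12_12_0_112 : pfC (piC [(nat_lit 40173837), (nat_lit 25770221), (nat_lit 19310217), (nat_lit 12946273)] (nat_lit 27030628)) p12_12_0 (nat_lit 4) (nat_lit 112) (nat_lit 113) = true := by decide +kernel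
def p12_12_0_113 : pfC (piC [(nat_lit 40173837), (nat_lit 25770221), (nat_lit 19310217), (nat_lit 12946273)] (nat_lit 27030628)) p12_12_0 (nat_lit 4) (nat_lit 113) (nat_lit 114) = true := by decide +kernel
def p12_12_0_114 : pfC (piC [(nat_lit 40173837), (nat_lit 25770221), (nat_lit 19310217), (nat_lit 12946273)] (nat_lit 27030628)) p12_12_0 (nat_lit 4) (nat_lit 114) (nat_lit 115) = true := by decide +kernel
def p12_12_0_115 : pfC (piC [(nat_lit 40173837), (nat_lit 25770221), (nat_lit 19310217), (nat_lit 12946273)] (nat_lit 27030628)) p12_12_0 (nat_lit 4) (nat_lit 115) (nat_lit 116) = true := by decide +kernel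
def p12_12_0_116 : pfC (piC [(nat_lit 40173837), (nat_lit 25770221), (nat_lit 19310217), (nat_lit 12946273)] (nat_lit 27030628)) p12_12_0 (nat_lit 4) (nat_lit 116) (nat_lit 117) = true := by decide +kernel
def p12_12_0_117 : pfC (piC [(nat_lit 40173837), (nat_lit 25770221), (nat_lit 19310217), (nat_lit 12946273)] (nat_lit 27030628)) p12_12_0 (nat_lit 4) (nat_lit 117) (nat_lit 118) = true := by decide +kernel
def p12_12_0_118 : pfC (piC [(nat_lit 40173837), (nat_lit 25770221), (nat_lit 19310217), (nat_lit 12946273)] (nat_lit 27030628)) p12_12_0 (nat_lit 4) (nat_lit 118) (nat_lit 119) = true := by decide +kernel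
def p12_12_0_119 : pfC (piC [(nat_lit 40173837), (nat_lit 25770221), (nat_lit 19310217), (nat_lit 12946273)] (nat_lit 27030628)) p12_12_0 (nat_lit 4) (nat_lit 119) (nat_lit 120) = true := by decide +kernel
def p12_12_0_120 : pfC (piC [(nat_lit 40173837), (nat_lit 25770221), (nat_lit 19310217), (nat_lit 12946273)] (nat_lit 27030628)) p12_12_0 (nat_lit 4) (nat_lit 120) (nat_lit 121) = true := by decide +kernel
def p12_12_0_121 : pfC (piC [(nat_lit 40173837), (nat_lit 25770221), (nat_lit 19310217), (nat_lit 12946273)] (nat_lit 27030628)) p12_12_0 (nat_lit 4) (nat_lit 121) (nat_lit 122) = true := by decide +kernel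
def p12_12_0_122 : pfC (piC [(nat_lit 40173837), (nat_lit 25770221), (nat_lit 19310217), (nat_lit 12946273)] (nat_lit 27030628)) p12_12_0 (nat_lit 4) (nat_lit 122) (nat_lit 123) = true := by decide +kernel
def p12_12_0_123 : pfC (piC [(nat_lit 40173837), (nat_lit 25770221), (nat_lit 19310217), (nat_lit 12946273)] (nat_lit 27030628)) p12_12_0 (nat_lit 4) (nat_lit 123) (nat_lit 124) = true := by decide +kernel
def p12_12_0_124 : pfC (piC [(nat_lit 40173837), (nat_lit 25770221), (nat_lit 19310217), (nat_lit 12946273)] (nat_lit 27030628)) p12_12_0 (nat_lit 4) (nat_lit 124) (nat_lit 125) = true := by decide +kernel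
def p12_12_0_125 : pfC (piC [(nat_lit 40173837), (nat_lit 25770221), (nat_lit 19310217), (nat_lit 12946273)] (nat_lit 27030628)) p12_12_0 (nat_lit 4) (nat_lit 125) (nat_lit 126) = true := by decide +kernel
def p12_12_0_126 : pfC (piC [(nat_lit 40173837), (nat_lit 25770221), (nat_lit 19310217), (nat_lit 12946273)] (nat_lit 27030628)) p12_12_0 (nat_lit 4) (nat_lit 126) (nat_lit 127) = true := by decide +kernel
def p12_12_0_127 : pfC (piC [(nat_lit 40173837), (nat_lit 25770221), (nat_lit 19310217), (nat_lit 12946273)] (nat_lit 27030628)) p12_12_0 (nat_lit 4) (nat_lit 127) (nat_lit 128) = true := by decide +kernel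
def p12_12_0_128 : pfC (piC [(nat_lit 40173837), (nat_lit 25770221), (nat_lit 19310217), (nat_lit 12946273)] (nat_lit 27030628)) p12_12_0 (nat_lit 4) (nat_lit 128) (nat_lit 129) = true := by decide +kernel
def p12_12_0_129 : pfC (piC [(nat_lit 40173837), (nat_lit 25770221), (nat_lit 19310217), (nat_lit 12946273)] (nat_lit 27030628)) p12_12_0 (nat_lit 4) (nat_lit 129) (nat_lit 130) = true := by decide +kernel
def p12_12_0_130 : pfC (piC [(nat_lit 40173837), (nat_lit 25770221), (nat_lit 19310217), (nat_lit 12946273)] (nat_lit 27030628)) p12_12_0 (nat_lit 4) (nat_lit 130) (nat_lit 131) = true := by decide +kernel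
def p12_12_0_131 : pfC (piC [(nat_lit 40173837), (nat_lit 25770221), (nat_lit 19310217), (nat_lit 12946273)] (nat_lit 27030628)) p12_12_0 (nat_lit 4) (nat_lit 131) (nat_lit 132) = true := by decide +kernel
def p12_12_0_132 : pfC (piC [(nat_lit 40173837), (nat_lit 25770221), (nat_lit 19310217), (nat_lit 12946273)] (nat_lit 27030628)) p12_12_0 (nat_lit 4) (nat_lit 132) (nat_lit 133) = true := by decide +kernel
def p12_12_0_133 : pfC (piC [(nat_lit 40173837), (nat_lit 25770221), (nat_lit 19310217), (nat_lit 12946273)] (nat_lit 27030628)) p12_12_0 (nat_lit 4) (nat_lit 133) (nat_lit 134) = true := by decide +kernel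
def p12_12_0_134 : pfC (piC [(nat_lit 40173837), (nat_lit 25770221), (nat_lit 19310217), (nat_lit 12946273)] (nat_lit 27030628)) p12_12_0 (nat_lit 4) (nat_lit 134) (nat_lit 135) = true := by decide +kernel
def p12_12_0_135 : pfC (piC [(nat_lit 40173837), (nat_lit 25770221), (nat_lit 19310217), (nat_lit 12946273)] (nat_lit 27030628)) p12_12_0 (nat_lit 4) (nat_lit 135) (nat_lit 136) = true := by decide +kernel
def p12_12_0_136 : pfC (piC [(nat_lit 40173837), (nat_lit 25770221), (nat_lit 19310217), (nat_lit 12946273)] (nat_lit 27030628)) p12_12_0 (nat_lit 4) (nat_lit 136) (nat_lit 137) = true := by decide +kernel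
def p12_12_0_137 : pfC (piC [(nat_lit 40173837), (nat_lit 25770221), (nat_lit 19310217), (nat_lit 12946273)] (nat_lit 27030628)) p12_12_0 (nat_lit 4) (nat_lit 137) (nat_lit 138) = true := by decide +kernel
def p12_12_0_138 : pfC (piC [(nat_lit 40173837), (nat_lit 25770221), (nat_lit 19310217), (nat_lit 12946273)] (nat_lit 27030628)) p12_12_0 (nat_lit 4) (nat_lit 138) (nat_lit 139) = true := by decide +kernel
def p12_12_0_139 : pfC (piC [(nat_lit 40173837), (nat_lit 25770221), (nat_lit 19310217), (nat_lit 12946273)] (nat_lit 27030628)) p12_12_0 (nat_lit 4) (nat_lit 139) (nat_lit 140) = true := by decide +kernel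
def p12_12_0_140 : pfC (piC [(nat_lit 40173837), (nat_lit 25770221), (nat_lit 19310217), (nat_lit 12946273)] (nat_lit 27030628)) p12_12_0 (nat_lit 4) (nat_lit 140) (nat_lit 141) = true := by decide +kernel
def p12_12_0_141 : pfC (piC [(nat_lit 40173837), (nat_lit 25770221), (nat_lit 19310217), (nat_lit 12946273)] (nat_lit 27030628)) p12_12_0 (nat_lit 4) (nat_lit 141) (nat_lit 142) = true := by decide +kernel
def p12_12_0_142 : pfC (piC [(nat_lit 40173837), (nat_lit 25770221), (nat_lit 19310217), (nat_lit 12946273)] (nat_lit 27030628)) p12_12_0 (nat_lit 4) (nat_lit 142) (nat_lit 143) = true := by decide +kernel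
def p12_12_0_143 : pfC (piC [(nat_lit 40173837), (nat_lit 25770221), (nat_lit 19310217), (nat_lit 12946273)] (nat_lit 27030628)) p12_12_0 (nat_lit 4) (nat_lit 143) (nat_lit 144) = true := by decide +kernel
def p12_12_0_144 : pfC (piC [(nat_lit 40173837), (nat_lit 25770221), (nat_lit 19310217), (nat_lit 12946273)] (nat_lit 27030628)) p12_12_0 (nat_lit 4) (nat_lit 144) (nat_lit 145) = true := by decide +kernel
def p12_12_0_145 : pfC (piC [(nat_lit 40173837), (nat_lit 25770221), (nat_lit 19310217), (nat_lit 12946273)] (nat_lit 27030628)) p12_12_0 (nat_lit 4) (nat_lit 145) (nat_lit 146) = true := by decide +kernel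
def p12_12_0_146 : pfC (piC [(nat_lit 40173837), (nat_lit 25770221), (nat_lit 19310217), (nat_lit 12946273)] (nat_lit 27030628)) p12_12_0 (nat_lit 4) (nat_lit 146) (nat_lit 147) = true := by decide +kernel
def p12_12_0_147 : pfC (piC [(nat_lit 40173837), (nat_lit 25770221), (nat_lit 19310217), (nat_lit 12946273)] (nat_lit 27030628)) p12_12_0 (nat_lit 4) (nat_lit 147) (nat_lit 148) = true := by decide +kernel
def p12_12_0_148 : pfC (piC [(nat_lit 40173837), (nat_lit 25770221), (nat_lit 19310217), (nat_lit 12946273)] (nat_lit 27030628)) p12_12_0 (nat_lit 4) (nat_lit 148) (nat_lit 149) = true := by decide +kernel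
def p12_12_0_149 : pfC (piC [(nat_lit 40173837), (nat_lit 25770221), (nat_lit 19310217), (nat_lit 12946273)] (nat_lit 27030628)) p12_12_0 (nat_lit 4) (nat_lit 149) (nat_lit 150) = true := by decide +kernel
def p12_12_0_150 : pfC (piC [(nat_lit 40173837), (nat_lit 25770221), (nat_lit 19310217), (nat_lit 12946273)] (nat_lit 27030628)) p12_12_0 (nat_lit 4) (nat_lit 150) (nat_lit 151) = true := by decide +kernel
def p12_12_0_151 : pfC (piC [(nat_lit 40173837), (nat_lit 25770221), (nat_lit 19310217), (nat_lit 12946273)] (nat_lit 27030628)) p12_12_0 (nat_lit 4) (nat_lit 151) (nat_lit 152) = true := by decide +kernel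
def p12_12_0_152 : pfC (piC [(nat_lit 40173837), (nat_lit 25770221), (nat_lit 19310217), (nat_lit 12946273)] (nat_lit 27030628)) p12_12_0 (nat_lit 4) (nat_lit 152) (nat_lit 153) = true := by decide +kernel
def p12_12_0_153 : pfC (piC [(nat_lit 40173837), (nat_lit 25770221), (nat_lit 19310217), (nat_lit 12946273)] (nat_lit 27030628)) p12_12_0 (nat_lit 4) (nat_lit 153) (nat_lit 154) = true := by decide +kernel
def p12_12_0_154 : pfC (piC [(nat_lit 40173837), (nat_lit 25770221), (nat_lit 19310217), (nat_lit 12946273)] (nat_lit 27030628)) p12_12_0 (nat_lit 4) (nat_lit 154) (nat_lit 155) = true := by decide +kernel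
def p12_12_0_155 : pfC (piC [(nat_lit 40173837), (nat_lit 25770221), (nat_lit 19310217), (nat_lit 12946273)] (nat_lit 27030628)) p12_12_0 (nat_lit 4) (nat_lit 155) (nat_lit 156) = true := by decide +kernel
def p12_12_0_156 : pfC (piC [(nat_lit 40173837), (nat_lit 25770221), (nat_lit 19310217), (nat_lit 12946273)] (nat_lit 27030628)) p12_12_0 (nat_lit 4) (nat_lit 156) (nat_lit 157) = true := by decide +kernel
def p12_12_0_157 : pfC (piC [(nat_lit 40173837), (nat_lit 25770221), (nat_lit 19310217), (nat_lit 12946273)] (nat_lit 27030628)) p12_12_0 (nat_lit 4) (nat_lit 157) (nat_lit 158) = true := by decide +kernel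
def p12_12_0_158 : pfC (piC [(nat_lit 40173837), (nat_lit 25770221), (nat_lit 19310217), (nat_lit 12946273)] (nat_lit 27030628)) p12_12_0 (nat_lit 4) (nat_lit 158) (nat_lit 159) = true := by decide +kernel
def p12_12_0_159 : pfC (piC [(nat_lit 40173837), (nat_lit 25770221), (nat_lit 19310217), (nat_lit 12946273)] (nat_lit 27030628)) p12_12_0 (nat_lit 4) (nat_lit 159) (nat_lit 160) = true := by decide +kernel
def p12_12_0_160 : pfC (piC [(nat_lit 40173837), (nat_lit 25770221), (nat_lit 19310217), (nat_lit 12946273)] (nat_lit 27030628)) p12_12_0 (nat_lit 4) (nat_lit 160) (nat_lit 161) = true := by decide +kernel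
def p12_12_0_161 : pfC (piC [(nat_lit 40173837), (nat_lit 25770221), (nat_lit 19310217), (nat_lit 12946273)] (nat_lit 27030628)) p12_12_0 (nat_lit 4) (nat_lit 161) (nat_lit 162) = true := by decide +kernel
def p12_12_0_162 : pfC (piC [(nat_lit 40173837), (nat_lit 25770221), (nat_lit 19310217), (nat_lit 12946273)] (nat_lit 27030628)) p12_12_0 (nat_lit 4) (nat_lit 162) (nat_lit 163) = true := by decide +kernel
def p12_12_0_163 : pfC (piC [(nat_lit 40173837), (nat_lit 25770221), (nat_lit 19310217), (nat_lit 12946273)] (nat_lit 27030628)) p12_12_0 (nat_lit 4) (nat_lit 163) (nat_lit 164) = true := by decide +kernel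
def p12_12_0_164 : pfC (piC [(nat_lit 40173837), (nat_lit 25770221), (nat_lit 19310217), (nat_lit 12946273)] (nat_lit 27030628)) p12_12_0 (nat_lit 4) (nat_lit 164) (nat_lit 165) = true := by decide +kernel
def p12_12_0_165 : pfC (piC [(nat_lit 40173837), (nat_lit 25770221), (nat_lit 19310217), (nat_lit 12946273)] (nat_lit 27030628)) p12_12_0 (nat_lit 4) (nat_lit 165) (nat_lit 166) = true := by decide +kernel
def p12_12_0_166 : pfC (piC [(nat_lit 40173837), (nat_lit 25770221), (nat_lit 19310217), (nat_lit 12946273)] (nat_lit 27030628)) p12_12_0 (nat_lit 4) (nat_lit 166) (nat_lit 167) = true := by decide +kernel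
def p12_12_0_167 : pfC (piC [(nat_lit 40173837), (nat_lit 25770221), (nat_lit 19310217), (nat_lit 12946273)] (nat_lit 27030628)) p12_12_0 (nat_lit 4) (nat_lit 167) (nat_lit 168) = true := by decide +kernel
def p12_12_0_168 : pfC (piC [(nat_lit 40173837), (nat_lit 25770221), (nat_lit 19310217), (nat_lit 12946273)] (nat_lit 27030628)) p12_12_0 (nat_lit 4) (nat_lit 168) (nat_lit 169) = true := by decide +kernel
def p12_12_0_169 : pfC (piC [(nat_lit 40173837), (nat_lit 25770221), (nat_lit 19310217), (nat_lit 12946273)] (nat_lit 27030628)) p12_12_0 (nat_lit 4) (nat_lit 169) (nat_lit 170) = true := by decide +kernel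
def p12_12_0_170 : pfC (piC [(nat_lit 40173837), (nat_lit 25770221), (nat_lit 19310217), (nat_lit 12946273)] (nat_lit 27030628)) p12_12_0 (nat_lit 4) (nat_lit 170) (nat_lit 171) = true := by decide +kernel
def p12_12_0_171 : pfC (piC [(nat_lit 40173837), (nat_lit 25770221), (nat_lit 19310217), (nat_lit 12946273)] (nat_lit 27030628)) p12_12_0 (nat_lit 4) (nat_lit 171) (nat_lit 172) = true := by decide +kernel
def p12_12_0_172 : pfC (piC [(nat_lit 40173837), (nat_lit 25770221), (nat_lit 19310217), (nat_lit 12946273)] (nat_lit 27030628)) p12_12_0 (nat_lit 4) (nat_lit 172) (nat_lit 173) = true := by decide +kernel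
def p12_12_0_173 : pfC (piC [(nat_lit 40173837), (nat_lit 25770221), (nat_lit 19310217), (nat_lit 12946273)] (nat_lit 27030628)) p12_12_0 (nat_lit 4) (nat_lit 173) (nat_lit 174) = true := by decide +kernel
def p12_12_0_174 : pfC (piC [(nat_lit 40173837), (nat_lit 25770221), (nat_lit 19310217), (nat_lit 12946273)] (nat_lit 27030628)) p12_12_0 (nat_lit 4) (nat_lit 174) (nat_lit 175) = true := by decide +kernel
def p12_12_0_175 : pfC (piC [(nat_lit 40173837), (nat_lit 25770221), (nat_lit 19310217), (nat_lit 12946273)] (nat_lit 27030628)) p12_12_0 (nat_lit 4) (nat_lit 175) (nat_lit 176) = true := by decide +kernel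
def p12_12_0_176 : pfC (piC [(nat_lit 40173837), (nat_lit 25770221), (nat_lit 19310217), (nat_lit 12946273)] (nat_lit 27030628)) p12_12_0 (nat_lit 4) (nat_lit 176) (nat_lit 177) = true := by decide +kernel
def p12_12_0_177 : pfC (piC [(nat_lit 40173837), (nat_lit 25770221), (nat_lit 19310217), (nat_lit 12946273)] (nat_lit 27030628)) p12_12_0 (nat_lit 4) (nat_lit 177) (nat_lit 178) = true := by decide +kernel
def p12_12_0_178 : pfC (piC [(nat_lit 40173837), (nat_lit 25770221), (nat_lit 19310217), (nat_lit 12946273)] (nat_lit 27030628)) p12_12_0 (nat_lit 4) (nat_lit 178) (nat_lit 179) = true := by decide +kernel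
def p12_12_0_179 : pfC (piC [(nat_lit 40173837), (nat_lit 25770221), (nat_lit 19310217), (nat_lit 12946273)] (nat_lit 27030628)) p12_12_0 (nat_lit 4) (nat_lit 179) (nat_lit 180) = true := by decide +kernel
def p12_12_0_180 : pfC (piC [(nat_lit 40173837), (nat_lit 25770221), (nat_lit 19310217), (nat_lit 12946273)] (nat_lit 27030628)) p12_12_0 (nat_lit 4) (nat_lit 180) (nat_lit 181) = true := by decide +kernel
def p12_12_0_181 : pfC (piC [(nat_lit 40173837), (nat_lit 25770221), (nat_lit 19310217), (nat_lit 12946273)] (nat_lit 27030628)) p12_12_0 (nat_lit 4) (nat_lit 181) (nat_lit 182) = true := by decide +kernel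
def p12_12_0_182 : pfC (piC [(nat_lit 40173837), (nat_lit 25770221), (nat_lit 19310217), (nat_lit 12946273)] (nat_lit 27030628)) p12_12_0 (nat_lit 4) (nat_lit 182) (nat_lit 183) = true := by decide +kernel
def p12_12_0_183 : pfC (piC [(nat_lit 40173837), (nat_lit 25770221), (nat_lit 19310217), (nat_lit 12946273)] (nat_lit 27030628)) p12_12_0 (nat_lit 4) (nat_lit 183) (nat_lit 184) = true := by decide +kernel
def p12_12_0_184 : pfC (piC [(nat_lit 40173837), (nat_lit 25770221), (nat_lit 19310217), (nat_lit 12946273)] (nat_lit 27030628)) p12_12_0 (nat_lit 4) (nat_lit 184) (nat_lit 185) = true := by decide +kernel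
def p12_12_0_185 : pfC (piC [(nat_lit 40173837), (nat_lit 25770221), (nat_lit 19310217), (nat_lit 12946273)] (nat_lit 27030628)) p12_12_0 (nat_lit 4) (nat_lit 185) (nat_lit 186) = true := by decide +kernel
def p12_12_0_186 : pfC (piC [(nat_lit 40173837), (nat_lit 25770221), (nat_lit 19310217), (nat_lit 12946273)] (nat_lit 27030628)) p12_12_0 (nat_lit 4) (nat_lit 186) (nat_lit 187) = true := by decide +kernel
def p12_12_0_187 : pfC (piC [(nat_lit 40173837), (nat_lit 25770221), (nat_lit 19310217), (nat_lit 12946273)] (nat_lit 27030628)) p12_12_0 (nat_lit 4) (nat_lit 187) (nat_lit 188) = true := by decide +kernel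
def p12_12_0_188 : pfC (piC [(nat_lit 40173837), (nat_lit 25770221), (nat_lit 19310217), (nat_lit 12946273)] (nat_lit 27030628)) p12_12_0 (nat_lit 4) (nat_lit 188) (nat_lit 189) = true := by decide +kernel
def p12_12_0_189 : pfC (piC [(nat_lit 40173837), (nat_lit 25770221), (nat_lit 19310217), (nat_lit 12946273)] (nat_lit 27030628)) p12_12_0 (nat_lit 4) (nat_lit 189) (nat_lit 190) = true := by decide +kernel
def p12_12_0_190 : pfC (piC [(nat_lit 40173837), (nat_lit 25770221), (nat_lit 19310217), (nat_lit 12946273)] (nat_lit 27030628)) p12_12_0 (nat_lit 4) (nat_lit 190) (nat_lit 191) = true := by decide +kernel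
def p12_12_0_191 : pfC (piC [(nat_lit 40173837), (nat_lit 25770221), (nat_lit 19310217), (nat_lit 12946273)] (nat_lit 27030628)) p12_12_0 (nat_lit 4) (nat_lit 191) (nat_lit 192) = true := by decide +kernel
def p12_12_0_192 : pfC (piC [(nat_lit 40173837), (nat_lit 25770221), (nat_lit 19310217), (nat_lit 12946273)] (nat_lit 27030628)) p12_12_0 (nat_lit 4) (nat_lit 192) (nat_lit 193) = true := by decide +kernel
def p12_12_0_193 : pfC (piC [(nat_lit 40173837), (nat_lit 25770221), (nat_lit 19310217), (nat_lit 12946273)] (nat_lit 27030628)) p12_12_0 (nat_lit 4) (nat_lit 193) (nat_lit 194) = true := by decide +kernel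
def p12_12_0_194 : pfC (piC [(nat_lit 40173837), (nat_lit 25770221), (nat_lit 19310217), (nat_lit 12946273)] (nat_lit 27030628)) p12_12_0 (nat_lit 4) (nat_lit 194) (nat_lit 195) = true := by decide +kernel
def p12_12_0_195 : pfC (piC [(nat_lit 40173837), (nat_lit 25770221), (nat_lit 19310217), (nat_lit 12946273)] (nat_lit 27030628)) p12_12_0 (nat_lit 4) (nat_lit 195) (nat_lit 196) = true := by decide +kernel
def p12_12_0_196 : pfC (piC [(nat_lit 40173837), (nat_lit 25770221), (nat_lit 19310217), (nat_lit 12946273)] (nat_lit 27030628)) p12_12_0 (nat_lit 4) (nat_lit 196) (nat_lit 197) = true := by decide +kernel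
def p12_12_0_197 : pfC (piC [(nat_lit 40173837), (nat_lit 25770221), (nat_lit 19310217), (nat_lit 12946273)] (nat_lit 27030628)) p12_12_0 (nat_lit 4) (nat_lit 197) (nat_lit 198) = true := by decide +kernel
def p12_12_0_198 : pfC (piC [(nat_lit 40173837), (nat_lit 25770221), (nat_lit 19310217), (nat_lit 12946273)] (nat_lit 27030628)) p12_12_0 (nat_lit 4) (nat_lit 198) (nat_lit 199) = true := by decide +kernel
def p12_12_0_199 : pfC (piC [(nat_lit 40173837), (nat_lit 25770221), (nat_lit 19310217), (nat_lit 12946273)] (nat_lit 27030628)) p12_12_0 (nat_lit 4) (nat_lit 199) (nat_lit 200) = true := by decide +kernel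
def p12_12_0_200 : pfC (piC [(nat_lit 40173837), (nat_lit 25770221), (nat_lit 19310217), (nat_lit 12946273)] (nat_lit 27030628)) p12_12_0 (nat_lit 4) (nat_lit 200) (nat_lit 201) = true := by decide +kernel
def p12_12_0_201 : pfC (piC [(nat_lit 40173837), (nat_lit 25770221), (nat_lit 19310217), (nat_lit 12946273)] (nat_lit 27030628)) p12_12_0 (nat_lit 4) (nat_lit 201) (nat_lit 202) = true := by decide +kernel
def p12_12_0_202 : pfC (piC [(nat_lit 40173837), (nat_lit 25770221), (nat_lit 19310217), (nat_lit 12946273)] (nat_lit 27030628)) p12_12_0 (nat_lit 4) (nat_lit 202) (nat_lit 203) = true := by decide +kernel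
def p12_12_0_203 : pfC (piC [(nat_lit 40173837), (nat_lit 25770221), (nat_lit 19310217), (nat_lit 12946273)] (nat_lit 27030628)) p12_12_0 (nat_lit 4) (nat_lit 203) (nat_lit 204) = true := by decide +kernel
def p12_12_0_204 : pfC (piC [(nat_lit 40173837), (nat_lit 25770221), (nat_lit 19310217), (nat_lit 12946273)] (nat_lit 27030628)) p12_12_0 (nat_lit 4) (nat_lit 204) (nat_lit 205) = true := by decide +kernel
def p12_12_0_205 : pfC (piC [(nat_lit 40173837), (nat_lit 25770221), (nat_lit 19310217), (nat_lit 12946273)] (nat_lit 27030628)) p12_12_0 (nat_lit 4) (nat_lit 205) (nat_lit 206) = true := by decide +kernel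
def p12_12_0_206 : pfC (piC [(nat_lit 40173837), (nat_lit 25770221), (nat_lit 19310217), (nat_lit 12946273)] (nat_lit 27030628)) p12_12_0 (nat_lit 4) (nat_lit 206) (nat_lit 207) = true := by decide +kernel
def p12_12_0_207 : pfC (piC [(nat_lit 40173837), (nat_lit 25770221), (nat_lit 19310217), (nat_lit 12946273)] (nat_lit 27030628)) p12_12_0 (nat_lit 4) (nat_lit 207) (nat_lit 208) = true := by decide +kernel
def p12_12_0_208 : pfC (piC [(nat_lit 40173837), (nat_lit 25770221), (nat_lit 19310217), (nat_lit 12946273)] (nat_lit 27030628)) p12_12_0 (nat_lit 4) (nat_lit 208) (nat_lit 209) = true := by decide +kernel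
def p12_12_0_209 : pfC (piC [(nat_lit 40173837), (nat_lit 25770221), (nat_lit 19310217), (nat_lit 12946273)] (nat_lit 27030628)) p12_12_0 (nat_lit 4) (nat_lit 209) (nat_lit 210) = true := by decide +kernel
def p12_12_0_210 : pfC (piC [(nat_lit 40173837), (nat_lit 25770221), (nat_lit 19310217), (nat_lit 12946273)] (nat_lit 27030628)) p12_12_0 (nat_lit 4) (nat_lit 210) (nat_lit 211) = true := by decide +kernel
def p12_12_0_211 : pfC (piC [(nat_lit 40173837), (nat_lit 25770221), (nat_lit 19310217), (nat_lit 12946273)] (nat_lit 27030628)) p12_12_0 (nat_lit 4) (nat_lit 211) (nat_lit 212) = true := by decide +kernel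
def p12_12_0_212 : pfC (piC [(nat_lit 40173837), (nat_lit 25770221), (nat_lit 19310217), (nat_lit 12946273)] (nat_lit 27030628)) p12_12_0 (nat_lit 4) (nat_lit 212) (nat_lit 213) = true := by decide +kernel
def p12_12_0_213 : pfC (piC [(nat_lit 40173837), (nat_lit 25770221), (nat_lit 19310217), (nat_lit 12946273)] (nat_lit 27030628)) p12_12_0 (nat_lit 4) (nat_lit 213) (nat_lit 214) = true := by decide +kernel
def p12_12_0_214 : pfC (piC [(nat_lit 40173837), (nat_lit 25770221), (nat_lit 19310217), (nat_lit 12946273)] (nat_lit 27030628)) p12_12_0 (nat_lit 4) (nat_lit 214) (nat_lit 215) = true := by decide +kernel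
def p12_12_0_215 : pfC (piC [(nat_lit 40173837), (nat_lit 25770221), (nat_lit 19310217), (nat_lit 12946273)] (nat_lit 27030628)) p12_12_0 (nat_lit 4) (nat_lit 215) (nat_lit 216) = true := by decide +kernel
def p12_12_0_216 : pfC (piC [(nat_lit 40173837), (nat_lit 25770221), (nat_lit 19310217), (nat_lit 12946273)] (nat_lit 27030628)) p12_12_0 (nat_lit 4) (nat_lit 216) (nat_lit 217) = true := by decide +kernel
theorem p12_12_0_T : PfS (PiF n12_12.reverse (nat_lit 27030628)) p12_12_0 (nat_lit 4) [] 0 :=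
  pftab_of (los := [(nat_lit 40173837), (nat_lit 25770221), (nat_lit 19310217), (nat_lit 12946273)]) (by decide +kernel) (hi := (nat_lit 217)) (PfP.trans (PfP.trans (PfP.trans (PfP.trans (PfP.trans (PfP.trans (PfP.trans (PfP.trans (PfP.trans (PfP.trans (PfP.trans (PfP.trans (PfP.trans (PfP.trans (PfP.trans (PfP.trans (PfP.trans (PfP.trans (PfP.trans (PfP.trans (PfP.trans (PfP.trans (PfP.trans (PfP.trans (PfP.trans (PfP.trans (PfP.trans (PfP.trans (PfP.trans (PfP.trans (PfP.trans (PfP.trans (PfP.trans (PfP.trans (PfP.trans (PfP.trans (PfP.trans (PfP.trans (PfP.trans (PfP.trans (PfP.trans (PfP.trans (PfP.trans (PfP.trans (PfP.trans (PfP.trans (PfP.trans (PfP.trans (PfP.trans (PfP.trans (PfP.trans (PfP.trans (PfP.trans (PfP.trans (PfP.trans (PfP.trans (PfP.trans (PfP.trans (PfP.trans (PfP.trans (PfP.trans (PfP.trans (PfP.trans (PfP.trans (PfP.trans (PfP.trans (PfP.trans (PfP.trans (PfP.trans (PfP.trans (PfP.trans (PfP.trans (PfP.trans (PfP.trans (PfP.trans (PfP.trans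 (PfP.trans (PfP.trans (PfP.trans (PfP.trans (PfP.trans (PfP.trans (PfP.trans (PfP.trans (PfP.trans (PfP.trans (PfP.trans (PfP.trans (PfP.trans (PfP.trans (PfP.trans (PfP.trans (PfP.trans (PfP.trans (PfP.trans (PfP.trans (PfP.trans (PfP.trans (PfP.trans (PfP.trans (PfP.trans (PfP.trans (PfP.trans (PfP.trans (PfP.trans (PfP.trans (PfP.trans (PfP.trans (PfP.trans
 (PfP.trans (PfP.trans (PfP.trans (PfP.trans (PfP.trans (PfP.trans (PfP.trans (PfP.trans (PfP.trans (PfP.trans (PfP.trans (PfP.trans (PfP.trans (PfP.trans (PfP.trans (PfP.trans (PfP.trans (PfP.trans (PfP.trans (PfP.trans (PfP.trans (PfP.trans (PfP.trans (PfP.trans (PfP.trans (PfP.trans (PfP.trans (PfP.trans (PfP.trans (PfP.trans (PfP.trans (PfP.trans (PfP.trans (PfP.trans (PfP.trans (PfP.trans (PfP.trans (PfP.trans (PfP.trans (PfP.trans (PfP.trans (PfP.trans (PfP.trans (PfP.trans (PfP.trans (PfP.trans (PfP.trans (PfP.trans (PfP.trans (PfP.trans (PfP.trans (PfP.trans (PfP.trans (PfP.trans (PfP.trans (PfP.trans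 (PfP.trans (PfP.trans (PfP.trans (PfP.trans (PfP.trans (PfP.trans (PfP.trans (PfP.trans (PfP.trans (PfP.trans (PfP.trans (PfP.trans (PfP.trans (PfP.trans (PfP.trans (PfP.trans (PfP.trans (PfP.trans (PfP.trans (PfP.trans (PfP.trans (PfP.trans (PfP.trans (PfP.trans (PfP.trans (PfP.trans (PfP.trans (PfP.trans (PfP.trans (PfP.trans (PfP.trans (PfP.trans (PfP.trans (PfP.trans (PfP.trans (PfP.trans (PfP.trans (PfP.trans (PfP.trans (PfP.trans (PfP.trans (PfP.trans (PfP.trans (PfP.trans (PfP.trans (PfP.trans (PfP.trans (PfP.trans (PfP.trans (PfP.trans (PfP.trans (pfC_sound p12_12_0_0)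
 (pfC_sound p12_12_0_1)) (pfC_sound p12_12_0_2)) (pfC_sound p12_12_0_3)) (pfC_sound p12_12_0_4)) (pfC_sound p12_12_0_5)) (pfC_sound p12_12_0_6)) (pfC_sound p12_12_0_7)) (pfC_sound p12_12_0_8)) (pfC_sound p12_12_0_9)) (pfC_sound p12_12_0_10)) (pfC_sound p12_12_0_11)) (pfC_sound p12_12_0_12)) (pfC_sound p12_12_0_13)) (pfC_sound p12_12_0_14)) (pfC_sound p12_12_0_15)) (pfC_sound p12_12_0_16)) (pfC_sound p12_12_0_17)) (pfC_sound p12_12_0_18)) (pfC_sound p12_12_0_19)) (pfC_sound p12_12_0_20)) (pfC_sound p12_12_0_21)) (pfC_sound p12_12_0_22)) (pfC_sound p12_12_0_23)) (pfC_sound p12_12_0_24)) (pfC_sound p12_12_0_25)) (pfC_sound p12_12_0_26)) (pfC_sound p12_12_0_27)) (pfC_sound p12_12_0_28)) (pfC_sound p12_12_0_29)) (pfC_sound p12_12_0_30)) (pfC_sound p12_12_0_31)) (pfC_sound p12_12_0_32)) (pfC_sound p12_12_0_33)) (pfC_sound p12_12_0_34)) (pfC_sound p12_12_0_35)) (pfC_sound p12_12_0_36)) (pfC_sound p12_12_0_37)) (pfC_sound p12_12_0_38)) (pfC_sound p12_12_0_39)) (pfC_sound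 p12_12_0_40)) (pfC_sound p12_12_0_41)) (pfC_sound p12_12_0_42)) (pfC_sound p12_12_0_43)) (pfC_sound p12_12_0_44)) (pfC_sound p12_12_0_45)) (pfC_sound p12_12_0_46)) (pfC_sound p12_12_0_47)) (pfC_sound p12_12_0_48))
 (pfC_sound p12_12_0_49)) (pfC_sound p12_12_0_50)) (pfC_sound p12_12_0_51)) (pfC_sound p12_12_0_52)) (pfC_sound p12_12_0_53)) (pfC_sound p12_12_0_54)) (pfC_sound p12_12_0_55)) (pfC_sound p12_12_0_56)) (pfC_sound p12_12_0_57)) (pfC_sound p12_12_0_58)) (pfC_sound p12_12_0_59)) (pfC_sound p12_12_0_60)) (pfC_sound p12_12_0_61)) (pfC_sound p12_12_0_62)) (pfC_sound p12_12_0_63)) (pfC_sound p12_12_0_64)) (pfC_sound p12_12_0_65)) (pfC_sound p12_12_0_66)) (pfC_sound p12_12_0_67)) (pfC_sound p12_12_0_68)) (pfC_sound p12_12_0_69)) (pfC_sound p12_12_0_70)) (pfC_sound p12_12_0_71)) (pfC_sound p12_12_0_72)) (pfC_sound p12_12_0_73)) (pfC_sound p12_12_0_74)) (pfC_sound p12_12_0_75)) (pfC_sound p12_12_0_76)) (pfC_sound p12_12_0_77)) (pfC_sound p12_12_0_78)) (pfC_sound p12_12_0_79))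 (pfC_sound p12_12_0_80)) (pfC_sound p12_12_0_81)) (pfC_sound p12_12_0_82)) (pfC_sound p12_12_0_83)) (pfC_sound p12_12_0_84)) (pfC_sound p12_12_0_85)) (pfC_sound p12_12_0_86)) (pfC_sound p12_12_0_87)) (pfC_sound p12_12_0_88)) (pfC_sound p12_12_0_89)) (pfC_sound p12_12_0_90)) (pfC_sound p12_12_0_91)) (pfC_sound p12_12_0_92)) (pfC_sound p12_12_0_93)) (pfC_sound p12_12_0_94)) (pfC_sound p12_12_0_95)) (pfC_sound p12_12_0_96))
 (pfC_sound p12_12_0_97)) (pfC_sound p12_12_0_98)) (pfC_sound p12_12_0_99)) (pfC_sound p12_12_0_100)) (pfC_sound p12_12_0_101)) (pfC_sound p12_12_0_102)) (pfC_sound p12_12_0_103)) (pfC_sound p12_12_0_104)) (pfC_sound p12_12_0_105)) (pfC_sound p12_12_0_106)) (pfC_sound p12_12_0_107)) (pfC_sound p12_12_0_108)) (pfC_sound p12_12_0_109)) (pfC_sound p12_12_0_110)) (pfC_sound p12_12_0_111)) (pfC_sound p12_12_0_112)) (pfC_sound p12_12_0_113)) (pfC_sound p12_12_0_114)) (pfC_sound p12_12_0_115)) (pfC_sound p12_12_0_116)) (pfC_sound p12_12_0_117)) (pfC_sound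 p12_12_0_118)) (pfC_sound p12_12_0_119)) (pfC_sound p12_12_0_120)) (pfC_sound p12_12_0_121)) (pfC_sound p12_12_0_122)) (pfC_sound p12_12_0_123)) (pfC_sound p12_12_0_124)) (pfC_sound p12_12_0_125)) (pfC_sound p12_12_0_126)) (pfC_sound p12_12_0_127)) (pfC_sound p12_12_0_128)) (pfC_sound p12_12_0_129)) (pfC_sound p12_12_0_130)) (pfC_sound p12_12_0_131)) (pfC_sound p12_12_0_132)) (pfC_sound p12_12_0_133)) (pfC_sound p12_12_0_134)) (pfC_sound p12_12_0_135)) (pfC_sound p12_12_0_136)) (pfC_sound p12_12_0_137)) (pfC_sound p12_12_0_138)) (pfC_sound p12_12_0_139)) (pfC_sound p12_12_0_140)) (pfC_sound p12_12_0_141)) (pfC_sound p12_12_0_142))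
 (pfC_sound p12_12_0_143)) (pfC_sound p12_12_0_144)) (pfC_sound p12_12_0_145)) (pfC_sound p12_12_0_146)) (pfC_sound p12_12_0_147)) (pfC_sound p12_12_0_148)) (pfC_sound p12_12_0_149)) (pfC_sound p12_12_0_150)) (pfC_sound p12_12_0_151)) (pfC_sound p12_12_0_152)) (pfC_sound p12_12_0_153)) (pfC_sound p12_12_0_154)) (pfC_sound p12_12_0_155)) (pfC_sound p12_12_0_156)) (pfC_sound p12_12_0_157)) (pfC_sound p12_12_0_158)) (pfC_sound p12_12_0_159)) (pfC_sound p12_12_0_160)) (pfC_sound p12_12_0_161)) (pfC_sound p12_12_0_162)) (pfC_sound p12_12_0_163)) (pfC_sound p12_12_0_164)) (pfC_sound p12_12_0_165)) (pfC_sound p12_12_0_166)) (pfC_sound p12_12_0_167)) (pfC_sound p12_12_0_168)) (pfC_sound p12_12_0_169)) (pfC_sound p12_12_0_170)) (pfC_sound p12_12_0_171)) (pfC_sound p12_12_0_172)) (pfC_sound p12_12_0_173)) (pfC_sound p12_12_0_174)) (pfC_sound p12_12_0_175)) (pfC_sound p12_12_0_176)) (pfC_sound p12_12_0_177)) (pfC_sound p12_12_0_178)) (pfC_sound p12_12_0_179)) (pfC_sound p12_12_0_180))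 (pfC_sound p12_12_0_181)) (pfC_sound p12_12_0_182)) (pfC_sound p12_12_0_183)) (pfC_sound p12_12_0_184)) (pfC_sound p12_12_0_185)) (pfC_sound p12_12_0_186)) (pfC_sound p12_12_0_187)) (pfC_sound p12_12_0_188))
 (pfC_sound p12_12_0_189)) (pfC_sound p12_12_0_190)) (pfC_sound p12_12_0_191)) (pfC_sound p12_12_0_192)) (pfC_sound p12_12_0_193)) (pfC_sound p12_12_0_194)) (pfC_sound p12_12_0_195)) (pfC_sound p12_12_0_196)) (pfC_sound p12_12_0_197)) (pfC_sound p12_12_0_198)) (pfC_sound p12_12_0_199)) (pfC_sound p12_12_0_200)) (pfC_sound p12_12_0_201)) (pfC_sound p12_12_0_202)) (pfC_sound p12_12_0_203)) (pfC_sound p12_12_0_204)) (pfC_sound p12_12_0_205)) (pfC_sound p12_12_0_206)) (pfC_sound p12_12_0_207)) (pfC_sound p12_12_0_208)) (pfC_sound p12_12_0_209)) (pfC_sound p12_12_0_210)) (pfC_sound p12_12_0_211)) (pfC_sound p12_12_0_212)) (pfC_sound p12_12_0_213)) (pfC_sound p12_12_0_214)) (pfC_sound p12_12_0_215)) (pfC_sound p12_12_0_216)) (by decide +kernel)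

def z12_12_0 : zOK yB12_12 (nat_lit 0) (nat_lit 0) (nat_lit 400) (nat_lit 27030628) (nat_lit 10876725) = true := by decide +kernel
def g12_12_0 : gOK yB12_12.x P12_12 (nat_lit 1418) (q12_12 :: r12_12) (nat_lit 0) (nat_lit 0) (nat_lit 1) (nat_lit 400) (nat_lit 0) (nat_lit 11000000) (nat_lit 12712500) (nat_lit 12712500) [(nat_lit 800), (nat_lit 1400), (nat_lit 2200)] = true := by decide +kernel
def v12_12_0 : ivC P12_12 s12_12 w12_12 n12_12 (nat_lit 4) (nat_lit 5420) (nat_lit 0) (nat_lit 0) f152_1_0 f160_1_0 (nat_lit 1) (nat_lit 400) f152_1_400 f160_1_400 (nat_lit 27030628) (nat_lit 10876725) p12_12_0 = true := by decide +kernel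
def p12_12_1 : PF := (PF.cons (PF.cons (PF.cons (PF.cons (PF.leaf (nat_lit 2015602) (nat_lit 9327270) (nat_lit 57781542) (nat_lit 9327270) [(nat_lit 0), (nat_lit 0), (nat_lit 0), (nat_lit 0)]) (PF.cons (PF.leaf (nat_lit 2166101) (nat_lit 251821) (nat_lit 57505351) (nat_lit 9351640) [(nat_lit 251821), (nat_lit 0), (nat_lit 0), (nat_lit 0)]) (PF.cons (PF.leaf (nat_lit 2345359) (nat_lit 274377) (nat_lit 57181665) (nat_lit 9378393) [(nat_lit 274377), (nat_lit 0), (nat_lit 0), (nat_lit 0)]) (PF.cons (PF.leaf (nat_lit 2547130) (nat_lit 294571) (nat_lit 56818931) (nat_lit 9406165) [(nat_lit 294571), (nat_lit 0), (nat_lit 0), (nat_lit 0)]) (PF.cons (PF.leaf (nat_lit 2768562) (nat_lit 312940) (nat_lit 56423121) (nat_lit 9433927) [(nat_lit 312940), (nat_lit 0), (nat_lit 0), (nat_lit 0)]) (PF.cons (PF.leaf (nat_lit 3007216) (nat_lit 329819) (nat_lit 55998844) (nat_lit 9460868) [(nat_lit 329819), (nat_lit 0), (nat_lit 0), (nat_lit 0)]) (PF.cons (PF.leaf (nat_lit 3261265) (nat_lit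 345435) (nat_lit 55549863) (nat_lit 9486338) [(nat_lit 345435), (nat_lit 0), (nat_lit 0), (nat_lit 0)]) (PF.cons (PF.leaf (nat_lit 3529072) (nat_lit 359946) (nat_lit 55079367) (nat_lit 9509819) [(nat_lit 359946), (nat_lit 0), (nat_lit
 0), (nat_lit 0)]) (PF.cons PF.nil (PF.cons PF.nil PF.nil)))))))))) (PF.cons (PF.cons (PF.leaf (nat_lit 2557814) (nat_lit 1217526) (nat_lit 56466775) (nat_lit 9424511) [(nat_lit 0), (nat_lit 1217526), (nat_lit 0), (nat_lit 0)]) (PF.cons (PF.leaf (nat_lit 2755235) (nat_lit 306696) (nat_lit 56104807) (nat_lit 9447887) [(nat_lit 306696), (nat_lit 1249421), (nat_lit 0), (nat_lit 0)]) (PF.cons (PF.leaf (nat_lit 2974526) (nat_lit 324376) (nat_lit 55707929) (nat_lit 9471175) [(nat_lit 324376), (nat_lit 1280954), (nat_lit 0), (nat_lit 0)]) (PF.cons (PF.leaf (nat_lit 3211673) (nat_lit 340551) (nat_lit 55282004) (nat_lit 9493546) [(nat_lit 340551), (nat_lit 1311607), (nat_lit 0), (nat_lit 0)]) (PF.cons (PF.leaf (nat_lit 3464444) (nat_lit 355474)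 (nat_lit 54831442) (nat_lit 9514371) [(nat_lit 355474), (nat_lit 1341100), (nat_lit 0), (nat_lit 0)]) (PF.cons (PF.leaf (nat_lit 3731026) (nat_lit 369316) (nat_lit 54359790) (nat_lit 9533163) [(nat_lit 369316), (nat_lit 1369278), (nat_lit 0), (nat_lit 0)]) (PF.cons PF.nil (PF.cons PF.nil (PF.cons PF.nil PF.nil))))))))) (PF.cons (PF.cons (PF.leaf (nat_lit 3184813) (nat_lit 1316633) (nat_lit 54973848) (nat_lit 9501697) [(nat_lit 0), (nat_lit 1316633),
 (nat_lit 0), (nat_lit 0)]) (PF.cons (PF.leaf (nat_lit 3417841) (nat_lit 349923) (nat_lit 54551076) (nat_lit 9519509) [(nat_lit 349923), (nat_lit 1344151), (nat_lit 0), (nat_lit 0)]) (PF.cons (PF.leaf (nat_lit 3668017) (nat_lit 364336) (nat_lit 54102655) (nat_lit 9535775) [(nat_lit 364336), (nat_lit 1370854), (nat_lit 0), (nat_lit 0)]) (PF.cons (PF.leaf (nat_lit 3932345) (nat_lit 377643) (nat_lit 53632854) (nat_lit 9550018) [(nat_lit 377643), (nat_lit 1396504), (nat_lit 0), (nat_lit 0)]) (PF.cons (PF.leaf (nat_lit 4209070)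 (nat_lit 389987) (nat_lit 53145053) (nat_lit 9561881) [(nat_lit 389987), (nat_lit 1420964), (nat_lit 0), (nat_lit 0)]) (PF.cons PF.nil (PF.cons PF.nil PF.nil))))))) (PF.cons (PF.cons (PF.leaf (nat_lit 3873532) (nat_lit 1398011) (nat_lit 53364074) (nat_lit 9550702) [(nat_lit 0), (nat_lit 1398011), (nat_lit 0), (nat_lit 0)]) (PF.cons (PF.leaf (nat_lit 4133697) (nat_lit 384970) (nat_lit 52899372) (nat_lit 9560584) [(nat_lit 384970), (nat_lit 1421295), (nat_lit 0), (nat_lit 0)]) (PF.cons (PF.leaf (nat_lit 4407365) (nat_lit 396882) (nat_lit 52416134) (nat_lit 9568146) [(nat_lit 396882), (nat_lit 1443588), (nat_lit 0), (nat_lit 0)]) (PF.cons (PF.leaf (nat_lit 4692149)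
 (nat_lit 407916) (nat_lit 51917588) (nat_lit 9573139) [(nat_lit 407916), (nat_lit 1464778), (nat_lit 0), (nat_lit 0)]) (PF.cons PF.nil PF.nil))))) (PF.cons (PF.cons (PF.leaf (nat_lit 4605958) (nat_lit 1464127) (nat_lit 51683733) (nat_lit 9568570) [(nat_lit 0), (nat_lit 1464127), (nat_lit 0), (nat_lit 0)]) (PF.cons (PF.leaf (nat_lit 4886446) (nat_lit 413579) (nat_lit 51191912) (nat_lit 9569598) [(nat_lit 413579), (nat_lit 1483430), (nat_lit 0), (nat_lit 0)]) (PF.cons PF.nil (PF.cons PF.nil PF.nil)))) (PF.cons (PF.cons (PF.leaf (nat_lit 5367424) (nat_lit 1516877) (nat_lit 49968908) (nat_lit 9555514) [(nat_lit 0), (nat_lit 1516877), (nat_lit 0), (nat_lit 0)]) (PF.cons PF.nil PF.nil)) (PF.cons PF.nil (PF.cons PF.nil PF.nil)))))))) (PF.cons (PF.cons (PF.cons (PF.leaf (nat_lit 3132621) (nat_lit 3233262) (nat_lit 54380935) (nat_lit 9494614) [(nat_lit 0), (nat_lit 0), (nat_lit 3233262), (nat_lit 0)]) (PF.cons (PF.leaf (nat_lit 3340759) (nat_lit 331907) (nat_lit 54005341)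 (nat_lit 9508274) [(nat_lit 331907), (nat_lit 0), (nat_lit 3263289), (nat_lit 0)]) (PF.cons (PF.leaf (nat_lit 3569772) (nat_lit 348572) (nat_lit 53596953) (nat_lit 9521033) [(nat_lit 348572), (nat_lit 0), (nat_lit
 3293680), (nat_lit 0)]) (PF.cons (PF.leaf (nat_lit 3815513) (nat_lit 363589) (nat_lit 53162036) (nat_lit 9532304) [(nat_lit 363589), (nat_lit 0), (nat_lit 3323702), (nat_lit 0)]) (PF.cons (PF.leaf (nat_lit 4075618) (nat_lit 377275) (nat_lit 52705199) (nat_lit 9541651) [(nat_lit 377275), (nat_lit 0), (nat_lit 3352861), (nat_lit 0)]) (PF.cons (PF.leaf (nat_lit 4348219) (nat_lit 389836) (nat_lit 52230061) (nat_lit 9548750) [(nat_lit 389836), (nat_lit 0), (nat_lit 3380817), (nat_lit 0)]) (PF.cons PF.nil PF.nil))))))) (PF.cons (PF.cons (PF.leaf (nat_lit 3776706) (nat_lit 1381780) (nat_lit 52861437) (nat_lit 9532664) [(nat_lit 0), (nat_lit 1381780), (nat_lit 3332930), (nat_lit 0)]) (PF.cons (PF.leaf (nat_lit 4017041) (nat_lit 370785) (nat_lit 52433568) (nat_lit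 9539995) [(nat_lit 370785), (nat_lit 1405099), (nat_lit 3359363), (nat_lit 0)]) (PF.cons (PF.leaf (nat_lit 4273303) (nat_lit 384098) (nat_lit 51982461) (nat_lit 9545426) [(nat_lit 384098), (nat_lit 1427570), (nat_lit 3385156), (nat_lit 0)]) (PF.cons (PF.leaf (nat_lit 4542590) (nat_lit 396248) (nat_lit 51512479) (nat_lit 9548648) [(nat_lit 396248), (nat_lit 1449012), (nat_lit 3409926), (nat_lit 0)]) (PF.cons (PF.leaf (nat_lit
 4823061) (nat_lit 407406) (nat_lit 51027006) (nat_lit 9549441) [(nat_lit 407406), (nat_lit 1469326), (nat_lit 3433413), (nat_lit 0)]) PF.nil))))) (PF.cons (PF.cons (PF.leaf (nat_lit 4472612) (nat_lit 1448616) (nat_lit 51254223) (nat_lit 9543558) [(nat_lit 0), (nat_lit 1448616), (nat_lit 3413798), (nat_lit 0)]) (PF.cons (PF.leaf (nat_lit 4736813) (nat_lit 401791) (nat_lit 50792189) (nat_lit 9543151) [(nat_lit 401791), (nat_lit 1468068), (nat_lit 3435544), (nat_lit 0)]) (PF.cons (PF.leaf (nat_lit 5013329) (nat_lit 412618) (nat_lit 50313904) (nat_lit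 9540377) [(nat_lit 412618), (nat_lit 1486559), (nat_lit 3456174), (nat_lit 0)]) (PF.cons PF.nil PF.nil)))) (PF.cons (PF.cons (PF.leaf (nat_lit 5203730) (nat_lit 1502068) (nat_lit 49600391) (nat_lit 9526383) [(nat_lit 0), (nat_lit 1502068), (nat_lit 3475834), (nat_lit 0)]) (PF.cons (PF.leaf (nat_lit 5485332) (nat_lit 426723) (nat_lit 49117814) (nat_lit 9517893) [(nat_lit 426723), (nat_lit 1517926), (nat_lit 3492599), (nat_lit 0)]) PF.nil)) (PF.cons PF.nil (PF.cons PF.nil PF.nil)))))) (PF.cons (PF.cons (PF.cons (PF.leaf (nat_lit 4358267) (nat_lit 3401262) (nat_lit 50788885) (nat_lit 9517401) [(nat_lit 0), (nat_lit 0), (nat_lit 3401262),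
 (nat_lit 0)]) (PF.cons (PF.leaf (nat_lit 4603331) (nat_lit 387474) (nat_lit 50362593) (nat_lit 9515663) [(nat_lit 387474), (nat_lit 0), (nat_lit 3421540), (nat_lit 0)]) (PF.cons (PF.leaf (nat_lit 4863299) (nat_lit 399776) (nat_lit 49915272) (nat_lit 9511823) [(nat_lit 399776), (nat_lit 0), (nat_lit 3441081), (nat_lit 0)]) (PF.cons (PF.leaf (nat_lit 5135231) (nat_lit 410878) (nat_lit 49451277) (nat_lit 9505711) [(nat_lit 410878), (nat_lit 0), (nat_lit 3459594), (nat_lit 0)]) (PF.cons PF.nil PF.nil))))) (PF.cons (PF.cons (PF.leaf (nat_lit 5055386) (nat_lit 1486077) (nat_lit 49205409) (nat_lit 9496162) [(nat_lit 0), (nat_lit 1486077), (nat_lit 3460581), (nat_lit 0)]) (PF.cons (PF.leaf (nat_lit 5321517) (nat_lit 414925) (nat_lit 48751359) (nat_lit 9487124) [(nat_lit 414925), (nat_lit 1502251), (nat_lit 3476576), (nat_lit 0)]) (PF.cons (PF.leaf (nat_lit 5598966) (nat_lit 424775) (nat_lit 48283031) (nat_lit 9475754) [(nat_lit 424775), (nat_lit 1517498), (nat_lit 3491488),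 (nat_lit 0)]) (PF.cons PF.nil PF.nil)))) (PF.cons (PF.cons (PF.leaf (nat_lit 5780752) (nat_lit 1528850) (nat_lit 47593887) (nat_lit 9450186) [(nat_lit 0), (nat_lit 1528850), (nat_lit 3503519), (nat_lit 0)]) (PF.cons
 (PF.leaf (nat_lit 6061844) (nat_lit 436651) (nat_lit 47124527) (nat_lit 9433905) [(nat_lit 436651), (nat_lit 1541772), (nat_lit 3515091), (nat_lit 0)]) PF.nil)) (PF.cons PF.nil (PF.cons PF.nil PF.nil))))) (PF.cons (PF.cons (PF.cons (PF.leaf (nat_lit 5619735) (nat_lit 3486739) (nat_lit 47231940) (nat_lit 9416653) [(nat_lit 0), (nat_lit 0), (nat_lit 3486739), (nat_lit 0)]) (PF.cons (PF.leaf (nat_lit 5886153) (nat_lit 424961) (nat_lit 46789626) (nat_lit 9400503) [(nat_lit 424961), (nat_lit 0), (nat_lit 3497907), (nat_lit 0)]) (PF.cons (PF.leaf (nat_lit 6163046) (nat_lit 433933) (nat_lit 46334735) (nat_lit 9382106) [(nat_lit 433933), (nat_lit 0), (nat_lit 3508035), (nat_lit 0)]) (PF.cons PF.nil PF.nil)))) (PF.cons (PF.cons (PF.leaf (nat_lit 6336058) (nat_lit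 1546459) (nat_lit 45673389) (nat_lit 9347404) [(nat_lit 0), (nat_lit 1546459), (nat_lit 3513853), (nat_lit 0)]) (PF.cons PF.nil PF.nil)) (PF.cons PF.nil PF.nil))) (PF.cons (PF.cons (PF.cons (PF.leaf (nat_lit 6869395) (nat_lit 3510225) (nat_lit 43843676) (nat_lit 9224234) [(nat_lit 0), (nat_lit 0), (nat_lit 3510225), (nat_lit 0)]) (PF.cons PF.nil PF.nil)) (PF.cons PF.nil PF.nil)) (PF.cons PF.nil PF.nil)))))) (PF.cons (PF.cons
 (PF.cons (PF.cons (PF.leaf (nat_lit 4207222) (nat_lit 9297796) (nat_lit 48416340) (nat_lit 9297796) [(nat_lit 0), (nat_lit 0), (nat_lit 0), (nat_lit 9394675)]) (PF.cons (PF.leaf (nat_lit 4414537) (nat_lit 347036) (nat_lit 48077467) (nat_lit 9293956) [(nat_lit 347036), (nat_lit 0), (nat_lit 0), (nat_lit 9390352)]) (PF.cons (PF.leaf (nat_lit 4641126) (nat_lit 362636) (nat_lit 47710887) (nat_lit 9288388) [(nat_lit 362636), (nat_lit 0), (nat_lit 0), (nat_lit 9384264)]) (PF.cons (PF.leaf (nat_lit 4882752) (nat_lit 376386) (nat_lit 47322463) (nat_lit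 9280932) [(nat_lit 376386), (nat_lit 0), (nat_lit 0), (nat_lit 9376256)]) (PF.cons (PF.leaf (nat_lit 5137065) (nat_lit 388664) (nat_lit 46916462) (nat_lit 9271473) [(nat_lit 388664), (nat_lit 0), (nat_lit 0), (nat_lit 9366220)]) (PF.cons (PF.leaf (nat_lit 5402103) (nat_lit 399723) (nat_lit 46496184) (nat_lit 9259931) [(nat_lit 399723), (nat_lit 0), (nat_lit 0), (nat_lit 9354079)]) (PF.cons (PF.leaf (nat_lit 5676405) (nat_lit 409746) (nat_lit 46064282) (nat_lit 9246260) [(nat_lit 409746), (nat_lit 0), (nat_lit 0), (nat_lit 9339790)]) (PF.cons PF.nil (PF.cons PF.nil PF.nil))))))))) (PF.cons (PF.cons (PF.leaf (nat_lit 4830385) (nat_lit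
 1412740) (nat_lit 47061546) (nat_lit 9269770) [(nat_lit 0), (nat_lit 1412740), (nat_lit 0), (nat_lit 9364755)]) (PF.cons (PF.leaf (nat_lit 5065471) (nat_lit 381133) (nat_lit 46682148) (nat_lit 9260038) [(nat_lit 381133), (nat_lit 1431010), (nat_lit 0), (nat_lit 9354481)]) (PF.cons (PF.leaf (nat_lit 5314837) (nat_lit 393114) (nat_lit 46283854) (nat_lit 9248283) [(nat_lit 393114), (nat_lit 1448289), (nat_lit 0), (nat_lit 9342156)]) (PF.cons (PF.leaf (nat_lit 5575602) (nat_lit 403842) (nat_lit 45870608) (nat_lit 9234459) [(nat_lit 403842), (nat_lit 1464478), (nat_lit 0), (nat_lit 9327739)]) (PF.cons (PF.leaf (nat_lit 5845948) (nat_lit 413521) (nat_lit 45445427) (nat_lit 9218542) [(nat_lit 413521), (nat_lit 1479544), (nat_lit 0), (nat_lit 9311210)]) (PF.cons PF.nil (PF.cons PF.nil PF.nil))))))) (PF.cons (PF.cons (PF.leaf (nat_lit 5493931) (nat_lit 1461604) (nat_lit 45649799) (nat_lit 9221408) [(nat_lit 0), (nat_lit 1461604), (nat_lit 0), (nat_lit 9314396)]) (PF.cons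 (PF.leaf (nat_lit 5748823) (nat_lit 407223) (nat_lit 45245697) (nat_lit 9205553) [(nat_lit 407223), (nat_lit 1476190), (nat_lit 0), (nat_lit 9297957)]) (PF.cons (PF.leaf (nat_lit 6014521) (nat_lit 416657) (nat_lit
 44828832) (nat_lit 9187623) [(nat_lit 416657), (nat_lit 1489810), (nat_lit 0), (nat_lit 9279421)]) (PF.cons (PF.leaf (nat_lit 6288813) (nat_lit 425169) (nat_lit 44401989) (nat_lit 9167636) [(nat_lit 425169), (nat_lit 1502432), (nat_lit 0), (nat_lit 9258812)]) (PF.cons PF.nil PF.nil))))) (PF.cons (PF.cons (PF.leaf (nat_lit 6183331) (nat_lit 1498788) (nat_lit 44214274) (nat_lit 9153625) [(nat_lit 0), (nat_lit 1498788), (nat_lit 0), (nat_lit 9244547)]) (PF.cons (PF.leaf (nat_lit 6452222) (nat_lit 427481) (nat_lit 43796687) (nat_lit 9131897) [(nat_lit 427481), (nat_lit 1510180), (nat_lit 0), (nat_lit 9222204)]) (PF.cons (PF.leaf (nat_lit 6729295) (nat_lit 434982) (nat_lit 43370778) (nat_lit 9108184) [(nat_lit 434982), (nat_lit 1520674), (nat_lit 0), (nat_lit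 9197860)]) (PF.cons PF.nil PF.nil)))) (PF.cons (PF.cons (PF.leaf (nat_lit 6887721) (nat_lit 1526259) (nat_lit 42778499) (nat_lit 9068232) [(nat_lit 0), (nat_lit 1526259), (nat_lit 0), (nat_lit 9157043)]) (PF.cons PF.nil PF.nil)) (PF.cons PF.nil PF.nil)))))) (PF.cons (PF.cons (PF.cons (PF.leaf (nat_lit 5360406) (nat_lit 3380126) (nat_lit 45265463) (nat_lit 9185349) [(nat_lit 0), (nat_lit 0), (nat_lit 3380126), (nat_lit 9277873)])
 (PF.cons (PF.leaf (nat_lit 5597652) (nat_lit 392351) (nat_lit 44892711) (nat_lit 9170012) [(nat_lit 392351), (nat_lit 0), (nat_lit 3391747), (nat_lit 9261988)]) (PF.cons (PF.leaf (nat_lit 5848355) (nat_lit 403408) (nat_lit 44502836) (nat_lit 9152601) [(nat_lit 403408), (nat_lit 0), (nat_lit 3402557), (nat_lit 9244002)]) (PF.cons (PF.leaf (nat_lit 6109535) (nat_lit 413211) (nat_lit 44099685) (nat_lit 9133152) [(nat_lit 413211), (nat_lit 0), (nat_lit 3412385), (nat_lit 9223956)]) (PF.cons (PF.leaf (nat_lit 6379480) (nat_lit 421979) (nat_lit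 43686164) (nat_lit 9111705) [(nat_lit 421979), (nat_lit 0), (nat_lit 3421128), (nat_lit 9201895)]) (PF.cons PF.nil (PF.cons PF.nil PF.nil))))))) (PF.cons (PF.cons (PF.leaf (nat_lit 6020201) (nat_lit 1481513) (nat_lit 43891404) (nat_lit 9117877) [(nat_lit 0), (nat_lit 1481513), (nat_lit 3409622), (nat_lit 9208395)]) (PF.cons (PF.leaf (nat_lit 6275140) (nat_lit 415462) (nat_lit 43498405) (nat_lit 9096886) [(nat_lit 415462), (nat_lit 1493559), (nat_lit 3417682), (nat_lit 9186817)]) (PF.cons (PF.leaf (nat_lit 6540085) (nat_lit 424065) (nat_lit 43094098) (nat_lit 9073897) [(nat_lit 424065), (nat_lit 1504698), (nat_lit 3424766), (nat_lit 9163222)])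
 (PF.cons (PF.leaf (nat_lit 6812876) (nat_lit 431758) (nat_lit 42681149) (nat_lit 9048982) [(nat_lit 431758), (nat_lit 1514916), (nat_lit 3430802), (nat_lit 9137685)]) (PF.cons PF.nil PF.nil))))) (PF.cons (PF.cons (PF.leaf (nat_lit 6701004) (nat_lit 1510743) (nat_lit 42505139) (nat_lit 9033551) [(nat_lit 0), (nat_lit 1510743), (nat_lit 3426629), (nat_lit 9122006)]) (PF.cons (PF.leaf (nat_lit 6968131) (nat_lit 433159) (nat_lit 42102041) (nat_lit 9007340) [(nat_lit 433159), (nat_lit 1519933), (nat_lit 3431220), (nat_lit 9095183)]) (PF.cons PF.nil (PF.cons PF.nil PF.nil)))) (PF.cons (PF.cons (PF.leaf (nat_lit 7393007) (nat_lit 1531510) (nat_lit 41126795) (nat_lit 8934354) [(nat_lit 0), (nat_lit 1531510), (nat_lit 3432415), (nat_lit 9020715)]) (PF.cons PF.nil PF.nil)) (PF.cons PF.nil PF.nil))))) (PF.cons (PF.cons (PF.cons (PF.leaf (nat_lit 6528957) (nat_lit 3407953) (nat_lit 42210373) (nat_lit 8997232) [(nat_lit 0), (nat_lit 0), (nat_lit 3407953), (nat_lit 9085300)])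 (PF.cons (PF.leaf (nat_lit 6782901) (nat_lit 421474) (nat_lit 41830289) (nat_lit 8972099) [(nat_lit 421474), (nat_lit 0), (nat_lit 3412683), (nat_lit 9059581)]) (PF.cons (PF.leaf (nat_lit 7046175) (nat_lit 429336) (nat_lit
 41440144) (nat_lit 8945064) [(nat_lit 429336), (nat_lit 0), (nat_lit 3416494), (nat_lit 9031943)]) (PF.cons PF.nil PF.nil)))) (PF.cons (PF.cons (PF.leaf (nat_lit 7199338) (nat_lit 1516522) (nat_lit 40877844) (nat_lit 8899864) [(nat_lit 0), (nat_lit 1516522), (nat_lit 3414348), (nat_lit 8985885)]) (PF.cons (PF.leaf (nat_lit 7463989) (nat_lit 436948) (nat_lit 40490321) (nat_lit 8870124) [(nat_lit 436948), (nat_lit 1523843), (nat_lit 3416017), (nat_lit 8955538)]) PF.nil)) (PF.cons PF.nil PF.nil))) (PF.cons (PF.cons (PF.cons (PF.leaf (nat_lit 7678642) (nat_lit 3393447) (nat_lit 39332414) (nat_lit 8756211) [(nat_lit 0), (nat_lit 0), (nat_lit 3393447), (nat_lit 8839844)]) (PF.cons PF.nil PF.nil)) (PF.cons PF.nil PF.nil)) (PF.cons PF.nil PF.nil)))))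 (PF.cons (PF.cons (PF.cons (PF.cons (PF.leaf (nat_lit 6229910) (nat_lit 8770954) (nat_lit 40624304) (nat_lit 8770954) [(nat_lit 0), (nat_lit 0), (nat_lit 0), (nat_lit 8856776)]) (PF.cons (PF.leaf (nat_lit 6458022) (nat_lit 389738) (nat_lit 40301803) (nat_lit 8748893) [(nat_lit 389738), (nat_lit 0), (nat_lit 0), (nat_lit 8834188)]) (PF.cons (PF.leaf (nat_lit 6698401) (nat_lit 399778) (nat_lit 39965136) (nat_lit 8724875) [(nat_lit 399778),
 (nat_lit 0), (nat_lit 0), (nat_lit 8809621)]) (PF.cons (PF.leaf (nat_lit 6948189) (nat_lit 408559) (nat_lit 39617635) (nat_lit 8699048) [(nat_lit 408559), (nat_lit 0), (nat_lit 0), (nat_lit 8783225)]) (PF.cons (PF.leaf (nat_lit 7205728) (nat_lit 416311) (nat_lit 39261797) (nat_lit 8671527) [(nat_lit 416311), (nat_lit 0), (nat_lit 0), (nat_lit 8755121)]) (PF.cons PF.nil (PF.cons PF.nil PF.nil))))))) (PF.cons (PF.cons (PF.leaf (nat_lit 6853370) (nat_lit 1454156) (nat_lit 39442056) (nat_lit 8681593) [(nat_lit 0), (nat_lit 1454156),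 (nat_lit 0), (nat_lit 8765503)]) (PF.cons (PF.leaf (nat_lit 7096799) (nat_lit 409631) (nat_lit 39103975) (nat_lit 8655038) [(nat_lit 409631), (nat_lit 1463382), (nat_lit 0), (nat_lit 8738392)]) (PF.cons (PF.leaf (nat_lit 7349230) (nat_lit 417278) (nat_lit 38756670) (nat_lit 8626759) [(nat_lit 417278), (nat_lit 1471745), (nat_lit 0), (nat_lit 8709539)]) (PF.cons (PF.leaf (nat_lit 7608632) (nat_lit 424032) (nat_lit 38402417) (nat_lit 8596883) [(nat_lit 424032), (nat_lit 1479256), (nat_lit 0), (nat_lit 8679077)]) (PF.cons PF.nil PF.nil))))) (PF.cons (PF.cons (PF.leaf (nat_lit 7493308) (nat_lit 1474475) (nat_lit 38254788) (nat_lit 8580380) [(nat_lit 0),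
 (nat_lit 1474475), (nat_lit 0), (nat_lit 8662347)]) (PF.cons (PF.leaf (nat_lit 7747054) (nat_lit 424458) (nat_lit 37909431) (nat_lit 8549923) [(nat_lit 424458), (nat_lit 1481185), (nat_lit 0), (nat_lit 8631314)]) (PF.cons PF.nil (PF.cons PF.nil PF.nil)))) (PF.cons (PF.cons (PF.leaf (nat_lit 8141368) (nat_lit 1487708) (nat_lit 37078093) (nat_lit 8469189) [(nat_lit 0), (nat_lit 1487708), (nat_lit 0), (nat_lit 8549202)]) (PF.cons PF.nil PF.nil)) (PF.cons PF.nil PF.nil))))) (PF.cons (PF.cons (PF.cons (PF.leaf (nat_lit 7316149) (nat_lit 3296621) (nat_lit 38014141) (nat_lit 8544937) [(nat_lit 0), (nat_lit 0), (nat_lit 3296621), (nat_lit 8626556)]) (PF.cons (PF.leaf (nat_lit 7557948) (nat_lit 413096) (nat_lit 37688171) (nat_lit 8515974) [(nat_lit 413096), (nat_lit 0), (nat_lit 3297479), (nat_lit 8597045)]) (PF.cons (PF.leaf (nat_lit 7808237) (nat_lit 420112) (nat_lit 37353915) (nat_lit 8485378) [(nat_lit 420112), (nat_lit 0), (nat_lit 3297521), (nat_lit 8565886)]) (PF.cons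 PF.nil PF.nil)))) (PF.cons (PF.cons (PF.leaf (nat_lit 7945551) (nat_lit 1473266) (nat_lit 36875549) (nat_lit 8436544) [(nat_lit 0), (nat_lit 1473266), (nat_lit 3290934), (nat_lit 8516258)]) (PF.cons (PF.leaf (nat_lit
 8196556) (nat_lit 426122) (nat_lit 36544106) (nat_lit 8404133) [(nat_lit 426122), (nat_lit 1478543), (nat_lit 3289338), (nat_lit 8483284)]) PF.nil)) (PF.cons PF.nil PF.nil))) (PF.cons (PF.cons (PF.cons (PF.leaf (nat_lit 8381425) (nat_lit 3261134) (nat_lit 35566278) (nat_lit 8288404) [(nat_lit 0), (nat_lit 0), (nat_lit 3261134), (nat_lit 8365930)]) (PF.cons PF.nil PF.nil)) (PF.cons PF.nil PF.nil)) PF.nil))) (PF.cons (PF.cons (PF.cons (PF.cons (PF.leaf (nat_lit 8009802) (nat_lit 8097441) (nat_lit 34491731) (nat_lit 8097441) [(nat_lit 0), (nat_lit 0), (nat_lit 0), (nat_lit 8173213)]) (PF.cons (PF.leaf (nat_lit 8240227) (nat_lit 402255) (nat_lit 34211217) (nat_lit 8067383) [(nat_lit 402255), (nat_lit 0), (nat_lit 0), (nat_lit 8142652)]) (PF.cons (PF.leaf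 (nat_lit 8478478) (nat_lit 408606) (nat_lit 33923730) (nat_lit 8035903) [(nat_lit 408606), (nat_lit 0), (nat_lit 0), (nat_lit 8110655)]) (PF.cons PF.nil PF.nil)))) (PF.cons (PF.cons (PF.leaf (nat_lit 8603001) (nat_lit 1424206) (nat_lit 33514753) (nat_lit 7986940) [(nat_lit 0), (nat_lit 1424206), (nat_lit 0), (nat_lit 8060970)]) (PF.cons PF.nil PF.nil)) (PF.cons PF.nil PF.nil))) (PF.cons (PF.cons (PF.cons (PF.leaf (nat_lit 9003444)
 (nat_lit 3125507) (nat_lit 32398509) (nat_lit 7842159) [(nat_lit 0), (nat_lit 0), (nat_lit 3125507), (nat_lit 7914211)]) (PF.cons PF.nil PF.nil)) PF.nil) PF.nil)) (PF.cons PF.nil (PF.cons PF.nil (PF.cons PF.nil (PF.cons PF.nil PF.nil))))))))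

def p12_12_1_0 : pfC (piC [(nat_lit 40173837), (nat_lit 25770221), (nat_lit 19310217), (nat_lit 12946273)] (nat_lit 10876725)) p12_12_1 (nat_lit 4) (nat_lit 0) (nat_lit 1) = true := by decide +kernel
def p12_12_1_1 : pfC (piC [(nat_lit 40173837), (nat_lit 25770221), (nat_lit 19310217), (nat_lit 12946273)] (nat_lit 10876725)) p12_12_1 (nat_lit 4) (nat_lit 1) (nat_lit 2) = true := by decide +kernel
def p12_12_1_2 : pfC (piC [(nat_lit 40173837), (nat_lit 25770221), (nat_lit 19310217), (nat_lit 12946273)] (nat_lit 10876725)) p12_12_1 (nat_lit 4) (nat_lit 2) (nat_lit 3) = true := by decide +kernel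
def p12_12_1_3 : pfC (piC [(nat_lit 40173837), (nat_lit 25770221), (nat_lit 19310217), (nat_lit 12946273)] (nat_lit 10876725)) p12_12_1 (nat_lit 4) (nat_lit 3) (nat_lit 4) = true := by decide +kernel
def p12_12_1_4 : pfC (piC [(nat_lit 40173837), (nat_lit 25770221), (nat_lit 19310217), (nat_lit 12946273)] (nat_lit 10876725)) p12_12_1 (nat_lit 4) (nat_lit 4) (nat_lit 5) = true := by decide +kernel
def p12_12_1_5 : pfC (piC [(nat_lit 40173837), (nat_lit 25770221), (nat_lit 19310217), (nat_lit 12946273)] (nat_lit 10876725)) p12_12_1 (nat_lit 4) (nat_lit 5) (nat_lit 6) = true := by decide +kernel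
def p12_12_1_6 : pfC (piC [(nat_lit 40173837), (nat_lit 25770221), (nat_lit 19310217), (nat_lit 12946273)] (nat_lit 10876725)) p12_12_1 (nat_lit 4) (nat_lit 6) (nat_lit 7) = true := by decide +kernel
def p12_12_1_7 : pfC (piC [(nat_lit 40173837), (nat_lit 25770221), (nat_lit 19310217), (nat_lit 12946273)] (nat_lit 10876725)) p12_12_1 (nat_lit 4) (nat_lit 7) (nat_lit 8) = true := by decide +kernel
def p12_12_1_8 : pfC (piC [(nat_lit 40173837), (nat_lit 25770221), (nat_lit 19310217), (nat_lit 12946273)] (nat_lit 10876725)) p12_12_1 (nat_lit 4) (nat_lit 8) (nat_lit 9) = true := by decide +kernel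
def p12_12_1_9 : pfC (piC [(nat_lit 40173837), (nat_lit 25770221), (nat_lit 19310217), (nat_lit 12946273)] (nat_lit 10876725)) p12_12_1 (nat_lit 4) (nat_lit 9) (nat_lit 10) = true := by decide +kernel
def p12_12_1_10 : pfC (piC [(nat_lit 40173837), (nat_lit 25770221), (nat_lit 19310217), (nat_lit 12946273)] (nat_lit 10876725)) p12_12_1 (nat_lit 4) (nat_lit 10) (nat_lit 11) = true := by decide +kernel
def p12_12_1_11 : pfC (piC [(nat_lit 40173837), (nat_lit 25770221), (nat_lit 19310217), (nat_lit 12946273)] (nat_lit 10876725)) p12_12_1 (nat_lit 4) (nat_lit 11) (nat_lit 12) = true := by decide +kernel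
def p12_12_1_12 : pfC (piC [(nat_lit 40173837), (nat_lit 25770221), (nat_lit 19310217), (nat_lit 12946273)] (nat_lit 10876725)) p12_12_1 (nat_lit 4) (nat_lit 12) (nat_lit 13) = true := by decide +kernel
def p12_12_1_13 : pfC (piC [(nat_lit 40173837), (nat_lit 25770221), (nat_lit 19310217), (nat_lit 12946273)] (nat_lit 10876725)) p12_12_1 (nat_lit 4) (nat_lit 13) (nat_lit 14) = true := by decide +kernel
def p12_12_1_14 : pfC (piC [(nat_lit 40173837), (nat_lit 25770221), (nat_lit 19310217), (nat_lit 12946273)] (nat_lit 10876725)) p12_12_1 (nat_lit 4) (nat_lit 14) (nat_lit 15) = true := by decide +kernel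
def p12_12_1_15 : pfC (piC [(nat_lit 40173837), (nat_lit 25770221), (nat_lit 19310217), (nat_lit 12946273)] (nat_lit 10876725)) p12_12_1 (nat_lit 4) (nat_lit 15) (nat_lit 16) = true := by decide +kernel
def p12_12_1_16 : pfC (piC [(nat_lit 40173837), (nat_lit 25770221), (nat_lit 19310217), (nat_lit 12946273)] (nat_lit 10876725)) p12_12_1 (nat_lit 4) (nat_lit 16) (nat_lit 17) = true := by decide +kernel
def p12_12_1_17 : pfC (piC [(nat_lit 40173837), (nat_lit 25770221), (nat_lit 19310217), (nat_lit 12946273)] (nat_lit 10876725)) p12_12_1 (nat_lit 4) (nat_lit 17) (nat_lit 18) = true := by decide +kernel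
def p12_12_1_18 : pfC (piC [(nat_lit 40173837), (nat_lit 25770221), (nat_lit 19310217), (nat_lit 12946273)] (nat_lit 10876725)) p12_12_1 (nat_lit 4) (nat_lit 18) (nat_lit 19) = true := by decide +kernel
def p12_12_1_19 : pfC (piC [(nat_lit 40173837), (nat_lit 25770221), (nat_lit 19310217), (nat_lit 12946273)] (nat_lit 10876725)) p12_12_1 (nat_lit 4) (nat_lit 19) (nat_lit 20) = true := by decide +kernel
def p12_12_1_20 : pfC (piC [(nat_lit 40173837), (nat_lit 25770221), (nat_lit 19310217), (nat_lit 12946273)] (nat_lit 10876725)) p12_12_1 (nat_lit 4) (nat_lit 20) (nat_lit 21) = true := by decide +kernel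
def p12_12_1_21 : pfC (piC [(nat_lit 40173837), (nat_lit 25770221), (nat_lit 19310217), (nat_lit 12946273)] (nat_lit 10876725)) p12_12_1 (nat_lit 4) (nat_lit 21) (nat_lit 22) = true := by decide +kernel
def p12_12_1_22 : pfC (piC [(nat_lit 40173837), (nat_lit 25770221), (nat_lit 19310217), (nat_lit 12946273)] (nat_lit 10876725)) p12_12_1 (nat_lit 4) (nat_lit 22) (nat_lit 23) = true := by decide +kernel
def p12_12_1_23 : pfC (piC [(nat_lit 40173837), (nat_lit 25770221), (nat_lit 19310217), (nat_lit 12946273)] (nat_lit 10876725)) p12_12_1 (nat_lit 4) (nat_lit 23) (nat_lit 24) = true := by decide +kernel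
def p12_12_1_24 : pfC (piC [(nat_lit 40173837), (nat_lit 25770221), (nat_lit 19310217), (nat_lit 12946273)] (nat_lit 10876725)) p12_12_1 (nat_lit 4) (nat_lit 24) (nat_lit 25) = true := by decide +kernel
def p12_12_1_25 : pfC (piC [(nat_lit 40173837), (nat_lit 25770221), (nat_lit 19310217), (nat_lit 12946273)] (nat_lit 10876725)) p12_12_1 (nat_lit 4) (nat_lit 25) (nat_lit 26) = true := by decide +kernel
def p12_12_1_26 : pfC (piC [(nat_lit 40173837), (nat_lit 25770221), (nat_lit 19310217), (nat_lit 12946273)] (nat_lit 10876725)) p12_12_1 (nat_lit 4) (nat_lit 26) (nat_lit 27) = true := by decide +kernel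
def p12_12_1_27 : pfC (piC [(nat_lit 40173837), (nat_lit 25770221), (nat_lit 19310217), (nat_lit 12946273)] (nat_lit 10876725)) p12_12_1 (nat_lit 4) (nat_lit 27) (nat_lit 28) = true := by decide +kernel
def p12_12_1_28 : pfC (piC [(nat_lit 40173837), (nat_lit 25770221), (nat_lit 19310217), (nat_lit 12946273)] (nat_lit 10876725)) p12_12_1 (nat_lit 4) (nat_lit 28) (nat_lit 29) = true := by decide +kernel
def p12_12_1_29 : pfC (piC [(nat_lit 40173837), (nat_lit 25770221), (nat_lit 19310217), (nat_lit 12946273)] (nat_lit 10876725)) p12_12_1 (nat_lit 4) (nat_lit 29) (nat_lit 30) = true := by decide +kernel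
def p12_12_1_30 : pfC (piC [(nat_lit 40173837), (nat_lit 25770221), (nat_lit 19310217), (nat_lit 12946273)] (nat_lit 10876725)) p12_12_1 (nat_lit 4) (nat_lit 30) (nat_lit 31) = true := by decide +kernel
def p12_12_1_31 : pfC (piC [(nat_lit 40173837), (nat_lit 25770221), (nat_lit 19310217), (nat_lit 12946273)] (nat_lit 10876725)) p12_12_1 (nat_lit 4) (nat_lit 31) (nat_lit 32) = true := by decide +kernel
def p12_12_1_32 : pfC (piC [(nat_lit 40173837), (nat_lit 25770221), (nat_lit 19310217), (nat_lit 12946273)] (nat_lit 10876725)) p12_12_1 (nat_lit 4) (nat_lit 32) (nat_lit 33) = true := by decide +kernel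
def p12_12_1_33 : pfC (piC [(nat_lit 40173837), (nat_lit 25770221), (nat_lit 19310217), (nat_lit 12946273)] (nat_lit 10876725)) p12_12_1 (nat_lit 4) (nat_lit 33) (nat_lit 34) = true := by decide +kernel
def p12_12_1_34 : pfC (piC [(nat_lit 40173837), (nat_lit 25770221), (nat_lit 19310217), (nat_lit 12946273)] (nat_lit 10876725)) p12_12_1 (nat_lit 4) (nat_lit 34) (nat_lit 35) = true := by decide +kernel
def p12_12_1_35 : pfC (piC [(nat_lit 40173837), (nat_lit 25770221), (nat_lit 19310217), (nat_lit 12946273)] (nat_lit 10876725)) p12_12_1 (nat_lit 4) (nat_lit 35) (nat_lit 36) = true := by decide +kernel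
def p12_12_1_36 : pfC (piC [(nat_lit 40173837), (nat_lit 25770221), (nat_lit 19310217), (nat_lit 12946273)] (nat_lit 10876725)) p12_12_1 (nat_lit 4) (nat_lit 36) (nat_lit 37) = true := by decide +kernel
def p12_12_1_37 : pfC (piC [(nat_lit 40173837), (nat_lit 25770221), (nat_lit 19310217), (nat_lit 12946273)] (nat_lit 10876725)) p12_12_1 (nat_lit 4) (nat_lit 37) (nat_lit 38) = true := by decide +kernel
def p12_12_1_38 : pfC (piC [(nat_lit 40173837), (nat_lit 25770221), (nat_lit 19310217), (nat_lit 12946273)] (nat_lit 10876725)) p12_12_1 (nat_lit 4) (nat_lit 38) (nat_lit 39) = true := by decide +kernel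
def p12_12_1_39 : pfC (piC [(nat_lit 40173837), (nat_lit 25770221), (nat_lit 19310217), (nat_lit 12946273)] (nat_lit 10876725)) p12_12_1 (nat_lit 4) (nat_lit 39) (nat_lit 40) = true := by decide +kernel
def p12_12_1_40 : pfC (piC [(nat_lit 40173837), (nat_lit 25770221), (nat_lit 19310217), (nat_lit 12946273)] (nat_lit 10876725)) p12_12_1 (nat_lit 4) (nat_lit 40) (nat_lit 41) = true := by decide +kernel
def p12_12_1_41 : pfC (piC [(nat_lit 40173837), (nat_lit 25770221), (nat_lit 19310217), (nat_lit 12946273)] (nat_lit 10876725)) p12_12_1 (nat_lit 4) (nat_lit 41) (nat_lit 42) = true := by decide +kernel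
def p12_12_1_42 : pfC (piC [(nat_lit 40173837), (nat_lit 25770221), (nat_lit 19310217), (nat_lit 12946273)] (nat_lit 10876725)) p12_12_1 (nat_lit 4) (nat_lit 42) (nat_lit 43) = true := by decide +kernel
def p12_12_1_43 : pfC (piC [(nat_lit 40173837), (nat_lit 25770221), (nat_lit 19310217), (nat_lit 12946273)] (nat_lit 10876725)) p12_12_1 (nat_lit 4) (nat_lit 43) (nat_lit 44) = true := by decide +kernel
def p12_12_1_44 : pfC (piC [(nat_lit 40173837), (nat_lit 25770221), (nat_lit 19310217), (nat_lit 12946273)] (nat_lit 10876725)) p12_12_1 (nat_lit 4) (nat_lit 44) (nat_lit 45) = true := by decide +kernel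
def p12_12_1_45 : pfC (piC [(nat_lit 40173837), (nat_lit 25770221), (nat_lit 19310217), (nat_lit 12946273)] (nat_lit 10876725)) p12_12_1 (nat_lit 4) (nat_lit 45) (nat_lit 46) = true := by decide +kernel
def p12_12_1_46 : pfC (piC [(nat_lit 40173837), (nat_lit 25770221), (nat_lit 19310217), (nat_lit 12946273)] (nat_lit 10876725)) p12_12_1 (nat_lit 4) (nat_lit 46) (nat_lit 47) = true := by decide +kernel
def p12_12_1_47 : pfC (piC [(nat_lit 40173837), (nat_lit 25770221), (nat_lit 19310217), (nat_lit 12946273)] (nat_lit 10876725)) p12_12_1 (nat_lit 4) (nat_lit 47) (nat_lit 48) = true := by decide +kernel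
def p12_12_1_48 : pfC (piC [(nat_lit 40173837), (nat_lit 25770221), (nat_lit 19310217), (nat_lit 12946273)] (nat_lit 10876725)) p12_12_1 (nat_lit 4) (nat_lit 48) (nat_lit 49) = true := by decide +kernel
def p12_12_1_49 : pfC (piC [(nat_lit 40173837), (nat_lit 25770221), (nat_lit 19310217), (nat_lit 12946273)] (nat_lit 10876725)) p12_12_1 (nat_lit 4) (nat_lit 49) (nat_lit 50) = true := by decide +kernel
def p12_12_1_50 : pfC (piC [(nat_lit 40173837), (nat_lit 25770221), (nat_lit 19310217), (nat_lit 12946273)] (nat_lit 10876725)) p12_12_1 (nat_lit 4) (nat_lit 50) (nat_lit 51) = true := by decide +kernel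
def p12_12_1_51 : pfC (piC [(nat_lit 40173837), (nat_lit 25770221), (nat_lit 19310217), (nat_lit 12946273)] (nat_lit 10876725)) p12_12_1 (nat_lit 4) (nat_lit 51) (nat_lit 52) = true := by decide +kernel
def p12_12_1_52 : pfC (piC [(nat_lit 40173837), (nat_lit 25770221), (nat_lit 19310217), (nat_lit 12946273)] (nat_lit 10876725)) p12_12_1 (nat_lit 4) (nat_lit 52) (nat_lit 53) = true := by decide +kernel
def p12_12_1_53 : pfC (piC [(nat_lit 40173837), (nat_lit 25770221), (nat_lit 19310217), (nat_lit 12946273)] (nat_lit 10876725)) p12_12_1 (nat_lit 4) (nat_lit 53) (nat_lit 54) = true := by decide +kernel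
def p12_12_1_54 : pfC (piC [(nat_lit 40173837), (nat_lit 25770221), (nat_lit 19310217), (nat_lit 12946273)] (nat_lit 10876725)) p12_12_1 (nat_lit 4) (nat_lit 54) (nat_lit 55) = true := by decide +kernel
def p12_12_1_55 : pfC (piC [(nat_lit 40173837), (nat_lit 25770221), (nat_lit 19310217), (nat_lit 12946273)] (nat_lit 10876725)) p12_12_1 (nat_lit 4) (nat_lit 55) (nat_lit 56) = true := by decide +kernel
def p12_12_1_56 : pfC (piC [(nat_lit 40173837), (nat_lit 25770221), (nat_lit 19310217), (nat_lit 12946273)] (nat_lit 10876725)) p12_12_1 (nat_lit 4) (nat_lit 56) (nat_lit 57) = true := by decide +kernel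
def p12_12_1_57 : pfC (piC [(nat_lit 40173837), (nat_lit 25770221), (nat_lit 19310217), (nat_lit 12946273)] (nat_lit 10876725)) p12_12_1 (nat_lit 4) (nat_lit 57) (nat_lit 58) = true := by decide +kernel
def p12_12_1_58 : pfC (piC [(nat_lit 40173837), (nat_lit 25770221), (nat_lit 19310217), (nat_lit 12946273)] (nat_lit 10876725)) p12_12_1 (nat_lit 4) (nat_lit 58) (nat_lit 59) = true := by decide +kernel
def p12_12_1_59 : pfC (piC [(nat_lit 40173837), (nat_lit 25770221), (nat_lit 19310217), (nat_lit 12946273)] (nat_lit 10876725)) p12_12_1 (nat_lit 4) (nat_lit 59) (nat_lit 60) = true := by decide +kernel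
def p12_12_1_60 : pfC (piC [(nat_lit 40173837), (nat_lit 25770221), (nat_lit 19310217), (nat_lit 12946273)] (nat_lit 10876725)) p12_12_1 (nat_lit 4) (nat_lit 60) (nat_lit 61) = true := by decide +kernel
def p12_12_1_61 : pfC (piC [(nat_lit 40173837), (nat_lit 25770221), (nat_lit 19310217), (nat_lit 12946273)] (nat_lit 10876725)) p12_12_1 (nat_lit 4) (nat_lit 61) (nat_lit 62) = true := by decide +kernel
def p12_12_1_62 : pfC (piC [(nat_lit 40173837), (nat_lit 25770221), (nat_lit 19310217), (nat_lit 12946273)] (nat_lit 10876725)) p12_12_1 (nat_lit 4) (nat_lit 62) (nat_lit 63) = true := by decide +kernel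
def p12_12_1_63 : pfC (piC [(nat_lit 40173837), (nat_lit 25770221), (nat_lit 19310217), (nat_lit 12946273)] (nat_lit 10876725)) p12_12_1 (nat_lit 4) (nat_lit 63) (nat_lit 64) = true := by decide +kernel
def p12_12_1_64 : pfC (piC [(nat_lit 40173837), (nat_lit 25770221), (nat_lit 19310217), (nat_lit 12946273)] (nat_lit 10876725)) p12_12_1 (nat_lit 4) (nat_lit 64) (nat_lit 65) = true := by decide +kernel
def p12_12_1_65 : pfC (piC [(nat_lit 40173837), (nat_lit 25770221), (nat_lit 19310217), (nat_lit 12946273)] (nat_lit 10876725)) p12_12_1 (nat_lit 4) (nat_lit 65) (nat_lit 66) = true := by decide +kernel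
def p12_12_1_66 : pfC (piC [(nat_lit 40173837), (nat_lit 25770221), (nat_lit 19310217), (nat_lit 12946273)] (nat_lit 10876725)) p12_12_1 (nat_lit 4) (nat_lit 66) (nat_lit 67) = true := by decide +kernel
def p12_12_1_67 : pfC (piC [(nat_lit 40173837), (nat_lit 25770221), (nat_lit 19310217), (nat_lit 12946273)] (nat_lit 10876725)) p12_12_1 (nat_lit 4) (nat_lit 67) (nat_lit 68) = true := by decide +kernel
def p12_12_1_68 : pfC (piC [(nat_lit 40173837), (nat_lit 25770221), (nat_lit 19310217), (nat_lit 12946273)] (nat_lit 10876725)) p12_12_1 (nat_lit 4) (nat_lit 68) (nat_lit 69) = true := by decide +kernel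
def p12_12_1_69 : pfC (piC [(nat_lit 40173837), (nat_lit 25770221), (nat_lit 19310217), (nat_lit 12946273)] (nat_lit 10876725)) p12_12_1 (nat_lit 4) (nat_lit 69) (nat_lit 70) = true := by decide +kernel
def p12_12_1_70 : pfC (piC [(nat_lit 40173837), (nat_lit 25770221), (nat_lit 19310217), (nat_lit 12946273)] (nat_lit 10876725)) p12_12_1 (nat_lit 4) (nat_lit 70) (nat_lit 71) = true := by decide +kernel
def p12_12_1_71 : pfC (piC [(nat_lit 40173837), (nat_lit 25770221), (nat_lit 19310217), (nat_lit 12946273)] (nat_lit 10876725)) p12_12_1 (nat_lit 4) (nat_lit 71) (nat_lit 72) = true := by decide +kernel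
def p12_12_1_72 : pfC (piC [(nat_lit 40173837), (nat_lit 25770221), (nat_lit 19310217), (nat_lit 12946273)] (nat_lit 10876725)) p12_12_1 (nat_lit 4) (nat_lit 72) (nat_lit 73) = true := by decide +kernel
def p12_12_1_73 : pfC (piC [(nat_lit 40173837), (nat_lit 25770221), (nat_lit 19310217), (nat_lit 12946273)] (nat_lit 10876725)) p12_12_1 (nat_lit 4) (nat_lit 73) (nat_lit 74) = true := by decide +kernel
def p12_12_1_74 : pfC (piC [(nat_lit 40173837), (nat_lit 25770221), (nat_lit 19310217), (nat_lit 12946273)] (nat_lit 10876725)) p12_12_1 (nat_lit 4) (nat_lit 74) (nat_lit 75) = true := by decide +kernel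
def p12_12_1_75 : pfC (piC [(nat_lit 40173837), (nat_lit 25770221), (nat_lit 19310217), (nat_lit 12946273)] (nat_lit 10876725)) p12_12_1 (nat_lit 4) (nat_lit 75) (nat_lit 76) = true := by decide +kernel
def p12_12_1_76 : pfC (piC [(nat_lit 40173837), (nat_lit 25770221), (nat_lit 19310217), (nat_lit 12946273)] (nat_lit 10876725)) p12_12_1 (nat_lit 4) (nat_lit 76) (nat_lit 77) = true := by decide +kernel
def p12_12_1_77 : pfC (piC [(nat_lit 40173837), (nat_lit 25770221), (nat_lit 19310217), (nat_lit 12946273)] (nat_lit 10876725)) p12_12_1 (nat_lit 4) (nat_lit 77) (nat_lit 78) = true := by decide +kernel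
def p12_12_1_78 : pfC (piC [(nat_lit 40173837), (nat_lit 25770221), (nat_lit 19310217), (nat_lit 12946273)] (nat_lit 10876725)) p12_12_1 (nat_lit 4) (nat_lit 78) (nat_lit 79) = true := by decide +kernel
def p12_12_1_79 : pfC (piC [(nat_lit 40173837), (nat_lit 25770221), (nat_lit 19310217), (nat_lit 12946273)] (nat_lit 10876725)) p12_12_1 (nat_lit 4) (nat_lit 79) (nat_lit 80) = true := by decide +kernel
def p12_12_1_80 : pfC (piC [(nat_lit 40173837), (nat_lit 25770221), (nat_lit 19310217), (nat_lit 12946273)] (nat_lit 10876725)) p12_12_1 (nat_lit 4) (nat_lit 80) (nat_lit 81) = true := by decide +kernel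
def p12_12_1_81 : pfC (piC [(nat_lit 40173837), (nat_lit 25770221), (nat_lit 19310217), (nat_lit 12946273)] (nat_lit 10876725)) p12_12_1 (nat_lit 4) (nat_lit 81) (nat_lit 82) = true := by decide +kernel
def p12_12_1_82 : pfC (piC [(nat_lit 40173837), (nat_lit 25770221), (nat_lit 19310217), (nat_lit 12946273)] (nat_lit 10876725)) p12_12_1 (nat_lit 4) (nat_lit 82) (nat_lit 83) = true := by decide +kernel
def p12_12_1_83 : pfC (piC [(nat_lit 40173837), (nat_lit 25770221), (nat_lit 19310217), (nat_lit 12946273)] (nat_lit 10876725)) p12_12_1 (nat_lit 4) (nat_lit 83) (nat_lit 84) = true := by decide +kernel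
def p12_12_1_84 : pfC (piC [(nat_lit 40173837), (nat_lit 25770221), (nat_lit 19310217), (nat_lit 12946273)] (nat_lit 10876725)) p12_12_1 (nat_lit 4) (nat_lit 84) (nat_lit 85) = true := by decide +kernel
def p12_12_1_85 : pfC (piC [(nat_lit 40173837), (nat_lit 25770221), (nat_lit 19310217), (nat_lit 12946273)] (nat_lit 10876725)) p12_12_1 (nat_lit 4) (nat_lit 85) (nat_lit 86) = true := by decide +kernel
def p12_12_1_86 : pfC (piC [(nat_lit 40173837), (nat_lit 25770221), (nat_lit 19310217), (nat_lit 12946273)] (nat_lit 10876725)) p12_12_1 (nat_lit 4) (nat_lit 86) (nat_lit 87) = true := by decide +kernel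
def p12_12_1_87 : pfC (piC [(nat_lit 40173837), (nat_lit 25770221), (nat_lit 19310217), (nat_lit 12946273)] (nat_lit 10876725)) p12_12_1 (nat_lit 4) (nat_lit 87) (nat_lit 88) = true := by decide +kernel
def p12_12_1_88 : pfC (piC [(nat_lit 40173837), (nat_lit 25770221), (nat_lit 19310217), (nat_lit 12946273)] (nat_lit 10876725)) p12_12_1 (nat_lit 4) (nat_lit 88) (nat_lit 89) = true := by decide +kernel
def p12_12_1_89 : pfC (piC [(nat_lit 40173837), (nat_lit 25770221), (nat_lit 19310217), (nat_lit 12946273)] (nat_lit 10876725)) p12_12_1 (nat_lit 4) (nat_lit 89) (nat_lit 90) = true := by decide +kernel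
def p12_12_1_90 : pfC (piC [(nat_lit 40173837), (nat_lit 25770221), (nat_lit 19310217), (nat_lit 12946273)] (nat_lit 10876725)) p12_12_1 (nat_lit 4) (nat_lit 90) (nat_lit 91) = true := by decide +kernel
def p12_12_1_91 : pfC (piC [(nat_lit 40173837), (nat_lit 25770221), (nat_lit 19310217), (nat_lit 12946273)] (nat_lit 10876725)) p12_12_1 (nat_lit 4) (nat_lit 91) (nat_lit 92) = true := by decide +kernel
def p12_12_1_92 : pfC (piC [(nat_lit 40173837), (nat_lit 25770221), (nat_lit 19310217), (nat_lit 12946273)] (nat_lit 10876725)) p12_12_1 (nat_lit 4) (nat_lit 92) (nat_lit 93) = true := by decide +kernel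
def p12_12_1_93 : pfC (piC [(nat_lit 40173837), (nat_lit 25770221), (nat_lit 19310217), (nat_lit 12946273)] (nat_lit 10876725)) p12_12_1 (nat_lit 4) (nat_lit 93) (nat_lit 94) = true := by decide +kernel
def p12_12_1_94 : pfC (piC [(nat_lit 40173837), (nat_lit 25770221), (nat_lit 19310217), (nat_lit 12946273)] (nat_lit 10876725)) p12_12_1 (nat_lit 4) (nat_lit 94) (nat_lit 95) = true := by decide +kernel
def p12_12_1_95 : pfC (piC [(nat_lit 40173837), (nat_lit 25770221), (nat_lit 19310217), (nat_lit 12946273)] (nat_lit 10876725)) p12_12_1 (nat_lit 4) (nat_lit 95) (nat_lit 96) = true := by decide +kernel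
def p12_12_1_96 : pfC (piC [(nat_lit 40173837), (nat_lit 25770221), (nat_lit 19310217), (nat_lit 12946273)] (nat_lit 10876725)) p12_12_1 (nat_lit 4) (nat_lit 96) (nat_lit 97) = true := by decide +kernel
def p12_12_1_97 : pfC (piC [(nat_lit 40173837), (nat_lit 25770221), (nat_lit 19310217), (nat_lit 12946273)] (nat_lit 10876725)) p12_12_1 (nat_lit 4) (nat_lit 97) (nat_lit 98) = true := by decide +kernel
def p12_12_1_98 : pfC (piC [(nat_lit 40173837), (nat_lit 25770221), (nat_lit 19310217), (nat_lit 12946273)] (nat_lit 10876725)) p12_12_1 (nat_lit 4) (nat_lit 98) (nat_lit 99) = true := by decide +kernel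
def p12_12_1_99 : pfC (piC [(nat_lit 40173837), (nat_lit 25770221), (nat_lit 19310217), (nat_lit 12946273)] (nat_lit 10876725)) p12_12_1 (nat_lit 4) (nat_lit 99) (nat_lit 100) = true := by decide +kernel
def p12_12_1_100 : pfC (piC [(nat_lit 40173837), (nat_lit 25770221), (nat_lit 19310217), (nat_lit 12946273)] (nat_lit 10876725)) p12_12_1 (nat_lit 4) (nat_lit 100) (nat_lit 101) = true := by decide +kernel
def p12_12_1_101 : pfC (piC [(nat_lit 40173837), (nat_lit 25770221), (nat_lit 19310217), (nat_lit 12946273)] (nat_lit 10876725)) p12_12_1 (nat_lit 4) (nat_lit 101) (nat_lit 102) = true := by decide +kernel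
def p12_12_1_102 : pfC (piC [(nat_lit 40173837), (nat_lit 25770221), (nat_lit 19310217), (nat_lit 12946273)] (nat_lit 10876725)) p12_12_1 (nat_lit 4) (nat_lit 102) (nat_lit 103) = true := by decide +kernel
def p12_12_1_103 : pfC (piC [(nat_lit 40173837), (nat_lit 25770221), (nat_lit 19310217), (nat_lit 12946273)] (nat_lit 10876725)) p12_12_1 (nat_lit 4) (nat_lit 103) (nat_lit 104) = true := by decide +kernel
def p12_12_1_104 : pfC (piC [(nat_lit 40173837), (nat_lit 25770221), (nat_lit 19310217), (nat_lit 12946273)] (nat_lit 10876725)) p12_12_1 (nat_lit 4) (nat_lit 104) (nat_lit 105) = true := by decide +kernel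
def p12_12_1_105 : pfC (piC [(nat_lit 40173837), (nat_lit 25770221), (nat_lit 19310217), (nat_lit 12946273)] (nat_lit 10876725)) p12_12_1 (nat_lit 4) (nat_lit 105) (nat_lit 106) = true := by decide +kernel
def p12_12_1_106 : pfC (piC [(nat_lit 40173837), (nat_lit 25770221), (nat_lit 19310217), (nat_lit 12946273)] (nat_lit 10876725)) p12_12_1 (nat_lit 4) (nat_lit 106) (nat_lit 107) = true := by decide +kernel
def p12_12_1_107 : pfC (piC [(nat_lit 40173837), (nat_lit 25770221), (nat_lit 19310217), (nat_lit 12946273)] (nat_lit 10876725)) p12_12_1 (nat_lit 4) (nat_lit 107) (nat_lit 108) = true := by decide +kernel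
def p12_12_1_108 : pfC (piC [(nat_lit 40173837), (nat_lit 25770221), (nat_lit 19310217), (nat_lit 12946273)] (nat_lit 10876725)) p12_12_1 (nat_lit 4) (nat_lit 108) (nat_lit 109) = true := by decide +kernel
def p12_12_1_109 : pfC (piC [(nat_lit 40173837), (nat_lit 25770221), (nat_lit 19310217), (nat_lit 12946273)] (nat_lit 10876725)) p12_12_1 (nat_lit 4) (nat_lit 109) (nat_lit 110) = true := by decide +kernel
def p12_12_1_110 : pfC (piC [(nat_lit 40173837), (nat_lit 25770221), (nat_lit 19310217), (nat_lit 12946273)] (nat_lit 10876725)) p12_12_1 (nat_lit 4) (nat_lit 110) (nat_lit 111) = true := by decide +kernel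
def p12_12_1_111 : pfC (piC [(nat_lit 40173837), (nat_lit 25770221), (nat_lit 19310217), (nat_lit 12946273)] (nat_lit 10876725)) p12_12_1 (nat_lit 4) (nat_lit 111) (nat_lit 112) = true := by decide +kernel
def p12_12_1_112 : pfC (piC [(nat_lit 40173837), (nat_lit 25770221), (nat_lit 19310217), (nat_lit 12946273)] (nat_lit 10876725)) p12_12_1 (nat_lit 4) (nat_lit 112) (nat_lit 113) = true := by decide +kernel
def p12_12_1_113 : pfC (piC [(nat_lit 40173837), (nat_lit 25770221), (nat_lit 19310217), (nat_lit 12946273)] (nat_lit 10876725)) p12_12_1 (nat_lit 4) (nat_lit 113) (nat_lit 114) = true := by decide +kernel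
def p12_12_1_114 : pfC (piC [(nat_lit 40173837), (nat_lit 25770221), (nat_lit 19310217), (nat_lit 12946273)] (nat_lit 10876725)) p12_12_1 (nat_lit 4) (nat_lit 114) (nat_lit 115) = true := by decide +kernel
def p12_12_1_115 : pfC (piC [(nat_lit 40173837), (nat_lit 25770221), (nat_lit 19310217), (nat_lit 12946273)] (nat_lit 10876725)) p12_12_1 (nat_lit 4) (nat_lit 115) (nat_lit 116) = true := by decide +kernel
def p12_12_1_116 : pfC (piC [(nat_lit 40173837), (nat_lit 25770221), (nat_lit 19310217), (nat_lit 12946273)] (nat_lit 10876725)) p12_12_1 (nat_lit 4) (nat_lit 116) (nat_lit 117) = true := by decide +kernel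
theorem p12_12_1_T : PfS (PiF n12_12.reverse (nat_lit 10876725)) p12_12_1 (nat_lit 4) [] 0 :=
  pftab_of (los := [(nat_lit 40173837), (nat_lit 25770221), (nat_lit 19310217), (nat_lit 12946273)]) (by decide +kernel) (hi := (nat_lit 117)) (PfP.trans (PfP.trans (PfP.trans (PfP.trans (PfP.trans (PfP.trans (PfP.trans (PfP.trans (PfP.trans (PfP.trans (PfP.trans (PfP.trans (PfP.trans (PfP.trans (PfP.trans (PfP.trans (PfP.trans (PfP.trans (PfP.trans (PfP.trans (PfP.trans (PfP.trans (PfP.trans (PfP.trans (PfP.trans (PfP.trans (PfP.trans (PfP.trans (PfP.trans (PfP.trans (PfP.trans (PfP.trans (PfP.trans (PfP.trans (PfP.trans (PfP.trans (PfP.trans (PfP.trans (PfP.trans (PfP.trans (PfP.trans (PfP.trans (PfP.trans (PfP.trans (PfP.trans (PfP.trans (PfP.trans (PfP.trans (PfP.trans (PfP.trans (PfP.trans (PfP.trans (PfP.trans (PfP.trans (PfP.trans (PfP.trans (PfP.trans (PfP.trans (PfP.trans (PfP.trans (PfP.trans (PfP.trans (PfP.trans (PfP.trans (PfP.trans (PfP.trans (PfP.trans (PfP.trans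 (PfP.trans (PfP.trans (PfP.trans (PfP.trans (PfP.trans (PfP.trans (PfP.trans (PfP.trans (PfP.trans (PfP.trans (PfP.trans (PfP.trans (PfP.trans (PfP.trans (PfP.trans (PfP.trans (PfP.trans (PfP.trans (PfP.trans (PfP.trans (PfP.trans (PfP.trans (PfP.trans (PfP.trans (PfP.trans (PfP.trans (PfP.trans (PfP.trans (PfP.trans (PfP.trans (PfP.trans (PfP.trans (PfP.trans (PfP.trans (PfP.trans (PfP.trans (PfP.trans (PfP.trans (PfP.trans (PfP.trans (PfP.trans
 (PfP.trans (PfP.trans (PfP.trans (PfP.trans (PfP.trans (PfP.trans (PfP.trans (pfC_sound p12_12_1_0) (pfC_sound p12_12_1_1)) (pfC_sound p12_12_1_2)) (pfC_sound p12_12_1_3)) (pfC_sound p12_12_1_4)) (pfC_sound p12_12_1_5)) (pfC_sound p12_12_1_6)) (pfC_sound p12_12_1_7)) (pfC_sound p12_12_1_8)) (pfC_sound p12_12_1_9)) (pfC_sound p12_12_1_10)) (pfC_sound p12_12_1_11)) (pfC_sound p12_12_1_12)) (pfC_sound p12_12_1_13)) (pfC_sound p12_12_1_14)) (pfC_sound p12_12_1_15)) (pfC_sound p12_12_1_16)) (pfC_sound p12_12_1_17)) (pfC_sound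 p12_12_1_18)) (pfC_sound p12_12_1_19)) (pfC_sound p12_12_1_20)) (pfC_sound p12_12_1_21)) (pfC_sound p12_12_1_22)) (pfC_sound p12_12_1_23)) (pfC_sound p12_12_1_24)) (pfC_sound p12_12_1_25)) (pfC_sound p12_12_1_26)) (pfC_sound p12_12_1_27)) (pfC_sound p12_12_1_28)) (pfC_sound p12_12_1_29)) (pfC_sound p12_12_1_30)) (pfC_sound p12_12_1_31)) (pfC_sound p12_12_1_32)) (pfC_sound p12_12_1_33)) (pfC_sound p12_12_1_34)) (pfC_sound p12_12_1_35)) (pfC_sound p12_12_1_36)) (pfC_sound p12_12_1_37)) (pfC_sound p12_12_1_38)) (pfC_sound p12_12_1_39)) (pfC_sound p12_12_1_40)) (pfC_sound p12_12_1_41)) (pfC_sound p12_12_1_42)) (pfC_sound p12_12_1_43)) (pfC_sound p12_12_1_44))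
 (pfC_sound p12_12_1_45)) (pfC_sound p12_12_1_46)) (pfC_sound p12_12_1_47)) (pfC_sound p12_12_1_48)) (pfC_sound p12_12_1_49)) (pfC_sound p12_12_1_50)) (pfC_sound p12_12_1_51)) (pfC_sound p12_12_1_52)) (pfC_sound p12_12_1_53)) (pfC_sound p12_12_1_54)) (pfC_sound p12_12_1_55)) (pfC_sound p12_12_1_56)) (pfC_sound p12_12_1_57)) (pfC_sound p12_12_1_58)) (pfC_sound p12_12_1_59)) (pfC_sound p12_12_1_60)) (pfC_sound p12_12_1_61)) (pfC_sound p12_12_1_62)) (pfC_sound p12_12_1_63)) (pfC_sound p12_12_1_64)) (pfC_sound p12_12_1_65)) (pfC_sound p12_12_1_66)) (pfC_sound p12_12_1_67)) (pfC_sound p12_12_1_68)) (pfC_sound p12_12_1_69)) (pfC_sound p12_12_1_70)) (pfC_sound p12_12_1_71)) (pfC_sound p12_12_1_72)) (pfC_sound p12_12_1_73)) (pfC_sound p12_12_1_74)) (pfC_sound p12_12_1_75)) (pfC_sound p12_12_1_76)) (pfC_sound p12_12_1_77)) (pfC_sound p12_12_1_78)) (pfC_sound p12_12_1_79)) (pfC_sound p12_12_1_80)) (pfC_sound p12_12_1_81)) (pfC_sound p12_12_1_82)) (pfC_sound p12_12_1_83)) (pfC_sound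 p12_12_1_84)) (pfC_sound p12_12_1_85)) (pfC_sound p12_12_1_86)) (pfC_sound p12_12_1_87)) (pfC_sound p12_12_1_88)) (pfC_sound p12_12_1_89)) (pfC_sound p12_12_1_90)) (pfC_sound p12_12_1_91)) (pfC_sound p12_12_1_92))
 (pfC_sound p12_12_1_93)) (pfC_sound p12_12_1_94)) (pfC_sound p12_12_1_95)) (pfC_sound p12_12_1_96)) (pfC_sound p12_12_1_97)) (pfC_sound p12_12_1_98)) (pfC_sound p12_12_1_99)) (pfC_sound p12_12_1_100)) (pfC_sound p12_12_1_101)) (pfC_sound p12_12_1_102)) (pfC_sound p12_12_1_103)) (pfC_sound p12_12_1_104)) (pfC_sound p12_12_1_105)) (pfC_sound p12_12_1_106)) (pfC_sound p12_12_1_107)) (pfC_sound p12_12_1_108)) (pfC_sound p12_12_1_109)) (pfC_sound p12_12_1_110)) (pfC_sound p12_12_1_111)) (pfC_sound p12_12_1_112)) (pfC_sound p12_12_1_113)) (pfC_sound p12_12_1_114)) (pfC_sound p12_12_1_115)) (pfC_sound p12_12_1_116)) (by decide +kernel)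

def z12_12_1 : zOK yB12_12 (nat_lit 1) (nat_lit 400) (nat_lit 600) (nat_lit 10876725) (nat_lit 7360548) = true := by decide +kernel
def g12_12_1 : gOK yB12_12.x P12_12 (nat_lit 1418) (q12_12 :: r12_12) (nat_lit 1) (nat_lit 400) (nat_lit 2) (nat_lit 600) (nat_lit 11000000) (nat_lit 17850000) (nat_lit 12712500) (nat_lit 12712500) [(nat_lit 800), (nat_lit 1040)] = true := by decide +kernel
def v12_12_1 : ivC P12_12 s12_12 w12_12 n12_12 (nat_lit 4) (nat_lit 5020) (nat_lit 1) (nat_lit 400) f152_1_400 f160_1_400 (nat_lit 2) (nat_lit 600) f152_1_600 f160_1_600 (nat_lit 10876725) (nat_lit 7360548) p12_12_1 = true := by decide +kernel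
def p12_12_2 : PF := (PF.cons (PF.cons (PF.cons (PF.cons (PF.leaf (nat_lit 2623714) (nat_lit 14649601) (nat_lit 52459211) (nat_lit 14649601) [(nat_lit 0), (nat_lit 0), (nat_lit 0), (nat_lit 0)]) (PF.cons (PF.leaf (nat_lit 2772203) (nat_lit 255168) (nat_lit 52212525) (nat_lit 14641118) [(nat_lit 255168), (nat_lit 0), (nat_lit 0), (nat_lit 0)]) (PF.cons (PF.leaf (nat_lit 2948370) (nat_lit 277398) (nat_lit 51923997) (nat_lit 14630017) [(nat_lit 277398), (nat_lit 0), (nat_lit 0), (nat_lit 0)]) (PF.cons (PF.leaf (nat_lit 3146226) (nat_lit 297103) (nat_lit 51601358) (nat_lit 14616144) [(nat_lit 297103), (nat_lit 0), (nat_lit 0), (nat_lit 0)]) (PF.cons (PF.leaf (nat_lit 3362533) (nat_lit 314849) (nat_lit 51250083) (nat_lit 14599333) [(nat_lit 314849), (nat_lit 0), (nat_lit 0), (nat_lit 0)]) (PF.cons (PF.leaf (nat_lit 3594987) (nat_lit 330997) (nat_lit 50874389) (nat_lit 14579435) [(nat_lit 330997), (nat_lit 0), (nat_lit 0), (nat_lit 0)]) (PF.cons (PF.leaf (nat_lit 3841671)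 (nat_lit 345797) (nat_lit 50477706) (nat_lit 14556324) [(nat_lit 345797), (nat_lit 0), (nat_lit 0), (nat_lit 0)]) (PF.cons (PF.leaf (nat_lit 4100936) (nat_lit 359426) (nat_lit 50062918) (nat_lit 14529906) [(nat_lit 359426), (nat_lit 0),
 (nat_lit 0), (nat_lit 0)]) (PF.cons (PF.leaf (nat_lit 4371480) (nat_lit 372022) (nat_lit 49632518) (nat_lit 14500116) [(nat_lit 372022), (nat_lit 0), (nat_lit 0), (nat_lit 0)]) (PF.cons PF.nil PF.nil)))))))))) (PF.cons (PF.cons (PF.leaf (nat_lit 3150059) (nat_lit 1221131) (nat_lit 51290598) (nat_lit 14597083) [(nat_lit 0), (nat_lit 1221131), (nat_lit 0), (nat_lit 0)]) (PF.cons (PF.leaf (nat_lit 3342698) (nat_lit 307970) (nat_lit 50969954) (nat_lit 14580344) [(nat_lit 307970), (nat_lit 1250544), (nat_lit 0), (nat_lit 0)]) (PF.cons (PF.leaf (nat_lit 3556121) (nat_lit 324992) (nat_lit 50619075) (nat_lit 14560412) [(nat_lit 324992), (nat_lit 1279339), (nat_lit 0), (nat_lit 0)]) (PF.cons (PF.leaf (nat_lit 3786291) (nat_lit 340417) (nat_lit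 50243261) (nat_lit 14537234) [(nat_lit 340417), (nat_lit 1307064), (nat_lit 0), (nat_lit 0)]) (PF.cons (PF.leaf (nat_lit 4030954) (nat_lit 354517) (nat_lit 49846493) (nat_lit 14510754) [(nat_lit 354517), (nat_lit 1333493), (nat_lit 0), (nat_lit 0)]) (PF.cons (PF.leaf (nat_lit 4288285) (nat_lit 367482) (nat_lit 49431950) (nat_lit 14480929) [(nat_lit 367482), (nat_lit 1358518), (nat_lit 0), (nat_lit 0)]) (PF.cons (PF.leaf (nat_lit 4556856) (nat_lit
 379449) (nat_lit 49002279) (nat_lit 14447738) [(nat_lit 379449), (nat_lit 1382095), (nat_lit 0), (nat_lit 0)]) (PF.cons PF.nil (PF.cons PF.nil PF.nil))))))))) (PF.cons (PF.cons (PF.leaf (nat_lit 3753290) (nat_lit 1310064) (nat_lit 49973570) (nat_lit 14515113) [(nat_lit 0), (nat_lit 1310064), (nat_lit 0), (nat_lit 0)]) (PF.cons (PF.leaf (nat_lit 3978733) (nat_lit 348504) (nat_lit 49601726) (nat_lit 14489032) [(nat_lit 348504), (nat_lit 1334774), (nat_lit 0), (nat_lit 0)]) (PF.cons (PF.leaf (nat_lit 4220219) (nat_lit 362100)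 (nat_lit 49208001) (nat_lit 14459516) [(nat_lit 362100), (nat_lit 1358546), (nat_lit 0), (nat_lit 0)]) (PF.cons (PF.leaf (nat_lit 4474761) (nat_lit 374546) (nat_lit 48796197) (nat_lit 14426596) [(nat_lit 374546), (nat_lit 1381189), (nat_lit 0), (nat_lit 0)]) (PF.cons (PF.leaf (nat_lit 4740697) (nat_lit 385998) (nat_lit 48369303) (nat_lit 14390301) [(nat_lit 385998), (nat_lit 1402607), (nat_lit 0), (nat_lit 0)]) (PF.cons (PF.leaf (nat_lit 5016569) (nat_lit 396570) (nat_lit 47929776) (nat_lit 14350670) [(nat_lit 396570), (nat_lit 1422758), (nat_lit 0), (nat_lit 0)]) (PF.cons PF.nil PF.nil))))))) (PF.cons (PF.cons (PF.leaf (nat_lit 4411072) (nat_lit 1381190)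
 (nat_lit 48562563) (nat_lit 14402677) [(nat_lit 0), (nat_lit 1381190), (nat_lit 0), (nat_lit 0)]) (PF.cons (PF.leaf (nat_lit 4661079) (nat_lit 380665) (nat_lit 48156192) (nat_lit 14367037) [(nat_lit 380665), (nat_lit 1401639), (nat_lit 0), (nat_lit 0)]) (PF.cons (PF.leaf (nat_lit 4923557) (nat_lit 391714) (nat_lit 47734199) (nat_lit 14327979) [(nat_lit 391714), (nat_lit 1421068), (nat_lit 0), (nat_lit 0)]) (PF.cons (PF.leaf (nat_lit 5196250) (nat_lit 401872) (nat_lit 47299409) (nat_lit 14285593) [(nat_lit 401872), (nat_lit 1439397), (nat_lit 0), (nat_lit 0)]) (PF.cons PF.nil PF.nil))))) (PF.cons (PF.cons (PF.leaf (nat_lit 5106713) (nat_lit 1437673) (nat_lit 47097205) (nat_lit 14260911) [(nat_lit 0), (nat_lit 1437673), (nat_lit 0), (nat_lit 0)]) (PF.cons (PF.leaf (nat_lit 5374876) (nat_lit 406459) (nat_lit 46668992) (nat_lit 14216127) [(nat_lit 406459), (nat_lit 1454308), (nat_lit 0), (nat_lit 0)]) (PF.cons (PF.leaf (nat_lit 5652737) (nat_lit 415486) (nat_lit 46229960)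 (nat_lit 14168120) [(nat_lit 415486), (nat_lit 1469939), (nat_lit 0), (nat_lit 0)]) (PF.cons PF.nil PF.nil)))) (PF.cons (PF.cons (PF.leaf (nat_lit 5827101) (nat_lit 1481809) (nat_lit 45607391) (nat_lit 14092376)
 [(nat_lit 0), (nat_lit 1481809), (nat_lit 0), (nat_lit 0)]) (PF.cons PF.nil PF.nil)) (PF.cons PF.nil (PF.cons PF.nil PF.nil)))))))) (PF.cons (PF.cons (PF.cons (PF.leaf (nat_lit 3689473) (nat_lit 3190570) (nat_lit 49460988) (nat_lit 14457254) [(nat_lit 0), (nat_lit 0), (nat_lit 3190570), (nat_lit 0)]) (PF.cons (PF.leaf (nat_lit 3890979) (nat_lit 329907) (nat_lit 49131147) (nat_lit 14432397) [(nat_lit 329907), (nat_lit 0), (nat_lit 3215361), (nat_lit 0)]) (PF.cons (PF.leaf (nat_lit 4112257) (nat_lit 345843) (nat_lit 48773021) (nat_lit 14403884) [(nat_lit 345843), (nat_lit 0), (nat_lit 3240220), (nat_lit 0)]) (PF.cons (PF.leaf (nat_lit 4349162) (nat_lit 360080) (nat_lit 48392176) (nat_lit 14371855) [(nat_lit 360080), (nat_lit 0), (nat_lit 3264540), (nat_lit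 0)]) (PF.cons (PF.leaf (nat_lit 4599457) (nat_lit 372946) (nat_lit 47992695) (nat_lit 14336405) [(nat_lit 372946), (nat_lit 0), (nat_lit 3287925), (nat_lit 0)]) (PF.cons (PF.leaf (nat_lit 4861225) (nat_lit 384665) (nat_lit 47577766) (nat_lit 14297609) [(nat_lit 384665), (nat_lit 0), (nat_lit 3310108), (nat_lit 0)]) (PF.cons (PF.leaf (nat_lit 5133071) (nat_lit 395395) (nat_lit 47149985) (nat_lit 14255542) [(nat_lit 395395),
 (nat_lit 0), (nat_lit 3330914), (nat_lit 0)]) (PF.cons PF.nil (PF.cons PF.nil PF.nil))))))))) (PF.cons (PF.cons (PF.leaf (nat_lit 4305285) (nat_lit 1363048) (nat_lit 48130863) (nat_lit 14344677) [(nat_lit 0), (nat_lit 1363048), (nat_lit 3270223), (nat_lit 0)]) (PF.cons (PF.leaf (nat_lit 4536462) (nat_lit 366155) (nat_lit 47757008) (nat_lit 14310405) [(nat_lit 366155), (nat_lit 1383845), (nat_lit 3291398), (nat_lit 0)]) (PF.cons (PF.leaf (nat_lit 4782611) (nat_lit 378669) (nat_lit 47363320) (nat_lit 14272573) [(nat_lit 378669), (nat_lit 1403725),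 (nat_lit 3311853), (nat_lit 0)]) (PF.cons (PF.leaf (nat_lit 5040772) (nat_lit 390003) (nat_lit 46953627) (nat_lit 14231338) [(nat_lit 390003), (nat_lit 1422548), (nat_lit 3331288), (nat_lit 0)]) (PF.cons (PF.leaf (nat_lit 5309238) (nat_lit 400335) (nat_lit 46530887) (nat_lit 14186829) [(nat_lit 400335), (nat_lit 1440247), (nat_lit 3349504), (nat_lit 0)]) (PF.cons PF.nil (PF.cons PF.nil PF.nil))))))) (PF.cons (PF.cons (PF.leaf (nat_lit 4967223) (nat_lit 1421009) (nat_lit 46730197) (nat_lit 14203935) [(nat_lit 0), (nat_lit 1421009), (nat_lit 3332660), (nat_lit 0)]) (PF.cons (PF.leaf (nat_lit 5220137) (nat_lit 394534) (nat_lit 46328051)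
 (nat_lit 14160662) [(nat_lit 394534), (nat_lit 1438022), (nat_lit 3349519), (nat_lit 0)]) (PF.cons (PF.leaf (nat_lit 5484516) (nat_lit 404570) (nat_lit 45912134) (nat_lit 14114062) [(nat_lit 404570), (nat_lit 1454078), (nat_lit 3365319), (nat_lit 0)]) (PF.cons (PF.leaf (nat_lit 5758141) (nat_lit 413714) (nat_lit 45485206) (nat_lit 14064307) [(nat_lit 413714), (nat_lit 1469122), (nat_lit 3379912), (nat_lit 0)]) (PF.cons PF.nil PF.nil))))) (PF.cons (PF.cons (PF.leaf (nat_lit 5660036) (nat_lit 1466404) (nat_lit 45293683) (nat_lit 14037357) [(nat_lit 0), (nat_lit 1466404), (nat_lit 3378558), (nat_lit 0)]) (PF.cons (PF.leaf (nat_lit 5928653) (nat_lit 417014) (nat_lit 44874788) (nat_lit 13985866) [(nat_lit 417014), (nat_lit 1480039), (nat_lit 3391025), (nat_lit 0)]) (PF.cons PF.nil (PF.cons PF.nil PF.nil)))) (PF.cons (PF.cons (PF.leaf (nat_lit 6372000) (nat_lit 1501153) (nat_lit 43846829) (nat_lit 13848062) [(nat_lit 0), (nat_lit 1501153), (nat_lit 3409306), (nat_lit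 0)]) (PF.cons PF.nil PF.nil)) (PF.cons PF.nil PF.nil)))))) (PF.cons (PF.cons (PF.cons (PF.leaf (nat_lit 4846459) (nat_lit 3317070) (nat_lit 46331981) (nat_lit 14142689) [(nat_lit 0), (nat_lit 0), (nat_lit 3317070), (nat_lit
 0)]) (PF.cons (PF.leaf (nat_lit 5081321) (nat_lit 380132) (nat_lit 45961063) (nat_lit 14101569) [(nat_lit 380132), (nat_lit 0), (nat_lit 3333024), (nat_lit 0)]) (PF.cons (PF.leaf (nat_lit 5330193) (nat_lit 391680) (nat_lit 45572146) (nat_lit 14056868) [(nat_lit 391680), (nat_lit 0), (nat_lit 3348218), (nat_lit 0)]) (PF.cons (PF.leaf (nat_lit 5590192) (nat_lit 402030) (nat_lit 45169022) (nat_lit 14008846) [(nat_lit 402030), (nat_lit 0), (nat_lit 3362426), (nat_lit 0)]) (PF.cons (PF.leaf (nat_lit 5859558) (nat_lit 411381) (nat_lit 44754573) (nat_lit 13957710) [(nat_lit 411381), (nat_lit 0), (nat_lit 3375502), (nat_lit 0)]) (PF.cons PF.nil (PF.cons PF.nil PF.nil))))))) (PF.cons (PF.cons (PF.leaf (nat_lit 5508026) (nat_lit 1449799) (nat_lit 44956878)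 (nat_lit 13978981) [(nat_lit 0), (nat_lit 1449799), (nat_lit 3361576), (nat_lit 0)]) (PF.cons (PF.leaf (nat_lit 5762216) (nat_lit 405253) (nat_lit 44562741) (nat_lit 13929554) [(nat_lit 405253), (nat_lit 1463921), (nat_lit 3373670), (nat_lit 0)]) (PF.cons (PF.leaf (nat_lit 6026997) (nat_lit 414392) (nat_lit 44156421) (nat_lit 13876942) [(nat_lit 414392), (nat_lit 1477141), (nat_lit 3384760), (nat_lit 0)]) (PF.cons (PF.leaf (nat_lit
 6300194) (nat_lit 422646) (nat_lit 43740586) (nat_lit 13821379) [(nat_lit 422646), (nat_lit 1489423), (nat_lit 3394741), (nat_lit 0)]) (PF.cons PF.nil PF.nil))))) (PF.cons (PF.cons (PF.leaf (nat_lit 6194744) (nat_lit 1485975) (nat_lit 43560097) (nat_lit 13792959) [(nat_lit 0), (nat_lit 1485975), (nat_lit 3391902), (nat_lit 0)]) (PF.cons (PF.leaf (nat_lit 6462581) (nat_lit 424880) (nat_lit 43153243) (nat_lit 13736246) [(nat_lit 424880), (nat_lit 1497080), (nat_lit 3400140), (nat_lit 0)]) (PF.cons PF.nil (PF.cons PF.nil PF.nil)))) (PF.cons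 (PF.cons (PF.leaf (nat_lit 6896051) (nat_lit 1512895) (nat_lit 42163498) (nat_lit 13587984) [(nat_lit 0), (nat_lit 1512895), (nat_lit 3409321), (nat_lit 0)]) (PF.cons PF.nil PF.nil)) (PF.cons PF.nil PF.nil))))) (PF.cons (PF.cons (PF.cons (PF.leaf (nat_lit 6032221) (nat_lit 3374239) (nat_lit 43251644) (nat_lit 13734448) [(nat_lit 0), (nat_lit 0), (nat_lit 3374239), (nat_lit 0)]) (PF.cons (PF.leaf (nat_lit 6286383) (nat_lit 413356) (nat_lit 42868144) (nat_lit 13680202) [(nat_lit 413356), (nat_lit 0), (nat_lit 3382369), (nat_lit 0)]) (PF.cons (PF.leaf (nat_lit 6550401) (nat_lit 421698) (nat_lit 42473822) (nat_lit 13622939) [(nat_lit 421698), (nat_lit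
 0), (nat_lit 3389551), (nat_lit 0)]) (PF.cons PF.nil PF.nil)))) (PF.cons (PF.cons (PF.leaf (nat_lit 6710375) (nat_lit 1498080) (nat_lit 41901761) (nat_lit 13533686) [(nat_lit 0), (nat_lit 1498080), (nat_lit 3391761), (nat_lit 0)]) (PF.cons (PF.leaf (nat_lit 6976486) (nat_lit 430513) (nat_lit 41508727) (nat_lit 13473044) [(nat_lit 430513), (nat_lit 1507039), (nat_lit 3396496), (nat_lit 0)]) PF.nil)) (PF.cons PF.nil PF.nil))) (PF.cons (PF.cons (PF.cons (PF.leaf (nat_lit 7206931) (nat_lit 3380821) (nat_lit 40321041) (nat_lit 13264486) [(nat_lit 0), (nat_lit 0), (nat_lit 3380821), (nat_lit 0)]) (PF.cons PF.nil PF.nil)) (PF.cons PF.nil PF.nil)) (PF.cons PF.nil PF.nil)))))) (PF.cons (PF.cons (PF.cons (PF.cons (PF.leaf (nat_lit 4667609) (nat_lit 9022226) (nat_lit 44321760) (nat_lit 13764825) [(nat_lit 0), (nat_lit 0), (nat_lit 0), (nat_lit 9022226)]) (PF.cons (PF.leaf (nat_lit 4867138) (nat_lit 339857) (nat_lit 44026256) (nat_lit 13729140) [(nat_lit 339857), (nat_lit 0),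 (nat_lit 0), (nat_lit 9013559)]) (PF.cons (PF.leaf (nat_lit 5085037) (nat_lit 354765) (nat_lit 43706757) (nat_lit 13689477) [(nat_lit 354765), (nat_lit 0), (nat_lit 0), (nat_lit 9003046)]) (PF.cons (PF.leaf (nat_lit
 5317121) (nat_lit 367832) (nat_lit 43368384) (nat_lit 13646270) [(nat_lit 367832), (nat_lit 0), (nat_lit 0), (nat_lit 8990661)]) (PF.cons (PF.leaf (nat_lit 5561114) (nat_lit 379436) (nat_lit 43014856) (nat_lit 13599829) [(nat_lit 379436), (nat_lit 0), (nat_lit 0), (nat_lit 8976382)]) (PF.cons (PF.leaf (nat_lit 5815133) (nat_lit 389834) (nat_lit 42649039) (nat_lit 13550395) [(nat_lit 389834), (nat_lit 0), (nat_lit 0), (nat_lit 8960203)]) (PF.cons (PF.leaf (nat_lit 6077751) (nat_lit 399212) (nat_lit 42273233) (nat_lit 13498172) [(nat_lit 399212), (nat_lit 0), (nat_lit 0), (nat_lit 8942132)]) (PF.cons PF.nil (PF.cons PF.nil PF.nil))))))))) (PF.cons (PF.cons (PF.leaf (nat_lit 5262386) (nat_lit 1376475) (nat_lit 43142396) (nat_lit 13613082) [(nat_lit 0),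 (nat_lit 1376475), (nat_lit 0), (nat_lit 8976858)]) (PF.cons (PF.leaf (nat_lit 5487899) (nat_lit 371882) (nat_lit 42812095) (nat_lit 13568963) [(nat_lit 371882), (nat_lit 1393052), (nat_lit 0), (nat_lit 8962819)]) (PF.cons (PF.leaf (nat_lit 5726941) (nat_lit 383212) (nat_lit 42465459) (nat_lit 13521444) [(nat_lit 383212), (nat_lit 1408632), (nat_lit 0), (nat_lit 8946852)]) (PF.cons (PF.leaf (nat_lit 5976674) (nat_lit 393305) (nat_lit
 42105913) (nat_lit 13470856) [(nat_lit 393305), (nat_lit 1423138), (nat_lit 0), (nat_lit 8928987)]) (PF.cons (PF.leaf (nat_lit 6235369) (nat_lit 402368) (nat_lit 41736071) (nat_lit 13417456) [(nat_lit 402368), (nat_lit 1436556), (nat_lit 0), (nat_lit 8909253)]) (PF.cons (PF.leaf (nat_lit 6501693) (nat_lit 410551) (nat_lit 41358011) (nat_lit 13361457) [(nat_lit 410551), (nat_lit 1448897), (nat_lit 0), (nat_lit 8887690)]) (PF.cons PF.nil PF.nil))))))) (PF.cons (PF.cons (PF.leaf (nat_lit 5894126) (nat_lit 1419752) (nat_lit 41914973) (nat_lit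 13439921) [(nat_lit 0), (nat_lit 1419752), (nat_lit 0), (nat_lit 8914412)]) (PF.cons (PF.leaf (nat_lit 6138051) (nat_lit 396092) (nat_lit 41563479) (nat_lit 13388553) [(nat_lit 396092), (nat_lit 1432797), (nat_lit 0), (nat_lit 8895093)]) (PF.cons (PF.leaf (nat_lit 6392185) (nat_lit 404937) (nat_lit 41200934) (nat_lit 13334287) [(nat_lit 404937), (nat_lit 1444904), (nat_lit 0), (nat_lit 8873905)]) (PF.cons (PF.leaf (nat_lit 6654364) (nat_lit 412881) (nat_lit 40829746) (nat_lit 13277392) [(nat_lit 412881), (nat_lit 1456059), (nat_lit 0), (nat_lit 8850910)]) (PF.cons PF.nil PF.nil))))) (PF.cons (PF.cons (PF.leaf (nat_lit 6549400) (nat_lit 1452120)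
 (nat_lit 40667564) (nat_lit 13248710) [(nat_lit 0), (nat_lit 1452120), (nat_lit 0), (nat_lit 8836174)]) (PF.cons (PF.leaf (nat_lit 6806292) (nat_lit 414705) (nat_lit 40304414) (nat_lit 13191218) [(nat_lit 414705), (nat_lit 1462174), (nat_lit 0), (nat_lit 8811951)]) (PF.cons (PF.leaf (nat_lit 7070936) (nat_lit 421690) (nat_lit 39934010) (nat_lit 13131280) [(nat_lit 421690), (nat_lit 1471380), (nat_lit 0), (nat_lit 8786000)]) (PF.cons PF.nil PF.nil)))) (PF.cons (PF.cons (PF.leaf (nat_lit 7218338) (nat_lit 1475597) (nat_lit 39419824) (nat_lit 13042678) [(nat_lit 0), (nat_lit 1475597), (nat_lit 0), (nat_lit 8743922)]) (PF.cons PF.nil PF.nil)) (PF.cons PF.nil PF.nil)))))) (PF.cons (PF.cons (PF.cons (PF.leaf (nat_lit 5758866) (nat_lit 3269019) (nat_lit 41585598) (nat_lit 13376720) [(nat_lit 0), (nat_lit 0), (nat_lit 3269019), (nat_lit 8877475)]) (PF.cons (PF.leaf (nat_lit 5986119) (nat_lit 381498) (nat_lit 41261266) (nat_lit 13328606) [(nat_lit 381498), (nat_lit 0), (nat_lit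 3278279), (nat_lit 8859162)]) (PF.cons (PF.leaf (nat_lit 6226123) (nat_lit 391955) (nat_lit 40922072) (nat_lit 13277173) [(nat_lit 391955), (nat_lit 0), (nat_lit 3286750), (nat_lit 8838906)]) (PF.cons (PF.leaf
 (nat_lit 6476017) (nat_lit 401185) (nat_lit 40571349) (nat_lit 13222808) [(nat_lit 401185), (nat_lit 0), (nat_lit 3294298), (nat_lit 8816800)]) (PF.cons (PF.leaf (nat_lit 6734147) (nat_lit 409406) (nat_lit 40211607) (nat_lit 13165809) [(nat_lit 409406), (nat_lit 0), (nat_lit 3300847), (nat_lit 8792921)]) (PF.cons PF.nil (PF.cons PF.nil PF.nil))))))) (PF.cons (PF.cons (PF.leaf (nat_lit 6386720) (nat_lit 1435027) (nat_lit 40391184) (nat_lit 13191076) [(nat_lit 0), (nat_lit 1435027), (nat_lit 3290776), (nat_lit 8800747)]) (PF.cons (PF.leaf (nat_lit 6630528) (nat_lit 402973) (nat_lit 40049270) (nat_lit 13136369) [(nat_lit 402973), (nat_lit 1445808), (nat_lit 3296813), (nat_lit 8777576)]) (PF.cons (PF.leaf (nat_lit 6883826) (nat_lit 411053) (nat_lit 39697496) (nat_lit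 13078923) [(nat_lit 411053), (nat_lit 1455719), (nat_lit 3301949), (nat_lit 8752616)]) (PF.cons (PF.leaf (nat_lit 7144507) (nat_lit 418250) (nat_lit 39338164) (nat_lit 13019037) [(nat_lit 418250), (nat_lit 1464758), (nat_lit 3306134), (nat_lit 8725964)]) (PF.cons PF.nil PF.nil))))) (PF.cons (PF.cons (PF.leaf (nat_lit 7033987) (nat_lit 1460428) (nat_lit 39185937) (nat_lit 12990106) [(nat_lit 0), (nat_lit 1460428), (nat_lit
 3301563), (nat_lit 8710348)]) (PF.cons (PF.leaf (nat_lit 7289208) (nat_lit 419282) (nat_lit 38835072) (nat_lit 12930007) [(nat_lit 419282), (nat_lit 1468552), (nat_lit 3304529), (nat_lit 8682815)]) (PF.cons PF.nil (PF.cons PF.nil PF.nil)))) (PF.cons (PF.cons (PF.leaf (nat_lit 7691726) (nat_lit 1478116) (nat_lit 37986722) (nat_lit 12776979) [(nat_lit 0), (nat_lit 1478116), (nat_lit 3302643), (nat_lit 8608116)]) (PF.cons PF.nil PF.nil)) (PF.cons PF.nil PF.nil))))) (PF.cons (PF.cons (PF.cons (PF.leaf (nat_lit 6863775) (nat_lit 3283169) (nat_lit 38933245)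 (nat_lit 12934104) [(nat_lit 0), (nat_lit 0), (nat_lit 3283169), (nat_lit 8675124)]) (PF.cons (PF.leaf (nat_lit 7106579) (nat_lit 407938) (nat_lit 38602243) (nat_lit 12876939) [(nat_lit 407938), (nat_lit 0), (nat_lit 3286410), (nat_lit 8648870)]) (PF.cons (PF.leaf (nat_lit 7358299) (nat_lit 415340) (nat_lit 38262402) (nat_lit 12817196) [(nat_lit 415340), (nat_lit 0), (nat_lit 3288809), (nat_lit 8620914)]) (PF.cons PF.nil PF.nil)))) (PF.cons (PF.cons (PF.leaf (nat_lit 7501595) (nat_lit 1463594) (nat_lit 37773297) (nat_lit 12726363) [(nat_lit 0), (nat_lit 1463594), (nat_lit 3285163), (nat_lit 8575230)]) (PF.cons (PF.leaf (nat_lit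
 7754530) (nat_lit 422256) (nat_lit 37435481) (nat_lit 12664473) [(nat_lit 422256), (nat_lit 1470083), (nat_lit 3285701), (nat_lit 8545114)]) PF.nil)) (PF.cons PF.nil PF.nil))) (PF.cons (PF.cons (PF.cons (PF.leaf (nat_lit 7952561) (nat_lit 3261929) (nat_lit 36429176) (nat_lit 12460348) [(nat_lit 0), (nat_lit 0), (nat_lit 3261929), (nat_lit 8433499)]) (PF.cons PF.nil PF.nil)) (PF.cons PF.nil PF.nil)) (PF.cons PF.nil PF.nil))))) (PF.cons (PF.cons (PF.cons (PF.cons (PF.leaf (nat_lit 6561942) (nat_lit 8461976) (nat_lit 37578484) (nat_lit 12606374) [(nat_lit 0), (nat_lit 0), (nat_lit 0), (nat_lit 8461976)]) (PF.cons (PF.leaf (nat_lit 6780759) (nat_lit 377437) (nat_lit 37296448) (nat_lit 12556390) [(nat_lit 377437), (nat_lit 0), (nat_lit 0), (nat_lit 8439268)]) (PF.cons (PF.leaf (nat_lit 7011321) (nat_lit 386992) (nat_lit 37001960) (nat_lit 12503384) [(nat_lit 386992), (nat_lit 0), (nat_lit 0), (nat_lit 8414740)]) (PF.cons (PF.leaf (nat_lit 7250829) (nat_lit 395325) (nat_lit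 36697921) (nat_lit 12447795) [(nat_lit 395325), (nat_lit 0), (nat_lit 0), (nat_lit 8388558)]) (PF.cons (PF.leaf (nat_lit 7497694) (nat_lit 402663) (nat_lit 36386497) (nat_lit 12389954) [(nat_lit 402663), (nat_lit 0),
 (nat_lit 0), (nat_lit 8360852)]) PF.nil))))) (PF.cons (PF.cons (PF.leaf (nat_lit 7157379) (nat_lit 1404302) (nat_lit 36545062) (nat_lit 12416645) [(nat_lit 0), (nat_lit 1404302), (nat_lit 0), (nat_lit 8371401)]) (PF.cons (PF.leaf (nat_lit 7390714) (nat_lit 396149) (nat_lit 36249118) (nat_lit 12361311) [(nat_lit 396149), (nat_lit 1412740), (nat_lit 0), (nat_lit 8344746)]) (PF.cons (PF.leaf (nat_lit 7632714) (nat_lit 403399) (nat_lit 35945000) (nat_lit 12303601) [(nat_lit 403399), (nat_lit 1420356), (nat_lit 0), (nat_lit 8316527)]) (PF.cons PF.nil PF.nil)))) (PF.cons (PF.cons (PF.leaf (nat_lit 7768469) (nat_lit 1422423) (nat_lit 35506059) (nat_lit 12216072) [(nat_lit 0), (nat_lit 1422423), (nat_lit 0), (nat_lit 8270917)]) (PF.cons (PF.leaf (nat_lit 8011649)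 (nat_lit 410031) (nat_lit 35203348) (nat_lit 12156605) [(nat_lit 410031), (nat_lit 1428509), (nat_lit 0), (nat_lit 8240904)]) PF.nil)) (PF.cons PF.nil (PF.cons PF.nil PF.nil))))) (PF.cons (PF.cons (PF.cons (PF.leaf (nat_lit 7594948) (nat_lit 3171251) (nat_lit 35298038) (nat_lit 12164644) [(nat_lit 0), (nat_lit 0), (nat_lit 3171251), (nat_lit 8237438)]) (PF.cons (PF.leaf (nat_lit 7826796) (nat_lit 399075) (nat_lit 35012151)
 (nat_lit 12108198) [(nat_lit 399075), (nat_lit 0), (nat_lit 3171477), (nat_lit 8208954)]) (PF.cons (PF.leaf (nat_lit 8066835) (nat_lit 405742) (nat_lit 34718875) (nat_lit 12049521) [(nat_lit 405742), (nat_lit 0), (nat_lit 3170951), (nat_lit 8178989)]) (PF.cons PF.nil PF.nil)))) (PF.cons (PF.cons (PF.leaf (nat_lit 8196562) (nat_lit 1420185) (nat_lit 34299589) (nat_lit 11961719) [(nat_lit 0), (nat_lit 1420185), (nat_lit 3163983), (nat_lit 8131667)]) (PF.cons PF.nil PF.nil)) (PF.cons PF.nil PF.nil))) (PF.cons (PF.cons (PF.cons (PF.leaf (nat_lit 8610180)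 (nat_lit 3134389) (nat_lit 33151528) (nat_lit 11708988) [(nat_lit 0), (nat_lit 0), (nat_lit 3134389), (nat_lit 7989758)]) (PF.cons PF.nil PF.nil)) (PF.cons PF.nil PF.nil)) PF.nil))) (PF.cons (PF.cons (PF.cons (PF.cons (PF.leaf (nat_lit 8247419) (nat_lit 7813694) (nat_lit 32220173) (nat_lit 11447555) [(nat_lit 0), (nat_lit 0), (nat_lit 0), (nat_lit 7813694)]) (PF.cons (PF.leaf (nat_lit 8468988) (nat_lit 388480) (nat_lit 31972219) (nat_lit 11393568) [(nat_lit 388480), (nat_lit 0), (nat_lit 0), (nat_lit 7784848)]) (PF.cons PF.nil (PF.cons PF.nil PF.nil)))) (PF.cons (PF.cons (PF.leaf (nat_lit 8816739) (nat_lit 1373083) (nat_lit 31356588)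
 (nat_lit 11254888) [(nat_lit 0), (nat_lit 1373083), (nat_lit 0), (nat_lit 7708083)]) (PF.cons PF.nil PF.nil)) (PF.cons PF.nil PF.nil))) (PF.cons (PF.cons (PF.cons (PF.leaf (nat_lit 9199346) (nat_lit 3006460) (nat_lit 30369580) (nat_lit 11019403) [(nat_lit 0), (nat_lit 0), (nat_lit 3006460), (nat_lit 7571123)]) (PF.cons PF.nil PF.nil)) PF.nil) PF.nil)) (PF.cons PF.nil (PF.cons PF.nil (PF.cons PF.nil (PF.cons PF.nil PF.nil))))))))

def p12_12_2_0 : pfC (piC [(nat_lit 40173837), (nat_lit 25770221), (nat_lit 19310217), (nat_lit 12946273)] (nat_lit 7360548)) p12_12_2 (nat_lit 4) (nat_lit 0) (nat_lit 1) = true := by decide +kernel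
def p12_12_2_1 : pfC (piC [(nat_lit 40173837), (nat_lit 25770221), (nat_lit 19310217), (nat_lit 12946273)] (nat_lit 7360548)) p12_12_2 (nat_lit 4) (nat_lit 1) (nat_lit 2) = true := by decide +kernel
def p12_12_2_2 : pfC (piC [(nat_lit 40173837), (nat_lit 25770221), (nat_lit 19310217), (nat_lit 12946273)] (nat_lit 7360548)) p12_12_2 (nat_lit 4) (nat_lit 2) (nat_lit 3) = true := by decide +kernel
def p12_12_2_3 : pfC (piC [(nat_lit 40173837), (nat_lit 25770221), (nat_lit 19310217), (nat_lit 12946273)] (nat_lit 7360548)) p12_12_2 (nat_lit 4) (nat_lit 3) (nat_lit 4) = true := by decide +kernel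
def p12_12_2_4 : pfC (piC [(nat_lit 40173837), (nat_lit 25770221), (nat_lit 19310217), (nat_lit 12946273)] (nat_lit 7360548)) p12_12_2 (nat_lit 4) (nat_lit 4) (nat_lit 5) = true := by decide +kernel
def p12_12_2_5 : pfC (piC [(nat_lit 40173837), (nat_lit 25770221), (nat_lit 19310217), (nat_lit 12946273)] (nat_lit 7360548)) p12_12_2 (nat_lit 4) (nat_lit 5) (nat_lit 6) = true := by decide +kernel
def p12_12_2_6 : pfC (piC [(nat_lit 40173837), (nat_lit 25770221), (nat_lit 19310217), (nat_lit 12946273)] (nat_lit 7360548)) p12_12_2 (nat_lit 4) (nat_lit 6) (nat_lit 7) = true := by decide +kernel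
def p12_12_2_7 : pfC (piC [(nat_lit 40173837), (nat_lit 25770221), (nat_lit 19310217), (nat_lit 12946273)] (nat_lit 7360548)) p12_12_2 (nat_lit 4) (nat_lit 7) (nat_lit 8) = true := by decide +kernel
def p12_12_2_8 : pfC (piC [(nat_lit 40173837), (nat_lit 25770221), (nat_lit 19310217), (nat_lit 12946273)] (nat_lit 7360548)) p12_12_2 (nat_lit 4) (nat_lit 8) (nat_lit 9) = true := by decide +kernel
def p12_12_2_9 : pfC (piC [(nat_lit 40173837), (nat_lit 25770221), (nat_lit 19310217), (nat_lit 12946273)] (nat_lit 7360548)) p12_12_2 (nat_lit 4) (nat_lit 9) (nat_lit 10) = true := by decide +kernel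
def p12_12_2_10 : pfC (piC [(nat_lit 40173837), (nat_lit 25770221), (nat_lit 19310217), (nat_lit 12946273)] (nat_lit 7360548)) p12_12_2 (nat_lit 4) (nat_lit 10) (nat_lit 11) = true := by decide +kernel
def p12_12_2_11 : pfC (piC [(nat_lit 40173837), (nat_lit 25770221), (nat_lit 19310217), (nat_lit 12946273)] (nat_lit 7360548)) p12_12_2 (nat_lit 4) (nat_lit 11) (nat_lit 12) = true := by decide +kernel
def p12_12_2_12 : pfC (piC [(nat_lit 40173837), (nat_lit 25770221), (nat_lit 19310217), (nat_lit 12946273)] (nat_lit 7360548)) p12_12_2 (nat_lit 4) (nat_lit 12) (nat_lit 13) = true := by decide +kernel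
def p12_12_2_13 : pfC (piC [(nat_lit 40173837), (nat_lit 25770221), (nat_lit 19310217), (nat_lit 12946273)] (nat_lit 7360548)) p12_12_2 (nat_lit 4) (nat_lit 13) (nat_lit 14) = true := by decide +kernel
def p12_12_2_14 : pfC (piC [(nat_lit 40173837), (nat_lit 25770221), (nat_lit 19310217), (nat_lit 12946273)] (nat_lit 7360548)) p12_12_2 (nat_lit 4) (nat_lit 14) (nat_lit 15) = true := by decide +kernel
def p12_12_2_15 : pfC (piC [(nat_lit 40173837), (nat_lit 25770221), (nat_lit 19310217), (nat_lit 12946273)] (nat_lit 7360548)) p12_12_2 (nat_lit 4) (nat_lit 15) (nat_lit 16) = true := by decide +kernel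
def p12_12_2_16 : pfC (piC [(nat_lit 40173837), (nat_lit 25770221), (nat_lit 19310217), (nat_lit 12946273)] (nat_lit 7360548)) p12_12_2 (nat_lit 4) (nat_lit 16) (nat_lit 17) = true := by decide +kernel
def p12_12_2_17 : pfC (piC [(nat_lit 40173837), (nat_lit 25770221), (nat_lit 19310217), (nat_lit 12946273)] (nat_lit 7360548)) p12_12_2 (nat_lit 4) (nat_lit 17) (nat_lit 18) = true := by decide +kernel
def p12_12_2_18 : pfC (piC [(nat_lit 40173837), (nat_lit 25770221), (nat_lit 19310217), (nat_lit 12946273)] (nat_lit 7360548)) p12_12_2 (nat_lit 4) (nat_lit 18) (nat_lit 19) = true := by decide +kernel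
def p12_12_2_19 : pfC (piC [(nat_lit 40173837), (nat_lit 25770221), (nat_lit 19310217), (nat_lit 12946273)] (nat_lit 7360548)) p12_12_2 (nat_lit 4) (nat_lit 19) (nat_lit 20) = true := by decide +kernel
def p12_12_2_20 : pfC (piC [(nat_lit 40173837), (nat_lit 25770221), (nat_lit 19310217), (nat_lit 12946273)] (nat_lit 7360548)) p12_12_2 (nat_lit 4) (nat_lit 20) (nat_lit 21) = true := by decide +kernel
def p12_12_2_21 : pfC (piC [(nat_lit 40173837), (nat_lit 25770221), (nat_lit 19310217), (nat_lit 12946273)] (nat_lit 7360548)) p12_12_2 (nat_lit 4) (nat_lit 21) (nat_lit 22) = true := by decide +kernel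
def p12_12_2_22 : pfC (piC [(nat_lit 40173837), (nat_lit 25770221), (nat_lit 19310217), (nat_lit 12946273)] (nat_lit 7360548)) p12_12_2 (nat_lit 4) (nat_lit 22) (nat_lit 23) = true := by decide +kernel
def p12_12_2_23 : pfC (piC [(nat_lit 40173837), (nat_lit 25770221), (nat_lit 19310217), (nat_lit 12946273)] (nat_lit 7360548)) p12_12_2 (nat_lit 4) (nat_lit 23) (nat_lit 24) = true := by decide +kernel
def p12_12_2_24 : pfC (piC [(nat_lit 40173837), (nat_lit 25770221), (nat_lit 19310217), (nat_lit 12946273)] (nat_lit 7360548)) p12_12_2 (nat_lit 4) (nat_lit 24) (nat_lit 25) = true := by decide +kernel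
def p12_12_2_25 : pfC (piC [(nat_lit 40173837), (nat_lit 25770221), (nat_lit 19310217), (nat_lit 12946273)] (nat_lit 7360548)) p12_12_2 (nat_lit 4) (nat_lit 25) (nat_lit 26) = true := by decide +kernel
def p12_12_2_26 : pfC (piC [(nat_lit 40173837), (nat_lit 25770221), (nat_lit 19310217), (nat_lit 12946273)] (nat_lit 7360548)) p12_12_2 (nat_lit 4) (nat_lit 26) (nat_lit 27) = true := by decide +kernel
def p12_12_2_27 : pfC (piC [(nat_lit 40173837), (nat_lit 25770221), (nat_lit 19310217), (nat_lit 12946273)] (nat_lit 7360548)) p12_12_2 (nat_lit 4) (nat_lit 27) (nat_lit 28) = true := by decide +kernel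
def p12_12_2_28 : pfC (piC [(nat_lit 40173837), (nat_lit 25770221), (nat_lit 19310217), (nat_lit 12946273)] (nat_lit 7360548)) p12_12_2 (nat_lit 4) (nat_lit 28) (nat_lit 29) = true := by decide +kernel
def p12_12_2_29 : pfC (piC [(nat_lit 40173837), (nat_lit 25770221), (nat_lit 19310217), (nat_lit 12946273)] (nat_lit 7360548)) p12_12_2 (nat_lit 4) (nat_lit 29) (nat_lit 30) = true := by decide +kernel
def p12_12_2_30 : pfC (piC [(nat_lit 40173837), (nat_lit 25770221), (nat_lit 19310217), (nat_lit 12946273)] (nat_lit 7360548)) p12_12_2 (nat_lit 4) (nat_lit 30) (nat_lit 31) = true := by decide +kernel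
def p12_12_2_31 : pfC (piC [(nat_lit 40173837), (nat_lit 25770221), (nat_lit 19310217), (nat_lit 12946273)] (nat_lit 7360548)) p12_12_2 (nat_lit 4) (nat_lit 31) (nat_lit 32) = true := by decide +kernel
def p12_12_2_32 : pfC (piC [(nat_lit 40173837), (nat_lit 25770221), (nat_lit 19310217), (nat_lit 12946273)] (nat_lit 7360548)) p12_12_2 (nat_lit 4) (nat_lit 32) (nat_lit 33) = true := by decide +kernel
def p12_12_2_33 : pfC (piC [(nat_lit 40173837), (nat_lit 25770221), (nat_lit 19310217), (nat_lit 12946273)] (nat_lit 7360548)) p12_12_2 (nat_lit 4) (nat_lit 33) (nat_lit 34) = true := by decide +kernel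
def p12_12_2_34 : pfC (piC [(nat_lit 40173837), (nat_lit 25770221), (nat_lit 19310217), (nat_lit 12946273)] (nat_lit 7360548)) p12_12_2 (nat_lit 4) (nat_lit 34) (nat_lit 35) = true := by decide +kernel
def p12_12_2_35 : pfC (piC [(nat_lit 40173837), (nat_lit 25770221), (nat_lit 19310217), (nat_lit 12946273)] (nat_lit 7360548)) p12_12_2 (nat_lit 4) (nat_lit 35) (nat_lit 36) = true := by decide +kernel
def p12_12_2_36 : pfC (piC [(nat_lit 40173837), (nat_lit 25770221), (nat_lit 19310217), (nat_lit 12946273)] (nat_lit 7360548)) p12_12_2 (nat_lit 4) (nat_lit 36) (nat_lit 37) = true := by decide +kernel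
def p12_12_2_37 : pfC (piC [(nat_lit 40173837), (nat_lit 25770221), (nat_lit 19310217), (nat_lit 12946273)] (nat_lit 7360548)) p12_12_2 (nat_lit 4) (nat_lit 37) (nat_lit 38) = true := by decide +kernel
def p12_12_2_38 : pfC (piC [(nat_lit 40173837), (nat_lit 25770221), (nat_lit 19310217), (nat_lit 12946273)] (nat_lit 7360548)) p12_12_2 (nat_lit 4) (nat_lit 38) (nat_lit 39) = true := by decide +kernel
def p12_12_2_39 : pfC (piC [(nat_lit 40173837), (nat_lit 25770221), (nat_lit 19310217), (nat_lit 12946273)] (nat_lit 7360548)) p12_12_2 (nat_lit 4) (nat_lit 39) (nat_lit 40) = true := by decide +kernel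
def p12_12_2_40 : pfC (piC [(nat_lit 40173837), (nat_lit 25770221), (nat_lit 19310217), (nat_lit 12946273)] (nat_lit 7360548)) p12_12_2 (nat_lit 4) (nat_lit 40) (nat_lit 41) = true := by decide +kernel
def p12_12_2_41 : pfC (piC [(nat_lit 40173837), (nat_lit 25770221), (nat_lit 19310217), (nat_lit 12946273)] (nat_lit 7360548)) p12_12_2 (nat_lit 4) (nat_lit 41) (nat_lit 42) = true := by decide +kernel
def p12_12_2_42 : pfC (piC [(nat_lit 40173837), (nat_lit 25770221), (nat_lit 19310217), (nat_lit 12946273)] (nat_lit 7360548)) p12_12_2 (nat_lit 4) (nat_lit 42) (nat_lit 43) = true := by decide +kernel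
def p12_12_2_43 : pfC (piC [(nat_lit 40173837), (nat_lit 25770221), (nat_lit 19310217), (nat_lit 12946273)] (nat_lit 7360548)) p12_12_2 (nat_lit 4) (nat_lit 43) (nat_lit 44) = true := by decide +kernel
def p12_12_2_44 : pfC (piC [(nat_lit 40173837), (nat_lit 25770221), (nat_lit 19310217), (nat_lit 12946273)] (nat_lit 7360548)) p12_12_2 (nat_lit 4) (nat_lit 44) (nat_lit 45) = true := by decide +kernel
def p12_12_2_45 : pfC (piC [(nat_lit 40173837), (nat_lit 25770221), (nat_lit 19310217), (nat_lit 12946273)] (nat_lit 7360548)) p12_12_2 (nat_lit 4) (nat_lit 45) (nat_lit 46) = true := by decide +kernel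
def p12_12_2_46 : pfC (piC [(nat_lit 40173837), (nat_lit 25770221), (nat_lit 19310217), (nat_lit 12946273)] (nat_lit 7360548)) p12_12_2 (nat_lit 4) (nat_lit 46) (nat_lit 47) = true := by decide +kernel
def p12_12_2_47 : pfC (piC [(nat_lit 40173837), (nat_lit 25770221), (nat_lit 19310217), (nat_lit 12946273)] (nat_lit 7360548)) p12_12_2 (nat_lit 4) (nat_lit 47) (nat_lit 48) = true := by decide +kernel
def p12_12_2_48 : pfC (piC [(nat_lit 40173837), (nat_lit 25770221), (nat_lit 19310217), (nat_lit 12946273)] (nat_lit 7360548)) p12_12_2 (nat_lit 4) (nat_lit 48) (nat_lit 49) = true := by decide +kernel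
def p12_12_2_49 : pfC (piC [(nat_lit 40173837), (nat_lit 25770221), (nat_lit 19310217), (nat_lit 12946273)] (nat_lit 7360548)) p12_12_2 (nat_lit 4) (nat_lit 49) (nat_lit 50) = true := by decide +kernel
def p12_12_2_50 : pfC (piC [(nat_lit 40173837), (nat_lit 25770221), (nat_lit 19310217), (nat_lit 12946273)] (nat_lit 7360548)) p12_12_2 (nat_lit 4) (nat_lit 50) (nat_lit 51) = true := by decide +kernel
def p12_12_2_51 : pfC (piC [(nat_lit 40173837), (nat_lit 25770221), (nat_lit 19310217), (nat_lit 12946273)] (nat_lit 7360548)) p12_12_2 (nat_lit 4) (nat_lit 51) (nat_lit 52) = true := by decide +kernel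
def p12_12_2_52 : pfC (piC [(nat_lit 40173837), (nat_lit 25770221), (nat_lit 19310217), (nat_lit 12946273)] (nat_lit 7360548)) p12_12_2 (nat_lit 4) (nat_lit 52) (nat_lit 53) = true := by decide +kernel
def p12_12_2_53 : pfC (piC [(nat_lit 40173837), (nat_lit 25770221), (nat_lit 19310217), (nat_lit 12946273)] (nat_lit 7360548)) p12_12_2 (nat_lit 4) (nat_lit 53) (nat_lit 54) = true := by decide +kernel
def p12_12_2_54 : pfC (piC [(nat_lit 40173837), (nat_lit 25770221), (nat_lit 19310217), (nat_lit 12946273)] (nat_lit 7360548)) p12_12_2 (nat_lit 4) (nat_lit 54) (nat_lit 55) = true := by decide +kernel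
def p12_12_2_55 : pfC (piC [(nat_lit 40173837), (nat_lit 25770221), (nat_lit 19310217), (nat_lit 12946273)] (nat_lit 7360548)) p12_12_2 (nat_lit 4) (nat_lit 55) (nat_lit 56) = true := by decide +kernel
def p12_12_2_56 : pfC (piC [(nat_lit 40173837), (nat_lit 25770221), (nat_lit 19310217), (nat_lit 12946273)] (nat_lit 7360548)) p12_12_2 (nat_lit 4) (nat_lit 56) (nat_lit 57) = true := by decide +kernel
def p12_12_2_57 : pfC (piC [(nat_lit 40173837), (nat_lit 25770221), (nat_lit 19310217), (nat_lit 12946273)] (nat_lit 7360548)) p12_12_2 (nat_lit 4) (nat_lit 57) (nat_lit 58) = true := by decide +kernel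
def p12_12_2_58 : pfC (piC [(nat_lit 40173837), (nat_lit 25770221), (nat_lit 19310217), (nat_lit 12946273)] (nat_lit 7360548)) p12_12_2 (nat_lit 4) (nat_lit 58) (nat_lit 59) = true := by decide +kernel
def p12_12_2_59 : pfC (piC [(nat_lit 40173837), (nat_lit 25770221), (nat_lit 19310217), (nat_lit 12946273)] (nat_lit 7360548)) p12_12_2 (nat_lit 4) (nat_lit 59) (nat_lit 60) = true := by decide +kernel
def p12_12_2_60 : pfC (piC [(nat_lit 40173837), (nat_lit 25770221), (nat_lit 19310217), (nat_lit 12946273)] (nat_lit 7360548)) p12_12_2 (nat_lit 4) (nat_lit 60) (nat_lit 61) = true := by decide +kernel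
def p12_12_2_61 : pfC (piC [(nat_lit 40173837), (nat_lit 25770221), (nat_lit 19310217), (nat_lit 12946273)] (nat_lit 7360548)) p12_12_2 (nat_lit 4) (nat_lit 61) (nat_lit 62) = true := by decide +kernel
def p12_12_2_62 : pfC (piC [(nat_lit 40173837), (nat_lit 25770221), (nat_lit 19310217), (nat_lit 12946273)] (nat_lit 7360548)) p12_12_2 (nat_lit 4) (nat_lit 62) (nat_lit 63) = true := by decide +kernel
def p12_12_2_63 : pfC (piC [(nat_lit 40173837), (nat_lit 25770221), (nat_lit 19310217), (nat_lit 12946273)] (nat_lit 7360548)) p12_12_2 (nat_lit 4) (nat_lit 63) (nat_lit 64) = true := by decide +kernel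
def p12_12_2_64 : pfC (piC [(nat_lit 40173837), (nat_lit 25770221), (nat_lit 19310217), (nat_lit 12946273)] (nat_lit 7360548)) p12_12_2 (nat_lit 4) (nat_lit 64) (nat_lit 65) = true := by decide +kernel
def p12_12_2_65 : pfC (piC [(nat_lit 40173837), (nat_lit 25770221), (nat_lit 19310217), (nat_lit 12946273)] (nat_lit 7360548)) p12_12_2 (nat_lit 4) (nat_lit 65) (nat_lit 66) = true := by decide +kernel
def p12_12_2_66 : pfC (piC [(nat_lit 40173837), (nat_lit 25770221), (nat_lit 19310217), (nat_lit 12946273)] (nat_lit 7360548)) p12_12_2 (nat_lit 4) (nat_lit 66) (nat_lit 67) = true := by decide +kernel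
def p12_12_2_67 : pfC (piC [(nat_lit 40173837), (nat_lit 25770221), (nat_lit 19310217), (nat_lit 12946273)] (nat_lit 7360548)) p12_12_2 (nat_lit 4) (nat_lit 67) (nat_lit 68) = true := by decide +kernel
def p12_12_2_68 : pfC (piC [(nat_lit 40173837), (nat_lit 25770221), (nat_lit 19310217), (nat_lit 12946273)] (nat_lit 7360548)) p12_12_2 (nat_lit 4) (nat_lit 68) (nat_lit 69) = true := by decide +kernel
def p12_12_2_69 : pfC (piC [(nat_lit 40173837), (nat_lit 25770221), (nat_lit 19310217), (nat_lit 12946273)] (nat_lit 7360548)) p12_12_2 (nat_lit 4) (nat_lit 69) (nat_lit 70) = true := by decide +kernel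
def p12_12_2_70 : pfC (piC [(nat_lit 40173837), (nat_lit 25770221), (nat_lit 19310217), (nat_lit 12946273)] (nat_lit 7360548)) p12_12_2 (nat_lit 4) (nat_lit 70) (nat_lit 71) = true := by decide +kernel
def p12_12_2_71 : pfC (piC [(nat_lit 40173837), (nat_lit 25770221), (nat_lit 19310217), (nat_lit 12946273)] (nat_lit 7360548)) p12_12_2 (nat_lit 4) (nat_lit 71) (nat_lit 72) = true := by decide +kernel
def p12_12_2_72 : pfC (piC [(nat_lit 40173837), (nat_lit 25770221), (nat_lit 19310217), (nat_lit 12946273)] (nat_lit 7360548)) p12_12_2 (nat_lit 4) (nat_lit 72) (nat_lit 73) = true := by decide +kernel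
def p12_12_2_73 : pfC (piC [(nat_lit 40173837), (nat_lit 25770221), (nat_lit 19310217), (nat_lit 12946273)] (nat_lit 7360548)) p12_12_2 (nat_lit 4) (nat_lit 73) (nat_lit 74) = true := by decide +kernel
def p12_12_2_74 : pfC (piC [(nat_lit 40173837), (nat_lit 25770221), (nat_lit 19310217), (nat_lit 12946273)] (nat_lit 7360548)) p12_12_2 (nat_lit 4) (nat_lit 74) (nat_lit 75) = true := by decide +kernel
def p12_12_2_75 : pfC (piC [(nat_lit 40173837), (nat_lit 25770221), (nat_lit 19310217), (nat_lit 12946273)] (nat_lit 7360548)) p12_12_2 (nat_lit 4) (nat_lit 75) (nat_lit 76) = true := by decide +kernel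
def p12_12_2_76 : pfC (piC [(nat_lit 40173837), (nat_lit 25770221), (nat_lit 19310217), (nat_lit 12946273)] (nat_lit 7360548)) p12_12_2 (nat_lit 4) (nat_lit 76) (nat_lit 77) = true := by decide +kernel
def p12_12_2_77 : pfC (piC [(nat_lit 40173837), (nat_lit 25770221), (nat_lit 19310217), (nat_lit 12946273)] (nat_lit 7360548)) p12_12_2 (nat_lit 4) (nat_lit 77) (nat_lit 78) = true := by decide +kernel
def p12_12_2_78 : pfC (piC [(nat_lit 40173837), (nat_lit 25770221), (nat_lit 19310217), (nat_lit 12946273)] (nat_lit 7360548)) p12_12_2 (nat_lit 4) (nat_lit 78) (nat_lit 79) = true := by decide +kernel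
def p12_12_2_79 : pfC (piC [(nat_lit 40173837), (nat_lit 25770221), (nat_lit 19310217), (nat_lit 12946273)] (nat_lit 7360548)) p12_12_2 (nat_lit 4) (nat_lit 79) (nat_lit 80) = true := by decide +kernel
def p12_12_2_80 : pfC (piC [(nat_lit 40173837), (nat_lit 25770221), (nat_lit 19310217), (nat_lit 12946273)] (nat_lit 7360548)) p12_12_2 (nat_lit 4) (nat_lit 80) (nat_lit 81) = true := by decide +kernel
def p12_12_2_81 : pfC (piC [(nat_lit 40173837), (nat_lit 25770221), (nat_lit 19310217), (nat_lit 12946273)] (nat_lit 7360548)) p12_12_2 (nat_lit 4) (nat_lit 81) (nat_lit 82) = true := by decide +kernel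
def p12_12_2_82 : pfC (piC [(nat_lit 40173837), (nat_lit 25770221), (nat_lit 19310217), (nat_lit 12946273)] (nat_lit 7360548)) p12_12_2 (nat_lit 4) (nat_lit 82) (nat_lit 83) = true := by decide +kernel
def p12_12_2_83 : pfC (piC [(nat_lit 40173837), (nat_lit 25770221), (nat_lit 19310217), (nat_lit 12946273)] (nat_lit 7360548)) p12_12_2 (nat_lit 4) (nat_lit 83) (nat_lit 84) = true := by decide +kernel
def p12_12_2_84 : pfC (piC [(nat_lit 40173837), (nat_lit 25770221), (nat_lit 19310217), (nat_lit 12946273)] (nat_lit 7360548)) p12_12_2 (nat_lit 4) (nat_lit 84) (nat_lit 85) = true := by decide +kernel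
def p12_12_2_85 : pfC (piC [(nat_lit 40173837), (nat_lit 25770221), (nat_lit 19310217), (nat_lit 12946273)] (nat_lit 7360548)) p12_12_2 (nat_lit 4) (nat_lit 85) (nat_lit 86) = true := by decide +kernel
def p12_12_2_86 : pfC (piC [(nat_lit 40173837), (nat_lit 25770221), (nat_lit 19310217), (nat_lit 12946273)] (nat_lit 7360548)) p12_12_2 (nat_lit 4) (nat_lit 86) (nat_lit 87) = true := by decide +kernel
def p12_12_2_87 : pfC (piC [(nat_lit 40173837), (nat_lit 25770221), (nat_lit 19310217), (nat_lit 12946273)] (nat_lit 7360548)) p12_12_2 (nat_lit 4) (nat_lit 87) (nat_lit 88) = true := by decide +kernel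
def p12_12_2_88 : pfC (piC [(nat_lit 40173837), (nat_lit 25770221), (nat_lit 19310217), (nat_lit 12946273)] (nat_lit 7360548)) p12_12_2 (nat_lit 4) (nat_lit 88) (nat_lit 89) = true := by decide +kernel
def p12_12_2_89 : pfC (piC [(nat_lit 40173837), (nat_lit 25770221), (nat_lit 19310217), (nat_lit 12946273)] (nat_lit 7360548)) p12_12_2 (nat_lit 4) (nat_lit 89) (nat_lit 90) = true := by decide +kernel
def p12_12_2_90 : pfC (piC [(nat_lit 40173837), (nat_lit 25770221), (nat_lit 19310217), (nat_lit 12946273)] (nat_lit 7360548)) p12_12_2 (nat_lit 4) (nat_lit 90) (nat_lit 91) = true := by decide +kernel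
def p12_12_2_91 : pfC (piC [(nat_lit 40173837), (nat_lit 25770221), (nat_lit 19310217), (nat_lit 12946273)] (nat_lit 7360548)) p12_12_2 (nat_lit 4) (nat_lit 91) (nat_lit 92) = true := by decide +kernel
def p12_12_2_92 : pfC (piC [(nat_lit 40173837), (nat_lit 25770221), (nat_lit 19310217), (nat_lit 12946273)] (nat_lit 7360548)) p12_12_2 (nat_lit 4) (nat_lit 92) (nat_lit 93) = true := by decide +kernel
def p12_12_2_93 : pfC (piC [(nat_lit 40173837), (nat_lit 25770221), (nat_lit 19310217), (nat_lit 12946273)] (nat_lit 7360548)) p12_12_2 (nat_lit 4) (nat_lit 93) (nat_lit 94) = true := by decide +kernel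
def p12_12_2_94 : pfC (piC [(nat_lit 40173837), (nat_lit 25770221), (nat_lit 19310217), (nat_lit 12946273)] (nat_lit 7360548)) p12_12_2 (nat_lit 4) (nat_lit 94) (nat_lit 95) = true := by decide +kernel
def p12_12_2_95 : pfC (piC [(nat_lit 40173837), (nat_lit 25770221), (nat_lit 19310217), (nat_lit 12946273)] (nat_lit 7360548)) p12_12_2 (nat_lit 4) (nat_lit 95) (nat_lit 96) = true := by decide +kernel
def p12_12_2_96 : pfC (piC [(nat_lit 40173837), (nat_lit 25770221), (nat_lit 19310217), (nat_lit 12946273)] (nat_lit 7360548)) p12_12_2 (nat_lit 4) (nat_lit 96) (nat_lit 97) = true := by decide +kernel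
def p12_12_2_97 : pfC (piC [(nat_lit 40173837), (nat_lit 25770221), (nat_lit 19310217), (nat_lit 12946273)] (nat_lit 7360548)) p12_12_2 (nat_lit 4) (nat_lit 97) (nat_lit 98) = true := by decide +kernel
def p12_12_2_98 : pfC (piC [(nat_lit 40173837), (nat_lit 25770221), (nat_lit 19310217), (nat_lit 12946273)] (nat_lit 7360548)) p12_12_2 (nat_lit 4) (nat_lit 98) (nat_lit 99) = true := by decide +kernel
def p12_12_2_99 : pfC (piC [(nat_lit 40173837), (nat_lit 25770221), (nat_lit 19310217), (nat_lit 12946273)] (nat_lit 7360548)) p12_12_2 (nat_lit 4) (nat_lit 99) (nat_lit 100) = true := by decide +kernel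
def p12_12_2_100 : pfC (piC [(nat_lit 40173837), (nat_lit 25770221), (nat_lit 19310217), (nat_lit 12946273)] (nat_lit 7360548)) p12_12_2 (nat_lit 4) (nat_lit 100) (nat_lit 101) = true := by decide +kernel
def p12_12_2_101 : pfC (piC [(nat_lit 40173837), (nat_lit 25770221), (nat_lit 19310217), (nat_lit 12946273)] (nat_lit 7360548)) p12_12_2 (nat_lit 4) (nat_lit 101) (nat_lit 102) = true := by decide +kernel
def p12_12_2_102 : pfC (piC [(nat_lit 40173837), (nat_lit 25770221), (nat_lit 19310217), (nat_lit 12946273)] (nat_lit 7360548)) p12_12_2 (nat_lit 4) (nat_lit 102) (nat_lit 103) = true := by decide +kernel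
def p12_12_2_103 : pfC (piC [(nat_lit 40173837), (nat_lit 25770221), (nat_lit 19310217), (nat_lit 12946273)] (nat_lit 7360548)) p12_12_2 (nat_lit 4) (nat_lit 103) (nat_lit 104) = true := by decide +kernel
def p12_12_2_104 : pfC (piC [(nat_lit 40173837), (nat_lit 25770221), (nat_lit 19310217), (nat_lit 12946273)] (nat_lit 7360548)) p12_12_2 (nat_lit 4) (nat_lit 104) (nat_lit 105) = true := by decide +kernel
def p12_12_2_105 : pfC (piC [(nat_lit 40173837), (nat_lit 25770221), (nat_lit 19310217), (nat_lit 12946273)] (nat_lit 7360548)) p12_12_2 (nat_lit 4) (nat_lit 105) (nat_lit 106) = true := by decide +kernel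
def p12_12_2_106 : pfC (piC [(nat_lit 40173837), (nat_lit 25770221), (nat_lit 19310217), (nat_lit 12946273)] (nat_lit 7360548)) p12_12_2 (nat_lit 4) (nat_lit 106) (nat_lit 107) = true := by decide +kernel
def p12_12_2_107 : pfC (piC [(nat_lit 40173837), (nat_lit 25770221), (nat_lit 19310217), (nat_lit 12946273)] (nat_lit 7360548)) p12_12_2 (nat_lit 4) (nat_lit 107) (nat_lit 108) = true := by decide +kernel
def p12_12_2_108 : pfC (piC [(nat_lit 40173837), (nat_lit 25770221), (nat_lit 19310217), (nat_lit 12946273)] (nat_lit 7360548)) p12_12_2 (nat_lit 4) (nat_lit 108) (nat_lit 109) = true := by decide +kernel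
def p12_12_2_109 : pfC (piC [(nat_lit 40173837), (nat_lit 25770221), (nat_lit 19310217), (nat_lit 12946273)] (nat_lit 7360548)) p12_12_2 (nat_lit 4) (nat_lit 109) (nat_lit 110) = true := by decide +kernel
def p12_12_2_110 : pfC (piC [(nat_lit 40173837), (nat_lit 25770221), (nat_lit 19310217), (nat_lit 12946273)] (nat_lit 7360548)) p12_12_2 (nat_lit 4) (nat_lit 110) (nat_lit 111) = true := by decide +kernel
def p12_12_2_111 : pfC (piC [(nat_lit 40173837), (nat_lit 25770221), (nat_lit 19310217), (nat_lit 12946273)] (nat_lit 7360548)) p12_12_2 (nat_lit 4) (nat_lit 111) (nat_lit 112) = true := by decide +kernel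
def p12_12_2_112 : pfC (piC [(nat_lit 40173837), (nat_lit 25770221), (nat_lit 19310217), (nat_lit 12946273)] (nat_lit 7360548)) p12_12_2 (nat_lit 4) (nat_lit 112) (nat_lit 113) = true := by decide +kernel
def p12_12_2_113 : pfC (piC [(nat_lit 40173837), (nat_lit 25770221), (nat_lit 19310217), (nat_lit 12946273)] (nat_lit 7360548)) p12_12_2 (nat_lit 4) (nat_lit 113) (nat_lit 114) = true := by decide +kernel
def p12_12_2_114 : pfC (piC [(nat_lit 40173837), (nat_lit 25770221), (nat_lit 19310217), (nat_lit 12946273)] (nat_lit 7360548)) p12_12_2 (nat_lit 4) (nat_lit 114) (nat_lit 115) = true := by decide +kernel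
def p12_12_2_115 : pfC (piC [(nat_lit 40173837), (nat_lit 25770221), (nat_lit 19310217), (nat_lit 12946273)] (nat_lit 7360548)) p12_12_2 (nat_lit 4) (nat_lit 115) (nat_lit 116) = true := by decide +kernel
def p12_12_2_116 : pfC (piC [(nat_lit 40173837), (nat_lit 25770221), (nat_lit 19310217), (nat_lit 12946273)] (nat_lit 7360548)) p12_12_2 (nat_lit 4) (nat_lit 116) (nat_lit 117) = true := by decide +kernel
def p12_12_2_117 : pfC (piC [(nat_lit 40173837), (nat_lit 25770221), (nat_lit 19310217), (nat_lit 12946273)] (nat_lit 7360548)) p12_12_2 (nat_lit 4) (nat_lit 117) (nat_lit 118) = true := by decide +kernel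
def p12_12_2_118 : pfC (piC [(nat_lit 40173837), (nat_lit 25770221), (nat_lit 19310217), (nat_lit 12946273)] (nat_lit 7360548)) p12_12_2 (nat_lit 4) (nat_lit 118) (nat_lit 119) = true := by decide +kernel
def p12_12_2_119 : pfC (piC [(nat_lit 40173837), (nat_lit 25770221), (nat_lit 19310217), (nat_lit 12946273)] (nat_lit 7360548)) p12_12_2 (nat_lit 4) (nat_lit 119) (nat_lit 120) = true := by decide +kernel
def p12_12_2_120 : pfC (piC [(nat_lit 40173837), (nat_lit 25770221), (nat_lit 19310217), (nat_lit 12946273)] (nat_lit 7360548)) p12_12_2 (nat_lit 4) (nat_lit 120) (nat_lit 121) = true := by decide +kernel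
def p12_12_2_121 : pfC (piC [(nat_lit 40173837), (nat_lit 25770221), (nat_lit 19310217), (nat_lit 12946273)] (nat_lit 7360548)) p12_12_2 (nat_lit 4) (nat_lit 121) (nat_lit 122) = true := by decide +kernel
def p12_12_2_122 : pfC (piC [(nat_lit 40173837), (nat_lit 25770221), (nat_lit 19310217), (nat_lit 12946273)] (nat_lit 7360548)) p12_12_2 (nat_lit 4) (nat_lit 122) (nat_lit 123) = true := by decide +kernel
def p12_12_2_123 : pfC (piC [(nat_lit 40173837), (nat_lit 25770221), (nat_lit 19310217), (nat_lit 12946273)] (nat_lit 7360548)) p12_12_2 (nat_lit 4) (nat_lit 123) (nat_lit 124) = true := by decide +kernel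
def p12_12_2_124 : pfC (piC [(nat_lit 40173837), (nat_lit 25770221), (nat_lit 19310217), (nat_lit 12946273)] (nat_lit 7360548)) p12_12_2 (nat_lit 4) (nat_lit 124) (nat_lit 125) = true := by decide +kernel
theorem p12_12_2_T : PfS (PiF n12_12.reverse (nat_lit 7360548)) p12_12_2 (nat_lit 4) [] 0 :=
  pftab_of (los := [(nat_lit 40173837), (nat_lit 25770221), (nat_lit 19310217), (nat_lit 12946273)]) (by decide +kernel) (hi := (nat_lit 125)) (PfP.trans (PfP.trans (PfP.trans (PfP.trans (PfP.trans (PfP.trans (PfP.trans (PfP.trans (PfP.trans (PfP.trans (PfP.trans (PfP.trans (PfP.trans (PfP.trans (PfP.trans (PfP.trans (PfP.trans (PfP.trans (PfP.trans (PfP.trans (PfP.trans (PfP.trans (PfP.trans (PfP.trans (PfP.trans (PfP.trans (PfP.trans (PfP.trans (PfP.trans (PfP.trans (PfP.trans (PfP.trans (PfP.trans (PfP.trans (PfP.trans (PfP.trans (PfP.trans (PfP.trans (PfP.trans (PfP.trans (PfP.trans (PfP.trans (PfP.trans (PfP.trans (PfP.trans (PfP.trans (PfP.trans (PfP.trans (PfP.trans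 (PfP.trans (PfP.trans (PfP.trans (PfP.trans (PfP.trans (PfP.trans (PfP.trans (PfP.trans (PfP.trans (PfP.trans (PfP.trans (PfP.trans (PfP.trans (PfP.trans (PfP.trans (PfP.trans (PfP.trans (PfP.trans (PfP.trans (PfP.trans (PfP.trans (PfP.trans (PfP.trans (PfP.trans (PfP.trans (PfP.trans (PfP.trans (PfP.trans (PfP.trans (PfP.trans (PfP.trans (PfP.trans (PfP.trans (PfP.trans (PfP.trans (PfP.trans (PfP.trans (PfP.trans (PfP.trans (PfP.trans (PfP.trans (PfP.trans (PfP.trans (PfP.trans (PfP.trans (PfP.trans (PfP.trans (PfP.trans (PfP.trans (PfP.trans (PfP.trans (PfP.trans (PfP.trans (PfP.trans (PfP.trans (PfP.trans (PfP.trans (PfP.trans (PfP.trans (PfP.trans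
 (PfP.trans (PfP.trans (PfP.trans (PfP.trans (PfP.trans (PfP.trans (PfP.trans (PfP.trans (PfP.trans (PfP.trans (PfP.trans (PfP.trans (PfP.trans (PfP.trans (PfP.trans (pfC_sound p12_12_2_0) (pfC_sound p12_12_2_1)) (pfC_sound p12_12_2_2)) (pfC_sound p12_12_2_3)) (pfC_sound p12_12_2_4)) (pfC_sound p12_12_2_5)) (pfC_sound p12_12_2_6)) (pfC_sound p12_12_2_7)) (pfC_sound p12_12_2_8)) (pfC_sound p12_12_2_9)) (pfC_sound p12_12_2_10)) (pfC_sound p12_12_2_11)) (pfC_sound p12_12_2_12)) (pfC_sound p12_12_2_13)) (pfC_sound p12_12_2_14)) (pfC_sound p12_12_2_15)) (pfC_sound p12_12_2_16)) (pfC_sound p12_12_2_17)) (pfC_sound p12_12_2_18)) (pfC_sound p12_12_2_19)) (pfC_sound p12_12_2_20)) (pfC_sound p12_12_2_21)) (pfC_sound p12_12_2_22)) (pfC_sound p12_12_2_23)) (pfC_sound p12_12_2_24)) (pfC_sound p12_12_2_25)) (pfC_sound p12_12_2_26)) (pfC_sound p12_12_2_27)) (pfC_sound p12_12_2_28)) (pfC_sound p12_12_2_29)) (pfC_sound p12_12_2_30)) (pfC_sound p12_12_2_31)) (pfC_sound p12_12_2_32))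 (pfC_sound p12_12_2_33)) (pfC_sound p12_12_2_34)) (pfC_sound p12_12_2_35)) (pfC_sound p12_12_2_36)) (pfC_sound p12_12_2_37)) (pfC_sound p12_12_2_38)) (pfC_sound p12_12_2_39)) (pfC_sound p12_12_2_40)) (pfC_sound
 p12_12_2_41)) (pfC_sound p12_12_2_42)) (pfC_sound p12_12_2_43)) (pfC_sound p12_12_2_44)) (pfC_sound p12_12_2_45)) (pfC_sound p12_12_2_46)) (pfC_sound p12_12_2_47)) (pfC_sound p12_12_2_48)) (pfC_sound p12_12_2_49)) (pfC_sound p12_12_2_50)) (pfC_sound p12_12_2_51)) (pfC_sound p12_12_2_52)) (pfC_sound p12_12_2_53)) (pfC_sound p12_12_2_54)) (pfC_sound p12_12_2_55)) (pfC_sound p12_12_2_56)) (pfC_sound p12_12_2_57)) (pfC_sound p12_12_2_58)) (pfC_sound p12_12_2_59)) (pfC_sound p12_12_2_60)) (pfC_sound p12_12_2_61)) (pfC_sound p12_12_2_62)) (pfC_sound p12_12_2_63)) (pfC_sound p12_12_2_64)) (pfC_sound p12_12_2_65)) (pfC_sound p12_12_2_66)) (pfC_sound p12_12_2_67)) (pfC_sound p12_12_2_68)) (pfC_sound p12_12_2_69)) (pfC_sound p12_12_2_70)) (pfC_sound p12_12_2_71)) (pfC_sound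 p12_12_2_72)) (pfC_sound p12_12_2_73)) (pfC_sound p12_12_2_74)) (pfC_sound p12_12_2_75)) (pfC_sound p12_12_2_76)) (pfC_sound p12_12_2_77)) (pfC_sound p12_12_2_78)) (pfC_sound p12_12_2_79)) (pfC_sound p12_12_2_80)) (pfC_sound p12_12_2_81)) (pfC_sound p12_12_2_82)) (pfC_sound p12_12_2_83)) (pfC_sound p12_12_2_84)) (pfC_sound p12_12_2_85)) (pfC_sound p12_12_2_86)) (pfC_sound p12_12_2_87)) (pfC_sound p12_12_2_88)) (pfC_sound
 p12_12_2_89)) (pfC_sound p12_12_2_90)) (pfC_sound p12_12_2_91)) (pfC_sound p12_12_2_92)) (pfC_sound p12_12_2_93)) (pfC_sound p12_12_2_94)) (pfC_sound p12_12_2_95)) (pfC_sound p12_12_2_96)) (pfC_sound p12_12_2_97)) (pfC_sound p12_12_2_98)) (pfC_sound p12_12_2_99)) (pfC_sound p12_12_2_100)) (pfC_sound p12_12_2_101)) (pfC_sound p12_12_2_102)) (pfC_sound p12_12_2_103)) (pfC_sound p12_12_2_104)) (pfC_sound p12_12_2_105)) (pfC_sound p12_12_2_106)) (pfC_sound p12_12_2_107)) (pfC_sound p12_12_2_108)) (pfC_sound p12_12_2_109)) (pfC_sound p12_12_2_110)) (pfC_sound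 p12_12_2_111)) (pfC_sound p12_12_2_112)) (pfC_sound p12_12_2_113)) (pfC_sound p12_12_2_114)) (pfC_sound p12_12_2_115)) (pfC_sound p12_12_2_116)) (pfC_sound p12_12_2_117)) (pfC_sound p12_12_2_118)) (pfC_sound p12_12_2_119)) (pfC_sound p12_12_2_120)) (pfC_sound p12_12_2_121)) (pfC_sound p12_12_2_122)) (pfC_sound p12_12_2_123)) (pfC_sound p12_12_2_124)) (by decide +kernel)

def z12_12_2 : zOK yB12_12 (nat_lit 2) (nat_lit 600) (nat_lit 750) (nat_lit 7360548) (nat_lit 5395682) = true := by decide +kernel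
def g12_12_2 : gOK yB12_12.x P12_12 (nat_lit 1418) (q12_12 :: r12_12) (nat_lit 2) (nat_lit 600) (nat_lit 3) (nat_lit 750) (nat_lit 12712500) (nat_lit 12712500) (nat_lit 12712500) (nat_lit 12712500) [(nat_lit 800), (nat_lit 1600)] = true := by decide +kernel
def v12_12_2 : ivC P12_12 s12_12 w12_12 n12_12 (nat_lit 4) (nat_lit 4820) (nat_lit 2) (nat_lit 600) f152_1_600 f160_1_600 (nat_lit 3) (nat_lit 750) f152_1_750 f160_1_750 (nat_lit 7360548) (nat_lit 5395682) p12_12_2 = true := by decide +kernel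
def p12_12_3 : PF := (PF.cons (PF.cons (PF.cons (PF.cons (PF.leaf (nat_lit 2899998) (nat_lit 17901299) (nat_lit 49207513) (nat_lit 17901299) [(nat_lit 0), (nat_lit 0), (nat_lit 0), (nat_lit 0)]) (PF.cons (PF.leaf (nat_lit 3044852) (nat_lit 251420) (nat_lit 48984556) (nat_lit 17872835) [(nat_lit 251420), (nat_lit 0), (nat_lit 0), (nat_lit 0)]) (PF.cons (PF.leaf (nat_lit 3216822) (nat_lit 273152) (nat_lit 48723864) (nat_lit 17838643) [(nat_lit 273152), (nat_lit 0), (nat_lit 0), (nat_lit 0)]) (PF.cons (PF.leaf (nat_lit 3409628) (nat_lit 292359) (nat_lit 48432443) (nat_lit 17799292) [(nat_lit 292359), (nat_lit 0), (nat_lit 0), (nat_lit 0)]) (PF.cons (PF.leaf (nat_lit 3620301) (nat_lit 309605) (nat_lit 48115255) (nat_lit 17755133) [(nat_lit 309605), (nat_lit 0), (nat_lit 0), (nat_lit 0)]) (PF.cons (PF.leaf (nat_lit 3846515) (nat_lit 325255) (nat_lit 47776119) (nat_lit 17706416) [(nat_lit 325255), (nat_lit 0), (nat_lit 0), (nat_lit 0)]) (PF.cons (PF.leaf (nat_lit 4086373)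 (nat_lit 339556) (nat_lit 47418133) (nat_lit 17653339) [(nat_lit 339556), (nat_lit 0), (nat_lit 0), (nat_lit 0)]) (PF.cons (PF.leaf (nat_lit 4338280) (nat_lit 352692) (nat_lit 47043898) (nat_lit 17596070) [(nat_lit 352692), (nat_lit 0),
 (nat_lit 0), (nat_lit 0)]) (PF.cons (PF.leaf (nat_lit 4600890) (nat_lit 364799) (nat_lit 46655655) (nat_lit 17534765) [(nat_lit 364799), (nat_lit 0), (nat_lit 0), (nat_lit 0)]) (PF.cons PF.nil (PF.cons PF.nil (PF.cons PF.nil PF.nil)))))))))))) (PF.cons (PF.cons (PF.leaf (nat_lit 3411236) (nat_lit 1199378) (nat_lit 48152372) (nat_lit 17757061) [(nat_lit 0), (nat_lit 1199378), (nat_lit 0), (nat_lit 0)]) (PF.cons (PF.leaf (nat_lit 3598704) (nat_lit 302671) (nat_lit 47862920) (nat_lit 17715666) [(nat_lit 302671), (nat_lit 1227555), (nat_lit 0), (nat_lit 0)]) (PF.cons (PF.leaf (nat_lit 3806346) (nat_lit 319199) (nat_lit 47546249) (nat_lit 17669109) [(nat_lit 319199), (nat_lit 1255055), (nat_lit 0), (nat_lit 0)]) (PF.cons (PF.leaf (nat_lit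 4030117) (nat_lit 334133) (nat_lit 47207150) (nat_lit 17617809) [(nat_lit 334133), (nat_lit 1281453), (nat_lit 0), (nat_lit 0)]) (PF.cons (PF.leaf (nat_lit 4267811) (nat_lit 347747) (nat_lit 46849215) (nat_lit 17562064) [(nat_lit 347747), (nat_lit 1306542), (nat_lit 0), (nat_lit 0)]) (PF.cons (PF.leaf (nat_lit 4517622) (nat_lit 360233) (nat_lit 46475308) (nat_lit 17502108) [(nat_lit 360233), (nat_lit 1330230), (nat_lit 0), (nat_lit 0)]) (PF.cons
 (PF.leaf (nat_lit 4778192) (nat_lit 371728) (nat_lit 46087806) (nat_lit 17438144) [(nat_lit 371728), (nat_lit 1352488), (nat_lit 0), (nat_lit 0)]) (PF.cons (PF.leaf (nat_lit 5048165) (nat_lit 382342) (nat_lit 45688739) (nat_lit 17370357) [(nat_lit 382342), (nat_lit 1373321), (nat_lit 0), (nat_lit 0)]) (PF.cons PF.nil (PF.cons PF.nil PF.nil)))))))))) (PF.cons (PF.cons (PF.leaf (nat_lit 3995788) (nat_lit 1283822) (nat_lit 46964386) (nat_lit 17576782) [(nat_lit 0), (nat_lit 1283822), (nat_lit 0), (nat_lit 0)]) (PF.cons (PF.leaf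 (nat_lit 4214719) (nat_lit 341712) (nat_lit 46628975) (nat_lit 17523528) [(nat_lit 341712), (nat_lit 1307298), (nat_lit 0), (nat_lit 0)]) (PF.cons (PF.leaf (nat_lit 4449157) (nat_lit 354834) (nat_lit 46273873) (nat_lit 17465627) [(nat_lit 354834), (nat_lit 1329821), (nat_lit 0), (nat_lit 0)]) (PF.cons (PF.leaf (nat_lit 4696116) (nat_lit 366815) (nat_lit 45902502) (nat_lit 17403424) [(nat_lit 366815), (nat_lit 1351219), (nat_lit 0), (nat_lit 0)]) (PF.cons (PF.leaf (nat_lit 4954000) (nat_lit 377814) (nat_lit 45517547) (nat_lit 17337191) [(nat_lit 377814), (nat_lit 1371409), (nat_lit 0), (nat_lit 0)]) (PF.cons (PF.leaf (nat_lit 5221374) (nat_lit 387944) (nat_lit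
 45121211) (nat_lit 17267161) [(nat_lit 387944), (nat_lit 1390358), (nat_lit 0), (nat_lit 0)]) (PF.cons PF.nil (PF.cons PF.nil (PF.cons PF.nil PF.nil))))))))) (PF.cons (PF.cons (PF.leaf (nat_lit 4632050) (nat_lit 1350800) (nat_lit 45692344) (nat_lit 17364068) [(nat_lit 0), (nat_lit 1350800), (nat_lit 0), (nat_lit 0)]) (PF.cons (PF.leaf (nat_lit 4874450) (nat_lit 372490) (nat_lit 45325901) (nat_lit 17300128) [(nat_lit 372490), (nat_lit 1370097), (nat_lit 0), (nat_lit 0)]) (PF.cons (PF.leaf (nat_lit 5128874) (nat_lit 383102) (nat_lit 44945373) (nat_lit 17232061) [(nat_lit 383102), (nat_lit 1388391), (nat_lit 0), (nat_lit 0)]) (PF.cons (PF.leaf (nat_lit 5393066) (nat_lit 392838) (nat_lit 44553290) (nat_lit 17160172) [(nat_lit 392838), (nat_lit 1405611), (nat_lit 0), (nat_lit 0)]) (PF.cons (PF.leaf (nat_lit 5665755) (nat_lit 401799) (nat_lit 44151706) (nat_lit 17084720) [(nat_lit 401799), (nat_lit 1421730), (nat_lit 0), (nat_lit 0)]) (PF.cons PF.nil (PF.cons PF.nil PF.nil)))))))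 (PF.cons (PF.cons (PF.leaf (nat_lit 5304122) (nat_lit 1403629) (nat_lit 44371445) (nat_lit 17122851) [(nat_lit 0), (nat_lit 1403629), (nat_lit 0), (nat_lit 0)]) (PF.cons (PF.leaf (nat_lit 5563849) (nat_lit
 397052) (nat_lit 43985243) (nat_lit 17049531) [(nat_lit 397052), (nat_lit 1419246), (nat_lit 0), (nat_lit 0)]) (PF.cons (PF.leaf (nat_lit 5832930) (nat_lit 405692) (nat_lit 43589233) (nat_lit 16972617) [(nat_lit 405692), (nat_lit 1433894), (nat_lit 0), (nat_lit 0)]) (PF.cons (PF.leaf (nat_lit 6109555) (nat_lit 413630) (nat_lit 43185332) (nat_lit 16892387) [(nat_lit 413630), (nat_lit 1447550), (nat_lit 0), (nat_lit 0)]) (PF.cons PF.nil PF.nil))))) (PF.cons (PF.cons (PF.leaf (nat_lit 5999663) (nat_lit 1444683) (nat_lit 43028036) (nat_lit 16857358) [(nat_lit 0), (nat_lit 1444683), (nat_lit 0), (nat_lit 0)]) (PF.cons (PF.leaf (nat_lit 6271845) (nat_lit 416670) (nat_lit 42630729) (nat_lit 16776044) [(nat_lit 416670), (nat_lit 1457073), (nat_lit 0), (nat_lit 0)]) (PF.cons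 PF.nil (PF.cons PF.nil PF.nil)))) (PF.cons (PF.cons (PF.leaf (nat_lit 6708910) (nat_lit 1475807) (nat_lit 41682060) (nat_lit 16571906) [(nat_lit 0), (nat_lit 1475807), (nat_lit 0), (nat_lit 0)]) (PF.cons PF.nil PF.nil)) (PF.cons PF.nil PF.nil)))))))) (PF.cons (PF.cons (PF.cons (PF.leaf (nat_lit 3929275) (nat_lit 3117411) (nat_lit 46504757) (nat_lit 17486644) [(nat_lit 0), (nat_lit 0), (nat_lit 3117411), (nat_lit 0)])
 (PF.cons (PF.leaf (nat_lit 4125008) (nat_lit 323293) (nat_lit 46207231) (nat_lit 17437982) [(nat_lit 323293), (nat_lit 0), (nat_lit 3140305), (nat_lit 0)]) (PF.cons (PF.leaf (nat_lit 4339914) (nat_lit 338737) (nat_lit 45884218) (nat_lit 17383926) [(nat_lit 338737), (nat_lit 0), (nat_lit 3163192), (nat_lit 0)]) (PF.cons (PF.leaf (nat_lit 4569905) (nat_lit 352500) (nat_lit 45540734) (nat_lit 17325065) [(nat_lit 352500), (nat_lit 0), (nat_lit 3185512), (nat_lit 0)]) (PF.cons (PF.leaf (nat_lit 4812704) (nat_lit 364909) (nat_lit 45180451) (nat_lit 17261821)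 [(nat_lit 364909), (nat_lit 0), (nat_lit 3206902), (nat_lit 0)]) (PF.cons (PF.leaf (nat_lit 5066546) (nat_lit 376185) (nat_lit 44806233) (nat_lit 17194522) [(nat_lit 376185), (nat_lit 0), (nat_lit 3227127), (nat_lit 0)]) (PF.cons (PF.leaf (nat_lit 5330043) (nat_lit 386488) (nat_lit 44420407) (nat_lit 17123441) [(nat_lit 386488), (nat_lit 0), (nat_lit 3246031), (nat_lit 0)]) (PF.cons PF.nil (PF.cons PF.nil PF.nil))))))))) (PF.cons (PF.cons (PF.leaf (nat_lit 4525206) (nat_lit 1332474) (nat_lit 45305567) (nat_lit 17280642) [(nat_lit 0), (nat_lit 1332474), (nat_lit 3190127), (nat_lit 0)]) (PF.cons (PF.leaf (nat_lit 4749438) (nat_lit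
 358158) (nat_lit 44968394) (nat_lit 17220556) [(nat_lit 358158), (nat_lit 1352205), (nat_lit 3209498), (nat_lit 0)]) (PF.cons (PF.leaf (nat_lit 4988152) (nat_lit 370228) (nat_lit 44613324) (nat_lit 17155856) [(nat_lit 370228), (nat_lit 1371023), (nat_lit 3228151), (nat_lit 0)]) (PF.cons (PF.leaf (nat_lit 5238413) (nat_lit 381135) (nat_lit 44243796) (nat_lit 17086993) [(nat_lit 381135), (nat_lit 1388799), (nat_lit 3245816), (nat_lit 0)]) (PF.cons (PF.leaf (nat_lit 5498579) (nat_lit 391060) (nat_lit 43862462) (nat_lit 17014312) [(nat_lit 391060), (nat_lit 1405479), (nat_lit 3262316), (nat_lit 0)]) (PF.cons (PF.leaf (nat_lit 5767292) (nat_lit 400132) (nat_lit 43471458) (nat_lit 16938105) [(nat_lit 400132), (nat_lit 1421045), (nat_lit 3277541), (nat_lit 0)]) (PF.cons PF.nil PF.nil))))))) (PF.cons (PF.cons (PF.leaf (nat_lit 5165085) (nat_lit 1386982) (nat_lit 44042744) (nat_lit 17045591) [(nat_lit 0), (nat_lit 1386982), (nat_lit 3246512), (nat_lit 0)]) (PF.cons (PF.leaf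 (nat_lit 5410158) (nat_lit 385315) (nat_lit 43679961) (nat_lit 16975668) [(nat_lit 385315), (nat_lit 1403038), (nat_lit 3261790), (nat_lit 0)]) (PF.cons (PF.leaf (nat_lit 5666311) (nat_lit 394959) (nat_lit 43304701)
 (nat_lit 16901810) [(nat_lit 394959), (nat_lit 1418162), (nat_lit 3276056), (nat_lit 0)]) (PF.cons (PF.leaf (nat_lit 5931359) (nat_lit 403731) (nat_lit 42919436) (nat_lit 16824383) [(nat_lit 403731), (nat_lit 1432307), (nat_lit 3289183), (nat_lit 0)]) (PF.cons (PF.leaf (nat_lit 6204019) (nat_lit 411743) (nat_lit 42526142) (nat_lit 16743689) [(nat_lit 411743), (nat_lit 1445458), (nat_lit 3301090), (nat_lit 0)]) PF.nil))))) (PF.cons (PF.cons (PF.leaf (nat_lit 5834415) (nat_lit 1429442) (nat_lit 42747042) (nat_lit 16786001) [(nat_lit 0), (nat_lit 1429442), (nat_lit 3287441), (nat_lit 0)]) (PF.cons (PF.leaf (nat_lit 6094560) (nat_lit 406747) (nat_lit 42368901) (nat_lit 16707761) [(nat_lit 406747), (nat_lit 1442261), (nat_lit 3298616), (nat_lit 0)]) (PF.cons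 (PF.leaf (nat_lit 6363255) (nat_lit 414517) (nat_lit 41982299) (nat_lit 16626204) [(nat_lit 414517), (nat_lit 1454194), (nat_lit 3308689), (nat_lit 0)]) (PF.cons PF.nil PF.nil)))) (PF.cons (PF.cons (PF.leaf (nat_lit 6522155) (nat_lit 1461807) (nat_lit 41440959) (nat_lit 16506258) [(nat_lit 0), (nat_lit 1461807), (nat_lit 3314364), (nat_lit 0)]) (PF.cons (PF.leaf (nat_lit 6792918) (nat_lit 423667) (nat_lit 41055138) (nat_lit
 16421164) [(nat_lit 423667), (nat_lit 1471790), (nat_lit 3321679), (nat_lit 0)]) PF.nil)) (PF.cons PF.nil PF.nil)))))) (PF.cons (PF.cons (PF.cons (PF.leaf (nat_lit 5044377) (nat_lit 3230485) (nat_lit 43685746) (nat_lit 16962094) [(nat_lit 0), (nat_lit 0), (nat_lit 3230485), (nat_lit 0)]) (PF.cons (PF.leaf (nat_lit 5272051) (nat_lit 371161) (nat_lit 43351039) (nat_lit 16896541) [(nat_lit 371161), (nat_lit 0), (nat_lit 3245035), (nat_lit 0)]) (PF.cons (PF.leaf (nat_lit 5513297) (nat_lit 382300) (nat_lit 43000036) (nat_lit 16826478) [(nat_lit 382300),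 (nat_lit 0), (nat_lit 3258848), (nat_lit 0)]) (PF.cons (PF.leaf (nat_lit 5765244) (nat_lit 392266) (nat_lit 42636141) (nat_lit 16752434) [(nat_lit 392266), (nat_lit 0), (nat_lit 3271718), (nat_lit 0)]) (PF.cons (PF.leaf (nat_lit 6026234) (nat_lit 401256) (nat_lit 42261939) (nat_lit 16674814) [(nat_lit 401256), (nat_lit 0), (nat_lit 3283516), (nat_lit 0)]) (PF.cons (PF.leaf (nat_lit 6294942) (nat_lit 409410) (nat_lit 41879483) (nat_lit 16593951) [(nat_lit 409410), (nat_lit 0), (nat_lit 3294163), (nat_lit 0)]) (PF.cons PF.nil PF.nil))))))) (PF.cons (PF.cons (PF.leaf (nat_lit 5683878) (nat_lit 1413020) (nat_lit 42445060) (nat_lit 16709847)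
 [(nat_lit 0), (nat_lit 1413020), (nat_lit 3270442), (nat_lit 0)]) (PF.cons (PF.leaf (nat_lit 5930160) (nat_lit 395222) (nat_lit 42089150) (nat_lit 16635345) [(nat_lit 395222), (nat_lit 1426368), (nat_lit 3281362), (nat_lit 0)]) (PF.cons (PF.leaf (nat_lit 6186711) (nat_lit 404015) (nat_lit 41722141) (nat_lit 16557126) [(nat_lit 404015), (nat_lit 1438843), (nat_lit 3291334), (nat_lit 0)]) (PF.cons (PF.leaf (nat_lit 6451384) (nat_lit 411946) (nat_lit 41346428) (nat_lit 16475600) [(nat_lit 411946), (nat_lit 1450416), (nat_lit 3300264), (nat_lit 0)]) (PF.cons PF.nil PF.nil))))) (PF.cons (PF.cons (PF.leaf (nat_lit 6347607) (nat_lit 1446909) (nat_lit 41183740) (nat_lit 16436800) [(nat_lit 0), (nat_lit 1446909), (nat_lit 3297226), (nat_lit 0)]) (PF.cons (PF.leaf (nat_lit 6607074) (nat_lit 413974) (nat_lit 40815963) (nat_lit 16354995) [(nat_lit 413974), (nat_lit 1457378), (nat_lit 3304561), (nat_lit 0)]) (PF.cons (PF.leaf (nat_lit 6874376) (nat_lit 420983) (nat_lit 40440847)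 (nat_lit 16270144) [(nat_lit 420983), (nat_lit 1467030), (nat_lit 3310896), (nat_lit 0)]) (PF.cons PF.nil PF.nil)))) (PF.cons (PF.cons (PF.leaf (nat_lit 7025602) (nat_lit 1472050) (nat_lit 39921117) (nat_lit 16147314)
 [(nat_lit 0), (nat_lit 1472050), (nat_lit 3312115), (nat_lit 0)]) (PF.cons PF.nil PF.nil)) (PF.cons PF.nil PF.nil))))) (PF.cons (PF.cons (PF.cons (PF.leaf (nat_lit 6187426) (nat_lit 3279818) (nat_lit 40906752) (nat_lit 16362605) [(nat_lit 0), (nat_lit 0), (nat_lit 3279818), (nat_lit 0)]) (PF.cons (PF.leaf (nat_lit 6433741) (nat_lit 402719) (nat_lit 40559951) (nat_lit 16284758) [(nat_lit 402719), (nat_lit 0), (nat_lit 3287127), (nat_lit 0)]) (PF.cons (PF.leaf (nat_lit 6689637) (nat_lit 410758) (nat_lit 40203238) (nat_lit 16203421) [(nat_lit 410758), (nat_lit 0), (nat_lit 3293545), (nat_lit 0)]) (PF.cons (PF.leaf (nat_lit 6952980) (nat_lit 417947) (nat_lit 39838914) (nat_lit 16119034) [(nat_lit 417947), (nat_lit 0), (nat_lit 3299007), (nat_lit 0)]) (PF.cons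 PF.nil PF.nil))))) (PF.cons (PF.cons (PF.leaf (nat_lit 6843368) (nat_lit 1457593) (nat_lit 39685884) (nat_lit 16080320) [(nat_lit 0), (nat_lit 1457593), (nat_lit 3295004), (nat_lit 0)]) (PF.cons (PF.leaf (nat_lit 7101299) (nat_lit 419155) (nat_lit 39329988) (nat_lit 15996104) [(nat_lit 419155), (nat_lit 1466073), (nat_lit 3299163), (nat_lit 0)]) (PF.cons PF.nil (PF.cons PF.nil PF.nil)))) (PF.cons (PF.cons (PF.leaf (nat_lit
 7510226) (nat_lit 1476692) (nat_lit 38470444) (nat_lit 15784865) [(nat_lit 0), (nat_lit 1476692), (nat_lit 3300039), (nat_lit 0)]) (PF.cons PF.nil PF.nil)) PF.nil))) (PF.cons (PF.cons (PF.cons (PF.leaf (nat_lit 7321731) (nat_lit 3283175) (nat_lit 38255411) (nat_lit 15720698) [(nat_lit 0), (nat_lit 0), (nat_lit 3283175), (nat_lit 0)]) (PF.cons (PF.leaf (nat_lit 7577416) (nat_lit 422635) (nat_lit 37912326) (nat_lit 15635041) [(nat_lit 422635), (nat_lit 0), (nat_lit 3284702), (nat_lit 0)]) PF.nil)) (PF.cons PF.nil PF.nil)) (PF.cons PF.nil PF.nil))))))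 (PF.cons (PF.cons (PF.cons (PF.cons (PF.leaf (nat_lit 4859983) (nat_lit 8735213) (nat_lit 41888757) (nat_lit 16484842) [(nat_lit 0), (nat_lit 0), (nat_lit 0), (nat_lit 8735213)]) (PF.cons (PF.leaf (nat_lit 5053769) (nat_lit 331776) (nat_lit 41621361) (nat_lit 16429717) [(nat_lit 331776), (nat_lit 0), (nat_lit 0), (nat_lit 8725957)]) (PF.cons (PF.leaf (nat_lit 5265422) (nat_lit 346238) (nat_lit 41332202) (nat_lit 16369212) [(nat_lit 346238), (nat_lit 0), (nat_lit 0), (nat_lit 8714921)]) (PF.cons (PF.leaf (nat_lit 5490800) (nat_lit 358896) (nat_lit 41025896) (nat_lit 16304119) [(nat_lit 358896), (nat_lit 0), (nat_lit 0), (nat_lit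
 8702105)]) (PF.cons (PF.leaf (nat_lit 5727692) (nat_lit 370123) (nat_lit 40705794) (nat_lit 16235011) [(nat_lit 370123), (nat_lit 0), (nat_lit 0), (nat_lit 8687513)]) (PF.cons (PF.leaf (nat_lit 5974280) (nat_lit 380171) (nat_lit 40374475) (nat_lit 16162326) [(nat_lit 380171), (nat_lit 0), (nat_lit 0), (nat_lit 8671152)]) (PF.cons (PF.leaf (nat_lit 6229176) (nat_lit 389223) (nat_lit 40034006) (nat_lit 16086422) [(nat_lit 389223), (nat_lit 0), (nat_lit 0), (nat_lit 8653042)]) (PF.cons PF.nil (PF.cons PF.nil PF.nil))))))))) (PF.cons (PF.cons (PF.leaf (nat_lit 5436374) (nat_lit 1341546) (nat_lit 40821682) (nat_lit 16257259) [(nat_lit 0), (nat_lit 1341546), (nat_lit 0), (nat_lit 8688325)]) (PF.cons (PF.leaf (nat_lit 5655291) (nat_lit 362704) (nat_lit 40522560) (nat_lit 16192061) [(nat_lit 362704), (nat_lit 1357414), (nat_lit 0), (nat_lit 8674072)]) (PF.cons (PF.leaf (nat_lit 5887360) (nat_lit 373669) (nat_lit 40208560) (nat_lit 16122599) [(nat_lit 373669), (nat_lit 1372307),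 (nat_lit 0), (nat_lit 8658005)]) (PF.cons (PF.leaf (nat_lit 6129753) (nat_lit 383427) (nat_lit 39882770) (nat_lit 16049434) [(nat_lit 383427), (nat_lit 1386156), (nat_lit 0), (nat_lit 8640169)]) (PF.cons (PF.leaf
 (nat_lit 6380840) (nat_lit 392180) (nat_lit 39547539) (nat_lit 15972995) [(nat_lit 392180), (nat_lit 1398951), (nat_lit 0), (nat_lit 8620605)]) (PF.cons (PF.leaf (nat_lit 6639317) (nat_lit 400075) (nat_lit 39204737) (nat_lit 15893632) [(nat_lit 400075), (nat_lit 1410708), (nat_lit 0), (nat_lit 8599357)]) (PF.cons PF.nil PF.nil))))))) (PF.cons (PF.cons (PF.leaf (nat_lit 6048453) (nat_lit 1382722) (nat_lit 39710091) (nat_lit 16007372) [(nat_lit 0), (nat_lit 1382722), (nat_lit 0), (nat_lit 8625904)]) (PF.cons (PF.leaf (nat_lit 6285191) (nat_lit 386028) (nat_lit 39391432) (nat_lit 15934183) [(nat_lit 386028), (nat_lit 1395178), (nat_lit 0), (nat_lit 8606810)]) (PF.cons (PF.leaf (nat_lit 6531864) (nat_lit 394576) (nat_lit 39062641) (nat_lit 15857575) [(nat_lit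 394576), (nat_lit 1406729), (nat_lit 0), (nat_lit 8585984)]) (PF.cons (PF.leaf (nat_lit 6786336) (nat_lit 402247) (nat_lit 38725882) (nat_lit 15777973) [(nat_lit 402247), (nat_lit 1417362), (nat_lit 0), (nat_lit 8563491)]) (PF.cons (PF.leaf (nat_lit 7047366) (nat_lit 409164) (nat_lit 38382864) (nat_lit 15695716) [(nat_lit 409164), (nat_lit 1427087), (nat_lit 0), (nat_lit 8539396)]) PF.nil))))) (PF.cons (PF.cons (PF.leaf (nat_lit
 6683389) (nat_lit 1413446) (nat_lit 38579059) (nat_lit 15740163) [(nat_lit 0), (nat_lit 1413446), (nat_lit 0), (nat_lit 8549251)]) (PF.cons (PF.leaf (nat_lit 6932723) (nat_lit 403936) (nat_lit 38249397) (nat_lit 15660665) [(nat_lit 403936), (nat_lit 1423037), (nat_lit 0), (nat_lit 8525701)]) (PF.cons (PF.leaf (nat_lit 7189623) (nat_lit 410683) (nat_lit 37913008) (nat_lit 15578432) [(nat_lit 410683), (nat_lit 1431814), (nat_lit 0), (nat_lit 8500561)]) (PF.cons PF.nil PF.nil)))) (PF.cons (PF.cons (PF.leaf (nat_lit 7331801) (nat_lit 1435709)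 (nat_lit 37446126) (nat_lit 15459808) [(nat_lit 0), (nat_lit 1435709), (nat_lit 0), (nat_lit 8460042)]) (PF.cons (PF.leaf (nat_lit 7589779) (nat_lit 417724) (nat_lit 37111629) (nat_lit 15375428) [(nat_lit 417724), (nat_lit 1442874), (nat_lit 0), (nat_lit 8432533)]) PF.nil)) (PF.cons PF.nil PF.nil)))))) (PF.cons (PF.cons (PF.cons (PF.leaf (nat_lit 5914993) (nat_lit 3178298) (nat_lit 39413158) (nat_lit 15927058) [(nat_lit 0), (nat_lit 0), (nat_lit 3178298), (nat_lit 8590297)]) (PF.cons (PF.leaf (nat_lit 6135620) (nat_lit 371785) (nat_lit 39118994) (nat_lit 15858848) [(nat_lit 371785), (nat_lit 0), (nat_lit 3186906), (nat_lit 8572277)]) (PF.cons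
 (PF.leaf (nat_lit 6368666) (nat_lit 381913) (nat_lit 38811247) (nat_lit 15786540) [(nat_lit 381913), (nat_lit 0), (nat_lit 3194759), (nat_lit 8552438)]) (PF.cons (PF.leaf (nat_lit 6611307) (nat_lit 390845) (nat_lit 38492923) (nat_lit 15710738) [(nat_lit 390845), (nat_lit 0), (nat_lit 3201735), (nat_lit 8530878)]) (PF.cons (PF.leaf (nat_lit 6861939) (nat_lit 398795) (nat_lit 38166285) (nat_lit 15631898) [(nat_lit 398795), (nat_lit 0), (nat_lit 3207765), (nat_lit 8507678)]) (PF.cons (PF.leaf (nat_lit 7119296) (nat_lit 405917) (nat_lit 37833111) (nat_lit 15550386) [(nat_lit 405917), (nat_lit 0), (nat_lit 3212814), (nat_lit 8482913)]) (PF.cons PF.nil PF.nil))))))) (PF.cons (PF.cons (PF.leaf (nat_lit 6523616) (nat_lit 1396777) (nat_lit 38329702) (nat_lit 15668783) [(nat_lit 0), (nat_lit 1396777), (nat_lit 3198168), (nat_lit 8515380)]) (PF.cons (PF.leaf (nat_lit 6760302) (nat_lit 392507) (nat_lit 38019186) (nat_lit 15593371) [(nat_lit 392507), (nat_lit 1407101), (nat_lit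 3203737), (nat_lit 8492908)]) (PF.cons (PF.leaf (nat_lit 7006274) (nat_lit 400326) (nat_lit 37699584) (nat_lit 15514755) [(nat_lit 400326), (nat_lit 1416587), (nat_lit 3208454), (nat_lit 8468777)]) (PF.cons (PF.leaf
 (nat_lit 7259430) (nat_lit 407288) (nat_lit 37372973) (nat_lit 15433377) [(nat_lit 407288), (nat_lit 1425234), (nat_lit 3212275), (nat_lit 8443085)]) (PF.cons PF.nil PF.nil))))) (PF.cons (PF.cons (PF.leaf (nat_lit 7151271) (nat_lit 1420975) (nat_lit 37234891) (nat_lit 15396064) [(nat_lit 0), (nat_lit 1420975), (nat_lit 3207773), (nat_lit 8428132)]) (PF.cons (PF.leaf (nat_lit 7399106) (nat_lit 408238) (nat_lit 36915765) (nat_lit 15315139) [(nat_lit 408238), (nat_lit 1428757), (nat_lit 3210465), (nat_lit 8401689)]) (PF.cons (PF.leaf (nat_lit 7653964) (nat_lit 414354) (nat_lit 36590727) (nat_lit 15231704) [(nat_lit 414354), (nat_lit 1435795), (nat_lit 3212310), (nat_lit 8373771)]) (PF.cons PF.nil PF.nil)))) (PF.cons (PF.cons (PF.leaf (nat_lit 7789440) (nat_lit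 1437842) (nat_lit 36143837) (nat_lit 15112851) [(nat_lit 0), (nat_lit 1437842), (nat_lit 3208339), (nat_lit 8330257)]) (PF.cons PF.nil PF.nil)) (PF.cons PF.nil PF.nil))))) (PF.cons (PF.cons (PF.cons (PF.leaf (nat_lit 6984502) (nat_lit 3189980) (nat_lit 37006438) (nat_lit 15327762) [(nat_lit 0), (nat_lit 0), (nat_lit 3189980), (nat_lit 8394650)]) (PF.cons (PF.leaf (nat_lit 7220364) (nat_lit 397203) (nat_lit 36705246) (nat_lit
 15250946) [(nat_lit 397203), (nat_lit 0), (nat_lit 3192971), (nat_lit 8369472)]) (PF.cons (PF.leaf (nat_lit 7464945) (nat_lit 404378) (nat_lit 36395872) (nat_lit 15171132) [(nat_lit 404378), (nat_lit 0), (nat_lit 3195167), (nat_lit 8342715)]) (PF.cons (PF.leaf (nat_lit 7716159) (nat_lit 410717) (nat_lit 36080298) (nat_lit 15088774) [(nat_lit 410717), (nat_lit 0), (nat_lit 3196542), (nat_lit 8314502)]) (PF.cons PF.nil PF.nil))))) (PF.cons (PF.cons (PF.leaf (nat_lit 7603553) (nat_lit 1423775) (nat_lit 35950658) (nat_lit 15052218) [(nat_lit 0),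 (nat_lit 1423775), (nat_lit 3191515), (nat_lit 8299128)]) (PF.cons (PF.leaf (nat_lit 7849360) (nat_lit 411053) (nat_lit 35642761) (nat_lit 14970598) [(nat_lit 411053), (nat_lit 1430026), (nat_lit 3191974), (nat_lit 8270423)]) (PF.cons PF.nil (PF.cons PF.nil PF.nil)))) (PF.cons (PF.cons (PF.leaf (nat_lit 8230714) (nat_lit 1436124) (nat_lit 34902790) (nat_lit 14768458) [(nat_lit 0), (nat_lit 1436124), (nat_lit 3185322), (nat_lit 8194670)]) (PF.cons PF.nil PF.nil)) PF.nil))) (PF.cons (PF.cons (PF.cons (PF.leaf (nat_lit 8040535) (nat_lit 3169078) (nat_lit 34726049) (nat_lit 14710992) [(nat_lit 0), (nat_lit 0), (nat_lit 3169078), (nat_lit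
 8164535)]) (PF.cons (PF.leaf (nat_lit 8283830) (nat_lit 412631) (nat_lit 34429737) (nat_lit 14629278) [(nat_lit 412631), (nat_lit 0), (nat_lit 3167688), (nat_lit 8134100)]) PF.nil)) (PF.cons PF.nil PF.nil)) (PF.cons PF.nil PF.nil))))) (PF.cons (PF.cons (PF.cons (PF.cons (PF.leaf (nat_lit 6687715) (nat_lit 8193929) (nat_lit 35782875) (nat_lit 14938077) [(nat_lit 0), (nat_lit 0), (nat_lit 0), (nat_lit 8193929)]) (PF.cons (PF.leaf (nat_lit 6900530) (nat_lit 367715) (nat_lit 35525488) (nat_lit 14871108) [(nat_lit 367715), (nat_lit 0), (nat_lit 0), (nat_lit 8172250)]) (PF.cons (PF.leaf (nat_lit 7124888) (nat_lit 377001) (nat_lit 35256629) (nat_lit 14800452) [(nat_lit 377001), (nat_lit 0), (nat_lit 0), (nat_lit 8148864)]) (PF.cons (PF.leaf (nat_lit 7357933) (nat_lit 385097) (nat_lit 34978930) (nat_lit 14726725) [(nat_lit 385097), (nat_lit 0), (nat_lit 0), (nat_lit 8123931)]) (PF.cons (PF.leaf (nat_lit 7598137) (nat_lit 392226) (nat_lit 34694358) (nat_lit 14650392) [(nat_lit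 392226), (nat_lit 0), (nat_lit 0), (nat_lit 8097578)]) (PF.cons PF.nil (PF.cons PF.nil PF.nil))))))) (PF.cons (PF.cons (PF.leaf (nat_lit 7266539) (nat_lit 1366915) (nat_lit 34839540) (nat_lit 14687113) [(nat_lit 0),
 (nat_lit 1366915), (nat_lit 0), (nat_lit 8107622)]) (PF.cons (PF.leaf (nat_lit 7493578) (nat_lit 385876) (nat_lit 34569050) (nat_lit 14614230) [(nat_lit 385876), (nat_lit 1375088), (nat_lit 0), (nat_lit 8082283)]) (PF.cons (PF.leaf (nat_lit 7729084) (nat_lit 392924) (nat_lit 34290962) (nat_lit 14538563) [(nat_lit 392924), (nat_lit 1382469), (nat_lit 0), (nat_lit 8055483)]) (PF.cons (PF.leaf (nat_lit 7971085) (nat_lit 399135) (nat_lit 34007072) (nat_lit 14460552) [(nat_lit 399135), (nat_lit 1389074), (nat_lit 0), (nat_lit 8027354)]) (PF.cons PF.nil PF.nil))))) (PF.cons (PF.cons (PF.leaf (nat_lit 7860899) (nat_lit 1384463) (nat_lit 33889614) (nat_lit 14425824) [(nat_lit 0), (nat_lit 1384463), (nat_lit 0), (nat_lit 8012224)]) (PF.cons (PF.leaf (nat_lit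 8097601) (nat_lit 399365) (nat_lit 33612483) (nat_lit 14348642) [(nat_lit 399365), (nat_lit 1390379), (nat_lit 0), (nat_lit 7983781)]) (PF.cons PF.nil (PF.cons PF.nil PF.nil)))) (PF.cons (PF.cons (PF.leaf (nat_lit 8463367) (nat_lit 1395773) (nat_lit 32945163) (nat_lit 14157690) [(nat_lit 0), (nat_lit 1395773), (nat_lit 0), (nat_lit 7909319)]) (PF.cons PF.nil PF.nil)) (PF.cons PF.nil PF.nil))))) (PF.cons (PF.cons (PF.cons (PF.leaf
 (nat_lit 7691314) (nat_lit 3082963) (nat_lit 33700229) (nat_lit 14364435) [(nat_lit 0), (nat_lit 0), (nat_lit 3082963), (nat_lit 7980592)]) (PF.cons (PF.leaf (nat_lit 7917046) (nat_lit 388722) (nat_lit 33438389) (nat_lit 14291233) [(nat_lit 388722), (nat_lit 0), (nat_lit 3083241), (nat_lit 7953613)]) (PF.cons (PF.leaf (nat_lit 8150823) (nat_lit 395212) (nat_lit 33169654) (nat_lit 14215426) [(nat_lit 395212), (nat_lit 0), (nat_lit 3082806), (nat_lit 7925249)]) (PF.cons PF.nil PF.nil)))) (PF.cons (PF.cons (PF.leaf (nat_lit 8276981) (nat_lit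 1382409) (nat_lit 32785458) (nat_lit 14103769) [(nat_lit 0), (nat_lit 1382409), (nat_lit 3076201), (nat_lit 7880487)]) (PF.cons (PF.leaf (nat_lit 8511427) (nat_lit 400652) (nat_lit 32518345) (nat_lit 14026810) [(nat_lit 400652), (nat_lit 1387116), (nat_lit 3074397), (nat_lit 7850745)]) PF.nil)) (PF.cons PF.nil PF.nil))) (PF.cons (PF.cons (PF.cons (PF.leaf (nat_lit 8679641) (nat_lit 3048175) (nat_lit 31732461) (nat_lit 13787038) [(nat_lit 0), (nat_lit 0), (nat_lit 3048175), (nat_lit 7746480)]) (PF.cons PF.nil PF.nil)) (PF.cons PF.nil PF.nil)) PF.nil))) (PF.cons (PF.cons (PF.cons (PF.cons (PF.leaf (nat_lit 8326304) (nat_lit 7581291) (nat_lit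
 30881696) (nat_lit 13483242) [(nat_lit 0), (nat_lit 0), (nat_lit 0), (nat_lit 7581291)]) (PF.cons (PF.leaf (nat_lit 8542471) (nat_lit 378720) (nat_lit 30653172) (nat_lit 13414721) [(nat_lit 378720), (nat_lit 0), (nat_lit 0), (nat_lit 7554066)]) (PF.cons (PF.leaf (nat_lit 8766123) (nat_lit 384655) (nat_lit 30418745) (nat_lit 13343914) [(nat_lit 384655), (nat_lit 0), (nat_lit 0), (nat_lit 7525614)]) (PF.cons PF.nil PF.nil)))) (PF.cons (PF.cons (PF.leaf (nat_lit 8881953) (nat_lit 1337886) (nat_lit 30085515) (nat_lit 13240559) [(nat_lit 0), (nat_lit 1337886), (nat_lit 0), (nat_lit 7481617)]) (PF.cons PF.nil PF.nil)) (PF.cons PF.nil PF.nil))) (PF.cons (PF.cons (PF.cons (PF.leaf (nat_lit 9255798) (nat_lit 2927326) (nat_lit 29174555) (nat_lit 12949711) [(nat_lit 0), (nat_lit 0), (nat_lit 2927326), (nat_lit 7352406)]) (PF.cons PF.nil PF.nil)) PF.nil) PF.nil)) (PF.cons PF.nil (PF.cons PF.nil (PF.cons PF.nil (PF.cons PF.nil PF.nil))))))))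

def p12_12_3_0 : pfC (piC [(nat_lit 40173837), (nat_lit 25770221), (nat_lit 19310217), (nat_lit 12946273)] (nat_lit 5395682)) p12_12_3 (nat_lit 4) (nat_lit 0) (nat_lit 1) = true := by decide +kernel
def p12_12_3_1 : pfC (piC [(nat_lit 40173837), (nat_lit 25770221), (nat_lit 19310217), (nat_lit 12946273)] (nat_lit 5395682)) p12_12_3 (nat_lit 4) (nat_lit 1) (nat_lit 2) = true := by decide +kernel
def p12_12_3_2 : pfC (piC [(nat_lit 40173837), (nat_lit 25770221), (nat_lit 19310217), (nat_lit 12946273)] (nat_lit 5395682)) p12_12_3 (nat_lit 4) (nat_lit 2) (nat_lit 3) = true := by decide +kernel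
def p12_12_3_3 : pfC (piC [(nat_lit 40173837), (nat_lit 25770221), (nat_lit 19310217), (nat_lit 12946273)] (nat_lit 5395682)) p12_12_3 (nat_lit 4) (nat_lit 3) (nat_lit 4) = true := by decide +kernel
def p12_12_3_4 : pfC (piC [(nat_lit 40173837), (nat_lit 25770221), (nat_lit 19310217), (nat_lit 12946273)] (nat_lit 5395682)) p12_12_3 (nat_lit 4) (nat_lit 4) (nat_lit 5) = true := by decide +kernel
def p12_12_3_5 : pfC (piC [(nat_lit 40173837), (nat_lit 25770221), (nat_lit 19310217), (nat_lit 12946273)] (nat_lit 5395682)) p12_12_3 (nat_lit 4) (nat_lit 5) (nat_lit 6) = true := by decide +kernel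
def p12_12_3_6 : pfC (piC [(nat_lit 40173837), (nat_lit 25770221), (nat_lit 19310217), (nat_lit 12946273)] (nat_lit 5395682)) p12_12_3 (nat_lit 4) (nat_lit 6) (nat_lit 7) = true := by decide +kernel
def p12_12_3_7 : pfC (piC [(nat_lit 40173837), (nat_lit 25770221), (nat_lit 19310217), (nat_lit 12946273)] (nat_lit 5395682)) p12_12_3 (nat_lit 4) (nat_lit 7) (nat_lit 8) = true := by decide +kernel
def p12_12_3_8 : pfC (piC [(nat_lit 40173837), (nat_lit 25770221), (nat_lit 19310217), (nat_lit 12946273)] (nat_lit 5395682)) p12_12_3 (nat_lit 4) (nat_lit 8) (nat_lit 9) = true := by decide +kernel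
def p12_12_3_9 : pfC (piC [(nat_lit 40173837), (nat_lit 25770221), (nat_lit 19310217), (nat_lit 12946273)] (nat_lit 5395682)) p12_12_3 (nat_lit 4) (nat_lit 9) (nat_lit 10) = true := by decide +kernel
def p12_12_3_10 : pfC (piC [(nat_lit 40173837), (nat_lit 25770221), (nat_lit 19310217), (nat_lit 12946273)] (nat_lit 5395682)) p12_12_3 (nat_lit 4) (nat_lit 10) (nat_lit 11) = true := by decide +kernel
def p12_12_3_11 : pfC (piC [(nat_lit 40173837), (nat_lit 25770221), (nat_lit 19310217), (nat_lit 12946273)] (nat_lit 5395682)) p12_12_3 (nat_lit 4) (nat_lit 11) (nat_lit 12) = true := by decide +kernel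
def p12_12_3_12 : pfC (piC [(nat_lit 40173837), (nat_lit 25770221), (nat_lit 19310217), (nat_lit 12946273)] (nat_lit 5395682)) p12_12_3 (nat_lit 4) (nat_lit 12) (nat_lit 13) = true := by decide +kernel
def p12_12_3_13 : pfC (piC [(nat_lit 40173837), (nat_lit 25770221), (nat_lit 19310217), (nat_lit 12946273)] (nat_lit 5395682)) p12_12_3 (nat_lit 4) (nat_lit 13) (nat_lit 14) = true := by decide +kernel
def p12_12_3_14 : pfC (piC [(nat_lit 40173837), (nat_lit 25770221), (nat_lit 19310217), (nat_lit 12946273)] (nat_lit 5395682)) p12_12_3 (nat_lit 4) (nat_lit 14) (nat_lit 15) = true := by decide +kernel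
def p12_12_3_15 : pfC (piC [(nat_lit 40173837), (nat_lit 25770221), (nat_lit 19310217), (nat_lit 12946273)] (nat_lit 5395682)) p12_12_3 (nat_lit 4) (nat_lit 15) (nat_lit 16) = true := by decide +kernel
def p12_12_3_16 : pfC (piC [(nat_lit 40173837), (nat_lit 25770221), (nat_lit 19310217), (nat_lit 12946273)] (nat_lit 5395682)) p12_12_3 (nat_lit 4) (nat_lit 16) (nat_lit 17) = true := by decide +kernel
def p12_12_3_17 : pfC (piC [(nat_lit 40173837), (nat_lit 25770221), (nat_lit 19310217), (nat_lit 12946273)] (nat_lit 5395682)) p12_12_3 (nat_lit 4) (nat_lit 17) (nat_lit 18) = true := by decide +kernel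
def p12_12_3_18 : pfC (piC [(nat_lit 40173837), (nat_lit 25770221), (nat_lit 19310217), (nat_lit 12946273)] (nat_lit 5395682)) p12_12_3 (nat_lit 4) (nat_lit 18) (nat_lit 19) = true := by decide +kernel
def p12_12_3_19 : pfC (piC [(nat_lit 40173837), (nat_lit 25770221), (nat_lit 19310217), (nat_lit 12946273)] (nat_lit 5395682)) p12_12_3 (nat_lit 4) (nat_lit 19) (nat_lit 20) = true := by decide +kernel
def p12_12_3_20 : pfC (piC [(nat_lit 40173837), (nat_lit 25770221), (nat_lit 19310217), (nat_lit 12946273)] (nat_lit 5395682)) p12_12_3 (nat_lit 4) (nat_lit 20) (nat_lit 21) = true := by decide +kernel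
def p12_12_3_21 : pfC (piC [(nat_lit 40173837), (nat_lit 25770221), (nat_lit 19310217), (nat_lit 12946273)] (nat_lit 5395682)) p12_12_3 (nat_lit 4) (nat_lit 21) (nat_lit 22) = true := by decide +kernel
def p12_12_3_22 : pfC (piC [(nat_lit 40173837), (nat_lit 25770221), (nat_lit 19310217), (nat_lit 12946273)] (nat_lit 5395682)) p12_12_3 (nat_lit 4) (nat_lit 22) (nat_lit 23) = true := by decide +kernel
def p12_12_3_23 : pfC (piC [(nat_lit 40173837), (nat_lit 25770221), (nat_lit 19310217), (nat_lit 12946273)] (nat_lit 5395682)) p12_12_3 (nat_lit 4) (nat_lit 23) (nat_lit 24) = true := by decide +kernel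
def p12_12_3_24 : pfC (piC [(nat_lit 40173837), (nat_lit 25770221), (nat_lit 19310217), (nat_lit 12946273)] (nat_lit 5395682)) p12_12_3 (nat_lit 4) (nat_lit 24) (nat_lit 25) = true := by decide +kernel
def p12_12_3_25 : pfC (piC [(nat_lit 40173837), (nat_lit 25770221), (nat_lit 19310217), (nat_lit 12946273)] (nat_lit 5395682)) p12_12_3 (nat_lit 4) (nat_lit 25) (nat_lit 26) = true := by decide +kernel
def p12_12_3_26 : pfC (piC [(nat_lit 40173837), (nat_lit 25770221), (nat_lit 19310217), (nat_lit 12946273)] (nat_lit 5395682)) p12_12_3 (nat_lit 4) (nat_lit 26) (nat_lit 27) = true := by decide +kernel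
def p12_12_3_27 : pfC (piC [(nat_lit 40173837), (nat_lit 25770221), (nat_lit 19310217), (nat_lit 12946273)] (nat_lit 5395682)) p12_12_3 (nat_lit 4) (nat_lit 27) (nat_lit 28) = true := by decide +kernel
def p12_12_3_28 : pfC (piC [(nat_lit 40173837), (nat_lit 25770221), (nat_lit 19310217), (nat_lit 12946273)] (nat_lit 5395682)) p12_12_3 (nat_lit 4) (nat_lit 28) (nat_lit 29) = true := by decide +kernel
def p12_12_3_29 : pfC (piC [(nat_lit 40173837), (nat_lit 25770221), (nat_lit 19310217), (nat_lit 12946273)] (nat_lit 5395682)) p12_12_3 (nat_lit 4) (nat_lit 29) (nat_lit 30) = true := by decide +kernel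
def p12_12_3_30 : pfC (piC [(nat_lit 40173837), (nat_lit 25770221), (nat_lit 19310217), (nat_lit 12946273)] (nat_lit 5395682)) p12_12_3 (nat_lit 4) (nat_lit 30) (nat_lit 31) = true := by decide +kernel
def p12_12_3_31 : pfC (piC [(nat_lit 40173837), (nat_lit 25770221), (nat_lit 19310217), (nat_lit 12946273)] (nat_lit 5395682)) p12_12_3 (nat_lit 4) (nat_lit 31) (nat_lit 32) = true := by decide +kernel
def p12_12_3_32 : pfC (piC [(nat_lit 40173837), (nat_lit 25770221), (nat_lit 19310217), (nat_lit 12946273)] (nat_lit 5395682)) p12_12_3 (nat_lit 4) (nat_lit 32) (nat_lit 33) = true := by decide +kernel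
def p12_12_3_33 : pfC (piC [(nat_lit 40173837), (nat_lit 25770221), (nat_lit 19310217), (nat_lit 12946273)] (nat_lit 5395682)) p12_12_3 (nat_lit 4) (nat_lit 33) (nat_lit 34) = true := by decide +kernel
def p12_12_3_34 : pfC (piC [(nat_lit 40173837), (nat_lit 25770221), (nat_lit 19310217), (nat_lit 12946273)] (nat_lit 5395682)) p12_12_3 (nat_lit 4) (nat_lit 34) (nat_lit 35) = true := by decide +kernel
def p12_12_3_35 : pfC (piC [(nat_lit 40173837), (nat_lit 25770221), (nat_lit 19310217), (nat_lit 12946273)] (nat_lit 5395682)) p12_12_3 (nat_lit 4) (nat_lit 35) (nat_lit 36) = true := by decide +kernel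
def p12_12_3_36 : pfC (piC [(nat_lit 40173837), (nat_lit 25770221), (nat_lit 19310217), (nat_lit 12946273)] (nat_lit 5395682)) p12_12_3 (nat_lit 4) (nat_lit 36) (nat_lit 37) = true := by decide +kernel
def p12_12_3_37 : pfC (piC [(nat_lit 40173837), (nat_lit 25770221), (nat_lit 19310217), (nat_lit 12946273)] (nat_lit 5395682)) p12_12_3 (nat_lit 4) (nat_lit 37) (nat_lit 38) = true := by decide +kernel
def p12_12_3_38 : pfC (piC [(nat_lit 40173837), (nat_lit 25770221), (nat_lit 19310217), (nat_lit 12946273)] (nat_lit 5395682)) p12_12_3 (nat_lit 4) (nat_lit 38) (nat_lit 39) = true := by decide +kernel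
def p12_12_3_39 : pfC (piC [(nat_lit 40173837), (nat_lit 25770221), (nat_lit 19310217), (nat_lit 12946273)] (nat_lit 5395682)) p12_12_3 (nat_lit 4) (nat_lit 39) (nat_lit 40) = true := by decide +kernel
def p12_12_3_40 : pfC (piC [(nat_lit 40173837), (nat_lit 25770221), (nat_lit 19310217), (nat_lit 12946273)] (nat_lit 5395682)) p12_12_3 (nat_lit 4) (nat_lit 40) (nat_lit 41) = true := by decide +kernel
def p12_12_3_41 : pfC (piC [(nat_lit 40173837), (nat_lit 25770221), (nat_lit 19310217), (nat_lit 12946273)] (nat_lit 5395682)) p12_12_3 (nat_lit 4) (nat_lit 41) (nat_lit 42) = true := by decide +kernel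
def p12_12_3_42 : pfC (piC [(nat_lit 40173837), (nat_lit 25770221), (nat_lit 19310217), (nat_lit 12946273)] (nat_lit 5395682)) p12_12_3 (nat_lit 4) (nat_lit 42) (nat_lit 43) = true := by decide +kernel
def p12_12_3_43 : pfC (piC [(nat_lit 40173837), (nat_lit 25770221), (nat_lit 19310217), (nat_lit 12946273)] (nat_lit 5395682)) p12_12_3 (nat_lit 4) (nat_lit 43) (nat_lit 44) = true := by decide +kernel
def p12_12_3_44 : pfC (piC [(nat_lit 40173837), (nat_lit 25770221), (nat_lit 19310217), (nat_lit 12946273)] (nat_lit 5395682)) p12_12_3 (nat_lit 4) (nat_lit 44) (nat_lit 45) = true := by decide +kernel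
def p12_12_3_45 : pfC (piC [(nat_lit 40173837), (nat_lit 25770221), (nat_lit 19310217), (nat_lit 12946273)] (nat_lit 5395682)) p12_12_3 (nat_lit 4) (nat_lit 45) (nat_lit 46) = true := by decide +kernel
def p12_12_3_46 : pfC (piC [(nat_lit 40173837), (nat_lit 25770221), (nat_lit 19310217), (nat_lit 12946273)] (nat_lit 5395682)) p12_12_3 (nat_lit 4) (nat_lit 46) (nat_lit 47) = true := by decide +kernel
def p12_12_3_47 : pfC (piC [(nat_lit 40173837), (nat_lit 25770221), (nat_lit 19310217), (nat_lit 12946273)] (nat_lit 5395682)) p12_12_3 (nat_lit 4) (nat_lit 47) (nat_lit 48) = true := by decide +kernel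
def p12_12_3_48 : pfC (piC [(nat_lit 40173837), (nat_lit 25770221), (nat_lit 19310217), (nat_lit 12946273)] (nat_lit 5395682)) p12_12_3 (nat_lit 4) (nat_lit 48) (nat_lit 49) = true := by decide +kernel
def p12_12_3_49 : pfC (piC [(nat_lit 40173837), (nat_lit 25770221), (nat_lit 19310217), (nat_lit 12946273)] (nat_lit 5395682)) p12_12_3 (nat_lit 4) (nat_lit 49) (nat_lit 50) = true := by decide +kernel
def p12_12_3_50 : pfC (piC [(nat_lit 40173837), (nat_lit 25770221), (nat_lit 19310217), (nat_lit 12946273)] (nat_lit 5395682)) p12_12_3 (nat_lit 4) (nat_lit 50) (nat_lit 51) = true := by decide +kernel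
def p12_12_3_51 : pfC (piC [(nat_lit 40173837), (nat_lit 25770221), (nat_lit 19310217), (nat_lit 12946273)] (nat_lit 5395682)) p12_12_3 (nat_lit 4) (nat_lit 51) (nat_lit 52) = true := by decide +kernel
def p12_12_3_52 : pfC (piC [(nat_lit 40173837), (nat_lit 25770221), (nat_lit 19310217), (nat_lit 12946273)] (nat_lit 5395682)) p12_12_3 (nat_lit 4) (nat_lit 52) (nat_lit 53) = true := by decide +kernel
def p12_12_3_53 : pfC (piC [(nat_lit 40173837), (nat_lit 25770221), (nat_lit 19310217), (nat_lit 12946273)] (nat_lit 5395682)) p12_12_3 (nat_lit 4) (nat_lit 53) (nat_lit 54) = true := by decide +kernel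
def p12_12_3_54 : pfC (piC [(nat_lit 40173837), (nat_lit 25770221), (nat_lit 19310217), (nat_lit 12946273)] (nat_lit 5395682)) p12_12_3 (nat_lit 4) (nat_lit 54) (nat_lit 55) = true := by decide +kernel
def p12_12_3_55 : pfC (piC [(nat_lit 40173837), (nat_lit 25770221), (nat_lit 19310217), (nat_lit 12946273)] (nat_lit 5395682)) p12_12_3 (nat_lit 4) (nat_lit 55) (nat_lit 56) = true := by decide +kernel
def p12_12_3_56 : pfC (piC [(nat_lit 40173837), (nat_lit 25770221), (nat_lit 19310217), (nat_lit 12946273)] (nat_lit 5395682)) p12_12_3 (nat_lit 4) (nat_lit 56) (nat_lit 57) = true := by decide +kernel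
def p12_12_3_57 : pfC (piC [(nat_lit 40173837), (nat_lit 25770221), (nat_lit 19310217), (nat_lit 12946273)] (nat_lit 5395682)) p12_12_3 (nat_lit 4) (nat_lit 57) (nat_lit 58) = true := by decide +kernel
def p12_12_3_58 : pfC (piC [(nat_lit 40173837), (nat_lit 25770221), (nat_lit 19310217), (nat_lit 12946273)] (nat_lit 5395682)) p12_12_3 (nat_lit 4) (nat_lit 58) (nat_lit 59) = true := by decide +kernel
def p12_12_3_59 : pfC (piC [(nat_lit 40173837), (nat_lit 25770221), (nat_lit 19310217), (nat_lit 12946273)] (nat_lit 5395682)) p12_12_3 (nat_lit 4) (nat_lit 59) (nat_lit 60) = true := by decide +kernel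
def p12_12_3_60 : pfC (piC [(nat_lit 40173837), (nat_lit 25770221), (nat_lit 19310217), (nat_lit 12946273)] (nat_lit 5395682)) p12_12_3 (nat_lit 4) (nat_lit 60) (nat_lit 61) = true := by decide +kernel
def p12_12_3_61 : pfC (piC [(nat_lit 40173837), (nat_lit 25770221), (nat_lit 19310217), (nat_lit 12946273)] (nat_lit 5395682)) p12_12_3 (nat_lit 4) (nat_lit 61) (nat_lit 62) = true := by decide +kernel
def p12_12_3_62 : pfC (piC [(nat_lit 40173837), (nat_lit 25770221), (nat_lit 19310217), (nat_lit 12946273)] (nat_lit 5395682)) p12_12_3 (nat_lit 4) (nat_lit 62) (nat_lit 63) = true := by decide +kernel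
def p12_12_3_63 : pfC (piC [(nat_lit 40173837), (nat_lit 25770221), (nat_lit 19310217), (nat_lit 12946273)] (nat_lit 5395682)) p12_12_3 (nat_lit 4) (nat_lit 63) (nat_lit 64) = true := by decide +kernel
def p12_12_3_64 : pfC (piC [(nat_lit 40173837), (nat_lit 25770221), (nat_lit 19310217), (nat_lit 12946273)] (nat_lit 5395682)) p12_12_3 (nat_lit 4) (nat_lit 64) (nat_lit 65) = true := by decide +kernel
def p12_12_3_65 : pfC (piC [(nat_lit 40173837), (nat_lit 25770221), (nat_lit 19310217), (nat_lit 12946273)] (nat_lit 5395682)) p12_12_3 (nat_lit 4) (nat_lit 65) (nat_lit 66) = true := by decide +kernel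
def p12_12_3_66 : pfC (piC [(nat_lit 40173837), (nat_lit 25770221), (nat_lit 19310217), (nat_lit 12946273)] (nat_lit 5395682)) p12_12_3 (nat_lit 4) (nat_lit 66) (nat_lit 67) = true := by decide +kernel
def p12_12_3_67 : pfC (piC [(nat_lit 40173837), (nat_lit 25770221), (nat_lit 19310217), (nat_lit 12946273)] (nat_lit 5395682)) p12_12_3 (nat_lit 4) (nat_lit 67) (nat_lit 68) = true := by decide +kernel
def p12_12_3_68 : pfC (piC [(nat_lit 40173837), (nat_lit 25770221), (nat_lit 19310217), (nat_lit 12946273)] (nat_lit 5395682)) p12_12_3 (nat_lit 4) (nat_lit 68) (nat_lit 69) = true := by decide +kernel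
def p12_12_3_69 : pfC (piC [(nat_lit 40173837), (nat_lit 25770221), (nat_lit 19310217), (nat_lit 12946273)] (nat_lit 5395682)) p12_12_3 (nat_lit 4) (nat_lit 69) (nat_lit 70) = true := by decide +kernel
def p12_12_3_70 : pfC (piC [(nat_lit 40173837), (nat_lit 25770221), (nat_lit 19310217), (nat_lit 12946273)] (nat_lit 5395682)) p12_12_3 (nat_lit 4) (nat_lit 70) (nat_lit 71) = true := by decide +kernel
def p12_12_3_71 : pfC (piC [(nat_lit 40173837), (nat_lit 25770221), (nat_lit 19310217), (nat_lit 12946273)] (nat_lit 5395682)) p12_12_3 (nat_lit 4) (nat_lit 71) (nat_lit 72) = true := by decide +kernel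
def p12_12_3_72 : pfC (piC [(nat_lit 40173837), (nat_lit 25770221), (nat_lit 19310217), (nat_lit 12946273)] (nat_lit 5395682)) p12_12_3 (nat_lit 4) (nat_lit 72) (nat_lit 73) = true := by decide +kernel
def p12_12_3_73 : pfC (piC [(nat_lit 40173837), (nat_lit 25770221), (nat_lit 19310217), (nat_lit 12946273)] (nat_lit 5395682)) p12_12_3 (nat_lit 4) (nat_lit 73) (nat_lit 74) = true := by decide +kernel
def p12_12_3_74 : pfC (piC [(nat_lit 40173837), (nat_lit 25770221), (nat_lit 19310217), (nat_lit 12946273)] (nat_lit 5395682)) p12_12_3 (nat_lit 4) (nat_lit 74) (nat_lit 75) = true := by decide +kernel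
def p12_12_3_75 : pfC (piC [(nat_lit 40173837), (nat_lit 25770221), (nat_lit 19310217), (nat_lit 12946273)] (nat_lit 5395682)) p12_12_3 (nat_lit 4) (nat_lit 75) (nat_lit 76) = true := by decide +kernel
def p12_12_3_76 : pfC (piC [(nat_lit 40173837), (nat_lit 25770221), (nat_lit 19310217), (nat_lit 12946273)] (nat_lit 5395682)) p12_12_3 (nat_lit 4) (nat_lit 76) (nat_lit 77) = true := by decide +kernel
def p12_12_3_77 : pfC (piC [(nat_lit 40173837), (nat_lit 25770221), (nat_lit 19310217), (nat_lit 12946273)] (nat_lit 5395682)) p12_12_3 (nat_lit 4) (nat_lit 77) (nat_lit 78) = true := by decide +kernel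
def p12_12_3_78 : pfC (piC [(nat_lit 40173837), (nat_lit 25770221), (nat_lit 19310217), (nat_lit 12946273)] (nat_lit 5395682)) p12_12_3 (nat_lit 4) (nat_lit 78) (nat_lit 79) = true := by decide +kernel
def p12_12_3_79 : pfC (piC [(nat_lit 40173837), (nat_lit 25770221), (nat_lit 19310217), (nat_lit 12946273)] (nat_lit 5395682)) p12_12_3 (nat_lit 4) (nat_lit 79) (nat_lit 80) = true := by decide +kernel
def p12_12_3_80 : pfC (piC [(nat_lit 40173837), (nat_lit 25770221), (nat_lit 19310217), (nat_lit 12946273)] (nat_lit 5395682)) p12_12_3 (nat_lit 4) (nat_lit 80) (nat_lit 81) = true := by decide +kernel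
def p12_12_3_81 : pfC (piC [(nat_lit 40173837), (nat_lit 25770221), (nat_lit 19310217), (nat_lit 12946273)] (nat_lit 5395682)) p12_12_3 (nat_lit 4) (nat_lit 81) (nat_lit 82) = true := by decide +kernel
def p12_12_3_82 : pfC (piC [(nat_lit 40173837), (nat_lit 25770221), (nat_lit 19310217), (nat_lit 12946273)] (nat_lit 5395682)) p12_12_3 (nat_lit 4) (nat_lit 82) (nat_lit 83) = true := by decide +kernel
def p12_12_3_83 : pfC (piC [(nat_lit 40173837), (nat_lit 25770221), (nat_lit 19310217), (nat_lit 12946273)] (nat_lit 5395682)) p12_12_3 (nat_lit 4) (nat_lit 83) (nat_lit 84) = true := by decide +kernel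
def p12_12_3_84 : pfC (piC [(nat_lit 40173837), (nat_lit 25770221), (nat_lit 19310217), (nat_lit 12946273)] (nat_lit 5395682)) p12_12_3 (nat_lit 4) (nat_lit 84) (nat_lit 85) = true := by decide +kernel
def p12_12_3_85 : pfC (piC [(nat_lit 40173837), (nat_lit 25770221), (nat_lit 19310217), (nat_lit 12946273)] (nat_lit 5395682)) p12_12_3 (nat_lit 4) (nat_lit 85) (nat_lit 86) = true := by decide +kernel
def p12_12_3_86 : pfC (piC [(nat_lit 40173837), (nat_lit 25770221), (nat_lit 19310217), (nat_lit 12946273)] (nat_lit 5395682)) p12_12_3 (nat_lit 4) (nat_lit 86) (nat_lit 87) = true := by decide +kernel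
def p12_12_3_87 : pfC (piC [(nat_lit 40173837), (nat_lit 25770221), (nat_lit 19310217), (nat_lit 12946273)] (nat_lit 5395682)) p12_12_3 (nat_lit 4) (nat_lit 87) (nat_lit 88) = true := by decide +kernel
def p12_12_3_88 : pfC (piC [(nat_lit 40173837), (nat_lit 25770221), (nat_lit 19310217), (nat_lit 12946273)] (nat_lit 5395682)) p12_12_3 (nat_lit 4) (nat_lit 88) (nat_lit 89) = true := by decide +kernel
def p12_12_3_89 : pfC (piC [(nat_lit 40173837), (nat_lit 25770221), (nat_lit 19310217), (nat_lit 12946273)] (nat_lit 5395682)) p12_12_3 (nat_lit 4) (nat_lit 89) (nat_lit 90) = true := by decide +kernel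
def p12_12_3_90 : pfC (piC [(nat_lit 40173837), (nat_lit 25770221), (nat_lit 19310217), (nat_lit 12946273)] (nat_lit 5395682)) p12_12_3 (nat_lit 4) (nat_lit 90) (nat_lit 91) = true := by decide +kernel
def p12_12_3_91 : pfC (piC [(nat_lit 40173837), (nat_lit 25770221), (nat_lit 19310217), (nat_lit 12946273)] (nat_lit 5395682)) p12_12_3 (nat_lit 4) (nat_lit 91) (nat_lit 92) = true := by decide +kernel
def p12_12_3_92 : pfC (piC [(nat_lit 40173837), (nat_lit 25770221), (nat_lit 19310217), (nat_lit 12946273)] (nat_lit 5395682)) p12_12_3 (nat_lit 4) (nat_lit 92) (nat_lit 93) = true := by decide +kernel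
def p12_12_3_93 : pfC (piC [(nat_lit 40173837), (nat_lit 25770221), (nat_lit 19310217), (nat_lit 12946273)] (nat_lit 5395682)) p12_12_3 (nat_lit 4) (nat_lit 93) (nat_lit 94) = true := by decide +kernel
def p12_12_3_94 : pfC (piC [(nat_lit 40173837), (nat_lit 25770221), (nat_lit 19310217), (nat_lit 12946273)] (nat_lit 5395682)) p12_12_3 (nat_lit 4) (nat_lit 94) (nat_lit 95) = true := by decide +kernel
def p12_12_3_95 : pfC (piC [(nat_lit 40173837), (nat_lit 25770221), (nat_lit 19310217), (nat_lit 12946273)] (nat_lit 5395682)) p12_12_3 (nat_lit 4) (nat_lit 95) (nat_lit 96) = true := by decide +kernel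
def p12_12_3_96 : pfC (piC [(nat_lit 40173837), (nat_lit 25770221), (nat_lit 19310217), (nat_lit 12946273)] (nat_lit 5395682)) p12_12_3 (nat_lit 4) (nat_lit 96) (nat_lit 97) = true := by decide +kernel
def p12_12_3_97 : pfC (piC [(nat_lit 40173837), (nat_lit 25770221), (nat_lit 19310217), (nat_lit 12946273)] (nat_lit 5395682)) p12_12_3 (nat_lit 4) (nat_lit 97) (nat_lit 98) = true := by decide +kernel
def p12_12_3_98 : pfC (piC [(nat_lit 40173837), (nat_lit 25770221), (nat_lit 19310217), (nat_lit 12946273)] (nat_lit 5395682)) p12_12_3 (nat_lit 4) (nat_lit 98) (nat_lit 99) = true := by decide +kernel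
def p12_12_3_99 : pfC (piC [(nat_lit 40173837), (nat_lit 25770221), (nat_lit 19310217), (nat_lit 12946273)] (nat_lit 5395682)) p12_12_3 (nat_lit 4) (nat_lit 99) (nat_lit 100) = true := by decide +kernel
def p12_12_3_100 : pfC (piC [(nat_lit 40173837), (nat_lit 25770221), (nat_lit 19310217), (nat_lit 12946273)] (nat_lit 5395682)) p12_12_3 (nat_lit 4) (nat_lit 100) (nat_lit 101) = true := by decide +kernel
def p12_12_3_101 : pfC (piC [(nat_lit 40173837), (nat_lit 25770221), (nat_lit 19310217), (nat_lit 12946273)] (nat_lit 5395682)) p12_12_3 (nat_lit 4) (nat_lit 101) (nat_lit 102) = true := by decide +kernel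
def p12_12_3_102 : pfC (piC [(nat_lit 40173837), (nat_lit 25770221), (nat_lit 19310217), (nat_lit 12946273)] (nat_lit 5395682)) p12_12_3 (nat_lit 4) (nat_lit 102) (nat_lit 103) = true := by decide +kernel
def p12_12_3_103 : pfC (piC [(nat_lit 40173837), (nat_lit 25770221), (nat_lit 19310217), (nat_lit 12946273)] (nat_lit 5395682)) p12_12_3 (nat_lit 4) (nat_lit 103) (nat_lit 104) = true := by decide +kernel
def p12_12_3_104 : pfC (piC [(nat_lit 40173837), (nat_lit 25770221), (nat_lit 19310217), (nat_lit 12946273)] (nat_lit 5395682)) p12_12_3 (nat_lit 4) (nat_lit 104) (nat_lit 105) = true := by decide +kernel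
def p12_12_3_105 : pfC (piC [(nat_lit 40173837), (nat_lit 25770221), (nat_lit 19310217), (nat_lit 12946273)] (nat_lit 5395682)) p12_12_3 (nat_lit 4) (nat_lit 105) (nat_lit 106) = true := by decide +kernel
def p12_12_3_106 : pfC (piC [(nat_lit 40173837), (nat_lit 25770221), (nat_lit 19310217), (nat_lit 12946273)] (nat_lit 5395682)) p12_12_3 (nat_lit 4) (nat_lit 106) (nat_lit 107) = true := by decide +kernel
def p12_12_3_107 : pfC (piC [(nat_lit 40173837), (nat_lit 25770221), (nat_lit 19310217), (nat_lit 12946273)] (nat_lit 5395682)) p12_12_3 (nat_lit 4) (nat_lit 107) (nat_lit 108) = true := by decide +kernel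
def p12_12_3_108 : pfC (piC [(nat_lit 40173837), (nat_lit 25770221), (nat_lit 19310217), (nat_lit 12946273)] (nat_lit 5395682)) p12_12_3 (nat_lit 4) (nat_lit 108) (nat_lit 109) = true := by decide +kernel
def p12_12_3_109 : pfC (piC [(nat_lit 40173837), (nat_lit 25770221), (nat_lit 19310217), (nat_lit 12946273)] (nat_lit 5395682)) p12_12_3 (nat_lit 4) (nat_lit 109) (nat_lit 110) = true := by decide +kernel
def p12_12_3_110 : pfC (piC [(nat_lit 40173837), (nat_lit 25770221), (nat_lit 19310217), (nat_lit 12946273)] (nat_lit 5395682)) p12_12_3 (nat_lit 4) (nat_lit 110) (nat_lit 111) = true := by decide +kernel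
def p12_12_3_111 : pfC (piC [(nat_lit 40173837), (nat_lit 25770221), (nat_lit 19310217), (nat_lit 12946273)] (nat_lit 5395682)) p12_12_3 (nat_lit 4) (nat_lit 111) (nat_lit 112) = true := by decide +kernel
def p12_12_3_112 : pfC (piC [(nat_lit 40173837), (nat_lit 25770221), (nat_lit 19310217), (nat_lit 12946273)] (nat_lit 5395682)) p12_12_3 (nat_lit 4) (nat_lit 112) (nat_lit 113) = true := by decide +kernel
def p12_12_3_113 : pfC (piC [(nat_lit 40173837), (nat_lit 25770221), (nat_lit 19310217), (nat_lit 12946273)] (nat_lit 5395682)) p12_12_3 (nat_lit 4) (nat_lit 113) (nat_lit 114) = true := by decide +kernel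
def p12_12_3_114 : pfC (piC [(nat_lit 40173837), (nat_lit 25770221), (nat_lit 19310217), (nat_lit 12946273)] (nat_lit 5395682)) p12_12_3 (nat_lit 4) (nat_lit 114) (nat_lit 115) = true := by decide +kernel
def p12_12_3_115 : pfC (piC [(nat_lit 40173837), (nat_lit 25770221), (nat_lit 19310217), (nat_lit 12946273)] (nat_lit 5395682)) p12_12_3 (nat_lit 4) (nat_lit 115) (nat_lit 116) = true := by decide +kernel
def p12_12_3_116 : pfC (piC [(nat_lit 40173837), (nat_lit 25770221), (nat_lit 19310217), (nat_lit 12946273)] (nat_lit 5395682)) p12_12_3 (nat_lit 4) (nat_lit 116) (nat_lit 117) = true := by decide +kernel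
def p12_12_3_117 : pfC (piC [(nat_lit 40173837), (nat_lit 25770221), (nat_lit 19310217), (nat_lit 12946273)] (nat_lit 5395682)) p12_12_3 (nat_lit 4) (nat_lit 117) (nat_lit 118) = true := by decide +kernel
def p12_12_3_118 : pfC (piC [(nat_lit 40173837), (nat_lit 25770221), (nat_lit 19310217), (nat_lit 12946273)] (nat_lit 5395682)) p12_12_3 (nat_lit 4) (nat_lit 118) (nat_lit 119) = true := by decide +kernel
def p12_12_3_119 : pfC (piC [(nat_lit 40173837), (nat_lit 25770221), (nat_lit 19310217), (nat_lit 12946273)] (nat_lit 5395682)) p12_12_3 (nat_lit 4) (nat_lit 119) (nat_lit 120) = true := by decide +kernel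
def p12_12_3_120 : pfC (piC [(nat_lit 40173837), (nat_lit 25770221), (nat_lit 19310217), (nat_lit 12946273)] (nat_lit 5395682)) p12_12_3 (nat_lit 4) (nat_lit 120) (nat_lit 121) = true := by decide +kernel
def p12_12_3_121 : pfC (piC [(nat_lit 40173837), (nat_lit 25770221), (nat_lit 19310217), (nat_lit 12946273)] (nat_lit 5395682)) p12_12_3 (nat_lit 4) (nat_lit 121) (nat_lit 122) = true := by decide +kernel
def p12_12_3_122 : pfC (piC [(nat_lit 40173837), (nat_lit 25770221), (nat_lit 19310217), (nat_lit 12946273)] (nat_lit 5395682)) p12_12_3 (nat_lit 4) (nat_lit 122) (nat_lit 123) = true := by decide +kernel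
def p12_12_3_123 : pfC (piC [(nat_lit 40173837), (nat_lit 25770221), (nat_lit 19310217), (nat_lit 12946273)] (nat_lit 5395682)) p12_12_3 (nat_lit 4) (nat_lit 123) (nat_lit 124) = true := by decide +kernel
def p12_12_3_124 : pfC (piC [(nat_lit 40173837), (nat_lit 25770221), (nat_lit 19310217), (nat_lit 12946273)] (nat_lit 5395682)) p12_12_3 (nat_lit 4) (nat_lit 124) (nat_lit 125) = true := by decide +kernel
def p12_12_3_125 : pfC (piC [(nat_lit 40173837), (nat_lit 25770221), (nat_lit 19310217), (nat_lit 12946273)] (nat_lit 5395682)) p12_12_3 (nat_lit 4) (nat_lit 125) (nat_lit 126) = true := by decide +kernel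
def p12_12_3_126 : pfC (piC [(nat_lit 40173837), (nat_lit 25770221), (nat_lit 19310217), (nat_lit 12946273)] (nat_lit 5395682)) p12_12_3 (nat_lit 4) (nat_lit 126) (nat_lit 127) = true := by decide +kernel
def p12_12_3_127 : pfC (piC [(nat_lit 40173837), (nat_lit 25770221), (nat_lit 19310217), (nat_lit 12946273)] (nat_lit 5395682)) p12_12_3 (nat_lit 4) (nat_lit 127) (nat_lit 128) = true := by decide +kernel
def p12_12_3_128 : pfC (piC [(nat_lit 40173837), (nat_lit 25770221), (nat_lit 19310217), (nat_lit 12946273)] (nat_lit 5395682)) p12_12_3 (nat_lit 4) (nat_lit 128) (nat_lit 129) = true := by decide +kernel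
def p12_12_3_129 : pfC (piC [(nat_lit 40173837), (nat_lit 25770221), (nat_lit 19310217), (nat_lit 12946273)] (nat_lit 5395682)) p12_12_3 (nat_lit 4) (nat_lit 129) (nat_lit 130) = true := by decide +kernel
def p12_12_3_130 : pfC (piC [(nat_lit 40173837), (nat_lit 25770221), (nat_lit 19310217), (nat_lit 12946273)] (nat_lit 5395682)) p12_12_3 (nat_lit 4) (nat_lit 130) (nat_lit 131) = true := by decide +kernel
def p12_12_3_131 : pfC (piC [(nat_lit 40173837), (nat_lit 25770221), (nat_lit 19310217), (nat_lit 12946273)] (nat_lit 5395682)) p12_12_3 (nat_lit 4) (nat_lit 131) (nat_lit 132) = true := by decide +kernel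
def p12_12_3_132 : pfC (piC [(nat_lit 40173837), (nat_lit 25770221), (nat_lit 19310217), (nat_lit 12946273)] (nat_lit 5395682)) p12_12_3 (nat_lit 4) (nat_lit 132) (nat_lit 133) = true := by decide +kernel
def p12_12_3_133 : pfC (piC [(nat_lit 40173837), (nat_lit 25770221), (nat_lit 19310217), (nat_lit 12946273)] (nat_lit 5395682)) p12_12_3 (nat_lit 4) (nat_lit 133) (nat_lit 134) = true := by decide +kernel
def p12_12_3_134 : pfC (piC [(nat_lit 40173837), (nat_lit 25770221), (nat_lit 19310217), (nat_lit 12946273)] (nat_lit 5395682)) p12_12_3 (nat_lit 4) (nat_lit 134) (nat_lit 135) = true := by decide +kernel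
def p12_12_3_135 : pfC (piC [(nat_lit 40173837), (nat_lit 25770221), (nat_lit 19310217), (nat_lit 12946273)] (nat_lit 5395682)) p12_12_3 (nat_lit 4) (nat_lit 135) (nat_lit 136) = true := by decide +kernel
def p12_12_3_136 : pfC (piC [(nat_lit 40173837), (nat_lit 25770221), (nat_lit 19310217), (nat_lit 12946273)] (nat_lit 5395682)) p12_12_3 (nat_lit 4) (nat_lit 136) (nat_lit 137) = true := by decide +kernel
def p12_12_3_137 : pfC (piC [(nat_lit 40173837), (nat_lit 25770221), (nat_lit 19310217), (nat_lit 12946273)] (nat_lit 5395682)) p12_12_3 (nat_lit 4) (nat_lit 137) (nat_lit 138) = true := by decide +kernel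
def p12_12_3_138 : pfC (piC [(nat_lit 40173837), (nat_lit 25770221), (nat_lit 19310217), (nat_lit 12946273)] (nat_lit 5395682)) p12_12_3 (nat_lit 4) (nat_lit 138) (nat_lit 139) = true := by decide +kernel
def p12_12_3_139 : pfC (piC [(nat_lit 40173837), (nat_lit 25770221), (nat_lit 19310217), (nat_lit 12946273)] (nat_lit 5395682)) p12_12_3 (nat_lit 4) (nat_lit 139) (nat_lit 140) = true := by decide +kernel
def p12_12_3_140 : pfC (piC [(nat_lit 40173837), (nat_lit 25770221), (nat_lit 19310217), (nat_lit 12946273)] (nat_lit 5395682)) p12_12_3 (nat_lit 4) (nat_lit 140) (nat_lit 141) = true := by decide +kernel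
def p12_12_3_141 : pfC (piC [(nat_lit 40173837), (nat_lit 25770221), (nat_lit 19310217), (nat_lit 12946273)] (nat_lit 5395682)) p12_12_3 (nat_lit 4) (nat_lit 141) (nat_lit 142) = true := by decide +kernel
def p12_12_3_142 : pfC (piC [(nat_lit 40173837), (nat_lit 25770221), (nat_lit 19310217), (nat_lit 12946273)] (nat_lit 5395682)) p12_12_3 (nat_lit 4) (nat_lit 142) (nat_lit 143) = true := by decide +kernel
def p12_12_3_143 : pfC (piC [(nat_lit 40173837), (nat_lit 25770221), (nat_lit 19310217), (nat_lit 12946273)] (nat_lit 5395682)) p12_12_3 (nat_lit 4) (nat_lit 143) (nat_lit 144) = true := by decide +kernel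
def p12_12_3_144 : pfC (piC [(nat_lit 40173837), (nat_lit 25770221), (nat_lit 19310217), (nat_lit 12946273)] (nat_lit 5395682)) p12_12_3 (nat_lit 4) (nat_lit 144) (nat_lit 145) = true := by decide +kernel
def p12_12_3_145 : pfC (piC [(nat_lit 40173837), (nat_lit 25770221), (nat_lit 19310217), (nat_lit 12946273)] (nat_lit 5395682)) p12_12_3 (nat_lit 4) (nat_lit 145) (nat_lit 146) = true := by decide +kernel
def p12_12_3_146 : pfC (piC [(nat_lit 40173837), (nat_lit 25770221), (nat_lit 19310217), (nat_lit 12946273)] (nat_lit 5395682)) p12_12_3 (nat_lit 4) (nat_lit 146) (nat_lit 147) = true := by decide +kernel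
def p12_12_3_147 : pfC (piC [(nat_lit 40173837), (nat_lit 25770221), (nat_lit 19310217), (nat_lit 12946273)] (nat_lit 5395682)) p12_12_3 (nat_lit 4) (nat_lit 147) (nat_lit 148) = true := by decide +kernel
def p12_12_3_148 : pfC (piC [(nat_lit 40173837), (nat_lit 25770221), (nat_lit 19310217), (nat_lit 12946273)] (nat_lit 5395682)) p12_12_3 (nat_lit 4) (nat_lit 148) (nat_lit 149) = true := by decide +kernel
def p12_12_3_149 : pfC (piC [(nat_lit 40173837), (nat_lit 25770221), (nat_lit 19310217), (nat_lit 12946273)] (nat_lit 5395682)) p12_12_3 (nat_lit 4) (nat_lit 149) (nat_lit 150) = true := by decide +kernel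
theorem p12_12_3_T : PfS (PiF n12_12.reverse (nat_lit 5395682)) p12_12_3 (nat_lit 4) [] 0 :=
  pftab_of (los := [(nat_lit 40173837), (nat_lit 25770221), (nat_lit 19310217), (nat_lit 12946273)]) (by decide +kernel) (hi := (nat_lit 150)) (PfP.trans (PfP.trans (PfP.trans (PfP.trans (PfP.trans (PfP.trans (PfP.trans (PfP.trans (PfP.trans (PfP.trans (PfP.trans (PfP.trans (PfP.trans (PfP.trans (PfP.trans (PfP.trans (PfP.trans (PfP.trans (PfP.trans (PfP.trans (PfP.trans (PfP.trans (PfP.trans (PfP.trans (PfP.trans (PfP.trans (PfP.trans (PfP.trans (PfP.trans (PfP.trans (PfP.trans (PfP.trans (PfP.trans (PfP.trans (PfP.trans (PfP.trans (PfP.trans (PfP.trans (PfP.trans (PfP.trans (PfP.trans (PfP.trans (PfP.trans (PfP.trans (PfP.trans (PfP.trans (PfP.trans (PfP.trans (PfP.trans (PfP.trans (PfP.trans (PfP.trans (PfP.trans (PfP.trans (PfP.trans (PfP.trans (PfP.trans (PfP.trans (PfP.trans (PfP.trans (PfP.trans (PfP.trans (PfP.trans (PfP.trans (PfP.trans (PfP.trans (PfP.trans (PfP.trans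 (PfP.trans (PfP.trans (PfP.trans (PfP.trans (PfP.trans (PfP.trans (PfP.trans (PfP.trans (PfP.trans (PfP.trans (PfP.trans (PfP.trans (PfP.trans (PfP.trans (PfP.trans (PfP.trans (PfP.trans (PfP.trans (PfP.trans (PfP.trans (PfP.trans (PfP.trans (PfP.trans (PfP.trans (PfP.trans (PfP.trans (PfP.trans (PfP.trans (PfP.trans (PfP.trans (PfP.trans (PfP.trans (PfP.trans (PfP.trans (PfP.trans (PfP.trans (PfP.trans (PfP.trans (PfP.trans (PfP.trans (PfP.trans
 (PfP.trans (PfP.trans (PfP.trans (PfP.trans (PfP.trans (PfP.trans (PfP.trans (PfP.trans (PfP.trans (PfP.trans (PfP.trans (PfP.trans (PfP.trans (PfP.trans (PfP.trans (PfP.trans (PfP.trans (PfP.trans (PfP.trans (PfP.trans (PfP.trans (PfP.trans (PfP.trans (PfP.trans (PfP.trans (PfP.trans (PfP.trans (PfP.trans (PfP.trans (PfP.trans (PfP.trans (PfP.trans (PfP.trans (PfP.trans (PfP.trans (PfP.trans (PfP.trans (PfP.trans (PfP.trans (PfP.trans (pfC_sound p12_12_3_0) (pfC_sound p12_12_3_1)) (pfC_sound p12_12_3_2)) (pfC_sound p12_12_3_3))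 (pfC_sound p12_12_3_4)) (pfC_sound p12_12_3_5)) (pfC_sound p12_12_3_6)) (pfC_sound p12_12_3_7)) (pfC_sound p12_12_3_8)) (pfC_sound p12_12_3_9)) (pfC_sound p12_12_3_10)) (pfC_sound p12_12_3_11)) (pfC_sound p12_12_3_12)) (pfC_sound p12_12_3_13)) (pfC_sound p12_12_3_14)) (pfC_sound p12_12_3_15)) (pfC_sound p12_12_3_16)) (pfC_sound p12_12_3_17)) (pfC_sound p12_12_3_18)) (pfC_sound p12_12_3_19)) (pfC_sound p12_12_3_20)) (pfC_sound p12_12_3_21)) (pfC_sound p12_12_3_22)) (pfC_sound p12_12_3_23)) (pfC_sound p12_12_3_24)) (pfC_sound p12_12_3_25)) (pfC_sound p12_12_3_26)) (pfC_sound p12_12_3_27)) (pfC_sound p12_12_3_28)) (pfC_sound p12_12_3_29)) (pfC_sound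
 p12_12_3_30)) (pfC_sound p12_12_3_31)) (pfC_sound p12_12_3_32)) (pfC_sound p12_12_3_33)) (pfC_sound p12_12_3_34)) (pfC_sound p12_12_3_35)) (pfC_sound p12_12_3_36)) (pfC_sound p12_12_3_37)) (pfC_sound p12_12_3_38)) (pfC_sound p12_12_3_39)) (pfC_sound p12_12_3_40)) (pfC_sound p12_12_3_41)) (pfC_sound p12_12_3_42)) (pfC_sound p12_12_3_43)) (pfC_sound p12_12_3_44)) (pfC_sound p12_12_3_45)) (pfC_sound p12_12_3_46)) (pfC_sound p12_12_3_47)) (pfC_sound p12_12_3_48)) (pfC_sound p12_12_3_49)) (pfC_sound p12_12_3_50)) (pfC_sound p12_12_3_51)) (pfC_sound p12_12_3_52)) (pfC_sound p12_12_3_53)) (pfC_sound p12_12_3_54)) (pfC_sound p12_12_3_55)) (pfC_sound p12_12_3_56)) (pfC_sound p12_12_3_57)) (pfC_sound p12_12_3_58)) (pfC_sound p12_12_3_59)) (pfC_sound p12_12_3_60)) (pfC_sound p12_12_3_61)) (pfC_sound p12_12_3_62)) (pfC_sound p12_12_3_63)) (pfC_sound p12_12_3_64)) (pfC_sound p12_12_3_65)) (pfC_sound p12_12_3_66)) (pfC_sound p12_12_3_67)) (pfC_sound p12_12_3_68)) (pfC_sound p12_12_3_69))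 (pfC_sound p12_12_3_70)) (pfC_sound p12_12_3_71)) (pfC_sound p12_12_3_72)) (pfC_sound p12_12_3_73)) (pfC_sound p12_12_3_74)) (pfC_sound p12_12_3_75)) (pfC_sound p12_12_3_76)) (pfC_sound p12_12_3_77)) (pfC_sound
 p12_12_3_78)) (pfC_sound p12_12_3_79)) (pfC_sound p12_12_3_80)) (pfC_sound p12_12_3_81)) (pfC_sound p12_12_3_82)) (pfC_sound p12_12_3_83)) (pfC_sound p12_12_3_84)) (pfC_sound p12_12_3_85)) (pfC_sound p12_12_3_86)) (pfC_sound p12_12_3_87)) (pfC_sound p12_12_3_88)) (pfC_sound p12_12_3_89)) (pfC_sound p12_12_3_90)) (pfC_sound p12_12_3_91)) (pfC_sound p12_12_3_92)) (pfC_sound p12_12_3_93)) (pfC_sound p12_12_3_94)) (pfC_sound p12_12_3_95)) (pfC_sound p12_12_3_96)) (pfC_sound p12_12_3_97)) (pfC_sound p12_12_3_98)) (pfC_sound p12_12_3_99)) (pfC_sound p12_12_3_100)) (pfC_sound p12_12_3_101)) (pfC_sound p12_12_3_102)) (pfC_sound p12_12_3_103)) (pfC_sound p12_12_3_104)) (pfC_sound p12_12_3_105)) (pfC_sound p12_12_3_106)) (pfC_sound p12_12_3_107)) (pfC_sound p12_12_3_108))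 (pfC_sound p12_12_3_109)) (pfC_sound p12_12_3_110)) (pfC_sound p12_12_3_111)) (pfC_sound p12_12_3_112)) (pfC_sound p12_12_3_113)) (pfC_sound p12_12_3_114)) (pfC_sound p12_12_3_115)) (pfC_sound p12_12_3_116)) (pfC_sound p12_12_3_117)) (pfC_sound p12_12_3_118)) (pfC_sound p12_12_3_119)) (pfC_sound p12_12_3_120)) (pfC_sound p12_12_3_121)) (pfC_sound p12_12_3_122)) (pfC_sound p12_12_3_123)) (pfC_sound p12_12_3_124)) (pfC_sound
 p12_12_3_125)) (pfC_sound p12_12_3_126)) (pfC_sound p12_12_3_127)) (pfC_sound p12_12_3_128)) (pfC_sound p12_12_3_129)) (pfC_sound p12_12_3_130)) (pfC_sound p12_12_3_131)) (pfC_sound p12_12_3_132)) (pfC_sound p12_12_3_133)) (pfC_sound p12_12_3_134)) (pfC_sound p12_12_3_135)) (pfC_sound p12_12_3_136)) (pfC_sound p12_12_3_137)) (pfC_sound p12_12_3_138)) (pfC_sound p12_12_3_139)) (pfC_sound p12_12_3_140)) (pfC_sound p12_12_3_141)) (pfC_sound p12_12_3_142)) (pfC_sound p12_12_3_143)) (pfC_sound p12_12_3_144)) (pfC_sound p12_12_3_145)) (pfC_sound p12_12_3_146))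 (pfC_sound p12_12_3_147)) (pfC_sound p12_12_3_148)) (pfC_sound p12_12_3_149)) (by decide +kernel)

def z12_12_3 : zOK yB12_12 (nat_lit 3) (nat_lit 750) (nat_lit 867) (nat_lit 5395682) (nat_lit 4716051) = true := by decide +kernel
def g12_12_3 : gOK yB12_12.x P12_12 (nat_lit 1418) (q12_12 :: r12_12) (nat_lit 3) (nat_lit 750) (nat_lit 4) (nat_lit 867) (nat_lit 12712500) (nat_lit 12712500) (nat_lit 12712500) (nat_lit 12712500) [(nat_lit 800)] = true := by decide +kernel
def v12_12_3 : ivC P12_12 s12_12 w12_12 n12_12 (nat_lit 4) (nat_lit 4670) (nat_lit 3) (nat_lit 750) f152_1_750 f160_1_750 (nat_lit 4) (nat_lit 867) f152_1_867 f160_1_867 (nat_lit 5395682) (nat_lit 4716051) p12_12_3 = true := by decide +kernel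
/-! box `yB12_13` -/

def P12_13 : BQ := ⟨(nat_lit 8), (nat_lit 8), (nat_lit 0), (nat_lit 4), (nat_lit 4), (nat_lit 800), (nat_lit 820), (nat_lit 120), [(nat_lit 200), (nat_lit 300), (nat_lit 450), (nat_lit 800)], (nat_lit 110048000), (nat_lit 16000000), (nat_lit 16000000000)⟩
def q12_13 : PC := ⟨(nat_lit 1000), [(nat_lit 120000), (nat_lit 200000), (nat_lit 300000), (nat_lit 450000), (nat_lit 800000)], (nat_lit 340282367000166625996085689103316680705000000), (nat_lit 15889952000000), (nat_lit 15889952000000), (nat_lit 10000000)⟩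
def r12_13 : List PC := [⟨(nat_lit 1339), [(nat_lit 120683), (nat_lit 201145), (nat_lit 301475), (nat_lit 451718), (nat_lit 801778)], (nat_lit 342082801004014342128441382706257321620622229), (nat_lit 16352398903680), (nat_lit 16364385780960), (nat_lit 10057250)⟩]
def s12_13 : List PB := [⟨(nat_lit 26780), (nat_lit 1930928000000), [(nat_lit 201145), (nat_lit 301475), (nat_lit 451718), (nat_lit 801778)], (nat_lit 342082801004014342128441382706257321620622229), (nat_lit 1142252305746304), (nat_lit 1142264292623584), (nat_lit 54240)⟩]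
def n12_13 : List KN := [⟨(nat_lit 800), (nat_lit 450), (nat_lit 12765436), (nat_lit 5447273)⟩, ⟨(nat_lit 450), (nat_lit 300), (nat_lit 18971201), (nat_lit 12765436)⟩, ⟨(nat_lit 300), (nat_lit 200), (nat_lit 25510466), (nat_lit 18971201)⟩, ⟨(nat_lit 200), (nat_lit 120), (nat_lit 39120232), (nat_lit 25510466)⟩]
def w12_13 : List ℕ := [(nat_lit 54240)]
def par12_13 : parC yB12_13 P12_13 s12_13 r12_13 q12_13 n12_13 w12_13 = true := by decide +kernel

def p12_13_0 : PF := (PF.cons (PF.cons (PF.cons (PF.cons (PF.leaf (nat_lit 564977) (nat_lit 1606637) (nat_lit 65502175) (nat_lit 1606637) [(nat_lit 0), (nat_lit 0), (nat_lit 0), (nat_lit 0)]) (PF.cons (PF.leaf (nat_lit 699701) (nat_lit 209447) (nat_lit 65236481) (nat_lit 1662884) [(nat_lit 209447), (nat_lit 0), (nat_lit 0), (nat_lit 0)]) (PF.cons (PF.leaf (nat_lit 865458) (nat_lit 233106) (nat_lit 64918090) (nat_lit 1724508) [(nat_lit 233106), (nat_lit 0), (nat_lit 0), (nat_lit 0)]) (PF.cons (PF.leaf (nat_lit 1056712) (nat_lit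 255568) (nat_lit 64553205) (nat_lit 1788900) [(nat_lit 255568), (nat_lit 0), (nat_lit 0), (nat_lit 0)]) (PF.cons (PF.leaf (nat_lit 1271390) (nat_lit 277051) (nat_lit 64146259) (nat_lit 1854347) [(nat_lit 277051), (nat_lit 0), (nat_lit 0), (nat_lit 0)]) (PF.cons (PF.leaf (nat_lit 1507985) (nat_lit 297657) (nat_lit 63700855) (nat_lit 1919669) [(nat_lit 297657), (nat_lit 0), (nat_lit 0), (nat_lit 0)]) (PF.cons (PF.leaf (nat_lit 1764837) (nat_lit 317435) (nat_lit 63220166) (nat_lit 1984031) [(nat_lit 317435), (nat_lit 0), (nat_lit 0), (nat_lit 0)]) (PF.cons (PF.leaf (nat_lit 2040630) (nat_lit 336408) (nat_lit 62707123) (nat_lit 2046831) [(nat_lit 336408), (nat_lit 0), (nat_lit 0),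
 (nat_lit 0)]) (PF.cons (PF.leaf (nat_lit 2333921) (nat_lit 354584) (nat_lit 62164510) (nat_lit 2107627) [(nat_lit 354584), (nat_lit 0), (nat_lit 0), (nat_lit 0)]) (PF.cons (PF.leaf (nat_lit 2643376) (nat_lit 371967) (nat_lit 61595004) (nat_lit 2166101) [(nat_lit 371967), (nat_lit 0), (nat_lit 0), (nat_lit 0)]) (PF.cons PF.nil (PF.cons PF.nil PF.nil)))))))))))) (PF.cons (PF.cons (PF.leaf (nat_lit 1067980) (nat_lit 1042971) (nat_lit 64243338) (nat_lit 1822503) [(nat_lit 0), (nat_lit 1042971), (nat_lit 0), (nat_lit 0)]) (PF.cons (PF.leaf (nat_lit 1258823) (nat_lit 273206) (nat_lit 63867745) (nat_lit 1880060) [(nat_lit 273206), (nat_lit 1087800), (nat_lit 0), (nat_lit 0)]) (PF.cons (PF.leaf (nat_lit 1475422) (nat_lit 294001) (nat_lit 63448233) (nat_lit 1939273) [(nat_lit 294001), (nat_lit 1133303), (nat_lit 0), (nat_lit 0)]) (PF.cons (PF.leaf (nat_lit 1714166) (nat_lit 313849) (nat_lit 62989872) (nat_lit 1998793) [(nat_lit 313849), (nat_lit 1178598), (nat_lit 0), (nat_lit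 0)]) (PF.cons (PF.leaf (nat_lit 1973064) (nat_lit 332836) (nat_lit 62496659) (nat_lit 2057694) [(nat_lit 332836), (nat_lit 1223114), (nat_lit 0), (nat_lit 0)]) (PF.cons (PF.leaf (nat_lit 2250529) (nat_lit 351002)
 (nat_lit 61972015) (nat_lit 2115318) [(nat_lit 351002), (nat_lit 1266465), (nat_lit 0), (nat_lit 0)]) (PF.cons (PF.leaf (nat_lit 2545068) (nat_lit 368370) (nat_lit 61419018) (nat_lit 2171193) [(nat_lit 368370), (nat_lit 1308381), (nat_lit 0), (nat_lit 0)]) (PF.cons (PF.leaf (nat_lit 2855263) (nat_lit 384949) (nat_lit 60840521) (nat_lit 2224973) [(nat_lit 384949), (nat_lit 1348672), (nat_lit 0), (nat_lit 0)]) (PF.cons PF.nil (PF.cons PF.nil PF.nil)))))))))) (PF.cons (PF.cons (PF.leaf (nat_lit 1686354) (nat_lit 1188425) (nat_lit 62713716) (nat_lit 2018244) [(nat_lit 0), (nat_lit 1188425), (nat_lit 0), (nat_lit 0)]) (PF.cons (PF.leaf (nat_lit 1924029) (nat_lit 328540) (nat_lit 62248647) (nat_lit 2072137) [(nat_lit 328540), (nat_lit 1229743), (nat_lit 0), (nat_lit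 0)]) (PF.cons (PF.leaf (nat_lit 2183216) (nat_lit 346875) (nat_lit 61747995) (nat_lit 2125809) [(nat_lit 346875), (nat_lit 1270628), (nat_lit 0), (nat_lit 0)]) (PF.cons (PF.leaf (nat_lit 2461001) (nat_lit 364345) (nat_lit 61216054) (nat_lit 2178512) [(nat_lit 364345), (nat_lit 1310604), (nat_lit 0), (nat_lit 0)]) (PF.cons (PF.leaf (nat_lit 2755660) (nat_lit 380993) (nat_lit 60656414) (nat_lit 2229723) [(nat_lit 380993),
 (nat_lit 1349350), (nat_lit 0), (nat_lit 0)]) (PF.cons (PF.leaf (nat_lit 3065639) (nat_lit 396845) (nat_lit 60072232) (nat_lit 2279066) [(nat_lit 396845), (nat_lit 1386644), (nat_lit 0), (nat_lit 0)]) (PF.cons (PF.leaf (nat_lit 3389500) (nat_lit 411915) (nat_lit 59466379) (nat_lit 2326274) [(nat_lit 411915), (nat_lit 1422333), (nat_lit 0), (nat_lit 0)]) (PF.cons PF.nil (PF.cons PF.nil PF.nil))))))))) (PF.cons (PF.cons (PF.leaf (nat_lit 2396745) (nat_lit 1314817) (nat_lit 60975467) (nat_lit 2188892) [(nat_lit 0), (nat_lit 1314817), (nat_lit 0), (nat_lit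 0)]) (PF.cons (PF.leaf (nat_lit 2672516) (nat_lit 376477) (nat_lit 60440861) (nat_lit 2236852) [(nat_lit 376477), (nat_lit 1351540), (nat_lit 0), (nat_lit 0)]) (PF.cons (PF.leaf (nat_lit 2965999) (nat_lit 392498) (nat_lit 59878451) (nat_lit 2283602) [(nat_lit 392498), (nat_lit 1387253), (nat_lit 0), (nat_lit 0)]) (PF.cons (PF.leaf (nat_lit 3274719) (nat_lit 407698) (nat_lit 59291916) (nat_lit 2328723) [(nat_lit 407698), (nat_lit 1421692), (nat_lit 0), (nat_lit 0)]) (PF.cons (PF.leaf (nat_lit 3597102) (nat_lit 422108) (nat_lit 58684430) (nat_lit 2371918) [(nat_lit 422108), (nat_lit 1454677), (nat_lit 0), (nat_lit 0)]) (PF.cons PF.nil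
 (PF.cons PF.nil PF.nil))))))) (PF.cons (PF.cons (PF.leaf (nat_lit 3177284) (nat_lit 1422326) (nat_lit 59086327) (nat_lit 2333178) [(nat_lit 0), (nat_lit 1422326), (nat_lit 0), (nat_lit 0)]) (PF.cons (PF.leaf (nat_lit 3483001) (nat_lit 417540) (nat_lit 58500924) (nat_lit 2374254) [(nat_lit 417540), (nat_lit 1454023), (nat_lit 0), (nat_lit 0)]) (PF.cons (PF.leaf (nat_lit 3802953) (nat_lit 431358) (nat_lit 57894764) (nat_lit 2413626) [(nat_lit 431358), (nat_lit 1484426), (nat_lit 0), (nat_lit 0)]) (PF.cons (PF.leaf (nat_lit 4135012) (nat_lit 444398) (nat_lit 57270987) (nat_lit 2451063) [(nat_lit 444398), (nat_lit 1513392), (nat_lit 0), (nat_lit 0)]) (PF.cons PF.nil PF.nil))))) (PF.cons (PF.cons (PF.leaf (nat_lit 4007994) (nat_lit 1511752) (nat_lit 57098389) (nat_lit 2451658) [(nat_lit 0), (nat_lit 1511752), (nat_lit 0), (nat_lit 0)]) (PF.cons (PF.leaf (nat_lit 4336195) (nat_lit 452192) (nat_lit 56479054) (nat_lit 2485643) [(nat_lit 452192), (nat_lit 1538384), (nat_lit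 0), (nat_lit 0)]) (PF.cons (PF.leaf (nat_lit 4675504) (nat_lit 463937) (nat_lit 55845148) (nat_lit 2517722) [(nat_lit 463937), (nat_lit 1563613), (nat_lit 0), (nat_lit 0)]) (PF.cons PF.nil PF.nil)))) (PF.cons (PF.cons
 (PF.leaf (nat_lit 4871270) (nat_lit 1584336) (nat_lit 55056874) (nat_lit 2545920) [(nat_lit 0), (nat_lit 1584336), (nat_lit 0), (nat_lit 0)]) (PF.cons PF.nil PF.nil)) (PF.cons PF.nil (PF.cons PF.nil PF.nil))))))))) (PF.cons (PF.cons (PF.cons (PF.leaf (nat_lit 1677263) (nat_lit 2031938) (nat_lit 62031506) (nat_lit 2031938) [(nat_lit 0), (nat_lit 0), (nat_lit 3045367), (nat_lit 0)]) (PF.cons (PF.leaf (nat_lit 1888634) (nat_lit 314499) (nat_lit 61613877) (nat_lit 2080034) [(nat_lit 314499), (nat_lit 0), (nat_lit 3100401), (nat_lit 0)]) (PF.cons (PF.leaf (nat_lit 2124664) (nat_lit 334367) (nat_lit 61153952) (nat_lit 2129158) [(nat_lit 334367), (nat_lit 0), (nat_lit 3156966), (nat_lit 0)]) (PF.cons (PF.leaf (nat_lit 2381451) (nat_lit 352950) (nat_lit 60658050)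 (nat_lit 2178211) [(nat_lit 352950), (nat_lit 0), (nat_lit 3213700), (nat_lit 0)]) (PF.cons (PF.leaf (nat_lit 2656699) (nat_lit 370436) (nat_lit 60130970) (nat_lit 2226446) [(nat_lit 370436), (nat_lit 0), (nat_lit 3269648), (nat_lit 0)]) (PF.cons (PF.leaf (nat_lit 2948587) (nat_lit 386940) (nat_lit 59576646) (nat_lit 2273342) [(nat_lit 386940), (nat_lit 0), (nat_lit 3324119), (nat_lit 0)]) (PF.cons (PF.leaf (nat_lit 3255485)
 (nat_lit 402535) (nat_lit 58998466) (nat_lit 2318530) [(nat_lit 402535), (nat_lit 0), (nat_lit 3376606), (nat_lit 0)]) (PF.cons (PF.leaf (nat_lit 3575892) (nat_lit 417269) (nat_lit 58399443) (nat_lit 2361745) [(nat_lit 417269), (nat_lit 0), (nat_lit 3426739), (nat_lit 0)]) (PF.cons PF.nil (PF.cons PF.nil PF.nil)))))))))) (PF.cons (PF.cons (PF.leaf (nat_lit 2337168) (nat_lit 1307474) (nat_lit 60377918) (nat_lit 2191149) [(nat_lit 0), (nat_lit 1307474), (nat_lit 3232271), (nat_lit 0)]) (PF.cons (PF.leaf (nat_lit 2590559) (nat_lit 364570) (nat_lit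 59882739) (nat_lit 2235471) [(nat_lit 364570), (nat_lit 1342730), (nat_lit 3283300), (nat_lit 0)]) (PF.cons (PF.leaf (nat_lit 2863843) (nat_lit 381536) (nat_lit 59355212) (nat_lit 2279317) [(nat_lit 381536), (nat_lit 1377340), (nat_lit 3333869), (nat_lit 0)]) (PF.cons (PF.leaf (nat_lit 3154014) (nat_lit 397466) (nat_lit 58800179) (nat_lit 2322087) [(nat_lit 397466), (nat_lit 1410930), (nat_lit 3383216), (nat_lit 0)]) (PF.cons (PF.leaf (nat_lit 3459192) (nat_lit 412458) (nat_lit 58221551) (nat_lit 2363367) [(nat_lit 412458), (nat_lit 1443257), (nat_lit 3430800), (nat_lit 0)]) (PF.cons (PF.leaf (nat_lit 3777749) (nat_lit 426579) (nat_lit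
 57622652) (nat_lit 2402868) [(nat_lit 426579), (nat_lit 1474159), (nat_lit 3476235), (nat_lit 0)]) (PF.cons (PF.leaf (nat_lit 4108234) (nat_lit 439875) (nat_lit 57006397) (nat_lit 2440388) [(nat_lit 439875), (nat_lit 1503529), (nat_lit 3519244), (nat_lit 0)]) (PF.cons PF.nil (PF.cons PF.nil PF.nil))))))))) (PF.cons (PF.cons (PF.leaf (nat_lit 3073490) (nat_lit 1412255) (nat_lit 58563451) (nat_lit 2328097) [(nat_lit 0), (nat_lit 1412255), (nat_lit 3392751), (nat_lit 0)]) (PF.cons (PF.leaf (nat_lit 3359871) (nat_lit 406927) (nat_lit 58011751) (nat_lit 2366875) [(nat_lit 406927), (nat_lit 1443063), (nat_lit 3437132), (nat_lit 0)]) (PF.cons (PF.leaf (nat_lit 3662182) (nat_lit 421408) (nat_lit 57435971) (nat_lit 2404408) [(nat_lit 421408), (nat_lit 1472802), (nat_lit 3480010), (nat_lit 0)]) (PF.cons (PF.leaf (nat_lit 3977965) (nat_lit 434989) (nat_lit 56839966) (nat_lit 2440366) [(nat_lit 434989), (nat_lit 1501274), (nat_lit 3520964), (nat_lit 0)]) (PF.cons (PF.leaf (nat_lit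 4305610) (nat_lit 447731) (nat_lit 56226963) (nat_lit 2474526) [(nat_lit 447731), (nat_lit 1528349), (nat_lit 3559698), (nat_lit 0)]) (PF.cons PF.nil (PF.cons PF.nil PF.nil))))))) (PF.cons (PF.cons (PF.leaf (nat_lit
 3865572) (nat_lit 1499997) (nat_lit 56642360) (nat_lit 2441908) [(nat_lit 0), (nat_lit 1499997), (nat_lit 3524551), (nat_lit 0)]) (PF.cons (PF.leaf (nat_lit 4177054) (nat_lit 442514) (nat_lit 56052197) (nat_lit 2474474) [(nat_lit 442514), (nat_lit 1526135), (nat_lit 3561220), (nat_lit 0)]) (PF.cons (PF.leaf (nat_lit 4501038) (nat_lit 454771) (nat_lit 55444890) (nat_lit 2505434) [(nat_lit 454771), (nat_lit 1551018), (nat_lit 3595889), (nat_lit 0)]) (PF.cons (PF.leaf (nat_lit 4835490) (nat_lit 466225) (nat_lit 54823548) (nat_lit 2534616) [(nat_lit 466225), (nat_lit 1574544), (nat_lit 3628337), (nat_lit 0)]) (PF.cons PF.nil PF.nil))))) (PF.cons (PF.cons (PF.leaf (nat_lit 4695442) (nat_lit 1571673) (nat_lit 54660724) (nat_lit 2533316) [(nat_lit 0), (nat_lit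 1571673), (nat_lit 3628079), (nat_lit 0)]) (PF.cons (PF.leaf (nat_lit 5025116) (nat_lit 472027) (nat_lit 54047391) (nat_lit 2559618) [(nat_lit 472027), (nat_lit 1593227), (nat_lit 3656866), (nat_lit 0)]) (PF.cons PF.nil (PF.cons PF.nil PF.nil)))) (PF.cons (PF.cons (PF.leaf (nat_lit 5547782) (nat_lit 1628591) (nat_lit 52656767) (nat_lit 2603921) [(nat_lit 0), (nat_lit 1628591), (nat_lit 3705168), (nat_lit 0)]) (PF.cons PF.nil
 PF.nil)) (PF.cons PF.nil (PF.cons PF.nil PF.nil)))))))) (PF.cons (PF.cons (PF.cons (PF.leaf (nat_lit 2988224) (nat_lit 2323297) (nat_lit 57997207) (nat_lit 2323297) [(nat_lit 0), (nat_lit 0), (nat_lit 3394153), (nat_lit 0)]) (PF.cons (PF.leaf (nat_lit 3252598) (nat_lit 393817) (nat_lit 57486375) (nat_lit 2359507) [(nat_lit 393817), (nat_lit 0), (nat_lit 3434556), (nat_lit 0)]) (PF.cons (PF.leaf (nat_lit 3535348) (nat_lit 409465) (nat_lit 56946379) (nat_lit 2395043) [(nat_lit 409465), (nat_lit 0), (nat_lit 3474229), (nat_lit 0)]) (PF.cons (PF.leaf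 (nat_lit 3833446) (nat_lit 423955) (nat_lit 56382359) (nat_lit 2429431) [(nat_lit 423955), (nat_lit 0), (nat_lit 3512577), (nat_lit 0)]) (PF.cons (PF.leaf (nat_lit 4144898) (nat_lit 437430) (nat_lit 55798365) (nat_lit 2462352) [(nat_lit 437430), (nat_lit 0), (nat_lit 3549186), (nat_lit 0)]) (PF.cons (PF.leaf (nat_lit 4468024) (nat_lit 449988) (nat_lit 55197749) (nat_lit 2493587) [(nat_lit 449988), (nat_lit 0), (nat_lit 3583767), (nat_lit 0)]) (PF.cons PF.nil (PF.cons PF.nil (PF.cons PF.nil PF.nil))))))))) (PF.cons (PF.cons (PF.leaf (nat_lit 3738620) (nat_lit 1487261) (nat_lit 56154018) (nat_lit 2432152) [(nat_lit 0), (nat_lit 1487261),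
 (nat_lit 3517689), (nat_lit 0)]) (PF.cons (PF.leaf (nat_lit 4031561) (nat_lit 431158) (nat_lit 55597786) (nat_lit 2463165) [(nat_lit 431158), (nat_lit 1512956), (nat_lit 3551873), (nat_lit 0)]) (PF.cons (PF.leaf (nat_lit 4338871) (nat_lit 444226) (nat_lit 55020781) (nat_lit 2492926) [(nat_lit 444226), (nat_lit 1537558), (nat_lit 3584546), (nat_lit 0)]) (PF.cons (PF.leaf (nat_lit 4658104) (nat_lit 456343) (nat_lit 54426893) (nat_lit 2521183) [(nat_lit 456343), (nat_lit 1560921), (nat_lit 3615391), (nat_lit 0)]) (PF.cons (PF.leaf (nat_lit 4987684) (nat_lit 467598) (nat_lit 53819305) (nat_lit 2547772) [(nat_lit 467598), (nat_lit 1582956), (nat_lit 3644193), (nat_lit 0)]) (PF.cons PF.nil (PF.cons PF.nil PF.nil))))))) (PF.cons (PF.cons (PF.leaf (nat_lit 4532954) (nat_lit 1558237) (nat_lit 54239688) (nat_lit 2520561) [(nat_lit 0), (nat_lit 1558237), (nat_lit 3616043), (nat_lit 0)]) (PF.cons (PF.leaf (nat_lit 4846919) (nat_lit 461923) (nat_lit 53655018) (nat_lit 2545974)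 [(nat_lit 461923), (nat_lit 1579617), (nat_lit 3643331), (nat_lit 0)]) (PF.cons (PF.leaf (nat_lit 5171942) (nat_lit 472787) (nat_lit 53056226) (nat_lit 2569886) [(nat_lit 472787), (nat_lit 1599796), (nat_lit 3668766),
 (nat_lit 0)]) (PF.cons PF.nil (PF.cons PF.nil PF.nil))))) (PF.cons (PF.cons (PF.leaf (nat_lit 5355146) (nat_lit 1614957) (nat_lit 52294334) (nat_lit 2589500) [(nat_lit 0), (nat_lit 1614957), (nat_lit 3690052), (nat_lit 0)]) (PF.cons (PF.leaf (nat_lit 5683821) (nat_lit 486978) (nat_lit 51694884) (nat_lit 2609394) [(nat_lit 486978), (nat_lit 1632206), (nat_lit 3710467), (nat_lit 0)]) (PF.cons PF.nil (PF.cons PF.nil PF.nil)))) (PF.cons (PF.cons (PF.leaf (nat_lit 6191934) (nat_lit 1658774) (nat_lit 50349875) (nat_lit 2640596) [(nat_lit 0), (nat_lit 1658774), (nat_lit 3741621), (nat_lit 0)]) (PF.cons PF.nil PF.nil)) (PF.cons PF.nil PF.nil)))))) (PF.cons (PF.cons (PF.cons (PF.leaf (nat_lit 4386242) (nat_lit 2507648) (nat_lit 53788114) (nat_lit 2507648) [(nat_lit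 0), (nat_lit 0), (nat_lit 3604350), (nat_lit 0)]) (PF.cons (PF.leaf (nat_lit 4682562) (nat_lit 450150) (nat_lit 53236690) (nat_lit 2532072) [(nat_lit 450150), (nat_lit 0), (nat_lit 3629966), (nat_lit 0)]) (PF.cons (PF.leaf (nat_lit 4991919) (nat_lit 461931) (nat_lit 52667369) (nat_lit 2555266) [(nat_lit 461931), (nat_lit 0), (nat_lit 3654104), (nat_lit 0)]) (PF.cons (PF.leaf (nat_lit 5311867) (nat_lit 472732) (nat_lit 52083979)
 (nat_lit 2577043) [(nat_lit 472732), (nat_lit 0), (nat_lit 3676530), (nat_lit 0)]) (PF.cons (PF.leaf (nat_lit 5640836) (nat_lit 482664) (nat_lit 51489597) (nat_lit 2597285) [(nat_lit 482664), (nat_lit 0), (nat_lit 3697090), (nat_lit 0)]) PF.nil))))) (PF.cons (PF.cons (PF.leaf (nat_lit 5175918) (nat_lit 1600528) (nat_lit 51908452) (nat_lit 2574823) [(nat_lit 0), (nat_lit 1600528), (nat_lit 3675003), (nat_lit 0)]) (PF.cons (PF.leaf (nat_lit 5489906) (nat_lit 476679) (nat_lit 51336590) (nat_lit 2594224) [(nat_lit 476679), (nat_lit 1617841),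 (nat_lit 3694492), (nat_lit 0)]) (PF.cons (PF.leaf (nat_lit 5813719) (nat_lit 486305) (nat_lit 50753101) (nat_lit 2612237) [(nat_lit 486305), (nat_lit 1634018), (nat_lit 3712281), (nat_lit 0)]) (PF.cons PF.nil PF.nil)))) (PF.cons (PF.cons (PF.leaf (nat_lit 5985604) (nat_lit 1644659) (nat_lit 50020047) (nat_lit 2625125) [(nat_lit 0), (nat_lit 1644659), (nat_lit 3724773), (nat_lit 0)]) (PF.cons (PF.leaf (nat_lit 6311460) (nat_lit 497880) (nat_lit 49439826) (nat_lit 2639683) [(nat_lit 497880), (nat_lit 1658268), (nat_lit 3738295), (nat_lit 0)]) PF.nil)) (PF.cons PF.nil (PF.cons PF.nil PF.nil))))) (PF.cons (PF.cons (PF.cons (PF.leaf (nat_lit 5792587)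
 (nat_lit 2609307) (nat_lit 49668183) (nat_lit 2609307) [(nat_lit 0), (nat_lit 0), (nat_lit 3707830), (nat_lit 0)]) (PF.cons (PF.leaf (nat_lit 6104736) (nat_lit 487555) (nat_lit 49114141) (nat_lit 2623673) [(nat_lit 487555), (nat_lit 0), (nat_lit 3720860), (nat_lit 0)]) (PF.cons (PF.leaf (nat_lit 6425686) (nat_lit 496087) (nat_lit 48550506) (nat_lit 2636764) [(nat_lit 496087), (nat_lit 0), (nat_lit 3732341), (nat_lit 0)]) (PF.cons PF.nil PF.nil)))) (PF.cons (PF.cons (PF.leaf (nat_lit 6586468) (nat_lit 1663300) (nat_lit 47850235) (nat_lit 2644196) [(nat_lit 0), (nat_lit 1663300), (nat_lit 3737770), (nat_lit 0)]) (PF.cons (PF.leaf (nat_lit 6908216) (nat_lit 505435) (nat_lit 47292653) (nat_lit 2654326) [(nat_lit 505435), (nat_lit 1673840), (nat_lit 3745639), (nat_lit 0)]) PF.nil)) (PF.cons PF.nil PF.nil))) (PF.cons (PF.cons (PF.cons (PF.leaf (nat_lit 7158217) (nat_lit 2649997) (nat_lit 45791109) (nat_lit 2649997) [(nat_lit 0), (nat_lit 0), (nat_lit 3733541), (nat_lit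 0)]) (PF.cons PF.nil PF.nil)) (PF.cons PF.nil PF.nil)) (PF.cons PF.nil (PF.cons PF.nil PF.nil)))))))) (PF.cons (PF.cons (PF.cons (PF.cons (PF.leaf (nat_lit 2876167) (nat_lit 2238212) (nat_lit 55379835) (nat_lit 2238212)
 [(nat_lit 0), (nat_lit 0), (nat_lit 0), (nat_lit 9490764)]) (PF.cons (PF.leaf (nat_lit 3096591) (nat_lit 352618) (nat_lit 54972556) (nat_lit 2273196) [(nat_lit 352618), (nat_lit 0), (nat_lit 0), (nat_lit 9510441)]) (PF.cons (PF.leaf (nat_lit 3339645) (nat_lit 371309) (nat_lit 54528734) (nat_lit 2308227) [(nat_lit 371309), (nat_lit 0), (nat_lit 0), (nat_lit 9529232)]) (PF.cons (PF.leaf (nat_lit 3601128) (nat_lit 388247) (nat_lit 54055180) (nat_lit 2342538) [(nat_lit 388247), (nat_lit 0), (nat_lit 0), (nat_lit 9546350)]) (PF.cons (PF.leaf (nat_lit 3878504) (nat_lit 403743) (nat_lit 53556972) (nat_lit 2375650) [(nat_lit 403743), (nat_lit 0), (nat_lit 0), (nat_lit 9561215)]) (PF.cons (PF.leaf (nat_lit 4169732) (nat_lit 418003) (nat_lit 53038145) (nat_lit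 2407255) [(nat_lit 418003), (nat_lit 0), (nat_lit 0), (nat_lit 9573394)]) (PF.cons (PF.leaf (nat_lit 4473109) (nat_lit 431172) (nat_lit 52502049) (nat_lit 2437156) [(nat_lit 431172), (nat_lit 0), (nat_lit 0), (nat_lit 9582571)]) (PF.cons (PF.leaf (nat_lit 4787155) (nat_lit 443359) (nat_lit 51951544) (nat_lit 2465232) [(nat_lit 443359), (nat_lit 0), (nat_lit 0), (nat_lit 9588518)]) (PF.cons (PF.leaf (nat_lit 5110557) (nat_lit 454649)
 (nat_lit 51389123) (nat_lit 2491411) [(nat_lit 454649), (nat_lit 0), (nat_lit 0), (nat_lit 9591083)]) (PF.cons PF.nil (PF.cons PF.nil (PF.cons PF.nil PF.nil)))))))))))) (PF.cons (PF.cons (PF.leaf (nat_lit 3536303) (nat_lit 1415087) (nat_lit 53798842) (nat_lit 2347120) [(nat_lit 0), (nat_lit 1415087), (nat_lit 0), (nat_lit 9547762)]) (PF.cons (PF.leaf (nat_lit 3791966) (nat_lit 395947) (nat_lit 53332751) (nat_lit 2377685) [(nat_lit 395947), (nat_lit 1442137), (nat_lit 0), (nat_lit 9560291)]) (PF.cons (PF.leaf (nat_lit 4065030) (nat_lit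 411003) (nat_lit 52840637) (nat_lit 2407384) [(nat_lit 411003), (nat_lit 1468156), (nat_lit 0), (nat_lit 9570627)]) (PF.cons (PF.leaf (nat_lit 4352412) (nat_lit 424784) (nat_lit 52327341) (nat_lit 2435839) [(nat_lit 424784), (nat_lit 1492924), (nat_lit 0), (nat_lit 9578352)]) (PF.cons (PF.leaf (nat_lit 4652205) (nat_lit 437462) (nat_lit 51796660) (nat_lit 2462810) [(nat_lit 437462), (nat_lit 1516326), (nat_lit 0), (nat_lit 9583166)]) (PF.cons (PF.leaf (nat_lit 4962724) (nat_lit 449157) (nat_lit 51251714) (nat_lit 2488145) [(nat_lit 449157), (nat_lit 1538301), (nat_lit 0), (nat_lit 9584863)]) (PF.cons (PF.leaf (nat_lit 5282613) (nat_lit 459962)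
 (nat_lit 50695145) (nat_lit 2511755) [(nat_lit 459962), (nat_lit 1558825), (nat_lit 0), (nat_lit 9583309)]) (PF.cons (PF.leaf (nat_lit 5610606) (nat_lit 469950) (nat_lit 50129236) (nat_lit 2533592) [(nat_lit 469950), (nat_lit 1577900), (nat_lit 0), (nat_lit 9578431)]) (PF.cons PF.nil (PF.cons PF.nil PF.nil)))))))))) (PF.cons (PF.cons (PF.leaf (nat_lit 4253176) (nat_lit 1490418) (nat_lit 52117600) (nat_lit 2436104) [(nat_lit 0), (nat_lit 1490418), (nat_lit 0), (nat_lit 9574271)]) (PF.cons (PF.leaf (nat_lit 4535032) (nat_lit 430664) (nat_lit 51612858) (nat_lit 2461571) [(nat_lit 430664), (nat_lit 1512957), (nat_lit 0), (nat_lit 9577804)]) (PF.cons (PF.leaf (nat_lit 4830330) (nat_lit 442952) (nat_lit 51089949) (nat_lit 2485777) [(nat_lit 442952), (nat_lit 1534325), (nat_lit 0), (nat_lit 9578530)]) (PF.cons (PF.leaf (nat_lit 5136674) (nat_lit 454236) (nat_lit 50552459) (nat_lit 2508535) [(nat_lit 454236), (nat_lit 1554426), (nat_lit 0), (nat_lit 9576256)]) (PF.cons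 (PF.leaf (nat_lit 5452509) (nat_lit 464622) (nat_lit 50003301) (nat_lit 2529732) [(nat_lit 464622), (nat_lit 1573211), (nat_lit 0), (nat_lit 9570865)]) (PF.cons (PF.leaf (nat_lit 5776511) (nat_lit 474193) (nat_lit 49444917)
 (nat_lit 2549304) [(nat_lit 474193), (nat_lit 1590663), (nat_lit 0), (nat_lit 9562295)]) (PF.cons (PF.leaf (nat_lit 6107512) (nat_lit 483013) (nat_lit 48879404) (nat_lit 2567221) [(nat_lit 483013), (nat_lit 1606786), (nat_lit 0), (nat_lit 9550531)]) (PF.cons PF.nil (PF.cons PF.nil PF.nil))))))))) (PF.cons (PF.cons (PF.leaf (nat_lit 5008637) (nat_lit 1550596) (nat_lit 50381897) (nat_lit 2506254) [(nat_lit 0), (nat_lit 1550596), (nat_lit 0), (nat_lit 9568871)]) (PF.cons (PF.leaf (nat_lit 5309525) (nat_lit 458607) (nat_lit 49853935) (nat_lit 2526576) [(nat_lit 458607), (nat_lit 1568923), (nat_lit 0), (nat_lit 9562923)]) (PF.cons (PF.leaf (nat_lit 5620723) (nat_lit 468645) (nat_lit 49313831) (nat_lit 2545501) [(nat_lit 468645), (nat_lit 1586067),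 (nat_lit 0), (nat_lit 9553985)]) (PF.cons (PF.leaf (nat_lit 5940275) (nat_lit 477857) (nat_lit 48764307) (nat_lit 2562944) [(nat_lit 477857), (nat_lit 1601992), (nat_lit 0), (nat_lit 9542009)]) (PF.cons (PF.leaf (nat_lit 6266935) (nat_lit 486317) (nat_lit 48207622) (nat_lit 2578863) [(nat_lit 486317), (nat_lit 1616689), (nat_lit 0), (nat_lit 9526988)]) (PF.cons PF.nil (PF.cons PF.nil PF.nil))))))) (PF.cons (PF.cons (PF.leaf (nat_lit 5788170)
 (nat_lit 1597499) (nat_lit 48626723) (nat_lit 2559207) [(nat_lit 0), (nat_lit 1597499), (nat_lit 0), (nat_lit 9532882)]) (PF.cons (PF.leaf (nat_lit 6102306) (nat_lit 480954) (nat_lit 48087488) (nat_lit 2574647) [(nat_lit 480954), (nat_lit 1611983), (nat_lit 0), (nat_lit 9517790)]) (PF.cons (PF.leaf (nat_lit 6424184) (nat_lit 489105) (nat_lit 47540775) (nat_lit 2588690) [(nat_lit 489105), (nat_lit 1625335), (nat_lit 0), (nat_lit 9499792)]) (PF.cons (PF.leaf (nat_lit 6752224) (nat_lit 496560) (nat_lit 46988672) (nat_lit 2601311)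 [(nat_lit 496560), (nat_lit 1637555), (nat_lit 0), (nat_lit 9478925)]) (PF.cons PF.nil PF.nil))))) (PF.cons (PF.cons (PF.leaf (nat_lit 6580102) (nat_lit 1632807) (nat_lit 46878816) (nat_lit 2596816) [(nat_lit 0), (nat_lit 1632807), (nat_lit 0), (nat_lit 9469143)]) (PF.cons (PF.leaf (nat_lit 6902755) (nat_lit 498575) (nat_lit 46337515) (nat_lit 2607787) [(nat_lit 498575), (nat_lit 1643844), (nat_lit 0), (nat_lit 9445712)]) (PF.cons PF.nil (PF.cons PF.nil PF.nil)))) (PF.cons (PF.cons (PF.leaf (nat_lit 7375115) (nat_lit 1658053) (nat_lit 45158299) (nat_lit 2620972) [(nat_lit 0), (nat_lit 1658053), (nat_lit 0), (nat_lit 9381218)]) (PF.cons PF.nil PF.nil))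
 (PF.cons PF.nil PF.nil)))))))) (PF.cons (PF.cons (PF.cons (PF.leaf (nat_lit 4135023) (nat_lit 2420994) (nat_lit 51634119) (nat_lit 2420994) [(nat_lit 0), (nat_lit 0), (nat_lit 3504590), (nat_lit 9549109)]) (PF.cons (PF.leaf (nat_lit 4396278) (nat_lit 415487) (nat_lit 51168241) (nat_lit 2445479) [(nat_lit 415487), (nat_lit 0), (nat_lit 3528830), (nat_lit 9550773)]) (PF.cons (PF.leaf (nat_lit 4673705) (nat_lit 429301) (nat_lit 50679030) (nat_lit 2469055) [(nat_lit 429301), (nat_lit 0), (nat_lit 3552115), (nat_lit 9550008)]) (PF.cons (PF.leaf (nat_lit 4964177) (nat_lit 441797) (nat_lit 50171332) (nat_lit 2491428) [(nat_lit 441797), (nat_lit 0), (nat_lit 3574089), (nat_lit 9546570)]) (PF.cons (PF.leaf (nat_lit 5265784) (nat_lit 453173) (nat_lit 49648880) (nat_lit 2512417) [(nat_lit 453173), (nat_lit 0), (nat_lit 3594520), (nat_lit 9540300)]) (PF.cons (PF.leaf (nat_lit 5576873) (nat_lit 463571) (nat_lit 49114684) (nat_lit 2531914) [(nat_lit 463571), (nat_lit 0), (nat_lit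 3613258), (nat_lit 9531098)]) (PF.cons (PF.leaf (nat_lit 5896098) (nat_lit 473096) (nat_lit 48571248) (nat_lit 2549858) [(nat_lit 473096), (nat_lit 0), (nat_lit 3630209), (nat_lit 9518920)]) (PF.cons (PF.leaf (nat_lit
 6222279) (nat_lit 481829) (nat_lit 48020701) (nat_lit 2566222) [(nat_lit 481829), (nat_lit 0), (nat_lit 3645325), (nat_lit 9503757)]) (PF.cons PF.nil PF.nil))))))))) (PF.cons (PF.cons (PF.leaf (nat_lit 4854127) (nat_lit 1533556) (nat_lit 49973496) (nat_lit 2489803) [(nat_lit 0), (nat_lit 1533556), (nat_lit 3573371), (nat_lit 9538585)]) (PF.cons (PF.leaf (nat_lit 5138309) (nat_lit 445999) (nat_lit 49476678) (nat_lit 2509697) [(nat_lit 445999), (nat_lit 1552180), (nat_lit 3592470), (nat_lit 9531785)]) (PF.cons (PF.leaf (nat_lit 5434719) (nat_lit 457090) (nat_lit 48964109) (nat_lit 2528394) [(nat_lit 457090), (nat_lit 1569682), (nat_lit 3610206), (nat_lit 9522239)]) (PF.cons (PF.leaf (nat_lit 5741045) (nat_lit 467171) (nat_lit 48439269) (nat_lit 2545756)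 [(nat_lit 467171), (nat_lit 1585998), (nat_lit 3626405), (nat_lit 9509868)]) (PF.cons (PF.leaf (nat_lit 6055741) (nat_lit 476365) (nat_lit 47904941) (nat_lit 2561702) [(nat_lit 476365), (nat_lit 1601102), (nat_lit 3640962), (nat_lit 9494640)]) (PF.cons (PF.leaf (nat_lit 6377532) (nat_lit 484765) (nat_lit 47363420) (nat_lit 2576194) [(nat_lit 484765), (nat_lit 1614993), (nat_lit 3653818), (nat_lit 9476559)]) (PF.cons PF.nil
 PF.nil))))))) (PF.cons (PF.cons (PF.leaf (nat_lit 5603868) (nat_lit 1581448) (nat_lit 48280283) (nat_lit 2542323) [(nat_lit 0), (nat_lit 1581448), (nat_lit 3623291), (nat_lit 9500015)]) (PF.cons (PF.leaf (nat_lit 5904237) (nat_lit 470154) (nat_lit 47766554) (nat_lit 2557669) [(nat_lit 470154), (nat_lit 1596281), (nat_lit 3637104), (nat_lit 9484766)]) (PF.cons (PF.leaf (nat_lit 6213833) (nat_lit 479084) (nat_lit 47242694) (nat_lit 2571738) [(nat_lit 479084), (nat_lit 1610014), (nat_lit 3649417), (nat_lit 9466763)]) (PF.cons (PF.leaf (nat_lit 6530803)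 (nat_lit 487202) (nat_lit 46711279) (nat_lit 2584472) [(nat_lit 487202), (nat_lit 1622631), (nat_lit 3660160), (nat_lit 9446027)]) (PF.cons (PF.leaf (nat_lit 6853939) (nat_lit 494592) (nat_lit 46174419) (nat_lit 2595850) [(nat_lit 494592), (nat_lit 1634135), (nat_lit 3669299), (nat_lit 9422600)]) PF.nil))))) (PF.cons (PF.cons (PF.leaf (nat_lit 6371302) (nat_lit 1617749) (nat_lit 46584306) (nat_lit 2580079) [(nat_lit 0), (nat_lit 1617749), (nat_lit 3655714), (nat_lit 9435463)]) (PF.cons (PF.leaf (nat_lit 6682549) (nat_lit 489147) (nat_lit 46064183) (nat_lit 2591163) [(nat_lit 489147), (nat_lit 1629165), (nat_lit 3664482), (nat_lit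
 9412340)]) (PF.cons (PF.leaf (nat_lit 7000654) (nat_lit 496299) (nat_lit 45538160) (nat_lit 2600997) [(nat_lit 496299), (nat_lit 1639551), (nat_lit 3671764), (nat_lit 9386638)]) (PF.cons PF.nil PF.nil)))) (PF.cons (PF.cons (PF.leaf (nat_lit 7146247) (nat_lit 1643996) (nat_lit 44907685) (nat_lit 2604752) [(nat_lit 0), (nat_lit 1643996), (nat_lit 3672456), (nat_lit 9347930)]) (PF.cons (PF.leaf (nat_lit 7464155) (nat_lit 503843) (nat_lit 44389054) (nat_lit 2611975) [(nat_lit 503843), (nat_lit 1652379), (nat_lit 3676615), (nat_lit 9317805)]) PF.nil)) (PF.cons PF.nil PF.nil)))))) (PF.cons (PF.cons (PF.cons (PF.leaf (nat_lit 5435506) (nat_lit 2524947) (nat_lit 47907260) (nat_lit 2524947) [(nat_lit 0), (nat_lit 0), (nat_lit 3605353), (nat_lit 9465899)]) (PF.cons (PF.leaf (nat_lit 5720083) (nat_lit 457643) (nat_lit 47423055) (nat_lit 2540163) [(nat_lit 457643), (nat_lit 0), (nat_lit 3618665), (nat_lit 9450619)]) (PF.cons (PF.leaf (nat_lit 6015888) (nat_lit 467665) (nat_lit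 46925151) (nat_lit 2554248) [(nat_lit 467665), (nat_lit 0), (nat_lit 3630683), (nat_lit 9432714)]) (PF.cons (PF.leaf (nat_lit 6320587) (nat_lit 476683) (nat_lit 46416889) (nat_lit 2567104) [(nat_lit 476683), (nat_lit
 0), (nat_lit 3641288), (nat_lit 9412192)]) (PF.cons (PF.leaf (nat_lit 6632708) (nat_lit 484830) (nat_lit 45900902) (nat_lit 2578679) [(nat_lit 484830), (nat_lit 0), (nat_lit 3650411), (nat_lit 9389083)]) (PF.cons (PF.leaf (nat_lit 6951019) (nat_lit 492207) (nat_lit 45379335) (nat_lit 2588952) [(nat_lit 492207), (nat_lit 0), (nat_lit 3658021), (nat_lit 9363442)]) (PF.cons PF.nil PF.nil))))))) (PF.cons (PF.cons (PF.leaf (nat_lit 6175781) (nat_lit 1601764) (nat_lit 46269459) (nat_lit 2562855) [(nat_lit 0), (nat_lit 1601764), (nat_lit 3637047), (nat_lit 9400637)]) (PF.cons (PF.leaf (nat_lit 6474194) (nat_lit 478513) (nat_lit 45773273) (nat_lit 2574047) [(nat_lit 478513), (nat_lit 1613635), (nat_lit 3645706), (nat_lit 9377930)]) (PF.cons (PF.leaf (nat_lit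 6780930) (nat_lit 486468) (nat_lit 45268598) (nat_lit 2584072) [(nat_lit 486468), (nat_lit 1624487), (nat_lit 3653001), (nat_lit 9352714)]) (PF.cons (PF.leaf (nat_lit 7094198) (nat_lit 493631) (nat_lit 44757858) (nat_lit 2592899) [(nat_lit 493631), (nat_lit 1634317), (nat_lit 3658892), (nat_lit 9325059)]) (PF.cons PF.nil PF.nil))))) (PF.cons (PF.cons (PF.leaf (nat_lit 6928694) (nat_lit 1629199) (nat_lit 44641099) (nat_lit 2588072)
 [(nat_lit 0), (nat_lit 1629199), (nat_lit 3653823), (nat_lit 9313593)]) (PF.cons (PF.leaf (nat_lit 7236064) (nat_lit 494624) (nat_lit 44142179) (nat_lit 2595544) [(nat_lit 494624), (nat_lit 1638032), (nat_lit 3658115), (nat_lit 9284169)]) (PF.cons (PF.leaf (nat_lit 7549533) (nat_lit 500906) (nat_lit 43638604) (nat_lit 2601897) [(nat_lit 500906), (nat_lit 1645926), (nat_lit 3661087), (nat_lit 9252468)]) (PF.cons PF.nil PF.nil)))) (PF.cons (PF.cons (PF.leaf (nat_lit 7685332) (nat_lit 1647911) (nat_lit 43040467) (nat_lit 2602137) [(nat_lit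 0), (nat_lit 1647911), (nat_lit 3657369), (nat_lit 9207732)]) (PF.cons PF.nil PF.nil)) (PF.cons PF.nil PF.nil))))) (PF.cons (PF.cons (PF.cons (PF.leaf (nat_lit 6724082) (nat_lit 2570858) (nat_lit 44355487) (nat_lit 2570858) [(nat_lit 0), (nat_lit 0), (nat_lit 3634833), (nat_lit 9277965)]) (PF.cons (PF.leaf (nat_lit 7019467) (nat_lit 484227) (nat_lit 43878891) (nat_lit 2578587) [(nat_lit 484227), (nat_lit 0), (nat_lit 3639243), (nat_lit 9249375)]) (PF.cons (PF.leaf (nat_lit 7322403) (nat_lit 491324) (nat_lit 43395144) (nat_lit 2585253) [(nat_lit 491324), (nat_lit 0), (nat_lit 3642416), (nat_lit 9218515)]) (PF.cons (PF.leaf (nat_lit 7631175) (nat_lit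
 497653) (nat_lit 42906516) (nat_lit 2590841) [(nat_lit 497653), (nat_lit 0), (nat_lit 3644334), (nat_lit 9185490)]) (PF.cons PF.nil PF.nil))))) (PF.cons (PF.cons (PF.leaf (nat_lit 7460889) (nat_lit 1633514) (nat_lit 42799412) (nat_lit 2585751) [(nat_lit 0), (nat_lit 1633514), (nat_lit 3638869), (nat_lit 9173527)]) (PF.cons (PF.leaf (nat_lit 7763667) (nat_lit 497862) (nat_lit 42322785) (nat_lit 2590232) [(nat_lit 497862), (nat_lit 1640173), (nat_lit 3639503), (nat_lit 9139247)]) (PF.cons PF.nil (PF.cons PF.nil PF.nil)))) (PF.cons (PF.cons (PF.leaf (nat_lit 8198523) (nat_lit 1645969) (nat_lit 41276606) (nat_lit 2591139) [(nat_lit 0), (nat_lit 1645969), (nat_lit 3631760), (nat_lit 9053845)]) (PF.cons PF.nil PF.nil)) PF.nil))) (PF.cons (PF.cons (PF.cons (PF.leaf (nat_lit 7968790) (nat_lit 2575207) (nat_lit 41058727) (nat_lit 2575207) [(nat_lit 0), (nat_lit 0), (nat_lit 3613640), (nat_lit 9020317)]) (PF.cons (PF.leaf (nat_lit 8266482) (nat_lit 499260) (nat_lit 40604758)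 (nat_lit 2577219) [(nat_lit 499260), (nat_lit 0), (nat_lit 3611298), (nat_lit 8982379)]) (PF.cons PF.nil PF.nil))) (PF.cons (PF.cons (PF.leaf (nat_lit 8687164) (nat_lit 1639332) (nat_lit 39613552) (nat_lit 2573522)
 [(nat_lit 0), (nat_lit 1639332), (nat_lit 3597976), (nat_lit 8890497)]) PF.nil) PF.nil)) (PF.cons PF.nil (PF.cons PF.nil (PF.cons PF.nil PF.nil)))))))) (PF.cons (PF.cons (PF.cons (PF.cons (PF.leaf (nat_lit 5122597) (nat_lit 2433048) (nat_lit 46169258) (nat_lit 2433048) [(nat_lit 0), (nat_lit 0), (nat_lit 0), (nat_lit 9253253)]) (PF.cons (PF.leaf (nat_lit 5376326) (nat_lit 422487) (nat_lit 45758317) (nat_lit 2449849) [(nat_lit 422487), (nat_lit 0), (nat_lit 0), (nat_lit 9239079)]) (PF.cons (PF.leaf (nat_lit 5644527) (nat_lit 434834) (nat_lit 45328407) (nat_lit 2465663) [(nat_lit 434834), (nat_lit 0), (nat_lit 0), (nat_lit 9222537)]) (PF.cons (PF.leaf (nat_lit 5924150) (nat_lit 445798) (nat_lit 44883845) (nat_lit 2480312) [(nat_lit 445798), (nat_lit 0),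 (nat_lit 0), (nat_lit 9203629)]) (PF.cons (PF.leaf (nat_lit 6213302) (nat_lit 455611) (nat_lit 44427913) (nat_lit 2493702) [(nat_lit 455611), (nat_lit 0), (nat_lit 0), (nat_lit 9182375)]) (PF.cons (PF.leaf (nat_lit 6510455) (nat_lit 464438) (nat_lit 43963213) (nat_lit 2505786) [(nat_lit 464438), (nat_lit 0), (nat_lit 0), (nat_lit 9158810)]) (PF.cons (PF.leaf (nat_lit 6814341) (nat_lit 472402) (nat_lit 43491872) (nat_lit 2516551)
 [(nat_lit 472402), (nat_lit 0), (nat_lit 0), (nat_lit 9132985)]) (PF.cons (PF.leaf (nat_lit 7123887) (nat_lit 479602) (nat_lit 43015667) (nat_lit 2526007) [(nat_lit 479602), (nat_lit 0), (nat_lit 0), (nat_lit 9104961)]) (PF.cons PF.nil PF.nil))))))))) (PF.cons (PF.cons (PF.leaf (nat_lit 5805261) (nat_lit 1534391) (nat_lit 44716181) (nat_lit 2476365) [(nat_lit 0), (nat_lit 1534391), (nat_lit 0), (nat_lit 9190937)]) (PF.cons (PF.leaf (nat_lit 6078106) (nat_lit 448050) (nat_lit 44282891) (nat_lit 2489170) [(nat_lit 448050), (nat_lit 1548264),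 (nat_lit 0), (nat_lit 9170217)]) (PF.cons (PF.leaf (nat_lit 6361693) (nat_lit 457674) (nat_lit 43837194) (nat_lit 2500870) [(nat_lit 457674), (nat_lit 1561048), (nat_lit 0), (nat_lit 9147174)]) (PF.cons (PF.leaf (nat_lit 6653778) (nat_lit 466281) (nat_lit 43382104) (nat_lit 2511397) [(nat_lit 466281), (nat_lit 1572730), (nat_lit 0), (nat_lit 9121868)]) (PF.cons (PF.leaf (nat_lit 6952931) (nat_lit 474011) (nat_lit 42919994) (nat_lit 2520720) [(nat_lit 474011), (nat_lit 1583319), (nat_lit 0), (nat_lit 9094366)]) (PF.cons (PF.leaf (nat_lit 7257969) (nat_lit 480970) (nat_lit 42452791) (nat_lit 2528835) [(nat_lit 480970), (nat_lit 1592842), (nat_lit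
 0), (nat_lit 9064745)]) (PF.cons PF.nil PF.nil))))))) (PF.cons (PF.cons (PF.leaf (nat_lit 6510561) (nat_lit 1567283) (nat_lit 43248948) (nat_lit 2506583) [(nat_lit 0), (nat_lit 1567283), (nat_lit 0), (nat_lit 9109357)]) (PF.cons (PF.leaf (nat_lit 6796515) (nat_lit 467622) (nat_lit 42804764) (nat_lit 2515654) [(nat_lit 467622), (nat_lit 1577838), (nat_lit 0), (nat_lit 9082547)]) (PF.cons (PF.leaf (nat_lit 7090453) (nat_lit 475180) (nat_lit 42352857) (nat_lit 2523631) [(nat_lit 475180), (nat_lit 1587397), (nat_lit 0), (nat_lit 9053583)]) (PF.cons (PF.leaf (nat_lit 7390619) (nat_lit 481949) (nat_lit 41895401) (nat_lit 2530498) [(nat_lit 481949), (nat_lit 1595973), (nat_lit 0), (nat_lit 9022558)]) (PF.cons (PF.leaf (nat_lit 7695932) (nat_lit 488023) (nat_lit 41434150) (nat_lit 2536259) [(nat_lit 488023), (nat_lit 1603589), (nat_lit 0), (nat_lit 8989565)]) PF.nil))))) (PF.cons (PF.cons (PF.leaf (nat_lit 7227783) (nat_lit 1590631) (nat_lit 41790106) (nat_lit 2525365)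 [(nat_lit 0), (nat_lit 1590631), (nat_lit 0), (nat_lit 9010723)]) (PF.cons (PF.leaf (nat_lit 7522265) (nat_lit 482538) (nat_lit 41343246) (nat_lit 2531069) [(nat_lit 482538), (nat_lit 1598319), (nat_lit 0), (nat_lit
 8978499)]) (PF.cons (PF.leaf (nat_lit 7822642) (nat_lit 488458) (nat_lit 40892080) (nat_lit 2535748) [(nat_lit 488458), (nat_lit 1605117), (nat_lit 0), (nat_lit 8944357)]) (PF.cons PF.nil PF.nil)))) (PF.cons (PF.cons (PF.leaf (nat_lit 7948791) (nat_lit 1605962) (nat_lit 40355591) (nat_lit 2534288) [(nat_lit 0), (nat_lit 1605962), (nat_lit 0), (nat_lit 8897542)]) (PF.cons (PF.leaf (nat_lit 8248295) (nat_lit 493711) (nat_lit 39912000) (nat_lit 2537019) [(nat_lit 493711), (nat_lit 1611183), (nat_lit 0), (nat_lit 8860674)]) PF.nil)) (PF.cons PF.nil PF.nil)))))) (PF.cons (PF.cons (PF.cons (PF.leaf (nat_lit 6330408) (nat_lit 2487815) (nat_lit 42943651) (nat_lit 2487815) [(nat_lit 0), (nat_lit 0), (nat_lit 3533309), (nat_lit 9072018)]) (PF.cons (PF.leaf (nat_lit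 6602171) (nat_lit 455084) (nat_lit 42524767) (nat_lit 2497221) [(nat_lit 455084), (nat_lit 0), (nat_lit 3539201), (nat_lit 9046269)]) (PF.cons (PF.leaf (nat_lit 6883869) (nat_lit 463812) (nat_lit 42094971) (nat_lit 2505602) [(nat_lit 463812), (nat_lit 0), (nat_lit 3543962), (nat_lit 9018325)]) (PF.cons (PF.leaf (nat_lit 7173294) (nat_lit 471546) (nat_lit 41657124) (nat_lit 2512915) [(nat_lit 471546), (nat_lit 0), (nat_lit
 3547540), (nat_lit 8988296)]) (PF.cons (PF.leaf (nat_lit 7469059) (nat_lit 478431) (nat_lit 41213455) (nat_lit 2519146) [(nat_lit 478431), (nat_lit 0), (nat_lit 3549916), (nat_lit 8956284)]) (PF.cons (PF.leaf (nat_lit 7770025) (nat_lit 484577) (nat_lit 40765753) (nat_lit 2524301) [(nat_lit 484577), (nat_lit 0), (nat_lit 3551090), (nat_lit 8922389)]) (PF.cons PF.nil PF.nil))))))) (PF.cons (PF.cons (PF.leaf (nat_lit 7024601) (nat_lit 1574537) (nat_lit 41534171) (nat_lit 2507727) [(nat_lit 0), (nat_lit 1574537), (nat_lit 3542053), (nat_lit 8975161)])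 (PF.cons (PF.leaf (nat_lit 7307736) (nat_lit 472055) (nat_lit 41107558) (nat_lit 2513849) [(nat_lit 472055), (nat_lit 1582879), (nat_lit 3544317), (nat_lit 8944076)]) (PF.cons (PF.leaf (nat_lit 7598175) (nat_lit 478826) (nat_lit 40674351) (nat_lit 2518979) [(nat_lit 478826), (nat_lit 1590306), (nat_lit 3545462), (nat_lit 8911029)]) (PF.cons (PF.leaf (nat_lit 7894213) (nat_lit 484837) (nat_lit 40236586) (nat_lit 2523112) [(nat_lit 484837), (nat_lit 1596839), (nat_lit 3545485), (nat_lit 8876138)]) (PF.cons PF.nil PF.nil))))) (PF.cons (PF.cons (PF.leaf (nat_lit 7727298) (nat_lit 1591467) (nat_lit 40139982) (nat_lit 2517845) [(nat_lit 0),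
 (nat_lit 1591467), (nat_lit 3539816), (nat_lit 8864116)]) (PF.cons (PF.leaf (nat_lit 8017600) (nat_lit 484754) (nat_lit 39712884) (nat_lit 2521029) [(nat_lit 484754), (nat_lit 1597266), (nat_lit 3538780), (nat_lit 8828414)]) (PF.cons (PF.leaf (nat_lit 8313212) (nat_lit 489993) (nat_lit 39282292) (nat_lit 2523298) [(nat_lit 489993), (nat_lit 1602256), (nat_lit 3536701), (nat_lit 8791010)]) (PF.cons PF.nil PF.nil)))) (PF.cons (PF.cons (PF.leaf (nat_lit 8431290) (nat_lit 1601444) (nat_lit 38774356) (nat_lit 2519557) [(nat_lit 0), (nat_lit 1601444), (nat_lit 3528052), (nat_lit 8741256)]) (PF.cons PF.nil PF.nil)) (PF.cons PF.nil PF.nil))))) (PF.cons (PF.cons (PF.cons (PF.leaf (nat_lit 7518102) (nat_lit 2500757) (nat_lit 39907972) (nat_lit 2500757) [(nat_lit 0), (nat_lit 0), (nat_lit 3520820), (nat_lit 8829221)]) (PF.cons (PF.leaf (nat_lit 7797767) (nat_lit 474632) (nat_lit 39499626) (nat_lit 2504427) [(nat_lit 474632), (nat_lit 0), (nat_lit 3520211), (nat_lit 8794851)])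 (PF.cons (PF.leaf (nat_lit 8084169) (nat_lit 480714) (nat_lit 39085613) (nat_lit 2507194) [(nat_lit 480714), (nat_lit 0), (nat_lit 3518588), (nat_lit 8758699)]) (PF.cons (PF.leaf (nat_lit 8375626) (nat_lit 486062)
 (nat_lit 38667836) (nat_lit 2509067) [(nat_lit 486062), (nat_lit 0), (nat_lit 3515959), (nat_lit 8720900)]) (PF.cons PF.nil PF.nil))))) (PF.cons (PF.cons (PF.leaf (nat_lit 8205530) (nat_lit 1587582) (nat_lit 38579288) (nat_lit 2503758) [(nat_lit 0), (nat_lit 1587582), (nat_lit 3510187), (nat_lit 8708903)]) (PF.cons (PF.leaf (nat_lit 8491250) (nat_lit 485428) (nat_lit 38172062) (nat_lit 2504861) [(nat_lit 485428), (nat_lit 1591792), (nat_lit 3506719), (nat_lit 8670614)]) (PF.cons PF.nil (PF.cons PF.nil PF.nil)))) (PF.cons (PF.cons (PF.leaf (nat_lit 8892334) (nat_lit 1593115) (nat_lit 37281773) (nat_lit 2499585) [(nat_lit 0), (nat_lit 1593115), (nat_lit 3491518), (nat_lit 8579092)]) (PF.cons PF.nil PF.nil)) PF.nil))) (PF.cons (PF.cons (PF.cons (PF.leaf (nat_lit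 8663440) (nat_lit 2484478) (nat_lit 37105196) (nat_lit 2484478) [(nat_lit 0), (nat_lit 0), (nat_lit 3474360), (nat_lit 8548028)]) (PF.cons (PF.leaf (nat_lit 8944299) (nat_lit 484835) (nat_lit 36717586) (nat_lit 2483862) [(nat_lit 484835), (nat_lit 0), (nat_lit 3468918), (nat_lit 8507885)]) PF.nil)) (PF.cons PF.nil PF.nil)) (PF.cons PF.nil (PF.cons PF.nil PF.nil)))))) (PF.cons (PF.cons (PF.cons (PF.cons (PF.leaf (nat_lit
 7107343) (nat_lit 2423057) (nat_lit 38769558) (nat_lit 2423057) [(nat_lit 0), (nat_lit 0), (nat_lit 0), (nat_lit 8638732)]) (PF.cons (PF.leaf (nat_lit 7366515) (nat_lit 447074) (nat_lit 38408309) (nat_lit 2428722) [(nat_lit 447074), (nat_lit 0), (nat_lit 0), (nat_lit 8608235)]) (PF.cons (PF.leaf (nat_lit 7634680) (nat_lit 454820) (nat_lit 38038096) (nat_lit 2433464) [(nat_lit 454820), (nat_lit 0), (nat_lit 0), (nat_lit 8575869)]) (PF.cons (PF.leaf (nat_lit 7909709) (nat_lit 461597) (nat_lit 37661359) (nat_lit 2437271) [(nat_lit 461597), (nat_lit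 0), (nat_lit 0), (nat_lit 8541796)]) (PF.cons (PF.leaf (nat_lit 8190300) (nat_lit 467558) (nat_lit 37279982) (nat_lit 2440150) [(nat_lit 467558), (nat_lit 0), (nat_lit 0), (nat_lit 8506148)]) (PF.cons PF.nil (PF.cons PF.nil PF.nil))))))) (PF.cons (PF.cons (PF.leaf (nat_lit 7760122) (nat_lit 1532927) (nat_lit 37558643) (nat_lit 2431732) [(nat_lit 0), (nat_lit 1532927), (nat_lit 0), (nat_lit 8528503)]) (PF.cons (PF.leaf (nat_lit 8029008) (nat_lit 461271) (nat_lit 37191879) (nat_lit 2434668) [(nat_lit 461271), (nat_lit 1538920), (nat_lit 0), (nat_lit 8494024)]) (PF.cons (PF.leaf (nat_lit 8304459) (nat_lit 467175) (nat_lit 36819750) (nat_lit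
 2436747) [(nat_lit 467175), (nat_lit 1544089), (nat_lit 0), (nat_lit 8457957)]) (PF.cons (PF.leaf (nat_lit 8584843) (nat_lit 472353) (nat_lit 36443972) (nat_lit 2437984) [(nat_lit 472353), (nat_lit 1548466), (nat_lit 0), (nat_lit 8420443)]) (PF.cons PF.nil PF.nil))))) (PF.cons (PF.cons (PF.leaf (nat_lit 8418989) (nat_lit 1543105) (nat_lit 36363700) (nat_lit 2432655) [(nat_lit 0), (nat_lit 1543105), (nat_lit 0), (nat_lit 8408748)]) (PF.cons (PF.leaf (nat_lit 8693867) (nat_lit 471608) (nat_lit 35997226) (nat_lit 2433213) [(nat_lit 471608), (nat_lit 1546931), (nat_lit 0), (nat_lit 8370966)]) (PF.cons PF.nil (PF.cons PF.nil PF.nil)))) (PF.cons (PF.cons (PF.leaf (nat_lit 9077909) (nat_lit 1547603) (nat_lit 35194779) (nat_lit 2427060) [(nat_lit 0), (nat_lit 1547603), (nat_lit 0), (nat_lit 8281387)]) (PF.cons PF.nil PF.nil)) (PF.cons PF.nil PF.nil))))) (PF.cons (PF.cons (PF.cons (PF.leaf (nat_lit 8209353) (nat_lit 2416377) (nat_lit 36174036) (nat_lit 2416377) [(nat_lit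 0), (nat_lit 0), (nat_lit 3389705), (nat_lit 8376231)]) (PF.cons (PF.leaf (nat_lit 8474697) (nat_lit 461917) (nat_lit 35823287) (nat_lit 2417528) [(nat_lit 461917), (nat_lit 0), (nat_lit 3386175), (nat_lit 8339968)])
 (PF.cons (PF.leaf (nat_lit 8746152) (nat_lit 467253) (nat_lit 35467847) (nat_lit 2417899) [(nat_lit 467253), (nat_lit 0), (nat_lit 3381793), (nat_lit 8302255)]) (PF.cons PF.nil PF.nil)))) (PF.cons (PF.cons (PF.leaf (nat_lit 8854141) (nat_lit 1534560) (nat_lit 35035663) (nat_lit 2412263) [(nat_lit 0), (nat_lit 1534560), (nat_lit 3370868), (nat_lit 8251819)]) (PF.cons (PF.leaf (nat_lit 9124638) (nat_lit 470747) (nat_lit 34686221) (nat_lit 2411329) [(nat_lit 470747), (nat_lit 1537189), (nat_lit 3365103), (nat_lit 8212740)]) PF.nil)) (PF.cons PF.nil PF.nil))) (PF.cons (PF.cons (PF.cons (PF.leaf (nat_lit 9272134) (nat_lit 2388539) (nat_lit 33780121) (nat_lit 2388539) [(nat_lit 0), (nat_lit 0), (nat_lit 3330188), (nat_lit 8093258)]) (PF.cons PF.nil PF.nil))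 (PF.cons PF.nil PF.nil)) (PF.cons PF.nil (PF.cons PF.nil PF.nil))))) (PF.cons (PF.cons (PF.cons (PF.cons (PF.leaf (nat_lit 8822120) (nat_lit 2327025) (nat_lit 33018334) (nat_lit 2327025) [(nat_lit 0), (nat_lit 0), (nat_lit 0), (nat_lit 7940863)]) (PF.cons (PF.leaf (nat_lit 9074495) (nat_lit 447824) (nat_lit 32715421) (nat_lit 2326598) [(nat_lit 447824), (nat_lit 0), (nat_lit 0), (nat_lit 7904742)]) (PF.cons (PF.leaf (nat_lit 9332532)
 (nat_lit 452592) (nat_lit 32408507) (nat_lit 2325488) [(nat_lit 452592), (nat_lit 0), (nat_lit 0), (nat_lit 7867407)]) (PF.cons PF.nil PF.nil)))) (PF.cons (PF.cons (PF.leaf (nat_lit 9429887) (nat_lit 1479317) (nat_lit 32037197) (nat_lit 2318671) [(nat_lit 0), (nat_lit 1479317), (nat_lit 0), (nat_lit 7818406)]) (PF.cons PF.nil PF.nil)) (PF.cons PF.nil PF.nil))) (PF.cons (PF.cons (PF.cons (PF.leaf (nat_lit 9815364) (nat_lit 2292961) (nat_lit 30959905) (nat_lit 2292961) [(nat_lit 0), (nat_lit 0), (nat_lit 3188448), (nat_lit 7666874)])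 (PF.cons PF.nil PF.nil)) (PF.cons PF.nil PF.nil)) (PF.cons PF.nil PF.nil))) (PF.cons (PF.cons (PF.cons (PF.cons (PF.leaf (nat_lit 10307459) (nat_lit 2200566) (nat_lit 28546610) (nat_lit 2200566) [(nat_lit 0), (nat_lit 0), (nat_lit 0), (nat_lit 7272327)]) (PF.cons PF.nil PF.nil)) (PF.cons PF.nil PF.nil)) (PF.cons PF.nil PF.nil)) (PF.cons PF.nil (PF.cons PF.nil (PF.cons PF.nil PF.nil)))))))))

def p12_13_0_0 : pfC (piC [(nat_lit 39120232), (nat_lit 25510466), (nat_lit 18971201), (nat_lit 12765436)] (nat_lit 26172960)) p12_13_0 (nat_lit 4) (nat_lit 0) (nat_lit 1) = true := by decide +kernel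
def p12_13_0_1 : pfC (piC [(nat_lit 39120232), (nat_lit 25510466), (nat_lit 18971201), (nat_lit 12765436)] (nat_lit 26172960)) p12_13_0 (nat_lit 4) (nat_lit 1) (nat_lit 2) = true := by decide +kernel
def p12_13_0_2 : pfC (piC [(nat_lit 39120232), (nat_lit 25510466), (nat_lit 18971201), (nat_lit 12765436)] (nat_lit 26172960)) p12_13_0 (nat_lit 4) (nat_lit 2) (nat_lit 3) = true := by decide +kernel
def p12_13_0_3 : pfC (piC [(nat_lit 39120232), (nat_lit 25510466), (nat_lit 18971201), (nat_lit 12765436)] (nat_lit 26172960)) p12_13_0 (nat_lit 4) (nat_lit 3) (nat_lit 4) = true := by decide +kernel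
def p12_13_0_4 : pfC (piC [(nat_lit 39120232), (nat_lit 25510466), (nat_lit 18971201), (nat_lit 12765436)] (nat_lit 26172960)) p12_13_0 (nat_lit 4) (nat_lit 4) (nat_lit 5) = true := by decide +kernel
def p12_13_0_5 : pfC (piC [(nat_lit 39120232), (nat_lit 25510466), (nat_lit 18971201), (nat_lit 12765436)] (nat_lit 26172960)) p12_13_0 (nat_lit 4) (nat_lit 5) (nat_lit 6) = true := by decide +kernel
def p12_13_0_6 : pfC (piC [(nat_lit 39120232), (nat_lit 25510466), (nat_lit 18971201), (nat_lit 12765436)] (nat_lit 26172960)) p12_13_0 (nat_lit 4) (nat_lit 6) (nat_lit 7) = true := by decide +kernel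
def p12_13_0_7 : pfC (piC [(nat_lit 39120232), (nat_lit 25510466), (nat_lit 18971201), (nat_lit 12765436)] (nat_lit 26172960)) p12_13_0 (nat_lit 4) (nat_lit 7) (nat_lit 8) = true := by decide +kernel
def p12_13_0_8 : pfC (piC [(nat_lit 39120232), (nat_lit 25510466), (nat_lit 18971201), (nat_lit 12765436)] (nat_lit 26172960)) p12_13_0 (nat_lit 4) (nat_lit 8) (nat_lit 9) = true := by decide +kernel
def p12_13_0_9 : pfC (piC [(nat_lit 39120232), (nat_lit 25510466), (nat_lit 18971201), (nat_lit 12765436)] (nat_lit 26172960)) p12_13_0 (nat_lit 4) (nat_lit 9) (nat_lit 10) = true := by decide +kernel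
def p12_13_0_10 : pfC (piC [(nat_lit 39120232), (nat_lit 25510466), (nat_lit 18971201), (nat_lit 12765436)] (nat_lit 26172960)) p12_13_0 (nat_lit 4) (nat_lit 10) (nat_lit 11) = true := by decide +kernel
def p12_13_0_11 : pfC (piC [(nat_lit 39120232), (nat_lit 25510466), (nat_lit 18971201), (nat_lit 12765436)] (nat_lit 26172960)) p12_13_0 (nat_lit 4) (nat_lit 11) (nat_lit 12) = true := by decide +kernel
def p12_13_0_12 : pfC (piC [(nat_lit 39120232), (nat_lit 25510466), (nat_lit 18971201), (nat_lit 12765436)] (nat_lit 26172960)) p12_13_0 (nat_lit 4) (nat_lit 12) (nat_lit 13) = true := by decide +kernel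
def p12_13_0_13 : pfC (piC [(nat_lit 39120232), (nat_lit 25510466), (nat_lit 18971201), (nat_lit 12765436)] (nat_lit 26172960)) p12_13_0 (nat_lit 4) (nat_lit 13) (nat_lit 14) = true := by decide +kernel
def p12_13_0_14 : pfC (piC [(nat_lit 39120232), (nat_lit 25510466), (nat_lit 18971201), (nat_lit 12765436)] (nat_lit 26172960)) p12_13_0 (nat_lit 4) (nat_lit 14) (nat_lit 15) = true := by decide +kernel
def p12_13_0_15 : pfC (piC [(nat_lit 39120232), (nat_lit 25510466), (nat_lit 18971201), (nat_lit 12765436)] (nat_lit 26172960)) p12_13_0 (nat_lit 4) (nat_lit 15) (nat_lit 16) = true := by decide +kernel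
def p12_13_0_16 : pfC (piC [(nat_lit 39120232), (nat_lit 25510466), (nat_lit 18971201), (nat_lit 12765436)] (nat_lit 26172960)) p12_13_0 (nat_lit 4) (nat_lit 16) (nat_lit 17) = true := by decide +kernel
def p12_13_0_17 : pfC (piC [(nat_lit 39120232), (nat_lit 25510466), (nat_lit 18971201), (nat_lit 12765436)] (nat_lit 26172960)) p12_13_0 (nat_lit 4) (nat_lit 17) (nat_lit 18) = true := by decide +kernel
def p12_13_0_18 : pfC (piC [(nat_lit 39120232), (nat_lit 25510466), (nat_lit 18971201), (nat_lit 12765436)] (nat_lit 26172960)) p12_13_0 (nat_lit 4) (nat_lit 18) (nat_lit 19) = true := by decide +kernel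
def p12_13_0_19 : pfC (piC [(nat_lit 39120232), (nat_lit 25510466), (nat_lit 18971201), (nat_lit 12765436)] (nat_lit 26172960)) p12_13_0 (nat_lit 4) (nat_lit 19) (nat_lit 20) = true := by decide +kernel
def p12_13_0_20 : pfC (piC [(nat_lit 39120232), (nat_lit 25510466), (nat_lit 18971201), (nat_lit 12765436)] (nat_lit 26172960)) p12_13_0 (nat_lit 4) (nat_lit 20) (nat_lit 21) = true := by decide +kernel
def p12_13_0_21 : pfC (piC [(nat_lit 39120232), (nat_lit 25510466), (nat_lit 18971201), (nat_lit 12765436)] (nat_lit 26172960)) p12_13_0 (nat_lit 4) (nat_lit 21) (nat_lit 22) = true := by decide +kernel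
def p12_13_0_22 : pfC (piC [(nat_lit 39120232), (nat_lit 25510466), (nat_lit 18971201), (nat_lit 12765436)] (nat_lit 26172960)) p12_13_0 (nat_lit 4) (nat_lit 22) (nat_lit 23) = true := by decide +kernel
def p12_13_0_23 : pfC (piC [(nat_lit 39120232), (nat_lit 25510466), (nat_lit 18971201), (nat_lit 12765436)] (nat_lit 26172960)) p12_13_0 (nat_lit 4) (nat_lit 23) (nat_lit 24) = true := by decide +kernel
def p12_13_0_24 : pfC (piC [(nat_lit 39120232), (nat_lit 25510466), (nat_lit 18971201), (nat_lit 12765436)] (nat_lit 26172960)) p12_13_0 (nat_lit 4) (nat_lit 24) (nat_lit 25) = true := by decide +kernel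
def p12_13_0_25 : pfC (piC [(nat_lit 39120232), (nat_lit 25510466), (nat_lit 18971201), (nat_lit 12765436)] (nat_lit 26172960)) p12_13_0 (nat_lit 4) (nat_lit 25) (nat_lit 26) = true := by decide +kernel
def p12_13_0_26 : pfC (piC [(nat_lit 39120232), (nat_lit 25510466), (nat_lit 18971201), (nat_lit 12765436)] (nat_lit 26172960)) p12_13_0 (nat_lit 4) (nat_lit 26) (nat_lit 27) = true := by decide +kernel
def p12_13_0_27 : pfC (piC [(nat_lit 39120232), (nat_lit 25510466), (nat_lit 18971201), (nat_lit 12765436)] (nat_lit 26172960)) p12_13_0 (nat_lit 4) (nat_lit 27) (nat_lit 28) = true := by decide +kernel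
def p12_13_0_28 : pfC (piC [(nat_lit 39120232), (nat_lit 25510466), (nat_lit 18971201), (nat_lit 12765436)] (nat_lit 26172960)) p12_13_0 (nat_lit 4) (nat_lit 28) (nat_lit 29) = true := by decide +kernel
def p12_13_0_29 : pfC (piC [(nat_lit 39120232), (nat_lit 25510466), (nat_lit 18971201), (nat_lit 12765436)] (nat_lit 26172960)) p12_13_0 (nat_lit 4) (nat_lit 29) (nat_lit 30) = true := by decide +kernel
def p12_13_0_30 : pfC (piC [(nat_lit 39120232), (nat_lit 25510466), (nat_lit 18971201), (nat_lit 12765436)] (nat_lit 26172960)) p12_13_0 (nat_lit 4) (nat_lit 30) (nat_lit 31) = true := by decide +kernel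
def p12_13_0_31 : pfC (piC [(nat_lit 39120232), (nat_lit 25510466), (nat_lit 18971201), (nat_lit 12765436)] (nat_lit 26172960)) p12_13_0 (nat_lit 4) (nat_lit 31) (nat_lit 32) = true := by decide +kernel
def p12_13_0_32 : pfC (piC [(nat_lit 39120232), (nat_lit 25510466), (nat_lit 18971201), (nat_lit 12765436)] (nat_lit 26172960)) p12_13_0 (nat_lit 4) (nat_lit 32) (nat_lit 33) = true := by decide +kernel
def p12_13_0_33 : pfC (piC [(nat_lit 39120232), (nat_lit 25510466), (nat_lit 18971201), (nat_lit 12765436)] (nat_lit 26172960)) p12_13_0 (nat_lit 4) (nat_lit 33) (nat_lit 34) = true := by decide +kernel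
def p12_13_0_34 : pfC (piC [(nat_lit 39120232), (nat_lit 25510466), (nat_lit 18971201), (nat_lit 12765436)] (nat_lit 26172960)) p12_13_0 (nat_lit 4) (nat_lit 34) (nat_lit 35) = true := by decide +kernel
def p12_13_0_35 : pfC (piC [(nat_lit 39120232), (nat_lit 25510466), (nat_lit 18971201), (nat_lit 12765436)] (nat_lit 26172960)) p12_13_0 (nat_lit 4) (nat_lit 35) (nat_lit 36) = true := by decide +kernel
def p12_13_0_36 : pfC (piC [(nat_lit 39120232), (nat_lit 25510466), (nat_lit 18971201), (nat_lit 12765436)] (nat_lit 26172960)) p12_13_0 (nat_lit 4) (nat_lit 36) (nat_lit 37) = true := by decide +kernel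
def p12_13_0_37 : pfC (piC [(nat_lit 39120232), (nat_lit 25510466), (nat_lit 18971201), (nat_lit 12765436)] (nat_lit 26172960)) p12_13_0 (nat_lit 4) (nat_lit 37) (nat_lit 38) = true := by decide +kernel
def p12_13_0_38 : pfC (piC [(nat_lit 39120232), (nat_lit 25510466), (nat_lit 18971201), (nat_lit 12765436)] (nat_lit 26172960)) p12_13_0 (nat_lit 4) (nat_lit 38) (nat_lit 39) = true := by decide +kernel
def p12_13_0_39 : pfC (piC [(nat_lit 39120232), (nat_lit 25510466), (nat_lit 18971201), (nat_lit 12765436)] (nat_lit 26172960)) p12_13_0 (nat_lit 4) (nat_lit 39) (nat_lit 40) = true := by decide +kernel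
def p12_13_0_40 : pfC (piC [(nat_lit 39120232), (nat_lit 25510466), (nat_lit 18971201), (nat_lit 12765436)] (nat_lit 26172960)) p12_13_0 (nat_lit 4) (nat_lit 40) (nat_lit 41) = true := by decide +kernel
def p12_13_0_41 : pfC (piC [(nat_lit 39120232), (nat_lit 25510466), (nat_lit 18971201), (nat_lit 12765436)] (nat_lit 26172960)) p12_13_0 (nat_lit 4) (nat_lit 41) (nat_lit 42) = true := by decide +kernel
def p12_13_0_42 : pfC (piC [(nat_lit 39120232), (nat_lit 25510466), (nat_lit 18971201), (nat_lit 12765436)] (nat_lit 26172960)) p12_13_0 (nat_lit 4) (nat_lit 42) (nat_lit 43) = true := by decide +kernel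
def p12_13_0_43 : pfC (piC [(nat_lit 39120232), (nat_lit 25510466), (nat_lit 18971201), (nat_lit 12765436)] (nat_lit 26172960)) p12_13_0 (nat_lit 4) (nat_lit 43) (nat_lit 44) = true := by decide +kernel
def p12_13_0_44 : pfC (piC [(nat_lit 39120232), (nat_lit 25510466), (nat_lit 18971201), (nat_lit 12765436)] (nat_lit 26172960)) p12_13_0 (nat_lit 4) (nat_lit 44) (nat_lit 45) = true := by decide +kernel
def p12_13_0_45 : pfC (piC [(nat_lit 39120232), (nat_lit 25510466), (nat_lit 18971201), (nat_lit 12765436)] (nat_lit 26172960)) p12_13_0 (nat_lit 4) (nat_lit 45) (nat_lit 46) = true := by decide +kernel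
def p12_13_0_46 : pfC (piC [(nat_lit 39120232), (nat_lit 25510466), (nat_lit 18971201), (nat_lit 12765436)] (nat_lit 26172960)) p12_13_0 (nat_lit 4) (nat_lit 46) (nat_lit 47) = true := by decide +kernel
def p12_13_0_47 : pfC (piC [(nat_lit 39120232), (nat_lit 25510466), (nat_lit 18971201), (nat_lit 12765436)] (nat_lit 26172960)) p12_13_0 (nat_lit 4) (nat_lit 47) (nat_lit 48) = true := by decide +kernel
def p12_13_0_48 : pfC (piC [(nat_lit 39120232), (nat_lit 25510466), (nat_lit 18971201), (nat_lit 12765436)] (nat_lit 26172960)) p12_13_0 (nat_lit 4) (nat_lit 48) (nat_lit 49) = true := by decide +kernel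
def p12_13_0_49 : pfC (piC [(nat_lit 39120232), (nat_lit 25510466), (nat_lit 18971201), (nat_lit 12765436)] (nat_lit 26172960)) p12_13_0 (nat_lit 4) (nat_lit 49) (nat_lit 50) = true := by decide +kernel
def p12_13_0_50 : pfC (piC [(nat_lit 39120232), (nat_lit 25510466), (nat_lit 18971201), (nat_lit 12765436)] (nat_lit 26172960)) p12_13_0 (nat_lit 4) (nat_lit 50) (nat_lit 51) = true := by decide +kernel
def p12_13_0_51 : pfC (piC [(nat_lit 39120232), (nat_lit 25510466), (nat_lit 18971201), (nat_lit 12765436)] (nat_lit 26172960)) p12_13_0 (nat_lit 4) (nat_lit 51) (nat_lit 52) = true := by decide +kernel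
def p12_13_0_52 : pfC (piC [(nat_lit 39120232), (nat_lit 25510466), (nat_lit 18971201), (nat_lit 12765436)] (nat_lit 26172960)) p12_13_0 (nat_lit 4) (nat_lit 52) (nat_lit 53) = true := by decide +kernel
def p12_13_0_53 : pfC (piC [(nat_lit 39120232), (nat_lit 25510466), (nat_lit 18971201), (nat_lit 12765436)] (nat_lit 26172960)) p12_13_0 (nat_lit 4) (nat_lit 53) (nat_lit 54) = true := by decide +kernel
def p12_13_0_54 : pfC (piC [(nat_lit 39120232), (nat_lit 25510466), (nat_lit 18971201), (nat_lit 12765436)] (nat_lit 26172960)) p12_13_0 (nat_lit 4) (nat_lit 54) (nat_lit 55) = true := by decide +kernel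
def p12_13_0_55 : pfC (piC [(nat_lit 39120232), (nat_lit 25510466), (nat_lit 18971201), (nat_lit 12765436)] (nat_lit 26172960)) p12_13_0 (nat_lit 4) (nat_lit 55) (nat_lit 56) = true := by decide +kernel
def p12_13_0_56 : pfC (piC [(nat_lit 39120232), (nat_lit 25510466), (nat_lit 18971201), (nat_lit 12765436)] (nat_lit 26172960)) p12_13_0 (nat_lit 4) (nat_lit 56) (nat_lit 57) = true := by decide +kernel
def p12_13_0_57 : pfC (piC [(nat_lit 39120232), (nat_lit 25510466), (nat_lit 18971201), (nat_lit 12765436)] (nat_lit 26172960)) p12_13_0 (nat_lit 4) (nat_lit 57) (nat_lit 58) = true := by decide +kernel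
def p12_13_0_58 : pfC (piC [(nat_lit 39120232), (nat_lit 25510466), (nat_lit 18971201), (nat_lit 12765436)] (nat_lit 26172960)) p12_13_0 (nat_lit 4) (nat_lit 58) (nat_lit 59) = true := by decide +kernel
def p12_13_0_59 : pfC (piC [(nat_lit 39120232), (nat_lit 25510466), (nat_lit 18971201), (nat_lit 12765436)] (nat_lit 26172960)) p12_13_0 (nat_lit 4) (nat_lit 59) (nat_lit 60) = true := by decide +kernel
def p12_13_0_60 : pfC (piC [(nat_lit 39120232), (nat_lit 25510466), (nat_lit 18971201), (nat_lit 12765436)] (nat_lit 26172960)) p12_13_0 (nat_lit 4) (nat_lit 60) (nat_lit 61) = true := by decide +kernel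
def p12_13_0_61 : pfC (piC [(nat_lit 39120232), (nat_lit 25510466), (nat_lit 18971201), (nat_lit 12765436)] (nat_lit 26172960)) p12_13_0 (nat_lit 4) (nat_lit 61) (nat_lit 62) = true := by decide +kernel
def p12_13_0_62 : pfC (piC [(nat_lit 39120232), (nat_lit 25510466), (nat_lit 18971201), (nat_lit 12765436)] (nat_lit 26172960)) p12_13_0 (nat_lit 4) (nat_lit 62) (nat_lit 63) = true := by decide +kernel
def p12_13_0_63 : pfC (piC [(nat_lit 39120232), (nat_lit 25510466), (nat_lit 18971201), (nat_lit 12765436)] (nat_lit 26172960)) p12_13_0 (nat_lit 4) (nat_lit 63) (nat_lit 64) = true := by decide +kernel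
def p12_13_0_64 : pfC (piC [(nat_lit 39120232), (nat_lit 25510466), (nat_lit 18971201), (nat_lit 12765436)] (nat_lit 26172960)) p12_13_0 (nat_lit 4) (nat_lit 64) (nat_lit 65) = true := by decide +kernel
def p12_13_0_65 : pfC (piC [(nat_lit 39120232), (nat_lit 25510466), (nat_lit 18971201), (nat_lit 12765436)] (nat_lit 26172960)) p12_13_0 (nat_lit 4) (nat_lit 65) (nat_lit 66) = true := by decide +kernel
def p12_13_0_66 : pfC (piC [(nat_lit 39120232), (nat_lit 25510466), (nat_lit 18971201), (nat_lit 12765436)] (nat_lit 26172960)) p12_13_0 (nat_lit 4) (nat_lit 66) (nat_lit 67) = true := by decide +kernel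
def p12_13_0_67 : pfC (piC [(nat_lit 39120232), (nat_lit 25510466), (nat_lit 18971201), (nat_lit 12765436)] (nat_lit 26172960)) p12_13_0 (nat_lit 4) (nat_lit 67) (nat_lit 68) = true := by decide +kernel
def p12_13_0_68 : pfC (piC [(nat_lit 39120232), (nat_lit 25510466), (nat_lit 18971201), (nat_lit 12765436)] (nat_lit 26172960)) p12_13_0 (nat_lit 4) (nat_lit 68) (nat_lit 69) = true := by decide +kernel
def p12_13_0_69 : pfC (piC [(nat_lit 39120232), (nat_lit 25510466), (nat_lit 18971201), (nat_lit 12765436)] (nat_lit 26172960)) p12_13_0 (nat_lit 4) (nat_lit 69) (nat_lit 70) = true := by decide +kernel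
def p12_13_0_70 : pfC (piC [(nat_lit 39120232), (nat_lit 25510466), (nat_lit 18971201), (nat_lit 12765436)] (nat_lit 26172960)) p12_13_0 (nat_lit 4) (nat_lit 70) (nat_lit 71) = true := by decide +kernel
def p12_13_0_71 : pfC (piC [(nat_lit 39120232), (nat_lit 25510466), (nat_lit 18971201), (nat_lit 12765436)] (nat_lit 26172960)) p12_13_0 (nat_lit 4) (nat_lit 71) (nat_lit 72) = true := by decide +kernel
def p12_13_0_72 : pfC (piC [(nat_lit 39120232), (nat_lit 25510466), (nat_lit 18971201), (nat_lit 12765436)] (nat_lit 26172960)) p12_13_0 (nat_lit 4) (nat_lit 72) (nat_lit 73) = true := by decide +kernel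
def p12_13_0_73 : pfC (piC [(nat_lit 39120232), (nat_lit 25510466), (nat_lit 18971201), (nat_lit 12765436)] (nat_lit 26172960)) p12_13_0 (nat_lit 4) (nat_lit 73) (nat_lit 74) = true := by decide +kernel
def p12_13_0_74 : pfC (piC [(nat_lit 39120232), (nat_lit 25510466), (nat_lit 18971201), (nat_lit 12765436)] (nat_lit 26172960)) p12_13_0 (nat_lit 4) (nat_lit 74) (nat_lit 75) = true := by decide +kernel
def p12_13_0_75 : pfC (piC [(nat_lit 39120232), (nat_lit 25510466), (nat_lit 18971201), (nat_lit 12765436)] (nat_lit 26172960)) p12_13_0 (nat_lit 4) (nat_lit 75) (nat_lit 76) = true := by decide +kernel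
def p12_13_0_76 : pfC (piC [(nat_lit 39120232), (nat_lit 25510466), (nat_lit 18971201), (nat_lit 12765436)] (nat_lit 26172960)) p12_13_0 (nat_lit 4) (nat_lit 76) (nat_lit 77) = true := by decide +kernel
def p12_13_0_77 : pfC (piC [(nat_lit 39120232), (nat_lit 25510466), (nat_lit 18971201), (nat_lit 12765436)] (nat_lit 26172960)) p12_13_0 (nat_lit 4) (nat_lit 77) (nat_lit 78) = true := by decide +kernel
def p12_13_0_78 : pfC (piC [(nat_lit 39120232), (nat_lit 25510466), (nat_lit 18971201), (nat_lit 12765436)] (nat_lit 26172960)) p12_13_0 (nat_lit 4) (nat_lit 78) (nat_lit 79) = true := by decide +kernel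
def p12_13_0_79 : pfC (piC [(nat_lit 39120232), (nat_lit 25510466), (nat_lit 18971201), (nat_lit 12765436)] (nat_lit 26172960)) p12_13_0 (nat_lit 4) (nat_lit 79) (nat_lit 80) = true := by decide +kernel
def p12_13_0_80 : pfC (piC [(nat_lit 39120232), (nat_lit 25510466), (nat_lit 18971201), (nat_lit 12765436)] (nat_lit 26172960)) p12_13_0 (nat_lit 4) (nat_lit 80) (nat_lit 81) = true := by decide +kernel
def p12_13_0_81 : pfC (piC [(nat_lit 39120232), (nat_lit 25510466), (nat_lit 18971201), (nat_lit 12765436)] (nat_lit 26172960)) p12_13_0 (nat_lit 4) (nat_lit 81) (nat_lit 82) = true := by decide +kernel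
def p12_13_0_82 : pfC (piC [(nat_lit 39120232), (nat_lit 25510466), (nat_lit 18971201), (nat_lit 12765436)] (nat_lit 26172960)) p12_13_0 (nat_lit 4) (nat_lit 82) (nat_lit 83) = true := by decide +kernel
def p12_13_0_83 : pfC (piC [(nat_lit 39120232), (nat_lit 25510466), (nat_lit 18971201), (nat_lit 12765436)] (nat_lit 26172960)) p12_13_0 (nat_lit 4) (nat_lit 83) (nat_lit 84) = true := by decide +kernel
def p12_13_0_84 : pfC (piC [(nat_lit 39120232), (nat_lit 25510466), (nat_lit 18971201), (nat_lit 12765436)] (nat_lit 26172960)) p12_13_0 (nat_lit 4) (nat_lit 84) (nat_lit 85) = true := by decide +kernel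
def p12_13_0_85 : pfC (piC [(nat_lit 39120232), (nat_lit 25510466), (nat_lit 18971201), (nat_lit 12765436)] (nat_lit 26172960)) p12_13_0 (nat_lit 4) (nat_lit 85) (nat_lit 86) = true := by decide +kernel
def p12_13_0_86 : pfC (piC [(nat_lit 39120232), (nat_lit 25510466), (nat_lit 18971201), (nat_lit 12765436)] (nat_lit 26172960)) p12_13_0 (nat_lit 4) (nat_lit 86) (nat_lit 87) = true := by decide +kernel
def p12_13_0_87 : pfC (piC [(nat_lit 39120232), (nat_lit 25510466), (nat_lit 18971201), (nat_lit 12765436)] (nat_lit 26172960)) p12_13_0 (nat_lit 4) (nat_lit 87) (nat_lit 88) = true := by decide +kernel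
def p12_13_0_88 : pfC (piC [(nat_lit 39120232), (nat_lit 25510466), (nat_lit 18971201), (nat_lit 12765436)] (nat_lit 26172960)) p12_13_0 (nat_lit 4) (nat_lit 88) (nat_lit 89) = true := by decide +kernel
def p12_13_0_89 : pfC (piC [(nat_lit 39120232), (nat_lit 25510466), (nat_lit 18971201), (nat_lit 12765436)] (nat_lit 26172960)) p12_13_0 (nat_lit 4) (nat_lit 89) (nat_lit 90) = true := by decide +kernel
def p12_13_0_90 : pfC (piC [(nat_lit 39120232), (nat_lit 25510466), (nat_lit 18971201), (nat_lit 12765436)] (nat_lit 26172960)) p12_13_0 (nat_lit 4) (nat_lit 90) (nat_lit 91) = true := by decide +kernel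
def p12_13_0_91 : pfC (piC [(nat_lit 39120232), (nat_lit 25510466), (nat_lit 18971201), (nat_lit 12765436)] (nat_lit 26172960)) p12_13_0 (nat_lit 4) (nat_lit 91) (nat_lit 92) = true := by decide +kernel
def p12_13_0_92 : pfC (piC [(nat_lit 39120232), (nat_lit 25510466), (nat_lit 18971201), (nat_lit 12765436)] (nat_lit 26172960)) p12_13_0 (nat_lit 4) (nat_lit 92) (nat_lit 93) = true := by decide +kernel
def p12_13_0_93 : pfC (piC [(nat_lit 39120232), (nat_lit 25510466), (nat_lit 18971201), (nat_lit 12765436)] (nat_lit 26172960)) p12_13_0 (nat_lit 4) (nat_lit 93) (nat_lit 94) = true := by decide +kernel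
def p12_13_0_94 : pfC (piC [(nat_lit 39120232), (nat_lit 25510466), (nat_lit 18971201), (nat_lit 12765436)] (nat_lit 26172960)) p12_13_0 (nat_lit 4) (nat_lit 94) (nat_lit 95) = true := by decide +kernel
def p12_13_0_95 : pfC (piC [(nat_lit 39120232), (nat_lit 25510466), (nat_lit 18971201), (nat_lit 12765436)] (nat_lit 26172960)) p12_13_0 (nat_lit 4) (nat_lit 95) (nat_lit 96) = true := by decide +kernel
def p12_13_0_96 : pfC (piC [(nat_lit 39120232), (nat_lit 25510466), (nat_lit 18971201), (nat_lit 12765436)] (nat_lit 26172960)) p12_13_0 (nat_lit 4) (nat_lit 96) (nat_lit 97) = true := by decide +kernel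
def p12_13_0_97 : pfC (piC [(nat_lit 39120232), (nat_lit 25510466), (nat_lit 18971201), (nat_lit 12765436)] (nat_lit 26172960)) p12_13_0 (nat_lit 4) (nat_lit 97) (nat_lit 98) = true := by decide +kernel
def p12_13_0_98 : pfC (piC [(nat_lit 39120232), (nat_lit 25510466), (nat_lit 18971201), (nat_lit 12765436)] (nat_lit 26172960)) p12_13_0 (nat_lit 4) (nat_lit 98) (nat_lit 99) = true := by decide +kernel
def p12_13_0_99 : pfC (piC [(nat_lit 39120232), (nat_lit 25510466), (nat_lit 18971201), (nat_lit 12765436)] (nat_lit 26172960)) p12_13_0 (nat_lit 4) (nat_lit 99) (nat_lit 100) = true := by decide +kernel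
def p12_13_0_100 : pfC (piC [(nat_lit 39120232), (nat_lit 25510466), (nat_lit 18971201), (nat_lit 12765436)] (nat_lit 26172960)) p12_13_0 (nat_lit 4) (nat_lit 100) (nat_lit 101) = true := by decide +kernel
def p12_13_0_101 : pfC (piC [(nat_lit 39120232), (nat_lit 25510466), (nat_lit 18971201), (nat_lit 12765436)] (nat_lit 26172960)) p12_13_0 (nat_lit 4) (nat_lit 101) (nat_lit 102) = true := by decide +kernel
def p12_13_0_102 : pfC (piC [(nat_lit 39120232), (nat_lit 25510466), (nat_lit 18971201), (nat_lit 12765436)] (nat_lit 26172960)) p12_13_0 (nat_lit 4) (nat_lit 102) (nat_lit 103) = true := by decide +kernel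
def p12_13_0_103 : pfC (piC [(nat_lit 39120232), (nat_lit 25510466), (nat_lit 18971201), (nat_lit 12765436)] (nat_lit 26172960)) p12_13_0 (nat_lit 4) (nat_lit 103) (nat_lit 104) = true := by decide +kernel
def p12_13_0_104 : pfC (piC [(nat_lit 39120232), (nat_lit 25510466), (nat_lit 18971201), (nat_lit 12765436)] (nat_lit 26172960)) p12_13_0 (nat_lit 4) (nat_lit 104) (nat_lit 105) = true := by decide +kernel
def p12_13_0_105 : pfC (piC [(nat_lit 39120232), (nat_lit 25510466), (nat_lit 18971201), (nat_lit 12765436)] (nat_lit 26172960)) p12_13_0 (nat_lit 4) (nat_lit 105) (nat_lit 106) = true := by decide +kernel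
def p12_13_0_106 : pfC (piC [(nat_lit 39120232), (nat_lit 25510466), (nat_lit 18971201), (nat_lit 12765436)] (nat_lit 26172960)) p12_13_0 (nat_lit 4) (nat_lit 106) (nat_lit 107) = true := by decide +kernel
def p12_13_0_107 : pfC (piC [(nat_lit 39120232), (nat_lit 25510466), (nat_lit 18971201), (nat_lit 12765436)] (nat_lit 26172960)) p12_13_0 (nat_lit 4) (nat_lit 107) (nat_lit 108) = true := by decide +kernel
def p12_13_0_108 : pfC (piC [(nat_lit 39120232), (nat_lit 25510466), (nat_lit 18971201), (nat_lit 12765436)] (nat_lit 26172960)) p12_13_0 (nat_lit 4) (nat_lit 108) (nat_lit 109) = true := by decide +kernel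
def p12_13_0_109 : pfC (piC [(nat_lit 39120232), (nat_lit 25510466), (nat_lit 18971201), (nat_lit 12765436)] (nat_lit 26172960)) p12_13_0 (nat_lit 4) (nat_lit 109) (nat_lit 110) = true := by decide +kernel
def p12_13_0_110 : pfC (piC [(nat_lit 39120232), (nat_lit 25510466), (nat_lit 18971201), (nat_lit 12765436)] (nat_lit 26172960)) p12_13_0 (nat_lit 4) (nat_lit 110) (nat_lit 111) = true := by decide +kernel
def p12_13_0_111 : pfC (piC [(nat_lit 39120232), (nat_lit 25510466), (nat_lit 18971201), (nat_lit 12765436)] (nat_lit 26172960)) p12_13_0 (nat_lit 4) (nat_lit 111) (nat_lit 112) = true := by decide +kernel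
def p12_13_0_112 : pfC (piC [(nat_lit 39120232), (nat_lit 25510466), (nat_lit 18971201), (nat_lit 12765436)] (nat_lit 26172960)) p12_13_0 (nat_lit 4) (nat_lit 112) (nat_lit 113) = true := by decide +kernel
def p12_13_0_113 : pfC (piC [(nat_lit 39120232), (nat_lit 25510466), (nat_lit 18971201), (nat_lit 12765436)] (nat_lit 26172960)) p12_13_0 (nat_lit 4) (nat_lit 113) (nat_lit 114) = true := by decide +kernel
def p12_13_0_114 : pfC (piC [(nat_lit 39120232), (nat_lit 25510466), (nat_lit 18971201), (nat_lit 12765436)] (nat_lit 26172960)) p12_13_0 (nat_lit 4) (nat_lit 114) (nat_lit 115) = true := by decide +kernel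
def p12_13_0_115 : pfC (piC [(nat_lit 39120232), (nat_lit 25510466), (nat_lit 18971201), (nat_lit 12765436)] (nat_lit 26172960)) p12_13_0 (nat_lit 4) (nat_lit 115) (nat_lit 116) = true := by decide +kernel
def p12_13_0_116 : pfC (piC [(nat_lit 39120232), (nat_lit 25510466), (nat_lit 18971201), (nat_lit 12765436)] (nat_lit 26172960)) p12_13_0 (nat_lit 4) (nat_lit 116) (nat_lit 117) = true := by decide +kernel
def p12_13_0_117 : pfC (piC [(nat_lit 39120232), (nat_lit 25510466), (nat_lit 18971201), (nat_lit 12765436)] (nat_lit 26172960)) p12_13_0 (nat_lit 4) (nat_lit 117) (nat_lit 118) = true := by decide +kernel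
def p12_13_0_118 : pfC (piC [(nat_lit 39120232), (nat_lit 25510466), (nat_lit 18971201), (nat_lit 12765436)] (nat_lit 26172960)) p12_13_0 (nat_lit 4) (nat_lit 118) (nat_lit 119) = true := by decide +kernel
def p12_13_0_119 : pfC (piC [(nat_lit 39120232), (nat_lit 25510466), (nat_lit 18971201), (nat_lit 12765436)] (nat_lit 26172960)) p12_13_0 (nat_lit 4) (nat_lit 119) (nat_lit 120) = true := by decide +kernel
def p12_13_0_120 : pfC (piC [(nat_lit 39120232), (nat_lit 25510466), (nat_lit 18971201), (nat_lit 12765436)] (nat_lit 26172960)) p12_13_0 (nat_lit 4) (nat_lit 120) (nat_lit 121) = true := by decide +kernel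
def p12_13_0_121 : pfC (piC [(nat_lit 39120232), (nat_lit 25510466), (nat_lit 18971201), (nat_lit 12765436)] (nat_lit 26172960)) p12_13_0 (nat_lit 4) (nat_lit 121) (nat_lit 122) = true := by decide +kernel
def p12_13_0_122 : pfC (piC [(nat_lit 39120232), (nat_lit 25510466), (nat_lit 18971201), (nat_lit 12765436)] (nat_lit 26172960)) p12_13_0 (nat_lit 4) (nat_lit 122) (nat_lit 123) = true := by decide +kernel
def p12_13_0_123 : pfC (piC [(nat_lit 39120232), (nat_lit 25510466), (nat_lit 18971201), (nat_lit 12765436)] (nat_lit 26172960)) p12_13_0 (nat_lit 4) (nat_lit 123) (nat_lit 124) = true := by decide +kernel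
def p12_13_0_124 : pfC (piC [(nat_lit 39120232), (nat_lit 25510466), (nat_lit 18971201), (nat_lit 12765436)] (nat_lit 26172960)) p12_13_0 (nat_lit 4) (nat_lit 124) (nat_lit 125) = true := by decide +kernel
def p12_13_0_125 : pfC (piC [(nat_lit 39120232), (nat_lit 25510466), (nat_lit 18971201), (nat_lit 12765436)] (nat_lit 26172960)) p12_13_0 (nat_lit 4) (nat_lit 125) (nat_lit 126) = true := by decide +kernel
def p12_13_0_126 : pfC (piC [(nat_lit 39120232), (nat_lit 25510466), (nat_lit 18971201), (nat_lit 12765436)] (nat_lit 26172960)) p12_13_0 (nat_lit 4) (nat_lit 126) (nat_lit 127) = true := by decide +kernel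
def p12_13_0_127 : pfC (piC [(nat_lit 39120232), (nat_lit 25510466), (nat_lit 18971201), (nat_lit 12765436)] (nat_lit 26172960)) p12_13_0 (nat_lit 4) (nat_lit 127) (nat_lit 128) = true := by decide +kernel
def p12_13_0_128 : pfC (piC [(nat_lit 39120232), (nat_lit 25510466), (nat_lit 18971201), (nat_lit 12765436)] (nat_lit 26172960)) p12_13_0 (nat_lit 4) (nat_lit 128) (nat_lit 129) = true := by decide +kernel
def p12_13_0_129 : pfC (piC [(nat_lit 39120232), (nat_lit 25510466), (nat_lit 18971201), (nat_lit 12765436)] (nat_lit 26172960)) p12_13_0 (nat_lit 4) (nat_lit 129) (nat_lit 130) = true := by decide +kernel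
def p12_13_0_130 : pfC (piC [(nat_lit 39120232), (nat_lit 25510466), (nat_lit 18971201), (nat_lit 12765436)] (nat_lit 26172960)) p12_13_0 (nat_lit 4) (nat_lit 130) (nat_lit 131) = true := by decide +kernel
def p12_13_0_131 : pfC (piC [(nat_lit 39120232), (nat_lit 25510466), (nat_lit 18971201), (nat_lit 12765436)] (nat_lit 26172960)) p12_13_0 (nat_lit 4) (nat_lit 131) (nat_lit 132) = true := by decide +kernel
def p12_13_0_132 : pfC (piC [(nat_lit 39120232), (nat_lit 25510466), (nat_lit 18971201), (nat_lit 12765436)] (nat_lit 26172960)) p12_13_0 (nat_lit 4) (nat_lit 132) (nat_lit 133) = true := by decide +kernel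
def p12_13_0_133 : pfC (piC [(nat_lit 39120232), (nat_lit 25510466), (nat_lit 18971201), (nat_lit 12765436)] (nat_lit 26172960)) p12_13_0 (nat_lit 4) (nat_lit 133) (nat_lit 134) = true := by decide +kernel
def p12_13_0_134 : pfC (piC [(nat_lit 39120232), (nat_lit 25510466), (nat_lit 18971201), (nat_lit 12765436)] (nat_lit 26172960)) p12_13_0 (nat_lit 4) (nat_lit 134) (nat_lit 135) = true := by decide +kernel
def p12_13_0_135 : pfC (piC [(nat_lit 39120232), (nat_lit 25510466), (nat_lit 18971201), (nat_lit 12765436)] (nat_lit 26172960)) p12_13_0 (nat_lit 4) (nat_lit 135) (nat_lit 136) = true := by decide +kernel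
def p12_13_0_136 : pfC (piC [(nat_lit 39120232), (nat_lit 25510466), (nat_lit 18971201), (nat_lit 12765436)] (nat_lit 26172960)) p12_13_0 (nat_lit 4) (nat_lit 136) (nat_lit 137) = true := by decide +kernel
def p12_13_0_137 : pfC (piC [(nat_lit 39120232), (nat_lit 25510466), (nat_lit 18971201), (nat_lit 12765436)] (nat_lit 26172960)) p12_13_0 (nat_lit 4) (nat_lit 137) (nat_lit 138) = true := by decide +kernel
def p12_13_0_138 : pfC (piC [(nat_lit 39120232), (nat_lit 25510466), (nat_lit 18971201), (nat_lit 12765436)] (nat_lit 26172960)) p12_13_0 (nat_lit 4) (nat_lit 138) (nat_lit 139) = true := by decide +kernel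
def p12_13_0_139 : pfC (piC [(nat_lit 39120232), (nat_lit 25510466), (nat_lit 18971201), (nat_lit 12765436)] (nat_lit 26172960)) p12_13_0 (nat_lit 4) (nat_lit 139) (nat_lit 140) = true := by decide +kernel
def p12_13_0_140 : pfC (piC [(nat_lit 39120232), (nat_lit 25510466), (nat_lit 18971201), (nat_lit 12765436)] (nat_lit 26172960)) p12_13_0 (nat_lit 4) (nat_lit 140) (nat_lit 141) = true := by decide +kernel
def p12_13_0_141 : pfC (piC [(nat_lit 39120232), (nat_lit 25510466), (nat_lit 18971201), (nat_lit 12765436)] (nat_lit 26172960)) p12_13_0 (nat_lit 4) (nat_lit 141) (nat_lit 142) = true := by decide +kernel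
def p12_13_0_142 : pfC (piC [(nat_lit 39120232), (nat_lit 25510466), (nat_lit 18971201), (nat_lit 12765436)] (nat_lit 26172960)) p12_13_0 (nat_lit 4) (nat_lit 142) (nat_lit 143) = true := by decide +kernel
def p12_13_0_143 : pfC (piC [(nat_lit 39120232), (nat_lit 25510466), (nat_lit 18971201), (nat_lit 12765436)] (nat_lit 26172960)) p12_13_0 (nat_lit 4) (nat_lit 143) (nat_lit 144) = true := by decide +kernel
def p12_13_0_144 : pfC (piC [(nat_lit 39120232), (nat_lit 25510466), (nat_lit 18971201), (nat_lit 12765436)] (nat_lit 26172960)) p12_13_0 (nat_lit 4) (nat_lit 144) (nat_lit 145) = true := by decide +kernel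
def p12_13_0_145 : pfC (piC [(nat_lit 39120232), (nat_lit 25510466), (nat_lit 18971201), (nat_lit 12765436)] (nat_lit 26172960)) p12_13_0 (nat_lit 4) (nat_lit 145) (nat_lit 146) = true := by decide +kernel
def p12_13_0_146 : pfC (piC [(nat_lit 39120232), (nat_lit 25510466), (nat_lit 18971201), (nat_lit 12765436)] (nat_lit 26172960)) p12_13_0 (nat_lit 4) (nat_lit 146) (nat_lit 147) = true := by decide +kernel
def p12_13_0_147 : pfC (piC [(nat_lit 39120232), (nat_lit 25510466), (nat_lit 18971201), (nat_lit 12765436)] (nat_lit 26172960)) p12_13_0 (nat_lit 4) (nat_lit 147) (nat_lit 148) = true := by decide +kernel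
def p12_13_0_148 : pfC (piC [(nat_lit 39120232), (nat_lit 25510466), (nat_lit 18971201), (nat_lit 12765436)] (nat_lit 26172960)) p12_13_0 (nat_lit 4) (nat_lit 148) (nat_lit 149) = true := by decide +kernel
def p12_13_0_149 : pfC (piC [(nat_lit 39120232), (nat_lit 25510466), (nat_lit 18971201), (nat_lit 12765436)] (nat_lit 26172960)) p12_13_0 (nat_lit 4) (nat_lit 149) (nat_lit 150) = true := by decide +kernel
def p12_13_0_150 : pfC (piC [(nat_lit 39120232), (nat_lit 25510466), (nat_lit 18971201), (nat_lit 12765436)] (nat_lit 26172960)) p12_13_0 (nat_lit 4) (nat_lit 150) (nat_lit 151) = true := by decide +kernel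
def p12_13_0_151 : pfC (piC [(nat_lit 39120232), (nat_lit 25510466), (nat_lit 18971201), (nat_lit 12765436)] (nat_lit 26172960)) p12_13_0 (nat_lit 4) (nat_lit 151) (nat_lit 152) = true := by decide +kernel
def p12_13_0_152 : pfC (piC [(nat_lit 39120232), (nat_lit 25510466), (nat_lit 18971201), (nat_lit 12765436)] (nat_lit 26172960)) p12_13_0 (nat_lit 4) (nat_lit 152) (nat_lit 153) = true := by decide +kernel
def p12_13_0_153 : pfC (piC [(nat_lit 39120232), (nat_lit 25510466), (nat_lit 18971201), (nat_lit 12765436)] (nat_lit 26172960)) p12_13_0 (nat_lit 4) (nat_lit 153) (nat_lit 154) = true := by decide +kernel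
def p12_13_0_154 : pfC (piC [(nat_lit 39120232), (nat_lit 25510466), (nat_lit 18971201), (nat_lit 12765436)] (nat_lit 26172960)) p12_13_0 (nat_lit 4) (nat_lit 154) (nat_lit 155) = true := by decide +kernel
def p12_13_0_155 : pfC (piC [(nat_lit 39120232), (nat_lit 25510466), (nat_lit 18971201), (nat_lit 12765436)] (nat_lit 26172960)) p12_13_0 (nat_lit 4) (nat_lit 155) (nat_lit 156) = true := by decide +kernel
def p12_13_0_156 : pfC (piC [(nat_lit 39120232), (nat_lit 25510466), (nat_lit 18971201), (nat_lit 12765436)] (nat_lit 26172960)) p12_13_0 (nat_lit 4) (nat_lit 156) (nat_lit 157) = true := by decide +kernel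
def p12_13_0_157 : pfC (piC [(nat_lit 39120232), (nat_lit 25510466), (nat_lit 18971201), (nat_lit 12765436)] (nat_lit 26172960)) p12_13_0 (nat_lit 4) (nat_lit 157) (nat_lit 158) = true := by decide +kernel
def p12_13_0_158 : pfC (piC [(nat_lit 39120232), (nat_lit 25510466), (nat_lit 18971201), (nat_lit 12765436)] (nat_lit 26172960)) p12_13_0 (nat_lit 4) (nat_lit 158) (nat_lit 159) = true := by decide +kernel
def p12_13_0_159 : pfC (piC [(nat_lit 39120232), (nat_lit 25510466), (nat_lit 18971201), (nat_lit 12765436)] (nat_lit 26172960)) p12_13_0 (nat_lit 4) (nat_lit 159) (nat_lit 160) = true := by decide +kernel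
def p12_13_0_160 : pfC (piC [(nat_lit 39120232), (nat_lit 25510466), (nat_lit 18971201), (nat_lit 12765436)] (nat_lit 26172960)) p12_13_0 (nat_lit 4) (nat_lit 160) (nat_lit 161) = true := by decide +kernel
def p12_13_0_161 : pfC (piC [(nat_lit 39120232), (nat_lit 25510466), (nat_lit 18971201), (nat_lit 12765436)] (nat_lit 26172960)) p12_13_0 (nat_lit 4) (nat_lit 161) (nat_lit 162) = true := by decide +kernel
def p12_13_0_162 : pfC (piC [(nat_lit 39120232), (nat_lit 25510466), (nat_lit 18971201), (nat_lit 12765436)] (nat_lit 26172960)) p12_13_0 (nat_lit 4) (nat_lit 162) (nat_lit 163) = true := by decide +kernel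
def p12_13_0_163 : pfC (piC [(nat_lit 39120232), (nat_lit 25510466), (nat_lit 18971201), (nat_lit 12765436)] (nat_lit 26172960)) p12_13_0 (nat_lit 4) (nat_lit 163) (nat_lit 164) = true := by decide +kernel
def p12_13_0_164 : pfC (piC [(nat_lit 39120232), (nat_lit 25510466), (nat_lit 18971201), (nat_lit 12765436)] (nat_lit 26172960)) p12_13_0 (nat_lit 4) (nat_lit 164) (nat_lit 165) = true := by decide +kernel
def p12_13_0_165 : pfC (piC [(nat_lit 39120232), (nat_lit 25510466), (nat_lit 18971201), (nat_lit 12765436)] (nat_lit 26172960)) p12_13_0 (nat_lit 4) (nat_lit 165) (nat_lit 166) = true := by decide +kernel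
def p12_13_0_166 : pfC (piC [(nat_lit 39120232), (nat_lit 25510466), (nat_lit 18971201), (nat_lit 12765436)] (nat_lit 26172960)) p12_13_0 (nat_lit 4) (nat_lit 166) (nat_lit 167) = true := by decide +kernel
def p12_13_0_167 : pfC (piC [(nat_lit 39120232), (nat_lit 25510466), (nat_lit 18971201), (nat_lit 12765436)] (nat_lit 26172960)) p12_13_0 (nat_lit 4) (nat_lit 167) (nat_lit 168) = true := by decide +kernel
def p12_13_0_168 : pfC (piC [(nat_lit 39120232), (nat_lit 25510466), (nat_lit 18971201), (nat_lit 12765436)] (nat_lit 26172960)) p12_13_0 (nat_lit 4) (nat_lit 168) (nat_lit 169) = true := by decide +kernel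
def p12_13_0_169 : pfC (piC [(nat_lit 39120232), (nat_lit 25510466), (nat_lit 18971201), (nat_lit 12765436)] (nat_lit 26172960)) p12_13_0 (nat_lit 4) (nat_lit 169) (nat_lit 170) = true := by decide +kernel
def p12_13_0_170 : pfC (piC [(nat_lit 39120232), (nat_lit 25510466), (nat_lit 18971201), (nat_lit 12765436)] (nat_lit 26172960)) p12_13_0 (nat_lit 4) (nat_lit 170) (nat_lit 171) = true := by decide +kernel
def p12_13_0_171 : pfC (piC [(nat_lit 39120232), (nat_lit 25510466), (nat_lit 18971201), (nat_lit 12765436)] (nat_lit 26172960)) p12_13_0 (nat_lit 4) (nat_lit 171) (nat_lit 172) = true := by decide +kernel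
def p12_13_0_172 : pfC (piC [(nat_lit 39120232), (nat_lit 25510466), (nat_lit 18971201), (nat_lit 12765436)] (nat_lit 26172960)) p12_13_0 (nat_lit 4) (nat_lit 172) (nat_lit 173) = true := by decide +kernel
def p12_13_0_173 : pfC (piC [(nat_lit 39120232), (nat_lit 25510466), (nat_lit 18971201), (nat_lit 12765436)] (nat_lit 26172960)) p12_13_0 (nat_lit 4) (nat_lit 173) (nat_lit 174) = true := by decide +kernel
def p12_13_0_174 : pfC (piC [(nat_lit 39120232), (nat_lit 25510466), (nat_lit 18971201), (nat_lit 12765436)] (nat_lit 26172960)) p12_13_0 (nat_lit 4) (nat_lit 174) (nat_lit 175) = true := by decide +kernel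
def p12_13_0_175 : pfC (piC [(nat_lit 39120232), (nat_lit 25510466), (nat_lit 18971201), (nat_lit 12765436)] (nat_lit 26172960)) p12_13_0 (nat_lit 4) (nat_lit 175) (nat_lit 176) = true := by decide +kernel
def p12_13_0_176 : pfC (piC [(nat_lit 39120232), (nat_lit 25510466), (nat_lit 18971201), (nat_lit 12765436)] (nat_lit 26172960)) p12_13_0 (nat_lit 4) (nat_lit 176) (nat_lit 177) = true := by decide +kernel
def p12_13_0_177 : pfC (piC [(nat_lit 39120232), (nat_lit 25510466), (nat_lit 18971201), (nat_lit 12765436)] (nat_lit 26172960)) p12_13_0 (nat_lit 4) (nat_lit 177) (nat_lit 178) = true := by decide +kernel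
def p12_13_0_178 : pfC (piC [(nat_lit 39120232), (nat_lit 25510466), (nat_lit 18971201), (nat_lit 12765436)] (nat_lit 26172960)) p12_13_0 (nat_lit 4) (nat_lit 178) (nat_lit 179) = true := by decide +kernel
def p12_13_0_179 : pfC (piC [(nat_lit 39120232), (nat_lit 25510466), (nat_lit 18971201), (nat_lit 12765436)] (nat_lit 26172960)) p12_13_0 (nat_lit 4) (nat_lit 179) (nat_lit 180) = true := by decide +kernel
def p12_13_0_180 : pfC (piC [(nat_lit 39120232), (nat_lit 25510466), (nat_lit 18971201), (nat_lit 12765436)] (nat_lit 26172960)) p12_13_0 (nat_lit 4) (nat_lit 180) (nat_lit 181) = true := by decide +kernel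
def p12_13_0_181 : pfC (piC [(nat_lit 39120232), (nat_lit 25510466), (nat_lit 18971201), (nat_lit 12765436)] (nat_lit 26172960)) p12_13_0 (nat_lit 4) (nat_lit 181) (nat_lit 182) = true := by decide +kernel
def p12_13_0_182 : pfC (piC [(nat_lit 39120232), (nat_lit 25510466), (nat_lit 18971201), (nat_lit 12765436)] (nat_lit 26172960)) p12_13_0 (nat_lit 4) (nat_lit 182) (nat_lit 183) = true := by decide +kernel
def p12_13_0_183 : pfC (piC [(nat_lit 39120232), (nat_lit 25510466), (nat_lit 18971201), (nat_lit 12765436)] (nat_lit 26172960)) p12_13_0 (nat_lit 4) (nat_lit 183) (nat_lit 184) = true := by decide +kernel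
def p12_13_0_184 : pfC (piC [(nat_lit 39120232), (nat_lit 25510466), (nat_lit 18971201), (nat_lit 12765436)] (nat_lit 26172960)) p12_13_0 (nat_lit 4) (nat_lit 184) (nat_lit 185) = true := by decide +kernel
def p12_13_0_185 : pfC (piC [(nat_lit 39120232), (nat_lit 25510466), (nat_lit 18971201), (nat_lit 12765436)] (nat_lit 26172960)) p12_13_0 (nat_lit 4) (nat_lit 185) (nat_lit 186) = true := by decide +kernel
def p12_13_0_186 : pfC (piC [(nat_lit 39120232), (nat_lit 25510466), (nat_lit 18971201), (nat_lit 12765436)] (nat_lit 26172960)) p12_13_0 (nat_lit 4) (nat_lit 186) (nat_lit 187) = true := by decide +kernel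
def p12_13_0_187 : pfC (piC [(nat_lit 39120232), (nat_lit 25510466), (nat_lit 18971201), (nat_lit 12765436)] (nat_lit 26172960)) p12_13_0 (nat_lit 4) (nat_lit 187) (nat_lit 188) = true := by decide +kernel
def p12_13_0_188 : pfC (piC [(nat_lit 39120232), (nat_lit 25510466), (nat_lit 18971201), (nat_lit 12765436)] (nat_lit 26172960)) p12_13_0 (nat_lit 4) (nat_lit 188) (nat_lit 189) = true := by decide +kernel
def p12_13_0_189 : pfC (piC [(nat_lit 39120232), (nat_lit 25510466), (nat_lit 18971201), (nat_lit 12765436)] (nat_lit 26172960)) p12_13_0 (nat_lit 4) (nat_lit 189) (nat_lit 190) = true := by decide +kernel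
def p12_13_0_190 : pfC (piC [(nat_lit 39120232), (nat_lit 25510466), (nat_lit 18971201), (nat_lit 12765436)] (nat_lit 26172960)) p12_13_0 (nat_lit 4) (nat_lit 190) (nat_lit 191) = true := by decide +kernel
def p12_13_0_191 : pfC (piC [(nat_lit 39120232), (nat_lit 25510466), (nat_lit 18971201), (nat_lit 12765436)] (nat_lit 26172960)) p12_13_0 (nat_lit 4) (nat_lit 191) (nat_lit 192) = true := by decide +kernel
def p12_13_0_192 : pfC (piC [(nat_lit 39120232), (nat_lit 25510466), (nat_lit 18971201), (nat_lit 12765436)] (nat_lit 26172960)) p12_13_0 (nat_lit 4) (nat_lit 192) (nat_lit 193) = true := by decide +kernel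
def p12_13_0_193 : pfC (piC [(nat_lit 39120232), (nat_lit 25510466), (nat_lit 18971201), (nat_lit 12765436)] (nat_lit 26172960)) p12_13_0 (nat_lit 4) (nat_lit 193) (nat_lit 194) = true := by decide +kernel
def p12_13_0_194 : pfC (piC [(nat_lit 39120232), (nat_lit 25510466), (nat_lit 18971201), (nat_lit 12765436)] (nat_lit 26172960)) p12_13_0 (nat_lit 4) (nat_lit 194) (nat_lit 195) = true := by decide +kernel
def p12_13_0_195 : pfC (piC [(nat_lit 39120232), (nat_lit 25510466), (nat_lit 18971201), (nat_lit 12765436)] (nat_lit 26172960)) p12_13_0 (nat_lit 4) (nat_lit 195) (nat_lit 196) = true := by decide +kernel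
def p12_13_0_196 : pfC (piC [(nat_lit 39120232), (nat_lit 25510466), (nat_lit 18971201), (nat_lit 12765436)] (nat_lit 26172960)) p12_13_0 (nat_lit 4) (nat_lit 196) (nat_lit 197) = true := by decide +kernel
def p12_13_0_197 : pfC (piC [(nat_lit 39120232), (nat_lit 25510466), (nat_lit 18971201), (nat_lit 12765436)] (nat_lit 26172960)) p12_13_0 (nat_lit 4) (nat_lit 197) (nat_lit 198) = true := by decide +kernel
def p12_13_0_198 : pfC (piC [(nat_lit 39120232), (nat_lit 25510466), (nat_lit 18971201), (nat_lit 12765436)] (nat_lit 26172960)) p12_13_0 (nat_lit 4) (nat_lit 198) (nat_lit 199) = true := by decide +kernel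
def p12_13_0_199 : pfC (piC [(nat_lit 39120232), (nat_lit 25510466), (nat_lit 18971201), (nat_lit 12765436)] (nat_lit 26172960)) p12_13_0 (nat_lit 4) (nat_lit 199) (nat_lit 200) = true := by decide +kernel
def p12_13_0_200 : pfC (piC [(nat_lit 39120232), (nat_lit 25510466), (nat_lit 18971201), (nat_lit 12765436)] (nat_lit 26172960)) p12_13_0 (nat_lit 4) (nat_lit 200) (nat_lit 201) = true := by decide +kernel
def p12_13_0_201 : pfC (piC [(nat_lit 39120232), (nat_lit 25510466), (nat_lit 18971201), (nat_lit 12765436)] (nat_lit 26172960)) p12_13_0 (nat_lit 4) (nat_lit 201) (nat_lit 202) = true := by decide +kernel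
def p12_13_0_202 : pfC (piC [(nat_lit 39120232), (nat_lit 25510466), (nat_lit 18971201), (nat_lit 12765436)] (nat_lit 26172960)) p12_13_0 (nat_lit 4) (nat_lit 202) (nat_lit 203) = true := by decide +kernel
def p12_13_0_203 : pfC (piC [(nat_lit 39120232), (nat_lit 25510466), (nat_lit 18971201), (nat_lit 12765436)] (nat_lit 26172960)) p12_13_0 (nat_lit 4) (nat_lit 203) (nat_lit 204) = true := by decide +kernel
def p12_13_0_204 : pfC (piC [(nat_lit 39120232), (nat_lit 25510466), (nat_lit 18971201), (nat_lit 12765436)] (nat_lit 26172960)) p12_13_0 (nat_lit 4) (nat_lit 204) (nat_lit 205) = true := by decide +kernel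
def p12_13_0_205 : pfC (piC [(nat_lit 39120232), (nat_lit 25510466), (nat_lit 18971201), (nat_lit 12765436)] (nat_lit 26172960)) p12_13_0 (nat_lit 4) (nat_lit 205) (nat_lit 206) = true := by decide +kernel
def p12_13_0_206 : pfC (piC [(nat_lit 39120232), (nat_lit 25510466), (nat_lit 18971201), (nat_lit 12765436)] (nat_lit 26172960)) p12_13_0 (nat_lit 4) (nat_lit 206) (nat_lit 207) = true := by decide +kernel
def p12_13_0_207 : pfC (piC [(nat_lit 39120232), (nat_lit 25510466), (nat_lit 18971201), (nat_lit 12765436)] (nat_lit 26172960)) p12_13_0 (nat_lit 4) (nat_lit 207) (nat_lit 208) = true := by decide +kernel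
def p12_13_0_208 : pfC (piC [(nat_lit 39120232), (nat_lit 25510466), (nat_lit 18971201), (nat_lit 12765436)] (nat_lit 26172960)) p12_13_0 (nat_lit 4) (nat_lit 208) (nat_lit 209) = true := by decide +kernel
def p12_13_0_209 : pfC (piC [(nat_lit 39120232), (nat_lit 25510466), (nat_lit 18971201), (nat_lit 12765436)] (nat_lit 26172960)) p12_13_0 (nat_lit 4) (nat_lit 209) (nat_lit 210) = true := by decide +kernel
def p12_13_0_210 : pfC (piC [(nat_lit 39120232), (nat_lit 25510466), (nat_lit 18971201), (nat_lit 12765436)] (nat_lit 26172960)) p12_13_0 (nat_lit 4) (nat_lit 210) (nat_lit 211) = true := by decide +kernel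
def p12_13_0_211 : pfC (piC [(nat_lit 39120232), (nat_lit 25510466), (nat_lit 18971201), (nat_lit 12765436)] (nat_lit 26172960)) p12_13_0 (nat_lit 4) (nat_lit 211) (nat_lit 212) = true := by decide +kernel
def p12_13_0_212 : pfC (piC [(nat_lit 39120232), (nat_lit 25510466), (nat_lit 18971201), (nat_lit 12765436)] (nat_lit 26172960)) p12_13_0 (nat_lit 4) (nat_lit 212) (nat_lit 213) = true := by decide +kernel
def p12_13_0_213 : pfC (piC [(nat_lit 39120232), (nat_lit 25510466), (nat_lit 18971201), (nat_lit 12765436)] (nat_lit 26172960)) p12_13_0 (nat_lit 4) (nat_lit 213) (nat_lit 214) = true := by decide +kernel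
def p12_13_0_214 : pfC (piC [(nat_lit 39120232), (nat_lit 25510466), (nat_lit 18971201), (nat_lit 12765436)] (nat_lit 26172960)) p12_13_0 (nat_lit 4) (nat_lit 214) (nat_lit 215) = true := by decide +kernel
def p12_13_0_215 : pfC (piC [(nat_lit 39120232), (nat_lit 25510466), (nat_lit 18971201), (nat_lit 12765436)] (nat_lit 26172960)) p12_13_0 (nat_lit 4) (nat_lit 215) (nat_lit 216) = true := by decide +kernel
def p12_13_0_216 : pfC (piC [(nat_lit 39120232), (nat_lit 25510466), (nat_lit 18971201), (nat_lit 12765436)] (nat_lit 26172960)) p12_13_0 (nat_lit 4) (nat_lit 216) (nat_lit 217) = true := by decide +kernel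
def p12_13_0_217 : pfC (piC [(nat_lit 39120232), (nat_lit 25510466), (nat_lit 18971201), (nat_lit 12765436)] (nat_lit 26172960)) p12_13_0 (nat_lit 4) (nat_lit 217) (nat_lit 218) = true := by decide +kernel
def p12_13_0_218 : pfC (piC [(nat_lit 39120232), (nat_lit 25510466), (nat_lit 18971201), (nat_lit 12765436)] (nat_lit 26172960)) p12_13_0 (nat_lit 4) (nat_lit 218) (nat_lit 219) = true := by decide +kernel
def p12_13_0_219 : pfC (piC [(nat_lit 39120232), (nat_lit 25510466), (nat_lit 18971201), (nat_lit 12765436)] (nat_lit 26172960)) p12_13_0 (nat_lit 4) (nat_lit 219) (nat_lit 220) = true := by decide +kernel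
def p12_13_0_220 : pfC (piC [(nat_lit 39120232), (nat_lit 25510466), (nat_lit 18971201), (nat_lit 12765436)] (nat_lit 26172960)) p12_13_0 (nat_lit 4) (nat_lit 220) (nat_lit 221) = true := by decide +kernel
def p12_13_0_221 : pfC (piC [(nat_lit 39120232), (nat_lit 25510466), (nat_lit 18971201), (nat_lit 12765436)] (nat_lit 26172960)) p12_13_0 (nat_lit 4) (nat_lit 221) (nat_lit 222) = true := by decide +kernel
def p12_13_0_222 : pfC (piC [(nat_lit 39120232), (nat_lit 25510466), (nat_lit 18971201), (nat_lit 12765436)] (nat_lit 26172960)) p12_13_0 (nat_lit 4) (nat_lit 222) (nat_lit 223) = true := by decide +kernel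
def p12_13_0_223 : pfC (piC [(nat_lit 39120232), (nat_lit 25510466), (nat_lit 18971201), (nat_lit 12765436)] (nat_lit 26172960)) p12_13_0 (nat_lit 4) (nat_lit 223) (nat_lit 224) = true := by decide +kernel
def p12_13_0_224 : pfC (piC [(nat_lit 39120232), (nat_lit 25510466), (nat_lit 18971201), (nat_lit 12765436)] (nat_lit 26172960)) p12_13_0 (nat_lit 4) (nat_lit 224) (nat_lit 225) = true := by decide +kernel
def p12_13_0_225 : pfC (piC [(nat_lit 39120232), (nat_lit 25510466), (nat_lit 18971201), (nat_lit 12765436)] (nat_lit 26172960)) p12_13_0 (nat_lit 4) (nat_lit 225) (nat_lit 226) = true := by decide +kernel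
def p12_13_0_226 : pfC (piC [(nat_lit 39120232), (nat_lit 25510466), (nat_lit 18971201), (nat_lit 12765436)] (nat_lit 26172960)) p12_13_0 (nat_lit 4) (nat_lit 226) (nat_lit 227) = true := by decide +kernel
def p12_13_0_227 : pfC (piC [(nat_lit 39120232), (nat_lit 25510466), (nat_lit 18971201), (nat_lit 12765436)] (nat_lit 26172960)) p12_13_0 (nat_lit 4) (nat_lit 227) (nat_lit 228) = true := by decide +kernel
def p12_13_0_228 : pfC (piC [(nat_lit 39120232), (nat_lit 25510466), (nat_lit 18971201), (nat_lit 12765436)] (nat_lit 26172960)) p12_13_0 (nat_lit 4) (nat_lit 228) (nat_lit 229) = true := by decide +kernel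
def p12_13_0_229 : pfC (piC [(nat_lit 39120232), (nat_lit 25510466), (nat_lit 18971201), (nat_lit 12765436)] (nat_lit 26172960)) p12_13_0 (nat_lit 4) (nat_lit 229) (nat_lit 230) = true := by decide +kernel
def p12_13_0_230 : pfC (piC [(nat_lit 39120232), (nat_lit 25510466), (nat_lit 18971201), (nat_lit 12765436)] (nat_lit 26172960)) p12_13_0 (nat_lit 4) (nat_lit 230) (nat_lit 231) = true := by decide +kernel
def p12_13_0_231 : pfC (piC [(nat_lit 39120232), (nat_lit 25510466), (nat_lit 18971201), (nat_lit 12765436)] (nat_lit 26172960)) p12_13_0 (nat_lit 4) (nat_lit 231) (nat_lit 232) = true := by decide +kernel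
def p12_13_0_232 : pfC (piC [(nat_lit 39120232), (nat_lit 25510466), (nat_lit 18971201), (nat_lit 12765436)] (nat_lit 26172960)) p12_13_0 (nat_lit 4) (nat_lit 232) (nat_lit 233) = true := by decide +kernel
def p12_13_0_233 : pfC (piC [(nat_lit 39120232), (nat_lit 25510466), (nat_lit 18971201), (nat_lit 12765436)] (nat_lit 26172960)) p12_13_0 (nat_lit 4) (nat_lit 233) (nat_lit 234) = true := by decide +kernel
def p12_13_0_234 : pfC (piC [(nat_lit 39120232), (nat_lit 25510466), (nat_lit 18971201), (nat_lit 12765436)] (nat_lit 26172960)) p12_13_0 (nat_lit 4) (nat_lit 234) (nat_lit 235) = true := by decide +kernel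
def p12_13_0_235 : pfC (piC [(nat_lit 39120232), (nat_lit 25510466), (nat_lit 18971201), (nat_lit 12765436)] (nat_lit 26172960)) p12_13_0 (nat_lit 4) (nat_lit 235) (nat_lit 236) = true := by decide +kernel
def p12_13_0_236 : pfC (piC [(nat_lit 39120232), (nat_lit 25510466), (nat_lit 18971201), (nat_lit 12765436)] (nat_lit 26172960)) p12_13_0 (nat_lit 4) (nat_lit 236) (nat_lit 237) = true := by decide +kernel
def p12_13_0_237 : pfC (piC [(nat_lit 39120232), (nat_lit 25510466), (nat_lit 18971201), (nat_lit 12765436)] (nat_lit 26172960)) p12_13_0 (nat_lit 4) (nat_lit 237) (nat_lit 238) = true := by decide +kernel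
def p12_13_0_238 : pfC (piC [(nat_lit 39120232), (nat_lit 25510466), (nat_lit 18971201), (nat_lit 12765436)] (nat_lit 26172960)) p12_13_0 (nat_lit 4) (nat_lit 238) (nat_lit 239) = true := by decide +kernel
def p12_13_0_239 : pfC (piC [(nat_lit 39120232), (nat_lit 25510466), (nat_lit 18971201), (nat_lit 12765436)] (nat_lit 26172960)) p12_13_0 (nat_lit 4) (nat_lit 239) (nat_lit 240) = true := by decide +kernel
def p12_13_0_240 : pfC (piC [(nat_lit 39120232), (nat_lit 25510466), (nat_lit 18971201), (nat_lit 12765436)] (nat_lit 26172960)) p12_13_0 (nat_lit 4) (nat_lit 240) (nat_lit 241) = true := by decide +kernel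
def p12_13_0_241 : pfC (piC [(nat_lit 39120232), (nat_lit 25510466), (nat_lit 18971201), (nat_lit 12765436)] (nat_lit 26172960)) p12_13_0 (nat_lit 4) (nat_lit 241) (nat_lit 242) = true := by decide +kernel
def p12_13_0_242 : pfC (piC [(nat_lit 39120232), (nat_lit 25510466), (nat_lit 18971201), (nat_lit 12765436)] (nat_lit 26172960)) p12_13_0 (nat_lit 4) (nat_lit 242) (nat_lit 243) = true := by decide +kernel
def p12_13_0_243 : pfC (piC [(nat_lit 39120232), (nat_lit 25510466), (nat_lit 18971201), (nat_lit 12765436)] (nat_lit 26172960)) p12_13_0 (nat_lit 4) (nat_lit 243) (nat_lit 244) = true := by decide +kernel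
def p12_13_0_244 : pfC (piC [(nat_lit 39120232), (nat_lit 25510466), (nat_lit 18971201), (nat_lit 12765436)] (nat_lit 26172960)) p12_13_0 (nat_lit 4) (nat_lit 244) (nat_lit 245) = true := by decide +kernel
def p12_13_0_245 : pfC (piC [(nat_lit 39120232), (nat_lit 25510466), (nat_lit 18971201), (nat_lit 12765436)] (nat_lit 26172960)) p12_13_0 (nat_lit 4) (nat_lit 245) (nat_lit 246) = true := by decide +kernel
def p12_13_0_246 : pfC (piC [(nat_lit 39120232), (nat_lit 25510466), (nat_lit 18971201), (nat_lit 12765436)] (nat_lit 26172960)) p12_13_0 (nat_lit 4) (nat_lit 246) (nat_lit 247) = true := by decide +kernel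
def p12_13_0_247 : pfC (piC [(nat_lit 39120232), (nat_lit 25510466), (nat_lit 18971201), (nat_lit 12765436)] (nat_lit 26172960)) p12_13_0 (nat_lit 4) (nat_lit 247) (nat_lit 248) = true := by decide +kernel
def p12_13_0_248 : pfC (piC [(nat_lit 39120232), (nat_lit 25510466), (nat_lit 18971201), (nat_lit 12765436)] (nat_lit 26172960)) p12_13_0 (nat_lit 4) (nat_lit 248) (nat_lit 249) = true := by decide +kernel
def p12_13_0_249 : pfC (piC [(nat_lit 39120232), (nat_lit 25510466), (nat_lit 18971201), (nat_lit 12765436)] (nat_lit 26172960)) p12_13_0 (nat_lit 4) (nat_lit 249) (nat_lit 250) = true := by decide +kernel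
def p12_13_0_250 : pfC (piC [(nat_lit 39120232), (nat_lit 25510466), (nat_lit 18971201), (nat_lit 12765436)] (nat_lit 26172960)) p12_13_0 (nat_lit 4) (nat_lit 250) (nat_lit 251) = true := by decide +kernel
def p12_13_0_251 : pfC (piC [(nat_lit 39120232), (nat_lit 25510466), (nat_lit 18971201), (nat_lit 12765436)] (nat_lit 26172960)) p12_13_0 (nat_lit 4) (nat_lit 251) (nat_lit 252) = true := by decide +kernel
def p12_13_0_252 : pfC (piC [(nat_lit 39120232), (nat_lit 25510466), (nat_lit 18971201), (nat_lit 12765436)] (nat_lit 26172960)) p12_13_0 (nat_lit 4) (nat_lit 252) (nat_lit 253) = true := by decide +kernel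
theorem p12_13_0_T : PfS (PiF n12_13.reverse (nat_lit 26172960)) p12_13_0 (nat_lit 4) [] 0 :=
  pftab_of (los := [(nat_lit 39120232), (nat_lit 25510466), (nat_lit 18971201), (nat_lit 12765436)]) (by decide +kernel) (hi := (nat_lit 253)) (PfP.trans (PfP.trans (PfP.trans (PfP.trans (PfP.trans (PfP.trans (PfP.trans (PfP.trans (PfP.trans (PfP.trans (PfP.trans (PfP.trans (PfP.trans (PfP.trans (PfP.trans (PfP.trans (PfP.trans (PfP.trans (PfP.trans (PfP.trans (PfP.trans (PfP.trans (PfP.trans (PfP.trans (PfP.trans (PfP.trans (PfP.trans (PfP.trans (PfP.trans (PfP.trans (PfP.trans (PfP.trans (PfP.trans (PfP.trans (PfP.trans (PfP.trans (PfP.trans (PfP.trans (PfP.trans (PfP.trans (PfP.trans (PfP.trans (PfP.trans (PfP.trans (PfP.trans (PfP.trans (PfP.trans (PfP.trans (PfP.trans (PfP.trans (PfP.trans (PfP.trans (PfP.trans (PfP.trans (PfP.trans (PfP.trans (PfP.trans (PfP.trans (PfP.trans (PfP.trans (PfP.trans (PfP.trans (PfP.trans (PfP.trans (PfP.trans (PfP.trans (PfP.trans (PfP.trans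 (PfP.trans (PfP.trans (PfP.trans (PfP.trans (PfP.trans (PfP.trans (PfP.trans (PfP.trans (PfP.trans (PfP.trans (PfP.trans (PfP.trans (PfP.trans (PfP.trans (PfP.trans (PfP.trans (PfP.trans (PfP.trans (PfP.trans (PfP.trans (PfP.trans (PfP.trans (PfP.trans (PfP.trans (PfP.trans (PfP.trans (PfP.trans (PfP.trans (PfP.trans (PfP.trans (PfP.trans (PfP.trans (PfP.trans (PfP.trans (PfP.trans (PfP.trans (PfP.trans (PfP.trans (PfP.trans (PfP.trans (PfP.trans
 (PfP.trans (PfP.trans (PfP.trans (PfP.trans (PfP.trans (PfP.trans (PfP.trans (PfP.trans (PfP.trans (PfP.trans (PfP.trans (PfP.trans (PfP.trans (PfP.trans (PfP.trans (PfP.trans (PfP.trans (PfP.trans (PfP.trans (PfP.trans (PfP.trans (PfP.trans (PfP.trans (PfP.trans (PfP.trans (PfP.trans (PfP.trans (PfP.trans (PfP.trans (PfP.trans (PfP.trans (PfP.trans (PfP.trans (PfP.trans (PfP.trans (PfP.trans (PfP.trans (PfP.trans (PfP.trans (PfP.trans (PfP.trans (PfP.trans (PfP.trans (PfP.trans (PfP.trans (PfP.trans (PfP.trans (PfP.trans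 (PfP.trans (PfP.trans (PfP.trans (PfP.trans (PfP.trans (PfP.trans (PfP.trans (PfP.trans (PfP.trans (PfP.trans (PfP.trans (PfP.trans (PfP.trans (PfP.trans (PfP.trans (PfP.trans (PfP.trans (PfP.trans (PfP.trans (PfP.trans (PfP.trans (PfP.trans (PfP.trans (PfP.trans (PfP.trans (PfP.trans (PfP.trans (PfP.trans (PfP.trans (PfP.trans (PfP.trans (PfP.trans (PfP.trans (PfP.trans (PfP.trans (PfP.trans (PfP.trans (PfP.trans (PfP.trans (PfP.trans (PfP.trans (PfP.trans (PfP.trans (PfP.trans (PfP.trans (PfP.trans (PfP.trans (PfP.trans (PfP.trans (PfP.trans (PfP.trans (PfP.trans (PfP.trans (PfP.trans (PfP.trans (PfP.trans (PfP.trans (PfP.trans (PfP.trans (PfP.trans (PfP.trans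
 (PfP.trans (PfP.trans (PfP.trans (PfP.trans (PfP.trans (PfP.trans (PfP.trans (PfP.trans (PfP.trans (PfP.trans (PfP.trans (PfP.trans (PfP.trans (PfP.trans (PfP.trans (PfP.trans (PfP.trans (PfP.trans (PfP.trans (PfP.trans (PfP.trans (PfP.trans (PfP.trans (PfP.trans (PfP.trans (PfP.trans (PfP.trans (PfP.trans (PfP.trans (PfP.trans (PfP.trans (PfP.trans (PfP.trans (PfP.trans (pfC_sound p12_13_0_0) (pfC_sound p12_13_0_1)) (pfC_sound p12_13_0_2)) (pfC_sound p12_13_0_3)) (pfC_sound p12_13_0_4)) (pfC_sound p12_13_0_5)) (pfC_sound p12_13_0_6)) (pfC_sound p12_13_0_7)) (pfC_sound p12_13_0_8)) (pfC_sound p12_13_0_9)) (pfC_sound p12_13_0_10)) (pfC_sound p12_13_0_11)) (pfC_sound p12_13_0_12)) (pfC_sound p12_13_0_13)) (pfC_sound p12_13_0_14)) (pfC_sound p12_13_0_15)) (pfC_sound p12_13_0_16)) (pfC_sound p12_13_0_17)) (pfC_sound p12_13_0_18)) (pfC_sound p12_13_0_19)) (pfC_sound p12_13_0_20)) (pfC_sound p12_13_0_21)) (pfC_sound p12_13_0_22)) (pfC_sound p12_13_0_23)) (pfC_sound p12_13_0_24))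 (pfC_sound p12_13_0_25)) (pfC_sound p12_13_0_26)) (pfC_sound p12_13_0_27)) (pfC_sound p12_13_0_28)) (pfC_sound p12_13_0_29)) (pfC_sound p12_13_0_30)) (pfC_sound p12_13_0_31)) (pfC_sound p12_13_0_32)) (pfC_sound
 p12_13_0_33)) (pfC_sound p12_13_0_34)) (pfC_sound p12_13_0_35)) (pfC_sound p12_13_0_36)) (pfC_sound p12_13_0_37)) (pfC_sound p12_13_0_38)) (pfC_sound p12_13_0_39)) (pfC_sound p12_13_0_40)) (pfC_sound p12_13_0_41)) (pfC_sound p12_13_0_42)) (pfC_sound p12_13_0_43)) (pfC_sound p12_13_0_44)) (pfC_sound p12_13_0_45)) (pfC_sound p12_13_0_46)) (pfC_sound p12_13_0_47)) (pfC_sound p12_13_0_48)) (pfC_sound p12_13_0_49)) (pfC_sound p12_13_0_50)) (pfC_sound p12_13_0_51)) (pfC_sound p12_13_0_52)) (pfC_sound p12_13_0_53)) (pfC_sound p12_13_0_54)) (pfC_sound p12_13_0_55)) (pfC_sound p12_13_0_56)) (pfC_sound p12_13_0_57)) (pfC_sound p12_13_0_58)) (pfC_sound p12_13_0_59)) (pfC_sound p12_13_0_60)) (pfC_sound p12_13_0_61)) (pfC_sound p12_13_0_62)) (pfC_sound p12_13_0_63)) (pfC_sound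 p12_13_0_64)) (pfC_sound p12_13_0_65)) (pfC_sound p12_13_0_66)) (pfC_sound p12_13_0_67)) (pfC_sound p12_13_0_68)) (pfC_sound p12_13_0_69)) (pfC_sound p12_13_0_70)) (pfC_sound p12_13_0_71)) (pfC_sound p12_13_0_72)) (pfC_sound p12_13_0_73)) (pfC_sound p12_13_0_74)) (pfC_sound p12_13_0_75)) (pfC_sound p12_13_0_76)) (pfC_sound p12_13_0_77)) (pfC_sound p12_13_0_78)) (pfC_sound p12_13_0_79)) (pfC_sound p12_13_0_80)) (pfC_sound
 p12_13_0_81)) (pfC_sound p12_13_0_82)) (pfC_sound p12_13_0_83)) (pfC_sound p12_13_0_84)) (pfC_sound p12_13_0_85)) (pfC_sound p12_13_0_86)) (pfC_sound p12_13_0_87)) (pfC_sound p12_13_0_88)) (pfC_sound p12_13_0_89)) (pfC_sound p12_13_0_90)) (pfC_sound p12_13_0_91)) (pfC_sound p12_13_0_92)) (pfC_sound p12_13_0_93)) (pfC_sound p12_13_0_94)) (pfC_sound p12_13_0_95)) (pfC_sound p12_13_0_96)) (pfC_sound p12_13_0_97)) (pfC_sound p12_13_0_98)) (pfC_sound p12_13_0_99)) (pfC_sound p12_13_0_100)) (pfC_sound p12_13_0_101)) (pfC_sound p12_13_0_102)) (pfC_sound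 p12_13_0_103)) (pfC_sound p12_13_0_104)) (pfC_sound p12_13_0_105)) (pfC_sound p12_13_0_106)) (pfC_sound p12_13_0_107)) (pfC_sound p12_13_0_108)) (pfC_sound p12_13_0_109)) (pfC_sound p12_13_0_110)) (pfC_sound p12_13_0_111)) (pfC_sound p12_13_0_112)) (pfC_sound p12_13_0_113)) (pfC_sound p12_13_0_114)) (pfC_sound p12_13_0_115)) (pfC_sound p12_13_0_116)) (pfC_sound p12_13_0_117)) (pfC_sound p12_13_0_118)) (pfC_sound p12_13_0_119)) (pfC_sound p12_13_0_120)) (pfC_sound p12_13_0_121)) (pfC_sound p12_13_0_122)) (pfC_sound p12_13_0_123)) (pfC_sound p12_13_0_124)) (pfC_sound p12_13_0_125)) (pfC_sound p12_13_0_126)) (pfC_sound p12_13_0_127))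
 (pfC_sound p12_13_0_128)) (pfC_sound p12_13_0_129)) (pfC_sound p12_13_0_130)) (pfC_sound p12_13_0_131)) (pfC_sound p12_13_0_132)) (pfC_sound p12_13_0_133)) (pfC_sound p12_13_0_134)) (pfC_sound p12_13_0_135)) (pfC_sound p12_13_0_136)) (pfC_sound p12_13_0_137)) (pfC_sound p12_13_0_138)) (pfC_sound p12_13_0_139)) (pfC_sound p12_13_0_140)) (pfC_sound p12_13_0_141)) (pfC_sound p12_13_0_142)) (pfC_sound p12_13_0_143)) (pfC_sound p12_13_0_144)) (pfC_sound p12_13_0_145)) (pfC_sound p12_13_0_146)) (pfC_sound p12_13_0_147)) (pfC_sound p12_13_0_148)) (pfC_sound p12_13_0_149)) (pfC_sound p12_13_0_150)) (pfC_sound p12_13_0_151)) (pfC_sound p12_13_0_152)) (pfC_sound p12_13_0_153)) (pfC_sound p12_13_0_154)) (pfC_sound p12_13_0_155)) (pfC_sound p12_13_0_156)) (pfC_sound p12_13_0_157)) (pfC_sound p12_13_0_158)) (pfC_sound p12_13_0_159)) (pfC_sound p12_13_0_160)) (pfC_sound p12_13_0_161)) (pfC_sound p12_13_0_162)) (pfC_sound p12_13_0_163)) (pfC_sound p12_13_0_164)) (pfC_sound p12_13_0_165))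 (pfC_sound p12_13_0_166)) (pfC_sound p12_13_0_167)) (pfC_sound p12_13_0_168)) (pfC_sound p12_13_0_169)) (pfC_sound p12_13_0_170)) (pfC_sound p12_13_0_171)) (pfC_sound p12_13_0_172)) (pfC_sound p12_13_0_173))
 (pfC_sound p12_13_0_174)) (pfC_sound p12_13_0_175)) (pfC_sound p12_13_0_176)) (pfC_sound p12_13_0_177)) (pfC_sound p12_13_0_178)) (pfC_sound p12_13_0_179)) (pfC_sound p12_13_0_180)) (pfC_sound p12_13_0_181)) (pfC_sound p12_13_0_182)) (pfC_sound p12_13_0_183)) (pfC_sound p12_13_0_184)) (pfC_sound p12_13_0_185)) (pfC_sound p12_13_0_186)) (pfC_sound p12_13_0_187)) (pfC_sound p12_13_0_188)) (pfC_sound p12_13_0_189)) (pfC_sound p12_13_0_190)) (pfC_sound p12_13_0_191)) (pfC_sound p12_13_0_192)) (pfC_sound p12_13_0_193)) (pfC_sound p12_13_0_194)) (pfC_sound p12_13_0_195)) (pfC_sound p12_13_0_196)) (pfC_sound p12_13_0_197)) (pfC_sound p12_13_0_198)) (pfC_sound p12_13_0_199)) (pfC_sound p12_13_0_200)) (pfC_sound p12_13_0_201)) (pfC_sound p12_13_0_202)) (pfC_sound p12_13_0_203))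 (pfC_sound p12_13_0_204)) (pfC_sound p12_13_0_205)) (pfC_sound p12_13_0_206)) (pfC_sound p12_13_0_207)) (pfC_sound p12_13_0_208)) (pfC_sound p12_13_0_209)) (pfC_sound p12_13_0_210)) (pfC_sound p12_13_0_211)) (pfC_sound p12_13_0_212)) (pfC_sound p12_13_0_213)) (pfC_sound p12_13_0_214)) (pfC_sound p12_13_0_215)) (pfC_sound p12_13_0_216)) (pfC_sound p12_13_0_217)) (pfC_sound p12_13_0_218)) (pfC_sound p12_13_0_219))
 (pfC_sound p12_13_0_220)) (pfC_sound p12_13_0_221)) (pfC_sound p12_13_0_222)) (pfC_sound p12_13_0_223)) (pfC_sound p12_13_0_224)) (pfC_sound p12_13_0_225)) (pfC_sound p12_13_0_226)) (pfC_sound p12_13_0_227)) (pfC_sound p12_13_0_228)) (pfC_sound p12_13_0_229)) (pfC_sound p12_13_0_230)) (pfC_sound p12_13_0_231)) (pfC_sound p12_13_0_232)) (pfC_sound p12_13_0_233)) (pfC_sound p12_13_0_234)) (pfC_sound p12_13_0_235)) (pfC_sound p12_13_0_236)) (pfC_sound p12_13_0_237)) (pfC_sound p12_13_0_238)) (pfC_sound p12_13_0_239)) (pfC_sound p12_13_0_240)) (pfC_sound p12_13_0_241))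 (pfC_sound p12_13_0_242)) (pfC_sound p12_13_0_243)) (pfC_sound p12_13_0_244)) (pfC_sound p12_13_0_245)) (pfC_sound p12_13_0_246)) (pfC_sound p12_13_0_247)) (pfC_sound p12_13_0_248)) (pfC_sound p12_13_0_249)) (pfC_sound p12_13_0_250)) (pfC_sound p12_13_0_251)) (pfC_sound p12_13_0_252)) (by decide +kernel)

def z12_13_0 : zOK yB12_13 (nat_lit 0) (nat_lit 0) (nat_lit 400) (nat_lit 26172960) (nat_lit 10906443) = true := by decide +kernel
def g12_13_0 : gOK yB12_13.x P12_13 (nat_lit 1414) (q12_13 :: r12_13) (nat_lit 0) (nat_lit 0) (nat_lit 1) (nat_lit 400) (nat_lit 0) (nat_lit 11000000) (nat_lit 12712500) (nat_lit 12712500) [(nat_lit 800), (nat_lit 1400), (nat_lit 2200)] = true := by decide +kernel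
def v12_13_0 : ivC P12_13 s12_13 w12_13 n12_13 (nat_lit 4) (nat_lit 5400) (nat_lit 0) (nat_lit 0) f160_1_0 f168_1_0 (nat_lit 1) (nat_lit 400) f160_1_400 f168_1_400 (nat_lit 26172960) (nat_lit 10906443) p12_13_0 = true := by decide +kernel
def p12_13_1 : PF := (PF.cons (PF.cons (PF.cons (PF.cons (PF.leaf (nat_lit 2003221) (nat_lit 9236432) (nat_lit 57872380) (nat_lit 9236432) [(nat_lit 0), (nat_lit 0), (nat_lit 0), (nat_lit 0)]) (PF.cons (PF.leaf (nat_lit 2167002) (nat_lit 277766) (nat_lit 57567261) (nat_lit 9263785) [(nat_lit 277766), (nat_lit 0), (nat_lit 0), (nat_lit 0)]) (PF.cons (PF.leaf (nat_lit 2361475) (nat_lit 302628) (nat_lit 57209941) (nat_lit 9293613) [(nat_lit 302628), (nat_lit 0), (nat_lit 0), (nat_lit 0)]) (PF.cons (PF.leaf (nat_lit 2580400) (nat_lit 324866) (nat_lit 56809880) (nat_lit 9324332) [(nat_lit 324866), (nat_lit 0), (nat_lit 0), (nat_lit 0)]) (PF.cons (PF.leaf (nat_lit 2820434) (nat_lit 345065) (nat_lit 56373801) (nat_lit 9354751) [(nat_lit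 345065), (nat_lit 0), (nat_lit 0), (nat_lit 0)]) (PF.cons (PF.leaf (nat_lit 3079004) (nat_lit 363590) (nat_lit 55906915) (nat_lit 9383943) [(nat_lit 363590), (nat_lit 0), (nat_lit 0), (nat_lit 0)]) (PF.cons (PF.leaf (nat_lit 3354033) (nat_lit 380689) (nat_lit 55413497) (nat_lit 9411178) [(nat_lit 380689), (nat_lit 0), (nat_lit 0), (nat_lit 0)]) (PF.cons (PF.leaf (nat_lit 3643721) (nat_lit 396535) (nat_lit 54897179) (nat_lit 9435882) [(nat_lit 396535), (nat_lit 0), (nat_lit
 0), (nat_lit 0)]) (PF.cons PF.nil (PF.cons PF.nil PF.nil)))))))))) (PF.cons (PF.cons (PF.leaf (nat_lit 2564916) (nat_lit 1273504) (nat_lit 56495747) (nat_lit 9339560) [(nat_lit 0), (nat_lit 1273504), (nat_lit 0), (nat_lit 0)]) (PF.cons (PF.leaf (nat_lit 2778349) (nat_lit 336644) (nat_lit 56098597) (nat_lit 9365347) [(nat_lit 336644), (nat_lit 1308223), (nat_lit 0), (nat_lit 0)]) (PF.cons (PF.leaf (nat_lit 3015102) (nat_lit 356126) (nat_lit 55663387) (nat_lit 9390805) [(nat_lit 356126), (nat_lit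 1342366), (nat_lit 0), (nat_lit 0)]) (PF.cons (PF.leaf (nat_lit 3271065) (nat_lit 373918) (nat_lit 55196682) (nat_lit 9414988) [(nat_lit 373918), (nat_lit 1375386), (nat_lit 0), (nat_lit 0)]) (PF.cons (PF.leaf (nat_lit 3543765) (nat_lit 390294) (nat_lit 54703456) (nat_lit 9437185) [(nat_lit 390294), (nat_lit 1406991), (nat_lit 0), (nat_lit 0)]) (PF.cons (PF.leaf (nat_lit 3831191) (nat_lit 405441) (nat_lit 54187724) (nat_lit 9456856) [(nat_lit 405441), (nat_lit 1437022), (nat_lit 0), (nat_lit 0)]) (PF.cons (PF.leaf (nat_lit 4131621) (nat_lit 419492) (nat_lit 53652865) (nat_lit 9473591) [(nat_lit 419492), (nat_lit 1465402), (nat_lit 0), (nat_lit 0)]) (PF.cons PF.nil (PF.cons PF.nil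
 PF.nil))))))))) (PF.cons (PF.cons (PF.leaf (nat_lit 3213763) (nat_lit 1376638) (nat_lit 54935225) (nat_lit 9420311) [(nat_lit 0), (nat_lit 1376638), (nat_lit 0), (nat_lit 0)]) (PF.cons (PF.leaf (nat_lit 3464637) (nat_lit 382919) (nat_lit 54473596) (nat_lit 9439546) [(nat_lit 382919), (nat_lit 1406374), (nat_lit 0), (nat_lit 0)]) (PF.cons (PF.leaf (nat_lit 3733703) (nat_lit 398757) (nat_lit 53984305) (nat_lit 9456844) [(nat_lit 398757), (nat_lit 1435074), (nat_lit 0), (nat_lit 0)]) (PF.cons (PF.leaf (nat_lit 4017883) (nat_lit 413341) (nat_lit 53472145) (nat_lit 9471672) [(nat_lit 413341), (nat_lit 1462485), (nat_lit 0), (nat_lit 0)]) (PF.cons (PF.leaf (nat_lit 4315223) (nat_lit 426825) (nat_lit 52940928) (nat_lit 9483640) [(nat_lit 426825), (nat_lit 1488471), (nat_lit 0), (nat_lit 0)]) (PF.cons (PF.leaf (nat_lit 4624087) (nat_lit 439321) (nat_lit 52393822) (nat_lit 9492468) [(nat_lit 439321), (nat_lit 1512958), (nat_lit 0), (nat_lit 0)]) (PF.cons PF.nil PF.nil)))))))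 (PF.cons (PF.cons (PF.leaf (nat_lit 3925390) (nat_lit 1460765) (nat_lit 53256189) (nat_lit 9470326) [(nat_lit 0), (nat_lit 1460765), (nat_lit 0), (nat_lit 0)]) (PF.cons (PF.leaf (nat_lit 4204544) (nat_lit 420262)
 (nat_lit 52750886) (nat_lit 9480537) [(nat_lit 420262), (nat_lit 1485708), (nat_lit 0), (nat_lit 0)]) (PF.cons (PF.leaf (nat_lit 4497856) (nat_lit 433289) (nat_lit 52225901) (nat_lit 9487991) [(nat_lit 433289), (nat_lit 1509447), (nat_lit 0), (nat_lit 0)]) (PF.cons (PF.leaf (nat_lit 4802958) (nat_lit 445312) (nat_lit 51684859) (nat_lit 9492422) [(nat_lit 445312), (nat_lit 1531864), (nat_lit 0), (nat_lit 0)]) (PF.cons PF.nil PF.nil))))) (PF.cons (PF.cons (PF.leaf (nat_lit 4680734) (nat_lit 1528500) (nat_lit 51507940) (nat_lit 9486868) [(nat_lit 0), (nat_lit 1528500), (nat_lit 0), (nat_lit 0)]) (PF.cons (PF.leaf (nat_lit 4980720) (nat_lit 450539) (nat_lit 50975233) (nat_lit 9487188) [(nat_lit 450539), (nat_lit 1548963), (nat_lit 0), (nat_lit 0)]) (PF.cons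 (PF.leaf (nat_lit 5291680) (nat_lit 461256) (nat_lit 50429093) (nat_lit 9484442) [(nat_lit 461256), (nat_lit 1568190), (nat_lit 0), (nat_lit 0)]) (PF.cons PF.nil PF.nil)))) (PF.cons (PF.cons (PF.leaf (nat_lit 5464322) (nat_lit 1581903) (nat_lit 49728727) (nat_lit 9470568) [(nat_lit 0), (nat_lit 1581903), (nat_lit 0), (nat_lit 0)]) (PF.cons PF.nil PF.nil)) (PF.cons PF.nil (PF.cons PF.nil PF.nil)))))))) (PF.cons (PF.cons (PF.cons
 (PF.leaf (nat_lit 3152354) (nat_lit 3363723) (nat_lit 54333876) (nat_lit 9411213) [(nat_lit 0), (nat_lit 0), (nat_lit 3363723), (nat_lit 0)]) (PF.cons (PF.leaf (nat_lit 3376773) (nat_lit 363662) (nat_lit 53923129) (nat_lit 9426035) [(nat_lit 363662), (nat_lit 0), (nat_lit 3395985), (nat_lit 0)]) (PF.cons (PF.leaf (nat_lit 3623347) (nat_lit 381900) (nat_lit 53476929) (nat_lit 9439663) [(nat_lit 381900), (nat_lit 0), (nat_lit 3428418), (nat_lit 0)]) (PF.cons (PF.leaf (nat_lit 3887795) (nat_lit 398303) (nat_lit 53002251) (nat_lit 9451433) [(nat_lit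 398303), (nat_lit 0), (nat_lit 3460217), (nat_lit 0)]) (PF.cons (PF.leaf (nat_lit 4167522) (nat_lit 413213) (nat_lit 52504246) (nat_lit 9460866) [(nat_lit 413213), (nat_lit 0), (nat_lit 3490848), (nat_lit 0)]) (PF.cons (PF.leaf (nat_lit 4460456) (nat_lit 426856) (nat_lit 51986971) (nat_lit 9467609) [(nat_lit 426856), (nat_lit 0), (nat_lit 3519948), (nat_lit 0)]) (PF.cons (PF.leaf (nat_lit 4764893) (nat_lit 439395) (nat_lit 51453758) (nat_lit 9471411) [(nat_lit 439395), (nat_lit 0), (nat_lit 3547270), (nat_lit 0)]) (PF.cons PF.nil (PF.cons PF.nil PF.nil))))))))) (PF.cons (PF.cons (PF.leaf (nat_lit 3817472) (nat_lit 1442983) (nat_lit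
 52750251) (nat_lit 9450095) [(nat_lit 0), (nat_lit 1442983), (nat_lit 3465482), (nat_lit 0)]) (PF.cons (PF.leaf (nat_lit 4075540) (nat_lit 405029) (nat_lit 52284626) (nat_lit 9457677) [(nat_lit 405029), (nat_lit 1468023), (nat_lit 3493455), (nat_lit 0)]) (PF.cons (PF.leaf (nat_lit 4350445) (nat_lit 419556) (nat_lit 51794185) (nat_lit 9462984) [(nat_lit 419556), (nat_lit 1492005), (nat_lit 3520523), (nat_lit 0)]) (PF.cons (PF.leaf (nat_lit 4639095) (nat_lit 432775) (nat_lit 51283789) (nat_lit 9465678) [(nat_lit 432775), (nat_lit 1514742), (nat_lit 3546277), (nat_lit 0)]) (PF.cons (PF.leaf (nat_lit 4939566) (nat_lit 444871) (nat_lit 50757222) (nat_lit 9465526) [(nat_lit 444871), (nat_lit 1536138), (nat_lit 3570441), (nat_lit 0)]) (PF.cons PF.nil (PF.cons PF.nil PF.nil))))))) (PF.cons (PF.cons (PF.leaf (nat_lit 4534907) (nat_lit 1511572) (nat_lit 51079098) (nat_lit 9459785) [(nat_lit 0), (nat_lit 1511572), (nat_lit 3546783), (nat_lit 0)]) (PF.cons (PF.leaf (nat_lit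 4817646) (nat_lit 437844) (nat_lit 50578405) (nat_lit 9458706) [(nat_lit 437844), (nat_lit 1532249), (nat_lit 3569357), (nat_lit 0)]) (PF.cons (PF.leaf (nat_lit 5113263) (nat_lit 449597) (nat_lit 50060661) (nat_lit
 9454877) [(nat_lit 449597), (nat_lit 1551769), (nat_lit 3590539), (nat_lit 0)]) (PF.cons (PF.leaf (nat_lit 5419423) (nat_lit 460336) (nat_lit 49529413) (nat_lit 9448160) [(nat_lit 460336), (nat_lit 1570053), (nat_lit 3610122), (nat_lit 0)]) (PF.cons PF.nil PF.nil))))) (PF.cons (PF.cons (PF.leaf (nat_lit 5287171) (nat_lit 1565821) (nat_lit 49363930) (nat_lit 9439657) [(nat_lit 0), (nat_lit 1565821), (nat_lit 3607761), (nat_lit 0)]) (PF.cons (PF.leaf (nat_lit 5587614) (nat_lit 464031) (nat_lit 48843005) (nat_lit 9429668) [(nat_lit 464031), (nat_lit 1582470), (nat_lit 3624697), (nat_lit 0)]) (PF.cons PF.nil (PF.cons PF.nil PF.nil)))) (PF.cons (PF.cons (PF.leaf (nat_lit 6060484) (nat_lit 1607575) (nat_lit 47637384) (nat_lit 9391375) [(nat_lit 0), (nat_lit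 1607575), (nat_lit 3649750), (nat_lit 0)]) (PF.cons PF.nil PF.nil)) (PF.cons PF.nil PF.nil)))))) (PF.cons (PF.cons (PF.cons (PF.leaf (nat_lit 4408982) (nat_lit 3532168) (nat_lit 50612887) (nat_lit 9431589) [(nat_lit 0), (nat_lit 0), (nat_lit 3532168), (nat_lit 0)]) (PF.cons (PF.leaf (nat_lit 4671495) (nat_lit 422519) (nat_lit 50150518) (nat_lit 9429207) [(nat_lit 422519), (nat_lit 0), (nat_lit 3553283), (nat_lit 0)]) (PF.cons
 (PF.leaf (nat_lit 4949671) (nat_lit 435851) (nat_lit 49665898) (nat_lit 9424377) [(nat_lit 435851), (nat_lit 0), (nat_lit 3573416), (nat_lit 0)]) (PF.cons (PF.leaf (nat_lit 5240394) (nat_lit 447843) (nat_lit 49163847) (nat_lit 9416921) [(nat_lit 447843), (nat_lit 0), (nat_lit 3592257), (nat_lit 0)]) (PF.cons (PF.leaf (nat_lit 5541706) (nat_lit 458704) (nat_lit 48648056) (nat_lit 9406728) [(nat_lit 458704), (nat_lit 0), (nat_lit 3609604), (nat_lit 0)]) (PF.cons PF.nil (PF.cons PF.nil PF.nil))))))) (PF.cons (PF.cons (PF.leaf (nat_lit 5126127)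 (nat_lit 1548499) (nat_lit 48971509) (nat_lit 9407659) [(nat_lit 0), (nat_lit 1548499), (nat_lit 3590572), (nat_lit 0)]) (PF.cons (PF.leaf (nat_lit 5410281) (nat_lit 451371) (nat_lit 48481093) (nat_lit 9397217) [(nat_lit 451371), (nat_lit 1565543), (nat_lit 3606793), (nat_lit 0)]) (PF.cons (PF.leaf (nat_lit 5706185) (nat_lit 461987) (nat_lit 47975868) (nat_lit 9384115) [(nat_lit 461987), (nat_lit 1581482), (nat_lit 3621685), (nat_lit 0)]) (PF.cons PF.nil (PF.cons PF.nil PF.nil))))) (PF.cons (PF.cons (PF.leaf (nat_lit 5870879) (nat_lit 1591431) (nat_lit 47305426) (nat_lit 9357728) [(nat_lit 0), (nat_lit 1591431), (nat_lit 3631397), (nat_lit 0)])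
 (PF.cons (PF.leaf (nat_lit 6170101) (nat_lit 474011) (nat_lit 46800414) (nat_lit 9339393) [(nat_lit 474011), (nat_lit 1604848), (nat_lit 3642647), (nat_lit 0)]) (PF.cons PF.nil (PF.cons PF.nil PF.nil)))) (PF.cons (PF.cons (PF.leaf (nat_lit 6630934) (nat_lit 1623443) (nat_lit 45642440) (nat_lit 9284015) [(nat_lit 0), (nat_lit 1623443), (nat_lit 3656012), (nat_lit 0)]) (PF.cons PF.nil PF.nil)) (PF.cons PF.nil PF.nil))))) (PF.cons (PF.cons (PF.cons (PF.leaf (nat_lit 5697111) (nat_lit 3612834) (nat_lit 46947563) (nat_lit 9322746) [(nat_lit 0), (nat_lit 0), (nat_lit 3612834), (nat_lit 0)]) (PF.cons (PF.leaf (nat_lit 5980965) (nat_lit 461513) (nat_lit 46471339) (nat_lit 9304674) [(nat_lit 461513), (nat_lit 0), (nat_lit 3623761), (nat_lit 0)]) (PF.cons (PF.leaf (nat_lit 6275618) (nat_lit 471113) (nat_lit 45982211) (nat_lit 9284075) [(nat_lit 471113), (nat_lit 0), (nat_lit 3633432), (nat_lit 0)]) (PF.cons PF.nil PF.nil)))) (PF.cons (PF.cons (PF.leaf (nat_lit 6431138) (nat_lit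 1607483) (nat_lit 45341071) (nat_lit 9248998) [(nat_lit 0), (nat_lit 1607483), (nat_lit 3637086), (nat_lit 0)]) (PF.cons (PF.leaf (nat_lit 6727906) (nat_lit 481075) (nat_lit 44854640) (nat_lit 9224015) [(nat_lit
 481075), (nat_lit 1618160), (nat_lit 3643640), (nat_lit 0)]) PF.nil)) (PF.cons PF.nil PF.nil))) (PF.cons (PF.cons (PF.cons (PF.leaf (nat_lit 6967939) (nat_lit 3628471) (nat_lit 43474930) (nat_lit 9119995) [(nat_lit 0), (nat_lit 0), (nat_lit 3628471), (nat_lit 0)]) (PF.cons PF.nil PF.nil)) (PF.cons PF.nil PF.nil)) (PF.cons PF.nil PF.nil)))))) (PF.cons (PF.cons (PF.cons (PF.cons (PF.leaf (nat_lit 4188008) (nat_lit 9225441) (nat_lit 48557817) (nat_lit 9225441) [(nat_lit 0), (nat_lit 0), (nat_lit 0), (nat_lit 9325553)]) (PF.cons (PF.leaf (nat_lit 4411073) (nat_lit 379036) (nat_lit 48186510) (nat_lit 9221847) [(nat_lit 379036), (nat_lit 0), (nat_lit 0), (nat_lit 9321419)]) (PF.cons (PF.leaf (nat_lit 4654532) (nat_lit 396004) (nat_lit 47785266) (nat_lit 9216273)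 [(nat_lit 396004), (nat_lit 0), (nat_lit 0), (nat_lit 9315263)]) (PF.cons (PF.leaf (nat_lit 4914029) (nat_lit 410928) (nat_lit 47360605) (nat_lit 9208523) [(nat_lit 410928), (nat_lit 0), (nat_lit 0), (nat_lit 9306896)]) (PF.cons (PF.leaf (nat_lit 5186898) (nat_lit 424219) (nat_lit 46917287) (nat_lit 9198459) [(nat_lit 424219), (nat_lit 0), (nat_lit 0), (nat_lit 9296188)]) (PF.cons (PF.leaf (nat_lit 5471116) (nat_lit 436154)
 (nat_lit 46458996) (nat_lit 9185991) [(nat_lit 436154), (nat_lit 0), (nat_lit 0), (nat_lit 9283052)]) (PF.cons (PF.leaf (nat_lit 5764976) (nat_lit 446932) (nat_lit 45988698) (nat_lit 9171072) [(nat_lit 446932), (nat_lit 0), (nat_lit 0), (nat_lit 9267445)]) (PF.cons PF.nil (PF.cons PF.nil PF.nil))))))))) (PF.cons (PF.cons (PF.leaf (nat_lit 4831099) (nat_lit 1471893) (nat_lit 47142477) (nat_lit 9198175) [(nat_lit 0), (nat_lit 1471893), (nat_lit 0), (nat_lit 9296266)]) (PF.cons (PF.leaf (nat_lit 5083153) (nat_lit 415171) (nat_lit 46728638) (nat_lit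 9188009) [(nat_lit 415171), (nat_lit 1491496), (nat_lit 0), (nat_lit 9285496)]) (PF.cons (PF.leaf (nat_lit 5350263) (nat_lit 428176) (nat_lit 46294633) (nat_lit 9175531) [(nat_lit 428176), (nat_lit 1509912), (nat_lit 0), (nat_lit 9272383)]) (PF.cons (PF.leaf (nat_lit 5629359) (nat_lit 439784) (nat_lit 45844851) (nat_lit 9160685) [(nat_lit 439784), (nat_lit 1527045), (nat_lit 0), (nat_lit 9256876)]) (PF.cons (PF.leaf (nat_lit 5918531) (nat_lit 450221) (nat_lit 45382653) (nat_lit 9143446) [(nat_lit 450221), (nat_lit 1542870), (nat_lit 0), (nat_lit 9238955)]) (PF.cons (PF.leaf (nat_lit 6216252) (nat_lit 459648) (nat_lit 44910729) (nat_lit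
 9123817) [(nat_lit 459648), (nat_lit 1557397), (nat_lit 0), (nat_lit 9218626)]) (PF.cons PF.nil PF.nil))))))) (PF.cons (PF.cons (PF.leaf (nat_lit 5515035) (nat_lit 1522057) (nat_lit 45670538) (nat_lit 9149098) [(nat_lit 0), (nat_lit 1522057), (nat_lit 0), (nat_lit 9245060)]) (PF.cons (PF.leaf (nat_lit 5787575) (nat_lit 442698) (nat_lit 45231415) (nat_lit 9132142) [(nat_lit 442698), (nat_lit 1537551), (nat_lit 0), (nat_lit 9227453)]) (PF.cons (PF.leaf (nat_lit 6071370) (nat_lit 452893) (nat_lit 44778918) (nat_lit 9112828) [(nat_lit 452893), (nat_lit 1551906), (nat_lit 0), (nat_lit 9207466)]) (PF.cons (PF.leaf (nat_lit 6364149) (nat_lit 462054) (nat_lit 44316144) (nat_lit 9091181) [(nat_lit 462054), (nat_lit 1565098), (nat_lit 0), (nat_lit 9185127)]) (PF.cons PF.nil PF.nil))))) (PF.cons (PF.cons (PF.leaf (nat_lit 6224578) (nat_lit 1559772) (nat_lit 44177094) (nat_lit 9079320) [(nat_lit 0), (nat_lit 1559772), (nat_lit 0), (nat_lit 9173079)]) (PF.cons (PF.leaf (nat_lit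 6511336) (nat_lit 463919) (nat_lit 43724876) (nat_lit 9055899) [(nat_lit 463919), (nat_lit 1571713), (nat_lit 0), (nat_lit 9148975)]) (PF.cons (PF.leaf (nat_lit 6806529) (nat_lit 471972) (nat_lit 43264188) (nat_lit
 9030242) [(nat_lit 471972), (nat_lit 1582606), (nat_lit 0), (nat_lit 9122616)]) (PF.cons PF.nil PF.nil)))) (PF.cons (PF.cons (PF.leaf (nat_lit 6948339) (nat_lit 1587141) (nat_lit 42686902) (nat_lit 8990916) [(nat_lit 0), (nat_lit 1587141), (nat_lit 0), (nat_lit 9082425)]) (PF.cons (PF.leaf (nat_lit 7244539) (nat_lit 480228) (nat_lit 42230430) (nat_lit 8961654) [(nat_lit 480228), (nat_lit 1596010), (nat_lit 0), (nat_lit 9052457)]) PF.nil)) (PF.cons PF.nil PF.nil)))))) (PF.cons (PF.cons (PF.cons (PF.leaf (nat_lit 5370682) (nat_lit 3505241) (nat_lit 45284295) (nat_lit 9111893) [(nat_lit 0), (nat_lit 0), (nat_lit 3505241), (nat_lit 9207381)]) (PF.cons (PF.leaf (nat_lit 5624629) (nat_lit 426881) (nat_lit 44878808) (nat_lit 9095515) [(nat_lit 426881), (nat_lit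 0), (nat_lit 3517216), (nat_lit 9190392)]) (PF.cons (PF.leaf (nat_lit 5892615) (nat_lit 438809) (nat_lit 44455189) (nat_lit 9076797) [(nat_lit 438809), (nat_lit 0), (nat_lit 3528172), (nat_lit 9171033)]) (PF.cons (PF.leaf (nat_lit 6171627) (nat_lit 449349) (nat_lit 44017698) (nat_lit 9055778) [(nat_lit 449349), (nat_lit 0), (nat_lit 3537935), (nat_lit 9149350)]) (PF.cons (PF.leaf (nat_lit 6459776) (nat_lit 458739) (nat_lit
 43569551) (nat_lit 9032506) [(nat_lit 458739), (nat_lit 0), (nat_lit 3546401), (nat_lit 9125394)]) (PF.cons (PF.leaf (nat_lit 6755574) (nat_lit 467150) (nat_lit 43113286) (nat_lit 9007035) [(nat_lit 467150), (nat_lit 0), (nat_lit 3553515), (nat_lit 9099222)]) (PF.cons PF.nil PF.nil))))))) (PF.cons (PF.cons (PF.leaf (nat_lit 6049671) (nat_lit 1541368) (nat_lit 43855274) (nat_lit 9042602) [(nat_lit 0), (nat_lit 1541368), (nat_lit 3533617), (nat_lit 9135951)]) (PF.cons (PF.leaf (nat_lit 6321777) (nat_lit 451109) (nat_lit 43429375) (nat_lit 9020014)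 [(nat_lit 451109), (nat_lit 1554051), (nat_lit 3541551), (nat_lit 9112710)]) (PF.cons (PF.leaf (nat_lit 6604245) (nat_lit 460344) (nat_lit 42991744) (nat_lit 8995185) [(nat_lit 460344), (nat_lit 1565672), (nat_lit 3548313), (nat_lit 9087207)]) (PF.cons (PF.leaf (nat_lit 6894864) (nat_lit 468566) (nat_lit 42545329) (nat_lit 8968197) [(nat_lit 468566), (nat_lit 1576224), (nat_lit 3553834), (nat_lit 9059528)]) (PF.cons PF.nil PF.nil))))) (PF.cons (PF.cons (PF.leaf (nat_lit 6749218) (nat_lit 1570648) (nat_lit 42416780) (nat_lit 8955497) [(nat_lit 0), (nat_lit 1570648), (nat_lit 3548590), (nat_lit 9046647)]) (PF.cons (PF.leaf (nat_lit 7033624)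
 (nat_lit 469508) (nat_lit 41981427) (nat_lit 8927219) [(nat_lit 469508), (nat_lit 1580165), (nat_lit 3552636), (nat_lit 9017689)]) (PF.cons (PF.leaf (nat_lit 7325707) (nat_lit 476716) (nat_lit 41538866) (nat_lit 8896898) [(nat_lit 476716), (nat_lit 1588721), (nat_lit 3555503), (nat_lit 8986670)]) (PF.cons PF.nil PF.nil)))) (PF.cons (PF.cons (PF.leaf (nat_lit 7459106) (nat_lit 1590943) (nat_lit 40989863) (nat_lit 8852800) [(nat_lit 0), (nat_lit 1590943), (nat_lit 3551600), (nat_lit 8941719)]) (PF.cons PF.nil PF.nil)) (PF.cons PF.nil PF.nil))))) (PF.cons (PF.cons (PF.cons (PF.leaf (nat_lit 6565383) (nat_lit 3528498) (nat_lit 42124258) (nat_lit 8918400) [(nat_lit 0), (nat_lit 0), (nat_lit 3528498), (nat_lit 9009157)]) (PF.cons (PF.leaf (nat_lit 6835961) (nat_lit 457083) (nat_lit 41713447) (nat_lit 8891317) [(nat_lit 457083), (nat_lit 0), (nat_lit 3532770), (nat_lit 8981423)]) (PF.cons (PF.leaf (nat_lit 7116163) (nat_lit 465469) (nat_lit 41292292) (nat_lit 8862124)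 [(nat_lit 465469), (nat_lit 0), (nat_lit 3535948), (nat_lit 8951560)]) (PF.cons (PF.leaf (nat_lit 7403791) (nat_lit 472866) (nat_lit 40863586) (nat_lit 8830945) [(nat_lit 472866), (nat_lit 0), (nat_lit 3537993), (nat_lit
 8919695)]) (PF.cons PF.nil PF.nil))))) (PF.cons (PF.cons (PF.leaf (nat_lit 7253164) (nat_lit 1575063) (nat_lit 40744994) (nat_lit 8817779) [(nat_lit 0), (nat_lit 1575063), (nat_lit 3532309), (nat_lit 8906356)]) (PF.cons (PF.leaf (nat_lit 7534461) (nat_lit 473046) (nat_lit 40327549) (nat_lit 8785721) [(nat_lit 473046), (nat_lit 1582533), (nat_lit 3533169), (nat_lit 8873624)]) (PF.cons PF.nil (PF.cons PF.nil PF.nil)))) (PF.cons (PF.cons (PF.leaf (nat_lit 7948207) (nat_lit 1589458) (nat_lit 39383176) (nat_lit 8704229) [(nat_lit 0), (nat_lit 1589458), (nat_lit 3525941), (nat_lit 8790606)]) (PF.cons PF.nil PF.nil)) PF.nil))) (PF.cons (PF.cons (PF.cons (PF.leaf (nat_lit 7736887) (nat_lit 3507156) (nat_lit 39161194) (nat_lit 8670047) [(nat_lit 0), (nat_lit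 0), (nat_lit 3507156), (nat_lit 8756102)]) (PF.cons (PF.leaf (nat_lit 8014502) (nat_lit 474888) (nat_lit 38762101) (nat_lit 8635112) [(nat_lit 474888), (nat_lit 0), (nat_lit 3505402), (nat_lit 8720503)]) PF.nil)) (PF.cons PF.nil PF.nil)) (PF.cons PF.nil (PF.cons PF.nil PF.nil)))))) (PF.cons (PF.cons (PF.cons (PF.cons (PF.leaf (nat_lit 6208397) (nat_lit 8716084) (nat_lit 40782905) (nat_lit 8716084) [(nat_lit 0), (nat_lit 0), (nat_lit
 0), (nat_lit 8804911)]) (PF.cons (PF.leaf (nat_lit 6452575) (nat_lit 423783) (nat_lit 40430667) (nat_lit 8692628) [(nat_lit 423783), (nat_lit 0), (nat_lit 0), (nat_lit 8780866)]) (PF.cons (PF.leaf (nat_lit 6709588) (nat_lit 434579) (nat_lit 40063396) (nat_lit 8667003) [(nat_lit 434579), (nat_lit 0), (nat_lit 0), (nat_lit 8754626)]) (PF.cons (PF.leaf (nat_lit 6976457) (nat_lit 443985) (nat_lit 39684788) (nat_lit 8639364) [(nat_lit 443985), (nat_lit 0), (nat_lit 0), (nat_lit 8726351)]) (PF.cons (PF.leaf (nat_lit 7251390) (nat_lit 452254)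 (nat_lit 39297611) (nat_lit 8609836) [(nat_lit 452254), (nat_lit 0), (nat_lit 0), (nat_lit 8696173)]) (PF.cons PF.nil (PF.cons PF.nil PF.nil))))))) (PF.cons (PF.cons (PF.leaf (nat_lit 6850575) (nat_lit 1512687) (nat_lit 39548121) (nat_lit 8624814) [(nat_lit 0), (nat_lit 1512687), (nat_lit 0), (nat_lit 8711594)]) (PF.cons (PF.leaf (nat_lit 7110480) (nat_lit 444584) (nat_lit 39180192) (nat_lit 8596446) [(nat_lit 444584), (nat_lit 1522377), (nat_lit 0), (nat_lit 8682606)]) (PF.cons (PF.leaf (nat_lit 7379727) (nat_lit 452768) (nat_lit 38802675) (nat_lit 8566164) [(nat_lit 452768), (nat_lit 1531065), (nat_lit 0), (nat_lit 8651685)]) (PF.cons (PF.leaf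
 (nat_lit 7656180) (nat_lit 459960) (nat_lit 38418091) (nat_lit 8534111) [(nat_lit 459960), (nat_lit 1538772), (nat_lit 0), (nat_lit 8618978)]) (PF.cons PF.nil PF.nil))))) (PF.cons (PF.cons (PF.leaf (nat_lit 7508878) (nat_lit 1532924) (nat_lit 38310661) (nat_lit 8520965) [(nat_lit 0), (nat_lit 1532924), (nat_lit 0), (nat_lit 8605668)]) (PF.cons (PF.leaf (nat_lit 7779210) (nat_lit 459957) (nat_lit 37936022) (nat_lit 8488346) [(nat_lit 459957), (nat_lit 1539833), (nat_lit 0), (nat_lit 8572409)]) (PF.cons (PF.leaf (nat_lit 8056399) (nat_lit 466227) (nat_lit 37555567) (nat_lit 8454074) [(nat_lit 466227), (nat_lit 1545874), (nat_lit 0), (nat_lit 8537484)]) (PF.cons PF.nil PF.nil)))) (PF.cons (PF.cons (PF.leaf (nat_lit 8174591) (nat_lit 1545643) (nat_lit 37086881) (nat_lit 8406588) [(nat_lit 0), (nat_lit 1545643), (nat_lit 0), (nat_lit 8489205)]) (PF.cons PF.nil PF.nil)) (PF.cons PF.nil PF.nil))))) (PF.cons (PF.cons (PF.cons (PF.leaf (nat_lit 7320540) (nat_lit 3414249)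 (nat_lit 38070872) (nat_lit 8484996) [(nat_lit 0), (nat_lit 0), (nat_lit 3414249), (nat_lit 8569346)]) (PF.cons (PF.leaf (nat_lit 7578348) (nat_lit 447905) (nat_lit 37716977) (nat_lit 8453987) [(nat_lit 447905), (nat_lit
 0), (nat_lit 3414487), (nat_lit 8537727)]) (PF.cons (PF.leaf (nat_lit 7844899) (nat_lit 455367) (nat_lit 37354539) (nat_lit 8421183) [(nat_lit 455367), (nat_lit 0), (nat_lit 3413764), (nat_lit 8504294)]) (PF.cons (PF.leaf (nat_lit 8118075) (nat_lit 461870) (nat_lit 36985936) (nat_lit 8386747) [(nat_lit 461870), (nat_lit 0), (nat_lit 3412079), (nat_lit 8469219)]) (PF.cons PF.nil PF.nil))))) (PF.cons (PF.cons (PF.leaf (nat_lit 7967163) (nat_lit 1530416) (nat_lit 36886862) (nat_lit 8373617) [(nat_lit 0), (nat_lit 1530416), (nat_lit 3406051), (nat_lit 8455933)]) (PF.cons (PF.leaf (nat_lit 8234192) (nat_lit 461305) (nat_lit 36528166) (nat_lit 8338885) [(nat_lit 461305), (nat_lit 1535753), (nat_lit 3403555), (nat_lit 8420573)]) (PF.cons PF.nil (PF.cons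 PF.nil PF.nil)))) (PF.cons (PF.cons (PF.leaf (nat_lit 8619004) (nat_lit 1538743) (nat_lit 35719980) (nat_lit 8253552) [(nat_lit 0), (nat_lit 1538743), (nat_lit 3390128), (nat_lit 8333832)]) (PF.cons PF.nil PF.nil)) PF.nil))) (PF.cons (PF.cons (PF.cons (PF.leaf (nat_lit 8408072) (nat_lit 3372362) (nat_lit 35538338) (nat_lit 8221918) [(nat_lit 0), (nat_lit 0), (nat_lit 3372362), (nat_lit 8301915)]) (PF.cons (PF.leaf (nat_lit 8671430)
 (nat_lit 461431) (nat_lit 35195552) (nat_lit 8185651) [(nat_lit 461431), (nat_lit 0), (nat_lit 3368053), (nat_lit 8265035)]) PF.nil)) (PF.cons PF.nil PF.nil)) (PF.cons PF.nil (PF.cons PF.nil PF.nil))))) (PF.cons (PF.cons (PF.cons (PF.cons (PF.leaf (nat_lit 7988414) (nat_lit 8055939) (nat_lit 34649502) (nat_lit 8055939) [(nat_lit 0), (nat_lit 0), (nat_lit 0), (nat_lit 8134456)]) (PF.cons (PF.leaf (nat_lit 8234308) (nat_lit 436308) (nat_lit 34343622) (nat_lit 8023754) [(nat_lit 436308), (nat_lit 0), (nat_lit 0), (nat_lit 8101708)]) (PF.cons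 (PF.leaf (nat_lit 8488265) (nat_lit 443047) (nat_lit 34030525) (nat_lit 7990015) [(nat_lit 443047), (nat_lit 0), (nat_lit 0), (nat_lit 8067392)]) (PF.cons PF.nil PF.nil)))) (PF.cons (PF.cons (PF.leaf (nat_lit 8598657) (nat_lit 1480412) (nat_lit 33628955) (nat_lit 7942373) [(nat_lit 0), (nat_lit 1480412), (nat_lit 0), (nat_lit 8019023)]) (PF.cons (PF.leaf (nat_lit 8852692) (nat_lit 447826) (nat_lit 33319266) (nat_lit 7907299) [(nat_lit 447826), (nat_lit 1484298), (nat_lit 0), (nat_lit 7983374)]) PF.nil)) (PF.cons PF.nil PF.nil))) (PF.cons (PF.cons (PF.cons (PF.leaf (nat_lit 9004510) (nat_lit 3235056) (nat_lit 32473753) (nat_lit 7794090) [(nat_lit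
 0), (nat_lit 0), (nat_lit 3235056), (nat_lit 7868637)]) (PF.cons PF.nil PF.nil)) (PF.cons PF.nil PF.nil)) (PF.cons PF.nil PF.nil))) (PF.cons (PF.cons (PF.cons (PF.cons (PF.leaf (nat_lit 9542485) (nat_lit 7394076) (nat_lit 29859747) (nat_lit 7394076) [(nat_lit 0), (nat_lit 0), (nat_lit 0), (nat_lit 7463747)]) (PF.cons PF.nil PF.nil)) (PF.cons PF.nil PF.nil)) (PF.cons PF.nil PF.nil)) (PF.cons PF.nil (PF.cons PF.nil (PF.cons PF.nil PF.nil))))))))

def p12_13_1_0 : pfC (piC [(nat_lit 39120232), (nat_lit 25510466), (nat_lit 18971201), (nat_lit 12765436)] (nat_lit 10906443)) p12_13_1 (nat_lit 4) (nat_lit 0) (nat_lit 1) = true := by decide +kernel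
def p12_13_1_1 : pfC (piC [(nat_lit 39120232), (nat_lit 25510466), (nat_lit 18971201), (nat_lit 12765436)] (nat_lit 10906443)) p12_13_1 (nat_lit 4) (nat_lit 1) (nat_lit 2) = true := by decide +kernel
def p12_13_1_2 : pfC (piC [(nat_lit 39120232), (nat_lit 25510466), (nat_lit 18971201), (nat_lit 12765436)] (nat_lit 10906443)) p12_13_1 (nat_lit 4) (nat_lit 2) (nat_lit 3) = true := by decide +kernel
def p12_13_1_3 : pfC (piC [(nat_lit 39120232), (nat_lit 25510466), (nat_lit 18971201), (nat_lit 12765436)] (nat_lit 10906443)) p12_13_1 (nat_lit 4) (nat_lit 3) (nat_lit 4) = true := by decide +kernel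
def p12_13_1_4 : pfC (piC [(nat_lit 39120232), (nat_lit 25510466), (nat_lit 18971201), (nat_lit 12765436)] (nat_lit 10906443)) p12_13_1 (nat_lit 4) (nat_lit 4) (nat_lit 5) = true := by decide +kernel
def p12_13_1_5 : pfC (piC [(nat_lit 39120232), (nat_lit 25510466), (nat_lit 18971201), (nat_lit 12765436)] (nat_lit 10906443)) p12_13_1 (nat_lit 4) (nat_lit 5) (nat_lit 6) = true := by decide +kernel
def p12_13_1_6 : pfC (piC [(nat_lit 39120232), (nat_lit 25510466), (nat_lit 18971201), (nat_lit 12765436)] (nat_lit 10906443)) p12_13_1 (nat_lit 4) (nat_lit 6) (nat_lit 7) = true := by decide +kernel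
def p12_13_1_7 : pfC (piC [(nat_lit 39120232), (nat_lit 25510466), (nat_lit 18971201), (nat_lit 12765436)] (nat_lit 10906443)) p12_13_1 (nat_lit 4) (nat_lit 7) (nat_lit 8) = true := by decide +kernel
def p12_13_1_8 : pfC (piC [(nat_lit 39120232), (nat_lit 25510466), (nat_lit 18971201), (nat_lit 12765436)] (nat_lit 10906443)) p12_13_1 (nat_lit 4) (nat_lit 8) (nat_lit 9) = true := by decide +kernel
def p12_13_1_9 : pfC (piC [(nat_lit 39120232), (nat_lit 25510466), (nat_lit 18971201), (nat_lit 12765436)] (nat_lit 10906443)) p12_13_1 (nat_lit 4) (nat_lit 9) (nat_lit 10) = true := by decide +kernel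
def p12_13_1_10 : pfC (piC [(nat_lit 39120232), (nat_lit 25510466), (nat_lit 18971201), (nat_lit 12765436)] (nat_lit 10906443)) p12_13_1 (nat_lit 4) (nat_lit 10) (nat_lit 11) = true := by decide +kernel
def p12_13_1_11 : pfC (piC [(nat_lit 39120232), (nat_lit 25510466), (nat_lit 18971201), (nat_lit 12765436)] (nat_lit 10906443)) p12_13_1 (nat_lit 4) (nat_lit 11) (nat_lit 12) = true := by decide +kernel
def p12_13_1_12 : pfC (piC [(nat_lit 39120232), (nat_lit 25510466), (nat_lit 18971201), (nat_lit 12765436)] (nat_lit 10906443)) p12_13_1 (nat_lit 4) (nat_lit 12) (nat_lit 13) = true := by decide +kernel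
def p12_13_1_13 : pfC (piC [(nat_lit 39120232), (nat_lit 25510466), (nat_lit 18971201), (nat_lit 12765436)] (nat_lit 10906443)) p12_13_1 (nat_lit 4) (nat_lit 13) (nat_lit 14) = true := by decide +kernel
def p12_13_1_14 : pfC (piC [(nat_lit 39120232), (nat_lit 25510466), (nat_lit 18971201), (nat_lit 12765436)] (nat_lit 10906443)) p12_13_1 (nat_lit 4) (nat_lit 14) (nat_lit 15) = true := by decide +kernel
def p12_13_1_15 : pfC (piC [(nat_lit 39120232), (nat_lit 25510466), (nat_lit 18971201), (nat_lit 12765436)] (nat_lit 10906443)) p12_13_1 (nat_lit 4) (nat_lit 15) (nat_lit 16) = true := by decide +kernel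
def p12_13_1_16 : pfC (piC [(nat_lit 39120232), (nat_lit 25510466), (nat_lit 18971201), (nat_lit 12765436)] (nat_lit 10906443)) p12_13_1 (nat_lit 4) (nat_lit 16) (nat_lit 17) = true := by decide +kernel
def p12_13_1_17 : pfC (piC [(nat_lit 39120232), (nat_lit 25510466), (nat_lit 18971201), (nat_lit 12765436)] (nat_lit 10906443)) p12_13_1 (nat_lit 4) (nat_lit 17) (nat_lit 18) = true := by decide +kernel
def p12_13_1_18 : pfC (piC [(nat_lit 39120232), (nat_lit 25510466), (nat_lit 18971201), (nat_lit 12765436)] (nat_lit 10906443)) p12_13_1 (nat_lit 4) (nat_lit 18) (nat_lit 19) = true := by decide +kernel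
def p12_13_1_19 : pfC (piC [(nat_lit 39120232), (nat_lit 25510466), (nat_lit 18971201), (nat_lit 12765436)] (nat_lit 10906443)) p12_13_1 (nat_lit 4) (nat_lit 19) (nat_lit 20) = true := by decide +kernel
def p12_13_1_20 : pfC (piC [(nat_lit 39120232), (nat_lit 25510466), (nat_lit 18971201), (nat_lit 12765436)] (nat_lit 10906443)) p12_13_1 (nat_lit 4) (nat_lit 20) (nat_lit 21) = true := by decide +kernel
def p12_13_1_21 : pfC (piC [(nat_lit 39120232), (nat_lit 25510466), (nat_lit 18971201), (nat_lit 12765436)] (nat_lit 10906443)) p12_13_1 (nat_lit 4) (nat_lit 21) (nat_lit 22) = true := by decide +kernel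
def p12_13_1_22 : pfC (piC [(nat_lit 39120232), (nat_lit 25510466), (nat_lit 18971201), (nat_lit 12765436)] (nat_lit 10906443)) p12_13_1 (nat_lit 4) (nat_lit 22) (nat_lit 23) = true := by decide +kernel
def p12_13_1_23 : pfC (piC [(nat_lit 39120232), (nat_lit 25510466), (nat_lit 18971201), (nat_lit 12765436)] (nat_lit 10906443)) p12_13_1 (nat_lit 4) (nat_lit 23) (nat_lit 24) = true := by decide +kernel
def p12_13_1_24 : pfC (piC [(nat_lit 39120232), (nat_lit 25510466), (nat_lit 18971201), (nat_lit 12765436)] (nat_lit 10906443)) p12_13_1 (nat_lit 4) (nat_lit 24) (nat_lit 25) = true := by decide +kernel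
def p12_13_1_25 : pfC (piC [(nat_lit 39120232), (nat_lit 25510466), (nat_lit 18971201), (nat_lit 12765436)] (nat_lit 10906443)) p12_13_1 (nat_lit 4) (nat_lit 25) (nat_lit 26) = true := by decide +kernel
def p12_13_1_26 : pfC (piC [(nat_lit 39120232), (nat_lit 25510466), (nat_lit 18971201), (nat_lit 12765436)] (nat_lit 10906443)) p12_13_1 (nat_lit 4) (nat_lit 26) (nat_lit 27) = true := by decide +kernel
def p12_13_1_27 : pfC (piC [(nat_lit 39120232), (nat_lit 25510466), (nat_lit 18971201), (nat_lit 12765436)] (nat_lit 10906443)) p12_13_1 (nat_lit 4) (nat_lit 27) (nat_lit 28) = true := by decide +kernel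
def p12_13_1_28 : pfC (piC [(nat_lit 39120232), (nat_lit 25510466), (nat_lit 18971201), (nat_lit 12765436)] (nat_lit 10906443)) p12_13_1 (nat_lit 4) (nat_lit 28) (nat_lit 29) = true := by decide +kernel
def p12_13_1_29 : pfC (piC [(nat_lit 39120232), (nat_lit 25510466), (nat_lit 18971201), (nat_lit 12765436)] (nat_lit 10906443)) p12_13_1 (nat_lit 4) (nat_lit 29) (nat_lit 30) = true := by decide +kernel
def p12_13_1_30 : pfC (piC [(nat_lit 39120232), (nat_lit 25510466), (nat_lit 18971201), (nat_lit 12765436)] (nat_lit 10906443)) p12_13_1 (nat_lit 4) (nat_lit 30) (nat_lit 31) = true := by decide +kernel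
def p12_13_1_31 : pfC (piC [(nat_lit 39120232), (nat_lit 25510466), (nat_lit 18971201), (nat_lit 12765436)] (nat_lit 10906443)) p12_13_1 (nat_lit 4) (nat_lit 31) (nat_lit 32) = true := by decide +kernel
def p12_13_1_32 : pfC (piC [(nat_lit 39120232), (nat_lit 25510466), (nat_lit 18971201), (nat_lit 12765436)] (nat_lit 10906443)) p12_13_1 (nat_lit 4) (nat_lit 32) (nat_lit 33) = true := by decide +kernel
def p12_13_1_33 : pfC (piC [(nat_lit 39120232), (nat_lit 25510466), (nat_lit 18971201), (nat_lit 12765436)] (nat_lit 10906443)) p12_13_1 (nat_lit 4) (nat_lit 33) (nat_lit 34) = true := by decide +kernel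
def p12_13_1_34 : pfC (piC [(nat_lit 39120232), (nat_lit 25510466), (nat_lit 18971201), (nat_lit 12765436)] (nat_lit 10906443)) p12_13_1 (nat_lit 4) (nat_lit 34) (nat_lit 35) = true := by decide +kernel
def p12_13_1_35 : pfC (piC [(nat_lit 39120232), (nat_lit 25510466), (nat_lit 18971201), (nat_lit 12765436)] (nat_lit 10906443)) p12_13_1 (nat_lit 4) (nat_lit 35) (nat_lit 36) = true := by decide +kernel
def p12_13_1_36 : pfC (piC [(nat_lit 39120232), (nat_lit 25510466), (nat_lit 18971201), (nat_lit 12765436)] (nat_lit 10906443)) p12_13_1 (nat_lit 4) (nat_lit 36) (nat_lit 37) = true := by decide +kernel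
def p12_13_1_37 : pfC (piC [(nat_lit 39120232), (nat_lit 25510466), (nat_lit 18971201), (nat_lit 12765436)] (nat_lit 10906443)) p12_13_1 (nat_lit 4) (nat_lit 37) (nat_lit 38) = true := by decide +kernel
def p12_13_1_38 : pfC (piC [(nat_lit 39120232), (nat_lit 25510466), (nat_lit 18971201), (nat_lit 12765436)] (nat_lit 10906443)) p12_13_1 (nat_lit 4) (nat_lit 38) (nat_lit 39) = true := by decide +kernel
def p12_13_1_39 : pfC (piC [(nat_lit 39120232), (nat_lit 25510466), (nat_lit 18971201), (nat_lit 12765436)] (nat_lit 10906443)) p12_13_1 (nat_lit 4) (nat_lit 39) (nat_lit 40) = true := by decide +kernel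
def p12_13_1_40 : pfC (piC [(nat_lit 39120232), (nat_lit 25510466), (nat_lit 18971201), (nat_lit 12765436)] (nat_lit 10906443)) p12_13_1 (nat_lit 4) (nat_lit 40) (nat_lit 41) = true := by decide +kernel
def p12_13_1_41 : pfC (piC [(nat_lit 39120232), (nat_lit 25510466), (nat_lit 18971201), (nat_lit 12765436)] (nat_lit 10906443)) p12_13_1 (nat_lit 4) (nat_lit 41) (nat_lit 42) = true := by decide +kernel
def p12_13_1_42 : pfC (piC [(nat_lit 39120232), (nat_lit 25510466), (nat_lit 18971201), (nat_lit 12765436)] (nat_lit 10906443)) p12_13_1 (nat_lit 4) (nat_lit 42) (nat_lit 43) = true := by decide +kernel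
def p12_13_1_43 : pfC (piC [(nat_lit 39120232), (nat_lit 25510466), (nat_lit 18971201), (nat_lit 12765436)] (nat_lit 10906443)) p12_13_1 (nat_lit 4) (nat_lit 43) (nat_lit 44) = true := by decide +kernel
def p12_13_1_44 : pfC (piC [(nat_lit 39120232), (nat_lit 25510466), (nat_lit 18971201), (nat_lit 12765436)] (nat_lit 10906443)) p12_13_1 (nat_lit 4) (nat_lit 44) (nat_lit 45) = true := by decide +kernel
def p12_13_1_45 : pfC (piC [(nat_lit 39120232), (nat_lit 25510466), (nat_lit 18971201), (nat_lit 12765436)] (nat_lit 10906443)) p12_13_1 (nat_lit 4) (nat_lit 45) (nat_lit 46) = true := by decide +kernel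
def p12_13_1_46 : pfC (piC [(nat_lit 39120232), (nat_lit 25510466), (nat_lit 18971201), (nat_lit 12765436)] (nat_lit 10906443)) p12_13_1 (nat_lit 4) (nat_lit 46) (nat_lit 47) = true := by decide +kernel
def p12_13_1_47 : pfC (piC [(nat_lit 39120232), (nat_lit 25510466), (nat_lit 18971201), (nat_lit 12765436)] (nat_lit 10906443)) p12_13_1 (nat_lit 4) (nat_lit 47) (nat_lit 48) = true := by decide +kernel
def p12_13_1_48 : pfC (piC [(nat_lit 39120232), (nat_lit 25510466), (nat_lit 18971201), (nat_lit 12765436)] (nat_lit 10906443)) p12_13_1 (nat_lit 4) (nat_lit 48) (nat_lit 49) = true := by decide +kernel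
def p12_13_1_49 : pfC (piC [(nat_lit 39120232), (nat_lit 25510466), (nat_lit 18971201), (nat_lit 12765436)] (nat_lit 10906443)) p12_13_1 (nat_lit 4) (nat_lit 49) (nat_lit 50) = true := by decide +kernel
def p12_13_1_50 : pfC (piC [(nat_lit 39120232), (nat_lit 25510466), (nat_lit 18971201), (nat_lit 12765436)] (nat_lit 10906443)) p12_13_1 (nat_lit 4) (nat_lit 50) (nat_lit 51) = true := by decide +kernel
def p12_13_1_51 : pfC (piC [(nat_lit 39120232), (nat_lit 25510466), (nat_lit 18971201), (nat_lit 12765436)] (nat_lit 10906443)) p12_13_1 (nat_lit 4) (nat_lit 51) (nat_lit 52) = true := by decide +kernel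
def p12_13_1_52 : pfC (piC [(nat_lit 39120232), (nat_lit 25510466), (nat_lit 18971201), (nat_lit 12765436)] (nat_lit 10906443)) p12_13_1 (nat_lit 4) (nat_lit 52) (nat_lit 53) = true := by decide +kernel
def p12_13_1_53 : pfC (piC [(nat_lit 39120232), (nat_lit 25510466), (nat_lit 18971201), (nat_lit 12765436)] (nat_lit 10906443)) p12_13_1 (nat_lit 4) (nat_lit 53) (nat_lit 54) = true := by decide +kernel
def p12_13_1_54 : pfC (piC [(nat_lit 39120232), (nat_lit 25510466), (nat_lit 18971201), (nat_lit 12765436)] (nat_lit 10906443)) p12_13_1 (nat_lit 4) (nat_lit 54) (nat_lit 55) = true := by decide +kernel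
def p12_13_1_55 : pfC (piC [(nat_lit 39120232), (nat_lit 25510466), (nat_lit 18971201), (nat_lit 12765436)] (nat_lit 10906443)) p12_13_1 (nat_lit 4) (nat_lit 55) (nat_lit 56) = true := by decide +kernel
def p12_13_1_56 : pfC (piC [(nat_lit 39120232), (nat_lit 25510466), (nat_lit 18971201), (nat_lit 12765436)] (nat_lit 10906443)) p12_13_1 (nat_lit 4) (nat_lit 56) (nat_lit 57) = true := by decide +kernel
def p12_13_1_57 : pfC (piC [(nat_lit 39120232), (nat_lit 25510466), (nat_lit 18971201), (nat_lit 12765436)] (nat_lit 10906443)) p12_13_1 (nat_lit 4) (nat_lit 57) (nat_lit 58) = true := by decide +kernel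
def p12_13_1_58 : pfC (piC [(nat_lit 39120232), (nat_lit 25510466), (nat_lit 18971201), (nat_lit 12765436)] (nat_lit 10906443)) p12_13_1 (nat_lit 4) (nat_lit 58) (nat_lit 59) = true := by decide +kernel
def p12_13_1_59 : pfC (piC [(nat_lit 39120232), (nat_lit 25510466), (nat_lit 18971201), (nat_lit 12765436)] (nat_lit 10906443)) p12_13_1 (nat_lit 4) (nat_lit 59) (nat_lit 60) = true := by decide +kernel
def p12_13_1_60 : pfC (piC [(nat_lit 39120232), (nat_lit 25510466), (nat_lit 18971201), (nat_lit 12765436)] (nat_lit 10906443)) p12_13_1 (nat_lit 4) (nat_lit 60) (nat_lit 61) = true := by decide +kernel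
def p12_13_1_61 : pfC (piC [(nat_lit 39120232), (nat_lit 25510466), (nat_lit 18971201), (nat_lit 12765436)] (nat_lit 10906443)) p12_13_1 (nat_lit 4) (nat_lit 61) (nat_lit 62) = true := by decide +kernel
def p12_13_1_62 : pfC (piC [(nat_lit 39120232), (nat_lit 25510466), (nat_lit 18971201), (nat_lit 12765436)] (nat_lit 10906443)) p12_13_1 (nat_lit 4) (nat_lit 62) (nat_lit 63) = true := by decide +kernel
def p12_13_1_63 : pfC (piC [(nat_lit 39120232), (nat_lit 25510466), (nat_lit 18971201), (nat_lit 12765436)] (nat_lit 10906443)) p12_13_1 (nat_lit 4) (nat_lit 63) (nat_lit 64) = true := by decide +kernel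
def p12_13_1_64 : pfC (piC [(nat_lit 39120232), (nat_lit 25510466), (nat_lit 18971201), (nat_lit 12765436)] (nat_lit 10906443)) p12_13_1 (nat_lit 4) (nat_lit 64) (nat_lit 65) = true := by decide +kernel
def p12_13_1_65 : pfC (piC [(nat_lit 39120232), (nat_lit 25510466), (nat_lit 18971201), (nat_lit 12765436)] (nat_lit 10906443)) p12_13_1 (nat_lit 4) (nat_lit 65) (nat_lit 66) = true := by decide +kernel
def p12_13_1_66 : pfC (piC [(nat_lit 39120232), (nat_lit 25510466), (nat_lit 18971201), (nat_lit 12765436)] (nat_lit 10906443)) p12_13_1 (nat_lit 4) (nat_lit 66) (nat_lit 67) = true := by decide +kernel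
def p12_13_1_67 : pfC (piC [(nat_lit 39120232), (nat_lit 25510466), (nat_lit 18971201), (nat_lit 12765436)] (nat_lit 10906443)) p12_13_1 (nat_lit 4) (nat_lit 67) (nat_lit 68) = true := by decide +kernel
def p12_13_1_68 : pfC (piC [(nat_lit 39120232), (nat_lit 25510466), (nat_lit 18971201), (nat_lit 12765436)] (nat_lit 10906443)) p12_13_1 (nat_lit 4) (nat_lit 68) (nat_lit 69) = true := by decide +kernel
def p12_13_1_69 : pfC (piC [(nat_lit 39120232), (nat_lit 25510466), (nat_lit 18971201), (nat_lit 12765436)] (nat_lit 10906443)) p12_13_1 (nat_lit 4) (nat_lit 69) (nat_lit 70) = true := by decide +kernel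
def p12_13_1_70 : pfC (piC [(nat_lit 39120232), (nat_lit 25510466), (nat_lit 18971201), (nat_lit 12765436)] (nat_lit 10906443)) p12_13_1 (nat_lit 4) (nat_lit 70) (nat_lit 71) = true := by decide +kernel
def p12_13_1_71 : pfC (piC [(nat_lit 39120232), (nat_lit 25510466), (nat_lit 18971201), (nat_lit 12765436)] (nat_lit 10906443)) p12_13_1 (nat_lit 4) (nat_lit 71) (nat_lit 72) = true := by decide +kernel
def p12_13_1_72 : pfC (piC [(nat_lit 39120232), (nat_lit 25510466), (nat_lit 18971201), (nat_lit 12765436)] (nat_lit 10906443)) p12_13_1 (nat_lit 4) (nat_lit 72) (nat_lit 73) = true := by decide +kernel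
def p12_13_1_73 : pfC (piC [(nat_lit 39120232), (nat_lit 25510466), (nat_lit 18971201), (nat_lit 12765436)] (nat_lit 10906443)) p12_13_1 (nat_lit 4) (nat_lit 73) (nat_lit 74) = true := by decide +kernel
def p12_13_1_74 : pfC (piC [(nat_lit 39120232), (nat_lit 25510466), (nat_lit 18971201), (nat_lit 12765436)] (nat_lit 10906443)) p12_13_1 (nat_lit 4) (nat_lit 74) (nat_lit 75) = true := by decide +kernel
def p12_13_1_75 : pfC (piC [(nat_lit 39120232), (nat_lit 25510466), (nat_lit 18971201), (nat_lit 12765436)] (nat_lit 10906443)) p12_13_1 (nat_lit 4) (nat_lit 75) (nat_lit 76) = true := by decide +kernel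
def p12_13_1_76 : pfC (piC [(nat_lit 39120232), (nat_lit 25510466), (nat_lit 18971201), (nat_lit 12765436)] (nat_lit 10906443)) p12_13_1 (nat_lit 4) (nat_lit 76) (nat_lit 77) = true := by decide +kernel
def p12_13_1_77 : pfC (piC [(nat_lit 39120232), (nat_lit 25510466), (nat_lit 18971201), (nat_lit 12765436)] (nat_lit 10906443)) p12_13_1 (nat_lit 4) (nat_lit 77) (nat_lit 78) = true := by decide +kernel
def p12_13_1_78 : pfC (piC [(nat_lit 39120232), (nat_lit 25510466), (nat_lit 18971201), (nat_lit 12765436)] (nat_lit 10906443)) p12_13_1 (nat_lit 4) (nat_lit 78) (nat_lit 79) = true := by decide +kernel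
def p12_13_1_79 : pfC (piC [(nat_lit 39120232), (nat_lit 25510466), (nat_lit 18971201), (nat_lit 12765436)] (nat_lit 10906443)) p12_13_1 (nat_lit 4) (nat_lit 79) (nat_lit 80) = true := by decide +kernel
def p12_13_1_80 : pfC (piC [(nat_lit 39120232), (nat_lit 25510466), (nat_lit 18971201), (nat_lit 12765436)] (nat_lit 10906443)) p12_13_1 (nat_lit 4) (nat_lit 80) (nat_lit 81) = true := by decide +kernel
def p12_13_1_81 : pfC (piC [(nat_lit 39120232), (nat_lit 25510466), (nat_lit 18971201), (nat_lit 12765436)] (nat_lit 10906443)) p12_13_1 (nat_lit 4) (nat_lit 81) (nat_lit 82) = true := by decide +kernel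
def p12_13_1_82 : pfC (piC [(nat_lit 39120232), (nat_lit 25510466), (nat_lit 18971201), (nat_lit 12765436)] (nat_lit 10906443)) p12_13_1 (nat_lit 4) (nat_lit 82) (nat_lit 83) = true := by decide +kernel
def p12_13_1_83 : pfC (piC [(nat_lit 39120232), (nat_lit 25510466), (nat_lit 18971201), (nat_lit 12765436)] (nat_lit 10906443)) p12_13_1 (nat_lit 4) (nat_lit 83) (nat_lit 84) = true := by decide +kernel
def p12_13_1_84 : pfC (piC [(nat_lit 39120232), (nat_lit 25510466), (nat_lit 18971201), (nat_lit 12765436)] (nat_lit 10906443)) p12_13_1 (nat_lit 4) (nat_lit 84) (nat_lit 85) = true := by decide +kernel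
def p12_13_1_85 : pfC (piC [(nat_lit 39120232), (nat_lit 25510466), (nat_lit 18971201), (nat_lit 12765436)] (nat_lit 10906443)) p12_13_1 (nat_lit 4) (nat_lit 85) (nat_lit 86) = true := by decide +kernel
def p12_13_1_86 : pfC (piC [(nat_lit 39120232), (nat_lit 25510466), (nat_lit 18971201), (nat_lit 12765436)] (nat_lit 10906443)) p12_13_1 (nat_lit 4) (nat_lit 86) (nat_lit 87) = true := by decide +kernel
def p12_13_1_87 : pfC (piC [(nat_lit 39120232), (nat_lit 25510466), (nat_lit 18971201), (nat_lit 12765436)] (nat_lit 10906443)) p12_13_1 (nat_lit 4) (nat_lit 87) (nat_lit 88) = true := by decide +kernel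
def p12_13_1_88 : pfC (piC [(nat_lit 39120232), (nat_lit 25510466), (nat_lit 18971201), (nat_lit 12765436)] (nat_lit 10906443)) p12_13_1 (nat_lit 4) (nat_lit 88) (nat_lit 89) = true := by decide +kernel
def p12_13_1_89 : pfC (piC [(nat_lit 39120232), (nat_lit 25510466), (nat_lit 18971201), (nat_lit 12765436)] (nat_lit 10906443)) p12_13_1 (nat_lit 4) (nat_lit 89) (nat_lit 90) = true := by decide +kernel
def p12_13_1_90 : pfC (piC [(nat_lit 39120232), (nat_lit 25510466), (nat_lit 18971201), (nat_lit 12765436)] (nat_lit 10906443)) p12_13_1 (nat_lit 4) (nat_lit 90) (nat_lit 91) = true := by decide +kernel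
def p12_13_1_91 : pfC (piC [(nat_lit 39120232), (nat_lit 25510466), (nat_lit 18971201), (nat_lit 12765436)] (nat_lit 10906443)) p12_13_1 (nat_lit 4) (nat_lit 91) (nat_lit 92) = true := by decide +kernel
def p12_13_1_92 : pfC (piC [(nat_lit 39120232), (nat_lit 25510466), (nat_lit 18971201), (nat_lit 12765436)] (nat_lit 10906443)) p12_13_1 (nat_lit 4) (nat_lit 92) (nat_lit 93) = true := by decide +kernel
def p12_13_1_93 : pfC (piC [(nat_lit 39120232), (nat_lit 25510466), (nat_lit 18971201), (nat_lit 12765436)] (nat_lit 10906443)) p12_13_1 (nat_lit 4) (nat_lit 93) (nat_lit 94) = true := by decide +kernel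
def p12_13_1_94 : pfC (piC [(nat_lit 39120232), (nat_lit 25510466), (nat_lit 18971201), (nat_lit 12765436)] (nat_lit 10906443)) p12_13_1 (nat_lit 4) (nat_lit 94) (nat_lit 95) = true := by decide +kernel
def p12_13_1_95 : pfC (piC [(nat_lit 39120232), (nat_lit 25510466), (nat_lit 18971201), (nat_lit 12765436)] (nat_lit 10906443)) p12_13_1 (nat_lit 4) (nat_lit 95) (nat_lit 96) = true := by decide +kernel
def p12_13_1_96 : pfC (piC [(nat_lit 39120232), (nat_lit 25510466), (nat_lit 18971201), (nat_lit 12765436)] (nat_lit 10906443)) p12_13_1 (nat_lit 4) (nat_lit 96) (nat_lit 97) = true := by decide +kernel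
def p12_13_1_97 : pfC (piC [(nat_lit 39120232), (nat_lit 25510466), (nat_lit 18971201), (nat_lit 12765436)] (nat_lit 10906443)) p12_13_1 (nat_lit 4) (nat_lit 97) (nat_lit 98) = true := by decide +kernel
def p12_13_1_98 : pfC (piC [(nat_lit 39120232), (nat_lit 25510466), (nat_lit 18971201), (nat_lit 12765436)] (nat_lit 10906443)) p12_13_1 (nat_lit 4) (nat_lit 98) (nat_lit 99) = true := by decide +kernel
def p12_13_1_99 : pfC (piC [(nat_lit 39120232), (nat_lit 25510466), (nat_lit 18971201), (nat_lit 12765436)] (nat_lit 10906443)) p12_13_1 (nat_lit 4) (nat_lit 99) (nat_lit 100) = true := by decide +kernel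
def p12_13_1_100 : pfC (piC [(nat_lit 39120232), (nat_lit 25510466), (nat_lit 18971201), (nat_lit 12765436)] (nat_lit 10906443)) p12_13_1 (nat_lit 4) (nat_lit 100) (nat_lit 101) = true := by decide +kernel
def p12_13_1_101 : pfC (piC [(nat_lit 39120232), (nat_lit 25510466), (nat_lit 18971201), (nat_lit 12765436)] (nat_lit 10906443)) p12_13_1 (nat_lit 4) (nat_lit 101) (nat_lit 102) = true := by decide +kernel
def p12_13_1_102 : pfC (piC [(nat_lit 39120232), (nat_lit 25510466), (nat_lit 18971201), (nat_lit 12765436)] (nat_lit 10906443)) p12_13_1 (nat_lit 4) (nat_lit 102) (nat_lit 103) = true := by decide +kernel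
def p12_13_1_103 : pfC (piC [(nat_lit 39120232), (nat_lit 25510466), (nat_lit 18971201), (nat_lit 12765436)] (nat_lit 10906443)) p12_13_1 (nat_lit 4) (nat_lit 103) (nat_lit 104) = true := by decide +kernel
def p12_13_1_104 : pfC (piC [(nat_lit 39120232), (nat_lit 25510466), (nat_lit 18971201), (nat_lit 12765436)] (nat_lit 10906443)) p12_13_1 (nat_lit 4) (nat_lit 104) (nat_lit 105) = true := by decide +kernel
def p12_13_1_105 : pfC (piC [(nat_lit 39120232), (nat_lit 25510466), (nat_lit 18971201), (nat_lit 12765436)] (nat_lit 10906443)) p12_13_1 (nat_lit 4) (nat_lit 105) (nat_lit 106) = true := by decide +kernel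
def p12_13_1_106 : pfC (piC [(nat_lit 39120232), (nat_lit 25510466), (nat_lit 18971201), (nat_lit 12765436)] (nat_lit 10906443)) p12_13_1 (nat_lit 4) (nat_lit 106) (nat_lit 107) = true := by decide +kernel
def p12_13_1_107 : pfC (piC [(nat_lit 39120232), (nat_lit 25510466), (nat_lit 18971201), (nat_lit 12765436)] (nat_lit 10906443)) p12_13_1 (nat_lit 4) (nat_lit 107) (nat_lit 108) = true := by decide +kernel
def p12_13_1_108 : pfC (piC [(nat_lit 39120232), (nat_lit 25510466), (nat_lit 18971201), (nat_lit 12765436)] (nat_lit 10906443)) p12_13_1 (nat_lit 4) (nat_lit 108) (nat_lit 109) = true := by decide +kernel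
def p12_13_1_109 : pfC (piC [(nat_lit 39120232), (nat_lit 25510466), (nat_lit 18971201), (nat_lit 12765436)] (nat_lit 10906443)) p12_13_1 (nat_lit 4) (nat_lit 109) (nat_lit 110) = true := by decide +kernel
def p12_13_1_110 : pfC (piC [(nat_lit 39120232), (nat_lit 25510466), (nat_lit 18971201), (nat_lit 12765436)] (nat_lit 10906443)) p12_13_1 (nat_lit 4) (nat_lit 110) (nat_lit 111) = true := by decide +kernel
def p12_13_1_111 : pfC (piC [(nat_lit 39120232), (nat_lit 25510466), (nat_lit 18971201), (nat_lit 12765436)] (nat_lit 10906443)) p12_13_1 (nat_lit 4) (nat_lit 111) (nat_lit 112) = true := by decide +kernel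
def p12_13_1_112 : pfC (piC [(nat_lit 39120232), (nat_lit 25510466), (nat_lit 18971201), (nat_lit 12765436)] (nat_lit 10906443)) p12_13_1 (nat_lit 4) (nat_lit 112) (nat_lit 113) = true := by decide +kernel
def p12_13_1_113 : pfC (piC [(nat_lit 39120232), (nat_lit 25510466), (nat_lit 18971201), (nat_lit 12765436)] (nat_lit 10906443)) p12_13_1 (nat_lit 4) (nat_lit 113) (nat_lit 114) = true := by decide +kernel
def p12_13_1_114 : pfC (piC [(nat_lit 39120232), (nat_lit 25510466), (nat_lit 18971201), (nat_lit 12765436)] (nat_lit 10906443)) p12_13_1 (nat_lit 4) (nat_lit 114) (nat_lit 115) = true := by decide +kernel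
def p12_13_1_115 : pfC (piC [(nat_lit 39120232), (nat_lit 25510466), (nat_lit 18971201), (nat_lit 12765436)] (nat_lit 10906443)) p12_13_1 (nat_lit 4) (nat_lit 115) (nat_lit 116) = true := by decide +kernel
def p12_13_1_116 : pfC (piC [(nat_lit 39120232), (nat_lit 25510466), (nat_lit 18971201), (nat_lit 12765436)] (nat_lit 10906443)) p12_13_1 (nat_lit 4) (nat_lit 116) (nat_lit 117) = true := by decide +kernel
def p12_13_1_117 : pfC (piC [(nat_lit 39120232), (nat_lit 25510466), (nat_lit 18971201), (nat_lit 12765436)] (nat_lit 10906443)) p12_13_1 (nat_lit 4) (nat_lit 117) (nat_lit 118) = true := by decide +kernel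
def p12_13_1_118 : pfC (piC [(nat_lit 39120232), (nat_lit 25510466), (nat_lit 18971201), (nat_lit 12765436)] (nat_lit 10906443)) p12_13_1 (nat_lit 4) (nat_lit 118) (nat_lit 119) = true := by decide +kernel
def p12_13_1_119 : pfC (piC [(nat_lit 39120232), (nat_lit 25510466), (nat_lit 18971201), (nat_lit 12765436)] (nat_lit 10906443)) p12_13_1 (nat_lit 4) (nat_lit 119) (nat_lit 120) = true := by decide +kernel
def p12_13_1_120 : pfC (piC [(nat_lit 39120232), (nat_lit 25510466), (nat_lit 18971201), (nat_lit 12765436)] (nat_lit 10906443)) p12_13_1 (nat_lit 4) (nat_lit 120) (nat_lit 121) = true := by decide +kernel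
def p12_13_1_121 : pfC (piC [(nat_lit 39120232), (nat_lit 25510466), (nat_lit 18971201), (nat_lit 12765436)] (nat_lit 10906443)) p12_13_1 (nat_lit 4) (nat_lit 121) (nat_lit 122) = true := by decide +kernel
def p12_13_1_122 : pfC (piC [(nat_lit 39120232), (nat_lit 25510466), (nat_lit 18971201), (nat_lit 12765436)] (nat_lit 10906443)) p12_13_1 (nat_lit 4) (nat_lit 122) (nat_lit 123) = true := by decide +kernel
def p12_13_1_123 : pfC (piC [(nat_lit 39120232), (nat_lit 25510466), (nat_lit 18971201), (nat_lit 12765436)] (nat_lit 10906443)) p12_13_1 (nat_lit 4) (nat_lit 123) (nat_lit 124) = true := by decide +kernel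
def p12_13_1_124 : pfC (piC [(nat_lit 39120232), (nat_lit 25510466), (nat_lit 18971201), (nat_lit 12765436)] (nat_lit 10906443)) p12_13_1 (nat_lit 4) (nat_lit 124) (nat_lit 125) = true := by decide +kernel
def p12_13_1_125 : pfC (piC [(nat_lit 39120232), (nat_lit 25510466), (nat_lit 18971201), (nat_lit 12765436)] (nat_lit 10906443)) p12_13_1 (nat_lit 4) (nat_lit 125) (nat_lit 126) = true := by decide +kernel
def p12_13_1_126 : pfC (piC [(nat_lit 39120232), (nat_lit 25510466), (nat_lit 18971201), (nat_lit 12765436)] (nat_lit 10906443)) p12_13_1 (nat_lit 4) (nat_lit 126) (nat_lit 127) = true := by decide +kernel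
def p12_13_1_127 : pfC (piC [(nat_lit 39120232), (nat_lit 25510466), (nat_lit 18971201), (nat_lit 12765436)] (nat_lit 10906443)) p12_13_1 (nat_lit 4) (nat_lit 127) (nat_lit 128) = true := by decide +kernel
def p12_13_1_128 : pfC (piC [(nat_lit 39120232), (nat_lit 25510466), (nat_lit 18971201), (nat_lit 12765436)] (nat_lit 10906443)) p12_13_1 (nat_lit 4) (nat_lit 128) (nat_lit 129) = true := by decide +kernel
def p12_13_1_129 : pfC (piC [(nat_lit 39120232), (nat_lit 25510466), (nat_lit 18971201), (nat_lit 12765436)] (nat_lit 10906443)) p12_13_1 (nat_lit 4) (nat_lit 129) (nat_lit 130) = true := by decide +kernel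
def p12_13_1_130 : pfC (piC [(nat_lit 39120232), (nat_lit 25510466), (nat_lit 18971201), (nat_lit 12765436)] (nat_lit 10906443)) p12_13_1 (nat_lit 4) (nat_lit 130) (nat_lit 131) = true := by decide +kernel
def p12_13_1_131 : pfC (piC [(nat_lit 39120232), (nat_lit 25510466), (nat_lit 18971201), (nat_lit 12765436)] (nat_lit 10906443)) p12_13_1 (nat_lit 4) (nat_lit 131) (nat_lit 132) = true := by decide +kernel
def p12_13_1_132 : pfC (piC [(nat_lit 39120232), (nat_lit 25510466), (nat_lit 18971201), (nat_lit 12765436)] (nat_lit 10906443)) p12_13_1 (nat_lit 4) (nat_lit 132) (nat_lit 133) = true := by decide +kernel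
def p12_13_1_133 : pfC (piC [(nat_lit 39120232), (nat_lit 25510466), (nat_lit 18971201), (nat_lit 12765436)] (nat_lit 10906443)) p12_13_1 (nat_lit 4) (nat_lit 133) (nat_lit 134) = true := by decide +kernel
def p12_13_1_134 : pfC (piC [(nat_lit 39120232), (nat_lit 25510466), (nat_lit 18971201), (nat_lit 12765436)] (nat_lit 10906443)) p12_13_1 (nat_lit 4) (nat_lit 134) (nat_lit 135) = true := by decide +kernel
def p12_13_1_135 : pfC (piC [(nat_lit 39120232), (nat_lit 25510466), (nat_lit 18971201), (nat_lit 12765436)] (nat_lit 10906443)) p12_13_1 (nat_lit 4) (nat_lit 135) (nat_lit 136) = true := by decide +kernel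
def p12_13_1_136 : pfC (piC [(nat_lit 39120232), (nat_lit 25510466), (nat_lit 18971201), (nat_lit 12765436)] (nat_lit 10906443)) p12_13_1 (nat_lit 4) (nat_lit 136) (nat_lit 137) = true := by decide +kernel
def p12_13_1_137 : pfC (piC [(nat_lit 39120232), (nat_lit 25510466), (nat_lit 18971201), (nat_lit 12765436)] (nat_lit 10906443)) p12_13_1 (nat_lit 4) (nat_lit 137) (nat_lit 138) = true := by decide +kernel
def p12_13_1_138 : pfC (piC [(nat_lit 39120232), (nat_lit 25510466), (nat_lit 18971201), (nat_lit 12765436)] (nat_lit 10906443)) p12_13_1 (nat_lit 4) (nat_lit 138) (nat_lit 139) = true := by decide +kernel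
theorem p12_13_1_T : PfS (PiF n12_13.reverse (nat_lit 10906443)) p12_13_1 (nat_lit 4) [] 0 :=
  pftab_of (los := [(nat_lit 39120232), (nat_lit 25510466), (nat_lit 18971201), (nat_lit 12765436)]) (by decide +kernel) (hi := (nat_lit 139)) (PfP.trans (PfP.trans (PfP.trans (PfP.trans (PfP.trans (PfP.trans (PfP.trans (PfP.trans (PfP.trans (PfP.trans (PfP.trans (PfP.trans (PfP.trans (PfP.trans (PfP.trans (PfP.trans (PfP.trans (PfP.trans (PfP.trans (PfP.trans (PfP.trans (PfP.trans (PfP.trans (PfP.trans (PfP.trans (PfP.trans (PfP.trans (PfP.trans (PfP.trans (PfP.trans (PfP.trans (PfP.trans (PfP.trans (PfP.trans (PfP.trans (PfP.trans (PfP.trans (PfP.trans (PfP.trans (PfP.trans (PfP.trans (PfP.trans (PfP.trans (PfP.trans (PfP.trans (PfP.trans (PfP.trans (PfP.trans (PfP.trans (PfP.trans (PfP.trans (PfP.trans (PfP.trans (PfP.trans (PfP.trans (PfP.trans (PfP.trans (PfP.trans (PfP.trans (PfP.trans (PfP.trans (PfP.trans (PfP.trans (PfP.trans (PfP.trans (PfP.trans (PfP.trans (PfP.trans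 (PfP.trans (PfP.trans (PfP.trans (PfP.trans (PfP.trans (PfP.trans (PfP.trans (PfP.trans (PfP.trans (PfP.trans (PfP.trans (PfP.trans (PfP.trans (PfP.trans (PfP.trans (PfP.trans (PfP.trans (PfP.trans (PfP.trans (PfP.trans (PfP.trans (PfP.trans (PfP.trans (PfP.trans (PfP.trans (PfP.trans (PfP.trans (PfP.trans (PfP.trans (PfP.trans (PfP.trans (PfP.trans (PfP.trans (PfP.trans (PfP.trans (PfP.trans (PfP.trans (PfP.trans (PfP.trans (PfP.trans (PfP.trans
 (PfP.trans (PfP.trans (PfP.trans (PfP.trans (PfP.trans (PfP.trans (PfP.trans (PfP.trans (PfP.trans (PfP.trans (PfP.trans (PfP.trans (PfP.trans (PfP.trans (PfP.trans (PfP.trans (PfP.trans (PfP.trans (PfP.trans (PfP.trans (PfP.trans (PfP.trans (PfP.trans (PfP.trans (PfP.trans (PfP.trans (PfP.trans (PfP.trans (PfP.trans (pfC_sound p12_13_1_0) (pfC_sound p12_13_1_1)) (pfC_sound p12_13_1_2)) (pfC_sound p12_13_1_3)) (pfC_sound p12_13_1_4)) (pfC_sound p12_13_1_5)) (pfC_sound p12_13_1_6)) (pfC_sound p12_13_1_7)) (pfC_sound p12_13_1_8))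 (pfC_sound p12_13_1_9)) (pfC_sound p12_13_1_10)) (pfC_sound p12_13_1_11)) (pfC_sound p12_13_1_12)) (pfC_sound p12_13_1_13)) (pfC_sound p12_13_1_14)) (pfC_sound p12_13_1_15)) (pfC_sound p12_13_1_16)) (pfC_sound p12_13_1_17)) (pfC_sound p12_13_1_18)) (pfC_sound p12_13_1_19)) (pfC_sound p12_13_1_20)) (pfC_sound p12_13_1_21)) (pfC_sound p12_13_1_22)) (pfC_sound p12_13_1_23)) (pfC_sound p12_13_1_24)) (pfC_sound p12_13_1_25)) (pfC_sound p12_13_1_26)) (pfC_sound p12_13_1_27)) (pfC_sound p12_13_1_28)) (pfC_sound p12_13_1_29)) (pfC_sound p12_13_1_30)) (pfC_sound p12_13_1_31)) (pfC_sound p12_13_1_32)) (pfC_sound p12_13_1_33)) (pfC_sound p12_13_1_34)) (pfC_sound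
 p12_13_1_35)) (pfC_sound p12_13_1_36)) (pfC_sound p12_13_1_37)) (pfC_sound p12_13_1_38)) (pfC_sound p12_13_1_39)) (pfC_sound p12_13_1_40)) (pfC_sound p12_13_1_41)) (pfC_sound p12_13_1_42)) (pfC_sound p12_13_1_43)) (pfC_sound p12_13_1_44)) (pfC_sound p12_13_1_45)) (pfC_sound p12_13_1_46)) (pfC_sound p12_13_1_47)) (pfC_sound p12_13_1_48)) (pfC_sound p12_13_1_49)) (pfC_sound p12_13_1_50)) (pfC_sound p12_13_1_51)) (pfC_sound p12_13_1_52)) (pfC_sound p12_13_1_53)) (pfC_sound p12_13_1_54)) (pfC_sound p12_13_1_55)) (pfC_sound p12_13_1_56)) (pfC_sound p12_13_1_57)) (pfC_sound p12_13_1_58)) (pfC_sound p12_13_1_59)) (pfC_sound p12_13_1_60)) (pfC_sound p12_13_1_61)) (pfC_sound p12_13_1_62)) (pfC_sound p12_13_1_63)) (pfC_sound p12_13_1_64)) (pfC_sound p12_13_1_65)) (pfC_sound p12_13_1_66)) (pfC_sound p12_13_1_67)) (pfC_sound p12_13_1_68)) (pfC_sound p12_13_1_69)) (pfC_sound p12_13_1_70)) (pfC_sound p12_13_1_71)) (pfC_sound p12_13_1_72)) (pfC_sound p12_13_1_73)) (pfC_sound p12_13_1_74))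 (pfC_sound p12_13_1_75)) (pfC_sound p12_13_1_76)) (pfC_sound p12_13_1_77)) (pfC_sound p12_13_1_78)) (pfC_sound p12_13_1_79)) (pfC_sound p12_13_1_80)) (pfC_sound p12_13_1_81)) (pfC_sound p12_13_1_82)) (pfC_sound
 p12_13_1_83)) (pfC_sound p12_13_1_84)) (pfC_sound p12_13_1_85)) (pfC_sound p12_13_1_86)) (pfC_sound p12_13_1_87)) (pfC_sound p12_13_1_88)) (pfC_sound p12_13_1_89)) (pfC_sound p12_13_1_90)) (pfC_sound p12_13_1_91)) (pfC_sound p12_13_1_92)) (pfC_sound p12_13_1_93)) (pfC_sound p12_13_1_94)) (pfC_sound p12_13_1_95)) (pfC_sound p12_13_1_96)) (pfC_sound p12_13_1_97)) (pfC_sound p12_13_1_98)) (pfC_sound p12_13_1_99)) (pfC_sound p12_13_1_100)) (pfC_sound p12_13_1_101)) (pfC_sound p12_13_1_102)) (pfC_sound p12_13_1_103)) (pfC_sound p12_13_1_104)) (pfC_sound p12_13_1_105)) (pfC_sound p12_13_1_106)) (pfC_sound p12_13_1_107)) (pfC_sound p12_13_1_108)) (pfC_sound p12_13_1_109)) (pfC_sound p12_13_1_110)) (pfC_sound p12_13_1_111)) (pfC_sound p12_13_1_112)) (pfC_sound p12_13_1_113))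 (pfC_sound p12_13_1_114)) (pfC_sound p12_13_1_115)) (pfC_sound p12_13_1_116)) (pfC_sound p12_13_1_117)) (pfC_sound p12_13_1_118)) (pfC_sound p12_13_1_119)) (pfC_sound p12_13_1_120)) (pfC_sound p12_13_1_121)) (pfC_sound p12_13_1_122)) (pfC_sound p12_13_1_123)) (pfC_sound p12_13_1_124)) (pfC_sound p12_13_1_125)) (pfC_sound p12_13_1_126)) (pfC_sound p12_13_1_127)) (pfC_sound p12_13_1_128)) (pfC_sound p12_13_1_129))
 (pfC_sound p12_13_1_130)) (pfC_sound p12_13_1_131)) (pfC_sound p12_13_1_132)) (pfC_sound p12_13_1_133)) (pfC_sound p12_13_1_134)) (pfC_sound p12_13_1_135)) (pfC_sound p12_13_1_136)) (pfC_sound p12_13_1_137)) (pfC_sound p12_13_1_138)) (by decide +kernel)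

def z12_13_1 : zOK yB12_13 (nat_lit 1) (nat_lit 400) (nat_lit 600) (nat_lit 10906443) (nat_lit 7444406) = true := by decide +kernel
def g12_13_1 : gOK yB12_13.x P12_13 (nat_lit 1414) (q12_13 :: r12_13) (nat_lit 1) (nat_lit 400) (nat_lit 2) (nat_lit 600) (nat_lit 11000000) (nat_lit 17850000) (nat_lit 12712500) (nat_lit 12712500) [(nat_lit 800), (nat_lit 1130)] = true := by decide +kernel
def v12_13_1 : ivC P12_13 s12_13 w12_13 n12_13 (nat_lit 4) (nat_lit 5000) (nat_lit 1) (nat_lit 400) f160_1_400 f168_1_400 (nat_lit 2) (nat_lit 600) f160_1_600 f168_1_600 (nat_lit 10906443) (nat_lit 7444406) p12_13_1 = true := by decide +kernel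
def p12_13_2 : PF := (PF.cons (PF.cons (PF.cons (PF.cons (PF.leaf (nat_lit 2608950) (nat_lit 14495082) (nat_lit 52613730) (nat_lit 14495082) [(nat_lit 0), (nat_lit 0), (nat_lit 0), (nat_lit 0)]) (PF.cons (PF.leaf (nat_lit 2770586) (nat_lit 281692) (nat_lit 52340413) (nat_lit 14486706) [(nat_lit 281692), (nat_lit 0), (nat_lit 0), (nat_lit 0)]) (PF.cons (PF.leaf (nat_lit 2961821) (nat_lit 306144) (nat_lit 52021051) (nat_lit 14475471) [(nat_lit 306144), (nat_lit 0), (nat_lit 0), (nat_lit 0)]) (PF.cons (PF.leaf (nat_lit 3176363) (nat_lit 327777) (nat_lit 51664338) (nat_lit 14461140) [(nat_lit 327777), (nat_lit 0), (nat_lit 0), (nat_lit 0)]) (PF.cons (PF.leaf (nat_lit 3410779) (nat_lit 347216) (nat_lit 51276461) (nat_lit 14443483) [(nat_lit 347216), (nat_lit 0), (nat_lit 0), (nat_lit 0)]) (PF.cons (PF.leaf (nat_lit 3662471) (nat_lit 364861) (nat_lit 50862203) (nat_lit 14422303) [(nat_lit 364861), (nat_lit 0), (nat_lit 0), (nat_lit 0)]) (PF.cons (PF.leaf (nat_lit 3929305)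 (nat_lit 380984) (nat_lit 50425459) (nat_lit 14397446) [(nat_lit 380984), (nat_lit 0), (nat_lit 0), (nat_lit 0)]) (PF.cons (PF.leaf (nat_lit 4209481) (nat_lit 395785) (nat_lit 49969514) (nat_lit 14368800) [(nat_lit 395785), (nat_lit 0),
 (nat_lit 0), (nat_lit 0)]) (PF.cons (PF.leaf (nat_lit 4501396) (nat_lit 409413) (nat_lit 49497205) (nat_lit 14336296) [(nat_lit 409413), (nat_lit 0), (nat_lit 0), (nat_lit 0)]) (PF.cons PF.nil (PF.cons PF.nil (PF.cons PF.nil PF.nil)))))))))))) (PF.cons (PF.cons (PF.leaf (nat_lit 3154398) (nat_lit 1277940) (nat_lit 51386794) (nat_lit 14444078) [(nat_lit 0), (nat_lit 1277940), (nat_lit 0), (nat_lit 0)]) (PF.cons (PF.leaf (nat_lit 3362674) (nat_lit 338185) (nat_lit 51034117) (nat_lit 14426676) [(nat_lit 338185), (nat_lit 1309833), (nat_lit 0), (nat_lit 0)]) (PF.cons (PF.leaf (nat_lit 3593048) (nat_lit 356883) (nat_lit 50648470) (nat_lit 14405704) [(nat_lit 356883), (nat_lit 1340870), (nat_lit 0), (nat_lit 0)]) (PF.cons (PF.leaf (nat_lit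 3841382) (nat_lit 373784) (nat_lit 50235810) (nat_lit 14381067) [(nat_lit 373784), (nat_lit 1370581), (nat_lit 0), (nat_lit 0)]) (PF.cons (PF.leaf (nat_lit 4105195) (nat_lit 389190) (nat_lit 49800628) (nat_lit 14352684) [(nat_lit 389190), (nat_lit 1398739), (nat_lit 0), (nat_lit 0)]) (PF.cons (PF.leaf (nat_lit 4382480) (nat_lit 403309) (nat_lit 49346526) (nat_lit 14320498) [(nat_lit 403309), (nat_lit 1425241), (nat_lit 0), (nat_lit 0)]) (PF.cons
 (PF.leaf (nat_lit 4671541) (nat_lit 416293) (nat_lit 48876507) (nat_lit 14284487) [(nat_lit 416293), (nat_lit 1450057), (nat_lit 0), (nat_lit 0)]) (PF.cons (PF.leaf (nat_lit 4970976) (nat_lit 428259) (nat_lit 48393143) (nat_lit 14244656) [(nat_lit 428259), (nat_lit 1473194), (nat_lit 0), (nat_lit 0)]) (PF.cons PF.nil (PF.cons PF.nil PF.nil)))))))))) (PF.cons (PF.cons (PF.leaf (nat_lit 3778691) (nat_lit 1370082) (nat_lit 50006895) (nat_lit 14361752) [(nat_lit 0), (nat_lit 1370082), (nat_lit 0), (nat_lit 0)]) (PF.cons (PF.leaf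 (nat_lit 4021362) (nat_lit 381419) (nat_lit 49599994) (nat_lit 14334067) [(nat_lit 381419), (nat_lit 1396665), (nat_lit 0), (nat_lit 0)]) (PF.cons (PF.leaf (nat_lit 4281001) (nat_lit 396303) (nat_lit 49169511) (nat_lit 14302522) [(nat_lit 396303), (nat_lit 1422086), (nat_lit 0), (nat_lit 0)]) (PF.cons (PF.leaf (nat_lit 4554556) (nat_lit 409885) (nat_lit 48719717) (nat_lit 14267137) [(nat_lit 409885), (nat_lit 1446150), (nat_lit 0), (nat_lit 0)]) (PF.cons (PF.leaf (nat_lit 4840126) (nat_lit 422338) (nat_lit 48253985) (nat_lit 14227941) [(nat_lit 422338), (nat_lit 1468766), (nat_lit 0), (nat_lit 0)]) (PF.cons (PF.leaf (nat_lit 5136120) (nat_lit 433787) (nat_lit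
 47775092) (nat_lit 14184982) [(nat_lit 433787), (nat_lit 1489900), (nat_lit 0), (nat_lit 0)]) (PF.cons PF.nil (PF.cons PF.nil (PF.cons PF.nil PF.nil))))))))) (PF.cons (PF.cons (PF.leaf (nat_lit 4458311) (nat_lit 1443243) (nat_lit 48532069) (nat_lit 14247011) [(nat_lit 0), (nat_lit 1443243), (nat_lit 0), (nat_lit 0)]) (PF.cons (PF.leaf (nat_lit 4726488) (nat_lit 415547) (nat_lit 48089306) (nat_lit 14208829) [(nat_lit 415547), (nat_lit 1465043), (nat_lit 0), (nat_lit 0)]) (PF.cons (PF.leaf (nat_lit 5007769) (nat_lit 427582) (nat_lit 47629975) (nat_lit 14166814) [(nat_lit 427582), (nat_lit 1485619), (nat_lit 0), (nat_lit 0)]) (PF.cons (PF.leaf (nat_lit 5299769) (nat_lit 438603) (nat_lit 47157248) (nat_lit 14121065) [(nat_lit 438603), (nat_lit 1504895), (nat_lit 0), (nat_lit 0)]) (PF.cons (PF.leaf (nat_lit 5601001) (nat_lit 448721) (nat_lit 46673707) (nat_lit 14071689) [(nat_lit 448721), (nat_lit 1522842), (nat_lit 0), (nat_lit 0)]) (PF.cons PF.nil (PF.cons PF.nil PF.nil)))))))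 (PF.cons (PF.cons (PF.leaf (nat_lit 5175682) (nat_lit 1500785) (nat_lit 47004454) (nat_lit 14101217) [(nat_lit 0), (nat_lit 1500785), (nat_lit 0), (nat_lit 0)]) (PF.cons (PF.leaf (nat_lit 5462463) (nat_lit
 442728) (nat_lit 46539733) (nat_lit 14053055) [(nat_lit 442728), (nat_lit 1518323), (nat_lit 0), (nat_lit 0)]) (PF.cons (PF.leaf (nat_lit 5759288) (nat_lit 452496) (nat_lit 46063805) (nat_lit 14001300) [(nat_lit 452496), (nat_lit 1534678), (nat_lit 0), (nat_lit 0)]) (PF.cons PF.nil (PF.cons PF.nil PF.nil))))) (PF.cons (PF.cons (PF.leaf (nat_lit 5917032) (nat_lit 1545171) (nat_lit 45455654) (nat_lit 13927298) [(nat_lit 0), (nat_lit 1545171), (nat_lit 0), (nat_lit 0)]) (PF.cons (PF.leaf (nat_lit 6216875) (nat_lit 464319) (nat_lit 44979638) (nat_lit 13870130) [(nat_lit 464319), (nat_lit 1558944), (nat_lit 0), (nat_lit 0)]) (PF.cons PF.nil (PF.cons PF.nil PF.nil)))) (PF.cons (PF.cons (PF.leaf (nat_lit 6671435) (nat_lit 1578377) (nat_lit 43909510) (nat_lit 13729037)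 [(nat_lit 0), (nat_lit 1578377), (nat_lit 0), (nat_lit 0)]) (PF.cons PF.nil PF.nil)) (PF.cons PF.nil PF.nil)))))))) (PF.cons (PF.cons (PF.cons (PF.leaf (nat_lit 3705481) (nat_lit 3319608) (nat_lit 49486355) (nat_lit 14302848) [(nat_lit 0), (nat_lit 0), (nat_lit 3319608), (nat_lit 0)]) (PF.cons (PF.leaf (nat_lit 3922757) (nat_lit 361545) (nat_lit 49124838) (nat_lit 14276394) [(nat_lit 361545), (nat_lit 0), (nat_lit 3346035),
 (nat_lit 0)]) (PF.cons (PF.leaf (nat_lit 4160970) (nat_lit 378935) (nat_lit 48732728) (nat_lit 14245883) [(nat_lit 378935), (nat_lit 0), (nat_lit 3372328), (nat_lit 0)]) (PF.cons (PF.leaf (nat_lit 4415881) (nat_lit 394432) (nat_lit 48316232) (nat_lit 14211450) [(nat_lit 394432), (nat_lit 0), (nat_lit 3397833), (nat_lit 0)]) (PF.cons (PF.leaf (nat_lit 4684917) (nat_lit 408396) (nat_lit 47879919) (nat_lit 14173184) [(nat_lit 408396), (nat_lit 0), (nat_lit 3422123), (nat_lit 0)]) (PF.cons (PF.leaf (nat_lit 4966121) (nat_lit 421070) (nat_lit 47427364)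 (nat_lit 14131169) [(nat_lit 421070), (nat_lit 0), (nat_lit 3444924), (nat_lit 0)]) (PF.cons (PF.leaf (nat_lit 5257782) (nat_lit 432630) (nat_lit 46961482) (nat_lit 14085491) [(nat_lit 432630), (nat_lit 0), (nat_lit 3466059), (nat_lit 0)]) (PF.cons PF.nil (PF.cons PF.nil PF.nil))))))))) (PF.cons (PF.cons (PF.leaf (nat_lit 4341484) (nat_lit 1423566) (nat_lit 48097085) (nat_lit 14187997) [(nat_lit 0), (nat_lit 1423566), (nat_lit 3400163), (nat_lit 0)]) (PF.cons (PF.leaf (nat_lit 4589713) (nat_lit 399988) (nat_lit 47689393) (nat_lit 14151272) [(nat_lit 399988), (nat_lit 1445807), (nat_lit 3422351), (nat_lit 0)]) (PF.cons (PF.leaf (nat_lit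
 4853699) (nat_lit 413599) (nat_lit 47260517) (nat_lit 14110589) [(nat_lit 413599), (nat_lit 1466928), (nat_lit 3443578), (nat_lit 0)]) (PF.cons (PF.leaf (nat_lit 5130379) (nat_lit 425884) (nat_lit 46814731) (nat_lit 14066115) [(nat_lit 425884), (nat_lit 1486786), (nat_lit 3463525), (nat_lit 0)]) (PF.cons (PF.leaf (nat_lit 5417922) (nat_lit 437042) (nat_lit 46355337) (nat_lit 14017992) [(nat_lit 437042), (nat_lit 1505323), (nat_lit 3481988), (nat_lit 0)]) (PF.cons (PF.leaf (nat_lit 5714717) (nat_lit 447216) (nat_lit 45885009) (nat_lit 13966357) [(nat_lit 447216), (nat_lit 1522523), (nat_lit 3498841), (nat_lit 0)]) (PF.cons PF.nil PF.nil))))))) (PF.cons (PF.cons (PF.leaf (nat_lit 5023967) (nat_lit 1482769) (nat_lit 46637693) (nat_lit 14043437) [(nat_lit 0), (nat_lit 1482769), (nat_lit 3462144), (nat_lit 0)]) (PF.cons (PF.leaf (nat_lit 5294625) (nat_lit 429917) (nat_lit 46201011) (nat_lit 13996927) [(nat_lit 429917), (nat_lit 1500772), (nat_lit 3479411), (nat_lit 0)])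 (PF.cons (PF.leaf (nat_lit 5577239) (nat_lit 440774) (nat_lit 45749882) (nat_lit 13946729) [(nat_lit 440774), (nat_lit 1517636), (nat_lit 3495377), (nat_lit 0)]) (PF.cons (PF.leaf (nat_lit 5869537) (nat_lit 450626)
 (nat_lit 45287382) (nat_lit 13893035) [(nat_lit 450626), (nat_lit 1533310), (nat_lit 3509894), (nat_lit 0)]) (PF.cons PF.nil PF.nil))))) (PF.cons (PF.cons (PF.leaf (nat_lit 5736935) (nat_lit 1528587) (nat_lit 45144863) (nat_lit 13871785) [(nat_lit 0), (nat_lit 1528587), (nat_lit 3506402), (nat_lit 0)]) (PF.cons (PF.leaf (nat_lit 6023564) (nat_lit 453440) (nat_lit 44691751) (nat_lit 13816400) [(nat_lit 453440), (nat_lit 1542828), (nat_lit 3518735), (nat_lit 0)]) (PF.cons (PF.leaf (nat_lit 6319262) (nat_lit 462147) (nat_lit 44229179) (nat_lit 13757707) [(nat_lit 462147), (nat_lit 1555986), (nat_lit 3529671), (nat_lit 0)]) (PF.cons PF.nil PF.nil)))) (PF.cons (PF.cons (PF.leaf (nat_lit 6468126) (nat_lit 1563093) (nat_lit 43645389) (nat_lit 13676512) [(nat_lit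 0), (nat_lit 1563093), (nat_lit 3534536), (nat_lit 0)]) (PF.cons (PF.leaf (nat_lit 6765671) (nat_lit 471866) (nat_lit 43185217) (nat_lit 13613402) [(nat_lit 471866), (nat_lit 1574023), (nat_lit 3542233), (nat_lit 0)]) PF.nil)) (PF.cons PF.nil PF.nil)))))) (PF.cons (PF.cons (PF.cons (PF.leaf (nat_lit 4891844) (nat_lit 3444597) (nat_lit 46238283) (nat_lit 13981334) [(nat_lit 0), (nat_lit 0), (nat_lit 3444597), (nat_lit 0)])
 (PF.cons (PF.leaf (nat_lit 5143457) (nat_lit 414524) (nat_lit 45835126) (nat_lit 13937137) [(nat_lit 414524), (nat_lit 0), (nat_lit 3461012), (nat_lit 0)]) (PF.cons (PF.leaf (nat_lit 5409763) (nat_lit 427005) (nat_lit 45412909) (nat_lit 13888998) [(nat_lit 427005), (nat_lit 0), (nat_lit 3476447), (nat_lit 0)]) (PF.cons (PF.leaf (nat_lit 5687721) (nat_lit 438150) (nat_lit 44975830) (nat_lit 13837201) [(nat_lit 438150), (nat_lit 0), (nat_lit 3490664), (nat_lit 0)]) (PF.cons (PF.leaf (nat_lit 5975466) (nat_lit 448177) (nat_lit 44527089) (nat_lit 13781975)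 [(nat_lit 448177), (nat_lit 0), (nat_lit 3503519), (nat_lit 0)]) (PF.cons (PF.leaf (nat_lit 6271487) (nat_lit 457243) (nat_lit 44069229) (nat_lit 13723522) [(nat_lit 457243), (nat_lit 0), (nat_lit 3514922), (nat_lit 0)]) (PF.cons PF.nil PF.nil))))))) (PF.cons (PF.cons (PF.leaf (nat_lit 5572601) (nat_lit 1510734) (nat_lit 44809897) (nat_lit 13812861) [(nat_lit 0), (nat_lit 1510734), (nat_lit 3487660), (nat_lit 0)]) (PF.cons (PF.leaf (nat_lit 5844032) (nat_lit 440848) (nat_lit 44383290) (nat_lit 13759719) [(nat_lit 440848), (nat_lit 1525555), (nat_lit 3499699), (nat_lit 0)]) (PF.cons (PF.leaf (nat_lit 6126464) (nat_lit 450670)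
 (nat_lit 43944032) (nat_lit 13703086) [(nat_lit 450670), (nat_lit 1539309), (nat_lit 3510521), (nat_lit 0)]) (PF.cons (PF.leaf (nat_lit 6417627) (nat_lit 459499) (nat_lit 43495075) (nat_lit 13643221) [(nat_lit 459499), (nat_lit 1551968), (nat_lit 3520023), (nat_lit 0)]) (PF.cons PF.nil PF.nil))))) (PF.cons (PF.cons (PF.leaf (nat_lit 6277921) (nat_lit 1546841) (nat_lit 43362736) (nat_lit 13621209) [(nat_lit 0), (nat_lit 1546841), (nat_lit 3515591), (nat_lit 0)]) (PF.cons (PF.leaf (nat_lit 6563129) (nat_lit 461237) (nat_lit 42924021) (nat_lit 13560281) [(nat_lit 461237), (nat_lit 1558313), (nat_lit 3523322), (nat_lit 0)]) (PF.cons (PF.leaf (nat_lit 6856570) (nat_lit 469018) (nat_lit 42477279) (nat_lit 13496335) [(nat_lit 469018), (nat_lit 1568791), (nat_lit 3529789), (nat_lit 0)]) (PF.cons PF.nil PF.nil)))) (PF.cons (PF.cons (PF.leaf (nat_lit 6996823) (nat_lit 1573145) (nat_lit 41919610) (nat_lit 13410058) [(nat_lit 0), (nat_lit 1573145), (nat_lit 3529853), (nat_lit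 0)]) (PF.cons PF.nil PF.nil)) (PF.cons PF.nil PF.nil))))) (PF.cons (PF.cons (PF.cons (PF.leaf (nat_lit 6103098) (nat_lit 3496328) (nat_lit 43057399) (nat_lit 13562428) [(nat_lit 0), (nat_lit 0), (nat_lit 3496328),
 (nat_lit 0)]) (PF.cons (PF.leaf (nat_lit 6373964) (nat_lit 448939) (nat_lit 42643573) (nat_lit 13504166) [(nat_lit 448939), (nat_lit 0), (nat_lit 3504044), (nat_lit 0)]) (PF.cons (PF.leaf (nat_lit 6654992) (nat_lit 457846) (nat_lit 42218617) (nat_lit 13442629) [(nat_lit 457846), (nat_lit 0), (nat_lit 3510624), (nat_lit 0)]) (PF.cons (PF.leaf (nat_lit 6943961) (nat_lit 465777) (nat_lit 41785348) (nat_lit 13378130) [(nat_lit 465777), (nat_lit 0), (nat_lit 3516000), (nat_lit 0)]) (PF.cons PF.nil PF.nil))))) (PF.cons (PF.cons (PF.leaf (nat_lit 6798382) (nat_lit 1557359) (nat_lit 41662845) (nat_lit 13355845) [(nat_lit 0), (nat_lit 1557359), (nat_lit 3510920), (nat_lit 0)]) (PF.cons (PF.leaf (nat_lit 7081195) (nat_lit 466627) (nat_lit 41240280) (nat_lit 13290816)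 [(nat_lit 466627), (nat_lit 1566495), (nat_lit 3514864), (nat_lit 0)]) (PF.cons PF.nil (PF.cons PF.nil PF.nil)))) (PF.cons (PF.cons (PF.leaf (nat_lit 7503547) (nat_lit 1576829) (nat_lit 40280043) (nat_lit 13133421) [(nat_lit 0), (nat_lit 1576829), (nat_lit 3513896), (nat_lit 0)]) (PF.cons PF.nil PF.nil)) PF.nil))) (PF.cons (PF.cons (PF.cons (PF.leaf (nat_lit 7298503) (nat_lit 3495249) (nat_lit 40046918) (nat_lit 13080898)
 [(nat_lit 0), (nat_lit 0), (nat_lit 3495249), (nat_lit 0)]) (PF.cons (PF.leaf (nat_lit 7578195) (nat_lit 470024) (nat_lit 39641491) (nat_lit 13012981) [(nat_lit 470024), (nat_lit 0), (nat_lit 3496078), (nat_lit 0)]) PF.nil)) (PF.cons PF.nil PF.nil)) (PF.cons PF.nil PF.nil)))))) (PF.cons (PF.cons (PF.cons (PF.cons (PF.leaf (nat_lit 4648533) (nat_lit 8965350) (nat_lit 44497757) (nat_lit 13645705) [(nat_lit 0), (nat_lit 0), (nat_lit 0), (nat_lit 8965350)]) (PF.cons (PF.leaf (nat_lit 4863321) (nat_lit 371484) (nat_lit 44173213) (nat_lit 13607752) [(nat_lit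 371484), (nat_lit 0), (nat_lit 0), (nat_lit 8956362)]) (PF.cons (PF.leaf (nat_lit 5097504) (nat_lit 387672) (nat_lit 43822708) (nat_lit 13565468) [(nat_lit 387672), (nat_lit 0), (nat_lit 0), (nat_lit 8945292)]) (PF.cons (PF.leaf (nat_lit 5346795) (nat_lit 401822) (nat_lit 43451952) (nat_lit 13519302) [(nat_lit 401822), (nat_lit 0), (nat_lit 0), (nat_lit 8932089)]) (PF.cons (PF.leaf (nat_lit 5608622) (nat_lit 414350) (nat_lit 43065099) (nat_lit 13469583) [(nat_lit 414350), (nat_lit 0), (nat_lit 0), (nat_lit 8916727)]) (PF.cons (PF.leaf (nat_lit 5881001) (nat_lit 425538) (nat_lit 42665355) (nat_lit 13416570) [(nat_lit 425538),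
 (nat_lit 0), (nat_lit 0), (nat_lit 8899195)]) (PF.cons (PF.leaf (nat_lit 6162377) (nat_lit 435588) (nat_lit 42255290) (nat_lit 13360485) [(nat_lit 435588), (nat_lit 0), (nat_lit 0), (nat_lit 8879507)]) (PF.cons (PF.leaf (nat_lit 6451364) (nat_lit 444652) (nat_lit 41837026) (nat_lit 13301526) [(nat_lit 444652), (nat_lit 0), (nat_lit 0), (nat_lit 8857691)]) (PF.cons PF.nil PF.nil))))))))) (PF.cons (PF.cons (PF.leaf (nat_lit 5262541) (nat_lit 1435027) (nat_lit 43262899) (nat_lit 13491272) [(nat_lit 0), (nat_lit 1435027), (nat_lit 0), (nat_lit 8919613)]) (PF.cons (PF.leaf (nat_lit 5504410) (nat_lit 405342) (nat_lit 42901822) (nat_lit 13444222) [(nat_lit 405342), (nat_lit 1452749), (nat_lit 0), (nat_lit 8904676)]) (PF.cons (PF.leaf (nat_lit 5760483) (nat_lit 417612) (nat_lit 42523294) (nat_lit 13393452) [(nat_lit 417612), (nat_lit 1469282), (nat_lit 0), (nat_lit 8887558)]) (PF.cons (PF.leaf (nat_lit 6027839) (nat_lit 428505) (nat_lit 42131131) (nat_lit 13339315) [(nat_lit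 428505), (nat_lit 1484560), (nat_lit 0), (nat_lit 8868288)]) (PF.cons (PF.leaf (nat_lit 6304582) (nat_lit 438248) (nat_lit 41728249) (nat_lit 13282090) [(nat_lit 438248), (nat_lit 1498577), (nat_lit 0), (nat_lit
 8846900)]) (PF.cons (PF.leaf (nat_lit 6589254) (nat_lit 447006) (nat_lit 41316968) (nat_lit 13222010) [(nat_lit 447006), (nat_lit 1511358), (nat_lit 0), (nat_lit 8823441)]) (PF.cons PF.nil PF.nil))))))) (PF.cons (PF.cons (PF.leaf (nat_lit 5913871) (nat_lit 1479245) (nat_lit 41980394) (nat_lit 13314305) [(nat_lit 0), (nat_lit 1479245), (nat_lit 0), (nat_lit 8855621)]) (PF.cons (PF.leaf (nat_lit 6174737) (nat_lit 430811) (nat_lit 41597629) (nat_lit 13259433) [(nat_lit 430811), (nat_lit 1493040), (nat_lit 0), (nat_lit 8834858)]) (PF.cons (PF.leaf (nat_lit 6446224) (nat_lit 440345) (nat_lit 41203269) (nat_lit 13201388) [(nat_lit 440345), (nat_lit 1505736), (nat_lit 0), (nat_lit 8811989)]) (PF.cons (PF.leaf (nat_lit 6726116) (nat_lit 448871) (nat_lit 40799994)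 (nat_lit 13140464) [(nat_lit 448871), (nat_lit 1517327), (nat_lit 0), (nat_lit 8787084)]) (PF.cons (PF.leaf (nat_lit 7013028) (nat_lit 456527) (nat_lit 40389919) (nat_lit 13076907) [(nat_lit 456527), (nat_lit 1527830), (nat_lit 0), (nat_lit 8760214)]) PF.nil))))) (PF.cons (PF.cons (PF.leaf (nat_lit 6588465) (nat_lit 1511876) (nat_lit 40679944) (nat_lit 13118397) [(nat_lit 0), (nat_lit 1511876), (nat_lit 0), (nat_lit 8774841)])
 (PF.cons (PF.leaf (nat_lit 6862502) (nat_lit 450247) (nat_lit 40285854) (nat_lit 13056937) [(nat_lit 450247), (nat_lit 1522357), (nat_lit 0), (nat_lit 8748701)]) (PF.cons (PF.leaf (nat_lit 7144509) (nat_lit 457725) (nat_lit 39884366) (nat_lit 12992809) [(nat_lit 457725), (nat_lit 1531853), (nat_lit 0), (nat_lit 8720627)]) (PF.cons PF.nil PF.nil)))) (PF.cons (PF.cons (PF.leaf (nat_lit 7276006) (nat_lit 1535072) (nat_lit 39382222) (nat_lit 12907028) [(nat_lit 0), (nat_lit 1535072), (nat_lit 0), (nat_lit 8679271)]) (PF.cons (PF.leaf (nat_lit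 7558828) (nat_lit 465057) (nat_lit 38984256) (nat_lit 12840165) [(nat_lit 465057), (nat_lit 1542740), (nat_lit 0), (nat_lit 8648371)]) PF.nil)) (PF.cons PF.nil PF.nil)))))) (PF.cons (PF.cons (PF.cons (PF.leaf (nat_lit 5767927) (nat_lit 3391505) (nat_lit 41648987) (nat_lit 13250689) [(nat_lit 0), (nat_lit 0), (nat_lit 3391505), (nat_lit 8817630)]) (PF.cons (PF.leaf (nat_lit 6011242) (nat_lit 415292) (nat_lit 41295415) (nat_lit 13199254) [(nat_lit 415292), (nat_lit 0), (nat_lit 3400883), (nat_lit 8797967)]) (PF.cons (PF.leaf (nat_lit 6267901) (nat_lit 426552) (nat_lit 40926080) (nat_lit 13144211) [(nat_lit 426552), (nat_lit 0), (nat_lit 3409284),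
 (nat_lit 8776131)]) (PF.cons (PF.leaf (nat_lit 6534927) (nat_lit 436454) (nat_lit 40544676) (nat_lit 13085977) [(nat_lit 436454), (nat_lit 0), (nat_lit 3416573), (nat_lit 8752221)]) (PF.cons (PF.leaf (nat_lit 6810528) (nat_lit 445236) (nat_lit 40153987) (nat_lit 13024876) [(nat_lit 445236), (nat_lit 0), (nat_lit 3422677), (nat_lit 8726324)]) (PF.cons (PF.leaf (nat_lit 7093271) (nat_lit 453069) (nat_lit 39756202) (nat_lit 12961175) [(nat_lit 453069), (nat_lit 0), (nat_lit 3427560), (nat_lit 8698524)]) (PF.cons PF.nil PF.nil))))))) (PF.cons (PF.cons (PF.leaf (nat_lit 6414264) (nat_lit 1493708) (nat_lit 40404170) (nat_lit 13060604) [(nat_lit 0), (nat_lit 1493708), (nat_lit 3411763), (nat_lit 8738565)]) (PF.cons (PF.leaf (nat_lit 6674562) (nat_lit 437749) (nat_lit 40032848) (nat_lit 13002108) [(nat_lit 437749), (nat_lit 1505011), (nat_lit 3417503), (nat_lit 8713590)]) (PF.cons (PF.leaf (nat_lit 6944689) (nat_lit 446405) (nat_lit 39651274) (nat_lit 12940638) [(nat_lit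 446405), (nat_lit 1515300), (nat_lit 3422170), (nat_lit 8686619)]) (PF.cons (PF.leaf (nat_lit 7222485) (nat_lit 454079) (nat_lit 39261994) (nat_lit 12876521) [(nat_lit 454079), (nat_lit 1524580), (nat_lit 3425715),
 (nat_lit 8657764)]) (PF.cons PF.nil PF.nil))))) (PF.cons (PF.cons (PF.leaf (nat_lit 7079590) (nat_lit 1518988) (nat_lit 39150887) (nat_lit 12854566) [(nat_lit 0), (nat_lit 1518988), (nat_lit 3420301), (nat_lit 8645080)]) (PF.cons (PF.leaf (nat_lit 7351403) (nat_lit 454658) (nat_lit 38771141) (nat_lit 12790322) [(nat_lit 454658), (nat_lit 1527355), (nat_lit 3422614), (nat_lit 8615365)]) (PF.cons (PF.leaf (nat_lit 7630517) (nat_lit 461377) (nat_lit 38385016) (nat_lit 12723646) [(nat_lit 461377), (nat_lit 1534821), (nat_lit 3423874), (nat_lit 8583877)]) (PF.cons PF.nil PF.nil)))) (PF.cons (PF.cons (PF.leaf (nat_lit 7754602) (nat_lit 1536105) (nat_lit 37906781) (nat_lit 12635971) [(nat_lit 0), (nat_lit 1536105), (nat_lit 3418533), (nat_lit 8539211)]) (PF.cons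 PF.nil PF.nil)) (PF.cons PF.nil PF.nil))))) (PF.cons (PF.cons (PF.cons (PF.leaf (nat_lit 6897894) (nat_lit 3400601) (nat_lit 38899835) (nat_lit 12798588) [(nat_lit 0), (nat_lit 0), (nat_lit 3400601), (nat_lit 8609185)]) (PF.cons (PF.leaf (nat_lit 7156734) (nat_lit 442603) (nat_lit 38541305) (nat_lit 12737464) [(nat_lit 442603), (nat_lit 0), (nat_lit 3403283), (nat_lit 8580873)]) (PF.cons (PF.leaf (nat_lit 7424715) (nat_lit
 450485) (nat_lit 38173660) (nat_lit 12673564) [(nat_lit 450485), (nat_lit 0), (nat_lit 3404968), (nat_lit 8550682)]) (PF.cons (PF.leaf (nat_lit 7699744) (nat_lit 457412) (nat_lit 37799315) (nat_lit 12607239) [(nat_lit 457412), (nat_lit 0), (nat_lit 3405633), (nat_lit 8518753)]) (PF.cons PF.nil PF.nil))))) (PF.cons (PF.cons (PF.leaf (nat_lit 7552565) (nat_lit 1520752) (nat_lit 37696637) (nat_lit 12585649) [(nat_lit 0), (nat_lit 1520752), (nat_lit 3399941), (nat_lit 8505890)]) (PF.cons (PF.leaf (nat_lit 7821531) (nat_lit 457338) (nat_lit 37331945)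 (nat_lit 12519535) [(nat_lit 457338), (nat_lit 1527335), (nat_lit 3399620), (nat_lit 8473417)]) (PF.cons PF.nil (PF.cons PF.nil PF.nil)))) (PF.cons (PF.cons (PF.leaf (nat_lit 8214306) (nat_lit 1532804) (nat_lit 36507200) (nat_lit 12362666) [(nat_lit 0), (nat_lit 1532804), (nat_lit 3390515), (nat_lit 8392305)]) (PF.cons PF.nil PF.nil)) PF.nil))) (PF.cons (PF.cons (PF.cons (PF.leaf (nat_lit 8007858) (nat_lit 3372594) (nat_lit 36316225) (nat_lit 12314686) [(nat_lit 0), (nat_lit 0), (nat_lit 3372594), (nat_lit 8360116)]) (PF.cons (PF.leaf (nat_lit 8273500) (nat_lit 458585) (nat_lit 35966865) (nat_lit 12247458) [(nat_lit 458585), (nat_lit 0),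
 (nat_lit 3370111), (nat_lit 8325568)]) PF.nil)) (PF.cons PF.nil PF.nil)) (PF.cons PF.nil PF.nil))))) (PF.cons (PF.cons (PF.cons (PF.cons (PF.leaf (nat_lit 6541704) (nat_lit 8419379) (nat_lit 37754858) (nat_lit 12515195) [(nat_lit 0), (nat_lit 0), (nat_lit 0), (nat_lit 8419379)]) (PF.cons (PF.leaf (nat_lit 6776021) (nat_lit 410672) (nat_lit 37446261) (nat_lit 12461709) [(nat_lit 410672), (nat_lit 0), (nat_lit 0), (nat_lit 8395085)]) (PF.cons (PF.leaf (nat_lit 7022590) (nat_lit 420933) (nat_lit 37124426) (nat_lit 12404958) [(nat_lit 420933), (nat_lit 0), (nat_lit 0), (nat_lit 8368780)]) (PF.cons (PF.leaf (nat_lit 7278539) (nat_lit 429845) (nat_lit 36792573) (nat_lit 12345417) [(nat_lit 429845), (nat_lit 0), (nat_lit 0), (nat_lit 8340643)]) (PF.cons (PF.leaf (nat_lit 7542145) (nat_lit 437657) (nat_lit 36453108) (nat_lit 12283443) [(nat_lit 437657), (nat_lit 0), (nat_lit 0), (nat_lit 8310814)]) (PF.cons PF.nil (PF.cons PF.nil PF.nil))))))) (PF.cons (PF.cons (PF.leaf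 (nat_lit 7155179) (nat_lit 1461661) (nat_lit 36673607) (nat_lit 12320744) [(nat_lit 0), (nat_lit 1461661), (nat_lit 0), (nat_lit 8326399)]) (PF.cons (PF.leaf (nat_lit 7404395) (nat_lit 430198) (nat_lit 36350963) (nat_lit
 12261550) [(nat_lit 430198), (nat_lit 1470487), (nat_lit 0), (nat_lit 8297806)]) (PF.cons (PF.leaf (nat_lit 7662564) (nat_lit 437944) (nat_lit 36019799) (nat_lit 12199794) [(nat_lit 437944), (nat_lit 1478360), (nat_lit 0), (nat_lit 8267484)]) (PF.cons (PF.leaf (nat_lit 7927592) (nat_lit 444734) (nat_lit 35682306) (nat_lit 12135824) [(nat_lit 444734), (nat_lit 1485307), (nat_lit 0), (nat_lit 8235585)]) (PF.cons PF.nil PF.nil))))) (PF.cons (PF.cons (PF.leaf (nat_lit 7783972) (nat_lit 1479583) (nat_lit 35588781) (nat_lit 12114996) [(nat_lit 0), (nat_lit 1479583), (nat_lit 0), (nat_lit 8222934)]) (PF.cons (PF.leaf (nat_lit 8043122) (nat_lit 444557) (nat_lit 35259819) (nat_lit 12051412) [(nat_lit 444557), (nat_lit 1485814), (nat_lit 0), (nat_lit 8190697)])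 (PF.cons PF.nil (PF.cons PF.nil PF.nil)))) (PF.cons (PF.cons (PF.leaf (nat_lit 8420023) (nat_lit 1490597) (nat_lit 34514353) (nat_lit 11900974) [(nat_lit 0), (nat_lit 1490597), (nat_lit 0), (nat_lit 8110846)]) (PF.cons PF.nil PF.nil)) (PF.cons PF.nil PF.nil))))) (PF.cons (PF.cons (PF.cons (PF.leaf (nat_lit 7599516) (nat_lit 3285928) (nat_lit 35381336) (nat_lit 12063623) [(nat_lit 0), (nat_lit 0), (nat_lit 3285928), (nat_lit
 8188962)]) (PF.cons (PF.leaf (nat_lit 7846815) (nat_lit 432938) (nat_lit 35070402) (nat_lit 12003241) [(nat_lit 432938), (nat_lit 0), (nat_lit 3285485), (nat_lit 8158372)]) (PF.cons (PF.leaf (nat_lit 8102533) (nat_lit 440020) (nat_lit 34751823) (nat_lit 11940467) [(nat_lit 440020), (nat_lit 0), (nat_lit 3284161), (nat_lit 8126159)]) (PF.cons PF.nil PF.nil)))) (PF.cons (PF.cons (PF.leaf (nat_lit 8217791) (nat_lit 1476024) (nat_lit 34341215) (nat_lit 11855488) [(nat_lit 0), (nat_lit 1476024), (nat_lit 3276119), (nat_lit 8079982)]) (PF.cons (PF.leaf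 (nat_lit 8473954) (nat_lit 445509) (nat_lit 34025555) (nat_lit 11791284) [(nat_lit 445509), (nat_lit 1480861), (nat_lit 3273229), (nat_lit 8046185)]) PF.nil)) (PF.cons PF.nil PF.nil))) (PF.cons (PF.cons (PF.cons (PF.leaf (nat_lit 8636246) (nat_lit 3242756) (nat_lit 33156675) (nat_lit 11597826) [(nat_lit 0), (nat_lit 0), (nat_lit 3242756), (nat_lit 7934399)]) (PF.cons PF.nil PF.nil)) (PF.cons PF.nil PF.nil)) PF.nil))) (PF.cons (PF.cons (PF.cons (PF.cons (PF.leaf (nat_lit 8227655) (nat_lit 7781672) (nat_lit 32387057) (nat_lit 11376737) [(nat_lit 0), (nat_lit 0), (nat_lit 0), (nat_lit 7781672)]) (PF.cons (PF.leaf (nat_lit 8464179) (nat_lit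
 421586) (nat_lit 32116304) (nat_lit 11318859) [(nat_lit 421586), (nat_lit 0), (nat_lit 0), (nat_lit 7750687)]) (PF.cons (PF.leaf (nat_lit 8708521) (nat_lit 428028) (nat_lit 31839021) (nat_lit 11258895) [(nat_lit 428028), (nat_lit 0), (nat_lit 0), (nat_lit 7718279)]) (PF.cons PF.nil PF.nil)))) (PF.cons (PF.cons (PF.leaf (nat_lit 8813457) (nat_lit 1427955) (nat_lit 31483716) (nat_lit 11178677) [(nat_lit 0), (nat_lit 1427955), (nat_lit 0), (nat_lit 7672821)]) (PF.cons PF.nil PF.nil)) (PF.cons PF.nil PF.nil))) (PF.cons (PF.cons (PF.cons (PF.leaf (nat_lit 9201224) (nat_lit 3113129) (nat_lit 30460886) (nat_lit 10938050) [(nat_lit 0), (nat_lit 0), (nat_lit 3113129), (nat_lit 7532248)]) (PF.cons PF.nil PF.nil)) PF.nil) PF.nil)) (PF.cons PF.nil (PF.cons PF.nil (PF.cons PF.nil (PF.cons PF.nil PF.nil))))))))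

def p12_13_2_0 : pfC (piC [(nat_lit 39120232), (nat_lit 25510466), (nat_lit 18971201), (nat_lit 12765436)] (nat_lit 7444406)) p12_13_2 (nat_lit 4) (nat_lit 0) (nat_lit 1) = true := by decide +kernel
def p12_13_2_1 : pfC (piC [(nat_lit 39120232), (nat_lit 25510466), (nat_lit 18971201), (nat_lit 12765436)] (nat_lit 7444406)) p12_13_2 (nat_lit 4) (nat_lit 1) (nat_lit 2) = true := by decide +kernel
def p12_13_2_2 : pfC (piC [(nat_lit 39120232), (nat_lit 25510466), (nat_lit 18971201), (nat_lit 12765436)] (nat_lit 7444406)) p12_13_2 (nat_lit 4) (nat_lit 2) (nat_lit 3) = true := by decide +kernel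
def p12_13_2_3 : pfC (piC [(nat_lit 39120232), (nat_lit 25510466), (nat_lit 18971201), (nat_lit 12765436)] (nat_lit 7444406)) p12_13_2 (nat_lit 4) (nat_lit 3) (nat_lit 4) = true := by decide +kernel
def p12_13_2_4 : pfC (piC [(nat_lit 39120232), (nat_lit 25510466), (nat_lit 18971201), (nat_lit 12765436)] (nat_lit 7444406)) p12_13_2 (nat_lit 4) (nat_lit 4) (nat_lit 5) = true := by decide +kernel
def p12_13_2_5 : pfC (piC [(nat_lit 39120232), (nat_lit 25510466), (nat_lit 18971201), (nat_lit 12765436)] (nat_lit 7444406)) p12_13_2 (nat_lit 4) (nat_lit 5) (nat_lit 6) = true := by decide +kernel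
def p12_13_2_6 : pfC (piC [(nat_lit 39120232), (nat_lit 25510466), (nat_lit 18971201), (nat_lit 12765436)] (nat_lit 7444406)) p12_13_2 (nat_lit 4) (nat_lit 6) (nat_lit 7) = true := by decide +kernel
def p12_13_2_7 : pfC (piC [(nat_lit 39120232), (nat_lit 25510466), (nat_lit 18971201), (nat_lit 12765436)] (nat_lit 7444406)) p12_13_2 (nat_lit 4) (nat_lit 7) (nat_lit 8) = true := by decide +kernel
def p12_13_2_8 : pfC (piC [(nat_lit 39120232), (nat_lit 25510466), (nat_lit 18971201), (nat_lit 12765436)] (nat_lit 7444406)) p12_13_2 (nat_lit 4) (nat_lit 8) (nat_lit 9) = true := by decide +kernel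
def p12_13_2_9 : pfC (piC [(nat_lit 39120232), (nat_lit 25510466), (nat_lit 18971201), (nat_lit 12765436)] (nat_lit 7444406)) p12_13_2 (nat_lit 4) (nat_lit 9) (nat_lit 10) = true := by decide +kernel
def p12_13_2_10 : pfC (piC [(nat_lit 39120232), (nat_lit 25510466), (nat_lit 18971201), (nat_lit 12765436)] (nat_lit 7444406)) p12_13_2 (nat_lit 4) (nat_lit 10) (nat_lit 11) = true := by decide +kernel
def p12_13_2_11 : pfC (piC [(nat_lit 39120232), (nat_lit 25510466), (nat_lit 18971201), (nat_lit 12765436)] (nat_lit 7444406)) p12_13_2 (nat_lit 4) (nat_lit 11) (nat_lit 12) = true := by decide +kernel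
def p12_13_2_12 : pfC (piC [(nat_lit 39120232), (nat_lit 25510466), (nat_lit 18971201), (nat_lit 12765436)] (nat_lit 7444406)) p12_13_2 (nat_lit 4) (nat_lit 12) (nat_lit 13) = true := by decide +kernel
def p12_13_2_13 : pfC (piC [(nat_lit 39120232), (nat_lit 25510466), (nat_lit 18971201), (nat_lit 12765436)] (nat_lit 7444406)) p12_13_2 (nat_lit 4) (nat_lit 13) (nat_lit 14) = true := by decide +kernel
def p12_13_2_14 : pfC (piC [(nat_lit 39120232), (nat_lit 25510466), (nat_lit 18971201), (nat_lit 12765436)] (nat_lit 7444406)) p12_13_2 (nat_lit 4) (nat_lit 14) (nat_lit 15) = true := by decide +kernel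
def p12_13_2_15 : pfC (piC [(nat_lit 39120232), (nat_lit 25510466), (nat_lit 18971201), (nat_lit 12765436)] (nat_lit 7444406)) p12_13_2 (nat_lit 4) (nat_lit 15) (nat_lit 16) = true := by decide +kernel
def p12_13_2_16 : pfC (piC [(nat_lit 39120232), (nat_lit 25510466), (nat_lit 18971201), (nat_lit 12765436)] (nat_lit 7444406)) p12_13_2 (nat_lit 4) (nat_lit 16) (nat_lit 17) = true := by decide +kernel
def p12_13_2_17 : pfC (piC [(nat_lit 39120232), (nat_lit 25510466), (nat_lit 18971201), (nat_lit 12765436)] (nat_lit 7444406)) p12_13_2 (nat_lit 4) (nat_lit 17) (nat_lit 18) = true := by decide +kernel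
def p12_13_2_18 : pfC (piC [(nat_lit 39120232), (nat_lit 25510466), (nat_lit 18971201), (nat_lit 12765436)] (nat_lit 7444406)) p12_13_2 (nat_lit 4) (nat_lit 18) (nat_lit 19) = true := by decide +kernel
def p12_13_2_19 : pfC (piC [(nat_lit 39120232), (nat_lit 25510466), (nat_lit 18971201), (nat_lit 12765436)] (nat_lit 7444406)) p12_13_2 (nat_lit 4) (nat_lit 19) (nat_lit 20) = true := by decide +kernel
def p12_13_2_20 : pfC (piC [(nat_lit 39120232), (nat_lit 25510466), (nat_lit 18971201), (nat_lit 12765436)] (nat_lit 7444406)) p12_13_2 (nat_lit 4) (nat_lit 20) (nat_lit 21) = true := by decide +kernel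
def p12_13_2_21 : pfC (piC [(nat_lit 39120232), (nat_lit 25510466), (nat_lit 18971201), (nat_lit 12765436)] (nat_lit 7444406)) p12_13_2 (nat_lit 4) (nat_lit 21) (nat_lit 22) = true := by decide +kernel
def p12_13_2_22 : pfC (piC [(nat_lit 39120232), (nat_lit 25510466), (nat_lit 18971201), (nat_lit 12765436)] (nat_lit 7444406)) p12_13_2 (nat_lit 4) (nat_lit 22) (nat_lit 23) = true := by decide +kernel
def p12_13_2_23 : pfC (piC [(nat_lit 39120232), (nat_lit 25510466), (nat_lit 18971201), (nat_lit 12765436)] (nat_lit 7444406)) p12_13_2 (nat_lit 4) (nat_lit 23) (nat_lit 24) = true := by decide +kernel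
def p12_13_2_24 : pfC (piC [(nat_lit 39120232), (nat_lit 25510466), (nat_lit 18971201), (nat_lit 12765436)] (nat_lit 7444406)) p12_13_2 (nat_lit 4) (nat_lit 24) (nat_lit 25) = true := by decide +kernel
def p12_13_2_25 : pfC (piC [(nat_lit 39120232), (nat_lit 25510466), (nat_lit 18971201), (nat_lit 12765436)] (nat_lit 7444406)) p12_13_2 (nat_lit 4) (nat_lit 25) (nat_lit 26) = true := by decide +kernel
def p12_13_2_26 : pfC (piC [(nat_lit 39120232), (nat_lit 25510466), (nat_lit 18971201), (nat_lit 12765436)] (nat_lit 7444406)) p12_13_2 (nat_lit 4) (nat_lit 26) (nat_lit 27) = true := by decide +kernel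
def p12_13_2_27 : pfC (piC [(nat_lit 39120232), (nat_lit 25510466), (nat_lit 18971201), (nat_lit 12765436)] (nat_lit 7444406)) p12_13_2 (nat_lit 4) (nat_lit 27) (nat_lit 28) = true := by decide +kernel
def p12_13_2_28 : pfC (piC [(nat_lit 39120232), (nat_lit 25510466), (nat_lit 18971201), (nat_lit 12765436)] (nat_lit 7444406)) p12_13_2 (nat_lit 4) (nat_lit 28) (nat_lit 29) = true := by decide +kernel
def p12_13_2_29 : pfC (piC [(nat_lit 39120232), (nat_lit 25510466), (nat_lit 18971201), (nat_lit 12765436)] (nat_lit 7444406)) p12_13_2 (nat_lit 4) (nat_lit 29) (nat_lit 30) = true := by decide +kernel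
def p12_13_2_30 : pfC (piC [(nat_lit 39120232), (nat_lit 25510466), (nat_lit 18971201), (nat_lit 12765436)] (nat_lit 7444406)) p12_13_2 (nat_lit 4) (nat_lit 30) (nat_lit 31) = true := by decide +kernel
def p12_13_2_31 : pfC (piC [(nat_lit 39120232), (nat_lit 25510466), (nat_lit 18971201), (nat_lit 12765436)] (nat_lit 7444406)) p12_13_2 (nat_lit 4) (nat_lit 31) (nat_lit 32) = true := by decide +kernel
def p12_13_2_32 : pfC (piC [(nat_lit 39120232), (nat_lit 25510466), (nat_lit 18971201), (nat_lit 12765436)] (nat_lit 7444406)) p12_13_2 (nat_lit 4) (nat_lit 32) (nat_lit 33) = true := by decide +kernel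
def p12_13_2_33 : pfC (piC [(nat_lit 39120232), (nat_lit 25510466), (nat_lit 18971201), (nat_lit 12765436)] (nat_lit 7444406)) p12_13_2 (nat_lit 4) (nat_lit 33) (nat_lit 34) = true := by decide +kernel
def p12_13_2_34 : pfC (piC [(nat_lit 39120232), (nat_lit 25510466), (nat_lit 18971201), (nat_lit 12765436)] (nat_lit 7444406)) p12_13_2 (nat_lit 4) (nat_lit 34) (nat_lit 35) = true := by decide +kernel
def p12_13_2_35 : pfC (piC [(nat_lit 39120232), (nat_lit 25510466), (nat_lit 18971201), (nat_lit 12765436)] (nat_lit 7444406)) p12_13_2 (nat_lit 4) (nat_lit 35) (nat_lit 36) = true := by decide +kernel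
def p12_13_2_36 : pfC (piC [(nat_lit 39120232), (nat_lit 25510466), (nat_lit 18971201), (nat_lit 12765436)] (nat_lit 7444406)) p12_13_2 (nat_lit 4) (nat_lit 36) (nat_lit 37) = true := by decide +kernel
def p12_13_2_37 : pfC (piC [(nat_lit 39120232), (nat_lit 25510466), (nat_lit 18971201), (nat_lit 12765436)] (nat_lit 7444406)) p12_13_2 (nat_lit 4) (nat_lit 37) (nat_lit 38) = true := by decide +kernel
def p12_13_2_38 : pfC (piC [(nat_lit 39120232), (nat_lit 25510466), (nat_lit 18971201), (nat_lit 12765436)] (nat_lit 7444406)) p12_13_2 (nat_lit 4) (nat_lit 38) (nat_lit 39) = true := by decide +kernel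
def p12_13_2_39 : pfC (piC [(nat_lit 39120232), (nat_lit 25510466), (nat_lit 18971201), (nat_lit 12765436)] (nat_lit 7444406)) p12_13_2 (nat_lit 4) (nat_lit 39) (nat_lit 40) = true := by decide +kernel
def p12_13_2_40 : pfC (piC [(nat_lit 39120232), (nat_lit 25510466), (nat_lit 18971201), (nat_lit 12765436)] (nat_lit 7444406)) p12_13_2 (nat_lit 4) (nat_lit 40) (nat_lit 41) = true := by decide +kernel
def p12_13_2_41 : pfC (piC [(nat_lit 39120232), (nat_lit 25510466), (nat_lit 18971201), (nat_lit 12765436)] (nat_lit 7444406)) p12_13_2 (nat_lit 4) (nat_lit 41) (nat_lit 42) = true := by decide +kernel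
def p12_13_2_42 : pfC (piC [(nat_lit 39120232), (nat_lit 25510466), (nat_lit 18971201), (nat_lit 12765436)] (nat_lit 7444406)) p12_13_2 (nat_lit 4) (nat_lit 42) (nat_lit 43) = true := by decide +kernel
def p12_13_2_43 : pfC (piC [(nat_lit 39120232), (nat_lit 25510466), (nat_lit 18971201), (nat_lit 12765436)] (nat_lit 7444406)) p12_13_2 (nat_lit 4) (nat_lit 43) (nat_lit 44) = true := by decide +kernel
def p12_13_2_44 : pfC (piC [(nat_lit 39120232), (nat_lit 25510466), (nat_lit 18971201), (nat_lit 12765436)] (nat_lit 7444406)) p12_13_2 (nat_lit 4) (nat_lit 44) (nat_lit 45) = true := by decide +kernel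
def p12_13_2_45 : pfC (piC [(nat_lit 39120232), (nat_lit 25510466), (nat_lit 18971201), (nat_lit 12765436)] (nat_lit 7444406)) p12_13_2 (nat_lit 4) (nat_lit 45) (nat_lit 46) = true := by decide +kernel
def p12_13_2_46 : pfC (piC [(nat_lit 39120232), (nat_lit 25510466), (nat_lit 18971201), (nat_lit 12765436)] (nat_lit 7444406)) p12_13_2 (nat_lit 4) (nat_lit 46) (nat_lit 47) = true := by decide +kernel
def p12_13_2_47 : pfC (piC [(nat_lit 39120232), (nat_lit 25510466), (nat_lit 18971201), (nat_lit 12765436)] (nat_lit 7444406)) p12_13_2 (nat_lit 4) (nat_lit 47) (nat_lit 48) = true := by decide +kernel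
def p12_13_2_48 : pfC (piC [(nat_lit 39120232), (nat_lit 25510466), (nat_lit 18971201), (nat_lit 12765436)] (nat_lit 7444406)) p12_13_2 (nat_lit 4) (nat_lit 48) (nat_lit 49) = true := by decide +kernel
def p12_13_2_49 : pfC (piC [(nat_lit 39120232), (nat_lit 25510466), (nat_lit 18971201), (nat_lit 12765436)] (nat_lit 7444406)) p12_13_2 (nat_lit 4) (nat_lit 49) (nat_lit 50) = true := by decide +kernel
def p12_13_2_50 : pfC (piC [(nat_lit 39120232), (nat_lit 25510466), (nat_lit 18971201), (nat_lit 12765436)] (nat_lit 7444406)) p12_13_2 (nat_lit 4) (nat_lit 50) (nat_lit 51) = true := by decide +kernel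
def p12_13_2_51 : pfC (piC [(nat_lit 39120232), (nat_lit 25510466), (nat_lit 18971201), (nat_lit 12765436)] (nat_lit 7444406)) p12_13_2 (nat_lit 4) (nat_lit 51) (nat_lit 52) = true := by decide +kernel
def p12_13_2_52 : pfC (piC [(nat_lit 39120232), (nat_lit 25510466), (nat_lit 18971201), (nat_lit 12765436)] (nat_lit 7444406)) p12_13_2 (nat_lit 4) (nat_lit 52) (nat_lit 53) = true := by decide +kernel
def p12_13_2_53 : pfC (piC [(nat_lit 39120232), (nat_lit 25510466), (nat_lit 18971201), (nat_lit 12765436)] (nat_lit 7444406)) p12_13_2 (nat_lit 4) (nat_lit 53) (nat_lit 54) = true := by decide +kernel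
def p12_13_2_54 : pfC (piC [(nat_lit 39120232), (nat_lit 25510466), (nat_lit 18971201), (nat_lit 12765436)] (nat_lit 7444406)) p12_13_2 (nat_lit 4) (nat_lit 54) (nat_lit 55) = true := by decide +kernel
def p12_13_2_55 : pfC (piC [(nat_lit 39120232), (nat_lit 25510466), (nat_lit 18971201), (nat_lit 12765436)] (nat_lit 7444406)) p12_13_2 (nat_lit 4) (nat_lit 55) (nat_lit 56) = true := by decide +kernel
def p12_13_2_56 : pfC (piC [(nat_lit 39120232), (nat_lit 25510466), (nat_lit 18971201), (nat_lit 12765436)] (nat_lit 7444406)) p12_13_2 (nat_lit 4) (nat_lit 56) (nat_lit 57) = true := by decide +kernel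
def p12_13_2_57 : pfC (piC [(nat_lit 39120232), (nat_lit 25510466), (nat_lit 18971201), (nat_lit 12765436)] (nat_lit 7444406)) p12_13_2 (nat_lit 4) (nat_lit 57) (nat_lit 58) = true := by decide +kernel
def p12_13_2_58 : pfC (piC [(nat_lit 39120232), (nat_lit 25510466), (nat_lit 18971201), (nat_lit 12765436)] (nat_lit 7444406)) p12_13_2 (nat_lit 4) (nat_lit 58) (nat_lit 59) = true := by decide +kernel
def p12_13_2_59 : pfC (piC [(nat_lit 39120232), (nat_lit 25510466), (nat_lit 18971201), (nat_lit 12765436)] (nat_lit 7444406)) p12_13_2 (nat_lit 4) (nat_lit 59) (nat_lit 60) = true := by decide +kernel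
def p12_13_2_60 : pfC (piC [(nat_lit 39120232), (nat_lit 25510466), (nat_lit 18971201), (nat_lit 12765436)] (nat_lit 7444406)) p12_13_2 (nat_lit 4) (nat_lit 60) (nat_lit 61) = true := by decide +kernel
def p12_13_2_61 : pfC (piC [(nat_lit 39120232), (nat_lit 25510466), (nat_lit 18971201), (nat_lit 12765436)] (nat_lit 7444406)) p12_13_2 (nat_lit 4) (nat_lit 61) (nat_lit 62) = true := by decide +kernel
def p12_13_2_62 : pfC (piC [(nat_lit 39120232), (nat_lit 25510466), (nat_lit 18971201), (nat_lit 12765436)] (nat_lit 7444406)) p12_13_2 (nat_lit 4) (nat_lit 62) (nat_lit 63) = true := by decide +kernel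
def p12_13_2_63 : pfC (piC [(nat_lit 39120232), (nat_lit 25510466), (nat_lit 18971201), (nat_lit 12765436)] (nat_lit 7444406)) p12_13_2 (nat_lit 4) (nat_lit 63) (nat_lit 64) = true := by decide +kernel
def p12_13_2_64 : pfC (piC [(nat_lit 39120232), (nat_lit 25510466), (nat_lit 18971201), (nat_lit 12765436)] (nat_lit 7444406)) p12_13_2 (nat_lit 4) (nat_lit 64) (nat_lit 65) = true := by decide +kernel
def p12_13_2_65 : pfC (piC [(nat_lit 39120232), (nat_lit 25510466), (nat_lit 18971201), (nat_lit 12765436)] (nat_lit 7444406)) p12_13_2 (nat_lit 4) (nat_lit 65) (nat_lit 66) = true := by decide +kernel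
def p12_13_2_66 : pfC (piC [(nat_lit 39120232), (nat_lit 25510466), (nat_lit 18971201), (nat_lit 12765436)] (nat_lit 7444406)) p12_13_2 (nat_lit 4) (nat_lit 66) (nat_lit 67) = true := by decide +kernel
def p12_13_2_67 : pfC (piC [(nat_lit 39120232), (nat_lit 25510466), (nat_lit 18971201), (nat_lit 12765436)] (nat_lit 7444406)) p12_13_2 (nat_lit 4) (nat_lit 67) (nat_lit 68) = true := by decide +kernel
def p12_13_2_68 : pfC (piC [(nat_lit 39120232), (nat_lit 25510466), (nat_lit 18971201), (nat_lit 12765436)] (nat_lit 7444406)) p12_13_2 (nat_lit 4) (nat_lit 68) (nat_lit 69) = true := by decide +kernel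
def p12_13_2_69 : pfC (piC [(nat_lit 39120232), (nat_lit 25510466), (nat_lit 18971201), (nat_lit 12765436)] (nat_lit 7444406)) p12_13_2 (nat_lit 4) (nat_lit 69) (nat_lit 70) = true := by decide +kernel
def p12_13_2_70 : pfC (piC [(nat_lit 39120232), (nat_lit 25510466), (nat_lit 18971201), (nat_lit 12765436)] (nat_lit 7444406)) p12_13_2 (nat_lit 4) (nat_lit 70) (nat_lit 71) = true := by decide +kernel
def p12_13_2_71 : pfC (piC [(nat_lit 39120232), (nat_lit 25510466), (nat_lit 18971201), (nat_lit 12765436)] (nat_lit 7444406)) p12_13_2 (nat_lit 4) (nat_lit 71) (nat_lit 72) = true := by decide +kernel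
def p12_13_2_72 : pfC (piC [(nat_lit 39120232), (nat_lit 25510466), (nat_lit 18971201), (nat_lit 12765436)] (nat_lit 7444406)) p12_13_2 (nat_lit 4) (nat_lit 72) (nat_lit 73) = true := by decide +kernel
def p12_13_2_73 : pfC (piC [(nat_lit 39120232), (nat_lit 25510466), (nat_lit 18971201), (nat_lit 12765436)] (nat_lit 7444406)) p12_13_2 (nat_lit 4) (nat_lit 73) (nat_lit 74) = true := by decide +kernel
def p12_13_2_74 : pfC (piC [(nat_lit 39120232), (nat_lit 25510466), (nat_lit 18971201), (nat_lit 12765436)] (nat_lit 7444406)) p12_13_2 (nat_lit 4) (nat_lit 74) (nat_lit 75) = true := by decide +kernel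
def p12_13_2_75 : pfC (piC [(nat_lit 39120232), (nat_lit 25510466), (nat_lit 18971201), (nat_lit 12765436)] (nat_lit 7444406)) p12_13_2 (nat_lit 4) (nat_lit 75) (nat_lit 76) = true := by decide +kernel
def p12_13_2_76 : pfC (piC [(nat_lit 39120232), (nat_lit 25510466), (nat_lit 18971201), (nat_lit 12765436)] (nat_lit 7444406)) p12_13_2 (nat_lit 4) (nat_lit 76) (nat_lit 77) = true := by decide +kernel
def p12_13_2_77 : pfC (piC [(nat_lit 39120232), (nat_lit 25510466), (nat_lit 18971201), (nat_lit 12765436)] (nat_lit 7444406)) p12_13_2 (nat_lit 4) (nat_lit 77) (nat_lit 78) = true := by decide +kernel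
def p12_13_2_78 : pfC (piC [(nat_lit 39120232), (nat_lit 25510466), (nat_lit 18971201), (nat_lit 12765436)] (nat_lit 7444406)) p12_13_2 (nat_lit 4) (nat_lit 78) (nat_lit 79) = true := by decide +kernel
def p12_13_2_79 : pfC (piC [(nat_lit 39120232), (nat_lit 25510466), (nat_lit 18971201), (nat_lit 12765436)] (nat_lit 7444406)) p12_13_2 (nat_lit 4) (nat_lit 79) (nat_lit 80) = true := by decide +kernel
def p12_13_2_80 : pfC (piC [(nat_lit 39120232), (nat_lit 25510466), (nat_lit 18971201), (nat_lit 12765436)] (nat_lit 7444406)) p12_13_2 (nat_lit 4) (nat_lit 80) (nat_lit 81) = true := by decide +kernel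
def p12_13_2_81 : pfC (piC [(nat_lit 39120232), (nat_lit 25510466), (nat_lit 18971201), (nat_lit 12765436)] (nat_lit 7444406)) p12_13_2 (nat_lit 4) (nat_lit 81) (nat_lit 82) = true := by decide +kernel
def p12_13_2_82 : pfC (piC [(nat_lit 39120232), (nat_lit 25510466), (nat_lit 18971201), (nat_lit 12765436)] (nat_lit 7444406)) p12_13_2 (nat_lit 4) (nat_lit 82) (nat_lit 83) = true := by decide +kernel
def p12_13_2_83 : pfC (piC [(nat_lit 39120232), (nat_lit 25510466), (nat_lit 18971201), (nat_lit 12765436)] (nat_lit 7444406)) p12_13_2 (nat_lit 4) (nat_lit 83) (nat_lit 84) = true := by decide +kernel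
def p12_13_2_84 : pfC (piC [(nat_lit 39120232), (nat_lit 25510466), (nat_lit 18971201), (nat_lit 12765436)] (nat_lit 7444406)) p12_13_2 (nat_lit 4) (nat_lit 84) (nat_lit 85) = true := by decide +kernel
def p12_13_2_85 : pfC (piC [(nat_lit 39120232), (nat_lit 25510466), (nat_lit 18971201), (nat_lit 12765436)] (nat_lit 7444406)) p12_13_2 (nat_lit 4) (nat_lit 85) (nat_lit 86) = true := by decide +kernel
def p12_13_2_86 : pfC (piC [(nat_lit 39120232), (nat_lit 25510466), (nat_lit 18971201), (nat_lit 12765436)] (nat_lit 7444406)) p12_13_2 (nat_lit 4) (nat_lit 86) (nat_lit 87) = true := by decide +kernel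
def p12_13_2_87 : pfC (piC [(nat_lit 39120232), (nat_lit 25510466), (nat_lit 18971201), (nat_lit 12765436)] (nat_lit 7444406)) p12_13_2 (nat_lit 4) (nat_lit 87) (nat_lit 88) = true := by decide +kernel
def p12_13_2_88 : pfC (piC [(nat_lit 39120232), (nat_lit 25510466), (nat_lit 18971201), (nat_lit 12765436)] (nat_lit 7444406)) p12_13_2 (nat_lit 4) (nat_lit 88) (nat_lit 89) = true := by decide +kernel
def p12_13_2_89 : pfC (piC [(nat_lit 39120232), (nat_lit 25510466), (nat_lit 18971201), (nat_lit 12765436)] (nat_lit 7444406)) p12_13_2 (nat_lit 4) (nat_lit 89) (nat_lit 90) = true := by decide +kernel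
def p12_13_2_90 : pfC (piC [(nat_lit 39120232), (nat_lit 25510466), (nat_lit 18971201), (nat_lit 12765436)] (nat_lit 7444406)) p12_13_2 (nat_lit 4) (nat_lit 90) (nat_lit 91) = true := by decide +kernel
def p12_13_2_91 : pfC (piC [(nat_lit 39120232), (nat_lit 25510466), (nat_lit 18971201), (nat_lit 12765436)] (nat_lit 7444406)) p12_13_2 (nat_lit 4) (nat_lit 91) (nat_lit 92) = true := by decide +kernel
def p12_13_2_92 : pfC (piC [(nat_lit 39120232), (nat_lit 25510466), (nat_lit 18971201), (nat_lit 12765436)] (nat_lit 7444406)) p12_13_2 (nat_lit 4) (nat_lit 92) (nat_lit 93) = true := by decide +kernel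
def p12_13_2_93 : pfC (piC [(nat_lit 39120232), (nat_lit 25510466), (nat_lit 18971201), (nat_lit 12765436)] (nat_lit 7444406)) p12_13_2 (nat_lit 4) (nat_lit 93) (nat_lit 94) = true := by decide +kernel
def p12_13_2_94 : pfC (piC [(nat_lit 39120232), (nat_lit 25510466), (nat_lit 18971201), (nat_lit 12765436)] (nat_lit 7444406)) p12_13_2 (nat_lit 4) (nat_lit 94) (nat_lit 95) = true := by decide +kernel
def p12_13_2_95 : pfC (piC [(nat_lit 39120232), (nat_lit 25510466), (nat_lit 18971201), (nat_lit 12765436)] (nat_lit 7444406)) p12_13_2 (nat_lit 4) (nat_lit 95) (nat_lit 96) = true := by decide +kernel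
def p12_13_2_96 : pfC (piC [(nat_lit 39120232), (nat_lit 25510466), (nat_lit 18971201), (nat_lit 12765436)] (nat_lit 7444406)) p12_13_2 (nat_lit 4) (nat_lit 96) (nat_lit 97) = true := by decide +kernel
def p12_13_2_97 : pfC (piC [(nat_lit 39120232), (nat_lit 25510466), (nat_lit 18971201), (nat_lit 12765436)] (nat_lit 7444406)) p12_13_2 (nat_lit 4) (nat_lit 97) (nat_lit 98) = true := by decide +kernel
def p12_13_2_98 : pfC (piC [(nat_lit 39120232), (nat_lit 25510466), (nat_lit 18971201), (nat_lit 12765436)] (nat_lit 7444406)) p12_13_2 (nat_lit 4) (nat_lit 98) (nat_lit 99) = true := by decide +kernel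
def p12_13_2_99 : pfC (piC [(nat_lit 39120232), (nat_lit 25510466), (nat_lit 18971201), (nat_lit 12765436)] (nat_lit 7444406)) p12_13_2 (nat_lit 4) (nat_lit 99) (nat_lit 100) = true := by decide +kernel
def p12_13_2_100 : pfC (piC [(nat_lit 39120232), (nat_lit 25510466), (nat_lit 18971201), (nat_lit 12765436)] (nat_lit 7444406)) p12_13_2 (nat_lit 4) (nat_lit 100) (nat_lit 101) = true := by decide +kernel
def p12_13_2_101 : pfC (piC [(nat_lit 39120232), (nat_lit 25510466), (nat_lit 18971201), (nat_lit 12765436)] (nat_lit 7444406)) p12_13_2 (nat_lit 4) (nat_lit 101) (nat_lit 102) = true := by decide +kernel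
def p12_13_2_102 : pfC (piC [(nat_lit 39120232), (nat_lit 25510466), (nat_lit 18971201), (nat_lit 12765436)] (nat_lit 7444406)) p12_13_2 (nat_lit 4) (nat_lit 102) (nat_lit 103) = true := by decide +kernel
def p12_13_2_103 : pfC (piC [(nat_lit 39120232), (nat_lit 25510466), (nat_lit 18971201), (nat_lit 12765436)] (nat_lit 7444406)) p12_13_2 (nat_lit 4) (nat_lit 103) (nat_lit 104) = true := by decide +kernel
def p12_13_2_104 : pfC (piC [(nat_lit 39120232), (nat_lit 25510466), (nat_lit 18971201), (nat_lit 12765436)] (nat_lit 7444406)) p12_13_2 (nat_lit 4) (nat_lit 104) (nat_lit 105) = true := by decide +kernel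
def p12_13_2_105 : pfC (piC [(nat_lit 39120232), (nat_lit 25510466), (nat_lit 18971201), (nat_lit 12765436)] (nat_lit 7444406)) p12_13_2 (nat_lit 4) (nat_lit 105) (nat_lit 106) = true := by decide +kernel
def p12_13_2_106 : pfC (piC [(nat_lit 39120232), (nat_lit 25510466), (nat_lit 18971201), (nat_lit 12765436)] (nat_lit 7444406)) p12_13_2 (nat_lit 4) (nat_lit 106) (nat_lit 107) = true := by decide +kernel
def p12_13_2_107 : pfC (piC [(nat_lit 39120232), (nat_lit 25510466), (nat_lit 18971201), (nat_lit 12765436)] (nat_lit 7444406)) p12_13_2 (nat_lit 4) (nat_lit 107) (nat_lit 108) = true := by decide +kernel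
def p12_13_2_108 : pfC (piC [(nat_lit 39120232), (nat_lit 25510466), (nat_lit 18971201), (nat_lit 12765436)] (nat_lit 7444406)) p12_13_2 (nat_lit 4) (nat_lit 108) (nat_lit 109) = true := by decide +kernel
def p12_13_2_109 : pfC (piC [(nat_lit 39120232), (nat_lit 25510466), (nat_lit 18971201), (nat_lit 12765436)] (nat_lit 7444406)) p12_13_2 (nat_lit 4) (nat_lit 109) (nat_lit 110) = true := by decide +kernel
def p12_13_2_110 : pfC (piC [(nat_lit 39120232), (nat_lit 25510466), (nat_lit 18971201), (nat_lit 12765436)] (nat_lit 7444406)) p12_13_2 (nat_lit 4) (nat_lit 110) (nat_lit 111) = true := by decide +kernel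
def p12_13_2_111 : pfC (piC [(nat_lit 39120232), (nat_lit 25510466), (nat_lit 18971201), (nat_lit 12765436)] (nat_lit 7444406)) p12_13_2 (nat_lit 4) (nat_lit 111) (nat_lit 112) = true := by decide +kernel
def p12_13_2_112 : pfC (piC [(nat_lit 39120232), (nat_lit 25510466), (nat_lit 18971201), (nat_lit 12765436)] (nat_lit 7444406)) p12_13_2 (nat_lit 4) (nat_lit 112) (nat_lit 113) = true := by decide +kernel
def p12_13_2_113 : pfC (piC [(nat_lit 39120232), (nat_lit 25510466), (nat_lit 18971201), (nat_lit 12765436)] (nat_lit 7444406)) p12_13_2 (nat_lit 4) (nat_lit 113) (nat_lit 114) = true := by decide +kernel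
def p12_13_2_114 : pfC (piC [(nat_lit 39120232), (nat_lit 25510466), (nat_lit 18971201), (nat_lit 12765436)] (nat_lit 7444406)) p12_13_2 (nat_lit 4) (nat_lit 114) (nat_lit 115) = true := by decide +kernel
def p12_13_2_115 : pfC (piC [(nat_lit 39120232), (nat_lit 25510466), (nat_lit 18971201), (nat_lit 12765436)] (nat_lit 7444406)) p12_13_2 (nat_lit 4) (nat_lit 115) (nat_lit 116) = true := by decide +kernel
def p12_13_2_116 : pfC (piC [(nat_lit 39120232), (nat_lit 25510466), (nat_lit 18971201), (nat_lit 12765436)] (nat_lit 7444406)) p12_13_2 (nat_lit 4) (nat_lit 116) (nat_lit 117) = true := by decide +kernel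
def p12_13_2_117 : pfC (piC [(nat_lit 39120232), (nat_lit 25510466), (nat_lit 18971201), (nat_lit 12765436)] (nat_lit 7444406)) p12_13_2 (nat_lit 4) (nat_lit 117) (nat_lit 118) = true := by decide +kernel
def p12_13_2_118 : pfC (piC [(nat_lit 39120232), (nat_lit 25510466), (nat_lit 18971201), (nat_lit 12765436)] (nat_lit 7444406)) p12_13_2 (nat_lit 4) (nat_lit 118) (nat_lit 119) = true := by decide +kernel
def p12_13_2_119 : pfC (piC [(nat_lit 39120232), (nat_lit 25510466), (nat_lit 18971201), (nat_lit 12765436)] (nat_lit 7444406)) p12_13_2 (nat_lit 4) (nat_lit 119) (nat_lit 120) = true := by decide +kernel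
def p12_13_2_120 : pfC (piC [(nat_lit 39120232), (nat_lit 25510466), (nat_lit 18971201), (nat_lit 12765436)] (nat_lit 7444406)) p12_13_2 (nat_lit 4) (nat_lit 120) (nat_lit 121) = true := by decide +kernel
def p12_13_2_121 : pfC (piC [(nat_lit 39120232), (nat_lit 25510466), (nat_lit 18971201), (nat_lit 12765436)] (nat_lit 7444406)) p12_13_2 (nat_lit 4) (nat_lit 121) (nat_lit 122) = true := by decide +kernel
def p12_13_2_122 : pfC (piC [(nat_lit 39120232), (nat_lit 25510466), (nat_lit 18971201), (nat_lit 12765436)] (nat_lit 7444406)) p12_13_2 (nat_lit 4) (nat_lit 122) (nat_lit 123) = true := by decide +kernel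
def p12_13_2_123 : pfC (piC [(nat_lit 39120232), (nat_lit 25510466), (nat_lit 18971201), (nat_lit 12765436)] (nat_lit 7444406)) p12_13_2 (nat_lit 4) (nat_lit 123) (nat_lit 124) = true := by decide +kernel
def p12_13_2_124 : pfC (piC [(nat_lit 39120232), (nat_lit 25510466), (nat_lit 18971201), (nat_lit 12765436)] (nat_lit 7444406)) p12_13_2 (nat_lit 4) (nat_lit 124) (nat_lit 125) = true := by decide +kernel
def p12_13_2_125 : pfC (piC [(nat_lit 39120232), (nat_lit 25510466), (nat_lit 18971201), (nat_lit 12765436)] (nat_lit 7444406)) p12_13_2 (nat_lit 4) (nat_lit 125) (nat_lit 126) = true := by decide +kernel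
def p12_13_2_126 : pfC (piC [(nat_lit 39120232), (nat_lit 25510466), (nat_lit 18971201), (nat_lit 12765436)] (nat_lit 7444406)) p12_13_2 (nat_lit 4) (nat_lit 126) (nat_lit 127) = true := by decide +kernel
def p12_13_2_127 : pfC (piC [(nat_lit 39120232), (nat_lit 25510466), (nat_lit 18971201), (nat_lit 12765436)] (nat_lit 7444406)) p12_13_2 (nat_lit 4) (nat_lit 127) (nat_lit 128) = true := by decide +kernel
def p12_13_2_128 : pfC (piC [(nat_lit 39120232), (nat_lit 25510466), (nat_lit 18971201), (nat_lit 12765436)] (nat_lit 7444406)) p12_13_2 (nat_lit 4) (nat_lit 128) (nat_lit 129) = true := by decide +kernel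
def p12_13_2_129 : pfC (piC [(nat_lit 39120232), (nat_lit 25510466), (nat_lit 18971201), (nat_lit 12765436)] (nat_lit 7444406)) p12_13_2 (nat_lit 4) (nat_lit 129) (nat_lit 130) = true := by decide +kernel
def p12_13_2_130 : pfC (piC [(nat_lit 39120232), (nat_lit 25510466), (nat_lit 18971201), (nat_lit 12765436)] (nat_lit 7444406)) p12_13_2 (nat_lit 4) (nat_lit 130) (nat_lit 131) = true := by decide +kernel
def p12_13_2_131 : pfC (piC [(nat_lit 39120232), (nat_lit 25510466), (nat_lit 18971201), (nat_lit 12765436)] (nat_lit 7444406)) p12_13_2 (nat_lit 4) (nat_lit 131) (nat_lit 132) = true := by decide +kernel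
def p12_13_2_132 : pfC (piC [(nat_lit 39120232), (nat_lit 25510466), (nat_lit 18971201), (nat_lit 12765436)] (nat_lit 7444406)) p12_13_2 (nat_lit 4) (nat_lit 132) (nat_lit 133) = true := by decide +kernel
def p12_13_2_133 : pfC (piC [(nat_lit 39120232), (nat_lit 25510466), (nat_lit 18971201), (nat_lit 12765436)] (nat_lit 7444406)) p12_13_2 (nat_lit 4) (nat_lit 133) (nat_lit 134) = true := by decide +kernel
def p12_13_2_134 : pfC (piC [(nat_lit 39120232), (nat_lit 25510466), (nat_lit 18971201), (nat_lit 12765436)] (nat_lit 7444406)) p12_13_2 (nat_lit 4) (nat_lit 134) (nat_lit 135) = true := by decide +kernel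
def p12_13_2_135 : pfC (piC [(nat_lit 39120232), (nat_lit 25510466), (nat_lit 18971201), (nat_lit 12765436)] (nat_lit 7444406)) p12_13_2 (nat_lit 4) (nat_lit 135) (nat_lit 136) = true := by decide +kernel
def p12_13_2_136 : pfC (piC [(nat_lit 39120232), (nat_lit 25510466), (nat_lit 18971201), (nat_lit 12765436)] (nat_lit 7444406)) p12_13_2 (nat_lit 4) (nat_lit 136) (nat_lit 137) = true := by decide +kernel
def p12_13_2_137 : pfC (piC [(nat_lit 39120232), (nat_lit 25510466), (nat_lit 18971201), (nat_lit 12765436)] (nat_lit 7444406)) p12_13_2 (nat_lit 4) (nat_lit 137) (nat_lit 138) = true := by decide +kernel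
def p12_13_2_138 : pfC (piC [(nat_lit 39120232), (nat_lit 25510466), (nat_lit 18971201), (nat_lit 12765436)] (nat_lit 7444406)) p12_13_2 (nat_lit 4) (nat_lit 138) (nat_lit 139) = true := by decide +kernel
def p12_13_2_139 : pfC (piC [(nat_lit 39120232), (nat_lit 25510466), (nat_lit 18971201), (nat_lit 12765436)] (nat_lit 7444406)) p12_13_2 (nat_lit 4) (nat_lit 139) (nat_lit 140) = true := by decide +kernel
def p12_13_2_140 : pfC (piC [(nat_lit 39120232), (nat_lit 25510466), (nat_lit 18971201), (nat_lit 12765436)] (nat_lit 7444406)) p12_13_2 (nat_lit 4) (nat_lit 140) (nat_lit 141) = true := by decide +kernel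
def p12_13_2_141 : pfC (piC [(nat_lit 39120232), (nat_lit 25510466), (nat_lit 18971201), (nat_lit 12765436)] (nat_lit 7444406)) p12_13_2 (nat_lit 4) (nat_lit 141) (nat_lit 142) = true := by decide +kernel
def p12_13_2_142 : pfC (piC [(nat_lit 39120232), (nat_lit 25510466), (nat_lit 18971201), (nat_lit 12765436)] (nat_lit 7444406)) p12_13_2 (nat_lit 4) (nat_lit 142) (nat_lit 143) = true := by decide +kernel
def p12_13_2_143 : pfC (piC [(nat_lit 39120232), (nat_lit 25510466), (nat_lit 18971201), (nat_lit 12765436)] (nat_lit 7444406)) p12_13_2 (nat_lit 4) (nat_lit 143) (nat_lit 144) = true := by decide +kernel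
def p12_13_2_144 : pfC (piC [(nat_lit 39120232), (nat_lit 25510466), (nat_lit 18971201), (nat_lit 12765436)] (nat_lit 7444406)) p12_13_2 (nat_lit 4) (nat_lit 144) (nat_lit 145) = true := by decide +kernel
def p12_13_2_145 : pfC (piC [(nat_lit 39120232), (nat_lit 25510466), (nat_lit 18971201), (nat_lit 12765436)] (nat_lit 7444406)) p12_13_2 (nat_lit 4) (nat_lit 145) (nat_lit 146) = true := by decide +kernel
def p12_13_2_146 : pfC (piC [(nat_lit 39120232), (nat_lit 25510466), (nat_lit 18971201), (nat_lit 12765436)] (nat_lit 7444406)) p12_13_2 (nat_lit 4) (nat_lit 146) (nat_lit 147) = true := by decide +kernel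
def p12_13_2_147 : pfC (piC [(nat_lit 39120232), (nat_lit 25510466), (nat_lit 18971201), (nat_lit 12765436)] (nat_lit 7444406)) p12_13_2 (nat_lit 4) (nat_lit 147) (nat_lit 148) = true := by decide +kernel
def p12_13_2_148 : pfC (piC [(nat_lit 39120232), (nat_lit 25510466), (nat_lit 18971201), (nat_lit 12765436)] (nat_lit 7444406)) p12_13_2 (nat_lit 4) (nat_lit 148) (nat_lit 149) = true := by decide +kernel
theorem p12_13_2_T : PfS (PiF n12_13.reverse (nat_lit 7444406)) p12_13_2 (nat_lit 4) [] 0 :=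
  pftab_of (los := [(nat_lit 39120232), (nat_lit 25510466), (nat_lit 18971201), (nat_lit 12765436)]) (by decide +kernel) (hi := (nat_lit 149)) (PfP.trans (PfP.trans (PfP.trans (PfP.trans (PfP.trans (PfP.trans (PfP.trans (PfP.trans (PfP.trans (PfP.trans (PfP.trans (PfP.trans (PfP.trans (PfP.trans (PfP.trans (PfP.trans (PfP.trans (PfP.trans (PfP.trans (PfP.trans (PfP.trans (PfP.trans (PfP.trans (PfP.trans (PfP.trans (PfP.trans (PfP.trans (PfP.trans (PfP.trans (PfP.trans (PfP.trans (PfP.trans (PfP.trans (PfP.trans (PfP.trans (PfP.trans (PfP.trans (PfP.trans (PfP.trans (PfP.trans (PfP.trans (PfP.trans (PfP.trans (PfP.trans (PfP.trans (PfP.trans (PfP.trans (PfP.trans (PfP.trans (PfP.trans (PfP.trans (PfP.trans (PfP.trans (PfP.trans (PfP.trans (PfP.trans (PfP.trans (PfP.trans (PfP.trans (PfP.trans (PfP.trans (PfP.trans (PfP.trans (PfP.trans (PfP.trans (PfP.trans (PfP.trans (PfP.trans (PfP.trans (PfP.trans (PfP.trans (PfP.trans (PfP.trans (PfP.trans (PfP.trans (PfP.trans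 (PfP.trans (PfP.trans (PfP.trans (PfP.trans (PfP.trans (PfP.trans (PfP.trans (PfP.trans (PfP.trans (PfP.trans (PfP.trans (PfP.trans (PfP.trans (PfP.trans (PfP.trans (PfP.trans (PfP.trans (PfP.trans (PfP.trans (PfP.trans (PfP.trans (PfP.trans (PfP.trans (PfP.trans (PfP.trans (PfP.trans (PfP.trans (PfP.trans (PfP.trans (PfP.trans (PfP.trans (PfP.trans (PfP.trans
 (PfP.trans (PfP.trans (PfP.trans (PfP.trans (PfP.trans (PfP.trans (PfP.trans (PfP.trans (PfP.trans (PfP.trans (PfP.trans (PfP.trans (PfP.trans (PfP.trans (PfP.trans (PfP.trans (PfP.trans (PfP.trans (PfP.trans (PfP.trans (PfP.trans (PfP.trans (PfP.trans (PfP.trans (PfP.trans (PfP.trans (PfP.trans (PfP.trans (PfP.trans (PfP.trans (PfP.trans (PfP.trans (PfP.trans (PfP.trans (PfP.trans (PfP.trans (PfP.trans (PfP.trans (PfP.trans (pfC_sound p12_13_2_0) (pfC_sound p12_13_2_1)) (pfC_sound p12_13_2_2)) (pfC_sound p12_13_2_3)) (pfC_sound p12_13_2_4)) (pfC_sound p12_13_2_5)) (pfC_sound p12_13_2_6)) (pfC_sound p12_13_2_7))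 (pfC_sound p12_13_2_8)) (pfC_sound p12_13_2_9)) (pfC_sound p12_13_2_10)) (pfC_sound p12_13_2_11)) (pfC_sound p12_13_2_12)) (pfC_sound p12_13_2_13)) (pfC_sound p12_13_2_14)) (pfC_sound p12_13_2_15)) (pfC_sound p12_13_2_16)) (pfC_sound p12_13_2_17)) (pfC_sound p12_13_2_18)) (pfC_sound p12_13_2_19)) (pfC_sound p12_13_2_20)) (pfC_sound p12_13_2_21)) (pfC_sound p12_13_2_22)) (pfC_sound p12_13_2_23)) (pfC_sound p12_13_2_24)) (pfC_sound p12_13_2_25)) (pfC_sound p12_13_2_26)) (pfC_sound p12_13_2_27)) (pfC_sound p12_13_2_28)) (pfC_sound p12_13_2_29)) (pfC_sound p12_13_2_30))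
 (pfC_sound p12_13_2_31)) (pfC_sound p12_13_2_32)) (pfC_sound p12_13_2_33)) (pfC_sound p12_13_2_34)) (pfC_sound p12_13_2_35)) (pfC_sound p12_13_2_36)) (pfC_sound p12_13_2_37)) (pfC_sound p12_13_2_38)) (pfC_sound p12_13_2_39)) (pfC_sound p12_13_2_40)) (pfC_sound p12_13_2_41)) (pfC_sound p12_13_2_42)) (pfC_sound p12_13_2_43)) (pfC_sound p12_13_2_44)) (pfC_sound p12_13_2_45)) (pfC_sound p12_13_2_46)) (pfC_sound p12_13_2_47)) (pfC_sound p12_13_2_48)) (pfC_sound p12_13_2_49)) (pfC_sound p12_13_2_50)) (pfC_sound p12_13_2_51)) (pfC_sound p12_13_2_52)) (pfC_sound p12_13_2_53)) (pfC_sound p12_13_2_54)) (pfC_sound p12_13_2_55)) (pfC_sound p12_13_2_56)) (pfC_sound p12_13_2_57)) (pfC_sound p12_13_2_58)) (pfC_sound p12_13_2_59)) (pfC_sound p12_13_2_60)) (pfC_sound p12_13_2_61)) (pfC_sound p12_13_2_62)) (pfC_sound p12_13_2_63)) (pfC_sound p12_13_2_64)) (pfC_sound p12_13_2_65)) (pfC_sound p12_13_2_66)) (pfC_sound p12_13_2_67)) (pfC_sound p12_13_2_68)) (pfC_sound p12_13_2_69)) (pfC_sound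 p12_13_2_70)) (pfC_sound p12_13_2_71)) (pfC_sound p12_13_2_72)) (pfC_sound p12_13_2_73)) (pfC_sound p12_13_2_74)) (pfC_sound p12_13_2_75)) (pfC_sound p12_13_2_76)) (pfC_sound p12_13_2_77)) (pfC_sound p12_13_2_78))
 (pfC_sound p12_13_2_79)) (pfC_sound p12_13_2_80)) (pfC_sound p12_13_2_81)) (pfC_sound p12_13_2_82)) (pfC_sound p12_13_2_83)) (pfC_sound p12_13_2_84)) (pfC_sound p12_13_2_85)) (pfC_sound p12_13_2_86)) (pfC_sound p12_13_2_87)) (pfC_sound p12_13_2_88)) (pfC_sound p12_13_2_89)) (pfC_sound p12_13_2_90)) (pfC_sound p12_13_2_91)) (pfC_sound p12_13_2_92)) (pfC_sound p12_13_2_93)) (pfC_sound p12_13_2_94)) (pfC_sound p12_13_2_95)) (pfC_sound p12_13_2_96)) (pfC_sound p12_13_2_97)) (pfC_sound p12_13_2_98)) (pfC_sound p12_13_2_99)) (pfC_sound p12_13_2_100)) (pfC_sound p12_13_2_101)) (pfC_sound p12_13_2_102)) (pfC_sound p12_13_2_103)) (pfC_sound p12_13_2_104)) (pfC_sound p12_13_2_105)) (pfC_sound p12_13_2_106)) (pfC_sound p12_13_2_107)) (pfC_sound p12_13_2_108)) (pfC_sound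 p12_13_2_109)) (pfC_sound p12_13_2_110)) (pfC_sound p12_13_2_111)) (pfC_sound p12_13_2_112)) (pfC_sound p12_13_2_113)) (pfC_sound p12_13_2_114)) (pfC_sound p12_13_2_115)) (pfC_sound p12_13_2_116)) (pfC_sound p12_13_2_117)) (pfC_sound p12_13_2_118)) (pfC_sound p12_13_2_119)) (pfC_sound p12_13_2_120)) (pfC_sound p12_13_2_121)) (pfC_sound p12_13_2_122)) (pfC_sound p12_13_2_123)) (pfC_sound p12_13_2_124)) (pfC_sound
 p12_13_2_125)) (pfC_sound p12_13_2_126)) (pfC_sound p12_13_2_127)) (pfC_sound p12_13_2_128)) (pfC_sound p12_13_2_129)) (pfC_sound p12_13_2_130)) (pfC_sound p12_13_2_131)) (pfC_sound p12_13_2_132)) (pfC_sound p12_13_2_133)) (pfC_sound p12_13_2_134)) (pfC_sound p12_13_2_135)) (pfC_sound p12_13_2_136)) (pfC_sound p12_13_2_137)) (pfC_sound p12_13_2_138)) (pfC_sound p12_13_2_139)) (pfC_sound p12_13_2_140)) (pfC_sound p12_13_2_141)) (pfC_sound p12_13_2_142)) (pfC_sound p12_13_2_143)) (pfC_sound p12_13_2_144)) (pfC_sound p12_13_2_145)) (pfC_sound p12_13_2_146))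 (pfC_sound p12_13_2_147)) (pfC_sound p12_13_2_148)) (by decide +kernel)

def z12_13_2 : zOK yB12_13 (nat_lit 2) (nat_lit 600) (nat_lit 750) (nat_lit 7444406) (nat_lit 5447273) = true := by decide +kernel
def g12_13_2 : gOK yB12_13.x P12_13 (nat_lit 1414) (q12_13 :: r12_13) (nat_lit 2) (nat_lit 600) (nat_lit 3) (nat_lit 750) (nat_lit 12712500) (nat_lit 12712500) (nat_lit 12712500) (nat_lit 12712500) [(nat_lit 800), (nat_lit 1600)] = true := by decide +kernel
def v12_13_2 : ivC P12_13 s12_13 w12_13 n12_13 (nat_lit 4) (nat_lit 4800) (nat_lit 2) (nat_lit 600) f160_1_600 f168_1_600 (nat_lit 3) (nat_lit 750) f160_1_750 f168_1_750 (nat_lit 7444406) (nat_lit 5447273) p12_13_2 = true := by decide +kernel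
def p12_13_3 : PF := (PF.cons (PF.cons (PF.cons (PF.cons (PF.leaf (nat_lit 2863989) (nat_lit 17431699) (nat_lit 49677113) (nat_lit 17431699) [(nat_lit 0), (nat_lit 0), (nat_lit 0), (nat_lit 0)]) (PF.cons (PF.leaf (nat_lit 3022162) (nat_lit 278257) (nat_lit 49427200) (nat_lit 17403355) [(nat_lit 278257), (nat_lit 0), (nat_lit 0), (nat_lit 0)]) (PF.cons (PF.leaf (nat_lit 3209279) (nat_lit 302212) (nat_lit 49135286) (nat_lit 17369102) [(nat_lit 302212), (nat_lit 0), (nat_lit 0), (nat_lit 0)]) (PF.cons (PF.leaf (nat_lit 3419021) (nat_lit 323341) (nat_lit 48809348) (nat_lit 17329439) [(nat_lit 323341), (nat_lit 0), (nat_lit 0), (nat_lit 0)]) (PF.cons (PF.leaf (nat_lit 3647959) (nat_lit 342271) (nat_lit 48455060) (nat_lit 17284666) [(nat_lit 342271), (nat_lit 0), (nat_lit 0), (nat_lit 0)]) (PF.cons (PF.leaf (nat_lit 3893557) (nat_lit 359402) (nat_lit 48076802) (nat_lit 17234998) [(nat_lit 359402), (nat_lit 0), (nat_lit 0), (nat_lit 0)]) (PF.cons (PF.leaf (nat_lit 4153721)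 (nat_lit 375012) (nat_lit 47678134) (nat_lit 17180605) [(nat_lit 375012), (nat_lit 0), (nat_lit 0), (nat_lit 0)]) (PF.cons (PF.leaf (nat_lit 4426677) (nat_lit 389302) (nat_lit 47262052) (nat_lit 17121643) [(nat_lit 389302), (nat_lit 0),
 (nat_lit 0), (nat_lit 0)]) (PF.cons (PF.leaf (nat_lit 4710877) (nat_lit 402426) (nat_lit 46831135) (nat_lit 17058265) [(nat_lit 402426), (nat_lit 0), (nat_lit 0), (nat_lit 0)]) (PF.cons (PF.leaf (nat_lit 5004999) (nat_lit 414505) (nat_lit 46387639) (nat_lit 16990624) [(nat_lit 414505), (nat_lit 0), (nat_lit 0), (nat_lit 0)]) (PF.cons PF.nil (PF.cons PF.nil PF.nil)))))))))))) (PF.cons (PF.cons (PF.leaf (nat_lit 3395449) (nat_lit 1258480) (nat_lit 48556378) (nat_lit 17293954) [(nat_lit 0), (nat_lit 1258480), (nat_lit 0), (nat_lit 0)]) (PF.cons (PF.leaf (nat_lit 3598757) (nat_lit 333216) (nat_lit 48234317) (nat_lit 17252165) [(nat_lit 333216), (nat_lit 1289113), (nat_lit 0), (nat_lit 0)]) (PF.cons (PF.leaf (nat_lit 3823533) (nat_lit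 351410) (nat_lit 47882248) (nat_lit 17204912) [(nat_lit 351410), (nat_lit 1318831), (nat_lit 0), (nat_lit 0)]) (PF.cons (PF.leaf (nat_lit 4065655) (nat_lit 367808) (nat_lit 47505614) (nat_lit 17152582) [(nat_lit 367808), (nat_lit 1347191), (nat_lit 0), (nat_lit 0)]) (PF.cons (PF.leaf (nat_lit 4322685) (nat_lit 382714) (nat_lit 47108517) (nat_lit 17095450) [(nat_lit 382714), (nat_lit 1373987), (nat_lit 0), (nat_lit 0)]) (PF.cons (PF.leaf (nat_lit 4592658)
 (nat_lit 396339) (nat_lit 46694237) (nat_lit 17033741) [(nat_lit 396339), (nat_lit 1399136), (nat_lit 0), (nat_lit 0)]) (PF.cons (PF.leaf (nat_lit 4873902) (nat_lit 408838) (nat_lit 46265503) (nat_lit 16967656) [(nat_lit 408838), (nat_lit 1422620), (nat_lit 0), (nat_lit 0)]) (PF.cons (PF.leaf (nat_lit 5165085) (nat_lit 420331) (nat_lit 45824648) (nat_lit 16897386) [(nat_lit 420331), (nat_lit 1444458), (nat_lit 0), (nat_lit 0)]) (PF.cons PF.nil (PF.cons PF.nil PF.nil)))))))))) (PF.cons (PF.cons (PF.leaf (nat_lit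 4002339) (nat_lit 1346226) (nat_lit 47297268) (nat_lit 17119091) [(nat_lit 0), (nat_lit 1346226), (nat_lit 0), (nat_lit 0)]) (PF.cons (PF.leaf (nat_lit 4238721) (nat_lit 374958) (nat_lit 46926015) (nat_lit 17064731) [(nat_lit 374958), (nat_lit 1371553), (nat_lit 0), (nat_lit 0)]) (PF.cons (PF.leaf (nat_lit 4491529) (nat_lit 389356) (nat_lit 46533309) (nat_lit 17005376) [(nat_lit 389356), (nat_lit 1395706), (nat_lit 0), (nat_lit 0)]) (PF.cons (PF.leaf (nat_lit 4757733) (nat_lit 402462) (nat_lit 46123041) (nat_lit 16941365) [(nat_lit 402462), (nat_lit 1418510), (nat_lit 0), (nat_lit 0)]) (PF.cons (PF.leaf (nat_lit 5035471) (nat_lit 414448) (nat_lit 45698272) (nat_lit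
 16872970) [(nat_lit 414448), (nat_lit 1439887), (nat_lit 0), (nat_lit 0)]) (PF.cons (PF.leaf (nat_lit 5323210) (nat_lit 425445) (nat_lit 45261523) (nat_lit 16800431) [(nat_lit 425445), (nat_lit 1459814), (nat_lit 0), (nat_lit 0)]) (PF.cons (PF.leaf (nat_lit 5619679) (nat_lit 435552) (nat_lit 44814923) (nat_lit 16723972) [(nat_lit 435552), (nat_lit 1478301), (nat_lit 0), (nat_lit 0)]) (PF.cons PF.nil (PF.cons PF.nil PF.nil))))))))) (PF.cons (PF.cons (PF.leaf (nat_lit 4661859) (nat_lit 1415333) (nat_lit 45952424) (nat_lit 16910387) [(nat_lit 0), (nat_lit 1415333), (nat_lit 0), (nat_lit 0)]) (PF.cons (PF.leaf (nat_lit 4922682) (nat_lit 407704) (nat_lit 45548611) (nat_lit 16844591) [(nat_lit 407704), (nat_lit 1435968), (nat_lit 0), (nat_lit 0)]) (PF.cons (PF.leaf (nat_lit 5196166) (nat_lit 419292) (nat_lit 45129700) (nat_lit 16774328) [(nat_lit 419292), (nat_lit 1455399), (nat_lit 0), (nat_lit 0)]) (PF.cons (PF.leaf (nat_lit 5479954) (nat_lit 429882) (nat_lit 44698567)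 (nat_lit 16699910) [(nat_lit 429882), (nat_lit 1473562), (nat_lit 0), (nat_lit 0)]) (PF.cons (PF.leaf (nat_lit 5772611) (nat_lit 439585) (nat_lit 44257550) (nat_lit 16621611) [(nat_lit 439585), (nat_lit 1490436),
 (nat_lit 0), (nat_lit 0)]) (PF.cons PF.nil (PF.cons PF.nil PF.nil))))))) (PF.cons (PF.cons (PF.leaf (nat_lit 5357212) (nat_lit 1469324) (nat_lit 44559720) (nat_lit 16671794) [(nat_lit 0), (nat_lit 1469324), (nat_lit 0), (nat_lit 0)]) (PF.cons (PF.leaf (nat_lit 5635833) (nat_lit 433660) (nat_lit 44135851) (nat_lit 16595932) [(nat_lit 433660), (nat_lit 1485842), (nat_lit 0), (nat_lit 0)]) (PF.cons (PF.leaf (nat_lit 5924193) (nat_lit 443033) (nat_lit 43701714) (nat_lit 16516172) [(nat_lit 443033), (nat_lit 1501214), (nat_lit 0), (nat_lit 0)]) (PF.cons (PF.leaf (nat_lit 6220393) (nat_lit 451603) (nat_lit 43259484) (nat_lit 16432810) [(nat_lit 451603), (nat_lit 1515426), (nat_lit 0), (nat_lit 0)]) (PF.cons PF.nil PF.nil))))) (PF.cons (PF.cons (PF.leaf (nat_lit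 6075390) (nat_lit 1510743) (nat_lit 43147350) (nat_lit 16407745) [(nat_lit 0), (nat_lit 1510743), (nat_lit 0), (nat_lit 0)]) (PF.cons (PF.leaf (nat_lit 6366567) (nat_lit 454207) (nat_lit 42712961) (nat_lit 16323319) [(nat_lit 454207), (nat_lit 1523664), (nat_lit 0), (nat_lit 0)]) (PF.cons PF.nil (PF.cons PF.nil PF.nil)))) (PF.cons (PF.cons (PF.leaf (nat_lit 6806147) (nat_lit 1541581) (nat_lit 41736475) (nat_lit 16122846)
 [(nat_lit 0), (nat_lit 1541581), (nat_lit 0), (nat_lit 0)]) (PF.cons PF.nil PF.nil)) (PF.cons PF.nil PF.nil)))))))) (PF.cons (PF.cons (PF.cons (PF.leaf (nat_lit 3926579) (nat_lit 3252643) (nat_lit 46825100) (nat_lit 17031069) [(nat_lit 0), (nat_lit 0), (nat_lit 3252643), (nat_lit 0)]) (PF.cons (PF.leaf (nat_lit 4138290) (nat_lit 355235) (nat_lit 46495259) (nat_lit 16981196) [(nat_lit 355235), (nat_lit 0), (nat_lit 3277121), (nat_lit 0)]) (PF.cons (PF.leaf (nat_lit 4370335) (nat_lit 372129) (nat_lit 46137545) (nat_lit 16925611) [(nat_lit 372129),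 (nat_lit 0), (nat_lit 3301396), (nat_lit 0)]) (PF.cons (PF.leaf (nat_lit 4618514) (nat_lit 387145) (nat_lit 45757617) (nat_lit 16864897) [(nat_lit 387145), (nat_lit 0), (nat_lit 3324862), (nat_lit 0)]) (PF.cons (PF.leaf (nat_lit 4880304) (nat_lit 400643) (nat_lit 45359632) (nat_lit 16799473) [(nat_lit 400643), (nat_lit 0), (nat_lit 3347134), (nat_lit 0)]) (PF.cons (PF.leaf (nat_lit 5153815) (nat_lit 412867) (nat_lit 44946838) (nat_lit 16729671) [(nat_lit 412867), (nat_lit 0), (nat_lit 3367963), (nat_lit 0)]) (PF.cons (PF.leaf (nat_lit 5437375) (nat_lit 423993) (nat_lit 44521879) (nat_lit 16655777) [(nat_lit 423993), (nat_lit 0), (nat_lit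
 3387195), (nat_lit 0)]) (PF.cons (PF.leaf (nat_lit 5729644) (nat_lit 434151) (nat_lit 44086968) (nat_lit 16578045) [(nat_lit 434151), (nat_lit 0), (nat_lit 3404737), (nat_lit 0)]) (PF.cons PF.nil (PF.cons PF.nil PF.nil)))))))))) (PF.cons (PF.cons (PF.leaf (nat_lit 4544063) (nat_lit 1395482) (nat_lit 45558230) (nat_lit 16828701) [(nat_lit 0), (nat_lit 1395482), (nat_lit 3326398), (nat_lit 0)]) (PF.cons (PF.leaf (nat_lit 4785588) (nat_lit 392308) (nat_lit 45186353) (nat_lit 16766751) [(nat_lit 392308), (nat_lit 1416648), (nat_lit 3346750), (nat_lit 0)]) (PF.cons (PF.leaf (nat_lit 5042384) (nat_lit 405469) (nat_lit 44795153) (nat_lit 16699866) [(nat_lit 405469), (nat_lit 1436699), (nat_lit 3366154), (nat_lit 0)]) (PF.cons (PF.leaf (nat_lit 5311423) (nat_lit 417322) (nat_lit 44388512) (nat_lit 16628503) [(nat_lit 417322), (nat_lit 1455509), (nat_lit 3384320), (nat_lit 0)]) (PF.cons (PF.leaf (nat_lit 5590925) (nat_lit 428065) (nat_lit 43969428) (nat_lit 16553022) [(nat_lit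 428065), (nat_lit 1473029), (nat_lit 3401069), (nat_lit 0)]) (PF.cons (PF.leaf (nat_lit 5879335) (nat_lit 437843) (nat_lit 43540320) (nat_lit 16473729) [(nat_lit 437843), (nat_lit 1489252), (nat_lit 3416291),
 (nat_lit 0)]) (PF.cons PF.nil (PF.cons PF.nil (PF.cons PF.nil PF.nil))))))))) (PF.cons (PF.cons (PF.leaf (nat_lit 5205985) (nat_lit 1451338) (nat_lit 44227501) (nat_lit 16596137) [(nat_lit 0), (nat_lit 1451338), (nat_lit 3382496), (nat_lit 0)]) (PF.cons (PF.leaf (nat_lit 5469082) (nat_lit 421028) (nat_lit 43829116) (nat_lit 16523726) [(nat_lit 421028), (nat_lit 1468383), (nat_lit 3398173), (nat_lit 0)]) (PF.cons (PF.leaf (nat_lit 5743762) (nat_lit 431489) (nat_lit 43417501) (nat_lit 16447087) [(nat_lit 431489), (nat_lit 1484317), (nat_lit 3412609), (nat_lit 0)]) (PF.cons (PF.leaf (nat_lit 6027768) (nat_lit 440964) (nat_lit 42995443) (nat_lit 16366603) [(nat_lit 440964), (nat_lit 1499099), (nat_lit 3425672), (nat_lit 0)]) (PF.cons (PF.leaf (nat_lit 6319693)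 (nat_lit 449577) (nat_lit 42565171) (nat_lit 16282596) [(nat_lit 449577), (nat_lit 1512723), (nat_lit 3437287), (nat_lit 0)]) (PF.cons PF.nil (PF.cons PF.nil PF.nil))))))) (PF.cons (PF.cons (PF.leaf (nat_lit 5897088) (nat_lit 1494333) (nat_lit 42865831) (nat_lit 16338002) [(nat_lit 0), (nat_lit 1494333), (nat_lit 3421979), (nat_lit 0)]) (PF.cons (PF.leaf (nat_lit 6175565) (nat_lit 443520) (nat_lit 42452226) (nat_lit 16256740)
 [(nat_lit 443520), (nat_lit 1507764), (nat_lit 3433030), (nat_lit 0)]) (PF.cons (PF.leaf (nat_lit 6462848) (nat_lit 451890) (nat_lit 42029886) (nat_lit 16171913) [(nat_lit 451890), (nat_lit 1520154), (nat_lit 3442768), (nat_lit 0)]) (PF.cons PF.nil (PF.cons PF.nil PF.nil))))) (PF.cons (PF.cons (PF.leaf (nat_lit 6605780) (nat_lit 1526569) (nat_lit 41497139) (nat_lit 16058905) [(nat_lit 0), (nat_lit 1526569), (nat_lit 3446490), (nat_lit 0)]) (PF.cons (PF.leaf (nat_lit 6894832) (nat_lit 461099) (nat_lit 41076708) (nat_lit 15970372) [(nat_lit 461099),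 (nat_lit 1536849), (nat_lit 3453233), (nat_lit 0)]) (PF.cons PF.nil (PF.cons PF.nil PF.nil)))) (PF.cons (PF.cons (PF.leaf (nat_lit 7323054) (nat_lit 1549732) (nat_lit 40139006) (nat_lit 15763301) [(nat_lit 0), (nat_lit 1549732), (nat_lit 3457842), (nat_lit 0)]) (PF.cons PF.nil PF.nil)) PF.nil)))))) (PF.cons (PF.cons (PF.cons (PF.leaf (nat_lit 5073971) (nat_lit 3364574) (nat_lit 43865361) (nat_lit 16514301) [(nat_lit 0), (nat_lit 0), (nat_lit 3364574), (nat_lit 0)]) (PF.cons (PF.leaf (nat_lit 5318661) (nat_lit 405869) (nat_lit 43497467) (nat_lit 16446319) [(nat_lit 405869), (nat_lit 0), (nat_lit 3379578), (nat_lit 0)]) (PF.cons (PF.leaf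
 (nat_lit 5577611) (nat_lit 417940) (nat_lit 43112127) (nat_lit 16373540) [(nat_lit 417940), (nat_lit 0), (nat_lit 3393631), (nat_lit 0)]) (PF.cons (PF.leaf (nat_lit 5847831) (nat_lit 428700) (nat_lit 42713155) (nat_lit 16296511) [(nat_lit 428700), (nat_lit 0), (nat_lit 3406522), (nat_lit 0)]) (PF.cons (PF.leaf (nat_lit 6127511) (nat_lit 438365) (nat_lit 42303453) (nat_lit 16215657) [(nat_lit 438365), (nat_lit 0), (nat_lit 3418119), (nat_lit 0)]) (PF.cons (PF.leaf (nat_lit 6415190) (nat_lit 447091) (nat_lit 41885326) (nat_lit 16131331) [(nat_lit 447091), (nat_lit 0), (nat_lit 3428348), (nat_lit 0)]) (PF.cons PF.nil PF.nil))))))) (PF.cons (PF.cons (PF.leaf (nat_lit 5734219) (nat_lit 1476671) (nat_lit 42562115) (nat_lit 16263490) [(nat_lit 0), (nat_lit 1476671), (nat_lit 3403267), (nat_lit 0)]) (PF.cons (PF.leaf (nat_lit 5998051) (nat_lit 431156) (nat_lit 42172586) (nat_lit 16186060) [(nat_lit 431156), (nat_lit 1490723), (nat_lit 3414142), (nat_lit 0)]) (PF.cons (PF.leaf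 (nat_lit 6272555) (nat_lit 440632) (nat_lit 41771408) (nat_lit 16104666) [(nat_lit 440632), (nat_lit 1503742), (nat_lit 3423865), (nat_lit 0)]) (PF.cons (PF.leaf (nat_lit 6555526) (nat_lit 449138) (nat_lit 41361260)
 (nat_lit 16019741) [(nat_lit 449138), (nat_lit 1515706), (nat_lit 3432344), (nat_lit 0)]) (PF.cons PF.nil PF.nil))))) (PF.cons (PF.cons (PF.leaf (nat_lit 6418215) (nat_lit 1510601) (nat_lit 41240756) (nat_lit 15991162) [(nat_lit 0), (nat_lit 1510601), (nat_lit 3427845), (nat_lit 0)]) (PF.cons (PF.leaf (nat_lit 6695397) (nat_lit 450693) (nat_lit 40839798) (nat_lit 15906028) [(nat_lit 450693), (nat_lit 1521449), (nat_lit 3434696), (nat_lit 0)]) (PF.cons (PF.leaf (nat_lit 6980581) (nat_lit 458189) (nat_lit 40431366) (nat_lit 15817651) [(nat_lit 458189), (nat_lit 1531344), (nat_lit 3440363), (nat_lit 0)]) (PF.cons PF.nil PF.nil)))) (PF.cons (PF.cons (PF.leaf (nat_lit 7115549) (nat_lit 1535233) (nat_lit 39921700) (nat_lit 15701887) [(nat_lit 0), (nat_lit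 1535233), (nat_lit 3439761), (nat_lit 0)]) (PF.cons (PF.leaf (nat_lit 7401651) (nat_lit 465740) (nat_lit 39516729) (nat_lit 15610639) [(nat_lit 465740), (nat_lit 1543302), (nat_lit 3442898), (nat_lit 0)]) PF.nil)) (PF.cons PF.nil PF.nil))))) (PF.cons (PF.cons (PF.cons (PF.leaf (nat_lit 6245678) (nat_lit 3408867) (nat_lit 40963516) (nat_lit 15918694) [(nat_lit 0), (nat_lit 0), (nat_lit 3408867), (nat_lit 0)]) (PF.cons (PF.leaf (nat_lit
 6509027) (nat_lit 438655) (nat_lit 40585171) (nat_lit 15837634) [(nat_lit 438655), (nat_lit 0), (nat_lit 3415784), (nat_lit 0)]) (PF.cons (PF.leaf (nat_lit 6782279) (nat_lit 447262) (nat_lit 40196522) (nat_lit 15752880) [(nat_lit 447262), (nat_lit 0), (nat_lit 3421628), (nat_lit 0)]) (PF.cons (PF.leaf (nat_lit 7063250) (nat_lit 454920) (nat_lit 39800126) (nat_lit 15664901) [(nat_lit 454920), (nat_lit 0), (nat_lit 3426341), (nat_lit 0)]) (PF.cons PF.nil PF.nil))))) (PF.cons (PF.cons (PF.leaf (nat_lit 6920430) (nat_lit 1519804) (nat_lit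 39688402) (nat_lit 15636722) [(nat_lit 0), (nat_lit 1519804), (nat_lit 3421294), (nat_lit 0)]) (PF.cons (PF.leaf (nat_lit 7195434) (nat_lit 455651) (nat_lit 39301600) (nat_lit 15549006) [(nat_lit 455651), (nat_lit 1528476), (nat_lit 3424692), (nat_lit 0)]) (PF.cons (PF.leaf (nat_lit 7477793) (nat_lit 462383) (nat_lit 38908364) (nat_lit 15458350) [(nat_lit 462383), (nat_lit 1536273), (nat_lit 3427019), (nat_lit 0)]) (PF.cons PF.nil PF.nil)))) (PF.cons (PF.cons (PF.leaf (nat_lit 7605112) (nat_lit 1538107) (nat_lit 38422383) (nat_lit 15341309) [(nat_lit 0), (nat_lit 1538107), (nat_lit 3422968), (nat_lit 0)]) (PF.cons PF.nil PF.nil)) PF.nil))) (PF.cons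
 (PF.cons (PF.cons (PF.leaf (nat_lit 7403933) (nat_lit 3404893) (nat_lit 38210156) (nat_lit 15279083) [(nat_lit 0), (nat_lit 0), (nat_lit 3404893), (nat_lit 0)]) (PF.cons (PF.leaf (nat_lit 7676085) (nat_lit 458777) (nat_lit 37838374) (nat_lit 15189857) [(nat_lit 458777), (nat_lit 0), (nat_lit 3405450), (nat_lit 0)]) (PF.cons PF.nil PF.nil))) (PF.cons (PF.cons (PF.leaf (nat_lit 8075085) (nat_lit 1536293) (nat_lit 36998725) (nat_lit 14980830) [(nat_lit 0), (nat_lit 1536293), (nat_lit 3398240), (nat_lit 0)]) PF.nil) PF.nil)) (PF.cons PF.nil (PF.cons PF.nil (PF.cons PF.nil PF.nil)))))))) (PF.cons (PF.cons (PF.cons (PF.cons (PF.leaf (nat_lit 4827660) (nat_lit 8712159) (nat_lit 42292668) (nat_lit 16103985) [(nat_lit 0), (nat_lit 0), (nat_lit 0), (nat_lit 8712159)]) (PF.cons (PF.leaf (nat_lit 5036909) (nat_lit 363718) (nat_lit 41995839) (nat_lit 16046802) [(nat_lit 363718), (nat_lit 0), (nat_lit 0), (nat_lit 8702452)]) (PF.cons (PF.leaf (nat_lit 5265052) (nat_lit 379462)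 (nat_lit 41675219) (nat_lit 15983939) [(nat_lit 379462), (nat_lit 0), (nat_lit 0), (nat_lit 8690728)]) (PF.cons (PF.leaf (nat_lit 5507828) (nat_lit 393204) (nat_lit 41336014) (nat_lit 15916211) [(nat_lit 393204), (nat_lit
 0), (nat_lit 0), (nat_lit 8676973)]) (PF.cons (PF.leaf (nat_lit 5762813) (nat_lit 405354) (nat_lit 40982006) (nat_lit 15844206) [(nat_lit 405354), (nat_lit 0), (nat_lit 0), (nat_lit 8661181)]) (PF.cons (PF.leaf (nat_lit 6028000) (nat_lit 416191) (nat_lit 40616111) (nat_lit 15768383) [(nat_lit 416191), (nat_lit 0), (nat_lit 0), (nat_lit 8643361)]) (PF.cons (PF.leaf (nat_lit 6301867) (nat_lit 425914) (nat_lit 40240667) (nat_lit 15689117) [(nat_lit 425914), (nat_lit 0), (nat_lit 0), (nat_lit 8623538)]) (PF.cons (PF.leaf (nat_lit 6583166) (nat_lit 434676) (nat_lit 39857599) (nat_lit 15606731) [(nat_lit 434676), (nat_lit 0), (nat_lit 0), (nat_lit 8601748)]) (PF.cons PF.nil PF.nil))))))))) (PF.cons (PF.cons (PF.leaf (nat_lit 5424520) (nat_lit 1402809)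 (nat_lit 41163423) (nat_lit 15878078) [(nat_lit 0), (nat_lit 1402809), (nat_lit 0), (nat_lit 8664501)]) (PF.cons (PF.leaf (nat_lit 5660026) (nat_lit 396500) (nat_lit 40832963) (nat_lit 15810304) [(nat_lit 396500), (nat_lit 1419815), (nat_lit 0), (nat_lit 8649228)]) (PF.cons (PF.leaf (nat_lit 5909364) (nat_lit 408405) (nat_lit 40486449) (nat_lit 15737999) [(nat_lit 408405), (nat_lit 1435657), (nat_lit 0), (nat_lit 8631895)]) (PF.cons
 (PF.leaf (nat_lit 6169648) (nat_lit 418962) (nat_lit 40127356) (nat_lit 15661746) [(nat_lit 418962), (nat_lit 1450277), (nat_lit 0), (nat_lit 8612546)]) (PF.cons (PF.leaf (nat_lit 6439047) (nat_lit 428394) (nat_lit 39758337) (nat_lit 15581997) [(nat_lit 428394), (nat_lit 1463673), (nat_lit 0), (nat_lit 8591227)]) (PF.cons (PF.leaf (nat_lit 6716141) (nat_lit 436865) (nat_lit 39381500) (nat_lit 15499120) [(nat_lit 436865), (nat_lit 1475873), (nat_lit 0), (nat_lit 8567992)]) (PF.cons PF.nil PF.nil))))))) (PF.cons (PF.cons (PF.leaf (nat_lit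 6057501) (nat_lit 1444979) (nat_lit 39989682) (nat_lit 15629049) [(nat_lit 0), (nat_lit 1444979), (nat_lit 0), (nat_lit 8600120)]) (PF.cons (PF.leaf (nat_lit 6311442) (nat_lit 421099) (nat_lit 39639044) (nat_lit 15552828) [(nat_lit 421099), (nat_lit 1458183), (nat_lit 0), (nat_lit 8579472)]) (PF.cons (PF.leaf (nat_lit 6575740) (nat_lit 430335) (nat_lit 39277669) (nat_lit 15472964) [(nat_lit 430335), (nat_lit 1470323), (nat_lit 0), (nat_lit 8556861)]) (PF.cons (PF.leaf (nat_lit 6848205) (nat_lit 438587) (nat_lit 38907993) (nat_lit 15389904) [(nat_lit 438587), (nat_lit 1481394), (nat_lit 0), (nat_lit 8532362)]) (PF.cons (PF.leaf (nat_lit 7127501)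
 (nat_lit 445993) (nat_lit 38531941) (nat_lit 15304010) [(nat_lit 445993), (nat_lit 1491418), (nat_lit 0), (nat_lit 8506050)]) PF.nil))))) (PF.cons (PF.cons (PF.leaf (nat_lit 6713130) (nat_lit 1476016) (nat_lit 38798276) (nat_lit 15361991) [(nat_lit 0), (nat_lit 1476016), (nat_lit 0), (nat_lit 8520495)]) (PF.cons (PF.leaf (nat_lit 6979902) (nat_lit 439843) (nat_lit 38436838) (nat_lit 15279094) [(nat_lit 439843), (nat_lit 1486035), (nat_lit 0), (nat_lit 8494927)]) (PF.cons (PF.leaf (nat_lit 7254466) (nat_lit 447084) (nat_lit 38068469) (nat_lit 15193283) [(nat_lit 447084), (nat_lit 1495107), (nat_lit 0), (nat_lit 8467569)]) (PF.cons PF.nil PF.nil)))) (PF.cons (PF.cons (PF.leaf (nat_lit 7381566) (nat_lit 1498046) (nat_lit 37607863) (nat_lit 15081249) [(nat_lit 0), (nat_lit 1498046), (nat_lit 0), (nat_lit 8427514)]) (PF.cons (PF.leaf (nat_lit 7656960) (nat_lit 454125) (nat_lit 37242366) (nat_lit 14993199) [(nat_lit 454125), (nat_lit 1505377), (nat_lit 0), (nat_lit 8397610)])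 PF.nil)) (PF.cons PF.nil PF.nil)))))) (PF.cons (PF.cons (PF.cons (PF.leaf (nat_lit 5913256) (nat_lit 3307556) (nat_lit 39687777) (nat_lit 15550161) [(nat_lit 0), (nat_lit 0), (nat_lit 3307556), (nat_lit 8563317)])
 (PF.cons (PF.leaf (nat_lit 6150190) (nat_lit 405911) (nat_lit 39363754) (nat_lit 15479034) [(nat_lit 405911), (nat_lit 0), (nat_lit 3316267), (nat_lit 8543844)]) (PF.cons (PF.leaf (nat_lit 6400121) (nat_lit 416845) (nat_lit 39025179) (nat_lit 15403573) [(nat_lit 416845), (nat_lit 0), (nat_lit 3324042), (nat_lit 8522325)]) (PF.cons (PF.leaf (nat_lit 6660170) (nat_lit 426451) (nat_lit 38675422) (nat_lit 15324410) [(nat_lit 426451), (nat_lit 0), (nat_lit 3330756), (nat_lit 8498867)]) (PF.cons (PF.leaf (nat_lit 6928547) (nat_lit 434965) (nat_lit 38317018) (nat_lit 15242025) [(nat_lit 434965), (nat_lit 0), (nat_lit 3336344), (nat_lit 8473562)]) (PF.cons (PF.leaf (nat_lit 7203877) (nat_lit 442554) (nat_lit 37951960) (nat_lit 15156807) [(nat_lit 442554), (nat_lit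 0), (nat_lit 3340777), (nat_lit 8446494)]) (PF.cons PF.nil PF.nil))))))) (PF.cons (PF.cons (PF.leaf (nat_lit 6541684) (nat_lit 1458255) (nat_lit 38546891) (nat_lit 15292070) [(nat_lit 0), (nat_lit 1458255), (nat_lit 3325964), (nat_lit 8485631)]) (PF.cons (PF.leaf (nat_lit 6795160) (nat_lit 427635) (nat_lit 38206204) (nat_lit 15213380) [(nat_lit 427635), (nat_lit 1469103), (nat_lit 3331232), (nat_lit 8461257)]) (PF.cons (PF.leaf
 (nat_lit 7058239) (nat_lit 436032) (nat_lit 37855975) (nat_lit 15131296) [(nat_lit 436032), (nat_lit 1478971), (nat_lit 3335480), (nat_lit 8435023)]) (PF.cons (PF.leaf (nat_lit 7328795) (nat_lit 443474) (nat_lit 37498528) (nat_lit 15046286) [(nat_lit 443474), (nat_lit 1487866), (nat_lit 3338668), (nat_lit 8407038)]) (PF.cons PF.nil PF.nil))))) (PF.cons (PF.cons (PF.leaf (nat_lit 7188771) (nat_lit 1482380) (nat_lit 37396804) (nat_lit 15019046) [(nat_lit 0), (nat_lit 1482380), (nat_lit 3333359), (nat_lit 8394840)]) (PF.cons (PF.leaf (nat_lit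 7453520) (nat_lit 443984) (nat_lit 37047913) (nat_lit 14934569) [(nat_lit 443984), (nat_lit 1490411), (nat_lit 3335402), (nat_lit 8366120)]) (PF.cons (PF.leaf (nat_lit 7725410) (nat_lit 450503) (nat_lit 36693003) (nat_lit 14847439) [(nat_lit 450503), (nat_lit 1497577), (nat_lit 3336451), (nat_lit 8335756)]) (PF.cons PF.nil PF.nil)))) (PF.cons (PF.cons (PF.leaf (nat_lit 7845621) (nat_lit 1498720) (nat_lit 36253503) (nat_lit 14735194) [(nat_lit 0), (nat_lit 1498720), (nat_lit 3331114), (nat_lit 8292839)]) (PF.cons PF.nil PF.nil)) (PF.cons PF.nil PF.nil))))) (PF.cons (PF.cons (PF.cons (PF.leaf (nat_lit 7010339) (nat_lit 3314245) (nat_lit 37167528)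
 (nat_lit 14952265) [(nat_lit 0), (nat_lit 0), (nat_lit 3314245), (nat_lit 8360528)]) (PF.cons (PF.leaf (nat_lit 7262502) (nat_lit 432225) (nat_lit 36837999) (nat_lit 14872025) [(nat_lit 432225), (nat_lit 0), (nat_lit 3316680), (nat_lit 8333201)]) (PF.cons (PF.leaf (nat_lit 7523658) (nat_lit 439884) (nat_lit 36499949) (nat_lit 14788631) [(nat_lit 439884), (nat_lit 0), (nat_lit 3318171), (nat_lit 8304119)]) (PF.cons (PF.leaf (nat_lit 7791687) (nat_lit 446615) (nat_lit 36155582) (nat_lit 14702564) [(nat_lit 446615), (nat_lit 0), (nat_lit 3318698), (nat_lit 8273422)]) (PF.cons PF.nil PF.nil))))) (PF.cons (PF.cons (PF.leaf (nat_lit 7647604) (nat_lit 1483804) (nat_lit 36061395) (nat_lit 14676178) [(nat_lit 0), (nat_lit 1483804), (nat_lit 3313159), (nat_lit 8261115)]) (PF.cons (PF.leaf (nat_lit 7909752) (nat_lit 446512) (nat_lit 35725702) (nat_lit 14590940) [(nat_lit 446512), (nat_lit 1490157), (nat_lit 3312769), (nat_lit 8229961)]) (PF.cons PF.nil (PF.cons PF.nil PF.nil))))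 (PF.cons (PF.cons (PF.leaf (nat_lit 8292175) (nat_lit 1495399) (nat_lit 34966217) (nat_lit 14391700) [(nat_lit 0), (nat_lit 1495399), (nat_lit 3303868), (nat_lit 8152356)]) (PF.cons PF.nil PF.nil)) PF.nil))) (PF.cons
 (PF.cons (PF.cons (PF.leaf (nat_lit 8090046) (nat_lit 3286611) (nat_lit 34791267) (nat_lit 14335923) [(nat_lit 0), (nat_lit 0), (nat_lit 3286611), (nat_lit 8121786)]) (PF.cons (PF.leaf (nat_lit 8349139) (nat_lit 447706) (nat_lit 34469052) (nat_lit 14250593) [(nat_lit 447706), (nat_lit 0), (nat_lit 3284220), (nat_lit 8088798)]) (PF.cons PF.nil PF.nil))) (PF.cons (PF.cons (PF.leaf (nat_lit 8721888) (nat_lit 1488852) (nat_lit 33744196) (nat_lit 14052810) [(nat_lit 0), (nat_lit 1488852), (nat_lit 3271605), (nat_lit 8008136)]) PF.nil) PF.nil)) (PF.cons PF.nil (PF.cons PF.nil PF.nil)))))) (PF.cons (PF.cons (PF.cons (PF.cons (PF.leaf (nat_lit 6660034) (nat_lit 8180745) (nat_lit 36123721) (nat_lit 14623599) [(nat_lit 0), (nat_lit 0), (nat_lit 0), (nat_lit 8180745)])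 (PF.cons (PF.leaf (nat_lit 6888563) (nat_lit 401250) (nat_lit 35839429) (nat_lit 14553389) [(nat_lit 401250), (nat_lit 0), (nat_lit 0), (nat_lit 8157371)]) (PF.cons (PF.leaf (nat_lit 7129138) (nat_lit 411246) (nat_lit 35542830) (nat_lit 14479288) [(nat_lit 411246), (nat_lit 0), (nat_lit 0), (nat_lit 8132100)]) (PF.cons (PF.leaf (nat_lit 7378851) (nat_lit 419925) (nat_lit 35236874) (nat_lit 14401948) [(nat_lit 419925), (nat_lit
 0), (nat_lit 0), (nat_lit 8105106)]) (PF.cons (PF.leaf (nat_lit 7636052) (nat_lit 427533) (nat_lit 34923765) (nat_lit 14321860) [(nat_lit 427533), (nat_lit 0), (nat_lit 0), (nat_lit 8076526)]) (PF.cons PF.nil (PF.cons PF.nil PF.nil))))))) (PF.cons (PF.cons (PF.leaf (nat_lit 7257989) (nat_lit 1426900) (nat_lit 35127435) (nat_lit 14371519) [(nat_lit 0), (nat_lit 1426900), (nat_lit 0), (nat_lit 8091478)]) (PF.cons (PF.leaf (nat_lit 7501139) (nat_lit 420244) (nat_lit 34829793) (nat_lit 14295122) [(nat_lit 420244), (nat_lit 1435462), (nat_lit 0),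 (nat_lit 8064094)]) (PF.cons (PF.leaf (nat_lit 7753077) (nat_lit 427792) (nat_lit 34524160) (nat_lit 14215789) [(nat_lit 427792), (nat_lit 1443103), (nat_lit 0), (nat_lit 8035087)]) (PF.cons (PF.leaf (nat_lit 8011731) (nat_lit 434408) (nat_lit 34212544) (nat_lit 14133986) [(nat_lit 434408), (nat_lit 1449850), (nat_lit 0), (nat_lit 8004601)]) (PF.cons PF.nil PF.nil))))) (PF.cons (PF.cons (PF.leaf (nat_lit 7871171) (nat_lit 1444267) (nat_lit 34126420) (nat_lit 14108787) [(nat_lit 0), (nat_lit 1444267), (nat_lit 0), (nat_lit 7992534)]) (PF.cons (PF.leaf (nat_lit 8124112) (nat_lit 434225) (nat_lit 33822496) (nat_lit 14027900) [(nat_lit 434225),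
 (nat_lit 1450332), (nat_lit 0), (nat_lit 7961763)]) (PF.cons PF.nil (PF.cons PF.nil PF.nil)))) (PF.cons (PF.cons (PF.leaf (nat_lit 8491821) (nat_lit 1455012) (nat_lit 33133468) (nat_lit 13839007) [(nat_lit 0), (nat_lit 1455012), (nat_lit 0), (nat_lit 7885649)]) (PF.cons PF.nil PF.nil)) (PF.cons PF.nil PF.nil))))) (PF.cons (PF.cons (PF.cons (PF.leaf (nat_lit 7690418) (nat_lit 3203896) (nat_lit 33935825) (nat_lit 14048625) [(nat_lit 0), (nat_lit 0), (nat_lit 3203896), (nat_lit 7960233)]) (PF.cons (PF.leaf (nat_lit 7931837) (nat_lit 422904) (nat_lit 33648445) (nat_lit 13971857) [(nat_lit 422904), (nat_lit 0), (nat_lit 3203504), (nat_lit 7931050)]) (PF.cons (PF.leaf (nat_lit 8181538) (nat_lit 429816) (nat_lit 33353866) (nat_lit 13892359) [(nat_lit 429816), (nat_lit 0), (nat_lit 3202274), (nat_lit 7900339)]) (PF.cons PF.nil (PF.cons PF.nil PF.nil))))) (PF.cons (PF.cons (PF.leaf (nat_lit 8293847) (nat_lit 1440884) (nat_lit 32974222) (nat_lit 13786424) [(nat_lit 0), (nat_lit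 1440884), (nat_lit 3194570), (nat_lit 7856355)]) (PF.cons (PF.leaf (nat_lit 8544042) (nat_lit 435180) (nat_lit 32682021) (nat_lit 13705766) [(nat_lit 435180), (nat_lit 1445625), (nat_lit 3191858), (nat_lit 7824180)])
 (PF.cons PF.nil (PF.cons PF.nil PF.nil)))) (PF.cons (PF.cons (PF.leaf (nat_lit 8902915) (nat_lit 1447986) (nat_lit 32023363) (nat_lit 13518900) [(nat_lit 0), (nat_lit 1447986), (nat_lit 3178822), (nat_lit 7745876)]) (PF.cons PF.nil PF.nil)) PF.nil))) (PF.cons (PF.cons (PF.cons (PF.leaf (nat_lit 8702176) (nat_lit 3162719) (nat_lit 31878042) (nat_lit 13469467) [(nat_lit 0), (nat_lit 0), (nat_lit 3162719), (nat_lit 7717931)]) (PF.cons (PF.leaf (nat_lit 8949306) (nat_lit 435139) (nat_lit 31597575) (nat_lit 13389459) [(nat_lit 435139), (nat_lit 0), (nat_lit 3158564), (nat_lit 7684754)]) PF.nil)) (PF.cons PF.nil PF.nil)) (PF.cons PF.nil (PF.cons PF.nil PF.nil))))) (PF.cons (PF.cons (PF.cons (PF.cons (PF.leaf (nat_lit 8302919) (nat_lit 7573750) (nat_lit 31169374)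 (nat_lit 13218186) [(nat_lit 0), (nat_lit 0), (nat_lit 0), (nat_lit 7573750)]) (PF.cons (PF.leaf (nat_lit 8534237) (nat_lit 412098) (nat_lit 30917781) (nat_lit 13146037) [(nat_lit 412098), (nat_lit 0), (nat_lit 0), (nat_lit 7544298)]) (PF.cons (PF.leaf (nat_lit 8773268) (nat_lit 418405) (nat_lit 30660004) (nat_lit 13071495) [(nat_lit 418405), (nat_lit 0), (nat_lit 0), (nat_lit 7513500)]) (PF.cons PF.nil PF.nil)))) (PF.cons
 (PF.cons (PF.leaf (nat_lit 8875946) (nat_lit 1395110) (nat_lit 30329710) (nat_lit 12973092) [(nat_lit 0), (nat_lit 1395110), (nat_lit 0), (nat_lit 7470299)]) (PF.cons (PF.leaf (nat_lit 9115119) (nat_lit 422839) (nat_lit 30074131) (nat_lit 12897814) [(nat_lit 422839), (nat_lit 1398706), (nat_lit 0), (nat_lit 7438440)]) PF.nil)) (PF.cons PF.nil PF.nil))) (PF.cons (PF.cons (PF.cons (PF.leaf (nat_lit 9255576) (nat_lit 3039435) (nat_lit 29378056) (nat_lit 12680943) [(nat_lit 0), (nat_lit 0), (nat_lit 3039435), (nat_lit 7336792)]) (PF.cons PF.nil PF.nil))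 (PF.cons PF.nil PF.nil)) (PF.cons PF.nil PF.nil))) (PF.cons (PF.cons (PF.cons (PF.cons (PF.leaf (nat_lit 9761491) (nat_lit 6981551) (nat_lit 27216543) (nat_lit 11966064) [(nat_lit 0), (nat_lit 0), (nat_lit 0), (nat_lit 6981551)]) (PF.cons PF.nil PF.nil)) (PF.cons PF.nil PF.nil)) (PF.cons PF.nil PF.nil)) (PF.cons PF.nil (PF.cons PF.nil (PF.cons PF.nil PF.nil))))))))

def p12_13_3_0 : pfC (piC [(nat_lit 39120232), (nat_lit 25510466), (nat_lit 18971201), (nat_lit 12765436)] (nat_lit 5447273)) p12_13_3 (nat_lit 4) (nat_lit 0) (nat_lit 1) = true := by decide +kernel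
def p12_13_3_1 : pfC (piC [(nat_lit 39120232), (nat_lit 25510466), (nat_lit 18971201), (nat_lit 12765436)] (nat_lit 5447273)) p12_13_3 (nat_lit 4) (nat_lit 1) (nat_lit 2) = true := by decide +kernel
def p12_13_3_2 : pfC (piC [(nat_lit 39120232), (nat_lit 25510466), (nat_lit 18971201), (nat_lit 12765436)] (nat_lit 5447273)) p12_13_3 (nat_lit 4) (nat_lit 2) (nat_lit 3) = true := by decide +kernel
def p12_13_3_3 : pfC (piC [(nat_lit 39120232), (nat_lit 25510466), (nat_lit 18971201), (nat_lit 12765436)] (nat_lit 5447273)) p12_13_3 (nat_lit 4) (nat_lit 3) (nat_lit 4) = true := by decide +kernel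
def p12_13_3_4 : pfC (piC [(nat_lit 39120232), (nat_lit 25510466), (nat_lit 18971201), (nat_lit 12765436)] (nat_lit 5447273)) p12_13_3 (nat_lit 4) (nat_lit 4) (nat_lit 5) = true := by decide +kernel
def p12_13_3_5 : pfC (piC [(nat_lit 39120232), (nat_lit 25510466), (nat_lit 18971201), (nat_lit 12765436)] (nat_lit 5447273)) p12_13_3 (nat_lit 4) (nat_lit 5) (nat_lit 6) = true := by decide +kernel
def p12_13_3_6 : pfC (piC [(nat_lit 39120232), (nat_lit 25510466), (nat_lit 18971201), (nat_lit 12765436)] (nat_lit 5447273)) p12_13_3 (nat_lit 4) (nat_lit 6) (nat_lit 7) = true := by decide +kernel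
def p12_13_3_7 : pfC (piC [(nat_lit 39120232), (nat_lit 25510466), (nat_lit 18971201), (nat_lit 12765436)] (nat_lit 5447273)) p12_13_3 (nat_lit 4) (nat_lit 7) (nat_lit 8) = true := by decide +kernel
def p12_13_3_8 : pfC (piC [(nat_lit 39120232), (nat_lit 25510466), (nat_lit 18971201), (nat_lit 12765436)] (nat_lit 5447273)) p12_13_3 (nat_lit 4) (nat_lit 8) (nat_lit 9) = true := by decide +kernel
def p12_13_3_9 : pfC (piC [(nat_lit 39120232), (nat_lit 25510466), (nat_lit 18971201), (nat_lit 12765436)] (nat_lit 5447273)) p12_13_3 (nat_lit 4) (nat_lit 9) (nat_lit 10) = true := by decide +kernel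
def p12_13_3_10 : pfC (piC [(nat_lit 39120232), (nat_lit 25510466), (nat_lit 18971201), (nat_lit 12765436)] (nat_lit 5447273)) p12_13_3 (nat_lit 4) (nat_lit 10) (nat_lit 11) = true := by decide +kernel
def p12_13_3_11 : pfC (piC [(nat_lit 39120232), (nat_lit 25510466), (nat_lit 18971201), (nat_lit 12765436)] (nat_lit 5447273)) p12_13_3 (nat_lit 4) (nat_lit 11) (nat_lit 12) = true := by decide +kernel
def p12_13_3_12 : pfC (piC [(nat_lit 39120232), (nat_lit 25510466), (nat_lit 18971201), (nat_lit 12765436)] (nat_lit 5447273)) p12_13_3 (nat_lit 4) (nat_lit 12) (nat_lit 13) = true := by decide +kernel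
def p12_13_3_13 : pfC (piC [(nat_lit 39120232), (nat_lit 25510466), (nat_lit 18971201), (nat_lit 12765436)] (nat_lit 5447273)) p12_13_3 (nat_lit 4) (nat_lit 13) (nat_lit 14) = true := by decide +kernel
def p12_13_3_14 : pfC (piC [(nat_lit 39120232), (nat_lit 25510466), (nat_lit 18971201), (nat_lit 12765436)] (nat_lit 5447273)) p12_13_3 (nat_lit 4) (nat_lit 14) (nat_lit 15) = true := by decide +kernel
def p12_13_3_15 : pfC (piC [(nat_lit 39120232), (nat_lit 25510466), (nat_lit 18971201), (nat_lit 12765436)] (nat_lit 5447273)) p12_13_3 (nat_lit 4) (nat_lit 15) (nat_lit 16) = true := by decide +kernel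
def p12_13_3_16 : pfC (piC [(nat_lit 39120232), (nat_lit 25510466), (nat_lit 18971201), (nat_lit 12765436)] (nat_lit 5447273)) p12_13_3 (nat_lit 4) (nat_lit 16) (nat_lit 17) = true := by decide +kernel
def p12_13_3_17 : pfC (piC [(nat_lit 39120232), (nat_lit 25510466), (nat_lit 18971201), (nat_lit 12765436)] (nat_lit 5447273)) p12_13_3 (nat_lit 4) (nat_lit 17) (nat_lit 18) = true := by decide +kernel
def p12_13_3_18 : pfC (piC [(nat_lit 39120232), (nat_lit 25510466), (nat_lit 18971201), (nat_lit 12765436)] (nat_lit 5447273)) p12_13_3 (nat_lit 4) (nat_lit 18) (nat_lit 19) = true := by decide +kernel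
def p12_13_3_19 : pfC (piC [(nat_lit 39120232), (nat_lit 25510466), (nat_lit 18971201), (nat_lit 12765436)] (nat_lit 5447273)) p12_13_3 (nat_lit 4) (nat_lit 19) (nat_lit 20) = true := by decide +kernel
def p12_13_3_20 : pfC (piC [(nat_lit 39120232), (nat_lit 25510466), (nat_lit 18971201), (nat_lit 12765436)] (nat_lit 5447273)) p12_13_3 (nat_lit 4) (nat_lit 20) (nat_lit 21) = true := by decide +kernel
def p12_13_3_21 : pfC (piC [(nat_lit 39120232), (nat_lit 25510466), (nat_lit 18971201), (nat_lit 12765436)] (nat_lit 5447273)) p12_13_3 (nat_lit 4) (nat_lit 21) (nat_lit 22) = true := by decide +kernel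
def p12_13_3_22 : pfC (piC [(nat_lit 39120232), (nat_lit 25510466), (nat_lit 18971201), (nat_lit 12765436)] (nat_lit 5447273)) p12_13_3 (nat_lit 4) (nat_lit 22) (nat_lit 23) = true := by decide +kernel
def p12_13_3_23 : pfC (piC [(nat_lit 39120232), (nat_lit 25510466), (nat_lit 18971201), (nat_lit 12765436)] (nat_lit 5447273)) p12_13_3 (nat_lit 4) (nat_lit 23) (nat_lit 24) = true := by decide +kernel
def p12_13_3_24 : pfC (piC [(nat_lit 39120232), (nat_lit 25510466), (nat_lit 18971201), (nat_lit 12765436)] (nat_lit 5447273)) p12_13_3 (nat_lit 4) (nat_lit 24) (nat_lit 25) = true := by decide +kernel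
def p12_13_3_25 : pfC (piC [(nat_lit 39120232), (nat_lit 25510466), (nat_lit 18971201), (nat_lit 12765436)] (nat_lit 5447273)) p12_13_3 (nat_lit 4) (nat_lit 25) (nat_lit 26) = true := by decide +kernel
def p12_13_3_26 : pfC (piC [(nat_lit 39120232), (nat_lit 25510466), (nat_lit 18971201), (nat_lit 12765436)] (nat_lit 5447273)) p12_13_3 (nat_lit 4) (nat_lit 26) (nat_lit 27) = true := by decide +kernel
def p12_13_3_27 : pfC (piC [(nat_lit 39120232), (nat_lit 25510466), (nat_lit 18971201), (nat_lit 12765436)] (nat_lit 5447273)) p12_13_3 (nat_lit 4) (nat_lit 27) (nat_lit 28) = true := by decide +kernel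
def p12_13_3_28 : pfC (piC [(nat_lit 39120232), (nat_lit 25510466), (nat_lit 18971201), (nat_lit 12765436)] (nat_lit 5447273)) p12_13_3 (nat_lit 4) (nat_lit 28) (nat_lit 29) = true := by decide +kernel
def p12_13_3_29 : pfC (piC [(nat_lit 39120232), (nat_lit 25510466), (nat_lit 18971201), (nat_lit 12765436)] (nat_lit 5447273)) p12_13_3 (nat_lit 4) (nat_lit 29) (nat_lit 30) = true := by decide +kernel
def p12_13_3_30 : pfC (piC [(nat_lit 39120232), (nat_lit 25510466), (nat_lit 18971201), (nat_lit 12765436)] (nat_lit 5447273)) p12_13_3 (nat_lit 4) (nat_lit 30) (nat_lit 31) = true := by decide +kernel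
def p12_13_3_31 : pfC (piC [(nat_lit 39120232), (nat_lit 25510466), (nat_lit 18971201), (nat_lit 12765436)] (nat_lit 5447273)) p12_13_3 (nat_lit 4) (nat_lit 31) (nat_lit 32) = true := by decide +kernel
def p12_13_3_32 : pfC (piC [(nat_lit 39120232), (nat_lit 25510466), (nat_lit 18971201), (nat_lit 12765436)] (nat_lit 5447273)) p12_13_3 (nat_lit 4) (nat_lit 32) (nat_lit 33) = true := by decide +kernel
def p12_13_3_33 : pfC (piC [(nat_lit 39120232), (nat_lit 25510466), (nat_lit 18971201), (nat_lit 12765436)] (nat_lit 5447273)) p12_13_3 (nat_lit 4) (nat_lit 33) (nat_lit 34) = true := by decide +kernel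
def p12_13_3_34 : pfC (piC [(nat_lit 39120232), (nat_lit 25510466), (nat_lit 18971201), (nat_lit 12765436)] (nat_lit 5447273)) p12_13_3 (nat_lit 4) (nat_lit 34) (nat_lit 35) = true := by decide +kernel
def p12_13_3_35 : pfC (piC [(nat_lit 39120232), (nat_lit 25510466), (nat_lit 18971201), (nat_lit 12765436)] (nat_lit 5447273)) p12_13_3 (nat_lit 4) (nat_lit 35) (nat_lit 36) = true := by decide +kernel
def p12_13_3_36 : pfC (piC [(nat_lit 39120232), (nat_lit 25510466), (nat_lit 18971201), (nat_lit 12765436)] (nat_lit 5447273)) p12_13_3 (nat_lit 4) (nat_lit 36) (nat_lit 37) = true := by decide +kernel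
def p12_13_3_37 : pfC (piC [(nat_lit 39120232), (nat_lit 25510466), (nat_lit 18971201), (nat_lit 12765436)] (nat_lit 5447273)) p12_13_3 (nat_lit 4) (nat_lit 37) (nat_lit 38) = true := by decide +kernel
def p12_13_3_38 : pfC (piC [(nat_lit 39120232), (nat_lit 25510466), (nat_lit 18971201), (nat_lit 12765436)] (nat_lit 5447273)) p12_13_3 (nat_lit 4) (nat_lit 38) (nat_lit 39) = true := by decide +kernel
def p12_13_3_39 : pfC (piC [(nat_lit 39120232), (nat_lit 25510466), (nat_lit 18971201), (nat_lit 12765436)] (nat_lit 5447273)) p12_13_3 (nat_lit 4) (nat_lit 39) (nat_lit 40) = true := by decide +kernel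
def p12_13_3_40 : pfC (piC [(nat_lit 39120232), (nat_lit 25510466), (nat_lit 18971201), (nat_lit 12765436)] (nat_lit 5447273)) p12_13_3 (nat_lit 4) (nat_lit 40) (nat_lit 41) = true := by decide +kernel
def p12_13_3_41 : pfC (piC [(nat_lit 39120232), (nat_lit 25510466), (nat_lit 18971201), (nat_lit 12765436)] (nat_lit 5447273)) p12_13_3 (nat_lit 4) (nat_lit 41) (nat_lit 42) = true := by decide +kernel
def p12_13_3_42 : pfC (piC [(nat_lit 39120232), (nat_lit 25510466), (nat_lit 18971201), (nat_lit 12765436)] (nat_lit 5447273)) p12_13_3 (nat_lit 4) (nat_lit 42) (nat_lit 43) = true := by decide +kernel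
def p12_13_3_43 : pfC (piC [(nat_lit 39120232), (nat_lit 25510466), (nat_lit 18971201), (nat_lit 12765436)] (nat_lit 5447273)) p12_13_3 (nat_lit 4) (nat_lit 43) (nat_lit 44) = true := by decide +kernel
def p12_13_3_44 : pfC (piC [(nat_lit 39120232), (nat_lit 25510466), (nat_lit 18971201), (nat_lit 12765436)] (nat_lit 5447273)) p12_13_3 (nat_lit 4) (nat_lit 44) (nat_lit 45) = true := by decide +kernel
def p12_13_3_45 : pfC (piC [(nat_lit 39120232), (nat_lit 25510466), (nat_lit 18971201), (nat_lit 12765436)] (nat_lit 5447273)) p12_13_3 (nat_lit 4) (nat_lit 45) (nat_lit 46) = true := by decide +kernel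
def p12_13_3_46 : pfC (piC [(nat_lit 39120232), (nat_lit 25510466), (nat_lit 18971201), (nat_lit 12765436)] (nat_lit 5447273)) p12_13_3 (nat_lit 4) (nat_lit 46) (nat_lit 47) = true := by decide +kernel
def p12_13_3_47 : pfC (piC [(nat_lit 39120232), (nat_lit 25510466), (nat_lit 18971201), (nat_lit 12765436)] (nat_lit 5447273)) p12_13_3 (nat_lit 4) (nat_lit 47) (nat_lit 48) = true := by decide +kernel
def p12_13_3_48 : pfC (piC [(nat_lit 39120232), (nat_lit 25510466), (nat_lit 18971201), (nat_lit 12765436)] (nat_lit 5447273)) p12_13_3 (nat_lit 4) (nat_lit 48) (nat_lit 49) = true := by decide +kernel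
def p12_13_3_49 : pfC (piC [(nat_lit 39120232), (nat_lit 25510466), (nat_lit 18971201), (nat_lit 12765436)] (nat_lit 5447273)) p12_13_3 (nat_lit 4) (nat_lit 49) (nat_lit 50) = true := by decide +kernel
def p12_13_3_50 : pfC (piC [(nat_lit 39120232), (nat_lit 25510466), (nat_lit 18971201), (nat_lit 12765436)] (nat_lit 5447273)) p12_13_3 (nat_lit 4) (nat_lit 50) (nat_lit 51) = true := by decide +kernel
def p12_13_3_51 : pfC (piC [(nat_lit 39120232), (nat_lit 25510466), (nat_lit 18971201), (nat_lit 12765436)] (nat_lit 5447273)) p12_13_3 (nat_lit 4) (nat_lit 51) (nat_lit 52) = true := by decide +kernel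
def p12_13_3_52 : pfC (piC [(nat_lit 39120232), (nat_lit 25510466), (nat_lit 18971201), (nat_lit 12765436)] (nat_lit 5447273)) p12_13_3 (nat_lit 4) (nat_lit 52) (nat_lit 53) = true := by decide +kernel
def p12_13_3_53 : pfC (piC [(nat_lit 39120232), (nat_lit 25510466), (nat_lit 18971201), (nat_lit 12765436)] (nat_lit 5447273)) p12_13_3 (nat_lit 4) (nat_lit 53) (nat_lit 54) = true := by decide +kernel
def p12_13_3_54 : pfC (piC [(nat_lit 39120232), (nat_lit 25510466), (nat_lit 18971201), (nat_lit 12765436)] (nat_lit 5447273)) p12_13_3 (nat_lit 4) (nat_lit 54) (nat_lit 55) = true := by decide +kernel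
def p12_13_3_55 : pfC (piC [(nat_lit 39120232), (nat_lit 25510466), (nat_lit 18971201), (nat_lit 12765436)] (nat_lit 5447273)) p12_13_3 (nat_lit 4) (nat_lit 55) (nat_lit 56) = true := by decide +kernel
def p12_13_3_56 : pfC (piC [(nat_lit 39120232), (nat_lit 25510466), (nat_lit 18971201), (nat_lit 12765436)] (nat_lit 5447273)) p12_13_3 (nat_lit 4) (nat_lit 56) (nat_lit 57) = true := by decide +kernel
def p12_13_3_57 : pfC (piC [(nat_lit 39120232), (nat_lit 25510466), (nat_lit 18971201), (nat_lit 12765436)] (nat_lit 5447273)) p12_13_3 (nat_lit 4) (nat_lit 57) (nat_lit 58) = true := by decide +kernel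
def p12_13_3_58 : pfC (piC [(nat_lit 39120232), (nat_lit 25510466), (nat_lit 18971201), (nat_lit 12765436)] (nat_lit 5447273)) p12_13_3 (nat_lit 4) (nat_lit 58) (nat_lit 59) = true := by decide +kernel
def p12_13_3_59 : pfC (piC [(nat_lit 39120232), (nat_lit 25510466), (nat_lit 18971201), (nat_lit 12765436)] (nat_lit 5447273)) p12_13_3 (nat_lit 4) (nat_lit 59) (nat_lit 60) = true := by decide +kernel
def p12_13_3_60 : pfC (piC [(nat_lit 39120232), (nat_lit 25510466), (nat_lit 18971201), (nat_lit 12765436)] (nat_lit 5447273)) p12_13_3 (nat_lit 4) (nat_lit 60) (nat_lit 61) = true := by decide +kernel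
def p12_13_3_61 : pfC (piC [(nat_lit 39120232), (nat_lit 25510466), (nat_lit 18971201), (nat_lit 12765436)] (nat_lit 5447273)) p12_13_3 (nat_lit 4) (nat_lit 61) (nat_lit 62) = true := by decide +kernel
def p12_13_3_62 : pfC (piC [(nat_lit 39120232), (nat_lit 25510466), (nat_lit 18971201), (nat_lit 12765436)] (nat_lit 5447273)) p12_13_3 (nat_lit 4) (nat_lit 62) (nat_lit 63) = true := by decide +kernel
def p12_13_3_63 : pfC (piC [(nat_lit 39120232), (nat_lit 25510466), (nat_lit 18971201), (nat_lit 12765436)] (nat_lit 5447273)) p12_13_3 (nat_lit 4) (nat_lit 63) (nat_lit 64) = true := by decide +kernel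
def p12_13_3_64 : pfC (piC [(nat_lit 39120232), (nat_lit 25510466), (nat_lit 18971201), (nat_lit 12765436)] (nat_lit 5447273)) p12_13_3 (nat_lit 4) (nat_lit 64) (nat_lit 65) = true := by decide +kernel
def p12_13_3_65 : pfC (piC [(nat_lit 39120232), (nat_lit 25510466), (nat_lit 18971201), (nat_lit 12765436)] (nat_lit 5447273)) p12_13_3 (nat_lit 4) (nat_lit 65) (nat_lit 66) = true := by decide +kernel
def p12_13_3_66 : pfC (piC [(nat_lit 39120232), (nat_lit 25510466), (nat_lit 18971201), (nat_lit 12765436)] (nat_lit 5447273)) p12_13_3 (nat_lit 4) (nat_lit 66) (nat_lit 67) = true := by decide +kernel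
def p12_13_3_67 : pfC (piC [(nat_lit 39120232), (nat_lit 25510466), (nat_lit 18971201), (nat_lit 12765436)] (nat_lit 5447273)) p12_13_3 (nat_lit 4) (nat_lit 67) (nat_lit 68) = true := by decide +kernel
def p12_13_3_68 : pfC (piC [(nat_lit 39120232), (nat_lit 25510466), (nat_lit 18971201), (nat_lit 12765436)] (nat_lit 5447273)) p12_13_3 (nat_lit 4) (nat_lit 68) (nat_lit 69) = true := by decide +kernel
def p12_13_3_69 : pfC (piC [(nat_lit 39120232), (nat_lit 25510466), (nat_lit 18971201), (nat_lit 12765436)] (nat_lit 5447273)) p12_13_3 (nat_lit 4) (nat_lit 69) (nat_lit 70) = true := by decide +kernel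
def p12_13_3_70 : pfC (piC [(nat_lit 39120232), (nat_lit 25510466), (nat_lit 18971201), (nat_lit 12765436)] (nat_lit 5447273)) p12_13_3 (nat_lit 4) (nat_lit 70) (nat_lit 71) = true := by decide +kernel
def p12_13_3_71 : pfC (piC [(nat_lit 39120232), (nat_lit 25510466), (nat_lit 18971201), (nat_lit 12765436)] (nat_lit 5447273)) p12_13_3 (nat_lit 4) (nat_lit 71) (nat_lit 72) = true := by decide +kernel
def p12_13_3_72 : pfC (piC [(nat_lit 39120232), (nat_lit 25510466), (nat_lit 18971201), (nat_lit 12765436)] (nat_lit 5447273)) p12_13_3 (nat_lit 4) (nat_lit 72) (nat_lit 73) = true := by decide +kernel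
def p12_13_3_73 : pfC (piC [(nat_lit 39120232), (nat_lit 25510466), (nat_lit 18971201), (nat_lit 12765436)] (nat_lit 5447273)) p12_13_3 (nat_lit 4) (nat_lit 73) (nat_lit 74) = true := by decide +kernel
def p12_13_3_74 : pfC (piC [(nat_lit 39120232), (nat_lit 25510466), (nat_lit 18971201), (nat_lit 12765436)] (nat_lit 5447273)) p12_13_3 (nat_lit 4) (nat_lit 74) (nat_lit 75) = true := by decide +kernel
def p12_13_3_75 : pfC (piC [(nat_lit 39120232), (nat_lit 25510466), (nat_lit 18971201), (nat_lit 12765436)] (nat_lit 5447273)) p12_13_3 (nat_lit 4) (nat_lit 75) (nat_lit 76) = true := by decide +kernel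
def p12_13_3_76 : pfC (piC [(nat_lit 39120232), (nat_lit 25510466), (nat_lit 18971201), (nat_lit 12765436)] (nat_lit 5447273)) p12_13_3 (nat_lit 4) (nat_lit 76) (nat_lit 77) = true := by decide +kernel
def p12_13_3_77 : pfC (piC [(nat_lit 39120232), (nat_lit 25510466), (nat_lit 18971201), (nat_lit 12765436)] (nat_lit 5447273)) p12_13_3 (nat_lit 4) (nat_lit 77) (nat_lit 78) = true := by decide +kernel
def p12_13_3_78 : pfC (piC [(nat_lit 39120232), (nat_lit 25510466), (nat_lit 18971201), (nat_lit 12765436)] (nat_lit 5447273)) p12_13_3 (nat_lit 4) (nat_lit 78) (nat_lit 79) = true := by decide +kernel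
def p12_13_3_79 : pfC (piC [(nat_lit 39120232), (nat_lit 25510466), (nat_lit 18971201), (nat_lit 12765436)] (nat_lit 5447273)) p12_13_3 (nat_lit 4) (nat_lit 79) (nat_lit 80) = true := by decide +kernel
def p12_13_3_80 : pfC (piC [(nat_lit 39120232), (nat_lit 25510466), (nat_lit 18971201), (nat_lit 12765436)] (nat_lit 5447273)) p12_13_3 (nat_lit 4) (nat_lit 80) (nat_lit 81) = true := by decide +kernel
def p12_13_3_81 : pfC (piC [(nat_lit 39120232), (nat_lit 25510466), (nat_lit 18971201), (nat_lit 12765436)] (nat_lit 5447273)) p12_13_3 (nat_lit 4) (nat_lit 81) (nat_lit 82) = true := by decide +kernel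
def p12_13_3_82 : pfC (piC [(nat_lit 39120232), (nat_lit 25510466), (nat_lit 18971201), (nat_lit 12765436)] (nat_lit 5447273)) p12_13_3 (nat_lit 4) (nat_lit 82) (nat_lit 83) = true := by decide +kernel
def p12_13_3_83 : pfC (piC [(nat_lit 39120232), (nat_lit 25510466), (nat_lit 18971201), (nat_lit 12765436)] (nat_lit 5447273)) p12_13_3 (nat_lit 4) (nat_lit 83) (nat_lit 84) = true := by decide +kernel
def p12_13_3_84 : pfC (piC [(nat_lit 39120232), (nat_lit 25510466), (nat_lit 18971201), (nat_lit 12765436)] (nat_lit 5447273)) p12_13_3 (nat_lit 4) (nat_lit 84) (nat_lit 85) = true := by decide +kernel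
def p12_13_3_85 : pfC (piC [(nat_lit 39120232), (nat_lit 25510466), (nat_lit 18971201), (nat_lit 12765436)] (nat_lit 5447273)) p12_13_3 (nat_lit 4) (nat_lit 85) (nat_lit 86) = true := by decide +kernel
def p12_13_3_86 : pfC (piC [(nat_lit 39120232), (nat_lit 25510466), (nat_lit 18971201), (nat_lit 12765436)] (nat_lit 5447273)) p12_13_3 (nat_lit 4) (nat_lit 86) (nat_lit 87) = true := by decide +kernel
def p12_13_3_87 : pfC (piC [(nat_lit 39120232), (nat_lit 25510466), (nat_lit 18971201), (nat_lit 12765436)] (nat_lit 5447273)) p12_13_3 (nat_lit 4) (nat_lit 87) (nat_lit 88) = true := by decide +kernel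
def p12_13_3_88 : pfC (piC [(nat_lit 39120232), (nat_lit 25510466), (nat_lit 18971201), (nat_lit 12765436)] (nat_lit 5447273)) p12_13_3 (nat_lit 4) (nat_lit 88) (nat_lit 89) = true := by decide +kernel
def p12_13_3_89 : pfC (piC [(nat_lit 39120232), (nat_lit 25510466), (nat_lit 18971201), (nat_lit 12765436)] (nat_lit 5447273)) p12_13_3 (nat_lit 4) (nat_lit 89) (nat_lit 90) = true := by decide +kernel
def p12_13_3_90 : pfC (piC [(nat_lit 39120232), (nat_lit 25510466), (nat_lit 18971201), (nat_lit 12765436)] (nat_lit 5447273)) p12_13_3 (nat_lit 4) (nat_lit 90) (nat_lit 91) = true := by decide +kernel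
def p12_13_3_91 : pfC (piC [(nat_lit 39120232), (nat_lit 25510466), (nat_lit 18971201), (nat_lit 12765436)] (nat_lit 5447273)) p12_13_3 (nat_lit 4) (nat_lit 91) (nat_lit 92) = true := by decide +kernel
def p12_13_3_92 : pfC (piC [(nat_lit 39120232), (nat_lit 25510466), (nat_lit 18971201), (nat_lit 12765436)] (nat_lit 5447273)) p12_13_3 (nat_lit 4) (nat_lit 92) (nat_lit 93) = true := by decide +kernel
def p12_13_3_93 : pfC (piC [(nat_lit 39120232), (nat_lit 25510466), (nat_lit 18971201), (nat_lit 12765436)] (nat_lit 5447273)) p12_13_3 (nat_lit 4) (nat_lit 93) (nat_lit 94) = true := by decide +kernel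
def p12_13_3_94 : pfC (piC [(nat_lit 39120232), (nat_lit 25510466), (nat_lit 18971201), (nat_lit 12765436)] (nat_lit 5447273)) p12_13_3 (nat_lit 4) (nat_lit 94) (nat_lit 95) = true := by decide +kernel
def p12_13_3_95 : pfC (piC [(nat_lit 39120232), (nat_lit 25510466), (nat_lit 18971201), (nat_lit 12765436)] (nat_lit 5447273)) p12_13_3 (nat_lit 4) (nat_lit 95) (nat_lit 96) = true := by decide +kernel
def p12_13_3_96 : pfC (piC [(nat_lit 39120232), (nat_lit 25510466), (nat_lit 18971201), (nat_lit 12765436)] (nat_lit 5447273)) p12_13_3 (nat_lit 4) (nat_lit 96) (nat_lit 97) = true := by decide +kernel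
def p12_13_3_97 : pfC (piC [(nat_lit 39120232), (nat_lit 25510466), (nat_lit 18971201), (nat_lit 12765436)] (nat_lit 5447273)) p12_13_3 (nat_lit 4) (nat_lit 97) (nat_lit 98) = true := by decide +kernel
def p12_13_3_98 : pfC (piC [(nat_lit 39120232), (nat_lit 25510466), (nat_lit 18971201), (nat_lit 12765436)] (nat_lit 5447273)) p12_13_3 (nat_lit 4) (nat_lit 98) (nat_lit 99) = true := by decide +kernel
def p12_13_3_99 : pfC (piC [(nat_lit 39120232), (nat_lit 25510466), (nat_lit 18971201), (nat_lit 12765436)] (nat_lit 5447273)) p12_13_3 (nat_lit 4) (nat_lit 99) (nat_lit 100) = true := by decide +kernel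
def p12_13_3_100 : pfC (piC [(nat_lit 39120232), (nat_lit 25510466), (nat_lit 18971201), (nat_lit 12765436)] (nat_lit 5447273)) p12_13_3 (nat_lit 4) (nat_lit 100) (nat_lit 101) = true := by decide +kernel
def p12_13_3_101 : pfC (piC [(nat_lit 39120232), (nat_lit 25510466), (nat_lit 18971201), (nat_lit 12765436)] (nat_lit 5447273)) p12_13_3 (nat_lit 4) (nat_lit 101) (nat_lit 102) = true := by decide +kernel
def p12_13_3_102 : pfC (piC [(nat_lit 39120232), (nat_lit 25510466), (nat_lit 18971201), (nat_lit 12765436)] (nat_lit 5447273)) p12_13_3 (nat_lit 4) (nat_lit 102) (nat_lit 103) = true := by decide +kernel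
def p12_13_3_103 : pfC (piC [(nat_lit 39120232), (nat_lit 25510466), (nat_lit 18971201), (nat_lit 12765436)] (nat_lit 5447273)) p12_13_3 (nat_lit 4) (nat_lit 103) (nat_lit 104) = true := by decide +kernel
def p12_13_3_104 : pfC (piC [(nat_lit 39120232), (nat_lit 25510466), (nat_lit 18971201), (nat_lit 12765436)] (nat_lit 5447273)) p12_13_3 (nat_lit 4) (nat_lit 104) (nat_lit 105) = true := by decide +kernel
def p12_13_3_105 : pfC (piC [(nat_lit 39120232), (nat_lit 25510466), (nat_lit 18971201), (nat_lit 12765436)] (nat_lit 5447273)) p12_13_3 (nat_lit 4) (nat_lit 105) (nat_lit 106) = true := by decide +kernel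
def p12_13_3_106 : pfC (piC [(nat_lit 39120232), (nat_lit 25510466), (nat_lit 18971201), (nat_lit 12765436)] (nat_lit 5447273)) p12_13_3 (nat_lit 4) (nat_lit 106) (nat_lit 107) = true := by decide +kernel
def p12_13_3_107 : pfC (piC [(nat_lit 39120232), (nat_lit 25510466), (nat_lit 18971201), (nat_lit 12765436)] (nat_lit 5447273)) p12_13_3 (nat_lit 4) (nat_lit 107) (nat_lit 108) = true := by decide +kernel
def p12_13_3_108 : pfC (piC [(nat_lit 39120232), (nat_lit 25510466), (nat_lit 18971201), (nat_lit 12765436)] (nat_lit 5447273)) p12_13_3 (nat_lit 4) (nat_lit 108) (nat_lit 109) = true := by decide +kernel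
def p12_13_3_109 : pfC (piC [(nat_lit 39120232), (nat_lit 25510466), (nat_lit 18971201), (nat_lit 12765436)] (nat_lit 5447273)) p12_13_3 (nat_lit 4) (nat_lit 109) (nat_lit 110) = true := by decide +kernel
def p12_13_3_110 : pfC (piC [(nat_lit 39120232), (nat_lit 25510466), (nat_lit 18971201), (nat_lit 12765436)] (nat_lit 5447273)) p12_13_3 (nat_lit 4) (nat_lit 110) (nat_lit 111) = true := by decide +kernel
def p12_13_3_111 : pfC (piC [(nat_lit 39120232), (nat_lit 25510466), (nat_lit 18971201), (nat_lit 12765436)] (nat_lit 5447273)) p12_13_3 (nat_lit 4) (nat_lit 111) (nat_lit 112) = true := by decide +kernel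
def p12_13_3_112 : pfC (piC [(nat_lit 39120232), (nat_lit 25510466), (nat_lit 18971201), (nat_lit 12765436)] (nat_lit 5447273)) p12_13_3 (nat_lit 4) (nat_lit 112) (nat_lit 113) = true := by decide +kernel
def p12_13_3_113 : pfC (piC [(nat_lit 39120232), (nat_lit 25510466), (nat_lit 18971201), (nat_lit 12765436)] (nat_lit 5447273)) p12_13_3 (nat_lit 4) (nat_lit 113) (nat_lit 114) = true := by decide +kernel
def p12_13_3_114 : pfC (piC [(nat_lit 39120232), (nat_lit 25510466), (nat_lit 18971201), (nat_lit 12765436)] (nat_lit 5447273)) p12_13_3 (nat_lit 4) (nat_lit 114) (nat_lit 115) = true := by decide +kernel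
def p12_13_3_115 : pfC (piC [(nat_lit 39120232), (nat_lit 25510466), (nat_lit 18971201), (nat_lit 12765436)] (nat_lit 5447273)) p12_13_3 (nat_lit 4) (nat_lit 115) (nat_lit 116) = true := by decide +kernel
def p12_13_3_116 : pfC (piC [(nat_lit 39120232), (nat_lit 25510466), (nat_lit 18971201), (nat_lit 12765436)] (nat_lit 5447273)) p12_13_3 (nat_lit 4) (nat_lit 116) (nat_lit 117) = true := by decide +kernel
def p12_13_3_117 : pfC (piC [(nat_lit 39120232), (nat_lit 25510466), (nat_lit 18971201), (nat_lit 12765436)] (nat_lit 5447273)) p12_13_3 (nat_lit 4) (nat_lit 117) (nat_lit 118) = true := by decide +kernel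
def p12_13_3_118 : pfC (piC [(nat_lit 39120232), (nat_lit 25510466), (nat_lit 18971201), (nat_lit 12765436)] (nat_lit 5447273)) p12_13_3 (nat_lit 4) (nat_lit 118) (nat_lit 119) = true := by decide +kernel
def p12_13_3_119 : pfC (piC [(nat_lit 39120232), (nat_lit 25510466), (nat_lit 18971201), (nat_lit 12765436)] (nat_lit 5447273)) p12_13_3 (nat_lit 4) (nat_lit 119) (nat_lit 120) = true := by decide +kernel
def p12_13_3_120 : pfC (piC [(nat_lit 39120232), (nat_lit 25510466), (nat_lit 18971201), (nat_lit 12765436)] (nat_lit 5447273)) p12_13_3 (nat_lit 4) (nat_lit 120) (nat_lit 121) = true := by decide +kernel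
def p12_13_3_121 : pfC (piC [(nat_lit 39120232), (nat_lit 25510466), (nat_lit 18971201), (nat_lit 12765436)] (nat_lit 5447273)) p12_13_3 (nat_lit 4) (nat_lit 121) (nat_lit 122) = true := by decide +kernel
def p12_13_3_122 : pfC (piC [(nat_lit 39120232), (nat_lit 25510466), (nat_lit 18971201), (nat_lit 12765436)] (nat_lit 5447273)) p12_13_3 (nat_lit 4) (nat_lit 122) (nat_lit 123) = true := by decide +kernel
def p12_13_3_123 : pfC (piC [(nat_lit 39120232), (nat_lit 25510466), (nat_lit 18971201), (nat_lit 12765436)] (nat_lit 5447273)) p12_13_3 (nat_lit 4) (nat_lit 123) (nat_lit 124) = true := by decide +kernel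
def p12_13_3_124 : pfC (piC [(nat_lit 39120232), (nat_lit 25510466), (nat_lit 18971201), (nat_lit 12765436)] (nat_lit 5447273)) p12_13_3 (nat_lit 4) (nat_lit 124) (nat_lit 125) = true := by decide +kernel
def p12_13_3_125 : pfC (piC [(nat_lit 39120232), (nat_lit 25510466), (nat_lit 18971201), (nat_lit 12765436)] (nat_lit 5447273)) p12_13_3 (nat_lit 4) (nat_lit 125) (nat_lit 126) = true := by decide +kernel
def p12_13_3_126 : pfC (piC [(nat_lit 39120232), (nat_lit 25510466), (nat_lit 18971201), (nat_lit 12765436)] (nat_lit 5447273)) p12_13_3 (nat_lit 4) (nat_lit 126) (nat_lit 127) = true := by decide +kernel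
def p12_13_3_127 : pfC (piC [(nat_lit 39120232), (nat_lit 25510466), (nat_lit 18971201), (nat_lit 12765436)] (nat_lit 5447273)) p12_13_3 (nat_lit 4) (nat_lit 127) (nat_lit 128) = true := by decide +kernel
def p12_13_3_128 : pfC (piC [(nat_lit 39120232), (nat_lit 25510466), (nat_lit 18971201), (nat_lit 12765436)] (nat_lit 5447273)) p12_13_3 (nat_lit 4) (nat_lit 128) (nat_lit 129) = true := by decide +kernel
def p12_13_3_129 : pfC (piC [(nat_lit 39120232), (nat_lit 25510466), (nat_lit 18971201), (nat_lit 12765436)] (nat_lit 5447273)) p12_13_3 (nat_lit 4) (nat_lit 129) (nat_lit 130) = true := by decide +kernel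
def p12_13_3_130 : pfC (piC [(nat_lit 39120232), (nat_lit 25510466), (nat_lit 18971201), (nat_lit 12765436)] (nat_lit 5447273)) p12_13_3 (nat_lit 4) (nat_lit 130) (nat_lit 131) = true := by decide +kernel
def p12_13_3_131 : pfC (piC [(nat_lit 39120232), (nat_lit 25510466), (nat_lit 18971201), (nat_lit 12765436)] (nat_lit 5447273)) p12_13_3 (nat_lit 4) (nat_lit 131) (nat_lit 132) = true := by decide +kernel
def p12_13_3_132 : pfC (piC [(nat_lit 39120232), (nat_lit 25510466), (nat_lit 18971201), (nat_lit 12765436)] (nat_lit 5447273)) p12_13_3 (nat_lit 4) (nat_lit 132) (nat_lit 133) = true := by decide +kernel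
def p12_13_3_133 : pfC (piC [(nat_lit 39120232), (nat_lit 25510466), (nat_lit 18971201), (nat_lit 12765436)] (nat_lit 5447273)) p12_13_3 (nat_lit 4) (nat_lit 133) (nat_lit 134) = true := by decide +kernel
def p12_13_3_134 : pfC (piC [(nat_lit 39120232), (nat_lit 25510466), (nat_lit 18971201), (nat_lit 12765436)] (nat_lit 5447273)) p12_13_3 (nat_lit 4) (nat_lit 134) (nat_lit 135) = true := by decide +kernel
def p12_13_3_135 : pfC (piC [(nat_lit 39120232), (nat_lit 25510466), (nat_lit 18971201), (nat_lit 12765436)] (nat_lit 5447273)) p12_13_3 (nat_lit 4) (nat_lit 135) (nat_lit 136) = true := by decide +kernel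
def p12_13_3_136 : pfC (piC [(nat_lit 39120232), (nat_lit 25510466), (nat_lit 18971201), (nat_lit 12765436)] (nat_lit 5447273)) p12_13_3 (nat_lit 4) (nat_lit 136) (nat_lit 137) = true := by decide +kernel
def p12_13_3_137 : pfC (piC [(nat_lit 39120232), (nat_lit 25510466), (nat_lit 18971201), (nat_lit 12765436)] (nat_lit 5447273)) p12_13_3 (nat_lit 4) (nat_lit 137) (nat_lit 138) = true := by decide +kernel
def p12_13_3_138 : pfC (piC [(nat_lit 39120232), (nat_lit 25510466), (nat_lit 18971201), (nat_lit 12765436)] (nat_lit 5447273)) p12_13_3 (nat_lit 4) (nat_lit 138) (nat_lit 139) = true := by decide +kernel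
def p12_13_3_139 : pfC (piC [(nat_lit 39120232), (nat_lit 25510466), (nat_lit 18971201), (nat_lit 12765436)] (nat_lit 5447273)) p12_13_3 (nat_lit 4) (nat_lit 139) (nat_lit 140) = true := by decide +kernel
def p12_13_3_140 : pfC (piC [(nat_lit 39120232), (nat_lit 25510466), (nat_lit 18971201), (nat_lit 12765436)] (nat_lit 5447273)) p12_13_3 (nat_lit 4) (nat_lit 140) (nat_lit 141) = true := by decide +kernel
def p12_13_3_141 : pfC (piC [(nat_lit 39120232), (nat_lit 25510466), (nat_lit 18971201), (nat_lit 12765436)] (nat_lit 5447273)) p12_13_3 (nat_lit 4) (nat_lit 141) (nat_lit 142) = true := by decide +kernel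
def p12_13_3_142 : pfC (piC [(nat_lit 39120232), (nat_lit 25510466), (nat_lit 18971201), (nat_lit 12765436)] (nat_lit 5447273)) p12_13_3 (nat_lit 4) (nat_lit 142) (nat_lit 143) = true := by decide +kernel
def p12_13_3_143 : pfC (piC [(nat_lit 39120232), (nat_lit 25510466), (nat_lit 18971201), (nat_lit 12765436)] (nat_lit 5447273)) p12_13_3 (nat_lit 4) (nat_lit 143) (nat_lit 144) = true := by decide +kernel
def p12_13_3_144 : pfC (piC [(nat_lit 39120232), (nat_lit 25510466), (nat_lit 18971201), (nat_lit 12765436)] (nat_lit 5447273)) p12_13_3 (nat_lit 4) (nat_lit 144) (nat_lit 145) = true := by decide +kernel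
def p12_13_3_145 : pfC (piC [(nat_lit 39120232), (nat_lit 25510466), (nat_lit 18971201), (nat_lit 12765436)] (nat_lit 5447273)) p12_13_3 (nat_lit 4) (nat_lit 145) (nat_lit 146) = true := by decide +kernel
def p12_13_3_146 : pfC (piC [(nat_lit 39120232), (nat_lit 25510466), (nat_lit 18971201), (nat_lit 12765436)] (nat_lit 5447273)) p12_13_3 (nat_lit 4) (nat_lit 146) (nat_lit 147) = true := by decide +kernel
def p12_13_3_147 : pfC (piC [(nat_lit 39120232), (nat_lit 25510466), (nat_lit 18971201), (nat_lit 12765436)] (nat_lit 5447273)) p12_13_3 (nat_lit 4) (nat_lit 147) (nat_lit 148) = true := by decide +kernel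
def p12_13_3_148 : pfC (piC [(nat_lit 39120232), (nat_lit 25510466), (nat_lit 18971201), (nat_lit 12765436)] (nat_lit 5447273)) p12_13_3 (nat_lit 4) (nat_lit 148) (nat_lit 149) = true := by decide +kernel
def p12_13_3_149 : pfC (piC [(nat_lit 39120232), (nat_lit 25510466), (nat_lit 18971201), (nat_lit 12765436)] (nat_lit 5447273)) p12_13_3 (nat_lit 4) (nat_lit 149) (nat_lit 150) = true := by decide +kernel
def p12_13_3_150 : pfC (piC [(nat_lit 39120232), (nat_lit 25510466), (nat_lit 18971201), (nat_lit 12765436)] (nat_lit 5447273)) p12_13_3 (nat_lit 4) (nat_lit 150) (nat_lit 151) = true := by decide +kernel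
def p12_13_3_151 : pfC (piC [(nat_lit 39120232), (nat_lit 25510466), (nat_lit 18971201), (nat_lit 12765436)] (nat_lit 5447273)) p12_13_3 (nat_lit 4) (nat_lit 151) (nat_lit 152) = true := by decide +kernel
def p12_13_3_152 : pfC (piC [(nat_lit 39120232), (nat_lit 25510466), (nat_lit 18971201), (nat_lit 12765436)] (nat_lit 5447273)) p12_13_3 (nat_lit 4) (nat_lit 152) (nat_lit 153) = true := by decide +kernel
def p12_13_3_153 : pfC (piC [(nat_lit 39120232), (nat_lit 25510466), (nat_lit 18971201), (nat_lit 12765436)] (nat_lit 5447273)) p12_13_3 (nat_lit 4) (nat_lit 153) (nat_lit 154) = true := by decide +kernel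
def p12_13_3_154 : pfC (piC [(nat_lit 39120232), (nat_lit 25510466), (nat_lit 18971201), (nat_lit 12765436)] (nat_lit 5447273)) p12_13_3 (nat_lit 4) (nat_lit 154) (nat_lit 155) = true := by decide +kernel
def p12_13_3_155 : pfC (piC [(nat_lit 39120232), (nat_lit 25510466), (nat_lit 18971201), (nat_lit 12765436)] (nat_lit 5447273)) p12_13_3 (nat_lit 4) (nat_lit 155) (nat_lit 156) = true := by decide +kernel
def p12_13_3_156 : pfC (piC [(nat_lit 39120232), (nat_lit 25510466), (nat_lit 18971201), (nat_lit 12765436)] (nat_lit 5447273)) p12_13_3 (nat_lit 4) (nat_lit 156) (nat_lit 157) = true := by decide +kernel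
def p12_13_3_157 : pfC (piC [(nat_lit 39120232), (nat_lit 25510466), (nat_lit 18971201), (nat_lit 12765436)] (nat_lit 5447273)) p12_13_3 (nat_lit 4) (nat_lit 157) (nat_lit 158) = true := by decide +kernel
def p12_13_3_158 : pfC (piC [(nat_lit 39120232), (nat_lit 25510466), (nat_lit 18971201), (nat_lit 12765436)] (nat_lit 5447273)) p12_13_3 (nat_lit 4) (nat_lit 158) (nat_lit 159) = true := by decide +kernel
def p12_13_3_159 : pfC (piC [(nat_lit 39120232), (nat_lit 25510466), (nat_lit 18971201), (nat_lit 12765436)] (nat_lit 5447273)) p12_13_3 (nat_lit 4) (nat_lit 159) (nat_lit 160) = true := by decide +kernel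
def p12_13_3_160 : pfC (piC [(nat_lit 39120232), (nat_lit 25510466), (nat_lit 18971201), (nat_lit 12765436)] (nat_lit 5447273)) p12_13_3 (nat_lit 4) (nat_lit 160) (nat_lit 161) = true := by decide +kernel
def p12_13_3_161 : pfC (piC [(nat_lit 39120232), (nat_lit 25510466), (nat_lit 18971201), (nat_lit 12765436)] (nat_lit 5447273)) p12_13_3 (nat_lit 4) (nat_lit 161) (nat_lit 162) = true := by decide +kernel
def p12_13_3_162 : pfC (piC [(nat_lit 39120232), (nat_lit 25510466), (nat_lit 18971201), (nat_lit 12765436)] (nat_lit 5447273)) p12_13_3 (nat_lit 4) (nat_lit 162) (nat_lit 163) = true := by decide +kernel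
theorem p12_13_3_T : PfS (PiF n12_13.reverse (nat_lit 5447273)) p12_13_3 (nat_lit 4) [] 0 :=
  pftab_of (los := [(nat_lit 39120232), (nat_lit 25510466), (nat_lit 18971201), (nat_lit 12765436)]) (by decide +kernel) (hi := (nat_lit 163)) (PfP.trans (PfP.trans (PfP.trans (PfP.trans (PfP.trans (PfP.trans (PfP.trans (PfP.trans (PfP.trans (PfP.trans (PfP.trans (PfP.trans (PfP.trans (PfP.trans (PfP.trans (PfP.trans (PfP.trans (PfP.trans (PfP.trans (PfP.trans (PfP.trans (PfP.trans (PfP.trans (PfP.trans (PfP.trans (PfP.trans (PfP.trans (PfP.trans (PfP.trans (PfP.trans (PfP.trans (PfP.trans (PfP.trans (PfP.trans (PfP.trans (PfP.trans (PfP.trans (PfP.trans (PfP.trans (PfP.trans (PfP.trans (PfP.trans (PfP.trans (PfP.trans (PfP.trans (PfP.trans (PfP.trans (PfP.trans (PfP.trans (PfP.trans (PfP.trans (PfP.trans (PfP.trans (PfP.trans (PfP.trans (PfP.trans (PfP.trans (PfP.trans (PfP.trans (PfP.trans (PfP.trans (PfP.trans (PfP.trans (PfP.trans (PfP.trans (PfP.trans (PfP.trans (PfP.trans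 (PfP.trans (PfP.trans (PfP.trans (PfP.trans (PfP.trans (PfP.trans (PfP.trans (PfP.trans (PfP.trans (PfP.trans (PfP.trans (PfP.trans (PfP.trans (PfP.trans (PfP.trans (PfP.trans (PfP.trans (PfP.trans (PfP.trans (PfP.trans (PfP.trans (PfP.trans (PfP.trans (PfP.trans (PfP.trans (PfP.trans (PfP.trans (PfP.trans (PfP.trans (PfP.trans (PfP.trans (PfP.trans (PfP.trans (PfP.trans (PfP.trans (PfP.trans (PfP.trans (PfP.trans (PfP.trans (PfP.trans (PfP.trans
 (PfP.trans (PfP.trans (PfP.trans (PfP.trans (PfP.trans (PfP.trans (PfP.trans (PfP.trans (PfP.trans (PfP.trans (PfP.trans (PfP.trans (PfP.trans (PfP.trans (PfP.trans (PfP.trans (PfP.trans (PfP.trans (PfP.trans (PfP.trans (PfP.trans (PfP.trans (PfP.trans (PfP.trans (PfP.trans (PfP.trans (PfP.trans (PfP.trans (PfP.trans (PfP.trans (PfP.trans (PfP.trans (PfP.trans (PfP.trans (PfP.trans (PfP.trans (PfP.trans (PfP.trans (PfP.trans (PfP.trans (PfP.trans (PfP.trans (PfP.trans (PfP.trans (PfP.trans (PfP.trans (PfP.trans (PfP.trans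 (PfP.trans (PfP.trans (PfP.trans (PfP.trans (PfP.trans (pfC_sound p12_13_3_0) (pfC_sound p12_13_3_1)) (pfC_sound p12_13_3_2)) (pfC_sound p12_13_3_3)) (pfC_sound p12_13_3_4)) (pfC_sound p12_13_3_5)) (pfC_sound p12_13_3_6)) (pfC_sound p12_13_3_7)) (pfC_sound p12_13_3_8)) (pfC_sound p12_13_3_9)) (pfC_sound p12_13_3_10)) (pfC_sound p12_13_3_11)) (pfC_sound p12_13_3_12)) (pfC_sound p12_13_3_13)) (pfC_sound p12_13_3_14)) (pfC_sound p12_13_3_15)) (pfC_sound p12_13_3_16)) (pfC_sound p12_13_3_17)) (pfC_sound p12_13_3_18)) (pfC_sound p12_13_3_19)) (pfC_sound p12_13_3_20)) (pfC_sound p12_13_3_21)) (pfC_sound p12_13_3_22)) (pfC_sound p12_13_3_23)) (pfC_sound p12_13_3_24))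
 (pfC_sound p12_13_3_25)) (pfC_sound p12_13_3_26)) (pfC_sound p12_13_3_27)) (pfC_sound p12_13_3_28)) (pfC_sound p12_13_3_29)) (pfC_sound p12_13_3_30)) (pfC_sound p12_13_3_31)) (pfC_sound p12_13_3_32)) (pfC_sound p12_13_3_33)) (pfC_sound p12_13_3_34)) (pfC_sound p12_13_3_35)) (pfC_sound p12_13_3_36)) (pfC_sound p12_13_3_37)) (pfC_sound p12_13_3_38)) (pfC_sound p12_13_3_39)) (pfC_sound p12_13_3_40)) (pfC_sound p12_13_3_41)) (pfC_sound p12_13_3_42)) (pfC_sound p12_13_3_43)) (pfC_sound p12_13_3_44)) (pfC_sound p12_13_3_45)) (pfC_sound p12_13_3_46)) (pfC_sound p12_13_3_47)) (pfC_sound p12_13_3_48)) (pfC_sound p12_13_3_49)) (pfC_sound p12_13_3_50)) (pfC_sound p12_13_3_51)) (pfC_sound p12_13_3_52)) (pfC_sound p12_13_3_53)) (pfC_sound p12_13_3_54)) (pfC_sound p12_13_3_55)) (pfC_sound p12_13_3_56)) (pfC_sound p12_13_3_57)) (pfC_sound p12_13_3_58)) (pfC_sound p12_13_3_59)) (pfC_sound p12_13_3_60)) (pfC_sound p12_13_3_61)) (pfC_sound p12_13_3_62)) (pfC_sound p12_13_3_63)) (pfC_sound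 p12_13_3_64)) (pfC_sound p12_13_3_65)) (pfC_sound p12_13_3_66)) (pfC_sound p12_13_3_67)) (pfC_sound p12_13_3_68)) (pfC_sound p12_13_3_69)) (pfC_sound p12_13_3_70)) (pfC_sound p12_13_3_71)) (pfC_sound p12_13_3_72))
 (pfC_sound p12_13_3_73)) (pfC_sound p12_13_3_74)) (pfC_sound p12_13_3_75)) (pfC_sound p12_13_3_76)) (pfC_sound p12_13_3_77)) (pfC_sound p12_13_3_78)) (pfC_sound p12_13_3_79)) (pfC_sound p12_13_3_80)) (pfC_sound p12_13_3_81)) (pfC_sound p12_13_3_82)) (pfC_sound p12_13_3_83)) (pfC_sound p12_13_3_84)) (pfC_sound p12_13_3_85)) (pfC_sound p12_13_3_86)) (pfC_sound p12_13_3_87)) (pfC_sound p12_13_3_88)) (pfC_sound p12_13_3_89)) (pfC_sound p12_13_3_90)) (pfC_sound p12_13_3_91)) (pfC_sound p12_13_3_92)) (pfC_sound p12_13_3_93)) (pfC_sound p12_13_3_94)) (pfC_sound p12_13_3_95)) (pfC_sound p12_13_3_96)) (pfC_sound p12_13_3_97)) (pfC_sound p12_13_3_98)) (pfC_sound p12_13_3_99)) (pfC_sound p12_13_3_100)) (pfC_sound p12_13_3_101)) (pfC_sound p12_13_3_102)) (pfC_sound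 p12_13_3_103)) (pfC_sound p12_13_3_104)) (pfC_sound p12_13_3_105)) (pfC_sound p12_13_3_106)) (pfC_sound p12_13_3_107)) (pfC_sound p12_13_3_108)) (pfC_sound p12_13_3_109)) (pfC_sound p12_13_3_110)) (pfC_sound p12_13_3_111)) (pfC_sound p12_13_3_112)) (pfC_sound p12_13_3_113)) (pfC_sound p12_13_3_114)) (pfC_sound p12_13_3_115)) (pfC_sound p12_13_3_116)) (pfC_sound p12_13_3_117)) (pfC_sound p12_13_3_118)) (pfC_sound p12_13_3_119))
 (pfC_sound p12_13_3_120)) (pfC_sound p12_13_3_121)) (pfC_sound p12_13_3_122)) (pfC_sound p12_13_3_123)) (pfC_sound p12_13_3_124)) (pfC_sound p12_13_3_125)) (pfC_sound p12_13_3_126)) (pfC_sound p12_13_3_127)) (pfC_sound p12_13_3_128)) (pfC_sound p12_13_3_129)) (pfC_sound p12_13_3_130)) (pfC_sound p12_13_3_131)) (pfC_sound p12_13_3_132)) (pfC_sound p12_13_3_133)) (pfC_sound p12_13_3_134)) (pfC_sound p12_13_3_135)) (pfC_sound p12_13_3_136)) (pfC_sound p12_13_3_137)) (pfC_sound p12_13_3_138)) (pfC_sound p12_13_3_139)) (pfC_sound p12_13_3_140))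 (pfC_sound p12_13_3_141)) (pfC_sound p12_13_3_142)) (pfC_sound p12_13_3_143)) (pfC_sound p12_13_3_144)) (pfC_sound p12_13_3_145)) (pfC_sound p12_13_3_146)) (pfC_sound p12_13_3_147)) (pfC_sound p12_13_3_148)) (pfC_sound p12_13_3_149)) (pfC_sound p12_13_3_150)) (pfC_sound p12_13_3_151)) (pfC_sound p12_13_3_152)) (pfC_sound p12_13_3_153)) (pfC_sound p12_13_3_154)) (pfC_sound p12_13_3_155)) (pfC_sound p12_13_3_156)) (pfC_sound p12_13_3_157)) (pfC_sound p12_13_3_158)) (pfC_sound p12_13_3_159)) (pfC_sound p12_13_3_160)) (pfC_sound p12_13_3_161)) (pfC_sound p12_13_3_162)) (by decide +kernel)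

def z12_13_3 : zOK yB12_13 (nat_lit 3) (nat_lit 750) (nat_lit 832) (nat_lit 5447273) (nat_lit 5025270) = true := by decide +kernel
def g12_13_3 : gOK yB12_13.x P12_13 (nat_lit 1414) (q12_13 :: r12_13) (nat_lit 3) (nat_lit 750) (nat_lit 4) (nat_lit 832) (nat_lit 12712500) (nat_lit 12712500) (nat_lit 12712500) (nat_lit 12712500) [(nat_lit 800)] = true := by decide +kernel
def v12_13_3 : ivC P12_13 s12_13 w12_13 n12_13 (nat_lit 4) (nat_lit 4650) (nat_lit 3) (nat_lit 750) f160_1_750 f168_1_750 (nat_lit 4) (nat_lit 832) f160_1_832 f168_1_832 (nat_lit 5447273) (nat_lit 5025270) p12_13_3 = true := by decide +kernel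
end CB
end Pool.Agent.Lib.MP_6947cd_al
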