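import Pool.Agent.Lib.MP_6947cd_al.L.BoxDataB
import Pool.Agent.Lib.MP_6947cd_al.L.TeD1
import Pool.Agent.Lib.MP_6947cd_al.L.TeD2

/-!
Problem MP_6947cd_al (Chollet).  CASE B, rows `j`: boxes (generated).
-/

set_option autoImplicit false
set_option linter.defProp false
set_option maxRecDepth 20000

namespace Pool.Agent.Lib.MP_6947cd_al
namespace CB

open Ent Ent.Pk Fr Fr.WT CA

/-! box `yB14_21` -/

def P14_21 : BQ := ⟨(nat_lit 8), (nat_lit 8), (nat_lit 0), (nat_lit 4), (nat_lit 4), (nat_lit 960), (nat_lit 980), (nat_lit 90), [(nat_lit 180), (nat_lit 330), (nat_lit 650)], (nat_lit 151936000), (nat_lit 16000000), (nat_lit 16000000000)⟩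
def q14_21 : PC := ⟨(nat_lit 1000), [(nat_lit 90000), (nat_lit 180000), (nat_lit 330000), (nat_lit 650000)], (nat_lit 18446744078004518913000000), (nat_lit 15848064000000), (nat_lit 15848064000000), (nat_lit 10000000)⟩
def r14_21 : List PC := [⟨(nat_lit 1305), [(nat_lit 90493), (nat_lit 180436), (nat_lit 331369), (nat_lit 650592)], (nat_lit 18531267059367049400633236), (nat_lit 16308825734400), (nat_lit 16318734428000), (nat_lit 10054778)⟩, ⟨(nat_lit 2084), [(nat_lit 92046), (nat_lit 181933), (nat_lit 337181), (nat_lit 654004)], (nat_lit 18742592959524553205174192), (nat_lit 17245205534720), (nat_lit 17280422006400), (nat_lit 10227334)⟩, ⟨(nat_lit 1233), [(nat_lit 90352), (nat_lit 180176), (nat_lit 329994), (nat_lit 649653)], (nat_lit 18509905729727975752942690), (nat_lit 16200835344640), (nat_lit 16208404936800), (nat_lit 10039112)⟩]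
def s14_21 : List PB := [⟨(nat_lit 26100), (nat_lit 1447888000000), [(nat_lit 180436), (nat_lit 331369), (nat_lit 650592)], (nat_lit 18531267059367049400633236), (nat_lit 1142208732577024), (nat_lit 1142218641270624), (nat_lit 48800)⟩, ⟨(nat_lit 41680), (nat_lit 1472736000000), [(nat_lit 181933), (nat_lit 337181), (nat_lit 654004)], (nat_lit 18742592959524553205174192), (nat_lit 1143145112377344), (nat_lit 1143180328849024), (nat_lit 173440)⟩, ⟨(nat_lit 24660), (nat_lit 1445632000000), [(nat_lit 180176), (nat_lit 329994), (nat_lit 649653)], (nat_lit 18509905729727975752942690), (nat_lit 1142100742187264), (nat_lit 1142108311779424), (nat_lit 37280)⟩]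
def n14_21 : List KN := [⟨(nat_lit 650), (nat_lit 330), (nat_lit 14024239), (nat_lit 9088189)⟩, ⟨(nat_lit 330), (nat_lit 180), (nat_lit 21715570), (nat_lit 14024239)⟩, ⟨(nat_lit 180), (nat_lit 90), (nat_lit 33242365), (nat_lit 21715570)⟩]
def w14_21 : List ℕ := [(nat_lit 48800), (nat_lit 173440), (nat_lit 37280)]
def par14_21 : parC yB14_21 P14_21 s14_21 r14_21 q14_21 n14_21 w14_21 = true := by decide +kernel

def p14_21_0 : PF := (PF.cons (PF.cons (PF.cons (PF.leaf (nat_lit 1109470) (nat_lit 3903556) (nat_lit 63205256) (nat_lit 3903556) [(nat_lit 0), (nat_lit 0), (nat_lit 0)]) (PF.cons (PF.leaf (nat_lit 1394873) (nat_lit 518241) (nat_lit 62577190) (nat_lit 4013381) [(nat_lit 518241), (nat_lit 0), (nat_lit 0)]) (PF.cons (PF.leaf (nat_lit 1735547) (nat_lit 571800) (nat_lit 61836887) (nat_lit 4128324) [(nat_lit 571800), (nat_lit 0), (nat_lit 0)]) (PF.cons (PF.leaf (nat_lit 2122777) (nat_lit 620671) (nat_lit 61004659) (nat_lit 4242140) [(nat_lit 620671), (nat_lit 0), (nat_lit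 0)]) (PF.cons (PF.leaf (nat_lit 2549988) (nat_lit 665404) (nat_lit 60096306) (nat_lit 4350887) [(nat_lit 665404), (nat_lit 0), (nat_lit 0)]) (PF.cons (PF.leaf (nat_lit 3011458) (nat_lit 706301) (nat_lit 59125237) (nat_lit 4452069) [(nat_lit 706301), (nat_lit 0), (nat_lit 0)]) (PF.cons (PF.leaf (nat_lit 3501989) (nat_lit 743555) (nat_lit 58103318) (nat_lit 4544158) [(nat_lit 743555), (nat_lit 0), (nat_lit 0)]) (PF.cons (PF.leaf (nat_lit 4016799) (nat_lit 777326) (nat_lit 57041229) (nat_lit 4626297) [(nat_lit 777326), (nat_lit 0), (nat_lit 0)]) (PF.cons (PF.leaf (nat_lit 4551476) (nat_lit 807760) (nat_lit 55948623) (nat_lit 4698104)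
 [(nat_lit 807760), (nat_lit 0), (nat_lit 0)]) (PF.cons (PF.leaf (nat_lit 5101930) (nat_lit 835008) (nat_lit 54834200) (nat_lit 4759538) [(nat_lit 835008), (nat_lit 0), (nat_lit 0)]) (PF.cons (PF.leaf (nat_lit 5664471) (nat_lit 859226) (nat_lit 53705749) (nat_lit 4810802) [(nat_lit 859226), (nat_lit 0), (nat_lit 0)]) (PF.cons (PF.leaf (nat_lit 6235733) (nat_lit 880577) (nat_lit 52570187) (nat_lit 4852269) [(nat_lit 880577), (nat_lit 0), (nat_lit 0)]) (PF.cons (PF.leaf (nat_lit 6812684) (nat_lit 899232) (nat_lit 51433594) (nat_lit 4884430) [(nat_lit 899232), (nat_lit 0), (nat_lit 0)]) (PF.cons (PF.leaf (nat_lit 7392658) (nat_lit 915361) (nat_lit 50301261) (nat_lit 4907850) [(nat_lit 915361), (nat_lit 0), (nat_lit 0)]) (PF.cons (PF.leaf (nat_lit 7973299) (nat_lit 929138) (nat_lit 49177737) (nat_lit 4923141) [(nat_lit 929138), (nat_lit 0), (nat_lit 0)]) (PF.cons (PF.leaf (nat_lit 8552524) (nat_lit 940732) (nat_lit 48066886) (nat_lit 4930934) [(nat_lit 940732), (nat_lit 0),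 (nat_lit 0)]) (PF.cons (PF.leaf (nat_lit 9128579) (nat_lit 950312) (nat_lit 46971944) (nat_lit 4931861) [(nat_lit 950312), (nat_lit 0), (nat_lit 0)]) (PF.cons (PF.leaf (nat_lit 9699958) (nat_lit 958040) (nat_lit
 45895582) (nat_lit 4926545) [(nat_lit 958040), (nat_lit 0), (nat_lit 0)]) (PF.cons PF.nil (PF.cons PF.nil (PF.cons PF.nil (PF.cons PF.nil PF.nil)))))))))))))))))))))) (PF.cons (PF.cons (PF.leaf (nat_lit 2032317) (nat_lit 2343478) (nat_lit 60496712) (nat_lit 4268622) [(nat_lit 0), (nat_lit 2343478), (nat_lit 0)]) (PF.cons (PF.leaf (nat_lit 2408701) (nat_lit 646921) (nat_lit 59674411) (nat_lit 4362894) [(nat_lit 646921), (nat_lit 2424584), (nat_lit 0)]) (PF.cons (PF.leaf (nat_lit 2826329) (nat_lit 688979) (nat_lit 58774676) (nat_lit 4453776) [(nat_lit 688979), (nat_lit 2502400), (nat_lit 0)]) (PF.cons (PF.leaf (nat_lit 3278141) (nat_lit 727148) (nat_lit 57813651) (nat_lit 4538552) [(nat_lit 727148), (nat_lit 2575164), (nat_lit 0)]) (PF.cons (PF.leaf (nat_lit 3758462)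 (nat_lit 761721) (nat_lit 56804441) (nat_lit 4615583) [(nat_lit 761721), (nat_lit 2641900), (nat_lit 0)]) (PF.cons (PF.leaf (nat_lit 4262333) (nat_lit 792912) (nat_lit 55758200) (nat_lit 4683940) [(nat_lit 792912), (nat_lit 2702106), (nat_lit 0)]) (PF.cons (PF.leaf (nat_lit 4785299) (nat_lit 820900) (nat_lit 54684637) (nat_lit 4743181) [(nat_lit 820900), (nat_lit 2755590), (nat_lit 0)]) (PF.cons (PF.leaf (nat_lit
 5323357) (nat_lit 845853) (nat_lit 53592269) (nat_lit 4793208) [(nat_lit 845853), (nat_lit 2802363), (nat_lit 0)]) (PF.cons (PF.leaf (nat_lit 5872894) (nat_lit 867936) (nat_lit 52488574) (nat_lit 4834165) [(nat_lit 867936), (nat_lit 2842582), (nat_lit 0)]) (PF.cons (PF.leaf (nat_lit 6430704) (nat_lit 887317) (nat_lit 51380092) (nat_lit 4866363) [(nat_lit 887317), (nat_lit 2876498), (nat_lit 0)]) (PF.cons (PF.leaf (nat_lit 6993890) (nat_lit 904165) (nat_lit 50272500) (nat_lit 4890229) [(nat_lit 904165), (nat_lit 2904429), (nat_lit 0)]) (PF.cons (PF.leaf (nat_lit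 7559900) (nat_lit 918647) (nat_lit 49170691) (nat_lit 4906264) [(nat_lit 918647), (nat_lit 2926732), (nat_lit 0)]) (PF.cons (PF.leaf (nat_lit 8126525) (nat_lit 930931) (nat_lit 48078832) (nat_lit 4915013) [(nat_lit 930931), (nat_lit 2943790), (nat_lit 0)]) (PF.cons (PF.leaf (nat_lit 8691792) (nat_lit 941180) (nat_lit 47000437) (nat_lit 4917041) [(nat_lit 941180), (nat_lit 2955992), (nat_lit 0)]) (PF.cons (PF.leaf (nat_lit 9254045) (nat_lit 949552) (nat_lit 45938427) (nat_lit 4912916) [(nat_lit 949552), (nat_lit 2963728), (nat_lit 0)]) (PF.cons (PF.leaf (nat_lit 9811863) (nat_lit 956202) (nat_lit 44895191) (nat_lit 4903200)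
 [(nat_lit 956202), (nat_lit 2967383), (nat_lit 0)]) (PF.cons PF.nil (PF.cons PF.nil (PF.cons PF.nil (PF.cons PF.nil PF.nil)))))))))))))))))))) (PF.cons (PF.cons (PF.leaf (nat_lit 3101330) (nat_lit 2568753) (nat_lit 57431619) (nat_lit 4539687) [(nat_lit 0), (nat_lit 2568753), (nat_lit 0)]) (PF.cons (PF.leaf (nat_lit 3539951) (nat_lit 744105) (nat_lit 56492888) (nat_lit 4609624) [(nat_lit 744105), (nat_lit 2631097), (nat_lit 0)]) (PF.cons (PF.leaf (nat_lit 4007802) (nat_lit 776482) (nat_lit 55505773) (nat_lit 4673134) [(nat_lit 776482), (nat_lit 2688469), (nat_lit 0)]) (PF.cons (PF.leaf (nat_lit 4499200) (nat_lit 805496) (nat_lit 54482728) (nat_lit 4729169) [(nat_lit 805496), (nat_lit 2740212), (nat_lit 0)]) (PF.cons (PF.leaf (nat_lit 5009463) (nat_lit 831383) (nat_lit 53434001) (nat_lit 4777208) [(nat_lit 831383), (nat_lit 2786035), (nat_lit 0)]) (PF.cons (PF.leaf (nat_lit 5534516) (nat_lit 854343) (nat_lit 52368246) (nat_lit 4817089) [(nat_lit 854343), (nat_lit 2825879),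 (nat_lit 0)]) (PF.cons (PF.leaf (nat_lit 6070776) (nat_lit 874562) (nat_lit 51292855) (nat_lit 4848896) [(nat_lit 874562), (nat_lit 2859844), (nat_lit 0)]) (PF.cons (PF.leaf (nat_lit 6615070) (nat_lit 892214)
 (nat_lit 50214162) (nat_lit 4872882) [(nat_lit 892214), (nat_lit 2888133), (nat_lit 0)]) (PF.cons (PF.leaf (nat_lit 7164617) (nat_lit 907472) (nat_lit 49137584) (nat_lit 4889413) [(nat_lit 907472), (nat_lit 2911019), (nat_lit 0)]) (PF.cons (PF.leaf (nat_lit 7716952) (nat_lit 920502) (nat_lit 48067725) (nat_lit 4898930) [(nat_lit 920502), (nat_lit 2928816), (nat_lit 0)]) (PF.cons (PF.leaf (nat_lit 8269935) (nat_lit 931469) (nat_lit 47008471) (nat_lit 4901918) [(nat_lit 931469), (nat_lit 2941864), (nat_lit 0)]) (PF.cons (PF.leaf (nat_lit 8821707) (nat_lit 940530) (nat_lit 45963068) (nat_lit 4898881) [(nat_lit 940530), (nat_lit 2950515), (nat_lit 0)]) (PF.cons (PF.leaf (nat_lit 9370679) (nat_lit 947837) (nat_lit 44934189) (nat_lit 4890331) [(nat_lit 947837), (nat_lit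 2955121), (nat_lit 0)]) (PF.cons (PF.leaf (nat_lit 9915479) (nat_lit 953536) (nat_lit 43924008) (nat_lit 4876772) [(nat_lit 953536), (nat_lit 2956028), (nat_lit 0)]) (PF.cons (PF.leaf (nat_lit 10454940) (nat_lit 957765) (nat_lit 42934253) (nat_lit 4858692) [(nat_lit 957765), (nat_lit 2953572), (nat_lit 0)]) (PF.cons PF.nil (PF.cons PF.nil (PF.cons PF.nil PF.nil)))))))))))))))))) (PF.cons (PF.cons (PF.leaf (nat_lit
 4252385) (nat_lit 2726997) (nat_lit 54209476) (nat_lit 4718342) [(nat_lit 0), (nat_lit 2726997), (nat_lit 0)]) (PF.cons (PF.leaf (nat_lit 4729283) (nat_lit 815268) (nat_lit 53216927) (nat_lit 4763348) [(nat_lit 815268), (nat_lit 2771089), (nat_lit 0)]) (PF.cons (PF.leaf (nat_lit 5225632) (nat_lit 839400) (nat_lit 52198552) (nat_lit 4801404) [(nat_lit 839400), (nat_lit 2810018), (nat_lit 0)]) (PF.cons (PF.leaf (nat_lit 5736945) (nat_lit 860664) (nat_lit 51163602) (nat_lit 4832272) [(nat_lit 860664), (nat_lit 2843648), (nat_lit 0)]) (PF.cons (PF.leaf (nat_lit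 6259528) (nat_lit 879275) (nat_lit 50119680) (nat_lit 4855971) [(nat_lit 879275), (nat_lit 2872019), (nat_lit 0)]) (PF.cons (PF.leaf (nat_lit 6790184) (nat_lit 895427) (nat_lit 49073124) (nat_lit 4872695) [(nat_lit 895427), (nat_lit 2895285), (nat_lit 0)]) (PF.cons (PF.leaf (nat_lit 7326135) (nat_lit 909298) (nat_lit 48029239) (nat_lit 4882754) [(nat_lit 909298), (nat_lit 2913674), (nat_lit 0)]) (PF.cons (PF.leaf (nat_lit 7865000) (nat_lit 921059) (nat_lit 46992470) (nat_lit 4886533) [(nat_lit 921059), (nat_lit 2927463), (nat_lit 0)]) (PF.cons (PF.leaf (nat_lit 8404664) (nat_lit 930872) (nat_lit 45966517) (nat_lit 4884461)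
 [(nat_lit 930872), (nat_lit 2936951), (nat_lit 0)]) (PF.cons (PF.leaf (nat_lit 8943336) (nat_lit 938891) (nat_lit 44954436) (nat_lit 4876988) [(nat_lit 938891), (nat_lit 2942455), (nat_lit 0)]) (PF.cons (PF.leaf (nat_lit 9479470) (nat_lit 945263) (nat_lit 43958725) (nat_lit 4864574) [(nat_lit 945263), (nat_lit 2944292), (nat_lit 0)]) (PF.cons (PF.leaf (nat_lit 10011736) (nat_lit 950128) (nat_lit 42981396) (nat_lit 4847670) [(nat_lit 950128), (nat_lit 2942776), (nat_lit 0)]) (PF.cons (PF.leaf (nat_lit 10539063) (nat_lit 953618) (nat_lit 42024035) (nat_lit 4826719) [(nat_lit 953618), (nat_lit 2938211), (nat_lit 0)]) (PF.cons PF.nil (PF.cons PF.nil (PF.cons PF.nil PF.nil)))))))))))))))) (PF.cons (PF.cons (PF.leaf (nat_lit 5435768) (nat_lit 2828230) (nat_lit 50979058) (nat_lit 4816833) [(nat_lit 0), (nat_lit 2828230), (nat_lit 0)]) (PF.cons (PF.leaf (nat_lit 5932247) (nat_lit 864958) (nat_lit 49979000) (nat_lit 4839711) [(nat_lit 864958), (nat_lit 2856285), (nat_lit 0)])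 (PF.cons (PF.leaf (nat_lit 6440595) (nat_lit 882218) (nat_lit 48969512) (nat_lit 4856242) [(nat_lit 882218), (nat_lit 2879654), (nat_lit 0)]) (PF.cons (PF.leaf (nat_lit 6957355) (nat_lit 897091) (nat_lit 47957208)
 (nat_lit 4866564) [(nat_lit 897091), (nat_lit 2898441), (nat_lit 0)]) (PF.cons (PF.leaf (nat_lit 7479691) (nat_lit 909770) (nat_lit 46947475) (nat_lit 4870931) [(nat_lit 909770), (nat_lit 2912830), (nat_lit 0)]) (PF.cons (PF.leaf (nat_lit 8005193) (nat_lit 920433) (nat_lit 45944730) (nat_lit 4869675) [(nat_lit 920433), (nat_lit 2923059), (nat_lit 0)]) (PF.cons (PF.leaf (nat_lit 8531778) (nat_lit 929244) (nat_lit 44952593) (nat_lit 4863174) [(nat_lit 929244), (nat_lit 2929394), (nat_lit 0)]) (PF.cons (PF.leaf (nat_lit 9057670) (nat_lit 936357) (nat_lit 43974017) (nat_lit 4851830) [(nat_lit 936357), (nat_lit 2932116), (nat_lit 0)]) (PF.cons (PF.leaf (nat_lit 9581347) (nat_lit 941915) (nat_lit 43011390) (nat_lit 4836055) [(nat_lit 941915), (nat_lit 2931511), (nat_lit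 0)]) (PF.cons (PF.leaf (nat_lit 10101548) (nat_lit 946054) (nat_lit 42066615) (nat_lit 4816256) [(nat_lit 946054), (nat_lit 2927863), (nat_lit 0)]) (PF.cons (PF.leaf (nat_lit 10617147) (nat_lit 948900) (nat_lit 41141184) (nat_lit 4792829) [(nat_lit 948900), (nat_lit 2921447), (nat_lit 0)]) (PF.cons PF.nil (PF.cons PF.nil (PF.cons PF.nil PF.nil)))))))))))))) (PF.cons (PF.cons (PF.leaf (nat_lit 6615606) (nat_lit 2883233)
 (nat_lit 47842187) (nat_lit 4850457) [(nat_lit 0), (nat_lit 2883233), (nat_lit 0)]) (PF.cons (PF.leaf (nat_lit 7117933) (nat_lit 897313) (nat_lit 46866177) (nat_lit 4855157) [(nat_lit 897313), (nat_lit 2898033), (nat_lit 0)]) (PF.cons (PF.leaf (nat_lit 7626482) (nat_lit 908990) (nat_lit 45891938) (nat_lit 4854538) [(nat_lit 908990), (nat_lit 2908871), (nat_lit 0)]) (PF.cons (PF.leaf (nat_lit 8138645) (nat_lit 918720) (nat_lit 44924029) (nat_lit 4848883) [(nat_lit 918720), (nat_lit 2915947), (nat_lit 0)]) (PF.cons (PF.leaf (nat_lit 8652303) (nat_lit 926675)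 (nat_lit 43966113) (nat_lit 4838524) [(nat_lit 926675), (nat_lit 2919494), (nat_lit 0)]) (PF.cons (PF.leaf (nat_lit 9165663) (nat_lit 933009) (nat_lit 43021128) (nat_lit 4823820) [(nat_lit 933009), (nat_lit 2919763), (nat_lit 0)]) (PF.cons (PF.leaf (nat_lit 9677219) (nat_lit 937866) (nat_lit 42091419) (nat_lit 4805138) [(nat_lit 937866), (nat_lit 2917011), (nat_lit 0)]) (PF.cons (PF.leaf (nat_lit 10185672) (nat_lit 941378) (nat_lit 41178841) (nat_lit 4782845) [(nat_lit 941378), (nat_lit 2911494), (nat_lit 0)]) (PF.cons (PF.leaf (nat_lit 10689969) (nat_lit 943670) (nat_lit 40284831) (nat_lit 4757301) [(nat_lit 943670), (nat_lit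
 2903463), (nat_lit 0)]) (PF.cons (PF.leaf (nat_lit 11189193) (nat_lit 944854) (nat_lit 39410479) (nat_lit 4728848) [(nat_lit 944854), (nat_lit 2893158), (nat_lit 0)]) (PF.cons PF.nil (PF.cons PF.nil PF.nil)))))))))))) (PF.cons (PF.cons (PF.leaf (nat_lit 7767858) (nat_lit 2902132) (nat_lit 44861923) (nat_lit 4834093) [(nat_lit 0), (nat_lit 2902132), (nat_lit 0)]) (PF.cons (PF.leaf (nat_lit 8266465) (nat_lit 915999) (nat_lit 43929636) (nat_lit 4824619) [(nat_lit 915999), (nat_lit 2906426), (nat_lit 0)]) (PF.cons (PF.leaf (nat_lit 8767240) (nat_lit 923237) (nat_lit 43006299) (nat_lit 4810921) [(nat_lit 923237), (nat_lit 2907519), (nat_lit 0)]) (PF.cons (PF.leaf (nat_lit 9268234) (nat_lit 928915) (nat_lit 42094942) (nat_lit 4793318) [(nat_lit 928915), (nat_lit 2905634), (nat_lit 0)]) (PF.cons (PF.leaf (nat_lit 9767886) (nat_lit 933178) (nat_lit 41197947) (nat_lit 4772139) [(nat_lit 933178), (nat_lit 2901002), (nat_lit 0)]) (PF.cons (PF.leaf (nat_lit 10264914) (nat_lit 936158)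 (nat_lit 40317176) (nat_lit 4747717) [(nat_lit 936158), (nat_lit 2893854), (nat_lit 0)]) (PF.cons (PF.leaf (nat_lit 10758218) (nat_lit 937977) (nat_lit 39454058) (nat_lit 4720374) [(nat_lit 937977), (nat_lit
 2884418), (nat_lit 0)]) (PF.cons (PF.leaf (nat_lit 11246898) (nat_lit 938746) (nat_lit 38609672) (nat_lit 4690425) [(nat_lit 938746), (nat_lit 2872914), (nat_lit 0)]) (PF.cons PF.nil (PF.cons PF.nil PF.nil)))))))))) (PF.cons (PF.cons (PF.leaf (nat_lit 8877690) (nat_lit 2893701) (nat_lit 42072180) (nat_lit 4780720) [(nat_lit 0), (nat_lit 2893701), (nat_lit 0)]) (PF.cons (PF.leaf (nat_lit 9366262) (nat_lit 924131) (nat_lit 41194498) (nat_lit 4760638) [(nat_lit 924131), (nat_lit 2889934), (nat_lit 0)]) (PF.cons (PF.leaf (nat_lit 9854173) (nat_lit 927902) (nat_lit 40330014) (nat_lit 4737336) [(nat_lit 927902), (nat_lit 2883665), (nat_lit 0)]) (PF.cons (PF.leaf (nat_lit 10339978) (nat_lit 930440) (nat_lit 39480659) (nat_lit 4711112) [(nat_lit 930440), (nat_lit 2875102),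 (nat_lit 0)]) (PF.cons (PF.leaf (nat_lit 10822558) (nat_lit 931865) (nat_lit 38647907) (nat_lit 4682262) [(nat_lit 931865), (nat_lit 2864454), (nat_lit 0)]) (PF.cons (PF.leaf (nat_lit 11300985) (nat_lit 932288) (nat_lit 37832860) (nat_lit 4651070) [(nat_lit 932288), (nat_lit 2851920), (nat_lit 0)]) (PF.cons PF.nil (PF.cons PF.nil PF.nil)))))))) (PF.cons (PF.cons (PF.leaf (nat_lit 9936966) (nat_lit 2865160) (nat_lit
 39486563) (nat_lit 4700965) [(nat_lit 0), (nat_lit 2865160), (nat_lit 0)]) (PF.cons (PF.leaf (nat_lit 10411583) (nat_lit 924263) (nat_lit 38668268) (nat_lit 4673241) [(nat_lit 924263), (nat_lit 2855379), (nat_lit 0)]) (PF.cons (PF.leaf (nat_lit 10883625) (nat_lit 925369) (nat_lit 37865382) (nat_lit 4643147) [(nat_lit 925369), (nat_lit 2843692), (nat_lit 0)]) (PF.cons (PF.leaf (nat_lit 11352031) (nat_lit 925510) (nat_lit 37079073) (nat_lit 4610943) [(nat_lit 925510), (nat_lit 2830282), (nat_lit 0)]) (PF.cons (PF.leaf (nat_lit 11816001) (nat_lit 924785) (nat_lit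 36310187) (nat_lit 4576878) [(nat_lit 924785), (nat_lit 2815325), (nat_lit 0)]) (PF.cons PF.nil PF.nil)))))) (PF.cons (PF.cons (PF.leaf (nat_lit 10942152) (nat_lit 2822242) (nat_lit 37105447) (nat_lit 4603186) [(nat_lit 0), (nat_lit 2822242), (nat_lit 0)]) (PF.cons (PF.leaf (nat_lit 11400593) (nat_lit 918439) (nat_lit 36347320) (nat_lit 4570182) [(nat_lit 918439), (nat_lit 2808096), (nat_lit 0)]) (PF.cons (PF.leaf (nat_lit 11855215) (nat_lit 917524) (nat_lit 35605459) (nat_lit 4535499) [(nat_lit 917524), (nat_lit 2792533), (nat_lit 0)]) (PF.cons PF.nil PF.nil)))) (PF.cons (PF.cons (PF.leaf (nat_lit 11892722) (nat_lit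
 2769387) (nat_lit 34921172) (nat_lit 4493769) [(nat_lit 0), (nat_lit 2769387), (nat_lit 0)]) (PF.cons PF.nil PF.nil)) (PF.cons PF.nil (PF.cons PF.nil (PF.cons PF.nil (PF.cons PF.nil PF.nil))))))))))))))) (PF.cons (PF.cons (PF.cons (PF.leaf (nat_lit 2952480) (nat_lit 4499682) (nat_lit 56140675) (nat_lit 4499682) [(nat_lit 0), (nat_lit 0), (nat_lit 6468454)]) (PF.cons (PF.leaf (nat_lit 3340391) (nat_lit 703658) (nat_lit 55319812) (nat_lit 4561453) [(nat_lit 703658), (nat_lit 0), (nat_lit 6523888)]) (PF.cons (PF.leaf (nat_lit 3764451) (nat_lit 740038) (nat_lit 54434917) (nat_lit 4619315) [(nat_lit 740038), (nat_lit 0), (nat_lit 6574502)]) (PF.cons (PF.leaf (nat_lit 4217296) (nat_lit 772120) (nat_lit 53502490) (nat_lit 4671544) [(nat_lit 772120), (nat_lit 0), (nat_lit 6618416)]) (PF.cons (PF.leaf (nat_lit 4693303) (nat_lit 800473) (nat_lit 52535201) (nat_lit 4717176) [(nat_lit 800473), (nat_lit 0), (nat_lit 6654541)]) (PF.cons (PF.leaf (nat_lit 5187790) (nat_lit 825494)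 (nat_lit 51543277) (nat_lit 4755732) [(nat_lit 825494), (nat_lit 0), (nat_lit 6682328)]) (PF.cons (PF.leaf (nat_lit 5696753) (nat_lit 847491) (nat_lit 50535197) (nat_lit 4787062) [(nat_lit 847491), (nat_lit 0),
 (nat_lit 6701602)]) (PF.cons (PF.leaf (nat_lit 6216693) (nat_lit 866719) (nat_lit 49518090) (nat_lit 4811235) [(nat_lit 866719), (nat_lit 0), (nat_lit 6712451)]) (PF.cons (PF.leaf (nat_lit 6744568) (nat_lit 883400) (nat_lit 48497987) (nat_lit 4828476) [(nat_lit 883400), (nat_lit 0), (nat_lit 6715148)]) (PF.cons (PF.leaf (nat_lit 7277705) (nat_lit 897735) (nat_lit 47479989) (nat_lit 4839109) [(nat_lit 897735), (nat_lit 0), (nat_lit 6710090)]) (PF.cons (PF.leaf (nat_lit 7813754) (nat_lit 909913) (nat_lit 46468395) (nat_lit 4843524) [(nat_lit 909913), (nat_lit 0), (nat_lit 6697759)]) (PF.cons (PF.leaf (nat_lit 8350700) (nat_lit 920106) (nat_lit 45466808) (nat_lit 4842149) [(nat_lit 920106), (nat_lit 0), (nat_lit 6678682)]) (PF.cons (PF.leaf (nat_lit 8886760) (nat_lit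 928478) (nat_lit 44478219) (nat_lit 4835433) [(nat_lit 928478), (nat_lit 0), (nat_lit 6653414)]) (PF.cons (PF.leaf (nat_lit 9420416) (nat_lit 935183) (nat_lit 43505085) (nat_lit 4823827) [(nat_lit 935183), (nat_lit 0), (nat_lit 6622515)]) (PF.cons (PF.leaf (nat_lit 9950378) (nat_lit 940364) (nat_lit 42549392) (nat_lit 4807778) [(nat_lit 940364), (nat_lit 0), (nat_lit 6586535)]) (PF.cons (PF.leaf (nat_lit 10475546)
 (nat_lit 944157) (nat_lit 41612720) (nat_lit 4787718) [(nat_lit 944157), (nat_lit 0), (nat_lit 6546011)]) (PF.cons PF.nil (PF.cons PF.nil (PF.cons PF.nil (PF.cons PF.nil PF.nil)))))))))))))))))))) (PF.cons (PF.cons (PF.leaf (nat_lit 4011338) (nat_lit 2676160) (nat_lit 53160768) (nat_lit 4662773) [(nat_lit 0), (nat_lit 2676160), (nat_lit 6609110)]) (PF.cons (PF.leaf (nat_lit 4448369) (nat_lit 781205) (nat_lit 52261943) (nat_lit 4704528) [(nat_lit 781205), (nat_lit 2719968), (nat_lit 6641166)]) (PF.cons (PF.leaf (nat_lit 4909989) (nat_lit 808069) (nat_lit 51326322)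 (nat_lit 4740685) [(nat_lit 808069), (nat_lit 2759229), (nat_lit 6666437)]) (PF.cons (PF.leaf (nat_lit 5390741) (nat_lit 831583) (nat_lit 50365450) (nat_lit 4770668) [(nat_lit 831583), (nat_lit 2793610), (nat_lit 6684332)]) (PF.cons (PF.leaf (nat_lit 5886303) (nat_lit 852113) (nat_lit 49388421) (nat_lit 4794262) [(nat_lit 852113), (nat_lit 2823030), (nat_lit 6694642)]) (PF.cons (PF.leaf (nat_lit 6393054) (nat_lit 869946) (nat_lit 48402615) (nat_lit 4811480) [(nat_lit 869946), (nat_lit 2847562), (nat_lit 6697422)]) (PF.cons (PF.leaf (nat_lit 6907876) (nat_lit 885321) (nat_lit 47414109) (nat_lit 4822496) [(nat_lit 885321),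
 (nat_lit 2867373), (nat_lit 6692904)]) (PF.cons (PF.leaf (nat_lit 7428104) (nat_lit 898449) (nat_lit 46427949) (nat_lit 4827585) [(nat_lit 898449), (nat_lit 2882694), (nat_lit 6681440)]) (PF.cons (PF.leaf (nat_lit 7951403) (nat_lit 909518) (nat_lit 45448319) (nat_lit 4827089) [(nat_lit 909518), (nat_lit 2893790), (nat_lit 6663463)]) (PF.cons (PF.leaf (nat_lit 8475796) (nat_lit 918704) (nat_lit 44478687) (nat_lit 4821388) [(nat_lit 918704), (nat_lit 2900948), (nat_lit 6639449)]) (PF.cons (PF.leaf (nat_lit 8999538) (nat_lit 926166) (nat_lit 43521903) (nat_lit 4810885) [(nat_lit 926166), (nat_lit 2904462), (nat_lit 6609897)]) (PF.cons (PF.leaf (nat_lit 9521166) (nat_lit 932054) (nat_lit 42580285) (nat_lit 4795985) [(nat_lit 932054), (nat_lit 2904627), (nat_lit 6575316)]) (PF.cons (PF.leaf (nat_lit 10039407) (nat_lit 936507) (nat_lit 41655698) (nat_lit 4777092) [(nat_lit 936507), (nat_lit 2901732), (nat_lit 6536204)]) (PF.cons (PF.leaf (nat_lit 10553187) (nat_lit 939654)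 (nat_lit 40749609) (nat_lit 4754596) [(nat_lit 939654), (nat_lit 2896055), (nat_lit 6493046)]) (PF.cons PF.nil (PF.cons PF.nil (PF.cons PF.nil (PF.cons PF.nil PF.nil)))))))))))))))))) (PF.cons (PF.cons (PF.leaf
 (nat_lit 5123331) (nat_lit 2777917) (nat_lit 50129338) (nat_lit 4755738) [(nat_lit 0), (nat_lit 2777917), (nat_lit 6667901)]) (PF.cons (PF.leaf (nat_lit 5588675) (nat_lit 835546) (nat_lit 49204450) (nat_lit 4778104) [(nat_lit 835546), (nat_lit 2806794), (nat_lit 6677123)]) (PF.cons (PF.leaf (nat_lit 6069899) (nat_lit 854901) (nat_lit 48261971) (nat_lit 4794847) [(nat_lit 854901), (nat_lit 2831296), (nat_lit 6679598)]) (PF.cons (PF.leaf (nat_lit 6562898) (nat_lit 871581) (nat_lit 47309945) (nat_lit 4805923) [(nat_lit 871581), (nat_lit 2851427), (nat_lit 6675343)]) (PF.cons (PF.leaf (nat_lit 7064398) (nat_lit 885856) (nat_lit 46354761) (nat_lit 4811455) [(nat_lit 885856), (nat_lit 2867307), (nat_lit 6664552)]) (PF.cons (PF.leaf (nat_lit 7571644) (nat_lit 897954)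 (nat_lit 45401581) (nat_lit 4811672) [(nat_lit 897954), (nat_lit 2879123), (nat_lit 6647536)]) (PF.cons (PF.leaf (nat_lit 8082280) (nat_lit 908073) (nat_lit 44454606) (nat_lit 4806870) [(nat_lit 908073), (nat_lit 2887106), (nat_lit 6624681)]) (PF.cons (PF.leaf (nat_lit 8594307) (nat_lit 916389) (nat_lit 43517260) (nat_lit 4797388) [(nat_lit 916389), (nat_lit 2891509), (nat_lit 6596417)]) (PF.cons (PF.leaf (nat_lit 9106012)
 (nat_lit 923063) (nat_lit 42592326) (nat_lit 4783584) [(nat_lit 923063), (nat_lit 2892596), (nat_lit 6563198)]) (PF.cons (PF.leaf (nat_lit 9615925) (nat_lit 928243) (nat_lit 41682047) (nat_lit 4765824) [(nat_lit 928243), (nat_lit 2890634), (nat_lit 6525482)]) (PF.cons (PF.leaf (nat_lit 10122797) (nat_lit 932063) (nat_lit 40788208) (nat_lit 4744473) [(nat_lit 932063), (nat_lit 2885885), (nat_lit 6483722)]) (PF.cons (PF.leaf (nat_lit 10625584) (nat_lit 934650) (nat_lit 39912208) (nat_lit 4719884) [(nat_lit 934650), (nat_lit 2878603), (nat_lit 6438358)])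 (PF.cons (PF.leaf (nat_lit 11123408) (nat_lit 936118) (nat_lit 39055114) (nat_lit 4692397) [(nat_lit 936118), (nat_lit 2869031), (nat_lit 6389811)]) (PF.cons PF.nil (PF.cons PF.nil (PF.cons PF.nil PF.nil)))))))))))))))) (PF.cons (PF.cons (PF.leaf (nat_lit 6249309) (nat_lit 2835566) (nat_lit 47155285) (nat_lit 4789509) [(nat_lit 0), (nat_lit 2835566), (nat_lit 6657318)]) (PF.cons (PF.leaf (nat_lit 6727639) (nat_lit 871708) (nat_lit 46239614) (nat_lit 4795189) [(nat_lit 871708), (nat_lit 2851770), (nat_lit 6646988)]) (PF.cons (PF.leaf (nat_lit 7215373) (nat_lit 885093) (nat_lit 45319462) (nat_lit 4795915) [(nat_lit 885093), (nat_lit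
 2864152), (nat_lit 6630792)]) (PF.cons (PF.leaf (nat_lit 7709442) (nat_lit 896338) (nat_lit 44400348) (nat_lit 4791871) [(nat_lit 896338), (nat_lit 2872858), (nat_lit 6609003)]) (PF.cons (PF.leaf (nat_lit 8207391) (nat_lit 905657) (nat_lit 43486643) (nat_lit 4783314) [(nat_lit 905657), (nat_lit 2878084), (nat_lit 6581970)]) (PF.cons (PF.leaf (nat_lit 8707163) (nat_lit 913236) (nat_lit 42581844) (nat_lit 4770542) [(nat_lit 913236), (nat_lit 2880053), (nat_lit 6550083)]) (PF.cons (PF.leaf (nat_lit 9207013) (nat_lit 919238) (nat_lit 41688744) (nat_lit 4753878) [(nat_lit 919238), (nat_lit 2879001), (nat_lit 6513751)]) (PF.cons (PF.leaf (nat_lit 9705470) (nat_lit 923811) (nat_lit 40809573) (nat_lit 4733651) [(nat_lit 923811), (nat_lit 2875170), (nat_lit 6473394)]) (PF.cons (PF.leaf (nat_lit 10201292) (nat_lit 927090) (nat_lit 39946089) (nat_lit 4710189) [(nat_lit 927090), (nat_lit 2868796), (nat_lit 6429422)]) (PF.cons (PF.leaf (nat_lit 10693426) (nat_lit 929195) (nat_lit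 39099656) (nat_lit 4683815) [(nat_lit 929195), (nat_lit 2860113), (nat_lit 6382238)]) (PF.cons (PF.leaf (nat_lit 11180990) (nat_lit 930241) (nat_lit 38271314) (nat_lit 4654837) [(nat_lit 930241), (nat_lit 2849341),
 (nat_lit 6332222)]) (PF.cons PF.nil (PF.cons PF.nil (PF.cons PF.nil PF.nil)))))))))))))) (PF.cons (PF.cons (PF.leaf (nat_lit 7362224) (nat_lit 2858229) (nat_lit 44307314) (nat_lit 4776358) [(nat_lit 0), (nat_lit 2858229), (nat_lit 6592220)]) (PF.cons (PF.leaf (nat_lit 7842634) (nat_lit 893663) (nat_lit 43423411) (nat_lit 4768616) [(nat_lit 893663), (nat_lit 2864185), (nat_lit 6566381)]) (PF.cons (PF.leaf (nat_lit 8327740) (nat_lit 902335) (nat_lit 42543604) (nat_lit 4756807) [(nat_lit 902335), (nat_lit 2866979), (nat_lit 6535813)]) (PF.cons (PF.leaf (nat_lit 8815252) (nat_lit 909306) (nat_lit 41671597) (nat_lit 4741196) [(nat_lit 909306), (nat_lit 2866806), (nat_lit 6500873)]) (PF.cons (PF.leaf (nat_lit 9303371) (nat_lit 914748) (nat_lit 40810297) (nat_lit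 4722072) [(nat_lit 914748), (nat_lit 2863878), (nat_lit 6461936)]) (PF.cons (PF.leaf (nat_lit 9790563) (nat_lit 918812) (nat_lit 39961987) (nat_lit 4699733) [(nat_lit 918812), (nat_lit 2858411), (nat_lit 6419385)]) (PF.cons (PF.leaf (nat_lit 10275569) (nat_lit 921633) (nat_lit 39128450) (nat_lit 4674476) [(nat_lit 921633), (nat_lit 2850622), (nat_lit 6373596)]) (PF.cons (PF.leaf (nat_lit 10757317) (nat_lit 923332) (nat_lit
 38311059) (nat_lit 4646594) [(nat_lit 923332), (nat_lit 2840722), (nat_lit 6324938)]) (PF.cons (PF.leaf (nat_lit 11234923) (nat_lit 924021) (nat_lit 37510854) (nat_lit 4616369) [(nat_lit 924021), (nat_lit 2828915), (nat_lit 6273758)]) (PF.cons PF.nil (PF.cons PF.nil (PF.cons PF.nil PF.nil)))))))))))) (PF.cons (PF.cons (PF.leaf (nat_lit 8444484) (nat_lit 2854015) (nat_lit 41624430) (nat_lit 4727685) [(nat_lit 0), (nat_lit 2854015), (nat_lit 6486622)]) (PF.cons (PF.leaf (nat_lit 8919511) (nat_lit 904645) (nat_lit 40785519) (nat_lit 4709648) [(nat_lit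 904645), (nat_lit 2851968), (nat_lit 6449156)]) (PF.cons (PF.leaf (nat_lit 9395894) (nat_lit 909637) (nat_lit 39956013) (nat_lit 4688431) [(nat_lit 909637), (nat_lit 2847403), (nat_lit 6408078)]) (PF.cons (PF.leaf (nat_lit 9871928) (nat_lit 913287) (nat_lit 39138335) (nat_lit 4664303) [(nat_lit 913287), (nat_lit 2840514), (nat_lit 6363741)]) (PF.cons (PF.leaf (nat_lit 10346283) (nat_lit 915732) (nat_lit 38334352) (nat_lit 4637538) [(nat_lit 915732), (nat_lit 2831499), (nat_lit 6316495)]) (PF.cons (PF.leaf (nat_lit 10817862) (nat_lit 917097) (nat_lit 37545490) (nat_lit 4608401) [(nat_lit 917097), (nat_lit 2820551), (nat_lit 6266676)])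
 (PF.cons (PF.leaf (nat_lit 11285752) (nat_lit 917490) (nat_lit 36772822) (nat_lit 4577151) [(nat_lit 917490), (nat_lit 2807857), (nat_lit 6214606)]) (PF.cons PF.nil (PF.cons PF.nil (PF.cons PF.nil PF.nil)))))))))) (PF.cons (PF.cons (PF.leaf (nat_lit 9485513) (nat_lit 2829729) (nat_lit 39124802) (nat_lit 4653180) [(nat_lit 0), (nat_lit 2829729), (nat_lit 6352453)]) (PF.cons (PF.leaf (nat_lit 9950285) (nat_lit 907269) (nat_lit 38337585) (nat_lit 4627563) [(nat_lit 907269), (nat_lit 2821614), (nat_lit 6306708)]) (PF.cons (PF.leaf (nat_lit 10414084) (nat_lit 909419) (nat_lit 37562805) (nat_lit 4599551) [(nat_lit 909419), (nat_lit 2811547), (nat_lit 6258332)]) (PF.cons (PF.leaf (nat_lit 10875647) (nat_lit 910518) (nat_lit 36801994) (nat_lit 4569390) [(nat_lit 910518), (nat_lit 2799705), (nat_lit 6207640)]) (PF.cons (PF.leaf (nat_lit 11334009) (nat_lit 910675) (nat_lit 36056296) (nat_lit 4537317) [(nat_lit 910675), (nat_lit 2786260), (nat_lit 6154929)]) (PF.cons (PF.leaf (nat_lit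 11788386) (nat_lit 909991) (nat_lit 35326548) (nat_lit 4503557) [(nat_lit 909991), (nat_lit 2771377), (nat_lit 6100482)]) (PF.cons PF.nil (PF.cons PF.nil PF.nil)))))))) (PF.cons (PF.cons (PF.leaf (nat_lit
 10479719) (nat_lit 2790870) (nat_lit 36812764) (nat_lit 4560667) [(nat_lit 0), (nat_lit 2790870), (nat_lit 6199289)]) (PF.cons (PF.leaf (nat_lit 10931226) (nat_lit 903618) (nat_lit 36079584) (nat_lit 4529693) [(nat_lit 903618), (nat_lit 2778275), (nat_lit 6147987)]) (PF.cons (PF.leaf (nat_lit 11380188) (nat_lit 903598) (nat_lit 35360336) (nat_lit 4496981) [(nat_lit 903598), (nat_lit 2764204), (nat_lit 6094864)]) (PF.cons (PF.leaf (nat_lit 11825656) (nat_lit 902759) (nat_lit 34655941) (nat_lit 4462740) [(nat_lit 902759), (nat_lit 2748809), (nat_lit 6040184)]) (PF.cons PF.nil (PF.cons PF.nil PF.nil)))))) (PF.cons (PF.cons (PF.leaf (nat_lit 11424891) (nat_lit 2741757) (nat_lit 34683983) (nat_lit 4456241) [(nat_lit 0), (nat_lit 2741757), (nat_lit 6034525)]) (PF.cons (PF.leaf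 (nat_lit 11861445) (nat_lit 895329) (nat_lit 34004409) (nat_lit 4421669) [(nat_lit 895329), (nat_lit 2725951), (nat_lit 5979793)]) (PF.cons PF.nil (PF.cons PF.nil PF.nil)))) (PF.cons (PF.cons (PF.leaf (nat_lit 12321028) (nat_lit 2685718) (nat_lit 32729093) (nat_lit 4344540) [(nat_lit 0), (nat_lit 2685718), (nat_lit 5863709)]) (PF.cons PF.nil PF.nil)) (PF.cons PF.nil (PF.cons PF.nil (PF.cons PF.nil
 PF.nil))))))))))))) (PF.cons (PF.cons (PF.cons (PF.leaf (nat_lit 4846105) (nat_lit 4692668) (nat_lit 49229112) (nat_lit 4692668) [(nat_lit 0), (nat_lit 0), (nat_lit 6593516)]) (PF.cons (PF.leaf (nat_lit 5275904) (nat_lit 801360) (nat_lit 48389320) (nat_lit 4714575) [(nat_lit 801360), (nat_lit 0), (nat_lit 6601778)]) (PF.cons (PF.leaf (nat_lit 5726758) (nat_lit 823833) (nat_lit 47521035) (nat_lit 4731638) [(nat_lit 823833), (nat_lit 0), (nat_lit 6604235)]) (PF.cons (PF.leaf (nat_lit 6193480) (nat_lit 843059) (nat_lit 46634670) (nat_lit 4743597) [(nat_lit 843059), (nat_lit 0),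 (nat_lit 6600682)]) (PF.cons (PF.leaf (nat_lit 6672108) (nat_lit 859481) (nat_lit 45738179) (nat_lit 4750420) [(nat_lit 859481), (nat_lit 0), (nat_lit 6591144)]) (PF.cons (PF.leaf (nat_lit 7159393) (nat_lit 873432) (nat_lit 44837822) (nat_lit 4752227) [(nat_lit 873432), (nat_lit 0), (nat_lit 6575799)]) (PF.cons (PF.leaf (nat_lit 7652608) (nat_lit 885183) (nat_lit 43938620) (nat_lit 4749231) [(nat_lit 885183), (nat_lit 0), (nat_lit 6554929)]) (PF.cons (PF.leaf (nat_lit 8149474) (nat_lit 894959) (nat_lit 43044632) (nat_lit 4741704) [(nat_lit 894959), (nat_lit 0), (nat_lit 6528880)]) (PF.cons (PF.leaf (nat_lit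
 8648023) (nat_lit 902954) (nat_lit 42159149) (nat_lit 4729955) [(nat_lit 902954), (nat_lit 0), (nat_lit 6498037)]) (PF.cons (PF.leaf (nat_lit 9146585) (nat_lit 909340) (nat_lit 41284836) (nat_lit 4714309) [(nat_lit 909340), (nat_lit 0), (nat_lit 6462802)]) (PF.cons (PF.leaf (nat_lit 9643760) (nat_lit 914270) (nat_lit 40423836) (nat_lit 4695098) [(nat_lit 914270), (nat_lit 0), (nat_lit 6423585)]) (PF.cons (PF.leaf (nat_lit 10138308) (nat_lit 917884) (nat_lit 39577854) (nat_lit 4672651) [(nat_lit 917884), (nat_lit 0), (nat_lit 6380789)]) (PF.cons (PF.leaf (nat_lit 10629240) (nat_lit 920307) (nat_lit 38748225) (nat_lit 4647288) [(nat_lit 920307), (nat_lit 0), (nat_lit 6334806)]) (PF.cons (PF.leaf (nat_lit 11115664) (nat_lit 921653) (nat_lit 37935974) (nat_lit 4619316) [(nat_lit 921653), (nat_lit 0), (nat_lit 6286010)]) (PF.cons PF.nil (PF.cons PF.nil PF.nil)))))))))))))))) (PF.cons (PF.cons (PF.leaf (nat_lit 5912555) (nat_lit 2785194) (nat_lit 46432933) (nat_lit 4726862)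 [(nat_lit 0), (nat_lit 2785194), (nat_lit 6581911)]) (PF.cons (PF.leaf (nat_lit 6363760) (nat_lit 842981) (nat_lit 45583715) (nat_lit 4733612) [(nat_lit 842981), (nat_lit 2803107), (nat_lit 6572697)]) (PF.cons
 (PF.leaf (nat_lit 6828228) (nat_lit 858663) (nat_lit 44722238) (nat_lit 4735784) [(nat_lit 858663), (nat_lit 2817305), (nat_lit 6558078)]) (PF.cons (PF.leaf (nat_lit 7302207) (nat_lit 871865) (nat_lit 43855458) (nat_lit 4733452) [(nat_lit 871865), (nat_lit 2827879), (nat_lit 6538212)]) (PF.cons (PF.leaf (nat_lit 7782764) (nat_lit 882889) (nat_lit 42988765) (nat_lit 4726791) [(nat_lit 882889), (nat_lit 2834988), (nat_lit 6513354)]) (PF.cons (PF.leaf (nat_lit 8267487) (nat_lit 891978) (nat_lit 42126406) (nat_lit 4716040) [(nat_lit 891978), (nat_lit 2838832), (nat_lit 6483819)]) (PF.cons (PF.leaf (nat_lit 8754356) (nat_lit 899336) (nat_lit 41271765) (nat_lit 4701471) [(nat_lit 899336), (nat_lit 2839631), (nat_lit 6449961)]) (PF.cons (PF.leaf (nat_lit 9241667) (nat_lit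 905140) (nat_lit 40427539) (nat_lit 4683380) [(nat_lit 905140), (nat_lit 2837613), (nat_lit 6412148)]) (PF.cons (PF.leaf (nat_lit 9727963) (nat_lit 909544) (nat_lit 39595874) (nat_lit 4662065) [(nat_lit 909544), (nat_lit 2833008), (nat_lit 6370754)]) (PF.cons (PF.leaf (nat_lit 10212055) (nat_lit 912686) (nat_lit 38778465) (nat_lit 4637826) [(nat_lit 912686), (nat_lit 2826040), (nat_lit 6326150)]) (PF.cons (PF.leaf
 (nat_lit 10692891) (nat_lit 914691) (nat_lit 37976630) (nat_lit 4610954) [(nat_lit 914691), (nat_lit 2816929), (nat_lit 6278693)]) (PF.cons (PF.leaf (nat_lit 11169612) (nat_lit 915670) (nat_lit 37191376) (nat_lit 4581729) [(nat_lit 915670), (nat_lit 2805880), (nat_lit 6228727)]) (PF.cons PF.nil (PF.cons PF.nil PF.nil)))))))))))))) (PF.cons (PF.cons (PF.leaf (nat_lit 6981759) (nat_lit 2812297) (nat_lit 43726616) (nat_lit 4717143) [(nat_lit 0), (nat_lit 2812297), (nat_lit 6520228)]) (PF.cons (PF.leaf (nat_lit 7441597) (nat_lit 869156) (nat_lit 42895085) (nat_lit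 4711223) [(nat_lit 869156), (nat_lit 2820124), (nat_lit 6496548)]) (PF.cons (PF.leaf (nat_lit 7909096) (nat_lit 879627) (nat_lit 42061893) (nat_lit 4701391) [(nat_lit 879627), (nat_lit 2824805), (nat_lit 6468330)]) (PF.cons (PF.leaf (nat_lit 8381498) (nat_lit 888173) (nat_lit 41231682) (nat_lit 4687856) [(nat_lit 888173), (nat_lit 2826507), (nat_lit 6435869)]) (PF.cons (PF.leaf (nat_lit 8856649) (nat_lit 895016) (nat_lit 40408057) (nat_lit 4670862) [(nat_lit 895016), (nat_lit 2825423), (nat_lit 6399490)]) (PF.cons (PF.leaf (nat_lit 9332758) (nat_lit 900341) (nat_lit 39593839) (nat_lit 4650674) [(nat_lit 900341), (nat_lit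
 2821758), (nat_lit 6359537)]) (PF.cons (PF.leaf (nat_lit 9808348) (nat_lit 904308) (nat_lit 38791243) (nat_lit 4627566) [(nat_lit 904308), (nat_lit 2815721), (nat_lit 6316354)]) (PF.cons (PF.leaf (nat_lit 10282154) (nat_lit 907057) (nat_lit 38002000) (nat_lit 4601809) [(nat_lit 907057), (nat_lit 2807517), (nat_lit 6270283)]) (PF.cons (PF.leaf (nat_lit 10753130) (nat_lit 908711) (nat_lit 37227449) (nat_lit 4573671) [(nat_lit 908711), (nat_lit 2797347), (nat_lit 6221654)]) (PF.cons (PF.leaf (nat_lit 11220405) (nat_lit 909382) (nat_lit 36468604) (nat_lit 4543407) [(nat_lit 909382), (nat_lit 2785400), (nat_lit 6170780)]) (PF.cons PF.nil (PF.cons PF.nil PF.nil)))))))))))) (PF.cons (PF.cons (PF.leaf (nat_lit 8032860) (nat_lit 2812735) (nat_lit 41156792) (nat_lit 4673344) [(nat_lit 0), (nat_lit 2812735), (nat_lit 6420235)]) (PF.cons (PF.leaf (nat_lit 8492468) (nat_lit 883578) (nat_lit 40359377) (nat_lit 4657435) [(nat_lit 883578), (nat_lit 2812560), (nat_lit 6385370)]) (PF.cons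 (PF.leaf (nat_lit 8955737) (nat_lit 890029) (nat_lit 39567016) (nat_lit 4638378) [(nat_lit 890029), (nat_lit 2809832), (nat_lit 6346931)]) (PF.cons (PF.leaf (nat_lit 9420629) (nat_lit 894979) (nat_lit 38782772)
 (nat_lit 4616415) [(nat_lit 894979), (nat_lit 2804733), (nat_lit 6305243)]) (PF.cons (PF.leaf (nat_lit 9885558) (nat_lit 898597) (nat_lit 38009010) (nat_lit 4591798) [(nat_lit 898597), (nat_lit 2797453), (nat_lit 6260627)]) (PF.cons (PF.leaf (nat_lit 10349211) (nat_lit 901028) (nat_lit 37247550) (nat_lit 4564775) [(nat_lit 901028), (nat_lit 2788181), (nat_lit 6213400)]) (PF.cons (PF.leaf (nat_lit 10810514) (nat_lit 902397) (nat_lit 36499792) (nat_lit 4535591) [(nat_lit 902397), (nat_lit 2777100), (nat_lit 6163870)]) (PF.cons (PF.leaf (nat_lit 11268552) (nat_lit 902817) (nat_lit 35766792) (nat_lit 4504483) [(nat_lit 902817), (nat_lit 2764387), (nat_lit 6112328)]) (PF.cons PF.nil (PF.cons PF.nil PF.nil)))))))))) (PF.cons (PF.cons (PF.leaf (nat_lit 9052621) (nat_lit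 2793004) (nat_lit 38747478) (nat_lit 4604233) [(nat_lit 0), (nat_lit 2793004), (nat_lit 6292540)]) (PF.cons (PF.leaf (nat_lit 9506026) (nat_lit 889079) (nat_lit 37993274) (nat_lit 4580795) [(nat_lit 889079), (nat_lit 2786668), (nat_lit 6249494)]) (PF.cons (PF.leaf (nat_lit 9960265) (nat_lit 892437) (nat_lit 37248175) (nat_lit 4554931) [(nat_lit 892437), (nat_lit 2778320), (nat_lit 6203774)]) (PF.cons (PF.leaf (nat_lit
 10413830) (nat_lit 894624) (nat_lit 36514165) (nat_lit 4526872) [(nat_lit 894624), (nat_lit 2768135), (nat_lit 6155680)]) (PF.cons (PF.leaf (nat_lit 10865561) (nat_lit 895773) (nat_lit 35792751) (nat_lit 4496845) [(nat_lit 895773), (nat_lit 2756280), (nat_lit 6105499)]) (PF.cons (PF.leaf (nat_lit 11314504) (nat_lit 895997) (nat_lit 35085065) (nat_lit 4465069) [(nat_lit 895997), (nat_lit 2742920), (nat_lit 6053505)]) (PF.cons (PF.leaf (nat_lit 11759871) (nat_lit 895395) (nat_lit 34391941) (nat_lit 4431751) [(nat_lit 895395), (nat_lit 2728209), (nat_lit 5999954)])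 (PF.cons PF.nil PF.nil)))))))) (PF.cons (PF.cons (PF.leaf (nat_lit 10033275) (nat_lit 2758422) (nat_lit 36507660) (nat_lit 4517108) [(nat_lit 0), (nat_lit 2758422), (nat_lit 6145964)]) (PF.cons (PF.leaf (nat_lit 10476595) (nat_lit 887865) (nat_lit 35800846) (nat_lit 4488227) [(nat_lit 887865), (nat_lit 2747466), (nat_lit 6097270)]) (PF.cons (PF.leaf (nat_lit 10918789) (nat_lit 888857) (nat_lit 35105388) (nat_lit 4457544) [(nat_lit 888857), (nat_lit 2734964), (nat_lit 6046671)]) (PF.cons (PF.leaf (nat_lit 11358728) (nat_lit 888938) (nat_lit 34422535) (nat_lit 4425264) [(nat_lit 888938), (nat_lit 2721068), (nat_lit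
 5994426)]) (PF.cons (PF.leaf (nat_lit 11795575) (nat_lit 888212) (nat_lit 33753207) (nat_lit 4391579) [(nat_lit 888212), (nat_lit 2705924), (nat_lit 5940776)]) (PF.cons PF.nil PF.nil)))))) (PF.cons (PF.cons (PF.leaf (nat_lit 10970844) (nat_lit 2713218) (nat_lit 34436731) (nat_lit 4417783) [(nat_lit 0), (nat_lit 2713218), (nat_lit 5987493)]) (PF.cons (PF.leaf (nat_lit 11401694) (nat_lit 881654) (nat_lit 33778298) (nat_lit 4385149) [(nat_lit 881654), (nat_lit 2698890), (nat_lit 5935183)]) (PF.cons (PF.leaf (nat_lit 11830085) (nat_lit 880850) (nat_lit 33132278) (nat_lit 4351228) [(nat_lit 880850), (nat_lit 2683402), (nat_lit 5881595)]) (PF.cons PF.nil PF.nil)))) (PF.cons (PF.cons (PF.leaf (nat_lit 11863922) (nat_lit 2660686) (nat_lit 32528296) (nat_lit 4310758) [(nat_lit 0), (nat_lit 2660686), (nat_lit 5822474)]) (PF.cons (PF.leaf (nat_lit 12280963) (nat_lit 871777) (nat_lit 31917248) (nat_lit 4275698) [(nat_lit 871777), (nat_lit 2643976), (nat_lit 5768125)]) PF.nil)) (PF.cons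 PF.nil (PF.cons PF.nil (PF.cons PF.nil PF.nil))))))))))) (PF.cons (PF.cons (PF.cons (PF.leaf (nat_lit 6629737) (nat_lit 4656100) (nat_lit 43113477) (nat_lit 4656100) [(nat_lit 0), (nat_lit 0), (nat_lit
 6446411)]) (PF.cons (PF.leaf (nat_lit 7065804) (nat_lit 841657) (nat_lit 42339896) (nat_lit 4652131) [(nat_lit 841657), (nat_lit 0), (nat_lit 6425042)]) (PF.cons (PF.leaf (nat_lit 7513198) (nat_lit 854497) (nat_lit 41557502) (nat_lit 4644404) [(nat_lit 854497), (nat_lit 0), (nat_lit 6399303)]) (PF.cons (PF.leaf (nat_lit 7968456) (nat_lit 865044) (nat_lit 40772322) (nat_lit 4633061) [(nat_lit 865044), (nat_lit 0), (nat_lit 6369432)]) (PF.cons (PF.leaf (nat_lit 8428942) (nat_lit 873613) (nat_lit 39988931) (nat_lit 4618304) [(nat_lit 873613), (nat_lit 0), (nat_lit 6335708)]) (PF.cons (PF.leaf (nat_lit 8892512) (nat_lit 880452) (nat_lit 39210872) (nat_lit 4600364) [(nat_lit 880452), (nat_lit 0), (nat_lit 6298437)]) (PF.cons (PF.leaf (nat_lit 9357395) (nat_lit 885767) (nat_lit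 38440917) (nat_lit 4579489) [(nat_lit 885767), (nat_lit 0), (nat_lit 6257934)]) (PF.cons (PF.leaf (nat_lit 9822125) (nat_lit 889727) (nat_lit 37681237) (nat_lit 4555934) [(nat_lit 889727), (nat_lit 0), (nat_lit 6214516)]) (PF.cons (PF.leaf (nat_lit 10285449) (nat_lit 892479) (nat_lit 36933533) (nat_lit 4529952) [(nat_lit 892479), (nat_lit 0), (nat_lit 6168495)]) (PF.cons (PF.leaf (nat_lit 10746358) (nat_lit
 894153) (nat_lit 36199124) (nat_lit 4501788) [(nat_lit 894153), (nat_lit 0), (nat_lit 6120172)]) (PF.cons (PF.leaf (nat_lit 11203967) (nat_lit 894861) (nat_lit 35479017) (nat_lit 4471678) [(nat_lit 894861), (nat_lit 0), (nat_lit 6069832)]) (PF.cons PF.nil (PF.cons PF.nil (PF.cons PF.nil PF.nil)))))))))))))) (PF.cons (PF.cons (PF.leaf (nat_lit 7645079) (nat_lit 2769472) (nat_lit 40665237) (nat_lit 4617435) [(nat_lit 0), (nat_lit 2769472), (nat_lit 6352222)]) (PF.cons (PF.leaf (nat_lit 8086891) (nat_lit 860426) (nat_lit 39912969) (nat_lit 4603769) [(nat_lit 860426),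 (nat_lit 2771381), (nat_lit 6320088)]) (PF.cons (PF.leaf (nat_lit 8535108) (nat_lit 868689) (nat_lit 39160580) (nat_lit 4586978) [(nat_lit 868689), (nat_lit 2770673), (nat_lit 6284400)]) (PF.cons (PF.leaf (nat_lit 8987226) (nat_lit 875211) (nat_lit 38412017) (nat_lit 4567277) [(nat_lit 875211), (nat_lit 2767524), (nat_lit 6245453)]) (PF.cons (PF.leaf (nat_lit 9441330) (nat_lit 880215) (nat_lit 37670294) (nat_lit 4544892) [(nat_lit 880215), (nat_lit 2762118), (nat_lit 6203549)]) (PF.cons (PF.leaf (nat_lit 9895835) (nat_lit 883882) (nat_lit 36937738) (nat_lit 4520059) [(nat_lit 883882), (nat_lit 2754640), (nat_lit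
 6158987)]) (PF.cons (PF.leaf (nat_lit 10349458) (nat_lit 886366) (nat_lit 36216144) (nat_lit 4493011) [(nat_lit 886366), (nat_lit 2745276), (nat_lit 6112060)]) (PF.cons (PF.leaf (nat_lit 10801109) (nat_lit 887798) (nat_lit 35506896) (nat_lit 4463975) [(nat_lit 887798), (nat_lit 2734200), (nat_lit 6063050)]) (PF.cons (PF.leaf (nat_lit 11249887) (nat_lit 888292) (nat_lit 34811046) (nat_lit 4433169) [(nat_lit 888292), (nat_lit 2721583), (nat_lit 6012223)]) (PF.cons PF.nil (PF.cons PF.nil (PF.cons PF.nil PF.nil)))))))))))) (PF.cons (PF.cons (PF.leaf (nat_lit 8639936) (nat_lit 2754720) (nat_lit 38351924) (nat_lit 4553927) [(nat_lit 0), (nat_lit 2754720), (nat_lit 6231173)]) (PF.cons (PF.leaf (nat_lit 9080127) (nat_lit 869368) (nat_lit 37633236) (nat_lit 4532767) [(nat_lit 869368), (nat_lit 2750315), (nat_lit 6190936)]) (PF.cons (PF.leaf (nat_lit 9523256) (nat_lit 874164) (nat_lit 36919808) (nat_lit 4509138) [(nat_lit 874164), (nat_lit 2743820), (nat_lit 6147965)]) (PF.cons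 (PF.leaf (nat_lit 9967486) (nat_lit 877624) (nat_lit 36214216) (nat_lit 4483260) [(nat_lit 877624), (nat_lit 2735406), (nat_lit 6102550)]) (PF.cons (PF.leaf (nat_lit 10411414) (nat_lit 879910) (nat_lit 35518423)
 (nat_lit 4455350) [(nat_lit 879910), (nat_lit 2725242), (nat_lit 6054970)]) (PF.cons (PF.leaf (nat_lit 10853887) (nat_lit 881160) (nat_lit 34833920) (nat_lit 4425622) [(nat_lit 881160), (nat_lit 2713494), (nat_lit 6005492)]) (PF.cons (PF.leaf (nat_lit 11293955) (nat_lit 881492) (nat_lit 34161836) (nat_lit 4394277) [(nat_lit 881492), (nat_lit 2700318), (nat_lit 5954368)]) (PF.cons (PF.leaf (nat_lit 11730833) (nat_lit 881008) (nat_lit 33503012) (nat_lit 4361510) [(nat_lit 881008), (nat_lit 2685861), (nat_lit 5901834)]) (PF.cons PF.nil (PF.cons PF.nil PF.nil)))))))))) (PF.cons (PF.cons (PF.leaf (nat_lit 9604059) (nat_lit 2724710) (nat_lit 36188308) (nat_lit 4472360) [(nat_lit 0), (nat_lit 2724710), (nat_lit 6091337)]) (PF.cons (PF.leaf (nat_lit 10037715) (nat_lit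 870962) (nat_lit 35509640) (nat_lit 4445656) [(nat_lit 870962), (nat_lit 2715506), (nat_lit 6045344)]) (PF.cons (PF.leaf (nat_lit 10471878) (nat_lit 873124) (nat_lit 34839419) (nat_lit 4417077) [(nat_lit 873124), (nat_lit 2704673), (nat_lit 5997349)]) (PF.cons (PF.leaf (nat_lit 10905181) (nat_lit 874253) (nat_lit 34179307) (nat_lit 4386822) [(nat_lit 874253), (nat_lit 2692365), (nat_lit 5947608)]) (PF.cons (PF.leaf (nat_lit
 11336599) (nat_lit 874474) (nat_lit 33530549) (nat_lit 4355083) [(nat_lit 874474), (nat_lit 2678729), (nat_lit 5896364)]) (PF.cons (PF.leaf (nat_lit 11765295) (nat_lit 873892) (nat_lit 32894071) (nat_lit 4322042) [(nat_lit 873892), (nat_lit 2663904), (nat_lit 5843840)]) (PF.cons PF.nil (PF.cons PF.nil PF.nil)))))))) (PF.cons (PF.cons (PF.leaf (nat_lit 10531549) (nat_lit 2683631) (nat_lit 34178128) (nat_lit 4378278) [(nat_lit 0), (nat_lit 2683631), (nat_lit 5939293)]) (PF.cons (PF.leaf (nat_lit 10955490) (nat_lit 867084) (nat_lit 33542139) (nat_lit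 4347654) [(nat_lit 867084), (nat_lit 2670869), (nat_lit 5889485)]) (PF.cons (PF.leaf (nat_lit 11378255) (nat_lit 867246) (nat_lit 32916335) (nat_lit 4315657) [(nat_lit 867246), (nat_lit 2656867), (nat_lit 5838286)]) (PF.cons (PF.leaf (nat_lit 11798811) (nat_lit 866611) (nat_lit 32301760) (nat_lit 4282459) [(nat_lit 866611), (nat_lit 2641754), (nat_lit 5785913)]) (PF.cons PF.nil (PF.cons PF.nil PF.nil)))))) (PF.cons (PF.cons (PF.leaf (nat_lit 11419484) (nat_lit 2634772) (nat_lit 32318317) (nat_lit 4276052) [(nat_lit 0), (nat_lit 2634772), (nat_lit 5780192)]) (PF.cons (PF.leaf (nat_lit 11831766) (nat_lit 859168) (nat_lit 31725270) (nat_lit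
 4242809) [(nat_lit 859168), (nat_lit 2619449), (nat_lit 5728106)]) (PF.cons (PF.leaf (nat_lit 12241716) (nat_lit 857820) (nat_lit 31143194) (nat_lit 4208604) [(nat_lit 857820), (nat_lit 2603200), (nat_lit 5675123)]) (PF.cons PF.nil PF.nil)))) (PF.cons (PF.cons (PF.leaf (nat_lit 12266943) (nat_lit 2580682) (nat_lit 30601842) (nat_lit 4169045) [(nat_lit 0), (nat_lit 2580682), (nat_lit 5617944)]) (PF.cons PF.nil PF.nil)) (PF.cons PF.nil (PF.cons PF.nil (PF.cons PF.nil PF.nil)))))))))) (PF.cons (PF.cons (PF.cons (PF.leaf (nat_lit 8249642) (nat_lit 4502002) (nat_lit 37934531) (nat_lit 4502002) [(nat_lit 0), (nat_lit 0), (nat_lit 6168069)]) (PF.cons (PF.leaf (nat_lit 8674280) (nat_lit 847660) (nat_lit 37254695) (nat_lit 4483255) [(nat_lit 847660), (nat_lit 0), (nat_lit 6130800)]) (PF.cons (PF.leaf (nat_lit 9104407) (nat_lit 854235) (nat_lit 36575522) (nat_lit 4461981) [(nat_lit 854235), (nat_lit 0), (nat_lit 6090709)]) (PF.cons (PF.leaf (nat_lit 9537719) (nat_lit 859227) (nat_lit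 35900402) (nat_lit 4438389) [(nat_lit 859227), (nat_lit 0), (nat_lit 6048084)]) (PF.cons (PF.leaf (nat_lit 9972494) (nat_lit 862856) (nat_lit 35231894) (nat_lit 4412690) [(nat_lit 862856), (nat_lit 0), (nat_lit
 6003200)]) (PF.cons (PF.leaf (nat_lit 10407319) (nat_lit 865297) (nat_lit 34571947) (nat_lit 4385092) [(nat_lit 865297), (nat_lit 0), (nat_lit 5956321)]) (PF.cons (PF.leaf (nat_lit 10841045) (nat_lit 866695) (nat_lit 33922053) (nat_lit 4355794) [(nat_lit 866695), (nat_lit 0), (nat_lit 5907698)]) (PF.cons (PF.leaf (nat_lit 11272725) (nat_lit 867174) (nat_lit 33283343) (nat_lit 4324990) [(nat_lit 867174), (nat_lit 0), (nat_lit 5857564)]) (PF.cons (PF.leaf (nat_lit 11701577) (nat_lit 866840) (nat_lit 32656671) (nat_lit 4292860) [(nat_lit 866840), (nat_lit 0), (nat_lit 5806139)]) (PF.cons PF.nil PF.nil)))))))))) (PF.cons (PF.cons (PF.leaf (nat_lit 9193657) (nat_lit 2689482) (nat_lit 35852314) (nat_lit 4426232) [(nat_lit 0), (nat_lit 2689482), (nat_lit 6035195)]) (PF.cons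 (PF.leaf (nat_lit 9615861) (nat_lit 852602) (nat_lit 35204081) (nat_lit 4401815) [(nat_lit 852602), (nat_lit 2682183), (nat_lit 5992032)]) (PF.cons (PF.leaf (nat_lit 10040498) (nat_lit 856156) (nat_lit 34560919) (nat_lit 4375436) [(nat_lit 856156), (nat_lit 2673151), (nat_lit 5946748)]) (PF.cons (PF.leaf (nat_lit 10465884) (nat_lit 858508) (nat_lit 33925027) (nat_lit 4347292) [(nat_lit 858508), (nat_lit 2662545),
 (nat_lit 5899605)]) (PF.cons (PF.leaf (nat_lit 10890761) (nat_lit 859817) (nat_lit 33298064) (nat_lit 4317576) [(nat_lit 859817), (nat_lit 2650517), (nat_lit 5850845)]) (PF.cons (PF.leaf (nat_lit 11314106) (nat_lit 860212) (nat_lit 32681278) (nat_lit 4286469) [(nat_lit 860212), (nat_lit 2637211), (nat_lit 5800697)]) (PF.cons (PF.leaf (nat_lit 11735073) (nat_lit 859803) (nat_lit 32075604) (nat_lit 4254142) [(nat_lit 859803), (nat_lit 2622762), (nat_lit 5749370)]) (PF.cons PF.nil PF.nil)))))))) (PF.cons (PF.cons (PF.leaf (nat_lit 10108201) (nat_lit 2652818) (nat_lit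 33906526) (nat_lit 4337584) [(nat_lit 0), (nat_lit 2652818), (nat_lit 5889766)]) (PF.cons (PF.leaf (nat_lit 10523826) (nat_lit 851412) (nat_lit 33294611) (nat_lit 4309059) [(nat_lit 851412), (nat_lit 2641737), (nat_lit 5842563)]) (PF.cons (PF.leaf (nat_lit 10939757) (nat_lit 852693) (nat_lit 32690347) (nat_lit 4279065) [(nat_lit 852693), (nat_lit 2629319), (nat_lit 5793843)]) (PF.cons (PF.leaf (nat_lit 11354737) (nat_lit 853054) (nat_lit 32095151) (nat_lit 4247777) [(nat_lit 853054), (nat_lit 2615701), (nat_lit 5743829)]) (PF.cons (PF.leaf (nat_lit 11767844) (nat_lit 852612) (nat_lit 31510074) (nat_lit 4215358) [(nat_lit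
 852612), (nat_lit 2601011), (nat_lit 5692726)]) (PF.cons PF.nil PF.nil)))))) (PF.cons (PF.cons (PF.leaf (nat_lit 10988646) (nat_lit 2607846) (nat_lit 32097991) (nat_lit 4240314) [(nat_lit 0), (nat_lit 2607846), (nat_lit 5736741)]) (PF.cons (PF.leaf (nat_lit 11395034) (nat_lit 845701) (nat_lit 31524137) (nat_lit 4208961) [(nat_lit 845701), (nat_lit 2593997), (nat_lit 5687005)]) (PF.cons (PF.leaf (nat_lit 11800240) (nat_lit 845269) (nat_lit 30959325) (nat_lit 4176550) [(nat_lit 845269), (nat_lit 2579136), (nat_lit 5636247)]) (PF.cons PF.nil PF.nil)))) (PF.cons (PF.cons (PF.leaf (nat_lit 11832768) (nat_lit 2557160) (nat_lit 30422578) (nat_lit 4137747) [(nat_lit 0), (nat_lit 2557160), (nat_lit 5579960)]) (PF.cons (PF.leaf (nat_lit 12228277) (nat_lit 836678) (nat_lit 29886677) (nat_lit 4104583) [(nat_lit 836678), (nat_lit 2541345), (nat_lit 5528872)]) PF.nil)) (PF.cons PF.nil (PF.cons PF.nil (PF.cons PF.nil PF.nil)))))))) (PF.cons (PF.cons (PF.cons (PF.leaf (nat_lit 9702337)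 (nat_lit 4295513) (nat_lit 33619770) (nat_lit 4295513) [(nat_lit 0), (nat_lit 0), (nat_lit 5838705)]) (PF.cons (PF.leaf (nat_lit 10107925) (nat_lit 834346) (nat_lit 33034017) (nat_lit 4269207) [(nat_lit 834346),
 (nat_lit 0), (nat_lit 5794248)]) (PF.cons (PF.leaf (nat_lit 10515596) (nat_lit 836961) (nat_lit 32452955) (nat_lit 4241319) [(nat_lit 836961), (nat_lit 0), (nat_lit 5748123)]) (PF.cons (PF.leaf (nat_lit 10923783) (nat_lit 838487) (nat_lit 31878488) (nat_lit 4212029) [(nat_lit 838487), (nat_lit 0), (nat_lit 5700566)]) (PF.cons (PF.leaf (nat_lit 11331347) (nat_lit 839077) (nat_lit 31312035) (nat_lit 4181507) [(nat_lit 839077), (nat_lit 0), (nat_lit 5651792)]) (PF.cons (PF.leaf (nat_lit 11737358) (nat_lit 838851) (nat_lit 30754663) (nat_lit 4149910) [(nat_lit 838851), (nat_lit 0), (nat_lit 5601996)]) (PF.cons PF.nil (PF.cons PF.nil PF.nil)))))))) (PF.cons (PF.cons (PF.leaf (nat_lit 10572561) (nat_lit 2579741) (nat_lit 31865830) (nat_lit 4203402) [(nat_lit 0), (nat_lit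 2579741), (nat_lit 5691967)]) (PF.cons (PF.leaf (nat_lit 10971710) (nat_lit 831180) (nat_lit 31312657) (nat_lit 4174035) [(nat_lit 831180), (nat_lit 2567478), (nat_lit 5644692)]) (PF.cons (PF.leaf (nat_lit 11371034) (nat_lit 831811) (nat_lit 30766317) (nat_lit 4143502) [(nat_lit 831811), (nat_lit 2554102), (nat_lit 5596253)]) (PF.cons (PF.leaf (nat_lit 11769374) (nat_lit 831614) (nat_lit 30228036) (nat_lit 4111956)
 [(nat_lit 831614), (nat_lit 2539737), (nat_lit 5546847)]) (PF.cons PF.nil (PF.cons PF.nil PF.nil)))))) (PF.cons (PF.cons (PF.leaf (nat_lit 11411140) (nat_lit 2532668) (nat_lit 30233895) (nat_lit 4105441) [(nat_lit 0), (nat_lit 2532668), (nat_lit 5540827)]) (PF.cons (PF.leaf (nat_lit 11801554) (nat_lit 824226) (nat_lit 29714493) (nat_lit 4074035) [(nat_lit 824226), (nat_lit 2518227), (nat_lit 5491920)]) (PF.cons (PF.leaf (nat_lit 12190826) (nat_lit 823371) (nat_lit 29203073) (nat_lit 4041805) [(nat_lit 823371), (nat_lit 2502950), (nat_lit 5442257)]) (PF.cons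 PF.nil PF.nil)))) (PF.cons (PF.cons (PF.leaf (nat_lit 12216309) (nat_lit 2481391) (nat_lit 28719538) (nat_lit 4004190) [(nat_lit 0), (nat_lit 2481391), (nat_lit 5388181)]) (PF.cons PF.nil PF.nil)) (PF.cons PF.nil (PF.cons PF.nil PF.nil)))))) (PF.cons (PF.cons (PF.cons (PF.leaf (nat_lit 11003176) (nat_lit 4071993) (nat_lit 30034446) (nat_lit 4071993) [(nat_lit 0), (nat_lit 0), (nat_lit 5500395)]) (PF.cons (PF.leaf (nat_lit 11387210) (nat_lit 810768) (nat_lit 29532897) (nat_lit 4042443) [(nat_lit 810768), (nat_lit 0), (nat_lit 5453783)]) (PF.cons (PF.leaf (nat_lit 11771359) (nat_lit 810918) (nat_lit 29037401) (nat_lit 4011955)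
 [(nat_lit 810918), (nat_lit 0), (nat_lit 5406270)]) (PF.cons (PF.leaf (nat_lit 12154528) (nat_lit 810316) (nat_lit 28549031) (nat_lit 3980666) [(nat_lit 810316), (nat_lit 0), (nat_lit 5358027)]) PF.nil)))) (PF.cons (PF.cons (PF.leaf (nat_lit 11804265) (nat_lit 2459103) (nat_lit 28557143) (nat_lit 3974980) [(nat_lit 0), (nat_lit 2459103), (nat_lit 5352930)]) (PF.cons (PF.leaf (nat_lit 12180087) (nat_lit 802996) (nat_lit 28085492) (nat_lit 3943966) [(nat_lit 802996), (nat_lit 2444414), (nat_lit 5305323)]) PF.nil)) (PF.cons PF.nil (PF.cons PF.nil PF.nil)))) (PF.cons (PF.cons (PF.cons (PF.leaf (nat_lit 12172238) (nat_lit 3849661) (nat_lit 27043217) (nat_lit 3849661) [(nat_lit 0), (nat_lit 0), (nat_lit 5173704)]) (PF.cons PF.nil PF.nil)) (PF.cons PF.nil PF.nil)) (PF.cons PF.nil (PF.cons PF.nil (PF.cons PF.nil (PF.cons PF.nil PF.nil))))))))))))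

def p14_21_0_0 : pfC (piC [(nat_lit 33242365), (nat_lit 21715570), (nat_lit 14024239)] (nat_lit 16450652)) p14_21_0 (nat_lit 3) (nat_lit 0) (nat_lit 1) = true := by decide +kernel
def p14_21_0_1 : pfC (piC [(nat_lit 33242365), (nat_lit 21715570), (nat_lit 14024239)] (nat_lit 16450652)) p14_21_0 (nat_lit 3) (nat_lit 1) (nat_lit 2) = true := by decide +kernel
def p14_21_0_2 : pfC (piC [(nat_lit 33242365), (nat_lit 21715570), (nat_lit 14024239)] (nat_lit 16450652)) p14_21_0 (nat_lit 3) (nat_lit 2) (nat_lit 3) = true := by decide +kernel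
def p14_21_0_3 : pfC (piC [(nat_lit 33242365), (nat_lit 21715570), (nat_lit 14024239)] (nat_lit 16450652)) p14_21_0 (nat_lit 3) (nat_lit 3) (nat_lit 4) = true := by decide +kernel
def p14_21_0_4 : pfC (piC [(nat_lit 33242365), (nat_lit 21715570), (nat_lit 14024239)] (nat_lit 16450652)) p14_21_0 (nat_lit 3) (nat_lit 4) (nat_lit 5) = true := by decide +kernel
def p14_21_0_5 : pfC (piC [(nat_lit 33242365), (nat_lit 21715570), (nat_lit 14024239)] (nat_lit 16450652)) p14_21_0 (nat_lit 3) (nat_lit 5) (nat_lit 6) = true := by decide +kernel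
def p14_21_0_6 : pfC (piC [(nat_lit 33242365), (nat_lit 21715570), (nat_lit 14024239)] (nat_lit 16450652)) p14_21_0 (nat_lit 3) (nat_lit 6) (nat_lit 7) = true := by decide +kernel
def p14_21_0_7 : pfC (piC [(nat_lit 33242365), (nat_lit 21715570), (nat_lit 14024239)] (nat_lit 16450652)) p14_21_0 (nat_lit 3) (nat_lit 7) (nat_lit 8) = true := by decide +kernel
def p14_21_0_8 : pfC (piC [(nat_lit 33242365), (nat_lit 21715570), (nat_lit 14024239)] (nat_lit 16450652)) p14_21_0 (nat_lit 3) (nat_lit 8) (nat_lit 9) = true := by decide +kernel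
def p14_21_0_9 : pfC (piC [(nat_lit 33242365), (nat_lit 21715570), (nat_lit 14024239)] (nat_lit 16450652)) p14_21_0 (nat_lit 3) (nat_lit 9) (nat_lit 10) = true := by decide +kernel
def p14_21_0_10 : pfC (piC [(nat_lit 33242365), (nat_lit 21715570), (nat_lit 14024239)] (nat_lit 16450652)) p14_21_0 (nat_lit 3) (nat_lit 10) (nat_lit 11) = true := by decide +kernel
def p14_21_0_11 : pfC (piC [(nat_lit 33242365), (nat_lit 21715570), (nat_lit 14024239)] (nat_lit 16450652)) p14_21_0 (nat_lit 3) (nat_lit 11) (nat_lit 12) = true := by decide +kernel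
def p14_21_0_12 : pfC (piC [(nat_lit 33242365), (nat_lit 21715570), (nat_lit 14024239)] (nat_lit 16450652)) p14_21_0 (nat_lit 3) (nat_lit 12) (nat_lit 13) = true := by decide +kernel
def p14_21_0_13 : pfC (piC [(nat_lit 33242365), (nat_lit 21715570), (nat_lit 14024239)] (nat_lit 16450652)) p14_21_0 (nat_lit 3) (nat_lit 13) (nat_lit 14) = true := by decide +kernel
def p14_21_0_14 : pfC (piC [(nat_lit 33242365), (nat_lit 21715570), (nat_lit 14024239)] (nat_lit 16450652)) p14_21_0 (nat_lit 3) (nat_lit 14) (nat_lit 15) = true := by decide +kernel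
def p14_21_0_15 : pfC (piC [(nat_lit 33242365), (nat_lit 21715570), (nat_lit 14024239)] (nat_lit 16450652)) p14_21_0 (nat_lit 3) (nat_lit 15) (nat_lit 16) = true := by decide +kernel
def p14_21_0_16 : pfC (piC [(nat_lit 33242365), (nat_lit 21715570), (nat_lit 14024239)] (nat_lit 16450652)) p14_21_0 (nat_lit 3) (nat_lit 16) (nat_lit 17) = true := by decide +kernel
def p14_21_0_17 : pfC (piC [(nat_lit 33242365), (nat_lit 21715570), (nat_lit 14024239)] (nat_lit 16450652)) p14_21_0 (nat_lit 3) (nat_lit 17) (nat_lit 18) = true := by decide +kernel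
def p14_21_0_18 : pfC (piC [(nat_lit 33242365), (nat_lit 21715570), (nat_lit 14024239)] (nat_lit 16450652)) p14_21_0 (nat_lit 3) (nat_lit 18) (nat_lit 19) = true := by decide +kernel
def p14_21_0_19 : pfC (piC [(nat_lit 33242365), (nat_lit 21715570), (nat_lit 14024239)] (nat_lit 16450652)) p14_21_0 (nat_lit 3) (nat_lit 19) (nat_lit 20) = true := by decide +kernel
def p14_21_0_20 : pfC (piC [(nat_lit 33242365), (nat_lit 21715570), (nat_lit 14024239)] (nat_lit 16450652)) p14_21_0 (nat_lit 3) (nat_lit 20) (nat_lit 21) = true := by decide +kernel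
def p14_21_0_21 : pfC (piC [(nat_lit 33242365), (nat_lit 21715570), (nat_lit 14024239)] (nat_lit 16450652)) p14_21_0 (nat_lit 3) (nat_lit 21) (nat_lit 22) = true := by decide +kernel
def p14_21_0_22 : pfC (piC [(nat_lit 33242365), (nat_lit 21715570), (nat_lit 14024239)] (nat_lit 16450652)) p14_21_0 (nat_lit 3) (nat_lit 22) (nat_lit 23) = true := by decide +kernel
def p14_21_0_23 : pfC (piC [(nat_lit 33242365), (nat_lit 21715570), (nat_lit 14024239)] (nat_lit 16450652)) p14_21_0 (nat_lit 3) (nat_lit 23) (nat_lit 24) = true := by decide +kernel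
def p14_21_0_24 : pfC (piC [(nat_lit 33242365), (nat_lit 21715570), (nat_lit 14024239)] (nat_lit 16450652)) p14_21_0 (nat_lit 3) (nat_lit 24) (nat_lit 25) = true := by decide +kernel
def p14_21_0_25 : pfC (piC [(nat_lit 33242365), (nat_lit 21715570), (nat_lit 14024239)] (nat_lit 16450652)) p14_21_0 (nat_lit 3) (nat_lit 25) (nat_lit 26) = true := by decide +kernel
def p14_21_0_26 : pfC (piC [(nat_lit 33242365), (nat_lit 21715570), (nat_lit 14024239)] (nat_lit 16450652)) p14_21_0 (nat_lit 3) (nat_lit 26) (nat_lit 27) = true := by decide +kernel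
def p14_21_0_27 : pfC (piC [(nat_lit 33242365), (nat_lit 21715570), (nat_lit 14024239)] (nat_lit 16450652)) p14_21_0 (nat_lit 3) (nat_lit 27) (nat_lit 28) = true := by decide +kernel
def p14_21_0_28 : pfC (piC [(nat_lit 33242365), (nat_lit 21715570), (nat_lit 14024239)] (nat_lit 16450652)) p14_21_0 (nat_lit 3) (nat_lit 28) (nat_lit 29) = true := by decide +kernel
def p14_21_0_29 : pfC (piC [(nat_lit 33242365), (nat_lit 21715570), (nat_lit 14024239)] (nat_lit 16450652)) p14_21_0 (nat_lit 3) (nat_lit 29) (nat_lit 30) = true := by decide +kernel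
def p14_21_0_30 : pfC (piC [(nat_lit 33242365), (nat_lit 21715570), (nat_lit 14024239)] (nat_lit 16450652)) p14_21_0 (nat_lit 3) (nat_lit 30) (nat_lit 31) = true := by decide +kernel
def p14_21_0_31 : pfC (piC [(nat_lit 33242365), (nat_lit 21715570), (nat_lit 14024239)] (nat_lit 16450652)) p14_21_0 (nat_lit 3) (nat_lit 31) (nat_lit 32) = true := by decide +kernel
def p14_21_0_32 : pfC (piC [(nat_lit 33242365), (nat_lit 21715570), (nat_lit 14024239)] (nat_lit 16450652)) p14_21_0 (nat_lit 3) (nat_lit 32) (nat_lit 33) = true := by decide +kernel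
def p14_21_0_33 : pfC (piC [(nat_lit 33242365), (nat_lit 21715570), (nat_lit 14024239)] (nat_lit 16450652)) p14_21_0 (nat_lit 3) (nat_lit 33) (nat_lit 34) = true := by decide +kernel
def p14_21_0_34 : pfC (piC [(nat_lit 33242365), (nat_lit 21715570), (nat_lit 14024239)] (nat_lit 16450652)) p14_21_0 (nat_lit 3) (nat_lit 34) (nat_lit 35) = true := by decide +kernel
def p14_21_0_35 : pfC (piC [(nat_lit 33242365), (nat_lit 21715570), (nat_lit 14024239)] (nat_lit 16450652)) p14_21_0 (nat_lit 3) (nat_lit 35) (nat_lit 36) = true := by decide +kernel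
def p14_21_0_36 : pfC (piC [(nat_lit 33242365), (nat_lit 21715570), (nat_lit 14024239)] (nat_lit 16450652)) p14_21_0 (nat_lit 3) (nat_lit 36) (nat_lit 37) = true := by decide +kernel
def p14_21_0_37 : pfC (piC [(nat_lit 33242365), (nat_lit 21715570), (nat_lit 14024239)] (nat_lit 16450652)) p14_21_0 (nat_lit 3) (nat_lit 37) (nat_lit 38) = true := by decide +kernel
def p14_21_0_38 : pfC (piC [(nat_lit 33242365), (nat_lit 21715570), (nat_lit 14024239)] (nat_lit 16450652)) p14_21_0 (nat_lit 3) (nat_lit 38) (nat_lit 39) = true := by decide +kernel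
def p14_21_0_39 : pfC (piC [(nat_lit 33242365), (nat_lit 21715570), (nat_lit 14024239)] (nat_lit 16450652)) p14_21_0 (nat_lit 3) (nat_lit 39) (nat_lit 40) = true := by decide +kernel
def p14_21_0_40 : pfC (piC [(nat_lit 33242365), (nat_lit 21715570), (nat_lit 14024239)] (nat_lit 16450652)) p14_21_0 (nat_lit 3) (nat_lit 40) (nat_lit 41) = true := by decide +kernel
def p14_21_0_41 : pfC (piC [(nat_lit 33242365), (nat_lit 21715570), (nat_lit 14024239)] (nat_lit 16450652)) p14_21_0 (nat_lit 3) (nat_lit 41) (nat_lit 42) = true := by decide +kernel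
def p14_21_0_42 : pfC (piC [(nat_lit 33242365), (nat_lit 21715570), (nat_lit 14024239)] (nat_lit 16450652)) p14_21_0 (nat_lit 3) (nat_lit 42) (nat_lit 43) = true := by decide +kernel
def p14_21_0_43 : pfC (piC [(nat_lit 33242365), (nat_lit 21715570), (nat_lit 14024239)] (nat_lit 16450652)) p14_21_0 (nat_lit 3) (nat_lit 43) (nat_lit 44) = true := by decide +kernel
def p14_21_0_44 : pfC (piC [(nat_lit 33242365), (nat_lit 21715570), (nat_lit 14024239)] (nat_lit 16450652)) p14_21_0 (nat_lit 3) (nat_lit 44) (nat_lit 45) = true := by decide +kernel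
def p14_21_0_45 : pfC (piC [(nat_lit 33242365), (nat_lit 21715570), (nat_lit 14024239)] (nat_lit 16450652)) p14_21_0 (nat_lit 3) (nat_lit 45) (nat_lit 46) = true := by decide +kernel
def p14_21_0_46 : pfC (piC [(nat_lit 33242365), (nat_lit 21715570), (nat_lit 14024239)] (nat_lit 16450652)) p14_21_0 (nat_lit 3) (nat_lit 46) (nat_lit 47) = true := by decide +kernel
def p14_21_0_47 : pfC (piC [(nat_lit 33242365), (nat_lit 21715570), (nat_lit 14024239)] (nat_lit 16450652)) p14_21_0 (nat_lit 3) (nat_lit 47) (nat_lit 48) = true := by decide +kernel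
def p14_21_0_48 : pfC (piC [(nat_lit 33242365), (nat_lit 21715570), (nat_lit 14024239)] (nat_lit 16450652)) p14_21_0 (nat_lit 3) (nat_lit 48) (nat_lit 49) = true := by decide +kernel
def p14_21_0_49 : pfC (piC [(nat_lit 33242365), (nat_lit 21715570), (nat_lit 14024239)] (nat_lit 16450652)) p14_21_0 (nat_lit 3) (nat_lit 49) (nat_lit 50) = true := by decide +kernel
def p14_21_0_50 : pfC (piC [(nat_lit 33242365), (nat_lit 21715570), (nat_lit 14024239)] (nat_lit 16450652)) p14_21_0 (nat_lit 3) (nat_lit 50) (nat_lit 51) = true := by decide +kernel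
def p14_21_0_51 : pfC (piC [(nat_lit 33242365), (nat_lit 21715570), (nat_lit 14024239)] (nat_lit 16450652)) p14_21_0 (nat_lit 3) (nat_lit 51) (nat_lit 52) = true := by decide +kernel
def p14_21_0_52 : pfC (piC [(nat_lit 33242365), (nat_lit 21715570), (nat_lit 14024239)] (nat_lit 16450652)) p14_21_0 (nat_lit 3) (nat_lit 52) (nat_lit 53) = true := by decide +kernel
def p14_21_0_53 : pfC (piC [(nat_lit 33242365), (nat_lit 21715570), (nat_lit 14024239)] (nat_lit 16450652)) p14_21_0 (nat_lit 3) (nat_lit 53) (nat_lit 54) = true := by decide +kernel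
def p14_21_0_54 : pfC (piC [(nat_lit 33242365), (nat_lit 21715570), (nat_lit 14024239)] (nat_lit 16450652)) p14_21_0 (nat_lit 3) (nat_lit 54) (nat_lit 55) = true := by decide +kernel
def p14_21_0_55 : pfC (piC [(nat_lit 33242365), (nat_lit 21715570), (nat_lit 14024239)] (nat_lit 16450652)) p14_21_0 (nat_lit 3) (nat_lit 55) (nat_lit 56) = true := by decide +kernel
def p14_21_0_56 : pfC (piC [(nat_lit 33242365), (nat_lit 21715570), (nat_lit 14024239)] (nat_lit 16450652)) p14_21_0 (nat_lit 3) (nat_lit 56) (nat_lit 57) = true := by decide +kernel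
def p14_21_0_57 : pfC (piC [(nat_lit 33242365), (nat_lit 21715570), (nat_lit 14024239)] (nat_lit 16450652)) p14_21_0 (nat_lit 3) (nat_lit 57) (nat_lit 58) = true := by decide +kernel
def p14_21_0_58 : pfC (piC [(nat_lit 33242365), (nat_lit 21715570), (nat_lit 14024239)] (nat_lit 16450652)) p14_21_0 (nat_lit 3) (nat_lit 58) (nat_lit 59) = true := by decide +kernel
def p14_21_0_59 : pfC (piC [(nat_lit 33242365), (nat_lit 21715570), (nat_lit 14024239)] (nat_lit 16450652)) p14_21_0 (nat_lit 3) (nat_lit 59) (nat_lit 60) = true := by decide +kernel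
def p14_21_0_60 : pfC (piC [(nat_lit 33242365), (nat_lit 21715570), (nat_lit 14024239)] (nat_lit 16450652)) p14_21_0 (nat_lit 3) (nat_lit 60) (nat_lit 61) = true := by decide +kernel
def p14_21_0_61 : pfC (piC [(nat_lit 33242365), (nat_lit 21715570), (nat_lit 14024239)] (nat_lit 16450652)) p14_21_0 (nat_lit 3) (nat_lit 61) (nat_lit 62) = true := by decide +kernel
def p14_21_0_62 : pfC (piC [(nat_lit 33242365), (nat_lit 21715570), (nat_lit 14024239)] (nat_lit 16450652)) p14_21_0 (nat_lit 3) (nat_lit 62) (nat_lit 63) = true := by decide +kernel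
def p14_21_0_63 : pfC (piC [(nat_lit 33242365), (nat_lit 21715570), (nat_lit 14024239)] (nat_lit 16450652)) p14_21_0 (nat_lit 3) (nat_lit 63) (nat_lit 64) = true := by decide +kernel
def p14_21_0_64 : pfC (piC [(nat_lit 33242365), (nat_lit 21715570), (nat_lit 14024239)] (nat_lit 16450652)) p14_21_0 (nat_lit 3) (nat_lit 64) (nat_lit 65) = true := by decide +kernel
def p14_21_0_65 : pfC (piC [(nat_lit 33242365), (nat_lit 21715570), (nat_lit 14024239)] (nat_lit 16450652)) p14_21_0 (nat_lit 3) (nat_lit 65) (nat_lit 66) = true := by decide +kernel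
def p14_21_0_66 : pfC (piC [(nat_lit 33242365), (nat_lit 21715570), (nat_lit 14024239)] (nat_lit 16450652)) p14_21_0 (nat_lit 3) (nat_lit 66) (nat_lit 67) = true := by decide +kernel
def p14_21_0_67 : pfC (piC [(nat_lit 33242365), (nat_lit 21715570), (nat_lit 14024239)] (nat_lit 16450652)) p14_21_0 (nat_lit 3) (nat_lit 67) (nat_lit 68) = true := by decide +kernel
def p14_21_0_68 : pfC (piC [(nat_lit 33242365), (nat_lit 21715570), (nat_lit 14024239)] (nat_lit 16450652)) p14_21_0 (nat_lit 3) (nat_lit 68) (nat_lit 69) = true := by decide +kernel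
def p14_21_0_69 : pfC (piC [(nat_lit 33242365), (nat_lit 21715570), (nat_lit 14024239)] (nat_lit 16450652)) p14_21_0 (nat_lit 3) (nat_lit 69) (nat_lit 70) = true := by decide +kernel
def p14_21_0_70 : pfC (piC [(nat_lit 33242365), (nat_lit 21715570), (nat_lit 14024239)] (nat_lit 16450652)) p14_21_0 (nat_lit 3) (nat_lit 70) (nat_lit 71) = true := by decide +kernel
def p14_21_0_71 : pfC (piC [(nat_lit 33242365), (nat_lit 21715570), (nat_lit 14024239)] (nat_lit 16450652)) p14_21_0 (nat_lit 3) (nat_lit 71) (nat_lit 72) = true := by decide +kernel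
def p14_21_0_72 : pfC (piC [(nat_lit 33242365), (nat_lit 21715570), (nat_lit 14024239)] (nat_lit 16450652)) p14_21_0 (nat_lit 3) (nat_lit 72) (nat_lit 73) = true := by decide +kernel
def p14_21_0_73 : pfC (piC [(nat_lit 33242365), (nat_lit 21715570), (nat_lit 14024239)] (nat_lit 16450652)) p14_21_0 (nat_lit 3) (nat_lit 73) (nat_lit 74) = true := by decide +kernel
def p14_21_0_74 : pfC (piC [(nat_lit 33242365), (nat_lit 21715570), (nat_lit 14024239)] (nat_lit 16450652)) p14_21_0 (nat_lit 3) (nat_lit 74) (nat_lit 75) = true := by decide +kernel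
def p14_21_0_75 : pfC (piC [(nat_lit 33242365), (nat_lit 21715570), (nat_lit 14024239)] (nat_lit 16450652)) p14_21_0 (nat_lit 3) (nat_lit 75) (nat_lit 76) = true := by decide +kernel
def p14_21_0_76 : pfC (piC [(nat_lit 33242365), (nat_lit 21715570), (nat_lit 14024239)] (nat_lit 16450652)) p14_21_0 (nat_lit 3) (nat_lit 76) (nat_lit 77) = true := by decide +kernel
def p14_21_0_77 : pfC (piC [(nat_lit 33242365), (nat_lit 21715570), (nat_lit 14024239)] (nat_lit 16450652)) p14_21_0 (nat_lit 3) (nat_lit 77) (nat_lit 78) = true := by decide +kernel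
def p14_21_0_78 : pfC (piC [(nat_lit 33242365), (nat_lit 21715570), (nat_lit 14024239)] (nat_lit 16450652)) p14_21_0 (nat_lit 3) (nat_lit 78) (nat_lit 79) = true := by decide +kernel
def p14_21_0_79 : pfC (piC [(nat_lit 33242365), (nat_lit 21715570), (nat_lit 14024239)] (nat_lit 16450652)) p14_21_0 (nat_lit 3) (nat_lit 79) (nat_lit 80) = true := by decide +kernel
def p14_21_0_80 : pfC (piC [(nat_lit 33242365), (nat_lit 21715570), (nat_lit 14024239)] (nat_lit 16450652)) p14_21_0 (nat_lit 3) (nat_lit 80) (nat_lit 81) = true := by decide +kernel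
def p14_21_0_81 : pfC (piC [(nat_lit 33242365), (nat_lit 21715570), (nat_lit 14024239)] (nat_lit 16450652)) p14_21_0 (nat_lit 3) (nat_lit 81) (nat_lit 82) = true := by decide +kernel
def p14_21_0_82 : pfC (piC [(nat_lit 33242365), (nat_lit 21715570), (nat_lit 14024239)] (nat_lit 16450652)) p14_21_0 (nat_lit 3) (nat_lit 82) (nat_lit 83) = true := by decide +kernel
def p14_21_0_83 : pfC (piC [(nat_lit 33242365), (nat_lit 21715570), (nat_lit 14024239)] (nat_lit 16450652)) p14_21_0 (nat_lit 3) (nat_lit 83) (nat_lit 84) = true := by decide +kernel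
def p14_21_0_84 : pfC (piC [(nat_lit 33242365), (nat_lit 21715570), (nat_lit 14024239)] (nat_lit 16450652)) p14_21_0 (nat_lit 3) (nat_lit 84) (nat_lit 85) = true := by decide +kernel
def p14_21_0_85 : pfC (piC [(nat_lit 33242365), (nat_lit 21715570), (nat_lit 14024239)] (nat_lit 16450652)) p14_21_0 (nat_lit 3) (nat_lit 85) (nat_lit 86) = true := by decide +kernel
def p14_21_0_86 : pfC (piC [(nat_lit 33242365), (nat_lit 21715570), (nat_lit 14024239)] (nat_lit 16450652)) p14_21_0 (nat_lit 3) (nat_lit 86) (nat_lit 87) = true := by decide +kernel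
def p14_21_0_87 : pfC (piC [(nat_lit 33242365), (nat_lit 21715570), (nat_lit 14024239)] (nat_lit 16450652)) p14_21_0 (nat_lit 3) (nat_lit 87) (nat_lit 88) = true := by decide +kernel
def p14_21_0_88 : pfC (piC [(nat_lit 33242365), (nat_lit 21715570), (nat_lit 14024239)] (nat_lit 16450652)) p14_21_0 (nat_lit 3) (nat_lit 88) (nat_lit 89) = true := by decide +kernel
def p14_21_0_89 : pfC (piC [(nat_lit 33242365), (nat_lit 21715570), (nat_lit 14024239)] (nat_lit 16450652)) p14_21_0 (nat_lit 3) (nat_lit 89) (nat_lit 90) = true := by decide +kernel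
def p14_21_0_90 : pfC (piC [(nat_lit 33242365), (nat_lit 21715570), (nat_lit 14024239)] (nat_lit 16450652)) p14_21_0 (nat_lit 3) (nat_lit 90) (nat_lit 91) = true := by decide +kernel
def p14_21_0_91 : pfC (piC [(nat_lit 33242365), (nat_lit 21715570), (nat_lit 14024239)] (nat_lit 16450652)) p14_21_0 (nat_lit 3) (nat_lit 91) (nat_lit 92) = true := by decide +kernel
def p14_21_0_92 : pfC (piC [(nat_lit 33242365), (nat_lit 21715570), (nat_lit 14024239)] (nat_lit 16450652)) p14_21_0 (nat_lit 3) (nat_lit 92) (nat_lit 93) = true := by decide +kernel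
def p14_21_0_93 : pfC (piC [(nat_lit 33242365), (nat_lit 21715570), (nat_lit 14024239)] (nat_lit 16450652)) p14_21_0 (nat_lit 3) (nat_lit 93) (nat_lit 94) = true := by decide +kernel
def p14_21_0_94 : pfC (piC [(nat_lit 33242365), (nat_lit 21715570), (nat_lit 14024239)] (nat_lit 16450652)) p14_21_0 (nat_lit 3) (nat_lit 94) (nat_lit 95) = true := by decide +kernel
def p14_21_0_95 : pfC (piC [(nat_lit 33242365), (nat_lit 21715570), (nat_lit 14024239)] (nat_lit 16450652)) p14_21_0 (nat_lit 3) (nat_lit 95) (nat_lit 96) = true := by decide +kernel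
def p14_21_0_96 : pfC (piC [(nat_lit 33242365), (nat_lit 21715570), (nat_lit 14024239)] (nat_lit 16450652)) p14_21_0 (nat_lit 3) (nat_lit 96) (nat_lit 97) = true := by decide +kernel
def p14_21_0_97 : pfC (piC [(nat_lit 33242365), (nat_lit 21715570), (nat_lit 14024239)] (nat_lit 16450652)) p14_21_0 (nat_lit 3) (nat_lit 97) (nat_lit 98) = true := by decide +kernel
def p14_21_0_98 : pfC (piC [(nat_lit 33242365), (nat_lit 21715570), (nat_lit 14024239)] (nat_lit 16450652)) p14_21_0 (nat_lit 3) (nat_lit 98) (nat_lit 99) = true := by decide +kernel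
def p14_21_0_99 : pfC (piC [(nat_lit 33242365), (nat_lit 21715570), (nat_lit 14024239)] (nat_lit 16450652)) p14_21_0 (nat_lit 3) (nat_lit 99) (nat_lit 100) = true := by decide +kernel
def p14_21_0_100 : pfC (piC [(nat_lit 33242365), (nat_lit 21715570), (nat_lit 14024239)] (nat_lit 16450652)) p14_21_0 (nat_lit 3) (nat_lit 100) (nat_lit 101) = true := by decide +kernel
def p14_21_0_101 : pfC (piC [(nat_lit 33242365), (nat_lit 21715570), (nat_lit 14024239)] (nat_lit 16450652)) p14_21_0 (nat_lit 3) (nat_lit 101) (nat_lit 102) = true := by decide +kernel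
def p14_21_0_102 : pfC (piC [(nat_lit 33242365), (nat_lit 21715570), (nat_lit 14024239)] (nat_lit 16450652)) p14_21_0 (nat_lit 3) (nat_lit 102) (nat_lit 103) = true := by decide +kernel
def p14_21_0_103 : pfC (piC [(nat_lit 33242365), (nat_lit 21715570), (nat_lit 14024239)] (nat_lit 16450652)) p14_21_0 (nat_lit 3) (nat_lit 103) (nat_lit 104) = true := by decide +kernel
def p14_21_0_104 : pfC (piC [(nat_lit 33242365), (nat_lit 21715570), (nat_lit 14024239)] (nat_lit 16450652)) p14_21_0 (nat_lit 3) (nat_lit 104) (nat_lit 105) = true := by decide +kernel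
def p14_21_0_105 : pfC (piC [(nat_lit 33242365), (nat_lit 21715570), (nat_lit 14024239)] (nat_lit 16450652)) p14_21_0 (nat_lit 3) (nat_lit 105) (nat_lit 106) = true := by decide +kernel
def p14_21_0_106 : pfC (piC [(nat_lit 33242365), (nat_lit 21715570), (nat_lit 14024239)] (nat_lit 16450652)) p14_21_0 (nat_lit 3) (nat_lit 106) (nat_lit 107) = true := by decide +kernel
def p14_21_0_107 : pfC (piC [(nat_lit 33242365), (nat_lit 21715570), (nat_lit 14024239)] (nat_lit 16450652)) p14_21_0 (nat_lit 3) (nat_lit 107) (nat_lit 108) = true := by decide +kernel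
def p14_21_0_108 : pfC (piC [(nat_lit 33242365), (nat_lit 21715570), (nat_lit 14024239)] (nat_lit 16450652)) p14_21_0 (nat_lit 3) (nat_lit 108) (nat_lit 109) = true := by decide +kernel
def p14_21_0_109 : pfC (piC [(nat_lit 33242365), (nat_lit 21715570), (nat_lit 14024239)] (nat_lit 16450652)) p14_21_0 (nat_lit 3) (nat_lit 109) (nat_lit 110) = true := by decide +kernel
def p14_21_0_110 : pfC (piC [(nat_lit 33242365), (nat_lit 21715570), (nat_lit 14024239)] (nat_lit 16450652)) p14_21_0 (nat_lit 3) (nat_lit 110) (nat_lit 111) = true := by decide +kernel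
def p14_21_0_111 : pfC (piC [(nat_lit 33242365), (nat_lit 21715570), (nat_lit 14024239)] (nat_lit 16450652)) p14_21_0 (nat_lit 3) (nat_lit 111) (nat_lit 112) = true := by decide +kernel
def p14_21_0_112 : pfC (piC [(nat_lit 33242365), (nat_lit 21715570), (nat_lit 14024239)] (nat_lit 16450652)) p14_21_0 (nat_lit 3) (nat_lit 112) (nat_lit 113) = true := by decide +kernel
def p14_21_0_113 : pfC (piC [(nat_lit 33242365), (nat_lit 21715570), (nat_lit 14024239)] (nat_lit 16450652)) p14_21_0 (nat_lit 3) (nat_lit 113) (nat_lit 114) = true := by decide +kernel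
def p14_21_0_114 : pfC (piC [(nat_lit 33242365), (nat_lit 21715570), (nat_lit 14024239)] (nat_lit 16450652)) p14_21_0 (nat_lit 3) (nat_lit 114) (nat_lit 115) = true := by decide +kernel
def p14_21_0_115 : pfC (piC [(nat_lit 33242365), (nat_lit 21715570), (nat_lit 14024239)] (nat_lit 16450652)) p14_21_0 (nat_lit 3) (nat_lit 115) (nat_lit 116) = true := by decide +kernel
def p14_21_0_116 : pfC (piC [(nat_lit 33242365), (nat_lit 21715570), (nat_lit 14024239)] (nat_lit 16450652)) p14_21_0 (nat_lit 3) (nat_lit 116) (nat_lit 117) = true := by decide +kernel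
def p14_21_0_117 : pfC (piC [(nat_lit 33242365), (nat_lit 21715570), (nat_lit 14024239)] (nat_lit 16450652)) p14_21_0 (nat_lit 3) (nat_lit 117) (nat_lit 118) = true := by decide +kernel
def p14_21_0_118 : pfC (piC [(nat_lit 33242365), (nat_lit 21715570), (nat_lit 14024239)] (nat_lit 16450652)) p14_21_0 (nat_lit 3) (nat_lit 118) (nat_lit 119) = true := by decide +kernel
def p14_21_0_119 : pfC (piC [(nat_lit 33242365), (nat_lit 21715570), (nat_lit 14024239)] (nat_lit 16450652)) p14_21_0 (nat_lit 3) (nat_lit 119) (nat_lit 120) = true := by decide +kernel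
def p14_21_0_120 : pfC (piC [(nat_lit 33242365), (nat_lit 21715570), (nat_lit 14024239)] (nat_lit 16450652)) p14_21_0 (nat_lit 3) (nat_lit 120) (nat_lit 121) = true := by decide +kernel
def p14_21_0_121 : pfC (piC [(nat_lit 33242365), (nat_lit 21715570), (nat_lit 14024239)] (nat_lit 16450652)) p14_21_0 (nat_lit 3) (nat_lit 121) (nat_lit 122) = true := by decide +kernel
def p14_21_0_122 : pfC (piC [(nat_lit 33242365), (nat_lit 21715570), (nat_lit 14024239)] (nat_lit 16450652)) p14_21_0 (nat_lit 3) (nat_lit 122) (nat_lit 123) = true := by decide +kernel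
def p14_21_0_123 : pfC (piC [(nat_lit 33242365), (nat_lit 21715570), (nat_lit 14024239)] (nat_lit 16450652)) p14_21_0 (nat_lit 3) (nat_lit 123) (nat_lit 124) = true := by decide +kernel
def p14_21_0_124 : pfC (piC [(nat_lit 33242365), (nat_lit 21715570), (nat_lit 14024239)] (nat_lit 16450652)) p14_21_0 (nat_lit 3) (nat_lit 124) (nat_lit 125) = true := by decide +kernel
def p14_21_0_125 : pfC (piC [(nat_lit 33242365), (nat_lit 21715570), (nat_lit 14024239)] (nat_lit 16450652)) p14_21_0 (nat_lit 3) (nat_lit 125) (nat_lit 126) = true := by decide +kernel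
def p14_21_0_126 : pfC (piC [(nat_lit 33242365), (nat_lit 21715570), (nat_lit 14024239)] (nat_lit 16450652)) p14_21_0 (nat_lit 3) (nat_lit 126) (nat_lit 127) = true := by decide +kernel
def p14_21_0_127 : pfC (piC [(nat_lit 33242365), (nat_lit 21715570), (nat_lit 14024239)] (nat_lit 16450652)) p14_21_0 (nat_lit 3) (nat_lit 127) (nat_lit 128) = true := by decide +kernel
def p14_21_0_128 : pfC (piC [(nat_lit 33242365), (nat_lit 21715570), (nat_lit 14024239)] (nat_lit 16450652)) p14_21_0 (nat_lit 3) (nat_lit 128) (nat_lit 129) = true := by decide +kernel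
def p14_21_0_129 : pfC (piC [(nat_lit 33242365), (nat_lit 21715570), (nat_lit 14024239)] (nat_lit 16450652)) p14_21_0 (nat_lit 3) (nat_lit 129) (nat_lit 130) = true := by decide +kernel
def p14_21_0_130 : pfC (piC [(nat_lit 33242365), (nat_lit 21715570), (nat_lit 14024239)] (nat_lit 16450652)) p14_21_0 (nat_lit 3) (nat_lit 130) (nat_lit 131) = true := by decide +kernel
def p14_21_0_131 : pfC (piC [(nat_lit 33242365), (nat_lit 21715570), (nat_lit 14024239)] (nat_lit 16450652)) p14_21_0 (nat_lit 3) (nat_lit 131) (nat_lit 132) = true := by decide +kernel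
def p14_21_0_132 : pfC (piC [(nat_lit 33242365), (nat_lit 21715570), (nat_lit 14024239)] (nat_lit 16450652)) p14_21_0 (nat_lit 3) (nat_lit 132) (nat_lit 133) = true := by decide +kernel
def p14_21_0_133 : pfC (piC [(nat_lit 33242365), (nat_lit 21715570), (nat_lit 14024239)] (nat_lit 16450652)) p14_21_0 (nat_lit 3) (nat_lit 133) (nat_lit 134) = true := by decide +kernel
def p14_21_0_134 : pfC (piC [(nat_lit 33242365), (nat_lit 21715570), (nat_lit 14024239)] (nat_lit 16450652)) p14_21_0 (nat_lit 3) (nat_lit 134) (nat_lit 135) = true := by decide +kernel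
def p14_21_0_135 : pfC (piC [(nat_lit 33242365), (nat_lit 21715570), (nat_lit 14024239)] (nat_lit 16450652)) p14_21_0 (nat_lit 3) (nat_lit 135) (nat_lit 136) = true := by decide +kernel
def p14_21_0_136 : pfC (piC [(nat_lit 33242365), (nat_lit 21715570), (nat_lit 14024239)] (nat_lit 16450652)) p14_21_0 (nat_lit 3) (nat_lit 136) (nat_lit 137) = true := by decide +kernel
def p14_21_0_137 : pfC (piC [(nat_lit 33242365), (nat_lit 21715570), (nat_lit 14024239)] (nat_lit 16450652)) p14_21_0 (nat_lit 3) (nat_lit 137) (nat_lit 138) = true := by decide +kernel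
def p14_21_0_138 : pfC (piC [(nat_lit 33242365), (nat_lit 21715570), (nat_lit 14024239)] (nat_lit 16450652)) p14_21_0 (nat_lit 3) (nat_lit 138) (nat_lit 139) = true := by decide +kernel
def p14_21_0_139 : pfC (piC [(nat_lit 33242365), (nat_lit 21715570), (nat_lit 14024239)] (nat_lit 16450652)) p14_21_0 (nat_lit 3) (nat_lit 139) (nat_lit 140) = true := by decide +kernel
def p14_21_0_140 : pfC (piC [(nat_lit 33242365), (nat_lit 21715570), (nat_lit 14024239)] (nat_lit 16450652)) p14_21_0 (nat_lit 3) (nat_lit 140) (nat_lit 141) = true := by decide +kernel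
def p14_21_0_141 : pfC (piC [(nat_lit 33242365), (nat_lit 21715570), (nat_lit 14024239)] (nat_lit 16450652)) p14_21_0 (nat_lit 3) (nat_lit 141) (nat_lit 142) = true := by decide +kernel
def p14_21_0_142 : pfC (piC [(nat_lit 33242365), (nat_lit 21715570), (nat_lit 14024239)] (nat_lit 16450652)) p14_21_0 (nat_lit 3) (nat_lit 142) (nat_lit 143) = true := by decide +kernel
def p14_21_0_143 : pfC (piC [(nat_lit 33242365), (nat_lit 21715570), (nat_lit 14024239)] (nat_lit 16450652)) p14_21_0 (nat_lit 3) (nat_lit 143) (nat_lit 144) = true := by decide +kernel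
def p14_21_0_144 : pfC (piC [(nat_lit 33242365), (nat_lit 21715570), (nat_lit 14024239)] (nat_lit 16450652)) p14_21_0 (nat_lit 3) (nat_lit 144) (nat_lit 145) = true := by decide +kernel
def p14_21_0_145 : pfC (piC [(nat_lit 33242365), (nat_lit 21715570), (nat_lit 14024239)] (nat_lit 16450652)) p14_21_0 (nat_lit 3) (nat_lit 145) (nat_lit 146) = true := by decide +kernel
def p14_21_0_146 : pfC (piC [(nat_lit 33242365), (nat_lit 21715570), (nat_lit 14024239)] (nat_lit 16450652)) p14_21_0 (nat_lit 3) (nat_lit 146) (nat_lit 147) = true := by decide +kernel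
def p14_21_0_147 : pfC (piC [(nat_lit 33242365), (nat_lit 21715570), (nat_lit 14024239)] (nat_lit 16450652)) p14_21_0 (nat_lit 3) (nat_lit 147) (nat_lit 148) = true := by decide +kernel
def p14_21_0_148 : pfC (piC [(nat_lit 33242365), (nat_lit 21715570), (nat_lit 14024239)] (nat_lit 16450652)) p14_21_0 (nat_lit 3) (nat_lit 148) (nat_lit 149) = true := by decide +kernel
def p14_21_0_149 : pfC (piC [(nat_lit 33242365), (nat_lit 21715570), (nat_lit 14024239)] (nat_lit 16450652)) p14_21_0 (nat_lit 3) (nat_lit 149) (nat_lit 150) = true := by decide +kernel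
def p14_21_0_150 : pfC (piC [(nat_lit 33242365), (nat_lit 21715570), (nat_lit 14024239)] (nat_lit 16450652)) p14_21_0 (nat_lit 3) (nat_lit 150) (nat_lit 151) = true := by decide +kernel
def p14_21_0_151 : pfC (piC [(nat_lit 33242365), (nat_lit 21715570), (nat_lit 14024239)] (nat_lit 16450652)) p14_21_0 (nat_lit 3) (nat_lit 151) (nat_lit 152) = true := by decide +kernel
def p14_21_0_152 : pfC (piC [(nat_lit 33242365), (nat_lit 21715570), (nat_lit 14024239)] (nat_lit 16450652)) p14_21_0 (nat_lit 3) (nat_lit 152) (nat_lit 153) = true := by decide +kernel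
def p14_21_0_153 : pfC (piC [(nat_lit 33242365), (nat_lit 21715570), (nat_lit 14024239)] (nat_lit 16450652)) p14_21_0 (nat_lit 3) (nat_lit 153) (nat_lit 154) = true := by decide +kernel
def p14_21_0_154 : pfC (piC [(nat_lit 33242365), (nat_lit 21715570), (nat_lit 14024239)] (nat_lit 16450652)) p14_21_0 (nat_lit 3) (nat_lit 154) (nat_lit 155) = true := by decide +kernel
def p14_21_0_155 : pfC (piC [(nat_lit 33242365), (nat_lit 21715570), (nat_lit 14024239)] (nat_lit 16450652)) p14_21_0 (nat_lit 3) (nat_lit 155) (nat_lit 156) = true := by decide +kernel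
def p14_21_0_156 : pfC (piC [(nat_lit 33242365), (nat_lit 21715570), (nat_lit 14024239)] (nat_lit 16450652)) p14_21_0 (nat_lit 3) (nat_lit 156) (nat_lit 157) = true := by decide +kernel
def p14_21_0_157 : pfC (piC [(nat_lit 33242365), (nat_lit 21715570), (nat_lit 14024239)] (nat_lit 16450652)) p14_21_0 (nat_lit 3) (nat_lit 157) (nat_lit 158) = true := by decide +kernel
def p14_21_0_158 : pfC (piC [(nat_lit 33242365), (nat_lit 21715570), (nat_lit 14024239)] (nat_lit 16450652)) p14_21_0 (nat_lit 3) (nat_lit 158) (nat_lit 159) = true := by decide +kernel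
def p14_21_0_159 : pfC (piC [(nat_lit 33242365), (nat_lit 21715570), (nat_lit 14024239)] (nat_lit 16450652)) p14_21_0 (nat_lit 3) (nat_lit 159) (nat_lit 160) = true := by decide +kernel
def p14_21_0_160 : pfC (piC [(nat_lit 33242365), (nat_lit 21715570), (nat_lit 14024239)] (nat_lit 16450652)) p14_21_0 (nat_lit 3) (nat_lit 160) (nat_lit 161) = true := by decide +kernel
def p14_21_0_161 : pfC (piC [(nat_lit 33242365), (nat_lit 21715570), (nat_lit 14024239)] (nat_lit 16450652)) p14_21_0 (nat_lit 3) (nat_lit 161) (nat_lit 162) = true := by decide +kernel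
def p14_21_0_162 : pfC (piC [(nat_lit 33242365), (nat_lit 21715570), (nat_lit 14024239)] (nat_lit 16450652)) p14_21_0 (nat_lit 3) (nat_lit 162) (nat_lit 163) = true := by decide +kernel
def p14_21_0_163 : pfC (piC [(nat_lit 33242365), (nat_lit 21715570), (nat_lit 14024239)] (nat_lit 16450652)) p14_21_0 (nat_lit 3) (nat_lit 163) (nat_lit 164) = true := by decide +kernel
def p14_21_0_164 : pfC (piC [(nat_lit 33242365), (nat_lit 21715570), (nat_lit 14024239)] (nat_lit 16450652)) p14_21_0 (nat_lit 3) (nat_lit 164) (nat_lit 165) = true := by decide +kernel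
def p14_21_0_165 : pfC (piC [(nat_lit 33242365), (nat_lit 21715570), (nat_lit 14024239)] (nat_lit 16450652)) p14_21_0 (nat_lit 3) (nat_lit 165) (nat_lit 166) = true := by decide +kernel
def p14_21_0_166 : pfC (piC [(nat_lit 33242365), (nat_lit 21715570), (nat_lit 14024239)] (nat_lit 16450652)) p14_21_0 (nat_lit 3) (nat_lit 166) (nat_lit 167) = true := by decide +kernel
def p14_21_0_167 : pfC (piC [(nat_lit 33242365), (nat_lit 21715570), (nat_lit 14024239)] (nat_lit 16450652)) p14_21_0 (nat_lit 3) (nat_lit 167) (nat_lit 168) = true := by decide +kernel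
def p14_21_0_168 : pfC (piC [(nat_lit 33242365), (nat_lit 21715570), (nat_lit 14024239)] (nat_lit 16450652)) p14_21_0 (nat_lit 3) (nat_lit 168) (nat_lit 169) = true := by decide +kernel
def p14_21_0_169 : pfC (piC [(nat_lit 33242365), (nat_lit 21715570), (nat_lit 14024239)] (nat_lit 16450652)) p14_21_0 (nat_lit 3) (nat_lit 169) (nat_lit 170) = true := by decide +kernel
def p14_21_0_170 : pfC (piC [(nat_lit 33242365), (nat_lit 21715570), (nat_lit 14024239)] (nat_lit 16450652)) p14_21_0 (nat_lit 3) (nat_lit 170) (nat_lit 171) = true := by decide +kernel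
def p14_21_0_171 : pfC (piC [(nat_lit 33242365), (nat_lit 21715570), (nat_lit 14024239)] (nat_lit 16450652)) p14_21_0 (nat_lit 3) (nat_lit 171) (nat_lit 172) = true := by decide +kernel
def p14_21_0_172 : pfC (piC [(nat_lit 33242365), (nat_lit 21715570), (nat_lit 14024239)] (nat_lit 16450652)) p14_21_0 (nat_lit 3) (nat_lit 172) (nat_lit 173) = true := by decide +kernel
def p14_21_0_173 : pfC (piC [(nat_lit 33242365), (nat_lit 21715570), (nat_lit 14024239)] (nat_lit 16450652)) p14_21_0 (nat_lit 3) (nat_lit 173) (nat_lit 174) = true := by decide +kernel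
def p14_21_0_174 : pfC (piC [(nat_lit 33242365), (nat_lit 21715570), (nat_lit 14024239)] (nat_lit 16450652)) p14_21_0 (nat_lit 3) (nat_lit 174) (nat_lit 175) = true := by decide +kernel
def p14_21_0_175 : pfC (piC [(nat_lit 33242365), (nat_lit 21715570), (nat_lit 14024239)] (nat_lit 16450652)) p14_21_0 (nat_lit 3) (nat_lit 175) (nat_lit 176) = true := by decide +kernel
def p14_21_0_176 : pfC (piC [(nat_lit 33242365), (nat_lit 21715570), (nat_lit 14024239)] (nat_lit 16450652)) p14_21_0 (nat_lit 3) (nat_lit 176) (nat_lit 177) = true := by decide +kernel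
def p14_21_0_177 : pfC (piC [(nat_lit 33242365), (nat_lit 21715570), (nat_lit 14024239)] (nat_lit 16450652)) p14_21_0 (nat_lit 3) (nat_lit 177) (nat_lit 178) = true := by decide +kernel
def p14_21_0_178 : pfC (piC [(nat_lit 33242365), (nat_lit 21715570), (nat_lit 14024239)] (nat_lit 16450652)) p14_21_0 (nat_lit 3) (nat_lit 178) (nat_lit 179) = true := by decide +kernel
def p14_21_0_179 : pfC (piC [(nat_lit 33242365), (nat_lit 21715570), (nat_lit 14024239)] (nat_lit 16450652)) p14_21_0 (nat_lit 3) (nat_lit 179) (nat_lit 180) = true := by decide +kernel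
def p14_21_0_180 : pfC (piC [(nat_lit 33242365), (nat_lit 21715570), (nat_lit 14024239)] (nat_lit 16450652)) p14_21_0 (nat_lit 3) (nat_lit 180) (nat_lit 181) = true := by decide +kernel
def p14_21_0_181 : pfC (piC [(nat_lit 33242365), (nat_lit 21715570), (nat_lit 14024239)] (nat_lit 16450652)) p14_21_0 (nat_lit 3) (nat_lit 181) (nat_lit 182) = true := by decide +kernel
def p14_21_0_182 : pfC (piC [(nat_lit 33242365), (nat_lit 21715570), (nat_lit 14024239)] (nat_lit 16450652)) p14_21_0 (nat_lit 3) (nat_lit 182) (nat_lit 183) = true := by decide +kernel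
def p14_21_0_183 : pfC (piC [(nat_lit 33242365), (nat_lit 21715570), (nat_lit 14024239)] (nat_lit 16450652)) p14_21_0 (nat_lit 3) (nat_lit 183) (nat_lit 184) = true := by decide +kernel
def p14_21_0_184 : pfC (piC [(nat_lit 33242365), (nat_lit 21715570), (nat_lit 14024239)] (nat_lit 16450652)) p14_21_0 (nat_lit 3) (nat_lit 184) (nat_lit 185) = true := by decide +kernel
def p14_21_0_185 : pfC (piC [(nat_lit 33242365), (nat_lit 21715570), (nat_lit 14024239)] (nat_lit 16450652)) p14_21_0 (nat_lit 3) (nat_lit 185) (nat_lit 186) = true := by decide +kernel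
def p14_21_0_186 : pfC (piC [(nat_lit 33242365), (nat_lit 21715570), (nat_lit 14024239)] (nat_lit 16450652)) p14_21_0 (nat_lit 3) (nat_lit 186) (nat_lit 187) = true := by decide +kernel
def p14_21_0_187 : pfC (piC [(nat_lit 33242365), (nat_lit 21715570), (nat_lit 14024239)] (nat_lit 16450652)) p14_21_0 (nat_lit 3) (nat_lit 187) (nat_lit 188) = true := by decide +kernel
def p14_21_0_188 : pfC (piC [(nat_lit 33242365), (nat_lit 21715570), (nat_lit 14024239)] (nat_lit 16450652)) p14_21_0 (nat_lit 3) (nat_lit 188) (nat_lit 189) = true := by decide +kernel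
def p14_21_0_189 : pfC (piC [(nat_lit 33242365), (nat_lit 21715570), (nat_lit 14024239)] (nat_lit 16450652)) p14_21_0 (nat_lit 3) (nat_lit 189) (nat_lit 190) = true := by decide +kernel
def p14_21_0_190 : pfC (piC [(nat_lit 33242365), (nat_lit 21715570), (nat_lit 14024239)] (nat_lit 16450652)) p14_21_0 (nat_lit 3) (nat_lit 190) (nat_lit 191) = true := by decide +kernel
def p14_21_0_191 : pfC (piC [(nat_lit 33242365), (nat_lit 21715570), (nat_lit 14024239)] (nat_lit 16450652)) p14_21_0 (nat_lit 3) (nat_lit 191) (nat_lit 192) = true := by decide +kernel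
def p14_21_0_192 : pfC (piC [(nat_lit 33242365), (nat_lit 21715570), (nat_lit 14024239)] (nat_lit 16450652)) p14_21_0 (nat_lit 3) (nat_lit 192) (nat_lit 193) = true := by decide +kernel
def p14_21_0_193 : pfC (piC [(nat_lit 33242365), (nat_lit 21715570), (nat_lit 14024239)] (nat_lit 16450652)) p14_21_0 (nat_lit 3) (nat_lit 193) (nat_lit 194) = true := by decide +kernel
def p14_21_0_194 : pfC (piC [(nat_lit 33242365), (nat_lit 21715570), (nat_lit 14024239)] (nat_lit 16450652)) p14_21_0 (nat_lit 3) (nat_lit 194) (nat_lit 195) = true := by decide +kernel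
def p14_21_0_195 : pfC (piC [(nat_lit 33242365), (nat_lit 21715570), (nat_lit 14024239)] (nat_lit 16450652)) p14_21_0 (nat_lit 3) (nat_lit 195) (nat_lit 196) = true := by decide +kernel
def p14_21_0_196 : pfC (piC [(nat_lit 33242365), (nat_lit 21715570), (nat_lit 14024239)] (nat_lit 16450652)) p14_21_0 (nat_lit 3) (nat_lit 196) (nat_lit 197) = true := by decide +kernel
def p14_21_0_197 : pfC (piC [(nat_lit 33242365), (nat_lit 21715570), (nat_lit 14024239)] (nat_lit 16450652)) p14_21_0 (nat_lit 3) (nat_lit 197) (nat_lit 198) = true := by decide +kernel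
def p14_21_0_198 : pfC (piC [(nat_lit 33242365), (nat_lit 21715570), (nat_lit 14024239)] (nat_lit 16450652)) p14_21_0 (nat_lit 3) (nat_lit 198) (nat_lit 199) = true := by decide +kernel
def p14_21_0_199 : pfC (piC [(nat_lit 33242365), (nat_lit 21715570), (nat_lit 14024239)] (nat_lit 16450652)) p14_21_0 (nat_lit 3) (nat_lit 199) (nat_lit 200) = true := by decide +kernel
def p14_21_0_200 : pfC (piC [(nat_lit 33242365), (nat_lit 21715570), (nat_lit 14024239)] (nat_lit 16450652)) p14_21_0 (nat_lit 3) (nat_lit 200) (nat_lit 201) = true := by decide +kernel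
def p14_21_0_201 : pfC (piC [(nat_lit 33242365), (nat_lit 21715570), (nat_lit 14024239)] (nat_lit 16450652)) p14_21_0 (nat_lit 3) (nat_lit 201) (nat_lit 202) = true := by decide +kernel
def p14_21_0_202 : pfC (piC [(nat_lit 33242365), (nat_lit 21715570), (nat_lit 14024239)] (nat_lit 16450652)) p14_21_0 (nat_lit 3) (nat_lit 202) (nat_lit 203) = true := by decide +kernel
def p14_21_0_203 : pfC (piC [(nat_lit 33242365), (nat_lit 21715570), (nat_lit 14024239)] (nat_lit 16450652)) p14_21_0 (nat_lit 3) (nat_lit 203) (nat_lit 204) = true := by decide +kernel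
def p14_21_0_204 : pfC (piC [(nat_lit 33242365), (nat_lit 21715570), (nat_lit 14024239)] (nat_lit 16450652)) p14_21_0 (nat_lit 3) (nat_lit 204) (nat_lit 205) = true := by decide +kernel
def p14_21_0_205 : pfC (piC [(nat_lit 33242365), (nat_lit 21715570), (nat_lit 14024239)] (nat_lit 16450652)) p14_21_0 (nat_lit 3) (nat_lit 205) (nat_lit 206) = true := by decide +kernel
def p14_21_0_206 : pfC (piC [(nat_lit 33242365), (nat_lit 21715570), (nat_lit 14024239)] (nat_lit 16450652)) p14_21_0 (nat_lit 3) (nat_lit 206) (nat_lit 207) = true := by decide +kernel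
def p14_21_0_207 : pfC (piC [(nat_lit 33242365), (nat_lit 21715570), (nat_lit 14024239)] (nat_lit 16450652)) p14_21_0 (nat_lit 3) (nat_lit 207) (nat_lit 208) = true := by decide +kernel
def p14_21_0_208 : pfC (piC [(nat_lit 33242365), (nat_lit 21715570), (nat_lit 14024239)] (nat_lit 16450652)) p14_21_0 (nat_lit 3) (nat_lit 208) (nat_lit 209) = true := by decide +kernel
def p14_21_0_209 : pfC (piC [(nat_lit 33242365), (nat_lit 21715570), (nat_lit 14024239)] (nat_lit 16450652)) p14_21_0 (nat_lit 3) (nat_lit 209) (nat_lit 210) = true := by decide +kernel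
def p14_21_0_210 : pfC (piC [(nat_lit 33242365), (nat_lit 21715570), (nat_lit 14024239)] (nat_lit 16450652)) p14_21_0 (nat_lit 3) (nat_lit 210) (nat_lit 211) = true := by decide +kernel
def p14_21_0_211 : pfC (piC [(nat_lit 33242365), (nat_lit 21715570), (nat_lit 14024239)] (nat_lit 16450652)) p14_21_0 (nat_lit 3) (nat_lit 211) (nat_lit 212) = true := by decide +kernel
def p14_21_0_212 : pfC (piC [(nat_lit 33242365), (nat_lit 21715570), (nat_lit 14024239)] (nat_lit 16450652)) p14_21_0 (nat_lit 3) (nat_lit 212) (nat_lit 213) = true := by decide +kernel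
def p14_21_0_213 : pfC (piC [(nat_lit 33242365), (nat_lit 21715570), (nat_lit 14024239)] (nat_lit 16450652)) p14_21_0 (nat_lit 3) (nat_lit 213) (nat_lit 214) = true := by decide +kernel
def p14_21_0_214 : pfC (piC [(nat_lit 33242365), (nat_lit 21715570), (nat_lit 14024239)] (nat_lit 16450652)) p14_21_0 (nat_lit 3) (nat_lit 214) (nat_lit 215) = true := by decide +kernel
def p14_21_0_215 : pfC (piC [(nat_lit 33242365), (nat_lit 21715570), (nat_lit 14024239)] (nat_lit 16450652)) p14_21_0 (nat_lit 3) (nat_lit 215) (nat_lit 216) = true := by decide +kernel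
def p14_21_0_216 : pfC (piC [(nat_lit 33242365), (nat_lit 21715570), (nat_lit 14024239)] (nat_lit 16450652)) p14_21_0 (nat_lit 3) (nat_lit 216) (nat_lit 217) = true := by decide +kernel
def p14_21_0_217 : pfC (piC [(nat_lit 33242365), (nat_lit 21715570), (nat_lit 14024239)] (nat_lit 16450652)) p14_21_0 (nat_lit 3) (nat_lit 217) (nat_lit 218) = true := by decide +kernel
def p14_21_0_218 : pfC (piC [(nat_lit 33242365), (nat_lit 21715570), (nat_lit 14024239)] (nat_lit 16450652)) p14_21_0 (nat_lit 3) (nat_lit 218) (nat_lit 219) = true := by decide +kernel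
def p14_21_0_219 : pfC (piC [(nat_lit 33242365), (nat_lit 21715570), (nat_lit 14024239)] (nat_lit 16450652)) p14_21_0 (nat_lit 3) (nat_lit 219) (nat_lit 220) = true := by decide +kernel
def p14_21_0_220 : pfC (piC [(nat_lit 33242365), (nat_lit 21715570), (nat_lit 14024239)] (nat_lit 16450652)) p14_21_0 (nat_lit 3) (nat_lit 220) (nat_lit 221) = true := by decide +kernel
def p14_21_0_221 : pfC (piC [(nat_lit 33242365), (nat_lit 21715570), (nat_lit 14024239)] (nat_lit 16450652)) p14_21_0 (nat_lit 3) (nat_lit 221) (nat_lit 222) = true := by decide +kernel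
def p14_21_0_222 : pfC (piC [(nat_lit 33242365), (nat_lit 21715570), (nat_lit 14024239)] (nat_lit 16450652)) p14_21_0 (nat_lit 3) (nat_lit 222) (nat_lit 223) = true := by decide +kernel
def p14_21_0_223 : pfC (piC [(nat_lit 33242365), (nat_lit 21715570), (nat_lit 14024239)] (nat_lit 16450652)) p14_21_0 (nat_lit 3) (nat_lit 223) (nat_lit 224) = true := by decide +kernel
def p14_21_0_224 : pfC (piC [(nat_lit 33242365), (nat_lit 21715570), (nat_lit 14024239)] (nat_lit 16450652)) p14_21_0 (nat_lit 3) (nat_lit 224) (nat_lit 225) = true := by decide +kernel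
def p14_21_0_225 : pfC (piC [(nat_lit 33242365), (nat_lit 21715570), (nat_lit 14024239)] (nat_lit 16450652)) p14_21_0 (nat_lit 3) (nat_lit 225) (nat_lit 226) = true := by decide +kernel
def p14_21_0_226 : pfC (piC [(nat_lit 33242365), (nat_lit 21715570), (nat_lit 14024239)] (nat_lit 16450652)) p14_21_0 (nat_lit 3) (nat_lit 226) (nat_lit 227) = true := by decide +kernel
def p14_21_0_227 : pfC (piC [(nat_lit 33242365), (nat_lit 21715570), (nat_lit 14024239)] (nat_lit 16450652)) p14_21_0 (nat_lit 3) (nat_lit 227) (nat_lit 228) = true := by decide +kernel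
def p14_21_0_228 : pfC (piC [(nat_lit 33242365), (nat_lit 21715570), (nat_lit 14024239)] (nat_lit 16450652)) p14_21_0 (nat_lit 3) (nat_lit 228) (nat_lit 229) = true := by decide +kernel
def p14_21_0_229 : pfC (piC [(nat_lit 33242365), (nat_lit 21715570), (nat_lit 14024239)] (nat_lit 16450652)) p14_21_0 (nat_lit 3) (nat_lit 229) (nat_lit 230) = true := by decide +kernel
def p14_21_0_230 : pfC (piC [(nat_lit 33242365), (nat_lit 21715570), (nat_lit 14024239)] (nat_lit 16450652)) p14_21_0 (nat_lit 3) (nat_lit 230) (nat_lit 231) = true := by decide +kernel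
def p14_21_0_231 : pfC (piC [(nat_lit 33242365), (nat_lit 21715570), (nat_lit 14024239)] (nat_lit 16450652)) p14_21_0 (nat_lit 3) (nat_lit 231) (nat_lit 232) = true := by decide +kernel
def p14_21_0_232 : pfC (piC [(nat_lit 33242365), (nat_lit 21715570), (nat_lit 14024239)] (nat_lit 16450652)) p14_21_0 (nat_lit 3) (nat_lit 232) (nat_lit 233) = true := by decide +kernel
def p14_21_0_233 : pfC (piC [(nat_lit 33242365), (nat_lit 21715570), (nat_lit 14024239)] (nat_lit 16450652)) p14_21_0 (nat_lit 3) (nat_lit 233) (nat_lit 234) = true := by decide +kernel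
def p14_21_0_234 : pfC (piC [(nat_lit 33242365), (nat_lit 21715570), (nat_lit 14024239)] (nat_lit 16450652)) p14_21_0 (nat_lit 3) (nat_lit 234) (nat_lit 235) = true := by decide +kernel
def p14_21_0_235 : pfC (piC [(nat_lit 33242365), (nat_lit 21715570), (nat_lit 14024239)] (nat_lit 16450652)) p14_21_0 (nat_lit 3) (nat_lit 235) (nat_lit 236) = true := by decide +kernel
def p14_21_0_236 : pfC (piC [(nat_lit 33242365), (nat_lit 21715570), (nat_lit 14024239)] (nat_lit 16450652)) p14_21_0 (nat_lit 3) (nat_lit 236) (nat_lit 237) = true := by decide +kernel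
def p14_21_0_237 : pfC (piC [(nat_lit 33242365), (nat_lit 21715570), (nat_lit 14024239)] (nat_lit 16450652)) p14_21_0 (nat_lit 3) (nat_lit 237) (nat_lit 238) = true := by decide +kernel
def p14_21_0_238 : pfC (piC [(nat_lit 33242365), (nat_lit 21715570), (nat_lit 14024239)] (nat_lit 16450652)) p14_21_0 (nat_lit 3) (nat_lit 238) (nat_lit 239) = true := by decide +kernel
def p14_21_0_239 : pfC (piC [(nat_lit 33242365), (nat_lit 21715570), (nat_lit 14024239)] (nat_lit 16450652)) p14_21_0 (nat_lit 3) (nat_lit 239) (nat_lit 240) = true := by decide +kernel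
def p14_21_0_240 : pfC (piC [(nat_lit 33242365), (nat_lit 21715570), (nat_lit 14024239)] (nat_lit 16450652)) p14_21_0 (nat_lit 3) (nat_lit 240) (nat_lit 241) = true := by decide +kernel
def p14_21_0_241 : pfC (piC [(nat_lit 33242365), (nat_lit 21715570), (nat_lit 14024239)] (nat_lit 16450652)) p14_21_0 (nat_lit 3) (nat_lit 241) (nat_lit 242) = true := by decide +kernel
def p14_21_0_242 : pfC (piC [(nat_lit 33242365), (nat_lit 21715570), (nat_lit 14024239)] (nat_lit 16450652)) p14_21_0 (nat_lit 3) (nat_lit 242) (nat_lit 243) = true := by decide +kernel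
def p14_21_0_243 : pfC (piC [(nat_lit 33242365), (nat_lit 21715570), (nat_lit 14024239)] (nat_lit 16450652)) p14_21_0 (nat_lit 3) (nat_lit 243) (nat_lit 244) = true := by decide +kernel
def p14_21_0_244 : pfC (piC [(nat_lit 33242365), (nat_lit 21715570), (nat_lit 14024239)] (nat_lit 16450652)) p14_21_0 (nat_lit 3) (nat_lit 244) (nat_lit 245) = true := by decide +kernel
def p14_21_0_245 : pfC (piC [(nat_lit 33242365), (nat_lit 21715570), (nat_lit 14024239)] (nat_lit 16450652)) p14_21_0 (nat_lit 3) (nat_lit 245) (nat_lit 246) = true := by decide +kernel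
def p14_21_0_246 : pfC (piC [(nat_lit 33242365), (nat_lit 21715570), (nat_lit 14024239)] (nat_lit 16450652)) p14_21_0 (nat_lit 3) (nat_lit 246) (nat_lit 247) = true := by decide +kernel
def p14_21_0_247 : pfC (piC [(nat_lit 33242365), (nat_lit 21715570), (nat_lit 14024239)] (nat_lit 16450652)) p14_21_0 (nat_lit 3) (nat_lit 247) (nat_lit 248) = true := by decide +kernel
def p14_21_0_248 : pfC (piC [(nat_lit 33242365), (nat_lit 21715570), (nat_lit 14024239)] (nat_lit 16450652)) p14_21_0 (nat_lit 3) (nat_lit 248) (nat_lit 249) = true := by decide +kernel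
def p14_21_0_249 : pfC (piC [(nat_lit 33242365), (nat_lit 21715570), (nat_lit 14024239)] (nat_lit 16450652)) p14_21_0 (nat_lit 3) (nat_lit 249) (nat_lit 250) = true := by decide +kernel
def p14_21_0_250 : pfC (piC [(nat_lit 33242365), (nat_lit 21715570), (nat_lit 14024239)] (nat_lit 16450652)) p14_21_0 (nat_lit 3) (nat_lit 250) (nat_lit 251) = true := by decide +kernel
def p14_21_0_251 : pfC (piC [(nat_lit 33242365), (nat_lit 21715570), (nat_lit 14024239)] (nat_lit 16450652)) p14_21_0 (nat_lit 3) (nat_lit 251) (nat_lit 252) = true := by decide +kernel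
def p14_21_0_252 : pfC (piC [(nat_lit 33242365), (nat_lit 21715570), (nat_lit 14024239)] (nat_lit 16450652)) p14_21_0 (nat_lit 3) (nat_lit 252) (nat_lit 253) = true := by decide +kernel
def p14_21_0_253 : pfC (piC [(nat_lit 33242365), (nat_lit 21715570), (nat_lit 14024239)] (nat_lit 16450652)) p14_21_0 (nat_lit 3) (nat_lit 253) (nat_lit 254) = true := by decide +kernel
def p14_21_0_254 : pfC (piC [(nat_lit 33242365), (nat_lit 21715570), (nat_lit 14024239)] (nat_lit 16450652)) p14_21_0 (nat_lit 3) (nat_lit 254) (nat_lit 255) = true := by decide +kernel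
def p14_21_0_255 : pfC (piC [(nat_lit 33242365), (nat_lit 21715570), (nat_lit 14024239)] (nat_lit 16450652)) p14_21_0 (nat_lit 3) (nat_lit 255) (nat_lit 256) = true := by decide +kernel
def p14_21_0_256 : pfC (piC [(nat_lit 33242365), (nat_lit 21715570), (nat_lit 14024239)] (nat_lit 16450652)) p14_21_0 (nat_lit 3) (nat_lit 256) (nat_lit 257) = true := by decide +kernel
def p14_21_0_257 : pfC (piC [(nat_lit 33242365), (nat_lit 21715570), (nat_lit 14024239)] (nat_lit 16450652)) p14_21_0 (nat_lit 3) (nat_lit 257) (nat_lit 258) = true := by decide +kernel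
def p14_21_0_258 : pfC (piC [(nat_lit 33242365), (nat_lit 21715570), (nat_lit 14024239)] (nat_lit 16450652)) p14_21_0 (nat_lit 3) (nat_lit 258) (nat_lit 259) = true := by decide +kernel
def p14_21_0_259 : pfC (piC [(nat_lit 33242365), (nat_lit 21715570), (nat_lit 14024239)] (nat_lit 16450652)) p14_21_0 (nat_lit 3) (nat_lit 259) (nat_lit 260) = true := by decide +kernel
def p14_21_0_260 : pfC (piC [(nat_lit 33242365), (nat_lit 21715570), (nat_lit 14024239)] (nat_lit 16450652)) p14_21_0 (nat_lit 3) (nat_lit 260) (nat_lit 261) = true := by decide +kernel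
def p14_21_0_261 : pfC (piC [(nat_lit 33242365), (nat_lit 21715570), (nat_lit 14024239)] (nat_lit 16450652)) p14_21_0 (nat_lit 3) (nat_lit 261) (nat_lit 262) = true := by decide +kernel
def p14_21_0_262 : pfC (piC [(nat_lit 33242365), (nat_lit 21715570), (nat_lit 14024239)] (nat_lit 16450652)) p14_21_0 (nat_lit 3) (nat_lit 262) (nat_lit 263) = true := by decide +kernel
def p14_21_0_263 : pfC (piC [(nat_lit 33242365), (nat_lit 21715570), (nat_lit 14024239)] (nat_lit 16450652)) p14_21_0 (nat_lit 3) (nat_lit 263) (nat_lit 264) = true := by decide +kernel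
def p14_21_0_264 : pfC (piC [(nat_lit 33242365), (nat_lit 21715570), (nat_lit 14024239)] (nat_lit 16450652)) p14_21_0 (nat_lit 3) (nat_lit 264) (nat_lit 265) = true := by decide +kernel
def p14_21_0_265 : pfC (piC [(nat_lit 33242365), (nat_lit 21715570), (nat_lit 14024239)] (nat_lit 16450652)) p14_21_0 (nat_lit 3) (nat_lit 265) (nat_lit 266) = true := by decide +kernel
def p14_21_0_266 : pfC (piC [(nat_lit 33242365), (nat_lit 21715570), (nat_lit 14024239)] (nat_lit 16450652)) p14_21_0 (nat_lit 3) (nat_lit 266) (nat_lit 267) = true := by decide +kernel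
def p14_21_0_267 : pfC (piC [(nat_lit 33242365), (nat_lit 21715570), (nat_lit 14024239)] (nat_lit 16450652)) p14_21_0 (nat_lit 3) (nat_lit 267) (nat_lit 268) = true := by decide +kernel
def p14_21_0_268 : pfC (piC [(nat_lit 33242365), (nat_lit 21715570), (nat_lit 14024239)] (nat_lit 16450652)) p14_21_0 (nat_lit 3) (nat_lit 268) (nat_lit 269) = true := by decide +kernel
def p14_21_0_269 : pfC (piC [(nat_lit 33242365), (nat_lit 21715570), (nat_lit 14024239)] (nat_lit 16450652)) p14_21_0 (nat_lit 3) (nat_lit 269) (nat_lit 270) = true := by decide +kernel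
def p14_21_0_270 : pfC (piC [(nat_lit 33242365), (nat_lit 21715570), (nat_lit 14024239)] (nat_lit 16450652)) p14_21_0 (nat_lit 3) (nat_lit 270) (nat_lit 271) = true := by decide +kernel
def p14_21_0_271 : pfC (piC [(nat_lit 33242365), (nat_lit 21715570), (nat_lit 14024239)] (nat_lit 16450652)) p14_21_0 (nat_lit 3) (nat_lit 271) (nat_lit 272) = true := by decide +kernel
def p14_21_0_272 : pfC (piC [(nat_lit 33242365), (nat_lit 21715570), (nat_lit 14024239)] (nat_lit 16450652)) p14_21_0 (nat_lit 3) (nat_lit 272) (nat_lit 273) = true := by decide +kernel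
def p14_21_0_273 : pfC (piC [(nat_lit 33242365), (nat_lit 21715570), (nat_lit 14024239)] (nat_lit 16450652)) p14_21_0 (nat_lit 3) (nat_lit 273) (nat_lit 274) = true := by decide +kernel
def p14_21_0_274 : pfC (piC [(nat_lit 33242365), (nat_lit 21715570), (nat_lit 14024239)] (nat_lit 16450652)) p14_21_0 (nat_lit 3) (nat_lit 274) (nat_lit 275) = true := by decide +kernel
def p14_21_0_275 : pfC (piC [(nat_lit 33242365), (nat_lit 21715570), (nat_lit 14024239)] (nat_lit 16450652)) p14_21_0 (nat_lit 3) (nat_lit 275) (nat_lit 276) = true := by decide +kernel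
def p14_21_0_276 : pfC (piC [(nat_lit 33242365), (nat_lit 21715570), (nat_lit 14024239)] (nat_lit 16450652)) p14_21_0 (nat_lit 3) (nat_lit 276) (nat_lit 277) = true := by decide +kernel
def p14_21_0_277 : pfC (piC [(nat_lit 33242365), (nat_lit 21715570), (nat_lit 14024239)] (nat_lit 16450652)) p14_21_0 (nat_lit 3) (nat_lit 277) (nat_lit 278) = true := by decide +kernel
def p14_21_0_278 : pfC (piC [(nat_lit 33242365), (nat_lit 21715570), (nat_lit 14024239)] (nat_lit 16450652)) p14_21_0 (nat_lit 3) (nat_lit 278) (nat_lit 279) = true := by decide +kernel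
def p14_21_0_279 : pfC (piC [(nat_lit 33242365), (nat_lit 21715570), (nat_lit 14024239)] (nat_lit 16450652)) p14_21_0 (nat_lit 3) (nat_lit 279) (nat_lit 280) = true := by decide +kernel
def p14_21_0_280 : pfC (piC [(nat_lit 33242365), (nat_lit 21715570), (nat_lit 14024239)] (nat_lit 16450652)) p14_21_0 (nat_lit 3) (nat_lit 280) (nat_lit 281) = true := by decide +kernel
def p14_21_0_281 : pfC (piC [(nat_lit 33242365), (nat_lit 21715570), (nat_lit 14024239)] (nat_lit 16450652)) p14_21_0 (nat_lit 3) (nat_lit 281) (nat_lit 282) = true := by decide +kernel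
def p14_21_0_282 : pfC (piC [(nat_lit 33242365), (nat_lit 21715570), (nat_lit 14024239)] (nat_lit 16450652)) p14_21_0 (nat_lit 3) (nat_lit 282) (nat_lit 283) = true := by decide +kernel
def p14_21_0_283 : pfC (piC [(nat_lit 33242365), (nat_lit 21715570), (nat_lit 14024239)] (nat_lit 16450652)) p14_21_0 (nat_lit 3) (nat_lit 283) (nat_lit 284) = true := by decide +kernel
def p14_21_0_284 : pfC (piC [(nat_lit 33242365), (nat_lit 21715570), (nat_lit 14024239)] (nat_lit 16450652)) p14_21_0 (nat_lit 3) (nat_lit 284) (nat_lit 285) = true := by decide +kernel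
def p14_21_0_285 : pfC (piC [(nat_lit 33242365), (nat_lit 21715570), (nat_lit 14024239)] (nat_lit 16450652)) p14_21_0 (nat_lit 3) (nat_lit 285) (nat_lit 286) = true := by decide +kernel
def p14_21_0_286 : pfC (piC [(nat_lit 33242365), (nat_lit 21715570), (nat_lit 14024239)] (nat_lit 16450652)) p14_21_0 (nat_lit 3) (nat_lit 286) (nat_lit 287) = true := by decide +kernel
def p14_21_0_287 : pfC (piC [(nat_lit 33242365), (nat_lit 21715570), (nat_lit 14024239)] (nat_lit 16450652)) p14_21_0 (nat_lit 3) (nat_lit 287) (nat_lit 288) = true := by decide +kernel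
def p14_21_0_288 : pfC (piC [(nat_lit 33242365), (nat_lit 21715570), (nat_lit 14024239)] (nat_lit 16450652)) p14_21_0 (nat_lit 3) (nat_lit 288) (nat_lit 289) = true := by decide +kernel
def p14_21_0_289 : pfC (piC [(nat_lit 33242365), (nat_lit 21715570), (nat_lit 14024239)] (nat_lit 16450652)) p14_21_0 (nat_lit 3) (nat_lit 289) (nat_lit 290) = true := by decide +kernel
def p14_21_0_290 : pfC (piC [(nat_lit 33242365), (nat_lit 21715570), (nat_lit 14024239)] (nat_lit 16450652)) p14_21_0 (nat_lit 3) (nat_lit 290) (nat_lit 291) = true := by decide +kernel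
def p14_21_0_291 : pfC (piC [(nat_lit 33242365), (nat_lit 21715570), (nat_lit 14024239)] (nat_lit 16450652)) p14_21_0 (nat_lit 3) (nat_lit 291) (nat_lit 292) = true := by decide +kernel
def p14_21_0_292 : pfC (piC [(nat_lit 33242365), (nat_lit 21715570), (nat_lit 14024239)] (nat_lit 16450652)) p14_21_0 (nat_lit 3) (nat_lit 292) (nat_lit 293) = true := by decide +kernel
def p14_21_0_293 : pfC (piC [(nat_lit 33242365), (nat_lit 21715570), (nat_lit 14024239)] (nat_lit 16450652)) p14_21_0 (nat_lit 3) (nat_lit 293) (nat_lit 294) = true := by decide +kernel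
def p14_21_0_294 : pfC (piC [(nat_lit 33242365), (nat_lit 21715570), (nat_lit 14024239)] (nat_lit 16450652)) p14_21_0 (nat_lit 3) (nat_lit 294) (nat_lit 295) = true := by decide +kernel
def p14_21_0_295 : pfC (piC [(nat_lit 33242365), (nat_lit 21715570), (nat_lit 14024239)] (nat_lit 16450652)) p14_21_0 (nat_lit 3) (nat_lit 295) (nat_lit 296) = true := by decide +kernel
def p14_21_0_296 : pfC (piC [(nat_lit 33242365), (nat_lit 21715570), (nat_lit 14024239)] (nat_lit 16450652)) p14_21_0 (nat_lit 3) (nat_lit 296) (nat_lit 297) = true := by decide +kernel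
def p14_21_0_297 : pfC (piC [(nat_lit 33242365), (nat_lit 21715570), (nat_lit 14024239)] (nat_lit 16450652)) p14_21_0 (nat_lit 3) (nat_lit 297) (nat_lit 298) = true := by decide +kernel
def p14_21_0_298 : pfC (piC [(nat_lit 33242365), (nat_lit 21715570), (nat_lit 14024239)] (nat_lit 16450652)) p14_21_0 (nat_lit 3) (nat_lit 298) (nat_lit 299) = true := by decide +kernel
def p14_21_0_299 : pfC (piC [(nat_lit 33242365), (nat_lit 21715570), (nat_lit 14024239)] (nat_lit 16450652)) p14_21_0 (nat_lit 3) (nat_lit 299) (nat_lit 300) = true := by decide +kernel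
def p14_21_0_300 : pfC (piC [(nat_lit 33242365), (nat_lit 21715570), (nat_lit 14024239)] (nat_lit 16450652)) p14_21_0 (nat_lit 3) (nat_lit 300) (nat_lit 301) = true := by decide +kernel
def p14_21_0_301 : pfC (piC [(nat_lit 33242365), (nat_lit 21715570), (nat_lit 14024239)] (nat_lit 16450652)) p14_21_0 (nat_lit 3) (nat_lit 301) (nat_lit 302) = true := by decide +kernel
def p14_21_0_302 : pfC (piC [(nat_lit 33242365), (nat_lit 21715570), (nat_lit 14024239)] (nat_lit 16450652)) p14_21_0 (nat_lit 3) (nat_lit 302) (nat_lit 303) = true := by decide +kernel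
def p14_21_0_303 : pfC (piC [(nat_lit 33242365), (nat_lit 21715570), (nat_lit 14024239)] (nat_lit 16450652)) p14_21_0 (nat_lit 3) (nat_lit 303) (nat_lit 304) = true := by decide +kernel
def p14_21_0_304 : pfC (piC [(nat_lit 33242365), (nat_lit 21715570), (nat_lit 14024239)] (nat_lit 16450652)) p14_21_0 (nat_lit 3) (nat_lit 304) (nat_lit 305) = true := by decide +kernel
def p14_21_0_305 : pfC (piC [(nat_lit 33242365), (nat_lit 21715570), (nat_lit 14024239)] (nat_lit 16450652)) p14_21_0 (nat_lit 3) (nat_lit 305) (nat_lit 306) = true := by decide +kernel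
def p14_21_0_306 : pfC (piC [(nat_lit 33242365), (nat_lit 21715570), (nat_lit 14024239)] (nat_lit 16450652)) p14_21_0 (nat_lit 3) (nat_lit 306) (nat_lit 307) = true := by decide +kernel
def p14_21_0_307 : pfC (piC [(nat_lit 33242365), (nat_lit 21715570), (nat_lit 14024239)] (nat_lit 16450652)) p14_21_0 (nat_lit 3) (nat_lit 307) (nat_lit 308) = true := by decide +kernel
def p14_21_0_308 : pfC (piC [(nat_lit 33242365), (nat_lit 21715570), (nat_lit 14024239)] (nat_lit 16450652)) p14_21_0 (nat_lit 3) (nat_lit 308) (nat_lit 309) = true := by decide +kernel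
def p14_21_0_309 : pfC (piC [(nat_lit 33242365), (nat_lit 21715570), (nat_lit 14024239)] (nat_lit 16450652)) p14_21_0 (nat_lit 3) (nat_lit 309) (nat_lit 310) = true := by decide +kernel
def p14_21_0_310 : pfC (piC [(nat_lit 33242365), (nat_lit 21715570), (nat_lit 14024239)] (nat_lit 16450652)) p14_21_0 (nat_lit 3) (nat_lit 310) (nat_lit 311) = true := by decide +kernel
def p14_21_0_311 : pfC (piC [(nat_lit 33242365), (nat_lit 21715570), (nat_lit 14024239)] (nat_lit 16450652)) p14_21_0 (nat_lit 3) (nat_lit 311) (nat_lit 312) = true := by decide +kernel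
def p14_21_0_312 : pfC (piC [(nat_lit 33242365), (nat_lit 21715570), (nat_lit 14024239)] (nat_lit 16450652)) p14_21_0 (nat_lit 3) (nat_lit 312) (nat_lit 313) = true := by decide +kernel
def p14_21_0_313 : pfC (piC [(nat_lit 33242365), (nat_lit 21715570), (nat_lit 14024239)] (nat_lit 16450652)) p14_21_0 (nat_lit 3) (nat_lit 313) (nat_lit 314) = true := by decide +kernel
def p14_21_0_314 : pfC (piC [(nat_lit 33242365), (nat_lit 21715570), (nat_lit 14024239)] (nat_lit 16450652)) p14_21_0 (nat_lit 3) (nat_lit 314) (nat_lit 315) = true := by decide +kernel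
def p14_21_0_315 : pfC (piC [(nat_lit 33242365), (nat_lit 21715570), (nat_lit 14024239)] (nat_lit 16450652)) p14_21_0 (nat_lit 3) (nat_lit 315) (nat_lit 316) = true := by decide +kernel
def p14_21_0_316 : pfC (piC [(nat_lit 33242365), (nat_lit 21715570), (nat_lit 14024239)] (nat_lit 16450652)) p14_21_0 (nat_lit 3) (nat_lit 316) (nat_lit 317) = true := by decide +kernel
def p14_21_0_317 : pfC (piC [(nat_lit 33242365), (nat_lit 21715570), (nat_lit 14024239)] (nat_lit 16450652)) p14_21_0 (nat_lit 3) (nat_lit 317) (nat_lit 318) = true := by decide +kernel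
def p14_21_0_318 : pfC (piC [(nat_lit 33242365), (nat_lit 21715570), (nat_lit 14024239)] (nat_lit 16450652)) p14_21_0 (nat_lit 3) (nat_lit 318) (nat_lit 319) = true := by decide +kernel
def p14_21_0_319 : pfC (piC [(nat_lit 33242365), (nat_lit 21715570), (nat_lit 14024239)] (nat_lit 16450652)) p14_21_0 (nat_lit 3) (nat_lit 319) (nat_lit 320) = true := by decide +kernel
def p14_21_0_320 : pfC (piC [(nat_lit 33242365), (nat_lit 21715570), (nat_lit 14024239)] (nat_lit 16450652)) p14_21_0 (nat_lit 3) (nat_lit 320) (nat_lit 321) = true := by decide +kernel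
def p14_21_0_321 : pfC (piC [(nat_lit 33242365), (nat_lit 21715570), (nat_lit 14024239)] (nat_lit 16450652)) p14_21_0 (nat_lit 3) (nat_lit 321) (nat_lit 322) = true := by decide +kernel
def p14_21_0_322 : pfC (piC [(nat_lit 33242365), (nat_lit 21715570), (nat_lit 14024239)] (nat_lit 16450652)) p14_21_0 (nat_lit 3) (nat_lit 322) (nat_lit 323) = true := by decide +kernel
def p14_21_0_323 : pfC (piC [(nat_lit 33242365), (nat_lit 21715570), (nat_lit 14024239)] (nat_lit 16450652)) p14_21_0 (nat_lit 3) (nat_lit 323) (nat_lit 324) = true := by decide +kernel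
def p14_21_0_324 : pfC (piC [(nat_lit 33242365), (nat_lit 21715570), (nat_lit 14024239)] (nat_lit 16450652)) p14_21_0 (nat_lit 3) (nat_lit 324) (nat_lit 325) = true := by decide +kernel
def p14_21_0_325 : pfC (piC [(nat_lit 33242365), (nat_lit 21715570), (nat_lit 14024239)] (nat_lit 16450652)) p14_21_0 (nat_lit 3) (nat_lit 325) (nat_lit 326) = true := by decide +kernel
def p14_21_0_326 : pfC (piC [(nat_lit 33242365), (nat_lit 21715570), (nat_lit 14024239)] (nat_lit 16450652)) p14_21_0 (nat_lit 3) (nat_lit 326) (nat_lit 327) = true := by decide +kernel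
def p14_21_0_327 : pfC (piC [(nat_lit 33242365), (nat_lit 21715570), (nat_lit 14024239)] (nat_lit 16450652)) p14_21_0 (nat_lit 3) (nat_lit 327) (nat_lit 328) = true := by decide +kernel
def p14_21_0_328 : pfC (piC [(nat_lit 33242365), (nat_lit 21715570), (nat_lit 14024239)] (nat_lit 16450652)) p14_21_0 (nat_lit 3) (nat_lit 328) (nat_lit 329) = true := by decide +kernel
def p14_21_0_329 : pfC (piC [(nat_lit 33242365), (nat_lit 21715570), (nat_lit 14024239)] (nat_lit 16450652)) p14_21_0 (nat_lit 3) (nat_lit 329) (nat_lit 330) = true := by decide +kernel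
def p14_21_0_330 : pfC (piC [(nat_lit 33242365), (nat_lit 21715570), (nat_lit 14024239)] (nat_lit 16450652)) p14_21_0 (nat_lit 3) (nat_lit 330) (nat_lit 331) = true := by decide +kernel
def p14_21_0_331 : pfC (piC [(nat_lit 33242365), (nat_lit 21715570), (nat_lit 14024239)] (nat_lit 16450652)) p14_21_0 (nat_lit 3) (nat_lit 331) (nat_lit 332) = true := by decide +kernel
def p14_21_0_332 : pfC (piC [(nat_lit 33242365), (nat_lit 21715570), (nat_lit 14024239)] (nat_lit 16450652)) p14_21_0 (nat_lit 3) (nat_lit 332) (nat_lit 333) = true := by decide +kernel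
def p14_21_0_333 : pfC (piC [(nat_lit 33242365), (nat_lit 21715570), (nat_lit 14024239)] (nat_lit 16450652)) p14_21_0 (nat_lit 3) (nat_lit 333) (nat_lit 334) = true := by decide +kernel
def p14_21_0_334 : pfC (piC [(nat_lit 33242365), (nat_lit 21715570), (nat_lit 14024239)] (nat_lit 16450652)) p14_21_0 (nat_lit 3) (nat_lit 334) (nat_lit 335) = true := by decide +kernel
def p14_21_0_335 : pfC (piC [(nat_lit 33242365), (nat_lit 21715570), (nat_lit 14024239)] (nat_lit 16450652)) p14_21_0 (nat_lit 3) (nat_lit 335) (nat_lit 336) = true := by decide +kernel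
def p14_21_0_336 : pfC (piC [(nat_lit 33242365), (nat_lit 21715570), (nat_lit 14024239)] (nat_lit 16450652)) p14_21_0 (nat_lit 3) (nat_lit 336) (nat_lit 337) = true := by decide +kernel
def p14_21_0_337 : pfC (piC [(nat_lit 33242365), (nat_lit 21715570), (nat_lit 14024239)] (nat_lit 16450652)) p14_21_0 (nat_lit 3) (nat_lit 337) (nat_lit 338) = true := by decide +kernel
def p14_21_0_338 : pfC (piC [(nat_lit 33242365), (nat_lit 21715570), (nat_lit 14024239)] (nat_lit 16450652)) p14_21_0 (nat_lit 3) (nat_lit 338) (nat_lit 339) = true := by decide +kernel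
theorem p14_21_0_T : PfS (PiF n14_21.reverse (nat_lit 16450652)) p14_21_0 (nat_lit 3) [] 0 :=
  pftab_of (los := [(nat_lit 33242365), (nat_lit 21715570), (nat_lit 14024239)]) (by decide +kernel) (hi := (nat_lit 339)) (PfP.trans (PfP.trans (PfP.trans (PfP.trans (PfP.trans (PfP.trans (PfP.trans (PfP.trans (PfP.trans (PfP.trans (PfP.trans (PfP.trans (PfP.trans (PfP.trans (PfP.trans (PfP.trans (PfP.trans (PfP.trans (PfP.trans (PfP.trans (PfP.trans (PfP.trans (PfP.trans (PfP.trans (PfP.trans (PfP.trans (PfP.trans (PfP.trans (PfP.trans (PfP.trans (PfP.trans (PfP.trans (PfP.trans (PfP.trans (PfP.trans (PfP.trans (PfP.trans (PfP.trans (PfP.trans (PfP.trans (PfP.trans (PfP.trans (PfP.trans (PfP.trans (PfP.trans (PfP.trans (PfP.trans (PfP.trans (PfP.trans (PfP.trans (PfP.trans (PfP.trans (PfP.trans (PfP.trans (PfP.trans (PfP.trans (PfP.trans (PfP.trans (PfP.trans (PfP.trans (PfP.trans (PfP.trans (PfP.trans (PfP.trans (PfP.trans (PfP.trans (PfP.trans (PfP.trans (PfP.trans (PfP.trans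 (PfP.trans (PfP.trans (PfP.trans (PfP.trans (PfP.trans (PfP.trans (PfP.trans (PfP.trans (PfP.trans (PfP.trans (PfP.trans (PfP.trans (PfP.trans (PfP.trans (PfP.trans (PfP.trans (PfP.trans (PfP.trans (PfP.trans (PfP.trans (PfP.trans (PfP.trans (PfP.trans (PfP.trans (PfP.trans (PfP.trans (PfP.trans (PfP.trans (PfP.trans (PfP.trans (PfP.trans (PfP.trans (PfP.trans (PfP.trans (PfP.trans (PfP.trans (PfP.trans (PfP.trans (PfP.trans
 (PfP.trans (PfP.trans (PfP.trans (PfP.trans (PfP.trans (PfP.trans (PfP.trans (PfP.trans (PfP.trans (PfP.trans (PfP.trans (PfP.trans (PfP.trans (PfP.trans (PfP.trans (PfP.trans (PfP.trans (PfP.trans (PfP.trans (PfP.trans (PfP.trans (PfP.trans (PfP.trans (PfP.trans (PfP.trans (PfP.trans (PfP.trans (PfP.trans (PfP.trans (PfP.trans (PfP.trans (PfP.trans (PfP.trans (PfP.trans (PfP.trans (PfP.trans (PfP.trans (PfP.trans (PfP.trans (PfP.trans (PfP.trans (PfP.trans (PfP.trans (PfP.trans (PfP.trans (PfP.trans (PfP.trans (PfP.trans (PfP.trans (PfP.trans (PfP.trans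 (PfP.trans (PfP.trans (PfP.trans (PfP.trans (PfP.trans (PfP.trans (PfP.trans (PfP.trans (PfP.trans (PfP.trans (PfP.trans (PfP.trans (PfP.trans (PfP.trans (PfP.trans (PfP.trans (PfP.trans (PfP.trans (PfP.trans (PfP.trans (PfP.trans (PfP.trans (PfP.trans (PfP.trans (PfP.trans (PfP.trans (PfP.trans (PfP.trans (PfP.trans (PfP.trans (PfP.trans (PfP.trans (PfP.trans (PfP.trans (PfP.trans (PfP.trans (PfP.trans (PfP.trans (PfP.trans (PfP.trans (PfP.trans (PfP.trans (PfP.trans (PfP.trans (PfP.trans (PfP.trans (PfP.trans (PfP.trans (PfP.trans (PfP.trans (PfP.trans (PfP.trans (PfP.trans (PfP.trans (PfP.trans (PfP.trans (PfP.trans (PfP.trans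
 (PfP.trans (PfP.trans (PfP.trans (PfP.trans (PfP.trans (PfP.trans (PfP.trans (PfP.trans (PfP.trans (PfP.trans (PfP.trans (PfP.trans (PfP.trans (PfP.trans (PfP.trans (PfP.trans (PfP.trans (PfP.trans (PfP.trans (PfP.trans (PfP.trans (PfP.trans (PfP.trans (PfP.trans (PfP.trans (PfP.trans (PfP.trans (PfP.trans (PfP.trans (PfP.trans (PfP.trans (PfP.trans (PfP.trans (PfP.trans (PfP.trans (PfP.trans (PfP.trans (PfP.trans (PfP.trans (PfP.trans (PfP.trans (PfP.trans (PfP.trans (PfP.trans (PfP.trans (PfP.trans (PfP.trans (PfP.trans (PfP.trans (PfP.trans (PfP.trans (PfP.trans (PfP.trans (PfP.trans (PfP.trans (PfP.trans (PfP.trans (PfP.trans (PfP.trans (PfP.trans (PfP.trans (PfP.trans (PfP.trans (PfP.trans (PfP.trans (PfP.trans (PfP.trans (PfP.trans (PfP.trans (PfP.trans (PfP.trans (PfP.trans (PfP.trans (PfP.trans (PfP.trans (PfP.trans (PfP.trans (PfP.trans (PfP.trans (PfP.trans (PfP.trans (PfP.trans (PfP.trans (PfP.trans (PfP.trans (PfP.trans (PfP.trans (PfP.trans (PfP.trans (PfP.trans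 (PfP.trans (PfP.trans (PfP.trans (PfP.trans (PfP.trans (PfP.trans (PfP.trans (PfP.trans (PfP.trans (PfP.trans (PfP.trans (PfP.trans (PfP.trans (PfP.trans (PfP.trans (PfP.trans (PfP.trans (PfP.trans (PfP.trans
 (PfP.trans (PfP.trans (PfP.trans (PfP.trans (PfP.trans (PfP.trans (PfP.trans (PfP.trans (PfP.trans (PfP.trans (PfP.trans (pfC_sound p14_21_0_0) (pfC_sound p14_21_0_1)) (pfC_sound p14_21_0_2)) (pfC_sound p14_21_0_3)) (pfC_sound p14_21_0_4)) (pfC_sound p14_21_0_5)) (pfC_sound p14_21_0_6)) (pfC_sound p14_21_0_7)) (pfC_sound p14_21_0_8)) (pfC_sound p14_21_0_9)) (pfC_sound p14_21_0_10)) (pfC_sound p14_21_0_11)) (pfC_sound p14_21_0_12)) (pfC_sound p14_21_0_13)) (pfC_sound p14_21_0_14)) (pfC_sound p14_21_0_15)) (pfC_sound p14_21_0_16)) (pfC_sound p14_21_0_17)) (pfC_sound p14_21_0_18)) (pfC_sound p14_21_0_19)) (pfC_sound p14_21_0_20)) (pfC_sound p14_21_0_21)) (pfC_sound p14_21_0_22)) (pfC_sound p14_21_0_23)) (pfC_sound p14_21_0_24)) (pfC_sound p14_21_0_25)) (pfC_sound p14_21_0_26))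 (pfC_sound p14_21_0_27)) (pfC_sound p14_21_0_28)) (pfC_sound p14_21_0_29)) (pfC_sound p14_21_0_30)) (pfC_sound p14_21_0_31)) (pfC_sound p14_21_0_32)) (pfC_sound p14_21_0_33)) (pfC_sound p14_21_0_34)) (pfC_sound p14_21_0_35)) (pfC_sound p14_21_0_36)) (pfC_sound p14_21_0_37)) (pfC_sound p14_21_0_38)) (pfC_sound p14_21_0_39)) (pfC_sound p14_21_0_40)) (pfC_sound p14_21_0_41)) (pfC_sound p14_21_0_42)) (pfC_sound
 p14_21_0_43)) (pfC_sound p14_21_0_44)) (pfC_sound p14_21_0_45)) (pfC_sound p14_21_0_46)) (pfC_sound p14_21_0_47)) (pfC_sound p14_21_0_48)) (pfC_sound p14_21_0_49)) (pfC_sound p14_21_0_50)) (pfC_sound p14_21_0_51)) (pfC_sound p14_21_0_52)) (pfC_sound p14_21_0_53)) (pfC_sound p14_21_0_54)) (pfC_sound p14_21_0_55)) (pfC_sound p14_21_0_56)) (pfC_sound p14_21_0_57)) (pfC_sound p14_21_0_58)) (pfC_sound p14_21_0_59)) (pfC_sound p14_21_0_60)) (pfC_sound p14_21_0_61)) (pfC_sound p14_21_0_62)) (pfC_sound p14_21_0_63)) (pfC_sound p14_21_0_64)) (pfC_sound p14_21_0_65)) (pfC_sound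 p14_21_0_66)) (pfC_sound p14_21_0_67)) (pfC_sound p14_21_0_68)) (pfC_sound p14_21_0_69)) (pfC_sound p14_21_0_70)) (pfC_sound p14_21_0_71)) (pfC_sound p14_21_0_72)) (pfC_sound p14_21_0_73)) (pfC_sound p14_21_0_74)) (pfC_sound p14_21_0_75)) (pfC_sound p14_21_0_76)) (pfC_sound p14_21_0_77)) (pfC_sound p14_21_0_78)) (pfC_sound p14_21_0_79)) (pfC_sound p14_21_0_80)) (pfC_sound p14_21_0_81)) (pfC_sound p14_21_0_82)) (pfC_sound p14_21_0_83)) (pfC_sound p14_21_0_84)) (pfC_sound p14_21_0_85)) (pfC_sound p14_21_0_86)) (pfC_sound p14_21_0_87)) (pfC_sound p14_21_0_88)) (pfC_sound p14_21_0_89)) (pfC_sound p14_21_0_90)) (pfC_sound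
 p14_21_0_91)) (pfC_sound p14_21_0_92)) (pfC_sound p14_21_0_93)) (pfC_sound p14_21_0_94)) (pfC_sound p14_21_0_95)) (pfC_sound p14_21_0_96)) (pfC_sound p14_21_0_97)) (pfC_sound p14_21_0_98)) (pfC_sound p14_21_0_99)) (pfC_sound p14_21_0_100)) (pfC_sound p14_21_0_101)) (pfC_sound p14_21_0_102)) (pfC_sound p14_21_0_103)) (pfC_sound p14_21_0_104)) (pfC_sound p14_21_0_105)) (pfC_sound p14_21_0_106)) (pfC_sound p14_21_0_107)) (pfC_sound p14_21_0_108)) (pfC_sound p14_21_0_109)) (pfC_sound p14_21_0_110)) (pfC_sound p14_21_0_111)) (pfC_sound p14_21_0_112)) (pfC_sound p14_21_0_113)) (pfC_sound p14_21_0_114)) (pfC_sound p14_21_0_115)) (pfC_sound p14_21_0_116)) (pfC_sound p14_21_0_117)) (pfC_sound p14_21_0_118)) (pfC_sound p14_21_0_119)) (pfC_sound p14_21_0_120)) (pfC_sound p14_21_0_121)) (pfC_sound p14_21_0_122)) (pfC_sound p14_21_0_123)) (pfC_sound p14_21_0_124)) (pfC_sound p14_21_0_125)) (pfC_sound p14_21_0_126)) (pfC_sound p14_21_0_127)) (pfC_sound p14_21_0_128)) (pfC_sound p14_21_0_129))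 (pfC_sound p14_21_0_130)) (pfC_sound p14_21_0_131)) (pfC_sound p14_21_0_132)) (pfC_sound p14_21_0_133)) (pfC_sound p14_21_0_134)) (pfC_sound p14_21_0_135)) (pfC_sound p14_21_0_136)) (pfC_sound
 p14_21_0_137)) (pfC_sound p14_21_0_138)) (pfC_sound p14_21_0_139)) (pfC_sound p14_21_0_140)) (pfC_sound p14_21_0_141)) (pfC_sound p14_21_0_142)) (pfC_sound p14_21_0_143)) (pfC_sound p14_21_0_144)) (pfC_sound p14_21_0_145)) (pfC_sound p14_21_0_146)) (pfC_sound p14_21_0_147)) (pfC_sound p14_21_0_148)) (pfC_sound p14_21_0_149)) (pfC_sound p14_21_0_150)) (pfC_sound p14_21_0_151)) (pfC_sound p14_21_0_152)) (pfC_sound p14_21_0_153)) (pfC_sound p14_21_0_154)) (pfC_sound p14_21_0_155)) (pfC_sound p14_21_0_156)) (pfC_sound p14_21_0_157)) (pfC_sound p14_21_0_158)) (pfC_sound p14_21_0_159)) (pfC_sound p14_21_0_160)) (pfC_sound p14_21_0_161)) (pfC_sound p14_21_0_162)) (pfC_sound p14_21_0_163)) (pfC_sound p14_21_0_164)) (pfC_sound p14_21_0_165)) (pfC_sound p14_21_0_166)) (pfC_sound p14_21_0_167))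 (pfC_sound p14_21_0_168)) (pfC_sound p14_21_0_169)) (pfC_sound p14_21_0_170)) (pfC_sound p14_21_0_171)) (pfC_sound p14_21_0_172)) (pfC_sound p14_21_0_173)) (pfC_sound p14_21_0_174)) (pfC_sound p14_21_0_175)) (pfC_sound p14_21_0_176)) (pfC_sound p14_21_0_177)) (pfC_sound p14_21_0_178)) (pfC_sound p14_21_0_179)) (pfC_sound p14_21_0_180)) (pfC_sound p14_21_0_181)) (pfC_sound p14_21_0_182)) (pfC_sound
 p14_21_0_183)) (pfC_sound p14_21_0_184)) (pfC_sound p14_21_0_185)) (pfC_sound p14_21_0_186)) (pfC_sound p14_21_0_187)) (pfC_sound p14_21_0_188)) (pfC_sound p14_21_0_189)) (pfC_sound p14_21_0_190)) (pfC_sound p14_21_0_191)) (pfC_sound p14_21_0_192)) (pfC_sound p14_21_0_193)) (pfC_sound p14_21_0_194)) (pfC_sound p14_21_0_195)) (pfC_sound p14_21_0_196)) (pfC_sound p14_21_0_197)) (pfC_sound p14_21_0_198)) (pfC_sound p14_21_0_199)) (pfC_sound p14_21_0_200)) (pfC_sound p14_21_0_201)) (pfC_sound p14_21_0_202)) (pfC_sound p14_21_0_203)) (pfC_sound p14_21_0_204)) (pfC_sound p14_21_0_205))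 (pfC_sound p14_21_0_206)) (pfC_sound p14_21_0_207)) (pfC_sound p14_21_0_208)) (pfC_sound p14_21_0_209)) (pfC_sound p14_21_0_210)) (pfC_sound p14_21_0_211)) (pfC_sound p14_21_0_212)) (pfC_sound p14_21_0_213)) (pfC_sound p14_21_0_214)) (pfC_sound p14_21_0_215)) (pfC_sound p14_21_0_216)) (pfC_sound p14_21_0_217)) (pfC_sound p14_21_0_218)) (pfC_sound p14_21_0_219)) (pfC_sound p14_21_0_220)) (pfC_sound p14_21_0_221)) (pfC_sound p14_21_0_222)) (pfC_sound p14_21_0_223)) (pfC_sound p14_21_0_224)) (pfC_sound p14_21_0_225)) (pfC_sound p14_21_0_226)) (pfC_sound p14_21_0_227)) (pfC_sound p14_21_0_228)) (pfC_sound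
 p14_21_0_229)) (pfC_sound p14_21_0_230)) (pfC_sound p14_21_0_231)) (pfC_sound p14_21_0_232)) (pfC_sound p14_21_0_233)) (pfC_sound p14_21_0_234)) (pfC_sound p14_21_0_235)) (pfC_sound p14_21_0_236)) (pfC_sound p14_21_0_237)) (pfC_sound p14_21_0_238)) (pfC_sound p14_21_0_239)) (pfC_sound p14_21_0_240)) (pfC_sound p14_21_0_241)) (pfC_sound p14_21_0_242)) (pfC_sound p14_21_0_243)) (pfC_sound p14_21_0_244)) (pfC_sound p14_21_0_245)) (pfC_sound p14_21_0_246)) (pfC_sound p14_21_0_247)) (pfC_sound p14_21_0_248)) (pfC_sound p14_21_0_249)) (pfC_sound p14_21_0_250)) (pfC_sound p14_21_0_251)) (pfC_sound p14_21_0_252)) (pfC_sound p14_21_0_253)) (pfC_sound p14_21_0_254)) (pfC_sound p14_21_0_255)) (pfC_sound p14_21_0_256)) (pfC_sound p14_21_0_257)) (pfC_sound p14_21_0_258)) (pfC_sound p14_21_0_259)) (pfC_sound p14_21_0_260)) (pfC_sound p14_21_0_261)) (pfC_sound p14_21_0_262)) (pfC_sound p14_21_0_263)) (pfC_sound p14_21_0_264)) (pfC_sound p14_21_0_265)) (pfC_sound p14_21_0_266)) (pfC_sound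 p14_21_0_267)) (pfC_sound p14_21_0_268)) (pfC_sound p14_21_0_269)) (pfC_sound p14_21_0_270)) (pfC_sound p14_21_0_271)) (pfC_sound p14_21_0_272)) (pfC_sound p14_21_0_273)) (pfC_sound p14_21_0_274)) (pfC_sound
 p14_21_0_275)) (pfC_sound p14_21_0_276)) (pfC_sound p14_21_0_277)) (pfC_sound p14_21_0_278)) (pfC_sound p14_21_0_279)) (pfC_sound p14_21_0_280)) (pfC_sound p14_21_0_281)) (pfC_sound p14_21_0_282)) (pfC_sound p14_21_0_283)) (pfC_sound p14_21_0_284)) (pfC_sound p14_21_0_285)) (pfC_sound p14_21_0_286)) (pfC_sound p14_21_0_287)) (pfC_sound p14_21_0_288)) (pfC_sound p14_21_0_289)) (pfC_sound p14_21_0_290)) (pfC_sound p14_21_0_291)) (pfC_sound p14_21_0_292)) (pfC_sound p14_21_0_293)) (pfC_sound p14_21_0_294)) (pfC_sound p14_21_0_295)) (pfC_sound p14_21_0_296)) (pfC_sound p14_21_0_297)) (pfC_sound p14_21_0_298)) (pfC_sound p14_21_0_299)) (pfC_sound p14_21_0_300)) (pfC_sound p14_21_0_301)) (pfC_sound p14_21_0_302)) (pfC_sound p14_21_0_303)) (pfC_sound p14_21_0_304)) (pfC_sound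 p14_21_0_305)) (pfC_sound p14_21_0_306)) (pfC_sound p14_21_0_307)) (pfC_sound p14_21_0_308)) (pfC_sound p14_21_0_309)) (pfC_sound p14_21_0_310)) (pfC_sound p14_21_0_311)) (pfC_sound p14_21_0_312)) (pfC_sound p14_21_0_313)) (pfC_sound p14_21_0_314)) (pfC_sound p14_21_0_315)) (pfC_sound p14_21_0_316)) (pfC_sound p14_21_0_317)) (pfC_sound p14_21_0_318)) (pfC_sound p14_21_0_319)) (pfC_sound p14_21_0_320)) (pfC_sound
 p14_21_0_321)) (pfC_sound p14_21_0_322)) (pfC_sound p14_21_0_323)) (pfC_sound p14_21_0_324)) (pfC_sound p14_21_0_325)) (pfC_sound p14_21_0_326)) (pfC_sound p14_21_0_327)) (pfC_sound p14_21_0_328)) (pfC_sound p14_21_0_329)) (pfC_sound p14_21_0_330)) (pfC_sound p14_21_0_331)) (pfC_sound p14_21_0_332)) (pfC_sound p14_21_0_333)) (pfC_sound p14_21_0_334)) (pfC_sound p14_21_0_335)) (pfC_sound p14_21_0_336)) (pfC_sound p14_21_0_337)) (pfC_sound p14_21_0_338)) (by decide +kernel)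

def z14_21_0 : zOK yB14_21 (nat_lit 0) (nat_lit 0) (nat_lit 400) (nat_lit 16450652) (nat_lit 11394344) = true := by decide +kernel
def g14_21_0 : gOK yB14_21.x P14_21 (nat_lit 1360) (q14_21 :: r14_21) (nat_lit 0) (nat_lit 0) (nat_lit 1) (nat_lit 400) (nat_lit 0) (nat_lit 11000000) (nat_lit 12712500) (nat_lit 12712500) [(nat_lit 800), (nat_lit 1600)] = true := by decide +kernel
def v14_21_0 : ivC P14_21 s14_21 w14_21 n14_21 (nat_lit 3) (nat_lit 5240) (nat_lit 0) (nat_lit 0) f192_0_0 f200_0_0 (nat_lit 1) (nat_lit 400) f192_0_400 f200_0_400 (nat_lit 16450652) (nat_lit 11394344) p14_21_0 = true := by decide +kernel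
def p14_21_1 : PF := (PF.cons (PF.cons (PF.cons (PF.leaf (nat_lit 1966136) (nat_lit 8967687) (nat_lit 58141125) (nat_lit 8967687) [(nat_lit 0), (nat_lit 0), (nat_lit 0)]) (PF.cons (PF.leaf (nat_lit 2265982) (nat_lit 574704) (nat_lit 57509394) (nat_lit 9024714) [(nat_lit 574704), (nat_lit 0), (nat_lit 0)]) (PF.cons (PF.leaf (nat_lit 2617819) (nat_lit 625322) (nat_lit 56776230) (nat_lit 9081938) [(nat_lit 625322), (nat_lit 0), (nat_lit 0)]) (PF.cons (PF.leaf (nat_lit 3011523) (nat_lit 669789) (nat_lit 55964389) (nat_lit 9135055) [(nat_lit 669789), (nat_lit 0), (nat_lit 0)]) (PF.cons (PF.leaf (nat_lit 3439810) (nat_lit 709212) (nat_lit 55090778) (nat_lit 9181185) [(nat_lit 709212), (nat_lit 0), (nat_lit 0)]) (PF.cons (PF.leaf (nat_lit 3896732) (nat_lit 744285) (nat_lit 54168941) (nat_lit 9218445) [(nat_lit 744285), (nat_lit 0), (nat_lit 0)]) (PF.cons (PF.leaf (nat_lit 4377240) (nat_lit 775489) (nat_lit 53210181) (nat_lit 9245694) [(nat_lit 775489), (nat_lit 0), (nat_lit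 0)]) (PF.cons (PF.leaf (nat_lit 4876886) (nat_lit 803189) (nat_lit 52224140) (nat_lit 9262345) [(nat_lit 803189), (nat_lit 0), (nat_lit 0)]) (PF.cons (PF.leaf (nat_lit 5391754) (nat_lit 827681) (nat_lit 51219126) (nat_lit 9268232)
 [(nat_lit 827681), (nat_lit 0), (nat_lit 0)]) (PF.cons (PF.leaf (nat_lit 5918359) (nat_lit 849221) (nat_lit 50202325) (nat_lit 9263497) [(nat_lit 849221), (nat_lit 0), (nat_lit 0)]) (PF.cons (PF.leaf (nat_lit 6453566) (nat_lit 868036) (nat_lit 49179944) (nat_lit 9248507) [(nat_lit 868036), (nat_lit 0), (nat_lit 0)]) (PF.cons (PF.leaf (nat_lit 6994650) (nat_lit 884336) (nat_lit 48157326) (nat_lit 9223788) [(nat_lit 884336), (nat_lit 0), (nat_lit 0)]) (PF.cons (PF.leaf (nat_lit 7539180) (nat_lit 898316) (nat_lit 47139038) (nat_lit 9189971) [(nat_lit 898316), (nat_lit 0), (nat_lit 0)]) (PF.cons (PF.leaf (nat_lit 8084998) (nat_lit 910161) (nat_lit 46128961) (nat_lit 9147750) [(nat_lit 910161), (nat_lit 0), (nat_lit 0)]) (PF.cons (PF.leaf (nat_lit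 8630277) (nat_lit 920043) (nat_lit 45130353) (nat_lit 9097855) [(nat_lit 920043), (nat_lit 0), (nat_lit 0)]) (PF.cons (PF.leaf (nat_lit 9173381) (nat_lit 928124) (nat_lit 44145924) (nat_lit 9041020) [(nat_lit 928124), (nat_lit 0), (nat_lit 0)]) (PF.cons PF.nil (PF.cons PF.nil PF.nil)))))))))))))))))) (PF.cons (PF.cons (PF.leaf (nat_lit 2892158) (nat_lit 2476079) (nat_lit 55494909) (nat_lit 9137823) [(nat_lit 0), (nat_lit 2476079), (nat_lit
 0)]) (PF.cons (PF.leaf (nat_lit 3270638) (nat_lit 686942) (nat_lit 54707864) (nat_lit 9175395) [(nat_lit 686942), (nat_lit 2538609), (nat_lit 0)]) (PF.cons (PF.leaf (nat_lit 3685793) (nat_lit 724257) (nat_lit 53856384) (nat_lit 9206733) [(nat_lit 724257), (nat_lit 2597180), (nat_lit 0)]) (PF.cons (PF.leaf (nat_lit 4130345) (nat_lit 757211) (nat_lit 52956447) (nat_lit 9230043) [(nat_lit 757211), (nat_lit 2650687), (nat_lit 0)]) (PF.cons (PF.leaf (nat_lit 4598684) (nat_lit 786364) (nat_lit 52020454) (nat_lit 9244276) [(nat_lit 786364),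 (nat_lit 2698622), (nat_lit 0)]) (PF.cons (PF.leaf (nat_lit 5086148) (nat_lit 812118) (nat_lit 51058490) (nat_lit 9248914) [(nat_lit 812118), (nat_lit 2740813), (nat_lit 0)]) (PF.cons (PF.leaf (nat_lit 5588690) (nat_lit 834787) (nat_lit 50078969) (nat_lit 9243827) [(nat_lit 834787), (nat_lit 2777292), (nat_lit 0)]) (PF.cons (PF.leaf (nat_lit 6102819) (nat_lit 854633) (nat_lit 49088995) (nat_lit 9229166) [(nat_lit 854633), (nat_lit 2808214), (nat_lit 0)]) (PF.cons (PF.leaf (nat_lit 6625447) (nat_lit 871888) (nat_lit 48094601) (nat_lit 9205284) [(nat_lit 871888), (nat_lit 2833815), (nat_lit 0)]) (PF.cons (PF.leaf (nat_lit 7153879) (nat_lit 886760)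
 (nat_lit 47100908) (nat_lit 9172674) [(nat_lit 886760), (nat_lit 2854380), (nat_lit 0)]) (PF.cons (PF.leaf (nat_lit 7685753) (nat_lit 899441) (nat_lit 46112250) (nat_lit 9131920) [(nat_lit 899441), (nat_lit 2870225), (nat_lit 0)]) (PF.cons (PF.leaf (nat_lit 8219005) (nat_lit 910109) (nat_lit 45132269) (nat_lit 9083663) [(nat_lit 910109), (nat_lit 2881677), (nat_lit 0)]) (PF.cons (PF.leaf (nat_lit 8751845) (nat_lit 918930) (nat_lit 44164005) (nat_lit 9028570) [(nat_lit 918930), (nat_lit 2889070), (nat_lit 0)]) (PF.cons (PF.leaf (nat_lit 9282714) (nat_lit 926061) (nat_lit 43209967) (nat_lit 8967313) [(nat_lit 926061), (nat_lit 2892734), (nat_lit 0)]) (PF.cons PF.nil (PF.cons PF.nil PF.nil)))))))))))))))) (PF.cons (PF.cons (PF.leaf (nat_lit 3930854) (nat_lit 2638024) (nat_lit 52616994) (nat_lit 9215768) [(nat_lit 0), (nat_lit 2638024), (nat_lit 0)]) (PF.cons (PF.leaf (nat_lit 4360162) (nat_lit 767055) (nat_lit 51747847) (nat_lit 9226785) [(nat_lit 767055), (nat_lit 2683561),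 (nat_lit 0)]) (PF.cons (PF.leaf (nat_lit 4814602) (nat_lit 794607) (nat_lit 50841078) (nat_lit 9229609) [(nat_lit 794607), (nat_lit 2724454), (nat_lit 0)]) (PF.cons (PF.leaf (nat_lit 5288744) (nat_lit 818771)
 (nat_lit 49907991) (nat_lit 9223761) [(nat_lit 818771), (nat_lit 2760372), (nat_lit 0)]) (PF.cons (PF.leaf (nat_lit 5778275) (nat_lit 839911) (nat_lit 48957552) (nat_lit 9209131) [(nat_lit 839911), (nat_lit 2791242), (nat_lit 0)]) (PF.cons (PF.leaf (nat_lit 6279540) (nat_lit 858315) (nat_lit 47997076) (nat_lit 9185869) [(nat_lit 858315), (nat_lit 2817145), (nat_lit 0)]) (PF.cons (PF.leaf (nat_lit 6789426) (nat_lit 874226) (nat_lit 47032618) (nat_lit 9154312) [(nat_lit 874226), (nat_lit 2838261), (nat_lit 0)]) (PF.cons (PF.leaf (nat_lit 7305231) (nat_lit 887859) (nat_lit 46069222) (nat_lit 9114919) [(nat_lit 887859), (nat_lit 2854826), (nat_lit 0)]) (PF.cons (PF.leaf (nat_lit 7824607) (nat_lit 899407) (nat_lit 45111097) (nat_lit 9068233) [(nat_lit 899407), (nat_lit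 2867111), (nat_lit 0)]) (PF.cons (PF.leaf (nat_lit 8345530) (nat_lit 909045) (nat_lit 44161739) (nat_lit 9014843) [(nat_lit 909045), (nat_lit 2875408), (nat_lit 0)]) (PF.cons (PF.leaf (nat_lit 8866262) (nat_lit 916938) (nat_lit 43224038) (nat_lit 8955362) [(nat_lit 916938), (nat_lit 2880015), (nat_lit 0)]) (PF.cons (PF.leaf (nat_lit 9385288) (nat_lit 923235) (nat_lit 42300360) (nat_lit 8890404) [(nat_lit 923235),
 (nat_lit 2881229), (nat_lit 0)]) (PF.cons PF.nil (PF.cons PF.nil PF.nil)))))))))))))) (PF.cons (PF.cons (PF.leaf (nat_lit 5027275) (nat_lit 2744560) (nat_lit 49672169) (nat_lit 9202962) [(nat_lit 0), (nat_lit 2744560), (nat_lit 0)]) (PF.cons (PF.leaf (nat_lit 5486441) (nat_lit 823268) (nat_lit 48772942) (nat_lit 9188089) [(nat_lit 823268), (nat_lit 2774837), (nat_lit 0)]) (PF.cons (PF.leaf (nat_lit 5961997) (nat_lit 843177) (nat_lit 47855145) (nat_lit 9165261) [(nat_lit 843177), (nat_lit 2800683), (nat_lit 0)]) (PF.cons (PF.leaf (nat_lit 6449852) (nat_lit 860385)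 (nat_lit 46926712) (nat_lit 9134632) [(nat_lit 860385), (nat_lit 2822103), (nat_lit 0)]) (PF.cons (PF.leaf (nat_lit 6946714) (nat_lit 875163) (nat_lit 45993979) (nat_lit 9096521) [(nat_lit 875163), (nat_lit 2839219), (nat_lit 0)]) (PF.cons (PF.leaf (nat_lit 7449808) (nat_lit 887738) (nat_lit 45062091) (nat_lit 9051362) [(nat_lit 887738), (nat_lit 2852221), (nat_lit 0)]) (PF.cons (PF.leaf (nat_lit 7956760) (nat_lit 898311) (nat_lit 44135254) (nat_lit 8999658) [(nat_lit 898311), (nat_lit 2861343), (nat_lit 0)]) (PF.cons (PF.leaf (nat_lit 8465542) (nat_lit 907059) (nat_lit 43216914) (nat_lit 8941955) [(nat_lit 907059),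
 (nat_lit 2866841), (nat_lit 0)]) (PF.cons (PF.leaf (nat_lit 8974417) (nat_lit 914145) (nat_lit 42309886) (nat_lit 8878816) [(nat_lit 914145), (nat_lit 2868980), (nat_lit 0)]) (PF.cons (PF.leaf (nat_lit 9481891) (nat_lit 919718) (nat_lit 41416451) (nat_lit 8810806) [(nat_lit 919718), (nat_lit 2868029), (nat_lit 0)]) (PF.cons (PF.leaf (nat_lit 9986692) (nat_lit 923913) (nat_lit 40538438) (nat_lit 8738478) [(nat_lit 923913), (nat_lit 2864252), (nat_lit 0)]) (PF.cons PF.nil PF.nil)))))))))))) (PF.cons (PF.cons (PF.leaf (nat_lit 6141651) (nat_lit 2806091) (nat_lit 46771276) (nat_lit 9113171) [(nat_lit 0), (nat_lit 2806091), (nat_lit 0)]) (PF.cons (PF.leaf (nat_lit 6615160) (nat_lit 860932) (nat_lit 45877513) (nat_lit 9076337) [(nat_lit 860932), (nat_lit 2823507), (nat_lit 0)]) (PF.cons (PF.leaf (nat_lit 7098542) (nat_lit 874787) (nat_lit 44978276) (nat_lit 9032718) [(nat_lit 874787), (nat_lit 2837060), (nat_lit 0)]) (PF.cons (PF.leaf (nat_lit 7588714) (nat_lit 886483) (nat_lit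 44079042) (nat_lit 8982729) [(nat_lit 886483), (nat_lit 2846897), (nat_lit 0)]) (PF.cons (PF.leaf (nat_lit 8083205) (nat_lit 896234) (nat_lit 43184172) (nat_lit 8926845) [(nat_lit 896234), (nat_lit 2853214),
 (nat_lit 0)]) (PF.cons (PF.leaf (nat_lit 8579932) (nat_lit 904225) (nat_lit 42297172) (nat_lit 8865575) [(nat_lit 904225), (nat_lit 2856233), (nat_lit 0)]) (PF.cons (PF.leaf (nat_lit 9077132) (nat_lit 910622) (nat_lit 41420859) (nat_lit 8799441) [(nat_lit 910622), (nat_lit 2856194), (nat_lit 0)]) (PF.cons (PF.leaf (nat_lit 9573308) (nat_lit 915572) (nat_lit 40557495) (nat_lit 8728965) [(nat_lit 915572), (nat_lit 2853336), (nat_lit 0)]) (PF.cons (PF.leaf (nat_lit 10067189) (nat_lit 919210) (nat_lit 39708874) (nat_lit 8654655) [(nat_lit 919210), (nat_lit 2847898), (nat_lit 0)]) (PF.cons PF.nil PF.nil)))))))))) (PF.cons (PF.cons (PF.leaf (nat_lit 7246326) (nat_lit 2832109) (nat_lit 43984683) (nat_lit 8963584) [(nat_lit 0), (nat_lit 2832109), (nat_lit 0)]) (PF.cons (PF.leaf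 (nat_lit 7723078) (nat_lit 884160) (nat_lit 43119302) (nat_lit 8909642) [(nat_lit 884160), (nat_lit 2839141), (nat_lit 0)]) (PF.cons (PF.leaf (nat_lit 8204940) (nat_lit 893241) (nat_lit 42257083) (nat_lit 8850353) [(nat_lit 893241), (nat_lit 2842978), (nat_lit 0)]) (PF.cons (PF.leaf (nat_lit 8689598) (nat_lit 900605) (nat_lit 41401726) (nat_lit 8786201) [(nat_lit 900605), (nat_lit 2843813), (nat_lit 0)]) (PF.cons
 (PF.leaf (nat_lit 9175228) (nat_lit 906424) (nat_lit 40556151) (nat_lit 8717677) [(nat_lit 906424), (nat_lit 2841857), (nat_lit 0)]) (PF.cons (PF.leaf (nat_lit 9660282) (nat_lit 910849) (nat_lit 39722665) (nat_lit 8645267) [(nat_lit 910849), (nat_lit 2837326), (nat_lit 0)]) (PF.cons (PF.leaf (nat_lit 10143472) (nat_lit 914016) (nat_lit 38903081) (nat_lit 8569442) [(nat_lit 914016), (nat_lit 2830437), (nat_lit 0)]) (PF.cons PF.nil PF.nil)))))))) (PF.cons (PF.cons (PF.leaf (nat_lit 8323113) (nat_lit 2830861) (nat_lit 41352990) (nat_lit 8770651) [(nat_lit 0), (nat_lit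 2830861), (nat_lit 0)]) (PF.cons (PF.leaf (nat_lit 8795460) (nat_lit 896245) (nat_lit 40529633) (nat_lit 8704255) [(nat_lit 896245), (nat_lit 2829779), (nat_lit 0)]) (PF.cons (PF.leaf (nat_lit 9269504) (nat_lit 901597) (nat_lit 39714842) (nat_lit 8633898) [(nat_lit 901597), (nat_lit 2826145), (nat_lit 0)]) (PF.cons (PF.leaf (nat_lit 9743532) (nat_lit 905593) (nat_lit 38911057) (nat_lit 8560040) [(nat_lit 905593), (nat_lit 2820155), (nat_lit 0)]) (PF.cons (PF.leaf (nat_lit 10216183) (nat_lit 908370) (nat_lit 38120166) (nat_lit 8483125) [(nat_lit 908370), (nat_lit 2812006), (nat_lit 0)]) (PF.cons (PF.leaf (nat_lit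
 10686346) (nat_lit 910052) (nat_lit 37343627) (nat_lit 8403575) [(nat_lit 910052), (nat_lit 2801891), (nat_lit 0)]) PF.nil)))))) (PF.cons (PF.cons (PF.leaf (nat_lit 9360889) (nat_lit 2809214) (nat_lit 38895894) (nat_lit 8548415) [(nat_lit 0), (nat_lit 2809214), (nat_lit 0)]) (PF.cons (PF.leaf (nat_lit 9823772) (nat_lit 899836) (nat_lit 38121683) (nat_lit 8473562) [(nat_lit 899836), (nat_lit 2801961), (nat_lit 0)]) (PF.cons (PF.leaf (nat_lit 10285974) (nat_lit 902304) (nat_lit 37359180) (nat_lit 8395948) [(nat_lit 902304), (nat_lit 2792725), (nat_lit 0)]) (PF.cons (PF.leaf (nat_lit 10746206) (nat_lit 903707) (nat_lit 36609939) (nat_lit 8315973) [(nat_lit 903707), (nat_lit 2781682), (nat_lit 0)]) PF.nil)))) (PF.cons (PF.cons (PF.leaf (nat_lit 10353583) (nat_lit 2772697) (nat_lit 36619122) (nat_lit 8308109) [(nat_lit 0), (nat_lit 2772697), (nat_lit 0)]) (PF.cons (PF.leaf (nat_lit 10803834) (nat_lit 897033) (nat_lit 35896799) (nat_lit 8228021) [(nat_lit 897033), (nat_lit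 2760869), (nat_lit 0)]) PF.nil)) (PF.cons PF.nil (PF.cons PF.nil (PF.cons PF.nil (PF.cons PF.nil PF.nil))))))))))))) (PF.cons (PF.cons (PF.cons (PF.leaf (nat_lit 3739836) (nat_lit 6481245) (nat_lit 51497444) (nat_lit
 9130122) [(nat_lit 0), (nat_lit 0), (nat_lit 6481245)]) (PF.cons (PF.leaf (nat_lit 4122259) (nat_lit 723977) (nat_lit 50738284) (nat_lit 9136750) [(nat_lit 723977), (nat_lit 0), (nat_lit 6509800)]) (PF.cons (PF.leaf (nat_lit 4537134) (nat_lit 756390) (nat_lit 49925601) (nat_lit 9136880) [(nat_lit 756390), (nat_lit 0), (nat_lit 6533549)]) (PF.cons (PF.leaf (nat_lit 4977155) (nat_lit 784301) (nat_lit 49074790) (nat_lit 9129703) [(nat_lit 784301), (nat_lit 0), (nat_lit 6551414)]) (PF.cons (PF.leaf (nat_lit 5436913) (nat_lit 808447) (nat_lit 48197335) (nat_lit 9114848) [(nat_lit 808447), (nat_lit 0), (nat_lit 6562838)]) (PF.cons (PF.leaf (nat_lit 5912044) (nat_lit 829343) (nat_lit 47302228) (nat_lit 9092251) [(nat_lit 829343), (nat_lit 0), (nat_lit 6567616)])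 (PF.cons (PF.leaf (nat_lit 6398923) (nat_lit 847376) (nat_lit 46396713) (nat_lit 9062065) [(nat_lit 847376), (nat_lit 0), (nat_lit 6565776)]) (PF.cons (PF.leaf (nat_lit 6894465) (nat_lit 862854) (nat_lit 45486719) (nat_lit 9024603) [(nat_lit 862854), (nat_lit 0), (nat_lit 6557508)]) (PF.cons (PF.leaf (nat_lit 7396030) (nat_lit 876035) (nat_lit 44577139) (nat_lit 8980277) [(nat_lit 876035), (nat_lit 0), (nat_lit 6543113)])
 (PF.cons (PF.leaf (nat_lit 7901362) (nat_lit 887139) (nat_lit 43672021) (nat_lit 8929572) [(nat_lit 887139), (nat_lit 0), (nat_lit 6522960)]) (PF.cons (PF.leaf (nat_lit 8408481) (nat_lit 896362) (nat_lit 42774709) (nat_lit 8873012) [(nat_lit 896362), (nat_lit 0), (nat_lit 6497461)]) (PF.cons (PF.leaf (nat_lit 8915698) (nat_lit 903878) (nat_lit 41887955) (nat_lit 8811137) [(nat_lit 903878), (nat_lit 0), (nat_lit 6467052)]) (PF.cons (PF.leaf (nat_lit 9421553) (nat_lit 909845) (nat_lit 41014003) (nat_lit 8744493) [(nat_lit 909845), (nat_lit 0), (nat_lit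 6432172)]) (PF.cons PF.nil (PF.cons PF.nil (PF.cons PF.nil PF.nil)))))))))))))))) (PF.cons (PF.cons (PF.leaf (nat_lit 4756329) (nat_lit 2689104) (nat_lit 48776737) (nat_lit 9107537) [(nat_lit 0), (nat_lit 2689104), (nat_lit 6535433)]) (PF.cons (PF.leaf (nat_lit 5179789) (nat_lit 788454) (nat_lit 47961840) (nat_lit 9092403) [(nat_lit 788454), (nat_lit 2720857), (nat_lit 6545257)]) (PF.cons (PF.leaf (nat_lit 5624801) (nat_lit 811574) (nat_lit 47117655) (nat_lit 9070204) [(nat_lit 811574), (nat_lit 2748439), (nat_lit 6549364)]) (PF.cons (PF.leaf (nat_lit 6086202) (nat_lit 831409) (nat_lit 46254414) (nat_lit 9040918) [(nat_lit 831409),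
 (nat_lit 2771730), (nat_lit 6547521)]) (PF.cons (PF.leaf (nat_lit 6560012) (nat_lit 848401) (nat_lit 45379978) (nat_lit 9004715) [(nat_lit 848401), (nat_lit 2790782), (nat_lit 6539729)]) (PF.cons (PF.leaf (nat_lit 7042966) (nat_lit 862888) (nat_lit 44500568) (nat_lit 8961902) [(nat_lit 862888), (nat_lit 2805748), (nat_lit 6526151)]) (PF.cons (PF.leaf (nat_lit 7532322) (nat_lit 875141) (nat_lit 43621200) (nat_lit 8912879) [(nat_lit 875141), (nat_lit 2816832), (nat_lit 6507052)]) (PF.cons (PF.leaf (nat_lit 8025767) (nat_lit 885389) (nat_lit 42745946) (nat_lit 8858100) [(nat_lit 885389), (nat_lit 2824273), (nat_lit 6482766)]) (PF.cons (PF.leaf (nat_lit 8521316) (nat_lit 893829) (nat_lit 41878125) (nat_lit 8798057) [(nat_lit 893829), (nat_lit 2828324), (nat_lit 6453668)]) (PF.cons (PF.leaf (nat_lit 9017275) (nat_lit 900636) (nat_lit 41020439) (nat_lit 8733250) [(nat_lit 900636), (nat_lit 2829243), (nat_lit 6420152)]) (PF.cons (PF.leaf (nat_lit 9512207) (nat_lit 905964) (nat_lit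 40175071) (nat_lit 8664184) [(nat_lit 905964), (nat_lit 2827287), (nat_lit 6382621)]) (PF.cons (PF.leaf (nat_lit 10004854) (nat_lit 909955) (nat_lit 39343771) (nat_lit 8591349) [(nat_lit 909955), (nat_lit
 2822706), (nat_lit 6341473)]) (PF.cons PF.nil (PF.cons PF.nil PF.nil)))))))))))))) (PF.cons (PF.cons (PF.leaf (nat_lit 5810807) (nat_lit 2754943) (nat_lit 46052588) (nat_lit 9017517) [(nat_lit 0), (nat_lit 2754943), (nat_lit 6528820)]) (PF.cons (PF.leaf (nat_lit 6257017) (nat_lit 831816) (nat_lit 45224695) (nat_lit 8982672) [(nat_lit 831816), (nat_lit 2774179), (nat_lit 6521270)]) (PF.cons (PF.leaf (nat_lit 6716953) (nat_lit 848021) (nat_lit 44383661) (nat_lit 8941460) [(nat_lit 848021), (nat_lit 2789646), (nat_lit 6508354)]) (PF.cons (PF.leaf (nat_lit 7186849) (nat_lit 861720) (nat_lit 43536370) (nat_lit 8894201) [(nat_lit 861720), (nat_lit 2801433), (nat_lit 6490209)]) (PF.cons (PF.leaf (nat_lit 7663767) (nat_lit 873215) (nat_lit 42688179) (nat_lit 8841287) [(nat_lit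 873215), (nat_lit 2809703), (nat_lit 6467076)]) (PF.cons (PF.leaf (nat_lit 8145268) (nat_lit 882751) (nat_lit 41843332) (nat_lit 8783155) [(nat_lit 882751), (nat_lit 2814656), (nat_lit 6439256)]) (PF.cons (PF.leaf (nat_lit 8629306) (nat_lit 890532) (nat_lit 41005227) (nat_lit 8720269) [(nat_lit 890532), (nat_lit 2816515), (nat_lit 6407093)]) (PF.cons (PF.leaf (nat_lit 9114153) (nat_lit 896736) (nat_lit 40176587)
 (nat_lit 8653099) [(nat_lit 896736), (nat_lit 2815510), (nat_lit 6370949)]) (PF.cons (PF.leaf (nat_lit 9598336) (nat_lit 901520) (nat_lit 39359593) (nat_lit 8582113) [(nat_lit 901520), (nat_lit 2811874), (nat_lit 6331190)]) (PF.cons (PF.leaf (nat_lit 10080638) (nat_lit 905024) (nat_lit 38555976) (nat_lit 8507768) [(nat_lit 905024), (nat_lit 2805834), (nat_lit 6288181)]) (PF.cons PF.nil (PF.cons PF.nil PF.nil)))))))))))) (PF.cons (PF.cons (PF.leaf (nat_lit 6871352) (nat_lit 2785697) (nat_lit 43406637) (nat_lit 8872896) [(nat_lit 0), (nat_lit 2785697), (nat_lit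 6472187)]) (PF.cons (PF.leaf (nat_lit 7327348) (nat_lit 859397) (nat_lit 42593188) (nat_lit 8822055) [(nat_lit 859397), (nat_lit 2794664), (nat_lit 6450175)]) (PF.cons (PF.leaf (nat_lit 7791418) (nat_lit 870309) (nat_lit 41777222) (nat_lit 8766011) [(nat_lit 870309), (nat_lit 2800443), (nat_lit 6423629)]) (PF.cons (PF.leaf (nat_lit 8260780) (nat_lit 879276) (nat_lit 40963357) (nat_lit 8705197) [(nat_lit 879276), (nat_lit 2803199), (nat_lit 6392830)]) (PF.cons (PF.leaf (nat_lit 8733259) (nat_lit 886520) (nat_lit 40155197) (nat_lit 8640059) [(nat_lit 886520), (nat_lit 2803126), (nat_lit 6358094)]) (PF.cons (PF.leaf (nat_lit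
 9207047) (nat_lit 892227) (nat_lit 39355580) (nat_lit 8571046) [(nat_lit 892227), (nat_lit 2800431), (nat_lit 6319756)]) (PF.cons (PF.leaf (nat_lit 9680643) (nat_lit 896557) (nat_lit 38566745) (nat_lit 8498600) [(nat_lit 896557), (nat_lit 2795322), (nat_lit 6278154)]) (PF.cons (PF.leaf (nat_lit 10152756) (nat_lit 899651) (nat_lit 37790454) (nat_lit 8423146) [(nat_lit 899651), (nat_lit 2788008), (nat_lit 6233624)]) (PF.cons PF.nil (PF.cons PF.nil PF.nil)))))))))) (PF.cons (PF.cons (PF.leaf (nat_lit 7916530) (nat_lit 2789268) (nat_lit 40887183) (nat_lit 8687468) [(nat_lit 0), (nat_lit 2789268), (nat_lit 6377087)]) (PF.cons (PF.leaf (nat_lit 8373270) (nat_lit 875001) (nat_lit 40104998) (nat_lit 8624607) [(nat_lit 875001), (nat_lit 2790094), (nat_lit 6343827)]) (PF.cons (PF.leaf (nat_lit 8834020) (nat_lit 881832) (nat_lit 39327083) (nat_lit 8557773) [(nat_lit 881832), (nat_lit 2788329), (nat_lit 6306975)]) (PF.cons (PF.leaf (nat_lit 9296718) (nat_lit 887145) (nat_lit 38556504)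 (nat_lit 8487401) [(nat_lit 887145), (nat_lit 2784156), (nat_lit 6266845)]) (PF.cons (PF.leaf (nat_lit 9759763) (nat_lit 891110) (nat_lit 37795641) (nat_lit 8413915) [(nat_lit 891110), (nat_lit 2777765),
 (nat_lit 6223753)]) (PF.cons (PF.leaf (nat_lit 10221826) (nat_lit 893871) (nat_lit 37046338) (nat_lit 8337720) [(nat_lit 893871), (nat_lit 2769345), (nat_lit 6178014)]) (PF.cons (PF.leaf (nat_lit 10681803) (nat_lit 895556) (nat_lit 36310024) (nat_lit 8259198) [(nat_lit 895556), (nat_lit 2759080), (nat_lit 6129928)]) (PF.cons PF.nil PF.nil)))))))) (PF.cons (PF.cons (PF.leaf (nat_lit 8932579) (nat_lit 2772271) (nat_lit 38519771) (nat_lit 8473692) [(nat_lit 0), (nat_lit 2772271), (nat_lit 6253990)]) (PF.cons (PF.leaf (nat_lit 9383912) (nat_lit 881517) (nat_lit 37778341) (nat_lit 8402417) [(nat_lit 881517), (nat_lit 2766818), (nat_lit 6212444)]) (PF.cons (PF.leaf (nat_lit 9836372) (nat_lit 885205) (nat_lit 37045324) (nat_lit 8328285) [(nat_lit 885205), (nat_lit 2759319),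 (nat_lit 6168191)]) (PF.cons (PF.leaf (nat_lit 10288430) (nat_lit 887709) (nat_lit 36322719) (nat_lit 8251688) [(nat_lit 887709), (nat_lit 2749949), (nat_lit 6121528)]) (PF.cons (PF.leaf (nat_lit 10738906) (nat_lit 889159) (nat_lit 35612056) (nat_lit 8172992) [(nat_lit 889159), (nat_lit 2738877), (nat_lit 6072737)]) (PF.cons PF.nil PF.nil)))))) (PF.cons (PF.cons (PF.leaf (nat_lit 9911263) (nat_lit 2740087) (nat_lit
 36314759) (nat_lit 8241892) [(nat_lit 0), (nat_lit 2740087), (nat_lit 6111636)]) (PF.cons (PF.leaf (nat_lit 10353153) (nat_lit 881182) (nat_lit 35618637) (nat_lit 8165213) [(nat_lit 881182), (nat_lit 2729910), (nat_lit 6064316)]) (PF.cons (PF.leaf (nat_lit 10794161) (nat_lit 882462) (nat_lit 34933274) (nat_lit 8086615) [(nat_lit 882462), (nat_lit 2718157), (nat_lit 6015052)]) (PF.cons PF.nil PF.nil)))) (PF.cons (PF.cons (PF.leaf (nat_lit 10848215) (nat_lit 2696987) (nat_lit 34272738) (nat_lit 8000179) [(nat_lit 0), (nat_lit 2696987), (nat_lit 5956981)]) (PF.cons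 PF.nil PF.nil)) (PF.cons PF.nil (PF.cons PF.nil (PF.cons PF.nil PF.nil))))))))))) (PF.cons (PF.cons (PF.cons (PF.leaf (nat_lit 5514767) (nat_lit 6451138) (nat_lit 45287763) (nat_lit 8918771) [(nat_lit 0), (nat_lit 0), (nat_lit 6451138)]) (PF.cons (PF.leaf (nat_lit 5929068) (nat_lit 798002) (nat_lit 44534699) (nat_lit 8886346) [(nat_lit 798002), (nat_lit 0), (nat_lit 6444882)]) (PF.cons (PF.leaf (nat_lit 6362147) (nat_lit 817572) (nat_lit 43758367) (nat_lit 8847869) [(nat_lit 817572), (nat_lit 0), (nat_lit 6433715)]) (PF.cons (PF.leaf (nat_lit 6809119) (nat_lit 834005) (nat_lit 42967904) (nat_lit 8803595) [(nat_lit 834005),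
 (nat_lit 0), (nat_lit 6417648)]) (PF.cons (PF.leaf (nat_lit 7266322) (nat_lit 847785) (nat_lit 42170164) (nat_lit 8753851) [(nat_lit 847785), (nat_lit 0), (nat_lit 6396827)]) (PF.cons (PF.leaf (nat_lit 7730800) (nat_lit 859275) (nat_lit 41370453) (nat_lit 8699019) [(nat_lit 859275), (nat_lit 0), (nat_lit 6371481)]) (PF.cons (PF.leaf (nat_lit 8200141) (nat_lit 868759) (nat_lit 40572955) (nat_lit 8639512) [(nat_lit 868759), (nat_lit 0), (nat_lit 6341895)]) (PF.cons (PF.leaf (nat_lit 8672313) (nat_lit 876468) (nat_lit 39781002) (nat_lit 8575758) [(nat_lit 876468), (nat_lit 0), (nat_lit 6308384)]) (PF.cons (PF.leaf (nat_lit 9145631) (nat_lit 882599) (nat_lit 38997263) (nat_lit 8508190) [(nat_lit 882599), (nat_lit 0), (nat_lit 6271280)]) (PF.cons (PF.leaf (nat_lit 9618635) (nat_lit 887318) (nat_lit 38223867) (nat_lit 8437235) [(nat_lit 887318), (nat_lit 0), (nat_lit 6230920)]) (PF.cons (PF.leaf (nat_lit 10090109) (nat_lit 890773) (nat_lit 37462508) (nat_lit 8363305) [(nat_lit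 890773), (nat_lit 0), (nat_lit 6187634)]) (PF.cons PF.nil (PF.cons PF.nil (PF.cons PF.nil PF.nil)))))))))))))) (PF.cons (PF.cons (PF.leaf (nat_lit 6524960) (nat_lit 2736535) (nat_lit 42796069) (nat_lit 8779653)
 [(nat_lit 0), (nat_lit 2736535), (nat_lit 6398277)]) (PF.cons (PF.leaf (nat_lit 6956985) (nat_lit 831567) (nat_lit 42040105) (nat_lit 8732223) [(nat_lit 831567), (nat_lit 2747759), (nat_lit 6378578)]) (PF.cons (PF.leaf (nat_lit 7400738) (nat_lit 844892) (nat_lit 41274570) (nat_lit 8679662) [(nat_lit 844892), (nat_lit 2755762), (nat_lit 6354516)]) (PF.cons (PF.leaf (nat_lit 7852750) (nat_lit 855897) (nat_lit 40505435) (nat_lit 8622373) [(nat_lit 855897), (nat_lit 2760683), (nat_lit 6326313)]) (PF.cons (PF.leaf (nat_lit 8310365) (nat_lit 864899) (nat_lit 39737260) (nat_lit 8560774) [(nat_lit 864899), (nat_lit 2762703), (nat_lit 6294237)]) (PF.cons (PF.leaf (nat_lit 8771422) (nat_lit 872149) (nat_lit 38973589) (nat_lit 8495284) [(nat_lit 872149), (nat_lit 2762021),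 (nat_lit 6258585)]) (PF.cons (PF.leaf (nat_lit 9234124) (nat_lit 877850) (nat_lit 38217212) (nat_lit 8426321) [(nat_lit 877850), (nat_lit 2758845), (nat_lit 6219666)]) (PF.cons (PF.leaf (nat_lit 9696979) (nat_lit 882175) (nat_lit 37470327) (nat_lit 8354291) [(nat_lit 882175), (nat_lit 2753380), (nat_lit 6177791)]) (PF.cons (PF.leaf (nat_lit 10158727) (nat_lit 885274) (nat_lit 36734665) (nat_lit 8279583) [(nat_lit 885274),
 (nat_lit 2745829), (nat_lit 6133270)]) (PF.cons PF.nil (PF.cons PF.nil (PF.cons PF.nil PF.nil)))))))))))) (PF.cons (PF.cons (PF.leaf (nat_lit 7533887) (nat_lit 2745612) (nat_lit 40397406) (nat_lit 8602104) [(nat_lit 0), (nat_lit 2745612), (nat_lit 6309038)]) (PF.cons (PF.leaf (nat_lit 7972625) (nat_lit 851626) (nat_lit 39660034) (nat_lit 8543009) [(nat_lit 851626), (nat_lit 2748568), (nat_lit 6278503)]) (PF.cons (PF.leaf (nat_lit 8418124) (nat_lit 860295) (nat_lit 38921819) (nat_lit 8479878) [(nat_lit 860295), (nat_lit 2748865), (nat_lit 6244396)])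 (PF.cons (PF.leaf (nat_lit 8867855) (nat_lit 867203) (nat_lit 38186696) (nat_lit 8413139) [(nat_lit 867203), (nat_lit 2746677), (nat_lit 6207005)]) (PF.cons (PF.leaf (nat_lit 9319888) (nat_lit 872574) (nat_lit 37457684) (nat_lit 8343204) [(nat_lit 872574), (nat_lit 2742189), (nat_lit 6166624)]) (PF.cons (PF.leaf (nat_lit 9772615) (nat_lit 876589) (nat_lit 36737125) (nat_lit 8270466) [(nat_lit 876589), (nat_lit 2735589), (nat_lit 6123547)]) (PF.cons (PF.leaf (nat_lit 10224736) (nat_lit 879403) (nat_lit 36026839) (nat_lit 8195299) [(nat_lit 879403), (nat_lit 2727062), (nat_lit 6078062)]) (PF.cons PF.nil (PF.cons PF.nil (PF.cons PF.nil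
 PF.nil)))))))))) (PF.cons (PF.cons (PF.leaf (nat_lit 8524540) (nat_lit 2733716) (nat_lit 38125387) (nat_lit 8397069) [(nat_lit 0), (nat_lit 2733716), (nat_lit 6192602)]) (PF.cons (PF.leaf (nat_lit 8962466) (nat_lit 861647) (nat_lit 37419233) (nat_lit 8329550) [(nat_lit 861647), (nat_lit 2730222), (nat_lit 6153856)]) (PF.cons (PF.leaf (nat_lit 9403627) (nat_lit 866790) (nat_lit 36717691) (nat_lit 8259044) [(nat_lit 866790), (nat_lit 2724601), (nat_lit 6112346)]) (PF.cons (PF.leaf (nat_lit 9846169) (nat_lit 870580) (nat_lit 36023341) (nat_lit 8185943) [(nat_lit 870580), (nat_lit 2717023), (nat_lit 6068356)]) (PF.cons (PF.leaf (nat_lit 10288666) (nat_lit 873181) (nat_lit 35338161) (nat_lit 8110616) [(nat_lit 873181), (nat_lit 2707661), (nat_lit 6022161)]) (PF.cons (PF.leaf (nat_lit 10729948) (nat_lit 874731) (nat_lit 34663666) (nat_lit 8033401) [(nat_lit 874731), (nat_lit 2696678), (nat_lit 5974026)]) (PF.cons PF.nil (PF.cons PF.nil PF.nil)))))))) (PF.cons (PF.cons (PF.leaf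 (nat_lit 9486225) (nat_lit 2706177) (nat_lit 35996127) (nat_lit 8174000) [(nat_lit 0), (nat_lit 2706177), (nat_lit 6056986)]) (PF.cons (PF.leaf (nat_lit 9918271) (nat_lit 864160) (nat_lit 35327982) (nat_lit
 8100870) [(nat_lit 864160), (nat_lit 2697770), (nat_lit 6012358)]) (PF.cons (PF.leaf (nat_lit 10351072) (nat_lit 866622) (nat_lit 34667717) (nat_lit 8025663) [(nat_lit 866622), (nat_lit 2687701), (nat_lit 5965691)]) (PF.cons (PF.leaf (nat_lit 10783241) (nat_lit 868037) (nat_lit 34017007) (nat_lit 7948716) [(nat_lit 868037), (nat_lit 2676124), (nat_lit 5917238)]) (PF.cons PF.nil (PF.cons PF.nil PF.nil)))))) (PF.cons (PF.cons (PF.leaf (nat_lit 10412658) (nat_lit 2667248) (nat_lit 34014532) (nat_lit 7940539) [(nat_lit 0), (nat_lit 2667248), (nat_lit 5908750)]) (PF.cons (PF.leaf (nat_lit 10835519) (nat_lit 861074) (nat_lit 33387373) (nat_lit 7864090) [(nat_lit 861074), (nat_lit 2655185), (nat_lit 5860174)]) (PF.cons PF.nil (PF.cons PF.nil PF.nil)))) (PF.cons (PF.cons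 (PF.leaf (nat_lit 11300597) (nat_lit 2620264) (nat_lit 32178534) (nat_lit 7702591) [(nat_lit 0), (nat_lit 2620264), (nat_lit 5753049)]) (PF.cons PF.nil PF.nil)) (PF.cons PF.nil (PF.cons PF.nil (PF.cons PF.nil PF.nil)))))))))) (PF.cons (PF.cons (PF.cons (PF.leaf (nat_lit 7178370) (nat_lit 6238951) (nat_lit 39877970) (nat_lit 8513986) [(nat_lit 0), (nat_lit 0), (nat_lit 6238951)]) (PF.cons (PF.leaf (nat_lit 7595910)
 (nat_lit 825320) (nat_lit 39190475) (nat_lit 8459009) [(nat_lit 825320), (nat_lit 0), (nat_lit 6211336)]) (PF.cons (PF.leaf (nat_lit 8023667) (nat_lit 836389) (nat_lit 38495770) (nat_lit 8399851) [(nat_lit 836389), (nat_lit 0), (nat_lit 6180137)]) (PF.cons (PF.leaf (nat_lit 8458416) (nat_lit 845310) (nat_lit 37799054) (nat_lit 8336957) [(nat_lit 845310), (nat_lit 0), (nat_lit 6145622)]) (PF.cons (PF.leaf (nat_lit 8897742) (nat_lit 852406) (nat_lit 37104238) (nat_lit 8270744) [(nat_lit 852406), (nat_lit 0), (nat_lit 6108068)]) (PF.cons (PF.leaf (nat_lit 9339707)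 (nat_lit 857924) (nat_lit 36414319) (nat_lit 8201606) [(nat_lit 857924), (nat_lit 0), (nat_lit 6067755)]) (PF.cons (PF.leaf (nat_lit 9782718) (nat_lit 862065) (nat_lit 35731623) (nat_lit 8129914) [(nat_lit 862065), (nat_lit 0), (nat_lit 6024961)]) (PF.cons (PF.leaf (nat_lit 10225459) (nat_lit 864994) (nat_lit 35057961) (nat_lit 8056019) [(nat_lit 864994), (nat_lit 0), (nat_lit 5979957)]) (PF.cons PF.nil (PF.cons PF.nil PF.nil)))))))))) (PF.cons (PF.cons (PF.leaf (nat_lit 8138979) (nat_lit 2693167) (nat_lit 37709122) (nat_lit 8318144) [(nat_lit 0), (nat_lit 2693167), (nat_lit 6129459)]) (PF.cons (PF.leaf (nat_lit 8561151)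
 (nat_lit 839738) (nat_lit 37041572) (nat_lit 8254637) [(nat_lit 839738), (nat_lit 2691853), (nat_lit 6093670)]) (PF.cons (PF.leaf (nat_lit 8989112) (nat_lit 846684) (nat_lit 36374086) (nat_lit 8187959) [(nat_lit 846684), (nat_lit 2688298), (nat_lit 6055033)]) (PF.cons (PF.leaf (nat_lit 9420542) (nat_lit 852027) (nat_lit 35710047) (nat_lit 8118520) [(nat_lit 852027), (nat_lit 2682678), (nat_lit 6013828)]) (PF.cons (PF.leaf (nat_lit 9853702) (nat_lit 855988) (nat_lit 35052019) (nat_lit 8046696) [(nat_lit 855988), (nat_lit 2675165), (nat_lit 5970326)]) (PF.cons (PF.leaf (nat_lit 10287159) (nat_lit 858743) (nat_lit 34401969) (nat_lit 7972835) [(nat_lit 858743), (nat_lit 2665931), (nat_lit 5924787)]) (PF.cons (PF.leaf (nat_lit 10719752) (nat_lit 860439) (nat_lit 33761406) (nat_lit 7897255) [(nat_lit 860439), (nat_lit 2655138), (nat_lit 5877458)]) (PF.cons PF.nil PF.nil)))))))) (PF.cons (PF.cons (PF.leaf (nat_lit 9080070) (nat_lit 2670708) (nat_lit 35660826) (nat_lit 8104143)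 [(nat_lit 0), (nat_lit 2670708), (nat_lit 6000808)]) (PF.cons (PF.leaf (nat_lit 9500476) (nat_lit 845654) (nat_lit 35022942) (nat_lit 8034757) [(nat_lit 845654), (nat_lit 2664228), (nat_lit 5959000)]) (PF.cons
 (PF.leaf (nat_lit 9923567) (nat_lit 849523) (nat_lit 34389595) (nat_lit 7963098) [(nat_lit 849523), (nat_lit 2655980), (nat_lit 5915036)]) (PF.cons (PF.leaf (nat_lit 10347647) (nat_lit 852175) (nat_lit 33762991) (nat_lit 7889521) [(nat_lit 852175), (nat_lit 2646123), (nat_lit 5869175)]) (PF.cons (PF.leaf (nat_lit 10771442) (nat_lit 853768) (nat_lit 33144801) (nat_lit 7814344) [(nat_lit 853768), (nat_lit 2634810), (nat_lit 5821657)]) (PF.cons PF.nil PF.nil)))))) (PF.cons (PF.cons (PF.leaf (nat_lit 9993103) (nat_lit 2636253) (nat_lit 33743311) (nat_lit 7879200) [(nat_lit 0), (nat_lit 2636253), (nat_lit 5859180)]) (PF.cons (PF.leaf (nat_lit 10407476) (nat_lit 845292) (nat_lit 33140104) (nat_lit 7806152) [(nat_lit 845292), (nat_lit 2625884), (nat_lit 5813202)]) (PF.cons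 (PF.leaf (nat_lit 10822362) (nat_lit 846843) (nat_lit 32544084) (nat_lit 7731584) [(nat_lit 846843), (nat_lit 2614149), (nat_lit 5765669)]) (PF.cons PF.nil PF.nil)))) (PF.cons (PF.cons (PF.leaf (nat_lit 10873139) (nat_lit 2593194) (nat_lit 31958368) (nat_lit 7649018) [(nat_lit 0), (nat_lit 2593194), (nat_lit 5709549)]) (PF.cons (PF.leaf (nat_lit 11278705) (nat_lit 840289) (nat_lit 31391845) (nat_lit 7574079) [(nat_lit
 840289), (nat_lit 2579966), (nat_lit 5660910)]) PF.nil)) (PF.cons PF.nil (PF.cons PF.nil (PF.cons PF.nil PF.nil)))))))) (PF.cons (PF.cons (PF.cons (PF.leaf (nat_lit 8694931) (nat_lit 5942819) (nat_lit 35305607) (nat_lit 8031928) [(nat_lit 0), (nat_lit 0), (nat_lit 5942819)]) (PF.cons (PF.leaf (nat_lit 9101415) (nat_lit 825202) (nat_lit 34701017) (nat_lit 7966561) [(nat_lit 825202), (nat_lit 0), (nat_lit 5904007)]) (PF.cons (PF.leaf (nat_lit 9512967) (nat_lit 830812) (nat_lit 34096942) (nat_lit 7898666) [(nat_lit 830812), (nat_lit 0), (nat_lit 5862894)])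 (PF.cons (PF.leaf (nat_lit 9927428) (nat_lit 834956) (nat_lit 33496317) (nat_lit 7828633) [(nat_lit 834956), (nat_lit 0), (nat_lit 5819747)]) (PF.cons (PF.leaf (nat_lit 10343218) (nat_lit 837848) (nat_lit 32901348) (nat_lit 7756804) [(nat_lit 837848), (nat_lit 0), (nat_lit 5774816)]) (PF.cons (PF.leaf (nat_lit 10759046) (nat_lit 839659) (nat_lit 32313708) (nat_lit 7683485) [(nat_lit 839659), (nat_lit 0), (nat_lit 5728330)]) (PF.cons PF.nil (PF.cons PF.nil PF.nil)))))))) (PF.cons (PF.cons (PF.leaf (nat_lit 9591095) (nat_lit 2603758) (nat_lit 33456912) (nat_lit 7815879) [(nat_lit 0), (nat_lit 2603758), (nat_lit 5808065)]) (PF.cons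
 (PF.leaf (nat_lit 9995257) (nat_lit 828091) (nat_lit 32879742) (nat_lit 7746439) [(nat_lit 828091), (nat_lit 2595241), (nat_lit 5764824)]) (PF.cons (PF.leaf (nat_lit 10401710) (nat_lit 830990) (nat_lit 32306826) (nat_lit 7675247) [(nat_lit 830990), (nat_lit 2585236), (nat_lit 5719880)]) (PF.cons (PF.leaf (nat_lit 10808883) (nat_lit 832786) (nat_lit 31740070) (nat_lit 7602623) [(nat_lit 832786), (nat_lit 2573892), (nat_lit 5673467)]) (PF.cons PF.nil (PF.cons PF.nil PF.nil)))))) (PF.cons (PF.cons (PF.leaf (nat_lit 10460492) (nat_lit 2564919) (nat_lit 31726353) (nat_lit 7593756) [(nat_lit 0), (nat_lit 2564919), (nat_lit 5664716)]) (PF.cons (PF.leaf (nat_lit 10858657) (nat_lit 825665) (nat_lit 31180424) (nat_lit 7522013) [(nat_lit 825665), (nat_lit 2553291), (nat_lit 5618531)]) (PF.cons (PF.leaf (nat_lit 11257179) (nat_lit 826539) (nat_lit 30640949) (nat_lit 7449148) [(nat_lit 826539), (nat_lit 2540522), (nat_lit 5571147)]) (PF.cons PF.nil PF.nil)))) (PF.cons (PF.cons (PF.leaf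 (nat_lit 11299123) (nat_lit 2519541) (nat_lit 30113999) (nat_lit 7369863) [(nat_lit 0), (nat_lit 2519541), (nat_lit 5516581)]) (PF.cons PF.nil PF.nil)) (PF.cons PF.nil (PF.cons PF.nil PF.nil)))))) (PF.cons
 (PF.cons (PF.cons (PF.leaf (nat_lit 10064150) (nat_lit 5618348) (nat_lit 31480533) (nat_lit 7536534) [(nat_lit 0), (nat_lit 0), (nat_lit 5618348)]) (PF.cons (PF.leaf (nat_lit 10453261) (nat_lit 809688) (nat_lit 30957099) (nat_lit 7468198) [(nat_lit 809688), (nat_lit 0), (nat_lit 5574765)]) (PF.cons (PF.leaf (nat_lit 10844385) (nat_lit 811843) (nat_lit 30437542) (nat_lit 7398493) [(nat_lit 811843), (nat_lit 0), (nat_lit 5529817)]) (PF.cons (PF.leaf (nat_lit 11236049) (nat_lit 812992) (nat_lit 29923528) (nat_lit 7327710) [(nat_lit 812992), (nat_lit 0), (nat_lit 5483719)]) PF.nil)))) (PF.cons (PF.cons (PF.leaf (nat_lit 10894262) (nat_lit 2493762) (nat_lit 29914533) (nat_lit 7320129) [(nat_lit 0), (nat_lit 2493762), (nat_lit 5476077)]) (PF.cons (PF.leaf (nat_lit 11277539)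 (nat_lit 805790) (nat_lit 29419046) (nat_lit 7250439) [(nat_lit 805790), (nat_lit 2481369), (nat_lit 5430433)]) PF.nil)) (PF.cons PF.nil (PF.cons PF.nil PF.nil)))) (PF.cons (PF.cons (PF.cons (PF.leaf (nat_lit 11299183) (nat_lit 5294673) (nat_lit 28281264) (nat_lit 7059508) [(nat_lit 0), (nat_lit 0), (nat_lit 5294673)]) (PF.cons PF.nil PF.nil)) (PF.cons PF.nil PF.nil)) (PF.cons PF.nil (PF.cons PF.nil (PF.cons PF.nil
 PF.nil))))))))))

def p14_21_1_0 : pfC (piC [(nat_lit 33242365), (nat_lit 21715570), (nat_lit 14024239)] (nat_lit 11394344)) p14_21_1 (nat_lit 3) (nat_lit 0) (nat_lit 1) = true := by decide +kernel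
def p14_21_1_1 : pfC (piC [(nat_lit 33242365), (nat_lit 21715570), (nat_lit 14024239)] (nat_lit 11394344)) p14_21_1 (nat_lit 3) (nat_lit 1) (nat_lit 2) = true := by decide +kernel
def p14_21_1_2 : pfC (piC [(nat_lit 33242365), (nat_lit 21715570), (nat_lit 14024239)] (nat_lit 11394344)) p14_21_1 (nat_lit 3) (nat_lit 2) (nat_lit 3) = true := by decide +kernel
def p14_21_1_3 : pfC (piC [(nat_lit 33242365), (nat_lit 21715570), (nat_lit 14024239)] (nat_lit 11394344)) p14_21_1 (nat_lit 3) (nat_lit 3) (nat_lit 4) = true := by decide +kernel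
def p14_21_1_4 : pfC (piC [(nat_lit 33242365), (nat_lit 21715570), (nat_lit 14024239)] (nat_lit 11394344)) p14_21_1 (nat_lit 3) (nat_lit 4) (nat_lit 5) = true := by decide +kernel
def p14_21_1_5 : pfC (piC [(nat_lit 33242365), (nat_lit 21715570), (nat_lit 14024239)] (nat_lit 11394344)) p14_21_1 (nat_lit 3) (nat_lit 5) (nat_lit 6) = true := by decide +kernel
def p14_21_1_6 : pfC (piC [(nat_lit 33242365), (nat_lit 21715570), (nat_lit 14024239)] (nat_lit 11394344)) p14_21_1 (nat_lit 3) (nat_lit 6) (nat_lit 7) = true := by decide +kernel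
def p14_21_1_7 : pfC (piC [(nat_lit 33242365), (nat_lit 21715570), (nat_lit 14024239)] (nat_lit 11394344)) p14_21_1 (nat_lit 3) (nat_lit 7) (nat_lit 8) = true := by decide +kernel
def p14_21_1_8 : pfC (piC [(nat_lit 33242365), (nat_lit 21715570), (nat_lit 14024239)] (nat_lit 11394344)) p14_21_1 (nat_lit 3) (nat_lit 8) (nat_lit 9) = true := by decide +kernel
def p14_21_1_9 : pfC (piC [(nat_lit 33242365), (nat_lit 21715570), (nat_lit 14024239)] (nat_lit 11394344)) p14_21_1 (nat_lit 3) (nat_lit 9) (nat_lit 10) = true := by decide +kernel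
def p14_21_1_10 : pfC (piC [(nat_lit 33242365), (nat_lit 21715570), (nat_lit 14024239)] (nat_lit 11394344)) p14_21_1 (nat_lit 3) (nat_lit 10) (nat_lit 11) = true := by decide +kernel
def p14_21_1_11 : pfC (piC [(nat_lit 33242365), (nat_lit 21715570), (nat_lit 14024239)] (nat_lit 11394344)) p14_21_1 (nat_lit 3) (nat_lit 11) (nat_lit 12) = true := by decide +kernel
def p14_21_1_12 : pfC (piC [(nat_lit 33242365), (nat_lit 21715570), (nat_lit 14024239)] (nat_lit 11394344)) p14_21_1 (nat_lit 3) (nat_lit 12) (nat_lit 13) = true := by decide +kernel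
def p14_21_1_13 : pfC (piC [(nat_lit 33242365), (nat_lit 21715570), (nat_lit 14024239)] (nat_lit 11394344)) p14_21_1 (nat_lit 3) (nat_lit 13) (nat_lit 14) = true := by decide +kernel
def p14_21_1_14 : pfC (piC [(nat_lit 33242365), (nat_lit 21715570), (nat_lit 14024239)] (nat_lit 11394344)) p14_21_1 (nat_lit 3) (nat_lit 14) (nat_lit 15) = true := by decide +kernel
def p14_21_1_15 : pfC (piC [(nat_lit 33242365), (nat_lit 21715570), (nat_lit 14024239)] (nat_lit 11394344)) p14_21_1 (nat_lit 3) (nat_lit 15) (nat_lit 16) = true := by decide +kernel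
def p14_21_1_16 : pfC (piC [(nat_lit 33242365), (nat_lit 21715570), (nat_lit 14024239)] (nat_lit 11394344)) p14_21_1 (nat_lit 3) (nat_lit 16) (nat_lit 17) = true := by decide +kernel
def p14_21_1_17 : pfC (piC [(nat_lit 33242365), (nat_lit 21715570), (nat_lit 14024239)] (nat_lit 11394344)) p14_21_1 (nat_lit 3) (nat_lit 17) (nat_lit 18) = true := by decide +kernel
def p14_21_1_18 : pfC (piC [(nat_lit 33242365), (nat_lit 21715570), (nat_lit 14024239)] (nat_lit 11394344)) p14_21_1 (nat_lit 3) (nat_lit 18) (nat_lit 19) = true := by decide +kernel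
def p14_21_1_19 : pfC (piC [(nat_lit 33242365), (nat_lit 21715570), (nat_lit 14024239)] (nat_lit 11394344)) p14_21_1 (nat_lit 3) (nat_lit 19) (nat_lit 20) = true := by decide +kernel
def p14_21_1_20 : pfC (piC [(nat_lit 33242365), (nat_lit 21715570), (nat_lit 14024239)] (nat_lit 11394344)) p14_21_1 (nat_lit 3) (nat_lit 20) (nat_lit 21) = true := by decide +kernel
def p14_21_1_21 : pfC (piC [(nat_lit 33242365), (nat_lit 21715570), (nat_lit 14024239)] (nat_lit 11394344)) p14_21_1 (nat_lit 3) (nat_lit 21) (nat_lit 22) = true := by decide +kernel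
def p14_21_1_22 : pfC (piC [(nat_lit 33242365), (nat_lit 21715570), (nat_lit 14024239)] (nat_lit 11394344)) p14_21_1 (nat_lit 3) (nat_lit 22) (nat_lit 23) = true := by decide +kernel
def p14_21_1_23 : pfC (piC [(nat_lit 33242365), (nat_lit 21715570), (nat_lit 14024239)] (nat_lit 11394344)) p14_21_1 (nat_lit 3) (nat_lit 23) (nat_lit 24) = true := by decide +kernel
def p14_21_1_24 : pfC (piC [(nat_lit 33242365), (nat_lit 21715570), (nat_lit 14024239)] (nat_lit 11394344)) p14_21_1 (nat_lit 3) (nat_lit 24) (nat_lit 25) = true := by decide +kernel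
def p14_21_1_25 : pfC (piC [(nat_lit 33242365), (nat_lit 21715570), (nat_lit 14024239)] (nat_lit 11394344)) p14_21_1 (nat_lit 3) (nat_lit 25) (nat_lit 26) = true := by decide +kernel
def p14_21_1_26 : pfC (piC [(nat_lit 33242365), (nat_lit 21715570), (nat_lit 14024239)] (nat_lit 11394344)) p14_21_1 (nat_lit 3) (nat_lit 26) (nat_lit 27) = true := by decide +kernel
def p14_21_1_27 : pfC (piC [(nat_lit 33242365), (nat_lit 21715570), (nat_lit 14024239)] (nat_lit 11394344)) p14_21_1 (nat_lit 3) (nat_lit 27) (nat_lit 28) = true := by decide +kernel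
def p14_21_1_28 : pfC (piC [(nat_lit 33242365), (nat_lit 21715570), (nat_lit 14024239)] (nat_lit 11394344)) p14_21_1 (nat_lit 3) (nat_lit 28) (nat_lit 29) = true := by decide +kernel
def p14_21_1_29 : pfC (piC [(nat_lit 33242365), (nat_lit 21715570), (nat_lit 14024239)] (nat_lit 11394344)) p14_21_1 (nat_lit 3) (nat_lit 29) (nat_lit 30) = true := by decide +kernel
def p14_21_1_30 : pfC (piC [(nat_lit 33242365), (nat_lit 21715570), (nat_lit 14024239)] (nat_lit 11394344)) p14_21_1 (nat_lit 3) (nat_lit 30) (nat_lit 31) = true := by decide +kernel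
def p14_21_1_31 : pfC (piC [(nat_lit 33242365), (nat_lit 21715570), (nat_lit 14024239)] (nat_lit 11394344)) p14_21_1 (nat_lit 3) (nat_lit 31) (nat_lit 32) = true := by decide +kernel
def p14_21_1_32 : pfC (piC [(nat_lit 33242365), (nat_lit 21715570), (nat_lit 14024239)] (nat_lit 11394344)) p14_21_1 (nat_lit 3) (nat_lit 32) (nat_lit 33) = true := by decide +kernel
def p14_21_1_33 : pfC (piC [(nat_lit 33242365), (nat_lit 21715570), (nat_lit 14024239)] (nat_lit 11394344)) p14_21_1 (nat_lit 3) (nat_lit 33) (nat_lit 34) = true := by decide +kernel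
def p14_21_1_34 : pfC (piC [(nat_lit 33242365), (nat_lit 21715570), (nat_lit 14024239)] (nat_lit 11394344)) p14_21_1 (nat_lit 3) (nat_lit 34) (nat_lit 35) = true := by decide +kernel
def p14_21_1_35 : pfC (piC [(nat_lit 33242365), (nat_lit 21715570), (nat_lit 14024239)] (nat_lit 11394344)) p14_21_1 (nat_lit 3) (nat_lit 35) (nat_lit 36) = true := by decide +kernel
def p14_21_1_36 : pfC (piC [(nat_lit 33242365), (nat_lit 21715570), (nat_lit 14024239)] (nat_lit 11394344)) p14_21_1 (nat_lit 3) (nat_lit 36) (nat_lit 37) = true := by decide +kernel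
def p14_21_1_37 : pfC (piC [(nat_lit 33242365), (nat_lit 21715570), (nat_lit 14024239)] (nat_lit 11394344)) p14_21_1 (nat_lit 3) (nat_lit 37) (nat_lit 38) = true := by decide +kernel
def p14_21_1_38 : pfC (piC [(nat_lit 33242365), (nat_lit 21715570), (nat_lit 14024239)] (nat_lit 11394344)) p14_21_1 (nat_lit 3) (nat_lit 38) (nat_lit 39) = true := by decide +kernel
def p14_21_1_39 : pfC (piC [(nat_lit 33242365), (nat_lit 21715570), (nat_lit 14024239)] (nat_lit 11394344)) p14_21_1 (nat_lit 3) (nat_lit 39) (nat_lit 40) = true := by decide +kernel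
def p14_21_1_40 : pfC (piC [(nat_lit 33242365), (nat_lit 21715570), (nat_lit 14024239)] (nat_lit 11394344)) p14_21_1 (nat_lit 3) (nat_lit 40) (nat_lit 41) = true := by decide +kernel
def p14_21_1_41 : pfC (piC [(nat_lit 33242365), (nat_lit 21715570), (nat_lit 14024239)] (nat_lit 11394344)) p14_21_1 (nat_lit 3) (nat_lit 41) (nat_lit 42) = true := by decide +kernel
def p14_21_1_42 : pfC (piC [(nat_lit 33242365), (nat_lit 21715570), (nat_lit 14024239)] (nat_lit 11394344)) p14_21_1 (nat_lit 3) (nat_lit 42) (nat_lit 43) = true := by decide +kernel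
def p14_21_1_43 : pfC (piC [(nat_lit 33242365), (nat_lit 21715570), (nat_lit 14024239)] (nat_lit 11394344)) p14_21_1 (nat_lit 3) (nat_lit 43) (nat_lit 44) = true := by decide +kernel
def p14_21_1_44 : pfC (piC [(nat_lit 33242365), (nat_lit 21715570), (nat_lit 14024239)] (nat_lit 11394344)) p14_21_1 (nat_lit 3) (nat_lit 44) (nat_lit 45) = true := by decide +kernel
def p14_21_1_45 : pfC (piC [(nat_lit 33242365), (nat_lit 21715570), (nat_lit 14024239)] (nat_lit 11394344)) p14_21_1 (nat_lit 3) (nat_lit 45) (nat_lit 46) = true := by decide +kernel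
def p14_21_1_46 : pfC (piC [(nat_lit 33242365), (nat_lit 21715570), (nat_lit 14024239)] (nat_lit 11394344)) p14_21_1 (nat_lit 3) (nat_lit 46) (nat_lit 47) = true := by decide +kernel
def p14_21_1_47 : pfC (piC [(nat_lit 33242365), (nat_lit 21715570), (nat_lit 14024239)] (nat_lit 11394344)) p14_21_1 (nat_lit 3) (nat_lit 47) (nat_lit 48) = true := by decide +kernel
def p14_21_1_48 : pfC (piC [(nat_lit 33242365), (nat_lit 21715570), (nat_lit 14024239)] (nat_lit 11394344)) p14_21_1 (nat_lit 3) (nat_lit 48) (nat_lit 49) = true := by decide +kernel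
def p14_21_1_49 : pfC (piC [(nat_lit 33242365), (nat_lit 21715570), (nat_lit 14024239)] (nat_lit 11394344)) p14_21_1 (nat_lit 3) (nat_lit 49) (nat_lit 50) = true := by decide +kernel
def p14_21_1_50 : pfC (piC [(nat_lit 33242365), (nat_lit 21715570), (nat_lit 14024239)] (nat_lit 11394344)) p14_21_1 (nat_lit 3) (nat_lit 50) (nat_lit 51) = true := by decide +kernel
def p14_21_1_51 : pfC (piC [(nat_lit 33242365), (nat_lit 21715570), (nat_lit 14024239)] (nat_lit 11394344)) p14_21_1 (nat_lit 3) (nat_lit 51) (nat_lit 52) = true := by decide +kernel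
def p14_21_1_52 : pfC (piC [(nat_lit 33242365), (nat_lit 21715570), (nat_lit 14024239)] (nat_lit 11394344)) p14_21_1 (nat_lit 3) (nat_lit 52) (nat_lit 53) = true := by decide +kernel
def p14_21_1_53 : pfC (piC [(nat_lit 33242365), (nat_lit 21715570), (nat_lit 14024239)] (nat_lit 11394344)) p14_21_1 (nat_lit 3) (nat_lit 53) (nat_lit 54) = true := by decide +kernel
def p14_21_1_54 : pfC (piC [(nat_lit 33242365), (nat_lit 21715570), (nat_lit 14024239)] (nat_lit 11394344)) p14_21_1 (nat_lit 3) (nat_lit 54) (nat_lit 55) = true := by decide +kernel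
def p14_21_1_55 : pfC (piC [(nat_lit 33242365), (nat_lit 21715570), (nat_lit 14024239)] (nat_lit 11394344)) p14_21_1 (nat_lit 3) (nat_lit 55) (nat_lit 56) = true := by decide +kernel
def p14_21_1_56 : pfC (piC [(nat_lit 33242365), (nat_lit 21715570), (nat_lit 14024239)] (nat_lit 11394344)) p14_21_1 (nat_lit 3) (nat_lit 56) (nat_lit 57) = true := by decide +kernel
def p14_21_1_57 : pfC (piC [(nat_lit 33242365), (nat_lit 21715570), (nat_lit 14024239)] (nat_lit 11394344)) p14_21_1 (nat_lit 3) (nat_lit 57) (nat_lit 58) = true := by decide +kernel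
def p14_21_1_58 : pfC (piC [(nat_lit 33242365), (nat_lit 21715570), (nat_lit 14024239)] (nat_lit 11394344)) p14_21_1 (nat_lit 3) (nat_lit 58) (nat_lit 59) = true := by decide +kernel
def p14_21_1_59 : pfC (piC [(nat_lit 33242365), (nat_lit 21715570), (nat_lit 14024239)] (nat_lit 11394344)) p14_21_1 (nat_lit 3) (nat_lit 59) (nat_lit 60) = true := by decide +kernel
def p14_21_1_60 : pfC (piC [(nat_lit 33242365), (nat_lit 21715570), (nat_lit 14024239)] (nat_lit 11394344)) p14_21_1 (nat_lit 3) (nat_lit 60) (nat_lit 61) = true := by decide +kernel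
def p14_21_1_61 : pfC (piC [(nat_lit 33242365), (nat_lit 21715570), (nat_lit 14024239)] (nat_lit 11394344)) p14_21_1 (nat_lit 3) (nat_lit 61) (nat_lit 62) = true := by decide +kernel
def p14_21_1_62 : pfC (piC [(nat_lit 33242365), (nat_lit 21715570), (nat_lit 14024239)] (nat_lit 11394344)) p14_21_1 (nat_lit 3) (nat_lit 62) (nat_lit 63) = true := by decide +kernel
def p14_21_1_63 : pfC (piC [(nat_lit 33242365), (nat_lit 21715570), (nat_lit 14024239)] (nat_lit 11394344)) p14_21_1 (nat_lit 3) (nat_lit 63) (nat_lit 64) = true := by decide +kernel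
def p14_21_1_64 : pfC (piC [(nat_lit 33242365), (nat_lit 21715570), (nat_lit 14024239)] (nat_lit 11394344)) p14_21_1 (nat_lit 3) (nat_lit 64) (nat_lit 65) = true := by decide +kernel
def p14_21_1_65 : pfC (piC [(nat_lit 33242365), (nat_lit 21715570), (nat_lit 14024239)] (nat_lit 11394344)) p14_21_1 (nat_lit 3) (nat_lit 65) (nat_lit 66) = true := by decide +kernel
def p14_21_1_66 : pfC (piC [(nat_lit 33242365), (nat_lit 21715570), (nat_lit 14024239)] (nat_lit 11394344)) p14_21_1 (nat_lit 3) (nat_lit 66) (nat_lit 67) = true := by decide +kernel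
def p14_21_1_67 : pfC (piC [(nat_lit 33242365), (nat_lit 21715570), (nat_lit 14024239)] (nat_lit 11394344)) p14_21_1 (nat_lit 3) (nat_lit 67) (nat_lit 68) = true := by decide +kernel
def p14_21_1_68 : pfC (piC [(nat_lit 33242365), (nat_lit 21715570), (nat_lit 14024239)] (nat_lit 11394344)) p14_21_1 (nat_lit 3) (nat_lit 68) (nat_lit 69) = true := by decide +kernel
def p14_21_1_69 : pfC (piC [(nat_lit 33242365), (nat_lit 21715570), (nat_lit 14024239)] (nat_lit 11394344)) p14_21_1 (nat_lit 3) (nat_lit 69) (nat_lit 70) = true := by decide +kernel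
def p14_21_1_70 : pfC (piC [(nat_lit 33242365), (nat_lit 21715570), (nat_lit 14024239)] (nat_lit 11394344)) p14_21_1 (nat_lit 3) (nat_lit 70) (nat_lit 71) = true := by decide +kernel
def p14_21_1_71 : pfC (piC [(nat_lit 33242365), (nat_lit 21715570), (nat_lit 14024239)] (nat_lit 11394344)) p14_21_1 (nat_lit 3) (nat_lit 71) (nat_lit 72) = true := by decide +kernel
def p14_21_1_72 : pfC (piC [(nat_lit 33242365), (nat_lit 21715570), (nat_lit 14024239)] (nat_lit 11394344)) p14_21_1 (nat_lit 3) (nat_lit 72) (nat_lit 73) = true := by decide +kernel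
def p14_21_1_73 : pfC (piC [(nat_lit 33242365), (nat_lit 21715570), (nat_lit 14024239)] (nat_lit 11394344)) p14_21_1 (nat_lit 3) (nat_lit 73) (nat_lit 74) = true := by decide +kernel
def p14_21_1_74 : pfC (piC [(nat_lit 33242365), (nat_lit 21715570), (nat_lit 14024239)] (nat_lit 11394344)) p14_21_1 (nat_lit 3) (nat_lit 74) (nat_lit 75) = true := by decide +kernel
def p14_21_1_75 : pfC (piC [(nat_lit 33242365), (nat_lit 21715570), (nat_lit 14024239)] (nat_lit 11394344)) p14_21_1 (nat_lit 3) (nat_lit 75) (nat_lit 76) = true := by decide +kernel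
def p14_21_1_76 : pfC (piC [(nat_lit 33242365), (nat_lit 21715570), (nat_lit 14024239)] (nat_lit 11394344)) p14_21_1 (nat_lit 3) (nat_lit 76) (nat_lit 77) = true := by decide +kernel
def p14_21_1_77 : pfC (piC [(nat_lit 33242365), (nat_lit 21715570), (nat_lit 14024239)] (nat_lit 11394344)) p14_21_1 (nat_lit 3) (nat_lit 77) (nat_lit 78) = true := by decide +kernel
def p14_21_1_78 : pfC (piC [(nat_lit 33242365), (nat_lit 21715570), (nat_lit 14024239)] (nat_lit 11394344)) p14_21_1 (nat_lit 3) (nat_lit 78) (nat_lit 79) = true := by decide +kernel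
def p14_21_1_79 : pfC (piC [(nat_lit 33242365), (nat_lit 21715570), (nat_lit 14024239)] (nat_lit 11394344)) p14_21_1 (nat_lit 3) (nat_lit 79) (nat_lit 80) = true := by decide +kernel
def p14_21_1_80 : pfC (piC [(nat_lit 33242365), (nat_lit 21715570), (nat_lit 14024239)] (nat_lit 11394344)) p14_21_1 (nat_lit 3) (nat_lit 80) (nat_lit 81) = true := by decide +kernel
def p14_21_1_81 : pfC (piC [(nat_lit 33242365), (nat_lit 21715570), (nat_lit 14024239)] (nat_lit 11394344)) p14_21_1 (nat_lit 3) (nat_lit 81) (nat_lit 82) = true := by decide +kernel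
def p14_21_1_82 : pfC (piC [(nat_lit 33242365), (nat_lit 21715570), (nat_lit 14024239)] (nat_lit 11394344)) p14_21_1 (nat_lit 3) (nat_lit 82) (nat_lit 83) = true := by decide +kernel
def p14_21_1_83 : pfC (piC [(nat_lit 33242365), (nat_lit 21715570), (nat_lit 14024239)] (nat_lit 11394344)) p14_21_1 (nat_lit 3) (nat_lit 83) (nat_lit 84) = true := by decide +kernel
def p14_21_1_84 : pfC (piC [(nat_lit 33242365), (nat_lit 21715570), (nat_lit 14024239)] (nat_lit 11394344)) p14_21_1 (nat_lit 3) (nat_lit 84) (nat_lit 85) = true := by decide +kernel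
def p14_21_1_85 : pfC (piC [(nat_lit 33242365), (nat_lit 21715570), (nat_lit 14024239)] (nat_lit 11394344)) p14_21_1 (nat_lit 3) (nat_lit 85) (nat_lit 86) = true := by decide +kernel
def p14_21_1_86 : pfC (piC [(nat_lit 33242365), (nat_lit 21715570), (nat_lit 14024239)] (nat_lit 11394344)) p14_21_1 (nat_lit 3) (nat_lit 86) (nat_lit 87) = true := by decide +kernel
def p14_21_1_87 : pfC (piC [(nat_lit 33242365), (nat_lit 21715570), (nat_lit 14024239)] (nat_lit 11394344)) p14_21_1 (nat_lit 3) (nat_lit 87) (nat_lit 88) = true := by decide +kernel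
def p14_21_1_88 : pfC (piC [(nat_lit 33242365), (nat_lit 21715570), (nat_lit 14024239)] (nat_lit 11394344)) p14_21_1 (nat_lit 3) (nat_lit 88) (nat_lit 89) = true := by decide +kernel
def p14_21_1_89 : pfC (piC [(nat_lit 33242365), (nat_lit 21715570), (nat_lit 14024239)] (nat_lit 11394344)) p14_21_1 (nat_lit 3) (nat_lit 89) (nat_lit 90) = true := by decide +kernel
def p14_21_1_90 : pfC (piC [(nat_lit 33242365), (nat_lit 21715570), (nat_lit 14024239)] (nat_lit 11394344)) p14_21_1 (nat_lit 3) (nat_lit 90) (nat_lit 91) = true := by decide +kernel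
def p14_21_1_91 : pfC (piC [(nat_lit 33242365), (nat_lit 21715570), (nat_lit 14024239)] (nat_lit 11394344)) p14_21_1 (nat_lit 3) (nat_lit 91) (nat_lit 92) = true := by decide +kernel
def p14_21_1_92 : pfC (piC [(nat_lit 33242365), (nat_lit 21715570), (nat_lit 14024239)] (nat_lit 11394344)) p14_21_1 (nat_lit 3) (nat_lit 92) (nat_lit 93) = true := by decide +kernel
def p14_21_1_93 : pfC (piC [(nat_lit 33242365), (nat_lit 21715570), (nat_lit 14024239)] (nat_lit 11394344)) p14_21_1 (nat_lit 3) (nat_lit 93) (nat_lit 94) = true := by decide +kernel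
def p14_21_1_94 : pfC (piC [(nat_lit 33242365), (nat_lit 21715570), (nat_lit 14024239)] (nat_lit 11394344)) p14_21_1 (nat_lit 3) (nat_lit 94) (nat_lit 95) = true := by decide +kernel
def p14_21_1_95 : pfC (piC [(nat_lit 33242365), (nat_lit 21715570), (nat_lit 14024239)] (nat_lit 11394344)) p14_21_1 (nat_lit 3) (nat_lit 95) (nat_lit 96) = true := by decide +kernel
def p14_21_1_96 : pfC (piC [(nat_lit 33242365), (nat_lit 21715570), (nat_lit 14024239)] (nat_lit 11394344)) p14_21_1 (nat_lit 3) (nat_lit 96) (nat_lit 97) = true := by decide +kernel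
def p14_21_1_97 : pfC (piC [(nat_lit 33242365), (nat_lit 21715570), (nat_lit 14024239)] (nat_lit 11394344)) p14_21_1 (nat_lit 3) (nat_lit 97) (nat_lit 98) = true := by decide +kernel
def p14_21_1_98 : pfC (piC [(nat_lit 33242365), (nat_lit 21715570), (nat_lit 14024239)] (nat_lit 11394344)) p14_21_1 (nat_lit 3) (nat_lit 98) (nat_lit 99) = true := by decide +kernel
def p14_21_1_99 : pfC (piC [(nat_lit 33242365), (nat_lit 21715570), (nat_lit 14024239)] (nat_lit 11394344)) p14_21_1 (nat_lit 3) (nat_lit 99) (nat_lit 100) = true := by decide +kernel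
def p14_21_1_100 : pfC (piC [(nat_lit 33242365), (nat_lit 21715570), (nat_lit 14024239)] (nat_lit 11394344)) p14_21_1 (nat_lit 3) (nat_lit 100) (nat_lit 101) = true := by decide +kernel
def p14_21_1_101 : pfC (piC [(nat_lit 33242365), (nat_lit 21715570), (nat_lit 14024239)] (nat_lit 11394344)) p14_21_1 (nat_lit 3) (nat_lit 101) (nat_lit 102) = true := by decide +kernel
def p14_21_1_102 : pfC (piC [(nat_lit 33242365), (nat_lit 21715570), (nat_lit 14024239)] (nat_lit 11394344)) p14_21_1 (nat_lit 3) (nat_lit 102) (nat_lit 103) = true := by decide +kernel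
def p14_21_1_103 : pfC (piC [(nat_lit 33242365), (nat_lit 21715570), (nat_lit 14024239)] (nat_lit 11394344)) p14_21_1 (nat_lit 3) (nat_lit 103) (nat_lit 104) = true := by decide +kernel
def p14_21_1_104 : pfC (piC [(nat_lit 33242365), (nat_lit 21715570), (nat_lit 14024239)] (nat_lit 11394344)) p14_21_1 (nat_lit 3) (nat_lit 104) (nat_lit 105) = true := by decide +kernel
def p14_21_1_105 : pfC (piC [(nat_lit 33242365), (nat_lit 21715570), (nat_lit 14024239)] (nat_lit 11394344)) p14_21_1 (nat_lit 3) (nat_lit 105) (nat_lit 106) = true := by decide +kernel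
def p14_21_1_106 : pfC (piC [(nat_lit 33242365), (nat_lit 21715570), (nat_lit 14024239)] (nat_lit 11394344)) p14_21_1 (nat_lit 3) (nat_lit 106) (nat_lit 107) = true := by decide +kernel
def p14_21_1_107 : pfC (piC [(nat_lit 33242365), (nat_lit 21715570), (nat_lit 14024239)] (nat_lit 11394344)) p14_21_1 (nat_lit 3) (nat_lit 107) (nat_lit 108) = true := by decide +kernel
def p14_21_1_108 : pfC (piC [(nat_lit 33242365), (nat_lit 21715570), (nat_lit 14024239)] (nat_lit 11394344)) p14_21_1 (nat_lit 3) (nat_lit 108) (nat_lit 109) = true := by decide +kernel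
def p14_21_1_109 : pfC (piC [(nat_lit 33242365), (nat_lit 21715570), (nat_lit 14024239)] (nat_lit 11394344)) p14_21_1 (nat_lit 3) (nat_lit 109) (nat_lit 110) = true := by decide +kernel
def p14_21_1_110 : pfC (piC [(nat_lit 33242365), (nat_lit 21715570), (nat_lit 14024239)] (nat_lit 11394344)) p14_21_1 (nat_lit 3) (nat_lit 110) (nat_lit 111) = true := by decide +kernel
def p14_21_1_111 : pfC (piC [(nat_lit 33242365), (nat_lit 21715570), (nat_lit 14024239)] (nat_lit 11394344)) p14_21_1 (nat_lit 3) (nat_lit 111) (nat_lit 112) = true := by decide +kernel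
def p14_21_1_112 : pfC (piC [(nat_lit 33242365), (nat_lit 21715570), (nat_lit 14024239)] (nat_lit 11394344)) p14_21_1 (nat_lit 3) (nat_lit 112) (nat_lit 113) = true := by decide +kernel
def p14_21_1_113 : pfC (piC [(nat_lit 33242365), (nat_lit 21715570), (nat_lit 14024239)] (nat_lit 11394344)) p14_21_1 (nat_lit 3) (nat_lit 113) (nat_lit 114) = true := by decide +kernel
def p14_21_1_114 : pfC (piC [(nat_lit 33242365), (nat_lit 21715570), (nat_lit 14024239)] (nat_lit 11394344)) p14_21_1 (nat_lit 3) (nat_lit 114) (nat_lit 115) = true := by decide +kernel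
def p14_21_1_115 : pfC (piC [(nat_lit 33242365), (nat_lit 21715570), (nat_lit 14024239)] (nat_lit 11394344)) p14_21_1 (nat_lit 3) (nat_lit 115) (nat_lit 116) = true := by decide +kernel
def p14_21_1_116 : pfC (piC [(nat_lit 33242365), (nat_lit 21715570), (nat_lit 14024239)] (nat_lit 11394344)) p14_21_1 (nat_lit 3) (nat_lit 116) (nat_lit 117) = true := by decide +kernel
def p14_21_1_117 : pfC (piC [(nat_lit 33242365), (nat_lit 21715570), (nat_lit 14024239)] (nat_lit 11394344)) p14_21_1 (nat_lit 3) (nat_lit 117) (nat_lit 118) = true := by decide +kernel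
def p14_21_1_118 : pfC (piC [(nat_lit 33242365), (nat_lit 21715570), (nat_lit 14024239)] (nat_lit 11394344)) p14_21_1 (nat_lit 3) (nat_lit 118) (nat_lit 119) = true := by decide +kernel
def p14_21_1_119 : pfC (piC [(nat_lit 33242365), (nat_lit 21715570), (nat_lit 14024239)] (nat_lit 11394344)) p14_21_1 (nat_lit 3) (nat_lit 119) (nat_lit 120) = true := by decide +kernel
def p14_21_1_120 : pfC (piC [(nat_lit 33242365), (nat_lit 21715570), (nat_lit 14024239)] (nat_lit 11394344)) p14_21_1 (nat_lit 3) (nat_lit 120) (nat_lit 121) = true := by decide +kernel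
def p14_21_1_121 : pfC (piC [(nat_lit 33242365), (nat_lit 21715570), (nat_lit 14024239)] (nat_lit 11394344)) p14_21_1 (nat_lit 3) (nat_lit 121) (nat_lit 122) = true := by decide +kernel
def p14_21_1_122 : pfC (piC [(nat_lit 33242365), (nat_lit 21715570), (nat_lit 14024239)] (nat_lit 11394344)) p14_21_1 (nat_lit 3) (nat_lit 122) (nat_lit 123) = true := by decide +kernel
def p14_21_1_123 : pfC (piC [(nat_lit 33242365), (nat_lit 21715570), (nat_lit 14024239)] (nat_lit 11394344)) p14_21_1 (nat_lit 3) (nat_lit 123) (nat_lit 124) = true := by decide +kernel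
def p14_21_1_124 : pfC (piC [(nat_lit 33242365), (nat_lit 21715570), (nat_lit 14024239)] (nat_lit 11394344)) p14_21_1 (nat_lit 3) (nat_lit 124) (nat_lit 125) = true := by decide +kernel
def p14_21_1_125 : pfC (piC [(nat_lit 33242365), (nat_lit 21715570), (nat_lit 14024239)] (nat_lit 11394344)) p14_21_1 (nat_lit 3) (nat_lit 125) (nat_lit 126) = true := by decide +kernel
def p14_21_1_126 : pfC (piC [(nat_lit 33242365), (nat_lit 21715570), (nat_lit 14024239)] (nat_lit 11394344)) p14_21_1 (nat_lit 3) (nat_lit 126) (nat_lit 127) = true := by decide +kernel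
def p14_21_1_127 : pfC (piC [(nat_lit 33242365), (nat_lit 21715570), (nat_lit 14024239)] (nat_lit 11394344)) p14_21_1 (nat_lit 3) (nat_lit 127) (nat_lit 128) = true := by decide +kernel
def p14_21_1_128 : pfC (piC [(nat_lit 33242365), (nat_lit 21715570), (nat_lit 14024239)] (nat_lit 11394344)) p14_21_1 (nat_lit 3) (nat_lit 128) (nat_lit 129) = true := by decide +kernel
def p14_21_1_129 : pfC (piC [(nat_lit 33242365), (nat_lit 21715570), (nat_lit 14024239)] (nat_lit 11394344)) p14_21_1 (nat_lit 3) (nat_lit 129) (nat_lit 130) = true := by decide +kernel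
def p14_21_1_130 : pfC (piC [(nat_lit 33242365), (nat_lit 21715570), (nat_lit 14024239)] (nat_lit 11394344)) p14_21_1 (nat_lit 3) (nat_lit 130) (nat_lit 131) = true := by decide +kernel
def p14_21_1_131 : pfC (piC [(nat_lit 33242365), (nat_lit 21715570), (nat_lit 14024239)] (nat_lit 11394344)) p14_21_1 (nat_lit 3) (nat_lit 131) (nat_lit 132) = true := by decide +kernel
def p14_21_1_132 : pfC (piC [(nat_lit 33242365), (nat_lit 21715570), (nat_lit 14024239)] (nat_lit 11394344)) p14_21_1 (nat_lit 3) (nat_lit 132) (nat_lit 133) = true := by decide +kernel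
def p14_21_1_133 : pfC (piC [(nat_lit 33242365), (nat_lit 21715570), (nat_lit 14024239)] (nat_lit 11394344)) p14_21_1 (nat_lit 3) (nat_lit 133) (nat_lit 134) = true := by decide +kernel
def p14_21_1_134 : pfC (piC [(nat_lit 33242365), (nat_lit 21715570), (nat_lit 14024239)] (nat_lit 11394344)) p14_21_1 (nat_lit 3) (nat_lit 134) (nat_lit 135) = true := by decide +kernel
def p14_21_1_135 : pfC (piC [(nat_lit 33242365), (nat_lit 21715570), (nat_lit 14024239)] (nat_lit 11394344)) p14_21_1 (nat_lit 3) (nat_lit 135) (nat_lit 136) = true := by decide +kernel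
def p14_21_1_136 : pfC (piC [(nat_lit 33242365), (nat_lit 21715570), (nat_lit 14024239)] (nat_lit 11394344)) p14_21_1 (nat_lit 3) (nat_lit 136) (nat_lit 137) = true := by decide +kernel
def p14_21_1_137 : pfC (piC [(nat_lit 33242365), (nat_lit 21715570), (nat_lit 14024239)] (nat_lit 11394344)) p14_21_1 (nat_lit 3) (nat_lit 137) (nat_lit 138) = true := by decide +kernel
def p14_21_1_138 : pfC (piC [(nat_lit 33242365), (nat_lit 21715570), (nat_lit 14024239)] (nat_lit 11394344)) p14_21_1 (nat_lit 3) (nat_lit 138) (nat_lit 139) = true := by decide +kernel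
def p14_21_1_139 : pfC (piC [(nat_lit 33242365), (nat_lit 21715570), (nat_lit 14024239)] (nat_lit 11394344)) p14_21_1 (nat_lit 3) (nat_lit 139) (nat_lit 140) = true := by decide +kernel
def p14_21_1_140 : pfC (piC [(nat_lit 33242365), (nat_lit 21715570), (nat_lit 14024239)] (nat_lit 11394344)) p14_21_1 (nat_lit 3) (nat_lit 140) (nat_lit 141) = true := by decide +kernel
def p14_21_1_141 : pfC (piC [(nat_lit 33242365), (nat_lit 21715570), (nat_lit 14024239)] (nat_lit 11394344)) p14_21_1 (nat_lit 3) (nat_lit 141) (nat_lit 142) = true := by decide +kernel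
def p14_21_1_142 : pfC (piC [(nat_lit 33242365), (nat_lit 21715570), (nat_lit 14024239)] (nat_lit 11394344)) p14_21_1 (nat_lit 3) (nat_lit 142) (nat_lit 143) = true := by decide +kernel
def p14_21_1_143 : pfC (piC [(nat_lit 33242365), (nat_lit 21715570), (nat_lit 14024239)] (nat_lit 11394344)) p14_21_1 (nat_lit 3) (nat_lit 143) (nat_lit 144) = true := by decide +kernel
def p14_21_1_144 : pfC (piC [(nat_lit 33242365), (nat_lit 21715570), (nat_lit 14024239)] (nat_lit 11394344)) p14_21_1 (nat_lit 3) (nat_lit 144) (nat_lit 145) = true := by decide +kernel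
def p14_21_1_145 : pfC (piC [(nat_lit 33242365), (nat_lit 21715570), (nat_lit 14024239)] (nat_lit 11394344)) p14_21_1 (nat_lit 3) (nat_lit 145) (nat_lit 146) = true := by decide +kernel
def p14_21_1_146 : pfC (piC [(nat_lit 33242365), (nat_lit 21715570), (nat_lit 14024239)] (nat_lit 11394344)) p14_21_1 (nat_lit 3) (nat_lit 146) (nat_lit 147) = true := by decide +kernel
def p14_21_1_147 : pfC (piC [(nat_lit 33242365), (nat_lit 21715570), (nat_lit 14024239)] (nat_lit 11394344)) p14_21_1 (nat_lit 3) (nat_lit 147) (nat_lit 148) = true := by decide +kernel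
def p14_21_1_148 : pfC (piC [(nat_lit 33242365), (nat_lit 21715570), (nat_lit 14024239)] (nat_lit 11394344)) p14_21_1 (nat_lit 3) (nat_lit 148) (nat_lit 149) = true := by decide +kernel
def p14_21_1_149 : pfC (piC [(nat_lit 33242365), (nat_lit 21715570), (nat_lit 14024239)] (nat_lit 11394344)) p14_21_1 (nat_lit 3) (nat_lit 149) (nat_lit 150) = true := by decide +kernel
def p14_21_1_150 : pfC (piC [(nat_lit 33242365), (nat_lit 21715570), (nat_lit 14024239)] (nat_lit 11394344)) p14_21_1 (nat_lit 3) (nat_lit 150) (nat_lit 151) = true := by decide +kernel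
def p14_21_1_151 : pfC (piC [(nat_lit 33242365), (nat_lit 21715570), (nat_lit 14024239)] (nat_lit 11394344)) p14_21_1 (nat_lit 3) (nat_lit 151) (nat_lit 152) = true := by decide +kernel
def p14_21_1_152 : pfC (piC [(nat_lit 33242365), (nat_lit 21715570), (nat_lit 14024239)] (nat_lit 11394344)) p14_21_1 (nat_lit 3) (nat_lit 152) (nat_lit 153) = true := by decide +kernel
def p14_21_1_153 : pfC (piC [(nat_lit 33242365), (nat_lit 21715570), (nat_lit 14024239)] (nat_lit 11394344)) p14_21_1 (nat_lit 3) (nat_lit 153) (nat_lit 154) = true := by decide +kernel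
def p14_21_1_154 : pfC (piC [(nat_lit 33242365), (nat_lit 21715570), (nat_lit 14024239)] (nat_lit 11394344)) p14_21_1 (nat_lit 3) (nat_lit 154) (nat_lit 155) = true := by decide +kernel
def p14_21_1_155 : pfC (piC [(nat_lit 33242365), (nat_lit 21715570), (nat_lit 14024239)] (nat_lit 11394344)) p14_21_1 (nat_lit 3) (nat_lit 155) (nat_lit 156) = true := by decide +kernel
def p14_21_1_156 : pfC (piC [(nat_lit 33242365), (nat_lit 21715570), (nat_lit 14024239)] (nat_lit 11394344)) p14_21_1 (nat_lit 3) (nat_lit 156) (nat_lit 157) = true := by decide +kernel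
def p14_21_1_157 : pfC (piC [(nat_lit 33242365), (nat_lit 21715570), (nat_lit 14024239)] (nat_lit 11394344)) p14_21_1 (nat_lit 3) (nat_lit 157) (nat_lit 158) = true := by decide +kernel
def p14_21_1_158 : pfC (piC [(nat_lit 33242365), (nat_lit 21715570), (nat_lit 14024239)] (nat_lit 11394344)) p14_21_1 (nat_lit 3) (nat_lit 158) (nat_lit 159) = true := by decide +kernel
def p14_21_1_159 : pfC (piC [(nat_lit 33242365), (nat_lit 21715570), (nat_lit 14024239)] (nat_lit 11394344)) p14_21_1 (nat_lit 3) (nat_lit 159) (nat_lit 160) = true := by decide +kernel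
def p14_21_1_160 : pfC (piC [(nat_lit 33242365), (nat_lit 21715570), (nat_lit 14024239)] (nat_lit 11394344)) p14_21_1 (nat_lit 3) (nat_lit 160) (nat_lit 161) = true := by decide +kernel
def p14_21_1_161 : pfC (piC [(nat_lit 33242365), (nat_lit 21715570), (nat_lit 14024239)] (nat_lit 11394344)) p14_21_1 (nat_lit 3) (nat_lit 161) (nat_lit 162) = true := by decide +kernel
def p14_21_1_162 : pfC (piC [(nat_lit 33242365), (nat_lit 21715570), (nat_lit 14024239)] (nat_lit 11394344)) p14_21_1 (nat_lit 3) (nat_lit 162) (nat_lit 163) = true := by decide +kernel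
def p14_21_1_163 : pfC (piC [(nat_lit 33242365), (nat_lit 21715570), (nat_lit 14024239)] (nat_lit 11394344)) p14_21_1 (nat_lit 3) (nat_lit 163) (nat_lit 164) = true := by decide +kernel
def p14_21_1_164 : pfC (piC [(nat_lit 33242365), (nat_lit 21715570), (nat_lit 14024239)] (nat_lit 11394344)) p14_21_1 (nat_lit 3) (nat_lit 164) (nat_lit 165) = true := by decide +kernel
def p14_21_1_165 : pfC (piC [(nat_lit 33242365), (nat_lit 21715570), (nat_lit 14024239)] (nat_lit 11394344)) p14_21_1 (nat_lit 3) (nat_lit 165) (nat_lit 166) = true := by decide +kernel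
def p14_21_1_166 : pfC (piC [(nat_lit 33242365), (nat_lit 21715570), (nat_lit 14024239)] (nat_lit 11394344)) p14_21_1 (nat_lit 3) (nat_lit 166) (nat_lit 167) = true := by decide +kernel
def p14_21_1_167 : pfC (piC [(nat_lit 33242365), (nat_lit 21715570), (nat_lit 14024239)] (nat_lit 11394344)) p14_21_1 (nat_lit 3) (nat_lit 167) (nat_lit 168) = true := by decide +kernel
def p14_21_1_168 : pfC (piC [(nat_lit 33242365), (nat_lit 21715570), (nat_lit 14024239)] (nat_lit 11394344)) p14_21_1 (nat_lit 3) (nat_lit 168) (nat_lit 169) = true := by decide +kernel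
def p14_21_1_169 : pfC (piC [(nat_lit 33242365), (nat_lit 21715570), (nat_lit 14024239)] (nat_lit 11394344)) p14_21_1 (nat_lit 3) (nat_lit 169) (nat_lit 170) = true := by decide +kernel
def p14_21_1_170 : pfC (piC [(nat_lit 33242365), (nat_lit 21715570), (nat_lit 14024239)] (nat_lit 11394344)) p14_21_1 (nat_lit 3) (nat_lit 170) (nat_lit 171) = true := by decide +kernel
def p14_21_1_171 : pfC (piC [(nat_lit 33242365), (nat_lit 21715570), (nat_lit 14024239)] (nat_lit 11394344)) p14_21_1 (nat_lit 3) (nat_lit 171) (nat_lit 172) = true := by decide +kernel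
def p14_21_1_172 : pfC (piC [(nat_lit 33242365), (nat_lit 21715570), (nat_lit 14024239)] (nat_lit 11394344)) p14_21_1 (nat_lit 3) (nat_lit 172) (nat_lit 173) = true := by decide +kernel
def p14_21_1_173 : pfC (piC [(nat_lit 33242365), (nat_lit 21715570), (nat_lit 14024239)] (nat_lit 11394344)) p14_21_1 (nat_lit 3) (nat_lit 173) (nat_lit 174) = true := by decide +kernel
def p14_21_1_174 : pfC (piC [(nat_lit 33242365), (nat_lit 21715570), (nat_lit 14024239)] (nat_lit 11394344)) p14_21_1 (nat_lit 3) (nat_lit 174) (nat_lit 175) = true := by decide +kernel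
def p14_21_1_175 : pfC (piC [(nat_lit 33242365), (nat_lit 21715570), (nat_lit 14024239)] (nat_lit 11394344)) p14_21_1 (nat_lit 3) (nat_lit 175) (nat_lit 176) = true := by decide +kernel
def p14_21_1_176 : pfC (piC [(nat_lit 33242365), (nat_lit 21715570), (nat_lit 14024239)] (nat_lit 11394344)) p14_21_1 (nat_lit 3) (nat_lit 176) (nat_lit 177) = true := by decide +kernel
def p14_21_1_177 : pfC (piC [(nat_lit 33242365), (nat_lit 21715570), (nat_lit 14024239)] (nat_lit 11394344)) p14_21_1 (nat_lit 3) (nat_lit 177) (nat_lit 178) = true := by decide +kernel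
def p14_21_1_178 : pfC (piC [(nat_lit 33242365), (nat_lit 21715570), (nat_lit 14024239)] (nat_lit 11394344)) p14_21_1 (nat_lit 3) (nat_lit 178) (nat_lit 179) = true := by decide +kernel
def p14_21_1_179 : pfC (piC [(nat_lit 33242365), (nat_lit 21715570), (nat_lit 14024239)] (nat_lit 11394344)) p14_21_1 (nat_lit 3) (nat_lit 179) (nat_lit 180) = true := by decide +kernel
def p14_21_1_180 : pfC (piC [(nat_lit 33242365), (nat_lit 21715570), (nat_lit 14024239)] (nat_lit 11394344)) p14_21_1 (nat_lit 3) (nat_lit 180) (nat_lit 181) = true := by decide +kernel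
def p14_21_1_181 : pfC (piC [(nat_lit 33242365), (nat_lit 21715570), (nat_lit 14024239)] (nat_lit 11394344)) p14_21_1 (nat_lit 3) (nat_lit 181) (nat_lit 182) = true := by decide +kernel
def p14_21_1_182 : pfC (piC [(nat_lit 33242365), (nat_lit 21715570), (nat_lit 14024239)] (nat_lit 11394344)) p14_21_1 (nat_lit 3) (nat_lit 182) (nat_lit 183) = true := by decide +kernel
def p14_21_1_183 : pfC (piC [(nat_lit 33242365), (nat_lit 21715570), (nat_lit 14024239)] (nat_lit 11394344)) p14_21_1 (nat_lit 3) (nat_lit 183) (nat_lit 184) = true := by decide +kernel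
def p14_21_1_184 : pfC (piC [(nat_lit 33242365), (nat_lit 21715570), (nat_lit 14024239)] (nat_lit 11394344)) p14_21_1 (nat_lit 3) (nat_lit 184) (nat_lit 185) = true := by decide +kernel
def p14_21_1_185 : pfC (piC [(nat_lit 33242365), (nat_lit 21715570), (nat_lit 14024239)] (nat_lit 11394344)) p14_21_1 (nat_lit 3) (nat_lit 185) (nat_lit 186) = true := by decide +kernel
def p14_21_1_186 : pfC (piC [(nat_lit 33242365), (nat_lit 21715570), (nat_lit 14024239)] (nat_lit 11394344)) p14_21_1 (nat_lit 3) (nat_lit 186) (nat_lit 187) = true := by decide +kernel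
def p14_21_1_187 : pfC (piC [(nat_lit 33242365), (nat_lit 21715570), (nat_lit 14024239)] (nat_lit 11394344)) p14_21_1 (nat_lit 3) (nat_lit 187) (nat_lit 188) = true := by decide +kernel
def p14_21_1_188 : pfC (piC [(nat_lit 33242365), (nat_lit 21715570), (nat_lit 14024239)] (nat_lit 11394344)) p14_21_1 (nat_lit 3) (nat_lit 188) (nat_lit 189) = true := by decide +kernel
def p14_21_1_189 : pfC (piC [(nat_lit 33242365), (nat_lit 21715570), (nat_lit 14024239)] (nat_lit 11394344)) p14_21_1 (nat_lit 3) (nat_lit 189) (nat_lit 190) = true := by decide +kernel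
def p14_21_1_190 : pfC (piC [(nat_lit 33242365), (nat_lit 21715570), (nat_lit 14024239)] (nat_lit 11394344)) p14_21_1 (nat_lit 3) (nat_lit 190) (nat_lit 191) = true := by decide +kernel
def p14_21_1_191 : pfC (piC [(nat_lit 33242365), (nat_lit 21715570), (nat_lit 14024239)] (nat_lit 11394344)) p14_21_1 (nat_lit 3) (nat_lit 191) (nat_lit 192) = true := by decide +kernel
def p14_21_1_192 : pfC (piC [(nat_lit 33242365), (nat_lit 21715570), (nat_lit 14024239)] (nat_lit 11394344)) p14_21_1 (nat_lit 3) (nat_lit 192) (nat_lit 193) = true := by decide +kernel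
def p14_21_1_193 : pfC (piC [(nat_lit 33242365), (nat_lit 21715570), (nat_lit 14024239)] (nat_lit 11394344)) p14_21_1 (nat_lit 3) (nat_lit 193) (nat_lit 194) = true := by decide +kernel
def p14_21_1_194 : pfC (piC [(nat_lit 33242365), (nat_lit 21715570), (nat_lit 14024239)] (nat_lit 11394344)) p14_21_1 (nat_lit 3) (nat_lit 194) (nat_lit 195) = true := by decide +kernel
def p14_21_1_195 : pfC (piC [(nat_lit 33242365), (nat_lit 21715570), (nat_lit 14024239)] (nat_lit 11394344)) p14_21_1 (nat_lit 3) (nat_lit 195) (nat_lit 196) = true := by decide +kernel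
def p14_21_1_196 : pfC (piC [(nat_lit 33242365), (nat_lit 21715570), (nat_lit 14024239)] (nat_lit 11394344)) p14_21_1 (nat_lit 3) (nat_lit 196) (nat_lit 197) = true := by decide +kernel
def p14_21_1_197 : pfC (piC [(nat_lit 33242365), (nat_lit 21715570), (nat_lit 14024239)] (nat_lit 11394344)) p14_21_1 (nat_lit 3) (nat_lit 197) (nat_lit 198) = true := by decide +kernel
def p14_21_1_198 : pfC (piC [(nat_lit 33242365), (nat_lit 21715570), (nat_lit 14024239)] (nat_lit 11394344)) p14_21_1 (nat_lit 3) (nat_lit 198) (nat_lit 199) = true := by decide +kernel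
def p14_21_1_199 : pfC (piC [(nat_lit 33242365), (nat_lit 21715570), (nat_lit 14024239)] (nat_lit 11394344)) p14_21_1 (nat_lit 3) (nat_lit 199) (nat_lit 200) = true := by decide +kernel
def p14_21_1_200 : pfC (piC [(nat_lit 33242365), (nat_lit 21715570), (nat_lit 14024239)] (nat_lit 11394344)) p14_21_1 (nat_lit 3) (nat_lit 200) (nat_lit 201) = true := by decide +kernel
def p14_21_1_201 : pfC (piC [(nat_lit 33242365), (nat_lit 21715570), (nat_lit 14024239)] (nat_lit 11394344)) p14_21_1 (nat_lit 3) (nat_lit 201) (nat_lit 202) = true := by decide +kernel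
def p14_21_1_202 : pfC (piC [(nat_lit 33242365), (nat_lit 21715570), (nat_lit 14024239)] (nat_lit 11394344)) p14_21_1 (nat_lit 3) (nat_lit 202) (nat_lit 203) = true := by decide +kernel
def p14_21_1_203 : pfC (piC [(nat_lit 33242365), (nat_lit 21715570), (nat_lit 14024239)] (nat_lit 11394344)) p14_21_1 (nat_lit 3) (nat_lit 203) (nat_lit 204) = true := by decide +kernel
def p14_21_1_204 : pfC (piC [(nat_lit 33242365), (nat_lit 21715570), (nat_lit 14024239)] (nat_lit 11394344)) p14_21_1 (nat_lit 3) (nat_lit 204) (nat_lit 205) = true := by decide +kernel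
def p14_21_1_205 : pfC (piC [(nat_lit 33242365), (nat_lit 21715570), (nat_lit 14024239)] (nat_lit 11394344)) p14_21_1 (nat_lit 3) (nat_lit 205) (nat_lit 206) = true := by decide +kernel
def p14_21_1_206 : pfC (piC [(nat_lit 33242365), (nat_lit 21715570), (nat_lit 14024239)] (nat_lit 11394344)) p14_21_1 (nat_lit 3) (nat_lit 206) (nat_lit 207) = true := by decide +kernel
def p14_21_1_207 : pfC (piC [(nat_lit 33242365), (nat_lit 21715570), (nat_lit 14024239)] (nat_lit 11394344)) p14_21_1 (nat_lit 3) (nat_lit 207) (nat_lit 208) = true := by decide +kernel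
def p14_21_1_208 : pfC (piC [(nat_lit 33242365), (nat_lit 21715570), (nat_lit 14024239)] (nat_lit 11394344)) p14_21_1 (nat_lit 3) (nat_lit 208) (nat_lit 209) = true := by decide +kernel
def p14_21_1_209 : pfC (piC [(nat_lit 33242365), (nat_lit 21715570), (nat_lit 14024239)] (nat_lit 11394344)) p14_21_1 (nat_lit 3) (nat_lit 209) (nat_lit 210) = true := by decide +kernel
def p14_21_1_210 : pfC (piC [(nat_lit 33242365), (nat_lit 21715570), (nat_lit 14024239)] (nat_lit 11394344)) p14_21_1 (nat_lit 3) (nat_lit 210) (nat_lit 211) = true := by decide +kernel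
def p14_21_1_211 : pfC (piC [(nat_lit 33242365), (nat_lit 21715570), (nat_lit 14024239)] (nat_lit 11394344)) p14_21_1 (nat_lit 3) (nat_lit 211) (nat_lit 212) = true := by decide +kernel
def p14_21_1_212 : pfC (piC [(nat_lit 33242365), (nat_lit 21715570), (nat_lit 14024239)] (nat_lit 11394344)) p14_21_1 (nat_lit 3) (nat_lit 212) (nat_lit 213) = true := by decide +kernel
def p14_21_1_213 : pfC (piC [(nat_lit 33242365), (nat_lit 21715570), (nat_lit 14024239)] (nat_lit 11394344)) p14_21_1 (nat_lit 3) (nat_lit 213) (nat_lit 214) = true := by decide +kernel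
def p14_21_1_214 : pfC (piC [(nat_lit 33242365), (nat_lit 21715570), (nat_lit 14024239)] (nat_lit 11394344)) p14_21_1 (nat_lit 3) (nat_lit 214) (nat_lit 215) = true := by decide +kernel
def p14_21_1_215 : pfC (piC [(nat_lit 33242365), (nat_lit 21715570), (nat_lit 14024239)] (nat_lit 11394344)) p14_21_1 (nat_lit 3) (nat_lit 215) (nat_lit 216) = true := by decide +kernel
def p14_21_1_216 : pfC (piC [(nat_lit 33242365), (nat_lit 21715570), (nat_lit 14024239)] (nat_lit 11394344)) p14_21_1 (nat_lit 3) (nat_lit 216) (nat_lit 217) = true := by decide +kernel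
def p14_21_1_217 : pfC (piC [(nat_lit 33242365), (nat_lit 21715570), (nat_lit 14024239)] (nat_lit 11394344)) p14_21_1 (nat_lit 3) (nat_lit 217) (nat_lit 218) = true := by decide +kernel
def p14_21_1_218 : pfC (piC [(nat_lit 33242365), (nat_lit 21715570), (nat_lit 14024239)] (nat_lit 11394344)) p14_21_1 (nat_lit 3) (nat_lit 218) (nat_lit 219) = true := by decide +kernel
def p14_21_1_219 : pfC (piC [(nat_lit 33242365), (nat_lit 21715570), (nat_lit 14024239)] (nat_lit 11394344)) p14_21_1 (nat_lit 3) (nat_lit 219) (nat_lit 220) = true := by decide +kernel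
def p14_21_1_220 : pfC (piC [(nat_lit 33242365), (nat_lit 21715570), (nat_lit 14024239)] (nat_lit 11394344)) p14_21_1 (nat_lit 3) (nat_lit 220) (nat_lit 221) = true := by decide +kernel
def p14_21_1_221 : pfC (piC [(nat_lit 33242365), (nat_lit 21715570), (nat_lit 14024239)] (nat_lit 11394344)) p14_21_1 (nat_lit 3) (nat_lit 221) (nat_lit 222) = true := by decide +kernel
def p14_21_1_222 : pfC (piC [(nat_lit 33242365), (nat_lit 21715570), (nat_lit 14024239)] (nat_lit 11394344)) p14_21_1 (nat_lit 3) (nat_lit 222) (nat_lit 223) = true := by decide +kernel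
def p14_21_1_223 : pfC (piC [(nat_lit 33242365), (nat_lit 21715570), (nat_lit 14024239)] (nat_lit 11394344)) p14_21_1 (nat_lit 3) (nat_lit 223) (nat_lit 224) = true := by decide +kernel
def p14_21_1_224 : pfC (piC [(nat_lit 33242365), (nat_lit 21715570), (nat_lit 14024239)] (nat_lit 11394344)) p14_21_1 (nat_lit 3) (nat_lit 224) (nat_lit 225) = true := by decide +kernel
def p14_21_1_225 : pfC (piC [(nat_lit 33242365), (nat_lit 21715570), (nat_lit 14024239)] (nat_lit 11394344)) p14_21_1 (nat_lit 3) (nat_lit 225) (nat_lit 226) = true := by decide +kernel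
theorem p14_21_1_T : PfS (PiF n14_21.reverse (nat_lit 11394344)) p14_21_1 (nat_lit 3) [] 0 :=
  pftab_of (los := [(nat_lit 33242365), (nat_lit 21715570), (nat_lit 14024239)]) (by decide +kernel) (hi := (nat_lit 226)) (PfP.trans (PfP.trans (PfP.trans (PfP.trans (PfP.trans (PfP.trans (PfP.trans (PfP.trans (PfP.trans (PfP.trans (PfP.trans (PfP.trans (PfP.trans (PfP.trans (PfP.trans (PfP.trans (PfP.trans (PfP.trans (PfP.trans (PfP.trans (PfP.trans (PfP.trans (PfP.trans (PfP.trans (PfP.trans (PfP.trans (PfP.trans (PfP.trans (PfP.trans (PfP.trans (PfP.trans (PfP.trans (PfP.trans (PfP.trans (PfP.trans (PfP.trans (PfP.trans (PfP.trans (PfP.trans (PfP.trans (PfP.trans (PfP.trans (PfP.trans (PfP.trans (PfP.trans (PfP.trans (PfP.trans (PfP.trans (PfP.trans (PfP.trans (PfP.trans (PfP.trans (PfP.trans (PfP.trans (PfP.trans (PfP.trans (PfP.trans (PfP.trans (PfP.trans (PfP.trans (PfP.trans (PfP.trans (PfP.trans (PfP.trans (PfP.trans (PfP.trans (PfP.trans (PfP.trans (PfP.trans (PfP.trans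 (PfP.trans (PfP.trans (PfP.trans (PfP.trans (PfP.trans (PfP.trans (PfP.trans (PfP.trans (PfP.trans (PfP.trans (PfP.trans (PfP.trans (PfP.trans (PfP.trans (PfP.trans (PfP.trans (PfP.trans (PfP.trans (PfP.trans (PfP.trans (PfP.trans (PfP.trans (PfP.trans (PfP.trans (PfP.trans (PfP.trans (PfP.trans (PfP.trans (PfP.trans (PfP.trans (PfP.trans (PfP.trans (PfP.trans (PfP.trans (PfP.trans (PfP.trans (PfP.trans (PfP.trans (PfP.trans
 (PfP.trans (PfP.trans (PfP.trans (PfP.trans (PfP.trans (PfP.trans (PfP.trans (PfP.trans (PfP.trans (PfP.trans (PfP.trans (PfP.trans (PfP.trans (PfP.trans (PfP.trans (PfP.trans (PfP.trans (PfP.trans (PfP.trans (PfP.trans (PfP.trans (PfP.trans (PfP.trans (PfP.trans (PfP.trans (PfP.trans (PfP.trans (PfP.trans (PfP.trans (PfP.trans (PfP.trans (PfP.trans (PfP.trans (PfP.trans (PfP.trans (PfP.trans (PfP.trans (PfP.trans (PfP.trans (PfP.trans (PfP.trans (PfP.trans (PfP.trans (PfP.trans (PfP.trans (PfP.trans (PfP.trans (PfP.trans (PfP.trans (PfP.trans (PfP.trans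 (PfP.trans (PfP.trans (PfP.trans (PfP.trans (PfP.trans (PfP.trans (PfP.trans (PfP.trans (PfP.trans (PfP.trans (PfP.trans (PfP.trans (PfP.trans (PfP.trans (PfP.trans (PfP.trans (PfP.trans (PfP.trans (PfP.trans (PfP.trans (PfP.trans (PfP.trans (PfP.trans (PfP.trans (PfP.trans (PfP.trans (PfP.trans (PfP.trans (PfP.trans (PfP.trans (PfP.trans (PfP.trans (PfP.trans (PfP.trans (PfP.trans (PfP.trans (PfP.trans (PfP.trans (PfP.trans (PfP.trans (PfP.trans (PfP.trans (PfP.trans (PfP.trans (PfP.trans (PfP.trans (PfP.trans (PfP.trans (PfP.trans (PfP.trans (PfP.trans (PfP.trans (PfP.trans (PfP.trans (PfP.trans (PfP.trans (PfP.trans (PfP.trans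
 (PfP.trans (PfP.trans (PfP.trans (PfP.trans (PfP.trans (PfP.trans (PfP.trans (pfC_sound p14_21_1_0) (pfC_sound p14_21_1_1)) (pfC_sound p14_21_1_2)) (pfC_sound p14_21_1_3)) (pfC_sound p14_21_1_4)) (pfC_sound p14_21_1_5)) (pfC_sound p14_21_1_6)) (pfC_sound p14_21_1_7)) (pfC_sound p14_21_1_8)) (pfC_sound p14_21_1_9)) (pfC_sound p14_21_1_10)) (pfC_sound p14_21_1_11)) (pfC_sound p14_21_1_12)) (pfC_sound p14_21_1_13)) (pfC_sound p14_21_1_14)) (pfC_sound p14_21_1_15)) (pfC_sound p14_21_1_16)) (pfC_sound p14_21_1_17)) (pfC_sound p14_21_1_18)) (pfC_sound p14_21_1_19)) (pfC_sound p14_21_1_20)) (pfC_sound p14_21_1_21)) (pfC_sound p14_21_1_22)) (pfC_sound p14_21_1_23)) (pfC_sound p14_21_1_24)) (pfC_sound p14_21_1_25)) (pfC_sound p14_21_1_26)) (pfC_sound p14_21_1_27)) (pfC_sound p14_21_1_28)) (pfC_sound p14_21_1_29)) (pfC_sound p14_21_1_30)) (pfC_sound p14_21_1_31)) (pfC_sound p14_21_1_32)) (pfC_sound p14_21_1_33)) (pfC_sound p14_21_1_34)) (pfC_sound p14_21_1_35)) (pfC_sound p14_21_1_36))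 (pfC_sound p14_21_1_37)) (pfC_sound p14_21_1_38)) (pfC_sound p14_21_1_39)) (pfC_sound p14_21_1_40)) (pfC_sound p14_21_1_41)) (pfC_sound p14_21_1_42)) (pfC_sound p14_21_1_43)) (pfC_sound p14_21_1_44))
 (pfC_sound p14_21_1_45)) (pfC_sound p14_21_1_46)) (pfC_sound p14_21_1_47)) (pfC_sound p14_21_1_48)) (pfC_sound p14_21_1_49)) (pfC_sound p14_21_1_50)) (pfC_sound p14_21_1_51)) (pfC_sound p14_21_1_52)) (pfC_sound p14_21_1_53)) (pfC_sound p14_21_1_54)) (pfC_sound p14_21_1_55)) (pfC_sound p14_21_1_56)) (pfC_sound p14_21_1_57)) (pfC_sound p14_21_1_58)) (pfC_sound p14_21_1_59)) (pfC_sound p14_21_1_60)) (pfC_sound p14_21_1_61)) (pfC_sound p14_21_1_62)) (pfC_sound p14_21_1_63)) (pfC_sound p14_21_1_64)) (pfC_sound p14_21_1_65)) (pfC_sound p14_21_1_66)) (pfC_sound p14_21_1_67)) (pfC_sound p14_21_1_68)) (pfC_sound p14_21_1_69)) (pfC_sound p14_21_1_70)) (pfC_sound p14_21_1_71)) (pfC_sound p14_21_1_72)) (pfC_sound p14_21_1_73)) (pfC_sound p14_21_1_74)) (pfC_sound p14_21_1_75)) (pfC_sound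 p14_21_1_76)) (pfC_sound p14_21_1_77)) (pfC_sound p14_21_1_78)) (pfC_sound p14_21_1_79)) (pfC_sound p14_21_1_80)) (pfC_sound p14_21_1_81)) (pfC_sound p14_21_1_82)) (pfC_sound p14_21_1_83)) (pfC_sound p14_21_1_84)) (pfC_sound p14_21_1_85)) (pfC_sound p14_21_1_86)) (pfC_sound p14_21_1_87)) (pfC_sound p14_21_1_88)) (pfC_sound p14_21_1_89)) (pfC_sound p14_21_1_90)) (pfC_sound p14_21_1_91)) (pfC_sound p14_21_1_92))
 (pfC_sound p14_21_1_93)) (pfC_sound p14_21_1_94)) (pfC_sound p14_21_1_95)) (pfC_sound p14_21_1_96)) (pfC_sound p14_21_1_97)) (pfC_sound p14_21_1_98)) (pfC_sound p14_21_1_99)) (pfC_sound p14_21_1_100)) (pfC_sound p14_21_1_101)) (pfC_sound p14_21_1_102)) (pfC_sound p14_21_1_103)) (pfC_sound p14_21_1_104)) (pfC_sound p14_21_1_105)) (pfC_sound p14_21_1_106)) (pfC_sound p14_21_1_107)) (pfC_sound p14_21_1_108)) (pfC_sound p14_21_1_109)) (pfC_sound p14_21_1_110)) (pfC_sound p14_21_1_111)) (pfC_sound p14_21_1_112)) (pfC_sound p14_21_1_113)) (pfC_sound p14_21_1_114)) (pfC_sound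 p14_21_1_115)) (pfC_sound p14_21_1_116)) (pfC_sound p14_21_1_117)) (pfC_sound p14_21_1_118)) (pfC_sound p14_21_1_119)) (pfC_sound p14_21_1_120)) (pfC_sound p14_21_1_121)) (pfC_sound p14_21_1_122)) (pfC_sound p14_21_1_123)) (pfC_sound p14_21_1_124)) (pfC_sound p14_21_1_125)) (pfC_sound p14_21_1_126)) (pfC_sound p14_21_1_127)) (pfC_sound p14_21_1_128)) (pfC_sound p14_21_1_129)) (pfC_sound p14_21_1_130)) (pfC_sound p14_21_1_131)) (pfC_sound p14_21_1_132)) (pfC_sound p14_21_1_133)) (pfC_sound p14_21_1_134)) (pfC_sound p14_21_1_135)) (pfC_sound p14_21_1_136)) (pfC_sound p14_21_1_137)) (pfC_sound p14_21_1_138)) (pfC_sound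
 p14_21_1_139)) (pfC_sound p14_21_1_140)) (pfC_sound p14_21_1_141)) (pfC_sound p14_21_1_142)) (pfC_sound p14_21_1_143)) (pfC_sound p14_21_1_144)) (pfC_sound p14_21_1_145)) (pfC_sound p14_21_1_146)) (pfC_sound p14_21_1_147)) (pfC_sound p14_21_1_148)) (pfC_sound p14_21_1_149)) (pfC_sound p14_21_1_150)) (pfC_sound p14_21_1_151)) (pfC_sound p14_21_1_152)) (pfC_sound p14_21_1_153)) (pfC_sound p14_21_1_154)) (pfC_sound p14_21_1_155)) (pfC_sound p14_21_1_156)) (pfC_sound p14_21_1_157)) (pfC_sound p14_21_1_158)) (pfC_sound p14_21_1_159)) (pfC_sound p14_21_1_160)) (pfC_sound p14_21_1_161)) (pfC_sound p14_21_1_162)) (pfC_sound p14_21_1_163)) (pfC_sound p14_21_1_164)) (pfC_sound p14_21_1_165)) (pfC_sound p14_21_1_166)) (pfC_sound p14_21_1_167)) (pfC_sound p14_21_1_168)) (pfC_sound p14_21_1_169)) (pfC_sound p14_21_1_170)) (pfC_sound p14_21_1_171)) (pfC_sound p14_21_1_172)) (pfC_sound p14_21_1_173)) (pfC_sound p14_21_1_174)) (pfC_sound p14_21_1_175)) (pfC_sound p14_21_1_176)) (pfC_sound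 p14_21_1_177)) (pfC_sound p14_21_1_178)) (pfC_sound p14_21_1_179)) (pfC_sound p14_21_1_180)) (pfC_sound p14_21_1_181)) (pfC_sound p14_21_1_182)) (pfC_sound p14_21_1_183)) (pfC_sound p14_21_1_184)) (pfC_sound
 p14_21_1_185)) (pfC_sound p14_21_1_186)) (pfC_sound p14_21_1_187)) (pfC_sound p14_21_1_188)) (pfC_sound p14_21_1_189)) (pfC_sound p14_21_1_190)) (pfC_sound p14_21_1_191)) (pfC_sound p14_21_1_192)) (pfC_sound p14_21_1_193)) (pfC_sound p14_21_1_194)) (pfC_sound p14_21_1_195)) (pfC_sound p14_21_1_196)) (pfC_sound p14_21_1_197)) (pfC_sound p14_21_1_198)) (pfC_sound p14_21_1_199)) (pfC_sound p14_21_1_200)) (pfC_sound p14_21_1_201)) (pfC_sound p14_21_1_202)) (pfC_sound p14_21_1_203)) (pfC_sound p14_21_1_204)) (pfC_sound p14_21_1_205)) (pfC_sound p14_21_1_206)) (pfC_sound p14_21_1_207)) (pfC_sound p14_21_1_208)) (pfC_sound p14_21_1_209)) (pfC_sound p14_21_1_210)) (pfC_sound p14_21_1_211)) (pfC_sound p14_21_1_212)) (pfC_sound p14_21_1_213)) (pfC_sound p14_21_1_214)) (pfC_sound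 p14_21_1_215)) (pfC_sound p14_21_1_216)) (pfC_sound p14_21_1_217)) (pfC_sound p14_21_1_218)) (pfC_sound p14_21_1_219)) (pfC_sound p14_21_1_220)) (pfC_sound p14_21_1_221)) (pfC_sound p14_21_1_222)) (pfC_sound p14_21_1_223)) (pfC_sound p14_21_1_224)) (pfC_sound p14_21_1_225)) (by decide +kernel)

def z14_21_1 : zOK yB14_21 (nat_lit 1) (nat_lit 400) (nat_lit 601) (nat_lit 11394344) (nat_lit 7298113) = true := by decide +kernel
def g14_21_1 : gOK yB14_21.x P14_21 (nat_lit 1360) (q14_21 :: r14_21) (nat_lit 1) (nat_lit 400) (nat_lit 2) (nat_lit 601) (nat_lit 11000000) (nat_lit 17884250) (nat_lit 12712500) (nat_lit 12712500) [(nat_lit 800), (nat_lit 1600)] = true := by decide +kernel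
def v14_21_1 : ivC P14_21 s14_21 w14_21 n14_21 (nat_lit 3) (nat_lit 4840) (nat_lit 1) (nat_lit 400) f192_0_400 f200_0_400 (nat_lit 2) (nat_lit 601) f192_0_601 f200_0_601 (nat_lit 11394344) (nat_lit 7298113) p14_21_1 = true := by decide +kernel
end CB
end Pool.Agent.Lib.MP_6947cd_al
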