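import Pool.Agent.Lib.MP_6947cd_al.L.BoxDataB
import Pool.Agent.Lib.MP_6947cd_al.L.TeD1
import Pool.Agent.Lib.MP_6947cd_al.L.TeD2

/-!
Problem MP_6947cd_al (Chollet).  CASE B, rows `j`: boxes (generated).
-/

set_option autoImplicit false
set_option linter.defProp false
set_option maxRecDepth 20000

namespace Pool.Agent.Lib.MP_6947cd_al
namespace CB

open Ent Ent.Pk Fr Fr.WT CA

/-! box `yB14_22` -/

def P14_22 : BQ := ⟨(nat_lit 8), (nat_lit 4), (nat_lit 4), (nat_lit 2), (nat_lit 6), (nat_lit 980), (nat_lit 990), (nat_lit 90), [(nat_lit 180), (nat_lit 330), (nat_lit 650)], (nat_lit 153664000), (nat_lit 16000000), (nat_lit 16000000000)⟩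
def q14_22 : PC := ⟨(nat_lit 1000), [(nat_lit 90000), (nat_lit 180000), (nat_lit 330000), (nat_lit 650000)], (nat_lit 18446744078004518913000000), (nat_lit 15846336000000), (nat_lit 15846336000000), (nat_lit 10000000)⟩
def r14_22 : List PC := [⟨(nat_lit 1295), [(nat_lit 90483), (nat_lit 180257), (nat_lit 331086), (nat_lit 649655)], (nat_lit 18523242725694577723786624), (nat_lit 16300315332000), (nat_lit 16305071015200), (nat_lit 10053667)⟩, ⟨(nat_lit 4900), [(nat_lit 97342), (nat_lit 185524), (nat_lit 368262), (nat_lit 620000)], (nat_lit 19385000822064077306023219), (nat_lit 20526471440000), (nat_lit 20589343184000), (nat_lit 11159455)⟩, ⟨(nat_lit 1249), [(nat_lit 90385), (nat_lit 180036), (nat_lit 344743), (nat_lit 620000)], (nat_lit 18506585315794965731689180), (nat_lit 16229363490400), (nat_lit 16233377609440), (nat_lit 10446758)⟩]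
def s14_22 : List PB := [⟨(nat_lit 25900), (nat_lit 1447728000000), [(nat_lit 180257), (nat_lit 331086), (nat_lit 649655)], (nat_lit 18523242725694577723786624), (nat_lit 1142200222174624), (nat_lit 1142204977857824), (nat_lit 47200)⟩, ⟨(nat_lit 98000), (nat_lit 1557472000000), [(nat_lit 185524), (nat_lit 368262), (nat_lit 620000)], (nat_lit 19385000822064077306023219), (nat_lit 1146426378282624), (nat_lit 1146489250026624), (nat_lit 624000)⟩, ⟨(nat_lit 24980), (nat_lit 1446160000000), [(nat_lit 180036), (nat_lit 344743), (nat_lit 620000)], (nat_lit 18506585315794965731689180), (nat_lit 1142129270333024), (nat_lit 1142133284452064), (nat_lit 39840)⟩]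
def n14_22 : List KN := [⟨(nat_lit 650), (nat_lit 330), (nat_lit 13167684), (nat_lit 9942524)⟩, ⟨(nat_lit 330), (nat_lit 180), (nat_lit 20402210), (nat_lit 13167684)⟩, ⟨(nat_lit 180), (nat_lit 90), (nat_lit 30365544), (nat_lit 20402210)⟩]
def w14_22 : List ℕ := [(nat_lit 47200), (nat_lit 624000), (nat_lit 39840)]
def par14_22 : parC yB14_22 P14_22 s14_22 r14_22 q14_22 n14_22 w14_22 = true := by decide +kernel

def p14_22_0 : PF := (PF.cons (PF.cons (PF.cons (PF.leaf (nat_lit 1237437) (nat_lit 4539176) (nat_lit 62569636) (nat_lit 4539176) [(nat_lit 0), (nat_lit 0), (nat_lit 0)]) (PF.cons (PF.leaf (nat_lit 1613157) (nat_lit 731948) (nat_lit 61697255) (nat_lit 4679609) [(nat_lit 731948), (nat_lit 0), (nat_lit 0)]) (PF.cons (PF.leaf (nat_lit 2059269) (nat_lit 806177) (nat_lit 60675949) (nat_lit 4820508) [(nat_lit 806177), (nat_lit 0), (nat_lit 0)]) (PF.cons (PF.leaf (nat_lit 2562933) (nat_lit 872416) (nat_lit 59538132) (nat_lit 4953431) [(nat_lit 872416), (nat_lit 0), (nat_lit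 0)]) (PF.cons (PF.leaf (nat_lit 3113765) (nat_lit 931378) (nat_lit 58309738) (nat_lit 5073559) [(nat_lit 931378), (nat_lit 0), (nat_lit 0)]) (PF.cons (PF.leaf (nat_lit 3702648) (nat_lit 983526) (nat_lit 57012871) (nat_lit 5178311) [(nat_lit 983526), (nat_lit 0), (nat_lit 0)]) (PF.cons (PF.leaf (nat_lit 4321412) (nat_lit 1029246) (nat_lit 55666786) (nat_lit 5266547) [(nat_lit 1029246), (nat_lit 0), (nat_lit 0)]) (PF.cons (PF.leaf (nat_lit 4962733) (nat_lit 1068920) (nat_lit 54288285) (nat_lit 5338085) [(nat_lit 1068920), (nat_lit 0), (nat_lit 0)]) (PF.cons (PF.leaf (nat_lit 5620097) (nat_lit 1102939) (nat_lit 52891928) (nat_lit 5393366)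
 [(nat_lit 1102939), (nat_lit 0), (nat_lit 0)]) (PF.cons (PF.leaf (nat_lit 6287788) (nat_lit 1131710) (nat_lit 51490178) (nat_lit 5433239) [(nat_lit 1131710), (nat_lit 0), (nat_lit 0)]) (PF.cons (PF.leaf (nat_lit 6960849) (nat_lit 1155646) (nat_lit 50093549) (nat_lit 5458797) [(nat_lit 1155646), (nat_lit 0), (nat_lit 0)]) (PF.cons (PF.leaf (nat_lit 7635048) (nat_lit 1175161) (nat_lit 48710764) (nat_lit 5471267) [(nat_lit 1175161), (nat_lit 0), (nat_lit 0)]) (PF.cons (PF.leaf (nat_lit 8306797) (nat_lit 1190662) (nat_lit 47348931) (nat_lit 5471929) [(nat_lit 1190662), (nat_lit 0), (nat_lit 0)]) (PF.cons (PF.leaf (nat_lit 8973129) (nat_lit 1202541) (nat_lit 46013713) (nat_lit 5462062) [(nat_lit 1202541), (nat_lit 0), (nat_lit 0)]) (PF.cons (PF.leaf (nat_lit 9631622) (nat_lit 1211171) (nat_lit 44709516) (nat_lit 5442902) [(nat_lit 1211171), (nat_lit 0), (nat_lit 0)]) (PF.cons (PF.leaf (nat_lit 10280333) (nat_lit 1216902) (nat_lit 43439650) (nat_lit 5415622) [(nat_lit 1216902),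 (nat_lit 0), (nat_lit 0)]) (PF.cons (PF.leaf (nat_lit 10917709) (nat_lit 1220062) (nat_lit 42206497) (nat_lit 5381312) [(nat_lit 1220062), (nat_lit 0), (nat_lit 0)]) (PF.cons (PF.leaf (nat_lit 11542604) (nat_lit
 1220951) (nat_lit 41011658) (nat_lit 5340974) [(nat_lit 1220951), (nat_lit 0), (nat_lit 0)]) (PF.cons PF.nil (PF.cons PF.nil (PF.cons PF.nil (PF.cons PF.nil PF.nil)))))))))))))))))))))) (PF.cons (PF.cons (PF.leaf (nat_lit 2288617) (nat_lit 2820602) (nat_lit 59357993) (nat_lit 4930216) [(nat_lit 0), (nat_lit 2820602), (nat_lit 0)]) (PF.cons (PF.leaf (nat_lit 2769122) (nat_lit 891619) (nat_lit 58257364) (nat_lit 5039483) [(nat_lit 891619), (nat_lit 2920344), (nat_lit 0)]) (PF.cons (PF.leaf (nat_lit 3298846) (nat_lit 947158) (nat_lit 57063465) (nat_lit 5139124) [(nat_lit 947158), (nat_lit 3011905), (nat_lit 0)]) (PF.cons (PF.leaf (nat_lit 3867425) (nat_lit 995997) (nat_lit 55801432) (nat_lit 5226056) [(nat_lit 995997), (nat_lit 3093330), (nat_lit 0)]) (PF.cons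 (PF.leaf (nat_lit 4466257) (nat_lit 1038629) (nat_lit 54491681) (nat_lit 5298808) [(nat_lit 1038629), (nat_lit 3163804), (nat_lit 0)]) (PF.cons (PF.leaf (nat_lit 5087908) (nat_lit 1075480) (nat_lit 53151279) (nat_lit 5356940) [(nat_lit 1075480), (nat_lit 3223189), (nat_lit 0)]) (PF.cons (PF.leaf (nat_lit 5725896) (nat_lit 1106959) (nat_lit 51794611) (nat_lit 5400679) [(nat_lit 1106959), (nat_lit 3271764), (nat_lit 0)]) (PF.cons
 (PF.leaf (nat_lit 6374606) (nat_lit 1133472) (nat_lit 50433761) (nat_lit 5430675) [(nat_lit 1133472), (nat_lit 3310068), (nat_lit 0)]) (PF.cons (PF.leaf (nat_lit 7029186) (nat_lit 1155423) (nat_lit 49078790) (nat_lit 5447843) [(nat_lit 1155423), (nat_lit 3338792), (nat_lit 0)]) (PF.cons (PF.leaf (nat_lit 7685523) (nat_lit 1173210) (nat_lit 47737966) (nat_lit 5453243) [(nat_lit 1173210), (nat_lit 3358711), (nat_lit 0)]) (PF.cons (PF.leaf (nat_lit 8340123) (nat_lit 1187220) (nat_lit 46417971) (nat_lit 5448001) [(nat_lit 1187220), (nat_lit 3370634),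 (nat_lit 0)]) (PF.cons (PF.leaf (nat_lit 8990115) (nat_lit 1197826) (nat_lit 45124102) (nat_lit 5433255) [(nat_lit 1197826), (nat_lit 3375368), (nat_lit 0)]) (PF.cons (PF.leaf (nat_lit 9633110) (nat_lit 1205379) (nat_lit 43860453) (nat_lit 5410112) [(nat_lit 1205379), (nat_lit 3373698), (nat_lit 0)]) (PF.cons (PF.leaf (nat_lit 10267206) (nat_lit 1210209) (nat_lit 42630091) (nat_lit 5379627) [(nat_lit 1210209), (nat_lit 3366368), (nat_lit 0)]) (PF.cons (PF.leaf (nat_lit 10890877) (nat_lit 1212624) (nat_lit 41435206) (nat_lit 5342785) [(nat_lit 1212624), (nat_lit 3354076), (nat_lit 0)]) (PF.cons (PF.leaf (nat_lit 11502974) (nat_lit 1212906)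
 (nat_lit 40277258) (nat_lit 5300495) [(nat_lit 1212906), (nat_lit 3337464), (nat_lit 0)]) (PF.cons (PF.leaf (nat_lit 12102607) (nat_lit 1211312) (nat_lit 39157102) (nat_lit 5253583) [(nat_lit 1211312), (nat_lit 3317121), (nat_lit 0)]) (PF.cons PF.nil (PF.cons PF.nil (PF.cons PF.nil PF.nil)))))))))))))))))))) (PF.cons (PF.cons (PF.leaf (nat_lit 3484284) (nat_lit 3056209) (nat_lit 55804098) (nat_lit 5192294) [(nat_lit 0), (nat_lit 3056209), (nat_lit 0)]) (PF.cons (PF.leaf (nat_lit 4029689) (nat_lit 1005067) (nat_lit 54588335) (nat_lit 5263105) [(nat_lit 1005067), (nat_lit 3126152), (nat_lit 0)]) (PF.cons (PF.leaf (nat_lit 4607011) (nat_lit 1045195) (nat_lit 53322866) (nat_lit 5321942) [(nat_lit 1045195), (nat_lit 3186805), (nat_lit 0)]) (PF.cons (PF.leaf (nat_lit 5208163) (nat_lit 1079692) (nat_lit 52026148) (nat_lit 5368080) [(nat_lit 1079692), (nat_lit 3237753), (nat_lit 0)]) (PF.cons (PF.leaf (nat_lit 5826445) (nat_lit 1109017) (nat_lit 50713060) (nat_lit 5401522)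 [(nat_lit 1109017), (nat_lit 3279080), (nat_lit 0)]) (PF.cons (PF.leaf (nat_lit 6456165) (nat_lit 1133595) (nat_lit 49395751) (nat_lit 5422732) [(nat_lit 1133595), (nat_lit 3311175), (nat_lit 0)]) (PF.cons (PF.leaf
 (nat_lit 7092489) (nat_lit 1153834) (nat_lit 48084136) (nat_lit 5432457) [(nat_lit 1153834), (nat_lit 3334607), (nat_lit 0)]) (PF.cons (PF.leaf (nat_lit 7731330) (nat_lit 1170124) (nat_lit 46786252) (nat_lit 5431604) [(nat_lit 1170124), (nat_lit 3350041), (nat_lit 0)]) (PF.cons (PF.leaf (nat_lit 8369257) (nat_lit 1182842) (nat_lit 45508534) (nat_lit 5421160) [(nat_lit 1182842), (nat_lit 3358189), (nat_lit 0)]) (PF.cons (PF.leaf (nat_lit 9003408) (nat_lit 1192343) (nat_lit 44256042) (nat_lit 5402133) [(nat_lit 1192343), (nat_lit 3359774), (nat_lit 0)]) (PF.cons (PF.leaf (nat_lit 9631441) (nat_lit 1198962) (nat_lit 43032668) (nat_lit 5375514) [(nat_lit 1198962), (nat_lit 3355501), (nat_lit 0)]) (PF.cons (PF.leaf (nat_lit 10251459) (nat_lit 1203014) (nat_lit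 41841312) (nat_lit 5342252) [(nat_lit 1203014), (nat_lit 3346046), (nat_lit 0)]) (PF.cons (PF.leaf (nat_lit 10861953) (nat_lit 1204787) (nat_lit 40684039) (nat_lit 5303239) [(nat_lit 1204787), (nat_lit 3332042), (nat_lit 0)]) (PF.cons (PF.leaf (nat_lit 11461748) (nat_lit 1204549) (nat_lit 39562222) (nat_lit 5259297) [(nat_lit 1204549), (nat_lit 3314077), (nat_lit 0)]) (PF.cons (PF.leaf (nat_lit 12049949) (nat_lit 1202542)
 (nat_lit 38476657) (nat_lit 5211180) [(nat_lit 1202542), (nat_lit 3292689), (nat_lit 0)]) (PF.cons PF.nil (PF.cons PF.nil (PF.cons PF.nil PF.nil)))))))))))))))))) (PF.cons (PF.cons (PF.leaf (nat_lit 4746484) (nat_lit 3204349) (nat_lit 52158912) (nat_lit 5336851) [(nat_lit 0), (nat_lit 3204349), (nat_lit 0)]) (PF.cons (PF.leaf (nat_lit 5325658) (nat_lit 1081629) (nat_lit 50911973) (nat_lit 5372260) [(nat_lit 1081629), (nat_lit 3247649), (nat_lit 0)]) (PF.cons (PF.leaf (nat_lit 5923509) (nat_lit 1109194) (nat_lit 49646552) (nat_lit 5396534) [(nat_lit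 1109194), (nat_lit 3282445), (nat_lit 0)]) (PF.cons (PF.leaf (nat_lit 6533961) (nat_lit 1132161) (nat_lit 48375473) (nat_lit 5409949) [(nat_lit 1132161), (nat_lit 3308968), (nat_lit 0)]) (PF.cons (PF.leaf (nat_lit 7152037) (nat_lit 1150955) (nat_lit 47108899) (nat_lit 5413093) [(nat_lit 1150955), (nat_lit 3327665), (nat_lit 0)]) (PF.cons (PF.leaf (nat_lit 7773581) (nat_lit 1165974) (nat_lit 45854907) (nat_lit 5406731) [(nat_lit 1165974), (nat_lit 3339100), (nat_lit 0)]) (PF.cons (PF.leaf (nat_lit 8395135) (nat_lit 1177589) (nat_lit 44619874) (nat_lit 5391721) [(nat_lit 1177589), (nat_lit 3343893), (nat_lit 0)]) (PF.cons (PF.leaf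
 (nat_lit 9013834) (nat_lit 1186145) (nat_lit 43408768) (nat_lit 5368957) [(nat_lit 1186145), (nat_lit 3342689), (nat_lit 0)]) (PF.cons (PF.leaf (nat_lit 9627337) (nat_lit 1191967) (nat_lit 42225384) (nat_lit 5339325) [(nat_lit 1191967), (nat_lit 3336122), (nat_lit 0)]) (PF.cons (PF.leaf (nat_lit 10233720) (nat_lit 1195354) (nat_lit 41072539) (nat_lit 5303677) [(nat_lit 1195354), (nat_lit 3324802), (nat_lit 0)]) (PF.cons (PF.leaf (nat_lit 10831477) (nat_lit 1196583) (nat_lit 39952235) (nat_lit 5262819) [(nat_lit 1196583), (nat_lit 3309309), (nat_lit 0)]) (PF.cons (PF.leaf (nat_lit 11419397) (nat_lit 1195906) (nat_lit 38865804) (nat_lit 5217500) [(nat_lit 1195906), (nat_lit 3290177), (nat_lit 0)]) (PF.cons (PF.leaf (nat_lit 11996579) (nat_lit 1193556) (nat_lit 37814026) (nat_lit 5168405) [(nat_lit 1193556), (nat_lit 3267901), (nat_lit 0)]) (PF.cons PF.nil (PF.cons PF.nil (PF.cons PF.nil PF.nil)))))))))))))))) (PF.cons (PF.cons (PF.leaf (nat_lit 6019131) (nat_lit 3282231)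 (nat_lit 48593627) (nat_lit 5386258) [(nat_lit 0), (nat_lit 3282231), (nat_lit 0)]) (PF.cons (PF.leaf (nat_lit 6609589) (nat_lit 1129217) (nat_lit 47371768) (nat_lit 5392787) [(nat_lit 1129217), (nat_lit 3303759),
 (nat_lit 0)]) (PF.cons (PF.leaf (nat_lit 7209147) (nat_lit 1146839) (nat_lit 46152069) (nat_lit 5390140) [(nat_lit 1146839), (nat_lit 3318231), (nat_lit 0)]) (PF.cons (PF.leaf (nat_lit 7813383) (nat_lit 1160810) (nat_lit 44942994) (nat_lit 5378951) [(nat_lit 1160810), (nat_lit 3326108), (nat_lit 0)]) (PF.cons (PF.leaf (nat_lit 8418718) (nat_lit 1171507) (nat_lit 43751096) (nat_lit 5359961) [(nat_lit 1171507), (nat_lit 3327931), (nat_lit 0)]) (PF.cons (PF.leaf (nat_lit 9022221) (nat_lit 1179274) (nat_lit 42581411) (nat_lit 5333958) [(nat_lit 1179274), (nat_lit 3324267), (nat_lit 0)]) (PF.cons (PF.leaf (nat_lit 9621501) (nat_lit 1184428) (nat_lit 41437757) (nat_lit 5301733) [(nat_lit 1184428), (nat_lit 3315686), (nat_lit 0)]) (PF.cons (PF.leaf (nat_lit 10214601)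 (nat_lit 1187261) (nat_lit 40322954) (nat_lit 5264055) [(nat_lit 1187261), (nat_lit 3302743), (nat_lit 0)]) (PF.cons (PF.leaf (nat_lit 10799974) (nat_lit 1188038) (nat_lit 39239005) (nat_lit 5221653) [(nat_lit 1188038), (nat_lit 3285962), (nat_lit 0)]) (PF.cons (PF.leaf (nat_lit 11376384) (nat_lit 1187001) (nat_lit 38187252) (nat_lit 5175206) [(nat_lit 1187001), (nat_lit 3265834), (nat_lit 0)]) (PF.cons (PF.leaf (nat_lit
 11942882) (nat_lit 1184372) (nat_lit 37168490) (nat_lit 5125340) [(nat_lit 1184372), (nat_lit 3242813), (nat_lit 0)]) (PF.cons (PF.leaf (nat_lit 12498728) (nat_lit 1180350) (nat_lit 36183080) (nat_lit 5072623) [(nat_lit 1180350), (nat_lit 3217312), (nat_lit 0)]) (PF.cons PF.nil (PF.cons PF.nil PF.nil)))))))))))))) (PF.cons (PF.cons (PF.leaf (nat_lit 7265322) (nat_lit 3306529) (nat_lit 45212239) (nat_lit 5363928) [(nat_lit 0), (nat_lit 3306529), (nat_lit 0)]) (PF.cons (PF.leaf (nat_lit 7851911) (nat_lit 1154660) (nat_lit 44049316) (nat_lit 5348543)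 [(nat_lit 1154660), (nat_lit 3311258), (nat_lit 0)]) (PF.cons (PF.leaf (nat_lit 8440985) (nat_lit 1164627) (nat_lit 42901130) (nat_lit 5326113) [(nat_lit 1164627), (nat_lit 3310462), (nat_lit 0)]) (PF.cons (PF.leaf (nat_lit 9029393) (nat_lit 1171759) (nat_lit 41772991) (nat_lit 5297330) [(nat_lit 1171759), (nat_lit 3304642), (nat_lit 0)]) (PF.cons (PF.leaf (nat_lit 9614637) (nat_lit 1176374) (nat_lit 40668872) (nat_lit 5262902) [(nat_lit 1176374), (nat_lit 3294307), (nat_lit 0)]) (PF.cons (PF.leaf (nat_lit 10194696) (nat_lit 1178759) (nat_lit 39591695) (nat_lit 5223521) [(nat_lit 1178759), (nat_lit 3279959), (nat_lit 0)]) (PF.cons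
 (PF.leaf (nat_lit 10767954) (nat_lit 1179172) (nat_lit 38543537) (nat_lit 5179848) [(nat_lit 1179172), (nat_lit 3262077), (nat_lit 0)]) (PF.cons (PF.leaf (nat_lit 11333135) (nat_lit 1177850) (nat_lit 37525797) (nat_lit 5132503) [(nat_lit 1177850), (nat_lit 3241111), (nat_lit 0)]) (PF.cons (PF.leaf (nat_lit 11889229) (nat_lit 1175005) (nat_lit 36539327) (nat_lit 5082057) [(nat_lit 1175005), (nat_lit 3217476), (nat_lit 0)]) (PF.cons (PF.leaf (nat_lit 12435465) (nat_lit 1170829) (nat_lit 35584544) (nat_lit 5029029) [(nat_lit 1170829), (nat_lit 3191555), (nat_lit 0)]) (PF.cons PF.nil (PF.cons PF.nil PF.nil)))))))))))) (PF.cons (PF.cons (PF.leaf (nat_lit 8463030) (nat_lit 3291623) (nat_lit 42068701) (nat_lit 5290371) [(nat_lit 0), (nat_lit 3291623), (nat_lit 0)]) (PF.cons (PF.leaf (nat_lit 9036195) (nat_lit 1163616) (nat_lit 40982390) (nat_lit 5259237) [(nat_lit 1163616), (nat_lit 3283927), (nat_lit 0)]) (PF.cons (PF.leaf (nat_lit 9607456) (nat_lit 1167821) (nat_lit 39917727)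 (nat_lit 5222967) [(nat_lit 1167821), (nat_lit 3272079), (nat_lit 0)]) (PF.cons (PF.leaf (nat_lit 10174600) (nat_lit 1169863) (nat_lit 38877849) (nat_lit 5182186) [(nat_lit 1169863), (nat_lit 3256530), (nat_lit
 0)]) (PF.cons (PF.leaf (nat_lit 10735925) (nat_lit 1170001) (nat_lit 37864987) (nat_lit 5137497) [(nat_lit 1170001), (nat_lit 3237720), (nat_lit 0)]) (PF.cons (PF.leaf (nat_lit 11290076) (nat_lit 1168466) (nat_lit 36880657) (nat_lit 5089465) [(nat_lit 1168466), (nat_lit 3216059), (nat_lit 0)]) (PF.cons (PF.leaf (nat_lit 11835982) (nat_lit 1165465) (nat_lit 35925809) (nat_lit 5038613) [(nat_lit 1165465), (nat_lit 3191932), (nat_lit 0)]) (PF.cons (PF.leaf (nat_lit 12372828) (nat_lit 1161184) (nat_lit 35000944) (nat_lit 4985420) [(nat_lit 1161184), (nat_lit 3165692), (nat_lit 0)]) (PF.cons PF.nil (PF.cons PF.nil PF.nil)))))))))) (PF.cons (PF.cons (PF.leaf (nat_lit 9600764) (nat_lit 3249080) (nat_lit 39183208) (nat_lit 5182039) [(nat_lit 0), (nat_lit 3249080), (nat_lit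 0)]) (PF.cons (PF.leaf (nat_lit 10154933) (nat_lit 1160581) (nat_lit 38180430) (nat_lit 5140144) [(nat_lit 1160581), (nat_lit 3232522), (nat_lit 0)]) (PF.cons (PF.leaf (nat_lit 10704397) (nat_lit 1160532) (nat_lit 37202469) (nat_lit 5094675) [(nat_lit 1160532), (nat_lit 3212943), (nat_lit 0)]) (PF.cons (PF.leaf (nat_lit 11247637) (nat_lit 1158856) (nat_lit 36251026) (nat_lit 5046152) [(nat_lit 1158856), (nat_lit
 3190723), (nat_lit 0)]) (PF.cons (PF.leaf (nat_lit 11783504) (nat_lit 1155759) (nat_lit 35327196) (nat_lit 4995057) [(nat_lit 1155759), (nat_lit 3166217), (nat_lit 0)]) (PF.cons (PF.leaf (nat_lit 12311114) (nat_lit 1151423) (nat_lit 34431602) (nat_lit 4941831) [(nat_lit 1151423), (nat_lit 3139751), (nat_lit 0)]) (PF.cons PF.nil (PF.cons PF.nil PF.nil)))))))) (PF.cons (PF.cons (PF.leaf (nat_lit 10673968) (nat_lit 3187791) (nat_lit 36555041) (nat_lit 5051439) [(nat_lit 0), (nat_lit 3187791), (nat_lit 0)]) (PF.cons (PF.leaf (nat_lit 11206263) (nat_lit 1149021)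 (nat_lit 35636065) (nat_lit 5002612) [(nat_lit 1149021), (nat_lit 3165139), (nat_lit 0)]) (PF.cons (PF.leaf (nat_lit 11732161) (nat_lit 1145888) (nat_lit 34742734) (nat_lit 4951426) [(nat_lit 1145888), (nat_lit 3140359), (nat_lit 0)]) (PF.cons (PF.leaf (nat_lit 12250628) (nat_lit 1141546) (nat_lit 33875829) (nat_lit 4898293) [(nat_lit 1141546), (nat_lit 3113756), (nat_lit 0)]) (PF.cons (PF.leaf (nat_lit 12760916) (nat_lit 1136156) (nat_lit 33035733) (nat_lit 4843587) [(nat_lit 1136156), (nat_lit 3085608), (nat_lit 0)]) (PF.cons PF.nil PF.nil)))))) (PF.cons (PF.cons (PF.leaf (nat_lit 11682401) (nat_lit 3114380) (nat_lit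
 34171639) (nat_lit 4907748) [(nat_lit 0), (nat_lit 3114380), (nat_lit 0)]) (PF.cons (PF.leaf (nat_lit 12191690) (nat_lit 1131552) (nat_lit 33332927) (nat_lit 4854827) [(nat_lit 1131552), (nat_lit 3087722), (nat_lit 0)]) (PF.cons (PF.leaf (nat_lit 12693648) (nat_lit 1126225) (nat_lit 32519299) (nat_lit 4800464) [(nat_lit 1126225), (nat_lit 3059621), (nat_lit 0)]) (PF.cons PF.nil PF.nil)))) (PF.cons (PF.cons (PF.leaf (nat_lit 12628319) (nat_lit 3033674) (nat_lit 32014547) (nat_lit 4757516) [(nat_lit 0), (nat_lit 3033674), (nat_lit 0)]) (PF.cons PF.nil PF.nil)) (PF.cons PF.nil (PF.cons PF.nil (PF.cons PF.nil (PF.cons PF.nil PF.nil))))))))))))))) (PF.cons (PF.cons (PF.cons (PF.leaf (nat_lit 3077150) (nat_lit 5102850) (nat_lit 55518773) (nat_lit 5102850) [(nat_lit 0), (nat_lit 0), (nat_lit 6487189)]) (PF.cons (PF.leaf (nat_lit 3563412) (nat_lit 944628) (nat_lit 54438092) (nat_lit 5174609) [(nat_lit 944628), (nat_lit 0), (nat_lit 6551482)]) (PF.cons (PF.leaf (nat_lit 4092298)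 (nat_lit 991827) (nat_lit 53282151) (nat_lit 5237353) [(nat_lit 991827), (nat_lit 0), (nat_lit 6605652)]) (PF.cons (PF.leaf (nat_lit 4653578) (nat_lit 1032258) (nat_lit 52075183) (nat_lit 5289183) [(nat_lit
 1032258), (nat_lit 0), (nat_lit 6647671)]) (PF.cons (PF.leaf (nat_lit 5239187) (nat_lit 1066731) (nat_lit 50835823) (nat_lit 5329342) [(nat_lit 1066731), (nat_lit 0), (nat_lit 6676720)]) (PF.cons (PF.leaf (nat_lit 5842429) (nat_lit 1095870) (nat_lit 49578922) (nat_lit 5357782) [(nat_lit 1095870), (nat_lit 0), (nat_lit 6692755)]) (PF.cons (PF.leaf (nat_lit 6457667) (nat_lit 1120199) (nat_lit 48316490) (nat_lit 5374896) [(nat_lit 1120199), (nat_lit 0), (nat_lit 6696229)]) (PF.cons (PF.leaf (nat_lit 7080121) (nat_lit 1140184) (nat_lit 47058264) (nat_lit 5381350) [(nat_lit 1140184), (nat_lit 0), (nat_lit 6687905)]) (PF.cons (PF.leaf (nat_lit 7705758) (nat_lit 1156251) (nat_lit 45812101) (nat_lit 5377969) [(nat_lit 1156251), (nat_lit 0), (nat_lit 6668727)]) (PF.cons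 (PF.leaf (nat_lit 8331195) (nat_lit 1168794) (nat_lit 44584274) (nat_lit 5365652) [(nat_lit 1168794), (nat_lit 0), (nat_lit 6639733)]) (PF.cons (PF.leaf (nat_lit 8953604) (nat_lit 1178178) (nat_lit 43379716) (nat_lit 5345327) [(nat_lit 1178178), (nat_lit 0), (nat_lit 6601986)]) (PF.cons (PF.leaf (nat_lit 9570669) (nat_lit 1184740) (nat_lit 42202227) (nat_lit 5317906) [(nat_lit 1184740), (nat_lit 0), (nat_lit 6556537)])
 (PF.cons (PF.leaf (nat_lit 10180482) (nat_lit 1188791) (nat_lit 41054650) (nat_lit 5284267) [(nat_lit 1188791), (nat_lit 0), (nat_lit 6504393)]) (PF.cons (PF.leaf (nat_lit 10781554) (nat_lit 1190619) (nat_lit 39939028) (nat_lit 5245235) [(nat_lit 1190619), (nat_lit 0), (nat_lit 6446501)]) (PF.cons (PF.leaf (nat_lit 11372667) (nat_lit 1190483) (nat_lit 38856736) (nat_lit 5201576) [(nat_lit 1190483), (nat_lit 0), (nat_lit 6383736)]) (PF.cons (PF.leaf (nat_lit 11952904) (nat_lit 1188621) (nat_lit 37808601) (nat_lit 5153991) [(nat_lit 1188621), (nat_lit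 0), (nat_lit 6316900)]) (PF.cons PF.nil (PF.cons PF.nil (PF.cons PF.nil (PF.cons PF.nil PF.nil)))))))))))))))))))) (PF.cons (PF.cons (PF.leaf (nat_lit 4250034) (nat_lit 3129768) (nat_lit 52101521) (nat_lit 5258442) [(nat_lit 0), (nat_lit 3129768), (nat_lit 6619079)]) (PF.cons (PF.leaf (nat_lit 4787421) (nat_lit 1034599) (nat_lit 50947796) (nat_lit 5298934) [(nat_lit 1034599), (nat_lit 3178697), (nat_lit 6648785)]) (PF.cons (PF.leaf (nat_lit 5351506) (nat_lit 1067496) (nat_lit 49757672) (nat_lit 5329387) [(nat_lit 1067496), (nat_lit 3219528), (nat_lit 6667231)]) (PF.cons (PF.leaf (nat_lit 5934805) (nat_lit 1095107) (nat_lit 48547593)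
 (nat_lit 5349534) [(nat_lit 1095107), (nat_lit 3252176), (nat_lit 6674187)]) (PF.cons (PF.leaf (nat_lit 6531326) (nat_lit 1118017) (nat_lit 47330302) (nat_lit 5359597) [(nat_lit 1118017), (nat_lit 3276893), (nat_lit 6669949)]) (PF.cons (PF.leaf (nat_lit 7136114) (nat_lit 1136721) (nat_lit 46115842) (nat_lit 5360101) [(nat_lit 1136721), (nat_lit 3294122), (nat_lit 6655138)]) (PF.cons (PF.leaf (nat_lit 7745054) (nat_lit 1151654) (nat_lit 44912162) (nat_lit 5351739) [(nat_lit 1151654), (nat_lit 3304414), (nat_lit 6630567)]) (PF.cons (PF.leaf (nat_lit 8354703) (nat_lit 1163209) (nat_lit 43725525) (nat_lit 5335300) [(nat_lit 1163209), (nat_lit 3308368), (nat_lit 6597148)]) (PF.cons (PF.leaf (nat_lit 8962237) (nat_lit 1171746) (nat_lit 42560811) (nat_lit 5311605) [(nat_lit 1171746), (nat_lit 3306597), (nat_lit 6555830)]) (PF.cons (PF.leaf (nat_lit 9565308) (nat_lit 1177591) (nat_lit 41421755) (nat_lit 5281472) [(nat_lit 1177591), (nat_lit 3299708), (nat_lit 6507557)]) (PF.cons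 (PF.leaf (nat_lit 10162001) (nat_lit 1181045) (nat_lit 40311145) (nat_lit 5245692) [(nat_lit 1181045), (nat_lit 3288280), (nat_lit 6453238)]) (PF.cons (PF.leaf (nat_lit 10750795) (nat_lit 1182383) (nat_lit
 39230979) (nat_lit 5205016) [(nat_lit 1182383), (nat_lit 3272863), (nat_lit 6393733)]) (PF.cons (PF.leaf (nat_lit 11330466) (nat_lit 1181855) (nat_lit 38182609) (nat_lit 5160138) [(nat_lit 1181855), (nat_lit 3253965), (nat_lit 6329838)]) (PF.cons (PF.leaf (nat_lit 11900064) (nat_lit 1179686) (nat_lit 37166852) (nat_lit 5111699) [(nat_lit 1179686), (nat_lit 3232054), (nat_lit 6262284)]) (PF.cons (PF.leaf (nat_lit 12458906) (nat_lit 1176081) (nat_lit 36184095) (nat_lit 5060281) [(nat_lit 1176081), (nat_lit 3207558), (nat_lit 6191732)]) (PF.cons PF.nil (PF.cons PF.nil (PF.cons PF.nil PF.nil)))))))))))))))))) (PF.cons (PF.cons (PF.leaf (nat_lit 5464431) (nat_lit 3222880) (nat_lit 48688324) (nat_lit 5323694) [(nat_lit 0), (nat_lit 3222880), (nat_lit 6651032)]) (PF.cons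 (PF.leaf (nat_lit 6026374) (nat_lit 1092573) (nat_lit 47529486) (nat_lit 5336488) [(nat_lit 1092573), (nat_lit 3250106), (nat_lit 6650051)]) (PF.cons (PF.leaf (nat_lit 6603460) (nat_lit 1114397) (nat_lit 46360120) (nat_lit 5340329) [(nat_lit 1114397), (nat_lit 3270235), (nat_lit 6639097)]) (PF.cons (PF.leaf (nat_lit 7190259) (nat_lit 1132084) (nat_lit 45191117) (nat_lit 5335601) [(nat_lit 1132084), (nat_lit 3283589),
 (nat_lit 6618662)]) (PF.cons (PF.leaf (nat_lit 7782422) (nat_lit 1146098) (nat_lit 44030853) (nat_lit 5322881) [(nat_lit 1146098), (nat_lit 3290623), (nat_lit 6589437)]) (PF.cons (PF.leaf (nat_lit 8376392) (nat_lit 1156843) (nat_lit 42885801) (nat_lit 5302852) [(nat_lit 1156843), (nat_lit 3291857), (nat_lit 6552225)]) (PF.cons (PF.leaf (nat_lit 8969239) (nat_lit 1164679) (nat_lit 41760941) (nat_lit 5276241) [(nat_lit 1164679), (nat_lit 3287838), (nat_lit 6507872)]) (PF.cons (PF.leaf (nat_lit 9558571) (nat_lit 1169931) (nat_lit 40660057) (nat_lit 5243781)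 [(nat_lit 1169931), (nat_lit 3279111), (nat_lit 6457228)]) (PF.cons (PF.leaf (nat_lit 10142437) (nat_lit 1172892) (nat_lit 39585958) (nat_lit 5206187) [(nat_lit 1172892), (nat_lit 3266203), (nat_lit 6401116)]) (PF.cons (PF.leaf (nat_lit 10719268) (nat_lit 1173828) (nat_lit 38540661) (nat_lit 5164139) [(nat_lit 1173828), (nat_lit 3249616), (nat_lit 6340317)]) (PF.cons (PF.leaf (nat_lit 11287811) (nat_lit 1172981) (nat_lit 37525536) (nat_lit 5118272) [(nat_lit 1172981), (nat_lit 3229817), (nat_lit 6275558)]) (PF.cons (PF.leaf (nat_lit 11847083) (nat_lit 1170566) (nat_lit 36541428) (nat_lit 5069170) [(nat_lit 1170566), (nat_lit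
 3207237), (nat_lit 6207505)]) (PF.cons (PF.leaf (nat_lit 12396353) (nat_lit 1166781) (nat_lit 35588754) (nat_lit 5017368) [(nat_lit 1166781), (nat_lit 3182271), (nat_lit 6136766)]) (PF.cons PF.nil (PF.cons PF.nil (PF.cons PF.nil PF.nil)))))))))))))))) (PF.cons (PF.cons (PF.leaf (nat_lit 6675872) (nat_lit 3261070) (nat_lit 45404126) (nat_lit 5317426) [(nat_lit 0), (nat_lit 3261070), (nat_lit 6604049)]) (PF.cons (PF.leaf (nat_lit 7243927) (nat_lit 1126282) (nat_lit 44282656) (nat_lit 5308139) [(nat_lit 1126282), (nat_lit 3270977), (nat_lit 6578801)]) (PF.cons (PF.leaf (nat_lit 7818991) (nat_lit 1139602) (nat_lit 43166964) (nat_lit 5291639) [(nat_lit 1139602), (nat_lit 3275128), (nat_lit 6545616)]) (PF.cons (PF.leaf (nat_lit 8397175) (nat_lit 1149718) (nat_lit 42064034) (nat_lit 5268515) [(nat_lit 1149718), (nat_lit 3273969), (nat_lit 6505200)]) (PF.cons (PF.leaf (nat_lit 8975386) (nat_lit 1157003) (nat_lit 40979138) (nat_lit 5239408) [(nat_lit 1157003), (nat_lit 3267980),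 (nat_lit 6458310)]) (PF.cons (PF.leaf (nat_lit 9551122) (nat_lit 1161783) (nat_lit 39916236) (nat_lit 5204978) [(nat_lit 1161783), (nat_lit 3257654), (nat_lit 6405715)]) (PF.cons (PF.leaf (nat_lit 10122356)
 (nat_lit 1164353) (nat_lit 38878252) (nat_lit 5165869) [(nat_lit 1164353), (nat_lit 3243469), (nat_lit 6348162)]) (PF.cons (PF.leaf (nat_lit 10687454) (nat_lit 1164971) (nat_lit 37867288) (nat_lit 5122702) [(nat_lit 1164971), (nat_lit 3225885), (nat_lit 6286363)]) (PF.cons (PF.leaf (nat_lit 11245111) (nat_lit 1163875) (nat_lit 36884780) (nat_lit 5076055) [(nat_lit 1163875), (nat_lit 3205330), (nat_lit 6220983)]) (PF.cons (PF.leaf (nat_lit 11794306) (nat_lit 1161274) (nat_lit 35931634) (nat_lit 5026466) [(nat_lit 1161274), (nat_lit 3182202), (nat_lit 6152633)]) (PF.cons (PF.leaf (nat_lit 12334241) (nat_lit 1157358) (nat_lit 35008328) (nat_lit 4974424) [(nat_lit 1157358), (nat_lit 3156866), (nat_lit 6081871)]) (PF.cons PF.nil (PF.cons PF.nil (PF.cons PF.nil PF.nil))))))))))))))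 (PF.cons (PF.cons (PF.leaf (nat_lit 7856056) (nat_lit 3258073) (nat_lit 42318978) (nat_lit 5258213) [(nat_lit 0), (nat_lit 3258073), (nat_lit 6499324)]) (PF.cons (PF.leaf (nat_lit 8418046) (nat_lit 1141839) (nat_lit 41258960) (nat_lit 5232459) [(nat_lit 1141839), (nat_lit 3254822), (nat_lit 6456262)]) (PF.cons (PF.leaf (nat_lit 8981492) (nat_lit 1148725) (nat_lit 40214303) (nat_lit 5201251) [(nat_lit
 1148725), (nat_lit 3247125), (nat_lit 6407306)]) (PF.cons (PF.leaf (nat_lit 9543636) (nat_lit 1153159) (nat_lit 39189311) (nat_lit 5165182) [(nat_lit 1153159), (nat_lit 3235421), (nat_lit 6353152)]) (PF.cons (PF.leaf (nat_lit 10102325) (nat_lit 1155438) (nat_lit 38187138) (nat_lit 5124839) [(nat_lit 1155438), (nat_lit 3220148), (nat_lit 6294486)]) (PF.cons (PF.leaf (nat_lit 10655831) (nat_lit 1155823) (nat_lit 37210043) (nat_lit 5080785) [(nat_lit 1155823), (nat_lit 3201726), (nat_lit 6231960)]) (PF.cons (PF.leaf (nat_lit 11202773) (nat_lit 1154548) (nat_lit 36259585)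 (nat_lit 5033554) [(nat_lit 1154548), (nat_lit 3180549), (nat_lit 6166185)]) (PF.cons (PF.leaf (nat_lit 11742071) (nat_lit 1151818) (nat_lit 35336772) (nat_lit 4983638) [(nat_lit 1151818), (nat_lit 3156986), (nat_lit 6097724)]) (PF.cons (PF.leaf (nat_lit 12272863) (nat_lit 1147819) (nat_lit 34442167) (nat_lit 4931490) [(nat_lit 1147819), (nat_lit 3131376), (nat_lit 6027092)]) (PF.cons PF.nil (PF.cons PF.nil (PF.cons PF.nil PF.nil)))))))))))) (PF.cons (PF.cons (PF.leaf (nat_lit 8988507) (nat_lit 3225354) (nat_lit 39465171) (nat_lit 5161883) [(nat_lit 0), (nat_lit 3225354), (nat_lit 6354982)]) (PF.cons (PF.leaf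
 (nat_lit 9536834) (nat_lit 1144058) (nat_lit 38478200) (nat_lit 5124491) [(nat_lit 1144058), (nat_lit 3212483), (nat_lit 6299645)]) (PF.cons (PF.leaf (nat_lit 10082939) (nat_lit 1146152) (nat_lit 37511660) (nat_lit 5083175) [(nat_lit 1146152), (nat_lit 3196299), (nat_lit 6240177)]) (PF.cons (PF.leaf (nat_lit 10624890) (nat_lit 1146389) (nat_lit 36568070) (nat_lit 5038455) [(nat_lit 1146389), (nat_lit 3177187), (nat_lit 6177180)]) (PF.cons (PF.leaf (nat_lit 11161209) (nat_lit 1145004) (nat_lit 35649177) (nat_lit 4990822) [(nat_lit 1145004), (nat_lit 3155514), (nat_lit 6111222)]) (PF.cons (PF.leaf (nat_lit 11690723) (nat_lit 1142203) (nat_lit 34756132) (nat_lit 4940730) [(nat_lit 1142203), (nat_lit 3131622), (nat_lit 6042823)]) (PF.cons (PF.leaf (nat_lit 12212507) (nat_lit 1138168) (nat_lit 33889621) (nat_lit 4888598) [(nat_lit 1138168), (nat_lit 3105823), (nat_lit 5972462)]) (PF.cons (PF.leaf (nat_lit 12725876) (nat_lit 1133062) (nat_lit 33049962) (nat_lit 4834808)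 [(nat_lit 1133062), (nat_lit 3078406), (nat_lit 5900569)]) (PF.cons PF.nil (PF.cons PF.nil PF.nil)))))))))) (PF.cons (PF.cons (PF.leaf (nat_lit 10064894) (nat_lit 3171966) (nat_lit 36850775) (nat_lit 5040940) [(nat_lit
 0), (nat_lit 3171966), (nat_lit 6185297)]) (PF.cons (PF.leaf (nat_lit 10595151) (nat_lit 1136665) (nat_lit 35940460) (nat_lit 4995762) [(nat_lit 1136665), (nat_lit 3152307), (nat_lit 6122076)]) (PF.cons (PF.leaf (nat_lit 11120839) (nat_lit 1135242) (nat_lit 35052747) (nat_lit 4947899) [(nat_lit 1135242), (nat_lit 3130257), (nat_lit 6056136)]) (PF.cons (PF.leaf (nat_lit 11640614) (nat_lit 1132428) (nat_lit 34188989) (nat_lit 4897773) [(nat_lit 1132428), (nat_lit 3106133), (nat_lit 5987964)]) (PF.cons (PF.leaf (nat_lit 12153470) (nat_lit 1128405) (nat_lit 33350030) (nat_lit 4845774) [(nat_lit 1128405), (nat_lit 3080229), (nat_lit 5918008)]) (PF.cons (PF.leaf (nat_lit 12658636) (nat_lit 1123335) (nat_lit 32536319) (nat_lit 4792259) [(nat_lit 1123335), (nat_lit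 3052814), (nat_lit 5846669)]) (PF.cons PF.nil (PF.cons PF.nil PF.nil)))))))) (PF.cons (PF.cons (PF.leaf (nat_lit 11082187) (nat_lit 3104800) (nat_lit 34469440) (nat_lit 4904813) [(nat_lit 0), (nat_lit 3104800), (nat_lit 6000954)]) (PF.cons (PF.leaf (nat_lit 11592118) (nat_lit 1122489) (nat_lit 33634589) (nat_lit 4854789) [(nat_lit 1122489), (nat_lit 3080539), (nat_lit 5933167)]) (PF.cons (PF.leaf (nat_lit 12096050) (nat_lit
 1118528) (nat_lit 32822722) (nat_lit 4803035) [(nat_lit 1118528), (nat_lit 3054607), (nat_lit 5863743)]) (PF.cons (PF.leaf (nat_lit 12593051) (nat_lit 1113533) (nat_lit 32034451) (nat_lit 4749885) [(nat_lit 1113533), (nat_lit 3027258), (nat_lit 5793061)]) (PF.cons PF.nil (PF.cons PF.nil PF.nil)))))) (PF.cons (PF.cons (PF.leaf (nat_lit 12040643) (nat_lit 3028968) (nat_lit 32306999) (nat_lit 4760390) [(nat_lit 0), (nat_lit 3028968), (nat_lit 5809674)]) (PF.cons (PF.leaf (nat_lit 12529390) (nat_lit 1103651) (nat_lit 31543741) (nat_lit 4707692) [(nat_lit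 1103651), (nat_lit 3001747), (nat_lit 5739747)]) (PF.cons (PF.leaf (nat_lit 13011327) (nat_lit 1097891) (nat_lit 30802801) (nat_lit 4653982) [(nat_lit 1097891), (nat_lit 2973407), (nat_lit 5668986)]) (PF.cons PF.nil PF.nil)))) (PF.cons (PF.cons (PF.leaf (nat_lit 12942420) (nat_lit 2948187) (nat_lit 30345671) (nat_lit 4612572) [(nat_lit 0), (nat_lit 2948187), (nat_lit 5616877)]) (PF.cons PF.nil PF.nil)) (PF.cons PF.nil (PF.cons PF.nil (PF.cons PF.nil PF.nil))))))))))))) (PF.cons (PF.cons (PF.cons (PF.leaf (nat_lit 4956327) (nat_lit 5256125) (nat_lit 48684425) (nat_lit 5256125) [(nat_lit 0), (nat_lit 0), (nat_lit 6584130)]) (PF.cons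
 (PF.leaf (nat_lit 5482024) (nat_lit 1049491) (nat_lit 47605949) (nat_lit 5274724) [(nat_lit 1049491), (nat_lit 0), (nat_lit 6589323)]) (PF.cons (PF.leaf (nat_lit 6030439) (nat_lit 1076641) (nat_lit 46500383) (nat_lit 5284880) [(nat_lit 1076641), (nat_lit 0), (nat_lit 6585132)]) (PF.cons (PF.leaf (nat_lit 6594645) (nat_lit 1098866) (nat_lit 45382256) (nat_lit 5286621) [(nat_lit 1098866), (nat_lit 0), (nat_lit 6571668)]) (PF.cons (PF.leaf (nat_lit 7169253) (nat_lit 1116822) (nat_lit 44262486) (nat_lit 5280299) [(nat_lit 1116822), (nat_lit 0), (nat_lit 6549368)]) (PF.cons (PF.leaf (nat_lit 7749901) (nat_lit 1131038) (nat_lit 43149443) (nat_lit 5266446) [(nat_lit 1131038), (nat_lit 0), (nat_lit 6518864)]) (PF.cons (PF.leaf (nat_lit 8333038) (nat_lit 1141956) (nat_lit 42049585) (nat_lit 5245700) [(nat_lit 1141956), (nat_lit 0), (nat_lit 6480894)]) (PF.cons (PF.leaf (nat_lit 8915728) (nat_lit 1149959) (nat_lit 40967879) (nat_lit 5218738) [(nat_lit 1149959), (nat_lit 0),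 (nat_lit 6436238)]) (PF.cons (PF.leaf (nat_lit 9495571) (nat_lit 1155386) (nat_lit 39908107) (nat_lit 5186247) [(nat_lit 1155386), (nat_lit 0), (nat_lit 6385683)]) (PF.cons (PF.leaf (nat_lit 10070626) (nat_lit 1158536)
 (nat_lit 38873094) (nat_lit 5148896) [(nat_lit 1158536), (nat_lit 0), (nat_lit 6329995)]) (PF.cons (PF.leaf (nat_lit 10639294) (nat_lit 1159680) (nat_lit 37864886) (nat_lit 5107323) [(nat_lit 1159680), (nat_lit 0), (nat_lit 6269901)]) (PF.cons (PF.leaf (nat_lit 11200307) (nat_lit 1159057) (nat_lit 36884895) (nat_lit 5062126) [(nat_lit 1159057), (nat_lit 0), (nat_lit 6206078)]) (PF.cons (PF.leaf (nat_lit 11752666) (nat_lit 1156886) (nat_lit 35934019) (nat_lit 5013854) [(nat_lit 1156886), (nat_lit 0), (nat_lit 6139151)]) (PF.cons (PF.leaf (nat_lit 12295601) (nat_lit 1153360) (nat_lit 35012742) (nat_lit 4963010) [(nat_lit 1153360), (nat_lit 0), (nat_lit 6069689)]) (PF.cons PF.nil (PF.cons PF.nil PF.nil)))))))))))))))) (PF.cons (PF.cons (PF.leaf (nat_lit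 6120875) (nat_lit 3209994) (nat_lit 45526134) (nat_lit 5265472) [(nat_lit 0), (nat_lit 3209994), (nat_lit 6553605)]) (PF.cons (PF.leaf (nat_lit 6664654) (nat_lit 1093230) (nat_lit 44457908) (nat_lit 5262278) [(nat_lit 1093230), (nat_lit 3225387), (nat_lit 6535004)]) (PF.cons (PF.leaf (nat_lit 7220971) (nat_lit 1110598) (nat_lit 43384130) (nat_lit 5251828) [(nat_lit 1110598), (nat_lit 3234820), (nat_lit 6508418)]) (PF.cons (PF.leaf
 (nat_lit 7784929) (nat_lit 1124234) (nat_lit 42314103) (nat_lit 5234559) [(nat_lit 1124234), (nat_lit 3238659), (nat_lit 6474392)]) (PF.cons (PF.leaf (nat_lit 8352689) (nat_lit 1134617) (nat_lit 41254814) (nat_lit 5211020) [(nat_lit 1134617), (nat_lit 3237349), (nat_lit 6433579)]) (PF.cons (PF.leaf (nat_lit 8921147) (nat_lit 1142145) (nat_lit 40211540) (nat_lit 5181812) [(nat_lit 1142145), (nat_lit 3231364), (nat_lit 6386683)]) (PF.cons (PF.leaf (nat_lit 9487784) (nat_lit 1147163) (nat_lit 39188254) (nat_lit 5147555) [(nat_lit 1147163), (nat_lit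 3221182), (nat_lit 6334418)]) (PF.cons (PF.leaf (nat_lit 10050572) (nat_lit 1149973) (nat_lit 38187908) (nat_lit 5108855) [(nat_lit 1149973), (nat_lit 3207267), (nat_lit 6277482)]) (PF.cons (PF.leaf (nat_lit 10607847) (nat_lit 1150841) (nat_lit 37212638) (nat_lit 5066296) [(nat_lit 1150841), (nat_lit 3190062), (nat_lit 6216541)]) (PF.cons (PF.leaf (nat_lit 11158289) (nat_lit 1150004) (nat_lit 36263932) (nat_lit 5020424) [(nat_lit 1150004), (nat_lit 3169981), (nat_lit 6152216)]) (PF.cons (PF.leaf (nat_lit 11700846) (nat_lit 1147673) (nat_lit 35342754) (nat_lit 4971745) [(nat_lit 1147673), (nat_lit 3147406), (nat_lit 6085083)]) (PF.cons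
 (PF.leaf (nat_lit 12234718) (nat_lit 1144038) (nat_lit 34449647) (nat_lit 4920723) [(nat_lit 1144038), (nat_lit 3122688), (nat_lit 6015666)]) (PF.cons PF.nil (PF.cons PF.nil PF.nil)))))))))))))) (PF.cons (PF.cons (PF.leaf (nat_lit 7274297) (nat_lit 3219692) (nat_lit 42519350) (nat_lit 5220856) [(nat_lit 0), (nat_lit 3219692), (nat_lit 6464610)]) (PF.cons (PF.leaf (nat_lit 7820772) (nat_lit 1116512) (nat_lit 41493862) (nat_lit 5200677) [(nat_lit 1116512), (nat_lit 3221206), (nat_lit 6427674)]) (PF.cons (PF.leaf (nat_lit 8372768) (nat_lit 1126549) (nat_lit 40475911) (nat_lit 5174774) [(nat_lit 1126549), (nat_lit 3217979), (nat_lit 6384534)]) (PF.cons (PF.leaf (nat_lit 8926819) (nat_lit 1133752) (nat_lit 39471344) (nat_lit 5143685) [(nat_lit 1133752), (nat_lit 3210431), (nat_lit 6335830)]) (PF.cons (PF.leaf (nat_lit 9480213) (nat_lit 1138483) (nat_lit 38484487) (nat_lit 5107968) [(nat_lit 1138483), (nat_lit 3198993), (nat_lit 6282217)]) (PF.cons (PF.leaf (nat_lit 10030784)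 (nat_lit 1141051) (nat_lit 37518527) (nat_lit 5068178) [(nat_lit 1141051), (nat_lit 3184089), (nat_lit 6224336)]) (PF.cons (PF.leaf (nat_lit 10576773) (nat_lit 1141724) (nat_lit 36575765) (nat_lit 5024848)
 [(nat_lit 1141724), (nat_lit 3166126), (nat_lit 6162799)]) (PF.cons (PF.leaf (nat_lit 11116782) (nat_lit 1140739) (nat_lit 35657815) (nat_lit 4978481) [(nat_lit 1140739), (nat_lit 3145487), (nat_lit 6098181)]) (PF.cons (PF.leaf (nat_lit 11649697) (nat_lit 1138304) (nat_lit 34765742) (nat_lit 4929545) [(nat_lit 1138304), (nat_lit 3122528), (nat_lit 6031014)]) (PF.cons (PF.leaf (nat_lit 12174663) (nat_lit 1134605) (nat_lit 33900179) (nat_lit 4878468) [(nat_lit 1134605), (nat_lit 3097574), (nat_lit 5961781)]) (PF.cons PF.nil (PF.cons PF.nil PF.nil)))))))))))) (PF.cons (PF.cons (PF.leaf (nat_lit 8394426) (nat_lit 3197536) (nat_lit 39711369) (nat_lit 5137076) [(nat_lit 0), (nat_lit 3197536), (nat_lit 6333877)]) (PF.cons (PF.leaf (nat_lit 8933604) (nat_lit 1124768) (nat_lit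 38746053) (nat_lit 5104455) [(nat_lit 1124768), (nat_lit 3188654), (nat_lit 6283785)]) (PF.cons (PF.leaf (nat_lit 9473553) (nat_lit 1129340) (nat_lit 37795751) (nat_lit 5067571) [(nat_lit 1129340), (nat_lit 3176155), (nat_lit 6229171)]) (PF.cons (PF.leaf (nat_lit 10011831) (nat_lit 1131769) (nat_lit 36864026) (nat_lit 5026934) [(nat_lit 1131769), (nat_lit 3160426), (nat_lit 6170631)]) (PF.cons (PF.leaf (nat_lit
 10546542) (nat_lit 1132330) (nat_lit 35953440) (nat_lit 4983037) [(nat_lit 1132330), (nat_lit 3141845), (nat_lit 6108737)]) (PF.cons (PF.leaf (nat_lit 11076178) (nat_lit 1131265) (nat_lit 35065796) (nat_lit 4936344) [(nat_lit 1131265), (nat_lit 3120766), (nat_lit 6044022)]) (PF.cons (PF.leaf (nat_lit 11599550) (nat_lit 1128782) (nat_lit 34202304) (nat_lit 4887290) [(nat_lit 1128782), (nat_lit 3097520), (nat_lit 5976981)]) (PF.cons (PF.leaf (nat_lit 12115714) (nat_lit 1125065) (nat_lit 33363715) (nat_lit 4836273) [(nat_lit 1125065), (nat_lit 3072411), (nat_lit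 5908065)]) (PF.cons (PF.leaf (nat_lit 12623935) (nat_lit 1120276) (nat_lit 32550418) (nat_lit 4783655) [(nat_lit 1120276), (nat_lit 3045718), (nat_lit 5837683)]) (PF.cons PF.nil PF.nil)))))))))) (PF.cons (PF.cons (PF.leaf (nat_lit 9468640) (nat_lit 3152715) (nat_lit 37120848) (nat_lit 5026423) [(nat_lit 0), (nat_lit 3152715), (nat_lit 6175340)]) (PF.cons (PF.leaf (nat_lit 9994330) (nat_lit 1122117) (nat_lit 36223392) (nat_lit 4985176) [(nat_lit 1122117), (nat_lit 3136320), (nat_lit 6116422)]) (PF.cons (PF.leaf (nat_lit 10517656) (nat_lit 1122654) (nat_lit 35344784) (nat_lit 4940906) [(nat_lit 1122654), (nat_lit 3117253),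
 (nat_lit 6054400)]) (PF.cons (PF.leaf (nat_lit 11036891) (nat_lit 1121579) (nat_lit 34487095) (nat_lit 4894049) [(nat_lit 1121579), (nat_lit 3095844), (nat_lit 5989775)]) (PF.cons (PF.leaf (nat_lit 11550735) (nat_lit 1119104) (nat_lit 33651739) (nat_lit 4845009) [(nat_lit 1119104), (nat_lit 3072404), (nat_lit 5923014)]) (PF.cons (PF.leaf (nat_lit 12058151) (nat_lit 1115415) (nat_lit 32839622) (nat_lit 4794160) [(nat_lit 1115415), (nat_lit 3047218), (nat_lit 5854538)]) (PF.cons (PF.leaf (nat_lit 12558349) (nat_lit 1110676) (nat_lit 32051260) (nat_lit 4741840) [(nat_lit 1110676), (nat_lit 3020547), (nat_lit 5784733)]) (PF.cons PF.nil PF.nil)))))))) (PF.cons (PF.cons (PF.leaf (nat_lit 10490736) (nat_lit 3092373) (nat_lit 34748839) (nat_lit 4898483) [(nat_lit 0), (nat_lit 3092373), (nat_lit 5999811)]) (PF.cons (PF.leaf (nat_lit 10999365) (nat_lit 1111671) (nat_lit 33920889) (nat_lit 4851617) [(nat_lit 1111671), (nat_lit 3070742), (nat_lit 5935461)]) (PF.cons (PF.leaf (nat_lit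 11503614) (nat_lit 1109264) (nat_lit 33113323) (nat_lit 4802719) [(nat_lit 1109264), (nat_lit 3047196), (nat_lit 5869127)]) (PF.cons (PF.leaf (nat_lit 12002273) (nat_lit 1105653) (nat_lit 32327254) (nat_lit
 4752142) [(nat_lit 1105653), (nat_lit 3022006), (nat_lit 5801211)]) (PF.cons (PF.leaf (nat_lit 12494460) (nat_lit 1101001) (nat_lit 31563356) (nat_lit 4700205) [(nat_lit 1101001), (nat_lit 2995417), (nat_lit 5732078)]) (PF.cons PF.nil PF.nil)))))) (PF.cons (PF.cons (PF.leaf (nat_lit 11458656) (nat_lit 3021907) (nat_lit 32586289) (nat_lit 4760430) [(nat_lit 0), (nat_lit 3021907), (nat_lit 5815325)]) (PF.cons (PF.leaf (nat_lit 11948401) (nat_lit 1095768) (nat_lit 31825939) (nat_lit 4710227) [(nat_lit 1095768), (nat_lit 2996783), (nat_lit 5748087)]) (PF.cons (PF.leaf (nat_lit 12432532) (nat_lit 1091245) (nat_lit 31086111) (nat_lit 4658754) [(nat_lit 1091245), (nat_lit 2970336), (nat_lit 5679720)]) (PF.cons PF.nil PF.nil)))) (PF.cons (PF.cons (PF.leaf (nat_lit 12372918)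 (nat_lit 2945303) (nat_lit 30618908) (nat_lit 4617483) [(nat_lit 0), (nat_lit 2945303), (nat_lit 5627649)]) (PF.cons (PF.leaf (nat_lit 12843100) (nat_lit 1076148) (nat_lit 29922320) (nat_lit 4565622) [(nat_lit 1076148), (nat_lit 2917995), (nat_lit 5559377)]) PF.nil)) (PF.cons PF.nil (PF.cons PF.nil (PF.cons PF.nil PF.nil))))))))))) (PF.cons (PF.cons (PF.cons (PF.leaf (nat_lit 6723247) (nat_lit 5177976) (nat_lit
 42658825) (nat_lit 5177976) [(nat_lit 0), (nat_lit 0), (nat_lit 6424003)]) (PF.cons (PF.leaf (nat_lit 7248823) (nat_lit 1086683) (nat_lit 41678470) (nat_lit 5163554) [(nat_lit 1086683), (nat_lit 0), (nat_lit 6393368)]) (PF.cons (PF.leaf (nat_lit 7784993) (nat_lit 1100573) (nat_lit 40695611) (nat_lit 5143200) [(nat_lit 1100573), (nat_lit 0), (nat_lit 6356284)]) (PF.cons (PF.leaf (nat_lit 8327300) (nat_lit 1111084) (nat_lit 39718257) (nat_lit 5117370) [(nat_lit 1111084), (nat_lit 0), (nat_lit 6313310)]) (PF.cons (PF.leaf (nat_lit 8872312) (nat_lit 1118693) (nat_lit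 38752306) (nat_lit 5086574) [(nat_lit 1118693), (nat_lit 0), (nat_lit 6265052)]) (PF.cons (PF.leaf (nat_lit 9417292) (nat_lit 1123789) (nat_lit 37802133) (nat_lit 5051347) [(nat_lit 1123789), (nat_lit 0), (nat_lit 6212128)]) (PF.cons (PF.leaf (nat_lit 9960044) (nat_lit 1126698) (nat_lit 36870977) (nat_lit 5012215) [(nat_lit 1126698), (nat_lit 0), (nat_lit 6155143)]) (PF.cons (PF.leaf (nat_lit 10498793) (nat_lit 1127699) (nat_lit 35961196) (nat_lit 4969685) [(nat_lit 1127699), (nat_lit 0), (nat_lit 6094677)]) (PF.cons (PF.leaf (nat_lit 11032121) (nat_lit 1127035) (nat_lit 35074463) (nat_lit 4924239) [(nat_lit 1127035),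
 (nat_lit 0), (nat_lit 6031274)]) (PF.cons (PF.leaf (nat_lit 11558893) (nat_lit 1124919) (nat_lit 34211908) (nat_lit 4876319) [(nat_lit 1124919), (nat_lit 0), (nat_lit 5965436)]) (PF.cons (PF.leaf (nat_lit 12078204) (nat_lit 1121537) (nat_lit 33374233) (nat_lit 4826337) [(nat_lit 1121537), (nat_lit 0), (nat_lit 5897622)]) (PF.cons PF.nil (PF.cons PF.nil (PF.cons PF.nil PF.nil)))))))))))))) (PF.cons (PF.cons (PF.leaf (nat_lit 7822639) (nat_lit 3165133) (nat_lit 39914322) (nat_lit 5107280) [(nat_lit 0), (nat_lit 3165133), (nat_lit 6307359)]) (PF.cons (PF.leaf (nat_lit 8348666) (nat_lit 1102104) (nat_lit 38977971) (nat_lit 5079708) [(nat_lit 1102104), (nat_lit 3160600), (nat_lit 6262809)]) (PF.cons (PF.leaf (nat_lit 8879144) (nat_lit 1109622) (nat_lit 38049806) (nat_lit 5047550) [(nat_lit 1109622), (nat_lit 3152126), (nat_lit 6213361)]) (PF.cons (PF.leaf (nat_lit 9410944) (nat_lit 1114613) (nat_lit 37134789) (nat_lit 5011293) [(nat_lit 1114613), (nat_lit 3140099), (nat_lit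 6159596)]) (PF.cons (PF.leaf (nat_lit 9941666) (nat_lit 1117426) (nat_lit 36236535) (nat_lit 4971424) [(nat_lit 1117426), (nat_lit 3124904), (nat_lit 6102080)]) (PF.cons (PF.leaf (nat_lit 10469383) (nat_lit 1118350)
 (nat_lit 35357665) (nat_lit 4928414) [(nat_lit 1118350), (nat_lit 3106912), (nat_lit 6041355)]) (PF.cons (PF.leaf (nat_lit 10992566) (nat_lit 1117633) (nat_lit 34500040) (nat_lit 4882709) [(nat_lit 1117633), (nat_lit 3086470), (nat_lit 5977929)]) (PF.cons (PF.leaf (nat_lit 11509994) (nat_lit 1115490) (nat_lit 33664937) (nat_lit 4834722) [(nat_lit 1115490), (nat_lit 3063902), (nat_lit 5912272)]) (PF.cons (PF.leaf (nat_lit 12020705) (nat_lit 1112107) (nat_lit 32853173) (nat_lit 4784836) [(nat_lit 1112107), (nat_lit 3039504), (nat_lit 5844814)]) (PF.cons (PF.leaf (nat_lit 12523938) (nat_lit 1107647) (nat_lit 32065208) (nat_lit 4733397) [(nat_lit 1107647), (nat_lit 3013547), (nat_lit 5775943)]) (PF.cons PF.nil (PF.cons PF.nil PF.nil)))))))))))) (PF.cons (PF.cons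 (PF.leaf (nat_lit 8888362) (nat_lit 3129654) (nat_lit 37360009) (nat_lit 5007573) [(nat_lit 0), (nat_lit 3129654), (nat_lit 6160640)]) (PF.cons (PF.leaf (nat_lit 9406469) (nat_lit 1104964) (nat_lit 36480558) (nat_lit 4970553) [(nat_lit 1104964), (nat_lit 3116836), (nat_lit 6106354)]) (PF.cons (PF.leaf (nat_lit 9924898) (nat_lit 1107791) (nat_lit 35615267) (nat_lit 4930168) [(nat_lit 1107791), (nat_lit 3101043), (nat_lit
 6048569)]) (PF.cons (PF.leaf (nat_lit 10441447) (nat_lit 1108724) (nat_lit 34767140) (nat_lit 4886861) [(nat_lit 1108724), (nat_lit 3082619), (nat_lit 5987799)]) (PF.cons (PF.leaf (nat_lit 10954431) (nat_lit 1108023) (nat_lit 33938309) (nat_lit 4841047) [(nat_lit 1108023), (nat_lit 3061890), (nat_lit 5924526)]) (PF.cons (PF.leaf (nat_lit 11462513) (nat_lit 1105908) (nat_lit 33130248) (nat_lit 4793117) [(nat_lit 1105908), (nat_lit 3039161), (nat_lit 5859193)]) (PF.cons (PF.leaf (nat_lit 11964655) (nat_lit 1102569) (nat_lit 32343930) (nat_lit 4743428)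 [(nat_lit 1102569), (nat_lit 3014710), (nat_lit 5792205)]) (PF.cons (PF.leaf (nat_lit 12460009) (nat_lit 1098170) (nat_lit 31579937) (nat_lit 4692307) [(nat_lit 1098170), (nat_lit 2988792), (nat_lit 5723928)]) (PF.cons PF.nil (PF.cons PF.nil PF.nil)))))))))) (PF.cons (PF.cons (PF.leaf (nat_lit 9910493) (nat_lit 3076794) (nat_lit 35006068) (nat_lit 4888473) [(nat_lit 0), (nat_lit 3076794), (nat_lit 5994628)]) (PF.cons (PF.leaf (nat_lit 10415526) (nat_lit 1098803) (nat_lit 34188696) (nat_lit 4845047) [(nat_lit 1098803), (nat_lit 3058060), (nat_lit 5934027)]) (PF.cons (PF.leaf (nat_lit 10918150) (nat_lit 1098194) (nat_lit 33388473)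
 (nat_lit 4799272) [(nat_lit 1098194), (nat_lit 3037146), (nat_lit 5871079)]) (PF.cons (PF.leaf (nat_lit 11416812) (nat_lit 1096167) (nat_lit 32607143) (nat_lit 4751519) [(nat_lit 1096167), (nat_lit 3014339), (nat_lit 5806209)]) (PF.cons (PF.leaf (nat_lit 11910345) (nat_lit 1092919) (nat_lit 31845880) (nat_lit 4702125) [(nat_lit 1092919), (nat_lit 2989904), (nat_lit 5739804)]) (PF.cons (PF.leaf (nat_lit 12397828) (nat_lit 1088619) (nat_lit 31105424) (nat_lit 4651400) [(nat_lit 1088619), (nat_lit 2964083), (nat_lit 5672212)]) (PF.cons PF.nil (PF.cons PF.nil PF.nil)))))))) (PF.cons (PF.cons (PF.leaf (nat_lit 10884282) (nat_lit 3012246) (nat_lit 32849666) (nat_lit 4757390) [(nat_lit 0), (nat_lit 3012246), (nat_lit 5817589)]) (PF.cons (PF.leaf (nat_lit 11373268) (nat_lit 1086251) (nat_lit 32094881) (nat_lit 4709932) [(nat_lit 1086251), (nat_lit 2989444), (nat_lit 5753322)]) (PF.cons (PF.leaf (nat_lit 11858088) (nat_lit 1083147) (nat_lit 31358379) (nat_lit 4660930) [(nat_lit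 1083147), (nat_lit 2965093), (nat_lit 5687611)]) (PF.cons (PF.leaf (nat_lit 12337642) (nat_lit 1078986) (nat_lit 30641098) (nat_lit 4610679) [(nat_lit 1078986), (nat_lit 2939424), (nat_lit 5620791)]) (PF.cons PF.nil
 (PF.cons PF.nil PF.nil)))))) (PF.cons (PF.cons (PF.leaf (nat_lit 11808303) (nat_lit 2940277) (nat_lit 30880741) (nat_lit 4619838) [(nat_lit 0), (nat_lit 2940277), (nat_lit 5635614)]) (PF.cons (PF.leaf (nat_lit 12279729) (nat_lit 1069260) (nat_lit 30186362) (nat_lit 4570138) [(nat_lit 1069260), (nat_lit 2914816), (nat_lit 5569656)]) (PF.cons (PF.leaf (nat_lit 12745899) (nat_lit 1064369) (nat_lit 29510275) (nat_lit 4519511) [(nat_lit 1064369), (nat_lit 2888294), (nat_lit 5502938)]) (PF.cons PF.nil PF.nil)))) (PF.cons (PF.cons (PF.leaf (nat_lit 12683191) (nat_lit 2864031) (nat_lit 29085665) (nat_lit 4479807) [(nat_lit 0), (nat_lit 2864031), (nat_lit 5453050)]) (PF.cons PF.nil PF.nil)) (PF.cons PF.nil (PF.cons PF.nil (PF.cons PF.nil PF.nil)))))))))) (PF.cons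 (PF.cons (PF.cons (PF.leaf (nat_lit 8327925) (nat_lit 4984009) (nat_lit 37561568) (nat_lit 4984009) [(nat_lit 0), (nat_lit 0), (nat_lit 6140808)]) (PF.cons (PF.leaf (nat_lit 8834746) (nat_lit 1084618) (nat_lit 36706603) (nat_lit 4951543) [(nat_lit 1084618), (nat_lit 0), (nat_lit 6091511)]) (PF.cons (PF.leaf (nat_lit 9345240) (nat_lit 1090192) (nat_lit 35859825) (nat_lit 4915362) [(nat_lit 1090192), (nat_lit 0), (nat_lit 6038309)])
 (PF.cons (PF.leaf (nat_lit 9856561) (nat_lit 1093497) (nat_lit 35025501) (nat_lit 4875909) [(nat_lit 1093497), (nat_lit 0), (nat_lit 5981727)]) (PF.cons (PF.leaf (nat_lit 10366536) (nat_lit 1094865) (nat_lit 34206703) (nat_lit 4833614) [(nat_lit 1094865), (nat_lit 0), (nat_lit 5922258)]) (PF.cons (PF.leaf (nat_lit 10873453) (nat_lit 1094567) (nat_lit 33405628) (nat_lit 4788878) [(nat_lit 1094567), (nat_lit 0), (nat_lit 5860366)]) (PF.cons (PF.leaf (nat_lit 11375953) (nat_lit 1092834) (nat_lit 32623818) (nat_lit 4742078) [(nat_lit 1092834),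 (nat_lit 0), (nat_lit 5796477)]) (PF.cons (PF.leaf (nat_lit 11872948) (nat_lit 1089859) (nat_lit 31862313) (nat_lit 4693559) [(nat_lit 1089859), (nat_lit 0), (nat_lit 5730980)]) (PF.cons (PF.leaf (nat_lit 12363607) (nat_lit 1085812) (nat_lit 31121764) (nat_lit 4643636) [(nat_lit 1085812), (nat_lit 0), (nat_lit 5664227)]) (PF.cons PF.nil PF.nil)))))))))) (PF.cons (PF.cons (PF.leaf (nat_lit 9344394) (nat_lit 3057687) (nat_lit 35236453) (nat_lit 4874452) [(nat_lit 0), (nat_lit 3057687), (nat_lit 5985054)]) (PF.cons (PF.leaf (nat_lit 9843063) (nat_lit 1083490) (nat_lit 34434194) (nat_lit 4834775) [(nat_lit 1083490), (nat_lit 3042162), (nat_lit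
 5928547)]) (PF.cons (PF.leaf (nat_lit 10341757) (nat_lit 1084996) (nat_lit 33645007) (nat_lit 4792416) [(nat_lit 1084996), (nat_lit 3024164), (nat_lit 5869308)]) (PF.cons (PF.leaf (nat_lit 10838474) (nat_lit 1084814) (nat_lit 32871468) (nat_lit 4747760) [(nat_lit 1084814), (nat_lit 3003998), (nat_lit 5807785)]) (PF.cons (PF.leaf (nat_lit 11331696) (nat_lit 1083188) (nat_lit 32115384) (nat_lit 4701166) [(nat_lit 1083188), (nat_lit 2981952), (nat_lit 5744389)]) (PF.cons (PF.leaf (nat_lit 11820227) (nat_lit 1080319) (nat_lit 31377993) (nat_lit 4652961) [(nat_lit 1080319), (nat_lit 2958286), (nat_lit 5679492)]) (PF.cons (PF.leaf (nat_lit 12303133) (nat_lit 1076382) (nat_lit 30660100) (nat_lit 4603447) [(nat_lit 1076382), (nat_lit 2933240), (nat_lit 5613432)]) (PF.cons PF.nil PF.nil)))))))) (PF.cons (PF.cons (PF.leaf (nat_lit 10319785) (nat_lit 2999692) (nat_lit 33093783) (nat_lit 4750986) [(nat_lit 0), (nat_lit 2999692), (nat_lit 5816164)]) (PF.cons (PF.leaf (nat_lit 10805916)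 (nat_lit 1074821) (nat_lit 32347794) (nat_lit 4706550) [(nat_lit 1074821), (nat_lit 2979469), (nat_lit 5755176)]) (PF.cons (PF.leaf (nat_lit 11289660) (nat_lit 1073367) (nat_lit 31617281) (nat_lit 4660275)
 [(nat_lit 1073367), (nat_lit 2957449), (nat_lit 5692405)]) (PF.cons (PF.leaf (nat_lit 11769604) (nat_lit 1070656) (nat_lit 30903740) (nat_lit 4612476) [(nat_lit 1070656), (nat_lit 2933882), (nat_lit 5628215)]) (PF.cons (PF.leaf (nat_lit 12244686) (nat_lit 1066869) (nat_lit 30208170) (nat_lit 4563443) [(nat_lit 1066869), (nat_lit 2908997), (nat_lit 5562931)]) (PF.cons PF.nil PF.nil)))))) (PF.cons (PF.cons (PF.leaf (nat_lit 11250356) (nat_lit 2932879) (nat_lit 31128731) (nat_lit 4619397) [(nat_lit 0), (nat_lit 2932879), (nat_lit 5640511)]) (PF.cons (PF.leaf (nat_lit 11721421) (nat_lit 1060852) (nat_lit 30438892) (nat_lit 4572097) [(nat_lit 1060852), (nat_lit 2909475), (nat_lit 5577135)]) (PF.cons (PF.leaf (nat_lit 12188541) (nat_lit 1057259) (nat_lit 29765403) (nat_lit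 4523618) [(nat_lit 1057259), (nat_lit 2884805), (nat_lit 5512713)]) (PF.cons (PF.leaf (nat_lit 12650708) (nat_lit 1052732) (nat_lit 29109074) (nat_lit 4474212) [(nat_lit 1052732), (nat_lit 2859069), (nat_lit 5447529)]) PF.nil)))) (PF.cons (PF.cons (PF.leaf (nat_lit 12135087) (nat_lit 2860658) (nat_lit 29331188) (nat_lit 4483961) [(nat_lit 0), (nat_lit 2860658), (nat_lit 5462756)]) (PF.cons (PF.leaf (nat_lit 12589795)
 (nat_lit 1043233) (nat_lit 28695285) (nat_lit 4435218) [(nat_lit 1043233), (nat_lit 2835224), (nat_lit 5398544)]) PF.nil)) (PF.cons PF.nil (PF.cons PF.nil (PF.cons PF.nil PF.nil)))))))) (PF.cons (PF.cons (PF.cons (PF.leaf (nat_lit 9767901) (nat_lit 4740886) (nat_lit 33314472) (nat_lit 4740886) [(nat_lit 0), (nat_lit 0), (nat_lit 5810690)]) (PF.cons (PF.leaf (nat_lit 10248621) (nat_lit 1061095) (nat_lit 32581287) (nat_lit 4699782) [(nat_lit 1061095), (nat_lit 0), (nat_lit 5753329)]) (PF.cons (PF.leaf (nat_lit 10729183) (nat_lit 1061599) (nat_lit 31860013)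 (nat_lit 4656518) [(nat_lit 1061599), (nat_lit 0), (nat_lit 5693816)]) (PF.cons (PF.leaf (nat_lit 11207743) (nat_lit 1060587) (nat_lit 31152888) (nat_lit 4611435) [(nat_lit 1060587), (nat_lit 0), (nat_lit 5632545)]) (PF.cons (PF.leaf (nat_lit 11682914) (nat_lit 1058285) (nat_lit 30461472) (nat_lit 4564842) [(nat_lit 1058285), (nat_lit 0), (nat_lit 5569871)]) (PF.cons (PF.leaf (nat_lit 12153621) (nat_lit 1054883) (nat_lit 29786825) (nat_lit 4517020) [(nat_lit 1054883), (nat_lit 0), (nat_lit 5506110)]) (PF.cons PF.nil (PF.cons PF.nil PF.nil)))))))) (PF.cons (PF.cons (PF.leaf (nat_lit 10701173) (nat_lit 2922825) (nat_lit 31359897)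
 (nat_lit 4615884) [(nat_lit 0), (nat_lit 2922825), (nat_lit 5642041)]) (PF.cons (PF.leaf (nat_lit 11169951) (nat_lit 1050654) (nat_lit 30677449) (nat_lit 4571250) [(nat_lit 1050654), (nat_lit 2901726), (nat_lit 5581546)]) (PF.cons (PF.leaf (nat_lit 11636411) (nat_lit 1048583) (nat_lit 30008899) (nat_lit 4525163) [(nat_lit 1048583), (nat_lit 2879128), (nat_lit 5519691)]) (PF.cons (PF.leaf (nat_lit 12099243) (nat_lit 1045386) (nat_lit 29355552) (nat_lit 4477898) [(nat_lit 1045386), (nat_lit 2855254), (nat_lit 5456789)]) (PF.cons (PF.leaf (nat_lit 12557480) (nat_lit 1041231) (nat_lit 28718277) (nat_lit 4429702) [(nat_lit 1041231), (nat_lit 2830304), (nat_lit 5393120)]) (PF.cons PF.nil PF.nil)))))) (PF.cons (PF.cons (PF.leaf (nat_lit 11592861) (nat_lit 2855116) (nat_lit 29564598) (nat_lit 4485574) [(nat_lit 0), (nat_lit 2855116), (nat_lit 5469681)]) (PF.cons (PF.leaf (nat_lit 12047501) (nat_lit 1035772) (nat_lit 28932443) (nat_lit 4438940) [(nat_lit 1035772), (nat_lit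 2831514), (nat_lit 5407725)]) (PF.cons (PF.leaf (nat_lit 12498422) (nat_lit 1031848) (nat_lit 28314891) (nat_lit 4391402) [(nat_lit 1031848), (nat_lit 2806867), (nat_lit 5345017)]) (PF.cons PF.nil PF.nil)))) (PF.cons
 (PF.cons (PF.leaf (nat_lit 12442201) (nat_lit 2783507) (nat_lit 27918930) (nat_lit 4353305) [(nat_lit 0), (nat_lit 2783507), (nat_lit 5297211)]) (PF.cons PF.nil PF.nil)) (PF.cons PF.nil (PF.cons PF.nil PF.nil)))))) (PF.cons (PF.cons (PF.cons (PF.leaf (nat_lit 11058465) (nat_lit 4484381) (nat_lit 29783232) (nat_lit 4484381) [(nat_lit 0), (nat_lit 0), (nat_lit 5473533)]) (PF.cons (PF.leaf (nat_lit 11511258) (nat_lit 1026639) (nat_lit 29157349) (nat_lit 4440109) [(nat_lit 1026639), (nat_lit 0), (nat_lit 5414119)]) (PF.cons (PF.leaf (nat_lit 11961829) (nat_lit 1024120) (nat_lit 28543914) (nat_lit 4394679) [(nat_lit 1024120), (nat_lit 0), (nat_lit 5353663)]) (PF.cons (PF.leaf (nat_lit 12408951) (nat_lit 1020585) (nat_lit 27944083) (nat_lit 4348335) [(nat_lit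 1020585), (nat_lit 0), (nat_lit 5292439)]) (PF.cons PF.nil (PF.cons PF.nil PF.nil)))))) (PF.cons (PF.cons (PF.leaf (nat_lit 11914972) (nat_lit 2779492) (nat_lit 28138645) (nat_lit 4356542) [(nat_lit 0), (nat_lit 2779492), (nat_lit 5305688)]) (PF.cons (PF.leaf (nat_lit 12354501) (nat_lit 1011213) (nat_lit 27557797) (nat_lit 4310910) [(nat_lit 1011213), (nat_lit 2755978), (nat_lit 5245485)]) (PF.cons PF.nil (PF.cons PF.nil PF.nil))))
 (PF.cons (PF.cons (PF.leaf (nat_lit 12732249) (nat_lit 2709083) (nat_lit 26627820) (nat_lit 4228101) [(nat_lit 0), (nat_lit 2709083), (nat_lit 5139120)]) (PF.cons PF.nil PF.nil)) (PF.cons PF.nil PF.nil)))) (PF.cons (PF.cons (PF.cons (PF.leaf (nat_lit 12219309) (nat_lit 4232617) (nat_lit 26834746) (nat_lit 4232617) [(nat_lit 0), (nat_lit 0), (nat_lit 5148778)]) (PF.cons (PF.leaf (nat_lit 12644872) (nat_lit 987302) (nat_lit 26299623) (nat_lit 4188204) [(nat_lit 987302), (nat_lit 0), (nat_lit 5090526)]) PF.nil)) (PF.cons PF.nil PF.nil)) (PF.cons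 PF.nil (PF.cons PF.nil (PF.cons PF.nil (PF.cons PF.nil PF.nil))))))))))))

def p14_22_0_0 : pfC (piC [(nat_lit 30365544), (nat_lit 20402210), (nat_lit 13167684)] (nat_lit 14872204)) p14_22_0 (nat_lit 3) (nat_lit 0) (nat_lit 1) = true := by decide +kernel
def p14_22_0_1 : pfC (piC [(nat_lit 30365544), (nat_lit 20402210), (nat_lit 13167684)] (nat_lit 14872204)) p14_22_0 (nat_lit 3) (nat_lit 1) (nat_lit 2) = true := by decide +kernel
def p14_22_0_2 : pfC (piC [(nat_lit 30365544), (nat_lit 20402210), (nat_lit 13167684)] (nat_lit 14872204)) p14_22_0 (nat_lit 3) (nat_lit 2) (nat_lit 3) = true := by decide +kernel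
def p14_22_0_3 : pfC (piC [(nat_lit 30365544), (nat_lit 20402210), (nat_lit 13167684)] (nat_lit 14872204)) p14_22_0 (nat_lit 3) (nat_lit 3) (nat_lit 4) = true := by decide +kernel
def p14_22_0_4 : pfC (piC [(nat_lit 30365544), (nat_lit 20402210), (nat_lit 13167684)] (nat_lit 14872204)) p14_22_0 (nat_lit 3) (nat_lit 4) (nat_lit 5) = true := by decide +kernel
def p14_22_0_5 : pfC (piC [(nat_lit 30365544), (nat_lit 20402210), (nat_lit 13167684)] (nat_lit 14872204)) p14_22_0 (nat_lit 3) (nat_lit 5) (nat_lit 6) = true := by decide +kernel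
def p14_22_0_6 : pfC (piC [(nat_lit 30365544), (nat_lit 20402210), (nat_lit 13167684)] (nat_lit 14872204)) p14_22_0 (nat_lit 3) (nat_lit 6) (nat_lit 7) = true := by decide +kernel
def p14_22_0_7 : pfC (piC [(nat_lit 30365544), (nat_lit 20402210), (nat_lit 13167684)] (nat_lit 14872204)) p14_22_0 (nat_lit 3) (nat_lit 7) (nat_lit 8) = true := by decide +kernel
def p14_22_0_8 : pfC (piC [(nat_lit 30365544), (nat_lit 20402210), (nat_lit 13167684)] (nat_lit 14872204)) p14_22_0 (nat_lit 3) (nat_lit 8) (nat_lit 9) = true := by decide +kernel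
def p14_22_0_9 : pfC (piC [(nat_lit 30365544), (nat_lit 20402210), (nat_lit 13167684)] (nat_lit 14872204)) p14_22_0 (nat_lit 3) (nat_lit 9) (nat_lit 10) = true := by decide +kernel
def p14_22_0_10 : pfC (piC [(nat_lit 30365544), (nat_lit 20402210), (nat_lit 13167684)] (nat_lit 14872204)) p14_22_0 (nat_lit 3) (nat_lit 10) (nat_lit 11) = true := by decide +kernel
def p14_22_0_11 : pfC (piC [(nat_lit 30365544), (nat_lit 20402210), (nat_lit 13167684)] (nat_lit 14872204)) p14_22_0 (nat_lit 3) (nat_lit 11) (nat_lit 12) = true := by decide +kernel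
def p14_22_0_12 : pfC (piC [(nat_lit 30365544), (nat_lit 20402210), (nat_lit 13167684)] (nat_lit 14872204)) p14_22_0 (nat_lit 3) (nat_lit 12) (nat_lit 13) = true := by decide +kernel
def p14_22_0_13 : pfC (piC [(nat_lit 30365544), (nat_lit 20402210), (nat_lit 13167684)] (nat_lit 14872204)) p14_22_0 (nat_lit 3) (nat_lit 13) (nat_lit 14) = true := by decide +kernel
def p14_22_0_14 : pfC (piC [(nat_lit 30365544), (nat_lit 20402210), (nat_lit 13167684)] (nat_lit 14872204)) p14_22_0 (nat_lit 3) (nat_lit 14) (nat_lit 15) = true := by decide +kernel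
def p14_22_0_15 : pfC (piC [(nat_lit 30365544), (nat_lit 20402210), (nat_lit 13167684)] (nat_lit 14872204)) p14_22_0 (nat_lit 3) (nat_lit 15) (nat_lit 16) = true := by decide +kernel
def p14_22_0_16 : pfC (piC [(nat_lit 30365544), (nat_lit 20402210), (nat_lit 13167684)] (nat_lit 14872204)) p14_22_0 (nat_lit 3) (nat_lit 16) (nat_lit 17) = true := by decide +kernel
def p14_22_0_17 : pfC (piC [(nat_lit 30365544), (nat_lit 20402210), (nat_lit 13167684)] (nat_lit 14872204)) p14_22_0 (nat_lit 3) (nat_lit 17) (nat_lit 18) = true := by decide +kernel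
def p14_22_0_18 : pfC (piC [(nat_lit 30365544), (nat_lit 20402210), (nat_lit 13167684)] (nat_lit 14872204)) p14_22_0 (nat_lit 3) (nat_lit 18) (nat_lit 19) = true := by decide +kernel
def p14_22_0_19 : pfC (piC [(nat_lit 30365544), (nat_lit 20402210), (nat_lit 13167684)] (nat_lit 14872204)) p14_22_0 (nat_lit 3) (nat_lit 19) (nat_lit 20) = true := by decide +kernel
def p14_22_0_20 : pfC (piC [(nat_lit 30365544), (nat_lit 20402210), (nat_lit 13167684)] (nat_lit 14872204)) p14_22_0 (nat_lit 3) (nat_lit 20) (nat_lit 21) = true := by decide +kernel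
def p14_22_0_21 : pfC (piC [(nat_lit 30365544), (nat_lit 20402210), (nat_lit 13167684)] (nat_lit 14872204)) p14_22_0 (nat_lit 3) (nat_lit 21) (nat_lit 22) = true := by decide +kernel
def p14_22_0_22 : pfC (piC [(nat_lit 30365544), (nat_lit 20402210), (nat_lit 13167684)] (nat_lit 14872204)) p14_22_0 (nat_lit 3) (nat_lit 22) (nat_lit 23) = true := by decide +kernel
def p14_22_0_23 : pfC (piC [(nat_lit 30365544), (nat_lit 20402210), (nat_lit 13167684)] (nat_lit 14872204)) p14_22_0 (nat_lit 3) (nat_lit 23) (nat_lit 24) = true := by decide +kernel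
def p14_22_0_24 : pfC (piC [(nat_lit 30365544), (nat_lit 20402210), (nat_lit 13167684)] (nat_lit 14872204)) p14_22_0 (nat_lit 3) (nat_lit 24) (nat_lit 25) = true := by decide +kernel
def p14_22_0_25 : pfC (piC [(nat_lit 30365544), (nat_lit 20402210), (nat_lit 13167684)] (nat_lit 14872204)) p14_22_0 (nat_lit 3) (nat_lit 25) (nat_lit 26) = true := by decide +kernel
def p14_22_0_26 : pfC (piC [(nat_lit 30365544), (nat_lit 20402210), (nat_lit 13167684)] (nat_lit 14872204)) p14_22_0 (nat_lit 3) (nat_lit 26) (nat_lit 27) = true := by decide +kernel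
def p14_22_0_27 : pfC (piC [(nat_lit 30365544), (nat_lit 20402210), (nat_lit 13167684)] (nat_lit 14872204)) p14_22_0 (nat_lit 3) (nat_lit 27) (nat_lit 28) = true := by decide +kernel
def p14_22_0_28 : pfC (piC [(nat_lit 30365544), (nat_lit 20402210), (nat_lit 13167684)] (nat_lit 14872204)) p14_22_0 (nat_lit 3) (nat_lit 28) (nat_lit 29) = true := by decide +kernel
def p14_22_0_29 : pfC (piC [(nat_lit 30365544), (nat_lit 20402210), (nat_lit 13167684)] (nat_lit 14872204)) p14_22_0 (nat_lit 3) (nat_lit 29) (nat_lit 30) = true := by decide +kernel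
def p14_22_0_30 : pfC (piC [(nat_lit 30365544), (nat_lit 20402210), (nat_lit 13167684)] (nat_lit 14872204)) p14_22_0 (nat_lit 3) (nat_lit 30) (nat_lit 31) = true := by decide +kernel
def p14_22_0_31 : pfC (piC [(nat_lit 30365544), (nat_lit 20402210), (nat_lit 13167684)] (nat_lit 14872204)) p14_22_0 (nat_lit 3) (nat_lit 31) (nat_lit 32) = true := by decide +kernel
def p14_22_0_32 : pfC (piC [(nat_lit 30365544), (nat_lit 20402210), (nat_lit 13167684)] (nat_lit 14872204)) p14_22_0 (nat_lit 3) (nat_lit 32) (nat_lit 33) = true := by decide +kernel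
def p14_22_0_33 : pfC (piC [(nat_lit 30365544), (nat_lit 20402210), (nat_lit 13167684)] (nat_lit 14872204)) p14_22_0 (nat_lit 3) (nat_lit 33) (nat_lit 34) = true := by decide +kernel
def p14_22_0_34 : pfC (piC [(nat_lit 30365544), (nat_lit 20402210), (nat_lit 13167684)] (nat_lit 14872204)) p14_22_0 (nat_lit 3) (nat_lit 34) (nat_lit 35) = true := by decide +kernel
def p14_22_0_35 : pfC (piC [(nat_lit 30365544), (nat_lit 20402210), (nat_lit 13167684)] (nat_lit 14872204)) p14_22_0 (nat_lit 3) (nat_lit 35) (nat_lit 36) = true := by decide +kernel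
def p14_22_0_36 : pfC (piC [(nat_lit 30365544), (nat_lit 20402210), (nat_lit 13167684)] (nat_lit 14872204)) p14_22_0 (nat_lit 3) (nat_lit 36) (nat_lit 37) = true := by decide +kernel
def p14_22_0_37 : pfC (piC [(nat_lit 30365544), (nat_lit 20402210), (nat_lit 13167684)] (nat_lit 14872204)) p14_22_0 (nat_lit 3) (nat_lit 37) (nat_lit 38) = true := by decide +kernel
def p14_22_0_38 : pfC (piC [(nat_lit 30365544), (nat_lit 20402210), (nat_lit 13167684)] (nat_lit 14872204)) p14_22_0 (nat_lit 3) (nat_lit 38) (nat_lit 39) = true := by decide +kernel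
def p14_22_0_39 : pfC (piC [(nat_lit 30365544), (nat_lit 20402210), (nat_lit 13167684)] (nat_lit 14872204)) p14_22_0 (nat_lit 3) (nat_lit 39) (nat_lit 40) = true := by decide +kernel
def p14_22_0_40 : pfC (piC [(nat_lit 30365544), (nat_lit 20402210), (nat_lit 13167684)] (nat_lit 14872204)) p14_22_0 (nat_lit 3) (nat_lit 40) (nat_lit 41) = true := by decide +kernel
def p14_22_0_41 : pfC (piC [(nat_lit 30365544), (nat_lit 20402210), (nat_lit 13167684)] (nat_lit 14872204)) p14_22_0 (nat_lit 3) (nat_lit 41) (nat_lit 42) = true := by decide +kernel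
def p14_22_0_42 : pfC (piC [(nat_lit 30365544), (nat_lit 20402210), (nat_lit 13167684)] (nat_lit 14872204)) p14_22_0 (nat_lit 3) (nat_lit 42) (nat_lit 43) = true := by decide +kernel
def p14_22_0_43 : pfC (piC [(nat_lit 30365544), (nat_lit 20402210), (nat_lit 13167684)] (nat_lit 14872204)) p14_22_0 (nat_lit 3) (nat_lit 43) (nat_lit 44) = true := by decide +kernel
def p14_22_0_44 : pfC (piC [(nat_lit 30365544), (nat_lit 20402210), (nat_lit 13167684)] (nat_lit 14872204)) p14_22_0 (nat_lit 3) (nat_lit 44) (nat_lit 45) = true := by decide +kernel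
def p14_22_0_45 : pfC (piC [(nat_lit 30365544), (nat_lit 20402210), (nat_lit 13167684)] (nat_lit 14872204)) p14_22_0 (nat_lit 3) (nat_lit 45) (nat_lit 46) = true := by decide +kernel
def p14_22_0_46 : pfC (piC [(nat_lit 30365544), (nat_lit 20402210), (nat_lit 13167684)] (nat_lit 14872204)) p14_22_0 (nat_lit 3) (nat_lit 46) (nat_lit 47) = true := by decide +kernel
def p14_22_0_47 : pfC (piC [(nat_lit 30365544), (nat_lit 20402210), (nat_lit 13167684)] (nat_lit 14872204)) p14_22_0 (nat_lit 3) (nat_lit 47) (nat_lit 48) = true := by decide +kernel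
def p14_22_0_48 : pfC (piC [(nat_lit 30365544), (nat_lit 20402210), (nat_lit 13167684)] (nat_lit 14872204)) p14_22_0 (nat_lit 3) (nat_lit 48) (nat_lit 49) = true := by decide +kernel
def p14_22_0_49 : pfC (piC [(nat_lit 30365544), (nat_lit 20402210), (nat_lit 13167684)] (nat_lit 14872204)) p14_22_0 (nat_lit 3) (nat_lit 49) (nat_lit 50) = true := by decide +kernel
def p14_22_0_50 : pfC (piC [(nat_lit 30365544), (nat_lit 20402210), (nat_lit 13167684)] (nat_lit 14872204)) p14_22_0 (nat_lit 3) (nat_lit 50) (nat_lit 51) = true := by decide +kernel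
def p14_22_0_51 : pfC (piC [(nat_lit 30365544), (nat_lit 20402210), (nat_lit 13167684)] (nat_lit 14872204)) p14_22_0 (nat_lit 3) (nat_lit 51) (nat_lit 52) = true := by decide +kernel
def p14_22_0_52 : pfC (piC [(nat_lit 30365544), (nat_lit 20402210), (nat_lit 13167684)] (nat_lit 14872204)) p14_22_0 (nat_lit 3) (nat_lit 52) (nat_lit 53) = true := by decide +kernel
def p14_22_0_53 : pfC (piC [(nat_lit 30365544), (nat_lit 20402210), (nat_lit 13167684)] (nat_lit 14872204)) p14_22_0 (nat_lit 3) (nat_lit 53) (nat_lit 54) = true := by decide +kernel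
def p14_22_0_54 : pfC (piC [(nat_lit 30365544), (nat_lit 20402210), (nat_lit 13167684)] (nat_lit 14872204)) p14_22_0 (nat_lit 3) (nat_lit 54) (nat_lit 55) = true := by decide +kernel
def p14_22_0_55 : pfC (piC [(nat_lit 30365544), (nat_lit 20402210), (nat_lit 13167684)] (nat_lit 14872204)) p14_22_0 (nat_lit 3) (nat_lit 55) (nat_lit 56) = true := by decide +kernel
def p14_22_0_56 : pfC (piC [(nat_lit 30365544), (nat_lit 20402210), (nat_lit 13167684)] (nat_lit 14872204)) p14_22_0 (nat_lit 3) (nat_lit 56) (nat_lit 57) = true := by decide +kernel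
def p14_22_0_57 : pfC (piC [(nat_lit 30365544), (nat_lit 20402210), (nat_lit 13167684)] (nat_lit 14872204)) p14_22_0 (nat_lit 3) (nat_lit 57) (nat_lit 58) = true := by decide +kernel
def p14_22_0_58 : pfC (piC [(nat_lit 30365544), (nat_lit 20402210), (nat_lit 13167684)] (nat_lit 14872204)) p14_22_0 (nat_lit 3) (nat_lit 58) (nat_lit 59) = true := by decide +kernel
def p14_22_0_59 : pfC (piC [(nat_lit 30365544), (nat_lit 20402210), (nat_lit 13167684)] (nat_lit 14872204)) p14_22_0 (nat_lit 3) (nat_lit 59) (nat_lit 60) = true := by decide +kernel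
def p14_22_0_60 : pfC (piC [(nat_lit 30365544), (nat_lit 20402210), (nat_lit 13167684)] (nat_lit 14872204)) p14_22_0 (nat_lit 3) (nat_lit 60) (nat_lit 61) = true := by decide +kernel
def p14_22_0_61 : pfC (piC [(nat_lit 30365544), (nat_lit 20402210), (nat_lit 13167684)] (nat_lit 14872204)) p14_22_0 (nat_lit 3) (nat_lit 61) (nat_lit 62) = true := by decide +kernel
def p14_22_0_62 : pfC (piC [(nat_lit 30365544), (nat_lit 20402210), (nat_lit 13167684)] (nat_lit 14872204)) p14_22_0 (nat_lit 3) (nat_lit 62) (nat_lit 63) = true := by decide +kernel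
def p14_22_0_63 : pfC (piC [(nat_lit 30365544), (nat_lit 20402210), (nat_lit 13167684)] (nat_lit 14872204)) p14_22_0 (nat_lit 3) (nat_lit 63) (nat_lit 64) = true := by decide +kernel
def p14_22_0_64 : pfC (piC [(nat_lit 30365544), (nat_lit 20402210), (nat_lit 13167684)] (nat_lit 14872204)) p14_22_0 (nat_lit 3) (nat_lit 64) (nat_lit 65) = true := by decide +kernel
def p14_22_0_65 : pfC (piC [(nat_lit 30365544), (nat_lit 20402210), (nat_lit 13167684)] (nat_lit 14872204)) p14_22_0 (nat_lit 3) (nat_lit 65) (nat_lit 66) = true := by decide +kernel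
def p14_22_0_66 : pfC (piC [(nat_lit 30365544), (nat_lit 20402210), (nat_lit 13167684)] (nat_lit 14872204)) p14_22_0 (nat_lit 3) (nat_lit 66) (nat_lit 67) = true := by decide +kernel
def p14_22_0_67 : pfC (piC [(nat_lit 30365544), (nat_lit 20402210), (nat_lit 13167684)] (nat_lit 14872204)) p14_22_0 (nat_lit 3) (nat_lit 67) (nat_lit 68) = true := by decide +kernel
def p14_22_0_68 : pfC (piC [(nat_lit 30365544), (nat_lit 20402210), (nat_lit 13167684)] (nat_lit 14872204)) p14_22_0 (nat_lit 3) (nat_lit 68) (nat_lit 69) = true := by decide +kernel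
def p14_22_0_69 : pfC (piC [(nat_lit 30365544), (nat_lit 20402210), (nat_lit 13167684)] (nat_lit 14872204)) p14_22_0 (nat_lit 3) (nat_lit 69) (nat_lit 70) = true := by decide +kernel
def p14_22_0_70 : pfC (piC [(nat_lit 30365544), (nat_lit 20402210), (nat_lit 13167684)] (nat_lit 14872204)) p14_22_0 (nat_lit 3) (nat_lit 70) (nat_lit 71) = true := by decide +kernel
def p14_22_0_71 : pfC (piC [(nat_lit 30365544), (nat_lit 20402210), (nat_lit 13167684)] (nat_lit 14872204)) p14_22_0 (nat_lit 3) (nat_lit 71) (nat_lit 72) = true := by decide +kernel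
def p14_22_0_72 : pfC (piC [(nat_lit 30365544), (nat_lit 20402210), (nat_lit 13167684)] (nat_lit 14872204)) p14_22_0 (nat_lit 3) (nat_lit 72) (nat_lit 73) = true := by decide +kernel
def p14_22_0_73 : pfC (piC [(nat_lit 30365544), (nat_lit 20402210), (nat_lit 13167684)] (nat_lit 14872204)) p14_22_0 (nat_lit 3) (nat_lit 73) (nat_lit 74) = true := by decide +kernel
def p14_22_0_74 : pfC (piC [(nat_lit 30365544), (nat_lit 20402210), (nat_lit 13167684)] (nat_lit 14872204)) p14_22_0 (nat_lit 3) (nat_lit 74) (nat_lit 75) = true := by decide +kernel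
def p14_22_0_75 : pfC (piC [(nat_lit 30365544), (nat_lit 20402210), (nat_lit 13167684)] (nat_lit 14872204)) p14_22_0 (nat_lit 3) (nat_lit 75) (nat_lit 76) = true := by decide +kernel
def p14_22_0_76 : pfC (piC [(nat_lit 30365544), (nat_lit 20402210), (nat_lit 13167684)] (nat_lit 14872204)) p14_22_0 (nat_lit 3) (nat_lit 76) (nat_lit 77) = true := by decide +kernel
def p14_22_0_77 : pfC (piC [(nat_lit 30365544), (nat_lit 20402210), (nat_lit 13167684)] (nat_lit 14872204)) p14_22_0 (nat_lit 3) (nat_lit 77) (nat_lit 78) = true := by decide +kernel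
def p14_22_0_78 : pfC (piC [(nat_lit 30365544), (nat_lit 20402210), (nat_lit 13167684)] (nat_lit 14872204)) p14_22_0 (nat_lit 3) (nat_lit 78) (nat_lit 79) = true := by decide +kernel
def p14_22_0_79 : pfC (piC [(nat_lit 30365544), (nat_lit 20402210), (nat_lit 13167684)] (nat_lit 14872204)) p14_22_0 (nat_lit 3) (nat_lit 79) (nat_lit 80) = true := by decide +kernel
def p14_22_0_80 : pfC (piC [(nat_lit 30365544), (nat_lit 20402210), (nat_lit 13167684)] (nat_lit 14872204)) p14_22_0 (nat_lit 3) (nat_lit 80) (nat_lit 81) = true := by decide +kernel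
def p14_22_0_81 : pfC (piC [(nat_lit 30365544), (nat_lit 20402210), (nat_lit 13167684)] (nat_lit 14872204)) p14_22_0 (nat_lit 3) (nat_lit 81) (nat_lit 82) = true := by decide +kernel
def p14_22_0_82 : pfC (piC [(nat_lit 30365544), (nat_lit 20402210), (nat_lit 13167684)] (nat_lit 14872204)) p14_22_0 (nat_lit 3) (nat_lit 82) (nat_lit 83) = true := by decide +kernel
def p14_22_0_83 : pfC (piC [(nat_lit 30365544), (nat_lit 20402210), (nat_lit 13167684)] (nat_lit 14872204)) p14_22_0 (nat_lit 3) (nat_lit 83) (nat_lit 84) = true := by decide +kernel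
def p14_22_0_84 : pfC (piC [(nat_lit 30365544), (nat_lit 20402210), (nat_lit 13167684)] (nat_lit 14872204)) p14_22_0 (nat_lit 3) (nat_lit 84) (nat_lit 85) = true := by decide +kernel
def p14_22_0_85 : pfC (piC [(nat_lit 30365544), (nat_lit 20402210), (nat_lit 13167684)] (nat_lit 14872204)) p14_22_0 (nat_lit 3) (nat_lit 85) (nat_lit 86) = true := by decide +kernel
def p14_22_0_86 : pfC (piC [(nat_lit 30365544), (nat_lit 20402210), (nat_lit 13167684)] (nat_lit 14872204)) p14_22_0 (nat_lit 3) (nat_lit 86) (nat_lit 87) = true := by decide +kernel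
def p14_22_0_87 : pfC (piC [(nat_lit 30365544), (nat_lit 20402210), (nat_lit 13167684)] (nat_lit 14872204)) p14_22_0 (nat_lit 3) (nat_lit 87) (nat_lit 88) = true := by decide +kernel
def p14_22_0_88 : pfC (piC [(nat_lit 30365544), (nat_lit 20402210), (nat_lit 13167684)] (nat_lit 14872204)) p14_22_0 (nat_lit 3) (nat_lit 88) (nat_lit 89) = true := by decide +kernel
def p14_22_0_89 : pfC (piC [(nat_lit 30365544), (nat_lit 20402210), (nat_lit 13167684)] (nat_lit 14872204)) p14_22_0 (nat_lit 3) (nat_lit 89) (nat_lit 90) = true := by decide +kernel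
def p14_22_0_90 : pfC (piC [(nat_lit 30365544), (nat_lit 20402210), (nat_lit 13167684)] (nat_lit 14872204)) p14_22_0 (nat_lit 3) (nat_lit 90) (nat_lit 91) = true := by decide +kernel
def p14_22_0_91 : pfC (piC [(nat_lit 30365544), (nat_lit 20402210), (nat_lit 13167684)] (nat_lit 14872204)) p14_22_0 (nat_lit 3) (nat_lit 91) (nat_lit 92) = true := by decide +kernel
def p14_22_0_92 : pfC (piC [(nat_lit 30365544), (nat_lit 20402210), (nat_lit 13167684)] (nat_lit 14872204)) p14_22_0 (nat_lit 3) (nat_lit 92) (nat_lit 93) = true := by decide +kernel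
def p14_22_0_93 : pfC (piC [(nat_lit 30365544), (nat_lit 20402210), (nat_lit 13167684)] (nat_lit 14872204)) p14_22_0 (nat_lit 3) (nat_lit 93) (nat_lit 94) = true := by decide +kernel
def p14_22_0_94 : pfC (piC [(nat_lit 30365544), (nat_lit 20402210), (nat_lit 13167684)] (nat_lit 14872204)) p14_22_0 (nat_lit 3) (nat_lit 94) (nat_lit 95) = true := by decide +kernel
def p14_22_0_95 : pfC (piC [(nat_lit 30365544), (nat_lit 20402210), (nat_lit 13167684)] (nat_lit 14872204)) p14_22_0 (nat_lit 3) (nat_lit 95) (nat_lit 96) = true := by decide +kernel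
def p14_22_0_96 : pfC (piC [(nat_lit 30365544), (nat_lit 20402210), (nat_lit 13167684)] (nat_lit 14872204)) p14_22_0 (nat_lit 3) (nat_lit 96) (nat_lit 97) = true := by decide +kernel
def p14_22_0_97 : pfC (piC [(nat_lit 30365544), (nat_lit 20402210), (nat_lit 13167684)] (nat_lit 14872204)) p14_22_0 (nat_lit 3) (nat_lit 97) (nat_lit 98) = true := by decide +kernel
def p14_22_0_98 : pfC (piC [(nat_lit 30365544), (nat_lit 20402210), (nat_lit 13167684)] (nat_lit 14872204)) p14_22_0 (nat_lit 3) (nat_lit 98) (nat_lit 99) = true := by decide +kernel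
def p14_22_0_99 : pfC (piC [(nat_lit 30365544), (nat_lit 20402210), (nat_lit 13167684)] (nat_lit 14872204)) p14_22_0 (nat_lit 3) (nat_lit 99) (nat_lit 100) = true := by decide +kernel
def p14_22_0_100 : pfC (piC [(nat_lit 30365544), (nat_lit 20402210), (nat_lit 13167684)] (nat_lit 14872204)) p14_22_0 (nat_lit 3) (nat_lit 100) (nat_lit 101) = true := by decide +kernel
def p14_22_0_101 : pfC (piC [(nat_lit 30365544), (nat_lit 20402210), (nat_lit 13167684)] (nat_lit 14872204)) p14_22_0 (nat_lit 3) (nat_lit 101) (nat_lit 102) = true := by decide +kernel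
def p14_22_0_102 : pfC (piC [(nat_lit 30365544), (nat_lit 20402210), (nat_lit 13167684)] (nat_lit 14872204)) p14_22_0 (nat_lit 3) (nat_lit 102) (nat_lit 103) = true := by decide +kernel
def p14_22_0_103 : pfC (piC [(nat_lit 30365544), (nat_lit 20402210), (nat_lit 13167684)] (nat_lit 14872204)) p14_22_0 (nat_lit 3) (nat_lit 103) (nat_lit 104) = true := by decide +kernel
def p14_22_0_104 : pfC (piC [(nat_lit 30365544), (nat_lit 20402210), (nat_lit 13167684)] (nat_lit 14872204)) p14_22_0 (nat_lit 3) (nat_lit 104) (nat_lit 105) = true := by decide +kernel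
def p14_22_0_105 : pfC (piC [(nat_lit 30365544), (nat_lit 20402210), (nat_lit 13167684)] (nat_lit 14872204)) p14_22_0 (nat_lit 3) (nat_lit 105) (nat_lit 106) = true := by decide +kernel
def p14_22_0_106 : pfC (piC [(nat_lit 30365544), (nat_lit 20402210), (nat_lit 13167684)] (nat_lit 14872204)) p14_22_0 (nat_lit 3) (nat_lit 106) (nat_lit 107) = true := by decide +kernel
def p14_22_0_107 : pfC (piC [(nat_lit 30365544), (nat_lit 20402210), (nat_lit 13167684)] (nat_lit 14872204)) p14_22_0 (nat_lit 3) (nat_lit 107) (nat_lit 108) = true := by decide +kernel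
def p14_22_0_108 : pfC (piC [(nat_lit 30365544), (nat_lit 20402210), (nat_lit 13167684)] (nat_lit 14872204)) p14_22_0 (nat_lit 3) (nat_lit 108) (nat_lit 109) = true := by decide +kernel
def p14_22_0_109 : pfC (piC [(nat_lit 30365544), (nat_lit 20402210), (nat_lit 13167684)] (nat_lit 14872204)) p14_22_0 (nat_lit 3) (nat_lit 109) (nat_lit 110) = true := by decide +kernel
def p14_22_0_110 : pfC (piC [(nat_lit 30365544), (nat_lit 20402210), (nat_lit 13167684)] (nat_lit 14872204)) p14_22_0 (nat_lit 3) (nat_lit 110) (nat_lit 111) = true := by decide +kernel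
def p14_22_0_111 : pfC (piC [(nat_lit 30365544), (nat_lit 20402210), (nat_lit 13167684)] (nat_lit 14872204)) p14_22_0 (nat_lit 3) (nat_lit 111) (nat_lit 112) = true := by decide +kernel
def p14_22_0_112 : pfC (piC [(nat_lit 30365544), (nat_lit 20402210), (nat_lit 13167684)] (nat_lit 14872204)) p14_22_0 (nat_lit 3) (nat_lit 112) (nat_lit 113) = true := by decide +kernel
def p14_22_0_113 : pfC (piC [(nat_lit 30365544), (nat_lit 20402210), (nat_lit 13167684)] (nat_lit 14872204)) p14_22_0 (nat_lit 3) (nat_lit 113) (nat_lit 114) = true := by decide +kernel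
def p14_22_0_114 : pfC (piC [(nat_lit 30365544), (nat_lit 20402210), (nat_lit 13167684)] (nat_lit 14872204)) p14_22_0 (nat_lit 3) (nat_lit 114) (nat_lit 115) = true := by decide +kernel
def p14_22_0_115 : pfC (piC [(nat_lit 30365544), (nat_lit 20402210), (nat_lit 13167684)] (nat_lit 14872204)) p14_22_0 (nat_lit 3) (nat_lit 115) (nat_lit 116) = true := by decide +kernel
def p14_22_0_116 : pfC (piC [(nat_lit 30365544), (nat_lit 20402210), (nat_lit 13167684)] (nat_lit 14872204)) p14_22_0 (nat_lit 3) (nat_lit 116) (nat_lit 117) = true := by decide +kernel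
def p14_22_0_117 : pfC (piC [(nat_lit 30365544), (nat_lit 20402210), (nat_lit 13167684)] (nat_lit 14872204)) p14_22_0 (nat_lit 3) (nat_lit 117) (nat_lit 118) = true := by decide +kernel
def p14_22_0_118 : pfC (piC [(nat_lit 30365544), (nat_lit 20402210), (nat_lit 13167684)] (nat_lit 14872204)) p14_22_0 (nat_lit 3) (nat_lit 118) (nat_lit 119) = true := by decide +kernel
def p14_22_0_119 : pfC (piC [(nat_lit 30365544), (nat_lit 20402210), (nat_lit 13167684)] (nat_lit 14872204)) p14_22_0 (nat_lit 3) (nat_lit 119) (nat_lit 120) = true := by decide +kernel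
def p14_22_0_120 : pfC (piC [(nat_lit 30365544), (nat_lit 20402210), (nat_lit 13167684)] (nat_lit 14872204)) p14_22_0 (nat_lit 3) (nat_lit 120) (nat_lit 121) = true := by decide +kernel
def p14_22_0_121 : pfC (piC [(nat_lit 30365544), (nat_lit 20402210), (nat_lit 13167684)] (nat_lit 14872204)) p14_22_0 (nat_lit 3) (nat_lit 121) (nat_lit 122) = true := by decide +kernel
def p14_22_0_122 : pfC (piC [(nat_lit 30365544), (nat_lit 20402210), (nat_lit 13167684)] (nat_lit 14872204)) p14_22_0 (nat_lit 3) (nat_lit 122) (nat_lit 123) = true := by decide +kernel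
def p14_22_0_123 : pfC (piC [(nat_lit 30365544), (nat_lit 20402210), (nat_lit 13167684)] (nat_lit 14872204)) p14_22_0 (nat_lit 3) (nat_lit 123) (nat_lit 124) = true := by decide +kernel
def p14_22_0_124 : pfC (piC [(nat_lit 30365544), (nat_lit 20402210), (nat_lit 13167684)] (nat_lit 14872204)) p14_22_0 (nat_lit 3) (nat_lit 124) (nat_lit 125) = true := by decide +kernel
def p14_22_0_125 : pfC (piC [(nat_lit 30365544), (nat_lit 20402210), (nat_lit 13167684)] (nat_lit 14872204)) p14_22_0 (nat_lit 3) (nat_lit 125) (nat_lit 126) = true := by decide +kernel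
def p14_22_0_126 : pfC (piC [(nat_lit 30365544), (nat_lit 20402210), (nat_lit 13167684)] (nat_lit 14872204)) p14_22_0 (nat_lit 3) (nat_lit 126) (nat_lit 127) = true := by decide +kernel
def p14_22_0_127 : pfC (piC [(nat_lit 30365544), (nat_lit 20402210), (nat_lit 13167684)] (nat_lit 14872204)) p14_22_0 (nat_lit 3) (nat_lit 127) (nat_lit 128) = true := by decide +kernel
def p14_22_0_128 : pfC (piC [(nat_lit 30365544), (nat_lit 20402210), (nat_lit 13167684)] (nat_lit 14872204)) p14_22_0 (nat_lit 3) (nat_lit 128) (nat_lit 129) = true := by decide +kernel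
def p14_22_0_129 : pfC (piC [(nat_lit 30365544), (nat_lit 20402210), (nat_lit 13167684)] (nat_lit 14872204)) p14_22_0 (nat_lit 3) (nat_lit 129) (nat_lit 130) = true := by decide +kernel
def p14_22_0_130 : pfC (piC [(nat_lit 30365544), (nat_lit 20402210), (nat_lit 13167684)] (nat_lit 14872204)) p14_22_0 (nat_lit 3) (nat_lit 130) (nat_lit 131) = true := by decide +kernel
def p14_22_0_131 : pfC (piC [(nat_lit 30365544), (nat_lit 20402210), (nat_lit 13167684)] (nat_lit 14872204)) p14_22_0 (nat_lit 3) (nat_lit 131) (nat_lit 132) = true := by decide +kernel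
def p14_22_0_132 : pfC (piC [(nat_lit 30365544), (nat_lit 20402210), (nat_lit 13167684)] (nat_lit 14872204)) p14_22_0 (nat_lit 3) (nat_lit 132) (nat_lit 133) = true := by decide +kernel
def p14_22_0_133 : pfC (piC [(nat_lit 30365544), (nat_lit 20402210), (nat_lit 13167684)] (nat_lit 14872204)) p14_22_0 (nat_lit 3) (nat_lit 133) (nat_lit 134) = true := by decide +kernel
def p14_22_0_134 : pfC (piC [(nat_lit 30365544), (nat_lit 20402210), (nat_lit 13167684)] (nat_lit 14872204)) p14_22_0 (nat_lit 3) (nat_lit 134) (nat_lit 135) = true := by decide +kernel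
def p14_22_0_135 : pfC (piC [(nat_lit 30365544), (nat_lit 20402210), (nat_lit 13167684)] (nat_lit 14872204)) p14_22_0 (nat_lit 3) (nat_lit 135) (nat_lit 136) = true := by decide +kernel
def p14_22_0_136 : pfC (piC [(nat_lit 30365544), (nat_lit 20402210), (nat_lit 13167684)] (nat_lit 14872204)) p14_22_0 (nat_lit 3) (nat_lit 136) (nat_lit 137) = true := by decide +kernel
def p14_22_0_137 : pfC (piC [(nat_lit 30365544), (nat_lit 20402210), (nat_lit 13167684)] (nat_lit 14872204)) p14_22_0 (nat_lit 3) (nat_lit 137) (nat_lit 138) = true := by decide +kernel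
def p14_22_0_138 : pfC (piC [(nat_lit 30365544), (nat_lit 20402210), (nat_lit 13167684)] (nat_lit 14872204)) p14_22_0 (nat_lit 3) (nat_lit 138) (nat_lit 139) = true := by decide +kernel
def p14_22_0_139 : pfC (piC [(nat_lit 30365544), (nat_lit 20402210), (nat_lit 13167684)] (nat_lit 14872204)) p14_22_0 (nat_lit 3) (nat_lit 139) (nat_lit 140) = true := by decide +kernel
def p14_22_0_140 : pfC (piC [(nat_lit 30365544), (nat_lit 20402210), (nat_lit 13167684)] (nat_lit 14872204)) p14_22_0 (nat_lit 3) (nat_lit 140) (nat_lit 141) = true := by decide +kernel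
def p14_22_0_141 : pfC (piC [(nat_lit 30365544), (nat_lit 20402210), (nat_lit 13167684)] (nat_lit 14872204)) p14_22_0 (nat_lit 3) (nat_lit 141) (nat_lit 142) = true := by decide +kernel
def p14_22_0_142 : pfC (piC [(nat_lit 30365544), (nat_lit 20402210), (nat_lit 13167684)] (nat_lit 14872204)) p14_22_0 (nat_lit 3) (nat_lit 142) (nat_lit 143) = true := by decide +kernel
def p14_22_0_143 : pfC (piC [(nat_lit 30365544), (nat_lit 20402210), (nat_lit 13167684)] (nat_lit 14872204)) p14_22_0 (nat_lit 3) (nat_lit 143) (nat_lit 144) = true := by decide +kernel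
def p14_22_0_144 : pfC (piC [(nat_lit 30365544), (nat_lit 20402210), (nat_lit 13167684)] (nat_lit 14872204)) p14_22_0 (nat_lit 3) (nat_lit 144) (nat_lit 145) = true := by decide +kernel
def p14_22_0_145 : pfC (piC [(nat_lit 30365544), (nat_lit 20402210), (nat_lit 13167684)] (nat_lit 14872204)) p14_22_0 (nat_lit 3) (nat_lit 145) (nat_lit 146) = true := by decide +kernel
def p14_22_0_146 : pfC (piC [(nat_lit 30365544), (nat_lit 20402210), (nat_lit 13167684)] (nat_lit 14872204)) p14_22_0 (nat_lit 3) (nat_lit 146) (nat_lit 147) = true := by decide +kernel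
def p14_22_0_147 : pfC (piC [(nat_lit 30365544), (nat_lit 20402210), (nat_lit 13167684)] (nat_lit 14872204)) p14_22_0 (nat_lit 3) (nat_lit 147) (nat_lit 148) = true := by decide +kernel
def p14_22_0_148 : pfC (piC [(nat_lit 30365544), (nat_lit 20402210), (nat_lit 13167684)] (nat_lit 14872204)) p14_22_0 (nat_lit 3) (nat_lit 148) (nat_lit 149) = true := by decide +kernel
def p14_22_0_149 : pfC (piC [(nat_lit 30365544), (nat_lit 20402210), (nat_lit 13167684)] (nat_lit 14872204)) p14_22_0 (nat_lit 3) (nat_lit 149) (nat_lit 150) = true := by decide +kernel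
def p14_22_0_150 : pfC (piC [(nat_lit 30365544), (nat_lit 20402210), (nat_lit 13167684)] (nat_lit 14872204)) p14_22_0 (nat_lit 3) (nat_lit 150) (nat_lit 151) = true := by decide +kernel
def p14_22_0_151 : pfC (piC [(nat_lit 30365544), (nat_lit 20402210), (nat_lit 13167684)] (nat_lit 14872204)) p14_22_0 (nat_lit 3) (nat_lit 151) (nat_lit 152) = true := by decide +kernel
def p14_22_0_152 : pfC (piC [(nat_lit 30365544), (nat_lit 20402210), (nat_lit 13167684)] (nat_lit 14872204)) p14_22_0 (nat_lit 3) (nat_lit 152) (nat_lit 153) = true := by decide +kernel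
def p14_22_0_153 : pfC (piC [(nat_lit 30365544), (nat_lit 20402210), (nat_lit 13167684)] (nat_lit 14872204)) p14_22_0 (nat_lit 3) (nat_lit 153) (nat_lit 154) = true := by decide +kernel
def p14_22_0_154 : pfC (piC [(nat_lit 30365544), (nat_lit 20402210), (nat_lit 13167684)] (nat_lit 14872204)) p14_22_0 (nat_lit 3) (nat_lit 154) (nat_lit 155) = true := by decide +kernel
def p14_22_0_155 : pfC (piC [(nat_lit 30365544), (nat_lit 20402210), (nat_lit 13167684)] (nat_lit 14872204)) p14_22_0 (nat_lit 3) (nat_lit 155) (nat_lit 156) = true := by decide +kernel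
def p14_22_0_156 : pfC (piC [(nat_lit 30365544), (nat_lit 20402210), (nat_lit 13167684)] (nat_lit 14872204)) p14_22_0 (nat_lit 3) (nat_lit 156) (nat_lit 157) = true := by decide +kernel
def p14_22_0_157 : pfC (piC [(nat_lit 30365544), (nat_lit 20402210), (nat_lit 13167684)] (nat_lit 14872204)) p14_22_0 (nat_lit 3) (nat_lit 157) (nat_lit 158) = true := by decide +kernel
def p14_22_0_158 : pfC (piC [(nat_lit 30365544), (nat_lit 20402210), (nat_lit 13167684)] (nat_lit 14872204)) p14_22_0 (nat_lit 3) (nat_lit 158) (nat_lit 159) = true := by decide +kernel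
def p14_22_0_159 : pfC (piC [(nat_lit 30365544), (nat_lit 20402210), (nat_lit 13167684)] (nat_lit 14872204)) p14_22_0 (nat_lit 3) (nat_lit 159) (nat_lit 160) = true := by decide +kernel
def p14_22_0_160 : pfC (piC [(nat_lit 30365544), (nat_lit 20402210), (nat_lit 13167684)] (nat_lit 14872204)) p14_22_0 (nat_lit 3) (nat_lit 160) (nat_lit 161) = true := by decide +kernel
def p14_22_0_161 : pfC (piC [(nat_lit 30365544), (nat_lit 20402210), (nat_lit 13167684)] (nat_lit 14872204)) p14_22_0 (nat_lit 3) (nat_lit 161) (nat_lit 162) = true := by decide +kernel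
def p14_22_0_162 : pfC (piC [(nat_lit 30365544), (nat_lit 20402210), (nat_lit 13167684)] (nat_lit 14872204)) p14_22_0 (nat_lit 3) (nat_lit 162) (nat_lit 163) = true := by decide +kernel
def p14_22_0_163 : pfC (piC [(nat_lit 30365544), (nat_lit 20402210), (nat_lit 13167684)] (nat_lit 14872204)) p14_22_0 (nat_lit 3) (nat_lit 163) (nat_lit 164) = true := by decide +kernel
def p14_22_0_164 : pfC (piC [(nat_lit 30365544), (nat_lit 20402210), (nat_lit 13167684)] (nat_lit 14872204)) p14_22_0 (nat_lit 3) (nat_lit 164) (nat_lit 165) = true := by decide +kernel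
def p14_22_0_165 : pfC (piC [(nat_lit 30365544), (nat_lit 20402210), (nat_lit 13167684)] (nat_lit 14872204)) p14_22_0 (nat_lit 3) (nat_lit 165) (nat_lit 166) = true := by decide +kernel
def p14_22_0_166 : pfC (piC [(nat_lit 30365544), (nat_lit 20402210), (nat_lit 13167684)] (nat_lit 14872204)) p14_22_0 (nat_lit 3) (nat_lit 166) (nat_lit 167) = true := by decide +kernel
def p14_22_0_167 : pfC (piC [(nat_lit 30365544), (nat_lit 20402210), (nat_lit 13167684)] (nat_lit 14872204)) p14_22_0 (nat_lit 3) (nat_lit 167) (nat_lit 168) = true := by decide +kernel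
def p14_22_0_168 : pfC (piC [(nat_lit 30365544), (nat_lit 20402210), (nat_lit 13167684)] (nat_lit 14872204)) p14_22_0 (nat_lit 3) (nat_lit 168) (nat_lit 169) = true := by decide +kernel
def p14_22_0_169 : pfC (piC [(nat_lit 30365544), (nat_lit 20402210), (nat_lit 13167684)] (nat_lit 14872204)) p14_22_0 (nat_lit 3) (nat_lit 169) (nat_lit 170) = true := by decide +kernel
def p14_22_0_170 : pfC (piC [(nat_lit 30365544), (nat_lit 20402210), (nat_lit 13167684)] (nat_lit 14872204)) p14_22_0 (nat_lit 3) (nat_lit 170) (nat_lit 171) = true := by decide +kernel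
def p14_22_0_171 : pfC (piC [(nat_lit 30365544), (nat_lit 20402210), (nat_lit 13167684)] (nat_lit 14872204)) p14_22_0 (nat_lit 3) (nat_lit 171) (nat_lit 172) = true := by decide +kernel
def p14_22_0_172 : pfC (piC [(nat_lit 30365544), (nat_lit 20402210), (nat_lit 13167684)] (nat_lit 14872204)) p14_22_0 (nat_lit 3) (nat_lit 172) (nat_lit 173) = true := by decide +kernel
def p14_22_0_173 : pfC (piC [(nat_lit 30365544), (nat_lit 20402210), (nat_lit 13167684)] (nat_lit 14872204)) p14_22_0 (nat_lit 3) (nat_lit 173) (nat_lit 174) = true := by decide +kernel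
def p14_22_0_174 : pfC (piC [(nat_lit 30365544), (nat_lit 20402210), (nat_lit 13167684)] (nat_lit 14872204)) p14_22_0 (nat_lit 3) (nat_lit 174) (nat_lit 175) = true := by decide +kernel
def p14_22_0_175 : pfC (piC [(nat_lit 30365544), (nat_lit 20402210), (nat_lit 13167684)] (nat_lit 14872204)) p14_22_0 (nat_lit 3) (nat_lit 175) (nat_lit 176) = true := by decide +kernel
def p14_22_0_176 : pfC (piC [(nat_lit 30365544), (nat_lit 20402210), (nat_lit 13167684)] (nat_lit 14872204)) p14_22_0 (nat_lit 3) (nat_lit 176) (nat_lit 177) = true := by decide +kernel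
def p14_22_0_177 : pfC (piC [(nat_lit 30365544), (nat_lit 20402210), (nat_lit 13167684)] (nat_lit 14872204)) p14_22_0 (nat_lit 3) (nat_lit 177) (nat_lit 178) = true := by decide +kernel
def p14_22_0_178 : pfC (piC [(nat_lit 30365544), (nat_lit 20402210), (nat_lit 13167684)] (nat_lit 14872204)) p14_22_0 (nat_lit 3) (nat_lit 178) (nat_lit 179) = true := by decide +kernel
def p14_22_0_179 : pfC (piC [(nat_lit 30365544), (nat_lit 20402210), (nat_lit 13167684)] (nat_lit 14872204)) p14_22_0 (nat_lit 3) (nat_lit 179) (nat_lit 180) = true := by decide +kernel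
def p14_22_0_180 : pfC (piC [(nat_lit 30365544), (nat_lit 20402210), (nat_lit 13167684)] (nat_lit 14872204)) p14_22_0 (nat_lit 3) (nat_lit 180) (nat_lit 181) = true := by decide +kernel
def p14_22_0_181 : pfC (piC [(nat_lit 30365544), (nat_lit 20402210), (nat_lit 13167684)] (nat_lit 14872204)) p14_22_0 (nat_lit 3) (nat_lit 181) (nat_lit 182) = true := by decide +kernel
def p14_22_0_182 : pfC (piC [(nat_lit 30365544), (nat_lit 20402210), (nat_lit 13167684)] (nat_lit 14872204)) p14_22_0 (nat_lit 3) (nat_lit 182) (nat_lit 183) = true := by decide +kernel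
def p14_22_0_183 : pfC (piC [(nat_lit 30365544), (nat_lit 20402210), (nat_lit 13167684)] (nat_lit 14872204)) p14_22_0 (nat_lit 3) (nat_lit 183) (nat_lit 184) = true := by decide +kernel
def p14_22_0_184 : pfC (piC [(nat_lit 30365544), (nat_lit 20402210), (nat_lit 13167684)] (nat_lit 14872204)) p14_22_0 (nat_lit 3) (nat_lit 184) (nat_lit 185) = true := by decide +kernel
def p14_22_0_185 : pfC (piC [(nat_lit 30365544), (nat_lit 20402210), (nat_lit 13167684)] (nat_lit 14872204)) p14_22_0 (nat_lit 3) (nat_lit 185) (nat_lit 186) = true := by decide +kernel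
def p14_22_0_186 : pfC (piC [(nat_lit 30365544), (nat_lit 20402210), (nat_lit 13167684)] (nat_lit 14872204)) p14_22_0 (nat_lit 3) (nat_lit 186) (nat_lit 187) = true := by decide +kernel
def p14_22_0_187 : pfC (piC [(nat_lit 30365544), (nat_lit 20402210), (nat_lit 13167684)] (nat_lit 14872204)) p14_22_0 (nat_lit 3) (nat_lit 187) (nat_lit 188) = true := by decide +kernel
def p14_22_0_188 : pfC (piC [(nat_lit 30365544), (nat_lit 20402210), (nat_lit 13167684)] (nat_lit 14872204)) p14_22_0 (nat_lit 3) (nat_lit 188) (nat_lit 189) = true := by decide +kernel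
def p14_22_0_189 : pfC (piC [(nat_lit 30365544), (nat_lit 20402210), (nat_lit 13167684)] (nat_lit 14872204)) p14_22_0 (nat_lit 3) (nat_lit 189) (nat_lit 190) = true := by decide +kernel
def p14_22_0_190 : pfC (piC [(nat_lit 30365544), (nat_lit 20402210), (nat_lit 13167684)] (nat_lit 14872204)) p14_22_0 (nat_lit 3) (nat_lit 190) (nat_lit 191) = true := by decide +kernel
def p14_22_0_191 : pfC (piC [(nat_lit 30365544), (nat_lit 20402210), (nat_lit 13167684)] (nat_lit 14872204)) p14_22_0 (nat_lit 3) (nat_lit 191) (nat_lit 192) = true := by decide +kernel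
def p14_22_0_192 : pfC (piC [(nat_lit 30365544), (nat_lit 20402210), (nat_lit 13167684)] (nat_lit 14872204)) p14_22_0 (nat_lit 3) (nat_lit 192) (nat_lit 193) = true := by decide +kernel
def p14_22_0_193 : pfC (piC [(nat_lit 30365544), (nat_lit 20402210), (nat_lit 13167684)] (nat_lit 14872204)) p14_22_0 (nat_lit 3) (nat_lit 193) (nat_lit 194) = true := by decide +kernel
def p14_22_0_194 : pfC (piC [(nat_lit 30365544), (nat_lit 20402210), (nat_lit 13167684)] (nat_lit 14872204)) p14_22_0 (nat_lit 3) (nat_lit 194) (nat_lit 195) = true := by decide +kernel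
def p14_22_0_195 : pfC (piC [(nat_lit 30365544), (nat_lit 20402210), (nat_lit 13167684)] (nat_lit 14872204)) p14_22_0 (nat_lit 3) (nat_lit 195) (nat_lit 196) = true := by decide +kernel
def p14_22_0_196 : pfC (piC [(nat_lit 30365544), (nat_lit 20402210), (nat_lit 13167684)] (nat_lit 14872204)) p14_22_0 (nat_lit 3) (nat_lit 196) (nat_lit 197) = true := by decide +kernel
def p14_22_0_197 : pfC (piC [(nat_lit 30365544), (nat_lit 20402210), (nat_lit 13167684)] (nat_lit 14872204)) p14_22_0 (nat_lit 3) (nat_lit 197) (nat_lit 198) = true := by decide +kernel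
def p14_22_0_198 : pfC (piC [(nat_lit 30365544), (nat_lit 20402210), (nat_lit 13167684)] (nat_lit 14872204)) p14_22_0 (nat_lit 3) (nat_lit 198) (nat_lit 199) = true := by decide +kernel
def p14_22_0_199 : pfC (piC [(nat_lit 30365544), (nat_lit 20402210), (nat_lit 13167684)] (nat_lit 14872204)) p14_22_0 (nat_lit 3) (nat_lit 199) (nat_lit 200) = true := by decide +kernel
def p14_22_0_200 : pfC (piC [(nat_lit 30365544), (nat_lit 20402210), (nat_lit 13167684)] (nat_lit 14872204)) p14_22_0 (nat_lit 3) (nat_lit 200) (nat_lit 201) = true := by decide +kernel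
def p14_22_0_201 : pfC (piC [(nat_lit 30365544), (nat_lit 20402210), (nat_lit 13167684)] (nat_lit 14872204)) p14_22_0 (nat_lit 3) (nat_lit 201) (nat_lit 202) = true := by decide +kernel
def p14_22_0_202 : pfC (piC [(nat_lit 30365544), (nat_lit 20402210), (nat_lit 13167684)] (nat_lit 14872204)) p14_22_0 (nat_lit 3) (nat_lit 202) (nat_lit 203) = true := by decide +kernel
def p14_22_0_203 : pfC (piC [(nat_lit 30365544), (nat_lit 20402210), (nat_lit 13167684)] (nat_lit 14872204)) p14_22_0 (nat_lit 3) (nat_lit 203) (nat_lit 204) = true := by decide +kernel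
def p14_22_0_204 : pfC (piC [(nat_lit 30365544), (nat_lit 20402210), (nat_lit 13167684)] (nat_lit 14872204)) p14_22_0 (nat_lit 3) (nat_lit 204) (nat_lit 205) = true := by decide +kernel
def p14_22_0_205 : pfC (piC [(nat_lit 30365544), (nat_lit 20402210), (nat_lit 13167684)] (nat_lit 14872204)) p14_22_0 (nat_lit 3) (nat_lit 205) (nat_lit 206) = true := by decide +kernel
def p14_22_0_206 : pfC (piC [(nat_lit 30365544), (nat_lit 20402210), (nat_lit 13167684)] (nat_lit 14872204)) p14_22_0 (nat_lit 3) (nat_lit 206) (nat_lit 207) = true := by decide +kernel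
def p14_22_0_207 : pfC (piC [(nat_lit 30365544), (nat_lit 20402210), (nat_lit 13167684)] (nat_lit 14872204)) p14_22_0 (nat_lit 3) (nat_lit 207) (nat_lit 208) = true := by decide +kernel
def p14_22_0_208 : pfC (piC [(nat_lit 30365544), (nat_lit 20402210), (nat_lit 13167684)] (nat_lit 14872204)) p14_22_0 (nat_lit 3) (nat_lit 208) (nat_lit 209) = true := by decide +kernel
def p14_22_0_209 : pfC (piC [(nat_lit 30365544), (nat_lit 20402210), (nat_lit 13167684)] (nat_lit 14872204)) p14_22_0 (nat_lit 3) (nat_lit 209) (nat_lit 210) = true := by decide +kernel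
def p14_22_0_210 : pfC (piC [(nat_lit 30365544), (nat_lit 20402210), (nat_lit 13167684)] (nat_lit 14872204)) p14_22_0 (nat_lit 3) (nat_lit 210) (nat_lit 211) = true := by decide +kernel
def p14_22_0_211 : pfC (piC [(nat_lit 30365544), (nat_lit 20402210), (nat_lit 13167684)] (nat_lit 14872204)) p14_22_0 (nat_lit 3) (nat_lit 211) (nat_lit 212) = true := by decide +kernel
def p14_22_0_212 : pfC (piC [(nat_lit 30365544), (nat_lit 20402210), (nat_lit 13167684)] (nat_lit 14872204)) p14_22_0 (nat_lit 3) (nat_lit 212) (nat_lit 213) = true := by decide +kernel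
def p14_22_0_213 : pfC (piC [(nat_lit 30365544), (nat_lit 20402210), (nat_lit 13167684)] (nat_lit 14872204)) p14_22_0 (nat_lit 3) (nat_lit 213) (nat_lit 214) = true := by decide +kernel
def p14_22_0_214 : pfC (piC [(nat_lit 30365544), (nat_lit 20402210), (nat_lit 13167684)] (nat_lit 14872204)) p14_22_0 (nat_lit 3) (nat_lit 214) (nat_lit 215) = true := by decide +kernel
def p14_22_0_215 : pfC (piC [(nat_lit 30365544), (nat_lit 20402210), (nat_lit 13167684)] (nat_lit 14872204)) p14_22_0 (nat_lit 3) (nat_lit 215) (nat_lit 216) = true := by decide +kernel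
def p14_22_0_216 : pfC (piC [(nat_lit 30365544), (nat_lit 20402210), (nat_lit 13167684)] (nat_lit 14872204)) p14_22_0 (nat_lit 3) (nat_lit 216) (nat_lit 217) = true := by decide +kernel
def p14_22_0_217 : pfC (piC [(nat_lit 30365544), (nat_lit 20402210), (nat_lit 13167684)] (nat_lit 14872204)) p14_22_0 (nat_lit 3) (nat_lit 217) (nat_lit 218) = true := by decide +kernel
def p14_22_0_218 : pfC (piC [(nat_lit 30365544), (nat_lit 20402210), (nat_lit 13167684)] (nat_lit 14872204)) p14_22_0 (nat_lit 3) (nat_lit 218) (nat_lit 219) = true := by decide +kernel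
def p14_22_0_219 : pfC (piC [(nat_lit 30365544), (nat_lit 20402210), (nat_lit 13167684)] (nat_lit 14872204)) p14_22_0 (nat_lit 3) (nat_lit 219) (nat_lit 220) = true := by decide +kernel
def p14_22_0_220 : pfC (piC [(nat_lit 30365544), (nat_lit 20402210), (nat_lit 13167684)] (nat_lit 14872204)) p14_22_0 (nat_lit 3) (nat_lit 220) (nat_lit 221) = true := by decide +kernel
def p14_22_0_221 : pfC (piC [(nat_lit 30365544), (nat_lit 20402210), (nat_lit 13167684)] (nat_lit 14872204)) p14_22_0 (nat_lit 3) (nat_lit 221) (nat_lit 222) = true := by decide +kernel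
def p14_22_0_222 : pfC (piC [(nat_lit 30365544), (nat_lit 20402210), (nat_lit 13167684)] (nat_lit 14872204)) p14_22_0 (nat_lit 3) (nat_lit 222) (nat_lit 223) = true := by decide +kernel
def p14_22_0_223 : pfC (piC [(nat_lit 30365544), (nat_lit 20402210), (nat_lit 13167684)] (nat_lit 14872204)) p14_22_0 (nat_lit 3) (nat_lit 223) (nat_lit 224) = true := by decide +kernel
def p14_22_0_224 : pfC (piC [(nat_lit 30365544), (nat_lit 20402210), (nat_lit 13167684)] (nat_lit 14872204)) p14_22_0 (nat_lit 3) (nat_lit 224) (nat_lit 225) = true := by decide +kernel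
def p14_22_0_225 : pfC (piC [(nat_lit 30365544), (nat_lit 20402210), (nat_lit 13167684)] (nat_lit 14872204)) p14_22_0 (nat_lit 3) (nat_lit 225) (nat_lit 226) = true := by decide +kernel
def p14_22_0_226 : pfC (piC [(nat_lit 30365544), (nat_lit 20402210), (nat_lit 13167684)] (nat_lit 14872204)) p14_22_0 (nat_lit 3) (nat_lit 226) (nat_lit 227) = true := by decide +kernel
def p14_22_0_227 : pfC (piC [(nat_lit 30365544), (nat_lit 20402210), (nat_lit 13167684)] (nat_lit 14872204)) p14_22_0 (nat_lit 3) (nat_lit 227) (nat_lit 228) = true := by decide +kernel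
def p14_22_0_228 : pfC (piC [(nat_lit 30365544), (nat_lit 20402210), (nat_lit 13167684)] (nat_lit 14872204)) p14_22_0 (nat_lit 3) (nat_lit 228) (nat_lit 229) = true := by decide +kernel
def p14_22_0_229 : pfC (piC [(nat_lit 30365544), (nat_lit 20402210), (nat_lit 13167684)] (nat_lit 14872204)) p14_22_0 (nat_lit 3) (nat_lit 229) (nat_lit 230) = true := by decide +kernel
def p14_22_0_230 : pfC (piC [(nat_lit 30365544), (nat_lit 20402210), (nat_lit 13167684)] (nat_lit 14872204)) p14_22_0 (nat_lit 3) (nat_lit 230) (nat_lit 231) = true := by decide +kernel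
def p14_22_0_231 : pfC (piC [(nat_lit 30365544), (nat_lit 20402210), (nat_lit 13167684)] (nat_lit 14872204)) p14_22_0 (nat_lit 3) (nat_lit 231) (nat_lit 232) = true := by decide +kernel
def p14_22_0_232 : pfC (piC [(nat_lit 30365544), (nat_lit 20402210), (nat_lit 13167684)] (nat_lit 14872204)) p14_22_0 (nat_lit 3) (nat_lit 232) (nat_lit 233) = true := by decide +kernel
def p14_22_0_233 : pfC (piC [(nat_lit 30365544), (nat_lit 20402210), (nat_lit 13167684)] (nat_lit 14872204)) p14_22_0 (nat_lit 3) (nat_lit 233) (nat_lit 234) = true := by decide +kernel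
def p14_22_0_234 : pfC (piC [(nat_lit 30365544), (nat_lit 20402210), (nat_lit 13167684)] (nat_lit 14872204)) p14_22_0 (nat_lit 3) (nat_lit 234) (nat_lit 235) = true := by decide +kernel
def p14_22_0_235 : pfC (piC [(nat_lit 30365544), (nat_lit 20402210), (nat_lit 13167684)] (nat_lit 14872204)) p14_22_0 (nat_lit 3) (nat_lit 235) (nat_lit 236) = true := by decide +kernel
def p14_22_0_236 : pfC (piC [(nat_lit 30365544), (nat_lit 20402210), (nat_lit 13167684)] (nat_lit 14872204)) p14_22_0 (nat_lit 3) (nat_lit 236) (nat_lit 237) = true := by decide +kernel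
def p14_22_0_237 : pfC (piC [(nat_lit 30365544), (nat_lit 20402210), (nat_lit 13167684)] (nat_lit 14872204)) p14_22_0 (nat_lit 3) (nat_lit 237) (nat_lit 238) = true := by decide +kernel
def p14_22_0_238 : pfC (piC [(nat_lit 30365544), (nat_lit 20402210), (nat_lit 13167684)] (nat_lit 14872204)) p14_22_0 (nat_lit 3) (nat_lit 238) (nat_lit 239) = true := by decide +kernel
def p14_22_0_239 : pfC (piC [(nat_lit 30365544), (nat_lit 20402210), (nat_lit 13167684)] (nat_lit 14872204)) p14_22_0 (nat_lit 3) (nat_lit 239) (nat_lit 240) = true := by decide +kernel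
def p14_22_0_240 : pfC (piC [(nat_lit 30365544), (nat_lit 20402210), (nat_lit 13167684)] (nat_lit 14872204)) p14_22_0 (nat_lit 3) (nat_lit 240) (nat_lit 241) = true := by decide +kernel
def p14_22_0_241 : pfC (piC [(nat_lit 30365544), (nat_lit 20402210), (nat_lit 13167684)] (nat_lit 14872204)) p14_22_0 (nat_lit 3) (nat_lit 241) (nat_lit 242) = true := by decide +kernel
def p14_22_0_242 : pfC (piC [(nat_lit 30365544), (nat_lit 20402210), (nat_lit 13167684)] (nat_lit 14872204)) p14_22_0 (nat_lit 3) (nat_lit 242) (nat_lit 243) = true := by decide +kernel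
def p14_22_0_243 : pfC (piC [(nat_lit 30365544), (nat_lit 20402210), (nat_lit 13167684)] (nat_lit 14872204)) p14_22_0 (nat_lit 3) (nat_lit 243) (nat_lit 244) = true := by decide +kernel
def p14_22_0_244 : pfC (piC [(nat_lit 30365544), (nat_lit 20402210), (nat_lit 13167684)] (nat_lit 14872204)) p14_22_0 (nat_lit 3) (nat_lit 244) (nat_lit 245) = true := by decide +kernel
def p14_22_0_245 : pfC (piC [(nat_lit 30365544), (nat_lit 20402210), (nat_lit 13167684)] (nat_lit 14872204)) p14_22_0 (nat_lit 3) (nat_lit 245) (nat_lit 246) = true := by decide +kernel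
def p14_22_0_246 : pfC (piC [(nat_lit 30365544), (nat_lit 20402210), (nat_lit 13167684)] (nat_lit 14872204)) p14_22_0 (nat_lit 3) (nat_lit 246) (nat_lit 247) = true := by decide +kernel
def p14_22_0_247 : pfC (piC [(nat_lit 30365544), (nat_lit 20402210), (nat_lit 13167684)] (nat_lit 14872204)) p14_22_0 (nat_lit 3) (nat_lit 247) (nat_lit 248) = true := by decide +kernel
def p14_22_0_248 : pfC (piC [(nat_lit 30365544), (nat_lit 20402210), (nat_lit 13167684)] (nat_lit 14872204)) p14_22_0 (nat_lit 3) (nat_lit 248) (nat_lit 249) = true := by decide +kernel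
def p14_22_0_249 : pfC (piC [(nat_lit 30365544), (nat_lit 20402210), (nat_lit 13167684)] (nat_lit 14872204)) p14_22_0 (nat_lit 3) (nat_lit 249) (nat_lit 250) = true := by decide +kernel
def p14_22_0_250 : pfC (piC [(nat_lit 30365544), (nat_lit 20402210), (nat_lit 13167684)] (nat_lit 14872204)) p14_22_0 (nat_lit 3) (nat_lit 250) (nat_lit 251) = true := by decide +kernel
def p14_22_0_251 : pfC (piC [(nat_lit 30365544), (nat_lit 20402210), (nat_lit 13167684)] (nat_lit 14872204)) p14_22_0 (nat_lit 3) (nat_lit 251) (nat_lit 252) = true := by decide +kernel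
def p14_22_0_252 : pfC (piC [(nat_lit 30365544), (nat_lit 20402210), (nat_lit 13167684)] (nat_lit 14872204)) p14_22_0 (nat_lit 3) (nat_lit 252) (nat_lit 253) = true := by decide +kernel
def p14_22_0_253 : pfC (piC [(nat_lit 30365544), (nat_lit 20402210), (nat_lit 13167684)] (nat_lit 14872204)) p14_22_0 (nat_lit 3) (nat_lit 253) (nat_lit 254) = true := by decide +kernel
def p14_22_0_254 : pfC (piC [(nat_lit 30365544), (nat_lit 20402210), (nat_lit 13167684)] (nat_lit 14872204)) p14_22_0 (nat_lit 3) (nat_lit 254) (nat_lit 255) = true := by decide +kernel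
def p14_22_0_255 : pfC (piC [(nat_lit 30365544), (nat_lit 20402210), (nat_lit 13167684)] (nat_lit 14872204)) p14_22_0 (nat_lit 3) (nat_lit 255) (nat_lit 256) = true := by decide +kernel
def p14_22_0_256 : pfC (piC [(nat_lit 30365544), (nat_lit 20402210), (nat_lit 13167684)] (nat_lit 14872204)) p14_22_0 (nat_lit 3) (nat_lit 256) (nat_lit 257) = true := by decide +kernel
def p14_22_0_257 : pfC (piC [(nat_lit 30365544), (nat_lit 20402210), (nat_lit 13167684)] (nat_lit 14872204)) p14_22_0 (nat_lit 3) (nat_lit 257) (nat_lit 258) = true := by decide +kernel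
def p14_22_0_258 : pfC (piC [(nat_lit 30365544), (nat_lit 20402210), (nat_lit 13167684)] (nat_lit 14872204)) p14_22_0 (nat_lit 3) (nat_lit 258) (nat_lit 259) = true := by decide +kernel
def p14_22_0_259 : pfC (piC [(nat_lit 30365544), (nat_lit 20402210), (nat_lit 13167684)] (nat_lit 14872204)) p14_22_0 (nat_lit 3) (nat_lit 259) (nat_lit 260) = true := by decide +kernel
def p14_22_0_260 : pfC (piC [(nat_lit 30365544), (nat_lit 20402210), (nat_lit 13167684)] (nat_lit 14872204)) p14_22_0 (nat_lit 3) (nat_lit 260) (nat_lit 261) = true := by decide +kernel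
def p14_22_0_261 : pfC (piC [(nat_lit 30365544), (nat_lit 20402210), (nat_lit 13167684)] (nat_lit 14872204)) p14_22_0 (nat_lit 3) (nat_lit 261) (nat_lit 262) = true := by decide +kernel
def p14_22_0_262 : pfC (piC [(nat_lit 30365544), (nat_lit 20402210), (nat_lit 13167684)] (nat_lit 14872204)) p14_22_0 (nat_lit 3) (nat_lit 262) (nat_lit 263) = true := by decide +kernel
def p14_22_0_263 : pfC (piC [(nat_lit 30365544), (nat_lit 20402210), (nat_lit 13167684)] (nat_lit 14872204)) p14_22_0 (nat_lit 3) (nat_lit 263) (nat_lit 264) = true := by decide +kernel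
def p14_22_0_264 : pfC (piC [(nat_lit 30365544), (nat_lit 20402210), (nat_lit 13167684)] (nat_lit 14872204)) p14_22_0 (nat_lit 3) (nat_lit 264) (nat_lit 265) = true := by decide +kernel
def p14_22_0_265 : pfC (piC [(nat_lit 30365544), (nat_lit 20402210), (nat_lit 13167684)] (nat_lit 14872204)) p14_22_0 (nat_lit 3) (nat_lit 265) (nat_lit 266) = true := by decide +kernel
def p14_22_0_266 : pfC (piC [(nat_lit 30365544), (nat_lit 20402210), (nat_lit 13167684)] (nat_lit 14872204)) p14_22_0 (nat_lit 3) (nat_lit 266) (nat_lit 267) = true := by decide +kernel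
def p14_22_0_267 : pfC (piC [(nat_lit 30365544), (nat_lit 20402210), (nat_lit 13167684)] (nat_lit 14872204)) p14_22_0 (nat_lit 3) (nat_lit 267) (nat_lit 268) = true := by decide +kernel
def p14_22_0_268 : pfC (piC [(nat_lit 30365544), (nat_lit 20402210), (nat_lit 13167684)] (nat_lit 14872204)) p14_22_0 (nat_lit 3) (nat_lit 268) (nat_lit 269) = true := by decide +kernel
def p14_22_0_269 : pfC (piC [(nat_lit 30365544), (nat_lit 20402210), (nat_lit 13167684)] (nat_lit 14872204)) p14_22_0 (nat_lit 3) (nat_lit 269) (nat_lit 270) = true := by decide +kernel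
def p14_22_0_270 : pfC (piC [(nat_lit 30365544), (nat_lit 20402210), (nat_lit 13167684)] (nat_lit 14872204)) p14_22_0 (nat_lit 3) (nat_lit 270) (nat_lit 271) = true := by decide +kernel
def p14_22_0_271 : pfC (piC [(nat_lit 30365544), (nat_lit 20402210), (nat_lit 13167684)] (nat_lit 14872204)) p14_22_0 (nat_lit 3) (nat_lit 271) (nat_lit 272) = true := by decide +kernel
def p14_22_0_272 : pfC (piC [(nat_lit 30365544), (nat_lit 20402210), (nat_lit 13167684)] (nat_lit 14872204)) p14_22_0 (nat_lit 3) (nat_lit 272) (nat_lit 273) = true := by decide +kernel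
def p14_22_0_273 : pfC (piC [(nat_lit 30365544), (nat_lit 20402210), (nat_lit 13167684)] (nat_lit 14872204)) p14_22_0 (nat_lit 3) (nat_lit 273) (nat_lit 274) = true := by decide +kernel
def p14_22_0_274 : pfC (piC [(nat_lit 30365544), (nat_lit 20402210), (nat_lit 13167684)] (nat_lit 14872204)) p14_22_0 (nat_lit 3) (nat_lit 274) (nat_lit 275) = true := by decide +kernel
def p14_22_0_275 : pfC (piC [(nat_lit 30365544), (nat_lit 20402210), (nat_lit 13167684)] (nat_lit 14872204)) p14_22_0 (nat_lit 3) (nat_lit 275) (nat_lit 276) = true := by decide +kernel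
def p14_22_0_276 : pfC (piC [(nat_lit 30365544), (nat_lit 20402210), (nat_lit 13167684)] (nat_lit 14872204)) p14_22_0 (nat_lit 3) (nat_lit 276) (nat_lit 277) = true := by decide +kernel
def p14_22_0_277 : pfC (piC [(nat_lit 30365544), (nat_lit 20402210), (nat_lit 13167684)] (nat_lit 14872204)) p14_22_0 (nat_lit 3) (nat_lit 277) (nat_lit 278) = true := by decide +kernel
def p14_22_0_278 : pfC (piC [(nat_lit 30365544), (nat_lit 20402210), (nat_lit 13167684)] (nat_lit 14872204)) p14_22_0 (nat_lit 3) (nat_lit 278) (nat_lit 279) = true := by decide +kernel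
def p14_22_0_279 : pfC (piC [(nat_lit 30365544), (nat_lit 20402210), (nat_lit 13167684)] (nat_lit 14872204)) p14_22_0 (nat_lit 3) (nat_lit 279) (nat_lit 280) = true := by decide +kernel
def p14_22_0_280 : pfC (piC [(nat_lit 30365544), (nat_lit 20402210), (nat_lit 13167684)] (nat_lit 14872204)) p14_22_0 (nat_lit 3) (nat_lit 280) (nat_lit 281) = true := by decide +kernel
def p14_22_0_281 : pfC (piC [(nat_lit 30365544), (nat_lit 20402210), (nat_lit 13167684)] (nat_lit 14872204)) p14_22_0 (nat_lit 3) (nat_lit 281) (nat_lit 282) = true := by decide +kernel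
def p14_22_0_282 : pfC (piC [(nat_lit 30365544), (nat_lit 20402210), (nat_lit 13167684)] (nat_lit 14872204)) p14_22_0 (nat_lit 3) (nat_lit 282) (nat_lit 283) = true := by decide +kernel
def p14_22_0_283 : pfC (piC [(nat_lit 30365544), (nat_lit 20402210), (nat_lit 13167684)] (nat_lit 14872204)) p14_22_0 (nat_lit 3) (nat_lit 283) (nat_lit 284) = true := by decide +kernel
def p14_22_0_284 : pfC (piC [(nat_lit 30365544), (nat_lit 20402210), (nat_lit 13167684)] (nat_lit 14872204)) p14_22_0 (nat_lit 3) (nat_lit 284) (nat_lit 285) = true := by decide +kernel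
def p14_22_0_285 : pfC (piC [(nat_lit 30365544), (nat_lit 20402210), (nat_lit 13167684)] (nat_lit 14872204)) p14_22_0 (nat_lit 3) (nat_lit 285) (nat_lit 286) = true := by decide +kernel
def p14_22_0_286 : pfC (piC [(nat_lit 30365544), (nat_lit 20402210), (nat_lit 13167684)] (nat_lit 14872204)) p14_22_0 (nat_lit 3) (nat_lit 286) (nat_lit 287) = true := by decide +kernel
def p14_22_0_287 : pfC (piC [(nat_lit 30365544), (nat_lit 20402210), (nat_lit 13167684)] (nat_lit 14872204)) p14_22_0 (nat_lit 3) (nat_lit 287) (nat_lit 288) = true := by decide +kernel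
def p14_22_0_288 : pfC (piC [(nat_lit 30365544), (nat_lit 20402210), (nat_lit 13167684)] (nat_lit 14872204)) p14_22_0 (nat_lit 3) (nat_lit 288) (nat_lit 289) = true := by decide +kernel
def p14_22_0_289 : pfC (piC [(nat_lit 30365544), (nat_lit 20402210), (nat_lit 13167684)] (nat_lit 14872204)) p14_22_0 (nat_lit 3) (nat_lit 289) (nat_lit 290) = true := by decide +kernel
def p14_22_0_290 : pfC (piC [(nat_lit 30365544), (nat_lit 20402210), (nat_lit 13167684)] (nat_lit 14872204)) p14_22_0 (nat_lit 3) (nat_lit 290) (nat_lit 291) = true := by decide +kernel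
def p14_22_0_291 : pfC (piC [(nat_lit 30365544), (nat_lit 20402210), (nat_lit 13167684)] (nat_lit 14872204)) p14_22_0 (nat_lit 3) (nat_lit 291) (nat_lit 292) = true := by decide +kernel
def p14_22_0_292 : pfC (piC [(nat_lit 30365544), (nat_lit 20402210), (nat_lit 13167684)] (nat_lit 14872204)) p14_22_0 (nat_lit 3) (nat_lit 292) (nat_lit 293) = true := by decide +kernel
def p14_22_0_293 : pfC (piC [(nat_lit 30365544), (nat_lit 20402210), (nat_lit 13167684)] (nat_lit 14872204)) p14_22_0 (nat_lit 3) (nat_lit 293) (nat_lit 294) = true := by decide +kernel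
def p14_22_0_294 : pfC (piC [(nat_lit 30365544), (nat_lit 20402210), (nat_lit 13167684)] (nat_lit 14872204)) p14_22_0 (nat_lit 3) (nat_lit 294) (nat_lit 295) = true := by decide +kernel
def p14_22_0_295 : pfC (piC [(nat_lit 30365544), (nat_lit 20402210), (nat_lit 13167684)] (nat_lit 14872204)) p14_22_0 (nat_lit 3) (nat_lit 295) (nat_lit 296) = true := by decide +kernel
def p14_22_0_296 : pfC (piC [(nat_lit 30365544), (nat_lit 20402210), (nat_lit 13167684)] (nat_lit 14872204)) p14_22_0 (nat_lit 3) (nat_lit 296) (nat_lit 297) = true := by decide +kernel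
def p14_22_0_297 : pfC (piC [(nat_lit 30365544), (nat_lit 20402210), (nat_lit 13167684)] (nat_lit 14872204)) p14_22_0 (nat_lit 3) (nat_lit 297) (nat_lit 298) = true := by decide +kernel
def p14_22_0_298 : pfC (piC [(nat_lit 30365544), (nat_lit 20402210), (nat_lit 13167684)] (nat_lit 14872204)) p14_22_0 (nat_lit 3) (nat_lit 298) (nat_lit 299) = true := by decide +kernel
def p14_22_0_299 : pfC (piC [(nat_lit 30365544), (nat_lit 20402210), (nat_lit 13167684)] (nat_lit 14872204)) p14_22_0 (nat_lit 3) (nat_lit 299) (nat_lit 300) = true := by decide +kernel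
def p14_22_0_300 : pfC (piC [(nat_lit 30365544), (nat_lit 20402210), (nat_lit 13167684)] (nat_lit 14872204)) p14_22_0 (nat_lit 3) (nat_lit 300) (nat_lit 301) = true := by decide +kernel
def p14_22_0_301 : pfC (piC [(nat_lit 30365544), (nat_lit 20402210), (nat_lit 13167684)] (nat_lit 14872204)) p14_22_0 (nat_lit 3) (nat_lit 301) (nat_lit 302) = true := by decide +kernel
def p14_22_0_302 : pfC (piC [(nat_lit 30365544), (nat_lit 20402210), (nat_lit 13167684)] (nat_lit 14872204)) p14_22_0 (nat_lit 3) (nat_lit 302) (nat_lit 303) = true := by decide +kernel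
def p14_22_0_303 : pfC (piC [(nat_lit 30365544), (nat_lit 20402210), (nat_lit 13167684)] (nat_lit 14872204)) p14_22_0 (nat_lit 3) (nat_lit 303) (nat_lit 304) = true := by decide +kernel
def p14_22_0_304 : pfC (piC [(nat_lit 30365544), (nat_lit 20402210), (nat_lit 13167684)] (nat_lit 14872204)) p14_22_0 (nat_lit 3) (nat_lit 304) (nat_lit 305) = true := by decide +kernel
def p14_22_0_305 : pfC (piC [(nat_lit 30365544), (nat_lit 20402210), (nat_lit 13167684)] (nat_lit 14872204)) p14_22_0 (nat_lit 3) (nat_lit 305) (nat_lit 306) = true := by decide +kernel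
def p14_22_0_306 : pfC (piC [(nat_lit 30365544), (nat_lit 20402210), (nat_lit 13167684)] (nat_lit 14872204)) p14_22_0 (nat_lit 3) (nat_lit 306) (nat_lit 307) = true := by decide +kernel
def p14_22_0_307 : pfC (piC [(nat_lit 30365544), (nat_lit 20402210), (nat_lit 13167684)] (nat_lit 14872204)) p14_22_0 (nat_lit 3) (nat_lit 307) (nat_lit 308) = true := by decide +kernel
def p14_22_0_308 : pfC (piC [(nat_lit 30365544), (nat_lit 20402210), (nat_lit 13167684)] (nat_lit 14872204)) p14_22_0 (nat_lit 3) (nat_lit 308) (nat_lit 309) = true := by decide +kernel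
def p14_22_0_309 : pfC (piC [(nat_lit 30365544), (nat_lit 20402210), (nat_lit 13167684)] (nat_lit 14872204)) p14_22_0 (nat_lit 3) (nat_lit 309) (nat_lit 310) = true := by decide +kernel
def p14_22_0_310 : pfC (piC [(nat_lit 30365544), (nat_lit 20402210), (nat_lit 13167684)] (nat_lit 14872204)) p14_22_0 (nat_lit 3) (nat_lit 310) (nat_lit 311) = true := by decide +kernel
def p14_22_0_311 : pfC (piC [(nat_lit 30365544), (nat_lit 20402210), (nat_lit 13167684)] (nat_lit 14872204)) p14_22_0 (nat_lit 3) (nat_lit 311) (nat_lit 312) = true := by decide +kernel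
def p14_22_0_312 : pfC (piC [(nat_lit 30365544), (nat_lit 20402210), (nat_lit 13167684)] (nat_lit 14872204)) p14_22_0 (nat_lit 3) (nat_lit 312) (nat_lit 313) = true := by decide +kernel
def p14_22_0_313 : pfC (piC [(nat_lit 30365544), (nat_lit 20402210), (nat_lit 13167684)] (nat_lit 14872204)) p14_22_0 (nat_lit 3) (nat_lit 313) (nat_lit 314) = true := by decide +kernel
def p14_22_0_314 : pfC (piC [(nat_lit 30365544), (nat_lit 20402210), (nat_lit 13167684)] (nat_lit 14872204)) p14_22_0 (nat_lit 3) (nat_lit 314) (nat_lit 315) = true := by decide +kernel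
def p14_22_0_315 : pfC (piC [(nat_lit 30365544), (nat_lit 20402210), (nat_lit 13167684)] (nat_lit 14872204)) p14_22_0 (nat_lit 3) (nat_lit 315) (nat_lit 316) = true := by decide +kernel
def p14_22_0_316 : pfC (piC [(nat_lit 30365544), (nat_lit 20402210), (nat_lit 13167684)] (nat_lit 14872204)) p14_22_0 (nat_lit 3) (nat_lit 316) (nat_lit 317) = true := by decide +kernel
def p14_22_0_317 : pfC (piC [(nat_lit 30365544), (nat_lit 20402210), (nat_lit 13167684)] (nat_lit 14872204)) p14_22_0 (nat_lit 3) (nat_lit 317) (nat_lit 318) = true := by decide +kernel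
def p14_22_0_318 : pfC (piC [(nat_lit 30365544), (nat_lit 20402210), (nat_lit 13167684)] (nat_lit 14872204)) p14_22_0 (nat_lit 3) (nat_lit 318) (nat_lit 319) = true := by decide +kernel
def p14_22_0_319 : pfC (piC [(nat_lit 30365544), (nat_lit 20402210), (nat_lit 13167684)] (nat_lit 14872204)) p14_22_0 (nat_lit 3) (nat_lit 319) (nat_lit 320) = true := by decide +kernel
def p14_22_0_320 : pfC (piC [(nat_lit 30365544), (nat_lit 20402210), (nat_lit 13167684)] (nat_lit 14872204)) p14_22_0 (nat_lit 3) (nat_lit 320) (nat_lit 321) = true := by decide +kernel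
def p14_22_0_321 : pfC (piC [(nat_lit 30365544), (nat_lit 20402210), (nat_lit 13167684)] (nat_lit 14872204)) p14_22_0 (nat_lit 3) (nat_lit 321) (nat_lit 322) = true := by decide +kernel
def p14_22_0_322 : pfC (piC [(nat_lit 30365544), (nat_lit 20402210), (nat_lit 13167684)] (nat_lit 14872204)) p14_22_0 (nat_lit 3) (nat_lit 322) (nat_lit 323) = true := by decide +kernel
def p14_22_0_323 : pfC (piC [(nat_lit 30365544), (nat_lit 20402210), (nat_lit 13167684)] (nat_lit 14872204)) p14_22_0 (nat_lit 3) (nat_lit 323) (nat_lit 324) = true := by decide +kernel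
def p14_22_0_324 : pfC (piC [(nat_lit 30365544), (nat_lit 20402210), (nat_lit 13167684)] (nat_lit 14872204)) p14_22_0 (nat_lit 3) (nat_lit 324) (nat_lit 325) = true := by decide +kernel
def p14_22_0_325 : pfC (piC [(nat_lit 30365544), (nat_lit 20402210), (nat_lit 13167684)] (nat_lit 14872204)) p14_22_0 (nat_lit 3) (nat_lit 325) (nat_lit 326) = true := by decide +kernel
def p14_22_0_326 : pfC (piC [(nat_lit 30365544), (nat_lit 20402210), (nat_lit 13167684)] (nat_lit 14872204)) p14_22_0 (nat_lit 3) (nat_lit 326) (nat_lit 327) = true := by decide +kernel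
def p14_22_0_327 : pfC (piC [(nat_lit 30365544), (nat_lit 20402210), (nat_lit 13167684)] (nat_lit 14872204)) p14_22_0 (nat_lit 3) (nat_lit 327) (nat_lit 328) = true := by decide +kernel
def p14_22_0_328 : pfC (piC [(nat_lit 30365544), (nat_lit 20402210), (nat_lit 13167684)] (nat_lit 14872204)) p14_22_0 (nat_lit 3) (nat_lit 328) (nat_lit 329) = true := by decide +kernel
def p14_22_0_329 : pfC (piC [(nat_lit 30365544), (nat_lit 20402210), (nat_lit 13167684)] (nat_lit 14872204)) p14_22_0 (nat_lit 3) (nat_lit 329) (nat_lit 330) = true := by decide +kernel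
def p14_22_0_330 : pfC (piC [(nat_lit 30365544), (nat_lit 20402210), (nat_lit 13167684)] (nat_lit 14872204)) p14_22_0 (nat_lit 3) (nat_lit 330) (nat_lit 331) = true := by decide +kernel
def p14_22_0_331 : pfC (piC [(nat_lit 30365544), (nat_lit 20402210), (nat_lit 13167684)] (nat_lit 14872204)) p14_22_0 (nat_lit 3) (nat_lit 331) (nat_lit 332) = true := by decide +kernel
def p14_22_0_332 : pfC (piC [(nat_lit 30365544), (nat_lit 20402210), (nat_lit 13167684)] (nat_lit 14872204)) p14_22_0 (nat_lit 3) (nat_lit 332) (nat_lit 333) = true := by decide +kernel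
def p14_22_0_333 : pfC (piC [(nat_lit 30365544), (nat_lit 20402210), (nat_lit 13167684)] (nat_lit 14872204)) p14_22_0 (nat_lit 3) (nat_lit 333) (nat_lit 334) = true := by decide +kernel
def p14_22_0_334 : pfC (piC [(nat_lit 30365544), (nat_lit 20402210), (nat_lit 13167684)] (nat_lit 14872204)) p14_22_0 (nat_lit 3) (nat_lit 334) (nat_lit 335) = true := by decide +kernel
def p14_22_0_335 : pfC (piC [(nat_lit 30365544), (nat_lit 20402210), (nat_lit 13167684)] (nat_lit 14872204)) p14_22_0 (nat_lit 3) (nat_lit 335) (nat_lit 336) = true := by decide +kernel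
def p14_22_0_336 : pfC (piC [(nat_lit 30365544), (nat_lit 20402210), (nat_lit 13167684)] (nat_lit 14872204)) p14_22_0 (nat_lit 3) (nat_lit 336) (nat_lit 337) = true := by decide +kernel
def p14_22_0_337 : pfC (piC [(nat_lit 30365544), (nat_lit 20402210), (nat_lit 13167684)] (nat_lit 14872204)) p14_22_0 (nat_lit 3) (nat_lit 337) (nat_lit 338) = true := by decide +kernel
def p14_22_0_338 : pfC (piC [(nat_lit 30365544), (nat_lit 20402210), (nat_lit 13167684)] (nat_lit 14872204)) p14_22_0 (nat_lit 3) (nat_lit 338) (nat_lit 339) = true := by decide +kernel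
def p14_22_0_339 : pfC (piC [(nat_lit 30365544), (nat_lit 20402210), (nat_lit 13167684)] (nat_lit 14872204)) p14_22_0 (nat_lit 3) (nat_lit 339) (nat_lit 340) = true := by decide +kernel
def p14_22_0_340 : pfC (piC [(nat_lit 30365544), (nat_lit 20402210), (nat_lit 13167684)] (nat_lit 14872204)) p14_22_0 (nat_lit 3) (nat_lit 340) (nat_lit 341) = true := by decide +kernel
def p14_22_0_341 : pfC (piC [(nat_lit 30365544), (nat_lit 20402210), (nat_lit 13167684)] (nat_lit 14872204)) p14_22_0 (nat_lit 3) (nat_lit 341) (nat_lit 342) = true := by decide +kernel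
def p14_22_0_342 : pfC (piC [(nat_lit 30365544), (nat_lit 20402210), (nat_lit 13167684)] (nat_lit 14872204)) p14_22_0 (nat_lit 3) (nat_lit 342) (nat_lit 343) = true := by decide +kernel
def p14_22_0_343 : pfC (piC [(nat_lit 30365544), (nat_lit 20402210), (nat_lit 13167684)] (nat_lit 14872204)) p14_22_0 (nat_lit 3) (nat_lit 343) (nat_lit 344) = true := by decide +kernel
def p14_22_0_344 : pfC (piC [(nat_lit 30365544), (nat_lit 20402210), (nat_lit 13167684)] (nat_lit 14872204)) p14_22_0 (nat_lit 3) (nat_lit 344) (nat_lit 345) = true := by decide +kernel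
def p14_22_0_345 : pfC (piC [(nat_lit 30365544), (nat_lit 20402210), (nat_lit 13167684)] (nat_lit 14872204)) p14_22_0 (nat_lit 3) (nat_lit 345) (nat_lit 346) = true := by decide +kernel
def p14_22_0_346 : pfC (piC [(nat_lit 30365544), (nat_lit 20402210), (nat_lit 13167684)] (nat_lit 14872204)) p14_22_0 (nat_lit 3) (nat_lit 346) (nat_lit 347) = true := by decide +kernel
def p14_22_0_347 : pfC (piC [(nat_lit 30365544), (nat_lit 20402210), (nat_lit 13167684)] (nat_lit 14872204)) p14_22_0 (nat_lit 3) (nat_lit 347) (nat_lit 348) = true := by decide +kernel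
def p14_22_0_348 : pfC (piC [(nat_lit 30365544), (nat_lit 20402210), (nat_lit 13167684)] (nat_lit 14872204)) p14_22_0 (nat_lit 3) (nat_lit 348) (nat_lit 349) = true := by decide +kernel
def p14_22_0_349 : pfC (piC [(nat_lit 30365544), (nat_lit 20402210), (nat_lit 13167684)] (nat_lit 14872204)) p14_22_0 (nat_lit 3) (nat_lit 349) (nat_lit 350) = true := by decide +kernel
theorem p14_22_0_T : PfS (PiF n14_22.reverse (nat_lit 14872204)) p14_22_0 (nat_lit 3) [] 0 :=
  pftab_of (los := [(nat_lit 30365544), (nat_lit 20402210), (nat_lit 13167684)]) (by decide +kernel) (hi := (nat_lit 350)) (PfP.trans (PfP.trans (PfP.trans (PfP.trans (PfP.trans (PfP.trans (PfP.trans (PfP.trans (PfP.trans (PfP.trans (PfP.trans (PfP.trans (PfP.trans (PfP.trans (PfP.trans (PfP.trans (PfP.trans (PfP.trans (PfP.trans (PfP.trans (PfP.trans (PfP.trans (PfP.trans (PfP.trans (PfP.trans (PfP.trans (PfP.trans (PfP.trans (PfP.trans (PfP.trans (PfP.trans (PfP.trans (PfP.trans (PfP.trans (PfP.trans (PfP.trans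 (PfP.trans (PfP.trans (PfP.trans (PfP.trans (PfP.trans (PfP.trans (PfP.trans (PfP.trans (PfP.trans (PfP.trans (PfP.trans (PfP.trans (PfP.trans (PfP.trans (PfP.trans (PfP.trans (PfP.trans (PfP.trans (PfP.trans (PfP.trans (PfP.trans (PfP.trans (PfP.trans (PfP.trans (PfP.trans (PfP.trans (PfP.trans (PfP.trans (PfP.trans (PfP.trans (PfP.trans (PfP.trans (PfP.trans (PfP.trans (PfP.trans (PfP.trans (PfP.trans (PfP.trans (PfP.trans (PfP.trans (PfP.trans (PfP.trans (PfP.trans (PfP.trans (PfP.trans (PfP.trans (PfP.trans (PfP.trans (PfP.trans (PfP.trans (PfP.trans (PfP.trans (PfP.trans (PfP.trans (PfP.trans (PfP.trans (PfP.trans (PfP.trans (PfP.trans (PfP.trans (PfP.trans (PfP.trans (PfP.trans (PfP.trans (PfP.trans (PfP.trans (PfP.trans (PfP.trans (PfP.trans (PfP.trans (PfP.trans (PfP.trans (PfP.trans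
 (PfP.trans (PfP.trans (PfP.trans (PfP.trans (PfP.trans (PfP.trans (PfP.trans (PfP.trans (PfP.trans (PfP.trans (PfP.trans (PfP.trans (PfP.trans (PfP.trans (PfP.trans (PfP.trans (PfP.trans (PfP.trans (PfP.trans (PfP.trans (PfP.trans (PfP.trans (PfP.trans (PfP.trans (PfP.trans (PfP.trans (PfP.trans (PfP.trans (PfP.trans (PfP.trans (PfP.trans (PfP.trans (PfP.trans (PfP.trans (PfP.trans (PfP.trans (PfP.trans (PfP.trans (PfP.trans (PfP.trans (PfP.trans (PfP.trans (PfP.trans (PfP.trans (PfP.trans (PfP.trans (PfP.trans (PfP.trans (PfP.trans (PfP.trans (PfP.trans (PfP.trans (PfP.trans (PfP.trans (PfP.trans (PfP.trans (PfP.trans (PfP.trans (PfP.trans (PfP.trans (PfP.trans (PfP.trans (PfP.trans (PfP.trans (PfP.trans (PfP.trans (PfP.trans (PfP.trans (PfP.trans (PfP.trans (PfP.trans (PfP.trans (PfP.trans (PfP.trans (PfP.trans (PfP.trans (PfP.trans (PfP.trans (PfP.trans (PfP.trans (PfP.trans (PfP.trans (PfP.trans (PfP.trans (PfP.trans (PfP.trans (PfP.trans (PfP.trans (PfP.trans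 (PfP.trans (PfP.trans (PfP.trans (PfP.trans (PfP.trans (PfP.trans (PfP.trans (PfP.trans (PfP.trans (PfP.trans (PfP.trans (PfP.trans (PfP.trans (PfP.trans (PfP.trans (PfP.trans (PfP.trans (PfP.trans (PfP.trans (PfP.trans
 (PfP.trans (PfP.trans (PfP.trans (PfP.trans (PfP.trans (PfP.trans (PfP.trans (PfP.trans (PfP.trans (PfP.trans (PfP.trans (PfP.trans (PfP.trans (PfP.trans (PfP.trans (PfP.trans (PfP.trans (PfP.trans (PfP.trans (PfP.trans (PfP.trans (PfP.trans (PfP.trans (PfP.trans (PfP.trans (PfP.trans (PfP.trans (PfP.trans (PfP.trans (PfP.trans (PfP.trans (PfP.trans (PfP.trans (PfP.trans (PfP.trans (PfP.trans (PfP.trans (PfP.trans (PfP.trans (PfP.trans (PfP.trans (PfP.trans (PfP.trans (PfP.trans (PfP.trans (PfP.trans (PfP.trans (PfP.trans (PfP.trans (PfP.trans (PfP.trans (PfP.trans (PfP.trans (PfP.trans (PfP.trans (PfP.trans (PfP.trans (PfP.trans (PfP.trans (PfP.trans (PfP.trans (PfP.trans (PfP.trans (PfP.trans (PfP.trans (PfP.trans (PfP.trans (PfP.trans (PfP.trans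 (PfP.trans (PfP.trans (PfP.trans (PfP.trans (PfP.trans (PfP.trans (PfP.trans (PfP.trans (PfP.trans (PfP.trans (PfP.trans (PfP.trans (PfP.trans (PfP.trans (PfP.trans (PfP.trans (PfP.trans (PfP.trans (PfP.trans (PfP.trans (PfP.trans (PfP.trans (PfP.trans (PfP.trans (PfP.trans (PfP.trans (PfP.trans (PfP.trans (PfP.trans (PfP.trans (PfP.trans (PfP.trans (PfP.trans (PfP.trans (PfP.trans (PfP.trans (PfP.trans (PfP.trans (PfP.trans (PfP.trans
 (PfP.trans (PfP.trans (PfP.trans (PfP.trans (PfP.trans (PfP.trans (PfP.trans (PfP.trans (PfP.trans (PfP.trans (PfP.trans (PfP.trans (PfP.trans (PfP.trans (PfP.trans (PfP.trans (PfP.trans (PfP.trans (PfP.trans (PfP.trans (PfP.trans (PfP.trans (pfC_sound p14_22_0_0) (pfC_sound p14_22_0_1)) (pfC_sound p14_22_0_2)) (pfC_sound p14_22_0_3)) (pfC_sound p14_22_0_4)) (pfC_sound p14_22_0_5)) (pfC_sound p14_22_0_6)) (pfC_sound p14_22_0_7)) (pfC_sound p14_22_0_8)) (pfC_sound p14_22_0_9)) (pfC_sound p14_22_0_10)) (pfC_sound p14_22_0_11)) (pfC_sound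 p14_22_0_12)) (pfC_sound p14_22_0_13)) (pfC_sound p14_22_0_14)) (pfC_sound p14_22_0_15)) (pfC_sound p14_22_0_16)) (pfC_sound p14_22_0_17)) (pfC_sound p14_22_0_18)) (pfC_sound p14_22_0_19)) (pfC_sound p14_22_0_20)) (pfC_sound p14_22_0_21)) (pfC_sound p14_22_0_22)) (pfC_sound p14_22_0_23)) (pfC_sound p14_22_0_24)) (pfC_sound p14_22_0_25)) (pfC_sound p14_22_0_26)) (pfC_sound p14_22_0_27)) (pfC_sound p14_22_0_28)) (pfC_sound p14_22_0_29)) (pfC_sound p14_22_0_30)) (pfC_sound p14_22_0_31)) (pfC_sound p14_22_0_32)) (pfC_sound p14_22_0_33)) (pfC_sound p14_22_0_34)) (pfC_sound p14_22_0_35)) (pfC_sound p14_22_0_36)) (pfC_sound p14_22_0_37)) (pfC_sound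
 p14_22_0_38)) (pfC_sound p14_22_0_39)) (pfC_sound p14_22_0_40)) (pfC_sound p14_22_0_41)) (pfC_sound p14_22_0_42)) (pfC_sound p14_22_0_43)) (pfC_sound p14_22_0_44)) (pfC_sound p14_22_0_45)) (pfC_sound p14_22_0_46)) (pfC_sound p14_22_0_47)) (pfC_sound p14_22_0_48)) (pfC_sound p14_22_0_49)) (pfC_sound p14_22_0_50)) (pfC_sound p14_22_0_51)) (pfC_sound p14_22_0_52)) (pfC_sound p14_22_0_53)) (pfC_sound p14_22_0_54)) (pfC_sound p14_22_0_55)) (pfC_sound p14_22_0_56)) (pfC_sound p14_22_0_57)) (pfC_sound p14_22_0_58)) (pfC_sound p14_22_0_59)) (pfC_sound p14_22_0_60)) (pfC_sound p14_22_0_61)) (pfC_sound p14_22_0_62)) (pfC_sound p14_22_0_63)) (pfC_sound p14_22_0_64)) (pfC_sound p14_22_0_65)) (pfC_sound p14_22_0_66)) (pfC_sound p14_22_0_67)) (pfC_sound p14_22_0_68)) (pfC_sound p14_22_0_69)) (pfC_sound p14_22_0_70)) (pfC_sound p14_22_0_71)) (pfC_sound p14_22_0_72)) (pfC_sound p14_22_0_73)) (pfC_sound p14_22_0_74)) (pfC_sound p14_22_0_75)) (pfC_sound p14_22_0_76)) (pfC_sound p14_22_0_77))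 (pfC_sound p14_22_0_78)) (pfC_sound p14_22_0_79)) (pfC_sound p14_22_0_80)) (pfC_sound p14_22_0_81)) (pfC_sound p14_22_0_82)) (pfC_sound p14_22_0_83)) (pfC_sound p14_22_0_84)) (pfC_sound p14_22_0_85)) (pfC_sound
 p14_22_0_86)) (pfC_sound p14_22_0_87)) (pfC_sound p14_22_0_88)) (pfC_sound p14_22_0_89)) (pfC_sound p14_22_0_90)) (pfC_sound p14_22_0_91)) (pfC_sound p14_22_0_92)) (pfC_sound p14_22_0_93)) (pfC_sound p14_22_0_94)) (pfC_sound p14_22_0_95)) (pfC_sound p14_22_0_96)) (pfC_sound p14_22_0_97)) (pfC_sound p14_22_0_98)) (pfC_sound p14_22_0_99)) (pfC_sound p14_22_0_100)) (pfC_sound p14_22_0_101)) (pfC_sound p14_22_0_102)) (pfC_sound p14_22_0_103)) (pfC_sound p14_22_0_104)) (pfC_sound p14_22_0_105)) (pfC_sound p14_22_0_106)) (pfC_sound p14_22_0_107)) (pfC_sound p14_22_0_108)) (pfC_sound p14_22_0_109)) (pfC_sound p14_22_0_110)) (pfC_sound p14_22_0_111)) (pfC_sound p14_22_0_112)) (pfC_sound p14_22_0_113)) (pfC_sound p14_22_0_114)) (pfC_sound p14_22_0_115)) (pfC_sound p14_22_0_116))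 (pfC_sound p14_22_0_117)) (pfC_sound p14_22_0_118)) (pfC_sound p14_22_0_119)) (pfC_sound p14_22_0_120)) (pfC_sound p14_22_0_121)) (pfC_sound p14_22_0_122)) (pfC_sound p14_22_0_123)) (pfC_sound p14_22_0_124)) (pfC_sound p14_22_0_125)) (pfC_sound p14_22_0_126)) (pfC_sound p14_22_0_127)) (pfC_sound p14_22_0_128)) (pfC_sound p14_22_0_129)) (pfC_sound p14_22_0_130)) (pfC_sound p14_22_0_131)) (pfC_sound p14_22_0_132))
 (pfC_sound p14_22_0_133)) (pfC_sound p14_22_0_134)) (pfC_sound p14_22_0_135)) (pfC_sound p14_22_0_136)) (pfC_sound p14_22_0_137)) (pfC_sound p14_22_0_138)) (pfC_sound p14_22_0_139)) (pfC_sound p14_22_0_140)) (pfC_sound p14_22_0_141)) (pfC_sound p14_22_0_142)) (pfC_sound p14_22_0_143)) (pfC_sound p14_22_0_144)) (pfC_sound p14_22_0_145)) (pfC_sound p14_22_0_146)) (pfC_sound p14_22_0_147)) (pfC_sound p14_22_0_148)) (pfC_sound p14_22_0_149)) (pfC_sound p14_22_0_150)) (pfC_sound p14_22_0_151)) (pfC_sound p14_22_0_152)) (pfC_sound p14_22_0_153)) (pfC_sound p14_22_0_154))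 (pfC_sound p14_22_0_155)) (pfC_sound p14_22_0_156)) (pfC_sound p14_22_0_157)) (pfC_sound p14_22_0_158)) (pfC_sound p14_22_0_159)) (pfC_sound p14_22_0_160)) (pfC_sound p14_22_0_161)) (pfC_sound p14_22_0_162)) (pfC_sound p14_22_0_163)) (pfC_sound p14_22_0_164)) (pfC_sound p14_22_0_165)) (pfC_sound p14_22_0_166)) (pfC_sound p14_22_0_167)) (pfC_sound p14_22_0_168)) (pfC_sound p14_22_0_169)) (pfC_sound p14_22_0_170)) (pfC_sound p14_22_0_171)) (pfC_sound p14_22_0_172)) (pfC_sound p14_22_0_173)) (pfC_sound p14_22_0_174)) (pfC_sound p14_22_0_175)) (pfC_sound p14_22_0_176)) (pfC_sound p14_22_0_177)) (pfC_sound p14_22_0_178))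
 (pfC_sound p14_22_0_179)) (pfC_sound p14_22_0_180)) (pfC_sound p14_22_0_181)) (pfC_sound p14_22_0_182)) (pfC_sound p14_22_0_183)) (pfC_sound p14_22_0_184)) (pfC_sound p14_22_0_185)) (pfC_sound p14_22_0_186)) (pfC_sound p14_22_0_187)) (pfC_sound p14_22_0_188)) (pfC_sound p14_22_0_189)) (pfC_sound p14_22_0_190)) (pfC_sound p14_22_0_191)) (pfC_sound p14_22_0_192)) (pfC_sound p14_22_0_193)) (pfC_sound p14_22_0_194)) (pfC_sound p14_22_0_195)) (pfC_sound p14_22_0_196)) (pfC_sound p14_22_0_197)) (pfC_sound p14_22_0_198)) (pfC_sound p14_22_0_199)) (pfC_sound p14_22_0_200)) (pfC_sound p14_22_0_201)) (pfC_sound p14_22_0_202)) (pfC_sound p14_22_0_203)) (pfC_sound p14_22_0_204)) (pfC_sound p14_22_0_205)) (pfC_sound p14_22_0_206)) (pfC_sound p14_22_0_207)) (pfC_sound p14_22_0_208)) (pfC_sound p14_22_0_209)) (pfC_sound p14_22_0_210)) (pfC_sound p14_22_0_211)) (pfC_sound p14_22_0_212)) (pfC_sound p14_22_0_213)) (pfC_sound p14_22_0_214)) (pfC_sound p14_22_0_215)) (pfC_sound p14_22_0_216))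 (pfC_sound p14_22_0_217)) (pfC_sound p14_22_0_218)) (pfC_sound p14_22_0_219)) (pfC_sound p14_22_0_220)) (pfC_sound p14_22_0_221)) (pfC_sound p14_22_0_222)) (pfC_sound p14_22_0_223)) (pfC_sound p14_22_0_224))
 (pfC_sound p14_22_0_225)) (pfC_sound p14_22_0_226)) (pfC_sound p14_22_0_227)) (pfC_sound p14_22_0_228)) (pfC_sound p14_22_0_229)) (pfC_sound p14_22_0_230)) (pfC_sound p14_22_0_231)) (pfC_sound p14_22_0_232)) (pfC_sound p14_22_0_233)) (pfC_sound p14_22_0_234)) (pfC_sound p14_22_0_235)) (pfC_sound p14_22_0_236)) (pfC_sound p14_22_0_237)) (pfC_sound p14_22_0_238)) (pfC_sound p14_22_0_239)) (pfC_sound p14_22_0_240)) (pfC_sound p14_22_0_241)) (pfC_sound p14_22_0_242)) (pfC_sound p14_22_0_243)) (pfC_sound p14_22_0_244)) (pfC_sound p14_22_0_245)) (pfC_sound p14_22_0_246)) (pfC_sound p14_22_0_247)) (pfC_sound p14_22_0_248)) (pfC_sound p14_22_0_249)) (pfC_sound p14_22_0_250)) (pfC_sound p14_22_0_251)) (pfC_sound p14_22_0_252)) (pfC_sound p14_22_0_253)) (pfC_sound p14_22_0_254))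 (pfC_sound p14_22_0_255)) (pfC_sound p14_22_0_256)) (pfC_sound p14_22_0_257)) (pfC_sound p14_22_0_258)) (pfC_sound p14_22_0_259)) (pfC_sound p14_22_0_260)) (pfC_sound p14_22_0_261)) (pfC_sound p14_22_0_262)) (pfC_sound p14_22_0_263)) (pfC_sound p14_22_0_264)) (pfC_sound p14_22_0_265)) (pfC_sound p14_22_0_266)) (pfC_sound p14_22_0_267)) (pfC_sound p14_22_0_268)) (pfC_sound p14_22_0_269)) (pfC_sound p14_22_0_270))
 (pfC_sound p14_22_0_271)) (pfC_sound p14_22_0_272)) (pfC_sound p14_22_0_273)) (pfC_sound p14_22_0_274)) (pfC_sound p14_22_0_275)) (pfC_sound p14_22_0_276)) (pfC_sound p14_22_0_277)) (pfC_sound p14_22_0_278)) (pfC_sound p14_22_0_279)) (pfC_sound p14_22_0_280)) (pfC_sound p14_22_0_281)) (pfC_sound p14_22_0_282)) (pfC_sound p14_22_0_283)) (pfC_sound p14_22_0_284)) (pfC_sound p14_22_0_285)) (pfC_sound p14_22_0_286)) (pfC_sound p14_22_0_287)) (pfC_sound p14_22_0_288)) (pfC_sound p14_22_0_289)) (pfC_sound p14_22_0_290)) (pfC_sound p14_22_0_291)) (pfC_sound p14_22_0_292))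 (pfC_sound p14_22_0_293)) (pfC_sound p14_22_0_294)) (pfC_sound p14_22_0_295)) (pfC_sound p14_22_0_296)) (pfC_sound p14_22_0_297)) (pfC_sound p14_22_0_298)) (pfC_sound p14_22_0_299)) (pfC_sound p14_22_0_300)) (pfC_sound p14_22_0_301)) (pfC_sound p14_22_0_302)) (pfC_sound p14_22_0_303)) (pfC_sound p14_22_0_304)) (pfC_sound p14_22_0_305)) (pfC_sound p14_22_0_306)) (pfC_sound p14_22_0_307)) (pfC_sound p14_22_0_308)) (pfC_sound p14_22_0_309)) (pfC_sound p14_22_0_310)) (pfC_sound p14_22_0_311)) (pfC_sound p14_22_0_312)) (pfC_sound p14_22_0_313)) (pfC_sound p14_22_0_314)) (pfC_sound p14_22_0_315)) (pfC_sound p14_22_0_316))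
 (pfC_sound p14_22_0_317)) (pfC_sound p14_22_0_318)) (pfC_sound p14_22_0_319)) (pfC_sound p14_22_0_320)) (pfC_sound p14_22_0_321)) (pfC_sound p14_22_0_322)) (pfC_sound p14_22_0_323)) (pfC_sound p14_22_0_324)) (pfC_sound p14_22_0_325)) (pfC_sound p14_22_0_326)) (pfC_sound p14_22_0_327)) (pfC_sound p14_22_0_328)) (pfC_sound p14_22_0_329)) (pfC_sound p14_22_0_330)) (pfC_sound p14_22_0_331)) (pfC_sound p14_22_0_332)) (pfC_sound p14_22_0_333)) (pfC_sound p14_22_0_334)) (pfC_sound p14_22_0_335)) (pfC_sound p14_22_0_336)) (pfC_sound p14_22_0_337)) (pfC_sound p14_22_0_338)) (pfC_sound p14_22_0_339)) (pfC_sound p14_22_0_340)) (pfC_sound p14_22_0_341)) (pfC_sound p14_22_0_342)) (pfC_sound p14_22_0_343)) (pfC_sound p14_22_0_344)) (pfC_sound p14_22_0_345)) (pfC_sound p14_22_0_346)) (pfC_sound p14_22_0_347)) (pfC_sound p14_22_0_348)) (pfC_sound p14_22_0_349)) (by decide +kernel)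

def z14_22_0 : zOK yB14_22 (nat_lit 0) (nat_lit 0) (nat_lit 400) (nat_lit 14872204) (nat_lit 11363143) = true := by decide +kernel
def g14_22_0 : gOK yB14_22.x P14_22 (nat_lit 1344) (q14_22 :: r14_22) (nat_lit 0) (nat_lit 0) (nat_lit 1) (nat_lit 400) (nat_lit 0) (nat_lit 11000000) (nat_lit 12712500) (nat_lit 12712500) [(nat_lit 800), (nat_lit 1600)] = true := by decide +kernel
def p14_22_1 : PF := (PF.cons (PF.cons (PF.cons (PF.leaf (nat_lit 1890913) (nat_lit 8437416) (nat_lit 58671396) (nat_lit 8437416) [(nat_lit 0), (nat_lit 0), (nat_lit 0)]) (PF.cons (PF.leaf (nat_lit 2277605) (nat_lit 785446) (nat_lit 57801554) (nat_lit 8521811) [(nat_lit 785446), (nat_lit 0), (nat_lit 0)]) (PF.cons (PF.leaf (nat_lit 2729864) (nat_lit 854219) (nat_lit 56797844) (nat_lit 8602530) [(nat_lit 854219), (nat_lit 0), (nat_lit 0)]) (PF.cons (PF.leaf (nat_lit 3233727) (nat_lit 913723) (nat_lit 55694616) (nat_lit 8673025) [(nat_lit 913723), (nat_lit 0), (nat_lit 0)]) (PF.cons (PF.leaf (nat_lit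 3778559) (nat_lit 965364) (nat_lit 54517922) (nat_lit 8729433) [(nat_lit 965364), (nat_lit 0), (nat_lit 0)]) (PF.cons (PF.leaf (nat_lit 4355536) (nat_lit 1010063) (nat_lit 53288784) (nat_lit 8769711) [(nat_lit 1010063), (nat_lit 0), (nat_lit 0)]) (PF.cons (PF.leaf (nat_lit 4957083) (nat_lit 1048515) (nat_lit 52024643) (nat_lit 8793078) [(nat_lit 1048515), (nat_lit 0), (nat_lit 0)]) (PF.cons (PF.leaf (nat_lit 5576659) (nat_lit 1081297) (nat_lit 50740104) (nat_lit 8799625) [(nat_lit 1081297), (nat_lit 0), (nat_lit 0)]) (PF.cons (PF.leaf (nat_lit 6208593) (nat_lit 1108924) (nat_lit 49447388) (nat_lit 8790030)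
 [(nat_lit 1108924), (nat_lit 0), (nat_lit 0)]) (PF.cons (PF.leaf (nat_lit 6847975) (nat_lit 1131867) (nat_lit 48156655) (nat_lit 8765347) [(nat_lit 1131867), (nat_lit 0), (nat_lit 0)]) (PF.cons (PF.leaf (nat_lit 7490642) (nat_lit 1150569) (nat_lit 46876263) (nat_lit 8726855) [(nat_lit 1150569), (nat_lit 0), (nat_lit 0)]) (PF.cons (PF.leaf (nat_lit 8133042) (nat_lit 1165443) (nat_lit 45612992) (nat_lit 8675945) [(nat_lit 1165443), (nat_lit 0), (nat_lit 0)]) (PF.cons (PF.leaf (nat_lit 8772219) (nat_lit 1176876) (nat_lit 44372253) (nat_lit 8614039) [(nat_lit 1176876), (nat_lit 0), (nat_lit 0)]) (PF.cons (PF.leaf (nat_lit 9405725) (nat_lit 1185231) (nat_lit 43158269) (nat_lit 8542536) [(nat_lit 1185231), (nat_lit 0), (nat_lit 0)]) (PF.cons (PF.leaf (nat_lit 10031565) (nat_lit 1190842) (nat_lit 41974249) (nat_lit 8462773) [(nat_lit 1190842), (nat_lit 0), (nat_lit 0)]) (PF.cons (PF.leaf (nat_lit 10648131) (nat_lit 1194017) (nat_lit 40822541) (nat_lit 8376004) [(nat_lit 1194017),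 (nat_lit 0), (nat_lit 0)]) (PF.cons PF.nil (PF.cons PF.nil (PF.cons PF.nil (PF.cons PF.nil PF.nil)))))))))))))))))))) (PF.cons (PF.cons (PF.leaf (nat_lit 2937134) (nat_lit 2918227) (nat_lit 55539819) (nat_lit
 8650766) [(nat_lit 0), (nat_lit 2918227), (nat_lit 0)]) (PF.cons (PF.leaf (nat_lit 3415421) (nat_lit 924907) (nat_lit 54484871) (nat_lit 8701641) [(nat_lit 924907), (nat_lit 2997391), (nat_lit 0)]) (PF.cons (PF.leaf (nat_lit 3937712) (nat_lit 974064) (nat_lit 53351676) (nat_lit 8740610) [(nat_lit 974064), (nat_lit 3068396), (nat_lit 0)]) (PF.cons (PF.leaf (nat_lit 4493785) (nat_lit 1016340) (nat_lit 52164254) (nat_lit 8765504) [(nat_lit 1016340), (nat_lit 3130033), (nat_lit 0)]) (PF.cons (PF.leaf (nat_lit 5075497) (nat_lit 1052525) (nat_lit 50941310) (nat_lit 8775440) [(nat_lit 1052525), (nat_lit 3181960), (nat_lit 0)]) (PF.cons (PF.leaf (nat_lit 5676041) (nat_lit 1083238) (nat_lit 49697903) (nat_lit 8770395) [(nat_lit 1083238), (nat_lit 3224320), (nat_lit 0)])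 (PF.cons (PF.leaf (nat_lit 6289658) (nat_lit 1109009) (nat_lit 48446308) (nat_lit 8750915) [(nat_lit 1109009), (nat_lit 3257532), (nat_lit 0)]) (PF.cons (PF.leaf (nat_lit 6911433) (nat_lit 1130310) (nat_lit 47196554) (nat_lit 8717912) [(nat_lit 1130310), (nat_lit 3282175), (nat_lit 0)]) (PF.cons (PF.leaf (nat_lit 7537223) (nat_lit 1147574) (nat_lit 45956784) (nat_lit 8672518) [(nat_lit 1147574), (nat_lit 3298917), (nat_lit
 0)]) (PF.cons (PF.leaf (nat_lit 8163512) (nat_lit 1161203) (nat_lit 44733549) (nat_lit 8615973) [(nat_lit 1161203), (nat_lit 3308459), (nat_lit 0)]) (PF.cons (PF.leaf (nat_lit 8787363) (nat_lit 1171570) (nat_lit 43532037) (nat_lit 8549556) [(nat_lit 1171570), (nat_lit 3311509), (nat_lit 0)]) (PF.cons (PF.leaf (nat_lit 9406371) (nat_lit 1179022) (nat_lit 42356281) (nat_lit 8474528) [(nat_lit 1179022), (nat_lit 3308757), (nat_lit 0)]) (PF.cons (PF.leaf (nat_lit 10018550) (nat_lit 1183876) (nat_lit 41209333) (nat_lit 8392102) [(nat_lit 1183876), (nat_lit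 3300860), (nat_lit 0)]) (PF.cons (PF.leaf (nat_lit 10622286) (nat_lit 1186426) (nat_lit 40093418) (nat_lit 8303413) [(nat_lit 1186426), (nat_lit 3288436), (nat_lit 0)]) (PF.cons PF.nil (PF.cons PF.nil (PF.cons PF.nil (PF.cons PF.nil PF.nil)))))))))))))))))) (PF.cons (PF.cons (PF.leaf (nat_lit 4098765) (nat_lit 3094430) (nat_lit 52180655) (nat_lit 8739296) [(nat_lit 0), (nat_lit 3094430), (nat_lit 0)]) (PF.cons (PF.leaf (nat_lit 4631322) (nat_lit 1019848) (nat_lit 51043824) (nat_lit 8750708) [(nat_lit 1019848), (nat_lit 3147216), (nat_lit 0)]) (PF.cons (PF.leaf (nat_lit 5191751) (nat_lit 1054283) (nat_lit 49867983) (nat_lit 8748927)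
 [(nat_lit 1054283), (nat_lit 3191667), (nat_lit 0)]) (PF.cons (PF.leaf (nat_lit 5772495) (nat_lit 1083330) (nat_lit 48669670) (nat_lit 8733807) [(nat_lit 1083330), (nat_lit 3227671), (nat_lit 0)]) (PF.cons (PF.leaf (nat_lit 6367458) (nat_lit 1107567) (nat_lit 47461817) (nat_lit 8705771) [(nat_lit 1107567), (nat_lit 3255476), (nat_lit 0)]) (PF.cons (PF.leaf (nat_lit 6971579) (nat_lit 1127490) (nat_lit 46254698) (nat_lit 8665602) [(nat_lit 1127490), (nat_lit 3275530), (nat_lit 0)]) (PF.cons (PF.leaf (nat_lit 7580624) (nat_lit 1143537) (nat_lit 45056504) (nat_lit 8614296) [(nat_lit 1143537), (nat_lit 3288394), (nat_lit 0)]) (PF.cons (PF.leaf (nat_lit 8191050) (nat_lit 1156107) (nat_lit 43873737) (nat_lit 8552964) [(nat_lit 1156107), (nat_lit 3294680), (nat_lit 0)]) (PF.cons (PF.leaf (nat_lit 8799922) (nat_lit 1165564) (nat_lit 42711503) (nat_lit 8482757) [(nat_lit 1165564), (nat_lit 3295017), (nat_lit 0)]) (PF.cons (PF.leaf (nat_lit 9404799) (nat_lit 1172244) (nat_lit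 41573742) (nat_lit 8404815) [(nat_lit 1172244), (nat_lit 3290027), (nat_lit 0)]) (PF.cons (PF.leaf (nat_lit 10003705) (nat_lit 1176453) (nat_lit 40463429) (nat_lit 8320236) [(nat_lit 1176453), (nat_lit 3280306),
 (nat_lit 0)]) (PF.cons (PF.leaf (nat_lit 10595012) (nat_lit 1178472) (nat_lit 39382728) (nat_lit 8230053) [(nat_lit 1178472), (nat_lit 3266419), (nat_lit 0)]) (PF.cons (PF.leaf (nat_lit 11177454) (nat_lit 1178556) (nat_lit 38333136) (nat_lit 8135224) [(nat_lit 1178556), (nat_lit 3248888), (nat_lit 0)]) (PF.cons PF.nil (PF.cons PF.nil (PF.cons PF.nil PF.nil)))))))))))))))) (PF.cons (PF.cons (PF.leaf (nat_lit 5308413) (nat_lit 3197334) (nat_lit 48802570) (nat_lit 8714239) [(nat_lit 0), (nat_lit 3197334), (nat_lit 0)]) (PF.cons (PF.leaf (nat_lit 5867943) (nat_lit 1081594) (nat_lit 47653940) (nat_lit 8690488) [(nat_lit 1081594), (nat_lit 3227596), (nat_lit 0)]) (PF.cons (PF.leaf (nat_lit 6443539) (nat_lit 1104637) (nat_lit 46492759) (nat_lit 8655147) [(nat_lit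 1104637), (nat_lit 3250543), (nat_lit 0)]) (PF.cons (PF.leaf (nat_lit 7029676) (nat_lit 1123452) (nat_lit 45330090) (nat_lit 8608888) [(nat_lit 1123452), (nat_lit 3266492), (nat_lit 0)]) (PF.cons (PF.leaf (nat_lit 7621902) (nat_lit 1138502) (nat_lit 44174509) (nat_lit 8552593) [(nat_lit 1138502), (nat_lit 3275899), (nat_lit 0)]) (PF.cons (PF.leaf (nat_lit 8216573) (nat_lit 1150195) (nat_lit 43032692) (nat_lit 8487259) [(nat_lit
 1150195), (nat_lit 3279294), (nat_lit 0)]) (PF.cons (PF.leaf (nat_lit 8810659) (nat_lit 1158895) (nat_lit 41909816) (nat_lit 8413926) [(nat_lit 1158895), (nat_lit 3277233), (nat_lit 0)]) (PF.cons (PF.leaf (nat_lit 9401677) (nat_lit 1164930) (nat_lit 40809847) (nat_lit 8333628) [(nat_lit 1164930), (nat_lit 3270273), (nat_lit 0)]) (PF.cons (PF.leaf (nat_lit 9987612) (nat_lit 1168601) (nat_lit 39735761) (nat_lit 8247365) [(nat_lit 1168601), (nat_lit 3258958), (nat_lit 0)]) (PF.cons (PF.leaf (nat_lit 10566809) (nat_lit 1170178) (nat_lit 38689723)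 (nat_lit 8156079) [(nat_lit 1170178), (nat_lit 3243800), (nat_lit 0)]) (PF.cons (PF.leaf (nat_lit 11137972) (nat_lit 1169909) (nat_lit 37673234) (nat_lit 8060643) [(nat_lit 1169909), (nat_lit 3225281), (nat_lit 0)]) (PF.cons PF.nil (PF.cons PF.nil (PF.cons PF.nil PF.nil)))))))))))))) (PF.cons (PF.cons (PF.leaf (nat_lit 6519721) (nat_lit 3242987) (nat_lit 45537388) (nat_lit 8599475) [(nat_lit 0), (nat_lit 3242987), (nat_lit 0)]) (PF.cons (PF.leaf (nat_lit 7087120) (nat_lit 1118211) (nat_lit 44421356) (nat_lit 8548152) [(nat_lit 1118211), (nat_lit 3255273), (nat_lit 0)]) (PF.cons (PF.leaf (nat_lit 7662211) (nat_lit 1132494) (nat_lit 43309636)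
 (nat_lit 8487738) [(nat_lit 1132494), (nat_lit 3261612), (nat_lit 0)]) (PF.cons (PF.leaf (nat_lit 8241019) (nat_lit 1143495) (nat_lit 42209382) (nat_lit 8419137) [(nat_lit 1143495), (nat_lit 3262451), (nat_lit 0)]) (PF.cons (PF.leaf (nat_lit 8820370) (nat_lit 1151588) (nat_lit 41126037) (nat_lit 8343297) [(nat_lit 1151588), (nat_lit 3258281), (nat_lit 0)]) (PF.cons (PF.leaf (nat_lit 9397679) (nat_lit 1157105) (nat_lit 40063721) (nat_lit 8261163) [(nat_lit 1157105), (nat_lit 3249600), (nat_lit 0)]) (PF.cons (PF.leaf (nat_lit 9970848) (nat_lit 1160342) (nat_lit 39025507) (nat_lit 8173648) [(nat_lit 1160342), (nat_lit 3236901), (nat_lit 0)]) (PF.cons (PF.leaf (nat_lit 10538174) (nat_lit 1161565) (nat_lit 38013628) (nat_lit 8081618) [(nat_lit 1161565), (nat_lit 3220651), (nat_lit 0)]) (PF.cons (PF.leaf (nat_lit 11098303) (nat_lit 1161014) (nat_lit 37029642) (nat_lit 7985873) [(nat_lit 1161014), (nat_lit 3201294), (nat_lit 0)]) (PF.cons PF.nil (PF.cons PF.nil (PF.cons PF.nil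 PF.nil)))))))))))) (PF.cons (PF.cons (PF.leaf (nat_lit 7702852) (nat_lit 3245684) (nat_lit 42460406) (nat_lit 8419985) [(nat_lit 0), (nat_lit 3245684), (nat_lit 0)]) (PF.cons (PF.leaf (nat_lit 8265397) (nat_lit
 1136012) (nat_lit 41402573) (nat_lit 8348820) [(nat_lit 1136012), (nat_lit 3244281), (nat_lit 0)]) (PF.cons (PF.leaf (nat_lit 8829888) (nat_lit 1143656) (nat_lit 40359090) (nat_lit 8271059) [(nat_lit 1143656), (nat_lit 3238270), (nat_lit 0)]) (PF.cons (PF.leaf (nat_lit 9393492) (nat_lit 1148781) (nat_lit 39334402) (nat_lit 8187576) [(nat_lit 1148781), (nat_lit 3228098), (nat_lit 0)]) (PF.cons (PF.leaf (nat_lit 9953992) (nat_lit 1151688) (nat_lit 38331792) (nat_lit 8099215) [(nat_lit 1151688), (nat_lit 3214209), (nat_lit 0)]) (PF.cons (PF.leaf (nat_lit 10509594) (nat_lit 1152644) (nat_lit 37353640) (nat_lit 8006774) [(nat_lit 1152644), (nat_lit 3197035), (nat_lit 0)]) (PF.cons (PF.leaf (nat_lit 11058868) (nat_lit 1151884) (nat_lit 36401613) (nat_lit 7910995)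 [(nat_lit 1151884), (nat_lit 3176979), (nat_lit 0)]) (PF.cons (PF.leaf (nat_lit 11600677) (nat_lit 1149620) (nat_lit 35476811) (nat_lit 7812555) [(nat_lit 1149620), (nat_lit 3154420), (nat_lit 0)]) (PF.cons PF.nil (PF.cons PF.nil PF.nil)))))))))) (PF.cons (PF.cons (PF.leaf (nat_lit 8840176) (nat_lit 3217288) (nat_lit 39607733) (nat_lit 8197351) [(nat_lit 0), (nat_lit 3217288), (nat_lit 0)]) (PF.cons (PF.leaf (nat_lit 9389853)
 (nat_lit 1139961) (nat_lit 38620822) (nat_lit 8112986) [(nat_lit 1139961), (nat_lit 3205840), (nat_lit 0)]) (PF.cons (PF.leaf (nat_lit 9937648) (nat_lit 1142646) (nat_lit 37653673) (nat_lit 8024164) [(nat_lit 1142646), (nat_lit 3190946), (nat_lit 0)]) (PF.cons (PF.leaf (nat_lit 10481569) (nat_lit 1143421) (nat_lit 36708910) (nat_lit 7931629) [(nat_lit 1143421), (nat_lit 3173001), (nat_lit 0)]) (PF.cons (PF.leaf (nat_lit 11020084) (nat_lit 1142524) (nat_lit 35788377) (nat_lit 7836073) [(nat_lit 1142524), (nat_lit 3152377), (nat_lit 0)]) (PF.cons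 (PF.leaf (nat_lit 11551972) (nat_lit 1140163) (nat_lit 34893310) (nat_lit 7738128) [(nat_lit 1140163), (nat_lit 3129425), (nat_lit 0)]) (PF.cons PF.nil (PF.cons PF.nil PF.nil)))))))) (PF.cons (PF.cons (PF.leaf (nat_lit 9922526) (nat_lit 3167161) (nat_lit 36990117) (nat_lit 7948563) [(nat_lit 0), (nat_lit 3167161), (nat_lit 0)]) (PF.cons (PF.leaf (nat_lit 10454628) (nat_lit 1133896) (nat_lit 36078536) (nat_lit 7856238) [(nat_lit 1133896), (nat_lit 3148591), (nat_lit 0)]) (PF.cons (PF.leaf (nat_lit 10982385) (nat_lit 1132934) (nat_lit 35189131) (nat_lit 7761152) [(nat_lit 1132934), (nat_lit 3127522), (nat_lit 0)]) (PF.cons (PF.leaf (nat_lit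
 11504408) (nat_lit 1130537) (nat_lit 34323332) (nat_lit 7663901) [(nat_lit 1130537), (nat_lit 3104281), (nat_lit 0)]) (PF.cons PF.nil (PF.cons PF.nil PF.nil)))))) (PF.cons (PF.cons (PF.leaf (nat_lit 10946306) (nat_lit 3102441) (nat_lit 34603025) (nat_lit 7686256) [(nat_lit 0), (nat_lit 3102441), (nat_lit 0)]) (PF.cons (PF.leaf (nat_lit 11458362) (nat_lit 1120736) (nat_lit 33766127) (nat_lit 7589892) [(nat_lit 1120736), (nat_lit 3079007), (nat_lit 0)]) (PF.cons PF.nil (PF.cons PF.nil PF.nil)))) (PF.cons (PF.cons (PF.leaf (nat_lit 11911396) (nat_lit 3028430) (nat_lit 32433484) (nat_lit 7419452) [(nat_lit 0), (nat_lit 3028430), (nat_lit 0)]) (PF.cons PF.nil PF.nil)) (PF.cons PF.nil (PF.cons PF.nil (PF.cons PF.nil PF.nil))))))))))))) (PF.cons (PF.cons (PF.cons (PF.leaf (nat_lit 3674640) (nat_lit 6491824) (nat_lit 51959298) (nat_lit 8657689) [(nat_lit 0), (nat_lit 0), (nat_lit 6491824)]) (PF.cons (PF.leaf (nat_lit 4153342) (nat_lit 961505) (nat_lit 50944673) (nat_lit 8672979)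 [(nat_lit 961505), (nat_lit 0), (nat_lit 6529653)]) (PF.cons (PF.leaf (nat_lit 4670559) (nat_lit 1003525) (nat_lit 49866295) (nat_lit 8677228) [(nat_lit 1003525), (nat_lit 0), (nat_lit 6558237)]) (PF.cons (PF.leaf
 (nat_lit 5216358) (nat_lit 1038782) (nat_lit 48746666) (nat_lit 8669443) [(nat_lit 1038782), (nat_lit 0), (nat_lit 6576354)]) (PF.cons (PF.leaf (nat_lit 5783148) (nat_lit 1068280) (nat_lit 47602593) (nat_lit 8649446) [(nat_lit 1068280), (nat_lit 0), (nat_lit 6583652)]) (PF.cons (PF.leaf (nat_lit 6364784) (nat_lit 1092758) (nat_lit 46447107) (nat_lit 8617592) [(nat_lit 1092758), (nat_lit 0), (nat_lit 6580319)]) (PF.cons (PF.leaf (nat_lit 6956200) (nat_lit 1112811) (nat_lit 45290490) (nat_lit 8574573) [(nat_lit 1112811), (nat_lit 0), (nat_lit 6566879)]) (PF.cons (PF.leaf (nat_lit 7553184) (nat_lit 1128938) (nat_lit 44140896) (nat_lit 8521289) [(nat_lit 1128938), (nat_lit 0), (nat_lit 6544055)]) (PF.cons (PF.leaf (nat_lit 8152216) (nat_lit 1141575) (nat_lit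 43004781) (nat_lit 8458747) [(nat_lit 1141575), (nat_lit 0), (nat_lit 6512681)]) (PF.cons (PF.leaf (nat_lit 8750361) (nat_lit 1151107) (nat_lit 41887208) (nat_lit 8387996) [(nat_lit 1151107), (nat_lit 0), (nat_lit 6473639)]) (PF.cons (PF.leaf (nat_lit 9345198) (nat_lit 1157882) (nat_lit 40792091) (nat_lit 8310084) [(nat_lit 1157882), (nat_lit 0), (nat_lit 6427812)]) (PF.cons (PF.leaf (nat_lit 9934733) (nat_lit 1162212) (nat_lit
 39722396) (nat_lit 8226019) [(nat_lit 1162212), (nat_lit 0), (nat_lit 6376058)]) (PF.cons (PF.leaf (nat_lit 10517365) (nat_lit 1164380) (nat_lit 38680298) (nat_lit 8136755) [(nat_lit 1164380), (nat_lit 0), (nat_lit 6319192)]) (PF.cons (PF.leaf (nat_lit 11091792) (nat_lit 1164641) (nat_lit 37667320) (nat_lit 8043177) [(nat_lit 1164641), (nat_lit 0), (nat_lit 6257975)]) (PF.cons PF.nil (PF.cons PF.nil PF.nil)))))))))))))))) (PF.cons (PF.cons (PF.leaf (nat_lit 4807089) (nat_lit 3128959) (nat_lit 48782266) (nat_lit 8647004) [(nat_lit 0), (nat_lit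 3128959), (nat_lit 6550582)]) (PF.cons (PF.leaf (nat_lit 5329329) (nat_lit 1037259) (nat_lit 47715888) (nat_lit 8630436) [(nat_lit 1037259), (nat_lit 3165331), (nat_lit 6559897)]) (PF.cons (PF.leaf (nat_lit 5875271) (nat_lit 1065743) (nat_lit 46620320) (nat_lit 8602885) [(nat_lit 1065743), (nat_lit 3194443), (nat_lit 6559677)]) (PF.cons (PF.leaf (nat_lit 6437913) (nat_lit 1089201) (nat_lit 45510210) (nat_lit 8564628) [(nat_lit 1089201), (nat_lit 3216401), (nat_lit 6549967)]) (PF.cons (PF.leaf (nat_lit 7011776) (nat_lit 1108290) (nat_lit 44396655) (nat_lit 8516273) [(nat_lit 1108290), (nat_lit 3231550), (nat_lit 6531171)]) (PF.cons (PF.leaf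
 (nat_lit 7592395) (nat_lit 1123540) (nat_lit 43288223) (nat_lit 8458625) [(nat_lit 1123540), (nat_lit 3240359), (nat_lit 6503902)]) (PF.cons (PF.leaf (nat_lit 8176118) (nat_lit 1135399) (nat_lit 42191572) (nat_lit 8392596) [(nat_lit 1135399), (nat_lit 3243352), (nat_lit 6468894)]) (PF.cons (PF.leaf (nat_lit 8759925) (nat_lit 1144256) (nat_lit 41111864) (nat_lit 8319142) [(nat_lit 1144256), (nat_lit 3241077), (nat_lit 6426932)]) (PF.cons (PF.leaf (nat_lit 9341338) (nat_lit 1150456) (nat_lit 40053057) (nat_lit 8239215) [(nat_lit 1150456), (nat_lit 3234076), (nat_lit 6378812)]) (PF.cons (PF.leaf (nat_lit 9918315) (nat_lit 1154305) (nat_lit 39018136) (nat_lit 8153739) [(nat_lit 1154305), (nat_lit 3222872), (nat_lit 6325313)]) (PF.cons (PF.leaf (nat_lit 10489220) (nat_lit 1156079) (nat_lit 38009291) (nat_lit 8063587) [(nat_lit 1156079), (nat_lit 3207961), (nat_lit 6267178)]) (PF.cons (PF.leaf (nat_lit 11052716) (nat_lit 1156025) (nat_lit 37028060) (nat_lit 7969571) [(nat_lit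 1156025), (nat_lit 3189804), (nat_lit 6205101)]) (PF.cons PF.nil (PF.cons PF.nil PF.nil)))))))))))))) (PF.cons (PF.cons (PF.leaf (nat_lit 5969340) (nat_lit 3189848) (nat_lit 45647658) (nat_lit 8550641) [(nat_lit
 0), (nat_lit 3189848), (nat_lit 6530816)]) (PF.cons (PF.leaf (nat_lit 6511607) (nat_lit 1084192) (nat_lit 44586380) (nat_lit 8507094) [(nat_lit 1084192), (nat_lit 3207761), (nat_lit 6515622)]) (PF.cons (PF.leaf (nat_lit 7067172) (nat_lit 1102607) (nat_lit 43517968) (nat_lit 8454345) [(nat_lit 1102607), (nat_lit 3219524), (nat_lit 6492235)]) (PF.cons (PF.leaf (nat_lit 7631055) (nat_lit 1117206) (nat_lit 42451884) (nat_lit 8393130) [(nat_lit 1117206), (nat_lit 3225501), (nat_lit 6461176)]) (PF.cons (PF.leaf (nat_lit 8199325) (nat_lit 1128468) (nat_lit 41395278) (nat_lit 8324288) [(nat_lit 1128468), (nat_lit 3226142), (nat_lit 6423089)]) (PF.cons (PF.leaf (nat_lit 8768801) (nat_lit 1136797) (nat_lit 40353596) (nat_lit 8248695) [(nat_lit 1136797), (nat_lit 3221927),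 (nat_lit 6378679)]) (PF.cons (PF.leaf (nat_lit 9336891) (nat_lit 1142542) (nat_lit 39330967) (nat_lit 8167229) [(nat_lit 1142542), (nat_lit 3213346), (nat_lit 6328665)]) (PF.cons (PF.leaf (nat_lit 9901475) (nat_lit 1146011) (nat_lit 38330486) (nat_lit 8080738) [(nat_lit 1146011), (nat_lit 3200875), (nat_lit 6273757)]) (PF.cons (PF.leaf (nat_lit 10460850) (nat_lit 1147474) (nat_lit 37354418) (nat_lit 7990027) [(nat_lit
 1147474), (nat_lit 3184969), (nat_lit 6214633)]) (PF.cons (PF.leaf (nat_lit 11013631) (nat_lit 1147174) (nat_lit 36404366) (nat_lit 7895843) [(nat_lit 1147174), (nat_lit 3166052), (nat_lit 6151929)]) (PF.cons PF.nil (PF.cons PF.nil PF.nil)))))))))))) (PF.cons (PF.cons (PF.leaf (nat_lit 7124019) (nat_lit 3205647) (nat_lit 42652546) (nat_lit 8389022) [(nat_lit 0), (nat_lit 3205647), (nat_lit 6450300)]) (PF.cons (PF.leaf (nat_lit 7670373) (nat_lit 1109922) (nat_lit 41630405) (nat_lit 8325018) [(nat_lit 1109922), (nat_lit 3209128), (nat_lit 6416079)]) (PF.cons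 (PF.leaf (nat_lit 8222809) (nat_lit 1120781) (nat_lit 40614677) (nat_lit 8254010) [(nat_lit 1120781), (nat_lit 3207705), (nat_lit 6375443)]) (PF.cons (PF.leaf (nat_lit 8777784) (nat_lit 1128735) (nat_lit 39611348) (nat_lit 8176818) [(nat_lit 1128735), (nat_lit 3201802), (nat_lit 6329031)]) (PF.cons (PF.leaf (nat_lit 9332519) (nat_lit 1134150) (nat_lit 38624883) (nat_lit 8094261) [(nat_lit 1134150), (nat_lit 3191855), (nat_lit 6277498)]) (PF.cons (PF.leaf (nat_lit 9884766) (nat_lit 1137339) (nat_lit 37658594) (nat_lit 8007127) [(nat_lit 1137339), (nat_lit 3178299), (nat_lit 6221493)]) (PF.cons (PF.leaf (nat_lit 10432723) (nat_lit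
 1138575) (nat_lit 36714901) (nat_lit 7916164) [(nat_lit 1138575), (nat_lit 3161551), (nat_lit 6161642)]) (PF.cons (PF.leaf (nat_lit 10974940) (nat_lit 1138098) (nat_lit 35795519) (nat_lit 7822066) [(nat_lit 1138098), (nat_lit 3142003), (nat_lit 6098529)]) (PF.cons PF.nil (PF.cons PF.nil PF.nil)))))))))) (PF.cons (PF.cons (PF.leaf (nat_lit 8247737) (nat_lit 3188137) (nat_lit 39848286) (nat_lit 8181890) [(nat_lit 0), (nat_lit 3188137), (nat_lit 6326087)]) (PF.cons (PF.leaf (nat_lit 8787746) (nat_lit 1120062) (nat_lit 38883901) (nat_lit 8103627) [(nat_lit 1120062), (nat_lit 3180779), (nat_lit 6278102)]) (PF.cons (PF.leaf (nat_lit 9328927) (nat_lit 1125278) (nat_lit 37933763) (nat_lit 8020411) [(nat_lit 1125278), (nat_lit 3169668), (nat_lit 6225407)]) (PF.cons (PF.leaf (nat_lit 9868769) (nat_lit 1128291) (nat_lit 37001547) (nat_lit 7932991) [(nat_lit 1128291), (nat_lit 3155198), (nat_lit 6168605)]) (PF.cons (PF.leaf (nat_lit 10405324) (nat_lit 1129384) (nat_lit 36089921)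 (nat_lit 7842068) [(nat_lit 1129384), (nat_lit 3137753), (nat_lit 6108272)]) (PF.cons (PF.leaf (nat_lit 10937041) (nat_lit 1128800) (nat_lit 35200778) (nat_lit 7748293) [(nat_lit 1128800), (nat_lit 3117696), (nat_lit
 6044955)]) (PF.cons (PF.leaf (nat_lit 11462674) (nat_lit 1126751) (nat_lit 34335412) (nat_lit 7652263) [(nat_lit 1126751), (nat_lit 3095367), (nat_lit 5979158)]) (PF.cons PF.nil PF.nil)))))))) (PF.cons (PF.cons (PF.leaf (nat_lit 9326965) (nat_lit 3146837) (nat_lit 37256422) (nat_lit 7945741) [(nat_lit 0), (nat_lit 3146837), (nat_lit 6172462)]) (PF.cons (PF.leaf (nat_lit 9854110) (nat_lit 1118859) (nat_lit 36358341) (nat_lit 7858382) [(nat_lit 1118859), (nat_lit 3131615), (nat_lit 6115150)]) (PF.cons (PF.leaf (nat_lit 10379160) (nat_lit 1119898) (nat_lit 35478604) (nat_lit 7767782) [(nat_lit 1119898), (nat_lit 3113610), (nat_lit 6054574)]) (PF.cons (PF.leaf (nat_lit 10900351) (nat_lit 1119278) (nat_lit 34619369) (nat_lit 7674561) [(nat_lit 1119278), (nat_lit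 3093160), (nat_lit 5991246)]) (PF.cons (PF.leaf (nat_lit 11416329) (nat_lit 1117215) (nat_lit 33782121) (nat_lit 7579283) [(nat_lit 1117215), (nat_lit 3070581), (nat_lit 5925639)]) (PF.cons PF.nil PF.nil)))))) (PF.cons (PF.cons (PF.leaf (nat_lit 10354858) (nat_lit 3089151) (nat_lit 34880000) (nat_lit 7693328) [(nat_lit 0), (nat_lit 3089151), (nat_lit 6000575)]) (PF.cons (PF.leaf (nat_lit 10865324) (nat_lit 1109524) (nat_lit
 34050470) (nat_lit 7600885) [(nat_lit 1109524), (nat_lit 3068417), (nat_lit 5937426)]) (PF.cons (PF.leaf (nat_lit 11371589) (nat_lit 1107508) (nat_lit 33241008) (nat_lit 7506540) [(nat_lit 1107508), (nat_lit 3045680), (nat_lit 5872165)]) (PF.cons PF.nil PF.nil)))) (PF.cons (PF.cons (PF.leaf (nat_lit 11328928) (nat_lit 3020676) (nat_lit 32711305) (nat_lit 7434030) [(nat_lit 0), (nat_lit 3020676), (nat_lit 5818742)]) (PF.cons (PF.leaf (nat_lit 11820719) (nat_lit 1094472) (nat_lit 31948828) (nat_lit 7339478) [(nat_lit 1094472), (nat_lit 2996234), (nat_lit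 5752390)]) PF.nil)) (PF.cons PF.nil (PF.cons PF.nil (PF.cons PF.nil PF.nil))))))))))) (PF.cons (PF.cons (PF.cons (PF.leaf (nat_lit 5461889) (nat_lit 6472172) (nat_lit 45669506) (nat_lit 8494961) [(nat_lit 0), (nat_lit 0), (nat_lit 6472172)]) (PF.cons (PF.leaf (nat_lit 5971532) (nat_lit 1043711) (nat_lit 44679003) (nat_lit 8459117) [(nat_lit 1043711), (nat_lit 0), (nat_lit 6463490)]) (PF.cons (PF.leaf (nat_lit 6501653) (nat_lit 1067436) (nat_lit 43666236) (nat_lit 8414104) [(nat_lit 1067436), (nat_lit 0), (nat_lit 6446799)]) (PF.cons (PF.leaf (nat_lit 7045754) (nat_lit 1086490) (nat_lit 42644132) (nat_lit 8360457) [(nat_lit 1086490),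
 (nat_lit 0), (nat_lit 6422376)]) (PF.cons (PF.leaf (nat_lit 7598867) (nat_lit 1101570) (nat_lit 41622247) (nat_lit 8298870) [(nat_lit 1101570), (nat_lit 0), (nat_lit 6390706)]) (PF.cons (PF.leaf (nat_lit 8157028) (nat_lit 1113220) (nat_lit 40607795) (nat_lit 8230127) [(nat_lit 1113220), (nat_lit 0), (nat_lit 6352393)]) (PF.cons (PF.leaf (nat_lit 8717039) (nat_lit 1121883) (nat_lit 39606263) (nat_lit 8155050) [(nat_lit 1121883), (nat_lit 0), (nat_lit 6308099)]) (PF.cons (PF.leaf (nat_lit 9276291) (nat_lit 1127932) (nat_lit 38621823) (nat_lit 8074458) [(nat_lit 1127932), (nat_lit 0), (nat_lit 6258500)]) (PF.cons (PF.leaf (nat_lit 9832650) (nat_lit 1131691) (nat_lit 37657612) (nat_lit 7989145) [(nat_lit 1131691), (nat_lit 0), (nat_lit 6204261)]) (PF.cons (PF.leaf (nat_lit 10384393) (nat_lit 1133439) (nat_lit 36715944) (nat_lit 7899865) [(nat_lit 1133439), (nat_lit 0), (nat_lit 6146021)]) (PF.cons (PF.leaf (nat_lit 10930118) (nat_lit 1133425) (nat_lit 35798475) (nat_lit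 7807318) [(nat_lit 1133425), (nat_lit 0), (nat_lit 6084382)]) (PF.cons PF.nil (PF.cons PF.nil (PF.cons PF.nil PF.nil)))))))))))))) (PF.cons (PF.cons (PF.leaf (nat_lit 6576625) (nat_lit 3159959) (nat_lit 42782537)
 (nat_lit 8351133) [(nat_lit 0), (nat_lit 3159959), (nat_lit 6407590)]) (PF.cons (PF.leaf (nat_lit 7101344) (nat_lit 1079224) (nat_lit 41806811) (nat_lit 8294549) [(nat_lit 1079224), (nat_lit 3168741), (nat_lit 6379743)]) (PF.cons (PF.leaf (nat_lit 7637286) (nat_lit 1094016) (nat_lit 40827341) (nat_lit 8230600) [(nat_lit 1094016), (nat_lit 3172313), (nat_lit 6345262)]) (PF.cons (PF.leaf (nat_lit 8179918) (nat_lit 1105351) (nat_lit 39852272) (nat_lit 8160040) [(nat_lit 1105351), (nat_lit 3171063), (nat_lit 6304691)]) (PF.cons (PF.leaf (nat_lit 8725737) (nat_lit 1113709) (nat_lit 38887642) (nat_lit 8083646) [(nat_lit 1113709), (nat_lit 3165419), (nat_lit 6258632)]) (PF.cons (PF.leaf (nat_lit 9271940) (nat_lit 1119486) (nat_lit 37937962) (nat_lit 8002188) [(nat_lit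 1119486), (nat_lit 3155818), (nat_lit 6207706)]) (PF.cons (PF.leaf (nat_lit 9816252) (nat_lit 1123011) (nat_lit 37006594) (nat_lit 7916410) [(nat_lit 1123011), (nat_lit 3142687), (nat_lit 6152526)]) (PF.cons (PF.leaf (nat_lit 10356856) (nat_lit 1124569) (nat_lit 36096010) (nat_lit 7827015) [(nat_lit 1124569), (nat_lit 3126438), (nat_lit 6093682)]) (PF.cons (PF.leaf (nat_lit 10892268) (nat_lit 1124407) (nat_lit 35207983)
 (nat_lit 7734658) [(nat_lit 1124407), (nat_lit 3107452), (nat_lit 6031728)]) (PF.cons PF.nil (PF.cons PF.nil (PF.cons PF.nil PF.nil)))))))))))) (PF.cons (PF.cons (PF.leaf (nat_lit 7678189) (nat_lit 3154284) (nat_lit 40044645) (nat_lit 8160059) [(nat_lit 0), (nat_lit 3154284), (nat_lit 6297769)]) (PF.cons (PF.leaf (nat_lit 8204470) (nat_lit 1096716) (nat_lit 39110194) (nat_lit 8088282) [(nat_lit 1096716), (nat_lit 3151386), (nat_lit 6255423)]) (PF.cons (PF.leaf (nat_lit 8735662) (nat_lit 1104937) (nat_lit 38183059) (nat_lit 8011062) [(nat_lit 1104937),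 (nat_lit 3144406), (nat_lit 6208001)]) (PF.cons (PF.leaf (nat_lit 9268580) (nat_lit 1110570) (nat_lit 37268319) (nat_lit 7929141) [(nat_lit 1110570), (nat_lit 3133738), (nat_lit 6156082)]) (PF.cons (PF.leaf (nat_lit 9800744) (nat_lit 1113964) (nat_lit 36369700) (nat_lit 7843228) [(nat_lit 1113964), (nat_lit 3119774), (nat_lit 6100237)]) (PF.cons (PF.leaf (nat_lit 10330193) (nat_lit 1115415) (nat_lit 35489924) (nat_lit 7753990) [(nat_lit 1115415), (nat_lit 3102893), (nat_lit 6041016)]) (PF.cons (PF.leaf (nat_lit 10855335) (nat_lit 1115174) (nat_lit 34630942) (nat_lit 7662042) [(nat_lit 1115174), (nat_lit 3083450), (nat_lit 5978937)])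
 (PF.cons (PF.leaf (nat_lit 11374911) (nat_lit 1113461) (nat_lit 33794113) (nat_lit 7567950) [(nat_lit 1113461), (nat_lit 3061779), (nat_lit 5914481)]) (PF.cons PF.nil (PF.cons PF.nil PF.nil)))))))))) (PF.cons (PF.cons (PF.leaf (nat_lit 8747858) (nat_lit 3122613) (nat_lit 37491097) (nat_lit 7937343) [(nat_lit 0), (nat_lit 3122613), (nat_lit 6156265)]) (PF.cons (PF.leaf (nat_lit 9266976) (nat_lit 1101164) (nat_lit 36611740) (nat_lit 7855363) [(nat_lit 1101164), (nat_lit 3111060), (nat_lit 6103681)]) (PF.cons (PF.leaf (nat_lit 9786741) (nat_lit 1104540) (nat_lit 35745956) (nat_lit 7769641) [(nat_lit 1104540), (nat_lit 3096416), (nat_lit 6047442)]) (PF.cons (PF.leaf (nat_lit 10304902) (nat_lit 1105972) (nat_lit 34896840) (nat_lit 7680823) [(nat_lit 1105972), (nat_lit 3079032), (nat_lit 5988067)]) (PF.cons (PF.leaf (nat_lit 10819727) (nat_lit 1105723) (nat_lit 34066606) (nat_lit 7589499) [(nat_lit 1105723), (nat_lit 3059241), (nat_lit 5926045)]) (PF.cons (PF.leaf (nat_lit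 11329843) (nat_lit 1104016) (nat_lit 33256802) (nat_lit 7496208) [(nat_lit 1104016), (nat_lit 3037354), (nat_lit 5861828)]) (PF.cons PF.nil (PF.cons PF.nil PF.nil)))))))) (PF.cons (PF.cons (PF.leaf (nat_lit 9775001)
 (nat_lit 3072639) (nat_lit 35134264) (nat_lit 7695660) [(nat_lit 0), (nat_lit 3072639), (nat_lit 5994165)]) (PF.cons (PF.leaf (nat_lit 10281533) (nat_lit 1096223) (nat_lit 34315839) (nat_lit 7607528) [(nat_lit 1096223), (nat_lit 3054877), (nat_lit 5934856)]) (PF.cons (PF.leaf (nat_lit 10785885) (nat_lit 1096041) (nat_lit 33514181) (nat_lit 7517040) [(nat_lit 1096041), (nat_lit 3034842), (nat_lit 5873069)]) (PF.cons (PF.leaf (nat_lit 11286459) (nat_lit 1094402) (nat_lit 32731102) (nat_lit 7424718) [(nat_lit 1094402), (nat_lit 3012827), (nat_lit 5809237)]) (PF.cons PF.nil (PF.cons PF.nil PF.nil)))))) (PF.cons (PF.cons (PF.leaf (nat_lit 10754369) (nat_lit 3010265) (nat_lit 32972803) (nat_lit 7444653) [(nat_lit 0), (nat_lit 3010265), (nat_lit 5820013)]) (PF.cons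 (PF.leaf (nat_lit 11245153) (nat_lit 1084606) (nat_lit 32216274) (nat_lit 7353472) [(nat_lit 1084606), (nat_lit 2988207), (nat_lit 5756710)]) (PF.cons (PF.leaf (nat_lit 11731919) (nat_lit 1081835) (nat_lit 31477791) (nat_lit 7261006) [(nat_lit 1081835), (nat_lit 2964525), (nat_lit 5691857)]) (PF.cons PF.nil PF.nil)))) (PF.cons (PF.cons (PF.leaf (nat_lit 11684195) (nat_lit 2939927) (nat_lit 30997647) (nat_lit 7191338) [(nat_lit
 0), (nat_lit 2939927), (nat_lit 5640132)]) (PF.cons PF.nil PF.nil)) (PF.cons PF.nil (PF.cons PF.nil (PF.cons PF.nil PF.nil)))))))))) (PF.cons (PF.cons (PF.cons (PF.leaf (nat_lit 7136803) (nat_lit 6263567) (nat_lit 40186776) (nat_lit 8131332) [(nat_lit 0), (nat_lit 0), (nat_lit 6263567)]) (PF.cons (PF.leaf (nat_lit 7644258) (nat_lit 1068972) (nat_lit 39291860) (nat_lit 8066481) [(nat_lit 1068972), (nat_lit 0), (nat_lit 6227166)]) (PF.cons (PF.leaf (nat_lit 8161359) (nat_lit 1080911) (nat_lit 38395277) (nat_lit 7995683) [(nat_lit 1080911), (nat_lit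 0), (nat_lit 6185343)]) (PF.cons (PF.leaf (nat_lit 8683955) (nat_lit 1089704) (nat_lit 37504091) (nat_lit 7919678) [(nat_lit 1089704), (nat_lit 0), (nat_lit 6138643)]) (PF.cons (PF.leaf (nat_lit 9208879) (nat_lit 1095826) (nat_lit 36623460) (nat_lit 7839181) [(nat_lit 1095826), (nat_lit 0), (nat_lit 6087621)]) (PF.cons (PF.leaf (nat_lit 9733628) (nat_lit 1099656) (nat_lit 35757182) (nat_lit 7754868) [(nat_lit 1099656), (nat_lit 0), (nat_lit 6032826)]) (PF.cons (PF.leaf (nat_lit 10256201) (nat_lit 1101507) (nat_lit 34908043) (nat_lit 7667377) [(nat_lit 1101507), (nat_lit 0), (nat_lit 5974783)]) (PF.cons (PF.leaf (nat_lit 10774986) (nat_lit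
 1101641) (nat_lit 34078065) (nat_lit 7577294) [(nat_lit 1101641), (nat_lit 0), (nat_lit 5913986)]) (PF.cons (PF.leaf (nat_lit 11288700) (nat_lit 1100286) (nat_lit 33268671) (nat_lit 7485159) [(nat_lit 1100286), (nat_lit 0), (nat_lit 5850896)]) (PF.cons PF.nil PF.nil)))))))))) (PF.cons (PF.cons (PF.leaf (nat_lit 8189115) (nat_lit 3093977) (nat_lit 37687353) (nat_lit 7922887) [(nat_lit 0), (nat_lit 3093977), (nat_lit 6134864)]) (PF.cons (PF.leaf (nat_lit 8696455) (nat_lit 1080208) (nat_lit 36833290) (nat_lit 7846745) [(nat_lit 1080208), (nat_lit 3086479), (nat_lit 6087363)]) (PF.cons (PF.leaf (nat_lit 9207850) (nat_lit 1086388) (nat_lit 35986737) (nat_lit 7766334) [(nat_lit 1086388), (nat_lit 3075550), (nat_lit 6035804)]) (PF.cons (PF.leaf (nat_lit 9720396) (nat_lit 1090242) (nat_lit 35152056) (nat_lit 7682325) [(nat_lit 1090242), (nat_lit 3061555), (nat_lit 5980715)]) (PF.cons (PF.leaf (nat_lit 10231876) (nat_lit 1092107) (nat_lit 34332410) (nat_lit 7595337) [(nat_lit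 1092107), (nat_lit 3044845), (nat_lit 5922596)]) (PF.cons (PF.leaf (nat_lit 10740528) (nat_lit 1092259) (nat_lit 33530076) (nat_lit 7505938) [(nat_lit 1092259), (nat_lit 3025754), (nat_lit 5861914)]) (PF.cons (PF.leaf
 (nat_lit 11244946) (nat_lit 1090931) (nat_lit 32746669) (nat_lit 7414643) [(nat_lit 1090931), (nat_lit 3004587), (nat_lit 5799106)]) (PF.cons PF.nil PF.nil)))))))) (PF.cons (PF.cons (PF.leaf (nat_lit 9209708) (nat_lit 3052516) (nat_lit 35361069) (nat_lit 7692824) [(nat_lit 0), (nat_lit 3052516), (nat_lit 5983295)]) (PF.cons (PF.leaf (nat_lit 9709496) (nat_lit 1080426) (nat_lit 34558353) (nat_lit 7609435) [(nat_lit 1080426), (nat_lit 3038046), (nat_lit 5928168)]) (PF.cons (PF.leaf (nat_lit 10209585) (nat_lit 1082403) (nat_lit 33768256) (nat_lit 7523202) [(nat_lit 1082403), (nat_lit 3021003), (nat_lit 5870179)]) (PF.cons (PF.leaf (nat_lit 10707924) (nat_lit 1082649) (nat_lit 32993427) (nat_lit 7434687) [(nat_lit 1082649), (nat_lit 3001702), (nat_lit 5809781)])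 (PF.cons (PF.leaf (nat_lit 11202952) (nat_lit 1081408) (nat_lit 32235740) (nat_lit 7344392) [(nat_lit 1081408), (nat_lit 2980433), (nat_lit 5747392)]) (PF.cons PF.nil PF.nil)))))) (PF.cons (PF.cons (PF.leaf (nat_lit 10190020) (nat_lit 2996897) (nat_lit 33214578) (nat_lit 7450949) [(nat_lit 0), (nat_lit 2996897), (nat_lit 5817530)]) (PF.cons (PF.leaf (nat_lit 10677660) (nat_lit 1072789) (nat_lit 32467282) (nat_lit 7363524)
 [(nat_lit 1072789), (nat_lit 2977484), (nat_lit 5757587)]) (PF.cons (PF.leaf (nat_lit 11163106) (nat_lit 1071702) (nat_lit 31735168) (nat_lit 7274392) [(nat_lit 1071702), (nat_lit 2956195), (nat_lit 5695752)]) (PF.cons (PF.leaf (nat_lit 11644903) (nat_lit 1069324) (nat_lit 31019790) (nat_lit 7183997) [(nat_lit 1069324), (nat_lit 2933287), (nat_lit 5632396)]) PF.nil)))) (PF.cons (PF.cons (PF.leaf (nat_lit 11125921) (nat_lit 2931874) (nat_lit 31244178) (nat_lit 7204613) [(nat_lit 0), (nat_lit 2931874), (nat_lit 5644174)]) (PF.cons (PF.leaf (nat_lit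 11598732) (nat_lit 1059612) (nat_lit 30552530) (nat_lit 7115581) [(nat_lit 1059612), (nat_lit 2909090), (nat_lit 5581575)]) PF.nil)) (PF.cons PF.nil (PF.cons PF.nil (PF.cons PF.nil PF.nil)))))))) (PF.cons (PF.cons (PF.cons (PF.leaf (nat_lit 8662645) (nat_lit 5967542) (nat_lit 35554343) (nat_lit 7684299) [(nat_lit 0), (nat_lit 0), (nat_lit 5967542)]) (PF.cons (PF.leaf (nat_lit 9152213) (nat_lit 1061555) (nat_lit 34773165) (nat_lit 7606151) [(nat_lit 1061555), (nat_lit 0), (nat_lit 5916985)]) (PF.cons (PF.leaf (nat_lit 9645204) (nat_lit 1066144) (nat_lit 33999286) (nat_lit 7524622) [(nat_lit 1066144), (nat_lit 0), (nat_lit 5863153)])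
 (PF.cons (PF.leaf (nat_lit 10138949) (nat_lit 1068632) (nat_lit 33236496) (nat_lit 7440321) [(nat_lit 1068632), (nat_lit 0), (nat_lit 5806524)]) (PF.cons (PF.leaf (nat_lit 10631430) (nat_lit 1069336) (nat_lit 32487514) (nat_lit 7353792) [(nat_lit 1069336), (nat_lit 0), (nat_lit 5747539)]) (PF.cons (PF.leaf (nat_lit 11121063) (nat_lit 1068518) (nat_lit 31754283) (nat_lit 7265523) [(nat_lit 1068518), (nat_lit 0), (nat_lit 5686603)]) (PF.cons PF.nil (PF.cons PF.nil PF.nil)))))))) (PF.cons (PF.cons (PF.leaf (nat_lit 9638649) (nat_lit 2980194) (nat_lit 33432398) (nat_lit 7452482) [(nat_lit 0), (nat_lit 2980194), (nat_lit 5810934)]) (PF.cons (PF.leaf (nat_lit 10120560) (nat_lit 1058631) (nat_lit 32698402) (nat_lit 7369248) [(nat_lit 1058631), (nat_lit 2963739), (nat_lit 5754697)]) (PF.cons (PF.leaf (nat_lit 10602538) (nat_lit 1059543) (nat_lit 31975964) (nat_lit 7283839) [(nat_lit 1059543), (nat_lit 2945123), (nat_lit 5696199)]) (PF.cons (PF.leaf (nat_lit 11082700) (nat_lit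 1058898) (nat_lit 31267381) (nat_lit 7196749) [(nat_lit 1058898), (nat_lit 2924625), (nat_lit 5635840)]) (PF.cons (PF.leaf (nat_lit 11559634) (nat_lit 1056929) (nat_lit 30574268) (nat_lit 7108410) [(nat_lit 1056929),
 (nat_lit 2902503), (nat_lit 5573978)]) (PF.cons PF.nil PF.nil)))))) (PF.cons (PF.cons (PF.leaf (nat_lit 10576703) (nat_lit 2921107) (nat_lit 31473489) (nat_lit 7213945) [(nat_lit 0), (nat_lit 2921107), (nat_lit 5644790)]) (PF.cons (PF.leaf (nat_lit 11046982) (nat_lit 1049070) (nat_lit 30789595) (nat_lit 7128198) [(nat_lit 1049070), (nat_lit 2900686), (nat_lit 5585143)]) (PF.cons (PF.leaf (nat_lit 11515101) (nat_lit 1047316) (nat_lit 30119373) (nat_lit 7041220) [(nat_lit 1047316), (nat_lit 2878701), (nat_lit 5524045)]) (PF.cons PF.nil PF.nil)))) (PF.cons (PF.cons (PF.leaf (nat_lit 11473464) (nat_lit 2854879) (nat_lit 29672782) (nat_lit 6974339) [(nat_lit 0), (nat_lit 2854879), (nat_lit 5474263)]) (PF.cons PF.nil PF.nil)) (PF.cons PF.nil (PF.cons PF.nil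 PF.nil)))))) (PF.cons (PF.cons (PF.cons (PF.leaf (nat_lit 10039129) (nat_lit 5641623) (nat_lit 31681796) (nat_lit 7218898) [(nat_lit 0), (nat_lit 0), (nat_lit 5641623)]) (PF.cons (PF.leaf (nat_lit 10504478) (nat_lit 1036333) (nat_lit 31009263) (nat_lit 7136864) [(nat_lit 1036333), (nat_lit 0), (nat_lit 5585270)]) (PF.cons (PF.leaf (nat_lit 10969750) (nat_lit 1036430) (nat_lit 30347215) (nat_lit 7053158) [(nat_lit 1036430), (nat_lit
 0), (nat_lit 5527115)]) (PF.cons (PF.leaf (nat_lit 11433197) (nat_lit 1035120) (nat_lit 29697671) (nat_lit 6968216) [(nat_lit 1035120), (nat_lit 0), (nat_lit 5467512)]) PF.nil)))) (PF.cons (PF.cons (PF.leaf (nat_lit 10938889) (nat_lit 2846272) (nat_lit 29889944) (nat_lit 6985979) [(nat_lit 0), (nat_lit 2846272), (nat_lit 5477323)]) (PF.cons (PF.leaf (nat_lit 11393162) (nat_lit 1025420) (nat_lit 29262554) (nat_lit 6902529) [(nat_lit 1025420), (nat_lit 2825309), (nat_lit 5418599)]) PF.nil)) (PF.cons PF.nil (PF.cons PF.nil PF.nil)))) (PF.cons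 (PF.cons (PF.cons (PF.leaf (nat_lit 11279747) (nat_lit 5315926) (nat_lit 28445535) (nat_lit 6767718) [(nat_lit 0), (nat_lit 0), (nat_lit 5315926)]) (PF.cons PF.nil PF.nil)) (PF.cons PF.nil PF.nil)) (PF.cons PF.nil (PF.cons PF.nil (PF.cons PF.nil PF.nil))))))))))

def p14_22_1_0 : pfC (piC [(nat_lit 30365544), (nat_lit 20402210), (nat_lit 13167684)] (nat_lit 11363143)) p14_22_1 (nat_lit 3) (nat_lit 0) (nat_lit 1) = true := by decide +kernel
def p14_22_1_1 : pfC (piC [(nat_lit 30365544), (nat_lit 20402210), (nat_lit 13167684)] (nat_lit 11363143)) p14_22_1 (nat_lit 3) (nat_lit 1) (nat_lit 2) = true := by decide +kernel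
def p14_22_1_2 : pfC (piC [(nat_lit 30365544), (nat_lit 20402210), (nat_lit 13167684)] (nat_lit 11363143)) p14_22_1 (nat_lit 3) (nat_lit 2) (nat_lit 3) = true := by decide +kernel
def p14_22_1_3 : pfC (piC [(nat_lit 30365544), (nat_lit 20402210), (nat_lit 13167684)] (nat_lit 11363143)) p14_22_1 (nat_lit 3) (nat_lit 3) (nat_lit 4) = true := by decide +kernel
def p14_22_1_4 : pfC (piC [(nat_lit 30365544), (nat_lit 20402210), (nat_lit 13167684)] (nat_lit 11363143)) p14_22_1 (nat_lit 3) (nat_lit 4) (nat_lit 5) = true := by decide +kernel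
def p14_22_1_5 : pfC (piC [(nat_lit 30365544), (nat_lit 20402210), (nat_lit 13167684)] (nat_lit 11363143)) p14_22_1 (nat_lit 3) (nat_lit 5) (nat_lit 6) = true := by decide +kernel
def p14_22_1_6 : pfC (piC [(nat_lit 30365544), (nat_lit 20402210), (nat_lit 13167684)] (nat_lit 11363143)) p14_22_1 (nat_lit 3) (nat_lit 6) (nat_lit 7) = true := by decide +kernel
def p14_22_1_7 : pfC (piC [(nat_lit 30365544), (nat_lit 20402210), (nat_lit 13167684)] (nat_lit 11363143)) p14_22_1 (nat_lit 3) (nat_lit 7) (nat_lit 8) = true := by decide +kernel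
def p14_22_1_8 : pfC (piC [(nat_lit 30365544), (nat_lit 20402210), (nat_lit 13167684)] (nat_lit 11363143)) p14_22_1 (nat_lit 3) (nat_lit 8) (nat_lit 9) = true := by decide +kernel
def p14_22_1_9 : pfC (piC [(nat_lit 30365544), (nat_lit 20402210), (nat_lit 13167684)] (nat_lit 11363143)) p14_22_1 (nat_lit 3) (nat_lit 9) (nat_lit 10) = true := by decide +kernel
def p14_22_1_10 : pfC (piC [(nat_lit 30365544), (nat_lit 20402210), (nat_lit 13167684)] (nat_lit 11363143)) p14_22_1 (nat_lit 3) (nat_lit 10) (nat_lit 11) = true := by decide +kernel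
def p14_22_1_11 : pfC (piC [(nat_lit 30365544), (nat_lit 20402210), (nat_lit 13167684)] (nat_lit 11363143)) p14_22_1 (nat_lit 3) (nat_lit 11) (nat_lit 12) = true := by decide +kernel
def p14_22_1_12 : pfC (piC [(nat_lit 30365544), (nat_lit 20402210), (nat_lit 13167684)] (nat_lit 11363143)) p14_22_1 (nat_lit 3) (nat_lit 12) (nat_lit 13) = true := by decide +kernel
def p14_22_1_13 : pfC (piC [(nat_lit 30365544), (nat_lit 20402210), (nat_lit 13167684)] (nat_lit 11363143)) p14_22_1 (nat_lit 3) (nat_lit 13) (nat_lit 14) = true := by decide +kernel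
def p14_22_1_14 : pfC (piC [(nat_lit 30365544), (nat_lit 20402210), (nat_lit 13167684)] (nat_lit 11363143)) p14_22_1 (nat_lit 3) (nat_lit 14) (nat_lit 15) = true := by decide +kernel
def p14_22_1_15 : pfC (piC [(nat_lit 30365544), (nat_lit 20402210), (nat_lit 13167684)] (nat_lit 11363143)) p14_22_1 (nat_lit 3) (nat_lit 15) (nat_lit 16) = true := by decide +kernel
def p14_22_1_16 : pfC (piC [(nat_lit 30365544), (nat_lit 20402210), (nat_lit 13167684)] (nat_lit 11363143)) p14_22_1 (nat_lit 3) (nat_lit 16) (nat_lit 17) = true := by decide +kernel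
def p14_22_1_17 : pfC (piC [(nat_lit 30365544), (nat_lit 20402210), (nat_lit 13167684)] (nat_lit 11363143)) p14_22_1 (nat_lit 3) (nat_lit 17) (nat_lit 18) = true := by decide +kernel
def p14_22_1_18 : pfC (piC [(nat_lit 30365544), (nat_lit 20402210), (nat_lit 13167684)] (nat_lit 11363143)) p14_22_1 (nat_lit 3) (nat_lit 18) (nat_lit 19) = true := by decide +kernel
def p14_22_1_19 : pfC (piC [(nat_lit 30365544), (nat_lit 20402210), (nat_lit 13167684)] (nat_lit 11363143)) p14_22_1 (nat_lit 3) (nat_lit 19) (nat_lit 20) = true := by decide +kernel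
def p14_22_1_20 : pfC (piC [(nat_lit 30365544), (nat_lit 20402210), (nat_lit 13167684)] (nat_lit 11363143)) p14_22_1 (nat_lit 3) (nat_lit 20) (nat_lit 21) = true := by decide +kernel
def p14_22_1_21 : pfC (piC [(nat_lit 30365544), (nat_lit 20402210), (nat_lit 13167684)] (nat_lit 11363143)) p14_22_1 (nat_lit 3) (nat_lit 21) (nat_lit 22) = true := by decide +kernel
def p14_22_1_22 : pfC (piC [(nat_lit 30365544), (nat_lit 20402210), (nat_lit 13167684)] (nat_lit 11363143)) p14_22_1 (nat_lit 3) (nat_lit 22) (nat_lit 23) = true := by decide +kernel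
def p14_22_1_23 : pfC (piC [(nat_lit 30365544), (nat_lit 20402210), (nat_lit 13167684)] (nat_lit 11363143)) p14_22_1 (nat_lit 3) (nat_lit 23) (nat_lit 24) = true := by decide +kernel
def p14_22_1_24 : pfC (piC [(nat_lit 30365544), (nat_lit 20402210), (nat_lit 13167684)] (nat_lit 11363143)) p14_22_1 (nat_lit 3) (nat_lit 24) (nat_lit 25) = true := by decide +kernel
def p14_22_1_25 : pfC (piC [(nat_lit 30365544), (nat_lit 20402210), (nat_lit 13167684)] (nat_lit 11363143)) p14_22_1 (nat_lit 3) (nat_lit 25) (nat_lit 26) = true := by decide +kernel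
def p14_22_1_26 : pfC (piC [(nat_lit 30365544), (nat_lit 20402210), (nat_lit 13167684)] (nat_lit 11363143)) p14_22_1 (nat_lit 3) (nat_lit 26) (nat_lit 27) = true := by decide +kernel
def p14_22_1_27 : pfC (piC [(nat_lit 30365544), (nat_lit 20402210), (nat_lit 13167684)] (nat_lit 11363143)) p14_22_1 (nat_lit 3) (nat_lit 27) (nat_lit 28) = true := by decide +kernel
def p14_22_1_28 : pfC (piC [(nat_lit 30365544), (nat_lit 20402210), (nat_lit 13167684)] (nat_lit 11363143)) p14_22_1 (nat_lit 3) (nat_lit 28) (nat_lit 29) = true := by decide +kernel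
def p14_22_1_29 : pfC (piC [(nat_lit 30365544), (nat_lit 20402210), (nat_lit 13167684)] (nat_lit 11363143)) p14_22_1 (nat_lit 3) (nat_lit 29) (nat_lit 30) = true := by decide +kernel
def p14_22_1_30 : pfC (piC [(nat_lit 30365544), (nat_lit 20402210), (nat_lit 13167684)] (nat_lit 11363143)) p14_22_1 (nat_lit 3) (nat_lit 30) (nat_lit 31) = true := by decide +kernel
def p14_22_1_31 : pfC (piC [(nat_lit 30365544), (nat_lit 20402210), (nat_lit 13167684)] (nat_lit 11363143)) p14_22_1 (nat_lit 3) (nat_lit 31) (nat_lit 32) = true := by decide +kernel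
def p14_22_1_32 : pfC (piC [(nat_lit 30365544), (nat_lit 20402210), (nat_lit 13167684)] (nat_lit 11363143)) p14_22_1 (nat_lit 3) (nat_lit 32) (nat_lit 33) = true := by decide +kernel
def p14_22_1_33 : pfC (piC [(nat_lit 30365544), (nat_lit 20402210), (nat_lit 13167684)] (nat_lit 11363143)) p14_22_1 (nat_lit 3) (nat_lit 33) (nat_lit 34) = true := by decide +kernel
def p14_22_1_34 : pfC (piC [(nat_lit 30365544), (nat_lit 20402210), (nat_lit 13167684)] (nat_lit 11363143)) p14_22_1 (nat_lit 3) (nat_lit 34) (nat_lit 35) = true := by decide +kernel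
def p14_22_1_35 : pfC (piC [(nat_lit 30365544), (nat_lit 20402210), (nat_lit 13167684)] (nat_lit 11363143)) p14_22_1 (nat_lit 3) (nat_lit 35) (nat_lit 36) = true := by decide +kernel
def p14_22_1_36 : pfC (piC [(nat_lit 30365544), (nat_lit 20402210), (nat_lit 13167684)] (nat_lit 11363143)) p14_22_1 (nat_lit 3) (nat_lit 36) (nat_lit 37) = true := by decide +kernel
def p14_22_1_37 : pfC (piC [(nat_lit 30365544), (nat_lit 20402210), (nat_lit 13167684)] (nat_lit 11363143)) p14_22_1 (nat_lit 3) (nat_lit 37) (nat_lit 38) = true := by decide +kernel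
def p14_22_1_38 : pfC (piC [(nat_lit 30365544), (nat_lit 20402210), (nat_lit 13167684)] (nat_lit 11363143)) p14_22_1 (nat_lit 3) (nat_lit 38) (nat_lit 39) = true := by decide +kernel
def p14_22_1_39 : pfC (piC [(nat_lit 30365544), (nat_lit 20402210), (nat_lit 13167684)] (nat_lit 11363143)) p14_22_1 (nat_lit 3) (nat_lit 39) (nat_lit 40) = true := by decide +kernel
def p14_22_1_40 : pfC (piC [(nat_lit 30365544), (nat_lit 20402210), (nat_lit 13167684)] (nat_lit 11363143)) p14_22_1 (nat_lit 3) (nat_lit 40) (nat_lit 41) = true := by decide +kernel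
def p14_22_1_41 : pfC (piC [(nat_lit 30365544), (nat_lit 20402210), (nat_lit 13167684)] (nat_lit 11363143)) p14_22_1 (nat_lit 3) (nat_lit 41) (nat_lit 42) = true := by decide +kernel
def p14_22_1_42 : pfC (piC [(nat_lit 30365544), (nat_lit 20402210), (nat_lit 13167684)] (nat_lit 11363143)) p14_22_1 (nat_lit 3) (nat_lit 42) (nat_lit 43) = true := by decide +kernel
def p14_22_1_43 : pfC (piC [(nat_lit 30365544), (nat_lit 20402210), (nat_lit 13167684)] (nat_lit 11363143)) p14_22_1 (nat_lit 3) (nat_lit 43) (nat_lit 44) = true := by decide +kernel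
def p14_22_1_44 : pfC (piC [(nat_lit 30365544), (nat_lit 20402210), (nat_lit 13167684)] (nat_lit 11363143)) p14_22_1 (nat_lit 3) (nat_lit 44) (nat_lit 45) = true := by decide +kernel
def p14_22_1_45 : pfC (piC [(nat_lit 30365544), (nat_lit 20402210), (nat_lit 13167684)] (nat_lit 11363143)) p14_22_1 (nat_lit 3) (nat_lit 45) (nat_lit 46) = true := by decide +kernel
def p14_22_1_46 : pfC (piC [(nat_lit 30365544), (nat_lit 20402210), (nat_lit 13167684)] (nat_lit 11363143)) p14_22_1 (nat_lit 3) (nat_lit 46) (nat_lit 47) = true := by decide +kernel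
def p14_22_1_47 : pfC (piC [(nat_lit 30365544), (nat_lit 20402210), (nat_lit 13167684)] (nat_lit 11363143)) p14_22_1 (nat_lit 3) (nat_lit 47) (nat_lit 48) = true := by decide +kernel
def p14_22_1_48 : pfC (piC [(nat_lit 30365544), (nat_lit 20402210), (nat_lit 13167684)] (nat_lit 11363143)) p14_22_1 (nat_lit 3) (nat_lit 48) (nat_lit 49) = true := by decide +kernel
def p14_22_1_49 : pfC (piC [(nat_lit 30365544), (nat_lit 20402210), (nat_lit 13167684)] (nat_lit 11363143)) p14_22_1 (nat_lit 3) (nat_lit 49) (nat_lit 50) = true := by decide +kernel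
def p14_22_1_50 : pfC (piC [(nat_lit 30365544), (nat_lit 20402210), (nat_lit 13167684)] (nat_lit 11363143)) p14_22_1 (nat_lit 3) (nat_lit 50) (nat_lit 51) = true := by decide +kernel
def p14_22_1_51 : pfC (piC [(nat_lit 30365544), (nat_lit 20402210), (nat_lit 13167684)] (nat_lit 11363143)) p14_22_1 (nat_lit 3) (nat_lit 51) (nat_lit 52) = true := by decide +kernel
def p14_22_1_52 : pfC (piC [(nat_lit 30365544), (nat_lit 20402210), (nat_lit 13167684)] (nat_lit 11363143)) p14_22_1 (nat_lit 3) (nat_lit 52) (nat_lit 53) = true := by decide +kernel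
def p14_22_1_53 : pfC (piC [(nat_lit 30365544), (nat_lit 20402210), (nat_lit 13167684)] (nat_lit 11363143)) p14_22_1 (nat_lit 3) (nat_lit 53) (nat_lit 54) = true := by decide +kernel
def p14_22_1_54 : pfC (piC [(nat_lit 30365544), (nat_lit 20402210), (nat_lit 13167684)] (nat_lit 11363143)) p14_22_1 (nat_lit 3) (nat_lit 54) (nat_lit 55) = true := by decide +kernel
def p14_22_1_55 : pfC (piC [(nat_lit 30365544), (nat_lit 20402210), (nat_lit 13167684)] (nat_lit 11363143)) p14_22_1 (nat_lit 3) (nat_lit 55) (nat_lit 56) = true := by decide +kernel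
def p14_22_1_56 : pfC (piC [(nat_lit 30365544), (nat_lit 20402210), (nat_lit 13167684)] (nat_lit 11363143)) p14_22_1 (nat_lit 3) (nat_lit 56) (nat_lit 57) = true := by decide +kernel
def p14_22_1_57 : pfC (piC [(nat_lit 30365544), (nat_lit 20402210), (nat_lit 13167684)] (nat_lit 11363143)) p14_22_1 (nat_lit 3) (nat_lit 57) (nat_lit 58) = true := by decide +kernel
def p14_22_1_58 : pfC (piC [(nat_lit 30365544), (nat_lit 20402210), (nat_lit 13167684)] (nat_lit 11363143)) p14_22_1 (nat_lit 3) (nat_lit 58) (nat_lit 59) = true := by decide +kernel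
def p14_22_1_59 : pfC (piC [(nat_lit 30365544), (nat_lit 20402210), (nat_lit 13167684)] (nat_lit 11363143)) p14_22_1 (nat_lit 3) (nat_lit 59) (nat_lit 60) = true := by decide +kernel
def p14_22_1_60 : pfC (piC [(nat_lit 30365544), (nat_lit 20402210), (nat_lit 13167684)] (nat_lit 11363143)) p14_22_1 (nat_lit 3) (nat_lit 60) (nat_lit 61) = true := by decide +kernel
def p14_22_1_61 : pfC (piC [(nat_lit 30365544), (nat_lit 20402210), (nat_lit 13167684)] (nat_lit 11363143)) p14_22_1 (nat_lit 3) (nat_lit 61) (nat_lit 62) = true := by decide +kernel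
def p14_22_1_62 : pfC (piC [(nat_lit 30365544), (nat_lit 20402210), (nat_lit 13167684)] (nat_lit 11363143)) p14_22_1 (nat_lit 3) (nat_lit 62) (nat_lit 63) = true := by decide +kernel
def p14_22_1_63 : pfC (piC [(nat_lit 30365544), (nat_lit 20402210), (nat_lit 13167684)] (nat_lit 11363143)) p14_22_1 (nat_lit 3) (nat_lit 63) (nat_lit 64) = true := by decide +kernel
def p14_22_1_64 : pfC (piC [(nat_lit 30365544), (nat_lit 20402210), (nat_lit 13167684)] (nat_lit 11363143)) p14_22_1 (nat_lit 3) (nat_lit 64) (nat_lit 65) = true := by decide +kernel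
def p14_22_1_65 : pfC (piC [(nat_lit 30365544), (nat_lit 20402210), (nat_lit 13167684)] (nat_lit 11363143)) p14_22_1 (nat_lit 3) (nat_lit 65) (nat_lit 66) = true := by decide +kernel
def p14_22_1_66 : pfC (piC [(nat_lit 30365544), (nat_lit 20402210), (nat_lit 13167684)] (nat_lit 11363143)) p14_22_1 (nat_lit 3) (nat_lit 66) (nat_lit 67) = true := by decide +kernel
def p14_22_1_67 : pfC (piC [(nat_lit 30365544), (nat_lit 20402210), (nat_lit 13167684)] (nat_lit 11363143)) p14_22_1 (nat_lit 3) (nat_lit 67) (nat_lit 68) = true := by decide +kernel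
def p14_22_1_68 : pfC (piC [(nat_lit 30365544), (nat_lit 20402210), (nat_lit 13167684)] (nat_lit 11363143)) p14_22_1 (nat_lit 3) (nat_lit 68) (nat_lit 69) = true := by decide +kernel
def p14_22_1_69 : pfC (piC [(nat_lit 30365544), (nat_lit 20402210), (nat_lit 13167684)] (nat_lit 11363143)) p14_22_1 (nat_lit 3) (nat_lit 69) (nat_lit 70) = true := by decide +kernel
def p14_22_1_70 : pfC (piC [(nat_lit 30365544), (nat_lit 20402210), (nat_lit 13167684)] (nat_lit 11363143)) p14_22_1 (nat_lit 3) (nat_lit 70) (nat_lit 71) = true := by decide +kernel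
def p14_22_1_71 : pfC (piC [(nat_lit 30365544), (nat_lit 20402210), (nat_lit 13167684)] (nat_lit 11363143)) p14_22_1 (nat_lit 3) (nat_lit 71) (nat_lit 72) = true := by decide +kernel
def p14_22_1_72 : pfC (piC [(nat_lit 30365544), (nat_lit 20402210), (nat_lit 13167684)] (nat_lit 11363143)) p14_22_1 (nat_lit 3) (nat_lit 72) (nat_lit 73) = true := by decide +kernel
def p14_22_1_73 : pfC (piC [(nat_lit 30365544), (nat_lit 20402210), (nat_lit 13167684)] (nat_lit 11363143)) p14_22_1 (nat_lit 3) (nat_lit 73) (nat_lit 74) = true := by decide +kernel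
def p14_22_1_74 : pfC (piC [(nat_lit 30365544), (nat_lit 20402210), (nat_lit 13167684)] (nat_lit 11363143)) p14_22_1 (nat_lit 3) (nat_lit 74) (nat_lit 75) = true := by decide +kernel
def p14_22_1_75 : pfC (piC [(nat_lit 30365544), (nat_lit 20402210), (nat_lit 13167684)] (nat_lit 11363143)) p14_22_1 (nat_lit 3) (nat_lit 75) (nat_lit 76) = true := by decide +kernel
def p14_22_1_76 : pfC (piC [(nat_lit 30365544), (nat_lit 20402210), (nat_lit 13167684)] (nat_lit 11363143)) p14_22_1 (nat_lit 3) (nat_lit 76) (nat_lit 77) = true := by decide +kernel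
def p14_22_1_77 : pfC (piC [(nat_lit 30365544), (nat_lit 20402210), (nat_lit 13167684)] (nat_lit 11363143)) p14_22_1 (nat_lit 3) (nat_lit 77) (nat_lit 78) = true := by decide +kernel
def p14_22_1_78 : pfC (piC [(nat_lit 30365544), (nat_lit 20402210), (nat_lit 13167684)] (nat_lit 11363143)) p14_22_1 (nat_lit 3) (nat_lit 78) (nat_lit 79) = true := by decide +kernel
def p14_22_1_79 : pfC (piC [(nat_lit 30365544), (nat_lit 20402210), (nat_lit 13167684)] (nat_lit 11363143)) p14_22_1 (nat_lit 3) (nat_lit 79) (nat_lit 80) = true := by decide +kernel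
def p14_22_1_80 : pfC (piC [(nat_lit 30365544), (nat_lit 20402210), (nat_lit 13167684)] (nat_lit 11363143)) p14_22_1 (nat_lit 3) (nat_lit 80) (nat_lit 81) = true := by decide +kernel
def p14_22_1_81 : pfC (piC [(nat_lit 30365544), (nat_lit 20402210), (nat_lit 13167684)] (nat_lit 11363143)) p14_22_1 (nat_lit 3) (nat_lit 81) (nat_lit 82) = true := by decide +kernel
def p14_22_1_82 : pfC (piC [(nat_lit 30365544), (nat_lit 20402210), (nat_lit 13167684)] (nat_lit 11363143)) p14_22_1 (nat_lit 3) (nat_lit 82) (nat_lit 83) = true := by decide +kernel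
def p14_22_1_83 : pfC (piC [(nat_lit 30365544), (nat_lit 20402210), (nat_lit 13167684)] (nat_lit 11363143)) p14_22_1 (nat_lit 3) (nat_lit 83) (nat_lit 84) = true := by decide +kernel
def p14_22_1_84 : pfC (piC [(nat_lit 30365544), (nat_lit 20402210), (nat_lit 13167684)] (nat_lit 11363143)) p14_22_1 (nat_lit 3) (nat_lit 84) (nat_lit 85) = true := by decide +kernel
def p14_22_1_85 : pfC (piC [(nat_lit 30365544), (nat_lit 20402210), (nat_lit 13167684)] (nat_lit 11363143)) p14_22_1 (nat_lit 3) (nat_lit 85) (nat_lit 86) = true := by decide +kernel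
def p14_22_1_86 : pfC (piC [(nat_lit 30365544), (nat_lit 20402210), (nat_lit 13167684)] (nat_lit 11363143)) p14_22_1 (nat_lit 3) (nat_lit 86) (nat_lit 87) = true := by decide +kernel
def p14_22_1_87 : pfC (piC [(nat_lit 30365544), (nat_lit 20402210), (nat_lit 13167684)] (nat_lit 11363143)) p14_22_1 (nat_lit 3) (nat_lit 87) (nat_lit 88) = true := by decide +kernel
def p14_22_1_88 : pfC (piC [(nat_lit 30365544), (nat_lit 20402210), (nat_lit 13167684)] (nat_lit 11363143)) p14_22_1 (nat_lit 3) (nat_lit 88) (nat_lit 89) = true := by decide +kernel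
def p14_22_1_89 : pfC (piC [(nat_lit 30365544), (nat_lit 20402210), (nat_lit 13167684)] (nat_lit 11363143)) p14_22_1 (nat_lit 3) (nat_lit 89) (nat_lit 90) = true := by decide +kernel
def p14_22_1_90 : pfC (piC [(nat_lit 30365544), (nat_lit 20402210), (nat_lit 13167684)] (nat_lit 11363143)) p14_22_1 (nat_lit 3) (nat_lit 90) (nat_lit 91) = true := by decide +kernel
def p14_22_1_91 : pfC (piC [(nat_lit 30365544), (nat_lit 20402210), (nat_lit 13167684)] (nat_lit 11363143)) p14_22_1 (nat_lit 3) (nat_lit 91) (nat_lit 92) = true := by decide +kernel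
def p14_22_1_92 : pfC (piC [(nat_lit 30365544), (nat_lit 20402210), (nat_lit 13167684)] (nat_lit 11363143)) p14_22_1 (nat_lit 3) (nat_lit 92) (nat_lit 93) = true := by decide +kernel
def p14_22_1_93 : pfC (piC [(nat_lit 30365544), (nat_lit 20402210), (nat_lit 13167684)] (nat_lit 11363143)) p14_22_1 (nat_lit 3) (nat_lit 93) (nat_lit 94) = true := by decide +kernel
def p14_22_1_94 : pfC (piC [(nat_lit 30365544), (nat_lit 20402210), (nat_lit 13167684)] (nat_lit 11363143)) p14_22_1 (nat_lit 3) (nat_lit 94) (nat_lit 95) = true := by decide +kernel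
def p14_22_1_95 : pfC (piC [(nat_lit 30365544), (nat_lit 20402210), (nat_lit 13167684)] (nat_lit 11363143)) p14_22_1 (nat_lit 3) (nat_lit 95) (nat_lit 96) = true := by decide +kernel
def p14_22_1_96 : pfC (piC [(nat_lit 30365544), (nat_lit 20402210), (nat_lit 13167684)] (nat_lit 11363143)) p14_22_1 (nat_lit 3) (nat_lit 96) (nat_lit 97) = true := by decide +kernel
def p14_22_1_97 : pfC (piC [(nat_lit 30365544), (nat_lit 20402210), (nat_lit 13167684)] (nat_lit 11363143)) p14_22_1 (nat_lit 3) (nat_lit 97) (nat_lit 98) = true := by decide +kernel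
def p14_22_1_98 : pfC (piC [(nat_lit 30365544), (nat_lit 20402210), (nat_lit 13167684)] (nat_lit 11363143)) p14_22_1 (nat_lit 3) (nat_lit 98) (nat_lit 99) = true := by decide +kernel
def p14_22_1_99 : pfC (piC [(nat_lit 30365544), (nat_lit 20402210), (nat_lit 13167684)] (nat_lit 11363143)) p14_22_1 (nat_lit 3) (nat_lit 99) (nat_lit 100) = true := by decide +kernel
def p14_22_1_100 : pfC (piC [(nat_lit 30365544), (nat_lit 20402210), (nat_lit 13167684)] (nat_lit 11363143)) p14_22_1 (nat_lit 3) (nat_lit 100) (nat_lit 101) = true := by decide +kernel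
def p14_22_1_101 : pfC (piC [(nat_lit 30365544), (nat_lit 20402210), (nat_lit 13167684)] (nat_lit 11363143)) p14_22_1 (nat_lit 3) (nat_lit 101) (nat_lit 102) = true := by decide +kernel
def p14_22_1_102 : pfC (piC [(nat_lit 30365544), (nat_lit 20402210), (nat_lit 13167684)] (nat_lit 11363143)) p14_22_1 (nat_lit 3) (nat_lit 102) (nat_lit 103) = true := by decide +kernel
def p14_22_1_103 : pfC (piC [(nat_lit 30365544), (nat_lit 20402210), (nat_lit 13167684)] (nat_lit 11363143)) p14_22_1 (nat_lit 3) (nat_lit 103) (nat_lit 104) = true := by decide +kernel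
def p14_22_1_104 : pfC (piC [(nat_lit 30365544), (nat_lit 20402210), (nat_lit 13167684)] (nat_lit 11363143)) p14_22_1 (nat_lit 3) (nat_lit 104) (nat_lit 105) = true := by decide +kernel
def p14_22_1_105 : pfC (piC [(nat_lit 30365544), (nat_lit 20402210), (nat_lit 13167684)] (nat_lit 11363143)) p14_22_1 (nat_lit 3) (nat_lit 105) (nat_lit 106) = true := by decide +kernel
def p14_22_1_106 : pfC (piC [(nat_lit 30365544), (nat_lit 20402210), (nat_lit 13167684)] (nat_lit 11363143)) p14_22_1 (nat_lit 3) (nat_lit 106) (nat_lit 107) = true := by decide +kernel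
def p14_22_1_107 : pfC (piC [(nat_lit 30365544), (nat_lit 20402210), (nat_lit 13167684)] (nat_lit 11363143)) p14_22_1 (nat_lit 3) (nat_lit 107) (nat_lit 108) = true := by decide +kernel
def p14_22_1_108 : pfC (piC [(nat_lit 30365544), (nat_lit 20402210), (nat_lit 13167684)] (nat_lit 11363143)) p14_22_1 (nat_lit 3) (nat_lit 108) (nat_lit 109) = true := by decide +kernel
def p14_22_1_109 : pfC (piC [(nat_lit 30365544), (nat_lit 20402210), (nat_lit 13167684)] (nat_lit 11363143)) p14_22_1 (nat_lit 3) (nat_lit 109) (nat_lit 110) = true := by decide +kernel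
def p14_22_1_110 : pfC (piC [(nat_lit 30365544), (nat_lit 20402210), (nat_lit 13167684)] (nat_lit 11363143)) p14_22_1 (nat_lit 3) (nat_lit 110) (nat_lit 111) = true := by decide +kernel
def p14_22_1_111 : pfC (piC [(nat_lit 30365544), (nat_lit 20402210), (nat_lit 13167684)] (nat_lit 11363143)) p14_22_1 (nat_lit 3) (nat_lit 111) (nat_lit 112) = true := by decide +kernel
def p14_22_1_112 : pfC (piC [(nat_lit 30365544), (nat_lit 20402210), (nat_lit 13167684)] (nat_lit 11363143)) p14_22_1 (nat_lit 3) (nat_lit 112) (nat_lit 113) = true := by decide +kernel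
def p14_22_1_113 : pfC (piC [(nat_lit 30365544), (nat_lit 20402210), (nat_lit 13167684)] (nat_lit 11363143)) p14_22_1 (nat_lit 3) (nat_lit 113) (nat_lit 114) = true := by decide +kernel
def p14_22_1_114 : pfC (piC [(nat_lit 30365544), (nat_lit 20402210), (nat_lit 13167684)] (nat_lit 11363143)) p14_22_1 (nat_lit 3) (nat_lit 114) (nat_lit 115) = true := by decide +kernel
def p14_22_1_115 : pfC (piC [(nat_lit 30365544), (nat_lit 20402210), (nat_lit 13167684)] (nat_lit 11363143)) p14_22_1 (nat_lit 3) (nat_lit 115) (nat_lit 116) = true := by decide +kernel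
def p14_22_1_116 : pfC (piC [(nat_lit 30365544), (nat_lit 20402210), (nat_lit 13167684)] (nat_lit 11363143)) p14_22_1 (nat_lit 3) (nat_lit 116) (nat_lit 117) = true := by decide +kernel
def p14_22_1_117 : pfC (piC [(nat_lit 30365544), (nat_lit 20402210), (nat_lit 13167684)] (nat_lit 11363143)) p14_22_1 (nat_lit 3) (nat_lit 117) (nat_lit 118) = true := by decide +kernel
def p14_22_1_118 : pfC (piC [(nat_lit 30365544), (nat_lit 20402210), (nat_lit 13167684)] (nat_lit 11363143)) p14_22_1 (nat_lit 3) (nat_lit 118) (nat_lit 119) = true := by decide +kernel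
def p14_22_1_119 : pfC (piC [(nat_lit 30365544), (nat_lit 20402210), (nat_lit 13167684)] (nat_lit 11363143)) p14_22_1 (nat_lit 3) (nat_lit 119) (nat_lit 120) = true := by decide +kernel
def p14_22_1_120 : pfC (piC [(nat_lit 30365544), (nat_lit 20402210), (nat_lit 13167684)] (nat_lit 11363143)) p14_22_1 (nat_lit 3) (nat_lit 120) (nat_lit 121) = true := by decide +kernel
def p14_22_1_121 : pfC (piC [(nat_lit 30365544), (nat_lit 20402210), (nat_lit 13167684)] (nat_lit 11363143)) p14_22_1 (nat_lit 3) (nat_lit 121) (nat_lit 122) = true := by decide +kernel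
def p14_22_1_122 : pfC (piC [(nat_lit 30365544), (nat_lit 20402210), (nat_lit 13167684)] (nat_lit 11363143)) p14_22_1 (nat_lit 3) (nat_lit 122) (nat_lit 123) = true := by decide +kernel
def p14_22_1_123 : pfC (piC [(nat_lit 30365544), (nat_lit 20402210), (nat_lit 13167684)] (nat_lit 11363143)) p14_22_1 (nat_lit 3) (nat_lit 123) (nat_lit 124) = true := by decide +kernel
def p14_22_1_124 : pfC (piC [(nat_lit 30365544), (nat_lit 20402210), (nat_lit 13167684)] (nat_lit 11363143)) p14_22_1 (nat_lit 3) (nat_lit 124) (nat_lit 125) = true := by decide +kernel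
def p14_22_1_125 : pfC (piC [(nat_lit 30365544), (nat_lit 20402210), (nat_lit 13167684)] (nat_lit 11363143)) p14_22_1 (nat_lit 3) (nat_lit 125) (nat_lit 126) = true := by decide +kernel
def p14_22_1_126 : pfC (piC [(nat_lit 30365544), (nat_lit 20402210), (nat_lit 13167684)] (nat_lit 11363143)) p14_22_1 (nat_lit 3) (nat_lit 126) (nat_lit 127) = true := by decide +kernel
def p14_22_1_127 : pfC (piC [(nat_lit 30365544), (nat_lit 20402210), (nat_lit 13167684)] (nat_lit 11363143)) p14_22_1 (nat_lit 3) (nat_lit 127) (nat_lit 128) = true := by decide +kernel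
def p14_22_1_128 : pfC (piC [(nat_lit 30365544), (nat_lit 20402210), (nat_lit 13167684)] (nat_lit 11363143)) p14_22_1 (nat_lit 3) (nat_lit 128) (nat_lit 129) = true := by decide +kernel
def p14_22_1_129 : pfC (piC [(nat_lit 30365544), (nat_lit 20402210), (nat_lit 13167684)] (nat_lit 11363143)) p14_22_1 (nat_lit 3) (nat_lit 129) (nat_lit 130) = true := by decide +kernel
def p14_22_1_130 : pfC (piC [(nat_lit 30365544), (nat_lit 20402210), (nat_lit 13167684)] (nat_lit 11363143)) p14_22_1 (nat_lit 3) (nat_lit 130) (nat_lit 131) = true := by decide +kernel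
def p14_22_1_131 : pfC (piC [(nat_lit 30365544), (nat_lit 20402210), (nat_lit 13167684)] (nat_lit 11363143)) p14_22_1 (nat_lit 3) (nat_lit 131) (nat_lit 132) = true := by decide +kernel
def p14_22_1_132 : pfC (piC [(nat_lit 30365544), (nat_lit 20402210), (nat_lit 13167684)] (nat_lit 11363143)) p14_22_1 (nat_lit 3) (nat_lit 132) (nat_lit 133) = true := by decide +kernel
def p14_22_1_133 : pfC (piC [(nat_lit 30365544), (nat_lit 20402210), (nat_lit 13167684)] (nat_lit 11363143)) p14_22_1 (nat_lit 3) (nat_lit 133) (nat_lit 134) = true := by decide +kernel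
def p14_22_1_134 : pfC (piC [(nat_lit 30365544), (nat_lit 20402210), (nat_lit 13167684)] (nat_lit 11363143)) p14_22_1 (nat_lit 3) (nat_lit 134) (nat_lit 135) = true := by decide +kernel
def p14_22_1_135 : pfC (piC [(nat_lit 30365544), (nat_lit 20402210), (nat_lit 13167684)] (nat_lit 11363143)) p14_22_1 (nat_lit 3) (nat_lit 135) (nat_lit 136) = true := by decide +kernel
def p14_22_1_136 : pfC (piC [(nat_lit 30365544), (nat_lit 20402210), (nat_lit 13167684)] (nat_lit 11363143)) p14_22_1 (nat_lit 3) (nat_lit 136) (nat_lit 137) = true := by decide +kernel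
def p14_22_1_137 : pfC (piC [(nat_lit 30365544), (nat_lit 20402210), (nat_lit 13167684)] (nat_lit 11363143)) p14_22_1 (nat_lit 3) (nat_lit 137) (nat_lit 138) = true := by decide +kernel
def p14_22_1_138 : pfC (piC [(nat_lit 30365544), (nat_lit 20402210), (nat_lit 13167684)] (nat_lit 11363143)) p14_22_1 (nat_lit 3) (nat_lit 138) (nat_lit 139) = true := by decide +kernel
def p14_22_1_139 : pfC (piC [(nat_lit 30365544), (nat_lit 20402210), (nat_lit 13167684)] (nat_lit 11363143)) p14_22_1 (nat_lit 3) (nat_lit 139) (nat_lit 140) = true := by decide +kernel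
def p14_22_1_140 : pfC (piC [(nat_lit 30365544), (nat_lit 20402210), (nat_lit 13167684)] (nat_lit 11363143)) p14_22_1 (nat_lit 3) (nat_lit 140) (nat_lit 141) = true := by decide +kernel
def p14_22_1_141 : pfC (piC [(nat_lit 30365544), (nat_lit 20402210), (nat_lit 13167684)] (nat_lit 11363143)) p14_22_1 (nat_lit 3) (nat_lit 141) (nat_lit 142) = true := by decide +kernel
def p14_22_1_142 : pfC (piC [(nat_lit 30365544), (nat_lit 20402210), (nat_lit 13167684)] (nat_lit 11363143)) p14_22_1 (nat_lit 3) (nat_lit 142) (nat_lit 143) = true := by decide +kernel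
def p14_22_1_143 : pfC (piC [(nat_lit 30365544), (nat_lit 20402210), (nat_lit 13167684)] (nat_lit 11363143)) p14_22_1 (nat_lit 3) (nat_lit 143) (nat_lit 144) = true := by decide +kernel
def p14_22_1_144 : pfC (piC [(nat_lit 30365544), (nat_lit 20402210), (nat_lit 13167684)] (nat_lit 11363143)) p14_22_1 (nat_lit 3) (nat_lit 144) (nat_lit 145) = true := by decide +kernel
def p14_22_1_145 : pfC (piC [(nat_lit 30365544), (nat_lit 20402210), (nat_lit 13167684)] (nat_lit 11363143)) p14_22_1 (nat_lit 3) (nat_lit 145) (nat_lit 146) = true := by decide +kernel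
def p14_22_1_146 : pfC (piC [(nat_lit 30365544), (nat_lit 20402210), (nat_lit 13167684)] (nat_lit 11363143)) p14_22_1 (nat_lit 3) (nat_lit 146) (nat_lit 147) = true := by decide +kernel
def p14_22_1_147 : pfC (piC [(nat_lit 30365544), (nat_lit 20402210), (nat_lit 13167684)] (nat_lit 11363143)) p14_22_1 (nat_lit 3) (nat_lit 147) (nat_lit 148) = true := by decide +kernel
def p14_22_1_148 : pfC (piC [(nat_lit 30365544), (nat_lit 20402210), (nat_lit 13167684)] (nat_lit 11363143)) p14_22_1 (nat_lit 3) (nat_lit 148) (nat_lit 149) = true := by decide +kernel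
def p14_22_1_149 : pfC (piC [(nat_lit 30365544), (nat_lit 20402210), (nat_lit 13167684)] (nat_lit 11363143)) p14_22_1 (nat_lit 3) (nat_lit 149) (nat_lit 150) = true := by decide +kernel
def p14_22_1_150 : pfC (piC [(nat_lit 30365544), (nat_lit 20402210), (nat_lit 13167684)] (nat_lit 11363143)) p14_22_1 (nat_lit 3) (nat_lit 150) (nat_lit 151) = true := by decide +kernel
def p14_22_1_151 : pfC (piC [(nat_lit 30365544), (nat_lit 20402210), (nat_lit 13167684)] (nat_lit 11363143)) p14_22_1 (nat_lit 3) (nat_lit 151) (nat_lit 152) = true := by decide +kernel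
def p14_22_1_152 : pfC (piC [(nat_lit 30365544), (nat_lit 20402210), (nat_lit 13167684)] (nat_lit 11363143)) p14_22_1 (nat_lit 3) (nat_lit 152) (nat_lit 153) = true := by decide +kernel
def p14_22_1_153 : pfC (piC [(nat_lit 30365544), (nat_lit 20402210), (nat_lit 13167684)] (nat_lit 11363143)) p14_22_1 (nat_lit 3) (nat_lit 153) (nat_lit 154) = true := by decide +kernel
def p14_22_1_154 : pfC (piC [(nat_lit 30365544), (nat_lit 20402210), (nat_lit 13167684)] (nat_lit 11363143)) p14_22_1 (nat_lit 3) (nat_lit 154) (nat_lit 155) = true := by decide +kernel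
def p14_22_1_155 : pfC (piC [(nat_lit 30365544), (nat_lit 20402210), (nat_lit 13167684)] (nat_lit 11363143)) p14_22_1 (nat_lit 3) (nat_lit 155) (nat_lit 156) = true := by decide +kernel
def p14_22_1_156 : pfC (piC [(nat_lit 30365544), (nat_lit 20402210), (nat_lit 13167684)] (nat_lit 11363143)) p14_22_1 (nat_lit 3) (nat_lit 156) (nat_lit 157) = true := by decide +kernel
def p14_22_1_157 : pfC (piC [(nat_lit 30365544), (nat_lit 20402210), (nat_lit 13167684)] (nat_lit 11363143)) p14_22_1 (nat_lit 3) (nat_lit 157) (nat_lit 158) = true := by decide +kernel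
def p14_22_1_158 : pfC (piC [(nat_lit 30365544), (nat_lit 20402210), (nat_lit 13167684)] (nat_lit 11363143)) p14_22_1 (nat_lit 3) (nat_lit 158) (nat_lit 159) = true := by decide +kernel
def p14_22_1_159 : pfC (piC [(nat_lit 30365544), (nat_lit 20402210), (nat_lit 13167684)] (nat_lit 11363143)) p14_22_1 (nat_lit 3) (nat_lit 159) (nat_lit 160) = true := by decide +kernel
def p14_22_1_160 : pfC (piC [(nat_lit 30365544), (nat_lit 20402210), (nat_lit 13167684)] (nat_lit 11363143)) p14_22_1 (nat_lit 3) (nat_lit 160) (nat_lit 161) = true := by decide +kernel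
def p14_22_1_161 : pfC (piC [(nat_lit 30365544), (nat_lit 20402210), (nat_lit 13167684)] (nat_lit 11363143)) p14_22_1 (nat_lit 3) (nat_lit 161) (nat_lit 162) = true := by decide +kernel
def p14_22_1_162 : pfC (piC [(nat_lit 30365544), (nat_lit 20402210), (nat_lit 13167684)] (nat_lit 11363143)) p14_22_1 (nat_lit 3) (nat_lit 162) (nat_lit 163) = true := by decide +kernel
def p14_22_1_163 : pfC (piC [(nat_lit 30365544), (nat_lit 20402210), (nat_lit 13167684)] (nat_lit 11363143)) p14_22_1 (nat_lit 3) (nat_lit 163) (nat_lit 164) = true := by decide +kernel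
def p14_22_1_164 : pfC (piC [(nat_lit 30365544), (nat_lit 20402210), (nat_lit 13167684)] (nat_lit 11363143)) p14_22_1 (nat_lit 3) (nat_lit 164) (nat_lit 165) = true := by decide +kernel
def p14_22_1_165 : pfC (piC [(nat_lit 30365544), (nat_lit 20402210), (nat_lit 13167684)] (nat_lit 11363143)) p14_22_1 (nat_lit 3) (nat_lit 165) (nat_lit 166) = true := by decide +kernel
def p14_22_1_166 : pfC (piC [(nat_lit 30365544), (nat_lit 20402210), (nat_lit 13167684)] (nat_lit 11363143)) p14_22_1 (nat_lit 3) (nat_lit 166) (nat_lit 167) = true := by decide +kernel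
def p14_22_1_167 : pfC (piC [(nat_lit 30365544), (nat_lit 20402210), (nat_lit 13167684)] (nat_lit 11363143)) p14_22_1 (nat_lit 3) (nat_lit 167) (nat_lit 168) = true := by decide +kernel
def p14_22_1_168 : pfC (piC [(nat_lit 30365544), (nat_lit 20402210), (nat_lit 13167684)] (nat_lit 11363143)) p14_22_1 (nat_lit 3) (nat_lit 168) (nat_lit 169) = true := by decide +kernel
def p14_22_1_169 : pfC (piC [(nat_lit 30365544), (nat_lit 20402210), (nat_lit 13167684)] (nat_lit 11363143)) p14_22_1 (nat_lit 3) (nat_lit 169) (nat_lit 170) = true := by decide +kernel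
def p14_22_1_170 : pfC (piC [(nat_lit 30365544), (nat_lit 20402210), (nat_lit 13167684)] (nat_lit 11363143)) p14_22_1 (nat_lit 3) (nat_lit 170) (nat_lit 171) = true := by decide +kernel
def p14_22_1_171 : pfC (piC [(nat_lit 30365544), (nat_lit 20402210), (nat_lit 13167684)] (nat_lit 11363143)) p14_22_1 (nat_lit 3) (nat_lit 171) (nat_lit 172) = true := by decide +kernel
def p14_22_1_172 : pfC (piC [(nat_lit 30365544), (nat_lit 20402210), (nat_lit 13167684)] (nat_lit 11363143)) p14_22_1 (nat_lit 3) (nat_lit 172) (nat_lit 173) = true := by decide +kernel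
def p14_22_1_173 : pfC (piC [(nat_lit 30365544), (nat_lit 20402210), (nat_lit 13167684)] (nat_lit 11363143)) p14_22_1 (nat_lit 3) (nat_lit 173) (nat_lit 174) = true := by decide +kernel
def p14_22_1_174 : pfC (piC [(nat_lit 30365544), (nat_lit 20402210), (nat_lit 13167684)] (nat_lit 11363143)) p14_22_1 (nat_lit 3) (nat_lit 174) (nat_lit 175) = true := by decide +kernel
def p14_22_1_175 : pfC (piC [(nat_lit 30365544), (nat_lit 20402210), (nat_lit 13167684)] (nat_lit 11363143)) p14_22_1 (nat_lit 3) (nat_lit 175) (nat_lit 176) = true := by decide +kernel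
def p14_22_1_176 : pfC (piC [(nat_lit 30365544), (nat_lit 20402210), (nat_lit 13167684)] (nat_lit 11363143)) p14_22_1 (nat_lit 3) (nat_lit 176) (nat_lit 177) = true := by decide +kernel
def p14_22_1_177 : pfC (piC [(nat_lit 30365544), (nat_lit 20402210), (nat_lit 13167684)] (nat_lit 11363143)) p14_22_1 (nat_lit 3) (nat_lit 177) (nat_lit 178) = true := by decide +kernel
def p14_22_1_178 : pfC (piC [(nat_lit 30365544), (nat_lit 20402210), (nat_lit 13167684)] (nat_lit 11363143)) p14_22_1 (nat_lit 3) (nat_lit 178) (nat_lit 179) = true := by decide +kernel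
def p14_22_1_179 : pfC (piC [(nat_lit 30365544), (nat_lit 20402210), (nat_lit 13167684)] (nat_lit 11363143)) p14_22_1 (nat_lit 3) (nat_lit 179) (nat_lit 180) = true := by decide +kernel
def p14_22_1_180 : pfC (piC [(nat_lit 30365544), (nat_lit 20402210), (nat_lit 13167684)] (nat_lit 11363143)) p14_22_1 (nat_lit 3) (nat_lit 180) (nat_lit 181) = true := by decide +kernel
def p14_22_1_181 : pfC (piC [(nat_lit 30365544), (nat_lit 20402210), (nat_lit 13167684)] (nat_lit 11363143)) p14_22_1 (nat_lit 3) (nat_lit 181) (nat_lit 182) = true := by decide +kernel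
def p14_22_1_182 : pfC (piC [(nat_lit 30365544), (nat_lit 20402210), (nat_lit 13167684)] (nat_lit 11363143)) p14_22_1 (nat_lit 3) (nat_lit 182) (nat_lit 183) = true := by decide +kernel
def p14_22_1_183 : pfC (piC [(nat_lit 30365544), (nat_lit 20402210), (nat_lit 13167684)] (nat_lit 11363143)) p14_22_1 (nat_lit 3) (nat_lit 183) (nat_lit 184) = true := by decide +kernel
def p14_22_1_184 : pfC (piC [(nat_lit 30365544), (nat_lit 20402210), (nat_lit 13167684)] (nat_lit 11363143)) p14_22_1 (nat_lit 3) (nat_lit 184) (nat_lit 185) = true := by decide +kernel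
def p14_22_1_185 : pfC (piC [(nat_lit 30365544), (nat_lit 20402210), (nat_lit 13167684)] (nat_lit 11363143)) p14_22_1 (nat_lit 3) (nat_lit 185) (nat_lit 186) = true := by decide +kernel
def p14_22_1_186 : pfC (piC [(nat_lit 30365544), (nat_lit 20402210), (nat_lit 13167684)] (nat_lit 11363143)) p14_22_1 (nat_lit 3) (nat_lit 186) (nat_lit 187) = true := by decide +kernel
def p14_22_1_187 : pfC (piC [(nat_lit 30365544), (nat_lit 20402210), (nat_lit 13167684)] (nat_lit 11363143)) p14_22_1 (nat_lit 3) (nat_lit 187) (nat_lit 188) = true := by decide +kernel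
def p14_22_1_188 : pfC (piC [(nat_lit 30365544), (nat_lit 20402210), (nat_lit 13167684)] (nat_lit 11363143)) p14_22_1 (nat_lit 3) (nat_lit 188) (nat_lit 189) = true := by decide +kernel
def p14_22_1_189 : pfC (piC [(nat_lit 30365544), (nat_lit 20402210), (nat_lit 13167684)] (nat_lit 11363143)) p14_22_1 (nat_lit 3) (nat_lit 189) (nat_lit 190) = true := by decide +kernel
def p14_22_1_190 : pfC (piC [(nat_lit 30365544), (nat_lit 20402210), (nat_lit 13167684)] (nat_lit 11363143)) p14_22_1 (nat_lit 3) (nat_lit 190) (nat_lit 191) = true := by decide +kernel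
def p14_22_1_191 : pfC (piC [(nat_lit 30365544), (nat_lit 20402210), (nat_lit 13167684)] (nat_lit 11363143)) p14_22_1 (nat_lit 3) (nat_lit 191) (nat_lit 192) = true := by decide +kernel
def p14_22_1_192 : pfC (piC [(nat_lit 30365544), (nat_lit 20402210), (nat_lit 13167684)] (nat_lit 11363143)) p14_22_1 (nat_lit 3) (nat_lit 192) (nat_lit 193) = true := by decide +kernel
def p14_22_1_193 : pfC (piC [(nat_lit 30365544), (nat_lit 20402210), (nat_lit 13167684)] (nat_lit 11363143)) p14_22_1 (nat_lit 3) (nat_lit 193) (nat_lit 194) = true := by decide +kernel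
def p14_22_1_194 : pfC (piC [(nat_lit 30365544), (nat_lit 20402210), (nat_lit 13167684)] (nat_lit 11363143)) p14_22_1 (nat_lit 3) (nat_lit 194) (nat_lit 195) = true := by decide +kernel
def p14_22_1_195 : pfC (piC [(nat_lit 30365544), (nat_lit 20402210), (nat_lit 13167684)] (nat_lit 11363143)) p14_22_1 (nat_lit 3) (nat_lit 195) (nat_lit 196) = true := by decide +kernel
def p14_22_1_196 : pfC (piC [(nat_lit 30365544), (nat_lit 20402210), (nat_lit 13167684)] (nat_lit 11363143)) p14_22_1 (nat_lit 3) (nat_lit 196) (nat_lit 197) = true := by decide +kernel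
def p14_22_1_197 : pfC (piC [(nat_lit 30365544), (nat_lit 20402210), (nat_lit 13167684)] (nat_lit 11363143)) p14_22_1 (nat_lit 3) (nat_lit 197) (nat_lit 198) = true := by decide +kernel
def p14_22_1_198 : pfC (piC [(nat_lit 30365544), (nat_lit 20402210), (nat_lit 13167684)] (nat_lit 11363143)) p14_22_1 (nat_lit 3) (nat_lit 198) (nat_lit 199) = true := by decide +kernel
def p14_22_1_199 : pfC (piC [(nat_lit 30365544), (nat_lit 20402210), (nat_lit 13167684)] (nat_lit 11363143)) p14_22_1 (nat_lit 3) (nat_lit 199) (nat_lit 200) = true := by decide +kernel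
def p14_22_1_200 : pfC (piC [(nat_lit 30365544), (nat_lit 20402210), (nat_lit 13167684)] (nat_lit 11363143)) p14_22_1 (nat_lit 3) (nat_lit 200) (nat_lit 201) = true := by decide +kernel
def p14_22_1_201 : pfC (piC [(nat_lit 30365544), (nat_lit 20402210), (nat_lit 13167684)] (nat_lit 11363143)) p14_22_1 (nat_lit 3) (nat_lit 201) (nat_lit 202) = true := by decide +kernel
def p14_22_1_202 : pfC (piC [(nat_lit 30365544), (nat_lit 20402210), (nat_lit 13167684)] (nat_lit 11363143)) p14_22_1 (nat_lit 3) (nat_lit 202) (nat_lit 203) = true := by decide +kernel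
def p14_22_1_203 : pfC (piC [(nat_lit 30365544), (nat_lit 20402210), (nat_lit 13167684)] (nat_lit 11363143)) p14_22_1 (nat_lit 3) (nat_lit 203) (nat_lit 204) = true := by decide +kernel
def p14_22_1_204 : pfC (piC [(nat_lit 30365544), (nat_lit 20402210), (nat_lit 13167684)] (nat_lit 11363143)) p14_22_1 (nat_lit 3) (nat_lit 204) (nat_lit 205) = true := by decide +kernel
def p14_22_1_205 : pfC (piC [(nat_lit 30365544), (nat_lit 20402210), (nat_lit 13167684)] (nat_lit 11363143)) p14_22_1 (nat_lit 3) (nat_lit 205) (nat_lit 206) = true := by decide +kernel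
def p14_22_1_206 : pfC (piC [(nat_lit 30365544), (nat_lit 20402210), (nat_lit 13167684)] (nat_lit 11363143)) p14_22_1 (nat_lit 3) (nat_lit 206) (nat_lit 207) = true := by decide +kernel
def p14_22_1_207 : pfC (piC [(nat_lit 30365544), (nat_lit 20402210), (nat_lit 13167684)] (nat_lit 11363143)) p14_22_1 (nat_lit 3) (nat_lit 207) (nat_lit 208) = true := by decide +kernel
def p14_22_1_208 : pfC (piC [(nat_lit 30365544), (nat_lit 20402210), (nat_lit 13167684)] (nat_lit 11363143)) p14_22_1 (nat_lit 3) (nat_lit 208) (nat_lit 209) = true := by decide +kernel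
def p14_22_1_209 : pfC (piC [(nat_lit 30365544), (nat_lit 20402210), (nat_lit 13167684)] (nat_lit 11363143)) p14_22_1 (nat_lit 3) (nat_lit 209) (nat_lit 210) = true := by decide +kernel
def p14_22_1_210 : pfC (piC [(nat_lit 30365544), (nat_lit 20402210), (nat_lit 13167684)] (nat_lit 11363143)) p14_22_1 (nat_lit 3) (nat_lit 210) (nat_lit 211) = true := by decide +kernel
def p14_22_1_211 : pfC (piC [(nat_lit 30365544), (nat_lit 20402210), (nat_lit 13167684)] (nat_lit 11363143)) p14_22_1 (nat_lit 3) (nat_lit 211) (nat_lit 212) = true := by decide +kernel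
def p14_22_1_212 : pfC (piC [(nat_lit 30365544), (nat_lit 20402210), (nat_lit 13167684)] (nat_lit 11363143)) p14_22_1 (nat_lit 3) (nat_lit 212) (nat_lit 213) = true := by decide +kernel
def p14_22_1_213 : pfC (piC [(nat_lit 30365544), (nat_lit 20402210), (nat_lit 13167684)] (nat_lit 11363143)) p14_22_1 (nat_lit 3) (nat_lit 213) (nat_lit 214) = true := by decide +kernel
def p14_22_1_214 : pfC (piC [(nat_lit 30365544), (nat_lit 20402210), (nat_lit 13167684)] (nat_lit 11363143)) p14_22_1 (nat_lit 3) (nat_lit 214) (nat_lit 215) = true := by decide +kernel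
def p14_22_1_215 : pfC (piC [(nat_lit 30365544), (nat_lit 20402210), (nat_lit 13167684)] (nat_lit 11363143)) p14_22_1 (nat_lit 3) (nat_lit 215) (nat_lit 216) = true := by decide +kernel
def p14_22_1_216 : pfC (piC [(nat_lit 30365544), (nat_lit 20402210), (nat_lit 13167684)] (nat_lit 11363143)) p14_22_1 (nat_lit 3) (nat_lit 216) (nat_lit 217) = true := by decide +kernel
def p14_22_1_217 : pfC (piC [(nat_lit 30365544), (nat_lit 20402210), (nat_lit 13167684)] (nat_lit 11363143)) p14_22_1 (nat_lit 3) (nat_lit 217) (nat_lit 218) = true := by decide +kernel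
def p14_22_1_218 : pfC (piC [(nat_lit 30365544), (nat_lit 20402210), (nat_lit 13167684)] (nat_lit 11363143)) p14_22_1 (nat_lit 3) (nat_lit 218) (nat_lit 219) = true := by decide +kernel
def p14_22_1_219 : pfC (piC [(nat_lit 30365544), (nat_lit 20402210), (nat_lit 13167684)] (nat_lit 11363143)) p14_22_1 (nat_lit 3) (nat_lit 219) (nat_lit 220) = true := by decide +kernel
def p14_22_1_220 : pfC (piC [(nat_lit 30365544), (nat_lit 20402210), (nat_lit 13167684)] (nat_lit 11363143)) p14_22_1 (nat_lit 3) (nat_lit 220) (nat_lit 221) = true := by decide +kernel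
def p14_22_1_221 : pfC (piC [(nat_lit 30365544), (nat_lit 20402210), (nat_lit 13167684)] (nat_lit 11363143)) p14_22_1 (nat_lit 3) (nat_lit 221) (nat_lit 222) = true := by decide +kernel
def p14_22_1_222 : pfC (piC [(nat_lit 30365544), (nat_lit 20402210), (nat_lit 13167684)] (nat_lit 11363143)) p14_22_1 (nat_lit 3) (nat_lit 222) (nat_lit 223) = true := by decide +kernel
def p14_22_1_223 : pfC (piC [(nat_lit 30365544), (nat_lit 20402210), (nat_lit 13167684)] (nat_lit 11363143)) p14_22_1 (nat_lit 3) (nat_lit 223) (nat_lit 224) = true := by decide +kernel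
def p14_22_1_224 : pfC (piC [(nat_lit 30365544), (nat_lit 20402210), (nat_lit 13167684)] (nat_lit 11363143)) p14_22_1 (nat_lit 3) (nat_lit 224) (nat_lit 225) = true := by decide +kernel
def p14_22_1_225 : pfC (piC [(nat_lit 30365544), (nat_lit 20402210), (nat_lit 13167684)] (nat_lit 11363143)) p14_22_1 (nat_lit 3) (nat_lit 225) (nat_lit 226) = true := by decide +kernel
def p14_22_1_226 : pfC (piC [(nat_lit 30365544), (nat_lit 20402210), (nat_lit 13167684)] (nat_lit 11363143)) p14_22_1 (nat_lit 3) (nat_lit 226) (nat_lit 227) = true := by decide +kernel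
def p14_22_1_227 : pfC (piC [(nat_lit 30365544), (nat_lit 20402210), (nat_lit 13167684)] (nat_lit 11363143)) p14_22_1 (nat_lit 3) (nat_lit 227) (nat_lit 228) = true := by decide +kernel
def p14_22_1_228 : pfC (piC [(nat_lit 30365544), (nat_lit 20402210), (nat_lit 13167684)] (nat_lit 11363143)) p14_22_1 (nat_lit 3) (nat_lit 228) (nat_lit 229) = true := by decide +kernel
def p14_22_1_229 : pfC (piC [(nat_lit 30365544), (nat_lit 20402210), (nat_lit 13167684)] (nat_lit 11363143)) p14_22_1 (nat_lit 3) (nat_lit 229) (nat_lit 230) = true := by decide +kernel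
def p14_22_1_230 : pfC (piC [(nat_lit 30365544), (nat_lit 20402210), (nat_lit 13167684)] (nat_lit 11363143)) p14_22_1 (nat_lit 3) (nat_lit 230) (nat_lit 231) = true := by decide +kernel
def p14_22_1_231 : pfC (piC [(nat_lit 30365544), (nat_lit 20402210), (nat_lit 13167684)] (nat_lit 11363143)) p14_22_1 (nat_lit 3) (nat_lit 231) (nat_lit 232) = true := by decide +kernel
def p14_22_1_232 : pfC (piC [(nat_lit 30365544), (nat_lit 20402210), (nat_lit 13167684)] (nat_lit 11363143)) p14_22_1 (nat_lit 3) (nat_lit 232) (nat_lit 233) = true := by decide +kernel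
def p14_22_1_233 : pfC (piC [(nat_lit 30365544), (nat_lit 20402210), (nat_lit 13167684)] (nat_lit 11363143)) p14_22_1 (nat_lit 3) (nat_lit 233) (nat_lit 234) = true := by decide +kernel
def p14_22_1_234 : pfC (piC [(nat_lit 30365544), (nat_lit 20402210), (nat_lit 13167684)] (nat_lit 11363143)) p14_22_1 (nat_lit 3) (nat_lit 234) (nat_lit 235) = true := by decide +kernel
def p14_22_1_235 : pfC (piC [(nat_lit 30365544), (nat_lit 20402210), (nat_lit 13167684)] (nat_lit 11363143)) p14_22_1 (nat_lit 3) (nat_lit 235) (nat_lit 236) = true := by decide +kernel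
theorem p14_22_1_T : PfS (PiF n14_22.reverse (nat_lit 11363143)) p14_22_1 (nat_lit 3) [] 0 :=
  pftab_of (los := [(nat_lit 30365544), (nat_lit 20402210), (nat_lit 13167684)]) (by decide +kernel) (hi := (nat_lit 236)) (PfP.trans (PfP.trans (PfP.trans (PfP.trans (PfP.trans (PfP.trans (PfP.trans (PfP.trans (PfP.trans (PfP.trans (PfP.trans (PfP.trans (PfP.trans (PfP.trans (PfP.trans (PfP.trans (PfP.trans (PfP.trans (PfP.trans (PfP.trans (PfP.trans (PfP.trans (PfP.trans (PfP.trans (PfP.trans (PfP.trans (PfP.trans (PfP.trans (PfP.trans (PfP.trans (PfP.trans (PfP.trans (PfP.trans (PfP.trans (PfP.trans (PfP.trans (PfP.trans (PfP.trans (PfP.trans (PfP.trans (PfP.trans (PfP.trans (PfP.trans (PfP.trans (PfP.trans (PfP.trans (PfP.trans (PfP.trans (PfP.trans (PfP.trans (PfP.trans (PfP.trans (PfP.trans (PfP.trans (PfP.trans (PfP.trans (PfP.trans (PfP.trans (PfP.trans (PfP.trans (PfP.trans (PfP.trans (PfP.trans (PfP.trans (PfP.trans (PfP.trans (PfP.trans (PfP.trans (PfP.trans (PfP.trans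 (PfP.trans (PfP.trans (PfP.trans (PfP.trans (PfP.trans (PfP.trans (PfP.trans (PfP.trans (PfP.trans (PfP.trans (PfP.trans (PfP.trans (PfP.trans (PfP.trans (PfP.trans (PfP.trans (PfP.trans (PfP.trans (PfP.trans (PfP.trans (PfP.trans (PfP.trans (PfP.trans (PfP.trans (PfP.trans (PfP.trans (PfP.trans (PfP.trans (PfP.trans (PfP.trans (PfP.trans (PfP.trans (PfP.trans (PfP.trans (PfP.trans (PfP.trans (PfP.trans (PfP.trans (PfP.trans
 (PfP.trans (PfP.trans (PfP.trans (PfP.trans (PfP.trans (PfP.trans (PfP.trans (PfP.trans (PfP.trans (PfP.trans (PfP.trans (PfP.trans (PfP.trans (PfP.trans (PfP.trans (PfP.trans (PfP.trans (PfP.trans (PfP.trans (PfP.trans (PfP.trans (PfP.trans (PfP.trans (PfP.trans (PfP.trans (PfP.trans (PfP.trans (PfP.trans (PfP.trans (PfP.trans (PfP.trans (PfP.trans (PfP.trans (PfP.trans (PfP.trans (PfP.trans (PfP.trans (PfP.trans (PfP.trans (PfP.trans (PfP.trans (PfP.trans (PfP.trans (PfP.trans (PfP.trans (PfP.trans (PfP.trans (PfP.trans (PfP.trans (PfP.trans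 (PfP.trans (PfP.trans (PfP.trans (PfP.trans (PfP.trans (PfP.trans (PfP.trans (PfP.trans (PfP.trans (PfP.trans (PfP.trans (PfP.trans (PfP.trans (PfP.trans (PfP.trans (PfP.trans (PfP.trans (PfP.trans (PfP.trans (PfP.trans (PfP.trans (PfP.trans (PfP.trans (PfP.trans (PfP.trans (PfP.trans (PfP.trans (PfP.trans (PfP.trans (PfP.trans (PfP.trans (PfP.trans (PfP.trans (PfP.trans (PfP.trans (PfP.trans (PfP.trans (PfP.trans (PfP.trans (PfP.trans (PfP.trans (PfP.trans (PfP.trans (PfP.trans (PfP.trans (PfP.trans (PfP.trans (PfP.trans (PfP.trans (PfP.trans (PfP.trans (PfP.trans (PfP.trans (PfP.trans (PfP.trans (PfP.trans (PfP.trans (PfP.trans (PfP.trans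
 (PfP.trans (PfP.trans (PfP.trans (PfP.trans (PfP.trans (PfP.trans (PfP.trans (PfP.trans (PfP.trans (PfP.trans (PfP.trans (PfP.trans (PfP.trans (PfP.trans (PfP.trans (PfP.trans (PfP.trans (pfC_sound p14_22_1_0) (pfC_sound p14_22_1_1)) (pfC_sound p14_22_1_2)) (pfC_sound p14_22_1_3)) (pfC_sound p14_22_1_4)) (pfC_sound p14_22_1_5)) (pfC_sound p14_22_1_6)) (pfC_sound p14_22_1_7)) (pfC_sound p14_22_1_8)) (pfC_sound p14_22_1_9)) (pfC_sound p14_22_1_10)) (pfC_sound p14_22_1_11)) (pfC_sound p14_22_1_12)) (pfC_sound p14_22_1_13)) (pfC_sound p14_22_1_14)) (pfC_sound p14_22_1_15)) (pfC_sound p14_22_1_16)) (pfC_sound p14_22_1_17)) (pfC_sound p14_22_1_18)) (pfC_sound p14_22_1_19)) (pfC_sound p14_22_1_20)) (pfC_sound p14_22_1_21)) (pfC_sound p14_22_1_22)) (pfC_sound p14_22_1_23)) (pfC_sound p14_22_1_24)) (pfC_sound p14_22_1_25)) (pfC_sound p14_22_1_26)) (pfC_sound p14_22_1_27)) (pfC_sound p14_22_1_28)) (pfC_sound p14_22_1_29)) (pfC_sound p14_22_1_30)) (pfC_sound p14_22_1_31)) (pfC_sound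 p14_22_1_32)) (pfC_sound p14_22_1_33)) (pfC_sound p14_22_1_34)) (pfC_sound p14_22_1_35)) (pfC_sound p14_22_1_36)) (pfC_sound p14_22_1_37)) (pfC_sound p14_22_1_38)) (pfC_sound p14_22_1_39)) (pfC_sound
 p14_22_1_40)) (pfC_sound p14_22_1_41)) (pfC_sound p14_22_1_42)) (pfC_sound p14_22_1_43)) (pfC_sound p14_22_1_44)) (pfC_sound p14_22_1_45)) (pfC_sound p14_22_1_46)) (pfC_sound p14_22_1_47)) (pfC_sound p14_22_1_48)) (pfC_sound p14_22_1_49)) (pfC_sound p14_22_1_50)) (pfC_sound p14_22_1_51)) (pfC_sound p14_22_1_52)) (pfC_sound p14_22_1_53)) (pfC_sound p14_22_1_54)) (pfC_sound p14_22_1_55)) (pfC_sound p14_22_1_56)) (pfC_sound p14_22_1_57)) (pfC_sound p14_22_1_58)) (pfC_sound p14_22_1_59)) (pfC_sound p14_22_1_60)) (pfC_sound p14_22_1_61)) (pfC_sound p14_22_1_62)) (pfC_sound p14_22_1_63)) (pfC_sound p14_22_1_64)) (pfC_sound p14_22_1_65)) (pfC_sound p14_22_1_66)) (pfC_sound p14_22_1_67)) (pfC_sound p14_22_1_68)) (pfC_sound p14_22_1_69)) (pfC_sound p14_22_1_70)) (pfC_sound p14_22_1_71))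 (pfC_sound p14_22_1_72)) (pfC_sound p14_22_1_73)) (pfC_sound p14_22_1_74)) (pfC_sound p14_22_1_75)) (pfC_sound p14_22_1_76)) (pfC_sound p14_22_1_77)) (pfC_sound p14_22_1_78)) (pfC_sound p14_22_1_79)) (pfC_sound p14_22_1_80)) (pfC_sound p14_22_1_81)) (pfC_sound p14_22_1_82)) (pfC_sound p14_22_1_83)) (pfC_sound p14_22_1_84)) (pfC_sound p14_22_1_85)) (pfC_sound p14_22_1_86)) (pfC_sound p14_22_1_87)) (pfC_sound
 p14_22_1_88)) (pfC_sound p14_22_1_89)) (pfC_sound p14_22_1_90)) (pfC_sound p14_22_1_91)) (pfC_sound p14_22_1_92)) (pfC_sound p14_22_1_93)) (pfC_sound p14_22_1_94)) (pfC_sound p14_22_1_95)) (pfC_sound p14_22_1_96)) (pfC_sound p14_22_1_97)) (pfC_sound p14_22_1_98)) (pfC_sound p14_22_1_99)) (pfC_sound p14_22_1_100)) (pfC_sound p14_22_1_101)) (pfC_sound p14_22_1_102)) (pfC_sound p14_22_1_103)) (pfC_sound p14_22_1_104)) (pfC_sound p14_22_1_105)) (pfC_sound p14_22_1_106)) (pfC_sound p14_22_1_107)) (pfC_sound p14_22_1_108)) (pfC_sound p14_22_1_109)) (pfC_sound p14_22_1_110))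 (pfC_sound p14_22_1_111)) (pfC_sound p14_22_1_112)) (pfC_sound p14_22_1_113)) (pfC_sound p14_22_1_114)) (pfC_sound p14_22_1_115)) (pfC_sound p14_22_1_116)) (pfC_sound p14_22_1_117)) (pfC_sound p14_22_1_118)) (pfC_sound p14_22_1_119)) (pfC_sound p14_22_1_120)) (pfC_sound p14_22_1_121)) (pfC_sound p14_22_1_122)) (pfC_sound p14_22_1_123)) (pfC_sound p14_22_1_124)) (pfC_sound p14_22_1_125)) (pfC_sound p14_22_1_126)) (pfC_sound p14_22_1_127)) (pfC_sound p14_22_1_128)) (pfC_sound p14_22_1_129)) (pfC_sound p14_22_1_130)) (pfC_sound p14_22_1_131)) (pfC_sound p14_22_1_132)) (pfC_sound p14_22_1_133)) (pfC_sound p14_22_1_134))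
 (pfC_sound p14_22_1_135)) (pfC_sound p14_22_1_136)) (pfC_sound p14_22_1_137)) (pfC_sound p14_22_1_138)) (pfC_sound p14_22_1_139)) (pfC_sound p14_22_1_140)) (pfC_sound p14_22_1_141)) (pfC_sound p14_22_1_142)) (pfC_sound p14_22_1_143)) (pfC_sound p14_22_1_144)) (pfC_sound p14_22_1_145)) (pfC_sound p14_22_1_146)) (pfC_sound p14_22_1_147)) (pfC_sound p14_22_1_148)) (pfC_sound p14_22_1_149)) (pfC_sound p14_22_1_150)) (pfC_sound p14_22_1_151)) (pfC_sound p14_22_1_152)) (pfC_sound p14_22_1_153)) (pfC_sound p14_22_1_154)) (pfC_sound p14_22_1_155)) (pfC_sound p14_22_1_156)) (pfC_sound p14_22_1_157)) (pfC_sound p14_22_1_158)) (pfC_sound p14_22_1_159)) (pfC_sound p14_22_1_160)) (pfC_sound p14_22_1_161)) (pfC_sound p14_22_1_162)) (pfC_sound p14_22_1_163)) (pfC_sound p14_22_1_164)) (pfC_sound p14_22_1_165)) (pfC_sound p14_22_1_166)) (pfC_sound p14_22_1_167)) (pfC_sound p14_22_1_168)) (pfC_sound p14_22_1_169)) (pfC_sound p14_22_1_170)) (pfC_sound p14_22_1_171)) (pfC_sound p14_22_1_172))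 (pfC_sound p14_22_1_173)) (pfC_sound p14_22_1_174)) (pfC_sound p14_22_1_175)) (pfC_sound p14_22_1_176)) (pfC_sound p14_22_1_177)) (pfC_sound p14_22_1_178)) (pfC_sound p14_22_1_179)) (pfC_sound p14_22_1_180))
 (pfC_sound p14_22_1_181)) (pfC_sound p14_22_1_182)) (pfC_sound p14_22_1_183)) (pfC_sound p14_22_1_184)) (pfC_sound p14_22_1_185)) (pfC_sound p14_22_1_186)) (pfC_sound p14_22_1_187)) (pfC_sound p14_22_1_188)) (pfC_sound p14_22_1_189)) (pfC_sound p14_22_1_190)) (pfC_sound p14_22_1_191)) (pfC_sound p14_22_1_192)) (pfC_sound p14_22_1_193)) (pfC_sound p14_22_1_194)) (pfC_sound p14_22_1_195)) (pfC_sound p14_22_1_196)) (pfC_sound p14_22_1_197)) (pfC_sound p14_22_1_198)) (pfC_sound p14_22_1_199)) (pfC_sound p14_22_1_200)) (pfC_sound p14_22_1_201)) (pfC_sound p14_22_1_202)) (pfC_sound p14_22_1_203)) (pfC_sound p14_22_1_204)) (pfC_sound p14_22_1_205)) (pfC_sound p14_22_1_206)) (pfC_sound p14_22_1_207)) (pfC_sound p14_22_1_208)) (pfC_sound p14_22_1_209)) (pfC_sound p14_22_1_210))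 (pfC_sound p14_22_1_211)) (pfC_sound p14_22_1_212)) (pfC_sound p14_22_1_213)) (pfC_sound p14_22_1_214)) (pfC_sound p14_22_1_215)) (pfC_sound p14_22_1_216)) (pfC_sound p14_22_1_217)) (pfC_sound p14_22_1_218)) (pfC_sound p14_22_1_219)) (pfC_sound p14_22_1_220)) (pfC_sound p14_22_1_221)) (pfC_sound p14_22_1_222)) (pfC_sound p14_22_1_223)) (pfC_sound p14_22_1_224)) (pfC_sound p14_22_1_225)) (pfC_sound p14_22_1_226))
 (pfC_sound p14_22_1_227)) (pfC_sound p14_22_1_228)) (pfC_sound p14_22_1_229)) (pfC_sound p14_22_1_230)) (pfC_sound p14_22_1_231)) (pfC_sound p14_22_1_232)) (pfC_sound p14_22_1_233)) (pfC_sound p14_22_1_234)) (pfC_sound p14_22_1_235)) (by decide +kernel)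

def z14_22_1 : zOK yB14_22 (nat_lit 1) (nat_lit 400) (nat_lit 601) (nat_lit 11363143) (nat_lit 8029622) = true := by decide +kernel
def g14_22_1 : gOK yB14_22.x P14_22 (nat_lit 1344) (q14_22 :: r14_22) (nat_lit 1) (nat_lit 400) (nat_lit 2) (nat_lit 601) (nat_lit 11000000) (nat_lit 17884250) (nat_lit 12712500) (nat_lit 12712500) [(nat_lit 800), (nat_lit 1600)] = true := by decide +kernel
end CB
end Pool.Agent.Lib.MP_6947cd_al
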