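import Pool.Agent.Lib.MP_6947cd_al.L.BoxDataB
import Pool.Agent.Lib.MP_6947cd_al.L.TeD4
import Pool.Agent.Lib.MP_6947cd_al.L.TeD5

/-!
Problem MP_6947cd_al (Chollet).  CASE B, rows `j`: boxes (generated).
-/

set_option autoImplicit false
set_option linter.defProp false
set_option maxRecDepth 20000

namespace Pool.Agent.Lib.MP_6947cd_al
namespace CB

open Ent Ent.Pk Fr Fr.WT CA

/-! box `yB15_23` -/

def P15_23 : BQ := ⟨(nat_lit 8), (nat_lit 4), (nat_lit 4), (nat_lit 3), (nat_lit 5), (nat_lit 820), (nat_lit 825), (nat_lit 120), [(nat_lit 200), (nat_lit 300), (nat_lit 450), (nat_lit 800)], (nat_lit 118896000), (nat_lit 16000000), (nat_lit 16000000000)⟩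
def q15_23 : PC := ⟨(nat_lit 1000), [(nat_lit 120000), (nat_lit 200000), (nat_lit 300000), (nat_lit 450000), (nat_lit 800000)], (nat_lit 340282367000166625996085689103316680705000000), (nat_lit 15881104000000), (nat_lit 15881104000000), (nat_lit 10000000)⟩
def r15_23 : List PC := [⟨(nat_lit 1282), [(nat_lit 120567), (nat_lit 200922), (nat_lit 301070), (nat_lit 451004), (nat_lit 799872)], (nat_lit 342105940204949437224096643884787735362227118), (nat_lit 16269334012480), (nat_lit 16271809701760), (nat_lit 10047250)⟩, ⟨(nat_lit 1414), [(nat_lit 120857), (nat_lit 201337), (nat_lit 301696), (nat_lit 452407), (nat_lit 802122)], (nat_lit 342981486735231041660622270494118728344490005), (nat_lit 16441866528960), (nat_lit 16445501051520), (nat_lit 10071417)⟩]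
def s15_23 : List PB := [⟨(nat_lit 25640), (nat_lit 1929072000000), [(nat_lit 200922), (nat_lit 301070), (nat_lit 451004), (nat_lit 799872)], (nat_lit 342105940204949437224096643884787735362227118), (nat_lit 1142169240855104), (nat_lit 1142171716544384), (nat_lit 45120)⟩, ⟨(nat_lit 28280), (nat_lit 1933712000000), [(nat_lit 201337), (nat_lit 301696), (nat_lit 452407), (nat_lit 802122)], (nat_lit 342981486735231041660622270494118728344490005), (nat_lit 1142341773371584), (nat_lit 1142345407894144), (nat_lit 66240)⟩]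
def n15_23 : List KN := [⟨(nat_lit 800), (nat_lit 450), (nat_lit 12552662), (nat_lit 5762536)⟩, ⟨(nat_lit 450), (nat_lit 300), (nat_lit 18643303), (nat_lit 12552662)⟩, ⟨(nat_lit 300), (nat_lit 200), (nat_lit 25010362), (nat_lit 18643303)⟩, ⟨(nat_lit 200), (nat_lit 120), (nat_lit 38167130), (nat_lit 25010362)⟩]
def w15_23 : List ℕ := [(nat_lit 45120), (nat_lit 66240)]
def par15_23 : parC yB15_23 P15_23 s15_23 r15_23 q15_23 n15_23 w15_23 = true := by decide +kernel

def p15_23_0 : PF := (PF.cons (PF.cons (PF.cons (PF.cons (PF.leaf (nat_lit 824005) (nat_lit 2618314) (nat_lit 64490498) (nat_lit 2618314) [(nat_lit 0), (nat_lit 0), (nat_lit 0), (nat_lit 0)]) (PF.cons (PF.leaf (nat_lit 984225) (nat_lit 257217) (nat_lit 64169163) (nat_lit 2682432) [(nat_lit 257217), (nat_lit 0), (nat_lit 0), (nat_lit 0)]) (PF.cons (PF.leaf (nat_lit 1178068) (nat_lit 284297) (nat_lit 63787307) (nat_lit 2752910) [(nat_lit 284297), (nat_lit 0), (nat_lit 0), (nat_lit 0)]) (PF.cons (PF.leaf (nat_lit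 1400028) (nat_lit 309599) (nat_lit 63353380) (nat_lit 2826633) [(nat_lit 309599), (nat_lit 0), (nat_lit 0), (nat_lit 0)]) (PF.cons (PF.leaf (nat_lit 1647385) (nat_lit 333470) (nat_lit 62873454) (nat_lit 2901474) [(nat_lit 333470), (nat_lit 0), (nat_lit 0), (nat_lit 0)]) (PF.cons (PF.leaf (nat_lit 1917913) (nat_lit 356092) (nat_lit 62352427) (nat_lit 2975922) [(nat_lit 356092), (nat_lit 0), (nat_lit 0), (nat_lit 0)]) (PF.cons (PF.leaf (nat_lit 2209630) (nat_lit 377565) (nat_lit 61794535) (nat_lit 3048884) [(nat_lit 377565), (nat_lit 0), (nat_lit 0), (nat_lit 0)]) (PF.cons (PF.leaf (nat_lit 2520731) (nat_lit 397948) (nat_lit 61203613) (nat_lit 3119556) [(nat_lit 397948), (nat_lit 0), (nat_lit 0),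
 (nat_lit 0)]) (PF.cons (PF.leaf (nat_lit 2849482) (nat_lit 417279) (nat_lit 60583220) (nat_lit 3187355) [(nat_lit 417279), (nat_lit 0), (nat_lit 0), (nat_lit 0)]) (PF.cons (PF.leaf (nat_lit 3194299) (nat_lit 435583) (nat_lit 59936704) (nat_lit 3251858) [(nat_lit 435583), (nat_lit 0), (nat_lit 0), (nat_lit 0)]) (PF.cons PF.nil (PF.cons PF.nil PF.nil)))))))))))) (PF.cons (PF.cons (PF.leaf (nat_lit 1380634) (nat_lit 1188147) (nat_lit 63063467) (nat_lit 2857197) [(nat_lit 0), (nat_lit 1188147), (nat_lit 0), (nat_lit 0)]) (PF.cons (PF.leaf (nat_lit 1599765) (nat_lit 325964) (nat_lit 62624699) (nat_lit 2923052) [(nat_lit 325964), (nat_lit 1235097), (nat_lit 0), (nat_lit 0)]) (PF.cons (PF.leaf (nat_lit 1846382) (nat_lit 349077) (nat_lit 62137782) (nat_lit 2990605) [(nat_lit 349077), (nat_lit 1282269), (nat_lit 0), (nat_lit 0)]) (PF.cons (PF.leaf (nat_lit 2116538) (nat_lit 370874) (nat_lit 61609239) (nat_lit 3058181) [(nat_lit 370874), (nat_lit 1328768), (nat_lit 0), (nat_lit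 0)]) (PF.cons (PF.leaf (nat_lit 2407848) (nat_lit 391493) (nat_lit 61044199) (nat_lit 3124610) [(nat_lit 391493), (nat_lit 1374028), (nat_lit 0), (nat_lit 0)]) (PF.cons (PF.leaf (nat_lit 2718329) (nat_lit 411014)
 (nat_lit 60447008) (nat_lit 3189053) [(nat_lit 411014), (nat_lit 1417678), (nat_lit 0), (nat_lit 0)]) (PF.cons (PF.leaf (nat_lit 3046091) (nat_lit 429486) (nat_lit 59821522) (nat_lit 3250905) [(nat_lit 429486), (nat_lit 1459467), (nat_lit 0), (nat_lit 0)]) (PF.cons (PF.leaf (nat_lit 3389426) (nat_lit 446942) (nat_lit 59171254) (nat_lit 3309732) [(nat_lit 446942), (nat_lit 1499228), (nat_lit 0), (nat_lit 0)]) (PF.cons (PF.leaf (nat_lit 3746721) (nat_lit 463408) (nat_lit 58499456) (nat_lit 3365232) [(nat_lit 463408), (nat_lit 1536853), (nat_lit 0), (nat_lit 0)]) (PF.cons PF.nil PF.nil)))))))))) (PF.cons (PF.cons (PF.leaf (nat_lit 2050834) (nat_lit 1331880) (nat_lit 61371715) (nat_lit 3073337) [(nat_lit 0), (nat_lit 1331880), (nat_lit 0), (nat_lit 0)]) (PF.cons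 (PF.leaf (nat_lit 2317678) (nat_lit 384179) (nat_lit 60841967) (nat_lit 3134156) [(nat_lit 384179), (nat_lit 1374254), (nat_lit 0), (nat_lit 0)]) (PF.cons (PF.leaf (nat_lit 2606948) (nat_lit 404098) (nat_lit 60274792) (nat_lit 3194265) [(nat_lit 404098), (nat_lit 1415779), (nat_lit 0), (nat_lit 0)]) (PF.cons (PF.leaf (nat_lit 2915467) (nat_lit 422875) (nat_lit 59675480) (nat_lit 3252739) [(nat_lit 422875), (nat_lit 1455983),
 (nat_lit 0), (nat_lit 0)]) (PF.cons (PF.leaf (nat_lit 3241173) (nat_lit 440585) (nat_lit 59048427) (nat_lit 3308927) [(nat_lit 440585), (nat_lit 1494559), (nat_lit 0), (nat_lit 0)]) (PF.cons (PF.leaf (nat_lit 3582209) (nat_lit 457275) (nat_lit 58397457) (nat_lit 3362372) [(nat_lit 457275), (nat_lit 1531303), (nat_lit 0), (nat_lit 0)]) (PF.cons (PF.leaf (nat_lit 3936888) (nat_lit 472982) (nat_lit 57725996) (nat_lit 3412753) [(nat_lit 472982), (nat_lit 1566085), (nat_lit 0), (nat_lit 0)]) (PF.cons PF.nil (PF.cons PF.nil PF.nil))))))))) (PF.cons (PF.cons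 (PF.leaf (nat_lit 2808385) (nat_lit 1454538) (nat_lit 59486872) (nat_lit 3258324) [(nat_lit 0), (nat_lit 1454538), (nat_lit 0), (nat_lit 0)]) (PF.cons (PF.leaf (nat_lit 3112878) (nat_lit 433556) (nat_lit 58889974) (nat_lit 3311032) [(nat_lit 433556), (nat_lit 1491416), (nat_lit 0), (nat_lit 0)]) (PF.cons (PF.leaf (nat_lit 3435348) (nat_lit 450606) (nat_lit 58265055) (nat_lit 3361799) [(nat_lit 450606), (nat_lit 1526914), (nat_lit 0), (nat_lit 0)]) (PF.cons (PF.leaf (nat_lit 3773132) (nat_lit 466616) (nat_lit 57616490) (nat_lit 3410120) [(nat_lit 466616), (nat_lit 1560784), (nat_lit 0), (nat_lit 0)]) (PF.cons (PF.leaf (nat_lit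
 4124440) (nat_lit 481636) (nat_lit 56948021) (nat_lit 3455650) [(nat_lit 481636), (nat_lit 1592864), (nat_lit 0), (nat_lit 0)]) (PF.cons (PF.leaf (nat_lit 4487601) (nat_lit 495707) (nat_lit 56262944) (nat_lit 3498158) [(nat_lit 495707), (nat_lit 1623057), (nat_lit 0), (nat_lit 0)]) (PF.cons PF.nil PF.nil))))))) (PF.cons (PF.cons (PF.leaf (nat_lit 3629741) (nat_lit 1556736) (nat_lit 57471996) (nat_lit 3409870) [(nat_lit 0), (nat_lit 1556736), (nat_lit 0), (nat_lit 0)]) (PF.cons (PF.leaf (nat_lit 3962779) (nat_lit 474986) (nat_lit 56829136) (nat_lit 3453298) [(nat_lit 474986), (nat_lit 1587847), (nat_lit 0), (nat_lit 0)]) (PF.cons (PF.leaf (nat_lit 4309868) (nat_lit 489398) (nat_lit 56166389) (nat_lit 3494219) [(nat_lit 489398), (nat_lit 1617351), (nat_lit 0), (nat_lit 0)]) (PF.cons (PF.leaf (nat_lit 4668781) (nat_lit 502854) (nat_lit 55487368) (nat_lit 3532377) [(nat_lit 502854), (nat_lit 1645125), (nat_lit 0), (nat_lit 0)]) (PF.cons (PF.leaf (nat_lit 5037904) (nat_lit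 515399) (nat_lit 54795209) (nat_lit 3567612) [(nat_lit 515399), (nat_lit 1671097), (nat_lit 0), (nat_lit 0)]) PF.nil))))) (PF.cons (PF.cons (PF.leaf (nat_lit 4494122) (nat_lit 1639696) (nat_lit 55381594) (nat_lit
 3528735) [(nat_lit 0), (nat_lit 1639696), (nat_lit 0), (nat_lit 0)]) (PF.cons (PF.leaf (nat_lit 4847675) (nat_lit 509197) (nat_lit 54711019) (nat_lit 3562773) [(nat_lit 509197), (nat_lit 1665164), (nat_lit 0), (nat_lit 0)]) (PF.cons (PF.leaf (nat_lit 5211864) (nat_lit 521194) (nat_lit 54027416) (nat_lit 3594131) [(nat_lit 521194), (nat_lit 1688975), (nat_lit 0), (nat_lit 0)]) (PF.cons PF.nil PF.nil)))) (PF.cons (PF.cons (PF.leaf (nat_lit 5383762) (nat_lit 1705057) (nat_lit 53261188) (nat_lit 3617278) [(nat_lit 0), (nat_lit 1705057), (nat_lit 0), (nat_lit 0)]) (PF.cons (PF.leaf (nat_lit 5750929) (nat_lit 536905) (nat_lit 52578060) (nat_lit 3642414) [(nat_lit 536905), (nat_lit 1725238), (nat_lit 0), (nat_lit 0)]) PF.nil)) (PF.cons PF.nil (PF.cons PF.nil PF.nil)))))))))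 (PF.cons (PF.cons (PF.cons (PF.leaf (nat_lit 2004619) (nat_lit 3085814) (nat_lit 60732932) (nat_lit 3085814) [(nat_lit 0), (nat_lit 0), (nat_lit 3290066), (nat_lit 0)]) (PF.cons (PF.leaf (nat_lit 2242283) (nat_lit 366592) (nat_lit 60258376) (nat_lit 3139359) [(nat_lit 366592), (nat_lit 0), (nat_lit 3344485), (nat_lit 0)]) (PF.cons (PF.leaf (nat_lit 2506056) (nat_lit 388408) (nat_lit 59738370) (nat_lit 3193787)
 [(nat_lit 388408), (nat_lit 0), (nat_lit 3399837), (nat_lit 0)]) (PF.cons (PF.leaf (nat_lit 2791638) (nat_lit 408590) (nat_lit 59180541) (nat_lit 3247759) [(nat_lit 408590), (nat_lit 0), (nat_lit 3454741), (nat_lit 0)]) (PF.cons (PF.leaf (nat_lit 3096423) (nat_lit 427382) (nat_lit 58590681) (nat_lit 3300354) [(nat_lit 427382), (nat_lit 0), (nat_lit 3508247), (nat_lit 0)]) (PF.cons (PF.leaf (nat_lit 3418159) (nat_lit 444938) (nat_lit 57973510) (nat_lit 3350927) [(nat_lit 444938), (nat_lit 0), (nat_lit 3559682), (nat_lit 0)]) (PF.cons (PF.leaf (nat_lit 3754937)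 (nat_lit 461359) (nat_lit 57333062) (nat_lit 3399022) [(nat_lit 461359), (nat_lit 0), (nat_lit 3608569), (nat_lit 0)]) (PF.cons (PF.leaf (nat_lit 4105030) (nat_lit 476719) (nat_lit 56672882) (nat_lit 3444321) [(nat_lit 476719), (nat_lit 0), (nat_lit 3654574), (nat_lit 0)]) (PF.cons (PF.leaf (nat_lit 4466834) (nat_lit 491072) (nat_lit 55996149) (nat_lit 3486609) [(nat_lit 491072), (nat_lit 0), (nat_lit 3697473), (nat_lit 0)]) (PF.cons PF.nil PF.nil)))))))))) (PF.cons (PF.cons (PF.leaf (nat_lit 2708302) (nat_lit 1440587) (nat_lit 58947233) (nat_lit 3256693) [(nat_lit 0), (nat_lit 1440587), (nat_lit 3464299), (nat_lit 0)])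
 (PF.cons (PF.leaf (nat_lit 2988470) (nat_lit 418820) (nat_lit 58395157) (nat_lit 3305002) [(nat_lit 418820), (nat_lit 1476447), (nat_lit 3513384), (nat_lit 0)]) (PF.cons (PF.leaf (nat_lit 3289178) (nat_lit 437070) (nat_lit 57809620) (nat_lit 3352320) [(nat_lit 437070), (nat_lit 1511277), (nat_lit 3561452), (nat_lit 0)]) (PF.cons (PF.leaf (nat_lit 3607221) (nat_lit 454029) (nat_lit 57196324) (nat_lit 3397924) [(nat_lit 454029), (nat_lit 1544719), (nat_lit 3607756), (nat_lit 0)]) (PF.cons (PF.leaf (nat_lit 3940407) (nat_lit 469826) (nat_lit 56559857) (nat_lit 3441317) [(nat_lit 469826), (nat_lit 1576548), (nat_lit 3651782), (nat_lit 0)]) (PF.cons (PF.leaf (nat_lit 4286852) (nat_lit 484553) (nat_lit 55904087) (nat_lit 3482160) [(nat_lit 484553), (nat_lit 1606623), (nat_lit 3693174), (nat_lit 0)]) (PF.cons (PF.leaf (nat_lit 4644879) (nat_lit 498276) (nat_lit 55232373) (nat_lit 3520223) [(nat_lit 498276), (nat_lit 1634862), (nat_lit 3731694), (nat_lit 0)]) (PF.cons PF.nil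 (PF.cons PF.nil PF.nil))))))))) (PF.cons (PF.cons (PF.leaf (nat_lit 3483778) (nat_lit 1541306) (nat_lit 57016611) (nat_lit 3399705) [(nat_lit 0), (nat_lit 1541306), (nat_lit 3609883), (nat_lit 0)]) (PF.cons (PF.leaf
 (nat_lit 3796250) (nat_lit 462083) (nat_lit 56411114) (nat_lit 3440517) [(nat_lit 462083), (nat_lit 1571927), (nat_lit 3651241), (nat_lit 0)]) (PF.cons (PF.leaf (nat_lit 4124772) (nat_lit 477358) (nat_lit 55781749) (nat_lit 3479417) [(nat_lit 477358), (nat_lit 1601154), (nat_lit 3690620), (nat_lit 0)]) (PF.cons (PF.leaf (nat_lit 4466747) (nat_lit 491533) (nat_lit 55132945) (nat_lit 3516024) [(nat_lit 491533), (nat_lit 1628806), (nat_lit 3727629), (nat_lit 0)]) (PF.cons (PF.leaf (nat_lit 4820350) (nat_lit 504694) (nat_lit 54468389) (nat_lit 3550089) [(nat_lit 504694), (nat_lit 1654775), (nat_lit 3762006), (nat_lit 0)]) (PF.cons (PF.leaf (nat_lit 5183974) (nat_lit 516905) (nat_lit 53791241) (nat_lit 3581453) [(nat_lit 516905), (nat_lit 1679002), (nat_lit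 3793587), (nat_lit 0)]) (PF.cons PF.nil PF.nil))))))) (PF.cons (PF.cons (PF.leaf (nat_lit 4309172) (nat_lit 1623664) (nat_lit 54998870) (nat_lit 3513588) [(nat_lit 0), (nat_lit 1623664), (nat_lit 3725360), (nat_lit 0)]) (PF.cons (PF.leaf (nat_lit 4645320) (nat_lit 497668) (nat_lit 54359802) (nat_lit 3546162) [(nat_lit 497668), (nat_lit 1648994), (nat_lit 3758195), (nat_lit 0)]) (PF.cons (PF.leaf (nat_lit 4993756) (nat_lit 510342)
 (nat_lit 53704637) (nat_lit 3576438) [(nat_lit 510342), (nat_lit 1672801), (nat_lit 3788648), (nat_lit 0)]) (PF.cons (PF.leaf (nat_lit 5352322) (nat_lit 522055) (nat_lit 53036864) (nat_lit 3604235) [(nat_lit 522055), (nat_lit 1695004), (nat_lit 3816533), (nat_lit 0)]) (PF.cons PF.nil PF.nil))))) (PF.cons (PF.cons (PF.leaf (nat_lit 5166034) (nat_lit 1689058) (nat_lit 52941248) (nat_lit 3599485) [(nat_lit 0), (nat_lit 1689058), (nat_lit 3811844), (nat_lit 0)]) (PF.cons (PF.leaf (nat_lit 5518560) (nat_lit 526512) (nat_lit 52284797) (nat_lit 3623914)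 [(nat_lit 526512), (nat_lit 1709336), (nat_lit 3836242), (nat_lit 0)]) (PF.cons (PF.leaf (nat_lit 5880205) (nat_lit 536890) (nat_lit 51618497) (nat_lit 3645969) [(nat_lit 536890), (nat_lit 1728097), (nat_lit 3858177), (nat_lit 0)]) (PF.cons PF.nil PF.nil)))) (PF.cons (PF.cons (PF.leaf (nat_lit 6039090) (nat_lit 1739156) (nat_lit 50881507) (nat_lit 3659759) [(nat_lit 0), (nat_lit 1739156), (nat_lit 3871765), (nat_lit 0)]) (PF.cons (PF.leaf (nat_lit 6401906) (nat_lit 549432) (nat_lit 50220574) (nat_lit 3676592) [(nat_lit 549432), (nat_lit 1754784), (nat_lit 3888291), (nat_lit 0)]) PF.nil)) (PF.cons PF.nil (PF.cons PF.nil PF.nil))))))))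
 (PF.cons (PF.cons (PF.cons (PF.leaf (nat_lit 3359076) (nat_lit 3390761) (nat_lit 56514878) (nat_lit 3390761) [(nat_lit 0), (nat_lit 0), (nat_lit 3601586), (nat_lit 0)]) (PF.cons (PF.leaf (nat_lit 3648016) (nat_lit 446557) (nat_lit 55954324) (nat_lit 3428527) [(nat_lit 446557), (nat_lit 0), (nat_lit 3639702), (nat_lit 0)]) (PF.cons (PF.leaf (nat_lit 3955851) (nat_lit 463236) (nat_lit 55364026) (nat_lit 3465112) [(nat_lit 463236), (nat_lit 0), (nat_lit 3676601), (nat_lit 0)]) (PF.cons (PF.leaf (nat_lit 4279284) (nat_lit 478522) (nat_lit 54749857) (nat_lit 3499962) [(nat_lit 478522), (nat_lit 0), (nat_lit 3711712), (nat_lit 0)]) (PF.cons (PF.leaf (nat_lit 4616080) (nat_lit 492592) (nat_lit 54116428) (nat_lit 3532707) [(nat_lit 492592), (nat_lit 0), (nat_lit 3744652), (nat_lit 0)]) (PF.cons (PF.leaf (nat_lit 4964363) (nat_lit 505568) (nat_lit 53467530) (nat_lit 3563102) [(nat_lit 505568), (nat_lit 0), (nat_lit 3775167), (nat_lit 0)]) (PF.cons (PF.leaf (nat_lit 5322519)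 (nat_lit 517541) (nat_lit 52806382) (nat_lit 3590992) [(nat_lit 517541), (nat_lit 0), (nat_lit 3803094), (nat_lit 0)]) (PF.cons PF.nil (PF.cons PF.nil PF.nil))))))))) (PF.cons (PF.cons (PF.leaf (nat_lit 4141903)
 (nat_lit 1606622) (nat_lit 54581289) (nat_lit 3498992) [(nat_lit 0), (nat_lit 1606622), (nat_lit 3710954), (nat_lit 0)]) (PF.cons (PF.leaf (nat_lit 4458631) (nat_lit 484375) (nat_lit 53978765) (nat_lit 3529868) [(nat_lit 484375), (nat_lit 1631867), (nat_lit 3741968), (nat_lit 0)]) (PF.cons (PF.leaf (nat_lit 4789736) (nat_lit 498043) (nat_lit 53355951) (nat_lit 3558896) [(nat_lit 498043), (nat_lit 1655734), (nat_lit 3771071), (nat_lit 0)]) (PF.cons (PF.leaf (nat_lit 5132697) (nat_lit 510583) (nat_lit 52717208) (nat_lit 3585799) [(nat_lit 510583), (nat_lit 1678100), (nat_lit 3797977), (nat_lit 0)]) (PF.cons (PF.leaf (nat_lit 5485685) (nat_lit 522103) (nat_lit 52066087) (nat_lit 3610402) [(nat_lit 522103), (nat_lit 1698897), (nat_lit 3822504), (nat_lit 0)]) (PF.cons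 PF.nil (PF.cons PF.nil PF.nil))))))) (PF.cons (PF.cons (PF.leaf (nat_lit 4963412) (nat_lit 1672241) (nat_lit 52594225) (nat_lit 3581857) [(nat_lit 0), (nat_lit 1672241), (nat_lit 3794123), (nat_lit 0)]) (PF.cons (PF.leaf (nat_lit 5299786) (nat_lit 514859) (nat_lit 51967965) (nat_lit 3605449) [(nat_lit 514859), (nat_lit 1692659), (nat_lit 3817609), (nat_lit 0)]) (PF.cons (PF.leaf (nat_lit 5646967) (nat_lit 526000) (nat_lit
 51328703) (nat_lit 3626949) [(nat_lit 526000), (nat_lit 1711648), (nat_lit 3838930), (nat_lit 0)]) (PF.cons (PF.leaf (nat_lit 6002875) (nat_lit 536189) (nat_lit 50679753) (nat_lit 3646239) [(nat_lit 536189), (nat_lit 1729162), (nat_lit 3857962), (nat_lit 0)]) (PF.cons PF.nil PF.nil))))) (PF.cons (PF.cons (PF.leaf (nat_lit 5807277) (nat_lit 1722939) (nat_lit 50594090) (nat_lit 3640806) [(nat_lit 0), (nat_lit 1722939), (nat_lit 3852549), (nat_lit 0)]) (PF.cons (PF.leaf (nat_lit 6156692) (nat_lit 539092) (nat_lit 49958300) (nat_lit 3657357) [(nat_lit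 539092), (nat_lit 1738852), (nat_lit 3868752), (nat_lit 0)]) (PF.cons (PF.leaf (nat_lit 6513979) (nat_lit 548064) (nat_lit 49315146) (nat_lit 3671812) [(nat_lit 548064), (nat_lit 1753384), (nat_lit 3882784), (nat_lit 0)]) (PF.cons PF.nil PF.nil)))) (PF.cons (PF.cons (PF.leaf (nat_lit 6660383) (nat_lit 1760374) (nat_lit 48611904) (nat_lit 3678160) [(nat_lit 0), (nat_lit 1760374), (nat_lit 3888625), (nat_lit 0)]) (PF.cons PF.nil PF.nil)) (PF.cons PF.nil PF.nil)))))) (PF.cons (PF.cons (PF.cons (PF.leaf (nat_lit 4778404) (nat_lit 3564451) (nat_lit 52214289) (nat_lit 3564451) [(nat_lit 0), (nat_lit 0), (nat_lit 3776690), (nat_lit 0)])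
 (PF.cons (PF.leaf (nat_lit 5096516) (nat_lit 501448) (nat_lit 51623075) (nat_lit 3587035) [(nat_lit 501448), (nat_lit 0), (nat_lit 3799084), (nat_lit 0)]) (PF.cons (PF.leaf (nat_lit 5427602) (nat_lit 513674) (nat_lit 51014602) (nat_lit 3607864) [(nat_lit 513674), (nat_lit 0), (nat_lit 3819665), (nat_lit 0)]) (PF.cons (PF.leaf (nat_lit 5769152) (nat_lit 524763) (nat_lit 50393088) (nat_lit 3626742) [(nat_lit 524763), (nat_lit 0), (nat_lit 3838230), (nat_lit 0)]) (PF.cons (PF.leaf (nat_lit 6119409) (nat_lit 534843) (nat_lit 49761899) (nat_lit 3643554) [(nat_lit 534843), (nat_lit 0), (nat_lit 3854662), (nat_lit 0)]) (PF.cons PF.nil (PF.cons PF.nil PF.nil))))))) (PF.cons (PF.cons (PF.leaf (nat_lit 5590310) (nat_lit 1705856) (nat_lit 50281215) (nat_lit 3621794) [(nat_lit 0), (nat_lit 1705856), (nat_lit 3833315), (nat_lit 0)]) (PF.cons (PF.leaf (nat_lit 5924794) (nat_lit 527498) (nat_lit 49673934) (nat_lit 3637972) [(nat_lit 527498), (nat_lit 1722112), (nat_lit 3849098),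 (nat_lit 0)]) (PF.cons (PF.leaf (nat_lit 6268818) (nat_lit 537292) (nat_lit 49056147) (nat_lit 3652260) [(nat_lit 537292), (nat_lit 1737039), (nat_lit 3862926), (nat_lit 0)]) (PF.cons (PF.leaf (nat_lit 6620407) (nat_lit
 546155) (nat_lit 48430969) (nat_lit 3664584) [(nat_lit 546155), (nat_lit 1750616), (nat_lit 3874725), (nat_lit 0)]) (PF.cons PF.nil PF.nil))))) (PF.cons (PF.cons (PF.leaf (nat_lit 6417482) (nat_lit 1744286) (nat_lit 48354739) (nat_lit 3658775) [(nat_lit 0), (nat_lit 1744286), (nat_lit 3868908), (nat_lit 0)]) (PF.cons (PF.leaf (nat_lit 6762325) (nat_lit 547779) (nat_lit 47743777) (nat_lit 3668888) [(nat_lit 547779), (nat_lit 1756540), (nat_lit 3878428), (nat_lit 0)]) (PF.cons PF.nil (PF.cons PF.nil PF.nil)))) (PF.cons (PF.cons (PF.leaf (nat_lit 7248633) (nat_lit 1771245) (nat_lit 46460173) (nat_lit 3677616) [(nat_lit 0), (nat_lit 1771245), (nat_lit 3885762), (nat_lit 0)]) (PF.cons PF.nil PF.nil)) (PF.cons PF.nil PF.nil))))) (PF.cons (PF.cons (PF.cons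 (PF.leaf (nat_lit 6189063) (nat_lit 3639151) (nat_lit 48073735) (nat_lit 3639151) [(nat_lit 0), (nat_lit 0), (nat_lit 3848981), (nat_lit 0)]) (PF.cons (PF.leaf (nat_lit 6520084) (nat_lit 536372) (nat_lit 47489422) (nat_lit 3649236) [(nat_lit 536372), (nat_lit 0), (nat_lit 3858445), (nat_lit 0)]) (PF.cons (PF.leaf (nat_lit 6859620) (nat_lit 544989) (nat_lit 46896600) (nat_lit 3657620) [(nat_lit 544989), (nat_lit 0), (nat_lit 3866153),
 (nat_lit 0)]) (PF.cons (PF.leaf (nat_lit 7205745) (nat_lit 552700) (nat_lit 46298173) (nat_lit 3664266) [(nat_lit 552700), (nat_lit 0), (nat_lit 3872067), (nat_lit 0)]) (PF.cons PF.nil PF.nil))))) (PF.cons (PF.cons (PF.leaf (nat_lit 6997169) (nat_lit 1755521) (nat_lit 46230684) (nat_lit 3658300) [(nat_lit 0), (nat_lit 1755521), (nat_lit 3866076), (nat_lit 0)]) (PF.cons (PF.leaf (nat_lit 7336438) (nat_lit 553279) (nat_lit 45646952) (nat_lit 3663176) [(nat_lit 553279), (nat_lit 1764716), (nat_lit 3870171), (nat_lit 0)]) (PF.cons PF.nil (PF.cons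 PF.nil PF.nil)))) (PF.cons (PF.cons (PF.leaf (nat_lit 7805330) (nat_lit 1773840) (nat_lit 44428831) (nat_lit 3662258) [(nat_lit 0), (nat_lit 1773840), (nat_lit 3867510), (nat_lit 0)]) (PF.cons PF.nil PF.nil)) PF.nil))) (PF.cons (PF.cons (PF.cons (PF.leaf (nat_lit 7547449) (nat_lit 3643352) (nat_lit 44224369) (nat_lit 3643352) [(nat_lit 0), (nat_lit 0), (nat_lit 3848218), (nat_lit 0)]) (PF.cons (PF.leaf (nat_lit 7880452) (nat_lit 556179) (nat_lit 43668986) (nat_lit 3643987) [(nat_lit 556179), (nat_lit 0), (nat_lit 3847931), (nat_lit 0)]) PF.nil)) (PF.cons PF.nil PF.nil)) (PF.cons PF.nil (PF.cons PF.nil (PF.cons PF.nil PF.nil))))))))) (PF.cons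
 (PF.cons (PF.cons (PF.cons (PF.leaf (nat_lit 3137605) (nat_lit 3286892) (nat_lit 54385046) (nat_lit 3286892) [(nat_lit 0), (nat_lit 0), (nat_lit 0), (nat_lit 9436874)]) (PF.cons (PF.leaf (nat_lit 3380700) (nat_lit 400598) (nat_lit 53932597) (nat_lit 3322429) [(nat_lit 400598), (nat_lit 0), (nat_lit 0), (nat_lit 9453186)]) (PF.cons (PF.leaf (nat_lit 3647602) (nat_lit 420808) (nat_lit 53441443) (nat_lit 3357857) [(nat_lit 420808), (nat_lit 0), (nat_lit 0), (nat_lit 9467894)]) (PF.cons (PF.leaf (nat_lit 3933755) (nat_lit 438956) (nat_lit 52919413) (nat_lit 3392292) [(nat_lit 438956), (nat_lit 0), (nat_lit 0), (nat_lit 9480236)]) (PF.cons (PF.leaf (nat_lit 4236300) (nat_lit 455413) (nat_lit 52372327) (nat_lit 3425161) [(nat_lit 455413), (nat_lit 0), (nat_lit 0), (nat_lit 9489669)]) (PF.cons (PF.leaf (nat_lit 4552930) (nat_lit 470425) (nat_lit 51804790) (nat_lit 3456087) [(nat_lit 470425), (nat_lit 0), (nat_lit 0), (nat_lit 9495808)]) (PF.cons (PF.leaf (nat_lit 4881707)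 (nat_lit 484167) (nat_lit 51220597) (nat_lit 3484822) [(nat_lit 484167), (nat_lit 0), (nat_lit 0), (nat_lit 9498388)]) (PF.cons (PF.leaf (nat_lit 5220977) (nat_lit 496770) (nat_lit 50622967) (nat_lit 3511214) [(nat_lit
 496770), (nat_lit 0), (nat_lit 0), (nat_lit 9497238)]) (PF.cons (PF.leaf (nat_lit 5569262) (nat_lit 508336) (nat_lit 50014681) (nat_lit 3535176) [(nat_lit 508336), (nat_lit 0), (nat_lit 0), (nat_lit 9492267)]) (PF.cons (PF.leaf (nat_lit 5925266) (nat_lit 518947) (nat_lit 49398172) (nat_lit 3556671) [(nat_lit 518947), (nat_lit 0), (nat_lit 0), (nat_lit 9483444)]) (PF.cons PF.nil (PF.cons PF.nil PF.nil)))))))))))) (PF.cons (PF.cons (PF.leaf (nat_lit 3831647) (nat_lit 1526924) (nat_lit 52711170) (nat_lit 3393584) [(nat_lit 0), (nat_lit 1526924), (nat_lit 0), (nat_lit 9477132)]) (PF.cons (PF.leaf (nat_lit 4110362) (nat_lit 445387) (nat_lit 52200364) (nat_lit 3423882) [(nat_lit 445387), (nat_lit 1554297), (nat_lit 0), (nat_lit 9484881)]) (PF.cons (PF.leaf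 (nat_lit 4407014) (nat_lit 461430) (nat_lit 51662837) (nat_lit 3452942) [(nat_lit 461430), (nat_lit 1580340), (nat_lit 0), (nat_lit 9489831)]) (PF.cons (PF.leaf (nat_lit 4718357) (nat_lit 475983) (nat_lit 51104068) (nat_lit 3480326) [(nat_lit 475983), (nat_lit 1604857), (nat_lit 0), (nat_lit 9491611)]) (PF.cons (PF.leaf (nat_lit 5042188) (nat_lit 489248) (nat_lit 50528342) (nat_lit 3505752) [(nat_lit 489248), (nat_lit 1627750),
 (nat_lit 0), (nat_lit 9489974)]) (PF.cons (PF.leaf (nat_lit 5376697) (nat_lit 501371) (nat_lit 49939158) (nat_lit 3529045) [(nat_lit 501371), (nat_lit 1648981), (nat_lit 0), (nat_lit 9484769)]) (PF.cons (PF.leaf (nat_lit 5720301) (nat_lit 512464) (nat_lit 49339456) (nat_lit 3550101) [(nat_lit 512464), (nat_lit 1668546), (nat_lit 0), (nat_lit 9475919)]) (PF.cons (PF.leaf (nat_lit 6071625) (nat_lit 522615) (nat_lit 48731758) (nat_lit 3568871) [(nat_lit 522615), (nat_lit 1686466), (nat_lit 0), (nat_lit 9463404)]) (PF.cons (PF.leaf (nat_lit 6429456)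 (nat_lit 531897) (nat_lit 48118256) (nat_lit 3585345) [(nat_lit 531897), (nat_lit 1702774), (nat_lit 0), (nat_lit 9447255)]) (PF.cons PF.nil PF.nil)))))))))) (PF.cons (PF.cons (PF.leaf (nat_lit 4579244) (nat_lit 1598959) (nat_lit 50948617) (nat_lit 3477507) [(nat_lit 0), (nat_lit 1598959), (nat_lit 0), (nat_lit 9484768)]) (PF.cons (PF.leaf (nat_lit 4883708) (nat_lit 480679) (nat_lit 50401547) (nat_lit 3501530) [(nat_lit 480679), (nat_lit 1621273), (nat_lit 0), (nat_lit 9482509)]) (PF.cons (PF.leaf (nat_lit 5201751) (nat_lit 493573) (nat_lit 49836516) (nat_lit 3523834) [(nat_lit 493573), (nat_lit 1642171), (nat_lit 0), (nat_lit 9476972)])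
 (PF.cons (PF.leaf (nat_lit 5530855) (nat_lit 505301) (nat_lit 49257526) (nat_lit 3544212) [(nat_lit 505301), (nat_lit 1661574), (nat_lit 0), (nat_lit 9468021)]) (PF.cons (PF.leaf (nat_lit 5869292) (nat_lit 515989) (nat_lit 48667811) (nat_lit 3562542) [(nat_lit 515989), (nat_lit 1679453), (nat_lit 0), (nat_lit 9455594)]) (PF.cons (PF.leaf (nat_lit 6215617) (nat_lit 525736) (nat_lit 48070064) (nat_lit 3578760) [(nat_lit 525736), (nat_lit 1695811), (nat_lit 0), (nat_lit 9439682)]) (PF.cons (PF.leaf (nat_lit 6568513) (nat_lit 534622) (nat_lit 47466575) (nat_lit 3592844) [(nat_lit 534622), (nat_lit 1710668), (nat_lit 0), (nat_lit 9420321)]) (PF.cons PF.nil (PF.cons PF.nil PF.nil))))))))) (PF.cons (PF.cons (PF.leaf (nat_lit 5361524) (nat_lit 1655076) (nat_lit 49144768) (nat_lit 3539249) [(nat_lit 0), (nat_lit 1655076), (nat_lit 0), (nat_lit 9459565)]) (PF.cons (PF.leaf (nat_lit 5684088) (nat_lit 508561) (nat_lit 48577933) (nat_lit 3556883) [(nat_lit 508561), (nat_lit 1672747),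 (nat_lit 0), (nat_lit 9447193)]) (PF.cons (PF.leaf (nat_lit 6016792) (nat_lit 518918) (nat_lit 47999719) (nat_lit 3572654) [(nat_lit 518918), (nat_lit 1689035), (nat_lit 0), (nat_lit 9431497)]) (PF.cons (PF.leaf
 (nat_lit 6357650) (nat_lit 528322) (nat_lit 47413119) (nat_lit 3586481) [(nat_lit 528322), (nat_lit 1703921), (nat_lit 0), (nat_lit 9412480)]) (PF.cons (PF.leaf (nat_lit 6705280) (nat_lit 536862) (nat_lit 46820599) (nat_lit 3598331) [(nat_lit 536862), (nat_lit 1717414), (nat_lit 0), (nat_lit 9390188)]) (PF.cons (PF.leaf (nat_lit 7058476) (nat_lit 544612) (nat_lit 46224238) (nat_lit 3608204) [(nat_lit 544612), (nat_lit 1729537), (nat_lit 0), (nat_lit 9364698)]) (PF.cons PF.nil PF.nil))))))) (PF.cons (PF.cons (PF.leaf (nat_lit 6163682) (nat_lit 1697378) (nat_lit 47334918) (nat_lit 3580578) [(nat_lit 0), (nat_lit 1697378), (nat_lit 0), (nat_lit 9403803)]) (PF.cons (PF.leaf (nat_lit 6498226) (nat_lit 530377) (nat_lit 46760779) (nat_lit 3592167) [(nat_lit 530377),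 (nat_lit 1710876), (nat_lit 0), (nat_lit 9381982)]) (PF.cons (PF.leaf (nat_lit 6840190) (nat_lit 538626) (nat_lit 46180249) (nat_lit 3601929) [(nat_lit 538626), (nat_lit 1723084), (nat_lit 0), (nat_lit 9357040)]) (PF.cons (PF.leaf (nat_lit 7187951) (nat_lit 546081) (nat_lit 45595588) (nat_lit 3609855) [(nat_lit 546081), (nat_lit 1734015), (nat_lit 0), (nat_lit 9329060)]) (PF.cons PF.nil PF.nil))))) (PF.cons (PF.cons (PF.leaf
 (nat_lit 6974033) (nat_lit 1727745) (nat_lit 45545293) (nat_lit 3603754) [(nat_lit 0), (nat_lit 1727745), (nat_lit 0), (nat_lit 9321035)]) (PF.cons (PF.leaf (nat_lit 7315694) (nat_lit 547126) (nat_lit 44973205) (nat_lit 3609865) [(nat_lit 547126), (nat_lit 1737557), (nat_lit 0), (nat_lit 9290829)]) (PF.cons (PF.leaf (nat_lit 7662589) (nat_lit 553602) (nat_lit 44398493) (nat_lit 3614282) [(nat_lit 553602), (nat_lit 1746199), (nat_lit 0), (nat_lit 9257836)]) (PF.cons PF.nil PF.nil)))) (PF.cons (PF.cons (PF.leaf (nat_lit 7783472) (nat_lit 1747884)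 (nat_lit 43795011) (nat_lit 3611180) [(nat_lit 0), (nat_lit 1747884), (nat_lit 0), (nat_lit 9215317)]) (PF.cons PF.nil PF.nil)) (PF.cons PF.nil (PF.cons PF.nil PF.nil))))))))) (PF.cons (PF.cons (PF.cons (PF.leaf (nat_lit 4426819) (nat_lit 3459136) (nat_lit 50526173) (nat_lit 3459136) [(nat_lit 0), (nat_lit 0), (nat_lit 3668806), (nat_lit 9454696)]) (PF.cons (PF.leaf (nat_lit 4709643) (nat_lit 463744) (nat_lit 50020441) (nat_lit 3481962) [(nat_lit 463744), (nat_lit 0), (nat_lit 3691266), (nat_lit 9451397)]) (PF.cons (PF.leaf (nat_lit 5009051) (nat_lit 478370) (nat_lit 49490973) (nat_lit 3503508) [(nat_lit 478370), (nat_lit 0), (nat_lit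
 3712417), (nat_lit 9445172)]) (PF.cons (PF.leaf (nat_lit 5321759) (nat_lit 491479) (nat_lit 48943167) (nat_lit 3523448) [(nat_lit 491479), (nat_lit 0), (nat_lit 3731927), (nat_lit 9435831)]) (PF.cons (PF.leaf (nat_lit 5645636) (nat_lit 503302) (nat_lit 48381167) (nat_lit 3541580) [(nat_lit 503302), (nat_lit 0), (nat_lit 3749587), (nat_lit 9423268)]) (PF.cons (PF.leaf (nat_lit 5978853) (nat_lit 514003) (nat_lit 47808299) (nat_lit 3557783) [(nat_lit 514003), (nat_lit 0), (nat_lit 3765273), (nat_lit 9407436)]) (PF.cons (PF.leaf (nat_lit 6319931) (nat_lit 523707) (nat_lit 47227309) (nat_lit 3571996) [(nat_lit 523707), (nat_lit 0), (nat_lit 3778920), (nat_lit 9388341)]) (PF.cons (PF.leaf (nat_lit 6667588) (nat_lit 532510) (nat_lit 46640513) (nat_lit 3584198) [(nat_lit 532510), (nat_lit 0), (nat_lit 3790505), (nat_lit 9366026)]) (PF.cons PF.nil (PF.cons PF.nil PF.nil)))))))))) (PF.cons (PF.cons (PF.leaf (nat_lit 5172457) (nat_lit 1635420) (nat_lit 48799816) (nat_lit 3519191)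 [(nat_lit 0), (nat_lit 1635420), (nat_lit 3727732), (nat_lit 9426652)]) (PF.cons (PF.leaf (nat_lit 5477700) (nat_lit 494565) (nat_lit 48265598) (nat_lit 3536385) [(nat_lit 494565), (nat_lit 1653656), (nat_lit
 3744438), (nat_lit 9414169)]) (PF.cons (PF.leaf (nat_lit 5795237) (nat_lit 506128) (nat_lit 47715971) (nat_lit 3551967) [(nat_lit 506128), (nat_lit 1670552), (nat_lit 3759492), (nat_lit 9398571)]) (PF.cons (PF.leaf (nat_lit 6122651) (nat_lit 516535) (nat_lit 47154769) (nat_lit 3565795) [(nat_lit 516535), (nat_lit 1686063), (nat_lit 3772744), (nat_lit 9379833)]) (PF.cons (PF.leaf (nat_lit 6458249) (nat_lit 525928) (nat_lit 46585038) (nat_lit 3577790) [(nat_lit 525928), (nat_lit 1700182), (nat_lit 3784115), (nat_lit 9357973)]) (PF.cons (PF.leaf (nat_lit 6800625) (nat_lit 534414) (nat_lit 46009277) (nat_lit 3587919) [(nat_lit 534414), (nat_lit 1712927), (nat_lit 3793572), (nat_lit 9333043)]) (PF.cons (PF.leaf (nat_lit 7148574) (nat_lit 542080) (nat_lit 45429578)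 (nat_lit 3596183) [(nat_lit 542080), (nat_lit 1724329), (nat_lit 3801113), (nat_lit 9305123)]) (PF.cons PF.nil (PF.cons PF.nil PF.nil))))))))) (PF.cons (PF.cons (PF.leaf (nat_lit 5945207) (nat_lit 1679328) (nat_lit 47052580) (nat_lit 3560173) [(nat_lit 0), (nat_lit 1679328), (nat_lit 3767131), (nat_lit 9370268)]) (PF.cons (PF.leaf (nat_lit 6265716) (nat_lit 518482) (nat_lit 46504710) (nat_lit 3571773) [(nat_lit 518482),
 (nat_lit 1693406), (nat_lit 3778104), (nat_lit 9348930)]) (PF.cons (PF.leaf (nat_lit 6595280) (nat_lit 527632) (nat_lit 45947494) (nat_lit 3581693) [(nat_lit 527632), (nat_lit 1706210), (nat_lit 3787350), (nat_lit 9324588)]) (PF.cons (PF.leaf (nat_lit 6931990) (nat_lit 535858) (nat_lit 45383735) (nat_lit 3589888) [(nat_lit 535858), (nat_lit 1717740), (nat_lit 3794822), (nat_lit 9297309)]) (PF.cons (PF.leaf (nat_lit 7274525) (nat_lit 543257) (nat_lit 44815709) (nat_lit 3596347) [(nat_lit 543257), (nat_lit 1728016), (nat_lit 3800511), (nat_lit 9267180)])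 (PF.cons PF.nil (PF.cons PF.nil PF.nil))))))) (PF.cons (PF.cons (PF.leaf (nat_lit 6731939) (nat_lit 1711218) (nat_lit 45314281) (nat_lit 3583816) [(nat_lit 0), (nat_lit 1711218), (nat_lit 3788737), (nat_lit 9288322)]) (PF.cons (PF.leaf (nat_lit 7062168) (nat_lit 536842) (nat_lit 44763619) (nat_lit 3590208) [(nat_lit 536842), (nat_lit 1721605), (nat_lit 3794362), (nat_lit 9258963)]) (PF.cons (PF.leaf (nat_lit 7398924) (nat_lit 544024) (nat_lit 44208094) (nat_lit 3594989) [(nat_lit 544024), (nat_lit 1730825), (nat_lit 3798330), (nat_lit 9226875)]) (PF.cons (PF.leaf (nat_lit 7740658) (nat_lit 550447) (nat_lit 43649782) (nat_lit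
 3598166) [(nat_lit 550447), (nat_lit 1738900), (nat_lit 3800649), (nat_lit 9192170)]) (PF.cons PF.nil PF.nil))))) (PF.cons (PF.cons (PF.leaf (nat_lit 7522527) (nat_lit 1732806) (nat_lit 43606403) (nat_lit 3592196) [(nat_lit 0), (nat_lit 1732806), (nat_lit 3794661), (nat_lit 9184327)]) (PF.cons (PF.leaf (nat_lit 7858137) (nat_lit 550623) (nat_lit 43060891) (nat_lit 3593924) [(nat_lit 550623), (nat_lit 1739964), (nat_lit 3795496), (nat_lit 9148020)]) (PF.cons PF.nil (PF.cons PF.nil PF.nil)))) (PF.cons (PF.cons (PF.leaf (nat_lit 8309194) (nat_lit 1745626) (nat_lit 41944137) (nat_lit 3587447) [(nat_lit 0), (nat_lit 1745626), (nat_lit 3787099), (nat_lit 9061997)]) (PF.cons PF.nil PF.nil)) (PF.cons PF.nil (PF.cons PF.nil PF.nil)))))))) (PF.cons (PF.cons (PF.cons (PF.leaf (nat_lit 5743948) (nat_lit 3539477) (nat_lit 46741515) (nat_lit 3539477) [(nat_lit 0), (nat_lit 0), (nat_lit 3746216), (nat_lit 9335387)]) (PF.cons (PF.leaf (nat_lit 6048219) (nat_lit 504780) (nat_lit 46224202)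 (nat_lit 3551008) [(nat_lit 504780), (nat_lit 0), (nat_lit 3757083), (nat_lit 9314654)]) (PF.cons (PF.leaf (nat_lit 6363717) (nat_lit 515165) (nat_lit 45693614) (nat_lit 3561040) [(nat_lit 515165), (nat_lit 0),
 (nat_lit 3766409), (nat_lit 9291007)]) (PF.cons (PF.leaf (nat_lit 6688058) (nat_lit 524412) (nat_lit 45153391) (nat_lit 3569477) [(nat_lit 524412), (nat_lit 0), (nat_lit 3774100), (nat_lit 9264504)]) (PF.cons (PF.leaf (nat_lit 7019605) (nat_lit 532675) (nat_lit 44606386) (nat_lit 3576277) [(nat_lit 532675), (nat_lit 0), (nat_lit 3780112), (nat_lit 9235222)]) (PF.cons (PF.leaf (nat_lit 7357019) (nat_lit 540068) (nat_lit 44054906) (nat_lit 3581432) [(nat_lit 540068), (nat_lit 0), (nat_lit 3784436), (nat_lit 9203257)]) (PF.cons PF.nil (PF.cons PF.nil (PF.cons PF.nil PF.nil))))))))) (PF.cons (PF.cons (PF.leaf (nat_lit 6504094) (nat_lit 1693671) (nat_lit 45061178) (nat_lit 3563472) [(nat_lit 0), (nat_lit 1693671), (nat_lit 3768077), (nat_lit 9254334)]) (PF.cons (PF.leaf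 (nat_lit 6821322) (nat_lit 525278) (nat_lit 44534902) (nat_lit 3570113) [(nat_lit 525278), (nat_lit 1704719), (nat_lit 3773935), (nat_lit 9225928)]) (PF.cons (PF.leaf (nat_lit 7146683) (nat_lit 533375) (nat_lit 44000916) (nat_lit 3575242) [(nat_lit 533375), (nat_lit 1714596), (nat_lit 3778239), (nat_lit 9194827)]) (PF.cons (PF.leaf (nat_lit 7478327) (nat_lit 540578) (nat_lit 43461831) (nat_lit 3578840) [(nat_lit
 540578), (nat_lit 1723317), (nat_lit 3780971), (nat_lit 9161142)]) (PF.cons (PF.leaf (nat_lit 7815032) (nat_lit 546991) (nat_lit 42919743) (nat_lit 3580917) [(nat_lit 546991), (nat_lit 1730910), (nat_lit 3782141), (nat_lit 9124991)]) (PF.cons PF.nil (PF.cons PF.nil PF.nil))))))) (PF.cons (PF.cons (PF.leaf (nat_lit 7273617) (nat_lit 1716903) (nat_lit 43400378) (nat_lit 3572758) [(nat_lit 0), (nat_lit 1716903), (nat_lit 3774863), (nat_lit 9152141)]) (PF.cons (PF.leaf (nat_lit 7598732) (nat_lit 540687) (nat_lit 42874611) (nat_lit 3574915) [(nat_lit 540687), (nat_lit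 1724686), (nat_lit 3776124), (nat_lit 9116978)]) (PF.cons (PF.leaf (nat_lit 7929618) (nat_lit 546945) (nat_lit 42345160) (nat_lit 3575651) [(nat_lit 546945), (nat_lit 1731413), (nat_lit 3775923), (nat_lit 9079436)]) (PF.cons PF.nil (PF.cons PF.nil PF.nil))))) (PF.cons (PF.cons (PF.leaf (nat_lit 8043682) (nat_lit 1731238) (nat_lit 41776720) (nat_lit 3569226) [(nat_lit 0), (nat_lit 1731238), (nat_lit 3768506), (nat_lit 9032138)]) (PF.cons (PF.leaf (nat_lit 8372791) (nat_lit 551951) (nat_lit 41258222) (nat_lit 3567414) [(nat_lit 551951), (nat_lit 1736191), (nat_lit 3765696), (nat_lit 8991256)]) (PF.cons PF.nil (PF.cons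
 PF.nil PF.nil)))) (PF.cons (PF.cons (PF.leaf (nat_lit 8807627) (nat_lit 1738053) (nat_lit 40202269) (nat_lit 3554769) [(nat_lit 0), (nat_lit 1738053), (nat_lit 3750950), (nat_lit 8897659)]) (PF.cons PF.nil PF.nil)) (PF.cons PF.nil PF.nil)))))) (PF.cons (PF.cons (PF.cons (PF.leaf (nat_lit 7038448) (nat_lit 3552813) (nat_lit 43173773) (nat_lit 3552813) [(nat_lit 0), (nat_lit 0), (nat_lit 3754572), (nat_lit 9118508)]) (PF.cons (PF.leaf (nat_lit 7351485) (nat_lit 529501) (nat_lit 42670544) (nat_lit 3555391) [(nat_lit 529501), (nat_lit 0), (nat_lit 3756249), (nat_lit 9084628)]) (PF.cons (PF.leaf (nat_lit 7671902) (nat_lit 536677) (nat_lit 42160918) (nat_lit 3556610) [(nat_lit 536677), (nat_lit 0), (nat_lit 3756529), (nat_lit 9048340)]) (PF.cons (PF.leaf (nat_lit 7997898) (nat_lit 542993) (nat_lit 41647320) (nat_lit 3556472) [(nat_lit 542993), (nat_lit 0), (nat_lit 3755417), (nat_lit 9009785)]) (PF.cons PF.nil PF.nil))))) (PF.cons (PF.cons (PF.leaf (nat_lit 7789695) (nat_lit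 1716034) (nat_lit 41593108) (nat_lit 3550488) [(nat_lit 0), (nat_lit 1716034), (nat_lit 3749402), (nat_lit 9000973)]) (PF.cons (PF.leaf (nat_lit 8109158) (nat_lit 542388) (nat_lit 41092752) (nat_lit 3549208)
 [(nat_lit 542388), (nat_lit 1721640), (nat_lit 3747129), (nat_lit 8961434)]) (PF.cons (PF.leaf (nat_lit 8433767) (nat_lit 547848) (nat_lit 40589619) (nat_lit 3546674) [(nat_lit 547848), (nat_lit 1726290), (nat_lit 3743568), (nat_lit 8919824)]) (PF.cons PF.nil PF.nil)))) (PF.cons (PF.cons (PF.leaf (nat_lit 8539000) (nat_lit 1724388) (nat_lit 40053708) (nat_lit 3537416) [(nat_lit 0), (nat_lit 1724388), (nat_lit 3733234), (nat_lit 8869206)]) (PF.cons (PF.leaf (nat_lit 8861364) (nat_lit 551521) (nat_lit 39562003) (nat_lit 3532759) [(nat_lit 551521), (nat_lit 1727511), (nat_lit 3727505), (nat_lit 8824989)]) PF.nil)) (PF.cons PF.nil (PF.cons PF.nil PF.nil))))) (PF.cons (PF.cons (PF.cons (PF.leaf (nat_lit 8281411) (nat_lit 3519502) (nat_lit 39890103) (nat_lit 3519502)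 [(nat_lit 0), (nat_lit 0), (nat_lit 3714958), (nat_lit 8839375)]) (PF.cons (PF.leaf (nat_lit 8594866) (nat_lit 542343) (nat_lit 39415039) (nat_lit 3515446) [(nat_lit 542343), (nat_lit 0), (nat_lit 3709839), (nat_lit 8796626)]) (PF.cons (PF.leaf (nat_lit 8912973) (nat_lit 547114) (nat_lit 38937890) (nat_lit 3510282) [(nat_lit 547114), (nat_lit 0), (nat_lit 3703584), (nat_lit 8752075)]) (PF.cons PF.nil PF.nil)))) (PF.cons
 (PF.cons (PF.leaf (nat_lit 9010062) (nat_lit 1713355) (nat_lit 38433326) (nat_lit 3498836) [(nat_lit 0), (nat_lit 1713355), (nat_lit 3691006), (nat_lit 8699269)]) (PF.cons PF.nil PF.nil)) (PF.cons PF.nil PF.nil))) (PF.cons (PF.cons (PF.cons (PF.leaf (nat_lit 9458484) (nat_lit 3455148) (nat_lit 36910626) (nat_lit 3455148) [(nat_lit 0), (nat_lit 0), (nat_lit 3643556), (nat_lit 8525253)]) (PF.cons PF.nil PF.nil)) (PF.cons PF.nil PF.nil)) (PF.cons PF.nil (PF.cons PF.nil PF.nil)))))))) (PF.cons (PF.cons (PF.cons (PF.cons (PF.leaf (nat_lit 5349493) (nat_lit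 3434183) (nat_lit 45387124) (nat_lit 3434183) [(nat_lit 0), (nat_lit 0), (nat_lit 0), (nat_lit 9143752)]) (PF.cons (PF.leaf (nat_lit 5622990) (nat_lit 467823) (nat_lit 44941911) (nat_lit 3447561) [(nat_lit 467823), (nat_lit 0), (nat_lit 0), (nat_lit 9125757)]) (PF.cons (PF.leaf (nat_lit 5911317) (nat_lit 480840) (nat_lit 44477360) (nat_lit 3459673) [(nat_lit 480840), (nat_lit 0), (nat_lit 0), (nat_lit 9105049)]) (PF.cons (PF.leaf (nat_lit 6211318) (nat_lit 492298) (nat_lit 43998240) (nat_lit 3470332) [(nat_lit 492298), (nat_lit 0), (nat_lit 0), (nat_lit 9081671)]) (PF.cons (PF.leaf (nat_lit 6520896) (nat_lit 502462) (nat_lit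
 43508159) (nat_lit 3479438) [(nat_lit 502462), (nat_lit 0), (nat_lit 0), (nat_lit 9055682)]) (PF.cons (PF.leaf (nat_lit 6838380) (nat_lit 511518) (nat_lit 43009967) (nat_lit 3486945) [(nat_lit 511518), (nat_lit 0), (nat_lit 0), (nat_lit 9027153)]) (PF.cons (PF.leaf (nat_lit 7162392) (nat_lit 519608) (nat_lit 42505980) (nat_lit 3492841) [(nat_lit 519608), (nat_lit 0), (nat_lit 0), (nat_lit 8996170)]) (PF.cons (PF.leaf (nat_lit 7491755) (nat_lit 526841) (nat_lit 41998118) (nat_lit 3497144) [(nat_lit 526841), (nat_lit 0), (nat_lit 0), (nat_lit 8962829)]) (PF.cons PF.nil (PF.cons PF.nil PF.nil)))))))))) (PF.cons (PF.cons (PF.leaf (nat_lit 6055850) (nat_lit 1626054) (nat_lit 43878066) (nat_lit 3464493) [(nat_lit 0), (nat_lit 1626054), (nat_lit 0), (nat_lit 9070098)]) (PF.cons (PF.leaf (nat_lit 6348136) (nat_lit 493595) (nat_lit 43412278) (nat_lit 3473225) [(nat_lit 493595), (nat_lit 1639568), (nat_lit 0), (nat_lit 9045072)]) (PF.cons (PF.leaf (nat_lit 6651242) (nat_lit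 503606) (nat_lit 42934297) (nat_lit 3480554) [(nat_lit 503606), (nat_lit 1651817), (nat_lit 0), (nat_lit 9017465)]) (PF.cons (PF.leaf (nat_lit 6962843) (nat_lit 512472) (nat_lit 42447421) (nat_lit 3486416) [(nat_lit
 512472), (nat_lit 1662804), (nat_lit 0), (nat_lit 8987376)]) (PF.cons (PF.leaf (nat_lit 7281383) (nat_lit 520353) (nat_lit 41954237) (nat_lit 3490788) [(nat_lit 520353), (nat_lit 1672557), (nat_lit 0), (nat_lit 8954908)]) (PF.cons (PF.leaf (nat_lit 7605573) (nat_lit 527370) (nat_lit 41456829) (nat_lit 3493676) [(nat_lit 527370), (nat_lit 1681117), (nat_lit 0), (nat_lit 8920169)]) (PF.cons (PF.leaf (nat_lit 7934319) (nat_lit 533618) (nat_lit 40956922) (nat_lit 3495104) [(nat_lit 533618), (nat_lit 1688532), (nat_lit 0), (nat_lit 8883271)]) (PF.cons PF.nil (PF.cons PF.nil PF.nil))))))))) (PF.cons (PF.cons (PF.leaf (nat_lit 6782318) (nat_lit 1655793) (nat_lit 42363157) (nat_lit 3480157) [(nat_lit 0), (nat_lit 1655793), (nat_lit 0), (nat_lit 8976955)]) (PF.cons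 (PF.leaf (nat_lit 7087035) (nat_lit 512949) (nat_lit 41888851) (nat_lit 3484495) [(nat_lit 512949), (nat_lit 1665706), (nat_lit 0), (nat_lit 8945551)]) (PF.cons (PF.leaf (nat_lit 7399632) (nat_lit 520686) (nat_lit 41407385) (nat_lit 3487455) [(nat_lit 520686), (nat_lit 1674483), (nat_lit 0), (nat_lit 8911815)]) (PF.cons (PF.leaf (nat_lit 7718307) (nat_lit 527537) (nat_lit 40921114) (nat_lit 3489033) [(nat_lit 527537), (nat_lit
 1682151), (nat_lit 0), (nat_lit 8875873)]) (PF.cons (PF.leaf (nat_lit 8041856) (nat_lit 533610) (nat_lit 40431929) (nat_lit 3489247) [(nat_lit 533610), (nat_lit 1688748), (nat_lit 0), (nat_lit 8837849)]) (PF.cons PF.nil (PF.cons PF.nil PF.nil))))))) (PF.cons (PF.cons (PF.leaf (nat_lit 7518010) (nat_lit 1675682) (nat_lit 40864948) (nat_lit 3482911) [(nat_lit 0), (nat_lit 1675682), (nat_lit 0), (nat_lit 8866952)]) (PF.cons (PF.leaf (nat_lit 7830407) (nat_lit 527340) (nat_lit 40390618) (nat_lit 3483282) [(nat_lit 527340), (nat_lit 1682515), (nat_lit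 0), (nat_lit 8830011)]) (PF.cons (PF.leaf (nat_lit 8148435) (nat_lit 533282) (nat_lit 39912744) (nat_lit 3482377) [(nat_lit 533282), (nat_lit 1688347), (nat_lit 0), (nat_lit 8791041)]) (PF.cons (PF.leaf (nat_lit 8470657) (nat_lit 538518) (nat_lit 39433043) (nat_lit 3480223) [(nat_lit 538518), (nat_lit 1693212), (nat_lit 0), (nat_lit 8750176)]) (PF.cons PF.nil PF.nil))))) (PF.cons (PF.cons (PF.leaf (nat_lit 8254780) (nat_lit 1687365) (nat_lit 39398987) (nat_lit 3474549) [(nat_lit 0), (nat_lit 1687365), (nat_lit 0), (nat_lit 8742906)]) (PF.cons (PF.leaf (nat_lit 8571211) (nat_lit 537762) (nat_lit 38930647) (nat_lit 3471443) [(nat_lit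
 537762), (nat_lit 1691575), (nat_lit 0), (nat_lit 8701329)]) (PF.cons PF.nil (PF.cons PF.nil PF.nil)))) (PF.cons (PF.cons (PF.leaf (nat_lit 8986508) (nat_lit 1692209) (nat_lit 37975834) (nat_lit 3456785) [(nat_lit 0), (nat_lit 1692209), (nat_lit 0), (nat_lit 8607573)]) (PF.cons PF.nil PF.nil)) (PF.cons PF.nil (PF.cons PF.nil PF.nil)))))))) (PF.cons (PF.cons (PF.cons (PF.leaf (nat_lit 6573033) (nat_lit 3458888) (nat_lit 42109588) (nat_lit 3458888) [(nat_lit 0), (nat_lit 0), (nat_lit 3657709), (nat_lit 8941313)]) (PF.cons (PF.leaf (nat_lit 6863202) (nat_lit 499484) (nat_lit 41661335) (nat_lit 3463658) [(nat_lit 499484), (nat_lit 0), (nat_lit 3661581), (nat_lit 8911376)]) (PF.cons (PF.leaf (nat_lit 7163369) (nat_lit 508516) (nat_lit 41202439) (nat_lit 3467134) [(nat_lit 508516), (nat_lit 0), (nat_lit 3664129), (nat_lit 8879037)]) (PF.cons (PF.leaf (nat_lit 7471219) (nat_lit 516437) (nat_lit 40736006) (nat_lit 3469284) [(nat_lit 516437), (nat_lit 0), (nat_lit 3665324),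 (nat_lit 8844442)]) (PF.cons (PF.leaf (nat_lit 7785255) (nat_lit 523411) (nat_lit 40264445) (nat_lit 3470104) [(nat_lit 523411), (nat_lit 0), (nat_lit 3665163), (nat_lit 8807726)]) (PF.cons (PF.leaf (nat_lit 8104280)
 (nat_lit 529563) (nat_lit 39789680) (nat_lit 3469614) [(nat_lit 529563), (nat_lit 0), (nat_lit 3663666), (nat_lit 8769017)]) (PF.cons PF.nil PF.nil))))))) (PF.cons (PF.cons (PF.leaf (nat_lit 7286200) (nat_lit 1658627) (nat_lit 40660190) (nat_lit 3462975) [(nat_lit 0), (nat_lit 1658627), (nat_lit 3658980), (nat_lit 8834019)]) (PF.cons (PF.leaf (nat_lit 7587114) (nat_lit 516141) (nat_lit 40206422) (nat_lit 3463909) [(nat_lit 516141), (nat_lit 1666276), (nat_lit 3658948), (nat_lit 8798557)]) (PF.cons (PF.leaf (nat_lit 7895184) (nat_lit 523032) (nat_lit 39746616) (nat_lit 3463604) [(nat_lit 523032), (nat_lit 1672886), (nat_lit 3657648), (nat_lit 8760996)]) (PF.cons (PF.leaf (nat_lit 8208700) (nat_lit 529073) (nat_lit 39282967) (nat_lit 3462071) [(nat_lit 529073),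 (nat_lit 1678491), (nat_lit 3655095), (nat_lit 8721483)]) (PF.cons (PF.leaf (nat_lit 8526506) (nat_lit 534374) (nat_lit 38817213) (nat_lit 3459337) [(nat_lit 534374), (nat_lit 1683132), (nat_lit 3651316), (nat_lit 8680157)]) PF.nil))))) (PF.cons (PF.cons (PF.leaf (nat_lit 8005453) (nat_lit 1672238) (nat_lit 39233371) (nat_lit 3456119) [(nat_lit 0), (nat_lit 1672238), (nat_lit 3649116), (nat_lit 8712864)]) (PF.cons (PF.leaf
 (nat_lit 8312715) (nat_lit 528260) (nat_lit 38781532) (nat_lit 3453631) [(nat_lit 528260), (nat_lit 1677162), (nat_lit 3645599), (nat_lit 8672732)]) (PF.cons (PF.leaf (nat_lit 8625050) (nat_lit 533479) (nat_lit 38326920) (nat_lit 3450013) [(nat_lit 533479), (nat_lit 1681179), (nat_lit 3640926), (nat_lit 8630816)]) (PF.cons PF.nil PF.nil)))) (PF.cons (PF.cons (PF.leaf (nat_lit 8723588) (nat_lit 1678750) (nat_lit 37841998) (nat_lit 3439914) [(nat_lit 0), (nat_lit 1678750), (nat_lit 3629738), (nat_lit 8580455)]) (PF.cons (PF.leaf (nat_lit 9033906) (nat_lit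 536785) (nat_lit 37397267) (nat_lit 3434455) [(nat_lit 536785), (nat_lit 1681368), (nat_lit 3623194), (nat_lit 8536503)]) PF.nil)) (PF.cons PF.nil (PF.cons PF.nil PF.nil)))))) (PF.cons (PF.cons (PF.cons (PF.leaf (nat_lit 7769006) (nat_lit 3437027) (nat_lit 39050019) (nat_lit 3437027) [(nat_lit 0), (nat_lit 0), (nat_lit 3629692), (nat_lit 8681190)]) (PF.cons (PF.leaf (nat_lit 8065565) (nat_lit 517523) (nat_lit 38617108) (nat_lit 3435181) [(nat_lit 517523), (nat_lit 0), (nat_lit 3626822), (nat_lit 8642677)]) (PF.cons (PF.leaf (nat_lit 8368695) (nat_lit 523674) (nat_lit 38179072) (nat_lit 3432218) [(nat_lit 523674), (nat_lit 0),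
 (nat_lit 3622809), (nat_lit 8602276)]) (PF.cons (PF.leaf (nat_lit 8676726) (nat_lit 529011) (nat_lit 37737947) (nat_lit 3428162) [(nat_lit 529011), (nat_lit 0), (nat_lit 3617681), (nat_lit 8560151)]) (PF.cons PF.nil PF.nil))))) (PF.cons (PF.cons (PF.leaf (nat_lit 8471389) (nat_lit 1664447) (nat_lit 37694236) (nat_lit 3422430) [(nat_lit 0), (nat_lit 1664447), (nat_lit 3611922), (nat_lit 8551926)]) (PF.cons (PF.leaf (nat_lit 8773235) (nat_lit 527700) (nat_lit 37264639) (nat_lit 3417629) [(nat_lit 527700), (nat_lit 1667773), (nat_lit 3606046), (nat_lit 8509489)]) (PF.cons (PF.leaf (nat_lit 9079665) (nat_lit 532291) (nat_lit 36832867) (nat_lit 3411824) [(nat_lit 532291), (nat_lit 1670277), (nat_lit 3599144), (nat_lit 8465485)]) (PF.cons PF.nil PF.nil)))) (PF.cons (PF.cons (PF.leaf (nat_lit 9171000) (nat_lit 1666693) (nat_lit 36375612) (nat_lit 3399975) [(nat_lit 0), (nat_lit 1666693), (nat_lit 3586171), (nat_lit 8413747)]) (PF.cons PF.nil PF.nil)) (PF.cons PF.nil (PF.cons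 PF.nil PF.nil))))) (PF.cons (PF.cons (PF.cons (PF.leaf (nat_lit 8916973) (nat_lit 3383456) (nat_lit 36243712) (nat_lit 3383456) [(nat_lit 0), (nat_lit 0), (nat_lit 3569333), (nat_lit 8386821)]) (PF.cons (PF.leaf
 (nat_lit 9213212) (nat_lit 525933) (nat_lit 35835790) (nat_lit 3376792) [(nat_lit 525933), (nat_lit 0), (nat_lit 3561564), (nat_lit 8342801)]) (PF.cons PF.nil (PF.cons PF.nil PF.nil)))) (PF.cons (PF.cons (PF.leaf (nat_lit 9598343) (nat_lit 1651928) (nat_lit 34995216) (nat_lit 3356057) [(nat_lit 0), (nat_lit 1651928), (nat_lit 3538563), (nat_lit 8244960)]) (PF.cons PF.nil PF.nil)) (PF.cons PF.nil PF.nil))) (PF.cons (PF.cons (PF.cons (PF.leaf (nat_lit 10006937) (nat_lit 3309226) (nat_lit 33695926) (nat_lit 3309226) [(nat_lit 0), (nat_lit 0), (nat_lit 3488021), (nat_lit 8075786)]) (PF.cons PF.nil PF.nil)) (PF.cons PF.nil PF.nil)) (PF.cons PF.nil PF.nil)))))) (PF.cons (PF.cons (PF.cons (PF.cons (PF.leaf (nat_lit 7297462) (nat_lit 3351363) (nat_lit 38193699) (nat_lit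 3351363) [(nat_lit 0), (nat_lit 0), (nat_lit 0), (nat_lit 8521250)]) (PF.cons (PF.leaf (nat_lit 7574165) (nat_lit 489505) (nat_lit 37805686) (nat_lit 3351956) [(nat_lit 489505), (nat_lit 0), (nat_lit 0), (nat_lit 8487221)]) (PF.cons (PF.leaf (nat_lit 7859922) (nat_lit 497513) (nat_lit 37408863) (nat_lit 3351420) [(nat_lit 497513), (nat_lit 0), (nat_lit 0), (nat_lit 8451167)]) (PF.cons (PF.leaf (nat_lit 8152541) (nat_lit
 504446) (nat_lit 37005884) (nat_lit 3349760) [(nat_lit 504446), (nat_lit 0), (nat_lit 0), (nat_lit 8413276)]) (PF.cons (PF.leaf (nat_lit 8450623) (nat_lit 510476) (nat_lit 36598788) (nat_lit 3346996) [(nat_lit 510476), (nat_lit 0), (nat_lit 0), (nat_lit 8373706)]) (PF.cons (PF.leaf (nat_lit 8753025) (nat_lit 515730) (nat_lit 36189194) (nat_lit 3343163) [(nat_lit 515730), (nat_lit 0), (nat_lit 0), (nat_lit 8332601)]) (PF.cons PF.nil PF.nil))))))) (PF.cons (PF.cons (PF.leaf (nat_lit 7968865) (nat_lit 1612159) (nat_lit 36943326) (nat_lit 3343528) [(nat_lit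 0), (nat_lit 1612159), (nat_lit 0), (nat_lit 8403266)]) (PF.cons (PF.leaf (nat_lit 8254792) (nat_lit 503420) (nat_lit 36551491) (nat_lit 3341034) [(nat_lit 503420), (nat_lit 1617536), (nat_lit 0), (nat_lit 8365109)]) (PF.cons (PF.leaf (nat_lit 8547188) (nat_lit 509425) (nat_lit 36154696) (nat_lit 3337502) [(nat_lit 509425), (nat_lit 1621983), (nat_lit 0), (nat_lit 8325260)]) (PF.cons (PF.leaf (nat_lit 8844392) (nat_lit 514624) (nat_lit 35754792) (nat_lit 3332960) [(nat_lit 514624), (nat_lit 1625545), (nat_lit 0), (nat_lit 8283880)]) (PF.cons PF.nil PF.nil))))) (PF.cons (PF.cons (PF.leaf (nat_lit 8644455) (nat_lit 1619565) (nat_lit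
 35714551) (nat_lit 3327319) [(nat_lit 0), (nat_lit 1619565), (nat_lit 0), (nat_lit 8275937)]) (PF.cons (PF.leaf (nat_lit 8935727) (nat_lit 513252) (nat_lit 35324893) (nat_lit 3322137) [(nat_lit 513252), (nat_lit 1622623), (nat_lit 0), (nat_lit 8234427)]) (PF.cons (PF.leaf (nat_lit 9231583) (nat_lit 517724) (nat_lit 34932966) (nat_lit 3316031) [(nat_lit 517724), (nat_lit 1624890), (nat_lit 0), (nat_lit 8191527)]) (PF.cons PF.nil PF.nil)))) (PF.cons (PF.cons (PF.leaf (nat_lit 9318163) (nat_lit 1621166) (nat_lit 34517201) (nat_lit 3304087) [(nat_lit 0), (nat_lit 1621166), (nat_lit 0), (nat_lit 8141341)]) (PF.cons PF.nil PF.nil)) (PF.cons PF.nil PF.nil))))) (PF.cons (PF.cons (PF.cons (PF.leaf (nat_lit 8409926) (nat_lit 3309554) (nat_lit 35565138) (nat_lit 3309554) [(nat_lit 0), (nat_lit 0), (nat_lit 3492984), (nat_lit 8247045)]) (PF.cons (PF.leaf (nat_lit 8691581) (nat_lit 503053) (nat_lit 35191404) (nat_lit 3305110) [(nat_lit 503053), (nat_lit 0), (nat_lit 3487479), (nat_lit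 8207254)]) (PF.cons (PF.leaf (nat_lit 8979243) (nat_lit 508449) (nat_lit 34813374) (nat_lit 3299727) [(nat_lit 508449), (nat_lit 0), (nat_lit 3481018), (nat_lit 8165931)]) (PF.cons (PF.leaf (nat_lit 9271278)
 (nat_lit 513074) (nat_lit 34432773) (nat_lit 3293441) [(nat_lit 513074), (nat_lit 0), (nat_lit 3473639), (nat_lit 8123244)]) (PF.cons PF.nil PF.nil))))) (PF.cons (PF.cons (PF.leaf (nat_lit 9070158) (nat_lit 1607885) (nat_lit 34397296) (nat_lit 3288073) [(nat_lit 0), (nat_lit 1607885), (nat_lit 3468251), (nat_lit 8115768)]) (PF.cons (PF.leaf (nat_lit 9356359) (nat_lit 511345) (nat_lit 34026601) (nat_lit 3281296) [(nat_lit 511345), (nat_lit 1609736), (nat_lit 3460388), (nat_lit 8073147)]) (PF.cons PF.nil (PF.cons PF.nil PF.nil)))) (PF.cons (PF.cons (PF.leaf (nat_lit 9727353) (nat_lit 1606357) (nat_lit 33261478) (nat_lit 3260668) [(nat_lit 0), (nat_lit 1606357), (nat_lit 3437547), (nat_lit 7978801)]) (PF.cons PF.nil PF.nil)) PF.nil))) (PF.cons (PF.cons (PF.cons (PF.leaf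 (nat_lit 9478655) (nat_lit 3245632) (nat_lit 33154174) (nat_lit 3245632) [(nat_lit 0), (nat_lit 0), (nat_lit 3422238), (nat_lit 7954843)]) (PF.cons (PF.leaf (nat_lit 9759680) (nat_lit 508584) (nat_lit 32801764) (nat_lit 3237577) [(nat_lit 508584), (nat_lit 0), (nat_lit 3413089), (nat_lit 7911568)]) (PF.cons PF.nil PF.nil))) (PF.cons (PF.cons (PF.leaf (nat_lit 10119676) (nat_lit 1589769) (nat_lit 32077174) (nat_lit
 3214956) [(nat_lit 0), (nat_lit 1589769), (nat_lit 3388252), (nat_lit 7816802)]) PF.nil) PF.nil)) (PF.cons PF.nil (PF.cons PF.nil PF.nil))))) (PF.cons (PF.cons (PF.cons (PF.cons (PF.leaf (nat_lit 8981740) (nat_lit 3179855) (nat_lit 32600051) (nat_lit 3179855) [(nat_lit 0), (nat_lit 0), (nat_lit 0), (nat_lit 7832226)]) (PF.cons (PF.leaf (nat_lit 9249967) (nat_lit 487560) (nat_lit 32275589) (nat_lit 3173918) [(nat_lit 487560), (nat_lit 0), (nat_lit 0), (nat_lit 7792936)]) (PF.cons (PF.leaf (nat_lit 9523763) (nat_lit 492380) (nat_lit 31947416) (nat_lit 3167176)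 [(nat_lit 492380), (nat_lit 0), (nat_lit 0), (nat_lit 7752364)]) (PF.cons PF.nil (PF.cons PF.nil PF.nil))))) (PF.cons (PF.cons (PF.leaf (nat_lit 9605331) (nat_lit 1550227) (nat_lit 31587993) (nat_lit 3154699) [(nat_lit 0), (nat_lit 1550227), (nat_lit 0), (nat_lit 7703973)]) (PF.cons (PF.leaf (nat_lit 9877592) (nat_lit 494502) (nat_lit 31266070) (nat_lit 3146872) [(nat_lit 494502), (nat_lit 1551109), (nat_lit 0), (nat_lit 7662564)]) (PF.cons PF.nil (PF.cons PF.nil PF.nil)))) (PF.cons (PF.cons (PF.leaf (nat_lit 10225896) (nat_lit 1546367) (nat_lit 30603014) (nat_lit 3124953) [(nat_lit 0), (nat_lit 1546367), (nat_lit 0), (nat_lit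
 7572027)]) (PF.cons PF.nil PF.nil)) PF.nil))) (PF.cons (PF.cons (PF.cons (PF.leaf (nat_lit 9983419) (nat_lit 3111345) (nat_lit 30514902) (nat_lit 3111345) [(nat_lit 0), (nat_lit 0), (nat_lit 3279198), (nat_lit 7550841)]) (PF.cons (PF.leaf (nat_lit 10250906) (nat_lit 491186) (nat_lit 30208335) (nat_lit 3102622) [(nat_lit 491186), (nat_lit 0), (nat_lit 3269420), (nat_lit 7509311)]) PF.nil)) (PF.cons PF.nil PF.nil)) (PF.cons PF.nil PF.nil))) (PF.cons (PF.cons (PF.cons (PF.cons (PF.leaf (nat_lit 10443264) (nat_lit 2983174) (nat_lit 28241332) (nat_lit 2983174) [(nat_lit 0), (nat_lit 0), (nat_lit 0), (nat_lit 7176861)]) (PF.cons PF.nil PF.nil)) (PF.cons PF.nil PF.nil)) (PF.cons PF.nil PF.nil)) (PF.cons PF.nil (PF.cons PF.nil (PF.cons PF.nil PF.nil)))))))))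

def p15_23_0_0 : pfC (piC [(nat_lit 38167130), (nat_lit 25010362), (nat_lit 18643303), (nat_lit 12552662)] (nat_lit 21541652)) p15_23_0 (nat_lit 4) (nat_lit 0) (nat_lit 1) = true := by decide +kernel
def p15_23_0_1 : pfC (piC [(nat_lit 38167130), (nat_lit 25010362), (nat_lit 18643303), (nat_lit 12552662)] (nat_lit 21541652)) p15_23_0 (nat_lit 4) (nat_lit 1) (nat_lit 2) = true := by decide +kernel
def p15_23_0_2 : pfC (piC [(nat_lit 38167130), (nat_lit 25010362), (nat_lit 18643303), (nat_lit 12552662)] (nat_lit 21541652)) p15_23_0 (nat_lit 4) (nat_lit 2) (nat_lit 3) = true := by decide +kernel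
def p15_23_0_3 : pfC (piC [(nat_lit 38167130), (nat_lit 25010362), (nat_lit 18643303), (nat_lit 12552662)] (nat_lit 21541652)) p15_23_0 (nat_lit 4) (nat_lit 3) (nat_lit 4) = true := by decide +kernel
def p15_23_0_4 : pfC (piC [(nat_lit 38167130), (nat_lit 25010362), (nat_lit 18643303), (nat_lit 12552662)] (nat_lit 21541652)) p15_23_0 (nat_lit 4) (nat_lit 4) (nat_lit 5) = true := by decide +kernel
def p15_23_0_5 : pfC (piC [(nat_lit 38167130), (nat_lit 25010362), (nat_lit 18643303), (nat_lit 12552662)] (nat_lit 21541652)) p15_23_0 (nat_lit 4) (nat_lit 5) (nat_lit 6) = true := by decide +kernel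
def p15_23_0_6 : pfC (piC [(nat_lit 38167130), (nat_lit 25010362), (nat_lit 18643303), (nat_lit 12552662)] (nat_lit 21541652)) p15_23_0 (nat_lit 4) (nat_lit 6) (nat_lit 7) = true := by decide +kernel
def p15_23_0_7 : pfC (piC [(nat_lit 38167130), (nat_lit 25010362), (nat_lit 18643303), (nat_lit 12552662)] (nat_lit 21541652)) p15_23_0 (nat_lit 4) (nat_lit 7) (nat_lit 8) = true := by decide +kernel
def p15_23_0_8 : pfC (piC [(nat_lit 38167130), (nat_lit 25010362), (nat_lit 18643303), (nat_lit 12552662)] (nat_lit 21541652)) p15_23_0 (nat_lit 4) (nat_lit 8) (nat_lit 9) = true := by decide +kernel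
def p15_23_0_9 : pfC (piC [(nat_lit 38167130), (nat_lit 25010362), (nat_lit 18643303), (nat_lit 12552662)] (nat_lit 21541652)) p15_23_0 (nat_lit 4) (nat_lit 9) (nat_lit 10) = true := by decide +kernel
def p15_23_0_10 : pfC (piC [(nat_lit 38167130), (nat_lit 25010362), (nat_lit 18643303), (nat_lit 12552662)] (nat_lit 21541652)) p15_23_0 (nat_lit 4) (nat_lit 10) (nat_lit 11) = true := by decide +kernel
def p15_23_0_11 : pfC (piC [(nat_lit 38167130), (nat_lit 25010362), (nat_lit 18643303), (nat_lit 12552662)] (nat_lit 21541652)) p15_23_0 (nat_lit 4) (nat_lit 11) (nat_lit 12) = true := by decide +kernel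
def p15_23_0_12 : pfC (piC [(nat_lit 38167130), (nat_lit 25010362), (nat_lit 18643303), (nat_lit 12552662)] (nat_lit 21541652)) p15_23_0 (nat_lit 4) (nat_lit 12) (nat_lit 13) = true := by decide +kernel
def p15_23_0_13 : pfC (piC [(nat_lit 38167130), (nat_lit 25010362), (nat_lit 18643303), (nat_lit 12552662)] (nat_lit 21541652)) p15_23_0 (nat_lit 4) (nat_lit 13) (nat_lit 14) = true := by decide +kernel
def p15_23_0_14 : pfC (piC [(nat_lit 38167130), (nat_lit 25010362), (nat_lit 18643303), (nat_lit 12552662)] (nat_lit 21541652)) p15_23_0 (nat_lit 4) (nat_lit 14) (nat_lit 15) = true := by decide +kernel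
def p15_23_0_15 : pfC (piC [(nat_lit 38167130), (nat_lit 25010362), (nat_lit 18643303), (nat_lit 12552662)] (nat_lit 21541652)) p15_23_0 (nat_lit 4) (nat_lit 15) (nat_lit 16) = true := by decide +kernel
def p15_23_0_16 : pfC (piC [(nat_lit 38167130), (nat_lit 25010362), (nat_lit 18643303), (nat_lit 12552662)] (nat_lit 21541652)) p15_23_0 (nat_lit 4) (nat_lit 16) (nat_lit 17) = true := by decide +kernel
def p15_23_0_17 : pfC (piC [(nat_lit 38167130), (nat_lit 25010362), (nat_lit 18643303), (nat_lit 12552662)] (nat_lit 21541652)) p15_23_0 (nat_lit 4) (nat_lit 17) (nat_lit 18) = true := by decide +kernel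
def p15_23_0_18 : pfC (piC [(nat_lit 38167130), (nat_lit 25010362), (nat_lit 18643303), (nat_lit 12552662)] (nat_lit 21541652)) p15_23_0 (nat_lit 4) (nat_lit 18) (nat_lit 19) = true := by decide +kernel
def p15_23_0_19 : pfC (piC [(nat_lit 38167130), (nat_lit 25010362), (nat_lit 18643303), (nat_lit 12552662)] (nat_lit 21541652)) p15_23_0 (nat_lit 4) (nat_lit 19) (nat_lit 20) = true := by decide +kernel
def p15_23_0_20 : pfC (piC [(nat_lit 38167130), (nat_lit 25010362), (nat_lit 18643303), (nat_lit 12552662)] (nat_lit 21541652)) p15_23_0 (nat_lit 4) (nat_lit 20) (nat_lit 21) = true := by decide +kernel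
def p15_23_0_21 : pfC (piC [(nat_lit 38167130), (nat_lit 25010362), (nat_lit 18643303), (nat_lit 12552662)] (nat_lit 21541652)) p15_23_0 (nat_lit 4) (nat_lit 21) (nat_lit 22) = true := by decide +kernel
def p15_23_0_22 : pfC (piC [(nat_lit 38167130), (nat_lit 25010362), (nat_lit 18643303), (nat_lit 12552662)] (nat_lit 21541652)) p15_23_0 (nat_lit 4) (nat_lit 22) (nat_lit 23) = true := by decide +kernel
def p15_23_0_23 : pfC (piC [(nat_lit 38167130), (nat_lit 25010362), (nat_lit 18643303), (nat_lit 12552662)] (nat_lit 21541652)) p15_23_0 (nat_lit 4) (nat_lit 23) (nat_lit 24) = true := by decide +kernel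
def p15_23_0_24 : pfC (piC [(nat_lit 38167130), (nat_lit 25010362), (nat_lit 18643303), (nat_lit 12552662)] (nat_lit 21541652)) p15_23_0 (nat_lit 4) (nat_lit 24) (nat_lit 25) = true := by decide +kernel
def p15_23_0_25 : pfC (piC [(nat_lit 38167130), (nat_lit 25010362), (nat_lit 18643303), (nat_lit 12552662)] (nat_lit 21541652)) p15_23_0 (nat_lit 4) (nat_lit 25) (nat_lit 26) = true := by decide +kernel
def p15_23_0_26 : pfC (piC [(nat_lit 38167130), (nat_lit 25010362), (nat_lit 18643303), (nat_lit 12552662)] (nat_lit 21541652)) p15_23_0 (nat_lit 4) (nat_lit 26) (nat_lit 27) = true := by decide +kernel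
def p15_23_0_27 : pfC (piC [(nat_lit 38167130), (nat_lit 25010362), (nat_lit 18643303), (nat_lit 12552662)] (nat_lit 21541652)) p15_23_0 (nat_lit 4) (nat_lit 27) (nat_lit 28) = true := by decide +kernel
def p15_23_0_28 : pfC (piC [(nat_lit 38167130), (nat_lit 25010362), (nat_lit 18643303), (nat_lit 12552662)] (nat_lit 21541652)) p15_23_0 (nat_lit 4) (nat_lit 28) (nat_lit 29) = true := by decide +kernel
def p15_23_0_29 : pfC (piC [(nat_lit 38167130), (nat_lit 25010362), (nat_lit 18643303), (nat_lit 12552662)] (nat_lit 21541652)) p15_23_0 (nat_lit 4) (nat_lit 29) (nat_lit 30) = true := by decide +kernel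
def p15_23_0_30 : pfC (piC [(nat_lit 38167130), (nat_lit 25010362), (nat_lit 18643303), (nat_lit 12552662)] (nat_lit 21541652)) p15_23_0 (nat_lit 4) (nat_lit 30) (nat_lit 31) = true := by decide +kernel
def p15_23_0_31 : pfC (piC [(nat_lit 38167130), (nat_lit 25010362), (nat_lit 18643303), (nat_lit 12552662)] (nat_lit 21541652)) p15_23_0 (nat_lit 4) (nat_lit 31) (nat_lit 32) = true := by decide +kernel
def p15_23_0_32 : pfC (piC [(nat_lit 38167130), (nat_lit 25010362), (nat_lit 18643303), (nat_lit 12552662)] (nat_lit 21541652)) p15_23_0 (nat_lit 4) (nat_lit 32) (nat_lit 33) = true := by decide +kernel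
def p15_23_0_33 : pfC (piC [(nat_lit 38167130), (nat_lit 25010362), (nat_lit 18643303), (nat_lit 12552662)] (nat_lit 21541652)) p15_23_0 (nat_lit 4) (nat_lit 33) (nat_lit 34) = true := by decide +kernel
def p15_23_0_34 : pfC (piC [(nat_lit 38167130), (nat_lit 25010362), (nat_lit 18643303), (nat_lit 12552662)] (nat_lit 21541652)) p15_23_0 (nat_lit 4) (nat_lit 34) (nat_lit 35) = true := by decide +kernel
def p15_23_0_35 : pfC (piC [(nat_lit 38167130), (nat_lit 25010362), (nat_lit 18643303), (nat_lit 12552662)] (nat_lit 21541652)) p15_23_0 (nat_lit 4) (nat_lit 35) (nat_lit 36) = true := by decide +kernel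
def p15_23_0_36 : pfC (piC [(nat_lit 38167130), (nat_lit 25010362), (nat_lit 18643303), (nat_lit 12552662)] (nat_lit 21541652)) p15_23_0 (nat_lit 4) (nat_lit 36) (nat_lit 37) = true := by decide +kernel
def p15_23_0_37 : pfC (piC [(nat_lit 38167130), (nat_lit 25010362), (nat_lit 18643303), (nat_lit 12552662)] (nat_lit 21541652)) p15_23_0 (nat_lit 4) (nat_lit 37) (nat_lit 38) = true := by decide +kernel
def p15_23_0_38 : pfC (piC [(nat_lit 38167130), (nat_lit 25010362), (nat_lit 18643303), (nat_lit 12552662)] (nat_lit 21541652)) p15_23_0 (nat_lit 4) (nat_lit 38) (nat_lit 39) = true := by decide +kernel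
def p15_23_0_39 : pfC (piC [(nat_lit 38167130), (nat_lit 25010362), (nat_lit 18643303), (nat_lit 12552662)] (nat_lit 21541652)) p15_23_0 (nat_lit 4) (nat_lit 39) (nat_lit 40) = true := by decide +kernel
def p15_23_0_40 : pfC (piC [(nat_lit 38167130), (nat_lit 25010362), (nat_lit 18643303), (nat_lit 12552662)] (nat_lit 21541652)) p15_23_0 (nat_lit 4) (nat_lit 40) (nat_lit 41) = true := by decide +kernel
def p15_23_0_41 : pfC (piC [(nat_lit 38167130), (nat_lit 25010362), (nat_lit 18643303), (nat_lit 12552662)] (nat_lit 21541652)) p15_23_0 (nat_lit 4) (nat_lit 41) (nat_lit 42) = true := by decide +kernel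
def p15_23_0_42 : pfC (piC [(nat_lit 38167130), (nat_lit 25010362), (nat_lit 18643303), (nat_lit 12552662)] (nat_lit 21541652)) p15_23_0 (nat_lit 4) (nat_lit 42) (nat_lit 43) = true := by decide +kernel
def p15_23_0_43 : pfC (piC [(nat_lit 38167130), (nat_lit 25010362), (nat_lit 18643303), (nat_lit 12552662)] (nat_lit 21541652)) p15_23_0 (nat_lit 4) (nat_lit 43) (nat_lit 44) = true := by decide +kernel
def p15_23_0_44 : pfC (piC [(nat_lit 38167130), (nat_lit 25010362), (nat_lit 18643303), (nat_lit 12552662)] (nat_lit 21541652)) p15_23_0 (nat_lit 4) (nat_lit 44) (nat_lit 45) = true := by decide +kernel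
def p15_23_0_45 : pfC (piC [(nat_lit 38167130), (nat_lit 25010362), (nat_lit 18643303), (nat_lit 12552662)] (nat_lit 21541652)) p15_23_0 (nat_lit 4) (nat_lit 45) (nat_lit 46) = true := by decide +kernel
def p15_23_0_46 : pfC (piC [(nat_lit 38167130), (nat_lit 25010362), (nat_lit 18643303), (nat_lit 12552662)] (nat_lit 21541652)) p15_23_0 (nat_lit 4) (nat_lit 46) (nat_lit 47) = true := by decide +kernel
def p15_23_0_47 : pfC (piC [(nat_lit 38167130), (nat_lit 25010362), (nat_lit 18643303), (nat_lit 12552662)] (nat_lit 21541652)) p15_23_0 (nat_lit 4) (nat_lit 47) (nat_lit 48) = true := by decide +kernel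
def p15_23_0_48 : pfC (piC [(nat_lit 38167130), (nat_lit 25010362), (nat_lit 18643303), (nat_lit 12552662)] (nat_lit 21541652)) p15_23_0 (nat_lit 4) (nat_lit 48) (nat_lit 49) = true := by decide +kernel
def p15_23_0_49 : pfC (piC [(nat_lit 38167130), (nat_lit 25010362), (nat_lit 18643303), (nat_lit 12552662)] (nat_lit 21541652)) p15_23_0 (nat_lit 4) (nat_lit 49) (nat_lit 50) = true := by decide +kernel
def p15_23_0_50 : pfC (piC [(nat_lit 38167130), (nat_lit 25010362), (nat_lit 18643303), (nat_lit 12552662)] (nat_lit 21541652)) p15_23_0 (nat_lit 4) (nat_lit 50) (nat_lit 51) = true := by decide +kernel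
def p15_23_0_51 : pfC (piC [(nat_lit 38167130), (nat_lit 25010362), (nat_lit 18643303), (nat_lit 12552662)] (nat_lit 21541652)) p15_23_0 (nat_lit 4) (nat_lit 51) (nat_lit 52) = true := by decide +kernel
def p15_23_0_52 : pfC (piC [(nat_lit 38167130), (nat_lit 25010362), (nat_lit 18643303), (nat_lit 12552662)] (nat_lit 21541652)) p15_23_0 (nat_lit 4) (nat_lit 52) (nat_lit 53) = true := by decide +kernel
def p15_23_0_53 : pfC (piC [(nat_lit 38167130), (nat_lit 25010362), (nat_lit 18643303), (nat_lit 12552662)] (nat_lit 21541652)) p15_23_0 (nat_lit 4) (nat_lit 53) (nat_lit 54) = true := by decide +kernel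
def p15_23_0_54 : pfC (piC [(nat_lit 38167130), (nat_lit 25010362), (nat_lit 18643303), (nat_lit 12552662)] (nat_lit 21541652)) p15_23_0 (nat_lit 4) (nat_lit 54) (nat_lit 55) = true := by decide +kernel
def p15_23_0_55 : pfC (piC [(nat_lit 38167130), (nat_lit 25010362), (nat_lit 18643303), (nat_lit 12552662)] (nat_lit 21541652)) p15_23_0 (nat_lit 4) (nat_lit 55) (nat_lit 56) = true := by decide +kernel
def p15_23_0_56 : pfC (piC [(nat_lit 38167130), (nat_lit 25010362), (nat_lit 18643303), (nat_lit 12552662)] (nat_lit 21541652)) p15_23_0 (nat_lit 4) (nat_lit 56) (nat_lit 57) = true := by decide +kernel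
def p15_23_0_57 : pfC (piC [(nat_lit 38167130), (nat_lit 25010362), (nat_lit 18643303), (nat_lit 12552662)] (nat_lit 21541652)) p15_23_0 (nat_lit 4) (nat_lit 57) (nat_lit 58) = true := by decide +kernel
def p15_23_0_58 : pfC (piC [(nat_lit 38167130), (nat_lit 25010362), (nat_lit 18643303), (nat_lit 12552662)] (nat_lit 21541652)) p15_23_0 (nat_lit 4) (nat_lit 58) (nat_lit 59) = true := by decide +kernel
def p15_23_0_59 : pfC (piC [(nat_lit 38167130), (nat_lit 25010362), (nat_lit 18643303), (nat_lit 12552662)] (nat_lit 21541652)) p15_23_0 (nat_lit 4) (nat_lit 59) (nat_lit 60) = true := by decide +kernel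
def p15_23_0_60 : pfC (piC [(nat_lit 38167130), (nat_lit 25010362), (nat_lit 18643303), (nat_lit 12552662)] (nat_lit 21541652)) p15_23_0 (nat_lit 4) (nat_lit 60) (nat_lit 61) = true := by decide +kernel
def p15_23_0_61 : pfC (piC [(nat_lit 38167130), (nat_lit 25010362), (nat_lit 18643303), (nat_lit 12552662)] (nat_lit 21541652)) p15_23_0 (nat_lit 4) (nat_lit 61) (nat_lit 62) = true := by decide +kernel
def p15_23_0_62 : pfC (piC [(nat_lit 38167130), (nat_lit 25010362), (nat_lit 18643303), (nat_lit 12552662)] (nat_lit 21541652)) p15_23_0 (nat_lit 4) (nat_lit 62) (nat_lit 63) = true := by decide +kernel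
def p15_23_0_63 : pfC (piC [(nat_lit 38167130), (nat_lit 25010362), (nat_lit 18643303), (nat_lit 12552662)] (nat_lit 21541652)) p15_23_0 (nat_lit 4) (nat_lit 63) (nat_lit 64) = true := by decide +kernel
def p15_23_0_64 : pfC (piC [(nat_lit 38167130), (nat_lit 25010362), (nat_lit 18643303), (nat_lit 12552662)] (nat_lit 21541652)) p15_23_0 (nat_lit 4) (nat_lit 64) (nat_lit 65) = true := by decide +kernel
def p15_23_0_65 : pfC (piC [(nat_lit 38167130), (nat_lit 25010362), (nat_lit 18643303), (nat_lit 12552662)] (nat_lit 21541652)) p15_23_0 (nat_lit 4) (nat_lit 65) (nat_lit 66) = true := by decide +kernel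
def p15_23_0_66 : pfC (piC [(nat_lit 38167130), (nat_lit 25010362), (nat_lit 18643303), (nat_lit 12552662)] (nat_lit 21541652)) p15_23_0 (nat_lit 4) (nat_lit 66) (nat_lit 67) = true := by decide +kernel
def p15_23_0_67 : pfC (piC [(nat_lit 38167130), (nat_lit 25010362), (nat_lit 18643303), (nat_lit 12552662)] (nat_lit 21541652)) p15_23_0 (nat_lit 4) (nat_lit 67) (nat_lit 68) = true := by decide +kernel
def p15_23_0_68 : pfC (piC [(nat_lit 38167130), (nat_lit 25010362), (nat_lit 18643303), (nat_lit 12552662)] (nat_lit 21541652)) p15_23_0 (nat_lit 4) (nat_lit 68) (nat_lit 69) = true := by decide +kernel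
def p15_23_0_69 : pfC (piC [(nat_lit 38167130), (nat_lit 25010362), (nat_lit 18643303), (nat_lit 12552662)] (nat_lit 21541652)) p15_23_0 (nat_lit 4) (nat_lit 69) (nat_lit 70) = true := by decide +kernel
def p15_23_0_70 : pfC (piC [(nat_lit 38167130), (nat_lit 25010362), (nat_lit 18643303), (nat_lit 12552662)] (nat_lit 21541652)) p15_23_0 (nat_lit 4) (nat_lit 70) (nat_lit 71) = true := by decide +kernel
def p15_23_0_71 : pfC (piC [(nat_lit 38167130), (nat_lit 25010362), (nat_lit 18643303), (nat_lit 12552662)] (nat_lit 21541652)) p15_23_0 (nat_lit 4) (nat_lit 71) (nat_lit 72) = true := by decide +kernel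
def p15_23_0_72 : pfC (piC [(nat_lit 38167130), (nat_lit 25010362), (nat_lit 18643303), (nat_lit 12552662)] (nat_lit 21541652)) p15_23_0 (nat_lit 4) (nat_lit 72) (nat_lit 73) = true := by decide +kernel
def p15_23_0_73 : pfC (piC [(nat_lit 38167130), (nat_lit 25010362), (nat_lit 18643303), (nat_lit 12552662)] (nat_lit 21541652)) p15_23_0 (nat_lit 4) (nat_lit 73) (nat_lit 74) = true := by decide +kernel
def p15_23_0_74 : pfC (piC [(nat_lit 38167130), (nat_lit 25010362), (nat_lit 18643303), (nat_lit 12552662)] (nat_lit 21541652)) p15_23_0 (nat_lit 4) (nat_lit 74) (nat_lit 75) = true := by decide +kernel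
def p15_23_0_75 : pfC (piC [(nat_lit 38167130), (nat_lit 25010362), (nat_lit 18643303), (nat_lit 12552662)] (nat_lit 21541652)) p15_23_0 (nat_lit 4) (nat_lit 75) (nat_lit 76) = true := by decide +kernel
def p15_23_0_76 : pfC (piC [(nat_lit 38167130), (nat_lit 25010362), (nat_lit 18643303), (nat_lit 12552662)] (nat_lit 21541652)) p15_23_0 (nat_lit 4) (nat_lit 76) (nat_lit 77) = true := by decide +kernel
def p15_23_0_77 : pfC (piC [(nat_lit 38167130), (nat_lit 25010362), (nat_lit 18643303), (nat_lit 12552662)] (nat_lit 21541652)) p15_23_0 (nat_lit 4) (nat_lit 77) (nat_lit 78) = true := by decide +kernel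
def p15_23_0_78 : pfC (piC [(nat_lit 38167130), (nat_lit 25010362), (nat_lit 18643303), (nat_lit 12552662)] (nat_lit 21541652)) p15_23_0 (nat_lit 4) (nat_lit 78) (nat_lit 79) = true := by decide +kernel
def p15_23_0_79 : pfC (piC [(nat_lit 38167130), (nat_lit 25010362), (nat_lit 18643303), (nat_lit 12552662)] (nat_lit 21541652)) p15_23_0 (nat_lit 4) (nat_lit 79) (nat_lit 80) = true := by decide +kernel
def p15_23_0_80 : pfC (piC [(nat_lit 38167130), (nat_lit 25010362), (nat_lit 18643303), (nat_lit 12552662)] (nat_lit 21541652)) p15_23_0 (nat_lit 4) (nat_lit 80) (nat_lit 81) = true := by decide +kernel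
def p15_23_0_81 : pfC (piC [(nat_lit 38167130), (nat_lit 25010362), (nat_lit 18643303), (nat_lit 12552662)] (nat_lit 21541652)) p15_23_0 (nat_lit 4) (nat_lit 81) (nat_lit 82) = true := by decide +kernel
def p15_23_0_82 : pfC (piC [(nat_lit 38167130), (nat_lit 25010362), (nat_lit 18643303), (nat_lit 12552662)] (nat_lit 21541652)) p15_23_0 (nat_lit 4) (nat_lit 82) (nat_lit 83) = true := by decide +kernel
def p15_23_0_83 : pfC (piC [(nat_lit 38167130), (nat_lit 25010362), (nat_lit 18643303), (nat_lit 12552662)] (nat_lit 21541652)) p15_23_0 (nat_lit 4) (nat_lit 83) (nat_lit 84) = true := by decide +kernel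
def p15_23_0_84 : pfC (piC [(nat_lit 38167130), (nat_lit 25010362), (nat_lit 18643303), (nat_lit 12552662)] (nat_lit 21541652)) p15_23_0 (nat_lit 4) (nat_lit 84) (nat_lit 85) = true := by decide +kernel
def p15_23_0_85 : pfC (piC [(nat_lit 38167130), (nat_lit 25010362), (nat_lit 18643303), (nat_lit 12552662)] (nat_lit 21541652)) p15_23_0 (nat_lit 4) (nat_lit 85) (nat_lit 86) = true := by decide +kernel
def p15_23_0_86 : pfC (piC [(nat_lit 38167130), (nat_lit 25010362), (nat_lit 18643303), (nat_lit 12552662)] (nat_lit 21541652)) p15_23_0 (nat_lit 4) (nat_lit 86) (nat_lit 87) = true := by decide +kernel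
def p15_23_0_87 : pfC (piC [(nat_lit 38167130), (nat_lit 25010362), (nat_lit 18643303), (nat_lit 12552662)] (nat_lit 21541652)) p15_23_0 (nat_lit 4) (nat_lit 87) (nat_lit 88) = true := by decide +kernel
def p15_23_0_88 : pfC (piC [(nat_lit 38167130), (nat_lit 25010362), (nat_lit 18643303), (nat_lit 12552662)] (nat_lit 21541652)) p15_23_0 (nat_lit 4) (nat_lit 88) (nat_lit 89) = true := by decide +kernel
def p15_23_0_89 : pfC (piC [(nat_lit 38167130), (nat_lit 25010362), (nat_lit 18643303), (nat_lit 12552662)] (nat_lit 21541652)) p15_23_0 (nat_lit 4) (nat_lit 89) (nat_lit 90) = true := by decide +kernel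
def p15_23_0_90 : pfC (piC [(nat_lit 38167130), (nat_lit 25010362), (nat_lit 18643303), (nat_lit 12552662)] (nat_lit 21541652)) p15_23_0 (nat_lit 4) (nat_lit 90) (nat_lit 91) = true := by decide +kernel
def p15_23_0_91 : pfC (piC [(nat_lit 38167130), (nat_lit 25010362), (nat_lit 18643303), (nat_lit 12552662)] (nat_lit 21541652)) p15_23_0 (nat_lit 4) (nat_lit 91) (nat_lit 92) = true := by decide +kernel
def p15_23_0_92 : pfC (piC [(nat_lit 38167130), (nat_lit 25010362), (nat_lit 18643303), (nat_lit 12552662)] (nat_lit 21541652)) p15_23_0 (nat_lit 4) (nat_lit 92) (nat_lit 93) = true := by decide +kernel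
def p15_23_0_93 : pfC (piC [(nat_lit 38167130), (nat_lit 25010362), (nat_lit 18643303), (nat_lit 12552662)] (nat_lit 21541652)) p15_23_0 (nat_lit 4) (nat_lit 93) (nat_lit 94) = true := by decide +kernel
def p15_23_0_94 : pfC (piC [(nat_lit 38167130), (nat_lit 25010362), (nat_lit 18643303), (nat_lit 12552662)] (nat_lit 21541652)) p15_23_0 (nat_lit 4) (nat_lit 94) (nat_lit 95) = true := by decide +kernel
def p15_23_0_95 : pfC (piC [(nat_lit 38167130), (nat_lit 25010362), (nat_lit 18643303), (nat_lit 12552662)] (nat_lit 21541652)) p15_23_0 (nat_lit 4) (nat_lit 95) (nat_lit 96) = true := by decide +kernel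
def p15_23_0_96 : pfC (piC [(nat_lit 38167130), (nat_lit 25010362), (nat_lit 18643303), (nat_lit 12552662)] (nat_lit 21541652)) p15_23_0 (nat_lit 4) (nat_lit 96) (nat_lit 97) = true := by decide +kernel
def p15_23_0_97 : pfC (piC [(nat_lit 38167130), (nat_lit 25010362), (nat_lit 18643303), (nat_lit 12552662)] (nat_lit 21541652)) p15_23_0 (nat_lit 4) (nat_lit 97) (nat_lit 98) = true := by decide +kernel
def p15_23_0_98 : pfC (piC [(nat_lit 38167130), (nat_lit 25010362), (nat_lit 18643303), (nat_lit 12552662)] (nat_lit 21541652)) p15_23_0 (nat_lit 4) (nat_lit 98) (nat_lit 99) = true := by decide +kernel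
def p15_23_0_99 : pfC (piC [(nat_lit 38167130), (nat_lit 25010362), (nat_lit 18643303), (nat_lit 12552662)] (nat_lit 21541652)) p15_23_0 (nat_lit 4) (nat_lit 99) (nat_lit 100) = true := by decide +kernel
def p15_23_0_100 : pfC (piC [(nat_lit 38167130), (nat_lit 25010362), (nat_lit 18643303), (nat_lit 12552662)] (nat_lit 21541652)) p15_23_0 (nat_lit 4) (nat_lit 100) (nat_lit 101) = true := by decide +kernel
def p15_23_0_101 : pfC (piC [(nat_lit 38167130), (nat_lit 25010362), (nat_lit 18643303), (nat_lit 12552662)] (nat_lit 21541652)) p15_23_0 (nat_lit 4) (nat_lit 101) (nat_lit 102) = true := by decide +kernel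
def p15_23_0_102 : pfC (piC [(nat_lit 38167130), (nat_lit 25010362), (nat_lit 18643303), (nat_lit 12552662)] (nat_lit 21541652)) p15_23_0 (nat_lit 4) (nat_lit 102) (nat_lit 103) = true := by decide +kernel
def p15_23_0_103 : pfC (piC [(nat_lit 38167130), (nat_lit 25010362), (nat_lit 18643303), (nat_lit 12552662)] (nat_lit 21541652)) p15_23_0 (nat_lit 4) (nat_lit 103) (nat_lit 104) = true := by decide +kernel
def p15_23_0_104 : pfC (piC [(nat_lit 38167130), (nat_lit 25010362), (nat_lit 18643303), (nat_lit 12552662)] (nat_lit 21541652)) p15_23_0 (nat_lit 4) (nat_lit 104) (nat_lit 105) = true := by decide +kernel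
def p15_23_0_105 : pfC (piC [(nat_lit 38167130), (nat_lit 25010362), (nat_lit 18643303), (nat_lit 12552662)] (nat_lit 21541652)) p15_23_0 (nat_lit 4) (nat_lit 105) (nat_lit 106) = true := by decide +kernel
def p15_23_0_106 : pfC (piC [(nat_lit 38167130), (nat_lit 25010362), (nat_lit 18643303), (nat_lit 12552662)] (nat_lit 21541652)) p15_23_0 (nat_lit 4) (nat_lit 106) (nat_lit 107) = true := by decide +kernel
def p15_23_0_107 : pfC (piC [(nat_lit 38167130), (nat_lit 25010362), (nat_lit 18643303), (nat_lit 12552662)] (nat_lit 21541652)) p15_23_0 (nat_lit 4) (nat_lit 107) (nat_lit 108) = true := by decide +kernel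
def p15_23_0_108 : pfC (piC [(nat_lit 38167130), (nat_lit 25010362), (nat_lit 18643303), (nat_lit 12552662)] (nat_lit 21541652)) p15_23_0 (nat_lit 4) (nat_lit 108) (nat_lit 109) = true := by decide +kernel
def p15_23_0_109 : pfC (piC [(nat_lit 38167130), (nat_lit 25010362), (nat_lit 18643303), (nat_lit 12552662)] (nat_lit 21541652)) p15_23_0 (nat_lit 4) (nat_lit 109) (nat_lit 110) = true := by decide +kernel
def p15_23_0_110 : pfC (piC [(nat_lit 38167130), (nat_lit 25010362), (nat_lit 18643303), (nat_lit 12552662)] (nat_lit 21541652)) p15_23_0 (nat_lit 4) (nat_lit 110) (nat_lit 111) = true := by decide +kernel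
def p15_23_0_111 : pfC (piC [(nat_lit 38167130), (nat_lit 25010362), (nat_lit 18643303), (nat_lit 12552662)] (nat_lit 21541652)) p15_23_0 (nat_lit 4) (nat_lit 111) (nat_lit 112) = true := by decide +kernel
def p15_23_0_112 : pfC (piC [(nat_lit 38167130), (nat_lit 25010362), (nat_lit 18643303), (nat_lit 12552662)] (nat_lit 21541652)) p15_23_0 (nat_lit 4) (nat_lit 112) (nat_lit 113) = true := by decide +kernel
def p15_23_0_113 : pfC (piC [(nat_lit 38167130), (nat_lit 25010362), (nat_lit 18643303), (nat_lit 12552662)] (nat_lit 21541652)) p15_23_0 (nat_lit 4) (nat_lit 113) (nat_lit 114) = true := by decide +kernel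
def p15_23_0_114 : pfC (piC [(nat_lit 38167130), (nat_lit 25010362), (nat_lit 18643303), (nat_lit 12552662)] (nat_lit 21541652)) p15_23_0 (nat_lit 4) (nat_lit 114) (nat_lit 115) = true := by decide +kernel
def p15_23_0_115 : pfC (piC [(nat_lit 38167130), (nat_lit 25010362), (nat_lit 18643303), (nat_lit 12552662)] (nat_lit 21541652)) p15_23_0 (nat_lit 4) (nat_lit 115) (nat_lit 116) = true := by decide +kernel
def p15_23_0_116 : pfC (piC [(nat_lit 38167130), (nat_lit 25010362), (nat_lit 18643303), (nat_lit 12552662)] (nat_lit 21541652)) p15_23_0 (nat_lit 4) (nat_lit 116) (nat_lit 117) = true := by decide +kernel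
def p15_23_0_117 : pfC (piC [(nat_lit 38167130), (nat_lit 25010362), (nat_lit 18643303), (nat_lit 12552662)] (nat_lit 21541652)) p15_23_0 (nat_lit 4) (nat_lit 117) (nat_lit 118) = true := by decide +kernel
def p15_23_0_118 : pfC (piC [(nat_lit 38167130), (nat_lit 25010362), (nat_lit 18643303), (nat_lit 12552662)] (nat_lit 21541652)) p15_23_0 (nat_lit 4) (nat_lit 118) (nat_lit 119) = true := by decide +kernel
def p15_23_0_119 : pfC (piC [(nat_lit 38167130), (nat_lit 25010362), (nat_lit 18643303), (nat_lit 12552662)] (nat_lit 21541652)) p15_23_0 (nat_lit 4) (nat_lit 119) (nat_lit 120) = true := by decide +kernel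
def p15_23_0_120 : pfC (piC [(nat_lit 38167130), (nat_lit 25010362), (nat_lit 18643303), (nat_lit 12552662)] (nat_lit 21541652)) p15_23_0 (nat_lit 4) (nat_lit 120) (nat_lit 121) = true := by decide +kernel
def p15_23_0_121 : pfC (piC [(nat_lit 38167130), (nat_lit 25010362), (nat_lit 18643303), (nat_lit 12552662)] (nat_lit 21541652)) p15_23_0 (nat_lit 4) (nat_lit 121) (nat_lit 122) = true := by decide +kernel
def p15_23_0_122 : pfC (piC [(nat_lit 38167130), (nat_lit 25010362), (nat_lit 18643303), (nat_lit 12552662)] (nat_lit 21541652)) p15_23_0 (nat_lit 4) (nat_lit 122) (nat_lit 123) = true := by decide +kernel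
def p15_23_0_123 : pfC (piC [(nat_lit 38167130), (nat_lit 25010362), (nat_lit 18643303), (nat_lit 12552662)] (nat_lit 21541652)) p15_23_0 (nat_lit 4) (nat_lit 123) (nat_lit 124) = true := by decide +kernel
def p15_23_0_124 : pfC (piC [(nat_lit 38167130), (nat_lit 25010362), (nat_lit 18643303), (nat_lit 12552662)] (nat_lit 21541652)) p15_23_0 (nat_lit 4) (nat_lit 124) (nat_lit 125) = true := by decide +kernel
def p15_23_0_125 : pfC (piC [(nat_lit 38167130), (nat_lit 25010362), (nat_lit 18643303), (nat_lit 12552662)] (nat_lit 21541652)) p15_23_0 (nat_lit 4) (nat_lit 125) (nat_lit 126) = true := by decide +kernel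
def p15_23_0_126 : pfC (piC [(nat_lit 38167130), (nat_lit 25010362), (nat_lit 18643303), (nat_lit 12552662)] (nat_lit 21541652)) p15_23_0 (nat_lit 4) (nat_lit 126) (nat_lit 127) = true := by decide +kernel
def p15_23_0_127 : pfC (piC [(nat_lit 38167130), (nat_lit 25010362), (nat_lit 18643303), (nat_lit 12552662)] (nat_lit 21541652)) p15_23_0 (nat_lit 4) (nat_lit 127) (nat_lit 128) = true := by decide +kernel
def p15_23_0_128 : pfC (piC [(nat_lit 38167130), (nat_lit 25010362), (nat_lit 18643303), (nat_lit 12552662)] (nat_lit 21541652)) p15_23_0 (nat_lit 4) (nat_lit 128) (nat_lit 129) = true := by decide +kernel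
def p15_23_0_129 : pfC (piC [(nat_lit 38167130), (nat_lit 25010362), (nat_lit 18643303), (nat_lit 12552662)] (nat_lit 21541652)) p15_23_0 (nat_lit 4) (nat_lit 129) (nat_lit 130) = true := by decide +kernel
def p15_23_0_130 : pfC (piC [(nat_lit 38167130), (nat_lit 25010362), (nat_lit 18643303), (nat_lit 12552662)] (nat_lit 21541652)) p15_23_0 (nat_lit 4) (nat_lit 130) (nat_lit 131) = true := by decide +kernel
def p15_23_0_131 : pfC (piC [(nat_lit 38167130), (nat_lit 25010362), (nat_lit 18643303), (nat_lit 12552662)] (nat_lit 21541652)) p15_23_0 (nat_lit 4) (nat_lit 131) (nat_lit 132) = true := by decide +kernel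
def p15_23_0_132 : pfC (piC [(nat_lit 38167130), (nat_lit 25010362), (nat_lit 18643303), (nat_lit 12552662)] (nat_lit 21541652)) p15_23_0 (nat_lit 4) (nat_lit 132) (nat_lit 133) = true := by decide +kernel
def p15_23_0_133 : pfC (piC [(nat_lit 38167130), (nat_lit 25010362), (nat_lit 18643303), (nat_lit 12552662)] (nat_lit 21541652)) p15_23_0 (nat_lit 4) (nat_lit 133) (nat_lit 134) = true := by decide +kernel
def p15_23_0_134 : pfC (piC [(nat_lit 38167130), (nat_lit 25010362), (nat_lit 18643303), (nat_lit 12552662)] (nat_lit 21541652)) p15_23_0 (nat_lit 4) (nat_lit 134) (nat_lit 135) = true := by decide +kernel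
def p15_23_0_135 : pfC (piC [(nat_lit 38167130), (nat_lit 25010362), (nat_lit 18643303), (nat_lit 12552662)] (nat_lit 21541652)) p15_23_0 (nat_lit 4) (nat_lit 135) (nat_lit 136) = true := by decide +kernel
def p15_23_0_136 : pfC (piC [(nat_lit 38167130), (nat_lit 25010362), (nat_lit 18643303), (nat_lit 12552662)] (nat_lit 21541652)) p15_23_0 (nat_lit 4) (nat_lit 136) (nat_lit 137) = true := by decide +kernel
def p15_23_0_137 : pfC (piC [(nat_lit 38167130), (nat_lit 25010362), (nat_lit 18643303), (nat_lit 12552662)] (nat_lit 21541652)) p15_23_0 (nat_lit 4) (nat_lit 137) (nat_lit 138) = true := by decide +kernel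
def p15_23_0_138 : pfC (piC [(nat_lit 38167130), (nat_lit 25010362), (nat_lit 18643303), (nat_lit 12552662)] (nat_lit 21541652)) p15_23_0 (nat_lit 4) (nat_lit 138) (nat_lit 139) = true := by decide +kernel
def p15_23_0_139 : pfC (piC [(nat_lit 38167130), (nat_lit 25010362), (nat_lit 18643303), (nat_lit 12552662)] (nat_lit 21541652)) p15_23_0 (nat_lit 4) (nat_lit 139) (nat_lit 140) = true := by decide +kernel
def p15_23_0_140 : pfC (piC [(nat_lit 38167130), (nat_lit 25010362), (nat_lit 18643303), (nat_lit 12552662)] (nat_lit 21541652)) p15_23_0 (nat_lit 4) (nat_lit 140) (nat_lit 141) = true := by decide +kernel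
def p15_23_0_141 : pfC (piC [(nat_lit 38167130), (nat_lit 25010362), (nat_lit 18643303), (nat_lit 12552662)] (nat_lit 21541652)) p15_23_0 (nat_lit 4) (nat_lit 141) (nat_lit 142) = true := by decide +kernel
def p15_23_0_142 : pfC (piC [(nat_lit 38167130), (nat_lit 25010362), (nat_lit 18643303), (nat_lit 12552662)] (nat_lit 21541652)) p15_23_0 (nat_lit 4) (nat_lit 142) (nat_lit 143) = true := by decide +kernel
def p15_23_0_143 : pfC (piC [(nat_lit 38167130), (nat_lit 25010362), (nat_lit 18643303), (nat_lit 12552662)] (nat_lit 21541652)) p15_23_0 (nat_lit 4) (nat_lit 143) (nat_lit 144) = true := by decide +kernel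
def p15_23_0_144 : pfC (piC [(nat_lit 38167130), (nat_lit 25010362), (nat_lit 18643303), (nat_lit 12552662)] (nat_lit 21541652)) p15_23_0 (nat_lit 4) (nat_lit 144) (nat_lit 145) = true := by decide +kernel
def p15_23_0_145 : pfC (piC [(nat_lit 38167130), (nat_lit 25010362), (nat_lit 18643303), (nat_lit 12552662)] (nat_lit 21541652)) p15_23_0 (nat_lit 4) (nat_lit 145) (nat_lit 146) = true := by decide +kernel
def p15_23_0_146 : pfC (piC [(nat_lit 38167130), (nat_lit 25010362), (nat_lit 18643303), (nat_lit 12552662)] (nat_lit 21541652)) p15_23_0 (nat_lit 4) (nat_lit 146) (nat_lit 147) = true := by decide +kernel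
def p15_23_0_147 : pfC (piC [(nat_lit 38167130), (nat_lit 25010362), (nat_lit 18643303), (nat_lit 12552662)] (nat_lit 21541652)) p15_23_0 (nat_lit 4) (nat_lit 147) (nat_lit 148) = true := by decide +kernel
def p15_23_0_148 : pfC (piC [(nat_lit 38167130), (nat_lit 25010362), (nat_lit 18643303), (nat_lit 12552662)] (nat_lit 21541652)) p15_23_0 (nat_lit 4) (nat_lit 148) (nat_lit 149) = true := by decide +kernel
def p15_23_0_149 : pfC (piC [(nat_lit 38167130), (nat_lit 25010362), (nat_lit 18643303), (nat_lit 12552662)] (nat_lit 21541652)) p15_23_0 (nat_lit 4) (nat_lit 149) (nat_lit 150) = true := by decide +kernel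
def p15_23_0_150 : pfC (piC [(nat_lit 38167130), (nat_lit 25010362), (nat_lit 18643303), (nat_lit 12552662)] (nat_lit 21541652)) p15_23_0 (nat_lit 4) (nat_lit 150) (nat_lit 151) = true := by decide +kernel
def p15_23_0_151 : pfC (piC [(nat_lit 38167130), (nat_lit 25010362), (nat_lit 18643303), (nat_lit 12552662)] (nat_lit 21541652)) p15_23_0 (nat_lit 4) (nat_lit 151) (nat_lit 152) = true := by decide +kernel
def p15_23_0_152 : pfC (piC [(nat_lit 38167130), (nat_lit 25010362), (nat_lit 18643303), (nat_lit 12552662)] (nat_lit 21541652)) p15_23_0 (nat_lit 4) (nat_lit 152) (nat_lit 153) = true := by decide +kernel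
def p15_23_0_153 : pfC (piC [(nat_lit 38167130), (nat_lit 25010362), (nat_lit 18643303), (nat_lit 12552662)] (nat_lit 21541652)) p15_23_0 (nat_lit 4) (nat_lit 153) (nat_lit 154) = true := by decide +kernel
def p15_23_0_154 : pfC (piC [(nat_lit 38167130), (nat_lit 25010362), (nat_lit 18643303), (nat_lit 12552662)] (nat_lit 21541652)) p15_23_0 (nat_lit 4) (nat_lit 154) (nat_lit 155) = true := by decide +kernel
def p15_23_0_155 : pfC (piC [(nat_lit 38167130), (nat_lit 25010362), (nat_lit 18643303), (nat_lit 12552662)] (nat_lit 21541652)) p15_23_0 (nat_lit 4) (nat_lit 155) (nat_lit 156) = true := by decide +kernel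
def p15_23_0_156 : pfC (piC [(nat_lit 38167130), (nat_lit 25010362), (nat_lit 18643303), (nat_lit 12552662)] (nat_lit 21541652)) p15_23_0 (nat_lit 4) (nat_lit 156) (nat_lit 157) = true := by decide +kernel
def p15_23_0_157 : pfC (piC [(nat_lit 38167130), (nat_lit 25010362), (nat_lit 18643303), (nat_lit 12552662)] (nat_lit 21541652)) p15_23_0 (nat_lit 4) (nat_lit 157) (nat_lit 158) = true := by decide +kernel
def p15_23_0_158 : pfC (piC [(nat_lit 38167130), (nat_lit 25010362), (nat_lit 18643303), (nat_lit 12552662)] (nat_lit 21541652)) p15_23_0 (nat_lit 4) (nat_lit 158) (nat_lit 159) = true := by decide +kernel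
def p15_23_0_159 : pfC (piC [(nat_lit 38167130), (nat_lit 25010362), (nat_lit 18643303), (nat_lit 12552662)] (nat_lit 21541652)) p15_23_0 (nat_lit 4) (nat_lit 159) (nat_lit 160) = true := by decide +kernel
def p15_23_0_160 : pfC (piC [(nat_lit 38167130), (nat_lit 25010362), (nat_lit 18643303), (nat_lit 12552662)] (nat_lit 21541652)) p15_23_0 (nat_lit 4) (nat_lit 160) (nat_lit 161) = true := by decide +kernel
def p15_23_0_161 : pfC (piC [(nat_lit 38167130), (nat_lit 25010362), (nat_lit 18643303), (nat_lit 12552662)] (nat_lit 21541652)) p15_23_0 (nat_lit 4) (nat_lit 161) (nat_lit 162) = true := by decide +kernel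
def p15_23_0_162 : pfC (piC [(nat_lit 38167130), (nat_lit 25010362), (nat_lit 18643303), (nat_lit 12552662)] (nat_lit 21541652)) p15_23_0 (nat_lit 4) (nat_lit 162) (nat_lit 163) = true := by decide +kernel
def p15_23_0_163 : pfC (piC [(nat_lit 38167130), (nat_lit 25010362), (nat_lit 18643303), (nat_lit 12552662)] (nat_lit 21541652)) p15_23_0 (nat_lit 4) (nat_lit 163) (nat_lit 164) = true := by decide +kernel
def p15_23_0_164 : pfC (piC [(nat_lit 38167130), (nat_lit 25010362), (nat_lit 18643303), (nat_lit 12552662)] (nat_lit 21541652)) p15_23_0 (nat_lit 4) (nat_lit 164) (nat_lit 165) = true := by decide +kernel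
def p15_23_0_165 : pfC (piC [(nat_lit 38167130), (nat_lit 25010362), (nat_lit 18643303), (nat_lit 12552662)] (nat_lit 21541652)) p15_23_0 (nat_lit 4) (nat_lit 165) (nat_lit 166) = true := by decide +kernel
def p15_23_0_166 : pfC (piC [(nat_lit 38167130), (nat_lit 25010362), (nat_lit 18643303), (nat_lit 12552662)] (nat_lit 21541652)) p15_23_0 (nat_lit 4) (nat_lit 166) (nat_lit 167) = true := by decide +kernel
def p15_23_0_167 : pfC (piC [(nat_lit 38167130), (nat_lit 25010362), (nat_lit 18643303), (nat_lit 12552662)] (nat_lit 21541652)) p15_23_0 (nat_lit 4) (nat_lit 167) (nat_lit 168) = true := by decide +kernel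
def p15_23_0_168 : pfC (piC [(nat_lit 38167130), (nat_lit 25010362), (nat_lit 18643303), (nat_lit 12552662)] (nat_lit 21541652)) p15_23_0 (nat_lit 4) (nat_lit 168) (nat_lit 169) = true := by decide +kernel
def p15_23_0_169 : pfC (piC [(nat_lit 38167130), (nat_lit 25010362), (nat_lit 18643303), (nat_lit 12552662)] (nat_lit 21541652)) p15_23_0 (nat_lit 4) (nat_lit 169) (nat_lit 170) = true := by decide +kernel
def p15_23_0_170 : pfC (piC [(nat_lit 38167130), (nat_lit 25010362), (nat_lit 18643303), (nat_lit 12552662)] (nat_lit 21541652)) p15_23_0 (nat_lit 4) (nat_lit 170) (nat_lit 171) = true := by decide +kernel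
def p15_23_0_171 : pfC (piC [(nat_lit 38167130), (nat_lit 25010362), (nat_lit 18643303), (nat_lit 12552662)] (nat_lit 21541652)) p15_23_0 (nat_lit 4) (nat_lit 171) (nat_lit 172) = true := by decide +kernel
def p15_23_0_172 : pfC (piC [(nat_lit 38167130), (nat_lit 25010362), (nat_lit 18643303), (nat_lit 12552662)] (nat_lit 21541652)) p15_23_0 (nat_lit 4) (nat_lit 172) (nat_lit 173) = true := by decide +kernel
def p15_23_0_173 : pfC (piC [(nat_lit 38167130), (nat_lit 25010362), (nat_lit 18643303), (nat_lit 12552662)] (nat_lit 21541652)) p15_23_0 (nat_lit 4) (nat_lit 173) (nat_lit 174) = true := by decide +kernel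
def p15_23_0_174 : pfC (piC [(nat_lit 38167130), (nat_lit 25010362), (nat_lit 18643303), (nat_lit 12552662)] (nat_lit 21541652)) p15_23_0 (nat_lit 4) (nat_lit 174) (nat_lit 175) = true := by decide +kernel
def p15_23_0_175 : pfC (piC [(nat_lit 38167130), (nat_lit 25010362), (nat_lit 18643303), (nat_lit 12552662)] (nat_lit 21541652)) p15_23_0 (nat_lit 4) (nat_lit 175) (nat_lit 176) = true := by decide +kernel
def p15_23_0_176 : pfC (piC [(nat_lit 38167130), (nat_lit 25010362), (nat_lit 18643303), (nat_lit 12552662)] (nat_lit 21541652)) p15_23_0 (nat_lit 4) (nat_lit 176) (nat_lit 177) = true := by decide +kernel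
def p15_23_0_177 : pfC (piC [(nat_lit 38167130), (nat_lit 25010362), (nat_lit 18643303), (nat_lit 12552662)] (nat_lit 21541652)) p15_23_0 (nat_lit 4) (nat_lit 177) (nat_lit 178) = true := by decide +kernel
def p15_23_0_178 : pfC (piC [(nat_lit 38167130), (nat_lit 25010362), (nat_lit 18643303), (nat_lit 12552662)] (nat_lit 21541652)) p15_23_0 (nat_lit 4) (nat_lit 178) (nat_lit 179) = true := by decide +kernel
def p15_23_0_179 : pfC (piC [(nat_lit 38167130), (nat_lit 25010362), (nat_lit 18643303), (nat_lit 12552662)] (nat_lit 21541652)) p15_23_0 (nat_lit 4) (nat_lit 179) (nat_lit 180) = true := by decide +kernel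
def p15_23_0_180 : pfC (piC [(nat_lit 38167130), (nat_lit 25010362), (nat_lit 18643303), (nat_lit 12552662)] (nat_lit 21541652)) p15_23_0 (nat_lit 4) (nat_lit 180) (nat_lit 181) = true := by decide +kernel
def p15_23_0_181 : pfC (piC [(nat_lit 38167130), (nat_lit 25010362), (nat_lit 18643303), (nat_lit 12552662)] (nat_lit 21541652)) p15_23_0 (nat_lit 4) (nat_lit 181) (nat_lit 182) = true := by decide +kernel
def p15_23_0_182 : pfC (piC [(nat_lit 38167130), (nat_lit 25010362), (nat_lit 18643303), (nat_lit 12552662)] (nat_lit 21541652)) p15_23_0 (nat_lit 4) (nat_lit 182) (nat_lit 183) = true := by decide +kernel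
def p15_23_0_183 : pfC (piC [(nat_lit 38167130), (nat_lit 25010362), (nat_lit 18643303), (nat_lit 12552662)] (nat_lit 21541652)) p15_23_0 (nat_lit 4) (nat_lit 183) (nat_lit 184) = true := by decide +kernel
def p15_23_0_184 : pfC (piC [(nat_lit 38167130), (nat_lit 25010362), (nat_lit 18643303), (nat_lit 12552662)] (nat_lit 21541652)) p15_23_0 (nat_lit 4) (nat_lit 184) (nat_lit 185) = true := by decide +kernel
def p15_23_0_185 : pfC (piC [(nat_lit 38167130), (nat_lit 25010362), (nat_lit 18643303), (nat_lit 12552662)] (nat_lit 21541652)) p15_23_0 (nat_lit 4) (nat_lit 185) (nat_lit 186) = true := by decide +kernel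
def p15_23_0_186 : pfC (piC [(nat_lit 38167130), (nat_lit 25010362), (nat_lit 18643303), (nat_lit 12552662)] (nat_lit 21541652)) p15_23_0 (nat_lit 4) (nat_lit 186) (nat_lit 187) = true := by decide +kernel
def p15_23_0_187 : pfC (piC [(nat_lit 38167130), (nat_lit 25010362), (nat_lit 18643303), (nat_lit 12552662)] (nat_lit 21541652)) p15_23_0 (nat_lit 4) (nat_lit 187) (nat_lit 188) = true := by decide +kernel
def p15_23_0_188 : pfC (piC [(nat_lit 38167130), (nat_lit 25010362), (nat_lit 18643303), (nat_lit 12552662)] (nat_lit 21541652)) p15_23_0 (nat_lit 4) (nat_lit 188) (nat_lit 189) = true := by decide +kernel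
def p15_23_0_189 : pfC (piC [(nat_lit 38167130), (nat_lit 25010362), (nat_lit 18643303), (nat_lit 12552662)] (nat_lit 21541652)) p15_23_0 (nat_lit 4) (nat_lit 189) (nat_lit 190) = true := by decide +kernel
def p15_23_0_190 : pfC (piC [(nat_lit 38167130), (nat_lit 25010362), (nat_lit 18643303), (nat_lit 12552662)] (nat_lit 21541652)) p15_23_0 (nat_lit 4) (nat_lit 190) (nat_lit 191) = true := by decide +kernel
def p15_23_0_191 : pfC (piC [(nat_lit 38167130), (nat_lit 25010362), (nat_lit 18643303), (nat_lit 12552662)] (nat_lit 21541652)) p15_23_0 (nat_lit 4) (nat_lit 191) (nat_lit 192) = true := by decide +kernel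
def p15_23_0_192 : pfC (piC [(nat_lit 38167130), (nat_lit 25010362), (nat_lit 18643303), (nat_lit 12552662)] (nat_lit 21541652)) p15_23_0 (nat_lit 4) (nat_lit 192) (nat_lit 193) = true := by decide +kernel
def p15_23_0_193 : pfC (piC [(nat_lit 38167130), (nat_lit 25010362), (nat_lit 18643303), (nat_lit 12552662)] (nat_lit 21541652)) p15_23_0 (nat_lit 4) (nat_lit 193) (nat_lit 194) = true := by decide +kernel
def p15_23_0_194 : pfC (piC [(nat_lit 38167130), (nat_lit 25010362), (nat_lit 18643303), (nat_lit 12552662)] (nat_lit 21541652)) p15_23_0 (nat_lit 4) (nat_lit 194) (nat_lit 195) = true := by decide +kernel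
def p15_23_0_195 : pfC (piC [(nat_lit 38167130), (nat_lit 25010362), (nat_lit 18643303), (nat_lit 12552662)] (nat_lit 21541652)) p15_23_0 (nat_lit 4) (nat_lit 195) (nat_lit 196) = true := by decide +kernel
def p15_23_0_196 : pfC (piC [(nat_lit 38167130), (nat_lit 25010362), (nat_lit 18643303), (nat_lit 12552662)] (nat_lit 21541652)) p15_23_0 (nat_lit 4) (nat_lit 196) (nat_lit 197) = true := by decide +kernel
def p15_23_0_197 : pfC (piC [(nat_lit 38167130), (nat_lit 25010362), (nat_lit 18643303), (nat_lit 12552662)] (nat_lit 21541652)) p15_23_0 (nat_lit 4) (nat_lit 197) (nat_lit 198) = true := by decide +kernel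
def p15_23_0_198 : pfC (piC [(nat_lit 38167130), (nat_lit 25010362), (nat_lit 18643303), (nat_lit 12552662)] (nat_lit 21541652)) p15_23_0 (nat_lit 4) (nat_lit 198) (nat_lit 199) = true := by decide +kernel
def p15_23_0_199 : pfC (piC [(nat_lit 38167130), (nat_lit 25010362), (nat_lit 18643303), (nat_lit 12552662)] (nat_lit 21541652)) p15_23_0 (nat_lit 4) (nat_lit 199) (nat_lit 200) = true := by decide +kernel
def p15_23_0_200 : pfC (piC [(nat_lit 38167130), (nat_lit 25010362), (nat_lit 18643303), (nat_lit 12552662)] (nat_lit 21541652)) p15_23_0 (nat_lit 4) (nat_lit 200) (nat_lit 201) = true := by decide +kernel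
def p15_23_0_201 : pfC (piC [(nat_lit 38167130), (nat_lit 25010362), (nat_lit 18643303), (nat_lit 12552662)] (nat_lit 21541652)) p15_23_0 (nat_lit 4) (nat_lit 201) (nat_lit 202) = true := by decide +kernel
def p15_23_0_202 : pfC (piC [(nat_lit 38167130), (nat_lit 25010362), (nat_lit 18643303), (nat_lit 12552662)] (nat_lit 21541652)) p15_23_0 (nat_lit 4) (nat_lit 202) (nat_lit 203) = true := by decide +kernel
def p15_23_0_203 : pfC (piC [(nat_lit 38167130), (nat_lit 25010362), (nat_lit 18643303), (nat_lit 12552662)] (nat_lit 21541652)) p15_23_0 (nat_lit 4) (nat_lit 203) (nat_lit 204) = true := by decide +kernel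
def p15_23_0_204 : pfC (piC [(nat_lit 38167130), (nat_lit 25010362), (nat_lit 18643303), (nat_lit 12552662)] (nat_lit 21541652)) p15_23_0 (nat_lit 4) (nat_lit 204) (nat_lit 205) = true := by decide +kernel
def p15_23_0_205 : pfC (piC [(nat_lit 38167130), (nat_lit 25010362), (nat_lit 18643303), (nat_lit 12552662)] (nat_lit 21541652)) p15_23_0 (nat_lit 4) (nat_lit 205) (nat_lit 206) = true := by decide +kernel
def p15_23_0_206 : pfC (piC [(nat_lit 38167130), (nat_lit 25010362), (nat_lit 18643303), (nat_lit 12552662)] (nat_lit 21541652)) p15_23_0 (nat_lit 4) (nat_lit 206) (nat_lit 207) = true := by decide +kernel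
def p15_23_0_207 : pfC (piC [(nat_lit 38167130), (nat_lit 25010362), (nat_lit 18643303), (nat_lit 12552662)] (nat_lit 21541652)) p15_23_0 (nat_lit 4) (nat_lit 207) (nat_lit 208) = true := by decide +kernel
def p15_23_0_208 : pfC (piC [(nat_lit 38167130), (nat_lit 25010362), (nat_lit 18643303), (nat_lit 12552662)] (nat_lit 21541652)) p15_23_0 (nat_lit 4) (nat_lit 208) (nat_lit 209) = true := by decide +kernel
def p15_23_0_209 : pfC (piC [(nat_lit 38167130), (nat_lit 25010362), (nat_lit 18643303), (nat_lit 12552662)] (nat_lit 21541652)) p15_23_0 (nat_lit 4) (nat_lit 209) (nat_lit 210) = true := by decide +kernel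
def p15_23_0_210 : pfC (piC [(nat_lit 38167130), (nat_lit 25010362), (nat_lit 18643303), (nat_lit 12552662)] (nat_lit 21541652)) p15_23_0 (nat_lit 4) (nat_lit 210) (nat_lit 211) = true := by decide +kernel
def p15_23_0_211 : pfC (piC [(nat_lit 38167130), (nat_lit 25010362), (nat_lit 18643303), (nat_lit 12552662)] (nat_lit 21541652)) p15_23_0 (nat_lit 4) (nat_lit 211) (nat_lit 212) = true := by decide +kernel
def p15_23_0_212 : pfC (piC [(nat_lit 38167130), (nat_lit 25010362), (nat_lit 18643303), (nat_lit 12552662)] (nat_lit 21541652)) p15_23_0 (nat_lit 4) (nat_lit 212) (nat_lit 213) = true := by decide +kernel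
def p15_23_0_213 : pfC (piC [(nat_lit 38167130), (nat_lit 25010362), (nat_lit 18643303), (nat_lit 12552662)] (nat_lit 21541652)) p15_23_0 (nat_lit 4) (nat_lit 213) (nat_lit 214) = true := by decide +kernel
def p15_23_0_214 : pfC (piC [(nat_lit 38167130), (nat_lit 25010362), (nat_lit 18643303), (nat_lit 12552662)] (nat_lit 21541652)) p15_23_0 (nat_lit 4) (nat_lit 214) (nat_lit 215) = true := by decide +kernel
def p15_23_0_215 : pfC (piC [(nat_lit 38167130), (nat_lit 25010362), (nat_lit 18643303), (nat_lit 12552662)] (nat_lit 21541652)) p15_23_0 (nat_lit 4) (nat_lit 215) (nat_lit 216) = true := by decide +kernel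
def p15_23_0_216 : pfC (piC [(nat_lit 38167130), (nat_lit 25010362), (nat_lit 18643303), (nat_lit 12552662)] (nat_lit 21541652)) p15_23_0 (nat_lit 4) (nat_lit 216) (nat_lit 217) = true := by decide +kernel
def p15_23_0_217 : pfC (piC [(nat_lit 38167130), (nat_lit 25010362), (nat_lit 18643303), (nat_lit 12552662)] (nat_lit 21541652)) p15_23_0 (nat_lit 4) (nat_lit 217) (nat_lit 218) = true := by decide +kernel
def p15_23_0_218 : pfC (piC [(nat_lit 38167130), (nat_lit 25010362), (nat_lit 18643303), (nat_lit 12552662)] (nat_lit 21541652)) p15_23_0 (nat_lit 4) (nat_lit 218) (nat_lit 219) = true := by decide +kernel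
def p15_23_0_219 : pfC (piC [(nat_lit 38167130), (nat_lit 25010362), (nat_lit 18643303), (nat_lit 12552662)] (nat_lit 21541652)) p15_23_0 (nat_lit 4) (nat_lit 219) (nat_lit 220) = true := by decide +kernel
def p15_23_0_220 : pfC (piC [(nat_lit 38167130), (nat_lit 25010362), (nat_lit 18643303), (nat_lit 12552662)] (nat_lit 21541652)) p15_23_0 (nat_lit 4) (nat_lit 220) (nat_lit 221) = true := by decide +kernel
def p15_23_0_221 : pfC (piC [(nat_lit 38167130), (nat_lit 25010362), (nat_lit 18643303), (nat_lit 12552662)] (nat_lit 21541652)) p15_23_0 (nat_lit 4) (nat_lit 221) (nat_lit 222) = true := by decide +kernel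
def p15_23_0_222 : pfC (piC [(nat_lit 38167130), (nat_lit 25010362), (nat_lit 18643303), (nat_lit 12552662)] (nat_lit 21541652)) p15_23_0 (nat_lit 4) (nat_lit 222) (nat_lit 223) = true := by decide +kernel
def p15_23_0_223 : pfC (piC [(nat_lit 38167130), (nat_lit 25010362), (nat_lit 18643303), (nat_lit 12552662)] (nat_lit 21541652)) p15_23_0 (nat_lit 4) (nat_lit 223) (nat_lit 224) = true := by decide +kernel
def p15_23_0_224 : pfC (piC [(nat_lit 38167130), (nat_lit 25010362), (nat_lit 18643303), (nat_lit 12552662)] (nat_lit 21541652)) p15_23_0 (nat_lit 4) (nat_lit 224) (nat_lit 225) = true := by decide +kernel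
def p15_23_0_225 : pfC (piC [(nat_lit 38167130), (nat_lit 25010362), (nat_lit 18643303), (nat_lit 12552662)] (nat_lit 21541652)) p15_23_0 (nat_lit 4) (nat_lit 225) (nat_lit 226) = true := by decide +kernel
def p15_23_0_226 : pfC (piC [(nat_lit 38167130), (nat_lit 25010362), (nat_lit 18643303), (nat_lit 12552662)] (nat_lit 21541652)) p15_23_0 (nat_lit 4) (nat_lit 226) (nat_lit 227) = true := by decide +kernel
def p15_23_0_227 : pfC (piC [(nat_lit 38167130), (nat_lit 25010362), (nat_lit 18643303), (nat_lit 12552662)] (nat_lit 21541652)) p15_23_0 (nat_lit 4) (nat_lit 227) (nat_lit 228) = true := by decide +kernel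
def p15_23_0_228 : pfC (piC [(nat_lit 38167130), (nat_lit 25010362), (nat_lit 18643303), (nat_lit 12552662)] (nat_lit 21541652)) p15_23_0 (nat_lit 4) (nat_lit 228) (nat_lit 229) = true := by decide +kernel
def p15_23_0_229 : pfC (piC [(nat_lit 38167130), (nat_lit 25010362), (nat_lit 18643303), (nat_lit 12552662)] (nat_lit 21541652)) p15_23_0 (nat_lit 4) (nat_lit 229) (nat_lit 230) = true := by decide +kernel
def p15_23_0_230 : pfC (piC [(nat_lit 38167130), (nat_lit 25010362), (nat_lit 18643303), (nat_lit 12552662)] (nat_lit 21541652)) p15_23_0 (nat_lit 4) (nat_lit 230) (nat_lit 231) = true := by decide +kernel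
def p15_23_0_231 : pfC (piC [(nat_lit 38167130), (nat_lit 25010362), (nat_lit 18643303), (nat_lit 12552662)] (nat_lit 21541652)) p15_23_0 (nat_lit 4) (nat_lit 231) (nat_lit 232) = true := by decide +kernel
def p15_23_0_232 : pfC (piC [(nat_lit 38167130), (nat_lit 25010362), (nat_lit 18643303), (nat_lit 12552662)] (nat_lit 21541652)) p15_23_0 (nat_lit 4) (nat_lit 232) (nat_lit 233) = true := by decide +kernel
def p15_23_0_233 : pfC (piC [(nat_lit 38167130), (nat_lit 25010362), (nat_lit 18643303), (nat_lit 12552662)] (nat_lit 21541652)) p15_23_0 (nat_lit 4) (nat_lit 233) (nat_lit 234) = true := by decide +kernel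
def p15_23_0_234 : pfC (piC [(nat_lit 38167130), (nat_lit 25010362), (nat_lit 18643303), (nat_lit 12552662)] (nat_lit 21541652)) p15_23_0 (nat_lit 4) (nat_lit 234) (nat_lit 235) = true := by decide +kernel
def p15_23_0_235 : pfC (piC [(nat_lit 38167130), (nat_lit 25010362), (nat_lit 18643303), (nat_lit 12552662)] (nat_lit 21541652)) p15_23_0 (nat_lit 4) (nat_lit 235) (nat_lit 236) = true := by decide +kernel
def p15_23_0_236 : pfC (piC [(nat_lit 38167130), (nat_lit 25010362), (nat_lit 18643303), (nat_lit 12552662)] (nat_lit 21541652)) p15_23_0 (nat_lit 4) (nat_lit 236) (nat_lit 237) = true := by decide +kernel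
def p15_23_0_237 : pfC (piC [(nat_lit 38167130), (nat_lit 25010362), (nat_lit 18643303), (nat_lit 12552662)] (nat_lit 21541652)) p15_23_0 (nat_lit 4) (nat_lit 237) (nat_lit 238) = true := by decide +kernel
def p15_23_0_238 : pfC (piC [(nat_lit 38167130), (nat_lit 25010362), (nat_lit 18643303), (nat_lit 12552662)] (nat_lit 21541652)) p15_23_0 (nat_lit 4) (nat_lit 238) (nat_lit 239) = true := by decide +kernel
def p15_23_0_239 : pfC (piC [(nat_lit 38167130), (nat_lit 25010362), (nat_lit 18643303), (nat_lit 12552662)] (nat_lit 21541652)) p15_23_0 (nat_lit 4) (nat_lit 239) (nat_lit 240) = true := by decide +kernel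
def p15_23_0_240 : pfC (piC [(nat_lit 38167130), (nat_lit 25010362), (nat_lit 18643303), (nat_lit 12552662)] (nat_lit 21541652)) p15_23_0 (nat_lit 4) (nat_lit 240) (nat_lit 241) = true := by decide +kernel
def p15_23_0_241 : pfC (piC [(nat_lit 38167130), (nat_lit 25010362), (nat_lit 18643303), (nat_lit 12552662)] (nat_lit 21541652)) p15_23_0 (nat_lit 4) (nat_lit 241) (nat_lit 242) = true := by decide +kernel
def p15_23_0_242 : pfC (piC [(nat_lit 38167130), (nat_lit 25010362), (nat_lit 18643303), (nat_lit 12552662)] (nat_lit 21541652)) p15_23_0 (nat_lit 4) (nat_lit 242) (nat_lit 243) = true := by decide +kernel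
def p15_23_0_243 : pfC (piC [(nat_lit 38167130), (nat_lit 25010362), (nat_lit 18643303), (nat_lit 12552662)] (nat_lit 21541652)) p15_23_0 (nat_lit 4) (nat_lit 243) (nat_lit 244) = true := by decide +kernel
def p15_23_0_244 : pfC (piC [(nat_lit 38167130), (nat_lit 25010362), (nat_lit 18643303), (nat_lit 12552662)] (nat_lit 21541652)) p15_23_0 (nat_lit 4) (nat_lit 244) (nat_lit 245) = true := by decide +kernel
def p15_23_0_245 : pfC (piC [(nat_lit 38167130), (nat_lit 25010362), (nat_lit 18643303), (nat_lit 12552662)] (nat_lit 21541652)) p15_23_0 (nat_lit 4) (nat_lit 245) (nat_lit 246) = true := by decide +kernel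
def p15_23_0_246 : pfC (piC [(nat_lit 38167130), (nat_lit 25010362), (nat_lit 18643303), (nat_lit 12552662)] (nat_lit 21541652)) p15_23_0 (nat_lit 4) (nat_lit 246) (nat_lit 247) = true := by decide +kernel
def p15_23_0_247 : pfC (piC [(nat_lit 38167130), (nat_lit 25010362), (nat_lit 18643303), (nat_lit 12552662)] (nat_lit 21541652)) p15_23_0 (nat_lit 4) (nat_lit 247) (nat_lit 248) = true := by decide +kernel
def p15_23_0_248 : pfC (piC [(nat_lit 38167130), (nat_lit 25010362), (nat_lit 18643303), (nat_lit 12552662)] (nat_lit 21541652)) p15_23_0 (nat_lit 4) (nat_lit 248) (nat_lit 249) = true := by decide +kernel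
def p15_23_0_249 : pfC (piC [(nat_lit 38167130), (nat_lit 25010362), (nat_lit 18643303), (nat_lit 12552662)] (nat_lit 21541652)) p15_23_0 (nat_lit 4) (nat_lit 249) (nat_lit 250) = true := by decide +kernel
def p15_23_0_250 : pfC (piC [(nat_lit 38167130), (nat_lit 25010362), (nat_lit 18643303), (nat_lit 12552662)] (nat_lit 21541652)) p15_23_0 (nat_lit 4) (nat_lit 250) (nat_lit 251) = true := by decide +kernel
def p15_23_0_251 : pfC (piC [(nat_lit 38167130), (nat_lit 25010362), (nat_lit 18643303), (nat_lit 12552662)] (nat_lit 21541652)) p15_23_0 (nat_lit 4) (nat_lit 251) (nat_lit 252) = true := by decide +kernel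
def p15_23_0_252 : pfC (piC [(nat_lit 38167130), (nat_lit 25010362), (nat_lit 18643303), (nat_lit 12552662)] (nat_lit 21541652)) p15_23_0 (nat_lit 4) (nat_lit 252) (nat_lit 253) = true := by decide +kernel
def p15_23_0_253 : pfC (piC [(nat_lit 38167130), (nat_lit 25010362), (nat_lit 18643303), (nat_lit 12552662)] (nat_lit 21541652)) p15_23_0 (nat_lit 4) (nat_lit 253) (nat_lit 254) = true := by decide +kernel
def p15_23_0_254 : pfC (piC [(nat_lit 38167130), (nat_lit 25010362), (nat_lit 18643303), (nat_lit 12552662)] (nat_lit 21541652)) p15_23_0 (nat_lit 4) (nat_lit 254) (nat_lit 255) = true := by decide +kernel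
def p15_23_0_255 : pfC (piC [(nat_lit 38167130), (nat_lit 25010362), (nat_lit 18643303), (nat_lit 12552662)] (nat_lit 21541652)) p15_23_0 (nat_lit 4) (nat_lit 255) (nat_lit 256) = true := by decide +kernel
def p15_23_0_256 : pfC (piC [(nat_lit 38167130), (nat_lit 25010362), (nat_lit 18643303), (nat_lit 12552662)] (nat_lit 21541652)) p15_23_0 (nat_lit 4) (nat_lit 256) (nat_lit 257) = true := by decide +kernel
def p15_23_0_257 : pfC (piC [(nat_lit 38167130), (nat_lit 25010362), (nat_lit 18643303), (nat_lit 12552662)] (nat_lit 21541652)) p15_23_0 (nat_lit 4) (nat_lit 257) (nat_lit 258) = true := by decide +kernel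
def p15_23_0_258 : pfC (piC [(nat_lit 38167130), (nat_lit 25010362), (nat_lit 18643303), (nat_lit 12552662)] (nat_lit 21541652)) p15_23_0 (nat_lit 4) (nat_lit 258) (nat_lit 259) = true := by decide +kernel
def p15_23_0_259 : pfC (piC [(nat_lit 38167130), (nat_lit 25010362), (nat_lit 18643303), (nat_lit 12552662)] (nat_lit 21541652)) p15_23_0 (nat_lit 4) (nat_lit 259) (nat_lit 260) = true := by decide +kernel
def p15_23_0_260 : pfC (piC [(nat_lit 38167130), (nat_lit 25010362), (nat_lit 18643303), (nat_lit 12552662)] (nat_lit 21541652)) p15_23_0 (nat_lit 4) (nat_lit 260) (nat_lit 261) = true := by decide +kernel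
def p15_23_0_261 : pfC (piC [(nat_lit 38167130), (nat_lit 25010362), (nat_lit 18643303), (nat_lit 12552662)] (nat_lit 21541652)) p15_23_0 (nat_lit 4) (nat_lit 261) (nat_lit 262) = true := by decide +kernel
def p15_23_0_262 : pfC (piC [(nat_lit 38167130), (nat_lit 25010362), (nat_lit 18643303), (nat_lit 12552662)] (nat_lit 21541652)) p15_23_0 (nat_lit 4) (nat_lit 262) (nat_lit 263) = true := by decide +kernel
def p15_23_0_263 : pfC (piC [(nat_lit 38167130), (nat_lit 25010362), (nat_lit 18643303), (nat_lit 12552662)] (nat_lit 21541652)) p15_23_0 (nat_lit 4) (nat_lit 263) (nat_lit 264) = true := by decide +kernel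
def p15_23_0_264 : pfC (piC [(nat_lit 38167130), (nat_lit 25010362), (nat_lit 18643303), (nat_lit 12552662)] (nat_lit 21541652)) p15_23_0 (nat_lit 4) (nat_lit 264) (nat_lit 265) = true := by decide +kernel
def p15_23_0_265 : pfC (piC [(nat_lit 38167130), (nat_lit 25010362), (nat_lit 18643303), (nat_lit 12552662)] (nat_lit 21541652)) p15_23_0 (nat_lit 4) (nat_lit 265) (nat_lit 266) = true := by decide +kernel
def p15_23_0_266 : pfC (piC [(nat_lit 38167130), (nat_lit 25010362), (nat_lit 18643303), (nat_lit 12552662)] (nat_lit 21541652)) p15_23_0 (nat_lit 4) (nat_lit 266) (nat_lit 267) = true := by decide +kernel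
def p15_23_0_267 : pfC (piC [(nat_lit 38167130), (nat_lit 25010362), (nat_lit 18643303), (nat_lit 12552662)] (nat_lit 21541652)) p15_23_0 (nat_lit 4) (nat_lit 267) (nat_lit 268) = true := by decide +kernel
def p15_23_0_268 : pfC (piC [(nat_lit 38167130), (nat_lit 25010362), (nat_lit 18643303), (nat_lit 12552662)] (nat_lit 21541652)) p15_23_0 (nat_lit 4) (nat_lit 268) (nat_lit 269) = true := by decide +kernel
def p15_23_0_269 : pfC (piC [(nat_lit 38167130), (nat_lit 25010362), (nat_lit 18643303), (nat_lit 12552662)] (nat_lit 21541652)) p15_23_0 (nat_lit 4) (nat_lit 269) (nat_lit 270) = true := by decide +kernel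
def p15_23_0_270 : pfC (piC [(nat_lit 38167130), (nat_lit 25010362), (nat_lit 18643303), (nat_lit 12552662)] (nat_lit 21541652)) p15_23_0 (nat_lit 4) (nat_lit 270) (nat_lit 271) = true := by decide +kernel
def p15_23_0_271 : pfC (piC [(nat_lit 38167130), (nat_lit 25010362), (nat_lit 18643303), (nat_lit 12552662)] (nat_lit 21541652)) p15_23_0 (nat_lit 4) (nat_lit 271) (nat_lit 272) = true := by decide +kernel
def p15_23_0_272 : pfC (piC [(nat_lit 38167130), (nat_lit 25010362), (nat_lit 18643303), (nat_lit 12552662)] (nat_lit 21541652)) p15_23_0 (nat_lit 4) (nat_lit 272) (nat_lit 273) = true := by decide +kernel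
def p15_23_0_273 : pfC (piC [(nat_lit 38167130), (nat_lit 25010362), (nat_lit 18643303), (nat_lit 12552662)] (nat_lit 21541652)) p15_23_0 (nat_lit 4) (nat_lit 273) (nat_lit 274) = true := by decide +kernel
def p15_23_0_274 : pfC (piC [(nat_lit 38167130), (nat_lit 25010362), (nat_lit 18643303), (nat_lit 12552662)] (nat_lit 21541652)) p15_23_0 (nat_lit 4) (nat_lit 274) (nat_lit 275) = true := by decide +kernel
def p15_23_0_275 : pfC (piC [(nat_lit 38167130), (nat_lit 25010362), (nat_lit 18643303), (nat_lit 12552662)] (nat_lit 21541652)) p15_23_0 (nat_lit 4) (nat_lit 275) (nat_lit 276) = true := by decide +kernel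
def p15_23_0_276 : pfC (piC [(nat_lit 38167130), (nat_lit 25010362), (nat_lit 18643303), (nat_lit 12552662)] (nat_lit 21541652)) p15_23_0 (nat_lit 4) (nat_lit 276) (nat_lit 277) = true := by decide +kernel
def p15_23_0_277 : pfC (piC [(nat_lit 38167130), (nat_lit 25010362), (nat_lit 18643303), (nat_lit 12552662)] (nat_lit 21541652)) p15_23_0 (nat_lit 4) (nat_lit 277) (nat_lit 278) = true := by decide +kernel
def p15_23_0_278 : pfC (piC [(nat_lit 38167130), (nat_lit 25010362), (nat_lit 18643303), (nat_lit 12552662)] (nat_lit 21541652)) p15_23_0 (nat_lit 4) (nat_lit 278) (nat_lit 279) = true := by decide +kernel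
def p15_23_0_279 : pfC (piC [(nat_lit 38167130), (nat_lit 25010362), (nat_lit 18643303), (nat_lit 12552662)] (nat_lit 21541652)) p15_23_0 (nat_lit 4) (nat_lit 279) (nat_lit 280) = true := by decide +kernel
def p15_23_0_280 : pfC (piC [(nat_lit 38167130), (nat_lit 25010362), (nat_lit 18643303), (nat_lit 12552662)] (nat_lit 21541652)) p15_23_0 (nat_lit 4) (nat_lit 280) (nat_lit 281) = true := by decide +kernel
def p15_23_0_281 : pfC (piC [(nat_lit 38167130), (nat_lit 25010362), (nat_lit 18643303), (nat_lit 12552662)] (nat_lit 21541652)) p15_23_0 (nat_lit 4) (nat_lit 281) (nat_lit 282) = true := by decide +kernel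
def p15_23_0_282 : pfC (piC [(nat_lit 38167130), (nat_lit 25010362), (nat_lit 18643303), (nat_lit 12552662)] (nat_lit 21541652)) p15_23_0 (nat_lit 4) (nat_lit 282) (nat_lit 283) = true := by decide +kernel
def p15_23_0_283 : pfC (piC [(nat_lit 38167130), (nat_lit 25010362), (nat_lit 18643303), (nat_lit 12552662)] (nat_lit 21541652)) p15_23_0 (nat_lit 4) (nat_lit 283) (nat_lit 284) = true := by decide +kernel
def p15_23_0_284 : pfC (piC [(nat_lit 38167130), (nat_lit 25010362), (nat_lit 18643303), (nat_lit 12552662)] (nat_lit 21541652)) p15_23_0 (nat_lit 4) (nat_lit 284) (nat_lit 285) = true := by decide +kernel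
def p15_23_0_285 : pfC (piC [(nat_lit 38167130), (nat_lit 25010362), (nat_lit 18643303), (nat_lit 12552662)] (nat_lit 21541652)) p15_23_0 (nat_lit 4) (nat_lit 285) (nat_lit 286) = true := by decide +kernel
def p15_23_0_286 : pfC (piC [(nat_lit 38167130), (nat_lit 25010362), (nat_lit 18643303), (nat_lit 12552662)] (nat_lit 21541652)) p15_23_0 (nat_lit 4) (nat_lit 286) (nat_lit 287) = true := by decide +kernel
def p15_23_0_287 : pfC (piC [(nat_lit 38167130), (nat_lit 25010362), (nat_lit 18643303), (nat_lit 12552662)] (nat_lit 21541652)) p15_23_0 (nat_lit 4) (nat_lit 287) (nat_lit 288) = true := by decide +kernel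
def p15_23_0_288 : pfC (piC [(nat_lit 38167130), (nat_lit 25010362), (nat_lit 18643303), (nat_lit 12552662)] (nat_lit 21541652)) p15_23_0 (nat_lit 4) (nat_lit 288) (nat_lit 289) = true := by decide +kernel
def p15_23_0_289 : pfC (piC [(nat_lit 38167130), (nat_lit 25010362), (nat_lit 18643303), (nat_lit 12552662)] (nat_lit 21541652)) p15_23_0 (nat_lit 4) (nat_lit 289) (nat_lit 290) = true := by decide +kernel
def p15_23_0_290 : pfC (piC [(nat_lit 38167130), (nat_lit 25010362), (nat_lit 18643303), (nat_lit 12552662)] (nat_lit 21541652)) p15_23_0 (nat_lit 4) (nat_lit 290) (nat_lit 291) = true := by decide +kernel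
def p15_23_0_291 : pfC (piC [(nat_lit 38167130), (nat_lit 25010362), (nat_lit 18643303), (nat_lit 12552662)] (nat_lit 21541652)) p15_23_0 (nat_lit 4) (nat_lit 291) (nat_lit 292) = true := by decide +kernel
def p15_23_0_292 : pfC (piC [(nat_lit 38167130), (nat_lit 25010362), (nat_lit 18643303), (nat_lit 12552662)] (nat_lit 21541652)) p15_23_0 (nat_lit 4) (nat_lit 292) (nat_lit 293) = true := by decide +kernel
def p15_23_0_293 : pfC (piC [(nat_lit 38167130), (nat_lit 25010362), (nat_lit 18643303), (nat_lit 12552662)] (nat_lit 21541652)) p15_23_0 (nat_lit 4) (nat_lit 293) (nat_lit 294) = true := by decide +kernel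
def p15_23_0_294 : pfC (piC [(nat_lit 38167130), (nat_lit 25010362), (nat_lit 18643303), (nat_lit 12552662)] (nat_lit 21541652)) p15_23_0 (nat_lit 4) (nat_lit 294) (nat_lit 295) = true := by decide +kernel
def p15_23_0_295 : pfC (piC [(nat_lit 38167130), (nat_lit 25010362), (nat_lit 18643303), (nat_lit 12552662)] (nat_lit 21541652)) p15_23_0 (nat_lit 4) (nat_lit 295) (nat_lit 296) = true := by decide +kernel
def p15_23_0_296 : pfC (piC [(nat_lit 38167130), (nat_lit 25010362), (nat_lit 18643303), (nat_lit 12552662)] (nat_lit 21541652)) p15_23_0 (nat_lit 4) (nat_lit 296) (nat_lit 297) = true := by decide +kernel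
def p15_23_0_297 : pfC (piC [(nat_lit 38167130), (nat_lit 25010362), (nat_lit 18643303), (nat_lit 12552662)] (nat_lit 21541652)) p15_23_0 (nat_lit 4) (nat_lit 297) (nat_lit 298) = true := by decide +kernel
def p15_23_0_298 : pfC (piC [(nat_lit 38167130), (nat_lit 25010362), (nat_lit 18643303), (nat_lit 12552662)] (nat_lit 21541652)) p15_23_0 (nat_lit 4) (nat_lit 298) (nat_lit 299) = true := by decide +kernel
def p15_23_0_299 : pfC (piC [(nat_lit 38167130), (nat_lit 25010362), (nat_lit 18643303), (nat_lit 12552662)] (nat_lit 21541652)) p15_23_0 (nat_lit 4) (nat_lit 299) (nat_lit 300) = true := by decide +kernel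
theorem p15_23_0_T : PfS (PiF n15_23.reverse (nat_lit 21541652)) p15_23_0 (nat_lit 4) [] 0 :=
  pftab_of (los := [(nat_lit 38167130), (nat_lit 25010362), (nat_lit 18643303), (nat_lit 12552662)]) (by decide +kernel) (hi := (nat_lit 300)) (PfP.trans (PfP.trans (PfP.trans (PfP.trans (PfP.trans (PfP.trans (PfP.trans (PfP.trans (PfP.trans (PfP.trans (PfP.trans (PfP.trans (PfP.trans (PfP.trans (PfP.trans (PfP.trans (PfP.trans (PfP.trans (PfP.trans (PfP.trans (PfP.trans (PfP.trans (PfP.trans (PfP.trans (PfP.trans (PfP.trans (PfP.trans (PfP.trans (PfP.trans (PfP.trans (PfP.trans (PfP.trans (PfP.trans (PfP.trans (PfP.trans (PfP.trans (PfP.trans (PfP.trans (PfP.trans (PfP.trans (PfP.trans (PfP.trans (PfP.trans (PfP.trans (PfP.trans (PfP.trans (PfP.trans (PfP.trans (PfP.trans (PfP.trans (PfP.trans (PfP.trans (PfP.trans (PfP.trans (PfP.trans (PfP.trans (PfP.trans (PfP.trans (PfP.trans (PfP.trans (PfP.trans (PfP.trans (PfP.trans (PfP.trans (PfP.trans (PfP.trans (PfP.trans (PfP.trans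 (PfP.trans (PfP.trans (PfP.trans (PfP.trans (PfP.trans (PfP.trans (PfP.trans (PfP.trans (PfP.trans (PfP.trans (PfP.trans (PfP.trans (PfP.trans (PfP.trans (PfP.trans (PfP.trans (PfP.trans (PfP.trans (PfP.trans (PfP.trans (PfP.trans (PfP.trans (PfP.trans (PfP.trans (PfP.trans (PfP.trans (PfP.trans (PfP.trans (PfP.trans (PfP.trans (PfP.trans (PfP.trans (PfP.trans (PfP.trans (PfP.trans (PfP.trans (PfP.trans (PfP.trans (PfP.trans (PfP.trans (PfP.trans
 (PfP.trans (PfP.trans (PfP.trans (PfP.trans (PfP.trans (PfP.trans (PfP.trans (PfP.trans (PfP.trans (PfP.trans (PfP.trans (PfP.trans (PfP.trans (PfP.trans (PfP.trans (PfP.trans (PfP.trans (PfP.trans (PfP.trans (PfP.trans (PfP.trans (PfP.trans (PfP.trans (PfP.trans (PfP.trans (PfP.trans (PfP.trans (PfP.trans (PfP.trans (PfP.trans (PfP.trans (PfP.trans (PfP.trans (PfP.trans (PfP.trans (PfP.trans (PfP.trans (PfP.trans (PfP.trans (PfP.trans (PfP.trans (PfP.trans (PfP.trans (PfP.trans (PfP.trans (PfP.trans (PfP.trans (PfP.trans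 (PfP.trans (PfP.trans (PfP.trans (PfP.trans (PfP.trans (PfP.trans (PfP.trans (PfP.trans (PfP.trans (PfP.trans (PfP.trans (PfP.trans (PfP.trans (PfP.trans (PfP.trans (PfP.trans (PfP.trans (PfP.trans (PfP.trans (PfP.trans (PfP.trans (PfP.trans (PfP.trans (PfP.trans (PfP.trans (PfP.trans (PfP.trans (PfP.trans (PfP.trans (PfP.trans (PfP.trans (PfP.trans (PfP.trans (PfP.trans (PfP.trans (PfP.trans (PfP.trans (PfP.trans (PfP.trans (PfP.trans (PfP.trans (PfP.trans (PfP.trans (PfP.trans (PfP.trans (PfP.trans (PfP.trans (PfP.trans (PfP.trans (PfP.trans (PfP.trans (PfP.trans (PfP.trans (PfP.trans (PfP.trans (PfP.trans (PfP.trans (PfP.trans (PfP.trans (PfP.trans (PfP.trans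
 (PfP.trans (PfP.trans (PfP.trans (PfP.trans (PfP.trans (PfP.trans (PfP.trans (PfP.trans (PfP.trans (PfP.trans (PfP.trans (PfP.trans (PfP.trans (PfP.trans (PfP.trans (PfP.trans (PfP.trans (PfP.trans (PfP.trans (PfP.trans (PfP.trans (PfP.trans (PfP.trans (PfP.trans (PfP.trans (PfP.trans (PfP.trans (PfP.trans (PfP.trans (PfP.trans (PfP.trans (PfP.trans (PfP.trans (PfP.trans (PfP.trans (PfP.trans (PfP.trans (PfP.trans (PfP.trans (PfP.trans (PfP.trans (PfP.trans (PfP.trans (PfP.trans (PfP.trans (PfP.trans (PfP.trans (PfP.trans (PfP.trans (PfP.trans (PfP.trans (PfP.trans (PfP.trans (PfP.trans (PfP.trans (PfP.trans (PfP.trans (PfP.trans (PfP.trans (PfP.trans (PfP.trans (PfP.trans (PfP.trans (PfP.trans (PfP.trans (PfP.trans (PfP.trans (PfP.trans (PfP.trans (PfP.trans (PfP.trans (PfP.trans (PfP.trans (PfP.trans (PfP.trans (PfP.trans (PfP.trans (PfP.trans (PfP.trans (PfP.trans (PfP.trans (pfC_sound p15_23_0_0) (pfC_sound p15_23_0_1)) (pfC_sound p15_23_0_2)) (pfC_sound p15_23_0_3))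 (pfC_sound p15_23_0_4)) (pfC_sound p15_23_0_5)) (pfC_sound p15_23_0_6)) (pfC_sound p15_23_0_7)) (pfC_sound p15_23_0_8)) (pfC_sound p15_23_0_9)) (pfC_sound p15_23_0_10)) (pfC_sound p15_23_0_11)) (pfC_sound
 p15_23_0_12)) (pfC_sound p15_23_0_13)) (pfC_sound p15_23_0_14)) (pfC_sound p15_23_0_15)) (pfC_sound p15_23_0_16)) (pfC_sound p15_23_0_17)) (pfC_sound p15_23_0_18)) (pfC_sound p15_23_0_19)) (pfC_sound p15_23_0_20)) (pfC_sound p15_23_0_21)) (pfC_sound p15_23_0_22)) (pfC_sound p15_23_0_23)) (pfC_sound p15_23_0_24)) (pfC_sound p15_23_0_25)) (pfC_sound p15_23_0_26)) (pfC_sound p15_23_0_27)) (pfC_sound p15_23_0_28)) (pfC_sound p15_23_0_29)) (pfC_sound p15_23_0_30)) (pfC_sound p15_23_0_31)) (pfC_sound p15_23_0_32)) (pfC_sound p15_23_0_33)) (pfC_sound p15_23_0_34)) (pfC_sound p15_23_0_35)) (pfC_sound p15_23_0_36)) (pfC_sound p15_23_0_37)) (pfC_sound p15_23_0_38)) (pfC_sound p15_23_0_39)) (pfC_sound p15_23_0_40)) (pfC_sound p15_23_0_41)) (pfC_sound p15_23_0_42)) (pfC_sound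 p15_23_0_43)) (pfC_sound p15_23_0_44)) (pfC_sound p15_23_0_45)) (pfC_sound p15_23_0_46)) (pfC_sound p15_23_0_47)) (pfC_sound p15_23_0_48)) (pfC_sound p15_23_0_49)) (pfC_sound p15_23_0_50)) (pfC_sound p15_23_0_51)) (pfC_sound p15_23_0_52)) (pfC_sound p15_23_0_53)) (pfC_sound p15_23_0_54)) (pfC_sound p15_23_0_55)) (pfC_sound p15_23_0_56)) (pfC_sound p15_23_0_57)) (pfC_sound p15_23_0_58)) (pfC_sound p15_23_0_59)) (pfC_sound
 p15_23_0_60)) (pfC_sound p15_23_0_61)) (pfC_sound p15_23_0_62)) (pfC_sound p15_23_0_63)) (pfC_sound p15_23_0_64)) (pfC_sound p15_23_0_65)) (pfC_sound p15_23_0_66)) (pfC_sound p15_23_0_67)) (pfC_sound p15_23_0_68)) (pfC_sound p15_23_0_69)) (pfC_sound p15_23_0_70)) (pfC_sound p15_23_0_71)) (pfC_sound p15_23_0_72)) (pfC_sound p15_23_0_73)) (pfC_sound p15_23_0_74)) (pfC_sound p15_23_0_75)) (pfC_sound p15_23_0_76)) (pfC_sound p15_23_0_77)) (pfC_sound p15_23_0_78)) (pfC_sound p15_23_0_79)) (pfC_sound p15_23_0_80)) (pfC_sound p15_23_0_81)) (pfC_sound p15_23_0_82))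 (pfC_sound p15_23_0_83)) (pfC_sound p15_23_0_84)) (pfC_sound p15_23_0_85)) (pfC_sound p15_23_0_86)) (pfC_sound p15_23_0_87)) (pfC_sound p15_23_0_88)) (pfC_sound p15_23_0_89)) (pfC_sound p15_23_0_90)) (pfC_sound p15_23_0_91)) (pfC_sound p15_23_0_92)) (pfC_sound p15_23_0_93)) (pfC_sound p15_23_0_94)) (pfC_sound p15_23_0_95)) (pfC_sound p15_23_0_96)) (pfC_sound p15_23_0_97)) (pfC_sound p15_23_0_98)) (pfC_sound p15_23_0_99)) (pfC_sound p15_23_0_100)) (pfC_sound p15_23_0_101)) (pfC_sound p15_23_0_102)) (pfC_sound p15_23_0_103)) (pfC_sound p15_23_0_104)) (pfC_sound p15_23_0_105)) (pfC_sound p15_23_0_106)) (pfC_sound p15_23_0_107))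
 (pfC_sound p15_23_0_108)) (pfC_sound p15_23_0_109)) (pfC_sound p15_23_0_110)) (pfC_sound p15_23_0_111)) (pfC_sound p15_23_0_112)) (pfC_sound p15_23_0_113)) (pfC_sound p15_23_0_114)) (pfC_sound p15_23_0_115)) (pfC_sound p15_23_0_116)) (pfC_sound p15_23_0_117)) (pfC_sound p15_23_0_118)) (pfC_sound p15_23_0_119)) (pfC_sound p15_23_0_120)) (pfC_sound p15_23_0_121)) (pfC_sound p15_23_0_122)) (pfC_sound p15_23_0_123)) (pfC_sound p15_23_0_124)) (pfC_sound p15_23_0_125)) (pfC_sound p15_23_0_126)) (pfC_sound p15_23_0_127)) (pfC_sound p15_23_0_128)) (pfC_sound p15_23_0_129)) (pfC_sound p15_23_0_130)) (pfC_sound p15_23_0_131)) (pfC_sound p15_23_0_132)) (pfC_sound p15_23_0_133)) (pfC_sound p15_23_0_134)) (pfC_sound p15_23_0_135)) (pfC_sound p15_23_0_136)) (pfC_sound p15_23_0_137)) (pfC_sound p15_23_0_138)) (pfC_sound p15_23_0_139)) (pfC_sound p15_23_0_140)) (pfC_sound p15_23_0_141)) (pfC_sound p15_23_0_142)) (pfC_sound p15_23_0_143)) (pfC_sound p15_23_0_144)) (pfC_sound p15_23_0_145))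 (pfC_sound p15_23_0_146)) (pfC_sound p15_23_0_147)) (pfC_sound p15_23_0_148)) (pfC_sound p15_23_0_149)) (pfC_sound p15_23_0_150)) (pfC_sound p15_23_0_151)) (pfC_sound p15_23_0_152)) (pfC_sound p15_23_0_153))
 (pfC_sound p15_23_0_154)) (pfC_sound p15_23_0_155)) (pfC_sound p15_23_0_156)) (pfC_sound p15_23_0_157)) (pfC_sound p15_23_0_158)) (pfC_sound p15_23_0_159)) (pfC_sound p15_23_0_160)) (pfC_sound p15_23_0_161)) (pfC_sound p15_23_0_162)) (pfC_sound p15_23_0_163)) (pfC_sound p15_23_0_164)) (pfC_sound p15_23_0_165)) (pfC_sound p15_23_0_166)) (pfC_sound p15_23_0_167)) (pfC_sound p15_23_0_168)) (pfC_sound p15_23_0_169)) (pfC_sound p15_23_0_170)) (pfC_sound p15_23_0_171)) (pfC_sound p15_23_0_172)) (pfC_sound p15_23_0_173)) (pfC_sound p15_23_0_174)) (pfC_sound p15_23_0_175)) (pfC_sound p15_23_0_176)) (pfC_sound p15_23_0_177)) (pfC_sound p15_23_0_178)) (pfC_sound p15_23_0_179)) (pfC_sound p15_23_0_180)) (pfC_sound p15_23_0_181)) (pfC_sound p15_23_0_182)) (pfC_sound p15_23_0_183))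 (pfC_sound p15_23_0_184)) (pfC_sound p15_23_0_185)) (pfC_sound p15_23_0_186)) (pfC_sound p15_23_0_187)) (pfC_sound p15_23_0_188)) (pfC_sound p15_23_0_189)) (pfC_sound p15_23_0_190)) (pfC_sound p15_23_0_191)) (pfC_sound p15_23_0_192)) (pfC_sound p15_23_0_193)) (pfC_sound p15_23_0_194)) (pfC_sound p15_23_0_195)) (pfC_sound p15_23_0_196)) (pfC_sound p15_23_0_197)) (pfC_sound p15_23_0_198)) (pfC_sound p15_23_0_199))
 (pfC_sound p15_23_0_200)) (pfC_sound p15_23_0_201)) (pfC_sound p15_23_0_202)) (pfC_sound p15_23_0_203)) (pfC_sound p15_23_0_204)) (pfC_sound p15_23_0_205)) (pfC_sound p15_23_0_206)) (pfC_sound p15_23_0_207)) (pfC_sound p15_23_0_208)) (pfC_sound p15_23_0_209)) (pfC_sound p15_23_0_210)) (pfC_sound p15_23_0_211)) (pfC_sound p15_23_0_212)) (pfC_sound p15_23_0_213)) (pfC_sound p15_23_0_214)) (pfC_sound p15_23_0_215)) (pfC_sound p15_23_0_216)) (pfC_sound p15_23_0_217)) (pfC_sound p15_23_0_218)) (pfC_sound p15_23_0_219)) (pfC_sound p15_23_0_220)) (pfC_sound p15_23_0_221))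 (pfC_sound p15_23_0_222)) (pfC_sound p15_23_0_223)) (pfC_sound p15_23_0_224)) (pfC_sound p15_23_0_225)) (pfC_sound p15_23_0_226)) (pfC_sound p15_23_0_227)) (pfC_sound p15_23_0_228)) (pfC_sound p15_23_0_229)) (pfC_sound p15_23_0_230)) (pfC_sound p15_23_0_231)) (pfC_sound p15_23_0_232)) (pfC_sound p15_23_0_233)) (pfC_sound p15_23_0_234)) (pfC_sound p15_23_0_235)) (pfC_sound p15_23_0_236)) (pfC_sound p15_23_0_237)) (pfC_sound p15_23_0_238)) (pfC_sound p15_23_0_239)) (pfC_sound p15_23_0_240)) (pfC_sound p15_23_0_241)) (pfC_sound p15_23_0_242)) (pfC_sound p15_23_0_243)) (pfC_sound p15_23_0_244)) (pfC_sound p15_23_0_245))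
 (pfC_sound p15_23_0_246)) (pfC_sound p15_23_0_247)) (pfC_sound p15_23_0_248)) (pfC_sound p15_23_0_249)) (pfC_sound p15_23_0_250)) (pfC_sound p15_23_0_251)) (pfC_sound p15_23_0_252)) (pfC_sound p15_23_0_253)) (pfC_sound p15_23_0_254)) (pfC_sound p15_23_0_255)) (pfC_sound p15_23_0_256)) (pfC_sound p15_23_0_257)) (pfC_sound p15_23_0_258)) (pfC_sound p15_23_0_259)) (pfC_sound p15_23_0_260)) (pfC_sound p15_23_0_261)) (pfC_sound p15_23_0_262)) (pfC_sound p15_23_0_263)) (pfC_sound p15_23_0_264)) (pfC_sound p15_23_0_265)) (pfC_sound p15_23_0_266)) (pfC_sound p15_23_0_267)) (pfC_sound p15_23_0_268)) (pfC_sound p15_23_0_269)) (pfC_sound p15_23_0_270)) (pfC_sound p15_23_0_271)) (pfC_sound p15_23_0_272)) (pfC_sound p15_23_0_273)) (pfC_sound p15_23_0_274)) (pfC_sound p15_23_0_275)) (pfC_sound p15_23_0_276)) (pfC_sound p15_23_0_277)) (pfC_sound p15_23_0_278)) (pfC_sound p15_23_0_279)) (pfC_sound p15_23_0_280)) (pfC_sound p15_23_0_281)) (pfC_sound p15_23_0_282)) (pfC_sound p15_23_0_283))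 (pfC_sound p15_23_0_284)) (pfC_sound p15_23_0_285)) (pfC_sound p15_23_0_286)) (pfC_sound p15_23_0_287)) (pfC_sound p15_23_0_288)) (pfC_sound p15_23_0_289)) (pfC_sound p15_23_0_290)) (pfC_sound p15_23_0_291))
 (pfC_sound p15_23_0_292)) (pfC_sound p15_23_0_293)) (pfC_sound p15_23_0_294)) (pfC_sound p15_23_0_295)) (pfC_sound p15_23_0_296)) (pfC_sound p15_23_0_297)) (pfC_sound p15_23_0_298)) (pfC_sound p15_23_0_299)) (by decide +kernel)

def z15_23_0 : zOK yB15_23 (nat_lit 0) (nat_lit 0) (nat_lit 400) (nat_lit 21541652) (nat_lit 10498223) = true := by decide +kernel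
def g15_23_0 : gOK yB15_23.x P15_23 (nat_lit 1416) (q15_23 :: r15_23) (nat_lit 0) (nat_lit 0) (nat_lit 1) (nat_lit 400) (nat_lit 0) (nat_lit 11000000) (nat_lit 12712500) (nat_lit 12712500) [(nat_lit 800), (nat_lit 1400), (nat_lit 2200)] = true := by decide +kernel
def v15_23_0 : ivC P15_23 s15_23 w15_23 n15_23 (nat_lit 4) (nat_lit 5380) (nat_lit 0) (nat_lit 0) f160_1_0 f168_1_0 (nat_lit 1) (nat_lit 400) f160_1_400 f168_1_400 (nat_lit 21541652) (nat_lit 10498223) p15_23_0 = true := by decide +kernel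
def p15_23_1 : PF := (PF.cons (PF.cons (PF.cons (PF.cons (PF.leaf (nat_lit 2128366) (nat_lit 10181457) (nat_lit 56927355) (nat_lit 10181457) [(nat_lit 0), (nat_lit 0), (nat_lit 0), (nat_lit 0)]) (PF.cons (PF.leaf (nat_lit 2308248) (nat_lit 312043) (nat_lit 56591900) (nat_lit 10204869) [(nat_lit 312043), (nat_lit 0), (nat_lit 0), (nat_lit 0)]) (PF.cons (PF.leaf (nat_lit 2520966) (nat_lit 339684) (nat_lit 56199717) (nat_lit 10229726) [(nat_lit 339684), (nat_lit 0), (nat_lit 0), (nat_lit 0)]) (PF.cons (PF.leaf (nat_lit 2760075) (nat_lit 364294) (nat_lit 55761473) (nat_lit 10254456) [(nat_lit 364294), (nat_lit 0), (nat_lit 0), (nat_lit 0)]) (PF.cons (PF.leaf (nat_lit 3021806) (nat_lit 386534) (nat_lit 55284796) (nat_lit 10277878) [(nat_lit 386534), (nat_lit 0), (nat_lit 0), (nat_lit 0)]) (PF.cons (PF.leaf (nat_lit 3303234) (nat_lit 406822) (nat_lit 54775624) (nat_lit 10299077) [(nat_lit 406822), (nat_lit 0), (nat_lit 0), (nat_lit 0)]) (PF.cons (PF.leaf (nat_lit 3601964)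 (nat_lit 425438) (nat_lit 54238835) (nat_lit 10317347) [(nat_lit 425438), (nat_lit 0), (nat_lit 0), (nat_lit 0)]) (PF.cons (PF.leaf (nat_lit 3915976) (nat_lit 442583) (nat_lit 53678578) (nat_lit 10332148) [(nat_lit 442583), (nat_lit 0),
 (nat_lit 0), (nat_lit 0)]) (PF.cons (PF.leaf (nat_lit 4243402) (nat_lit 458408) (nat_lit 53098467) (nat_lit 10343079) [(nat_lit 458408), (nat_lit 0), (nat_lit 0), (nat_lit 0)]) (PF.cons PF.nil PF.nil)))))))))) (PF.cons (PF.cons (PF.leaf (nat_lit 2716010) (nat_lit 1361921) (nat_lit 55485634) (nat_lit 10261256) [(nat_lit 0), (nat_lit 1361921), (nat_lit 0), (nat_lit 0)]) (PF.cons (PF.leaf (nat_lit 2948105) (nat_lit 375475) (nat_lit 55053249) (nat_lit 10280788) [(nat_lit 375475), (nat_lit 1399298), (nat_lit 0), (nat_lit 0)]) (PF.cons (PF.leaf (nat_lit 3205041) (nat_lit 396947) (nat_lit 54580186) (nat_lit 10298989) [(nat_lit 396947), (nat_lit 1435741), (nat_lit 0), (nat_lit 0)]) (PF.cons (PF.leaf (nat_lit 3482406) (nat_lit 416451) (nat_lit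 54073825) (nat_lit 10314950) [(nat_lit 416451), (nat_lit 1470682), (nat_lit 0), (nat_lit 0)]) (PF.cons (PF.leaf (nat_lit 3777451) (nat_lit 434298) (nat_lit 53539786) (nat_lit 10327999) [(nat_lit 434298), (nat_lit 1503832), (nat_lit 0), (nat_lit 0)]) (PF.cons (PF.leaf (nat_lit 4087862) (nat_lit 450703) (nat_lit 52982614) (nat_lit 10337635) [(nat_lit 450703), (nat_lit 1535047), (nat_lit 0), (nat_lit 0)]) (PF.cons (PF.leaf (nat_lit 4411699) (nat_lit
 465818) (nat_lit 52406135) (nat_lit 10343497) [(nat_lit 465818), (nat_lit 1564268), (nat_lit 0), (nat_lit 0)]) (PF.cons (PF.leaf (nat_lit 4747292) (nat_lit 479763) (nat_lit 51813651) (nat_lit 10345335) [(nat_lit 479763), (nat_lit 1591481), (nat_lit 0), (nat_lit 0)]) (PF.cons PF.nil PF.nil))))))))) (PF.cons (PF.cons (PF.leaf (nat_lit 3391888) (nat_lit 1467738) (nat_lit 53859733) (nat_lit 10313601) [(nat_lit 0), (nat_lit 1467738), (nat_lit 0), (nat_lit 0)]) (PF.cons (PF.leaf (nat_lit 3662833) (nat_lit 424758) (nat_lit 53361114)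 (nat_lit 10324512) [(nat_lit 424758), (nat_lit 1499213), (nat_lit 0), (nat_lit 0)]) (PF.cons (PF.leaf (nat_lit 3952870) (nat_lit 442030) (nat_lit 52833531) (nat_lit 10332578) [(nat_lit 442030), (nat_lit 1529320), (nat_lit 0), (nat_lit 0)]) (PF.cons (PF.leaf (nat_lit 4258760) (nat_lit 457837) (nat_lit 52282352) (nat_lit 10337321) [(nat_lit 457837), (nat_lit 1557813), (nat_lit 0), (nat_lit 0)]) (PF.cons (PF.leaf (nat_lit 4578316) (nat_lit 472355) (nat_lit 51711853) (nat_lit 10338408) [(nat_lit 472355), (nat_lit 1584565), (nat_lit 0), (nat_lit 0)]) (PF.cons (PF.leaf (nat_lit 4909678) (nat_lit 485713) (nat_lit 51125592) (nat_lit 10335616) [(nat_lit 485713),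
 (nat_lit 1609518), (nat_lit 0), (nat_lit 0)]) (PF.cons PF.nil PF.nil))))))) (PF.cons (PF.cons (PF.leaf (nat_lit 4129847) (nat_lit 1552582) (nat_lit 52119819) (nat_lit 10331245) [(nat_lit 0), (nat_lit 1552582), (nat_lit 0), (nat_lit 0)]) (PF.cons (PF.leaf (nat_lit 4429546) (nat_lit 464005) (nat_lit 51577883) (nat_lit 10331405) [(nat_lit 464005), (nat_lit 1578506), (nat_lit 0), (nat_lit 0)]) (PF.cons (PF.leaf (nat_lit 4743905) (nat_lit 478041) (nat_lit 51015884) (nat_lit 10328036) [(nat_lit 478041), (nat_lit 1602936), (nat_lit 0), (nat_lit 0)]) (PF.cons (PF.leaf (nat_lit 5070368) (nat_lit 490905) (nat_lit 50437854) (nat_lit 10320934) [(nat_lit 490905), (nat_lit 1625769), (nat_lit 0), (nat_lit 0)]) (PF.cons (PF.leaf (nat_lit 5407213) (nat_lit 502711) (nat_lit 49847104) (nat_lit 10309988) [(nat_lit 502711), (nat_lit 1646958), (nat_lit 0), (nat_lit 0)]) PF.nil))))) (PF.cons (PF.cons (PF.leaf (nat_lit 4909652) (nat_lit 1619538) (nat_lit 50318081) (nat_lit 10312577) [(nat_lit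 0), (nat_lit 1619538), (nat_lit 0), (nat_lit 0)]) (PF.cons (PF.leaf (nat_lit 5230035) (nat_lit 495350) (nat_lit 49750485) (nat_lit 10301508) [(nat_lit 495350), (nat_lit 1640367), (nat_lit 0), (nat_lit 0)]) (PF.cons
 (PF.leaf (nat_lit 5561516) (nat_lit 506742) (nat_lit 49169705) (nat_lit 10286752) [(nat_lit 506742), (nat_lit 1659717), (nat_lit 0), (nat_lit 0)]) (PF.cons PF.nil PF.nil)))) (PF.cons (PF.cons (PF.leaf (nat_lit 5715120) (nat_lit 1671043) (nat_lit 48494290) (nat_lit 10259304) [(nat_lit 0), (nat_lit 1671043), (nat_lit 0), (nat_lit 0)]) (PF.cons (PF.leaf (nat_lit 6049642) (nat_lit 520181) (nat_lit 47914696) (nat_lit 10237526) [(nat_lit 520181), (nat_lit 1687281), (nat_lit 0), (nat_lit 0)]) PF.nil)) (PF.cons PF.nil (PF.cons PF.nil PF.nil)))))))) (PF.cons (PF.cons (PF.cons (PF.leaf (nat_lit 3302353) (nat_lit 3505760) (nat_lit 53310630) (nat_lit 10292422) [(nat_lit 0), (nat_lit 0), (nat_lit 3505760), (nat_lit 0)]) (PF.cons (PF.leaf (nat_lit 3544956) (nat_lit 403118)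 (nat_lit 52866708) (nat_lit 10300024) [(nat_lit 403118), (nat_lit 0), (nat_lit 3538961), (nat_lit 0)]) (PF.cons (PF.leaf (nat_lit 3810964) (nat_lit 423054) (nat_lit 52385275) (nat_lit 10305461) [(nat_lit 423054), (nat_lit 0), (nat_lit 3571966), (nat_lit 0)]) (PF.cons (PF.leaf (nat_lit 4095874) (nat_lit 440891) (nat_lit 51874059) (nat_lit 10308148) [(nat_lit 440891), (nat_lit 0), (nat_lit 3603931), (nat_lit 0)]) (PF.cons
 (PF.leaf (nat_lit 4396797) (nat_lit 457011) (nat_lit 51338789) (nat_lit 10307668) [(nat_lit 457011), (nat_lit 0), (nat_lit 3634310), (nat_lit 0)]) (PF.cons (PF.leaf (nat_lit 4711433) (nat_lit 471671) (nat_lit 50783982) (nat_lit 10303731) [(nat_lit 471671), (nat_lit 0), (nat_lit 3662743), (nat_lit 0)]) (PF.cons (PF.leaf (nat_lit 5037854) (nat_lit 485053) (nat_lit 50213348) (nat_lit 10296146) [(nat_lit 485053), (nat_lit 0), (nat_lit 3688996), (nat_lit 0)]) (PF.cons PF.nil (PF.cons PF.nil PF.nil))))))))) (PF.cons (PF.cons (PF.leaf (nat_lit 3991799) (nat_lit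 1531043) (nat_lit 51671401) (nat_lit 10301724) [(nat_lit 0), (nat_lit 1531043), (nat_lit 3604643), (nat_lit 0)]) (PF.cons (PF.leaf (nat_lit 4269095) (nat_lit 446864) (nat_lit 51171724) (nat_lit 10300273) [(nat_lit 446864), (nat_lit 1557344), (nat_lit 3632606), (nat_lit 0)]) (PF.cons (PF.leaf (nat_lit 4563972) (nat_lit 462590) (nat_lit 50646321) (nat_lit 10295723) [(nat_lit 462590), (nat_lit 1582292), (nat_lit 3659293), (nat_lit 0)]) (PF.cons (PF.leaf (nat_lit 4873191) (nat_lit 476810) (nat_lit 50100564) (nat_lit 10287812) [(nat_lit 476810), (nat_lit 1605711), (nat_lit 3684291), (nat_lit 0)]) (PF.cons (PF.leaf (nat_lit 5194559)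
 (nat_lit 489736) (nat_lit 49538639) (nat_lit 10276376) [(nat_lit 489736), (nat_lit 1627516), (nat_lit 3707335), (nat_lit 0)]) (PF.cons (PF.leaf (nat_lit 5526288) (nat_lit 501518) (nat_lit 48963954) (nat_lit 10261324) [(nat_lit 501518), (nat_lit 1647680), (nat_lit 3728259), (nat_lit 0)]) (PF.cons PF.nil PF.nil))))))) (PF.cons (PF.cons (PF.leaf (nat_lit 4732656) (nat_lit 1599577) (nat_lit 49949784) (nat_lit 10278749) [(nat_lit 0), (nat_lit 1599577), (nat_lit 3681122), (nat_lit 0)]) (PF.cons (PF.leaf (nat_lit 5034899) (nat_lit 481113) (nat_lit 49415871) (nat_lit 10267208) [(nat_lit 481113), (nat_lit 1620875), (nat_lit 3702869), (nat_lit 0)]) (PF.cons (PF.leaf (nat_lit 5350406) (nat_lit 493688) (nat_lit 48864768) (nat_lit 10252249) [(nat_lit 493688), (nat_lit 1640764), (nat_lit 3722890), (nat_lit 0)]) (PF.cons (PF.leaf (nat_lit 5676676) (nat_lit 505095) (nat_lit 48300373) (nat_lit 10233806) [(nat_lit 505095), (nat_lit 1659177), (nat_lit 3740993), (nat_lit 0)]) (PF.cons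 PF.nil PF.nil))))) (PF.cons (PF.cons (PF.leaf (nat_lit 5506514) (nat_lit 1652568) (nat_lit 48191342) (nat_lit 10223924) [(nat_lit 0), (nat_lit 1652568), (nat_lit 3735839), (nat_lit 0)]) (PF.cons (PF.leaf (nat_lit
 5826211) (nat_lit 508025) (nat_lit 47639097) (nat_lit 10202424) [(nat_lit 508025), (nat_lit 1669324), (nat_lit 3751291), (nat_lit 0)]) (PF.cons (PF.leaf (nat_lit 6155789) (nat_lit 518084) (nat_lit 47076026) (nat_lit 10177558) [(nat_lit 518084), (nat_lit 1684722), (nat_lit 3764891), (nat_lit 0)]) (PF.cons PF.nil PF.nil)))) (PF.cons (PF.cons (PF.leaf (nat_lit 6299057) (nat_lit 1692177) (nat_lit 46429660) (nat_lit 10139853) [(nat_lit 0), (nat_lit 1692177), (nat_lit 3770586), (nat_lit 0)]) (PF.cons (PF.leaf (nat_lit 6630258) (nat_lit 528981) (nat_lit 45870996) (nat_lit 10109190) [(nat_lit 528981), (nat_lit 1704884), (nat_lit 3780106), (nat_lit 0)]) PF.nil)) (PF.cons PF.nil PF.nil)))))) (PF.cons (PF.cons (PF.cons (PF.leaf (nat_lit 4577377) (nat_lit 3662008) (nat_lit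 49541397) (nat_lit 10243397) [(nat_lit 0), (nat_lit 0), (nat_lit 3662008), (nat_lit 0)]) (PF.cons (PF.leaf (nat_lit 4858311) (nat_lit 464109) (nat_lit 49047827) (nat_lit 10231540) [(nat_lit 464109), (nat_lit 0), (nat_lit 3682667), (nat_lit 0)]) (PF.cons (PF.leaf (nat_lit 5155514) (nat_lit 478444) (nat_lit 48531390) (nat_lit 10216497) [(nat_lit 478444), (nat_lit 0), (nat_lit 3702017), (nat_lit 0)]) (PF.cons (PF.leaf (nat_lit
 5465720) (nat_lit 491256) (nat_lit 47997355) (nat_lit 10198176) [(nat_lit 491256), (nat_lit 0), (nat_lit 3719755), (nat_lit 0)]) (PF.cons (PF.leaf (nat_lit 5786811) (nat_lit 502781) (nat_lit 47449761) (nat_lit 10176543) [(nat_lit 502781), (nat_lit 0), (nat_lit 3735691), (nat_lit 0)]) (PF.cons PF.nil (PF.cons PF.nil PF.nil))))))) (PF.cons (PF.cons (PF.leaf (nat_lit 5315472) (nat_lit 1632758) (nat_lit 47858511) (nat_lit 10187084) [(nat_lit 0), (nat_lit 1632758), (nat_lit 3715228), (nat_lit 0)]) (PF.cons (PF.leaf (nat_lit 5618176) (nat_lit 494023)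 (nat_lit 47338004) (nat_lit 10165998) [(nat_lit 494023), (nat_lit 1650145), (nat_lit 3730320), (nat_lit 0)]) (PF.cons (PF.leaf (nat_lit 5932907) (nat_lit 505306) (nat_lit 46802718) (nat_lit 10141675) [(nat_lit 505306), (nat_lit 1666206), (nat_lit 3743799), (nat_lit 0)]) (PF.cons (PF.leaf (nat_lit 6257259) (nat_lit 515436) (nat_lit 46256379) (nat_lit 10114153) [(nat_lit 515436), (nat_lit 1680903), (nat_lit 3755533), (nat_lit 0)]) (PF.cons PF.nil PF.nil))))) (PF.cons (PF.cons (PF.leaf (nat_lit 6079437) (nat_lit 1674110) (nat_lit 46157661) (nat_lit 10103377) [(nat_lit 0), (nat_lit 1674110), (nat_lit 3749776), (nat_lit 0)]) (PF.cons (PF.leaf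
 (nat_lit 6396902) (nat_lit 517120) (nat_lit 45624492) (nat_lit 10073586) [(nat_lit 517120), (nat_lit 1687439), (nat_lit 3759367), (nat_lit 0)]) (PF.cons (PF.leaf (nat_lit 6723215) (nat_lit 526016) (nat_lit 45082402) (nat_lit 10040755) [(nat_lit 526016), (nat_lit 1699519), (nat_lit 3767291), (nat_lit 0)]) (PF.cons PF.nil PF.nil)))) (PF.cons (PF.cons (PF.leaf (nat_lit 6856557) (nat_lit 1703836) (nat_lit 44467204) (nat_lit 9995304) [(nat_lit 0), (nat_lit 1703836), (nat_lit 3767397), (nat_lit 0)]) (PF.cons PF.nil PF.nil)) (PF.cons PF.nil PF.nil))))) (PF.cons (PF.cons (PF.cons (PF.leaf (nat_lit 5876899) (nat_lit 3728657) (nat_lit 45857702) (nat_lit 10065137) [(nat_lit 0), (nat_lit 0), (nat_lit 3728657), (nat_lit 0)]) (PF.cons (PF.leaf (nat_lit 6178436) (nat_lit 503453) (nat_lit 45354208) (nat_lit 10036409) [(nat_lit 503453), (nat_lit 0), (nat_lit 3738247), (nat_lit 0)]) (PF.cons (PF.leaf (nat_lit 6490978) (nat_lit 513594) (nat_lit 44837952) (nat_lit 10004661) [(nat_lit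 513594), (nat_lit 0), (nat_lit 3746336), (nat_lit 0)]) (PF.cons (PF.leaf (nat_lit 6812150) (nat_lit 522604) (nat_lit 44312465) (nat_lit 9970004) [(nat_lit 522604), (nat_lit 0), (nat_lit 3752843), (nat_lit 0)]) (PF.cons
 PF.nil PF.nil))))) (PF.cons (PF.cons (PF.leaf (nat_lit 6628172) (nat_lit 1686346) (nat_lit 44223430) (nat_lit 9958797) [(nat_lit 0), (nat_lit 1686346), (nat_lit 3746745), (nat_lit 0)]) (PF.cons (PF.leaf (nat_lit 6942270) (nat_lit 523264) (nat_lit 43711622) (nat_lit 9922538) [(nat_lit 523264), (nat_lit 1696787), (nat_lit 3751533), (nat_lit 0)]) (PF.cons PF.nil (PF.cons PF.nil PF.nil)))) (PF.cons (PF.cons (PF.leaf (nat_lit 7388280) (nat_lit 1707860) (nat_lit 42609191) (nat_lit 9832401) [(nat_lit 0), (nat_lit 1707860), (nat_lit 3750499), (nat_lit 0)]) (PF.cons PF.nil PF.nil)) PF.nil))) (PF.cons (PF.cons (PF.cons (PF.leaf (nat_lit 7153067) (nat_lit 3730320) (nat_lit 42390934) (nat_lit 9796594) [(nat_lit 0), (nat_lit 0), (nat_lit 3730320), (nat_lit 0)]) (PF.cons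 (PF.leaf (nat_lit 7462975) (nat_lit 526978) (nat_lit 41901707) (nat_lit 9755396) [(nat_lit 526978), (nat_lit 0), (nat_lit 3731182), (nat_lit 0)]) (PF.cons PF.nil PF.nil))) (PF.cons (PF.cons (PF.leaf (nat_lit 7895215) (nat_lit 1705750) (nat_lit 40854928) (nat_lit 9656558) [(nat_lit 0), (nat_lit 1705750), (nat_lit 3722893), (nat_lit 0)]) PF.nil) PF.nil)) (PF.cons PF.nil (PF.cons PF.nil (PF.cons PF.nil PF.nil)))))))) (PF.cons
 (PF.cons (PF.cons (PF.cons (PF.leaf (nat_lit 4277964) (nat_lit 9201929) (nat_lit 47875128) (nat_lit 10031754) [(nat_lit 0), (nat_lit 0), (nat_lit 0), (nat_lit 9201929)]) (PF.cons (PF.leaf (nat_lit 4518162) (nat_lit 417190) (nat_lit 47474153) (nat_lit 10021106) [(nat_lit 417190), (nat_lit 0), (nat_lit 0), (nat_lit 9196362)]) (PF.cons (PF.leaf (nat_lit 4779892) (nat_lit 435616) (nat_lit 47041517) (nat_lit 10007666) [(nat_lit 435616), (nat_lit 0), (nat_lit 0), (nat_lit 9188397)]) (PF.cons (PF.leaf (nat_lit 5058526) (nat_lit 451746) (nat_lit 46584398)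 (nat_lit 9991329) [(nat_lit 451746), (nat_lit 0), (nat_lit 0), (nat_lit 9177846)]) (PF.cons (PF.leaf (nat_lit 5351154) (nat_lit 466037) (nat_lit 46108042) (nat_lit 9972032) [(nat_lit 466037), (nat_lit 0), (nat_lit 0), (nat_lit 9164587)]) (PF.cons (PF.leaf (nat_lit 5655550) (nat_lit 478798) (nat_lit 45616513) (nat_lit 9949751) [(nat_lit 478798), (nat_lit 0), (nat_lit 0), (nat_lit 9148552)]) (PF.cons (PF.leaf (nat_lit 5969819) (nat_lit 490251) (nat_lit 45113083) (nat_lit 9924498) [(nat_lit 490251), (nat_lit 0), (nat_lit 0), (nat_lit 9129718)]) (PF.cons (PF.leaf (nat_lit 6292457) (nat_lit 500563) (nat_lit 44600459) (nat_lit 9896312)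
 [(nat_lit 500563), (nat_lit 0), (nat_lit 0), (nat_lit 9108097)]) (PF.cons PF.nil (PF.cons PF.nil PF.nil)))))))))) (PF.cons (PF.cons (PF.leaf (nat_lit 4943430) (nat_lit 1552665) (nat_lit 46410203) (nat_lit 9978756) [(nat_lit 0), (nat_lit 1552665), (nat_lit 0), (nat_lit 9167187)]) (PF.cons (PF.leaf (nat_lit 5213577) (nat_lit 455278) (nat_lit 45965916) (nat_lit 9960134) [(nat_lit 455278), (nat_lit 1573263), (nat_lit 0), (nat_lit 9154219)]) (PF.cons (PF.leaf (nat_lit 5499425) (nat_lit 469295) (nat_lit 45500691) (nat_lit 9938544) [(nat_lit 469295), (nat_lit 1592420), (nat_lit 0), (nat_lit 9138564)]) (PF.cons (PF.leaf (nat_lit 5797773) (nat_lit 481737) (nat_lit 45019346) (nat_lit 9914009) [(nat_lit 481737), (nat_lit 1610054), (nat_lit 0), (nat_lit 9120188)]) (PF.cons (PF.leaf (nat_lit 6106535) (nat_lit 492853) (nat_lit 44525577) (nat_lit 9886569) [(nat_lit 492853), (nat_lit 1626157), (nat_lit 0), (nat_lit 9099093)]) (PF.cons (PF.leaf (nat_lit 6423974) (nat_lit 502826) (nat_lit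 44022334) (nat_lit 9856285) [(nat_lit 502826), (nat_lit 1640753), (nat_lit 0), (nat_lit 9075307)]) (PF.cons PF.nil (PF.cons PF.nil (PF.cons PF.nil PF.nil))))))))) (PF.cons (PF.cons (PF.leaf (nat_lit 5649269)
 (nat_lit 1602825) (nat_lit 44892161) (nat_lit 9901714) [(nat_lit 0), (nat_lit 1602825), (nat_lit 0), (nat_lit 9109286)]) (PF.cons (PF.leaf (nat_lit 5940201) (nat_lit 483974) (nat_lit 44423149) (nat_lit 9875239) [(nat_lit 483974), (nat_lit 1618794), (nat_lit 0), (nat_lit 9088860)]) (PF.cons (PF.leaf (nat_lit 6242720) (nat_lit 494857) (nat_lit 43940611) (nat_lit 9845893) [(nat_lit 494857), (nat_lit 1633413), (nat_lit 0), (nat_lit 9065765)]) (PF.cons (PF.leaf (nat_lit 6554458) (nat_lit 504569) (nat_lit 43447936) (nat_lit 9813766) [(nat_lit 504569), (nat_lit 1646673), (nat_lit 0), (nat_lit 9040055)]) (PF.cons (PF.leaf (nat_lit 6873815) (nat_lit 513263) (nat_lit 42947809) (nat_lit 9778959) [(nat_lit 513263), (nat_lit 1658594), (nat_lit 0), (nat_lit 9011799)]) (PF.cons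 PF.nil (PF.cons PF.nil PF.nil))))))) (PF.cons (PF.cons (PF.leaf (nat_lit 6379502) (nat_lit 1639609) (nat_lit 43357625) (nat_lit 9802543) [(nat_lit 0), (nat_lit 1639609), (nat_lit 0), (nat_lit 9029816)]) (PF.cons (PF.leaf (nat_lit 6684515) (nat_lit 505787) (nat_lit 42876903) (nat_lit 9768846) [(nat_lit 505787), (nat_lit 1651613), (nat_lit 0), (nat_lit 9002435)]) (PF.cons (PF.leaf (nat_lit 6998055) (nat_lit 514279) (nat_lit
 42387967) (nat_lit 9732523) [(nat_lit 514279), (nat_lit 1662396), (nat_lit 0), (nat_lit 8972574)]) (PF.cons (PF.leaf (nat_lit 7318276) (nat_lit 521857) (nat_lit 41893269) (nat_lit 9693702) [(nat_lit 521857), (nat_lit 1671978), (nat_lit 0), (nat_lit 8940333)]) (PF.cons PF.nil PF.nil))))) (PF.cons (PF.cons (PF.leaf (nat_lit 7122284) (nat_lit 1665354) (nat_lit 41832098) (nat_lit 9684003) [(nat_lit 0), (nat_lit 1665354), (nat_lit 0), (nat_lit 8931291)]) (PF.cons (PF.leaf (nat_lit 7436295) (nat_lit 522251) (nat_lit 41348993) (nat_lit 9643971) [(nat_lit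 522251), (nat_lit 1673963), (nat_lit 0), (nat_lit 8897743)]) (PF.cons PF.nil (PF.cons PF.nil PF.nil)))) (PF.cons (PF.cons (PF.leaf (nat_lit 7868639) (nat_lit 1681909) (nat_lit 40333494) (nat_lit 9549180) [(nat_lit 0), (nat_lit 1681909), (nat_lit 0), (nat_lit 8816592)]) (PF.cons PF.nil PF.nil)) (PF.cons PF.nil (PF.cons PF.nil PF.nil)))))))) (PF.cons (PF.cons (PF.cons (PF.leaf (nat_lit 5478653) (nat_lit 3621385) (nat_lit 44554742) (nat_lit 9860783) [(nat_lit 0), (nat_lit 0), (nat_lit 3621385), (nat_lit 9071900)]) (PF.cons (PF.leaf (nat_lit 5750074) (nat_lit 466781) (nat_lit 44120945) (nat_lit 9835688) [(nat_lit 466781), (nat_lit 0),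
 (nat_lit 3632912), (nat_lit 9052484)]) (PF.cons (PF.leaf (nat_lit 6036116) (nat_lit 479568) (nat_lit 43668450) (nat_lit 9807662) [(nat_lit 479568), (nat_lit 0), (nat_lit 3643162), (nat_lit 9030401)]) (PF.cons (PF.leaf (nat_lit 6333582) (nat_lit 490799) (nat_lit 43201900) (nat_lit 9776828) [(nat_lit 490799), (nat_lit 0), (nat_lit 3651964), (nat_lit 9005721)]) (PF.cons (PF.leaf (nat_lit 6640446) (nat_lit 500740) (nat_lit 42724803) (nat_lit 9743302) [(nat_lit 500740), (nat_lit 0), (nat_lit 3659227), (nat_lit 8978517)]) (PF.cons (PF.leaf (nat_lit 6955031) (nat_lit 509581) (nat_lit 42239923) (nat_lit 9707198) [(nat_lit 509581), (nat_lit 0), (nat_lit 3664911), (nat_lit 8948873)]) (PF.cons PF.nil PF.nil))))))) (PF.cons (PF.cons (PF.leaf (nat_lit 6177857) (nat_lit 1619482) (nat_lit 43085567) (nat_lit 9763779) [(nat_lit 0), (nat_lit 1619482), (nat_lit 3645980), (nat_lit 8994002)]) (PF.cons (PF.leaf (nat_lit 6467638) (nat_lit 491893) (nat_lit 42632110) (nat_lit 9731594) [(nat_lit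 491893), (nat_lit 1632427), (nat_lit 3652940), (nat_lit 8967846)]) (PF.cons (PF.leaf (nat_lit 6768044) (nat_lit 501695) (nat_lit 42166887) (nat_lit 9696719) [(nat_lit 501695), (nat_lit 1644122), (nat_lit 3658502),
 (nat_lit 8939188)]) (PF.cons (PF.leaf (nat_lit 7076774) (nat_lit 510359) (nat_lit 41693101) (nat_lit 9659305) [(nat_lit 510359), (nat_lit 1654577), (nat_lit 3662610), (nat_lit 8908139)]) (PF.cons (PF.leaf (nat_lit 7392290) (nat_lit 518046) (nat_lit 41213257) (nat_lit 9619491) [(nat_lit 518046), (nat_lit 1663822), (nat_lit 3665247), (nat_lit 8874809)]) PF.nil))))) (PF.cons (PF.cons (PF.leaf (nat_lit 6896427) (nat_lit 1647571) (nat_lit 41611685) (nat_lit 9647963) [(nat_lit 0), (nat_lit 1647571), (nat_lit 3656299), (nat_lit 8897721)]) (PF.cons (PF.leaf (nat_lit 7198315) (nat_lit 510676) (nat_lit 41150193) (nat_lit 9609491) [(nat_lit 510676), (nat_lit 1656997), (nat_lit 3658951), (nat_lit 8865504)]) (PF.cons (PF.leaf (nat_lit 7507933) (nat_lit 518230) (nat_lit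 40681800) (nat_lit 9568648) [(nat_lit 518230), (nat_lit 1665309), (nat_lit 3660237), (nat_lit 8831045)]) (PF.cons PF.nil PF.nil)))) (PF.cons (PF.cons (PF.leaf (nat_lit 7623776) (nat_lit 1666105) (nat_lit 40154653) (nat_lit 9516153) [(nat_lit 0), (nat_lit 1666105), (nat_lit 3654050), (nat_lit 8785639)]) (PF.cons (PF.leaf (nat_lit 7933123) (nat_lit 524585) (nat_lit 39693282) (nat_lit 9472323) [(nat_lit 524585), (nat_lit 1672535),
 (nat_lit 3652822), (nat_lit 8748191)]) PF.nil)) (PF.cons PF.nil (PF.cons PF.nil PF.nil)))))) (PF.cons (PF.cons (PF.cons (PF.leaf (nat_lit 6686826) (nat_lit 3634833) (nat_lit 41367039) (nat_lit 9609780) [(nat_lit 0), (nat_lit 0), (nat_lit 3634833), (nat_lit 8862326)]) (PF.cons (PF.leaf (nat_lit 6974416) (nat_lit 497298) (nat_lit 40930815) (nat_lit 9573133) [(nat_lit 497298), (nat_lit 0), (nat_lit 3637957), (nat_lit 8831651)]) (PF.cons (PF.leaf (nat_lit 7271828) (nat_lit 506149) (nat_lit 40484297) (nat_lit 9533987) [(nat_lit 506149), (nat_lit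 0), (nat_lit 3639790), (nat_lit 8798648)]) (PF.cons (PF.leaf (nat_lit 7576793) (nat_lit 513897) (nat_lit 40030500) (nat_lit 9492532) [(nat_lit 513897), (nat_lit 0), (nat_lit 3640308), (nat_lit 8763471)]) (PF.cons PF.nil PF.nil))))) (PF.cons (PF.cons (PF.leaf (nat_lit 7392200) (nat_lit 1649199) (nat_lit 39957248) (nat_lit 9481310) [(nat_lit 0), (nat_lit 1649199), (nat_lit 3633971), (nat_lit 8753112)]) (PF.cons (PF.leaf (nat_lit 7690274) (nat_lit 513477) (nat_lit 39515796) (nat_lit 9439225) [(nat_lit 513477), (nat_lit 1656457), (nat_lit 3633335), (nat_lit 8717183)]) (PF.cons (PF.leaf (nat_lit 7995402) (nat_lit 520213) (nat_lit 39068506) (nat_lit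
 9395004) [(nat_lit 520213), (nat_lit 1662697), (nat_lit 3631471), (nat_lit 8679234)]) (PF.cons PF.nil PF.nil)))) (PF.cons (PF.cons (PF.leaf (nat_lit 8103380) (nat_lit 1661748) (nat_lit 38569696) (nat_lit 9339770) [(nat_lit 0), (nat_lit 1661748), (nat_lit 3622468), (nat_lit 8630912)]) (PF.cons PF.nil PF.nil)) (PF.cons PF.nil (PF.cons PF.nil PF.nil))))) (PF.cons (PF.cons (PF.cons (PF.leaf (nat_lit 7867488) (nat_lit 3603269) (nat_lit 38392867) (nat_lit 9306419) [(nat_lit 0), (nat_lit 0), (nat_lit 3603269), (nat_lit 8599718)]) (PF.cons (PF.leaf (nat_lit 8161240) (nat_lit 514562) (nat_lit 37971685) (nat_lit 9261685) [(nat_lit 514562), (nat_lit 0), (nat_lit 3599955), (nat_lit 8561014)]) (PF.cons PF.nil (PF.cons PF.nil PF.nil)))) (PF.cons (PF.cons (PF.leaf (nat_lit 8562125) (nat_lit 1653305) (nat_lit 37074227) (nat_lit 9158046) [(nat_lit 0), (nat_lit 1653305), (nat_lit 3584338), (nat_lit 8470218)]) (PF.cons PF.nil PF.nil)) (PF.cons PF.nil PF.nil))) (PF.cons (PF.cons (PF.cons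 (PF.leaf (nat_lit 9001132) (nat_lit 3541222) (nat_lit 35664397) (nat_lit 8973500) [(nat_lit 0), (nat_lit 0), (nat_lit 3541222), (nat_lit 8306024)]) (PF.cons PF.nil PF.nil)) (PF.cons PF.nil PF.nil)) (PF.cons PF.nil
 PF.nil)))))) (PF.cons (PF.cons (PF.cons (PF.cons (PF.leaf (nat_lit 6269089) (nat_lit 8685359) (nat_lit 40318025) (nat_lit 9420069) [(nat_lit 0), (nat_lit 0), (nat_lit 0), (nat_lit 8685359)]) (PF.cons (PF.leaf (nat_lit 6530146) (nat_lit 462553) (nat_lit 39939497) (nat_lit 9388449) [(nat_lit 462553), (nat_lit 0), (nat_lit 0), (nat_lit 8659156)]) (PF.cons (PF.leaf (nat_lit 6804510) (nat_lit 474098) (nat_lit 39545395) (nat_lit 9354169) [(nat_lit 474098), (nat_lit 0), (nat_lit 0), (nat_lit 8630525)]) (PF.cons (PF.leaf (nat_lit 7089139) (nat_lit 484098) (nat_lit 39139757) (nat_lit 9317463) [(nat_lit 484098), (nat_lit 0), (nat_lit 0), (nat_lit 8599647)]) (PF.cons (PF.leaf (nat_lit 7382047) (nat_lit 492833) (nat_lit 38725604) (nat_lit 9278524) [(nat_lit 492833),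 (nat_lit 0), (nat_lit 0), (nat_lit 8566674)]) (PF.cons (PF.leaf (nat_lit 7681695) (nat_lit 500503) (nat_lit 38305293) (nat_lit 9237518) [(nat_lit 500503), (nat_lit 0), (nat_lit 0), (nat_lit 8531741)]) (PF.cons PF.nil PF.nil))))))) (PF.cons (PF.cons (PF.leaf (nat_lit 6931284) (nat_lit 1587420) (nat_lit 39042419) (nat_lit 9304061) [(nat_lit 0), (nat_lit 1587420), (nat_lit 0), (nat_lit 8587455)]) (PF.cons (PF.leaf (nat_lit 7208264)
 (nat_lit 484093) (nat_lit 38648733) (nat_lit 9266845) [(nat_lit 484093), (nat_lit 1597287), (nat_lit 0), (nat_lit 8555926)]) (PF.cons (PF.leaf (nat_lit 7494825) (nat_lit 492765) (nat_lit 38245380) (nat_lit 9227353) [(nat_lit 492765), (nat_lit 1605991), (nat_lit 0), (nat_lit 8522277)]) (PF.cons (PF.leaf (nat_lit 7788760) (nat_lit 500332) (nat_lit 37835104) (nat_lit 9185789) [(nat_lit 500332), (nat_lit 1613566), (nat_lit 0), (nat_lit 8486677)]) (PF.cons (PF.leaf (nat_lit 8088627) (nat_lit 506962) (nat_lit 37420031) (nat_lit 9142327) [(nat_lit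 506962), (nat_lit 1620062), (nat_lit 0), (nat_lit 8449271)]) PF.nil))))) (PF.cons (PF.cons (PF.leaf (nat_lit 7608705) (nat_lit 1606631) (nat_lit 37767832) (nat_lit 9174765) [(nat_lit 0), (nat_lit 1606631), (nat_lit 0), (nat_lit 8476475)]) (PF.cons (PF.leaf (nat_lit 7895982) (nat_lit 499775) (nat_lit 37368541) (nat_lit 9132851) [(nat_lit 499775), (nat_lit 1613421), (nat_lit 0), (nat_lit 8440400)]) (PF.cons (PF.leaf (nat_lit 8190175) (nat_lit 506339) (nat_lit 36963650) (nat_lit 9089024) [(nat_lit 506339), (nat_lit 1619211), (nat_lit 0), (nat_lit 8402517)]) (PF.cons PF.nil PF.nil)))) (PF.cons (PF.cons (PF.leaf (nat_lit 8292302) (nat_lit 1617852)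
 (nat_lit 36511102) (nat_lit 9034694) [(nat_lit 0), (nat_lit 1617852), (nat_lit 0), (nat_lit 8354728)]) (PF.cons (PF.leaf (nat_lit 8585784) (nat_lit 511065) (nat_lit 36112755) (nat_lit 8988944) [(nat_lit 511065), (nat_lit 1622091), (nat_lit 0), (nat_lit 8314886)]) PF.nil)) (PF.cons PF.nil PF.nil))))) (PF.cons (PF.cons (PF.cons (PF.leaf (nat_lit 7396713) (nat_lit 3516504) (nat_lit 37567504) (nat_lit 9138821) [(nat_lit 0), (nat_lit 0), (nat_lit 3516504), (nat_lit 8442991)]) (PF.cons (PF.leaf (nat_lit 7671046) (nat_lit 486907) (nat_lit 37189633) (nat_lit 9099041) [(nat_lit 486907), (nat_lit 0), (nat_lit 3515663), (nat_lit 8408783)]) (PF.cons (PF.leaf (nat_lit 7954305) (nat_lit 494775) (nat_lit 36803204) (nat_lit 9057146) [(nat_lit 494775), (nat_lit 0), (nat_lit 3513699), (nat_lit 8372606)]) (PF.cons (PF.leaf (nat_lit 8244318) (nat_lit 501578) (nat_lit 36410795) (nat_lit 9013363) [(nat_lit 501578), (nat_lit 0), (nat_lit 3510621), (nat_lit 8334648)]) (PF.cons PF.nil PF.nil)))))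 (PF.cons (PF.cons (PF.leaf (nat_lit 8061307) (nat_lit 1601892) (nat_lit 36350278) (nat_lit 9002718) [(nat_lit 0), (nat_lit 1601892), (nat_lit 3504397), (nat_lit 8324763)]) (PF.cons (PF.leaf (nat_lit 8344689)
 (nat_lit 500480) (nat_lit 35968710) (nat_lit 8958862) [(nat_lit 500480), (nat_lit 1607012), (nat_lit 3500537), (nat_lit 8286605)]) (PF.cons (PF.leaf (nat_lit 8634439) (nat_lit 506369) (nat_lit 35582313) (nat_lit 8913274) [(nat_lit 506369), (nat_lit 1611219), (nat_lit 3495647), (nat_lit 8246808)]) (PF.cons PF.nil PF.nil)))) (PF.cons (PF.cons (PF.leaf (nat_lit 8729942) (nat_lit 1608637) (nat_lit 35154045) (nat_lit 8857866) [(nat_lit 0), (nat_lit 1608637), (nat_lit 3484167), (nat_lit 8197729)]) (PF.cons PF.nil PF.nil)) PF.nil))) (PF.cons (PF.cons (PF.cons (PF.leaf (nat_lit 8496293) (nat_lit 3466364) (nat_lit 35009714) (nat_lit 8827642) [(nat_lit 0), (nat_lit 0), (nat_lit 3466364), (nat_lit 8169363)]) (PF.cons (PF.leaf (nat_lit 8775456) (nat_lit 499940) (nat_lit 34645681)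 (nat_lit 8782464) [(nat_lit 499940), (nat_lit 0), (nat_lit 3460633), (nat_lit 8129729)]) (PF.cons PF.nil PF.nil))) (PF.cons (PF.cons (PF.leaf (nat_lit 9149871) (nat_lit 1596645) (nat_lit 33872459) (nat_lit 8679835) [(nat_lit 0), (nat_lit 1596645), (nat_lit 3441100), (nat_lit 8038835)]) PF.nil) PF.nil)) (PF.cons PF.nil (PF.cons PF.nil PF.nil))))) (PF.cons (PF.cons (PF.cons (PF.cons (PF.leaf (nat_lit 8028558) (nat_lit
 8030522) (nat_lit 34337782) (nat_lit 8679462) [(nat_lit 0), (nat_lit 0), (nat_lit 0), (nat_lit 8030522)]) (PF.cons (PF.leaf (nat_lit 8290554) (nat_lit 474347) (nat_lit 34009304) (nat_lit 8639151) [(nat_lit 474347), (nat_lit 0), (nat_lit 0), (nat_lit 7995336)]) (PF.cons (PF.leaf (nat_lit 8560801) (nat_lit 481443) (nat_lit 33673551) (nat_lit 8597017) [(nat_lit 481443), (nat_lit 0), (nat_lit 0), (nat_lit 7958452)]) (PF.cons (PF.leaf (nat_lit 8837189) (nat_lit 487518) (nat_lit 33332736) (nat_lit 8553299) [(nat_lit 487518), (nat_lit 0), (nat_lit 0), (nat_lit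 7920073)]) (PF.cons PF.nil PF.nil))))) (PF.cons (PF.cons (PF.leaf (nat_lit 8657047) (nat_lit 1550225) (nat_lit 33282414) (nat_lit 8543467) [(nat_lit 0), (nat_lit 1550225), (nat_lit 0), (nat_lit 7910901)]) (PF.cons (PF.leaf (nat_lit 8927070) (nat_lit 485994) (nat_lit 32951018) (nat_lit 8499992) [(nat_lit 485994), (nat_lit 1553878), (nat_lit 0), (nat_lit 7872642)]) (PF.cons PF.nil (PF.cons PF.nil PF.nil)))) (PF.cons (PF.cons (PF.leaf (nat_lit 9288527) (nat_lit 1553159) (nat_lit 32245611) (nat_lit 8401456) [(nat_lit 0), (nat_lit 1553159), (nat_lit 0), (nat_lit 7785142)]) (PF.cons PF.nil PF.nil)) PF.nil))) (PF.cons (PF.cons (PF.cons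
 (PF.leaf (nat_lit 9058803) (nat_lit 3328519) (nat_lit 32126787) (nat_lit 8374418) [(nat_lit 0), (nat_lit 0), (nat_lit 3328519), (nat_lit 7759695)]) (PF.cons (PF.leaf (nat_lit 9324803) (nat_lit 484452) (nat_lit 31810334) (nat_lit 8330399) [(nat_lit 484452), (nat_lit 0), (nat_lit 3321432), (nat_lit 7720731)]) PF.nil)) (PF.cons PF.nil PF.nil)) (PF.cons PF.nil PF.nil))) (PF.cons (PF.cons (PF.cons (PF.cons (PF.leaf (nat_lit 9568874) (nat_lit 7376452) (nat_lit 29650859) (nat_lit 7952144) [(nat_lit 0), (nat_lit 0), (nat_lit 0), (nat_lit 7376452)]) (PF.cons PF.nil PF.nil)) (PF.cons PF.nil PF.nil)) (PF.cons PF.nil PF.nil)) (PF.cons PF.nil (PF.cons PF.nil (PF.cons PF.nil PF.nil))))))))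

def p15_23_1_0 : pfC (piC [(nat_lit 38167130), (nat_lit 25010362), (nat_lit 18643303), (nat_lit 12552662)] (nat_lit 10498223)) p15_23_1 (nat_lit 4) (nat_lit 0) (nat_lit 1) = true := by decide +kernel
def p15_23_1_1 : pfC (piC [(nat_lit 38167130), (nat_lit 25010362), (nat_lit 18643303), (nat_lit 12552662)] (nat_lit 10498223)) p15_23_1 (nat_lit 4) (nat_lit 1) (nat_lit 2) = true := by decide +kernel
def p15_23_1_2 : pfC (piC [(nat_lit 38167130), (nat_lit 25010362), (nat_lit 18643303), (nat_lit 12552662)] (nat_lit 10498223)) p15_23_1 (nat_lit 4) (nat_lit 2) (nat_lit 3) = true := by decide +kernel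
def p15_23_1_3 : pfC (piC [(nat_lit 38167130), (nat_lit 25010362), (nat_lit 18643303), (nat_lit 12552662)] (nat_lit 10498223)) p15_23_1 (nat_lit 4) (nat_lit 3) (nat_lit 4) = true := by decide +kernel
def p15_23_1_4 : pfC (piC [(nat_lit 38167130), (nat_lit 25010362), (nat_lit 18643303), (nat_lit 12552662)] (nat_lit 10498223)) p15_23_1 (nat_lit 4) (nat_lit 4) (nat_lit 5) = true := by decide +kernel
def p15_23_1_5 : pfC (piC [(nat_lit 38167130), (nat_lit 25010362), (nat_lit 18643303), (nat_lit 12552662)] (nat_lit 10498223)) p15_23_1 (nat_lit 4) (nat_lit 5) (nat_lit 6) = true := by decide +kernel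
def p15_23_1_6 : pfC (piC [(nat_lit 38167130), (nat_lit 25010362), (nat_lit 18643303), (nat_lit 12552662)] (nat_lit 10498223)) p15_23_1 (nat_lit 4) (nat_lit 6) (nat_lit 7) = true := by decide +kernel
def p15_23_1_7 : pfC (piC [(nat_lit 38167130), (nat_lit 25010362), (nat_lit 18643303), (nat_lit 12552662)] (nat_lit 10498223)) p15_23_1 (nat_lit 4) (nat_lit 7) (nat_lit 8) = true := by decide +kernel
def p15_23_1_8 : pfC (piC [(nat_lit 38167130), (nat_lit 25010362), (nat_lit 18643303), (nat_lit 12552662)] (nat_lit 10498223)) p15_23_1 (nat_lit 4) (nat_lit 8) (nat_lit 9) = true := by decide +kernel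
def p15_23_1_9 : pfC (piC [(nat_lit 38167130), (nat_lit 25010362), (nat_lit 18643303), (nat_lit 12552662)] (nat_lit 10498223)) p15_23_1 (nat_lit 4) (nat_lit 9) (nat_lit 10) = true := by decide +kernel
def p15_23_1_10 : pfC (piC [(nat_lit 38167130), (nat_lit 25010362), (nat_lit 18643303), (nat_lit 12552662)] (nat_lit 10498223)) p15_23_1 (nat_lit 4) (nat_lit 10) (nat_lit 11) = true := by decide +kernel
def p15_23_1_11 : pfC (piC [(nat_lit 38167130), (nat_lit 25010362), (nat_lit 18643303), (nat_lit 12552662)] (nat_lit 10498223)) p15_23_1 (nat_lit 4) (nat_lit 11) (nat_lit 12) = true := by decide +kernel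
def p15_23_1_12 : pfC (piC [(nat_lit 38167130), (nat_lit 25010362), (nat_lit 18643303), (nat_lit 12552662)] (nat_lit 10498223)) p15_23_1 (nat_lit 4) (nat_lit 12) (nat_lit 13) = true := by decide +kernel
def p15_23_1_13 : pfC (piC [(nat_lit 38167130), (nat_lit 25010362), (nat_lit 18643303), (nat_lit 12552662)] (nat_lit 10498223)) p15_23_1 (nat_lit 4) (nat_lit 13) (nat_lit 14) = true := by decide +kernel
def p15_23_1_14 : pfC (piC [(nat_lit 38167130), (nat_lit 25010362), (nat_lit 18643303), (nat_lit 12552662)] (nat_lit 10498223)) p15_23_1 (nat_lit 4) (nat_lit 14) (nat_lit 15) = true := by decide +kernel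
def p15_23_1_15 : pfC (piC [(nat_lit 38167130), (nat_lit 25010362), (nat_lit 18643303), (nat_lit 12552662)] (nat_lit 10498223)) p15_23_1 (nat_lit 4) (nat_lit 15) (nat_lit 16) = true := by decide +kernel
def p15_23_1_16 : pfC (piC [(nat_lit 38167130), (nat_lit 25010362), (nat_lit 18643303), (nat_lit 12552662)] (nat_lit 10498223)) p15_23_1 (nat_lit 4) (nat_lit 16) (nat_lit 17) = true := by decide +kernel
def p15_23_1_17 : pfC (piC [(nat_lit 38167130), (nat_lit 25010362), (nat_lit 18643303), (nat_lit 12552662)] (nat_lit 10498223)) p15_23_1 (nat_lit 4) (nat_lit 17) (nat_lit 18) = true := by decide +kernel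
def p15_23_1_18 : pfC (piC [(nat_lit 38167130), (nat_lit 25010362), (nat_lit 18643303), (nat_lit 12552662)] (nat_lit 10498223)) p15_23_1 (nat_lit 4) (nat_lit 18) (nat_lit 19) = true := by decide +kernel
def p15_23_1_19 : pfC (piC [(nat_lit 38167130), (nat_lit 25010362), (nat_lit 18643303), (nat_lit 12552662)] (nat_lit 10498223)) p15_23_1 (nat_lit 4) (nat_lit 19) (nat_lit 20) = true := by decide +kernel
def p15_23_1_20 : pfC (piC [(nat_lit 38167130), (nat_lit 25010362), (nat_lit 18643303), (nat_lit 12552662)] (nat_lit 10498223)) p15_23_1 (nat_lit 4) (nat_lit 20) (nat_lit 21) = true := by decide +kernel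
def p15_23_1_21 : pfC (piC [(nat_lit 38167130), (nat_lit 25010362), (nat_lit 18643303), (nat_lit 12552662)] (nat_lit 10498223)) p15_23_1 (nat_lit 4) (nat_lit 21) (nat_lit 22) = true := by decide +kernel
def p15_23_1_22 : pfC (piC [(nat_lit 38167130), (nat_lit 25010362), (nat_lit 18643303), (nat_lit 12552662)] (nat_lit 10498223)) p15_23_1 (nat_lit 4) (nat_lit 22) (nat_lit 23) = true := by decide +kernel
def p15_23_1_23 : pfC (piC [(nat_lit 38167130), (nat_lit 25010362), (nat_lit 18643303), (nat_lit 12552662)] (nat_lit 10498223)) p15_23_1 (nat_lit 4) (nat_lit 23) (nat_lit 24) = true := by decide +kernel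
def p15_23_1_24 : pfC (piC [(nat_lit 38167130), (nat_lit 25010362), (nat_lit 18643303), (nat_lit 12552662)] (nat_lit 10498223)) p15_23_1 (nat_lit 4) (nat_lit 24) (nat_lit 25) = true := by decide +kernel
def p15_23_1_25 : pfC (piC [(nat_lit 38167130), (nat_lit 25010362), (nat_lit 18643303), (nat_lit 12552662)] (nat_lit 10498223)) p15_23_1 (nat_lit 4) (nat_lit 25) (nat_lit 26) = true := by decide +kernel
def p15_23_1_26 : pfC (piC [(nat_lit 38167130), (nat_lit 25010362), (nat_lit 18643303), (nat_lit 12552662)] (nat_lit 10498223)) p15_23_1 (nat_lit 4) (nat_lit 26) (nat_lit 27) = true := by decide +kernel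
def p15_23_1_27 : pfC (piC [(nat_lit 38167130), (nat_lit 25010362), (nat_lit 18643303), (nat_lit 12552662)] (nat_lit 10498223)) p15_23_1 (nat_lit 4) (nat_lit 27) (nat_lit 28) = true := by decide +kernel
def p15_23_1_28 : pfC (piC [(nat_lit 38167130), (nat_lit 25010362), (nat_lit 18643303), (nat_lit 12552662)] (nat_lit 10498223)) p15_23_1 (nat_lit 4) (nat_lit 28) (nat_lit 29) = true := by decide +kernel
def p15_23_1_29 : pfC (piC [(nat_lit 38167130), (nat_lit 25010362), (nat_lit 18643303), (nat_lit 12552662)] (nat_lit 10498223)) p15_23_1 (nat_lit 4) (nat_lit 29) (nat_lit 30) = true := by decide +kernel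
def p15_23_1_30 : pfC (piC [(nat_lit 38167130), (nat_lit 25010362), (nat_lit 18643303), (nat_lit 12552662)] (nat_lit 10498223)) p15_23_1 (nat_lit 4) (nat_lit 30) (nat_lit 31) = true := by decide +kernel
def p15_23_1_31 : pfC (piC [(nat_lit 38167130), (nat_lit 25010362), (nat_lit 18643303), (nat_lit 12552662)] (nat_lit 10498223)) p15_23_1 (nat_lit 4) (nat_lit 31) (nat_lit 32) = true := by decide +kernel
def p15_23_1_32 : pfC (piC [(nat_lit 38167130), (nat_lit 25010362), (nat_lit 18643303), (nat_lit 12552662)] (nat_lit 10498223)) p15_23_1 (nat_lit 4) (nat_lit 32) (nat_lit 33) = true := by decide +kernel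
def p15_23_1_33 : pfC (piC [(nat_lit 38167130), (nat_lit 25010362), (nat_lit 18643303), (nat_lit 12552662)] (nat_lit 10498223)) p15_23_1 (nat_lit 4) (nat_lit 33) (nat_lit 34) = true := by decide +kernel
def p15_23_1_34 : pfC (piC [(nat_lit 38167130), (nat_lit 25010362), (nat_lit 18643303), (nat_lit 12552662)] (nat_lit 10498223)) p15_23_1 (nat_lit 4) (nat_lit 34) (nat_lit 35) = true := by decide +kernel
def p15_23_1_35 : pfC (piC [(nat_lit 38167130), (nat_lit 25010362), (nat_lit 18643303), (nat_lit 12552662)] (nat_lit 10498223)) p15_23_1 (nat_lit 4) (nat_lit 35) (nat_lit 36) = true := by decide +kernel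
def p15_23_1_36 : pfC (piC [(nat_lit 38167130), (nat_lit 25010362), (nat_lit 18643303), (nat_lit 12552662)] (nat_lit 10498223)) p15_23_1 (nat_lit 4) (nat_lit 36) (nat_lit 37) = true := by decide +kernel
def p15_23_1_37 : pfC (piC [(nat_lit 38167130), (nat_lit 25010362), (nat_lit 18643303), (nat_lit 12552662)] (nat_lit 10498223)) p15_23_1 (nat_lit 4) (nat_lit 37) (nat_lit 38) = true := by decide +kernel
def p15_23_1_38 : pfC (piC [(nat_lit 38167130), (nat_lit 25010362), (nat_lit 18643303), (nat_lit 12552662)] (nat_lit 10498223)) p15_23_1 (nat_lit 4) (nat_lit 38) (nat_lit 39) = true := by decide +kernel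
def p15_23_1_39 : pfC (piC [(nat_lit 38167130), (nat_lit 25010362), (nat_lit 18643303), (nat_lit 12552662)] (nat_lit 10498223)) p15_23_1 (nat_lit 4) (nat_lit 39) (nat_lit 40) = true := by decide +kernel
def p15_23_1_40 : pfC (piC [(nat_lit 38167130), (nat_lit 25010362), (nat_lit 18643303), (nat_lit 12552662)] (nat_lit 10498223)) p15_23_1 (nat_lit 4) (nat_lit 40) (nat_lit 41) = true := by decide +kernel
def p15_23_1_41 : pfC (piC [(nat_lit 38167130), (nat_lit 25010362), (nat_lit 18643303), (nat_lit 12552662)] (nat_lit 10498223)) p15_23_1 (nat_lit 4) (nat_lit 41) (nat_lit 42) = true := by decide +kernel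
def p15_23_1_42 : pfC (piC [(nat_lit 38167130), (nat_lit 25010362), (nat_lit 18643303), (nat_lit 12552662)] (nat_lit 10498223)) p15_23_1 (nat_lit 4) (nat_lit 42) (nat_lit 43) = true := by decide +kernel
def p15_23_1_43 : pfC (piC [(nat_lit 38167130), (nat_lit 25010362), (nat_lit 18643303), (nat_lit 12552662)] (nat_lit 10498223)) p15_23_1 (nat_lit 4) (nat_lit 43) (nat_lit 44) = true := by decide +kernel
def p15_23_1_44 : pfC (piC [(nat_lit 38167130), (nat_lit 25010362), (nat_lit 18643303), (nat_lit 12552662)] (nat_lit 10498223)) p15_23_1 (nat_lit 4) (nat_lit 44) (nat_lit 45) = true := by decide +kernel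
def p15_23_1_45 : pfC (piC [(nat_lit 38167130), (nat_lit 25010362), (nat_lit 18643303), (nat_lit 12552662)] (nat_lit 10498223)) p15_23_1 (nat_lit 4) (nat_lit 45) (nat_lit 46) = true := by decide +kernel
def p15_23_1_46 : pfC (piC [(nat_lit 38167130), (nat_lit 25010362), (nat_lit 18643303), (nat_lit 12552662)] (nat_lit 10498223)) p15_23_1 (nat_lit 4) (nat_lit 46) (nat_lit 47) = true := by decide +kernel
def p15_23_1_47 : pfC (piC [(nat_lit 38167130), (nat_lit 25010362), (nat_lit 18643303), (nat_lit 12552662)] (nat_lit 10498223)) p15_23_1 (nat_lit 4) (nat_lit 47) (nat_lit 48) = true := by decide +kernel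
def p15_23_1_48 : pfC (piC [(nat_lit 38167130), (nat_lit 25010362), (nat_lit 18643303), (nat_lit 12552662)] (nat_lit 10498223)) p15_23_1 (nat_lit 4) (nat_lit 48) (nat_lit 49) = true := by decide +kernel
def p15_23_1_49 : pfC (piC [(nat_lit 38167130), (nat_lit 25010362), (nat_lit 18643303), (nat_lit 12552662)] (nat_lit 10498223)) p15_23_1 (nat_lit 4) (nat_lit 49) (nat_lit 50) = true := by decide +kernel
def p15_23_1_50 : pfC (piC [(nat_lit 38167130), (nat_lit 25010362), (nat_lit 18643303), (nat_lit 12552662)] (nat_lit 10498223)) p15_23_1 (nat_lit 4) (nat_lit 50) (nat_lit 51) = true := by decide +kernel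
def p15_23_1_51 : pfC (piC [(nat_lit 38167130), (nat_lit 25010362), (nat_lit 18643303), (nat_lit 12552662)] (nat_lit 10498223)) p15_23_1 (nat_lit 4) (nat_lit 51) (nat_lit 52) = true := by decide +kernel
def p15_23_1_52 : pfC (piC [(nat_lit 38167130), (nat_lit 25010362), (nat_lit 18643303), (nat_lit 12552662)] (nat_lit 10498223)) p15_23_1 (nat_lit 4) (nat_lit 52) (nat_lit 53) = true := by decide +kernel
def p15_23_1_53 : pfC (piC [(nat_lit 38167130), (nat_lit 25010362), (nat_lit 18643303), (nat_lit 12552662)] (nat_lit 10498223)) p15_23_1 (nat_lit 4) (nat_lit 53) (nat_lit 54) = true := by decide +kernel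
def p15_23_1_54 : pfC (piC [(nat_lit 38167130), (nat_lit 25010362), (nat_lit 18643303), (nat_lit 12552662)] (nat_lit 10498223)) p15_23_1 (nat_lit 4) (nat_lit 54) (nat_lit 55) = true := by decide +kernel
def p15_23_1_55 : pfC (piC [(nat_lit 38167130), (nat_lit 25010362), (nat_lit 18643303), (nat_lit 12552662)] (nat_lit 10498223)) p15_23_1 (nat_lit 4) (nat_lit 55) (nat_lit 56) = true := by decide +kernel
def p15_23_1_56 : pfC (piC [(nat_lit 38167130), (nat_lit 25010362), (nat_lit 18643303), (nat_lit 12552662)] (nat_lit 10498223)) p15_23_1 (nat_lit 4) (nat_lit 56) (nat_lit 57) = true := by decide +kernel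
def p15_23_1_57 : pfC (piC [(nat_lit 38167130), (nat_lit 25010362), (nat_lit 18643303), (nat_lit 12552662)] (nat_lit 10498223)) p15_23_1 (nat_lit 4) (nat_lit 57) (nat_lit 58) = true := by decide +kernel
def p15_23_1_58 : pfC (piC [(nat_lit 38167130), (nat_lit 25010362), (nat_lit 18643303), (nat_lit 12552662)] (nat_lit 10498223)) p15_23_1 (nat_lit 4) (nat_lit 58) (nat_lit 59) = true := by decide +kernel
def p15_23_1_59 : pfC (piC [(nat_lit 38167130), (nat_lit 25010362), (nat_lit 18643303), (nat_lit 12552662)] (nat_lit 10498223)) p15_23_1 (nat_lit 4) (nat_lit 59) (nat_lit 60) = true := by decide +kernel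
def p15_23_1_60 : pfC (piC [(nat_lit 38167130), (nat_lit 25010362), (nat_lit 18643303), (nat_lit 12552662)] (nat_lit 10498223)) p15_23_1 (nat_lit 4) (nat_lit 60) (nat_lit 61) = true := by decide +kernel
def p15_23_1_61 : pfC (piC [(nat_lit 38167130), (nat_lit 25010362), (nat_lit 18643303), (nat_lit 12552662)] (nat_lit 10498223)) p15_23_1 (nat_lit 4) (nat_lit 61) (nat_lit 62) = true := by decide +kernel
def p15_23_1_62 : pfC (piC [(nat_lit 38167130), (nat_lit 25010362), (nat_lit 18643303), (nat_lit 12552662)] (nat_lit 10498223)) p15_23_1 (nat_lit 4) (nat_lit 62) (nat_lit 63) = true := by decide +kernel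
def p15_23_1_63 : pfC (piC [(nat_lit 38167130), (nat_lit 25010362), (nat_lit 18643303), (nat_lit 12552662)] (nat_lit 10498223)) p15_23_1 (nat_lit 4) (nat_lit 63) (nat_lit 64) = true := by decide +kernel
def p15_23_1_64 : pfC (piC [(nat_lit 38167130), (nat_lit 25010362), (nat_lit 18643303), (nat_lit 12552662)] (nat_lit 10498223)) p15_23_1 (nat_lit 4) (nat_lit 64) (nat_lit 65) = true := by decide +kernel
def p15_23_1_65 : pfC (piC [(nat_lit 38167130), (nat_lit 25010362), (nat_lit 18643303), (nat_lit 12552662)] (nat_lit 10498223)) p15_23_1 (nat_lit 4) (nat_lit 65) (nat_lit 66) = true := by decide +kernel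
def p15_23_1_66 : pfC (piC [(nat_lit 38167130), (nat_lit 25010362), (nat_lit 18643303), (nat_lit 12552662)] (nat_lit 10498223)) p15_23_1 (nat_lit 4) (nat_lit 66) (nat_lit 67) = true := by decide +kernel
def p15_23_1_67 : pfC (piC [(nat_lit 38167130), (nat_lit 25010362), (nat_lit 18643303), (nat_lit 12552662)] (nat_lit 10498223)) p15_23_1 (nat_lit 4) (nat_lit 67) (nat_lit 68) = true := by decide +kernel
def p15_23_1_68 : pfC (piC [(nat_lit 38167130), (nat_lit 25010362), (nat_lit 18643303), (nat_lit 12552662)] (nat_lit 10498223)) p15_23_1 (nat_lit 4) (nat_lit 68) (nat_lit 69) = true := by decide +kernel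
def p15_23_1_69 : pfC (piC [(nat_lit 38167130), (nat_lit 25010362), (nat_lit 18643303), (nat_lit 12552662)] (nat_lit 10498223)) p15_23_1 (nat_lit 4) (nat_lit 69) (nat_lit 70) = true := by decide +kernel
def p15_23_1_70 : pfC (piC [(nat_lit 38167130), (nat_lit 25010362), (nat_lit 18643303), (nat_lit 12552662)] (nat_lit 10498223)) p15_23_1 (nat_lit 4) (nat_lit 70) (nat_lit 71) = true := by decide +kernel
def p15_23_1_71 : pfC (piC [(nat_lit 38167130), (nat_lit 25010362), (nat_lit 18643303), (nat_lit 12552662)] (nat_lit 10498223)) p15_23_1 (nat_lit 4) (nat_lit 71) (nat_lit 72) = true := by decide +kernel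
def p15_23_1_72 : pfC (piC [(nat_lit 38167130), (nat_lit 25010362), (nat_lit 18643303), (nat_lit 12552662)] (nat_lit 10498223)) p15_23_1 (nat_lit 4) (nat_lit 72) (nat_lit 73) = true := by decide +kernel
def p15_23_1_73 : pfC (piC [(nat_lit 38167130), (nat_lit 25010362), (nat_lit 18643303), (nat_lit 12552662)] (nat_lit 10498223)) p15_23_1 (nat_lit 4) (nat_lit 73) (nat_lit 74) = true := by decide +kernel
def p15_23_1_74 : pfC (piC [(nat_lit 38167130), (nat_lit 25010362), (nat_lit 18643303), (nat_lit 12552662)] (nat_lit 10498223)) p15_23_1 (nat_lit 4) (nat_lit 74) (nat_lit 75) = true := by decide +kernel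
def p15_23_1_75 : pfC (piC [(nat_lit 38167130), (nat_lit 25010362), (nat_lit 18643303), (nat_lit 12552662)] (nat_lit 10498223)) p15_23_1 (nat_lit 4) (nat_lit 75) (nat_lit 76) = true := by decide +kernel
def p15_23_1_76 : pfC (piC [(nat_lit 38167130), (nat_lit 25010362), (nat_lit 18643303), (nat_lit 12552662)] (nat_lit 10498223)) p15_23_1 (nat_lit 4) (nat_lit 76) (nat_lit 77) = true := by decide +kernel
def p15_23_1_77 : pfC (piC [(nat_lit 38167130), (nat_lit 25010362), (nat_lit 18643303), (nat_lit 12552662)] (nat_lit 10498223)) p15_23_1 (nat_lit 4) (nat_lit 77) (nat_lit 78) = true := by decide +kernel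
def p15_23_1_78 : pfC (piC [(nat_lit 38167130), (nat_lit 25010362), (nat_lit 18643303), (nat_lit 12552662)] (nat_lit 10498223)) p15_23_1 (nat_lit 4) (nat_lit 78) (nat_lit 79) = true := by decide +kernel
def p15_23_1_79 : pfC (piC [(nat_lit 38167130), (nat_lit 25010362), (nat_lit 18643303), (nat_lit 12552662)] (nat_lit 10498223)) p15_23_1 (nat_lit 4) (nat_lit 79) (nat_lit 80) = true := by decide +kernel
def p15_23_1_80 : pfC (piC [(nat_lit 38167130), (nat_lit 25010362), (nat_lit 18643303), (nat_lit 12552662)] (nat_lit 10498223)) p15_23_1 (nat_lit 4) (nat_lit 80) (nat_lit 81) = true := by decide +kernel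
def p15_23_1_81 : pfC (piC [(nat_lit 38167130), (nat_lit 25010362), (nat_lit 18643303), (nat_lit 12552662)] (nat_lit 10498223)) p15_23_1 (nat_lit 4) (nat_lit 81) (nat_lit 82) = true := by decide +kernel
def p15_23_1_82 : pfC (piC [(nat_lit 38167130), (nat_lit 25010362), (nat_lit 18643303), (nat_lit 12552662)] (nat_lit 10498223)) p15_23_1 (nat_lit 4) (nat_lit 82) (nat_lit 83) = true := by decide +kernel
def p15_23_1_83 : pfC (piC [(nat_lit 38167130), (nat_lit 25010362), (nat_lit 18643303), (nat_lit 12552662)] (nat_lit 10498223)) p15_23_1 (nat_lit 4) (nat_lit 83) (nat_lit 84) = true := by decide +kernel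
def p15_23_1_84 : pfC (piC [(nat_lit 38167130), (nat_lit 25010362), (nat_lit 18643303), (nat_lit 12552662)] (nat_lit 10498223)) p15_23_1 (nat_lit 4) (nat_lit 84) (nat_lit 85) = true := by decide +kernel
def p15_23_1_85 : pfC (piC [(nat_lit 38167130), (nat_lit 25010362), (nat_lit 18643303), (nat_lit 12552662)] (nat_lit 10498223)) p15_23_1 (nat_lit 4) (nat_lit 85) (nat_lit 86) = true := by decide +kernel
def p15_23_1_86 : pfC (piC [(nat_lit 38167130), (nat_lit 25010362), (nat_lit 18643303), (nat_lit 12552662)] (nat_lit 10498223)) p15_23_1 (nat_lit 4) (nat_lit 86) (nat_lit 87) = true := by decide +kernel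
def p15_23_1_87 : pfC (piC [(nat_lit 38167130), (nat_lit 25010362), (nat_lit 18643303), (nat_lit 12552662)] (nat_lit 10498223)) p15_23_1 (nat_lit 4) (nat_lit 87) (nat_lit 88) = true := by decide +kernel
def p15_23_1_88 : pfC (piC [(nat_lit 38167130), (nat_lit 25010362), (nat_lit 18643303), (nat_lit 12552662)] (nat_lit 10498223)) p15_23_1 (nat_lit 4) (nat_lit 88) (nat_lit 89) = true := by decide +kernel
def p15_23_1_89 : pfC (piC [(nat_lit 38167130), (nat_lit 25010362), (nat_lit 18643303), (nat_lit 12552662)] (nat_lit 10498223)) p15_23_1 (nat_lit 4) (nat_lit 89) (nat_lit 90) = true := by decide +kernel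
def p15_23_1_90 : pfC (piC [(nat_lit 38167130), (nat_lit 25010362), (nat_lit 18643303), (nat_lit 12552662)] (nat_lit 10498223)) p15_23_1 (nat_lit 4) (nat_lit 90) (nat_lit 91) = true := by decide +kernel
def p15_23_1_91 : pfC (piC [(nat_lit 38167130), (nat_lit 25010362), (nat_lit 18643303), (nat_lit 12552662)] (nat_lit 10498223)) p15_23_1 (nat_lit 4) (nat_lit 91) (nat_lit 92) = true := by decide +kernel
def p15_23_1_92 : pfC (piC [(nat_lit 38167130), (nat_lit 25010362), (nat_lit 18643303), (nat_lit 12552662)] (nat_lit 10498223)) p15_23_1 (nat_lit 4) (nat_lit 92) (nat_lit 93) = true := by decide +kernel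
def p15_23_1_93 : pfC (piC [(nat_lit 38167130), (nat_lit 25010362), (nat_lit 18643303), (nat_lit 12552662)] (nat_lit 10498223)) p15_23_1 (nat_lit 4) (nat_lit 93) (nat_lit 94) = true := by decide +kernel
def p15_23_1_94 : pfC (piC [(nat_lit 38167130), (nat_lit 25010362), (nat_lit 18643303), (nat_lit 12552662)] (nat_lit 10498223)) p15_23_1 (nat_lit 4) (nat_lit 94) (nat_lit 95) = true := by decide +kernel
def p15_23_1_95 : pfC (piC [(nat_lit 38167130), (nat_lit 25010362), (nat_lit 18643303), (nat_lit 12552662)] (nat_lit 10498223)) p15_23_1 (nat_lit 4) (nat_lit 95) (nat_lit 96) = true := by decide +kernel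
def p15_23_1_96 : pfC (piC [(nat_lit 38167130), (nat_lit 25010362), (nat_lit 18643303), (nat_lit 12552662)] (nat_lit 10498223)) p15_23_1 (nat_lit 4) (nat_lit 96) (nat_lit 97) = true := by decide +kernel
def p15_23_1_97 : pfC (piC [(nat_lit 38167130), (nat_lit 25010362), (nat_lit 18643303), (nat_lit 12552662)] (nat_lit 10498223)) p15_23_1 (nat_lit 4) (nat_lit 97) (nat_lit 98) = true := by decide +kernel
def p15_23_1_98 : pfC (piC [(nat_lit 38167130), (nat_lit 25010362), (nat_lit 18643303), (nat_lit 12552662)] (nat_lit 10498223)) p15_23_1 (nat_lit 4) (nat_lit 98) (nat_lit 99) = true := by decide +kernel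
def p15_23_1_99 : pfC (piC [(nat_lit 38167130), (nat_lit 25010362), (nat_lit 18643303), (nat_lit 12552662)] (nat_lit 10498223)) p15_23_1 (nat_lit 4) (nat_lit 99) (nat_lit 100) = true := by decide +kernel
def p15_23_1_100 : pfC (piC [(nat_lit 38167130), (nat_lit 25010362), (nat_lit 18643303), (nat_lit 12552662)] (nat_lit 10498223)) p15_23_1 (nat_lit 4) (nat_lit 100) (nat_lit 101) = true := by decide +kernel
def p15_23_1_101 : pfC (piC [(nat_lit 38167130), (nat_lit 25010362), (nat_lit 18643303), (nat_lit 12552662)] (nat_lit 10498223)) p15_23_1 (nat_lit 4) (nat_lit 101) (nat_lit 102) = true := by decide +kernel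
def p15_23_1_102 : pfC (piC [(nat_lit 38167130), (nat_lit 25010362), (nat_lit 18643303), (nat_lit 12552662)] (nat_lit 10498223)) p15_23_1 (nat_lit 4) (nat_lit 102) (nat_lit 103) = true := by decide +kernel
def p15_23_1_103 : pfC (piC [(nat_lit 38167130), (nat_lit 25010362), (nat_lit 18643303), (nat_lit 12552662)] (nat_lit 10498223)) p15_23_1 (nat_lit 4) (nat_lit 103) (nat_lit 104) = true := by decide +kernel
def p15_23_1_104 : pfC (piC [(nat_lit 38167130), (nat_lit 25010362), (nat_lit 18643303), (nat_lit 12552662)] (nat_lit 10498223)) p15_23_1 (nat_lit 4) (nat_lit 104) (nat_lit 105) = true := by decide +kernel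
def p15_23_1_105 : pfC (piC [(nat_lit 38167130), (nat_lit 25010362), (nat_lit 18643303), (nat_lit 12552662)] (nat_lit 10498223)) p15_23_1 (nat_lit 4) (nat_lit 105) (nat_lit 106) = true := by decide +kernel
def p15_23_1_106 : pfC (piC [(nat_lit 38167130), (nat_lit 25010362), (nat_lit 18643303), (nat_lit 12552662)] (nat_lit 10498223)) p15_23_1 (nat_lit 4) (nat_lit 106) (nat_lit 107) = true := by decide +kernel
def p15_23_1_107 : pfC (piC [(nat_lit 38167130), (nat_lit 25010362), (nat_lit 18643303), (nat_lit 12552662)] (nat_lit 10498223)) p15_23_1 (nat_lit 4) (nat_lit 107) (nat_lit 108) = true := by decide +kernel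
def p15_23_1_108 : pfC (piC [(nat_lit 38167130), (nat_lit 25010362), (nat_lit 18643303), (nat_lit 12552662)] (nat_lit 10498223)) p15_23_1 (nat_lit 4) (nat_lit 108) (nat_lit 109) = true := by decide +kernel
def p15_23_1_109 : pfC (piC [(nat_lit 38167130), (nat_lit 25010362), (nat_lit 18643303), (nat_lit 12552662)] (nat_lit 10498223)) p15_23_1 (nat_lit 4) (nat_lit 109) (nat_lit 110) = true := by decide +kernel
def p15_23_1_110 : pfC (piC [(nat_lit 38167130), (nat_lit 25010362), (nat_lit 18643303), (nat_lit 12552662)] (nat_lit 10498223)) p15_23_1 (nat_lit 4) (nat_lit 110) (nat_lit 111) = true := by decide +kernel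
def p15_23_1_111 : pfC (piC [(nat_lit 38167130), (nat_lit 25010362), (nat_lit 18643303), (nat_lit 12552662)] (nat_lit 10498223)) p15_23_1 (nat_lit 4) (nat_lit 111) (nat_lit 112) = true := by decide +kernel
def p15_23_1_112 : pfC (piC [(nat_lit 38167130), (nat_lit 25010362), (nat_lit 18643303), (nat_lit 12552662)] (nat_lit 10498223)) p15_23_1 (nat_lit 4) (nat_lit 112) (nat_lit 113) = true := by decide +kernel
def p15_23_1_113 : pfC (piC [(nat_lit 38167130), (nat_lit 25010362), (nat_lit 18643303), (nat_lit 12552662)] (nat_lit 10498223)) p15_23_1 (nat_lit 4) (nat_lit 113) (nat_lit 114) = true := by decide +kernel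
def p15_23_1_114 : pfC (piC [(nat_lit 38167130), (nat_lit 25010362), (nat_lit 18643303), (nat_lit 12552662)] (nat_lit 10498223)) p15_23_1 (nat_lit 4) (nat_lit 114) (nat_lit 115) = true := by decide +kernel
def p15_23_1_115 : pfC (piC [(nat_lit 38167130), (nat_lit 25010362), (nat_lit 18643303), (nat_lit 12552662)] (nat_lit 10498223)) p15_23_1 (nat_lit 4) (nat_lit 115) (nat_lit 116) = true := by decide +kernel
def p15_23_1_116 : pfC (piC [(nat_lit 38167130), (nat_lit 25010362), (nat_lit 18643303), (nat_lit 12552662)] (nat_lit 10498223)) p15_23_1 (nat_lit 4) (nat_lit 116) (nat_lit 117) = true := by decide +kernel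
def p15_23_1_117 : pfC (piC [(nat_lit 38167130), (nat_lit 25010362), (nat_lit 18643303), (nat_lit 12552662)] (nat_lit 10498223)) p15_23_1 (nat_lit 4) (nat_lit 117) (nat_lit 118) = true := by decide +kernel
def p15_23_1_118 : pfC (piC [(nat_lit 38167130), (nat_lit 25010362), (nat_lit 18643303), (nat_lit 12552662)] (nat_lit 10498223)) p15_23_1 (nat_lit 4) (nat_lit 118) (nat_lit 119) = true := by decide +kernel
def p15_23_1_119 : pfC (piC [(nat_lit 38167130), (nat_lit 25010362), (nat_lit 18643303), (nat_lit 12552662)] (nat_lit 10498223)) p15_23_1 (nat_lit 4) (nat_lit 119) (nat_lit 120) = true := by decide +kernel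
def p15_23_1_120 : pfC (piC [(nat_lit 38167130), (nat_lit 25010362), (nat_lit 18643303), (nat_lit 12552662)] (nat_lit 10498223)) p15_23_1 (nat_lit 4) (nat_lit 120) (nat_lit 121) = true := by decide +kernel
def p15_23_1_121 : pfC (piC [(nat_lit 38167130), (nat_lit 25010362), (nat_lit 18643303), (nat_lit 12552662)] (nat_lit 10498223)) p15_23_1 (nat_lit 4) (nat_lit 121) (nat_lit 122) = true := by decide +kernel
def p15_23_1_122 : pfC (piC [(nat_lit 38167130), (nat_lit 25010362), (nat_lit 18643303), (nat_lit 12552662)] (nat_lit 10498223)) p15_23_1 (nat_lit 4) (nat_lit 122) (nat_lit 123) = true := by decide +kernel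
def p15_23_1_123 : pfC (piC [(nat_lit 38167130), (nat_lit 25010362), (nat_lit 18643303), (nat_lit 12552662)] (nat_lit 10498223)) p15_23_1 (nat_lit 4) (nat_lit 123) (nat_lit 124) = true := by decide +kernel
def p15_23_1_124 : pfC (piC [(nat_lit 38167130), (nat_lit 25010362), (nat_lit 18643303), (nat_lit 12552662)] (nat_lit 10498223)) p15_23_1 (nat_lit 4) (nat_lit 124) (nat_lit 125) = true := by decide +kernel
def p15_23_1_125 : pfC (piC [(nat_lit 38167130), (nat_lit 25010362), (nat_lit 18643303), (nat_lit 12552662)] (nat_lit 10498223)) p15_23_1 (nat_lit 4) (nat_lit 125) (nat_lit 126) = true := by decide +kernel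
def p15_23_1_126 : pfC (piC [(nat_lit 38167130), (nat_lit 25010362), (nat_lit 18643303), (nat_lit 12552662)] (nat_lit 10498223)) p15_23_1 (nat_lit 4) (nat_lit 126) (nat_lit 127) = true := by decide +kernel
def p15_23_1_127 : pfC (piC [(nat_lit 38167130), (nat_lit 25010362), (nat_lit 18643303), (nat_lit 12552662)] (nat_lit 10498223)) p15_23_1 (nat_lit 4) (nat_lit 127) (nat_lit 128) = true := by decide +kernel
def p15_23_1_128 : pfC (piC [(nat_lit 38167130), (nat_lit 25010362), (nat_lit 18643303), (nat_lit 12552662)] (nat_lit 10498223)) p15_23_1 (nat_lit 4) (nat_lit 128) (nat_lit 129) = true := by decide +kernel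
def p15_23_1_129 : pfC (piC [(nat_lit 38167130), (nat_lit 25010362), (nat_lit 18643303), (nat_lit 12552662)] (nat_lit 10498223)) p15_23_1 (nat_lit 4) (nat_lit 129) (nat_lit 130) = true := by decide +kernel
def p15_23_1_130 : pfC (piC [(nat_lit 38167130), (nat_lit 25010362), (nat_lit 18643303), (nat_lit 12552662)] (nat_lit 10498223)) p15_23_1 (nat_lit 4) (nat_lit 130) (nat_lit 131) = true := by decide +kernel
def p15_23_1_131 : pfC (piC [(nat_lit 38167130), (nat_lit 25010362), (nat_lit 18643303), (nat_lit 12552662)] (nat_lit 10498223)) p15_23_1 (nat_lit 4) (nat_lit 131) (nat_lit 132) = true := by decide +kernel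
def p15_23_1_132 : pfC (piC [(nat_lit 38167130), (nat_lit 25010362), (nat_lit 18643303), (nat_lit 12552662)] (nat_lit 10498223)) p15_23_1 (nat_lit 4) (nat_lit 132) (nat_lit 133) = true := by decide +kernel
def p15_23_1_133 : pfC (piC [(nat_lit 38167130), (nat_lit 25010362), (nat_lit 18643303), (nat_lit 12552662)] (nat_lit 10498223)) p15_23_1 (nat_lit 4) (nat_lit 133) (nat_lit 134) = true := by decide +kernel
def p15_23_1_134 : pfC (piC [(nat_lit 38167130), (nat_lit 25010362), (nat_lit 18643303), (nat_lit 12552662)] (nat_lit 10498223)) p15_23_1 (nat_lit 4) (nat_lit 134) (nat_lit 135) = true := by decide +kernel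
def p15_23_1_135 : pfC (piC [(nat_lit 38167130), (nat_lit 25010362), (nat_lit 18643303), (nat_lit 12552662)] (nat_lit 10498223)) p15_23_1 (nat_lit 4) (nat_lit 135) (nat_lit 136) = true := by decide +kernel
def p15_23_1_136 : pfC (piC [(nat_lit 38167130), (nat_lit 25010362), (nat_lit 18643303), (nat_lit 12552662)] (nat_lit 10498223)) p15_23_1 (nat_lit 4) (nat_lit 136) (nat_lit 137) = true := by decide +kernel
def p15_23_1_137 : pfC (piC [(nat_lit 38167130), (nat_lit 25010362), (nat_lit 18643303), (nat_lit 12552662)] (nat_lit 10498223)) p15_23_1 (nat_lit 4) (nat_lit 137) (nat_lit 138) = true := by decide +kernel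
def p15_23_1_138 : pfC (piC [(nat_lit 38167130), (nat_lit 25010362), (nat_lit 18643303), (nat_lit 12552662)] (nat_lit 10498223)) p15_23_1 (nat_lit 4) (nat_lit 138) (nat_lit 139) = true := by decide +kernel
def p15_23_1_139 : pfC (piC [(nat_lit 38167130), (nat_lit 25010362), (nat_lit 18643303), (nat_lit 12552662)] (nat_lit 10498223)) p15_23_1 (nat_lit 4) (nat_lit 139) (nat_lit 140) = true := by decide +kernel
def p15_23_1_140 : pfC (piC [(nat_lit 38167130), (nat_lit 25010362), (nat_lit 18643303), (nat_lit 12552662)] (nat_lit 10498223)) p15_23_1 (nat_lit 4) (nat_lit 140) (nat_lit 141) = true := by decide +kernel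
def p15_23_1_141 : pfC (piC [(nat_lit 38167130), (nat_lit 25010362), (nat_lit 18643303), (nat_lit 12552662)] (nat_lit 10498223)) p15_23_1 (nat_lit 4) (nat_lit 141) (nat_lit 142) = true := by decide +kernel
def p15_23_1_142 : pfC (piC [(nat_lit 38167130), (nat_lit 25010362), (nat_lit 18643303), (nat_lit 12552662)] (nat_lit 10498223)) p15_23_1 (nat_lit 4) (nat_lit 142) (nat_lit 143) = true := by decide +kernel
def p15_23_1_143 : pfC (piC [(nat_lit 38167130), (nat_lit 25010362), (nat_lit 18643303), (nat_lit 12552662)] (nat_lit 10498223)) p15_23_1 (nat_lit 4) (nat_lit 143) (nat_lit 144) = true := by decide +kernel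
def p15_23_1_144 : pfC (piC [(nat_lit 38167130), (nat_lit 25010362), (nat_lit 18643303), (nat_lit 12552662)] (nat_lit 10498223)) p15_23_1 (nat_lit 4) (nat_lit 144) (nat_lit 145) = true := by decide +kernel
def p15_23_1_145 : pfC (piC [(nat_lit 38167130), (nat_lit 25010362), (nat_lit 18643303), (nat_lit 12552662)] (nat_lit 10498223)) p15_23_1 (nat_lit 4) (nat_lit 145) (nat_lit 146) = true := by decide +kernel
def p15_23_1_146 : pfC (piC [(nat_lit 38167130), (nat_lit 25010362), (nat_lit 18643303), (nat_lit 12552662)] (nat_lit 10498223)) p15_23_1 (nat_lit 4) (nat_lit 146) (nat_lit 147) = true := by decide +kernel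
def p15_23_1_147 : pfC (piC [(nat_lit 38167130), (nat_lit 25010362), (nat_lit 18643303), (nat_lit 12552662)] (nat_lit 10498223)) p15_23_1 (nat_lit 4) (nat_lit 147) (nat_lit 148) = true := by decide +kernel
def p15_23_1_148 : pfC (piC [(nat_lit 38167130), (nat_lit 25010362), (nat_lit 18643303), (nat_lit 12552662)] (nat_lit 10498223)) p15_23_1 (nat_lit 4) (nat_lit 148) (nat_lit 149) = true := by decide +kernel
def p15_23_1_149 : pfC (piC [(nat_lit 38167130), (nat_lit 25010362), (nat_lit 18643303), (nat_lit 12552662)] (nat_lit 10498223)) p15_23_1 (nat_lit 4) (nat_lit 149) (nat_lit 150) = true := by decide +kernel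
def p15_23_1_150 : pfC (piC [(nat_lit 38167130), (nat_lit 25010362), (nat_lit 18643303), (nat_lit 12552662)] (nat_lit 10498223)) p15_23_1 (nat_lit 4) (nat_lit 150) (nat_lit 151) = true := by decide +kernel
def p15_23_1_151 : pfC (piC [(nat_lit 38167130), (nat_lit 25010362), (nat_lit 18643303), (nat_lit 12552662)] (nat_lit 10498223)) p15_23_1 (nat_lit 4) (nat_lit 151) (nat_lit 152) = true := by decide +kernel
def p15_23_1_152 : pfC (piC [(nat_lit 38167130), (nat_lit 25010362), (nat_lit 18643303), (nat_lit 12552662)] (nat_lit 10498223)) p15_23_1 (nat_lit 4) (nat_lit 152) (nat_lit 153) = true := by decide +kernel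
def p15_23_1_153 : pfC (piC [(nat_lit 38167130), (nat_lit 25010362), (nat_lit 18643303), (nat_lit 12552662)] (nat_lit 10498223)) p15_23_1 (nat_lit 4) (nat_lit 153) (nat_lit 154) = true := by decide +kernel
def p15_23_1_154 : pfC (piC [(nat_lit 38167130), (nat_lit 25010362), (nat_lit 18643303), (nat_lit 12552662)] (nat_lit 10498223)) p15_23_1 (nat_lit 4) (nat_lit 154) (nat_lit 155) = true := by decide +kernel
def p15_23_1_155 : pfC (piC [(nat_lit 38167130), (nat_lit 25010362), (nat_lit 18643303), (nat_lit 12552662)] (nat_lit 10498223)) p15_23_1 (nat_lit 4) (nat_lit 155) (nat_lit 156) = true := by decide +kernel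
def p15_23_1_156 : pfC (piC [(nat_lit 38167130), (nat_lit 25010362), (nat_lit 18643303), (nat_lit 12552662)] (nat_lit 10498223)) p15_23_1 (nat_lit 4) (nat_lit 156) (nat_lit 157) = true := by decide +kernel
def p15_23_1_157 : pfC (piC [(nat_lit 38167130), (nat_lit 25010362), (nat_lit 18643303), (nat_lit 12552662)] (nat_lit 10498223)) p15_23_1 (nat_lit 4) (nat_lit 157) (nat_lit 158) = true := by decide +kernel
def p15_23_1_158 : pfC (piC [(nat_lit 38167130), (nat_lit 25010362), (nat_lit 18643303), (nat_lit 12552662)] (nat_lit 10498223)) p15_23_1 (nat_lit 4) (nat_lit 158) (nat_lit 159) = true := by decide +kernel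
def p15_23_1_159 : pfC (piC [(nat_lit 38167130), (nat_lit 25010362), (nat_lit 18643303), (nat_lit 12552662)] (nat_lit 10498223)) p15_23_1 (nat_lit 4) (nat_lit 159) (nat_lit 160) = true := by decide +kernel
def p15_23_1_160 : pfC (piC [(nat_lit 38167130), (nat_lit 25010362), (nat_lit 18643303), (nat_lit 12552662)] (nat_lit 10498223)) p15_23_1 (nat_lit 4) (nat_lit 160) (nat_lit 161) = true := by decide +kernel
def p15_23_1_161 : pfC (piC [(nat_lit 38167130), (nat_lit 25010362), (nat_lit 18643303), (nat_lit 12552662)] (nat_lit 10498223)) p15_23_1 (nat_lit 4) (nat_lit 161) (nat_lit 162) = true := by decide +kernel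
def p15_23_1_162 : pfC (piC [(nat_lit 38167130), (nat_lit 25010362), (nat_lit 18643303), (nat_lit 12552662)] (nat_lit 10498223)) p15_23_1 (nat_lit 4) (nat_lit 162) (nat_lit 163) = true := by decide +kernel
def p15_23_1_163 : pfC (piC [(nat_lit 38167130), (nat_lit 25010362), (nat_lit 18643303), (nat_lit 12552662)] (nat_lit 10498223)) p15_23_1 (nat_lit 4) (nat_lit 163) (nat_lit 164) = true := by decide +kernel
def p15_23_1_164 : pfC (piC [(nat_lit 38167130), (nat_lit 25010362), (nat_lit 18643303), (nat_lit 12552662)] (nat_lit 10498223)) p15_23_1 (nat_lit 4) (nat_lit 164) (nat_lit 165) = true := by decide +kernel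
def p15_23_1_165 : pfC (piC [(nat_lit 38167130), (nat_lit 25010362), (nat_lit 18643303), (nat_lit 12552662)] (nat_lit 10498223)) p15_23_1 (nat_lit 4) (nat_lit 165) (nat_lit 166) = true := by decide +kernel
def p15_23_1_166 : pfC (piC [(nat_lit 38167130), (nat_lit 25010362), (nat_lit 18643303), (nat_lit 12552662)] (nat_lit 10498223)) p15_23_1 (nat_lit 4) (nat_lit 166) (nat_lit 167) = true := by decide +kernel
def p15_23_1_167 : pfC (piC [(nat_lit 38167130), (nat_lit 25010362), (nat_lit 18643303), (nat_lit 12552662)] (nat_lit 10498223)) p15_23_1 (nat_lit 4) (nat_lit 167) (nat_lit 168) = true := by decide +kernel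
def p15_23_1_168 : pfC (piC [(nat_lit 38167130), (nat_lit 25010362), (nat_lit 18643303), (nat_lit 12552662)] (nat_lit 10498223)) p15_23_1 (nat_lit 4) (nat_lit 168) (nat_lit 169) = true := by decide +kernel
theorem p15_23_1_T : PfS (PiF n15_23.reverse (nat_lit 10498223)) p15_23_1 (nat_lit 4) [] 0 :=
  pftab_of (los := [(nat_lit 38167130), (nat_lit 25010362), (nat_lit 18643303), (nat_lit 12552662)]) (by decide +kernel) (hi := (nat_lit 169)) (PfP.trans (PfP.trans (PfP.trans (PfP.trans (PfP.trans (PfP.trans (PfP.trans (PfP.trans (PfP.trans (PfP.trans (PfP.trans (PfP.trans (PfP.trans (PfP.trans (PfP.trans (PfP.trans (PfP.trans (PfP.trans (PfP.trans (PfP.trans (PfP.trans (PfP.trans (PfP.trans (PfP.trans (PfP.trans (PfP.trans (PfP.trans (PfP.trans (PfP.trans (PfP.trans (PfP.trans (PfP.trans (PfP.trans (PfP.trans (PfP.trans (PfP.trans (PfP.trans (PfP.trans (PfP.trans (PfP.trans (PfP.trans (PfP.trans (PfP.trans (PfP.trans (PfP.trans (PfP.trans (PfP.trans (PfP.trans (PfP.trans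 (PfP.trans (PfP.trans (PfP.trans (PfP.trans (PfP.trans (PfP.trans (PfP.trans (PfP.trans (PfP.trans (PfP.trans (PfP.trans (PfP.trans (PfP.trans (PfP.trans (PfP.trans (PfP.trans (PfP.trans (PfP.trans (PfP.trans (PfP.trans (PfP.trans (PfP.trans (PfP.trans (PfP.trans (PfP.trans (PfP.trans (PfP.trans (PfP.trans (PfP.trans (PfP.trans (PfP.trans (PfP.trans (PfP.trans (PfP.trans (PfP.trans (PfP.trans (PfP.trans (PfP.trans (PfP.trans (PfP.trans (PfP.trans (PfP.trans (PfP.trans (PfP.trans (PfP.trans (PfP.trans (PfP.trans (PfP.trans (PfP.trans (PfP.trans (PfP.trans (PfP.trans (PfP.trans (PfP.trans (PfP.trans (PfP.trans (PfP.trans (PfP.trans (PfP.trans (PfP.trans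
 (PfP.trans (PfP.trans (PfP.trans (PfP.trans (PfP.trans (PfP.trans (PfP.trans (PfP.trans (PfP.trans (PfP.trans (PfP.trans (PfP.trans (PfP.trans (PfP.trans (PfP.trans (PfP.trans (PfP.trans (PfP.trans (PfP.trans (PfP.trans (PfP.trans (PfP.trans (PfP.trans (PfP.trans (PfP.trans (PfP.trans (PfP.trans (PfP.trans (PfP.trans (PfP.trans (PfP.trans (PfP.trans (PfP.trans (PfP.trans (PfP.trans (PfP.trans (PfP.trans (PfP.trans (PfP.trans (PfP.trans (PfP.trans (PfP.trans (PfP.trans (PfP.trans (PfP.trans (PfP.trans (PfP.trans (PfP.trans (PfP.trans (PfP.trans (PfP.trans (PfP.trans (PfP.trans (PfP.trans (PfP.trans (PfP.trans (PfP.trans (PfP.trans (PfP.trans (pfC_sound p15_23_1_0) (pfC_sound p15_23_1_1)) (pfC_sound p15_23_1_2)) (pfC_sound p15_23_1_3)) (pfC_sound p15_23_1_4)) (pfC_sound p15_23_1_5)) (pfC_sound p15_23_1_6)) (pfC_sound p15_23_1_7)) (pfC_sound p15_23_1_8)) (pfC_sound p15_23_1_9)) (pfC_sound p15_23_1_10)) (pfC_sound p15_23_1_11)) (pfC_sound p15_23_1_12)) (pfC_sound p15_23_1_13))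 (pfC_sound p15_23_1_14)) (pfC_sound p15_23_1_15)) (pfC_sound p15_23_1_16)) (pfC_sound p15_23_1_17)) (pfC_sound p15_23_1_18)) (pfC_sound p15_23_1_19)) (pfC_sound p15_23_1_20)) (pfC_sound p15_23_1_21)) (pfC_sound
 p15_23_1_22)) (pfC_sound p15_23_1_23)) (pfC_sound p15_23_1_24)) (pfC_sound p15_23_1_25)) (pfC_sound p15_23_1_26)) (pfC_sound p15_23_1_27)) (pfC_sound p15_23_1_28)) (pfC_sound p15_23_1_29)) (pfC_sound p15_23_1_30)) (pfC_sound p15_23_1_31)) (pfC_sound p15_23_1_32)) (pfC_sound p15_23_1_33)) (pfC_sound p15_23_1_34)) (pfC_sound p15_23_1_35)) (pfC_sound p15_23_1_36)) (pfC_sound p15_23_1_37)) (pfC_sound p15_23_1_38)) (pfC_sound p15_23_1_39)) (pfC_sound p15_23_1_40)) (pfC_sound p15_23_1_41)) (pfC_sound p15_23_1_42)) (pfC_sound p15_23_1_43)) (pfC_sound p15_23_1_44)) (pfC_sound p15_23_1_45)) (pfC_sound p15_23_1_46)) (pfC_sound p15_23_1_47)) (pfC_sound p15_23_1_48)) (pfC_sound p15_23_1_49)) (pfC_sound p15_23_1_50)) (pfC_sound p15_23_1_51)) (pfC_sound p15_23_1_52)) (pfC_sound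 p15_23_1_53)) (pfC_sound p15_23_1_54)) (pfC_sound p15_23_1_55)) (pfC_sound p15_23_1_56)) (pfC_sound p15_23_1_57)) (pfC_sound p15_23_1_58)) (pfC_sound p15_23_1_59)) (pfC_sound p15_23_1_60)) (pfC_sound p15_23_1_61)) (pfC_sound p15_23_1_62)) (pfC_sound p15_23_1_63)) (pfC_sound p15_23_1_64)) (pfC_sound p15_23_1_65)) (pfC_sound p15_23_1_66)) (pfC_sound p15_23_1_67)) (pfC_sound p15_23_1_68)) (pfC_sound p15_23_1_69)) (pfC_sound
 p15_23_1_70)) (pfC_sound p15_23_1_71)) (pfC_sound p15_23_1_72)) (pfC_sound p15_23_1_73)) (pfC_sound p15_23_1_74)) (pfC_sound p15_23_1_75)) (pfC_sound p15_23_1_76)) (pfC_sound p15_23_1_77)) (pfC_sound p15_23_1_78)) (pfC_sound p15_23_1_79)) (pfC_sound p15_23_1_80)) (pfC_sound p15_23_1_81)) (pfC_sound p15_23_1_82)) (pfC_sound p15_23_1_83)) (pfC_sound p15_23_1_84)) (pfC_sound p15_23_1_85)) (pfC_sound p15_23_1_86)) (pfC_sound p15_23_1_87)) (pfC_sound p15_23_1_88)) (pfC_sound p15_23_1_89)) (pfC_sound p15_23_1_90)) (pfC_sound p15_23_1_91)) (pfC_sound p15_23_1_92))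 (pfC_sound p15_23_1_93)) (pfC_sound p15_23_1_94)) (pfC_sound p15_23_1_95)) (pfC_sound p15_23_1_96)) (pfC_sound p15_23_1_97)) (pfC_sound p15_23_1_98)) (pfC_sound p15_23_1_99)) (pfC_sound p15_23_1_100)) (pfC_sound p15_23_1_101)) (pfC_sound p15_23_1_102)) (pfC_sound p15_23_1_103)) (pfC_sound p15_23_1_104)) (pfC_sound p15_23_1_105)) (pfC_sound p15_23_1_106)) (pfC_sound p15_23_1_107)) (pfC_sound p15_23_1_108)) (pfC_sound p15_23_1_109)) (pfC_sound p15_23_1_110)) (pfC_sound p15_23_1_111)) (pfC_sound p15_23_1_112)) (pfC_sound p15_23_1_113)) (pfC_sound p15_23_1_114)) (pfC_sound p15_23_1_115)) (pfC_sound p15_23_1_116)) (pfC_sound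
 p15_23_1_117)) (pfC_sound p15_23_1_118)) (pfC_sound p15_23_1_119)) (pfC_sound p15_23_1_120)) (pfC_sound p15_23_1_121)) (pfC_sound p15_23_1_122)) (pfC_sound p15_23_1_123)) (pfC_sound p15_23_1_124)) (pfC_sound p15_23_1_125)) (pfC_sound p15_23_1_126)) (pfC_sound p15_23_1_127)) (pfC_sound p15_23_1_128)) (pfC_sound p15_23_1_129)) (pfC_sound p15_23_1_130)) (pfC_sound p15_23_1_131)) (pfC_sound p15_23_1_132)) (pfC_sound p15_23_1_133)) (pfC_sound p15_23_1_134)) (pfC_sound p15_23_1_135)) (pfC_sound p15_23_1_136)) (pfC_sound p15_23_1_137)) (pfC_sound p15_23_1_138)) (pfC_sound p15_23_1_139)) (pfC_sound p15_23_1_140)) (pfC_sound p15_23_1_141)) (pfC_sound p15_23_1_142)) (pfC_sound p15_23_1_143)) (pfC_sound p15_23_1_144)) (pfC_sound p15_23_1_145)) (pfC_sound p15_23_1_146)) (pfC_sound p15_23_1_147)) (pfC_sound p15_23_1_148)) (pfC_sound p15_23_1_149)) (pfC_sound p15_23_1_150)) (pfC_sound p15_23_1_151)) (pfC_sound p15_23_1_152)) (pfC_sound p15_23_1_153)) (pfC_sound p15_23_1_154)) (pfC_sound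 p15_23_1_155)) (pfC_sound p15_23_1_156)) (pfC_sound p15_23_1_157)) (pfC_sound p15_23_1_158)) (pfC_sound p15_23_1_159)) (pfC_sound p15_23_1_160)) (pfC_sound p15_23_1_161)) (pfC_sound p15_23_1_162)) (pfC_sound
 p15_23_1_163)) (pfC_sound p15_23_1_164)) (pfC_sound p15_23_1_165)) (pfC_sound p15_23_1_166)) (pfC_sound p15_23_1_167)) (pfC_sound p15_23_1_168)) (by decide +kernel)

def z15_23_1 : zOK yB15_23 (nat_lit 1) (nat_lit 400) (nat_lit 600) (nat_lit 10498223) (nat_lit 6713858) = true := by decide +kernel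
def g15_23_1 : gOK yB15_23.x P15_23 (nat_lit 1416) (q15_23 :: r15_23) (nat_lit 1) (nat_lit 400) (nat_lit 2) (nat_lit 600) (nat_lit 11000000) (nat_lit 17850000) (nat_lit 12712500) (nat_lit 12712500) [(nat_lit 800), (nat_lit 1040)] = true := by decide +kernel
def v15_23_1 : ivC P15_23 s15_23 w15_23 n15_23 (nat_lit 4) (nat_lit 4980) (nat_lit 1) (nat_lit 400) f160_1_400 f168_1_400 (nat_lit 2) (nat_lit 600) f160_1_600 f168_1_600 (nat_lit 10498223) (nat_lit 6713858) p15_23_1 = true := by decide +kernel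
def p15_23_2 : PF := (PF.cons (PF.cons (PF.cons (PF.cons (PF.leaf (nat_lit 2741699) (nat_lit 15947494) (nat_lit 51161318) (nat_lit 15947494) [(nat_lit 0), (nat_lit 0), (nat_lit 0), (nat_lit 0)]) (PF.cons (PF.leaf (nat_lit 2917205) (nat_lit 312671) (nat_lit 50869183) (nat_lit 15926958) [(nat_lit 312671), (nat_lit 0), (nat_lit 0), (nat_lit 0)]) (PF.cons (PF.leaf (nat_lit 3124130) (nat_lit 339536) (nat_lit 50528338) (nat_lit 15901401) [(nat_lit 339536), (nat_lit 0), (nat_lit 0), (nat_lit 0)]) (PF.cons (PF.leaf (nat_lit 3355963) (nat_lit 363197) (nat_lit 50148276) (nat_lit 15870942) [(nat_lit 363197), (nat_lit 0), (nat_lit 0), (nat_lit 0)]) (PF.cons (PF.leaf (nat_lit 3608870) (nat_lit 384356) (nat_lit 49735781) (nat_lit 15835605) [(nat_lit 384356), (nat_lit 0), (nat_lit 0), (nat_lit 0)]) (PF.cons (PF.leaf (nat_lit 3879991) (nat_lit 403460) (nat_lit 49296110) (nat_lit 15795397) [(nat_lit 403460), (nat_lit 0), (nat_lit 0), (nat_lit 0)]) (PF.cons (PF.leaf (nat_lit 4166879)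 (nat_lit 420821) (nat_lit 48833552) (nat_lit 15750333) [(nat_lit 420821), (nat_lit 0), (nat_lit 0), (nat_lit 0)]) (PF.cons (PF.leaf (nat_lit 4467535) (nat_lit 436662) (nat_lit 48351720) (nat_lit 15700454) [(nat_lit 436662), (nat_lit 0),
 (nat_lit 0), (nat_lit 0)]) (PF.cons (PF.leaf (nat_lit 4780211) (nat_lit 451157) (nat_lit 47853728) (nat_lit 15645827) [(nat_lit 451157), (nat_lit 0), (nat_lit 0), (nat_lit 0)]) (PF.cons (PF.leaf (nat_lit 5103373) (nat_lit 464440) (nat_lit 47342300) (nat_lit 15586548) [(nat_lit 464440), (nat_lit 0), (nat_lit 0), (nat_lit 0)]) (PF.cons PF.nil (PF.cons PF.nil PF.nil)))))))))))) (PF.cons (PF.cons (PF.leaf (nat_lit 3306592) (nat_lit 1351101) (nat_lit 49911383) (nat_lit 15846327) [(nat_lit 0), (nat_lit 1351101), (nat_lit 0), (nat_lit 0)]) (PF.cons (PF.leaf (nat_lit 3530788) (nat_lit 372895) (nat_lit 49537637) (nat_lit 15813141) [(nat_lit 372895), (nat_lit 1385138), (nat_lit 0), (nat_lit 0)]) (PF.cons (PF.leaf (nat_lit 3778301) (nat_lit 393283)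 (nat_lit 49129495) (nat_lit 15774774) [(nat_lit 393283), (nat_lit 1417976), (nat_lit 0), (nat_lit 0)]) (PF.cons (PF.leaf (nat_lit 4044761) (nat_lit 411617) (nat_lit 48693435) (nat_lit 15731384) [(nat_lit 411617), (nat_lit 1449139), (nat_lit 0), (nat_lit 0)]) (PF.cons (PF.leaf (nat_lit 4327429) (nat_lit 428236) (nat_lit 48234365) (nat_lit 15683087) [(nat_lit 428236), (nat_lit 1478412), (nat_lit 0), (nat_lit 0)]) (PF.cons (PF.leaf (nat_lit 4624074)
 (nat_lit 443376) (nat_lit 47756221) (nat_lit 15629990) [(nat_lit 443376), (nat_lit 1505716), (nat_lit 0), (nat_lit 0)]) (PF.cons (PF.leaf (nat_lit 4932820) (nat_lit 457211) (nat_lit 47262289) (nat_lit 15572213) [(nat_lit 457211), (nat_lit 1531041), (nat_lit 0), (nat_lit 0)]) (PF.cons (PF.leaf (nat_lit 5252078) (nat_lit 469875) (nat_lit 46755374) (nat_lit 15509890) [(nat_lit 469875), (nat_lit 1554420), (nat_lit 0), (nat_lit 0)]) (PF.cons PF.nil (PF.cons PF.nil PF.nil)))))))))) (PF.cons (PF.cons (PF.leaf (nat_lit 3950865) (nat_lit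 1444895) (nat_lit 48511141) (nat_lit 15707880) [(nat_lit 0), (nat_lit 1444895), (nat_lit 0), (nat_lit 0)]) (PF.cons (PF.leaf (nat_lit 4210517) (nat_lit 418515) (nat_lit 48082773) (nat_lit 15661891) [(nat_lit 418515), (nat_lit 1472816), (nat_lit 0), (nat_lit 0)]) (PF.cons (PF.leaf (nat_lit 4487843) (nat_lit 434595) (nat_lit 47630215) (nat_lit 15610850) [(nat_lit 434595), (nat_lit 1499278), (nat_lit 0), (nat_lit 0)]) (PF.cons (PF.leaf (nat_lit 4779667) (nat_lit 449182) (nat_lit 47158099) (nat_lit 15554970) [(nat_lit 449182), (nat_lit 1524098), (nat_lit 0), (nat_lit 0)]) (PF.cons (PF.leaf (nat_lit 5083918) (nat_lit 462471) (nat_lit 46670087) (nat_lit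
 15494438) [(nat_lit 462471), (nat_lit 1547200), (nat_lit 0), (nat_lit 0)]) (PF.cons (PF.leaf (nat_lit 5398795) (nat_lit 474608) (nat_lit 46169197) (nat_lit 15429437) [(nat_lit 474608), (nat_lit 1568568), (nat_lit 0), (nat_lit 0)]) (PF.cons (PF.leaf (nat_lit 5722845) (nat_lit 485704) (nat_lit 45657981) (nat_lit 15360154) [(nat_lit 485704), (nat_lit 1588224), (nat_lit 0), (nat_lit 0)]) (PF.cons PF.nil (PF.cons PF.nil PF.nil))))))))) (PF.cons (PF.cons (PF.leaf (nat_lit 4649705) (nat_lit 1518150) (nat_lit 47020736) (nat_lit 15533625) [(nat_lit 0), (nat_lit 1518150), (nat_lit 0), (nat_lit 0)]) (PF.cons (PF.leaf (nat_lit 4935196) (nat_lit 454100) (nat_lit 46557281) (nat_lit 15475468) [(nat_lit 454100), (nat_lit 1540654), (nat_lit 0), (nat_lit 0)]) (PF.cons (PF.leaf (nat_lit 5234157) (nat_lit 466963) (nat_lit 46077200) (nat_lit 15412620) [(nat_lit 466963), (nat_lit 1561688), (nat_lit 0), (nat_lit 0)]) (PF.cons (PF.leaf (nat_lit 5544127) (nat_lit 478664) (nat_lit 45583917)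 (nat_lit 15345335) [(nat_lit 478664), (nat_lit 1581188), (nat_lit 0), (nat_lit 0)]) (PF.cons (PF.leaf (nat_lit 5863463) (nat_lit 489330) (nat_lit 45080216) (nat_lit 15273844) [(nat_lit 489330), (nat_lit 1599143),
 (nat_lit 0), (nat_lit 0)]) (PF.cons PF.nil (PF.cons PF.nil PF.nil))))))) (PF.cons (PF.cons (PF.leaf (nat_lit 5384734) (nat_lit 1574654) (nat_lit 45483369) (nat_lit 15326824) [(nat_lit 0), (nat_lit 1574654), (nat_lit 0), (nat_lit 0)]) (PF.cons (PF.leaf (nat_lit 5688662) (nat_lit 482056) (nat_lit 44999446) (nat_lit 15257690) [(nat_lit 482056), (nat_lit 1592404), (nat_lit 0), (nat_lit 0)]) (PF.cons (PF.leaf (nat_lit 6002782) (nat_lit 492370) (nat_lit 44504620) (nat_lit 15184377) [(nat_lit 492370), (nat_lit 1608768), (nat_lit 0), (nat_lit 0)]) (PF.cons (PF.leaf (nat_lit 6325117) (nat_lit 501744) (nat_lit 44001469) (nat_lit 15107156) [(nat_lit 501744), (nat_lit 1623738), (nat_lit 0), (nat_lit 0)]) (PF.cons PF.nil PF.nil))))) (PF.cons (PF.cons (PF.leaf (nat_lit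 6141735) (nat_lit 1617197) (nat_lit 43930984) (nat_lit 15091840) [(nat_lit 0), (nat_lit 1617197), (nat_lit 0), (nat_lit 0)]) (PF.cons (PF.leaf (nat_lit 6458258) (nat_lit 503914) (nat_lit 43437646) (nat_lit 15013238) [(nat_lit 503914), (nat_lit 1630802), (nat_lit 0), (nat_lit 0)]) (PF.cons (PF.leaf (nat_lit 6782353) (nat_lit 512142) (nat_lit 42937765) (nat_lit 14931043) [(nat_lit 512142), (nat_lit 1643143), (nat_lit 0), (nat_lit
 0)]) (PF.cons PF.nil PF.nil)))) (PF.cons (PF.cons (PF.leaf (nat_lit 6909569) (nat_lit 1648002) (nat_lit 42387270) (nat_lit 14833527) [(nat_lit 0), (nat_lit 1648002), (nat_lit 0), (nat_lit 0)]) (PF.cons PF.nil PF.nil)) (PF.cons PF.nil (PF.cons PF.nil PF.nil))))))))) (PF.cons (PF.cons (PF.cons (PF.leaf (nat_lit 3851922) (nat_lit 3424408) (nat_lit 48048234) (nat_lit 15636170) [(nat_lit 0), (nat_lit 0), (nat_lit 3424408), (nat_lit 0)]) (PF.cons (PF.leaf (nat_lit 4084672) (nat_lit 396612) (nat_lit 47667183) (nat_lit 15593590) [(nat_lit 396612), (nat_lit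 0), (nat_lit 3451425), (nat_lit 0)]) (PF.cons (PF.leaf (nat_lit 4339391) (nat_lit 415441) (nat_lit 47254462) (nat_lit 15545482) [(nat_lit 415441), (nat_lit 0), (nat_lit 3477985), (nat_lit 0)]) (PF.cons (PF.leaf (nat_lit 4611648) (nat_lit 432136) (nat_lit 46816748) (nat_lit 15492246) [(nat_lit 432136), (nat_lit 0), (nat_lit 3503407), (nat_lit 0)]) (PF.cons (PF.leaf (nat_lit 4898643) (nat_lit 447099) (nat_lit 46358968) (nat_lit 15434177) [(nat_lit 447099), (nat_lit 0), (nat_lit 3527267), (nat_lit 0)]) (PF.cons (PF.leaf (nat_lit 5198161) (nat_lit 460602) (nat_lit 45884982) (nat_lit 15371521) [(nat_lit 460602), (nat_lit 0), (nat_lit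
 3549298), (nat_lit 0)]) (PF.cons (PF.leaf (nat_lit 5508372) (nat_lit 472838) (nat_lit 45397937) (nat_lit 15304505) [(nat_lit 472838), (nat_lit 0), (nat_lit 3569341), (nat_lit 0)]) (PF.cons (PF.leaf (nat_lit 5827745) (nat_lit 483955) (nat_lit 44900467) (nat_lit 15233348) [(nat_lit 483955), (nat_lit 0), (nat_lit 3587308), (nat_lit 0)]) (PF.cons PF.nil (PF.cons PF.nil PF.nil)))))))))) (PF.cons (PF.cons (PF.leaf (nat_lit 4505816) (nat_lit 1495439) (nat_lit 46645043) (nat_lit 15466289) [(nat_lit 0), (nat_lit 1495439), (nat_lit 3502040), (nat_lit 0)]) (PF.cons (PF.leaf (nat_lit 4770353) (nat_lit 436940) (nat_lit 46217840) (nat_lit 15411331) [(nat_lit 436940), (nat_lit 1518656), (nat_lit 3524043), (nat_lit 0)]) (PF.cons (PF.leaf (nat_lit 5051228) (nat_lit 451553) (nat_lit 45769069) (nat_lit 15351366) [(nat_lit 451553), (nat_lit 1540492), (nat_lit 3544777), (nat_lit 0)]) (PF.cons (PF.leaf (nat_lit 5345291) (nat_lit 464666) (nat_lit 45303314) (nat_lit 15286754) [(nat_lit 464666),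 (nat_lit 1560820), (nat_lit 3563925), (nat_lit 0)]) (PF.cons (PF.leaf (nat_lit 5650485) (nat_lit 476499) (nat_lit 44824126) (nat_lit 15217792) [(nat_lit 476499), (nat_lit 1579596), (nat_lit 3581297), (nat_lit 0)])
 (PF.cons (PF.leaf (nat_lit 5965091) (nat_lit 487216) (nat_lit 44334373) (nat_lit 15144748) [(nat_lit 487216), (nat_lit 1596823), (nat_lit 3596784), (nat_lit 0)]) (PF.cons PF.nil (PF.cons PF.nil (PF.cons PF.nil PF.nil))))))))) (PF.cons (PF.cons (PF.leaf (nat_lit 5205386) (nat_lit 1554260) (nat_lit 45176261) (nat_lit 15264363) [(nat_lit 0), (nat_lit 1554260), (nat_lit 3559666), (nat_lit 0)]) (PF.cons (PF.leaf (nat_lit 5492554) (nat_lit 467971) (nat_lit 44721006) (nat_lit 15198301) [(nat_lit 467971), (nat_lit 1572709), (nat_lit 3576113), (nat_lit 0)]) (PF.cons (PF.leaf (nat_lit 5791977) (nat_lit 479508) (nat_lit 44251370) (nat_lit 15127822) [(nat_lit 479508), (nat_lit 1589805), (nat_lit 3590993), (nat_lit 0)]) (PF.cons (PF.leaf (nat_lit 6101277) (nat_lit 489905)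 (nat_lit 43770640) (nat_lit 15053264) [(nat_lit 489905), (nat_lit 1605511), (nat_lit 3604169), (nat_lit 0)]) (PF.cons (PF.leaf (nat_lit 6418858) (nat_lit 499301) (nat_lit 43281447) (nat_lit 14974924) [(nat_lit 499301), (nat_lit 1619830), (nat_lit 3615572), (nat_lit 0)]) (PF.cons PF.nil (PF.cons PF.nil PF.nil))))))) (PF.cons (PF.cons (PF.leaf (nat_lit 5934000) (nat_lit 1598792) (nat_lit 43679232) (nat_lit 15034622) [(nat_lit
 0), (nat_lit 1598792), (nat_lit 3598580), (nat_lit 0)]) (PF.cons (PF.leaf (nat_lit 6236939) (nat_lit 492022) (nat_lit 43209016) (nat_lit 14958966) [(nat_lit 492022), (nat_lit 1613068), (nat_lit 3609601), (nat_lit 0)]) (PF.cons (PF.leaf (nat_lit 6549027) (nat_lit 501163) (nat_lit 42729696) (nat_lit 14879522) [(nat_lit 501163), (nat_lit 1626087), (nat_lit 3619006), (nat_lit 0)]) (PF.cons (PF.leaf (nat_lit 6868387) (nat_lit 509398) (nat_lit 42243692) (nat_lit 14796608) [(nat_lit 509398), (nat_lit 1637854), (nat_lit 3626754), (nat_lit 0)]) (PF.cons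 PF.nil PF.nil))))) (PF.cons (PF.cons (PF.leaf (nat_lit 6679048) (nat_lit 1631372) (nat_lit 42180858) (nat_lit 14781717) [(nat_lit 0), (nat_lit 1631372), (nat_lit 3620747), (nat_lit 0)]) (PF.cons (PF.leaf (nat_lit 6992438) (nat_lit 510549) (nat_lit 41705326) (nat_lit 14698078) [(nat_lit 510549), (nat_lit 1642021), (nat_lit 3626770), (nat_lit 0)]) (PF.cons PF.nil (PF.cons PF.nil PF.nil)))) (PF.cons (PF.cons (PF.leaf (nat_lit 7430801) (nat_lit 1653901) (nat_lit 40700638) (nat_lit 14510350) [(nat_lit 0), (nat_lit 1653901), (nat_lit 3628316), (nat_lit 0)]) (PF.cons PF.nil PF.nil)) (PF.cons PF.nil (PF.cons PF.nil PF.nil)))))))) (PF.cons (PF.cons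
 (PF.cons (PF.leaf (nat_lit 5047082) (nat_lit 3538797) (nat_lit 44834805) (nat_lit 15196411) [(nat_lit 0), (nat_lit 0), (nat_lit 3538797), (nat_lit 0)]) (PF.cons (PF.leaf (nat_lit 5314376) (nat_lit 451183) (nat_lit 44413902) (nat_lit 15134267) [(nat_lit 451183), (nat_lit 0), (nat_lit 3554729), (nat_lit 0)]) (PF.cons (PF.leaf (nat_lit 5596840) (nat_lit 464506) (nat_lit 43973715) (nat_lit 15067256) [(nat_lit 464506), (nat_lit 0), (nat_lit 3569414), (nat_lit 0)]) (PF.cons (PF.leaf (nat_lit 5891368) (nat_lit 476333) (nat_lit 43518715) (nat_lit 14995853) [(nat_lit 476333), (nat_lit 0), (nat_lit 3582622), (nat_lit 0)]) (PF.cons (PF.leaf (nat_lit 6195899) (nat_lit 486906) (nat_lit 43052307) (nat_lit 14920437) [(nat_lit 486906), (nat_lit 0), (nat_lit 3594221), (nat_lit 0)]) (PF.cons (PF.leaf (nat_lit 6508791) (nat_lit 496398) (nat_lit 42577201) (nat_lit 14841334) [(nat_lit 496398), (nat_lit 0), (nat_lit 3604142), (nat_lit 0)]) (PF.cons PF.nil PF.nil))))))) (PF.cons (PF.cons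 (PF.leaf (nat_lit 5743179) (nat_lit 1579018) (nat_lit 43401845) (nat_lit 14973063) [(nat_lit 0), (nat_lit 1579018), (nat_lit 3577443), (nat_lit 0)]) (PF.cons (PF.leaf (nat_lit 6030409) (nat_lit 478329) (nat_lit
 42958502) (nat_lit 14900935) [(nat_lit 478329), (nat_lit 1594086), (nat_lit 3588479), (nat_lit 0)]) (PF.cons (PF.leaf (nat_lit 6328852) (nat_lit 488709) (nat_lit 42502656) (nat_lit 14824692) [(nat_lit 488709), (nat_lit 1607899), (nat_lit 3598072), (nat_lit 0)]) (PF.cons (PF.leaf (nat_lit 6636195) (nat_lit 497975) (nat_lit 42037439) (nat_lit 14744736) [(nat_lit 497975), (nat_lit 1620444), (nat_lit 3606133), (nat_lit 0)]) (PF.cons (PF.leaf (nat_lit 6950896) (nat_lit 506275) (nat_lit 41565323) (nat_lit 14661406) [(nat_lit 506275), (nat_lit 1631738), (nat_lit 3612620), (nat_lit 0)]) PF.nil))))) (PF.cons (PF.cons (PF.leaf (nat_lit 6462522) (nat_lit 1613683) (nat_lit 41954664) (nat_lit 14726359) [(nat_lit 0), (nat_lit 1613683), (nat_lit 3600211), (nat_lit 0)]) (PF.cons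 (PF.leaf (nat_lit 6763285) (nat_lit 499053) (nat_lit 41500622) (nat_lit 14645939) [(nat_lit 499053), (nat_lit 1625056), (nat_lit 3606542), (nat_lit 0)]) (PF.cons (PF.leaf (nat_lit 7072328) (nat_lit 507176) (nat_lit 41038933) (nat_lit 14562107) [(nat_lit 507176), (nat_lit 1635283), (nat_lit 3611425), (nat_lit 0)]) (PF.cons PF.nil PF.nil)))) (PF.cons (PF.cons (PF.leaf (nat_lit 7193855) (nat_lit 1638032) (nat_lit 40516039)
 (nat_lit 14460959) [(nat_lit 0), (nat_lit 1638032), (nat_lit 3608857), (nat_lit 0)]) (PF.cons (PF.leaf (nat_lit 7503306) (nat_lit 514749) (nat_lit 40059743) (nat_lit 14373881) [(nat_lit 514749), (nat_lit 1646214), (nat_lit 3610897), (nat_lit 0)]) PF.nil)) (PF.cons PF.nil (PF.cons PF.nil PF.nil)))))) (PF.cons (PF.cons (PF.cons (PF.leaf (nat_lit 6262353) (nat_lit 3579243) (nat_lit 41704472) (nat_lit 14666609) [(nat_lit 0), (nat_lit 0), (nat_lit 3579243), (nat_lit 0)]) (PF.cons (PF.leaf (nat_lit 6548379) (nat_lit 485801) (nat_lit 41275492) (nat_lit 14590012)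 [(nat_lit 485801), (nat_lit 0), (nat_lit 3585835), (nat_lit 0)]) (PF.cons (PF.leaf (nat_lit 6844741) (nat_lit 495166) (nat_lit 40835583) (nat_lit 14509609) [(nat_lit 495166), (nat_lit 0), (nat_lit 3591095), (nat_lit 0)]) (PF.cons (PF.leaf (nat_lit 7149157) (nat_lit 503445) (nat_lit 40387714) (nat_lit 14425844) [(nat_lit 503445), (nat_lit 0), (nat_lit 3594972), (nat_lit 0)]) (PF.cons PF.nil PF.nil))))) (PF.cons (PF.cons (PF.leaf (nat_lit 6970354) (nat_lit 1621125) (nat_lit 40312967) (nat_lit 14408008) [(nat_lit 0), (nat_lit 1621125), (nat_lit 3588903), (nat_lit 0)]) (PF.cons (PF.leaf (nat_lit 7268083) (nat_lit 503673) (nat_lit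
 39876576) (nat_lit 14324304) [(nat_lit 503673), (nat_lit 1630061), (nat_lit 3591399), (nat_lit 0)]) (PF.cons (PF.leaf (nat_lit 7573335) (nat_lit 510911) (nat_lit 39433721) (nat_lit 14237537) [(nat_lit 510911), (nat_lit 1637949), (nat_lit 3592594), (nat_lit 0)]) (PF.cons PF.nil PF.nil)))) (PF.cons (PF.cons (PF.leaf (nat_lit 7686821) (nat_lit 1638650) (nat_lit 38937057) (nat_lit 14134593) [(nat_lit 0), (nat_lit 1638650), (nat_lit 3586620), (nat_lit 0)]) (PF.cons PF.nil PF.nil)) (PF.cons PF.nil (PF.cons PF.nil PF.nil))))) (PF.cons (PF.cons (PF.cons (PF.leaf (nat_lit 7457912) (nat_lit 3567412) (nat_lit 38754791) (nat_lit 14084373) [(nat_lit 0), (nat_lit 0), (nat_lit 3567412), (nat_lit 0)]) (PF.cons (PF.leaf (nat_lit 7751925) (nat_lit 506311) (nat_lit 38336805) (nat_lit 13998606) [(nat_lit 506311), (nat_lit 0), (nat_lit 3566772), (nat_lit 0)]) (PF.cons PF.nil (PF.cons PF.nil PF.nil)))) (PF.cons (PF.cons (PF.leaf (nat_lit 8158795) (nat_lit 1634412) (nat_lit 37442579) (nat_lit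 13806582) [(nat_lit 0), (nat_lit 1634412), (nat_lit 3556309), (nat_lit 0)]) (PF.cons PF.nil PF.nil)) (PF.cons PF.nil PF.nil))) (PF.cons (PF.cons (PF.cons (PF.leaf (nat_lit 8610775) (nat_lit 3519753) (nat_lit
 36030039) (nat_lit 13480004) [(nat_lit 0), (nat_lit 0), (nat_lit 3519753), (nat_lit 0)]) (PF.cons PF.nil PF.nil)) (PF.cons PF.nil PF.nil)) (PF.cons PF.nil (PF.cons PF.nil PF.nil)))))))) (PF.cons (PF.cons (PF.cons (PF.cons (PF.leaf (nat_lit 4735317) (nat_lit 8779993) (nat_lit 43457606) (nat_lit 14871212) [(nat_lit 0), (nat_lit 0), (nat_lit 0), (nat_lit 8779993)]) (PF.cons (PF.leaf (nat_lit 4964953) (nat_lit 405528) (nat_lit 43114532) (nat_lit 14818824) [(nat_lit 405528), (nat_lit 0), (nat_lit 0), (nat_lit 8769927)]) (PF.cons (PF.leaf (nat_lit 5214909) (nat_lit 422970) (nat_lit 42744503) (nat_lit 14760868) [(nat_lit 422970), (nat_lit 0), (nat_lit 0), (nat_lit 8757499)]) (PF.cons (PF.leaf (nat_lit 5480728) (nat_lit 438150) (nat_lit 42353651) (nat_lit 14698045) [(nat_lit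 438150), (nat_lit 0), (nat_lit 0), (nat_lit 8742663)]) (PF.cons (PF.leaf (nat_lit 5759610) (nat_lit 451524) (nat_lit 41946446) (nat_lit 14630865) [(nat_lit 451524), (nat_lit 0), (nat_lit 0), (nat_lit 8725401)]) (PF.cons (PF.leaf (nat_lit 6049396) (nat_lit 463404) (nat_lit 41526336) (nat_lit 14559735) [(nat_lit 463404), (nat_lit 0), (nat_lit 0), (nat_lit 8705718)]) (PF.cons (PF.leaf (nat_lit 6348337) (nat_lit 474014)
 (nat_lit 41096085) (nat_lit 14484997) [(nat_lit 474014), (nat_lit 0), (nat_lit 0), (nat_lit 8683645)]) (PF.cons (PF.leaf (nat_lit 6655002) (nat_lit 483522) (nat_lit 40657969) (nat_lit 14406953) [(nat_lit 483522), (nat_lit 0), (nat_lit 0), (nat_lit 8659229)]) (PF.cons PF.nil (PF.cons PF.nil PF.nil)))))))))) (PF.cons (PF.cons (PF.leaf (nat_lit 5366521) (nat_lit 1501730) (nat_lit 42206036) (nat_lit 14669993) [(nat_lit 0), (nat_lit 1501730), (nat_lit 0), (nat_lit 8731053)]) (PF.cons (PF.leaf (nat_lit 5624008) (nat_lit 440981) (nat_lit 41826243) (nat_lit 14606823)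 [(nat_lit 440981), (nat_lit 1520262), (nat_lit 0), (nat_lit 8714501)]) (PF.cons (PF.leaf (nat_lit 5896279) (nat_lit 454117) (nat_lit 41428600) (nat_lit 14539074) [(nat_lit 454117), (nat_lit 1537382), (nat_lit 0), (nat_lit 8695519)]) (PF.cons (PF.leaf (nat_lit 6180219) (nat_lit 465718) (nat_lit 41017198) (nat_lit 14467271) [(nat_lit 465718), (nat_lit 1553039), (nat_lit 0), (nat_lit 8674148)]) (PF.cons (PF.leaf (nat_lit 6473858) (nat_lit 476033) (nat_lit 40595164) (nat_lit 14391828) [(nat_lit 476033), (nat_lit 1567243), (nat_lit 0), (nat_lit 8650442)]) (PF.cons (PF.leaf (nat_lit 6775557) (nat_lit 485246) (nat_lit 40164986)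
 (nat_lit 14313092) [(nat_lit 485246), (nat_lit 1580036), (nat_lit 0), (nat_lit 8624467)]) (PF.cons (PF.leaf (nat_lit 7083981) (nat_lit 493495) (nat_lit 39728702) (nat_lit 14231365) [(nat_lit 493495), (nat_lit 1591474), (nat_lit 0), (nat_lit 8596296)]) (PF.cons PF.nil (PF.cons PF.nil PF.nil))))))))) (PF.cons (PF.cons (PF.leaf (nat_lit 6034661) (nat_lit 1545774) (nat_lit 40909696) (nat_lit 14444467) [(nat_lit 0), (nat_lit 1545774), (nat_lit 0), (nat_lit 8663100)]) (PF.cons (PF.leaf (nat_lit 6311426) (nat_lit 467391) (nat_lit 40508789) (nat_lit 14372444) [(nat_lit 467391), (nat_lit 1559944), (nat_lit 0), (nat_lit 8640298)]) (PF.cons (PF.leaf (nat_lit 6599086) (nat_lit 477512) (nat_lit 40096271) (nat_lit 14296661) [(nat_lit 477512), (nat_lit 1572835), (nat_lit 0), (nat_lit 8615185)]) (PF.cons (PF.leaf (nat_lit 6895361) (nat_lit 486504) (nat_lit 39675004) (nat_lit 14217538) [(nat_lit 486504), (nat_lit 1584452), (nat_lit 0), (nat_lit 8587850)]) (PF.cons (PF.leaf (nat_lit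 7198746) (nat_lit 494523) (nat_lit 39247249) (nat_lit 14135424) [(nat_lit 494523), (nat_lit 1594830), (nat_lit 0), (nat_lit 8558383)]) (PF.cons PF.nil (PF.cons PF.nil PF.nil))))))) (PF.cons (PF.cons (PF.leaf (nat_lit
 6725141) (nat_lit 1577517) (nat_lit 39598877) (nat_lit 14199461) [(nat_lit 0), (nat_lit 1577517), (nat_lit 0), (nat_lit 8577922)]) (PF.cons (PF.leaf (nat_lit 7014992) (nat_lit 487292) (nat_lit 39187671) (nat_lit 14120299) [(nat_lit 487292), (nat_lit 1588035), (nat_lit 0), (nat_lit 8549441)]) (PF.cons (PF.leaf (nat_lit 7312891) (nat_lit 495146) (nat_lit 38769297) (nat_lit 14038086) [(nat_lit 495146), (nat_lit 1597423), (nat_lit 0), (nat_lit 8518867)]) (PF.cons (PF.leaf (nat_lit 7617057) (nat_lit 502130) (nat_lit 38345817) (nat_lit 13953171) [(nat_lit 502130), (nat_lit 1605707), (nat_lit 0), (nat_lit 8486310)]) (PF.cons PF.nil PF.nil))))) (PF.cons (PF.cons (PF.leaf (nat_lit 7427312) (nat_lit 1599305) (nat_lit 38294448) (nat_lit 13939344) [(nat_lit 0), (nat_lit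 1599305), (nat_lit 0), (nat_lit 8477799)]) (PF.cons (PF.leaf (nat_lit 7725617) (nat_lit 502214) (nat_lit 37880644) (nat_lit 13854587) [(nat_lit 502214), (nat_lit 1606749), (nat_lit 0), (nat_lit 8444367)]) (PF.cons PF.nil (PF.cons PF.nil PF.nil)))) (PF.cons (PF.cons (PF.leaf (nat_lit 8133181) (nat_lit 1612923) (nat_lit 37010989) (nat_lit 13668051) [(nat_lit 0), (nat_lit 1612923), (nat_lit 0), (nat_lit 8365156)]) (PF.cons PF.nil
 PF.nil)) PF.nil)))))) (PF.cons (PF.cons (PF.cons (PF.leaf (nat_lit 5865180) (nat_lit 3477586) (nat_lit 40626322) (nat_lit 14378272) [(nat_lit 0), (nat_lit 0), (nat_lit 3477586), (nat_lit 8626631)]) (PF.cons (PF.leaf (nat_lit 6123675) (nat_lit 450718) (nat_lit 40255316) (nat_lit 14310984) [(nat_lit 450718), (nat_lit 0), (nat_lit 3486564), (nat_lit 8605229)]) (PF.cons (PF.leaf (nat_lit 6395955) (nat_lit 462716) (nat_lit 39868268) (nat_lit 14239322) [(nat_lit 462716), (nat_lit 0), (nat_lit 3494347), (nat_lit 8581440)]) (PF.cons (PF.leaf (nat_lit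 6678977) (nat_lit 473210) (nat_lit 39469116) (nat_lit 14163872) [(nat_lit 473210), (nat_lit 0), (nat_lit 3500810), (nat_lit 8555382)]) (PF.cons (PF.leaf (nat_lit 6970789) (nat_lit 482460) (nat_lit 39060828) (nat_lit 14085088) [(nat_lit 482460), (nat_lit 0), (nat_lit 3505891), (nat_lit 8527160)]) (PF.cons (PF.leaf (nat_lit 7269845) (nat_lit 490656) (nat_lit 38645738) (nat_lit 14003343) [(nat_lit 490656), (nat_lit 0), (nat_lit 3509568), (nat_lit 8496877)]) (PF.cons PF.nil PF.nil))))))) (PF.cons (PF.cons (PF.leaf (nat_lit 6527142) (nat_lit 1558013) (nat_lit 39370655) (nat_lit 14141486) [(nat_lit 0), (nat_lit 1558013), (nat_lit 3494732), (nat_lit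
 8543925)]) (PF.cons (PF.leaf (nat_lit 6802783) (nat_lit 473895) (nat_lit 38982546) (nat_lit 14066305) [(nat_lit 473895), (nat_lit 1569531), (nat_lit 3499652), (nat_lit 8516881)]) (PF.cons (PF.leaf (nat_lit 7088485) (nat_lit 483039) (nat_lit 38584231) (nat_lit 13987641) [(nat_lit 483039), (nat_lit 1579875), (nat_lit 3503314), (nat_lit 8487670)]) (PF.cons (PF.leaf (nat_lit 7382021) (nat_lit 491092) (nat_lit 38178419) (nat_lit 13905944) [(nat_lit 491092), (nat_lit 1589063), (nat_lit 3505683), (nat_lit 8456424)]) (PF.cons (PF.leaf (nat_lit 7681949) (nat_lit 498214) (nat_lit 37767224) (nat_lit 13821578) [(nat_lit 498214), (nat_lit 1597135), (nat_lit 3506755), (nat_lit 8423260)]) PF.nil))))) (PF.cons (PF.cons (PF.leaf (nat_lit 7207209) (nat_lit 1582255) (nat_lit 38109656) (nat_lit 13888583) [(nat_lit 0), (nat_lit 1582255), (nat_lit 3499522), (nat_lit 8446538)]) (PF.cons (PF.leaf (nat_lit 7494241) (nat_lit 491114) (nat_lit 37714132) (nat_lit 13807255) [(nat_lit 491114), (nat_lit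 1590547), (nat_lit 3500688), (nat_lit 8414527)]) (PF.cons (PF.leaf (nat_lit 7788638) (nat_lit 498134) (nat_lit 37312482) (nat_lit 13723174) [(nat_lit 498134), (nat_lit 1597810), (nat_lit 3500649), (nat_lit
 8380615)]) (PF.cons PF.nil PF.nil)))) (PF.cons (PF.cons (PF.leaf (nat_lit 7895803) (nat_lit 1597902) (nat_lit 36861076) (nat_lit 13623716) [(nat_lit 0), (nat_lit 1597902), (nat_lit 3493584), (nat_lit 8336726)]) (PF.cons (PF.leaf (nat_lit 8189979) (nat_lit 503804) (nat_lit 36464912) (nat_lit 13537736) [(nat_lit 503804), (nat_lit 1603486), (nat_lit 3491411), (nat_lit 8300489)]) PF.nil)) (PF.cons PF.nil PF.nil))))) (PF.cons (PF.cons (PF.cons (PF.leaf (nat_lit 7002603) (nat_lit 3478976) (nat_lit 37903938) (nat_lit 13833445) [(nat_lit 0), (nat_lit 0), (nat_lit 3478976), (nat_lit 8413475)]) (PF.cons (PF.leaf (nat_lit 7276291) (nat_lit 478270) (nat_lit 37529836) (nat_lit 13756162) [(nat_lit 478270), (nat_lit 0), (nat_lit 3480721), (nat_lit 8383101)]) (PF.cons (PF.leaf (nat_lit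 7559324) (nat_lit 486558) (nat_lit 37146711) (nat_lit 13675662) [(nat_lit 486558), (nat_lit 0), (nat_lit 3481308), (nat_lit 8350706)]) (PF.cons (PF.leaf (nat_lit 7849513) (nat_lit 493791) (nat_lit 36757120) (nat_lit 13592410) [(nat_lit 493791), (nat_lit 0), (nat_lit 3480728), (nat_lit 8316451)]) (PF.cons PF.nil PF.nil))))) (PF.cons (PF.cons (PF.leaf (nat_lit 7671051) (nat_lit 1581798) (nat_lit 36695101) (nat_lit
 13575883) [(nat_lit 0), (nat_lit 1581798), (nat_lit 3474632), (nat_lit 8306764)]) (PF.cons (PF.leaf (nat_lit 7954728) (nat_lit 493187) (nat_lit 36315813) (nat_lit 13493330) [(nat_lit 493187), (nat_lit 1588218), (nat_lit 3473101), (nat_lit 8272059)]) (PF.cons (PF.leaf (nat_lit 8245146) (nat_lit 499480) (nat_lit 35931255) (nat_lit 13408295) [(nat_lit 499480), (nat_lit 1593699), (nat_lit 3470485), (nat_lit 8235630)]) (PF.cons PF.nil PF.nil)))) (PF.cons (PF.cons (PF.leaf (nat_lit 8345502) (nat_lit 1592348) (nat_lit 35502893) (nat_lit 13309036) [(nat_lit 0), (nat_lit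 1592348), (nat_lit 3461195), (nat_lit 8189795)]) (PF.cons PF.nil PF.nil)) PF.nil))) (PF.cons (PF.cons (PF.cons (PF.leaf (nat_lit 8117257) (nat_lit 3443206) (nat_lit 35353743) (nat_lit 13264169) [(nat_lit 0), (nat_lit 0), (nat_lit 3443206), (nat_lit 8161279)]) (PF.cons (PF.leaf (nat_lit 8397134) (nat_lit 493822) (nat_lit 34990834) (nat_lit 13181157) [(nat_lit 493822), (nat_lit 0), (nat_lit 3439474), (nat_lit 8124576)]) (PF.cons PF.nil PF.nil))) (PF.cons (PF.cons (PF.leaf (nat_lit 8777244) (nat_lit 1583465) (nat_lit 34217347) (nat_lit 12997557) [(nat_lit 0), (nat_lit 1583465), (nat_lit 3423737), (nat_lit 8039228)]) PF.nil)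
 PF.nil)) (PF.cons PF.nil (PF.cons PF.nil PF.nil)))))) (PF.cons (PF.cons (PF.cons (PF.cons (PF.leaf (nat_lit 6593289) (nat_lit 8252450) (nat_lit 37027214) (nat_lit 13576698) [(nat_lit 0), (nat_lit 0), (nat_lit 0), (nat_lit 8252450)]) (PF.cons (PF.leaf (nat_lit 6842457) (nat_lit 445319) (nat_lit 36701333) (nat_lit 13508896) [(nat_lit 445319), (nat_lit 0), (nat_lit 0), (nat_lit 8226632)]) (PF.cons (PF.leaf (nat_lit 7104312) (nat_lit 456237) (nat_lit 36361898) (nat_lit 13437178) [(nat_lit 456237), (nat_lit 0), (nat_lit 0), (nat_lit 8198630)]) (PF.cons (PF.leaf (nat_lit 7375889) (nat_lit 465670) (nat_lit 36012354) (nat_lit 13362168) [(nat_lit 465670), (nat_lit 0), (nat_lit 0), (nat_lit 8168640)]) (PF.cons (PF.leaf (nat_lit 7655330) (nat_lit 473889) (nat_lit 35655277) (nat_lit 13284341) [(nat_lit 473889), (nat_lit 0), (nat_lit 0), (nat_lit 8136817)]) (PF.cons (PF.leaf (nat_lit 7941178) (nat_lit 481091) (nat_lit 35292674) (nat_lit 13204081) [(nat_lit 481091), (nat_lit 0),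 (nat_lit 0), (nat_lit 8103299)]) (PF.cons PF.nil PF.nil))))))) (PF.cons (PF.cons (PF.leaf (nat_lit 7222876) (nat_lit 1524080) (nat_lit 35929300) (nat_lit 13341109) [(nat_lit 0), (nat_lit 1524080), (nat_lit 0), (nat_lit
 8157161)]) (PF.cons (PF.leaf (nat_lit 7487145) (nat_lit 465472) (nat_lit 35589807) (nat_lit 13266920) [(nat_lit 465472), (nat_lit 1533071), (nat_lit 0), (nat_lit 8126770)]) (PF.cons (PF.leaf (nat_lit 7760586) (nat_lit 473650) (nat_lit 35241776) (nat_lit 13189739) [(nat_lit 473650), (nat_lit 1540969), (nat_lit 0), (nat_lit 8094513)]) (PF.cons (PF.leaf (nat_lit 8041054) (nat_lit 480771) (nat_lit 34887547) (nat_lit 13110024) [(nat_lit 480771), (nat_lit 1547814), (nat_lit 0), (nat_lit 8060556)]) (PF.cons PF.nil PF.nil))))) (PF.cons (PF.cons (PF.leaf (nat_lit 7867125) (nat_lit 1541150) (nat_lit 34830221) (nat_lit 13094111) [(nat_lit 0), (nat_lit 1541150), (nat_lit 0), (nat_lit 8051089)]) (PF.cons (PF.leaf (nat_lit 8141260) (nat_lit 480099) (nat_lit 34485188)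 (nat_lit 13015212) [(nat_lit 480099), (nat_lit 1547298), (nat_lit 0), (nat_lit 8016858)]) (PF.cons (PF.leaf (nat_lit 8422068) (nat_lit 486281) (nat_lit 34135068) (nat_lit 12934032) [(nat_lit 486281), (nat_lit 1552518), (nat_lit 0), (nat_lit 7981055)]) (PF.cons PF.nil PF.nil)))) (PF.cons (PF.cons (PF.leaf (nat_lit 8517719) (nat_lit 1550942) (nat_lit 33744141) (nat_lit 12839332) [(nat_lit 0), (nat_lit 1550942), (nat_lit 0), (nat_lit
 7936256)]) (PF.cons PF.nil PF.nil)) (PF.cons PF.nil PF.nil))))) (PF.cons (PF.cons (PF.cons (PF.leaf (nat_lit 7661469) (nat_lit 3363566) (nat_lit 34660155) (nat_lit 13044426) [(nat_lit 0), (nat_lit 0), (nat_lit 3363566), (nat_lit 8020332)]) (PF.cons (PF.leaf (nat_lit 7923420) (nat_lit 467796) (nat_lit 34333419) (nat_lit 12969502) [(nat_lit 467796), (nat_lit 0), (nat_lit 3362259), (nat_lit 7987917)]) (PF.cons (PF.leaf (nat_lit 8193945) (nat_lit 475241) (nat_lit 33999060) (nat_lit 12891812) [(nat_lit 475241), (nat_lit 0), (nat_lit 3359934),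 (nat_lit 7953761)]) (PF.cons (PF.leaf (nat_lit 8470928) (nat_lit 481670) (nat_lit 33659282) (nat_lit 12811816) [(nat_lit 481670), (nat_lit 0), (nat_lit 3356608), (nat_lit 7918047)]) (PF.cons PF.nil PF.nil))))) (PF.cons (PF.cons (PF.leaf (nat_lit 8294407) (nat_lit 1535834) (nat_lit 33607562) (nat_lit 12796829) [(nat_lit 0), (nat_lit 1535834), (nat_lit 3350710), (nat_lit 7908938)]) (PF.cons (PF.leaf (nat_lit 8565104) (nat_lit 480528) (nat_lit 33276866) (nat_lit 12717855) [(nat_lit 480528), (nat_lit 1540510), (nat_lit 3346723), (nat_lit 7873163)]) (PF.cons PF.nil (PF.cons PF.nil PF.nil)))) (PF.cons (PF.cons (PF.leaf (nat_lit 8931813) (nat_lit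
 1541726) (nat_lit 32570595) (nat_lit 12543334) [(nat_lit 0), (nat_lit 1541726), (nat_lit 3330755), (nat_lit 7790336)]) (PF.cons PF.nil PF.nil)) PF.nil))) (PF.cons (PF.cons (PF.cons (PF.leaf (nat_lit 8706316) (nat_lit 3314183) (nat_lit 32447610) (nat_lit 12503701) [(nat_lit 0), (nat_lit 0), (nat_lit 3314183), (nat_lit 7764567)]) (PF.cons (PF.leaf (nat_lit 8973286) (nat_lit 479889) (nat_lit 32131126) (nat_lit 12425137) [(nat_lit 479889), (nat_lit 0), (nat_lit 3308616), (nat_lit 7727713)]) PF.nil)) (PF.cons PF.nil PF.nil)) (PF.cons PF.nil (PF.cons PF.nil PF.nil))))) (PF.cons (PF.cons (PF.cons (PF.cons (PF.leaf (nat_lit 8255302) (nat_lit 7639961) (nat_lit 31876705) (nat_lit 12312222) [(nat_lit 0), (nat_lit 0), (nat_lit 0), (nat_lit 7639961)]) (PF.cons (PF.leaf (nat_lit 8506270) (nat_lit 455817) (nat_lit 31590227) (nat_lit 12241099) [(nat_lit 455817), (nat_lit 0), (nat_lit 0), (nat_lit 7607222)]) (PF.cons (PF.leaf (nat_lit 8765220) (nat_lit 462585) (nat_lit 31297192) (nat_lit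 12167563) [(nat_lit 462585), (nat_lit 0), (nat_lit 0), (nat_lit 7572961)]) (PF.cons PF.nil PF.nil)))) (PF.cons (PF.cons (PF.leaf (nat_lit 8856436) (nat_lit 1487202) (nat_lit 30956101) (nat_lit 12078609) [(nat_lit
 0), (nat_lit 1487202), (nat_lit 0), (nat_lit 7528966)]) (PF.cons (PF.leaf (nat_lit 9115234) (nat_lit 466890) (nat_lit 30666372) (nat_lit 12004267) [(nat_lit 466890), (nat_lit 1490647), (nat_lit 0), (nat_lit 7493544)]) PF.nil)) (PF.cons PF.nil PF.nil))) (PF.cons (PF.cons (PF.cons (PF.leaf (nat_lit 9239528) (nat_lit 3186248) (nat_lit 29947153) (nat_lit 11806350) [(nat_lit 0), (nat_lit 0), (nat_lit 3186248), (nat_lit 7389687)]) (PF.cons PF.nil PF.nil)) (PF.cons PF.nil PF.nil)) (PF.cons PF.nil PF.nil))) (PF.cons (PF.cons (PF.cons (PF.cons (PF.leaf (nat_lit 9727547) (nat_lit 7039687) (nat_lit 27780020) (nat_lit 11170044) [(nat_lit 0), (nat_lit 0), (nat_lit 0), (nat_lit 7039687)]) (PF.cons PF.nil PF.nil)) (PF.cons PF.nil PF.nil)) (PF.cons PF.nil PF.nil)) (PF.cons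 PF.nil (PF.cons PF.nil (PF.cons PF.nil PF.nil))))))))

def p15_23_2_0 : pfC (piC [(nat_lit 38167130), (nat_lit 25010362), (nat_lit 18643303), (nat_lit 12552662)] (nat_lit 6713858)) p15_23_2 (nat_lit 4) (nat_lit 0) (nat_lit 1) = true := by decide +kernel
def p15_23_2_1 : pfC (piC [(nat_lit 38167130), (nat_lit 25010362), (nat_lit 18643303), (nat_lit 12552662)] (nat_lit 6713858)) p15_23_2 (nat_lit 4) (nat_lit 1) (nat_lit 2) = true := by decide +kernel
def p15_23_2_2 : pfC (piC [(nat_lit 38167130), (nat_lit 25010362), (nat_lit 18643303), (nat_lit 12552662)] (nat_lit 6713858)) p15_23_2 (nat_lit 4) (nat_lit 2) (nat_lit 3) = true := by decide +kernel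
def p15_23_2_3 : pfC (piC [(nat_lit 38167130), (nat_lit 25010362), (nat_lit 18643303), (nat_lit 12552662)] (nat_lit 6713858)) p15_23_2 (nat_lit 4) (nat_lit 3) (nat_lit 4) = true := by decide +kernel
def p15_23_2_4 : pfC (piC [(nat_lit 38167130), (nat_lit 25010362), (nat_lit 18643303), (nat_lit 12552662)] (nat_lit 6713858)) p15_23_2 (nat_lit 4) (nat_lit 4) (nat_lit 5) = true := by decide +kernel
def p15_23_2_5 : pfC (piC [(nat_lit 38167130), (nat_lit 25010362), (nat_lit 18643303), (nat_lit 12552662)] (nat_lit 6713858)) p15_23_2 (nat_lit 4) (nat_lit 5) (nat_lit 6) = true := by decide +kernel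
def p15_23_2_6 : pfC (piC [(nat_lit 38167130), (nat_lit 25010362), (nat_lit 18643303), (nat_lit 12552662)] (nat_lit 6713858)) p15_23_2 (nat_lit 4) (nat_lit 6) (nat_lit 7) = true := by decide +kernel
def p15_23_2_7 : pfC (piC [(nat_lit 38167130), (nat_lit 25010362), (nat_lit 18643303), (nat_lit 12552662)] (nat_lit 6713858)) p15_23_2 (nat_lit 4) (nat_lit 7) (nat_lit 8) = true := by decide +kernel
def p15_23_2_8 : pfC (piC [(nat_lit 38167130), (nat_lit 25010362), (nat_lit 18643303), (nat_lit 12552662)] (nat_lit 6713858)) p15_23_2 (nat_lit 4) (nat_lit 8) (nat_lit 9) = true := by decide +kernel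
def p15_23_2_9 : pfC (piC [(nat_lit 38167130), (nat_lit 25010362), (nat_lit 18643303), (nat_lit 12552662)] (nat_lit 6713858)) p15_23_2 (nat_lit 4) (nat_lit 9) (nat_lit 10) = true := by decide +kernel
def p15_23_2_10 : pfC (piC [(nat_lit 38167130), (nat_lit 25010362), (nat_lit 18643303), (nat_lit 12552662)] (nat_lit 6713858)) p15_23_2 (nat_lit 4) (nat_lit 10) (nat_lit 11) = true := by decide +kernel
def p15_23_2_11 : pfC (piC [(nat_lit 38167130), (nat_lit 25010362), (nat_lit 18643303), (nat_lit 12552662)] (nat_lit 6713858)) p15_23_2 (nat_lit 4) (nat_lit 11) (nat_lit 12) = true := by decide +kernel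
def p15_23_2_12 : pfC (piC [(nat_lit 38167130), (nat_lit 25010362), (nat_lit 18643303), (nat_lit 12552662)] (nat_lit 6713858)) p15_23_2 (nat_lit 4) (nat_lit 12) (nat_lit 13) = true := by decide +kernel
def p15_23_2_13 : pfC (piC [(nat_lit 38167130), (nat_lit 25010362), (nat_lit 18643303), (nat_lit 12552662)] (nat_lit 6713858)) p15_23_2 (nat_lit 4) (nat_lit 13) (nat_lit 14) = true := by decide +kernel
def p15_23_2_14 : pfC (piC [(nat_lit 38167130), (nat_lit 25010362), (nat_lit 18643303), (nat_lit 12552662)] (nat_lit 6713858)) p15_23_2 (nat_lit 4) (nat_lit 14) (nat_lit 15) = true := by decide +kernel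
def p15_23_2_15 : pfC (piC [(nat_lit 38167130), (nat_lit 25010362), (nat_lit 18643303), (nat_lit 12552662)] (nat_lit 6713858)) p15_23_2 (nat_lit 4) (nat_lit 15) (nat_lit 16) = true := by decide +kernel
def p15_23_2_16 : pfC (piC [(nat_lit 38167130), (nat_lit 25010362), (nat_lit 18643303), (nat_lit 12552662)] (nat_lit 6713858)) p15_23_2 (nat_lit 4) (nat_lit 16) (nat_lit 17) = true := by decide +kernel
def p15_23_2_17 : pfC (piC [(nat_lit 38167130), (nat_lit 25010362), (nat_lit 18643303), (nat_lit 12552662)] (nat_lit 6713858)) p15_23_2 (nat_lit 4) (nat_lit 17) (nat_lit 18) = true := by decide +kernel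
def p15_23_2_18 : pfC (piC [(nat_lit 38167130), (nat_lit 25010362), (nat_lit 18643303), (nat_lit 12552662)] (nat_lit 6713858)) p15_23_2 (nat_lit 4) (nat_lit 18) (nat_lit 19) = true := by decide +kernel
def p15_23_2_19 : pfC (piC [(nat_lit 38167130), (nat_lit 25010362), (nat_lit 18643303), (nat_lit 12552662)] (nat_lit 6713858)) p15_23_2 (nat_lit 4) (nat_lit 19) (nat_lit 20) = true := by decide +kernel
def p15_23_2_20 : pfC (piC [(nat_lit 38167130), (nat_lit 25010362), (nat_lit 18643303), (nat_lit 12552662)] (nat_lit 6713858)) p15_23_2 (nat_lit 4) (nat_lit 20) (nat_lit 21) = true := by decide +kernel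
def p15_23_2_21 : pfC (piC [(nat_lit 38167130), (nat_lit 25010362), (nat_lit 18643303), (nat_lit 12552662)] (nat_lit 6713858)) p15_23_2 (nat_lit 4) (nat_lit 21) (nat_lit 22) = true := by decide +kernel
def p15_23_2_22 : pfC (piC [(nat_lit 38167130), (nat_lit 25010362), (nat_lit 18643303), (nat_lit 12552662)] (nat_lit 6713858)) p15_23_2 (nat_lit 4) (nat_lit 22) (nat_lit 23) = true := by decide +kernel
def p15_23_2_23 : pfC (piC [(nat_lit 38167130), (nat_lit 25010362), (nat_lit 18643303), (nat_lit 12552662)] (nat_lit 6713858)) p15_23_2 (nat_lit 4) (nat_lit 23) (nat_lit 24) = true := by decide +kernel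
def p15_23_2_24 : pfC (piC [(nat_lit 38167130), (nat_lit 25010362), (nat_lit 18643303), (nat_lit 12552662)] (nat_lit 6713858)) p15_23_2 (nat_lit 4) (nat_lit 24) (nat_lit 25) = true := by decide +kernel
def p15_23_2_25 : pfC (piC [(nat_lit 38167130), (nat_lit 25010362), (nat_lit 18643303), (nat_lit 12552662)] (nat_lit 6713858)) p15_23_2 (nat_lit 4) (nat_lit 25) (nat_lit 26) = true := by decide +kernel
def p15_23_2_26 : pfC (piC [(nat_lit 38167130), (nat_lit 25010362), (nat_lit 18643303), (nat_lit 12552662)] (nat_lit 6713858)) p15_23_2 (nat_lit 4) (nat_lit 26) (nat_lit 27) = true := by decide +kernel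
def p15_23_2_27 : pfC (piC [(nat_lit 38167130), (nat_lit 25010362), (nat_lit 18643303), (nat_lit 12552662)] (nat_lit 6713858)) p15_23_2 (nat_lit 4) (nat_lit 27) (nat_lit 28) = true := by decide +kernel
def p15_23_2_28 : pfC (piC [(nat_lit 38167130), (nat_lit 25010362), (nat_lit 18643303), (nat_lit 12552662)] (nat_lit 6713858)) p15_23_2 (nat_lit 4) (nat_lit 28) (nat_lit 29) = true := by decide +kernel
def p15_23_2_29 : pfC (piC [(nat_lit 38167130), (nat_lit 25010362), (nat_lit 18643303), (nat_lit 12552662)] (nat_lit 6713858)) p15_23_2 (nat_lit 4) (nat_lit 29) (nat_lit 30) = true := by decide +kernel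
def p15_23_2_30 : pfC (piC [(nat_lit 38167130), (nat_lit 25010362), (nat_lit 18643303), (nat_lit 12552662)] (nat_lit 6713858)) p15_23_2 (nat_lit 4) (nat_lit 30) (nat_lit 31) = true := by decide +kernel
def p15_23_2_31 : pfC (piC [(nat_lit 38167130), (nat_lit 25010362), (nat_lit 18643303), (nat_lit 12552662)] (nat_lit 6713858)) p15_23_2 (nat_lit 4) (nat_lit 31) (nat_lit 32) = true := by decide +kernel
def p15_23_2_32 : pfC (piC [(nat_lit 38167130), (nat_lit 25010362), (nat_lit 18643303), (nat_lit 12552662)] (nat_lit 6713858)) p15_23_2 (nat_lit 4) (nat_lit 32) (nat_lit 33) = true := by decide +kernel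
def p15_23_2_33 : pfC (piC [(nat_lit 38167130), (nat_lit 25010362), (nat_lit 18643303), (nat_lit 12552662)] (nat_lit 6713858)) p15_23_2 (nat_lit 4) (nat_lit 33) (nat_lit 34) = true := by decide +kernel
def p15_23_2_34 : pfC (piC [(nat_lit 38167130), (nat_lit 25010362), (nat_lit 18643303), (nat_lit 12552662)] (nat_lit 6713858)) p15_23_2 (nat_lit 4) (nat_lit 34) (nat_lit 35) = true := by decide +kernel
def p15_23_2_35 : pfC (piC [(nat_lit 38167130), (nat_lit 25010362), (nat_lit 18643303), (nat_lit 12552662)] (nat_lit 6713858)) p15_23_2 (nat_lit 4) (nat_lit 35) (nat_lit 36) = true := by decide +kernel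
def p15_23_2_36 : pfC (piC [(nat_lit 38167130), (nat_lit 25010362), (nat_lit 18643303), (nat_lit 12552662)] (nat_lit 6713858)) p15_23_2 (nat_lit 4) (nat_lit 36) (nat_lit 37) = true := by decide +kernel
def p15_23_2_37 : pfC (piC [(nat_lit 38167130), (nat_lit 25010362), (nat_lit 18643303), (nat_lit 12552662)] (nat_lit 6713858)) p15_23_2 (nat_lit 4) (nat_lit 37) (nat_lit 38) = true := by decide +kernel
def p15_23_2_38 : pfC (piC [(nat_lit 38167130), (nat_lit 25010362), (nat_lit 18643303), (nat_lit 12552662)] (nat_lit 6713858)) p15_23_2 (nat_lit 4) (nat_lit 38) (nat_lit 39) = true := by decide +kernel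
def p15_23_2_39 : pfC (piC [(nat_lit 38167130), (nat_lit 25010362), (nat_lit 18643303), (nat_lit 12552662)] (nat_lit 6713858)) p15_23_2 (nat_lit 4) (nat_lit 39) (nat_lit 40) = true := by decide +kernel
def p15_23_2_40 : pfC (piC [(nat_lit 38167130), (nat_lit 25010362), (nat_lit 18643303), (nat_lit 12552662)] (nat_lit 6713858)) p15_23_2 (nat_lit 4) (nat_lit 40) (nat_lit 41) = true := by decide +kernel
def p15_23_2_41 : pfC (piC [(nat_lit 38167130), (nat_lit 25010362), (nat_lit 18643303), (nat_lit 12552662)] (nat_lit 6713858)) p15_23_2 (nat_lit 4) (nat_lit 41) (nat_lit 42) = true := by decide +kernel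
def p15_23_2_42 : pfC (piC [(nat_lit 38167130), (nat_lit 25010362), (nat_lit 18643303), (nat_lit 12552662)] (nat_lit 6713858)) p15_23_2 (nat_lit 4) (nat_lit 42) (nat_lit 43) = true := by decide +kernel
def p15_23_2_43 : pfC (piC [(nat_lit 38167130), (nat_lit 25010362), (nat_lit 18643303), (nat_lit 12552662)] (nat_lit 6713858)) p15_23_2 (nat_lit 4) (nat_lit 43) (nat_lit 44) = true := by decide +kernel
def p15_23_2_44 : pfC (piC [(nat_lit 38167130), (nat_lit 25010362), (nat_lit 18643303), (nat_lit 12552662)] (nat_lit 6713858)) p15_23_2 (nat_lit 4) (nat_lit 44) (nat_lit 45) = true := by decide +kernel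
def p15_23_2_45 : pfC (piC [(nat_lit 38167130), (nat_lit 25010362), (nat_lit 18643303), (nat_lit 12552662)] (nat_lit 6713858)) p15_23_2 (nat_lit 4) (nat_lit 45) (nat_lit 46) = true := by decide +kernel
def p15_23_2_46 : pfC (piC [(nat_lit 38167130), (nat_lit 25010362), (nat_lit 18643303), (nat_lit 12552662)] (nat_lit 6713858)) p15_23_2 (nat_lit 4) (nat_lit 46) (nat_lit 47) = true := by decide +kernel
def p15_23_2_47 : pfC (piC [(nat_lit 38167130), (nat_lit 25010362), (nat_lit 18643303), (nat_lit 12552662)] (nat_lit 6713858)) p15_23_2 (nat_lit 4) (nat_lit 47) (nat_lit 48) = true := by decide +kernel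
def p15_23_2_48 : pfC (piC [(nat_lit 38167130), (nat_lit 25010362), (nat_lit 18643303), (nat_lit 12552662)] (nat_lit 6713858)) p15_23_2 (nat_lit 4) (nat_lit 48) (nat_lit 49) = true := by decide +kernel
def p15_23_2_49 : pfC (piC [(nat_lit 38167130), (nat_lit 25010362), (nat_lit 18643303), (nat_lit 12552662)] (nat_lit 6713858)) p15_23_2 (nat_lit 4) (nat_lit 49) (nat_lit 50) = true := by decide +kernel
def p15_23_2_50 : pfC (piC [(nat_lit 38167130), (nat_lit 25010362), (nat_lit 18643303), (nat_lit 12552662)] (nat_lit 6713858)) p15_23_2 (nat_lit 4) (nat_lit 50) (nat_lit 51) = true := by decide +kernel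
def p15_23_2_51 : pfC (piC [(nat_lit 38167130), (nat_lit 25010362), (nat_lit 18643303), (nat_lit 12552662)] (nat_lit 6713858)) p15_23_2 (nat_lit 4) (nat_lit 51) (nat_lit 52) = true := by decide +kernel
def p15_23_2_52 : pfC (piC [(nat_lit 38167130), (nat_lit 25010362), (nat_lit 18643303), (nat_lit 12552662)] (nat_lit 6713858)) p15_23_2 (nat_lit 4) (nat_lit 52) (nat_lit 53) = true := by decide +kernel
def p15_23_2_53 : pfC (piC [(nat_lit 38167130), (nat_lit 25010362), (nat_lit 18643303), (nat_lit 12552662)] (nat_lit 6713858)) p15_23_2 (nat_lit 4) (nat_lit 53) (nat_lit 54) = true := by decide +kernel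
def p15_23_2_54 : pfC (piC [(nat_lit 38167130), (nat_lit 25010362), (nat_lit 18643303), (nat_lit 12552662)] (nat_lit 6713858)) p15_23_2 (nat_lit 4) (nat_lit 54) (nat_lit 55) = true := by decide +kernel
def p15_23_2_55 : pfC (piC [(nat_lit 38167130), (nat_lit 25010362), (nat_lit 18643303), (nat_lit 12552662)] (nat_lit 6713858)) p15_23_2 (nat_lit 4) (nat_lit 55) (nat_lit 56) = true := by decide +kernel
def p15_23_2_56 : pfC (piC [(nat_lit 38167130), (nat_lit 25010362), (nat_lit 18643303), (nat_lit 12552662)] (nat_lit 6713858)) p15_23_2 (nat_lit 4) (nat_lit 56) (nat_lit 57) = true := by decide +kernel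
def p15_23_2_57 : pfC (piC [(nat_lit 38167130), (nat_lit 25010362), (nat_lit 18643303), (nat_lit 12552662)] (nat_lit 6713858)) p15_23_2 (nat_lit 4) (nat_lit 57) (nat_lit 58) = true := by decide +kernel
def p15_23_2_58 : pfC (piC [(nat_lit 38167130), (nat_lit 25010362), (nat_lit 18643303), (nat_lit 12552662)] (nat_lit 6713858)) p15_23_2 (nat_lit 4) (nat_lit 58) (nat_lit 59) = true := by decide +kernel
def p15_23_2_59 : pfC (piC [(nat_lit 38167130), (nat_lit 25010362), (nat_lit 18643303), (nat_lit 12552662)] (nat_lit 6713858)) p15_23_2 (nat_lit 4) (nat_lit 59) (nat_lit 60) = true := by decide +kernel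
def p15_23_2_60 : pfC (piC [(nat_lit 38167130), (nat_lit 25010362), (nat_lit 18643303), (nat_lit 12552662)] (nat_lit 6713858)) p15_23_2 (nat_lit 4) (nat_lit 60) (nat_lit 61) = true := by decide +kernel
def p15_23_2_61 : pfC (piC [(nat_lit 38167130), (nat_lit 25010362), (nat_lit 18643303), (nat_lit 12552662)] (nat_lit 6713858)) p15_23_2 (nat_lit 4) (nat_lit 61) (nat_lit 62) = true := by decide +kernel
def p15_23_2_62 : pfC (piC [(nat_lit 38167130), (nat_lit 25010362), (nat_lit 18643303), (nat_lit 12552662)] (nat_lit 6713858)) p15_23_2 (nat_lit 4) (nat_lit 62) (nat_lit 63) = true := by decide +kernel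
def p15_23_2_63 : pfC (piC [(nat_lit 38167130), (nat_lit 25010362), (nat_lit 18643303), (nat_lit 12552662)] (nat_lit 6713858)) p15_23_2 (nat_lit 4) (nat_lit 63) (nat_lit 64) = true := by decide +kernel
def p15_23_2_64 : pfC (piC [(nat_lit 38167130), (nat_lit 25010362), (nat_lit 18643303), (nat_lit 12552662)] (nat_lit 6713858)) p15_23_2 (nat_lit 4) (nat_lit 64) (nat_lit 65) = true := by decide +kernel
def p15_23_2_65 : pfC (piC [(nat_lit 38167130), (nat_lit 25010362), (nat_lit 18643303), (nat_lit 12552662)] (nat_lit 6713858)) p15_23_2 (nat_lit 4) (nat_lit 65) (nat_lit 66) = true := by decide +kernel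
def p15_23_2_66 : pfC (piC [(nat_lit 38167130), (nat_lit 25010362), (nat_lit 18643303), (nat_lit 12552662)] (nat_lit 6713858)) p15_23_2 (nat_lit 4) (nat_lit 66) (nat_lit 67) = true := by decide +kernel
def p15_23_2_67 : pfC (piC [(nat_lit 38167130), (nat_lit 25010362), (nat_lit 18643303), (nat_lit 12552662)] (nat_lit 6713858)) p15_23_2 (nat_lit 4) (nat_lit 67) (nat_lit 68) = true := by decide +kernel
def p15_23_2_68 : pfC (piC [(nat_lit 38167130), (nat_lit 25010362), (nat_lit 18643303), (nat_lit 12552662)] (nat_lit 6713858)) p15_23_2 (nat_lit 4) (nat_lit 68) (nat_lit 69) = true := by decide +kernel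
def p15_23_2_69 : pfC (piC [(nat_lit 38167130), (nat_lit 25010362), (nat_lit 18643303), (nat_lit 12552662)] (nat_lit 6713858)) p15_23_2 (nat_lit 4) (nat_lit 69) (nat_lit 70) = true := by decide +kernel
def p15_23_2_70 : pfC (piC [(nat_lit 38167130), (nat_lit 25010362), (nat_lit 18643303), (nat_lit 12552662)] (nat_lit 6713858)) p15_23_2 (nat_lit 4) (nat_lit 70) (nat_lit 71) = true := by decide +kernel
def p15_23_2_71 : pfC (piC [(nat_lit 38167130), (nat_lit 25010362), (nat_lit 18643303), (nat_lit 12552662)] (nat_lit 6713858)) p15_23_2 (nat_lit 4) (nat_lit 71) (nat_lit 72) = true := by decide +kernel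
def p15_23_2_72 : pfC (piC [(nat_lit 38167130), (nat_lit 25010362), (nat_lit 18643303), (nat_lit 12552662)] (nat_lit 6713858)) p15_23_2 (nat_lit 4) (nat_lit 72) (nat_lit 73) = true := by decide +kernel
def p15_23_2_73 : pfC (piC [(nat_lit 38167130), (nat_lit 25010362), (nat_lit 18643303), (nat_lit 12552662)] (nat_lit 6713858)) p15_23_2 (nat_lit 4) (nat_lit 73) (nat_lit 74) = true := by decide +kernel
def p15_23_2_74 : pfC (piC [(nat_lit 38167130), (nat_lit 25010362), (nat_lit 18643303), (nat_lit 12552662)] (nat_lit 6713858)) p15_23_2 (nat_lit 4) (nat_lit 74) (nat_lit 75) = true := by decide +kernel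
def p15_23_2_75 : pfC (piC [(nat_lit 38167130), (nat_lit 25010362), (nat_lit 18643303), (nat_lit 12552662)] (nat_lit 6713858)) p15_23_2 (nat_lit 4) (nat_lit 75) (nat_lit 76) = true := by decide +kernel
def p15_23_2_76 : pfC (piC [(nat_lit 38167130), (nat_lit 25010362), (nat_lit 18643303), (nat_lit 12552662)] (nat_lit 6713858)) p15_23_2 (nat_lit 4) (nat_lit 76) (nat_lit 77) = true := by decide +kernel
def p15_23_2_77 : pfC (piC [(nat_lit 38167130), (nat_lit 25010362), (nat_lit 18643303), (nat_lit 12552662)] (nat_lit 6713858)) p15_23_2 (nat_lit 4) (nat_lit 77) (nat_lit 78) = true := by decide +kernel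
def p15_23_2_78 : pfC (piC [(nat_lit 38167130), (nat_lit 25010362), (nat_lit 18643303), (nat_lit 12552662)] (nat_lit 6713858)) p15_23_2 (nat_lit 4) (nat_lit 78) (nat_lit 79) = true := by decide +kernel
def p15_23_2_79 : pfC (piC [(nat_lit 38167130), (nat_lit 25010362), (nat_lit 18643303), (nat_lit 12552662)] (nat_lit 6713858)) p15_23_2 (nat_lit 4) (nat_lit 79) (nat_lit 80) = true := by decide +kernel
def p15_23_2_80 : pfC (piC [(nat_lit 38167130), (nat_lit 25010362), (nat_lit 18643303), (nat_lit 12552662)] (nat_lit 6713858)) p15_23_2 (nat_lit 4) (nat_lit 80) (nat_lit 81) = true := by decide +kernel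
def p15_23_2_81 : pfC (piC [(nat_lit 38167130), (nat_lit 25010362), (nat_lit 18643303), (nat_lit 12552662)] (nat_lit 6713858)) p15_23_2 (nat_lit 4) (nat_lit 81) (nat_lit 82) = true := by decide +kernel
def p15_23_2_82 : pfC (piC [(nat_lit 38167130), (nat_lit 25010362), (nat_lit 18643303), (nat_lit 12552662)] (nat_lit 6713858)) p15_23_2 (nat_lit 4) (nat_lit 82) (nat_lit 83) = true := by decide +kernel
def p15_23_2_83 : pfC (piC [(nat_lit 38167130), (nat_lit 25010362), (nat_lit 18643303), (nat_lit 12552662)] (nat_lit 6713858)) p15_23_2 (nat_lit 4) (nat_lit 83) (nat_lit 84) = true := by decide +kernel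
def p15_23_2_84 : pfC (piC [(nat_lit 38167130), (nat_lit 25010362), (nat_lit 18643303), (nat_lit 12552662)] (nat_lit 6713858)) p15_23_2 (nat_lit 4) (nat_lit 84) (nat_lit 85) = true := by decide +kernel
def p15_23_2_85 : pfC (piC [(nat_lit 38167130), (nat_lit 25010362), (nat_lit 18643303), (nat_lit 12552662)] (nat_lit 6713858)) p15_23_2 (nat_lit 4) (nat_lit 85) (nat_lit 86) = true := by decide +kernel
def p15_23_2_86 : pfC (piC [(nat_lit 38167130), (nat_lit 25010362), (nat_lit 18643303), (nat_lit 12552662)] (nat_lit 6713858)) p15_23_2 (nat_lit 4) (nat_lit 86) (nat_lit 87) = true := by decide +kernel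
def p15_23_2_87 : pfC (piC [(nat_lit 38167130), (nat_lit 25010362), (nat_lit 18643303), (nat_lit 12552662)] (nat_lit 6713858)) p15_23_2 (nat_lit 4) (nat_lit 87) (nat_lit 88) = true := by decide +kernel
def p15_23_2_88 : pfC (piC [(nat_lit 38167130), (nat_lit 25010362), (nat_lit 18643303), (nat_lit 12552662)] (nat_lit 6713858)) p15_23_2 (nat_lit 4) (nat_lit 88) (nat_lit 89) = true := by decide +kernel
def p15_23_2_89 : pfC (piC [(nat_lit 38167130), (nat_lit 25010362), (nat_lit 18643303), (nat_lit 12552662)] (nat_lit 6713858)) p15_23_2 (nat_lit 4) (nat_lit 89) (nat_lit 90) = true := by decide +kernel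
def p15_23_2_90 : pfC (piC [(nat_lit 38167130), (nat_lit 25010362), (nat_lit 18643303), (nat_lit 12552662)] (nat_lit 6713858)) p15_23_2 (nat_lit 4) (nat_lit 90) (nat_lit 91) = true := by decide +kernel
def p15_23_2_91 : pfC (piC [(nat_lit 38167130), (nat_lit 25010362), (nat_lit 18643303), (nat_lit 12552662)] (nat_lit 6713858)) p15_23_2 (nat_lit 4) (nat_lit 91) (nat_lit 92) = true := by decide +kernel
def p15_23_2_92 : pfC (piC [(nat_lit 38167130), (nat_lit 25010362), (nat_lit 18643303), (nat_lit 12552662)] (nat_lit 6713858)) p15_23_2 (nat_lit 4) (nat_lit 92) (nat_lit 93) = true := by decide +kernel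
def p15_23_2_93 : pfC (piC [(nat_lit 38167130), (nat_lit 25010362), (nat_lit 18643303), (nat_lit 12552662)] (nat_lit 6713858)) p15_23_2 (nat_lit 4) (nat_lit 93) (nat_lit 94) = true := by decide +kernel
def p15_23_2_94 : pfC (piC [(nat_lit 38167130), (nat_lit 25010362), (nat_lit 18643303), (nat_lit 12552662)] (nat_lit 6713858)) p15_23_2 (nat_lit 4) (nat_lit 94) (nat_lit 95) = true := by decide +kernel
def p15_23_2_95 : pfC (piC [(nat_lit 38167130), (nat_lit 25010362), (nat_lit 18643303), (nat_lit 12552662)] (nat_lit 6713858)) p15_23_2 (nat_lit 4) (nat_lit 95) (nat_lit 96) = true := by decide +kernel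
def p15_23_2_96 : pfC (piC [(nat_lit 38167130), (nat_lit 25010362), (nat_lit 18643303), (nat_lit 12552662)] (nat_lit 6713858)) p15_23_2 (nat_lit 4) (nat_lit 96) (nat_lit 97) = true := by decide +kernel
def p15_23_2_97 : pfC (piC [(nat_lit 38167130), (nat_lit 25010362), (nat_lit 18643303), (nat_lit 12552662)] (nat_lit 6713858)) p15_23_2 (nat_lit 4) (nat_lit 97) (nat_lit 98) = true := by decide +kernel
def p15_23_2_98 : pfC (piC [(nat_lit 38167130), (nat_lit 25010362), (nat_lit 18643303), (nat_lit 12552662)] (nat_lit 6713858)) p15_23_2 (nat_lit 4) (nat_lit 98) (nat_lit 99) = true := by decide +kernel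
def p15_23_2_99 : pfC (piC [(nat_lit 38167130), (nat_lit 25010362), (nat_lit 18643303), (nat_lit 12552662)] (nat_lit 6713858)) p15_23_2 (nat_lit 4) (nat_lit 99) (nat_lit 100) = true := by decide +kernel
def p15_23_2_100 : pfC (piC [(nat_lit 38167130), (nat_lit 25010362), (nat_lit 18643303), (nat_lit 12552662)] (nat_lit 6713858)) p15_23_2 (nat_lit 4) (nat_lit 100) (nat_lit 101) = true := by decide +kernel
def p15_23_2_101 : pfC (piC [(nat_lit 38167130), (nat_lit 25010362), (nat_lit 18643303), (nat_lit 12552662)] (nat_lit 6713858)) p15_23_2 (nat_lit 4) (nat_lit 101) (nat_lit 102) = true := by decide +kernel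
def p15_23_2_102 : pfC (piC [(nat_lit 38167130), (nat_lit 25010362), (nat_lit 18643303), (nat_lit 12552662)] (nat_lit 6713858)) p15_23_2 (nat_lit 4) (nat_lit 102) (nat_lit 103) = true := by decide +kernel
def p15_23_2_103 : pfC (piC [(nat_lit 38167130), (nat_lit 25010362), (nat_lit 18643303), (nat_lit 12552662)] (nat_lit 6713858)) p15_23_2 (nat_lit 4) (nat_lit 103) (nat_lit 104) = true := by decide +kernel
def p15_23_2_104 : pfC (piC [(nat_lit 38167130), (nat_lit 25010362), (nat_lit 18643303), (nat_lit 12552662)] (nat_lit 6713858)) p15_23_2 (nat_lit 4) (nat_lit 104) (nat_lit 105) = true := by decide +kernel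
def p15_23_2_105 : pfC (piC [(nat_lit 38167130), (nat_lit 25010362), (nat_lit 18643303), (nat_lit 12552662)] (nat_lit 6713858)) p15_23_2 (nat_lit 4) (nat_lit 105) (nat_lit 106) = true := by decide +kernel
def p15_23_2_106 : pfC (piC [(nat_lit 38167130), (nat_lit 25010362), (nat_lit 18643303), (nat_lit 12552662)] (nat_lit 6713858)) p15_23_2 (nat_lit 4) (nat_lit 106) (nat_lit 107) = true := by decide +kernel
def p15_23_2_107 : pfC (piC [(nat_lit 38167130), (nat_lit 25010362), (nat_lit 18643303), (nat_lit 12552662)] (nat_lit 6713858)) p15_23_2 (nat_lit 4) (nat_lit 107) (nat_lit 108) = true := by decide +kernel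
def p15_23_2_108 : pfC (piC [(nat_lit 38167130), (nat_lit 25010362), (nat_lit 18643303), (nat_lit 12552662)] (nat_lit 6713858)) p15_23_2 (nat_lit 4) (nat_lit 108) (nat_lit 109) = true := by decide +kernel
def p15_23_2_109 : pfC (piC [(nat_lit 38167130), (nat_lit 25010362), (nat_lit 18643303), (nat_lit 12552662)] (nat_lit 6713858)) p15_23_2 (nat_lit 4) (nat_lit 109) (nat_lit 110) = true := by decide +kernel
def p15_23_2_110 : pfC (piC [(nat_lit 38167130), (nat_lit 25010362), (nat_lit 18643303), (nat_lit 12552662)] (nat_lit 6713858)) p15_23_2 (nat_lit 4) (nat_lit 110) (nat_lit 111) = true := by decide +kernel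
def p15_23_2_111 : pfC (piC [(nat_lit 38167130), (nat_lit 25010362), (nat_lit 18643303), (nat_lit 12552662)] (nat_lit 6713858)) p15_23_2 (nat_lit 4) (nat_lit 111) (nat_lit 112) = true := by decide +kernel
def p15_23_2_112 : pfC (piC [(nat_lit 38167130), (nat_lit 25010362), (nat_lit 18643303), (nat_lit 12552662)] (nat_lit 6713858)) p15_23_2 (nat_lit 4) (nat_lit 112) (nat_lit 113) = true := by decide +kernel
def p15_23_2_113 : pfC (piC [(nat_lit 38167130), (nat_lit 25010362), (nat_lit 18643303), (nat_lit 12552662)] (nat_lit 6713858)) p15_23_2 (nat_lit 4) (nat_lit 113) (nat_lit 114) = true := by decide +kernel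
def p15_23_2_114 : pfC (piC [(nat_lit 38167130), (nat_lit 25010362), (nat_lit 18643303), (nat_lit 12552662)] (nat_lit 6713858)) p15_23_2 (nat_lit 4) (nat_lit 114) (nat_lit 115) = true := by decide +kernel
def p15_23_2_115 : pfC (piC [(nat_lit 38167130), (nat_lit 25010362), (nat_lit 18643303), (nat_lit 12552662)] (nat_lit 6713858)) p15_23_2 (nat_lit 4) (nat_lit 115) (nat_lit 116) = true := by decide +kernel
def p15_23_2_116 : pfC (piC [(nat_lit 38167130), (nat_lit 25010362), (nat_lit 18643303), (nat_lit 12552662)] (nat_lit 6713858)) p15_23_2 (nat_lit 4) (nat_lit 116) (nat_lit 117) = true := by decide +kernel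
def p15_23_2_117 : pfC (piC [(nat_lit 38167130), (nat_lit 25010362), (nat_lit 18643303), (nat_lit 12552662)] (nat_lit 6713858)) p15_23_2 (nat_lit 4) (nat_lit 117) (nat_lit 118) = true := by decide +kernel
def p15_23_2_118 : pfC (piC [(nat_lit 38167130), (nat_lit 25010362), (nat_lit 18643303), (nat_lit 12552662)] (nat_lit 6713858)) p15_23_2 (nat_lit 4) (nat_lit 118) (nat_lit 119) = true := by decide +kernel
def p15_23_2_119 : pfC (piC [(nat_lit 38167130), (nat_lit 25010362), (nat_lit 18643303), (nat_lit 12552662)] (nat_lit 6713858)) p15_23_2 (nat_lit 4) (nat_lit 119) (nat_lit 120) = true := by decide +kernel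
def p15_23_2_120 : pfC (piC [(nat_lit 38167130), (nat_lit 25010362), (nat_lit 18643303), (nat_lit 12552662)] (nat_lit 6713858)) p15_23_2 (nat_lit 4) (nat_lit 120) (nat_lit 121) = true := by decide +kernel
def p15_23_2_121 : pfC (piC [(nat_lit 38167130), (nat_lit 25010362), (nat_lit 18643303), (nat_lit 12552662)] (nat_lit 6713858)) p15_23_2 (nat_lit 4) (nat_lit 121) (nat_lit 122) = true := by decide +kernel
def p15_23_2_122 : pfC (piC [(nat_lit 38167130), (nat_lit 25010362), (nat_lit 18643303), (nat_lit 12552662)] (nat_lit 6713858)) p15_23_2 (nat_lit 4) (nat_lit 122) (nat_lit 123) = true := by decide +kernel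
def p15_23_2_123 : pfC (piC [(nat_lit 38167130), (nat_lit 25010362), (nat_lit 18643303), (nat_lit 12552662)] (nat_lit 6713858)) p15_23_2 (nat_lit 4) (nat_lit 123) (nat_lit 124) = true := by decide +kernel
def p15_23_2_124 : pfC (piC [(nat_lit 38167130), (nat_lit 25010362), (nat_lit 18643303), (nat_lit 12552662)] (nat_lit 6713858)) p15_23_2 (nat_lit 4) (nat_lit 124) (nat_lit 125) = true := by decide +kernel
def p15_23_2_125 : pfC (piC [(nat_lit 38167130), (nat_lit 25010362), (nat_lit 18643303), (nat_lit 12552662)] (nat_lit 6713858)) p15_23_2 (nat_lit 4) (nat_lit 125) (nat_lit 126) = true := by decide +kernel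
def p15_23_2_126 : pfC (piC [(nat_lit 38167130), (nat_lit 25010362), (nat_lit 18643303), (nat_lit 12552662)] (nat_lit 6713858)) p15_23_2 (nat_lit 4) (nat_lit 126) (nat_lit 127) = true := by decide +kernel
def p15_23_2_127 : pfC (piC [(nat_lit 38167130), (nat_lit 25010362), (nat_lit 18643303), (nat_lit 12552662)] (nat_lit 6713858)) p15_23_2 (nat_lit 4) (nat_lit 127) (nat_lit 128) = true := by decide +kernel
def p15_23_2_128 : pfC (piC [(nat_lit 38167130), (nat_lit 25010362), (nat_lit 18643303), (nat_lit 12552662)] (nat_lit 6713858)) p15_23_2 (nat_lit 4) (nat_lit 128) (nat_lit 129) = true := by decide +kernel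
def p15_23_2_129 : pfC (piC [(nat_lit 38167130), (nat_lit 25010362), (nat_lit 18643303), (nat_lit 12552662)] (nat_lit 6713858)) p15_23_2 (nat_lit 4) (nat_lit 129) (nat_lit 130) = true := by decide +kernel
def p15_23_2_130 : pfC (piC [(nat_lit 38167130), (nat_lit 25010362), (nat_lit 18643303), (nat_lit 12552662)] (nat_lit 6713858)) p15_23_2 (nat_lit 4) (nat_lit 130) (nat_lit 131) = true := by decide +kernel
def p15_23_2_131 : pfC (piC [(nat_lit 38167130), (nat_lit 25010362), (nat_lit 18643303), (nat_lit 12552662)] (nat_lit 6713858)) p15_23_2 (nat_lit 4) (nat_lit 131) (nat_lit 132) = true := by decide +kernel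
def p15_23_2_132 : pfC (piC [(nat_lit 38167130), (nat_lit 25010362), (nat_lit 18643303), (nat_lit 12552662)] (nat_lit 6713858)) p15_23_2 (nat_lit 4) (nat_lit 132) (nat_lit 133) = true := by decide +kernel
def p15_23_2_133 : pfC (piC [(nat_lit 38167130), (nat_lit 25010362), (nat_lit 18643303), (nat_lit 12552662)] (nat_lit 6713858)) p15_23_2 (nat_lit 4) (nat_lit 133) (nat_lit 134) = true := by decide +kernel
def p15_23_2_134 : pfC (piC [(nat_lit 38167130), (nat_lit 25010362), (nat_lit 18643303), (nat_lit 12552662)] (nat_lit 6713858)) p15_23_2 (nat_lit 4) (nat_lit 134) (nat_lit 135) = true := by decide +kernel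
def p15_23_2_135 : pfC (piC [(nat_lit 38167130), (nat_lit 25010362), (nat_lit 18643303), (nat_lit 12552662)] (nat_lit 6713858)) p15_23_2 (nat_lit 4) (nat_lit 135) (nat_lit 136) = true := by decide +kernel
def p15_23_2_136 : pfC (piC [(nat_lit 38167130), (nat_lit 25010362), (nat_lit 18643303), (nat_lit 12552662)] (nat_lit 6713858)) p15_23_2 (nat_lit 4) (nat_lit 136) (nat_lit 137) = true := by decide +kernel
def p15_23_2_137 : pfC (piC [(nat_lit 38167130), (nat_lit 25010362), (nat_lit 18643303), (nat_lit 12552662)] (nat_lit 6713858)) p15_23_2 (nat_lit 4) (nat_lit 137) (nat_lit 138) = true := by decide +kernel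
def p15_23_2_138 : pfC (piC [(nat_lit 38167130), (nat_lit 25010362), (nat_lit 18643303), (nat_lit 12552662)] (nat_lit 6713858)) p15_23_2 (nat_lit 4) (nat_lit 138) (nat_lit 139) = true := by decide +kernel
def p15_23_2_139 : pfC (piC [(nat_lit 38167130), (nat_lit 25010362), (nat_lit 18643303), (nat_lit 12552662)] (nat_lit 6713858)) p15_23_2 (nat_lit 4) (nat_lit 139) (nat_lit 140) = true := by decide +kernel
def p15_23_2_140 : pfC (piC [(nat_lit 38167130), (nat_lit 25010362), (nat_lit 18643303), (nat_lit 12552662)] (nat_lit 6713858)) p15_23_2 (nat_lit 4) (nat_lit 140) (nat_lit 141) = true := by decide +kernel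
def p15_23_2_141 : pfC (piC [(nat_lit 38167130), (nat_lit 25010362), (nat_lit 18643303), (nat_lit 12552662)] (nat_lit 6713858)) p15_23_2 (nat_lit 4) (nat_lit 141) (nat_lit 142) = true := by decide +kernel
def p15_23_2_142 : pfC (piC [(nat_lit 38167130), (nat_lit 25010362), (nat_lit 18643303), (nat_lit 12552662)] (nat_lit 6713858)) p15_23_2 (nat_lit 4) (nat_lit 142) (nat_lit 143) = true := by decide +kernel
def p15_23_2_143 : pfC (piC [(nat_lit 38167130), (nat_lit 25010362), (nat_lit 18643303), (nat_lit 12552662)] (nat_lit 6713858)) p15_23_2 (nat_lit 4) (nat_lit 143) (nat_lit 144) = true := by decide +kernel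
def p15_23_2_144 : pfC (piC [(nat_lit 38167130), (nat_lit 25010362), (nat_lit 18643303), (nat_lit 12552662)] (nat_lit 6713858)) p15_23_2 (nat_lit 4) (nat_lit 144) (nat_lit 145) = true := by decide +kernel
def p15_23_2_145 : pfC (piC [(nat_lit 38167130), (nat_lit 25010362), (nat_lit 18643303), (nat_lit 12552662)] (nat_lit 6713858)) p15_23_2 (nat_lit 4) (nat_lit 145) (nat_lit 146) = true := by decide +kernel
def p15_23_2_146 : pfC (piC [(nat_lit 38167130), (nat_lit 25010362), (nat_lit 18643303), (nat_lit 12552662)] (nat_lit 6713858)) p15_23_2 (nat_lit 4) (nat_lit 146) (nat_lit 147) = true := by decide +kernel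
def p15_23_2_147 : pfC (piC [(nat_lit 38167130), (nat_lit 25010362), (nat_lit 18643303), (nat_lit 12552662)] (nat_lit 6713858)) p15_23_2 (nat_lit 4) (nat_lit 147) (nat_lit 148) = true := by decide +kernel
def p15_23_2_148 : pfC (piC [(nat_lit 38167130), (nat_lit 25010362), (nat_lit 18643303), (nat_lit 12552662)] (nat_lit 6713858)) p15_23_2 (nat_lit 4) (nat_lit 148) (nat_lit 149) = true := by decide +kernel
def p15_23_2_149 : pfC (piC [(nat_lit 38167130), (nat_lit 25010362), (nat_lit 18643303), (nat_lit 12552662)] (nat_lit 6713858)) p15_23_2 (nat_lit 4) (nat_lit 149) (nat_lit 150) = true := by decide +kernel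
def p15_23_2_150 : pfC (piC [(nat_lit 38167130), (nat_lit 25010362), (nat_lit 18643303), (nat_lit 12552662)] (nat_lit 6713858)) p15_23_2 (nat_lit 4) (nat_lit 150) (nat_lit 151) = true := by decide +kernel
def p15_23_2_151 : pfC (piC [(nat_lit 38167130), (nat_lit 25010362), (nat_lit 18643303), (nat_lit 12552662)] (nat_lit 6713858)) p15_23_2 (nat_lit 4) (nat_lit 151) (nat_lit 152) = true := by decide +kernel
def p15_23_2_152 : pfC (piC [(nat_lit 38167130), (nat_lit 25010362), (nat_lit 18643303), (nat_lit 12552662)] (nat_lit 6713858)) p15_23_2 (nat_lit 4) (nat_lit 152) (nat_lit 153) = true := by decide +kernel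
def p15_23_2_153 : pfC (piC [(nat_lit 38167130), (nat_lit 25010362), (nat_lit 18643303), (nat_lit 12552662)] (nat_lit 6713858)) p15_23_2 (nat_lit 4) (nat_lit 153) (nat_lit 154) = true := by decide +kernel
def p15_23_2_154 : pfC (piC [(nat_lit 38167130), (nat_lit 25010362), (nat_lit 18643303), (nat_lit 12552662)] (nat_lit 6713858)) p15_23_2 (nat_lit 4) (nat_lit 154) (nat_lit 155) = true := by decide +kernel
def p15_23_2_155 : pfC (piC [(nat_lit 38167130), (nat_lit 25010362), (nat_lit 18643303), (nat_lit 12552662)] (nat_lit 6713858)) p15_23_2 (nat_lit 4) (nat_lit 155) (nat_lit 156) = true := by decide +kernel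
def p15_23_2_156 : pfC (piC [(nat_lit 38167130), (nat_lit 25010362), (nat_lit 18643303), (nat_lit 12552662)] (nat_lit 6713858)) p15_23_2 (nat_lit 4) (nat_lit 156) (nat_lit 157) = true := by decide +kernel
def p15_23_2_157 : pfC (piC [(nat_lit 38167130), (nat_lit 25010362), (nat_lit 18643303), (nat_lit 12552662)] (nat_lit 6713858)) p15_23_2 (nat_lit 4) (nat_lit 157) (nat_lit 158) = true := by decide +kernel
def p15_23_2_158 : pfC (piC [(nat_lit 38167130), (nat_lit 25010362), (nat_lit 18643303), (nat_lit 12552662)] (nat_lit 6713858)) p15_23_2 (nat_lit 4) (nat_lit 158) (nat_lit 159) = true := by decide +kernel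
def p15_23_2_159 : pfC (piC [(nat_lit 38167130), (nat_lit 25010362), (nat_lit 18643303), (nat_lit 12552662)] (nat_lit 6713858)) p15_23_2 (nat_lit 4) (nat_lit 159) (nat_lit 160) = true := by decide +kernel
def p15_23_2_160 : pfC (piC [(nat_lit 38167130), (nat_lit 25010362), (nat_lit 18643303), (nat_lit 12552662)] (nat_lit 6713858)) p15_23_2 (nat_lit 4) (nat_lit 160) (nat_lit 161) = true := by decide +kernel
def p15_23_2_161 : pfC (piC [(nat_lit 38167130), (nat_lit 25010362), (nat_lit 18643303), (nat_lit 12552662)] (nat_lit 6713858)) p15_23_2 (nat_lit 4) (nat_lit 161) (nat_lit 162) = true := by decide +kernel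
def p15_23_2_162 : pfC (piC [(nat_lit 38167130), (nat_lit 25010362), (nat_lit 18643303), (nat_lit 12552662)] (nat_lit 6713858)) p15_23_2 (nat_lit 4) (nat_lit 162) (nat_lit 163) = true := by decide +kernel
def p15_23_2_163 : pfC (piC [(nat_lit 38167130), (nat_lit 25010362), (nat_lit 18643303), (nat_lit 12552662)] (nat_lit 6713858)) p15_23_2 (nat_lit 4) (nat_lit 163) (nat_lit 164) = true := by decide +kernel
def p15_23_2_164 : pfC (piC [(nat_lit 38167130), (nat_lit 25010362), (nat_lit 18643303), (nat_lit 12552662)] (nat_lit 6713858)) p15_23_2 (nat_lit 4) (nat_lit 164) (nat_lit 165) = true := by decide +kernel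
def p15_23_2_165 : pfC (piC [(nat_lit 38167130), (nat_lit 25010362), (nat_lit 18643303), (nat_lit 12552662)] (nat_lit 6713858)) p15_23_2 (nat_lit 4) (nat_lit 165) (nat_lit 166) = true := by decide +kernel
def p15_23_2_166 : pfC (piC [(nat_lit 38167130), (nat_lit 25010362), (nat_lit 18643303), (nat_lit 12552662)] (nat_lit 6713858)) p15_23_2 (nat_lit 4) (nat_lit 166) (nat_lit 167) = true := by decide +kernel
def p15_23_2_167 : pfC (piC [(nat_lit 38167130), (nat_lit 25010362), (nat_lit 18643303), (nat_lit 12552662)] (nat_lit 6713858)) p15_23_2 (nat_lit 4) (nat_lit 167) (nat_lit 168) = true := by decide +kernel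
def p15_23_2_168 : pfC (piC [(nat_lit 38167130), (nat_lit 25010362), (nat_lit 18643303), (nat_lit 12552662)] (nat_lit 6713858)) p15_23_2 (nat_lit 4) (nat_lit 168) (nat_lit 169) = true := by decide +kernel
def p15_23_2_169 : pfC (piC [(nat_lit 38167130), (nat_lit 25010362), (nat_lit 18643303), (nat_lit 12552662)] (nat_lit 6713858)) p15_23_2 (nat_lit 4) (nat_lit 169) (nat_lit 170) = true := by decide +kernel
def p15_23_2_170 : pfC (piC [(nat_lit 38167130), (nat_lit 25010362), (nat_lit 18643303), (nat_lit 12552662)] (nat_lit 6713858)) p15_23_2 (nat_lit 4) (nat_lit 170) (nat_lit 171) = true := by decide +kernel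
def p15_23_2_171 : pfC (piC [(nat_lit 38167130), (nat_lit 25010362), (nat_lit 18643303), (nat_lit 12552662)] (nat_lit 6713858)) p15_23_2 (nat_lit 4) (nat_lit 171) (nat_lit 172) = true := by decide +kernel
def p15_23_2_172 : pfC (piC [(nat_lit 38167130), (nat_lit 25010362), (nat_lit 18643303), (nat_lit 12552662)] (nat_lit 6713858)) p15_23_2 (nat_lit 4) (nat_lit 172) (nat_lit 173) = true := by decide +kernel
def p15_23_2_173 : pfC (piC [(nat_lit 38167130), (nat_lit 25010362), (nat_lit 18643303), (nat_lit 12552662)] (nat_lit 6713858)) p15_23_2 (nat_lit 4) (nat_lit 173) (nat_lit 174) = true := by decide +kernel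
def p15_23_2_174 : pfC (piC [(nat_lit 38167130), (nat_lit 25010362), (nat_lit 18643303), (nat_lit 12552662)] (nat_lit 6713858)) p15_23_2 (nat_lit 4) (nat_lit 174) (nat_lit 175) = true := by decide +kernel
def p15_23_2_175 : pfC (piC [(nat_lit 38167130), (nat_lit 25010362), (nat_lit 18643303), (nat_lit 12552662)] (nat_lit 6713858)) p15_23_2 (nat_lit 4) (nat_lit 175) (nat_lit 176) = true := by decide +kernel
theorem p15_23_2_T : PfS (PiF n15_23.reverse (nat_lit 6713858)) p15_23_2 (nat_lit 4) [] 0 :=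
  pftab_of (los := [(nat_lit 38167130), (nat_lit 25010362), (nat_lit 18643303), (nat_lit 12552662)]) (by decide +kernel) (hi := (nat_lit 176)) (PfP.trans (PfP.trans (PfP.trans (PfP.trans (PfP.trans (PfP.trans (PfP.trans (PfP.trans (PfP.trans (PfP.trans (PfP.trans (PfP.trans (PfP.trans (PfP.trans (PfP.trans (PfP.trans (PfP.trans (PfP.trans (PfP.trans (PfP.trans (PfP.trans (PfP.trans (PfP.trans (PfP.trans (PfP.trans (PfP.trans (PfP.trans (PfP.trans (PfP.trans (PfP.trans (PfP.trans (PfP.trans (PfP.trans (PfP.trans (PfP.trans (PfP.trans (PfP.trans (PfP.trans (PfP.trans (PfP.trans (PfP.trans (PfP.trans (PfP.trans (PfP.trans (PfP.trans (PfP.trans (PfP.trans (PfP.trans (PfP.trans (PfP.trans (PfP.trans (PfP.trans (PfP.trans (PfP.trans (PfP.trans (PfP.trans (PfP.trans (PfP.trans (PfP.trans (PfP.trans (PfP.trans (PfP.trans (PfP.trans (PfP.trans (PfP.trans (PfP.trans (PfP.trans (PfP.trans (PfP.trans (PfP.trans (PfP.trans (PfP.trans (PfP.trans (PfP.trans (PfP.trans (PfP.trans (PfP.trans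 (PfP.trans (PfP.trans (PfP.trans (PfP.trans (PfP.trans (PfP.trans (PfP.trans (PfP.trans (PfP.trans (PfP.trans (PfP.trans (PfP.trans (PfP.trans (PfP.trans (PfP.trans (PfP.trans (PfP.trans (PfP.trans (PfP.trans (PfP.trans (PfP.trans (PfP.trans (PfP.trans (PfP.trans (PfP.trans (PfP.trans (PfP.trans (PfP.trans (PfP.trans (PfP.trans (PfP.trans (PfP.trans
 (PfP.trans (PfP.trans (PfP.trans (PfP.trans (PfP.trans (PfP.trans (PfP.trans (PfP.trans (PfP.trans (PfP.trans (PfP.trans (PfP.trans (PfP.trans (PfP.trans (PfP.trans (PfP.trans (PfP.trans (PfP.trans (PfP.trans (PfP.trans (PfP.trans (PfP.trans (PfP.trans (PfP.trans (PfP.trans (PfP.trans (PfP.trans (PfP.trans (PfP.trans (PfP.trans (PfP.trans (PfP.trans (PfP.trans (PfP.trans (PfP.trans (PfP.trans (PfP.trans (PfP.trans (PfP.trans (PfP.trans (PfP.trans (PfP.trans (PfP.trans (PfP.trans (PfP.trans (PfP.trans (PfP.trans (PfP.trans (PfP.trans (PfP.trans (PfP.trans (PfP.trans (PfP.trans (PfP.trans (PfP.trans (PfP.trans (PfP.trans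 (PfP.trans (PfP.trans (PfP.trans (PfP.trans (PfP.trans (PfP.trans (PfP.trans (PfP.trans (PfP.trans (pfC_sound p15_23_2_0) (pfC_sound p15_23_2_1)) (pfC_sound p15_23_2_2)) (pfC_sound p15_23_2_3)) (pfC_sound p15_23_2_4)) (pfC_sound p15_23_2_5)) (pfC_sound p15_23_2_6)) (pfC_sound p15_23_2_7)) (pfC_sound p15_23_2_8)) (pfC_sound p15_23_2_9)) (pfC_sound p15_23_2_10)) (pfC_sound p15_23_2_11)) (pfC_sound p15_23_2_12)) (pfC_sound p15_23_2_13)) (pfC_sound p15_23_2_14)) (pfC_sound p15_23_2_15)) (pfC_sound p15_23_2_16)) (pfC_sound p15_23_2_17)) (pfC_sound p15_23_2_18))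
 (pfC_sound p15_23_2_19)) (pfC_sound p15_23_2_20)) (pfC_sound p15_23_2_21)) (pfC_sound p15_23_2_22)) (pfC_sound p15_23_2_23)) (pfC_sound p15_23_2_24)) (pfC_sound p15_23_2_25)) (pfC_sound p15_23_2_26)) (pfC_sound p15_23_2_27)) (pfC_sound p15_23_2_28)) (pfC_sound p15_23_2_29)) (pfC_sound p15_23_2_30)) (pfC_sound p15_23_2_31)) (pfC_sound p15_23_2_32)) (pfC_sound p15_23_2_33)) (pfC_sound p15_23_2_34)) (pfC_sound p15_23_2_35)) (pfC_sound p15_23_2_36)) (pfC_sound p15_23_2_37)) (pfC_sound p15_23_2_38)) (pfC_sound p15_23_2_39)) (pfC_sound p15_23_2_40)) (pfC_sound p15_23_2_41)) (pfC_sound p15_23_2_42)) (pfC_sound p15_23_2_43)) (pfC_sound p15_23_2_44)) (pfC_sound p15_23_2_45)) (pfC_sound p15_23_2_46)) (pfC_sound p15_23_2_47)) (pfC_sound p15_23_2_48)) (pfC_sound p15_23_2_49)) (pfC_sound p15_23_2_50)) (pfC_sound p15_23_2_51)) (pfC_sound p15_23_2_52)) (pfC_sound p15_23_2_53)) (pfC_sound p15_23_2_54)) (pfC_sound p15_23_2_55)) (pfC_sound p15_23_2_56)) (pfC_sound p15_23_2_57)) (pfC_sound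 p15_23_2_58)) (pfC_sound p15_23_2_59)) (pfC_sound p15_23_2_60)) (pfC_sound p15_23_2_61)) (pfC_sound p15_23_2_62)) (pfC_sound p15_23_2_63)) (pfC_sound p15_23_2_64)) (pfC_sound p15_23_2_65)) (pfC_sound p15_23_2_66))
 (pfC_sound p15_23_2_67)) (pfC_sound p15_23_2_68)) (pfC_sound p15_23_2_69)) (pfC_sound p15_23_2_70)) (pfC_sound p15_23_2_71)) (pfC_sound p15_23_2_72)) (pfC_sound p15_23_2_73)) (pfC_sound p15_23_2_74)) (pfC_sound p15_23_2_75)) (pfC_sound p15_23_2_76)) (pfC_sound p15_23_2_77)) (pfC_sound p15_23_2_78)) (pfC_sound p15_23_2_79)) (pfC_sound p15_23_2_80)) (pfC_sound p15_23_2_81)) (pfC_sound p15_23_2_82)) (pfC_sound p15_23_2_83)) (pfC_sound p15_23_2_84)) (pfC_sound p15_23_2_85)) (pfC_sound p15_23_2_86)) (pfC_sound p15_23_2_87)) (pfC_sound p15_23_2_88)) (pfC_sound p15_23_2_89)) (pfC_sound p15_23_2_90)) (pfC_sound p15_23_2_91)) (pfC_sound p15_23_2_92)) (pfC_sound p15_23_2_93)) (pfC_sound p15_23_2_94)) (pfC_sound p15_23_2_95)) (pfC_sound p15_23_2_96)) (pfC_sound p15_23_2_97))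 (pfC_sound p15_23_2_98)) (pfC_sound p15_23_2_99)) (pfC_sound p15_23_2_100)) (pfC_sound p15_23_2_101)) (pfC_sound p15_23_2_102)) (pfC_sound p15_23_2_103)) (pfC_sound p15_23_2_104)) (pfC_sound p15_23_2_105)) (pfC_sound p15_23_2_106)) (pfC_sound p15_23_2_107)) (pfC_sound p15_23_2_108)) (pfC_sound p15_23_2_109)) (pfC_sound p15_23_2_110)) (pfC_sound p15_23_2_111)) (pfC_sound p15_23_2_112)) (pfC_sound p15_23_2_113)) (pfC_sound
 p15_23_2_114)) (pfC_sound p15_23_2_115)) (pfC_sound p15_23_2_116)) (pfC_sound p15_23_2_117)) (pfC_sound p15_23_2_118)) (pfC_sound p15_23_2_119)) (pfC_sound p15_23_2_120)) (pfC_sound p15_23_2_121)) (pfC_sound p15_23_2_122)) (pfC_sound p15_23_2_123)) (pfC_sound p15_23_2_124)) (pfC_sound p15_23_2_125)) (pfC_sound p15_23_2_126)) (pfC_sound p15_23_2_127)) (pfC_sound p15_23_2_128)) (pfC_sound p15_23_2_129)) (pfC_sound p15_23_2_130)) (pfC_sound p15_23_2_131)) (pfC_sound p15_23_2_132)) (pfC_sound p15_23_2_133)) (pfC_sound p15_23_2_134)) (pfC_sound p15_23_2_135))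 (pfC_sound p15_23_2_136)) (pfC_sound p15_23_2_137)) (pfC_sound p15_23_2_138)) (pfC_sound p15_23_2_139)) (pfC_sound p15_23_2_140)) (pfC_sound p15_23_2_141)) (pfC_sound p15_23_2_142)) (pfC_sound p15_23_2_143)) (pfC_sound p15_23_2_144)) (pfC_sound p15_23_2_145)) (pfC_sound p15_23_2_146)) (pfC_sound p15_23_2_147)) (pfC_sound p15_23_2_148)) (pfC_sound p15_23_2_149)) (pfC_sound p15_23_2_150)) (pfC_sound p15_23_2_151)) (pfC_sound p15_23_2_152)) (pfC_sound p15_23_2_153)) (pfC_sound p15_23_2_154)) (pfC_sound p15_23_2_155)) (pfC_sound p15_23_2_156)) (pfC_sound p15_23_2_157)) (pfC_sound p15_23_2_158)) (pfC_sound p15_23_2_159)) (pfC_sound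
 p15_23_2_160)) (pfC_sound p15_23_2_161)) (pfC_sound p15_23_2_162)) (pfC_sound p15_23_2_163)) (pfC_sound p15_23_2_164)) (pfC_sound p15_23_2_165)) (pfC_sound p15_23_2_166)) (pfC_sound p15_23_2_167)) (pfC_sound p15_23_2_168)) (pfC_sound p15_23_2_169)) (pfC_sound p15_23_2_170)) (pfC_sound p15_23_2_171)) (pfC_sound p15_23_2_172)) (pfC_sound p15_23_2_173)) (pfC_sound p15_23_2_174)) (pfC_sound p15_23_2_175)) (by decide +kernel)

def z15_23_2 : zOK yB15_23 (nat_lit 2) (nat_lit 600) (nat_lit 750) (nat_lit 6713858) (nat_lit 4942965) = true := by decide +kernel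
def g15_23_2 : gOK yB15_23.x P15_23 (nat_lit 1416) (q15_23 :: r15_23) (nat_lit 2) (nat_lit 600) (nat_lit 3) (nat_lit 750) (nat_lit 12712500) (nat_lit 12712500) (nat_lit 12712500) (nat_lit 12712500) [(nat_lit 800), (nat_lit 1600)] = true := by decide +kernel
def v15_23_2 : ivC P15_23 s15_23 w15_23 n15_23 (nat_lit 4) (nat_lit 4780) (nat_lit 2) (nat_lit 600) f160_1_600 f168_1_600 (nat_lit 3) (nat_lit 750) f160_1_750 f168_1_750 (nat_lit 6713858) (nat_lit 4942965) p15_23_2 = true := by decide +kernel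
def p15_23_3 : PF := (PF.cons (PF.cons (PF.cons (PF.cons (PF.leaf (nat_lit 3001607) (nat_lit 19325147) (nat_lit 47783665) (nat_lit 19325147) [(nat_lit 0), (nat_lit 0), (nat_lit 0), (nat_lit 0)]) (PF.cons (PF.leaf (nat_lit 3172046) (nat_lit 306103) (nat_lit 47523074) (nat_lit 19279635) [(nat_lit 306103), (nat_lit 0), (nat_lit 0), (nat_lit 0)]) (PF.cons (PF.leaf (nat_lit 3372952) (nat_lit 332200) (nat_lit 47219078) (nat_lit 19225332) [(nat_lit 332200), (nat_lit 0), (nat_lit 0), (nat_lit 0)]) (PF.cons (PF.leaf (nat_lit 3597864) (nat_lit 355122) (nat_lit 46880149) (nat_lit 19163295) [(nat_lit 355122), (nat_lit 0), (nat_lit 0), (nat_lit 0)]) (PF.cons (PF.leaf (nat_lit 3843026) (nat_lit 375563) (nat_lit 46512331) (nat_lit 19094225) [(nat_lit 375563), (nat_lit 0), (nat_lit 0), (nat_lit 0)]) (PF.cons (PF.leaf (nat_lit 4105642) (nat_lit 393971) (nat_lit 46120303) (nat_lit 19018649) [(nat_lit 393971), (nat_lit 0), (nat_lit 0), (nat_lit 0)]) (PF.cons (PF.leaf (nat_lit 4383340)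 (nat_lit 410657) (nat_lit 45707871) (nat_lit 18936999) [(nat_lit 410657), (nat_lit 0), (nat_lit 0), (nat_lit 0)]) (PF.cons (PF.leaf (nat_lit 4674154) (nat_lit 425846) (nat_lit 45278236) (nat_lit 18849651) [(nat_lit 425846), (nat_lit 0),
 (nat_lit 0), (nat_lit 0)]) (PF.cons (PF.leaf (nat_lit 4976475) (nat_lit 439714) (nat_lit 44834147) (nat_lit 18756952) [(nat_lit 439714), (nat_lit 0), (nat_lit 0), (nat_lit 0)]) (PF.cons (PF.leaf (nat_lit 5288752) (nat_lit 452397) (nat_lit 44378004) (nat_lit 18659229) [(nat_lit 452397), (nat_lit 0), (nat_lit 0), (nat_lit 0)]) (PF.cons PF.nil (PF.cons PF.nil PF.nil)))))))))))) (PF.cons (PF.cons (PF.leaf (nat_lit 3548056) (nat_lit 1318921) (nat_lit 46669445) (nat_lit 19120446) [(nat_lit 0), (nat_lit 1318921), (nat_lit 0), (nat_lit 0)]) (PF.cons (PF.leaf (nat_lit 3765314) (nat_lit 364245) (nat_lit 46336195) (nat_lit 19056960) [(nat_lit 364245), (nat_lit 1351411), (nat_lit 0), (nat_lit 0)]) (PF.cons (PF.leaf (nat_lit 4005052) (nat_lit 383934)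 (nat_lit 45972286) (nat_lit 18985989) [(nat_lit 383934), (nat_lit 1382668), (nat_lit 0), (nat_lit 0)]) (PF.cons (PF.leaf (nat_lit 4263027) (nat_lit 401594) (nat_lit 45583480) (nat_lit 18908300) [(nat_lit 401594), (nat_lit 1412248), (nat_lit 0), (nat_lit 0)]) (PF.cons (PF.leaf (nat_lit 4536488) (nat_lit 417563) (nat_lit 45174131) (nat_lit 18824461) [(nat_lit 417563), (nat_lit 1439964), (nat_lit 0), (nat_lit 0)]) (PF.cons (PF.leaf (nat_lit 4823356)
 (nat_lit 432079) (nat_lit 44747728) (nat_lit 18734934) [(nat_lit 432079), (nat_lit 1465751), (nat_lit 0), (nat_lit 0)]) (PF.cons (PF.leaf (nat_lit 5121790) (nat_lit 445316) (nat_lit 44307172) (nat_lit 18640123) [(nat_lit 445316), (nat_lit 1489616), (nat_lit 0), (nat_lit 0)]) (PF.cons (PF.leaf (nat_lit 5430215) (nat_lit 457411) (nat_lit 43854937) (nat_lit 18540392) [(nat_lit 457411), (nat_lit 1511601), (nat_lit 0), (nat_lit 0)]) (PF.cons (PF.leaf (nat_lit 5747317) (nat_lit 468473) (nat_lit 43393168) (nat_lit 18436085) [(nat_lit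 468473), (nat_lit 1531767), (nat_lit 0), (nat_lit 0)]) (PF.cons PF.nil PF.nil)))))))))) (PF.cons (PF.cons (PF.leaf (nat_lit 4170159) (nat_lit 1407774) (nat_lit 45421464) (nat_lit 18871799) [(nat_lit 0), (nat_lit 1407774), (nat_lit 0), (nat_lit 0)]) (PF.cons (PF.leaf (nat_lit 4421341) (nat_lit 408004) (nat_lit 45039480) (nat_lit 18792832) [(nat_lit 408004), (nat_lit 1434247), (nat_lit 0), (nat_lit 0)]) (PF.cons (PF.leaf (nat_lit 4689563) (nat_lit 423457) (nat_lit 44635876) (nat_lit 18707464) [(nat_lit 423457), (nat_lit 1459278), (nat_lit 0), (nat_lit 0)]) (PF.cons (PF.leaf (nat_lit 4971696) (nat_lit 437446) (nat_lit 44214756) (nat_lit 18616307) [(nat_lit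
 437446), (nat_lit 1482704), (nat_lit 0), (nat_lit 0)]) (PF.cons (PF.leaf (nat_lit 5265688) (nat_lit 450166) (nat_lit 43779361) (nat_lit 18519855) [(nat_lit 450166), (nat_lit 1504465), (nat_lit 0), (nat_lit 0)]) (PF.cons (PF.leaf (nat_lit 5569906) (nat_lit 461762) (nat_lit 43332352) (nat_lit 18418533) [(nat_lit 461762), (nat_lit 1524557), (nat_lit 0), (nat_lit 0)]) (PF.cons (PF.leaf (nat_lit 5882855) (nat_lit 472349) (nat_lit 42875978) (nat_lit 18312723) [(nat_lit 472349), (nat_lit 1543006), (nat_lit 0), (nat_lit 0)]) (PF.cons PF.nil (PF.cons PF.nil PF.nil))))))))) (PF.cons (PF.cons (PF.leaf (nat_lit 4844121) (nat_lit 1476714) (nat_lit 44092730) (nat_lit 18585938) [(nat_lit 0), (nat_lit 1476714), (nat_lit 0), (nat_lit 0)]) (PF.cons (PF.leaf (nat_lit 5120010) (nat_lit 441968) (nat_lit 43679213) (nat_lit 18493788) [(nat_lit 441968), (nat_lit 1497947), (nat_lit 0), (nat_lit 0)]) (PF.cons (PF.leaf (nat_lit 5408889) (nat_lit 454287) (nat_lit 43250743) (nat_lit 18396220)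 [(nat_lit 454287), (nat_lit 1517757), (nat_lit 0), (nat_lit 0)]) (PF.cons (PF.leaf (nat_lit 5708321) (nat_lit 465476) (nat_lit 42810346) (nat_lit 18293756) [(nat_lit 465476), (nat_lit 1536093), (nat_lit 0), (nat_lit 0)])
 (PF.cons (PF.leaf (nat_lit 6016756) (nat_lit 475660) (nat_lit 42360477) (nat_lit 18186836) [(nat_lit 475660), (nat_lit 1552951), (nat_lit 0), (nat_lit 0)]) (PF.cons (PF.leaf (nat_lit 6332827) (nat_lit 484940) (nat_lit 41903192) (nat_lit 18075854) [(nat_lit 484940), (nat_lit 1568354), (nat_lit 0), (nat_lit 0)]) (PF.cons PF.nil PF.nil))))))) (PF.cons (PF.cons (PF.leaf (nat_lit 5552549) (nat_lit 1529636) (nat_lit 42721050) (nat_lit 18269217) [(nat_lit 0), (nat_lit 1529636), (nat_lit 0), (nat_lit 0)]) (PF.cons (PF.leaf (nat_lit 5846126) (nat_lit 468563) (nat_lit 42288808) (nat_lit 18166112) [(nat_lit 468563), (nat_lit 1546332), (nat_lit 0), (nat_lit 0)]) (PF.cons (PF.leaf (nat_lit 6149527) (nat_lit 478422) (nat_lit 41846640) (nat_lit 18058507) [(nat_lit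 478422), (nat_lit 1561705), (nat_lit 0), (nat_lit 0)]) (PF.cons (PF.leaf (nat_lit 6460850) (nat_lit 487372) (nat_lit 41396821) (nat_lit 17946857) [(nat_lit 487372), (nat_lit 1575753), (nat_lit 0), (nat_lit 0)]) (PF.cons PF.nil PF.nil))))) (PF.cons (PF.cons (PF.leaf (nat_lit 6282123) (nat_lit 1569358) (nat_lit 41334253) (nat_lit 17927767) [(nat_lit 0), (nat_lit 1569358), (nat_lit 0), (nat_lit 0)]) (PF.cons (PF.leaf (nat_lit 6587851)
 (nat_lit 489325) (nat_lit 40892943) (nat_lit 17815848) [(nat_lit 489325), (nat_lit 1582139), (nat_lit 0), (nat_lit 0)]) (PF.cons (PF.leaf (nat_lit 6900936) (nat_lit 497186) (nat_lit 40445532) (nat_lit 17700281) [(nat_lit 497186), (nat_lit 1593725), (nat_lit 0), (nat_lit 0)]) (PF.cons PF.nil PF.nil)))) (PF.cons (PF.cons (PF.leaf (nat_lit 7022473) (nat_lit 1598080) (nat_lit 39952948) (nat_lit 17567379) [(nat_lit 0), (nat_lit 1598080), (nat_lit 0), (nat_lit 0)]) (PF.cons PF.nil PF.nil)) (PF.cons PF.nil (PF.cons PF.nil PF.nil))))))))) (PF.cons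 (PF.cons (PF.cons (PF.leaf (nat_lit 4070527) (nat_lit 3327485) (nat_lit 45011257) (nat_lit 18770069) [(nat_lit 0), (nat_lit 0), (nat_lit 3327485), (nat_lit 0)]) (PF.cons (PF.leaf (nat_lit 4295791) (nat_lit 386514) (nat_lit 44671370) (nat_lit 18698442) [(nat_lit 386514), (nat_lit 0), (nat_lit 3352485), (nat_lit 0)]) (PF.cons (PF.leaf (nat_lit 4542267) (nat_lit 404678) (nat_lit 44303183) (nat_lit 18619279) [(nat_lit 404678), (nat_lit 0), (nat_lit 3376992), (nat_lit 0)]) (PF.cons (PF.leaf (nat_lit 4805607) (nat_lit 420751) (nat_lit 43912626) (nat_lit 18533550) [(nat_lit 420751), (nat_lit 0), (nat_lit 3400382), (nat_lit 0)]) (PF.cons (PF.leaf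
 (nat_lit 5083094) (nat_lit 435127) (nat_lit 43504068) (nat_lit 18441962) [(nat_lit 435127), (nat_lit 0), (nat_lit 3422271), (nat_lit 0)]) (PF.cons (PF.leaf (nat_lit 5372596) (nat_lit 448077) (nat_lit 43080925) (nat_lit 18345076) [(nat_lit 448077), (nat_lit 0), (nat_lit 3442424), (nat_lit 0)]) (PF.cons (PF.leaf (nat_lit 5672374) (nat_lit 459794) (nat_lit 42645977) (nat_lit 18243367) [(nat_lit 459794), (nat_lit 0), (nat_lit 3460701), (nat_lit 0)]) (PF.cons (PF.leaf (nat_lit 5980937) (nat_lit 470425) (nat_lit 42201547) (nat_lit 18137251) [(nat_lit 470425), (nat_lit 0), (nat_lit 3477033), (nat_lit 0)]) (PF.cons PF.nil (PF.cons PF.nil PF.nil)))))))))) (PF.cons (PF.cons (PF.leaf (nat_lit 4701488) (nat_lit 1454255) (nat_lit 43759891) (nat_lit 18496081) [(nat_lit 0), (nat_lit 1454255), (nat_lit 3398583), (nat_lit 0)]) (PF.cons (PF.leaf (nat_lit 4957246) (nat_lit 425183) (nat_lit 43378584) (nat_lit 18409980) [(nat_lit 425183), (nat_lit 1476271), (nat_lit 3418792), (nat_lit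 0)]) (PF.cons (PF.leaf (nat_lit 5228790) (nat_lit 439230) (nat_lit 42977914) (nat_lit 18317715) [(nat_lit 439230), (nat_lit 1496939), (nat_lit 3437782), (nat_lit 0)]) (PF.cons (PF.leaf (nat_lit 5513021) (nat_lit 451814)
 (nat_lit 42561942) (nat_lit 18220009) [(nat_lit 451814), (nat_lit 1516147), (nat_lit 3455269), (nat_lit 0)]) (PF.cons (PF.leaf (nat_lit 5807936) (nat_lit 463154) (nat_lit 42133809) (nat_lit 18117434) [(nat_lit 463154), (nat_lit 1533862), (nat_lit 3471087), (nat_lit 0)]) (PF.cons (PF.leaf (nat_lit 6111902) (nat_lit 473411) (nat_lit 41696050) (nat_lit 18010469) [(nat_lit 473411), (nat_lit 1550094), (nat_lit 3485142), (nat_lit 0)]) (PF.cons (PF.leaf (nat_lit 6423548) (nat_lit 482707) (nat_lit 41250767) (nat_lit 17899530) [(nat_lit 482707), (nat_lit 1564878), (nat_lit 3497393), (nat_lit 0)]) (PF.cons PF.nil (PF.cons PF.nil PF.nil))))))))) (PF.cons (PF.cons (PF.leaf (nat_lit 5376149) (nat_lit 1509638) (nat_lit 42448918) (nat_lit 18189725) [(nat_lit 0), (nat_lit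 1509638), (nat_lit 3450891), (nat_lit 0)]) (PF.cons (PF.leaf (nat_lit 5653659) (nat_lit 454832) (nat_lit 42042123) (nat_lit 18091812) [(nat_lit 454832), (nat_lit 1527076), (nat_lit 3465890), (nat_lit 0)]) (PF.cons (PF.leaf (nat_lit 5943014) (nat_lit 465898) (nat_lit 41622302) (nat_lit 17988865) [(nat_lit 465898), (nat_lit 1543214), (nat_lit 3479418), (nat_lit 0)]) (PF.cons (PF.leaf (nat_lit 6241909) (nat_lit 475859) (nat_lit
 41192365) (nat_lit 17881464) [(nat_lit 475859), (nat_lit 1558024), (nat_lit 3491356), (nat_lit 0)]) (PF.cons (PF.leaf (nat_lit 6548785) (nat_lit 484853) (nat_lit 40754634) (nat_lit 17770089) [(nat_lit 484853), (nat_lit 1571514), (nat_lit 3501646), (nat_lit 0)]) (PF.cons PF.nil (PF.cons PF.nil PF.nil))))))) (PF.cons (PF.cons (PF.leaf (nat_lit 6078780) (nat_lit 1551438) (nat_lit 41111040) (nat_lit 17857620) [(nat_lit 0), (nat_lit 1551438), (nat_lit 3485836), (nat_lit 0)]) (PF.cons (PF.leaf (nat_lit 6371518) (nat_lit 477769) (nat_lit 40690246) (nat_lit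 17750252) [(nat_lit 477769), (nat_lit 1564913), (nat_lit 3495804), (nat_lit 0)]) (PF.cons (PF.leaf (nat_lit 6673139) (nat_lit 486529) (nat_lit 40261072) (nat_lit 17638829) [(nat_lit 486529), (nat_lit 1577192), (nat_lit 3504272), (nat_lit 0)]) (PF.cons (PF.leaf (nat_lit 6981807) (nat_lit 494417) (nat_lit 39825661) (nat_lit 17523831) [(nat_lit 494417), (nat_lit 1588287), (nat_lit 3511205), (nat_lit 0)]) (PF.cons PF.nil PF.nil))))) (PF.cons (PF.cons (PF.leaf (nat_lit 6797543) (nat_lit 1581980) (nat_lit 39769770) (nat_lit 17505747) [(nat_lit 0), (nat_lit 1581980), (nat_lit 3505371), (nat_lit 0)]) (PF.cons (PF.leaf (nat_lit 7100484)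
 (nat_lit 495435) (nat_lit 39343436) (nat_lit 17391049) [(nat_lit 495435), (nat_lit 1592038), (nat_lit 3510736), (nat_lit 0)]) (PF.cons (PF.leaf (nat_lit 7409997) (nat_lit 502345) (nat_lit 38912184) (nat_lit 17273152) [(nat_lit 502345), (nat_lit 1601026), (nat_lit 3514679), (nat_lit 0)]) (PF.cons PF.nil PF.nil)))) (PF.cons (PF.cons (PF.leaf (nat_lit 7523345) (nat_lit 1603119) (nat_lit 38442171) (nat_lit 17139500) [(nat_lit 0), (nat_lit 1603119), (nat_lit 3511542), (nat_lit 0)]) (PF.cons PF.nil PF.nil)) (PF.cons PF.nil (PF.cons PF.nil PF.nil)))))))) (PF.cons (PF.cons (PF.cons (PF.leaf (nat_lit 5220203) (nat_lit 3430249) (nat_lit 42145933) (nat_lit 18102379) [(nat_lit 0), (nat_lit 0), (nat_lit 3430249), (nat_lit 0)]) (PF.cons (PF.leaf (nat_lit 5478619) (nat_lit 438473) (nat_lit 41769670) (nat_lit 18010901) [(nat_lit 438473), (nat_lit 0), (nat_lit 3444883), (nat_lit 0)]) (PF.cons (PF.leaf (nat_lit 5751731) (nat_lit 451292) (nat_lit 41376009) (nat_lit 17913546) [(nat_lit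 451292), (nat_lit 0), (nat_lit 3458335), (nat_lit 0)]) (PF.cons (PF.leaf (nat_lit 6036461) (nat_lit 462658) (nat_lit 40968914) (nat_lit 17811120) [(nat_lit 462658), (nat_lit 0), (nat_lit 3470400), (nat_lit 0)])
 (PF.cons (PF.leaf (nat_lit 6330852) (nat_lit 472809) (nat_lit 40551404) (nat_lit 17704247) [(nat_lit 472809), (nat_lit 0), (nat_lit 3480961), (nat_lit 0)]) (PF.cons (PF.leaf (nat_lit 6633328) (nat_lit 481915) (nat_lit 40125877) (nat_lit 17593439) [(nat_lit 481915), (nat_lit 0), (nat_lit 3489958), (nat_lit 0)]) (PF.cons PF.nil (PF.cons PF.nil (PF.cons PF.nil PF.nil))))))))) (PF.cons (PF.cons (PF.leaf (nat_lit 5891846) (nat_lit 1532174) (nat_lit 40864754) (nat_lit 17781399) [(nat_lit 0), (nat_lit 1532174), (nat_lit 3465242), (nat_lit 0)]) (PF.cons (PF.leaf (nat_lit 6169521) (nat_lit 464461) (nat_lit 40467838) (nat_lit 17679424) [(nat_lit 464461), (nat_lit 1546462), (nat_lit 3475312), (nat_lit 0)]) (PF.cons (PF.leaf (nat_lit 6458076) (nat_lit 474438) (nat_lit 40059512)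 (nat_lit 17572801) [(nat_lit 474438), (nat_lit 1559551), (nat_lit 3484034), (nat_lit 0)]) (PF.cons (PF.leaf (nat_lit 6755264) (nat_lit 483338) (nat_lit 39642556) (nat_lit 17462145) [(nat_lit 483338), (nat_lit 1571433), (nat_lit 3491331), (nat_lit 0)]) (PF.cons (PF.leaf (nat_lit 7059565) (nat_lit 491306) (nat_lit 39219160) (nat_lit 17347960) [(nat_lit 491306), (nat_lit 1582126), (nat_lit 3497169), (nat_lit 0)]) (PF.cons
 PF.nil (PF.cons PF.nil PF.nil))))))) (PF.cons (PF.cons (PF.leaf (nat_lit 6586168) (nat_lit 1564842) (nat_lit 39568753) (nat_lit 17439257) [(nat_lit 0), (nat_lit 1564842), (nat_lit 3485558), (nat_lit 0)]) (PF.cons (PF.leaf (nat_lit 6877024) (nat_lit 484290) (nat_lit 39161518) (nat_lit 17329188) [(nat_lit 484290), (nat_lit 1575631), (nat_lit 3491276), (nat_lit 0)]) (PF.cons (PF.leaf (nat_lit 7175945) (nat_lit 492100) (nat_lit 38747165) (nat_lit 17215476) [(nat_lit 492100), (nat_lit 1585333), (nat_lit 3495652), (nat_lit 0)]) (PF.cons (PF.leaf (nat_lit 7481156)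 (nat_lit 499071) (nat_lit 38327703) (nat_lit 17098613) [(nat_lit 499071), (nat_lit 1593967), (nat_lit 3498672), (nat_lit 0)]) (PF.cons PF.nil PF.nil))))) (PF.cons (PF.cons (PF.leaf (nat_lit 7292564) (nat_lit 1587812) (nat_lit 38277933) (nat_lit 17081651) [(nat_lit 0), (nat_lit 1587812), (nat_lit 3492895), (nat_lit 0)]) (PF.cons (PF.leaf (nat_lit 7591983) (nat_lit 499327) (nat_lit 37867824) (nat_lit 16965545) [(nat_lit 499327), (nat_lit 1595596), (nat_lit 3494662), (nat_lit 0)]) (PF.cons PF.nil (PF.cons PF.nil PF.nil)))) (PF.cons (PF.cons (PF.leaf (nat_lit 8003011) (nat_lit 1602687) (nat_lit 37006507) (nat_lit 16713521)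
 [(nat_lit 0), (nat_lit 1602687), (nat_lit 3489018), (nat_lit 0)]) (PF.cons PF.nil PF.nil)) (PF.cons PF.nil PF.nil)))))) (PF.cons (PF.cons (PF.cons (PF.leaf (nat_lit 6390643) (nat_lit 3465308) (nat_lit 39346094) (nat_lit 17366793) [(nat_lit 0), (nat_lit 0), (nat_lit 3465308), (nat_lit 0)]) (PF.cons (PF.leaf (nat_lit 6667335) (nat_lit 471441) (nat_lit 38961165) (nat_lit 17262199) [(nat_lit 471441), (nat_lit 0), (nat_lit 3471335), (nat_lit 0)]) (PF.cons (PF.leaf (nat_lit 6954094) (nat_lit 480464) (nat_lit 38566190) (nat_lit 17153325) [(nat_lit 480464), (nat_lit 0), (nat_lit 3476123), (nat_lit 0)]) (PF.cons (PF.leaf (nat_lit 7248688) (nat_lit 488439) (nat_lit 38163809) (nat_lit 17040810) [(nat_lit 488439), (nat_lit 0), (nat_lit 3479625), (nat_lit 0)]) (PF.cons (PF.leaf (nat_lit 7549689) (nat_lit 495518) (nat_lit 37756081) (nat_lit 16925169) [(nat_lit 495518), (nat_lit 0), (nat_lit 3481829), (nat_lit 0)]) PF.nil))))) (PF.cons (PF.cons (PF.leaf (nat_lit 7074794) (nat_lit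 1571490) (nat_lit 38097001) (nat_lit 17019046) [(nat_lit 0), (nat_lit 1571490), (nat_lit 3473758), (nat_lit 0)]) (PF.cons (PF.leaf (nat_lit 7362961) (nat_lit 488609) (nat_lit 37704620) (nat_lit 16907564) [(nat_lit
 488609), (nat_lit 1580024), (nat_lit 3475998), (nat_lit 0)]) (PF.cons (PF.leaf (nat_lit 7658504) (nat_lit 495591) (nat_lit 37306153) (nat_lit 16792814) [(nat_lit 495591), (nat_lit 1587566), (nat_lit 3477032), (nat_lit 0)]) (PF.cons PF.nil PF.nil)))) (PF.cons (PF.cons (PF.leaf (nat_lit 7767768) (nat_lit 1588177) (nat_lit 36859277) (nat_lit 16659505) [(nat_lit 0), (nat_lit 1588177), (nat_lit 3471224), (nat_lit 0)]) (PF.cons (PF.leaf (nat_lit 8063164) (nat_lit 501400) (nat_lit 36466021) (nat_lit 16543100) [(nat_lit 501400), (nat_lit 1594056), (nat_lit 3470058), (nat_lit 0)]) PF.nil)) (PF.cons PF.nil (PF.cons PF.nil PF.nil))))) (PF.cons (PF.cons (PF.cons (PF.leaf (nat_lit 7545023) (nat_lit 3452877) (nat_lit 36696442) (nat_lit 16600859) [(nat_lit 0), (nat_lit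 0), (nat_lit 3452877), (nat_lit 0)]) (PF.cons (PF.leaf (nat_lit 7829878) (nat_lit 491114) (nat_lit 36319611) (nat_lit 16489011) [(nat_lit 491114), (nat_lit 0), (nat_lit 3452268), (nat_lit 0)]) (PF.cons (PF.leaf (nat_lit 8121539) (nat_lit 497371) (nat_lit 35937544) (nat_lit 16374231) [(nat_lit 497371), (nat_lit 0), (nat_lit 3450573), (nat_lit 0)]) (PF.cons PF.nil PF.nil)))) (PF.cons (PF.cons (PF.leaf (nat_lit 8223889) (nat_lit
 1584141) (nat_lit 35512821) (nat_lit 16242413) [(nat_lit 0), (nat_lit 1584141), (nat_lit 3442359), (nat_lit 0)]) (PF.cons PF.nil PF.nil)) (PF.cons PF.nil PF.nil))) (PF.cons (PF.cons (PF.cons (PF.leaf (nat_lit 8661778) (nat_lit 3407904) (nat_lit 34236570) (nat_lit 15832718) [(nat_lit 0), (nat_lit 0), (nat_lit 3407904), (nat_lit 0)]) (PF.cons PF.nil PF.nil)) (PF.cons PF.nil PF.nil)) (PF.cons PF.nil (PF.cons PF.nil PF.nil)))))))) (PF.cons (PF.cons (PF.cons (PF.cons (PF.leaf (nat_lit 4911497) (nat_lit 8470483) (nat_lit 40928216) (nat_lit 17710113)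 [(nat_lit 0), (nat_lit 0), (nat_lit 0), (nat_lit 8470483)]) (PF.cons (PF.leaf (nat_lit 5133914) (nat_lit 394239) (nat_lit 40620701) (nat_lit 17633646) [(nat_lit 394239), (nat_lit 0), (nat_lit 0), (nat_lit 8460226)]) (PF.cons (PF.leaf (nat_lit 5376026) (nat_lit 411102) (nat_lit 40288903) (nat_lit 17549962) [(nat_lit 411102), (nat_lit 0), (nat_lit 0), (nat_lit 8447740)]) (PF.cons (PF.leaf (nat_lit 5633443) (nat_lit 425762) (nat_lit 39938290) (nat_lit 17460224) [(nat_lit 425762), (nat_lit 0), (nat_lit 0), (nat_lit 8433010)]) (PF.cons (PF.leaf (nat_lit 5903526) (nat_lit 438666) (nat_lit 39572839) (nat_lit 17365273) [(nat_lit 438666), (nat_lit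
 0), (nat_lit 0), (nat_lit 8416034)]) (PF.cons (PF.leaf (nat_lit 6184123) (nat_lit 450119) (nat_lit 39195616) (nat_lit 17265767) [(nat_lit 450119), (nat_lit 0), (nat_lit 0), (nat_lit 8396831)]) (PF.cons (PF.leaf (nat_lit 6473620) (nat_lit 460341) (nat_lit 38809079) (nat_lit 17162244) [(nat_lit 460341), (nat_lit 0), (nat_lit 0), (nat_lit 8375438)]) (PF.cons (PF.leaf (nat_lit 6770578) (nat_lit 469499) (nat_lit 38415249) (nat_lit 17055161) [(nat_lit 469499), (nat_lit 0), (nat_lit 0), (nat_lit 8351906)]) (PF.cons PF.nil (PF.cons PF.nil PF.nil)))))))))) (PF.cons (PF.cons (PF.leaf (nat_lit 5521824) (nat_lit 1457782) (nat_lit 39806228) (nat_lit 17423036) [(nat_lit 0), (nat_lit 1457782), (nat_lit 0), (nat_lit 8421766)]) (PF.cons (PF.leaf (nat_lit 5771172) (nat_lit 428399) (nat_lit 39465320) (nat_lit 17334033) [(nat_lit 428399), (nat_lit 1475523), (nat_lit 0), (nat_lit 8405536)]) (PF.cons (PF.leaf (nat_lit 6034836) (nat_lit 441081) (nat_lit 39108218) (nat_lit 17239478) [(nat_lit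 441081), (nat_lit 1491899), (nat_lit 0), (nat_lit 8387052)]) (PF.cons (PF.leaf (nat_lit 6309838) (nat_lit 452273) (nat_lit 38738567) (nat_lit 17140188) [(nat_lit 452273), (nat_lit 1506867), (nat_lit 0), (nat_lit
 8366368)]) (PF.cons (PF.leaf (nat_lit 6594208) (nat_lit 462219) (nat_lit 38359151) (nat_lit 17036797) [(nat_lit 462219), (nat_lit 1520441), (nat_lit 0), (nat_lit 8343543)]) (PF.cons (PF.leaf (nat_lit 6886410) (nat_lit 471100) (nat_lit 37972182) (nat_lit 16929818) [(nat_lit 471100), (nat_lit 1532666), (nat_lit 0), (nat_lit 8318642)]) (PF.cons (PF.leaf (nat_lit 7185158) (nat_lit 479051) (nat_lit 37579472) (nat_lit 16819689) [(nat_lit 479051), (nat_lit 1543598), (nat_lit 0), (nat_lit 8291741)]) (PF.cons PF.nil (PF.cons PF.nil PF.nil))))))))) (PF.cons (PF.cons (PF.leaf (nat_lit 6167957) (nat_lit 1499770) (nat_lit 38642319) (nat_lit 17111146) [(nat_lit 0), (nat_lit 1499770), (nat_lit 0), (nat_lit 8355805)]) (PF.cons (PF.leaf (nat_lit 6435987) (nat_lit 453818) (nat_lit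 38281842) (nat_lit 17012611) [(nat_lit 453818), (nat_lit 1513331), (nat_lit 0), (nat_lit 8333877)]) (PF.cons (PF.leaf (nat_lit 6714627) (nat_lit 463585) (nat_lit 37910713) (nat_lit 16909770) [(nat_lit 463585), (nat_lit 1525666), (nat_lit 0), (nat_lit 8309824)]) (PF.cons (PF.leaf (nat_lit 7001637) (nat_lit 472262) (nat_lit 37531480) (nat_lit 16803237) [(nat_lit 472262), (nat_lit 1536785), (nat_lit 0), (nat_lit 8283736)])
 (PF.cons (PF.leaf (nat_lit 7295573) (nat_lit 480000) (nat_lit 37146159) (nat_lit 16693507) [(nat_lit 480000), (nat_lit 1546721), (nat_lit 0), (nat_lit 8255702)]) (PF.cons PF.nil (PF.cons PF.nil PF.nil))))))) (PF.cons (PF.cons (PF.leaf (nat_lit 6835997) (nat_lit 1530046) (nat_lit 37463277) (nat_lit 16781075) [(nat_lit 0), (nat_lit 1530046), (nat_lit 0), (nat_lit 8274320)]) (PF.cons (PF.leaf (nat_lit 7116810) (nat_lit 472979) (nat_lit 37092819) (nat_lit 16675380) [(nat_lit 472979), (nat_lit 1540131), (nat_lit 0), (nat_lit 8247240)]) (PF.cons (PF.leaf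 (nat_lit 7405505) (nat_lit 480565) (nat_lit 36715654) (nat_lit 16566367) [(nat_lit 480565), (nat_lit 1549138), (nat_lit 0), (nat_lit 8218244)]) (PF.cons (PF.leaf (nat_lit 7700325) (nat_lit 487313) (nat_lit 36333625) (nat_lit 16454515) [(nat_lit 487313), (nat_lit 1557097), (nat_lit 0), (nat_lit 8187437)]) (PF.cons PF.nil PF.nil))))) (PF.cons (PF.cons (PF.leaf (nat_lit 7515853) (nat_lit 1550897) (nat_lit 36287597) (nat_lit 16438217) [(nat_lit 0), (nat_lit 1550897), (nat_lit 0), (nat_lit 8179405)]) (PF.cons (PF.leaf (nat_lit 7805039) (nat_lit 487375) (nat_lit 35913996) (nat_lit 16327314) [(nat_lit 487375), (nat_lit 1558070), (nat_lit 0),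
 (nat_lit 8147842)]) (PF.cons PF.nil (PF.cons PF.nil PF.nil)))) (PF.cons (PF.cons (PF.leaf (nat_lit 8199952) (nat_lit 1564046) (nat_lit 35128261) (nat_lit 16087071) [(nat_lit 0), (nat_lit 1564046), (nat_lit 0), (nat_lit 8073248)]) (PF.cons PF.nil PF.nil)) (PF.cons PF.nil (PF.cons PF.nil PF.nil)))))))) (PF.cons (PF.cons (PF.cons (PF.leaf (nat_lit 6002160) (nat_lit 3368590) (nat_lit 38389158) (nat_lit 17029885) [(nat_lit 0), (nat_lit 0), (nat_lit 3368590), (nat_lit 8321178)]) (PF.cons (PF.leaf (nat_lit 6252576) (nat_lit 437638) (nat_lit 38055399) (nat_lit 16938080) [(nat_lit 437638), (nat_lit 0), (nat_lit 3377038), (nat_lit 8300655)]) (PF.cons (PF.leaf (nat_lit 6516403) (nat_lit 449237) (nat_lit 37707018) (nat_lit 16841035) [(nat_lit 449237), (nat_lit 0), (nat_lit 3384360), (nat_lit 8277923)]) (PF.cons (PF.leaf (nat_lit 6790679) (nat_lit 459378) (nat_lit 37347532) (nat_lit 16739604) [(nat_lit 459378), (nat_lit 0), (nat_lit 3390440), (nat_lit 8253099)]) (PF.cons (PF.leaf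 (nat_lit 7073493) (nat_lit 468317) (nat_lit 36979591) (nat_lit 16634440) [(nat_lit 468317), (nat_lit 0), (nat_lit 3395223), (nat_lit 8226288)]) (PF.cons (PF.leaf (nat_lit 7363360) (nat_lit 476237) (nat_lit 36605274)
 (nat_lit 16526068) [(nat_lit 476237), (nat_lit 0), (nat_lit 3398691), (nat_lit 8197589)]) (PF.cons PF.nil (PF.cons PF.nil (PF.cons PF.nil PF.nil))))))))) (PF.cons (PF.cons (PF.leaf (nat_lit 6642860) (nat_lit 1511187) (nat_lit 37259169) (nat_lit 16711675) [(nat_lit 0), (nat_lit 1511187), (nat_lit 3384548), (nat_lit 8242232)]) (PF.cons (PF.leaf (nat_lit 6909997) (nat_lit 459999) (nat_lit 36909358) (nat_lit 16611441) [(nat_lit 459999), (nat_lit 1522260), (nat_lit 3389195), (nat_lit 8216557)]) (PF.cons (PF.leaf (nat_lit 7186950) (nat_lit 468843) (nat_lit 36550122) (nat_lit 16507240) [(nat_lit 468843), (nat_lit 1532211), (nat_lit 3392662), (nat_lit 8188888)]) (PF.cons (PF.leaf (nat_lit 7471541) (nat_lit 476633) (nat_lit 36183883) (nat_lit 16399696) [(nat_lit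 476633), (nat_lit 1541059), (nat_lit 3394919), (nat_lit 8159351)]) (PF.cons (PF.leaf (nat_lit 7762376) (nat_lit 483525) (nat_lit 35812531) (nat_lit 16289310) [(nat_lit 483525), (nat_lit 1548844), (nat_lit 3395965), (nat_lit 8128058)]) (PF.cons PF.nil (PF.cons PF.nil PF.nil))))))) (PF.cons (PF.cons (PF.leaf (nat_lit 7301533) (nat_lit 1534462) (nat_lit 36122126) (nat_lit 16378752) [(nat_lit 0), (nat_lit 1534462), (nat_lit 3388988),
 (nat_lit 8150021)]) (PF.cons (PF.leaf (nat_lit 7579869) (nat_lit 476636) (nat_lit 35764882) (nat_lit 16272400) [(nat_lit 476636), (nat_lit 1542466), (nat_lit 3390132), (nat_lit 8119826)]) (PF.cons (PF.leaf (nat_lit 7865427) (nat_lit 483438) (nat_lit 35401854) (nat_lit 16163059) [(nat_lit 483438), (nat_lit 1549492), (nat_lit 3390151), (nat_lit 8087885)]) (PF.cons PF.nil (PF.cons PF.nil PF.nil))))) (PF.cons (PF.cons (PF.leaf (nat_lit 7969067) (nat_lit 1549601) (nat_lit 34993845) (nat_lit 16036103) [(nat_lit 0), (nat_lit 1549601), (nat_lit 3383460),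 (nat_lit 8046599)]) (PF.cons (PF.leaf (nat_lit 8254532) (nat_lit 488941) (nat_lit 34635218) (nat_lit 15925480) [(nat_lit 488941), (nat_lit 1555039), (nat_lit 3381495), (nat_lit 8012561)]) (PF.cons PF.nil (PF.cons PF.nil PF.nil)))) (PF.cons (PF.cons (PF.leaf (nat_lit 8638722) (nat_lit 1558084) (nat_lit 33885239) (nat_lit 15687786) [(nat_lit 0), (nat_lit 1558084), (nat_lit 3369454), (nat_lit 7933992)]) (PF.cons PF.nil PF.nil)) (PF.cons PF.nil PF.nil)))))) (PF.cons (PF.cons (PF.cons (PF.leaf (nat_lit 7102233) (nat_lit 3369324) (nat_lit 35937662) (nat_lit 16313567) [(nat_lit 0), (nat_lit 0), (nat_lit 3369324), (nat_lit 8118932)]) (PF.cons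
 (PF.leaf (nat_lit 7367675) (nat_lit 464205) (nat_lit 35599616) (nat_lit 16212590) [(nat_lit 464205), (nat_lit 0), (nat_lit 3371046), (nat_lit 8090307)]) (PF.cons (PF.leaf (nat_lit 7642277) (nat_lit 472239) (nat_lit 35253187) (nat_lit 16107960) [(nat_lit 472239), (nat_lit 0), (nat_lit 3371683), (nat_lit 8059819)]) (PF.cons (PF.leaf (nat_lit 7923881) (nat_lit 479255) (nat_lit 34900667) (nat_lit 16000304) [(nat_lit 479255), (nat_lit 0), (nat_lit 3371227), (nat_lit 8027619)]) (PF.cons PF.nil PF.nil))))) (PF.cons (PF.cons (PF.leaf (nat_lit 7750407) (nat_lit 1534102) (nat_lit 34844822) (nat_lit 15980622) [(nat_lit 0), (nat_lit 1534102), (nat_lit 3365380), (nat_lit 8018503)]) (PF.cons (PF.leaf (nat_lit 8025736) (nat_lit 478676) (nat_lit 34501337) (nat_lit 15874434) [(nat_lit 478676), (nat_lit 1540356), (nat_lit 3364043), (nat_lit 7985921)]) (PF.cons (PF.leaf (nat_lit 8307727) (nat_lit 484791) (nat_lit 34152829) (nat_lit 15765551) [(nat_lit 484791), (nat_lit 1545716), (nat_lit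 3361690), (nat_lit 7951750)]) (PF.cons PF.nil PF.nil)))) (PF.cons (PF.cons (PF.leaf (nat_lit 8405067) (nat_lit 1544490) (nat_lit 33764596) (nat_lit 15640518) [(nat_lit 0), (nat_lit 1544490), (nat_lit 3352972),
 (nat_lit 7908771)]) (PF.cons (PF.leaf (nat_lit 8686487) (nat_lit 489187) (nat_lit 33421050) (nat_lit 15530854) [(nat_lit 489187), (nat_lit 1548469), (nat_lit 3348940), (nat_lit 7872899)]) PF.nil)) (PF.cons PF.nil (PF.cons PF.nil PF.nil))))) (PF.cons (PF.cons (PF.cons (PF.leaf (nat_lit 8183127) (nat_lit 3335843) (nat_lit 33630316) (nat_lit 15588897) [(nat_lit 0), (nat_lit 0), (nat_lit 3335843), (nat_lit 7882069)]) (PF.cons (PF.leaf (nat_lit 8455031) (nat_lit 479380) (nat_lit 33300782) (nat_lit 15483526) [(nat_lit 479380), (nat_lit 0), (nat_lit 3332472), (nat_lit 7847705)]) (PF.cons (PF.leaf (nat_lit 8733139) (nat_lit 484894) (nat_lit 32966858) (nat_lit 15375722) [(nat_lit 484894), (nat_lit 0), (nat_lit 3328183), (nat_lit 7811892)]) (PF.cons PF.nil PF.nil)))) (PF.cons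 (PF.cons (PF.leaf (nat_lit 8824570) (nat_lit 1536312) (nat_lit 32597876) (nat_lit 15253161) [(nat_lit 0), (nat_lit 1536312), (nat_lit 3317878), (nat_lit 7767826)]) (PF.cons PF.nil PF.nil)) (PF.cons PF.nil PF.nil))) (PF.cons (PF.cons (PF.cons (PF.leaf (nat_lit 9228369) (nat_lit 3279259) (nat_lit 31491229) (nat_lit 14875262) [(nat_lit 0), (nat_lit 0), (nat_lit 3279259), (nat_lit 7625284)]) (PF.cons PF.nil PF.nil))
 (PF.cons PF.nil PF.nil)) (PF.cons PF.nil PF.nil)))))) (PF.cons (PF.cons (PF.cons (PF.cons (PF.leaf (nat_lit 6703674) (nat_lit 7968738) (nat_lit 35153227) (nat_lit 16018108) [(nat_lit 0), (nat_lit 0), (nat_lit 0), (nat_lit 7968738)]) (PF.cons (PF.leaf (nat_lit 6945577) (nat_lit 432500) (nat_lit 34858057) (nat_lit 15929332) [(nat_lit 432500), (nat_lit 0), (nat_lit 0), (nat_lit 7944461)]) (PF.cons (PF.leaf (nat_lit 7199901) (nat_lit 443095) (nat_lit 34550430) (nat_lit 15835883) [(nat_lit 443095), (nat_lit 0), (nat_lit 0), (nat_lit 7918153)]) (PF.cons (PF.leaf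 (nat_lit 7463693) (nat_lit 452251) (nat_lit 34233445) (nat_lit 15738613) [(nat_lit 452251), (nat_lit 0), (nat_lit 0), (nat_lit 7889999)]) (PF.cons (PF.leaf (nat_lit 7735170) (nat_lit 460234) (nat_lit 33909417) (nat_lit 15638163) [(nat_lit 460234), (nat_lit 0), (nat_lit 0), (nat_lit 7860146)]) (PF.cons (PF.leaf (nat_lit 8012920) (nat_lit 467234) (nat_lit 33580152) (nat_lit 15535042) [(nat_lit 467234), (nat_lit 0), (nat_lit 0), (nat_lit 7828723)]) (PF.cons PF.nil PF.nil))))))) (PF.cons (PF.cons (PF.leaf (nat_lit 7314829) (nat_lit 1479052) (nat_lit 34158374) (nat_lit 15712999) [(nat_lit 0), (nat_lit 1479052), (nat_lit 0), (nat_lit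
 7879192)]) (PF.cons (PF.leaf (nat_lit 7571557) (nat_lit 452064) (nat_lit 33850255) (nat_lit 15617307) [(nat_lit 452064), (nat_lit 1487804), (nat_lit 0), (nat_lit 7850690)]) (PF.cons (PF.leaf (nat_lit 7837271) (nat_lit 460012) (nat_lit 33534183) (nat_lit 15518186) [(nat_lit 460012), (nat_lit 1495508), (nat_lit 0), (nat_lit 7820454)]) (PF.cons (PF.leaf (nat_lit 8109851) (nat_lit 466939) (nat_lit 33212264) (nat_lit 15416240) [(nat_lit 466939), (nat_lit 1502204), (nat_lit 0), (nat_lit 7788642)]) (PF.cons PF.nil PF.nil))))) (PF.cons (PF.cons (PF.leaf (nat_lit 7940725) (nat_lit 1495759) (nat_lit 33160406) (nat_lit 15397404) [(nat_lit 0), (nat_lit 1495759), (nat_lit 0), (nat_lit 7779741)]) (PF.cons (PF.leaf (nat_lit 8207201) (nat_lit 466307) (nat_lit 32846589) (nat_lit 15296943) [(nat_lit 466307), (nat_lit 1501794), (nat_lit 0), (nat_lit 7747691)]) (PF.cons (PF.leaf (nat_lit 8480274) (nat_lit 472332) (nat_lit 32527925) (nat_lit 15193971) [(nat_lit 472332), (nat_lit 1506943),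 (nat_lit 0), (nat_lit 7714181)]) (PF.cons PF.nil PF.nil)))) (PF.cons (PF.cons (PF.leaf (nat_lit 8573381) (nat_lit 1505533) (nat_lit 32172095) (nat_lit 15075649) [(nat_lit 0), (nat_lit 1505533), (nat_lit 0), (nat_lit
 7672233)]) (PF.cons (PF.leaf (nat_lit 8845987) (nat_lit 476607) (nat_lit 31857580) (nat_lit 14972057) [(nat_lit 476607), (nat_lit 1509343), (nat_lit 0), (nat_lit 7637268)]) PF.nil)) (PF.cons PF.nil PF.nil))))) (PF.cons (PF.cons (PF.cons (PF.leaf (nat_lit 7740577) (nat_lit 3260685) (nat_lit 33006781) (nat_lit 15339554) [(nat_lit 0), (nat_lit 0), (nat_lit 3260685), (nat_lit 7750895)]) (PF.cons (PF.leaf (nat_lit 7995247) (nat_lit 454400) (nat_lit 32709483) (nat_lit 15244170) [(nat_lit 454400), (nat_lit 0), (nat_lit 3259641), (nat_lit 7720558)]) (PF.cons (PF.leaf (nat_lit 8258358) (nat_lit 461651) (nat_lit 32405047) (nat_lit 15145622) [(nat_lit 461651), (nat_lit 0), (nat_lit 3257639), (nat_lit 7688600)]) (PF.cons (PF.leaf (nat_lit 8527820) (nat_lit 467920)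 (nat_lit 32095465) (nat_lit 15044507) [(nat_lit 467920), (nat_lit 0), (nat_lit 3254692), (nat_lit 7655193)]) (PF.cons PF.nil PF.nil))))) (PF.cons (PF.cons (PF.leaf (nat_lit 8356158) (nat_lit 1491002) (nat_lit 32048560) (nat_lit 15026927) [(nat_lit 0), (nat_lit 1491002), (nat_lit 3249050), (nat_lit 7646636)]) (PF.cons (PF.leaf (nat_lit 8619530) (nat_lit 466847) (nat_lit 31747007) (nat_lit 14927465) [(nat_lit 466847), (nat_lit
 1495647), (nat_lit 3245481), (nat_lit 7613181)]) (PF.cons (PF.leaf (nat_lit 8889036) (nat_lit 472293) (nat_lit 31441189) (nat_lit 14825727) [(nat_lit 472293), (nat_lit 1499483), (nat_lit 3241043), (nat_lit 7578391)]) (PF.cons PF.nil PF.nil)))) (PF.cons (PF.cons (PF.leaf (nat_lit 8976708) (nat_lit 1497102) (nat_lit 31102494) (nat_lit 14709967) [(nat_lit 0), (nat_lit 1497102), (nat_lit 3230735), (nat_lit 7535705)]) (PF.cons PF.nil PF.nil)) PF.nil))) (PF.cons (PF.cons (PF.cons (PF.leaf (nat_lit 8757382) (nat_lit 3214959) (nat_lit 30990967) (nat_lit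 14664793) [(nat_lit 0), (nat_lit 0), (nat_lit 3214959), (nat_lit 7511566)]) (PF.cons (PF.leaf (nat_lit 9017360) (nat_lit 466381) (nat_lit 30701634) (nat_lit 14566741) [(nat_lit 466381), (nat_lit 0), (nat_lit 3209909), (nat_lit 7477117)]) (PF.cons PF.nil PF.nil))) (PF.cons (PF.cons (PF.leaf (nat_lit 9365678) (nat_lit 1486494) (nat_lit 30086348) (nat_lit 14353721) [(nat_lit 0), (nat_lit 1486494), (nat_lit 3192708), (nat_lit 7398415)]) PF.nil) PF.nil)) (PF.cons PF.nil (PF.cons PF.nil PF.nil))))) (PF.cons (PF.cons (PF.cons (PF.cons (PF.leaf (nat_lit 8319534) (nat_lit 7395415) (nat_lit 30473880) (nat_lit 14448684) [(nat_lit 0), (nat_lit 0),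
 (nat_lit 0), (nat_lit 7395415)]) (PF.cons (PF.leaf (nat_lit 8564060) (nat_lit 443248) (nat_lit 30211507) (nat_lit 14359630) [(nat_lit 443248), (nat_lit 0), (nat_lit 0), (nat_lit 7364808)]) (PF.cons (PF.leaf (nat_lit 8816436) (nat_lit 449863) (nat_lit 29942959) (nat_lit 14267801) [(nat_lit 449863), (nat_lit 0), (nat_lit 0), (nat_lit 7332774)]) (PF.cons (PF.leaf (nat_lit 9074670) (nat_lit 455534) (nat_lit 29669976) (nat_lit 14173757) [(nat_lit 455534), (nat_lit 0), (nat_lit 0), (nat_lit 7299492)]) (PF.cons PF.nil PF.nil))))) (PF.cons (PF.cons (PF.leaf (nat_lit 8905672) (nat_lit 1445547) (nat_lit 29630345) (nat_lit 14158142) [(nat_lit 0), (nat_lit 1445547), (nat_lit 0), (nat_lit 7291592)]) (PF.cons (PF.leaf (nat_lit 9158024) (nat_lit 454136) (nat_lit 29364451) (nat_lit 14065796) [(nat_lit 454136), (nat_lit 1449036), (nat_lit 0), (nat_lit 7258464)]) (PF.cons PF.nil (PF.cons PF.nil PF.nil)))) (PF.cons (PF.cons (PF.leaf (nat_lit 9495777) (nat_lit 1448689) (nat_lit 28797828)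 (nat_lit 13865000) [(nat_lit 0), (nat_lit 1448689), (nat_lit 0), (nat_lit 7182868)]) (PF.cons PF.nil PF.nil)) PF.nil))) (PF.cons (PF.cons (PF.cons (PF.leaf (nat_lit 9280142) (nat_lit 3095180) (nat_lit 28704497)
 (nat_lit 13825530) [(nat_lit 0), (nat_lit 0), (nat_lit 3095180), (nat_lit 7161201)]) (PF.cons (PF.leaf (nat_lit 9529206) (nat_lit 452910) (nat_lit 28449193) (nat_lit 13734853) [(nat_lit 452910), (nat_lit 0), (nat_lit 3089137), (nat_lit 7127572)]) PF.nil)) (PF.cons PF.nil PF.nil)) (PF.cons PF.nil PF.nil))) (PF.cons (PF.cons (PF.cons (PF.cons (PF.leaf (nat_lit 9760690) (nat_lit 6833418) (nat_lit 26710487) (nat_lit 13064651) [(nat_lit 0), (nat_lit 0), (nat_lit 0), (nat_lit 6833418)]) (PF.cons PF.nil PF.nil)) (PF.cons PF.nil PF.nil)) (PF.cons PF.nil PF.nil)) (PF.cons PF.nil (PF.cons PF.nil (PF.cons PF.nil PF.nil))))))))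

def p15_23_3_0 : pfC (piC [(nat_lit 38167130), (nat_lit 25010362), (nat_lit 18643303), (nat_lit 12552662)] (nat_lit 4942965)) p15_23_3 (nat_lit 4) (nat_lit 0) (nat_lit 1) = true := by decide +kernel
def p15_23_3_1 : pfC (piC [(nat_lit 38167130), (nat_lit 25010362), (nat_lit 18643303), (nat_lit 12552662)] (nat_lit 4942965)) p15_23_3 (nat_lit 4) (nat_lit 1) (nat_lit 2) = true := by decide +kernel
def p15_23_3_2 : pfC (piC [(nat_lit 38167130), (nat_lit 25010362), (nat_lit 18643303), (nat_lit 12552662)] (nat_lit 4942965)) p15_23_3 (nat_lit 4) (nat_lit 2) (nat_lit 3) = true := by decide +kernel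
def p15_23_3_3 : pfC (piC [(nat_lit 38167130), (nat_lit 25010362), (nat_lit 18643303), (nat_lit 12552662)] (nat_lit 4942965)) p15_23_3 (nat_lit 4) (nat_lit 3) (nat_lit 4) = true := by decide +kernel
def p15_23_3_4 : pfC (piC [(nat_lit 38167130), (nat_lit 25010362), (nat_lit 18643303), (nat_lit 12552662)] (nat_lit 4942965)) p15_23_3 (nat_lit 4) (nat_lit 4) (nat_lit 5) = true := by decide +kernel
def p15_23_3_5 : pfC (piC [(nat_lit 38167130), (nat_lit 25010362), (nat_lit 18643303), (nat_lit 12552662)] (nat_lit 4942965)) p15_23_3 (nat_lit 4) (nat_lit 5) (nat_lit 6) = true := by decide +kernel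
def p15_23_3_6 : pfC (piC [(nat_lit 38167130), (nat_lit 25010362), (nat_lit 18643303), (nat_lit 12552662)] (nat_lit 4942965)) p15_23_3 (nat_lit 4) (nat_lit 6) (nat_lit 7) = true := by decide +kernel
def p15_23_3_7 : pfC (piC [(nat_lit 38167130), (nat_lit 25010362), (nat_lit 18643303), (nat_lit 12552662)] (nat_lit 4942965)) p15_23_3 (nat_lit 4) (nat_lit 7) (nat_lit 8) = true := by decide +kernel
def p15_23_3_8 : pfC (piC [(nat_lit 38167130), (nat_lit 25010362), (nat_lit 18643303), (nat_lit 12552662)] (nat_lit 4942965)) p15_23_3 (nat_lit 4) (nat_lit 8) (nat_lit 9) = true := by decide +kernel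
def p15_23_3_9 : pfC (piC [(nat_lit 38167130), (nat_lit 25010362), (nat_lit 18643303), (nat_lit 12552662)] (nat_lit 4942965)) p15_23_3 (nat_lit 4) (nat_lit 9) (nat_lit 10) = true := by decide +kernel
def p15_23_3_10 : pfC (piC [(nat_lit 38167130), (nat_lit 25010362), (nat_lit 18643303), (nat_lit 12552662)] (nat_lit 4942965)) p15_23_3 (nat_lit 4) (nat_lit 10) (nat_lit 11) = true := by decide +kernel
def p15_23_3_11 : pfC (piC [(nat_lit 38167130), (nat_lit 25010362), (nat_lit 18643303), (nat_lit 12552662)] (nat_lit 4942965)) p15_23_3 (nat_lit 4) (nat_lit 11) (nat_lit 12) = true := by decide +kernel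
def p15_23_3_12 : pfC (piC [(nat_lit 38167130), (nat_lit 25010362), (nat_lit 18643303), (nat_lit 12552662)] (nat_lit 4942965)) p15_23_3 (nat_lit 4) (nat_lit 12) (nat_lit 13) = true := by decide +kernel
def p15_23_3_13 : pfC (piC [(nat_lit 38167130), (nat_lit 25010362), (nat_lit 18643303), (nat_lit 12552662)] (nat_lit 4942965)) p15_23_3 (nat_lit 4) (nat_lit 13) (nat_lit 14) = true := by decide +kernel
def p15_23_3_14 : pfC (piC [(nat_lit 38167130), (nat_lit 25010362), (nat_lit 18643303), (nat_lit 12552662)] (nat_lit 4942965)) p15_23_3 (nat_lit 4) (nat_lit 14) (nat_lit 15) = true := by decide +kernel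
def p15_23_3_15 : pfC (piC [(nat_lit 38167130), (nat_lit 25010362), (nat_lit 18643303), (nat_lit 12552662)] (nat_lit 4942965)) p15_23_3 (nat_lit 4) (nat_lit 15) (nat_lit 16) = true := by decide +kernel
def p15_23_3_16 : pfC (piC [(nat_lit 38167130), (nat_lit 25010362), (nat_lit 18643303), (nat_lit 12552662)] (nat_lit 4942965)) p15_23_3 (nat_lit 4) (nat_lit 16) (nat_lit 17) = true := by decide +kernel
def p15_23_3_17 : pfC (piC [(nat_lit 38167130), (nat_lit 25010362), (nat_lit 18643303), (nat_lit 12552662)] (nat_lit 4942965)) p15_23_3 (nat_lit 4) (nat_lit 17) (nat_lit 18) = true := by decide +kernel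
def p15_23_3_18 : pfC (piC [(nat_lit 38167130), (nat_lit 25010362), (nat_lit 18643303), (nat_lit 12552662)] (nat_lit 4942965)) p15_23_3 (nat_lit 4) (nat_lit 18) (nat_lit 19) = true := by decide +kernel
def p15_23_3_19 : pfC (piC [(nat_lit 38167130), (nat_lit 25010362), (nat_lit 18643303), (nat_lit 12552662)] (nat_lit 4942965)) p15_23_3 (nat_lit 4) (nat_lit 19) (nat_lit 20) = true := by decide +kernel
def p15_23_3_20 : pfC (piC [(nat_lit 38167130), (nat_lit 25010362), (nat_lit 18643303), (nat_lit 12552662)] (nat_lit 4942965)) p15_23_3 (nat_lit 4) (nat_lit 20) (nat_lit 21) = true := by decide +kernel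
def p15_23_3_21 : pfC (piC [(nat_lit 38167130), (nat_lit 25010362), (nat_lit 18643303), (nat_lit 12552662)] (nat_lit 4942965)) p15_23_3 (nat_lit 4) (nat_lit 21) (nat_lit 22) = true := by decide +kernel
def p15_23_3_22 : pfC (piC [(nat_lit 38167130), (nat_lit 25010362), (nat_lit 18643303), (nat_lit 12552662)] (nat_lit 4942965)) p15_23_3 (nat_lit 4) (nat_lit 22) (nat_lit 23) = true := by decide +kernel
def p15_23_3_23 : pfC (piC [(nat_lit 38167130), (nat_lit 25010362), (nat_lit 18643303), (nat_lit 12552662)] (nat_lit 4942965)) p15_23_3 (nat_lit 4) (nat_lit 23) (nat_lit 24) = true := by decide +kernel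
def p15_23_3_24 : pfC (piC [(nat_lit 38167130), (nat_lit 25010362), (nat_lit 18643303), (nat_lit 12552662)] (nat_lit 4942965)) p15_23_3 (nat_lit 4) (nat_lit 24) (nat_lit 25) = true := by decide +kernel
def p15_23_3_25 : pfC (piC [(nat_lit 38167130), (nat_lit 25010362), (nat_lit 18643303), (nat_lit 12552662)] (nat_lit 4942965)) p15_23_3 (nat_lit 4) (nat_lit 25) (nat_lit 26) = true := by decide +kernel
def p15_23_3_26 : pfC (piC [(nat_lit 38167130), (nat_lit 25010362), (nat_lit 18643303), (nat_lit 12552662)] (nat_lit 4942965)) p15_23_3 (nat_lit 4) (nat_lit 26) (nat_lit 27) = true := by decide +kernel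
def p15_23_3_27 : pfC (piC [(nat_lit 38167130), (nat_lit 25010362), (nat_lit 18643303), (nat_lit 12552662)] (nat_lit 4942965)) p15_23_3 (nat_lit 4) (nat_lit 27) (nat_lit 28) = true := by decide +kernel
def p15_23_3_28 : pfC (piC [(nat_lit 38167130), (nat_lit 25010362), (nat_lit 18643303), (nat_lit 12552662)] (nat_lit 4942965)) p15_23_3 (nat_lit 4) (nat_lit 28) (nat_lit 29) = true := by decide +kernel
def p15_23_3_29 : pfC (piC [(nat_lit 38167130), (nat_lit 25010362), (nat_lit 18643303), (nat_lit 12552662)] (nat_lit 4942965)) p15_23_3 (nat_lit 4) (nat_lit 29) (nat_lit 30) = true := by decide +kernel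
def p15_23_3_30 : pfC (piC [(nat_lit 38167130), (nat_lit 25010362), (nat_lit 18643303), (nat_lit 12552662)] (nat_lit 4942965)) p15_23_3 (nat_lit 4) (nat_lit 30) (nat_lit 31) = true := by decide +kernel
def p15_23_3_31 : pfC (piC [(nat_lit 38167130), (nat_lit 25010362), (nat_lit 18643303), (nat_lit 12552662)] (nat_lit 4942965)) p15_23_3 (nat_lit 4) (nat_lit 31) (nat_lit 32) = true := by decide +kernel
def p15_23_3_32 : pfC (piC [(nat_lit 38167130), (nat_lit 25010362), (nat_lit 18643303), (nat_lit 12552662)] (nat_lit 4942965)) p15_23_3 (nat_lit 4) (nat_lit 32) (nat_lit 33) = true := by decide +kernel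
def p15_23_3_33 : pfC (piC [(nat_lit 38167130), (nat_lit 25010362), (nat_lit 18643303), (nat_lit 12552662)] (nat_lit 4942965)) p15_23_3 (nat_lit 4) (nat_lit 33) (nat_lit 34) = true := by decide +kernel
def p15_23_3_34 : pfC (piC [(nat_lit 38167130), (nat_lit 25010362), (nat_lit 18643303), (nat_lit 12552662)] (nat_lit 4942965)) p15_23_3 (nat_lit 4) (nat_lit 34) (nat_lit 35) = true := by decide +kernel
def p15_23_3_35 : pfC (piC [(nat_lit 38167130), (nat_lit 25010362), (nat_lit 18643303), (nat_lit 12552662)] (nat_lit 4942965)) p15_23_3 (nat_lit 4) (nat_lit 35) (nat_lit 36) = true := by decide +kernel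
def p15_23_3_36 : pfC (piC [(nat_lit 38167130), (nat_lit 25010362), (nat_lit 18643303), (nat_lit 12552662)] (nat_lit 4942965)) p15_23_3 (nat_lit 4) (nat_lit 36) (nat_lit 37) = true := by decide +kernel
def p15_23_3_37 : pfC (piC [(nat_lit 38167130), (nat_lit 25010362), (nat_lit 18643303), (nat_lit 12552662)] (nat_lit 4942965)) p15_23_3 (nat_lit 4) (nat_lit 37) (nat_lit 38) = true := by decide +kernel
def p15_23_3_38 : pfC (piC [(nat_lit 38167130), (nat_lit 25010362), (nat_lit 18643303), (nat_lit 12552662)] (nat_lit 4942965)) p15_23_3 (nat_lit 4) (nat_lit 38) (nat_lit 39) = true := by decide +kernel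
def p15_23_3_39 : pfC (piC [(nat_lit 38167130), (nat_lit 25010362), (nat_lit 18643303), (nat_lit 12552662)] (nat_lit 4942965)) p15_23_3 (nat_lit 4) (nat_lit 39) (nat_lit 40) = true := by decide +kernel
def p15_23_3_40 : pfC (piC [(nat_lit 38167130), (nat_lit 25010362), (nat_lit 18643303), (nat_lit 12552662)] (nat_lit 4942965)) p15_23_3 (nat_lit 4) (nat_lit 40) (nat_lit 41) = true := by decide +kernel
def p15_23_3_41 : pfC (piC [(nat_lit 38167130), (nat_lit 25010362), (nat_lit 18643303), (nat_lit 12552662)] (nat_lit 4942965)) p15_23_3 (nat_lit 4) (nat_lit 41) (nat_lit 42) = true := by decide +kernel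
def p15_23_3_42 : pfC (piC [(nat_lit 38167130), (nat_lit 25010362), (nat_lit 18643303), (nat_lit 12552662)] (nat_lit 4942965)) p15_23_3 (nat_lit 4) (nat_lit 42) (nat_lit 43) = true := by decide +kernel
def p15_23_3_43 : pfC (piC [(nat_lit 38167130), (nat_lit 25010362), (nat_lit 18643303), (nat_lit 12552662)] (nat_lit 4942965)) p15_23_3 (nat_lit 4) (nat_lit 43) (nat_lit 44) = true := by decide +kernel
def p15_23_3_44 : pfC (piC [(nat_lit 38167130), (nat_lit 25010362), (nat_lit 18643303), (nat_lit 12552662)] (nat_lit 4942965)) p15_23_3 (nat_lit 4) (nat_lit 44) (nat_lit 45) = true := by decide +kernel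
def p15_23_3_45 : pfC (piC [(nat_lit 38167130), (nat_lit 25010362), (nat_lit 18643303), (nat_lit 12552662)] (nat_lit 4942965)) p15_23_3 (nat_lit 4) (nat_lit 45) (nat_lit 46) = true := by decide +kernel
def p15_23_3_46 : pfC (piC [(nat_lit 38167130), (nat_lit 25010362), (nat_lit 18643303), (nat_lit 12552662)] (nat_lit 4942965)) p15_23_3 (nat_lit 4) (nat_lit 46) (nat_lit 47) = true := by decide +kernel
def p15_23_3_47 : pfC (piC [(nat_lit 38167130), (nat_lit 25010362), (nat_lit 18643303), (nat_lit 12552662)] (nat_lit 4942965)) p15_23_3 (nat_lit 4) (nat_lit 47) (nat_lit 48) = true := by decide +kernel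
def p15_23_3_48 : pfC (piC [(nat_lit 38167130), (nat_lit 25010362), (nat_lit 18643303), (nat_lit 12552662)] (nat_lit 4942965)) p15_23_3 (nat_lit 4) (nat_lit 48) (nat_lit 49) = true := by decide +kernel
def p15_23_3_49 : pfC (piC [(nat_lit 38167130), (nat_lit 25010362), (nat_lit 18643303), (nat_lit 12552662)] (nat_lit 4942965)) p15_23_3 (nat_lit 4) (nat_lit 49) (nat_lit 50) = true := by decide +kernel
def p15_23_3_50 : pfC (piC [(nat_lit 38167130), (nat_lit 25010362), (nat_lit 18643303), (nat_lit 12552662)] (nat_lit 4942965)) p15_23_3 (nat_lit 4) (nat_lit 50) (nat_lit 51) = true := by decide +kernel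
def p15_23_3_51 : pfC (piC [(nat_lit 38167130), (nat_lit 25010362), (nat_lit 18643303), (nat_lit 12552662)] (nat_lit 4942965)) p15_23_3 (nat_lit 4) (nat_lit 51) (nat_lit 52) = true := by decide +kernel
def p15_23_3_52 : pfC (piC [(nat_lit 38167130), (nat_lit 25010362), (nat_lit 18643303), (nat_lit 12552662)] (nat_lit 4942965)) p15_23_3 (nat_lit 4) (nat_lit 52) (nat_lit 53) = true := by decide +kernel
def p15_23_3_53 : pfC (piC [(nat_lit 38167130), (nat_lit 25010362), (nat_lit 18643303), (nat_lit 12552662)] (nat_lit 4942965)) p15_23_3 (nat_lit 4) (nat_lit 53) (nat_lit 54) = true := by decide +kernel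
def p15_23_3_54 : pfC (piC [(nat_lit 38167130), (nat_lit 25010362), (nat_lit 18643303), (nat_lit 12552662)] (nat_lit 4942965)) p15_23_3 (nat_lit 4) (nat_lit 54) (nat_lit 55) = true := by decide +kernel
def p15_23_3_55 : pfC (piC [(nat_lit 38167130), (nat_lit 25010362), (nat_lit 18643303), (nat_lit 12552662)] (nat_lit 4942965)) p15_23_3 (nat_lit 4) (nat_lit 55) (nat_lit 56) = true := by decide +kernel
def p15_23_3_56 : pfC (piC [(nat_lit 38167130), (nat_lit 25010362), (nat_lit 18643303), (nat_lit 12552662)] (nat_lit 4942965)) p15_23_3 (nat_lit 4) (nat_lit 56) (nat_lit 57) = true := by decide +kernel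
def p15_23_3_57 : pfC (piC [(nat_lit 38167130), (nat_lit 25010362), (nat_lit 18643303), (nat_lit 12552662)] (nat_lit 4942965)) p15_23_3 (nat_lit 4) (nat_lit 57) (nat_lit 58) = true := by decide +kernel
def p15_23_3_58 : pfC (piC [(nat_lit 38167130), (nat_lit 25010362), (nat_lit 18643303), (nat_lit 12552662)] (nat_lit 4942965)) p15_23_3 (nat_lit 4) (nat_lit 58) (nat_lit 59) = true := by decide +kernel
def p15_23_3_59 : pfC (piC [(nat_lit 38167130), (nat_lit 25010362), (nat_lit 18643303), (nat_lit 12552662)] (nat_lit 4942965)) p15_23_3 (nat_lit 4) (nat_lit 59) (nat_lit 60) = true := by decide +kernel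
def p15_23_3_60 : pfC (piC [(nat_lit 38167130), (nat_lit 25010362), (nat_lit 18643303), (nat_lit 12552662)] (nat_lit 4942965)) p15_23_3 (nat_lit 4) (nat_lit 60) (nat_lit 61) = true := by decide +kernel
def p15_23_3_61 : pfC (piC [(nat_lit 38167130), (nat_lit 25010362), (nat_lit 18643303), (nat_lit 12552662)] (nat_lit 4942965)) p15_23_3 (nat_lit 4) (nat_lit 61) (nat_lit 62) = true := by decide +kernel
def p15_23_3_62 : pfC (piC [(nat_lit 38167130), (nat_lit 25010362), (nat_lit 18643303), (nat_lit 12552662)] (nat_lit 4942965)) p15_23_3 (nat_lit 4) (nat_lit 62) (nat_lit 63) = true := by decide +kernel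
def p15_23_3_63 : pfC (piC [(nat_lit 38167130), (nat_lit 25010362), (nat_lit 18643303), (nat_lit 12552662)] (nat_lit 4942965)) p15_23_3 (nat_lit 4) (nat_lit 63) (nat_lit 64) = true := by decide +kernel
def p15_23_3_64 : pfC (piC [(nat_lit 38167130), (nat_lit 25010362), (nat_lit 18643303), (nat_lit 12552662)] (nat_lit 4942965)) p15_23_3 (nat_lit 4) (nat_lit 64) (nat_lit 65) = true := by decide +kernel
def p15_23_3_65 : pfC (piC [(nat_lit 38167130), (nat_lit 25010362), (nat_lit 18643303), (nat_lit 12552662)] (nat_lit 4942965)) p15_23_3 (nat_lit 4) (nat_lit 65) (nat_lit 66) = true := by decide +kernel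
def p15_23_3_66 : pfC (piC [(nat_lit 38167130), (nat_lit 25010362), (nat_lit 18643303), (nat_lit 12552662)] (nat_lit 4942965)) p15_23_3 (nat_lit 4) (nat_lit 66) (nat_lit 67) = true := by decide +kernel
def p15_23_3_67 : pfC (piC [(nat_lit 38167130), (nat_lit 25010362), (nat_lit 18643303), (nat_lit 12552662)] (nat_lit 4942965)) p15_23_3 (nat_lit 4) (nat_lit 67) (nat_lit 68) = true := by decide +kernel
def p15_23_3_68 : pfC (piC [(nat_lit 38167130), (nat_lit 25010362), (nat_lit 18643303), (nat_lit 12552662)] (nat_lit 4942965)) p15_23_3 (nat_lit 4) (nat_lit 68) (nat_lit 69) = true := by decide +kernel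
def p15_23_3_69 : pfC (piC [(nat_lit 38167130), (nat_lit 25010362), (nat_lit 18643303), (nat_lit 12552662)] (nat_lit 4942965)) p15_23_3 (nat_lit 4) (nat_lit 69) (nat_lit 70) = true := by decide +kernel
def p15_23_3_70 : pfC (piC [(nat_lit 38167130), (nat_lit 25010362), (nat_lit 18643303), (nat_lit 12552662)] (nat_lit 4942965)) p15_23_3 (nat_lit 4) (nat_lit 70) (nat_lit 71) = true := by decide +kernel
def p15_23_3_71 : pfC (piC [(nat_lit 38167130), (nat_lit 25010362), (nat_lit 18643303), (nat_lit 12552662)] (nat_lit 4942965)) p15_23_3 (nat_lit 4) (nat_lit 71) (nat_lit 72) = true := by decide +kernel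
def p15_23_3_72 : pfC (piC [(nat_lit 38167130), (nat_lit 25010362), (nat_lit 18643303), (nat_lit 12552662)] (nat_lit 4942965)) p15_23_3 (nat_lit 4) (nat_lit 72) (nat_lit 73) = true := by decide +kernel
def p15_23_3_73 : pfC (piC [(nat_lit 38167130), (nat_lit 25010362), (nat_lit 18643303), (nat_lit 12552662)] (nat_lit 4942965)) p15_23_3 (nat_lit 4) (nat_lit 73) (nat_lit 74) = true := by decide +kernel
def p15_23_3_74 : pfC (piC [(nat_lit 38167130), (nat_lit 25010362), (nat_lit 18643303), (nat_lit 12552662)] (nat_lit 4942965)) p15_23_3 (nat_lit 4) (nat_lit 74) (nat_lit 75) = true := by decide +kernel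
def p15_23_3_75 : pfC (piC [(nat_lit 38167130), (nat_lit 25010362), (nat_lit 18643303), (nat_lit 12552662)] (nat_lit 4942965)) p15_23_3 (nat_lit 4) (nat_lit 75) (nat_lit 76) = true := by decide +kernel
def p15_23_3_76 : pfC (piC [(nat_lit 38167130), (nat_lit 25010362), (nat_lit 18643303), (nat_lit 12552662)] (nat_lit 4942965)) p15_23_3 (nat_lit 4) (nat_lit 76) (nat_lit 77) = true := by decide +kernel
def p15_23_3_77 : pfC (piC [(nat_lit 38167130), (nat_lit 25010362), (nat_lit 18643303), (nat_lit 12552662)] (nat_lit 4942965)) p15_23_3 (nat_lit 4) (nat_lit 77) (nat_lit 78) = true := by decide +kernel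
def p15_23_3_78 : pfC (piC [(nat_lit 38167130), (nat_lit 25010362), (nat_lit 18643303), (nat_lit 12552662)] (nat_lit 4942965)) p15_23_3 (nat_lit 4) (nat_lit 78) (nat_lit 79) = true := by decide +kernel
def p15_23_3_79 : pfC (piC [(nat_lit 38167130), (nat_lit 25010362), (nat_lit 18643303), (nat_lit 12552662)] (nat_lit 4942965)) p15_23_3 (nat_lit 4) (nat_lit 79) (nat_lit 80) = true := by decide +kernel
def p15_23_3_80 : pfC (piC [(nat_lit 38167130), (nat_lit 25010362), (nat_lit 18643303), (nat_lit 12552662)] (nat_lit 4942965)) p15_23_3 (nat_lit 4) (nat_lit 80) (nat_lit 81) = true := by decide +kernel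
def p15_23_3_81 : pfC (piC [(nat_lit 38167130), (nat_lit 25010362), (nat_lit 18643303), (nat_lit 12552662)] (nat_lit 4942965)) p15_23_3 (nat_lit 4) (nat_lit 81) (nat_lit 82) = true := by decide +kernel
def p15_23_3_82 : pfC (piC [(nat_lit 38167130), (nat_lit 25010362), (nat_lit 18643303), (nat_lit 12552662)] (nat_lit 4942965)) p15_23_3 (nat_lit 4) (nat_lit 82) (nat_lit 83) = true := by decide +kernel
def p15_23_3_83 : pfC (piC [(nat_lit 38167130), (nat_lit 25010362), (nat_lit 18643303), (nat_lit 12552662)] (nat_lit 4942965)) p15_23_3 (nat_lit 4) (nat_lit 83) (nat_lit 84) = true := by decide +kernel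
def p15_23_3_84 : pfC (piC [(nat_lit 38167130), (nat_lit 25010362), (nat_lit 18643303), (nat_lit 12552662)] (nat_lit 4942965)) p15_23_3 (nat_lit 4) (nat_lit 84) (nat_lit 85) = true := by decide +kernel
def p15_23_3_85 : pfC (piC [(nat_lit 38167130), (nat_lit 25010362), (nat_lit 18643303), (nat_lit 12552662)] (nat_lit 4942965)) p15_23_3 (nat_lit 4) (nat_lit 85) (nat_lit 86) = true := by decide +kernel
def p15_23_3_86 : pfC (piC [(nat_lit 38167130), (nat_lit 25010362), (nat_lit 18643303), (nat_lit 12552662)] (nat_lit 4942965)) p15_23_3 (nat_lit 4) (nat_lit 86) (nat_lit 87) = true := by decide +kernel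
def p15_23_3_87 : pfC (piC [(nat_lit 38167130), (nat_lit 25010362), (nat_lit 18643303), (nat_lit 12552662)] (nat_lit 4942965)) p15_23_3 (nat_lit 4) (nat_lit 87) (nat_lit 88) = true := by decide +kernel
def p15_23_3_88 : pfC (piC [(nat_lit 38167130), (nat_lit 25010362), (nat_lit 18643303), (nat_lit 12552662)] (nat_lit 4942965)) p15_23_3 (nat_lit 4) (nat_lit 88) (nat_lit 89) = true := by decide +kernel
def p15_23_3_89 : pfC (piC [(nat_lit 38167130), (nat_lit 25010362), (nat_lit 18643303), (nat_lit 12552662)] (nat_lit 4942965)) p15_23_3 (nat_lit 4) (nat_lit 89) (nat_lit 90) = true := by decide +kernel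
def p15_23_3_90 : pfC (piC [(nat_lit 38167130), (nat_lit 25010362), (nat_lit 18643303), (nat_lit 12552662)] (nat_lit 4942965)) p15_23_3 (nat_lit 4) (nat_lit 90) (nat_lit 91) = true := by decide +kernel
def p15_23_3_91 : pfC (piC [(nat_lit 38167130), (nat_lit 25010362), (nat_lit 18643303), (nat_lit 12552662)] (nat_lit 4942965)) p15_23_3 (nat_lit 4) (nat_lit 91) (nat_lit 92) = true := by decide +kernel
def p15_23_3_92 : pfC (piC [(nat_lit 38167130), (nat_lit 25010362), (nat_lit 18643303), (nat_lit 12552662)] (nat_lit 4942965)) p15_23_3 (nat_lit 4) (nat_lit 92) (nat_lit 93) = true := by decide +kernel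
def p15_23_3_93 : pfC (piC [(nat_lit 38167130), (nat_lit 25010362), (nat_lit 18643303), (nat_lit 12552662)] (nat_lit 4942965)) p15_23_3 (nat_lit 4) (nat_lit 93) (nat_lit 94) = true := by decide +kernel
def p15_23_3_94 : pfC (piC [(nat_lit 38167130), (nat_lit 25010362), (nat_lit 18643303), (nat_lit 12552662)] (nat_lit 4942965)) p15_23_3 (nat_lit 4) (nat_lit 94) (nat_lit 95) = true := by decide +kernel
def p15_23_3_95 : pfC (piC [(nat_lit 38167130), (nat_lit 25010362), (nat_lit 18643303), (nat_lit 12552662)] (nat_lit 4942965)) p15_23_3 (nat_lit 4) (nat_lit 95) (nat_lit 96) = true := by decide +kernel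
def p15_23_3_96 : pfC (piC [(nat_lit 38167130), (nat_lit 25010362), (nat_lit 18643303), (nat_lit 12552662)] (nat_lit 4942965)) p15_23_3 (nat_lit 4) (nat_lit 96) (nat_lit 97) = true := by decide +kernel
def p15_23_3_97 : pfC (piC [(nat_lit 38167130), (nat_lit 25010362), (nat_lit 18643303), (nat_lit 12552662)] (nat_lit 4942965)) p15_23_3 (nat_lit 4) (nat_lit 97) (nat_lit 98) = true := by decide +kernel
def p15_23_3_98 : pfC (piC [(nat_lit 38167130), (nat_lit 25010362), (nat_lit 18643303), (nat_lit 12552662)] (nat_lit 4942965)) p15_23_3 (nat_lit 4) (nat_lit 98) (nat_lit 99) = true := by decide +kernel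
def p15_23_3_99 : pfC (piC [(nat_lit 38167130), (nat_lit 25010362), (nat_lit 18643303), (nat_lit 12552662)] (nat_lit 4942965)) p15_23_3 (nat_lit 4) (nat_lit 99) (nat_lit 100) = true := by decide +kernel
def p15_23_3_100 : pfC (piC [(nat_lit 38167130), (nat_lit 25010362), (nat_lit 18643303), (nat_lit 12552662)] (nat_lit 4942965)) p15_23_3 (nat_lit 4) (nat_lit 100) (nat_lit 101) = true := by decide +kernel
def p15_23_3_101 : pfC (piC [(nat_lit 38167130), (nat_lit 25010362), (nat_lit 18643303), (nat_lit 12552662)] (nat_lit 4942965)) p15_23_3 (nat_lit 4) (nat_lit 101) (nat_lit 102) = true := by decide +kernel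
def p15_23_3_102 : pfC (piC [(nat_lit 38167130), (nat_lit 25010362), (nat_lit 18643303), (nat_lit 12552662)] (nat_lit 4942965)) p15_23_3 (nat_lit 4) (nat_lit 102) (nat_lit 103) = true := by decide +kernel
def p15_23_3_103 : pfC (piC [(nat_lit 38167130), (nat_lit 25010362), (nat_lit 18643303), (nat_lit 12552662)] (nat_lit 4942965)) p15_23_3 (nat_lit 4) (nat_lit 103) (nat_lit 104) = true := by decide +kernel
def p15_23_3_104 : pfC (piC [(nat_lit 38167130), (nat_lit 25010362), (nat_lit 18643303), (nat_lit 12552662)] (nat_lit 4942965)) p15_23_3 (nat_lit 4) (nat_lit 104) (nat_lit 105) = true := by decide +kernel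
def p15_23_3_105 : pfC (piC [(nat_lit 38167130), (nat_lit 25010362), (nat_lit 18643303), (nat_lit 12552662)] (nat_lit 4942965)) p15_23_3 (nat_lit 4) (nat_lit 105) (nat_lit 106) = true := by decide +kernel
def p15_23_3_106 : pfC (piC [(nat_lit 38167130), (nat_lit 25010362), (nat_lit 18643303), (nat_lit 12552662)] (nat_lit 4942965)) p15_23_3 (nat_lit 4) (nat_lit 106) (nat_lit 107) = true := by decide +kernel
def p15_23_3_107 : pfC (piC [(nat_lit 38167130), (nat_lit 25010362), (nat_lit 18643303), (nat_lit 12552662)] (nat_lit 4942965)) p15_23_3 (nat_lit 4) (nat_lit 107) (nat_lit 108) = true := by decide +kernel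
def p15_23_3_108 : pfC (piC [(nat_lit 38167130), (nat_lit 25010362), (nat_lit 18643303), (nat_lit 12552662)] (nat_lit 4942965)) p15_23_3 (nat_lit 4) (nat_lit 108) (nat_lit 109) = true := by decide +kernel
def p15_23_3_109 : pfC (piC [(nat_lit 38167130), (nat_lit 25010362), (nat_lit 18643303), (nat_lit 12552662)] (nat_lit 4942965)) p15_23_3 (nat_lit 4) (nat_lit 109) (nat_lit 110) = true := by decide +kernel
def p15_23_3_110 : pfC (piC [(nat_lit 38167130), (nat_lit 25010362), (nat_lit 18643303), (nat_lit 12552662)] (nat_lit 4942965)) p15_23_3 (nat_lit 4) (nat_lit 110) (nat_lit 111) = true := by decide +kernel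
def p15_23_3_111 : pfC (piC [(nat_lit 38167130), (nat_lit 25010362), (nat_lit 18643303), (nat_lit 12552662)] (nat_lit 4942965)) p15_23_3 (nat_lit 4) (nat_lit 111) (nat_lit 112) = true := by decide +kernel
def p15_23_3_112 : pfC (piC [(nat_lit 38167130), (nat_lit 25010362), (nat_lit 18643303), (nat_lit 12552662)] (nat_lit 4942965)) p15_23_3 (nat_lit 4) (nat_lit 112) (nat_lit 113) = true := by decide +kernel
def p15_23_3_113 : pfC (piC [(nat_lit 38167130), (nat_lit 25010362), (nat_lit 18643303), (nat_lit 12552662)] (nat_lit 4942965)) p15_23_3 (nat_lit 4) (nat_lit 113) (nat_lit 114) = true := by decide +kernel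
def p15_23_3_114 : pfC (piC [(nat_lit 38167130), (nat_lit 25010362), (nat_lit 18643303), (nat_lit 12552662)] (nat_lit 4942965)) p15_23_3 (nat_lit 4) (nat_lit 114) (nat_lit 115) = true := by decide +kernel
def p15_23_3_115 : pfC (piC [(nat_lit 38167130), (nat_lit 25010362), (nat_lit 18643303), (nat_lit 12552662)] (nat_lit 4942965)) p15_23_3 (nat_lit 4) (nat_lit 115) (nat_lit 116) = true := by decide +kernel
def p15_23_3_116 : pfC (piC [(nat_lit 38167130), (nat_lit 25010362), (nat_lit 18643303), (nat_lit 12552662)] (nat_lit 4942965)) p15_23_3 (nat_lit 4) (nat_lit 116) (nat_lit 117) = true := by decide +kernel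
def p15_23_3_117 : pfC (piC [(nat_lit 38167130), (nat_lit 25010362), (nat_lit 18643303), (nat_lit 12552662)] (nat_lit 4942965)) p15_23_3 (nat_lit 4) (nat_lit 117) (nat_lit 118) = true := by decide +kernel
def p15_23_3_118 : pfC (piC [(nat_lit 38167130), (nat_lit 25010362), (nat_lit 18643303), (nat_lit 12552662)] (nat_lit 4942965)) p15_23_3 (nat_lit 4) (nat_lit 118) (nat_lit 119) = true := by decide +kernel
def p15_23_3_119 : pfC (piC [(nat_lit 38167130), (nat_lit 25010362), (nat_lit 18643303), (nat_lit 12552662)] (nat_lit 4942965)) p15_23_3 (nat_lit 4) (nat_lit 119) (nat_lit 120) = true := by decide +kernel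
def p15_23_3_120 : pfC (piC [(nat_lit 38167130), (nat_lit 25010362), (nat_lit 18643303), (nat_lit 12552662)] (nat_lit 4942965)) p15_23_3 (nat_lit 4) (nat_lit 120) (nat_lit 121) = true := by decide +kernel
def p15_23_3_121 : pfC (piC [(nat_lit 38167130), (nat_lit 25010362), (nat_lit 18643303), (nat_lit 12552662)] (nat_lit 4942965)) p15_23_3 (nat_lit 4) (nat_lit 121) (nat_lit 122) = true := by decide +kernel
def p15_23_3_122 : pfC (piC [(nat_lit 38167130), (nat_lit 25010362), (nat_lit 18643303), (nat_lit 12552662)] (nat_lit 4942965)) p15_23_3 (nat_lit 4) (nat_lit 122) (nat_lit 123) = true := by decide +kernel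
def p15_23_3_123 : pfC (piC [(nat_lit 38167130), (nat_lit 25010362), (nat_lit 18643303), (nat_lit 12552662)] (nat_lit 4942965)) p15_23_3 (nat_lit 4) (nat_lit 123) (nat_lit 124) = true := by decide +kernel
def p15_23_3_124 : pfC (piC [(nat_lit 38167130), (nat_lit 25010362), (nat_lit 18643303), (nat_lit 12552662)] (nat_lit 4942965)) p15_23_3 (nat_lit 4) (nat_lit 124) (nat_lit 125) = true := by decide +kernel
def p15_23_3_125 : pfC (piC [(nat_lit 38167130), (nat_lit 25010362), (nat_lit 18643303), (nat_lit 12552662)] (nat_lit 4942965)) p15_23_3 (nat_lit 4) (nat_lit 125) (nat_lit 126) = true := by decide +kernel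
def p15_23_3_126 : pfC (piC [(nat_lit 38167130), (nat_lit 25010362), (nat_lit 18643303), (nat_lit 12552662)] (nat_lit 4942965)) p15_23_3 (nat_lit 4) (nat_lit 126) (nat_lit 127) = true := by decide +kernel
def p15_23_3_127 : pfC (piC [(nat_lit 38167130), (nat_lit 25010362), (nat_lit 18643303), (nat_lit 12552662)] (nat_lit 4942965)) p15_23_3 (nat_lit 4) (nat_lit 127) (nat_lit 128) = true := by decide +kernel
def p15_23_3_128 : pfC (piC [(nat_lit 38167130), (nat_lit 25010362), (nat_lit 18643303), (nat_lit 12552662)] (nat_lit 4942965)) p15_23_3 (nat_lit 4) (nat_lit 128) (nat_lit 129) = true := by decide +kernel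
def p15_23_3_129 : pfC (piC [(nat_lit 38167130), (nat_lit 25010362), (nat_lit 18643303), (nat_lit 12552662)] (nat_lit 4942965)) p15_23_3 (nat_lit 4) (nat_lit 129) (nat_lit 130) = true := by decide +kernel
def p15_23_3_130 : pfC (piC [(nat_lit 38167130), (nat_lit 25010362), (nat_lit 18643303), (nat_lit 12552662)] (nat_lit 4942965)) p15_23_3 (nat_lit 4) (nat_lit 130) (nat_lit 131) = true := by decide +kernel
def p15_23_3_131 : pfC (piC [(nat_lit 38167130), (nat_lit 25010362), (nat_lit 18643303), (nat_lit 12552662)] (nat_lit 4942965)) p15_23_3 (nat_lit 4) (nat_lit 131) (nat_lit 132) = true := by decide +kernel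
def p15_23_3_132 : pfC (piC [(nat_lit 38167130), (nat_lit 25010362), (nat_lit 18643303), (nat_lit 12552662)] (nat_lit 4942965)) p15_23_3 (nat_lit 4) (nat_lit 132) (nat_lit 133) = true := by decide +kernel
def p15_23_3_133 : pfC (piC [(nat_lit 38167130), (nat_lit 25010362), (nat_lit 18643303), (nat_lit 12552662)] (nat_lit 4942965)) p15_23_3 (nat_lit 4) (nat_lit 133) (nat_lit 134) = true := by decide +kernel
def p15_23_3_134 : pfC (piC [(nat_lit 38167130), (nat_lit 25010362), (nat_lit 18643303), (nat_lit 12552662)] (nat_lit 4942965)) p15_23_3 (nat_lit 4) (nat_lit 134) (nat_lit 135) = true := by decide +kernel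
def p15_23_3_135 : pfC (piC [(nat_lit 38167130), (nat_lit 25010362), (nat_lit 18643303), (nat_lit 12552662)] (nat_lit 4942965)) p15_23_3 (nat_lit 4) (nat_lit 135) (nat_lit 136) = true := by decide +kernel
def p15_23_3_136 : pfC (piC [(nat_lit 38167130), (nat_lit 25010362), (nat_lit 18643303), (nat_lit 12552662)] (nat_lit 4942965)) p15_23_3 (nat_lit 4) (nat_lit 136) (nat_lit 137) = true := by decide +kernel
def p15_23_3_137 : pfC (piC [(nat_lit 38167130), (nat_lit 25010362), (nat_lit 18643303), (nat_lit 12552662)] (nat_lit 4942965)) p15_23_3 (nat_lit 4) (nat_lit 137) (nat_lit 138) = true := by decide +kernel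
def p15_23_3_138 : pfC (piC [(nat_lit 38167130), (nat_lit 25010362), (nat_lit 18643303), (nat_lit 12552662)] (nat_lit 4942965)) p15_23_3 (nat_lit 4) (nat_lit 138) (nat_lit 139) = true := by decide +kernel
def p15_23_3_139 : pfC (piC [(nat_lit 38167130), (nat_lit 25010362), (nat_lit 18643303), (nat_lit 12552662)] (nat_lit 4942965)) p15_23_3 (nat_lit 4) (nat_lit 139) (nat_lit 140) = true := by decide +kernel
def p15_23_3_140 : pfC (piC [(nat_lit 38167130), (nat_lit 25010362), (nat_lit 18643303), (nat_lit 12552662)] (nat_lit 4942965)) p15_23_3 (nat_lit 4) (nat_lit 140) (nat_lit 141) = true := by decide +kernel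
def p15_23_3_141 : pfC (piC [(nat_lit 38167130), (nat_lit 25010362), (nat_lit 18643303), (nat_lit 12552662)] (nat_lit 4942965)) p15_23_3 (nat_lit 4) (nat_lit 141) (nat_lit 142) = true := by decide +kernel
def p15_23_3_142 : pfC (piC [(nat_lit 38167130), (nat_lit 25010362), (nat_lit 18643303), (nat_lit 12552662)] (nat_lit 4942965)) p15_23_3 (nat_lit 4) (nat_lit 142) (nat_lit 143) = true := by decide +kernel
def p15_23_3_143 : pfC (piC [(nat_lit 38167130), (nat_lit 25010362), (nat_lit 18643303), (nat_lit 12552662)] (nat_lit 4942965)) p15_23_3 (nat_lit 4) (nat_lit 143) (nat_lit 144) = true := by decide +kernel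
def p15_23_3_144 : pfC (piC [(nat_lit 38167130), (nat_lit 25010362), (nat_lit 18643303), (nat_lit 12552662)] (nat_lit 4942965)) p15_23_3 (nat_lit 4) (nat_lit 144) (nat_lit 145) = true := by decide +kernel
def p15_23_3_145 : pfC (piC [(nat_lit 38167130), (nat_lit 25010362), (nat_lit 18643303), (nat_lit 12552662)] (nat_lit 4942965)) p15_23_3 (nat_lit 4) (nat_lit 145) (nat_lit 146) = true := by decide +kernel
def p15_23_3_146 : pfC (piC [(nat_lit 38167130), (nat_lit 25010362), (nat_lit 18643303), (nat_lit 12552662)] (nat_lit 4942965)) p15_23_3 (nat_lit 4) (nat_lit 146) (nat_lit 147) = true := by decide +kernel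
def p15_23_3_147 : pfC (piC [(nat_lit 38167130), (nat_lit 25010362), (nat_lit 18643303), (nat_lit 12552662)] (nat_lit 4942965)) p15_23_3 (nat_lit 4) (nat_lit 147) (nat_lit 148) = true := by decide +kernel
def p15_23_3_148 : pfC (piC [(nat_lit 38167130), (nat_lit 25010362), (nat_lit 18643303), (nat_lit 12552662)] (nat_lit 4942965)) p15_23_3 (nat_lit 4) (nat_lit 148) (nat_lit 149) = true := by decide +kernel
def p15_23_3_149 : pfC (piC [(nat_lit 38167130), (nat_lit 25010362), (nat_lit 18643303), (nat_lit 12552662)] (nat_lit 4942965)) p15_23_3 (nat_lit 4) (nat_lit 149) (nat_lit 150) = true := by decide +kernel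
def p15_23_3_150 : pfC (piC [(nat_lit 38167130), (nat_lit 25010362), (nat_lit 18643303), (nat_lit 12552662)] (nat_lit 4942965)) p15_23_3 (nat_lit 4) (nat_lit 150) (nat_lit 151) = true := by decide +kernel
def p15_23_3_151 : pfC (piC [(nat_lit 38167130), (nat_lit 25010362), (nat_lit 18643303), (nat_lit 12552662)] (nat_lit 4942965)) p15_23_3 (nat_lit 4) (nat_lit 151) (nat_lit 152) = true := by decide +kernel
def p15_23_3_152 : pfC (piC [(nat_lit 38167130), (nat_lit 25010362), (nat_lit 18643303), (nat_lit 12552662)] (nat_lit 4942965)) p15_23_3 (nat_lit 4) (nat_lit 152) (nat_lit 153) = true := by decide +kernel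
def p15_23_3_153 : pfC (piC [(nat_lit 38167130), (nat_lit 25010362), (nat_lit 18643303), (nat_lit 12552662)] (nat_lit 4942965)) p15_23_3 (nat_lit 4) (nat_lit 153) (nat_lit 154) = true := by decide +kernel
def p15_23_3_154 : pfC (piC [(nat_lit 38167130), (nat_lit 25010362), (nat_lit 18643303), (nat_lit 12552662)] (nat_lit 4942965)) p15_23_3 (nat_lit 4) (nat_lit 154) (nat_lit 155) = true := by decide +kernel
def p15_23_3_155 : pfC (piC [(nat_lit 38167130), (nat_lit 25010362), (nat_lit 18643303), (nat_lit 12552662)] (nat_lit 4942965)) p15_23_3 (nat_lit 4) (nat_lit 155) (nat_lit 156) = true := by decide +kernel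
def p15_23_3_156 : pfC (piC [(nat_lit 38167130), (nat_lit 25010362), (nat_lit 18643303), (nat_lit 12552662)] (nat_lit 4942965)) p15_23_3 (nat_lit 4) (nat_lit 156) (nat_lit 157) = true := by decide +kernel
def p15_23_3_157 : pfC (piC [(nat_lit 38167130), (nat_lit 25010362), (nat_lit 18643303), (nat_lit 12552662)] (nat_lit 4942965)) p15_23_3 (nat_lit 4) (nat_lit 157) (nat_lit 158) = true := by decide +kernel
def p15_23_3_158 : pfC (piC [(nat_lit 38167130), (nat_lit 25010362), (nat_lit 18643303), (nat_lit 12552662)] (nat_lit 4942965)) p15_23_3 (nat_lit 4) (nat_lit 158) (nat_lit 159) = true := by decide +kernel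
def p15_23_3_159 : pfC (piC [(nat_lit 38167130), (nat_lit 25010362), (nat_lit 18643303), (nat_lit 12552662)] (nat_lit 4942965)) p15_23_3 (nat_lit 4) (nat_lit 159) (nat_lit 160) = true := by decide +kernel
def p15_23_3_160 : pfC (piC [(nat_lit 38167130), (nat_lit 25010362), (nat_lit 18643303), (nat_lit 12552662)] (nat_lit 4942965)) p15_23_3 (nat_lit 4) (nat_lit 160) (nat_lit 161) = true := by decide +kernel
def p15_23_3_161 : pfC (piC [(nat_lit 38167130), (nat_lit 25010362), (nat_lit 18643303), (nat_lit 12552662)] (nat_lit 4942965)) p15_23_3 (nat_lit 4) (nat_lit 161) (nat_lit 162) = true := by decide +kernel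
def p15_23_3_162 : pfC (piC [(nat_lit 38167130), (nat_lit 25010362), (nat_lit 18643303), (nat_lit 12552662)] (nat_lit 4942965)) p15_23_3 (nat_lit 4) (nat_lit 162) (nat_lit 163) = true := by decide +kernel
def p15_23_3_163 : pfC (piC [(nat_lit 38167130), (nat_lit 25010362), (nat_lit 18643303), (nat_lit 12552662)] (nat_lit 4942965)) p15_23_3 (nat_lit 4) (nat_lit 163) (nat_lit 164) = true := by decide +kernel
def p15_23_3_164 : pfC (piC [(nat_lit 38167130), (nat_lit 25010362), (nat_lit 18643303), (nat_lit 12552662)] (nat_lit 4942965)) p15_23_3 (nat_lit 4) (nat_lit 164) (nat_lit 165) = true := by decide +kernel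
def p15_23_3_165 : pfC (piC [(nat_lit 38167130), (nat_lit 25010362), (nat_lit 18643303), (nat_lit 12552662)] (nat_lit 4942965)) p15_23_3 (nat_lit 4) (nat_lit 165) (nat_lit 166) = true := by decide +kernel
def p15_23_3_166 : pfC (piC [(nat_lit 38167130), (nat_lit 25010362), (nat_lit 18643303), (nat_lit 12552662)] (nat_lit 4942965)) p15_23_3 (nat_lit 4) (nat_lit 166) (nat_lit 167) = true := by decide +kernel
def p15_23_3_167 : pfC (piC [(nat_lit 38167130), (nat_lit 25010362), (nat_lit 18643303), (nat_lit 12552662)] (nat_lit 4942965)) p15_23_3 (nat_lit 4) (nat_lit 167) (nat_lit 168) = true := by decide +kernel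
def p15_23_3_168 : pfC (piC [(nat_lit 38167130), (nat_lit 25010362), (nat_lit 18643303), (nat_lit 12552662)] (nat_lit 4942965)) p15_23_3 (nat_lit 4) (nat_lit 168) (nat_lit 169) = true := by decide +kernel
def p15_23_3_169 : pfC (piC [(nat_lit 38167130), (nat_lit 25010362), (nat_lit 18643303), (nat_lit 12552662)] (nat_lit 4942965)) p15_23_3 (nat_lit 4) (nat_lit 169) (nat_lit 170) = true := by decide +kernel
def p15_23_3_170 : pfC (piC [(nat_lit 38167130), (nat_lit 25010362), (nat_lit 18643303), (nat_lit 12552662)] (nat_lit 4942965)) p15_23_3 (nat_lit 4) (nat_lit 170) (nat_lit 171) = true := by decide +kernel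
def p15_23_3_171 : pfC (piC [(nat_lit 38167130), (nat_lit 25010362), (nat_lit 18643303), (nat_lit 12552662)] (nat_lit 4942965)) p15_23_3 (nat_lit 4) (nat_lit 171) (nat_lit 172) = true := by decide +kernel
def p15_23_3_172 : pfC (piC [(nat_lit 38167130), (nat_lit 25010362), (nat_lit 18643303), (nat_lit 12552662)] (nat_lit 4942965)) p15_23_3 (nat_lit 4) (nat_lit 172) (nat_lit 173) = true := by decide +kernel
def p15_23_3_173 : pfC (piC [(nat_lit 38167130), (nat_lit 25010362), (nat_lit 18643303), (nat_lit 12552662)] (nat_lit 4942965)) p15_23_3 (nat_lit 4) (nat_lit 173) (nat_lit 174) = true := by decide +kernel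
def p15_23_3_174 : pfC (piC [(nat_lit 38167130), (nat_lit 25010362), (nat_lit 18643303), (nat_lit 12552662)] (nat_lit 4942965)) p15_23_3 (nat_lit 4) (nat_lit 174) (nat_lit 175) = true := by decide +kernel
def p15_23_3_175 : pfC (piC [(nat_lit 38167130), (nat_lit 25010362), (nat_lit 18643303), (nat_lit 12552662)] (nat_lit 4942965)) p15_23_3 (nat_lit 4) (nat_lit 175) (nat_lit 176) = true := by decide +kernel
def p15_23_3_176 : pfC (piC [(nat_lit 38167130), (nat_lit 25010362), (nat_lit 18643303), (nat_lit 12552662)] (nat_lit 4942965)) p15_23_3 (nat_lit 4) (nat_lit 176) (nat_lit 177) = true := by decide +kernel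
def p15_23_3_177 : pfC (piC [(nat_lit 38167130), (nat_lit 25010362), (nat_lit 18643303), (nat_lit 12552662)] (nat_lit 4942965)) p15_23_3 (nat_lit 4) (nat_lit 177) (nat_lit 178) = true := by decide +kernel
def p15_23_3_178 : pfC (piC [(nat_lit 38167130), (nat_lit 25010362), (nat_lit 18643303), (nat_lit 12552662)] (nat_lit 4942965)) p15_23_3 (nat_lit 4) (nat_lit 178) (nat_lit 179) = true := by decide +kernel
def p15_23_3_179 : pfC (piC [(nat_lit 38167130), (nat_lit 25010362), (nat_lit 18643303), (nat_lit 12552662)] (nat_lit 4942965)) p15_23_3 (nat_lit 4) (nat_lit 179) (nat_lit 180) = true := by decide +kernel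
def p15_23_3_180 : pfC (piC [(nat_lit 38167130), (nat_lit 25010362), (nat_lit 18643303), (nat_lit 12552662)] (nat_lit 4942965)) p15_23_3 (nat_lit 4) (nat_lit 180) (nat_lit 181) = true := by decide +kernel
def p15_23_3_181 : pfC (piC [(nat_lit 38167130), (nat_lit 25010362), (nat_lit 18643303), (nat_lit 12552662)] (nat_lit 4942965)) p15_23_3 (nat_lit 4) (nat_lit 181) (nat_lit 182) = true := by decide +kernel
def p15_23_3_182 : pfC (piC [(nat_lit 38167130), (nat_lit 25010362), (nat_lit 18643303), (nat_lit 12552662)] (nat_lit 4942965)) p15_23_3 (nat_lit 4) (nat_lit 182) (nat_lit 183) = true := by decide +kernel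
def p15_23_3_183 : pfC (piC [(nat_lit 38167130), (nat_lit 25010362), (nat_lit 18643303), (nat_lit 12552662)] (nat_lit 4942965)) p15_23_3 (nat_lit 4) (nat_lit 183) (nat_lit 184) = true := by decide +kernel
def p15_23_3_184 : pfC (piC [(nat_lit 38167130), (nat_lit 25010362), (nat_lit 18643303), (nat_lit 12552662)] (nat_lit 4942965)) p15_23_3 (nat_lit 4) (nat_lit 184) (nat_lit 185) = true := by decide +kernel
def p15_23_3_185 : pfC (piC [(nat_lit 38167130), (nat_lit 25010362), (nat_lit 18643303), (nat_lit 12552662)] (nat_lit 4942965)) p15_23_3 (nat_lit 4) (nat_lit 185) (nat_lit 186) = true := by decide +kernel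
def p15_23_3_186 : pfC (piC [(nat_lit 38167130), (nat_lit 25010362), (nat_lit 18643303), (nat_lit 12552662)] (nat_lit 4942965)) p15_23_3 (nat_lit 4) (nat_lit 186) (nat_lit 187) = true := by decide +kernel
def p15_23_3_187 : pfC (piC [(nat_lit 38167130), (nat_lit 25010362), (nat_lit 18643303), (nat_lit 12552662)] (nat_lit 4942965)) p15_23_3 (nat_lit 4) (nat_lit 187) (nat_lit 188) = true := by decide +kernel
def p15_23_3_188 : pfC (piC [(nat_lit 38167130), (nat_lit 25010362), (nat_lit 18643303), (nat_lit 12552662)] (nat_lit 4942965)) p15_23_3 (nat_lit 4) (nat_lit 188) (nat_lit 189) = true := by decide +kernel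
def p15_23_3_189 : pfC (piC [(nat_lit 38167130), (nat_lit 25010362), (nat_lit 18643303), (nat_lit 12552662)] (nat_lit 4942965)) p15_23_3 (nat_lit 4) (nat_lit 189) (nat_lit 190) = true := by decide +kernel
def p15_23_3_190 : pfC (piC [(nat_lit 38167130), (nat_lit 25010362), (nat_lit 18643303), (nat_lit 12552662)] (nat_lit 4942965)) p15_23_3 (nat_lit 4) (nat_lit 190) (nat_lit 191) = true := by decide +kernel
def p15_23_3_191 : pfC (piC [(nat_lit 38167130), (nat_lit 25010362), (nat_lit 18643303), (nat_lit 12552662)] (nat_lit 4942965)) p15_23_3 (nat_lit 4) (nat_lit 191) (nat_lit 192) = true := by decide +kernel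
def p15_23_3_192 : pfC (piC [(nat_lit 38167130), (nat_lit 25010362), (nat_lit 18643303), (nat_lit 12552662)] (nat_lit 4942965)) p15_23_3 (nat_lit 4) (nat_lit 192) (nat_lit 193) = true := by decide +kernel
def p15_23_3_193 : pfC (piC [(nat_lit 38167130), (nat_lit 25010362), (nat_lit 18643303), (nat_lit 12552662)] (nat_lit 4942965)) p15_23_3 (nat_lit 4) (nat_lit 193) (nat_lit 194) = true := by decide +kernel
def p15_23_3_194 : pfC (piC [(nat_lit 38167130), (nat_lit 25010362), (nat_lit 18643303), (nat_lit 12552662)] (nat_lit 4942965)) p15_23_3 (nat_lit 4) (nat_lit 194) (nat_lit 195) = true := by decide +kernel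
theorem p15_23_3_T : PfS (PiF n15_23.reverse (nat_lit 4942965)) p15_23_3 (nat_lit 4) [] 0 :=
  pftab_of (los := [(nat_lit 38167130), (nat_lit 25010362), (nat_lit 18643303), (nat_lit 12552662)]) (by decide +kernel) (hi := (nat_lit 195)) (PfP.trans (PfP.trans (PfP.trans (PfP.trans (PfP.trans (PfP.trans (PfP.trans (PfP.trans (PfP.trans (PfP.trans (PfP.trans (PfP.trans (PfP.trans (PfP.trans (PfP.trans (PfP.trans (PfP.trans (PfP.trans (PfP.trans (PfP.trans (PfP.trans (PfP.trans (PfP.trans (PfP.trans (PfP.trans (PfP.trans (PfP.trans (PfP.trans (PfP.trans (PfP.trans (PfP.trans (PfP.trans (PfP.trans (PfP.trans (PfP.trans (PfP.trans (PfP.trans (PfP.trans (PfP.trans (PfP.trans (PfP.trans (PfP.trans (PfP.trans (PfP.trans (PfP.trans (PfP.trans (PfP.trans (PfP.trans (PfP.trans (PfP.trans (PfP.trans (PfP.trans (PfP.trans (PfP.trans (PfP.trans (PfP.trans (PfP.trans (PfP.trans (PfP.trans (PfP.trans (PfP.trans (PfP.trans (PfP.trans (PfP.trans (PfP.trans (PfP.trans (PfP.trans (PfP.trans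 (PfP.trans (PfP.trans (PfP.trans (PfP.trans (PfP.trans (PfP.trans (PfP.trans (PfP.trans (PfP.trans (PfP.trans (PfP.trans (PfP.trans (PfP.trans (PfP.trans (PfP.trans (PfP.trans (PfP.trans (PfP.trans (PfP.trans (PfP.trans (PfP.trans (PfP.trans (PfP.trans (PfP.trans (PfP.trans (PfP.trans (PfP.trans (PfP.trans (PfP.trans (PfP.trans (PfP.trans (PfP.trans (PfP.trans (PfP.trans (PfP.trans (PfP.trans (PfP.trans (PfP.trans (PfP.trans (PfP.trans (PfP.trans
 (PfP.trans (PfP.trans (PfP.trans (PfP.trans (PfP.trans (PfP.trans (PfP.trans (PfP.trans (PfP.trans (PfP.trans (PfP.trans (PfP.trans (PfP.trans (PfP.trans (PfP.trans (PfP.trans (PfP.trans (PfP.trans (PfP.trans (PfP.trans (PfP.trans (PfP.trans (PfP.trans (PfP.trans (PfP.trans (PfP.trans (PfP.trans (PfP.trans (PfP.trans (PfP.trans (PfP.trans (PfP.trans (PfP.trans (PfP.trans (PfP.trans (PfP.trans (PfP.trans (PfP.trans (PfP.trans (PfP.trans (PfP.trans (PfP.trans (PfP.trans (PfP.trans (PfP.trans (PfP.trans (PfP.trans (PfP.trans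 (PfP.trans (PfP.trans (PfP.trans (PfP.trans (PfP.trans (PfP.trans (PfP.trans (PfP.trans (PfP.trans (PfP.trans (PfP.trans (PfP.trans (PfP.trans (PfP.trans (PfP.trans (PfP.trans (PfP.trans (PfP.trans (PfP.trans (PfP.trans (PfP.trans (PfP.trans (PfP.trans (PfP.trans (PfP.trans (PfP.trans (PfP.trans (PfP.trans (PfP.trans (PfP.trans (PfP.trans (PfP.trans (PfP.trans (PfP.trans (PfP.trans (PfP.trans (PfP.trans (pfC_sound p15_23_3_0) (pfC_sound p15_23_3_1)) (pfC_sound p15_23_3_2)) (pfC_sound p15_23_3_3)) (pfC_sound p15_23_3_4)) (pfC_sound p15_23_3_5)) (pfC_sound p15_23_3_6)) (pfC_sound p15_23_3_7)) (pfC_sound p15_23_3_8)) (pfC_sound p15_23_3_9)) (pfC_sound p15_23_3_10))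
 (pfC_sound p15_23_3_11)) (pfC_sound p15_23_3_12)) (pfC_sound p15_23_3_13)) (pfC_sound p15_23_3_14)) (pfC_sound p15_23_3_15)) (pfC_sound p15_23_3_16)) (pfC_sound p15_23_3_17)) (pfC_sound p15_23_3_18)) (pfC_sound p15_23_3_19)) (pfC_sound p15_23_3_20)) (pfC_sound p15_23_3_21)) (pfC_sound p15_23_3_22)) (pfC_sound p15_23_3_23)) (pfC_sound p15_23_3_24)) (pfC_sound p15_23_3_25)) (pfC_sound p15_23_3_26)) (pfC_sound p15_23_3_27)) (pfC_sound p15_23_3_28)) (pfC_sound p15_23_3_29)) (pfC_sound p15_23_3_30)) (pfC_sound p15_23_3_31)) (pfC_sound p15_23_3_32)) (pfC_sound p15_23_3_33)) (pfC_sound p15_23_3_34)) (pfC_sound p15_23_3_35)) (pfC_sound p15_23_3_36)) (pfC_sound p15_23_3_37)) (pfC_sound p15_23_3_38)) (pfC_sound p15_23_3_39)) (pfC_sound p15_23_3_40)) (pfC_sound p15_23_3_41)) (pfC_sound p15_23_3_42)) (pfC_sound p15_23_3_43)) (pfC_sound p15_23_3_44)) (pfC_sound p15_23_3_45)) (pfC_sound p15_23_3_46)) (pfC_sound p15_23_3_47)) (pfC_sound p15_23_3_48)) (pfC_sound p15_23_3_49)) (pfC_sound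 p15_23_3_50)) (pfC_sound p15_23_3_51)) (pfC_sound p15_23_3_52)) (pfC_sound p15_23_3_53)) (pfC_sound p15_23_3_54)) (pfC_sound p15_23_3_55)) (pfC_sound p15_23_3_56)) (pfC_sound p15_23_3_57)) (pfC_sound p15_23_3_58))
 (pfC_sound p15_23_3_59)) (pfC_sound p15_23_3_60)) (pfC_sound p15_23_3_61)) (pfC_sound p15_23_3_62)) (pfC_sound p15_23_3_63)) (pfC_sound p15_23_3_64)) (pfC_sound p15_23_3_65)) (pfC_sound p15_23_3_66)) (pfC_sound p15_23_3_67)) (pfC_sound p15_23_3_68)) (pfC_sound p15_23_3_69)) (pfC_sound p15_23_3_70)) (pfC_sound p15_23_3_71)) (pfC_sound p15_23_3_72)) (pfC_sound p15_23_3_73)) (pfC_sound p15_23_3_74)) (pfC_sound p15_23_3_75)) (pfC_sound p15_23_3_76)) (pfC_sound p15_23_3_77)) (pfC_sound p15_23_3_78)) (pfC_sound p15_23_3_79)) (pfC_sound p15_23_3_80)) (pfC_sound p15_23_3_81)) (pfC_sound p15_23_3_82)) (pfC_sound p15_23_3_83)) (pfC_sound p15_23_3_84)) (pfC_sound p15_23_3_85)) (pfC_sound p15_23_3_86)) (pfC_sound p15_23_3_87)) (pfC_sound p15_23_3_88)) (pfC_sound p15_23_3_89))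 (pfC_sound p15_23_3_90)) (pfC_sound p15_23_3_91)) (pfC_sound p15_23_3_92)) (pfC_sound p15_23_3_93)) (pfC_sound p15_23_3_94)) (pfC_sound p15_23_3_95)) (pfC_sound p15_23_3_96)) (pfC_sound p15_23_3_97)) (pfC_sound p15_23_3_98)) (pfC_sound p15_23_3_99)) (pfC_sound p15_23_3_100)) (pfC_sound p15_23_3_101)) (pfC_sound p15_23_3_102)) (pfC_sound p15_23_3_103)) (pfC_sound p15_23_3_104)) (pfC_sound p15_23_3_105)) (pfC_sound
 p15_23_3_106)) (pfC_sound p15_23_3_107)) (pfC_sound p15_23_3_108)) (pfC_sound p15_23_3_109)) (pfC_sound p15_23_3_110)) (pfC_sound p15_23_3_111)) (pfC_sound p15_23_3_112)) (pfC_sound p15_23_3_113)) (pfC_sound p15_23_3_114)) (pfC_sound p15_23_3_115)) (pfC_sound p15_23_3_116)) (pfC_sound p15_23_3_117)) (pfC_sound p15_23_3_118)) (pfC_sound p15_23_3_119)) (pfC_sound p15_23_3_120)) (pfC_sound p15_23_3_121)) (pfC_sound p15_23_3_122)) (pfC_sound p15_23_3_123)) (pfC_sound p15_23_3_124)) (pfC_sound p15_23_3_125)) (pfC_sound p15_23_3_126)) (pfC_sound p15_23_3_127)) (pfC_sound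 p15_23_3_128)) (pfC_sound p15_23_3_129)) (pfC_sound p15_23_3_130)) (pfC_sound p15_23_3_131)) (pfC_sound p15_23_3_132)) (pfC_sound p15_23_3_133)) (pfC_sound p15_23_3_134)) (pfC_sound p15_23_3_135)) (pfC_sound p15_23_3_136)) (pfC_sound p15_23_3_137)) (pfC_sound p15_23_3_138)) (pfC_sound p15_23_3_139)) (pfC_sound p15_23_3_140)) (pfC_sound p15_23_3_141)) (pfC_sound p15_23_3_142)) (pfC_sound p15_23_3_143)) (pfC_sound p15_23_3_144)) (pfC_sound p15_23_3_145)) (pfC_sound p15_23_3_146)) (pfC_sound p15_23_3_147)) (pfC_sound p15_23_3_148)) (pfC_sound p15_23_3_149)) (pfC_sound p15_23_3_150)) (pfC_sound p15_23_3_151)) (pfC_sound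
 p15_23_3_152)) (pfC_sound p15_23_3_153)) (pfC_sound p15_23_3_154)) (pfC_sound p15_23_3_155)) (pfC_sound p15_23_3_156)) (pfC_sound p15_23_3_157)) (pfC_sound p15_23_3_158)) (pfC_sound p15_23_3_159)) (pfC_sound p15_23_3_160)) (pfC_sound p15_23_3_161)) (pfC_sound p15_23_3_162)) (pfC_sound p15_23_3_163)) (pfC_sound p15_23_3_164)) (pfC_sound p15_23_3_165)) (pfC_sound p15_23_3_166)) (pfC_sound p15_23_3_167)) (pfC_sound p15_23_3_168)) (pfC_sound p15_23_3_169)) (pfC_sound p15_23_3_170)) (pfC_sound p15_23_3_171)) (pfC_sound p15_23_3_172)) (pfC_sound p15_23_3_173)) (pfC_sound p15_23_3_174)) (pfC_sound p15_23_3_175)) (pfC_sound p15_23_3_176)) (pfC_sound p15_23_3_177)) (pfC_sound p15_23_3_178)) (pfC_sound p15_23_3_179)) (pfC_sound p15_23_3_180)) (pfC_sound p15_23_3_181)) (pfC_sound p15_23_3_182)) (pfC_sound p15_23_3_183)) (pfC_sound p15_23_3_184)) (pfC_sound p15_23_3_185)) (pfC_sound p15_23_3_186)) (pfC_sound p15_23_3_187)) (pfC_sound p15_23_3_188)) (pfC_sound p15_23_3_189)) (pfC_sound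 p15_23_3_190)) (pfC_sound p15_23_3_191)) (pfC_sound p15_23_3_192)) (pfC_sound p15_23_3_193)) (pfC_sound p15_23_3_194)) (by decide +kernel)

def z15_23_3 : zOK yB15_23 (nat_lit 3) (nat_lit 750) (nat_lit 832) (nat_lit 4942965) (nat_lit 4109804) = true := by decide +kernel
def g15_23_3 : gOK yB15_23.x P15_23 (nat_lit 1416) (q15_23 :: r15_23) (nat_lit 3) (nat_lit 750) (nat_lit 4) (nat_lit 832) (nat_lit 12712500) (nat_lit 12712500) (nat_lit 12712500) (nat_lit 12712500) [(nat_lit 800)] = true := by decide +kernel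
def v15_23_3 : ivC P15_23 s15_23 w15_23 n15_23 (nat_lit 4) (nat_lit 4630) (nat_lit 3) (nat_lit 750) f160_1_750 f168_1_750 (nat_lit 4) (nat_lit 832) f160_1_832 f168_1_832 (nat_lit 4942965) (nat_lit 4109804) p15_23_3 = true := by decide +kernel
end CB
end Pool.Agent.Lib.MP_6947cd_al
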