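import Pool.Agent.Lib.MP_6947cd_al.L.BoxDataB
import Pool.Agent.Lib.MP_6947cd_al.L.TeD5
import Pool.Agent.Lib.MP_6947cd_al.L.TeD6

/-!
Problem MP_6947cd_al (Chollet).  CASE B, rows `j`: boxes (generated).
-/

set_option autoImplicit false
set_option linter.defProp false
set_option maxRecDepth 20000

namespace Pool.Agent.Lib.MP_6947cd_al
namespace CB

open Ent Ent.Pk Fr Fr.WT CA

/-! box `yB15_31` -/

def P15_31 : BQ := ⟨(nat_lit 8), (nat_lit 2), (nat_lit 6), (nat_lit 1), (nat_lit 7), (nat_lit 870), (nat_lit 875), (nat_lit 120), [(nat_lit 200), (nat_lit 300), (nat_lit 450), (nat_lit 800)], (nat_lit 131680000), (nat_lit 16000000), (nat_lit 16000000000)⟩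
def q15_31 : PC := ⟨(nat_lit 1000), [(nat_lit 120000), (nat_lit 200000), (nat_lit 300000), (nat_lit 450000), (nat_lit 800000)], (nat_lit 340282367000166625996085689103316680705000000), (nat_lit 15868320000000), (nat_lit 15868320000000), (nat_lit 10000000)⟩
def r15_31 : List PC := [⟨(nat_lit 1299), [(nat_lit 120598), (nat_lit 200838), (nat_lit 300922), (nat_lit 451195), (nat_lit 800304)], (nat_lit 342054897849900996793455983373705337287691134), (nat_lit 16295345813280), (nat_lit 16297900708480), (nat_lit 10049834)⟩, ⟨(nat_lit 5810), [(nat_lit 130896), (nat_lit 213670), (nat_lit 318519), (nat_lit 490008), (nat_lit 831747)], (nat_lit 369630700307080754122497559687220933342254766), (nat_lit 21637563083200), (nat_lit 21678663571200), (nat_lit 10908000)⟩, ⟨(nat_lit 1248), [(nat_lit 120489), (nat_lit 200717), (nat_lit 300627), (nat_lit 450461), (nat_lit 799093)], (nat_lit 341749664566697648237326359876256892174944748), (nat_lit 16222552674560), (nat_lit 16224671784960), (nat_lit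 10040750)⟩]
def s15_31 : List PB := [⟨(nat_lit 25980), (nat_lit 1929568000000), [(nat_lit 200838), (nat_lit 300922), (nat_lit 451195), (nat_lit 800304)], (nat_lit 342054897849900996793455983373705337287691134), (nat_lit 1142195252655904), (nat_lit 1142197807551104), (nat_lit 47840)⟩, ⟨(nat_lit 116200), (nat_lit 2094336000000), [(nat_lit 213670), (nat_lit 318519), (nat_lit 490008), (nat_lit 831747)], (nat_lit 369630700307080754122497559687220933342254766), (nat_lit 1147537469925824), (nat_lit 1147578570413824), (nat_lit 769600)⟩, ⟨(nat_lit 24960), (nat_lit 1927824000000), [(nat_lit 200717), (nat_lit 300627), (nat_lit 450461), (nat_lit 799093)], (nat_lit 341749664566697648237326359876256892174944748), (nat_lit 1142122459517184), (nat_lit 1142124578627584), (nat_lit 39680)⟩]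
def n15_31 : List KN := [⟨(nat_lit 800), (nat_lit 450), (nat_lit 11940226), (nat_lit 6694308)⟩, ⟨(nat_lit 450), (nat_lit 300), (nat_lit 17719570), (nat_lit 11940226)⟩, ⟨(nat_lit 300), (nat_lit 200), (nat_lit 23751559), (nat_lit 17719570)⟩, ⟨(nat_lit 200), (nat_lit 120), (nat_lit 35065580), (nat_lit 23751559)⟩]
def w15_31 : List ℕ := [(nat_lit 47840), (nat_lit 769600), (nat_lit 39680)]
def par15_31 : parC yB15_31 P15_31 s15_31 r15_31 q15_31 n15_31 w15_31 = true := by decide +kernel

def p15_31_0 : PF := (PF.cons (PF.cons (PF.cons (PF.cons (PF.leaf (nat_lit 923401) (nat_lit 3045444) (nat_lit 64063368) (nat_lit 3045444) [(nat_lit 0), (nat_lit 0), (nat_lit 0), (nat_lit 0)]) (PF.cons (PF.leaf (nat_lit 1140571) (nat_lit 369560) (nat_lit 63607028) (nat_lit 3132224) [(nat_lit 369560), (nat_lit 0), (nat_lit 0), (nat_lit 0)]) (PF.cons (PF.leaf (nat_lit 1401517) (nat_lit 408758) (nat_lit 63065832) (nat_lit 3225463) [(nat_lit 408758), (nat_lit 0), (nat_lit 0), (nat_lit 0)]) (PF.cons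 (PF.leaf (nat_lit 1699881) (nat_lit 445121) (nat_lit 62452831) (nat_lit 3320615) [(nat_lit 445121), (nat_lit 0), (nat_lit 0), (nat_lit 0)]) (PF.cons (PF.leaf (nat_lit 2031371) (nat_lit 479064) (nat_lit 61777865) (nat_lit 3414688) [(nat_lit 479064), (nat_lit 0), (nat_lit 0), (nat_lit 0)]) (PF.cons (PF.leaf (nat_lit 2392375) (nat_lit 510795) (nat_lit 61049176) (nat_lit 3505659) [(nat_lit 510795), (nat_lit 0), (nat_lit 0), (nat_lit 0)]) (PF.cons (PF.leaf (nat_lit 2779576) (nat_lit 540430) (nat_lit 60274077) (nat_lit 3592153) [(nat_lit 540430), (nat_lit 0), (nat_lit 0), (nat_lit 0)]) (PF.cons (PF.leaf (nat_lit 3189939) (nat_lit 568044) (nat_lit 59459254) (nat_lit 3673250) [(nat_lit 568044), (nat_lit 0), (nat_lit 0),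
 (nat_lit 0)]) (PF.cons (PF.leaf (nat_lit 3620503) (nat_lit 593694) (nat_lit 58610902) (nat_lit 3748355) [(nat_lit 593694), (nat_lit 0), (nat_lit 0), (nat_lit 0)]) (PF.cons (PF.leaf (nat_lit 4068523) (nat_lit 617434) (nat_lit 57734786) (nat_lit 3817117) [(nat_lit 617434), (nat_lit 0), (nat_lit 0), (nat_lit 0)]) (PF.cons (PF.leaf (nat_lit 4531381) (nat_lit 639317) (nat_lit 56836269) (nat_lit 3879368) [(nat_lit 639317), (nat_lit 0), (nat_lit 0), (nat_lit 0)]) (PF.cons (PF.leaf (nat_lit 5006660) (nat_lit 659401) (nat_lit 55920317) (nat_lit 3935077) [(nat_lit 659401), (nat_lit 0), (nat_lit 0), (nat_lit 0)]) (PF.cons PF.nil (PF.cons PF.nil PF.nil)))))))))))))) (PF.cons (PF.cons (PF.leaf (nat_lit 1568359) (nat_lit 1442424) (nat_lit 62348817) (nat_lit 3317571) [(nat_lit 0), (nat_lit 1442424), (nat_lit 0), (nat_lit 0)]) (PF.cons (PF.leaf (nat_lit 1857779) (nat_lit 459416) (nat_lit 61742206) (nat_lit 3402122) [(nat_lit 459416), (nat_lit 1505067), (nat_lit 0), (nat_lit 0)]) (PF.cons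 (PF.leaf (nat_lit 2182252) (nat_lit 492284) (nat_lit 61070817) (nat_lit 3486770) [(nat_lit 492284), (nat_lit 1566655), (nat_lit 0), (nat_lit 0)]) (PF.cons (PF.leaf (nat_lit 2536825) (nat_lit 522893) (nat_lit
 60344926) (nat_lit 3569207) [(nat_lit 522893), (nat_lit 1625999), (nat_lit 0), (nat_lit 0)]) (PF.cons (PF.leaf (nat_lit 2917786) (nat_lit 551404) (nat_lit 59572905) (nat_lit 3647901) [(nat_lit 551404), (nat_lit 1682389), (nat_lit 0), (nat_lit 0)]) (PF.cons (PF.leaf (nat_lit 3321807) (nat_lit 577917) (nat_lit 58761996) (nat_lit 3721832) [(nat_lit 577917), (nat_lit 1735395), (nat_lit 0), (nat_lit 0)]) (PF.cons (PF.leaf (nat_lit 3745874) (nat_lit 602504) (nat_lit 57918680) (nat_lit 3790342) [(nat_lit 602504), (nat_lit 1784765), (nat_lit 0), (nat_lit 0)]) (PF.cons (PF.leaf (nat_lit 4187177) (nat_lit 625224) (nat_lit 57048839) (nat_lit 3853031) [(nat_lit 625224), (nat_lit 1830368), (nat_lit 0), (nat_lit 0)]) (PF.cons (PF.leaf (nat_lit 4643099) (nat_lit 646138) (nat_lit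 56157852) (nat_lit 3909691) [(nat_lit 646138), (nat_lit 1872161), (nat_lit 0), (nat_lit 0)]) (PF.cons (PF.leaf (nat_lit 5111226) (nat_lit 665305) (nat_lit 55250639) (nat_lit 3960261) [(nat_lit 665305), (nat_lit 1910162), (nat_lit 0), (nat_lit 0)]) (PF.cons PF.nil (PF.cons PF.nil PF.nil)))))))))))) (PF.cons (PF.cons (PF.leaf (nat_lit 2337559) (nat_lit 1607710) (nat_lit 60339231) (nat_lit 3554159) [(nat_lit 0), (nat_lit
 1607710), (nat_lit 0), (nat_lit 0)]) (PF.cons (PF.leaf (nat_lit 2683159) (nat_lit 533613) (nat_lit 59622880) (nat_lit 3628221) [(nat_lit 533613), (nat_lit 1662048), (nat_lit 0), (nat_lit 0)]) (PF.cons (PF.leaf (nat_lit 3056318) (nat_lit 561186) (nat_lit 58858997) (nat_lit 3699365) [(nat_lit 561186), (nat_lit 1714038), (nat_lit 0), (nat_lit 0)]) (PF.cons (PF.leaf (nat_lit 3452925) (nat_lit 586741) (nat_lit 58055958) (nat_lit 3766420) [(nat_lit 586741), (nat_lit 1763104), (nat_lit 0), (nat_lit 0)]) (PF.cons (PF.leaf (nat_lit 3869709) (nat_lit 610379) (nat_lit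 57220846) (nat_lit 3828635) [(nat_lit 610379), (nat_lit 1808905), (nat_lit 0), (nat_lit 0)]) (PF.cons (PF.leaf (nat_lit 4303730) (nat_lit 632178) (nat_lit 56359860) (nat_lit 3885548) [(nat_lit 632178), (nat_lit 1851256), (nat_lit 0), (nat_lit 0)]) (PF.cons (PF.leaf (nat_lit 4752319) (nat_lit 652206) (nat_lit 55478523) (nat_lit 3936905) [(nat_lit 652206), (nat_lit 1890072), (nat_lit 0), (nat_lit 0)]) (PF.cons (PF.leaf (nat_lit 5213011) (nat_lit 670530) (nat_lit 54581796) (nat_lit 3982609) [(nat_lit 670530), (nat_lit 1925347), (nat_lit 0), (nat_lit 0)]) (PF.cons (PF.leaf (nat_lit 5683564) (nat_lit 687217) (nat_lit 53674147)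
 (nat_lit 4022674) [(nat_lit 687217), (nat_lit 1957125), (nat_lit 0), (nat_lit 0)]) (PF.cons PF.nil PF.nil)))))))))) (PF.cons (PF.cons (PF.leaf (nat_lit 3196921) (nat_lit 1743603) (nat_lit 58131110) (nat_lit 3746891) [(nat_lit 0), (nat_lit 1743603), (nat_lit 0), (nat_lit 0)]) (PF.cons (PF.leaf (nat_lit 3584401) (nat_lit 594507) (nat_lit 57340512) (nat_lit 3807295) [(nat_lit 594507), (nat_lit 1788832), (nat_lit 0), (nat_lit 0)]) (PF.cons (PF.leaf (nat_lit 3992884) (nat_lit 617324) (nat_lit 56517115) (nat_lit 3863472) [(nat_lit 617324), (nat_lit 1831192), (nat_lit 0), (nat_lit 0)]) (PF.cons (PF.leaf (nat_lit 4418895) (nat_lit 638304) (nat_lit 55667752) (nat_lit 3914875) [(nat_lit 638304), (nat_lit 1870423), (nat_lit 0), (nat_lit 0)]) (PF.cons (PF.leaf (nat_lit 4859636) (nat_lit 657534) (nat_lit 54798284) (nat_lit 3961193) [(nat_lit 657534), (nat_lit 1906398), (nat_lit 0), (nat_lit 0)]) (PF.cons (PF.leaf (nat_lit 5312559) (nat_lit 675091) (nat_lit 53913839) (nat_lit 4002286)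 [(nat_lit 675091), (nat_lit 1939076), (nat_lit 0), (nat_lit 0)]) (PF.cons (PF.leaf (nat_lit 5775381) (nat_lit 691048) (nat_lit 53018949) (nat_lit 4038135) [(nat_lit 691048), (nat_lit 1968479), (nat_lit 0),
 (nat_lit 0)]) (PF.cons PF.nil (PF.cons PF.nil PF.nil))))))))) (PF.cons (PF.cons (PF.leaf (nat_lit 4116687) (nat_lit 1851759) (nat_lit 55806696) (nat_lit 3895079) [(nat_lit 0), (nat_lit 1851759), (nat_lit 0), (nat_lit 0)]) (PF.cons (PF.leaf (nat_lit 4533534) (nat_lit 643600) (nat_lit 54972075) (nat_lit 3941206) [(nat_lit 643600), (nat_lit 1887982), (nat_lit 0), (nat_lit 0)]) (PF.cons (PF.leaf (nat_lit 4965748) (nat_lit 662127) (nat_lit 54116893) (nat_lit 3982726) [(nat_lit 662127), (nat_lit 1921234), (nat_lit 0), (nat_lit 0)]) (PF.cons (PF.leaf (nat_lit 5410428) (nat_lit 678997) (nat_lit 53246635) (nat_lit 4019444) [(nat_lit 678997), (nat_lit 1951435), (nat_lit 0), (nat_lit 0)]) (PF.cons (PF.leaf (nat_lit 5865205) (nat_lit 694293) (nat_lit 52366020) (nat_lit 4051305)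 [(nat_lit 694293), (nat_lit 1978578), (nat_lit 0), (nat_lit 0)]) (PF.cons (PF.leaf (nat_lit 6327952) (nat_lit 708094) (nat_lit 51479154) (nat_lit 4078347) [(nat_lit 708094), (nat_lit 2002710), (nat_lit 0), (nat_lit 0)]) (PF.cons PF.nil PF.nil))))))) (PF.cons (PF.cons (PF.leaf (nat_lit 5071673) (nat_lit 1934671) (nat_lit 53433790) (nat_lit 4001662) [(nat_lit 0), (nat_lit 1934671), (nat_lit 0), (nat_lit 0)]) (PF.cons
 (PF.leaf (nat_lit 5507314) (nat_lit 682248) (nat_lit 52579830) (nat_lit 4034225) [(nat_lit 682248), (nat_lit 1962501), (nat_lit 0), (nat_lit 0)]) (PF.cons (PF.leaf (nat_lit 5953614) (nat_lit 696957) (nat_lit 51715124) (nat_lit 4062309) [(nat_lit 696957), (nat_lit 1987492), (nat_lit 0), (nat_lit 0)]) (PF.cons (PF.leaf (nat_lit 6408171) (nat_lit 710192) (nat_lit 50843982) (nat_lit 4085921) [(nat_lit 710192), (nat_lit 2009666), (nat_lit 0), (nat_lit 0)]) (PF.cons (PF.leaf (nat_lit 6869026) (nat_lit 722038) (nat_lit 49970099) (nat_lit 4105142) [(nat_lit 722038),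 (nat_lit 2029083), (nat_lit 0), (nat_lit 0)]) PF.nil))))) (PF.cons (PF.cons (PF.leaf (nat_lit 6041421) (nat_lit 1995288) (nat_lit 51065818) (nat_lit 4071266) [(nat_lit 0), (nat_lit 1995288), (nat_lit 0), (nat_lit 0)]) (PF.cons (PF.leaf (nat_lit 6487227) (nat_lit 711776) (nat_lit 50211803) (nat_lit 4091638) [(nat_lit 711776), (nat_lit 2015599), (nat_lit 0), (nat_lit 0)]) (PF.cons (PF.leaf (nat_lit 6939874) (nat_lit 723142) (nat_lit 49354639) (nat_lit 4107925) [(nat_lit 723142), (nat_lit 2033327), (nat_lit 0), (nat_lit 0)]) (PF.cons PF.nil PF.nil)))) (PF.cons (PF.cons (PF.leaf (nat_lit 7009974) (nat_lit 2036689) (nat_lit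
 48742868) (nat_lit 4109120) [(nat_lit 0), (nat_lit 2036689), (nat_lit 0), (nat_lit 0)]) (PF.cons (PF.leaf (nat_lit 7459162) (nat_lit 733466) (nat_lit 47903197) (nat_lit 4118943) [(nat_lit 733466), (nat_lit 2050457), (nat_lit 0), (nat_lit 0)]) PF.nil)) (PF.cons PF.nil (PF.cons PF.nil (PF.cons PF.nil PF.nil))))))))))) (PF.cons (PF.cons (PF.cons (PF.leaf (nat_lit 2220092) (nat_lit 3545554) (nat_lit 59794449) (nat_lit 3545554) [(nat_lit 0), (nat_lit 0), (nat_lit 3768809), (nat_lit 0)]) (PF.cons (PF.leaf (nat_lit 2528382) (nat_lit 508228) (nat_lit 59151991) (nat_lit 3612287) [(nat_lit 508228), (nat_lit 0), (nat_lit 3836305), (nat_lit 0)]) (PF.cons (PF.leaf (nat_lit 2869146) (nat_lit 538330) (nat_lit 58450806) (nat_lit 3678280) [(nat_lit 538330), (nat_lit 0), (nat_lit 3903064), (nat_lit 0)]) (PF.cons (PF.leaf (nat_lit 3237002) (nat_lit 565826) (nat_lit 57702320) (nat_lit 3741755) [(nat_lit 565826), (nat_lit 0), (nat_lit 3967258), (nat_lit 0)]) (PF.cons (PF.leaf (nat_lit 3627975)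 (nat_lit 591031) (nat_lit 56915426) (nat_lit 3801566) [(nat_lit 591031), (nat_lit 0), (nat_lit 4027695), (nat_lit 0)]) (PF.cons (PF.leaf (nat_lit 4038695) (nat_lit 614149) (nat_lit 56097487) (nat_lit 3856972)
 [(nat_lit 614149), (nat_lit 0), (nat_lit 4083606), (nat_lit 0)]) (PF.cons (PF.leaf (nat_lit 4466233) (nat_lit 635326) (nat_lit 55254822) (nat_lit 3907519) [(nat_lit 635326), (nat_lit 0), (nat_lit 4134514), (nat_lit 0)]) (PF.cons (PF.leaf (nat_lit 4907883) (nat_lit 654676) (nat_lit 54392969) (nat_lit 3952954) [(nat_lit 654676), (nat_lit 0), (nat_lit 4180152), (nat_lit 0)]) (PF.cons (PF.leaf (nat_lit 5361265) (nat_lit 672299) (nat_lit 53516834) (nat_lit 3993175) [(nat_lit 672299), (nat_lit 0), (nat_lit 4220408), (nat_lit 0)]) (PF.cons (PF.leaf (nat_lit 5824151) (nat_lit 688283) (nat_lit 52630785) (nat_lit 4028186) [(nat_lit 688283), (nat_lit 0), (nat_lit 4255287), (nat_lit 0)]) (PF.cons PF.nil (PF.cons PF.nil PF.nil)))))))))))) (PF.cons (PF.cons (PF.leaf (nat_lit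 3015949) (nat_lit 1717218) (nat_lit 57712598) (nat_lit 3726617) [(nat_lit 0), (nat_lit 1717218), (nat_lit 3952378), (nat_lit 0)]) (PF.cons (PF.leaf (nat_lit 3373004) (nat_lit 573115) (nat_lit 56980650) (nat_lit 3783337) [(nat_lit 573115), (nat_lit 1762081), (nat_lit 4009628), (nat_lit 0)]) (PF.cons (PF.leaf (nat_lit 3754708) (nat_lit 597665) (nat_lit 56208068) (nat_lit 3837078) [(nat_lit 597665), (nat_lit 1804522), (nat_lit
 4063813), (nat_lit 0)]) (PF.cons (PF.leaf (nat_lit 4156877) (nat_lit 620079) (nat_lit 55403427) (nat_lit 3886975) [(nat_lit 620079), (nat_lit 1844133), (nat_lit 4114039), (nat_lit 0)]) (PF.cons (PF.leaf (nat_lit 4576244) (nat_lit 640539) (nat_lit 54573710) (nat_lit 3932495) [(nat_lit 640539), (nat_lit 1880696), (nat_lit 4159752), (nat_lit 0)]) (PF.cons (PF.leaf (nat_lit 5009984) (nat_lit 659182) (nat_lit 53724819) (nat_lit 3973334) [(nat_lit 659182), (nat_lit 1914112), (nat_lit 4200636), (nat_lit 0)]) (PF.cons (PF.leaf (nat_lit 5455586) (nat_lit 676118)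 (nat_lit 52861850) (nat_lit 4009349) [(nat_lit 676118), (nat_lit 1944360), (nat_lit 4236540), (nat_lit 0)]) (PF.cons (PF.leaf (nat_lit 5910804) (nat_lit 691446) (nat_lit 51989256) (nat_lit 4040515) [(nat_lit 691446), (nat_lit 1971474), (nat_lit 4267438), (nat_lit 0)]) (PF.cons (PF.leaf (nat_lit 6373603) (nat_lit 705255) (nat_lit 51110949) (nat_lit 4066896) [(nat_lit 705255), (nat_lit 1995529), (nat_lit 4293393), (nat_lit 0)]) (PF.cons PF.nil PF.nil)))))))))) (PF.cons (PF.cons (PF.leaf (nat_lit 3883787) (nat_lit 1825846) (nat_lit 55491015) (nat_lit 3869454) [(nat_lit 0), (nat_lit 1825846), (nat_lit 4096650), (nat_lit 0)]) (PF.cons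
 (PF.leaf (nat_lit 4275773) (nat_lit 625084) (nat_lit 54703632) (nat_lit 3914032) [(nat_lit 625084), (nat_lit 1862335), (nat_lit 4141392), (nat_lit 0)]) (PF.cons (PF.leaf (nat_lit 4686022) (nat_lit 644950) (nat_lit 53889820) (nat_lit 3954738) [(nat_lit 644950), (nat_lit 1896108), (nat_lit 4182135), (nat_lit 0)]) (PF.cons (PF.leaf (nat_lit 5111169) (nat_lit 662983) (nat_lit 53056159) (nat_lit 3991199) [(nat_lit 662983), (nat_lit 1927003), (nat_lit 4218495), (nat_lit 0)]) (PF.cons (PF.leaf (nat_lit 5548533) (nat_lit 679314) (nat_lit 52208127) (nat_lit 4023225) [(nat_lit 679314), (nat_lit 1954963), (nat_lit 4250274), (nat_lit 0)]) (PF.cons (PF.leaf (nat_lit 5995765) (nat_lit 694054) (nat_lit 51350385) (nat_lit 4050755) [(nat_lit 694054), (nat_lit 1979993), (nat_lit 4277410), (nat_lit 0)]) (PF.cons (PF.leaf (nat_lit 6450776) (nat_lit 707300) (nat_lit 50486948) (nat_lit 4073823) [(nat_lit 707300), (nat_lit 2002148), (nat_lit 4299937), (nat_lit 0)]) (PF.cons PF.nil (PF.cons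 PF.nil PF.nil))))))))) (PF.cons (PF.cons (PF.leaf (nat_lit 4796816) (nat_lit 1910138) (nat_lit 53202158) (nat_lit 3974409) [(nat_lit 0), (nat_lit 1910138), (nat_lit 4201829), (nat_lit 0)]) (PF.cons (PF.leaf (nat_lit
 5212286) (nat_lit 666067) (nat_lit 52386359) (nat_lit 4006691) [(nat_lit 666067), (nat_lit 1938606), (nat_lit 4233875), (nat_lit 0)]) (PF.cons (PF.leaf (nat_lit 5640793) (nat_lit 681883) (nat_lit 51555249) (nat_lit 4034928) [(nat_lit 681883), (nat_lit 1964376), (nat_lit 4261740), (nat_lit 0)]) (PF.cons (PF.leaf (nat_lit 6079597) (nat_lit 696109) (nat_lit 50713882) (nat_lit 4059016) [(nat_lit 696109), (nat_lit 1987421), (nat_lit 4285319), (nat_lit 0)]) (PF.cons (PF.leaf (nat_lit 6526524) (nat_lit 708855) (nat_lit 49866496) (nat_lit 4078959) [(nat_lit 708855), (nat_lit 2007772), (nat_lit 4304615), (nat_lit 0)]) (PF.cons (PF.leaf (nat_lit 6979627) (nat_lit 720217) (nat_lit 49016697) (nat_lit 4094829) [(nat_lit 720217), (nat_lit 2025497), (nat_lit 4319705), (nat_lit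 0)]) (PF.cons PF.nil PF.nil))))))) (PF.cons (PF.cons (PF.leaf (nat_lit 5733306) (nat_lit 1972667) (nat_lit 50902512) (nat_lit 4044573) [(nat_lit 0), (nat_lit 1972667), (nat_lit 4271056), (nat_lit 0)]) (PF.cons (PF.leaf (nat_lit 6162943) (nat_lit 697604) (nat_lit 50079259) (nat_lit 4065404) [(nat_lit 697604), (nat_lit 1993817), (nat_lit 4291272), (nat_lit 0)]) (PF.cons (PF.leaf (nat_lit 6601381) (nat_lit 709919) (nat_lit
 49249235) (nat_lit 4082397) [(nat_lit 709919), (nat_lit 2012454), (nat_lit 4307522), (nat_lit 0)]) (PF.cons (PF.leaf (nat_lit 7046400) (nat_lit 720860) (nat_lit 48416279) (nat_lit 4095598) [(nat_lit 720860), (nat_lit 2028624), (nat_lit 4319855), (nat_lit 0)]) (PF.cons PF.nil PF.nil))))) (PF.cons (PF.cons (PF.leaf (nat_lit 6676119) (nat_lit 2016243) (nat_lit 48634624) (nat_lit 4084224) [(nat_lit 0), (nat_lit 2016243), (nat_lit 4308748), (nat_lit 0)]) (PF.cons (PF.leaf (nat_lit 7112524) (nat_lit 721066) (nat_lit 47819642) (nat_lit 4094914) [(nat_lit 721066),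 (nat_lit 2030939), (nat_lit 4318492), (nat_lit 0)]) (PF.cons (PF.leaf (nat_lit 7554358) (nat_lit 730378) (nat_lit 47004279) (nat_lit 4102160) [(nat_lit 730378), (nat_lit 2043387), (nat_lit 4324679), (nat_lit 0)]) (PF.cons PF.nil PF.nil)))) (PF.cons (PF.cons (PF.leaf (nat_lit 7612202) (nat_lit 2043670) (nat_lit 46429127) (nat_lit 4097971) [(nat_lit 0), (nat_lit 2043670), (nat_lit 4319688), (nat_lit 0)]) (PF.cons (PF.leaf (nat_lit 8049652) (nat_lit 737692) (nat_lit 45633743) (nat_lit 4099988) [(nat_lit 737692), (nat_lit 2052817), (nat_lit 4320484), (nat_lit 0)]) PF.nil)) (PF.cons PF.nil (PF.cons PF.nil PF.nil))))))))) (PF.cons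
 (PF.cons (PF.cons (PF.leaf (nat_lit 3678379) (nat_lit 3845230) (nat_lit 55118180) (nat_lit 3845230) [(nat_lit 0), (nat_lit 0), (nat_lit 4072700), (nat_lit 0)]) (PF.cons (PF.leaf (nat_lit 4041806) (nat_lit 603581) (nat_lit 54387359) (nat_lit 3887648) [(nat_lit 603581), (nat_lit 0), (nat_lit 4115112), (nat_lit 0)]) (PF.cons (PF.leaf (nat_lit 4427349) (nat_lit 625412) (nat_lit 53621892) (nat_lit 3927119) [(nat_lit 625412), (nat_lit 0), (nat_lit 4154487), (nat_lit 0)]) (PF.cons (PF.leaf (nat_lit 4830798) (nat_lit 645053) (nat_lit 52830260) (nat_lit 3963019) [(nat_lit 645053), (nat_lit 0), (nat_lit 4190186), (nat_lit 0)]) (PF.cons (PF.leaf (nat_lit 5248968) (nat_lit 662746) (nat_lit 52019167) (nat_lit 3994987) [(nat_lit 662746), (nat_lit 0), (nat_lit 4221836), (nat_lit 0)]) (PF.cons (PF.leaf (nat_lit 5679168) (nat_lit 678671) (nat_lit 51194126) (nat_lit 4022839) [(nat_lit 678671), (nat_lit 0), (nat_lit 4249244), (nat_lit 0)]) (PF.cons (PF.leaf (nat_lit 6119061) (nat_lit 692970)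 (nat_lit 50359776) (nat_lit 4046516) [(nat_lit 692970), (nat_lit 0), (nat_lit 4272348), (nat_lit 0)]) (PF.cons (PF.leaf (nat_lit 6566576) (nat_lit 705761) (nat_lit 49520077) (nat_lit 4066047) [(nat_lit 705761),
 (nat_lit 0), (nat_lit 4291177), (nat_lit 0)]) (PF.cons PF.nil (PF.cons PF.nil PF.nil)))))))))) (PF.cons (PF.cons (PF.leaf (nat_lit 4544650) (nat_lit 1884346) (nat_lit 52927024) (nat_lit 3947576) [(nat_lit 0), (nat_lit 1884346), (nat_lit 4174932), (nat_lit 0)]) (PF.cons (PF.leaf (nat_lit 4937289) (nat_lit 647830) (nat_lit 52155688) (nat_lit 3979243) [(nat_lit 647830), (nat_lit 1913498), (nat_lit 4206276), (nat_lit 0)]) (PF.cons (PF.leaf (nat_lit 5345896) (nat_lit 665121) (nat_lit 51363085) (nat_lit 4007394) [(nat_lit 665121), (nat_lit 1940106), (nat_lit 4233992), (nat_lit 0)]) (PF.cons (PF.leaf (nat_lit 5767224) (nat_lit 680610) (nat_lit 50555439) (nat_lit 4031787) [(nat_lit 680610), (nat_lit 1964087), (nat_lit 4257833), (nat_lit 0)]) (PF.cons (PF.leaf (nat_lit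 6198738) (nat_lit 694465) (nat_lit 49737800) (nat_lit 4052324) [(nat_lit 694465), (nat_lit 1985433), (nat_lit 4277697), (nat_lit 0)]) (PF.cons (PF.leaf (nat_lit 6638261) (nat_lit 706818) (nat_lit 48914366) (nat_lit 4069003) [(nat_lit 706818), (nat_lit 2004185), (nat_lit 4293583), (nat_lit 0)]) (PF.cons (PF.leaf (nat_lit 7083889) (nat_lit 717782) (nat_lit 48088681) (nat_lit 4081892) [(nat_lit 717782), (nat_lit 2020418),
 (nat_lit 4305562), (nat_lit 0)]) (PF.cons PF.nil (PF.cons PF.nil PF.nil))))))))) (PF.cons (PF.cons (PF.leaf (nat_lit 5444206) (nat_lit 1948937) (nat_lit 50705209) (nat_lit 4017740) [(nat_lit 0), (nat_lit 1948937), (nat_lit 4243993), (nat_lit 0)]) (PF.cons (PF.leaf (nat_lit 5855627) (nat_lit 681923) (nat_lit 49917198) (nat_lit 4038846) [(nat_lit 681923), (nat_lit 1970972), (nat_lit 4264449), (nat_lit 0)]) (PF.cons (PF.leaf (nat_lit 6278175) (nat_lit 695419) (nat_lit 49117918) (nat_lit 4056413) [(nat_lit 695419), (nat_lit 1990567), (nat_lit 4281253), (nat_lit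 0)]) (PF.cons (PF.leaf (nat_lit 6709299) (nat_lit 707403) (nat_lit 48311982) (nat_lit 4070404) [(nat_lit 707403), (nat_lit 2007739), (nat_lit 4294368), (nat_lit 0)]) (PF.cons (PF.leaf (nat_lit 7146957) (nat_lit 718001) (nat_lit 47503181) (nat_lit 4080863) [(nat_lit 718001), (nat_lit 2022540), (nat_lit 4303840), (nat_lit 0)]) (PF.cons PF.nil (PF.cons PF.nil PF.nil))))))) (PF.cons (PF.cons (PF.leaf (nat_lit 6358302) (nat_lit 1994799) (nat_lit 48499343) (nat_lit 4058866) [(nat_lit 0), (nat_lit 1994799), (nat_lit 4283101), (nat_lit 0)]) (PF.cons (PF.leaf (nat_lit 6780295) (nat_lit 707505) (nat_lit 47712356) (nat_lit 4070327)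
 [(nat_lit 707505), (nat_lit 2010467), (nat_lit 4293611), (nat_lit 0)]) (PF.cons (PF.leaf (nat_lit 7209602) (nat_lit 717800) (nat_lit 46921506) (nat_lit 4078502) [(nat_lit 717800), (nat_lit 2023912), (nat_lit 4300732), (nat_lit 0)]) (PF.cons (PF.leaf (nat_lit 7644182) (nat_lit 726818) (nat_lit 46130207) (nat_lit 4083464) [(nat_lit 726818), (nat_lit 2035201), (nat_lit 4304540), (nat_lit 0)]) (PF.cons PF.nil PF.nil))))) (PF.cons (PF.cons (PF.leaf (nat_lit 7272561) (nat_lit 2024570) (nat_lit 46343062) (nat_lit 4074870) [(nat_lit 0), (nat_lit 2024570), (nat_lit 4296299), (nat_lit 0)]) (PF.cons (PF.leaf (nat_lit 7698747) (nat_lit 725942) (nat_lit 45569896) (nat_lit 4077908) [(nat_lit 725942), (nat_lit 2034701), (nat_lit 4298129), (nat_lit 0)]) (PF.cons (PF.leaf (nat_lit 8129266) (nat_lit 733542) (nat_lit 44798252) (nat_lit 4078040) [(nat_lit 733542), (nat_lit 2042875), (nat_lit 4296965), (nat_lit 0)]) (PF.cons PF.nil PF.nil)))) (PF.cons (PF.cons (PF.leaf (nat_lit 8176256)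 (nat_lit 2040779) (nat_lit 44259586) (nat_lit 4069788) [(nat_lit 0), (nat_lit 2040779), (nat_lit 4287770), (nat_lit 0)]) (PF.cons PF.nil PF.nil)) (PF.cons PF.nil (PF.cons PF.nil PF.nil)))))))) (PF.cons (PF.cons
 (PF.cons (PF.leaf (nat_lit 5176976) (nat_lit 3990830) (nat_lit 50467218) (nat_lit 3990830) [(nat_lit 0), (nat_lit 0), (nat_lit 4216921), (nat_lit 0)]) (PF.cons (PF.leaf (nat_lit 5567447) (nat_lit 664180) (nat_lit 49720517) (nat_lit 4011984) [(nat_lit 664180), (nat_lit 0), (nat_lit 4237376), (nat_lit 0)]) (PF.cons (PF.leaf (nat_lit 5971979) (nat_lit 679232) (nat_lit 48956683) (nat_lit 4029969) [(nat_lit 679232), (nat_lit 0), (nat_lit 4254564), (nat_lit 0)]) (PF.cons (PF.leaf (nat_lit 6387451) (nat_lit 692535) (nat_lit 48181528) (nat_lit 4044643) [(nat_lit 692535), (nat_lit 0), (nat_lit 4268344), (nat_lit 0)]) (PF.cons (PF.leaf (nat_lit 6811452) (nat_lit 704278) (nat_lit 47399674) (nat_lit 4055975) [(nat_lit 704278), (nat_lit 0), (nat_lit 4278682), (nat_lit 0)])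 (PF.cons (PF.leaf (nat_lit 7241991) (nat_lit 714612) (nat_lit 46614887) (nat_lit 4064003) [(nat_lit 714612), (nat_lit 0), (nat_lit 4285619), (nat_lit 0)]) (PF.cons (PF.leaf (nat_lit 7677317) (nat_lit 723659) (nat_lit 45830287) (nat_lit 4068817) [(nat_lit 723659), (nat_lit 0), (nat_lit 4289249), (nat_lit 0)]) (PF.cons PF.nil (PF.cons PF.nil PF.nil))))))))) (PF.cons (PF.cons (PF.leaf (nat_lit 6058575) (nat_lit 1972159)
 (nat_lit 48332499) (nat_lit 4033054) [(nat_lit 0), (nat_lit 1972159), (nat_lit 4257033), (nat_lit 0)]) (PF.cons (PF.leaf (nat_lit 6464103) (nat_lit 692436) (nat_lit 47577782) (nat_lit 4045170) [(nat_lit 692436), (nat_lit 1988867), (nat_lit 4268185), (nat_lit 0)]) (PF.cons (PF.leaf (nat_lit 6879210) (nat_lit 703952) (nat_lit 46814867) (nat_lit 4054196) [(nat_lit 703952), (nat_lit 2003380), (nat_lit 4276154), (nat_lit 0)]) (PF.cons (PF.leaf (nat_lit 7301491) (nat_lit 714036) (nat_lit 46047948) (nat_lit 4060146) [(nat_lit 714036), (nat_lit 2015739), (nat_lit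 4280956), (nat_lit 0)]) (PF.cons (PF.leaf (nat_lit 7729062) (nat_lit 722827) (nat_lit 45280410) (nat_lit 4063089) [(nat_lit 722827), (nat_lit 2026017), (nat_lit 4282661), (nat_lit 0)]) (PF.cons PF.nil (PF.cons PF.nil PF.nil))))))) (PF.cons (PF.cons (PF.leaf (nat_lit 6948031) (nat_lit 2004422) (nat_lit 46232049) (nat_lit 4051115) [(nat_lit 0), (nat_lit 2004422), (nat_lit 4272267), (nat_lit 0)]) (PF.cons (PF.leaf (nat_lit 7361346) (nat_lit 713039) (nat_lit 45484229) (nat_lit 4055121) [(nat_lit 713039), (nat_lit 2015599), (nat_lit 4275074), (nat_lit 0)]) (PF.cons (PF.leaf (nat_lit 7780795) (nat_lit 721634) (nat_lit 44734636)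
 (nat_lit 4056316) [(nat_lit 721634), (nat_lit 2024813), (nat_lit 4274987), (nat_lit 0)]) (PF.cons (PF.leaf (nat_lit 8204469) (nat_lit 729042) (nat_lit 43986310) (nat_lit 4054789) [(nat_lit 729042), (nat_lit 2032141), (nat_lit 4272100), (nat_lit 0)]) (PF.cons PF.nil PF.nil))))) (PF.cons (PF.cons (PF.leaf (nat_lit 7833215) (nat_lit 2023038) (nat_lit 44192346) (nat_lit 4048541) [(nat_lit 0), (nat_lit 2023038), (nat_lit 4266269), (nat_lit 0)]) (PF.cons (PF.leaf (nat_lit 8248790) (nat_lit 727322) (nat_lit 43461851) (nat_lit 4045559) [(nat_lit 727322), (nat_lit 2029467), (nat_lit 4261892), (nat_lit 0)]) (PF.cons PF.nil (PF.cons PF.nil PF.nil)))) (PF.cons (PF.cons (PF.leaf (nat_lit 8705262) (nat_lit 2030267) (nat_lit 42230886) (nat_lit 4028840) [(nat_lit 0), (nat_lit 2030267), (nat_lit 4242671), (nat_lit 0)]) (PF.cons PF.nil PF.nil)) (PF.cons PF.nil PF.nil)))))) (PF.cons (PF.cons (PF.cons (PF.leaf (nat_lit 6640654) (nat_lit 4026675) (nat_lit 46091861) (nat_lit 4026675) [(nat_lit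 0), (nat_lit 0), (nat_lit 4247568), (nat_lit 0)]) (PF.cons (PF.leaf (nat_lit 7039053) (nat_lit 698644) (nat_lit 45373429) (nat_lit 4031589) [(nat_lit 698644), (nat_lit 0), (nat_lit 4251287), (nat_lit 0)])
 (PF.cons (PF.leaf (nat_lit 7445783) (nat_lit 708473) (nat_lit 44649108) (nat_lit 4033811) [(nat_lit 708473), (nat_lit 0), (nat_lit 4252236), (nat_lit 0)]) (PF.cons (PF.leaf (nat_lit 7858551) (nat_lit 716950) (nat_lit 43922707) (nat_lit 4033388) [(nat_lit 716950), (nat_lit 0), (nat_lit 4250466), (nat_lit 0)]) (PF.cons (PF.leaf (nat_lit 8275626) (nat_lit 724223) (nat_lit 43197250) (nat_lit 4030405) [(nat_lit 724223), (nat_lit 0), (nat_lit 4246066), (nat_lit 0)]) (PF.cons PF.nil (PF.cons PF.nil PF.nil))))))) (PF.cons (PF.cons (PF.leaf (nat_lit 7504379) (nat_lit 2004225) (nat_lit 44102156) (nat_lit 4026504) [(nat_lit 0), (nat_lit 2004225), (nat_lit 4243981), (nat_lit 0)]) (PF.cons (PF.leaf (nat_lit 7908430) (nat_lit 715092) (nat_lit 43394539) (nat_lit 4024609) [(nat_lit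 715092), (nat_lit 2011733), (nat_lit 4240709), (nat_lit 0)]) (PF.cons (PF.leaf (nat_lit 8317663) (nat_lit 722255) (nat_lit 42686624) (nat_lit 4020310) [(nat_lit 722255), (nat_lit 2017508), (nat_lit 4234964), (nat_lit 0)]) (PF.cons PF.nil (PF.cons PF.nil PF.nil))))) (PF.cons (PF.cons (PF.leaf (nat_lit 8360713) (nat_lit 2013855) (nat_lit 42179520) (nat_lit 4009423) [(nat_lit 0), (nat_lit 2013855), (nat_lit 4223039),
 (nat_lit 0)]) (PF.cons (PF.leaf (nat_lit 8765574) (nat_lit 725944) (nat_lit 41491248) (nat_lit 4001737) [(nat_lit 725944), (nat_lit 2017287), (nat_lit 4213826), (nat_lit 0)]) (PF.cons PF.nil (PF.cons PF.nil PF.nil)))) (PF.cons (PF.cons (PF.leaf (nat_lit 9202253) (nat_lit 2013921) (nat_lit 40337073) (nat_lit 3978465) [(nat_lit 0), (nat_lit 2013921), (nat_lit 4187877), (nat_lit 0)]) (PF.cons PF.nil PF.nil)) (PF.cons PF.nil PF.nil))))) (PF.cons (PF.cons (PF.cons (PF.leaf (nat_lit 8029515) (nat_lit 3989126) (nat_lit 42107079) (nat_lit 3989126) [(nat_lit 0), (nat_lit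 0), (nat_lit 4202521), (nat_lit 0)]) (PF.cons (PF.leaf (nat_lit 8424006) (nat_lit 714382) (nat_lit 41439430) (nat_lit 3982590) [(nat_lit 714382), (nat_lit 0), (nat_lit 4194481), (nat_lit 0)]) (PF.cons (PF.leaf (nat_lit 8822931) (nat_lit 720340) (nat_lit 40772499) (nat_lit 3973992) [(nat_lit 720340), (nat_lit 0), (nat_lit 4184327), (nat_lit 0)]) (PF.cons PF.nil PF.nil)))) (PF.cons (PF.cons (PF.leaf (nat_lit 8857684) (nat_lit 1998779) (nat_lit 40299028) (nat_lit 3960804) [(nat_lit 0), (nat_lit 1998779), (nat_lit 4170040), (nat_lit 0)]) (PF.cons (PF.leaf (nat_lit 9251927) (nat_lit 722402) (nat_lit 39651690) (nat_lit 3949468)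
 [(nat_lit 722402), (nat_lit 1999794), (nat_lit 4157091), (nat_lit 0)]) PF.nil)) (PF.cons PF.nil PF.nil))) (PF.cons (PF.cons (PF.cons (PF.leaf (nat_lit 9326683) (nat_lit 3905259) (nat_lit 38543818) (nat_lit 3905259) [(nat_lit 0), (nat_lit 0), (nat_lit 4109955), (nat_lit 0)]) (PF.cons PF.nil PF.nil)) (PF.cons PF.nil PF.nil)) (PF.cons PF.nil (PF.cons PF.nil PF.nil))))))))) (PF.cons (PF.cons (PF.cons (PF.cons (PF.leaf (nat_lit 3203538) (nat_lit 3706611) (nat_lit 54195958) (nat_lit 3706611) [(nat_lit 0), (nat_lit 0), (nat_lit 0), (nat_lit 9206243)]) (PF.cons (PF.leaf (nat_lit 3513991) (nat_lit 542440) (nat_lit 53588116) (nat_lit 3751270) [(nat_lit 542440), (nat_lit 0), (nat_lit 0), (nat_lit 9226985)]) (PF.cons (PF.leaf (nat_lit 3853614) (nat_lit 569561) (nat_lit 52931052) (nat_lit 3794409) [(nat_lit 569561), (nat_lit 0), (nat_lit 0), (nat_lit 9244228)]) (PF.cons (PF.leaf (nat_lit 4216763) (nat_lit 593643) (nat_lit 52236106) (nat_lit 3834876) [(nat_lit 593643), (nat_lit 0),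 (nat_lit 0), (nat_lit 9256899)]) (PF.cons (PF.leaf (nat_lit 4599391) (nat_lit 615177) (nat_lit 51511822) (nat_lit 3871977) [(nat_lit 615177), (nat_lit 0), (nat_lit 0), (nat_lit 9264304)]) (PF.cons (PF.leaf (nat_lit
 4998214) (nat_lit 634494) (nat_lit 50765013) (nat_lit 3905306) [(nat_lit 634494), (nat_lit 0), (nat_lit 0), (nat_lit 9266021)]) (PF.cons (PF.leaf (nat_lit 5410443) (nat_lit 651836) (nat_lit 50001307) (nat_lit 3934650) [(nat_lit 651836), (nat_lit 0), (nat_lit 0), (nat_lit 9261834)]) (PF.cons (PF.leaf (nat_lit 5833672) (nat_lit 667391) (nat_lit 49225457) (nat_lit 3959928) [(nat_lit 667391), (nat_lit 0), (nat_lit 0), (nat_lit 9251683)]) (PF.cons (PF.leaf (nat_lit 6265773) (nat_lit 681312) (nat_lit 48441531) (nat_lit 3981151) [(nat_lit 681312), (nat_lit 0), (nat_lit 0), (nat_lit 9235628)]) (PF.cons (PF.leaf (nat_lit 6704872) (nat_lit 693728) (nat_lit 47653035) (nat_lit 3998398) [(nat_lit 693728), (nat_lit 0), (nat_lit 0), (nat_lit 9213820)]) (PF.cons (PF.leaf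 (nat_lit 7149277) (nat_lit 704753) (nat_lit 46863006) (nat_lit 4011793) [(nat_lit 704753), (nat_lit 0), (nat_lit 0), (nat_lit 9186478)]) (PF.cons PF.nil (PF.cons PF.nil (PF.cons PF.nil PF.nil)))))))))))))) (PF.cons (PF.cons (PF.leaf (nat_lit 3981612) (nat_lit 1786152) (nat_lit 52254333) (nat_lit 3820620) [(nat_lit 0), (nat_lit 1786152), (nat_lit 0), (nat_lit 9247706)]) (PF.cons (PF.leaf (nat_lit 4332767) (nat_lit 597219) (nat_lit
 51579858) (nat_lit 3856277) [(nat_lit 597219), (nat_lit 1820345), (nat_lit 0), (nat_lit 9255111)]) (PF.cons (PF.leaf (nat_lit 4705236) (nat_lit 618363) (nat_lit 50873391) (nat_lit 3889109) [(nat_lit 618363), (nat_lit 1851987), (nat_lit 0), (nat_lit 9257597)]) (PF.cons (PF.leaf (nat_lit 5094888) (nat_lit 637232) (nat_lit 50142882) (nat_lit 3918607) [(nat_lit 637232), (nat_lit 1880889), (nat_lit 0), (nat_lit 9254734)]) (PF.cons (PF.leaf (nat_lit 5498622) (nat_lit 654106) (nat_lit 49394592) (nat_lit 3944493) [(nat_lit 654106), (nat_lit 1906998),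 (nat_lit 0), (nat_lit 9246303)]) (PF.cons (PF.leaf (nat_lit 5913835) (nat_lit 669192) (nat_lit 48633634) (nat_lit 3966640) [(nat_lit 669192), (nat_lit 1930331), (nat_lit 0), (nat_lit 9232242)]) (PF.cons (PF.leaf (nat_lit 6338282) (nat_lit 682656) (nat_lit 47864282) (nat_lit 3985027) [(nat_lit 682656), (nat_lit 1950955), (nat_lit 0), (nat_lit 9212605)]) (PF.cons (PF.leaf (nat_lit 6770002) (nat_lit 694635) (nat_lit 47090160) (nat_lit 3999702) [(nat_lit 694635), (nat_lit 1968963), (nat_lit 0), (nat_lit 9187538)]) (PF.cons (PF.leaf (nat_lit 7207279) (nat_lit 705245) (nat_lit 46314361) (nat_lit 4010769) [(nat_lit 705245), (nat_lit 1984466),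
 (nat_lit 0), (nat_lit 9157248)]) (PF.cons (PF.leaf (nat_lit 7648594) (nat_lit 714591) (nat_lit 45539539) (nat_lit 4018365) [(nat_lit 714591), (nat_lit 1997588), (nat_lit 0), (nat_lit 9121992)]) (PF.cons PF.nil (PF.cons PF.nil PF.nil)))))))))))) (PF.cons (PF.cons (PF.leaf (nat_lit 4813854) (nat_lit 1864083) (nat_lit 50229517) (nat_lit 3904053) [(nat_lit 0), (nat_lit 1864083), (nat_lit 0), (nat_lit 9247073)]) (PF.cons (PF.leaf (nat_lit 5192884) (nat_lit 639207) (nat_lit 49518381) (nat_lit 3929886) [(nat_lit 639207), (nat_lit 1890667), (nat_lit 0), (nat_lit 9240002)]) (PF.cons (PF.leaf (nat_lit 5587281) (nat_lit 655731) (nat_lit 48787715) (nat_lit 3952485) [(nat_lit 655731), (nat_lit 1914735), (nat_lit 0), (nat_lit 9227677)]) (PF.cons (PF.leaf (nat_lit 5993888) (nat_lit 670441) (nat_lit 48043284) (nat_lit 3971670) [(nat_lit 670441), (nat_lit 1936251), (nat_lit 0), (nat_lit 9210031)]) (PF.cons (PF.leaf (nat_lit 6410272) (nat_lit 683521) (nat_lit 47289738) (nat_lit 3987379)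 [(nat_lit 683521), (nat_lit 1955245), (nat_lit 0), (nat_lit 9187116)]) (PF.cons (PF.leaf (nat_lit 6834338) (nat_lit 695122) (nat_lit 46530923) (nat_lit 3999635) [(nat_lit 695122), (nat_lit 1971786), (nat_lit 0),
 (nat_lit 9159069)]) (PF.cons (PF.leaf (nat_lit 7264300) (nat_lit 705368) (nat_lit 45770064) (nat_lit 4008514) [(nat_lit 705368), (nat_lit 1985965), (nat_lit 0), (nat_lit 9126090)]) (PF.cons (PF.leaf (nat_lit 7698579) (nat_lit 714369) (nat_lit 45009890) (nat_lit 4014136) [(nat_lit 714369), (nat_lit 1997889), (nat_lit 0), (nat_lit 9088422)]) (PF.cons PF.nil (PF.cons PF.nil PF.nil)))))))))) (PF.cons (PF.cons (PF.leaf (nat_lit 5677573) (nat_lit 1921493) (nat_lit 48179589) (nat_lit 3958722) [(nat_lit 0), (nat_lit 1921493), (nat_lit 0), (nat_lit 9206019)]) (PF.cons (PF.leaf (nat_lit 6074574) (nat_lit 671114) (nat_lit 47453661) (nat_lit 3975100) [(nat_lit 671114), (nat_lit 1941269), (nat_lit 0), (nat_lit 9185127)]) (PF.cons (PF.leaf (nat_lit 6482338) (nat_lit 683894)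 (nat_lit 46717360) (nat_lit 3988284) [(nat_lit 683894), (nat_lit 1958712), (nat_lit 0), (nat_lit 9159241)]) (PF.cons (PF.leaf (nat_lit 6898367) (nat_lit 695184) (nat_lit 45974919) (nat_lit 3998262) [(nat_lit 695184), (nat_lit 1973860), (nat_lit 0), (nat_lit 9128494)]) (PF.cons (PF.leaf (nat_lit 7320749) (nat_lit 705121) (nat_lit 45229796) (nat_lit 4005089) [(nat_lit 705121), (nat_lit 1986786), (nat_lit 0), (nat_lit
 9093081)]) (PF.cons (PF.leaf (nat_lit 7747814) (nat_lit 713821) (nat_lit 44484862) (nat_lit 4008861) [(nat_lit 713821), (nat_lit 1997582), (nat_lit 0), (nat_lit 9053236)]) (PF.cons (PF.leaf (nat_lit 8178122) (nat_lit 721384) (nat_lit 43742521) (nat_lit 4009706) [(nat_lit 721384), (nat_lit 2006350), (nat_lit 0), (nat_lit 9009224)]) (PF.cons PF.nil (PF.cons PF.nil PF.nil))))))))) (PF.cons (PF.cons (PF.leaf (nat_lit 6555376) (nat_lit 1961399) (nat_lit 46146377) (nat_lit 3987807) [(nat_lit 0), (nat_lit 1961399), (nat_lit 0), (nat_lit 9129032)]) (PF.cons (PF.leaf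 (nat_lit 6962658) (nat_lit 694807) (nat_lit 45421584) (nat_lit 3995645) [(nat_lit 694807), (nat_lit 1975225), (nat_lit 0), (nat_lit 9095874)]) (PF.cons (PF.leaf (nat_lit 7377084) (nat_lit 704495) (nat_lit 44693126) (nat_lit 4000548) [(nat_lit 704495), (nat_lit 1986965), (nat_lit 0), (nat_lit 9058285)]) (PF.cons (PF.leaf (nat_lit 7796689) (nat_lit 712944) (nat_lit 43964112) (nat_lit 4002590) [(nat_lit 712944), (nat_lit 1996695), (nat_lit 0), (nat_lit 9016495)]) (PF.cons (PF.leaf (nat_lit 8219935) (nat_lit 720263) (nat_lit 43237097) (nat_lit 4001881) [(nat_lit 720263), (nat_lit 2004504), (nat_lit 0), (nat_lit 8970759)]) (PF.cons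
 PF.nil (PF.cons PF.nil PF.nil))))))) (PF.cons (PF.cons (PF.leaf (nat_lit 7434028) (nat_lit 1986531) (nat_lit 44159472) (nat_lit 3994938) [(nat_lit 0), (nat_lit 1986531), (nat_lit 0), (nat_lit 9021745)]) (PF.cons (PF.leaf (nat_lit 7845644) (nat_lit 711731) (nat_lit 43447192) (nat_lit 3995366) [(nat_lit 711731), (nat_lit 1995255), (nat_lit 0), (nat_lit 8978246)]) (PF.cons (PF.leaf (nat_lit 8261593) (nat_lit 718851) (nat_lit 42736088) (nat_lit 3993211) [(nat_lit 718851), (nat_lit 2002162), (nat_lit 0), (nat_lit 8930999)]) (PF.cons (PF.leaf (nat_lit 8680294) (nat_lit 724938) (nat_lit 42028434) (nat_lit 3988589) [(nat_lit 724938), (nat_lit 2007340), (nat_lit 0), (nat_lit 8880268)]) (PF.cons PF.nil PF.nil))))) (PF.cons (PF.cons (PF.leaf (nat_lit 8303662) (nat_lit 1999345) (nat_lit 42239036) (nat_lit 3983729) [(nat_lit 0), (nat_lit 1999345), (nat_lit 0), (nat_lit 8889974)]) (PF.cons (PF.leaf (nat_lit 8715093) (nat_lit 723070) (nat_lit 41547133) (nat_lit 3977910) [(nat_lit 723070),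 (nat_lit 2003764), (nat_lit 0), (nat_lit 8838111)]) (PF.cons PF.nil (PF.cons PF.nil PF.nil)))) (PF.cons (PF.cons (PF.leaf (nat_lit 9157142) (nat_lit 2002012) (nat_lit 40398002) (nat_lit 3957537) [(nat_lit 0),
 (nat_lit 2002012), (nat_lit 0), (nat_lit 8739185)]) (PF.cons PF.nil PF.nil)) (PF.cons PF.nil PF.nil))))))))) (PF.cons (PF.cons (PF.cons (PF.leaf (nat_lit 4588137) (nat_lit 3875872) (nat_lit 49920846) (nat_lit 3875872) [(nat_lit 0), (nat_lit 0), (nat_lit 4100106), (nat_lit 9211986)]) (PF.cons (PF.leaf (nat_lit 4941410) (nat_lit 617262) (nat_lit 49260461) (nat_lit 3901305) [(nat_lit 617262), (nat_lit 0), (nat_lit 4124802), (nat_lit 9204980)]) (PF.cons (PF.leaf (nat_lit 5313966) (nat_lit 636090) (nat_lit 48572628) (nat_lit 3924046) [(nat_lit 636090), (nat_lit 0), (nat_lit 4146744), (nat_lit 9193212)]) (PF.cons (PF.leaf (nat_lit 5701746) (nat_lit 652668) (nat_lit 47864974) (nat_lit 3943747) [(nat_lit 652668), (nat_lit 0), (nat_lit 4165575), (nat_lit 9176509)]) (PF.cons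 (PF.leaf (nat_lit 6101753) (nat_lit 667312) (nat_lit 47143374) (nat_lit 3960234) [(nat_lit 667312), (nat_lit 0), (nat_lit 4181119), (nat_lit 9154834)]) (PF.cons (PF.leaf (nat_lit 6511509) (nat_lit 680251) (nat_lit 46412533) (nat_lit 3973451) [(nat_lit 680251), (nat_lit 0), (nat_lit 4193315), (nat_lit 9128253)]) (PF.cons (PF.leaf (nat_lit 6928950) (nat_lit 691666) (nat_lit 45676305) (nat_lit 3983419) [(nat_lit 691666),
 (nat_lit 0), (nat_lit 4202182), (nat_lit 9096906)]) (PF.cons (PF.leaf (nat_lit 7352262) (nat_lit 701701) (nat_lit 44937902) (nat_lit 3990213) [(nat_lit 701701), (nat_lit 0), (nat_lit 4207798), (nat_lit 9060989)]) (PF.cons (PF.leaf (nat_lit 7779894) (nat_lit 710479) (nat_lit 44200022) (nat_lit 3993945) [(nat_lit 710479), (nat_lit 0), (nat_lit 4210275), (nat_lit 9020736)]) (PF.cons PF.nil (PF.cons PF.nil (PF.cons PF.nil PF.nil)))))))))))) (PF.cons (PF.cons (PF.leaf (nat_lit 5412061) (nat_lit 1895560) (nat_lit 47957586) (nat_lit 3931095) [(nat_lit 0), (nat_lit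 1895560), (nat_lit 4153219), (nat_lit 9171351)]) (PF.cons (PF.leaf (nat_lit 5788989) (nat_lit 653057) (nat_lit 47270533) (nat_lit 3947916) [(nat_lit 653057), (nat_lit 1916594), (nat_lit 4169115), (nat_lit 9151595)]) (PF.cons (PF.leaf (nat_lit 6179547) (nat_lit 667506) (nat_lit 46567533) (nat_lit 3961828) [(nat_lit 667506), (nat_lit 1935315), (nat_lit 4182026), (nat_lit 9127096)]) (PF.cons (PF.leaf (nat_lit 6580697) (nat_lit 680205) (nat_lit 45853954) (nat_lit 3972729) [(nat_lit 680205), (nat_lit 1951733), (nat_lit 4191852), (nat_lit 9097926)]) (PF.cons (PF.leaf (nat_lit 6990147) (nat_lit 691360) (nat_lit 45134049) (nat_lit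
 3980611) [(nat_lit 691360), (nat_lit 1965901), (nat_lit 4198583), (nat_lit 9064225)]) (PF.cons (PF.leaf (nat_lit 7405959) (nat_lit 701130) (nat_lit 44411271) (nat_lit 3985526) [(nat_lit 701130), (nat_lit 1977903), (nat_lit 4202273), (nat_lit 9026187)]) (PF.cons (PF.leaf (nat_lit 7826483) (nat_lit 709646) (nat_lit 43688471) (nat_lit 3987567) [(nat_lit 709646), (nat_lit 1987836), (nat_lit 4203017), (nat_lit 8984039)]) (PF.cons (PF.leaf (nat_lit 8250298) (nat_lit 717021) (nat_lit 42968021) (nat_lit 3986855) [(nat_lit 717021), (nat_lit 1995809), (nat_lit 4200939), (nat_lit 8938035)]) (PF.cons PF.nil (PF.cons PF.nil PF.nil)))))))))) (PF.cons (PF.cons (PF.leaf (nat_lit 6259310) (nat_lit 1938515) (nat_lit 45991409) (nat_lit 3962008) [(nat_lit 0), (nat_lit 1938515), (nat_lit 4181459), (nat_lit 9096903)]) (PF.cons (PF.leaf (nat_lit 6650872) (nat_lit 679650) (nat_lit 45296812) (nat_lit 3970729) [(nat_lit 679650), (nat_lit 1953553), (nat_lit 4189059), (nat_lit 9065452)]) (PF.cons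 (PF.leaf (nat_lit 7051794) (nat_lit 690624) (nat_lit 44594456) (nat_lit 3976655) [(nat_lit 690624), (nat_lit 1966495), (nat_lit 4193789), (nat_lit 9029671)]) (PF.cons (PF.leaf (nat_lit 7459728) (nat_lit 700191)
 (nat_lit 43888193) (nat_lit 3979811) [(nat_lit 700191), (nat_lit 1977399), (nat_lit 4195680), (nat_lit 8989755)]) (PF.cons (PF.leaf (nat_lit 7872886) (nat_lit 708496) (nat_lit 43181119) (nat_lit 3980273) [(nat_lit 708496), (nat_lit 1986347), (nat_lit 4194808), (nat_lit 8945930)]) (PF.cons (PF.leaf (nat_lit 8289750) (nat_lit 715661) (nat_lit 42475765) (nat_lit 3978144) [(nat_lit 715661), (nat_lit 1993434), (nat_lit 4191280), (nat_lit 8898444)]) (PF.cons PF.nil (PF.cons PF.nil (PF.cons PF.nil PF.nil))))))))) (PF.cons (PF.cons (PF.leaf (nat_lit 7114746) (nat_lit 1966458) (nat_lit 44056733) (nat_lit 3971593) [(nat_lit 0), (nat_lit 1966458), (nat_lit 4187845), (nat_lit 8993264)]) (PF.cons (PF.leaf (nat_lit 7514105) (nat_lit 698867) (nat_lit 43368078) (nat_lit 3973109)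 [(nat_lit 698867), (nat_lit 1976323), (nat_lit 4188061), (nat_lit 8951724)]) (PF.cons (PF.leaf (nat_lit 7919534) (nat_lit 707018) (nat_lit 42677511) (nat_lit 3972100) [(nat_lit 707018), (nat_lit 1984343), (nat_lit 4185686), (nat_lit 8906445)]) (PF.cons (PF.leaf (nat_lit 8329198) (nat_lit 714019) (nat_lit 41987812) (nat_lit 3968654) [(nat_lit 714019), (nat_lit 1990598), (nat_lit 4180814), (nat_lit 8857676)]) (PF.cons
 (PF.leaf (nat_lit 8741698) (nat_lit 719980) (nat_lit 41301232) (nat_lit 3962883) [(nat_lit 719980), (nat_lit 1995180), (nat_lit 4173560), (nat_lit 8805672)]) (PF.cons PF.nil (PF.cons PF.nil PF.nil))))))) (PF.cons (PF.cons (PF.leaf (nat_lit 7967107) (nat_lit 1981846) (nat_lit 42177056) (nat_lit 3963080) [(nat_lit 0), (nat_lit 1981846), (nat_lit 4175685), (nat_lit 8865604)]) (PF.cons (PF.leaf (nat_lit 8369056) (nat_lit 712084) (nat_lit 41503702) (nat_lit 3958416) [(nat_lit 712084), (nat_lit 1987320), (nat_lit 4169571), (nat_lit 8815755)]) (PF.cons (PF.leaf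 (nat_lit 8774555) (nat_lit 717921) (nat_lit 40832570) (nat_lit 3951559) [(nat_lit 717921), (nat_lit 1991204), (nat_lit 4161210), (nat_lit 8762812)]) (PF.cons PF.nil (PF.cons PF.nil PF.nil))))) (PF.cons (PF.cons (PF.leaf (nat_lit 8808133) (nat_lit 1986848) (nat_lit 40367777) (nat_lit 3939598) [(nat_lit 0), (nat_lit 1986848), (nat_lit 4148200), (nat_lit 8718992)]) (PF.cons (PF.leaf (nat_lit 9208764) (nat_lit 720399) (nat_lit 39716009) (nat_lit 3929776) [(nat_lit 720399), (nat_lit 1988647), (nat_lit 4136811), (nat_lit 8662575)]) (PF.cons PF.nil (PF.cons PF.nil PF.nil)))) (PF.cons (PF.cons (PF.leaf (nat_lit 9631926) (nat_lit 1983356)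
 (nat_lit 38638268) (nat_lit 3904006) [(nat_lit 0), (nat_lit 1983356), (nat_lit 4108341), (nat_lit 8558058)]) (PF.cons PF.nil PF.nil)) (PF.cons PF.nil PF.nil)))))))) (PF.cons (PF.cons (PF.cons (PF.leaf (nat_lit 5983815) (nat_lit 3935508) (nat_lit 45800706) (nat_lit 3935508) [(nat_lit 0), (nat_lit 0), (nat_lit 4154768), (nat_lit 9063061)]) (PF.cons (PF.leaf (nat_lit 6356916) (nat_lit 662362) (nat_lit 45141764) (nat_lit 3945016) [(nat_lit 662362), (nat_lit 0), (nat_lit 4163139), (nat_lit 9033390)]) (PF.cons (PF.leaf (nat_lit 6742196) (nat_lit 675013) (nat_lit 44469732) (nat_lit 3951911) [(nat_lit 675013), (nat_lit 0), (nat_lit 4168833), (nat_lit 8999474)]) (PF.cons (PF.leaf (nat_lit 7136727) (nat_lit 685988) (nat_lit 43789586) (nat_lit 3956156) [(nat_lit 685988), (nat_lit 0), (nat_lit 4171812), (nat_lit 8961480)]) (PF.cons (PF.leaf (nat_lit 7538344) (nat_lit 695501) (nat_lit 43105201) (nat_lit 3957779) [(nat_lit 695501), (nat_lit 0), (nat_lit 4172107), (nat_lit 8919610)])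 (PF.cons (PF.leaf (nat_lit 7945256) (nat_lit 703721) (nat_lit 42419680) (nat_lit 3956853) [(nat_lit 703721), (nat_lit 0), (nat_lit 4169793), (nat_lit 8874088)]) (PF.cons (PF.leaf (nat_lit 8355946) (nat_lit 710780)
 (nat_lit 41735545) (nat_lit 3953478) [(nat_lit 710780), (nat_lit 0), (nat_lit 4164973), (nat_lit 8825156)]) (PF.cons PF.nil (PF.cons PF.nil PF.nil))))))))) (PF.cons (PF.cons (PF.leaf (nat_lit 6812232) (nat_lit 1945006) (nat_lit 43926508) (nat_lit 3947405) [(nat_lit 0), (nat_lit 1945006), (nat_lit 4163430), (nat_lit 8963032)]) (PF.cons (PF.leaf (nat_lit 7197306) (nat_lit 684461) (nat_lit 43265290) (nat_lit 3949978) [(nat_lit 684461), (nat_lit 1956126), (nat_lit 4164709), (nat_lit 8923538)]) (PF.cons (PF.leaf (nat_lit 7590572) (nat_lit 693891) (nat_lit 42598301) (nat_lit 3950104) [(nat_lit 693891), (nat_lit 1965361), (nat_lit 4163480), (nat_lit 8880301)]) (PF.cons (PF.leaf (nat_lit 7989829) (nat_lit 701996) (nat_lit 41929043) (nat_lit 3947837) [(nat_lit 701996),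 (nat_lit 1972785), (nat_lit 4159800), (nat_lit 8833556)]) (PF.cons (PF.leaf (nat_lit 8393411) (nat_lit 708925) (nat_lit 41260292) (nat_lit 3943264) [(nat_lit 708925), (nat_lit 1978486), (nat_lit 4153760), (nat_lit 8783547)]) (PF.cons (PF.leaf (nat_lit 8799918) (nat_lit 714801) (nat_lit 40594290) (nat_lit 3936492) [(nat_lit 714801), (nat_lit 1982559), (nat_lit 4145470), (nat_lit 8730523)]) (PF.cons PF.nil PF.nil)))))))
 (PF.cons (PF.cons (PF.leaf (nat_lit 7644395) (nat_lit 1963195) (nat_lit 42093496) (nat_lit 3941543) [(nat_lit 0), (nat_lit 1963195), (nat_lit 4153931), (nat_lit 8839520)]) (PF.cons (PF.leaf (nat_lit 8035309) (nat_lit 699930) (nat_lit 41441455) (nat_lit 3938037) [(nat_lit 699930), (nat_lit 1969812), (nat_lit 4148993), (nat_lit 8791777)]) (PF.cons (PF.leaf (nat_lit 8431423) (nat_lit 706782) (nat_lit 40788757) (nat_lit 3932358) [(nat_lit 706782), (nat_lit 1974794), (nat_lit 4141829), (nat_lit 8740884)]) (PF.cons (PF.leaf (nat_lit 8831017) (nat_lit 712564)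 (nat_lit 40137894) (nat_lit 3924601) [(nat_lit 712564), (nat_lit 1978224), (nat_lit 4132538), (nat_lit 8687097)]) (PF.cons (PF.leaf (nat_lit 9232820) (nat_lit 717388) (nat_lit 39490858) (nat_lit 3914876) [(nat_lit 717388), (nat_lit 1980193), (nat_lit 4121235), (nat_lit 8630664)]) PF.nil))))) (PF.cons (PF.cons (PF.leaf (nat_lit 8470639) (nat_lit 1970703) (nat_lit 40320354) (nat_lit 3920779) [(nat_lit 0), (nat_lit 1970703), (nat_lit 4129199), (nat_lit 8697167)]) (PF.cons (PF.leaf (nat_lit 8862816) (nat_lit 710070) (nat_lit 39685227) (nat_lit 3912121) [(nat_lit 710070), (nat_lit 1973535), (nat_lit 4118996), (nat_lit 8642792)]) (PF.cons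
 (PF.leaf (nat_lit 9257921) (nat_lit 714831) (nat_lit 39052996) (nat_lit 3901597) [(nat_lit 714831), (nat_lit 1974971), (nat_lit 4106885), (nat_lit 8585868)]) (PF.cons PF.nil PF.nil)))) (PF.cons (PF.cons (PF.leaf (nat_lit 9284002) (nat_lit 1969446) (nat_lit 38618823) (nat_lit 3887820) [(nat_lit 0), (nat_lit 1969446), (nat_lit 4092018), (nat_lit 8540346)]) (PF.cons (PF.leaf (nat_lit 9674043) (nat_lit 715896) (nat_lit 38005664) (nat_lit 3874905) [(nat_lit 715896), (nat_lit 1969134), (nat_lit 4077473), (nat_lit 8480862)]) PF.nil)) (PF.cons PF.nil PF.nil)))))) (PF.cons (PF.cons (PF.cons (PF.leaf (nat_lit 7337523) (nat_lit 3919044) (nat_lit 41984632) (nat_lit 3919044) [(nat_lit 0), (nat_lit 0), (nat_lit 4131219), (nat_lit 8811476)]) (PF.cons (PF.leaf (nat_lit 7715406) (nat_lit 686273) (nat_lit 41357476) (nat_lit 3916702) [(nat_lit 686273), (nat_lit 0), (nat_lit 4127459), (nat_lit 8765980)]) (PF.cons (PF.leaf (nat_lit 8100545) (nat_lit 694385) (nat_lit 40726052) (nat_lit 3912217)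 [(nat_lit 694385), (nat_lit 0), (nat_lit 4121506), (nat_lit 8717252)]) (PF.cons (PF.leaf (nat_lit 8490833) (nat_lit 701248) (nat_lit 40093544) (nat_lit 3905662) [(nat_lit 701248), (nat_lit 0), (nat_lit 4113436),
 (nat_lit 8665552)]) (PF.cons (PF.leaf (nat_lit 8884718) (nat_lit 707015) (nat_lit 39462451) (nat_lit 3897130) [(nat_lit 707015), (nat_lit 0), (nat_lit 4103347), (nat_lit 8611129)]) (PF.cons (PF.leaf (nat_lit 9280904) (nat_lit 711808) (nat_lit 38834761) (nat_lit 3886729) [(nat_lit 711808), (nat_lit 0), (nat_lit 4091349), (nat_lit 8554230)]) (PF.cons PF.nil PF.nil))))))) (PF.cons (PF.cons (PF.leaf (nat_lit 8146144) (nat_lit 1953422) (nat_lit 40253122) (nat_lit 3901013) [(nat_lit 0), (nat_lit 1953422), (nat_lit 4109245), (nat_lit 8673519)]) (PF.cons (PF.leaf (nat_lit 8528356) (nat_lit 698605) (nat_lit 39637215) (nat_lit 3893543) [(nat_lit 698605), (nat_lit 1957380), (nat_lit 4100251), (nat_lit 8621312)]) (PF.cons (PF.leaf (nat_lit 8915056) (nat_lit 704358) (nat_lit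 39021532) (nat_lit 3884198) [(nat_lit 704358), (nat_lit 1959885), (nat_lit 4089342), (nat_lit 8566453)]) (PF.cons (PF.leaf (nat_lit 9304647) (nat_lit 709114) (nat_lit 38408315) (nat_lit 3873077) [(nat_lit 709114), (nat_lit 1961023), (nat_lit 4076618), (nat_lit 8509195)]) (PF.cons PF.nil PF.nil))))) (PF.cons (PF.cons (PF.leaf (nat_lit 8946843) (nat_lit 1954575) (nat_lit 38583625) (nat_lit 3870731) [(nat_lit 0), (nat_lit
 1954575), (nat_lit 4074782), (nat_lit 8520958)]) (PF.cons (PF.leaf (nat_lit 9329311) (nat_lit 706191) (nat_lit 37985405) (nat_lit 3858963) [(nat_lit 706191), (nat_lit 1955263), (nat_lit 4061409), (nat_lit 8463496)]) (PF.cons (PF.leaf (nat_lit 9714205) (nat_lit 710050) (nat_lit 37390484) (nat_lit 3845605) [(nat_lit 710050), (nat_lit 1954723), (nat_lit 4046413), (nat_lit 8403933)]) (PF.cons PF.nil PF.nil)))) (PF.cons (PF.cons (PF.leaf (nat_lit 9733680) (nat_lit 1948320) (nat_lit 36985090) (nat_lit 3830531) [(nat_lit 0), (nat_lit 1948320), (nat_lit 4030228),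 (nat_lit 8357543)]) (PF.cons PF.nil PF.nil)) (PF.cons PF.nil PF.nil))))) (PF.cons (PF.cons (PF.cons (PF.leaf (nat_lit 8621906) (nat_lit 3852660) (nat_lit 38530249) (nat_lit 3852660) [(nat_lit 0), (nat_lit 0), (nat_lit 4056553), (nat_lit 8499688)]) (PF.cons (PF.leaf (nat_lit 8995322) (nat_lit 695386) (nat_lit 37949368) (nat_lit 3842082) [(nat_lit 695386), (nat_lit 0), (nat_lit 4044394), (nat_lit 8444398)]) (PF.cons (PF.leaf (nat_lit 9372677) (nat_lit 700208) (nat_lit 37369317) (nat_lit 3829883) [(nat_lit 700208), (nat_lit 0), (nat_lit 4030580), (nat_lit 8386872)]) (PF.cons (PF.leaf (nat_lit 9752419) (nat_lit 704101) (nat_lit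
 36792115) (nat_lit 3816163) [(nat_lit 704101), (nat_lit 0), (nat_lit 4015217), (nat_lit 8327358)]) (PF.cons PF.nil PF.nil))))) (PF.cons (PF.cons (PF.leaf (nat_lit 9397859) (nat_lit 1934639) (nat_lit 36960131) (nat_lit 3815054) [(nat_lit 0), (nat_lit 1934639), (nat_lit 4014637), (nat_lit 8340438)]) (PF.cons (PF.leaf (nat_lit 9770789) (nat_lit 700854) (nat_lit 36397121) (nat_lit 3800890) [(nat_lit 700854), (nat_lit 1933592), (nat_lit 3998834), (nat_lit 8281015)]) (PF.cons PF.nil (PF.cons PF.nil PF.nil)))) (PF.cons (PF.cons (PF.leaf (nat_lit 10159414) (nat_lit 1924413) (nat_lit 35459087) (nat_lit 3769401) [(nat_lit 0), (nat_lit 1924413), (nat_lit 3964566), (nat_lit 8173232)]) (PF.cons PF.nil PF.nil)) PF.nil))) (PF.cons (PF.cons (PF.cons (PF.leaf (nat_lit 9825736) (nat_lit 3755414) (nat_lit 35442684) (nat_lit 3755414) [(nat_lit 0), (nat_lit 0), (nat_lit 3950495), (nat_lit 8158238)]) (PF.cons (PF.leaf (nat_lit 10189354) (nat_lit 694387) (nat_lit 34912981) (nat_lit 3739427)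 [(nat_lit 694387), (nat_lit 0), (nat_lit 3932856), (nat_lit 8097733)]) PF.nil)) (PF.cons PF.nil PF.nil)) (PF.cons PF.nil (PF.cons PF.nil PF.nil)))))))) (PF.cons (PF.cons (PF.cons (PF.cons (PF.leaf (nat_lit 5385813)
 (nat_lit 3834577) (nat_lit 45399848) (nat_lit 3834577) [(nat_lit 0), (nat_lit 0), (nat_lit 0), (nat_lit 8937193)]) (PF.cons (PF.leaf (nat_lit 5726902) (nat_lit 618906) (nat_lit 44812463) (nat_lit 3848917) [(nat_lit 618906), (nat_lit 0), (nat_lit 0), (nat_lit 8914262)]) (PF.cons (PF.leaf (nat_lit 6085161) (nat_lit 635426) (nat_lit 44202718) (nat_lit 3860825) [(nat_lit 635426), (nat_lit 0), (nat_lit 0), (nat_lit 8887208)]) (PF.cons (PF.leaf (nat_lit 6456696) (nat_lit 649707) (nat_lit 43577332) (nat_lit 3870124) [(nat_lit 649707), (nat_lit 0), (nat_lit 0), (nat_lit 8856116)]) (PF.cons (PF.leaf (nat_lit 6838688) (nat_lit 662105) (nat_lit 42941391) (nat_lit 3876755) [(nat_lit 662105), (nat_lit 0), (nat_lit 0), (nat_lit 8821120)]) (PF.cons (PF.leaf (nat_lit 7228888)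 (nat_lit 672881) (nat_lit 42298893) (nat_lit 3880737) [(nat_lit 672881), (nat_lit 0), (nat_lit 0), (nat_lit 8782387)]) (PF.cons (PF.leaf (nat_lit 7625404) (nat_lit 682232) (nat_lit 41653060) (nat_lit 3882133) [(nat_lit 682232), (nat_lit 0), (nat_lit 0), (nat_lit 8740112)]) (PF.cons (PF.leaf (nat_lit 8026646) (nat_lit 690317) (nat_lit 41006529) (nat_lit 3881040) [(nat_lit 690317), (nat_lit 0), (nat_lit 0), (nat_lit 8694509)])
 (PF.cons (PF.leaf (nat_lit 8431253) (nat_lit 697268) (nat_lit 40361481) (nat_lit 3877574) [(nat_lit 697268), (nat_lit 0), (nat_lit 0), (nat_lit 8645804)]) (PF.cons PF.nil PF.nil)))))))))) (PF.cons (PF.cons (PF.leaf (nat_lit 6167910) (nat_lit 1877132) (nat_lit 43664030) (nat_lit 3859679) [(nat_lit 0), (nat_lit 1877132), (nat_lit 0), (nat_lit 8853984)]) (PF.cons (PF.leaf (nat_lit 6528845) (nat_lit 648550) (nat_lit 43057990) (nat_lit 3867008) [(nat_lit 648550), (nat_lit 1892566), (nat_lit 0), (nat_lit 8821348)]) (PF.cons (PF.leaf (nat_lit 6901723) (nat_lit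 660901) (nat_lit 42439404) (nat_lit 3871891) [(nat_lit 660901), (nat_lit 1905902), (nat_lit 0), (nat_lit 8784905)]) (PF.cons (PF.leaf (nat_lit 7283707) (nat_lit 671575) (nat_lit 41812882) (nat_lit 3874312) [(nat_lit 671575), (nat_lit 1917204), (nat_lit 0), (nat_lit 8744843)]) (PF.cons (PF.leaf (nat_lit 7672707) (nat_lit 680794) (nat_lit 41182015) (nat_lit 3874314) [(nat_lit 680794), (nat_lit 1926563), (nat_lit 0), (nat_lit 8701370)]) (PF.cons (PF.leaf (nat_lit 8066970) (nat_lit 688735) (nat_lit 40549675) (nat_lit 3871975) [(nat_lit 688735), (nat_lit 1934081), (nat_lit 0), (nat_lit 8654702)]) (PF.cons (PF.leaf (nat_lit 8465036)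
 (nat_lit 695536) (nat_lit 39918196) (nat_lit 3867398) [(nat_lit 695536), (nat_lit 1939867), (nat_lit 0), (nat_lit 8605066)]) (PF.cons (PF.leaf (nat_lit 8865674) (nat_lit 701314) (nat_lit 39289493) (nat_lit 3860700) [(nat_lit 701314), (nat_lit 1944032), (nat_lit 0), (nat_lit 8552693)]) (PF.cons PF.nil PF.nil))))))))) (PF.cons (PF.cons (PF.leaf (nat_lit 6967149) (nat_lit 1905558) (nat_lit 41937655) (nat_lit 3866031) [(nat_lit 0), (nat_lit 1905558), (nat_lit 0), (nat_lit 8747004)]) (PF.cons (PF.leaf (nat_lit 7339992) (nat_lit 669842) (nat_lit 41328485) (nat_lit 3867000) [(nat_lit 669842), (nat_lit 1915875), (nat_lit 0), (nat_lit 8705866)]) (PF.cons (PF.leaf (nat_lit 7720949) (nat_lit 679004) (nat_lit 40713548) (nat_lit 3865707) [(nat_lit 679004), (nat_lit 1924366), (nat_lit 0), (nat_lit 8661407)]) (PF.cons (PF.leaf (nat_lit 8107871) (nat_lit 686855) (nat_lit 40096081) (nat_lit 3862214) [(nat_lit 686855), (nat_lit 1931115), (nat_lit 0), (nat_lit 8613859)]) (PF.cons (PF.leaf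 (nat_lit 8499150) (nat_lit 693551) (nat_lit 39478654) (nat_lit 3856609) [(nat_lit 693551), (nat_lit 1936217), (nat_lit 0), (nat_lit 8563453)]) (PF.cons (PF.leaf (nat_lit 8893434) (nat_lit 699217) (nat_lit 38863339)
 (nat_lit 3848997) [(nat_lit 699217), (nat_lit 1939772), (nat_lit 0), (nat_lit 8510421)]) (PF.cons PF.nil PF.nil))))))) (PF.cons (PF.cons (PF.leaf (nat_lit 7770942) (nat_lit 1921717) (nat_lit 40246909) (nat_lit 3856334) [(nat_lit 0), (nat_lit 1921717), (nat_lit 0), (nat_lit 8620207)]) (PF.cons (PF.leaf (nat_lit 8149839) (nat_lit 684658) (nat_lit 39645187) (nat_lit 3851778) [(nat_lit 684658), (nat_lit 1927744), (nat_lit 0), (nat_lit 8571978)]) (PF.cons (PF.leaf (nat_lit 8533967) (nat_lit 691300) (nat_lit 39042422) (nat_lit 3845226) [(nat_lit 691300), (nat_lit 1932205), (nat_lit 0), (nat_lit 8520972)]) (PF.cons (PF.leaf (nat_lit 8921654) (nat_lit 696895) (nat_lit 38440920) (nat_lit 3836774) [(nat_lit 696895), (nat_lit 1935191), (nat_lit 0), (nat_lit 8467428)])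 (PF.cons (PF.leaf (nat_lit 9311658) (nat_lit 701556) (nat_lit 37842524) (nat_lit 3826527) [(nat_lit 701556), (nat_lit 1936793), (nat_lit 0), (nat_lit 8411578)]) PF.nil))))) (PF.cons (PF.cons (PF.leaf (nat_lit 8570134) (nat_lit 1927844) (nat_lit 38608948) (nat_lit 3833265) [(nat_lit 0), (nat_lit 1927844), (nat_lit 0), (nat_lit 8477610)]) (PF.cons (PF.leaf (nat_lit 8950707) (nat_lit 694333) (nat_lit 38021806) (nat_lit 3824048)
 [(nat_lit 694333), (nat_lit 1930300), (nat_lit 0), (nat_lit 8423711)]) (PF.cons (PF.leaf (nat_lit 9334325) (nat_lit 698952) (nat_lit 37436908) (nat_lit 3813125) [(nat_lit 698952), (nat_lit 1931432), (nat_lit 0), (nat_lit 8367573)]) (PF.cons PF.nil PF.nil)))) (PF.cons (PF.cons (PF.leaf (nat_lit 9358100) (nat_lit 1925805) (nat_lit 37034555) (nat_lit 3799294) [(nat_lit 0), (nat_lit 1925805), (nat_lit 0), (nat_lit 8322968)]) (PF.cons (PF.leaf (nat_lit 9737092) (nat_lit 699883) (nat_lit 36466672) (nat_lit 3786236) [(nat_lit 699883), (nat_lit 1925314),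 (nat_lit 0), (nat_lit 8264724)]) PF.nil)) (PF.cons PF.nil (PF.cons PF.nil PF.nil)))))))) (PF.cons (PF.cons (PF.cons (PF.leaf (nat_lit 6689132) (nat_lit 3841041) (nat_lit 41784992) (nat_lit 3841041) [(nat_lit 0), (nat_lit 0), (nat_lit 4052003), (nat_lit 8715388)]) (PF.cons (PF.leaf (nat_lit 7045504) (nat_lit 653277) (nat_lit 41206340) (nat_lit 3843178) [(nat_lit 653277), (nat_lit 0), (nat_lit 4052785), (nat_lit 8676615)]) (PF.cons (PF.leaf (nat_lit 7412682) (nat_lit 664158) (nat_lit 40617194) (nat_lit 3843121) [(nat_lit 664158), (nat_lit 0), (nat_lit 4051327), (nat_lit 8634426)]) (PF.cons (PF.leaf (nat_lit 7787928) (nat_lit 673441)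
 (nat_lit 40021811) (nat_lit 3840892) [(nat_lit 673441), (nat_lit 0), (nat_lit 4047657), (nat_lit 8589064)]) (PF.cons (PF.leaf (nat_lit 8169257) (nat_lit 681354) (nat_lit 39423469) (nat_lit 3836554) [(nat_lit 681354), (nat_lit 0), (nat_lit 4041838), (nat_lit 8540765)]) (PF.cons (PF.leaf (nat_lit 8555040) (nat_lit 688074) (nat_lit 38824754) (nat_lit 3830196) [(nat_lit 688074), (nat_lit 0), (nat_lit 4033963), (nat_lit 8489762)]) (PF.cons (PF.leaf (nat_lit 8943949) (nat_lit 693739) (nat_lit 38227748) (nat_lit 3821922) [(nat_lit 693739), (nat_lit 0), (nat_lit 4024137), (nat_lit 8436283)]) (PF.cons PF.nil (PF.cons PF.nil PF.nil))))))))) (PF.cons (PF.cons (PF.leaf (nat_lit 7470007) (nat_lit 1901742) (nat_lit 40145236) (nat_lit 3834206) [(nat_lit 0), (nat_lit 1901742), (nat_lit 4041390), (nat_lit 8593118)]) (PF.cons (PF.leaf (nat_lit 7836304) (nat_lit 671030) (nat_lit 39566786) (nat_lit 3830886) [(nat_lit 671030), (nat_lit 1909107), (nat_lit 4036624), (nat_lit 8547188)]) (PF.cons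 (PF.leaf (nat_lit 8209823) (nat_lit 678959) (nat_lit 38983917) (nat_lit 3825579) [(nat_lit 678959), (nat_lit 1914831), (nat_lit 4029830), (nat_lit 8498367)]) (PF.cons (PF.leaf (nat_lit 8588523) (nat_lit 685656)
 (nat_lit 38399581) (nat_lit 3818359) [(nat_lit 685656), (nat_lit 1919002), (nat_lit 4021087), (nat_lit 8446906)]) (PF.cons (PF.leaf (nat_lit 8970898) (nat_lit 691275) (nat_lit 37816096) (nat_lit 3809321) [(nat_lit 691275), (nat_lit 1921716), (nat_lit 4010491), (nat_lit 8393041)]) (PF.cons (PF.leaf (nat_lit 9355690) (nat_lit 695942) (nat_lit 37235309) (nat_lit 3798567) [(nat_lit 695942), (nat_lit 1923070), (nat_lit 3998151), (nat_lit 8337000)]) (PF.cons PF.nil PF.nil))))))) (PF.cons (PF.cons (PF.leaf (nat_lit 8252361) (nat_lit 1910742) (nat_lit 38546217) (nat_lit 3813983) [(nat_lit 0), (nat_lit 1910742), (nat_lit 4017177), (nat_lit 8454975)]) (PF.cons (PF.leaf (nat_lit 8623288) (nat_lit 682952) (nat_lit 37977038) (nat_lit 3805981) [(nat_lit 682952), (nat_lit 1914361),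 (nat_lit 4007650), (nat_lit 8403233)]) (PF.cons (PF.leaf (nat_lit 8998779) (nat_lit 688575) (nat_lit 37407611) (nat_lit 3796250) [(nat_lit 688575), (nat_lit 1916587), (nat_lit 3996360), (nat_lit 8349132)]) (PF.cons (PF.leaf (nat_lit 9377263) (nat_lit 693221) (nat_lit 36840016) (nat_lit 3784886) [(nat_lit 693221), (nat_lit 1917508), (nat_lit 3983408), (nat_lit 8292909)]) (PF.cons PF.nil PF.nil))))) (PF.cons (PF.cons
 (PF.leaf (nat_lit 9028215) (nat_lit 1911172) (nat_lit 37001759) (nat_lit 3782717) [(nat_lit 0), (nat_lit 1911172), (nat_lit 3981749), (nat_lit 8304534)]) (PF.cons (PF.leaf (nat_lit 9399866) (nat_lit 690287) (nat_lit 36447843) (nat_lit 3770806) [(nat_lit 690287), (nat_lit 1911695), (nat_lit 3968253), (nat_lit 8248267)]) (PF.cons (PF.leaf (nat_lit 9774086) (nat_lit 694072) (nat_lit 35896540) (nat_lit 3757433) [(nat_lit 694072), (nat_lit 1911048), (nat_lit 3953268), (nat_lit 8190139)]) (PF.cons PF.nil PF.nil)))) (PF.cons (PF.cons (PF.leaf (nat_lit 9791884) (nat_lit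 1904670) (nat_lit 35520227) (nat_lit 3742538) [(nat_lit 0), (nat_lit 1904670), (nat_lit 3937288), (nat_lit 8145039)]) (PF.cons PF.nil PF.nil)) (PF.cons PF.nil PF.nil)))))) (PF.cons (PF.cons (PF.cons (PF.leaf (nat_lit 7949220) (nat_lit 3793597) (nat_lit 38461545) (nat_lit 3793597) [(nat_lit 0), (nat_lit 0), (nat_lit 3996629), (nat_lit 8430205)]) (PF.cons (PF.leaf (nat_lit 8308580) (nat_lit 670084) (nat_lit 37913468) (nat_lit 3786857) [(nat_lit 670084), (nat_lit 0), (nat_lit 3988384), (nat_lit 8380816)]) (PF.cons (PF.leaf (nat_lit 8674430) (nat_lit 676956) (nat_lit 37362002) (nat_lit 3778366) [(nat_lit 676956), (nat_lit 0),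
 (nat_lit 3978354), (nat_lit 8328910)]) (PF.cons (PF.leaf (nat_lit 9044807) (nat_lit 682668) (nat_lit 36809844) (nat_lit 3768210) [(nat_lit 682668), (nat_lit 0), (nat_lit 3966629), (nat_lit 8274746)]) (PF.cons (PF.leaf (nat_lit 9418297) (nat_lit 687374) (nat_lit 36259089) (nat_lit 3756484) [(nat_lit 687374), (nat_lit 0), (nat_lit 3953309), (nat_lit 8218561)]) (PF.cons PF.nil (PF.cons PF.nil PF.nil))))))) (PF.cons (PF.cons (PF.leaf (nat_lit 8710256) (nat_lit 1895387) (nat_lit 36951833) (nat_lit 3765122) [(nat_lit 0), (nat_lit 1895387), (nat_lit 3964024), (nat_lit 8284210)]) (PF.cons (PF.leaf (nat_lit 9073123) (nat_lit 679574) (nat_lit 36414140) (nat_lit 3754410) [(nat_lit 679574), (nat_lit 1897029), (nat_lit 3951748), (nat_lit 8230079)]) (PF.cons (PF.leaf (nat_lit 9440016) (nat_lit 684329) (nat_lit 35876758) (nat_lit 3742194) [(nat_lit 684329), (nat_lit 1897428), (nat_lit 3937943), (nat_lit 8173941)]) (PF.cons (PF.leaf (nat_lit 9809432) (nat_lit 688174) (nat_lit 35341570)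 (nat_lit 3728573) [(nat_lit 688174), (nat_lit 1896670), (nat_lit 3922708), (nat_lit 8116030)]) (PF.cons PF.nil PF.nil))))) (PF.cons (PF.cons (PF.leaf (nat_lit 9463452) (nat_lit 1891218) (nat_lit 35496891) (nat_lit
 3727533) [(nat_lit 0), (nat_lit 1891218), (nat_lit 3922193), (nat_lit 8128782)]) (PF.cons (PF.leaf (nat_lit 9826312) (nat_lit 684957) (nat_lit 34974652) (nat_lit 3713540) [(nat_lit 684957), (nat_lit 1890169), (nat_lit 3906594), (nat_lit 8071067)]) (PF.cons PF.nil (PF.cons PF.nil PF.nil)))) (PF.cons (PF.cons (PF.leaf (nat_lit 10203871) (nat_lit 1881152) (nat_lit 34103223) (nat_lit 3682671) [(nat_lit 0), (nat_lit 1881152), (nat_lit 3873017), (nat_lit 7966713)]) (PF.cons PF.nil PF.nil)) (PF.cons PF.nil PF.nil))))) (PF.cons (PF.cons (PF.cons (PF.leaf (nat_lit 9146252) (nat_lit 3711511) (nat_lit 35457823) (nat_lit 3711511) [(nat_lit 0), (nat_lit 0), (nat_lit 3906067), (nat_lit 8110637)]) (PF.cons (PF.leaf (nat_lit 9501078) (nat_lit 674874) (nat_lit 34950255) (nat_lit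 3698686) [(nat_lit 674874), (nat_lit 0), (nat_lit 3891660), (nat_lit 8055007)]) (PF.cons (PF.leaf (nat_lit 9859482) (nat_lit 678889) (nat_lit 34443382) (nat_lit 3684550) [(nat_lit 678889), (nat_lit 0), (nat_lit 3875921), (nat_lit 7997667)]) (PF.cons PF.nil PF.nil)))) (PF.cons (PF.cons (PF.leaf (nat_lit 9877581) (nat_lit 1868787) (nat_lit 34087813) (nat_lit 3669110) [(nat_lit 0), (nat_lit 1868787), (nat_lit 3859393),
 (nat_lit 7952459)]) (PF.cons (PF.leaf (nat_lit 10231849) (nat_lit 678628) (nat_lit 33595548) (nat_lit 3653529) [(nat_lit 678628), (nat_lit 1866463), (nat_lit 3842203), (nat_lit 7894015)]) PF.nil)) (PF.cons PF.nil PF.nil))) (PF.cons (PF.cons (PF.cons (PF.leaf (nat_lit 10272247) (nat_lit 3608548) (nat_lit 32767998) (nat_lit 3608548) [(nat_lit 0), (nat_lit 0), (nat_lit 3794489), (nat_lit 7777154)]) (PF.cons PF.nil PF.nil)) (PF.cons PF.nil PF.nil)) (PF.cons PF.nil PF.nil)))))) (PF.cons (PF.cons (PF.cons (PF.cons (PF.leaf (nat_lit 7314733) (nat_lit 3726991) (nat_lit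 38327708) (nat_lit 3726991) [(nat_lit 0), (nat_lit 0), (nat_lit 0), (nat_lit 8351371)]) (PF.cons (PF.leaf (nat_lit 7655456) (nat_lit 640090) (nat_lit 37819450) (nat_lit 3724447) [(nat_lit 640090), (nat_lit 0), (nat_lit 0), (nat_lit 8308274)]) (PF.cons (PF.leaf (nat_lit 8005948) (nat_lit 649629) (nat_lit 37302455) (nat_lit 3720028) [(nat_lit 649629), (nat_lit 0), (nat_lit 0), (nat_lit 8262357)]) (PF.cons (PF.leaf (nat_lit 8363637) (nat_lit 657649) (nat_lit 36780383) (nat_lit 3713793) [(nat_lit 657649), (nat_lit 0), (nat_lit 0), (nat_lit 8213896)]) (PF.cons (PF.leaf (nat_lit 8726684) (nat_lit 664385) (nat_lit 36256028)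
 (nat_lit 3705823) [(nat_lit 664385), (nat_lit 0), (nat_lit 0), (nat_lit 8163140)]) (PF.cons (PF.leaf (nat_lit 9093611) (nat_lit 670014) (nat_lit 35731576) (nat_lit 3696214) [(nat_lit 670014), (nat_lit 0), (nat_lit 0), (nat_lit 8110317)]) (PF.cons (PF.leaf (nat_lit 9463200) (nat_lit 674675) (nat_lit 35208771) (nat_lit 3685066) [(nat_lit 674675), (nat_lit 0), (nat_lit 0), (nat_lit 8055639)]) (PF.cons PF.nil (PF.cons PF.nil PF.nil))))))))) (PF.cons (PF.cons (PF.leaf (nat_lit 8053404) (nat_lit 1850211) (nat_lit 36891495) (nat_lit 3708635) [(nat_lit 0), (nat_lit 1850211), (nat_lit 0), (nat_lit 8219490)]) (PF.cons (PF.leaf (nat_lit 8402641) (nat_lit 654699) (nat_lit 36384340) (nat_lit 3701696) [(nat_lit 654699), (nat_lit 1855012), (nat_lit 0), (nat_lit 8171020)]) (PF.cons (PF.leaf (nat_lit 8758387) (nat_lit 661519) (nat_lit 35873558) (nat_lit 3693106) [(nat_lit 661519), (nat_lit 1858364), (nat_lit 0), (nat_lit 8120248)]) (PF.cons (PF.leaf (nat_lit 9118731) (nat_lit 667188)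 (nat_lit 35361664) (nat_lit 3682951) [(nat_lit 667188), (nat_lit 1860363), (nat_lit 0), (nat_lit 8067422)]) (PF.cons (PF.leaf (nat_lit 9482291) (nat_lit 671862) (nat_lit 34850619) (nat_lit 3671325) [(nat_lit 671862),
 (nat_lit 1861108), (nat_lit 0), (nat_lit 8012769)]) (PF.cons PF.nil (PF.cons PF.nil PF.nil))))))) (PF.cons (PF.cons (PF.leaf (nat_lit 8792306) (nat_lit 1853148) (nat_lit 35492595) (nat_lit 3679943) [(nat_lit 0), (nat_lit 1853148), (nat_lit 0), (nat_lit 8076658)]) (PF.cons (PF.leaf (nat_lit 9145388) (nat_lit 664115) (nat_lit 34993916) (nat_lit 3669306) [(nat_lit 664115), (nat_lit 1854771), (nat_lit 0), (nat_lit 8023977)]) (PF.cons (PF.leaf (nat_lit 9502584) (nat_lit 668847) (nat_lit 34495081) (nat_lit 3657259) [(nat_lit 668847), (nat_lit 1855186), (nat_lit 0), (nat_lit 7969468)]) (PF.cons (PF.leaf (nat_lit 9862432) (nat_lit 672682) (nat_lit 33997851) (nat_lit 3643894) [(nat_lit 672682), (nat_lit 1854482), (nat_lit 0), (nat_lit 7913352)]) (PF.cons PF.nil PF.nil)))))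 (PF.cons (PF.cons (PF.leaf (nat_lit 9524661) (nat_lit 1849054) (nat_lit 34141681) (nat_lit 3642864) [(nat_lit 0), (nat_lit 1849054), (nat_lit 0), (nat_lit 7925701)]) (PF.cons (PF.leaf (nat_lit 9878175) (nat_lit 669513) (nat_lit 33656281) (nat_lit 3629184) [(nat_lit 669513), (nat_lit 1848088), (nat_lit 0), (nat_lit 7869855)]) (PF.cons PF.nil (PF.cons PF.nil PF.nil)))) (PF.cons (PF.cons (PF.leaf (nat_lit 10245682) (nat_lit
 1839344) (nat_lit 32845041) (nat_lit 3599112) [(nat_lit 0), (nat_lit 1839344), (nat_lit 0), (nat_lit 7769093)]) (PF.cons PF.nil PF.nil)) (PF.cons PF.nil PF.nil)))))) (PF.cons (PF.cons (PF.cons (PF.leaf (nat_lit 8494738) (nat_lit 3661606) (nat_lit 35426568) (nat_lit 3661606) [(nat_lit 0), (nat_lit 0), (nat_lit 3855583), (nat_lit 8055018)]) (PF.cons (PF.leaf (nat_lit 8837415) (nat_lit 652026) (nat_lit 34945870) (nat_lit 3652246) [(nat_lit 652026), (nat_lit 0), (nat_lit 3844705), (nat_lit 8004654)]) (PF.cons (PF.leaf (nat_lit 9186011) (nat_lit 657979) (nat_lit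 34462289) (nat_lit 3641421) [(nat_lit 657979), (nat_lit 0), (nat_lit 3832341), (nat_lit 7952267)]) (PF.cons (PF.leaf (nat_lit 9538676) (nat_lit 662848) (nat_lit 33978132) (nat_lit 3629225) [(nat_lit 662848), (nat_lit 0), (nat_lit 3818585), (nat_lit 7898108)]) (PF.cons (PF.leaf (nat_lit 9894136) (nat_lit 666787) (nat_lit 33495181) (nat_lit 3615749) [(nat_lit 666787), (nat_lit 0), (nat_lit 3803535), (nat_lit 7842398)]) PF.nil))))) (PF.cons (PF.cons (PF.leaf (nat_lit 9214377) (nat_lit 1834660) (nat_lit 34104823) (nat_lit 3627243) [(nat_lit 0), (nat_lit 1834660), (nat_lit 3817093), (nat_lit 7908330)]) (PF.cons (PF.leaf (nat_lit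
 9560040) (nat_lit 659511) (nat_lit 33633213) (nat_lit 3614726) [(nat_lit 659511), (nat_lit 1834780), (nat_lit 3803030), (nat_lit 7854517)]) (PF.cons (PF.leaf (nat_lit 9909376) (nat_lit 663542) (nat_lit 33161824) (nat_lit 3600973) [(nat_lit 663542), (nat_lit 1833815), (nat_lit 3787714), (nat_lit 7799133)]) (PF.cons PF.nil PF.nil)))) (PF.cons (PF.cons (PF.leaf (nat_lit 9926539) (nat_lit 1827165) (nat_lit 32830434) (nat_lit 3585931) [(nat_lit 0), (nat_lit 1827165), (nat_lit 3771618), (nat_lit 7755498)]) (PF.cons (PF.leaf (nat_lit 10272077) (nat_lit 663379) (nat_lit 32372036) (nat_lit 3570843) [(nat_lit 663379), (nat_lit 1825020), (nat_lit 3754967), (nat_lit 7699181)]) PF.nil)) (PF.cons PF.nil (PF.cons PF.nil PF.nil))))) (PF.cons (PF.cons (PF.cons (PF.leaf (nat_lit 9617763) (nat_lit 3571735) (nat_lit 32802146) (nat_lit 3571735) [(nat_lit 0), (nat_lit 0), (nat_lit 3757364), (nat_lit 7740067)]) (PF.cons (PF.leaf (nat_lit 9956064) (nat_lit 653966) (nat_lit 32356258) (nat_lit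 3557763) [(nat_lit 653966), (nat_lit 0), (nat_lit 3741851), (nat_lit 7685707)]) (PF.cons (PF.leaf (nat_lit 10297702) (nat_lit 657396) (nat_lit 31910855) (nat_lit 3542706) [(nat_lit 657396), (nat_lit 0), (nat_lit
 3725238), (nat_lit 7629993)]) (PF.cons PF.nil PF.nil)))) (PF.cons (PF.cons (PF.leaf (nat_lit 10310464) (nat_lit 1803668) (nat_lit 31599981) (nat_lit 3527252) [(nat_lit 0), (nat_lit 1803668), (nat_lit 3708744), (nat_lit 7586807)]) (PF.cons PF.nil PF.nil)) (PF.cons PF.nil PF.nil))) (PF.cons (PF.cons (PF.cons (PF.leaf (nat_lit 10677767) (nat_lit 3467568) (nat_lit 30444676) (nat_lit 3467568) [(nat_lit 0), (nat_lit 0), (nat_lit 3644936), (nat_lit 7420586)]) (PF.cons PF.nil PF.nil)) (PF.cons PF.nil PF.nil)) (PF.cons PF.nil PF.nil))))) (PF.cons (PF.cons (PF.cons (PF.cons (PF.leaf (nat_lit 8987867) (nat_lit 3529406) (nat_lit 32797008) (nat_lit 3529406) [(nat_lit 0), (nat_lit 0), (nat_lit 0), (nat_lit 7695599)]) (PF.cons (PF.leaf (nat_lit 9315491) (nat_lit 633253) (nat_lit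 32373387) (nat_lit 3518544) [(nat_lit 633253), (nat_lit 0), (nat_lit 0), (nat_lit 7645906)]) (PF.cons (PF.leaf (nat_lit 9648586) (nat_lit 638505) (nat_lit 31947195) (nat_lit 3506435) [(nat_lit 638505), (nat_lit 0), (nat_lit 0), (nat_lit 7594542)]) (PF.cons (PF.leaf (nat_lit 9985430) (nat_lit 642742) (nat_lit 31520426) (nat_lit 3493170) [(nat_lit 642742), (nat_lit 0), (nat_lit 0), (nat_lit 7541747)]) (PF.cons PF.nil
 PF.nil))))) (PF.cons (PF.cons (PF.leaf (nat_lit 9671182) (nat_lit 1773841) (nat_lit 31633902) (nat_lit 3491985) [(nat_lit 0), (nat_lit 1773841), (nat_lit 0), (nat_lit 7552270)]) (PF.cons (PF.leaf (nat_lit 10001447) (nat_lit 639293) (nat_lit 31218020) (nat_lit 3478557) [(nat_lit 639293), (nat_lit 1772955), (nat_lit 0), (nat_lit 7499996)]) (PF.cons (PF.leaf (nat_lit 10335134) (nat_lit 642784) (nat_lit 30802212) (nat_lit 3464090) [(nat_lit 642784), (nat_lit 1771110), (nat_lit 0), (nat_lit 7446457)]) (PF.cons PF.nil PF.nil)))) (PF.cons (PF.cons (PF.leaf (nat_lit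 10347498) (nat_lit 1764304) (nat_lit 30511358) (nat_lit 3449143) [(nat_lit 0), (nat_lit 1764304), (nat_lit 0), (nat_lit 7404925)]) (PF.cons PF.nil PF.nil)) (PF.cons PF.nil (PF.cons PF.nil PF.nil))))) (PF.cons (PF.cons (PF.cons (PF.leaf (nat_lit 10047367) (nat_lit 3436550) (nat_lit 30491237) (nat_lit 3436550) [(nat_lit 0), (nat_lit 0), (nat_lit 3613769), (nat_lit 7391813)]) (PF.cons (PF.leaf (nat_lit 10370886) (nat_lit 633306) (nat_lit 30097291) (nat_lit 3422112) [(nat_lit 633306), (nat_lit 0), (nat_lit 3597850), (nat_lit 7339563)]) (PF.cons PF.nil (PF.cons PF.nil PF.nil)))) (PF.cons (PF.cons (PF.leaf (nat_lit 10706237)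
 (nat_lit 1740601) (nat_lit 29430114) (nat_lit 3391629) [(nat_lit 0), (nat_lit 1740601), (nat_lit 3564896), (nat_lit 7245392)]) (PF.cons PF.nil PF.nil)) (PF.cons PF.nil PF.nil))) (PF.cons (PF.cons (PF.cons (PF.leaf (nat_lit 11050593) (nat_lit 3333817) (nat_lit 28412338) (nat_lit 3333817) [(nat_lit 0), (nat_lit 0), (nat_lit 3503201), (nat_lit 7089063)]) (PF.cons PF.nil PF.nil)) (PF.cons PF.nil PF.nil)) PF.nil))) (PF.cons (PF.cons (PF.cons (PF.cons (PF.leaf (nat_lit 10443074) (nat_lit 3307560) (nat_lit 28466800) (nat_lit 3307560) [(nat_lit 0), (nat_lit 0), (nat_lit 0), (nat_lit 7066890)]) (PF.cons (PF.leaf (nat_lit 10753266) (nat_lit 613249) (nat_lit 28116750) (nat_lit 3293074) [(nat_lit 613249), (nat_lit 0), (nat_lit 0), (nat_lit 7017147)]) (PF.cons PF.nil PF.nil))) (PF.cons (PF.cons (PF.leaf (nat_lit 11072005) (nat_lit 1680259) (nat_lit 27524690) (nat_lit 3263189) [(nat_lit 0), (nat_lit 1680259), (nat_lit 0), (nat_lit 6928134)]) PF.nil) PF.nil)) (PF.cons PF.nil PF.nil))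 (PF.cons PF.nil (PF.cons PF.nil (PF.cons PF.nil PF.nil)))))))))

def p15_31_0_0 : pfC (piC [(nat_lit 35065580), (nat_lit 23751559), (nat_lit 17719570), (nat_lit 11940226)] (nat_lit 19732815)) p15_31_0 (nat_lit 4) (nat_lit 0) (nat_lit 1) = true := by decide +kernel
def p15_31_0_1 : pfC (piC [(nat_lit 35065580), (nat_lit 23751559), (nat_lit 17719570), (nat_lit 11940226)] (nat_lit 19732815)) p15_31_0 (nat_lit 4) (nat_lit 1) (nat_lit 2) = true := by decide +kernel
def p15_31_0_2 : pfC (piC [(nat_lit 35065580), (nat_lit 23751559), (nat_lit 17719570), (nat_lit 11940226)] (nat_lit 19732815)) p15_31_0 (nat_lit 4) (nat_lit 2) (nat_lit 3) = true := by decide +kernel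
def p15_31_0_3 : pfC (piC [(nat_lit 35065580), (nat_lit 23751559), (nat_lit 17719570), (nat_lit 11940226)] (nat_lit 19732815)) p15_31_0 (nat_lit 4) (nat_lit 3) (nat_lit 4) = true := by decide +kernel
def p15_31_0_4 : pfC (piC [(nat_lit 35065580), (nat_lit 23751559), (nat_lit 17719570), (nat_lit 11940226)] (nat_lit 19732815)) p15_31_0 (nat_lit 4) (nat_lit 4) (nat_lit 5) = true := by decide +kernel
def p15_31_0_5 : pfC (piC [(nat_lit 35065580), (nat_lit 23751559), (nat_lit 17719570), (nat_lit 11940226)] (nat_lit 19732815)) p15_31_0 (nat_lit 4) (nat_lit 5) (nat_lit 6) = true := by decide +kernel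
def p15_31_0_6 : pfC (piC [(nat_lit 35065580), (nat_lit 23751559), (nat_lit 17719570), (nat_lit 11940226)] (nat_lit 19732815)) p15_31_0 (nat_lit 4) (nat_lit 6) (nat_lit 7) = true := by decide +kernel
def p15_31_0_7 : pfC (piC [(nat_lit 35065580), (nat_lit 23751559), (nat_lit 17719570), (nat_lit 11940226)] (nat_lit 19732815)) p15_31_0 (nat_lit 4) (nat_lit 7) (nat_lit 8) = true := by decide +kernel
def p15_31_0_8 : pfC (piC [(nat_lit 35065580), (nat_lit 23751559), (nat_lit 17719570), (nat_lit 11940226)] (nat_lit 19732815)) p15_31_0 (nat_lit 4) (nat_lit 8) (nat_lit 9) = true := by decide +kernel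
def p15_31_0_9 : pfC (piC [(nat_lit 35065580), (nat_lit 23751559), (nat_lit 17719570), (nat_lit 11940226)] (nat_lit 19732815)) p15_31_0 (nat_lit 4) (nat_lit 9) (nat_lit 10) = true := by decide +kernel
def p15_31_0_10 : pfC (piC [(nat_lit 35065580), (nat_lit 23751559), (nat_lit 17719570), (nat_lit 11940226)] (nat_lit 19732815)) p15_31_0 (nat_lit 4) (nat_lit 10) (nat_lit 11) = true := by decide +kernel
def p15_31_0_11 : pfC (piC [(nat_lit 35065580), (nat_lit 23751559), (nat_lit 17719570), (nat_lit 11940226)] (nat_lit 19732815)) p15_31_0 (nat_lit 4) (nat_lit 11) (nat_lit 12) = true := by decide +kernel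
def p15_31_0_12 : pfC (piC [(nat_lit 35065580), (nat_lit 23751559), (nat_lit 17719570), (nat_lit 11940226)] (nat_lit 19732815)) p15_31_0 (nat_lit 4) (nat_lit 12) (nat_lit 13) = true := by decide +kernel
def p15_31_0_13 : pfC (piC [(nat_lit 35065580), (nat_lit 23751559), (nat_lit 17719570), (nat_lit 11940226)] (nat_lit 19732815)) p15_31_0 (nat_lit 4) (nat_lit 13) (nat_lit 14) = true := by decide +kernel
def p15_31_0_14 : pfC (piC [(nat_lit 35065580), (nat_lit 23751559), (nat_lit 17719570), (nat_lit 11940226)] (nat_lit 19732815)) p15_31_0 (nat_lit 4) (nat_lit 14) (nat_lit 15) = true := by decide +kernel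
def p15_31_0_15 : pfC (piC [(nat_lit 35065580), (nat_lit 23751559), (nat_lit 17719570), (nat_lit 11940226)] (nat_lit 19732815)) p15_31_0 (nat_lit 4) (nat_lit 15) (nat_lit 16) = true := by decide +kernel
def p15_31_0_16 : pfC (piC [(nat_lit 35065580), (nat_lit 23751559), (nat_lit 17719570), (nat_lit 11940226)] (nat_lit 19732815)) p15_31_0 (nat_lit 4) (nat_lit 16) (nat_lit 17) = true := by decide +kernel
def p15_31_0_17 : pfC (piC [(nat_lit 35065580), (nat_lit 23751559), (nat_lit 17719570), (nat_lit 11940226)] (nat_lit 19732815)) p15_31_0 (nat_lit 4) (nat_lit 17) (nat_lit 18) = true := by decide +kernel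
def p15_31_0_18 : pfC (piC [(nat_lit 35065580), (nat_lit 23751559), (nat_lit 17719570), (nat_lit 11940226)] (nat_lit 19732815)) p15_31_0 (nat_lit 4) (nat_lit 18) (nat_lit 19) = true := by decide +kernel
def p15_31_0_19 : pfC (piC [(nat_lit 35065580), (nat_lit 23751559), (nat_lit 17719570), (nat_lit 11940226)] (nat_lit 19732815)) p15_31_0 (nat_lit 4) (nat_lit 19) (nat_lit 20) = true := by decide +kernel
def p15_31_0_20 : pfC (piC [(nat_lit 35065580), (nat_lit 23751559), (nat_lit 17719570), (nat_lit 11940226)] (nat_lit 19732815)) p15_31_0 (nat_lit 4) (nat_lit 20) (nat_lit 21) = true := by decide +kernel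
def p15_31_0_21 : pfC (piC [(nat_lit 35065580), (nat_lit 23751559), (nat_lit 17719570), (nat_lit 11940226)] (nat_lit 19732815)) p15_31_0 (nat_lit 4) (nat_lit 21) (nat_lit 22) = true := by decide +kernel
def p15_31_0_22 : pfC (piC [(nat_lit 35065580), (nat_lit 23751559), (nat_lit 17719570), (nat_lit 11940226)] (nat_lit 19732815)) p15_31_0 (nat_lit 4) (nat_lit 22) (nat_lit 23) = true := by decide +kernel
def p15_31_0_23 : pfC (piC [(nat_lit 35065580), (nat_lit 23751559), (nat_lit 17719570), (nat_lit 11940226)] (nat_lit 19732815)) p15_31_0 (nat_lit 4) (nat_lit 23) (nat_lit 24) = true := by decide +kernel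
def p15_31_0_24 : pfC (piC [(nat_lit 35065580), (nat_lit 23751559), (nat_lit 17719570), (nat_lit 11940226)] (nat_lit 19732815)) p15_31_0 (nat_lit 4) (nat_lit 24) (nat_lit 25) = true := by decide +kernel
def p15_31_0_25 : pfC (piC [(nat_lit 35065580), (nat_lit 23751559), (nat_lit 17719570), (nat_lit 11940226)] (nat_lit 19732815)) p15_31_0 (nat_lit 4) (nat_lit 25) (nat_lit 26) = true := by decide +kernel
def p15_31_0_26 : pfC (piC [(nat_lit 35065580), (nat_lit 23751559), (nat_lit 17719570), (nat_lit 11940226)] (nat_lit 19732815)) p15_31_0 (nat_lit 4) (nat_lit 26) (nat_lit 27) = true := by decide +kernel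
def p15_31_0_27 : pfC (piC [(nat_lit 35065580), (nat_lit 23751559), (nat_lit 17719570), (nat_lit 11940226)] (nat_lit 19732815)) p15_31_0 (nat_lit 4) (nat_lit 27) (nat_lit 28) = true := by decide +kernel
def p15_31_0_28 : pfC (piC [(nat_lit 35065580), (nat_lit 23751559), (nat_lit 17719570), (nat_lit 11940226)] (nat_lit 19732815)) p15_31_0 (nat_lit 4) (nat_lit 28) (nat_lit 29) = true := by decide +kernel
def p15_31_0_29 : pfC (piC [(nat_lit 35065580), (nat_lit 23751559), (nat_lit 17719570), (nat_lit 11940226)] (nat_lit 19732815)) p15_31_0 (nat_lit 4) (nat_lit 29) (nat_lit 30) = true := by decide +kernel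
def p15_31_0_30 : pfC (piC [(nat_lit 35065580), (nat_lit 23751559), (nat_lit 17719570), (nat_lit 11940226)] (nat_lit 19732815)) p15_31_0 (nat_lit 4) (nat_lit 30) (nat_lit 31) = true := by decide +kernel
def p15_31_0_31 : pfC (piC [(nat_lit 35065580), (nat_lit 23751559), (nat_lit 17719570), (nat_lit 11940226)] (nat_lit 19732815)) p15_31_0 (nat_lit 4) (nat_lit 31) (nat_lit 32) = true := by decide +kernel
def p15_31_0_32 : pfC (piC [(nat_lit 35065580), (nat_lit 23751559), (nat_lit 17719570), (nat_lit 11940226)] (nat_lit 19732815)) p15_31_0 (nat_lit 4) (nat_lit 32) (nat_lit 33) = true := by decide +kernel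
def p15_31_0_33 : pfC (piC [(nat_lit 35065580), (nat_lit 23751559), (nat_lit 17719570), (nat_lit 11940226)] (nat_lit 19732815)) p15_31_0 (nat_lit 4) (nat_lit 33) (nat_lit 34) = true := by decide +kernel
def p15_31_0_34 : pfC (piC [(nat_lit 35065580), (nat_lit 23751559), (nat_lit 17719570), (nat_lit 11940226)] (nat_lit 19732815)) p15_31_0 (nat_lit 4) (nat_lit 34) (nat_lit 35) = true := by decide +kernel
def p15_31_0_35 : pfC (piC [(nat_lit 35065580), (nat_lit 23751559), (nat_lit 17719570), (nat_lit 11940226)] (nat_lit 19732815)) p15_31_0 (nat_lit 4) (nat_lit 35) (nat_lit 36) = true := by decide +kernel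
def p15_31_0_36 : pfC (piC [(nat_lit 35065580), (nat_lit 23751559), (nat_lit 17719570), (nat_lit 11940226)] (nat_lit 19732815)) p15_31_0 (nat_lit 4) (nat_lit 36) (nat_lit 37) = true := by decide +kernel
def p15_31_0_37 : pfC (piC [(nat_lit 35065580), (nat_lit 23751559), (nat_lit 17719570), (nat_lit 11940226)] (nat_lit 19732815)) p15_31_0 (nat_lit 4) (nat_lit 37) (nat_lit 38) = true := by decide +kernel
def p15_31_0_38 : pfC (piC [(nat_lit 35065580), (nat_lit 23751559), (nat_lit 17719570), (nat_lit 11940226)] (nat_lit 19732815)) p15_31_0 (nat_lit 4) (nat_lit 38) (nat_lit 39) = true := by decide +kernel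
def p15_31_0_39 : pfC (piC [(nat_lit 35065580), (nat_lit 23751559), (nat_lit 17719570), (nat_lit 11940226)] (nat_lit 19732815)) p15_31_0 (nat_lit 4) (nat_lit 39) (nat_lit 40) = true := by decide +kernel
def p15_31_0_40 : pfC (piC [(nat_lit 35065580), (nat_lit 23751559), (nat_lit 17719570), (nat_lit 11940226)] (nat_lit 19732815)) p15_31_0 (nat_lit 4) (nat_lit 40) (nat_lit 41) = true := by decide +kernel
def p15_31_0_41 : pfC (piC [(nat_lit 35065580), (nat_lit 23751559), (nat_lit 17719570), (nat_lit 11940226)] (nat_lit 19732815)) p15_31_0 (nat_lit 4) (nat_lit 41) (nat_lit 42) = true := by decide +kernel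
def p15_31_0_42 : pfC (piC [(nat_lit 35065580), (nat_lit 23751559), (nat_lit 17719570), (nat_lit 11940226)] (nat_lit 19732815)) p15_31_0 (nat_lit 4) (nat_lit 42) (nat_lit 43) = true := by decide +kernel
def p15_31_0_43 : pfC (piC [(nat_lit 35065580), (nat_lit 23751559), (nat_lit 17719570), (nat_lit 11940226)] (nat_lit 19732815)) p15_31_0 (nat_lit 4) (nat_lit 43) (nat_lit 44) = true := by decide +kernel
def p15_31_0_44 : pfC (piC [(nat_lit 35065580), (nat_lit 23751559), (nat_lit 17719570), (nat_lit 11940226)] (nat_lit 19732815)) p15_31_0 (nat_lit 4) (nat_lit 44) (nat_lit 45) = true := by decide +kernel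
def p15_31_0_45 : pfC (piC [(nat_lit 35065580), (nat_lit 23751559), (nat_lit 17719570), (nat_lit 11940226)] (nat_lit 19732815)) p15_31_0 (nat_lit 4) (nat_lit 45) (nat_lit 46) = true := by decide +kernel
def p15_31_0_46 : pfC (piC [(nat_lit 35065580), (nat_lit 23751559), (nat_lit 17719570), (nat_lit 11940226)] (nat_lit 19732815)) p15_31_0 (nat_lit 4) (nat_lit 46) (nat_lit 47) = true := by decide +kernel
def p15_31_0_47 : pfC (piC [(nat_lit 35065580), (nat_lit 23751559), (nat_lit 17719570), (nat_lit 11940226)] (nat_lit 19732815)) p15_31_0 (nat_lit 4) (nat_lit 47) (nat_lit 48) = true := by decide +kernel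
def p15_31_0_48 : pfC (piC [(nat_lit 35065580), (nat_lit 23751559), (nat_lit 17719570), (nat_lit 11940226)] (nat_lit 19732815)) p15_31_0 (nat_lit 4) (nat_lit 48) (nat_lit 49) = true := by decide +kernel
def p15_31_0_49 : pfC (piC [(nat_lit 35065580), (nat_lit 23751559), (nat_lit 17719570), (nat_lit 11940226)] (nat_lit 19732815)) p15_31_0 (nat_lit 4) (nat_lit 49) (nat_lit 50) = true := by decide +kernel
def p15_31_0_50 : pfC (piC [(nat_lit 35065580), (nat_lit 23751559), (nat_lit 17719570), (nat_lit 11940226)] (nat_lit 19732815)) p15_31_0 (nat_lit 4) (nat_lit 50) (nat_lit 51) = true := by decide +kernel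
def p15_31_0_51 : pfC (piC [(nat_lit 35065580), (nat_lit 23751559), (nat_lit 17719570), (nat_lit 11940226)] (nat_lit 19732815)) p15_31_0 (nat_lit 4) (nat_lit 51) (nat_lit 52) = true := by decide +kernel
def p15_31_0_52 : pfC (piC [(nat_lit 35065580), (nat_lit 23751559), (nat_lit 17719570), (nat_lit 11940226)] (nat_lit 19732815)) p15_31_0 (nat_lit 4) (nat_lit 52) (nat_lit 53) = true := by decide +kernel
def p15_31_0_53 : pfC (piC [(nat_lit 35065580), (nat_lit 23751559), (nat_lit 17719570), (nat_lit 11940226)] (nat_lit 19732815)) p15_31_0 (nat_lit 4) (nat_lit 53) (nat_lit 54) = true := by decide +kernel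
def p15_31_0_54 : pfC (piC [(nat_lit 35065580), (nat_lit 23751559), (nat_lit 17719570), (nat_lit 11940226)] (nat_lit 19732815)) p15_31_0 (nat_lit 4) (nat_lit 54) (nat_lit 55) = true := by decide +kernel
def p15_31_0_55 : pfC (piC [(nat_lit 35065580), (nat_lit 23751559), (nat_lit 17719570), (nat_lit 11940226)] (nat_lit 19732815)) p15_31_0 (nat_lit 4) (nat_lit 55) (nat_lit 56) = true := by decide +kernel
def p15_31_0_56 : pfC (piC [(nat_lit 35065580), (nat_lit 23751559), (nat_lit 17719570), (nat_lit 11940226)] (nat_lit 19732815)) p15_31_0 (nat_lit 4) (nat_lit 56) (nat_lit 57) = true := by decide +kernel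
def p15_31_0_57 : pfC (piC [(nat_lit 35065580), (nat_lit 23751559), (nat_lit 17719570), (nat_lit 11940226)] (nat_lit 19732815)) p15_31_0 (nat_lit 4) (nat_lit 57) (nat_lit 58) = true := by decide +kernel
def p15_31_0_58 : pfC (piC [(nat_lit 35065580), (nat_lit 23751559), (nat_lit 17719570), (nat_lit 11940226)] (nat_lit 19732815)) p15_31_0 (nat_lit 4) (nat_lit 58) (nat_lit 59) = true := by decide +kernel
def p15_31_0_59 : pfC (piC [(nat_lit 35065580), (nat_lit 23751559), (nat_lit 17719570), (nat_lit 11940226)] (nat_lit 19732815)) p15_31_0 (nat_lit 4) (nat_lit 59) (nat_lit 60) = true := by decide +kernel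
def p15_31_0_60 : pfC (piC [(nat_lit 35065580), (nat_lit 23751559), (nat_lit 17719570), (nat_lit 11940226)] (nat_lit 19732815)) p15_31_0 (nat_lit 4) (nat_lit 60) (nat_lit 61) = true := by decide +kernel
def p15_31_0_61 : pfC (piC [(nat_lit 35065580), (nat_lit 23751559), (nat_lit 17719570), (nat_lit 11940226)] (nat_lit 19732815)) p15_31_0 (nat_lit 4) (nat_lit 61) (nat_lit 62) = true := by decide +kernel
def p15_31_0_62 : pfC (piC [(nat_lit 35065580), (nat_lit 23751559), (nat_lit 17719570), (nat_lit 11940226)] (nat_lit 19732815)) p15_31_0 (nat_lit 4) (nat_lit 62) (nat_lit 63) = true := by decide +kernel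
def p15_31_0_63 : pfC (piC [(nat_lit 35065580), (nat_lit 23751559), (nat_lit 17719570), (nat_lit 11940226)] (nat_lit 19732815)) p15_31_0 (nat_lit 4) (nat_lit 63) (nat_lit 64) = true := by decide +kernel
def p15_31_0_64 : pfC (piC [(nat_lit 35065580), (nat_lit 23751559), (nat_lit 17719570), (nat_lit 11940226)] (nat_lit 19732815)) p15_31_0 (nat_lit 4) (nat_lit 64) (nat_lit 65) = true := by decide +kernel
def p15_31_0_65 : pfC (piC [(nat_lit 35065580), (nat_lit 23751559), (nat_lit 17719570), (nat_lit 11940226)] (nat_lit 19732815)) p15_31_0 (nat_lit 4) (nat_lit 65) (nat_lit 66) = true := by decide +kernel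
def p15_31_0_66 : pfC (piC [(nat_lit 35065580), (nat_lit 23751559), (nat_lit 17719570), (nat_lit 11940226)] (nat_lit 19732815)) p15_31_0 (nat_lit 4) (nat_lit 66) (nat_lit 67) = true := by decide +kernel
def p15_31_0_67 : pfC (piC [(nat_lit 35065580), (nat_lit 23751559), (nat_lit 17719570), (nat_lit 11940226)] (nat_lit 19732815)) p15_31_0 (nat_lit 4) (nat_lit 67) (nat_lit 68) = true := by decide +kernel
def p15_31_0_68 : pfC (piC [(nat_lit 35065580), (nat_lit 23751559), (nat_lit 17719570), (nat_lit 11940226)] (nat_lit 19732815)) p15_31_0 (nat_lit 4) (nat_lit 68) (nat_lit 69) = true := by decide +kernel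
def p15_31_0_69 : pfC (piC [(nat_lit 35065580), (nat_lit 23751559), (nat_lit 17719570), (nat_lit 11940226)] (nat_lit 19732815)) p15_31_0 (nat_lit 4) (nat_lit 69) (nat_lit 70) = true := by decide +kernel
def p15_31_0_70 : pfC (piC [(nat_lit 35065580), (nat_lit 23751559), (nat_lit 17719570), (nat_lit 11940226)] (nat_lit 19732815)) p15_31_0 (nat_lit 4) (nat_lit 70) (nat_lit 71) = true := by decide +kernel
def p15_31_0_71 : pfC (piC [(nat_lit 35065580), (nat_lit 23751559), (nat_lit 17719570), (nat_lit 11940226)] (nat_lit 19732815)) p15_31_0 (nat_lit 4) (nat_lit 71) (nat_lit 72) = true := by decide +kernel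
def p15_31_0_72 : pfC (piC [(nat_lit 35065580), (nat_lit 23751559), (nat_lit 17719570), (nat_lit 11940226)] (nat_lit 19732815)) p15_31_0 (nat_lit 4) (nat_lit 72) (nat_lit 73) = true := by decide +kernel
def p15_31_0_73 : pfC (piC [(nat_lit 35065580), (nat_lit 23751559), (nat_lit 17719570), (nat_lit 11940226)] (nat_lit 19732815)) p15_31_0 (nat_lit 4) (nat_lit 73) (nat_lit 74) = true := by decide +kernel
def p15_31_0_74 : pfC (piC [(nat_lit 35065580), (nat_lit 23751559), (nat_lit 17719570), (nat_lit 11940226)] (nat_lit 19732815)) p15_31_0 (nat_lit 4) (nat_lit 74) (nat_lit 75) = true := by decide +kernel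
def p15_31_0_75 : pfC (piC [(nat_lit 35065580), (nat_lit 23751559), (nat_lit 17719570), (nat_lit 11940226)] (nat_lit 19732815)) p15_31_0 (nat_lit 4) (nat_lit 75) (nat_lit 76) = true := by decide +kernel
def p15_31_0_76 : pfC (piC [(nat_lit 35065580), (nat_lit 23751559), (nat_lit 17719570), (nat_lit 11940226)] (nat_lit 19732815)) p15_31_0 (nat_lit 4) (nat_lit 76) (nat_lit 77) = true := by decide +kernel
def p15_31_0_77 : pfC (piC [(nat_lit 35065580), (nat_lit 23751559), (nat_lit 17719570), (nat_lit 11940226)] (nat_lit 19732815)) p15_31_0 (nat_lit 4) (nat_lit 77) (nat_lit 78) = true := by decide +kernel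
def p15_31_0_78 : pfC (piC [(nat_lit 35065580), (nat_lit 23751559), (nat_lit 17719570), (nat_lit 11940226)] (nat_lit 19732815)) p15_31_0 (nat_lit 4) (nat_lit 78) (nat_lit 79) = true := by decide +kernel
def p15_31_0_79 : pfC (piC [(nat_lit 35065580), (nat_lit 23751559), (nat_lit 17719570), (nat_lit 11940226)] (nat_lit 19732815)) p15_31_0 (nat_lit 4) (nat_lit 79) (nat_lit 80) = true := by decide +kernel
def p15_31_0_80 : pfC (piC [(nat_lit 35065580), (nat_lit 23751559), (nat_lit 17719570), (nat_lit 11940226)] (nat_lit 19732815)) p15_31_0 (nat_lit 4) (nat_lit 80) (nat_lit 81) = true := by decide +kernel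
def p15_31_0_81 : pfC (piC [(nat_lit 35065580), (nat_lit 23751559), (nat_lit 17719570), (nat_lit 11940226)] (nat_lit 19732815)) p15_31_0 (nat_lit 4) (nat_lit 81) (nat_lit 82) = true := by decide +kernel
def p15_31_0_82 : pfC (piC [(nat_lit 35065580), (nat_lit 23751559), (nat_lit 17719570), (nat_lit 11940226)] (nat_lit 19732815)) p15_31_0 (nat_lit 4) (nat_lit 82) (nat_lit 83) = true := by decide +kernel
def p15_31_0_83 : pfC (piC [(nat_lit 35065580), (nat_lit 23751559), (nat_lit 17719570), (nat_lit 11940226)] (nat_lit 19732815)) p15_31_0 (nat_lit 4) (nat_lit 83) (nat_lit 84) = true := by decide +kernel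
def p15_31_0_84 : pfC (piC [(nat_lit 35065580), (nat_lit 23751559), (nat_lit 17719570), (nat_lit 11940226)] (nat_lit 19732815)) p15_31_0 (nat_lit 4) (nat_lit 84) (nat_lit 85) = true := by decide +kernel
def p15_31_0_85 : pfC (piC [(nat_lit 35065580), (nat_lit 23751559), (nat_lit 17719570), (nat_lit 11940226)] (nat_lit 19732815)) p15_31_0 (nat_lit 4) (nat_lit 85) (nat_lit 86) = true := by decide +kernel
def p15_31_0_86 : pfC (piC [(nat_lit 35065580), (nat_lit 23751559), (nat_lit 17719570), (nat_lit 11940226)] (nat_lit 19732815)) p15_31_0 (nat_lit 4) (nat_lit 86) (nat_lit 87) = true := by decide +kernel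
def p15_31_0_87 : pfC (piC [(nat_lit 35065580), (nat_lit 23751559), (nat_lit 17719570), (nat_lit 11940226)] (nat_lit 19732815)) p15_31_0 (nat_lit 4) (nat_lit 87) (nat_lit 88) = true := by decide +kernel
def p15_31_0_88 : pfC (piC [(nat_lit 35065580), (nat_lit 23751559), (nat_lit 17719570), (nat_lit 11940226)] (nat_lit 19732815)) p15_31_0 (nat_lit 4) (nat_lit 88) (nat_lit 89) = true := by decide +kernel
def p15_31_0_89 : pfC (piC [(nat_lit 35065580), (nat_lit 23751559), (nat_lit 17719570), (nat_lit 11940226)] (nat_lit 19732815)) p15_31_0 (nat_lit 4) (nat_lit 89) (nat_lit 90) = true := by decide +kernel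
def p15_31_0_90 : pfC (piC [(nat_lit 35065580), (nat_lit 23751559), (nat_lit 17719570), (nat_lit 11940226)] (nat_lit 19732815)) p15_31_0 (nat_lit 4) (nat_lit 90) (nat_lit 91) = true := by decide +kernel
def p15_31_0_91 : pfC (piC [(nat_lit 35065580), (nat_lit 23751559), (nat_lit 17719570), (nat_lit 11940226)] (nat_lit 19732815)) p15_31_0 (nat_lit 4) (nat_lit 91) (nat_lit 92) = true := by decide +kernel
def p15_31_0_92 : pfC (piC [(nat_lit 35065580), (nat_lit 23751559), (nat_lit 17719570), (nat_lit 11940226)] (nat_lit 19732815)) p15_31_0 (nat_lit 4) (nat_lit 92) (nat_lit 93) = true := by decide +kernel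
def p15_31_0_93 : pfC (piC [(nat_lit 35065580), (nat_lit 23751559), (nat_lit 17719570), (nat_lit 11940226)] (nat_lit 19732815)) p15_31_0 (nat_lit 4) (nat_lit 93) (nat_lit 94) = true := by decide +kernel
def p15_31_0_94 : pfC (piC [(nat_lit 35065580), (nat_lit 23751559), (nat_lit 17719570), (nat_lit 11940226)] (nat_lit 19732815)) p15_31_0 (nat_lit 4) (nat_lit 94) (nat_lit 95) = true := by decide +kernel
def p15_31_0_95 : pfC (piC [(nat_lit 35065580), (nat_lit 23751559), (nat_lit 17719570), (nat_lit 11940226)] (nat_lit 19732815)) p15_31_0 (nat_lit 4) (nat_lit 95) (nat_lit 96) = true := by decide +kernel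
def p15_31_0_96 : pfC (piC [(nat_lit 35065580), (nat_lit 23751559), (nat_lit 17719570), (nat_lit 11940226)] (nat_lit 19732815)) p15_31_0 (nat_lit 4) (nat_lit 96) (nat_lit 97) = true := by decide +kernel
def p15_31_0_97 : pfC (piC [(nat_lit 35065580), (nat_lit 23751559), (nat_lit 17719570), (nat_lit 11940226)] (nat_lit 19732815)) p15_31_0 (nat_lit 4) (nat_lit 97) (nat_lit 98) = true := by decide +kernel
def p15_31_0_98 : pfC (piC [(nat_lit 35065580), (nat_lit 23751559), (nat_lit 17719570), (nat_lit 11940226)] (nat_lit 19732815)) p15_31_0 (nat_lit 4) (nat_lit 98) (nat_lit 99) = true := by decide +kernel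
def p15_31_0_99 : pfC (piC [(nat_lit 35065580), (nat_lit 23751559), (nat_lit 17719570), (nat_lit 11940226)] (nat_lit 19732815)) p15_31_0 (nat_lit 4) (nat_lit 99) (nat_lit 100) = true := by decide +kernel
def p15_31_0_100 : pfC (piC [(nat_lit 35065580), (nat_lit 23751559), (nat_lit 17719570), (nat_lit 11940226)] (nat_lit 19732815)) p15_31_0 (nat_lit 4) (nat_lit 100) (nat_lit 101) = true := by decide +kernel
def p15_31_0_101 : pfC (piC [(nat_lit 35065580), (nat_lit 23751559), (nat_lit 17719570), (nat_lit 11940226)] (nat_lit 19732815)) p15_31_0 (nat_lit 4) (nat_lit 101) (nat_lit 102) = true := by decide +kernel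
def p15_31_0_102 : pfC (piC [(nat_lit 35065580), (nat_lit 23751559), (nat_lit 17719570), (nat_lit 11940226)] (nat_lit 19732815)) p15_31_0 (nat_lit 4) (nat_lit 102) (nat_lit 103) = true := by decide +kernel
def p15_31_0_103 : pfC (piC [(nat_lit 35065580), (nat_lit 23751559), (nat_lit 17719570), (nat_lit 11940226)] (nat_lit 19732815)) p15_31_0 (nat_lit 4) (nat_lit 103) (nat_lit 104) = true := by decide +kernel
def p15_31_0_104 : pfC (piC [(nat_lit 35065580), (nat_lit 23751559), (nat_lit 17719570), (nat_lit 11940226)] (nat_lit 19732815)) p15_31_0 (nat_lit 4) (nat_lit 104) (nat_lit 105) = true := by decide +kernel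
def p15_31_0_105 : pfC (piC [(nat_lit 35065580), (nat_lit 23751559), (nat_lit 17719570), (nat_lit 11940226)] (nat_lit 19732815)) p15_31_0 (nat_lit 4) (nat_lit 105) (nat_lit 106) = true := by decide +kernel
def p15_31_0_106 : pfC (piC [(nat_lit 35065580), (nat_lit 23751559), (nat_lit 17719570), (nat_lit 11940226)] (nat_lit 19732815)) p15_31_0 (nat_lit 4) (nat_lit 106) (nat_lit 107) = true := by decide +kernel
def p15_31_0_107 : pfC (piC [(nat_lit 35065580), (nat_lit 23751559), (nat_lit 17719570), (nat_lit 11940226)] (nat_lit 19732815)) p15_31_0 (nat_lit 4) (nat_lit 107) (nat_lit 108) = true := by decide +kernel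
def p15_31_0_108 : pfC (piC [(nat_lit 35065580), (nat_lit 23751559), (nat_lit 17719570), (nat_lit 11940226)] (nat_lit 19732815)) p15_31_0 (nat_lit 4) (nat_lit 108) (nat_lit 109) = true := by decide +kernel
def p15_31_0_109 : pfC (piC [(nat_lit 35065580), (nat_lit 23751559), (nat_lit 17719570), (nat_lit 11940226)] (nat_lit 19732815)) p15_31_0 (nat_lit 4) (nat_lit 109) (nat_lit 110) = true := by decide +kernel
def p15_31_0_110 : pfC (piC [(nat_lit 35065580), (nat_lit 23751559), (nat_lit 17719570), (nat_lit 11940226)] (nat_lit 19732815)) p15_31_0 (nat_lit 4) (nat_lit 110) (nat_lit 111) = true := by decide +kernel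
def p15_31_0_111 : pfC (piC [(nat_lit 35065580), (nat_lit 23751559), (nat_lit 17719570), (nat_lit 11940226)] (nat_lit 19732815)) p15_31_0 (nat_lit 4) (nat_lit 111) (nat_lit 112) = true := by decide +kernel
def p15_31_0_112 : pfC (piC [(nat_lit 35065580), (nat_lit 23751559), (nat_lit 17719570), (nat_lit 11940226)] (nat_lit 19732815)) p15_31_0 (nat_lit 4) (nat_lit 112) (nat_lit 113) = true := by decide +kernel
def p15_31_0_113 : pfC (piC [(nat_lit 35065580), (nat_lit 23751559), (nat_lit 17719570), (nat_lit 11940226)] (nat_lit 19732815)) p15_31_0 (nat_lit 4) (nat_lit 113) (nat_lit 114) = true := by decide +kernel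
def p15_31_0_114 : pfC (piC [(nat_lit 35065580), (nat_lit 23751559), (nat_lit 17719570), (nat_lit 11940226)] (nat_lit 19732815)) p15_31_0 (nat_lit 4) (nat_lit 114) (nat_lit 115) = true := by decide +kernel
def p15_31_0_115 : pfC (piC [(nat_lit 35065580), (nat_lit 23751559), (nat_lit 17719570), (nat_lit 11940226)] (nat_lit 19732815)) p15_31_0 (nat_lit 4) (nat_lit 115) (nat_lit 116) = true := by decide +kernel
def p15_31_0_116 : pfC (piC [(nat_lit 35065580), (nat_lit 23751559), (nat_lit 17719570), (nat_lit 11940226)] (nat_lit 19732815)) p15_31_0 (nat_lit 4) (nat_lit 116) (nat_lit 117) = true := by decide +kernel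
def p15_31_0_117 : pfC (piC [(nat_lit 35065580), (nat_lit 23751559), (nat_lit 17719570), (nat_lit 11940226)] (nat_lit 19732815)) p15_31_0 (nat_lit 4) (nat_lit 117) (nat_lit 118) = true := by decide +kernel
def p15_31_0_118 : pfC (piC [(nat_lit 35065580), (nat_lit 23751559), (nat_lit 17719570), (nat_lit 11940226)] (nat_lit 19732815)) p15_31_0 (nat_lit 4) (nat_lit 118) (nat_lit 119) = true := by decide +kernel
def p15_31_0_119 : pfC (piC [(nat_lit 35065580), (nat_lit 23751559), (nat_lit 17719570), (nat_lit 11940226)] (nat_lit 19732815)) p15_31_0 (nat_lit 4) (nat_lit 119) (nat_lit 120) = true := by decide +kernel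
def p15_31_0_120 : pfC (piC [(nat_lit 35065580), (nat_lit 23751559), (nat_lit 17719570), (nat_lit 11940226)] (nat_lit 19732815)) p15_31_0 (nat_lit 4) (nat_lit 120) (nat_lit 121) = true := by decide +kernel
def p15_31_0_121 : pfC (piC [(nat_lit 35065580), (nat_lit 23751559), (nat_lit 17719570), (nat_lit 11940226)] (nat_lit 19732815)) p15_31_0 (nat_lit 4) (nat_lit 121) (nat_lit 122) = true := by decide +kernel
def p15_31_0_122 : pfC (piC [(nat_lit 35065580), (nat_lit 23751559), (nat_lit 17719570), (nat_lit 11940226)] (nat_lit 19732815)) p15_31_0 (nat_lit 4) (nat_lit 122) (nat_lit 123) = true := by decide +kernel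
def p15_31_0_123 : pfC (piC [(nat_lit 35065580), (nat_lit 23751559), (nat_lit 17719570), (nat_lit 11940226)] (nat_lit 19732815)) p15_31_0 (nat_lit 4) (nat_lit 123) (nat_lit 124) = true := by decide +kernel
def p15_31_0_124 : pfC (piC [(nat_lit 35065580), (nat_lit 23751559), (nat_lit 17719570), (nat_lit 11940226)] (nat_lit 19732815)) p15_31_0 (nat_lit 4) (nat_lit 124) (nat_lit 125) = true := by decide +kernel
def p15_31_0_125 : pfC (piC [(nat_lit 35065580), (nat_lit 23751559), (nat_lit 17719570), (nat_lit 11940226)] (nat_lit 19732815)) p15_31_0 (nat_lit 4) (nat_lit 125) (nat_lit 126) = true := by decide +kernel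
def p15_31_0_126 : pfC (piC [(nat_lit 35065580), (nat_lit 23751559), (nat_lit 17719570), (nat_lit 11940226)] (nat_lit 19732815)) p15_31_0 (nat_lit 4) (nat_lit 126) (nat_lit 127) = true := by decide +kernel
def p15_31_0_127 : pfC (piC [(nat_lit 35065580), (nat_lit 23751559), (nat_lit 17719570), (nat_lit 11940226)] (nat_lit 19732815)) p15_31_0 (nat_lit 4) (nat_lit 127) (nat_lit 128) = true := by decide +kernel
def p15_31_0_128 : pfC (piC [(nat_lit 35065580), (nat_lit 23751559), (nat_lit 17719570), (nat_lit 11940226)] (nat_lit 19732815)) p15_31_0 (nat_lit 4) (nat_lit 128) (nat_lit 129) = true := by decide +kernel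
def p15_31_0_129 : pfC (piC [(nat_lit 35065580), (nat_lit 23751559), (nat_lit 17719570), (nat_lit 11940226)] (nat_lit 19732815)) p15_31_0 (nat_lit 4) (nat_lit 129) (nat_lit 130) = true := by decide +kernel
def p15_31_0_130 : pfC (piC [(nat_lit 35065580), (nat_lit 23751559), (nat_lit 17719570), (nat_lit 11940226)] (nat_lit 19732815)) p15_31_0 (nat_lit 4) (nat_lit 130) (nat_lit 131) = true := by decide +kernel
def p15_31_0_131 : pfC (piC [(nat_lit 35065580), (nat_lit 23751559), (nat_lit 17719570), (nat_lit 11940226)] (nat_lit 19732815)) p15_31_0 (nat_lit 4) (nat_lit 131) (nat_lit 132) = true := by decide +kernel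
def p15_31_0_132 : pfC (piC [(nat_lit 35065580), (nat_lit 23751559), (nat_lit 17719570), (nat_lit 11940226)] (nat_lit 19732815)) p15_31_0 (nat_lit 4) (nat_lit 132) (nat_lit 133) = true := by decide +kernel
def p15_31_0_133 : pfC (piC [(nat_lit 35065580), (nat_lit 23751559), (nat_lit 17719570), (nat_lit 11940226)] (nat_lit 19732815)) p15_31_0 (nat_lit 4) (nat_lit 133) (nat_lit 134) = true := by decide +kernel
def p15_31_0_134 : pfC (piC [(nat_lit 35065580), (nat_lit 23751559), (nat_lit 17719570), (nat_lit 11940226)] (nat_lit 19732815)) p15_31_0 (nat_lit 4) (nat_lit 134) (nat_lit 135) = true := by decide +kernel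
def p15_31_0_135 : pfC (piC [(nat_lit 35065580), (nat_lit 23751559), (nat_lit 17719570), (nat_lit 11940226)] (nat_lit 19732815)) p15_31_0 (nat_lit 4) (nat_lit 135) (nat_lit 136) = true := by decide +kernel
def p15_31_0_136 : pfC (piC [(nat_lit 35065580), (nat_lit 23751559), (nat_lit 17719570), (nat_lit 11940226)] (nat_lit 19732815)) p15_31_0 (nat_lit 4) (nat_lit 136) (nat_lit 137) = true := by decide +kernel
def p15_31_0_137 : pfC (piC [(nat_lit 35065580), (nat_lit 23751559), (nat_lit 17719570), (nat_lit 11940226)] (nat_lit 19732815)) p15_31_0 (nat_lit 4) (nat_lit 137) (nat_lit 138) = true := by decide +kernel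
def p15_31_0_138 : pfC (piC [(nat_lit 35065580), (nat_lit 23751559), (nat_lit 17719570), (nat_lit 11940226)] (nat_lit 19732815)) p15_31_0 (nat_lit 4) (nat_lit 138) (nat_lit 139) = true := by decide +kernel
def p15_31_0_139 : pfC (piC [(nat_lit 35065580), (nat_lit 23751559), (nat_lit 17719570), (nat_lit 11940226)] (nat_lit 19732815)) p15_31_0 (nat_lit 4) (nat_lit 139) (nat_lit 140) = true := by decide +kernel
def p15_31_0_140 : pfC (piC [(nat_lit 35065580), (nat_lit 23751559), (nat_lit 17719570), (nat_lit 11940226)] (nat_lit 19732815)) p15_31_0 (nat_lit 4) (nat_lit 140) (nat_lit 141) = true := by decide +kernel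
def p15_31_0_141 : pfC (piC [(nat_lit 35065580), (nat_lit 23751559), (nat_lit 17719570), (nat_lit 11940226)] (nat_lit 19732815)) p15_31_0 (nat_lit 4) (nat_lit 141) (nat_lit 142) = true := by decide +kernel
def p15_31_0_142 : pfC (piC [(nat_lit 35065580), (nat_lit 23751559), (nat_lit 17719570), (nat_lit 11940226)] (nat_lit 19732815)) p15_31_0 (nat_lit 4) (nat_lit 142) (nat_lit 143) = true := by decide +kernel
def p15_31_0_143 : pfC (piC [(nat_lit 35065580), (nat_lit 23751559), (nat_lit 17719570), (nat_lit 11940226)] (nat_lit 19732815)) p15_31_0 (nat_lit 4) (nat_lit 143) (nat_lit 144) = true := by decide +kernel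
def p15_31_0_144 : pfC (piC [(nat_lit 35065580), (nat_lit 23751559), (nat_lit 17719570), (nat_lit 11940226)] (nat_lit 19732815)) p15_31_0 (nat_lit 4) (nat_lit 144) (nat_lit 145) = true := by decide +kernel
def p15_31_0_145 : pfC (piC [(nat_lit 35065580), (nat_lit 23751559), (nat_lit 17719570), (nat_lit 11940226)] (nat_lit 19732815)) p15_31_0 (nat_lit 4) (nat_lit 145) (nat_lit 146) = true := by decide +kernel
def p15_31_0_146 : pfC (piC [(nat_lit 35065580), (nat_lit 23751559), (nat_lit 17719570), (nat_lit 11940226)] (nat_lit 19732815)) p15_31_0 (nat_lit 4) (nat_lit 146) (nat_lit 147) = true := by decide +kernel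
def p15_31_0_147 : pfC (piC [(nat_lit 35065580), (nat_lit 23751559), (nat_lit 17719570), (nat_lit 11940226)] (nat_lit 19732815)) p15_31_0 (nat_lit 4) (nat_lit 147) (nat_lit 148) = true := by decide +kernel
def p15_31_0_148 : pfC (piC [(nat_lit 35065580), (nat_lit 23751559), (nat_lit 17719570), (nat_lit 11940226)] (nat_lit 19732815)) p15_31_0 (nat_lit 4) (nat_lit 148) (nat_lit 149) = true := by decide +kernel
def p15_31_0_149 : pfC (piC [(nat_lit 35065580), (nat_lit 23751559), (nat_lit 17719570), (nat_lit 11940226)] (nat_lit 19732815)) p15_31_0 (nat_lit 4) (nat_lit 149) (nat_lit 150) = true := by decide +kernel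
def p15_31_0_150 : pfC (piC [(nat_lit 35065580), (nat_lit 23751559), (nat_lit 17719570), (nat_lit 11940226)] (nat_lit 19732815)) p15_31_0 (nat_lit 4) (nat_lit 150) (nat_lit 151) = true := by decide +kernel
def p15_31_0_151 : pfC (piC [(nat_lit 35065580), (nat_lit 23751559), (nat_lit 17719570), (nat_lit 11940226)] (nat_lit 19732815)) p15_31_0 (nat_lit 4) (nat_lit 151) (nat_lit 152) = true := by decide +kernel
def p15_31_0_152 : pfC (piC [(nat_lit 35065580), (nat_lit 23751559), (nat_lit 17719570), (nat_lit 11940226)] (nat_lit 19732815)) p15_31_0 (nat_lit 4) (nat_lit 152) (nat_lit 153) = true := by decide +kernel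
def p15_31_0_153 : pfC (piC [(nat_lit 35065580), (nat_lit 23751559), (nat_lit 17719570), (nat_lit 11940226)] (nat_lit 19732815)) p15_31_0 (nat_lit 4) (nat_lit 153) (nat_lit 154) = true := by decide +kernel
def p15_31_0_154 : pfC (piC [(nat_lit 35065580), (nat_lit 23751559), (nat_lit 17719570), (nat_lit 11940226)] (nat_lit 19732815)) p15_31_0 (nat_lit 4) (nat_lit 154) (nat_lit 155) = true := by decide +kernel
def p15_31_0_155 : pfC (piC [(nat_lit 35065580), (nat_lit 23751559), (nat_lit 17719570), (nat_lit 11940226)] (nat_lit 19732815)) p15_31_0 (nat_lit 4) (nat_lit 155) (nat_lit 156) = true := by decide +kernel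
def p15_31_0_156 : pfC (piC [(nat_lit 35065580), (nat_lit 23751559), (nat_lit 17719570), (nat_lit 11940226)] (nat_lit 19732815)) p15_31_0 (nat_lit 4) (nat_lit 156) (nat_lit 157) = true := by decide +kernel
def p15_31_0_157 : pfC (piC [(nat_lit 35065580), (nat_lit 23751559), (nat_lit 17719570), (nat_lit 11940226)] (nat_lit 19732815)) p15_31_0 (nat_lit 4) (nat_lit 157) (nat_lit 158) = true := by decide +kernel
def p15_31_0_158 : pfC (piC [(nat_lit 35065580), (nat_lit 23751559), (nat_lit 17719570), (nat_lit 11940226)] (nat_lit 19732815)) p15_31_0 (nat_lit 4) (nat_lit 158) (nat_lit 159) = true := by decide +kernel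
def p15_31_0_159 : pfC (piC [(nat_lit 35065580), (nat_lit 23751559), (nat_lit 17719570), (nat_lit 11940226)] (nat_lit 19732815)) p15_31_0 (nat_lit 4) (nat_lit 159) (nat_lit 160) = true := by decide +kernel
def p15_31_0_160 : pfC (piC [(nat_lit 35065580), (nat_lit 23751559), (nat_lit 17719570), (nat_lit 11940226)] (nat_lit 19732815)) p15_31_0 (nat_lit 4) (nat_lit 160) (nat_lit 161) = true := by decide +kernel
def p15_31_0_161 : pfC (piC [(nat_lit 35065580), (nat_lit 23751559), (nat_lit 17719570), (nat_lit 11940226)] (nat_lit 19732815)) p15_31_0 (nat_lit 4) (nat_lit 161) (nat_lit 162) = true := by decide +kernel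
def p15_31_0_162 : pfC (piC [(nat_lit 35065580), (nat_lit 23751559), (nat_lit 17719570), (nat_lit 11940226)] (nat_lit 19732815)) p15_31_0 (nat_lit 4) (nat_lit 162) (nat_lit 163) = true := by decide +kernel
def p15_31_0_163 : pfC (piC [(nat_lit 35065580), (nat_lit 23751559), (nat_lit 17719570), (nat_lit 11940226)] (nat_lit 19732815)) p15_31_0 (nat_lit 4) (nat_lit 163) (nat_lit 164) = true := by decide +kernel
def p15_31_0_164 : pfC (piC [(nat_lit 35065580), (nat_lit 23751559), (nat_lit 17719570), (nat_lit 11940226)] (nat_lit 19732815)) p15_31_0 (nat_lit 4) (nat_lit 164) (nat_lit 165) = true := by decide +kernel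
def p15_31_0_165 : pfC (piC [(nat_lit 35065580), (nat_lit 23751559), (nat_lit 17719570), (nat_lit 11940226)] (nat_lit 19732815)) p15_31_0 (nat_lit 4) (nat_lit 165) (nat_lit 166) = true := by decide +kernel
def p15_31_0_166 : pfC (piC [(nat_lit 35065580), (nat_lit 23751559), (nat_lit 17719570), (nat_lit 11940226)] (nat_lit 19732815)) p15_31_0 (nat_lit 4) (nat_lit 166) (nat_lit 167) = true := by decide +kernel
def p15_31_0_167 : pfC (piC [(nat_lit 35065580), (nat_lit 23751559), (nat_lit 17719570), (nat_lit 11940226)] (nat_lit 19732815)) p15_31_0 (nat_lit 4) (nat_lit 167) (nat_lit 168) = true := by decide +kernel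
def p15_31_0_168 : pfC (piC [(nat_lit 35065580), (nat_lit 23751559), (nat_lit 17719570), (nat_lit 11940226)] (nat_lit 19732815)) p15_31_0 (nat_lit 4) (nat_lit 168) (nat_lit 169) = true := by decide +kernel
def p15_31_0_169 : pfC (piC [(nat_lit 35065580), (nat_lit 23751559), (nat_lit 17719570), (nat_lit 11940226)] (nat_lit 19732815)) p15_31_0 (nat_lit 4) (nat_lit 169) (nat_lit 170) = true := by decide +kernel
def p15_31_0_170 : pfC (piC [(nat_lit 35065580), (nat_lit 23751559), (nat_lit 17719570), (nat_lit 11940226)] (nat_lit 19732815)) p15_31_0 (nat_lit 4) (nat_lit 170) (nat_lit 171) = true := by decide +kernel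
def p15_31_0_171 : pfC (piC [(nat_lit 35065580), (nat_lit 23751559), (nat_lit 17719570), (nat_lit 11940226)] (nat_lit 19732815)) p15_31_0 (nat_lit 4) (nat_lit 171) (nat_lit 172) = true := by decide +kernel
def p15_31_0_172 : pfC (piC [(nat_lit 35065580), (nat_lit 23751559), (nat_lit 17719570), (nat_lit 11940226)] (nat_lit 19732815)) p15_31_0 (nat_lit 4) (nat_lit 172) (nat_lit 173) = true := by decide +kernel
def p15_31_0_173 : pfC (piC [(nat_lit 35065580), (nat_lit 23751559), (nat_lit 17719570), (nat_lit 11940226)] (nat_lit 19732815)) p15_31_0 (nat_lit 4) (nat_lit 173) (nat_lit 174) = true := by decide +kernel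
def p15_31_0_174 : pfC (piC [(nat_lit 35065580), (nat_lit 23751559), (nat_lit 17719570), (nat_lit 11940226)] (nat_lit 19732815)) p15_31_0 (nat_lit 4) (nat_lit 174) (nat_lit 175) = true := by decide +kernel
def p15_31_0_175 : pfC (piC [(nat_lit 35065580), (nat_lit 23751559), (nat_lit 17719570), (nat_lit 11940226)] (nat_lit 19732815)) p15_31_0 (nat_lit 4) (nat_lit 175) (nat_lit 176) = true := by decide +kernel
def p15_31_0_176 : pfC (piC [(nat_lit 35065580), (nat_lit 23751559), (nat_lit 17719570), (nat_lit 11940226)] (nat_lit 19732815)) p15_31_0 (nat_lit 4) (nat_lit 176) (nat_lit 177) = true := by decide +kernel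
def p15_31_0_177 : pfC (piC [(nat_lit 35065580), (nat_lit 23751559), (nat_lit 17719570), (nat_lit 11940226)] (nat_lit 19732815)) p15_31_0 (nat_lit 4) (nat_lit 177) (nat_lit 178) = true := by decide +kernel
def p15_31_0_178 : pfC (piC [(nat_lit 35065580), (nat_lit 23751559), (nat_lit 17719570), (nat_lit 11940226)] (nat_lit 19732815)) p15_31_0 (nat_lit 4) (nat_lit 178) (nat_lit 179) = true := by decide +kernel
def p15_31_0_179 : pfC (piC [(nat_lit 35065580), (nat_lit 23751559), (nat_lit 17719570), (nat_lit 11940226)] (nat_lit 19732815)) p15_31_0 (nat_lit 4) (nat_lit 179) (nat_lit 180) = true := by decide +kernel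
def p15_31_0_180 : pfC (piC [(nat_lit 35065580), (nat_lit 23751559), (nat_lit 17719570), (nat_lit 11940226)] (nat_lit 19732815)) p15_31_0 (nat_lit 4) (nat_lit 180) (nat_lit 181) = true := by decide +kernel
def p15_31_0_181 : pfC (piC [(nat_lit 35065580), (nat_lit 23751559), (nat_lit 17719570), (nat_lit 11940226)] (nat_lit 19732815)) p15_31_0 (nat_lit 4) (nat_lit 181) (nat_lit 182) = true := by decide +kernel
def p15_31_0_182 : pfC (piC [(nat_lit 35065580), (nat_lit 23751559), (nat_lit 17719570), (nat_lit 11940226)] (nat_lit 19732815)) p15_31_0 (nat_lit 4) (nat_lit 182) (nat_lit 183) = true := by decide +kernel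
def p15_31_0_183 : pfC (piC [(nat_lit 35065580), (nat_lit 23751559), (nat_lit 17719570), (nat_lit 11940226)] (nat_lit 19732815)) p15_31_0 (nat_lit 4) (nat_lit 183) (nat_lit 184) = true := by decide +kernel
def p15_31_0_184 : pfC (piC [(nat_lit 35065580), (nat_lit 23751559), (nat_lit 17719570), (nat_lit 11940226)] (nat_lit 19732815)) p15_31_0 (nat_lit 4) (nat_lit 184) (nat_lit 185) = true := by decide +kernel
def p15_31_0_185 : pfC (piC [(nat_lit 35065580), (nat_lit 23751559), (nat_lit 17719570), (nat_lit 11940226)] (nat_lit 19732815)) p15_31_0 (nat_lit 4) (nat_lit 185) (nat_lit 186) = true := by decide +kernel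
def p15_31_0_186 : pfC (piC [(nat_lit 35065580), (nat_lit 23751559), (nat_lit 17719570), (nat_lit 11940226)] (nat_lit 19732815)) p15_31_0 (nat_lit 4) (nat_lit 186) (nat_lit 187) = true := by decide +kernel
def p15_31_0_187 : pfC (piC [(nat_lit 35065580), (nat_lit 23751559), (nat_lit 17719570), (nat_lit 11940226)] (nat_lit 19732815)) p15_31_0 (nat_lit 4) (nat_lit 187) (nat_lit 188) = true := by decide +kernel
def p15_31_0_188 : pfC (piC [(nat_lit 35065580), (nat_lit 23751559), (nat_lit 17719570), (nat_lit 11940226)] (nat_lit 19732815)) p15_31_0 (nat_lit 4) (nat_lit 188) (nat_lit 189) = true := by decide +kernel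
def p15_31_0_189 : pfC (piC [(nat_lit 35065580), (nat_lit 23751559), (nat_lit 17719570), (nat_lit 11940226)] (nat_lit 19732815)) p15_31_0 (nat_lit 4) (nat_lit 189) (nat_lit 190) = true := by decide +kernel
def p15_31_0_190 : pfC (piC [(nat_lit 35065580), (nat_lit 23751559), (nat_lit 17719570), (nat_lit 11940226)] (nat_lit 19732815)) p15_31_0 (nat_lit 4) (nat_lit 190) (nat_lit 191) = true := by decide +kernel
def p15_31_0_191 : pfC (piC [(nat_lit 35065580), (nat_lit 23751559), (nat_lit 17719570), (nat_lit 11940226)] (nat_lit 19732815)) p15_31_0 (nat_lit 4) (nat_lit 191) (nat_lit 192) = true := by decide +kernel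
def p15_31_0_192 : pfC (piC [(nat_lit 35065580), (nat_lit 23751559), (nat_lit 17719570), (nat_lit 11940226)] (nat_lit 19732815)) p15_31_0 (nat_lit 4) (nat_lit 192) (nat_lit 193) = true := by decide +kernel
def p15_31_0_193 : pfC (piC [(nat_lit 35065580), (nat_lit 23751559), (nat_lit 17719570), (nat_lit 11940226)] (nat_lit 19732815)) p15_31_0 (nat_lit 4) (nat_lit 193) (nat_lit 194) = true := by decide +kernel
def p15_31_0_194 : pfC (piC [(nat_lit 35065580), (nat_lit 23751559), (nat_lit 17719570), (nat_lit 11940226)] (nat_lit 19732815)) p15_31_0 (nat_lit 4) (nat_lit 194) (nat_lit 195) = true := by decide +kernel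
def p15_31_0_195 : pfC (piC [(nat_lit 35065580), (nat_lit 23751559), (nat_lit 17719570), (nat_lit 11940226)] (nat_lit 19732815)) p15_31_0 (nat_lit 4) (nat_lit 195) (nat_lit 196) = true := by decide +kernel
def p15_31_0_196 : pfC (piC [(nat_lit 35065580), (nat_lit 23751559), (nat_lit 17719570), (nat_lit 11940226)] (nat_lit 19732815)) p15_31_0 (nat_lit 4) (nat_lit 196) (nat_lit 197) = true := by decide +kernel
def p15_31_0_197 : pfC (piC [(nat_lit 35065580), (nat_lit 23751559), (nat_lit 17719570), (nat_lit 11940226)] (nat_lit 19732815)) p15_31_0 (nat_lit 4) (nat_lit 197) (nat_lit 198) = true := by decide +kernel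
def p15_31_0_198 : pfC (piC [(nat_lit 35065580), (nat_lit 23751559), (nat_lit 17719570), (nat_lit 11940226)] (nat_lit 19732815)) p15_31_0 (nat_lit 4) (nat_lit 198) (nat_lit 199) = true := by decide +kernel
def p15_31_0_199 : pfC (piC [(nat_lit 35065580), (nat_lit 23751559), (nat_lit 17719570), (nat_lit 11940226)] (nat_lit 19732815)) p15_31_0 (nat_lit 4) (nat_lit 199) (nat_lit 200) = true := by decide +kernel
def p15_31_0_200 : pfC (piC [(nat_lit 35065580), (nat_lit 23751559), (nat_lit 17719570), (nat_lit 11940226)] (nat_lit 19732815)) p15_31_0 (nat_lit 4) (nat_lit 200) (nat_lit 201) = true := by decide +kernel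
def p15_31_0_201 : pfC (piC [(nat_lit 35065580), (nat_lit 23751559), (nat_lit 17719570), (nat_lit 11940226)] (nat_lit 19732815)) p15_31_0 (nat_lit 4) (nat_lit 201) (nat_lit 202) = true := by decide +kernel
def p15_31_0_202 : pfC (piC [(nat_lit 35065580), (nat_lit 23751559), (nat_lit 17719570), (nat_lit 11940226)] (nat_lit 19732815)) p15_31_0 (nat_lit 4) (nat_lit 202) (nat_lit 203) = true := by decide +kernel
def p15_31_0_203 : pfC (piC [(nat_lit 35065580), (nat_lit 23751559), (nat_lit 17719570), (nat_lit 11940226)] (nat_lit 19732815)) p15_31_0 (nat_lit 4) (nat_lit 203) (nat_lit 204) = true := by decide +kernel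
def p15_31_0_204 : pfC (piC [(nat_lit 35065580), (nat_lit 23751559), (nat_lit 17719570), (nat_lit 11940226)] (nat_lit 19732815)) p15_31_0 (nat_lit 4) (nat_lit 204) (nat_lit 205) = true := by decide +kernel
def p15_31_0_205 : pfC (piC [(nat_lit 35065580), (nat_lit 23751559), (nat_lit 17719570), (nat_lit 11940226)] (nat_lit 19732815)) p15_31_0 (nat_lit 4) (nat_lit 205) (nat_lit 206) = true := by decide +kernel
def p15_31_0_206 : pfC (piC [(nat_lit 35065580), (nat_lit 23751559), (nat_lit 17719570), (nat_lit 11940226)] (nat_lit 19732815)) p15_31_0 (nat_lit 4) (nat_lit 206) (nat_lit 207) = true := by decide +kernel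
def p15_31_0_207 : pfC (piC [(nat_lit 35065580), (nat_lit 23751559), (nat_lit 17719570), (nat_lit 11940226)] (nat_lit 19732815)) p15_31_0 (nat_lit 4) (nat_lit 207) (nat_lit 208) = true := by decide +kernel
def p15_31_0_208 : pfC (piC [(nat_lit 35065580), (nat_lit 23751559), (nat_lit 17719570), (nat_lit 11940226)] (nat_lit 19732815)) p15_31_0 (nat_lit 4) (nat_lit 208) (nat_lit 209) = true := by decide +kernel
def p15_31_0_209 : pfC (piC [(nat_lit 35065580), (nat_lit 23751559), (nat_lit 17719570), (nat_lit 11940226)] (nat_lit 19732815)) p15_31_0 (nat_lit 4) (nat_lit 209) (nat_lit 210) = true := by decide +kernel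
def p15_31_0_210 : pfC (piC [(nat_lit 35065580), (nat_lit 23751559), (nat_lit 17719570), (nat_lit 11940226)] (nat_lit 19732815)) p15_31_0 (nat_lit 4) (nat_lit 210) (nat_lit 211) = true := by decide +kernel
def p15_31_0_211 : pfC (piC [(nat_lit 35065580), (nat_lit 23751559), (nat_lit 17719570), (nat_lit 11940226)] (nat_lit 19732815)) p15_31_0 (nat_lit 4) (nat_lit 211) (nat_lit 212) = true := by decide +kernel
def p15_31_0_212 : pfC (piC [(nat_lit 35065580), (nat_lit 23751559), (nat_lit 17719570), (nat_lit 11940226)] (nat_lit 19732815)) p15_31_0 (nat_lit 4) (nat_lit 212) (nat_lit 213) = true := by decide +kernel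
def p15_31_0_213 : pfC (piC [(nat_lit 35065580), (nat_lit 23751559), (nat_lit 17719570), (nat_lit 11940226)] (nat_lit 19732815)) p15_31_0 (nat_lit 4) (nat_lit 213) (nat_lit 214) = true := by decide +kernel
def p15_31_0_214 : pfC (piC [(nat_lit 35065580), (nat_lit 23751559), (nat_lit 17719570), (nat_lit 11940226)] (nat_lit 19732815)) p15_31_0 (nat_lit 4) (nat_lit 214) (nat_lit 215) = true := by decide +kernel
def p15_31_0_215 : pfC (piC [(nat_lit 35065580), (nat_lit 23751559), (nat_lit 17719570), (nat_lit 11940226)] (nat_lit 19732815)) p15_31_0 (nat_lit 4) (nat_lit 215) (nat_lit 216) = true := by decide +kernel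
def p15_31_0_216 : pfC (piC [(nat_lit 35065580), (nat_lit 23751559), (nat_lit 17719570), (nat_lit 11940226)] (nat_lit 19732815)) p15_31_0 (nat_lit 4) (nat_lit 216) (nat_lit 217) = true := by decide +kernel
def p15_31_0_217 : pfC (piC [(nat_lit 35065580), (nat_lit 23751559), (nat_lit 17719570), (nat_lit 11940226)] (nat_lit 19732815)) p15_31_0 (nat_lit 4) (nat_lit 217) (nat_lit 218) = true := by decide +kernel
def p15_31_0_218 : pfC (piC [(nat_lit 35065580), (nat_lit 23751559), (nat_lit 17719570), (nat_lit 11940226)] (nat_lit 19732815)) p15_31_0 (nat_lit 4) (nat_lit 218) (nat_lit 219) = true := by decide +kernel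
def p15_31_0_219 : pfC (piC [(nat_lit 35065580), (nat_lit 23751559), (nat_lit 17719570), (nat_lit 11940226)] (nat_lit 19732815)) p15_31_0 (nat_lit 4) (nat_lit 219) (nat_lit 220) = true := by decide +kernel
def p15_31_0_220 : pfC (piC [(nat_lit 35065580), (nat_lit 23751559), (nat_lit 17719570), (nat_lit 11940226)] (nat_lit 19732815)) p15_31_0 (nat_lit 4) (nat_lit 220) (nat_lit 221) = true := by decide +kernel
def p15_31_0_221 : pfC (piC [(nat_lit 35065580), (nat_lit 23751559), (nat_lit 17719570), (nat_lit 11940226)] (nat_lit 19732815)) p15_31_0 (nat_lit 4) (nat_lit 221) (nat_lit 222) = true := by decide +kernel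
def p15_31_0_222 : pfC (piC [(nat_lit 35065580), (nat_lit 23751559), (nat_lit 17719570), (nat_lit 11940226)] (nat_lit 19732815)) p15_31_0 (nat_lit 4) (nat_lit 222) (nat_lit 223) = true := by decide +kernel
def p15_31_0_223 : pfC (piC [(nat_lit 35065580), (nat_lit 23751559), (nat_lit 17719570), (nat_lit 11940226)] (nat_lit 19732815)) p15_31_0 (nat_lit 4) (nat_lit 223) (nat_lit 224) = true := by decide +kernel
def p15_31_0_224 : pfC (piC [(nat_lit 35065580), (nat_lit 23751559), (nat_lit 17719570), (nat_lit 11940226)] (nat_lit 19732815)) p15_31_0 (nat_lit 4) (nat_lit 224) (nat_lit 225) = true := by decide +kernel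
def p15_31_0_225 : pfC (piC [(nat_lit 35065580), (nat_lit 23751559), (nat_lit 17719570), (nat_lit 11940226)] (nat_lit 19732815)) p15_31_0 (nat_lit 4) (nat_lit 225) (nat_lit 226) = true := by decide +kernel
def p15_31_0_226 : pfC (piC [(nat_lit 35065580), (nat_lit 23751559), (nat_lit 17719570), (nat_lit 11940226)] (nat_lit 19732815)) p15_31_0 (nat_lit 4) (nat_lit 226) (nat_lit 227) = true := by decide +kernel
def p15_31_0_227 : pfC (piC [(nat_lit 35065580), (nat_lit 23751559), (nat_lit 17719570), (nat_lit 11940226)] (nat_lit 19732815)) p15_31_0 (nat_lit 4) (nat_lit 227) (nat_lit 228) = true := by decide +kernel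
def p15_31_0_228 : pfC (piC [(nat_lit 35065580), (nat_lit 23751559), (nat_lit 17719570), (nat_lit 11940226)] (nat_lit 19732815)) p15_31_0 (nat_lit 4) (nat_lit 228) (nat_lit 229) = true := by decide +kernel
def p15_31_0_229 : pfC (piC [(nat_lit 35065580), (nat_lit 23751559), (nat_lit 17719570), (nat_lit 11940226)] (nat_lit 19732815)) p15_31_0 (nat_lit 4) (nat_lit 229) (nat_lit 230) = true := by decide +kernel
def p15_31_0_230 : pfC (piC [(nat_lit 35065580), (nat_lit 23751559), (nat_lit 17719570), (nat_lit 11940226)] (nat_lit 19732815)) p15_31_0 (nat_lit 4) (nat_lit 230) (nat_lit 231) = true := by decide +kernel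
def p15_31_0_231 : pfC (piC [(nat_lit 35065580), (nat_lit 23751559), (nat_lit 17719570), (nat_lit 11940226)] (nat_lit 19732815)) p15_31_0 (nat_lit 4) (nat_lit 231) (nat_lit 232) = true := by decide +kernel
def p15_31_0_232 : pfC (piC [(nat_lit 35065580), (nat_lit 23751559), (nat_lit 17719570), (nat_lit 11940226)] (nat_lit 19732815)) p15_31_0 (nat_lit 4) (nat_lit 232) (nat_lit 233) = true := by decide +kernel
def p15_31_0_233 : pfC (piC [(nat_lit 35065580), (nat_lit 23751559), (nat_lit 17719570), (nat_lit 11940226)] (nat_lit 19732815)) p15_31_0 (nat_lit 4) (nat_lit 233) (nat_lit 234) = true := by decide +kernel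
def p15_31_0_234 : pfC (piC [(nat_lit 35065580), (nat_lit 23751559), (nat_lit 17719570), (nat_lit 11940226)] (nat_lit 19732815)) p15_31_0 (nat_lit 4) (nat_lit 234) (nat_lit 235) = true := by decide +kernel
def p15_31_0_235 : pfC (piC [(nat_lit 35065580), (nat_lit 23751559), (nat_lit 17719570), (nat_lit 11940226)] (nat_lit 19732815)) p15_31_0 (nat_lit 4) (nat_lit 235) (nat_lit 236) = true := by decide +kernel
def p15_31_0_236 : pfC (piC [(nat_lit 35065580), (nat_lit 23751559), (nat_lit 17719570), (nat_lit 11940226)] (nat_lit 19732815)) p15_31_0 (nat_lit 4) (nat_lit 236) (nat_lit 237) = true := by decide +kernel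
def p15_31_0_237 : pfC (piC [(nat_lit 35065580), (nat_lit 23751559), (nat_lit 17719570), (nat_lit 11940226)] (nat_lit 19732815)) p15_31_0 (nat_lit 4) (nat_lit 237) (nat_lit 238) = true := by decide +kernel
def p15_31_0_238 : pfC (piC [(nat_lit 35065580), (nat_lit 23751559), (nat_lit 17719570), (nat_lit 11940226)] (nat_lit 19732815)) p15_31_0 (nat_lit 4) (nat_lit 238) (nat_lit 239) = true := by decide +kernel
def p15_31_0_239 : pfC (piC [(nat_lit 35065580), (nat_lit 23751559), (nat_lit 17719570), (nat_lit 11940226)] (nat_lit 19732815)) p15_31_0 (nat_lit 4) (nat_lit 239) (nat_lit 240) = true := by decide +kernel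
def p15_31_0_240 : pfC (piC [(nat_lit 35065580), (nat_lit 23751559), (nat_lit 17719570), (nat_lit 11940226)] (nat_lit 19732815)) p15_31_0 (nat_lit 4) (nat_lit 240) (nat_lit 241) = true := by decide +kernel
def p15_31_0_241 : pfC (piC [(nat_lit 35065580), (nat_lit 23751559), (nat_lit 17719570), (nat_lit 11940226)] (nat_lit 19732815)) p15_31_0 (nat_lit 4) (nat_lit 241) (nat_lit 242) = true := by decide +kernel
def p15_31_0_242 : pfC (piC [(nat_lit 35065580), (nat_lit 23751559), (nat_lit 17719570), (nat_lit 11940226)] (nat_lit 19732815)) p15_31_0 (nat_lit 4) (nat_lit 242) (nat_lit 243) = true := by decide +kernel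
def p15_31_0_243 : pfC (piC [(nat_lit 35065580), (nat_lit 23751559), (nat_lit 17719570), (nat_lit 11940226)] (nat_lit 19732815)) p15_31_0 (nat_lit 4) (nat_lit 243) (nat_lit 244) = true := by decide +kernel
def p15_31_0_244 : pfC (piC [(nat_lit 35065580), (nat_lit 23751559), (nat_lit 17719570), (nat_lit 11940226)] (nat_lit 19732815)) p15_31_0 (nat_lit 4) (nat_lit 244) (nat_lit 245) = true := by decide +kernel
def p15_31_0_245 : pfC (piC [(nat_lit 35065580), (nat_lit 23751559), (nat_lit 17719570), (nat_lit 11940226)] (nat_lit 19732815)) p15_31_0 (nat_lit 4) (nat_lit 245) (nat_lit 246) = true := by decide +kernel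
def p15_31_0_246 : pfC (piC [(nat_lit 35065580), (nat_lit 23751559), (nat_lit 17719570), (nat_lit 11940226)] (nat_lit 19732815)) p15_31_0 (nat_lit 4) (nat_lit 246) (nat_lit 247) = true := by decide +kernel
def p15_31_0_247 : pfC (piC [(nat_lit 35065580), (nat_lit 23751559), (nat_lit 17719570), (nat_lit 11940226)] (nat_lit 19732815)) p15_31_0 (nat_lit 4) (nat_lit 247) (nat_lit 248) = true := by decide +kernel
def p15_31_0_248 : pfC (piC [(nat_lit 35065580), (nat_lit 23751559), (nat_lit 17719570), (nat_lit 11940226)] (nat_lit 19732815)) p15_31_0 (nat_lit 4) (nat_lit 248) (nat_lit 249) = true := by decide +kernel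
def p15_31_0_249 : pfC (piC [(nat_lit 35065580), (nat_lit 23751559), (nat_lit 17719570), (nat_lit 11940226)] (nat_lit 19732815)) p15_31_0 (nat_lit 4) (nat_lit 249) (nat_lit 250) = true := by decide +kernel
def p15_31_0_250 : pfC (piC [(nat_lit 35065580), (nat_lit 23751559), (nat_lit 17719570), (nat_lit 11940226)] (nat_lit 19732815)) p15_31_0 (nat_lit 4) (nat_lit 250) (nat_lit 251) = true := by decide +kernel
def p15_31_0_251 : pfC (piC [(nat_lit 35065580), (nat_lit 23751559), (nat_lit 17719570), (nat_lit 11940226)] (nat_lit 19732815)) p15_31_0 (nat_lit 4) (nat_lit 251) (nat_lit 252) = true := by decide +kernel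
def p15_31_0_252 : pfC (piC [(nat_lit 35065580), (nat_lit 23751559), (nat_lit 17719570), (nat_lit 11940226)] (nat_lit 19732815)) p15_31_0 (nat_lit 4) (nat_lit 252) (nat_lit 253) = true := by decide +kernel
def p15_31_0_253 : pfC (piC [(nat_lit 35065580), (nat_lit 23751559), (nat_lit 17719570), (nat_lit 11940226)] (nat_lit 19732815)) p15_31_0 (nat_lit 4) (nat_lit 253) (nat_lit 254) = true := by decide +kernel
def p15_31_0_254 : pfC (piC [(nat_lit 35065580), (nat_lit 23751559), (nat_lit 17719570), (nat_lit 11940226)] (nat_lit 19732815)) p15_31_0 (nat_lit 4) (nat_lit 254) (nat_lit 255) = true := by decide +kernel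
def p15_31_0_255 : pfC (piC [(nat_lit 35065580), (nat_lit 23751559), (nat_lit 17719570), (nat_lit 11940226)] (nat_lit 19732815)) p15_31_0 (nat_lit 4) (nat_lit 255) (nat_lit 256) = true := by decide +kernel
def p15_31_0_256 : pfC (piC [(nat_lit 35065580), (nat_lit 23751559), (nat_lit 17719570), (nat_lit 11940226)] (nat_lit 19732815)) p15_31_0 (nat_lit 4) (nat_lit 256) (nat_lit 257) = true := by decide +kernel
def p15_31_0_257 : pfC (piC [(nat_lit 35065580), (nat_lit 23751559), (nat_lit 17719570), (nat_lit 11940226)] (nat_lit 19732815)) p15_31_0 (nat_lit 4) (nat_lit 257) (nat_lit 258) = true := by decide +kernel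
def p15_31_0_258 : pfC (piC [(nat_lit 35065580), (nat_lit 23751559), (nat_lit 17719570), (nat_lit 11940226)] (nat_lit 19732815)) p15_31_0 (nat_lit 4) (nat_lit 258) (nat_lit 259) = true := by decide +kernel
def p15_31_0_259 : pfC (piC [(nat_lit 35065580), (nat_lit 23751559), (nat_lit 17719570), (nat_lit 11940226)] (nat_lit 19732815)) p15_31_0 (nat_lit 4) (nat_lit 259) (nat_lit 260) = true := by decide +kernel
def p15_31_0_260 : pfC (piC [(nat_lit 35065580), (nat_lit 23751559), (nat_lit 17719570), (nat_lit 11940226)] (nat_lit 19732815)) p15_31_0 (nat_lit 4) (nat_lit 260) (nat_lit 261) = true := by decide +kernel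
def p15_31_0_261 : pfC (piC [(nat_lit 35065580), (nat_lit 23751559), (nat_lit 17719570), (nat_lit 11940226)] (nat_lit 19732815)) p15_31_0 (nat_lit 4) (nat_lit 261) (nat_lit 262) = true := by decide +kernel
def p15_31_0_262 : pfC (piC [(nat_lit 35065580), (nat_lit 23751559), (nat_lit 17719570), (nat_lit 11940226)] (nat_lit 19732815)) p15_31_0 (nat_lit 4) (nat_lit 262) (nat_lit 263) = true := by decide +kernel
def p15_31_0_263 : pfC (piC [(nat_lit 35065580), (nat_lit 23751559), (nat_lit 17719570), (nat_lit 11940226)] (nat_lit 19732815)) p15_31_0 (nat_lit 4) (nat_lit 263) (nat_lit 264) = true := by decide +kernel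
def p15_31_0_264 : pfC (piC [(nat_lit 35065580), (nat_lit 23751559), (nat_lit 17719570), (nat_lit 11940226)] (nat_lit 19732815)) p15_31_0 (nat_lit 4) (nat_lit 264) (nat_lit 265) = true := by decide +kernel
def p15_31_0_265 : pfC (piC [(nat_lit 35065580), (nat_lit 23751559), (nat_lit 17719570), (nat_lit 11940226)] (nat_lit 19732815)) p15_31_0 (nat_lit 4) (nat_lit 265) (nat_lit 266) = true := by decide +kernel
def p15_31_0_266 : pfC (piC [(nat_lit 35065580), (nat_lit 23751559), (nat_lit 17719570), (nat_lit 11940226)] (nat_lit 19732815)) p15_31_0 (nat_lit 4) (nat_lit 266) (nat_lit 267) = true := by decide +kernel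
def p15_31_0_267 : pfC (piC [(nat_lit 35065580), (nat_lit 23751559), (nat_lit 17719570), (nat_lit 11940226)] (nat_lit 19732815)) p15_31_0 (nat_lit 4) (nat_lit 267) (nat_lit 268) = true := by decide +kernel
def p15_31_0_268 : pfC (piC [(nat_lit 35065580), (nat_lit 23751559), (nat_lit 17719570), (nat_lit 11940226)] (nat_lit 19732815)) p15_31_0 (nat_lit 4) (nat_lit 268) (nat_lit 269) = true := by decide +kernel
def p15_31_0_269 : pfC (piC [(nat_lit 35065580), (nat_lit 23751559), (nat_lit 17719570), (nat_lit 11940226)] (nat_lit 19732815)) p15_31_0 (nat_lit 4) (nat_lit 269) (nat_lit 270) = true := by decide +kernel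
def p15_31_0_270 : pfC (piC [(nat_lit 35065580), (nat_lit 23751559), (nat_lit 17719570), (nat_lit 11940226)] (nat_lit 19732815)) p15_31_0 (nat_lit 4) (nat_lit 270) (nat_lit 271) = true := by decide +kernel
def p15_31_0_271 : pfC (piC [(nat_lit 35065580), (nat_lit 23751559), (nat_lit 17719570), (nat_lit 11940226)] (nat_lit 19732815)) p15_31_0 (nat_lit 4) (nat_lit 271) (nat_lit 272) = true := by decide +kernel
def p15_31_0_272 : pfC (piC [(nat_lit 35065580), (nat_lit 23751559), (nat_lit 17719570), (nat_lit 11940226)] (nat_lit 19732815)) p15_31_0 (nat_lit 4) (nat_lit 272) (nat_lit 273) = true := by decide +kernel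
def p15_31_0_273 : pfC (piC [(nat_lit 35065580), (nat_lit 23751559), (nat_lit 17719570), (nat_lit 11940226)] (nat_lit 19732815)) p15_31_0 (nat_lit 4) (nat_lit 273) (nat_lit 274) = true := by decide +kernel
def p15_31_0_274 : pfC (piC [(nat_lit 35065580), (nat_lit 23751559), (nat_lit 17719570), (nat_lit 11940226)] (nat_lit 19732815)) p15_31_0 (nat_lit 4) (nat_lit 274) (nat_lit 275) = true := by decide +kernel
def p15_31_0_275 : pfC (piC [(nat_lit 35065580), (nat_lit 23751559), (nat_lit 17719570), (nat_lit 11940226)] (nat_lit 19732815)) p15_31_0 (nat_lit 4) (nat_lit 275) (nat_lit 276) = true := by decide +kernel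
def p15_31_0_276 : pfC (piC [(nat_lit 35065580), (nat_lit 23751559), (nat_lit 17719570), (nat_lit 11940226)] (nat_lit 19732815)) p15_31_0 (nat_lit 4) (nat_lit 276) (nat_lit 277) = true := by decide +kernel
def p15_31_0_277 : pfC (piC [(nat_lit 35065580), (nat_lit 23751559), (nat_lit 17719570), (nat_lit 11940226)] (nat_lit 19732815)) p15_31_0 (nat_lit 4) (nat_lit 277) (nat_lit 278) = true := by decide +kernel
def p15_31_0_278 : pfC (piC [(nat_lit 35065580), (nat_lit 23751559), (nat_lit 17719570), (nat_lit 11940226)] (nat_lit 19732815)) p15_31_0 (nat_lit 4) (nat_lit 278) (nat_lit 279) = true := by decide +kernel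
def p15_31_0_279 : pfC (piC [(nat_lit 35065580), (nat_lit 23751559), (nat_lit 17719570), (nat_lit 11940226)] (nat_lit 19732815)) p15_31_0 (nat_lit 4) (nat_lit 279) (nat_lit 280) = true := by decide +kernel
def p15_31_0_280 : pfC (piC [(nat_lit 35065580), (nat_lit 23751559), (nat_lit 17719570), (nat_lit 11940226)] (nat_lit 19732815)) p15_31_0 (nat_lit 4) (nat_lit 280) (nat_lit 281) = true := by decide +kernel
def p15_31_0_281 : pfC (piC [(nat_lit 35065580), (nat_lit 23751559), (nat_lit 17719570), (nat_lit 11940226)] (nat_lit 19732815)) p15_31_0 (nat_lit 4) (nat_lit 281) (nat_lit 282) = true := by decide +kernel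
def p15_31_0_282 : pfC (piC [(nat_lit 35065580), (nat_lit 23751559), (nat_lit 17719570), (nat_lit 11940226)] (nat_lit 19732815)) p15_31_0 (nat_lit 4) (nat_lit 282) (nat_lit 283) = true := by decide +kernel
def p15_31_0_283 : pfC (piC [(nat_lit 35065580), (nat_lit 23751559), (nat_lit 17719570), (nat_lit 11940226)] (nat_lit 19732815)) p15_31_0 (nat_lit 4) (nat_lit 283) (nat_lit 284) = true := by decide +kernel
def p15_31_0_284 : pfC (piC [(nat_lit 35065580), (nat_lit 23751559), (nat_lit 17719570), (nat_lit 11940226)] (nat_lit 19732815)) p15_31_0 (nat_lit 4) (nat_lit 284) (nat_lit 285) = true := by decide +kernel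
def p15_31_0_285 : pfC (piC [(nat_lit 35065580), (nat_lit 23751559), (nat_lit 17719570), (nat_lit 11940226)] (nat_lit 19732815)) p15_31_0 (nat_lit 4) (nat_lit 285) (nat_lit 286) = true := by decide +kernel
def p15_31_0_286 : pfC (piC [(nat_lit 35065580), (nat_lit 23751559), (nat_lit 17719570), (nat_lit 11940226)] (nat_lit 19732815)) p15_31_0 (nat_lit 4) (nat_lit 286) (nat_lit 287) = true := by decide +kernel
def p15_31_0_287 : pfC (piC [(nat_lit 35065580), (nat_lit 23751559), (nat_lit 17719570), (nat_lit 11940226)] (nat_lit 19732815)) p15_31_0 (nat_lit 4) (nat_lit 287) (nat_lit 288) = true := by decide +kernel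
def p15_31_0_288 : pfC (piC [(nat_lit 35065580), (nat_lit 23751559), (nat_lit 17719570), (nat_lit 11940226)] (nat_lit 19732815)) p15_31_0 (nat_lit 4) (nat_lit 288) (nat_lit 289) = true := by decide +kernel
def p15_31_0_289 : pfC (piC [(nat_lit 35065580), (nat_lit 23751559), (nat_lit 17719570), (nat_lit 11940226)] (nat_lit 19732815)) p15_31_0 (nat_lit 4) (nat_lit 289) (nat_lit 290) = true := by decide +kernel
def p15_31_0_290 : pfC (piC [(nat_lit 35065580), (nat_lit 23751559), (nat_lit 17719570), (nat_lit 11940226)] (nat_lit 19732815)) p15_31_0 (nat_lit 4) (nat_lit 290) (nat_lit 291) = true := by decide +kernel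
def p15_31_0_291 : pfC (piC [(nat_lit 35065580), (nat_lit 23751559), (nat_lit 17719570), (nat_lit 11940226)] (nat_lit 19732815)) p15_31_0 (nat_lit 4) (nat_lit 291) (nat_lit 292) = true := by decide +kernel
def p15_31_0_292 : pfC (piC [(nat_lit 35065580), (nat_lit 23751559), (nat_lit 17719570), (nat_lit 11940226)] (nat_lit 19732815)) p15_31_0 (nat_lit 4) (nat_lit 292) (nat_lit 293) = true := by decide +kernel
def p15_31_0_293 : pfC (piC [(nat_lit 35065580), (nat_lit 23751559), (nat_lit 17719570), (nat_lit 11940226)] (nat_lit 19732815)) p15_31_0 (nat_lit 4) (nat_lit 293) (nat_lit 294) = true := by decide +kernel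
def p15_31_0_294 : pfC (piC [(nat_lit 35065580), (nat_lit 23751559), (nat_lit 17719570), (nat_lit 11940226)] (nat_lit 19732815)) p15_31_0 (nat_lit 4) (nat_lit 294) (nat_lit 295) = true := by decide +kernel
def p15_31_0_295 : pfC (piC [(nat_lit 35065580), (nat_lit 23751559), (nat_lit 17719570), (nat_lit 11940226)] (nat_lit 19732815)) p15_31_0 (nat_lit 4) (nat_lit 295) (nat_lit 296) = true := by decide +kernel
def p15_31_0_296 : pfC (piC [(nat_lit 35065580), (nat_lit 23751559), (nat_lit 17719570), (nat_lit 11940226)] (nat_lit 19732815)) p15_31_0 (nat_lit 4) (nat_lit 296) (nat_lit 297) = true := by decide +kernel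
def p15_31_0_297 : pfC (piC [(nat_lit 35065580), (nat_lit 23751559), (nat_lit 17719570), (nat_lit 11940226)] (nat_lit 19732815)) p15_31_0 (nat_lit 4) (nat_lit 297) (nat_lit 298) = true := by decide +kernel
def p15_31_0_298 : pfC (piC [(nat_lit 35065580), (nat_lit 23751559), (nat_lit 17719570), (nat_lit 11940226)] (nat_lit 19732815)) p15_31_0 (nat_lit 4) (nat_lit 298) (nat_lit 299) = true := by decide +kernel
def p15_31_0_299 : pfC (piC [(nat_lit 35065580), (nat_lit 23751559), (nat_lit 17719570), (nat_lit 11940226)] (nat_lit 19732815)) p15_31_0 (nat_lit 4) (nat_lit 299) (nat_lit 300) = true := by decide +kernel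
def p15_31_0_300 : pfC (piC [(nat_lit 35065580), (nat_lit 23751559), (nat_lit 17719570), (nat_lit 11940226)] (nat_lit 19732815)) p15_31_0 (nat_lit 4) (nat_lit 300) (nat_lit 301) = true := by decide +kernel
def p15_31_0_301 : pfC (piC [(nat_lit 35065580), (nat_lit 23751559), (nat_lit 17719570), (nat_lit 11940226)] (nat_lit 19732815)) p15_31_0 (nat_lit 4) (nat_lit 301) (nat_lit 302) = true := by decide +kernel
def p15_31_0_302 : pfC (piC [(nat_lit 35065580), (nat_lit 23751559), (nat_lit 17719570), (nat_lit 11940226)] (nat_lit 19732815)) p15_31_0 (nat_lit 4) (nat_lit 302) (nat_lit 303) = true := by decide +kernel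
def p15_31_0_303 : pfC (piC [(nat_lit 35065580), (nat_lit 23751559), (nat_lit 17719570), (nat_lit 11940226)] (nat_lit 19732815)) p15_31_0 (nat_lit 4) (nat_lit 303) (nat_lit 304) = true := by decide +kernel
def p15_31_0_304 : pfC (piC [(nat_lit 35065580), (nat_lit 23751559), (nat_lit 17719570), (nat_lit 11940226)] (nat_lit 19732815)) p15_31_0 (nat_lit 4) (nat_lit 304) (nat_lit 305) = true := by decide +kernel
def p15_31_0_305 : pfC (piC [(nat_lit 35065580), (nat_lit 23751559), (nat_lit 17719570), (nat_lit 11940226)] (nat_lit 19732815)) p15_31_0 (nat_lit 4) (nat_lit 305) (nat_lit 306) = true := by decide +kernel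
def p15_31_0_306 : pfC (piC [(nat_lit 35065580), (nat_lit 23751559), (nat_lit 17719570), (nat_lit 11940226)] (nat_lit 19732815)) p15_31_0 (nat_lit 4) (nat_lit 306) (nat_lit 307) = true := by decide +kernel
def p15_31_0_307 : pfC (piC [(nat_lit 35065580), (nat_lit 23751559), (nat_lit 17719570), (nat_lit 11940226)] (nat_lit 19732815)) p15_31_0 (nat_lit 4) (nat_lit 307) (nat_lit 308) = true := by decide +kernel
def p15_31_0_308 : pfC (piC [(nat_lit 35065580), (nat_lit 23751559), (nat_lit 17719570), (nat_lit 11940226)] (nat_lit 19732815)) p15_31_0 (nat_lit 4) (nat_lit 308) (nat_lit 309) = true := by decide +kernel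
def p15_31_0_309 : pfC (piC [(nat_lit 35065580), (nat_lit 23751559), (nat_lit 17719570), (nat_lit 11940226)] (nat_lit 19732815)) p15_31_0 (nat_lit 4) (nat_lit 309) (nat_lit 310) = true := by decide +kernel
def p15_31_0_310 : pfC (piC [(nat_lit 35065580), (nat_lit 23751559), (nat_lit 17719570), (nat_lit 11940226)] (nat_lit 19732815)) p15_31_0 (nat_lit 4) (nat_lit 310) (nat_lit 311) = true := by decide +kernel
def p15_31_0_311 : pfC (piC [(nat_lit 35065580), (nat_lit 23751559), (nat_lit 17719570), (nat_lit 11940226)] (nat_lit 19732815)) p15_31_0 (nat_lit 4) (nat_lit 311) (nat_lit 312) = true := by decide +kernel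
def p15_31_0_312 : pfC (piC [(nat_lit 35065580), (nat_lit 23751559), (nat_lit 17719570), (nat_lit 11940226)] (nat_lit 19732815)) p15_31_0 (nat_lit 4) (nat_lit 312) (nat_lit 313) = true := by decide +kernel
def p15_31_0_313 : pfC (piC [(nat_lit 35065580), (nat_lit 23751559), (nat_lit 17719570), (nat_lit 11940226)] (nat_lit 19732815)) p15_31_0 (nat_lit 4) (nat_lit 313) (nat_lit 314) = true := by decide +kernel
def p15_31_0_314 : pfC (piC [(nat_lit 35065580), (nat_lit 23751559), (nat_lit 17719570), (nat_lit 11940226)] (nat_lit 19732815)) p15_31_0 (nat_lit 4) (nat_lit 314) (nat_lit 315) = true := by decide +kernel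
def p15_31_0_315 : pfC (piC [(nat_lit 35065580), (nat_lit 23751559), (nat_lit 17719570), (nat_lit 11940226)] (nat_lit 19732815)) p15_31_0 (nat_lit 4) (nat_lit 315) (nat_lit 316) = true := by decide +kernel
def p15_31_0_316 : pfC (piC [(nat_lit 35065580), (nat_lit 23751559), (nat_lit 17719570), (nat_lit 11940226)] (nat_lit 19732815)) p15_31_0 (nat_lit 4) (nat_lit 316) (nat_lit 317) = true := by decide +kernel
def p15_31_0_317 : pfC (piC [(nat_lit 35065580), (nat_lit 23751559), (nat_lit 17719570), (nat_lit 11940226)] (nat_lit 19732815)) p15_31_0 (nat_lit 4) (nat_lit 317) (nat_lit 318) = true := by decide +kernel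
def p15_31_0_318 : pfC (piC [(nat_lit 35065580), (nat_lit 23751559), (nat_lit 17719570), (nat_lit 11940226)] (nat_lit 19732815)) p15_31_0 (nat_lit 4) (nat_lit 318) (nat_lit 319) = true := by decide +kernel
def p15_31_0_319 : pfC (piC [(nat_lit 35065580), (nat_lit 23751559), (nat_lit 17719570), (nat_lit 11940226)] (nat_lit 19732815)) p15_31_0 (nat_lit 4) (nat_lit 319) (nat_lit 320) = true := by decide +kernel
def p15_31_0_320 : pfC (piC [(nat_lit 35065580), (nat_lit 23751559), (nat_lit 17719570), (nat_lit 11940226)] (nat_lit 19732815)) p15_31_0 (nat_lit 4) (nat_lit 320) (nat_lit 321) = true := by decide +kernel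
def p15_31_0_321 : pfC (piC [(nat_lit 35065580), (nat_lit 23751559), (nat_lit 17719570), (nat_lit 11940226)] (nat_lit 19732815)) p15_31_0 (nat_lit 4) (nat_lit 321) (nat_lit 322) = true := by decide +kernel
def p15_31_0_322 : pfC (piC [(nat_lit 35065580), (nat_lit 23751559), (nat_lit 17719570), (nat_lit 11940226)] (nat_lit 19732815)) p15_31_0 (nat_lit 4) (nat_lit 322) (nat_lit 323) = true := by decide +kernel
def p15_31_0_323 : pfC (piC [(nat_lit 35065580), (nat_lit 23751559), (nat_lit 17719570), (nat_lit 11940226)] (nat_lit 19732815)) p15_31_0 (nat_lit 4) (nat_lit 323) (nat_lit 324) = true := by decide +kernel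
def p15_31_0_324 : pfC (piC [(nat_lit 35065580), (nat_lit 23751559), (nat_lit 17719570), (nat_lit 11940226)] (nat_lit 19732815)) p15_31_0 (nat_lit 4) (nat_lit 324) (nat_lit 325) = true := by decide +kernel
def p15_31_0_325 : pfC (piC [(nat_lit 35065580), (nat_lit 23751559), (nat_lit 17719570), (nat_lit 11940226)] (nat_lit 19732815)) p15_31_0 (nat_lit 4) (nat_lit 325) (nat_lit 326) = true := by decide +kernel
def p15_31_0_326 : pfC (piC [(nat_lit 35065580), (nat_lit 23751559), (nat_lit 17719570), (nat_lit 11940226)] (nat_lit 19732815)) p15_31_0 (nat_lit 4) (nat_lit 326) (nat_lit 327) = true := by decide +kernel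
def p15_31_0_327 : pfC (piC [(nat_lit 35065580), (nat_lit 23751559), (nat_lit 17719570), (nat_lit 11940226)] (nat_lit 19732815)) p15_31_0 (nat_lit 4) (nat_lit 327) (nat_lit 328) = true := by decide +kernel
def p15_31_0_328 : pfC (piC [(nat_lit 35065580), (nat_lit 23751559), (nat_lit 17719570), (nat_lit 11940226)] (nat_lit 19732815)) p15_31_0 (nat_lit 4) (nat_lit 328) (nat_lit 329) = true := by decide +kernel
def p15_31_0_329 : pfC (piC [(nat_lit 35065580), (nat_lit 23751559), (nat_lit 17719570), (nat_lit 11940226)] (nat_lit 19732815)) p15_31_0 (nat_lit 4) (nat_lit 329) (nat_lit 330) = true := by decide +kernel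
def p15_31_0_330 : pfC (piC [(nat_lit 35065580), (nat_lit 23751559), (nat_lit 17719570), (nat_lit 11940226)] (nat_lit 19732815)) p15_31_0 (nat_lit 4) (nat_lit 330) (nat_lit 331) = true := by decide +kernel
def p15_31_0_331 : pfC (piC [(nat_lit 35065580), (nat_lit 23751559), (nat_lit 17719570), (nat_lit 11940226)] (nat_lit 19732815)) p15_31_0 (nat_lit 4) (nat_lit 331) (nat_lit 332) = true := by decide +kernel
def p15_31_0_332 : pfC (piC [(nat_lit 35065580), (nat_lit 23751559), (nat_lit 17719570), (nat_lit 11940226)] (nat_lit 19732815)) p15_31_0 (nat_lit 4) (nat_lit 332) (nat_lit 333) = true := by decide +kernel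
def p15_31_0_333 : pfC (piC [(nat_lit 35065580), (nat_lit 23751559), (nat_lit 17719570), (nat_lit 11940226)] (nat_lit 19732815)) p15_31_0 (nat_lit 4) (nat_lit 333) (nat_lit 334) = true := by decide +kernel
def p15_31_0_334 : pfC (piC [(nat_lit 35065580), (nat_lit 23751559), (nat_lit 17719570), (nat_lit 11940226)] (nat_lit 19732815)) p15_31_0 (nat_lit 4) (nat_lit 334) (nat_lit 335) = true := by decide +kernel
def p15_31_0_335 : pfC (piC [(nat_lit 35065580), (nat_lit 23751559), (nat_lit 17719570), (nat_lit 11940226)] (nat_lit 19732815)) p15_31_0 (nat_lit 4) (nat_lit 335) (nat_lit 336) = true := by decide +kernel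
def p15_31_0_336 : pfC (piC [(nat_lit 35065580), (nat_lit 23751559), (nat_lit 17719570), (nat_lit 11940226)] (nat_lit 19732815)) p15_31_0 (nat_lit 4) (nat_lit 336) (nat_lit 337) = true := by decide +kernel
def p15_31_0_337 : pfC (piC [(nat_lit 35065580), (nat_lit 23751559), (nat_lit 17719570), (nat_lit 11940226)] (nat_lit 19732815)) p15_31_0 (nat_lit 4) (nat_lit 337) (nat_lit 338) = true := by decide +kernel
def p15_31_0_338 : pfC (piC [(nat_lit 35065580), (nat_lit 23751559), (nat_lit 17719570), (nat_lit 11940226)] (nat_lit 19732815)) p15_31_0 (nat_lit 4) (nat_lit 338) (nat_lit 339) = true := by decide +kernel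
def p15_31_0_339 : pfC (piC [(nat_lit 35065580), (nat_lit 23751559), (nat_lit 17719570), (nat_lit 11940226)] (nat_lit 19732815)) p15_31_0 (nat_lit 4) (nat_lit 339) (nat_lit 340) = true := by decide +kernel
def p15_31_0_340 : pfC (piC [(nat_lit 35065580), (nat_lit 23751559), (nat_lit 17719570), (nat_lit 11940226)] (nat_lit 19732815)) p15_31_0 (nat_lit 4) (nat_lit 340) (nat_lit 341) = true := by decide +kernel
def p15_31_0_341 : pfC (piC [(nat_lit 35065580), (nat_lit 23751559), (nat_lit 17719570), (nat_lit 11940226)] (nat_lit 19732815)) p15_31_0 (nat_lit 4) (nat_lit 341) (nat_lit 342) = true := by decide +kernel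
def p15_31_0_342 : pfC (piC [(nat_lit 35065580), (nat_lit 23751559), (nat_lit 17719570), (nat_lit 11940226)] (nat_lit 19732815)) p15_31_0 (nat_lit 4) (nat_lit 342) (nat_lit 343) = true := by decide +kernel
def p15_31_0_343 : pfC (piC [(nat_lit 35065580), (nat_lit 23751559), (nat_lit 17719570), (nat_lit 11940226)] (nat_lit 19732815)) p15_31_0 (nat_lit 4) (nat_lit 343) (nat_lit 344) = true := by decide +kernel
def p15_31_0_344 : pfC (piC [(nat_lit 35065580), (nat_lit 23751559), (nat_lit 17719570), (nat_lit 11940226)] (nat_lit 19732815)) p15_31_0 (nat_lit 4) (nat_lit 344) (nat_lit 345) = true := by decide +kernel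
def p15_31_0_345 : pfC (piC [(nat_lit 35065580), (nat_lit 23751559), (nat_lit 17719570), (nat_lit 11940226)] (nat_lit 19732815)) p15_31_0 (nat_lit 4) (nat_lit 345) (nat_lit 346) = true := by decide +kernel
def p15_31_0_346 : pfC (piC [(nat_lit 35065580), (nat_lit 23751559), (nat_lit 17719570), (nat_lit 11940226)] (nat_lit 19732815)) p15_31_0 (nat_lit 4) (nat_lit 346) (nat_lit 347) = true := by decide +kernel
def p15_31_0_347 : pfC (piC [(nat_lit 35065580), (nat_lit 23751559), (nat_lit 17719570), (nat_lit 11940226)] (nat_lit 19732815)) p15_31_0 (nat_lit 4) (nat_lit 347) (nat_lit 348) = true := by decide +kernel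
def p15_31_0_348 : pfC (piC [(nat_lit 35065580), (nat_lit 23751559), (nat_lit 17719570), (nat_lit 11940226)] (nat_lit 19732815)) p15_31_0 (nat_lit 4) (nat_lit 348) (nat_lit 349) = true := by decide +kernel
def p15_31_0_349 : pfC (piC [(nat_lit 35065580), (nat_lit 23751559), (nat_lit 17719570), (nat_lit 11940226)] (nat_lit 19732815)) p15_31_0 (nat_lit 4) (nat_lit 349) (nat_lit 350) = true := by decide +kernel
def p15_31_0_350 : pfC (piC [(nat_lit 35065580), (nat_lit 23751559), (nat_lit 17719570), (nat_lit 11940226)] (nat_lit 19732815)) p15_31_0 (nat_lit 4) (nat_lit 350) (nat_lit 351) = true := by decide +kernel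
def p15_31_0_351 : pfC (piC [(nat_lit 35065580), (nat_lit 23751559), (nat_lit 17719570), (nat_lit 11940226)] (nat_lit 19732815)) p15_31_0 (nat_lit 4) (nat_lit 351) (nat_lit 352) = true := by decide +kernel
def p15_31_0_352 : pfC (piC [(nat_lit 35065580), (nat_lit 23751559), (nat_lit 17719570), (nat_lit 11940226)] (nat_lit 19732815)) p15_31_0 (nat_lit 4) (nat_lit 352) (nat_lit 353) = true := by decide +kernel
def p15_31_0_353 : pfC (piC [(nat_lit 35065580), (nat_lit 23751559), (nat_lit 17719570), (nat_lit 11940226)] (nat_lit 19732815)) p15_31_0 (nat_lit 4) (nat_lit 353) (nat_lit 354) = true := by decide +kernel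
def p15_31_0_354 : pfC (piC [(nat_lit 35065580), (nat_lit 23751559), (nat_lit 17719570), (nat_lit 11940226)] (nat_lit 19732815)) p15_31_0 (nat_lit 4) (nat_lit 354) (nat_lit 355) = true := by decide +kernel
def p15_31_0_355 : pfC (piC [(nat_lit 35065580), (nat_lit 23751559), (nat_lit 17719570), (nat_lit 11940226)] (nat_lit 19732815)) p15_31_0 (nat_lit 4) (nat_lit 355) (nat_lit 356) = true := by decide +kernel
def p15_31_0_356 : pfC (piC [(nat_lit 35065580), (nat_lit 23751559), (nat_lit 17719570), (nat_lit 11940226)] (nat_lit 19732815)) p15_31_0 (nat_lit 4) (nat_lit 356) (nat_lit 357) = true := by decide +kernel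
def p15_31_0_357 : pfC (piC [(nat_lit 35065580), (nat_lit 23751559), (nat_lit 17719570), (nat_lit 11940226)] (nat_lit 19732815)) p15_31_0 (nat_lit 4) (nat_lit 357) (nat_lit 358) = true := by decide +kernel
def p15_31_0_358 : pfC (piC [(nat_lit 35065580), (nat_lit 23751559), (nat_lit 17719570), (nat_lit 11940226)] (nat_lit 19732815)) p15_31_0 (nat_lit 4) (nat_lit 358) (nat_lit 359) = true := by decide +kernel
def p15_31_0_359 : pfC (piC [(nat_lit 35065580), (nat_lit 23751559), (nat_lit 17719570), (nat_lit 11940226)] (nat_lit 19732815)) p15_31_0 (nat_lit 4) (nat_lit 359) (nat_lit 360) = true := by decide +kernel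
def p15_31_0_360 : pfC (piC [(nat_lit 35065580), (nat_lit 23751559), (nat_lit 17719570), (nat_lit 11940226)] (nat_lit 19732815)) p15_31_0 (nat_lit 4) (nat_lit 360) (nat_lit 361) = true := by decide +kernel
def p15_31_0_361 : pfC (piC [(nat_lit 35065580), (nat_lit 23751559), (nat_lit 17719570), (nat_lit 11940226)] (nat_lit 19732815)) p15_31_0 (nat_lit 4) (nat_lit 361) (nat_lit 362) = true := by decide +kernel
def p15_31_0_362 : pfC (piC [(nat_lit 35065580), (nat_lit 23751559), (nat_lit 17719570), (nat_lit 11940226)] (nat_lit 19732815)) p15_31_0 (nat_lit 4) (nat_lit 362) (nat_lit 363) = true := by decide +kernel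
def p15_31_0_363 : pfC (piC [(nat_lit 35065580), (nat_lit 23751559), (nat_lit 17719570), (nat_lit 11940226)] (nat_lit 19732815)) p15_31_0 (nat_lit 4) (nat_lit 363) (nat_lit 364) = true := by decide +kernel
def p15_31_0_364 : pfC (piC [(nat_lit 35065580), (nat_lit 23751559), (nat_lit 17719570), (nat_lit 11940226)] (nat_lit 19732815)) p15_31_0 (nat_lit 4) (nat_lit 364) (nat_lit 365) = true := by decide +kernel
def p15_31_0_365 : pfC (piC [(nat_lit 35065580), (nat_lit 23751559), (nat_lit 17719570), (nat_lit 11940226)] (nat_lit 19732815)) p15_31_0 (nat_lit 4) (nat_lit 365) (nat_lit 366) = true := by decide +kernel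
def p15_31_0_366 : pfC (piC [(nat_lit 35065580), (nat_lit 23751559), (nat_lit 17719570), (nat_lit 11940226)] (nat_lit 19732815)) p15_31_0 (nat_lit 4) (nat_lit 366) (nat_lit 367) = true := by decide +kernel
def p15_31_0_367 : pfC (piC [(nat_lit 35065580), (nat_lit 23751559), (nat_lit 17719570), (nat_lit 11940226)] (nat_lit 19732815)) p15_31_0 (nat_lit 4) (nat_lit 367) (nat_lit 368) = true := by decide +kernel
def p15_31_0_368 : pfC (piC [(nat_lit 35065580), (nat_lit 23751559), (nat_lit 17719570), (nat_lit 11940226)] (nat_lit 19732815)) p15_31_0 (nat_lit 4) (nat_lit 368) (nat_lit 369) = true := by decide +kernel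
def p15_31_0_369 : pfC (piC [(nat_lit 35065580), (nat_lit 23751559), (nat_lit 17719570), (nat_lit 11940226)] (nat_lit 19732815)) p15_31_0 (nat_lit 4) (nat_lit 369) (nat_lit 370) = true := by decide +kernel
def p15_31_0_370 : pfC (piC [(nat_lit 35065580), (nat_lit 23751559), (nat_lit 17719570), (nat_lit 11940226)] (nat_lit 19732815)) p15_31_0 (nat_lit 4) (nat_lit 370) (nat_lit 371) = true := by decide +kernel
def p15_31_0_371 : pfC (piC [(nat_lit 35065580), (nat_lit 23751559), (nat_lit 17719570), (nat_lit 11940226)] (nat_lit 19732815)) p15_31_0 (nat_lit 4) (nat_lit 371) (nat_lit 372) = true := by decide +kernel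
def p15_31_0_372 : pfC (piC [(nat_lit 35065580), (nat_lit 23751559), (nat_lit 17719570), (nat_lit 11940226)] (nat_lit 19732815)) p15_31_0 (nat_lit 4) (nat_lit 372) (nat_lit 373) = true := by decide +kernel
def p15_31_0_373 : pfC (piC [(nat_lit 35065580), (nat_lit 23751559), (nat_lit 17719570), (nat_lit 11940226)] (nat_lit 19732815)) p15_31_0 (nat_lit 4) (nat_lit 373) (nat_lit 374) = true := by decide +kernel
def p15_31_0_374 : pfC (piC [(nat_lit 35065580), (nat_lit 23751559), (nat_lit 17719570), (nat_lit 11940226)] (nat_lit 19732815)) p15_31_0 (nat_lit 4) (nat_lit 374) (nat_lit 375) = true := by decide +kernel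
def p15_31_0_375 : pfC (piC [(nat_lit 35065580), (nat_lit 23751559), (nat_lit 17719570), (nat_lit 11940226)] (nat_lit 19732815)) p15_31_0 (nat_lit 4) (nat_lit 375) (nat_lit 376) = true := by decide +kernel
def p15_31_0_376 : pfC (piC [(nat_lit 35065580), (nat_lit 23751559), (nat_lit 17719570), (nat_lit 11940226)] (nat_lit 19732815)) p15_31_0 (nat_lit 4) (nat_lit 376) (nat_lit 377) = true := by decide +kernel
def p15_31_0_377 : pfC (piC [(nat_lit 35065580), (nat_lit 23751559), (nat_lit 17719570), (nat_lit 11940226)] (nat_lit 19732815)) p15_31_0 (nat_lit 4) (nat_lit 377) (nat_lit 378) = true := by decide +kernel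
def p15_31_0_378 : pfC (piC [(nat_lit 35065580), (nat_lit 23751559), (nat_lit 17719570), (nat_lit 11940226)] (nat_lit 19732815)) p15_31_0 (nat_lit 4) (nat_lit 378) (nat_lit 379) = true := by decide +kernel
def p15_31_0_379 : pfC (piC [(nat_lit 35065580), (nat_lit 23751559), (nat_lit 17719570), (nat_lit 11940226)] (nat_lit 19732815)) p15_31_0 (nat_lit 4) (nat_lit 379) (nat_lit 380) = true := by decide +kernel
def p15_31_0_380 : pfC (piC [(nat_lit 35065580), (nat_lit 23751559), (nat_lit 17719570), (nat_lit 11940226)] (nat_lit 19732815)) p15_31_0 (nat_lit 4) (nat_lit 380) (nat_lit 381) = true := by decide +kernel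
def p15_31_0_381 : pfC (piC [(nat_lit 35065580), (nat_lit 23751559), (nat_lit 17719570), (nat_lit 11940226)] (nat_lit 19732815)) p15_31_0 (nat_lit 4) (nat_lit 381) (nat_lit 382) = true := by decide +kernel
def p15_31_0_382 : pfC (piC [(nat_lit 35065580), (nat_lit 23751559), (nat_lit 17719570), (nat_lit 11940226)] (nat_lit 19732815)) p15_31_0 (nat_lit 4) (nat_lit 382) (nat_lit 383) = true := by decide +kernel
def p15_31_0_383 : pfC (piC [(nat_lit 35065580), (nat_lit 23751559), (nat_lit 17719570), (nat_lit 11940226)] (nat_lit 19732815)) p15_31_0 (nat_lit 4) (nat_lit 383) (nat_lit 384) = true := by decide +kernel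
def p15_31_0_384 : pfC (piC [(nat_lit 35065580), (nat_lit 23751559), (nat_lit 17719570), (nat_lit 11940226)] (nat_lit 19732815)) p15_31_0 (nat_lit 4) (nat_lit 384) (nat_lit 385) = true := by decide +kernel
def p15_31_0_385 : pfC (piC [(nat_lit 35065580), (nat_lit 23751559), (nat_lit 17719570), (nat_lit 11940226)] (nat_lit 19732815)) p15_31_0 (nat_lit 4) (nat_lit 385) (nat_lit 386) = true := by decide +kernel
def p15_31_0_386 : pfC (piC [(nat_lit 35065580), (nat_lit 23751559), (nat_lit 17719570), (nat_lit 11940226)] (nat_lit 19732815)) p15_31_0 (nat_lit 4) (nat_lit 386) (nat_lit 387) = true := by decide +kernel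
def p15_31_0_387 : pfC (piC [(nat_lit 35065580), (nat_lit 23751559), (nat_lit 17719570), (nat_lit 11940226)] (nat_lit 19732815)) p15_31_0 (nat_lit 4) (nat_lit 387) (nat_lit 388) = true := by decide +kernel
def p15_31_0_388 : pfC (piC [(nat_lit 35065580), (nat_lit 23751559), (nat_lit 17719570), (nat_lit 11940226)] (nat_lit 19732815)) p15_31_0 (nat_lit 4) (nat_lit 388) (nat_lit 389) = true := by decide +kernel
def p15_31_0_389 : pfC (piC [(nat_lit 35065580), (nat_lit 23751559), (nat_lit 17719570), (nat_lit 11940226)] (nat_lit 19732815)) p15_31_0 (nat_lit 4) (nat_lit 389) (nat_lit 390) = true := by decide +kernel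
def p15_31_0_390 : pfC (piC [(nat_lit 35065580), (nat_lit 23751559), (nat_lit 17719570), (nat_lit 11940226)] (nat_lit 19732815)) p15_31_0 (nat_lit 4) (nat_lit 390) (nat_lit 391) = true := by decide +kernel
def p15_31_0_391 : pfC (piC [(nat_lit 35065580), (nat_lit 23751559), (nat_lit 17719570), (nat_lit 11940226)] (nat_lit 19732815)) p15_31_0 (nat_lit 4) (nat_lit 391) (nat_lit 392) = true := by decide +kernel
def p15_31_0_392 : pfC (piC [(nat_lit 35065580), (nat_lit 23751559), (nat_lit 17719570), (nat_lit 11940226)] (nat_lit 19732815)) p15_31_0 (nat_lit 4) (nat_lit 392) (nat_lit 393) = true := by decide +kernel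
def p15_31_0_393 : pfC (piC [(nat_lit 35065580), (nat_lit 23751559), (nat_lit 17719570), (nat_lit 11940226)] (nat_lit 19732815)) p15_31_0 (nat_lit 4) (nat_lit 393) (nat_lit 394) = true := by decide +kernel
def p15_31_0_394 : pfC (piC [(nat_lit 35065580), (nat_lit 23751559), (nat_lit 17719570), (nat_lit 11940226)] (nat_lit 19732815)) p15_31_0 (nat_lit 4) (nat_lit 394) (nat_lit 395) = true := by decide +kernel
def p15_31_0_395 : pfC (piC [(nat_lit 35065580), (nat_lit 23751559), (nat_lit 17719570), (nat_lit 11940226)] (nat_lit 19732815)) p15_31_0 (nat_lit 4) (nat_lit 395) (nat_lit 396) = true := by decide +kernel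
def p15_31_0_396 : pfC (piC [(nat_lit 35065580), (nat_lit 23751559), (nat_lit 17719570), (nat_lit 11940226)] (nat_lit 19732815)) p15_31_0 (nat_lit 4) (nat_lit 396) (nat_lit 397) = true := by decide +kernel
def p15_31_0_397 : pfC (piC [(nat_lit 35065580), (nat_lit 23751559), (nat_lit 17719570), (nat_lit 11940226)] (nat_lit 19732815)) p15_31_0 (nat_lit 4) (nat_lit 397) (nat_lit 398) = true := by decide +kernel
def p15_31_0_398 : pfC (piC [(nat_lit 35065580), (nat_lit 23751559), (nat_lit 17719570), (nat_lit 11940226)] (nat_lit 19732815)) p15_31_0 (nat_lit 4) (nat_lit 398) (nat_lit 399) = true := by decide +kernel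
def p15_31_0_399 : pfC (piC [(nat_lit 35065580), (nat_lit 23751559), (nat_lit 17719570), (nat_lit 11940226)] (nat_lit 19732815)) p15_31_0 (nat_lit 4) (nat_lit 399) (nat_lit 400) = true := by decide +kernel
def p15_31_0_400 : pfC (piC [(nat_lit 35065580), (nat_lit 23751559), (nat_lit 17719570), (nat_lit 11940226)] (nat_lit 19732815)) p15_31_0 (nat_lit 4) (nat_lit 400) (nat_lit 401) = true := by decide +kernel
def p15_31_0_401 : pfC (piC [(nat_lit 35065580), (nat_lit 23751559), (nat_lit 17719570), (nat_lit 11940226)] (nat_lit 19732815)) p15_31_0 (nat_lit 4) (nat_lit 401) (nat_lit 402) = true := by decide +kernel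
def p15_31_0_402 : pfC (piC [(nat_lit 35065580), (nat_lit 23751559), (nat_lit 17719570), (nat_lit 11940226)] (nat_lit 19732815)) p15_31_0 (nat_lit 4) (nat_lit 402) (nat_lit 403) = true := by decide +kernel
def p15_31_0_403 : pfC (piC [(nat_lit 35065580), (nat_lit 23751559), (nat_lit 17719570), (nat_lit 11940226)] (nat_lit 19732815)) p15_31_0 (nat_lit 4) (nat_lit 403) (nat_lit 404) = true := by decide +kernel
def p15_31_0_404 : pfC (piC [(nat_lit 35065580), (nat_lit 23751559), (nat_lit 17719570), (nat_lit 11940226)] (nat_lit 19732815)) p15_31_0 (nat_lit 4) (nat_lit 404) (nat_lit 405) = true := by decide +kernel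
def p15_31_0_405 : pfC (piC [(nat_lit 35065580), (nat_lit 23751559), (nat_lit 17719570), (nat_lit 11940226)] (nat_lit 19732815)) p15_31_0 (nat_lit 4) (nat_lit 405) (nat_lit 406) = true := by decide +kernel
def p15_31_0_406 : pfC (piC [(nat_lit 35065580), (nat_lit 23751559), (nat_lit 17719570), (nat_lit 11940226)] (nat_lit 19732815)) p15_31_0 (nat_lit 4) (nat_lit 406) (nat_lit 407) = true := by decide +kernel
def p15_31_0_407 : pfC (piC [(nat_lit 35065580), (nat_lit 23751559), (nat_lit 17719570), (nat_lit 11940226)] (nat_lit 19732815)) p15_31_0 (nat_lit 4) (nat_lit 407) (nat_lit 408) = true := by decide +kernel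
theorem p15_31_0_T : PfS (PiF n15_31.reverse (nat_lit 19732815)) p15_31_0 (nat_lit 4) [] 0 :=
  pftab_of (los := [(nat_lit 35065580), (nat_lit 23751559), (nat_lit 17719570), (nat_lit 11940226)]) (by decide +kernel) (hi := (nat_lit 408)) (PfP.trans (PfP.trans (PfP.trans (PfP.trans (PfP.trans (PfP.trans (PfP.trans (PfP.trans (PfP.trans (PfP.trans (PfP.trans (PfP.trans (PfP.trans (PfP.trans (PfP.trans (PfP.trans (PfP.trans (PfP.trans (PfP.trans (PfP.trans (PfP.trans (PfP.trans (PfP.trans (PfP.trans (PfP.trans (PfP.trans (PfP.trans (PfP.trans (PfP.trans (PfP.trans (PfP.trans (PfP.trans (PfP.trans (PfP.trans (PfP.trans (PfP.trans (PfP.trans (PfP.trans (PfP.trans (PfP.trans (PfP.trans (PfP.trans (PfP.trans (PfP.trans (PfP.trans (PfP.trans (PfP.trans (PfP.trans (PfP.trans (PfP.trans (PfP.trans (PfP.trans (PfP.trans (PfP.trans (PfP.trans (PfP.trans (PfP.trans (PfP.trans (PfP.trans (PfP.trans (PfP.trans (PfP.trans (PfP.trans (PfP.trans (PfP.trans (PfP.trans (PfP.trans (PfP.trans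 (PfP.trans (PfP.trans (PfP.trans (PfP.trans (PfP.trans (PfP.trans (PfP.trans (PfP.trans (PfP.trans (PfP.trans (PfP.trans (PfP.trans (PfP.trans (PfP.trans (PfP.trans (PfP.trans (PfP.trans (PfP.trans (PfP.trans (PfP.trans (PfP.trans (PfP.trans (PfP.trans (PfP.trans (PfP.trans (PfP.trans (PfP.trans (PfP.trans (PfP.trans (PfP.trans (PfP.trans (PfP.trans (PfP.trans (PfP.trans (PfP.trans (PfP.trans (PfP.trans (PfP.trans (PfP.trans (PfP.trans (PfP.trans
 (PfP.trans (PfP.trans (PfP.trans (PfP.trans (PfP.trans (PfP.trans (PfP.trans (PfP.trans (PfP.trans (PfP.trans (PfP.trans (PfP.trans (PfP.trans (PfP.trans (PfP.trans (PfP.trans (PfP.trans (PfP.trans (PfP.trans (PfP.trans (PfP.trans (PfP.trans (PfP.trans (PfP.trans (PfP.trans (PfP.trans (PfP.trans (PfP.trans (PfP.trans (PfP.trans (PfP.trans (PfP.trans (PfP.trans (PfP.trans (PfP.trans (PfP.trans (PfP.trans (PfP.trans (PfP.trans (PfP.trans (PfP.trans (PfP.trans (PfP.trans (PfP.trans (PfP.trans (PfP.trans (PfP.trans (PfP.trans (PfP.trans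 (PfP.trans (PfP.trans (PfP.trans (PfP.trans (PfP.trans (PfP.trans (PfP.trans (PfP.trans (PfP.trans (PfP.trans (PfP.trans (PfP.trans (PfP.trans (PfP.trans (PfP.trans (PfP.trans (PfP.trans (PfP.trans (PfP.trans (PfP.trans (PfP.trans (PfP.trans (PfP.trans (PfP.trans (PfP.trans (PfP.trans (PfP.trans (PfP.trans (PfP.trans (PfP.trans (PfP.trans (PfP.trans (PfP.trans (PfP.trans (PfP.trans (PfP.trans (PfP.trans (PfP.trans (PfP.trans (PfP.trans (PfP.trans (PfP.trans (PfP.trans (PfP.trans (PfP.trans (PfP.trans (PfP.trans (PfP.trans (PfP.trans (PfP.trans (PfP.trans (PfP.trans (PfP.trans (PfP.trans (PfP.trans (PfP.trans (PfP.trans (PfP.trans (PfP.trans (PfP.trans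
 (PfP.trans (PfP.trans (PfP.trans (PfP.trans (PfP.trans (PfP.trans (PfP.trans (PfP.trans (PfP.trans (PfP.trans (PfP.trans (PfP.trans (PfP.trans (PfP.trans (PfP.trans (PfP.trans (PfP.trans (PfP.trans (PfP.trans (PfP.trans (PfP.trans (PfP.trans (PfP.trans (PfP.trans (PfP.trans (PfP.trans (PfP.trans (PfP.trans (PfP.trans (PfP.trans (PfP.trans (PfP.trans (PfP.trans (PfP.trans (PfP.trans (PfP.trans (PfP.trans (PfP.trans (PfP.trans (PfP.trans (PfP.trans (PfP.trans (PfP.trans (PfP.trans (PfP.trans (PfP.trans (PfP.trans (PfP.trans (PfP.trans (PfP.trans (PfP.trans (PfP.trans (PfP.trans (PfP.trans (PfP.trans (PfP.trans (PfP.trans (PfP.trans (PfP.trans (PfP.trans (PfP.trans (PfP.trans (PfP.trans (PfP.trans (PfP.trans (PfP.trans (PfP.trans (PfP.trans (PfP.trans (PfP.trans (PfP.trans (PfP.trans (PfP.trans (PfP.trans (PfP.trans (PfP.trans (PfP.trans (PfP.trans (PfP.trans (PfP.trans (PfP.trans (PfP.trans (PfP.trans (PfP.trans (PfP.trans (PfP.trans (PfP.trans (PfP.trans (PfP.trans (PfP.trans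 (PfP.trans (PfP.trans (PfP.trans (PfP.trans (PfP.trans (PfP.trans (PfP.trans (PfP.trans (PfP.trans (PfP.trans (PfP.trans (PfP.trans (PfP.trans (PfP.trans (PfP.trans (PfP.trans (PfP.trans (PfP.trans (PfP.trans
 (PfP.trans (PfP.trans (PfP.trans (PfP.trans (PfP.trans (PfP.trans (PfP.trans (PfP.trans (PfP.trans (PfP.trans (PfP.trans (PfP.trans (PfP.trans (PfP.trans (PfP.trans (PfP.trans (PfP.trans (PfP.trans (PfP.trans (PfP.trans (PfP.trans (PfP.trans (PfP.trans (PfP.trans (PfP.trans (PfP.trans (PfP.trans (PfP.trans (PfP.trans (PfP.trans (PfP.trans (PfP.trans (PfP.trans (PfP.trans (PfP.trans (PfP.trans (PfP.trans (PfP.trans (PfP.trans (PfP.trans (PfP.trans (PfP.trans (PfP.trans (PfP.trans (PfP.trans (PfP.trans (PfP.trans (PfP.trans (PfP.trans (PfP.trans (PfP.trans (PfP.trans (PfP.trans (PfP.trans (PfP.trans (PfP.trans (PfP.trans (PfP.trans (PfP.trans (PfP.trans (PfP.trans (PfP.trans (PfP.trans (PfP.trans (PfP.trans (PfP.trans (PfP.trans (PfP.trans (PfP.trans (PfP.trans (PfP.trans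 (PfP.trans (PfP.trans (PfP.trans (PfP.trans (PfP.trans (PfP.trans (PfP.trans (PfP.trans (PfP.trans (pfC_sound p15_31_0_0) (pfC_sound p15_31_0_1)) (pfC_sound p15_31_0_2)) (pfC_sound p15_31_0_3)) (pfC_sound p15_31_0_4)) (pfC_sound p15_31_0_5)) (pfC_sound p15_31_0_6)) (pfC_sound p15_31_0_7)) (pfC_sound p15_31_0_8)) (pfC_sound p15_31_0_9)) (pfC_sound p15_31_0_10)) (pfC_sound p15_31_0_11)) (pfC_sound p15_31_0_12))
 (pfC_sound p15_31_0_13)) (pfC_sound p15_31_0_14)) (pfC_sound p15_31_0_15)) (pfC_sound p15_31_0_16)) (pfC_sound p15_31_0_17)) (pfC_sound p15_31_0_18)) (pfC_sound p15_31_0_19)) (pfC_sound p15_31_0_20)) (pfC_sound p15_31_0_21)) (pfC_sound p15_31_0_22)) (pfC_sound p15_31_0_23)) (pfC_sound p15_31_0_24)) (pfC_sound p15_31_0_25)) (pfC_sound p15_31_0_26)) (pfC_sound p15_31_0_27)) (pfC_sound p15_31_0_28)) (pfC_sound p15_31_0_29)) (pfC_sound p15_31_0_30)) (pfC_sound p15_31_0_31)) (pfC_sound p15_31_0_32)) (pfC_sound p15_31_0_33)) (pfC_sound p15_31_0_34)) (pfC_sound p15_31_0_35))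 (pfC_sound p15_31_0_36)) (pfC_sound p15_31_0_37)) (pfC_sound p15_31_0_38)) (pfC_sound p15_31_0_39)) (pfC_sound p15_31_0_40)) (pfC_sound p15_31_0_41)) (pfC_sound p15_31_0_42)) (pfC_sound p15_31_0_43)) (pfC_sound p15_31_0_44)) (pfC_sound p15_31_0_45)) (pfC_sound p15_31_0_46)) (pfC_sound p15_31_0_47)) (pfC_sound p15_31_0_48)) (pfC_sound p15_31_0_49)) (pfC_sound p15_31_0_50)) (pfC_sound p15_31_0_51)) (pfC_sound p15_31_0_52)) (pfC_sound p15_31_0_53)) (pfC_sound p15_31_0_54)) (pfC_sound p15_31_0_55)) (pfC_sound p15_31_0_56)) (pfC_sound p15_31_0_57)) (pfC_sound p15_31_0_58)) (pfC_sound p15_31_0_59)) (pfC_sound p15_31_0_60))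
 (pfC_sound p15_31_0_61)) (pfC_sound p15_31_0_62)) (pfC_sound p15_31_0_63)) (pfC_sound p15_31_0_64)) (pfC_sound p15_31_0_65)) (pfC_sound p15_31_0_66)) (pfC_sound p15_31_0_67)) (pfC_sound p15_31_0_68)) (pfC_sound p15_31_0_69)) (pfC_sound p15_31_0_70)) (pfC_sound p15_31_0_71)) (pfC_sound p15_31_0_72)) (pfC_sound p15_31_0_73)) (pfC_sound p15_31_0_74)) (pfC_sound p15_31_0_75)) (pfC_sound p15_31_0_76)) (pfC_sound p15_31_0_77)) (pfC_sound p15_31_0_78)) (pfC_sound p15_31_0_79)) (pfC_sound p15_31_0_80)) (pfC_sound p15_31_0_81)) (pfC_sound p15_31_0_82)) (pfC_sound p15_31_0_83)) (pfC_sound p15_31_0_84)) (pfC_sound p15_31_0_85)) (pfC_sound p15_31_0_86)) (pfC_sound p15_31_0_87)) (pfC_sound p15_31_0_88)) (pfC_sound p15_31_0_89)) (pfC_sound p15_31_0_90)) (pfC_sound p15_31_0_91)) (pfC_sound p15_31_0_92)) (pfC_sound p15_31_0_93)) (pfC_sound p15_31_0_94)) (pfC_sound p15_31_0_95)) (pfC_sound p15_31_0_96)) (pfC_sound p15_31_0_97)) (pfC_sound p15_31_0_98)) (pfC_sound p15_31_0_99)) (pfC_sound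 p15_31_0_100)) (pfC_sound p15_31_0_101)) (pfC_sound p15_31_0_102)) (pfC_sound p15_31_0_103)) (pfC_sound p15_31_0_104)) (pfC_sound p15_31_0_105)) (pfC_sound p15_31_0_106)) (pfC_sound p15_31_0_107)) (pfC_sound
 p15_31_0_108)) (pfC_sound p15_31_0_109)) (pfC_sound p15_31_0_110)) (pfC_sound p15_31_0_111)) (pfC_sound p15_31_0_112)) (pfC_sound p15_31_0_113)) (pfC_sound p15_31_0_114)) (pfC_sound p15_31_0_115)) (pfC_sound p15_31_0_116)) (pfC_sound p15_31_0_117)) (pfC_sound p15_31_0_118)) (pfC_sound p15_31_0_119)) (pfC_sound p15_31_0_120)) (pfC_sound p15_31_0_121)) (pfC_sound p15_31_0_122)) (pfC_sound p15_31_0_123)) (pfC_sound p15_31_0_124)) (pfC_sound p15_31_0_125)) (pfC_sound p15_31_0_126)) (pfC_sound p15_31_0_127)) (pfC_sound p15_31_0_128)) (pfC_sound p15_31_0_129)) (pfC_sound p15_31_0_130)) (pfC_sound p15_31_0_131)) (pfC_sound p15_31_0_132)) (pfC_sound p15_31_0_133)) (pfC_sound p15_31_0_134)) (pfC_sound p15_31_0_135)) (pfC_sound p15_31_0_136)) (pfC_sound p15_31_0_137)) (pfC_sound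 p15_31_0_138)) (pfC_sound p15_31_0_139)) (pfC_sound p15_31_0_140)) (pfC_sound p15_31_0_141)) (pfC_sound p15_31_0_142)) (pfC_sound p15_31_0_143)) (pfC_sound p15_31_0_144)) (pfC_sound p15_31_0_145)) (pfC_sound p15_31_0_146)) (pfC_sound p15_31_0_147)) (pfC_sound p15_31_0_148)) (pfC_sound p15_31_0_149)) (pfC_sound p15_31_0_150)) (pfC_sound p15_31_0_151)) (pfC_sound p15_31_0_152)) (pfC_sound p15_31_0_153)) (pfC_sound
 p15_31_0_154)) (pfC_sound p15_31_0_155)) (pfC_sound p15_31_0_156)) (pfC_sound p15_31_0_157)) (pfC_sound p15_31_0_158)) (pfC_sound p15_31_0_159)) (pfC_sound p15_31_0_160)) (pfC_sound p15_31_0_161)) (pfC_sound p15_31_0_162)) (pfC_sound p15_31_0_163)) (pfC_sound p15_31_0_164)) (pfC_sound p15_31_0_165)) (pfC_sound p15_31_0_166)) (pfC_sound p15_31_0_167)) (pfC_sound p15_31_0_168)) (pfC_sound p15_31_0_169)) (pfC_sound p15_31_0_170)) (pfC_sound p15_31_0_171)) (pfC_sound p15_31_0_172)) (pfC_sound p15_31_0_173)) (pfC_sound p15_31_0_174)) (pfC_sound p15_31_0_175)) (pfC_sound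 p15_31_0_176)) (pfC_sound p15_31_0_177)) (pfC_sound p15_31_0_178)) (pfC_sound p15_31_0_179)) (pfC_sound p15_31_0_180)) (pfC_sound p15_31_0_181)) (pfC_sound p15_31_0_182)) (pfC_sound p15_31_0_183)) (pfC_sound p15_31_0_184)) (pfC_sound p15_31_0_185)) (pfC_sound p15_31_0_186)) (pfC_sound p15_31_0_187)) (pfC_sound p15_31_0_188)) (pfC_sound p15_31_0_189)) (pfC_sound p15_31_0_190)) (pfC_sound p15_31_0_191)) (pfC_sound p15_31_0_192)) (pfC_sound p15_31_0_193)) (pfC_sound p15_31_0_194)) (pfC_sound p15_31_0_195)) (pfC_sound p15_31_0_196)) (pfC_sound p15_31_0_197)) (pfC_sound p15_31_0_198)) (pfC_sound p15_31_0_199)) (pfC_sound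
 p15_31_0_200)) (pfC_sound p15_31_0_201)) (pfC_sound p15_31_0_202)) (pfC_sound p15_31_0_203)) (pfC_sound p15_31_0_204)) (pfC_sound p15_31_0_205)) (pfC_sound p15_31_0_206)) (pfC_sound p15_31_0_207)) (pfC_sound p15_31_0_208)) (pfC_sound p15_31_0_209)) (pfC_sound p15_31_0_210)) (pfC_sound p15_31_0_211)) (pfC_sound p15_31_0_212)) (pfC_sound p15_31_0_213)) (pfC_sound p15_31_0_214)) (pfC_sound p15_31_0_215)) (pfC_sound p15_31_0_216)) (pfC_sound p15_31_0_217)) (pfC_sound p15_31_0_218)) (pfC_sound p15_31_0_219)) (pfC_sound p15_31_0_220)) (pfC_sound p15_31_0_221)) (pfC_sound p15_31_0_222)) (pfC_sound p15_31_0_223)) (pfC_sound p15_31_0_224)) (pfC_sound p15_31_0_225)) (pfC_sound p15_31_0_226)) (pfC_sound p15_31_0_227)) (pfC_sound p15_31_0_228)) (pfC_sound p15_31_0_229)) (pfC_sound p15_31_0_230)) (pfC_sound p15_31_0_231)) (pfC_sound p15_31_0_232)) (pfC_sound p15_31_0_233)) (pfC_sound p15_31_0_234)) (pfC_sound p15_31_0_235)) (pfC_sound p15_31_0_236)) (pfC_sound p15_31_0_237)) (pfC_sound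 p15_31_0_238)) (pfC_sound p15_31_0_239)) (pfC_sound p15_31_0_240)) (pfC_sound p15_31_0_241)) (pfC_sound p15_31_0_242)) (pfC_sound p15_31_0_243)) (pfC_sound p15_31_0_244)) (pfC_sound p15_31_0_245)) (pfC_sound
 p15_31_0_246)) (pfC_sound p15_31_0_247)) (pfC_sound p15_31_0_248)) (pfC_sound p15_31_0_249)) (pfC_sound p15_31_0_250)) (pfC_sound p15_31_0_251)) (pfC_sound p15_31_0_252)) (pfC_sound p15_31_0_253)) (pfC_sound p15_31_0_254)) (pfC_sound p15_31_0_255)) (pfC_sound p15_31_0_256)) (pfC_sound p15_31_0_257)) (pfC_sound p15_31_0_258)) (pfC_sound p15_31_0_259)) (pfC_sound p15_31_0_260)) (pfC_sound p15_31_0_261)) (pfC_sound p15_31_0_262)) (pfC_sound p15_31_0_263)) (pfC_sound p15_31_0_264)) (pfC_sound p15_31_0_265)) (pfC_sound p15_31_0_266)) (pfC_sound p15_31_0_267)) (pfC_sound p15_31_0_268)) (pfC_sound p15_31_0_269)) (pfC_sound p15_31_0_270)) (pfC_sound p15_31_0_271)) (pfC_sound p15_31_0_272)) (pfC_sound p15_31_0_273)) (pfC_sound p15_31_0_274)) (pfC_sound p15_31_0_275)) (pfC_sound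 p15_31_0_276)) (pfC_sound p15_31_0_277)) (pfC_sound p15_31_0_278)) (pfC_sound p15_31_0_279)) (pfC_sound p15_31_0_280)) (pfC_sound p15_31_0_281)) (pfC_sound p15_31_0_282)) (pfC_sound p15_31_0_283)) (pfC_sound p15_31_0_284)) (pfC_sound p15_31_0_285)) (pfC_sound p15_31_0_286)) (pfC_sound p15_31_0_287)) (pfC_sound p15_31_0_288)) (pfC_sound p15_31_0_289)) (pfC_sound p15_31_0_290)) (pfC_sound p15_31_0_291)) (pfC_sound
 p15_31_0_292)) (pfC_sound p15_31_0_293)) (pfC_sound p15_31_0_294)) (pfC_sound p15_31_0_295)) (pfC_sound p15_31_0_296)) (pfC_sound p15_31_0_297)) (pfC_sound p15_31_0_298)) (pfC_sound p15_31_0_299)) (pfC_sound p15_31_0_300)) (pfC_sound p15_31_0_301)) (pfC_sound p15_31_0_302)) (pfC_sound p15_31_0_303)) (pfC_sound p15_31_0_304)) (pfC_sound p15_31_0_305)) (pfC_sound p15_31_0_306)) (pfC_sound p15_31_0_307)) (pfC_sound p15_31_0_308)) (pfC_sound p15_31_0_309)) (pfC_sound p15_31_0_310)) (pfC_sound p15_31_0_311)) (pfC_sound p15_31_0_312)) (pfC_sound p15_31_0_313)) (pfC_sound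 p15_31_0_314)) (pfC_sound p15_31_0_315)) (pfC_sound p15_31_0_316)) (pfC_sound p15_31_0_317)) (pfC_sound p15_31_0_318)) (pfC_sound p15_31_0_319)) (pfC_sound p15_31_0_320)) (pfC_sound p15_31_0_321)) (pfC_sound p15_31_0_322)) (pfC_sound p15_31_0_323)) (pfC_sound p15_31_0_324)) (pfC_sound p15_31_0_325)) (pfC_sound p15_31_0_326)) (pfC_sound p15_31_0_327)) (pfC_sound p15_31_0_328)) (pfC_sound p15_31_0_329)) (pfC_sound p15_31_0_330)) (pfC_sound p15_31_0_331)) (pfC_sound p15_31_0_332)) (pfC_sound p15_31_0_333)) (pfC_sound p15_31_0_334)) (pfC_sound p15_31_0_335)) (pfC_sound p15_31_0_336)) (pfC_sound p15_31_0_337)) (pfC_sound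
 p15_31_0_338)) (pfC_sound p15_31_0_339)) (pfC_sound p15_31_0_340)) (pfC_sound p15_31_0_341)) (pfC_sound p15_31_0_342)) (pfC_sound p15_31_0_343)) (pfC_sound p15_31_0_344)) (pfC_sound p15_31_0_345)) (pfC_sound p15_31_0_346)) (pfC_sound p15_31_0_347)) (pfC_sound p15_31_0_348)) (pfC_sound p15_31_0_349)) (pfC_sound p15_31_0_350)) (pfC_sound p15_31_0_351)) (pfC_sound p15_31_0_352)) (pfC_sound p15_31_0_353)) (pfC_sound p15_31_0_354)) (pfC_sound p15_31_0_355)) (pfC_sound p15_31_0_356)) (pfC_sound p15_31_0_357)) (pfC_sound p15_31_0_358)) (pfC_sound p15_31_0_359)) (pfC_sound p15_31_0_360)) (pfC_sound p15_31_0_361)) (pfC_sound p15_31_0_362)) (pfC_sound p15_31_0_363)) (pfC_sound p15_31_0_364)) (pfC_sound p15_31_0_365)) (pfC_sound p15_31_0_366)) (pfC_sound p15_31_0_367)) (pfC_sound p15_31_0_368)) (pfC_sound p15_31_0_369)) (pfC_sound p15_31_0_370)) (pfC_sound p15_31_0_371)) (pfC_sound p15_31_0_372)) (pfC_sound p15_31_0_373)) (pfC_sound p15_31_0_374)) (pfC_sound p15_31_0_375)) (pfC_sound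 p15_31_0_376)) (pfC_sound p15_31_0_377)) (pfC_sound p15_31_0_378)) (pfC_sound p15_31_0_379)) (pfC_sound p15_31_0_380)) (pfC_sound p15_31_0_381)) (pfC_sound p15_31_0_382)) (pfC_sound p15_31_0_383)) (pfC_sound
 p15_31_0_384)) (pfC_sound p15_31_0_385)) (pfC_sound p15_31_0_386)) (pfC_sound p15_31_0_387)) (pfC_sound p15_31_0_388)) (pfC_sound p15_31_0_389)) (pfC_sound p15_31_0_390)) (pfC_sound p15_31_0_391)) (pfC_sound p15_31_0_392)) (pfC_sound p15_31_0_393)) (pfC_sound p15_31_0_394)) (pfC_sound p15_31_0_395)) (pfC_sound p15_31_0_396)) (pfC_sound p15_31_0_397)) (pfC_sound p15_31_0_398)) (pfC_sound p15_31_0_399)) (pfC_sound p15_31_0_400)) (pfC_sound p15_31_0_401)) (pfC_sound p15_31_0_402)) (pfC_sound p15_31_0_403)) (pfC_sound p15_31_0_404)) (pfC_sound p15_31_0_405)) (pfC_sound p15_31_0_406)) (pfC_sound p15_31_0_407)) (by decide +kernel)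

def z15_31_0 : zOK yB15_31 (nat_lit 0) (nat_lit 0) (nat_lit 400) (nat_lit 19732815) (nat_lit 10729447) = true := by decide +kernel
def g15_31_0 : gOK yB15_31.x P15_31 (nat_lit 1399) (q15_31 :: r15_31) (nat_lit 0) (nat_lit 0) (nat_lit 1) (nat_lit 400) (nat_lit 0) (nat_lit 11000000) (nat_lit 12712500) (nat_lit 12712500) [(nat_lit 800), (nat_lit 1600)] = true := by decide +kernel
def p15_31_1 : PF := (PF.cons (PF.cons (PF.cons (PF.cons (PF.leaf (nat_lit 2078792) (nat_lit 9799835) (nat_lit 57308977) (nat_lit 9799835) [(nat_lit 0), (nat_lit 0), (nat_lit 0), (nat_lit 0)]) (PF.cons (PF.leaf (nat_lit 2315211) (nat_lit 432255) (nat_lit 56841220) (nat_lit 9835337) [(nat_lit 432255), (nat_lit 0), (nat_lit 0), (nat_lit 0)]) (PF.cons (PF.leaf (nat_lit 2593365) (nat_lit 470306) (nat_lit 56296364) (nat_lit 9871835) [(nat_lit 470306), (nat_lit 0), (nat_lit 0), (nat_lit 0)]) (PF.cons (PF.leaf (nat_lit 2905300) (nat_lit 503963) (nat_lit 55690219) (nat_lit 9906703) [(nat_lit 503963), (nat_lit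 0), (nat_lit 0), (nat_lit 0)]) (PF.cons (PF.leaf (nat_lit 3245733) (nat_lit 534116) (nat_lit 55034300) (nat_lit 9938048) [(nat_lit 534116), (nat_lit 0), (nat_lit 0), (nat_lit 0)]) (PF.cons (PF.leaf (nat_lit 3610456) (nat_lit 561319) (nat_lit 54337708) (nat_lit 9964507) [(nat_lit 561319), (nat_lit 0), (nat_lit 0), (nat_lit 0)]) (PF.cons (PF.leaf (nat_lit 3995943) (nat_lit 585950) (nat_lit 53607993) (nat_lit 9985117) [(nat_lit 585950), (nat_lit 0), (nat_lit 0), (nat_lit 0)]) (PF.cons (PF.leaf (nat_lit 4399129) (nat_lit 608282) (nat_lit 52851601) (nat_lit 9999235) [(nat_lit 608282), (nat_lit 0), (nat_lit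
 0), (nat_lit 0)]) (PF.cons (PF.leaf (nat_lit 4817291) (nat_lit 628525) (nat_lit 52074141) (nat_lit 10006470) [(nat_lit 628525), (nat_lit 0), (nat_lit 0), (nat_lit 0)]) (PF.cons (PF.leaf (nat_lit 5247979) (nat_lit 646848) (nat_lit 51280536) (nat_lit 10006638) [(nat_lit 646848), (nat_lit 0), (nat_lit 0), (nat_lit 0)]) (PF.cons PF.nil (PF.cons PF.nil PF.nil)))))))))))) (PF.cons (PF.cons (PF.leaf (nat_lit 2746342) (nat_lit 1604948) (nat_lit 55602071) (nat_lit 9901792) [(nat_lit 0), (nat_lit 1604948), (nat_lit 0), (nat_lit 0)]) (PF.cons (PF.leaf (nat_lit 3045599) (nat_lit 512290) (nat_lit 55012904) (nat_lit 9929528) [(nat_lit 512290), (nat_lit 1654089), (nat_lit 0), (nat_lit 0)]) (PF.cons (PF.leaf (nat_lit 3375840) (nat_lit 541653) (nat_lit 54370478) (nat_lit 9954076) [(nat_lit 541653), (nat_lit 1700950), (nat_lit 0), (nat_lit 0)]) (PF.cons (PF.leaf (nat_lit 3731565) (nat_lit 568039) (nat_lit 53685782) (nat_lit 9974047) [(nat_lit 568039), (nat_lit 1744864), (nat_lit 0), (nat_lit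 0)]) (PF.cons (PF.leaf (nat_lit 4108761) (nat_lit 591865) (nat_lit 52967328) (nat_lit 9988492) [(nat_lit 591865), (nat_lit 1785531), (nat_lit 0), (nat_lit 0)]) (PF.cons (PF.leaf (nat_lit 4504081) (nat_lit
 613422) (nat_lit 52222075) (nat_lit 9996788) [(nat_lit 613422), (nat_lit 1822837), (nat_lit 0), (nat_lit 0)]) (PF.cons (PF.leaf (nat_lit 4914670) (nat_lit 632928) (nat_lit 51455897) (nat_lit 9998566) [(nat_lit 632928), (nat_lit 1856777), (nat_lit 0), (nat_lit 0)]) (PF.cons (PF.leaf (nat_lit 5337974) (nat_lit 650557) (nat_lit 50673853) (nat_lit 9993652) [(nat_lit 650557), (nat_lit 1887407), (nat_lit 0), (nat_lit 0)]) (PF.cons (PF.leaf (nat_lit 5771738) (nat_lit 666452) (nat_lit 49880342) (nat_lit 9982028) [(nat_lit 666452), (nat_lit 1914820), (nat_lit 0), (nat_lit 0)]) (PF.cons PF.nil PF.nil)))))))))) (PF.cons (PF.cons (PF.leaf (nat_lit 3510285) (nat_lit 1726007) (nat_lit 53691963) (nat_lit 9964834) [(nat_lit 0), (nat_lit 1726007), (nat_lit 0), (nat_lit 0)]) (PF.cons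 (PF.leaf (nat_lit 3854805) (nat_lit 573599) (nat_lit 53024429) (nat_lit 9978651) [(nat_lit 573599), (nat_lit 1766066), (nat_lit 0), (nat_lit 0)]) (PF.cons (PF.leaf (nat_lit 4222423) (nat_lit 596818) (nat_lit 52320993) (nat_lit 9987297) [(nat_lit 596818), (nat_lit 1803442), (nat_lit 0), (nat_lit 0)]) (PF.cons (PF.leaf (nat_lit 4609018) (nat_lit 617746) (nat_lit 51589670) (nat_lit 9990147) [(nat_lit 617746), (nat_lit
 1837878), (nat_lit 0), (nat_lit 0)]) (PF.cons (PF.leaf (nat_lit 5011397) (nat_lit 636627) (nat_lit 50836910) (nat_lit 9986837) [(nat_lit 636627), (nat_lit 1869277), (nat_lit 0), (nat_lit 0)]) (PF.cons (PF.leaf (nat_lit 5426867) (nat_lit 653650) (nat_lit 50068085) (nat_lit 9977201) [(nat_lit 653650), (nat_lit 1897636), (nat_lit 0), (nat_lit 0)]) (PF.cons (PF.leaf (nat_lit 5853069) (nat_lit 668967) (nat_lit 49287766) (nat_lit 9961222) [(nat_lit 668967), (nat_lit 1923008), (nat_lit 0), (nat_lit 0)]) (PF.cons PF.nil (PF.cons PF.nil PF.nil))))))))) (PF.cons (PF.cons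 (PF.leaf (nat_lit 4338590) (nat_lit 1819905) (nat_lit 51667471) (nat_lit 9981626) [(nat_lit 0), (nat_lit 1819905), (nat_lit 0), (nat_lit 0)]) (PF.cons (PF.leaf (nat_lit 4714955) (nat_lit 621227) (nat_lit 50953446) (nat_lit 9979424) [(nat_lit 621227), (nat_lit 1851571), (nat_lit 0), (nat_lit 0)]) (PF.cons (PF.leaf (nat_lit 5108291) (nat_lit 639610) (nat_lit 50216570) (nat_lit 9971408) [(nat_lit 639610), (nat_lit 1880537), (nat_lit 0), (nat_lit 0)]) (PF.cons (PF.leaf (nat_lit 5515338) (nat_lit 656125) (nat_lit 49462822) (nat_lit 9957412) [(nat_lit 656125), (nat_lit 1906733), (nat_lit 0), (nat_lit 0)]) (PF.cons (PF.leaf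
 (nat_lit 5933557) (nat_lit 670942) (nat_lit 48697119) (nat_lit 9937421) [(nat_lit 670942), (nat_lit 1930166), (nat_lit 0), (nat_lit 0)]) (PF.cons (PF.leaf (nat_lit 6360769) (nat_lit 684201) (nat_lit 47923587) (nat_lit 9911530) [(nat_lit 684201), (nat_lit 1950895), (nat_lit 0), (nat_lit 0)]) (PF.cons PF.nil PF.nil))))))) (PF.cons (PF.cons (PF.leaf (nat_lit 5206546) (nat_lit 1890646) (nat_lit 49593863) (nat_lit 9952362) [(nat_lit 0), (nat_lit 1890646), (nat_lit 0), (nat_lit 0)]) (PF.cons (PF.leaf (nat_lit 5604150) (nat_lit 657965) (nat_lit 48857387) (nat_lit 9934384) [(nat_lit 657965), (nat_lit 1914768), (nat_lit 0), (nat_lit 0)]) (PF.cons (PF.leaf (nat_lit 6013832) (nat_lit 672370) (nat_lit 48107925) (nat_lit 9910729) [(nat_lit 672370), (nat_lit 1936354), (nat_lit 0), (nat_lit 0)]) (PF.cons (PF.leaf (nat_lit 6433007) (nat_lit 685218) (nat_lit 47349968) (nat_lit 9881492) [(nat_lit 685218), (nat_lit 1955424), (nat_lit 0), (nat_lit 0)]) (PF.cons (PF.leaf (nat_lit 6859633)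 (nat_lit 696638) (nat_lit 46587241) (nat_lit 9846848) [(nat_lit 696638), (nat_lit 1972042), (nat_lit 0), (nat_lit 0)]) PF.nil))))) (PF.cons (PF.cons (PF.leaf (nat_lit 6094800) (nat_lit 1941626) (nat_lit 47519458)
 (nat_lit 9881220) [(nat_lit 0), (nat_lit 1941626), (nat_lit 0), (nat_lit 0)]) (PF.cons (PF.leaf (nat_lit 6505221) (nat_lit 685749) (nat_lit 46778507) (nat_lit 9848965) [(nat_lit 685749), (nat_lit 1959118), (nat_lit 0), (nat_lit 0)]) (PF.cons (PF.leaf (nat_lit 6923839) (nat_lit 696833) (nat_lit 46031961) (nat_lit 9811584) [(nat_lit 696833), (nat_lit 1974320), (nat_lit 0), (nat_lit 0)]) (PF.cons PF.nil PF.nil)))) (PF.cons (PF.cons (PF.leaf (nat_lit 6988385) (nat_lit 1975878) (nat_lit 45479350) (nat_lit 9774191) [(nat_lit 0), (nat_lit 1975878), (nat_lit 0), (nat_lit 0)]) (PF.cons (PF.leaf (nat_lit 7405029) (nat_lit 706097) (nat_lit 44747072) (nat_lit 9729729) [(nat_lit 706097), (nat_lit 1987652), (nat_lit 0), (nat_lit 0)]) PF.nil)) (PF.cons PF.nil (PF.cons PF.nil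 PF.nil))))))))) (PF.cons (PF.cons (PF.cons (PF.leaf (nat_lit 3354487) (nat_lit 3940389) (nat_lit 53232815) (nat_lit 9935607) [(nat_lit 0), (nat_lit 0), (nat_lit 3940389), (nat_lit 0)]) (PF.cons (PF.leaf (nat_lit 3664115) (nat_lit 545301) (nat_lit 52635364) (nat_lit 9946344) [(nat_lit 545301), (nat_lit 0), (nat_lit 3981802), (nat_lit 0)]) (PF.cons (PF.leaf (nat_lit 4002408) (nat_lit 571954) (nat_lit 51990244) (nat_lit
 9953052) [(nat_lit 571954), (nat_lit 0), (nat_lit 4021607), (nat_lit 0)]) (PF.cons (PF.leaf (nat_lit 4363720) (nat_lit 595529) (nat_lit 51308643) (nat_lit 9954872) [(nat_lit 595529), (nat_lit 0), (nat_lit 4058708), (nat_lit 0)]) (PF.cons (PF.leaf (nat_lit 4744013) (nat_lit 616536) (nat_lit 50598956) (nat_lit 9951263) [(nat_lit 616536), (nat_lit 0), (nat_lit 4092448), (nat_lit 0)]) (PF.cons (PF.leaf (nat_lit 5140019) (nat_lit 635320) (nat_lit 49867850) (nat_lit 9941912) [(nat_lit 635320), (nat_lit 0), (nat_lit 4122446), (nat_lit 0)]) (PF.cons (PF.leaf (nat_lit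 5548998) (nat_lit 652136) (nat_lit 49120805) (nat_lit 9926686) [(nat_lit 652136), (nat_lit 0), (nat_lit 4148503), (nat_lit 0)]) (PF.cons (PF.leaf (nat_lit 5968579) (nat_lit 667177) (nat_lit 48362431) (nat_lit 9905584) [(nat_lit 667177), (nat_lit 0), (nat_lit 4170553), (nat_lit 0)]) (PF.cons PF.nil (PF.cons PF.nil PF.nil)))))))))) (PF.cons (PF.cons (PF.leaf (nat_lit 4127381) (nat_lit 1789605) (nat_lit 51327756) (nat_lit 9946486) [(nat_lit 0), (nat_lit 1789605), (nat_lit 4044964), (nat_lit 0)]) (PF.cons (PF.leaf (nat_lit 4476620) (nat_lit 598637) (nat_lit 50666764) (nat_lit 9943600) [(nat_lit 598637), (nat_lit 1822374),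
 (nat_lit 4077435), (nat_lit 0)]) (PF.cons (PF.leaf (nat_lit 4846694) (nat_lit 619291) (nat_lit 49975011) (nat_lit 9935566) [(nat_lit 619291), (nat_lit 1852592), (nat_lit 4107059), (nat_lit 0)]) (PF.cons (PF.leaf (nat_lit 5233514) (nat_lit 637663) (nat_lit 49260282) (nat_lit 9922082) [(nat_lit 637663), (nat_lit 1880097), (nat_lit 4133360), (nat_lit 0)]) (PF.cons (PF.leaf (nat_lit 5634010) (nat_lit 654043) (nat_lit 48528682) (nat_lit 9903019) [(nat_lit 654043), (nat_lit 1904854), (nat_lit 4156083), (nat_lit 0)]) (PF.cons (PF.leaf (nat_lit 6045613) (nat_lit 668647) (nat_lit 47785177) (nat_lit 9878385) [(nat_lit 668647), (nat_lit 1926895), (nat_lit 4175114), (nat_lit 0)]) (PF.cons (PF.leaf (nat_lit 6466121) (nat_lit 681647) (nat_lit 47033903) (nat_lit 9848284) [(nat_lit 681647), (nat_lit 1946296), (nat_lit 4190443), (nat_lit 0)]) (PF.cons PF.nil (PF.cons PF.nil PF.nil))))))))) (PF.cons (PF.cons (PF.leaf (nat_lit 4952217) (nat_lit 1863543) (nat_lit 49346068) (nat_lit 9916143)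 [(nat_lit 0), (nat_lit 1863543), (nat_lit 4119514), (nat_lit 0)]) (PF.cons (PF.leaf (nat_lit 5328418) (nat_lit 639264) (nat_lit 48650663) (nat_lit 9898917) [(nat_lit 639264), (nat_lit 1888837), (nat_lit 4142292),
 (nat_lit 0)]) (PF.cons (PF.leaf (nat_lit 5719595) (nat_lit 655327) (nat_lit 47936617) (nat_lit 9876379) [(nat_lit 655327), (nat_lit 1911653), (nat_lit 4161852), (nat_lit 0)]) (PF.cons (PF.leaf (nat_lit 6122647) (nat_lit 669585) (nat_lit 47209535) (nat_lit 9848542) [(nat_lit 669585), (nat_lit 1931971), (nat_lit 4178034), (nat_lit 0)]) (PF.cons (PF.leaf (nat_lit 6535162) (nat_lit 682231) (nat_lit 46473925) (nat_lit 9815513) [(nat_lit 682231), (nat_lit 1949829), (nat_lit 4190790), (nat_lit 0)]) (PF.cons (PF.leaf (nat_lit 6955098) (nat_lit 693416) (nat_lit 45733502) (nat_lit 9777471) [(nat_lit 693416), (nat_lit 1965303), (nat_lit 4200149), (nat_lit 0)]) (PF.cons PF.nil PF.nil))))))) (PF.cons (PF.cons (PF.leaf (nat_lit 5806915) (nat_lit 1917528) (nat_lit 47343522)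 (nat_lit 9846805) [(nat_lit 0), (nat_lit 1917528), (nat_lit 4165901), (nat_lit 0)]) (PF.cons (PF.leaf (nat_lit 6200418) (nat_lit 669968) (nat_lit 46634752) (nat_lit 9816112) [(nat_lit 669968), (nat_lit 1936195), (nat_lit 4179392), (nat_lit 0)]) (PF.cons (PF.leaf (nat_lit 6604388) (nat_lit 682341) (nat_lit 45916178) (nat_lit 9780467) [(nat_lit 682341), (nat_lit 1952586), (nat_lit 4189725), (nat_lit 0)]) (PF.cons (PF.leaf
 (nat_lit 7016377) (nat_lit 693242) (nat_lit 45191895) (nat_lit 9740052) [(nat_lit 693242), (nat_lit 1966745), (nat_lit 4196903), (nat_lit 0)]) (PF.cons PF.nil PF.nil))))) (PF.cons (PF.cons (PF.leaf (nat_lit 6674681) (nat_lit 1954606) (nat_lit 45359889) (nat_lit 9743183) [(nat_lit 0), (nat_lit 1954606), (nat_lit 4187312), (nat_lit 0)]) (PF.cons (PF.leaf (nat_lit 7078018) (nat_lit 692644) (nat_lit 44652964) (nat_lit 9700686) [(nat_lit 692644), (nat_lit 1967518), (nat_lit 4192445), (nat_lit 0)]) (PF.cons (PF.leaf (nat_lit 7488297) (nat_lit 701988) (nat_lit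 43942671) (nat_lit 9653854) [(nat_lit 701988), (nat_lit 1978405), (nat_lit 4194690), (nat_lit 0)]) (PF.cons PF.nil PF.nil)))) (PF.cons (PF.cons (PF.leaf (nat_lit 7542791) (nat_lit 1977483) (nat_lit 43423079) (nat_lit 9610958) [(nat_lit 0), (nat_lit 1977483), (nat_lit 4187355), (nat_lit 0)]) (PF.cons PF.nil PF.nil)) (PF.cons PF.nil (PF.cons PF.nil PF.nil)))))))) (PF.cons (PF.cons (PF.cons (PF.leaf (nat_lit 4724442) (nat_lit 4091087) (nat_lit 49048125) (nat_lit 9878513) [(nat_lit 0), (nat_lit 0), (nat_lit 4091087), (nat_lit 0)]) (PF.cons (PF.leaf (nat_lit 5075336) (nat_lit 617359) (nat_lit 48402235) (nat_lit 9862042) [(nat_lit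
 617359), (nat_lit 0), (nat_lit 4113587), (nat_lit 0)]) (PF.cons (PF.leaf (nat_lit 5445119) (nat_lit 635757) (nat_lit 47729912) (nat_lit 9840615) [(nat_lit 635757), (nat_lit 0), (nat_lit 4133384), (nat_lit 0)]) (PF.cons (PF.leaf (nat_lit 5829764) (nat_lit 651908) (nat_lit 47038602) (nat_lit 9814168) [(nat_lit 651908), (nat_lit 0), (nat_lit 4150157), (nat_lit 0)]) (PF.cons (PF.leaf (nat_lit 6226307) (nat_lit 666134) (nat_lit 46334024) (nat_lit 9782747) [(nat_lit 666134), (nat_lit 0), (nat_lit 4163751), (nat_lit 0)]) (PF.cons (PF.leaf (nat_lit 6632315) (nat_lit 678671) (nat_lit 45620737) (nat_lit 9746475) [(nat_lit 678671), (nat_lit 0), (nat_lit 4174121), (nat_lit 0)]) (PF.cons (PF.leaf (nat_lit 7045756) (nat_lit 689702) (nat_lit 44902472) (nat_lit 9705533) [(nat_lit 689702), (nat_lit 0), (nat_lit 4181296), (nat_lit 0)]) (PF.cons PF.nil (PF.cons PF.nil PF.nil))))))))) (PF.cons (PF.cons (PF.leaf (nat_lit 5540367) (nat_lit 1891715) (nat_lit 47129964) (nat_lit 9810714) [(nat_lit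 0), (nat_lit 1891715), (nat_lit 4138209), (nat_lit 0)]) (PF.cons (PF.leaf (nat_lit 5914210) (nat_lit 652008) (nat_lit 46459012) (nat_lit 9781632) [(nat_lit 652008), (nat_lit 1911701), (nat_lit 4152229), (nat_lit
 0)]) (PF.cons (PF.leaf (nat_lit 6301368) (nat_lit 666065) (nat_lit 45772791) (nat_lit 9747760) [(nat_lit 666065), (nat_lit 1929414), (nat_lit 4163357), (nat_lit 0)]) (PF.cons (PF.leaf (nat_lit 6698845) (nat_lit 678388) (nat_lit 45076516) (nat_lit 9709235) [(nat_lit 678388), (nat_lit 1944874), (nat_lit 4171510), (nat_lit 0)]) (PF.cons (PF.leaf (nat_lit 7104386) (nat_lit 689183) (nat_lit 44374306) (nat_lit 9666249) [(nat_lit 689183), (nat_lit 1958143), (nat_lit 4176690), (nat_lit 0)]) (PF.cons PF.nil (PF.cons PF.nil PF.nil))))))) (PF.cons (PF.cons (PF.leaf (nat_lit 6378476) (nat_lit 1931940) (nat_lit 45211387) (nat_lit 9710391) [(nat_lit 0), (nat_lit 1931940), (nat_lit 4161575), (nat_lit 0)]) (PF.cons (PF.leaf (nat_lit 6766455) (nat_lit 677612) (nat_lit 44533773)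 (nat_lit 9669933) [(nat_lit 677612), (nat_lit 1946096), (nat_lit 4167650), (nat_lit 0)]) (PF.cons (PF.leaf (nat_lit 7163560) (nat_lit 688249) (nat_lit 43848791) (nat_lit 9625181) [(nat_lit 688249), (nat_lit 1958206), (nat_lit 4170964), (nat_lit 0)]) (PF.cons (PF.leaf (nat_lit 7567491) (nat_lit 697498) (nat_lit 43160171) (nat_lit 9576371) [(nat_lit 697498), (nat_lit 1968334), (nat_lit 4171553), (nat_lit 0)]) (PF.cons PF.nil
 PF.nil))))) (PF.cons (PF.cons (PF.leaf (nat_lit 7224124) (nat_lit 1957673) (nat_lit 43325140) (nat_lit 9582334) [(nat_lit 0), (nat_lit 1957673), (nat_lit 4164158), (nat_lit 0)]) (PF.cons (PF.leaf (nat_lit 7619583) (nat_lit 696011) (nat_lit 42653756) (nat_lit 9532192) [(nat_lit 696011), (nat_lit 1966824), (nat_lit 4163190), (nat_lit 0)]) (PF.cons PF.nil (PF.cons PF.nil PF.nil)))) (PF.cons (PF.cons (PF.leaf (nat_lit 8066456) (nat_lit 1971333) (nat_lit 41493421) (nat_lit 9431742) [(nat_lit 0), (nat_lit 1971333), (nat_lit 4149157), (nat_lit 0)]) (PF.cons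 PF.nil PF.nil)) (PF.cons PF.nil PF.nil)))))) (PF.cons (PF.cons (PF.cons (PF.leaf (nat_lit 6102606) (nat_lit 4135099) (nat_lit 45028050) (nat_lit 9675465) [(nat_lit 0), (nat_lit 0), (nat_lit 4135099), (nat_lit 0)]) (PF.cons (PF.leaf (nat_lit 6472491) (nat_lit 660448) (nat_lit 44385083) (nat_lit 9637194) [(nat_lit 660448), (nat_lit 0), (nat_lit 4142028), (nat_lit 0)]) (PF.cons (PF.leaf (nat_lit 6854301) (nat_lit 672770) (nat_lit 43729538) (nat_lit 9594636) [(nat_lit 672770), (nat_lit 0), (nat_lit 4146365), (nat_lit 0)]) (PF.cons (PF.leaf (nat_lit 7245152) (nat_lit 683432) (nat_lit 43066244) (nat_lit 9548018) [(nat_lit 683432), (nat_lit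
 0), (nat_lit 4148084), (nat_lit 0)]) (PF.cons (PF.leaf (nat_lit 7642909) (nat_lit 692650) (nat_lit 42398959) (nat_lit 9497584) [(nat_lit 692650), (nat_lit 0), (nat_lit 4147222), (nat_lit 0)]) (PF.cons PF.nil (PF.cons PF.nil PF.nil))))))) (PF.cons (PF.cons (PF.leaf (nat_lit 6921998) (nat_lit 1936467) (nat_lit 43200429) (nat_lit 9551653) [(nat_lit 0), (nat_lit 1936467), (nat_lit 4140087), (nat_lit 0)]) (PF.cons (PF.leaf (nat_lit 7303489) (nat_lit 681741) (nat_lit 42555665) (nat_lit 9503844) [(nat_lit 681741), (nat_lit 1946890), (nat_lit 4140223), (nat_lit 0)]) (PF.cons (PF.leaf (nat_lit 7692998) (nat_lit 690894) (nat_lit 41905390) (nat_lit 9452322) [(nat_lit 690894), (nat_lit 1955476), (nat_lit 4137944), (nat_lit 0)]) (PF.cons PF.nil (PF.cons PF.nil PF.nil))))) (PF.cons (PF.cons (PF.leaf (nat_lit 7744756) (nat_lit 1952949) (nat_lit 41413867) (nat_lit 9405648) [(nat_lit 0), (nat_lit 1952949), (nat_lit 4127799), (nat_lit 0)]) (PF.cons (PF.leaf (nat_lit 8131879) (nat_lit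 696556) (nat_lit 40778274) (nat_lit 9349946) [(nat_lit 696556), (nat_lit 1959014), (nat_lit 4122002), (nat_lit 0)]) (PF.cons PF.nil (PF.cons PF.nil PF.nil)))) (PF.cons (PF.cons (PF.leaf (nat_lit 8561537) (nat_lit
 1959153) (nat_lit 39686054) (nat_lit 9242108) [(nat_lit 0), (nat_lit 1959153), (nat_lit 4101062), (nat_lit 0)]) (PF.cons PF.nil PF.nil)) (PF.cons PF.nil PF.nil))))) (PF.cons (PF.cons (PF.cons (PF.leaf (nat_lit 7438681) (nat_lit 4105455) (nat_lit 41309671) (nat_lit 9377318) [(nat_lit 0), (nat_lit 0), (nat_lit 4105455), (nat_lit 0)]) (PF.cons (PF.leaf (nat_lit 7813046) (nat_lit 683039) (nat_lit 40698220) (nat_lit 9324114) [(nat_lit 683039), (nat_lit 0), (nat_lit 4100859), (nat_lit 0)]) (PF.cons (PF.leaf (nat_lit 8194530) (nat_lit 690924) (nat_lit 40082664) (nat_lit 9267703) [(nat_lit 690924), (nat_lit 0), (nat_lit 4094149), (nat_lit 0)]) (PF.cons PF.nil PF.nil)))) (PF.cons (PF.cons (PF.leaf (nat_lit 8238357) (nat_lit 1942133) (nat_lit 39622142) (nat_lit 9218548)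 [(nat_lit 0), (nat_lit 1942133), (nat_lit 4081497), (nat_lit 0)]) (PF.cons (PF.leaf (nat_lit 8616914) (nat_lit 694853) (nat_lit 39021737) (nat_lit 9158948) [(nat_lit 694853), (nat_lit 1945671), (nat_lit 4071900), (nat_lit 0)]) PF.nil)) (PF.cons PF.nil PF.nil))) (PF.cons (PF.cons (PF.cons (PF.leaf (nat_lit 8706782) (nat_lit 4027824) (nat_lit 37944466) (nat_lit 9025222) [(nat_lit 0), (nat_lit 0), (nat_lit 4027824), (nat_lit
 0)]) (PF.cons PF.nil PF.nil)) (PF.cons PF.nil PF.nil)) (PF.cons PF.nil (PF.cons PF.nil PF.nil)))))))) (PF.cons (PF.cons (PF.cons (PF.cons (PF.leaf (nat_lit 4211629) (nat_lit 9010936) (nat_lit 48374380) (nat_lit 9723495) [(nat_lit 0), (nat_lit 0), (nat_lit 0), (nat_lit 9010936)]) (PF.cons (PF.leaf (nat_lit 4516723) (nat_lit 559564) (nat_lit 47830661) (nat_lit 9712732) [(nat_lit 559564), (nat_lit 0), (nat_lit 0), (nat_lit 9005853)]) (PF.cons (PF.leaf (nat_lit 4847879) (nat_lit 583744) (nat_lit 47246789) (nat_lit 9697656) [(nat_lit 583744), (nat_lit 0),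 (nat_lit 0), (nat_lit 8996877)]) (PF.cons (PF.leaf (nat_lit 5199423) (nat_lit 604663) (nat_lit 46633109) (nat_lit 9678033) [(nat_lit 604663), (nat_lit 0), (nat_lit 0), (nat_lit 8983678)]) (PF.cons (PF.leaf (nat_lit 5567414) (nat_lit 622934) (nat_lit 45997232) (nat_lit 9653757) [(nat_lit 622934), (nat_lit 0), (nat_lit 0), (nat_lit 8966085)]) (PF.cons (PF.leaf (nat_lit 5948715) (nat_lit 638974) (nat_lit 45345066) (nat_lit 9624825) [(nat_lit 638974), (nat_lit 0), (nat_lit 0), (nat_lit 8944047)]) (PF.cons (PF.leaf (nat_lit 6340799) (nat_lit 653088) (nat_lit 44681357) (nat_lit 9591317) [(nat_lit 653088), (nat_lit 0), (nat_lit 0), (nat_lit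
 8917605)]) (PF.cons (PF.leaf (nat_lit 6741493) (nat_lit 665509) (nat_lit 44010006) (nat_lit 9553372) [(nat_lit 665509), (nat_lit 0), (nat_lit 0), (nat_lit 8886866)]) (PF.cons (PF.leaf (nat_lit 7148960) (nat_lit 676422) (nat_lit 43334267) (nat_lit 9511175) [(nat_lit 676422), (nat_lit 0), (nat_lit 0), (nat_lit 8851990)]) (PF.cons PF.nil PF.nil)))))))))) (PF.cons (PF.cons (PF.leaf (nat_lit 4956907) (nat_lit 1803923) (nat_lit 46656869) (nat_lit 9671466) [(nat_lit 0), (nat_lit 1803923), (nat_lit 0), (nat_lit 8976553)]) (PF.cons (PF.leaf (nat_lit 5296047) (nat_lit 605417) (nat_lit 46064050) (nat_lit 9649274) [(nat_lit 605417), (nat_lit 1829453), (nat_lit 0), (nat_lit 8960617)]) (PF.cons (PF.leaf (nat_lit 5653654) (nat_lit 623534) (nat_lit 45446290) (nat_lit 9622545) [(nat_lit 623534), (nat_lit 1852468), (nat_lit 0), (nat_lit 8940438)]) (PF.cons (PF.leaf (nat_lit 6025766) (nat_lit 639349) (nat_lit 44810524) (nat_lit 9591312) [(nat_lit 639349), (nat_lit 1872938), (nat_lit 0),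 (nat_lit 8915989)]) (PF.cons (PF.leaf (nat_lit 6409483) (nat_lit 653203) (nat_lit 44162083) (nat_lit 9555674) [(nat_lit 653203), (nat_lit 1890919), (nat_lit 0), (nat_lit 8887320)]) (PF.cons (PF.leaf (nat_lit 6802446)
 (nat_lit 665353) (nat_lit 43505211) (nat_lit 9515780) [(nat_lit 665353), (nat_lit 1906506), (nat_lit 0), (nat_lit 8854547)]) (PF.cons (PF.leaf (nat_lit 7202669) (nat_lit 675995) (nat_lit 42843372) (nat_lit 9471822) [(nat_lit 675995), (nat_lit 1919816), (nat_lit 0), (nat_lit 8817830)]) (PF.cons (PF.leaf (nat_lit 7608456) (nat_lit 685288) (nat_lit 42179433) (nat_lit 9424020) [(nat_lit 685288), (nat_lit 1930973), (nat_lit 0), (nat_lit 8777364)]) (PF.cons PF.nil PF.nil))))))))) (PF.cons (PF.cons (PF.leaf (nat_lit 5743111) (nat_lit 1857804) (nat_lit 44892230) (nat_lit 9588707) [(nat_lit 0), (nat_lit 1857804), (nat_lit 0), (nat_lit 8912265)]) (PF.cons (PF.leaf (nat_lit 6104673) (nat_lit 639094) (nat_lit 44275234) (nat_lit 9555519) [(nat_lit 639094), (nat_lit 1876619),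 (nat_lit 0), (nat_lit 8885724)]) (PF.cons (PF.leaf (nat_lit 6479265) (nat_lit 652802) (nat_lit 43643712) (nat_lit 9518048) [(nat_lit 652802), (nat_lit 1893168), (nat_lit 0), (nat_lit 8855108)]) (PF.cons (PF.leaf (nat_lit 6863965) (nat_lit 664764) (nat_lit 43002505) (nat_lit 9476467) [(nat_lit 664764), (nat_lit 1907499), (nat_lit 0), (nat_lit 8820546)]) (PF.cons (PF.leaf (nat_lit 7256573) (nat_lit 675200) (nat_lit 42355430)
 (nat_lit 9430978) [(nat_lit 675200), (nat_lit 1919697), (nat_lit 0), (nat_lit 8782206)]) (PF.cons (PF.leaf (nat_lit 7655256) (nat_lit 684282) (nat_lit 41705577) (nat_lit 9381805) [(nat_lit 684282), (nat_lit 1929866), (nat_lit 0), (nat_lit 8740283)]) (PF.cons PF.nil PF.nil))))))) (PF.cons (PF.cons (PF.leaf (nat_lit 6551235) (nat_lit 1894747) (nat_lit 43125189) (nat_lit 9478421) [(nat_lit 0), (nat_lit 1894747), (nat_lit 0), (nat_lit 8820960)]) (PF.cons (PF.leaf (nat_lit 6926728) (nat_lit 663714) (nat_lit 42501140) (nat_lit 9435436) [(nat_lit 663714),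 (nat_lit 1907882), (nat_lit 0), (nat_lit 8784874)]) (PF.cons (PF.leaf (nat_lit 7311203) (nat_lit 674020) (nat_lit 41869888) (nat_lit 9388660) [(nat_lit 674020), (nat_lit 1919028), (nat_lit 0), (nat_lit 8745139)]) (PF.cons (PF.leaf (nat_lit 7702418) (nat_lit 682950) (nat_lit 41234880) (nat_lit 9338330) [(nat_lit 682950), (nat_lit 1928263), (nat_lit 0), (nat_lit 8701961)]) (PF.cons (PF.leaf (nat_lit 8098678) (nat_lit 690657) (nat_lit 40598880) (nat_lit 9284693) [(nat_lit 690657), (nat_lit 1935683), (nat_lit 0), (nat_lit 8655557)]) PF.nil))))) (PF.cons (PF.cons (PF.leaf (nat_lit 7367385) (nat_lit 1917832) (nat_lit 41386000) (nat_lit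
 9344857) [(nat_lit 0), (nat_lit 1917832), (nat_lit 0), (nat_lit 8706627)]) (PF.cons (PF.leaf (nat_lit 7750447) (nat_lit 681272) (nat_lit 40766788) (nat_lit 9293598) [(nat_lit 681272), (nat_lit 1926186), (nat_lit 0), (nat_lit 8662407)]) (PF.cons (PF.leaf (nat_lit 8139409) (nat_lit 688871) (nat_lit 40145558) (nat_lit 9239135) [(nat_lit 688871), (nat_lit 1932825), (nat_lit 0), (nat_lit 8615074)]) (PF.cons PF.nil PF.nil)))) (PF.cons (PF.cons (PF.leaf (nat_lit 8181315) (nat_lit 1929558) (nat_lit 39694963) (nat_lit 9192510) [(nat_lit 0), (nat_lit 1929558), (nat_lit 0), (nat_lit 8573543)]) (PF.cons (PF.leaf (nat_lit 8567144) (nat_lit 693195) (nat_lit 39088766) (nat_lit 9134567) [(nat_lit 693195), (nat_lit 1933919), (nat_lit 0), (nat_lit 8522688)]) PF.nil)) (PF.cons PF.nil (PF.cons PF.nil PF.nil)))))))) (PF.cons (PF.cons (PF.cons (PF.leaf (nat_lit 5505006) (nat_lit 4035040) (nat_lit 44648094) (nat_lit 9550120) [(nat_lit 0), (nat_lit 0), (nat_lit 4035040), (nat_lit 8875557)])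 (PF.cons (PF.leaf (nat_lit 5843631) (nat_lit 617598) (nat_lit 44074282) (nat_lit 9519185) [(nat_lit 617598), (nat_lit 0), (nat_lit 4046842), (nat_lit 8850904)]) (PF.cons (PF.leaf (nat_lit 6199126) (nat_lit 633784)
 (nat_lit 43478842) (nat_lit 9483956) [(nat_lit 633784), (nat_lit 0), (nat_lit 4056213), (nat_lit 8822231)]) (PF.cons (PF.leaf (nat_lit 6567628) (nat_lit 647741) (nat_lit 42868321) (nat_lit 9444612) [(nat_lit 647741), (nat_lit 0), (nat_lit 4063000), (nat_lit 8789653)]) (PF.cons (PF.leaf (nat_lit 6946365) (nat_lit 659830) (nat_lit 42247666) (nat_lit 9401348) [(nat_lit 659830), (nat_lit 0), (nat_lit 4067154), (nat_lit 8753320)]) (PF.cons (PF.leaf (nat_lit 7333095) (nat_lit 670312) (nat_lit 41620757) (nat_lit 9354380) [(nat_lit 670312), (nat_lit 0), (nat_lit 4068702), (nat_lit 8713411)]) (PF.cons (PF.leaf (nat_lit 7725975) (nat_lit 679387) (nat_lit 40990714) (nat_lit 9303936) [(nat_lit 679387), (nat_lit 0), (nat_lit 4067711), (nat_lit 8670124)]) (PF.cons PF.nil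 (PF.cons PF.nil PF.nil))))))))) (PF.cons (PF.cons (PF.leaf (nat_lit 6279634) (nat_lit 1869982) (nat_lit 42953671) (nat_lit 9444023) [(nat_lit 0), (nat_lit 1869982), (nat_lit 4053233), (nat_lit 8787902)]) (PF.cons (PF.leaf (nat_lit 6637609) (nat_lit 646402) (nat_lit 42362128) (nat_lit 9403468) [(nat_lit 646402), (nat_lit 1884695), (nat_lit 4058152), (nat_lit 8753964)]) (PF.cons (PF.leaf (nat_lit 7007310) (nat_lit 658463)
 (nat_lit 41758484) (nat_lit 9359054) [(nat_lit 658463), (nat_lit 1897346), (nat_lit 4060646), (nat_lit 8716353)]) (PF.cons (PF.leaf (nat_lit 7385922) (nat_lit 668860) (nat_lit 41147216) (nat_lit 9311025) [(nat_lit 668860), (nat_lit 1908005), (nat_lit 4060712), (nat_lit 8675270)]) (PF.cons (PF.leaf (nat_lit 7771377) (nat_lit 677821) (nat_lit 40531809) (nat_lit 9259627) [(nat_lit 677821), (nat_lit 1916767), (nat_lit 4058397), (nat_lit 8630925)]) (PF.cons (PF.leaf (nat_lit 8161969) (nat_lit 685520) (nat_lit 39915042) (nat_lit 9205107) [(nat_lit 685520),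 (nat_lit 1923735), (nat_lit 4053786), (nat_lit 8583538)]) (PF.cons PF.nil PF.nil))))))) (PF.cons (PF.cons (PF.leaf (nat_lit 7070704) (nat_lit 1896591) (nat_lit 41269553) (nat_lit 9315119) [(nat_lit 0), (nat_lit 1896591), (nat_lit 4053158), (nat_lit 8677799)]) (PF.cons (PF.leaf (nat_lit 7440263) (nat_lit 666994) (nat_lit 40675256) (nat_lit 9266290) [(nat_lit 666994), (nat_lit 1906316), (nat_lit 4051852), (nat_lit 8635785)]) (PF.cons (PF.leaf (nat_lit 7817778) (nat_lit 675912) (nat_lit 40075412) (nat_lit 9214157) [(nat_lit 675912), (nat_lit 1914257), (nat_lit 4048314), (nat_lit 8590587)]) (PF.cons (PF.leaf (nat_lit 8201126) (nat_lit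
 683537) (nat_lit 39473163) (nat_lit 9158985) [(nat_lit 683537), (nat_lit 1920499), (nat_lit 4042613), (nat_lit 8542440)]) (PF.cons PF.nil PF.nil))))) (PF.cons (PF.cons (PF.leaf (nat_lit 7865979) (nat_lit 1911318) (nat_lit 39620790) (nat_lit 9167497) [(nat_lit 0), (nat_lit 1911318), (nat_lit 4037480), (nat_lit 8549089)]) (PF.cons (PF.leaf (nat_lit 8241399) (nat_lit 681245) (nat_lit 39033899) (nat_lit 9111876) [(nat_lit 681245), (nat_lit 1916878), (nat_lit 4030781), (nat_lit 8500373)]) (PF.cons (PF.leaf (nat_lit 8621948) (nat_lit 687690) (nat_lit 38446022) (nat_lit 9053535) [(nat_lit 687690), (nat_lit 1920915), (nat_lit 4022120), (nat_lit 8449008)]) (PF.cons PF.nil PF.nil)))) (PF.cons (PF.cons (PF.leaf (nat_lit 8656583) (nat_lit 1916360) (nat_lit 38023708) (nat_lit 9005205) [(nat_lit 0), (nat_lit 1916360), (nat_lit 4008835), (nat_lit 8405621)]) (PF.cons PF.nil PF.nil)) (PF.cons PF.nil PF.nil)))))) (PF.cons (PF.cons (PF.cons (PF.leaf (nat_lit 6793002) (nat_lit 4028319)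 (nat_lit 41122710) (nat_lit 9282783) [(nat_lit 0), (nat_lit 0), (nat_lit 4028319), (nat_lit 8646679)]) (PF.cons (PF.leaf (nat_lit 7146385) (nat_lit 650578) (nat_lit 40558063) (nat_lit 9236646) [(nat_lit 650578),
 (nat_lit 0), (nat_lit 4028222), (nat_lit 8607079)]) (PF.cons (PF.leaf (nat_lit 7510385) (nat_lit 661213) (nat_lit 39983258) (nat_lit 9187044) [(nat_lit 661213), (nat_lit 0), (nat_lit 4025950), (nat_lit 8564181)]) (PF.cons (PF.leaf (nat_lit 7882300) (nat_lit 670267) (nat_lit 39402433) (nat_lit 9134272) [(nat_lit 670267), (nat_lit 0), (nat_lit 4021535), (nat_lit 8518234)]) (PF.cons (PF.leaf (nat_lit 8260176) (nat_lit 677967) (nat_lit 38818768) (nat_lit 9078600) [(nat_lit 677967), (nat_lit 0), (nat_lit 4015047), (nat_lit 8469476)]) (PF.cons PF.nil (PF.cons PF.nil PF.nil))))))) (PF.cons (PF.cons (PF.leaf (nat_lit 7565931) (nat_lit 1891608) (nat_lit 39523369) (nat_lit 9140179) [(nat_lit 0), (nat_lit 1891608), (nat_lit 4015545), (nat_lit 8522565)]) (PF.cons (PF.leaf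 (nat_lit 7929000) (nat_lit 667760) (nat_lit 38959068) (nat_lit 9087088) [(nat_lit 667760), (nat_lit 1898512), (nat_lit 4010111), (nat_lit 8476160)]) (PF.cons (PF.leaf (nat_lit 8299163) (nat_lit 675489) (nat_lit 38390491) (nat_lit 9031119) [(nat_lit 675489), (nat_lit 1903809), (nat_lit 4002716), (nat_lit 8426981)]) (PF.cons (PF.leaf (nat_lit 8674405) (nat_lit 682001) (nat_lit 37820505) (nat_lit 8972552) [(nat_lit 682001),
 (nat_lit 1907592), (nat_lit 3993441), (nat_lit 8375276)]) (PF.cons PF.nil PF.nil))))) (PF.cons (PF.cons (PF.leaf (nat_lit 8340157) (nat_lit 1899518) (nat_lit 37963994) (nat_lit 8982680) [(nat_lit 0), (nat_lit 1899518), (nat_lit 3989775), (nat_lit 8383550)]) (PF.cons (PF.leaf (nat_lit 8707722) (nat_lit 679232) (nat_lit 37408770) (nat_lit 8924044) [(nat_lit 679232), (nat_lit 1902781), (nat_lit 3979776), (nat_lit 8331649)]) (PF.cons PF.nil (PF.cons PF.nil PF.nil)))) (PF.cons (PF.cons (PF.leaf (nat_lit 9107923) (nat_lit 1899147) (nat_lit 36457782) (nat_lit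 8813890) [(nat_lit 0), (nat_lit 1899147), (nat_lit 3953318), (nat_lit 8233060)]) (PF.cons PF.nil PF.nil)) (PF.cons PF.nil PF.nil))))) (PF.cons (PF.cons (PF.cons (PF.leaf (nat_lit 8038167) (nat_lit 3969595) (nat_lit 37882902) (nat_lit 8957788) [(nat_lit 0), (nat_lit 0), (nat_lit 3969595), (nat_lit 8359337)]) (PF.cons (PF.leaf (nat_lit 8394383) (nat_lit 666505) (nat_lit 37348167) (nat_lit 8901709) [(nat_lit 666505), (nat_lit 0), (nat_lit 3960881), (nat_lit 8309785)]) (PF.cons (PF.leaf (nat_lit 8756988) (nat_lit 673213) (nat_lit 36810130) (nat_lit 8843122) [(nat_lit 673213), (nat_lit 0), (nat_lit 3950440), (nat_lit 8257812)]) (PF.cons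
 PF.nil PF.nil)))) (PF.cons (PF.cons (PF.leaf (nat_lit 8791494) (nat_lit 1883607) (nat_lit 36410345) (nat_lit 8793740) [(nat_lit 0), (nat_lit 1883607), (nat_lit 3935950), (nat_lit 8213266)]) (PF.cons (PF.leaf (nat_lit 9151141) (nat_lit 675640) (nat_lit 35885702) (nat_lit 8733156) [(nat_lit 675640), (nat_lit 1884984), (nat_lit 3923367), (nat_lit 8159225)]) PF.nil)) (PF.cons PF.nil PF.nil))) (PF.cons (PF.cons (PF.cons (PF.leaf (nat_lit 9221564) (nat_lit 3877713) (nat_lit 34953974) (nat_lit 8603235) [(nat_lit 0), (nat_lit 0), (nat_lit 3877713), (nat_lit 8040750)]) (PF.cons (PF.leaf (nat_lit 9573305) (nat_lit 670797) (nat_lit 34458554) (nat_lit 8541548) [(nat_lit 670797), (nat_lit 0), (nat_lit 3863128), (nat_lit 7985396)]) PF.nil)) (PF.cons PF.nil PF.nil)) (PF.cons PF.nil PF.nil)))))) (PF.cons (PF.cons (PF.cons (PF.cons (PF.leaf (nat_lit 6198403) (nat_lit 8543215) (nat_lit 40845206) (nat_lit 9177175) [(nat_lit 0), (nat_lit 0), (nat_lit 0), (nat_lit 8543215)]) (PF.cons (PF.leaf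 (nat_lit 6524406) (nat_lit 611182) (nat_lit 40337873) (nat_lit 9138523) [(nat_lit 611182), (nat_lit 0), (nat_lit 0), (nat_lit 8510616)]) (PF.cons (PF.leaf (nat_lit 6865720) (nat_lit 625626) (nat_lit 39812438)
 (nat_lit 9096120) [(nat_lit 625626), (nat_lit 0), (nat_lit 0), (nat_lit 8474500)]) (PF.cons (PF.leaf (nat_lit 7218637) (nat_lit 637893) (nat_lit 39274624) (nat_lit 9050275) [(nat_lit 637893), (nat_lit 0), (nat_lit 0), (nat_lit 8435116)]) (PF.cons (PF.leaf (nat_lit 7580566) (nat_lit 648363) (nat_lit 38728704) (nat_lit 9001263) [(nat_lit 648363), (nat_lit 0), (nat_lit 0), (nat_lit 8392694)]) (PF.cons (PF.leaf (nat_lit 7949434) (nat_lit 657312) (nat_lit 38177991) (nat_lit 8949343) [(nat_lit 657312), (nat_lit 0), (nat_lit 0), (nat_lit 8347458)]) (PF.cons (PF.leaf (nat_lit 8323552) (nat_lit 664947) (nat_lit 37625119) (nat_lit 8894759) [(nat_lit 664947), (nat_lit 0), (nat_lit 0), (nat_lit 8299624)]) (PF.cons PF.nil (PF.cons PF.nil PF.nil))))))))) (PF.cons (PF.cons (PF.leaf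 (nat_lit 6934433) (nat_lit 1832942) (nat_lit 39353559) (nat_lit 9051641) [(nat_lit 0), (nat_lit 1832942), (nat_lit 0), (nat_lit 8435335)]) (PF.cons (PF.leaf (nat_lit 7277213) (nat_lit 635621) (nat_lit 38832893) (nat_lit 9005460) [(nat_lit 635621), (nat_lit 1843934), (nat_lit 0), (nat_lit 8395451)]) (PF.cons (PF.leaf (nat_lit 7630513) (nat_lit 646163) (nat_lit 38302270) (nat_lit 8956093) [(nat_lit 646163), (nat_lit
 1853052), (nat_lit 0), (nat_lit 8352533)]) (PF.cons (PF.leaf (nat_lit 7991698) (nat_lit 655120) (nat_lit 37765543) (nat_lit 8903838) [(nat_lit 655120), (nat_lit 1860396), (nat_lit 0), (nat_lit 8306836)]) (PF.cons (PF.leaf (nat_lit 8358859) (nat_lit 662727) (nat_lit 37225681) (nat_lit 8848959) [(nat_lit 662727), (nat_lit 1866075), (nat_lit 0), (nat_lit 8258593)]) (PF.cons PF.nil (PF.cons PF.nil PF.nil))))))) (PF.cons (PF.cons (PF.leaf (nat_lit 7683199) (nat_lit 1850230) (nat_lit 37876132) (nat_lit 8909748) [(nat_lit 0), (nat_lit 1850230), (nat_lit 0), (nat_lit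 8311234)]) (PF.cons (PF.leaf (nat_lit 8035797) (nat_lit 652570) (nat_lit 37354500) (nat_lit 8857376) [(nat_lit 652570), (nat_lit 1856902), (nat_lit 0), (nat_lit 8265279)]) (PF.cons (PF.leaf (nat_lit 8395501) (nat_lit 660215) (nat_lit 36828411) (nat_lit 8802383) [(nat_lit 660215), (nat_lit 1861998), (nat_lit 0), (nat_lit 8216795)]) (PF.cons (PF.leaf (nat_lit 8760326) (nat_lit 666650) (nat_lit 36300539) (nat_lit 8745039) [(nat_lit 666650), (nat_lit 1865616), (nat_lit 0), (nat_lit 8166024)]) (PF.cons PF.nil PF.nil))))) (PF.cons (PF.cons (PF.leaf (nat_lit 8434225) (nat_lit 1857604) (nat_lit 36432643) (nat_lit 8754980) [(nat_lit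
 0), (nat_lit 1857604), (nat_lit 0), (nat_lit 8174188)]) (PF.cons (PF.leaf (nat_lit 8791627) (nat_lit 663875) (nat_lit 35918254) (nat_lit 8697712) [(nat_lit 663875), (nat_lit 1860746), (nat_lit 0), (nat_lit 8123366)]) (PF.cons (PF.leaf (nat_lit 9153598) (nat_lit 669284) (nat_lit 35403185) (nat_lit 8638350) [(nat_lit 669284), (nat_lit 1862569), (nat_lit 0), (nat_lit 8070499)]) (PF.cons PF.nil PF.nil)))) (PF.cons (PF.cons (PF.leaf (nat_lit 9180040) (nat_lit 1857040) (nat_lit 35035588) (nat_lit 8590549) [(nat_lit 0), (nat_lit 1857040), (nat_lit 0), (nat_lit 8027256)]) (PF.cons PF.nil PF.nil)) (PF.cons PF.nil PF.nil)))))) (PF.cons (PF.cons (PF.cons (PF.leaf (nat_lit 7406934) (nat_lit 3903890) (nat_lit 37758124) (nat_lit 8880592) [(nat_lit 0), (nat_lit 0), (nat_lit 3903890), (nat_lit 8283102)]) (PF.cons (PF.leaf (nat_lit 7744911) (nat_lit 636991) (nat_lit 37261875) (nat_lit 8831080) [(nat_lit 636991), (nat_lit 0), (nat_lit 3899372), (nat_lit 8239747)]) (PF.cons (PF.leaf (nat_lit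 8092519) (nat_lit 646342) (nat_lit 36757123) (nat_lit 8778696) [(nat_lit 646342), (nat_lit 0), (nat_lit 3892996), (nat_lit 8193655)]) (PF.cons (PF.leaf (nat_lit 8447209) (nat_lit 654190) (nat_lit 36247432)
 (nat_lit 8723761) [(nat_lit 654190), (nat_lit 0), (nat_lit 3884830), (nat_lit 8145108)]) (PF.cons (PF.leaf (nat_lit 8807172) (nat_lit 660768) (nat_lit 35735516) (nat_lit 8666555) [(nat_lit 660768), (nat_lit 0), (nat_lit 3874959), (nat_lit 8094353)]) (PF.cons PF.nil (PF.cons PF.nil PF.nil))))))) (PF.cons (PF.cons (PF.leaf (nat_lit 8138609) (nat_lit 1839420) (nat_lit 36356340) (nat_lit 8731020) [(nat_lit 0), (nat_lit 1839420), (nat_lit 3880316), (nat_lit 8150857)]) (PF.cons (PF.leaf (nat_lit 8484940) (nat_lit 651187) (nat_lit 35861190) (nat_lit 8676284) [(nat_lit 651187), (nat_lit 1843910), (nat_lit 3871506), (nat_lit 8102366)]) (PF.cons (PF.leaf (nat_lit 8837684) (nat_lit 657858) (nat_lit 35362497) (nat_lit 8619246) [(nat_lit 657858), (nat_lit 1846980), (nat_lit 3861066),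 (nat_lit 8051652)]) (PF.cons (PF.leaf (nat_lit 9194944) (nat_lit 663391) (nat_lit 34862707) (nat_lit 8560184) [(nat_lit 663391), (nat_lit 1848727), (nat_lit 3849088), (nat_lit 7998965)]) (PF.cons PF.nil PF.nil))))) (PF.cons (PF.cons (PF.leaf (nat_lit 8870436) (nat_lit 1841660) (nat_lit 34990912) (nat_lit 8571264) [(nat_lit 0), (nat_lit 1841660), (nat_lit 3846732), (nat_lit 8008291)]) (PF.cons (PF.leaf (nat_lit
 9220527) (nat_lit 660287) (nat_lit 34503988) (nat_lit 8512520) [(nat_lit 660287), (nat_lit 1843053), (nat_lit 3834320), (nat_lit 7955795)]) (PF.cons PF.nil (PF.cons PF.nil PF.nil)))) (PF.cons (PF.cons (PF.leaf (nat_lit 9595800) (nat_lit 1837081) (nat_lit 33672096) (nat_lit 8404179) [(nat_lit 0), (nat_lit 1837081), (nat_lit 3805051), (nat_lit 7858120)]) (PF.cons PF.nil PF.nil)) (PF.cons PF.nil PF.nil))))) (PF.cons (PF.cons (PF.cons (PF.leaf (nat_lit 8574201) (nat_lit 3828625) (nat_lit 34927635) (nat_lit 8549605) [(nat_lit 0), (nat_lit 0), (nat_lit 3828625), (nat_lit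 7987159)]) (PF.cons (PF.leaf (nat_lit 8914060) (nat_lit 648332) (nat_lit 34458192) (nat_lit 8493351) [(nat_lit 648332), (nat_lit 0), (nat_lit 3817505), (nat_lit 7936962)]) (PF.cons (PF.leaf (nat_lit 9259759) (nat_lit 654162) (nat_lit 33985914) (nat_lit 8435073) [(nat_lit 654162), (nat_lit 0), (nat_lit 3804940), (nat_lit 7884809)]) (PF.cons PF.nil PF.nil)))) (PF.cons (PF.cons (PF.leaf (nat_lit 9287135) (nat_lit 1822912) (nat_lit 33637112) (nat_lit 8387032) [(nat_lit 0), (nat_lit 1822912), (nat_lit 3789668), (nat_lit 7841209)]) (PF.cons (PF.leaf (nat_lit 9629935) (nat_lit 655568) (nat_lit 33176456) (nat_lit 8327512)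
 [(nat_lit 655568), (nat_lit 1822864), (nat_lit 3775476), (nat_lit 7787729)]) PF.nil)) (PF.cons PF.nil PF.nil))) (PF.cons (PF.cons (PF.cons (PF.leaf (nat_lit 9685642) (nat_lit 3730055) (nat_lit 32365765) (nat_lit 8203862) [(nat_lit 0), (nat_lit 0), (nat_lit 3730055), (nat_lit 7674508)]) (PF.cons PF.nil PF.nil)) (PF.cons PF.nil PF.nil)) (PF.cons PF.nil PF.nil))))) (PF.cons (PF.cons (PF.cons (PF.cons (PF.leaf (nat_lit 7959859) (nat_lit 7924787) (nat_lit 34847701) (nat_lit 8486747) [(nat_lit 0), (nat_lit 0), (nat_lit 0), (nat_lit 7924787)]) (PF.cons (PF.leaf (nat_lit 8283612) (nat_lit 621443) (nat_lit 34410201) (nat_lit 8436465) [(nat_lit 621443), (nat_lit 0), (nat_lit 0), (nat_lit 7880234)]) (PF.cons (PF.leaf (nat_lit 8616229) (nat_lit 629792) (nat_lit 33965393) (nat_lit 8383749) [(nat_lit 629792), (nat_lit 0), (nat_lit 0), (nat_lit 7833361)]) (PF.cons (PF.leaf (nat_lit 8955286) (nat_lit 636713) (nat_lit 33516362) (nat_lit 8328929) [(nat_lit 636713), (nat_lit 0), (nat_lit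 0), (nat_lit 7784459)]) (PF.cons (PF.leaf (nat_lit 9299096) (nat_lit 642440) (nat_lit 33065447) (nat_lit 8272277) [(nat_lit 642440), (nat_lit 0), (nat_lit 0), (nat_lit 7733775)]) PF.nil))))) (PF.cons (PF.cons
 (PF.leaf (nat_lit 8654862) (nat_lit 1784124) (nat_lit 33614587) (nat_lit 8336948) [(nat_lit 0), (nat_lit 1784124), (nat_lit 0), (nat_lit 7791050)]) (PF.cons (PF.leaf (nat_lit 8986011) (nat_lit 633420) (nat_lit 33178293) (nat_lit 8282629) [(nat_lit 633420), (nat_lit 1786936), (nat_lit 0), (nat_lit 7742510)]) (PF.cons (PF.leaf (nat_lit 9323050) (nat_lit 639284) (nat_lit 32738921) (nat_lit 8226417) [(nat_lit 639284), (nat_lit 1788478), (nat_lit 0), (nat_lit 7692142)]) (PF.cons PF.nil PF.nil)))) (PF.cons (PF.cons (PF.leaf (nat_lit 9349404) (nat_lit 1782593) (nat_lit 32413495) (nat_lit 8180062) [(nat_lit 0), (nat_lit 1782593), (nat_lit 0), (nat_lit 7650022)]) (PF.cons (PF.leaf (nat_lit 9683817) (nat_lit 640800) (nat_lit 31984344) (nat_lit 8122764) [(nat_lit 640800),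 (nat_lit 1782726), (nat_lit 0), (nat_lit 7598483)]) PF.nil)) (PF.cons PF.nil (PF.cons PF.nil PF.nil))))) (PF.cons (PF.cons (PF.cons (PF.leaf (nat_lit 9059824) (nat_lit 3688515) (nat_lit 32364006) (nat_lit 8161303) [(nat_lit 0), (nat_lit 0), (nat_lit 3688515), (nat_lit 7631662)]) (PF.cons (PF.leaf (nat_lit 9384907) (nat_lit 629577) (nat_lit 31949868) (nat_lit 8106367) [(nat_lit 629577), (nat_lit 0), (nat_lit 3676062),
 (nat_lit 7582312)]) (PF.cons (PF.leaf (nat_lit 9715420) (nat_lit 634736) (nat_lit 31533192) (nat_lit 8049753) [(nat_lit 634736), (nat_lit 0), (nat_lit 3662379), (nat_lit 7531338)]) (PF.cons PF.nil PF.nil)))) (PF.cons (PF.cons (PF.leaf (nat_lit 9737249) (nat_lit 1762409) (nat_lit 31227142) (nat_lit 8003843) [(nat_lit 0), (nat_lit 1762409), (nat_lit 3646953), (nat_lit 7489488)]) (PF.cons PF.nil PF.nil)) (PF.cons PF.nil PF.nil))) (PF.cons (PF.cons (PF.cons (PF.leaf (nat_lit 10109350) (nat_lit 3587826) (nat_lit 30110640) (nat_lit 7830121) [(nat_lit 0), (nat_lit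 0), (nat_lit 3587826), (nat_lit 7330799)]) (PF.cons PF.nil PF.nil)) (PF.cons PF.nil PF.nil)) PF.nil))) (PF.cons (PF.cons (PF.cons (PF.cons (PF.leaf (nat_lit 9504674) (nat_lit 7296590) (nat_lit 30126014) (nat_lit 7796437) [(nat_lit 0), (nat_lit 0), (nat_lit 0), (nat_lit 7296590)]) (PF.cons (PF.leaf (nat_lit 9816365) (nat_lit 610864) (nat_lit 29758739) (nat_lit 7743609) [(nat_lit 610864), (nat_lit 0), (nat_lit 0), (nat_lit 7248899)]) (PF.cons PF.nil PF.nil))) (PF.cons (PF.cons (PF.leaf (nat_lit 10150614) (nat_lit 1703427) (nat_lit 29119022) (nat_lit 7645928) [(nat_lit 0), (nat_lit 1703427), (nat_lit 0), (nat_lit 7160108)])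
 PF.nil) PF.nil)) (PF.cons PF.nil PF.nil)) (PF.cons PF.nil (PF.cons PF.nil (PF.cons PF.nil (PF.cons PF.nil PF.nil)))))))))

def p15_31_1_0 : pfC (piC [(nat_lit 35065580), (nat_lit 23751559), (nat_lit 17719570), (nat_lit 11940226)] (nat_lit 10729447)) p15_31_1 (nat_lit 4) (nat_lit 0) (nat_lit 1) = true := by decide +kernel
def p15_31_1_1 : pfC (piC [(nat_lit 35065580), (nat_lit 23751559), (nat_lit 17719570), (nat_lit 11940226)] (nat_lit 10729447)) p15_31_1 (nat_lit 4) (nat_lit 1) (nat_lit 2) = true := by decide +kernel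
def p15_31_1_2 : pfC (piC [(nat_lit 35065580), (nat_lit 23751559), (nat_lit 17719570), (nat_lit 11940226)] (nat_lit 10729447)) p15_31_1 (nat_lit 4) (nat_lit 2) (nat_lit 3) = true := by decide +kernel
def p15_31_1_3 : pfC (piC [(nat_lit 35065580), (nat_lit 23751559), (nat_lit 17719570), (nat_lit 11940226)] (nat_lit 10729447)) p15_31_1 (nat_lit 4) (nat_lit 3) (nat_lit 4) = true := by decide +kernel
def p15_31_1_4 : pfC (piC [(nat_lit 35065580), (nat_lit 23751559), (nat_lit 17719570), (nat_lit 11940226)] (nat_lit 10729447)) p15_31_1 (nat_lit 4) (nat_lit 4) (nat_lit 5) = true := by decide +kernel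
def p15_31_1_5 : pfC (piC [(nat_lit 35065580), (nat_lit 23751559), (nat_lit 17719570), (nat_lit 11940226)] (nat_lit 10729447)) p15_31_1 (nat_lit 4) (nat_lit 5) (nat_lit 6) = true := by decide +kernel
def p15_31_1_6 : pfC (piC [(nat_lit 35065580), (nat_lit 23751559), (nat_lit 17719570), (nat_lit 11940226)] (nat_lit 10729447)) p15_31_1 (nat_lit 4) (nat_lit 6) (nat_lit 7) = true := by decide +kernel
def p15_31_1_7 : pfC (piC [(nat_lit 35065580), (nat_lit 23751559), (nat_lit 17719570), (nat_lit 11940226)] (nat_lit 10729447)) p15_31_1 (nat_lit 4) (nat_lit 7) (nat_lit 8) = true := by decide +kernel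
def p15_31_1_8 : pfC (piC [(nat_lit 35065580), (nat_lit 23751559), (nat_lit 17719570), (nat_lit 11940226)] (nat_lit 10729447)) p15_31_1 (nat_lit 4) (nat_lit 8) (nat_lit 9) = true := by decide +kernel
def p15_31_1_9 : pfC (piC [(nat_lit 35065580), (nat_lit 23751559), (nat_lit 17719570), (nat_lit 11940226)] (nat_lit 10729447)) p15_31_1 (nat_lit 4) (nat_lit 9) (nat_lit 10) = true := by decide +kernel
def p15_31_1_10 : pfC (piC [(nat_lit 35065580), (nat_lit 23751559), (nat_lit 17719570), (nat_lit 11940226)] (nat_lit 10729447)) p15_31_1 (nat_lit 4) (nat_lit 10) (nat_lit 11) = true := by decide +kernel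
def p15_31_1_11 : pfC (piC [(nat_lit 35065580), (nat_lit 23751559), (nat_lit 17719570), (nat_lit 11940226)] (nat_lit 10729447)) p15_31_1 (nat_lit 4) (nat_lit 11) (nat_lit 12) = true := by decide +kernel
def p15_31_1_12 : pfC (piC [(nat_lit 35065580), (nat_lit 23751559), (nat_lit 17719570), (nat_lit 11940226)] (nat_lit 10729447)) p15_31_1 (nat_lit 4) (nat_lit 12) (nat_lit 13) = true := by decide +kernel
def p15_31_1_13 : pfC (piC [(nat_lit 35065580), (nat_lit 23751559), (nat_lit 17719570), (nat_lit 11940226)] (nat_lit 10729447)) p15_31_1 (nat_lit 4) (nat_lit 13) (nat_lit 14) = true := by decide +kernel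
def p15_31_1_14 : pfC (piC [(nat_lit 35065580), (nat_lit 23751559), (nat_lit 17719570), (nat_lit 11940226)] (nat_lit 10729447)) p15_31_1 (nat_lit 4) (nat_lit 14) (nat_lit 15) = true := by decide +kernel
def p15_31_1_15 : pfC (piC [(nat_lit 35065580), (nat_lit 23751559), (nat_lit 17719570), (nat_lit 11940226)] (nat_lit 10729447)) p15_31_1 (nat_lit 4) (nat_lit 15) (nat_lit 16) = true := by decide +kernel
def p15_31_1_16 : pfC (piC [(nat_lit 35065580), (nat_lit 23751559), (nat_lit 17719570), (nat_lit 11940226)] (nat_lit 10729447)) p15_31_1 (nat_lit 4) (nat_lit 16) (nat_lit 17) = true := by decide +kernel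
def p15_31_1_17 : pfC (piC [(nat_lit 35065580), (nat_lit 23751559), (nat_lit 17719570), (nat_lit 11940226)] (nat_lit 10729447)) p15_31_1 (nat_lit 4) (nat_lit 17) (nat_lit 18) = true := by decide +kernel
def p15_31_1_18 : pfC (piC [(nat_lit 35065580), (nat_lit 23751559), (nat_lit 17719570), (nat_lit 11940226)] (nat_lit 10729447)) p15_31_1 (nat_lit 4) (nat_lit 18) (nat_lit 19) = true := by decide +kernel
def p15_31_1_19 : pfC (piC [(nat_lit 35065580), (nat_lit 23751559), (nat_lit 17719570), (nat_lit 11940226)] (nat_lit 10729447)) p15_31_1 (nat_lit 4) (nat_lit 19) (nat_lit 20) = true := by decide +kernel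
def p15_31_1_20 : pfC (piC [(nat_lit 35065580), (nat_lit 23751559), (nat_lit 17719570), (nat_lit 11940226)] (nat_lit 10729447)) p15_31_1 (nat_lit 4) (nat_lit 20) (nat_lit 21) = true := by decide +kernel
def p15_31_1_21 : pfC (piC [(nat_lit 35065580), (nat_lit 23751559), (nat_lit 17719570), (nat_lit 11940226)] (nat_lit 10729447)) p15_31_1 (nat_lit 4) (nat_lit 21) (nat_lit 22) = true := by decide +kernel
def p15_31_1_22 : pfC (piC [(nat_lit 35065580), (nat_lit 23751559), (nat_lit 17719570), (nat_lit 11940226)] (nat_lit 10729447)) p15_31_1 (nat_lit 4) (nat_lit 22) (nat_lit 23) = true := by decide +kernel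
def p15_31_1_23 : pfC (piC [(nat_lit 35065580), (nat_lit 23751559), (nat_lit 17719570), (nat_lit 11940226)] (nat_lit 10729447)) p15_31_1 (nat_lit 4) (nat_lit 23) (nat_lit 24) = true := by decide +kernel
def p15_31_1_24 : pfC (piC [(nat_lit 35065580), (nat_lit 23751559), (nat_lit 17719570), (nat_lit 11940226)] (nat_lit 10729447)) p15_31_1 (nat_lit 4) (nat_lit 24) (nat_lit 25) = true := by decide +kernel
def p15_31_1_25 : pfC (piC [(nat_lit 35065580), (nat_lit 23751559), (nat_lit 17719570), (nat_lit 11940226)] (nat_lit 10729447)) p15_31_1 (nat_lit 4) (nat_lit 25) (nat_lit 26) = true := by decide +kernel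
def p15_31_1_26 : pfC (piC [(nat_lit 35065580), (nat_lit 23751559), (nat_lit 17719570), (nat_lit 11940226)] (nat_lit 10729447)) p15_31_1 (nat_lit 4) (nat_lit 26) (nat_lit 27) = true := by decide +kernel
def p15_31_1_27 : pfC (piC [(nat_lit 35065580), (nat_lit 23751559), (nat_lit 17719570), (nat_lit 11940226)] (nat_lit 10729447)) p15_31_1 (nat_lit 4) (nat_lit 27) (nat_lit 28) = true := by decide +kernel
def p15_31_1_28 : pfC (piC [(nat_lit 35065580), (nat_lit 23751559), (nat_lit 17719570), (nat_lit 11940226)] (nat_lit 10729447)) p15_31_1 (nat_lit 4) (nat_lit 28) (nat_lit 29) = true := by decide +kernel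
def p15_31_1_29 : pfC (piC [(nat_lit 35065580), (nat_lit 23751559), (nat_lit 17719570), (nat_lit 11940226)] (nat_lit 10729447)) p15_31_1 (nat_lit 4) (nat_lit 29) (nat_lit 30) = true := by decide +kernel
def p15_31_1_30 : pfC (piC [(nat_lit 35065580), (nat_lit 23751559), (nat_lit 17719570), (nat_lit 11940226)] (nat_lit 10729447)) p15_31_1 (nat_lit 4) (nat_lit 30) (nat_lit 31) = true := by decide +kernel
def p15_31_1_31 : pfC (piC [(nat_lit 35065580), (nat_lit 23751559), (nat_lit 17719570), (nat_lit 11940226)] (nat_lit 10729447)) p15_31_1 (nat_lit 4) (nat_lit 31) (nat_lit 32) = true := by decide +kernel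
def p15_31_1_32 : pfC (piC [(nat_lit 35065580), (nat_lit 23751559), (nat_lit 17719570), (nat_lit 11940226)] (nat_lit 10729447)) p15_31_1 (nat_lit 4) (nat_lit 32) (nat_lit 33) = true := by decide +kernel
def p15_31_1_33 : pfC (piC [(nat_lit 35065580), (nat_lit 23751559), (nat_lit 17719570), (nat_lit 11940226)] (nat_lit 10729447)) p15_31_1 (nat_lit 4) (nat_lit 33) (nat_lit 34) = true := by decide +kernel
def p15_31_1_34 : pfC (piC [(nat_lit 35065580), (nat_lit 23751559), (nat_lit 17719570), (nat_lit 11940226)] (nat_lit 10729447)) p15_31_1 (nat_lit 4) (nat_lit 34) (nat_lit 35) = true := by decide +kernel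
def p15_31_1_35 : pfC (piC [(nat_lit 35065580), (nat_lit 23751559), (nat_lit 17719570), (nat_lit 11940226)] (nat_lit 10729447)) p15_31_1 (nat_lit 4) (nat_lit 35) (nat_lit 36) = true := by decide +kernel
def p15_31_1_36 : pfC (piC [(nat_lit 35065580), (nat_lit 23751559), (nat_lit 17719570), (nat_lit 11940226)] (nat_lit 10729447)) p15_31_1 (nat_lit 4) (nat_lit 36) (nat_lit 37) = true := by decide +kernel
def p15_31_1_37 : pfC (piC [(nat_lit 35065580), (nat_lit 23751559), (nat_lit 17719570), (nat_lit 11940226)] (nat_lit 10729447)) p15_31_1 (nat_lit 4) (nat_lit 37) (nat_lit 38) = true := by decide +kernel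
def p15_31_1_38 : pfC (piC [(nat_lit 35065580), (nat_lit 23751559), (nat_lit 17719570), (nat_lit 11940226)] (nat_lit 10729447)) p15_31_1 (nat_lit 4) (nat_lit 38) (nat_lit 39) = true := by decide +kernel
def p15_31_1_39 : pfC (piC [(nat_lit 35065580), (nat_lit 23751559), (nat_lit 17719570), (nat_lit 11940226)] (nat_lit 10729447)) p15_31_1 (nat_lit 4) (nat_lit 39) (nat_lit 40) = true := by decide +kernel
def p15_31_1_40 : pfC (piC [(nat_lit 35065580), (nat_lit 23751559), (nat_lit 17719570), (nat_lit 11940226)] (nat_lit 10729447)) p15_31_1 (nat_lit 4) (nat_lit 40) (nat_lit 41) = true := by decide +kernel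
def p15_31_1_41 : pfC (piC [(nat_lit 35065580), (nat_lit 23751559), (nat_lit 17719570), (nat_lit 11940226)] (nat_lit 10729447)) p15_31_1 (nat_lit 4) (nat_lit 41) (nat_lit 42) = true := by decide +kernel
def p15_31_1_42 : pfC (piC [(nat_lit 35065580), (nat_lit 23751559), (nat_lit 17719570), (nat_lit 11940226)] (nat_lit 10729447)) p15_31_1 (nat_lit 4) (nat_lit 42) (nat_lit 43) = true := by decide +kernel
def p15_31_1_43 : pfC (piC [(nat_lit 35065580), (nat_lit 23751559), (nat_lit 17719570), (nat_lit 11940226)] (nat_lit 10729447)) p15_31_1 (nat_lit 4) (nat_lit 43) (nat_lit 44) = true := by decide +kernel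
def p15_31_1_44 : pfC (piC [(nat_lit 35065580), (nat_lit 23751559), (nat_lit 17719570), (nat_lit 11940226)] (nat_lit 10729447)) p15_31_1 (nat_lit 4) (nat_lit 44) (nat_lit 45) = true := by decide +kernel
def p15_31_1_45 : pfC (piC [(nat_lit 35065580), (nat_lit 23751559), (nat_lit 17719570), (nat_lit 11940226)] (nat_lit 10729447)) p15_31_1 (nat_lit 4) (nat_lit 45) (nat_lit 46) = true := by decide +kernel
def p15_31_1_46 : pfC (piC [(nat_lit 35065580), (nat_lit 23751559), (nat_lit 17719570), (nat_lit 11940226)] (nat_lit 10729447)) p15_31_1 (nat_lit 4) (nat_lit 46) (nat_lit 47) = true := by decide +kernel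
def p15_31_1_47 : pfC (piC [(nat_lit 35065580), (nat_lit 23751559), (nat_lit 17719570), (nat_lit 11940226)] (nat_lit 10729447)) p15_31_1 (nat_lit 4) (nat_lit 47) (nat_lit 48) = true := by decide +kernel
def p15_31_1_48 : pfC (piC [(nat_lit 35065580), (nat_lit 23751559), (nat_lit 17719570), (nat_lit 11940226)] (nat_lit 10729447)) p15_31_1 (nat_lit 4) (nat_lit 48) (nat_lit 49) = true := by decide +kernel
def p15_31_1_49 : pfC (piC [(nat_lit 35065580), (nat_lit 23751559), (nat_lit 17719570), (nat_lit 11940226)] (nat_lit 10729447)) p15_31_1 (nat_lit 4) (nat_lit 49) (nat_lit 50) = true := by decide +kernel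
def p15_31_1_50 : pfC (piC [(nat_lit 35065580), (nat_lit 23751559), (nat_lit 17719570), (nat_lit 11940226)] (nat_lit 10729447)) p15_31_1 (nat_lit 4) (nat_lit 50) (nat_lit 51) = true := by decide +kernel
def p15_31_1_51 : pfC (piC [(nat_lit 35065580), (nat_lit 23751559), (nat_lit 17719570), (nat_lit 11940226)] (nat_lit 10729447)) p15_31_1 (nat_lit 4) (nat_lit 51) (nat_lit 52) = true := by decide +kernel
def p15_31_1_52 : pfC (piC [(nat_lit 35065580), (nat_lit 23751559), (nat_lit 17719570), (nat_lit 11940226)] (nat_lit 10729447)) p15_31_1 (nat_lit 4) (nat_lit 52) (nat_lit 53) = true := by decide +kernel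
def p15_31_1_53 : pfC (piC [(nat_lit 35065580), (nat_lit 23751559), (nat_lit 17719570), (nat_lit 11940226)] (nat_lit 10729447)) p15_31_1 (nat_lit 4) (nat_lit 53) (nat_lit 54) = true := by decide +kernel
def p15_31_1_54 : pfC (piC [(nat_lit 35065580), (nat_lit 23751559), (nat_lit 17719570), (nat_lit 11940226)] (nat_lit 10729447)) p15_31_1 (nat_lit 4) (nat_lit 54) (nat_lit 55) = true := by decide +kernel
def p15_31_1_55 : pfC (piC [(nat_lit 35065580), (nat_lit 23751559), (nat_lit 17719570), (nat_lit 11940226)] (nat_lit 10729447)) p15_31_1 (nat_lit 4) (nat_lit 55) (nat_lit 56) = true := by decide +kernel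
def p15_31_1_56 : pfC (piC [(nat_lit 35065580), (nat_lit 23751559), (nat_lit 17719570), (nat_lit 11940226)] (nat_lit 10729447)) p15_31_1 (nat_lit 4) (nat_lit 56) (nat_lit 57) = true := by decide +kernel
def p15_31_1_57 : pfC (piC [(nat_lit 35065580), (nat_lit 23751559), (nat_lit 17719570), (nat_lit 11940226)] (nat_lit 10729447)) p15_31_1 (nat_lit 4) (nat_lit 57) (nat_lit 58) = true := by decide +kernel
def p15_31_1_58 : pfC (piC [(nat_lit 35065580), (nat_lit 23751559), (nat_lit 17719570), (nat_lit 11940226)] (nat_lit 10729447)) p15_31_1 (nat_lit 4) (nat_lit 58) (nat_lit 59) = true := by decide +kernel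
def p15_31_1_59 : pfC (piC [(nat_lit 35065580), (nat_lit 23751559), (nat_lit 17719570), (nat_lit 11940226)] (nat_lit 10729447)) p15_31_1 (nat_lit 4) (nat_lit 59) (nat_lit 60) = true := by decide +kernel
def p15_31_1_60 : pfC (piC [(nat_lit 35065580), (nat_lit 23751559), (nat_lit 17719570), (nat_lit 11940226)] (nat_lit 10729447)) p15_31_1 (nat_lit 4) (nat_lit 60) (nat_lit 61) = true := by decide +kernel
def p15_31_1_61 : pfC (piC [(nat_lit 35065580), (nat_lit 23751559), (nat_lit 17719570), (nat_lit 11940226)] (nat_lit 10729447)) p15_31_1 (nat_lit 4) (nat_lit 61) (nat_lit 62) = true := by decide +kernel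
def p15_31_1_62 : pfC (piC [(nat_lit 35065580), (nat_lit 23751559), (nat_lit 17719570), (nat_lit 11940226)] (nat_lit 10729447)) p15_31_1 (nat_lit 4) (nat_lit 62) (nat_lit 63) = true := by decide +kernel
def p15_31_1_63 : pfC (piC [(nat_lit 35065580), (nat_lit 23751559), (nat_lit 17719570), (nat_lit 11940226)] (nat_lit 10729447)) p15_31_1 (nat_lit 4) (nat_lit 63) (nat_lit 64) = true := by decide +kernel
def p15_31_1_64 : pfC (piC [(nat_lit 35065580), (nat_lit 23751559), (nat_lit 17719570), (nat_lit 11940226)] (nat_lit 10729447)) p15_31_1 (nat_lit 4) (nat_lit 64) (nat_lit 65) = true := by decide +kernel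
def p15_31_1_65 : pfC (piC [(nat_lit 35065580), (nat_lit 23751559), (nat_lit 17719570), (nat_lit 11940226)] (nat_lit 10729447)) p15_31_1 (nat_lit 4) (nat_lit 65) (nat_lit 66) = true := by decide +kernel
def p15_31_1_66 : pfC (piC [(nat_lit 35065580), (nat_lit 23751559), (nat_lit 17719570), (nat_lit 11940226)] (nat_lit 10729447)) p15_31_1 (nat_lit 4) (nat_lit 66) (nat_lit 67) = true := by decide +kernel
def p15_31_1_67 : pfC (piC [(nat_lit 35065580), (nat_lit 23751559), (nat_lit 17719570), (nat_lit 11940226)] (nat_lit 10729447)) p15_31_1 (nat_lit 4) (nat_lit 67) (nat_lit 68) = true := by decide +kernel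
def p15_31_1_68 : pfC (piC [(nat_lit 35065580), (nat_lit 23751559), (nat_lit 17719570), (nat_lit 11940226)] (nat_lit 10729447)) p15_31_1 (nat_lit 4) (nat_lit 68) (nat_lit 69) = true := by decide +kernel
def p15_31_1_69 : pfC (piC [(nat_lit 35065580), (nat_lit 23751559), (nat_lit 17719570), (nat_lit 11940226)] (nat_lit 10729447)) p15_31_1 (nat_lit 4) (nat_lit 69) (nat_lit 70) = true := by decide +kernel
def p15_31_1_70 : pfC (piC [(nat_lit 35065580), (nat_lit 23751559), (nat_lit 17719570), (nat_lit 11940226)] (nat_lit 10729447)) p15_31_1 (nat_lit 4) (nat_lit 70) (nat_lit 71) = true := by decide +kernel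
def p15_31_1_71 : pfC (piC [(nat_lit 35065580), (nat_lit 23751559), (nat_lit 17719570), (nat_lit 11940226)] (nat_lit 10729447)) p15_31_1 (nat_lit 4) (nat_lit 71) (nat_lit 72) = true := by decide +kernel
def p15_31_1_72 : pfC (piC [(nat_lit 35065580), (nat_lit 23751559), (nat_lit 17719570), (nat_lit 11940226)] (nat_lit 10729447)) p15_31_1 (nat_lit 4) (nat_lit 72) (nat_lit 73) = true := by decide +kernel
def p15_31_1_73 : pfC (piC [(nat_lit 35065580), (nat_lit 23751559), (nat_lit 17719570), (nat_lit 11940226)] (nat_lit 10729447)) p15_31_1 (nat_lit 4) (nat_lit 73) (nat_lit 74) = true := by decide +kernel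
def p15_31_1_74 : pfC (piC [(nat_lit 35065580), (nat_lit 23751559), (nat_lit 17719570), (nat_lit 11940226)] (nat_lit 10729447)) p15_31_1 (nat_lit 4) (nat_lit 74) (nat_lit 75) = true := by decide +kernel
def p15_31_1_75 : pfC (piC [(nat_lit 35065580), (nat_lit 23751559), (nat_lit 17719570), (nat_lit 11940226)] (nat_lit 10729447)) p15_31_1 (nat_lit 4) (nat_lit 75) (nat_lit 76) = true := by decide +kernel
def p15_31_1_76 : pfC (piC [(nat_lit 35065580), (nat_lit 23751559), (nat_lit 17719570), (nat_lit 11940226)] (nat_lit 10729447)) p15_31_1 (nat_lit 4) (nat_lit 76) (nat_lit 77) = true := by decide +kernel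
def p15_31_1_77 : pfC (piC [(nat_lit 35065580), (nat_lit 23751559), (nat_lit 17719570), (nat_lit 11940226)] (nat_lit 10729447)) p15_31_1 (nat_lit 4) (nat_lit 77) (nat_lit 78) = true := by decide +kernel
def p15_31_1_78 : pfC (piC [(nat_lit 35065580), (nat_lit 23751559), (nat_lit 17719570), (nat_lit 11940226)] (nat_lit 10729447)) p15_31_1 (nat_lit 4) (nat_lit 78) (nat_lit 79) = true := by decide +kernel
def p15_31_1_79 : pfC (piC [(nat_lit 35065580), (nat_lit 23751559), (nat_lit 17719570), (nat_lit 11940226)] (nat_lit 10729447)) p15_31_1 (nat_lit 4) (nat_lit 79) (nat_lit 80) = true := by decide +kernel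
def p15_31_1_80 : pfC (piC [(nat_lit 35065580), (nat_lit 23751559), (nat_lit 17719570), (nat_lit 11940226)] (nat_lit 10729447)) p15_31_1 (nat_lit 4) (nat_lit 80) (nat_lit 81) = true := by decide +kernel
def p15_31_1_81 : pfC (piC [(nat_lit 35065580), (nat_lit 23751559), (nat_lit 17719570), (nat_lit 11940226)] (nat_lit 10729447)) p15_31_1 (nat_lit 4) (nat_lit 81) (nat_lit 82) = true := by decide +kernel
def p15_31_1_82 : pfC (piC [(nat_lit 35065580), (nat_lit 23751559), (nat_lit 17719570), (nat_lit 11940226)] (nat_lit 10729447)) p15_31_1 (nat_lit 4) (nat_lit 82) (nat_lit 83) = true := by decide +kernel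
def p15_31_1_83 : pfC (piC [(nat_lit 35065580), (nat_lit 23751559), (nat_lit 17719570), (nat_lit 11940226)] (nat_lit 10729447)) p15_31_1 (nat_lit 4) (nat_lit 83) (nat_lit 84) = true := by decide +kernel
def p15_31_1_84 : pfC (piC [(nat_lit 35065580), (nat_lit 23751559), (nat_lit 17719570), (nat_lit 11940226)] (nat_lit 10729447)) p15_31_1 (nat_lit 4) (nat_lit 84) (nat_lit 85) = true := by decide +kernel
def p15_31_1_85 : pfC (piC [(nat_lit 35065580), (nat_lit 23751559), (nat_lit 17719570), (nat_lit 11940226)] (nat_lit 10729447)) p15_31_1 (nat_lit 4) (nat_lit 85) (nat_lit 86) = true := by decide +kernel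
def p15_31_1_86 : pfC (piC [(nat_lit 35065580), (nat_lit 23751559), (nat_lit 17719570), (nat_lit 11940226)] (nat_lit 10729447)) p15_31_1 (nat_lit 4) (nat_lit 86) (nat_lit 87) = true := by decide +kernel
def p15_31_1_87 : pfC (piC [(nat_lit 35065580), (nat_lit 23751559), (nat_lit 17719570), (nat_lit 11940226)] (nat_lit 10729447)) p15_31_1 (nat_lit 4) (nat_lit 87) (nat_lit 88) = true := by decide +kernel
def p15_31_1_88 : pfC (piC [(nat_lit 35065580), (nat_lit 23751559), (nat_lit 17719570), (nat_lit 11940226)] (nat_lit 10729447)) p15_31_1 (nat_lit 4) (nat_lit 88) (nat_lit 89) = true := by decide +kernel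
def p15_31_1_89 : pfC (piC [(nat_lit 35065580), (nat_lit 23751559), (nat_lit 17719570), (nat_lit 11940226)] (nat_lit 10729447)) p15_31_1 (nat_lit 4) (nat_lit 89) (nat_lit 90) = true := by decide +kernel
def p15_31_1_90 : pfC (piC [(nat_lit 35065580), (nat_lit 23751559), (nat_lit 17719570), (nat_lit 11940226)] (nat_lit 10729447)) p15_31_1 (nat_lit 4) (nat_lit 90) (nat_lit 91) = true := by decide +kernel
def p15_31_1_91 : pfC (piC [(nat_lit 35065580), (nat_lit 23751559), (nat_lit 17719570), (nat_lit 11940226)] (nat_lit 10729447)) p15_31_1 (nat_lit 4) (nat_lit 91) (nat_lit 92) = true := by decide +kernel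
def p15_31_1_92 : pfC (piC [(nat_lit 35065580), (nat_lit 23751559), (nat_lit 17719570), (nat_lit 11940226)] (nat_lit 10729447)) p15_31_1 (nat_lit 4) (nat_lit 92) (nat_lit 93) = true := by decide +kernel
def p15_31_1_93 : pfC (piC [(nat_lit 35065580), (nat_lit 23751559), (nat_lit 17719570), (nat_lit 11940226)] (nat_lit 10729447)) p15_31_1 (nat_lit 4) (nat_lit 93) (nat_lit 94) = true := by decide +kernel
def p15_31_1_94 : pfC (piC [(nat_lit 35065580), (nat_lit 23751559), (nat_lit 17719570), (nat_lit 11940226)] (nat_lit 10729447)) p15_31_1 (nat_lit 4) (nat_lit 94) (nat_lit 95) = true := by decide +kernel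
def p15_31_1_95 : pfC (piC [(nat_lit 35065580), (nat_lit 23751559), (nat_lit 17719570), (nat_lit 11940226)] (nat_lit 10729447)) p15_31_1 (nat_lit 4) (nat_lit 95) (nat_lit 96) = true := by decide +kernel
def p15_31_1_96 : pfC (piC [(nat_lit 35065580), (nat_lit 23751559), (nat_lit 17719570), (nat_lit 11940226)] (nat_lit 10729447)) p15_31_1 (nat_lit 4) (nat_lit 96) (nat_lit 97) = true := by decide +kernel
def p15_31_1_97 : pfC (piC [(nat_lit 35065580), (nat_lit 23751559), (nat_lit 17719570), (nat_lit 11940226)] (nat_lit 10729447)) p15_31_1 (nat_lit 4) (nat_lit 97) (nat_lit 98) = true := by decide +kernel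
def p15_31_1_98 : pfC (piC [(nat_lit 35065580), (nat_lit 23751559), (nat_lit 17719570), (nat_lit 11940226)] (nat_lit 10729447)) p15_31_1 (nat_lit 4) (nat_lit 98) (nat_lit 99) = true := by decide +kernel
def p15_31_1_99 : pfC (piC [(nat_lit 35065580), (nat_lit 23751559), (nat_lit 17719570), (nat_lit 11940226)] (nat_lit 10729447)) p15_31_1 (nat_lit 4) (nat_lit 99) (nat_lit 100) = true := by decide +kernel
def p15_31_1_100 : pfC (piC [(nat_lit 35065580), (nat_lit 23751559), (nat_lit 17719570), (nat_lit 11940226)] (nat_lit 10729447)) p15_31_1 (nat_lit 4) (nat_lit 100) (nat_lit 101) = true := by decide +kernel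
def p15_31_1_101 : pfC (piC [(nat_lit 35065580), (nat_lit 23751559), (nat_lit 17719570), (nat_lit 11940226)] (nat_lit 10729447)) p15_31_1 (nat_lit 4) (nat_lit 101) (nat_lit 102) = true := by decide +kernel
def p15_31_1_102 : pfC (piC [(nat_lit 35065580), (nat_lit 23751559), (nat_lit 17719570), (nat_lit 11940226)] (nat_lit 10729447)) p15_31_1 (nat_lit 4) (nat_lit 102) (nat_lit 103) = true := by decide +kernel
def p15_31_1_103 : pfC (piC [(nat_lit 35065580), (nat_lit 23751559), (nat_lit 17719570), (nat_lit 11940226)] (nat_lit 10729447)) p15_31_1 (nat_lit 4) (nat_lit 103) (nat_lit 104) = true := by decide +kernel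
def p15_31_1_104 : pfC (piC [(nat_lit 35065580), (nat_lit 23751559), (nat_lit 17719570), (nat_lit 11940226)] (nat_lit 10729447)) p15_31_1 (nat_lit 4) (nat_lit 104) (nat_lit 105) = true := by decide +kernel
def p15_31_1_105 : pfC (piC [(nat_lit 35065580), (nat_lit 23751559), (nat_lit 17719570), (nat_lit 11940226)] (nat_lit 10729447)) p15_31_1 (nat_lit 4) (nat_lit 105) (nat_lit 106) = true := by decide +kernel
def p15_31_1_106 : pfC (piC [(nat_lit 35065580), (nat_lit 23751559), (nat_lit 17719570), (nat_lit 11940226)] (nat_lit 10729447)) p15_31_1 (nat_lit 4) (nat_lit 106) (nat_lit 107) = true := by decide +kernel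
def p15_31_1_107 : pfC (piC [(nat_lit 35065580), (nat_lit 23751559), (nat_lit 17719570), (nat_lit 11940226)] (nat_lit 10729447)) p15_31_1 (nat_lit 4) (nat_lit 107) (nat_lit 108) = true := by decide +kernel
def p15_31_1_108 : pfC (piC [(nat_lit 35065580), (nat_lit 23751559), (nat_lit 17719570), (nat_lit 11940226)] (nat_lit 10729447)) p15_31_1 (nat_lit 4) (nat_lit 108) (nat_lit 109) = true := by decide +kernel
def p15_31_1_109 : pfC (piC [(nat_lit 35065580), (nat_lit 23751559), (nat_lit 17719570), (nat_lit 11940226)] (nat_lit 10729447)) p15_31_1 (nat_lit 4) (nat_lit 109) (nat_lit 110) = true := by decide +kernel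
def p15_31_1_110 : pfC (piC [(nat_lit 35065580), (nat_lit 23751559), (nat_lit 17719570), (nat_lit 11940226)] (nat_lit 10729447)) p15_31_1 (nat_lit 4) (nat_lit 110) (nat_lit 111) = true := by decide +kernel
def p15_31_1_111 : pfC (piC [(nat_lit 35065580), (nat_lit 23751559), (nat_lit 17719570), (nat_lit 11940226)] (nat_lit 10729447)) p15_31_1 (nat_lit 4) (nat_lit 111) (nat_lit 112) = true := by decide +kernel
def p15_31_1_112 : pfC (piC [(nat_lit 35065580), (nat_lit 23751559), (nat_lit 17719570), (nat_lit 11940226)] (nat_lit 10729447)) p15_31_1 (nat_lit 4) (nat_lit 112) (nat_lit 113) = true := by decide +kernel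
def p15_31_1_113 : pfC (piC [(nat_lit 35065580), (nat_lit 23751559), (nat_lit 17719570), (nat_lit 11940226)] (nat_lit 10729447)) p15_31_1 (nat_lit 4) (nat_lit 113) (nat_lit 114) = true := by decide +kernel
def p15_31_1_114 : pfC (piC [(nat_lit 35065580), (nat_lit 23751559), (nat_lit 17719570), (nat_lit 11940226)] (nat_lit 10729447)) p15_31_1 (nat_lit 4) (nat_lit 114) (nat_lit 115) = true := by decide +kernel
def p15_31_1_115 : pfC (piC [(nat_lit 35065580), (nat_lit 23751559), (nat_lit 17719570), (nat_lit 11940226)] (nat_lit 10729447)) p15_31_1 (nat_lit 4) (nat_lit 115) (nat_lit 116) = true := by decide +kernel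
def p15_31_1_116 : pfC (piC [(nat_lit 35065580), (nat_lit 23751559), (nat_lit 17719570), (nat_lit 11940226)] (nat_lit 10729447)) p15_31_1 (nat_lit 4) (nat_lit 116) (nat_lit 117) = true := by decide +kernel
def p15_31_1_117 : pfC (piC [(nat_lit 35065580), (nat_lit 23751559), (nat_lit 17719570), (nat_lit 11940226)] (nat_lit 10729447)) p15_31_1 (nat_lit 4) (nat_lit 117) (nat_lit 118) = true := by decide +kernel
def p15_31_1_118 : pfC (piC [(nat_lit 35065580), (nat_lit 23751559), (nat_lit 17719570), (nat_lit 11940226)] (nat_lit 10729447)) p15_31_1 (nat_lit 4) (nat_lit 118) (nat_lit 119) = true := by decide +kernel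
def p15_31_1_119 : pfC (piC [(nat_lit 35065580), (nat_lit 23751559), (nat_lit 17719570), (nat_lit 11940226)] (nat_lit 10729447)) p15_31_1 (nat_lit 4) (nat_lit 119) (nat_lit 120) = true := by decide +kernel
def p15_31_1_120 : pfC (piC [(nat_lit 35065580), (nat_lit 23751559), (nat_lit 17719570), (nat_lit 11940226)] (nat_lit 10729447)) p15_31_1 (nat_lit 4) (nat_lit 120) (nat_lit 121) = true := by decide +kernel
def p15_31_1_121 : pfC (piC [(nat_lit 35065580), (nat_lit 23751559), (nat_lit 17719570), (nat_lit 11940226)] (nat_lit 10729447)) p15_31_1 (nat_lit 4) (nat_lit 121) (nat_lit 122) = true := by decide +kernel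
def p15_31_1_122 : pfC (piC [(nat_lit 35065580), (nat_lit 23751559), (nat_lit 17719570), (nat_lit 11940226)] (nat_lit 10729447)) p15_31_1 (nat_lit 4) (nat_lit 122) (nat_lit 123) = true := by decide +kernel
def p15_31_1_123 : pfC (piC [(nat_lit 35065580), (nat_lit 23751559), (nat_lit 17719570), (nat_lit 11940226)] (nat_lit 10729447)) p15_31_1 (nat_lit 4) (nat_lit 123) (nat_lit 124) = true := by decide +kernel
def p15_31_1_124 : pfC (piC [(nat_lit 35065580), (nat_lit 23751559), (nat_lit 17719570), (nat_lit 11940226)] (nat_lit 10729447)) p15_31_1 (nat_lit 4) (nat_lit 124) (nat_lit 125) = true := by decide +kernel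
def p15_31_1_125 : pfC (piC [(nat_lit 35065580), (nat_lit 23751559), (nat_lit 17719570), (nat_lit 11940226)] (nat_lit 10729447)) p15_31_1 (nat_lit 4) (nat_lit 125) (nat_lit 126) = true := by decide +kernel
def p15_31_1_126 : pfC (piC [(nat_lit 35065580), (nat_lit 23751559), (nat_lit 17719570), (nat_lit 11940226)] (nat_lit 10729447)) p15_31_1 (nat_lit 4) (nat_lit 126) (nat_lit 127) = true := by decide +kernel
def p15_31_1_127 : pfC (piC [(nat_lit 35065580), (nat_lit 23751559), (nat_lit 17719570), (nat_lit 11940226)] (nat_lit 10729447)) p15_31_1 (nat_lit 4) (nat_lit 127) (nat_lit 128) = true := by decide +kernel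
def p15_31_1_128 : pfC (piC [(nat_lit 35065580), (nat_lit 23751559), (nat_lit 17719570), (nat_lit 11940226)] (nat_lit 10729447)) p15_31_1 (nat_lit 4) (nat_lit 128) (nat_lit 129) = true := by decide +kernel
def p15_31_1_129 : pfC (piC [(nat_lit 35065580), (nat_lit 23751559), (nat_lit 17719570), (nat_lit 11940226)] (nat_lit 10729447)) p15_31_1 (nat_lit 4) (nat_lit 129) (nat_lit 130) = true := by decide +kernel
def p15_31_1_130 : pfC (piC [(nat_lit 35065580), (nat_lit 23751559), (nat_lit 17719570), (nat_lit 11940226)] (nat_lit 10729447)) p15_31_1 (nat_lit 4) (nat_lit 130) (nat_lit 131) = true := by decide +kernel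
def p15_31_1_131 : pfC (piC [(nat_lit 35065580), (nat_lit 23751559), (nat_lit 17719570), (nat_lit 11940226)] (nat_lit 10729447)) p15_31_1 (nat_lit 4) (nat_lit 131) (nat_lit 132) = true := by decide +kernel
def p15_31_1_132 : pfC (piC [(nat_lit 35065580), (nat_lit 23751559), (nat_lit 17719570), (nat_lit 11940226)] (nat_lit 10729447)) p15_31_1 (nat_lit 4) (nat_lit 132) (nat_lit 133) = true := by decide +kernel
def p15_31_1_133 : pfC (piC [(nat_lit 35065580), (nat_lit 23751559), (nat_lit 17719570), (nat_lit 11940226)] (nat_lit 10729447)) p15_31_1 (nat_lit 4) (nat_lit 133) (nat_lit 134) = true := by decide +kernel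
def p15_31_1_134 : pfC (piC [(nat_lit 35065580), (nat_lit 23751559), (nat_lit 17719570), (nat_lit 11940226)] (nat_lit 10729447)) p15_31_1 (nat_lit 4) (nat_lit 134) (nat_lit 135) = true := by decide +kernel
def p15_31_1_135 : pfC (piC [(nat_lit 35065580), (nat_lit 23751559), (nat_lit 17719570), (nat_lit 11940226)] (nat_lit 10729447)) p15_31_1 (nat_lit 4) (nat_lit 135) (nat_lit 136) = true := by decide +kernel
def p15_31_1_136 : pfC (piC [(nat_lit 35065580), (nat_lit 23751559), (nat_lit 17719570), (nat_lit 11940226)] (nat_lit 10729447)) p15_31_1 (nat_lit 4) (nat_lit 136) (nat_lit 137) = true := by decide +kernel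
def p15_31_1_137 : pfC (piC [(nat_lit 35065580), (nat_lit 23751559), (nat_lit 17719570), (nat_lit 11940226)] (nat_lit 10729447)) p15_31_1 (nat_lit 4) (nat_lit 137) (nat_lit 138) = true := by decide +kernel
def p15_31_1_138 : pfC (piC [(nat_lit 35065580), (nat_lit 23751559), (nat_lit 17719570), (nat_lit 11940226)] (nat_lit 10729447)) p15_31_1 (nat_lit 4) (nat_lit 138) (nat_lit 139) = true := by decide +kernel
def p15_31_1_139 : pfC (piC [(nat_lit 35065580), (nat_lit 23751559), (nat_lit 17719570), (nat_lit 11940226)] (nat_lit 10729447)) p15_31_1 (nat_lit 4) (nat_lit 139) (nat_lit 140) = true := by decide +kernel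
def p15_31_1_140 : pfC (piC [(nat_lit 35065580), (nat_lit 23751559), (nat_lit 17719570), (nat_lit 11940226)] (nat_lit 10729447)) p15_31_1 (nat_lit 4) (nat_lit 140) (nat_lit 141) = true := by decide +kernel
def p15_31_1_141 : pfC (piC [(nat_lit 35065580), (nat_lit 23751559), (nat_lit 17719570), (nat_lit 11940226)] (nat_lit 10729447)) p15_31_1 (nat_lit 4) (nat_lit 141) (nat_lit 142) = true := by decide +kernel
def p15_31_1_142 : pfC (piC [(nat_lit 35065580), (nat_lit 23751559), (nat_lit 17719570), (nat_lit 11940226)] (nat_lit 10729447)) p15_31_1 (nat_lit 4) (nat_lit 142) (nat_lit 143) = true := by decide +kernel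
def p15_31_1_143 : pfC (piC [(nat_lit 35065580), (nat_lit 23751559), (nat_lit 17719570), (nat_lit 11940226)] (nat_lit 10729447)) p15_31_1 (nat_lit 4) (nat_lit 143) (nat_lit 144) = true := by decide +kernel
def p15_31_1_144 : pfC (piC [(nat_lit 35065580), (nat_lit 23751559), (nat_lit 17719570), (nat_lit 11940226)] (nat_lit 10729447)) p15_31_1 (nat_lit 4) (nat_lit 144) (nat_lit 145) = true := by decide +kernel
def p15_31_1_145 : pfC (piC [(nat_lit 35065580), (nat_lit 23751559), (nat_lit 17719570), (nat_lit 11940226)] (nat_lit 10729447)) p15_31_1 (nat_lit 4) (nat_lit 145) (nat_lit 146) = true := by decide +kernel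
def p15_31_1_146 : pfC (piC [(nat_lit 35065580), (nat_lit 23751559), (nat_lit 17719570), (nat_lit 11940226)] (nat_lit 10729447)) p15_31_1 (nat_lit 4) (nat_lit 146) (nat_lit 147) = true := by decide +kernel
def p15_31_1_147 : pfC (piC [(nat_lit 35065580), (nat_lit 23751559), (nat_lit 17719570), (nat_lit 11940226)] (nat_lit 10729447)) p15_31_1 (nat_lit 4) (nat_lit 147) (nat_lit 148) = true := by decide +kernel
def p15_31_1_148 : pfC (piC [(nat_lit 35065580), (nat_lit 23751559), (nat_lit 17719570), (nat_lit 11940226)] (nat_lit 10729447)) p15_31_1 (nat_lit 4) (nat_lit 148) (nat_lit 149) = true := by decide +kernel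
def p15_31_1_149 : pfC (piC [(nat_lit 35065580), (nat_lit 23751559), (nat_lit 17719570), (nat_lit 11940226)] (nat_lit 10729447)) p15_31_1 (nat_lit 4) (nat_lit 149) (nat_lit 150) = true := by decide +kernel
def p15_31_1_150 : pfC (piC [(nat_lit 35065580), (nat_lit 23751559), (nat_lit 17719570), (nat_lit 11940226)] (nat_lit 10729447)) p15_31_1 (nat_lit 4) (nat_lit 150) (nat_lit 151) = true := by decide +kernel
def p15_31_1_151 : pfC (piC [(nat_lit 35065580), (nat_lit 23751559), (nat_lit 17719570), (nat_lit 11940226)] (nat_lit 10729447)) p15_31_1 (nat_lit 4) (nat_lit 151) (nat_lit 152) = true := by decide +kernel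
def p15_31_1_152 : pfC (piC [(nat_lit 35065580), (nat_lit 23751559), (nat_lit 17719570), (nat_lit 11940226)] (nat_lit 10729447)) p15_31_1 (nat_lit 4) (nat_lit 152) (nat_lit 153) = true := by decide +kernel
def p15_31_1_153 : pfC (piC [(nat_lit 35065580), (nat_lit 23751559), (nat_lit 17719570), (nat_lit 11940226)] (nat_lit 10729447)) p15_31_1 (nat_lit 4) (nat_lit 153) (nat_lit 154) = true := by decide +kernel
def p15_31_1_154 : pfC (piC [(nat_lit 35065580), (nat_lit 23751559), (nat_lit 17719570), (nat_lit 11940226)] (nat_lit 10729447)) p15_31_1 (nat_lit 4) (nat_lit 154) (nat_lit 155) = true := by decide +kernel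
def p15_31_1_155 : pfC (piC [(nat_lit 35065580), (nat_lit 23751559), (nat_lit 17719570), (nat_lit 11940226)] (nat_lit 10729447)) p15_31_1 (nat_lit 4) (nat_lit 155) (nat_lit 156) = true := by decide +kernel
def p15_31_1_156 : pfC (piC [(nat_lit 35065580), (nat_lit 23751559), (nat_lit 17719570), (nat_lit 11940226)] (nat_lit 10729447)) p15_31_1 (nat_lit 4) (nat_lit 156) (nat_lit 157) = true := by decide +kernel
def p15_31_1_157 : pfC (piC [(nat_lit 35065580), (nat_lit 23751559), (nat_lit 17719570), (nat_lit 11940226)] (nat_lit 10729447)) p15_31_1 (nat_lit 4) (nat_lit 157) (nat_lit 158) = true := by decide +kernel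
def p15_31_1_158 : pfC (piC [(nat_lit 35065580), (nat_lit 23751559), (nat_lit 17719570), (nat_lit 11940226)] (nat_lit 10729447)) p15_31_1 (nat_lit 4) (nat_lit 158) (nat_lit 159) = true := by decide +kernel
def p15_31_1_159 : pfC (piC [(nat_lit 35065580), (nat_lit 23751559), (nat_lit 17719570), (nat_lit 11940226)] (nat_lit 10729447)) p15_31_1 (nat_lit 4) (nat_lit 159) (nat_lit 160) = true := by decide +kernel
def p15_31_1_160 : pfC (piC [(nat_lit 35065580), (nat_lit 23751559), (nat_lit 17719570), (nat_lit 11940226)] (nat_lit 10729447)) p15_31_1 (nat_lit 4) (nat_lit 160) (nat_lit 161) = true := by decide +kernel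
def p15_31_1_161 : pfC (piC [(nat_lit 35065580), (nat_lit 23751559), (nat_lit 17719570), (nat_lit 11940226)] (nat_lit 10729447)) p15_31_1 (nat_lit 4) (nat_lit 161) (nat_lit 162) = true := by decide +kernel
def p15_31_1_162 : pfC (piC [(nat_lit 35065580), (nat_lit 23751559), (nat_lit 17719570), (nat_lit 11940226)] (nat_lit 10729447)) p15_31_1 (nat_lit 4) (nat_lit 162) (nat_lit 163) = true := by decide +kernel
def p15_31_1_163 : pfC (piC [(nat_lit 35065580), (nat_lit 23751559), (nat_lit 17719570), (nat_lit 11940226)] (nat_lit 10729447)) p15_31_1 (nat_lit 4) (nat_lit 163) (nat_lit 164) = true := by decide +kernel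
def p15_31_1_164 : pfC (piC [(nat_lit 35065580), (nat_lit 23751559), (nat_lit 17719570), (nat_lit 11940226)] (nat_lit 10729447)) p15_31_1 (nat_lit 4) (nat_lit 164) (nat_lit 165) = true := by decide +kernel
def p15_31_1_165 : pfC (piC [(nat_lit 35065580), (nat_lit 23751559), (nat_lit 17719570), (nat_lit 11940226)] (nat_lit 10729447)) p15_31_1 (nat_lit 4) (nat_lit 165) (nat_lit 166) = true := by decide +kernel
def p15_31_1_166 : pfC (piC [(nat_lit 35065580), (nat_lit 23751559), (nat_lit 17719570), (nat_lit 11940226)] (nat_lit 10729447)) p15_31_1 (nat_lit 4) (nat_lit 166) (nat_lit 167) = true := by decide +kernel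
def p15_31_1_167 : pfC (piC [(nat_lit 35065580), (nat_lit 23751559), (nat_lit 17719570), (nat_lit 11940226)] (nat_lit 10729447)) p15_31_1 (nat_lit 4) (nat_lit 167) (nat_lit 168) = true := by decide +kernel
def p15_31_1_168 : pfC (piC [(nat_lit 35065580), (nat_lit 23751559), (nat_lit 17719570), (nat_lit 11940226)] (nat_lit 10729447)) p15_31_1 (nat_lit 4) (nat_lit 168) (nat_lit 169) = true := by decide +kernel
def p15_31_1_169 : pfC (piC [(nat_lit 35065580), (nat_lit 23751559), (nat_lit 17719570), (nat_lit 11940226)] (nat_lit 10729447)) p15_31_1 (nat_lit 4) (nat_lit 169) (nat_lit 170) = true := by decide +kernel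
def p15_31_1_170 : pfC (piC [(nat_lit 35065580), (nat_lit 23751559), (nat_lit 17719570), (nat_lit 11940226)] (nat_lit 10729447)) p15_31_1 (nat_lit 4) (nat_lit 170) (nat_lit 171) = true := by decide +kernel
def p15_31_1_171 : pfC (piC [(nat_lit 35065580), (nat_lit 23751559), (nat_lit 17719570), (nat_lit 11940226)] (nat_lit 10729447)) p15_31_1 (nat_lit 4) (nat_lit 171) (nat_lit 172) = true := by decide +kernel
def p15_31_1_172 : pfC (piC [(nat_lit 35065580), (nat_lit 23751559), (nat_lit 17719570), (nat_lit 11940226)] (nat_lit 10729447)) p15_31_1 (nat_lit 4) (nat_lit 172) (nat_lit 173) = true := by decide +kernel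
def p15_31_1_173 : pfC (piC [(nat_lit 35065580), (nat_lit 23751559), (nat_lit 17719570), (nat_lit 11940226)] (nat_lit 10729447)) p15_31_1 (nat_lit 4) (nat_lit 173) (nat_lit 174) = true := by decide +kernel
def p15_31_1_174 : pfC (piC [(nat_lit 35065580), (nat_lit 23751559), (nat_lit 17719570), (nat_lit 11940226)] (nat_lit 10729447)) p15_31_1 (nat_lit 4) (nat_lit 174) (nat_lit 175) = true := by decide +kernel
def p15_31_1_175 : pfC (piC [(nat_lit 35065580), (nat_lit 23751559), (nat_lit 17719570), (nat_lit 11940226)] (nat_lit 10729447)) p15_31_1 (nat_lit 4) (nat_lit 175) (nat_lit 176) = true := by decide +kernel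
def p15_31_1_176 : pfC (piC [(nat_lit 35065580), (nat_lit 23751559), (nat_lit 17719570), (nat_lit 11940226)] (nat_lit 10729447)) p15_31_1 (nat_lit 4) (nat_lit 176) (nat_lit 177) = true := by decide +kernel
def p15_31_1_177 : pfC (piC [(nat_lit 35065580), (nat_lit 23751559), (nat_lit 17719570), (nat_lit 11940226)] (nat_lit 10729447)) p15_31_1 (nat_lit 4) (nat_lit 177) (nat_lit 178) = true := by decide +kernel
def p15_31_1_178 : pfC (piC [(nat_lit 35065580), (nat_lit 23751559), (nat_lit 17719570), (nat_lit 11940226)] (nat_lit 10729447)) p15_31_1 (nat_lit 4) (nat_lit 178) (nat_lit 179) = true := by decide +kernel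
def p15_31_1_179 : pfC (piC [(nat_lit 35065580), (nat_lit 23751559), (nat_lit 17719570), (nat_lit 11940226)] (nat_lit 10729447)) p15_31_1 (nat_lit 4) (nat_lit 179) (nat_lit 180) = true := by decide +kernel
def p15_31_1_180 : pfC (piC [(nat_lit 35065580), (nat_lit 23751559), (nat_lit 17719570), (nat_lit 11940226)] (nat_lit 10729447)) p15_31_1 (nat_lit 4) (nat_lit 180) (nat_lit 181) = true := by decide +kernel
def p15_31_1_181 : pfC (piC [(nat_lit 35065580), (nat_lit 23751559), (nat_lit 17719570), (nat_lit 11940226)] (nat_lit 10729447)) p15_31_1 (nat_lit 4) (nat_lit 181) (nat_lit 182) = true := by decide +kernel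
def p15_31_1_182 : pfC (piC [(nat_lit 35065580), (nat_lit 23751559), (nat_lit 17719570), (nat_lit 11940226)] (nat_lit 10729447)) p15_31_1 (nat_lit 4) (nat_lit 182) (nat_lit 183) = true := by decide +kernel
def p15_31_1_183 : pfC (piC [(nat_lit 35065580), (nat_lit 23751559), (nat_lit 17719570), (nat_lit 11940226)] (nat_lit 10729447)) p15_31_1 (nat_lit 4) (nat_lit 183) (nat_lit 184) = true := by decide +kernel
def p15_31_1_184 : pfC (piC [(nat_lit 35065580), (nat_lit 23751559), (nat_lit 17719570), (nat_lit 11940226)] (nat_lit 10729447)) p15_31_1 (nat_lit 4) (nat_lit 184) (nat_lit 185) = true := by decide +kernel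
def p15_31_1_185 : pfC (piC [(nat_lit 35065580), (nat_lit 23751559), (nat_lit 17719570), (nat_lit 11940226)] (nat_lit 10729447)) p15_31_1 (nat_lit 4) (nat_lit 185) (nat_lit 186) = true := by decide +kernel
def p15_31_1_186 : pfC (piC [(nat_lit 35065580), (nat_lit 23751559), (nat_lit 17719570), (nat_lit 11940226)] (nat_lit 10729447)) p15_31_1 (nat_lit 4) (nat_lit 186) (nat_lit 187) = true := by decide +kernel
def p15_31_1_187 : pfC (piC [(nat_lit 35065580), (nat_lit 23751559), (nat_lit 17719570), (nat_lit 11940226)] (nat_lit 10729447)) p15_31_1 (nat_lit 4) (nat_lit 187) (nat_lit 188) = true := by decide +kernel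
def p15_31_1_188 : pfC (piC [(nat_lit 35065580), (nat_lit 23751559), (nat_lit 17719570), (nat_lit 11940226)] (nat_lit 10729447)) p15_31_1 (nat_lit 4) (nat_lit 188) (nat_lit 189) = true := by decide +kernel
def p15_31_1_189 : pfC (piC [(nat_lit 35065580), (nat_lit 23751559), (nat_lit 17719570), (nat_lit 11940226)] (nat_lit 10729447)) p15_31_1 (nat_lit 4) (nat_lit 189) (nat_lit 190) = true := by decide +kernel
def p15_31_1_190 : pfC (piC [(nat_lit 35065580), (nat_lit 23751559), (nat_lit 17719570), (nat_lit 11940226)] (nat_lit 10729447)) p15_31_1 (nat_lit 4) (nat_lit 190) (nat_lit 191) = true := by decide +kernel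
def p15_31_1_191 : pfC (piC [(nat_lit 35065580), (nat_lit 23751559), (nat_lit 17719570), (nat_lit 11940226)] (nat_lit 10729447)) p15_31_1 (nat_lit 4) (nat_lit 191) (nat_lit 192) = true := by decide +kernel
def p15_31_1_192 : pfC (piC [(nat_lit 35065580), (nat_lit 23751559), (nat_lit 17719570), (nat_lit 11940226)] (nat_lit 10729447)) p15_31_1 (nat_lit 4) (nat_lit 192) (nat_lit 193) = true := by decide +kernel
def p15_31_1_193 : pfC (piC [(nat_lit 35065580), (nat_lit 23751559), (nat_lit 17719570), (nat_lit 11940226)] (nat_lit 10729447)) p15_31_1 (nat_lit 4) (nat_lit 193) (nat_lit 194) = true := by decide +kernel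
def p15_31_1_194 : pfC (piC [(nat_lit 35065580), (nat_lit 23751559), (nat_lit 17719570), (nat_lit 11940226)] (nat_lit 10729447)) p15_31_1 (nat_lit 4) (nat_lit 194) (nat_lit 195) = true := by decide +kernel
def p15_31_1_195 : pfC (piC [(nat_lit 35065580), (nat_lit 23751559), (nat_lit 17719570), (nat_lit 11940226)] (nat_lit 10729447)) p15_31_1 (nat_lit 4) (nat_lit 195) (nat_lit 196) = true := by decide +kernel
def p15_31_1_196 : pfC (piC [(nat_lit 35065580), (nat_lit 23751559), (nat_lit 17719570), (nat_lit 11940226)] (nat_lit 10729447)) p15_31_1 (nat_lit 4) (nat_lit 196) (nat_lit 197) = true := by decide +kernel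
def p15_31_1_197 : pfC (piC [(nat_lit 35065580), (nat_lit 23751559), (nat_lit 17719570), (nat_lit 11940226)] (nat_lit 10729447)) p15_31_1 (nat_lit 4) (nat_lit 197) (nat_lit 198) = true := by decide +kernel
def p15_31_1_198 : pfC (piC [(nat_lit 35065580), (nat_lit 23751559), (nat_lit 17719570), (nat_lit 11940226)] (nat_lit 10729447)) p15_31_1 (nat_lit 4) (nat_lit 198) (nat_lit 199) = true := by decide +kernel
def p15_31_1_199 : pfC (piC [(nat_lit 35065580), (nat_lit 23751559), (nat_lit 17719570), (nat_lit 11940226)] (nat_lit 10729447)) p15_31_1 (nat_lit 4) (nat_lit 199) (nat_lit 200) = true := by decide +kernel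
def p15_31_1_200 : pfC (piC [(nat_lit 35065580), (nat_lit 23751559), (nat_lit 17719570), (nat_lit 11940226)] (nat_lit 10729447)) p15_31_1 (nat_lit 4) (nat_lit 200) (nat_lit 201) = true := by decide +kernel
def p15_31_1_201 : pfC (piC [(nat_lit 35065580), (nat_lit 23751559), (nat_lit 17719570), (nat_lit 11940226)] (nat_lit 10729447)) p15_31_1 (nat_lit 4) (nat_lit 201) (nat_lit 202) = true := by decide +kernel
def p15_31_1_202 : pfC (piC [(nat_lit 35065580), (nat_lit 23751559), (nat_lit 17719570), (nat_lit 11940226)] (nat_lit 10729447)) p15_31_1 (nat_lit 4) (nat_lit 202) (nat_lit 203) = true := by decide +kernel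
def p15_31_1_203 : pfC (piC [(nat_lit 35065580), (nat_lit 23751559), (nat_lit 17719570), (nat_lit 11940226)] (nat_lit 10729447)) p15_31_1 (nat_lit 4) (nat_lit 203) (nat_lit 204) = true := by decide +kernel
def p15_31_1_204 : pfC (piC [(nat_lit 35065580), (nat_lit 23751559), (nat_lit 17719570), (nat_lit 11940226)] (nat_lit 10729447)) p15_31_1 (nat_lit 4) (nat_lit 204) (nat_lit 205) = true := by decide +kernel
def p15_31_1_205 : pfC (piC [(nat_lit 35065580), (nat_lit 23751559), (nat_lit 17719570), (nat_lit 11940226)] (nat_lit 10729447)) p15_31_1 (nat_lit 4) (nat_lit 205) (nat_lit 206) = true := by decide +kernel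
def p15_31_1_206 : pfC (piC [(nat_lit 35065580), (nat_lit 23751559), (nat_lit 17719570), (nat_lit 11940226)] (nat_lit 10729447)) p15_31_1 (nat_lit 4) (nat_lit 206) (nat_lit 207) = true := by decide +kernel
def p15_31_1_207 : pfC (piC [(nat_lit 35065580), (nat_lit 23751559), (nat_lit 17719570), (nat_lit 11940226)] (nat_lit 10729447)) p15_31_1 (nat_lit 4) (nat_lit 207) (nat_lit 208) = true := by decide +kernel
def p15_31_1_208 : pfC (piC [(nat_lit 35065580), (nat_lit 23751559), (nat_lit 17719570), (nat_lit 11940226)] (nat_lit 10729447)) p15_31_1 (nat_lit 4) (nat_lit 208) (nat_lit 209) = true := by decide +kernel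
def p15_31_1_209 : pfC (piC [(nat_lit 35065580), (nat_lit 23751559), (nat_lit 17719570), (nat_lit 11940226)] (nat_lit 10729447)) p15_31_1 (nat_lit 4) (nat_lit 209) (nat_lit 210) = true := by decide +kernel
def p15_31_1_210 : pfC (piC [(nat_lit 35065580), (nat_lit 23751559), (nat_lit 17719570), (nat_lit 11940226)] (nat_lit 10729447)) p15_31_1 (nat_lit 4) (nat_lit 210) (nat_lit 211) = true := by decide +kernel
def p15_31_1_211 : pfC (piC [(nat_lit 35065580), (nat_lit 23751559), (nat_lit 17719570), (nat_lit 11940226)] (nat_lit 10729447)) p15_31_1 (nat_lit 4) (nat_lit 211) (nat_lit 212) = true := by decide +kernel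
def p15_31_1_212 : pfC (piC [(nat_lit 35065580), (nat_lit 23751559), (nat_lit 17719570), (nat_lit 11940226)] (nat_lit 10729447)) p15_31_1 (nat_lit 4) (nat_lit 212) (nat_lit 213) = true := by decide +kernel
def p15_31_1_213 : pfC (piC [(nat_lit 35065580), (nat_lit 23751559), (nat_lit 17719570), (nat_lit 11940226)] (nat_lit 10729447)) p15_31_1 (nat_lit 4) (nat_lit 213) (nat_lit 214) = true := by decide +kernel
def p15_31_1_214 : pfC (piC [(nat_lit 35065580), (nat_lit 23751559), (nat_lit 17719570), (nat_lit 11940226)] (nat_lit 10729447)) p15_31_1 (nat_lit 4) (nat_lit 214) (nat_lit 215) = true := by decide +kernel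
def p15_31_1_215 : pfC (piC [(nat_lit 35065580), (nat_lit 23751559), (nat_lit 17719570), (nat_lit 11940226)] (nat_lit 10729447)) p15_31_1 (nat_lit 4) (nat_lit 215) (nat_lit 216) = true := by decide +kernel
def p15_31_1_216 : pfC (piC [(nat_lit 35065580), (nat_lit 23751559), (nat_lit 17719570), (nat_lit 11940226)] (nat_lit 10729447)) p15_31_1 (nat_lit 4) (nat_lit 216) (nat_lit 217) = true := by decide +kernel
def p15_31_1_217 : pfC (piC [(nat_lit 35065580), (nat_lit 23751559), (nat_lit 17719570), (nat_lit 11940226)] (nat_lit 10729447)) p15_31_1 (nat_lit 4) (nat_lit 217) (nat_lit 218) = true := by decide +kernel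
def p15_31_1_218 : pfC (piC [(nat_lit 35065580), (nat_lit 23751559), (nat_lit 17719570), (nat_lit 11940226)] (nat_lit 10729447)) p15_31_1 (nat_lit 4) (nat_lit 218) (nat_lit 219) = true := by decide +kernel
def p15_31_1_219 : pfC (piC [(nat_lit 35065580), (nat_lit 23751559), (nat_lit 17719570), (nat_lit 11940226)] (nat_lit 10729447)) p15_31_1 (nat_lit 4) (nat_lit 219) (nat_lit 220) = true := by decide +kernel
def p15_31_1_220 : pfC (piC [(nat_lit 35065580), (nat_lit 23751559), (nat_lit 17719570), (nat_lit 11940226)] (nat_lit 10729447)) p15_31_1 (nat_lit 4) (nat_lit 220) (nat_lit 221) = true := by decide +kernel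
def p15_31_1_221 : pfC (piC [(nat_lit 35065580), (nat_lit 23751559), (nat_lit 17719570), (nat_lit 11940226)] (nat_lit 10729447)) p15_31_1 (nat_lit 4) (nat_lit 221) (nat_lit 222) = true := by decide +kernel
def p15_31_1_222 : pfC (piC [(nat_lit 35065580), (nat_lit 23751559), (nat_lit 17719570), (nat_lit 11940226)] (nat_lit 10729447)) p15_31_1 (nat_lit 4) (nat_lit 222) (nat_lit 223) = true := by decide +kernel
def p15_31_1_223 : pfC (piC [(nat_lit 35065580), (nat_lit 23751559), (nat_lit 17719570), (nat_lit 11940226)] (nat_lit 10729447)) p15_31_1 (nat_lit 4) (nat_lit 223) (nat_lit 224) = true := by decide +kernel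
def p15_31_1_224 : pfC (piC [(nat_lit 35065580), (nat_lit 23751559), (nat_lit 17719570), (nat_lit 11940226)] (nat_lit 10729447)) p15_31_1 (nat_lit 4) (nat_lit 224) (nat_lit 225) = true := by decide +kernel
def p15_31_1_225 : pfC (piC [(nat_lit 35065580), (nat_lit 23751559), (nat_lit 17719570), (nat_lit 11940226)] (nat_lit 10729447)) p15_31_1 (nat_lit 4) (nat_lit 225) (nat_lit 226) = true := by decide +kernel
def p15_31_1_226 : pfC (piC [(nat_lit 35065580), (nat_lit 23751559), (nat_lit 17719570), (nat_lit 11940226)] (nat_lit 10729447)) p15_31_1 (nat_lit 4) (nat_lit 226) (nat_lit 227) = true := by decide +kernel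
def p15_31_1_227 : pfC (piC [(nat_lit 35065580), (nat_lit 23751559), (nat_lit 17719570), (nat_lit 11940226)] (nat_lit 10729447)) p15_31_1 (nat_lit 4) (nat_lit 227) (nat_lit 228) = true := by decide +kernel
def p15_31_1_228 : pfC (piC [(nat_lit 35065580), (nat_lit 23751559), (nat_lit 17719570), (nat_lit 11940226)] (nat_lit 10729447)) p15_31_1 (nat_lit 4) (nat_lit 228) (nat_lit 229) = true := by decide +kernel
def p15_31_1_229 : pfC (piC [(nat_lit 35065580), (nat_lit 23751559), (nat_lit 17719570), (nat_lit 11940226)] (nat_lit 10729447)) p15_31_1 (nat_lit 4) (nat_lit 229) (nat_lit 230) = true := by decide +kernel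
def p15_31_1_230 : pfC (piC [(nat_lit 35065580), (nat_lit 23751559), (nat_lit 17719570), (nat_lit 11940226)] (nat_lit 10729447)) p15_31_1 (nat_lit 4) (nat_lit 230) (nat_lit 231) = true := by decide +kernel
def p15_31_1_231 : pfC (piC [(nat_lit 35065580), (nat_lit 23751559), (nat_lit 17719570), (nat_lit 11940226)] (nat_lit 10729447)) p15_31_1 (nat_lit 4) (nat_lit 231) (nat_lit 232) = true := by decide +kernel
def p15_31_1_232 : pfC (piC [(nat_lit 35065580), (nat_lit 23751559), (nat_lit 17719570), (nat_lit 11940226)] (nat_lit 10729447)) p15_31_1 (nat_lit 4) (nat_lit 232) (nat_lit 233) = true := by decide +kernel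
def p15_31_1_233 : pfC (piC [(nat_lit 35065580), (nat_lit 23751559), (nat_lit 17719570), (nat_lit 11940226)] (nat_lit 10729447)) p15_31_1 (nat_lit 4) (nat_lit 233) (nat_lit 234) = true := by decide +kernel
def p15_31_1_234 : pfC (piC [(nat_lit 35065580), (nat_lit 23751559), (nat_lit 17719570), (nat_lit 11940226)] (nat_lit 10729447)) p15_31_1 (nat_lit 4) (nat_lit 234) (nat_lit 235) = true := by decide +kernel
def p15_31_1_235 : pfC (piC [(nat_lit 35065580), (nat_lit 23751559), (nat_lit 17719570), (nat_lit 11940226)] (nat_lit 10729447)) p15_31_1 (nat_lit 4) (nat_lit 235) (nat_lit 236) = true := by decide +kernel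
theorem p15_31_1_T : PfS (PiF n15_31.reverse (nat_lit 10729447)) p15_31_1 (nat_lit 4) [] 0 :=
  pftab_of (los := [(nat_lit 35065580), (nat_lit 23751559), (nat_lit 17719570), (nat_lit 11940226)]) (by decide +kernel) (hi := (nat_lit 236)) (PfP.trans (PfP.trans (PfP.trans (PfP.trans (PfP.trans (PfP.trans (PfP.trans (PfP.trans (PfP.trans (PfP.trans (PfP.trans (PfP.trans (PfP.trans (PfP.trans (PfP.trans (PfP.trans (PfP.trans (PfP.trans (PfP.trans (PfP.trans (PfP.trans (PfP.trans (PfP.trans (PfP.trans (PfP.trans (PfP.trans (PfP.trans (PfP.trans (PfP.trans (PfP.trans (PfP.trans (PfP.trans (PfP.trans (PfP.trans (PfP.trans (PfP.trans (PfP.trans (PfP.trans (PfP.trans (PfP.trans (PfP.trans (PfP.trans (PfP.trans (PfP.trans (PfP.trans (PfP.trans (PfP.trans (PfP.trans (PfP.trans (PfP.trans (PfP.trans (PfP.trans (PfP.trans (PfP.trans (PfP.trans (PfP.trans (PfP.trans (PfP.trans (PfP.trans (PfP.trans (PfP.trans (PfP.trans (PfP.trans (PfP.trans (PfP.trans (PfP.trans (PfP.trans (PfP.trans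 (PfP.trans (PfP.trans (PfP.trans (PfP.trans (PfP.trans (PfP.trans (PfP.trans (PfP.trans (PfP.trans (PfP.trans (PfP.trans (PfP.trans (PfP.trans (PfP.trans (PfP.trans (PfP.trans (PfP.trans (PfP.trans (PfP.trans (PfP.trans (PfP.trans (PfP.trans (PfP.trans (PfP.trans (PfP.trans (PfP.trans (PfP.trans (PfP.trans (PfP.trans (PfP.trans (PfP.trans (PfP.trans (PfP.trans (PfP.trans (PfP.trans (PfP.trans (PfP.trans (PfP.trans (PfP.trans (PfP.trans (PfP.trans
 (PfP.trans (PfP.trans (PfP.trans (PfP.trans (PfP.trans (PfP.trans (PfP.trans (PfP.trans (PfP.trans (PfP.trans (PfP.trans (PfP.trans (PfP.trans (PfP.trans (PfP.trans (PfP.trans (PfP.trans (PfP.trans (PfP.trans (PfP.trans (PfP.trans (PfP.trans (PfP.trans (PfP.trans (PfP.trans (PfP.trans (PfP.trans (PfP.trans (PfP.trans (PfP.trans (PfP.trans (PfP.trans (PfP.trans (PfP.trans (PfP.trans (PfP.trans (PfP.trans (PfP.trans (PfP.trans (PfP.trans (PfP.trans (PfP.trans (PfP.trans (PfP.trans (PfP.trans (PfP.trans (PfP.trans (PfP.trans (PfP.trans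 (PfP.trans (PfP.trans (PfP.trans (PfP.trans (PfP.trans (PfP.trans (PfP.trans (PfP.trans (PfP.trans (PfP.trans (PfP.trans (PfP.trans (PfP.trans (PfP.trans (PfP.trans (PfP.trans (PfP.trans (PfP.trans (PfP.trans (PfP.trans (PfP.trans (PfP.trans (PfP.trans (PfP.trans (PfP.trans (PfP.trans (PfP.trans (PfP.trans (PfP.trans (PfP.trans (PfP.trans (PfP.trans (PfP.trans (PfP.trans (PfP.trans (PfP.trans (PfP.trans (PfP.trans (PfP.trans (PfP.trans (PfP.trans (PfP.trans (PfP.trans (PfP.trans (PfP.trans (PfP.trans (PfP.trans (PfP.trans (PfP.trans (PfP.trans (PfP.trans (PfP.trans (PfP.trans (PfP.trans (PfP.trans (PfP.trans (PfP.trans (PfP.trans (PfP.trans (PfP.trans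
 (PfP.trans (PfP.trans (PfP.trans (PfP.trans (PfP.trans (PfP.trans (PfP.trans (PfP.trans (PfP.trans (PfP.trans (PfP.trans (PfP.trans (PfP.trans (PfP.trans (PfP.trans (PfP.trans (PfP.trans (pfC_sound p15_31_1_0) (pfC_sound p15_31_1_1)) (pfC_sound p15_31_1_2)) (pfC_sound p15_31_1_3)) (pfC_sound p15_31_1_4)) (pfC_sound p15_31_1_5)) (pfC_sound p15_31_1_6)) (pfC_sound p15_31_1_7)) (pfC_sound p15_31_1_8)) (pfC_sound p15_31_1_9)) (pfC_sound p15_31_1_10)) (pfC_sound p15_31_1_11)) (pfC_sound p15_31_1_12)) (pfC_sound p15_31_1_13)) (pfC_sound p15_31_1_14)) (pfC_sound p15_31_1_15)) (pfC_sound p15_31_1_16)) (pfC_sound p15_31_1_17)) (pfC_sound p15_31_1_18)) (pfC_sound p15_31_1_19)) (pfC_sound p15_31_1_20)) (pfC_sound p15_31_1_21)) (pfC_sound p15_31_1_22)) (pfC_sound p15_31_1_23)) (pfC_sound p15_31_1_24)) (pfC_sound p15_31_1_25)) (pfC_sound p15_31_1_26)) (pfC_sound p15_31_1_27)) (pfC_sound p15_31_1_28)) (pfC_sound p15_31_1_29)) (pfC_sound p15_31_1_30)) (pfC_sound p15_31_1_31)) (pfC_sound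 p15_31_1_32)) (pfC_sound p15_31_1_33)) (pfC_sound p15_31_1_34)) (pfC_sound p15_31_1_35)) (pfC_sound p15_31_1_36)) (pfC_sound p15_31_1_37)) (pfC_sound p15_31_1_38)) (pfC_sound p15_31_1_39)) (pfC_sound
 p15_31_1_40)) (pfC_sound p15_31_1_41)) (pfC_sound p15_31_1_42)) (pfC_sound p15_31_1_43)) (pfC_sound p15_31_1_44)) (pfC_sound p15_31_1_45)) (pfC_sound p15_31_1_46)) (pfC_sound p15_31_1_47)) (pfC_sound p15_31_1_48)) (pfC_sound p15_31_1_49)) (pfC_sound p15_31_1_50)) (pfC_sound p15_31_1_51)) (pfC_sound p15_31_1_52)) (pfC_sound p15_31_1_53)) (pfC_sound p15_31_1_54)) (pfC_sound p15_31_1_55)) (pfC_sound p15_31_1_56)) (pfC_sound p15_31_1_57)) (pfC_sound p15_31_1_58)) (pfC_sound p15_31_1_59)) (pfC_sound p15_31_1_60)) (pfC_sound p15_31_1_61)) (pfC_sound p15_31_1_62)) (pfC_sound p15_31_1_63)) (pfC_sound p15_31_1_64)) (pfC_sound p15_31_1_65)) (pfC_sound p15_31_1_66)) (pfC_sound p15_31_1_67)) (pfC_sound p15_31_1_68)) (pfC_sound p15_31_1_69)) (pfC_sound p15_31_1_70)) (pfC_sound p15_31_1_71))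 (pfC_sound p15_31_1_72)) (pfC_sound p15_31_1_73)) (pfC_sound p15_31_1_74)) (pfC_sound p15_31_1_75)) (pfC_sound p15_31_1_76)) (pfC_sound p15_31_1_77)) (pfC_sound p15_31_1_78)) (pfC_sound p15_31_1_79)) (pfC_sound p15_31_1_80)) (pfC_sound p15_31_1_81)) (pfC_sound p15_31_1_82)) (pfC_sound p15_31_1_83)) (pfC_sound p15_31_1_84)) (pfC_sound p15_31_1_85)) (pfC_sound p15_31_1_86)) (pfC_sound p15_31_1_87)) (pfC_sound
 p15_31_1_88)) (pfC_sound p15_31_1_89)) (pfC_sound p15_31_1_90)) (pfC_sound p15_31_1_91)) (pfC_sound p15_31_1_92)) (pfC_sound p15_31_1_93)) (pfC_sound p15_31_1_94)) (pfC_sound p15_31_1_95)) (pfC_sound p15_31_1_96)) (pfC_sound p15_31_1_97)) (pfC_sound p15_31_1_98)) (pfC_sound p15_31_1_99)) (pfC_sound p15_31_1_100)) (pfC_sound p15_31_1_101)) (pfC_sound p15_31_1_102)) (pfC_sound p15_31_1_103)) (pfC_sound p15_31_1_104)) (pfC_sound p15_31_1_105)) (pfC_sound p15_31_1_106)) (pfC_sound p15_31_1_107)) (pfC_sound p15_31_1_108)) (pfC_sound p15_31_1_109)) (pfC_sound p15_31_1_110))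 (pfC_sound p15_31_1_111)) (pfC_sound p15_31_1_112)) (pfC_sound p15_31_1_113)) (pfC_sound p15_31_1_114)) (pfC_sound p15_31_1_115)) (pfC_sound p15_31_1_116)) (pfC_sound p15_31_1_117)) (pfC_sound p15_31_1_118)) (pfC_sound p15_31_1_119)) (pfC_sound p15_31_1_120)) (pfC_sound p15_31_1_121)) (pfC_sound p15_31_1_122)) (pfC_sound p15_31_1_123)) (pfC_sound p15_31_1_124)) (pfC_sound p15_31_1_125)) (pfC_sound p15_31_1_126)) (pfC_sound p15_31_1_127)) (pfC_sound p15_31_1_128)) (pfC_sound p15_31_1_129)) (pfC_sound p15_31_1_130)) (pfC_sound p15_31_1_131)) (pfC_sound p15_31_1_132)) (pfC_sound p15_31_1_133)) (pfC_sound p15_31_1_134))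
 (pfC_sound p15_31_1_135)) (pfC_sound p15_31_1_136)) (pfC_sound p15_31_1_137)) (pfC_sound p15_31_1_138)) (pfC_sound p15_31_1_139)) (pfC_sound p15_31_1_140)) (pfC_sound p15_31_1_141)) (pfC_sound p15_31_1_142)) (pfC_sound p15_31_1_143)) (pfC_sound p15_31_1_144)) (pfC_sound p15_31_1_145)) (pfC_sound p15_31_1_146)) (pfC_sound p15_31_1_147)) (pfC_sound p15_31_1_148)) (pfC_sound p15_31_1_149)) (pfC_sound p15_31_1_150)) (pfC_sound p15_31_1_151)) (pfC_sound p15_31_1_152)) (pfC_sound p15_31_1_153)) (pfC_sound p15_31_1_154)) (pfC_sound p15_31_1_155)) (pfC_sound p15_31_1_156)) (pfC_sound p15_31_1_157)) (pfC_sound p15_31_1_158)) (pfC_sound p15_31_1_159)) (pfC_sound p15_31_1_160)) (pfC_sound p15_31_1_161)) (pfC_sound p15_31_1_162)) (pfC_sound p15_31_1_163)) (pfC_sound p15_31_1_164)) (pfC_sound p15_31_1_165)) (pfC_sound p15_31_1_166)) (pfC_sound p15_31_1_167)) (pfC_sound p15_31_1_168)) (pfC_sound p15_31_1_169)) (pfC_sound p15_31_1_170)) (pfC_sound p15_31_1_171)) (pfC_sound p15_31_1_172))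 (pfC_sound p15_31_1_173)) (pfC_sound p15_31_1_174)) (pfC_sound p15_31_1_175)) (pfC_sound p15_31_1_176)) (pfC_sound p15_31_1_177)) (pfC_sound p15_31_1_178)) (pfC_sound p15_31_1_179)) (pfC_sound p15_31_1_180))
 (pfC_sound p15_31_1_181)) (pfC_sound p15_31_1_182)) (pfC_sound p15_31_1_183)) (pfC_sound p15_31_1_184)) (pfC_sound p15_31_1_185)) (pfC_sound p15_31_1_186)) (pfC_sound p15_31_1_187)) (pfC_sound p15_31_1_188)) (pfC_sound p15_31_1_189)) (pfC_sound p15_31_1_190)) (pfC_sound p15_31_1_191)) (pfC_sound p15_31_1_192)) (pfC_sound p15_31_1_193)) (pfC_sound p15_31_1_194)) (pfC_sound p15_31_1_195)) (pfC_sound p15_31_1_196)) (pfC_sound p15_31_1_197)) (pfC_sound p15_31_1_198)) (pfC_sound p15_31_1_199)) (pfC_sound p15_31_1_200)) (pfC_sound p15_31_1_201)) (pfC_sound p15_31_1_202)) (pfC_sound p15_31_1_203)) (pfC_sound p15_31_1_204)) (pfC_sound p15_31_1_205)) (pfC_sound p15_31_1_206)) (pfC_sound p15_31_1_207)) (pfC_sound p15_31_1_208)) (pfC_sound p15_31_1_209)) (pfC_sound p15_31_1_210))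 (pfC_sound p15_31_1_211)) (pfC_sound p15_31_1_212)) (pfC_sound p15_31_1_213)) (pfC_sound p15_31_1_214)) (pfC_sound p15_31_1_215)) (pfC_sound p15_31_1_216)) (pfC_sound p15_31_1_217)) (pfC_sound p15_31_1_218)) (pfC_sound p15_31_1_219)) (pfC_sound p15_31_1_220)) (pfC_sound p15_31_1_221)) (pfC_sound p15_31_1_222)) (pfC_sound p15_31_1_223)) (pfC_sound p15_31_1_224)) (pfC_sound p15_31_1_225)) (pfC_sound p15_31_1_226))
 (pfC_sound p15_31_1_227)) (pfC_sound p15_31_1_228)) (pfC_sound p15_31_1_229)) (pfC_sound p15_31_1_230)) (pfC_sound p15_31_1_231)) (pfC_sound p15_31_1_232)) (pfC_sound p15_31_1_233)) (pfC_sound p15_31_1_234)) (pfC_sound p15_31_1_235)) (by decide +kernel)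

def z15_31_1 : zOK yB15_31 (nat_lit 1) (nat_lit 400) (nat_lit 600) (nat_lit 10729447) (nat_lit 6931473) = true := by decide +kernel
def g15_31_1 : gOK yB15_31.x P15_31 (nat_lit 1399) (q15_31 :: r15_31) (nat_lit 1) (nat_lit 400) (nat_lit 2) (nat_lit 600) (nat_lit 11000000) (nat_lit 17850000) (nat_lit 12712500) (nat_lit 12712500) [(nat_lit 800), (nat_lit 1130)] = true := by decide +kernel
def p15_31_2 : PF := (PF.cons (PF.cons (PF.cons (PF.cons (PF.leaf (nat_lit 2706345) (nat_lit 15546144) (nat_lit 51562668) (nat_lit 15546144) [(nat_lit 0), (nat_lit 0), (nat_lit 0), (nat_lit 0)]) (PF.cons (PF.leaf (nat_lit 2937115) (nat_lit 434324) (nat_lit 51153101) (nat_lit 15521387) [(nat_lit 434324), (nat_lit 0), (nat_lit 0), (nat_lit 0)]) (PF.cons (PF.leaf (nat_lit 3207420) (nat_lit 470911) (nat_lit 50677456) (nat_lit 15489533) [(nat_lit 470911), (nat_lit 0), (nat_lit 0), (nat_lit 0)]) (PF.cons (PF.leaf (nat_lit 3509241) (nat_lit 502806) (nat_lit 50149935) (nat_lit 15450459) [(nat_lit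 502806), (nat_lit 0), (nat_lit 0), (nat_lit 0)]) (PF.cons (PF.leaf (nat_lit 3837220) (nat_lit 530986) (nat_lit 49580822) (nat_lit 15404042) [(nat_lit 530986), (nat_lit 0), (nat_lit 0), (nat_lit 0)]) (PF.cons (PF.leaf (nat_lit 4187205) (nat_lit 556084) (nat_lit 48978164) (nat_lit 15350227) [(nat_lit 556084), (nat_lit 0), (nat_lit 0), (nat_lit 0)]) (PF.cons (PF.leaf (nat_lit 4555763) (nat_lit 578537) (nat_lit 48348541) (nat_lit 15289048) [(nat_lit 578537), (nat_lit 0), (nat_lit 0), (nat_lit 0)]) (PF.cons (PF.leaf (nat_lit 4939954) (nat_lit 598670) (nat_lit 47697490) (nat_lit 15220627) [(nat_lit 598670), (nat_lit 0),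
 (nat_lit 0), (nat_lit 0)]) (PF.cons (PF.leaf (nat_lit 5337267) (nat_lit 616736) (nat_lit 47029754) (nat_lit 15145168) [(nat_lit 616736), (nat_lit 0), (nat_lit 0), (nat_lit 0)]) (PF.cons (PF.leaf (nat_lit 5745450) (nat_lit 632937) (nat_lit 46349434) (nat_lit 15062943) [(nat_lit 632937), (nat_lit 0), (nat_lit 0), (nat_lit 0)]) (PF.cons (PF.leaf (nat_lit 6162515) (nat_lit 647442) (nat_lit 45660103) (nat_lit 14974283) [(nat_lit 647442), (nat_lit 0), (nat_lit 0), (nat_lit 0)]) (PF.cons PF.nil (PF.cons PF.nil (PF.cons PF.nil PF.nil)))))))))))))) (PF.cons (PF.cons (PF.leaf (nat_lit 3347750) (nat_lit 1594283) (nat_lit 50075979) (nat_lit 15438549) [(nat_lit 0), (nat_lit 1594283), (nat_lit 0), (nat_lit 0)]) (PF.cons (PF.leaf (nat_lit 3636441) (nat_lit 509248) (nat_lit 49564879) (nat_lit 15396520) [(nat_lit 509248), (nat_lit 1638165), (nat_lit 0), (nat_lit 0)]) (PF.cons (PF.leaf (nat_lit 3953869) (nat_lit 536712) (nat_lit 49009026) (nat_lit 15346922) [(nat_lit 536712), (nat_lit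 1679439), (nat_lit 0), (nat_lit 0)]) (PF.cons (PF.leaf (nat_lit 4294608) (nat_lit 561080) (nat_lit 48418078) (nat_lit 15289882) [(nat_lit 561080), (nat_lit 1717611), (nat_lit 0), (nat_lit 0)]) (PF.cons (PF.leaf
 (nat_lit 4654743) (nat_lit 582828) (nat_lit 47799433) (nat_lit 15225547) [(nat_lit 582828), (nat_lit 1752517), (nat_lit 0), (nat_lit 0)]) (PF.cons (PF.leaf (nat_lit 5031092) (nat_lit 602296) (nat_lit 47159064) (nat_lit 15154113) [(nat_lit 602296), (nat_lit 1784154), (nat_lit 0), (nat_lit 0)]) (PF.cons (PF.leaf (nat_lit 5420946) (nat_lit 619738) (nat_lit 46501942) (nat_lit 15075834) [(nat_lit 619738), (nat_lit 1812601), (nat_lit 0), (nat_lit 0)]) (PF.cons (PF.leaf (nat_lit 5821985) (nat_lit 635361) (nat_lit 45832287) (nat_lit 14991016) [(nat_lit 635361), (nat_lit 1837979), (nat_lit 0), (nat_lit 0)]) (PF.cons (PF.leaf (nat_lit 6232151) (nat_lit 649330) (nat_lit 45153726) (nat_lit 14900009) [(nat_lit 649330), (nat_lit 1860431), (nat_lit 0), (nat_lit 0)]) (PF.cons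 PF.nil (PF.cons PF.nil (PF.cons PF.nil PF.nil)))))))))))) (PF.cons (PF.cons (PF.leaf (nat_lit 4074752) (nat_lit 1699167) (nat_lit 48425853) (nat_lit 15284623) [(nat_lit 0), (nat_lit 1699167), (nat_lit 0), (nat_lit 0)]) (PF.cons (PF.leaf (nat_lit 4404200) (nat_lit 565007) (nat_lit 47850946) (nat_lit 15225061) [(nat_lit 565007), (nat_lit 1733899), (nat_lit 0), (nat_lit 0)]) (PF.cons (PF.leaf (nat_lit 4754789) (nat_lit 586252)
 (nat_lit 47246321) (nat_lit 15158148) [(nat_lit 586252), (nat_lit 1765919), (nat_lit 0), (nat_lit 0)]) (PF.cons (PF.leaf (nat_lit 5122508) (nat_lit 605199) (nat_lit 46618856) (nat_lit 15084198) [(nat_lit 605199), (nat_lit 1795080), (nat_lit 0), (nat_lit 0)]) (PF.cons (PF.leaf (nat_lit 5504380) (nat_lit 622129) (nat_lit 45974020) (nat_lit 15003536) [(nat_lit 622129), (nat_lit 1821369), (nat_lit 0), (nat_lit 0)]) (PF.cons (PF.leaf (nat_lit 5897899) (nat_lit 637258) (nat_lit 45316311) (nat_lit 14916514) [(nat_lit 637258), (nat_lit 1844847), (nat_lit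 0), (nat_lit 0)]) (PF.cons (PF.leaf (nat_lit 6300908) (nat_lit 650761) (nat_lit 44649508) (nat_lit 14823509) [(nat_lit 650761), (nat_lit 1865611), (nat_lit 0), (nat_lit 0)]) (PF.cons (PF.leaf (nat_lit 6711513) (nat_lit 662784) (nat_lit 43976830) (nat_lit 14724922) [(nat_lit 662784), (nat_lit 1883784), (nat_lit 0), (nat_lit 0)]) (PF.cons PF.nil (PF.cons PF.nil PF.nil)))))))))) (PF.cons (PF.cons (PF.leaf (nat_lit 4857492) (nat_lit 1778102) (nat_lit 46687797) (nat_lit 15086707) [(nat_lit 0), (nat_lit 1778102), (nat_lit 0), (nat_lit 0)]) (PF.cons (PF.leaf (nat_lit 5215221) (nat_lit 607352) (nat_lit 46075961) (nat_lit 15010820) [(nat_lit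
 607352), (nat_lit 1804892), (nat_lit 0), (nat_lit 0)]) (PF.cons (PF.leaf (nat_lit 5588347) (nat_lit 623892) (nat_lit 45445377) (nat_lit 14928262) [(nat_lit 623892), (nat_lit 1829129), (nat_lit 0), (nat_lit 0)]) (PF.cons (PF.leaf (nat_lit 5973809) (nat_lit 638623) (nat_lit 44801071) (nat_lit 14839455) [(nat_lit 638623), (nat_lit 1850805), (nat_lit 0), (nat_lit 0)]) (PF.cons (PF.leaf (nat_lit 6369291) (nat_lit 651734) (nat_lit 44147130) (nat_lit 14744820) [(nat_lit 651734), (nat_lit 1869974), (nat_lit 0), (nat_lit 0)]) (PF.cons (PF.leaf (nat_lit 6772765) (nat_lit 663380) (nat_lit 43486949) (nat_lit 14644783) [(nat_lit 663380), (nat_lit 1886725), (nat_lit 0), (nat_lit 0)]) (PF.cons (PF.leaf (nat_lit 7182540) (nat_lit 673689) (nat_lit 42823391) (nat_lit 14539776) [(nat_lit 673689), (nat_lit 1901168), (nat_lit 0), (nat_lit 0)]) (PF.cons PF.nil (PF.cons PF.nil PF.nil))))))))) (PF.cons (PF.cons (PF.leaf (nat_lit 5673985) (nat_lit 1835955) (nat_lit 44915060) (nat_lit 14849932)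 [(nat_lit 0), (nat_lit 1835955), (nat_lit 0), (nat_lit 0)]) (PF.cons (PF.leaf (nat_lit 6050448) (nat_lit 639437) (nat_lit 44285914) (nat_lit 14759810) [(nat_lit 639437), (nat_lit 1855912), (nat_lit 0), (nat_lit 0)])
 (PF.cons (PF.leaf (nat_lit 6437873) (nat_lit 652239) (nat_lit 43646120) (nat_lit 14663944) [(nat_lit 652239), (nat_lit 1873567), (nat_lit 0), (nat_lit 0)]) (PF.cons (PF.leaf (nat_lit 6833868) (nat_lit 663573) (nat_lit 42999394) (nat_lit 14562803) [(nat_lit 663573), (nat_lit 1888973), (nat_lit 0), (nat_lit 0)]) (PF.cons (PF.leaf (nat_lit 7236585) (nat_lit 673579) (nat_lit 42348792) (nat_lit 14456841) [(nat_lit 673579), (nat_lit 1902215), (nat_lit 0), (nat_lit 0)]) (PF.cons PF.nil (PF.cons PF.nil PF.nil))))))) (PF.cons (PF.cons (PF.leaf (nat_lit 6507540) (nat_lit 1876435) (nat_lit 43145795) (nat_lit 14580837) [(nat_lit 0), (nat_lit 1876435), (nat_lit 0), (nat_lit 0)]) (PF.cons (PF.leaf (nat_lit 6895347) (nat_lit 663352) (nat_lit 42513665) (nat_lit 14478967)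 [(nat_lit 663352), (nat_lit 1890565), (nat_lit 0), (nat_lit 0)]) (PF.cons (PF.leaf (nat_lit 7290665) (nat_lit 673112) (nat_lit 41876858) (nat_lit 14372373) [(nat_lit 673112), (nat_lit 1902671), (nat_lit 0), (nat_lit 0)]) (PF.cons (PF.leaf (nat_lit 7691571) (nat_lit 681664) (nat_lit 41238127) (nat_lit 14261524) [(nat_lit 681664), (nat_lit 1912833), (nat_lit 0), (nat_lit 0)]) (PF.cons PF.nil PF.nil))))) (PF.cons (PF.cons (PF.leaf
 (nat_lit 7345482) (nat_lit 1902564) (nat_lit 41407078) (nat_lit 14286345) [(nat_lit 0), (nat_lit 1902564), (nat_lit 0), (nat_lit 0)]) (PF.cons (PF.leaf (nat_lit 7738929) (nat_lit 680639) (nat_lit 40782280) (nat_lit 14175280) [(nat_lit 680639), (nat_lit 1911768), (nat_lit 0), (nat_lit 0)]) (PF.cons PF.nil (PF.cons PF.nil PF.nil)))) (PF.cons (PF.cons (PF.leaf (nat_lit 8178281) (nat_lit 1916871) (nat_lit 39717610) (nat_lit 13973101) [(nat_lit 0), (nat_lit 1916871), (nat_lit 0), (nat_lit 0)]) (PF.cons PF.nil PF.nil)) (PF.cons PF.nil PF.nil)))))))))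 (PF.cons (PF.cons (PF.cons (PF.leaf (nat_lit 3911328) (nat_lit 3848788) (nat_lit 48041152) (nat_lit 15218871) [(nat_lit 0), (nat_lit 0), (nat_lit 3848788), (nat_lit 0)]) (PF.cons (PF.leaf (nat_lit 4208052) (nat_lit 536694) (nat_lit 47526777) (nat_lit 15164101) [(nat_lit 536694), (nat_lit 0), (nat_lit 3881239), (nat_lit 0)]) (PF.cons (PF.leaf (nat_lit 4531410) (nat_lit 561529) (nat_lit 46972314) (nat_lit 15101538) [(nat_lit 561529), (nat_lit 0), (nat_lit 3911901), (nat_lit 0)]) (PF.cons (PF.leaf (nat_lit 4875902) (nat_lit 583253) (nat_lit 46387429) (nat_lit 15031680) [(nat_lit 583253), (nat_lit 0), (nat_lit 3939941), (nat_lit 0)]) (PF.cons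
 (PF.leaf (nat_lit 5237664) (nat_lit 602415) (nat_lit 45779314) (nat_lit 14954946) [(nat_lit 602415), (nat_lit 0), (nat_lit 3964891), (nat_lit 0)]) (PF.cons (PF.leaf (nat_lit 5613613) (nat_lit 619390) (nat_lit 45153619) (nat_lit 14871731) [(nat_lit 619390), (nat_lit 0), (nat_lit 3986508), (nat_lit 0)]) (PF.cons (PF.leaf (nat_lit 6001198) (nat_lit 634456) (nat_lit 44514944) (nat_lit 14782431) [(nat_lit 634456), (nat_lit 0), (nat_lit 4004695), (nat_lit 0)]) (PF.cons (PF.leaf (nat_lit 6398236) (nat_lit 647828) (nat_lit 43867113) (nat_lit 14687452) [(nat_lit 647828), (nat_lit 0), (nat_lit 4019448), (nat_lit 0)]) (PF.cons (PF.leaf (nat_lit 6802865) (nat_lit 659677) (nat_lit 43213354) (nat_lit 14587208) [(nat_lit 659677), (nat_lit 0), (nat_lit 4030831), (nat_lit 0)]) (PF.cons PF.nil PF.nil)))))))))) (PF.cons (PF.cons (PF.leaf (nat_lit 4643435) (nat_lit 1747528) (nat_lit 46406000) (nat_lit 15028254) [(nat_lit 0), (nat_lit 1747528), (nat_lit 3927029), (nat_lit 0)]) (PF.cons (PF.leaf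 (nat_lit 4976092) (nat_lit 585091) (nat_lit 45839505) (nat_lit 14957071) [(nat_lit 585091), (nat_lit 1775846), (nat_lit 3951298), (nat_lit 0)]) (PF.cons (PF.leaf (nat_lit 5327922) (nat_lit 603995) (nat_lit
 45247347) (nat_lit 14878877) [(nat_lit 603995), (nat_lit 1801665), (nat_lit 3972931), (nat_lit 0)]) (PF.cons (PF.leaf (nat_lit 5695027) (nat_lit 620656) (nat_lit 44636137) (nat_lit 14794196) [(nat_lit 620656), (nat_lit 1824908), (nat_lit 3991601), (nat_lit 0)]) (PF.cons (PF.leaf (nat_lit 6074528) (nat_lit 635385) (nat_lit 44011015) (nat_lit 14703503) [(nat_lit 635385), (nat_lit 1845596), (nat_lit 4007153), (nat_lit 0)]) (PF.cons (PF.leaf (nat_lit 6464045) (nat_lit 648417) (nat_lit 43376122) (nat_lit 14607251) [(nat_lit 648417), (nat_lit 1863806), (nat_lit 4019544), (nat_lit 0)]) (PF.cons (PF.leaf (nat_lit 6861578) (nat_lit 659934) (nat_lit 42734874) (nat_lit 14505881) [(nat_lit 659934), (nat_lit 1879640), (nat_lit 4028806), (nat_lit 0)]) (PF.cons (PF.leaf (nat_lit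 7265390) (nat_lit 670087) (nat_lit 42090129) (nat_lit 14399831) [(nat_lit 670087), (nat_lit 1893218), (nat_lit 4035020), (nat_lit 0)]) (PF.cons PF.nil PF.nil))))))))) (PF.cons (PF.cons (PF.leaf (nat_lit 5421213) (nat_lit 1809356) (nat_lit 44711448) (nat_lit 14799392) [(nat_lit 0), (nat_lit 1809356), (nat_lit 3979259), (nat_lit 0)]) (PF.cons (PF.leaf (nat_lit 5778114) (nat_lit 621263) (nat_lit 44117128) (nat_lit 14713810)
 [(nat_lit 621263), (nat_lit 1830735), (nat_lit 3995140), (nat_lit 0)]) (PF.cons (PF.leaf (nat_lit 6148768) (nat_lit 635770) (nat_lit 43507262) (nat_lit 14622183) [(nat_lit 635770), (nat_lit 1849808), (nat_lit 4008210), (nat_lit 0)]) (PF.cons (PF.leaf (nat_lit 6530235) (nat_lit 648547) (nat_lit 42886547) (nat_lit 14525042) [(nat_lit 648547), (nat_lit 1866598), (nat_lit 4018382), (nat_lit 0)]) (PF.cons (PF.leaf (nat_lit 6920310) (nat_lit 659800) (nat_lit 42258727) (nat_lit 14422877) [(nat_lit 659800), (nat_lit 1881175), (nat_lit 4025655), (nat_lit 0)])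 (PF.cons (PF.leaf (nat_lit 7317129) (nat_lit 669689) (nat_lit 41626863) (nat_lit 14316153) [(nat_lit 669689), (nat_lit 1893632), (nat_lit 4030084), (nat_lit 0)]) (PF.cons PF.nil PF.nil))))))) (PF.cons (PF.cons (PF.leaf (nat_lit 6225025) (nat_lit 1853275) (nat_lit 43002694) (nat_lit 14538359) [(nat_lit 0), (nat_lit 1853275), (nat_lit 4007930), (nat_lit 0)]) (PF.cons (PF.leaf (nat_lit 6597492) (nat_lit 648193) (nat_lit 42397692) (nat_lit 14440769) [(nat_lit 648193), (nat_lit 1868712), (nat_lit 4016019), (nat_lit 0)]) (PF.cons (PF.leaf (nat_lit 6979594) (nat_lit 659258) (nat_lit 41784404) (nat_lit 14338172) [(nat_lit 659258), (nat_lit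
 1882096), (nat_lit 4021428), (nat_lit 0)]) (PF.cons (PF.leaf (nat_lit 7369062) (nat_lit 668943) (nat_lit 41166229) (nat_lit 14231080) [(nat_lit 668943), (nat_lit 1893494), (nat_lit 4024189), (nat_lit 0)]) (PF.cons (PF.leaf (nat_lit 7764178) (nat_lit 677394) (nat_lit 40545916) (nat_lit 14119966) [(nat_lit 677394), (nat_lit 1902992), (nat_lit 4024374), (nat_lit 0)]) PF.nil))))) (PF.cons (PF.cons (PF.leaf (nat_lit 7040278) (nat_lit 1882435) (nat_lit 41311205) (nat_lit 14251696) [(nat_lit 0), (nat_lit 1882435), (nat_lit 4016168), (nat_lit 0)]) (PF.cons (PF.leaf (nat_lit 7421703) (nat_lit 667834) (nat_lit 40707707) (nat_lit 14144577) [(nat_lit 667834), (nat_lit 1892830), (nat_lit 4017373), (nat_lit 0)]) (PF.cons (PF.leaf (nat_lit 7809601) (nat_lit 676132) (nat_lit 40101160) (nat_lit 14033473) [(nat_lit 676132), (nat_lit 1901436), (nat_lit 4016166), (nat_lit 0)]) (PF.cons PF.nil PF.nil)))) (PF.cons (PF.cons (PF.leaf (nat_lit 7856057) (nat_lit 1899429) (nat_lit 39658710) (nat_lit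 13945787) [(nat_lit 0), (nat_lit 1899429), (nat_lit 4007170), (nat_lit 0)]) (PF.cons (PF.leaf (nat_lit 8241403) (nat_lit 681609) (nat_lit 39065292) (nat_lit 13831509) [(nat_lit 681609), (nat_lit 1905582),
 (nat_lit 4002487), (nat_lit 0)]) PF.nil)) (PF.cons PF.nil (PF.cons PF.nil PF.nil)))))))) (PF.cons (PF.cons (PF.cons (PF.leaf (nat_lit 5193786) (nat_lit 3950682) (nat_lit 44464804) (nat_lit 14742644) [(nat_lit 0), (nat_lit 0), (nat_lit 3950682), (nat_lit 0)]) (PF.cons (PF.leaf (nat_lit 5527310) (nat_lit 599921) (nat_lit 43912571) (nat_lit 14662497) [(nat_lit 599921), (nat_lit 0), (nat_lit 3966911), (nat_lit 0)]) (PF.cons (PF.leaf (nat_lit 5878339) (nat_lit 616800) (nat_lit 43338063) (nat_lit 14575767) [(nat_lit 616800), (nat_lit 0), (nat_lit 3980690), (nat_lit 0)]) (PF.cons (PF.leaf (nat_lit 6243047) (nat_lit 631498) (nat_lit 42747574) (nat_lit 14483130) [(nat_lit 631498), (nat_lit 0), (nat_lit 3991806), (nat_lit 0)]) (PF.cons (PF.leaf (nat_lit 6618668) (nat_lit 644349)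 (nat_lit 42145904) (nat_lit 14385161) [(nat_lit 644349), (nat_lit 0), (nat_lit 4000174), (nat_lit 0)]) (PF.cons (PF.leaf (nat_lit 7002954) (nat_lit 655598) (nat_lit 41536856) (nat_lit 14282374) [(nat_lit 655598), (nat_lit 0), (nat_lit 4005793), (nat_lit 0)]) (PF.cons (PF.leaf (nat_lit 7394048) (nat_lit 665435) (nat_lit 40923517) (nat_lit 14175247) [(nat_lit 665435), (nat_lit 0), (nat_lit 4008717), (nat_lit 0)])
 (PF.cons PF.nil (PF.cons PF.nil PF.nil))))))))) (PF.cons (PF.cons (PF.leaf (nat_lit 5962705) (nat_lit 1828310) (nat_lit 42827351) (nat_lit 14490770) [(nat_lit 0), (nat_lit 1828310), (nat_lit 3981190), (nat_lit 0)]) (PF.cons (PF.leaf (nat_lit 6317156) (nat_lit 630884) (nat_lit 42254321) (nat_lit 14398087) [(nat_lit 630884), (nat_lit 1845220), (nat_lit 3990149), (nat_lit 0)]) (PF.cons (PF.leaf (nat_lit 6683947) (nat_lit 643644) (nat_lit 41668318) (nat_lit 14299969) [(nat_lit 643644), (nat_lit 1860035), (nat_lit 3996599), (nat_lit 0)]) (PF.cons (PF.leaf (nat_lit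 7060268) (nat_lit 654754) (nat_lit 41073713) (nat_lit 14197019) [(nat_lit 654754), (nat_lit 1872805), (nat_lit 4000505), (nat_lit 0)]) (PF.cons (PF.leaf (nat_lit 7444043) (nat_lit 664428) (nat_lit 40473933) (nat_lit 14089764) [(nat_lit 664428), (nat_lit 1883610), (nat_lit 4001896), (nat_lit 0)]) (PF.cons (PF.leaf (nat_lit 7833527) (nat_lit 672830) (nat_lit 39871742) (nat_lit 13978684) [(nat_lit 672830), (nat_lit 1892546), (nat_lit 4000843), (nat_lit 0)]) (PF.cons PF.nil PF.nil))))))) (PF.cons (PF.cons (PF.leaf (nat_lit 6751527) (nat_lit 1860864) (nat_lit 41190464) (nat_lit 14212726) [(nat_lit 0), (nat_lit 1860864), (nat_lit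
 3991946), (nat_lit 0)]) (PF.cons (PF.leaf (nat_lit 7118948) (nat_lit 653478) (nat_lit 40611662) (nat_lit 14110018) [(nat_lit 653478), (nat_lit 1872571), (nat_lit 3994255), (nat_lit 0)]) (PF.cons (PF.leaf (nat_lit 7494889) (nat_lit 663061) (nat_lit 40026405) (nat_lit 14002965) [(nat_lit 663061), (nat_lit 1882440), (nat_lit 3994219), (nat_lit 0)]) (PF.cons (PF.leaf (nat_lit 7877204) (nat_lit 671346) (nat_lit 39437798) (nat_lit 13892098) [(nat_lit 671346), (nat_lit 1890546), (nat_lit 3991892), (nat_lit 0)]) (PF.cons PF.nil PF.nil))))) (PF.cons (PF.cons (PF.leaf (nat_lit 7547409) (nat_lit 1880798) (nat_lit 39580232) (nat_lit 13914762) [(nat_lit 0), (nat_lit 1880798), (nat_lit 3985711), (nat_lit 0)]) (PF.cons (PF.leaf (nat_lit 7921871) (nat_lit 669539) (nat_lit 39006080) (nat_lit 13804416) [(nat_lit 669539), (nat_lit 1888121), (nat_lit 3982206), (nat_lit 0)]) (PF.cons (PF.leaf (nat_lit 8301958) (nat_lit 676595) (nat_lit 38430084) (nat_lit 13690720) [(nat_lit 676595), (nat_lit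 1893859), (nat_lit 3976619), (nat_lit 0)]) (PF.cons PF.nil PF.nil)))) (PF.cons (PF.cons (PF.leaf (nat_lit 8340900) (nat_lit 1890373) (nat_lit 38014175) (nat_lit 13602640) [(nat_lit 0), (nat_lit 1890373), (nat_lit
 3965252), (nat_lit 0)]) (PF.cons PF.nil PF.nil)) (PF.cons PF.nil PF.nil)))))) (PF.cons (PF.cons (PF.cons (PF.leaf (nat_lit 6481970) (nat_lit 3966803) (nat_lit 41039868) (nat_lit 14168534) [(nat_lit 0), (nat_lit 0), (nat_lit 3966803), (nat_lit 0)]) (PF.cons (PF.leaf (nat_lit 6832744) (nat_lit 637032) (nat_lit 40490341) (nat_lit 14070912) [(nat_lit 637032), (nat_lit 0), (nat_lit 3970175), (nat_lit 0)]) (PF.cons (PF.leaf (nat_lit 7194690) (nat_lit 648285) (nat_lit 39929914) (nat_lit 13968427) [(nat_lit 648285), (nat_lit 0), (nat_lit 3971299), (nat_lit 0)]) (PF.cons (PF.leaf (nat_lit 7565086) (nat_lit 657966) (nat_lit 39362640) (nat_lit 13861721) [(nat_lit 657966), (nat_lit 0), (nat_lit 3970183), (nat_lit 0)]) (PF.cons (PF.leaf (nat_lit 7941961) (nat_lit 666292)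 (nat_lit 38791660) (nat_lit 13751341) [(nat_lit 666292), (nat_lit 0), (nat_lit 3966880), (nat_lit 0)]) (PF.cons PF.nil (PF.cons PF.nil PF.nil))))))) (PF.cons (PF.cons (PF.leaf (nat_lit 7254291) (nat_lit 1860753) (nat_lit 39478807) (nat_lit 13879394) [(nat_lit 0), (nat_lit 1860753), (nat_lit 3963285), (nat_lit 0)]) (PF.cons (PF.leaf (nat_lit 7615945) (nat_lit 655962) (nat_lit 38927113) (nat_lit 13773474) [(nat_lit 655962),
 (nat_lit 1869374), (nat_lit 3960962), (nat_lit 0)]) (PF.cons (PF.leaf (nat_lit 7985181) (nat_lit 664276) (nat_lit 38370380) (nat_lit 13663790) [(nat_lit 664276), (nat_lit 1876343), (nat_lit 3956581), (nat_lit 0)]) (PF.cons (PF.leaf (nat_lit 8359962) (nat_lit 671369) (nat_lit 37811447) (nat_lit 13550877) [(nat_lit 671369), (nat_lit 1881742), (nat_lit 3950212), (nat_lit 0)]) (PF.cons PF.nil PF.nil))))) (PF.cons (PF.cons (PF.leaf (nat_lit 8030294) (nat_lit 1873154) (nat_lit 37950547) (nat_lit 13575122) [(nat_lit 0), (nat_lit 1873154), (nat_lit 3945611),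 (nat_lit 0)]) (PF.cons (PF.leaf (nat_lit 8397447) (nat_lit 669015) (nat_lit 37405647) (nat_lit 13463151) [(nat_lit 669015), (nat_lit 1877948), (nat_lit 3938366), (nat_lit 0)]) (PF.cons PF.nil (PF.cons PF.nil PF.nil)))) (PF.cons (PF.cons (PF.leaf (nat_lit 8801729) (nat_lit 1876704) (nat_lit 36469285) (nat_lit 13260845) [(nat_lit 0), (nat_lit 1876704), (nat_lit 3916189), (nat_lit 0)]) (PF.cons PF.nil PF.nil)) (PF.cons PF.nil PF.nil))))) (PF.cons (PF.cons (PF.cons (PF.leaf (nat_lit 7734366) (nat_lit 3924937) (nat_lit 37865762) (nat_lit 13543300) [(nat_lit 0), (nat_lit 0), (nat_lit 3924937), (nat_lit 0)]) (PF.cons (PF.leaf (nat_lit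
 8089749) (nat_lit 656188) (nat_lit 37341280) (nat_lit 13435689) [(nat_lit 656188), (nat_lit 0), (nat_lit 3918913), (nat_lit 0)]) (PF.cons (PF.leaf (nat_lit 8451944) (nat_lit 663413) (nat_lit 36812854) (nat_lit 13324816) [(nat_lit 663413), (nat_lit 0), (nat_lit 3911078), (nat_lit 0)]) (PF.cons (PF.leaf (nat_lit 8819006) (nat_lit 669487) (nat_lit 36283084) (nat_lit 13211215) [(nat_lit 669487), (nat_lit 0), (nat_lit 3901512), (nat_lit 0)]) (PF.cons PF.nil PF.nil))))) (PF.cons (PF.cons (PF.leaf (nat_lit 8490371) (nat_lit 1860805) (nat_lit 36418308) (nat_lit 13236641) [(nat_lit 0), (nat_lit 1860805), (nat_lit 3898264), (nat_lit 0)]) (PF.cons (PF.leaf (nat_lit 8850041) (nat_lit 666710) (nat_lit 35902024) (nat_lit 13124296) [(nat_lit 666710), (nat_lit 1863517), (nat_lit 3888066), (nat_lit 0)]) (PF.cons PF.nil (PF.cons PF.nil PF.nil)))) (PF.cons (PF.cons (PF.leaf (nat_lit 9240225) (nat_lit 1859468) (nat_lit 35018990) (nat_lit 12923329) [(nat_lit 0), (nat_lit 1859468), (nat_lit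 3861889), (nat_lit 0)]) (PF.cons PF.nil PF.nil)) PF.nil))) (PF.cons (PF.cons (PF.cons (PF.leaf (nat_lit 8929110) (nat_lit 3845566) (nat_lit 34978776) (nat_lit 12902206) [(nat_lit 0), (nat_lit 0), (nat_lit 3845566),
 (nat_lit 0)]) (PF.cons (PF.leaf (nat_lit 9281214) (nat_lit 662983) (nat_lit 34490115) (nat_lit 12790452) [(nat_lit 662983), (nat_lit 0), (nat_lit 3833052), (nat_lit 0)]) PF.nil)) (PF.cons PF.nil PF.nil)) (PF.cons PF.nil (PF.cons PF.nil PF.nil)))))))) (PF.cons (PF.cons (PF.cons (PF.cons (PF.leaf (nat_lit 4685821) (nat_lit 8615400) (nat_lit 43926884) (nat_lit 14566527) [(nat_lit 0), (nat_lit 0), (nat_lit 0), (nat_lit 8615400)]) (PF.cons (PF.leaf (nat_lit 4977414) (nat_lit 544794) (nat_lit 43460345) (nat_lit 14500094) [(nat_lit 544794), (nat_lit 0), (nat_lit 0), (nat_lit 8603578)]) (PF.cons (PF.leaf (nat_lit 5293442) (nat_lit 567457) (nat_lit 42959658) (nat_lit 14426158) [(nat_lit 567457), (nat_lit 0), (nat_lit 0), (nat_lit 8588079)]) (PF.cons (PF.leaf (nat_lit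 5628432) (nat_lit 586910) (nat_lit 42433671) (nat_lit 14345606) [(nat_lit 586910), (nat_lit 0), (nat_lit 0), (nat_lit 8568802)]) (PF.cons (PF.leaf (nat_lit 5978630) (nat_lit 603776) (nat_lit 41888856) (nat_lit 14259123) [(nat_lit 603776), (nat_lit 0), (nat_lit 0), (nat_lit 8545727)]) (PF.cons (PF.leaf (nat_lit 6341096) (nat_lit 618482) (nat_lit 41330210) (nat_lit 14167283) [(nat_lit 618482), (nat_lit 0), (nat_lit 0), (nat_lit
 8518905)]) (PF.cons (PF.leaf (nat_lit 6713439) (nat_lit 631342) (nat_lit 40761722) (nat_lit 14070595) [(nat_lit 631342), (nat_lit 0), (nat_lit 0), (nat_lit 8488437)]) (PF.cons (PF.leaf (nat_lit 7093688) (nat_lit 642595) (nat_lit 40186652) (nat_lit 13969530) [(nat_lit 642595), (nat_lit 0), (nat_lit 0), (nat_lit 8454463)]) (PF.cons (PF.leaf (nat_lit 7480134) (nat_lit 652428) (nat_lit 39607703) (nat_lit 13864525) [(nat_lit 652428), (nat_lit 0), (nat_lit 0), (nat_lit 8417152)]) (PF.cons PF.nil PF.nil)))))))))) (PF.cons (PF.cons (PF.leaf (nat_lit 5392170)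 (nat_lit 1746391) (nat_lit 42455762) (nat_lit 14344023) [(nat_lit 0), (nat_lit 1746391), (nat_lit 0), (nat_lit 8562634)]) (PF.cons (PF.leaf (nat_lit 5715198) (nat_lit 586923) (nat_lit 41947777) (nat_lit 14263667) [(nat_lit 586923), (nat_lit 1768904), (nat_lit 0), (nat_lit 8541539)]) (PF.cons (PF.leaf (nat_lit 6055455) (nat_lit 603702) (nat_lit 41418539) (nat_lit 14177133) [(nat_lit 603702), (nat_lit 1789004), (nat_lit 0), (nat_lit 8516730)]) (PF.cons (PF.leaf (nat_lit 6409176) (nat_lit 618251) (nat_lit 40873928) (nat_lit 14085137) [(nat_lit 618251), (nat_lit 1806709), (nat_lit 0), (nat_lit 8488283)]) (PF.cons (PF.leaf (nat_lit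
 6773630) (nat_lit 630919) (nat_lit 40318439) (nat_lit 13988271) [(nat_lit 630919), (nat_lit 1822104), (nat_lit 0), (nat_lit 8456317)]) (PF.cons (PF.leaf (nat_lit 7146632) (nat_lit 641967) (nat_lit 39755632) (nat_lit 13887056) [(nat_lit 641967), (nat_lit 1835307), (nat_lit 0), (nat_lit 8420980)]) (PF.cons (PF.leaf (nat_lit 7526340) (nat_lit 651593) (nat_lit 39188401) (nat_lit 13781961) [(nat_lit 651593), (nat_lit 1846444), (nat_lit 0), (nat_lit 8382443)]) (PF.cons (PF.leaf (nat_lit 7911213) (nat_lit 659960) (nat_lit 38619128) (nat_lit 13673419) [(nat_lit 659960), (nat_lit 1855649), (nat_lit 0), (nat_lit 8340895)]) (PF.cons PF.nil PF.nil))))))))) (PF.cons (PF.cons (PF.leaf (nat_lit 6135630) (nat_lit 1792467) (nat_lit 40945481) (nat_lit 14092633) [(nat_lit 0), (nat_lit 1792467), (nat_lit 0), (nat_lit 8485762)]) (PF.cons (PF.leaf (nat_lit 6479305) (nat_lit 617453) (nat_lit 40416884) (nat_lit 14000982) [(nat_lit 617453), (nat_lit 1808760), (nat_lit 0), (nat_lit 8455970)])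 (PF.cons (PF.leaf (nat_lit 6835146) (nat_lit 630037) (nat_lit 39875767) (nat_lit 13904331) [(nat_lit 630037), (nat_lit 1822948), (nat_lit 0), (nat_lit 8422741)]) (PF.cons (PF.leaf (nat_lit 7200402) (nat_lit 640958)
 (nat_lit 39326207) (nat_lit 13803283) [(nat_lit 640958), (nat_lit 1835101), (nat_lit 0), (nat_lit 8386243)]) (PF.cons (PF.leaf (nat_lit 7573019) (nat_lit 650438) (nat_lit 38771406) (nat_lit 13698360) [(nat_lit 650438), (nat_lit 1845318), (nat_lit 0), (nat_lit 8346656)]) (PF.cons (PF.leaf (nat_lit 7951312) (nat_lit 658650) (nat_lit 38213943) (nat_lit 13590027) [(nat_lit 658650), (nat_lit 1853709), (nat_lit 0), (nat_lit 8304172)]) (PF.cons PF.nil PF.nil))))))) (PF.cons (PF.cons (PF.leaf (nat_lit 6899046) (nat_lit 1823243) (nat_lit 39432773) (nat_lit 13818630) [(nat_lit 0), (nat_lit 1823243), (nat_lit 0), (nat_lit 8387679)]) (PF.cons (PF.leaf (nat_lit 7255631) (nat_lit 639539) (nat_lit 38897710) (nat_lit 13718122) [(nat_lit 639539), (nat_lit 1834399), (nat_lit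 0), (nat_lit 8350241)]) (PF.cons (PF.leaf (nat_lit 7620662) (nat_lit 648943) (nat_lit 38356223) (nat_lit 13613669) [(nat_lit 648943), (nat_lit 1843747), (nat_lit 0), (nat_lit 8309792)]) (PF.cons (PF.leaf (nat_lit 7992027) (nat_lit 657054) (nat_lit 37811204) (nat_lit 13505788) [(nat_lit 657054), (nat_lit 1851373), (nat_lit 0), (nat_lit 8266535)]) (PF.cons (PF.leaf (nat_lit 8368167) (nat_lit 664026) (nat_lit 37264968) (nat_lit
 13394935) [(nat_lit 664026), (nat_lit 1857375), (nat_lit 0), (nat_lit 8220673)]) PF.nil))))) (PF.cons (PF.cons (PF.leaf (nat_lit 7670072) (nat_lit 1841749) (nat_lit 37942192) (nat_lit 13527788) [(nat_lit 0), (nat_lit 1841749), (nat_lit 0), (nat_lit 8271831)]) (PF.cons (PF.leaf (nat_lit 8033830) (nat_lit 655155) (nat_lit 37410421) (nat_lit 13420639) [(nat_lit 655155), (nat_lit 1848654), (nat_lit 0), (nat_lit 8227976)]) (PF.cons (PF.leaf (nat_lit 8403226) (nat_lit 662064) (nat_lit 36876529) (nat_lit 13310480) [(nat_lit 662064), (nat_lit 1854021), (nat_lit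 0), (nat_lit 8181585)]) (PF.cons PF.nil PF.nil)))) (PF.cons (PF.cons (PF.leaf (nat_lit 8439671) (nat_lit 1850340) (nat_lit 36490129) (nat_lit 13225273) [(nat_lit 0), (nat_lit 1850340), (nat_lit 0), (nat_lit 8141709)]) (PF.cons (PF.leaf (nat_lit 8806305) (nat_lit 665676) (nat_lit 35968354) (nat_lit 13113446) [(nat_lit 665676), (nat_lit 1853732), (nat_lit 0), (nat_lit 8092674)]) PF.nil)) (PF.cons PF.nil (PF.cons PF.nil PF.nil)))))))) (PF.cons (PF.cons (PF.cons (PF.leaf (nat_lit 5901420) (nat_lit 3875965) (nat_lit 40742473) (nat_lit 14039483) [(nat_lit 0), (nat_lit 0), (nat_lit 3875965), (nat_lit 8450890)]) (PF.cons (PF.leaf (nat_lit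
 6223744) (nat_lit 596749) (nat_lit 40250569) (nat_lit 13953892) [(nat_lit 596749), (nat_lit 0), (nat_lit 3884238), (nat_lit 8423363)]) (PF.cons (PF.leaf (nat_lit 6561915) (nat_lit 611783) (nat_lit 39740054) (nat_lit 13862551) [(nat_lit 611783), (nat_lit 0), (nat_lit 3890308), (nat_lit 8392330)]) (PF.cons (PF.leaf (nat_lit 6912251) (nat_lit 624675) (nat_lit 39216479) (nat_lit 13766256) [(nat_lit 624675), (nat_lit 0), (nat_lit 3894079), (nat_lit 8357971)]) (PF.cons (PF.leaf (nat_lit 7272143) (nat_lit 635783) (nat_lit 38684019) (nat_lit 13665647) [(nat_lit 635783), (nat_lit 0), (nat_lit 3895542), (nat_lit 8320469)]) (PF.cons (PF.leaf (nat_lit 7639514) (nat_lit 645369) (nat_lit 38145938) (nat_lit 13561266) [(nat_lit 645369), (nat_lit 0), (nat_lit 3894742), (nat_lit 8280015)]) (PF.cons (PF.leaf (nat_lit 8012661) (nat_lit 653634) (nat_lit 37604852) (nat_lit 13453590) [(nat_lit 653634), (nat_lit 0), (nat_lit 3891756), (nat_lit 8236804)]) (PF.cons PF.nil (PF.cons PF.nil PF.nil)))))))))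 (PF.cons (PF.cons (PF.leaf (nat_lit 6634293) (nat_lit 1799629) (nat_lit 39291071) (nat_lit 13775705) [(nat_lit 0), (nat_lit 1799629), (nat_lit 3885286), (nat_lit 8357120)]) (PF.cons (PF.leaf (nat_lit
 6974661) (nat_lit 622981) (nat_lit 38783572) (nat_lit 13680319) [(nat_lit 622981), (nat_lit 1812407), (nat_lit 3887569), (nat_lit 8321962)]) (PF.cons (PF.leaf (nat_lit 7326064) (nat_lit 634109) (nat_lit 38265464) (nat_lit 13580435) [(nat_lit 634109), (nat_lit 1823280), (nat_lit 3887717), (nat_lit 8283696)]) (PF.cons (PF.leaf (nat_lit 7685852) (nat_lit 643659) (nat_lit 37740530) (nat_lit 13476688) [(nat_lit 643659), (nat_lit 1832330), (nat_lit 3885750), (nat_lit 8242535)]) (PF.cons (PF.leaf (nat_lit 8052099) (nat_lit 651856) (nat_lit 37211701) (nat_lit 13369608) [(nat_lit 651856), (nat_lit 1839660), (nat_lit 3881728), (nat_lit 8198688)]) (PF.cons (PF.leaf (nat_lit 8423223) (nat_lit 658872) (nat_lit 36681315) (nat_lit 13259659) [(nat_lit 658872), (nat_lit 1845376), (nat_lit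 3875737), (nat_lit 8152362)]) (PF.cons PF.nil PF.nil))))))) (PF.cons (PF.cons (PF.leaf (nat_lit 7382586) (nat_lit 1821698) (nat_lit 37846857) (nat_lit 13493760) [(nat_lit 0), (nat_lit 1821698), (nat_lit 3879109), (nat_lit 8245689)]) (PF.cons (PF.leaf (nat_lit 7733876) (nat_lit 641577) (nat_lit 37336198) (nat_lit 13390992) [(nat_lit 641577), (nat_lit 1829974), (nat_lit 3876069), (nat_lit 8204025)]) (PF.cons
 (PF.leaf (nat_lit 8092728) (nat_lit 649773) (nat_lit 36820416) (nat_lit 13284781) [(nat_lit 649773), (nat_lit 1836629), (nat_lit 3871096), (nat_lit 8159713)]) (PF.cons (PF.leaf (nat_lit 8457139) (nat_lit 656755) (nat_lit 36302160) (nat_lit 13175646) [(nat_lit 656755), (nat_lit 1841751), (nat_lit 3864261), (nat_lit 8112974)]) (PF.cons PF.nil PF.nil))))) (PF.cons (PF.cons (PF.leaf (nat_lit 8135329) (nat_lit 1833249) (nat_lit 36430349) (nat_lit 13199000) [(nat_lit 0), (nat_lit 1833249), (nat_lit 3859869), (nat_lit 8119846)]) (PF.cons (PF.leaf (nat_lit 8492346) (nat_lit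 654363) (nat_lit 35924946) (nat_lit 13090934) [(nat_lit 654363), (nat_lit 1837816), (nat_lit 3852266), (nat_lit 8072853)]) (PF.cons (PF.leaf (nat_lit 8854337) (nat_lit 660277) (nat_lit 35418238) (nat_lit 12980319) [(nat_lit 660277), (nat_lit 1841013), (nat_lit 3842979), (nat_lit 8023680)]) (PF.cons PF.nil PF.nil)))) (PF.cons (PF.cons (PF.leaf (nat_lit 8884599) (nat_lit 1836320) (nat_lit 35054923) (nat_lit 12896032) [(nat_lit 0), (nat_lit 1836320), (nat_lit 3829860), (nat_lit 7982715)]) (PF.cons PF.nil PF.nil)) (PF.cons PF.nil PF.nil)))))) (PF.cons (PF.cons (PF.cons (PF.leaf (nat_lit 7113026) (nat_lit 3855862) (nat_lit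
 37725345) (nat_lit 13454499) [(nat_lit 0), (nat_lit 0), (nat_lit 3855862), (nat_lit 8217243)]) (PF.cons (PF.leaf (nat_lit 7449274) (nat_lit 625923) (nat_lit 37239873) (nat_lit 13356823) [(nat_lit 625923), (nat_lit 0), (nat_lit 3854095), (nat_lit 8178000)]) (PF.cons (PF.leaf (nat_lit 7795604) (nat_lit 635793) (nat_lit 36745344) (nat_lit 13255108) [(nat_lit 635793), (nat_lit 0), (nat_lit 3850411), (nat_lit 8135949)]) (PF.cons (PF.leaf (nat_lit 8149455) (nat_lit 644164) (nat_lit 36245264) (nat_lit 13150001) [(nat_lit 644164), (nat_lit 0), (nat_lit 3844858), (nat_lit 8091336)]) (PF.cons (PF.leaf (nat_lit 8508998) (nat_lit 651262) (nat_lit 35742323) (nat_lit 13042032) [(nat_lit 651262), (nat_lit 0), (nat_lit 3837507), (nat_lit 8044390)]) (PF.cons PF.nil (PF.cons PF.nil PF.nil))))))) (PF.cons (PF.cons (PF.leaf (nat_lit 7845380) (nat_lit 1814708) (nat_lit 36350525) (nat_lit 13168466) [(nat_lit 0), (nat_lit 1814708), (nat_lit 3839577), (nat_lit 8095956)]) (PF.cons (PF.leaf (nat_lit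 8190930) (nat_lit 641563) (nat_lit 35864322) (nat_lit 13064674) [(nat_lit 641563), (nat_lit 1820596), (nat_lit 3833233), (nat_lit 8051188)]) (PF.cons (PF.leaf (nat_lit 8543293) (nat_lit 648720) (nat_lit
 35374012) (nat_lit 12957878) [(nat_lit 648720), (nat_lit 1825022), (nat_lit 3825183), (nat_lit 8004091)]) (PF.cons (PF.leaf (nat_lit 8900554) (nat_lit 654735) (nat_lit 34882028) (nat_lit 12848588) [(nat_lit 654735), (nat_lit 1828080), (nat_lit 3815506), (nat_lit 7954895)]) (PF.cons PF.nil PF.nil))))) (PF.cons (PF.cons (PF.leaf (nat_lit 8579728) (nat_lit 1820569) (nat_lit 35006913) (nat_lit 12872953) [(nat_lit 0), (nat_lit 1820569), (nat_lit 3812371), (nat_lit 7963062)]) (PF.cons (PF.leaf (nat_lit 8929833) (nat_lit 651961) (nat_lit 34527283) (nat_lit 12764985) [(nat_lit 651961), (nat_lit 1823205), (nat_lit 3802144), (nat_lit 7913884)]) (PF.cons PF.nil (PF.cons PF.nil PF.nil)))) (PF.cons (PF.cons (PF.leaf (nat_lit 9309064) (nat_lit 1819149) (nat_lit 33705496) (nat_lit 12572043)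 [(nat_lit 0), (nat_lit 1819149), (nat_lit 3776238), (nat_lit 7821345)]) (PF.cons PF.nil PF.nil)) (PF.cons PF.nil PF.nil))))) (PF.cons (PF.cons (PF.cons (PF.leaf (nat_lit 8288463) (nat_lit 3793769) (nat_lit 34940426) (nat_lit 12845723) [(nat_lit 0), (nat_lit 0), (nat_lit 3793769), (nat_lit 7941354)]) (PF.cons (PF.leaf (nat_lit 8627969) (nat_lit 639893) (nat_lit 34478271) (nat_lit 12741884) [(nat_lit 639893),
 (nat_lit 0), (nat_lit 3784790), (nat_lit 7894392)]) (PF.cons (PF.leaf (nat_lit 8973667) (nat_lit 646154) (nat_lit 34012806) (nat_lit 12635417) [(nat_lit 646154), (nat_lit 0), (nat_lit 3774300), (nat_lit 7845377)]) (PF.cons PF.nil PF.nil)))) (PF.cons (PF.cons (PF.leaf (nat_lit 9004532) (nat_lit 1804632) (nat_lit 33667514) (nat_lit 12551912) [(nat_lit 0), (nat_lit 1804632), (nat_lit 3760329), (nat_lit 7803766)]) (PF.cons (PF.leaf (nat_lit 9347661) (nat_lit 648272) (nat_lit 33212768) (nat_lit 12444823) [(nat_lit 648272), (nat_lit 1805672), (nat_lit 3748037), (nat_lit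 7753163)]) PF.nil)) (PF.cons PF.nil PF.nil))) (PF.cons (PF.cons (PF.cons (PF.leaf (nat_lit 9411000) (nat_lit 3705031) (nat_lit 32407433) (nat_lit 12237527) [(nat_lit 0), (nat_lit 0), (nat_lit 3705031), (nat_lit 7643724)]) (PF.cons PF.nil PF.nil)) (PF.cons PF.nil PF.nil)) (PF.cons PF.nil PF.nil)))))) (PF.cons (PF.cons (PF.cons (PF.cons (PF.leaf (nat_lit 6538525) (nat_lit 8126527) (nat_lit 37507204) (nat_lit 13348553) [(nat_lit 0), (nat_lit 0), (nat_lit 0), (nat_lit 8126527)]) (PF.cons (PF.leaf (nat_lit 6849539) (nat_lit 588930) (nat_lit 37069876) (nat_lit 13262196) [(nat_lit 588930), (nat_lit 0), (nat_lit 0), (nat_lit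
 8093905)]) (PF.cons (PF.leaf (nat_lit 7175078) (nat_lit 602481) (nat_lit 36616718) (nat_lit 13170780) [(nat_lit 602481), (nat_lit 0), (nat_lit 0), (nat_lit 8058176)]) (PF.cons (PF.leaf (nat_lit 7511589) (nat_lit 613947) (nat_lit 36152609) (nat_lit 13075141) [(nat_lit 613947), (nat_lit 0), (nat_lit 0), (nat_lit 8019609)]) (PF.cons (PF.leaf (nat_lit 7856641) (nat_lit 623702) (nat_lit 35681185) (nat_lit 12975936) [(nat_lit 623702), (nat_lit 0), (nat_lit 0), (nat_lit 7978440)]) (PF.cons (PF.leaf (nat_lit 8208282) (nat_lit 632015) (nat_lit 35205261) (nat_lit 12873700) [(nat_lit 632015), (nat_lit 0), (nat_lit 0), (nat_lit 7934886)]) (PF.cons (PF.leaf (nat_lit 8564941) (nat_lit 639091) (nat_lit 34727070) (nat_lit 12768891) [(nat_lit 639091), (nat_lit 0), (nat_lit 0), (nat_lit 7889150)]) (PF.cons PF.nil (PF.cons PF.nil PF.nil))))))))) (PF.cons (PF.cons (PF.leaf (nat_lit 7237701) (nat_lit 1760748) (nat_lit 36221859) (nat_lit 13085654) [(nat_lit 0), (nat_lit 1760748), (nat_lit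 0), (nat_lit 8020275)]) (PF.cons (PF.leaf (nat_lit 7564608) (nat_lit 611540) (nat_lit 35772257) (nat_lit 12991459) [(nat_lit 611540), (nat_lit 1770536), (nat_lit 0), (nat_lit 7981509)]) (PF.cons (PF.leaf (nat_lit
 7901539) (nat_lit 621396) (nat_lit 35313731) (nat_lit 12893467) [(nat_lit 621396), (nat_lit 1778584), (nat_lit 0), (nat_lit 7940118)]) (PF.cons (PF.leaf (nat_lit 8245985) (nat_lit 629747) (nat_lit 34849562) (nat_lit 12792307) [(nat_lit 629747), (nat_lit 1784996), (nat_lit 0), (nat_lit 7896351)]) (PF.cons (PF.leaf (nat_lit 8596156) (nat_lit 636823) (nat_lit 34382278) (nat_lit 12688494) [(nat_lit 636823), (nat_lit 1789885), (nat_lit 0), (nat_lit 7850430)]) (PF.cons PF.nil (PF.cons PF.nil PF.nil))))))) (PF.cons (PF.cons (PF.leaf (nat_lit 7949260) (nat_lit 1775455) (nat_lit 34946232) (nat_lit 12809909) [(nat_lit 0), (nat_lit 1775455), (nat_lit 0), (nat_lit 7900879)]) (PF.cons (PF.leaf (nat_lit 8285614) (nat_lit 627151) (nat_lit 34494780) (nat_lit 12710125) [(nat_lit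 627151), (nat_lit 1781302), (nat_lit 0), (nat_lit 7857074)]) (PF.cons (PF.leaf (nat_lit 8628808) (nat_lit 634290) (nat_lit 34039068) (nat_lit 12607537) [(nat_lit 634290), (nat_lit 1785703), (nat_lit 0), (nat_lit 7811109)]) (PF.cons (PF.leaf (nat_lit 8976954) (nat_lit 640290) (nat_lit 33581375) (nat_lit 12502637) [(nat_lit 640290), (nat_lit 1788755), (nat_lit 0), (nat_lit 7763207)]) (PF.cons PF.nil PF.nil))))) (PF.cons
 (PF.cons (PF.leaf (nat_lit 8663644) (nat_lit 1781257) (nat_lit 33696853) (nat_lit 12525903) [(nat_lit 0), (nat_lit 1781257), (nat_lit 0), (nat_lit 7771141)]) (PF.cons (PF.leaf (nat_lit 9004824) (nat_lit 637543) (nat_lit 33250487) (nat_lit 12422352) [(nat_lit 637543), (nat_lit 1783915), (nat_lit 0), (nat_lit 7723341)]) (PF.cons PF.nil (PF.cons PF.nil PF.nil)))) (PF.cons (PF.cons (PF.leaf (nat_lit 9374054) (nat_lit 1779986) (nat_lit 32484270) (nat_lit 12237381) [(nat_lit 0), (nat_lit 1779986), (nat_lit 0), (nat_lit 7633606)]) (PF.cons PF.nil PF.nil)) (PF.cons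 PF.nil PF.nil)))))) (PF.cons (PF.cons (PF.cons (PF.leaf (nat_lit 7681995) (nat_lit 3734807) (nat_lit 34847780) (nat_lit 12775481) [(nat_lit 0), (nat_lit 0), (nat_lit 3734807), (nat_lit 7875371)]) (PF.cons (PF.leaf (nat_lit 8004632) (nat_lit 612321) (nat_lit 34418053) (nat_lit 12680593) [(nat_lit 612321), (nat_lit 0), (nat_lit 3729737), (nat_lit 7834053)]) (PF.cons (PF.leaf (nat_lit 8336507) (nat_lit 621109) (nat_lit 33980598) (nat_lit 12582278) [(nat_lit 621109), (nat_lit 0), (nat_lit 3723007), (nat_lit 7790354)]) (PF.cons (PF.leaf (nat_lit 8675187) (nat_lit 628472) (nat_lit 33538461) (nat_lit 12481164) [(nat_lit 628472),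
 (nat_lit 0), (nat_lit 3714689), (nat_lit 7744540)]) (PF.cons (PF.leaf (nat_lit 9018966) (nat_lit 634635) (nat_lit 33093964) (nat_lit 12377754) [(nat_lit 634635), (nat_lit 0), (nat_lit 3704866), (nat_lit 7696842)]) PF.nil))))) (PF.cons (PF.cons (PF.leaf (nat_lit 8378474) (nat_lit 1764175) (nat_lit 33633862) (nat_lit 12499759) [(nat_lit 0), (nat_lit 1764175), (nat_lit 3710628), (nat_lit 7750193)]) (PF.cons (PF.leaf (nat_lit 8709273) (nat_lit 625502) (nat_lit 33203988) (nat_lit 12400225) [(nat_lit 625502), (nat_lit 1768136), (nat_lit 3701804), (nat_lit 7704577)]) (PF.cons (PF.leaf (nat_lit 9046295) (nat_lit 631775) (nat_lit 32770613) (nat_lit 12298225) [(nat_lit 631775), (nat_lit 1770791), (nat_lit 3691536), (nat_lit 7657047)]) (PF.cons PF.nil PF.nil)))) (PF.cons (PF.cons (PF.leaf (nat_lit 9075937) (nat_lit 1765594) (nat_lit 32448210) (nat_lit 12218138) [(nat_lit 0), (nat_lit 1765594), (nat_lit 3677844), (nat_lit 7616714)]) (PF.cons (PF.leaf (nat_lit 9410641) (nat_lit 633960)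 (nat_lit 32024263) (nat_lit 12115646) [(nat_lit 633960), (nat_lit 1766747), (nat_lit 3665888), (nat_lit 7567779)]) PF.nil)) (PF.cons PF.nil (PF.cons PF.nil PF.nil))))) (PF.cons (PF.cons (PF.cons (PF.leaf
 (nat_lit 8790464) (nat_lit 3661161) (nat_lit 32395956) (nat_lit 12194965) [(nat_lit 0), (nat_lit 0), (nat_lit 3661161), (nat_lit 7597784)]) (PF.cons (PF.leaf (nat_lit 9115523) (nat_lit 622617) (nat_lit 31987052) (nat_lit 12096313) [(nat_lit 622617), (nat_lit 0), (nat_lit 3650432), (nat_lit 7550981)]) (PF.cons (PF.leaf (nat_lit 9446294) (nat_lit 628140) (nat_lit 31575251) (nat_lit 11995484) [(nat_lit 628140), (nat_lit 0), (nat_lit 3638418), (nat_lit 7502478)]) (PF.cons PF.nil PF.nil)))) (PF.cons (PF.cons (PF.leaf (nat_lit 9471237) (nat_lit 1747653) (nat_lit 31271548) (nat_lit 11917269) [(nat_lit 0), (nat_lit 1747653), (nat_lit 3624013), (nat_lit 7462156)]) (PF.cons PF.nil PF.nil)) (PF.cons PF.nil PF.nil))) (PF.cons (PF.cons (PF.cons (PF.leaf (nat_lit 9850615) (nat_lit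 3568285) (nat_lit 30162557) (nat_lit 11624206) [(nat_lit 0), (nat_lit 0), (nat_lit 3568285), (nat_lit 7308596)]) (PF.cons PF.nil PF.nil)) (PF.cons PF.nil PF.nil)) (PF.cons PF.nil PF.nil))))) (PF.cons (PF.cons (PF.cons (PF.cons (PF.leaf (nat_lit 8200334) (nat_lit 7543642) (nat_lit 32338124) (nat_lit 12139760) [(nat_lit 0), (nat_lit 0), (nat_lit 0), (nat_lit 7543642)]) (PF.cons (PF.leaf (nat_lit 8510323) (nat_lit
 597428) (nat_lit 31956433) (nat_lit 12049104) [(nat_lit 597428), (nat_lit 0), (nat_lit 0), (nat_lit 7501948)]) (PF.cons (PF.leaf (nat_lit 8828879) (nat_lit 605352) (nat_lit 31568013) (nat_lit 11955489) [(nat_lit 605352), (nat_lit 0), (nat_lit 0), (nat_lit 7458201)]) (PF.cons (PF.leaf (nat_lit 9153672) (nat_lit 611920) (nat_lit 31175528) (nat_lit 11859511) [(nat_lit 611920), (nat_lit 0), (nat_lit 0), (nat_lit 7412670)]) (PF.cons PF.nil PF.nil))))) (PF.cons (PF.cons (PF.leaf (nat_lit 8864566) (nat_lit 1711994) (nat_lit 31262148) (nat_lit 11877839) [(nat_lit 0),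 (nat_lit 1711994), (nat_lit 0), (nat_lit 7418943)]) (PF.cons (PF.leaf (nat_lit 9181870) (nat_lit 608734) (nat_lit 30880475) (nat_lit 11783551) [(nat_lit 608734), (nat_lit 1714579), (nat_lit 0), (nat_lit 7373824)]) (PF.cons (PF.leaf (nat_lit 9504925) (nat_lit 614315) (nat_lit 30495720) (nat_lit 11687187) [(nat_lit 614315), (nat_lit 1715985), (nat_lit 0), (nat_lit 7327095)]) (PF.cons PF.nil PF.nil)))) (PF.cons (PF.cons (PF.leaf (nat_lit 9529187) (nat_lit 1710381) (nat_lit 30211146) (nat_lit 11612307) [(nat_lit 0), (nat_lit 1710381), (nat_lit 0), (nat_lit 7288199)]) (PF.cons PF.nil PF.nil)) PF.nil))) (PF.cons (PF.cons (PF.cons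
 (PF.leaf (nat_lit 9250107) (nat_lit 3530971) (nat_lit 30170018) (nat_lit 11592637) [(nat_lit 0), (nat_lit 0), (nat_lit 3530971), (nat_lit 7271728)]) (PF.cons (PF.leaf (nat_lit 9561991) (nat_lit 605082) (nat_lit 29806533) (nat_lit 11499733) [(nat_lit 605082), (nat_lit 0), (nat_lit 3519270), (nat_lit 7226064)]) (PF.cons PF.nil PF.nil))) (PF.cons (PF.cons (PF.leaf (nat_lit 9899464) (nat_lit 1691446) (nat_lit 29171887) (nat_lit 11332154) [(nat_lit 0), (nat_lit 1691446), (nat_lit 3492059), (nat_lit 7140421)]) PF.nil) PF.nil)) (PF.cons PF.nil PF.nil))) (PF.cons (PF.cons (PF.cons (PF.cons (PF.leaf (nat_lit 9674776) (nat_lit 6965090) (nat_lit 28211193) (nat_lit 11037256) [(nat_lit 0), (nat_lit 0), (nat_lit 0), (nat_lit 6965090)]) (PF.cons (PF.leaf (nat_lit 9974618) (nat_lit 587722) (nat_lit 27886506) (nat_lit 10950187) [(nat_lit 587722), (nat_lit 0), (nat_lit 0), (nat_lit 6921099)]) (PF.cons PF.nil PF.nil))) (PF.cons (PF.cons (PF.leaf (nat_lit 10295971) (nat_lit 1636905) (nat_lit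 27320685) (nat_lit 10793905) [(nat_lit 0), (nat_lit 1636905), (nat_lit 0), (nat_lit 6839329)]) PF.nil) PF.nil)) (PF.cons PF.nil PF.nil)) (PF.cons PF.nil (PF.cons PF.nil (PF.cons PF.nil PF.nil))))))))

def p15_31_2_0 : pfC (piC [(nat_lit 35065580), (nat_lit 23751559), (nat_lit 17719570), (nat_lit 11940226)] (nat_lit 6931473)) p15_31_2 (nat_lit 4) (nat_lit 0) (nat_lit 1) = true := by decide +kernel
def p15_31_2_1 : pfC (piC [(nat_lit 35065580), (nat_lit 23751559), (nat_lit 17719570), (nat_lit 11940226)] (nat_lit 6931473)) p15_31_2 (nat_lit 4) (nat_lit 1) (nat_lit 2) = true := by decide +kernel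
def p15_31_2_2 : pfC (piC [(nat_lit 35065580), (nat_lit 23751559), (nat_lit 17719570), (nat_lit 11940226)] (nat_lit 6931473)) p15_31_2 (nat_lit 4) (nat_lit 2) (nat_lit 3) = true := by decide +kernel
def p15_31_2_3 : pfC (piC [(nat_lit 35065580), (nat_lit 23751559), (nat_lit 17719570), (nat_lit 11940226)] (nat_lit 6931473)) p15_31_2 (nat_lit 4) (nat_lit 3) (nat_lit 4) = true := by decide +kernel
def p15_31_2_4 : pfC (piC [(nat_lit 35065580), (nat_lit 23751559), (nat_lit 17719570), (nat_lit 11940226)] (nat_lit 6931473)) p15_31_2 (nat_lit 4) (nat_lit 4) (nat_lit 5) = true := by decide +kernel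
def p15_31_2_5 : pfC (piC [(nat_lit 35065580), (nat_lit 23751559), (nat_lit 17719570), (nat_lit 11940226)] (nat_lit 6931473)) p15_31_2 (nat_lit 4) (nat_lit 5) (nat_lit 6) = true := by decide +kernel
def p15_31_2_6 : pfC (piC [(nat_lit 35065580), (nat_lit 23751559), (nat_lit 17719570), (nat_lit 11940226)] (nat_lit 6931473)) p15_31_2 (nat_lit 4) (nat_lit 6) (nat_lit 7) = true := by decide +kernel
def p15_31_2_7 : pfC (piC [(nat_lit 35065580), (nat_lit 23751559), (nat_lit 17719570), (nat_lit 11940226)] (nat_lit 6931473)) p15_31_2 (nat_lit 4) (nat_lit 7) (nat_lit 8) = true := by decide +kernel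
def p15_31_2_8 : pfC (piC [(nat_lit 35065580), (nat_lit 23751559), (nat_lit 17719570), (nat_lit 11940226)] (nat_lit 6931473)) p15_31_2 (nat_lit 4) (nat_lit 8) (nat_lit 9) = true := by decide +kernel
def p15_31_2_9 : pfC (piC [(nat_lit 35065580), (nat_lit 23751559), (nat_lit 17719570), (nat_lit 11940226)] (nat_lit 6931473)) p15_31_2 (nat_lit 4) (nat_lit 9) (nat_lit 10) = true := by decide +kernel
def p15_31_2_10 : pfC (piC [(nat_lit 35065580), (nat_lit 23751559), (nat_lit 17719570), (nat_lit 11940226)] (nat_lit 6931473)) p15_31_2 (nat_lit 4) (nat_lit 10) (nat_lit 11) = true := by decide +kernel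
def p15_31_2_11 : pfC (piC [(nat_lit 35065580), (nat_lit 23751559), (nat_lit 17719570), (nat_lit 11940226)] (nat_lit 6931473)) p15_31_2 (nat_lit 4) (nat_lit 11) (nat_lit 12) = true := by decide +kernel
def p15_31_2_12 : pfC (piC [(nat_lit 35065580), (nat_lit 23751559), (nat_lit 17719570), (nat_lit 11940226)] (nat_lit 6931473)) p15_31_2 (nat_lit 4) (nat_lit 12) (nat_lit 13) = true := by decide +kernel
def p15_31_2_13 : pfC (piC [(nat_lit 35065580), (nat_lit 23751559), (nat_lit 17719570), (nat_lit 11940226)] (nat_lit 6931473)) p15_31_2 (nat_lit 4) (nat_lit 13) (nat_lit 14) = true := by decide +kernel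
def p15_31_2_14 : pfC (piC [(nat_lit 35065580), (nat_lit 23751559), (nat_lit 17719570), (nat_lit 11940226)] (nat_lit 6931473)) p15_31_2 (nat_lit 4) (nat_lit 14) (nat_lit 15) = true := by decide +kernel
def p15_31_2_15 : pfC (piC [(nat_lit 35065580), (nat_lit 23751559), (nat_lit 17719570), (nat_lit 11940226)] (nat_lit 6931473)) p15_31_2 (nat_lit 4) (nat_lit 15) (nat_lit 16) = true := by decide +kernel
def p15_31_2_16 : pfC (piC [(nat_lit 35065580), (nat_lit 23751559), (nat_lit 17719570), (nat_lit 11940226)] (nat_lit 6931473)) p15_31_2 (nat_lit 4) (nat_lit 16) (nat_lit 17) = true := by decide +kernel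
def p15_31_2_17 : pfC (piC [(nat_lit 35065580), (nat_lit 23751559), (nat_lit 17719570), (nat_lit 11940226)] (nat_lit 6931473)) p15_31_2 (nat_lit 4) (nat_lit 17) (nat_lit 18) = true := by decide +kernel
def p15_31_2_18 : pfC (piC [(nat_lit 35065580), (nat_lit 23751559), (nat_lit 17719570), (nat_lit 11940226)] (nat_lit 6931473)) p15_31_2 (nat_lit 4) (nat_lit 18) (nat_lit 19) = true := by decide +kernel
def p15_31_2_19 : pfC (piC [(nat_lit 35065580), (nat_lit 23751559), (nat_lit 17719570), (nat_lit 11940226)] (nat_lit 6931473)) p15_31_2 (nat_lit 4) (nat_lit 19) (nat_lit 20) = true := by decide +kernel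
def p15_31_2_20 : pfC (piC [(nat_lit 35065580), (nat_lit 23751559), (nat_lit 17719570), (nat_lit 11940226)] (nat_lit 6931473)) p15_31_2 (nat_lit 4) (nat_lit 20) (nat_lit 21) = true := by decide +kernel
def p15_31_2_21 : pfC (piC [(nat_lit 35065580), (nat_lit 23751559), (nat_lit 17719570), (nat_lit 11940226)] (nat_lit 6931473)) p15_31_2 (nat_lit 4) (nat_lit 21) (nat_lit 22) = true := by decide +kernel
def p15_31_2_22 : pfC (piC [(nat_lit 35065580), (nat_lit 23751559), (nat_lit 17719570), (nat_lit 11940226)] (nat_lit 6931473)) p15_31_2 (nat_lit 4) (nat_lit 22) (nat_lit 23) = true := by decide +kernel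
def p15_31_2_23 : pfC (piC [(nat_lit 35065580), (nat_lit 23751559), (nat_lit 17719570), (nat_lit 11940226)] (nat_lit 6931473)) p15_31_2 (nat_lit 4) (nat_lit 23) (nat_lit 24) = true := by decide +kernel
def p15_31_2_24 : pfC (piC [(nat_lit 35065580), (nat_lit 23751559), (nat_lit 17719570), (nat_lit 11940226)] (nat_lit 6931473)) p15_31_2 (nat_lit 4) (nat_lit 24) (nat_lit 25) = true := by decide +kernel
def p15_31_2_25 : pfC (piC [(nat_lit 35065580), (nat_lit 23751559), (nat_lit 17719570), (nat_lit 11940226)] (nat_lit 6931473)) p15_31_2 (nat_lit 4) (nat_lit 25) (nat_lit 26) = true := by decide +kernel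
def p15_31_2_26 : pfC (piC [(nat_lit 35065580), (nat_lit 23751559), (nat_lit 17719570), (nat_lit 11940226)] (nat_lit 6931473)) p15_31_2 (nat_lit 4) (nat_lit 26) (nat_lit 27) = true := by decide +kernel
def p15_31_2_27 : pfC (piC [(nat_lit 35065580), (nat_lit 23751559), (nat_lit 17719570), (nat_lit 11940226)] (nat_lit 6931473)) p15_31_2 (nat_lit 4) (nat_lit 27) (nat_lit 28) = true := by decide +kernel
def p15_31_2_28 : pfC (piC [(nat_lit 35065580), (nat_lit 23751559), (nat_lit 17719570), (nat_lit 11940226)] (nat_lit 6931473)) p15_31_2 (nat_lit 4) (nat_lit 28) (nat_lit 29) = true := by decide +kernel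
def p15_31_2_29 : pfC (piC [(nat_lit 35065580), (nat_lit 23751559), (nat_lit 17719570), (nat_lit 11940226)] (nat_lit 6931473)) p15_31_2 (nat_lit 4) (nat_lit 29) (nat_lit 30) = true := by decide +kernel
def p15_31_2_30 : pfC (piC [(nat_lit 35065580), (nat_lit 23751559), (nat_lit 17719570), (nat_lit 11940226)] (nat_lit 6931473)) p15_31_2 (nat_lit 4) (nat_lit 30) (nat_lit 31) = true := by decide +kernel
def p15_31_2_31 : pfC (piC [(nat_lit 35065580), (nat_lit 23751559), (nat_lit 17719570), (nat_lit 11940226)] (nat_lit 6931473)) p15_31_2 (nat_lit 4) (nat_lit 31) (nat_lit 32) = true := by decide +kernel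
def p15_31_2_32 : pfC (piC [(nat_lit 35065580), (nat_lit 23751559), (nat_lit 17719570), (nat_lit 11940226)] (nat_lit 6931473)) p15_31_2 (nat_lit 4) (nat_lit 32) (nat_lit 33) = true := by decide +kernel
def p15_31_2_33 : pfC (piC [(nat_lit 35065580), (nat_lit 23751559), (nat_lit 17719570), (nat_lit 11940226)] (nat_lit 6931473)) p15_31_2 (nat_lit 4) (nat_lit 33) (nat_lit 34) = true := by decide +kernel
def p15_31_2_34 : pfC (piC [(nat_lit 35065580), (nat_lit 23751559), (nat_lit 17719570), (nat_lit 11940226)] (nat_lit 6931473)) p15_31_2 (nat_lit 4) (nat_lit 34) (nat_lit 35) = true := by decide +kernel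
def p15_31_2_35 : pfC (piC [(nat_lit 35065580), (nat_lit 23751559), (nat_lit 17719570), (nat_lit 11940226)] (nat_lit 6931473)) p15_31_2 (nat_lit 4) (nat_lit 35) (nat_lit 36) = true := by decide +kernel
def p15_31_2_36 : pfC (piC [(nat_lit 35065580), (nat_lit 23751559), (nat_lit 17719570), (nat_lit 11940226)] (nat_lit 6931473)) p15_31_2 (nat_lit 4) (nat_lit 36) (nat_lit 37) = true := by decide +kernel
def p15_31_2_37 : pfC (piC [(nat_lit 35065580), (nat_lit 23751559), (nat_lit 17719570), (nat_lit 11940226)] (nat_lit 6931473)) p15_31_2 (nat_lit 4) (nat_lit 37) (nat_lit 38) = true := by decide +kernel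
def p15_31_2_38 : pfC (piC [(nat_lit 35065580), (nat_lit 23751559), (nat_lit 17719570), (nat_lit 11940226)] (nat_lit 6931473)) p15_31_2 (nat_lit 4) (nat_lit 38) (nat_lit 39) = true := by decide +kernel
def p15_31_2_39 : pfC (piC [(nat_lit 35065580), (nat_lit 23751559), (nat_lit 17719570), (nat_lit 11940226)] (nat_lit 6931473)) p15_31_2 (nat_lit 4) (nat_lit 39) (nat_lit 40) = true := by decide +kernel
def p15_31_2_40 : pfC (piC [(nat_lit 35065580), (nat_lit 23751559), (nat_lit 17719570), (nat_lit 11940226)] (nat_lit 6931473)) p15_31_2 (nat_lit 4) (nat_lit 40) (nat_lit 41) = true := by decide +kernel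
def p15_31_2_41 : pfC (piC [(nat_lit 35065580), (nat_lit 23751559), (nat_lit 17719570), (nat_lit 11940226)] (nat_lit 6931473)) p15_31_2 (nat_lit 4) (nat_lit 41) (nat_lit 42) = true := by decide +kernel
def p15_31_2_42 : pfC (piC [(nat_lit 35065580), (nat_lit 23751559), (nat_lit 17719570), (nat_lit 11940226)] (nat_lit 6931473)) p15_31_2 (nat_lit 4) (nat_lit 42) (nat_lit 43) = true := by decide +kernel
def p15_31_2_43 : pfC (piC [(nat_lit 35065580), (nat_lit 23751559), (nat_lit 17719570), (nat_lit 11940226)] (nat_lit 6931473)) p15_31_2 (nat_lit 4) (nat_lit 43) (nat_lit 44) = true := by decide +kernel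
def p15_31_2_44 : pfC (piC [(nat_lit 35065580), (nat_lit 23751559), (nat_lit 17719570), (nat_lit 11940226)] (nat_lit 6931473)) p15_31_2 (nat_lit 4) (nat_lit 44) (nat_lit 45) = true := by decide +kernel
def p15_31_2_45 : pfC (piC [(nat_lit 35065580), (nat_lit 23751559), (nat_lit 17719570), (nat_lit 11940226)] (nat_lit 6931473)) p15_31_2 (nat_lit 4) (nat_lit 45) (nat_lit 46) = true := by decide +kernel
def p15_31_2_46 : pfC (piC [(nat_lit 35065580), (nat_lit 23751559), (nat_lit 17719570), (nat_lit 11940226)] (nat_lit 6931473)) p15_31_2 (nat_lit 4) (nat_lit 46) (nat_lit 47) = true := by decide +kernel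
def p15_31_2_47 : pfC (piC [(nat_lit 35065580), (nat_lit 23751559), (nat_lit 17719570), (nat_lit 11940226)] (nat_lit 6931473)) p15_31_2 (nat_lit 4) (nat_lit 47) (nat_lit 48) = true := by decide +kernel
def p15_31_2_48 : pfC (piC [(nat_lit 35065580), (nat_lit 23751559), (nat_lit 17719570), (nat_lit 11940226)] (nat_lit 6931473)) p15_31_2 (nat_lit 4) (nat_lit 48) (nat_lit 49) = true := by decide +kernel
def p15_31_2_49 : pfC (piC [(nat_lit 35065580), (nat_lit 23751559), (nat_lit 17719570), (nat_lit 11940226)] (nat_lit 6931473)) p15_31_2 (nat_lit 4) (nat_lit 49) (nat_lit 50) = true := by decide +kernel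
def p15_31_2_50 : pfC (piC [(nat_lit 35065580), (nat_lit 23751559), (nat_lit 17719570), (nat_lit 11940226)] (nat_lit 6931473)) p15_31_2 (nat_lit 4) (nat_lit 50) (nat_lit 51) = true := by decide +kernel
def p15_31_2_51 : pfC (piC [(nat_lit 35065580), (nat_lit 23751559), (nat_lit 17719570), (nat_lit 11940226)] (nat_lit 6931473)) p15_31_2 (nat_lit 4) (nat_lit 51) (nat_lit 52) = true := by decide +kernel
def p15_31_2_52 : pfC (piC [(nat_lit 35065580), (nat_lit 23751559), (nat_lit 17719570), (nat_lit 11940226)] (nat_lit 6931473)) p15_31_2 (nat_lit 4) (nat_lit 52) (nat_lit 53) = true := by decide +kernel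
def p15_31_2_53 : pfC (piC [(nat_lit 35065580), (nat_lit 23751559), (nat_lit 17719570), (nat_lit 11940226)] (nat_lit 6931473)) p15_31_2 (nat_lit 4) (nat_lit 53) (nat_lit 54) = true := by decide +kernel
def p15_31_2_54 : pfC (piC [(nat_lit 35065580), (nat_lit 23751559), (nat_lit 17719570), (nat_lit 11940226)] (nat_lit 6931473)) p15_31_2 (nat_lit 4) (nat_lit 54) (nat_lit 55) = true := by decide +kernel
def p15_31_2_55 : pfC (piC [(nat_lit 35065580), (nat_lit 23751559), (nat_lit 17719570), (nat_lit 11940226)] (nat_lit 6931473)) p15_31_2 (nat_lit 4) (nat_lit 55) (nat_lit 56) = true := by decide +kernel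
def p15_31_2_56 : pfC (piC [(nat_lit 35065580), (nat_lit 23751559), (nat_lit 17719570), (nat_lit 11940226)] (nat_lit 6931473)) p15_31_2 (nat_lit 4) (nat_lit 56) (nat_lit 57) = true := by decide +kernel
def p15_31_2_57 : pfC (piC [(nat_lit 35065580), (nat_lit 23751559), (nat_lit 17719570), (nat_lit 11940226)] (nat_lit 6931473)) p15_31_2 (nat_lit 4) (nat_lit 57) (nat_lit 58) = true := by decide +kernel
def p15_31_2_58 : pfC (piC [(nat_lit 35065580), (nat_lit 23751559), (nat_lit 17719570), (nat_lit 11940226)] (nat_lit 6931473)) p15_31_2 (nat_lit 4) (nat_lit 58) (nat_lit 59) = true := by decide +kernel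
def p15_31_2_59 : pfC (piC [(nat_lit 35065580), (nat_lit 23751559), (nat_lit 17719570), (nat_lit 11940226)] (nat_lit 6931473)) p15_31_2 (nat_lit 4) (nat_lit 59) (nat_lit 60) = true := by decide +kernel
def p15_31_2_60 : pfC (piC [(nat_lit 35065580), (nat_lit 23751559), (nat_lit 17719570), (nat_lit 11940226)] (nat_lit 6931473)) p15_31_2 (nat_lit 4) (nat_lit 60) (nat_lit 61) = true := by decide +kernel
def p15_31_2_61 : pfC (piC [(nat_lit 35065580), (nat_lit 23751559), (nat_lit 17719570), (nat_lit 11940226)] (nat_lit 6931473)) p15_31_2 (nat_lit 4) (nat_lit 61) (nat_lit 62) = true := by decide +kernel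
def p15_31_2_62 : pfC (piC [(nat_lit 35065580), (nat_lit 23751559), (nat_lit 17719570), (nat_lit 11940226)] (nat_lit 6931473)) p15_31_2 (nat_lit 4) (nat_lit 62) (nat_lit 63) = true := by decide +kernel
def p15_31_2_63 : pfC (piC [(nat_lit 35065580), (nat_lit 23751559), (nat_lit 17719570), (nat_lit 11940226)] (nat_lit 6931473)) p15_31_2 (nat_lit 4) (nat_lit 63) (nat_lit 64) = true := by decide +kernel
def p15_31_2_64 : pfC (piC [(nat_lit 35065580), (nat_lit 23751559), (nat_lit 17719570), (nat_lit 11940226)] (nat_lit 6931473)) p15_31_2 (nat_lit 4) (nat_lit 64) (nat_lit 65) = true := by decide +kernel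
def p15_31_2_65 : pfC (piC [(nat_lit 35065580), (nat_lit 23751559), (nat_lit 17719570), (nat_lit 11940226)] (nat_lit 6931473)) p15_31_2 (nat_lit 4) (nat_lit 65) (nat_lit 66) = true := by decide +kernel
def p15_31_2_66 : pfC (piC [(nat_lit 35065580), (nat_lit 23751559), (nat_lit 17719570), (nat_lit 11940226)] (nat_lit 6931473)) p15_31_2 (nat_lit 4) (nat_lit 66) (nat_lit 67) = true := by decide +kernel
def p15_31_2_67 : pfC (piC [(nat_lit 35065580), (nat_lit 23751559), (nat_lit 17719570), (nat_lit 11940226)] (nat_lit 6931473)) p15_31_2 (nat_lit 4) (nat_lit 67) (nat_lit 68) = true := by decide +kernel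
def p15_31_2_68 : pfC (piC [(nat_lit 35065580), (nat_lit 23751559), (nat_lit 17719570), (nat_lit 11940226)] (nat_lit 6931473)) p15_31_2 (nat_lit 4) (nat_lit 68) (nat_lit 69) = true := by decide +kernel
def p15_31_2_69 : pfC (piC [(nat_lit 35065580), (nat_lit 23751559), (nat_lit 17719570), (nat_lit 11940226)] (nat_lit 6931473)) p15_31_2 (nat_lit 4) (nat_lit 69) (nat_lit 70) = true := by decide +kernel
def p15_31_2_70 : pfC (piC [(nat_lit 35065580), (nat_lit 23751559), (nat_lit 17719570), (nat_lit 11940226)] (nat_lit 6931473)) p15_31_2 (nat_lit 4) (nat_lit 70) (nat_lit 71) = true := by decide +kernel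
def p15_31_2_71 : pfC (piC [(nat_lit 35065580), (nat_lit 23751559), (nat_lit 17719570), (nat_lit 11940226)] (nat_lit 6931473)) p15_31_2 (nat_lit 4) (nat_lit 71) (nat_lit 72) = true := by decide +kernel
def p15_31_2_72 : pfC (piC [(nat_lit 35065580), (nat_lit 23751559), (nat_lit 17719570), (nat_lit 11940226)] (nat_lit 6931473)) p15_31_2 (nat_lit 4) (nat_lit 72) (nat_lit 73) = true := by decide +kernel
def p15_31_2_73 : pfC (piC [(nat_lit 35065580), (nat_lit 23751559), (nat_lit 17719570), (nat_lit 11940226)] (nat_lit 6931473)) p15_31_2 (nat_lit 4) (nat_lit 73) (nat_lit 74) = true := by decide +kernel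
def p15_31_2_74 : pfC (piC [(nat_lit 35065580), (nat_lit 23751559), (nat_lit 17719570), (nat_lit 11940226)] (nat_lit 6931473)) p15_31_2 (nat_lit 4) (nat_lit 74) (nat_lit 75) = true := by decide +kernel
def p15_31_2_75 : pfC (piC [(nat_lit 35065580), (nat_lit 23751559), (nat_lit 17719570), (nat_lit 11940226)] (nat_lit 6931473)) p15_31_2 (nat_lit 4) (nat_lit 75) (nat_lit 76) = true := by decide +kernel
def p15_31_2_76 : pfC (piC [(nat_lit 35065580), (nat_lit 23751559), (nat_lit 17719570), (nat_lit 11940226)] (nat_lit 6931473)) p15_31_2 (nat_lit 4) (nat_lit 76) (nat_lit 77) = true := by decide +kernel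
def p15_31_2_77 : pfC (piC [(nat_lit 35065580), (nat_lit 23751559), (nat_lit 17719570), (nat_lit 11940226)] (nat_lit 6931473)) p15_31_2 (nat_lit 4) (nat_lit 77) (nat_lit 78) = true := by decide +kernel
def p15_31_2_78 : pfC (piC [(nat_lit 35065580), (nat_lit 23751559), (nat_lit 17719570), (nat_lit 11940226)] (nat_lit 6931473)) p15_31_2 (nat_lit 4) (nat_lit 78) (nat_lit 79) = true := by decide +kernel
def p15_31_2_79 : pfC (piC [(nat_lit 35065580), (nat_lit 23751559), (nat_lit 17719570), (nat_lit 11940226)] (nat_lit 6931473)) p15_31_2 (nat_lit 4) (nat_lit 79) (nat_lit 80) = true := by decide +kernel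
def p15_31_2_80 : pfC (piC [(nat_lit 35065580), (nat_lit 23751559), (nat_lit 17719570), (nat_lit 11940226)] (nat_lit 6931473)) p15_31_2 (nat_lit 4) (nat_lit 80) (nat_lit 81) = true := by decide +kernel
def p15_31_2_81 : pfC (piC [(nat_lit 35065580), (nat_lit 23751559), (nat_lit 17719570), (nat_lit 11940226)] (nat_lit 6931473)) p15_31_2 (nat_lit 4) (nat_lit 81) (nat_lit 82) = true := by decide +kernel
def p15_31_2_82 : pfC (piC [(nat_lit 35065580), (nat_lit 23751559), (nat_lit 17719570), (nat_lit 11940226)] (nat_lit 6931473)) p15_31_2 (nat_lit 4) (nat_lit 82) (nat_lit 83) = true := by decide +kernel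
def p15_31_2_83 : pfC (piC [(nat_lit 35065580), (nat_lit 23751559), (nat_lit 17719570), (nat_lit 11940226)] (nat_lit 6931473)) p15_31_2 (nat_lit 4) (nat_lit 83) (nat_lit 84) = true := by decide +kernel
def p15_31_2_84 : pfC (piC [(nat_lit 35065580), (nat_lit 23751559), (nat_lit 17719570), (nat_lit 11940226)] (nat_lit 6931473)) p15_31_2 (nat_lit 4) (nat_lit 84) (nat_lit 85) = true := by decide +kernel
def p15_31_2_85 : pfC (piC [(nat_lit 35065580), (nat_lit 23751559), (nat_lit 17719570), (nat_lit 11940226)] (nat_lit 6931473)) p15_31_2 (nat_lit 4) (nat_lit 85) (nat_lit 86) = true := by decide +kernel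
def p15_31_2_86 : pfC (piC [(nat_lit 35065580), (nat_lit 23751559), (nat_lit 17719570), (nat_lit 11940226)] (nat_lit 6931473)) p15_31_2 (nat_lit 4) (nat_lit 86) (nat_lit 87) = true := by decide +kernel
def p15_31_2_87 : pfC (piC [(nat_lit 35065580), (nat_lit 23751559), (nat_lit 17719570), (nat_lit 11940226)] (nat_lit 6931473)) p15_31_2 (nat_lit 4) (nat_lit 87) (nat_lit 88) = true := by decide +kernel
def p15_31_2_88 : pfC (piC [(nat_lit 35065580), (nat_lit 23751559), (nat_lit 17719570), (nat_lit 11940226)] (nat_lit 6931473)) p15_31_2 (nat_lit 4) (nat_lit 88) (nat_lit 89) = true := by decide +kernel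
def p15_31_2_89 : pfC (piC [(nat_lit 35065580), (nat_lit 23751559), (nat_lit 17719570), (nat_lit 11940226)] (nat_lit 6931473)) p15_31_2 (nat_lit 4) (nat_lit 89) (nat_lit 90) = true := by decide +kernel
def p15_31_2_90 : pfC (piC [(nat_lit 35065580), (nat_lit 23751559), (nat_lit 17719570), (nat_lit 11940226)] (nat_lit 6931473)) p15_31_2 (nat_lit 4) (nat_lit 90) (nat_lit 91) = true := by decide +kernel
def p15_31_2_91 : pfC (piC [(nat_lit 35065580), (nat_lit 23751559), (nat_lit 17719570), (nat_lit 11940226)] (nat_lit 6931473)) p15_31_2 (nat_lit 4) (nat_lit 91) (nat_lit 92) = true := by decide +kernel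
def p15_31_2_92 : pfC (piC [(nat_lit 35065580), (nat_lit 23751559), (nat_lit 17719570), (nat_lit 11940226)] (nat_lit 6931473)) p15_31_2 (nat_lit 4) (nat_lit 92) (nat_lit 93) = true := by decide +kernel
def p15_31_2_93 : pfC (piC [(nat_lit 35065580), (nat_lit 23751559), (nat_lit 17719570), (nat_lit 11940226)] (nat_lit 6931473)) p15_31_2 (nat_lit 4) (nat_lit 93) (nat_lit 94) = true := by decide +kernel
def p15_31_2_94 : pfC (piC [(nat_lit 35065580), (nat_lit 23751559), (nat_lit 17719570), (nat_lit 11940226)] (nat_lit 6931473)) p15_31_2 (nat_lit 4) (nat_lit 94) (nat_lit 95) = true := by decide +kernel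
def p15_31_2_95 : pfC (piC [(nat_lit 35065580), (nat_lit 23751559), (nat_lit 17719570), (nat_lit 11940226)] (nat_lit 6931473)) p15_31_2 (nat_lit 4) (nat_lit 95) (nat_lit 96) = true := by decide +kernel
def p15_31_2_96 : pfC (piC [(nat_lit 35065580), (nat_lit 23751559), (nat_lit 17719570), (nat_lit 11940226)] (nat_lit 6931473)) p15_31_2 (nat_lit 4) (nat_lit 96) (nat_lit 97) = true := by decide +kernel
def p15_31_2_97 : pfC (piC [(nat_lit 35065580), (nat_lit 23751559), (nat_lit 17719570), (nat_lit 11940226)] (nat_lit 6931473)) p15_31_2 (nat_lit 4) (nat_lit 97) (nat_lit 98) = true := by decide +kernel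
def p15_31_2_98 : pfC (piC [(nat_lit 35065580), (nat_lit 23751559), (nat_lit 17719570), (nat_lit 11940226)] (nat_lit 6931473)) p15_31_2 (nat_lit 4) (nat_lit 98) (nat_lit 99) = true := by decide +kernel
def p15_31_2_99 : pfC (piC [(nat_lit 35065580), (nat_lit 23751559), (nat_lit 17719570), (nat_lit 11940226)] (nat_lit 6931473)) p15_31_2 (nat_lit 4) (nat_lit 99) (nat_lit 100) = true := by decide +kernel
def p15_31_2_100 : pfC (piC [(nat_lit 35065580), (nat_lit 23751559), (nat_lit 17719570), (nat_lit 11940226)] (nat_lit 6931473)) p15_31_2 (nat_lit 4) (nat_lit 100) (nat_lit 101) = true := by decide +kernel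
def p15_31_2_101 : pfC (piC [(nat_lit 35065580), (nat_lit 23751559), (nat_lit 17719570), (nat_lit 11940226)] (nat_lit 6931473)) p15_31_2 (nat_lit 4) (nat_lit 101) (nat_lit 102) = true := by decide +kernel
def p15_31_2_102 : pfC (piC [(nat_lit 35065580), (nat_lit 23751559), (nat_lit 17719570), (nat_lit 11940226)] (nat_lit 6931473)) p15_31_2 (nat_lit 4) (nat_lit 102) (nat_lit 103) = true := by decide +kernel
def p15_31_2_103 : pfC (piC [(nat_lit 35065580), (nat_lit 23751559), (nat_lit 17719570), (nat_lit 11940226)] (nat_lit 6931473)) p15_31_2 (nat_lit 4) (nat_lit 103) (nat_lit 104) = true := by decide +kernel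
def p15_31_2_104 : pfC (piC [(nat_lit 35065580), (nat_lit 23751559), (nat_lit 17719570), (nat_lit 11940226)] (nat_lit 6931473)) p15_31_2 (nat_lit 4) (nat_lit 104) (nat_lit 105) = true := by decide +kernel
def p15_31_2_105 : pfC (piC [(nat_lit 35065580), (nat_lit 23751559), (nat_lit 17719570), (nat_lit 11940226)] (nat_lit 6931473)) p15_31_2 (nat_lit 4) (nat_lit 105) (nat_lit 106) = true := by decide +kernel
def p15_31_2_106 : pfC (piC [(nat_lit 35065580), (nat_lit 23751559), (nat_lit 17719570), (nat_lit 11940226)] (nat_lit 6931473)) p15_31_2 (nat_lit 4) (nat_lit 106) (nat_lit 107) = true := by decide +kernel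
def p15_31_2_107 : pfC (piC [(nat_lit 35065580), (nat_lit 23751559), (nat_lit 17719570), (nat_lit 11940226)] (nat_lit 6931473)) p15_31_2 (nat_lit 4) (nat_lit 107) (nat_lit 108) = true := by decide +kernel
def p15_31_2_108 : pfC (piC [(nat_lit 35065580), (nat_lit 23751559), (nat_lit 17719570), (nat_lit 11940226)] (nat_lit 6931473)) p15_31_2 (nat_lit 4) (nat_lit 108) (nat_lit 109) = true := by decide +kernel
def p15_31_2_109 : pfC (piC [(nat_lit 35065580), (nat_lit 23751559), (nat_lit 17719570), (nat_lit 11940226)] (nat_lit 6931473)) p15_31_2 (nat_lit 4) (nat_lit 109) (nat_lit 110) = true := by decide +kernel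
def p15_31_2_110 : pfC (piC [(nat_lit 35065580), (nat_lit 23751559), (nat_lit 17719570), (nat_lit 11940226)] (nat_lit 6931473)) p15_31_2 (nat_lit 4) (nat_lit 110) (nat_lit 111) = true := by decide +kernel
def p15_31_2_111 : pfC (piC [(nat_lit 35065580), (nat_lit 23751559), (nat_lit 17719570), (nat_lit 11940226)] (nat_lit 6931473)) p15_31_2 (nat_lit 4) (nat_lit 111) (nat_lit 112) = true := by decide +kernel
def p15_31_2_112 : pfC (piC [(nat_lit 35065580), (nat_lit 23751559), (nat_lit 17719570), (nat_lit 11940226)] (nat_lit 6931473)) p15_31_2 (nat_lit 4) (nat_lit 112) (nat_lit 113) = true := by decide +kernel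
def p15_31_2_113 : pfC (piC [(nat_lit 35065580), (nat_lit 23751559), (nat_lit 17719570), (nat_lit 11940226)] (nat_lit 6931473)) p15_31_2 (nat_lit 4) (nat_lit 113) (nat_lit 114) = true := by decide +kernel
def p15_31_2_114 : pfC (piC [(nat_lit 35065580), (nat_lit 23751559), (nat_lit 17719570), (nat_lit 11940226)] (nat_lit 6931473)) p15_31_2 (nat_lit 4) (nat_lit 114) (nat_lit 115) = true := by decide +kernel
def p15_31_2_115 : pfC (piC [(nat_lit 35065580), (nat_lit 23751559), (nat_lit 17719570), (nat_lit 11940226)] (nat_lit 6931473)) p15_31_2 (nat_lit 4) (nat_lit 115) (nat_lit 116) = true := by decide +kernel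
def p15_31_2_116 : pfC (piC [(nat_lit 35065580), (nat_lit 23751559), (nat_lit 17719570), (nat_lit 11940226)] (nat_lit 6931473)) p15_31_2 (nat_lit 4) (nat_lit 116) (nat_lit 117) = true := by decide +kernel
def p15_31_2_117 : pfC (piC [(nat_lit 35065580), (nat_lit 23751559), (nat_lit 17719570), (nat_lit 11940226)] (nat_lit 6931473)) p15_31_2 (nat_lit 4) (nat_lit 117) (nat_lit 118) = true := by decide +kernel
def p15_31_2_118 : pfC (piC [(nat_lit 35065580), (nat_lit 23751559), (nat_lit 17719570), (nat_lit 11940226)] (nat_lit 6931473)) p15_31_2 (nat_lit 4) (nat_lit 118) (nat_lit 119) = true := by decide +kernel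
def p15_31_2_119 : pfC (piC [(nat_lit 35065580), (nat_lit 23751559), (nat_lit 17719570), (nat_lit 11940226)] (nat_lit 6931473)) p15_31_2 (nat_lit 4) (nat_lit 119) (nat_lit 120) = true := by decide +kernel
def p15_31_2_120 : pfC (piC [(nat_lit 35065580), (nat_lit 23751559), (nat_lit 17719570), (nat_lit 11940226)] (nat_lit 6931473)) p15_31_2 (nat_lit 4) (nat_lit 120) (nat_lit 121) = true := by decide +kernel
def p15_31_2_121 : pfC (piC [(nat_lit 35065580), (nat_lit 23751559), (nat_lit 17719570), (nat_lit 11940226)] (nat_lit 6931473)) p15_31_2 (nat_lit 4) (nat_lit 121) (nat_lit 122) = true := by decide +kernel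
def p15_31_2_122 : pfC (piC [(nat_lit 35065580), (nat_lit 23751559), (nat_lit 17719570), (nat_lit 11940226)] (nat_lit 6931473)) p15_31_2 (nat_lit 4) (nat_lit 122) (nat_lit 123) = true := by decide +kernel
def p15_31_2_123 : pfC (piC [(nat_lit 35065580), (nat_lit 23751559), (nat_lit 17719570), (nat_lit 11940226)] (nat_lit 6931473)) p15_31_2 (nat_lit 4) (nat_lit 123) (nat_lit 124) = true := by decide +kernel
def p15_31_2_124 : pfC (piC [(nat_lit 35065580), (nat_lit 23751559), (nat_lit 17719570), (nat_lit 11940226)] (nat_lit 6931473)) p15_31_2 (nat_lit 4) (nat_lit 124) (nat_lit 125) = true := by decide +kernel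
def p15_31_2_125 : pfC (piC [(nat_lit 35065580), (nat_lit 23751559), (nat_lit 17719570), (nat_lit 11940226)] (nat_lit 6931473)) p15_31_2 (nat_lit 4) (nat_lit 125) (nat_lit 126) = true := by decide +kernel
def p15_31_2_126 : pfC (piC [(nat_lit 35065580), (nat_lit 23751559), (nat_lit 17719570), (nat_lit 11940226)] (nat_lit 6931473)) p15_31_2 (nat_lit 4) (nat_lit 126) (nat_lit 127) = true := by decide +kernel
def p15_31_2_127 : pfC (piC [(nat_lit 35065580), (nat_lit 23751559), (nat_lit 17719570), (nat_lit 11940226)] (nat_lit 6931473)) p15_31_2 (nat_lit 4) (nat_lit 127) (nat_lit 128) = true := by decide +kernel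
def p15_31_2_128 : pfC (piC [(nat_lit 35065580), (nat_lit 23751559), (nat_lit 17719570), (nat_lit 11940226)] (nat_lit 6931473)) p15_31_2 (nat_lit 4) (nat_lit 128) (nat_lit 129) = true := by decide +kernel
def p15_31_2_129 : pfC (piC [(nat_lit 35065580), (nat_lit 23751559), (nat_lit 17719570), (nat_lit 11940226)] (nat_lit 6931473)) p15_31_2 (nat_lit 4) (nat_lit 129) (nat_lit 130) = true := by decide +kernel
def p15_31_2_130 : pfC (piC [(nat_lit 35065580), (nat_lit 23751559), (nat_lit 17719570), (nat_lit 11940226)] (nat_lit 6931473)) p15_31_2 (nat_lit 4) (nat_lit 130) (nat_lit 131) = true := by decide +kernel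
def p15_31_2_131 : pfC (piC [(nat_lit 35065580), (nat_lit 23751559), (nat_lit 17719570), (nat_lit 11940226)] (nat_lit 6931473)) p15_31_2 (nat_lit 4) (nat_lit 131) (nat_lit 132) = true := by decide +kernel
def p15_31_2_132 : pfC (piC [(nat_lit 35065580), (nat_lit 23751559), (nat_lit 17719570), (nat_lit 11940226)] (nat_lit 6931473)) p15_31_2 (nat_lit 4) (nat_lit 132) (nat_lit 133) = true := by decide +kernel
def p15_31_2_133 : pfC (piC [(nat_lit 35065580), (nat_lit 23751559), (nat_lit 17719570), (nat_lit 11940226)] (nat_lit 6931473)) p15_31_2 (nat_lit 4) (nat_lit 133) (nat_lit 134) = true := by decide +kernel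
def p15_31_2_134 : pfC (piC [(nat_lit 35065580), (nat_lit 23751559), (nat_lit 17719570), (nat_lit 11940226)] (nat_lit 6931473)) p15_31_2 (nat_lit 4) (nat_lit 134) (nat_lit 135) = true := by decide +kernel
def p15_31_2_135 : pfC (piC [(nat_lit 35065580), (nat_lit 23751559), (nat_lit 17719570), (nat_lit 11940226)] (nat_lit 6931473)) p15_31_2 (nat_lit 4) (nat_lit 135) (nat_lit 136) = true := by decide +kernel
def p15_31_2_136 : pfC (piC [(nat_lit 35065580), (nat_lit 23751559), (nat_lit 17719570), (nat_lit 11940226)] (nat_lit 6931473)) p15_31_2 (nat_lit 4) (nat_lit 136) (nat_lit 137) = true := by decide +kernel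
def p15_31_2_137 : pfC (piC [(nat_lit 35065580), (nat_lit 23751559), (nat_lit 17719570), (nat_lit 11940226)] (nat_lit 6931473)) p15_31_2 (nat_lit 4) (nat_lit 137) (nat_lit 138) = true := by decide +kernel
def p15_31_2_138 : pfC (piC [(nat_lit 35065580), (nat_lit 23751559), (nat_lit 17719570), (nat_lit 11940226)] (nat_lit 6931473)) p15_31_2 (nat_lit 4) (nat_lit 138) (nat_lit 139) = true := by decide +kernel
def p15_31_2_139 : pfC (piC [(nat_lit 35065580), (nat_lit 23751559), (nat_lit 17719570), (nat_lit 11940226)] (nat_lit 6931473)) p15_31_2 (nat_lit 4) (nat_lit 139) (nat_lit 140) = true := by decide +kernel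
def p15_31_2_140 : pfC (piC [(nat_lit 35065580), (nat_lit 23751559), (nat_lit 17719570), (nat_lit 11940226)] (nat_lit 6931473)) p15_31_2 (nat_lit 4) (nat_lit 140) (nat_lit 141) = true := by decide +kernel
def p15_31_2_141 : pfC (piC [(nat_lit 35065580), (nat_lit 23751559), (nat_lit 17719570), (nat_lit 11940226)] (nat_lit 6931473)) p15_31_2 (nat_lit 4) (nat_lit 141) (nat_lit 142) = true := by decide +kernel
def p15_31_2_142 : pfC (piC [(nat_lit 35065580), (nat_lit 23751559), (nat_lit 17719570), (nat_lit 11940226)] (nat_lit 6931473)) p15_31_2 (nat_lit 4) (nat_lit 142) (nat_lit 143) = true := by decide +kernel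
def p15_31_2_143 : pfC (piC [(nat_lit 35065580), (nat_lit 23751559), (nat_lit 17719570), (nat_lit 11940226)] (nat_lit 6931473)) p15_31_2 (nat_lit 4) (nat_lit 143) (nat_lit 144) = true := by decide +kernel
def p15_31_2_144 : pfC (piC [(nat_lit 35065580), (nat_lit 23751559), (nat_lit 17719570), (nat_lit 11940226)] (nat_lit 6931473)) p15_31_2 (nat_lit 4) (nat_lit 144) (nat_lit 145) = true := by decide +kernel
def p15_31_2_145 : pfC (piC [(nat_lit 35065580), (nat_lit 23751559), (nat_lit 17719570), (nat_lit 11940226)] (nat_lit 6931473)) p15_31_2 (nat_lit 4) (nat_lit 145) (nat_lit 146) = true := by decide +kernel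
def p15_31_2_146 : pfC (piC [(nat_lit 35065580), (nat_lit 23751559), (nat_lit 17719570), (nat_lit 11940226)] (nat_lit 6931473)) p15_31_2 (nat_lit 4) (nat_lit 146) (nat_lit 147) = true := by decide +kernel
def p15_31_2_147 : pfC (piC [(nat_lit 35065580), (nat_lit 23751559), (nat_lit 17719570), (nat_lit 11940226)] (nat_lit 6931473)) p15_31_2 (nat_lit 4) (nat_lit 147) (nat_lit 148) = true := by decide +kernel
def p15_31_2_148 : pfC (piC [(nat_lit 35065580), (nat_lit 23751559), (nat_lit 17719570), (nat_lit 11940226)] (nat_lit 6931473)) p15_31_2 (nat_lit 4) (nat_lit 148) (nat_lit 149) = true := by decide +kernel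
def p15_31_2_149 : pfC (piC [(nat_lit 35065580), (nat_lit 23751559), (nat_lit 17719570), (nat_lit 11940226)] (nat_lit 6931473)) p15_31_2 (nat_lit 4) (nat_lit 149) (nat_lit 150) = true := by decide +kernel
def p15_31_2_150 : pfC (piC [(nat_lit 35065580), (nat_lit 23751559), (nat_lit 17719570), (nat_lit 11940226)] (nat_lit 6931473)) p15_31_2 (nat_lit 4) (nat_lit 150) (nat_lit 151) = true := by decide +kernel
def p15_31_2_151 : pfC (piC [(nat_lit 35065580), (nat_lit 23751559), (nat_lit 17719570), (nat_lit 11940226)] (nat_lit 6931473)) p15_31_2 (nat_lit 4) (nat_lit 151) (nat_lit 152) = true := by decide +kernel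
def p15_31_2_152 : pfC (piC [(nat_lit 35065580), (nat_lit 23751559), (nat_lit 17719570), (nat_lit 11940226)] (nat_lit 6931473)) p15_31_2 (nat_lit 4) (nat_lit 152) (nat_lit 153) = true := by decide +kernel
def p15_31_2_153 : pfC (piC [(nat_lit 35065580), (nat_lit 23751559), (nat_lit 17719570), (nat_lit 11940226)] (nat_lit 6931473)) p15_31_2 (nat_lit 4) (nat_lit 153) (nat_lit 154) = true := by decide +kernel
def p15_31_2_154 : pfC (piC [(nat_lit 35065580), (nat_lit 23751559), (nat_lit 17719570), (nat_lit 11940226)] (nat_lit 6931473)) p15_31_2 (nat_lit 4) (nat_lit 154) (nat_lit 155) = true := by decide +kernel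
def p15_31_2_155 : pfC (piC [(nat_lit 35065580), (nat_lit 23751559), (nat_lit 17719570), (nat_lit 11940226)] (nat_lit 6931473)) p15_31_2 (nat_lit 4) (nat_lit 155) (nat_lit 156) = true := by decide +kernel
def p15_31_2_156 : pfC (piC [(nat_lit 35065580), (nat_lit 23751559), (nat_lit 17719570), (nat_lit 11940226)] (nat_lit 6931473)) p15_31_2 (nat_lit 4) (nat_lit 156) (nat_lit 157) = true := by decide +kernel
def p15_31_2_157 : pfC (piC [(nat_lit 35065580), (nat_lit 23751559), (nat_lit 17719570), (nat_lit 11940226)] (nat_lit 6931473)) p15_31_2 (nat_lit 4) (nat_lit 157) (nat_lit 158) = true := by decide +kernel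
def p15_31_2_158 : pfC (piC [(nat_lit 35065580), (nat_lit 23751559), (nat_lit 17719570), (nat_lit 11940226)] (nat_lit 6931473)) p15_31_2 (nat_lit 4) (nat_lit 158) (nat_lit 159) = true := by decide +kernel
def p15_31_2_159 : pfC (piC [(nat_lit 35065580), (nat_lit 23751559), (nat_lit 17719570), (nat_lit 11940226)] (nat_lit 6931473)) p15_31_2 (nat_lit 4) (nat_lit 159) (nat_lit 160) = true := by decide +kernel
def p15_31_2_160 : pfC (piC [(nat_lit 35065580), (nat_lit 23751559), (nat_lit 17719570), (nat_lit 11940226)] (nat_lit 6931473)) p15_31_2 (nat_lit 4) (nat_lit 160) (nat_lit 161) = true := by decide +kernel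
def p15_31_2_161 : pfC (piC [(nat_lit 35065580), (nat_lit 23751559), (nat_lit 17719570), (nat_lit 11940226)] (nat_lit 6931473)) p15_31_2 (nat_lit 4) (nat_lit 161) (nat_lit 162) = true := by decide +kernel
def p15_31_2_162 : pfC (piC [(nat_lit 35065580), (nat_lit 23751559), (nat_lit 17719570), (nat_lit 11940226)] (nat_lit 6931473)) p15_31_2 (nat_lit 4) (nat_lit 162) (nat_lit 163) = true := by decide +kernel
def p15_31_2_163 : pfC (piC [(nat_lit 35065580), (nat_lit 23751559), (nat_lit 17719570), (nat_lit 11940226)] (nat_lit 6931473)) p15_31_2 (nat_lit 4) (nat_lit 163) (nat_lit 164) = true := by decide +kernel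
def p15_31_2_164 : pfC (piC [(nat_lit 35065580), (nat_lit 23751559), (nat_lit 17719570), (nat_lit 11940226)] (nat_lit 6931473)) p15_31_2 (nat_lit 4) (nat_lit 164) (nat_lit 165) = true := by decide +kernel
def p15_31_2_165 : pfC (piC [(nat_lit 35065580), (nat_lit 23751559), (nat_lit 17719570), (nat_lit 11940226)] (nat_lit 6931473)) p15_31_2 (nat_lit 4) (nat_lit 165) (nat_lit 166) = true := by decide +kernel
def p15_31_2_166 : pfC (piC [(nat_lit 35065580), (nat_lit 23751559), (nat_lit 17719570), (nat_lit 11940226)] (nat_lit 6931473)) p15_31_2 (nat_lit 4) (nat_lit 166) (nat_lit 167) = true := by decide +kernel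
def p15_31_2_167 : pfC (piC [(nat_lit 35065580), (nat_lit 23751559), (nat_lit 17719570), (nat_lit 11940226)] (nat_lit 6931473)) p15_31_2 (nat_lit 4) (nat_lit 167) (nat_lit 168) = true := by decide +kernel
def p15_31_2_168 : pfC (piC [(nat_lit 35065580), (nat_lit 23751559), (nat_lit 17719570), (nat_lit 11940226)] (nat_lit 6931473)) p15_31_2 (nat_lit 4) (nat_lit 168) (nat_lit 169) = true := by decide +kernel
def p15_31_2_169 : pfC (piC [(nat_lit 35065580), (nat_lit 23751559), (nat_lit 17719570), (nat_lit 11940226)] (nat_lit 6931473)) p15_31_2 (nat_lit 4) (nat_lit 169) (nat_lit 170) = true := by decide +kernel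
def p15_31_2_170 : pfC (piC [(nat_lit 35065580), (nat_lit 23751559), (nat_lit 17719570), (nat_lit 11940226)] (nat_lit 6931473)) p15_31_2 (nat_lit 4) (nat_lit 170) (nat_lit 171) = true := by decide +kernel
def p15_31_2_171 : pfC (piC [(nat_lit 35065580), (nat_lit 23751559), (nat_lit 17719570), (nat_lit 11940226)] (nat_lit 6931473)) p15_31_2 (nat_lit 4) (nat_lit 171) (nat_lit 172) = true := by decide +kernel
def p15_31_2_172 : pfC (piC [(nat_lit 35065580), (nat_lit 23751559), (nat_lit 17719570), (nat_lit 11940226)] (nat_lit 6931473)) p15_31_2 (nat_lit 4) (nat_lit 172) (nat_lit 173) = true := by decide +kernel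
def p15_31_2_173 : pfC (piC [(nat_lit 35065580), (nat_lit 23751559), (nat_lit 17719570), (nat_lit 11940226)] (nat_lit 6931473)) p15_31_2 (nat_lit 4) (nat_lit 173) (nat_lit 174) = true := by decide +kernel
def p15_31_2_174 : pfC (piC [(nat_lit 35065580), (nat_lit 23751559), (nat_lit 17719570), (nat_lit 11940226)] (nat_lit 6931473)) p15_31_2 (nat_lit 4) (nat_lit 174) (nat_lit 175) = true := by decide +kernel
def p15_31_2_175 : pfC (piC [(nat_lit 35065580), (nat_lit 23751559), (nat_lit 17719570), (nat_lit 11940226)] (nat_lit 6931473)) p15_31_2 (nat_lit 4) (nat_lit 175) (nat_lit 176) = true := by decide +kernel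
def p15_31_2_176 : pfC (piC [(nat_lit 35065580), (nat_lit 23751559), (nat_lit 17719570), (nat_lit 11940226)] (nat_lit 6931473)) p15_31_2 (nat_lit 4) (nat_lit 176) (nat_lit 177) = true := by decide +kernel
def p15_31_2_177 : pfC (piC [(nat_lit 35065580), (nat_lit 23751559), (nat_lit 17719570), (nat_lit 11940226)] (nat_lit 6931473)) p15_31_2 (nat_lit 4) (nat_lit 177) (nat_lit 178) = true := by decide +kernel
def p15_31_2_178 : pfC (piC [(nat_lit 35065580), (nat_lit 23751559), (nat_lit 17719570), (nat_lit 11940226)] (nat_lit 6931473)) p15_31_2 (nat_lit 4) (nat_lit 178) (nat_lit 179) = true := by decide +kernel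
def p15_31_2_179 : pfC (piC [(nat_lit 35065580), (nat_lit 23751559), (nat_lit 17719570), (nat_lit 11940226)] (nat_lit 6931473)) p15_31_2 (nat_lit 4) (nat_lit 179) (nat_lit 180) = true := by decide +kernel
def p15_31_2_180 : pfC (piC [(nat_lit 35065580), (nat_lit 23751559), (nat_lit 17719570), (nat_lit 11940226)] (nat_lit 6931473)) p15_31_2 (nat_lit 4) (nat_lit 180) (nat_lit 181) = true := by decide +kernel
def p15_31_2_181 : pfC (piC [(nat_lit 35065580), (nat_lit 23751559), (nat_lit 17719570), (nat_lit 11940226)] (nat_lit 6931473)) p15_31_2 (nat_lit 4) (nat_lit 181) (nat_lit 182) = true := by decide +kernel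
def p15_31_2_182 : pfC (piC [(nat_lit 35065580), (nat_lit 23751559), (nat_lit 17719570), (nat_lit 11940226)] (nat_lit 6931473)) p15_31_2 (nat_lit 4) (nat_lit 182) (nat_lit 183) = true := by decide +kernel
def p15_31_2_183 : pfC (piC [(nat_lit 35065580), (nat_lit 23751559), (nat_lit 17719570), (nat_lit 11940226)] (nat_lit 6931473)) p15_31_2 (nat_lit 4) (nat_lit 183) (nat_lit 184) = true := by decide +kernel
def p15_31_2_184 : pfC (piC [(nat_lit 35065580), (nat_lit 23751559), (nat_lit 17719570), (nat_lit 11940226)] (nat_lit 6931473)) p15_31_2 (nat_lit 4) (nat_lit 184) (nat_lit 185) = true := by decide +kernel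
def p15_31_2_185 : pfC (piC [(nat_lit 35065580), (nat_lit 23751559), (nat_lit 17719570), (nat_lit 11940226)] (nat_lit 6931473)) p15_31_2 (nat_lit 4) (nat_lit 185) (nat_lit 186) = true := by decide +kernel
def p15_31_2_186 : pfC (piC [(nat_lit 35065580), (nat_lit 23751559), (nat_lit 17719570), (nat_lit 11940226)] (nat_lit 6931473)) p15_31_2 (nat_lit 4) (nat_lit 186) (nat_lit 187) = true := by decide +kernel
def p15_31_2_187 : pfC (piC [(nat_lit 35065580), (nat_lit 23751559), (nat_lit 17719570), (nat_lit 11940226)] (nat_lit 6931473)) p15_31_2 (nat_lit 4) (nat_lit 187) (nat_lit 188) = true := by decide +kernel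
def p15_31_2_188 : pfC (piC [(nat_lit 35065580), (nat_lit 23751559), (nat_lit 17719570), (nat_lit 11940226)] (nat_lit 6931473)) p15_31_2 (nat_lit 4) (nat_lit 188) (nat_lit 189) = true := by decide +kernel
def p15_31_2_189 : pfC (piC [(nat_lit 35065580), (nat_lit 23751559), (nat_lit 17719570), (nat_lit 11940226)] (nat_lit 6931473)) p15_31_2 (nat_lit 4) (nat_lit 189) (nat_lit 190) = true := by decide +kernel
def p15_31_2_190 : pfC (piC [(nat_lit 35065580), (nat_lit 23751559), (nat_lit 17719570), (nat_lit 11940226)] (nat_lit 6931473)) p15_31_2 (nat_lit 4) (nat_lit 190) (nat_lit 191) = true := by decide +kernel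
def p15_31_2_191 : pfC (piC [(nat_lit 35065580), (nat_lit 23751559), (nat_lit 17719570), (nat_lit 11940226)] (nat_lit 6931473)) p15_31_2 (nat_lit 4) (nat_lit 191) (nat_lit 192) = true := by decide +kernel
def p15_31_2_192 : pfC (piC [(nat_lit 35065580), (nat_lit 23751559), (nat_lit 17719570), (nat_lit 11940226)] (nat_lit 6931473)) p15_31_2 (nat_lit 4) (nat_lit 192) (nat_lit 193) = true := by decide +kernel
def p15_31_2_193 : pfC (piC [(nat_lit 35065580), (nat_lit 23751559), (nat_lit 17719570), (nat_lit 11940226)] (nat_lit 6931473)) p15_31_2 (nat_lit 4) (nat_lit 193) (nat_lit 194) = true := by decide +kernel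
def p15_31_2_194 : pfC (piC [(nat_lit 35065580), (nat_lit 23751559), (nat_lit 17719570), (nat_lit 11940226)] (nat_lit 6931473)) p15_31_2 (nat_lit 4) (nat_lit 194) (nat_lit 195) = true := by decide +kernel
def p15_31_2_195 : pfC (piC [(nat_lit 35065580), (nat_lit 23751559), (nat_lit 17719570), (nat_lit 11940226)] (nat_lit 6931473)) p15_31_2 (nat_lit 4) (nat_lit 195) (nat_lit 196) = true := by decide +kernel
def p15_31_2_196 : pfC (piC [(nat_lit 35065580), (nat_lit 23751559), (nat_lit 17719570), (nat_lit 11940226)] (nat_lit 6931473)) p15_31_2 (nat_lit 4) (nat_lit 196) (nat_lit 197) = true := by decide +kernel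
def p15_31_2_197 : pfC (piC [(nat_lit 35065580), (nat_lit 23751559), (nat_lit 17719570), (nat_lit 11940226)] (nat_lit 6931473)) p15_31_2 (nat_lit 4) (nat_lit 197) (nat_lit 198) = true := by decide +kernel
def p15_31_2_198 : pfC (piC [(nat_lit 35065580), (nat_lit 23751559), (nat_lit 17719570), (nat_lit 11940226)] (nat_lit 6931473)) p15_31_2 (nat_lit 4) (nat_lit 198) (nat_lit 199) = true := by decide +kernel
def p15_31_2_199 : pfC (piC [(nat_lit 35065580), (nat_lit 23751559), (nat_lit 17719570), (nat_lit 11940226)] (nat_lit 6931473)) p15_31_2 (nat_lit 4) (nat_lit 199) (nat_lit 200) = true := by decide +kernel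
def p15_31_2_200 : pfC (piC [(nat_lit 35065580), (nat_lit 23751559), (nat_lit 17719570), (nat_lit 11940226)] (nat_lit 6931473)) p15_31_2 (nat_lit 4) (nat_lit 200) (nat_lit 201) = true := by decide +kernel
def p15_31_2_201 : pfC (piC [(nat_lit 35065580), (nat_lit 23751559), (nat_lit 17719570), (nat_lit 11940226)] (nat_lit 6931473)) p15_31_2 (nat_lit 4) (nat_lit 201) (nat_lit 202) = true := by decide +kernel
def p15_31_2_202 : pfC (piC [(nat_lit 35065580), (nat_lit 23751559), (nat_lit 17719570), (nat_lit 11940226)] (nat_lit 6931473)) p15_31_2 (nat_lit 4) (nat_lit 202) (nat_lit 203) = true := by decide +kernel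
def p15_31_2_203 : pfC (piC [(nat_lit 35065580), (nat_lit 23751559), (nat_lit 17719570), (nat_lit 11940226)] (nat_lit 6931473)) p15_31_2 (nat_lit 4) (nat_lit 203) (nat_lit 204) = true := by decide +kernel
def p15_31_2_204 : pfC (piC [(nat_lit 35065580), (nat_lit 23751559), (nat_lit 17719570), (nat_lit 11940226)] (nat_lit 6931473)) p15_31_2 (nat_lit 4) (nat_lit 204) (nat_lit 205) = true := by decide +kernel
def p15_31_2_205 : pfC (piC [(nat_lit 35065580), (nat_lit 23751559), (nat_lit 17719570), (nat_lit 11940226)] (nat_lit 6931473)) p15_31_2 (nat_lit 4) (nat_lit 205) (nat_lit 206) = true := by decide +kernel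
def p15_31_2_206 : pfC (piC [(nat_lit 35065580), (nat_lit 23751559), (nat_lit 17719570), (nat_lit 11940226)] (nat_lit 6931473)) p15_31_2 (nat_lit 4) (nat_lit 206) (nat_lit 207) = true := by decide +kernel
def p15_31_2_207 : pfC (piC [(nat_lit 35065580), (nat_lit 23751559), (nat_lit 17719570), (nat_lit 11940226)] (nat_lit 6931473)) p15_31_2 (nat_lit 4) (nat_lit 207) (nat_lit 208) = true := by decide +kernel
def p15_31_2_208 : pfC (piC [(nat_lit 35065580), (nat_lit 23751559), (nat_lit 17719570), (nat_lit 11940226)] (nat_lit 6931473)) p15_31_2 (nat_lit 4) (nat_lit 208) (nat_lit 209) = true := by decide +kernel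
def p15_31_2_209 : pfC (piC [(nat_lit 35065580), (nat_lit 23751559), (nat_lit 17719570), (nat_lit 11940226)] (nat_lit 6931473)) p15_31_2 (nat_lit 4) (nat_lit 209) (nat_lit 210) = true := by decide +kernel
def p15_31_2_210 : pfC (piC [(nat_lit 35065580), (nat_lit 23751559), (nat_lit 17719570), (nat_lit 11940226)] (nat_lit 6931473)) p15_31_2 (nat_lit 4) (nat_lit 210) (nat_lit 211) = true := by decide +kernel
def p15_31_2_211 : pfC (piC [(nat_lit 35065580), (nat_lit 23751559), (nat_lit 17719570), (nat_lit 11940226)] (nat_lit 6931473)) p15_31_2 (nat_lit 4) (nat_lit 211) (nat_lit 212) = true := by decide +kernel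
def p15_31_2_212 : pfC (piC [(nat_lit 35065580), (nat_lit 23751559), (nat_lit 17719570), (nat_lit 11940226)] (nat_lit 6931473)) p15_31_2 (nat_lit 4) (nat_lit 212) (nat_lit 213) = true := by decide +kernel
def p15_31_2_213 : pfC (piC [(nat_lit 35065580), (nat_lit 23751559), (nat_lit 17719570), (nat_lit 11940226)] (nat_lit 6931473)) p15_31_2 (nat_lit 4) (nat_lit 213) (nat_lit 214) = true := by decide +kernel
def p15_31_2_214 : pfC (piC [(nat_lit 35065580), (nat_lit 23751559), (nat_lit 17719570), (nat_lit 11940226)] (nat_lit 6931473)) p15_31_2 (nat_lit 4) (nat_lit 214) (nat_lit 215) = true := by decide +kernel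
def p15_31_2_215 : pfC (piC [(nat_lit 35065580), (nat_lit 23751559), (nat_lit 17719570), (nat_lit 11940226)] (nat_lit 6931473)) p15_31_2 (nat_lit 4) (nat_lit 215) (nat_lit 216) = true := by decide +kernel
def p15_31_2_216 : pfC (piC [(nat_lit 35065580), (nat_lit 23751559), (nat_lit 17719570), (nat_lit 11940226)] (nat_lit 6931473)) p15_31_2 (nat_lit 4) (nat_lit 216) (nat_lit 217) = true := by decide +kernel
def p15_31_2_217 : pfC (piC [(nat_lit 35065580), (nat_lit 23751559), (nat_lit 17719570), (nat_lit 11940226)] (nat_lit 6931473)) p15_31_2 (nat_lit 4) (nat_lit 217) (nat_lit 218) = true := by decide +kernel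
def p15_31_2_218 : pfC (piC [(nat_lit 35065580), (nat_lit 23751559), (nat_lit 17719570), (nat_lit 11940226)] (nat_lit 6931473)) p15_31_2 (nat_lit 4) (nat_lit 218) (nat_lit 219) = true := by decide +kernel
def p15_31_2_219 : pfC (piC [(nat_lit 35065580), (nat_lit 23751559), (nat_lit 17719570), (nat_lit 11940226)] (nat_lit 6931473)) p15_31_2 (nat_lit 4) (nat_lit 219) (nat_lit 220) = true := by decide +kernel
def p15_31_2_220 : pfC (piC [(nat_lit 35065580), (nat_lit 23751559), (nat_lit 17719570), (nat_lit 11940226)] (nat_lit 6931473)) p15_31_2 (nat_lit 4) (nat_lit 220) (nat_lit 221) = true := by decide +kernel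
def p15_31_2_221 : pfC (piC [(nat_lit 35065580), (nat_lit 23751559), (nat_lit 17719570), (nat_lit 11940226)] (nat_lit 6931473)) p15_31_2 (nat_lit 4) (nat_lit 221) (nat_lit 222) = true := by decide +kernel
def p15_31_2_222 : pfC (piC [(nat_lit 35065580), (nat_lit 23751559), (nat_lit 17719570), (nat_lit 11940226)] (nat_lit 6931473)) p15_31_2 (nat_lit 4) (nat_lit 222) (nat_lit 223) = true := by decide +kernel
def p15_31_2_223 : pfC (piC [(nat_lit 35065580), (nat_lit 23751559), (nat_lit 17719570), (nat_lit 11940226)] (nat_lit 6931473)) p15_31_2 (nat_lit 4) (nat_lit 223) (nat_lit 224) = true := by decide +kernel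
def p15_31_2_224 : pfC (piC [(nat_lit 35065580), (nat_lit 23751559), (nat_lit 17719570), (nat_lit 11940226)] (nat_lit 6931473)) p15_31_2 (nat_lit 4) (nat_lit 224) (nat_lit 225) = true := by decide +kernel
def p15_31_2_225 : pfC (piC [(nat_lit 35065580), (nat_lit 23751559), (nat_lit 17719570), (nat_lit 11940226)] (nat_lit 6931473)) p15_31_2 (nat_lit 4) (nat_lit 225) (nat_lit 226) = true := by decide +kernel
def p15_31_2_226 : pfC (piC [(nat_lit 35065580), (nat_lit 23751559), (nat_lit 17719570), (nat_lit 11940226)] (nat_lit 6931473)) p15_31_2 (nat_lit 4) (nat_lit 226) (nat_lit 227) = true := by decide +kernel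
def p15_31_2_227 : pfC (piC [(nat_lit 35065580), (nat_lit 23751559), (nat_lit 17719570), (nat_lit 11940226)] (nat_lit 6931473)) p15_31_2 (nat_lit 4) (nat_lit 227) (nat_lit 228) = true := by decide +kernel
def p15_31_2_228 : pfC (piC [(nat_lit 35065580), (nat_lit 23751559), (nat_lit 17719570), (nat_lit 11940226)] (nat_lit 6931473)) p15_31_2 (nat_lit 4) (nat_lit 228) (nat_lit 229) = true := by decide +kernel
def p15_31_2_229 : pfC (piC [(nat_lit 35065580), (nat_lit 23751559), (nat_lit 17719570), (nat_lit 11940226)] (nat_lit 6931473)) p15_31_2 (nat_lit 4) (nat_lit 229) (nat_lit 230) = true := by decide +kernel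
def p15_31_2_230 : pfC (piC [(nat_lit 35065580), (nat_lit 23751559), (nat_lit 17719570), (nat_lit 11940226)] (nat_lit 6931473)) p15_31_2 (nat_lit 4) (nat_lit 230) (nat_lit 231) = true := by decide +kernel
def p15_31_2_231 : pfC (piC [(nat_lit 35065580), (nat_lit 23751559), (nat_lit 17719570), (nat_lit 11940226)] (nat_lit 6931473)) p15_31_2 (nat_lit 4) (nat_lit 231) (nat_lit 232) = true := by decide +kernel
def p15_31_2_232 : pfC (piC [(nat_lit 35065580), (nat_lit 23751559), (nat_lit 17719570), (nat_lit 11940226)] (nat_lit 6931473)) p15_31_2 (nat_lit 4) (nat_lit 232) (nat_lit 233) = true := by decide +kernel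
def p15_31_2_233 : pfC (piC [(nat_lit 35065580), (nat_lit 23751559), (nat_lit 17719570), (nat_lit 11940226)] (nat_lit 6931473)) p15_31_2 (nat_lit 4) (nat_lit 233) (nat_lit 234) = true := by decide +kernel
def p15_31_2_234 : pfC (piC [(nat_lit 35065580), (nat_lit 23751559), (nat_lit 17719570), (nat_lit 11940226)] (nat_lit 6931473)) p15_31_2 (nat_lit 4) (nat_lit 234) (nat_lit 235) = true := by decide +kernel
def p15_31_2_235 : pfC (piC [(nat_lit 35065580), (nat_lit 23751559), (nat_lit 17719570), (nat_lit 11940226)] (nat_lit 6931473)) p15_31_2 (nat_lit 4) (nat_lit 235) (nat_lit 236) = true := by decide +kernel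
def p15_31_2_236 : pfC (piC [(nat_lit 35065580), (nat_lit 23751559), (nat_lit 17719570), (nat_lit 11940226)] (nat_lit 6931473)) p15_31_2 (nat_lit 4) (nat_lit 236) (nat_lit 237) = true := by decide +kernel
def p15_31_2_237 : pfC (piC [(nat_lit 35065580), (nat_lit 23751559), (nat_lit 17719570), (nat_lit 11940226)] (nat_lit 6931473)) p15_31_2 (nat_lit 4) (nat_lit 237) (nat_lit 238) = true := by decide +kernel
def p15_31_2_238 : pfC (piC [(nat_lit 35065580), (nat_lit 23751559), (nat_lit 17719570), (nat_lit 11940226)] (nat_lit 6931473)) p15_31_2 (nat_lit 4) (nat_lit 238) (nat_lit 239) = true := by decide +kernel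
def p15_31_2_239 : pfC (piC [(nat_lit 35065580), (nat_lit 23751559), (nat_lit 17719570), (nat_lit 11940226)] (nat_lit 6931473)) p15_31_2 (nat_lit 4) (nat_lit 239) (nat_lit 240) = true := by decide +kernel
def p15_31_2_240 : pfC (piC [(nat_lit 35065580), (nat_lit 23751559), (nat_lit 17719570), (nat_lit 11940226)] (nat_lit 6931473)) p15_31_2 (nat_lit 4) (nat_lit 240) (nat_lit 241) = true := by decide +kernel
def p15_31_2_241 : pfC (piC [(nat_lit 35065580), (nat_lit 23751559), (nat_lit 17719570), (nat_lit 11940226)] (nat_lit 6931473)) p15_31_2 (nat_lit 4) (nat_lit 241) (nat_lit 242) = true := by decide +kernel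
theorem p15_31_2_T : PfS (PiF n15_31.reverse (nat_lit 6931473)) p15_31_2 (nat_lit 4) [] 0 :=
  pftab_of (los := [(nat_lit 35065580), (nat_lit 23751559), (nat_lit 17719570), (nat_lit 11940226)]) (by decide +kernel) (hi := (nat_lit 242)) (PfP.trans (PfP.trans (PfP.trans (PfP.trans (PfP.trans (PfP.trans (PfP.trans (PfP.trans (PfP.trans (PfP.trans (PfP.trans (PfP.trans (PfP.trans (PfP.trans (PfP.trans (PfP.trans (PfP.trans (PfP.trans (PfP.trans (PfP.trans (PfP.trans (PfP.trans (PfP.trans (PfP.trans (PfP.trans (PfP.trans (PfP.trans (PfP.trans (PfP.trans (PfP.trans (PfP.trans (PfP.trans (PfP.trans (PfP.trans (PfP.trans (PfP.trans (PfP.trans (PfP.trans (PfP.trans (PfP.trans (PfP.trans (PfP.trans (PfP.trans (PfP.trans (PfP.trans (PfP.trans (PfP.trans (PfP.trans (PfP.trans (PfP.trans (PfP.trans (PfP.trans (PfP.trans (PfP.trans (PfP.trans (PfP.trans (PfP.trans (PfP.trans (PfP.trans (PfP.trans (PfP.trans (PfP.trans (PfP.trans (PfP.trans (PfP.trans (PfP.trans (PfP.trans (PfP.trans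 (PfP.trans (PfP.trans (PfP.trans (PfP.trans (PfP.trans (PfP.trans (PfP.trans (PfP.trans (PfP.trans (PfP.trans (PfP.trans (PfP.trans (PfP.trans (PfP.trans (PfP.trans (PfP.trans (PfP.trans (PfP.trans (PfP.trans (PfP.trans (PfP.trans (PfP.trans (PfP.trans (PfP.trans (PfP.trans (PfP.trans (PfP.trans (PfP.trans (PfP.trans (PfP.trans (PfP.trans (PfP.trans (PfP.trans (PfP.trans (PfP.trans (PfP.trans (PfP.trans (PfP.trans (PfP.trans (PfP.trans (PfP.trans
 (PfP.trans (PfP.trans (PfP.trans (PfP.trans (PfP.trans (PfP.trans (PfP.trans (PfP.trans (PfP.trans (PfP.trans (PfP.trans (PfP.trans (PfP.trans (PfP.trans (PfP.trans (PfP.trans (PfP.trans (PfP.trans (PfP.trans (PfP.trans (PfP.trans (PfP.trans (PfP.trans (PfP.trans (PfP.trans (PfP.trans (PfP.trans (PfP.trans (PfP.trans (PfP.trans (PfP.trans (PfP.trans (PfP.trans (PfP.trans (PfP.trans (PfP.trans (PfP.trans (PfP.trans (PfP.trans (PfP.trans (PfP.trans (PfP.trans (PfP.trans (PfP.trans (PfP.trans (PfP.trans (PfP.trans (PfP.trans (PfP.trans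 (PfP.trans (PfP.trans (PfP.trans (PfP.trans (PfP.trans (PfP.trans (PfP.trans (PfP.trans (PfP.trans (PfP.trans (PfP.trans (PfP.trans (PfP.trans (PfP.trans (PfP.trans (PfP.trans (PfP.trans (PfP.trans (PfP.trans (PfP.trans (PfP.trans (PfP.trans (PfP.trans (PfP.trans (PfP.trans (PfP.trans (PfP.trans (PfP.trans (PfP.trans (PfP.trans (PfP.trans (PfP.trans (PfP.trans (PfP.trans (PfP.trans (PfP.trans (PfP.trans (PfP.trans (PfP.trans (PfP.trans (PfP.trans (PfP.trans (PfP.trans (PfP.trans (PfP.trans (PfP.trans (PfP.trans (PfP.trans (PfP.trans (PfP.trans (PfP.trans (PfP.trans (PfP.trans (PfP.trans (PfP.trans (PfP.trans (PfP.trans (PfP.trans (PfP.trans (PfP.trans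
 (PfP.trans (PfP.trans (PfP.trans (PfP.trans (PfP.trans (PfP.trans (PfP.trans (PfP.trans (PfP.trans (PfP.trans (PfP.trans (PfP.trans (PfP.trans (PfP.trans (PfP.trans (PfP.trans (PfP.trans (PfP.trans (PfP.trans (PfP.trans (PfP.trans (PfP.trans (PfP.trans (pfC_sound p15_31_2_0) (pfC_sound p15_31_2_1)) (pfC_sound p15_31_2_2)) (pfC_sound p15_31_2_3)) (pfC_sound p15_31_2_4)) (pfC_sound p15_31_2_5)) (pfC_sound p15_31_2_6)) (pfC_sound p15_31_2_7)) (pfC_sound p15_31_2_8)) (pfC_sound p15_31_2_9)) (pfC_sound p15_31_2_10)) (pfC_sound p15_31_2_11)) (pfC_sound p15_31_2_12)) (pfC_sound p15_31_2_13)) (pfC_sound p15_31_2_14)) (pfC_sound p15_31_2_15)) (pfC_sound p15_31_2_16)) (pfC_sound p15_31_2_17)) (pfC_sound p15_31_2_18)) (pfC_sound p15_31_2_19)) (pfC_sound p15_31_2_20)) (pfC_sound p15_31_2_21)) (pfC_sound p15_31_2_22)) (pfC_sound p15_31_2_23)) (pfC_sound p15_31_2_24)) (pfC_sound p15_31_2_25)) (pfC_sound p15_31_2_26)) (pfC_sound p15_31_2_27)) (pfC_sound p15_31_2_28)) (pfC_sound p15_31_2_29))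 (pfC_sound p15_31_2_30)) (pfC_sound p15_31_2_31)) (pfC_sound p15_31_2_32)) (pfC_sound p15_31_2_33)) (pfC_sound p15_31_2_34)) (pfC_sound p15_31_2_35)) (pfC_sound p15_31_2_36)) (pfC_sound p15_31_2_37))
 (pfC_sound p15_31_2_38)) (pfC_sound p15_31_2_39)) (pfC_sound p15_31_2_40)) (pfC_sound p15_31_2_41)) (pfC_sound p15_31_2_42)) (pfC_sound p15_31_2_43)) (pfC_sound p15_31_2_44)) (pfC_sound p15_31_2_45)) (pfC_sound p15_31_2_46)) (pfC_sound p15_31_2_47)) (pfC_sound p15_31_2_48)) (pfC_sound p15_31_2_49)) (pfC_sound p15_31_2_50)) (pfC_sound p15_31_2_51)) (pfC_sound p15_31_2_52)) (pfC_sound p15_31_2_53)) (pfC_sound p15_31_2_54)) (pfC_sound p15_31_2_55)) (pfC_sound p15_31_2_56)) (pfC_sound p15_31_2_57)) (pfC_sound p15_31_2_58)) (pfC_sound p15_31_2_59)) (pfC_sound p15_31_2_60)) (pfC_sound p15_31_2_61)) (pfC_sound p15_31_2_62)) (pfC_sound p15_31_2_63)) (pfC_sound p15_31_2_64)) (pfC_sound p15_31_2_65)) (pfC_sound p15_31_2_66)) (pfC_sound p15_31_2_67)) (pfC_sound p15_31_2_68)) (pfC_sound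 p15_31_2_69)) (pfC_sound p15_31_2_70)) (pfC_sound p15_31_2_71)) (pfC_sound p15_31_2_72)) (pfC_sound p15_31_2_73)) (pfC_sound p15_31_2_74)) (pfC_sound p15_31_2_75)) (pfC_sound p15_31_2_76)) (pfC_sound p15_31_2_77)) (pfC_sound p15_31_2_78)) (pfC_sound p15_31_2_79)) (pfC_sound p15_31_2_80)) (pfC_sound p15_31_2_81)) (pfC_sound p15_31_2_82)) (pfC_sound p15_31_2_83)) (pfC_sound p15_31_2_84)) (pfC_sound p15_31_2_85))
 (pfC_sound p15_31_2_86)) (pfC_sound p15_31_2_87)) (pfC_sound p15_31_2_88)) (pfC_sound p15_31_2_89)) (pfC_sound p15_31_2_90)) (pfC_sound p15_31_2_91)) (pfC_sound p15_31_2_92)) (pfC_sound p15_31_2_93)) (pfC_sound p15_31_2_94)) (pfC_sound p15_31_2_95)) (pfC_sound p15_31_2_96)) (pfC_sound p15_31_2_97)) (pfC_sound p15_31_2_98)) (pfC_sound p15_31_2_99)) (pfC_sound p15_31_2_100)) (pfC_sound p15_31_2_101)) (pfC_sound p15_31_2_102)) (pfC_sound p15_31_2_103)) (pfC_sound p15_31_2_104)) (pfC_sound p15_31_2_105)) (pfC_sound p15_31_2_106)) (pfC_sound p15_31_2_107)) (pfC_sound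 p15_31_2_108)) (pfC_sound p15_31_2_109)) (pfC_sound p15_31_2_110)) (pfC_sound p15_31_2_111)) (pfC_sound p15_31_2_112)) (pfC_sound p15_31_2_113)) (pfC_sound p15_31_2_114)) (pfC_sound p15_31_2_115)) (pfC_sound p15_31_2_116)) (pfC_sound p15_31_2_117)) (pfC_sound p15_31_2_118)) (pfC_sound p15_31_2_119)) (pfC_sound p15_31_2_120)) (pfC_sound p15_31_2_121)) (pfC_sound p15_31_2_122)) (pfC_sound p15_31_2_123)) (pfC_sound p15_31_2_124)) (pfC_sound p15_31_2_125)) (pfC_sound p15_31_2_126)) (pfC_sound p15_31_2_127)) (pfC_sound p15_31_2_128)) (pfC_sound p15_31_2_129)) (pfC_sound p15_31_2_130)) (pfC_sound p15_31_2_131)) (pfC_sound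
 p15_31_2_132)) (pfC_sound p15_31_2_133)) (pfC_sound p15_31_2_134)) (pfC_sound p15_31_2_135)) (pfC_sound p15_31_2_136)) (pfC_sound p15_31_2_137)) (pfC_sound p15_31_2_138)) (pfC_sound p15_31_2_139)) (pfC_sound p15_31_2_140)) (pfC_sound p15_31_2_141)) (pfC_sound p15_31_2_142)) (pfC_sound p15_31_2_143)) (pfC_sound p15_31_2_144)) (pfC_sound p15_31_2_145)) (pfC_sound p15_31_2_146)) (pfC_sound p15_31_2_147)) (pfC_sound p15_31_2_148)) (pfC_sound p15_31_2_149)) (pfC_sound p15_31_2_150)) (pfC_sound p15_31_2_151)) (pfC_sound p15_31_2_152)) (pfC_sound p15_31_2_153)) (pfC_sound p15_31_2_154)) (pfC_sound p15_31_2_155)) (pfC_sound p15_31_2_156)) (pfC_sound p15_31_2_157)) (pfC_sound p15_31_2_158)) (pfC_sound p15_31_2_159)) (pfC_sound p15_31_2_160)) (pfC_sound p15_31_2_161)) (pfC_sound p15_31_2_162)) (pfC_sound p15_31_2_163)) (pfC_sound p15_31_2_164)) (pfC_sound p15_31_2_165)) (pfC_sound p15_31_2_166)) (pfC_sound p15_31_2_167)) (pfC_sound p15_31_2_168)) (pfC_sound p15_31_2_169)) (pfC_sound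 p15_31_2_170)) (pfC_sound p15_31_2_171)) (pfC_sound p15_31_2_172)) (pfC_sound p15_31_2_173)) (pfC_sound p15_31_2_174)) (pfC_sound p15_31_2_175)) (pfC_sound p15_31_2_176)) (pfC_sound p15_31_2_177)) (pfC_sound
 p15_31_2_178)) (pfC_sound p15_31_2_179)) (pfC_sound p15_31_2_180)) (pfC_sound p15_31_2_181)) (pfC_sound p15_31_2_182)) (pfC_sound p15_31_2_183)) (pfC_sound p15_31_2_184)) (pfC_sound p15_31_2_185)) (pfC_sound p15_31_2_186)) (pfC_sound p15_31_2_187)) (pfC_sound p15_31_2_188)) (pfC_sound p15_31_2_189)) (pfC_sound p15_31_2_190)) (pfC_sound p15_31_2_191)) (pfC_sound p15_31_2_192)) (pfC_sound p15_31_2_193)) (pfC_sound p15_31_2_194)) (pfC_sound p15_31_2_195)) (pfC_sound p15_31_2_196)) (pfC_sound p15_31_2_197)) (pfC_sound p15_31_2_198)) (pfC_sound p15_31_2_199)) (pfC_sound p15_31_2_200)) (pfC_sound p15_31_2_201)) (pfC_sound p15_31_2_202)) (pfC_sound p15_31_2_203)) (pfC_sound p15_31_2_204)) (pfC_sound p15_31_2_205)) (pfC_sound p15_31_2_206)) (pfC_sound p15_31_2_207)) (pfC_sound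 p15_31_2_208)) (pfC_sound p15_31_2_209)) (pfC_sound p15_31_2_210)) (pfC_sound p15_31_2_211)) (pfC_sound p15_31_2_212)) (pfC_sound p15_31_2_213)) (pfC_sound p15_31_2_214)) (pfC_sound p15_31_2_215)) (pfC_sound p15_31_2_216)) (pfC_sound p15_31_2_217)) (pfC_sound p15_31_2_218)) (pfC_sound p15_31_2_219)) (pfC_sound p15_31_2_220)) (pfC_sound p15_31_2_221)) (pfC_sound p15_31_2_222)) (pfC_sound p15_31_2_223)) (pfC_sound
 p15_31_2_224)) (pfC_sound p15_31_2_225)) (pfC_sound p15_31_2_226)) (pfC_sound p15_31_2_227)) (pfC_sound p15_31_2_228)) (pfC_sound p15_31_2_229)) (pfC_sound p15_31_2_230)) (pfC_sound p15_31_2_231)) (pfC_sound p15_31_2_232)) (pfC_sound p15_31_2_233)) (pfC_sound p15_31_2_234)) (pfC_sound p15_31_2_235)) (pfC_sound p15_31_2_236)) (pfC_sound p15_31_2_237)) (pfC_sound p15_31_2_238)) (pfC_sound p15_31_2_239)) (pfC_sound p15_31_2_240)) (pfC_sound p15_31_2_241)) (by decide +kernel)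

def z15_31_2 : zOK yB15_31 (nat_lit 2) (nat_lit 600) (nat_lit 750) (nat_lit 6931473) (nat_lit 5058382) = true := by decide +kernel
def g15_31_2 : gOK yB15_31.x P15_31 (nat_lit 1399) (q15_31 :: r15_31) (nat_lit 2) (nat_lit 600) (nat_lit 3) (nat_lit 750) (nat_lit 12712500) (nat_lit 12712500) (nat_lit 12712500) (nat_lit 12712500) [(nat_lit 800)] = true := by decide +kernel
def p15_31_3 : PF := (PF.cons (PF.cons (PF.cons (PF.cons (PF.leaf (nat_lit 2918890) (nat_lit 18154472) (nat_lit 48954340) (nat_lit 18154472) [(nat_lit 0), (nat_lit 0), (nat_lit 0), (nat_lit 0)]) (PF.cons (PF.leaf (nat_lit 3144747) (nat_lit 428169) (nat_lit 48577883) (nat_lit 18102759) [(nat_lit 428169), (nat_lit 0), (nat_lit 0), (nat_lit 0)]) (PF.cons (PF.leaf (nat_lit 3409102) (nat_lit 463898) (nat_lit 48140814) (nat_lit 18040201) [(nat_lit 463898), (nat_lit 0), (nat_lit 0), (nat_lit 0)]) (PF.cons (PF.leaf (nat_lit 3704020) (nat_lit 494946) (nat_lit 47656197) (nat_lit 17967777) [(nat_lit 494946), (nat_lit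 0), (nat_lit 0), (nat_lit 0)]) (PF.cons (PF.leaf (nat_lit 4024227) (nat_lit 522293) (nat_lit 47133481) (nat_lit 17886155) [(nat_lit 522293), (nat_lit 0), (nat_lit 0), (nat_lit 0)]) (PF.cons (PF.leaf (nat_lit 4365655) (nat_lit 546579) (nat_lit 46580035) (nat_lit 17795880) [(nat_lit 546579), (nat_lit 0), (nat_lit 0), (nat_lit 0)]) (PF.cons (PF.leaf (nat_lit 4724947) (nat_lit 568248) (nat_lit 46001875) (nat_lit 17697447) [(nat_lit 568248), (nat_lit 0), (nat_lit 0), (nat_lit 0)]) (PF.cons (PF.leaf (nat_lit 5099260) (nat_lit 587632) (nat_lit 45404043) (nat_lit 17591343) [(nat_lit 587632), (nat_lit 0),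
 (nat_lit 0), (nat_lit 0)]) (PF.cons (PF.leaf (nat_lit 5486153) (nat_lit 604988) (nat_lit 44790849) (nat_lit 17478058) [(nat_lit 604988), (nat_lit 0), (nat_lit 0), (nat_lit 0)]) (PF.cons (PF.leaf (nat_lit 5883490) (nat_lit 620523) (nat_lit 44166008) (nat_lit 17358092) [(nat_lit 620523), (nat_lit 0), (nat_lit 0), (nat_lit 0)]) (PF.cons (PF.leaf (nat_lit 6289368) (nat_lit 634410) (nat_lit 43532752) (nat_lit 17231951) [(nat_lit 634410), (nat_lit 0), (nat_lit 0), (nat_lit 0)]) (PF.cons PF.nil (PF.cons PF.nil (PF.cons PF.nil PF.nil)))))))))))))) (PF.cons (PF.cons (PF.leaf (nat_lit 3544308) (nat_lit 1567455) (nat_lit 47588875) (nat_lit 17952482) [(nat_lit 0), (nat_lit 1567455), (nat_lit 0), (nat_lit 0)]) (PF.cons (PF.leaf (nat_lit 3826213) (nat_lit 500896) (nat_lit 47119448) (nat_lit 17878884) [(nat_lit 500896), (nat_lit 1609582), (nat_lit 0), (nat_lit 0)]) (PF.cons (PF.leaf (nat_lit 4135985) (nat_lit 527555) (nat_lit 46608983) (nat_lit 17795637) [(nat_lit 527555), (nat_lit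 1649080), (nat_lit 0), (nat_lit 0)]) (PF.cons (PF.leaf (nat_lit 4468287) (nat_lit 551143) (nat_lit 46066329) (nat_lit 17703553) [(nat_lit 551143), (nat_lit 1685499), (nat_lit 0), (nat_lit 0)]) (PF.cons (PF.leaf
 (nat_lit 4819295) (nat_lit 572142) (nat_lit 45498249) (nat_lit 17603285) [(nat_lit 572142), (nat_lit 1718707), (nat_lit 0), (nat_lit 0)]) (PF.cons (PF.leaf (nat_lit 5185931) (nat_lit 590896) (nat_lit 44910186) (nat_lit 17495416) [(nat_lit 590896), (nat_lit 1748727), (nat_lit 0), (nat_lit 0)]) (PF.cons (PF.leaf (nat_lit 5565568) (nat_lit 607666) (nat_lit 44306662) (nat_lit 17380497) [(nat_lit 607666), (nat_lit 1775655), (nat_lit 0), (nat_lit 0)]) (PF.cons (PF.leaf (nat_lit 5955957) (nat_lit 622659) (nat_lit 43691504) (nat_lit 17259066) [(nat_lit 622659), (nat_lit 1799624), (nat_lit 0), (nat_lit 0)]) (PF.cons (PF.leaf (nat_lit 6355162) (nat_lit 636047) (nat_lit 43067995) (nat_lit 17131654) [(nat_lit 636047), (nat_lit 1820786), (nat_lit 0), (nat_lit 0)]) (PF.cons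 (PF.leaf (nat_lit 6761423) (nat_lit 647973) (nat_lit 42438969) (nat_lit 16998785) [(nat_lit 647973), (nat_lit 1839298), (nat_lit 0), (nat_lit 0)]) (PF.cons PF.nil (PF.cons PF.nil PF.nil)))))))))))) (PF.cons (PF.cons (PF.leaf (nat_lit 4251935) (nat_lit 1667412) (nat_lit 46074058) (nat_lit 17699928) [(nat_lit 0), (nat_lit 1667412), (nat_lit 0), (nat_lit 0)]) (PF.cons (PF.leaf (nat_lit 4573132) (nat_lit 554677) (nat_lit
 45546135) (nat_lit 17606922) [(nat_lit 554677), (nat_lit 1700538), (nat_lit 0), (nat_lit 0)]) (PF.cons (PF.leaf (nat_lit 4914787) (nat_lit 575205) (nat_lit 44990894) (nat_lit 17505510) [(nat_lit 575205), (nat_lit 1730998), (nat_lit 0), (nat_lit 0)]) (PF.cons (PF.leaf (nat_lit 5272993) (nat_lit 593471) (nat_lit 44414612) (nat_lit 17396440) [(nat_lit 593471), (nat_lit 1758671), (nat_lit 0), (nat_lit 0)]) (PF.cons (PF.leaf (nat_lit 5644861) (nat_lit 609763) (nat_lit 43822268) (nat_lit 17280362) [(nat_lit 609763), (nat_lit 1783564), (nat_lit 0), (nat_lit 0)])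 (PF.cons (PF.leaf (nat_lit 6027965) (nat_lit 624298) (nat_lit 43217947) (nat_lit 17157875) [(nat_lit 624298), (nat_lit 1805748), (nat_lit 0), (nat_lit 0)]) (PF.cons (PF.leaf (nat_lit 6420235) (nat_lit 637253) (nat_lit 42605076) (nat_lit 17029547) [(nat_lit 637253), (nat_lit 1825332), (nat_lit 0), (nat_lit 0)]) (PF.cons (PF.leaf (nat_lit 6819885) (nat_lit 648775) (nat_lit 41986570) (nat_lit 16895927) [(nat_lit 648775), (nat_lit 1842443), (nat_lit 0), (nat_lit 0)]) (PF.cons PF.nil (PF.cons PF.nil PF.nil)))))))))) (PF.cons (PF.cons (PF.leaf (nat_lit 5012973) (nat_lit 1742147) (nat_lit 44478491) (nat_lit 17403878) [(nat_lit 0),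
 (nat_lit 1742147), (nat_lit 0), (nat_lit 0)]) (PF.cons (PF.leaf (nat_lit 5361412) (nat_lit 595331) (nat_lit 43916466) (nat_lit 17294279) [(nat_lit 595331), (nat_lit 1767578), (nat_lit 0), (nat_lit 0)]) (PF.cons (PF.leaf (nat_lit 5724774) (nat_lit 611265) (nat_lit 43337085) (nat_lit 17177583) [(nat_lit 611265), (nat_lit 1790537), (nat_lit 0), (nat_lit 0)]) (PF.cons (PF.leaf (nat_lit 6100083) (nat_lit 625433) (nat_lit 42744922) (nat_lit 17054490) [(nat_lit 625433), (nat_lit 1811032), (nat_lit 0), (nat_lit 0)]) (PF.cons (PF.leaf (nat_lit 6485080) (nat_lit 638028) (nat_lit 42143688) (nat_lit 16925630) [(nat_lit 638028), (nat_lit 1829126), (nat_lit 0), (nat_lit 0)]) (PF.cons (PF.leaf (nat_lit 6877869) (nat_lit 649204) (nat_lit 41536463) (nat_lit 16791588) [(nat_lit 649204), (nat_lit 1844913), (nat_lit 0), (nat_lit 0)]) (PF.cons (PF.leaf (nat_lit 7276778) (nat_lit 659090) (nat_lit 40925841) (nat_lit 16652915) [(nat_lit 659090), (nat_lit 1858503), (nat_lit 0), (nat_lit 0)])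 (PF.cons PF.nil (PF.cons PF.nil PF.nil))))))))) (PF.cons (PF.cons (PF.leaf (nat_lit 5806460) (nat_lit 1796646) (nat_lit 42850217) (nat_lit 17072009) [(nat_lit 0), (nat_lit 1796646), (nat_lit 0), (nat_lit 0)]) (PF.cons
 (PF.leaf (nat_lit 6173023) (nat_lit 626046) (nat_lit 42271811) (nat_lit 16948827) [(nat_lit 626046), (nat_lit 1815531), (nat_lit 0), (nat_lit 0)]) (PF.cons (PF.leaf (nat_lit 6550248) (nat_lit 638361) (nat_lit 41683382) (nat_lit 16819860) [(nat_lit 638361), (nat_lit 1832211), (nat_lit 0), (nat_lit 0)]) (PF.cons (PF.leaf (nat_lit 6935824) (nat_lit 649254) (nat_lit 41088310) (nat_lit 16685753) [(nat_lit 649254), (nat_lit 1846746), (nat_lit 0), (nat_lit 0)]) (PF.cons (PF.leaf (nat_lit 7327959) (nat_lit 658864) (nat_lit 40489368) (nat_lit 16547095) [(nat_lit 658864), (nat_lit 1859223), (nat_lit 0), (nat_lit 0)]) (PF.cons PF.nil (PF.cons PF.nil PF.nil))))))) (PF.cons (PF.cons (PF.leaf (nat_lit 6616613) (nat_lit 1834630) (nat_lit 41223519) (nat_lit 16712139) [(nat_lit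 0), (nat_lit 1834630), (nat_lit 0), (nat_lit 0)]) (PF.cons (PF.leaf (nat_lit 6994281) (nat_lit 648912) (nat_lit 40641642) (nat_lit 16578366) [(nat_lit 648912), (nat_lit 1847978), (nat_lit 0), (nat_lit 0)]) (PF.cons (PF.leaf (nat_lit 7379298) (nat_lit 658302) (nat_lit 40055148) (nat_lit 16440054) [(nat_lit 658302), (nat_lit 1859400), (nat_lit 0), (nat_lit 0)]) (PF.cons (PF.leaf (nat_lit 7769825) (nat_lit 666528) (nat_lit
 39466542) (nat_lit 16297788) [(nat_lit 666528), (nat_lit 1868979), (nat_lit 0), (nat_lit 0)]) (PF.cons PF.nil PF.nil))))) (PF.cons (PF.cons (PF.leaf (nat_lit 7431489) (nat_lit 1859063) (nat_lit 39622702) (nat_lit 16331727) [(nat_lit 0), (nat_lit 1859063), (nat_lit 0), (nat_lit 0)]) (PF.cons (PF.leaf (nat_lit 7814836) (nat_lit 665450) (nat_lit 39046665) (nat_lit 16190164) [(nat_lit 665450), (nat_lit 1867755), (nat_lit 0), (nat_lit 0)]) (PF.cons PF.nil (PF.cons PF.nil PF.nil)))) (PF.cons (PF.cons (PF.leaf (nat_lit 8242114) (nat_lit 1872380) (nat_lit 38064614)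 (nat_lit 15937531) [(nat_lit 0), (nat_lit 1872380), (nat_lit 0), (nat_lit 0)]) (PF.cons PF.nil PF.nil)) (PF.cons PF.nil PF.nil))))))))) (PF.cons (PF.cons (PF.cons (PF.leaf (nat_lit 4088980) (nat_lit 3768484) (nat_lit 45723453) (nat_lit 17616874) [(nat_lit 0), (nat_lit 0), (nat_lit 3768484), (nat_lit 0)]) (PF.cons (PF.leaf (nat_lit 4378427) (nat_lit 526795) (nat_lit 45251018) (nat_lit 17532331) [(nat_lit 526795), (nat_lit 0), (nat_lit 3798667), (nat_lit 0)]) (PF.cons (PF.leaf (nat_lit 4693732) (nat_lit 550892) (nat_lit 44741727) (nat_lit 17438225) [(nat_lit 550892), (nat_lit 0), (nat_lit 3827074), (nat_lit 0)]) (PF.cons (PF.leaf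
 (nat_lit 5029500) (nat_lit 571923) (nat_lit 44204425) (nat_lit 17335673) [(nat_lit 571923), (nat_lit 0), (nat_lit 3852943), (nat_lit 0)]) (PF.cons (PF.leaf (nat_lit 5381989) (nat_lit 590435) (nat_lit 43645677) (nat_lit 17225539) [(nat_lit 590435), (nat_lit 0), (nat_lit 3875854), (nat_lit 0)]) (PF.cons (PF.leaf (nat_lit 5748197) (nat_lit 606806) (nat_lit 43070633) (nat_lit 17108548) [(nat_lit 606806), (nat_lit 0), (nat_lit 3895598), (nat_lit 0)]) (PF.cons (PF.leaf (nat_lit 6125660) (nat_lit 621314) (nat_lit 42483475) (nat_lit 16985349) [(nat_lit 621314), (nat_lit 0), (nat_lit 3912098), (nat_lit 0)]) (PF.cons (PF.leaf (nat_lit 6512300) (nat_lit 634175) (nat_lit 41887677) (nat_lit 16856540) [(nat_lit 634175), (nat_lit 0), (nat_lit 3925367), (nat_lit 0)]) (PF.cons (PF.leaf (nat_lit 6906285) (nat_lit 645560) (nat_lit 41286168) (nat_lit 16722684) [(nat_lit 645560), (nat_lit 0), (nat_lit 3935474), (nat_lit 0)]) (PF.cons PF.nil (PF.cons PF.nil (PF.cons PF.nil PF.nil))))))))))))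 (PF.cons (PF.cons (PF.leaf (nat_lit 4801226) (nat_lit 1712021) (nat_lit 44222026) (nat_lit 17334365) [(nat_lit 0), (nat_lit 1712021), (nat_lit 3840399), (nat_lit 0)]) (PF.cons (PF.leaf (nat_lit 5125426) (nat_lit
 573485) (nat_lit 43701518) (nat_lit 17232010) [(nat_lit 573485), (nat_lit 1739047), (nat_lit 3862750), (nat_lit 0)]) (PF.cons (PF.leaf (nat_lit 5468234) (nat_lit 591767) (nat_lit 43157304) (nat_lit 17121759) [(nat_lit 591767), (nat_lit 1763636), (nat_lit 3882578), (nat_lit 0)]) (PF.cons (PF.leaf (nat_lit 5825847) (nat_lit 607851) (nat_lit 42595417) (nat_lit 17004519) [(nat_lit 607851), (nat_lit 1785728), (nat_lit 3899592), (nat_lit 0)]) (PF.cons (PF.leaf (nat_lit 6195472) (nat_lit 622051) (nat_lit 42020540) (nat_lit 16881046) [(nat_lit 622051), (nat_lit 1805358), (nat_lit 3913661), (nat_lit 0)]) (PF.cons (PF.leaf (nat_lit 6574843) (nat_lit 634600) (nat_lit 41436438) (nat_lit 16752003) [(nat_lit 634600), (nat_lit 1822610), (nat_lit 3924756), (nat_lit 0)]) (PF.cons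 (PF.leaf (nat_lit 6962001) (nat_lit 645682) (nat_lit 40846215) (nat_lit 16617996) [(nat_lit 645682), (nat_lit 1837591), (nat_lit 3932916), (nat_lit 0)]) (PF.cons (PF.leaf (nat_lit 7355304) (nat_lit 655444) (nat_lit 40252468) (nat_lit 16479583) [(nat_lit 655444), (nat_lit 1850421), (nat_lit 3938225), (nat_lit 0)]) (PF.cons PF.nil (PF.cons PF.nil PF.nil)))))))))) (PF.cons (PF.cons (PF.leaf (nat_lit 5557545) (nat_lit
 1770604) (nat_lit 42665164) (nat_lit 17014708) [(nat_lit 0), (nat_lit 1770604), (nat_lit 3887730), (nat_lit 0)]) (PF.cons (PF.leaf (nat_lit 5905235) (nat_lit 608268) (nat_lit 42118631) (nat_lit 16897864) [(nat_lit 608268), (nat_lit 1790941), (nat_lit 3902164), (nat_lit 0)]) (PF.cons (PF.leaf (nat_lit 6266289) (nat_lit 622271) (nat_lit 41557588) (nat_lit 16774624) [(nat_lit 622271), (nat_lit 1809056), (nat_lit 3913945), (nat_lit 0)]) (PF.cons (PF.leaf (nat_lit 6637879) (nat_lit 634592) (nat_lit 40986313) (nat_lit 16645762) [(nat_lit 634592), (nat_lit 1824980),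 (nat_lit 3922999), (nat_lit 0)]) (PF.cons (PF.leaf (nat_lit 7017851) (nat_lit 645433) (nat_lit 40408215) (nat_lit 16511947) [(nat_lit 645433), (nat_lit 1838789), (nat_lit 3929335), (nat_lit 0)]) (PF.cons (PF.leaf (nat_lit 7404430) (nat_lit 654957) (nat_lit 39826080) (nat_lit 16373779) [(nat_lit 654957), (nat_lit 1850577), (nat_lit 3933010), (nat_lit 0)]) (PF.cons PF.nil (PF.cons PF.nil (PF.cons PF.nil PF.nil))))))))) (PF.cons (PF.cons (PF.leaf (nat_lit 6339202) (nat_lit 1812066) (nat_lit 41093694) (nat_lit 16665909) [(nat_lit 0), (nat_lit 1812066), (nat_lit 3913009), (nat_lit 0)]) (PF.cons (PF.leaf (nat_lit 6702068) (nat_lit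
 634123) (nat_lit 40536653) (nat_lit 16537707) [(nat_lit 634123), (nat_lit 1826726), (nat_lit 3920149), (nat_lit 0)]) (PF.cons (PF.leaf (nat_lit 7074358) (nat_lit 644800) (nat_lit 39971692) (nat_lit 16404472) [(nat_lit 644800), (nat_lit 1839423), (nat_lit 3924777), (nat_lit 0)]) (PF.cons (PF.leaf (nat_lit 7453865) (nat_lit 654142) (nat_lit 39401910) (nat_lit 16266868) [(nat_lit 654142), (nat_lit 1850227), (nat_lit 3926926), (nat_lit 0)]) (PF.cons (PF.leaf (nat_lit 7838937) (nat_lit 662292) (nat_lit 38829811) (nat_lit 16125486) [(nat_lit 662292), (nat_lit 1859224), (nat_lit 3926669), (nat_lit 0)]) (PF.cons PF.nil (PF.cons PF.nil PF.nil))))))) (PF.cons (PF.cons (PF.leaf (nat_lit 7132353) (nat_lit 1839522) (nat_lit 39535992) (nat_lit 16295452) [(nat_lit 0), (nat_lit 1839522), (nat_lit 3919279), (nat_lit 0)]) (PF.cons (PF.leaf (nat_lit 7504098) (nat_lit 652983) (nat_lit 38979473) (nat_lit 16158776) [(nat_lit 652983), (nat_lit 1849393), (nat_lit 3920005), (nat_lit 0)]) (PF.cons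 (PF.leaf (nat_lit 7882237) (nat_lit 660999) (nat_lit 38419797) (nat_lit 16018280) [(nat_lit 660999), (nat_lit 1857564), (nat_lit 3918478), (nat_lit 0)]) (PF.cons PF.nil (PF.cons PF.nil PF.nil))))) (PF.cons
 (PF.cons (PF.leaf (nat_lit 7926654) (nat_lit 1855488) (nat_lit 38011692) (nat_lit 15910105) [(nat_lit 0), (nat_lit 1855488), (nat_lit 3909571), (nat_lit 0)]) (PF.cons (PF.leaf (nat_lit 8302480) (nat_lit 666239) (nat_lit 37463486) (nat_lit 15767523) [(nat_lit 666239), (nat_lit 1861348), (nat_lit 3904823), (nat_lit 0)]) (PF.cons PF.nil (PF.cons PF.nil PF.nil)))) (PF.cons (PF.cons (PF.leaf (nat_lit 8714428) (nat_lit 1862049) (nat_lit 36534050) (nat_lit 15515777) [(nat_lit 0), (nat_lit 1862049), (nat_lit 3886690), (nat_lit 0)]) (PF.cons PF.nil PF.nil)) (PF.cons PF.nil PF.nil)))))))) (PF.cons (PF.cons (PF.cons (PF.leaf (nat_lit 5333351) (nat_lit 3859710) (nat_lit 42440458) (nat_lit 16948932) [(nat_lit 0), (nat_lit 0), (nat_lit 3859710), (nat_lit 0)]) (PF.cons (PF.leaf (nat_lit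 5658407) (nat_lit 587377) (nat_lit 41932481) (nat_lit 16839730) [(nat_lit 587377), (nat_lit 0), (nat_lit 3874611), (nat_lit 0)]) (PF.cons (PF.leaf (nat_lit 6000510) (nat_lit 603723) (nat_lit 41403819) (nat_lit 16723182) [(nat_lit 603723), (nat_lit 0), (nat_lit 3887182), (nat_lit 0)]) (PF.cons (PF.leaf (nat_lit 6355922) (nat_lit 617940) (nat_lit 40860221) (nat_lit 16600305) [(nat_lit 617940), (nat_lit 0), (nat_lit
 3897231), (nat_lit 0)]) (PF.cons (PF.leaf (nat_lit 6721958) (nat_lit 630360) (nat_lit 40306067) (nat_lit 16471922) [(nat_lit 630360), (nat_lit 0), (nat_lit 3904690), (nat_lit 0)]) (PF.cons (PF.leaf (nat_lit 7096476) (nat_lit 641224) (nat_lit 39744824) (nat_lit 16338730) [(nat_lit 641224), (nat_lit 0), (nat_lit 3909566), (nat_lit 0)]) (PF.cons (PF.leaf (nat_lit 7477653) (nat_lit 650721) (nat_lit 39179305) (nat_lit 16201345) [(nat_lit 650721), (nat_lit 0), (nat_lit 3911915), (nat_lit 0)]) (PF.cons PF.nil (PF.cons PF.nil PF.nil))))))))) (PF.cons (PF.cons (PF.leaf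 (nat_lit 6081453) (nat_lit 1787708) (nat_lit 40934131) (nat_lit 16612931) [(nat_lit 0), (nat_lit 1787708), (nat_lit 3887020), (nat_lit 0)]) (PF.cons (PF.leaf (nat_lit 6426903) (nat_lit 617221) (nat_lit 40406385) (nat_lit 16491196) [(nat_lit 617221), (nat_lit 1803847), (nat_lit 3895080), (nat_lit 0)]) (PF.cons (PF.leaf (nat_lit 6784403) (nat_lit 629569) (nat_lit 39866425) (nat_lit 16363726) [(nat_lit 629569), (nat_lit 1817973), (nat_lit 3900774), (nat_lit 0)]) (PF.cons (PF.leaf (nat_lit 7151233) (nat_lit 640314) (nat_lit 39318241) (nat_lit 16231336) [(nat_lit 640314), (nat_lit 1830139), (nat_lit 3904076), (nat_lit 0)])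
 (PF.cons (PF.leaf (nat_lit 7525364) (nat_lit 649667) (nat_lit 38764962) (nat_lit 16094713) [(nat_lit 649667), (nat_lit 1840429), (nat_lit 3905019), (nat_lit 0)]) (PF.cons (PF.leaf (nat_lit 7905131) (nat_lit 657791) (nat_lit 38209112) (nat_lit 15954454) [(nat_lit 657791), (nat_lit 1848938), (nat_lit 3903674), (nat_lit 0)]) (PF.cons PF.nil PF.nil))))))) (PF.cons (PF.cons (PF.leaf (nat_lit 6849209) (nat_lit 1818552) (nat_lit 39426319) (nat_lit 16253642) [(nat_lit 0), (nat_lit 1818552), (nat_lit 3895873), (nat_lit 0)]) (PF.cons (PF.leaf (nat_lit 7207420) (nat_lit 638992) (nat_lit 38892448) (nat_lit 16122501) [(nat_lit 638992), (nat_lit 1829726), (nat_lit 3897708), (nat_lit 0)]) (PF.cons (PF.leaf (nat_lit 7574007) (nat_lit 648271) (nat_lit 38352301) (nat_lit 15986991) [(nat_lit 648271), (nat_lit 1839144), (nat_lit 3897343), (nat_lit 0)]) (PF.cons (PF.leaf (nat_lit 7946879) (nat_lit 656295) (nat_lit 37808715) (nat_lit 15847782) [(nat_lit 656295), (nat_lit 1846881), (nat_lit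 3894832), (nat_lit 0)]) (PF.cons PF.nil PF.nil))))) (PF.cons (PF.cons (PF.leaf (nat_lit 7624385) (nat_lit 1837424) (nat_lit 37940668) (nat_lit 15878047) [(nat_lit 0), (nat_lit 1837424), (nat_lit 3888911), (nat_lit
 0)]) (PF.cons (PF.leaf (nat_lit 7989675) (nat_lit 654493) (nat_lit 37410155) (nat_lit 15740219) [(nat_lit 654493), (nat_lit 1844434), (nat_lit 3885321), (nat_lit 0)]) (PF.cons (PF.leaf (nat_lit 8360560) (nat_lit 661343) (nat_lit 36877578) (nat_lit 15599185) [(nat_lit 661343), (nat_lit 1849933), (nat_lit 3879781), (nat_lit 0)]) (PF.cons PF.nil PF.nil)))) (PF.cons (PF.cons (PF.leaf (nat_lit 8397980) (nat_lit 1846504) (nat_lit 36493130) (nat_lit 15492195) [(nat_lit 0), (nat_lit 1846504), (nat_lit 3868735), (nat_lit 0)]) (PF.cons (PF.leaf (nat_lit 8766077) (nat_lit 665007) (nat_lit 35972539) (nat_lit 15350010) [(nat_lit 665007), (nat_lit 1850039), (nat_lit 3860549), (nat_lit 0)]) PF.nil)) (PF.cons PF.nil PF.nil)))))) (PF.cons (PF.cons (PF.cons (PF.leaf (nat_lit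 6584752) (nat_lit 3871533) (nat_lit 39289070) (nat_lit 16205143) [(nat_lit 0), (nat_lit 0), (nat_lit 3871533), (nat_lit 0)]) (PF.cons (PF.leaf (nat_lit 6926838) (nat_lit 622952) (nat_lit 38782067) (nat_lit 16080454) [(nat_lit 622952), (nat_lit 0), (nat_lit 3874445), (nat_lit 0)]) (PF.cons (PF.leaf (nat_lit 7279872) (nat_lit 633872) (nat_lit 38264712) (nat_lit 15950636) [(nat_lit 633872), (nat_lit 0), (nat_lit 3875239), (nat_lit
 0)]) (PF.cons (PF.leaf (nat_lit 7641210) (nat_lit 643266) (nat_lit 37740714) (nat_lit 15816521) [(nat_lit 643266), (nat_lit 0), (nat_lit 3873926), (nat_lit 0)]) (PF.cons (PF.leaf (nat_lit 8008945) (nat_lit 651348) (nat_lit 37212951) (nat_lit 15678798) [(nat_lit 651348), (nat_lit 0), (nat_lit 3870557), (nat_lit 0)]) (PF.cons (PF.leaf (nat_lit 8381510) (nat_lit 658283) (nat_lit 36683708) (nat_lit 15538052) [(nat_lit 658283), (nat_lit 0), (nat_lit 3865212), (nat_lit 0)]) (PF.cons PF.nil PF.nil))))))) (PF.cons (PF.cons (PF.leaf (nat_lit 7337221) (nat_lit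 1817968) (nat_lit 37848421) (nat_lit 15840555) [(nat_lit 0), (nat_lit 1817968), (nat_lit 3867289), (nat_lit 0)]) (PF.cons (PF.leaf (nat_lit 7690099) (nat_lit 641271) (nat_lit 37338547) (nat_lit 15708140) [(nat_lit 641271), (nat_lit 1826255), (nat_lit 3864866), (nat_lit 0)]) (PF.cons (PF.leaf (nat_lit 8050470) (nat_lit 649352) (nat_lit 36823677) (nat_lit 15571937) [(nat_lit 649352), (nat_lit 1832963), (nat_lit 3860509), (nat_lit 0)]) (PF.cons (PF.leaf (nat_lit 8416346) (nat_lit 656252) (nat_lit 36306419) (nat_lit 15432607) [(nat_lit 656252), (nat_lit 1838172), (nat_lit 3854284), (nat_lit 0)]) (PF.cons PF.nil PF.nil))))) (PF.cons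
 (PF.cons (PF.leaf (nat_lit 8093937) (nat_lit 1829821) (nat_lit 36435523) (nat_lit 15464106) [(nat_lit 0), (nat_lit 1829821), (nat_lit 3849846), (nat_lit 0)]) (PF.cons (PF.leaf (nat_lit 8452440) (nat_lit 653945) (nat_lit 35930975) (nat_lit 15326495) [(nat_lit 653945), (nat_lit 1834468), (nat_lit 3842820), (nat_lit 0)]) (PF.cons (PF.leaf (nat_lit 8815870) (nat_lit 659800) (nat_lit 35425176) (nat_lit 15186197) [(nat_lit 659800), (nat_lit 1837769), (nat_lit 3834099), (nat_lit 0)]) (PF.cons PF.nil PF.nil)))) (PF.cons (PF.cons (PF.leaf (nat_lit 8846998) (nat_lit 1833290) (nat_lit 35063411) (nat_lit 15081151) [(nat_lit 0), (nat_lit 1833290), (nat_lit 3821459), (nat_lit 0)]) (PF.cons PF.nil PF.nil)) (PF.cons PF.nil PF.nil))))) (PF.cons (PF.cons (PF.cons (PF.leaf (nat_lit 7804181) (nat_lit 3829942) (nat_lit 36358312) (nat_lit 15430730) [(nat_lit 0), (nat_lit 0), (nat_lit 3829942), (nat_lit 0)]) (PF.cons (PF.leaf (nat_lit 8151246) (nat_lit 641457) (nat_lit 35872570) (nat_lit 15298353)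 [(nat_lit 641457), (nat_lit 0), (nat_lit 3824107), (nat_lit 0)]) (PF.cons (PF.leaf (nat_lit 8505079) (nat_lit 648508) (nat_lit 35382837) (nat_lit 15162690) [(nat_lit 648508), (nat_lit 0), (nat_lit 3816567),
 (nat_lit 0)]) (PF.cons (PF.leaf (nat_lit 8863756) (nat_lit 654445) (nat_lit 34891506) (nat_lit 15024387) [(nat_lit 654445), (nat_lit 0), (nat_lit 3807395), (nat_lit 0)]) (PF.cons PF.nil PF.nil))))) (PF.cons (PF.cons (PF.leaf (nat_lit 8542287) (nat_lit 1817891) (nat_lit 35017260) (nat_lit 15056741) [(nat_lit 0), (nat_lit 1817891), (nat_lit 3804230), (nat_lit 0)]) (PF.cons (PF.leaf (nat_lit 8893823) (nat_lit 651745) (nat_lit 34538167) (nat_lit 14920400) [(nat_lit 651745), (nat_lit 1820586), (nat_lit 3794478), (nat_lit 0)]) (PF.cons PF.nil (PF.cons PF.nil PF.nil)))) (PF.cons (PF.cons (PF.leaf (nat_lit 9275203) (nat_lit 1816793) (nat_lit 33718198) (nat_lit 14679247) [(nat_lit 0), (nat_lit 1816793), (nat_lit 3769444), (nat_lit 0)]) (PF.cons PF.nil PF.nil)) PF.nil))) (PF.cons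 (PF.cons (PF.cons (PF.leaf (nat_lit 8970741) (nat_lit 3753757) (nat_lit 33681818) (nat_lit 14658208) [(nat_lit 0), (nat_lit 0), (nat_lit 3753757), (nat_lit 0)]) (PF.cons (PF.leaf (nat_lit 9315217) (nat_lit 648223) (nat_lit 33227363) (nat_lit 14523933) [(nat_lit 648223), (nat_lit 0), (nat_lit 3741858), (nat_lit 0)]) PF.nil)) (PF.cons PF.nil PF.nil)) (PF.cons PF.nil (PF.cons PF.nil PF.nil)))))))) (PF.cons (PF.cons
 (PF.cons (PF.cons (PF.leaf (nat_lit 4833518) (nat_lit 8390356) (nat_lit 41955819) (nat_lit 16762636) [(nat_lit 0), (nat_lit 0), (nat_lit 0), (nat_lit 8390356)]) (PF.cons (PF.leaf (nat_lit 5118107) (nat_lit 533706) (nat_lit 41526111) (nat_lit 16671078) [(nat_lit 533706), (nat_lit 0), (nat_lit 0), (nat_lit 8377916)]) (PF.cons (PF.leaf (nat_lit 5426495) (nat_lit 555751) (nat_lit 41064811) (nat_lit 16570524) [(nat_lit 555751), (nat_lit 0), (nat_lit 0), (nat_lit 8361973)]) (PF.cons (PF.leaf (nat_lit 5753352) (nat_lit 574648) (nat_lit 40580030) (nat_lit 16462370) [(nat_lit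 574648), (nat_lit 0), (nat_lit 0), (nat_lit 8342466)]) (PF.cons (PF.leaf (nat_lit 6094999) (nat_lit 591013) (nat_lit 40077694) (nat_lit 16347661) [(nat_lit 591013), (nat_lit 0), (nat_lit 0), (nat_lit 8319402)]) (PF.cons (PF.leaf (nat_lit 6448588) (nat_lit 605271) (nat_lit 39562371) (nat_lit 16227239) [(nat_lit 605271), (nat_lit 0), (nat_lit 0), (nat_lit 8292844)]) (PF.cons (PF.leaf (nat_lit 6811834) (nat_lit 617731) (nat_lit 39037707) (nat_lit 16101816) [(nat_lit 617731), (nat_lit 0), (nat_lit 0), (nat_lit 8262901)]) (PF.cons (PF.leaf (nat_lit 7182785) (nat_lit 628628) (nat_lit 38506680) (nat_lit 15972018) [(nat_lit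
 628628), (nat_lit 0), (nat_lit 0), (nat_lit 8229711)]) (PF.cons (PF.leaf (nat_lit 7559831) (nat_lit 638151) (nat_lit 37971760) (nat_lit 15838404) [(nat_lit 638151), (nat_lit 0), (nat_lit 0), (nat_lit 8193438)]) (PF.cons PF.nil PF.nil)))))))))) (PF.cons (PF.cons (PF.leaf (nat_lit 5521723) (nat_lit 1708503) (nat_lit 40600832) (nat_lit 16462889) [(nat_lit 0), (nat_lit 1708503), (nat_lit 0), (nat_lit 8336586)]) (PF.cons (PF.leaf (nat_lit 5836903) (nat_lit 574537) (nat_lit 40132460) (nat_lit 16356166) [(nat_lit 574537), (nat_lit 1730164), (nat_lit 0), (nat_lit 8315483)]) (PF.cons (PF.leaf (nat_lit 6168885) (nat_lit 590833) (nat_lit 39644285) (nat_lit 16242486) [(nat_lit 590833), (nat_lit 1749482), (nat_lit 0), (nat_lit 8290891)]) (PF.cons (PF.leaf (nat_lit 6513989) (nat_lit 604952) (nat_lit 39141694) (nat_lit 16122877) [(nat_lit 604952), (nat_lit 1766482), (nat_lit 0), (nat_lit 8262902)]) (PF.cons (PF.leaf (nat_lit 6869591) (nat_lit 617239) (nat_lit 38628799) (nat_lit 15998163)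 [(nat_lit 617239), (nat_lit 1781255), (nat_lit 0), (nat_lit 8231638)]) (PF.cons (PF.leaf (nat_lit 7233545) (nat_lit 627950) (nat_lit 38108858) (nat_lit 15869035) [(nat_lit 627950), (nat_lit 1793920), (nat_lit
 0), (nat_lit 8197248)]) (PF.cons (PF.leaf (nat_lit 7604092) (nat_lit 637283) (nat_lit 37584516) (nat_lit 15736095) [(nat_lit 637283), (nat_lit 1804604), (nat_lit 0), (nat_lit 8159897)]) (PF.cons (PF.leaf (nat_lit 7979742) (nat_lit 645396) (nat_lit 37057954) (nat_lit 15599878) [(nat_lit 645396), (nat_lit 1813438), (nat_lit 0), (nat_lit 8119763)]) (PF.cons PF.nil PF.nil))))))))) (PF.cons (PF.cons (PF.leaf (nat_lit 6246135) (nat_lit 1752613) (nat_lit 39208146) (nat_lit 16134856) [(nat_lit 0), (nat_lit 1752613), (nat_lit 0), (nat_lit 8260582)]) (PF.cons (PF.leaf (nat_lit 6581474) (nat_lit 604089) (nat_lit 38720111) (nat_lit 16016635) [(nat_lit 604089), (nat_lit 1768277), (nat_lit 0), (nat_lit 8231422)]) (PF.cons (PF.leaf (nat_lit 6928731) (nat_lit 616307) (nat_lit 38220253)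 (nat_lit 15893065) [(nat_lit 616307), (nat_lit 1781910), (nat_lit 0), (nat_lit 8199056)]) (PF.cons (PF.leaf (nat_lit 7285195) (nat_lit 626908) (nat_lit 37712307) (nat_lit 15764952) [(nat_lit 626908), (nat_lit 1793587), (nat_lit 0), (nat_lit 8163652)]) (PF.cons (PF.leaf (nat_lit 7648899) (nat_lit 636110) (nat_lit 37199204) (nat_lit 15632966) [(nat_lit 636110), (nat_lit 1803408), (nat_lit 0), (nat_lit 8125383)])
 (PF.cons (PF.leaf (nat_lit 8018212) (nat_lit 644084) (nat_lit 36683310) (nat_lit 15497684) [(nat_lit 644084), (nat_lit 1811480), (nat_lit 0), (nat_lit 8084433)]) (PF.cons PF.nil PF.nil))))))) (PF.cons (PF.cons (PF.leaf (nat_lit 6990291) (nat_lit 1782055) (nat_lit 37811200) (nat_lit 15786324) [(nat_lit 0), (nat_lit 1782055), (nat_lit 0), (nat_lit 8165121)]) (PF.cons (PF.leaf (nat_lit 7338353) (nat_lit 625474) (nat_lit 37316406) (nat_lit 15659638) [(nat_lit 625474), (nat_lit 1792795), (nat_lit 0), (nat_lit 8128907)]) (PF.cons (PF.leaf (nat_lit 7694729) (nat_lit 634614)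 (nat_lit 36815365) (nat_lit 15528927) [(nat_lit 634614), (nat_lit 1801798), (nat_lit 0), (nat_lit 8089895)]) (PF.cons (PF.leaf (nat_lit 8057364) (nat_lit 642501) (nat_lit 36310730) (nat_lit 15394838) [(nat_lit 642501), (nat_lit 1809154), (nat_lit 0), (nat_lit 8048277)]) (PF.cons (PF.leaf (nat_lit 8424745) (nat_lit 649286) (nat_lit 35804624) (nat_lit 15257923) [(nat_lit 649286), (nat_lit 1814957), (nat_lit 0), (nat_lit 8004246)]) PF.nil))))) (PF.cons (PF.cons (PF.leaf (nat_lit 7742378) (nat_lit 1799794) (nat_lit 36432384) (nat_lit 15423841) [(nat_lit 0), (nat_lit 1799794), (nat_lit 0), (nat_lit 8053408)]) (PF.cons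
 (PF.leaf (nat_lit 8097653) (nat_lit 640628) (nat_lit 35939756) (nat_lit 15291247) [(nat_lit 640628), (nat_lit 1806473), (nat_lit 0), (nat_lit 8011284)]) (PF.cons (PF.leaf (nat_lit 8458528) (nat_lit 647361) (nat_lit 35444828) (nat_lit 15155728) [(nat_lit 647361), (nat_lit 1811682), (nat_lit 0), (nat_lit 7966804)]) (PF.cons PF.nil PF.nil)))) (PF.cons (PF.cons (PF.leaf (nat_lit 8493748) (nat_lit 1808103) (nat_lit 35086721) (nat_lit 15052929) [(nat_lit 0), (nat_lit 1808103), (nat_lit 0), (nat_lit 7928646)]) (PF.cons (PF.leaf (nat_lit 8852096) (nat_lit 650889) (nat_lit 34602424) (nat_lit 14916573) [(nat_lit 650889), (nat_lit 1811435), (nat_lit 0), (nat_lit 7881749)]) PF.nil)) (PF.cons PF.nil (PF.cons PF.nil PF.nil)))))))) (PF.cons (PF.cons (PF.cons (PF.leaf (nat_lit 6015983) (nat_lit 3784561) (nat_lit 39022372) (nat_lit 16074793) [(nat_lit 0), (nat_lit 0), (nat_lit 3784561), (nat_lit 8227084)]) (PF.cons (PF.leaf (nat_lit 6330598) (nat_lit 583866) (nat_lit 38568072) (nat_lit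 15964421) [(nat_lit 583866), (nat_lit 0), (nat_lit 3792271), (nat_lit 8200180)]) (PF.cons (PF.leaf (nat_lit 6660702) (nat_lit 598491) (nat_lit 38096349) (nat_lit 15847614) [(nat_lit 598491), (nat_lit 0), (nat_lit
 3797882), (nat_lit 8169983)]) (PF.cons (PF.leaf (nat_lit 7002703) (nat_lit 611027) (nat_lit 37612295) (nat_lit 15725450) [(nat_lit 611027), (nat_lit 0), (nat_lit 3801308), (nat_lit 8136676)]) (PF.cons (PF.leaf (nat_lit 7354071) (nat_lit 621827) (nat_lit 37119740) (nat_lit 15598775) [(nat_lit 621827), (nat_lit 0), (nat_lit 3802547), (nat_lit 8100440)]) (PF.cons (PF.leaf (nat_lit 7712808) (nat_lit 631149) (nat_lit 36621679) (nat_lit 15468283) [(nat_lit 631149), (nat_lit 0), (nat_lit 3801646), (nat_lit 8061457)]) (PF.cons (PF.leaf (nat_lit 8077247) (nat_lit 639190) (nat_lit 36120511) (nat_lit 15334567) [(nat_lit 639190), (nat_lit 0), (nat_lit 3798680), (nat_lit 8019914)]) (PF.cons PF.nil (PF.cons PF.nil PF.nil))))))))) (PF.cons (PF.cons (PF.leaf (nat_lit 6730610)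 (nat_lit 1759080) (nat_lit 37681640) (nat_lit 15739368) [(nat_lit 0), (nat_lit 1759080), (nat_lit 3792802), (nat_lit 8135921)]) (PF.cons (PF.leaf (nat_lit 7062927) (nat_lit 609324) (nat_lit 37212212) (nat_lit 15619076) [(nat_lit 609324), (nat_lit 1771420), (nat_lit 3794843), (nat_lit 8101935)]) (PF.cons (PF.leaf (nat_lit 7406078) (nat_lit 620155) (nat_lit 36732690) (nat_lit 15493981) [(nat_lit 620155), (nat_lit 1781926),
 (nat_lit 3794860), (nat_lit 8065043)]) (PF.cons (PF.leaf (nat_lit 7757474) (nat_lit 629452) (nat_lit 36246547) (nat_lit 15364898) [(nat_lit 629452), (nat_lit 1790679), (nat_lit 3792875), (nat_lit 8025452)]) (PF.cons (PF.leaf (nat_lit 8115253) (nat_lit 637436) (nat_lit 35756479) (nat_lit 15232490) [(nat_lit 637436), (nat_lit 1797782), (nat_lit 3788949), (nat_lit 7983363)]) (PF.cons (PF.leaf (nat_lit 8477885) (nat_lit 644277) (nat_lit 35264632) (nat_lit 15097321) [(nat_lit 644277), (nat_lit 1803339), (nat_lit 3783164), (nat_lit 7938969)]) (PF.cons PF.nil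 PF.nil))))))) (PF.cons (PF.cons (PF.leaf (nat_lit 7460713) (nat_lit 1780326) (nat_lit 36345378) (nat_lit 15387813) [(nat_lit 0), (nat_lit 1780326), (nat_lit 3786450), (nat_lit 8028517)]) (PF.cons (PF.leaf (nat_lit 7803869) (nat_lit 627400) (nat_lit 35872206) (nat_lit 15260522) [(nat_lit 627400), (nat_lit 1788351), (nat_lit 3783470), (nat_lit 7988509)]) (PF.cons (PF.leaf (nat_lit 8154502) (nat_lit 635392) (nat_lit 35393975) (nat_lit 15129719) [(nat_lit 635392), (nat_lit 1794820), (nat_lit 3778662), (nat_lit 7946030)]) (PF.cons (PF.leaf (nat_lit 8510656) (nat_lit 642208) (nat_lit 34913122) (nat_lit 14996038) [(nat_lit 642208),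
 (nat_lit 1799820), (nat_lit 3772095), (nat_lit 7901290)]) (PF.cons PF.nil PF.nil))))) (PF.cons (PF.cons (PF.leaf (nat_lit 8195757) (nat_lit 1791533) (nat_lit 35032397) (nat_lit 15026108) [(nat_lit 0), (nat_lit 1791533), (nat_lit 3767826), (nat_lit 7907878)]) (PF.cons (PF.leaf (nat_lit 8544753) (nat_lit 639876) (nat_lit 34563216) (nat_lit 14894193) [(nat_lit 639876), (nat_lit 1796012), (nat_lit 3760549), (nat_lit 7862939)]) (PF.cons (PF.leaf (nat_lit 8898712) (nat_lit 645665) (nat_lit 34092492) (nat_lit 14759804) [(nat_lit 645665), (nat_lit 1799179), (nat_lit 3751680), (nat_lit 7815965)]) (PF.cons PF.nil PF.nil)))) (PF.cons (PF.cons (PF.leaf (nat_lit 8928127) (nat_lit 1794663) (nat_lit 33755047) (nat_lit 14659147) [(nat_lit 0), (nat_lit 1794663), (nat_lit 3739093), (nat_lit 7776870)]) (PF.cons PF.nil PF.nil)) (PF.cons PF.nil PF.nil)))))) (PF.cons (PF.cons (PF.cons (PF.leaf (nat_lit 7196520) (nat_lit 3764008) (nat_lit 36234094) (nat_lit 15345303) [(nat_lit 0), (nat_lit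 0), (nat_lit 3764008), (nat_lit 8001398)]) (PF.cons (PF.leaf (nat_lit 7525043) (nat_lit 612139) (nat_lit 35784148) (nat_lit 15224235) [(nat_lit 612139), (nat_lit 0), (nat_lit 3762279), (nat_lit 7963730)]) (PF.cons
 (PF.leaf (nat_lit 7863498) (nat_lit 621770) (nat_lit 35325522) (nat_lit 15098856) [(nat_lit 621770), (nat_lit 0), (nat_lit 3758732), (nat_lit 7923428)]) (PF.cons (PF.leaf (nat_lit 8209376) (nat_lit 629945) (nat_lit 34861443) (nat_lit 14969974) [(nat_lit 629945), (nat_lit 0), (nat_lit 3753413), (nat_lit 7880731)]) (PF.cons (PF.leaf (nat_lit 8560910) (nat_lit 636885) (nat_lit 34394392) (nat_lit 14838240) [(nat_lit 636885), (nat_lit 0), (nat_lit 3746393), (nat_lit 7835852)]) (PF.cons PF.nil (PF.cons PF.nil PF.nil))))))) (PF.cons (PF.cons (PF.leaf (nat_lit 7911788) (nat_lit 1773543) (nat_lit 34959456) (nat_lit 14994094) [(nat_lit 0), (nat_lit 1773543), (nat_lit 3748279), (nat_lit 7885159)]) (PF.cons (PF.leaf (nat_lit 8249612) (nat_lit 627407) (nat_lit 34508009)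 (nat_lit 14867275) [(nat_lit 627407), (nat_lit 1779313), (nat_lit 3742225), (nat_lit 7842355)]) (PF.cons (PF.leaf (nat_lit 8594201) (nat_lit 634412) (nat_lit 34052440) (nat_lit 14737388) [(nat_lit 634412), (nat_lit 1783680), (nat_lit 3734555), (nat_lit 7797369)]) (PF.cons (PF.leaf (nat_lit 8943679) (nat_lit 640308) (nat_lit 33594995) (nat_lit 14605049) [(nat_lit 640308), (nat_lit 1786733), (nat_lit 3725345), (nat_lit 7750418)])
 (PF.cons PF.nil PF.nil))))) (PF.cons (PF.cons (PF.leaf (nat_lit 8629652) (nat_lit 1779395) (nat_lit 33711420) (nat_lit 14635857) [(nat_lit 0), (nat_lit 1779395), (nat_lit 3722266), (nat_lit 7758210)]) (PF.cons (PF.leaf (nat_lit 8972187) (nat_lit 637619) (nat_lit 33265218) (nat_lit 14505478) [(nat_lit 637619), (nat_lit 1782051), (nat_lit 3712545), (nat_lit 7711303)]) (PF.cons PF.nil (PF.cons PF.nil PF.nil)))) (PF.cons (PF.cons (PF.leaf (nat_lit 9343348) (nat_lit 1778297) (nat_lit 32500211) (nat_lit 14274910) [(nat_lit 0), (nat_lit 1778297), (nat_lit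 3687846), (nat_lit 7623106)]) (PF.cons PF.nil PF.nil)) (PF.cons PF.nil PF.nil))))) (PF.cons (PF.cons (PF.cons (PF.leaf (nat_lit 8344442) (nat_lit 3704355) (nat_lit 33650597) (nat_lit 14607569) [(nat_lit 0), (nat_lit 0), (nat_lit 3704355), (nat_lit 7737578)]) (PF.cons (PF.leaf (nat_lit 8676633) (nat_lit 625862) (nat_lit 33220574) (nat_lit 14482057) [(nat_lit 625862), (nat_lit 0), (nat_lit 3695842), (nat_lit 7692789)]) (PF.cons (PF.leaf (nat_lit 9014997) (nat_lit 632013) (nat_lit 32787174) (nat_lit 14353859) [(nat_lit 632013), (nat_lit 0), (nat_lit 3685894), (nat_lit 7646068)]) (PF.cons PF.nil PF.nil)))) (PF.cons (PF.cons (PF.leaf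
 (nat_lit 9045192) (nat_lit 1764222) (nat_lit 32465719) (nat_lit 14254840) [(nat_lit 0), (nat_lit 1764222), (nat_lit 3672538), (nat_lit 7606415)]) (PF.cons (PF.leaf (nat_lit 9381195) (nat_lit 634155) (nat_lit 32041768) (nat_lit 14126643) [(nat_lit 634155), (nat_lit 1765368), (nat_lit 3660885), (nat_lit 7558219)]) PF.nil)) (PF.cons PF.nil PF.nil))) (PF.cons (PF.cons (PF.cons (PF.leaf (nat_lit 9443503) (nat_lit 3619808) (nat_lit 31291250) (nat_lit 13884272) [(nat_lit 0), (nat_lit 0), (nat_lit 3619808), (nat_lit 7454056)]) (PF.cons PF.nil PF.nil)) (PF.cons PF.nil PF.nil)) (PF.cons PF.nil PF.nil)))))) (PF.cons (PF.cons (PF.cons (PF.cons (PF.leaf (nat_lit 6634071) (nat_lit 7915767) (nat_lit 36037788) (nat_lit 15239490) [(nat_lit 0), (nat_lit 0), (nat_lit 0), (nat_lit 7915767)]) (PF.cons (PF.leaf (nat_lit 6938114) (nat_lit 576226) (nat_lit 35632116) (nat_lit 15131600) [(nat_lit 576226), (nat_lit 0), (nat_lit 0), (nat_lit 7884435)]) (PF.cons (PF.leaf (nat_lit 7256394) (nat_lit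 589455) (nat_lit 35211529) (nat_lit 15018032) [(nat_lit 589455), (nat_lit 0), (nat_lit 0), (nat_lit 7850169)]) (PF.cons (PF.leaf (nat_lit 7585474) (nat_lit 600653) (nat_lit 34780526) (nat_lit 14899865) [(nat_lit
 600653), (nat_lit 0), (nat_lit 0), (nat_lit 7813231)]) (PF.cons (PF.leaf (nat_lit 7922943) (nat_lit 610183) (nat_lit 34342460) (nat_lit 14777926) [(nat_lit 610183), (nat_lit 0), (nat_lit 0), (nat_lit 7773845)]) (PF.cons (PF.leaf (nat_lit 8266933) (nat_lit 618312) (nat_lit 33899928) (nat_lit 14652884) [(nat_lit 618312), (nat_lit 0), (nat_lit 0), (nat_lit 7732218)]) (PF.cons (PF.leaf (nat_lit 8615916) (nat_lit 625239) (nat_lit 33454992) (nat_lit 14525295) [(nat_lit 625239), (nat_lit 0), (nat_lit 0), (nat_lit 7688543)]) (PF.cons PF.nil (PF.cons PF.nil PF.nil))))))))) (PF.cons (PF.cons (PF.leaf (nat_lit 7317261) (nat_lit 1721503) (nat_lit 34845152) (nat_lit 14914423) [(nat_lit 0), (nat_lit 1721503), (nat_lit 0), (nat_lit 7813866)]) (PF.cons (PF.leaf (nat_lit 7636980)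 (nat_lit 598294) (nat_lit 34427401) (nat_lit 14798502) [(nat_lit 598294), (nat_lit 1731063), (nat_lit 0), (nat_lit 7776775)]) (PF.cons (PF.leaf (nat_lit 7966578) (nat_lit 607931) (nat_lit 34001095) (nat_lit 14678486) [(nat_lit 607931), (nat_lit 1738943), (nat_lit 0), (nat_lit 7737212)]) (PF.cons (PF.leaf (nat_lit 8303595) (nat_lit 616103) (nat_lit 33569269) (nat_lit 14555161) [(nat_lit 616103), (nat_lit 1745246), (nat_lit
 0), (nat_lit 7695412)]) (PF.cons (PF.leaf (nat_lit 8646288) (nat_lit 623036) (nat_lit 33134255) (nat_lit 14429154) [(nat_lit 623036), (nat_lit 1750082), (nat_lit 0), (nat_lit 7651586)]) (PF.cons PF.nil (PF.cons PF.nil PF.nil))))))) (PF.cons (PF.cons (PF.leaf (nat_lit 8013033) (nat_lit 1735929) (nat_lit 33659500) (nat_lit 14578000) [(nat_lit 0), (nat_lit 1735929), (nat_lit 0), (nat_lit 7699726)]) (PF.cons (PF.leaf (nat_lit 8342181) (nat_lit 613579) (nat_lit 33239280) (nat_lit 14456727) [(nat_lit 613579), (nat_lit 1741695), (nat_lit 0), (nat_lit 7657916)])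 (PF.cons (PF.leaf (nat_lit 8678119) (nat_lit 620579) (nat_lit 32814815) (nat_lit 14332556) [(nat_lit 620579), (nat_lit 1746069), (nat_lit 0), (nat_lit 7614071)]) (PF.cons (PF.leaf (nat_lit 9018998) (nat_lit 626474) (nat_lit 32388215) (nat_lit 14206079) [(nat_lit 626474), (nat_lit 1749144), (nat_lit 0), (nat_lit 7568402)]) (PF.cons PF.nil PF.nil))))) (PF.cons (PF.cons (PF.leaf (nat_lit 8712153) (nat_lit 1741807) (nat_lit 32496127) (nat_lit 14235352) [(nat_lit 0), (nat_lit 1741807), (nat_lit 0), (nat_lit 7575954)]) (PF.cons (PF.leaf (nat_lit 9046265) (nat_lit 623816) (nat_lit 32079865) (nat_lit 14110805) [(nat_lit 623816), (nat_lit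
 1744509), (nat_lit 0), (nat_lit 7530398)]) (PF.cons PF.nil (PF.cons PF.nil PF.nil)))) (PF.cons (PF.cons (PF.leaf (nat_lit 9408043) (nat_lit 1740907) (nat_lit 31364880) (nat_lit 13890499) [(nat_lit 0), (nat_lit 1740907), (nat_lit 0), (nat_lit 7444902)]) (PF.cons PF.nil PF.nil)) (PF.cons PF.nil PF.nil)))))) (PF.cons (PF.cons (PF.cons (PF.leaf (nat_lit 7751141) (nat_lit 3647980) (nat_lit 33568904) (nat_lit 14541072) [(nat_lit 0), (nat_lit 0), (nat_lit 3647980), (nat_lit 7675427)]) (PF.cons (PF.leaf (nat_lit 8066905) (nat_lit 599116) (nat_lit 33168816) (nat_lit 14425653) [(nat_lit 599116), (nat_lit 0), (nat_lit 3643225), (nat_lit 7636000)]) (PF.cons (PF.leaf (nat_lit 8391795) (nat_lit 607730) (nat_lit 32761277) (nat_lit 14306539) [(nat_lit 607730), (nat_lit 0), (nat_lit 3636888), (nat_lit 7594323)]) (PF.cons (PF.leaf (nat_lit 8723421) (nat_lit 614956) (nat_lit 32349108) (nat_lit 14184501) [(nat_lit 614956), (nat_lit 0), (nat_lit 3629036), (nat_lit 7550649)]) (PF.cons (PF.leaf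 (nat_lit 9060126) (nat_lit 621016) (nat_lit 31934460) (nat_lit 14060145) [(nat_lit 621016), (nat_lit 0), (nat_lit 3619750), (nat_lit 7505195)]) PF.nil))))) (PF.cons (PF.cons (PF.leaf (nat_lit 8432803) (nat_lit
 1725225) (nat_lit 32438314) (nat_lit 14208181) [(nat_lit 0), (nat_lit 1725225), (nat_lit 3625047), (nat_lit 7556022)]) (PF.cons (PF.leaf (nat_lit 8756762) (nat_lit 612078) (nat_lit 32037363) (nat_lit 14088351) [(nat_lit 612078), (nat_lit 1729196), (nat_lit 3616719), (nat_lit 7512552)]) (PF.cons (PF.leaf (nat_lit 9086922) (nat_lit 618250) (nat_lit 31632877) (nat_lit 13965969) [(nat_lit 618250), (nat_lit 1731908), (nat_lit 3607015), (nat_lit 7467271)]) (PF.cons PF.nil PF.nil)))) (PF.cons (PF.cons (PF.leaf (nat_lit 9116030) (nat_lit 1726941) (nat_lit 31332014) (nat_lit 13871291) [(nat_lit 0), (nat_lit 1726941), (nat_lit 3593940), (nat_lit 7428841)]) (PF.cons (PF.leaf (nat_lit 9444055) (nat_lit 620467) (nat_lit 30935851) (nat_lit 13748961) [(nat_lit 620467), (nat_lit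 1728210), (nat_lit 3582628), (nat_lit 7382241)]) PF.nil)) (PF.cons PF.nil (PF.cons PF.nil PF.nil))))) (PF.cons (PF.cons (PF.cons (PF.leaf (nat_lit 8836369) (nat_lit 3577862) (nat_lit 31284014) (nat_lit 13847415) [(nat_lit 0), (nat_lit 0), (nat_lit 3577862), (nat_lit 7410829)]) (PF.cons (PF.leaf (nat_lit 9154949) (nat_lit 609407) (nat_lit 30901850) (nat_lit 13729559) [(nat_lit 609407), (nat_lit 0), (nat_lit 3567735),
 (nat_lit 7366262)]) (PF.cons (PF.leaf (nat_lit 9479236) (nat_lit 614858) (nat_lit 30516722) (nat_lit 13609450) [(nat_lit 614858), (nat_lit 0), (nat_lit 3556379), (nat_lit 7320081)]) (PF.cons PF.nil PF.nil)))) (PF.cons (PF.cons (PF.leaf (nat_lit 9503877) (nat_lit 1709925) (nat_lit 30232728) (nat_lit 13517529) [(nat_lit 0), (nat_lit 1709925), (nat_lit 3542637), (nat_lit 7281676)]) (PF.cons PF.nil PF.nil)) (PF.cons PF.nil PF.nil))) (PF.cons (PF.cons (PF.cons (PF.leaf (nat_lit 9876666) (nat_lit 3489551) (nat_lit 29194553) (nat_lit 13174663) [(nat_lit 0), (nat_lit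 0), (nat_lit 3489551), (nat_lit 7135470)]) (PF.cons PF.nil PF.nil)) (PF.cons PF.nil PF.nil)) (PF.cons PF.nil PF.nil))))) (PF.cons (PF.cons (PF.cons (PF.cons (PF.leaf (nat_lit 8258681) (nat_lit 7359720) (nat_lit 31233516) (nat_lit 13796134) [(nat_lit 0), (nat_lit 0), (nat_lit 0), (nat_lit 7359720)]) (PF.cons (PF.leaf (nat_lit 8562527) (nat_lit 584934) (nat_lit 30876612) (nat_lit 13687245) [(nat_lit 584934), (nat_lit 0), (nat_lit 0), (nat_lit 7320006)]) (PF.cons (PF.leaf (nat_lit 8874854) (nat_lit 592727) (nat_lit 30513196) (nat_lit 13575141) [(nat_lit 592727), (nat_lit 0), (nat_lit 0), (nat_lit 7278340)]) (PF.cons (PF.leaf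
 (nat_lit 9193367) (nat_lit 599197) (nat_lit 30145746) (nat_lit 13460542) [(nat_lit 599197), (nat_lit 0), (nat_lit 0), (nat_lit 7234976)]) (PF.cons PF.nil PF.nil))))) (PF.cons (PF.cons (PF.leaf (nat_lit 8909955) (nat_lit 1675482) (nat_lit 30227066) (nat_lit 13483481) [(nat_lit 0), (nat_lit 1675482), (nat_lit 0), (nat_lit 7240927)]) (PF.cons (PF.leaf (nat_lit 9221165) (nat_lit 596117) (nat_lit 29869557) (nat_lit 13371110) [(nat_lit 596117), (nat_lit 1678151), (nat_lit 0), (nat_lit 7197958)]) (PF.cons (PF.leaf (nat_lit 9538126) (nat_lit 601631) (nat_lit 29508933) (nat_lit 13256567) [(nat_lit 601631), (nat_lit 1679681), (nat_lit 0), (nat_lit 7153455)]) (PF.cons PF.nil PF.nil)))) (PF.cons (PF.cons (PF.leaf (nat_lit 9562155) (nat_lit 1674332) (nat_lit 29242245) (nat_lit 13168731) [(nat_lit 0), (nat_lit 1674332), (nat_lit 0), (nat_lit 7116389)]) (PF.cons PF.nil PF.nil)) (PF.cons PF.nil (PF.cons PF.nil PF.nil))))) (PF.cons (PF.cons (PF.cons (PF.leaf (nat_lit 9288583) (nat_lit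 3453784) (nat_lit 29204330) (nat_lit 13148619) [(nat_lit 0), (nat_lit 0), (nat_lit 3453784), (nat_lit 7100692)]) (PF.cons (PF.leaf (nat_lit 9594694) (nat_lit 592722) (nat_lit 28863210) (nat_lit 13038536) [(nat_lit
 592722), (nat_lit 0), (nat_lit 3442739), (nat_lit 7057201)]) (PF.cons PF.nil (PF.cons PF.nil PF.nil)))) (PF.cons (PF.cons (PF.leaf (nat_lit 9926335) (nat_lit 1656378) (nat_lit 28267272) (nat_lit 12841468) [(nat_lit 0), (nat_lit 1656378), (nat_lit 3416891), (nat_lit 6975600)]) (PF.cons PF.nil PF.nil)) (PF.cons PF.nil PF.nil))) (PF.cons (PF.cons (PF.cons (PF.leaf (nat_lit 10277233) (nat_lit 3364592) (nat_lit 27344773) (nat_lit 12524917) [(nat_lit 0), (nat_lit 0), (nat_lit 3364592), (nat_lit 6836645)]) (PF.cons PF.nil PF.nil)) (PF.cons PF.nil PF.nil)) PF.nil))) (PF.cons (PF.cons (PF.cons (PF.cons (PF.leaf (nat_lit 9707707) (nat_lit 6808717) (nat_lit 27366581) (nat_lit 12507361) [(nat_lit 0), (nat_lit 0), (nat_lit 0), (nat_lit 6808717)]) (PF.cons (PF.leaf (nat_lit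 10002366) (nat_lit 576196) (nat_lit 27060713) (nat_lit 12404805) [(nat_lit 576196), (nat_lit 0), (nat_lit 0), (nat_lit 6766774)]) (PF.cons PF.nil PF.nil))) (PF.cons (PF.cons (PF.leaf (nat_lit 10318651) (nat_lit 1604374) (nat_lit 26527406) (nat_lit 12221962) [(nat_lit 0), (nat_lit 1604374), (nat_lit 0), (nat_lit 6688767)]) PF.nil) PF.nil)) (PF.cons PF.nil PF.nil)) (PF.cons PF.nil (PF.cons PF.nil (PF.cons PF.nil PF.nil))))))))

def p15_31_3_0 : pfC (piC [(nat_lit 35065580), (nat_lit 23751559), (nat_lit 17719570), (nat_lit 11940226)] (nat_lit 5058382)) p15_31_3 (nat_lit 4) (nat_lit 0) (nat_lit 1) = true := by decide +kernel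
def p15_31_3_1 : pfC (piC [(nat_lit 35065580), (nat_lit 23751559), (nat_lit 17719570), (nat_lit 11940226)] (nat_lit 5058382)) p15_31_3 (nat_lit 4) (nat_lit 1) (nat_lit 2) = true := by decide +kernel
def p15_31_3_2 : pfC (piC [(nat_lit 35065580), (nat_lit 23751559), (nat_lit 17719570), (nat_lit 11940226)] (nat_lit 5058382)) p15_31_3 (nat_lit 4) (nat_lit 2) (nat_lit 3) = true := by decide +kernel
def p15_31_3_3 : pfC (piC [(nat_lit 35065580), (nat_lit 23751559), (nat_lit 17719570), (nat_lit 11940226)] (nat_lit 5058382)) p15_31_3 (nat_lit 4) (nat_lit 3) (nat_lit 4) = true := by decide +kernel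
def p15_31_3_4 : pfC (piC [(nat_lit 35065580), (nat_lit 23751559), (nat_lit 17719570), (nat_lit 11940226)] (nat_lit 5058382)) p15_31_3 (nat_lit 4) (nat_lit 4) (nat_lit 5) = true := by decide +kernel
def p15_31_3_5 : pfC (piC [(nat_lit 35065580), (nat_lit 23751559), (nat_lit 17719570), (nat_lit 11940226)] (nat_lit 5058382)) p15_31_3 (nat_lit 4) (nat_lit 5) (nat_lit 6) = true := by decide +kernel
def p15_31_3_6 : pfC (piC [(nat_lit 35065580), (nat_lit 23751559), (nat_lit 17719570), (nat_lit 11940226)] (nat_lit 5058382)) p15_31_3 (nat_lit 4) (nat_lit 6) (nat_lit 7) = true := by decide +kernel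
def p15_31_3_7 : pfC (piC [(nat_lit 35065580), (nat_lit 23751559), (nat_lit 17719570), (nat_lit 11940226)] (nat_lit 5058382)) p15_31_3 (nat_lit 4) (nat_lit 7) (nat_lit 8) = true := by decide +kernel
def p15_31_3_8 : pfC (piC [(nat_lit 35065580), (nat_lit 23751559), (nat_lit 17719570), (nat_lit 11940226)] (nat_lit 5058382)) p15_31_3 (nat_lit 4) (nat_lit 8) (nat_lit 9) = true := by decide +kernel
def p15_31_3_9 : pfC (piC [(nat_lit 35065580), (nat_lit 23751559), (nat_lit 17719570), (nat_lit 11940226)] (nat_lit 5058382)) p15_31_3 (nat_lit 4) (nat_lit 9) (nat_lit 10) = true := by decide +kernel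
def p15_31_3_10 : pfC (piC [(nat_lit 35065580), (nat_lit 23751559), (nat_lit 17719570), (nat_lit 11940226)] (nat_lit 5058382)) p15_31_3 (nat_lit 4) (nat_lit 10) (nat_lit 11) = true := by decide +kernel
def p15_31_3_11 : pfC (piC [(nat_lit 35065580), (nat_lit 23751559), (nat_lit 17719570), (nat_lit 11940226)] (nat_lit 5058382)) p15_31_3 (nat_lit 4) (nat_lit 11) (nat_lit 12) = true := by decide +kernel
def p15_31_3_12 : pfC (piC [(nat_lit 35065580), (nat_lit 23751559), (nat_lit 17719570), (nat_lit 11940226)] (nat_lit 5058382)) p15_31_3 (nat_lit 4) (nat_lit 12) (nat_lit 13) = true := by decide +kernel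
def p15_31_3_13 : pfC (piC [(nat_lit 35065580), (nat_lit 23751559), (nat_lit 17719570), (nat_lit 11940226)] (nat_lit 5058382)) p15_31_3 (nat_lit 4) (nat_lit 13) (nat_lit 14) = true := by decide +kernel
def p15_31_3_14 : pfC (piC [(nat_lit 35065580), (nat_lit 23751559), (nat_lit 17719570), (nat_lit 11940226)] (nat_lit 5058382)) p15_31_3 (nat_lit 4) (nat_lit 14) (nat_lit 15) = true := by decide +kernel
def p15_31_3_15 : pfC (piC [(nat_lit 35065580), (nat_lit 23751559), (nat_lit 17719570), (nat_lit 11940226)] (nat_lit 5058382)) p15_31_3 (nat_lit 4) (nat_lit 15) (nat_lit 16) = true := by decide +kernel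
def p15_31_3_16 : pfC (piC [(nat_lit 35065580), (nat_lit 23751559), (nat_lit 17719570), (nat_lit 11940226)] (nat_lit 5058382)) p15_31_3 (nat_lit 4) (nat_lit 16) (nat_lit 17) = true := by decide +kernel
def p15_31_3_17 : pfC (piC [(nat_lit 35065580), (nat_lit 23751559), (nat_lit 17719570), (nat_lit 11940226)] (nat_lit 5058382)) p15_31_3 (nat_lit 4) (nat_lit 17) (nat_lit 18) = true := by decide +kernel
def p15_31_3_18 : pfC (piC [(nat_lit 35065580), (nat_lit 23751559), (nat_lit 17719570), (nat_lit 11940226)] (nat_lit 5058382)) p15_31_3 (nat_lit 4) (nat_lit 18) (nat_lit 19) = true := by decide +kernel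
def p15_31_3_19 : pfC (piC [(nat_lit 35065580), (nat_lit 23751559), (nat_lit 17719570), (nat_lit 11940226)] (nat_lit 5058382)) p15_31_3 (nat_lit 4) (nat_lit 19) (nat_lit 20) = true := by decide +kernel
def p15_31_3_20 : pfC (piC [(nat_lit 35065580), (nat_lit 23751559), (nat_lit 17719570), (nat_lit 11940226)] (nat_lit 5058382)) p15_31_3 (nat_lit 4) (nat_lit 20) (nat_lit 21) = true := by decide +kernel
def p15_31_3_21 : pfC (piC [(nat_lit 35065580), (nat_lit 23751559), (nat_lit 17719570), (nat_lit 11940226)] (nat_lit 5058382)) p15_31_3 (nat_lit 4) (nat_lit 21) (nat_lit 22) = true := by decide +kernel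
def p15_31_3_22 : pfC (piC [(nat_lit 35065580), (nat_lit 23751559), (nat_lit 17719570), (nat_lit 11940226)] (nat_lit 5058382)) p15_31_3 (nat_lit 4) (nat_lit 22) (nat_lit 23) = true := by decide +kernel
def p15_31_3_23 : pfC (piC [(nat_lit 35065580), (nat_lit 23751559), (nat_lit 17719570), (nat_lit 11940226)] (nat_lit 5058382)) p15_31_3 (nat_lit 4) (nat_lit 23) (nat_lit 24) = true := by decide +kernel
def p15_31_3_24 : pfC (piC [(nat_lit 35065580), (nat_lit 23751559), (nat_lit 17719570), (nat_lit 11940226)] (nat_lit 5058382)) p15_31_3 (nat_lit 4) (nat_lit 24) (nat_lit 25) = true := by decide +kernel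
def p15_31_3_25 : pfC (piC [(nat_lit 35065580), (nat_lit 23751559), (nat_lit 17719570), (nat_lit 11940226)] (nat_lit 5058382)) p15_31_3 (nat_lit 4) (nat_lit 25) (nat_lit 26) = true := by decide +kernel
def p15_31_3_26 : pfC (piC [(nat_lit 35065580), (nat_lit 23751559), (nat_lit 17719570), (nat_lit 11940226)] (nat_lit 5058382)) p15_31_3 (nat_lit 4) (nat_lit 26) (nat_lit 27) = true := by decide +kernel
def p15_31_3_27 : pfC (piC [(nat_lit 35065580), (nat_lit 23751559), (nat_lit 17719570), (nat_lit 11940226)] (nat_lit 5058382)) p15_31_3 (nat_lit 4) (nat_lit 27) (nat_lit 28) = true := by decide +kernel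
def p15_31_3_28 : pfC (piC [(nat_lit 35065580), (nat_lit 23751559), (nat_lit 17719570), (nat_lit 11940226)] (nat_lit 5058382)) p15_31_3 (nat_lit 4) (nat_lit 28) (nat_lit 29) = true := by decide +kernel
def p15_31_3_29 : pfC (piC [(nat_lit 35065580), (nat_lit 23751559), (nat_lit 17719570), (nat_lit 11940226)] (nat_lit 5058382)) p15_31_3 (nat_lit 4) (nat_lit 29) (nat_lit 30) = true := by decide +kernel
def p15_31_3_30 : pfC (piC [(nat_lit 35065580), (nat_lit 23751559), (nat_lit 17719570), (nat_lit 11940226)] (nat_lit 5058382)) p15_31_3 (nat_lit 4) (nat_lit 30) (nat_lit 31) = true := by decide +kernel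
def p15_31_3_31 : pfC (piC [(nat_lit 35065580), (nat_lit 23751559), (nat_lit 17719570), (nat_lit 11940226)] (nat_lit 5058382)) p15_31_3 (nat_lit 4) (nat_lit 31) (nat_lit 32) = true := by decide +kernel
def p15_31_3_32 : pfC (piC [(nat_lit 35065580), (nat_lit 23751559), (nat_lit 17719570), (nat_lit 11940226)] (nat_lit 5058382)) p15_31_3 (nat_lit 4) (nat_lit 32) (nat_lit 33) = true := by decide +kernel
def p15_31_3_33 : pfC (piC [(nat_lit 35065580), (nat_lit 23751559), (nat_lit 17719570), (nat_lit 11940226)] (nat_lit 5058382)) p15_31_3 (nat_lit 4) (nat_lit 33) (nat_lit 34) = true := by decide +kernel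
def p15_31_3_34 : pfC (piC [(nat_lit 35065580), (nat_lit 23751559), (nat_lit 17719570), (nat_lit 11940226)] (nat_lit 5058382)) p15_31_3 (nat_lit 4) (nat_lit 34) (nat_lit 35) = true := by decide +kernel
def p15_31_3_35 : pfC (piC [(nat_lit 35065580), (nat_lit 23751559), (nat_lit 17719570), (nat_lit 11940226)] (nat_lit 5058382)) p15_31_3 (nat_lit 4) (nat_lit 35) (nat_lit 36) = true := by decide +kernel
def p15_31_3_36 : pfC (piC [(nat_lit 35065580), (nat_lit 23751559), (nat_lit 17719570), (nat_lit 11940226)] (nat_lit 5058382)) p15_31_3 (nat_lit 4) (nat_lit 36) (nat_lit 37) = true := by decide +kernel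
def p15_31_3_37 : pfC (piC [(nat_lit 35065580), (nat_lit 23751559), (nat_lit 17719570), (nat_lit 11940226)] (nat_lit 5058382)) p15_31_3 (nat_lit 4) (nat_lit 37) (nat_lit 38) = true := by decide +kernel
def p15_31_3_38 : pfC (piC [(nat_lit 35065580), (nat_lit 23751559), (nat_lit 17719570), (nat_lit 11940226)] (nat_lit 5058382)) p15_31_3 (nat_lit 4) (nat_lit 38) (nat_lit 39) = true := by decide +kernel
def p15_31_3_39 : pfC (piC [(nat_lit 35065580), (nat_lit 23751559), (nat_lit 17719570), (nat_lit 11940226)] (nat_lit 5058382)) p15_31_3 (nat_lit 4) (nat_lit 39) (nat_lit 40) = true := by decide +kernel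
def p15_31_3_40 : pfC (piC [(nat_lit 35065580), (nat_lit 23751559), (nat_lit 17719570), (nat_lit 11940226)] (nat_lit 5058382)) p15_31_3 (nat_lit 4) (nat_lit 40) (nat_lit 41) = true := by decide +kernel
def p15_31_3_41 : pfC (piC [(nat_lit 35065580), (nat_lit 23751559), (nat_lit 17719570), (nat_lit 11940226)] (nat_lit 5058382)) p15_31_3 (nat_lit 4) (nat_lit 41) (nat_lit 42) = true := by decide +kernel
def p15_31_3_42 : pfC (piC [(nat_lit 35065580), (nat_lit 23751559), (nat_lit 17719570), (nat_lit 11940226)] (nat_lit 5058382)) p15_31_3 (nat_lit 4) (nat_lit 42) (nat_lit 43) = true := by decide +kernel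
def p15_31_3_43 : pfC (piC [(nat_lit 35065580), (nat_lit 23751559), (nat_lit 17719570), (nat_lit 11940226)] (nat_lit 5058382)) p15_31_3 (nat_lit 4) (nat_lit 43) (nat_lit 44) = true := by decide +kernel
def p15_31_3_44 : pfC (piC [(nat_lit 35065580), (nat_lit 23751559), (nat_lit 17719570), (nat_lit 11940226)] (nat_lit 5058382)) p15_31_3 (nat_lit 4) (nat_lit 44) (nat_lit 45) = true := by decide +kernel
def p15_31_3_45 : pfC (piC [(nat_lit 35065580), (nat_lit 23751559), (nat_lit 17719570), (nat_lit 11940226)] (nat_lit 5058382)) p15_31_3 (nat_lit 4) (nat_lit 45) (nat_lit 46) = true := by decide +kernel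
def p15_31_3_46 : pfC (piC [(nat_lit 35065580), (nat_lit 23751559), (nat_lit 17719570), (nat_lit 11940226)] (nat_lit 5058382)) p15_31_3 (nat_lit 4) (nat_lit 46) (nat_lit 47) = true := by decide +kernel
def p15_31_3_47 : pfC (piC [(nat_lit 35065580), (nat_lit 23751559), (nat_lit 17719570), (nat_lit 11940226)] (nat_lit 5058382)) p15_31_3 (nat_lit 4) (nat_lit 47) (nat_lit 48) = true := by decide +kernel
def p15_31_3_48 : pfC (piC [(nat_lit 35065580), (nat_lit 23751559), (nat_lit 17719570), (nat_lit 11940226)] (nat_lit 5058382)) p15_31_3 (nat_lit 4) (nat_lit 48) (nat_lit 49) = true := by decide +kernel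
def p15_31_3_49 : pfC (piC [(nat_lit 35065580), (nat_lit 23751559), (nat_lit 17719570), (nat_lit 11940226)] (nat_lit 5058382)) p15_31_3 (nat_lit 4) (nat_lit 49) (nat_lit 50) = true := by decide +kernel
def p15_31_3_50 : pfC (piC [(nat_lit 35065580), (nat_lit 23751559), (nat_lit 17719570), (nat_lit 11940226)] (nat_lit 5058382)) p15_31_3 (nat_lit 4) (nat_lit 50) (nat_lit 51) = true := by decide +kernel
def p15_31_3_51 : pfC (piC [(nat_lit 35065580), (nat_lit 23751559), (nat_lit 17719570), (nat_lit 11940226)] (nat_lit 5058382)) p15_31_3 (nat_lit 4) (nat_lit 51) (nat_lit 52) = true := by decide +kernel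
def p15_31_3_52 : pfC (piC [(nat_lit 35065580), (nat_lit 23751559), (nat_lit 17719570), (nat_lit 11940226)] (nat_lit 5058382)) p15_31_3 (nat_lit 4) (nat_lit 52) (nat_lit 53) = true := by decide +kernel
def p15_31_3_53 : pfC (piC [(nat_lit 35065580), (nat_lit 23751559), (nat_lit 17719570), (nat_lit 11940226)] (nat_lit 5058382)) p15_31_3 (nat_lit 4) (nat_lit 53) (nat_lit 54) = true := by decide +kernel
def p15_31_3_54 : pfC (piC [(nat_lit 35065580), (nat_lit 23751559), (nat_lit 17719570), (nat_lit 11940226)] (nat_lit 5058382)) p15_31_3 (nat_lit 4) (nat_lit 54) (nat_lit 55) = true := by decide +kernel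
def p15_31_3_55 : pfC (piC [(nat_lit 35065580), (nat_lit 23751559), (nat_lit 17719570), (nat_lit 11940226)] (nat_lit 5058382)) p15_31_3 (nat_lit 4) (nat_lit 55) (nat_lit 56) = true := by decide +kernel
def p15_31_3_56 : pfC (piC [(nat_lit 35065580), (nat_lit 23751559), (nat_lit 17719570), (nat_lit 11940226)] (nat_lit 5058382)) p15_31_3 (nat_lit 4) (nat_lit 56) (nat_lit 57) = true := by decide +kernel
def p15_31_3_57 : pfC (piC [(nat_lit 35065580), (nat_lit 23751559), (nat_lit 17719570), (nat_lit 11940226)] (nat_lit 5058382)) p15_31_3 (nat_lit 4) (nat_lit 57) (nat_lit 58) = true := by decide +kernel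
def p15_31_3_58 : pfC (piC [(nat_lit 35065580), (nat_lit 23751559), (nat_lit 17719570), (nat_lit 11940226)] (nat_lit 5058382)) p15_31_3 (nat_lit 4) (nat_lit 58) (nat_lit 59) = true := by decide +kernel
def p15_31_3_59 : pfC (piC [(nat_lit 35065580), (nat_lit 23751559), (nat_lit 17719570), (nat_lit 11940226)] (nat_lit 5058382)) p15_31_3 (nat_lit 4) (nat_lit 59) (nat_lit 60) = true := by decide +kernel
def p15_31_3_60 : pfC (piC [(nat_lit 35065580), (nat_lit 23751559), (nat_lit 17719570), (nat_lit 11940226)] (nat_lit 5058382)) p15_31_3 (nat_lit 4) (nat_lit 60) (nat_lit 61) = true := by decide +kernel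
def p15_31_3_61 : pfC (piC [(nat_lit 35065580), (nat_lit 23751559), (nat_lit 17719570), (nat_lit 11940226)] (nat_lit 5058382)) p15_31_3 (nat_lit 4) (nat_lit 61) (nat_lit 62) = true := by decide +kernel
def p15_31_3_62 : pfC (piC [(nat_lit 35065580), (nat_lit 23751559), (nat_lit 17719570), (nat_lit 11940226)] (nat_lit 5058382)) p15_31_3 (nat_lit 4) (nat_lit 62) (nat_lit 63) = true := by decide +kernel
def p15_31_3_63 : pfC (piC [(nat_lit 35065580), (nat_lit 23751559), (nat_lit 17719570), (nat_lit 11940226)] (nat_lit 5058382)) p15_31_3 (nat_lit 4) (nat_lit 63) (nat_lit 64) = true := by decide +kernel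
def p15_31_3_64 : pfC (piC [(nat_lit 35065580), (nat_lit 23751559), (nat_lit 17719570), (nat_lit 11940226)] (nat_lit 5058382)) p15_31_3 (nat_lit 4) (nat_lit 64) (nat_lit 65) = true := by decide +kernel
def p15_31_3_65 : pfC (piC [(nat_lit 35065580), (nat_lit 23751559), (nat_lit 17719570), (nat_lit 11940226)] (nat_lit 5058382)) p15_31_3 (nat_lit 4) (nat_lit 65) (nat_lit 66) = true := by decide +kernel
def p15_31_3_66 : pfC (piC [(nat_lit 35065580), (nat_lit 23751559), (nat_lit 17719570), (nat_lit 11940226)] (nat_lit 5058382)) p15_31_3 (nat_lit 4) (nat_lit 66) (nat_lit 67) = true := by decide +kernel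
def p15_31_3_67 : pfC (piC [(nat_lit 35065580), (nat_lit 23751559), (nat_lit 17719570), (nat_lit 11940226)] (nat_lit 5058382)) p15_31_3 (nat_lit 4) (nat_lit 67) (nat_lit 68) = true := by decide +kernel
def p15_31_3_68 : pfC (piC [(nat_lit 35065580), (nat_lit 23751559), (nat_lit 17719570), (nat_lit 11940226)] (nat_lit 5058382)) p15_31_3 (nat_lit 4) (nat_lit 68) (nat_lit 69) = true := by decide +kernel
def p15_31_3_69 : pfC (piC [(nat_lit 35065580), (nat_lit 23751559), (nat_lit 17719570), (nat_lit 11940226)] (nat_lit 5058382)) p15_31_3 (nat_lit 4) (nat_lit 69) (nat_lit 70) = true := by decide +kernel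
def p15_31_3_70 : pfC (piC [(nat_lit 35065580), (nat_lit 23751559), (nat_lit 17719570), (nat_lit 11940226)] (nat_lit 5058382)) p15_31_3 (nat_lit 4) (nat_lit 70) (nat_lit 71) = true := by decide +kernel
def p15_31_3_71 : pfC (piC [(nat_lit 35065580), (nat_lit 23751559), (nat_lit 17719570), (nat_lit 11940226)] (nat_lit 5058382)) p15_31_3 (nat_lit 4) (nat_lit 71) (nat_lit 72) = true := by decide +kernel
def p15_31_3_72 : pfC (piC [(nat_lit 35065580), (nat_lit 23751559), (nat_lit 17719570), (nat_lit 11940226)] (nat_lit 5058382)) p15_31_3 (nat_lit 4) (nat_lit 72) (nat_lit 73) = true := by decide +kernel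
def p15_31_3_73 : pfC (piC [(nat_lit 35065580), (nat_lit 23751559), (nat_lit 17719570), (nat_lit 11940226)] (nat_lit 5058382)) p15_31_3 (nat_lit 4) (nat_lit 73) (nat_lit 74) = true := by decide +kernel
def p15_31_3_74 : pfC (piC [(nat_lit 35065580), (nat_lit 23751559), (nat_lit 17719570), (nat_lit 11940226)] (nat_lit 5058382)) p15_31_3 (nat_lit 4) (nat_lit 74) (nat_lit 75) = true := by decide +kernel
def p15_31_3_75 : pfC (piC [(nat_lit 35065580), (nat_lit 23751559), (nat_lit 17719570), (nat_lit 11940226)] (nat_lit 5058382)) p15_31_3 (nat_lit 4) (nat_lit 75) (nat_lit 76) = true := by decide +kernel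
def p15_31_3_76 : pfC (piC [(nat_lit 35065580), (nat_lit 23751559), (nat_lit 17719570), (nat_lit 11940226)] (nat_lit 5058382)) p15_31_3 (nat_lit 4) (nat_lit 76) (nat_lit 77) = true := by decide +kernel
def p15_31_3_77 : pfC (piC [(nat_lit 35065580), (nat_lit 23751559), (nat_lit 17719570), (nat_lit 11940226)] (nat_lit 5058382)) p15_31_3 (nat_lit 4) (nat_lit 77) (nat_lit 78) = true := by decide +kernel
def p15_31_3_78 : pfC (piC [(nat_lit 35065580), (nat_lit 23751559), (nat_lit 17719570), (nat_lit 11940226)] (nat_lit 5058382)) p15_31_3 (nat_lit 4) (nat_lit 78) (nat_lit 79) = true := by decide +kernel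
def p15_31_3_79 : pfC (piC [(nat_lit 35065580), (nat_lit 23751559), (nat_lit 17719570), (nat_lit 11940226)] (nat_lit 5058382)) p15_31_3 (nat_lit 4) (nat_lit 79) (nat_lit 80) = true := by decide +kernel
def p15_31_3_80 : pfC (piC [(nat_lit 35065580), (nat_lit 23751559), (nat_lit 17719570), (nat_lit 11940226)] (nat_lit 5058382)) p15_31_3 (nat_lit 4) (nat_lit 80) (nat_lit 81) = true := by decide +kernel
def p15_31_3_81 : pfC (piC [(nat_lit 35065580), (nat_lit 23751559), (nat_lit 17719570), (nat_lit 11940226)] (nat_lit 5058382)) p15_31_3 (nat_lit 4) (nat_lit 81) (nat_lit 82) = true := by decide +kernel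
def p15_31_3_82 : pfC (piC [(nat_lit 35065580), (nat_lit 23751559), (nat_lit 17719570), (nat_lit 11940226)] (nat_lit 5058382)) p15_31_3 (nat_lit 4) (nat_lit 82) (nat_lit 83) = true := by decide +kernel
def p15_31_3_83 : pfC (piC [(nat_lit 35065580), (nat_lit 23751559), (nat_lit 17719570), (nat_lit 11940226)] (nat_lit 5058382)) p15_31_3 (nat_lit 4) (nat_lit 83) (nat_lit 84) = true := by decide +kernel
def p15_31_3_84 : pfC (piC [(nat_lit 35065580), (nat_lit 23751559), (nat_lit 17719570), (nat_lit 11940226)] (nat_lit 5058382)) p15_31_3 (nat_lit 4) (nat_lit 84) (nat_lit 85) = true := by decide +kernel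
def p15_31_3_85 : pfC (piC [(nat_lit 35065580), (nat_lit 23751559), (nat_lit 17719570), (nat_lit 11940226)] (nat_lit 5058382)) p15_31_3 (nat_lit 4) (nat_lit 85) (nat_lit 86) = true := by decide +kernel
def p15_31_3_86 : pfC (piC [(nat_lit 35065580), (nat_lit 23751559), (nat_lit 17719570), (nat_lit 11940226)] (nat_lit 5058382)) p15_31_3 (nat_lit 4) (nat_lit 86) (nat_lit 87) = true := by decide +kernel
def p15_31_3_87 : pfC (piC [(nat_lit 35065580), (nat_lit 23751559), (nat_lit 17719570), (nat_lit 11940226)] (nat_lit 5058382)) p15_31_3 (nat_lit 4) (nat_lit 87) (nat_lit 88) = true := by decide +kernel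
def p15_31_3_88 : pfC (piC [(nat_lit 35065580), (nat_lit 23751559), (nat_lit 17719570), (nat_lit 11940226)] (nat_lit 5058382)) p15_31_3 (nat_lit 4) (nat_lit 88) (nat_lit 89) = true := by decide +kernel
def p15_31_3_89 : pfC (piC [(nat_lit 35065580), (nat_lit 23751559), (nat_lit 17719570), (nat_lit 11940226)] (nat_lit 5058382)) p15_31_3 (nat_lit 4) (nat_lit 89) (nat_lit 90) = true := by decide +kernel
def p15_31_3_90 : pfC (piC [(nat_lit 35065580), (nat_lit 23751559), (nat_lit 17719570), (nat_lit 11940226)] (nat_lit 5058382)) p15_31_3 (nat_lit 4) (nat_lit 90) (nat_lit 91) = true := by decide +kernel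
def p15_31_3_91 : pfC (piC [(nat_lit 35065580), (nat_lit 23751559), (nat_lit 17719570), (nat_lit 11940226)] (nat_lit 5058382)) p15_31_3 (nat_lit 4) (nat_lit 91) (nat_lit 92) = true := by decide +kernel
def p15_31_3_92 : pfC (piC [(nat_lit 35065580), (nat_lit 23751559), (nat_lit 17719570), (nat_lit 11940226)] (nat_lit 5058382)) p15_31_3 (nat_lit 4) (nat_lit 92) (nat_lit 93) = true := by decide +kernel
def p15_31_3_93 : pfC (piC [(nat_lit 35065580), (nat_lit 23751559), (nat_lit 17719570), (nat_lit 11940226)] (nat_lit 5058382)) p15_31_3 (nat_lit 4) (nat_lit 93) (nat_lit 94) = true := by decide +kernel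
def p15_31_3_94 : pfC (piC [(nat_lit 35065580), (nat_lit 23751559), (nat_lit 17719570), (nat_lit 11940226)] (nat_lit 5058382)) p15_31_3 (nat_lit 4) (nat_lit 94) (nat_lit 95) = true := by decide +kernel
def p15_31_3_95 : pfC (piC [(nat_lit 35065580), (nat_lit 23751559), (nat_lit 17719570), (nat_lit 11940226)] (nat_lit 5058382)) p15_31_3 (nat_lit 4) (nat_lit 95) (nat_lit 96) = true := by decide +kernel
def p15_31_3_96 : pfC (piC [(nat_lit 35065580), (nat_lit 23751559), (nat_lit 17719570), (nat_lit 11940226)] (nat_lit 5058382)) p15_31_3 (nat_lit 4) (nat_lit 96) (nat_lit 97) = true := by decide +kernel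
def p15_31_3_97 : pfC (piC [(nat_lit 35065580), (nat_lit 23751559), (nat_lit 17719570), (nat_lit 11940226)] (nat_lit 5058382)) p15_31_3 (nat_lit 4) (nat_lit 97) (nat_lit 98) = true := by decide +kernel
def p15_31_3_98 : pfC (piC [(nat_lit 35065580), (nat_lit 23751559), (nat_lit 17719570), (nat_lit 11940226)] (nat_lit 5058382)) p15_31_3 (nat_lit 4) (nat_lit 98) (nat_lit 99) = true := by decide +kernel
def p15_31_3_99 : pfC (piC [(nat_lit 35065580), (nat_lit 23751559), (nat_lit 17719570), (nat_lit 11940226)] (nat_lit 5058382)) p15_31_3 (nat_lit 4) (nat_lit 99) (nat_lit 100) = true := by decide +kernel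
def p15_31_3_100 : pfC (piC [(nat_lit 35065580), (nat_lit 23751559), (nat_lit 17719570), (nat_lit 11940226)] (nat_lit 5058382)) p15_31_3 (nat_lit 4) (nat_lit 100) (nat_lit 101) = true := by decide +kernel
def p15_31_3_101 : pfC (piC [(nat_lit 35065580), (nat_lit 23751559), (nat_lit 17719570), (nat_lit 11940226)] (nat_lit 5058382)) p15_31_3 (nat_lit 4) (nat_lit 101) (nat_lit 102) = true := by decide +kernel
def p15_31_3_102 : pfC (piC [(nat_lit 35065580), (nat_lit 23751559), (nat_lit 17719570), (nat_lit 11940226)] (nat_lit 5058382)) p15_31_3 (nat_lit 4) (nat_lit 102) (nat_lit 103) = true := by decide +kernel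
def p15_31_3_103 : pfC (piC [(nat_lit 35065580), (nat_lit 23751559), (nat_lit 17719570), (nat_lit 11940226)] (nat_lit 5058382)) p15_31_3 (nat_lit 4) (nat_lit 103) (nat_lit 104) = true := by decide +kernel
def p15_31_3_104 : pfC (piC [(nat_lit 35065580), (nat_lit 23751559), (nat_lit 17719570), (nat_lit 11940226)] (nat_lit 5058382)) p15_31_3 (nat_lit 4) (nat_lit 104) (nat_lit 105) = true := by decide +kernel
def p15_31_3_105 : pfC (piC [(nat_lit 35065580), (nat_lit 23751559), (nat_lit 17719570), (nat_lit 11940226)] (nat_lit 5058382)) p15_31_3 (nat_lit 4) (nat_lit 105) (nat_lit 106) = true := by decide +kernel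
def p15_31_3_106 : pfC (piC [(nat_lit 35065580), (nat_lit 23751559), (nat_lit 17719570), (nat_lit 11940226)] (nat_lit 5058382)) p15_31_3 (nat_lit 4) (nat_lit 106) (nat_lit 107) = true := by decide +kernel
def p15_31_3_107 : pfC (piC [(nat_lit 35065580), (nat_lit 23751559), (nat_lit 17719570), (nat_lit 11940226)] (nat_lit 5058382)) p15_31_3 (nat_lit 4) (nat_lit 107) (nat_lit 108) = true := by decide +kernel
def p15_31_3_108 : pfC (piC [(nat_lit 35065580), (nat_lit 23751559), (nat_lit 17719570), (nat_lit 11940226)] (nat_lit 5058382)) p15_31_3 (nat_lit 4) (nat_lit 108) (nat_lit 109) = true := by decide +kernel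
def p15_31_3_109 : pfC (piC [(nat_lit 35065580), (nat_lit 23751559), (nat_lit 17719570), (nat_lit 11940226)] (nat_lit 5058382)) p15_31_3 (nat_lit 4) (nat_lit 109) (nat_lit 110) = true := by decide +kernel
def p15_31_3_110 : pfC (piC [(nat_lit 35065580), (nat_lit 23751559), (nat_lit 17719570), (nat_lit 11940226)] (nat_lit 5058382)) p15_31_3 (nat_lit 4) (nat_lit 110) (nat_lit 111) = true := by decide +kernel
def p15_31_3_111 : pfC (piC [(nat_lit 35065580), (nat_lit 23751559), (nat_lit 17719570), (nat_lit 11940226)] (nat_lit 5058382)) p15_31_3 (nat_lit 4) (nat_lit 111) (nat_lit 112) = true := by decide +kernel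
def p15_31_3_112 : pfC (piC [(nat_lit 35065580), (nat_lit 23751559), (nat_lit 17719570), (nat_lit 11940226)] (nat_lit 5058382)) p15_31_3 (nat_lit 4) (nat_lit 112) (nat_lit 113) = true := by decide +kernel
def p15_31_3_113 : pfC (piC [(nat_lit 35065580), (nat_lit 23751559), (nat_lit 17719570), (nat_lit 11940226)] (nat_lit 5058382)) p15_31_3 (nat_lit 4) (nat_lit 113) (nat_lit 114) = true := by decide +kernel
def p15_31_3_114 : pfC (piC [(nat_lit 35065580), (nat_lit 23751559), (nat_lit 17719570), (nat_lit 11940226)] (nat_lit 5058382)) p15_31_3 (nat_lit 4) (nat_lit 114) (nat_lit 115) = true := by decide +kernel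
def p15_31_3_115 : pfC (piC [(nat_lit 35065580), (nat_lit 23751559), (nat_lit 17719570), (nat_lit 11940226)] (nat_lit 5058382)) p15_31_3 (nat_lit 4) (nat_lit 115) (nat_lit 116) = true := by decide +kernel
def p15_31_3_116 : pfC (piC [(nat_lit 35065580), (nat_lit 23751559), (nat_lit 17719570), (nat_lit 11940226)] (nat_lit 5058382)) p15_31_3 (nat_lit 4) (nat_lit 116) (nat_lit 117) = true := by decide +kernel
def p15_31_3_117 : pfC (piC [(nat_lit 35065580), (nat_lit 23751559), (nat_lit 17719570), (nat_lit 11940226)] (nat_lit 5058382)) p15_31_3 (nat_lit 4) (nat_lit 117) (nat_lit 118) = true := by decide +kernel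
def p15_31_3_118 : pfC (piC [(nat_lit 35065580), (nat_lit 23751559), (nat_lit 17719570), (nat_lit 11940226)] (nat_lit 5058382)) p15_31_3 (nat_lit 4) (nat_lit 118) (nat_lit 119) = true := by decide +kernel
def p15_31_3_119 : pfC (piC [(nat_lit 35065580), (nat_lit 23751559), (nat_lit 17719570), (nat_lit 11940226)] (nat_lit 5058382)) p15_31_3 (nat_lit 4) (nat_lit 119) (nat_lit 120) = true := by decide +kernel
def p15_31_3_120 : pfC (piC [(nat_lit 35065580), (nat_lit 23751559), (nat_lit 17719570), (nat_lit 11940226)] (nat_lit 5058382)) p15_31_3 (nat_lit 4) (nat_lit 120) (nat_lit 121) = true := by decide +kernel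
def p15_31_3_121 : pfC (piC [(nat_lit 35065580), (nat_lit 23751559), (nat_lit 17719570), (nat_lit 11940226)] (nat_lit 5058382)) p15_31_3 (nat_lit 4) (nat_lit 121) (nat_lit 122) = true := by decide +kernel
def p15_31_3_122 : pfC (piC [(nat_lit 35065580), (nat_lit 23751559), (nat_lit 17719570), (nat_lit 11940226)] (nat_lit 5058382)) p15_31_3 (nat_lit 4) (nat_lit 122) (nat_lit 123) = true := by decide +kernel
def p15_31_3_123 : pfC (piC [(nat_lit 35065580), (nat_lit 23751559), (nat_lit 17719570), (nat_lit 11940226)] (nat_lit 5058382)) p15_31_3 (nat_lit 4) (nat_lit 123) (nat_lit 124) = true := by decide +kernel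
def p15_31_3_124 : pfC (piC [(nat_lit 35065580), (nat_lit 23751559), (nat_lit 17719570), (nat_lit 11940226)] (nat_lit 5058382)) p15_31_3 (nat_lit 4) (nat_lit 124) (nat_lit 125) = true := by decide +kernel
def p15_31_3_125 : pfC (piC [(nat_lit 35065580), (nat_lit 23751559), (nat_lit 17719570), (nat_lit 11940226)] (nat_lit 5058382)) p15_31_3 (nat_lit 4) (nat_lit 125) (nat_lit 126) = true := by decide +kernel
def p15_31_3_126 : pfC (piC [(nat_lit 35065580), (nat_lit 23751559), (nat_lit 17719570), (nat_lit 11940226)] (nat_lit 5058382)) p15_31_3 (nat_lit 4) (nat_lit 126) (nat_lit 127) = true := by decide +kernel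
def p15_31_3_127 : pfC (piC [(nat_lit 35065580), (nat_lit 23751559), (nat_lit 17719570), (nat_lit 11940226)] (nat_lit 5058382)) p15_31_3 (nat_lit 4) (nat_lit 127) (nat_lit 128) = true := by decide +kernel
def p15_31_3_128 : pfC (piC [(nat_lit 35065580), (nat_lit 23751559), (nat_lit 17719570), (nat_lit 11940226)] (nat_lit 5058382)) p15_31_3 (nat_lit 4) (nat_lit 128) (nat_lit 129) = true := by decide +kernel
def p15_31_3_129 : pfC (piC [(nat_lit 35065580), (nat_lit 23751559), (nat_lit 17719570), (nat_lit 11940226)] (nat_lit 5058382)) p15_31_3 (nat_lit 4) (nat_lit 129) (nat_lit 130) = true := by decide +kernel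
def p15_31_3_130 : pfC (piC [(nat_lit 35065580), (nat_lit 23751559), (nat_lit 17719570), (nat_lit 11940226)] (nat_lit 5058382)) p15_31_3 (nat_lit 4) (nat_lit 130) (nat_lit 131) = true := by decide +kernel
def p15_31_3_131 : pfC (piC [(nat_lit 35065580), (nat_lit 23751559), (nat_lit 17719570), (nat_lit 11940226)] (nat_lit 5058382)) p15_31_3 (nat_lit 4) (nat_lit 131) (nat_lit 132) = true := by decide +kernel
def p15_31_3_132 : pfC (piC [(nat_lit 35065580), (nat_lit 23751559), (nat_lit 17719570), (nat_lit 11940226)] (nat_lit 5058382)) p15_31_3 (nat_lit 4) (nat_lit 132) (nat_lit 133) = true := by decide +kernel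
def p15_31_3_133 : pfC (piC [(nat_lit 35065580), (nat_lit 23751559), (nat_lit 17719570), (nat_lit 11940226)] (nat_lit 5058382)) p15_31_3 (nat_lit 4) (nat_lit 133) (nat_lit 134) = true := by decide +kernel
def p15_31_3_134 : pfC (piC [(nat_lit 35065580), (nat_lit 23751559), (nat_lit 17719570), (nat_lit 11940226)] (nat_lit 5058382)) p15_31_3 (nat_lit 4) (nat_lit 134) (nat_lit 135) = true := by decide +kernel
def p15_31_3_135 : pfC (piC [(nat_lit 35065580), (nat_lit 23751559), (nat_lit 17719570), (nat_lit 11940226)] (nat_lit 5058382)) p15_31_3 (nat_lit 4) (nat_lit 135) (nat_lit 136) = true := by decide +kernel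
def p15_31_3_136 : pfC (piC [(nat_lit 35065580), (nat_lit 23751559), (nat_lit 17719570), (nat_lit 11940226)] (nat_lit 5058382)) p15_31_3 (nat_lit 4) (nat_lit 136) (nat_lit 137) = true := by decide +kernel
def p15_31_3_137 : pfC (piC [(nat_lit 35065580), (nat_lit 23751559), (nat_lit 17719570), (nat_lit 11940226)] (nat_lit 5058382)) p15_31_3 (nat_lit 4) (nat_lit 137) (nat_lit 138) = true := by decide +kernel
def p15_31_3_138 : pfC (piC [(nat_lit 35065580), (nat_lit 23751559), (nat_lit 17719570), (nat_lit 11940226)] (nat_lit 5058382)) p15_31_3 (nat_lit 4) (nat_lit 138) (nat_lit 139) = true := by decide +kernel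
def p15_31_3_139 : pfC (piC [(nat_lit 35065580), (nat_lit 23751559), (nat_lit 17719570), (nat_lit 11940226)] (nat_lit 5058382)) p15_31_3 (nat_lit 4) (nat_lit 139) (nat_lit 140) = true := by decide +kernel
def p15_31_3_140 : pfC (piC [(nat_lit 35065580), (nat_lit 23751559), (nat_lit 17719570), (nat_lit 11940226)] (nat_lit 5058382)) p15_31_3 (nat_lit 4) (nat_lit 140) (nat_lit 141) = true := by decide +kernel
def p15_31_3_141 : pfC (piC [(nat_lit 35065580), (nat_lit 23751559), (nat_lit 17719570), (nat_lit 11940226)] (nat_lit 5058382)) p15_31_3 (nat_lit 4) (nat_lit 141) (nat_lit 142) = true := by decide +kernel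
def p15_31_3_142 : pfC (piC [(nat_lit 35065580), (nat_lit 23751559), (nat_lit 17719570), (nat_lit 11940226)] (nat_lit 5058382)) p15_31_3 (nat_lit 4) (nat_lit 142) (nat_lit 143) = true := by decide +kernel
def p15_31_3_143 : pfC (piC [(nat_lit 35065580), (nat_lit 23751559), (nat_lit 17719570), (nat_lit 11940226)] (nat_lit 5058382)) p15_31_3 (nat_lit 4) (nat_lit 143) (nat_lit 144) = true := by decide +kernel
def p15_31_3_144 : pfC (piC [(nat_lit 35065580), (nat_lit 23751559), (nat_lit 17719570), (nat_lit 11940226)] (nat_lit 5058382)) p15_31_3 (nat_lit 4) (nat_lit 144) (nat_lit 145) = true := by decide +kernel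
def p15_31_3_145 : pfC (piC [(nat_lit 35065580), (nat_lit 23751559), (nat_lit 17719570), (nat_lit 11940226)] (nat_lit 5058382)) p15_31_3 (nat_lit 4) (nat_lit 145) (nat_lit 146) = true := by decide +kernel
def p15_31_3_146 : pfC (piC [(nat_lit 35065580), (nat_lit 23751559), (nat_lit 17719570), (nat_lit 11940226)] (nat_lit 5058382)) p15_31_3 (nat_lit 4) (nat_lit 146) (nat_lit 147) = true := by decide +kernel
def p15_31_3_147 : pfC (piC [(nat_lit 35065580), (nat_lit 23751559), (nat_lit 17719570), (nat_lit 11940226)] (nat_lit 5058382)) p15_31_3 (nat_lit 4) (nat_lit 147) (nat_lit 148) = true := by decide +kernel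
def p15_31_3_148 : pfC (piC [(nat_lit 35065580), (nat_lit 23751559), (nat_lit 17719570), (nat_lit 11940226)] (nat_lit 5058382)) p15_31_3 (nat_lit 4) (nat_lit 148) (nat_lit 149) = true := by decide +kernel
def p15_31_3_149 : pfC (piC [(nat_lit 35065580), (nat_lit 23751559), (nat_lit 17719570), (nat_lit 11940226)] (nat_lit 5058382)) p15_31_3 (nat_lit 4) (nat_lit 149) (nat_lit 150) = true := by decide +kernel
def p15_31_3_150 : pfC (piC [(nat_lit 35065580), (nat_lit 23751559), (nat_lit 17719570), (nat_lit 11940226)] (nat_lit 5058382)) p15_31_3 (nat_lit 4) (nat_lit 150) (nat_lit 151) = true := by decide +kernel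
def p15_31_3_151 : pfC (piC [(nat_lit 35065580), (nat_lit 23751559), (nat_lit 17719570), (nat_lit 11940226)] (nat_lit 5058382)) p15_31_3 (nat_lit 4) (nat_lit 151) (nat_lit 152) = true := by decide +kernel
def p15_31_3_152 : pfC (piC [(nat_lit 35065580), (nat_lit 23751559), (nat_lit 17719570), (nat_lit 11940226)] (nat_lit 5058382)) p15_31_3 (nat_lit 4) (nat_lit 152) (nat_lit 153) = true := by decide +kernel
def p15_31_3_153 : pfC (piC [(nat_lit 35065580), (nat_lit 23751559), (nat_lit 17719570), (nat_lit 11940226)] (nat_lit 5058382)) p15_31_3 (nat_lit 4) (nat_lit 153) (nat_lit 154) = true := by decide +kernel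
def p15_31_3_154 : pfC (piC [(nat_lit 35065580), (nat_lit 23751559), (nat_lit 17719570), (nat_lit 11940226)] (nat_lit 5058382)) p15_31_3 (nat_lit 4) (nat_lit 154) (nat_lit 155) = true := by decide +kernel
def p15_31_3_155 : pfC (piC [(nat_lit 35065580), (nat_lit 23751559), (nat_lit 17719570), (nat_lit 11940226)] (nat_lit 5058382)) p15_31_3 (nat_lit 4) (nat_lit 155) (nat_lit 156) = true := by decide +kernel
def p15_31_3_156 : pfC (piC [(nat_lit 35065580), (nat_lit 23751559), (nat_lit 17719570), (nat_lit 11940226)] (nat_lit 5058382)) p15_31_3 (nat_lit 4) (nat_lit 156) (nat_lit 157) = true := by decide +kernel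
def p15_31_3_157 : pfC (piC [(nat_lit 35065580), (nat_lit 23751559), (nat_lit 17719570), (nat_lit 11940226)] (nat_lit 5058382)) p15_31_3 (nat_lit 4) (nat_lit 157) (nat_lit 158) = true := by decide +kernel
def p15_31_3_158 : pfC (piC [(nat_lit 35065580), (nat_lit 23751559), (nat_lit 17719570), (nat_lit 11940226)] (nat_lit 5058382)) p15_31_3 (nat_lit 4) (nat_lit 158) (nat_lit 159) = true := by decide +kernel
def p15_31_3_159 : pfC (piC [(nat_lit 35065580), (nat_lit 23751559), (nat_lit 17719570), (nat_lit 11940226)] (nat_lit 5058382)) p15_31_3 (nat_lit 4) (nat_lit 159) (nat_lit 160) = true := by decide +kernel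
def p15_31_3_160 : pfC (piC [(nat_lit 35065580), (nat_lit 23751559), (nat_lit 17719570), (nat_lit 11940226)] (nat_lit 5058382)) p15_31_3 (nat_lit 4) (nat_lit 160) (nat_lit 161) = true := by decide +kernel
def p15_31_3_161 : pfC (piC [(nat_lit 35065580), (nat_lit 23751559), (nat_lit 17719570), (nat_lit 11940226)] (nat_lit 5058382)) p15_31_3 (nat_lit 4) (nat_lit 161) (nat_lit 162) = true := by decide +kernel
def p15_31_3_162 : pfC (piC [(nat_lit 35065580), (nat_lit 23751559), (nat_lit 17719570), (nat_lit 11940226)] (nat_lit 5058382)) p15_31_3 (nat_lit 4) (nat_lit 162) (nat_lit 163) = true := by decide +kernel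
def p15_31_3_163 : pfC (piC [(nat_lit 35065580), (nat_lit 23751559), (nat_lit 17719570), (nat_lit 11940226)] (nat_lit 5058382)) p15_31_3 (nat_lit 4) (nat_lit 163) (nat_lit 164) = true := by decide +kernel
def p15_31_3_164 : pfC (piC [(nat_lit 35065580), (nat_lit 23751559), (nat_lit 17719570), (nat_lit 11940226)] (nat_lit 5058382)) p15_31_3 (nat_lit 4) (nat_lit 164) (nat_lit 165) = true := by decide +kernel
def p15_31_3_165 : pfC (piC [(nat_lit 35065580), (nat_lit 23751559), (nat_lit 17719570), (nat_lit 11940226)] (nat_lit 5058382)) p15_31_3 (nat_lit 4) (nat_lit 165) (nat_lit 166) = true := by decide +kernel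
def p15_31_3_166 : pfC (piC [(nat_lit 35065580), (nat_lit 23751559), (nat_lit 17719570), (nat_lit 11940226)] (nat_lit 5058382)) p15_31_3 (nat_lit 4) (nat_lit 166) (nat_lit 167) = true := by decide +kernel
def p15_31_3_167 : pfC (piC [(nat_lit 35065580), (nat_lit 23751559), (nat_lit 17719570), (nat_lit 11940226)] (nat_lit 5058382)) p15_31_3 (nat_lit 4) (nat_lit 167) (nat_lit 168) = true := by decide +kernel
def p15_31_3_168 : pfC (piC [(nat_lit 35065580), (nat_lit 23751559), (nat_lit 17719570), (nat_lit 11940226)] (nat_lit 5058382)) p15_31_3 (nat_lit 4) (nat_lit 168) (nat_lit 169) = true := by decide +kernel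
def p15_31_3_169 : pfC (piC [(nat_lit 35065580), (nat_lit 23751559), (nat_lit 17719570), (nat_lit 11940226)] (nat_lit 5058382)) p15_31_3 (nat_lit 4) (nat_lit 169) (nat_lit 170) = true := by decide +kernel
def p15_31_3_170 : pfC (piC [(nat_lit 35065580), (nat_lit 23751559), (nat_lit 17719570), (nat_lit 11940226)] (nat_lit 5058382)) p15_31_3 (nat_lit 4) (nat_lit 170) (nat_lit 171) = true := by decide +kernel
def p15_31_3_171 : pfC (piC [(nat_lit 35065580), (nat_lit 23751559), (nat_lit 17719570), (nat_lit 11940226)] (nat_lit 5058382)) p15_31_3 (nat_lit 4) (nat_lit 171) (nat_lit 172) = true := by decide +kernel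
def p15_31_3_172 : pfC (piC [(nat_lit 35065580), (nat_lit 23751559), (nat_lit 17719570), (nat_lit 11940226)] (nat_lit 5058382)) p15_31_3 (nat_lit 4) (nat_lit 172) (nat_lit 173) = true := by decide +kernel
def p15_31_3_173 : pfC (piC [(nat_lit 35065580), (nat_lit 23751559), (nat_lit 17719570), (nat_lit 11940226)] (nat_lit 5058382)) p15_31_3 (nat_lit 4) (nat_lit 173) (nat_lit 174) = true := by decide +kernel
def p15_31_3_174 : pfC (piC [(nat_lit 35065580), (nat_lit 23751559), (nat_lit 17719570), (nat_lit 11940226)] (nat_lit 5058382)) p15_31_3 (nat_lit 4) (nat_lit 174) (nat_lit 175) = true := by decide +kernel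
def p15_31_3_175 : pfC (piC [(nat_lit 35065580), (nat_lit 23751559), (nat_lit 17719570), (nat_lit 11940226)] (nat_lit 5058382)) p15_31_3 (nat_lit 4) (nat_lit 175) (nat_lit 176) = true := by decide +kernel
def p15_31_3_176 : pfC (piC [(nat_lit 35065580), (nat_lit 23751559), (nat_lit 17719570), (nat_lit 11940226)] (nat_lit 5058382)) p15_31_3 (nat_lit 4) (nat_lit 176) (nat_lit 177) = true := by decide +kernel
def p15_31_3_177 : pfC (piC [(nat_lit 35065580), (nat_lit 23751559), (nat_lit 17719570), (nat_lit 11940226)] (nat_lit 5058382)) p15_31_3 (nat_lit 4) (nat_lit 177) (nat_lit 178) = true := by decide +kernel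
def p15_31_3_178 : pfC (piC [(nat_lit 35065580), (nat_lit 23751559), (nat_lit 17719570), (nat_lit 11940226)] (nat_lit 5058382)) p15_31_3 (nat_lit 4) (nat_lit 178) (nat_lit 179) = true := by decide +kernel
def p15_31_3_179 : pfC (piC [(nat_lit 35065580), (nat_lit 23751559), (nat_lit 17719570), (nat_lit 11940226)] (nat_lit 5058382)) p15_31_3 (nat_lit 4) (nat_lit 179) (nat_lit 180) = true := by decide +kernel
def p15_31_3_180 : pfC (piC [(nat_lit 35065580), (nat_lit 23751559), (nat_lit 17719570), (nat_lit 11940226)] (nat_lit 5058382)) p15_31_3 (nat_lit 4) (nat_lit 180) (nat_lit 181) = true := by decide +kernel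
def p15_31_3_181 : pfC (piC [(nat_lit 35065580), (nat_lit 23751559), (nat_lit 17719570), (nat_lit 11940226)] (nat_lit 5058382)) p15_31_3 (nat_lit 4) (nat_lit 181) (nat_lit 182) = true := by decide +kernel
def p15_31_3_182 : pfC (piC [(nat_lit 35065580), (nat_lit 23751559), (nat_lit 17719570), (nat_lit 11940226)] (nat_lit 5058382)) p15_31_3 (nat_lit 4) (nat_lit 182) (nat_lit 183) = true := by decide +kernel
def p15_31_3_183 : pfC (piC [(nat_lit 35065580), (nat_lit 23751559), (nat_lit 17719570), (nat_lit 11940226)] (nat_lit 5058382)) p15_31_3 (nat_lit 4) (nat_lit 183) (nat_lit 184) = true := by decide +kernel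
def p15_31_3_184 : pfC (piC [(nat_lit 35065580), (nat_lit 23751559), (nat_lit 17719570), (nat_lit 11940226)] (nat_lit 5058382)) p15_31_3 (nat_lit 4) (nat_lit 184) (nat_lit 185) = true := by decide +kernel
def p15_31_3_185 : pfC (piC [(nat_lit 35065580), (nat_lit 23751559), (nat_lit 17719570), (nat_lit 11940226)] (nat_lit 5058382)) p15_31_3 (nat_lit 4) (nat_lit 185) (nat_lit 186) = true := by decide +kernel
def p15_31_3_186 : pfC (piC [(nat_lit 35065580), (nat_lit 23751559), (nat_lit 17719570), (nat_lit 11940226)] (nat_lit 5058382)) p15_31_3 (nat_lit 4) (nat_lit 186) (nat_lit 187) = true := by decide +kernel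
def p15_31_3_187 : pfC (piC [(nat_lit 35065580), (nat_lit 23751559), (nat_lit 17719570), (nat_lit 11940226)] (nat_lit 5058382)) p15_31_3 (nat_lit 4) (nat_lit 187) (nat_lit 188) = true := by decide +kernel
def p15_31_3_188 : pfC (piC [(nat_lit 35065580), (nat_lit 23751559), (nat_lit 17719570), (nat_lit 11940226)] (nat_lit 5058382)) p15_31_3 (nat_lit 4) (nat_lit 188) (nat_lit 189) = true := by decide +kernel
def p15_31_3_189 : pfC (piC [(nat_lit 35065580), (nat_lit 23751559), (nat_lit 17719570), (nat_lit 11940226)] (nat_lit 5058382)) p15_31_3 (nat_lit 4) (nat_lit 189) (nat_lit 190) = true := by decide +kernel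
def p15_31_3_190 : pfC (piC [(nat_lit 35065580), (nat_lit 23751559), (nat_lit 17719570), (nat_lit 11940226)] (nat_lit 5058382)) p15_31_3 (nat_lit 4) (nat_lit 190) (nat_lit 191) = true := by decide +kernel
def p15_31_3_191 : pfC (piC [(nat_lit 35065580), (nat_lit 23751559), (nat_lit 17719570), (nat_lit 11940226)] (nat_lit 5058382)) p15_31_3 (nat_lit 4) (nat_lit 191) (nat_lit 192) = true := by decide +kernel
def p15_31_3_192 : pfC (piC [(nat_lit 35065580), (nat_lit 23751559), (nat_lit 17719570), (nat_lit 11940226)] (nat_lit 5058382)) p15_31_3 (nat_lit 4) (nat_lit 192) (nat_lit 193) = true := by decide +kernel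
def p15_31_3_193 : pfC (piC [(nat_lit 35065580), (nat_lit 23751559), (nat_lit 17719570), (nat_lit 11940226)] (nat_lit 5058382)) p15_31_3 (nat_lit 4) (nat_lit 193) (nat_lit 194) = true := by decide +kernel
def p15_31_3_194 : pfC (piC [(nat_lit 35065580), (nat_lit 23751559), (nat_lit 17719570), (nat_lit 11940226)] (nat_lit 5058382)) p15_31_3 (nat_lit 4) (nat_lit 194) (nat_lit 195) = true := by decide +kernel
def p15_31_3_195 : pfC (piC [(nat_lit 35065580), (nat_lit 23751559), (nat_lit 17719570), (nat_lit 11940226)] (nat_lit 5058382)) p15_31_3 (nat_lit 4) (nat_lit 195) (nat_lit 196) = true := by decide +kernel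
def p15_31_3_196 : pfC (piC [(nat_lit 35065580), (nat_lit 23751559), (nat_lit 17719570), (nat_lit 11940226)] (nat_lit 5058382)) p15_31_3 (nat_lit 4) (nat_lit 196) (nat_lit 197) = true := by decide +kernel
def p15_31_3_197 : pfC (piC [(nat_lit 35065580), (nat_lit 23751559), (nat_lit 17719570), (nat_lit 11940226)] (nat_lit 5058382)) p15_31_3 (nat_lit 4) (nat_lit 197) (nat_lit 198) = true := by decide +kernel
def p15_31_3_198 : pfC (piC [(nat_lit 35065580), (nat_lit 23751559), (nat_lit 17719570), (nat_lit 11940226)] (nat_lit 5058382)) p15_31_3 (nat_lit 4) (nat_lit 198) (nat_lit 199) = true := by decide +kernel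
def p15_31_3_199 : pfC (piC [(nat_lit 35065580), (nat_lit 23751559), (nat_lit 17719570), (nat_lit 11940226)] (nat_lit 5058382)) p15_31_3 (nat_lit 4) (nat_lit 199) (nat_lit 200) = true := by decide +kernel
def p15_31_3_200 : pfC (piC [(nat_lit 35065580), (nat_lit 23751559), (nat_lit 17719570), (nat_lit 11940226)] (nat_lit 5058382)) p15_31_3 (nat_lit 4) (nat_lit 200) (nat_lit 201) = true := by decide +kernel
def p15_31_3_201 : pfC (piC [(nat_lit 35065580), (nat_lit 23751559), (nat_lit 17719570), (nat_lit 11940226)] (nat_lit 5058382)) p15_31_3 (nat_lit 4) (nat_lit 201) (nat_lit 202) = true := by decide +kernel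
def p15_31_3_202 : pfC (piC [(nat_lit 35065580), (nat_lit 23751559), (nat_lit 17719570), (nat_lit 11940226)] (nat_lit 5058382)) p15_31_3 (nat_lit 4) (nat_lit 202) (nat_lit 203) = true := by decide +kernel
def p15_31_3_203 : pfC (piC [(nat_lit 35065580), (nat_lit 23751559), (nat_lit 17719570), (nat_lit 11940226)] (nat_lit 5058382)) p15_31_3 (nat_lit 4) (nat_lit 203) (nat_lit 204) = true := by decide +kernel
def p15_31_3_204 : pfC (piC [(nat_lit 35065580), (nat_lit 23751559), (nat_lit 17719570), (nat_lit 11940226)] (nat_lit 5058382)) p15_31_3 (nat_lit 4) (nat_lit 204) (nat_lit 205) = true := by decide +kernel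
def p15_31_3_205 : pfC (piC [(nat_lit 35065580), (nat_lit 23751559), (nat_lit 17719570), (nat_lit 11940226)] (nat_lit 5058382)) p15_31_3 (nat_lit 4) (nat_lit 205) (nat_lit 206) = true := by decide +kernel
def p15_31_3_206 : pfC (piC [(nat_lit 35065580), (nat_lit 23751559), (nat_lit 17719570), (nat_lit 11940226)] (nat_lit 5058382)) p15_31_3 (nat_lit 4) (nat_lit 206) (nat_lit 207) = true := by decide +kernel
def p15_31_3_207 : pfC (piC [(nat_lit 35065580), (nat_lit 23751559), (nat_lit 17719570), (nat_lit 11940226)] (nat_lit 5058382)) p15_31_3 (nat_lit 4) (nat_lit 207) (nat_lit 208) = true := by decide +kernel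
def p15_31_3_208 : pfC (piC [(nat_lit 35065580), (nat_lit 23751559), (nat_lit 17719570), (nat_lit 11940226)] (nat_lit 5058382)) p15_31_3 (nat_lit 4) (nat_lit 208) (nat_lit 209) = true := by decide +kernel
def p15_31_3_209 : pfC (piC [(nat_lit 35065580), (nat_lit 23751559), (nat_lit 17719570), (nat_lit 11940226)] (nat_lit 5058382)) p15_31_3 (nat_lit 4) (nat_lit 209) (nat_lit 210) = true := by decide +kernel
def p15_31_3_210 : pfC (piC [(nat_lit 35065580), (nat_lit 23751559), (nat_lit 17719570), (nat_lit 11940226)] (nat_lit 5058382)) p15_31_3 (nat_lit 4) (nat_lit 210) (nat_lit 211) = true := by decide +kernel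
def p15_31_3_211 : pfC (piC [(nat_lit 35065580), (nat_lit 23751559), (nat_lit 17719570), (nat_lit 11940226)] (nat_lit 5058382)) p15_31_3 (nat_lit 4) (nat_lit 211) (nat_lit 212) = true := by decide +kernel
def p15_31_3_212 : pfC (piC [(nat_lit 35065580), (nat_lit 23751559), (nat_lit 17719570), (nat_lit 11940226)] (nat_lit 5058382)) p15_31_3 (nat_lit 4) (nat_lit 212) (nat_lit 213) = true := by decide +kernel
def p15_31_3_213 : pfC (piC [(nat_lit 35065580), (nat_lit 23751559), (nat_lit 17719570), (nat_lit 11940226)] (nat_lit 5058382)) p15_31_3 (nat_lit 4) (nat_lit 213) (nat_lit 214) = true := by decide +kernel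
def p15_31_3_214 : pfC (piC [(nat_lit 35065580), (nat_lit 23751559), (nat_lit 17719570), (nat_lit 11940226)] (nat_lit 5058382)) p15_31_3 (nat_lit 4) (nat_lit 214) (nat_lit 215) = true := by decide +kernel
def p15_31_3_215 : pfC (piC [(nat_lit 35065580), (nat_lit 23751559), (nat_lit 17719570), (nat_lit 11940226)] (nat_lit 5058382)) p15_31_3 (nat_lit 4) (nat_lit 215) (nat_lit 216) = true := by decide +kernel
def p15_31_3_216 : pfC (piC [(nat_lit 35065580), (nat_lit 23751559), (nat_lit 17719570), (nat_lit 11940226)] (nat_lit 5058382)) p15_31_3 (nat_lit 4) (nat_lit 216) (nat_lit 217) = true := by decide +kernel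
def p15_31_3_217 : pfC (piC [(nat_lit 35065580), (nat_lit 23751559), (nat_lit 17719570), (nat_lit 11940226)] (nat_lit 5058382)) p15_31_3 (nat_lit 4) (nat_lit 217) (nat_lit 218) = true := by decide +kernel
def p15_31_3_218 : pfC (piC [(nat_lit 35065580), (nat_lit 23751559), (nat_lit 17719570), (nat_lit 11940226)] (nat_lit 5058382)) p15_31_3 (nat_lit 4) (nat_lit 218) (nat_lit 219) = true := by decide +kernel
def p15_31_3_219 : pfC (piC [(nat_lit 35065580), (nat_lit 23751559), (nat_lit 17719570), (nat_lit 11940226)] (nat_lit 5058382)) p15_31_3 (nat_lit 4) (nat_lit 219) (nat_lit 220) = true := by decide +kernel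
def p15_31_3_220 : pfC (piC [(nat_lit 35065580), (nat_lit 23751559), (nat_lit 17719570), (nat_lit 11940226)] (nat_lit 5058382)) p15_31_3 (nat_lit 4) (nat_lit 220) (nat_lit 221) = true := by decide +kernel
def p15_31_3_221 : pfC (piC [(nat_lit 35065580), (nat_lit 23751559), (nat_lit 17719570), (nat_lit 11940226)] (nat_lit 5058382)) p15_31_3 (nat_lit 4) (nat_lit 221) (nat_lit 222) = true := by decide +kernel
def p15_31_3_222 : pfC (piC [(nat_lit 35065580), (nat_lit 23751559), (nat_lit 17719570), (nat_lit 11940226)] (nat_lit 5058382)) p15_31_3 (nat_lit 4) (nat_lit 222) (nat_lit 223) = true := by decide +kernel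
def p15_31_3_223 : pfC (piC [(nat_lit 35065580), (nat_lit 23751559), (nat_lit 17719570), (nat_lit 11940226)] (nat_lit 5058382)) p15_31_3 (nat_lit 4) (nat_lit 223) (nat_lit 224) = true := by decide +kernel
def p15_31_3_224 : pfC (piC [(nat_lit 35065580), (nat_lit 23751559), (nat_lit 17719570), (nat_lit 11940226)] (nat_lit 5058382)) p15_31_3 (nat_lit 4) (nat_lit 224) (nat_lit 225) = true := by decide +kernel
def p15_31_3_225 : pfC (piC [(nat_lit 35065580), (nat_lit 23751559), (nat_lit 17719570), (nat_lit 11940226)] (nat_lit 5058382)) p15_31_3 (nat_lit 4) (nat_lit 225) (nat_lit 226) = true := by decide +kernel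
def p15_31_3_226 : pfC (piC [(nat_lit 35065580), (nat_lit 23751559), (nat_lit 17719570), (nat_lit 11940226)] (nat_lit 5058382)) p15_31_3 (nat_lit 4) (nat_lit 226) (nat_lit 227) = true := by decide +kernel
def p15_31_3_227 : pfC (piC [(nat_lit 35065580), (nat_lit 23751559), (nat_lit 17719570), (nat_lit 11940226)] (nat_lit 5058382)) p15_31_3 (nat_lit 4) (nat_lit 227) (nat_lit 228) = true := by decide +kernel
def p15_31_3_228 : pfC (piC [(nat_lit 35065580), (nat_lit 23751559), (nat_lit 17719570), (nat_lit 11940226)] (nat_lit 5058382)) p15_31_3 (nat_lit 4) (nat_lit 228) (nat_lit 229) = true := by decide +kernel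
def p15_31_3_229 : pfC (piC [(nat_lit 35065580), (nat_lit 23751559), (nat_lit 17719570), (nat_lit 11940226)] (nat_lit 5058382)) p15_31_3 (nat_lit 4) (nat_lit 229) (nat_lit 230) = true := by decide +kernel
def p15_31_3_230 : pfC (piC [(nat_lit 35065580), (nat_lit 23751559), (nat_lit 17719570), (nat_lit 11940226)] (nat_lit 5058382)) p15_31_3 (nat_lit 4) (nat_lit 230) (nat_lit 231) = true := by decide +kernel
def p15_31_3_231 : pfC (piC [(nat_lit 35065580), (nat_lit 23751559), (nat_lit 17719570), (nat_lit 11940226)] (nat_lit 5058382)) p15_31_3 (nat_lit 4) (nat_lit 231) (nat_lit 232) = true := by decide +kernel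
def p15_31_3_232 : pfC (piC [(nat_lit 35065580), (nat_lit 23751559), (nat_lit 17719570), (nat_lit 11940226)] (nat_lit 5058382)) p15_31_3 (nat_lit 4) (nat_lit 232) (nat_lit 233) = true := by decide +kernel
def p15_31_3_233 : pfC (piC [(nat_lit 35065580), (nat_lit 23751559), (nat_lit 17719570), (nat_lit 11940226)] (nat_lit 5058382)) p15_31_3 (nat_lit 4) (nat_lit 233) (nat_lit 234) = true := by decide +kernel
def p15_31_3_234 : pfC (piC [(nat_lit 35065580), (nat_lit 23751559), (nat_lit 17719570), (nat_lit 11940226)] (nat_lit 5058382)) p15_31_3 (nat_lit 4) (nat_lit 234) (nat_lit 235) = true := by decide +kernel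
def p15_31_3_235 : pfC (piC [(nat_lit 35065580), (nat_lit 23751559), (nat_lit 17719570), (nat_lit 11940226)] (nat_lit 5058382)) p15_31_3 (nat_lit 4) (nat_lit 235) (nat_lit 236) = true := by decide +kernel
def p15_31_3_236 : pfC (piC [(nat_lit 35065580), (nat_lit 23751559), (nat_lit 17719570), (nat_lit 11940226)] (nat_lit 5058382)) p15_31_3 (nat_lit 4) (nat_lit 236) (nat_lit 237) = true := by decide +kernel
def p15_31_3_237 : pfC (piC [(nat_lit 35065580), (nat_lit 23751559), (nat_lit 17719570), (nat_lit 11940226)] (nat_lit 5058382)) p15_31_3 (nat_lit 4) (nat_lit 237) (nat_lit 238) = true := by decide +kernel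
def p15_31_3_238 : pfC (piC [(nat_lit 35065580), (nat_lit 23751559), (nat_lit 17719570), (nat_lit 11940226)] (nat_lit 5058382)) p15_31_3 (nat_lit 4) (nat_lit 238) (nat_lit 239) = true := by decide +kernel
def p15_31_3_239 : pfC (piC [(nat_lit 35065580), (nat_lit 23751559), (nat_lit 17719570), (nat_lit 11940226)] (nat_lit 5058382)) p15_31_3 (nat_lit 4) (nat_lit 239) (nat_lit 240) = true := by decide +kernel
def p15_31_3_240 : pfC (piC [(nat_lit 35065580), (nat_lit 23751559), (nat_lit 17719570), (nat_lit 11940226)] (nat_lit 5058382)) p15_31_3 (nat_lit 4) (nat_lit 240) (nat_lit 241) = true := by decide +kernel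
def p15_31_3_241 : pfC (piC [(nat_lit 35065580), (nat_lit 23751559), (nat_lit 17719570), (nat_lit 11940226)] (nat_lit 5058382)) p15_31_3 (nat_lit 4) (nat_lit 241) (nat_lit 242) = true := by decide +kernel
def p15_31_3_242 : pfC (piC [(nat_lit 35065580), (nat_lit 23751559), (nat_lit 17719570), (nat_lit 11940226)] (nat_lit 5058382)) p15_31_3 (nat_lit 4) (nat_lit 242) (nat_lit 243) = true := by decide +kernel
def p15_31_3_243 : pfC (piC [(nat_lit 35065580), (nat_lit 23751559), (nat_lit 17719570), (nat_lit 11940226)] (nat_lit 5058382)) p15_31_3 (nat_lit 4) (nat_lit 243) (nat_lit 244) = true := by decide +kernel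
def p15_31_3_244 : pfC (piC [(nat_lit 35065580), (nat_lit 23751559), (nat_lit 17719570), (nat_lit 11940226)] (nat_lit 5058382)) p15_31_3 (nat_lit 4) (nat_lit 244) (nat_lit 245) = true := by decide +kernel
def p15_31_3_245 : pfC (piC [(nat_lit 35065580), (nat_lit 23751559), (nat_lit 17719570), (nat_lit 11940226)] (nat_lit 5058382)) p15_31_3 (nat_lit 4) (nat_lit 245) (nat_lit 246) = true := by decide +kernel
def p15_31_3_246 : pfC (piC [(nat_lit 35065580), (nat_lit 23751559), (nat_lit 17719570), (nat_lit 11940226)] (nat_lit 5058382)) p15_31_3 (nat_lit 4) (nat_lit 246) (nat_lit 247) = true := by decide +kernel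
def p15_31_3_247 : pfC (piC [(nat_lit 35065580), (nat_lit 23751559), (nat_lit 17719570), (nat_lit 11940226)] (nat_lit 5058382)) p15_31_3 (nat_lit 4) (nat_lit 247) (nat_lit 248) = true := by decide +kernel
theorem p15_31_3_T : PfS (PiF n15_31.reverse (nat_lit 5058382)) p15_31_3 (nat_lit 4) [] 0 :=
  pftab_of (los := [(nat_lit 35065580), (nat_lit 23751559), (nat_lit 17719570), (nat_lit 11940226)]) (by decide +kernel) (hi := (nat_lit 248)) (PfP.trans (PfP.trans (PfP.trans (PfP.trans (PfP.trans (PfP.trans (PfP.trans (PfP.trans (PfP.trans (PfP.trans (PfP.trans (PfP.trans (PfP.trans (PfP.trans (PfP.trans (PfP.trans (PfP.trans (PfP.trans (PfP.trans (PfP.trans (PfP.trans (PfP.trans (PfP.trans (PfP.trans (PfP.trans (PfP.trans (PfP.trans (PfP.trans (PfP.trans (PfP.trans (PfP.trans (PfP.trans (PfP.trans (PfP.trans (PfP.trans (PfP.trans (PfP.trans (PfP.trans (PfP.trans (PfP.trans (PfP.trans (PfP.trans (PfP.trans (PfP.trans (PfP.trans (PfP.trans (PfP.trans (PfP.trans (PfP.trans (PfP.trans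 (PfP.trans (PfP.trans (PfP.trans (PfP.trans (PfP.trans (PfP.trans (PfP.trans (PfP.trans (PfP.trans (PfP.trans (PfP.trans (PfP.trans (PfP.trans (PfP.trans (PfP.trans (PfP.trans (PfP.trans (PfP.trans (PfP.trans (PfP.trans (PfP.trans (PfP.trans (PfP.trans (PfP.trans (PfP.trans (PfP.trans (PfP.trans (PfP.trans (PfP.trans (PfP.trans (PfP.trans (PfP.trans (PfP.trans (PfP.trans (PfP.trans (PfP.trans (PfP.trans (PfP.trans (PfP.trans (PfP.trans (PfP.trans (PfP.trans (PfP.trans (PfP.trans (PfP.trans (PfP.trans (PfP.trans (PfP.trans (PfP.trans (PfP.trans (PfP.trans (PfP.trans (PfP.trans (PfP.trans (PfP.trans (PfP.trans (PfP.trans (PfP.trans (PfP.trans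
 (PfP.trans (PfP.trans (PfP.trans (PfP.trans (PfP.trans (PfP.trans (PfP.trans (PfP.trans (PfP.trans (PfP.trans (PfP.trans (PfP.trans (PfP.trans (PfP.trans (PfP.trans (PfP.trans (PfP.trans (PfP.trans (PfP.trans (PfP.trans (PfP.trans (PfP.trans (PfP.trans (PfP.trans (PfP.trans (PfP.trans (PfP.trans (PfP.trans (PfP.trans (PfP.trans (PfP.trans (PfP.trans (PfP.trans (PfP.trans (PfP.trans (PfP.trans (PfP.trans (PfP.trans (PfP.trans (PfP.trans (PfP.trans (PfP.trans (PfP.trans (PfP.trans (PfP.trans (PfP.trans (PfP.trans (PfP.trans (PfP.trans (PfP.trans (PfP.trans (PfP.trans (PfP.trans (PfP.trans (PfP.trans (PfP.trans (PfP.trans (PfP.trans (PfP.trans (PfP.trans (PfP.trans (PfP.trans (PfP.trans (PfP.trans (PfP.trans (PfP.trans (PfP.trans (PfP.trans (PfP.trans (PfP.trans (PfP.trans (PfP.trans (PfP.trans (PfP.trans (PfP.trans (PfP.trans (PfP.trans (PfP.trans (PfP.trans (PfP.trans (PfP.trans (PfP.trans (PfP.trans (PfP.trans (PfP.trans (PfP.trans (PfP.trans (PfP.trans (PfP.trans (PfP.trans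 (PfP.trans (PfP.trans (PfP.trans (PfP.trans (PfP.trans (PfP.trans (PfP.trans (PfP.trans (PfP.trans (PfP.trans (PfP.trans (PfP.trans (PfP.trans (PfP.trans (PfP.trans (PfP.trans (PfP.trans (PfP.trans (PfP.trans
 (PfP.trans (PfP.trans (PfP.trans (PfP.trans (PfP.trans (PfP.trans (PfP.trans (PfP.trans (PfP.trans (PfP.trans (PfP.trans (PfP.trans (PfP.trans (PfP.trans (PfP.trans (PfP.trans (PfP.trans (PfP.trans (PfP.trans (PfP.trans (PfP.trans (PfP.trans (PfP.trans (PfP.trans (PfP.trans (PfP.trans (PfP.trans (PfP.trans (PfP.trans (pfC_sound p15_31_3_0) (pfC_sound p15_31_3_1)) (pfC_sound p15_31_3_2)) (pfC_sound p15_31_3_3)) (pfC_sound p15_31_3_4)) (pfC_sound p15_31_3_5)) (pfC_sound p15_31_3_6)) (pfC_sound p15_31_3_7)) (pfC_sound p15_31_3_8)) (pfC_sound p15_31_3_9)) (pfC_sound p15_31_3_10)) (pfC_sound p15_31_3_11)) (pfC_sound p15_31_3_12)) (pfC_sound p15_31_3_13)) (pfC_sound p15_31_3_14)) (pfC_sound p15_31_3_15)) (pfC_sound p15_31_3_16)) (pfC_sound p15_31_3_17)) (pfC_sound p15_31_3_18))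 (pfC_sound p15_31_3_19)) (pfC_sound p15_31_3_20)) (pfC_sound p15_31_3_21)) (pfC_sound p15_31_3_22)) (pfC_sound p15_31_3_23)) (pfC_sound p15_31_3_24)) (pfC_sound p15_31_3_25)) (pfC_sound p15_31_3_26)) (pfC_sound p15_31_3_27)) (pfC_sound p15_31_3_28)) (pfC_sound p15_31_3_29)) (pfC_sound p15_31_3_30)) (pfC_sound p15_31_3_31)) (pfC_sound p15_31_3_32)) (pfC_sound p15_31_3_33)) (pfC_sound p15_31_3_34)) (pfC_sound
 p15_31_3_35)) (pfC_sound p15_31_3_36)) (pfC_sound p15_31_3_37)) (pfC_sound p15_31_3_38)) (pfC_sound p15_31_3_39)) (pfC_sound p15_31_3_40)) (pfC_sound p15_31_3_41)) (pfC_sound p15_31_3_42)) (pfC_sound p15_31_3_43)) (pfC_sound p15_31_3_44)) (pfC_sound p15_31_3_45)) (pfC_sound p15_31_3_46)) (pfC_sound p15_31_3_47)) (pfC_sound p15_31_3_48)) (pfC_sound p15_31_3_49)) (pfC_sound p15_31_3_50)) (pfC_sound p15_31_3_51)) (pfC_sound p15_31_3_52)) (pfC_sound p15_31_3_53)) (pfC_sound p15_31_3_54)) (pfC_sound p15_31_3_55)) (pfC_sound p15_31_3_56)) (pfC_sound p15_31_3_57)) (pfC_sound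 p15_31_3_58)) (pfC_sound p15_31_3_59)) (pfC_sound p15_31_3_60)) (pfC_sound p15_31_3_61)) (pfC_sound p15_31_3_62)) (pfC_sound p15_31_3_63)) (pfC_sound p15_31_3_64)) (pfC_sound p15_31_3_65)) (pfC_sound p15_31_3_66)) (pfC_sound p15_31_3_67)) (pfC_sound p15_31_3_68)) (pfC_sound p15_31_3_69)) (pfC_sound p15_31_3_70)) (pfC_sound p15_31_3_71)) (pfC_sound p15_31_3_72)) (pfC_sound p15_31_3_73)) (pfC_sound p15_31_3_74)) (pfC_sound p15_31_3_75)) (pfC_sound p15_31_3_76)) (pfC_sound p15_31_3_77)) (pfC_sound p15_31_3_78)) (pfC_sound p15_31_3_79)) (pfC_sound p15_31_3_80)) (pfC_sound p15_31_3_81)) (pfC_sound p15_31_3_82)) (pfC_sound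
 p15_31_3_83)) (pfC_sound p15_31_3_84)) (pfC_sound p15_31_3_85)) (pfC_sound p15_31_3_86)) (pfC_sound p15_31_3_87)) (pfC_sound p15_31_3_88)) (pfC_sound p15_31_3_89)) (pfC_sound p15_31_3_90)) (pfC_sound p15_31_3_91)) (pfC_sound p15_31_3_92)) (pfC_sound p15_31_3_93)) (pfC_sound p15_31_3_94)) (pfC_sound p15_31_3_95)) (pfC_sound p15_31_3_96)) (pfC_sound p15_31_3_97)) (pfC_sound p15_31_3_98)) (pfC_sound p15_31_3_99)) (pfC_sound p15_31_3_100)) (pfC_sound p15_31_3_101)) (pfC_sound p15_31_3_102)) (pfC_sound p15_31_3_103)) (pfC_sound p15_31_3_104)) (pfC_sound p15_31_3_105)) (pfC_sound p15_31_3_106)) (pfC_sound p15_31_3_107)) (pfC_sound p15_31_3_108)) (pfC_sound p15_31_3_109)) (pfC_sound p15_31_3_110)) (pfC_sound p15_31_3_111)) (pfC_sound p15_31_3_112)) (pfC_sound p15_31_3_113)) (pfC_sound p15_31_3_114)) (pfC_sound p15_31_3_115)) (pfC_sound p15_31_3_116)) (pfC_sound p15_31_3_117)) (pfC_sound p15_31_3_118)) (pfC_sound p15_31_3_119)) (pfC_sound p15_31_3_120)) (pfC_sound p15_31_3_121))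 (pfC_sound p15_31_3_122)) (pfC_sound p15_31_3_123)) (pfC_sound p15_31_3_124)) (pfC_sound p15_31_3_125)) (pfC_sound p15_31_3_126)) (pfC_sound p15_31_3_127)) (pfC_sound p15_31_3_128)) (pfC_sound p15_31_3_129))
 (pfC_sound p15_31_3_130)) (pfC_sound p15_31_3_131)) (pfC_sound p15_31_3_132)) (pfC_sound p15_31_3_133)) (pfC_sound p15_31_3_134)) (pfC_sound p15_31_3_135)) (pfC_sound p15_31_3_136)) (pfC_sound p15_31_3_137)) (pfC_sound p15_31_3_138)) (pfC_sound p15_31_3_139)) (pfC_sound p15_31_3_140)) (pfC_sound p15_31_3_141)) (pfC_sound p15_31_3_142)) (pfC_sound p15_31_3_143)) (pfC_sound p15_31_3_144)) (pfC_sound p15_31_3_145)) (pfC_sound p15_31_3_146)) (pfC_sound p15_31_3_147)) (pfC_sound p15_31_3_148)) (pfC_sound p15_31_3_149)) (pfC_sound p15_31_3_150)) (pfC_sound p15_31_3_151)) (pfC_sound p15_31_3_152)) (pfC_sound p15_31_3_153)) (pfC_sound p15_31_3_154)) (pfC_sound p15_31_3_155)) (pfC_sound p15_31_3_156)) (pfC_sound p15_31_3_157)) (pfC_sound p15_31_3_158)) (pfC_sound p15_31_3_159))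 (pfC_sound p15_31_3_160)) (pfC_sound p15_31_3_161)) (pfC_sound p15_31_3_162)) (pfC_sound p15_31_3_163)) (pfC_sound p15_31_3_164)) (pfC_sound p15_31_3_165)) (pfC_sound p15_31_3_166)) (pfC_sound p15_31_3_167)) (pfC_sound p15_31_3_168)) (pfC_sound p15_31_3_169)) (pfC_sound p15_31_3_170)) (pfC_sound p15_31_3_171)) (pfC_sound p15_31_3_172)) (pfC_sound p15_31_3_173)) (pfC_sound p15_31_3_174)) (pfC_sound p15_31_3_175))
 (pfC_sound p15_31_3_176)) (pfC_sound p15_31_3_177)) (pfC_sound p15_31_3_178)) (pfC_sound p15_31_3_179)) (pfC_sound p15_31_3_180)) (pfC_sound p15_31_3_181)) (pfC_sound p15_31_3_182)) (pfC_sound p15_31_3_183)) (pfC_sound p15_31_3_184)) (pfC_sound p15_31_3_185)) (pfC_sound p15_31_3_186)) (pfC_sound p15_31_3_187)) (pfC_sound p15_31_3_188)) (pfC_sound p15_31_3_189)) (pfC_sound p15_31_3_190)) (pfC_sound p15_31_3_191)) (pfC_sound p15_31_3_192)) (pfC_sound p15_31_3_193)) (pfC_sound p15_31_3_194)) (pfC_sound p15_31_3_195)) (pfC_sound p15_31_3_196)) (pfC_sound p15_31_3_197))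 (pfC_sound p15_31_3_198)) (pfC_sound p15_31_3_199)) (pfC_sound p15_31_3_200)) (pfC_sound p15_31_3_201)) (pfC_sound p15_31_3_202)) (pfC_sound p15_31_3_203)) (pfC_sound p15_31_3_204)) (pfC_sound p15_31_3_205)) (pfC_sound p15_31_3_206)) (pfC_sound p15_31_3_207)) (pfC_sound p15_31_3_208)) (pfC_sound p15_31_3_209)) (pfC_sound p15_31_3_210)) (pfC_sound p15_31_3_211)) (pfC_sound p15_31_3_212)) (pfC_sound p15_31_3_213)) (pfC_sound p15_31_3_214)) (pfC_sound p15_31_3_215)) (pfC_sound p15_31_3_216)) (pfC_sound p15_31_3_217)) (pfC_sound p15_31_3_218)) (pfC_sound p15_31_3_219)) (pfC_sound p15_31_3_220)) (pfC_sound p15_31_3_221))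
 (pfC_sound p15_31_3_222)) (pfC_sound p15_31_3_223)) (pfC_sound p15_31_3_224)) (pfC_sound p15_31_3_225)) (pfC_sound p15_31_3_226)) (pfC_sound p15_31_3_227)) (pfC_sound p15_31_3_228)) (pfC_sound p15_31_3_229)) (pfC_sound p15_31_3_230)) (pfC_sound p15_31_3_231)) (pfC_sound p15_31_3_232)) (pfC_sound p15_31_3_233)) (pfC_sound p15_31_3_234)) (pfC_sound p15_31_3_235)) (pfC_sound p15_31_3_236)) (pfC_sound p15_31_3_237)) (pfC_sound p15_31_3_238)) (pfC_sound p15_31_3_239)) (pfC_sound p15_31_3_240)) (pfC_sound p15_31_3_241)) (pfC_sound p15_31_3_242)) (pfC_sound p15_31_3_243)) (pfC_sound p15_31_3_244)) (pfC_sound p15_31_3_245)) (pfC_sound p15_31_3_246)) (pfC_sound p15_31_3_247)) (by decide +kernel)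

def z15_31_3 : zOK yB15_31 (nat_lit 3) (nat_lit 750) (nat_lit 792) (nat_lit 5058382) (nat_lit 4861332) = true := by decide +kernel
def g15_31_3 : gOK yB15_31.x P15_31 (nat_lit 1399) (q15_31 :: r15_31) (nat_lit 3) (nat_lit 750) (nat_lit 4) (nat_lit 792) (nat_lit 12712500) (nat_lit 12712500) (nat_lit 12712500) (nat_lit 12712500) [(nat_lit 800)] = true := by decide +kernel
end CB
end Pool.Agent.Lib.MP_6947cd_al
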